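import Pool.Agent.MP_a38735_al.WP
import Mathlib.Algebra.BigOperators.Intervals
import Mathlib.Data.Int.Interval
import Mathlib.Tactic.LinearCombination
import Mathlib.Tactic.Positivity

set_option autoImplicit false

namespace Pool.Agent.MP_a38735_al.WL

variable {G : Type*} [Group G] {W : ℤ → G} {n Q : ℤ}

/-- some positive powers agree -/
def Cm (u v : G) : Prop := ∃ a b : ℕ, 0 < a ∧ 0 < b ∧ u ^ a = v ^ b

theorem Cm.of_eq {u v : G} (h : u = v) : Cm u v := ⟨1, 1, one_pos, one_pos, by rw [h]⟩

theorem Cm.symm {u v : G} (h : Cm u v) : Cm v u := by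
  obtain ⟨a, b, h1, h2, e⟩ := h
  exact ⟨b, a, h2, h1, e.symm⟩

theorem Cm.trans {u v w : G} (h : Cm u v) (k : Cm v w) : Cm u w := by
  obtain ⟨a, b, h1, h2, e⟩ := h
  obtain ⟨c, d, k1, k2, f⟩ := k
  exact ⟨a * c, d * b, by positivity, by positivity,
    by rw [pow_mul, e, ← pow_mul, mul_comm, pow_mul, f, ← pow_mul]⟩

theorem Cm.sqr {u v : G} (h : v = u * u) : Cm u v :=
  ⟨2, 1, two_pos, one_pos, by rw [h, pow_one, sq]⟩

theorem AL.ncm (al : AL W n Q) (t : ℤ) : ¬ Cm (W t) (W t)⁻¹ := by
  rintro ⟨a, b, h1, -, e⟩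
  exact al.tf t (a + b) (by omega) (by rw [pow_add, e, inv_pow, inv_mul_cancel])

/-- a rotation that keeps the letters outside `[p, e]` but for one soft place `x`, changes them at
`p` and `e`, and a reflection defined on `(p, e)` -/
theorem soft (al : AL W n Q) (s x p e c : ℤ)
    (h : s % 2 = 0 ∧ c % 2 = 0 ∧ x < p ∧ p < e ∧ e < x + n) (X : Cm (W x) (W (x + s)))
    (B : ∀ t, x < t → t < p → W (t + s) = W t) (A : ∀ t, e < t → t < x + n → W (t + s) = W t)
    (T : ∀ t, p < t → t < e → W (c - t) = (W t)⁻¹) (n1 : W (p + s) ≠ W p)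
    (n2 : W (e + s) ≠ W e) : False := by
  classical
  obtain ⟨s2, c2, xp, pe, ex⟩ := h
  have hg : 0 < n := by omega
  have g2 := al.ev
  have per := al.per
  obtain ⟨k, rfl⟩ : ∃ k, e = p + k - 1 := ⟨e - p + 1, by ring⟩
  have rel : ∀ t, k ≤ (t - p) % n → W (t + s) = W t ∨ (n ∣ t - x ∧ Cm (W t) (W (t + s))) := by
    intro t ht
    have e1 := Int.mul_ediv_add_emod (t - p) n
    have l2 := Int.emod_lt_of_pos (t - p) hg
    generalize (t - p) % n = r at *
    generalize (t - p) / n = q at *
    rw [show t + s = p + r + s + q * n by linarith, show t = p + r + q * n by linarith,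
      perM per, perM per]
    rcases lt_trichotomy (p + r) (x + n) with z | z | z
    · exact Or.inl (A _ (by omega) z)
    · rw [z, per, add_right_comm, per]
      exact Or.inr ⟨⟨q + 1, by ring⟩, X⟩
    · rw [← sub_add_cancel (p + r) n, per, add_right_comm, per]
      exact Or.inl (B _ (by omega) (by omega))
  have gap : ∀ y, W (y + s) ≠ W y → (¬ ∃ i : ℕ, n ∣ y + i * s - x) →
      ∃ (i : ℕ) (d m : ℤ), d ≠ 0 ∧ -k < d ∧ d < k ∧ i * s = d + m * n := by
    intro y ne no
    obtain ⟨N, hN⟩ : ∃ N : ℕ, (N : ℤ) + 1 = n := ⟨(n - 1).toNat, by omega⟩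
    let O : ℤ → Prop := fun t => ∃ i : ℕ, n ∣ y + i * s - t
    have o1 : ∀ t, O (t + n) ↔ O t := fun t => exists_congr fun i => by
      rw [← sub_sub]; exact (Int.dvd_iff_dvd_of_dvd_sub (by simp)).trans Iff.rfl
    have o2 : ∀ t, O (t + s) ↔ O t := fun t => by
      constructor <;> rintro ⟨i, m, hm⟩
      · exact ⟨i + N, m + s, by push_cast; linear_combination hm + s * hN⟩
      · exact ⟨i + 1, m, by push_cast; linear_combination hm⟩
    have oy : O y := ⟨0, by simp⟩
    refine rot_gap (P := fun t => if O t then W t else 1) (b := p) (x := y) hg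
      (fun t => by simp only [o1, per]) (fun t ht => ?_) (by simpa only [o2, if_pos oy] using ne)
    simp only [o2]
    split_ifs with o
    · refine (rel t ht).resolve_right fun z => no (o.imp fun i hi => ?_)
      simpa using Int.dvd_add hi z.1
    · rfl
  obtain ⟨i, d, m, d0, d1, d2, e⟩ :
      ∃ (i : ℕ) (d m : ℤ), d ≠ 0 ∧ -k < d ∧ d < k ∧ i * s = d + m * n := by
    by_contra no
    obtain ⟨a, u, hu⟩ := not_not.1 (mt (gap _ n1) no)
    obtain ⟨b, v, hv⟩ := not_not.1 (mt (gap _ n2) no)
    obtain ⟨N, hN⟩ : ∃ N : ℕ, (N : ℤ) + 1 = n := ⟨(n - 1).toNat, by omega⟩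
    exact no ⟨a + N * b, k - 1, u - v + b * s, by omega, by omega, by omega,
      by push_cast; linear_combination hu - hv + b * s * hN⟩
  have k3 : 3 ≤ k := by
    obtain ⟨g, rfl⟩ : ∃ u, n = 2 * u := ⟨n / 2, by omega⟩
    obtain ⟨s, rfl⟩ : ∃ u, s = 2 * u := ⟨s / 2, by omega⟩
    have : d = 2 * (i * s - m * g) := by linarith
    omega
  have hit := rot_hit (b := p) hg (by omega) d0 d1 d2 e
  obtain ⟨f, f1, f2⟩ : ∃ f : ℤ → ℕ, (∀ t, (t + f t * s - p) % n < k) ∧
      ∀ t, ∀ j < f t, k ≤ (t + j * s - p) % n :=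
    ⟨fun t => Nat.find (hit t), fun t => Nat.find_spec (hit t),
      fun t j hj => le_of_not_gt (Nat.find_min (hit t) hj)⟩
  have same : ∀ t, ∀ j ≤ f t, Cm (W t) (W (t + j * s)) := by
    intro t j
    induction j with
    | zero => exact fun _ => Cm.of_eq (by simp)
    | succ j ih =>
      intro hj
      rw [show t + ((j + 1 : ℕ) : ℤ) * s = t + j * s + s by push_cast; ring]
      exact (ih (by omega)).trans
        ((rel _ (f2 t j (by omega))).elim (fun z => Cm.of_eq z.symm) And.right)
  obtain ⟨κ, hκ⟩ : ∃ κ : ℤ → ℤ, ∀ t, κ t = (t + f t * s - p) % n := ⟨_, fun _ => rfl⟩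
  have κ0 : ∀ t, 0 ≤ κ t := fun t => hκ t ▸ Int.emod_nonneg _ hg.ne'
  have κ1 : ∀ t, κ t < k := fun t => hκ t ▸ f1 t
  have κe : ∀ t, Cm (W t) (W (p + κ t)) ∧ (p + κ t - t) % 2 = 0 := by
    intro t
    have e1 := Int.mul_ediv_add_emod (t + f t * s - p) n
    rw [← hκ] at e1
    generalize (t + f t * s - p) / n = q at e1
    constructor
    · have := same t _ le_rfl
      rwa [show t + f t * s = p + κ t + q * n by linarith, perM per] at this
    · obtain ⟨g, rfl⟩ : ∃ u, n = 2 * u := ⟨n / 2, by omega⟩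
      obtain ⟨s, rfl⟩ : ∃ u, s = 2 * u := ⟨s / 2, by omega⟩
      have : p + κ t - t = 2 * (f t * s - g * q) := by linarith
      omega
  have κm : ∀ t, κ (t + 1) ≤ κ t + 1 := by
    intro t
    have sh : ∀ j : ℕ, t + 1 + j * s - p = t + j * s - p + 1 := fun j => by ring
    have a0 := κ0 t
    have a1 := κ1 t
    have a2 := κ1 (t + 1)
    rcases lt_trichotomy (f t) (f (t + 1)) with h | h | h
    · have u := f2 _ _ h
      rw [sh] at u
      have v := emod_succ hg (t + f t * s - p)
      rw [← hκ] at v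
      omega
    · have v := emod_succ hg (t + f t * s - p)
      rw [← hκ, ← sh, h, ← hκ] at v
      omega
    · have u := f2 _ _ h
      have v := emod_succ hg (t + f (t + 1) * s - p)
      rw [← sh, ← hκ] at v
      omega
  have nf : ∀ u, 0 < u → u < k - 1 → κ (c - (p + u)) ≠ u := fun u u0 u1 z => by
    have a := (κe (c - (p + u))).1
    rw [z, T _ (by omega) (by omega)] at a
    exact al.ncm _ a.symm
  have key : ∀ u, 1 ≤ u → u < k - 1 → u < κ (c - (p + u)) := by
    intro u u1
    induction u, u1 using Int.leInduction with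
    | base =>
      intro hu
      have := (κe (c - (p + 1))).2
      have := κ0 (c - (p + 1))
      have := nf 1 (by omega) hu
      omega
    | succ u u1 ih =>
      intro hu
      have a0 := κm (c - (p + (u + 1)))
      rw [show c - (p + (u + 1)) + 1 = c - (p + u) by ring] at a0
      have := ih (by omega)
      have := (κe (c - (p + u))).2
      have := nf (u + 1) (by omega) hu
      omega
  have := key (k - 2) (by omega) (by omega)
  have := κ1 (c - (p + (k - 2)))
  have := (κe (c - (p + (k - 2)))).2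
  omega

theorem sum_rot {f : ℤ → ℤ} (n0 : 0 ≤ n) (per : ∀ t, f (t + n) = f t) (a b : ℤ) :
    ∑ t ∈ Finset.range n.toNat, f (a + t) = ∑ t ∈ Finset.range n.toNat, f (b + t) := by
  have st : ∀ a, ∑ t ∈ Finset.range n.toNat, f (a + 1 + t) =
      ∑ t ∈ Finset.range n.toNat, f (a + t) := fun a => by
    have h1 := Finset.sum_range_succ (fun t : ℕ => f (a + t)) n.toNat
    have h2 := Finset.sum_range_succ' (fun t : ℕ => f (a + t)) n.toNat
    rw [Int.toNat_of_nonneg n0, per] at h1
    simp only [Nat.cast_add, Nat.cast_one, Nat.cast_zero, add_zero, ← add_assoc] at h2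
    simp only [add_right_comm a 1]
    omega
  obtain ⟨d, rfl⟩ : ∃ d, a = b + d := ⟨a - b, by ring⟩
  induction d using Int.induction_on with
  | zero => simp
  | succ d ih => rw [← add_assoc, st, ih]
  | pred d ih => rw [← ih, ← st]; congr 2; funext t; congr 1; ring

/-- a rotation that keeps the letters but for three places permutes the letters there -/
theorem rot3 {β : Type*} {V : ℤ → β} (per : ∀ t, V (t + n) = V t) (s x y w : ℤ)
    (h : x < y ∧ y < w ∧ w < x + n) (X : ∀ t, x < t → t < y → V (t + s) = V t)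
    (Y : ∀ t, y < t → t < w → V (t + s) = V t) (Z : ∀ t, w < t → t < x + n → V (t + s) = V t)
    (φ : β → ℤ) :
    φ (V (x + s)) + φ (V (y + s)) + φ (V (w + s)) = φ (V x) + φ (V y) + φ (V w) := by
  have e := sum_rot (f := fun t => φ (V t)) (n := n) (by omega) (fun t => by rw [per]) (x + s) x
  rw [← sub_eq_zero, ← Finset.sum_sub_distrib, ← Finset.sum_subset
    (s₁ := {0, (y - x).toNat, (w - x).toNat})] at e
  · rw [Finset.sum_insert (by simp; omega), Finset.sum_pair (by omega),
      Int.toNat_of_nonneg (by omega), Int.toNat_of_nonneg (by omega)] at e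
    simp only [add_right_comm x s, add_sub_cancel, Nat.cast_zero, add_zero] at e
    omega
  · intro t ht
    simp only [Finset.mem_insert, Finset.mem_singleton, Finset.mem_range] at ht ⊢
    omega
  · intro t h1 h2
    simp only [Finset.mem_insert, Finset.mem_singleton, Finset.mem_range] at h1 h2
    rw [add_right_comm, sub_eq_zero]
    congr 1
    by_cases c : x + t < y
    · exact X _ (by omega) c
    by_cases c' : x + t < w
    exacts [Y _ (by omega) c', Z _ (by omega) (by omega)]

/-- a rotation that squares the letter at two places and halves it at a third -/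
theorem soft3 (al : AL W n Q) (s x y w : ℤ) (h : x < y ∧ y < w ∧ w < x + n)
    (X : ∀ t, x < t → t < y → W (t + s) = W t) (Y : ∀ t, y < t → t < w → W (t + s) = W t)
    (Z : ∀ t, w < t → t < x + n → W (t + s) = W t) (r1 : W (x + s) = W x * W x)
    (r2 : W (y + s) = W y * W y) (r3 : W w = W (w + s) * W (w + s)) : False := by
  classical
  have k := fun z => rot3 al.per s x y w h X Y Z fun u => if u = z then 1 else 0
  have t1 := al.tf x
  have t2 : W y ≠ 1 := fun z => al.tf y 1 one_pos (by simpa using z)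
  have t3 : W (w + s) ≠ 1 := fun z => al.tf _ 1 one_pos (by simpa using z)
  rw [r1, r2, r3] at k
  generalize W x = a at *
  generalize W y = b at *
  generalize W (w + s) = c at *
  have a1 : a ≠ 1 := fun z => t1 1 one_pos (by simpa using z)
  have a2 : a * a ≠ 1 := fun z => t1 2 two_pos (by rw [sq, z])
  have a3 : a * a * (a * a) ≠ a := fun z => t1 3 (by omega) (by
    rw [pow_three', ← mul_left_inj a, one_mul, mul_assoc (a * a), z])
  have k1 := k a
  have k2 := k b
  have k3 := k (a * a)
  have k4 := k c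
  by_cases e1 : a * a = b
  · subst e1
    simp [a1, a2, a3] at k1 k2 k4
    grind
  · by_cases e2 : b * b = a
    · subst e2
      simp [t2, t3] at k1 k2 k3 k4 e1 a1 a2 a3
      grind
    · simp [t2, t3, a1, e1, e2] at k1 k2 k3 k4
      grind

end Pool.Agent.MP_a38735_al.WL
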