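import Pool.Agent.MP_a38735_al.IM
import Pool.Agent.MP_a38735_al.IM2
import Mathlib.Data.Int.LeastGreatest

set_option autoImplicit false

namespace Pool.Agent.MP_a38735_al.WL

open Function

/-- move by `h` below `j` and by `g` from `j` on, back into `(e - n, e]` -/
def adF (j e n h g t : ℤ) : ℤ :=
  if t < j then (if t + h ≤ e then t + h else t + h - n)
  else (if t + g ≤ e then t + g else t + g - n)

theorem cyc_shift {β : Type*} (f : ℤ → β) (φ : ℤ → ℤ) (w : ℤ) (N : ℕ) (hN : φ^[N + 1] w = w)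
    (h : ∀ m : ℕ, φ^[m] w ≠ w → f (φ (φ^[m] w)) = f (φ^[m] w)) : f (φ w) = f w := by
  have key : ∀ m : ℕ, f (φ^[m + 1] w) = f (φ w) ∨ f (φ w) = f w := by
    intro m
    induction m with
    | zero => exact Or.inl rfl
    | succ m ih =>
      rcases ih with ih | ih
      · by_cases z : φ^[m + 1] w = w
        · exact Or.inr (by rw [← ih, z])
        · exact Or.inl (by rw [iterate_succ_apply' φ (m + 1), h _ z, ih])
      · exact Or.inr ih
  rcases key N with z | z
  · rw [hN] at z; exact z.symm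
  · exact z

/-- two overlapping shifts: every place is carried into the gap `[p, e]` -/
theorem ad_hit {β : Type*} {V : ℤ → β} {n i j p e h g : ℤ} (per : ∀ t, V (t + n) = V t)
    (H : 0 < h ∧ g = h + j - i ∧ g < n ∧ i < j ∧ j < p ∧ p + g < e + h ∧ e < n + i)
    (U : ∀ t, e - n < t → t < j → V (t + h) = V t) (B : ∀ t, i < t → t < p → V (t + g) = V t)
    (n1 : V (p + g) ≠ V p) (n2 : V (e - n + h) ≠ V (e - n)) (y : ℤ) (y0 : e - n < y) (y1 : y ≤ e) :
    ∃ N : ℕ, p ≤ (adF j e n h g)^[N] y := by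
  classical
  obtain ⟨φ, hφ⟩ : ∃ φ, φ = adF j e n h g := ⟨_, rfl⟩
  have df : ∀ t, φ t = if t < j then (if t + h ≤ e then t + h else t + h - n)
      else (if t + g ≤ e then t + g else t + g - n) := fun t => hφ ▸ rfl
  rw [← hφ]
  by_contra no
  have no : ∀ N : ℕ, φ^[N] y < p := fun N => lt_of_not_ge fun z => no ⟨N, z⟩
  have cl : ∀ x ∈ Finset.Ioc (e - n) e, φ x ∈ Finset.Ioc (e - n) e := fun x hx => by
    rw [Finset.mem_Ioc] at hx ⊢
    rw [df]
    split_ifs <;> omega
  have hy : y ∈ Finset.Ioc (e - n) e := Finset.mem_Ioc.2 ⟨y0, y1⟩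
  obtain ⟨m, hm⟩ := im_per cl hy
  let O : ℤ → Prop := fun w => ∃ a : ℕ, w = φ^[a + m] y
  have o1 : ∀ w, O w → O (φ w) := by
    rintro w ⟨a, rfl⟩
    exact ⟨a + 1, by rw [add_right_comm, iterate_succ_apply']⟩
  have o2 : ∀ w, O w → ∀ a : ℕ, O (φ^[a] w) := fun w hw a => by
    induction a with
    | zero => exact hw
    | succ a ih => rw [iterate_succ_apply']; exact o1 _ ih
  have o3 : ∀ w, O w → e - n < w ∧ w < p := by
    rintro w ⟨a, rfl⟩
    exact ⟨(Finset.mem_Ioc.1 (im_iter cl hy _)).1, no _⟩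
  have o4 : ∀ w, O w → ∃ N : ℕ, φ^[N + 1] w = w := by
    rintro w ⟨a, rfl⟩
    obtain ⟨N, N0, hN⟩ := hm
    obtain ⟨N, rfl⟩ := Nat.exists_eq_succ_of_ne_zero N0.ne'
    refine ⟨N, ?_⟩
    rw [iterate_add_apply φ a]
    exact hN.apply_iterate a
  have ne : ∃ w, O w := ⟨_, 0, rfl⟩
  obtain ⟨M, hM, mM⟩ := Int.exists_greatest_of_bdd (P := O) ⟨p, fun z hz => (o3 z hz).2.le⟩ ne
  obtain ⟨L, hL, mL⟩ := Int.exists_least_of_bdd (P := O) ⟨e - n, fun z hz => (o3 z hz).1.le⟩ ne
  have vf : ∀ t d, V (φ t + d) = V (t + d + if t < j then h else g) := fun t d => by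
    rw [df]
    split_ifs
    · congr 1; ring
    · rw [← per]; congr 1; ring
    · congr 1; ring
    · rw [← per]; congr 1; ring
  have bM := o3 M hM
  have bL := o3 L hL
  have LM := mM L hL
  have c1 : j ≤ M → ∃ w, O w ∧ w < j ∧ j ≤ w + (p - M) := fun z => by
    by_contra c
    obtain ⟨N, hN⟩ := o4 M hM
    have := cyc_shift (fun t => V (t + (p - M))) φ M N hN fun a ha => by
      have k := o2 M hM a
      have k1 := o3 _ k
      have k2 := mM _ k
      rw [vf]
      split_ifs with u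
      · exact U _ (by omega) (lt_of_not_ge fun v => c ⟨_, k, u, v⟩)
      · exact B _ (by omega) (by omega)
    rw [vf, if_neg (by omega), add_sub_cancel] at this
    exact n1 this
  have c2 : L < j → ∃ w, O w ∧ j ≤ w ∧ w + (e - n - L) ≤ i := fun z => by
    by_contra c
    obtain ⟨N, hN⟩ := o4 L hL
    have := cyc_shift (fun t => V (t + (e - n - L))) φ L N hN fun a ha => by
      have k := o2 L hL a
      have k1 := o3 _ k
      have k2 := mL _ k
      rw [vf]
      split_ifs with u
      · exact U _ (by omega) (by omega)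
      · exact B _ (lt_of_not_ge fun v => c ⟨_, k, by omega, v⟩) (by omega)
    rw [vf, if_pos z, add_sub_cancel] at this
    exact n2 this
  have mix : L < j ∧ j ≤ M := by
    by_cases z : L < j
    · obtain ⟨w, hw, u, -⟩ := c2 z
      exact ⟨z, u.trans (mM w hw)⟩
    · obtain ⟨w, hw, u, -⟩ := c1 (by omega)
      have := mL w hw
      omega
  obtain ⟨w1, h1, u1, v1⟩ := c1 mix.2
  obtain ⟨w2, h2, u2, v2⟩ := c2 mix.1
  let Nr : ℤ → Prop := fun w => ∃ w', O w' ∧ w < w' ∧ w' < w + (L + n - M)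
  have mk : ∀ w w', O w → O w' → (∀ a b, L ≤ b → a ≤ M →
      a = (if w < j then (if w + h ≤ e then w + h else w + h - n)
        else (if w + g ≤ e then w + g else w + g - n)) →
      b = (if w' < j then (if w' + h ≤ e then w' + h else w' + h - n)
        else (if w' + g ≤ e then w' + g else w' + g - n)) → a < b ∧ b < a + (L + n - M)) →
      Nr (φ w) := fun w w' hw hw' k =>
    ⟨φ w', o1 _ hw', k _ _ (mL _ (o1 _ hw')) (mM _ (o1 _ hw)) (df w) (df w')⟩
  have st : ∀ w, O w → Nr w ∨ w = M → Nr (φ w) := by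
    rintro w hw (⟨w', hw', s1, s2⟩ | rfl)
    · have b1 := o3 _ hw
      have b2 := o3 _ hw'
      by_cases z : w < j ∧ j ≤ w'
      · by_cases z' : w < w1
        · exact mk w w1 hw h1 fun a b _ _ _ _ => by split_ifs at * <;> omega
        · have b3 := o3 _ h2
          exact mk w w2 hw h2 fun a b _ _ _ _ => by split_ifs at * <;> omega
      · exact mk w w' hw hw' fun a b _ _ _ _ => by split_ifs at * <;> omega
    · exact mk w L hw hL fun a b _ _ _ _ => by split_ifs at * <;> omega
  have all : ∀ a : ℕ, Nr (φ^[a + 1] M) := fun a => by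
    induction a with
    | zero => exact st M hM (Or.inr rfl)
    | succ a ih => rw [iterate_succ_apply']; exact st _ (o2 M hM _) (Or.inl ih)
  obtain ⟨N, hN⟩ := o4 M hM
  obtain ⟨w, hw, s, -⟩ := all N
  rw [hN] at s
  exact absurd (mM w hw) (not_le.2 s)

variable {G : Type*} [Group G] {W : ℤ → G}

/-- a window `[x, y]` with thresholds `θ` inside `(p, e)` -/
structure Wn (W : ℤ → G) (p e k d x y : ℤ) (θ : ℤ → ℤ) : Prop where
  a : ∀ t, x ≤ t → t ≤ y → p < θ t ∧ θ t < e ∧ (θ t - t) % 2 = 0 ∧ W (θ t) ≠ W t ∧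
    (W t ≠ W k → W (θ t) = (W t)⁻¹)
  b : ∀ t, x ≤ t → t < y → θ t ≤ θ (t + 1) + 1
  c : ∀ t, x ≤ t → t + d ≤ y → θ (t + d) ≤ θ t
  l : ∀ a, p ≤ a → a ≤ e → (a - x) % 2 = 0 → W a = W x → a < θ x

theorem ad_walk {n i j k p e : ℤ} (per : ∀ t, W (t + n) = W t) (nd : Nd W j i k)
    (H : n % 2 = 0 ∧ j < k ∧ k - i < n ∧ i < j ∧ j < p ∧ p + j < e + i ∧ e < n + i)
    (U : ∀ t, e - n < t → t < j → W (t + (k - j)) = W t)
    (B : ∀ t, i < t → t < p → W (t + (k - i)) = W t) (N : ℕ) :
    ∀ x y θ, e - n < x → x ≤ e → x ≤ y → (y ≤ e → p ≤ (adF j e n (k - j) (k - i))^[N] y) →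
      Wn W p e k (j - i) x y θ →
      ∃ a, p ≤ a ∧ a ≤ e ∧ (a - y) % 2 = 0 ∧ W a = W y ∧ a < θ y := by
  have p1 := nd.p1
  have p2 := nd.p2
  have base : ∀ x y θ, x ≤ e → x ≤ y → p ≤ y → Wn W p e k (j - i) x y θ →
      ∃ a, p ≤ a ∧ a ≤ e ∧ (a - y) % 2 = 0 ∧ W a = W y ∧ a < θ y := by
    intro x y θ xe xy py w
    have key : ∀ t, max x p ≤ t → t ≤ y → t < θ t := by
      intro t ht
      induction t, ht using Int.leInduction with
      | base =>
        intro _
        rcases le_total x p with z | z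
        · rw [max_eq_right z]; exact (w.a p z py).1
        · rw [max_eq_left z]; exact w.l x z xe (by omega) rfl
      | succ t ht ih =>
        intro h
        have := ih (by omega)
        have := w.a t (by omega) (by omega)
        have := w.b t (by omega) (by omega)
        have z : θ (t + 1) ≠ t + 1 := fun z => (w.a (t + 1) (by omega) h).2.2.2.1 (by rw [z])
        omega
    have := key y (by omega) le_rfl
    have := w.a y xy le_rfl
    exact ⟨y, py, by omega, by omega, rfl, by omega⟩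
  induction N with
  | zero =>
    intro x y θ x0 xe xy hy w
    exact base x y θ xe xy (by by_cases z : y ≤ e; exacts [hy z, by omega]) w
  | succ N ih =>
    intro x y θ x0 xe xy hy w
    by_cases py : p ≤ y
    · exact base x y θ xe xy py w
    have hy := hy (by omega)
    rw [iterate_succ_apply] at hy
    have ih' : ∀ x y θ, e - n < x → x ≤ y → y < p + n →
        p ≤ (adF j e n (k - j) (k - i))^[N] (if y ≤ e then y else y - n) →
        Wn W p e k (j - i) x y θ →
        ∃ a, p ≤ a ∧ a ≤ e ∧ (a - y) % 2 = 0 ∧ W a = W y ∧ a < θ y := by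
      intro x y θ x0 xy yn hy w
      by_cases z : x ≤ e
      · exact ih x y θ x0 z xy (fun u => by rwa [if_pos u] at hy) w
      rw [if_neg (by omega)] at hy
      have pn : ∀ t, W (t - n) = W t := fun t => by rw [← per, sub_add_cancel]
      obtain ⟨a, h1, h2, h3, h4, h5⟩ := ih (x - n) (y - n) (fun t => θ (t + n)) (by omega)
        (by omega) (by omega) (fun _ => hy)
        ⟨fun t h1 h2 => by
          have := w.a (t + n) (by omega) (by omega)
          rw [per] at this
          exact ⟨this.1, this.2.1, by omega, this.2.2.2⟩,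
        fun t h1 h2 => by rw [add_right_comm]; exact w.b _ (by omega) (by omega),
        fun t h1 h2 => by rw [add_right_comm]; exact w.c _ (by omega) (by omega),
        fun a h1 h2 h3 h4 => by
          rw [sub_add_cancel]; exact w.l a h1 h2 (by omega) (h4.trans (pn x))⟩
      rw [sub_add_cancel] at h5
      exact ⟨a, h1, h2, by omega, h4.trans (pn y), h5⟩
    obtain ⟨o, o1, o2⟩ : ∃ o, (o = i ∨ o = j) ∧ (W o)⁻¹ ≠ W k := by
      by_cases z : (W j)⁻¹ = W k
      · exact ⟨i, Or.inl rfl, fun u => nd.tor ⟨inv_injective (u.trans z.symm), z.symm⟩⟩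
      · exact ⟨j, Or.inr rfl, z⟩
    have o3 : W o ≠ W k := by
      rcases o1 with rfl | rfl
      exacts [nd.xz, nd.yz]
    obtain ⟨π, hπ⟩ : ∃ π : ℤ → ℤ,
      ∀ t, π t = if t < k then t - (k - j) else if t = k then o else t - (k - i) := ⟨_, fun _ => rfl⟩
    obtain ⟨x', hx⟩ : ∃ x', x' = if y < j ∨ x ≤ i then x + (k - j) else x + (k - i) := ⟨_, rfl⟩
    obtain ⟨y', hy'⟩ : ∃ y', y' = if y < j then y + (k - j) else y + (k - i) := ⟨_, rfl⟩
    have px : π x' = x ∧ x' ≠ k := by rw [hπ]; split_ifs at * <;> omega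
    have py' : π y' = y ∧ y' ≠ k := by rw [hπ]; split_ifs at * <;> omega
    have rg : ∀ t, x' ≤ t → t ≤ y' → x ≤ π t ∧ π t ≤ y ∧ (π t - t) % 2 = 0 ∧
        (t = k → x ≤ i ∧ j ≤ y) := fun t h1 h2 => by rw [hπ]; split_ifs at * <;> omega
    have vl : ∀ t, x' ≤ t → t ≤ y' → t ≠ k → W t = W (π t) := fun t h1 h2 h3 => by
      have := rg t h1 h2
      rw [hπ] at this ⊢
      split_ifs at this ⊢
      · rw [← U (t - (k - j)) (by omega) (by omega), sub_add_cancel]
      · rw [← B (t - (k - i)) (by omega) (by omega), sub_add_cancel]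
    have xy' : x' ≤ y' := by split_ifs at * <;> omega
    obtain ⟨a, h1, h2, h3, h4, h5⟩ := ih' x' y' (fun t => θ (π t)) (by split_ifs at * <;> omega) xy'
      (by split_ifs at * <;> omega) (by unfold adF at hy ⊢; rw [hy']; split_ifs at * <;> exact hy)
      ⟨fun t h1 h2 => by
        have r := rg t h1 h2
        have := w.a _ r.1 r.2.1
        refine ⟨this.1, this.2.1, by omega, ?_⟩
        by_cases z : t = k
        · subst z
          have e1 : π t = o := by rw [hπ, if_neg (lt_irrefl _), if_pos rfl]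
          rw [e1] at this ⊢
          exact ⟨this.2.2.2.2 o3 ▸ o2, fun u => absurd rfl u⟩
        · rw [vl t h1 h2 z]; exact this.2.2.2,
      fun t h1 h2 => by
        have r := rg t h1 h2.le
        have r' := rg (t + 1) (by omega) h2
        by_cases z : π (t + 1) = π t + 1
        · rw [z]; exact w.b _ r.1 (by omega)
        have b1 := w.b i
        have b2 := w.b (j - 1)
        have b3 := w.c i
        rw [sub_add_cancel] at b2
        rw [add_sub_cancel] at b3
        have : (π t = j - 1 ∧ π (t + 1) = i ∧ t + 1 = k) ∨ (π t = j ∧ π (t + 1) = i + 1 ∧ t = k) := by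
          rw [hπ, hπ] at z ⊢; split_ifs at * <;> omega
        rcases this with ⟨z1, z2, z3⟩ | ⟨z1, z2, z3⟩ <;> rw [z1, z2] <;> omega,
      fun t h1 h2 => by
        have r := rg t h1 (by omega)
        have r' := rg (t + (j - i)) (by omega) h2
        have b3 := w.c (π t) r.1
        have : π (t + (j - i)) = π t + (j - i) ∨ π (t + (j - i)) = π t := by
          rw [hπ, hπ]; split_ifs at * <;> omega
        rcases this with z | z <;> rw [z]
        exact b3 (by omega),
      fun a h1 h2 h3 h4 => by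
        have r := rg x' le_rfl xy'
        rw [vl x' le_rfl xy' px.2, px.1] at h4
        rw [px.1] at r ⊢
        exact w.l a h1 h2 (by omega) h4⟩
    have r := rg y' xy' le_rfl
    rw [vl y' xy' le_rfl py'.2, py'.1] at h4
    rw [py'.1] at r h5
    exact ⟨a, h1, h2, by omega, h4, h5⟩

/-- two overlapping shifts and a reflection on the gap -/
theorem ad {n Q i j k p e c : ℤ} (al : AL W n Q) (nd : Nd W j i k)
    (H : c % 2 = 0 ∧ j < k ∧ k - i < n ∧ i ≤ j ∧ j < p ∧ p + j < e + i ∧ e < n + i)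
    (U : ∀ t, e - n < t → t < j → W (t + (k - j)) = W t)
    (B : ∀ t, i < t → t < p → W (t + (k - i)) = W t)
    (T : ∀ t, p < t → t < e → W (c - t) = (W t)⁻¹)
    (n1 : W (p + (k - i)) ≠ W p) (n2 : W (e + (k - j)) ≠ W e) : False := by
  have per := al.per
  have ev := al.ev
  have p1 := nd.p1
  have p2 := nd.p2
  have pn : ∀ t, W (t - n) = W t := fun t => by rw [← per, sub_add_cancel]
  rcases eq_or_lt_of_le H.2.2.2.1 with rfl | ij
  · refine soft al (k - i) i p e c (by omega) (Cm.sqr (by rw [add_sub_cancel, nd.rel])) B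
      (fun t h1 h2 => ?_) T n1 n2
    rw [← pn t, ← U (t - n) (by omega) (by omega), ← pn]
    congr 1; ring
  obtain ⟨m, c', hc, c0, c1⟩ : ∃ m c', c = c' + m * n ∧ e - n < c' - e + 1 ∧ c' - e + 1 ≤ e := by
    have := Int.mul_ediv_add_emod (2 * e - 1 - c) n
    have := Int.emod_nonneg (2 * e - 1 - c) (by omega : n ≠ 0)
    have := Int.emod_lt_of_pos (2 * e - 1 - c) (by omega : 0 < n)
    exact ⟨-((2 * e - 1 - c) / n), 2 * e - 1 - (2 * e - 1 - c) % n, by linarith, by omega, by omega⟩
  have c2 : c' % 2 = 0 := by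
    obtain ⟨u, rfl⟩ : ∃ u, n = 2 * u := ⟨n / 2, by omega⟩
    have : c = c' + 2 * (m * u) := by linarith
    omega
  have T' : ∀ t, c' - e < t → t < c' - p → W (c' - t) = (W t)⁻¹ := fun t h1 h2 => by
    have := T (c' - t) (by omega) (by omega)
    rw [pe per m (x := t) (by rw [hc]; ring)] at this
    rw [this, inv_inv]
  have nf : ∀ t, c' - e < t → t < c' - p → W (c' - t) ≠ W t := fun t h1 h2 z =>
    al.ninv t (by rw [← T' t h1 h2, z])
  obtain ⟨N, hN⟩ : ∃ N : ℕ, c' - p - 1 ≤ e → p ≤ (adF j e n (k - j) (k - i))^[N] (c' - p - 1) := by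
    by_cases z : c' - p - 1 ≤ e
    · exact (ad_hit per (by omega) U B n1 (by rwa [pn, add_comm, ← add_sub_assoc, pn, add_comm])
        _ (by omega) z).imp fun _ h _ => h
    · exact ⟨0, fun u => absurd u z⟩
  obtain ⟨a, h1, -, h3, -, h5⟩ := ad_walk per nd (by omega) U B N (c' - e + 1) (c' - p - 1)
    (fun t => c' - t) c0 c1 (by omega) hN
    ⟨fun t h1 h2 => ⟨by omega, by omega, by omega, nf t (by omega) (by omega),
      fun _ => T' t (by omega) (by omega)⟩, fun t _ _ => by omega, fun t _ _ => by omega,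
      fun a h1 h2 h3 h4 => by
        have : a ≠ c' - (c' - e + 1) := fun z => nf _ (by omega) (by omega) (z ▸ h4)
        omega⟩
  omega

/-- the strip after `i3, k3` is the strip before `j, k` -/
theorem ad15 {n Q i j k l p q i2 m i3 j3 k3 : ℤ} (al : AL W n Q) (lf : Leaf W n Q i j k l p q Q n)
    (n2 : Nd W p i2 q) (S : Ant W (i2 - m) i2 (i2 + p)) (h : i3 = p + m + 1 ∧ i3 < n ∧ 0 ≤ k3)
    (n3 : Nd W j3 i3 k3) (d : Par W (i3 + 1) n (k3 - i3)) (e : k3 + n - i3 = k - j) : False := by
  obtain ⟨i0, ij, jQ, Qk, kn, n1, a1, -, -, -, b, hp, lk⟩ := lf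
  have := al.qn
  have := n2.p1
  refine ad (p := p) (e := i3) (c := i2 + p) al n1 (by omega) (fun t h1 h2 => ?_)
    (fun t h1 h2 => b t h1 (by omega)) (fun t h1 h2 => ?_)
    (by rw [show p + (k - i) = q by omega]; exact n2.yz.symm)
    (by rw [show i3 + (k - j) = k3 + n by omega, al.per]; exact n3.xz.symm)
  · by_cases z : 0 ≤ t
    · exact a1 t z h2
    · rw [← al.per t, ← d (t + n) (by omega) (by omega), ← al.per (t + n + (k3 - i3)),
        ← al.per (t + (k - j))]
      congr 1; omega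
  · have := S (i2 + p - t) (by omega) (by omega)
    rw [sub_sub_cancel] at this
    rw [this, inv_inv]

end Pool.Agent.MP_a38735_al.WL
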