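import Pool.Agent.MP_a38735_al.WL
import Mathlib.Algebra.BigOperators.Intervals
import Mathlib.Algebra.Order.Interval.Finset.SuccPred
import Mathlib.Data.Int.Interval
import Mathlib.Tactic.LinearCombination

set_option autoImplicit false
set_option linter.unusedSectionVars false

namespace Pool.Agent.MP_a38735_al.WL

variable {G : Type*} [Group G] {W : ℤ → G} {n Q : ℤ}

theorem sh (al : AL W n Q) (m u v : ℤ) (h : v = u + m * n) : W v = W u := by
  subst h
  induction m using Int.induction_on with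
  | zero => simp
  | succ m ih => rw [add_mul, one_mul, ← add_assoc, al.per, ih]
  | pred m ih => rw [← al.per, ← ih]; congr 1; ring

theorem qf {a b g : ℤ} (s : Par W a b g) (al : AL W n Q) (m u v : ℤ)
    (h : a ≤ u - m * n ∧ u - m * n < b ∧ v = u - m * n + g) : W v = W u := by
  rw [h.2.2, s _ h.1 h.2.1, sh al m (u - m * n) u (by ring)]

theorem pb {a b g : ℤ} (s : Par W a b g) (al : AL W n Q) (m u v : ℤ)
    (h : a ≤ v ∧ v < b ∧ v + g = u - m * n) : W v = W u := by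
  rw [← s _ h.1 h.2.1, h.2.2, sh al m (u - m * n) u (by ring)]

theorem qa {a b c : ℤ} (s : Ant W a b c) (al : AL W n Q) (m u v : ℤ)
    (h : a ≤ u - m * n ∧ u - m * n < b ∧ v = c - (u - m * n)) : W v = (W u)⁻¹ := by
  rw [h.2.2, s _ h.1 h.2.1, sh al m (u - m * n) u (by ring)]

theorem ab {a b c : ℤ} (s : Ant W a b c) (al : AL W n Q) (m u v : ℤ)
    (h : a ≤ v ∧ v < b ∧ c - v = u - m * n) : W v = (W u)⁻¹ := by
  rw [sh al m (u - m * n) u (by ring), ← h.2.2, s _ h.1 h.2.1, inv_inv]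

theorem Par.cq {a b g a' b' g' : ℤ} (s : Par W a b g) (h : a' = a ∧ b' = b ∧ g' = g) :
    Par W a' b' g' := by rwa [h.1, h.2.1, h.2.2]

theorem Ant.cq {a b g a' b' g' : ℤ} (s : Ant W a b g) (h : a' = a ∧ b' = b ∧ g' = g) :
    Ant W a' b' g' := by rwa [h.1, h.2.1, h.2.2]

theorem Nd.cq {a b g a' b' g' : ℤ} (s : Nd W a b g) (h : a' = a ∧ b' = b ∧ g' = g) :
    Nd W a' b' g' := by rwa [h.1, h.2.1, h.2.2]

theorem cE {a b c : G} (h1 : b = a) (h2 : c = b) : c = a := h2.trans h1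
theorem cI {a b c : G} (h1 : b = a) (h2 : c = b⁻¹) : c = a⁻¹ := h1 ▸ h2
theorem cII {a b c : G} (h1 : b = a⁻¹) (h2 : c = b⁻¹) : c = a := by rw [h2, h1, inv_inv]
theorem rEE {a b c d : G} (h1 : c = a) (h2 : d = b) (h : d = c) : b = a := by rw [← h1, ← h2, h]
theorem rII {a b c d : G} (h1 : c = a⁻¹) (h2 : d = b⁻¹) (h : d = c) : b = a := by
  rw [← inv_inj, ← h1, ← h2, h]
theorem rIE {a b c d : G} (h1 : c = a⁻¹) (h2 : d = b) (h : d = c) : b = a⁻¹ := by
  rw [← h1, ← h2, h]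
theorem rEI {a b c d : G} (h1 : c = a) (h2 : d = b⁻¹) (h : d = c) : b = a⁻¹ := by
  rw [← h1, ← h, h2, inv_inv]

section
variable {j i k : ℤ} (h : Nd W j i k)
include h
theorem Nd.f0 (e : W k = W j) : False := h.yz e.symm
theorem Nd.f1 (e : W k = W i) : False := h.xz e.symm
theorem Nd.f2 (e : W j = (W i)⁻¹) : False := h.yx e
theorem Nd.f3 (z : W k = (W j)⁻¹) (e : W j = W i) : False := h.tor ⟨e.symm, z⟩
theorem Nd.f4 (z : W k = (W i)⁻¹) (e : W j = W i) : False := h.tor ⟨e.symm, e ▸ z⟩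
end

theorem per_dvd {g lo hi : ℤ} (g0 : 0 < g) (Y : ∀ t, lo ≤ t → t + g < hi → W (t + g) = W t)
    {s t : ℤ} (d : g ∣ t - s) (h : lo ≤ s ∧ s < hi ∧ lo ≤ t ∧ t < hi) : W t = W s := by
  have key : ∀ (m : ℕ) (s : ℤ), lo ≤ s → s + g * m < hi → W (s + g * m) = W s := by
    intro m
    induction m with
    | zero => simp
    | succ m ih =>
      intro s h1 h2
      have : 0 ≤ g * m := by positivity
      push_cast at h2 ⊢
      rw [mul_add, mul_one, ← add_assoc] at h2 ⊢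
      rw [Y _ (by omega) h2, ih s h1 (by omega)]
  obtain ⟨m, hm⟩ := d
  rcases Int.eq_nat_or_neg m with ⟨m, rfl | rfl⟩
  · rw [show t = s + g * m by omega]
    exact key m s h.1 (by omega)
  · rw [mul_neg] at hm
    rw [show s = t + g * m by omega]
    exact (key m t h.2.2.1 (by omega)).symm

theorem mid_ex {g c : ℤ} (s : ℤ) (g0 : 0 < g) (g2 : g % 2 = 0) (c2 : c % 2 = 0) :
    ∃ t, s ≤ t ∧ 2 * t < 2 * s + g ∧ g ∣ c - t - t := by
  obtain ⟨h, rfl⟩ : ∃ h, g = 2 * h := ⟨g / 2, by omega⟩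
  obtain ⟨d, rfl⟩ : ∃ d, c = 2 * d := ⟨c / 2, by omega⟩
  have h1 := Int.emod_nonneg (d - s) (b := h) (by omega)
  have h2 := Int.emod_lt_of_pos (d - s) (b := h) (by omega)
  refine ⟨s + (d - s) % h, by omega, by omega, (d - s) / h, ?_⟩
  have := Int.emod_add_mul_ediv (d - s) h
  linarith

theorem midP (al : AL W n Q) (g c s lo hi : ℤ) (h : 0 < g ∧ g % 2 = 0 ∧ c % 2 = 0 ∧ lo ≤ s ∧
      2 * s + g ≤ 2 * hi ∧ c - s < hi ∧ 2 * lo + 2 * s + g ≤ 2 * c + 2)
    (X : ∀ t, s ≤ t → 2 * t < 2 * s + g → W (c - t) = (W t)⁻¹)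
    (Y : ∀ t, lo ≤ t → t + g < hi → W (t + g) = W t) : False := by
  obtain ⟨t, h1, h2, h3⟩ := mid_ex s h.1 h.2.1 h.2.2.1
  exact al.ninv t ((per_dvd h.1 Y h3 (by omega)).symm.trans (X t h1 h2))

theorem midL (al : AL W n Q) (g c A B lo hi : ℤ) (h : 0 < g ∧ g % 2 = 0 ∧ c % 2 = 0 ∧ A + B = c ∧
      lo ≤ A ∧ 2 * A + g ≤ 2 * hi ∧ B < hi ∧ 2 * lo + 2 * A + g ≤ 2 * c + 2)
    (X : ∀ t, A < t → 2 * t < 2 * A + g → W (c - t) = (W t)⁻¹)
    (Y : ∀ t, lo ≤ t → t + g < hi → W (t + g) = W t) : W B = W A := by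
  obtain ⟨t, h1, h2, h3⟩ := mid_ex A h.1 h.2.1 h.2.2.1
  have e := per_dvd h.1 Y h3 (by omega)
  rcases h1.eq_or_lt with rfl | h1
  · rwa [show c - A = B by omega] at e
  · exact (al.ninv t (e.symm.trans (X t h1 h2))).elim

theorem midU (al : AL W n Q) (g c A B lo hi : ℤ) (h : 0 < g ∧ g % 2 = 0 ∧ c % 2 = 0 ∧ A + B = c ∧
      A < hi ∧ 2 * lo + g ≤ 2 * A + 2 ∧ lo ≤ B ∧ 2 * c + g ≤ 2 * hi + 2 * A)
    (X : ∀ t, t < A → 2 * A < 2 * t + g → W (c - t) = (W t)⁻¹)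
    (Y : ∀ t, lo ≤ t → t + g < hi → W (t + g) = W t) : W B = W A := by
  obtain ⟨t, h1, h2, h3⟩ := mid_ex (A + 1 - g / 2) h.1 h.2.1 h.2.2.1
  have e := per_dvd h.1 Y h3 (by omega)
  rcases (show t ≤ A by omega).eq_or_lt with rfl | h1
  · rwa [show c - t = B by omega] at e
  · exact (al.ninv t (e.symm.trans (X t h1 (by omega)))).elim

theorem mid2 (al : AL W n Q) (g c c' s e w lo hi : ℤ)
    (h : 0 < g ∧ g % 2 = 0 ∧ c % 2 = 0 ∧ c' % 2 = 0)
    (X : ∀ t, s ≤ t → t < e → (lo ≤ t ∧ t < hi ∧ lo ≤ c - t ∧ c - t < hi) ∧ W (c - t) = (W t)⁻¹)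
    (X' : ∀ t, 2 * e + c' - c + w * g ≤ 2 * t → 2 * t < 2 * s + g + c' - c + w * g →
      (lo ≤ t ∧ t < hi ∧ lo ≤ c' - t ∧ c' - t < hi) ∧ W (c' - t) = (W t)⁻¹)
    (Y : ∀ t, lo ≤ t → t + g < hi → W (t + g) = W t) : False := by
  obtain ⟨t, h1, h2, h3⟩ := mid_ex s h.1 h.2.1 h.2.2.1
  by_cases z : t < e
  · exact al.ninv t ((per_dvd h.1 Y h3 (X t h1 z).1).symm.trans (X t h1 z).2)
  · obtain ⟨u, rfl⟩ : ∃ u, g = 2 * u := ⟨g / 2, by omega⟩
    obtain ⟨d, rfl⟩ : ∃ d, c' = c + 2 * d := ⟨(c' - c) / 2, by omega⟩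
    have e : w * (2 * u) = 2 * (w * u) := by ring
    have := X' (t + d + w * u) (by omega) (by omega)
    refine al.ninv _ ((per_dvd h.1 Y ?_ this.1).symm.trans this.2)
    rw [show c + 2 * d - (t + d + w * u) - (t + d + w * u) = c - t - t - 2 * u * w by ring]
    exact Int.dvd_sub h3 (Int.dvd_mul_right _ _)

theorem red_ex {g : ℤ} (c u : ℤ) (g0 : 0 < g) (g2 : g % 2 = 0) (c2 : c % 2 = 0) :
    ∃ d, (u ≤ d ∧ d < u + g ∧ d % 2 = 0) ∧ g ∣ d - c ∧ (c < u + g → c ≤ d) ∧ (u ≤ c → d ≤ c) := by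
  have h1 := Int.emod_nonneg (c - u) (b := g) (by omega)
  have h2 := Int.emod_lt_of_pos (c - u) g0
  have h3 := Int.emod_add_mul_ediv (c - u) g
  generalize (c - u) % g = r at *
  generalize (c - u) / g = m at *
  obtain ⟨h, rfl⟩ : ∃ h, g = 2 * h := ⟨g / 2, by omega⟩
  have e : 2 * h * m = 2 * (h * m) := by ring
  refine ⟨u + r, by omega, ⟨-m, by linarith⟩, fun z => ?_, fun z => ?_⟩
  · have : m < 1 := by nlinarith
    nlinarith
  · have : -1 < m := by nlinarith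
    nlinarith

theorem redA (g c a b lo hi u : ℤ) (h : 0 < g ∧ g % 2 = 0 ∧ c % 2 = 0 ∧ lo + b ≤ c + 1 ∧
      c < hi + a ∧ (u = hi + a - g ∨ u = lo + b - 1))
    (X : ∀ t, a ≤ t → t < b → W (c - t) = (W t)⁻¹)
    (Y : ∀ t, lo ≤ t → t + g < hi → W (t + g) = W t) :
    ∃ d, (u ≤ d ∧ d < u + g ∧ d % 2 = 0 ∧ lo + b ≤ d + 1 ∧ d < hi + a) ∧ Ant W a b d := by
  obtain ⟨d, h1, h2, h3⟩ := red_ex c u h.1 h.2.1 h.2.2.1
  exact ⟨d, by omega, fun t k1 k2 => (per_dvd h.1 Y (by simpa using h2) (by omega)).trans (X t k1 k2)⟩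

theorem redP (g c a b lo hi u : ℤ) (h : 0 < g ∧ g % 2 = 0 ∧ c % 2 = 0 ∧ lo ≤ a + c ∧
      b + c ≤ hi ∧ (u = hi - b - g + 1 ∨ u = lo - a))
    (X : ∀ t, a ≤ t → t < b → W (t + c) = W t)
    (Y : ∀ t, lo ≤ t → t + g < hi → W (t + g) = W t) :
    ∃ d, (u ≤ d ∧ d < u + g ∧ d % 2 = 0 ∧ lo ≤ a + d ∧ b + d ≤ hi) ∧ Par W a b d := by
  obtain ⟨d, h1, h2, h3⟩ := red_ex c u h.1 h.2.1 h.2.2.1
  exact ⟨d, by omega, fun t k1 k2 => (per_dvd h.1 Y (by simpa using h2) (by omega)).trans (X t k1 k2)⟩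

theorem ex_cnt (W : ℤ → G) (z : G) : ∃ F : ℤ → ℤ, (∀ t, W t = z → F (t + 1) = F t + 1) ∧
    (∀ t, W t ≠ z → F (t + 1) = F t) ∧ ∀ (a b g : ℤ), a ≤ b →
      (∀ t, a ≤ t → t < b → W (t + g) = W t) → F (b + g) - F (a + g) = F b - F a := by
  classical
  obtain ⟨F, hF⟩ : ∃ F : ℤ → ℤ, ∀ t, F (t + 1) = F t + if W t = z then 1 else 0 := by
    refine ⟨fun t => Int.inductionOn' t 0 0 (fun k _ x => x + if W k = z then 1 else 0)
      fun k _ x => x - if W (k - 1) = z then 1 else 0, fun t => ?_⟩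
    rcases le_or_gt 0 t with h | h
    · exact Int.inductionOn'_add_one h
    · have := Int.inductionOn'_sub_one (motive := fun _ => ℤ) (z := t + 1) (b := 0) (zero := 0)
        (succ := fun k _ x => x + if W k = z then 1 else 0)
        (pred := fun k _ x => x - if W (k - 1) = z then 1 else 0) (by omega)
      simp only [add_sub_cancel_right] at this
      simp only [this, sub_add_cancel]
  refine ⟨F, fun t h => by simp [hF, h], fun t h => by simp [hF, h], fun a b g ab h => ?_⟩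
  induction b, ab using Int.leInduction with
  | base => simp
  | succ b ab ih =>
    have := ih fun t h1 h2 => h t h1 (by omega)
    rw [add_right_comm, hF, hF, h b ab (by omega)]
    omega

theorem rotR0 (d e A : ℤ) (d0 : 0 < d) (e0 : 0 < e)
    (X : ∀ t, A - e < t → t < A → W (t + d) = W t)
    (Y : ∀ t, A - e < t → t ≤ A - e + d → W (t + e) = W t) : W (A + d) = W A := by
  obtain ⟨F, f1, f2, f3⟩ := ex_cnt W (W A)
  by_contra c
  have a1 := f1 A rfl
  have a2 := f2 _ c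
  have a3 := f3 (A - e + 1) A d (by omega) fun t h1 h2 => X t (by omega) h2
  have a4 := f3 (A - e + 1) (A - e + 1 + d) e (by omega) fun t h1 h2 => Y t (by omega) (by omega)
  rw [show A - e + 1 + d + e = A + d + 1 by ring, show A - e + 1 + e = A + 1 by ring] at a4
  omega

theorem rotR (d e A B : ℤ) (h : 0 < d ∧ 0 < e ∧ B = A + d ∧ d % 2 = 0 ∧ e % 2 = 0)
    (X : ∀ t, A - e + 1 < t → t + 1 < A → W (t + d) = W t)
    (Y : ∀ t, A - e + 1 < t → t ≤ A - e + d → W (t + e) = W t) : W B = W A := by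
  obtain ⟨d0, e0, rfl, d2, e2⟩ := h
  obtain ⟨d, rfl⟩ : ∃ u, d = 2 * u := ⟨d / 2, by omega⟩
  obtain ⟨e, rfl⟩ : ∃ u, e = 2 * u := ⟨e / 2, by omega⟩
  simpa using rotR0 (W := fun t => W (A + 2 * t)) d e 0 (by omega) (by omega)
    (fun t h1 h2 => by rw [← X (A + 2 * t) (by omega) (by omega)]; congr 1; ring)
    fun t h1 h2 => by rw [← Y (A + 2 * t) (by omega) (by omega)]; congr 1; ring

theorem rotL (d e A B : ℤ) (h : 0 < d ∧ 0 < e ∧ B = A + d ∧ d % 2 = 0 ∧ e % 2 = 0)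
    (X : ∀ t, A + 1 < t → t + 1 < A + e → W (t + d) = W t)
    (Y : ∀ t, A ≤ t → t + 1 < A + d → W (t + e) = W t) : W B = W A := by
  have := rotR (W := fun t => W (-t)) d e (-B) (-A) (by omega)
    (fun t h1 h2 => by rw [← X (-(t + d)) (by omega) (by omega)]; congr 1; ring)
    fun t h1 h2 => by rw [← Y (-(t + e)) (by omega) (by omega)]; congr 1; ring
  simpa using this.symm

theorem mgP {a b a' b' g : ℤ} (h : a' ≤ b) (X : ∀ t, a ≤ t → t < b → W (t + g) = W t)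
    (Y : ∀ t, a' ≤ t → t < b' → W (t + g) = W t) : Par W a b' g := fun t h1 h2 =>
  if z : t < b then X t h1 z else Y t (by omega) h2

theorem mgA {a b a' b' c : ℤ} (h : a' ≤ b) (X : ∀ t, a ≤ t → t < b → W (c - t) = (W t)⁻¹)
    (Y : ∀ t, a' ≤ t → t < b' → W (c - t) = (W t)⁻¹) : Ant W a b' c := fun t h1 h2 =>
  if z : t < b then X t h1 z else Y t (by omega) h2

/-- a segment pushed along a strip with a closed end leaves the strip -/
theorem push (al : AL W n Q) (g a b A s w : ℤ) (h : 0 < g ∧ g < n ∧ g % 2 = 0 ∧ 0 < w ∧ a ≤ s ∧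
      s + w ≤ b ∧ (A = b ∨ A = a - 1)) (X : ∀ t, a ≤ t → t < b → W (t + g) = W t)
    (ne : W (A + g) = W A → False) : ∃ u, (b < u + w ∧ u < a + n ∧ a + g ≤ u ∧ u + w ≤ b + g ∧
      (u - s) % 2 = 0) ∧ ∀ r, 0 ≤ r → r < w → W (u + r) = W (s + r) := by
  by_contra con
  have ev := al.ev
  have st : ∀ k : ℕ, ∃ u m : ℤ, u = s + k * g + m * n ∧ a ≤ u ∧ u + w ≤ b ∧ (u - s) % 2 = 0 ∧
      ∀ r, 0 ≤ r → r < w → W (u + r) = W (s + r) := by
    intro k
    induction k with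
    | zero => exact ⟨s, 0, by simp, by omega, by omega, by omega, fun _ _ _ => rfl⟩
    | succ k ih =>
      obtain ⟨u, m, e, h1, h2, h3, h4⟩ := ih
      have k4 : ∀ r, 0 ≤ r → r < w → W (u + g + r) = W (s + r) := fun r r0 r1 => by
        rw [add_right_comm, X _ (by omega) (by omega), h4 r r0 r1]
      by_cases c : u + g + w ≤ b
      · exact ⟨u + g, m, by rw [e]; push_cast; ring, by omega, c, by omega, k4⟩
      · by_cases c' : u + g < a + n
        · exact (con ⟨u + g, by omega, k4⟩).elim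
        · exact ⟨u + g - n, m - 1, by rw [e]; push_cast; ring, by omega, by omega, by omega,
            fun r r0 r1 => by rw [← k4 r r0 r1, ← al.per]; congr 1; ring⟩
  have av : ∀ x y : ℤ, ¬ (b ≤ s + x * g + y * n ∧ s + x * g + y * n < a + n) := by
    rintro x y ⟨c1, c2⟩
    have n0 : 0 < n := by omega
    obtain ⟨u, m, e, h1, h2, -⟩ := st (x % n).toNat
    rw [Int.toNat_of_nonneg (Int.emod_nonneg _ n0.ne')] at e
    have e2 := Int.emod_add_mul_ediv x n
    have e3 : s + x * g + y * n = u + (x / n * g + y - m) * n := by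
      rw [e]; linear_combination (-g) * e2
    rw [e3] at c1 c2
    generalize x / n * g + y - m = z at c1 c2
    rcases le_or_gt z 0 with z0 | z0 <;> nlinarith
  have hb : b < a + n := by
    by_contra c
    refine ne ?_
    rcases h.2.2.2.2.2.2 with rfl | rfl
    · rw [sh al 1 (A - n + g) (A + g) (by ring), X _ (by omega) (by omega),
        sh al 1 (A - n) A (by ring)]
    · rw [sh al (-1) (a - 1 + n + g) _ (by ring), X _ (by omega) (by omega),
        sh al 1 (a - 1) (a - 1 + n) (by ring)]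
  obtain ⟨B, hB, m0, eB⟩ : ∃ B, (B = b ∨ B = a + n - 1) ∧ ∃ m0, B = A + m0 * n := by
    rcases h.2.2.2.2.2.2 with e | e
    exacts [⟨b, Or.inl rfl, 0, by omega⟩, ⟨a + n - 1, Or.inr rfl, 1, by omega⟩]
  have nh : ∀ x y : ℤ, b ≤ B + x * g + y * n → B + x * g + y * n < a + n → x * g + y * n = 0 := by
    intro x y c1 c2
    by_contra d0
    generalize hd : x * g + y * n = d at *
    have e : ∀ q : ℤ, s + q * x * g + q * y * n = s + q * d := fun q => by rw [← hd]; ring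
    have hm := Int.emod_nonneg (s - b) d0
    have hl := Int.emod_lt_abs (s - b) d0
    have e2 := Int.emod_add_mul_ediv (s - b) d
    refine av (-((s - b) / d) * x) (-((s - b) / d) * y) ?_
    rw [e]
    have : |d| < a + n - b := by rw [abs_lt]; omega
    constructor <;> linarith
  have orb : ∀ k : ℕ, W (B + g) = W B ∨ W (B + (k + 1) * g) = W (B + g) := by
    intro k
    induction k with
    | zero => simp
    | succ k ih =>
      refine ih.elim Or.inl fun ih => ?_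
      have n0 : 0 < n := by omega
      have e1 := Int.emod_nonneg (B + (k + 1) * g - a) n0.ne'
      have e2 := Int.emod_lt_of_pos (B + (k + 1) * g - a) n0
      have e3 := Int.emod_add_mul_ediv (B + (k + 1) * g - a) n
      generalize (B + (k + 1) * g - a) % n = r at *
      generalize (B + (k + 1) * g - a) / n = y at *
      by_cases c : a + r < b
      · refine Or.inr ?_
        rw [← ih, sh al y (a + r) (B + (k + 1) * g) (by linarith), ← X (a + r) (by omega) c]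
        exact sh al y _ _ (by push_cast; linarith)
      · have := nh (k + 1) (-y) (by linarith) (by linarith)
        exact Or.inl (ih.symm.trans (sh al y _ _ (by linarith)))
  refine ne ?_
  have e : W (B + g) = W B := (orb (n - 1).toNat).elim id fun z => by
    rw [← z]
    exact sh al g _ _ (by rw [Int.toNat_of_nonneg (by omega)]; ring)
  rw [sh al (-m0) (B + g) (A + g) (by linarith), e, sh al m0 A B eB]

theorem pushA (al : AL W n Q) (g a b A c p q : ℤ) (h : 0 < g ∧ g < n ∧ g % 2 = 0 ∧ p < q ∧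
      a + q ≤ c + 1 ∧ c < b + p ∧ (A = b ∨ A = a - 1) ∧ c % 2 = 0)
    (X : ∀ t, a ≤ t → t < b → W (t + g) = W t) (ne : W (A + g) = W A → False)
    (Z : ∀ t, p ≤ t → t < q → W (c - t) = (W t)⁻¹) : ∃ d, (b + p ≤ d ∧ d + 1 < a + n + q ∧
      a + g + q ≤ d + 1 ∧ d < b + g + p ∧ d % 2 = 0) ∧ Ant W p q d := by
  obtain ⟨u, h1, h2⟩ := push al g a b A (c - q + 1) (q - p) (by omega) X ne
  refine ⟨u + q - 1, by omega, fun t k1 k2 => ?_⟩
  rw [← Z t k1 k2]
  convert h2 (q - 1 - t) (by omega) (by omega) using 2 <;> ring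

theorem pushP (al : AL W n Q) (g a b A c p q : ℤ) (h : 0 < g ∧ g < n ∧ g % 2 = 0 ∧ p < q ∧
      a ≤ p + c ∧ q + c ≤ b ∧ (A = b ∨ A = a - 1) ∧ c % 2 = 0)
    (X : ∀ t, a ≤ t → t < b → W (t + g) = W t) (ne : W (A + g) = W A → False)
    (Z : ∀ t, p ≤ t → t < q → W (t + c) = W t) : ∃ d, (b < d + q ∧ d + p < a + n ∧
      a + g ≤ d + p ∧ d + q ≤ b + g ∧ d % 2 = 0) ∧ Par W p q d := by
  obtain ⟨u, h1, h2⟩ := push al g a b A (p + c) (q - p) (by omega) X ne
  refine ⟨u - p, by omega, fun t k1 k2 => ?_⟩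
  rw [← Z t k1 k2]
  convert h2 (t - p) (by omega) (by omega) using 2 <;> ring

end Pool.Agent.MP_a38735_al.WL
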