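import Pool.Agent.MP_a38735_al.Lam
import Pool.Agent.MP_a38735_al.WQ

set_option autoImplicit false

namespace Pool.Agent.MP_a38735_al.WL

variable {G : Type*} [Group G]

/-- the case of `StL2` with both leaves in the first part and the middle triangle in the second -/
def L2x (G : Type*) [Group G] : Prop :=
  ∀ (W : ℤ → G) (n Q i j k p q i2 i3 j3 k3 : ℤ), AL W n Q →
    (0 ≤ i ∧ i ≤ j ∧ j < Q ∧ Q ≤ k ∧ q = p + k - i ∧ q < n ∧ Q ≤ i2 ∧ i2 ≤ p ∧ k3 < n ∧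
      j3 + n = k3 + q - i2 ∧ 0 ≤ i3 ∧ i3 ≤ j3 ∧ j3 < Q) →
    Par W 0 j (k - j) → Par W (Q - (k - j)) j (k - j) → Ant W 0 i (i + j) →
    Ant W (j + 1) Q (i + j) → Par W (i + 1) p (k - i) → Ant W Q i2 (i2 + p) →
    Par W (i2 + 1) k3 (q - i2) → Ant W 0 i3 (i3 + j3) → Ant W (j3 + 1) Q (i3 + j3) →
    Par W (i3 + 1) Q (k3 - i3) → Par W (k3 + 1) n (i3 - k3) →
    Nd W j i k → Nd W p i2 q → Nd W j3 i3 k3 → False

/-- the bounds from the longest strip may be used -/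
theorem l2x_of (h : ∀ (W : ℤ → G) (n Q i j k p q i2 i3 j3 k3 L : ℤ), AL W n Q → Lm W n Q L →
    Bd W n L j i k → Bd W n L j3 i3 k3 →
    (L + j + 3 ≤ n ∧ L + k - Q + 3 ≤ n ∧ L + p - i + 2 ≤ n ∧ L + k - i + 2 ≤ n ∧
      L + k3 - i2 + 2 ≤ n ∧ L + Q - i3 + 2 ≤ n ∧ L + 2 ≤ k3 - j3) →
    (0 ≤ i ∧ i ≤ j ∧ j < Q ∧ Q ≤ k ∧ q = p + k - i ∧ q < n ∧ Q ≤ i2 ∧ i2 ≤ p ∧ k3 < n ∧
      j3 + n = k3 + q - i2 ∧ 0 ≤ i3 ∧ i3 ≤ j3 ∧ j3 < Q) →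
    Par W 0 j (k - j) → Par W (Q - (k - j)) j (k - j) → Ant W 0 i (i + j) →
    Ant W (j + 1) Q (i + j) → Par W (i + 1) p (k - i) → Ant W Q i2 (i2 + p) →
    Par W (i2 + 1) k3 (q - i2) → Ant W 0 i3 (i3 + j3) → Ant W (j3 + 1) Q (i3 + j3) →
    Par W (i3 + 1) Q (k3 - i3) → Par W (k3 + 1) n (i3 - k3) →
    Nd W j i k → Nd W p i2 q → Nd W j3 i3 k3 → False) : L2x G := by
  intro W n Q i j k p q i2 i3 j3 k3 al hy a1 a2 s1 s2 b tt c u1 u2 d1 d2 n1 n2 n3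
  have := n1.p2
  obtain ⟨L, lm⟩ := al.lm (by omega)
  have lf : Leaf W n Q i j k (p - i - 1) p q Q n := ⟨by omega, by omega, by omega, by omega,
    by omega, n1, a1, a2, s1, s2, b.cq (by omega), by omega, Or.inl (by omega)⟩
  have hL := lm.leaf al lf
  obtain ⟨bd3, hM⟩ := lm.mbd (s' := 0) (e' := Q) (l2 := k3 - i2 - 1) (p3 := k3) (q3 := j3)
    (s3 := 0) (e3 := Q) (s4 := Q) (e4 := n) al lf (Or.inr ⟨rfl, rfl, rfl, rfl⟩)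
    (Or.inl ⟨rfl, rfl⟩) (by omega : Q ≤ i2) (by omega) (c.cq (by omega)) (by omega) (by omega)
    (by omega) (by omega) (by omega) (by omega) (by omega) (by omega) n3 u1 d1 d2
  exact h W n Q i j k p q i2 i3 j3 k3 L al lm (lm.lbd lf) bd3 (by omega) hy a1 a2 s1 s2 b tt c u1
    u2 d1 d2 n1 n2 n3

end Pool.Agent.MP_a38735_al.WL
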