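import Pool.Agent.MP_a38735_al.AD3b
import Pool.Agent.MP_a38735_al.L2x
import Mathlib.Data.Int.Interval
import Mathlib.Data.Int.LeastGreatest
import Mathlib.Data.Finset.Card
import Mathlib.Algebra.Order.Monoid.Unbundled.Basic
import Mathlib.Data.Multiset.OrderedMonoid

set_option autoImplicit false
set_option linter.unusedSectionVars false

namespace Pool.Agent.MP_a38735_al.WL

section
variable {β : Type*} {Ω : Finset ℤ} {φ : ℤ → ℤ} {f : ℤ → β} {a b c : ℤ}

theorem plab (im : Ω.image φ = Ω) (T : Finset ℤ) (sub : T ⊆ Ω)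
    (h : ∀ s ∈ Ω, s ∉ T → f (φ s) = f s) : T.val.map (fun s => f (φ s)) = T.val.map f := by
  have inj : Set.InjOn φ Ω := Finset.card_image_iff.1 (by rw [im])
  have mv : Ω.val.map φ = Ω.val := by rw [← Finset.image_val_of_injOn inj, im]
  have e1 : Ω.val.map (fun y => f (φ y)) = Ω.val.map f := by
    conv_rhs => rw [← mv, Multiset.map_map]
    rfl
  have sp : Ω.val = T.val + (Ω \ T).val := by
    rw [Finset.sdiff_val, add_comm, Multiset.sub_add_cancel (Finset.val_le_iff.2 sub)]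
  rw [sp, Multiset.map_add, Multiset.map_add] at e1
  have e2 : (Ω \ T).val.map (fun y => f (φ y)) = (Ω \ T).val.map f :=
    Multiset.map_congr rfl fun y hy => h y (Finset.mem_sdiff.1 hy).1 (Finset.mem_sdiff.1 hy).2
  rw [e2] at e1
  exact add_right_cancel e1

theorem mpair {x y z w : β} (h : ({x, y} : Multiset β) = {z, w}) :
    (x = z ∧ y = w) ∨ (x = w ∧ y = z) := by
  rcases Multiset.cons_eq_cons.1 h with ⟨h1, h2⟩ | ⟨-, s, h1, h2⟩
  · exact Or.inl ⟨h1, Multiset.singleton_inj.1 h2⟩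
  · exact Or.inr ⟨((Multiset.singleton_eq_cons_iff _).1 h2).1.symm,
      ((Multiset.singleton_eq_cons_iff _).1 h1).1⟩

theorem plab1 (im : Ω.image φ = Ω) (ha : a ∈ Ω) (h : ∀ s ∈ Ω, s ≠ a → f (φ s) = f s) :
    f (φ a) = f a := by
  simpa using plab im {a} (by simpa using ha) fun s hs z => h s hs (by simpa using z)

theorem plab2 (im : Ω.image φ = Ω) (ha : a ∈ Ω) (hb : b ∈ Ω) (ab : a ≠ b)
    (h : ∀ s ∈ Ω, s ≠ a → s ≠ b → f (φ s) = f s) (na : f (φ a) ≠ f a) :
    f (φ a) = f b ∧ f (φ b) = f a := by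
  have := plab im {a, b} (by simp [Finset.insert_subset_iff, ha, hb])
    fun s hs z => h s hs (fun e => z (by simp [e])) (fun e => z (by simp [e]))
  rw [Finset.insert_val_of_notMem (by simpa using ab)] at this
  exact (mpair (by simpa using this)).resolve_left fun z => na z.1

theorem plab3 (im : Ω.image φ = Ω) (ha : a ∈ Ω) (hb : b ∈ Ω) (hc : c ∈ Ω)
    (d : a < b ∧ b < c) (h : ∀ s ∈ Ω, s ≠ a → s ≠ b → s ≠ c → f (φ s) = f s)
    (na : f (φ a) ≠ f a) (nb : f (φ b) ≠ f b) (nc : f (φ c) ≠ f c) :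
    (f (φ b) = f a ∧ f (φ c) = f b ∧ f (φ a) = f c) ∨
      (f (φ c) = f a ∧ f (φ a) = f b ∧ f (φ b) = f c) := by
  have := plab im {a, b, c} (by simp [Finset.insert_subset_iff, ha, hb, hc])
    fun s hs z => h s hs (fun e => z (by simp [e])) (fun e => z (by simp [e]))
      (fun e => z (by simp [e]))
  rw [Finset.insert_val_of_notMem (by simp; omega),
    Finset.insert_val_of_notMem (by simp; omega)] at this
  simp only [Multiset.map_cons, Finset.singleton_val, Multiset.map_singleton] at this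
  have m : f (φ a) ∈ f a ::ₘ f b ::ₘ {f c} := this ▸ Multiset.mem_cons_self _ _
  simp only [Multiset.mem_cons, Multiset.mem_singleton, na, false_or] at m
  rcases m with m | m
  · rw [m, Multiset.cons_swap (f a), Multiset.cons_inj_right] at this
    rcases mpair this with z | z
    · exact absurd z.2 nc
    · exact Or.inr ⟨z.2, m, z.1⟩
  · rw [m, show f a ::ₘ f b ::ₘ {f c} = f c ::ₘ f a ::ₘ {f b} by
      rw [← Multiset.cons_zero, ← Multiset.cons_zero (f b), Multiset.cons_swap (f b),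
        Multiset.cons_swap (f a)], Multiset.cons_inj_right] at this
    rcases mpair this with z | z
    · exact Or.inl ⟨z.1, z.2, m⟩
    · exact absurd z.1 nb

end

variable {G : Type*} [Group G] {W : ℤ → G} {n u v m i j k p q i2 Q l : ℤ}

/-- a periodic set of windows of length `l` that is carried into itself along the strips -/
def Inv (n u v k q a b c l : ℤ) (P : ℤ → Prop) : Prop :=
  (∀ t, P (t + n) ↔ P t) ∧ (∃ t, u < t ∧ t ≤ u + n ∧ P t) ∧ ∀ s, u < s → s ≤ u + n → P s →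
    (s + l ≤ k ∧ P (s - a)) ∨ (k < s ∧ s + l ≤ q ∧ P (s - b)) ∨ (q < s ∧ s + l ≤ v ∧ P (s - c))

theorem red (hn : 0 < n) (u t : ℤ) : ∃ r s, u < s ∧ s ≤ u + n ∧ t = s + r * n := by
  have e := Int.mul_ediv_add_emod (t - u - 1) n
  have l1 := Int.emod_nonneg (t - u - 1) hn.ne'
  have l2 := Int.emod_lt_of_pos (t - u - 1) hn
  exact ⟨(t - u - 1) / n, u + 1 + (t - u - 1) % n, by omega, by omega, by linarith⟩

/-- a minimal invariant set of maximal level -/
theorem ad3_min {a b c : ℤ} (hn : 0 < n) (kq : k < q) (nv : u + n ≤ v) (qv : q < v) :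
    ∃ l P, 0 ≤ l ∧ Inv n u v k q a b c l P ∧ (∀ P', ¬ Inv n u v k q a b c (l + 1) P') ∧
      ∀ P', Inv n u v k q a b c l P' → (∀ t, P' t → P t) → ∀ t, P t → P' t := by
  classical
  have z : Inv n u v k q a b c 0 fun _ => True :=
    ⟨fun _ => Iff.rfl, ⟨u + n, by omega, le_rfl, trivial⟩, fun s _ _ _ => by simp; omega⟩
  obtain ⟨l, hl, mx⟩ := Int.exists_greatest_of_bdd (P := fun l => ∃ P, Inv n u v k q a b c l P)
    ⟨v - u, fun l ⟨P, _, ⟨t, h1, h2, h3⟩, h⟩ => by have := h t h1 h2 h3; omega⟩ ⟨0, _, z⟩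
  have ex : ∃ N, ∃ P, Inv n u v k q a b c l P ∧ ((Finset.Ioc u (u + n)).filter P).card = N :=
    hl.elim fun P h => ⟨_, P, h, rfl⟩
  obtain ⟨P, hP, hc⟩ := Nat.find_spec ex
  refine ⟨l, P, mx 0 ⟨_, z⟩, hP, fun P' h => by have := mx _ ⟨P', h⟩; omega, ?_⟩
  intro P' h sub t ht
  have e : (Finset.Ioc u (u + n)).filter P' = (Finset.Ioc u (u + n)).filter P :=
    Finset.eq_of_subset_of_card_le (Finset.monotone_filter_right _ fun t _ => sub t)
      (hc ▸ Nat.find_min' ex ⟨P', h, rfl⟩)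
  obtain ⟨r, s, h1, h2, rfl⟩ := red hn u t
  rw [perM (fun t => propext (hP.1 t))] at ht
  rw [perM (fun t => propext (h.1 t))]
  have : s ∈ (Finset.Ioc u (u + n)).filter P := by simp [h1, h2, ht]
  exact (Finset.mem_filter.1 (e ▸ this)).2

/-- the structure of a minimal invariant set of maximal level -/
theorem ad3_str (h : Cf W n u v m i j k p q i2 Q) : ∃ (l : ℤ) (P : ℤ → Prop) (ψ ρ : ℤ → ℤ)
    (Ω : Finset ℤ), 0 ≤ l ∧ (∀ t, P (t + n) ↔ P t) ∧ (∀ s, s ∈ Ω ↔ u < s ∧ s ≤ u + n ∧ P s) ∧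
    (∀ t, ψ (t + n) = ψ t + n) ∧ (∀ t, ∃ r, ρ t = t + r * n) ∧
    Ω.image (fun s => ρ (ψ s)) = Ω ∧ (∀ s, P s → P (ψ s)) ∧ (∀ t, P t → ∃ s, P s ∧ ψ s = t) ∧
    (∀ s ∈ Ω, (s + l ≤ k ∧ ψ s = s - (k - j)) ∨ (k < s ∧ s + l ≤ q ∧ ψ s = s - (k - i)) ∨
      (q < s ∧ s + l ≤ v ∧ ψ s = s - (q - i2))) ∧
    (∀ s t, P s → P t → (s - t) % 2 = 0 ∧ Eqw W l s s t t) ∧
    (∃ s ∈ Ω, s + l = k ∨ s + l = q ∨ s + l = v) ∧
    ∃ s ∈ Ω, s = u + 1 ∨ s = k + 1 ∨ s = q + 1 := by
  classical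
  have ar := h.ar
  have := h.n1.p1; have := h.n1.p2; have := h.n2.p1; have := h.n2.p2
  have hn : 0 < n := by omega
  obtain ⟨l, P, l0, ⟨pP, ⟨t0, t1, t2, t3⟩, hP⟩, mx, mn⟩ := ad3_min (u := u) (v := v) (k := k)
    (q := q) (a := k - j) (b := k - i) (c := q - i2) hn (by omega) (by omega) (by omega)
  have pM : ∀ r t, P (t + r * n) ↔ P t := fun r t => by rw [perM fun t => propext (pP t)]
  obtain ⟨ρ, hρ⟩ : ∃ ρ : ℤ → ℤ, ∀ t, ρ t = u + 1 + (t - u - 1) % n := ⟨_, fun _ => rfl⟩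
  have r1 : ∀ t, u < ρ t ∧ ρ t ≤ u + n := fun t => by
    have l1 := Int.emod_nonneg (t - u - 1) hn.ne'
    have l2 := Int.emod_lt_of_pos (t - u - 1) hn
    rw [hρ]; omega
  have r2 : ∀ t, ∃ r, ρ t = t + r * n := fun t =>
    ⟨-((t - u - 1) / n), by have := Int.mul_ediv_add_emod (t - u - 1) n; rw [hρ]; linarith⟩
  have r3 : ∀ r t, ρ (t + r * n) = ρ t := fun r t => by
    rw [hρ, hρ, show t + r * n - u - 1 = t - u - 1 + r * n by ring, Int.add_mul_emod_self_right]
  have r4 : ∀ t, u < t → t ≤ u + n → ρ t = t := fun t h1 h2 => by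
    rw [hρ, Int.emod_eq_of_lt (by omega) (by omega)]; ring
  obtain ⟨ψ, hψ⟩ : ∃ ψ : ℤ → ℤ, ∀ t, ψ t =
      t - if ρ t ≤ k then k - j else if ρ t ≤ q then k - i else q - i2 := ⟨_, fun _ => rfl⟩
  have s1 : ∀ r t, ψ (t + r * n) = ψ t + r * n := fun r t => by rw [hψ, hψ, r3]; ring
  have cl : ∀ s, u < s → s ≤ u + n → P s → P (ψ s) ∧ ((s + l ≤ k ∧ ψ s = s - (k - j)) ∨
      (k < s ∧ s + l ≤ q ∧ ψ s = s - (k - i)) ∨ (q < s ∧ s + l ≤ v ∧ ψ s = s - (q - i2))) := by
    intro s h1 h2 h3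
    rw [hψ, r4 s h1 h2]
    rcases hP s h1 h2 h3 with z | z | z
    · rw [if_pos (by omega)]; exact ⟨z.2, Or.inl ⟨z.1, rfl⟩⟩
    · rw [if_neg (by omega), if_pos (by omega)]; exact ⟨z.2.2, Or.inr (Or.inl ⟨z.1, z.2.1, rfl⟩)⟩
    · rw [if_neg (by omega), if_neg (by omega)]; exact ⟨z.2.2, Or.inr (Or.inr ⟨z.1, z.2.1, rfl⟩)⟩
  have st : ∀ s, P s → P (ψ s) := fun s hs => by
    obtain ⟨r, s, h1, h2, rfl⟩ := red hn u s
    rw [s1, pM]
    exact (cl s h1 h2 ((pM _ _).1 hs)).1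
  have sub : ∀ P' : ℤ → Prop, (∀ t, P' (t + n) ↔ P' t) → (∃ t, P' t) → (∀ t, P' t → P t) →
      (∀ s, u < s → s ≤ u + n → P' s → P' (ψ s)) → ∀ t, P t → P' t := by
    intro P' h1 ⟨t, ht⟩ h3 h4
    refine mn P' ⟨h1, ?_, fun s k1 k2 k3 => ?_⟩ h3
    · obtain ⟨r, s, k1, k2, rfl⟩ := red hn u t
      rw [perM fun t => propext (h1 t)] at ht
      exact ⟨s, k1, k2, ht⟩
    · have z := h4 s k1 k2 k3
      rcases (cl s k1 k2 (h3 s k3)).2 with c | c | c
      exacts [Or.inl ⟨c.1, c.2 ▸ z⟩, Or.inr (Or.inl ⟨c.1, c.2.1, c.2.2 ▸ z⟩),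
        Or.inr (Or.inr ⟨c.1, c.2.1, c.2.2 ▸ z⟩)]
  have s2 : ∀ t, ψ (t + n) = ψ t + n := fun t => by simpa using s1 1 t
  have sur : ∀ t, P t → ∃ s, P s ∧ ψ s = t :=
    sub (fun t => ∃ s, P s ∧ ψ s = t) (fun t => ⟨fun ⟨s, a, b⟩ =>
      ⟨s + -1 * n, (pM _ _).2 a, by rw [s1, b]; ring⟩, fun ⟨s, a, b⟩ =>
      ⟨s + n, (pP _).2 a, by rw [s2, b]⟩⟩) ⟨_, t0, t3, rfl⟩ (fun t ⟨s, a, b⟩ => b ▸ st s a)
      fun t _ _ ⟨s, a, b⟩ => ⟨t, b ▸ st s a, rfl⟩
  have mΩ : ∀ s, s ∈ (Finset.Ioc u (u + n)).filter P ↔ u < s ∧ s ≤ u + n ∧ P s := fun s => by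
    simp [and_assoc]
  refine ⟨l, P, ψ, ρ, _, l0, pP, mΩ, s2, r2, ?_, st, sur,
    fun s hs => (cl s ((mΩ s).1 hs).1 ((mΩ s).1 hs).2.1 ((mΩ s).1 hs).2.2).2,
    fun s t hs ht => ?_, ?_, ?_⟩
  · ext t
    rw [Finset.mem_image, mΩ]
    constructor
    · rintro ⟨s, hs, rfl⟩
      obtain ⟨r, e⟩ := r2 (ψ s)
      exact ⟨(r1 _).1, (r1 _).2, e ▸ (pM _ _).2 (st s ((mΩ s).1 hs).2.2)⟩
    · rintro ⟨k1, k2, k3⟩
      obtain ⟨s, a, b⟩ := sur t k3
      obtain ⟨r, e⟩ := r2 s
      exact ⟨ρ s, (mΩ _).2 ⟨(r1 _).1, (r1 _).2, e ▸ (pM _ _).2 a⟩,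
        by rw [e, s1, r3, b, r4 t k1 k2]⟩
  · have := sub (fun s => P s ∧ (s - t) % 2 = 0 ∧ ∀ e, 0 ≤ e → e < l → W (s + e) = W (t + e))
      (fun s => by
        simp only [pP, add_right_comm s n, h.per]
        exact and_congr_right' (and_congr_left' (by omega)))
      ⟨t, ht, by simp⟩ (fun _ => And.left) (fun s k1 k2 ⟨k3, k4, k5⟩ => by
        refine ⟨st s k3, ?_⟩
        rcases (cl s k1 k2 k3).2 with c | c | c
        · exact ⟨by omega, fun e e1 e2 =>
            (h.X _ _ (by omega) (by omega) (by omega)).trans (k5 e e1 e2)⟩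
        · exact ⟨by omega, fun e e1 e2 =>
            (h.B _ _ (by omega) (by omega) (by omega)).trans (k5 e e1 e2)⟩
        · exact ⟨by omega, fun e e1 e2 =>
            (h.C _ _ (by omega) (by omega) (by omega)).trans (k5 e e1 e2)⟩) s hs
    exact ⟨this.2.1, by ring, fun x y k1 k2 k3 => (cg W (by ring)).trans
      ((this.2.2 (x - s) (by omega) (by omega)).trans (cg W (by omega)))⟩
  · by_contra c
    refine mx P ⟨pP, ⟨t0, t1, t2, t3⟩, fun s k1 k2 k3 => ?_⟩
    have z : ¬ (s + l = k ∨ s + l = q ∨ s + l = v) := fun z => c ⟨s, (mΩ s).2 ⟨k1, k2, k3⟩, z⟩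
    rcases hP s k1 k2 k3 with c | c | c
    exacts [Or.inl ⟨by omega, c.2⟩, Or.inr (Or.inl ⟨c.1, by omega, c.2.2⟩),
      Or.inr (Or.inr ⟨c.1, by omega, c.2.2⟩)]
  · by_contra c
    have z : ∀ s, u < s → s ≤ u + n → P s → ¬ (s = u + 1 ∨ s = k + 1 ∨ s = q + 1) :=
      fun s k1 k2 k3 z => c ⟨s, (mΩ s).2 ⟨k1, k2, k3⟩, z⟩
    refine mx (fun t => P (t + 1)) ⟨fun t => by simp only [add_right_comm t n, pP],
      ⟨t0 - 1, by have := z t0 t1 t2 t3; omega, by omega, by simpa using t3⟩,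
      fun s k1 k2 k3 => ?_⟩
    have k4 : s ≠ u + n := fun e => z (u + 1) (by omega) (by omega)
      (by rw [← pP]; convert k3 using 1; omega) (Or.inl rfl)
    have := z (s + 1) (by omega) (by omega) k3
    simp only [sub_add_eq_add_sub]
    rcases hP (s + 1) (by omega) (by omega) k3 with c | c | c
    exacts [Or.inl ⟨by omega, c.2⟩, Or.inr (Or.inl ⟨by omega, by omega, c.2.2⟩),
      Or.inr (Or.inr ⟨by omega, by omega, c.2.2⟩)]

theorem ad3_core (h : Cf W n u v m i j k p q i2 Q) (hne : ¬ (W j = W q ∧ W p = W k)) :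
    False := by
  classical
  obtain ⟨l, P, ψ, ρ, Ω, l0, pP, mΩ, pψ, hρ, im, st, sur, cl, win, ⟨tR, tR1, tR2⟩, tL, tL1, tL2⟩ :=
    ad3_str h
  have ar := h.ar.2
  have ld : j - i + (p - i2) ≤ l := by
    by_contra c
    have fρ : ∀ s, W (ρ (ψ s) + l) = W (ψ s + l) := fun s => by
      obtain ⟨r, e⟩ := hρ (ψ s)
      exact pe h.per r (by rw [e]; ring)
    have eq : ∀ s ∈ Ω, s ≠ k - l → s ≠ q - l → W (ρ (ψ s) + l) = W (s + l) := by
      intro s hs n1 n2
      have := ((mΩ s).1 hs).1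
      have := ((mΩ s).1 hs).2.1
      rw [fρ]
      rcases cl s hs with z | z | z
      · exact h.X _ _ (by omega) (by omega) (by omega)
      · exact h.B _ _ (by omega) (by omega) (by omega)
      · exact h.C _ _ (by omega) (by omega) (by omega)
    have va : k - l ∈ Ω → W (ρ (ψ (k - l)) + l) = W j := fun hs => by
      have := cl _ hs
      rw [fρ]; exact cg W (by omega)
    have vb : q - l ∈ Ω → W (ρ (ψ (q - l)) + l) = W p := fun hs => by
      have := cl _ hs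
      rw [fρ]; exact cg W (by omega)
    by_cases a : k - l ∈ Ω <;> by_cases b : q - l ∈ Ω
    · have := plab2 (f := fun s => W (s + l)) im a b (by omega) eq
        (by simp only [va a, sub_add_cancel]; exact h.n1.yz)
      simp only [va a, vb b, sub_add_cancel] at this
      exact hne this
    · have := plab1 (f := fun s => W (s + l)) im a fun s hs z => eq s hs z fun e => b (e ▸ hs)
      simp only [va a, sub_add_cancel] at this
      exact h.n1.yz this
    · have := plab1 (f := fun s => W (s + l)) im b fun s hs z => eq s hs (fun e => a (e ▸ hs)) z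
      simp only [vb b, sub_add_cancel] at this
      exact h.n2.yz this
    · have := ((mΩ _).1 tR1).2.1
      rcases tR2 with z | z | z
      · exact a (by rwa [← z, add_sub_cancel_right])
      · exact b (by rwa [← z, add_sub_cancel_right])
      · omega
  have hn : 0 < n := by omega
  have pM : ∀ r t, P (t + r * n) ↔ P t := fun r t => by rw [perM fun t => propext (pP t)]
  have ψM : ∀ r t, ψ (t + r * n) = ψ t + r * n := fun r t => by
    have := perM (f := fun t => ψ t - t) (n := n) (fun t => by simp only [pψ]; ring) r t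
    omega
  have mono : ∀ s t, P s → P t → s < t → ψ s < ψ t := by
    intro s t hs ht lt
    obtain ⟨r, s, h1, h2, rfl⟩ := red hn u s
    obtain ⟨r', t, h3, h4, rfl⟩ := red hn u t
    have c1 := cl s ((mΩ s).2 ⟨h1, h2, (pM _ _).1 hs⟩)
    have c2 := cl t ((mΩ t).2 ⟨h3, h4, (pM _ _).1 ht⟩)
    have : r * n ≤ r' * n := by
      by_contra c
      have : r' + 1 ≤ r := by
        by_contra c'
        exact c (Int.mul_le_mul_of_nonneg_right (by omega) hn.le)
      have := Int.mul_le_mul_of_nonneg_right this hn.le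
      rw [add_mul] at this
      omega
    rw [ψM, ψM]
    clear tR2 tL2
    omega
  obtain ⟨nx, hx⟩ : ∃ nx : ℤ → ℤ, ∀ s, (s < nx s ∧ P (nx s)) ∧ ∀ t, s < t ∧ P t → nx s ≤ t := by
    refine Classical.skolem (p := fun s x => (s < x ∧ P x) ∧ ∀ t, s < t ∧ P t → x ≤ t) |>.1
      fun s => Int.exists_least_of_bdd ⟨s, fun z hz => hz.1.le⟩ ?_
    obtain ⟨r, t, h1, h2, e⟩ := red hn s tR
    exact ⟨t, h1, (pM r t).1 (e ▸ ((mΩ _).1 tR1).2.2)⟩
  have xP : ∀ s, P (nx s) := fun s => (hx s).1.2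
  have xl : ∀ s, s < nx s := fun s => (hx s).1.1
  have xm : ∀ s t, s < t → P t → nx s ≤ t := fun s t a b => (hx s).2 t ⟨a, b⟩
  have xn : ∀ s, nx (s + n) = nx s + n := fun s => by
    have := xm (s + n) (nx s + n) (by have := xl s; omega) ((pP _).2 (xP s))
    have := xm s (nx (s + n) - n) (by have := xl (s + n); omega)
      ((pP _).1 (by rw [sub_add_cancel]; exact xP _))
    omega
  have xψ : ∀ s, P s → nx (ψ s) = ψ (nx s) := fun s hs => by
    refine le_antisymm (xm _ _ (mono _ _ hs (xP s) (xl s)) (st _ (xP s))) ?_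
    obtain ⟨t, ht, e⟩ := sur _ (xP (ψ s))
    have l1 := xl (ψ s)
    have : s < t := by
      by_contra c
      rcases eq_or_lt_of_le (not_lt.1 c) with rfl | c
      · omega
      · have := mono _ _ ht hs c; omega
    rcases eq_or_lt_of_le (xm s t this ht) with z | z
    · rw [z, e]
    · have := mono _ _ (xP s) ht z; omega
  obtain ⟨f, hf⟩ : ∃ f : ℤ → ℤ × (ℤ → G), ∀ s, f s =
    (nx s - s, fun e => if 0 ≤ e ∧ e < nx s - s + l then W (s + e) else 1) := ⟨_, fun _ => rfl⟩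
  have fe : ∀ s t, f s = f t ↔ Eqw W l s (nx s) t (nx t) := fun s t => by
    rw [hf, hf, Prod.mk.injEq]
    refine and_congr_right fun e => ⟨fun z x y h1 h2 h3 => ?_, fun z => funext fun x => ?_⟩
    · have := congrFun z (x - s)
      rw [if_pos (by omega), if_pos (by omega)] at this
      exact (cg W (by ring)).trans (this.trans (cg W (by omega)))
    · rw [← e]
      split_ifs with c
      · exact z _ _ (by omega) (by omega) (by ring)
      · rfl
  have fρ : ∀ s, f (ρ (ψ s)) = f (ψ s) := fun s => by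
    obtain ⟨r, e⟩ := hρ (ψ s)
    rw [e]
    refine perM (fun t => ?_) r _
    simp only [hf, xn, add_right_comm t n, h.per, add_sub_add_right_eq_sub]
  have key : ∀ s t, P t → f (ρ (ψ t)) = f s → Eqw W l s (nx s) (ψ t) (ψ (nx t)) := by
    intro s t ht e
    rw [fρ, eq_comm, fe, xψ t ht] at e
    exact e
  have c0 : ∀ s, u < s → s ≤ u + n → P s → _ := fun s a b c => cl s ((mΩ s).2 ⟨a, b, c⟩)
  have c1 : ∀ s, u + n < s → s ≤ u + n + n → P s → (s + l ≤ k + n ∧ ψ s = s - (k - j)) ∨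
      (k + n < s ∧ s + l ≤ q + n ∧ ψ s = s - (k - i)) ∨
      (q + n < s ∧ s + l ≤ v + n ∧ ψ s = s - (q - i2)) := fun s a b c => by
    have := c0 (s - n) (by omega) (by omega) ((pP _).1 (by rwa [sub_add_cancel]))
    have := pψ (s - n)
    rw [sub_add_cancel] at this
    clear tR2 tL2
    omega
  have same : ∀ s ∈ Ω, nx s ≤ u + n → (s ≤ k → nx s ≤ k) → (s ≤ q → nx s ≤ q) →
      f (ρ (ψ s)) = f s := by
    intro s hs h1 h2 h3
    obtain ⟨a, b, c⟩ := (mΩ s).1 hs
    have := xl s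
    have z1 := cl s hs
    have z2 := c0 (nx s) (by omega) h1 (xP s)
    rw [fρ, eq_comm, fe, xψ s c]
    clear tR2 tL2
    refine ⟨by omega, fun x y k1 k2 k3 => Eq.symm ?_⟩
    rcases z1 with z | z | z
    · exact h.X _ _ (by omega) (by omega) (by omega)
    · exact h.B _ _ (by omega) (by omega) (by omega)
    · exact h.C _ _ (by omega) (by omega) (by omega)
  have ne1 : ∀ s ∈ Ω, s ≤ k → k < nx s → f (ρ (ψ s)) ≠ f s := fun s hs h1 h2 e => by
    have := cl s hs
    exact h.n1.yz ((key _ _ ((mΩ s).1 hs).2.2 e).2 k j h1 (by omega) (by omega)).symm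
  have ne2 : ∀ s ∈ Ω, k < s → s ≤ q → min q (u + n) < nx s → f (ρ (ψ s)) ≠ f s :=
    fun s hs h1 h2 h3 e => by
      have := cl s hs
      exact h.n2.yz ((key _ _ ((mΩ s).1 hs).2.2 e).2 q p h2 (by omega) (by omega)).symm
  have ne3 : ∀ s ∈ Ω, q < s → u + n < nx s → f (ρ (ψ s)) ≠ f s := fun s hs h1 h2 e => by
    have := cl s hs
    exact h.n3.yz ((key _ _ ((mΩ s).1 hs).2.2 e).2 v m (by omega) (by omega) (by omega))
  have band : ∀ lo hi, u ≤ lo → hi ≤ u + n → (∀ s ∈ Ω, s ≤ lo ∨ hi < s) ∨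
      ∃ t ∈ Ω, lo < t ∧ t ≤ hi ∧ hi < nx t ∧
        ∀ s ∈ Ω, s ≤ lo ∨ hi < s ∨ s = t ∨ (s < t ∧ nx s ≤ hi) := by
    intro lo hi h1 h2
    by_cases c : ∃ s, lo < s ∧ s ≤ hi ∧ P s
    · obtain ⟨t, ⟨k1, k2, k3⟩, mx⟩ := Int.exists_greatest_of_bdd ⟨hi, fun z hz => hz.2.1⟩ c
      refine Or.inr ⟨t, (mΩ t).2 ⟨by omega, by omega, k3⟩, k1, k2, ?_, fun s hs => ?_⟩
      · by_contra z
        have := xl t
        have := mx (nx t) ⟨by omega, by omega, xP t⟩
        omega
      · by_contra z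
        have := mx s ⟨by omega, by omega, ((mΩ s).1 hs).2.2⟩
        have := xm s t (by omega) k3
        omega
    · refine Or.inl fun s hs => ?_
      by_contra z
      exact c ⟨s, by omega, by omega, ((mΩ s).1 hs).2.2⟩
  have xΩ : ∀ s, u ≤ s → nx s ≤ u + n → nx s ∈ Ω := fun s a b =>
    (mΩ _).2 ⟨by have := xl s; omega, b, xP s⟩
  have xΩ' : ∀ s, u + n < nx s → nx s ≤ u + n + n → nx s - n ∈ Ω := fun s a b =>
    (mΩ _).2 ⟨by omega, by omega, (pP _).1 (by rw [sub_add_cancel]; exact xP s)⟩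
  have xt : ∀ s, ∀ t ∈ Ω, s ≤ u + n → (s < t → nx s ≤ t) ∧ nx s ≤ t + n := fun s t ht a => by
    obtain ⟨k1, k2, k3⟩ := (mΩ t).1 ht
    exact ⟨fun z => xm s t z k3, xm s _ (by omega) ((pP t).2 k3)⟩
  have dm : ∀ s ∈ Ω, u < s ∧ s ≤ u + n := fun s hs => ⟨((mΩ s).1 hs).1, ((mΩ s).1 hs).2.1⟩
  have pp : ∀ s ∈ Ω, P s := fun s hs => ((mΩ s).1 hs).2.2
  have v1 : ∀ t ∈ Ω, t ≤ k → t + l ≤ k ∧ ψ t = t - (k - j) := fun t ht _ => by
    have := cl t ht; omega
  have v2 : ∀ t ∈ Ω, k < t → t ≤ q → t + l ≤ q ∧ ψ t = t - (k - i) := fun t ht _ _ => by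
    have := cl t ht; omega
  have v3 : ∀ t ∈ Ω, q < t → t + l ≤ v ∧ ψ t = t - (q - i2) := fun t ht _ => by
    have := cl t ht; omega
  have v4 : ∀ s, u + n < nx s → nx s ≤ k + n → nx s + l ≤ k + n ∧ ψ (nx s) = nx s - (k - j) :=
    fun s a b => by have := c1 _ a (by omega) (xP s); omega
  have tch : ∀ t ∈ Ω, (tR ≤ k ∧ tR + l = k) ∨ (k < tR ∧ tR ≤ q ∧ tR + l = q) ∨
      (q < tR ∧ tR + l = v) := fun _ _ => by have := cl tR tR1; omega
  have tch := tch tR tR1
  have dR := dm tR tR1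
  have dL := dm tL tL1
  clear tR2
  revert tch tL2
  rcases band u k le_rfl (by omega) with A | ⟨t1, m1, a1, a2, a3, A⟩ <;>
    rcases band k (min q (u + n)) (by omega) (by omega) with B | ⟨t2, m2, b1, b2, b3, B⟩ <;>
    rcases band q (u + n) (by omega) le_rfl with C | ⟨t3, m3, g1, g2, g3, C⟩
  · have := A tR tR1; have := B tR tR1; have := C tR tR1
    omega
  · refine fun _ _ => ne3 t3 m3 g1 g3 (plab1 im m3 fun s hs _ => ?_)
    have := A s hs; have := B s hs; have := C s hs; have := dm s hs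
    exact same s hs (by omega) (by omega) (by omega)
  · refine fun _ _ => ne2 t2 m2 b1 (by omega) b3 (plab1 im m2 fun s hs _ => ?_)
    have := A s hs; have := B s hs; have := C s hs; have := dm s hs
    exact same s hs (by omega) (by omega) (by omega)
  · obtain ⟨e2, e1⟩ := plab2 im m2 m3 (by omega) (fun s hs _ _ => by
      have := A s hs; have := B s hs; have := C s hs; have := dm s hs
      exact same s hs (by omega) (by omega) (by omega)) (ne2 t2 m2 b1 (by omega) b3)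
    have x2 := (xt t2 t3 m3 (by omega)).1 (by omega)
    have x3 := (xt t3 t2 m2 g2).2
    have y2 := v2 t2 m2 b1 (by omega)
    have y3 := v3 t3 m3 g1
    have z2 := v3 _ (xΩ t2 (by omega) (by omega)) (by omega)
    have m4 := xΩ' t3 g3 (by omega)
    have x4 : k < nx t3 - n := by have := A _ m4; omega
    have z3 := v2 _ m4 x4 (by omega)
    have z4 := pψ (nx t3 - n)
    rw [sub_add_cancel] at z4
    intro tL2 tch
    refine ad3_two h.mi (l := l) (t1 := 1 - l - nx t2) (s1 := 1 - l - t2)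
      (t2 := 1 - l - nx t3 + n) (s2 := 1 - l - t3 + n) (by clear tch tL2; omega)
      ((win _ _ (pp _ m2) (xP t2)).2.mi h.per 0 0 (by clear tch tL2; omega))
      ((key _ _ (pp _ m3) e1).mi h.per 0 1 (by clear tch tL2; omega))
      ((key _ _ (pp _ m2) e2).mi h.per 1 0 (by clear tch tL2; omega)) ?_ ?_ ?_ ?_
    · have := A _ tL1; have := xt t2 _ tL1 (by omega); have := xt t3 _ tL1 g2
      clear tch; omega
    · have := A _ tR1; have := B _ tR1; have := C _ tR1
      clear tL2; omega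
    · have := (win _ _ (pp _ m2) (xP t2)).1
      clear tch tL2; omega
    · have := (win _ _ (pp _ m2) (xP t3)).1
      have := h.ar.1
      clear tch tL2; omega
  · refine fun _ _ => ne1 t1 m1 a2 a3 (plab1 im m1 fun s hs _ => ?_)
    have := A s hs; have := B s hs; have := C s hs; have := dm s hs
    exact same s hs (by omega) (by omega) (by omega)
  · obtain ⟨e2, e1⟩ := plab2 im m1 m3 (by omega) (fun s hs _ _ => by
      have := A s hs; have := B s hs; have := C s hs; have := dm s hs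
      exact same s hs (by omega) (by omega) (by omega)) (ne1 t1 m1 a2 a3)
    have x1 := (xt t1 t3 m3 (by omega)).1 (by omega)
    have x3 := (xt t3 t1 m1 g2).2
    have y1 := v1 t1 m1 a2
    have y3 := v3 t3 m3 g1
    have m4 := xΩ t1 (by omega) (by omega)
    have x4 : q < nx t1 := by have := B _ m4; omega
    have z1 := v3 _ m4 x4
    have z3 := v4 t3 g3 (by omega)
    have e1 := key _ _ (pp _ m3) e1
    have e2 := key _ _ (pp _ m1) e2
    rw [y3.2, z3.2] at e1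
    rw [y1.2, z1.2] at e2
    intro tL2 tch
    refine ad3_two' h (by clear tch tL2; omega) e1 e2 ?_ ?_
    · have := A _ tR1; have := B _ tR1; have := C _ tR1
      clear tL2; omega
    · have := B _ tL1; have := xt t1 _ tL1 (by omega); have := xt t3 _ tL1 g2
      clear tch; omega
  · obtain ⟨e2, e1⟩ := plab2 im m1 m2 (by omega) (fun s hs _ _ => by
      have := A s hs; have := B s hs; have := C s hs; have := dm s hs
      exact same s hs (by omega) (by omega) (by omega)) (ne1 t1 m1 a2 a3)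
    have x1 := (xt t1 t2 m2 (by omega)).1 (by omega)
    have x2 := (xt t2 t1 m1 (by omega)).2
    have y1 := v1 t1 m1 a2
    have y2 := v2 t2 m2 b1 (by omega)
    have z1 := v2 _ (xΩ t1 (by omega) (by omega)) a3 (by omega)
    have x4 : u + n < nx t2 := by
      by_contra c
      have := C _ (xΩ t2 (by omega) (by omega))
      omega
    have z2 := v4 t2 x4 (by omega)
    have e1 := key _ _ (pp _ m2) e1
    have e2 := key _ _ (pp _ m1) e2
    rw [y2.2, z2.2] at e1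
    rw [y1.2, z1.2] at e2
    intro tL2 tch
    refine ad3_two h (by clear tch tL2; omega) (win _ _ (xP t1) (pp _ m1)).2 e1 e2 ?_ ?_
      (win _ _ (xP t1) (pp _ m1)).1 (win _ _ (pp _ m2) (xP t1)).1
    · have := A _ tR1; have := B _ tR1; have := C _ tR1
      clear tL2; omega
    · have := C _ tL1; have := xt t1 _ tL1 (by omega); have := xt t2 _ tL1 (by omega)
      clear tch; omega
  have x1 := (xt t1 t2 m2 (by omega)).1 (by omega)
  have x2 := (xt t2 t3 m3 (by omega)).1 (by omega)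
  have x3 := (xt t3 t1 m1 g2).2
  have y1 := v1 t1 m1 a2
  have y2 := v2 t2 m2 b1 (by omega)
  have y3 := v3 t3 m3 g1
  have z1 := v2 _ (xΩ t1 (by omega) (by omega)) a3 (by omega)
  have x4 : q < nx t2 := by omega
  have z2 := v3 _ (xΩ t2 (by omega) (by omega)) x4
  have z3 := v4 t3 g3 (by omega)
  have b4 : t2 ≤ q := by omega
  have pl := plab3 im m1 m2 m3 (by omega) (fun s hs _ _ _ => by
      have := A s hs; have := B s hs; have := C s hs; have := dm s hs
      exact same s hs (by omega) (by omega) (by omega)) (ne1 t1 m1 a2 a3) (ne2 t2 m2 b1 b4 b3)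
      (ne3 t3 m3 g1 g3)
  intro tL2 tch
  have hR : t1 + l = k ∨ t2 + l = q ∨ t3 + l = v := by
    have := A _ tR1; have := B _ tR1; have := C _ tR1
    clear tL2; omega
  have hL : nx t1 = k + 1 ∨ nx t2 = q + 1 ∨ nx t3 = u + n + 1 := by
    have := xt t1 _ tL1 (by omega); have := xt t2 _ tL1 (by omega); have := xt t3 _ tL1 g2
    clear tch hR; omega
  clear tch tL2 b2 b3
  revert hR hL
  rcases pl with ⟨e1, e2, e3⟩ | ⟨e1, e2, e3⟩
  · have e1 := key _ _ (pp _ m2) e1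
    have e2 := key _ _ (pp _ m3) e2
    have e3 := key _ _ (pp _ m1) e3
    rw [y2.2, z2.2] at e1
    rw [y3.2, z3.2] at e2
    rw [y1.2, z1.2] at e3
    exact fun hR hL => ad3_three h (by clear hR hL; omega) (win _ _ (xP t1) (pp _ m1)).2 e1 e2 e3
      hR hL (win _ _ (xP t1) (pp _ m1)).1 (win _ _ (pp _ m2) (xP t1)).1
  · have := ad3_three h.mi (l := l) (t1 := 1 - l - nx t2) (s1 := 1 - l - t2)
      (t2 := 1 - l - nx t1) (s2 := 1 - l - t1) (t3 := 1 - l - nx t3 + n) (s3 := 1 - l - t3 + n)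
      (by omega) ((win _ _ (pp _ m2) (xP t2)).2.mi h.per 0 0 (by omega))
      ((key _ _ (pp _ m1) e2).mi h.per 0 0 (by omega))
      ((key _ _ (pp _ m3) e1).mi h.per 0 1 (by omega))
      ((key _ _ (pp _ m2) e3).mi h.per 1 0 (by omega))
    have p1 := (win _ _ (pp _ m2) (xP t2)).1
    have p2 := (win _ _ (pp _ m2) (xP t1)).1
    exact fun hR hL => this (by omega) (by omega) (by omega) (by omega)

theorem ad3_cf (h : Cf W n u v m i j k p q i2 Q) : False := by
  refine ad3_core h fun ⟨a1, a2⟩ => ad3_core h.mi fun ⟨b1, b2⟩ => h.n1.tor ?_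
  simp only [Mi, neg_neg, inv_inj] at b1 b2
  have r1 := h.n1.rel
  have r2 := h.n2.rel
  rw [a2, b1, ← a1] at r2
  rw [b2, ← a1] at r1 ⊢
  refine ⟨rfl, eq_inv_of_mul_eq_one_left ?_⟩
  rw [← r1] at r2 ⊢
  rw [← mul_assoc, mul_eq_right] at r2
  exact r2

/-- the case of `L2x` in which the strip after `i3, k3` is the strip before `j, k` -/
theorem ad3 {i3 j3 k3 : ℤ} (al : AL W n Q)
    (hy : 0 ≤ i ∧ i ≤ j ∧ j < Q ∧ Q ≤ k ∧ q = p + k - i ∧ q < n ∧ Q ≤ i2 ∧ i2 ≤ p ∧ k3 < n ∧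
      j3 + n = k3 + q - i2 ∧ 0 ≤ i3 ∧ i3 ≤ j3 ∧ j3 < Q)
    (a1 : Par W 0 j (k - j)) (s2 : Ant W (j + 1) Q (i + j)) (b : Par W (i + 1) p (k - i))
    (tt : Ant W Q i2 (i2 + p)) (c : Par W (i2 + 1) k3 (q - i2))
    (d2 : Par W (k3 + 1) n (i3 - k3)) (n1 : Nd W j i k) (n2 : Nd W p i2 q) (n3 : Nd W j3 i3 k3)
    (e : k - j + k3 - i3 = n) : False := by
  have ev := al.ev
  have p1 := n3.p1
  have p2 := n3.p2
  refine ad3_cf (u := i3) (v := j3 + n) (m := k3) ⟨al.per, al.ninv, by omega,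
    fun s t h1 h2 h3 => ?_, fun s t h1 h2 h3 => ?_, fun s t h1 h2 h3 => ?_, s2, tt, n1, n2,
    by omega, by omega, ?_, n3.xz, ?_, ?_, ?_⟩
  · by_cases z : 0 ≤ t
    · exact (a1 t z (by omega)).symm.trans (cg W (by omega))
    · rw [← al.per t, ← d2 (t + n) (by omega) (by omega)]
      exact cg W (by omega)
  · exact (b t (by omega) (by omega)).symm.trans (cg W (by omega))
  · exact (c t (by omega) (by omega)).symm.trans (cg W (by omega))
  all_goals rw [al.per]
  exacts [n3.yz, n3.yx, n3.tor, n3.rel]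

end Pool.Agent.MP_a38735_al.WL
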