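import Pool.Agent.MP_a38735_al.WP

set_option autoImplicit false
set_option linter.unusedSectionVars false

namespace Pool.Agent.MP_a38735_al.WL

variable {G : Type*} [Group G] {W : ℤ → G}

theorem cg (W : ℤ → G) {x y : ℤ} (e : x = y) : W x = W y := congrArg W e

/-- a run with period `g` extends to a periodic function -/
theorem ad3_ext (ni : ∀ t, W t ≠ (W t)⁻¹) {A B g : ℤ} (run : Par W A B g) (hg : 0 < g) :
    ∃ f : ℤ → G, (∀ t, f (t + g) = f t) ∧ (∀ t, f t ≠ (f t)⁻¹) ∧
      ∀ t, A ≤ t → t < B + g → f t = W t := by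
  refine ⟨fun t => W (A + (t - A) % g), fun t => ?_, fun t => ni _, fun t h1 h2 => ?_⟩
  · show W (A + (t + g - A) % g) = _
    rw [show t + g - A = t - A + g by ring, Int.add_emod_right]
  · have e := Int.mul_ediv_add_emod (t - A) g
    have l1 := Int.emod_nonneg (t - A) hg.ne'
    have l2 := Int.emod_lt_of_pos (t - A) hg
    have l3 := Int.ediv_nonneg (by omega : 0 ≤ t - A) hg.le
    have l4 : 0 ≤ g * ((t - A) / g) := by positivity
    exact run.eq hg (-((t - A) / g)) h1 h2 (by omega) (by omega) (by linarith)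

/-- a periodic function has no reflection on half a period -/
theorem ad3_rf {f : ℤ → G} (ni : ∀ t, f t ≠ (f t)⁻¹) {g : ℤ} (per : ∀ t, f (t + g) = f t)
    (lo hi c : ℤ) (h : 0 < g ∧ g % 2 = 0 ∧ c % 2 = 0 ∧ g ≤ 2 * (hi - lo))
    (an : ∀ t, lo ≤ t → t < hi → f (c - t) = (f t)⁻¹) : False :=
  rp ni (min lo (c - hi)) (max hi (c - lo)) g (g / 2) lo c (fun t _ _ => per t) (by omega)
    fun t h1 h2 => an t h1 (by omega)

/-- the window `y` stands before `j` and after `i`, before `i2` and after `i2` -/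
theorem ad3_e2 (ni : ∀ t, W t ≠ (W t)⁻¹) {i j Q i2 p l : ℤ}
    (h : i ≤ j ∧ j < Q ∧ Q ≤ i2 ∧ i2 < p ∧ (j - i) % 2 = 0 ∧ (p - i2) % 2 = 0 ∧ l % 2 = 1 ∧
      j - i + (p - i2) < l ∧ i + 1 ≤ i2 - l)
    (S : Ant W (j + 1) Q (i + j)) (T : Ant W Q i2 (i2 + p))
    (w1 : ∀ e, 0 ≤ e → e < l → W (i + 1 + e) = W (j - l + e))
    (w2 : ∀ e, 0 ≤ e → e < l → W (i2 - l + e) = W (j - l + e))
    (w3 : ∀ e, 0 ≤ e → e < l → W (i2 + 1 + e) = W (j - l + e))
    (hy : W p = (W j)⁻¹) : False := by
  obtain ⟨f, per, nf, hf⟩ := ad3_ext ni (A := j - l) (B := j) (g := l + 1 - (j - i))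
    (fun t h1 h2 => (cg W (by ring)).trans ((w1 (t - j + l) (by omega) (by omega)).trans
      (cg W (by ring)))) (by omega)
  have s0 : 2 * (Q - 1 - j) < l + 1 - (j - i) := by
    by_contra c
    refine ad3_rf nf per (j + 1) (j + 1 + (l + 1 - (j - i)) / 2) (i + j) (by omega)
      fun t h1 h2 => ?_
    rw [hf _ (by omega) (by omega), hf _ (by omega) (by omega)]
    exact S t h1 (by omega)
  have tt : ∀ e, 1 ≤ e → e ≤ i2 - Q → e ≤ l - (p - i2) →
      W (j - l + (p - i2 + e - 1)) = (W (j - e))⁻¹ := fun e h1 h2 h3 => by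
    rw [← w3 _ (by omega) (by omega), cg W (x := j - e) (y := j - l + (l - e)) (by ring),
      ← w2 _ (by omega) (by omega), ← T _ (by omega) (by omega)]
    exact cg W (by ring)
  have t0 : 2 * (i2 - Q) < l + 1 - (p - i2) := by
    by_contra c
    have := tt ((l + 1 - (p - i2)) / 2) (by omega) (by omega) (by omega)
    rw [cg W (y := j - (l + 1 - (p - i2)) / 2) (by omega)] at this
    exact ni _ this
  refine ad3_rf nf per (j - (i2 - Q)) (j + 1) (2 * j - l + (p - i2) - 1) (by omega)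
    fun t h1 h2 => ?_
  rw [hf _ (by omega) (by omega), hf _ (by omega) (by omega)]
  rcases eq_or_ne t j with rfl | ne
  · rw [← hy, cg W (x := p) (y := i2 + 1 + (p - i2 - 1)) (by ring), w3 _ (by omega) (by omega)]
    exact cg W (by ring)
  · have := tt (j - t) (by omega) (by omega) (by omega)
    rw [sub_sub_cancel] at this
    rw [← this]
    exact cg W (by ring)

/-- the window `y` stands before `j` and after `i`, before `p` and after `p` -/
theorem ad3_e1 (ni : ∀ t, W t ≠ (W t)⁻¹) {i j Q i2 p l : ℤ}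
    (h : i ≤ j ∧ j < Q ∧ Q ≤ i2 ∧ i2 < p ∧ (j - i) % 2 = 0 ∧ (p - i2) % 2 = 0 ∧ l % 2 = 1 ∧
      j - i + (p - i2) < l ∧ i + 1 ≤ p - l ∧ (p - i) % 2 = 0)
    (S : Ant W (j + 1) Q (i + j)) (T : Ant W Q i2 (i2 + p))
    (w1 : ∀ e, 0 ≤ e → e < l → W (i + 1 + e) = W (j - l + e))
    (w2 : ∀ e, 0 ≤ e → e < l → W (p - l + e) = W (j - l + e))
    (w3 : ∀ e, 0 ≤ e → e < l → W (p + 1 + e) = W (j - l + e))
    (hx : W i2 = (W i)⁻¹) (hd : ∀ e, 1 ≤ e → e ≤ p - i2 → W (j + e) = W (j + e - (p - i2))) :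
    False := by
  obtain ⟨f, per, nf, hf⟩ := ad3_ext ni (A := j - l) (B := j) (g := l + 1 - (j - i))
    (fun t h1 h2 => (cg W (by ring)).trans ((w1 (t - j + l) (by omega) (by omega)).trans
      (cg W (by ring)))) (by omega)
  rcases lt_or_eq_of_le h.2.2.2.2.2.2.2.2.1 with g0 | g0
  · have s0 : 2 * (Q - 1 - j) < l + 1 - (j - i) := by
      by_contra c
      refine ad3_rf nf per (j + 1) (j + 1 + (l + 1 - (j - i)) / 2) (i + j) (by omega)
        fun t h1 h2 => ?_
      rw [hf _ (by omega) (by omega), hf _ (by omega) (by omega)]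
      exact S t h1 (by omega)
    have t0 : 2 * (i2 - Q) < l + 1 - (p - i2) := by
      by_contra c
      have := T (i2 - (l + 1 - (p - i2)) / 2) (by omega) (by omega)
      rw [cg W (y := p + 1 + ((l + 1 - (p - i2)) / 2 - 1)) (by ring), w3 _ (by omega) (by omega),
        ← w2 _ (by omega) (by omega), cg W (y := i2 - (l + 1 - (p - i2)) / 2) (by omega)] at this
      exact ni _ this
    obtain ⟨F, pF, nF, hF⟩ := ad3_ext ni (A := i + 1) (B := i + 1 + l) (g := p - l - (i + 1))
      (fun t h1 h2 => (cg W (by ring)).trans (((w2 (t - i - 1) (by omega) (by omega)).trans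
        (w1 (t - i - 1) (by omega) (by omega)).symm).trans (cg W (by ring)))) (by omega)
    by_cases c : p - l - (i + 1) ≤ 2 * (Q - 1 - j)
    · refine ad3_rf nF pF (j + 1) Q (2 * i + l + 1) (by omega) fun t h1 h2 => ?_
      rw [hF _ (by omega) (by omega), hF _ (by omega) (by omega), ← S t h1 h2,
        cg W (y := i + 1 + (i + l - t)) (by ring), w1 _ (by omega) (by omega)]
      exact cg W (by ring)
    · refine ad3_rf nF pF Q i2 (i + i2) (by omega) fun t h1 h2 => ?_
      rw [hF _ (by omega) (by omega), hF _ (by omega) (by omega), ← T t h1 h2,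
        cg W (y := i + 1 + (i2 - t - 1)) (by ring), w1 _ (by omega) (by omega),
        ← w3 _ (by omega) (by omega)]
      exact cg W (by ring)
  obtain ⟨π, hπ⟩ : ∃ π, π = l + 1 - (j - i) := ⟨_, rfl⟩
  rw [← hπ] at per hf
  obtain ⟨η, hη⟩ : ∃ η, η = i2 - j := ⟨_, rfl⟩
  obtain ⟨F, pF, nF, hF⟩ := ad3_ext nf (A := j + 1) (B := j + 1 + (p - i2)) (g := η)
    (fun t h1 h2 => by
      rw [cg f (y := t - (p - i2) + π) (by omega), per, hf _ (by omega) (by omega),
        hf _ (by omega) (by omega), cg W (x := t) (y := j + (t - j)) (by ring),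
        hd _ (by omega) (by omega)]
      exact cg W (by ring)) (by omega)
  obtain ⟨κ, m, k1, k2, k3, hk⟩ :
      ∃ κ m, 2 ≤ κ ∧ κ ≤ π ∧ κ % 2 = 0 ∧ 2 * j + κ = i + j + m * π := by
    have e := Int.mul_ediv_add_emod (i - j - 2) π
    have l1 := Int.emod_nonneg (i - j - 2) (by omega : π ≠ 0)
    have l2 := Int.emod_lt_of_pos (i - j - 2) (by omega : 0 < π)
    generalize (i - j - 2) % π = r at *
    generalize (i - j - 2) / π = x at *
    obtain ⟨u, hu⟩ : ∃ u, π = 2 * u := ⟨π / 2, by omega⟩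
    have e2 : π * x = 2 * (u * x) := by rw [hu]; ring
    exact ⟨2 + r, -x, by omega, by omega, by omega, by linarith⟩
  have fS : ∀ t, j < t → t < Q → f (2 * j + κ - t) = (f t)⁻¹ := fun t h1 h2 => by
    rw [pe per m (x := i + j - t) (by linarith), hf _ (by omega) (by omega),
      hf _ (by omega) (by omega)]
    exact S t h1 h2
  have fT : ∀ t, Q ≤ t → t ≤ i2 → f (2 * j + κ + η - t) = (f t)⁻¹ := fun t h1 h2 => by
    rw [pe per (m + 1) (x := j - l + (i2 - t - 1)) (by linarith), hf t (by omega) (by omega)]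
    rcases eq_or_lt_of_le h2 with rfl | h2
    · rw [hx, inv_inv, ← per, hf _ (by omega) (by omega)]
      exact cg W (by omega)
    · rw [hf _ (by omega) (by omega), ← T t h1 h2, ← w3 _ (by omega) (by omega)]
      exact cg W (by ring)
  have s0 : 2 * (Q - 1 - j) < κ := by
    by_contra c
    have := fS (j + κ / 2) (by omega) (by omega)
    rw [cg f (y := j + κ / 2) (by omega)] at this
    exact nf _ this
  by_cases c : j + κ - (p - i2) ≤ Q + η / 2 ∨ j < Q - η / 2
  · refine ad3_rf nF pF (Q - η / 2) Q (2 * j + κ) (by omega) fun t h1 h2 => ?_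
    by_cases z : j < t
    · rw [hF _ (by omega) (by omega), hF _ (by omega) (by omega)]
      exact fS t z h2
    · rw [← pF t, hF _ (by omega) (by omega), hF _ (by omega) (by omega),
        ← fT _ (by omega) (by omega)]
      exact cg f (by ring)
  · refine ad3_rf nF pF Q (Q + η / 2) (2 * j + κ - (p - i2)) (by omega) fun t h1 h2 => ?_
    rw [hF _ (by omega) (by omega), hF _ (by omega) (by omega), ← fT _ (by omega) (by omega),
      ← per]
    exact cg f (by omega)

end Pool.Agent.MP_a38735_al.WL
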