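import Pool.Agent.MP_a38735_al.AD3a

set_option autoImplicit false
set_option linter.unusedSectionVars false

namespace Pool.Agent.MP_a38735_al.WL

variable {G : Type*} [Group G] {W : ℤ → G} {n u v m i j k p q i2 Q l : ℤ}

/-- three closed parallel strips between three triangles, and two reflections -/
structure Cf (W : ℤ → G) (n u v m i j k p q i2 Q : ℤ) : Prop where
  per : ∀ t, W (t + n) = W t
  ni : ∀ t, W t ≠ (W t)⁻¹
  ar : n % 2 = 0 ∧ i ≤ j ∧ j < Q ∧ Q ≤ i2 ∧ i2 ≤ p ∧ q - p = k - i ∧ u - (k - j) = m - n ∧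
    v - (q - i2) = m ∧ u < k ∧ k ≤ u + n ∧ q < v ∧ v ≤ q + n
  X : ∀ s t, u < s → s < k → t = s - (k - j) → W t = W s
  B : ∀ s t, k < s → s < q → t = s - (k - i) → W t = W s
  C : ∀ s t, q < s → s < v → t = s - (q - i2) → W t = W s
  S : Ant W (j + 1) Q (i + j)
  T : Ant W Q i2 (i2 + p)
  n1 : Nd W j i k
  n2 : Nd W p i2 q
  n3 : Nd W v u m

/-- the inverse word -/
def Mi (W : ℤ → G) (t : ℤ) : G := (W (-t))⁻¹

theorem Nd.mi {j i k j' i' k' : ℤ} (h : Nd W j i k) (p1 : (j' - i') % 2 = 0)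
    (p2 : (k' - j') % 2 = 0) (e1 : W (-j') = W i) (e2 : W (-i') = W j) (e3 : W (-k') = W k) :
    Nd (Mi W) j' i' k' := by
  refine ⟨p1, p2, ?_, ?_, ?_, ?_, ?_⟩ <;> simp only [Mi, e1, e2, e3, ne_eq, inv_inj]
  exacts [h.xz, h.yz, fun z => h.yx (by rw [z, inv_inv]), fun z => h.tor ⟨z.1.symm, z.1 ▸ z.2⟩,
    by rw [← h.rel, mul_inv_rev]]

theorem Cf.mi (h : Cf W n u v m i j k p q i2 Q) :
    Cf (Mi W) n (-v) (-u) (n - m) (-p) (-i2) (-q) (-i) (-k) (-j) (1 - Q) := by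
  have ar := h.ar
  have := h.n1.p1; have := h.n1.p2; have := h.n2.p1; have := h.n2.p2
  have := h.n3.p1; have := h.n3.p2
  refine ⟨fun t => ?_, fun t z => h.ni _ (inv_inj.1 z), by omega,
    fun s t h1 h2 e => inv_inj.2 (h.C _ _ (by omega) (by omega) (by omega)),
    fun s t h1 h2 e => inv_inj.2 (h.B _ _ (by omega) (by omega) (by omega)),
    fun s t h1 h2 e => inv_inj.2 (h.X _ _ (by omega) (by omega) (by omega)),
    fun t h1 h2 => inv_inj.2 ((cg W (by ring)).trans (h.T (-t) (by omega) (by omega))),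
    fun t h1 h2 => inv_inj.2 ((cg W (by ring)).trans (h.S (-t) (by omega) (by omega))),
    h.n2.mi (by omega) (by omega) (cg W (by ring)) (cg W (by ring)) (cg W (by ring)),
    h.n1.mi (by omega) (by omega) (cg W (by ring)) (cg W (by ring)) (cg W (by ring)),
    h.n3.mi (by omega) (by omega) (cg W (by ring)) (cg W (by ring)) ?_⟩
  · simp only [Mi]
    rw [← h.per (-(t + n))]
    congr 2; ring
  · rw [← h.per]; exact cg W (by ring)

/-- the words `W [t, s + l)` and `W [t', s' + l)` are equal -/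
def Eqw (W : ℤ → G) (l t s t' s' : ℤ) : Prop :=
  s - t = s' - t' ∧ ∀ x y, t ≤ x → x < s + l → y - t' = x - t → W x = W y

theorem Eqw.mi {t s t' s' a b a' b' : ℤ} (h : Eqw W l t s t' s') (per : ∀ t, W (t + n) = W t)
    (x y : ℤ) (e : a = 1 - l - s + x * n ∧ b = 1 - l - t + x * n ∧ a' = 1 - l - s' + y * n ∧
      b' = 1 - l - t' + y * n) : Eqw (Mi W) l a b a' b' := by
  have := h.1
  refine ⟨by omega, fun c d h1 h2 h3 => inv_inj.2 ?_⟩
  rw [← perM per x (-c), ← perM per y (-d)]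
  exact h.2 _ _ (by omega) (by omega) (by omega)

theorem ul3 {α : Type*} (a1 b1 a2 b2 a3 b3 : ℤ → α) (k1 k2 k3 N : ℤ)
    (h : 0 ≤ k1 ∧ 0 ≤ k2 ∧ 0 ≤ k3 ∧ k1 ≤ N)
    (h1 : ∀ e, 0 ≤ e → e < k1 → a1 e = b1 e) (n1 : a1 k1 ≠ b1 k1)
    (h2 : ∀ e, 0 ≤ e → e < k2 → a2 e = b2 e) (n2 : a2 k2 ≠ b2 k2)
    (h3 : ∀ e, 0 ≤ e → e < k3 → a3 e = b3 e) (n3 : a3 k3 ≠ b3 k3)
    (e1 : ∀ e, 0 ≤ e → e ≤ N → b1 e = a2 e) (e2 : ∀ e, 0 ≤ e → e ≤ N → b2 e = a3 e)
    (e3 : ∀ e, 0 ≤ e → e ≤ N → b3 e = a1 e) :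
    ¬ (k1 < k2 ∧ k1 < k3) ∧ ¬ (k2 < k1 ∧ k2 < k3) ∧ ¬ (k3 < k1 ∧ k3 < k2) := by
  refine ⟨fun c => n1 ?_, fun c => n2 ?_, fun c => n3 ?_⟩
  · rw [e1 _ (by omega) (by omega), h2 _ (by omega) c.1, e2 _ (by omega) (by omega),
      h3 _ (by omega) c.2, e3 _ (by omega) (by omega)]
  · rw [e2 _ (by omega) (by omega), h3 _ (by omega) c.2, e3 _ (by omega) (by omega),
      h1 _ (by omega) c.1, e1 _ (by omega) (by omega)]
  · rw [e3 _ (by omega) (by omega), h1 _ (by omega) c.1, e1 _ (by omega) (by omega),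
      h2 _ (by omega) c.2, e2 _ (by omega) (by omega)]

theorem ul2 {α : Type*} (a1 b1 a2 b2 : ℤ → α) (k1 k2 N : ℤ)
    (h : 0 ≤ k1 ∧ 0 ≤ k2 ∧ (k1 ≤ N ∨ k2 ≤ N))
    (h1 : ∀ e, 0 ≤ e → e < k1 → a1 e = b1 e) (n1 : a1 k1 ≠ b1 k1)
    (h2 : ∀ e, 0 ≤ e → e < k2 → a2 e = b2 e) (n2 : a2 k2 ≠ b2 k2)
    (e1 : ∀ e, 0 ≤ e → e ≤ N → b1 e = a2 e) (e2 : ∀ e, 0 ≤ e → e ≤ N → b2 e = a1 e) :
    k1 = k2 := by
  rcases lt_trichotomy k1 k2 with c | c | c
  · refine absurd ?_ n1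
    rw [e1 _ (by omega) (by omega), h2 _ (by omega) c, e2 _ (by omega) (by omega)]
  · exact c
  · refine absurd ?_ n2
    rw [e2 _ (by omega) (by omega), h1 _ (by omega) c, e1 _ (by omega) (by omega)]

theorem Cf.X' (h : Cf W n u v m i j k p q i2 Q) (s t : ℤ) (h1 : u + n < s) (h2 : s < k + n)
    (e : t = s - (k - j)) : W t = W s := by
  rw [← sub_add_cancel t n, ← sub_add_cancel s n, h.per, h.per]
  exact h.X _ _ (by omega) (by omega) (by omega)

theorem Cf.xz3 (h : Cf W n u v m i j k p q i2 Q) : W m ≠ W (u + n) := by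
  rw [h.per]; exact h.n3.xz.symm

/-- all three strips are used and the return words are permuted in the forward sense -/
theorem ad3_three (h : Cf W n u v m i j k p q i2 Q) {t1 s1 t2 s2 t3 s3 : ℤ}
    (H : j - i + (p - i2) ≤ l ∧ u < t1 ∧ t1 + l ≤ k ∧ k < s1 ∧ s1 ≤ t2 ∧ t2 + l ≤ q ∧ q < s2 ∧
      s2 + l ≤ v ∧ q < t3 ∧ t3 + l ≤ v ∧ u + n < s3 ∧ s3 + l ≤ k + n)
    (hw : Eqw W l s1 s1 t1 t1)
    (e1 : Eqw W l t1 s1 (t2 - (k - i)) (s2 - (q - i2)))
    (e2 : Eqw W l t2 s2 (t3 - (q - i2)) (s3 - (k - j)))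
    (e3 : Eqw W l t3 s3 (t1 - (k - j)) (s1 - (k - i))) :
    (t1 + l = k ∨ t2 + l = q ∨ t3 + l = v) → (s1 = k + 1 ∨ s2 = q + 1 ∨ s3 = u + n + 1) →
      (s1 - t1) % 2 = 0 → (t2 - s1) % 2 = 0 → False := by
  have ar := h.ar.2
  have l1 := e1.1; have l2 := e2.1; have l3 := e3.1
  have r := ul3 (fun e => W (t1 - (k - j) + e)) (fun e => W (t1 + e))
    (fun e => W (t2 - (k - i) + e)) (fun e => W (t2 + e)) (fun e => W (t3 - (q - i2) + e))
    (fun e => W (t3 + e)) (k - t1) (q - t2) (v - t3) (s3 - t3 + l - 1) (by omega)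
    (fun e _ _ => h.X _ _ (by omega) (by omega) (by ring))
    (fun z => h.n1.yz ((cg W (by ring)).trans (z.trans (cg W (by ring)))))
    (fun e _ _ => h.B _ _ (by omega) (by omega) (by ring))
    (fun z => h.n2.yz ((cg W (by omega)).trans (z.trans (cg W (by ring)))))
    (fun e _ _ => h.C _ _ (by omega) (by omega) (by ring))
    (fun z => h.n3.yz ((cg W (by ring)).trans (z.symm.trans (cg W (by omega)))))
    (fun e _ _ => e1.2 _ _ (by omega) (by omega) (by ring))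
    (fun e _ _ => e2.2 _ _ (by omega) (by omega) (by ring))
    (fun e _ _ => e3.2 _ _ (by omega) (by omega) (by ring))
  revert r
  have r' := ul3 (fun e => W (s1 - (k - i) + l - 1 - e)) (fun e => W (s1 + l - 1 - e))
    (fun e => W (s2 - (q - i2) + l - 1 - e)) (fun e => W (s2 + l - 1 - e))
    (fun e => W (s3 - (k - j) + l - 1 - e)) (fun e => W (s3 + l - 1 - e))
    (s1 + l - 1 - k) (s2 + l - 1 - q) (s3 + l - 1 - (u + n)) (s3 - t3 + l - 1) (by omega)
    (fun e _ _ => h.B _ _ (by omega) (by omega) (by ring))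
    (fun z => h.n1.xz ((cg W (by ring)).trans (z.trans (cg W (by ring)))))
    (fun e _ _ => h.C _ _ (by omega) (by omega) (by ring))
    (fun z => h.n2.xz ((cg W (by ring)).trans (z.trans (cg W (by ring)))))
    (fun e _ _ => h.X' _ _ (by omega) (by omega) (by ring))
    (fun z => h.xz3 ((cg W (by omega)).trans (z.trans (cg W (by ring)))))
    (fun e _ _ => e1.2 _ _ (by omega) (by omega) (by omega))
    (fun e _ _ => e2.2 _ _ (by omega) (by omega) (by omega))
    (fun e _ _ => e3.2 _ _ (by omega) (by omega) (by omega))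
  intro r tR tL pa pb
  have cs : t1 = k - l ∧ s1 = k + 1 ∧
      ((p = i2 ∧ t2 = q - l ∧ s2 = q + 1 ∧ t3 = v - l ∧ s3 = u + n + 1) ∨
      (i2 < p ∧ t2 = q - l ∧ s2 = q + 1 + (p - i2) ∧ t3 = v - l - (p - i2) ∧ s3 = u + n + 1) ∨
      (i2 < p ∧ t2 = q - l - (p - i2) ∧ s2 = q + 1 ∧ t3 = v - l ∧
        s3 = u + n + 1 + (p - i2))) := by
    clear pa pb
    have a1 : (k - t1 = q - t2 ∧ k - t1 = l) ∨ (k - t1 = v - t3 ∧ k - t1 = l) ∨
      (q - t2 = v - t3 ∧ q - t2 = l) := by clear r' tL; omega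
    have a2 : (s1 - k = s2 - q ∧ s1 - k = 1) ∨ (s1 - k = s3 - (u + n) ∧ s1 - k = 1) ∨
      (s2 - q = s3 - (u + n) ∧ s2 - q = 1) := by clear r tR a1; omega
    clear r r' tR tL
    omega
  clear r r' tR tL
  obtain ⟨rfl, rfl, cs⟩ := cs
  revert cs
  have y1 : ∀ e, 0 ≤ e → e < l → W (j - l + e) = W (k - l + e) := fun e _ _ =>
    h.X _ _ (by omega) (by omega) (by ring)
  have w0 : ∀ e, 0 ≤ e → e < l → W (k + 1 + e) = W (j - l + e) := fun e _ _ =>
    (hw.2 _ _ (by omega) (by omega) (by ring)).trans (y1 e ‹_› ‹_›).symm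
  have w1 : ∀ e, 0 ≤ e → e < l → W (i + 1 + e) = W (j - l + e) := fun e _ _ =>
    (h.B _ _ (by omega) (by omega) (by ring)).trans (w0 e ‹_› ‹_›)
  have r1 := h.n1.rel
  have r2 := h.n2.rel
  have r3 := h.n3.rel
  rw [← h.per u] at r3
  have p1 := h.n1.p1
  have p2 := h.n2.p1
  rintro (⟨c, rfl, rfl, rfl, rfl⟩ | ⟨c, rfl, rfl, rfl, rfl⟩ | ⟨c, rfl, rfl, rfl, rfl⟩)
  · rw [e3.2 v j (by omega) (by omega) (by omega), e3.2 (u + n) i (by omega) (by omega) (by omega),
      r1, ← e2.2 q m (by omega) (by omega) (by omega),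
      e1.2 k p (by omega) (by omega) (by omega)] at r3
    exact h.n2.yz r3
  · have f1 : W k = W p := e1.2 k p (by omega) (by omega) (by omega)
    have w2 : ∀ e, 0 ≤ e → e < l → W (p - l + e) = W (j - l + e) := fun e _ _ =>
      (e1.2 _ _ (by omega) (by omega) (by omega)).symm.trans (y1 e ‹_› ‹_›).symm
    have ch : ∀ e, 0 ≤ e → e < p - i2 → W (q + e) = W (j + e) := fun e _ _ =>
      ((e2.2 _ (m - (p - i2) + e) (by omega) (by omega) (by omega)).trans
        (h.C (v - (p - i2) + e) _ (by omega) (by omega) (by omega))).trans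
        (e3.2 _ _ (by omega) (by omega) (by omega))
    have f2 := ch 0 le_rfl (by omega)
    rw [add_zero, add_zero] at f2
    refine ad3_e1 h.ni (l := l) (by omega) h.S h.T w1 w2
      (fun e _ _ => (e1.2 _ _ (by omega) (by omega) (by omega)).symm.trans (w0 e ‹_› ‹_›)) ?_
      fun e h1 h2 => ?_
    · rw [f2, ← f1, ← r1, mul_assoc, mul_eq_left] at r2
      exact eq_inv_of_mul_eq_one_right r2
    · rcases eq_or_lt_of_le h2 with rfl | h2
      · rw [e3.2 (u + n) i (by omega) (by omega) (by omega),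
          ← e2.2 (q + (p - i2)) m (by omega) (by omega) (by omega),
          ← h.C (q + (p - i2)) p (by omega) (by omega) (by omega), ← f1, ← r1, mul_left_inj,
          e3.2 v (j + (p - i2)) (by omega) (by omega) (by omega)] at r3
        rw [r3, add_sub_cancel_right]
      · rw [← ch e (by omega) h2, ← h.C (q + e) (p - l + (l - (p - i2) + e)) (by omega)
          (by omega) (by omega), w2 _ (by omega) (by omega)]
        exact cg W (by ring)
  · refine ad3_e2 h.ni (l := l) (by omega) h.S h.T w1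
      (fun e _ _ => (e1.2 _ _ (by omega) (by omega) (by omega)).symm.trans (y1 e ‹_› ‹_›).symm)
      (fun e _ _ => (e1.2 _ _ (by omega) (by omega) (by omega)).symm.trans (w0 e ‹_› ‹_›)) ?_
    rw [← e1.2 k i2 (by omega) (by omega) (by omega), ← r1,
      e2.2 q (m + (p - i2)) (by omega) (by omega) (by omega),
      h.X' (u + n + (p - i2)) (m + (p - i2)) (by omega) (by omega) (by omega),
      e3.2 (u + n + (p - i2)) i (by omega) (by omega) (by omega), ← mul_assoc,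
      mul_eq_right] at r2
    exact eq_inv_of_mul_eq_one_left r2

/-- only the first two strips are used -/
theorem ad3_two (h : Cf W n u v m i j k p q i2 Q) {t1 s1 t2 s2 : ℤ}
    (H : j - i + (p - i2) ≤ l ∧ u < t1 ∧ t1 + l ≤ k ∧ k < s1 ∧ s1 ≤ t2 ∧ t2 + l ≤ q ∧
      u + n < s2 ∧ s2 + l ≤ k + n)
    (hw : Eqw W l s1 s1 t1 t1)
    (e1 : Eqw W l t1 s1 (t2 - (k - i)) (s2 - (k - j)))
    (e2 : Eqw W l t2 s2 (t1 - (k - j)) (s1 - (k - i))) :
    (t1 + l = k ∨ t2 + l = q) → (s1 = k + 1 ∨ s2 = u + n + 1) →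
      (s1 - t1) % 2 = 0 → (t2 - s1) % 2 = 0 → False := by
  have ar := h.ar.2
  have l1 := e1.1; have l2 := e2.1
  have r := ul2 (fun e => W (t1 - (k - j) + e)) (fun e => W (t1 + e))
    (fun e => W (t2 - (k - i) + e)) (fun e => W (t2 + e)) (k - t1) (q - t2) (s2 - t2 + l - 1)
    (by omega) (fun e _ _ => h.X _ _ (by omega) (by omega) (by ring))
    (fun z => h.n1.yz ((cg W (by ring)).trans (z.trans (cg W (by ring)))))
    (fun e _ _ => h.B _ _ (by omega) (by omega) (by ring))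
    (fun z => h.n2.yz ((cg W (by omega)).trans (z.trans (cg W (by ring)))))
    (fun e _ _ => e1.2 _ _ (by omega) (by omega) (by ring))
    (fun e _ _ => e2.2 _ _ (by omega) (by omega) (by ring))
  have r' := ul2 (fun e => W (s1 - (k - i) + l - 1 - e)) (fun e => W (s1 + l - 1 - e))
    (fun e => W (s2 - (k - j) + l - 1 - e)) (fun e => W (s2 + l - 1 - e))
    (s1 + l - 1 - k) (s2 + l - 1 - (u + n)) (s2 - t2 + l - 1) (by omega)
    (fun e _ _ => h.B _ _ (by omega) (by omega) (by ring))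
    (fun z => h.n1.xz ((cg W (by ring)).trans (z.trans (cg W (by ring)))))
    (fun e _ _ => h.X' _ _ (by omega) (by omega) (by ring))
    (fun z => h.xz3 ((cg W (by omega)).trans (z.trans (cg W (by ring)))))
    (fun e _ _ => e1.2 _ _ (by omega) (by omega) (by omega))
    (fun e _ _ => e2.2 _ _ (by omega) (by omega) (by omega))
  intro tR tL pa pb
  obtain ⟨rfl, rfl, rfl, rfl, rfl⟩ :
      t1 = k - l ∧ s1 = k + 1 ∧ t2 = q - l ∧ s2 = u + n + 1 ∧ m = p := by omega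
  clear tR tL
  have p1 := h.n1.p1
  have p2 := h.n2.p1
  have y1 : ∀ e, 0 ≤ e → e < l → W (j - l + e) = W (k - l + e) := fun e _ _ =>
    h.X _ _ (by omega) (by omega) (by ring)
  have w0 : ∀ e, 0 ≤ e → e < l → W (k + 1 + e) = W (j - l + e) := fun e _ _ =>
    (hw.2 _ _ (by omega) (by omega) (by ring)).trans (y1 e ‹_› ‹_›).symm
  have r1 := h.n1.rel
  have r2 := h.n2.rel
  have r3 := h.n3.rel
  rw [← h.per u] at r3
  have f1 : W k = W m := e1.2 k m (by omega) (by omega) (by omega)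
  have w2 : ∀ e, 0 ≤ e → e < l → W (m - l + e) = W (j - l + e) := fun e _ _ =>
    (e1.2 _ _ (by omega) (by omega) (by omega)).symm.trans (y1 e ‹_› ‹_›).symm
  refine ad3_e1 h.ni (l := l) (by omega) h.S h.T
    (fun e _ _ => (h.B _ _ (by omega) (by omega) (by ring)).trans (w0 e ‹_› ‹_›)) w2
    (fun e _ _ => (e1.2 _ _ (by omega) (by omega) (by omega)).symm.trans (w0 e ‹_› ‹_›)) ?_
    fun e h1 h2 => ?_
  · rw [e2.2 q j (by omega) (by omega) (by omega), ← f1, ← r1, mul_assoc, mul_eq_left] at r2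
    exact eq_inv_of_mul_eq_one_right r2
  · rcases eq_or_lt_of_le h2 with rfl | h2
    · rw [e2.2 (u + n) i (by omega) (by omega) (by omega), ← f1, ← r1, mul_left_inj,
        e2.2 v (j + (m - i2)) (by omega) (by omega) (by omega)] at r3
      rw [r3, add_sub_cancel_right]
    · rw [← e2.2 (q + e) (j + e) (by omega) (by omega) (by omega),
        ← h.C (q + e) (m - l + (l - (m - i2) + e)) (by omega) (by omega) (by omega),
        w2 _ (by omega) (by omega)]
      exact cg W (by ring)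

/-- only the first and the third strip are used -/
theorem ad3_two' (h : Cf W n u v m i j k p q i2 Q) {t1 s1 t2 s2 : ℤ}
    (H : j - i + (p - i2) ≤ l ∧ u < t1 ∧ t1 + l ≤ k ∧ q < s1 ∧ s1 ≤ t2 ∧ t2 + l ≤ v ∧
      u + n < s2 ∧ s2 + l ≤ k + n)
    (e1 : Eqw W l t1 s1 (t2 - (q - i2)) (s2 - (k - j)))
    (e2 : Eqw W l t2 s2 (t1 - (k - j)) (s1 - (q - i2))) :
    (t1 + l = k ∨ t2 + l = v) → (s1 = q + 1 ∨ s2 = u + n + 1) → False := by
  have ar := h.ar.2
  have l1 := e1.1; have l2 := e2.1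
  have r := ul2 (fun e => W (t1 - (k - j) + e)) (fun e => W (t1 + e))
    (fun e => W (t2 - (q - i2) + e)) (fun e => W (t2 + e)) (k - t1) (v - t2) (s2 - t2 + l - 1)
    (by omega) (fun e _ _ => h.X _ _ (by omega) (by omega) (by ring))
    (fun z => h.n1.yz ((cg W (by ring)).trans (z.trans (cg W (by ring)))))
    (fun e _ _ => h.C _ _ (by omega) (by omega) (by ring))
    (fun z => h.n3.yz ((cg W (by ring)).trans (z.symm.trans (cg W (by omega)))))
    (fun e _ _ => e1.2 _ _ (by omega) (by omega) (by ring))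
    (fun e _ _ => e2.2 _ _ (by omega) (by omega) (by ring))
  have r' := ul2 (fun e => W (s1 - (q - i2) + l - 1 - e)) (fun e => W (s1 + l - 1 - e))
    (fun e => W (s2 - (k - j) + l - 1 - e)) (fun e => W (s2 + l - 1 - e))
    (s1 + l - 1 - q) (s2 + l - 1 - (u + n)) (s2 - t2 + l - 1) (by omega)
    (fun e _ _ => h.C _ _ (by omega) (by omega) (by ring))
    (fun z => h.n2.xz ((cg W (by ring)).trans (z.trans (cg W (by ring)))))
    (fun e _ _ => h.X' _ _ (by omega) (by omega) (by ring))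
    (fun z => h.xz3 ((cg W (by omega)).trans (z.trans (cg W (by ring)))))
    (fun e _ _ => e1.2 _ _ (by omega) (by omega) (by omega))
    (fun e _ _ => e2.2 _ _ (by omega) (by omega) (by omega))
  omega

end Pool.Agent.MP_a38735_al.WL
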