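import Pool.Agent.MP_a38735_al.TB

set_option autoImplicit false

namespace Pool.Agent.MP_a38735_al.WL.Tb

variable {G : Type*} [Group G] {W : ℤ → G} {n Q i j k p q x i3 j3 k3 w : ℤ}

theorem eq_inv_sw {a b : G} : a = b⁻¹ ↔ b = a⁻¹ := by
  constructor <;> rintro rfl <;> rw [inv_inv]

theorem adx_S (al : AL W n Q) {g : ℤ} (H : i ≤ j ∧ (j - i) % 2 = 0 ∧ w + 1 - (j - i) = 2 * g ∧ 0 < g)
    (s1 : Ant W 0 i (i + j)) (s2 : Ant W (j + 1) Q (i + j)) (run : Par W (j - w) j (2 * g)) :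
    i < g ∧ Q - j - 1 < g := by
  refine ⟨lt_of_not_ge fun z => ?_, lt_of_not_ge fun z => ?_⟩
  · exact rp al.ninv _ _ _ g (i - g) (i + j) run (by omega) (s1.mn (by omega) (by omega))
  · exact rp al.ninv _ _ _ g (j + 1) (i + j) run (by omega) (s2.mn (by omega) (by omega))

/-- the numbers of the region -/
def Hx (n Q i j p x i3 j3 w : ℤ) : Prop :=
  0 ≤ i ∧ i ≤ j ∧ j < Q ∧ Q ≤ x ∧ x < p + 1 ∧ 0 ≤ i3 ∧ i3 ≤ j3 ∧ j3 < Q ∧
    j3 - i3 = j - i + (p - x) ∧ w % 2 = 1 ∧ j3 - i3 < w ∧ i < p - w ∧ (j - i) % 2 = 0 ∧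
    (p - x) % 2 = 0 ∧ (p - i) % 2 = 0 ∧ p - i < n

theorem adx_al (al : AL W n Q) (H : Hx n Q i j p x i3 j3 w) (H' : i < x - w)
    (s1 : Ant W 0 i (i + j)) (s2 : Ant W (j + 1) Q (i + j)) (tt : Ant W Q x (x + p))
    (s : Str W w i3 j3 j i p x) : False := by
  have := al.qn
  unfold Hx at H
  obtain ⟨g, hg⟩ : ∃ g, w + 1 - (j - i) = 2 * g := ⟨(w + 1 - (j - i)) / 2, by omega⟩
  obtain ⟨g0, hg0⟩ : ∃ g, w + 1 = 2 * g := ⟨(w + 1) / 2, by omega⟩
  have run : Par W (j - w) j (2 * g) := fun t _ _ => (Eqw.rf _ _).eq s.w1 _ _ (by omega)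
  have hS := adx_S al (by omega) s1 s2 run
  obtain rfl : j = j3 := by
    rcases lt_trichotomy j j3 with z | z | z
    · exact (al.ubP (j3 - j) (by omega) (by omega) fun t _ _ =>
        (Eqw.rf _ _).eq s.w2 _ _ (by omega)).elim
    · exact z
    · exact (al.ubP (j - j3) (by omega) (by omega) fun t _ _ =>
        s.w2.eq (Eqw.rf _ _) _ _ (by omega)).elim
  have run0 : Par W (x - w) x (2 * g0) := fun t _ _ => s.w4.eq s.w5 _ _ (by omega)
  have hT : x - Q < g0 := lt_of_not_ge fun z =>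
    rp al.ninv _ _ _ g0 (x - g0) (x + p) run0 (by omega) (tt.mn (by omega) (by omega))
  refine rp al.ninv _ _ _ g (j + g) (i + p) run (by omega) fun t h1 h2 => ?_
  rw [← tt t (by omega) (by omega)]
  exact s.w5.eq s.w1 _ _ (by omega)

theorem adx_be (al : AL W n Q) (H : Hx n Q i j p x i3 j3 w)
    (s1 : Ant W 0 i (i + j)) (s2 : Ant W (j + 1) Q (i + j)) (tt : Ant W Q x (x + p))
    (e : W i = (W x)⁻¹) (s : Str (fun t => W (-t)) w (-j3) (-i3) (-i) (-j) (-x) (-p)) : False := by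
  have := al.qn
  unfold Hx at H
  obtain ⟨g, hg⟩ : ∃ g, w + 1 - (j - i) = 2 * g := ⟨(w + 1 - (j - i)) / 2, by omega⟩
  obtain ⟨g0, hg0⟩ : ∃ g, w + 1 = 2 * g := ⟨(w + 1) / 2, by omega⟩
  have run : Par W (j - w) j (2 * g) := fun t _ _ => s.w1.ng (Eqw.rf _ _) _ _ (by omega)
  have hS := adx_S al (by omega) s1 s2 run
  obtain rfl : i = i3 := by
    rcases lt_trichotomy i i3 with z | z | z
    · exact (al.ubQ (i3 - i) (by omega) (by omega) fun t _ _ =>
        (Eqw.rf _ _).ng s.w2 _ _ (by omega)).elim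
    · exact z
    · exact (al.ubQ (i - i3) (by omega) (by omega) fun t _ _ =>
        s.w2.ng (Eqw.rf _ _) _ _ (by omega)).elim
  have run0 : Par W (p - w) p (2 * g0) := fun t _ _ => s.w5.ng s.w4 _ _ (by omega)
  have hT : x - Q < g0 := lt_of_not_ge fun z =>
    rp al.ninv _ _ _ g0 (x - g0) (x + p) run0 (by omega) (tt.mn (by omega) (by omega))
  refine rp al.ninv _ _ _ g Q (x + i) run (by omega) fun t h1 h2 => ?_
  rcases lt_trichotomy t x with z | rfl | z
  · rw [← tt t (by omega) z]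
    exact s.w4.ng (Eqw.rf _ _) _ _ (by omega)
  · rw [add_sub_cancel_left, e]
  · have c := s.ct (p - t) (by omega) (by omega)
    rw [show -(-j3 + (p - t)) = j + t - x by omega, show -(-p + (p - t)) = t by ring] at c
    rw [← c, ← s2 _ (by omega) (by omega)]
    congr 1; ring

theorem adx_ga (al : AL W n Q) (H : Hx n Q i j p x i3 j3 w)
    (s1 : Ant W 0 i (i + j)) (s2 : Ant W (j + 1) Q (i + j)) (tt : Ant W Q x (x + p))
    (u2 : Ant W (j3 + 1) Q (i3 + j3)) (yx : W j ≠ (W i)⁻¹) (e : W j = (W p)⁻¹)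
    (s : Str W w i3 j3 p x j i) : False := by
  have := al.qn
  have := s.pos
  unfold Hx at H
  obtain ⟨g, hg⟩ : ∃ g, w + 1 - (p - x) = 2 * g := ⟨(w + 1 - (p - x)) / 2, by omega⟩
  have run : Par W (p - w) p (2 * g) := fun t _ _ => (Eqw.rf _ _).eq s.w1 _ _ (by omega)
  have run3 : Par W (j3 - w) j3 (2 * g) := fun t _ _ => s.w2.eq s.w3 _ _ (by omega)
  have hT : x - Q < g := lt_of_not_ge fun z =>
    rp al.ninv _ _ _ g (x - g) (x + p) run (by omega) (tt.mn (by omega) (by omega))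
  have o1 := s.o1
  have o1 : j3 + 2 * g ≠ p := fun z => al.ubQ (2 * g) (by omega) (by omega) fun t h1 h2 => by
    rcases lt_trichotomy t j3 with y | rfl | y
    · exact run3 t (by omega) y
    · rw [z, s.yy]
    · exact run t (by omega) (by omega)
  have o2 := s.o2
  have o3 : i ≠ j3 := fun z => yx (by rw [e, s.yy, z])
  have S : ∀ a, 1 ≤ a → a ≤ w - (j - i) → W (j + a) = (W (i - a))⁻¹ := fun a h1 h2 => by
    by_cases z : a ≤ i
    · rw [← s1 (i - a) (by omega) (by omega)]; congr 1; ring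
    · rw [eq_inv_sw, ← s2 (j + a) (by omega) (by omega)]; congr 1; ring
  by_cases z : j - i ≤ g + (p - x)
  · refine rp al.ninv _ _ _ g (p - g + 1) (2 * p - w + (j - i) - 1) run (by omega) fun t h1 h2 => ?_
    rw [s.w5.eq (Eqw.rf _ _) (j + (p - t)) _ (by omega)]
    rcases (show t ≤ p by omega).eq_or_lt with rfl | y
    · rw [sub_self, add_zero, e]
    · rw [S _ (by omega) (by omega), (Eqw.rf _ _).eq s.w4 t _ (by omega)]
  · obtain ⟨h, hh⟩ : ∃ h, 2 * g - (j - i) = 2 * h := ⟨g - (j - i) / 2, by omega⟩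
    have runh : Par W (j3 - w) (j3 - w + (j - i) - 1) (2 * h) := fun t h1 h2 => by
      rw [s.w5.eq s.w2 (i + (t - j3 + w + 1)) t (by omega), ← s.ct _ (by omega) (by omega)]
      congr 1; omega
    refine rp al.ninv _ _ _ h (i3 - h) (i3 + j3 - 2 * g) runh (by omega) fun t h1 h2 => ?_
    rw [← run3 _ (by omega) (by omega), eq_inv_sw, ← u2 _ (by omega) (by omega)]
    congr 1; ring

theorem adx_de (al : AL W n Q) (H : Hx n Q i j p x i3 j3 w)
    (s1 : Ant W 0 i (i + j)) (s2 : Ant W (j + 1) Q (i + j)) (tt : Ant W Q x (x + p))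
    (u2 : Ant W (j3 + 1) Q (i3 + j3)) (yx : W j ≠ (W i)⁻¹) (e : W i = (W x)⁻¹)
    (s : Str (fun t => W (-t)) w (-j3) (-i3) (-x) (-p) (-i) (-j)) : False := by
  have := al.qn
  have := s.pos
  unfold Hx at H
  have yy : W x = W i3 := by simpa only [neg_neg] using s.yy
  obtain ⟨g, hg⟩ : ∃ g, w + 1 - (p - x) = 2 * g := ⟨(w + 1 - (p - x)) / 2, by omega⟩
  have run : Par W (p - w) p (2 * g) := fun t _ _ => s.w1.ng (Eqw.rf _ _) _ _ (by omega)
  have run3 : Par W (j3 - (j - i) - w) (j3 - (j - i)) (2 * g) := fun t _ _ =>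
    s.w3.ng s.w2 _ _ (by omega)
  have hT : x - Q < g := lt_of_not_ge fun z =>
    rp al.ninv _ _ _ g (x - g) (x + p) run (by omega) (tt.mn (by omega) (by omega))
  have o1 := s.o1
  have o1 : i3 + 2 * g ≠ x := fun z => al.ubQ (2 * g) (by omega) (by omega) fun t h1 h2 => by
    rcases lt_trichotomy t i3 with y | rfl | y
    · exact run3 t (by omega) (by omega)
    · rw [z, yy]
    · exact run t (by omega) (by omega)
  have o2 := s.o2
  have o3 : j ≠ i3 := fun z => yx (by rw [e, yy, z, inv_inv])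
  have S : ∀ a, 1 ≤ a → a ≤ w - (j - i) → W (i - a) = (W (j + a))⁻¹ := fun a h1 h2 => by
    by_cases z : a ≤ i
    · rw [eq_inv_sw, ← s1 (i - a) (by omega) (by omega)]; congr 1; ring
    · rw [← s2 (j + a) (by omega) (by omega)]; congr 1; ring
  by_cases z : j - i ≤ g + (p - x)
  · refine rp al.ninv _ _ _ g x (2 * x + 1 + w - (j - i)) run (by omega) fun t h1 h2 => ?_
    rw [s.w5.ng (Eqw.rf _ _) (i - (t - x)) _ (by omega)]
    rcases h1.eq_or_lt with rfl | y
    · rw [sub_self, sub_zero, e]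
    · rw [S _ (by omega) (by omega), (Eqw.rf _ _).ng s.w4 t _ (by omega)]
  · obtain ⟨h, hh⟩ : ∃ h, 2 * g - (j - i) = 2 * h := ⟨g - (j - i) / 2, by omega⟩
    have runh : Par W (j3 - (j - i) - w + (p - x)) (j3 - (j - i) - 2 * h) (2 * h) :=
      fun t h1 h2 => by
      have c := s.ct (j3 - t - 2 * g) (by omega) (by omega)
      rw [show -(-j3 + (j3 - t - 2 * g)) = t + 2 * g by ring] at c
      rw [← run3 t (by omega) (by omega), c]
      exact s.w5.ng s.w3 _ _ (by omega)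
    refine rp al.ninv _ _ _ h (i3 - h) (i3 + j3 - 2 * g) runh (by omega) fun t h1 h2 => ?_
    rw [← run3 _ (by omega) (by omega), eq_inv_sw, ← u2 _ (by omega) (by omega)]
    congr 1; ring

/-- the region of `L2x` where the strip before `j, k` is the strip after `i3, k3` -/
theorem adx (al : AL W n Q) (hy : 0 ≤ i ∧ i ≤ j ∧ j < Q ∧ Q ≤ k ∧ q = p + k - i ∧ q < n ∧ Q ≤ x ∧
      x ≤ p ∧ k3 < n ∧ j3 + n = k3 + q - x ∧ 0 ≤ i3 ∧ i3 ≤ j3 ∧ j3 < Q)
    (a2 : Par W (Q - (k - j)) j (k - j)) (s1 : Ant W 0 i (i + j)) (s2 : Ant W (j + 1) Q (i + j))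
    (b : Par W (i + 1) p (k - i)) (tt : Ant W Q x (x + p)) (c : Par W (x + 1) k3 (q - x))
    (u2 : Ant W (j3 + 1) Q (i3 + j3)) (d1 : Par W (i3 + 1) Q (k3 - i3))
    (n1 : Nd W j i k) (n2 : Nd W p x q) (n3 : Nd W j3 i3 k3) (e : k - j + k3 - i3 = n) : False := by
  have per := al.per
  have ev := al.ev
  have := n1.p1; have := n1.p2; have := n2.p1; have := n2.p2
  have pn : ∀ s t, s = t + n → W s = W t := fun s t z => z ▸ per t
  have A : ∀ s t, i3 < t → t < k → s = t + (j - k) → W s = W t := by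
    rintro _ t h1 h2 rfl
    by_cases z : t < Q
    · rw [← d1 t h1 z]; exact (pn _ _ (by omega)).symm
    · rw [← a2 _ (by omega) (by omega)]; congr 1; ring
  have B : ∀ s t, k < t → t < q → s = t + (i - k) → W s = W t := by
    rintro _ t h1 h2 rfl
    rw [← b _ (by omega) (by omega)]; congr 1; ring
  have C : ∀ s t, q < t → t < n + j3 → s = t + (x - q) → W s = W t := by
    rintro _ t h1 h2 rfl
    rw [← c _ (by omega) (by omega)]; congr 1; ring
  have t1 : W j = W j3 → W i = W i3 → W k = W k3 := fun y z => by rw [← n1.rel, y, z, n3.rel]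
  have t2 : W p = W j3 → W x = W i3 → W q = W k3 := fun y z => by rw [← n2.rel, y, z, n3.rel]
  have e3 : W (i3 + (j - k)) = W k3 := (pn _ _ (by omega)).symm
  have tb : TB W n i3 j3 k q (j - k) (i - k) (x - q) := by
    refine ⟨per, by omega, by omega, fun t h1 h2 => A _ t h1 h2 rfl, fun t h1 h2 => B _ t h1 h2 rfl,
      fun t h1 h2 => C _ t h1 h2 rfl, ?_, ?_, ?_, ?_, ?_, ?_, ?_, ?_⟩ <;>
      simp only [add_sub_cancel, e3, show q + (i - k) = p by omega]
    exacts [n1.yz, n1.xz, n2.yz, n2.xz, n3.yz.symm, n3.xz.symm, t1, t2]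
  have eq : W (-(n - q)) = W q := (pn _ _ (by omega)).symm
  have ek : W (-(n - k)) = W k := (pn _ _ (by omega)).symm
  have tb' : TB (fun t => W (-t)) n (-j3) (-i3) (n - q) (n - k) (q - x - n) (k - i - n)
      (k - j - n) := by
    refine ⟨fun t => (pn _ _ (by omega)).symm, by omega, by omega, fun t h1 h2 => ?_,
      fun t h1 h2 => ?_, fun t h1 h2 => ?_, ?_, ?_, ?_, ?_, ?_, ?_, ?_, ?_⟩
    · exact (C _ (n - t) (by omega) (by omega) (by omega)).trans (pn _ _ (by omega))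
    · exact (B _ (n - t) (by omega) (by omega) (by omega)).trans (pn _ _ (by omega))
    · exact (A _ (n - t) (by omega) (by omega) (by omega)).trans (pn _ _ (by omega))
    all_goals
      simp only [eq, ek, neg_neg, show -(n - q + (q - x - n)) = x by omega,
        show -(n - q + (k - i - n)) = p by omega, show -(n - k + (k - i - n)) = i by omega,
        show -(n - k + (k - j - n)) = j by omega, show -(-j3 + (q - x - n)) = k3 by omega]
    exacts [n2.xz, n2.yz, n1.xz, n1.yz, n3.xz.symm, n3.yz.symm, fun y z => t2 z y, fun y z => t1 z y]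
  rcases tb.main' (J := j) (I := i) (Y := p) (X := x) (by omega) with PR | ⟨PL, w, hw, s⟩
  · rcases tb'.main' (J := -x) (I := -p) (Y := -i) (X := -j) (by omega) with PL | ⟨-, w, hw, s⟩
    · simp only [eq, ek, neg_neg] at PL
      have r1 := n1.rel
      have r2 := n2.rel
      rw [PL.1, PR.2] at r1
      rw [PL.2, PR.1, ← r1] at r2
      refine n1.tor ⟨PL.1.trans PR.2.symm, ?_⟩
      rw [PR.2, ← r1, eq_inv_iff_mul_eq_one]
      exact mul_left_cancel (a := W q) (by rw [mul_one]; simpa only [mul_assoc] using r2)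
    · have e : W i = (W x)⁻¹ := by
        have r2 := n2.rel
        rw [PR.1, ← PR.2, ← n1.rel, mul_assoc, mul_eq_left] at r2
        exact eq_inv_of_mul_eq_one_left r2
      rcases s with s | s
      · exact adx_de al (by unfold Hx; omega) s1 s2 tt u2 n1.yx e s.1
      · exact adx_be al (by unfold Hx; omega) s1 s2 tt e s.1
  · rcases s with s | s
    · exact adx_al al (by unfold Hx; omega) (by omega) s1 s2 tt s.1
    · refine adx_ga al (by unfold Hx; omega) s1 s2 tt u2 n1.yx ?_ s.1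
      have r2 := n2.rel
      rw [PL.1, ← PL.2, ← n1.rel, ← mul_assoc, mul_eq_right] at r2
      exact eq_inv_of_mul_eq_one_right r2

end Pool.Agent.MP_a38735_al.WL.Tb
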