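import Pool.Agent.MP_a38735_al.StA

set_option autoImplicit false

namespace Pool.Agent.MP_a38735_al.WL

variable {G : Type*} [Group G] {W : ℤ → G} {n a b g c : ℤ}

theorem fin (per : ∀ t, W (t + n) = W t) (z y : ℤ) {x : ℤ} {u : G} (p : W x = u)
    (e : y = x + z * n) : W y = u := by rw [e, per_mul per, p]

theorem pf (h : Par W a b g) (per : ∀ t, W (t + n) = W t) (z y : ℤ) {x : ℤ} {u : G}
    (p : W x = u) (e : a ≤ x - z * n ∧ x - z * n < b ∧ y = x - z * n + g) : W y = u := by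
  rw [e.2.2, h _ e.1 e.2.1]; exact fin per (-z) _ p (by ring)

theorem pr (h : Par W a b g) (per : ∀ t, W (t + n) = W t) (z y : ℤ) {x : ℤ} {u : G}
    (p : W x = u) (e : a ≤ y ∧ y < b ∧ x - z * n = y + g) : W y = u := by
  rw [← h _ e.1 e.2.1, ← e.2.2]; exact fin per (-z) _ p (by ring)

theorem af (h : Ant W a b c) (per : ∀ t, W (t + n) = W t) (z y : ℤ) {x : ℤ} {u : G}
    (p : W x = u) (e : a ≤ x - z * n ∧ x - z * n < b ∧ y = c - (x - z * n)) : W y = u⁻¹ := by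
  rw [e.2.2, h _ e.1 e.2.1, fin per (-z) _ p (by ring)]

theorem ar (h : Ant W a b c) (per : ∀ t, W (t + n) = W t) (z y : ℤ) {x : ℤ} {u : G}
    (p : W x = u) (e : a ≤ y ∧ y < b ∧ x - z * n = c - y) : W y = u⁻¹ := by
  rw [← fin per (-z) (c - y) p (by rw [← e.2.2]; ring), h _ e.1 e.2.1, inv_inv]

theorem af' (h : Ant W a b c) (per : ∀ t, W (t + n) = W t) (z y : ℤ) {x : ℤ} {u : G}
    (p : W x = u⁻¹) (e : a ≤ x - z * n ∧ x - z * n < b ∧ y = c - (x - z * n)) : W y = u :=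
  (af h per z y p e).trans (inv_inv u)

theorem ar' (h : Ant W a b c) (per : ∀ t, W (t + n) = W t) (z y : ℤ) {x : ℤ} {u : G}
    (p : W x = u⁻¹) (e : a ≤ y ∧ y < b ∧ x - z * n = c - y) : W y = u :=
  (ar h per z y p e).trans (inv_inv u)

theorem sw {u v : G} (h : u = v⁻¹) : v = u⁻¹ := by rw [h, inv_inv]

theorem ne' (m : W a ≠ W b) (per : ∀ t, W (t + n) = W t) (z z' : ℤ) {x y : ℤ}
    (e : x = a + z * n ∧ y = b + z' * n) : W x ≠ W y := by
  rwa [fin per z x rfl e.1, fin per z' y rfl e.2]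

theorem Par.cg {a' b' g' : ℤ} (h : Par W a b g) (e : a = a' ∧ b = b' ∧ g = g') :
    Par W a' b' g' := by obtain ⟨rfl, rfl, rfl⟩ := e; exact h

theorem Ant.cg {a' b' g' : ℤ} (h : Ant W a b g) (e : a = a' ∧ b = b' ∧ g = g') :
    Ant W a' b' g' := by obtain ⟨rfl, rfl, rfl⟩ := e; exact h

theorem Nd.cg {a' b' g' : ℤ} (h : Nd W a b g) (e : a = a' ∧ b = b' ∧ g = g') :
    Nd W a' b' g' := by obtain ⟨rfl, rfl, rfl⟩ := e; exact h

theorem AL.cg {n' Q : ℤ} (h : AL W n Q) (e : n = n') : AL W n' Q := e ▸ h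

theorem Nd.yx' {a' b' : ℤ} (h : Nd W a b g) (e : a = a' ∧ b = b') : W a' ≠ (W b')⁻¹ := by
  obtain ⟨rfl, rfl⟩ := e; exact h.yx

/-- inside `[A, B)` the word is invariant under the shift `s` -/
def PW (W : ℤ → G) (A B s : ℤ) : Prop :=
  ∀ x, A ≤ x → x < B → A ≤ x + s → x + s < B → W (x + s) = W x

theorem pp {A B s : ℤ} (h : PW W A B s) (per : ∀ t, W (t + n) = W t) (z y : ℤ) {x : ℤ} {u : G}
    (p : W x = u) (e : A ≤ x - z * n ∧ x - z * n < B ∧ A ≤ y ∧ y < B ∧ y = x - z * n + s) :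
    W y = u := by
  obtain ⟨h1, h2, h3, h4, rfl⟩ := e
  rw [h _ h1 h2 h3 h4]; exact fin per (-z) _ p (by ring)

theorem pw_mul {A B g : ℤ} (hg : 0 < g) (h : Par W A (B - g) g) (r : ℤ) : PW W A B (r * g) := by
  have k : ∀ r : ℕ, PW W A B (r * g) := by
    intro r
    induction r with
    | zero => intro x _ _ _ _; simp
    | succ r ih =>
      intro x h1 h2 h3 h4
      have : 0 ≤ (r : ℤ) * g := by positivity
      push_cast at h3 h4 ⊢
      rw [add_mul, one_mul, ← add_assoc] at h3 h4 ⊢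
      rw [h _ (by omega) (by omega), ih x h1 h2 (by omega) (by omega)]
  obtain ⟨r, rfl | rfl⟩ := r.eq_nat_or_neg
  · exact k r
  · intro x h1 h2 h3 h4
    rw [← k r _ h3 h4 (by linarith) (by linarith)]; congr 1; ring

theorem ex_mul {γ : ℤ} (hγ : 0 < γ) (L : ℤ) : ∃ r, L ≤ r * γ ∧ r * γ < L + γ := by
  have h1 := Int.emod_add_mul_ediv (L + γ - 1) γ
  have h2 := Int.emod_nonneg (L + γ - 1) hγ.ne'
  have h3 := Int.emod_lt_of_pos (L + γ - 1) hγ
  exact ⟨(L + γ - 1) / γ, by rw [mul_comm]; omega⟩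

theorem pw {A B γ : ℤ} (hγ : 0 < γ) (h : Par W A (B - 2 * γ) (2 * γ)) (L : ℤ) :
    ∃ R, L ≤ R ∧ R < L + γ ∧ PW W A B (2 * R) := by
  obtain ⟨r, h1, h2⟩ := ex_mul hγ L
  exact ⟨r * γ, h1, h2, by convert pw_mul (by omega) h r using 1; ring⟩

theorem pwi {A B γ : ℤ} (L : ℤ) (hγ : 0 < γ ∧ 0 < L + 2 * γ) (h : Par W A (B - 2 * γ) (2 * γ)) :
    ∃ U, (0 ≤ U ∧ L ≤ 2 * U ∧ 2 * U < L + 2 * γ) ∧ Par W A (B - 2 * U) (2 * U) := by
  obtain ⟨r, h1, h2⟩ := ex_mul hγ.1 ((L + 1) / 2)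
  have r0 : 0 ≤ r * γ := mul_nonneg (by by_contra c; nlinarith [show -γ < r * γ by omega]) hγ.1.le
  refine ⟨r * γ, by omega, fun t h3 h4 => ?_⟩
  have := pw_mul (by omega) h r t
  rw [show r * (2 * γ) = 2 * (r * γ) by ring] at this
  exact this h3 (by omega) (by omega) (by omega)

/-- signed count `H` of one letter at the places of one parity -/
structure Ht (W : ℤ → G) (n x0 : ℤ) (v H : ℤ → ℤ) (T : ℤ) : Prop where
  st : ∀ t, H (t + 1) = H t + v t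
  pe : ∀ z t, H (t + z * n) = H t + z * T
  eq : ∀ x y, W x = W y → (x - y) % 2 = 0 → v x = v y
  iv : ∀ x y, W x = (W y)⁻¹ → (x - y) % 2 = 0 → v x = -v y
  z0 : ∀ x, (x - x0) % 2 = 1 → v x = 0
  bd : ∀ x, v x = 0 ∨ (v x = 1 ∧ W x = W x0) ∨ (v x = -1 ∧ W x = (W x0)⁻¹)

theorem ex_sum (v : ℤ → ℤ) : ∃ H : ℤ → ℤ, ∀ t, H (t + 1) = H t + v t := by
  refine ⟨fun t => ∑ s ∈ Finset.range t.toNat, v s - ∑ s ∈ Finset.range (-t).toNat, v (-1 - s),
    fun t => ?_⟩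
  beta_reduce
  obtain ⟨t, rfl | rfl⟩ := t.eq_nat_or_neg
  · rw [show ((t : ℤ) + 1).toNat = t + 1 by omega, show (-((t : ℤ) + 1)).toNat = 0 by omega,
      show (-(t : ℤ)).toNat = 0 by omega, Finset.sum_range_succ]
    simp
  · cases t with
    | zero => simp
    | succ t =>
      rw [show (-((t + 1 : ℕ) : ℤ) + 1).toNat = 0 by omega,
        show (-(-((t + 1 : ℕ) : ℤ) + 1)).toNat = t by omega,
        show (-((t + 1 : ℕ) : ℤ)).toNat = 0 by omega,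
        show (- -((t + 1 : ℕ) : ℤ)).toNat = t + 1 by omega, Finset.sum_range_succ,
        show (-1 - (t : ℤ)) = -((t + 1 : ℕ) : ℤ) by omega]
      ring

theorem cst {f : ℤ → ℤ} (h : ∀ t, a ≤ t → t < b → f (t + 1) = f t) (t : ℤ) (h1 : a ≤ t) :
    t ≤ b → f t = f a := by
  induction t, h1 using Int.le_induction with
  | base => exact fun _ => rfl
  | succ t h1 ih => exact fun h2 => (h t h1 (by omega)).trans (ih (by omega))

theorem exH {Q : ℤ} (al : AL W n Q) (x0 : ℤ) : ∃ v H T, Ht W n x0 v H T ∧ v x0 = 1 := by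
  classical
  let φ : G → ℤ := fun u => if u = W x0 then 1 else if u = (W x0)⁻¹ then -1 else 0
  have ni := al.ninv x0
  have od : ∀ u, φ u⁻¹ = -φ u := fun u => by
    by_cases h1 : u = W x0
    · simp [φ, h1, ni.symm]
    · by_cases h2 : u = (W x0)⁻¹
      · simp [φ, h2, ni.symm]
      · simp [φ, h1, h2, inv_eq_iff_eq_inv]
  let v : ℤ → ℤ := fun t => if (t - x0) % 2 = 0 then φ (W t) else 0
  have e : ∀ x y, W x = W y → (x - y) % 2 = 0 → v x = v y := fun x y h1 h2 => by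
    simp only [v, h1, show (x - x0) % 2 = (y - x0) % 2 by omega]
  obtain ⟨H, hH⟩ := ex_sum v
  have ev := al.ev
  have k : ∀ t, H (t + n) - H t = H n - H 0 := fun t => by
    have s : ∀ t, H (t + 1 + n) - H (t + 1) = H (t + n) - H t := fun t => by
      rw [add_right_comm, hH, hH, e _ _ (al.per t) (by omega)]; ring
    induction t using Int.induction_on with
    | zero => simp
    | succ t ih => rw [s, ih]
    | pred t ih => rw [← s, sub_add_cancel, ih]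
  refine ⟨v, H, H n - H 0, ⟨hH, fun z t => ?_, e, fun x y h1 h2 => ?_, fun x h => ?_,
    fun x => ?_⟩, by simp [v, φ]⟩
  · induction z using Int.induction_on with
    | zero => simp
    | succ z ih => have := k (t + z * n); rw [add_mul, one_mul, ← add_assoc]; linarith
    | pred z ih =>
      have := k (t + (-z - 1) * n)
      rw [show t + (-z - 1) * n + n = t + -z * n by ring] at this
      linarith
  · simp only [v, h1, od, show (x - x0) % 2 = (y - x0) % 2 by omega]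
    split_ifs <;> simp
  · simp [v, h]
  · simp only [v, φ]
    split_ifs <;> simp [*]

section
variable {x0 T : ℤ} {v H : ℤ → ℤ}

theorem Ht.par (ht : Ht W n x0 v H T) (h : Par W a b g) (hg : g % 2 = 0) : ∃ D, ∀ z z' x y,
    a ≤ x - z * n ∧ x - z * n ≤ b ∧ y = x - z * n + g + z' * n → H y = H x + D + (z' - z) * T := by
  refine ⟨H (a + g) - H a, fun z z' x y e => ?_⟩
  have := cst (f := fun t => H (t + g) - H t) (fun t h1 h2 => by
    rw [add_right_comm, ht.st, ht.st, ht.eq _ _ (h t h1 h2) (by omega)]; ring) _ e.1 e.2.1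
  have k := ht.pe z (x - z * n)
  rw [sub_add_cancel] at k
  rw [e.2.2, ht.pe]; linarith

theorem Ht.ant (ht : Ht W n x0 v H T) (h : Ant W a b c) (hc : c % 2 = 0) : ∃ D, ∀ z z' x y,
    a ≤ x - z * n ∧ x - z * n ≤ b ∧ y = c + 1 - (x - z * n) + z' * n →
      H y = H x + D + (z' - z) * T := by
  refine ⟨H (c + 1 - a) - H a, fun z z' x y e => ?_⟩
  have := cst (f := fun t => H (c + 1 - t) - H t) (fun t h1 h2 => by
    have := ht.st (c - t)
    rw [show c + 1 - (t + 1) = c - t by ring, show c + 1 - t = c - t + 1 by ring, ht.st, ht.st,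
      ht.iv _ _ (h t h1 h2) (by omega)]; ring) _ e.1 e.2.1
  have k := ht.pe z (x - z * n)
  rw [sub_add_cancel] at k
  rw [e.2.2, ht.pe]; linarith

theorem Ht.lt (ht : Ht W n x0 v H T) (t z z' x y : ℤ) (e : x = t + z * n ∧ y = t + 1 + z' * n) :
    H y = H x + v t + (z' - z) * T := by
  rw [e.1, e.2, ht.pe, ht.pe, ht.st]; ring

theorem Ht.ze (ht : Ht W n x0 v H T) (_z z' x y : ℤ)
    (e : y = x + 1 + z' * n ∧ (x - x0) % 2 = 1) : H y = H x + z' * T := by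
  rw [e.1, ht.pe, ht.st, ht.z0 _ e.2, add_zero]

theorem Ht.yx (ht : Ht W n x0 v H T) {j i : ℤ} (h : W j ≠ (W i)⁻¹) :
    (0 ≤ v j ∧ 0 ≤ v i ∧ v j ≤ 1 ∧ v i ≤ 1) ∨ (v j ≤ 0 ∧ v i ≤ 0 ∧ -1 ≤ v j ∧ -1 ≤ v i) := by
  rcases ht.bd j with a | ⟨a, a'⟩ | ⟨a, a'⟩ <;> rcases ht.bd i with b | ⟨b, b'⟩ | ⟨b, b'⟩ <;>
    first | omega | simp [a', b'] at h

theorem Ht.tri (ht : Ht W n x0 v H T) {j i k : ℤ} (h : Nd W j i k) :
    (0 ≤ v j ∧ 0 ≤ v i ∧ v k ≤ 0 ∧ v j ≤ 1 ∧ v i ≤ 1 ∧ -1 ≤ v k ∧ v j + v i - v k ≤ 2) ∨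
    (v j ≤ 0 ∧ v i ≤ 0 ∧ 0 ≤ v k ∧ -1 ≤ v j ∧ -1 ≤ v i ∧ v k ≤ 1 ∧ -2 ≤ v j + v i - v k) := by
  have h1 := h.yz; have h2 := h.xz; have h3 := h.yx; have h4 := h.tor
  clear h
  rcases ht.bd j with a | ⟨a, a'⟩ | ⟨a, a'⟩ <;> rcases ht.bd i with b | ⟨b, b'⟩ | ⟨b, b'⟩ <;>
    rcases ht.bd k with c | ⟨c, c'⟩ | ⟨c, c'⟩ <;> first | omega | simp_all

end

/-- a rotation with a hole, a reflection on the hole and a missing edge -/
theorem rr0 {f : ℤ → G} (ni : ∀ t, f t ≠ (f t)⁻¹) {η μ κ A B c x0 : ℤ} (hκ : κ = 0 ∨ κ = 1)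
    (hB : 0 < μ ∧ B - A < 2 * μ) (per : ∀ t, f (t + 2 * μ) = f t)
    (e : ∀ x, f (x + 2 * η) = f x ∨ (∃ z, A ≤ x + z * (2 * μ) ∧ x + z * (2 * μ) ≤ B) ∨
      ∃ z, x + κ * (2 * η) + z * (2 * μ) = A - 1)
    (Z : ∀ t, A ≤ t → t < B → f (2 * c - t) = (f t)⁻¹) (hm : f (x0 + 2 * η) ≠ f x0) :
    False := by
  classical
  have walk : ∀ (y : ℤ) (r : ℕ), (∀ s : ℕ, s < r → f (y + s * (2 * η) + 2 * η) =
      f (y + s * (2 * η))) → f (y + r * (2 * η)) = f y := by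
    intro y r
    induction r with
    | zero => simp
    | succ r ih =>
      intro h
      rw [← ih fun s hs => h s (by omega), ← h r (by omega)]; congr 1; push_cast; ring
  have st1 : ∃ δ r z : ℤ, 0 < δ ∧ 2 * δ ≤ B - A + 1 ∧ δ = r * η + z * μ := by
    have ex : ∃ r : ℕ, f (x0 + 2 * η + r * (2 * η) + 2 * η) ≠ f (x0 + 2 * η + r * (2 * η)) := by
      refine ⟨(μ - 1).toNat, ?_⟩
      rw [Int.toNat_of_nonneg (by omega), fin per η _ (rfl : f (x0 + 2 * η) = _) (by ring),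
        fin per η (x0 + 2 * η + (μ - 1) * (2 * η)) (rfl : f x0 = _) (by ring)]
      exact hm
    have h1 := Nat.find_spec ex
    have h2 := walk _ _ fun s hs => not_not.1 (Nat.find_min ex hs)
    generalize (Nat.find ex : ℤ) = r at h1 h2
    have ne : ∀ z, 2 * η + r * (2 * η) ≠ z * (2 * μ) := fun z h =>
      hm (h2.symm.trans (fin per z _ rfl (by linarith)))
    have k : ∀ u z u' z' : ℤ, A - 1 ≤ x0 + u * (2 * η) + z * (2 * μ) →
        x0 + u * (2 * η) + z * (2 * μ) ≤ B → A - 1 ≤ x0 + u' * (2 * η) + z' * (2 * μ) →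
        x0 + u' * (2 * η) + z' * (2 * μ) ≤ B →
        u * (2 * η) + z * (2 * μ) ≠ u' * (2 * η) + z' * (2 * μ) →
        ∃ δ r z : ℤ, 0 < δ ∧ 2 * δ ≤ B - A + 1 ∧ δ = r * η + z * μ := by
      intro u z u' z' a1 a2 a3 a4 a5
      rcases lt_or_gt_of_ne a5 with a | a
      · exact ⟨_, u' - u, z' - z, by linarith, by linarith, rfl⟩
      · exact ⟨_, u - u', z - z', by linarith, by linarith, rfl⟩
    rcases (e x0).resolve_left hm with ⟨z, a1, a2⟩ | ⟨z, a⟩ <;>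
      rcases (e _).resolve_left h1 with ⟨z', b1, b2⟩ | ⟨z', b⟩
    · exact k 0 z (r + 1) z' (by linarith) (by linarith) (by linarith) (by linarith)
        fun h => ne (z - z') (by linarith)
    · exact k 0 z (r + 1 + κ) z' (by linarith) (by linarith) (by linarith) (by linarith)
        fun h => by linarith
    · exact k κ z (r + 1) z' (by linarith) (by linarith) (by linarith) (by linarith)
        fun h => by linarith
    · exact (ne (z - z') (by linarith)).elim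
  obtain ⟨δ, r, z, d0, d1, d2⟩ := st1
  have ex : ∃ s : ℕ, ∃ z, A ≤ c + s * η + z * μ ∧ c + s * η + z * μ < B := by
    obtain ⟨k, k1, k2⟩ := ex_mul d0 (A - c)
    obtain ⟨w, w1, -⟩ := ex_mul hB.1 (-(k * r))
    refine ⟨(k * r + w * μ).toNat, k * z - w * η, ?_⟩
    rw [Int.toNat_of_nonneg (by omega),
      show c + (k * r + w * μ) * η + (k * z - w * η) * μ = c + k * δ by rw [d2]; ring]
    omega
  obtain ⟨w, h1, h2⟩ := Nat.find_spec ex
  have mn := fun s => Nat.find_min ex (m := s)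
  generalize Nat.find ex = R at h1 h2 mn
  obtain ⟨t, ht⟩ : ∃ t, t = c + R * η + w * μ := ⟨_, rfl⟩
  rw [← ht] at h1 h2
  refine ni t (Eq.trans ?_ (Z t h1 h2))
  rw [← walk (2 * c - t) R fun s hs => ?_]
  · exact (fin per (-w) _ rfl (by rw [ht]; ring)).symm
  · have r1 : ∀ x y : ℤ, x * (2 * y) = 2 * (x * y) := fun x y => by ring
    rcases e (2 * c - t + s * (2 * η)) with h | ⟨z, a1, a2⟩ | ⟨z, a⟩
    · exact h
    · simp only [r1] at a1 a2
      exact (mn s hs ⟨z, by omega⟩).elim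
    · rcases hκ with rfl | rfl
      · simp only [r1] at a
        exact (mn s hs ⟨z, by omega⟩).elim
      · rcases (Nat.succ_le_of_lt hs).lt_or_eq with q | rfl
        · refine (mn _ q ⟨z, ?_⟩).elim
          simp only [r1] at a
          push_cast
          rw [add_mul]
          omega
        · push_cast at ht
          have q : t - (A - 1) = 2 * ((w - z) * μ) := by linarith
          have : 1 ≤ w - z := by by_contra c; nlinarith
          nlinarith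

theorem rr1 (ni : ∀ t, W t ≠ (W t)⁻¹) {η θ c s B x0 y0 o : ℤ} (ho : o = 0 ∨ o = 1)
    (e : 0 < η ∧ 0 < θ ∧ s ≤ 2 * c - (B - 1) ∧ 2 * c - s < s + 2 * η + 2 * θ ∧ B + 2 ≤ s + 2 * θ)
    (e' : (x0 = s + 2 * η - 1 ∧ y0 = x0 + 2 * θ) ∨ (s ≤ x0 ∧ x0 < s + 2 * θ ∧ y0 = x0 + 2 * η))
    (hm : W x0 ≠ W y0) (hX : Par W (B + 1) (s + 2 * θ - 1 + o) (2 * η))
    (hY : Par W s (s + 2 * η - o) (2 * θ)) (hZ : Ant W s B (2 * c)) : False := by
  have md : ∀ x, ∃ z, s ≤ x + z * (2 * (η + θ)) ∧ x + z * (2 * (η + θ)) < s + 2 * (η + θ) :=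
    fun x => by
      obtain ⟨z, h1, h2⟩ := ex_mul (γ := 2 * (η + θ)) (by omega) (s - x)
      exact ⟨z, by omega, by omega⟩
  let f : ℤ → G := fun x => W (s + (x - s) % (2 * (η + θ)))
  have per : ∀ t, f (t + 2 * (η + θ)) = f t := fun t => by
    simp only [f]; rw [add_sub_right_comm, Int.add_emod_right]
  have fw : ∀ y, s ≤ y → y < s + 2 * (η + θ) → f y = W y := fun y h1 h2 => by
    simp only [f]; rw [Int.emod_eq_of_lt (by omega) (by omega), add_sub_cancel]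
  have fz : ∀ x y z, y = x + z * (2 * (η + θ)) → s ≤ y → y < s + 2 * (η + θ) → f x = W y :=
    fun x y z h h1 h2 => (fin per z y rfl h).symm.trans (fw y h1 h2)
  have k : ∃ x0, f (x0 + 2 * η) ≠ f x0 := by
    rcases e' with ⟨h1, h2⟩ | ⟨h1, h2, h3⟩
    · exact ⟨y0, by rwa [fz _ x0 (-1) (by omega) (by omega) (by omega),
        fw y0 (by omega) (by omega)]⟩
    · exact ⟨x0, by rw [← h3, fw _ (by omega) (by omega), fw _ h1 (by omega)]; exact hm.symm⟩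
  obtain ⟨x0, k⟩ := k
  refine rr0 (f := f) (μ := η + θ) (κ := 1 - o) (A := s) (B := B) (c := c) (fun t => ni _)
    (by omega) (by omega) per (fun x => ?_) (fun t h1 h2 => ?_) k
  · obtain ⟨z, h1, h2⟩ := md x
    obtain ⟨y, hy⟩ : ∃ y, y = x + z * (2 * (η + θ)) := ⟨_, rfl⟩
    rw [← hy] at h1 h2
    by_cases c1 : y ≤ B
    · exact Or.inr (Or.inl ⟨z, by omega, by omega⟩)
    rw [fz x y z hy h1 h2]
    by_cases c2 : y < s + 2 * θ - 1 + o
    · exact Or.inl ((fz _ _ z (by omega) (by omega) (by omega)).trans (hX y (by omega) c2))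
    by_cases c3 : s + 2 * θ ≤ y ∧ y < s + 2 * η + 2 * θ - o
    · refine Or.inl ((fz _ (y - 2 * θ) (z - 1) (by rw [sub_mul]; omega) (by omega)
        (by omega)).trans ?_)
      rw [← hY _ (by omega) (by omega), sub_add_cancel]
    · refine Or.inr (Or.inr ⟨z - 1, ?_⟩)
      rw [sub_mul z]
      rcases ho with rfl | rfl <;> omega
  · rw [fw _ (by omega) (by omega), fw _ h1 (by omega), hZ t h1 h2]

theorem rr1a (ni : ∀ t, W t ≠ (W t)⁻¹) (η θ c s B x0 y0 : ℤ)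
    (e : (0 < η ∧ 0 < θ ∧ s ≤ 2 * c - (B - 1) ∧ 2 * c - s < s + 2 * η + 2 * θ ∧
      B + 2 ≤ s + 2 * θ) ∧ s ≤ x0 ∧ x0 < s + 2 * θ ∧ y0 = x0 + 2 * η)
    (hm : W x0 ≠ W y0) (hX : Par W (B + 1) (s + 2 * θ - 1) (2 * η))
    (hY : Par W s (s + 2 * η) (2 * θ)) (hZ : Ant W s B (2 * c)) : False :=
  rr1 ni (Or.inl rfl) e.1 (Or.inr e.2) hm (hX.cg (by omega)) (hY.cg (by omega)) hZ

theorem rr1b (ni : ∀ t, W t ≠ (W t)⁻¹) (η θ c s B x0 y0 : ℤ)
    (e : (0 < η ∧ 0 < θ ∧ s ≤ 2 * c - (B - 1) ∧ 2 * c - s < s + 2 * η + 2 * θ ∧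
      B + 2 ≤ s + 2 * θ) ∧ ((x0 = s + 2 * η - 1 ∧ y0 = x0 + 2 * θ) ∨
      (s ≤ x0 ∧ x0 < s + 2 * θ ∧ y0 = x0 + 2 * η)))
    (hm : W x0 ≠ W y0) (hX : Par W (B + 1) (s + 2 * θ) (2 * η))
    (hY : Par W s (s + 2 * η - 1) (2 * θ)) (hZ : Ant W s B (2 * c)) : False :=
  rr1 ni (Or.inr rfl) e.1 e.2 hm (hX.cg (by omega)) hY hZ

theorem Par.ng (h : Par W a b g) {a' b' : ℤ} (e : a' = 1 - b - g ∧ b' = 1 - a - g) :
    Par (fun t => W (-t)) a' b' g := fun t h1 h2 => by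
  beta_reduce
  rw [← h _ (by omega) (by omega)]; congr 1; ring

theorem Ant.ng (h : Ant W a b g) {a' b' g' : ℤ} (e : a' = 1 - b ∧ b' = 1 - a ∧ g' = -g) :
    Ant (fun t => W (-t)) a' b' g' := fun t h1 h2 => by
  beta_reduce
  rw [← h _ (by omega) (by omega)]; congr 1; omega

theorem rr2a (ni : ∀ t, W t ≠ (W t)⁻¹) (η θ c e A x0 y0 : ℤ)
    (h : (0 < η ∧ 0 < θ ∧ 2 * c - (A + 1) ≤ e ∧ e - 2 * η - 2 * θ < 2 * c - e ∧
      e + 2 ≤ A + 2 * θ) ∧ x0 ≤ e ∧ e - 2 * θ < x0 ∧ y0 = x0 - 2 * η)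
    (hm : W x0 ≠ W y0) (hX : Par W (e - 2 * η - 2 * θ + 2) (A - 2 * η) (2 * η))
    (hY : Par W (e - 2 * η - 2 * θ + 1) (e - 2 * θ + 1) (2 * θ))
    (hZ : Ant W (A + 1) (e + 1) (2 * c)) : False :=
  rr1a (W := fun t => W (-t)) (fun _ => ni _) η θ (-c) (-e) (-A) (-x0) (-y0) (by omega)
    (by simpa using hm) (hX.ng (by omega)) (hY.ng (by omega)) (hZ.ng (by omega))

theorem rr2b (ni : ∀ t, W t ≠ (W t)⁻¹) (η θ c e A x0 y0 : ℤ)
    (h : (0 < η ∧ 0 < θ ∧ 2 * c - (A + 1) ≤ e ∧ e - 2 * η - 2 * θ < 2 * c - e ∧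
      e + 2 ≤ A + 2 * θ) ∧ ((x0 = e - 2 * η + 1 ∧ y0 = x0 - 2 * θ) ∨
      (x0 ≤ e ∧ e - 2 * θ < x0 ∧ y0 = x0 - 2 * η)))
    (hm : W x0 ≠ W y0) (hX : Par W (e - 2 * η - 2 * θ + 1) (A - 2 * η) (2 * η))
    (hY : Par W (e - 2 * η - 2 * θ + 2) (e - 2 * θ + 1) (2 * θ))
    (hZ : Ant W (A + 1) (e + 1) (2 * c)) : False :=
  rr1b (W := fun t => W (-t)) (fun _ => ni _) η θ (-c) (-e) (-A) (-x0) (-y0) (by omega)
    (by simpa using hm) (hX.ng (by omega)) (hY.ng (by omega)) (hZ.ng (by omega))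

/-- a product of three letters is trivial -/
def Tr3 (a b c : G) : Prop := a * b * c = 1

theorem Nd.t0 {j i k : ℤ} (h : Nd W j i k) : Tr3 (W j) (W i) (W k)⁻¹ := by
  simp [Tr3, h.rel]

theorem Nd.t1 {j i k : ℤ} (h : Nd W j i k) : Tr3 (W k) (W i)⁻¹ (W j)⁻¹ := by
  simp [Tr3, ← h.rel]

theorem Tr3.rot {a b c : G} (h : Tr3 a b c) : Tr3 b c a := by
  have : a = (b * c)⁻¹ := eq_inv_of_mul_eq_one_left (by rw [← mul_assoc]; exact h)
  simp [Tr3, this]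

theorem Tr3.third {a b c a' b' c' : G} (h : Tr3 a b c) (h' : Tr3 a' b' c') (e : a' = a)
    (e' : b' = b) : c' = c := by
  subst e e'; exact mul_left_cancel (h'.trans h.symm)

theorem tr01 {x y z : G} (h : y = x) (h' : z = y⁻¹) : z = x⁻¹ := h ▸ h'

theorem tr11 {x y z : G} (h : y = x⁻¹) (h' : z = y⁻¹) : z = x := by rw [h', h, inv_inv]

end Pool.Agent.MP_a38735_al.WL
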