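import Pool.Agent.MP_a38735_al.StA

set_option autoImplicit false

namespace Pool.Agent.MP_a38735_al.WL

variable {G : Type*} [Group G] {W : ℤ → G} {r : ℤ → ℤ} {n Q L : ℤ}

theorem Sk.ne (h : Sk W r n Q) (ev : n % 2 = 0) {s t : ℤ}
    (k : (s - t ≠ 0 ∧ -n < s - t ∧ s - t < n) ∨ (s - t) % 2 = 1) : r s ≠ r t := fun e => by
  have d := h.inj s t e
  rcases k with k | k
  · rcases lt_or_gt_of_ne k.1 with u | u
    · have := Int.le_of_dvd (by omega : 0 < -(s - t)) ((Int.dvd_neg).2 d)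
      omega
    · have := Int.le_of_dvd u d
      omega
  · have := (Int.dvd_of_emod_eq_zero ev).trans d
    omega

theorem Sk.prun (h : Sk W r n Q) {a b g : ℤ} (k : Par W a b g) (ab : a ≤ b) :
    (r a < r (a + g) ↔ r b < r (b + g)) ∧ (r (a + g) < r a ↔ r (b + g) < r b) := by
  induction b, ab using Int.leInduction with
  | base => exact ⟨Iff.rfl, Iff.rfl⟩
  | succ b ab ih =>
    have e := k b ab (by omega)
    have ih := ih fun t h1 h2 => k t h1 (by omega)
    rw [ih.1, ih.2, add_right_comm b 1 g]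
    exact ⟨h.par _ _ e.symm, h.par _ _ e⟩

theorem Sk.arun (h : Sk W r n Q) {a b c : ℤ} (k : Ant W a b c) (ab : a ≤ b) :
    (r a < r (c - a + 1) ↔ r b < r (c - b + 1)) ∧
      (r (c - a + 1) < r a ↔ r (c - b + 1) < r b) := by
  induction b, ab using Int.leInduction with
  | base => exact ⟨Iff.rfl, Iff.rfl⟩
  | succ b ab ih =>
    have e := k b ab (by omega)
    have ih := ih fun t h1 h2 => k t h1 (by omega)
    rw [ih.1, ih.2, show c - (b + 1) + 1 = c - b by ring]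
    exact ⟨h.ant _ _ (by rw [e, inv_inv]), (h.ant _ _ e).symm⟩

/-- a strip that ends like the one before `j, k` and a strip that begins like the one after `i, k`
are short, if no end of the second is a beginning of the first -/
def Bd (W : ℤ → G) (n L j i k : ℤ) : Prop :=
  ∀ a b g a' b' g', a ≤ b → a' ≤ b' → Par W a b g → Par W a' b' g' →
    ((W b = W j ∧ W (b + g) = W k) ∨ (W b = W k ∧ W (b + g) = W j)) →
    ((W (a' - 1) = W i ∧ W (a' - 1 + g') = W k) ∨ (W (a' - 1) = W k ∧ W (a' - 1 + g') = W i)) →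
    (∀ m, 0 < m → m ≤ b - a → m ≤ b' - a' → ¬ Par W (b' - m) b' (a - b' + m)) →
    L + (b - a) + (b' - a') + 3 ≤ n

/-- `L` bounds all parallel strips, and the strips at an odd triangle with three marks are short -/
structure Lm (W : ℤ → G) (n Q L : ℤ) : Prop where
  l0 : 0 ≤ L
  mx : ∀ a b g, 0 < g → g < n → Par W a b g → b - a ≤ L
  bd : ∀ j i k s e s' e', Pts n Q s e s' e' → s ≤ i → i < e → s ≤ j → j < e → s' ≤ k → k < e' →
    Nd W j i k → (Par W s j (k - j) ∨ Par W s' k (j - k)) →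
    (Ant W s i (i + j) ∨ Ant W (j + 1) e (i + j)) →
    (Par W (i + 1) e (k - i) ∨ Par W (k + 1) e' (i - k)) → Bd W n L j i k

theorem AL.lm (al : AL W n Q) (n2 : 2 < n) : ∃ L, Lm W n Q L := by
  obtain ⟨r, h⟩ := al.stk
  obtain ⟨x, d, L, L0, pa, n1, n3, mx, tri⟩ := h.lam n2
  refine ⟨L, L0, mx, fun j i k s e s' e' ps i0 i1 j0 j1 k0 k1 nd A S B => ?_⟩
  have q0 := al.q0
  have qn := al.qn
  have p1 := nd.p1
  have rn : r n = r 0 := by simpa using h.rper 0
  have lo : ∀ t u, (u = 0 ∨ u = n) → ((t - u ≠ 0 ∧ -n < t - u ∧ t - u < n) ∨ (t - u) % 2 = 1) →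
      r u < r t := fun t u z k => by
    refine lt_of_le_of_ne ?_ (h.ne al.ev k).symm
    rcases z with rfl | rfl
    exacts [h.mn _, rn ▸ h.mn _]
  have hi : ∀ t, ((t - Q ≠ 0 ∧ -n < t - Q ∧ t - Q < n) ∨ (t - Q) % 2 = 1) → r t < r Q :=
    fun t k => (h.mx _).lt_of_ne (h.ne al.ev k)
  have ev := al.ev
  have e1 : ∀ a b : ℤ, a + (b - a) = b := fun a b => by ring
  have e2 : ∀ a b : ℤ, a + 1 + (b - a) = b + 1 := fun a b => by ring
  have e3 : i + j - i + 1 = j + 1 := by ring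
  have e4 : i + j - (j + 1) + 1 = i := by ring
  have no : ¬ ((W j = W (x + L) ∧ W k = W (x + L + d)) ∨ (W j = W (x + L + d) ∧ W k = W (x + L)) ∨
      (W i = W (x - 1) ∧ W k = W (x - 1 + d)) ∨ (W i = W (x - 1 + d) ∧ W k = W (x - 1))) := by
    intro m
    have := tri j i k p1 nd.p2 nd.rel m
    rcases ps with ⟨rfl, rfl, rfl, rfl⟩ | ⟨rfl, rfl, rfl, rfl⟩
    · refine this.1 ⟨?_, ?_, ?_⟩
      · rcases A with A | A
        · exact e1 j k ▸ (h.prun A j0).1.1 (lo _ _ (Or.inl rfl) (by omega))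
        · exact e1 k j ▸ (h.prun A k0).2.1 (hi _ (by omega))
      · rcases S with S | S
        · exact e3 ▸ (h.arun S i0).1.1 (lo _ _ (Or.inl rfl) (by omega))
        · exact e4 ▸ (h.arun S (by omega)).2.2 (hi _ (by omega))
      · rcases B with B | B
        · exact e2 i k ▸ (h.prun B (by omega)).2.2 (hi _ (by omega))
        · exact e2 k i ▸ (h.prun B (by omega)).1.2 (lo _ _ (Or.inr rfl) (by omega))
    · refine this.2 ⟨?_, ?_, ?_⟩
      · rcases A with A | A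
        · exact e1 j k ▸ (h.prun A j0).2.1 (hi _ (by omega))
        · exact e1 k j ▸ (h.prun A k0).1.1 (lo _ _ (Or.inl rfl) (by omega))
      · rcases S with S | S
        · exact e3 ▸ (h.arun S i0).2.1 (hi _ (by omega))
        · exact e4 ▸ (h.arun S (by omega)).1.2 (lo _ _ (Or.inr rfl) (by omega))
      · rcases B with B | B
        · exact e2 i k ▸ (h.prun B (by omega)).1.2 (lo _ _ (Or.inr rfl) (by omega))
        · exact e2 k i ▸ (h.prun B (by omega)).2.2 (hi _ (by omega))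
  intro a b g a' b' g' ab ab' X Y z z' u
  have := three (n := n) (by omega) al.per ![x, a, a'] ![L, b - a, b' - a'] ![d, g, g']
    (by intro σ; fin_cases σ <;> simp <;> omega)
    (by
      intro σ t h1 h2
      fin_cases σ <;> simp at h1 h2 ⊢
      exacts [pa t h1 h2, X t h1 h2, Y t h1 h2])
    (by
      simp only [Matrix.cons_val, e1]
      rcases z with ⟨y1, y2⟩ | ⟨y1, y2⟩ <;> rw [y1, y2]
      · exact ⟨n1, nd.yz, fun c => no (Or.inl c), fun c => no (Or.inr (Or.inl c))⟩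
      · exact ⟨n1, nd.yz.symm, fun c => no (Or.inr (Or.inl c.symm)), fun c => no (Or.inl c.symm)⟩)
    (by
      simp only [Matrix.cons_val]
      rcases z' with ⟨y1, y2⟩ | ⟨y1, y2⟩ <;> rw [y1, y2]
      · exact ⟨n3, nd.xz, fun c => no (Or.inr (Or.inr (Or.inl c))),
          fun c => no (Or.inr (Or.inr (Or.inr c)))⟩
      · exact ⟨n3, nd.xz.symm, fun c => no (Or.inr (Or.inr (Or.inr c.symm))),
          fun c => no (Or.inr (Or.inr (Or.inl c.symm)))⟩)
    (by
      intro m m0 m1 m2 c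
      simp only [Matrix.cons_val, e1] at m1 m2 c
      refine u m m0 m1 m2 fun t h1 h2 => ?_
      have := c (t - b' + m) (by omega) (by omega)
      convert this.symm using 2 <;> ring)
  simpa only [Matrix.cons_val] using this

variable {j i k : ℤ}

/-- any strip that ends like the one before `j, k` -/
theorem Bd.bef (h : Bd W n L j i k) {a b g : ℤ} (ab : a ≤ b) (X : Par W a b g)
    (z : (W b = W j ∧ W (b + g) = W k) ∨ (W b = W k ∧ W (b + g) = W j)) :
    L + (b - a) + 3 ≤ n := by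
  simpa using h a b g (i + 1) (i + 1) (k - i) ab le_rfl X (fun _ _ _ => by omega) z
    (Or.inl (by simp)) fun _ _ _ _ => by omega

/-- any strip that begins like the one after `i, k` -/
theorem Bd.aft (h : Bd W n L j i k) {a b g : ℤ} (ab : a ≤ b) (X : Par W a b g)
    (z : (W (a - 1) = W i ∧ W (a - 1 + g) = W k) ∨ (W (a - 1) = W k ∧ W (a - 1 + g) = W i)) :
    L + (b - a) + 3 ≤ n := by
  simpa using h j j (k - j) a b g le_rfl ab (fun _ _ _ => by omega) X (Or.inl (by simp)) z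
    fun _ _ _ _ => by omega

/-- a strip from a mark to `j, k` and a strip from `i, k` to the same mark -/
theorem Bd.two (h : Bd W n L j i k) (al : AL W n Q) {a b g a' b' g' : ℤ} (ab : a ≤ b)
    (ab' : a' ≤ b') (X : Par W a b g) (Y : Par W a' b' g') (y : (a = 0 ∧ b' = n) ∨ (a = Q ∧ b' = Q))
    (bn : b - a < n) (z : (b = j ∧ b + g = k) ∨ (b = k ∧ b + g = j))
    (z' : (a' = i + 1 ∧ i + g' = k) ∨ (a' = k + 1 ∧ k + g' = i)) :
    L + (b - a) + (b' - a') + 3 ≤ n := by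
  refine h a b g a' b' g' ab ab' X Y (z.imp (fun y => by rw [y.2, y.1]; simp)
    fun y => by rw [y.2, y.1]; simp) (z'.imp (fun y => by simp [y.1, y.2]) fun y => by
      simp [y.1, y.2]) fun m m0 m1 _ c => ?_
  rcases y with ⟨rfl, rfl⟩ | ⟨rfl, rfl⟩
  · refine al.ubP m m0 (by omega) fun t h1 h2 => ?_
    rw [← al.per t, ← c (t + b') (by omega) (by omega)]; congr 1; ring
  · exact al.ubQ m m0 (by omega) (by simpa using c)

theorem Par.fl {a b g a' b' g' : ℤ} (h : Par W a b g) (e : a + g ≤ a' ∧ b' ≤ b + g ∧ g' = -g) :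
    Par W a' b' g' := fun t k1 k2 => by
  rw [← sub_add_cancel t g, h (t - g) (by omega) (by omega)]; congr 1; omega

theorem Par.sh (al : AL W n Q) {a b g a' b' g' : ℤ} (h : Par W a b g) (u v : ℤ)
    (e : a ≤ a' + u * n ∧ b' + u * n ≤ b ∧ g' = g + v * n) : Par W a' b' g' := fun t k1 k2 => by
  rw [← per_mul al.per u t, ← h (t + u * n) (by omega) (by omega),
    ← per_mul al.per (v - u) (t + u * n + g)]
  congr 1; rw [e.2.2]; ring

variable {l p q s e : ℤ}

theorem Lm.lbd (h : Lm W n Q L) (lf : Leaf W n Q i j k l p q s e) : Bd W n L j i k := by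
  obtain ⟨i0, ij, jQ, Qk, kn, nd, a1, a2, s1, s2, b, rfl, lk⟩ := lf
  refine h.bd j i k 0 Q Q n (Or.inl ⟨rfl, rfl, rfl, rfl⟩) i0 (by omega) (by omega) jQ Qk kn nd
    (Or.inl a1) (Or.inl s1) (lk.imp (fun z t h1 h2 => b t h1 (by omega)) fun z => b.fl (by omega))

/-- the bounds at a leaf -/
theorem Lm.leaf (h : Lm W n Q L) (al : AL W n Q) (lf : Leaf W n Q i j k l p q s e) :
    L + j + 3 ≤ n ∧ L + k - Q + 3 ≤ n ∧ L + l + 3 ≤ n ∧ (s = Q → L + k - i + 2 ≤ n) ∧
      (s = 0 → L + 2 ≤ k - j) := by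
  have bd := h.lbd lf
  obtain ⟨i0, ij, jQ, Qk, kn, nd, a1, a2, s1, s2, b, rfl, lk⟩ := lf
  have q0 := al.q0
  have t1 := bd.bef (by omega) a1 (Or.inl (by simp))
  have t2 := bd.bef (by omega) a2 (Or.inl (by simp))
  have t3 := bd.aft (by omega) b (Or.inl (by simp))
  refine ⟨by omega, by omega, by omega, fun z => ?_, fun z => ?_⟩
  · have := bd.two al (a := Q) (b := k) (g := j - k) (a' := i + 1) (b' := Q) Qk (by omega)
      (a2.fl (by omega)) (fun t h1 h2 => b t h1 (by omega)) (by omega) (by omega) (by omega)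
      (by omega)
    omega
  · have := bd.two al (a' := k + 1) (b' := n) (g' := i - k) (by omega) (by omega) a1
      (b.fl (by omega)) (by omega) (by omega) (by omega) (by omega)
    omega

/-- the mirror leaf in `StL2` -/
theorem Lm.mbd (h : Lm W n Q L) (al : AL W n Q) {s' e' i2 j2 k2 l2 p3 q3 i3 j3 k3 s3 e3 s4 e4 : ℤ}
    (lf : Leaf W n Q i j k l p q s e) (ps : Pts n Q s e s' e')
    (jk : (j2 = p ∧ k2 = q) ∨ (j2 = q ∧ k2 = p)) (h1 : s ≤ i2) (h2 : i2 ≤ j2)
    (c : Par W (i2 + 1) (i2 + 1 + l2) (k2 - i2))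
    (pq : (p3 = i2 + 1 + l2 ∧ q3 = k2 + 1 + l2 - e + s') ∨
      (p3 = k2 + 1 + l2 ∧ q3 = i2 + 1 + l2 - e + s'))
    (h3 : s ≤ p3) (h4 : p3 < e) (h5 : s' ≤ q3) (h6 : q3 < e')
    (o : (j3 = p3 ∧ k3 = q3 ∧ s3 = s ∧ e3 = e ∧ s4 = s' ∧ e4 = e') ∨
      (j3 = q3 ∧ k3 = p3 ∧ s3 = s' ∧ e3 = e' ∧ s4 = s ∧ e4 = e))
    (h7 : s3 ≤ i3) (h8 : i3 ≤ j3) (n3 : Nd W j3 i3 k3) (u1 : Ant W s3 i3 (i3 + j3))
    (d1 : Par W (i3 + 1) e3 (k3 - i3)) (d2 : Par W (k3 + 1) e4 (i3 - k3)) :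
    Bd W n L j3 i3 k3 ∧ L + l2 + 3 ≤ n ∧ L + e3 - i3 + 2 ≤ n ∧ L + e4 - k3 + 2 ≤ n ∧
      (s3 = s → L + k3 - s4 + e3 - i3 + 2 ≤ n) ∧ (s3 = s' → L + j3 - s3 + e4 - k3 + 2 ≤ n) := by
  obtain ⟨i0, ij, jQ, Qk, kn, -, -, -, -, -, -, rfl, lk⟩ := lf
  have q0 := al.q0
  have qn := al.qn
  have ps' := ps
  unfold Pts at ps'
  have l0 : 0 ≤ l2 := by omega
  have c' : Par W (q3 - l2) q3 (p3 - q3) := by
    rcases pq with ⟨y1, y2⟩ | ⟨y1, y2⟩ <;> rcases ps' with z | z
    · exact c.fl (by omega)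
    · exact (c.fl ⟨le_rfl, le_rfl, rfl⟩).sh al 1 1 (by omega)
    · exact c.sh al 0 0 (by omega)
    · exact c.sh al 1 1 (by omega)
  have c2 : Par W s' q3 (p3 - q3) := fun t k1 k2 => c' t (by omega) k2
  have bd : Bd W n L j3 i3 k3 := by
    refine h.bd j3 i3 k3 s3 e3 s4 e4 (by unfold Pts; omega) h7 (by omega) (by omega) (by omega)
      (by omega) (by omega) n3 ?_ (Or.inl u1) (Or.inl d1)
    rcases o with ⟨rfl, rfl, rfl, rfl, rfl, rfl⟩ | ⟨rfl, rfl, rfl, rfl, rfl, rfl⟩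
    exacts [Or.inr c2, Or.inl c2]
  have t1 := bd.bef (by omega) c' (by
    rcases o with ⟨rfl, rfl, -⟩ | ⟨rfl, rfl, -⟩ <;> simp)
  have t2 := bd.aft (by omega) d1 (Or.inl (by simp))
  have t3 := bd.aft (by omega) d2 (Or.inr (by simp))
  refine ⟨bd, by omega, by omega, by omega, fun z => ?_, fun z => ?_⟩
  · have := bd.two al h5 (by omega) c2 d1 (by omega) (by omega) (by omega) (by omega)
    omega
  · have := bd.two al h5 (by omega) c2 d2 (by omega) (by omega) (by omega) (by omega)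
    omega

end Pool.Agent.MP_a38735_al.WL
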