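import Pool.Agent.MP_a38735_al.StA

set_option autoImplicit false

namespace Pool.Agent.MP_a38735_al.WL

open Finset

variable {α : Type*} {W : ℤ → α} {n : ℤ} {a l d : Fin 3 → ℤ} {S : Finset ((_ : Fin 3) × ℤ)}

/-- a cycle of junction edges of three bands -/
def Cy3 (n : ℤ) (a d : Fin 3 → ℤ) (S : Finset ((_ : Fin 3) × ℤ)) (c : (_ : Fin 3) × ℤ → ℚ) : Prop :=
  (∀ e, c e ≠ 0 → e ∈ S) ∧ ∀ f : ℤ → ℚ, (∀ t, f (t + n) = f t) →
    ∑ e ∈ S, c e * (f (a e.1 + e.2) - f (a e.1 + e.2 + d e.1)) = 0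

/-- the windows of `u` letters before and `v` letters after the edges lie in the bands -/
def Vl (l : Fin 3 → ℤ) (c : (_ : Fin 3) × ℤ → ℚ) (u v : ℤ) : Prop :=
  ∀ e, c e ≠ 0 → u ≤ e.2 ∧ e.2 + v ≤ l e.1

theorem eqw (hp : ∀ σ t, a σ ≤ t → t < a σ + l σ → W (t + d σ) = W t) (e : (_ : Fin 3) × ℤ)
    (s : ℤ) (h1 : 0 ≤ e.2 + s) (h2 : e.2 + s < l e.1) :
    W (a e.1 + e.2 + d e.1 + s) = W (a e.1 + e.2 + s) := by
  rw [← hp e.1 (a e.1 + e.2 + s) (by omega) (by omega)]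
  congr 1; ring

theorem exR3 (per : ∀ t, W (t + n) = W t)
    (hp : ∀ σ t, a σ ≤ t → t < a σ + l σ → W (t + d σ) = W t) {ρ ζ : Fin 3}
    (hσ : 0 ≠ ρ ∧ ∀ σ, σ = 0 ∨ σ = ρ ∨ σ = ζ)
    (hR : Dif (W (a 0 + l 0)) (W (a 0 + l 0 + d 0)) (W (a ρ + l ρ)) (W (a ρ + l ρ + d ρ)))
    {c : (_ : Fin 3) × ℤ → ℚ} {u v : ℤ} (hu : 0 ≤ u) (hv : 0 ≤ v) (hc : Cy3 n a d S c)
    (h : Vl l c u v) (h2 : c ⟨ζ, l ζ - v⟩ = 0) : Vl l c u (v + 1) := by
  have lt : ∀ e, c e ≠ 0 → e ≠ ⟨e.1, l e.1 - v⟩ → e.2 + v < l e.1 := by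
    rintro ⟨σ, t⟩ c0 ne
    have := (h _ c0).2
    refine lt_of_le_of_ne this fun z => ne ?_
    simp only at z ⊢
    rw [← z]; simp
  have := two_zero (A := fun e => a e.1 + e.2) (B := fun e => a e.1 + e.2 + d e.1) per hc.1 hc.2 v
    (e1 := ⟨0, l 0 - v⟩) (e2 := ⟨ρ, l ρ - v⟩) (fun z => hσ.1 (congrArg Sigma.fst z))
    (fun e c0 n1 n2 => eqw hp e v (by have := (h e c0).1; omega) (lt e c0 (by
      obtain ⟨σ, t⟩ := e
      rcases hσ.2 σ with rfl | rfl | rfl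
      · exact n1
      · exact n2
      · intro z; exact c0 (z ▸ h2))))
    (by convert hR using 2 <;> ring)
  intro e c0
  refine ⟨(h e c0).1, ?_⟩
  suffices e.2 + v < l e.1 by omega
  refine lt e c0 fun z => c0 ?_
  obtain ⟨σ, t⟩ := e
  rw [z]
  rcases hσ.2 σ with rfl | rfl | rfl
  exacts [this.1, this.2, h2]

theorem exL3 (per : ∀ t, W (t + n) = W t)
    (hp : ∀ σ t, a σ ≤ t → t < a σ + l σ → W (t + d σ) = W t) {ρ ζ : Fin 3}
    (hσ : 0 ≠ ρ ∧ ∀ σ, σ = 0 ∨ σ = ρ ∨ σ = ζ)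
    (hL : Dif (W (a 0 - 1)) (W (a 0 - 1 + d 0)) (W (a ρ - 1)) (W (a ρ - 1 + d ρ)))
    {c : (_ : Fin 3) × ℤ → ℚ} {u v : ℤ} (hu : 0 ≤ u) (hv : 0 ≤ v) (hc : Cy3 n a d S c)
    (h : Vl l c u v) (h2 : c ⟨ζ, u⟩ = 0) : Vl l c (u + 1) v := by
  have lt : ∀ e, c e ≠ 0 → e ≠ ⟨e.1, u⟩ → u < e.2 := by
    rintro ⟨σ, t⟩ c0 ne
    refine lt_of_le_of_ne (h _ c0).1 fun z => ne ?_
    simp only at z ⊢
    rw [z]
  have := two_zero (A := fun e => a e.1 + e.2) (B := fun e => a e.1 + e.2 + d e.1) per hc.1 hc.2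
    (-u - 1) (e1 := ⟨0, u⟩) (e2 := ⟨ρ, u⟩) (fun z => hσ.1 (congrArg Sigma.fst z))
    (fun e c0 n1 n2 => eqw hp e _ (by
      have := lt e c0 (by
        obtain ⟨σ, t⟩ := e
        rcases hσ.2 σ with rfl | rfl | rfl
        · exact n1
        · exact n2
        · intro z; exact c0 (z ▸ h2))
      omega) (by have := (h e c0).2; omega))
    (by convert hL using 2 <;> ring)
  intro e c0
  refine ⟨lt e c0 fun z => c0 ?_, (h e c0).2⟩
  obtain ⟨σ, t⟩ := e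
  rw [z]
  rcases hσ.2 σ with rfl | rfl | rfl
  exacts [this.1, this.2, h2]

/-- if every cycle on one window word extends, there is no cycle -/
theorem core3 (per : ∀ t, W (t + n) = W t) (hl : ∀ σ, 0 ≤ l σ)
    (hp : ∀ σ t, a σ ≤ t → t < a σ + l σ → W (t + d σ) = W t) (τ : ℤ)
    (st : ∀ c u v, 0 ≤ u → 0 ≤ v → τ < u + v → Cy3 n a d S c → Vl l c u v →
      (∀ e e', c e ≠ 0 → c e' ≠ 0 → ∀ s, -u ≤ s → s < v →
        W (a e.1 + e.2 + s) = W (a e'.1 + e'.2 + s)) → Vl l c (u + 1) v ∨ Vl l c u (v + 1))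
    (K : ℕ) : ∀ c u v, 0 ≤ u → 0 ≤ v → τ < u + v → l 0 + l 1 + l 2 < u + v + K →
      Cy3 n a d S c → Vl l c u v → ∀ e, c e = 0 := by
  classical
  induction K with
  | zero =>
    intro c u v _ _ _ hK _ h e
    by_contra c0
    have := h e c0
    have h0 := hl 0; have h1 := hl 1; have h2 := hl 2
    obtain ⟨σ, t⟩ := e
    fin_cases σ <;> simp at this hK <;> omega
  | succ K ih =>
    intro c u v hu hv huv hK hc h e0
    by_contra c0
    let Y : ℤ → Prop := fun t => ∀ s, -u ≤ s → s < v → W (t + s) = W (a e0.1 + e0.2 + s)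
    let c' : (_ : Fin 3) × ℤ → ℚ := fun e => if Y (a e.1 + e.2) then c e else 0
    have sub : ∀ e, c' e ≠ 0 → c e ≠ 0 ∧ Y (a e.1 + e.2) := fun e he => by
      by_cases y : Y (a e.1 + e.2)
      · exact ⟨by simpa [c', y] using he, y⟩
      · simp [c', y] at he
    have v' : Vl l c' u v := fun e he => h e (sub e he).1
    have cy : Cy3 n a d S c' := by
      refine ⟨fun e he => hc.1 e (sub e he).1, fun f hf => ?_⟩
      rw [← hc.2 (fun t => if Y t then f t else 0) fun t => by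
        simp only [Y, add_right_comm t n, per, hf]]
      refine sum_congr rfl fun e _ => ?_
      by_cases ce : c e = 0
      · simp [c', ce]
      · have : Y (a e.1 + e.2 + d e.1) ↔ Y (a e.1 + e.2) := forall₃_congr fun s h1 h2 => by
          rw [eqw hp e s (by have := (h e ce).1; omega) (by have := (h e ce).2; omega)]
        simp only [c', this]
        split_ifs <;> simp
    have n0 : c' e0 ≠ 0 := by
      have : Y (a e0.1 + e0.2) := fun _ _ _ => rfl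
      simpa [c', this] using c0
    push_cast at hK
    rcases st c' u v hu hv huv cy v' fun e e' h1 h2 s s1 s2 =>
      ((sub _ h1).2 s s1 s2).trans ((sub _ h2).2 s s1 s2).symm with z | z
    · exact n0 (ih c' (u + 1) v (by omega) hv (by omega) (by omega) cy z e0)
    · exact n0 (ih c' u (v + 1) hu (by omega) (by omega) (by omega) cy z e0)

theorem ex3 (hn : 0 < n) (a d x y : Fin 3 → ℤ)
    (h : n ≤ (y 0 - x 0) + (y 1 - x 1) + (y 2 - x 2)) :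
    ∃ S c, Cy3 n a d S c ∧ (∃ e, c e ≠ 0) ∧ ∀ e, c e ≠ 0 → x e.1 ≤ e.2 ∧ e.2 < y e.1 := by
  classical
  obtain ⟨c, he, hS, hc⟩ := ex_cyc (univ.sigma fun σ : Fin 3 => Ico (x σ) (y σ))
    (fun e => a e.1 + e.2) (fun e => a e.1 + e.2 + d e.1) n hn (by
      simp only [card_sigma, Fin.sum_univ_three, Int.card_Ico]
      push_cast
      omega)
  exact ⟨_, c, ⟨hS, hc⟩, he, fun e he => by simpa using hS e he⟩

/-- an end of the third band is a beginning of the second -/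
theorem mix3 (hn : 0 < n) (per : ∀ t, W (t + n) = W t) (hl : ∀ σ, 0 ≤ l σ)
    (hp : ∀ σ t, a σ ≤ t → t < a σ + l σ → W (t + d σ) = W t)
    (hR : Dif (W (a 0 + l 0)) (W (a 0 + l 0 + d 0)) (W (a 1 + l 1)) (W (a 1 + l 1 + d 1)))
    (hL : Dif (W (a 0 - 1)) (W (a 0 - 1 + d 0)) (W (a 2 - 1)) (W (a 2 - 1 + d 2)))
    (h : n < l 0 + l 1 + l 2 + 3) : ∃ m, l 0 + l 1 + l 2 + 3 - n ≤ m ∧ m ≤ l 1 ∧ m ≤ l 2 ∧
      ∀ s, 0 ≤ s → s < m → W (a 2 + l 2 - m + s) = W (a 1 + s) := by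
  by_contra con
  obtain ⟨τ, hτ⟩ := Int.eq_ofNat_of_zero_le (by omega : 0 ≤ l 0 + l 1 + l 2 + 2 - n)
  obtain ⟨S, c, hc, ⟨e, he⟩, mem⟩ := ex3 hn a d ![0, 0, 0] ![l 0 + 1, l 1 + 1, l 2 - τ]
    (by simp; omega)
  have s1 : (0 : Fin 3) ≠ 1 ∧ ∀ σ : Fin 3, σ = 0 ∨ σ = 1 ∨ σ = 2 := by decide
  have s2 : (0 : Fin 3) ≠ 2 ∧ ∀ σ : Fin 3, σ = 0 ∨ σ = 2 ∨ σ = 1 := by decide
  have k : ∀ v : ℕ, v ≤ τ + 1 → Vl l c 0 v := fun v => by
    induction v with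
    | zero =>
      rintro - ⟨σ, t⟩ c0
      have := mem _ c0
      fin_cases σ <;> simp at this ⊢ <;> omega
    | succ v ih =>
      intro hv
      refine exR3 per hp s1 hR le_rfl (by omega) hc (ih (by omega)) (by_contra fun c0 => ?_)
      have := mem _ c0
      simp at this
      omega
  have h0 := hl 0; have h1 := hl 1; have h2 := hl 2
  refine he (core3 per hl hp τ (fun c u v hu hv huv cy v' w => ?_) (l 0 + l 1 + l 2).toNat c 0 _
    le_rfl (by omega) (by omega) (by omega) hc (k _ le_rfl) e)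
  by_cases r : c ⟨2, l 2 - v⟩ = 0
  · exact Or.inr (exR3 per hp s1 hR hu hv cy v' r)
  by_cases r' : c ⟨1, u⟩ = 0
  · exact Or.inl (exL3 per hp s2 hL hu hv cy v' r')
  have b1 := v' _ r
  have b2 := v' _ r'
  simp only at b1 b2
  refine (con ⟨u + v, by omega, by omega, by omega, fun s h1 h2 => ?_⟩).elim
  convert w _ _ r r' (s - u) (by omega) (by omega) using 2 <;> ring

/-- the second and the third band begin alike -/
theorem ll3 (hn : 0 < n) (per : ∀ t, W (t + n) = W t) (hl : ∀ σ, 0 ≤ l σ)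
    (hp : ∀ σ t, a σ ≤ t → t < a σ + l σ → W (t + d σ) = W t)
    (hL : Dif (W (a 0 - 1)) (W (a 0 - 1 + d 0)) (W (a 1 - 1)) (W (a 1 - 1 + d 1)))
    (hM : Dif (W (a 0 - 1)) (W (a 0 - 1 + d 0)) (W (a 2 - 1)) (W (a 2 - 1 + d 2)))
    (s : ℤ) (s0 : 0 ≤ s) (h : s < l 0 + l 1 + l 2 + 3 - n) : W (a 2 + s) = W (a 1 + s) := by
  by_contra con
  obtain ⟨τ, rfl⟩ := Int.eq_ofNat_of_zero_le s0
  obtain ⟨S, c, hc, ⟨e, he⟩, mem⟩ := ex3 hn a d ![0, 0, τ + 1] ![l 0 + 1, l 1 + 1, l 2 + 1]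
    (by simp; omega)
  have s1 : (0 : Fin 3) ≠ 1 ∧ ∀ σ : Fin 3, σ = 0 ∨ σ = 1 ∨ σ = 2 := by decide
  have s2 : (0 : Fin 3) ≠ 2 ∧ ∀ σ : Fin 3, σ = 0 ∨ σ = 2 ∨ σ = 1 := by decide
  have k : ∀ v : ℕ, v ≤ τ + 1 → Vl l c v 0 := fun v => by
    induction v with
    | zero =>
      rintro - ⟨σ, t⟩ c0
      have := mem _ c0
      fin_cases σ <;> simp at this ⊢ <;> omega
    | succ v ih =>
      intro hv
      refine exL3 per hp s1 hL (by omega) le_rfl hc (ih (by omega)) (by_contra fun c0 => ?_)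
      have := mem _ c0
      simp at this
      omega
  have h0 := hl 0; have h1 := hl 1; have h2 := hl 2
  refine he (core3 per hl hp τ (fun c u v hu hv huv cy v' w => Or.inl ?_) (l 0 + l 1 + l 2).toNat c
    _ 0 (by omega) le_rfl (by omega) (by omega) hc (k _ le_rfl) e)
  by_cases r : c ⟨2, u⟩ = 0
  · exact exL3 per hp s1 hL hu hv cy v' r
  by_cases r' : c ⟨1, u⟩ = 0
  · exact exL3 per hp s2 hM hu hv cy v' r'
  refine (con ?_).elim
  convert w _ _ r r' (τ - u) (by omega) (by omega) using 2 <;> ring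

/-- the second and the third band end alike -/
theorem rr3 (hn : 0 < n) (per : ∀ t, W (t + n) = W t) (hl : ∀ σ, 0 ≤ l σ)
    (hp : ∀ σ t, a σ ≤ t → t < a σ + l σ → W (t + d σ) = W t)
    (hL : Dif (W (a 0 + l 0)) (W (a 0 + l 0 + d 0)) (W (a 1 + l 1)) (W (a 1 + l 1 + d 1)))
    (hM : Dif (W (a 0 + l 0)) (W (a 0 + l 0 + d 0)) (W (a 2 + l 2)) (W (a 2 + l 2 + d 2)))
    (s : ℤ) (s0 : 0 ≤ s) (h : s < l 0 + l 1 + l 2 + 3 - n) :
    W (a 2 + l 2 - 1 - s) = W (a 1 + l 1 - 1 - s) := by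
  by_contra con
  obtain ⟨τ, rfl⟩ := Int.eq_ofNat_of_zero_le s0
  obtain ⟨S, c, hc, ⟨e, he⟩, mem⟩ := ex3 hn a d ![0, 0, 0] ![l 0 + 1, l 1 + 1, l 2 - τ]
    (by simp; omega)
  have s1 : (0 : Fin 3) ≠ 1 ∧ ∀ σ : Fin 3, σ = 0 ∨ σ = 1 ∨ σ = 2 := by decide
  have s2 : (0 : Fin 3) ≠ 2 ∧ ∀ σ : Fin 3, σ = 0 ∨ σ = 2 ∨ σ = 1 := by decide
  have k : ∀ v : ℕ, v ≤ τ + 1 → Vl l c 0 v := fun v => by
    induction v with
    | zero =>
      rintro - ⟨σ, t⟩ c0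
      have := mem _ c0
      fin_cases σ <;> simp at this ⊢ <;> omega
    | succ v ih =>
      intro hv
      refine exR3 per hp s1 hL le_rfl (by omega) hc (ih (by omega)) (by_contra fun c0 => ?_)
      have := mem _ c0
      simp at this
      omega
  have h0 := hl 0; have h1 := hl 1; have h2 := hl 2
  refine he (core3 per hl hp τ (fun c u v hu hv huv cy v' w => Or.inr ?_) (l 0 + l 1 + l 2).toNat c
    0 _ le_rfl (by omega) (by omega) (by omega) hc (k _ le_rfl) e)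
  by_cases r : c ⟨2, l 2 - v⟩ = 0
  · exact exR3 per hp s1 hL hu hv cy v' r
  by_cases r' : c ⟨1, l 1 - v⟩ = 0
  · exact exR3 per hp s2 hM hu hv cy v' r'
  refine (con ?_).elim
  convert w _ _ r r' (v - 1 - τ) (by omega) (by omega) using 2 <;> ring

end Pool.Agent.MP_a38735_al.WL
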