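import Pool.Agent.MP_a38735_al.AP
import Pool.Agent.MP_a38735_al.Lam
import Pool.Agent.MP_a38735_al.TT

set_option autoImplicit false

namespace Pool.Agent.MP_a38735_al.WL

variable {G : Type*} [Group G] {W : ℤ → G} {n Q L j i k j' i' k' : ℤ}

/-- the letters at `b, b + g` are those at `j, k` or those at `j', k'`, in some order -/
def Pr2 (W : ℤ → G) (b g j k j' k' : ℤ) : Prop :=
  ((W b = W j ∧ W (b + g) = W k) ∨ (W b = W k ∧ W (b + g) = W j)) ∨
    ((W b = W j' ∧ W (b + g) = W k') ∨ (W b = W k' ∧ W (b + g) = W j'))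

/-- a longest parallel strip, of length `L`, has no end at two given triangles -/
structure L2 (W : ℤ → G) (n L j i k j' i' k' : ℤ) : Prop where
  l0 : 0 ≤ L
  mx : ∀ a b g, 0 < g → g < n → Par W a b g → b - a ≤ L
  ex : ∃ x d, Par W x (x + L) d ∧
    (∀ b g, Pr2 W b g j k j' k' → Dif (W (x + L)) (W (x + L + d)) (W b) (W (b + g))) ∧
    ∀ b g, Pr2 W b g i k i' k' → Dif (W (x - 1)) (W (x - 1 + d)) (W b) (W (b + g))

theorem L2.cg {n' a b c a' b' c' : ℤ} (h : L2 W n L j i k j' i' k')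
    (e : n = n' ∧ j = a ∧ i = b ∧ k = c ∧ j' = a' ∧ i' = b' ∧ k' = c') :
    L2 W n' L a b c a' b' c' := by
  obtain ⟨rfl, rfl, rfl, rfl, rfl, rfl, rfl⟩ := e; exact h

theorem L2.mx2 (h : L2 W n L j i k j' i' k') {a b g : ℤ} (X : Par W a b g)
    (e : -n < g ∧ g < n ∧ g ≠ 0) : b - a ≤ L := by
  rcases lt_or_gt_of_ne e.2.2 with z | z
  · have := h.mx (a + g) (b + g) (-g) (by omega) (by omega) (X.fl (by omega))
    omega
  · exact h.mx a b g z e.2.1 X

section
variable (h : L2 W n L j i k j' i' k') (al : AL W n Q) {a b g a' b' g' : ℤ} (ab : a ≤ b)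
  (ab' : a' ≤ b') (X : Par W a b g) (Y : Par W a' b' g')
include h al ab ab' X Y

theorem L2.mix (z : Pr2 W b g j k j' k') (z' : Pr2 W (a' - 1) g' i k i' k')
    (e : n < L + (b - a) + (b' - a') + 3) : ∃ m, L + (b - a) + (b' - a') + 3 - n ≤ m ∧
      m ≤ b - a ∧ m ≤ b' - a' ∧ Par W (b' - m) b' (a - b' + m) := by
  obtain ⟨x, d, pa, R, L'⟩ := h.ex
  have := h.l0
  have q0 := al.q0
  have qn := al.qn
  have e1 : ∀ a b : ℤ, a + (b - a) = b := fun a b => by ring
  obtain ⟨m, m1, m2, m3, c⟩ := mix3 (n := n) (a := ![x, a, a']) (l := ![L, b - a, b' - a'])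
    (d := ![d, g, g']) (by omega) al.per (by intro σ; fin_cases σ <;> simp <;> omega)
    (by
      intro σ t h1 h2
      fin_cases σ <;> simp at h1 h2 ⊢
      exacts [pa t h1 h2, X t h1 h2, Y t h1 h2])
    (by simpa only [Matrix.cons_val, e1] using R _ _ z)
    (by simpa only [Matrix.cons_val] using L' _ _ z') (by simpa only [Matrix.cons_val] using e)
  simp only [Matrix.cons_val, e1] at m1 m2 m3 c
  refine ⟨m, m1, m2, m3, fun t h1 h2 => ?_⟩
  have := c (t - b' + m) (by omega) (by omega)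
  convert this.symm using 2 <;> ring

theorem L2.ll (z : Pr2 W (a - 1) g i k i' k') (z' : Pr2 W (a' - 1) g' i k i' k') :
    Par W a (a + (L + (b - a) + (b' - a') + 3 - n)) (a' - a) := by
  obtain ⟨x, d, pa, R, L'⟩ := h.ex
  have := h.l0
  have q0 := al.q0
  have qn := al.qn
  intro t h1 h2
  have := ll3 (n := n) (a := ![x, a, a']) (l := ![L, b - a, b' - a'])
    (d := ![d, g, g']) (by omega) al.per (by intro σ; fin_cases σ <;> simp <;> omega)
    (by
      intro σ t h1 h2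
      fin_cases σ <;> simp at h1 h2 ⊢
      exacts [pa t h1 h2, X t h1 h2, Y t h1 h2])
    (by simpa only [Matrix.cons_val] using L' _ _ z)
    (by simpa only [Matrix.cons_val] using L' _ _ z') (t - a) (by omega)
    (by simp only [Matrix.cons_val]; omega)
  simp only [Matrix.cons_val] at this
  convert this using 2 <;> ring

theorem L2.rr (z : Pr2 W b g j k j' k') (z' : Pr2 W b' g' j k j' k') :
    Par W (b - (L + (b - a) + (b' - a') + 3 - n)) b (b' - b) := by
  obtain ⟨x, d, pa, R, L'⟩ := h.ex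
  have := h.l0
  have q0 := al.q0
  have qn := al.qn
  have e1 : ∀ a b : ℤ, a + (b - a) = b := fun a b => by ring
  intro t h1 h2
  have := rr3 (n := n) (a := ![x, a, a']) (l := ![L, b - a, b' - a'])
    (d := ![d, g, g']) (by omega) al.per (by intro σ; fin_cases σ <;> simp <;> omega)
    (by
      intro σ t h1 h2
      fin_cases σ <;> simp at h1 h2 ⊢
      exacts [pa t h1 h2, X t h1 h2, Y t h1 h2])
    (by simpa only [Matrix.cons_val, e1] using R _ _ z)
    (by simpa only [Matrix.cons_val, e1] using R _ _ z') (b - 1 - t) (by omega)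
    (by simp only [Matrix.cons_val]; omega)
  simp only [Matrix.cons_val, e1] at this
  convert this using 2 <;> ring

end

theorem L2.bef (h : L2 W n L j i k j' i' k') (al : AL W n Q) (a b g : ℤ)
    (e : a ≤ b ∧ n ≤ L + (b - a) + 2) (X : Par W a b g) (z : Pr2 W b g j k j' k') : False := by
  obtain ⟨m, m1, -, m3, -⟩ := h.mix al (a' := i + 1) (b' := i + 1) (g' := k - i) e.1 le_rfl X
    (fun _ _ _ => by omega) z (Or.inl (Or.inl (by simp))) (by omega)
  omega

theorem L2.aft (h : L2 W n L j i k j' i' k') (al : AL W n Q) (a b g : ℤ)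
    (e : a ≤ b ∧ n ≤ L + (b - a) + 2) (X : Par W a b g) (z : Pr2 W (a - 1) g i k i' k') :
    False := by
  obtain ⟨m, m1, m2, -, -⟩ := h.mix al (a := j) (b := j) (g := k - j) le_rfl e.1
    (fun _ _ _ => by omega) X (Or.inl (Or.inl (by simp))) z (by omega)
  omega

theorem L2.two (h : L2 W n L j i k j' i' k') (al : AL W n Q) (u v a b g a' b' g' : ℤ)
    (e : a ≤ b ∧ a' ≤ b' ∧ n ≤ L + (b - a) + (b' - a') + 2 ∧
      ((a = u * n ∧ b' = v * n) ∨ (a = Q + u * n ∧ b' = Q + v * n)))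
    (X : Par W a b g) (Y : Par W a' b' g') (z : Pr2 W b g j k j' k')
    (z' : Pr2 W (a' - 1) g' i k i' k') : False := by
  obtain ⟨e1, e2, e3, e4⟩ := e
  have l0 := h.l0
  have bn : b - a < n := by
    by_contra c
    exact h.bef al a b g (by omega) X z
  obtain ⟨m, m1, m2, m3, c⟩ := h.mix al e1 e2 X Y z z' (by omega)
  rcases e4 with ⟨rfl, rfl⟩ | ⟨rfl, rfl⟩
  · refine al.ubP m (by omega) (by omega) fun t h1 h2 => ?_
    rw [← per_mul al.per v t, ← c (t + v * n) (by omega) (by omega), ← per_mul al.per u (t + m)]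
    congr 1; ring
  · refine al.ubQ m (by omega) (by omega) fun t h1 h2 => ?_
    rw [← per_mul al.per v t, ← c (t + v * n) (by omega) (by omega), ← per_mul al.per u (t + m)]
    congr 1; ring

/-- an odd triangle with three marked strips -/
structure Mk3 (W : ℤ → G) (n Q j i k : ℤ) : Prop where
  ex : ∃ s e s' e', Pts n Q s e s' e' ∧ (s ≤ i ∧ i < e ∧ s ≤ j ∧ j < e ∧ s' ≤ k ∧ k < e') ∧
    (Par W s j (k - j) ∨ Par W s' k (j - k)) ∧ (Ant W s i (i + j) ∨ Ant W (j + 1) e (i + j)) ∧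
    (Par W (i + 1) e (k - i) ∨ Par W (k + 1) e' (i - k))
  nd : Nd W j i k

theorem Sk.cyc {r : ℤ → ℤ} (h : Sk W r n Q) (al : AL W n Q) (m : Mk3 W n Q j i k) :
    (r j < r k ∧ r i < r (j + 1) ∧ r (k + 1) < r (i + 1)) ∨
      (r k < r j ∧ r (j + 1) < r i ∧ r (i + 1) < r (k + 1)) := by
  obtain ⟨⟨s, e, s', e', ps, ⟨i0, i1, j0, j1, k0, k1⟩, A, S, B⟩, nd⟩ := m
  have q0 := al.q0
  have qn := al.qn
  have p1 := nd.p1
  have rn : r n = r 0 := by simpa using h.rper 0
  have lo : ∀ t u, (u = 0 ∨ u = n) → ((t - u ≠ 0 ∧ -n < t - u ∧ t - u < n) ∨ (t - u) % 2 = 1) →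
      r u < r t := fun t u z k => by
    refine lt_of_le_of_ne ?_ (h.ne al.ev k).symm
    rcases z with rfl | rfl
    exacts [h.mn _, rn ▸ h.mn _]
  have hi : ∀ t, ((t - Q ≠ 0 ∧ -n < t - Q ∧ t - Q < n) ∨ (t - Q) % 2 = 1) → r t < r Q :=
    fun t k => (h.mx _).lt_of_ne (h.ne al.ev k)
  have ev := al.ev
  have e1 : ∀ a b : ℤ, a + (b - a) = b := fun a b => by ring
  have e2 : ∀ a b : ℤ, a + 1 + (b - a) = b + 1 := fun a b => by ring
  have e3 : i + j - i + 1 = j + 1 := by ring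
  have e4 : i + j - (j + 1) + 1 = i := by ring
  rcases ps with ⟨rfl, rfl, rfl, rfl⟩ | ⟨rfl, rfl, rfl, rfl⟩
  · refine Or.inl ⟨?_, ?_, ?_⟩
    · rcases A with A | A
      · exact e1 j k ▸ (h.prun A j0).1.1 (lo _ _ (Or.inl rfl) (by omega))
      · exact e1 k j ▸ (h.prun A k0).2.1 (hi _ (by omega))
    · rcases S with S | S
      · exact e3 ▸ (h.arun S i0).1.1 (lo _ _ (Or.inl rfl) (by omega))
      · exact e4 ▸ (h.arun S (by omega)).2.2 (hi _ (by omega))
    · rcases B with B | B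
      · exact e2 i k ▸ (h.prun B (by omega)).2.2 (hi _ (by omega))
      · exact e2 k i ▸ (h.prun B (by omega)).1.2 (lo _ _ (Or.inr rfl) (by omega))
  · refine Or.inr ⟨?_, ?_, ?_⟩
    · rcases A with A | A
      · exact e1 j k ▸ (h.prun A j0).2.1 (hi _ (by omega))
      · exact e1 k j ▸ (h.prun A k0).1.1 (lo _ _ (Or.inl rfl) (by omega))
    · rcases S with S | S
      · exact e3 ▸ (h.arun S i0).2.1 (hi _ (by omega))
      · exact e4 ▸ (h.arun S (by omega)).1.2 (lo _ _ (Or.inr rfl) (by omega))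
    · rcases B with B | B
      · exact e2 i k ▸ (h.prun B (by omega)).1.2 (lo _ _ (Or.inr rfl) (by omega))
      · exact e2 k i ▸ (h.prun B (by omega)).2.2 (hi _ (by omega))

theorem dif_of {α : Type*} {a b x y u v : α} (n : a ≠ b) (m : x ≠ y) (c : ¬ (x = a ∧ y = b))
    (c' : ¬ (x = b ∧ y = a)) (z : (u = x ∧ v = y) ∨ (u = y ∧ v = x)) : Dif a b u v := by
  rcases z with ⟨rfl, rfl⟩ | ⟨rfl, rfl⟩
  exacts [⟨n, m, c, c'⟩, ⟨n, m.symm, fun z => c' z.symm, fun z => c z.symm⟩]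

theorem AL.l2 (al : AL W n Q) (n2 : 2 < n) (m : Mk3 W n Q j i k) (m' : Mk3 W n Q j' i' k') :
    ∃ L, L2 W n L j i k j' i' k' := by
  obtain ⟨r, h⟩ := al.stk
  obtain ⟨x, d, L, L0, pa, n1, n3, mx, tri⟩ := h.lam n2
  have no := fun j i k (m : Mk3 W n Q j i k) z =>
    (h.cyc al m).elim (tri j i k m.nd.p1 m.nd.p2 m.nd.rel z).1
      (tri j i k m.nd.p1 m.nd.p2 m.nd.rel z).2
  refine ⟨L, L0, mx, x, d, pa, fun b g z => ?_, fun b g z => ?_⟩
  · exact z.elim (dif_of n1 m.nd.yz (fun c => no _ _ _ m (Or.inl c))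
      fun c => no _ _ _ m (Or.inr (Or.inl c))) (dif_of n1 m'.nd.yz
      (fun c => no _ _ _ m' (Or.inl c)) fun c => no _ _ _ m' (Or.inr (Or.inl c)))
  · exact z.elim (dif_of n3 m.nd.xz (fun c => no _ _ _ m (Or.inr (Or.inr (Or.inl c))))
      fun c => no _ _ _ m (Or.inr (Or.inr (Or.inr c)))) (dif_of n3 m'.nd.xz
      (fun c => no _ _ _ m' (Or.inr (Or.inr (Or.inl c))))
      fun c => no _ _ _ m' (Or.inr (Or.inr (Or.inr c))))

end Pool.Agent.MP_a38735_al.WL
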