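import Pool.Agent.MP_a38735_al.Charge

set_option autoImplicit false

namespace Pool.Agent.MP_a38735_al

variable {G : Type*} [Group G] {H : Bool → Subgroup G} {n : ℕ}

/-- one of the two marks lies ahead on the strip -/
def Mk (x : ZMod n → G) (P Q : ZMod n) (a a' : Bool × ZMod n) : Prop := On x P a a' ∨ On x Q a a'

/-- both marks lie ahead on the strip -/
def Cr (x : ZMod n → G) (P Q : ZMod n) (a a' : Bool × ZMod n) : Prop := On x P a a' ∧ On x Q a a'

theorem Mk.symm {x : ZMod n → G} {P Q : ZMod n} {a a' : Bool × ZMod n} (h : Mk x P Q a a') :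
    Mk x P Q a' a := h.imp On.symm On.symm

theorem Cr.symm {x : ZMod n → G} {P Q : ZMod n} {a a' : Bool × ZMod n} (h : Cr x P Q a a') :
    Cr x P Q a' a := h.imp On.symm On.symm

/-- the antiparallel strip around the letters `j, …, i` is marked and no mark separates `j`
from `i` -/
structure An (x : ZMod n → G) (P Q i j : ZMod n) : Prop where
  mk' ::
  on : Mk x P Q (true, i) (false, j)
  lP : (j - P).val ≤ (i - P).val
  lQ : (j - Q).val ≤ (i - Q).val

/-- a triangle `x i * x j = x k` whose antiparallel end is charged -/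
structure Tri (H : Bool → Subgroup G) (x : ZMod n → G) (P Q i j k : ZMod n) : Prop where
  f1 : fac H (x i) = fac H (x j)
  f2 : fac H (x j) = fac H (x k)
  rel : x i * x j = x k
  an : An x P Q i j

/-- `(i, k)` are the letters after a parallel strip that is reached by a chain -/
inductive Rch (H : Bool → Subgroup G) (x : ZMod n → G) (P Q : ZMod n) : ZMod n → ZMod n → Prop
  | base {i k : ZMod n} : Cr x P Q (false, i) (false, k) → Rch H x P Q i k
  | symm {i k : ZMod n} : Rch H x P Q i k → Rch H x P Q k i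
  | step {i j k : ZMod n} {L : ℕ} : Rch H x P Q i k → Tri H x P Q i j k →
      Wh H x (true, j) (true, k) L → Mk x P Q (true, j) (true, k) →
      Rch H x P Q (j + (L + 1 : ℕ)) (k + (L + 1 : ℕ))

theorem Wh.uniq {x : ZMod n → G} {b b' : Bool × ZMod n} {L L' : ℕ} (h : Wh H x b b' L)
    (h' : Wh H x b b' L') : L = L' := le_antisymm (h'.le h.mt) (h.le h'.mt)

theorem gap_or [NeZero n] {x : ZMod n → G} (hc : Cy H x) {i j : ZMod n} {L : ℕ}
    (w : Wh H x (true, i) (false, j) L) (Q : ZMod n) : (j - Q).val ≤ (i - Q).val ∨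
      (i + (L + 1 : ℕ) - Q).val ≤ (j - (L + 1 : ℕ) - Q).val := by
  rw [or_iff_not_imp_left]
  intro c
  have l1 := ZMod.val_lt (j - Q)
  have hd := fun s s' => (mt_tf.1 w.mt).disj hc (fac_tf hc.hf w.f) (s := s) (s' := s')
  obtain ⟨d, hd'⟩ : ∃ d, (j - Q).val = (i - Q).val + 1 + d := ⟨(j - Q).val - (i - Q).val - 1, by omega⟩
  have e : j = i + 1 + d := by
    have := congrArg (Nat.cast : ℕ → ZMod n) hd'
    simp only [ZMod.natCast_val, ZMod.cast_id', id_eq, Nat.cast_add, Nat.cast_one] at this
    linear_combination this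
  have big : 2 * L < d := by
    by_contra c'
    refine hd (min d L) (d - min d L) (by omega) (by omega) ?_
    rw [Nat.cast_sub (by omega), e]; ring
  have e1 : i + (L + 1 : ℕ) - Q = (((i - Q).val + (L + 1) : ℕ) : ZMod n) := by simp; ring
  have e2 : j - (L + 1 : ℕ) - Q = (((j - Q).val - (L + 1) : ℕ) : ZMod n) := by
    rw [Nat.cast_sub (by omega)]; simp; ring
  rw [e1, e2, ZMod.val_cast_of_lt (by omega), ZMod.val_cast_of_lt (by omega)]
  omega

theorem an_of [NeZero n] {x : ZMod n → G} (hc : Cy H x) {P Q i j : ZMod n} {L : ℕ}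
    (w : Wh H x (true, i) (false, j) L) (o : Mk x P Q (true, i) (false, j)) :
    An x P Q i j ∨ An x P Q (j - (L + 1 : ℕ)) (i + (L + 1 : ℕ)) := by
  have f : fac H (x i) = fac H (x j) := by simpa [cl, fac_inv] using w.f
  have w' := w.symm.rev hc
  have rv : ∀ {R}, On x R (true, i) (false, j) →
      On x R (true, j - (L + 1 : ℕ)) (false, i + (L + 1 : ℕ)) := fun o => by
    simpa [cn_iter, ci] using w.symm.on_rev o.symm
  have f' : fac H (x (j - (L + 1 : ℕ))) = fac H (x (i + (L + 1 : ℕ))) := by
    simpa [cn_iter, ci, cl, fac_inv] using w'.f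
  rcases o with o | o
  · exact (gap_or hc w Q).imp (fun c => ⟨Or.inl o, on_le hc f o, c⟩)
      fun c => ⟨Or.inl (rv o), on_le hc f' (rv o), c⟩
  · exact (gap_or hc w P).imp (fun c => ⟨Or.inr o, c, on_le hc f o⟩)
      fun c => ⟨Or.inr (rv o), c, on_le hc f' (rv o)⟩

/-- the chain rule: two unbordered marks and no chain -/
theorem chain_fr [NeZero n] (hF : FP H) {x : ZMod n → G} (hc : Cy H x) {P Q : ZMod n}
    (uP : Unb x P) (uQ : Unb x Q)
    (no : ∀ i j k, Rch H x P Q i k → Tri H x P Q i j k → ¬ Cr x P Q (true, j) (true, k)) :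
    Fr H x := by
  let Fw : ZMod n → ZMod n → Prop := fun j k => Mk x P Q (true, j) (true, k) ∧
    (Cr x P Q (true, j) (true, k) ∨ ∀ L, Wh H x (true, j) (true, k) L →
      ¬ Rch H x P Q (j + (L + 1 : ℕ)) (k + (L + 1 : ℕ)))
  have Fs : ∀ {j k}, Fw j k → Fw k j := fun h =>
    ⟨h.1.symm, h.2.imp Cr.symm fun c L w r => c L w.symm r.symm⟩
  let Chg : Bool × ZMod n → Bool × ZMod n → Prop := fun a a' =>
    match a, a' with
    | (true, i), (false, j) => An x P Q i j
    | (false, j), (true, i) => An x P Q i j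
    | (false, i), (false, k) => Rch H x P Q i k
    | (true, j), (true, k) => Fw j k
  have one : ∀ i, x i ≠ 1 := fun i => (hc.hL i).1
  have par : ∀ p q L, Wh H x (true, p) (true, q) L → Mk x P Q (true, p) (true, q) →
      Fw p q ∨ Rch H x P Q (q + (L + 1 : ℕ)) (p + (L + 1 : ℕ)) := by
    intro p q L w o
    rw [or_iff_not_imp_right]
    exact fun c => ⟨o, Or.inr fun L' w' r => c (w'.uniq w ▸ r.symm)⟩
  have tri : ∀ i j k, Tri H x P Q i j k → Fw j k → Rch H x P Q i k → False := by
    intro i j k t f r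
    refine f.2.elim (no i j k r t) fun c => ?_
    have ne : x j ≠ x k := fun e => one i (by simpa [← e] using t.rel)
    obtain ⟨L, h1, h2⟩ := ex_len hc (a := (true, j)) (a' := (true, k)) t.f2
      (fun e => ne (congrArg (fun c => x c.2) e))
    exact c L ⟨t.f2, ne, h1, h2⟩ (r.step t ⟨t.f2, ne, h1, h2⟩ f.1)
  have inj : ∀ {i j : ZMod n}, (i - P).val = (j - P).val → i = j := fun h =>
    sub_left_inj.1 (ZMod.val_injective n h)
  refine charge hF hc uP uQ Chg ?_ ?_ ?_
  · rintro ⟨b, p⟩ ⟨b', q⟩ L w o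
    cases b <;> cases b'
    · have w' := w.symm.rev hc
      have o' : Mk x P Q _ _ := (Mk.symm o).imp w.symm.on_rev w.symm.on_rev
      simp only [cn_iter, ci, Bool.false_eq_true, if_false, Bool.not_false] at w' o' ⊢
      have := par _ _ L w' o'
      simp only [sub_add_cancel] at this
      exact this.symm
    · have := an_of hc w.symm (Mk.symm o)
      simpa [cn_iter, ci, Chg] using this
    · have := an_of hc w o
      simpa [cn_iter, ci, Chg] using this
    · simpa [cn_iter, ci, Chg] using par _ _ L w o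
  · rintro ⟨b, p⟩ ⟨b', q⟩ L w o o'
    cases b <;> cases b'
    · exact Rch.base ⟨o, o'⟩
    · have f : fac H (x q) = fac H (x p) := by simpa [cl, fac_inv] using w.f.symm
      exact ⟨Or.inl o.symm, on_le hc f o.symm, on_le hc f o'.symm⟩
    · have f : fac H (x p) = fac H (x q) := by simpa [cl, fac_inv] using w.f
      exact ⟨Or.inl o, on_le hc f o, on_le hc f o'⟩
    · exact ⟨Or.inl o, Or.inl ⟨o, o'⟩⟩
  · have pos : ∀ i j k, fac H (x i) = fac H (x j) → fac H (x j) = fac H (x k) →
        x i * x j = x k → An x P Q i j → Fw j k → Rch H x P Q i k → False :=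
      fun i j k f1 f2 h a => tri i j k ⟨f1, f2, h, a⟩
    rintro ⟨b, i⟩ ⟨b', j⟩ ⟨b'', k⟩ f1 f2 h c1 c2 c3
    cases b <;> cases b' <;> cases b'' <;>
      simp only [cl, if_true, Bool.false_eq_true, if_false, fac_inv] at f1 f2 h
    · have l1 := An.lP (i := j) (j := i) c1
      have l2 := An.lP (i := k) (j := j) c2
      have l3 := An.lP (i := i) (j := k) c3
      obtain rfl : j = i := inj (by omega)
      obtain rfl : j = k := inj (by omega)
      apply hc.h3 j
      rw [← inv_eq_one, ← h]; group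
    · exact pos j i k f1.symm (f1.trans f2) (by
        rw [← mul_inv_rev, inv_mul_eq_one] at h; exact h) c1 (Fs c3) c2
    · exact pos i k j (f1.trans f2) f2.symm (by
        rw [mul_assoc, inv_mul_eq_one, eq_mul_inv_iff_mul_eq] at h; exact h) c3 (Fs c2) c1
    · exact pos j k i f2 (f1.trans f2).symm (by
        rw [mul_assoc, inv_mul_eq_one] at h; exact h.symm) c2 c3 (Rch.symm c1)
    · exact pos k j i f2.symm f1.symm (by
        rw [mul_assoc, ← mul_inv_rev, mul_inv_eq_one] at h; exact h.symm) c2 (Fs c1) c3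
    · exact pos k i j (f1.trans f2).symm f1 (by
        rw [mul_eq_one_comm, ← mul_assoc, mul_inv_eq_one] at h; exact h) c3 c1 (Rch.symm c2)
    · exact pos i j k f1 f2 (mul_inv_eq_one.1 h) c1 c2 (Rch.symm c3)
    · have l1 := An.lP (i := i) (j := j) c1
      have l2 := An.lP (i := j) (j := k) c2
      have l3 := An.lP (i := k) (j := i) c3
      obtain rfl : j = i := inj (by omega)
      obtain rfl : j = k := inj (by omega)
      exact hc.h3 j h

end Pool.Agent.MP_a38735_al
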