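import Pool.Agent.MP_a38735_al.HH

set_option autoImplicit false

namespace Pool.Agent.MP_a38735_al

variable {G : Type*} [Group G] {H : Bool → Subgroup G} {n : ℕ}

/-- the rule in which every strip splits its marks in the ratio `lam : 1 - lam` -/
theorem hh_share [NeZero n] (hF : FP H) {x : ZMod n → G} (hc : Cy H x) (mk : Fin 4 → ZMod n)
    (hU : ∀ t, Unb x (mk t)) (lam : Bool × ZMod n → Bool × ZMod n → ℚ)
    (l1 : ∀ a a', lam a a' ≤ 1)
    (lf : ∀ a a', cl x (cn a) = cl x (cn a') → lam (cn a) (cn a') = lam a a')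
    (lr : ∀ a a', lam (ci (cn a')) (ci (cn a)) = 1 - lam a a')
    (le : ∀ a a', fac H (cl x a) = fac H (cl x a') → a ≠ a' → lam a a' * cnt x mk a a' ≤ 2)
    (hT : ∀ c d e, fac H (cl x c) = fac H (cl x d) → fac H (cl x d) = fac H (cl x e) →
      d ≠ ci c → e ≠ ci d → c ≠ ci e → cl x c * cl x d * cl x e = 1 →
      lam c (ci d) * cnt x mk c (ci d) + lam d (ci e) * cnt x mk d (ci e) +
        lam e (ci c) * cnt x mk e (ci c) ≤ 4) : Fr H x := by
  classical
  let φ : Bool × ZMod n → Bool × ZMod n → ℚ := fun a a' => (lam a a' * cnt x mk a a' -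
    (1 - lam a a') * if cl x a = cl x a' then cnt x mk (ci a) (ci a') else 0) / 2
  have φle : ∀ a a', φ a a' ≤ lam a a' * cnt x mk a a' / 2 := by
    intro a a'
    have := mul_nonneg (sub_nonneg.2 (l1 a a')) (cnt_nonneg x mk (ci a) (ci a'))
    simp only [φ]
    split_ifs <;> linarith
  have csym : ∀ a a', cnt x mk a a' = cnt x mk a' a := fun a a' =>
    Finset.sum_congr rfl fun t _ => ind_symm _ _ _ _
  let μ : ZMod n → ℚ := fun j => ∑ t, if mk t = j then 1 / 2 else 0
  have crec : ∀ a a', fac H (cl x a) = fac H (cl x a') → a ≠ a' → cnt x mk a a' =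
      2 * μ (jn a) + 2 * μ (jn a') +
        (if cl x (cn a) = cl x (cn a') then cnt x mk (cn a) (cn a') else 0) := by
    intro a a' hp hne
    simp only [cnt, μ, Finset.mul_sum, ← Finset.sum_add_distrib]
    rw [Finset.sum_congr rfl fun t _ => ind_rec hc (hU t) hp hne]
    split_ifs
    · rw [← Finset.sum_add_distrib]
      refine Finset.sum_congr rfl fun t _ => ?_
      split_ifs <;> norm_num
    · rw [add_zero]
      refine Finset.sum_congr rfl fun t _ => ?_
      split_ifs <;> norm_num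
  refine cyc_phi hF x hc.hL hc.hf μ ?_ φ ?_ ?_ ?_ ?_
  · simp only [μ]
    rw [Finset.sum_comm]
    simp
    norm_num
  · intro a a' hp hne
    have h1 := crec a a' hp hne
    have h2 := crec (ci (cn a')) (ci (cn a))
      (by simpa [fac_inv] using (fac_cn_eq hc.hf hp).symm) (fun e => hne (cn_inj (ci_inj e)).symm)
    simp only [jn_ci_cn, cn_ci_cn, cl_ci, inv_inj] at h2
    simp only [φ, ci_ci, cl_ci, inv_inj, lr]
    rw [h2, csym (ci a'), csym (cn a'), h1]
    simp only [eq_comm (a := cl x a'), eq_comm (a := cl x (cn a'))]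
    ring_nf
    rfl
  · intro a a' hp hne
    linarith [φle a a', le a a' hp hne]
  · intro a a' _ h
    have e : ∀ c : Bool × ZMod n, cn (ci (cn (ci c))) = c := fun c => by simp
    have := lr (ci (cn (ci a))) (ci (cn (ci a')))
    have z := lf (ci (cn (ci a))) (ci (cn (ci a'))) (by rw [e, e, h])
    rw [e, e] at z
    rw [← z, e, e] at this
    simp only [φ, ci_ci, cl_ci, h, if_true, this]
    rw [csym (ci a'), csym a']
    ring_nf
    rfl
  · intro c d e h1 h2 h3 h4 h5 h6
    linarith [φle c (ci d), φle d (ci e), φle e (ci c), hT c d e h1 h2 h3 h4 h5 h6]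

theorem ci_iter (c : Bool × ZMod n) {s t : ℕ} (h : s ≤ t) :
    cn^[s] (ci (cn^[t] c)) = ci (cn^[t - s] c) := by
  obtain ⟨b, i⟩ := c
  simp only [cn_iter, ci, Nat.cast_sub h]
  cases b <;> simp <;> ring

theorem Mt.rev {x : ZMod n → G} {a a' : Bool × ZMod n} {L : ℕ} (h : Mt x a a' L) :
    Mt x (ci (cn^[L + 1] a)) (ci (cn^[L + 1] a')) L := by
  intro s hs
  rw [ci_iter _ (by omega), ci_iter _ (by omega), cl_ci, cl_ci,
    show L + 1 - (s + 1) = (L - 1 - s) + 1 by omega, h _ (by omega)]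

theorem Mt.add {x : ZMod n → G} {a a' : Bool × ZMod n} {s t : ℕ} (h : Mt x a a' s)
    (h' : Mt x (cn^[s] a) (cn^[s] a') t) : Mt x a a' (t + s) := by
  intro r hr
  rcases Nat.lt_or_ge r s with c | c
  · exact h r c
  · have := h' (r - s) (by omega)
    rwa [← Function.iterate_add_apply, ← Function.iterate_add_apply,
      show r - s + 1 + s = r + 1 by omega] at this

/-- a whole strip of length `L` starting at the end `(b, b')` -/
structure Wh (H : Bool → Subgroup G) (x : ZMod n → G) (b b' : Bool × ZMod n) (L : ℕ) : Prop where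
  f : fac H (cl x b) = fac H (cl x b')
  ne : cl x b ≠ cl x b'
  mt : Mt x b b' L
  ne' : cl x (cn^[L + 1] b) ≠ cl x (cn^[L + 1] b')

theorem fac_iter {x : ZMod n → G} (hc : Cy H x) {a a' : Bool × ZMod n}
    (h : fac H (cl x a) = fac H (cl x a')) (s : ℕ) :
    fac H (cl x (cn^[s] a)) = fac H (cl x (cn^[s] a')) := by
  induction s with
  | zero => exact h
  | succ s ih =>
    rw [Function.iterate_succ_apply', Function.iterate_succ_apply']
    exact fac_cn_eq hc.hf ih

theorem Wh.le {x : ZMod n → G} {b b' : Bool × ZMod n} {L s : ℕ} (h : Wh H x b b' L)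
    (hs : Mt x b b' s) : s ≤ L := by
  by_contra c
  exact h.ne' (hs L (by omega))

theorem Wh.symm {x : ZMod n → G} {b b' : Bool × ZMod n} {L : ℕ} (h : Wh H x b b' L) :
    Wh H x b' b L := ⟨h.f.symm, h.ne.symm, h.mt.symm, h.ne'.symm⟩

theorem Wh.rev {x : ZMod n → G} (hc : Cy H x) {b b' : Bool × ZMod n} {L : ℕ}
    (h : Wh H x b b' L) : Wh H x (ci (cn^[L + 1] b)) (ci (cn^[L + 1] b')) L :=
  ⟨by simpa [fac_inv] using fac_iter hc h.f (L + 1), by simpa using h.ne', h.mt.rev,
    by rw [ci_iter _ le_rfl, ci_iter _ le_rfl]; simpa using h.ne⟩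

theorem Wh.on_rev {x : ZMod n → G} {b b' : Bool × ZMod n} {L : ℕ} (h : Wh H x b b' L)
    {P : ZMod n} (o : On x P b b') : On x P (ci (cn^[L + 1] b)) (ci (cn^[L + 1] b')) := by
  obtain ⟨s, h1, h2⟩ := o
  have := h.le h1
  refine ⟨L - s, h.mt.rev.mono (by omega), ?_⟩
  rw [ci_iter _ (by omega), ci_iter _ (by omega), show L + 1 - (L - s) = s + 1 by omega,
    Function.iterate_succ_apply', Function.iterate_succ_apply', jn_ci_cn, jn_ci_cn]
  exact h2

theorem ex_len [NeZero n] {x : ZMod n → G} (hc : Cy H x) {a a' : Bool × ZMod n}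
    (hp : fac H (cl x a) = fac H (cl x a')) (hne : a ≠ a') :
    ∃ L, Mt x a a' L ∧ cl x (cn^[L + 1] a) ≠ cl x (cn^[L + 1] a') := by
  classical
  have ex : ∃ L, cl x (cn^[L + 1] a) ≠ cl x (cn^[L + 1] a') := by
    by_contra c
    push Not at c
    exact absurd (Mt.lt hc (t := n) (fun s _ => c s) hp hne) (lt_irrefl n)
  exact ⟨Nat.find ex, fun s hs => by simpa using Nat.find_min ex hs, Nat.find_spec ex⟩

theorem ex_wh [NeZero n] {x : ZMod n → G} (hc : Cy H x) {a a' : Bool × ZMod n}
    (hp : fac H (cl x a) = fac H (cl x a')) (hne : a ≠ a') :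
    ∃ b b' L s, Wh H x b b' L ∧ s ≤ L ∧ cn^[s] b = a ∧ cn^[s] b' = a' := by
  obtain ⟨L, h1, h2⟩ := ex_len hc hp hne
  have f : fac H (cl x (ci (cn a))) = fac H (cl x (ci (cn a'))) := by
    simpa [fac_inv] using fac_cn_eq hc.hf hp
  obtain ⟨s, h3, h4⟩ := ex_len hc f (fun e => hne (cn_inj (ci_inj e)))
  have e : ∀ c : Bool × ZMod n, cn^[s] (ci (cn^[s + 1] (ci (cn c)))) = c := fun c => by
    rw [ci_iter _ (by omega)]; simp
  refine ⟨ci (cn^[s + 1] (ci (cn a))), ci (cn^[s + 1] (ci (cn a'))), L + s, s,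
    ⟨by simpa [fac_inv] using fac_iter hc f (s + 1), by simpa using h4,
      h3.rev.add (by rwa [e, e]), ?_⟩, by omega, e a, e a'⟩
  rwa [show L + s + 1 = L + 1 + s by omega, Function.iterate_add_apply,
    Function.iterate_add_apply cn (L + 1), e, e]

/-- two unit marks, every strip end is charged or not -/
theorem charge [NeZero n] (hF : FP H) {x : ZMod n → G} (hc : Cy H x) {P Q : ZMod n}
    (uP : Unb x P) (uQ : Unb x Q) (Chg : Bool × ZMod n → Bool × ZMod n → Prop)
    (h1 : ∀ b b' L, Wh H x b b' L → On x P b b' ∨ On x Q b b' →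
      Chg b b' ∨ Chg (ci (cn^[L + 1] b')) (ci (cn^[L + 1] b)))
    (h2 : ∀ b b' L, Wh H x b b' L → On x P b b' → On x Q b b' → Chg b b')
    (h3 : ∀ c d e, fac H (cl x c) = fac H (cl x d) → fac H (cl x d) = fac H (cl x e) →
      cl x c * cl x d * cl x e = 1 → Chg c (ci d) → Chg d (ci e) → Chg e (ci c) → False) :
    Fr H x := by
  classical
  let Ch : Bool × ZMod n → Bool × ZMod n → Prop := fun a a' =>
    ∃ b b' s, cl x b ≠ cl x b' ∧ Mt x b b' s ∧ cn^[s] b = a ∧ cn^[s] b' = a' ∧ Chg b b'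
  have chf : ∀ a a', cl x (cn a) = cl x (cn a') → (Ch (cn a) (cn a') ↔ Ch a a') := by
    intro a a' o
    constructor
    · rintro ⟨b, b', s, c1, c2, c3, c4, c5⟩
      cases s with
      | zero => exact (c1 (by rw [show b = cn a from c3, show b' = cn a' from c4, o])).elim
      | succ s =>
        rw [Function.iterate_succ_apply'] at c3 c4
        exact ⟨b, b', s, c1, c2.mono (by omega), cn_inj c3, cn_inj c4, c5⟩
    · rintro ⟨b, b', s, c1, c2, rfl, rfl, c5⟩
      exact ⟨b, b', s + 1, c1, mt_succ'.2 ⟨c2, o⟩, Function.iterate_succ_apply' _ _ _,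
        Function.iterate_succ_apply' _ _ _, c5⟩
  have che : ∀ a a', cl x a ≠ cl x a' → Ch a a' → Chg a a' := by
    rintro _ _ o ⟨b, b', s, c1, c2, rfl, rfl, c5⟩
    cases s with
    | zero => exact c5
    | succ s => exact (o (c2 s (by omega))).elim
  let lam : Bool × ZMod n → Bool × ZMod n → ℚ := fun a a' =>
    (1 + (if Ch a a' then 1 else 0) - if Ch (ci (cn a')) (ci (cn a)) then 1 else 0) / 2
  have key : ∀ a a', fac H (cl x a) = fac H (cl x a') → a ≠ a' →
      lam a a' * cnt x ![P, P, Q, Q] a a' ≤ if Ch a a' then 2 else 0 := by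
    intro a a' hp hne
    obtain ⟨b, b', L, s, w, hs, rfl, rfl⟩ := ex_wh hc hp hne
    have on : ∀ {R}, On x R (cn^[s] b) (cn^[s] b') → On x R b b' := by
      rintro R ⟨t, c1, c2⟩
      exact ⟨t + s, (w.mt.mono hs).add c1, by simpa only [Function.iterate_add_apply] using c2⟩
    have c1 : Chg b b' → Ch (cn^[s] b) (cn^[s] b') := fun c =>
      ⟨b, b', s, w.ne, w.mt.mono hs, rfl, rfl, c⟩
    have e : ∀ c : Bool × ZMod n, cn^[L - s] (ci (cn^[L + 1] c)) = ci (cn (cn^[s] c)) := fun c => by
      rw [ci_iter _ (by omega), show L + 1 - (L - s) = s + 1 by omega, Function.iterate_succ_apply']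
    have c2 : Chg (ci (cn^[L + 1] b')) (ci (cn^[L + 1] b)) →
        Ch (ci (cn (cn^[s] b'))) (ci (cn (cn^[s] b))) := fun c =>
      ⟨_, _, L - s, (w.symm.rev hc).ne, w.mt.symm.rev.mono (by omega), e _, e _, c⟩
    have a1 := fun o => (h1 b b' L w o).imp c1 c2
    have a2 := fun o o' => c2 (h2 _ _ L (w.symm.rev hc) (w.symm.on_rev (On.symm (on o)))
      (w.symm.on_rev (On.symm (on o'))))
    simp only [lam, cnt, Fin.sum_univ_four, ind, Matrix.cons_val]
    by_cases o : On x P (cn^[s] b) (cn^[s] b') <;> by_cases o' : On x Q (cn^[s] b) (cn^[s] b')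
    · simp only [o, o', a2 o o', if_true]; split_ifs <;> norm_num
    · rcases a1 (Or.inl (on o)) with c | c <;> simp only [o, o', c, if_true, if_false] <;>
        split_ifs <;> norm_num
    · rcases a1 (Or.inr (on o')) with c | c <;> simp only [o, o', c, if_true, if_false] <;>
        split_ifs <;> norm_num
    · simp only [o, o', if_false]; split_ifs <;> norm_num
  refine hh_share hF hc ![P, P, Q, Q] (by intro t; fin_cases t <;> assumption) lam ?_ ?_ ?_ ?_ ?_
  · intro a a'; simp only [lam]; split_ifs <;> norm_num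
  · intro a a' o
    have := chf (ci (cn (cn a'))) (ci (cn (cn a))) (by simpa using o.symm)
    simp only [cn_ci_cn] at this
    simp only [lam, chf a a' o, this]
  · intro a a'
    simp only [lam, cn_ci_cn, ci_ci]
    ring
  · intro a a' hp hne
    have := key a a' hp hne
    split_ifs at this <;> linarith
  · intro c d e f1 f2 h4 h5 h6 h
    have k : ∀ c d : Bool × ZMod n, fac H (cl x c) = fac H (cl x d) → d ≠ ci c →
        lam c (ci d) * cnt x ![P, P, Q, Q] c (ci d) ≤ if Ch c (ci d) then 2 else 0 :=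
      fun c d f ne => key _ _ (by rw [cl_ci, fac_inv]; exact f) (fun z => ne (by simp [z]))
    have one : ∀ c : Bool × ZMod n, cl x c ≠ 1 := by
      rintro ⟨b, i⟩; cases b <;> simpa [cl] using (hc.hL i).1
    have nn : ∀ c d e : Bool × ZMod n, cl x c * cl x d * cl x e = 1 → cl x c ≠ cl x (ci d) := by
      intro c d e h z
      rw [z] at h
      exact one e (by simpa using h)
    have r1 : cl x d * cl x e * cl x c = 1 := by
      rw [mul_assoc] at h; exact mul_eq_one_comm.1 h
    have r2 : cl x e * cl x c * cl x d = 1 := by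
      rw [mul_assoc]; exact mul_eq_one_comm.1 h
    have k1 := k c d f1 h4
    have k2 := k d e f2 h5
    have k3 := k e c (f1.trans f2).symm h6
    have := fun a b c' => h3 c d e f1 f2 h (che _ _ (nn _ _ _ h) a) (che _ _ (nn _ _ _ r1) b)
      (che _ _ (nn _ _ _ r2) c')
    split_ifs at k1 k2 k3 with b1 b2 b3
    · exact (this b1 b2 b3).elim
    all_goals linarith

end Pool.Agent.MP_a38735_al
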