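import Pool.Agent.MP_a38735_al.Chain

set_option autoImplicit false

namespace Pool.Agent.MP_a38735_al

variable {G : Type*} [Group G] {H : Bool → Subgroup G} {n : ℕ}

/-- two unit marks; a strip end takes nothing, one half or all of its marks -/
theorem charge3 [NeZero n] (hF : FP H) {x : ZMod n → G} (hc : Cy H x) {P Q : ZMod n}
    (uP : Unb x P) (uQ : Unb x Q) (Tk : Bool × ZMod n → Bool × ZMod n → Prop)
    (h2 : ∀ b b', Cr x P Q b b' → ¬ Tk b b')
    (h3 : ∀ c d e, fac H (cl x c) = fac H (cl x d) → fac H (cl x d) = fac H (cl x e) →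
      cl x c * cl x d * cl x e = 1 → Mk x P Q c (ci d) → Mk x P Q d (ci e) → Mk x P Q e (ci c) →
      Cr x P Q c (ci d) ∨ Tk c (ci d) → Cr x P Q d (ci e) ∨ Tk d (ci e) →
      (∀ L, Wh H x e (ci c) L → Tk (ci (cn^[L + 1] (ci c))) (ci (cn^[L + 1] e)) → Tk e (ci c)) →
      False) : Fr H x := by
  classical
  let Ch : Bool × ZMod n → Bool × ZMod n → Prop := fun a a' =>
    ∃ b b' s, cl x b ≠ cl x b' ∧ Mt x b b' s ∧ cn^[s] b = a ∧ cn^[s] b' = a' ∧ Tk b b'
  have chf : ∀ a a', cl x (cn a) = cl x (cn a') → (Ch (cn a) (cn a') ↔ Ch a a') := by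
    intro a a' o
    constructor
    · rintro ⟨b, b', s, c1, c2, c3, c4, c5⟩
      cases s with
      | zero => exact (c1 (by rw [show b = cn a from c3, show b' = cn a' from c4, o])).elim
      | succ s =>
        rw [Function.iterate_succ_apply'] at c3 c4
        exact ⟨b, b', s, c1, c2.mono (by omega), cn_inj c3, cn_inj c4, c5⟩
    · rintro ⟨b, b', s, c1, c2, rfl, rfl, c5⟩
      exact ⟨b, b', s + 1, c1, mt_succ'.2 ⟨c2, o⟩, Function.iterate_succ_apply' _ _ _,
        Function.iterate_succ_apply' _ _ _, c5⟩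
  have che : ∀ a a', cl x a ≠ cl x a' → Ch a a' → Tk a a' := by
    rintro _ _ o ⟨b, b', s, c1, c2, rfl, rfl, c5⟩
    cases s with
    | zero => exact c5
    | succ s => exact (o (c2 s (by omega))).elim
  have ncr : ∀ a a', On x P a a' → On x Q a a' → ¬ Ch a a' := by
    rintro _ _ o o' ⟨b, b', s, c1, c2, rfl, rfl, c5⟩
    have on : ∀ {R}, On x R (cn^[s] b) (cn^[s] b') → On x R b b' := by
      rintro R ⟨t, c1, c3⟩
      exact ⟨t + s, c2.add c1, by simpa only [Function.iterate_add_apply] using c3⟩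
    exact h2 b b' ⟨on o, on o'⟩ c5
  let lam : Bool × ZMod n → Bool × ZMod n → ℚ := fun a a' =>
    (1 + (if Ch a a' then 1 else 0) - if Ch (ci (cn a')) (ci (cn a)) then 1 else 0) / 2
  have key : ∀ a a', lam a a' * cnt x ![P, P, Q, Q] a a' ≤ 2 ∧
      (1 < lam a a' * cnt x ![P, P, Q, Q] a a' → Cr x P Q a a' ∨ Ch a a') ∧
      (0 < lam a a' * cnt x ![P, P, Q, Q] a a' → Mk x P Q a a' ∧
        (Ch (ci (cn a')) (ci (cn a)) → Ch a a')) := by
    intro a a'
    have := ncr a a'
    simp only [lam, cnt, Fin.sum_univ_four, ind, Matrix.cons_val, Cr, Mk]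
    by_cases o : On x P a a' <;> by_cases o' : On x Q a a' <;> by_cases c : Ch a a' <;>
      by_cases c' : Ch (ci (cn a')) (ci (cn a)) <;>
      first
        | exact absurd c (this o o')
        | (simp only [o, o', c, c', if_true, if_false]; norm_num)
  refine hh_share hF hc ![P, P, Q, Q] (by intro t; fin_cases t <;> assumption) lam ?_ ?_ ?_ ?_ ?_
  · intro a a'; simp only [lam]; split_ifs <;> norm_num
  · intro a a' o
    have := chf (ci (cn (cn a'))) (ci (cn (cn a))) (by simpa using o.symm)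
    simp only [cn_ci_cn] at this
    simp only [lam, chf a a' o, this]
  · intro a a'
    simp only [lam, cn_ci_cn, ci_ci]
    ring
  · exact fun a a' _ _ => (key a a').1
  · have one : ∀ c : Bool × ZMod n, cl x c ≠ 1 := by
      rintro ⟨b, i⟩; cases b <;> simpa [cl] using (hc.hL i).1
    have nn : ∀ c d e : Bool × ZMod n, cl x c * cl x d * cl x e = 1 → cl x c ≠ cl x (ci d) := by
      intro c d e h z
      rw [z] at h
      exact one e (by simpa using h)
    have rot : ∀ {c d e : Bool × ZMod n}, cl x c * cl x d * cl x e = 1 →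
        cl x d * cl x e * cl x c = 1 := fun h => by
      rw [mul_assoc] at h; exact mul_eq_one_comm.1 h
    have tri : ∀ c d e, fac H (cl x c) = fac H (cl x d) → fac H (cl x d) = fac H (cl x e) →
        cl x c * cl x d * cl x e = 1 → 1 < lam c (ci d) * cnt x ![P, P, Q, Q] c (ci d) →
        1 < lam d (ci e) * cnt x ![P, P, Q, Q] d (ci e) →
        0 < lam e (ci c) * cnt x ![P, P, Q, Q] e (ci c) → False := by
      intro c d e f1 f2 h k1 k2 k3
      refine h3 c d e f1 f2 h ((key _ _).2.2 (by linarith)).1 ((key _ _).2.2 (by linarith)).1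
        ((key _ _).2.2 k3).1 (((key _ _).2.1 k1).imp_right (che _ _ (nn _ _ _ h)))
        (((key _ _).2.1 k2).imp_right (che _ _ (nn _ _ _ (rot h)))) fun L w t =>
          che _ _ w.ne (((key _ _).2.2 k3).2 ?_)
      have e' : ∀ c : Bool × ZMod n, cn^[L] (ci (cn^[L + 1] c)) = ci (cn c) := fun c => by
        rw [ci_iter _ (by omega), show L + 1 - L = 1 by omega]; rfl
      exact ⟨_, _, L, (w.symm.rev hc).ne, w.mt.symm.rev, e' _, e' _, t⟩
    intro c d e f1 f2 _ _ _ h
    have k1 := (key c (ci d)).1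
    have k2 := (key d (ci e)).1
    have k3 := (key e (ci c)).1
    have t1 := tri c d e f1 f2 h
    have t2 := tri d e c f2 (f1.trans f2).symm (rot h)
    have t3 := tri e c d (f1.trans f2).symm f1 (rot (rot h))
    generalize lam c (ci d) * cnt x ![P, P, Q, Q] c (ci d) = u at *
    generalize lam d (ci e) * cnt x ![P, P, Q, Q] d (ci e) = v at *
    generalize lam e (ci c) * cnt x ![P, P, Q, Q] e (ci c) = w at *
    by_contra z
    by_cases a1 : 1 < u
    · by_cases a2 : 1 < v
      · exact t1 a1 a2 (by linarith)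
      · exact t3 (by linarith) a1 (by linarith)
    · exact t2 (by linarith) (by linarith) (by linarith)

end Pool.Agent.MP_a38735_al
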