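import Pool.Agent.MP_a38735_al.Strip

set_option autoImplicit false

namespace Pool.Agent.MP_a38735_al

open List

variable {G : Type*} [Group G] {H : Bool → Subgroup G}

section abstr
variable {Ω : Type*}

theorem wd_add (nxt : Ω → Ω) (lab : Ω → G) (a b : ℕ) (c : Ω) :
    wd nxt lab (a + b) c = wd nxt lab a c * wd nxt lab b (nxt^[a] c) := by
  induction a generalizing c with
  | zero => simp [wd]
  | succ a ih => rw [Nat.add_right_comm, wd, wd, ih, mul_assoc]; rfl

theorem wd_mul (nxt : Ω → Ω) (lab : Ω → G) (n m : ℕ) (c : Ω) (h : nxt^[n] c = c) :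
    wd nxt lab (n * m) c = wd nxt lab n c ^ m := by
  induction m with
  | zero => simp [wd]
  | succ m ih => rw [Nat.mul_succ, Nat.add_comm, wd_add, h, ih, pow_succ']

theorem ms_add (nxt : Ω → Ω) (mk : Ω → ℚ) (a b : ℕ) (c : Ω) :
    ms nxt mk (a + b) c = ms nxt mk a c + ms nxt mk b (nxt^[a] c) := by
  induction a generalizing c with
  | zero => simp [ms]
  | succ a ih => rw [Nat.add_right_comm, ms, ms, ih, add_assoc]; rfl

theorem ms_mul (nxt : Ω → Ω) (mk : Ω → ℚ) (n m : ℕ) (c : Ω) (h : nxt^[n] c = c) :
    ms nxt mk (n * m) c = m * ms nxt mk n c := by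
  induction m with
  | zero => simp [ms]
  | succ m ih => rw [Nat.mul_succ, Nat.add_comm, ms_add, h, ih]; push_cast; ring

theorem ms_ge (nxt prv : Ω → Ω) (col : Ω → ℚ) (h : ∀ c, prv (nxt c) = c) (t : ℕ) (c : Ω) :
    |col (prv (nxt^[t] c)) - col (prv c)| ≤ ms nxt (fun c => |col c - col (prv c)|) t c := by
  induction t generalizing c with
  | zero => simp [ms]
  | succ t ih =>
    have := ih (nxt c)
    rw [h] at this
    rw [ms, Function.iterate_succ_apply]
    have := abs_sub_le (col (prv (nxt^[t] (nxt c)))) (col c) (col (prv c))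
    linarith

theorem wd_inv (nxt inv : Ω → Ω) (lab : Ω → G) (h1 : ∀ c, nxt (inv (nxt c)) = inv c)
    (h2 : ∀ c, lab (inv c) = (lab c)⁻¹) (n : ℕ) (c : Ω) :
    wd nxt lab n (inv (nxt^[n] c)) * wd nxt lab n (nxt c) = 1 := by
  induction n with
  | zero => simp [wd]
  | succ n ih =>
    rw [wd_succ' nxt lab n (nxt c), wd, h2, Function.iterate_succ_apply', h1,
      ← Function.iterate_succ_apply, Function.iterate_succ_apply']
    rw [mul_assoc, ← mul_assoc (wd nxt lab n (inv _)), ih]; simp

theorem wd_conj (nxt : Ω → Ω) (lab : Ω → G) (N : ℕ) (per : ∀ c, nxt^[N] c = c) (t : ℕ) (c : Ω) :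
    IsConj (wd nxt lab N c) (wd nxt lab N (nxt^[t] c)) := by
  have h1 := wd_add nxt lab N t c
  have h2 := wd_add nxt lab t N c
  rw [per] at h1
  rw [Nat.add_comm, h1] at h2
  refine isConj_iff.2 ⟨(wd nxt lab t c)⁻¹, ?_⟩
  rw [inv_inv, mul_assoc, h2]; simp

end abstr

variable {n : ℕ} [NeZero n]

/-- next corner -/
def cn (c : Bool × ZMod n) : Bool × ZMod n := (c.1, if c.1 then c.2 + 1 else c.2 - 1)
/-- previous corner -/
def cp (c : Bool × ZMod n) : Bool × ZMod n := (c.1, if c.1 then c.2 - 1 else c.2 + 1)
/-- label of a corner -/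
def cl (x : ZMod n → G) (c : Bool × ZMod n) : G := if c.1 then x c.2 else (x c.2)⁻¹

omit [NeZero n] in
theorem cn_iter (t : ℕ) (b : Bool) (i : ZMod n) :
    cn^[t] (b, i) = (b, if b then i + t else i - t) := by
  induction t with
  | zero => simp
  | succ t ih => rw [Function.iterate_succ_apply', ih]; cases b <;> simp [cn] <;> ring

omit [NeZero n] in
theorem cp_iter (t : ℕ) (b : Bool) (i : ZMod n) :
    cp^[t] (b, i) = (b, if b then i - t else i + t) := by
  induction t with
  | zero => simp
  | succ t ih => rw [Function.iterate_succ_apply', ih]; cases b <;> simp [cp] <;> ring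

/-- two-colouring of the positions -/
def cc (P Q i : ZMod n) : ℚ := if (i - P).val < (Q - P).val then 1 else 0

theorem val_succ (j : ZMod n) : (j + 1).val = j.val + 1 ∨ ((j + 1).val = 0 ∧ j.val + 1 = n) := by
  have h1 := ZMod.val_lt j
  have h2 : (j + 1) = ((j.val + 1 : ℕ) : ZMod n) := by simp
  rw [h2, ZMod.val_natCast]
  by_cases h : j.val + 1 < n
  · left; exact Nat.mod_eq_of_lt h
  · right
    have : j.val + 1 = n := by omega
    rw [this]; simp

theorem cc_down {P Q i : ZMod n} (h : cc P Q (i + 1) < cc P Q i) : i + 1 = Q := by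
  unfold cc at h
  have e : i + 1 - P = (i - P) + 1 := by ring
  rw [e] at h
  have h1 := ZMod.val_lt (Q - P)
  have : (i - P + 1).val = (Q - P).val := by
    rcases val_succ (i - P) with k | k <;> split_ifs at h <;> first | omega | norm_num at h
  have := ZMod.val_injective n this
  linear_combination this

theorem cc_up {P Q i : ZMod n} (h : cc P Q i < cc P Q (i + 1)) : i + 1 = P := by
  unfold cc at h
  have e : i + 1 - P = (i - P) + 1 := by ring
  rw [e] at h
  have : (i - P + 1).val = 0 := by
    rcases val_succ (i - P) with k | k <;> split_ifs at h <;> first | omega | norm_num at h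
  have := (ZMod.val_eq_zero _).1 this
  linear_combination this

/-- parallel matching of `t` letters -/
def PM (x : ZMod n → G) (i k : ZMod n) (t : ℕ) : Prop := ∀ s, s < t → x (i + s) = x (k + s)
/-- antiparallel matching of `t` letters -/
def AM (x : ZMod n → G) (i k : ZMod n) (t : ℕ) : Prop := ∀ s, s < t → x (i + s) * x (k - 1 - s) = 1

omit [NeZero n] in
theorem PM.symm {x : ZMod n → G} {i k : ZMod n} {t : ℕ} (h : PM x i k t) : PM x k i t :=
  fun s hs => (h s hs).symm

omit [NeZero n] in
theorem AM.symm {x : ZMod n → G} {i k : ZMod n} {t : ℕ} (h : AM x i k t) :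
    AM x (k - t) (i + t) t := by
  intro s hs
  have := h (t - 1 - s) (by omega)
  rw [mul_eq_one_comm]
  have e : ((t - 1 - s : ℕ) : ZMod n) = t - 1 - s := by
    rw [Nat.cast_sub (by omega), Nat.cast_sub (by omega)]; simp
  rw [e] at this
  convert this using 3 <;> ring

omit [NeZero n] in
theorem fac_add {x : ZMod n → G} (h : ∀ i, fac H (x (i + 1)) ≠ fac H (x i)) {i k : ZMod n}
    (e : fac H (x i) = fac H (x k)) (t : ℕ) : fac H (x (i + t)) = fac H (x (k + t)) := by
  induction t with
  | zero => simpa using e
  | succ t ih =>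
    push_cast
    rw [← add_assoc, ← add_assoc]
    exact bool_ne_ne (h _) (ih ▸ (h _).symm)

omit [NeZero n] in
theorem fac_add' {x : ZMod n → G} (h : ∀ i, fac H (x (i + 1)) ≠ fac H (x i)) {i k : ZMod n}
    (e : fac H (x i) = fac H (x k)) (t : ℕ) : fac H (x (i + t)) = fac H (x (k - t)) := by
  induction t with
  | zero => simpa using e
  | succ t ih =>
    push_cast
    rw [← add_assoc]
    have := h (k - (t + 1))
    rw [show k - (t + 1) + 1 = k - t by ring] at this
    exact bool_ne_ne (h _) (ih ▸ this)

theorem cyc_freiheit (hF : FP H) (x : ZMod n → G) (hL : ∀ i, IsL H (x i))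
    (hf : ∀ i, fac H (x (i + 1)) ≠ fac H (x i)) (P Q : ZMod n) (hPQ : P ≠ Q)
    (par1 : ∀ k t, k ≠ Q → fac H (x Q) = fac H (x k) → PM x Q k t → Q + t ≠ P ∧ k + t ≠ Q)
    (par2 : ∀ k t, k ≠ P → fac H (x P) = fac H (x k) → PM x P k t → P + t ≠ Q ∧ k + t ≠ P)
    (anti1 : ∀ k t, fac H (x Q) ≠ fac H (x k) → AM x Q k t → Q + t ≠ P ∧ k - t ≠ P)
    (anti2 : ∀ k t, fac H (x P) ≠ fac H (x k) → AM x P k t → P + t ≠ Q)
    (anti3 : ∀ k t, fac H (x Q) ≠ fac H (x k) → AM x k Q t → k + t ≠ P)
    (m : ℕ) (hm : 2 ≤ m) {b : Bool} {a : G} (ha : a ∈ H b)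
    (hn : a ∈ Subgroup.normalClosure ({wd (· + 1) x n 0 ^ m} : Set G)) : a = 1 := by
  have per : ∀ c : Bool × ZMod n, cn^[n] c = c := by
    rintro ⟨b, i⟩; rw [cn_iter]; simp
  have perN : ∀ c : Bool × ZMod n, cn^[n * m] c = c := by
    rintro ⟨b, i⟩; rw [cn_iter]; simp
  have e0 : ∀ t i, wd cn (cl x) t (true, i) = wd (· + 1) x t i := by
    intro t
    induction t with
    | zero => simp [wd]
    | succ t ih => intro i; simp [wd, cl, cn, ih]
  have e1 : wd (· + 1) x n 0 ^ m = wd cn (cl x) (n * m) (true, 0) := by
    rw [wd_mul _ _ _ _ _ (per _), e0]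
  have rinv : ∀ c : Bool × ZMod n, wd cn (cl x) (n * m) (!c.1, c.2) *
      wd cn (cl x) (n * m) (cn c) = 1 := by
    intro c
    have := wd_inv cn (fun c => (!c.1, c.2)) (cl x)
      (by rintro ⟨b, i⟩; cases b <;> simp [cn]) (by rintro ⟨b, i⟩; cases b <;> simp [cl]) (n * m) c
    rwa [perN] at this
  have cpos : ∀ i, IsConj (wd (· + 1) x n 0 ^ m) (wd cn (cl x) (n * m) (true, i)) := by
    intro i
    have := wd_conj cn (cl x) (n * m) perN i.val (true, 0)
    rw [cn_iter] at this
    simpa [e1] using this
  have cneg : ∀ i, IsConj (wd (· + 1) x n 0 ^ m)⁻¹ (wd cn (cl x) (n * m) (false, i)) := by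
    intro i
    have h1 := rinv (true, i)
    have h2 := cpos (i + 1)
    have h3 : wd cn (cl x) (n * m) (false, i) = (wd cn (cl x) (n * m) (true, i + 1))⁻¹ :=
      eq_inv_of_mul_eq_one_left (by simpa [cn] using h1)
    rw [h3]
    obtain ⟨u, hu⟩ := isConj_iff.1 h2
    exact isConj_iff.2 ⟨u, by rw [← hu]; group⟩
  have par : ∀ i k t, i ≠ k → fac H (x i) = fac H (x k) → PM x (i + 1) (k + 1) t →
      (cc P Q (i + 1) < cc P Q i ∨ cc P Q k < cc P Q (k + 1)) →
      cc P Q (i + t + 1) ≤ cc P Q (i + t) ∧ cc P Q (k + t) ≤ cc P Q (k + t + 1) := by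
    intro i k t h1 h2 h3 h4
    have h2' := fac_add hf h2 1
    push_cast at h2'
    by_contra hcon
    rw [not_and_or, not_le, not_le] at hcon
    rcases h4 with h4 | h4
    · have q := cc_down h4
      rw [q] at h2' h3
      have := par1 (k + 1) t (fun e => h1 (by linear_combination q - e)) h2' h3
      rcases hcon with c | c
      · exact this.1 (by linear_combination cc_up c - q)
      · exact this.2 (by linear_combination cc_down c)
    · have q := cc_up h4
      rw [q] at h2' h3
      have := par2 (i + 1) t (fun e => h1 (by linear_combination e - q)) h2'.symm h3.symm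
      rcases hcon with c | c
      · exact this.2 (by linear_combination cc_up c)
      · exact this.1 (by linear_combination cc_down c - q)
  have anti : ∀ i k (t : ℕ), fac H (x i) = fac H (x k) → AM x (i + 1) k t →
      (cc P Q (i + 1) < cc P Q i ∨ cc P Q k < cc P Q (k - 1)) →
      cc P Q (i + t + 1) ≤ cc P Q (i + t) ∧ cc P Q (k - t) ≤ cc P Q (k - t - 1) := by
    intro i k t h2 h3 h4
    have h2' : fac H (x (i + 1)) ≠ fac H (x k) := h2 ▸ hf i
    by_contra hcon
    rw [not_and_or, not_le, not_le] at hcon
    have c2 : cc P Q (k - t - 1) < cc P Q (k - t) → k - t = P := fun c => by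
      have := cc_up (P := P) (Q := Q) (i := k - (t : ZMod n) - 1) (by simpa using c)
      simpa using this
    rcases h4 with h4 | h4
    · have q := cc_down h4
      rw [q] at h2' h3
      have := anti1 k t h2' h3
      rcases hcon with c | c
      · exact this.1 (by linear_combination cc_up c - q)
      · exact this.2 (c2 c)
    · have q : k = Q := by
        have := cc_down (P := P) (Q := Q) (i := k - 1) (by simpa using h4)
        simpa using this
      subst q
      rcases hcon with c | c
      · exact anti3 (i + 1) t h2'.symm h3 (by linear_combination cc_up c)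
      · have h5 := h3.symm
        rw [c2 c] at h5
        refine anti2 (i + 1 + t) t ?_ h5 (by linear_combination -(c2 c))
        have h6 := fac_add' hf h2 t
        rw [c2 c] at h6
        rw [← h6, add_right_comm]
        exact (hf _).symm
  let C : Col H (Bool × ZMod n) (wd (· + 1) x n 0 ^ m) :=
    { nxt := cn, prv := cp, inv := fun c => (!c.1, c.2), lab := cl x, sgn := Prod.fst
      N := n * m, col := fun c => cc P Q c.2
      hN := Nat.mul_pos (NeZero.pos n) (by omega)
      per := perN
      prv_nxt := by rintro ⟨b, i⟩; cases b <;> simp [cn, cp]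
      nxt_prv := by rintro ⟨b, i⟩; cases b <;> simp [cn, cp]
      labL := by
        rintro ⟨b, i⟩; cases b
        · exact (hL i).inv
        · exact hL i
      fac_nxt := by
        rintro ⟨b, i⟩; cases b
        · have := hf (i - 1)
          simp only [sub_add_cancel] at this
          simpa [cn, cl, fac_inv] using this.symm
        · simpa [cn, cl] using hf i
      sgn_nxt := fun c => rfl
      sgn_inv := by rintro ⟨b, i⟩; cases b <;> simp
      R_inv := rinv
      inv_nxt := by
        rintro ⟨b, i⟩ ⟨b', i'⟩ h
        cases b <;> cases b' <;> simp [cn] at h ⊢ <;> linear_combination -h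
      R_conj := by
        rintro ⟨b, i⟩; cases b
        · exact Or.inr (cneg i)
        · exact Or.inl (cpos i)
      ex_pos := ⟨_, cpos 0⟩
      ex_neg := ⟨_, cneg 0⟩
      col0 := by intro c; unfold cc; split_ifs <;> norm_num
      col1 := by intro c; unfold cc; split_ifs <;> norm_num
      face := by
        intro c
        rw [ms_mul _ _ _ _ _ (per c)]
        have hv : 0 < (Q - P).val := by
          rw [ZMod.val_pos]; exact sub_ne_zero.2 hPQ.symm
        have cP : cc P Q P = 1 := by simp [cc, hv]
        have cQ : cc P Q Q = 0 := by simp [cc]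
        obtain ⟨j, hj⟩ : ∃ j, |cc P Q j - cc P Q (cp c).2| = 1 := by
          by_cases h : ((cp c).2 - P).val < (Q - P).val
          · exact ⟨Q, by rw [cQ]; simp [cc, h]⟩
          · exact ⟨P, by rw [cP]; simp [cc, h]⟩
        obtain ⟨t, ht, hj'⟩ : ∃ t, t ≤ n ∧ (cp (cn^[t] c)).2 = j := by
          obtain ⟨b, i⟩ := c
          cases b
          · exact ⟨(i + 1 - j).val, (ZMod.val_lt _).le, by rw [cn_iter]; simp [cp]; ring⟩
          · exact ⟨(j + 1 - i).val, (ZMod.val_lt _).le, by rw [cn_iter]; simp [cp]⟩
        have pn : ∀ c : Bool × ZMod n, cp (cn c) = c := by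
          rintro ⟨b, i⟩; cases b <;> simp [cn, cp]
        have a1 := ms_ge cn cp (fun c => cc P Q c.2) pn t c
        have a2 := ms_ge cn cp (fun c => cc P Q c.2) pn (n - t) (cn^[t] c)
        rw [← Function.iterate_add_apply, Nat.sub_add_cancel ht, per, abs_sub_comm] at a2
        have a3 := ms_add cn (fun c => |cc P Q c.2 - cc P Q (cp c).2|) t (n - t) c
        rw [Nat.add_sub_cancel' ht] at a3
        rw [hj', hj] at a1 a2
        have : (2 : ℚ) ≤ m := by exact_mod_cast hm
        nlinarith
      mono := by
        rintro ⟨b, i⟩ ⟨b', k⟩ t h1 h2 h3 h4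
        simp only [cn_iter, cp_iter] at h3 ⊢
        cases b <;> cases b'
        · simp only [cl, cn, cp, fac_inv, Bool.false_eq_true, if_false] at h1 h3 h4 ⊢
          have h5 : AM x (k + 1) i t := by
            intro s hs
            have := h3 s hs
            rw [← mul_inv_rev, inv_eq_one] at this
            push_cast at this
            convert this using 3 <;> ring
          have h6 := fac_add' hf h1.symm (t + 1)
          have h7 := anti (i - t - 1) (k + 1 + t) t (by push_cast at h6; convert h6.symm using 3 <;> ring)
            (by simpa using h5.symm)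
          push_cast
          by_contra hcon
          rw [not_and_or, not_le, not_le] at hcon
          have := h7 (by
            rcases hcon with c | c
            · left; ring_nf at c ⊢; exact c
            · right; ring_nf at c ⊢; exact c)
          rcases h4 with c | c
          · refine absurd this.1 (not_le.2 ?_); ring_nf at c ⊢; exact c
          · refine absurd this.2 (not_le.2 ?_); ring_nf at c ⊢; exact c
        · simp only [cl, cn, cp, fac_inv, Bool.false_eq_true, if_false, if_true] at h1 h3 h4 ⊢
          have hik : k ≠ i := fun e => h2 (by simp [e])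
          have h5 : PM x (i - t - 1 + 1) (k - t - 1 + 1) t := by
            intro s hs
            have := h3 (t - 1 - s) (by omega)
            rw [inv_mul_eq_one] at this
            have e : ((t - 1 - s + 1 : ℕ) : ZMod n) = t - s := by
              rw [show t - 1 - s + 1 = t - s by omega, Nat.cast_sub (by omega)]
            rw [e] at this
            convert this using 2 <;> ring
          have h6 : fac H (x (i - t - 1)) = fac H (x (k - t - 1)) := by
            by_contra hne
            have h8 : fac H (x (i - t - 1)) = fac H (x (k - t - 1 + 1)) :=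
              bool_ne_ne hne (hf _).symm
            have h9 := fac_add hf h8 (t + 1)
            push_cast at h9
            rw [show i - t - 1 + (t + 1) = i by ring, show k - t - 1 + 1 + (t + 1) = k + 1 by ring,
              h1] at h9
            exact hf k h9.symm
          have h7 := par (i - t - 1) (k - t - 1) t (fun e => hik (by linear_combination -e)) h6 h5
          push_cast
          by_contra hcon
          rw [not_and_or, not_le, not_le] at hcon
          have := h7 (by
            rcases hcon with c | c
            · left; ring_nf at c ⊢; exact c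
            · right; ring_nf at c ⊢; exact c)
          rcases h4 with c | c
          · refine absurd this.1 (not_le.2 ?_); ring_nf at c ⊢; exact c
          · refine absurd this.2 (not_le.2 ?_); ring_nf at c ⊢; exact c
        · simp only [cl, cn, cp, fac_inv, Bool.false_eq_true, if_false, if_true] at h1 h3 h4 ⊢
          have hik : i ≠ k := fun e => h2 (by simp [e])
          have := par i k t hik h1 (by
            intro s hs
            have := h3 s hs
            rw [mul_inv_eq_one] at this
            push_cast at this
            convert this using 2 <;> ring) h4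
          push_cast
          simpa only [add_assoc] using this
        · simp only [cl, cn, cp, if_true] at h1 h3 h4 ⊢
          have := anti i k t h1 (by
            intro s hs
            have := h3 s hs
            push_cast at this
            convert this using 3 <;> ring) h4
          push_cast
          simpa only [add_assoc, sub_sub] using this }
  exact C.freiheit hF ha hn

end Pool.Agent.MP_a38735_al
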