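import Pool.Agent.MP_a38735_al.Gauss

set_option autoImplicit false

namespace Pool.Agent.MP_a38735_al

open List

variable {G : Type*} [Group G] {H : Bool → Subgroup G} {Ω : Type*}

/-- open chains of corners around a vertex -/
inductive Cmp (H : Bool → Subgroup G) (inv : Ω → Ω) (lab : Ω → G) (ψ : Ω → Ω → ℚ) (h : Ω) :
    Ω → ℕ → G → ℚ → Prop
  | one : Cmp H inv lab ψ h h 1 (lab h) 0
  | snoc (l c : Ω) (d : ℕ) (v : G) (J : ℚ) : Cmp H inv lab ψ h l d v J → c ≠ inv l →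
      fac H (lab l) = fac H (lab c) → Cmp H inv lab ψ h c (d + 1) (v * lab c) (J + ψ l c - 2)

/-- A curvature certificate for the relator `ρ`. -/
structure Sy2 (H : Bool → Subgroup G) (Ω : Type*) (ρ : G) where
  nxt : Ω → Ω
  inv : Ω → Ω
  lab : Ω → G
  sgn : Ω → Bool
  N : ℕ
  mark : Ω → ℚ
  ψ : Ω → Ω → ℚ
  hN : 0 < N
  per : ∀ c, nxt^[N] c = c
  labL : ∀ c, IsL H (lab c)
  fac_nxt : ∀ c, fac H (lab (nxt c)) ≠ fac H (lab c)
  sgn_nxt : ∀ c, sgn (nxt c) = sgn c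
  sgn_inv : ∀ c, sgn (inv c) ≠ sgn c
  R_inv : ∀ c, wd nxt lab N (inv c) * wd nxt lab N (nxt c) = 1
  inv_nxt : ∀ c c', nxt c = inv c' → nxt c' = inv c
  R_conj : ∀ c, IsConj ρ (wd nxt lab N c) ∨ IsConj ρ⁻¹ (wd nxt lab N c)
  ex_pos : ∃ c, IsConj ρ (wd nxt lab N c)
  ex_neg : ∃ c, IsConj ρ⁻¹ (wd nxt lab N c)
  face : ∀ c, 4 ≤ ms nxt mark N c
  edge : ∀ c c', fac H (lab c) ≠ fac H (lab c') → nxt c' ≠ inv c → nxt c ≠ inv c' →
    mark (nxt c) + mark (nxt c') ≤ ψ c (nxt c') + ψ c' (nxt c)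
  close : ∀ h l d v J, Cmp H inv lab ψ h l d v J → v = 1 → h ≠ inv l → J + ψ l h ≤ -2
  close' : ∀ h l d v J, Cmp H inv lab ψ h l d v J → h ≠ inv l → J + ψ l h ≤ 2

namespace Sy2

variable {ρ : G} (S : Sy2 H Ω ρ)

/-- the relator read from a corner -/
def R (c : Ω) : G := wd S.nxt S.lab S.N c

theorem R_nxt (c : Ω) : S.R (S.nxt c) = (S.lab c)⁻¹ * S.R c * S.lab c := by
  have h1 := wd_succ' S.nxt S.lab S.N c
  rw [wd, S.per] at h1
  unfold R
  rw [mul_assoc, ← h1]; simp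

/-- open chains -/
abbrev Comp (h l : Ω) (d : ℕ) (v : G) (J : ℚ) : Prop := Cmp H S.inv S.lab S.ψ h l d v J

variable {S}

theorem Comp.props {h l : Ω} {d : ℕ} {v : G} {J : ℚ} (hc : S.Comp h l d v J) :
    fac H (S.lab h) = fac H (S.lab l) ∧ v ∈ H (fac H (S.lab h)) ∧ 1 ≤ d := by
  induction hc with
  | one => exact ⟨rfl, (S.labL _).2, le_rfl⟩
  | snoc l c d v J _ h1 h2 ih =>
    obtain ⟨i1, i2, i3⟩ := ih
    refine ⟨i1.trans h2, mul_mem i2 ?_, by omega⟩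
    rw [i1, h2]; exact (S.labL c).2

theorem Comp.append {h l h' l' : Ω} {d d' : ℕ} {v v' : G} {J J' : ℚ} (hc : S.Comp h l d v J)
    (hc' : S.Comp h' l' d' v' J') (h1 : h' ≠ S.inv l) (h2 : fac H (S.lab l) = fac H (S.lab h')) :
    S.Comp h l' (d + d') (v * v') (J + J' + S.ψ l h' - 2) := by
  induction hc' with
  | one => simpa using Cmp.snoc l h' d v J hc h1 h2
  | snoc l' c d' v' J' _ k1 k2 ih =>
    have := Cmp.snoc l' c _ _ _ ih k1 k2
    convert this using 1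
    · omega
    · rw [mul_assoc]
    · ring

theorem Comp.close {h l : Ω} {d : ℕ} {v : G} {J : ℚ} (hc : S.Comp h l d v J) (hv : v = 1)
    (h1 : h ≠ S.inv l) : J + S.ψ l h ≤ -2 := S.close _ _ _ _ _ hc hv h1

theorem Comp.close' {h l : Ω} {d : ℕ} {v : G} {J : ℚ} (hc : S.Comp h l d v J)
    (h1 : h ≠ S.inv l) : J + S.ψ l h ≤ 2 := S.close' _ _ _ _ _ hc h1

end Sy2

namespace Sy2

variable {ρ : G} (S : Sy2 H Ω ρ)

/-- value of a face -/
def ev (f : List (CL Ω G)) : G := (f.map CL.v).prod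

@[simp] theorem ev_nil : ev ([] : List (CL Ω G)) = 1 := rfl
@[simp] theorem ev_cons (X : CL Ω G) (f : List (CL Ω G)) : ev (X :: f) = X.v * ev f := by
  simp [ev]
@[simp] theorem ev_append (f g : List (CL Ω G)) : ev (f ++ g) = ev f * ev g := by
  simp [ev]

/-- structural validity of a face -/
def Val (f : List (CL Ω G)) : Prop :=
  f ≠ [] ∧ (∀ X ∈ f, ∃ d, S.Comp X.hd X.lst d X.v X.J) ∧ CChain (fun X Y => Y.hd = S.nxt X.lst) f

/-- potential of a face -/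
def Θ (f : List (CL Ω G)) : ℚ := (f.map (fun X => S.mark X.hd + X.J)).sum - 4

/-- signs and positioned relators of the darts of a face -/
def rhos : G → List (CL Ω G) → List (Bool × G)
  | _, [] => []
  | p, X :: f => (S.sgn X.hd, p * S.R X.hd * p⁻¹) :: rhos (p * X.v) f

theorem rhos_append (p : G) (f g : List (CL Ω G)) :
    S.rhos p (f ++ g) = S.rhos p f ++ S.rhos (p * ev f) g := by
  induction f generalizing p with
  | nil => simp [rhos]
  | cons X f ih => simp [rhos, ih, mul_assoc]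

theorem rhos_mul (u p : G) (f : List (CL Ω G)) :
    S.rhos (u * p) f = (S.rhos p f).map (fun x => (x.1, u * x.2 * u⁻¹)) := by
  induction f generalizing p with
  | nil => simp [rhos]
  | cons X f ih => simp [rhos, mul_assoc, ih]

theorem rhos_eq (u : G) (f : List (CL Ω G)) :
    S.rhos u f = (S.rhos 1 f).map (fun x => (x.1, u * x.2 * u⁻¹)) := by
  rw [← S.rhos_mul, mul_one]

/-- algebraic invariant of a face made of `m` original faces -/
def Inv (f : List (CL Ω G)) (m : ℕ) : Prop :=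
  (∀ x ∈ S.rhos 1 f, ∃ j ν, j + 1 = m ∧ NN ρ j ν ∧ ev f = x.2 * ν) ∧
  (S.rhos 1 f).Pairwise (fun x y => x.1 ≠ y.1 → ∃ j ν, j + 2 = m ∧ NN ρ j ν ∧ ev f = y.2 * x.2 * ν)

variable {S}

theorem Inv.rot1 {X : CL Ω G} {f : List (CL Ω G)} {m : ℕ} (h : S.Inv (X :: f) m) :
    S.Inv (f ++ [X]) m := by
  obtain ⟨h1, h2⟩ := h
  simp only [rhos, one_mul, inv_one, mul_one, S.rhos_eq X.v f, mem_cons, mem_map,
    forall_eq_or_imp, pairwise_cons, pairwise_map, ev_cons, forall_exists_index, and_imp,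
    forall_apply_eq_imp_iff₂] at h1 h2
  unfold Inv
  simp only [S.rhos_append, rhos, one_mul, ev_append, ev_cons, ev_nil, mul_one, mem_append,
    mem_singleton, pairwise_append, pairwise_singleton, true_and]
  refine ⟨?_, ?_, ?_⟩
  · rintro x (hx | rfl)
    · obtain ⟨j, ν, e1, e2, e3⟩ := h1.2 x hx
      refine ⟨j, _, e1, e2.conj X.v⁻¹, ?_⟩
      have : ev f = X.v⁻¹ * (X.v * x.2 * X.v⁻¹ * ν) := by rw [← e3]; group
      rw [this]; group
    · obtain ⟨j, ν, e1, e2, e3⟩ := h1.1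
      refine ⟨j, _, e1, e2.conj (ev f), ?_⟩
      have : X.v = S.R X.hd * ν * (ev f)⁻¹ := by rw [← e3]; group
      dsimp only
      rw [this]; group
  · refine h2.2.imp ?_
    intro x y hxy hne
    obtain ⟨j, ν, e1, e2, e3⟩ := hxy hne
    refine ⟨j, _, e1, e2.conj X.v⁻¹, ?_⟩
    have : ev f = X.v⁻¹ * (X.v * y.2 * X.v⁻¹ * (X.v * x.2 * X.v⁻¹) * ν) := by rw [← e3]; group
    rw [this]; group
  · rintro x hx y rfl hne
    obtain ⟨j, ν, e1, e2, e3⟩ := h2.1 x hx (fun e => hne e.symm)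
    refine ⟨j, _, e1, e2.conj (X.v⁻¹ * S.R X.hd), ?_⟩
    have : ev f = X.v⁻¹ * (X.v * x.2 * X.v⁻¹ * S.R X.hd * ν) := by rw [← e3]; group
    dsimp only
    rw [this]; group

theorem Inv.nn {f : List (CL Ω G)} {m : ℕ} (h : S.Inv f m) (hf : f ≠ []) :
    1 ≤ m ∧ NN ρ m (ev f) := by
  obtain ⟨X, f, rfl⟩ := List.exists_cons_of_ne_nil hf
  obtain ⟨j, ν, e1, e2, e3⟩ := h.1 (S.sgn X.hd, S.R X.hd) (by simp [rhos])
  refine ⟨by omega, ?_⟩
  rw [e3, ← e1]
  exact NN.succ _ _ _ e2 (S.R_conj _)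

theorem Inv.append {f g : List (CL Ω G)} {m n : ℕ} (h : S.Inv f m) (h' : S.Inv g n)
    (hf : f ≠ []) (hg : g ≠ []) : S.Inv (f ++ g) (m + n) := by
  have a1 := (h.nn hf).2
  have a2 := (h'.nn hg).2
  obtain ⟨h1, h2⟩ := h
  obtain ⟨h3, h4⟩ := h'
  unfold Inv
  simp only [S.rhos_append, one_mul, ev_append, mem_append, pairwise_append,
    S.rhos_eq (ev f) g, mem_map, pairwise_map]
  refine ⟨?_, ?_, ?_, ?_⟩
  · rintro x (hx | ⟨y, hy, rfl⟩)
    · obtain ⟨j, ν, e1, e2, e3⟩ := h1 x hx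
      exact ⟨j + n, _, by omega, e2.mul a2, by rw [e3, mul_assoc]⟩
    · obtain ⟨j, ν, e1, e2, e3⟩ := h3 y hy
      exact ⟨m + j, _, by omega, a1.mul e2, by rw [e3]; group⟩
  · refine h2.imp ?_
    intro x y hxy hne
    obtain ⟨j, ν, e1, e2, e3⟩ := hxy hne
    exact ⟨j + n, _, by omega, e2.mul a2, by rw [e3]; group⟩
  · refine h4.imp ?_
    intro x y hxy hne
    obtain ⟨j, ν, e1, e2, e3⟩ := hxy hne
    exact ⟨m + j, _, by omega, a1.mul e2, by rw [e3]; group⟩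
  · rintro x hx _ ⟨y, hy, rfl⟩ -
    obtain ⟨j, ν, e1, e2, e3⟩ := h1 x hx
    obtain ⟨j', ν', e1', e2', e3'⟩ := h3 y hy
    refine ⟨j + j', _, by omega, e2.mul e2', ?_⟩
    dsimp only
    rw [e3', e3]; group

theorem Inv.fuse {l1 l2 : List (CL Ω G)} {X Y Z : CL Ω G} {m : ℕ}
    (h : S.Inv (l1 ++ X :: Y :: l2) m) (h1 : Z.hd = X.hd) (h2 : Z.v = X.v * Y.v) :
    S.Inv (l1 ++ Z :: l2) m := by
  have e : ev (l1 ++ Z :: l2) = ev (l1 ++ X :: Y :: l2) := by simp [h2, mul_assoc]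
  have s : S.rhos 1 (l1 ++ Z :: l2) <+ S.rhos 1 (l1 ++ X :: Y :: l2) := by
    simp only [S.rhos_append, rhos, h1, h2, mul_assoc]
    exact Sublist.append_left (Sublist.cons_cons _ (Sublist.cons _ (Sublist.refl _))) _
  unfold Inv
  rw [e]
  exact ⟨fun x hx => h.1 x (s.subset hx), h.2.sublist s⟩

theorem Val.rot1 {X : CL Ω G} {f : List (CL Ω G)} (h : S.Val (X :: f)) : S.Val (f ++ [X]) :=
  ⟨by simp, fun Y hY => h.2.1 Y (by simpa [or_comm] using hY), h.2.2.rot1⟩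

/-- good faces -/
def Good (S : Sy2 H Ω ρ) (t : G) (f : List (CL Ω G)) (m : ℕ) : Prop :=
  S.Val f ∧ S.Inv f m ∧ IsConj (ev f) t

theorem Good.rot {t : G} {f f' : List (CL Ω G)} {m : ℕ} (h : S.Good t f m) (hr : f ~r f') :
    S.Good t f' m := by
  refine isRotated_induction (P := fun f => S.Good t f m) ?_ hr h
  rintro X f ⟨h1, h2, h3⟩
  refine ⟨h1.rot1, h2.rot1, IsConj.trans (isConj_iff.2 ⟨X.v, by simp [mul_assoc]⟩) h3⟩

theorem Θ_perm {f f' : List (CL Ω G)} (h : f.Perm f') : S.Θ f = S.Θ f' := by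
  unfold Θ; rw [(h.map _).sum_eq]

theorem Val.two {f : List (CL Ω G)} (h : S.Val f) : 2 ≤ f.length := by
  obtain ⟨h1, h2, h3⟩ := h
  obtain ⟨X, f, rfl⟩ := List.exists_cons_of_ne_nil h1
  cases f with
  | cons Y f => simp
  | nil =>
    exfalso
    obtain ⟨d, hd⟩ := h2 X (by simp)
    have e := h3.2 X (by simp) X (by simp)
    have := hd.props.1
    rw [e] at this
    exact S.fac_nxt _ this

theorem Val.cr (hF : FP H) {f : List (CL Ω G)} (h : S.Val f) (hv : ∀ X ∈ f, X.v ≠ 1) :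
    CR H (f.map CL.v) := by
  have two := h.two
  obtain ⟨h1, h2, h3, h4⟩ := h
  have key : ∀ X ∈ f, ∀ Y ∈ f, Y.hd = S.nxt X.lst → fac H X.v ≠ fac H Y.v := by
    intro X hX Y hY e
    obtain ⟨d, hd⟩ := h2 X hX
    obtain ⟨d', hd'⟩ := h2 Y hY
    rw [hF.fac_eq hd.props.2.1 (hv X hX), hF.fac_eq hd'.props.2.1 (hv Y hY), hd.props.1, e]
    exact (S.fac_nxt _).symm
  refine ⟨⟨?_, ?_⟩, by simpa using two, ?_⟩
  · intro x hx
    obtain ⟨X, hX, rfl⟩ := mem_map.1 hx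
    obtain ⟨d, hd⟩ := h2 X hX
    exact hF.isL hd.props.2.1 (hv X hX)
  · rw [isChain_map]
    exact h3.imp_of_mem_imp (fun X Y hX hY e => key X hX Y hY e)
  · intro x hx y hy
    rw [getLast?_map] at hx
    rw [head?_map] at hy
    simp only [Option.mem_def, Option.map_eq_some_iff] at hx hy
    obtain ⟨X, hX, rfl⟩ := hx
    obtain ⟨Y, hY, rfl⟩ := hy
    exact key X (mem_of_getLast? hX) Y (mem_of_head? hY) (h4 X hX Y hY)

/-- the original face read from a corner -/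
def initL (S : Sy2 H Ω ρ) : ℕ → Ω → List (CL Ω G)
  | 0, _ => []
  | n + 1, c => ⟨c, c, S.lab c, 0⟩ :: initL S n (S.nxt c)

theorem initL_props (n : ℕ) (c : Ω) :
    ev (S.initL n c) = wd S.nxt S.lab n c ∧ S.Θ (S.initL n c) = ms S.nxt S.mark n c - 4 ∧
    (∀ X ∈ S.initL n c, ∃ d, S.Comp X.hd X.lst d X.v X.J) ∧
    (S.initL n c).IsChain (fun X Y => Y.hd = S.nxt X.lst) ∧
    (∀ X ∈ (S.initL n c).head?, X.hd = c) ∧
    (∀ X ∈ (S.initL n c).getLast?, S.nxt X.lst = S.nxt^[n] c) ∧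
    ∀ p, ∀ x ∈ S.rhos p (S.initL n c), x = (S.sgn c, p * S.R c * p⁻¹) := by
  induction n generalizing c with
  | zero => simp [initL, wd, ms, Θ, rhos]
  | succ n ih =>
    obtain ⟨h1, h2, h3, h4, h5, h6, h7⟩ := ih (S.nxt c)
    refine ⟨by simp [initL, wd, h1], ?_, ?_, ?_, by simp [initL], ?_, ?_⟩
    · unfold Θ at h2 ⊢
      simp only [initL, map_cons, sum_cons, ms]
      linarith
    · intro X hX
      simp only [initL, mem_cons] at hX
      rcases hX with rfl | hX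
      · exact ⟨1, Cmp.one⟩
      · exact h3 X hX
    · rw [initL, isChain_cons]
      exact ⟨h5, h4⟩
    · intro X hX
      cases n with
      | zero =>
        simp only [initL, getLast?_singleton, Option.mem_def, Option.some.injEq] at hX
        subst hX; simp
      | succ n =>
        rw [Function.iterate_succ_apply]
        apply h6
        simpa [initL] using hX
    · intro p x hx
      simp only [initL, rhos, mem_cons] at hx
      rcases hx with rfl | hx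
      · rfl
      · rw [h7 _ x hx, S.sgn_nxt, S.R_nxt]
        congr 1; group

theorem initL_good (c : Ω) {t : G} (ht : IsConj (S.R c) t) :
    S.Good t (S.initL S.N c) 1 ∧ 0 ≤ S.Θ (S.initL S.N c) := by
  obtain ⟨h1, h2, h3, h4, h5, h6, h7⟩ := initL_props (S := S) S.N c
  refine ⟨⟨⟨?_, h3, h4, ?_⟩, ⟨?_, ?_⟩, by rw [h1]; exact ht⟩, by linarith [S.face c]⟩
  · obtain ⟨n, hn⟩ := Nat.exists_eq_succ_of_ne_zero S.hN.ne'
    rw [hn]; simp [initL]
  · intro X hX Y hY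
    rw [h5 Y hY, h6 X hX, S.per]
  · intro x hx
    exact ⟨0, 1, rfl, NN.zero, by rw [h7 1 x hx, h1]; simp [R]⟩
  · rw [pairwise_iff_forall_sublist]
    intro x y hxy hne
    have a := h7 1 x (hxy.subset (by simp))
    have b := h7 1 y (hxy.subset (by simp))
    exact (hne (by rw [a, b])).elim

end Sy2

end Pool.Agent.MP_a38735_al
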