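import Pool.Agent.MP_a38735_al.Uncor

set_option autoImplicit false

namespace Pool.Agent.MP_a38735_al

open List Monoid

variable {A B : Type} [Group A] [Group B]

/-- The word `a₁ b₁ a₂ b₂ ⋯` spelled by the list of pairs `(a₁, b₁), (a₂, b₂), …`, as a list of
letters of the free product. -/
def letters (l : List (A × B)) : List (Coprod A B) :=
  l.flatMap (fun p => [Coprod.inl p.1, Coprod.inr p.2])

@[simp] theorem letters_nil : letters ([] : List (A × B)) = [] := rfl
@[simp] theorem letters_cons (p : A × B) (l : List (A × B)) :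
    letters (p :: l) = Coprod.inl p.1 :: Coprod.inr p.2 :: letters l := by simp [letters]
theorem letters_append (l l' : List (A × B)) : letters (l ++ l') = letters l ++ letters l' := by
  simp [letters]
theorem letters_length (l : List (A × B)) : (letters l).length = 2 * l.length := by
  induction l with
  | nil => rfl
  | cons p l ih => simp [ih]; ring

theorem letters_getD (l : List (A × B)) (j : ℕ) (hj : j < l.length) :
    (letters l).getD (2 * j) 1 = Coprod.inl (l[j]).1 ∧
      (letters l).getD (2 * j + 1) 1 = Coprod.inr (l[j]).2 := by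
  induction l generalizing j with
  | nil => simp at hj
  | cons p l ih =>
    cases j with
    | zero => simp
    | succ j =>
      have := ih j (by simpa using hj)
      simpa [Nat.mul_succ] using this

theorem isL_inl {a : A} (ha : a ≠ 1) :
    IsL (HH A B) (Coprod.inl a) ∧ fac (HH A B) (Coprod.inl a) = true := by
  have h1 : (Coprod.inl a : Coprod A B) ≠ 1 := fun e => ha (Coprod.inl_injective (by simpa using e))
  have h2 : (Coprod.inl a : Coprod A B) ∈ HH A B true := ⟨a, rfl⟩
  exact ⟨fp_coprod.isL h2 h1, fp_coprod.fac_eq h2 h1⟩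

theorem isL_inr {b : B} (hb : b ≠ 1) :
    IsL (HH A B) (Coprod.inr b) ∧ fac (HH A B) (Coprod.inr b) = false := by
  have h1 : (Coprod.inr b : Coprod A B) ≠ 1 := fun e => hb (Coprod.inr_injective (by simpa using e))
  have h2 : (Coprod.inr b : Coprod A B) ∈ HH A B false := ⟨b, rfl⟩
  exact ⟨fp_coprod.isL h2 h1, fp_coprod.fac_eq h2 h1⟩

/-- the cyclic word of a list -/
def cyc {G : Type*} [Group G] (W : List G) (i : ZMod W.length) : G := W.getD i.val 1

theorem seg_cyc {G : Type*} [Group G] (W : List G) [NeZero W.length] (t j : ℕ)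
    (h : j + t ≤ W.length) : seg (cyc W) j t = (W.drop j).take t := by
  induction t generalizing j with
  | zero => simp [seg]
  | succ t ih =>
    have := ih (j + 1) (by omega)
    push_cast at this
    rw [seg, this, drop_eq_getElem_cons (show j < W.length by omega), take_succ_cons]
    congr 1
    unfold cyc
    rw [ZMod.val_natCast, Nat.mod_eq_of_lt (by omega)]
    simp [show j < W.length by omega]

theorem cyc_letters (l : List (A × B)) (hl : ∀ p ∈ l, p.1 ≠ 1 ∧ p.2 ≠ 1)
    [NeZero (letters l).length] (i : ZMod (letters l).length) :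
    (i.val % 2 = 0 ∧ ∃ p ∈ l, cyc (letters l) i = Coprod.inl p.1) ∨
    (i.val % 2 = 1 ∧ ∃ p ∈ l, cyc (letters l) i = Coprod.inr p.2) := by
  have h1 := ZMod.val_lt i
  have h2 := letters_length l
  have h3 := letters_getD l (i.val / 2) (by omega)
  unfold cyc
  rcases Nat.mod_two_eq_zero_or_one i.val with h | h
  · left
    exact ⟨h, _, getElem_mem _, by rw [← h3.1]; congr 1; omega⟩
  · right
    exact ⟨h, _, getElem_mem _, by rw [← h3.2]; congr 1; omega⟩

theorem cyc_fac (l : List (A × B)) (hl : ∀ p ∈ l, p.1 ≠ 1 ∧ p.2 ≠ 1)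
    [NeZero (letters l).length] (i : ZMod (letters l).length) :
    IsL (HH A B) (cyc (letters l) i) ∧
      fac (HH A B) (cyc (letters l) i) = decide (i.val % 2 = 0) := by
  rcases cyc_letters l hl i with ⟨h, p, hp, e⟩ | ⟨h, p, hp, e⟩
  · rw [e]; exact ⟨(isL_inl (hl p hp).1).1, by simp [h, (isL_inl (hl p hp).1).2]⟩
  · rw [e]; exact ⟨(isL_inr (hl p hp).2).1, by simp [h, (isL_inr (hl p hp).2).2]⟩

theorem cyc_alt (l : List (A × B)) (hl : ∀ p ∈ l, p.1 ≠ 1 ∧ p.2 ≠ 1)
    [NeZero (letters l).length] (i : ZMod (letters l).length) :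
    fac (HH A B) (cyc (letters l) (i + 1)) ≠ fac (HH A B) (cyc (letters l) i) := by
  rw [(cyc_fac l hl _).2, (cyc_fac l hl _).2]
  have h2 := letters_length l
  simp only [ne_eq, decide_eq_decide]
  rcases val_succ i with k | k <;> omega

theorem unc_main (u v : List (A × B)) (hu : u ≠ []) (hv : v ≠ [])
    (hl : ∀ p ∈ u ++ v, p.1 ≠ 1 ∧ p.2 ≠ 1)
    (h1 : Unc (letters u) (letters v)) (h2 : Unc (linv (letters u)) (letters v))
    (m : ℕ) (hm : 2 ≤ m) {c : Bool} {g : Coprod A B} (hg : g ∈ HH A B c)
    (hn : g ∈ Subgroup.normalClosure ({(letters (u ++ v)).prod ^ m} : Set (Coprod A B))) :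
    g = 1 := by
  have lu := letters_length u
  have lv := letters_length v
  have pu : 0 < u.length := length_pos_iff.2 hu
  have pv : 0 < v.length := length_pos_iff.2 hv
  have hab : (letters u).length + (letters v).length = (letters (u ++ v)).length := by
    rw [letters_append, length_append]
  haveI : NeZero (letters (u ++ v)).length := ⟨by omega⟩
  have s0 := seg_cyc (letters (u ++ v)) (letters (u ++ v)).length 0 (by omega)
  have s1 := seg_cyc (letters (u ++ v)) (letters u).length 0 (by omega)
  have s2 := seg_cyc (letters (u ++ v)) (letters v).length (letters u).length (by omega)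
  simp only [Nat.cast_zero, drop_zero, take_length] at s0 s1
  have t1 : take (letters u).length (letters (u ++ v)) = letters u := by
    rw [letters_append]; simp
  have t2 : take (letters v).length (drop (letters u).length (letters (u ++ v))) = letters v := by
    rw [letters_append]; simp
  rw [t1] at s1
  rw [t2] at s2
  refine unc_freiheit fp_coprod (cyc (letters (u ++ v))) (fun i => (cyc_fac _ hl i).1)
    (cyc_alt _ hl) hab (by omega) (by omega) ?_ (by rwa [s1, s2]) (by rwa [s1, s2]) m hm hg
    (by rwa [s0])
  rw [(cyc_fac _ hl _).2, (cyc_fac _ hl _).2, ZMod.val_natCast, ZMod.val_zero,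
    Nat.mod_eq_of_lt (show (letters u).length < (letters (u ++ v)).length by omega)]
  simp [lu]

end Pool.Agent.MP_a38735_al
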