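import Pool.Agent.MP_a38735_al.DOrd
import Pool.Agent.MP_a38735_al.Words

set_option autoImplicit false

namespace Pool.Agent.MP_a38735_al

open List Monoid

variable {G : Type*} [Group G] {H : Bool → Subgroup G}

/-- left-orderable groups -/
def LeftOrd (K : Type*) [Group K] : Prop :=
  ∃ r : K → K → Prop, IsStrictTotalOrder K r ∧ ∀ g a b, r a b → r (g * a) (g * b)

/-- sign of a factor -/
noncomputable def dl (H : Bool → Subgroup G) (x : G) : ℤ := if fac H x then 1 else -1

/-- the Dicks-Sunic weight of a word -/
noncomputable def tau (H : Bool → Subgroup G) (sg : G → ℤ) : List G → ℤ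
  | [] => 0
  | x :: l => sg x + (if l.isEmpty then 0 else dl H x) + tau H sg l

theorem dl_ne {x y : G} (h : fac H x ≠ fac H y) : dl H y = -dl H x := by
  unfold dl
  cases hx : fac H x <;> cases hy : fac H y <;> simp_all

theorem dl_pm (x : G) : dl H x = 1 ∨ dl H x = -1 := by unfold dl; split_ifs <;> simp

section
variable {sg : G → ℤ} (s1 : ∀ x, IsL H x → sg x⁻¹ = -sg x) (s2 : ∀ x, sg x = 1 ∨ sg x = -1)
  (s3 : ∀ x y, IsL H x → IsL H y → fac H x = fac H y → sg x = 1 → sg y = 1 → sg (x * y) = 1)
include s1

theorem tau_linv (l m : List G) (hl : Red H l) (hm : m ≠ []) :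
    tau H sg (linv l ++ m) = tau H sg m - tau H sg l + (l.head?.map (dl H)).getD 0 := by
  induction l generalizing m with
  | nil => simp [tau]
  | cons x l ih =>
    obtain ⟨hx, hr, hn⟩ := red_cons.1 hl
    rw [linv_cons, append_assoc, ih _ hr (by simp)]
    have e : dl H x⁻¹ = dl H x := by simp [dl, fac_inv]
    cases l with
    | nil => simp [tau, hm, s1 x hx, e]; ring
    | cons y l => simp [tau, hm, s1 x hx, e, dl_ne (hn y (by simp))]; ring

theorem tau_linv' (l : List G) (hl : Red H l) : tau H sg (linv l) = -tau H sg l := by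
  cases l with
  | nil => simp [tau]
  | cons x l =>
    obtain ⟨hx, hr, hn⟩ := red_cons.1 hl
    rw [linv_cons, tau_linv s1 _ _ hr (by simp)]
    cases l with
    | nil => simp [tau, s1 x hx]
    | cons y l => simp [tau, s1 x hx, dl_ne (hn y (by simp))]; ring

include s2 s3

theorem tau_key (h : FP H) (l l' : List G) (hl : Red H l) (hl' : Red H l') :
    ∃ m, Red H m ∧ m.prod = l.prod⁻¹ * l'.prod ∧ tau H sg l' - tau H sg l - 1 ≤ tau H sg m := by
  induction l generalizing l' with
  | nil => exact ⟨l', hl', by simp, by simp [tau]⟩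
  | cons x l ih =>
    cases l' with
    | nil => exact ⟨linv (x :: l), hl.linv, by simp, by rw [tau_linv' s1 _ hl, tau]; omega⟩
    | cons y l' =>
      obtain ⟨hx, hr, hn⟩ := red_cons.1 hl
      obtain ⟨hy, hr', hn'⟩ := red_cons.1 hl'
      have dx := dl_pm (H := H) x
      by_cases h1 : x = y
      · subst h1
        cases l with
        | nil => exact ⟨l', hr', by simp, by simp only [tau]; split_ifs <;> simp_all <;> omega⟩
        | cons z l =>
          cases l' with
          | nil =>
            refine ⟨linv (z :: l), hr.linv, by simp, ?_⟩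
            rw [tau_linv' s1 _ hr]
            simp only [tau, isEmpty_cons, isEmpty_nil, if_true, Bool.false_eq_true, if_false]
            omega
          | cons z' l' =>
            obtain ⟨m, h1, h2, h3⟩ := ih _ hr hr'
            refine ⟨m, h1, by simp [h2, mul_assoc], ?_⟩
            simp only [tau, isEmpty_cons, Bool.false_eq_true, if_false] at h3 ⊢
            omega
      · by_cases h2 : fac H x = fac H y
        · have h3 : x⁻¹ * y ≠ 1 := fun e => h1 (inv_mul_eq_one.1 e)
          obtain ⟨h4, h5⟩ := h.isL_mul hx.inv hy (by rw [fac_inv, h2]) h3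
          rw [fac_inv] at h5
          refine ⟨linv l ++ (x⁻¹ * y) :: l', ?_, by simp [mul_assoc], ?_⟩
          · rw [red_append, red_cons]
            refine ⟨hr.linv, ⟨h4, hr', fun z hz => ?_⟩, ?_⟩
            · rw [h5, h2]; exact hn' z hz
            · intro a ha z hz
              rw [linv_getLast?] at ha
              simp only [Option.mem_def, Option.map_eq_some_iff] at ha
              obtain ⟨w, hw, rfl⟩ := ha
              simp only [head?_cons, Option.mem_def, Option.some.injEq] at hz
              subst hz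
              rw [fac_inv, h5]
              exact (hn w hw).symm
          · rw [tau_linv s1 _ _ hr (by simp)]
            have e1 : dl H (x⁻¹ * y) = dl H x := by simp [dl, h5]
            have e2 : dl H y = dl H x := by simp [dl, h2]
            have a1 := s3 x⁻¹ y hx.inv hy (by rw [fac_inv, h2])
            rw [s1 x hx] at a1
            have a2 := s2 x
            have a3 := s2 y
            have a4 := s2 (x⁻¹ * y)
            cases l with
            | nil => simp only [tau, e1, e2]; simp; omega
            | cons z l =>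
              simp only [tau, e1, e2, head?_cons, Option.map_some, Option.getD_some,
                dl_ne (hn z (by simp)), isEmpty_cons, Bool.false_eq_true, if_false]
              omega
        · refine ⟨linv (x :: l) ++ y :: l', ?_, by simp [mul_assoc], ?_⟩
          · rw [red_append]
            refine ⟨hl.linv, hl', ?_⟩
            intro a ha z hz
            rw [linv_getLast?] at ha
            simp only [head?_cons, Option.map_some, Option.mem_def, Option.some.injEq] at ha hz
            subst ha hz
            rwa [fac_inv]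
          · rw [tau_linv s1 _ _ hl (by simp)]
            simp only [head?_cons, Option.map_some, Option.getD_some]
            omega

omit s1 s3 in
theorem tau_odd (l : List G) (hl : l ≠ []) : tau H sg l % 2 = 1 := by
  induction l with
  | nil => exact absurd rfl hl
  | cons x l ih =>
    have := s2 x
    have := dl_pm (H := H) x
    cases l with
    | nil => simp only [tau, isEmpty_nil, if_true]; omega
    | cons y l =>
      have := ih (by simp)
      rw [tau]
      simp only [isEmpty_cons, Bool.false_eq_true, if_false]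
      omega

theorem FP.leftOrd (h : FP H) : LeftOrd G := by
  have inv : ∀ a b : G, tau H sg (h.nf (b⁻¹ * a)) = -tau H sg (h.nf (a⁻¹ * b)) := by
    intro a b
    rw [← tau_linv' s1 _ (h.nf_red _), ← h.nf_inv]; simp
  refine ⟨fun a b => 0 < tau H sg (h.nf (a⁻¹ * b)), ?_, fun g a b e => by simpa [mul_assoc] using e⟩
  refine { trichotomous := ?_, irrefl := ?_, trans := ?_ }
  · intro a b h1 h2
    by_contra ne
    have := tau_odd (H := H) s2 (h.nf (a⁻¹ * b)) (fun e => ne (by
      have := h.nf_prod (a⁻¹ * b)
      rw [e] at this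
      exact inv_mul_eq_one.1 this.symm))
    have := inv a b
    omega
  · intro a h1
    have := inv a a
    omega
  · intro a b c h1 h2
    obtain ⟨m, k1, k2, k3⟩ := tau_key s1 s2 s3 h _ _ (h.nf_red (b⁻¹ * a)) (h.nf_red (b⁻¹ * c))
    have : h.nf (a⁻¹ * c) = m := by
      rw [← h.nf_eq k1, k2]; simp [mul_assoc]
    have := inv a b
    rw [‹h.nf (a⁻¹ * c) = m›]
    omega

end

theorem leftOrd_coprod {A B : Type} [Group A] [Group B] (hA : LeftOrd A) (hB : LeftOrd B) :
    LeftOrd (Coprod A B) := by
  classical
  have hM : ∀ b, LeftOrd (MM A B b) := fun b => by cases b; exacts [hB, hA]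
  choose r r1 r2 using hM
  let sg : Coprod A B → ℤ := fun x => if r (fac (HH A B) x) 1 (pr _ x) then 1 else -1
  refine FP.leftOrd (sg := sg) ?_ (fun x => by simp only [sg]; split_ifs <;> simp) ?_ fp_coprod
  · intro x hx
    have := r1 (fac (HH A B) x)
    have n1 : pr (fac (HH A B) x) x ≠ 1 := fun e => hx.1 ((phi_eq hx.2).2 e)
    simp only [sg]
    rw [fac_inv, map_inv]
    generalize pr (fac (HH A B) x) x = y at n1
    have e : r _ 1 y⁻¹ ↔ r _ y 1 :=
      ⟨fun e => by simpa using r2 _ y _ _ e, fun e => by simpa using r2 _ y⁻¹ _ _ e⟩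
    rcases trichotomous_of (r _) y 1 with c | c | c
    · simp [e, c, asymm_of (r _) c]
    · exact absurd c n1
    · simp [e, c, asymm_of (r _) c]
  · intro x y hx hy e a1 a2
    have := r1 (fac (HH A B) x)
    simp only [sg] at a1 a2 ⊢
    rw [← e] at a2
    have b1 : r _ 1 (pr (fac (HH A B) x) x) := by by_contra c; simp [c] at a1
    have b2 : r _ 1 (pr (fac (HH A B) x) y) := by by_contra c; simp [c] at a2
    have b3 : r _ 1 (pr (fac (HH A B) x) (x * y)) := by
      rw [map_mul]
      exact trans_of (r _) b1 (by simpa using r2 _ (pr _ x) _ _ b2)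
    have n1 : x * y ≠ 1 := fun c => by
      rw [c, map_one] at b3
      exact irrefl_of (r _) _ b3
    rw [(fp_coprod.isL_mul hx hy e n1).2, if_pos b3]

theorem FP.cyc_red (h : FP H) (N : ℕ) : ∀ l : List G, l.length ≤ N → Red H l →
    (∃ b, ∃ a ∈ H b, IsConj a l.prod) ∨ ∃ c, CR H c ∧ IsConj c.prod l.prod := by
  induction N with
  | zero =>
    intro l h1 _
    exact Or.inl ⟨true, 1, one_mem _, by simp [length_eq_zero_iff.1 (Nat.le_zero.1 h1)]⟩
  | succ N ih =>
    intro l h1 hl
    by_cases h2 : 2 ≤ l.length
    · obtain ⟨x, mid, z, rfl⟩ := two_split h2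
      by_cases h3 : fac H z = fac H x
      · obtain ⟨hx, hr, -⟩ := red_cons.1 hl
        obtain ⟨hm, hz, hn⟩ := red_append.1 hr
        have hz' := (red_cons.1 hz).1
        have cj : IsConj (mid.prod * (z * x)) (x :: mid ++ [z]).prod :=
          isConj_iff.2 ⟨x, by simp [mul_assoc]⟩
        by_cases h4 : z * x = 1
        · rw [h4, mul_one] at cj
          rcases ih mid (by simp at h1; omega) hm with ⟨b, a, ha, e⟩ | ⟨c, hc, e⟩
          · exact Or.inl ⟨b, a, ha, e.trans cj⟩
          · exact Or.inr ⟨c, hc, e.trans cj⟩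
        · obtain ⟨k1, k2⟩ := h.isL_mul hz' hx h3 h4
          rcases ih (mid ++ [z * x]) (by simp at h1 ⊢; omega) (red_append.2 ⟨hm, red_single k1,
            fun a ha y hy => by
              simp only [head?_cons, Option.mem_def, Option.some.injEq] at hy
              rw [← hy, k2]; exact hn a ha z (by simp)⟩) with ⟨b, a, ha, e⟩ | ⟨c, hc, e⟩
          · exact Or.inl ⟨b, a, ha, e.trans (by simpa using cj)⟩
          · exact Or.inr ⟨c, hc, e.trans (by simpa using cj)⟩
      · refine Or.inr ⟨_, ⟨hl, h2, fun a ha y hy => ?_⟩, IsConj.refl _⟩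
        simp only [cons_append, last_cons_concat, Option.mem_def, Option.some.injEq,
          head?_cons] at ha hy
        rw [← ha, ← hy]; exact h3
    · match l, h2, hl with
      | [], _, _ => exact Or.inl ⟨true, 1, one_mem _, by simp⟩
      | [x], _, hl => exact Or.inl ⟨_, x, (red_cons.1 hl).1.2, by rw [prod_singleton]⟩
      | _ :: _ :: _, h2, _ => exact absurd (by simp) h2

theorem wd_period {n : ℕ} (x : ZMod n → G) (e : ℕ) (he : ∀ i, x (i + e) = x i) (k : ℕ) :
    wd (· + 1) x (e * k) 0 = wd (· + 1) x e 0 ^ k := by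
  have a : ∀ t i, wd (· + 1) x t (i + e) = wd (· + 1) x t i := by
    intro t
    induction t with
    | zero => simp [wd]
    | succ t ih => intro i; simp only [wd]; rw [he, add_right_comm, ih]
  have it : ∀ t : ℕ, (· + 1)^[t] (0 : ZMod n) = 0 + t := by
    intro t
    induction t with
    | zero => simp
    | succ t ih => rw [Function.iterate_succ_apply', ih]; simp
  induction k with
  | zero => simp [wd]
  | succ k ih => rw [Nat.mul_succ, Nat.add_comm, wd_add, it, a, ih, pow_succ']

theorem FP.cyc_word (h : FP H) (r : G) (h1 : ∀ b, ∀ a ∈ H b, ¬ IsConj a r)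
    (h2 : ∀ (s : G) (k : ℕ), 2 ≤ k → s ^ k ≠ r) :
    ∃ (n : ℕ) (_ : NeZero n) (x : ZMod n → G), (∀ i, IsL H (x i)) ∧
      (∀ i, fac H (x (i + 1)) ≠ fac H (x i)) ∧ (∀ d : ZMod n, d ≠ 0 → ∃ i, x (i + d) ≠ x i) ∧
      IsConj (wd (· + 1) x n 0) r := by
  rcases h.cyc_red _ (h.nf r) le_rfl (h.nf_red r) with ⟨b, a, ha, e⟩ | ⟨c, ⟨c1, c2, c3⟩, e⟩
  · exact absurd (by simpa using e) (h1 b a ha)
  rw [h.nf_prod] at e
  have : NeZero c.length := ⟨by omega⟩
  have cv : ∀ i : ZMod c.length, cyc c i = getElem c i.val (ZMod.val_lt i) := fun i => by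
    simp [cyc, ZMod.val_lt i]
  have pw : ∀ t j, j + t ≤ c.length →
      wd (· + 1) (cyc c) t (j : ℕ) = ((c.drop j).take t).prod := by
    intro t
    induction t with
    | zero => simp [wd]
    | succ t ih =>
      intro j hj
      have := ih (j + 1) (by omega)
      push_cast at this
      rw [wd, this, drop_eq_getElem_cons (show j < c.length by omega), take_succ_cons, prod_cons,
        cv]
      simp [ZMod.val_cast_of_lt (show j < c.length by omega)]
  have e0 : wd (· + 1) (cyc c) c.length 0 = c.prod := by simpa using pw c.length 0 (by omega)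
  refine ⟨c.length, this, cyc c, fun i => by rw [cv]; exact c1.1 _ (getElem_mem _), fun i => ?_,
    fun d hd => ?_, e0 ▸ e⟩
  · rw [cv, cv]
    rcases val_succ i with k | k
    · have := isChain_iff_getElem.1 c1.2 i.val (by have := ZMod.val_lt (i + 1); omega)
      simp only [k]
      exact this.symm
    · refine (c3 _ ?_ _ ?_).symm
      · rw [getLast?_eq_getElem?, Option.mem_def, getElem?_eq_some_iff]
        exact ⟨by omega, by congr 1; omega⟩
      · rw [head?_eq_getElem?, Option.mem_def, getElem?_eq_some_iff]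
        exact ⟨by omega, by congr 1; omega⟩
  · by_contra hc
    push Not at hc
    have mul : ∀ (t : ℕ) i, cyc c (i + d * t) = cyc c i := by
      intro t
      induction t with
      | zero => simp
      | succ t ih => intro i; rw [Nat.cast_succ, mul_add, mul_one, ← add_assoc, hc, ih]
    have gc : ((Nat.gcd d.val c.length : ℕ) : ZMod c.length) =
        d * (((Nat.gcdA d.val c.length : ℤ) : ZMod c.length).val : ℕ) := by
      have := congrArg (Int.cast : ℤ → ZMod c.length) (Nat.gcd_eq_gcd_ab d.val c.length)
      simpa using this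
    obtain ⟨k, hk⟩ := Nat.gcd_dvd_right d.val c.length
    have := wd_period (cyc c) (Nat.gcd d.val c.length) (fun i => by rw [gc, mul]) k
    rw [← hk, e0] at this
    obtain ⟨u, hu⟩ := isConj_iff.1 e
    have d0 : 0 < d.val := by rw [ZMod.val_pos]; exact hd
    have d1 := Nat.gcd_le_left c.length d0
    have d2 := ZMod.val_lt d
    refine h2 (u * wd (· + 1) (cyc c) (Nat.gcd d.val c.length) 0 * u⁻¹) k ?_ ?_
    · rcases k with _ | _ | k <;> omega
    · rw [conj_pow, ← this, hu]

theorem lo_main (h : FP H) (r : G) (h1 : ∀ b, ∀ a ∈ H b, ¬ IsConj a r)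
    (h2 : ∀ (s : G) (k : ℕ), 2 ≤ k → s ^ k ≠ r) {K : Type*} [Group K] (hK : LeftOrd K)
    (ρ : G →* K) (hr : ρ r ≠ 1) (m : ℕ) (hm : 2 ≤ m) (b : Bool) (a : G) (ha : a ∈ H b)
    (hn : a ∈ Subgroup.normalClosure ({r ^ m} : Set G)) : a = 1 := by
  classical
  obtain ⟨n, _, x, k1, k2, k3, k4⟩ := h.cyc_word r h1 h2
  obtain ⟨lt, o1, o2⟩ := hK
  letI : LinearOrder K := linearOrderOfSTO lt
  let A : OAct G K := ⟨fun g y => ρ g * y, by simp, by simp [mul_assoc], fun g a b e => o2 _ _ _ e⟩
  obtain ⟨u, hu⟩ := isConj_iff.1 k4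
  have f1 : Fr H x := fr_act A h x k1 k2 k3 1 (fun e => hr (by
    have e' : ρ (wd (· + 1) x n 0) = 1 := by simpa [A] using e
    rw [← hu]; simp [e']))
  unfold Fr at f1
  generalize wd (· + 1) x n 0 = W at f1 hu
  have f2 : Subgroup.normalClosure ({r ^ m} : Set G) ≤ Subgroup.normalClosure ({W ^ m} : Set G) := by
    apply Subgroup.normalClosure_le_normal
    rw [Set.singleton_subset_iff, ← hu, conj_pow]
    exact Subgroup.normalClosure_normal.conj_mem _
      (Subgroup.subset_normalClosure (Set.mem_singleton _)) u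
  exact f1 m hm b a ha (f2 hn)

end Pool.Agent.MP_a38735_al
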