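import Pool.Agent.MP_a38735_al.DCurv

set_option autoImplicit false

namespace Pool.Agent.MP_a38735_al

open List

variable {G : Type*} [Group G] {H : Bool → Subgroup G} {Ω : Type*}

namespace Sy2

variable {ρ : G} {S : Sy2 H Ω ρ}

theorem Good.nn {t : G} {f : List (CL Ω G)} {m : ℕ} (h : S.Good t f m) : 1 ≤ m ∧ NN ρ m t :=
  ⟨(h.2.1.nn h.1.1).1, (h.2.1.nn h.1.1).2.isConj h.2.2⟩

/-- fusing two composite letters -/
def fz (S : Sy2 H Ω ρ) (A C : CL Ω G) : CL Ω G :=
  ⟨A.hd, C.lst, A.v * C.v, A.J + C.J + S.ψ A.lst C.hd - 2⟩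

theorem dipole1 {t : G} {X B : CL Ω G} {f : List (CL Ω G)} {m : ℕ}
    (h : S.Good t (X :: B :: f) m) (hX : X.v = 1) (c : Ω) (h1 : X.hd = S.nxt c)
    (h2 : B.hd = S.inv c) : ∃ j, j + 2 = m ∧ NN ρ j t := by
  have := h.2.1.2
  simp only [rhos, pairwise_cons, mem_cons, forall_eq_or_imp, one_mul, inv_one, mul_one, hX] at this
  obtain ⟨j, ν, e1, e2, e3⟩ := this.1.1 (by
    rw [h1, h2, S.sgn_nxt]; exact (S.sgn_inv c).symm)
  refine ⟨j, e1, NN.isConj ?_ h.2.2⟩
  have : S.R B.hd * S.R X.hd = 1 := by rw [h1, h2]; exact S.R_inv c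
  rw [e3, this, one_mul]; exact e2

theorem triv_step {t : G} {A X B : CL Ω G} {f : List (CL Ω G)} {m : ℕ}
    (h : S.Good t (A :: X :: B :: f) m) (hX : X.v = 1) (hn : ¬ ∃ j, j + 2 = m ∧ NN ρ j t) :
    S.Good t (S.fz A B :: f) m ∧ S.Θ (A :: X :: B :: f) ≤ S.Θ (S.fz A B :: f) := by
  have h' := h.rot (isRotated_cons_append A _)
  obtain ⟨⟨-, v2, v3, v4⟩, i1, c1⟩ := h
  obtain ⟨dA, hA⟩ := v2 A (by simp)
  obtain ⟨dX, hX'⟩ := v2 X (by simp)
  obtain ⟨dB, hB⟩ := v2 B (by simp)
  simp only [isChain_cons_cons] at v3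
  obtain ⟨e1, e2, v3⟩ := v3
  have n1 : B.hd ≠ S.inv A.lst := fun e => hn (dipole1 h' hX A.lst e1 e)
  have n2 : X.hd ≠ S.inv X.lst := fun e => n1 (by rw [e2]; exact S.inv_nxt _ _ (e1 ▸ e))
  have f1 : fac H (S.lab A.lst) ≠ fac H (S.lab X.lst) := by
    rw [← hX'.props.1, e1]; exact (S.fac_nxt _).symm
  have f2 : fac H (S.lab A.lst) = fac H (S.lab B.hd) := by
    rw [e2]; exact bool_ne_ne f1 (S.fac_nxt _).symm
  refine ⟨⟨⟨by simp, ?_, ?_, ?_⟩, ?_, ?_⟩, ?_⟩
  · intro Y hY
    rcases mem_cons.1 hY with rfl | hY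
    · exact ⟨_, hA.append hB n1 f2⟩
    · exact v2 Y (by simp [hY])
  · cases f with
    | nil => simp
    | cons C f => rw [isChain_cons_cons] at v3 ⊢; exact v3
  · intro x hx y hy
    simp only [head?_cons, Option.mem_def, Option.some.injEq] at hy
    subst hy
    cases f with
    | nil =>
      simp only [getLast?_singleton, Option.mem_def, Option.some.injEq] at hx
      subst hx
      exact v4 B (by simp) A (by simp)
    | cons C f => exact v4 x (by simpa using hx) A (by simp)
  · have a1 := Inv.fuse (l1 := []) (X := A) (Y := X) (l2 := B :: f)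
      (Z := ⟨A.hd, A.lst, A.v * X.v, 0⟩) i1 rfl rfl
    exact Inv.fuse (l1 := []) (Z := S.fz A B) a1 rfl (by simp [fz, hX])
  · simpa [fz, hX, mul_assoc] using c1
  · have k1 := hX'.close hX n2
    have k2 := S.edge A.lst X.lst f1 (e2 ▸ n1) (e1 ▸ n2)
    rw [← e1, ← e2] at k2
    simp only [Θ, map_cons, sum_cons, fz]
    linarith

theorem last_step {t : G} {A X : CL Ω G} {m : ℕ}
    (h : S.Good t [A, X] m) (hX : X.v = 1) (hn : ¬ ∃ j, j + 2 = m ∧ NN ρ j t) :
    S.Θ [A, X] < 0 ∧ (∃ b, A.v ∈ H b) ∧ IsConj A.v t := by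
  have h' := h.rot (isRotated_cons_append A _)
  obtain ⟨⟨-, v2, v3, v4⟩, i1, c1⟩ := h
  obtain ⟨dA, hA⟩ := v2 A (by simp)
  obtain ⟨dX, hX'⟩ := v2 X (by simp)
  simp only [isChain_cons_cons] at v3
  obtain ⟨e1, -⟩ := v3
  have e2 : A.hd = S.nxt X.lst := v4 X (by simp) A (by simp)
  have n1 : A.hd ≠ S.inv A.lst := fun e => hn (dipole1 h' hX A.lst e1 e)
  have n2 : X.hd ≠ S.inv X.lst := fun e => n1 (by rw [e2]; exact S.inv_nxt _ _ (e1 ▸ e))
  have f1 : fac H (S.lab A.lst) ≠ fac H (S.lab X.lst) := by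
    rw [← hX'.props.1, e1]; exact (S.fac_nxt _).symm
  refine ⟨?_, ⟨_, hA.props.2.1⟩, by simpa [hX] using c1⟩
  have k1 := hX'.close hX n2
  have k3 := hA.close' n1
  have k2 := S.edge A.lst X.lst f1 (e2 ▸ n1) (e1 ▸ n2)
  rw [← e1, ← e2] at k2
  simp only [Θ, map_cons, sum_cons, map_nil, sum_nil]
  linarith

theorem merge_step {A B C D : CL Ω G} {f g : List (CL Ω G)} {m n : ℕ} {t s : G}
    (h : S.Good t (B :: f ++ [A]) m) (h' : S.Good s (C :: g ++ [D]) n)
    (hf : fac H (S.lab A.lst) = fac H (S.lab C.hd))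
    (hn : ¬ ∃ j, j + 2 = m + n ∧ NN ρ j (ev (B :: f ++ [A]) * ev (C :: g ++ [D]))) :
    S.Good (ev (B :: f ++ [A]) * ev (C :: g ++ [D])) (S.fz D B :: f ++ S.fz A C :: g) (m + n) ∧
      S.Θ (B :: f ++ [A]) + S.Θ (C :: g ++ [D]) ≤ S.Θ (S.fz D B :: f ++ S.fz A C :: g) := by
  obtain ⟨⟨v1, v2, v3, v4⟩, i1, -⟩ := h
  obtain ⟨⟨w1, w2, w3, w4⟩, i2, -⟩ := h'
  obtain ⟨dA, hA⟩ := v2 A (by simp)
  obtain ⟨dB, hB⟩ := v2 B (by simp)
  obtain ⟨dC, hC⟩ := w2 C (by simp)
  obtain ⟨dD, hD⟩ := w2 D (by simp)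
  have e1 : B.hd = S.nxt A.lst := v4 A (by simp) B (by simp)
  have e2 : C.hd = S.nxt D.lst := w4 D (by simp) C (by simp)
  have n1 : C.hd ≠ S.inv A.lst := by
    intro e
    obtain ⟨j, ν, a1, a2, a3⟩ := i1.1 (S.sgn B.hd, S.R B.hd) (by simp [rhos])
    obtain ⟨j', ν', b1, b2, b3⟩ := i2.1 (S.sgn C.hd, S.R C.hd) (by simp [rhos])
    refine hn ⟨j + j', by omega, ?_⟩
    have : S.R C.hd * S.R B.hd = 1 := by rw [e, e1]; exact S.R_inv _
    have e3 : S.R C.hd = (S.R B.hd)⁻¹ := eq_inv_of_mul_eq_one_left this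
    rw [a3, b3]
    dsimp only
    rw [e3]
    have := (a2.conj (S.R B.hd)).mul b2
    simpa [mul_assoc] using this
  have n2 : B.hd ≠ S.inv D.lst := fun e => n1 (by rw [e2]; exact S.inv_nxt _ _ (e1 ▸ e))
  have f1 : fac H (S.lab A.lst) ≠ fac H (S.lab D.lst) := by
    rw [hf, e2]; exact S.fac_nxt _
  have f2 : fac H (S.lab D.lst) = fac H (S.lab B.hd) := by
    rw [e1]; exact bool_ne_ne f1.symm (S.fac_nxt _).symm
  refine ⟨⟨⟨by simp, ?_, ?_, ?_⟩, ?_, ?_⟩, ?_⟩
  · intro Y hY
    simp only [cons_append, mem_cons, mem_append] at hY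
    rcases hY with rfl | hY | rfl | hY
    · exact ⟨_, hD.append hB n2 f2⟩
    · exact v2 Y (by simp [hY])
    · exact ⟨_, hA.append hC n1 hf⟩
    · exact w2 Y (by simp [hY])
  · rw [isChain_append] at v3 w3 ⊢
    refine ⟨?_, ?_, ?_⟩
    · cases f with
      | nil => simp
      | cons E f => have := v3.1; rw [isChain_cons_cons] at this ⊢; exact this
    · cases g with
      | nil => simp
      | cons E g => have := w3.1; rw [isChain_cons_cons] at this ⊢; exact this
    · intro x hx y hy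
      simp only [head?_cons, Option.mem_def, Option.some.injEq] at hy
      subst hy
      cases f with
      | nil =>
        simp only [getLast?_singleton, Option.mem_def, Option.some.injEq] at hx
        subst hx
        exact v3.2.2 B (by simp) A (by simp)
      | cons E f => exact v3.2.2 x (by simpa using hx) A (by simp)
  · intro x hx y hy
    simp only [cons_append, head?_cons, Option.mem_def, Option.some.injEq] at hy
    subst hy
    rw [isChain_append] at w3
    cases g with
    | nil =>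
      simp only [cons_append, last_cons_concat, Option.mem_def, Option.some.injEq] at hx
      subst hx
      exact w3.2.2 C (by simp) D (by simp)
    | cons E g =>
      refine w3.2.2 x ?_ D (by simp)
      rw [getLast?_append] at hx
      simpa using hx
  · have a0 := i1.append i2 v1 w1
    have a1 : S.Inv ((B :: f) ++ S.fz A C :: (g ++ [D])) (m + n) :=
      Inv.fuse (X := A) (Y := C) (by simpa using a0) rfl rfl
    have a2 : S.Inv (D :: B :: (f ++ S.fz A C :: g)) (m + n) := by
      refine isRotated_induction (P := fun f => S.Inv f (m + n)) (fun _ _ h => h.rot1) ?_ a1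
      have := (isRotated_cons_append D (B :: (f ++ S.fz A C :: g))).symm
      simpa using this
    exact Inv.fuse (l1 := []) (Z := S.fz D B) a2 rfl rfl
  · refine isConj_iff.2 ⟨D.v⁻¹, ?_⟩
    simp [fz, mul_assoc]
  · have k2 := S.edge A.lst D.lst f1 (e2 ▸ n1) (e1 ▸ n2)
    rw [← e1, ← e2] at k2
    simp only [Θ, map_cons, sum_cons, fz, map_append, sum_append, map_nil, sum_nil, cons_append]
    linarith

theorem Good.conj {t s : G} {f : List (CL Ω G)} {m : ℕ} (h : S.Good t f m) (e : IsConj t s) :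
    S.Good s f m := ⟨h.1, h.2.1, h.2.2.trans e⟩

theorem neg_curv (hF : FP H) (k : ℕ) (hk : ∀ j < k, ∀ b, ∀ a ∈ H b, NN ρ j a → a = 1)
    {b : Bool} {a : G} (ha : a ∈ H b) (ha1 : a ≠ 1) (L : ℕ) :
    ∀ l : List (G × (List (CL Ω G) × ℕ)), (l.map (fun p => p.2.1.length)).sum ≤ L →
      (∀ p ∈ l, S.Good p.1 p.2.1 p.2.2) → (l.map Prod.fst).prod = a →
      (l.map (fun p => p.2.2)).sum = k → (l.map (fun p => S.Θ p.2.1)).sum < 0 := by
  induction L with
  | zero =>
    intro l h1 h2 h3 h4
    cases l with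
    | nil => exact (ha1 (by simpa using h3.symm)).elim
    | cons p l =>
      have := (h2 p (by simp)).1.two
      simp only [map_cons, sum_cons] at h1; omega
  | succ L ih =>
    intro l h1 h2 h3 h4
    have hl : l ≠ [] := by rintro rfl; exact ha1 (by simpa using h3.symm)
    -- replacing a block of the list by something cheaper contradicts minimality
    have rep : ∀ (l1 l2 : List (G × (List (CL Ω G) × ℕ))) (t : G) (j : ℕ),
        (∀ p ∈ l1 ++ l2, S.Good p.1 p.2.1 p.2.2) →
        (l1.map Prod.fst).prod * t * (l2.map Prod.fst).prod = a → NN ρ j t →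
        k ≤ (l1.map (fun p => p.2.2)).sum + j + (l2.map (fun p => p.2.2)).sum := by
      intro l1 l2 t j g1 g2 g3
      by_contra hlt
      apply ha1
      refine hk _ (not_le.1 hlt) b a ha ?_
      rw [← g2]
      exact ((NN.list (fun i => i.2) l1 (fun p hp => (g1 p (by simp [hp])).nn.2)).mul g3).mul
        (NN.list (fun i => i.2) l2 (fun p hp => (g1 p (by simp [hp])).nn.2))
    by_cases htriv : ∃ p ∈ l, ∃ X ∈ p.2.1, X.v = 1
    · obtain ⟨⟨t, f, m⟩, hp, X, hX, hX1⟩ := htriv
      obtain ⟨l1, l2, rfl⟩ := append_of_mem hp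
      have g := h2 _ hp
      dsimp only at g hX
      have g12 : ∀ p ∈ l1 ++ l2, S.Good p.1 p.2.1 p.2.2 := fun p hp => h2 p (by
        rcases mem_append.1 hp with hp | hp <;> simp [hp])
      simp only [map_append, map_cons, sum_append, sum_cons, prod_append, prod_cons] at h1 h3 h4 ⊢
      have hn : ¬ ∃ j, j + 2 = m ∧ NN ρ j t := by
        rintro ⟨j, e1, e2⟩
        have := rep l1 l2 t j g12 (by rw [← h3, mul_assoc]) e2
        omega
      obtain ⟨f1, f2, rfl⟩ := append_of_mem hX
      have r1 : (f1 ++ X :: f2) ~r (X :: (f2 ++ f1)) := by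
        simpa using isRotated_append (l := f1) (l' := X :: f2)
      have two := (g.rot r1).1.two
      obtain ⟨A, r, r2⟩ : ∃ A r, (f1 ++ X :: f2) ~r (A :: X :: r) := by
        rcases List.eq_nil_or_concat' (f2 ++ f1) with e | ⟨r, A, e⟩
        · simp [e] at two
        · rw [e] at r1
          exact ⟨A, r, r1.trans (isRotated_cons_append A (X :: r)).symm⟩
      have g' := g.rot r2
      rw [Θ_perm r2.perm]
      rw [r2.perm.length_eq] at h1
      cases r with
      | nil =>
        obtain ⟨k1, ⟨b', k2⟩, k3⟩ := last_step g' hX1 hn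
        by_cases hA : A.v = 1
        · have t1 : t = 1 := by simpa [hA, eq_comm] using k3
          have := rep l1 l2 t 0 g12 (by rw [← h3, mul_assoc]) (t1 ▸ NN.zero)
          have := g.nn.1
          omega
        · have km : k ≤ m := by
            by_contra hlt
            exact hA (hk m (not_le.1 hlt) b' _ k2 (g.nn.2.isConj k3.symm))
          have z : ∀ l' : List (G × (List (CL Ω G) × ℕ)), (∀ p ∈ l', S.Good p.1 p.2.1 p.2.2) →
              (l'.map (fun p => p.2.2)).sum = 0 → l' = [] := by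
            intro l' q1 q2
            cases l' with
            | nil => rfl
            | cons p l' =>
              have := (q1 p (by simp)).nn.1
              simp at q2; omega
          have z1 := z l1 (fun p hp => g12 p (by simp [hp])) (by omega)
          have z2 := z l2 (fun p hp => g12 p (by simp [hp])) (by omega)
          subst z1 z2
          simpa using k1
      | cons B r =>
        obtain ⟨k1, k2⟩ := triv_step g' hX1 hn
        have := ih (l1 ++ (t, S.fz A B :: r, m) :: l2) (by simp at h1 ⊢; omega)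
          (by
            intro p hp
            simp only [mem_append, mem_cons] at hp
            rcases hp with hp | rfl | hp
            · exact g12 p (by simp [hp])
            · exact k1
            · exact g12 p (by simp [hp]))
          (by simpa using h3) (by simpa using h4)
        simp only [map_append, map_cons, sum_append, sum_cons] at this
        linarith
    · push Not at htriv
      obtain ⟨l1, l2, t, s, ⟨f, m⟩, ⟨g, n⟩, γ, c1, c2, p1, p2, p3, p4, p5, rfl, rfl, p8⟩ :=
        hF.merge (fun i : List (CL Ω G) × ℕ => i.1.map CL.v) l hl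
          (fun p hp => ⟨(h2 p hp).1.cr hF (htriv p hp), (h2 p hp).2.2⟩) (h3 ▸ ha)
      have gd : ∀ i ∈ (l1 ++ (γ * c1.prod * γ⁻¹, (f, m)) :: (γ * c2.prod * γ⁻¹, (g, n)) :: l2).map
          Prod.snd, S.Val i.1 ∧ S.Inv i.1 i.2 ∧ ∀ X ∈ i.1, X.v ≠ 1 := by
        intro i hi
        obtain ⟨p, hp, rfl⟩ := mem_map.1 (p1.subset hi)
        exact ⟨(h2 p hp).1, (h2 p hp).2.1, htriv p hp⟩
      have g12 : ∀ p ∈ l1 ++ l2, S.Good p.1 p.2.1 p.2.2 := fun p hp => by
        have := gd p.2 (by
          rcases mem_append.1 hp with hp | hp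
          · simp only [map_append, mem_append]; exact Or.inl (mem_map_of_mem hp)
          · simp only [map_append, mem_append, map_cons, mem_cons]
            exact Or.inr (Or.inr (Or.inr (mem_map_of_mem hp))))
        exact ⟨this.1, this.2.1, p3 p hp⟩
      have gf := gd (f, m) (by simp)
      have gg := gd (g, n) (by simp)
      obtain ⟨f', r1, rfl⟩ := lift_rot _ _ p4
      obtain ⟨g', r2, rfl⟩ := lift_rot _ _ p5
      have gf' : S.Good (ev f) f' m := Good.rot ⟨gf.1, gf.2.1, IsConj.refl _⟩ r1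
      have gg' : S.Good (ev g) g' n := Good.rot ⟨gg.1, gg.2.1, IsConj.refl _⟩ r2
      obtain ⟨B, f1, A, rfl⟩ := two_split gf'.1.two
      obtain ⟨C, g1, D, rfl⟩ := two_split gg'.1.two
      have s1 := ((p1.map (fun i => i.1.length)).sum_eq)
      have s2 := ((p1.map (fun i => i.2)).sum_eq)
      have s3 := ((p1.map (fun i => S.Θ i.1)).sum_eq)
      simp only [map_map, Function.comp_def] at s1 s2 s3
      rw [← s1] at h1
      rw [← s2] at h4
      rw [← s3]
      rw [h3] at p2
      simp only [map_append, map_cons, sum_append, sum_cons, prod_append, prod_cons] at h1 h4 p2 ⊢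
      rw [Θ_perm r1.perm, Θ_perm r2.perm]
      rw [r1.perm.length_eq, r2.perm.length_eq] at h1
      have p2' : (l1.map Prod.fst).prod * (γ * (ev (B :: f1 ++ [A]) * ev (C :: g1 ++ [D])) * γ⁻¹) *
          (l2.map Prod.fst).prod = a := by
        rw [← p2]; simp [ev, mul_assoc]
      obtain ⟨dA, hA⟩ := gf'.1.2.1 A (by simp)
      obtain ⟨dC, hC⟩ := gg'.1.2.1 C (by simp)
      have hf : fac H (S.lab A.lst) = fac H (S.lab C.hd) := by
        have := p8 A.v (by simp) C.v (by simp)
        rw [hF.fac_eq hA.props.2.1 (gf.2.2 A (r1.perm.symm.subset (by simp))),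
          hF.fac_eq hC.props.2.1 (gg.2.2 C (r2.perm.symm.subset (by simp))), hA.props.1] at this
        exact this
      obtain ⟨k1, k2⟩ := merge_step gf' gg' hf (by
        rintro ⟨j, e1, e2⟩
        have := rep l1 l2 _ j g12 p2' (e2.conj γ)
        omega)
      have := ih (l1 ++ (γ * (ev (B :: f1 ++ [A]) * ev (C :: g1 ++ [D])) * γ⁻¹,
          S.fz D B :: f1 ++ S.fz A C :: g1, m + n) :: l2) (by simp at h1 ⊢; omega)
          (by
            intro p hp
            simp only [mem_append, mem_cons] at hp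
            rcases hp with hp | rfl | hp
            · exact g12 p (by simp [hp])
            · exact k1.conj (isConj_iff.2 ⟨γ, rfl⟩)
            · exact g12 p (by simp [hp]))
          (by simp only [map_append, map_cons, prod_append, prod_cons]; rw [← p2']; simp only [mul_assoc])
          (by simp only [map_append, map_cons, sum_append, sum_cons]; omega)
      simp only [map_append, map_cons, sum_append, sum_cons] at this
      linarith

theorem init_state {k : ℕ} {a : G} (h : NN ρ k a) :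
    ∃ l : List (G × (List (CL Ω G) × ℕ)), (∀ p ∈ l, S.Good p.1 p.2.1 p.2.2) ∧
      (l.map Prod.fst).prod = a ∧ (l.map (fun p => p.2.2)).sum = k ∧
      0 ≤ (l.map (fun p => S.Θ p.2.1)).sum := by
  induction h with
  | zero => exact ⟨[], by simp, by simp, by simp, by simp⟩
  | succ j g h _ hh ih =>
    obtain ⟨l, h1, h2, h3, h4⟩ := ih
    obtain ⟨c, hc⟩ : ∃ c, IsConj (S.R c) h := by
      rcases hh with hh | hh
      · obtain ⟨c, hc⟩ := S.ex_pos; exact ⟨c, hc.symm.trans hh⟩
      · obtain ⟨c, hc⟩ := S.ex_neg; exact ⟨c, hc.symm.trans hh⟩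
    obtain ⟨k1, k2⟩ := initL_good c hc
    refine ⟨(h, S.initL S.N c, 1) :: l, ?_, by simp [h2], by simp [h3]; omega, ?_⟩
    · intro p hp
      rcases mem_cons.1 hp with rfl | hp
      · exact k1
      · exact h1 p hp
    · simp only [map_cons, sum_cons]; linarith

/-- The Freiheitssatz from a curvature certificate. -/
theorem freiheit (S : Sy2 H Ω ρ) (hF : FP H) {b : Bool} {a : G} (ha : a ∈ H b)
    (hn : a ∈ Subgroup.normalClosure ({ρ} : Set G)) : a = 1 := by
  classical
  by_contra ha1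
  obtain ⟨j, hj⟩ := NN.of_mem hn
  have ex : ∃ k, ∃ b, ∃ a ∈ H b, NN ρ k a ∧ a ≠ 1 := ⟨j, b, a, ha, hj, ha1⟩
  obtain ⟨b', a', h1, h2, h3⟩ := Nat.find_spec ex
  obtain ⟨l, k1, k2, k3, k4⟩ := init_state (S := S) h2
  have := neg_curv (S := S) hF (Nat.find ex) (fun j hj b a ha hn => by
    by_contra h
    exact Nat.find_min ex hj ⟨b, a, ha, hn, h⟩) h1 h3 _ l le_rfl k1 k2 k3
  linarith

end Sy2

end Pool.Agent.MP_a38735_al
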