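import Pool.Agent.MP_a38735_al.HH

set_option autoImplicit false

namespace Pool.Agent.MP_a38735_al

variable {G : Type*} [Group G] {H : Bool → Subgroup G} {n : ℕ}

/-- lexicographic order of rotations -/
def Lx (x : ZMod n → G) (j k : ZMod n) : Prop :=
  ∃ s : ℕ, PM x j k s ∧ WellOrderingRel (x (j + s)) (x (k + s))

theorem lx_tri [NeZero n] {x : ZMod n → G} (hc : Cy H x) {j k : ZMod n} (h : j ≠ k) :
    Lx x j k ∨ Lx x k j := by
  classical
  have ex : ∃ s : ℕ, x (j + s) ≠ x (k + s) := by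
    by_contra c
    push Not at c
    exact absurd (PM.lt hc (t := n) (fun s _ => c s) h) (lt_irrefl n)
  have h1 : PM x j k (Nat.find ex) := fun s hs => by simpa using Nat.find_min ex hs
  rcases trichotomous_of WellOrderingRel (x (j + Nat.find ex)) (x (k + Nat.find ex)) with c | c | c
  · exact Or.inl ⟨_, h1, c⟩
  · exact absurd c (Nat.find_spec ex)
  · exact Or.inr ⟨_, h1.symm, c⟩

omit [Group G] in
theorem lx_irrefl (x : ZMod n → G) (j : ZMod n) : ¬ Lx x j j := fun ⟨_, _, h⟩ =>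
  irrefl_of WellOrderingRel _ h

theorem Lx.trans {x : ZMod n → G} {j k l : ZMod n} (h1 : Lx x j k) (h2 : Lx x k l) :
    Lx x j l := by
  obtain ⟨s, a1, a2⟩ := h1
  obtain ⟨t, b1, b2⟩ := h2
  rcases lt_trichotomy s t with c | rfl | c
  · exact ⟨s, fun r hr => (a1 r hr).trans (b1 r (by omega)), b1 s c ▸ a2⟩
  · exact ⟨s, fun r hr => (a1 r hr).trans (b1 r hr), trans_of WellOrderingRel a2 b2⟩
  · exact ⟨t, fun r hr => (a1 r (by omega)).trans (b1 r hr), (a1 t c).symm ▸ b2⟩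

theorem Lx.asymm {x : ZMod n → G} {j k : ZMod n} (h1 : Lx x j k) (h2 : Lx x k j) : False :=
  lx_irrefl x j (h1.trans h2)

theorem Lx.shift {x : ZMod n → G} {j k : ZMod n} {t : ℕ} (h1 : Lx x j k) (h2 : PM x j k t) :
    Lx x (j + t) (k + t) := by
  obtain ⟨s, a1, a2⟩ := h1
  have : t ≤ s := by
    by_contra c
    rw [h2 s (by omega)] at a2
    exact irrefl_of WellOrderingRel _ a2
  refine ⟨s - t, a1.drop this, ?_⟩
  rw [Nat.cast_sub this]
  convert a2 using 2 <;> ring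

theorem lx_min [NeZero n] {x : ZMod n → G} (hc : Cy H x) (S : ZMod n → Prop) (h : ∃ j, S j) :
    ∃ P, S P ∧ ∀ k, S k → k ≠ P → Lx x P k := by
  haveI : IsTrans (ZMod n) (Lx x) := ⟨fun _ _ _ => Lx.trans⟩
  haveI : Std.Irrefl (Lx x) := ⟨lx_irrefl x⟩
  obtain ⟨P, h1, h2⟩ := (Finite.wellFounded_of_trans_of_irrefl (Lx x)).has_min {j | S j} h
  exact ⟨P, h1, fun k hk hne => (lx_tri hc hne).resolve_left (h2 k hk)⟩

theorem lx_max [NeZero n] {x : ZMod n → G} (hc : Cy H x) (S : ZMod n → Prop) (h : ∃ j, S j) :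
    ∃ P, S P ∧ ∀ k, S k → k ≠ P → Lx x k P := by
  haveI : IsTrans (ZMod n) (fun a b => Lx x b a) := ⟨fun _ _ _ h1 h2 => Lx.trans h2 h1⟩
  haveI : Std.Irrefl (fun a b => Lx x b a) := ⟨lx_irrefl x⟩
  obtain ⟨P, h1, h2⟩ :=
    (Finite.wellFounded_of_trans_of_irrefl (fun a b => Lx x b a)).has_min {j | S j} h
  exact ⟨P, h1, fun k hk hne => (lx_tri hc hne).resolve_right (h2 k hk)⟩

end Pool.Agent.MP_a38735_al
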