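import Pool.Agent.MP_a38735_al.DPhi
import Pool.Agent.MP_a38735_al.Lex

set_option autoImplicit false

namespace Pool.Agent.MP_a38735_al

variable {G : Type*} [Group G] {H : Bool → Subgroup G} {n : ℕ}

/-- an action by order automorphisms -/
structure OAct (G Y : Type*) [Group G] [LinearOrder Y] where
  act : G → Y → Y
  one : ∀ y, act 1 y = y
  mul : ∀ g h y, act (g * h) y = act g (act h y)
  mono : ∀ g, StrictMono (act g)

/-- the same action on the reversed order -/
def OAct.dual {Y : Type*} [LinearOrder Y] (A : OAct G Y) : OAct G Yᵒᵈ where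
  act := A.act
  one := A.one
  mul := A.mul
  mono := fun g => (A.mono g).dual

/-- the diagonal action on sequences -/
noncomputable def OAct.seq {Y : Type*} [LinearOrder Y] (A : OAct G Y) : OAct G (Lex (ℕ → Y)) where
  act := fun g z => toLex (fun j => A.act g (ofLex z j))
  one := fun z => congrArg toLex (funext fun j => A.one _)
  mul := fun g h z => by simp [A.mul]
  mono := by
    rintro g z z' ⟨i, h1, h2⟩
    exact ⟨i, fun j hj => congrArg (A.act g) (h1 j hj), A.mono g h2⟩

theorem op_abs {Y : Type*} [LinearOrder Y] (A : OAct G Y) (x : ZMod n → G)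
    (R : ZMod n → ZMod n → Prop) (s : Bool) (α β : Bool × ZMod n → Y)
    (hab : ∀ c, A.act (cl x c) (β c) = α c)
    (E1 : ∀ l c, R (jn l) (jn (ci c)) → ¬ (l.1 = s ∧ c.1 = s) → α c ≤ β l)
    (E2 : ∀ l c, R (jn l) (jn (ci c)) → l.1 ≠ s → c.1 ≠ s → α c < β l)
    (E3 : ∀ h l, h.1 ≠ l.1 → cl x h * cl x l = 1 → R (jn h) (jn (ci l)) → ¬ R (jn l) (jn (ci h)))
    (hL : ∀ c, cl x c ≠ 1) {h l : Bool × ZMod n} {d k : ℕ} (hu : Un x R s h l d 1 k)
    (hc : R (jn l) (jn (ci h))) : 2 ≤ k := by
  have key : ∀ l d v k, Un x R s h l d v k → (h.1 = s → 1 ≤ k) ∧ (l.1 = s → 1 ≤ k) ∧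
      (k ≤ 1 → (l = h ∧ v = cl x h) ∨ ((h.1 = s → l.1 ≠ s) ∧ (A.act v (β l) < α h ∨
        (A.act v (β l) ≤ α h ∧ ((h.1 ≠ l.1 ∧ v = cl x h * cl x l ∧ R (jn h) (jn (ci l))) ∨
          (h.1 ≠ s ∧ l.1 ≠ s ∧ 1 ≤ k)))))) := by
    intro l d v k hu
    induction hu with
    | one => exact ⟨fun e => by simp [e], fun e => by simp [e], fun _ => Or.inl ⟨rfl, rfl⟩⟩
    | snoc l c d v k _ hr ih =>
      obtain ⟨i1, i2, i3⟩ := ih
      refine ⟨fun e => by have := i1 e; omega, fun e => by simp [e], fun hk => Or.inr ?_⟩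
      have n1 : ¬ (l.1 = s ∧ c.1 = s) := fun e => by
        have := i2 e.1
        simp only [e.2, if_true] at hk
        omega
      have n2 : h.1 = s → c.1 ≠ s := fun e e' => by
        have := i1 e
        simp only [e', if_true] at hk
        omega
      have a1 := (A.mono v).monotone (E1 l c hr n1)
      have a2 := fun e e' => A.mono v (E2 l c hr e e')
      refine ⟨n2, ?_⟩
      rw [A.mul, hab]
      rcases i3 (by omega) with ⟨rfl, rfl⟩ | ⟨-, i | ⟨i, j⟩⟩
      · rw [hab] at a1 a2
        by_cases e : l.1 = c.1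
        · exact Or.inl (a2 (fun e' => n1 ⟨e', e ▸ e'⟩) (fun e' => n1 ⟨e ▸ e', e'⟩))
        · exact Or.inr ⟨a1, Or.inl ⟨e, rfl, hr⟩⟩
      · exact Or.inl (a1.trans_lt i)
      · have k1 : 1 ≤ k := by
          rcases j with j | j
          · by_cases e : h.1 = s
            · exact i1 e
            · exact i2 (bool_ne_ne j.1.symm e)
          · exact j.2.2
        have c1 : c.1 ≠ s := fun e => by
          simp only [e, if_true] at hk
          omega
        by_cases e : l.1 = s
        · refine Or.inr ⟨a1.trans i, Or.inr ⟨?_, c1, by omega⟩⟩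
          rcases j with j | j
          · exact e ▸ j.1
          · exact j.1
        · exact Or.inl ((a2 e c1).trans_le i)
  by_contra hk
  rcases (key l d 1 k hu).2.2 (by omega) with ⟨-, e⟩ | ⟨i0, i⟩
  · exact hL h e.symm
  · rw [A.one] at i
    have a1 := E1 l h hc (fun e => i0 e.2 e.1)
    rcases i with i | ⟨i, j | j⟩
    · exact absurd a1 (not_le.2 i)
    · exact E3 h l j.1 j.2.1.symm j.2.2 hc
    · exact absurd (E2 l h hc j.2.1 j.1) (not_lt.2 i)

omit [Group G] in
theorem lx_tri' [NeZero n] {x : ZMod n → G} (hp : ∀ d : ZMod n, d ≠ 0 → ∃ i, x (i + d) ≠ x i)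
    {j k : ZMod n} (h : j ≠ k) : Lx x j k ∨ Lx x k j := by
  classical
  have ex : ∃ s : ℕ, x (j + s) ≠ x (k + s) := by
    obtain ⟨i, hi⟩ := hp (j - k) (sub_ne_zero.2 h)
    refine ⟨(i - k).val, ?_⟩
    rw [ZMod.natCast_zmod_val]
    convert hi using 2 <;> ring
  have h1 : PM x j k (Nat.find ex) := fun s hs => by simpa using Nat.find_min ex hs
  rcases trichotomous_of WellOrderingRel (x (j + Nat.find ex)) (x (k + Nat.find ex)) with c | c | c
  · exact Or.inl ⟨_, h1, c⟩
  · exact absurd c (Nat.find_spec ex)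
  · exact Or.inr ⟨_, fun s hs => (h1 s hs).symm, c⟩

theorem fr_key [NeZero n] {Y : Type*} [LinearOrder Y] (A : OAct G Y) (hF : FP H) (x : ZMod n → G)
    (hL : ∀ i, IsL H (x i)) (hf : ∀ i, fac H (x (i + 1)) ≠ fac H (x i))
    (hp : ∀ d : ZMod n, d ≠ 0 → ∃ i, x (i + d) ≠ x i) (κ : ZMod n → Y) (T : Y → Y)
    (hT : StrictMono T) (h1 : ∀ i, κ (i + 1) = T (A.act (x i)⁻¹ (κ i)))
    (h2 : ∀ i, A.act (x i)⁻¹ (κ i) < κ (i + 1)) : Fr H x := by
  let r : ZMod n → ZMod n → Prop := fun p q => κ p < κ q ∨ (κ p = κ q ∧ Lx x p q)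
  have tr : ∀ p q t, r p q → r q t → r p t := by
    rintro p q t (a | a) (b | b)
    · exact Or.inl (a.trans b)
    · exact Or.inl (b.1 ▸ a)
    · exact Or.inl (a.1 ▸ b)
    · exact Or.inr ⟨a.1.trans b.1, a.2.trans b.2⟩
  have ir : ∀ p, ¬ r p p := by
    rintro p (a | a)
    · exact lt_irrefl _ a
    · exact lx_irrefl x p a.2
  have asym : ∀ p q, r p q → ¬ r q p := fun p q a b => ir p (tr _ _ _ a b)
  have tri : ∀ p q, p ≠ q → r p q ∨ r q p := by
    intro p q h
    rcases lt_trichotomy (κ p) (κ q) with c | c | c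
    · exact Or.inl (Or.inl c)
    · exact (lx_tri' hp h).imp (fun a => Or.inr ⟨c, a⟩) (fun a => Or.inr ⟨c.symm, a⟩)
    · exact Or.inr (Or.inl c)
  have le : ∀ p q, r p q → κ p ≤ κ q := fun p q a => a.elim le_of_lt (fun a => a.1.le)
  have sh : ∀ p q, x p = x q → r p q → r (p + 1) (q + 1) := by
    rintro p q e (a | a)
    · exact Or.inl (by rw [h1, h1, e]; exact hT (A.mono _ a))
    · refine Or.inr ⟨by rw [h1, h1, e, a.1], ?_⟩
      simpa using a.2.shift (t := 1) (fun s hs => by
        have : s = 0 := by omega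
        simpa [this] using e)
  have : IsTrans (ZMod n) r := ⟨tr⟩
  have : Std.Irrefl r := ⟨ir⟩
  have : IsTrans (ZMod n) (fun a b => r b a) := ⟨fun _ _ _ a b => tr _ _ _ b a⟩
  have : Std.Irrefl (fun a b => r b a) := ⟨ir⟩
  obtain ⟨Q, -, hQ⟩ := (Finite.wellFounded_of_trans_of_irrefl r).has_min Set.univ ⟨0, trivial⟩
  obtain ⟨P, -, hP⟩ :=
    (Finite.wellFounded_of_trans_of_irrefl (fun a b => r b a)).has_min Set.univ ⟨0, trivial⟩
  let α : Bool × ZMod n → Y := fun c => if c.1 then κ c.2 else A.act (x c.2)⁻¹ (κ c.2)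
  let β : Bool × ZMod n → Y := fun c => if c.1 then A.act (x c.2)⁻¹ (κ c.2) else κ c.2
  have hab : ∀ c, A.act (cl x c) (β c) = α c := by
    rintro ⟨b, i⟩
    cases b <;> simp [α, β, cl, ← A.mul, A.one]
  have hL' : ∀ c, cl x c ≠ 1 := by
    rintro ⟨b, i⟩
    cases b
    · exact (hL i).inv.1
    · exact (hL i).1
  have E3 : ∀ s (h l : Bool × ZMod n), h.1 ≠ l.1 → cl x h * cl x l = 1 →
      Rs r s (jn h) (jn (ci l)) → ¬ Rs r s (jn l) (jn (ci h)) := by
    rintro s ⟨b, i⟩ ⟨b', k⟩ e1 e2 e3 e4
    cases b <;> cases b' <;> simp only [ne_eq, not_true] at e1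
    · have e : x i = x k := by simpa [cl, inv_mul_eq_one] using e2
      cases s <;> simp only [Rs, jn, ci, Bool.not_true, Bool.not_false, if_true,
        Bool.false_eq_true, if_false] at e3 e4
      · exact asym _ _ (sh _ _ e e3) e4
      · exact asym _ _ (sh _ _ e.symm e3) e4
    · have e : x i = x k := by simpa [cl, mul_inv_eq_one] using e2
      cases s <;> simp only [Rs, jn, ci, Bool.not_true, Bool.not_false, if_true,
        Bool.false_eq_true, if_false] at e3 e4
      · exact asym _ _ (sh _ _ e.symm e4) e3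
      · exact asym _ _ (sh _ _ e e4) e3
  refine cyc_ord hF x hL hf r tri asym P Q
    (fun q hq => (tri q P hq).resolve_right (hP q trivial))
    (fun q hq => (tri q Q hq).resolve_left (hQ q trivial)) ?_
  intro s h l d k hu hc
  cases s
  · refine op_abs A.dual x _ false α β hab ?_ ?_ (E3 false) hL' hu hc
    · rintro ⟨b, i⟩ ⟨b', k⟩ e1 e2
      have := le _ _ e1
      change β _ ≤ α _
      cases b <;> cases b' <;> simp only [jn, ci, α, β, Bool.not_true, Bool.not_false, if_true,
        Bool.false_eq_true, if_false, and_self, not_true] at this e2 ⊢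
      · exact this
      · rw [h1, h1] at this; exact hT.le_iff_le.1 this
      · exact (h2 i).le.trans this
    · rintro ⟨b, i⟩ ⟨b', k⟩ e1 e2 e3
      have := le _ _ e1
      change β _ < α _
      cases b <;> cases b' <;> simp only [jn, ci, α, β, Bool.not_true, Bool.not_false, if_true,
        Bool.false_eq_true, if_false, ne_eq, not_true] at this e2 e3 ⊢
      exact (h2 i).trans_le this
  · refine op_abs A x _ true α β hab ?_ ?_ (E3 true) hL' hu hc
    · rintro ⟨b, i⟩ ⟨b', k⟩ e1 e2
      have := le _ _ e1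
      cases b <;> cases b' <;> simp only [jn, ci, α, β, Bool.not_true, Bool.not_false, if_true,
        Bool.false_eq_true, if_false, and_self, not_true] at this e2 ⊢
      · exact (h2 k).le.trans this
      · exact this
      · rw [h1, h1] at this; exact hT.le_iff_le.1 this
    · rintro ⟨b, i⟩ ⟨b', k⟩ e1 e2 e3
      have := le _ _ e1
      cases b <;> cases b' <;> simp only [jn, ci, α, β, Bool.not_true, Bool.not_false, if_true,
        Bool.false_eq_true, if_false, ne_eq, not_true] at this e2 e3 ⊢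
      exact (h2 k).trans_le this

/-- history of a periodic orbit -/
def hist {Y : Type*} [LinearOrder Y] (A : OAct G Y) (x : ZMod n → G) (y : ZMod n → Y) :
    ℕ → ZMod n → Y
  | 0, p => y p
  | j + 1, p => A.act (x (p - 1))⁻¹ (hist A x y j (p - 1))

theorem fr_orbit [NeZero n] {Y : Type*} [LinearOrder Y] (A : OAct G Y) (hF : FP H)
    (x : ZMod n → G) (hL : ∀ i, IsL H (x i)) (hf : ∀ i, fac H (x (i + 1)) ≠ fac H (x i))
    (hp : ∀ d : ZMod n, d ≠ 0 → ∃ i, x (i + d) ≠ x i) (y : ZMod n → Y) (s : Y)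
    (h1 : ∀ i, y (i + 1) = max (A.act (x i)⁻¹ (y i)) s)
    (h2 : ∃ i, y (i + 1) ≠ A.act (x i)⁻¹ (y i)) : Fr H x := by
  classical
  let T : Lex (ℕ → Y) → Lex (ℕ → Y) := fun z =>
    toLex (fun j => Nat.casesOn j (max (ofLex z 0) s) (fun j => ofLex z j))
  have dec : ∀ j p, hist A x y (j + 1) p ≤ hist A x y j p := by
    intro j
    induction j with
    | zero =>
      intro p
      have := h1 (p - 1)
      rw [sub_add_cancel] at this
      simp only [hist]
      rw [this]; exact le_max_left _ _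
    | succ j ih => intro p; exact (A.mono _).monotone (ih (p - 1))
  have back : ∀ j p, hist A x y (j + 1) p = hist A x y j p →
      hist A x y 1 (p - j) = hist A x y 0 (p - j) := by
    intro j
    induction j with
    | zero => intro p h; simpa using h
    | succ j ih =>
      intro p h
      have := ih (p - 1) ((A.mono _).injective h)
      rw [Nat.cast_succ, show p - ((j : ZMod n) + 1) = p - 1 - j by ring]
      exact this
  refine fr_key A.seq hF x hL hf hp (fun p => toLex (fun j => hist A x y j p)) T ?_ ?_ ?_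
  · rintro z z' ⟨i, a1, a2⟩
    have z0 : ofLex z 0 ≤ ofLex z' 0 := by
      rcases Nat.eq_zero_or_pos i with rfl | c
      · exact a2.le
      · exact (a1 0 c).le
    rcases (max_le_max_right s z0).lt_or_eq with c | c
    · exact ⟨0, fun j hj => absurd hj (Nat.not_lt_zero j), c⟩
    · refine ⟨i + 1, fun j hj => ?_, a2⟩
      cases j with
      | zero => exact c
      | succ j => exact a1 j (by omega)
  · intro i
    refine congrArg toLex (funext fun j => ?_)
    cases j with
    | zero => exact h1 i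
    | succ j => simp [hist, OAct.seq]
  · intro i
    have ex : ∃ j, hist A x y (j + 1) (i + 1) ≠ hist A x y j (i + 1) := by
      obtain ⟨t, ht⟩ := h2
      refine ⟨(i - t).val, fun e => ht ?_⟩
      have := back _ _ e
      rw [ZMod.natCast_zmod_val, show i + 1 - (i - t) = t + 1 by ring] at this
      simpa [hist] using this.symm
    refine ⟨Nat.find ex, fun j hj => ?_, ?_⟩
    · have := Nat.find_min ex hj
      simpa [hist, OAct.seq] using this
    · have := lt_of_le_of_ne (dec _ _) (Nat.find_spec ex)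
      simpa [hist, OAct.seq] using this

theorem fr_up [NeZero n] {Y : Type*} [LinearOrder Y] (A : OAct G Y) (hF : FP H)
    (x : ZMod n → G) (hL : ∀ i, IsL H (x i)) (hf : ∀ i, fac H (x (i + 1)) ≠ fac H (x i))
    (hp : ∀ d : ZMod n, d ≠ 0 → ∃ i, x (i + d) ≠ x i) (y0 : Y)
    (h0 : y0 < A.act (wd (· + 1) x n 0) y0) : Fr H x := by
  classical
  let g : ℕ → G := fun t => wd (· + 1) x t 0
  have it : ∀ t : ℕ, (· + 1)^[t] (0 : ZMod n) = t := by
    intro t
    induction t with
    | zero => simp
    | succ t ih => rw [Function.iterate_succ_apply', ih]; simp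
  have gs : ∀ t, g (t + 1) = g t * x t := fun t => by simp only [g]; rw [wd_succ', it]
  let e : ℕ → Y := fun t => A.act (g t)⁻¹ (A.act (g n) y0)
  have es : ∀ t, e (t + 1) = A.act (x t)⁻¹ (e t) := fun t => by
    simp only [e]; rw [gs, mul_inv_rev, A.mul]
  have en : e n = y0 := by simp only [e]; rw [← A.mul, inv_mul_cancel, A.one]
  obtain ⟨q, q1, q2⟩ := (Finset.range n).exists_min_image (fun t => e (t + 1))
    ⟨0, by simpa using NeZero.pos n⟩
  let s := e (q + 1)
  let Z : ℕ → Y := fun t => Nat.rec y0 (fun t z => max (A.act (x t)⁻¹ z) s) t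
  have Zs : ∀ t, Z (t + 1) = max (A.act (x t)⁻¹ (Z t)) s := fun t => rfl
  have up : ∀ t, t ≤ n → Z t ≤ e t := by
    intro t
    induction t with
    | zero => intro _; change y0 ≤ _; simpa [e, g, wd, A.one] using h0.le
    | succ t ih =>
      intro ht
      rw [Zs]
      exact max_le (es t ▸ (A.mono _).monotone (ih (by omega))) (q2 t (by simpa using ht))
  have lo : ∀ t, e (q + 1 + t) ≤ Z (q + 1 + t) := by
    intro t
    induction t with
    | zero => exact le_max_right _ _
    | succ t ih =>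
      rw [← Nat.add_assoc, Zs, es]
      exact ((A.mono _).monotone ih).trans (le_max_left _ _)
  have Zn : Z n = y0 := by
    have a := lo (n - (q + 1))
    rw [Nat.add_sub_cancel' (by simpa using q1)] at a
    exact le_antisymm (en ▸ up n le_rfl) (en ▸ a)
  have zv : ∀ i : ZMod n, Z (i + 1).val = Z (i.val + 1) := by
    intro i
    rcases val_succ i with k | k
    · rw [k]
    · rw [k.1, k.2, Zn]; rfl
  refine fr_orbit A hF x hL hf hp (fun i => Z i.val) s (fun i => by
    rw [zv, Zs, ZMod.natCast_zmod_val]) ?_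
  by_contra c
  push Not at c
  have : ∀ t, t ≤ n → A.act (g t) (Z t) = y0 := by
    intro t
    induction t with
    | zero => intro _; exact A.one y0
    | succ t ih =>
      intro ht
      have := c t
      rw [zv, ZMod.val_cast_of_lt (by omega)] at this
      rw [this, gs, ← A.mul, mul_inv_cancel_right, ih (by omega)]
  have := this n le_rfl
  rw [Zn] at this
  exact h0.ne' this

theorem fr_act [NeZero n] {Y : Type*} [LinearOrder Y] (A : OAct G Y) (hF : FP H)
    (x : ZMod n → G) (hL : ∀ i, IsL H (x i)) (hf : ∀ i, fac H (x (i + 1)) ≠ fac H (x i))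
    (hp : ∀ d : ZMod n, d ≠ 0 → ∃ i, x (i + d) ≠ x i) (y0 : Y)
    (h0 : A.act (wd (· + 1) x n 0) y0 ≠ y0) : Fr H x := by
  rcases lt_or_gt_of_ne h0 with c | c
  · exact fr_up A.dual hF x hL hf hp y0 c
  · exact fr_up A hF x hL hf hp y0 c

end Pool.Agent.MP_a38735_al
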