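import Pool.Agent.MP_a38735_al.Cyc

set_option autoImplicit false

namespace Pool.Agent.MP_a38735_al

open List

variable {G : Type*} [Group G] {H : Bool → Subgroup G} {n : ℕ}

/-- the inverse corner -/
def ci (c : Bool × ZMod n) : Bool × ZMod n := (!c.1, c.2)
/-- the junction after a corner -/
def jn (c : Bool × ZMod n) : ZMod n := if c.1 then c.2 + 1 else c.2

@[simp] theorem ci_ci (c : Bool × ZMod n) : ci (ci c) = c := by
  obtain ⟨b, i⟩ := c; simp [ci]
@[simp] theorem cn_ci_cn (c : Bool × ZMod n) : cn (ci (cn c)) = ci c := by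
  obtain ⟨b, i⟩ := c; cases b <;> simp [ci, cn]
@[simp] theorem jn_ci_cn (c : Bool × ZMod n) : jn (ci (cn c)) = jn c := by
  obtain ⟨b, i⟩ := c; cases b <;> simp [ci, cn, jn]
@[simp] theorem cl_ci (x : ZMod n → G) (c : Bool × ZMod n) : cl x (ci c) = (cl x c)⁻¹ := by
  obtain ⟨b, i⟩ := c; cases b <;> simp [ci, cl]
theorem ci_inj {c d : Bool × ZMod n} (h : ci c = ci d) : c = d := by
  simpa using congrArg ci h
theorem cn_inj {c d : Bool × ZMod n} (h : cn c = cn d) : c = d := by
  have := congrArg (fun c => ci (cn (ci c))) h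
  simpa using this
@[simp] theorem ci_fst (c : Bool × ZMod n) : (ci c).1 = !c.1 := rfl
@[simp] theorem cn_fst (c : Bool × ZMod n) : (cn c).1 = c.1 := rfl

/-- standing hypotheses on a cyclic word -/
structure Cy (H : Bool → Subgroup G) (x : ZMod n → G) : Prop where
  hL : ∀ i, IsL H (x i)
  hf : ∀ i, fac H (x (i + 1)) ≠ fac H (x i)
  h2 : ∀ i, x i * x i ≠ 1
  h3 : ∀ i, x i * x i * x i ≠ 1
  prim : ∀ d : ZMod n, d ≠ 0 → ∃ i, x (i + d) ≠ x i

/-- the Freiheitssatz for all powers `m ≥ 2` of the cyclic word -/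
def Fr (H : Bool → Subgroup G) (x : ZMod n → G) : Prop :=
  ∀ m : ℕ, 2 ≤ m → ∀ (b : Bool) (a : G), a ∈ H b →
    a ∈ Subgroup.normalClosure ({wd (· + 1) x n 0 ^ m} : Set G) → a = 1

theorem fac_cn {x : ZMod n → G} (hf : ∀ i, fac H (x (i + 1)) ≠ fac H (x i)) (c : Bool × ZMod n) :
    fac H (cl x (cn c)) ≠ fac H (cl x c) := by
  obtain ⟨b, i⟩ := c; cases b
  · have := hf (i - 1)
    simp only [sub_add_cancel] at this
    simpa [cn, cl, fac_inv] using this.symm
  · simpa [cn, cl] using hf i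

theorem fac_cn_eq {x : ZMod n → G} (hf : ∀ i, fac H (x (i + 1)) ≠ fac H (x i))
    {c d : Bool × ZMod n} (h : fac H (cl x c) = fac H (cl x d)) :
    fac H (cl x (cn c)) = fac H (cl x (cn d)) :=
  bool_ne_ne (fac_cn hf c) (h ▸ (fac_cn hf d).symm)

theorem ms_sum {Ω : Type*} (nxt : Ω → Ω) (mk : Ω → ℚ) (t : ℕ) (c : Ω) :
    ms nxt mk t c = ∑ s ∈ Finset.range t, mk (nxt^[s] c) := by
  induction t generalizing c with
  | zero => simp [ms]
  | succ t ih => rw [ms, ih, Finset.sum_range_succ', add_comm]; simp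

theorem sum_shift [NeZero n] (μ : ZMod n → ℚ) (f : ZMod n → ZMod n) (hf : Function.Bijective f) :
    ∑ s ∈ Finset.range n, μ (f s) = ∑ j, μ j := by
  rw [← Function.Bijective.sum_comp hf μ]
  refine Finset.sum_nbij' (fun s => (s : ZMod n)) (fun j => j.val) (by simp)
    (fun j _ => by simpa using ZMod.val_lt j) ?_ (by simp) (by simp)
  intro s hs
  exact ZMod.val_cast_of_lt (by simpa using hs)

theorem cyc_phi [NeZero n] (hF : FP H) (x : ZMod n → G) (hL : ∀ i, IsL H (x i))
    (hf : ∀ i, fac H (x (i + 1)) ≠ fac H (x i)) (μ : ZMod n → ℚ) (hμ : 2 ≤ ∑ j, μ j)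
    (φ : Bool × ZMod n → Bool × ZMod n → ℚ)
    (edge : ∀ a a', fac H (cl x a) = fac H (cl x a') → a ≠ a' →
      μ (jn a) + μ (jn a') ≤ φ a a' + φ (ci (cn a')) (ci (cn a)))
    (le1 : ∀ a a', fac H (cl x a) = fac H (cl x a') → a ≠ a' → φ a a' ≤ 1)
    (v2 : ∀ a a', a ≠ a' → cl x a = cl x a' → φ a a' + φ (ci a') (ci a) ≤ 0)
    (v3 : ∀ c d e, fac H (cl x c) = fac H (cl x d) → fac H (cl x d) = fac H (cl x e) →
      d ≠ ci c → e ≠ ci d → c ≠ ci e → cl x c * cl x d * cl x e = 1 →
      φ c (ci d) + φ d (ci e) + φ e (ci c) ≤ 2) : Fr H x := by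
  intro m hm b a ha hn
  have per : ∀ c : Bool × ZMod n, cn^[n] c = c := by
    rintro ⟨b, i⟩; rw [cn_iter]; simp
  have perN : ∀ c : Bool × ZMod n, cn^[n * m] c = c := by
    rintro ⟨b, i⟩; rw [cn_iter]; simp
  have e0 : ∀ t i, wd cn (cl x) t (true, i) = wd (· + 1) x t i := by
    intro t
    induction t with
    | zero => simp [wd]
    | succ t ih => intro i; simp [wd, cl, cn, ih]
  have e1 : wd (· + 1) x n 0 ^ m = wd cn (cl x) (n * m) (true, 0) := by
    rw [wd_mul _ _ _ _ _ (per _), e0]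
  have rinv : ∀ c : Bool × ZMod n, wd cn (cl x) (n * m) (ci c) *
      wd cn (cl x) (n * m) (cn c) = 1 := by
    intro c
    have := wd_inv cn ci (cl x) cn_ci_cn (cl_ci x) (n * m) c
    rwa [perN] at this
  have cpos : ∀ i, IsConj (wd (· + 1) x n 0 ^ m) (wd cn (cl x) (n * m) (true, i)) := by
    intro i
    have := wd_conj cn (cl x) (n * m) perN i.val (true, 0)
    rw [cn_iter] at this
    simpa [e1] using this
  have cneg : ∀ i, IsConj (wd (· + 1) x n 0 ^ m)⁻¹ (wd cn (cl x) (n * m) (false, i)) := by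
    intro i
    have h1 := rinv (true, i)
    have h2 := cpos (i + 1)
    have h3 : wd cn (cl x) (n * m) (false, i) = (wd cn (cl x) (n * m) (true, i + 1))⁻¹ :=
      eq_inv_of_mul_eq_one_left (by simpa [cn, ci] using h1)
    rw [h3]
    obtain ⟨u, hu⟩ := isConj_iff.1 h2
    exact isConj_iff.2 ⟨u, by rw [← hu]; group⟩
  have ne1 : ∀ c d : Bool × ZMod n, d ≠ ci c → c ≠ ci d := fun c d h e => h (by simp [e])
  let S : Sys H (Bool × ZMod n) (wd (· + 1) x n 0 ^ m) :=
    { nxt := cn, inv := ci, lab := cl x, sgn := Prod.fst, N := n * m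
      mark := fun c => μ (jn (ci c)), ψ := fun c d => φ c (ci d)
      hN := Nat.mul_pos (NeZero.pos n) (by omega)
      per := perN
      labL := by
        rintro ⟨b, i⟩; cases b
        · exact (hL i).inv
        · exact hL i
      fac_nxt := fac_cn hf
      sgn_nxt := fun c => rfl
      sgn_inv := by rintro ⟨b, i⟩; cases b <;> simp
      R_inv := rinv
      inv_nxt := by
        intro c c' h
        rw [← ci_ci c', ← h, cn_ci_cn]
      R_conj := by
        rintro ⟨b, i⟩; cases b
        · exact Or.inr (cneg i)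
        · exact Or.inl (cpos i)
      ex_pos := ⟨_, cpos 0⟩
      ex_neg := ⟨_, cneg 0⟩
      face := by
        intro c
        rw [ms_mul _ _ _ _ _ (per c), ms_sum]
        have : ∑ s ∈ Finset.range n, μ (jn (ci (cn^[s] c))) = ∑ j, μ j := by
          obtain ⟨b, i⟩ := c
          cases b
          · rw [← sum_shift μ (fun s => i + 1 - s) (Equiv.subLeft (i + 1)).bijective]
            refine Finset.sum_congr rfl fun s _ => ?_
            rw [cn_iter]; simp [jn, ci]; congr 1; ring
          · rw [← sum_shift μ (fun s => i + s) (Equiv.addLeft i).bijective]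
            refine Finset.sum_congr rfl fun s _ => ?_
            rw [cn_iter]; simp [jn, ci]
        rw [this]
        have : (2 : ℚ) ≤ m := by exact_mod_cast hm
        nlinarith
      edge := by
        intro c c' h1 h2 _
        have := edge c (ci (cn c')) (by
          rw [cl_ci, fac_inv]; exact bool_ne_ne h1 (fac_cn hf c').symm) (ne1 _ _ h2)
        simpa using this
      le1 := fun c c' h1 h2 => le1 c (ci c') (by rw [cl_ci, fac_inv]; exact h1) (ne1 _ _ h2)
      v2 := by
        intro c c' _ h2 _ h4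
        have := v2 c (ci c') (ne1 _ _ h2) (by rw [cl_ci]; exact eq_inv_of_mul_eq_one_left h4)
        simpa using this
      v3 := v3 }
  exact S.freiheit hF ha hn

end Pool.Agent.MP_a38735_al
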