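import Pool.Agent.MP_a38735_al.DGauss
import Pool.Agent.MP_a38735_al.Phi

set_option autoImplicit false

namespace Pool.Agent.MP_a38735_al

open List

variable {G : Type*} [Group G] {H : Bool → Subgroup G} {n : ℕ}

/-- certificate with a vertex bound in every degree -/
theorem cyc_psi [NeZero n] (hF : FP H) (x : ZMod n → G) (hL : ∀ i, IsL H (x i))
    (hf : ∀ i, fac H (x (i + 1)) ≠ fac H (x i)) (μ : ZMod n → ℚ) (hμ : 2 ≤ ∑ j, μ j)
    (φ : Bool × ZMod n → Bool × ZMod n → ℚ)
    (edge : ∀ a a', fac H (cl x a) = fac H (cl x a') → a ≠ a' →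
      μ (jn a) + μ (jn a') ≤ φ a a' + φ (ci (cn a')) (ci (cn a)))
    (close : ∀ h l d v J, Cmp H ci (cl x) (fun c d => φ c (ci d)) h l d v J → v = 1 → h ≠ ci l →
      J + φ l (ci h) ≤ -2)
    (close' : ∀ h l d v J, Cmp H ci (cl x) (fun c d => φ c (ci d)) h l d v J → h ≠ ci l →
      J + φ l (ci h) ≤ 2) : Fr H x := by
  intro m hm b a ha hn
  have per : ∀ c : Bool × ZMod n, cn^[n] c = c := by
    rintro ⟨b, i⟩; rw [cn_iter]; simp
  have perN : ∀ c : Bool × ZMod n, cn^[n * m] c = c := by
    rintro ⟨b, i⟩; rw [cn_iter]; simp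
  have e0 : ∀ t i, wd cn (cl x) t (true, i) = wd (· + 1) x t i := by
    intro t
    induction t with
    | zero => simp [wd]
    | succ t ih => intro i; simp [wd, cl, cn, ih]
  have e1 : wd (· + 1) x n 0 ^ m = wd cn (cl x) (n * m) (true, 0) := by
    rw [wd_mul _ _ _ _ _ (per _), e0]
  have rinv : ∀ c : Bool × ZMod n, wd cn (cl x) (n * m) (ci c) *
      wd cn (cl x) (n * m) (cn c) = 1 := by
    intro c
    have := wd_inv cn ci (cl x) cn_ci_cn (cl_ci x) (n * m) c
    rwa [perN] at this
  have cpos : ∀ i, IsConj (wd (· + 1) x n 0 ^ m) (wd cn (cl x) (n * m) (true, i)) := by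
    intro i
    have := wd_conj cn (cl x) (n * m) perN i.val (true, 0)
    rw [cn_iter] at this
    simpa [e1] using this
  have cneg : ∀ i, IsConj (wd (· + 1) x n 0 ^ m)⁻¹ (wd cn (cl x) (n * m) (false, i)) := by
    intro i
    have h1 := rinv (true, i)
    have h2 := cpos (i + 1)
    have h3 : wd cn (cl x) (n * m) (false, i) = (wd cn (cl x) (n * m) (true, i + 1))⁻¹ :=
      eq_inv_of_mul_eq_one_left (by simpa [cn, ci] using h1)
    rw [h3]
    obtain ⟨u, hu⟩ := isConj_iff.1 h2
    exact isConj_iff.2 ⟨u, by rw [← hu]; group⟩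
  have ne1 : ∀ c d : Bool × ZMod n, d ≠ ci c → c ≠ ci d := fun c d h e => h (by simp [e])
  let S : Sy2 H (Bool × ZMod n) (wd (· + 1) x n 0 ^ m) :=
    { nxt := cn, inv := ci, lab := cl x, sgn := Prod.fst, N := n * m
      mark := fun c => μ (jn (ci c)), ψ := fun c d => φ c (ci d)
      hN := Nat.mul_pos (NeZero.pos n) (by omega)
      per := perN
      labL := by
        rintro ⟨b, i⟩; cases b
        · exact (hL i).inv
        · exact hL i
      fac_nxt := fac_cn hf
      sgn_nxt := fun c => rfl
      sgn_inv := by rintro ⟨b, i⟩; cases b <;> simp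
      R_inv := rinv
      inv_nxt := by
        intro c c' h
        rw [← ci_ci c', ← h, cn_ci_cn]
      R_conj := by
        rintro ⟨b, i⟩; cases b
        · exact Or.inr (cneg i)
        · exact Or.inl (cpos i)
      ex_pos := ⟨_, cpos 0⟩
      ex_neg := ⟨_, cneg 0⟩
      face := by
        intro c
        rw [ms_mul _ _ _ _ _ (per c), ms_sum]
        have : ∑ s ∈ Finset.range n, μ (jn (ci (cn^[s] c))) = ∑ j, μ j := by
          obtain ⟨b, i⟩ := c
          cases b
          · rw [← sum_shift μ (fun s => i + 1 - s) (Equiv.subLeft (i + 1)).bijective]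
            refine Finset.sum_congr rfl fun s _ => ?_
            rw [cn_iter]; simp [jn, ci]; congr 1; ring
          · rw [← sum_shift μ (fun s => i + s) (Equiv.addLeft i).bijective]
            refine Finset.sum_congr rfl fun s _ => ?_
            rw [cn_iter]; simp [jn, ci]
        rw [this]
        have : (2 : ℚ) ≤ m := by exact_mod_cast hm
        nlinarith
      edge := by
        intro c c' h1 h2 _
        have := edge c (ci (cn c')) (by
          rw [cl_ci, fac_inv]; exact bool_ne_ne h1 (fac_cn hf c').symm) (ne1 _ _ h2)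
        simpa using this
      close := close
      close' := close' }
  exact S.freiheit hF ha hn

/-- chains all of whose arcs satisfy `R`; `k` counts the corners of orientation `s` -/
inductive Un (x : ZMod n → G) (R : ZMod n → ZMod n → Prop) (s : Bool) (h : Bool × ZMod n) :
    Bool × ZMod n → ℕ → G → ℕ → Prop
  | one : Un x R s h h 1 (cl x h) (if h.1 = s then 1 else 0)
  | snoc (l c : Bool × ZMod n) (d : ℕ) (v : G) (k : ℕ) : Un x R s h l d v k →
      R (jn l) (jn (ci c)) → Un x R s h c (d + 1) (v * cl x c) (k + if c.1 = s then 1 else 0)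

/-- the arc relation of sign `s` of an order -/
def Rs (r : ZMod n → ZMod n → Prop) (s : Bool) (p q : ZMod n) : Prop :=
  if s then r q p else r p q

/-- numerical value of a Boolean -/
def bq (b : Bool) : ℚ := if b then 1 else 0

/-- contribution of a side -/
def sd (χ : ZMod n → ℚ) (c : Bool × ZMod n) (b : Bool) : ℚ :=
  2 * (if c.1 then -1 else 1) * χ c.2 * bq b

theorem sd_cost (χ : ZMod n → ℚ) (h0 : ∀ i, 0 ≤ χ i) (h1 : ∀ i, χ i ≤ 1) (c : Bool × ZMod n)
    (e g : Bool) : sd χ (ci c) (!e) + sd χ c g ≤ if e = g ∧ c.1 ≠ g then 2 else 0 := by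
  obtain ⟨b, i⟩ := c
  have := h0 i
  have := h1 i
  cases b <;> cases e <;> cases g <;> simp [sd, bq, ci] <;> linarith

theorem jn_ne {x : ZMod n → G} (hf : ∀ i, fac H (x (i + 1)) ≠ fac H (x i)) {a a' : Bool × ZMod n}
    (h : fac H (cl x a) = fac H (cl x a')) (hne : a ≠ a') : jn a ≠ jn a' := by
  obtain ⟨b, i⟩ := a
  obtain ⟨b', i'⟩ := a'
  intro e
  cases b <;> cases b' <;> simp only [jn, cl, fac_inv, if_true, Bool.false_eq_true, if_false] at e h
  · exact hne (by rw [e])
  · exact hf i' (by rw [← e, h])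
  · exact hf i (by rw [e, h])
  · exact hne (by rw [add_right_cancel e])

theorem cyc_ord [NeZero n] (hF : FP H) (x : ZMod n → G) (hL : ∀ i, IsL H (x i))
    (hf : ∀ i, fac H (x (i + 1)) ≠ fac H (x i)) (r : ZMod n → ZMod n → Prop)
    (tri : ∀ p q, p ≠ q → r p q ∨ r q p) (asym : ∀ p q, r p q → ¬ r q p)
    (P Q : ZMod n) (hP : ∀ q, q ≠ P → r q P) (hQ : ∀ q, q ≠ Q → r Q q)
    (op : ∀ s h l d k, Un x (Rs r s) s h l d 1 k → Rs r s (jn l) (jn (ci h)) → 2 ≤ k) :
    Fr H x := by
  classical
  have hPQ : P ≠ Q := by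
    intro e
    have h1 : P + 1 ≠ P := fun e => hf P (by rw [e])
    exact asym _ _ (hP _ h1) (by rw [e] at h1 ⊢; exact hQ _ h1)
  let χ : ZMod n → ℚ := cc P Q
  have h0 : ∀ i, 0 ≤ χ i := fun i => by simp only [χ, cc]; split_ifs <;> norm_num
  have h1 : ∀ i, χ i ≤ 1 := fun i => by simp only [χ, cc]; split_ifs <;> norm_num
  let st : ZMod n → ZMod n → Bool := fun p q => decide (r q p)
  let φ : Bool × ZMod n → Bool × ZMod n → ℚ := fun a a' =>
    sd χ a (st (jn a) (jn a')) + sd χ a' (st (jn a') (jn a))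
  have stn : ∀ p q, p ≠ q → st q p = !st p q := by
    intro p q h
    rcases tri p q h with c | c
    · simp [st, c, asym _ _ c]
    · simp [st, c, asym _ _ c]
  have side : ∀ (a : Bool × ZMod n) (q : ZMod n), jn a ≠ q →
      (if jn a = P then 2 else 0 : ℚ) ≤ sd χ a (st (jn a) q) + sd χ (ci (cn a)) (st (jn a) q) := by
    intro a q hq
    have key : sd χ a (st (jn a) q) + sd χ (ci (cn a)) (st (jn a) q) =
        2 * (χ (jn a) - χ (jn a - 1)) * bq (st (jn a) q) := by
      obtain ⟨b, i⟩ := a
      cases b <;> simp [sd, ci, cn, jn] <;> ring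
    rw [key]
    generalize jn a = j at hq
    by_cases e : j = P
    · subst e
      have a1 : χ j = 1 := by
        have : 0 < (Q - j).val := by
          rw [ZMod.val_pos]; exact sub_ne_zero.2 hPQ.symm
        simp [χ, cc, this]
      have a2 : χ (j - 1) = 0 := by
        have e1 : j - 1 - j = -1 := by ring
        have := ZMod.val_lt (Q - j)
        have e2 : (-1 : ZMod n).val + 1 = n := by
          rcases val_succ (-1 : ZMod n) with k | k
          · simp at k
          · exact k.2
        simp only [χ, cc, e1]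
        rw [if_neg (by omega)]
      simp [a1, a2, st, hP q hq.symm, bq]
    · rw [if_neg e]
      by_cases c : χ j < χ (j - 1)
      · have : j = Q := by
          have := cc_down (P := P) (Q := Q) (i := j - 1) (by simpa using c)
          simpa using this
        subst this
        simp [st, asym _ _ (hQ q hq.symm), bq]
      · have : 0 ≤ bq (st j q) := by unfold bq; split_ifs <;> norm_num
        have : 0 ≤ χ j - χ (j - 1) := by linarith
        positivity
  have arc : ∀ l c : Bool × ZMod n, c ≠ ci l → fac H (cl x l) = fac H (cl x c) →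
      ∃ g, φ l (ci c) = sd χ l g + sd χ (ci c) (!g) ∧ Rs r g (jn l) (jn (ci c)) := by
    intro l c k1 k2
    have ne : jn l ≠ jn (ci c) :=
      jn_ne hf (by rw [cl_ci, fac_inv]; exact k2) (fun e => k1 (by simp [e]))
    refine ⟨st (jn l) (jn (ci c)), by simp only [φ]; rw [stn _ _ ne], ?_⟩
    rcases tri _ _ ne with c | c
    · simp [Rs, st, c, asym _ _ c]
    · simp [Rs, st, c]
  have inv : ∀ h l d v J, Cmp H ci (cl x) (fun c d => φ c (ci d)) h l d v J →
      fac H (cl x h) = fac H (cl x l) ∧
      ((l = h ∧ d = 1 ∧ J = 0 ∧ v = cl x h) ∨ ∃ f e : Bool,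
        (f = e ∧ J - sd χ h f - sd χ (ci l) (!e) ≤ -2 ∧ ∃ k, Un x (Rs r f) f h l d v k ∧
          J - sd χ h f - sd χ (ci l) (!e) ≤ -2 - 2 * ((k : ℚ) - (if h.1 = f then 1 else 0) -
            (if l.1 = f then 1 else 0))) ∨
        (f ≠ e ∧ J - sd χ h f - sd χ (ci l) (!e) ≤ -4) ∨
        (f = e ∧ J - sd χ h f - sd χ (ci l) (!e) ≤ -6)) := by
    intro h l d v J hc
    induction hc with
    | one => exact ⟨rfl, Or.inl ⟨rfl, rfl, rfl, rfl⟩⟩
    | snoc l c d v J _ k1 k2 ih =>
      obtain ⟨g, e1, e2⟩ := arc l c k1 k2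
      refine ⟨ih.1.trans k2, Or.inr ?_⟩
      simp only [e1]
      rcases ih.2 with ⟨rfl, rfl, rfl, rfl⟩ | ⟨f, e, ih⟩
      · refine ⟨g, g, Or.inl ⟨rfl, by linarith, _, Un.snoc _ _ _ _ _ Un.one e2, ?_⟩⟩
        push_cast
        linarith
      · have cost := sd_cost χ h0 h1 l e g
        refine ⟨f, g, ?_⟩
        rcases ih with ⟨rfl, a1, k, a2, a3⟩ | ⟨a0, a1⟩ | ⟨rfl, a1⟩
        · by_cases c : f = g
          · subst c
            refine Or.inl ⟨rfl, ?_, _, Un.snoc _ _ _ _ _ a2 e2, ?_⟩
            · split_ifs at cost <;> linarith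
            · push_cast
              by_cases c : l.1 = f
              · simp only [c, ne_eq, not_true, and_false, if_false, if_true] at cost a3
                linarith
              · simp only [c, ne_eq, not_false_iff, and_true, if_false, if_true] at cost a3
                linarith
          · refine Or.inr (Or.inl ⟨c, ?_⟩)
            rw [if_neg (fun e => c e.1)] at cost
            linarith
        · by_cases c : f = g
          · refine Or.inr (Or.inr ⟨c, ?_⟩)
            rw [if_neg (fun e => a0 (c.trans e.1.symm))] at cost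
            linarith
          · refine Or.inr (Or.inl ⟨c, ?_⟩)
            split_ifs at cost <;> linarith
        · by_cases c : f = g
          · refine Or.inr (Or.inr ⟨c, ?_⟩)
            split_ifs at cost <;> linarith
          · refine Or.inr (Or.inl ⟨c, ?_⟩)
            split_ifs at cost <;> linarith
  refine cyc_psi hF x hL hf (fun j => if j = P then 2 else 0) (by simp) φ ?_ ?_ ?_
  · intro a a' k1 k2
    have ne := jn_ne hf k1 k2
    have s1 := side a _ ne
    have s2 := side a' _ ne.symm
    simp only [φ, jn_ci_cn]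
    linarith
  · intro h l d v J hc hv hne
    obtain ⟨i1, i2⟩ := inv h l d v J hc
    obtain ⟨g, e1, e2⟩ := arc l h hne i1.symm
    rw [e1]
    rcases i2 with ⟨rfl, rfl, rfl, rfl⟩ | ⟨f, e, ih⟩
    · obtain ⟨b, i⟩ := l
      cases b
      · exact absurd hv (hL i).inv.1
      · exact absurd hv (hL i).1
    · have c1 := sd_cost χ h0 h1 l e g
      have c2 := sd_cost χ h0 h1 h g f
      rcases ih with ⟨rfl, a1, k, a2, a3⟩ | ⟨a0, a1⟩ | ⟨rfl, a1⟩
      · by_cases c : f = g
        · subst c
          have := op f h l d k (hv ▸ a2) e2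
          have : (2 : ℚ) ≤ k := by exact_mod_cast this
          by_cases c : l.1 = f <;> by_cases c' : h.1 = f <;>
            simp only [c, c', ne_eq, not_true, not_false_iff, and_true, and_false, if_false,
              if_true] at c1 c2 a3 <;> linarith
        · rw [if_neg (fun e => c e.1)] at c1
          rw [if_neg (fun e => c e.1.symm)] at c2
          linarith
      · by_cases c : e = g
        · rw [if_neg (fun e => a0 (e.1.symm.trans c.symm))] at c2
          split_ifs at c1 <;> linarith
        · rw [if_neg (fun e => c e.1)] at c1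
          split_ifs at c2 <;> linarith
      · split_ifs at c1 c2 <;> linarith
  · intro h l d v J hc hne
    obtain ⟨i1, i2⟩ := inv h l d v J hc
    obtain ⟨g, e1, e2⟩ := arc l h hne i1.symm
    rw [e1]
    rcases i2 with ⟨rfl, rfl, rfl, rfl⟩ | ⟨f, e, ih⟩
    · have c1 := sd_cost χ h0 h1 l g g
      split_ifs at c1 <;> linarith
    · have c1 := sd_cost χ h0 h1 l e g
      have c2 := sd_cost χ h0 h1 h g f
      rcases ih with ⟨rfl, a1, -⟩ | ⟨a0, a1⟩ | ⟨rfl, a1⟩ <;> split_ifs at c1 c2 <;> linarith

end Pool.Agent.MP_a38735_al
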