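import Pool.Agent.MP_a38735_al.E0b

set_option autoImplicit false

namespace Pool.Agent.MP_a38735_al.WL

variable {G : Type*} [Group G] {W : ℤ → G} {n Q i j k p q i2 i3 j3 k3 : ℤ}

theorem mkCs {P : ℤ → Prop} {lo x y e : ℤ} (hn : 0 < n) (rp : ∀ t, P t → lo ≤ t ∧ t < lo + n)
    (hx : P x) (hy : P y) (h : ∀ t, P t → (e = 0 ∧ x < y ∧ (t ≤ x ∨ y ≤ t)) ∨
      (e = n ∧ y ≤ t ∧ t ≤ x)) : Cs P n x (y + e) := by
  have h0 := h x hx
  have r1 := rp x hx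
  have r2 := rp y hy
  refine ⟨⟨x, 0, hx, by ring⟩, ?_, by omega, fun t m ht => ?_⟩
  · rcases h0 with z | z
    exacts [⟨y, 0, hy, by omega⟩, ⟨y, 1, hy, by omega⟩]
  · have := h t ht
    have := rp t ht
    have := mul_tri hn m
    omega

/-- an orbit of the backward map with a window longer than the overlaps is impossible -/
theorem e0_orb (al : AL W n Q) {P : ℤ → Prop} {a b d : ℤ → ℤ} {lo u v : ℤ}
    (hy : 0 ≤ i ∧ i ≤ j ∧ j < Q ∧ Q ≤ k ∧ q = p + k - i ∧ q < n ∧ Q ≤ i2 ∧ i2 ≤ p ∧ k3 < n ∧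
      j3 + n = k3 + q - i2 ∧ 0 ≤ i3 ∧ i3 ≤ j3 ∧ j3 < Q ∧ k - j + k3 - i3 = n)
    (U : Par W (k3 + 1 - n) j (k - j)) (B : Par W (i + 1) p (k - i))
    (c : Par W (i2 + 1) k3 (q - i2)) (s1 : Ant W 0 i (i + j)) (s2 : Ant W (j + 1) Q (i + j))
    (tt : Ant W Q i2 (i2 + p)) (n1 : Nd W j i k) (n2 : Nd W p i2 q) (n3 : Nd W j3 i3 k3)
    (hw : 0 ≤ u ∧ 0 ≤ v ∧ j - i ≤ u + v ∧ p - i2 ≤ u + v)
    (rp : ∀ t, P t → lo ≤ t ∧ t < lo + n) (pr : ∀ s t, P s → P t → (s - t) % 2 = 0)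
    (zo : ∀ t, P t → (i3 + 1 + u ≤ t ∧ t + v ≤ k ∧ b t = k ∧ d t = j - k) ∨
      (k + 1 + u ≤ t ∧ t + v ≤ q ∧ b t = q ∧ d t = i - k) ∨
      (q + 1 + u ≤ t ∧ t + v ≤ j3 + n ∧ b t = j3 + n ∧ d t = i2 - q))
    (bd : ∀ t, P t → a t + u ≤ t ∧ t + v ≤ b t ∧ ∀ s, a t ≤ s → s < b t → W (s + d t) = W s)
    (wi : ∀ t t', P t → P t' → ∀ s, -u ≤ s → s < v → W (t + s) = W (t' + s))
    (cl : ∀ t, P t → ∃ t' m, P t' ∧ t + d t = t' + m * n)
    (sj : ∀ t, P t → ∃ t' m, P t' ∧ t = t' + d t' + m * n)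
    (ind : ∀ (C : ℤ → Prop) (y : ℤ), P y → C y →
      (∀ x x' m, P x → P x' → x + d x = x' + m * n → C x' → C x) → ∀ x, P x → C x)
    (ra : (P (k - v) ∧ P (q - v)) ∨ (P (k - v) ∧ P (j3 + n - v)) ∨ (P (q - v) ∧ P (j3 + n - v)))
    (rb : (P (k + 1 + u) ∧ P (q + 1 + u)) ∨ (P (k + 1 + u) ∧ P (i3 + 1 + u)) ∨
      (P (q + 1 + u) ∧ P (i3 + 1 + u))) : False := by
  replace ra := fun _ : Unit => ra
  replace rb := fun _ : Unit => rb
  have hn : 0 < n := by omega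
  have rg : ∀ t, P t → k3 + 1 - n ≤ t + d t ∧ t + d t < k3 + 1 - n + n := fun t ht => by
    have := zo t ht; omega
  have mo : ∀ s t, P s → P t → s < t → s + d s < t + d t := fun s t hs ht l => by
    have := zo t ht; have := zo s hs; omega
  have gp : ∀ x y e, P x → P y → (∀ t, P t → (e = 0 ∧ x < y ∧ (t ≤ x ∨ y ≤ t)) ∨
      (e = n ∧ y ≤ t ∧ t ≤ x)) → ∃ x' y' e', P x' ∧ P y' ∧ (∀ t, P t →
        (e' = 0 ∧ b y' ≠ b x' ∧ x' < y' ∧ (t ≤ x' ∨ y' ≤ t)) ∨ (e' = n ∧ y' ≤ t ∧ t ≤ x')) ∧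
      y' + e' - x' = y + d y + e - (x + d x) ∧
      Par W (x + d x - u) (y + d y + e + v) (x' - (x + d x)) := fun x y e hx hy' h => by
    obtain ⟨x', y', h1, h2, h3, h4, h5⟩ := gap hn al.per rp rg mo cl sj ind bd
      (Cs.img hn rp rg mo cl sj hx hy' (by have := h x hx; omega) (mkCs hn rp hx hy' h))
    obtain ⟨t, m, ht, rfl⟩ := h2.2.1
    have r1 := rp x' h1
    have r2 := rp t ht
    have l := h2.2.2.1
    have c1 := h2.2.2.2 x' 1 h1
    have tr := mul_tri hn m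
    refine ⟨x', t, m * n, h1, ht, fun s hs => ?_, h3, fun s k1 k2 => ?_⟩
    · have c2 := h2.2.2.2 s 0 hs
      have c3 := h2.2.2.2 s 1 hs
      have r3 := rp s hs
      clear h3
      by_cases z : m * n = 0
      · rw [z, add_zero] at h5
        refine Or.inl ⟨z, fun z1 => h5 ⟨ht, z1, ?_⟩, by omega⟩
        have z2 := zo t ht
        have z3 := zo x' h1
        clear * - z2 z3 hy z1
        omega
      · omega
    · clear tr c1
      have := h4 (s - (x + d x)) (by omega) (by omega)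
      rwa [add_sub_cancel, show x' + (s - (x + d x)) = s + (x' - (x + d x)) by ring] at this
  by_cases vU : ∀ t, P t → k < t
  · have r : P (q - v) ∧ P (q + 1 + u) := by
      constructor
      · rcases ra () with z | z | z
        exacts [z.2, by have := vU _ z.1; omega, z.1]
      · rcases rb () with z | z | z
        exacts [z.2, by have := vU _ z.2; have := zo _ z.2; omega, z.1]
    have z1 := zo _ r.1
    have z2 := zo _ r.2
    have z3 := vU _ r.1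
    obtain ⟨x, y, e, hx, hy', h1, h2, h3⟩ := gp _ _ 0 r.1 r.2 fun t ht => by
      have := zo t ht; omega
    have := h1 _ r.1
    have := zo x hx
    have := zo y hy'
    have := vU x hx
    have := vU y hy'
    exact n2.yz (h3.at p q (by omega)).symm
  by_cases vC : ∀ t, P t → t ≤ q
  · have r : P (k - v) ∧ P (k + 1 + u) := by
      constructor
      · rcases ra () with z | z | z
        exacts [z.1, z.1, by have := vC _ z.2; have := zo _ z.2; omega]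
      · rcases rb () with z | z | z
        exacts [z.1, z.1, by have := vC _ z.1; omega]
    have z1 := zo _ r.1
    have z2 := zo _ r.2
    have z3 := vC _ r.2
    obtain ⟨x, y, e, hx, hy', h1, h2, h3⟩ := gp _ _ 0 r.1 r.2 fun t ht => by
      have := zo t ht; omega
    have := h1 _ r.1
    have := zo x hx
    have := zo y hy'
    have := vC x hx
    have := vC y hy'
    exact n1.yz (h3.at j k (by omega)).symm
  by_cases vB : ∀ t, P t → t ≤ k ∨ q < t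
  · have r : P (j3 + n - v) ∧ P (i3 + 1 + u) := by
      constructor
      · rcases ra () with z | z | z
        exacts [by have := vB _ z.2; have := zo _ z.2; omega, z.2, z.2]
      · rcases rb () with z | z | z
        exacts [by have := vB _ z.1; have := zo _ z.1; omega, z.2, z.2]
    have z1 := zo _ r.1
    have z2 := zo _ r.2
    obtain ⟨x, y, e, hx, hy', h1, h2, h3⟩ := gp _ _ n r.1 r.2 fun t ht => by
      have := zo t ht; omega
    have := h1 _ r.1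
    have := zo x hx
    have := zo y hy'
    have := vB x hx
    have := vB y hy'
    exact n3.yz ((sh al 1 j3 _ (by omega)).symm.trans (h3.at k3 (j3 + n) (by omega)))
  push Not at vU vB vC
  obtain ⟨tU, hU⟩ := vU
  obtain ⟨tB, hB⟩ := vB
  obtain ⟨tC, hC⟩ := vC
  have mx : ∀ e, tU ≤ e → ∃ x, (P x ∧ x ≤ e) ∧ ∀ t, P t ∧ t ≤ e → t ≤ x := fun e he =>
    Int.exists_greatest_of_bdd ⟨e, fun _ z => z.2⟩ ⟨tU, hU.1, he⟩
  have mn : ∀ e, e < tC → ∃ x, (P x ∧ e < x) ∧ ∀ t, P t ∧ e < t → x ≤ t := fun e he =>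
    Int.exists_least_of_bdd ⟨e, fun _ z => z.2.le⟩ ⟨tC, hC.1, he⟩
  obtain ⟨x1, ⟨X1, l1⟩, m1⟩ := mx k hU.2
  obtain ⟨x2, ⟨X2, l2⟩, m2⟩ := mx q (by omega)
  obtain ⟨x3, ⟨X3, l3⟩, m3⟩ := mx (lo + n) (rp _ hU.1).2.le
  obtain ⟨y1, ⟨Y1, k1⟩, w1⟩ := mn k (by omega)
  obtain ⟨y2, ⟨Y2, k2⟩, w2⟩ := mn q hC.2
  obtain ⟨y3, ⟨Y3, k3'⟩, w3⟩ := mn (lo - 1) (by have := rp _ hC.1; omega)
  have ex : ∀ t, P t → (t ≤ k → t ≤ x1) ∧ (t ≤ q → t ≤ x2) ∧ t ≤ x3 ∧ (k < t → y1 ≤ t) ∧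
      (q < t → y2 ≤ t) ∧ y3 ≤ t := fun t ht =>
    ⟨fun z => m1 t ⟨ht, z⟩, fun z => m2 t ⟨ht, z⟩, m3 t ⟨ht, (rp t ht).2.le⟩,
      fun z => w1 t ⟨ht, z⟩, fun z => w2 t ⟨ht, z⟩, w3 t ⟨ht, by have := rp t ht; omega⟩⟩
  have z1 : i3 + 1 + u ≤ x1 ∧ x1 + v ≤ k ∧ d x1 = j - k := by have := zo _ X1; omega
  have z2 : k + 1 + u ≤ x2 ∧ x2 + v ≤ q ∧ d x2 = i - k := by
    have := zo _ X2; have := ex _ hB.1; omega
  have z3 : q + 1 + u ≤ x3 ∧ x3 + v ≤ j3 + n ∧ d x3 = i2 - q := by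
    have := zo _ X3; have := ex _ hC.1; omega
  have z4 : k + 1 + u ≤ y1 ∧ y1 + v ≤ q ∧ d y1 = i - k := by
    have := zo _ Y1; have := ex _ hB.1; omega
  have z5 : q + 1 + u ≤ y2 ∧ y2 + v ≤ j3 + n ∧ d y2 = i2 - q := by have := zo _ Y2; omega
  have z6 : i3 + 1 + u ≤ y3 ∧ y3 + v ≤ k ∧ d y3 = j - k := by
    have := zo _ Y3; have := ex _ hU.1; omega
  clear m1 m2 m3 w1 w2 w3 mx mn hU hB hC l1 l2 l3 k1 k2 k3'
  have cs : ∀ x y e, P x → P y → (∀ t, P t → (e = 0 ∧ x < y ∧ (t ≤ x ∨ y ≤ t)) ∨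
      (e = n ∧ y ≤ t ∧ t ≤ x)) → ∃ x' y', ((x' = x1 ∧ y' = y1) ∨ (x' = x2 ∧ y' = y2) ∨
        (x' = x3 ∧ y' = y3 + n)) ∧ y' - x' = y + d y + e - (x + d x) ∧
      Par W (x + d x - u) (y + d y + e + v) (x' - (x + d x)) := fun x y e hx hy' h => by
    obtain ⟨x', y', e', h1, h2, h3, h4, h5⟩ := gp x y e hx hy' h
    refine ⟨x', y' + e', ?_, h4, h5⟩
    clear h4
    rcases h3 _ X1 with ⟨rfl, z, l, -⟩ | ⟨rfl, -⟩
    · have h6 : ∀ t, P t → t ≤ x' ∨ y' ≤ t := fun t ht => by have := h3 t ht; omega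
      have h7 : (x' ≤ k ∧ k < y') ∨ (x' ≤ q ∧ q < y') := by
        have y1 := zo _ h1
        have y2 := zo _ h2
        clear * - y1 y2 hy z l hw
        omega
      rcases h7 with h7 | h7
      · have := (ex _ h1).1 h7.1
        have := (ex _ h2).2.2.2.1 h7.2
        have := h6 _ X1
        have := h6 _ Y1
        omega
      · have := (ex _ h1).2.1 h7.1
        have := (ex _ h2).2.2.2.2.1 h7.2
        have := h6 _ X2
        have := h6 _ Y2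
        omega
    · have := h3 _ X3
      have := h3 _ Y3
      have := (ex _ h1).2.2.1
      have := (ex _ h2).2.2.2.2.2
      omega
  have o0 : ∀ t x, P t → x = t - u → Wd W (fun s => W (x1 + (s - u))) (u + v) x :=
    fun t x ht e s _ _ => by
    refine Eq.trans ?_ (wi t x1 ht X1 (s - u) (by omega) (by omega))
    congr 1; omega
  have od : ∀ t x, P t → x = t + d t - u → Wd W (fun s => W (x1 + (s - u))) (u + v) x :=
    fun t x ht e s h1 h2 => by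
    have := bd t ht
    rw [← o0 t _ ht rfl s h1 h2, ← this.2.2 (t - u + s) (by omega) (by omega)]; congr 1; omega
  have ev := al.ev
  refine gaps3 al (w := u + v) (a1 := k - x1 + u) (a2 := q - x2 + u) (a3 := j3 + n - x3 + u)
    (b1 := y1 - k - 1 + v) (b2 := y2 - q - 1 + v) (b3 := y3 - i3 - 1 + v) hy U B c s1 s2 tt n1 n2 n3
    (by omega) ?_ ?_ ?_ (od x1 _ X1 (by omega)) (od y1 _ Y1 (by omega)) (od x2 _ X2 (by omega))
    (od y2 _ Y2 (by omega)) (fun s h1 h2 => ?_) (o0 y3 _ Y3 (by omega)) ?_ ?_ ?_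
  · have := pr _ _ X1 Y1
    have := pr _ _ X2 Y2
    have := pr _ _ X1 X3
    omega
  · rcases ra () with z | z | z <;> have := ex _ z.1 <;> have := ex _ z.2 <;> omega
  · rcases rb () with z | z | z <;> have := ex _ z.1 <;> have := ex _ z.2 <;> omega
  · exact (sh al (-1) _ _ (by omega)).trans (o0 x3 _ X3 rfl s h1 h2)
  · obtain ⟨x, y, h1 | h1 | h1, h2, h3⟩ := cs x1 y1 0 X1 Y1 fun t ht => by have := ex t ht; omega
    · exact (n1.yz (h3.at j k (by omega)).symm).elim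
    · exact Or.inl ⟨by omega, h3.cq (by omega)⟩
    · exact Or.inr ⟨by omega, fun t _ _ => (sh al (-1) _ _ (by omega)).trans
        (h3 t (by omega) (by omega))⟩
  · obtain ⟨x, y, h1 | h1 | h1, h2, h3⟩ := cs x2 y2 0 X2 Y2 fun t ht => by have := ex t ht; omega
    · exact Or.inl ⟨by omega, h3.cq (by omega)⟩
    · exact (n2.yz (h3.at p q (by omega)).symm).elim
    · exact Or.inr ⟨by omega, fun t _ _ => (sh al (-1) _ _ (by omega)).trans
        (h3 t (by omega) (by omega))⟩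
  · obtain ⟨x, y, h1 | h1 | h1, h2, h3⟩ := cs x3 y3 n X3 Y3 fun t ht => by have := ex t ht; omega
    · exact Or.inl ⟨by omega, h3.cq (by omega)⟩
    · exact Or.inr ⟨by omega, h3.cq (by omega)⟩
    · exact (n3.yz ((sh al 1 j3 _ (by omega)).symm.trans (h3.at k3 (j3 + n) (by omega)))).elim

/-- the backward map with its free switch at `σ` -/
theorem e0_sw (al : AL W n Q) (σ : ℤ)
    (hy : 0 ≤ i ∧ i ≤ j ∧ j < Q ∧ Q ≤ k ∧ q = p + k - i ∧ q < n ∧ Q ≤ i2 ∧ i2 ≤ p ∧ k3 < n ∧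
      j3 + n = k3 + q - i2 ∧ 0 ≤ i3 ∧ i3 ≤ j3 ∧ j3 < Q ∧ k - j + k3 - i3 = n)
    (U : Par W (k3 + 1 - n) j (k - j)) (B : Par W (i + 1) p (k - i))
    (c : Par W (i2 + 1) k3 (q - i2)) (s1 : Ant W 0 i (i + j)) (s2 : Ant W (j + 1) Q (i + j))
    (tt : Ant W Q i2 (i2 + p)) (n1 : Nd W j i k) (n2 : Nd W p i2 q) (n3 : Nd W j3 i3 k3)
    (hs : σ = i3 ∨ σ = j3) :
    (σ = i3 → W j = W q ∧ W p = W k) ∧ (σ = j3 → W i = W q ∧ W i2 = W k) := by
  obtain ⟨a, b, d, z⟩ : ∃ a b d : ℤ → ℤ, ∀ t,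
      (t ≤ k ∧ a t = i3 + 1 ∧ b t = k ∧ d t = j - k) ∨
      (k < t ∧ t ≤ q ∧ a t = k + 1 ∧ b t = q ∧ d t = i - k) ∨
      (q < t ∧ a t = q + 1 ∧ b t = j3 + n ∧ d t = i2 - q) := by
    refine ⟨fun t => if t ≤ k then i3 + 1 else if t ≤ q then k + 1 else q + 1,
      fun t => if t ≤ k then k else if t ≤ q then q else j3 + n,
      fun t => if t ≤ k then j - k else if t ≤ q then i - k else i2 - q, fun t => ?_⟩
    by_cases c1 : t ≤ k
    · simp [c1]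
    by_cases c2 : t ≤ q
    · simp [c1, c2]; omega
    · simp [c1, c2]; omega
  have bs : ∀ t s, a t ≤ s → s < b t → W (s + d t) = W s := fun t s h1 h2 => by
    rcases z t with y | y | y
    exacts [(U.at _ s (by omega)).symm, (B.at _ s (by omega)).symm, (c.at _ s (by omega)).symm]
  obtain ⟨u, v, P, u0, v0, h1, wi, ⟨t0, h0⟩, hR, hL, cl, sj, ind⟩ := orbit (V := W) (σ + 1) (σ + 1)
    (by omega) al.ev al.per a b d (fun t _ _ => ⟨by have := z t; omega, by have := z t; omega, by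
      have := z t; have := n1.p1; have := n1.p2; have := n2.p1; have := n2.p2; omega, bs t⟩)
    (by omega)
  have R : ∀ t x, P t → x = t + d t + v → (P (k - v) ∧ W x = W k) ∨ (P (q - v) ∧ W x = W q) ∨
      (P (j3 + n - v) ∧ W x = W (j3 + n)) := by
    rintro t x ht rfl
    obtain ⟨s, hs, e, l⟩ := hR t ht
    rw [e] at l
    rcases z s with y | y | y
    · exact Or.inl ⟨by rwa [show k - v = s by omega], by rw [l, y.2.2.1]⟩
    · exact Or.inr (Or.inl ⟨by rwa [show q - v = s by omega], by rw [l, y.2.2.2.1]⟩)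
    · exact Or.inr (Or.inr ⟨by rwa [show j3 + n - v = s by omega], by rw [l, y.2.2.1]⟩)
  have L : ∀ t x, P t → x = t + d t - u - 1 → (P (k + 1 + u) ∧ W x = W k) ∨
      (P (q + 1 + u) ∧ W x = W q) ∨ (P (i3 + 1 + u) ∧ W x = W i3) := by
    rintro t x ht rfl
    obtain ⟨s, hs, e, l⟩ := hL t ht
    rcases z s with y | y | y
    · exact Or.inr (Or.inr ⟨by rwa [show i3 + 1 + u = s by omega], by rw [l]; congr 1; omega⟩)
    · exact Or.inl ⟨by rwa [show k + 1 + u = s by omega], by rw [l]; congr 1; omega⟩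
    · exact Or.inr (Or.inl ⟨by rwa [show q + 1 + u = s by omega], by rw [l]; congr 1; omega⟩)
  have R1 := fun h : P (k - v) => R _ j h (by have := z (k - v); omega)
  have R2 := fun h : P (q - v) => R _ p h (by have := z (q - v); have := h1 _ h; omega)
  have R3 := fun h : P (j3 + n - v) => R _ k3 h (by
    have := z (j3 + n - v); have := h1 _ h; omega)
  have L1 := fun h : P (k + 1 + u) => L _ i h (by have := z (k + 1 + u); have := h1 _ h; omega)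
  have L2 := fun h : P (q + 1 + u) => L _ i2 h (by have := z (q + 1 + u); omega)
  have L3 := fun h : P (i3 + 1 + u) => L _ (k3 - n) h (by
    have := z (i3 + 1 + u); have := h1 _ h; omega)
  have e1 := n1.yz
  have e2 := n2.yz
  have e3 : W k3 ≠ W (j3 + n) := by rw [al.per]; exact n3.yz.symm
  have e4 := n1.xz
  have e5 := n2.xz
  have e6 : W (k3 - n) ≠ W i3 := by rw [← al.per, sub_add_cancel]; exact n3.xz.symm
  have tw : ∀ {r1 r2 r3 x y z : Prop}, (r1 ∧ x) ∨ (r2 ∧ y) ∨ (r3 ∧ z) → r1 ∨ r2 ∨ r3 :=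
    fun h => h.imp And.left fun h => h.imp And.left And.left
  have two : ∀ {r1 r2 r3 x1 x2 x3 y1 y2 y3 z1 z2 z3 : Prop}, r1 ∨ r2 ∨ r3 →
      (r1 → (r1 ∧ x1) ∨ (r2 ∧ y1) ∨ (r3 ∧ z1)) → (r2 → (r1 ∧ x2) ∨ (r2 ∧ y2) ∨ (r3 ∧ z2)) →
      (r3 → (r1 ∧ x3) ∨ (r2 ∧ y3) ∨ (r3 ∧ z3)) → ¬ x1 → ¬ y2 → ¬ z3 →
      ((r1 ∧ r2) ∨ (r1 ∧ r3) ∨ (r2 ∧ r3)) ∧ (¬ r3 → y1 ∧ x2) := by
    clear * -
    intros
    tauto
  have RA := two (tw (R t0 _ h0 rfl)) R1 R2 R3 e1 e2 e3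
  have LA := two (tw (L t0 _ h0 rfl)) L1 L2 L3 e4 e5 e6
  by_cases hw : j - i ≤ u + v ∧ p - i2 ≤ u + v
  · exact (e0_orb al (a := a) (b := b) (d := d) (lo := σ + 1) hy U B c s1 s2 tt n1 n2 n3
      ⟨u0, v0, hw⟩ (fun t ht => ⟨(h1 t ht).1, (h1 t ht).2.1⟩)
      (fun s t k1 k2 => by have := h1 s k1; have := h1 t k2; omega)
      (fun t ht => by have := h1 t ht; have := z t; omega)
      (fun t ht => ⟨(h1 t ht).2.2.2.1, (h1 t ht).2.2.2.2, bs t⟩) wi cl sj ind RA.1 LA.1).elim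
  · clear R1 R2 R3 L1 L2 L3
    exact ⟨fun e => RA.2 fun h => by clear RA LA; have := h1 _ h; omega,
      fun e => LA.2 fun h => by clear RA LA; have := h1 _ h; omega⟩

/-- the case of `L2x` where the strip before the first triangle is the strip after the last -/
theorem l2x_eq (al : AL W n Q)
    (hy : 0 ≤ i ∧ i ≤ j ∧ j < Q ∧ Q ≤ k ∧ q = p + k - i ∧ q < n ∧ Q ≤ i2 ∧ i2 ≤ p ∧ k3 < n ∧
      j3 + n = k3 + q - i2 ∧ 0 ≤ i3 ∧ i3 ≤ j3 ∧ j3 < Q) (he : k - j + k3 - i3 = n)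
    (a1 : Par W 0 j (k - j)) (s1 : Ant W 0 i (i + j)) (s2 : Ant W (j + 1) Q (i + j))
    (B : Par W (i + 1) p (k - i)) (tt : Ant W Q i2 (i2 + p)) (c : Par W (i2 + 1) k3 (q - i2))
    (d2 : Par W (k3 + 1) n (i3 - k3)) (n1 : Nd W j i k) (n2 : Nd W p i2 q)
    (n3 : Nd W j3 i3 k3) : False := by
  have U : Par W (k3 + 1 - n) j (k - j) := mgP (a' := 0) (b := 0) le_rfl
    (fun t _ _ => (qf d2 al (-1) t _ (by omega))) a1
  obtain ⟨h1, h2⟩ := (e0_sw al i3 (by omega) U B c s1 s2 tt n1 n2 n3 (Or.inl rfl)).1 rfl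
  obtain ⟨h3, h4⟩ := (e0_sw al j3 (by omega) U B c s1 s2 tt n1 n2 n3 (Or.inr rfl)).2 rfl
  have r1 := n1.rel
  have r2 := n2.rel
  rw [h1, h3] at r1
  rw [h2, h4, ← r1] at r2
  refine al.tf q 3 (by omega) ?_
  rw [pow_three', ← mul_left_inj (W q), one_mul, mul_assoc (W q * W q), r2]

end Pool.Agent.MP_a38735_al.WL
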