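import Pool.Agent.MP_a38735_al.St
import Pool.Agent.MP_a38735_al.WQ

set_option autoImplicit false

namespace Pool.Agent.MP_a38735_al.WL

variable {G : Type*} [Group G] {W ω : ℤ → G} {n Q i j k p q i2 i3 j3 k3 w : ℤ}

/-- the word `ω` of length `w` stands at `x` -/
def Wd (W ω : ℤ → G) (w x : ℤ) : Prop := ∀ s, 0 ≤ s → s < w → W (x + s) = ω s

theorem Wd.eq {x y : ℤ} (h : Wd W ω w x) (h' : Wd W ω w y) (s t : ℤ)
    (e : x ≤ s ∧ s < x + w ∧ t - y = s - x) : W t = W s := by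
  have h1 := h (s - x) (by omega) (by omega)
  have h2 := h' (s - x) (by omega) (by omega)
  rw [show y + (s - x) = t by omega] at h2
  rw [h2, ← h1, add_sub_cancel]

theorem Ant.opp {a b c a' b' c' : ℤ} (h : Ant W a b c)
    (e : c - b + 1 ≤ a' ∧ b' ≤ c - a + 1 ∧ c' = c) : Ant W a' b' c' := fun t h1 h2 => by
  have := h (c - t) (by omega) (by omega)
  rw [sub_sub_cancel] at this
  rw [e.2.2, this, inv_inv]

/-- a word that ends at `j` and begins after `i` is long -/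
theorem rpT (al : AL W n Q) (m : ℤ) (h : (i + j) % 2 = 0 ∧ w % 2 = 1 ∧ i ≤ j ∧ j - i ≤ w)
    (o1 : Wd W ω w (j - w)) (o2 : Wd W ω w (i + 1)) (an : Ant W (j + 1) (j + 1 + m) (i + j)) :
    2 * m + 2 ≤ w + 1 - (j - i) := by
  by_contra c
  exact rp al.ninv (j - w) j (w + 1 - (j - i)) ((w + 1 - (j - i)) / 2) (j + 1) (i + j)
    (fun t h1 h2 => o1.eq o2 _ _ (by omega)) (by omega) (an.mn le_rfl (by omega))

theorem kA2 (al : AL W n Q) (h : 0 ≤ j ∧ i ≤ j ∧ j < Q ∧ Q ≤ i2 ∧ i2 ≤ p ∧ 0 ≤ i3 ∧ j3 < Q ∧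
      j3 - i3 = j - i + (p - i2) ∧ (i + j) % 2 = 0 ∧ (i2 + p) % 2 = 0 ∧ w % 2 = 1 ∧ j - i ≤ w ∧
      w ≤ i2 - i - 1)
    (s1 : Ant W 0 i (i + j)) (s2 : Ant W (j + 1) Q (i + j)) (tt : Ant W Q i2 (i2 + p))
    (o1 : Wd W ω w (j - w)) (o2 : Wd W ω w (i + 1)) (o3 : Wd W ω w (j3 - w))
    (o4 : Wd W ω w (i2 + 1)) (o5 : Wd W ω w (i2 - w)) : False := by
  have qn := al.qn
  have b1 := rpT al i (by omega) o1 o2 (s1.opp (by omega))
  have b2 := rpT al (Q - j - 1) (by omega) o1 o2 (s2.mn le_rfl (by omega))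
  rcases lt_trichotomy j j3 with c | c | c
  · exact al.ubP (j3 - j) (by omega) (by omega) fun t h1 h2 => o1.eq o3 _ _ (by omega)
  · refine rp al.ninv (j - w) j (w + 1 - (j - i)) ((w + 1 - (j - i)) / 2)
      (j - (w + 1 - (j - i)) / 2) (i + j + (p - i2)) (fun t h1 h2 => o1.eq o2 _ _ (by omega))
      (by omega) fun t h1 h2 => ?_
    rw [← o1.eq o5 t (t + i2 - j) (by omega), ← tt _ (by omega) (by omega)]
    exact o4.eq o2 _ _ (by omega)
  · exact al.ubP (j - j3) (by omega) (by omega) fun t h1 h2 => o3.eq o1 _ _ (by omega)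

theorem kA1 (al : AL W n Q) (h : 0 ≤ i ∧ i ≤ j ∧ j < Q ∧ Q ≤ i2 ∧ i2 ≤ p ∧ 0 ≤ i3 ∧ j3 < Q ∧
      j3 - i3 = j - i + (p - i2) ∧ (i + j) % 2 = 0 ∧ (i2 + p) % 2 = 0 ∧ w % 2 = 1 ∧ j - i ≤ w ∧
      w ≤ p - i - 1)
    (s1 : Ant W 0 i (i + j)) (s2 : Ant W (j + 1) Q (i + j)) (tt : Ant W Q i2 (i2 + p))
    (o1 : Wd W ω w (j - w)) (o2 : Wd W ω w (i + 1)) (o3 : Wd W ω w (i3 + 1))
    (o4 : Wd W ω w (p - w)) (o5 : Wd W ω w (p + 1)) (x : W i2 = (W i)⁻¹)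
    (M : Par W (i2 + 1) p (j3 - p)) : False := by
  have qn := al.qn
  have b1 := rpT al i (by omega) o1 o2 (s1.opp (by omega))
  have b2 := rpT al (Q - j - 1) (by omega) o1 o2 (s2.mn le_rfl (by omega))
  rcases lt_trichotomy i i3 with c | c | c
  · exact al.ubQ (i3 - i) (by omega) (by omega) fun t h1 h2 => o2.eq o3 _ _ (by omega)
  · refine rp al.ninv (j - w) j (w + 1 - (j - i)) ((w + 1 - (j - i)) / 2)
      (i - (p - i2) + 1) (i + j - (p - i2)) (fun t h1 h2 => o1.eq o2 _ _ (by omega))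
      (by omega) fun t h1 h2 => ?_
    rw [o4.eq o1 (i + i2 - t) _ (by omega)]
    rcases lt_trichotomy t i with z | rfl | z
    · rw [← M _ (by omega) (by omega)]
      exact ab s2 al 0 _ _ (by omega)
    · simpa using x
    · rw [← o2.eq o5 t (t + p - i) (by omega)]
      exact ab tt al 0 _ _ (by omega)
  · exact al.ubQ (i - i3) (by omega) (by omega) fun t h1 h2 => o3.eq o2 _ _ (by omega)

theorem kB1 (al : AL W n Q) (h : i ≤ j ∧ i2 ≤ p ∧ (i + j) % 2 = 0 ∧ (i2 + p) % 2 = 0 ∧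
      w % 2 = 1 ∧ j - i ≤ w ∧ p - i2 ≤ w ∧ w ≤ p - j - 1)
    (s2 : Ant W (j + 1) Q (i + j)) (tt : Ant W Q i2 (i2 + p))
    (o1 : Wd W ω w (j - w)) (o2 : Wd W ω w (j + 1)) (o3 : Wd W ω w (p - w))
    (o4 : Wd W ω w (i2 + 1)) : False := by
  have b1 := rpT al (i2 - Q) (by omega) o3 o4 (tt.opp (by omega))
  have b2 : 2 * (Q - j - 1) < w - (j - i) + 1 := by
    by_contra c
    refine al.ninv (j + (w - (j - i) + 1) / 2) ?_
    rw [← s2 _ (by omega) (by omega)]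
    exact o1.eq o2 _ _ (by omega)
  refine rp al.ninv (p - w) p (w + 1 - (p - i2)) ((w + 1 - (p - i2)) / 2)
    (p - w) (2 * p - w - 1 - (j - i)) (fun t h1 h2 => o3.eq o4 _ _ (by omega))
    (by omega) fun t h1 h2 => ?_
  rw [← o3.eq o2 t (t + j + 1 - p + w) (by omega), ← s2 _ (by omega) (by omega)]
  exact o1.eq o3 _ _ (by omega)

theorem kB2 (al : AL W n Q) {x : ℤ} (h : i ≤ j ∧ 0 ≤ x ∧ x ≤ j3 ∧ j3 < Q ∧ (i + j) % 2 = 0 ∧
      (j3 - i) % 2 = 0 ∧ (x - i) % 2 = 0 ∧ w % 2 = 1 ∧ j - i ≤ w)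
    (s1 : Ant W 0 i (i + j)) (s2 : Ant W (j + 1) Q (i + j))
    (o1 : Wd W ω w (i - w)) (o2 : Wd W ω w (i + 1)) (o3 : Wd W ω w (j3 - w))
    (o4 : Wd W ω w (x + 1)) (l1 : W j3 ≠ W i) (l2 : W i ≠ W x) : False := by
  have b : ∀ m, Ant W (j + 1) (j + 1 + m) (i + j) → 2 * m < w - (j - i) + 1 := fun m s => by
    by_contra c
    refine al.ninv (j + (w - (j - i) + 1) / 2) ?_
    rw [← s _ (by omega) (by omega)]
    exact o1.eq o2 _ _ (by omega)
  have b1 := b i (s1.opp (by omega))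
  have b2 := b (Q - j - 1) (s2.mn le_rfl (by omega))
  rcases lt_trichotomy i j3 with c | c | c
  · exact l1 (rotR (j3 - i) (w + 1) i j3 (by omega) (fun t h1 h2 => o1.eq o3 _ _ (by omega))
      fun t h1 h2 => o1.eq o2 _ _ (by omega))
  · exact l1 (by rw [c])
  · exact l2 (rotL (i - x) (w + 1) x i (by omega) (fun t h1 h2 => o4.eq o2 _ _ (by omega))
      fun t h1 h2 => o1.eq o2 _ _ (by omega))

/-- counting a letter on both sides of three strips that close up -/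
theorem cntU (al : AL W n Q) (h : k3 + 1 - n ≤ j ∧ i < p ∧ i2 < k3 ∧ q = p + k - i ∧
      j3 + n = k3 + q - i2 ∧ k - j + k3 - i3 = n) (U : Par W (k3 + 1 - n) j (k - j))
    (b : Par W (i + 1) p (k - i)) (c : Par W (i2 + 1) k3 (q - i2)) (z : G) :
    ∃ F : ℤ → ℤ, (∀ t, W t = z → F (t + 1) = F t + 1) ∧ (∀ t, W t ≠ z → F (t + 1) = F t) ∧
      (∀ s t, W s = W t → F (s + 1) - F s = F (t + 1) - F t) ∧
      (∀ a b a' b', a ≤ b ∧ b' - a' = b - a → Par W a b (a' - a) → F b' - F a' = F b - F a) ∧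
      F j3 - F (i3 + 1) + (F (k3 + 1) - F k3) =
        F j - F (i + 1) + (F p - F (i2 + 1)) + (F (k + 1) - F k) + (F (q + 1) - F q) := by
  obtain ⟨F, f1, f2, f3⟩ := ex_cnt W z
  have f4 : ∀ a b a' b', a ≤ b ∧ b' - a' = b - a → Par W a b (a' - a) →
      F b' - F a' = F b - F a := fun a b a' b' e X => by
    have := f3 a b (a' - a) e.1 X
    rwa [add_sub_cancel, show b + (a' - a) = b' by omega] at this
  refine ⟨F, f1, f2, fun s t e => ?_, f4, ?_⟩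
  · by_cases c : W t = z
    · rw [f1 t c, f1 s (e.trans c)]; ring
    · rw [f2 t c, f2 s (e ▸ c)]; ring
  · have h1 := f4 (k3 + 1 - n) j (i3 + 1) k (by omega) (U.cq (by omega))
    have h2 := f4 (i + 1) p (k + 1) q (by omega) (b.cq (by omega))
    have h3 := f4 (i2 + 1) k3 (q + 1) (j3 + n) (by omega) (c.cq (by omega))
    rcases le_total (k3 + 1 - n) j3 with y | y
    · have := f4 _ _ (k3 + 1) (j3 + n) (by omega : k3 + 1 - n ≤ j3 ∧ _)
        fun t _ _ => sh al 1 _ _ (by omega)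
      omega
    · have := f4 _ _ (j3 + n) (k3 + 1) (by omega : j3 ≤ k3 + 1 - n ∧ _)
        fun t _ _ => sh al 1 _ _ (by omega)
      omega

end Pool.Agent.MP_a38735_al.WL
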