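import Pool.Agent.MP_a38735_al.E0a

set_option autoImplicit false

namespace Pool.Agent.MP_a38735_al.WL

variable {G : Type*} [Group G] {W ω : ℤ → G} {n Q i j k p q i2 i3 j3 k3 w : ℤ}

theorem Par.at {a b g : ℤ} (h : Par W a b g) (x y : ℤ) (e : a ≤ x ∧ x < b ∧ y = x + g) :
    W y = W x := e.2.2 ▸ h x e.1 e.2.1

/-- the three gaps at the triangles cannot be permuted without a fixed point -/
theorem gaps3 (al : AL W n Q) {a1 a2 a3 b1 b2 b3 : ℤ}
    (hy : 0 ≤ i ∧ i ≤ j ∧ j < Q ∧ Q ≤ k ∧ q = p + k - i ∧ q < n ∧ Q ≤ i2 ∧ i2 ≤ p ∧ k3 < n ∧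
      j3 + n = k3 + q - i2 ∧ 0 ≤ i3 ∧ i3 ≤ j3 ∧ j3 < Q ∧ k - j + k3 - i3 = n)
    (U : Par W (k3 + 1 - n) j (k - j)) (b : Par W (i + 1) p (k - i))
    (c : Par W (i2 + 1) k3 (q - i2)) (s1 : Ant W 0 i (i + j)) (s2 : Ant W (j + 1) Q (i + j))
    (tt : Ant W Q i2 (i2 + p)) (n1 : Nd W j i k) (n2 : Nd W p i2 q) (n3 : Nd W j3 i3 k3)
    (ha : w ≤ a1 ∧ w ≤ a2 ∧ w ≤ a3 ∧ w ≤ b1 ∧ w ≤ b2 ∧ w ≤ b3 ∧ a1 ≤ k - i3 - 1 ∧
      a2 ≤ p - i - 1 ∧ b1 ≤ p - i - 1 ∧ a3 ≤ k3 - i2 - 1 ∧ j - i ≤ w ∧ p - i2 ≤ w)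
    (hp : (a1 + b1 + 1 - w) % 2 = 0 ∧ (a2 + b2 + 1 - w) % 2 = 0 ∧ (k - a1 - j3 + a3) % 2 = 0)
    (ra : (a1 = w ∧ a2 = w) ∨ (a1 = w ∧ a3 = w) ∨ (a2 = w ∧ a3 = w))
    (rb : (b1 = w ∧ b2 = w) ∨ (b1 = w ∧ b3 = w) ∨ (b2 = w ∧ b3 = w))
    (o1 : Wd W ω w (j - a1)) (o2 : Wd W ω w (i + 1 + b1 - w)) (o3 : Wd W ω w (p - a2))
    (o4 : Wd W ω w (i2 + 1 + b2 - w)) (o5 : Wd W ω w (j3 - a3))
    (o6 : Wd W ω w (i3 + 1 + b3 - w))
    (g1 : (a1 + b1 - (j - i) = a2 + b2 ∧ Par W (j - a1) (i + 1 + b1) (q - a2 - (j - a1))) ∨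
      (a1 + b1 - (j - i) = a3 + b3 - (j3 - i3) ∧
        Par W (j - a1) (i + 1 + b1) (j3 - a3 - (j - a1))))
    (g2 : (a2 + b2 - (p - i2) = a1 + b1 ∧ Par W (p - a2) (i2 + 1 + b2) (k - a1 - (p - a2))) ∨
      (a2 + b2 - (p - i2) = a3 + b3 - (j3 - i3) ∧
        Par W (p - a2) (i2 + 1 + b2) (j3 - a3 - (p - a2))))
    (g3 : (a3 + b3 = a1 + b1 ∧ Par W (k3 - a3) (k3 + 1 + b3) (k - a1 - (k3 - a3))) ∨
      (a3 + b3 = a2 + b2 ∧ Par W (k3 - a3) (k3 + 1 + b3) (q - a2 - (k3 - a3)))) : False := by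
  have wc : ∀ {x y : ℤ}, Wd W ω w x → y = x → Wd W ω w y := fun h e => e ▸ h
  have cc : ∀ x y, i2 < x ∧ x < k3 ∧ y = x + j3 - k3 → W y = W x := fun x y e =>
    (sh al (-1) (x + (q - i2)) y (by omega)).trans (c x (by omega) (by omega))
  have c23 : a2 + b2 - (p - i2) = a3 + b3 - (j3 - i3) ∧
        Par W (p - a2) (i2 + 1 + b2) (j3 - a3 - (p - a2)) →
      a3 + b3 = a2 + b2 ∧ Par W (k3 - a3) (k3 + 1 + b3) (q - a2 - (k3 - a3)) → False := by
    clear hp ra rb g1 g2 g3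
    rintro ⟨e2, g2⟩ ⟨e3, g3⟩
    rcases lt_trichotomy a2 a3 with z | rfl | z
    · exact n2.yz (((g2.at p (j3 - a3 + a2) (by omega)).symm.trans
        (cc (k3 - a3 + a2) _ (by omega))).trans (g3.at _ q (by omega)).symm)
    · obtain ⟨F, f1, f2, f3, f4, f5⟩ := cntU al (i3 := i3) (j3 := j3) (by omega) U b c (W k)
      have := f1 k rfl
      have := f2 j n1.yz
      have := f3 q k3 (g3.at _ _ (by omega))
      have := f3 j3 p (g2.at _ _ (by omega))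
      have := f4 (i2 + 1) (p + 1) (i3 + 1) (j3 + 1) (by omega) fun t _ _ => g2.at _ _ (by omega)
      obtain rfl : i = j := by omega
      omega
    · exact n3.yz (((g2.at (p - a2 + a3) j3 (by omega)).trans
        (b.at _ (q - a2 + a3) (by omega)).symm).trans (g3.at k3 _ (by omega)))
  rcases g1 with ⟨e1, g1⟩ | ⟨e1, g1⟩
  · rcases g2 with ⟨e2, g2⟩ | g2
    · clear hp ra rb
      obtain rfl : i = j := by omega
      obtain rfl : i2 = p := by omega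
      obtain rfl : i3 = j3 := by omega
      refine soft3 al (k - i) i i2 k3 (by omega) (fun t _ _ => b t (by omega) (by omega))
        (fun t _ _ => c.at _ _ (by omega)) (fun t _ _ => ?_) (by simpa using n1.rel.symm)
        (by rw [n2.rel]; congr 1; omega) (by rw [sh al 1 i3 (k3 + (k - i)) (by omega), n3.rel])
      rw [sh al 1 (t - n + (k - i)) _ (by omega), U _ (by omega) (by omega),
        sh al 1 (t - n) t (by omega)]
    rcases g3 with ⟨e3, g3⟩ | g3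
    swap
    · exact c23 g2 g3
    obtain ⟨e2, g2⟩ := g2
    have z : a2 = w ∧ b2 = w ∧ (a1 = w ∨ (a3 = w ∧ b1 = w)) := by clear hp; omega
    clear ra rb
    have p1 := n1.p1
    have p2 := n1.p2
    have p3 := n2.p1
    obtain ⟨rfl, rfl, rfl | ⟨rfl, rfl⟩⟩ := z
    · exact kB1 al (by omega) s2 tt (wc o1 (by omega)) (wc o2 (by omega)) (wc o3 (by omega))
        (wc o4 (by omega))
    · refine kB2 al (x := j3 - (p - i2)) (j3 := j3) (by omega) s1 s2 (wc o1 (by omega)) (wc o2 (by omega))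
        (wc o5 (by omega)) (wc o6 (by omega)) ?_ ?_
      · rw [g2.at p j3 (by omega), ← g1.at i q (by omega)]
        exact n2.yz
      · rw [g2.at i2 (j3 - (p - i2)) (by omega), ← g1.at i q (by omega)]
        exact n2.xz.symm
  rcases g3 with ⟨e3, g3⟩ | g3
  · clear hp ra rb g2
    rcases lt_trichotomy a1 a3 with z | rfl | z
    · exact n1.yz (((g1.at j (j3 - a3 + a1) (by omega)).symm.trans
        (cc (k3 - a3 + a1) _ (by omega))).trans (g3.at _ k (by omega)).symm)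
    · obtain ⟨F, f1, f2, f3, f4, f5⟩ := cntU al (i3 := i3) (j3 := j3) (by omega) U b c (W q)
      have := f1 q rfl
      have := f2 p n2.yz
      have := f3 k k3 (g3.at _ _ (by omega))
      have := f3 j3 j (g1.at _ _ (by omega))
      have := f4 (i + 1) (j + 1) (i3 + 1) (j3 + 1) (by omega) fun t _ _ => g1.at _ _ (by omega)
      obtain rfl : i2 = p := by omega
      omega
    · exact n3.yz (((g1.at (j - a1 + a3) j3 (by omega)).trans
        (U.at _ (k - a1 + a3) (by omega)).symm).trans (g3.at k3 _ (by omega)))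
  rcases g2 with ⟨e2, g2⟩ | g2
  swap
  · exact c23 g2 g3
  obtain ⟨e3, g3⟩ := g3
  have z : a1 = w ∧ b1 = w ∧ ((a3 = w ∧ b2 = w) ∨ (a2 = w ∧ b3 = w ∧ i2 < p)) := by
    clear hp; omega
  clear ra rb
  have p1 := n1.p1
  have p3 := n2.p1
  obtain ⟨rfl, rfl, ⟨rfl, rfl⟩ | ⟨rfl, rfl, z⟩⟩ := z
  · exact kA2 al (i3 := i3) (j3 := j3) (by omega) s1 s2 tt (wc o1 (by omega)) (wc o2 (by omega))
      (wc o5 (by omega)) (wc o4 (by omega)) (wc o3 (by omega))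
  · refine kA1 al (j3 := j3) (i3 := i3) (by omega) s1 s2 tt (wc o1 (by omega)) (wc o2 (by omega))
      (wc o6 (by omega)) (wc o3 (by omega)) (wc o4 (by omega)) ?_ fun t _ _ => ?_
    · have h1 := g2.at p k (by omega)
      have h2 := ((g3.at (k3 - (p - i2)) q (by omega)).trans
        (cc _ (j3 - (p - i2)) (by omega)).symm).trans (g1.at j _ (by omega))
      have h3 := n2.rel
      rw [← h1, ← n1.rel, h2, mul_assoc, mul_eq_left] at h3
      exact eq_inv_of_mul_eq_one_right h3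
    · rw [cc (t + k3 - p) _ (by omega), ← g3.at _ (t + (q - i2)) (by omega)]
      exact c t (by omega) (by omega)

end Pool.Agent.MP_a38735_al.WL
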