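import Pool.Agent.MP_a38735_al.AQ

set_option autoImplicit false
set_option linter.unusedVariables false
set_option linter.unusedSimpArgs false

namespace Pool.Agent.MP_a38735_al.WL.E21

variable {G : Type*} [Group G]

structure C (W : ℤ → G) (N Q i a b l m c d L : ℤ) : Prop where
  al : AL W (2*N) Q
  a1 : Par W (0) (i + 2*a) (2*b)
  a2 : Par W (Q - 2*b) (i + 2*a) (2*b)
  s1 : Ant W (0) (i) (2*i + 2*a)
  s2 : Ant W (i + 2*a + 1) (Q) (2*i + 2*a)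
  bb : Par W (i + 1) (i + l + 1) (2*a + 2*b)
  c1 : Par W (i + l + 2*c + 2) (Q) (2*a + 2*b - 2*c)
  c2 : Par W (i + 2*a + 2*b + l + 2) (2*N) (-2*a - 2*b + 2*c)
  S2 : Ant W (i + l - m + 2*c + 1) (i + l + 2*c + 1) (2*i + 2*l + 2*c + 2)
  d1 : Par W (i + l + m + 3) (2*N) (2*N - 2*m + 2*c + 2*d - 2)
  d2 : Par W (2*N + i + l - m + 2*c + 2*d + 1) (Q) (-2*N + 2*m - 2*c - 2*d + 2)
  d3 : Par W (Q) (2*N + i + l - m + 2*c) (2*d)
  n1 : Nd W (i + 2*a) (i) (i + 2*a + 2*b)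
  n2 : Nd W (i + l + 1) (i + l + 2*c + 1) (i + 2*a + 2*b + l + 1)
  n3 : Nd W (2*N + i + l - m + 2*c) (i + l + m + 2) (2*N + i + l - m + 2*c + 2*d)
  lam : L2 W (2*N) L (i + 2*a) (i) (i + 2*a + 2*b) (2*N + i + l - m + 2*c) (i + l + m + 2) (2*N + i + l - m + 2*c + 2*d)


/-- the linear side conditions -/
structure B (N Q i a b l m c d L : ℤ) : Prop where
  b1 : 0 ≤ i
  b2 : 0 ≤ a
  b3 : i + 2*a + 1 ≤ Q
  b4 : Q ≤ i + 2*a + 2*b
  b5 : i + 2*a + 2*b + 1 ≤ 2*N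
  b6 : 0 ≤ i + l + 2*c + 1
  b7 : i + l + 2*c + 2 ≤ Q
  b8 : Q ≤ i + l + 1
  b9 : i + 2*a + 2*b + l + 2 ≤ 2*N
  b10 : Q + m ≤ 2*N + i + l + 2*c
  b11 : i + l + 2*c + 1 ≤ m
  b12 : Q ≤ i + l + m + 2
  b13 : i + l + m + 3 ≤ 2*N
  b14 : m ≤ 2*N + i + l + 2*c + 2*d
  b15 : 2*N + i + l + 2*c + 2*d + 1 ≤ Q + m
  b16 : i + 2*a + L + 3 ≤ 2*N
  b17 : i + 2*a + 2*b + L + 3 ≤ 2*N + Q
  b18 : l + L + 3 ≤ 2*N
  b19 : 2*a + 2*b + L + 2 ≤ 2*N
  b20 : i + l + 2*c + L + 3 ≤ Q + m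
  b21 : L ≤ i + l + m
  b22 : Q + m + L + 2 ≤ 4*N + i + l + 2*c + 2*d
  b23 : L + 2 ≤ 2*N + 2*d
  b24 : 0 ≤ L
  b25 : i + 2*a ≤ L
  b26 : i + 2*a + 2*b ≤ Q + L
  b27 : l ≤ L
  b28 : Q ≤ i + l + 2*c + L + 2
  b29 : 2*N ≤ i + 2*a + 2*b + l + L + 2
  b30 : 2*N ≤ i + l + m + L + 3
  b31 : Q + m ≤ 2*N + i + l + 2*c + 2*d + L + 1
  b32 : 2*N + i + l + 2*c ≤ Q + m + L

variable {W : ℤ → G} {N Q i a b l m c d L U V Y : ℤ}

theorem T0_0 (X : C W N Q i a b l m c d L) (hb : B N Q i a b l m c d L)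
    (h : N + c ≤ m) :
    False := by
  have b6 := hb.b6
  have b13 := hb.b13
  have g1 := h
  have k1 : 1 ≤ N + c := by clear * - b6 b13 g1; omega
  clear * - X g1 k1
  exact X.al.ninv (-N + i + l + c + 1) (fin X.al.per (-1) _ (af X.S2 X.al.per 0 (N + i + l + c + 1) (rfl : W (-N + i + l + c + 1) = W (-N + i + l + c + 1)) (by omega)) (by omega))

theorem T0_1 (X : C W N Q i a b l m c d L) (hb : B N Q i a b l m c d L)
    (h : m ≤ l + 2*c + L + 1) :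
    False := by
  have b8 := hb.b8
  have b10 := hb.b10
  have b20 := hb.b20
  have g1 := h
  have k1 : i + 1 ≤ Q := by clear * - b20 g1; omega
  clear * - X g1 b8 b10 k1
  exact X.lam.two X.al 0 0 (Q) (2*N + i + l - m + 2*c) (2*N + 2*d) (i + 1) (Q) (2*a + 2*b) (by omega) (fun t h1 h2 => (fin X.al.per 1 _ (pf X.d3 X.al.per 0 (2*d + t) (rfl : W (t) = W (t)) (by omega)) (by omega))) (fun t h1 h2 => (fin X.al.per 0 _ (pf X.bb X.al.per 0 (2*a + 2*b + t) (rfl : W (t) = W (t)) (by omega)) (by omega))) (Or.inr (Or.inl ⟨(fin X.al.per 0 _ (rfl : W (2*N + i + l - m + 2*c) = W (2*N + i + l - m + 2*c)) (by omega)), (fin X.al.per 1 _ (rfl : W (2*N + i + l - m + 2*c + 2*d) = W (2*N + i + l - m + 2*c + 2*d)) (by omega))⟩)) (Or.inl (Or.inl ⟨(fin X.al.per 0 _ (rfl : W (i) = W (i)) (by omega)), (fin X.al.per 0 _ (rfl : W (i + 2*a + 2*b) = W (i + 2*a + 2*b)) (by omega))⟩))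

theorem T0_2 (X : C W N Q i a b l m c d L) (hb : B N Q i a b l m c d L)
    (h : b ≤ i) :
    False := by
  have b2 := hb.b2
  have b3 := hb.b3
  have b4 := hb.b4
  have b18 := hb.b18
  have b29 := hb.b29
  have g1 := h
  have k1 : 1 ≤ b := by clear * - b3 b4; omega
  have k2 : 1 ≤ 2*a + 3*b := by clear * - b2 b3 b4; omega
  have k3 : 1 ≤ i + 2*a := by clear * - b2 b18 b29 g1; omega
  clear * - X g1 k1 k2 k3
  obtain ⟨K0, hL⟩ : ∃ K0 : ℤ, -2*i - 2*a ≤ 2*K0 ∧ -2*a - 4*b + 2 ≤ 2*K0 ∧ 2*K0 + 2*(b) - 2 ≤ -2*a - 2 ∧ 2*K0 + 2*(b) - 2 ≤ 2*i + 2*a ∧ 2*K0 + 2*(b) - 2 ≤ 2*a + 4*b - 2 := ⟨((max (-2*a - 4*b + 2) (-2*i - 2*a)) + 1) / 2, by omega⟩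
  obtain ⟨R, hR1, hR2, hR⟩ := pw (A := 0) (B := i + 2*a + 2*b) (γ := b) (by omega) (fun t h1 h2 => (fin X.al.per 0 _ (pf X.a1 X.al.per 0 (2*b + t) (rfl : W (t) = W (t)) (by omega)) (by omega))) K0
  exact X.al.ninv (i + a + R) (fin X.al.per 0 _ (pp hR X.al.per 0 (i + a + R) (af X.s1 X.al.per 0 (i + a - R) (rfl : W (i + a + R) = W (i + a + R)) (by omega)) (by omega)) (by omega))

theorem T0_3 (X : C W N Q i a b l m c d L) (hb : B N Q i a b l m c d L)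
    (h : d + 1 ≤ c) :
    False := by
  have b8 := hb.b8
  have b12 := hb.b12
  have b13 := hb.b13
  have b14 := hb.b14
  have b23 := hb.b23
  have b32 := hb.b32
  have g1 := h
  have k1 : c ≤ m + d := by clear * - b12 b23 b32; omega
  have k2 : Q + d ≤ i + l + c + 1 := by clear * - b8 g1; omega
  have k3 : m + 2 ≤ 2*N + c + d := by clear * - b13 b14; omega
  clear * - X g1 k1 k2 k3
  exact X.al.ninv (i + l + c + d + 1) (fin X.al.per 0 _ (pf X.d3 X.al.per 0 (i + l + c + d + 1) (af X.S2 X.al.per 0 (i + l + c - d + 1) (rfl : W (i + l + c + d + 1) = W (i + l + c + d + 1)) (by omega)) (by omega)) (by omega))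

theorem T0_4 (X : C W N Q i a b l m c d L) (hb : B N Q i a b l m c d L)
    (h : N + i + a + c + 1 ≤ Q + b ∧ a + b + l + c + 2 ≤ N) :
    False := by
  have b2 := hb.b2
  have b6 := hb.b6
  have b9 := hb.b9
  have b19 := hb.b19
  have b27 := hb.b27
  obtain ⟨g1, g2⟩ := h
  have k1 : N + 2*i + a + c + 1 ≤ 2*Q + b := by clear * - b2 b6 b9 g1; omega
  have k2 : a + 3*b + 2*l + c + 3 ≤ 3*N := by clear * - b2 b19 b27 g2; omega
  have k3 : i + l + 2*c + 3 ≤ Q := by clear * - b2 g1 g2; omega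
  have k4 : a + b + 1 ≤ N + c := by clear * - b6 b9; omega
  clear * - X g1 g2 k1 k2 k3 k4
  obtain ⟨K0, hL⟩ : ∃ K0 : ℤ, -2*Q + 2*i + 2*a + 2 ≤ 2*K0 ∧ -4*N + 2*a + 4*b + 2*l + 4 ≤ 2*K0 ∧ 2*K0 + 2*(N - a - b + c) - 2 ≤ -2*a - 2 ∧ 2*K0 + 2*(N - a - b + c) - 2 ≤ 4*N - 2*a - 4*b - 2*l - 4 ∧ 2*K0 + 2*(N - a - b + c) - 2 ≤ 2*Q - 2*i - 2*a - 2 := ⟨((max (-4*N + 2*a + 4*b + 2*l + 4) (-2*Q + 2*i + 2*a + 2)) + 1) / 2, by omega⟩
  obtain ⟨R, hR1, hR2, hR⟩ := pw (A := i + 2*a + 2*b + l + 2) (B := 2*N + Q) (γ := N - a - b + c) (by omega) (fun t h1 h2 => (fin X.al.per 1 _ (pr X.c1 X.al.per 0 (-2*a - 2*b + 2*c + t) (rfl : W (t) = W (t)) (by omega)) (by omega))) K0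
  exact X.al.ninv (i + a + R) (fin X.al.per (-1) _ (pp hR X.al.per (-1) (2*N + i + a + R) (ar X.s2 X.al.per 0 (i + a - R) (rfl : W (i + a + R) = W (i + a + R)) (by omega)) (by omega)) (by omega))

theorem T0_5 (X : C W N Q i a b l m c d L) (hb : B N Q i a b l m c d L)
    (h : 2*N + 2*c + d ≤ 2*m + 1 ∧ i + l + m + 3 ≤ 2*N + d) :
    False := by
  have b6 := hb.b6
  have b10 := hb.b10
  have b15 := hb.b15
  obtain ⟨g1, g2⟩ := h
  have k1 : m + 2 ≤ 2*N + 2*c + d := by clear * - b6 g2; omega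
  have k2 : d + 1 ≤ 0 := by clear * - b10 b15; omega
  clear * - X g1 g2 k1 k2
  exact X.al.ninv (-2*N + i + l + m - d + 2) (fin X.al.per (-1) _ (pr X.d1 X.al.per 0 (i + l + m - d + 2) (af X.S2 X.al.per 0 (2*N + i + l - m + 2*c + d) (rfl : W (-2*N + i + l + m - d + 2) = W (-2*N + i + l + m - d + 2)) (by omega)) (by omega)) (by omega))

theorem main (X : C W N Q i a b l m c d L) (hb : B N Q i a b l m c d L) : False := by
  have b6 := hb.b6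
  have b8 := hb.b8
  have b9 := hb.b9
  have b15 := hb.b15
  have b26 := hb.b26
  have b28 := hb.b28
  have b32 := hb.b32
  rcases lt_or_ge (-N + m - c) 0 with h1 | h1
  · rcases lt_or_ge (l - m + 2*c + L + 1) 0 with h2 | h2
    · rcases lt_or_ge (i - b) 0 with h3 | h3
      · rcases lt_or_ge (c - d - 1) 0 with h4 | h4
        · rcases lt_or_ge (-N + Q - i - a + b - c - 1) 0 with h5 | h5
          · exact T0_5 X hb ⟨by clear * - b6 b8 b15 b26 b32 h2 h3 h4 h5; omega, by clear * - b6 b9 b32 h1 h2 h3 h4 h5; omega⟩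
          exact T0_4 X hb ⟨by clear * - h5; omega, by clear * - b15 b26 b28 h1 h2 h4; omega⟩
        exact T0_3 X hb (by clear * - h4; omega)
      exact T0_2 X hb (by clear * - h3; omega)
    exact T0_1 X hb (by clear * - h2; omega)
  exact T0_0 X hb (by clear * - h1; omega)


end Pool.Agent.MP_a38735_al.WL.E21
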