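import Pool.Agent.MP_a38735_al.E22bt0

set_option autoImplicit false
set_option linter.unusedVariables false
set_option linter.unusedSimpArgs false

namespace Pool.Agent.MP_a38735_al.WL.E22b

variable {G : Type*} [Group G]

variable {W : ℤ → G} {N Q i a b l m c d L U V Y : ℤ}

theorem M0 (X : C W N Q i a b l m c d L) (hb : B N Q i a b l m c d L)
    (h1 : (-N + l + 2*m - c) < 0)
    (h2 : (i + l + c + d + 1) < 0)
    (h3 : (b + c - 1) < 0)
    (h4 : (i - b) < 0)
    (h5 : (-N + Q - i + b - c - 1) < 0)
    (h6 : (-Q - l - 2*m + L + 1) < 0)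
    (h7 : (-a - b + l + c) ≥ 0)
    (h32 : (3*a + 2*b - l - c - 2) < 0) : False := by
  have b2 := hb.b2
  have b4 := hb.b4
  have b7 := hb.b7
  have b14 := hb.b14
  have b15 := hb.b15
  have b18 := hb.b18
  have b23 := hb.b23
  have b27 := hb.b27
  have b29 := hb.b29
  have b30 := hb.b30
  have b31 := hb.b31
  have b32 := hb.b32
  have b33 := hb.b33
  rcases lt_or_ge (-2*a - 2*b + l + c) 0 with h33 | h33
  · rcases lt_or_ge (-2*a + l + 2*c) 0 with h34 | h34
    · rcases lt_or_ge (2*N - i + a + b - 2*l - 2*m + d - 3) 0 with h35 | h35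
      · rcases lt_or_ge (-2*N - 2*a - 2*b + 2*l + 4*m - 2*c - d + 1) 0 with h36 | h36
        · exact T0_14 X hb ⟨by clear * - b27 h2 h4 h6 h32 h34 h35; omega, by clear * - b33 h4 h32 h33 h34 h35 h36; omega, by clear * - b27 h4 h5 h6 h32 h33 h34 h35 h36; omega⟩
        exact T0_60 X hb ⟨by clear * - h4 h32 h33 h34 h35; omega, by clear * - h36; omega, by clear * - h1 h36; omega, by clear * - b33 h2 h33; omega⟩
      rcases lt_or_ge (-2*N + a + b + l + 2*m - 2*c - d) 0 with h37 | h37
      · exact T0_7 X hb (by clear * - h4 h32 h33 h34 h37; omega)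
      rcases lt_or_ge (-2*N - a - b + 2*l + 4*m - 2*c - d + 1) 0 with h38 | h38
      · rcases lt_or_ge (N + i + a - b - m + c + d) 0 with h39 | h39
        · exact T0_14 X hb ⟨by clear * - b2 b27 h5 h6 h32 h34 h37 h38 h39; omega, by clear * - b33 h32 h33 h34 h37 h38; omega, by clear * - b27 h4 h5 h6 h32 h34 h37 h38; omega⟩
        exact T0_26 X hb ⟨by clear * - h39; omega, by clear * - b27 h4 h32 h34 h37 h38 h39; omega, by clear * - b23 b27 h32 h33 h37 h38; omega⟩
      exact T0_6 X hb ⟨by clear * - h37; omega, by clear * - h38; omega, by clear * - h1 h38; omega, by clear * - h35; omega⟩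
    exact T0_40 X hb ⟨by clear * - h32 h33; omega, by clear * - h34; omega, by clear * - b2 h33; omega, by clear * - h32; omega⟩
  rcases lt_or_ge (2*a + 2*b + c - 1) 0 with h40 | h40
  · rcases lt_or_ge (-2*N - a - b + 2*l + 4*m - c - d + 1) 0 with h41 | h41
    · rcases lt_or_ge (2*N - i - 2*a - b - l - 2*m + c + d - 2) 0 with h42 | h42
      · rcases lt_or_ge (2*N - i + 2*a + 2*b - 2*l - 2*m + d - 3) 0 with h43 | h43
        · rcases lt_or_ge (-N + i + m - c - d) 0 with h44 | h44
          · exact T0_3 X hb ⟨by clear * - b18 b27 h40 h41 h42 h43 h44; omega, by clear * - b4 b27 h4 h6 h40 h41 h43; omega⟩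
          exact T0_62 X hb ⟨by clear * - b2 b27 b33 h4 h40 h41 h43; omega, by clear * - b2 b27 b33 h4 h40 h41 h43; omega, by clear * - h44; omega, by clear * - b33 h4 h44; omega, by clear * - b27 b33 h4 h33 h40 h41 h42 h43 h44; omega, by clear * - b2 b27 h4 h33 h40 h41 h42; omega⟩
        rcases lt_or_ge (-2*N - 2*a - 2*b + 2*l + 4*m - 2*c - d + 1) 0 with h45 | h45
        · rcases lt_or_ge (-N + i + m - c - d) 0 with h46 | h46
          · exact T0_3 X hb ⟨by clear * - b27 h4 h5 h6 h33 h40 h42 h45 h46; omega, by clear * - b4 b27 h4 h6 h32 h40 h42 h45; omega⟩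
          exact T0_62 X hb ⟨by clear * - b2 b27 b33 h4 h33 h40 h42 h45; omega, by clear * - b2 b27 b33 h4 h33 h40 h42 h45; omega, by clear * - h46; omega, by clear * - b33 h4 h46; omega, by clear * - b27 b33 h4 h33 h40 h42 h45 h46; omega, by clear * - b27 h4 h33 h40 h42 h43 h45; omega⟩
        exact T0_60 X hb ⟨by clear * - h4 h40 h42; omega, by clear * - h45; omega, by clear * - h1 h45; omega, by clear * - h43; omega⟩
      rcases lt_or_ge (-2*N + Q - i + b + l + 2*m - c - d) 0 with h47 | h47
      · rcases lt_or_ge (-N + 2*a + 2*b - 2*c - 1) 0 with h48 | h48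
        · rcases lt_or_ge (N + 2*a + 2*b - l - 2*m + d - 2) 0 with h49 | h49
          · rcases lt_or_ge (2*a + 2*b - 2*c + d - 1) 0 with h50 | h50
            · exact T0_39 X hb (by clear * - b2 b29 h4 h6 h40 h47 h50; omega)
            rcases lt_or_ge (2*c - d - 1) 0 with h51 | h51
            · exact T0_58 X hb ⟨by clear * - b15 b29 h4 h6; omega, by clear * - h4 h41 h48 h49 h51; omega⟩
            rcases lt_or_ge (2*N - l - 2*m + 2*c + d - 2) 0 with h52 | h52
            · exact T0_90 X hb ⟨by clear * - b27 h4 h6 h41 h49 h52; omega, by clear * - b27 b33 h4 h41 h49 h52; omega, by clear * - b4 b27 h6 h41 h49 h52; omega⟩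
            exact T0_67 X hb ⟨by clear * - h33 h41 h49 h50 h51; omega, by clear * - h50; omega, by clear * - h51; omega, by clear * - b29 h4 h6 h40 h47; omega, by clear * - h52; omega, by clear * - h41 h49 h50 h51; omega⟩
          rcases lt_or_ge (-2*N + Q - i - 4*a - 4*b + 2*l + 4*m - 2*d + 1) 0 with h53 | h53
          · rcases lt_or_ge (2*N - i - 3*a - 2*b - l - 2*m + c + d - 2) 0 with h54 | h54
            · rcases lt_or_ge (-2*N - a - b + 2*l + 4*m - 2*c - d + 1) 0 with h55 | h55
              · exact T0_34 X hb ⟨by clear * - b27 h3 h4 h6 h40 h54 h55; omega, by clear * - h42 h47 h54; omega, by clear * - h4 h40 h48 h54; omega⟩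
              rcases lt_or_ge (2*N - i + a + b - 2*l - 2*m + d - 3) 0 with h56 | h56
              · exact T0_67 X hb ⟨by clear * - h4 h33 h40 h41 h48 h54 h55; omega, by clear * - b27 b33 h3 h4 h6 h40 h53 h54; omega, by clear * - b2 b15 h4 h48 h53 h56; omega, by clear * - b30 h6 h33 h40 h53; omega, by clear * - h48 h49; omega, by clear * - h4 h40 h41 h48 h54 h55; omega⟩
              exact T0_6 X hb ⟨by clear * - h4 h40 h54; omega, by clear * - h55; omega, by clear * - h4 h40 h41 h48 h54 h55; omega, by clear * - h56; omega⟩
            exact T0_58 X hb ⟨by clear * - b15 b29 h4 h6; omega, by clear * - h54; omega⟩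
          exact T0_101 X hb ⟨by clear * - b27 h2 h4 h6 h33 h40 h47; omega, by clear * - b23 b29 h2 h40 h41 h48 h49; omega, by clear * - h2 h40 h48 h49; omega, by clear * - h53; omega, by clear * - h49; omega⟩
        rcases lt_or_ge (N - i - l - 2) 0 with h57 | h57
        · rcases lt_or_ge (-N + i + m - c - d) 0 with h58 | h58
          · rcases lt_or_ge (i + a - b) 0 with h59 | h59
            · rcases lt_or_ge (N - i - 2*a - b - l - m - 2) 0 with h60 | h60
              · rcases lt_or_ge (2*N - i + a + b - 2*l - 2*m + d - 3) 0 with h61 | h61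
                · rcases lt_or_ge (N - i - 2*a - 2*b - l - 3*m + c + d + L) 0 with h62 | h62
                  · rcases lt_or_ge (N - 3*a - 3*b + c - 1) 0 with h63 | h63
                    · exact T0_28 X hb ⟨by clear * - b15 b27 h6 h47 h57 h58 h59; omega, by clear * - b32 h41 h42 h58 h59 h60 h62; omega, by clear * - b27 h2 h58 h59 h60 h61 h62 h63; omega⟩
                    exact T0_65 X hb ⟨by clear * - b27 h1 h58 h61 h62 h63; omega, by clear * - b32 h41 h42 h48 h58 h60 h61 h62 h63; omega, by clear * - b27 h2 h40 h42 h58 h60 h62; omega, by clear * - b27 h40 h48 h58 h61 h62; omega, by clear * - h63; omega⟩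
                  exact T0_102 X hb ⟨by clear * - b15 h47 h60; omega, by clear * - h62; omega, by clear * - b27 h6 h42 h47 h57 h59; omega⟩
                rcases lt_or_ge (-2*N - a - b + 2*l + 4*m - 2*c - d + 1) 0 with h64 | h64
                · exact T0_24 X hb ⟨by clear * - b27 h2 h6 h40 h47 h59 h60 h61 h64; omega, by clear * - b23 b27 h32 h64; omega, by clear * - b23 b27 h40 h58 h60 h64; omega, by clear * - b27 h4 h6 h40 h41 h60 h64; omega⟩
                exact T0_6 X hb ⟨by clear * - h2 h40 h59 h60; omega, by clear * - h64; omega, by clear * - h1 h64; omega, by clear * - h61; omega⟩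
              exact T0_88 X hb ⟨by clear * - b27 h2 h4 h6 h57 h58; omega, by clear * - h60; omega, by clear * - b27 h2 h4 h57 h58; omega⟩
            rcases lt_or_ge (-a + b - 1) 0 with h65 | h65
            · exact T0_57 X hb ⟨by clear * - b27 h2 h4 h6 h47 h57; omega, by clear * - b27 h6 h42 h47 h57 h58 h65; omega⟩
            exact T0_3 X hb ⟨by clear * - h59; omega, by clear * - h65; omega⟩
          rcases lt_or_ge (N - 2*b - l - 3*m + c + d + L + 1) 0 with h66 | h66
          · rcases lt_or_ge (-Q + i - 2*a - b + l + c + 1) 0 with h67 | h67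
            · exact T0_28 X hb ⟨by clear * - h32 h47 h67; omega, by clear * - b33 h4 h58; omega, by clear * - b2 b27 h4 h57 h58 h66; omega⟩
            exact T0_66 X hb ⟨by clear * - h67; omega, by clear * - b2 b27 h41 h42 h48 h57 h66; omega, by clear * - b2 b27 h33 h40 h42 h48 h57 h58 h66; omega, by clear * - b2 b27 h4 h33 h41 h42 h57 h66; omega⟩
          exact T0_62 X hb ⟨by clear * - h66; omega, by clear * - b27 h4 h6 h42 h47 h57 h66; omega, by clear * - h58; omega, by clear * - b33 h4 h58; omega, by clear * - b27 h4 h33 h41 h42 h48 h57 h58; omega, by clear * - h4 h58 h66; omega⟩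
        rcases lt_or_ge (-N + l + 2*m - 2*c) 0 with h68 | h68
        · rcases lt_or_ge (N + i + a - b - m + c + d) 0 with h69 | h69
          · exact T0_34 X hb ⟨by clear * - b30 h6 h40 h48 h57 h68; omega, by clear * - b32 b33 h6 h42 h47 h48 h68 h69; omega, by clear * - b2 b30 h6 h40 h47 h68 h69; omega⟩
          rcases lt_or_ge (-N - a + b + m - c - d - 1) 0 with h70 | h70
          · exact T0_36 X hb ⟨by clear * - b4 b27 b30 h4 h6 h40 h48 h68 h70; omega, by clear * - h42 h47; omega, by clear * - b23 b30 h57 h68; omega⟩
          exact T0_26 X hb ⟨by clear * - h69; omega, by clear * - b30 h4 h40 h48 h57 h68 h69; omega, by clear * - h70; omega⟩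
        exact T0_10 X hb ⟨by clear * - b32 b33 h1 h5 h6 h7 h32; omega, by clear * - h48; omega, by clear * - h68; omega, by clear * - b31 b32 h6 h32 h40 h41 h47 h57 h68; omega, by clear * - h57; omega⟩
      exact T0_23 X hb ⟨by clear * - h47; omega, by clear * - h42; omega⟩
    rcases lt_or_ge (2*N - i + a + b - 2*l - 2*m - c + d - 3) 0 with h71 | h71
    · exact T0_59 X hb ⟨by clear * - b4 b14 b27 h1 h4 h6 h40; omega, by clear * - b7 h4 h71; omega, by clear * - b2 b4 b15 b27 h1 h2 h6 h40; omega⟩
    exact T0_61 X hb ⟨by clear * - b18 b27 b33 h1 h40; omega, by clear * - h1 h41; omega, by clear * - h71; omega, by clear * - h41; omega⟩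
  exact T0_33 X hb ⟨by clear * - h33; omega, by clear * - h40; omega⟩

theorem M1 (X : C W N Q i a b l m c d L) (hb : B N Q i a b l m c d L)
    (h1 : (-N + l + 2*m - c) < 0)
    (h2 : (i + l + c + d + 1) < 0)
    (h3 : (b + c - 1) < 0)
    (h4 : (i - b) < 0)
    (h5 : (-N + Q - i + b - c - 1) < 0)
    (h6 : (-Q - l - 2*m + L + 1) < 0)
    (h7 : (-a - b + l + c) ≥ 0)
    (h31 : (a + b + c - 1) < 0)
    (h32 : (3*a + 2*b - l - c - 2) ≥ 0) : False := by
  have b2 := hb.b2
  have b3 := hb.b3
  have b4 := hb.b4
  have b9 := hb.b9
  have b11 := hb.b11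
  have b15 := hb.b15
  have b18 := hb.b18
  have b23 := hb.b23
  have b27 := hb.b27
  have b30 := hb.b30
  have b31 := hb.b31
  have b33 := hb.b33
  have b34 := hb.b34
  rcases lt_or_ge (i - a - 2*b + l + c + 1) 0 with h72 | h72
  · rcases lt_or_ge (-2*N - a - b + 2*l + 4*m - 2*c - d + 1) 0 with h73 | h73
    · rcases lt_or_ge (2*N - i - 2*l - 2*m + d - 3) 0 with h74 | h74
      · rcases lt_or_ge (N - i - l - 2) 0 with h75 | h75
        · rcases lt_or_ge (2*N + Q - i - 2*a - 4*b - l - 2) 0 with h76 | h76
          · rcases lt_or_ge (-4*N + i + 2*a + 2*b + 2*l + 4*m - 2*c - 2*d + 2) 0 with h77 | h77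
            · rcases lt_or_ge (-4*N + i + 3*l + 4*m - 2*c - 2*d + 3) 0 with h78 | h78
              · rcases lt_or_ge (-N - a + b + l + 2*m - c) 0 with h79 | h79
                · rcases lt_or_ge (-N + i - 2*b + l + 2*m - c - d + 1) 0 with h80 | h80
                  · exact T0_45 X hb ⟨by clear * - b15 h5 h31 h75 h79 h80; omega, by clear * - b11 b27 h6 h7 h31 h76; omega, by clear * - h31 h74 h75 h78 h79; omega⟩
                  exact T0_43 X hb ⟨by clear * - h80; omega, by clear * - h7 h72 h75 h78 h80; omega, by clear * - b27 h2 h6 h31 h76 h79; omega, by clear * - b27 h2 h6 h75 h76 h77; omega⟩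
                exact T0_103 X hb ⟨by clear * - b2 b15 h5 h75 h78; omega, by clear * - b27 h2 h5 h6 h72 h73 h74 h75; omega, by clear * - h7 h75 h78; omega, by clear * - h79; omega⟩
              rcases lt_or_ge (-2*N + i - 2*a - 2*b + 2*l + 2*m - 2*d + 2) 0 with h81 | h81
              · exact T0_8 X hb ⟨by clear * - b15 b27 h5 h6 h76 h77 h78; omega, by clear * - h32; omega, by clear * - b15 b27 h5 h6 h77 h78 h81; omega, by clear * - b27 h5 h6 h7 h72 h73 h76 h77 h78 h81; omega⟩
              exact T0_50 X hb ⟨by clear * - h2 h81; omega, by clear * - b2 b27 h6 h31 h76 h77; omega, by clear * - h78; omega, by clear * - h81; omega⟩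
            rcases lt_or_ge (2*N - b - l - 2*m + c + d - 2) 0 with h82 | h82
            · exact T0_42 X hb ⟨by clear * - b27 b33 h3 h5 h6 h73 h82; omega, by clear * - b27 h3 h5 h6 h7 h31 h72 h73 h82; omega, by clear * - b27 h2 h3 h5 h6 h7 h73 h82; omega⟩
            exact T0_11 X hb ⟨by clear * - b27 h2 h6 h7 h31 h76; omega, by clear * - h82; omega, by clear * - h77; omega⟩
          exact T0_15 X hb ⟨by clear * - h76; omega, by clear * - h72 h75; omega, by clear * - b30 h5 h6 h7 h32 h72 h73 h74 h76; omega⟩
        rcases lt_or_ge (-N + l + 2*m - 2*c) 0 with h83 | h83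
        · rcases lt_or_ge (a + b + c) 0 with h84 | h84
          · rcases lt_or_ge (i + l + d + 1) 0 with h85 | h85
            · rcases lt_or_ge (2*N - i - 2*a - b - l - 2*m + c + d - 2) 0 with h86 | h86
              · exact T0_14 X hb ⟨by clear * - b30 h6 h84 h85; omega, by clear * - b33 h72 h83 h84 h86; omega, by clear * - b30 b33 b34 h5 h75 h83 h84 h85; omega⟩
              rcases lt_or_ge (-2*N + Q - i + b + l + 2*m - c - d) 0 with h87 | h87
              · exact T0_8 X hb ⟨by clear * - h72 h74 h86 h87; omega, by clear * - h32; omega, by clear * - b30 h3 h6 h72 h74 h85 h86 h87; omega, by clear * - b31 h6 h72 h74 h83; omega⟩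
              exact T0_23 X hb ⟨by clear * - h87; omega, by clear * - h86; omega⟩
            exact T0_67 X hb ⟨by clear * - h7 h74 h75 h83 h84; omega, by clear * - h7 h32 h72 h84 h85; omega, by clear * - h74 h75 h83; omega, by clear * - h85; omega, by clear * - h75 h83 h85; omega, by clear * - h74 h75 h83 h84; omega⟩
          exact T0_22 X hb ⟨by clear * - h84; omega, by clear * - h31; omega, by clear * - h31 h75 h83; omega, by clear * - h3 h31 h72 h73 h74; omega, by clear * - h3 h5 h6 h7 h31 h72 h83; omega, by clear * - b23 h7 h84; omega⟩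
        exact T0_10 X hb ⟨by clear * - b27 h5 h6 h7 h31 h72 h73 h74 h75; omega, by clear * - h3 h72 h73 h74 h83; omega, by clear * - h83; omega, by clear * - b27 h5 h6 h7 h31 h72 h73 h74 h75; omega, by clear * - h75; omega⟩
      exact T0_7 X hb (by clear * - h74; omega)
    rcases lt_or_ge (-2*N + a + b + l + 2*m - 2*c - d) 0 with h88 | h88
    · exact T0_7 X hb (by clear * - h3 h72 h88; omega)
    rcases lt_or_ge (2*N - i + a + b - 2*l - 2*m + d - 3) 0 with h89 | h89
    · rcases lt_or_ge (-a - 2*b + l + 2*m - c) 0 with h90 | h90
      · exact T0_71 X hb ⟨by clear * - b2 b9 b27 h6 h7 h31 h90; omega, by clear * - b33 h1 h5 h31 h72; omega, by clear * - h73 h90; omega⟩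
      exact T0_8 X hb ⟨by clear * - b33 h1 h5 h31 h72 h89; omega, by clear * - h32; omega, by clear * - h90; omega, by clear * - b27 b33 h1 h5 h6 h7 h32 h72 h89; omega⟩
    exact T0_6 X hb ⟨by clear * - h88; omega, by clear * - h73; omega, by clear * - h1 h73; omega, by clear * - h89; omega⟩
  rcases lt_or_ge (a + 2*b + c - 1) 0 with h91 | h91
  · rcases lt_or_ge (2*N - i + a + b - 2*l - 2*m + d - 3) 0 with h92 | h92
    · rcases lt_or_ge (-2*a - 2*b + l + c) 0 with h93 | h93
      · rcases lt_or_ge (-2*N - 2*a - 2*b + 2*l + 4*m - 2*c - d + 1) 0 with h94 | h94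
        · rcases lt_or_ge (-N + i + m - c - d) 0 with h95 | h95
          · rcases lt_or_ge (-2*a - 2*b + l + c + 1) 0 with h96 | h96
            · rcases lt_or_ge (-4*N + i + 2*a + 2*b + 2*l + 4*m - 2*c - 2*d + 2) 0 with h97 | h97
              · rcases lt_or_ge (N + a + b - l - 2*m + d - 2) 0 with h98 | h98
                · rcases lt_or_ge (N + a + b - l - 2*m + d - 1) 0 with h99 | h99
                  · exact T0_34 X hb ⟨by clear * - b27 h4 h6 h91 h92 h94 h96 h97; omega, by clear * - b4 h97; omega, by clear * - h99; omega⟩
                  exact T0_35 X hb ⟨by clear * - h4 h91 h92 h94 h96 h98; omega, by clear * - h99; omega, by clear * - h98; omega⟩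
                rcases lt_or_ge (2*N - Q - 2*a - 2*b + 2*c) 0 with h100 | h100
                · rcases lt_or_ge (Q - i - 2*b - l - 2*c - 2) 0 with h101 | h101
                  · exact T0_13 X hb ⟨by clear * - b18 b27 h4 h91 h100 h101; omega, by clear * - b27 h4 h5 h6 h91 h92 h94; omega, by clear * - h32 h91 h100 h101; omega⟩
                  exact T0_79 X hb ⟨by clear * - h4 h91 h92 h94 h96 h101; omega, by clear * - h4 h5 h92 h96 h97 h100; omega, by clear * - h101; omega, by clear * - h4 h5 h97 h100; omega, by clear * - b18 b27 h4 h92; omega⟩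
                exact T0_14 X hb ⟨by clear * - b27 h2 h4 h6 h91 h92; omega, by clear * - h98; omega, by clear * - h100; omega⟩
              exact T0_78 X hb ⟨by clear * - h97; omega, by clear * - b27 h2 h5 h6 h72 h91 h94 h95 h97; omega⟩
            rcases lt_or_ge (4*a + 2*b - l - 2) 0 with h102 | h102
            · rcases lt_or_ge (N + a + b - l - 2*m + d - 2) 0 with h103 | h103
              · rcases lt_or_ge (N + a + b - l - 2*m + d - 1) 0 with h104 | h104
                · exact T0_34 X hb ⟨by clear * - b27 h6 h72 h91 h92 h93 h94 h95 h102 h104; omega, by clear * - b33 h5 h91 h93 h94 h95 h102 h104; omega, by clear * - h104; omega⟩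
                exact T0_35 X hb ⟨by clear * - h91 h92 h93 h94 h95 h102 h103; omega, by clear * - h104; omega, by clear * - h103; omega⟩
              exact T0_14 X hb ⟨by clear * - b27 h2 h4 h6 h91 h92; omega, by clear * - h103; omega, by clear * - b18 b27 h4 h5 h96; omega⟩
            exact T0_77 X hb ⟨by clear * - h102; omega, by clear * - h93; omega, by clear * - h96; omega⟩
          rcases lt_or_ge (N - i - 2*a - l - 3*m + c + d + L) 0 with h105 | h105
          · rcases lt_or_ge (-4*N + i + 2*a + 2*b + 2*l + 4*m - 2*c - 2*d + 2) 0 with h106 | h106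
            · rcases lt_or_ge (-N - a - b + l + 2*m - d) 0 with h107 | h107
              · rcases lt_or_ge (-N - a - b + l + 2*m - d + 1) 0 with h108 | h108
                · exact T0_14 X hb ⟨by clear * - b27 h4 h6 h91 h92 h94 h95 h105 h106 h108; omega, by clear * - h108; omega, by clear * - b27 h4 h5 h92 h95 h105 h106; omega⟩
                exact T0_35 X hb ⟨by clear * - h4 h91 h92 h93 h94 h108; omega, by clear * - h107; omega, by clear * - h108; omega⟩
              exact T0_34 X hb ⟨by clear * - b27 h4 h6 h91 h92 h93 h94 h106; omega, by clear * - b4 h106; omega, by clear * - h107; omega⟩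
            exact T0_78 X hb ⟨by clear * - h106; omega, by clear * - b27 h4 h5 h6 h91 h92 h94 h95 h105; omega⟩
          exact T0_62 X hb ⟨by clear * - b2 b27 b33 h4 h91 h92 h94; omega, by clear * - b27 b33 h4 h91 h92 h94; omega, by clear * - h95; omega, by clear * - b34 h4 h5 h6 h91 h92 h93 h94 h95 h105; omega, by clear * - h105; omega, by clear * - b27 h4 h72 h91 h92 h93 h94; omega⟩
        exact T0_60 X hb ⟨by clear * - h4 h91 h92 h93; omega, by clear * - h94; omega, by clear * - h1 h94; omega, by clear * - b33 h2 h93; omega⟩
      rcases lt_or_ge (2*a + 2*b + c - 1) 0 with h109 | h109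
      · rcases lt_or_ge (-2*N - 2*a - 2*b + 2*l + 4*m - 2*c - d + 1) 0 with h110 | h110
        · rcases lt_or_ge (i + a - b) 0 with h111 | h111
          · exact T0_14 X hb ⟨by clear * - b27 h2 h6 h32 h92 h93 h109 h111; omega, by clear * - b33 h32 h92 h109 h110 h111; omega, by clear * - b27 h5 h6 h32 h92 h93 h109 h110 h111; omega⟩
          exact T0_3 X hb ⟨by clear * - h111; omega, by clear * - b4 b27 h4 h6 h92 h109 h110; omega⟩
        exact T0_60 X hb ⟨by clear * - h4 h32 h92 h109; omega, by clear * - h110; omega, by clear * - h1 h110; omega, by clear * - b18 b27 b33 h1 h4 h32 h109; omega⟩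
      exact T0_33 X hb ⟨by clear * - h93; omega, by clear * - h109; omega⟩
    rcases lt_or_ge (-2*N + a + b + l + 2*m - 2*c - d) 0 with h112 | h112
    · rcases lt_or_ge (2*N - i - 2*l - 2*m + d - 3) 0 with h113 | h113
      · exact T0_33 X hb ⟨by clear * - h4 h91 h112 h113; omega, by clear * - h4 h32 h112 h113; omega⟩
      exact T0_7 X hb (by clear * - h113; omega)
    rcases lt_or_ge (-2*N - a - b + 2*l + 4*m - 2*c - d + 1) 0 with h114 | h114
    · rcases lt_or_ge (2*N - i - 2*l - 2*m + d - 3) 0 with h115 | h115
      · rcases lt_or_ge (-2*N + Q - i - 2*a - 2*b + l + 4*m - 2*c - 2*d) 0 with h116 | h116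
        · rcases lt_or_ge (N - i - l - 2) 0 with h117 | h117
          · rcases lt_or_ge (-4*N + i + 4*a + 4*b + 2*l + 4*m - 2*c - 2*d + 2) 0 with h118 | h118
            · rcases lt_or_ge (-N + l + 2*m - d) 0 with h119 | h119
              · rcases lt_or_ge (-N + i + m - c - d) 0 with h120 | h120
                · rcases lt_or_ge (-N + l + 2*m - d + 1) 0 with h121 | h121
                  · exact T0_53 X hb ⟨by clear * - h121; omega, by clear * - b27 h2 h4 h5 h6 h115 h118 h121; omega⟩
                  exact T0_52 X hb ⟨by clear * - h92 h117 h118 h121; omega, by clear * - h121; omega, by clear * - h119; omega⟩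
                exact T0_62 X hb ⟨by clear * - b2 b27 h4 h117 h118 h120; omega, by clear * - b27 h4 h6 h72 h91 h114 h115 h116; omega, by clear * - h120; omega, by clear * - b33 h4 h120; omega, by clear * - b30 h4 h112 h114 h118 h120; omega, by clear * - b30 h2 h4 h91 h114; omega⟩
              exact T0_36 X hb ⟨by clear * - b27 h4 h6 h91 h112 h114 h116 h117 h118; omega, by clear * - b23 b27 h116 h118; omega, by clear * - h119; omega⟩
            exact T0_28 X hb ⟨by clear * - b27 h4 h5 h6 h91 h114 h117; omega, by clear * - b27 b34 h4 h112 h114; omega, by clear * - h118; omega⟩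
          rcases lt_or_ge (-N + l + 2*m - 2*c) 0 with h122 | h122
          · exact T0_36 X hb ⟨by clear * - b3 b27 h4 h6 h91 h112 h116 h122; omega, by clear * - b27 b34 h91 h116 h117 h122; omega, by clear * - h115 h117; omega⟩
          exact T0_10 X hb ⟨by clear * - b30 b34 h91 h114 h115 h117; omega, by clear * - h112 h114 h122; omega, by clear * - h122; omega, by clear * - b27 h4 h5 h6 h31 h91 h114 h115; omega, by clear * - h117; omega⟩
        rcases lt_or_ge (N + a + b - l - 2*m + d - 2) 0 with h123 | h123
        · rcases lt_or_ge (2*N - i - 2*a - 2*b - l - 4*m + 2*c + 2*d + L) 0 with h124 | h124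
          · rcases lt_or_ge (-4*N + i + 4*a + 4*b + 2*l + 4*m - 2*c - 2*d + 2) 0 with h125 | h125
            · rcases lt_or_ge (-N + i + m - c - d) 0 with h126 | h126
              · rcases lt_or_ge (a + 2*b + c) 0 with h127 | h127
                · rcases lt_or_ge (-2*a - 2*b + l + c) 0 with h128 | h128
                  · rcases lt_or_ge (N + a + b - l - 2*m + d - 1) 0 with h129 | h129
                    · exact T0_34 X hb ⟨by clear * - b30 h6 h112 h114 h125 h128 h129; omega, by clear * - h4 h5 h114 h115 h125 h126 h127 h128 h129; omega, by clear * - h129; omega⟩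
                    exact T0_35 X hb ⟨by clear * - h112 h114 h123; omega, by clear * - h129; omega, by clear * - h123; omega⟩
                  exact T0_33 X hb ⟨by clear * - h128; omega, by clear * - b30 h92 h112 h114 h123 h124 h126 h128; omega⟩
                exact T0_81 X hb ⟨by clear * - h127; omega, by clear * - h91; omega, by clear * - h91 h92 h114 h123; omega, by clear * - h91 h112 h114; omega, by clear * - b33 h112 h114 h124 h126; omega⟩
              exact T0_62 X hb ⟨by clear * - b30 h4 h32 h91 h114 h115 h123 h125 h126; omega, by clear * - b30 h4 h91 h92 h114 h115 h123 h125; omega, by clear * - h126; omega, by clear * - b33 h4 h126; omega, by clear * - b30 h4 h112 h114 h125 h126; omega, by clear * - b30 h92 h112 h114 h123 h125; omega⟩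
            exact T0_28 X hb ⟨by clear * - b27 b33 h31 h91 h92 h114 h123 h124; omega, by clear * - b27 b34 h4 h112 h114; omega, by clear * - h125; omega⟩
          exact T0_80 X hb ⟨by clear * - h32 h91 h112 h114 h123; omega, by clear * - h124; omega⟩
        rcases lt_or_ge (2*N - Q - 2*a - 2*b + 2*c) 0 with h130 | h130
        · exact T0_13 X hb ⟨by clear * - b27 b34 h4 h5 h91 h114 h116 h130; omega, by clear * - b33 h4 h5 h91 h114 h115 h116 h130; omega, by clear * - b27 b34 h4 h5 h112 h114 h130; omega⟩
        exact T0_14 X hb ⟨by clear * - h116; omega, by clear * - h123; omega, by clear * - h130; omega⟩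
      exact T0_7 X hb (by clear * - h115; omega)
    exact T0_6 X hb ⟨by clear * - h112; omega, by clear * - h114; omega, by clear * - h1 h114; omega, by clear * - h92; omega⟩
  exact T0_21 X hb ⟨by clear * - h72; omega, by clear * - h32; omega, by clear * - h7 h31 h91; omega, by clear * - h91; omega⟩

theorem M2 (X : C W N Q i a b l m c d L) (hb : B N Q i a b l m c d L)
    (h1 : (-N + l + 2*m - c) < 0)
    (h2 : (i + l + c + d + 1) < 0)
    (h3 : (b + c - 1) < 0)
    (h4 : (i - b) < 0)
    (h5 : (-N + Q - i + b - c - 1) < 0) : False := by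
  have b2 := hb.b2
  have b3 := hb.b3
  have b11 := hb.b11
  have b15 := hb.b15
  have b27 := hb.b27
  have b30 := hb.b30
  have b33 := hb.b33
  have b34 := hb.b34
  rcases lt_or_ge (-Q - l - 2*m + L + 1) 0 with h6 | h6
  · rcases lt_or_ge (-a - b + l + c) 0 with h7 | h7
    · rcases lt_or_ge (2*N - i - 2*l - 2*m + d - 3) 0 with h8 | h8
      · rcases lt_or_ge (-2*N - a - b + 2*l + 4*m - 2*c - d + 1) 0 with h9 | h9
        · rcases lt_or_ge (-4*N + i + 2*a + 2*b + 2*l + 4*m - 2*c - 2*d + 2) 0 with h10 | h10
          · rcases lt_or_ge (-N + l + 2*m - 2*c) 0 with h11 | h11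
            · rcases lt_or_ge (-a + b - 1) 0 with h12 | h12
              · rcases lt_or_ge (-N + b + l + 2*m - c + 1) 0 with h13 | h13
                · rcases lt_or_ge (2*N - Q + i + 2*b - 2*m + 2*c + 2*d) 0 with h14 | h14
                  · rcases lt_or_ge (2*a - l - c - 2) 0 with h15 | h15
                    · exact T0_42 X hb ⟨by clear * - b30 b34 h7 h12 h13; omega, by clear * - h7 h13 h15; omega, by clear * - h3 h4 h5 h7 h8 h10 h13 h14 h15; omega⟩
                    exact T0_85 X hb ⟨by clear * - h8 h10 h15; omega, by clear * - h15; omega, by clear * - b30 b34 h4 h7 h11 h13; omega⟩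
                  exact T0_55 X hb ⟨by clear * - b3 b30 b34 h7 h12; omega, by clear * - h14; omega, by clear * - h13; omega⟩
                exact T0_84 X hb ⟨by clear * - h2 h7 h8 h12 h13; omega, by clear * - h13; omega, by clear * - h3 h11; omega⟩
              rcases lt_or_ge (i + a - b) 0 with h16 | h16
              · rcases lt_or_ge (-N + i - 2*b + l + 2*m - c - d + 1) 0 with h17 | h17
                · rcases lt_or_ge (2*N + Q - i - 2*a - 4*b - l - 2) 0 with h18 | h18
                  · rcases lt_or_ge (N + a + b - l - 2*m + c + d - 2) 0 with h19 | h19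
                    · rcases lt_or_ge (N + a + b - l - 2*m + c + d - 1) 0 with h20 | h20
                      · exact T0_46 X hb ⟨by clear * - b33 h3 h5 h7 h11 h17 h18; omega, by clear * - b30 h3 h5 h6 h7 h11 h17 h18; omega, by clear * - h20; omega, by clear * - b11 b30 h3 h6 h7 h10 h11 h18; omega⟩
                      exact T0_18 X hb ⟨by clear * - h20; omega, by clear * - h19; omega⟩
                    exact T0_17 X hb (by clear * - h19; omega)
                  exact T0_15 X hb ⟨by clear * - h18; omega, by clear * - h3 h7 h8 h17; omega, by clear * - b33 h3 h4 h5 h7 h8 h11 h18; omega⟩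
                rcases lt_or_ge (N + 2*b - l - 2*m + c + d - 2) 0 with h21 | h21
                · rcases lt_or_ge (-2*N + i + 4*a + 4*b - 2*c) 0 with h22 | h22
                  · exact T0_92 X hb ⟨by clear * - b33 h3 h7 h8; omega, by clear * - h3 h7 h8 h11 h12 h16 h22; omega, by clear * - h3 h7 h11 h16 h17; omega⟩
                  exact T0_13 X hb ⟨by clear * - h7 h10 h16 h17 h22; omega, by clear * - b30 b34 h7 h10 h11 h21; omega, by clear * - h22; omega⟩
                exact T0_43 X hb ⟨by clear * - h17; omega, by clear * - b33 h3 h8 h9 h16; omega, by clear * - h3 h4 h7 h8 h11; omega, by clear * - h21; omega⟩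
              exact T0_3 X hb ⟨by clear * - h16; omega, by clear * - h12; omega⟩
            rcases lt_or_ge (N - i - l - 2) 0 with h23 | h23
            · rcases lt_or_ge (2*N + Q - i - 2*a - 4*b - l - 2) 0 with h24 | h24
              · rcases lt_or_ge (-N + a - l - c - 2*d - 2) 0 with h25 | h25
                · exact T0_8 X hb ⟨by clear * - b15 h5 h10 h23 h24 h25; omega, by clear * - b2 h4 h7 h8 h10; omega, by clear * - b15 h3 h5 h25; omega, by clear * - b27 h4 h5 h6 h7 h8 h9 h23; omega⟩
                rcases lt_or_ge (-N + i + a + l + 2*m - c + 1) 0 with h26 | h26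
                · rcases lt_or_ge (-N + b + l + 2*m - c) 0 with h27 | h27
                  · rcases lt_or_ge (-N + Q - i + 2*a + 2*b - l - 2*c - 2) 0 with h28 | h28
                    · exact T0_46 X hb ⟨by clear * - b11 b27 h6 h10 h24 h27; omega, by clear * - b30 b33 h6 h7 h11 h24 h27; omega, by clear * - b15 h11 h28; omega, by clear * - b11 b30 h6 h7 h10 h24 h27; omega⟩
                    exact T0_44 X hb ⟨by clear * - b30 h5 h6 h11 h26 h27; omega, by clear * - h11; omega, by clear * - b30 h5 h6 h26 h28; omega, by clear * - b27 h5 h6 h11 h23 h26 h27; omega, by clear * - h28; omega⟩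
                  exact T0_45 X hb ⟨by clear * - b2 h5 h7 h23 h26; omega, by clear * - h27; omega, by clear * - b2 b27 h5 h6 h7 h10 h23 h26; omega⟩
                exact T0_42 X hb ⟨by clear * - h26; omega, by clear * - b15 b27 h5 h6 h10 h23 h24; omega, by clear * - h25; omega⟩
              exact T0_15 X hb ⟨by clear * - h24; omega, by clear * - h4 h7 h23; omega, by clear * - b15 b33 h5; omega⟩
            exact T0_10 X hb ⟨by clear * - h8 h10 h23; omega, by clear * - h3 h4 h7 h8 h9 h11; omega, by clear * - h11; omega, by clear * - b3 h3 h5; omega, by clear * - h23; omega⟩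
          rcases lt_or_ge (-2*N - i + 2*b + 2*m - 2*c - 2*d - 1) 0 with h29 | h29
          · exact T0_78 X hb ⟨by clear * - h10; omega, by clear * - h2 h29; omega⟩
          rcases lt_or_ge (2*N - b - l - 2*m + c + d - 2) 0 with h30 | h30
          · exact T0_42 X hb ⟨by clear * - b27 b33 h3 h5 h6 h9 h30; omega, by clear * - b3 h3 h5 h9 h30; omega, by clear * - b15 h3 h5 h9 h30; omega⟩
          exact T0_11 X hb ⟨by clear * - h29; omega, by clear * - h30; omega, by clear * - h10; omega⟩
        exact T0_6 X hb ⟨by clear * - h3 h4 h7 h8; omega, by clear * - h9; omega, by clear * - h1 h9; omega, by clear * - b33 h2 h7; omega⟩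
      exact T0_7 X hb (by clear * - h8; omega)
    rcases lt_or_ge (a + b + c - 1) 0 with h31 | h31
    · rcases lt_or_ge (3*a + 2*b - l - c - 2) 0 with h32 | h32
      · exact M0 X hb h1 h2 h3 h4 h5 h6 h7 h32
      exact M1 X hb h1 h2 h3 h4 h5 h6 h7 h31 h32
    exact T0_9 X hb ⟨by clear * - h7; omega, by clear * - h31; omega⟩
  exact T0_5 X hb (by clear * - h6; omega)

theorem main (X : C W N Q i a b l m c d L) (hb : B N Q i a b l m c d L) : False := by
  have b1 := hb.b1
  have b2 := hb.b2
  have b4 := hb.b4
  have b6 := hb.b6
  have b9 := hb.b9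
  have b11 := hb.b11
  have b15 := hb.b15
  have b18 := hb.b18
  have b19 := hb.b19
  have b23 := hb.b23
  have b26 := hb.b26
  have b27 := hb.b27
  have b33 := hb.b33
  have b34 := hb.b34
  have b35 := hb.b35
  rcases lt_or_ge (-N + l + 2*m - c) 0 with h1 | h1
  · rcases lt_or_ge (i + l + c + d + 1) 0 with h2 | h2
    · rcases lt_or_ge (b + c - 1) 0 with h3 | h3
      · rcases lt_or_ge (i - b) 0 with h4 | h4
        · rcases lt_or_ge (-N + Q - i + b - c - 1) 0 with h5 | h5
          · exact M2 X hb h1 h2 h3 h4 h5
          rcases lt_or_ge (N - 2*a - b + c - 1) 0 with h131 | h131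
          · rcases lt_or_ge (-4*N + i + 2*a + 2*b + 2*l + 4*m - 2*c - 2*d + 2) 0 with h132 | h132
            · rcases lt_or_ge (2*N - i - 2*l - 2*m + d - 3) 0 with h133 | h133
              · rcases lt_or_ge (N + 2*c - 1) 0 with h134 | h134
                · rcases lt_or_ge (-N + Q - i - a + b - c - 1) 0 with h135 | h135
                  · rcases lt_or_ge (-Q - l - 2*m + L + 1) 0 with h136 | h136
                    · rcases lt_or_ge (-2*N + i + 2*a + b + m - 2*c - d) 0 with h137 | h137
                      · rcases lt_or_ge (N - a - b + d - 1) 0 with h138 | h138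
                        · rcases lt_or_ge (-2*N - a - b + 2*l + 4*m - 2*c - d + 1) 0 with h139 | h139
                          · exact T0_3 X hb ⟨by clear * - b27 h133 h134 h135 h136 h137 h138 h139; omega, by clear * - b27 b34 h134 h138 h139; omega⟩
                          exact T0_6 X hb ⟨by clear * - b27 h1 h4 h133 h134 h135 h136; omega, by clear * - h139; omega, by clear * - h1 h139; omega, by clear * - b18 b27 b34 h131 h132 h138; omega⟩
                        exact T0_82 X hb ⟨by clear * - h138; omega, by clear * - b27 b34 h131 h138; omega, by clear * - b27 b34 h1 h2 h133 h135 h136 h137; omega, by clear * - b27 b34 h1 h131 h138; omega⟩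
                      rcases lt_or_ge (-i + b - l - 3*m + d + L) 0 with h140 | h140
                      · rcases lt_or_ge (-2*N - a - b + 2*l + 4*m - 2*c - d + 1) 0 with h141 | h141
                        · exact T0_3 X hb ⟨by clear * - b27 h131 h132 h133 h137 h140; omega, by clear * - b27 b34 h4 h132 h133 h134 h140 h141; omega⟩
                        exact T0_6 X hb ⟨by clear * - b33 h1 h4 h137 h141; omega, by clear * - h141; omega, by clear * - h1 h141; omega, by clear * - b27 b34 h1 h4 h131 h132 h137 h140; omega⟩
                      exact T0_19 X hb ⟨by clear * - h137; omega, by clear * - b6 b27 b34 h132; omega, by clear * - b15 b27 h2 h132 h133 h135 h136; omega, by clear * - h140; omega, by clear * - h136 h140; omega⟩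
                    exact T0_5 X hb (by clear * - h136; omega)
                  exact T0_68 X hb ⟨by clear * - h135; omega, by clear * - b18 b23 b27 h132 h133 h134; omega⟩
                rcases lt_or_ge (N - 2*a - 2*b - 1) 0 with h142 | h142
                · exact T0_17 X hb (by clear * - b1 h132 h142; omega)
                rcases lt_or_ge (N - 2*a - 2*b + l + 2*c) 0 with h143 | h143
                · rcases lt_or_ge (-N + Q - i - a + b - c - 1) 0 with h144 | h144
                  · rcases lt_or_ge (-i + b - l - 3*m + d + L) 0 with h145 | h145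
                    · rcases lt_or_ge (-a + b - 1) 0 with h146 | h146
                      · exact T0_15 X hb ⟨by clear * - b27 h2 h5 h132 h133 h142 h144 h145 h146; omega, by clear * - h4 h132 h133 h134 h142 h143; omega, by clear * - h134 h142 h144; omega⟩
                      exact T0_3 X hb ⟨by clear * - b27 h2 h131 h132 h133 h143 h145 h146; omega, by clear * - h146; omega⟩
                    exact T0_19 X hb ⟨by clear * - b15 h132 h133 h134 h142 h143 h144; omega, by clear * - b27 b34 h132 h133 h134 h143; omega, by clear * - b15 h134 h142 h144; omega, by clear * - h145; omega, by clear * - b33 h5; omega⟩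
                  exact T0_68 X hb ⟨by clear * - h144; omega, by clear * - h134 h142 h143; omega⟩
                exact T0_44 X hb ⟨by clear * - h143; omega, by clear * - b27 b34 h131 h142; omega, by clear * - h134; omega, by clear * - h142; omega, by clear * - b18 b27 h5 h131; omega⟩
              exact T0_7 X hb (by clear * - h133; omega)
            rcases lt_or_ge (-2*N - i + 2*b + 2*m - 2*c - 2*d - 1) 0 with h147 | h147
            · exact T0_78 X hb ⟨by clear * - h132; omega, by clear * - h2 h147; omega⟩
            rcases lt_or_ge (2*N - b - l - 2*m + c + d - 2) 0 with h148 | h148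
            · rcases lt_or_ge (-2*N - a - b + 2*l + 4*m - 2*c - d + 1) 0 with h149 | h149
              · rcases lt_or_ge (-2*N + Q - i - a + l + 2*m - c - d) 0 with h150 | h150
                · rcases lt_or_ge (Q - i + 2*a + 2*b - 2*l - 2*m - 3) 0 with h151 | h151
                  · rcases lt_or_ge (-Q - l - 2*m + L + 1) 0 with h152 | h152
                    · rcases lt_or_ge (i + 2*a + b + d) 0 with h153 | h153
                      · rcases lt_or_ge (2*N + 2*a - 2*l - 2*m - L - 4) 0 with h154 | h154
                        · rcases lt_or_ge (-b - l + m - 2*c - d - 2) 0 with h155 | h155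
                          · rcases lt_or_ge (2*N + Q - i - l + 2*d - 2) 0 with h156 | h156
                            · exact T0_9 X hb ⟨by clear * - b9 b27 h3 h152 h155 h156; omega, by clear * - b9 b27 h131 h148 h149 h151 h152 h154 h155 h156; omega⟩
                            rcases lt_or_ge (4*N - Q + i - 2*a - 2*b - 2*m + 4*c + 2*d) 0 with h157 | h157
                            · rcases lt_or_ge (a + b - m + d - 1) 0 with h158 | h158
                              · rcases lt_or_ge (-a - b + l + c) 0 with h159 | h159
                                · exact T0_71 X hb ⟨by clear * - h3 h149 h150 h155 h156 h157 h158; omega, by clear * - h149 h150 h151 h153 h155 h156 h157 h158; omega, by clear * - h151 h155 h157 h158 h159; omega⟩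
                                exact T0_9 X hb ⟨by clear * - h159; omega, by clear * - h131 h148 h149 h151 h156 h158 h159; omega⟩
                              exact T0_104 X hb ⟨by clear * - h158; omega, by clear * - b27 h131 h149 h151 h152 h153; omega⟩
                            rcases lt_or_ge (Q + 2*a + 2*b + 2*d) 0 with h160 | h160
                            · exact T0_9 X hb ⟨by clear * - b27 h3 h152 h155 h160; omega, by clear * - b27 h131 h148 h149 h152 h154 h156 h157 h160; omega⟩
                            exact T0_94 X hb ⟨by clear * - b27 h3 h132 h148 h149 h152 h153 h157; omega, by clear * - h160; omega, by clear * - h157; omega, by clear * - h131 h148 h150 h152 h153 h154 h156 h157; omega⟩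
                          rcases lt_or_ge (-b + m - d - 1) 0 with h161 | h161
                          · exact T0_104 X hb ⟨by clear * - b33 h131 h161; omega, by clear * - b27 h131 h149 h151 h152 h153; omega⟩
                          rcases lt_or_ge (-2*N + Q - i + b + m - 2*c - d - 1) 0 with h162 | h162
                          · exact T0_19 X hb ⟨by clear * - b27 h3 h148 h149 h152 h162; omega, by clear * - b9 h149 h151 h152 h154; omega, by clear * - h161; omega, by clear * - b9 h3 h131 h148 h149 h152 h154 h162; omega, by clear * - h5 h162; omega⟩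
                          exact T0_95 X hb ⟨by clear * - b9 h149 h151 h152 h154; omega, by clear * - h162; omega, by clear * - h155; omega, by clear * - h161; omega, by clear * - b9 h131 h149 h151 h154 h162; omega⟩
                        rcases lt_or_ge (2*N - b - l - 2*m + c + d - 1) 0 with h163 | h163
                        · exact T0_71 X hb ⟨by clear * - b27 h3 h131 h149 h151 h152 h153; omega, by clear * - b11 h149 h151; omega, by clear * - h163; omega⟩
                        exact T0_72 X hb ⟨by clear * - h163; omega, by clear * - h148; omega, by clear * - h154; omega⟩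
                      rcases lt_or_ge (-2*a - b - d - 1) 0 with h164 | h164
                      · rcases lt_or_ge (-Q + 2*a + 2*b - l - 4*m + 2*d + L + 1) 0 with h165 | h165
                        · rcases lt_or_ge (2*N - b - l - 2*m + c + d - 1) 0 with h166 | h166
                          · exact T0_71 X hb ⟨by clear * - b26 h2 h3 h149 h164 h165; omega, by clear * - b27 b35 h2 h3 h149 h151 h164 h166; omega, by clear * - h166; omega⟩
                          exact T0_72 X hb ⟨by clear * - h166; omega, by clear * - h148; omega, by clear * - b9 h3 h148 h149 h151 h164 h165; omega⟩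
                        exact T0_105 X hb ⟨by clear * - h152 h165; omega, by clear * - h165; omega⟩
                      exact T0_73 X hb ⟨by clear * - h153; omega, by clear * - h164; omega, by clear * - h1 h4 h5 h151 h153; omega⟩
                    exact T0_5 X hb (by clear * - h152; omega)
                  exact T0_12 X hb ⟨by clear * - h151; omega, by clear * - b33 h3 h148 h149 h150; omega, by clear * - b6 b9 h3 h148; omega⟩
                exact T0_59 X hb ⟨by clear * - b27 b35 h3 h148 h149; omega, by clear * - h150; omega, by clear * - b23 b27 h3 h149; omega⟩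
              rcases lt_or_ge (2*N - i + a + b - 2*l - 2*m + d - 3) 0 with h167 | h167
              · rcases lt_or_ge (-2*N + Q - i + a + b + 2*m - 2*c - d - 1) 0 with h168 | h168
                · exact T0_8 X hb ⟨by clear * - h148 h168; omega, by clear * - b18 b27 b35 h1 h4 h131 h148 h167; omega, by clear * - b9 b27 b35 h131 h149 h167; omega, by clear * - b18 b27 b33 h1 h4 h131 h148 h167; omega⟩
                exact T0_96 X hb ⟨by clear * - h149; omega, by clear * - b18 b27 b33 h1 h4 h131 h167; omega, by clear * - h1 h149; omega, by clear * - h168; omega⟩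
              exact T0_6 X hb ⟨by clear * - b33 h3 h132 h147; omega, by clear * - h149; omega, by clear * - h1 h149; omega, by clear * - h167; omega⟩
            exact T0_11 X hb ⟨by clear * - h147; omega, by clear * - h148; omega, by clear * - h132; omega⟩
          exact T0_4 X hb ⟨by clear * - h131; omega, by clear * - h5; omega, by clear * - b18 b27 h3; omega⟩
        exact T0_76 X hb (by clear * - h4; omega)
      rcases lt_or_ge (2*a + b - l - c - 2) 0 with h169 | h169
      · rcases lt_or_ge (-a - b + l + c) 0 with h170 | h170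
        · exact T0_86 X hb ⟨by clear * - h169 h170; omega, by clear * - h3 h169; omega, by clear * - b2 h170; omega, by clear * - h169; omega⟩
        exact T0_9 X hb ⟨by clear * - h170; omega, by clear * - b2 h3; omega⟩
      exact T0_2 X hb ⟨by clear * - h169; omega, by clear * - h3; omega⟩
    rcases lt_or_ge (c - d - 1) 0 with h171 | h171
    · rcases lt_or_ge (i - b) 0 with h172 | h172
      · rcases lt_or_ge (N - a - b + 2*c - d - 1) 0 with h173 | h173
        · rcases lt_or_ge (-N + Q - i - a + b - c - 1) 0 with h174 | h174
          · exact T0_83 X hb ⟨by clear * - b15 b27 b34 h1 h2 h172 h173 h174; omega, by clear * - b15 h1 h2 h173 h174; omega, by clear * - b27 b34 h1; omega⟩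
          exact T0_68 X hb ⟨by clear * - h174; omega, by clear * - b19 b23 b27 h1 h173; omega⟩
        exact T0_82 X hb ⟨by clear * - h171 h173; omega, by clear * - b2 b23 b27 h1 h2 h171 h172; omega, by clear * - h173; omega, by clear * - b4 b15 b33 h1 h171; omega⟩
      exact T0_76 X hb (by clear * - h172; omega)
    exact T0_1 X hb ⟨by clear * - h171; omega, by clear * - h2; omega⟩
  exact T0_0 X hb (by clear * - h1; omega)


end Pool.Agent.MP_a38735_al.WL.E22b
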