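import Pool.Agent.MP_a38735_al.AQ

set_option autoImplicit false
set_option linter.unusedVariables false
set_option linter.unusedSimpArgs false

namespace Pool.Agent.MP_a38735_al.WL.E22b

variable {G : Type*} [Group G]

structure C (W : ℤ → G) (N Q i a b l m c d L : ℤ) : Prop where
  al : AL W (2*N) Q
  a1 : Par W (0) (i + 2*a) (2*b)
  a2 : Par W (Q - 2*b) (i + 2*a) (2*b)
  s1 : Ant W (0) (i) (2*i + 2*a)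
  s2 : Ant W (i + 2*a + 1) (Q) (2*i + 2*a)
  bb : Par W (i + 1) (i + l + 1) (2*a + 2*b)
  c1 : Par W (i + l + 2*c + 2) (Q) (2*a + 2*b - 2*c)
  c2 : Par W (i + 2*a + 2*b + l + 2) (2*N) (-2*a - 2*b + 2*c)
  S2 : Ant W (i - 2*m + 2*c + 1) (i + l + 2*c + 1) (2*i + 2*l + 2*c + 2)
  d1 : Par W (i + 2*l + 2*m + 3) (2*N) (2*N - 2*l - 4*m + 2*c + 2*d - 2)
  d2 : Par W (2*N + i - 2*m + 2*c + 2*d + 1) (Q) (-2*N + 2*l + 4*m - 2*c - 2*d + 2)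
  d3 : Par W (0) (2*N + i - 2*m + 2*c + 2*d) (-2*d)
  g1 : Par W (i + 1) (-l - 2*m + L + 1) (2*N - 2*m + 2*c + 2*d)
  g2 : Par W (i + 1) (-4*N + Q + l + 2*m - 2*c - 2*d + L + 3) (2*N - 2*m + 2*c + 2*d)
  n1 : Nd W (i + 2*a) (i) (i + 2*a + 2*b)
  n2 : Nd W (i + l + 1) (i + l + 2*c + 1) (i + 2*a + 2*b + l + 1)
  n3 : Nd W (2*N + i - 2*m + 2*c) (i + 2*l + 2*m + 2) (2*N + i - 2*m + 2*c + 2*d)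
  lam : L2 W (2*N) L (i + 2*a) (i) (i + 2*a + 2*b) (2*N + i - 2*m + 2*c) (i + 2*l + 2*m + 2) (2*N + i - 2*m + 2*c + 2*d)


/-- the linear side conditions -/
structure B (N Q i a b l m c d L : ℤ) : Prop where
  b1 : 0 ≤ i
  b2 : 0 ≤ a
  b3 : i + 2*a + 1 ≤ Q
  b4 : Q ≤ i + 2*a + 2*b
  b5 : i + 2*a + 2*b + 1 ≤ 2*N
  b6 : 0 ≤ i + l + 2*c + 1
  b7 : i + l + 2*c + 2 ≤ Q
  b8 : Q ≤ i + l + 1
  b9 : i + 2*a + 2*b + l + 2 ≤ 2*N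
  b10 : Q + 2*m ≤ 2*N + i + 2*c
  b11 : i + 2*c + 1 ≤ 2*m
  b12 : Q ≤ i + 2*l + 2*m + 2
  b13 : i + 2*l + 2*m + 3 ≤ 2*N
  b14 : 2*m ≤ 2*N + i + 2*c + 2*d
  b15 : 2*N + i + 2*c + 2*d + 1 ≤ Q + 2*m
  b16 : i + 2*a + L + 3 ≤ 2*N
  b17 : i + 2*a + 2*b + L + 3 ≤ 2*N + Q
  b18 : l + L + 3 ≤ 2*N
  b19 : 2*a + 2*b + L + 2 ≤ 2*N
  b20 : i + 2*c + 2*d + L + 3 ≤ 2*m
  b21 : L ≤ i + 2*l + 2*m
  b22 : Q + 2*m + L + 2 ≤ 4*N + i + 2*c + 2*d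
  b23 : 2*N + 2*c + 2*d + L ≤ 2*l + 4*m
  b24 : 0 ≤ L
  b25 : i + 2*a ≤ L
  b26 : i + 2*a + 2*b ≤ Q + L
  b27 : l ≤ L
  b28 : Q ≤ i + l + 2*c + L + 2
  b29 : 2*N ≤ i + 2*a + 2*b + l + L + 2
  b30 : 2*N ≤ i + 2*l + 2*m + L + 3
  b31 : Q + 2*m ≤ 2*N + i + 2*c + 2*d + L + 1
  b32 : 2*N + i + 2*c + 2*d ≤ 2*m + L
  b33 : m + 1 ≤ N + c + d
  b34 : 2*a + L ≤ 2*l + 2*m
  b35 : 2*a + 2*b + 2*m + L + 2 ≤ 4*N + 2*c + 2*d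

variable {W : ℤ → G} {N Q i a b l m c d L U V Y : ℤ}

end Pool.Agent.MP_a38735_al.WL.E22b
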