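import Pool.Agent.MP_a38735_al.E22bh

set_option autoImplicit false
set_option linter.unusedVariables false
set_option linter.unusedSimpArgs false

namespace Pool.Agent.MP_a38735_al.WL.E22b

variable {G : Type*} [Group G]

variable {W : ℤ → G} {N Q i a b l m c d L U V Y : ℤ}

theorem T0_0 (X : C W N Q i a b l m c d L) (hb : B N Q i a b l m c d L)
    (h : N + c ≤ l + 2*m) :
    False := by
  have b15 := hb.b15
  have b18 := hb.b18
  have b28 := hb.b28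
  have b33 := hb.b33
  have g1 := h
  have k1 : 1 ≤ N + c := by clear * - b15 b18 b28 b33; omega
  clear * - X g1 k1
  exact X.al.ninv (-N + i + l + c + 1) (fin X.al.per (-1) _ (af X.S2 X.al.per 0 (N + i + l + c + 1) (rfl : W (-N + i + l + c + 1) = W (-N + i + l + c + 1)) (by omega)) (by omega))

theorem T0_1 (X : C W N Q i a b l m c d L) (hb : B N Q i a b l m c d L)
    (h : d + 1 ≤ c ∧ 0 ≤ i + l + c + d + 1) :
    False := by
  have b11 := hb.b11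
  have b13 := hb.b13
  obtain ⟨g1, g2⟩ := h
  have k1 : c ≤ l + 2*m + d := by clear * - b11 g2; omega
  have k2 : l + 2*m + 2 ≤ 2*N + c + d := by clear * - b13 g2; omega
  clear * - X g1 g2 k1 k2
  exact X.al.ninv (i + l + c + d + 1) (fin X.al.per 0 _ (pr X.d3 X.al.per 0 (i + l + c + d + 1) (af X.S2 X.al.per 0 (i + l + c - d + 1) (rfl : W (i + l + c + d + 1) = W (i + l + c + d + 1)) (by omega)) (by omega)) (by omega))

theorem T0_2 (X : C W N Q i a b l m c d L) (hb : B N Q i a b l m c d L)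
    (h : l + c + 2 ≤ 2*a + b ∧ 1 ≤ b + c) :
    False := by
  have b2 := hb.b2
  have b8 := hb.b8
  have b11 := hb.b11
  have b19 := hb.b19
  have b30 := hb.b30
  obtain ⟨g1, g2⟩ := h
  have k1 : Q ≤ i + b + l + c + 1 := by clear * - b8 g2; omega
  have k2 : b + c ≤ l + 2*m := by clear * - b2 b11 b19 b30; omega
  clear * - X g1 g2 k1 k2
  exact X.al.ninv (i - b + l + c + 1) (fin X.al.per 0 _ (ar X.S2 X.al.per 0 (i - b + l + c + 1) (pf X.a2 X.al.per 0 (i + b + l + c + 1) (rfl : W (i - b + l + c + 1) = W (i - b + l + c + 1)) (by omega)) (by omega)) (by omega))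

theorem T0_3 (X : C W N Q i a b l m c d L) (hb : B N Q i a b l m c d L)
    (h : b ≤ i + a ∧ a + 1 ≤ b) :
    False := by
  have b4 := hb.b4
  have b15 := hb.b15
  have b33 := hb.b33
  obtain ⟨g1, g2⟩ := h
  have k1 : 1 ≤ a + b := by clear * - b4 b15 b33; omega
  clear * - X g1 g2 k1
  exact X.al.ninv (i + a - b) (fin X.al.per 0 _ (ar X.s1 X.al.per 0 (i + a - b) (pf X.a1 X.al.per 0 (i + a + b) (rfl : W (i + a - b) = W (i + a - b)) (by omega)) (by omega)) (by omega))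

theorem T0_4 (X : C W N Q i a b l m c d L) (hb : B N Q i a b l m c d L)
    (h : 2*a + b + 1 ≤ N + c ∧ N + i + c + 1 ≤ Q + b ∧ b + l + c + 2 ≤ N) :
    False := by
  obtain ⟨g1, g2, g3⟩ := h
  clear * - X g1 g2 g3
  exact X.al.ninv (N + i - b + c) (fin X.al.per 0 _ (pr X.c1 X.al.per (-1) (N + i - b + c) (af X.s2 X.al.per 0 (-N + i + 2*a + b - c) (rfl : W (N + i - b + c) = W (N + i - b + c)) (by omega)) (by omega)) (by omega))

theorem T0_5 (X : C W N Q i a b l m c d L) (hb : B N Q i a b l m c d L)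
    (h : Q + l + 2*m ≤ L + 1) :
    False := by
  have b15 := hb.b15
  have b19 := hb.b19
  have b20 := hb.b20
  have b27 := hb.b27
  have b29 := hb.b29
  have b33 := hb.b33
  have g1 := h
  have k1 : c + d + 1 ≤ m := by clear * - b19 b20 b27 b29; omega
  clear * - X g1 b15 b33 k1
  exact X.al.ubQ (2*N - 2*m + 2*c + 2*d) (by omega) (by omega) fun t h1 h2 => (fin X.al.per 0 _ (pf X.g1 X.al.per 0 (2*N - 2*m + 2*c + 2*d + t) (rfl : W (t) = W (t)) (by omega)) (by omega))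

theorem T0_6 (X : C W N Q i a b l m c d L) (hb : B N Q i a b l m c d L)
    (h : 2*N + 2*c + d ≤ a + b + l + 2*m ∧ 2*N + a + b + 2*c + d ≤ 2*l + 4*m + 1 ∧ a + b + d + 1 ≤ 0 ∧ i + 2*l + 2*m + 3 ≤ 2*N + a + b + d) :
    False := by
  have b6 := hb.b6
  have b33 := hb.b33
  obtain ⟨g1, g2, g3, g4⟩ := h
  have k1 : a + b + 2*m + 1 ≤ 2*N + 2*c + d := by clear * - b33 g3; omega
  have k2 : l + 2*m + 2 ≤ 2*N + a + b + 2*c + d := by clear * - b6 g4; omega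
  clear * - X g1 g2 g3 g4 k1 k2
  exact X.al.ninv (2*N + i - a - b - 2*m + 2*c + d) (fin X.al.per 0 _ (pf X.d1 X.al.per (-1) (2*N + i - a - b - 2*m + 2*c + d) (ar X.S2 X.al.per 0 (-2*N + i - a - b + 2*l + 2*m - d + 2) (pf X.bb X.al.per 0 (2*N + i + a + b - 2*m + 2*c + d) (rfl : W (2*N + i - a - b - 2*m + 2*c + d) = W (2*N + i - a - b - 2*m + 2*c + d)) (by omega)) (by omega)) (by omega)) (by omega))

theorem T0_7 (X : C W N Q i a b l m c d L) (hb : B N Q i a b l m c d L)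
    (h : i + 2*l + 2*m + 3 ≤ 2*N + d) :
    False := by
  have b6 := hb.b6
  have b10 := hb.b10
  have b15 := hb.b15
  have b23 := hb.b23
  have b30 := hb.b30
  have g1 := h
  have k1 : 2*N + 2*c + d ≤ 2*l + 4*m + 1 := by clear * - b23 b30 g1; omega
  have k2 : l + 2*m + 2 ≤ 2*N + 2*c + d := by clear * - b6 g1; omega
  have k3 : d + 1 ≤ 0 := by clear * - b10 b15; omega
  clear * - X g1 k1 k2 k3
  exact X.al.ninv (-2*N + i + 2*l + 2*m - d + 2) (fin X.al.per (-1) _ (pr X.d1 X.al.per 0 (i + 2*l + 2*m - d + 2) (af X.S2 X.al.per 0 (2*N + i - 2*m + 2*c + d) (rfl : W (-2*N + i + 2*l + 2*m - d + 2) = W (-2*N + i + 2*l + 2*m - d + 2)) (by omega)) (by omega)) (by omega))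

theorem T0_8 (X : C W N Q i a b l m c d L) (hb : B N Q i a b l m c d L)
    (h : Q + a ≤ i + l + c + 1 ∧ l + c + 2 ≤ 3*a + 2*b ∧ a + 2*b + c ≤ l + 2*m ∧ 1 ≤ a + 2*b + c) :
    False := by
  have b2 := hb.b2
  have b7 := hb.b7
  have b15 := hb.b15
  have b33 := hb.b33
  obtain ⟨g1, g2, g3, g4⟩ := h
  have k1 : a ≤ l + c := by clear * - b15 b33 g1; omega
  have k2 : c + 1 ≤ a := by clear * - b2 b7 g1; omega
  clear * - X g1 g2 g3 g4 k1 k2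
  exact X.al.ninv (i - a - 2*b + l + c + 1) (fin X.al.per 0 _ (ar X.S2 X.al.per 0 (i - a - 2*b + l + c + 1) (pf X.bb X.al.per 0 (i + a + 2*b + l + c + 1) (pf X.a2 X.al.per 0 (i - a + l + c + 1) (rfl : W (i - a - 2*b + l + c + 1) = W (i - a - 2*b + l + c + 1)) (by omega)) (by omega)) (by omega)) (by omega))

theorem T0_9 (X : C W N Q i a b l m c d L) (hb : B N Q i a b l m c d L)
    (h : a + b ≤ l + c ∧ 1 ≤ a + b + c) :
    False := by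
  have b7 := hb.b7
  have b8 := hb.b8
  have b11 := hb.b11
  have b19 := hb.b19
  have b30 := hb.b30
  obtain ⟨g1, g2⟩ := h
  have k1 : c + 1 ≤ a + b := by clear * - b7 b8 g2; omega
  have k2 : a + b + c ≤ l + 2*m := by clear * - b11 b19 b30; omega
  clear * - X g1 g2 k1 k2
  exact X.al.ninv (i - a - b + l + c + 1) (fin X.al.per 0 _ (ar X.S2 X.al.per 0 (i - a - b + l + c + 1) (pf X.bb X.al.per 0 (i + a + b + l + c + 1) (rfl : W (i - a - b + l + c + 1) = W (i - a - b + l + c + 1)) (by omega)) (by omega)) (by omega))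

theorem T0_10 (X : C W N Q i a b l m c d L) (hb : B N Q i a b l m c d L)
    (h : 2*a + 2*b ≤ N + l + 2*c ∧ N + 2*c + 1 ≤ 2*a + 2*b ∧ N + 2*c ≤ l + 2*m ∧ 2*a + 2*b + 1 ≤ N ∧ i + l + 2 ≤ N) :
    False := by
  have b6 := hb.b6
  obtain ⟨g1, g2, g3, g4, g5⟩ := h
  have k1 : 1 ≤ N + 2*c := by clear * - b6 g5; omega
  clear * - X g1 g2 g3 g4 g5 k1
  exact X.al.ninv (N + i - 2*a - 2*b + l + 2*c + 1) (fin X.al.per 0 _ (pf X.c2 X.al.per (-1) (N + i - 2*a - 2*b + l + 2*c + 1) (ar X.S2 X.al.per 0 (-N + i + l + 1) (pf X.bb X.al.per 0 (N + i + l + 2*c + 1) (rfl : W (N + i - 2*a - 2*b + l + 2*c + 1) = W (N + i - 2*a - 2*b + l + 2*c + 1)) (by omega)) (by omega)) (by omega)) (by omega))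

theorem T0_11 (X : C W N Q i a b l m c d L) (hb : B N Q i a b l m c d L)
    (h : 2*N + i + 2*c + 2*d + 1 ≤ 2*b + 2*m ∧ b + l + 2*m + 2 ≤ 2*N + c + d ∧ 4*N + 2*c + 2*d ≤ i + 2*a + 2*b + 2*l + 4*m + 2) :
    False := by
  have b30 := hb.b30
  have b35 := hb.b35
  obtain ⟨g1, g2, g3⟩ := h
  have k1 : N + c + d ≤ b + l + 2*m := by clear * - b30 b35 g1 g2 g3; omega
  clear * - X g1 g2 g3 k1
  exact X.al.ubP (4*N - 2*b - 2*l - 4*m + 2*c + 2*d - 2) (by omega) (by omega) fun t h1 h2 => (fin X.al.per 0 _ (pr X.a1 X.al.per 0 (4*N - 2*b - 2*l - 4*m + 2*c + 2*d + t - 2) (pf X.d1 X.al.per (-1) (4*N - 2*l - 4*m + 2*c + 2*d + t - 2) (rfl : W (t) = W (t)) (by omega)) (by omega)) (by omega))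

theorem T0_12 (X : C W N Q i a b l m c d L) (hb : B N Q i a b l m c d L)
    (h : i + 2*l + 2*m + 3 ≤ Q + 2*a + 2*b ∧ Q + l + 4*m + 1 ≤ 2*N + i + 2*a + 2*b + 2*c + 2*d ∧ N + a + b + c + d ≤ l + 2*m) :
    False := by
  have b9 := hb.b9
  have b23 := hb.b23
  have b27 := hb.b27
  have b33 := hb.b33
  have b35 := hb.b35
  obtain ⟨g1, g2, g3⟩ := h
  have k1 : Q + 2*l + 4*m + 2 ≤ 4*N + 2*c + 2*d := by clear * - b9 g2; omega
  have k2 : i + 1 ≤ Q := by clear * - b33 g1 g3; omega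
  have k3 : l + 2*m + 2 ≤ 2*N + a + b + c + d := by clear * - b23 b27 b33 b35 g1 g2 g3; omega
  clear * - X g1 g2 g3 k1 k2 k3
  exact X.al.ubQ (-2*N - 2*a - 2*b + 2*l + 4*m - 2*c - 2*d + 2) (by omega) (by omega) fun t h1 h2 => (fin X.al.per 0 _ (pr X.bb X.al.per 0 (-2*N - 2*a - 2*b + 2*l + 4*m - 2*c - 2*d + t + 2) (pr X.d1 X.al.per 0 (-2*N + 2*l + 4*m - 2*c - 2*d + t + 2) (rfl : W (t) = W (t)) (by omega)) (by omega)) (by omega))

theorem T0_13 (X : C W N Q i a b l m c d L) (hb : B N Q i a b l m c d L)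
    (h : i + l + 2*c + 2 ≤ 2*b ∧ a + 2*b + 1 ≤ N + c ∧ 2*N + 2*c ≤ i + 4*a + 4*b) :
    False := by
  have b18 := hb.b18
  have b20 := hb.b20
  have b29 := hb.b29
  have b35 := hb.b35
  obtain ⟨g1, g2, g3⟩ := h
  have k1 : c + 1 ≤ a + 2*b := by clear * - b18 b20 b29 b35 g1; omega
  clear * - X g1 g2 g3 k1
  exact X.al.ubP (2*N - 2*a - 4*b + 2*c) (by omega) (by omega) fun t h1 h2 => (fin X.al.per 0 _ (pr X.a1 X.al.per 0 (2*N - 2*a - 4*b + 2*c + t) (pf X.c2 X.al.per (-1) (2*N - 2*a - 2*b + 2*c + t) (rfl : W (t) = W (t)) (by omega)) (by omega)) (by omega))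

theorem T0_14 (X : C W N Q i a b l m c d L) (hb : B N Q i a b l m c d L)
    (h : 2*N + i + 2*a + 2*b + 2*c + 2*d ≤ Q + l + 4*m ∧ l + 2*m + 2 ≤ N + a + b + d ∧ Q + 2*a + 2*b ≤ 2*N + 2*c) :
    False := by
  have b15 := hb.b15
  have b18 := hb.b18
  have b23 := hb.b23
  have b26 := hb.b26
  have b29 := hb.b29
  obtain ⟨g1, g2, g3⟩ := h
  have k1 : a + b + d ≤ l + 2*m := by clear * - b18 b23 b26 b29 g3; omega
  clear * - X g1 g2 g3 b15 k1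
  exact X.al.ubQ (2*N + 2*a + 2*b - 2*l - 4*m + 2*d - 2) (by omega) (by omega) fun t h1 h2 => (fin X.al.per 0 _ (pf X.d1 X.al.per 0 (2*N + 2*a + 2*b - 2*l - 4*m + 2*d + t - 2) (pf X.c1 X.al.per 0 (2*a + 2*b - 2*c + t) (rfl : W (t) = W (t)) (by omega)) (by omega)) (by omega))

theorem T0_15 (X : C W N Q i a b l m c d L) (hb : B N Q i a b l m c d L)
    (h : i + 2*a + 4*b + l + 2 ≤ 2*N + Q ∧ N + c + 1 ≤ a + 2*b ∧ Q + 2*b ≤ 2*N + i + 2*c) :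
    False := by
  have b18 := hb.b18
  have b20 := hb.b20
  have b28 := hb.b28
  have b29 := hb.b29
  have b35 := hb.b35
  obtain ⟨g1, g2, g3⟩ := h
  have k1 : a + 2*b + 1 ≤ 2*N + c := by clear * - b18 b20 b28 b29 b35 g1; omega
  clear * - X g1 g2 g3 k1
  exact X.al.ubQ (-2*N + 2*a + 4*b - 2*c) (by omega) (by omega) fun t h1 h2 => (fin X.al.per 0 _ (pf X.a2 X.al.per 1 (-2*N + 2*a + 4*b - 2*c + t) (pf X.c1 X.al.per 0 (2*a + 2*b - 2*c + t) (rfl : W (t) = W (t)) (by omega)) (by omega)) (by omega))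

theorem T0_17 (X : C W N Q i a b l m c d L) (hb : B N Q i a b l m c d L)
    (h : l + 2*m + 2 ≤ N + a + b + c + d) :
    False := by
  have b8 := hb.b8
  have b9 := hb.b9
  have b15 := hb.b15
  have b19 := hb.b19
  have b23 := hb.b23
  have b26 := hb.b26
  have b30 := hb.b30
  have b32 := hb.b32
  have g1 := h
  have k1 : 2*N + i + 2*a + 2*b + 2*c + 2*d ≤ Q + 2*l + 4*m + 1 := by clear * - b23 b26; omega
  have k2 : Q + 2*a + 2*b ≤ 2*N := by clear * - b8 b9; omega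
  have k3 : a + b + c + d ≤ l + 2*m := by clear * - b19 b23 b30 b32 g1; omega
  clear * - X g1 k1 b8 b15 k2 k3
  exact X.al.ubQ (2*N + 2*a + 2*b - 2*l - 4*m + 2*c + 2*d - 2) (by omega) (by omega) fun t h1 h2 => (fin X.al.per 0 _ (pf X.d1 X.al.per 0 (2*N + 2*a + 2*b - 2*l - 4*m + 2*c + 2*d + t - 2) (pf X.bb X.al.per 0 (2*a + 2*b + t) (rfl : W (t) = W (t)) (by omega)) (by omega)) (by omega))

theorem T0_18 (X : C W N Q i a b l m c d L) (hb : B N Q i a b l m c d L)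
    (h : l + 2*m + 1 ≤ N + a + b + c + d ∧ N + a + b + c + d ≤ l + 2*m + 1) :
    False := by
  have b8 := hb.b8
  have b15 := hb.b15
  have b33 := hb.b33
  obtain ⟨g1, g2⟩ := h
  have k1 : a + b ≤ l + m := by clear * - b33 g2; omega
  have k2 : l + 2*m + 2 ≤ 2*a + 2*b := by clear * - b8 b15 g1; omega
  clear * - X g1 g2 k1 k2
  exact X.n3.xz (fin X.al.per 0 _ (pr X.bb X.al.per 0 (i - 2*a - 2*b + 2*l + 2*m + 2) (rfl : W (i + 2*l + 2*m + 2) = W (i + 2*l + 2*m + 2)) (by omega)) (by omega)).symm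

theorem T0_19 (X : C W N Q i a b l m c d L) (hb : B N Q i a b l m c d L)
    (h : 2*N + 2*c + d ≤ i + 2*a + b + m ∧ 2*a + b + m + 1 ≤ 2*N + 2*c + d ∧ b + d + 1 ≤ m ∧ i + l + 3*m ≤ b + d + L ∧ i + m + 1 ≤ Q + b + d) :
    False := by
  have b9 := hb.b9
  obtain ⟨g1, g2, g3, g4, g5⟩ := h
  have k1 : b + l + 2*c + d + 2 ≤ m := by clear * - b9 g1; omega
  clear * - X g1 g2 g3 g4 g5 k1
  exact X.al.ninv (-2*N + i + 2*a + b + m - 2*c - d) (fin X.al.per (-1) _ (pf X.c1 X.al.per 0 (i + 2*a + b + m - 2*c - d) (pr X.g1 X.al.per 0 (i - b + m - d) (af X.s1 X.al.per 0 (2*N + i - b - m + 2*c + d) (rfl : W (-2*N + i + 2*a + b + m - 2*c - d) = W (-2*N + i + 2*a + b + m - 2*c - d)) (by omega)) (by omega)) (by omega)) (by omega))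

theorem T0_21 (X : C W N Q i a b l m c d L) (hb : B N Q i a b l m c d L)
    (h : a + 2*b ≤ i + l + c + 1 ∧ l + c + 2 ≤ 3*a + 2*b ∧ a ≤ l + c ∧ 1 ≤ a + 2*b + c) :
    False := by
  have b2 := hb.b2
  have b7 := hb.b7
  have b8 := hb.b8
  have b11 := hb.b11
  obtain ⟨g1, g2, g3, g4⟩ := h
  have k1 : c + 1 ≤ a := by clear * - b2 b7 b8; omega
  have k2 : a + 2*b + c ≤ l + 2*m := by clear * - b11 g1; omega
  clear * - X g1 g2 g3 g4 k1 k2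
  exact X.al.ninv (i - a - 2*b + l + c + 1) (fin X.al.per 0 _ (ar X.S2 X.al.per 0 (i - a - 2*b + l + c + 1) (pf X.bb X.al.per 0 (i + a + 2*b + l + c + 1) (pf X.a1 X.al.per 0 (i - a + l + c + 1) (rfl : W (i - a - 2*b + l + c + 1) = W (i - a - 2*b + l + c + 1)) (by omega)) (by omega)) (by omega)) (by omega))

theorem T0_22 (X : C W N Q i a b l m c d L) (hb : B N Q i a b l m c d L)
    (h : 0 ≤ a + b + c ∧ a + b + c ≤ 0 ∧ i + 2*a + 2*b + 2*l + 2*m + 3 ≤ 2*N ∧ l + 2*m + 2*c + 2 ≤ 0 ∧ i + l + L + 3 ≤ 2*N ∧ 2*N + 2*d + L ≤ 3*l + 4*m + 1) :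
    False := by
  have b23 := hb.b23
  have b27 := hb.b27
  have b30 := hb.b30
  have b33 := hb.b33
  have b35 := hb.b35
  obtain ⟨g1, g2, g3, g4, g5, g6⟩ := h
  have k1 : i + 2*a + 2*b + 2*l + 4*m + 3 ≤ 4*N + 2*c + 2*d := by clear * - b33 g3; omega
  have k2 : l + 4*m + 2 ≤ 2*N + 2*d := by clear * - b33 g4; omega
  have k3 : N + d ≤ l + 2*m := by clear * - b27 g6; omega
  have k4 : l + 2*m + 2 ≤ 2*N + d := by clear * - b27 b30 b35 g1 g4 g5; omega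
  clear * - X g1 g2 g3 g4 g5 g6 k1 k2 k3 k4 b23
  exact absurd (X.lam.mx (max (2*N + i + 2*a + 2*b - 2*l - 4*m + 2*d - 1) (max (2*N + i + 2*a + 2*b - l - 4*m + 2*c + 2*d) (2*N + i - 2*m + 2*c + 2*d + 1))) (min (4*N + 2*a + 2*b - 2*l - 4*m + 2*c + 2*d - 2) (i + 2*a + 2*b + l + 1)) (-2*N + 2*l + 4*m - 2*d + 2) (by omega) (by omega) fun t h1 h2 => by (try simp only [max_le_iff, lt_min_iff] at h1 h2); exact (lt_or_ge t (min (2*N + i + 2*a + 2*b - l - 4*m + 2*d - 1) (4*N - 2*l - 4*m + 2*c + 2*d - 2))).elim (fun u0 => by (try simp only [lt_min_iff] at u0); exact (fin X.al.per 0 _ (pf X.bb X.al.per 0 (-2*N + 2*l + 4*m - 2*d + t + 2) (pf X.c2 X.al.per 0 (-2*N - 2*a - 2*b + 2*l + 4*m - 2*d + t + 2) (pr X.d1 X.al.per 0 (-2*N + 2*l + 4*m - 2*c - 2*d + t + 2) (rfl : W (t) = W (t)) (by omega)) (by omega)) (by omega)) (by omega))) (fun u0 => (fin X.al.per 0 _ (pr X.d1 X.al.per 0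 (-2*N - 2*a - 2*b + 2*l + 4*m - 2*c - 2*d + t + 2) (pr X.bb X.al.per 0 (-2*a - 2*b + t) (rfl : W (t) = W (t)) (by omega)) (by omega)) (by omega)))) (by omega)

theorem T0_23 (X : C W N Q i a b l m c d L) (hb : B N Q i a b l m c d L)
    (h : 2*N + i + c + d ≤ Q + b + l + 2*m ∧ i + 2*a + b + l + 2*m + 2 ≤ 2*N + c + d) :
    False := by
  have b1 := hb.b1
  have b2 := hb.b2
  have b4 := hb.b4
  have b15 := hb.b15
  have b23 := hb.b23
  have b29 := hb.b29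
  obtain ⟨g1, g2⟩ := h
  have k1 : 2*a + b + l + 2*m + 2 ≤ 2*N + c + d := by clear * - b1 g2; omega
  have k2 : l + c + d + 2 ≤ 2*a + b := by clear * - b1 b2 b4 b15 g2; omega
  have k3 : b + l + 2*m + 2 ≤ 2*N + c + d := by clear * - b1 b2 g2; omega
  have k4 : 2*N + c + d ≤ b + 2*l + 2*m + 1 := by clear * - b23 b29 g2; omega
  clear * - X g1 g2 k1 k2 k3 k4
  exact X.al.ninv (2*N + i - b - l - 2*m + c + d - 1) (fin X.al.per 0 _ (pr X.bb X.al.per 0 (2*N + i - b - l - 2*m + c + d - 1) (pf X.d1 X.al.per (-1) (2*N + i + 2*a + b - l - 2*m + c + d - 1) (af X.s2 X.al.per 0 (-2*N + i + 2*a + b + l + 2*m - c - d + 1) (rfl : W (2*N + i - b - l - 2*m + c + d - 1) = W (2*N + i - b - l - 2*m + c + d - 1)) (by omega)) (by omega)) (by omega)) (by omega))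

theorem T0_24 (X : C W N Q i a b l m c d L) (hb : B N Q i a b l m c d L)
    (h : c ≤ i + 2*a + b + d ∧ 2*a + b + d + 1 ≤ c ∧ b + l + c + d + 2 ≤ 0 ∧ i + c + 1 ≤ Q + b + d) :
    False := by
  have b33 := hb.b33
  obtain ⟨g1, g2, g3, g4⟩ := h
  have k1 : 2*a + b + 2*m + 1 ≤ 2*N + 3*c + d := by clear * - b33 g2; omega
  clear * - X g1 g2 g3 g4 k1
  exact X.al.ninv (i + 2*a + b - c + d) (fin X.al.per 0 _ (pr X.d3 X.al.per 0 (i + 2*a + b - c + d) (pf X.c1 X.al.per 0 (i + 2*a + b - c - d) (af X.s1 X.al.per 0 (i - b + c - d) (rfl : W (i + 2*a + b - c + d) = W (i + 2*a + b - c + d)) (by omega)) (by omega)) (by omega)) (by omega))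

theorem T0_26 (X : C W N Q i a b l m c d L) (hb : B N Q i a b l m c d L)
    (h : b + m ≤ N + i + a + c + d ∧ i + a + b + l + 3*m ≤ N + c + d + L ∧ N + a + c + d + 1 ≤ b + m) :
    False := by
  have b4 := hb.b4
  have b15 := hb.b15
  obtain ⟨g1, g2, g3⟩ := h
  have k1 : N + c + d + 1 ≤ a + b + m := by clear * - b4 b15; omega
  clear * - X g1 g2 g3 k1
  exact X.al.ninv (N + i + a - b - m + c + d) (fin X.al.per 0 _ (ar X.s1 X.al.per 0 (N + i + a - b - m + c + d) (pr X.g1 X.al.per 0 (-N + i + a + b + m - c - d) (pf X.a1 X.al.per 0 (N + i + a + b - m + c + d) (rfl : W (N + i + a - b - m + c + d) = W (N + i + a - b - m + c + d)) (by omega)) (by omega)) (by omega)) (by omega))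

theorem T0_28 (X : C W N Q i a b l m c d L) (hb : B N Q i a b l m c d L)
    (h : a + 2*b + l + 2*m + 2 ≤ 2*N + c + d ∧ i + 1 ≤ 2*b ∧ 4*N + 2*c + 2*d ≤ i + 4*a + 4*b + 2*l + 4*m + 2) :
    False := by
  have b4 := hb.b4
  have b15 := hb.b15
  have b20 := hb.b20
  have b23 := hb.b23
  have b27 := hb.b27
  have b29 := hb.b29
  have b34 := hb.b34
  obtain ⟨g1, g2, g3⟩ := h
  have k1 : 2*N + i + 2*c + 2*d + 1 ≤ 2*a + 4*b + 2*m := by clear * - b4 b15 g2; omega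
  have k2 : 4*N + 2*c + 2*d ≤ i + 2*a + 2*b + 3*l + 4*m + 3 := by clear * - b23 b29; omega
  have k3 : N + c + d ≤ a + 2*b + l + 2*m := by clear * - b20 b27 b29 b34 g1 g2 g3; omega
  clear * - X g1 g2 g3 k1 k2 k3
  exact X.al.ubP (4*N - 2*a - 4*b - 2*l - 4*m + 2*c + 2*d - 2) (by omega) (by omega) fun t h1 h2 => (fin X.al.per 0 _ (pr X.a1 X.al.per 0 (4*N - 2*a - 4*b - 2*l - 4*m + 2*c + 2*d + t - 2) (pr X.bb X.al.per 0 (4*N - 2*a - 2*b - 2*l - 4*m + 2*c + 2*d + t - 2) (pf X.d1 X.al.per (-1) (4*N - 2*l - 4*m + 2*c + 2*d + t - 2) (rfl : W (t) = W (t)) (by omega)) (by omega)) (by omega)) (by omega))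

theorem T0_33 (X : C W N Q i a b l m c d L) (hb : B N Q i a b l m c d L)
    (h : 2*a + 2*b ≤ l + c ∧ 1 ≤ 2*a + 2*b + c) :
    False := by
  have b1 := hb.b1
  have b7 := hb.b7
  have b8 := hb.b8
  have b11 := hb.b11
  obtain ⟨g1, g2⟩ := h
  have k1 : c + 1 ≤ 0 := by clear * - b7 b8; omega
  have k2 : 2*a + 2*b + c ≤ l + 2*m := by clear * - b1 b11 g1; omega
  clear * - X g1 g2 k1 k2
  exact X.al.ninv (i - 2*a - 2*b + l + c + 1) (fin X.al.per 0 _ (ar X.S2 X.al.per 0 (i - 2*a - 2*b + l + c + 1) (pf X.bb X.al.per 0 (i + 2*a + 2*b + l + c + 1) (pf X.bb X.al.per 0 (i + l + c + 1) (rfl : W (i - 2*a - 2*b + l + c + 1) = W (i - 2*a - 2*b + l + c + 1)) (by omega)) (by omega)) (by omega)) (by omega))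

theorem T0_34 (X : C W N Q i a b l m c d L) (hb : B N Q i a b l m c d L)
    (h : i + 2*l + 2*m + 2*c + 3 ≤ Q + 2*a + 2*b ∧ Q + 2*l + 4*m + 2 ≤ 4*N + 2*c + 2*d ∧ N + a + b + d ≤ l + 2*m) :
    False := by
  have b7 := hb.b7
  have b23 := hb.b23
  have b27 := hb.b27
  have b29 := hb.b29
  have b35 := hb.b35
  obtain ⟨g1, g2, g3⟩ := h
  have k1 : l + 2*m + 2 ≤ 2*N + a + b + d := by clear * - b23 b27 b29 b35 g1 g2; omega
  clear * - X g1 g2 g3 b7 k1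
  exact X.al.ubQ (-2*N - 2*a - 2*b + 2*l + 4*m - 2*d + 2) (by omega) (by omega) fun t h1 h2 => (fin X.al.per 0 _ (pf X.c2 X.al.per 0 (-2*N - 2*a - 2*b + 2*l + 4*m - 2*d + t + 2) (pr X.d1 X.al.per 0 (-2*N + 2*l + 4*m - 2*c - 2*d + t + 2) (rfl : W (t) = W (t)) (by omega)) (by omega)) (by omega))

theorem T0_35 (X : C W N Q i a b l m c d L) (hb : B N Q i a b l m c d L)
    (h : 2*N + 2*d ≤ l + 2*m ∧ l + 2*m + 1 ≤ N + a + b + d ∧ N + a + b + d ≤ l + 2*m + 1) :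
    False := by
  have b9 := hb.b9
  obtain ⟨g1, g2, g3⟩ := h
  have k1 : i + 3*l + 4*m + 4 ≤ 4*N + 2*d := by clear * - b9 g2; omega
  clear * - X g1 g2 g3 k1
  exact X.n2.xz (fin X.al.per 0 _ (pr X.d1 X.al.per 0 (-2*N + i + 3*l + 4*m - 2*d + 3) (rfl : W (i + l + 2*c + 1) = W (i + l + 2*c + 1)) (by omega)) (by omega)).symm

theorem T0_36 (X : C W N Q i a b l m c d L) (hb : B N Q i a b l m c d L)
    (h : i + 2*l + 4*m + 3 ≤ 2*N + Q + 2*d ∧ Q + 2*a + 2*b + 2*l + 4*m + 2 ≤ 4*N + 2*c + 2*d ∧ N + d ≤ l + 2*m) :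
    False := by
  have b4 := hb.b4
  have b7 := hb.b7
  have b8 := hb.b8
  have b15 := hb.b15
  have b20 := hb.b20
  have b21 := hb.b21
  have b27 := hb.b27
  have b29 := hb.b29
  obtain ⟨g1, g2, g3⟩ := h
  have k1 : i + 2*l + 2*m + 2*c + 3 ≤ Q + 2*a + 2*b := by clear * - b4 b15 g1; omega
  have k2 : l + 2*m + 2 ≤ 2*N + d := by clear * - b20 b21 b27 b29 g1 g2; omega
  clear * - X g1 g2 g3 b8 k1 b7 k2
  exact X.al.ubQ (-2*N + 2*l + 4*m - 2*d + 2) (by omega) (by omega) fun t h1 h2 => (fin X.al.per 0 _ (pf X.c2 X.al.per 0 (-2*N + 2*l + 4*m - 2*d + t + 2) (pr X.d1 X.al.per 0 (-2*N + 2*a + 2*b + 2*l + 4*m - 2*c - 2*d + t + 2) (pf X.bb X.al.per 0 (2*a + 2*b + t) (rfl : W (t) = W (t)) (by omega)) (by omega)) (by omega)) (by omega))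

theorem T0_39 (X : C W N Q i a b l m c d L) (hb : B N Q i a b l m c d L)
    (h : a + b ≤ l + 2*c) :
    False := by
  have b1 := hb.b1
  have b4 := hb.b4
  have b7 := hb.b7
  have b8 := hb.b8
  have b11 := hb.b11
  have b15 := hb.b15
  have b18 := hb.b18
  have b19 := hb.b19
  have b20 := hb.b20
  have b29 := hb.b29
  have b33 := hb.b33
  have b35 := hb.b35
  have g1 := h
  have k1 : a + b ≤ l + 2*m := by clear * - b1 b11 g1; omega
  have k2 : 2*c ≤ a + b + l + 2*m := by clear * - b11 b18 b19 b20 b29 b35; omega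
  have k3 : 1 ≤ a + b := by clear * - b4 b15 b33; omega
  have k4 : 2*c + 1 ≤ 3*a + 3*b := by clear * - b4 b7 b8 g1; omega
  have k5 : 1 ≤ l := by clear * - b8 b15 b33; omega
  clear * - X g1 k1 k2 k3 k4 k5
  obtain ⟨K0, hL⟩ : ∃ K0 : ℤ, -2*l - 4*m + 2*c ≤ 2*K0 ∧ -4*a - 4*b + 2*c + 2 ≤ 2*K0 ∧ -2*l - 2*c ≤ 2*K0 ∧ 2*K0 + 2*(a + b) - 2 ≤ 2*c - 2 ∧ 2*K0 + 2*(a + b) - 2 ≤ 2*l + 2*c ∧ 2*K0 + 2*(a + b) - 2 ≤ 4*a + 4*b - 2*c - 2 := ⟨((max (-2*l - 2*c) (max (-4*a - 4*b + 2*c + 2) (-2*l - 4*m + 2*c))) + 1) / 2, by omega⟩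
  obtain ⟨R, hR1, hR2, hR⟩ := pw (A := i + 1) (B := i + 2*a + 2*b + l + 1) (γ := a + b) (by omega) (fun t h1 h2 => (fin X.al.per 0 _ (pf X.bb X.al.per 0 (2*a + 2*b + t) (rfl : W (t) = W (t)) (by omega)) (by omega))) K0
  exact X.al.ninv (i + l + c + R + 1) (fin X.al.per 0 _ (pp hR X.al.per 0 (i + l + c + R + 1) (af X.S2 X.al.per 0 (i + l + c - R + 1) (rfl : W (i + l + c + R + 1) = W (i + l + c + R + 1)) (by omega)) (by omega)) (by omega))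

theorem T0_40 (X : C W N Q i a b l m c d L) (hb : B N Q i a b l m c d L)
    (h : a ≤ 0 ∧ 2*a ≤ l + 2*c ∧ l + c + 1 ≤ 3*a + 2*b ∧ 3*a + 2*b ≤ l + c + 1) :
    False := by
  have b1 := hb.b1
  have b2 := hb.b2
  have b7 := hb.b7
  have b8 := hb.b8
  have b11 := hb.b11
  obtain ⟨g1, g2, g3, g4⟩ := h
  have k1 : c + 1 ≤ a + m := by clear * - b1 b2 b11; omega
  have k2 : l + 2*c + 2 ≤ 4*a + 2*b := by clear * - b2 b7 b8 g3; omega
  clear * - X g1 g2 g3 g4 b2 k1 k2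
  exact X.n1.tor ⟨(fin X.al.per 0 _ (rfl : W (i + 2*a) = W (i + 2*a)) (by omega)), (fin X.al.per 0 _ (pr X.bb X.al.per 0 (i - 4*a - 2*b + 2*l + 2*c + 2) (af X.S2 X.al.per 0 (i - 2*a + 2*l + 2*c + 2) (rfl : W (i + 2*a) = W (i + 2*a)) (by omega)) (by omega)) (by omega))⟩

theorem T0_42 (X : C W N Q i a b l m c d L) (hb : B N Q i a b l m c d L)
    (h : N + c ≤ i + a + l + 2*m + 1 ∧ a + l + 2*m + 2 ≤ N + c ∧ N + l + c + 2*d + 2 ≤ a) :
    False := by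
  have b11 := hb.b11
  have b33 := hb.b33
  obtain ⟨g1, g2, g3⟩ := h
  have k1 : i + a + l + 2*m + 2 ≤ 3*N + c + 2*d := by clear * - b11 b33 g2; omega
  have k2 : a + l + 4*m + 2 ≤ 3*N + 3*c + 2*d := by clear * - b33 g2; omega
  clear * - X g1 g2 g3 k1 k2
  exact X.al.ninv (-N + i + a + l + 2*m - c + 1) (fin X.al.per 0 _ (pr X.d3 X.al.per 0 (-N + i + a + l + 2*m - c + 1) (pr X.d1 X.al.per 0 (-N + i + a + l + 2*m - c - 2*d + 1) (af X.s1 X.al.per 0 (N + i + a - l - 2*m + c - 1) (rfl : W (-N + i + a + l + 2*m - c + 1) = W (-N + i + a + l + 2*m - c + 1)) (by omega)) (by omega)) (by omega)) (by omega))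

theorem T0_43 (X : C W N Q i a b l m c d L) (hb : B N Q i a b l m c d L)
    (h : N + 2*b + c + d ≤ i + l + 2*m + 1 ∧ 2*m + 1 ≤ N + c + d ∧ N + l + c + d + 2 ≤ 2*a + 2*b ∧ l + 2*m + 2 ≤ N + 2*b + c + d) :
    False := by
  have b9 := hb.b9
  have b32 := hb.b32
  have b33 := hb.b33
  have b34 := hb.b34
  obtain ⟨g1, g2, g3, g4⟩ := h
  have k1 : l + 2*m + 2 ≤ N + 2*a + 2*b + c + d := by clear * - b33 g3; omega
  have k2 : N + c + d ≤ l + 2*m := by clear * - b32 b33 b34 g1 g3; omega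
  have k3 : i + 2*a + 2*b + l + 2*m + 2 ≤ 3*N + c + d := by clear * - b9 g2; omega
  clear * - X g1 g2 g3 g4 k1 k2 k3
  exact X.al.ninv (-N + i - 2*b + l + 2*m - c - d + 1) (fin X.al.per 0 _ (ar X.s1 X.al.per 0 (-N + i - 2*b + l + 2*m - c - d + 1) (pf X.d1 X.al.per 0 (N + i + 2*a + 2*b - l - 2*m + c + d - 1) (pf X.bb X.al.per 0 (-N + i + 2*a + 2*b + l + 2*m - c - d + 1) (pf X.a1 X.al.per 0 (-N + i + l + 2*m - c - d + 1) (rfl : W (-N + i - 2*b + l + 2*m - c - d + 1) = W (-N + i - 2*b + l + 2*m - c - d + 1)) (by omega)) (by omega)) (by omega)) (by omega)) (by omega))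

theorem T0_44 (X : C W N Q i a b l m c d L) (hb : B N Q i a b l m c d L)
    (h : 2*a + 2*b ≤ N + l + 2*c ∧ N + 2*c ≤ l + 2*m ∧ 1 ≤ N + 2*c ∧ 2*a + 2*b + 1 ≤ N ∧ N + i + l + 2*c + 2 ≤ Q + 2*a + 2*b) :
    False := by
  have b8 := hb.b8
  obtain ⟨g1, g2, g3, g4, g5⟩ := h
  have k1 : N + 2*c + 1 ≤ 2*a + 2*b := by clear * - b8 g5; omega
  clear * - X g1 g2 g3 g4 g5 k1
  exact X.al.ninv (N + i - 2*a - 2*b + l + 2*c + 1) (fin X.al.per 0 _ (pr X.c1 X.al.per (-1) (N + i - 2*a - 2*b + l + 2*c + 1) (ar X.S2 X.al.per 0 (-N + i + l + 1) (pf X.bb X.al.per 0 (N + i + l + 2*c + 1) (rfl : W (N + i - 2*a - 2*b + l + 2*c + 1) = W (N + i - 2*a - 2*b + l + 2*c + 1)) (by omega)) (by omega)) (by omega)) (by omega))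

theorem T0_45 (X : C W N Q i a b l m c d L) (hb : B N Q i a b l m c d L)
    (h : Q + 2*l + 4*m + 2 ≤ 2*N + 2*c ∧ N + c ≤ b + l + 2*m ∧ 2*b + 2*l + 6*m + 2 ≤ 4*N + i + 4*c + 2*d) :
    False := by
  have b1 := hb.b1
  have b2 := hb.b2
  have b11 := hb.b11
  have b15 := hb.b15
  have b20 := hb.b20
  have b32 := hb.b32
  obtain ⟨g1, g2, g3⟩ := h
  have k1 : 0 ≤ i + 2*a := by clear * - b1 b2; omega
  have k2 : i + 2*l + 2*m + 2*d + 3 ≤ 0 := by clear * - b15 g1; omega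
  have k3 : b + l + 2*m + 1 ≤ 2*N + c + d := by clear * - b11 g3; omega
  have k4 : b + l + 2*m + 2 ≤ 2*N + c := by clear * - b20 b32 g2 g3; omega
  clear * - X g1 g2 g3 k1 k2 k3 k4
  exact X.al.ubP (-2*N + 2*b + 2*l + 4*m - 2*c + 2) (by omega) (by omega) fun t h1 h2 => (fin X.al.per 0 _ (pr X.d3 X.al.per 0 (-2*N + 2*b + 2*l + 4*m - 2*c + t + 2) (pr X.d1 X.al.per 0 (-2*N + 2*b + 2*l + 4*m - 2*c - 2*d + t + 2) (pf X.a2 X.al.per 0 (2*b + t) (rfl : W (t) = W (t)) (by omega)) (by omega)) (by omega)) (by omega))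

theorem T0_46 (X : C W N Q i a b l m c d L) (hb : B N Q i a b l m c d L)
    (h : Q + 2*l + 4*m + 2 ≤ 2*N + 2*a + 4*b + 2*c + 2*d ∧ l + 4*m + 1 ≤ 2*N + i + 2*a + 2*c + 2*d ∧ N + a + b + c + d ≤ l + 2*m ∧ 2*l + 4*m + 2 ≤ 2*N + i + 4*a + 2*b + 2*c + 2*d) :
    False := by
  have b9 := hb.b9
  have b15 := hb.b15
  have b20 := hb.b20
  have b23 := hb.b23
  have b26 := hb.b26
  have b27 := hb.b27
  have b34 := hb.b34
  obtain ⟨g1, g2, g3, g4⟩ := h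
  have k1 : i + 2*l + 2*m + 3 ≤ 2*a + 4*b := by clear * - b15 g1; omega
  have k2 : b + l + 2*m + 1 ≤ 2*N + c + d := by clear * - b9 g2; omega
  have k3 : i + 1 ≤ 2*b := by clear * - b23 b26 g1; omega
  have k4 : l + 2*m + 2 ≤ 2*N + a + b + c + d := by clear * - b20 b26 b27 b34 g1 g2 g3 g4; omega
  clear * - X g1 g2 g3 g4 k1 k2 k3 k4
  exact X.al.ubP (-2*N - 2*a - 2*b + 2*l + 4*m - 2*c - 2*d + 2) (by omega) (by omega) fun t h1 h2 => (fin X.al.per 0 _ (pr X.a1 X.al.per 0 (-2*N - 2*a - 2*b + 2*l + 4*m - 2*c - 2*d + t + 2) (pr X.bb X.al.per 0 (-2*N - 2*a + 2*l + 4*m - 2*c - 2*d + t + 2) (pr X.d1 X.al.per 0 (-2*N + 2*b + 2*l + 4*m - 2*c - 2*d + t + 2) (pf X.a2 X.al.per 0 (2*b + t) (rfl : W (t) = W (t)) (by omega)) (by omega)) (by omega)) (by omega)) (by omega))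

theorem T0_50 (X : C W N Q i a b l m c d L) (hb : B N Q i a b l m c d L)
    (h : 2*N + i + 2*a + 2*b + 2*c + 4*d + 1 ≤ 2*m ∧ l + 2*m + 2 ≤ 2*N + a + b + c + 2*d ∧ 4*N + 2*c + 2*d ≤ i + 3*l + 4*m + 3 ∧ 2*N + 2*a + 2*b + 2*d ≤ i + 2*l + 2*m + 2) :
    False := by
  have b23 := hb.b23
  have b32 := hb.b32
  have b33 := hb.b33
  obtain ⟨g1, g2, g3, g4⟩ := h
  have k1 : i + 2*a + 2*b + 2*d + 1 ≤ 0 := by clear * - b33 g1; omega
  have k2 : N + a + b + c + 2*d ≤ l + 2*m := by clear * - b23 b32 g1 g2 g4; omega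
  clear * - X g1 g2 g3 g4 k1 k2
  exact X.al.ubP (4*N + 2*a + 2*b - 2*l - 4*m + 2*c + 4*d - 2) (by omega) (by omega) fun t h1 h2 => (fin X.al.per 0 _ (pr X.d3 X.al.per 0 (4*N + 2*a + 2*b - 2*l - 4*m + 2*c + 4*d + t - 2) (pf X.bb X.al.per 0 (4*N + 2*a + 2*b - 2*l - 4*m + 2*c + 2*d + t - 2) (pf X.d1 X.al.per (-1) (4*N - 2*l - 4*m + 2*c + 2*d + t - 2) (rfl : W (t) = W (t)) (by omega)) (by omega)) (by omega)) (by omega))

theorem T0_52 (X : C W N Q i a b l m c d L) (hb : B N Q i a b l m c d L)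
    (h : i + 2*a + 2*b + 1 ≤ 2*N + 2*c ∧ N + d ≤ l + 2*m + 1 ∧ l + 2*m + 1 ≤ N + d) :
    False := by
  have b4 := hb.b4
  have b15 := hb.b15
  have b23 := hb.b23
  have b27 := hb.b27
  have b33 := hb.b33
  obtain ⟨g1, g2, g3⟩ := h
  have k1 : l + 2*c + 2 ≤ 0 := by clear * - b23 b27 g3; omega
  have k2 : i + 1 ≤ Q := by clear * - b15 b33; omega
  have k3 : l + m + c + 2 ≤ a + b := by clear * - b4 b15 g3; omega
  clear * - X g1 g2 g3 k1 k2 k3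
  exact X.n1.xz (fin X.al.per 0 _ (pf X.d1 X.al.per 0 (2*N + i + 2*a + 2*b - 2*l - 4*m + 2*d - 2) (pf X.c1 X.al.per 0 (i + 2*a + 2*b - 2*c) (rfl : W (i) = W (i)) (by omega)) (by omega)) (by omega)).symm

theorem T0_53 (X : C W N Q i a b l m c d L) (hb : B N Q i a b l m c d L)
    (h : l + 2*m + 2 ≤ N + d ∧ Q + 2*a + 2*b ≤ 2*N + 2*c) :
    False := by
  have b4 := hb.b4
  have b15 := hb.b15
  have b22 := hb.b22
  have b23 := hb.b23
  have b27 := hb.b27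
  have b29 := hb.b29
  have b33 := hb.b33
  obtain ⟨g1, g2⟩ := h
  have k1 : 2*N + i + 2*c + 2*d ≤ Q + l + 4*m := by clear * - b15 b23 b27 b33; omega
  have k2 : 2*N + i + 2*c + 2*d + 1 ≤ Q + 2*a + 2*b + 2*m := by clear * - b4 b15 b33; omega
  have k3 : i + 1 ≤ Q := by clear * - b15 b33; omega
  have k4 : 2*N + Q + 2*d ≤ i + 3*l + 4*m + 3 := by clear * - b23 b29 g2; omega
  have k5 : d ≤ l + 2*m := by clear * - b15 b22 b23 b27 b29 b33 g2; omega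
  clear * - X g1 g2 k1 k2 k3 k4 k5
  exact X.al.ubQ (2*N - 2*l - 4*m + 2*d - 2) (by omega) (by omega) fun t h1 h2 => (fin X.al.per 0 _ (pr X.bb X.al.per 0 (2*N - 2*l - 4*m + 2*d + t - 2) (pf X.d1 X.al.per 0 (2*N + 2*a + 2*b - 2*l - 4*m + 2*d + t - 2) (pf X.c1 X.al.per 0 (2*a + 2*b - 2*c + t) (rfl : W (t) = W (t)) (by omega)) (by omega)) (by omega)) (by omega))

theorem T0_55 (X : C W N Q i a b l m c d L) (hb : B N Q i a b l m c d L)
    (h : 2*N + 2*c ≤ Q + 2*l + 4*m + 2 ∧ Q + 2*m ≤ 2*N + i + 2*b + 2*c + 2*d ∧ b + l + 2*m + 2 ≤ N + c) :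
    False := by
  have b4 := hb.b4
  have b11 := hb.b11
  have b15 := hb.b15
  have b20 := hb.b20
  have b32 := hb.b32
  obtain ⟨g1, g2, g3⟩ := h
  have k1 : Q ≤ 2*N + 2*b + 2*d := by clear * - b11 g2; omega
  have k2 : c ≤ b + l + 2*m := by clear * - b20 b32 g1 g2 g3; omega
  clear * - X g1 g2 g3 b4 b15 k1 k2
  exact X.al.ubQ (2*N - 2*b - 2*l - 4*m + 2*c - 2) (by omega) (by omega) fun t h1 h2 => (fin X.al.per 0 _ (pf X.d1 X.al.per 0 (2*N - 2*b - 2*l - 4*m + 2*c + t - 2) (pf X.d3 X.al.per 0 (-2*b - 2*d + t) (pr X.a1 X.al.per 0 (-2*b + t) (rfl : W (t) = W (t)) (by omega)) (by omega)) (by omega)) (by omega))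

theorem T0_57 (X : C W N Q i a b l m c d L) (hb : B N Q i a b l m c d L)
    (h : Q + l + 2*m ≤ 2*b + L + 1 ∧ b + m + 1 ≤ N + c + d) :
    False := by
  have b1 := hb.b1
  have b4 := hb.b4
  have b15 := hb.b15
  have b18 := hb.b18
  have b23 := hb.b23
  have b26 := hb.b26
  have b29 := hb.b29
  obtain ⟨g1, g2⟩ := h
  have k1 : 2*N + 2*c + 2*d ≤ Q + 2*m := by clear * - b1 b15; omega
  have k2 : c + d + 1 ≤ b + m := by clear * - b18 b23 b26 b29 g1; omega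
  clear * - X g1 g2 k1 b4 b15 k2
  exact X.al.ubQ (2*N - 2*b - 2*m + 2*c + 2*d) (by omega) (by omega) fun t h1 h2 => (fin X.al.per 0 _ (pf X.g1 X.al.per 0 (2*N - 2*b - 2*m + 2*c + 2*d + t) (pr X.a1 X.al.per 0 (-2*b + t) (rfl : W (t) = W (t)) (by omega)) (by omega)) (by omega))

theorem T0_58 (X : C W N Q i a b l m c d L) (hb : B N Q i a b l m c d L)
    (h : 2*N + i + c + d ≤ Q + a + 2*b + l + 2*m ∧ i + 3*a + 2*b + l + 2*m + 2 ≤ 2*N + c + d) :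
    False := by
  have b1 := hb.b1
  have b2 := hb.b2
  have b4 := hb.b4
  have b8 := hb.b8
  have b15 := hb.b15
  have b18 := hb.b18
  have b23 := hb.b23
  have b29 := hb.b29
  obtain ⟨g1, g2⟩ := h
  have k1 : 3*a + 2*b + l + 2*m + 2 ≤ 2*N + c + d := by clear * - b1 g2; omega
  have k2 : l + c + d + 2 ≤ 3*a + 2*b := by clear * - b2 b4 b15 b18 b29 g2; omega
  have k3 : l + 2*m + 2 ≤ 2*N + a + c + d := by clear * - b2 b18 b29 g2; omega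
  have k4 : 2*N + a + c + d ≤ 2*l + 2*m + 1 := by clear * - b23 b29 g2; omega
  have k5 : a + 2*b + l + 2*m + 2 ≤ 2*N + c + d := by clear * - b1 b2 g2; omega
  have k6 : 2*N + c + d ≤ a + 2*b + 2*l + 2*m + 1 := by clear * - b8 g1; omega
  clear * - X g1 g2 k1 k2 k3 k4 k5 k6
  exact X.al.ninv (2*N + i - a - 2*b - l - 2*m + c + d - 1) (fin X.al.per 0 _ (pr X.bb X.al.per 0 (2*N + i - a - 2*b - l - 2*m + c + d - 1) (pr X.bb X.al.per 0 (2*N + i + a - l - 2*m + c + d - 1) (pf X.d1 X.al.per (-1) (2*N + i + 3*a + 2*b - l - 2*m + c + d - 1) (af X.s2 X.al.per 0 (-2*N + i + 3*a + 2*b + l + 2*m - c - d + 1) (rfl : W (2*N + i - a - 2*b - l - 2*m + c + d - 1) = W (2*N + i - a - 2*b - l - 2*m + c + d - 1)) (by omega)) (by omega)) (by omega)) (by omega)) (by omega))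

theorem T0_59 (X : C W N Q i a b l m c d L) (hb : B N Q i a b l m c d L)
    (h : a + l + 2*m + 2 ≤ 2*N + c + d ∧ 2*N + i + a + c + d ≤ Q + l + 2*m ∧ l + c + d + 2 ≤ a) :
    False := by
  obtain ⟨g1, g2, g3⟩ := h
  clear * - X g1 g2 g3
  exact X.al.ninv (2*N + i + a - l - 2*m + c + d - 1) (fin X.al.per 0 _ (pr X.d2 X.al.per (-1) (2*N + i + a - l - 2*m + c + d - 1) (af X.s2 X.al.per 0 (-2*N + i + a + l + 2*m - c - d + 1) (rfl : W (2*N + i + a - l - 2*m + c + d - 1) = W (2*N + i + a - l - 2*m + c + d - 1)) (by omega)) (by omega)) (by omega))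

theorem T0_60 (X : C W N Q i a b l m c d L) (hb : B N Q i a b l m c d L)
    (h : 2*N + 2*c + d ≤ l + 2*m ∧ 2*N + 2*a + 2*b + 2*c + d ≤ 2*l + 4*m + 1 ∧ 2*a + 2*b + d + 1 ≤ 0 ∧ i + 2*l + 2*m + 3 ≤ 2*N + 2*a + 2*b + d) :
    False := by
  have b6 := hb.b6
  have b33 := hb.b33
  obtain ⟨g1, g2, g3, g4⟩ := h
  have k1 : 2*a + 2*b + 2*m + 1 ≤ 2*N + 2*c + d := by clear * - b33 g3; omega
  have k2 : l + 2*m + 2 ≤ 2*N + 2*a + 2*b + 2*c + d := by clear * - b6 g4; omega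
  clear * - X g1 g2 g3 g4 k1 k2
  exact X.al.ninv (2*N + i - 2*a - 2*b - 2*m + 2*c + d) (fin X.al.per 0 _ (pf X.d1 X.al.per (-1) (2*N + i - 2*a - 2*b - 2*m + 2*c + d) (ar X.S2 X.al.per 0 (-2*N + i - 2*a - 2*b + 2*l + 2*m - d + 2) (pf X.bb X.al.per 0 (2*N + i + 2*a + 2*b - 2*m + 2*c + d) (pf X.bb X.al.per 0 (2*N + i - 2*m + 2*c + d) (rfl : W (2*N + i - 2*a - 2*b - 2*m + 2*c + d) = W (2*N + i - 2*a - 2*b - 2*m + 2*c + d)) (by omega)) (by omega)) (by omega)) (by omega)) (by omega))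

theorem T0_61 (X : C W N Q i a b l m c d L) (hb : B N Q i a b l m c d L)
    (h : a + b + l + 2*m + 2 ≤ 2*N + c + d ∧ a + b + d + 1 ≤ c ∧ i + 2*l + 2*m + c + 3 ≤ 2*N + a + b + d ∧ 2*N + a + b + c + d ≤ 2*l + 4*m + 1) :
    False := by
  have b18 := hb.b18
  have b29 := hb.b29
  have b33 := hb.b33
  obtain ⟨g1, g2, g3, g4⟩ := h
  have k1 : l + 2*m + 2 ≤ 2*N + a + b + c + d := by clear * - b18 b29 b33 g2 g3; omega
  clear * - X g1 g2 g3 g4 k1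
  exact X.al.ninv (2*N + i + a + b - 2*m + c + d) (fin X.al.per 0 _ (af X.S2 X.al.per 1 (2*N + i + a + b - 2*m + c + d) (pr X.d1 X.al.per 0 (i - a - b + 2*l + 2*m + c - d + 2) (pf X.c2 X.al.per 0 (2*N + i - a - b - 2*m + 3*c + d) (rfl : W (2*N + i + a + b - 2*m + c + d) = W (2*N + i + a + b - 2*m + c + d)) (by omega)) (by omega)) (by omega)) (by omega))

theorem T0_62 (X : C W N Q i a b l m c d L) (hb : B N Q i a b l m c d L)
    (h : 2*b + l + 3*m ≤ N + c + d + L + 1 ∧ 2*i + 2*a + 2*b + 2*l + 7*m ≤ 3*N + 3*c + 3*d + 2*L + 1 ∧ N + c + d ≤ i + m ∧ N + c + d + 1 ≤ 2*b + m ∧ i + 2*a + l + 3*m ≤ N + c + d + L ∧ i + l + 2*m + 1 ≤ L) :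
    False := by
  have b2 := hb.b2
  have b4 := hb.b4
  have b15 := hb.b15
  have b33 := hb.b33
  obtain ⟨g1, g2, g3, g4, g5, g6⟩ := h
  have k1 : N + c + d ≤ i + 2*a + m := by clear * - b2 g3; omega
  have k2 : N + c + d + 1 ≤ 2*a + 2*b + m := by clear * - b4 b15 b33; omega
  clear * - X g1 g2 g3 g4 g5 g6 k1 k2 b33
  obtain ⟨K0, hL⟩ : ∃ K0 : ℤ, -2*a - 2*b + 2 ≤ 2*K0 ∧ -4*N + 2*i + 2*a + 2*b + 2*l + 8*m - 4*c - 4*d - 2*L ≤ 2*K0 ∧ 2*a - 2*b + 2 ≤ 2*K0 ∧ 2*K0 + 2*(N - m + c + d) - 2 ≤ 2*i + 2*a - 2*b ∧ 2*K0 + 2*(N - m + c + d) - 2 ≤ 2*a + 2*b - 2 ∧ 2*K0 + 2*(N - m + c + d) - 2 ≤ 4*N - 2*i - 2*a - 2*b - 2*l - 8*m + 4*c + 4*d + 2*L := ⟨((max (2*a - 2*b + 2) (max (-4*N + 2*i + 2*a + 2*b + 2*l + 8*m - 4*c - 4*d - 2*L) (-2*a - 2*b + 2))) + 1) / 2, by omega⟩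
  obtain ⟨R, hR1, hR2, hR⟩ := pw (A := i + 1) (B := 2*N - l - 4*m + 2*c + 2*d + L + 1) (γ := N - m + c + d) (by omega) (fun t h1 h2 => (fin X.al.per 0 _ (pf X.g1 X.al.per 0 (2*N - 2*m + 2*c + 2*d + t) (rfl : W (t) = W (t)) (by omega)) (by omega))) K0
  exact X.al.ninv (i + a - b - R) (fin X.al.per 0 _ (ar X.s1 X.al.per 0 (i + a - b - R) (pp hR X.al.per 0 (i + a + b + R) (pf X.a1 X.al.per 0 (i + a + b - R) (rfl : W (i + a - b - R) = W (i + a - b - R)) (by omega)) (by omega)) (by omega)) (by omega))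

theorem T0_65 (X : C W N Q i a b l m c d L) (hb : B N Q i a b l m c d L)
    (h : 3*a + 3*b ≤ N + l + 3*c ∧ N + 3*c + 1 ≤ 3*a + 3*b ∧ i + a + b + l + c + 2 ≤ N ∧ N + c ≤ a + b + l + 2*m ∧ 3*a + 3*b + 1 ≤ N + c) :
    False := by
  have b13 := hb.b13
  have b18 := hb.b18
  have b29 := hb.b29
  obtain ⟨g1, g2, g3, g4, g5⟩ := h
  have k1 : a + b + 1 ≤ N + c := by clear * - b18 b29 g1 g3; omega
  have k2 : i + l + c + 2 ≤ N + a + b := by clear * - b13 g4; omega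
  clear * - X g1 g2 g3 g4 g5 k1 k2
  exact X.al.ninv (N + i - 3*a - 3*b + l + 3*c + 1) (fin X.al.per 0 _ (pf X.c2 X.al.per 0 (N + i - 3*a - 3*b + l + 3*c + 1) (af X.S2 X.al.per 1 (N + i - a - b + l + c + 1) (pr X.c2 X.al.per 0 (N + i + a + b + l + c + 1) (pf X.bb X.al.per 0 (N + i - a - b + l + 3*c + 1) (rfl : W (N + i - 3*a - 3*b + l + 3*c + 1) = W (N + i - 3*a - 3*b + l + 3*c + 1)) (by omega)) (by omega)) (by omega)) (by omega)) (by omega))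

theorem T0_66 (X : C W N Q i a b l m c d L) (hb : B N Q i a b l m c d L)
    (h : Q + 2*a + b ≤ i + l + c + 1 ∧ l + c + 2 ≤ 4*a + 3*b ∧ 2*a + 3*b + c ≤ l + 2*m ∧ 1 ≤ 2*a + 3*b + c) :
    False := by
  have b2 := hb.b2
  have b7 := hb.b7
  have b15 := hb.b15
  have b33 := hb.b33
  obtain ⟨g1, g2, g3, g4⟩ := h
  have k1 : 2*a + b ≤ l + c := by clear * - b15 b33 g1; omega
  have k2 : b + c + 1 ≤ 0 := by clear * - b2 b7 g1; omega
  clear * - X g1 g2 g3 g4 k1 k2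
  exact X.al.ninv (i - 2*a - 3*b + l + c + 1) (fin X.al.per 0 _ (ar X.S2 X.al.per 0 (i - 2*a - 3*b + l + c + 1) (pf X.bb X.al.per 0 (i + 2*a + 3*b + l + c + 1) (pf X.bb X.al.per 0 (i + b + l + c + 1) (pf X.a2 X.al.per 0 (i - 2*a - b + l + c + 1) (rfl : W (i - 2*a - 3*b + l + c + 1) = W (i - 2*a - 3*b + l + c + 1)) (by omega)) (by omega)) (by omega)) (by omega)) (by omega))

theorem T0_67 (X : C W N Q i a b l m c d L) (hb : B N Q i a b l m c d L)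
    (h : 2*a + 2*b + d ≤ l + 2*c ∧ 2*c + 1 ≤ 2*a + 2*b + d ∧ d + 1 ≤ 2*c ∧ 0 ≤ i + l + d + 1 ∧ l + 2*m + 2 ≤ 2*N + 2*c + d ∧ 2*a + 2*b + d + 1 ≤ 0) :
    False := by
  have b11 := hb.b11
  obtain ⟨g1, g2, g3, g4, g5, g6⟩ := h
  have k1 : 2*c ≤ l + 2*m + d := by clear * - b11 g4; omega
  have k2 : i + l + 2 ≤ 2*N + d := by clear * - b11 g5; omega
  clear * - X g1 g2 g3 g4 g5 g6 k1 k2
  exact X.al.ninv (i - 2*a - 2*b + l + 2*c - d + 1) (fin X.al.per 0 _ (pf X.c2 X.al.per 0 (i - 2*a - 2*b + l + 2*c - d + 1) (pf X.d3 X.al.per 0 (i + l - d + 1) (ar X.S2 X.al.per 0 (i + l + d + 1) (pf X.bb X.al.per 0 (i + l + 2*c - d + 1) (rfl : W (i - 2*a - 2*b + l + 2*c - d + 1) = W (i - 2*a - 2*b + l + 2*c - d + 1)) (by omega)) (by omega)) (by omega)) (by omega)) (by omega))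

theorem T0_68 (X : C W N Q i a b l m c d L) (hb : B N Q i a b l m c d L)
    (h : N + i + a + c + 1 ≤ Q + b ∧ a + b + l + c + 2 ≤ N) :
    False := by
  have b2 := hb.b2
  have b6 := hb.b6
  have b9 := hb.b9
  have b15 := hb.b15
  have b19 := hb.b19
  have b27 := hb.b27
  have b33 := hb.b33
  obtain ⟨g1, g2⟩ := h
  have k1 : N + 2*i + a + c + 1 ≤ 2*Q + b := by clear * - b15 b33 g1; omega
  have k2 : a + 3*b + 2*l + c + 3 ≤ 3*N := by clear * - b2 b19 b27 g2; omega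
  have k3 : i + l + 2*c + 3 ≤ Q := by clear * - b2 g1 g2; omega
  have k4 : a + b + 1 ≤ N + c := by clear * - b6 b9; omega
  clear * - X g1 g2 k1 k2 k3 k4
  obtain ⟨K0, hL⟩ : ∃ K0 : ℤ, 2*a + 2 ≤ 2*K0 ∧ -2*Q + 2*i + 2*a + 2 ≤ 2*K0 ∧ -4*N + 2*a + 4*b + 2*l + 4 ≤ 2*K0 ∧ 2*K0 + 2*(N - a - b + c) - 2 ≤ 2*Q - 2*i - 2*a - 2 ∧ 2*K0 + 2*(N - a - b + c) - 2 ≤ 4*N - 2*a - 4*b - 2*l - 4 := ⟨((max (-4*N + 2*a + 4*b + 2*l + 4) (max (-2*Q + 2*i + 2*a + 2) (2*a + 2))) + 1) / 2, by omega⟩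
  obtain ⟨R, hR1, hR2, hR⟩ := pw (A := i + 2*a + 2*b + l + 2) (B := 2*N + Q) (γ := N - a - b + c) (by omega) (fun t h1 h2 => (fin X.al.per 1 _ (pr X.c1 X.al.per 0 (-2*a - 2*b + 2*c + t) (rfl : W (t) = W (t)) (by omega)) (by omega))) K0
  exact X.al.ninv (i + a + R) (fin X.al.per (-1) _ (pp hR X.al.per (-1) (2*N + i + a + R) (af X.s2 X.al.per 0 (i + a - R) (rfl : W (i + a + R) = W (i + a + R)) (by omega)) (by omega)) (by omega))

theorem T0_71 (X : C W N Q i a b l m c d L) (hb : B N Q i a b l m c d L)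
    (h : i + 2*b + 2*l + 2*m + 3 ≤ 2*N + Q ∧ Q + 2*l + 4*m + 2 ≤ 4*N + 2*c + 2*d ∧ 2*N + c + d ≤ b + l + 2*m) :
    False := by
  have b1 := hb.b1
  have b2 := hb.b2
  have b23 := hb.b23
  have b27 := hb.b27
  have b29 := hb.b29
  have b35 := hb.b35
  obtain ⟨g1, g2, g3⟩ := h
  have k1 : Q + 2*l + 4*m + 2 ≤ 4*N + i + 2*a + 2*c + 2*d := by clear * - b1 b2 g2; omega
  have k2 : b + l + 2*m + 2 ≤ 3*N + c + d := by clear * - b23 b27 b29 b35 g1 g2; omega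
  clear * - X g1 g2 g3 k1 k2
  exact X.al.ubQ (-4*N + 2*b + 2*l + 4*m - 2*c - 2*d + 2) (by omega) (by omega) fun t h1 h2 => (fin X.al.per 0 _ (pf X.a2 X.al.per 1 (-4*N + 2*b + 2*l + 4*m - 2*c - 2*d + t + 2) (pr X.d1 X.al.per 0 (-2*N + 2*l + 4*m - 2*c - 2*d + t + 2) (rfl : W (t) = W (t)) (by omega)) (by omega)) (by omega))

theorem T0_72 (X : C W N Q i a b l m c d L) (hb : B N Q i a b l m c d L)
    (h : b + l + 2*m + 1 ≤ 2*N + c + d ∧ 2*N + c + d ≤ b + l + 2*m + 1 ∧ 2*l + 2*m + L + 4 ≤ 2*N + 2*a) :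
    False := by
  have b14 := hb.b14
  have b25 := hb.b25
  have b30 := hb.b30
  have b32 := hb.b32
  have b35 := hb.b35
  obtain ⟨g1, g2, g3⟩ := h
  have k1 : l + 2*m + 2 ≤ 2*N + c + d := by clear * - b14 b25 g3; omega
  have k2 : N + c + d ≤ l + 2*m := by clear * - b30 b32 b35 g2 g3; omega
  clear * - X g1 g2 g3 k1 k2
  exact absurd (X.lam.mx (i + 2*l + 2*m + 3) (2*N + i + 2*a) (4*N - 2*l - 4*m + 2*c + 2*d - 2) (by omega) (by omega) fun t h1 h2 => (lt_or_ge t (2*N)).elim (fun u0 => (fin X.al.per 1 _ (pf X.d1 X.al.per 0 (2*N - 2*l - 4*m + 2*c + 2*d + t - 2) (rfl : W (t) = W (t)) (by omega)) (by omega))) (fun u0 => (fin X.al.per 1 _ (pf X.a1 X.al.per 1 (-2*N + 2*b + t) (rfl : W (t) = W (t)) (by omega)) (by omega)))) (by omega)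

theorem T0_73 (X : C W N Q i a b l m c d L) (hb : B N Q i a b l m c d L)
    (h : 0 ≤ i + 2*a + b + d ∧ 2*a + b + d + 1 ≤ 0 ∧ 0 ≤ b + l + d) :
    False := by
  have b2 := hb.b2
  have b33 := hb.b33
  obtain ⟨g1, g2, g3⟩ := h
  have k1 : b + d + 1 ≤ 0 := by clear * - b2 g2; omega
  have k2 : 2*a + b + 2*m + 1 ≤ 2*N + 2*c + d := by clear * - b33 g2; omega
  clear * - X g1 g2 g3 k1 k2
  exact X.al.ninv (i + 2*a + b + d) (fin X.al.per 0 _ (pr X.d3 X.al.per 0 (i + 2*a + b + d) (pf X.bb X.al.per 0 (i + 2*a + b - d) (af X.s1 X.al.per 0 (i - b - d) (rfl : W (i + 2*a + b + d) = W (i + 2*a + b + d)) (by omega)) (by omega)) (by omega)) (by omega))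

theorem T0_76 (X : C W N Q i a b l m c d L) (hb : B N Q i a b l m c d L)
    (h : b ≤ i) :
    False := by
  have b2 := hb.b2
  have b3 := hb.b3
  have b4 := hb.b4
  have b15 := hb.b15
  have b18 := hb.b18
  have b29 := hb.b29
  have b33 := hb.b33
  have g1 := h
  have k1 : 1 ≤ b := by clear * - b3 b4; omega
  have k2 : 1 ≤ 2*a + 3*b := by clear * - b3 b4 b15 b33; omega
  have k3 : 1 ≤ i + 2*a := by clear * - b2 b18 b29 g1; omega
  clear * - X g1 k1 k2 k3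
  obtain ⟨K0, hL⟩ : ∃ K0 : ℤ, -2*i - 2*a ≤ 2*K0 ∧ -2*a - 4*b + 2 ≤ 2*K0 ∧ 2*K0 + 2*(b) - 2 ≤ -2*a - 2 ∧ 2*K0 + 2*(b) - 2 ≤ 2*i + 2*a ∧ 2*K0 + 2*(b) - 2 ≤ 2*a + 4*b - 2 := ⟨((max (-2*a - 4*b + 2) (-2*i - 2*a)) + 1) / 2, by omega⟩
  obtain ⟨R, hR1, hR2, hR⟩ := pw (A := 0) (B := i + 2*a + 2*b) (γ := b) (by omega) (fun t h1 h2 => (fin X.al.per 0 _ (pf X.a1 X.al.per 0 (2*b + t) (rfl : W (t) = W (t)) (by omega)) (by omega))) K0
  exact X.al.ninv (i + a + R) (fin X.al.per 0 _ (pp hR X.al.per 0 (i + a + R) (af X.s1 X.al.per 0 (i + a - R) (rfl : W (i + a + R) = W (i + a + R)) (by omega)) (by omega)) (by omega))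

theorem T0_77 (X : C W N Q i a b l m c d L) (hb : B N Q i a b l m c d L)
    (h : l + 2 ≤ 4*a + 2*b ∧ l + c + 1 ≤ 2*a + 2*b ∧ 2*a + 2*b ≤ l + c + 1) :
    False := by
  have b1 := hb.b1
  have b3 := hb.b3
  have b7 := hb.b7
  have b8 := hb.b8
  have b27 := hb.b27
  have b34 := hb.b34
  obtain ⟨g1, g2, g3⟩ := h
  have k1 : 1 ≤ a := by clear * - b7 b8 g1 g3; omega
  have k2 : 2*a ≤ l := by clear * - b3 b8; omega
  have k3 : 2*a + b ≤ l + m := by clear * - b7 b8 b27 b34 g3; omega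
  have k4 : 4*a + 4*b ≤ i + 2*l + 2*c + 2 := by clear * - b1 g3; omega
  clear * - X g1 g2 g3 k1 k2 k3 k4
  exact X.n1.yx (sw (fin X.al.per 0 _ (pr X.a1 X.al.per 0 (i - 4*a - 4*b + 2*l + 2*c + 2) (ar X.S2 X.al.per 0 (i - 4*a - 2*b + 2*l + 2*c + 2) (pf X.bb X.al.per 0 (i + 4*a + 2*b) (rfl : W (i + 2*a) = W (i + 2*a)) (by omega)) (by omega)) (by omega)) (by omega)))

theorem T0_78 (X : C W N Q i a b l m c d L) (hb : B N Q i a b l m c d L)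
    (h : 4*N + 2*c + 2*d ≤ i + 2*a + 2*b + 2*l + 4*m + 2 ∧ i + 2*b + 2*l + 2*m + 3 ≤ 2*N) :
    False := by
  have b3 := hb.b3
  have b4 := hb.b4
  have b14 := hb.b14
  have b27 := hb.b27
  have b29 := hb.b29
  have b34 := hb.b34
  have b35 := hb.b35
  obtain ⟨g1, g2⟩ := h
  have k1 : b + l + 2*m + 1 ≤ 2*N + c + d := by clear * - b14 g2; omega
  have k2 : b + 1 ≤ N := by clear * - b27 b29 b34 b35 g1 g2; omega
  have k3 : 1 ≤ i + 2*a := by clear * - b14 g1 g2; omega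
  have k4 : 1 ≤ b := by clear * - b3 b4; omega
  clear * - X g1 g2 k1 k2 k3 k4
  obtain ⟨K0, hL⟩ : ∃ K0 : ℤ, -4*N + 2*l + 4*m - 2*c - 2*d + 3 ≤ 2*K0 ∧ -i - 2*a - 2*b + 1 ≤ 2*K0 ∧ 2*K0 + 2*(b) - 2 ≤ -2*N - i + 2*m - 2*c - 2*d - 1 ∧ 2*K0 + 2*(b) - 2 ≤ 0 ∧ 2*K0 + 2*(b) - 2 ≤ -4*N + i + 2*a + 2*b + 2*l + 4*m - 2*c - 2*d + 2 ∧ 2*K0 + 2*(b) - 2 ≤ -2*N + 2*l + 4*m - 2*c - 2*d + 1 := ⟨((max (-i - 2*a - 2*b + 1) (-4*N + 2*l + 4*m - 2*c - 2*d + 3)) + 1) / 2, by omega⟩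
  obtain ⟨R, hR1, hR2, hR⟩ := pw (A := 0) (B := i + 2*a + 2*b) (γ := b) (by omega) (fun t h1 h2 => (fin X.al.per 0 _ (pf X.a1 X.al.per 0 (2*b + t) (rfl : W (t) = W (t)) (by omega)) (by omega))) K0
  exact X.al.ubP (4*N - 2*l - 4*m + 2*c + 2*d + 2*R - 2) (by omega) (by omega) fun t h1 h2 => (fin X.al.per 0 _ (pp hR X.al.per 0 (4*N - 2*l - 4*m + 2*c + 2*d + t + 2*R - 2) (pf X.d1 X.al.per (-1) (4*N - 2*l - 4*m + 2*c + 2*d + t - 2) (rfl : W (t) = W (t)) (by omega)) (by omega)) (by omega))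

theorem T0_79 (X : C W N Q i a b l m c d L) (hb : B N Q i a b l m c d L)
    (h : i + 2*l + 2*m + 2*c + 3 ≤ Q + 2*a ∧ Q + 2*l + 4*m + 2 ≤ 4*N + 2*c + 2*d ∧ i + 2*b + l + 2*c + 2 ≤ Q ∧ Q + 2*l + 4*m + 2 ≤ 2*N + i + 4*a + 2*b + 2*d ∧ N + a + d ≤ l + 2*m) :
    False := by
  have b3 := hb.b3
  have b6 := hb.b6
  have b31 := hb.b31
  have b35 := hb.b35
  obtain ⟨g1, g2, g3, g4, g5⟩ := h
  have k1 : l + 2*m + 1 ≤ N + a + b + d := by clear * - b3 g4; omega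
  have k2 : 2*b ≤ Q := by clear * - b6 g3; omega
  have k3 : l + 2*m + 2 ≤ 2*N + a + d := by clear * - b31 b35 g1 g4 g5; omega
  clear * - X g1 g2 g3 g4 g5 k1 k2 k3
  exact X.al.ubQ (-2*N - 2*a + 2*l + 4*m - 2*d + 2) (by omega) (by omega) fun t h1 h2 => (fin X.al.per 0 _ (pf X.a1 X.al.per 0 (-2*N - 2*a + 2*l + 4*m - 2*d + t + 2) (pr X.c1 X.al.per 0 (-2*N - 2*a - 2*b + 2*l + 4*m - 2*d + t + 2) (pr X.d1 X.al.per 0 (-2*N + 2*l + 4*m - 2*c - 2*d + t + 2) (rfl : W (t) = W (t)) (by omega)) (by omega)) (by omega)) (by omega))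

theorem T0_80 (X : C W N Q i a b l m c d L) (hb : B N Q i a b l m c d L)
    (h : N + c + d + 1 ≤ a + m ∧ i + 2*a + 2*b + l + 4*m ≤ 2*N + 2*c + 2*d + L) :
    False := by
  have b1 := hb.b1
  have b3 := hb.b3
  have b4 := hb.b4
  have b15 := hb.b15
  have b33 := hb.b33
  obtain ⟨g1, g2⟩ := h
  have k1 : i + 2*a + l + 4*m ≤ 2*N + 2*c + 2*d + L := by clear * - b3 b4 g2; omega
  have k2 : 2*N + 2*c + 2*d ≤ i + 2*a + 2*m := by clear * - b1 g1; omega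
  have k3 : N + c + d + 1 ≤ a + b + m := by clear * - b4 b15; omega
  clear * - X g1 g2 k1 k2 b33 k3
  exact X.n1.yz (fin X.al.per 0 _ (pf X.g1 X.al.per 0 (i + 2*a + 2*b) (pf X.a1 X.al.per 0 (-2*N + i + 2*a + 2*b + 2*m - 2*c - 2*d) (pr X.g1 X.al.per 0 (-2*N + i + 2*a + 2*m - 2*c - 2*d) (rfl : W (i + 2*a) = W (i + 2*a)) (by omega)) (by omega)) (by omega)) (by omega)).symm

theorem T0_81 (X : C W N Q i a b l m c d L) (hb : B N Q i a b l m c d L)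
    (h : 0 ≤ a + 2*b + c ∧ a + 2*b + c ≤ 0 ∧ i + 2*a + 4*b + 2*l + 2*m + 3 ≤ 2*N ∧ 2*b + l + 2*m + 2*c + 2 ≤ 0 ∧ L + 2 ≤ 4*a + 4*b) :
    False := by
  have b14 := hb.b14
  have b23 := hb.b23
  have b27 := hb.b27
  have b30 := hb.b30
  have b33 := hb.b33
  have b34 := hb.b34
  have b35 := hb.b35
  obtain ⟨g1, g2, g3, g4, g5⟩ := h
  have k1 : N + a + b + c + d ≤ l + 2*m := by clear * - b23 b27 b30 b34 g1 g3 g4; omega
  have k2 : i + 4*a + 4*b + l + 2 ≤ 2*N := by clear * - b27 b34 g3; omega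
  have k3 : 2*N + 2*a + 2*b + 2*d ≤ 3*l + 4*m + 2 := by clear * - b23 b30 b34 g1 g3 g4; omega
  have k4 : i + 4*a + 4*b + 1 ≤ 2*N + 2*c := by clear * - b30 b34 g1 g3; omega
  have k5 : i + 2*a + 2*b + 2*l + 4*m + 3 ≤ 4*N + 2*c + 2*d := by clear * - b27 b33 b34 g1 g3 g4; omega
  have k6 : l + 4*m + 2 ≤ 2*N + 2*d := by clear * - b27 b33 b34 g1 g4; omega
  have k7 : a + 2*b + l + 2*m + 1 ≤ 2*N + c + d := by clear * - b14 g3; omega
  have k8 : 2*b + l + 4*m + 1 ≤ 2*N + i + 2*d := by clear * - b14 g4; omega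
  have k9 : N + d ≤ l + 2*m := by clear * - b23 b30 g1 g3; omega
  have k10 : l + 2*m + 2 ≤ 2*N + d := by clear * - b27 b30 b34 b35 g1 g3 g4 g5; omega
  have k11 : L + 1 ≤ 2*a + 2*b + l := by clear * - b30 b34 g1 g3 g4 g5; omega
  have k12 : 2*N + 2*c + 2*d + L + 1 ≤ 4*a + 4*b + l + 4*m := by clear * - b23 b27 g5; omega
  clear * - X g1 g2 g3 g4 g5 k1 k2 k3 k4 k5 k6 k7 k8 k9 k10 k11 k12
  exact absurd (X.lam.mx (max (2*N + i - l - 4*m + 2*c + 2*d) (max (2*N + i - 2*a - 2*b - 2*m + 2*c + 2*d + 1) (i + 1))) (min (4*N + 2*a + 4*b - 2*l - 4*m + 2*c + 2*d - 2) (min (i + 4*a + 4*b) (i + 2*a + 2*b + l + 1))) (-2*N + 2*l + 4*m - 2*d + 2) (by omega) (by omega) fun t h1 h2 => by (try simp only [max_le_iff, lt_min_iff] at h1 h2); exact (lt_or_ge t (min (4*N - 2*a - 2*b - 2*l - 4*m + 2*c + 2*d - 2) (i + l + 1))).elim (fun u0 => by (try simp only [lt_min_iff] at u0); exact (fin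 X.al.per 0 _ (pf X.c2 X.al.per 0 (-2*N + 2*l + 4*m - 2*d + t + 2) (pr X.d1 X.al.per 0 (-2*N + 2*a + 2*b + 2*l + 4*m - 2*c - 2*d + t + 2) (pf X.bb X.al.per 0 (2*a + 2*b + t) (rfl : W (t) = W (t)) (by omega)) (by omega)) (by omega)) (by omega))) (fun u0 => (lt_or_ge t (min (2*N + i + 2*a + 2*b - l - 4*m + 2*d - 1) (4*N - 2*l - 4*m + 2*c + 2*d - 2))).elim (fun u1 => by (try simp only [lt_min_iff] at u1); exact (fin X.al.per 0 _ (pf X.bb X.al.per 0 (-2*N + 2*l + 4*m - 2*d + t + 2) (pf X.c2 X.al.per 0 (-2*N - 2*a - 2*b + 2*l + 4*m - 2*d + t + 2) (pr X.d1 X.al.per 0 (-2*N + 2*l + 4*m - 2*c - 2*d + t + 2) (rfl : W (t) = W (t)) (by omega)) (by omega)) (by omega)) (by omega))) (fun u1 => (fin X.al.per 0 _ (pr X.d1 X.al.per 0 (-2*N - 2*a - 4*b + 2*l + 4*m - 2*c - 2*d + t + 2) (pr X.a1 X.al.per 0 (-2*a - 4*b + t) (pr X.bb X.al.per 0 (-2*a - 2*b + t) (rfl : W (t) = W (t)) (by omega))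 (by omega)) (by omega)) (by omega))))) (by omega)

theorem T0_82 (X : C W N Q i a b l m c d L) (hb : B N Q i a b l m c d L)
    (h : a + b + 1 ≤ N + d ∧ N + 2*c ≤ a + b + l + 2*m + d ∧ a + b + d + 1 ≤ N + 2*c ∧ l + 2*m + 2 ≤ N + a + b + d) :
    False := by
  have b6 := hb.b6
  have b15 := hb.b15
  obtain ⟨g1, g2, g3, g4⟩ := h
  have k1 : N + i + l + 2*c + d + 2 ≤ Q + a + b := by clear * - b15 g4; omega
  have k2 : a + b ≤ N + i + l + 2*c + d + 1 := by clear * - b6 g1; omega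
  clear * - X g1 g2 g3 g4 k1 k2
  exact X.al.ninv (N + i - a - b + l + 2*c + d + 1) (fin X.al.per 0 _ (pr X.d3 X.al.per 0 (N + i - a - b + l + 2*c + d + 1) (af X.S2 X.al.per 1 (N + i - a - b + l + 2*c - d + 1) (pf X.c1 X.al.per 0 (N + i + a + b + l + d + 1) (rfl : W (N + i - a - b + l + 2*c + d + 1) = W (N + i - a - b + l + 2*c + d + 1)) (by omega)) (by omega)) (by omega)) (by omega))

theorem T0_83 (X : C W N Q i a b l m c d L) (hb : B N Q i a b l m c d L)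
    (h : N + c + 1 ≤ 2*a + 2*b ∧ N + c ≤ i + 2*a ∧ 2*a + 1 ≤ N + c) :
    False := by
  have b3 := hb.b3
  have b6 := hb.b6
  have b9 := hb.b9
  obtain ⟨g1, g2, g3⟩ := h
  have k1 : 2*b ≤ N + i + c := by clear * - b6 b9 g2; omega
  have k2 : 2*b + l + c + 2 ≤ N := by clear * - b9 g2; omega
  have k3 : N + i + c + 1 ≤ Q + 2*b := by clear * - b3 g1; omega
  clear * - X g1 g2 g3 k1 k2 k3
  exact X.al.ninv (N + i - 2*b + c) (fin X.al.per 0 _ (pr X.c1 X.al.per (-1) (N + i - 2*b + c) (ar X.s1 X.al.per 0 (-N + i + 2*a - c) (pf X.a1 X.al.per 0 (N + i + c) (rfl : W (N + i - 2*b + c) = W (N + i - 2*b + c)) (by omega)) (by omega)) (by omega)) (by omega))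

theorem T0_84 (X : C W N Q i a b l m c d L) (hb : B N Q i a b l m c d L)
    (h : 2*N + 2*c + d ≤ a + b + l + 3*m ∧ N + c ≤ b + l + 2*m + 1 ∧ b + l + 2*m + 1 ≤ N + c) :
    False := by
  have b3 := hb.b3
  have b4 := hb.b4
  have b11 := hb.b11
  have b14 := hb.b14
  obtain ⟨g1, g2, g3⟩ := h
  have k1 : l + 2*m + 2 ≤ N + c := by clear * - b3 b4 g3; omega
  have k2 : 2*b + 2*l + 6*m + 2 ≤ 4*N + i + 4*c + 2*d := by clear * - b14 g3; omega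
  clear * - X g1 g2 g3 k1 b11 k2
  exact X.n3.yz (fin X.al.per 0 _ (pr X.a1 X.al.per 0 (4*N + i - 2*b - 2*l - 6*m + 4*c + 2*d - 2) (pf X.d1 X.al.per 0 (4*N + i - 2*l - 6*m + 4*c + 2*d - 2) (rfl : W (2*N + i - 2*m + 2*c) = W (2*N + i - 2*m + 2*c)) (by omega)) (by omega)) (by omega)).symm

theorem T0_85 (X : C W N Q i a b l m c d L) (hb : B N Q i a b l m c d L)
    (h : 2*b ≤ i + l + c + 1 ∧ l + c + 2 ≤ 2*a ∧ 1 ≤ 2*b + c) :
    False := by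
  have b7 := hb.b7
  have b8 := hb.b8
  have b19 := hb.b19
  have b25 := hb.b25
  have b29 := hb.b29
  have b34 := hb.b34
  obtain ⟨g1, g2, g3⟩ := h
  have k1 : l + c + 2 ≤ 2*a + 2*b := by clear * - b7 b8 g2 g3; omega
  have k2 : 0 ≤ i + l + c + 1 := by clear * - b19 b29 g1 g3; omega
  have k3 : 2*b + c ≤ l + 2*m := by clear * - b25 b34 g1 g2; omega
  clear * - X g1 g2 g3 k1 k2 k3
  exact X.al.ninv (i - 2*b + l + c + 1) (fin X.al.per 0 _ (ar X.S2 X.al.per 0 (i - 2*b + l + c + 1) (pf X.a1 X.al.per 0 (i + 2*b + l + c + 1) (pf X.a1 X.al.per 0 (i + l + c + 1) (rfl : W (i - 2*b + l + c + 1) = W (i - 2*b + l + c + 1)) (by omega)) (by omega)) (by omega)) (by omega))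

theorem T0_86 (X : C W N Q i a b l m c d L) (hb : B N Q i a b l m c d L)
    (h : a ≤ 0 ∧ 2*a ≤ l + 2*c ∧ l + c + 1 ≤ 2*a + b ∧ 2*a + b ≤ l + c + 1) :
    False := by
  have b2 := hb.b2
  have b11 := hb.b11
  have b19 := hb.b19
  have b30 := hb.b30
  obtain ⟨g1, g2, g3, g4⟩ := h
  have k1 : c + 1 ≤ a + m := by clear * - b2 b11 b19 b30 g3; omega
  clear * - X g1 g2 g3 g4 b2 k1
  exact X.n1.tor ⟨(fin X.al.per 0 _ (rfl : W (i + 2*a) = W (i + 2*a)) (by omega)), (fin X.al.per 0 _ (af X.S2 X.al.per 0 (i - 2*a + 2*l + 2*c + 2) (rfl : W (i + 2*a) = W (i + 2*a)) (by omega)) (by omega))⟩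

theorem T0_88 (X : C W N Q i a b l m c d L) (hb : B N Q i a b l m c d L)
    (h : N + i ≤ Q + b + l + m ∧ i + 2*a + b + l + m + 2 ≤ N ∧ N + i + m ≤ b + L + 1) :
    False := by
  have b1 := hb.b1
  have b2 := hb.b2
  have b14 := hb.b14
  have b18 := hb.b18
  have b23 := hb.b23
  have b29 := hb.b29
  obtain ⟨g1, g2, g3⟩ := h
  have k1 : 2*a + b + l + m + 2 ≤ N := by clear * - b1 g2; omega
  have k2 : l + m + 2 ≤ N + 2*a + b := by clear * - b2 b18 b29 g2; omega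
  have k3 : b + l + 3*m + 2 ≤ 3*N + 2*c + 2*d := by clear * - b2 b14 g2; omega
  have k4 : 3*N + 2*c + 2*d ≤ b + 2*l + 3*m + 1 := by clear * - b23 b29 g2; omega
  have k5 : b + l + m + 2 ≤ N := by clear * - b1 b2 g2; omega
  clear * - X g1 g2 g3 k1 k2 k3 k4 k5
  exact X.al.ninv (N + i - b - l - m - 1) (fin X.al.per 0 _ (pr X.g1 X.al.per 0 (N + i - b - l - m - 1) (pr X.bb X.al.per 0 (3*N + i - b - l - 3*m + 2*c + 2*d - 1) (pf X.d1 X.al.per (-1) (3*N + i + 2*a + b - l - 3*m + 2*c + 2*d - 1) (af X.s2 X.al.per 0 (-N + i + 2*a + b + l + m + 1) (rfl : W (N + i - b - l - m - 1) = W (N + i - b - l - m - 1)) (by omega)) (by omega)) (by omega)) (by omega)) (by omega))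

theorem T0_90 (X : C W N Q i a b l m c d L) (hb : B N Q i a b l m c d L)
    (h : 2*N + 2*i + 2*a + 2*c + 2*d + 1 ≤ Q + 2*m ∧ 2*i + 2*a + l + 2*m ≤ L ∧ 2*N + 2*c + 2*d ≤ i + 2*m) :
    False := by
  have b2 := hb.b2
  have b20 := hb.b20
  have b32 := hb.b32
  have b33 := hb.b33
  obtain ⟨g1, g2, g3⟩ := h
  have k1 : 2*N + 2*c + 2*d ≤ i + 2*a + 2*m := by clear * - b2 g3; omega
  have k2 : c + d + 1 ≤ m := by clear * - b20 b32 b33 g3; omega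
  clear * - X g1 g2 g3 k1 b33 k2
  exact X.al.ubP (2*N - 2*m + 2*c + 2*d) (by omega) (by omega) fun t h1 h2 => (fin X.al.per 0 _ (ar' X.s1 X.al.per 0 (2*N - 2*m + 2*c + 2*d + t) (pr X.g1 X.al.per 0 (-2*N + 2*i + 2*a + 2*m - 2*c - 2*d - t) (ar X.s2 X.al.per 0 (2*i + 2*a - t) (rfl : W (t) = W (t)) (by omega)) (by omega)) (by omega)) (by omega))

theorem T0_92 (X : C W N Q i a b l m c d L) (hb : B N Q i a b l m c d L)
    (h : c ≤ i + 2*a + b + d ∧ 2*a + b + d + 1 ≤ c ∧ b + l + c + d + 2 ≤ 0) :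
    False := by
  have b11 := hb.b11
  have b33 := hb.b33
  obtain ⟨g1, g2, g3⟩ := h
  have k1 : 2*a + b + 2*m + 1 ≤ 2*N + 3*c + d := by clear * - b33 g2; omega
  have k2 : i + 2*a + b + 1 ≤ 2*N + c + d := by clear * - b11 b33 g2; omega
  clear * - X g1 g2 g3 k1 k2
  exact X.al.ninv (i - b + c - d) (fin X.al.per 0 _ (pf X.c2 X.al.per 0 (i - b + c - d) (pf X.d3 X.al.per 0 (i + 2*a + b - c - d) (ar X.s1 X.al.per 0 (i + 2*a + b - c + d) (rfl : W (i - b + c - d) = W (i - b + c - d)) (by omega)) (by omega)) (by omega)) (by omega))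

theorem T0_94 (X : C W N Q i a b l m c d L) (hb : B N Q i a b l m c d L)
    (h : N + c + d + 1 ≤ 0 ∧ 0 ≤ Q + 2*a + 2*b + 2*d ∧ Q + 2*a + 2*b + 2*m ≤ 4*N + i + 4*c + 2*d ∧ Q ≤ 2*N + i + l + 2*c + 2*d + 1) :
    False := by
  have b9 := hb.b9
  have b15 := hb.b15
  have b20 := hb.b20
  have b32 := hb.b32
  have b33 := hb.b33
  obtain ⟨g1, g2, g3, g4⟩ := h
  have k1 : i + l + 2 ≤ 2*N + Q + 2*d := by clear * - b9 g2; omega
  have k2 : i + 1 ≤ Q := by clear * - b15 b33; omega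
  have k3 : 1 ≤ 2*N + c + d := by clear * - b20 b32 g1 g2 g3; omega
  clear * - X g1 g2 g3 g4 k1 k2 k3
  exact X.al.ubQ (-2*N - 2*c - 2*d) (by omega) (by omega) fun t h1 h2 => (fin X.al.per 0 _ (pr X.bb X.al.per 0 (-2*N - 2*c - 2*d + t) (pf X.d3 X.al.per 1 (-2*N + 2*a + 2*b - 2*c - 2*d + t) (pf X.c1 X.al.per 0 (2*a + 2*b - 2*c + t) (rfl : W (t) = W (t)) (by omega)) (by omega)) (by omega)) (by omega))

theorem T0_95 (X : C W N Q i a b l m c d L) (hb : B N Q i a b l m c d L)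
    (h : 2*a + b + m + 1 ≤ 2*N + 2*c + d ∧ 2*N + i + 2*c + d + 1 ≤ Q + b + m ∧ b + l + 2*c + d + 2 ≤ m ∧ b + d + 1 ≤ m ∧ i + l + 3*m ≤ b + d + L) :
    False := by
  have b33 := hb.b33
  obtain ⟨g1, g2, g3, g4, g5⟩ := h
  have k1 : i + m + 1 ≤ Q + b + d := by clear * - b33 g2; omega
  clear * - X g1 g2 g3 g4 g5 k1
  exact X.al.ninv (2*N + i - b - m + 2*c + d) (fin X.al.per 0 _ (pf X.g1 X.al.per 0 (2*N + i - b - m + 2*c + d) (pr X.c1 X.al.per (-1) (i - b + m - d) (af X.s2 X.al.per 0 (-2*N + i + 2*a + b + m - 2*c - d) (rfl : W (2*N + i - b - m + 2*c + d) = W (2*N + i - b - m + 2*c + d)) (by omega)) (by omega)) (by omega)) (by omega))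

theorem T0_96 (X : C W N Q i a b l m c d L) (hb : B N Q i a b l m c d L)
    (h : 2*N + a + b + 2*c + d ≤ 2*l + 4*m + 1 ∧ l + 2*m + 2 ≤ 2*N + a + b + 2*c + d ∧ a + b + d + 1 ≤ 0 ∧ 2*N + i + 2*c + d + 1 ≤ Q + a + b + 2*m) :
    False := by
  have b8 := hb.b8
  have b33 := hb.b33
  obtain ⟨g1, g2, g3, g4⟩ := h
  have k1 : a + b + 2*m + 1 ≤ 2*N + 2*c + d := by clear * - b33 g3; omega
  have k2 : 2*N + 2*c + d ≤ a + b + l + 2*m := by clear * - b8 g4; omega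
  clear * - X g1 g2 g3 g4 k1 k2
  exact X.al.ninv (2*N + i - a - b - 2*m + 2*c + d) (fin X.al.per 0 _ (pr X.d2 X.al.per (-1) (2*N + i - a - b - 2*m + 2*c + d) (ar X.S2 X.al.per 0 (-2*N + i - a - b + 2*l + 2*m - d + 2) (pf X.bb X.al.per 0 (2*N + i + a + b - 2*m + 2*c + d) (rfl : W (2*N + i - a - b - 2*m + 2*c + d) = W (2*N + i - a - b - 2*m + 2*c + d)) (by omega)) (by omega)) (by omega)) (by omega))

theorem T0_101 (X : C W N Q i a b l m c d L) (hb : B N Q i a b l m c d L)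
    (h : i + 4*a + 4*b + l + 2 ≤ 2*N ∧ l + 2*m + 2*c + 2 ≤ 2*a + 2*b ∧ i + 2*a + 2*b + 2*l + 2*m + 3 ≤ 2*N ∧ 2*N + i + 4*a + 4*b + 2*d ≤ Q + 2*l + 4*m + 1 ∧ l + 2*m + 2 ≤ N + 2*a + 2*b + d) :
    False := by
  have b4 := hb.b4
  have b7 := hb.b7
  have b8 := hb.b8
  have b15 := hb.b15
  have b22 := hb.b22
  have b23 := hb.b23
  have b27 := hb.b27
  have b29 := hb.b29
  have b33 := hb.b33
  obtain ⟨g1, g2, g3, g4, g5⟩ := h
  have k1 : c + 1 ≤ 0 := by clear * - b7 b8; omega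
  have k2 : l + 4*m + 2 ≤ 2*N + 2*a + 2*b + 2*d := by clear * - b33 g2; omega
  have k3 : i + 2*a + 2*b + 2*l + 4*m + 3 ≤ 4*N + 2*c + 2*d := by clear * - b33 g3; omega
  have k4 : 2*N + i + 2*a + 2*b + 2*c + 2*d ≤ Q + l + 4*m := by clear * - b7 b23 b27 g4; omega
  have k5 : Q + 2*a + 2*b ≤ 2*N + 2*c := by clear * - b4 b33 g3 g4; omega
  have k6 : 2*N + Q + 2*a + 2*b + 2*d ≤ i + 3*l + 4*m + 3 := by clear * - b4 b8 g4; omega
  have k7 : 2*a + 2*b + d ≤ l + 2*m := by clear * - b22 b23 b27 b29 g3 g4; omega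
  clear * - X g1 g2 g3 g4 g5 k1 k2 k3 k4 b15 k5 k6 k7
  exact X.al.ubQ (2*N + 4*a + 4*b - 2*l - 4*m + 2*d - 2) (by omega) (by omega) fun t h1 h2 => by (try simp only [max_le_iff, lt_min_iff] at h1 h2); exact (lt_or_ge t (min (2*N - 4*a - 4*b + 2*c) (i + l + 1))).elim (fun u0 => by (try simp only [lt_min_iff] at u0); exact (fin X.al.per 0 _ (pf X.d1 X.al.per 0 (2*N + 4*a + 4*b - 2*l - 4*m + 2*d + t - 2) (pr X.c2 X.al.per 0 (4*a + 4*b - 2*c + t) (pf X.bb X.al.per 0 (2*a + 2*b + t) (rfl : W (t) = W (t)) (by omega)) (by omega)) (by omega)) (by omega))) (fun u0 => (fin X.al.per 0 _ (pf X.bb X.al.per 0 (2*N + 4*a + 4*b - 2*l - 4*m + 2*d + t - 2) (pf X.d1 X.al.per 0 (2*N + 2*a + 2*b - 2*l - 4*m + 2*d + t - 2) (pr X.c2 X.al.per 0 (2*a + 2*b - 2*c + t) (rfl : W (t) = W (t)) (by omega)) (by omega)) (by omega)) (by omega)))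

theorem T0_102 (X : C W N Q i a b l m c d L) (hb : B N Q i a b l m c d L)
    (h : N + c + d ≤ i + 2*a + m ∧ i + 2*a + 2*b + l + 3*m ≤ N + c + d + L ∧ 2*a + m + 1 ≤ N + c + d) :
    False := by
  have b4 := hb.b4
  have b15 := hb.b15
  have b20 := hb.b20
  have b29 := hb.b29
  have b33 := hb.b33
  have b34 := hb.b34
  obtain ⟨g1, g2, g3⟩ := h
  have k1 : N + c + d + 1 ≤ 2*a + 2*b + m := by clear * - b4 b15 b33; omega
  have k2 : N + c + d ≤ l + m := by clear * - b20 b29 b34 g1 g2; omega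
  clear * - X g1 g2 g3 b33 k1 k2
  exact X.al.ninv (-N + i + 2*a + m - c - d) (fin X.al.per 0 _ (ar X.s1 X.al.per 0 (-N + i + 2*a + m - c - d) (pr X.bb X.al.per 0 (N + i - m + c + d) (pf X.g1 X.al.per 0 (N + i + 2*a + 2*b - m + c + d) (pf X.a1 X.al.per 0 (-N + i + 2*a + 2*b + m - c - d) (rfl : W (-N + i + 2*a + m - c - d) = W (-N + i + 2*a + m - c - d)) (by omega)) (by omega)) (by omega)) (by omega)) (by omega))

theorem T0_103 (X : C W N Q i a b l m c d L) (hb : B N Q i a b l m c d L)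
    (h : b + l + 2*m + 1 ≤ N + i + a + c ∧ N + l + c + 2*d + 2 ≤ a + b ∧ a + b + l + 4*m + 2 ≤ 3*N + 3*c + 2*d ∧ N + a + c ≤ b + l + 2*m) :
    False := by
  have b2 := hb.b2
  have b11 := hb.b11
  obtain ⟨g1, g2, g3, g4⟩ := h
  have k1 : N + c ≤ a + b + l + 2*m := by clear * - b2 g4; omega
  have k2 : i + a + b + l + 2*m + 2 ≤ 3*N + c + 2*d := by clear * - b11 g3; omega
  clear * - X g1 g2 g3 g4 k1 k2
  exact X.al.ninv (N + i + a - b - l - 2*m + c - 1) (fin X.al.per 0 _ (ar X.s1 X.al.per 0 (N + i + a - b - l - 2*m + c - 1) (pr X.d3 X.al.per 0 (-N + i + a + b + l + 2*m - c + 1) (pr X.d1 X.al.per 0 (-N + i + a + b + l + 2*m - c - 2*d + 1) (pf X.a1 X.al.per 0 (N + i + a + b - l - 2*m + c - 1) (rfl : W (N + i + a - b - l - 2*m + c - 1) = W (N + i + a - b - l - 2*m + c - 1)) (by omega)) (by omega)) (by omega)) (by omega)) (by omega))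

theorem T0_104 (X : C W N Q i a b l m c d L) (hb : B N Q i a b l m c d L)
    (h : m + 1 ≤ a + b + d ∧ Q + 2*a + 2*b + l + 2*m ≤ 2*N + 2*c + L + 1) :
    False := by
  have b15 := hb.b15
  have b18 := hb.b18
  have b19 := hb.b19
  have b23 := hb.b23
  have b26 := hb.b26
  have b27 := hb.b27
  have b29 := hb.b29
  obtain ⟨g1, g2⟩ := h
  have k1 : i + 2*a + 2*b + l + 2*c + 2*d + 2 ≤ Q + 2*m := by clear * - b15 b19 b27; omega
  have k2 : a + b + d + 1 ≤ N + m := by clear * - b18 b23 b26 b29 g2; omega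
  clear * - X g1 g2 k1 b15 k2
  exact X.al.ubQ (2*a + 2*b - 2*m + 2*d) (by omega) (by omega) fun t h1 h2 => (fin X.al.per 0 _ (pf X.g1 X.al.per 1 (2*a + 2*b - 2*m + 2*d + t) (pf X.c1 X.al.per 0 (2*a + 2*b - 2*c + t) (rfl : W (t) = W (t)) (by omega)) (by omega)) (by omega))

theorem T0_105 (X : C W N Q i a b l m c d L) (hb : B N Q i a b l m c d L)
    (h : m ≤ a + b + d ∧ Q + l + 4*m ≤ 2*a + 2*b + 2*d + L + 1) :
    False := by
  have b6 := hb.b6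
  have b9 := hb.b9
  have b15 := hb.b15
  have b19 := hb.b19
  have b20 := hb.b20
  have b27 := hb.b27
  have b29 := hb.b29
  obtain ⟨g1, g2⟩ := h
  have k1 : i + 2*a + 2*b + l + 2*c + 2*d + 2 ≤ Q + 2*m := by clear * - b15 b19 b27; omega
  have k2 : c + 1 ≤ a + b := by clear * - b19 b20 b27 b29 g1; omega
  have k3 : i + l + 2*c + 3 ≤ Q := by clear * - b15 b19 b27 g1; omega
  have k4 : a + b + 1 ≤ N + c := by clear * - b6 b9; omega
  clear * - X g1 g2 k1 b15 k2 k3 k4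
  obtain ⟨K0, hL⟩ : ∃ K0 : ℤ, -2*N + 2*m - 2*c - 2*d + 1 ≤ 2*K0 ∧ -2*N - Q + i + 2*a + 2*b + l + 3 ≤ 2*K0 ∧ -Q + i + 2 ≤ 2*K0 ∧ 2*K0 + 2*(N - a - b + c) - 2 ≤ Q - i - 2*a - 2*b - l + 2*m - 2*c - 2*d - 2 ∧ 2*K0 + 2*(N - a - b + c) - 2 ≤ 0 ∧ 2*K0 + 2*(N - a - b + c) - 2 ≤ -Q - l - 2*m + L + 1 ∧ 2*K0 + 2*(N - a - b + c) - 2 ≤ 2*m - 2*c - 2*d - 1 := ⟨((max (-Q + i + 2) (max (-2*N - Q + i + 2*a + 2*b + l + 3) (-2*N + 2*m - 2*c - 2*d + 1))) + 1) / 2, by omega⟩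
  obtain ⟨R, hR1, hR2, hR⟩ := pw (A := i + 2*a + 2*b + l + 2) (B := 2*N + Q) (γ := N - a - b + c) (by omega) (fun t h1 h2 => (fin X.al.per 1 _ (pr X.c1 X.al.per 0 (-2*a - 2*b + 2*c + t) (rfl : W (t) = W (t)) (by omega)) (by omega))) K0
  exact X.al.ubQ (2*N - 2*m + 2*c + 2*d + 2*R) (by omega) (by omega) fun t h1 h2 => (fin X.al.per 0 _ (pf X.g1 X.al.per 1 (2*N - 2*m + 2*c + 2*d + t + 2*R) (pp hR X.al.per (-1) (2*N + t + 2*R) (rfl : W (t) = W (t)) (by omega)) (by omega)) (by omega))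

end Pool.Agent.MP_a38735_al.WL.E22b
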