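import Pool.Agent.MP_a38735_al.AQ

set_option autoImplicit false
set_option linter.unusedVariables false
set_option linter.unusedSimpArgs false

namespace Pool.Agent.MP_a38735_al.WL.E22c

variable {G : Type*} [Group G]

structure C (W : ℤ → G) (N Q i a b l m c d L : ℤ) : Prop where
  al : AL W (2*N) Q
  a1 : Par W (0) (i + 2*a) (2*b)
  a2 : Par W (Q - 2*b) (i + 2*a) (2*b)
  s1 : Ant W (0) (i) (2*i + 2*a)
  s2 : Ant W (i + 2*a + 1) (Q) (2*i + 2*a)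
  bb : Par W (i + 1) (i + l + 1) (2*a + 2*b)
  c1 : Par W (i + l + 2*c + 2) (Q) (2*a + 2*b - 2*c)
  c2 : Par W (i + 2*a + 2*b + l + 2) (2*N) (-2*a - 2*b + 2*c)
  S2 : Ant W (i - 2*m + 2*c + 1) (i + l + 2*c + 1) (2*i + 2*l + 2*c + 2)
  d1 : Par W (i + 2*l + 2*m + 3) (2*N) (-2*l - 2*m - 2)
  d2 : Par W (i + 1) (Q) (2*l + 2*m + 2)
  d3 : Par W (0) (i) (2*N - 2*m + 2*c)
  n1 : Nd W (i + 2*a) (i) (i + 2*a + 2*b)
  n2 : Nd W (i + l + 1) (i + l + 2*c + 1) (i + 2*a + 2*b + l + 1)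
  n3 : Nd W (2*N + i - 2*m + 2*c) (i + 2*l + 2*m + 2) (i)
  lam : L2 W (2*N) L (i + 2*a) (i) (i + 2*a + 2*b) (2*N + i - 2*m + 2*c) (i + 2*l + 2*m + 2) (i)


/-- the linear side conditions -/
structure B (N Q i a b l m c d L : ℤ) : Prop where
  b1 : 0 ≤ i
  b2 : 0 ≤ a
  b3 : i + 2*a + 1 ≤ Q
  b4 : Q ≤ i + 2*a + 2*b
  b5 : i + 2*a + 2*b + 1 ≤ 2*N
  b6 : 0 ≤ i + l + 2*c + 1
  b7 : i + l + 2*c + 2 ≤ Q
  b8 : Q ≤ i + l + 1
  b9 : i + 2*a + 2*b + l + 2 ≤ 2*N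
  b10 : 0 ≤ d
  b11 : d ≤ 0
  b12 : Q + 2*m ≤ 2*N + i + 2*c
  b13 : i + 2*c + 1 ≤ 2*m
  b14 : Q ≤ i + 2*l + 2*m + 2
  b15 : i + 2*l + 2*m + 3 ≤ 2*N
  b16 : i + 1 ≤ Q
  b17 : i + 2*a + L + 3 ≤ 2*N
  b18 : i + 2*a + 2*b + L + 3 ≤ 2*N + Q
  b19 : l + L + 3 ≤ 2*N
  b20 : 2*a + 2*b + L + 2 ≤ 2*N
  b21 : i + L + 3 ≤ 2*N
  b22 : L ≤ i + 2*l + 2*m
  b23 : Q + L + 2 ≤ 2*N + i
  b24 : L ≤ 2*l + 2*m
  b25 : 0 ≤ L
  b26 : i + 2*a ≤ L
  b27 : i + 2*a + 2*b ≤ Q + L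
  b28 : l ≤ L
  b29 : Q ≤ i + l + 2*c + L + 2
  b30 : 2*N ≤ i + 2*a + 2*b + l + L + 2
  b31 : 2*N ≤ i + 2*l + 2*m + L + 3
  b32 : Q ≤ i + L + 1
  b33 : i ≤ L
  b34 : N ≤ b + l + m
  b35 : 2*a + L ≤ 2*l + 2*m

variable {W : ℤ → G} {N Q i a b l m c d L U V Y : ℤ}

theorem T0_0 (X : C W N Q i a b l m c d L) (hb : B N Q i a b l m c d L)
    (h : N + c ≤ l + 2*m) :
    False := by
  have b16 := hb.b16
  have b19 := hb.b19
  have b29 := hb.b29
  have g1 := h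
  have k1 : 1 ≤ N + c := by clear * - b16 b19 b29; omega
  clear * - X g1 k1
  exact X.al.ninv (-N + i + l + c + 1) (fin X.al.per (-1) _ (af X.S2 X.al.per 0 (N + i + l + c + 1) (rfl : W (-N + i + l + c + 1) = W (-N + i + l + c + 1)) (by omega)) (by omega))

theorem T0_2 (X : C W N Q i a b l m c d L) (hb : B N Q i a b l m c d L)
    (h : N + i + 2*a ≤ Q + l + m) :
    False := by
  have b1 := hb.b1
  have b2 := hb.b2
  have b6 := hb.b6
  have b7 := hb.b7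
  have b15 := hb.b15
  have g1 := h
  have k1 : l + m + 2 ≤ N := by clear * - b1 b15; omega
  have k2 : 3*l + 3*m + 4 ≤ 3*N + 2*a := by clear * - b1 b2 b15; omega
  have k3 : i + 2 ≤ Q := by clear * - b2 b6 b7 b15 g1; omega
  clear * - X g1 k1 k2 k3
  obtain ⟨K0, hL⟩ : ∃ K0 : ℤ, 2*a + 2 ≤ 2*K0 ∧ -2*Q + 2*i + 2*a + 2 ≤ 2*K0 ∧ -4*N - 2*a + 4*l + 4*m + 6 ≤ 2*K0 ∧ 2*K0 + 2*(N - l - m - 1) - 2 ≤ 2*Q - 2*i - 2*a - 2 ∧ 2*K0 + 2*(N - l - m - 1) - 2 ≤ 4*N + 2*a - 4*l - 4*m - 6 := ⟨((max (-4*N - 2*a + 4*l + 4*m + 6) (max (-2*Q + 2*i + 2*a + 2) (2*a + 2))) + 1) / 2, by omega⟩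
  obtain ⟨R, hR1, hR2, hR⟩ := pw (A := i + 2*l + 2*m + 3) (B := 2*N + Q) (γ := N - l - m - 1) (by omega) (fun t h1 h2 => (fin X.al.per 1 _ (pr X.d2 X.al.per 0 (-2*l - 2*m + t - 2) (rfl : W (t) = W (t)) (by omega)) (by omega))) K0
  exact X.al.ninv (i + a + R) (fin X.al.per (-1) _ (pp hR X.al.per (-1) (2*N + i + a + R) (af X.s2 X.al.per 0 (i + a - R) (rfl : W (i + a + R) = W (i + a + R)) (by omega)) (by omega)) (by omega))

theorem T0_3 (X : C W N Q i a b l m c d L) (hb : B N Q i a b l m c d L)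
    (h : a + b + m + 1 ≤ N + c ∧ N + a + b + c ≤ 2*l + 3*m + 1 ∧ i + 2*l + m + c + 3 ≤ N + a + b) :
    False := by
  have b2 := hb.b2
  have b6 := hb.b6
  have b7 := hb.b7
  have b8 := hb.b8
  have b34 := hb.b34
  obtain ⟨g1, g2, g3⟩ := h
  have k1 : N + c ≤ a + b + l + m := by clear * - b2 b7 b8 b34; omega
  have k2 : l + m + 2 ≤ N + a + b + c := by clear * - b6 g3; omega
  clear * - X g1 g2 g3 k1 k2
  exact X.al.ninv (N + i - a - b - m + c) (fin X.al.per 0 _ (pf X.d1 X.al.per (-1) (N + i - a - b - m + c) (ar X.S2 X.al.per 0 (-N + i - a - b + 2*l + m + c + 2) (pf X.bb X.al.per 0 (N + i + a + b - m + c) (rfl : W (N + i - a - b - m + c) = W (N + i - a - b - m + c)) (by omega)) (by omega)) (by omega)) (by omega))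

theorem T0_4 (X : C W N Q i a b l m c d L) (hb : B N Q i a b l m c d L)
    (h : l + c + 2 ≤ 2*a + b ∧ 1 ≤ b + c) :
    False := by
  have b2 := hb.b2
  have b8 := hb.b8
  have b13 := hb.b13
  have b20 := hb.b20
  have b31 := hb.b31
  obtain ⟨g1, g2⟩ := h
  have k1 : Q ≤ i + b + l + c + 1 := by clear * - b8 g2; omega
  have k2 : b + c ≤ l + 2*m := by clear * - b2 b13 b20 b31; omega
  clear * - X g1 g2 k1 k2
  exact X.al.ninv (i - b + l + c + 1) (fin X.al.per 0 _ (ar X.S2 X.al.per 0 (i - b + l + c + 1) (pf X.a2 X.al.per 0 (i + b + l + c + 1) (rfl : W (i - b + l + c + 1) = W (i - b + l + c + 1)) (by omega)) (by omega)) (by omega))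

theorem T0_5 (X : C W N Q i a b l m c d L) (hb : B N Q i a b l m c d L)
    (h : a ≤ 0 ∧ 2*a ≤ l + 2*c ∧ l + c + 1 ≤ 2*a + b ∧ 2*a + b ≤ l + c + 1) :
    False := by
  have b2 := hb.b2
  have b13 := hb.b13
  have b20 := hb.b20
  have b31 := hb.b31
  obtain ⟨g1, g2, g3, g4⟩ := h
  have k1 : c + 1 ≤ a + m := by clear * - b2 b13 b20 b31 g3; omega
  clear * - X g1 g2 g3 g4 b2 k1
  exact X.n1.tor ⟨(fin X.al.per 0 _ (rfl : W (i + 2*a) = W (i + 2*a)) (by omega)), (fin X.al.per 0 _ (af X.S2 X.al.per 0 (i - 2*a + 2*l + 2*c + 2) (rfl : W (i + 2*a) = W (i + 2*a)) (by omega)) (by omega))⟩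

theorem T0_6 (X : C W N Q i a b l m c d L) (hb : B N Q i a b l m c d L)
    (h : a + b ≤ l + c ∧ 1 ≤ a + b + c) :
    False := by
  have b7 := hb.b7
  have b8 := hb.b8
  have b13 := hb.b13
  have b20 := hb.b20
  have b31 := hb.b31
  obtain ⟨g1, g2⟩ := h
  have k1 : c + 1 ≤ a + b := by clear * - b7 b8 g2; omega
  have k2 : a + b + c ≤ l + 2*m := by clear * - b13 b20 b31; omega
  clear * - X g1 g2 k1 k2
  exact X.al.ninv (i - a - b + l + c + 1) (fin X.al.per 0 _ (ar X.S2 X.al.per 0 (i - a - b + l + c + 1) (pf X.bb X.al.per 0 (i + a + b + l + c + 1) (rfl : W (i - a - b + l + c + 1) = W (i - a - b + l + c + 1)) (by omega)) (by omega)) (by omega))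

theorem T0_9 (X : C W N Q i a b l m c d L) (hb : B N Q i a b l m c d L)
    (h : b + l + c + 2 ≤ N ∧ Q + 2*m ≤ 2*b + 2*c ∧ 2*N ≤ i + 2*b + 2*l + 2*c + 2) :
    False := by
  have b2 := hb.b2
  have b16 := hb.b16
  have b21 := hb.b21
  have b33 := hb.b33
  have b34 := hb.b34
  obtain ⟨g1, g2, g3⟩ := h
  have k1 : i + 2*m + 1 ≤ 2*b + 2*c := by clear * - b16 g2; omega
  have k2 : 2*N ≤ i + 2*a + 2*b + 2*l + 2*m + 2 := by clear * - b2 b34 g1 g3; omega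
  have k3 : 0 ≤ b + l + c := by clear * - b21 b33 g1 g3; omega
  clear * - X g1 g2 g3 k1 k2 k3
  exact X.al.ubP (2*N - 2*b - 2*l - 2*c - 2) (by omega) (by omega) fun t h1 h2 => (fin X.al.per 0 _ (pr X.d3 X.al.per (-1) (2*N - 2*b - 2*l - 2*c + t - 2) (pr X.a2 X.al.per 0 (2*N - 2*b - 2*l - 2*m + t - 2) (pf X.d1 X.al.per (-1) (2*N - 2*l - 2*m + t - 2) (rfl : W (t) = W (t)) (by omega)) (by omega)) (by omega)) (by omega))

theorem T0_10 (X : C W N Q i a b l m c d L) (hb : B N Q i a b l m c d L)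
    (h : N + Q + a ≤ i + 2*l + 2*m + 2 ∧ N + 2*c + 1 ≤ 3*a + 2*b + 2*m ∧ 2*Q + 3*a + 2*b ≤ N + 2*i + 2*l + 2*c + 3 ∧ 2*a + 2*b ≤ l + 1 ∧ Q + 1 ≤ i + 2*a + 2*b) :
    False := by
  have b2 := hb.b2
  have b6 := hb.b6
  have b7 := hb.b7
  have b15 := hb.b15
  have b16 := hb.b16
  have b19 := hb.b19
  have b20 := hb.b20
  have b28 := hb.b28
  have b34 := hb.b34
  obtain ⟨g1, g2, g3, g4, g5⟩ := h
  have k1 : N ≤ a + 2*b + l + 2*m := by clear * - b2 b19 b28 b34; omega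
  have k2 : l + 2 ≤ N + 3*a + 2*b := by clear * - b6 b15 g2; omega
  have k3 : 2*l + 2*c + 3 ≤ N + 5*a + 2*b := by clear * - b2 b7 b19 b28 g5; omega
  have k4 : Q + a ≤ N + i + l + 2*c + 1 := by clear * - b6 b15 g1; omega
  have k5 : a + 2*b + 1 ≤ N := by clear * - b2 b20 b28 g4; omega
  clear * - X g1 g2 g3 g4 g5 k1 k2 k3 k4 b16 k5
  obtain ⟨K0, hL⟩ : ∃ K0 : ℤ, 2*N - 2*l - 4*m + 2*c ≤ 2*K0 ∧ -2*N - 4*a + 2*l + 2*c + 4 ≤ 2*K0 ∧ -2*N + 2*Q - 2*i + 4*a + 4*b - 2*l - 2*c - 2 ≤ 2*K0 ∧ 2*K0 + 2*(N - a - 2*b) - 2 ≤ 2*N + 2*c - 2 ∧ 2*K0 + 2*(N - a - 2*b) - 2 ≤ 2*N - 2*Q + 2*i - 4*a - 4*b + 2*l + 2*c + 2 ∧ 2*K0 + 2*(N - a - 2*b) - 2 ≤ 2*N + 4*a - 2*l - 2*c - 4 := ⟨((max (-2*N + 2*Q - 2*i + 4*a + 4*b - 2*l - 2*c - 2) (max (-2*N - 4*a + 2*l + 2*c + 4) (2*N - 2*l - 4*m + 2*c))) + 1) / 2, by omega⟩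
  obtain ⟨R, hR1, hR2, hR⟩ := pw (A := Q + 2*a + 2*b) (B := 2*N + i + 2*a) (γ := N - a - 2*b) (by omega) (fun t h1 h2 => (fin X.al.per 1 _ (pr X.a2 X.al.per 0 (-2*a - 4*b + t) (pr X.bb X.al.per 0 (-2*a - 2*b + t) (rfl : W (t) = W (t)) (by omega)) (by omega)) (by omega))) K0
  exact X.al.ninv (-N + i + l + c + R + 1) (fin X.al.per (-1) _ (pp hR X.al.per 0 (N + i + l + c + R + 1) (af X.S2 X.al.per 0 (N + i + l + c - R + 1) (rfl : W (-N + i + l + c + R + 1) = W (-N + i + l + c + R + 1)) (by omega)) (by omega)) (by omega))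

theorem T0_11 (X : C W N Q i a b l m c d L) (hb : B N Q i a b l m c d L)
    (h : N + c ≤ i + a + l + 2*m + 1 ∧ a + l + 2*m + 2 ≤ N + c) :
    False := by
  have b2 := hb.b2
  have b13 := hb.b13
  obtain ⟨g1, g2⟩ := h
  have k1 : l + 2*m + 2 ≤ N + a + c := by clear * - b2 g2; omega
  have k2 : i + a + l + c + 2 ≤ N := by clear * - b13 g2; omega
  clear * - X g1 g2 k1 k2
  exact X.al.ninv (-N + i + a + l + 2*m - c + 1) (fin X.al.per 0 _ (pr X.d3 X.al.per 0 (-N + i + a + l + 2*m - c + 1) (pr X.d1 X.al.per 0 (N + i + a + l + c + 1) (af X.s1 X.al.per 0 (N + i + a - l - 2*m + c - 1) (rfl : W (-N + i + a + l + 2*m - c + 1) = W (-N + i + a + l + 2*m - c + 1)) (by omega)) (by omega)) (by omega)) (by omega))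

theorem T0_20 (X : C W N Q i a b l m c d L) (hb : B N Q i a b l m c d L)
    (h : N + Q + a ≤ i + 2*l + 2*m + 2 ∧ 2*Q + 3*a + 2*b ≤ N + 2*i + 2*l + 2*c + 3 ∧ Q ≤ i + l ∧ l + 1 ≤ 2*a + 2*b ∧ a + 2*b + 1 ≤ N) :
    False := by
  have b2 := hb.b2
  have b7 := hb.b7
  have b16 := hb.b16
  obtain ⟨g1, g2, g3, g4, g5⟩ := h
  have k1 : N + 2*c ≤ a + l + 2*m := by clear * - b2 b7 g1; omega
  have k2 : 2*b + 2*c + 1 ≤ N + a := by clear * - b2 b7 g3 g5; omega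
  clear * - X g1 g2 g3 g4 g5 k1 k2 b16
  obtain ⟨K0, hL⟩ : ∃ K0 : ℤ, 2*N - 2*l - 4*m + 2*c ≤ 2*K0 ∧ -2*N + 4*b + 2*c + 2 ≤ 2*K0 ∧ -2*N + 2*Q - 2*i + 4*a + 4*b - 2*l - 2*c - 2 ≤ 2*K0 ∧ 2*K0 + 2*(N - a - 2*b) - 2 ≤ 2*N + 2*c - 2 ∧ 2*K0 + 2*(N - a - 2*b) - 2 ≤ 2*N - 2*Q + 2*i - 4*a - 4*b + 2*l + 2*c + 2 ∧ 2*K0 + 2*(N - a - 2*b) - 2 ≤ 2*N - 4*b - 2*c - 2 := ⟨((max (-2*N + 2*Q - 2*i + 4*a + 4*b - 2*l - 2*c - 2) (max (-2*N + 4*b + 2*c + 2) (2*N - 2*l - 4*m + 2*c))) + 1) / 2, by omega⟩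
  obtain ⟨R, hR1, hR2, hR⟩ := pw (A := Q + 2*a + 2*b) (B := 2*N + i - 2*b + l + 1) (γ := N - a - 2*b) (by omega) (fun t h1 h2 => (fin X.al.per 1 _ (pr X.a2 X.al.per 0 (-2*a - 4*b + t) (pr X.bb X.al.per 0 (-2*a - 2*b + t) (rfl : W (t) = W (t)) (by omega)) (by omega)) (by omega))) K0
  exact X.al.ninv (-N + i + l + c + R + 1) (fin X.al.per (-1) _ (pp hR X.al.per 0 (N + i + l + c + R + 1) (af X.S2 X.al.per 0 (N + i + l + c - R + 1) (rfl : W (-N + i + l + c + R + 1) = W (-N + i + l + c + R + 1)) (by omega)) (by omega)) (by omega))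

theorem T0_22 (X : C W N Q i a b l m c d L) (hb : B N Q i a b l m c d L)
    (h : Q + a ≤ i + l + c + 1 ∧ l + c + 2 ≤ 3*a + 2*b ∧ a + 2*b + c ≤ l + 2*m ∧ 1 ≤ a + 2*b + c) :
    False := by
  have b2 := hb.b2
  have b7 := hb.b7
  have b16 := hb.b16
  obtain ⟨g1, g2, g3, g4⟩ := h
  have k1 : a ≤ l + c := by clear * - b16 g1; omega
  have k2 : c + 1 ≤ a := by clear * - b2 b7 g1; omega
  clear * - X g1 g2 g3 g4 k1 k2
  exact X.al.ninv (i - a - 2*b + l + c + 1) (fin X.al.per 0 _ (ar X.S2 X.al.per 0 (i - a - 2*b + l + c + 1) (pf X.bb X.al.per 0 (i + a + 2*b + l + c + 1) (pf X.a2 X.al.per 0 (i - a + l + c + 1) (rfl : W (i - a - 2*b + l + c + 1) = W (i - a - 2*b + l + c + 1)) (by omega)) (by omega)) (by omega)) (by omega))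

theorem T0_23 (X : C W N Q i a b l m c d L) (hb : B N Q i a b l m c d L)
    (h : a + b + m + 1 ≤ N + c ∧ N + a + b + c ≤ 2*l + 3*m + 1 ∧ l + m + 2 ≤ N + a + b + c ∧ N + i + c + 1 ≤ Q + a + b + m) :
    False := by
  have b8 := hb.b8
  obtain ⟨g1, g2, g3, g4⟩ := h
  have k1 : N + c ≤ a + b + l + m := by clear * - b8 g4; omega
  clear * - X g1 g2 g3 g4 k1
  exact X.al.ninv (N + i - a - b - m + c) (fin X.al.per 0 _ (pr X.d2 X.al.per (-1) (N + i - a - b - m + c) (ar X.S2 X.al.per 0 (-N + i - a - b + 2*l + m + c + 2) (pf X.bb X.al.per 0 (N + i + a + b - m + c) (rfl : W (N + i - a - b - m + c) = W (N + i - a - b - m + c)) (by omega)) (by omega)) (by omega)) (by omega))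

theorem T0_24 (X : C W N Q i a b l m c d L) (hb : B N Q i a b l m c d L)
    (h : i + 2*b + 2*l + 2*m + 3 ≤ 2*N + Q ∧ Q + 2*l + 2*m + 2 ≤ 2*N + i + 2*a) :
    False := by
  have b1 := hb.b1
  have b2 := hb.b2
  have b15 := hb.b15
  have b32 := hb.b32
  have b34 := hb.b34
  have b35 := hb.b35
  obtain ⟨g1, g2⟩ := h
  have k1 : 0 ≤ i + 2*a := by clear * - b1 b2; omega
  have k2 : b + l + m + 2 ≤ 2*N := by clear * - b32 b34 b35 g1 g2; omega
  clear * - X g1 g2 b15 k1 b34 k2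
  exact X.al.ubQ (-2*N + 2*b + 2*l + 2*m + 2) (by omega) (by omega) fun t h1 h2 => by (try simp only [max_le_iff, lt_min_iff] at h1 h2); exact (lt_or_ge t (min (2*N + i + 2*a - 2*l - 2*m - 2) (2*N - 2*l - 2*m - 2))).elim (fun u0 => by (try simp only [lt_min_iff] at u0); exact (fin X.al.per 0 _ (pf X.a2 X.al.per 1 (-2*N + 2*b + 2*l + 2*m + t + 2) (pr X.d1 X.al.per 0 (2*l + 2*m + t + 2) (rfl : W (t) = W (t)) (by omega)) (by omega)) (by omega))) (fun u0 => (fin X.al.per 0 _ (pf X.a1 X.al.per 1 (-2*N + 2*b + 2*l + 2*m + t + 2) (pf X.d2 X.al.per 0 (2*l + 2*m + t + 2) (rfl : W (t) = W (t)) (by omega)) (by omega)) (by omega)))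

theorem main (X : C W N Q i a b l m c d L) (hb : B N Q i a b l m c d L) : False := by
  have b2 := hb.b2
  have b6 := hb.b6
  have b7 := hb.b7
  have b9 := hb.b9
  have b13 := hb.b13
  have b19 := hb.b19
  have b20 := hb.b20
  have b24 := hb.b24
  have b27 := hb.b27
  have b28 := hb.b28
  have b29 := hb.b29
  have b33 := hb.b33
  have b34 := hb.b34
  have b35 := hb.b35
  rcases lt_or_ge (-N + l + 2*m - c) 0 with h1 | h1
  · rcases lt_or_ge (2*N - Q + i + 2*a - 2*l - 2*m - 2) 0 with h2 | h2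
    · exact T0_2 X hb (by clear * - b7 b28 b35 h1 h2; omega)
    rcases lt_or_ge (2*N + Q - i - 2*b - 2*l - 2*m - 3) 0 with h3 | h3
    · rcases lt_or_ge (N - i + a + b - 2*l - m - c - 3) 0 with h4 | h4
      · rcases lt_or_ge (-a - 2*b + l + 2*m - c) 0 with h5 | h5
        · rcases lt_or_ge (-N + Q - i + a + b + m - c - 1) 0 with h6 | h6
          · rcases lt_or_ge (-N + i + a + l + 2*m - c + 1) 0 with h7 | h7
            · rcases lt_or_ge (a + b + c - 1) 0 with h8 | h8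
              · exact T0_9 X hb ⟨by clear * - b2 b19 b28 h8; omega, by clear * - b2 h1 h3 h7; omega, by clear * - b34 h4 h5; omega⟩
              exact T0_6 X hb ⟨by clear * - b2 b20 b27 h3 h4 h7; omega, by clear * - h8; omega⟩
            exact T0_11 X hb ⟨by clear * - h7; omega, by clear * - b7 b9 h4 h5 h6; omega⟩
          exact T0_23 X hb ⟨by clear * - b20 b33 h1 h4; omega, by clear * - b13 h4; omega, by clear * - b9 h1 h2 h3 h4 h6; omega, by clear * - h6; omega⟩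
        exact T0_22 X hb ⟨by clear * - h1 h3 h5; omega, by clear * - b2 b7 b19 b28 h1 h3; omega, by clear * - h5; omega, by clear * - b2 b19 b28 b34 h1; omega⟩
      rcases lt_or_ge (-N - a - b + 2*l + 3*m - c + 1) 0 with h9 | h9
      · rcases lt_or_ge (2*a + b - l - c - 2) 0 with h10 | h10
        · rcases lt_or_ge (2*a + b - l - c - 1) 0 with h11 | h11
          · rcases lt_or_ge (a + b + c - 1) 0 with h12 | h12
            · exact T0_10 X hb ⟨by clear * - b2 b20 b28 h3 h11 h12; omega, by clear * - b2 b7 b19 b28 h3; omega, by clear * - b2 b20 b28 h2 h3 h11 h12; omega, by clear * - b2 h11 h12; omega, by clear * - b34 h2; omega⟩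
            exact T0_6 X hb ⟨by clear * - b2 h11; omega, by clear * - h12; omega⟩
          rcases lt_or_ge (-2*a + l + 2*c) 0 with h13 | h13
          · exact T0_10 X hb ⟨by clear * - b6 b9 h3 h10 h13; omega, by clear * - b24 b28 b34 h11 h13; omega, by clear * - b6 b9 h3 h4 h9 h10 h13; omega, by clear * - h10 h13; omega, by clear * - b34 h2; omega⟩
          rcases lt_or_ge (-a) 0 with h14 | h14
          · exact T0_6 X hb ⟨by clear * - h10 h14; omega, by clear * - h11 h13 h14; omega⟩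
          exact T0_5 X hb ⟨by clear * - h14; omega, by clear * - h13; omega, by clear * - h11; omega, by clear * - h10; omega⟩
        rcases lt_or_ge (b + c - 1) 0 with h15 | h15
        · rcases lt_or_ge (2*a + 2*b - l - 1) 0 with h16 | h16
          · exact T0_10 X hb ⟨by clear * - b6 b9 h3 h15; omega, by clear * - b24 b28 b34 h10 h16; omega, by clear * - b6 b9 h3 h4 h9 h15 h16; omega, by clear * - h16; omega, by clear * - b34 h2; omega⟩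
          exact T0_20 X hb ⟨by clear * - b6 b9 h3 h15; omega, by clear * - b6 b9 h1 h3 h15; omega, by clear * - b29 b35 h3 h9 h15 h16; omega, by clear * - h16; omega, by clear * - b6 b9 h15; omega⟩
        exact T0_4 X hb ⟨by clear * - h10; omega, by clear * - h15; omega⟩
      exact T0_3 X hb ⟨by clear * - h1 h9; omega, by clear * - h9; omega, by clear * - h4; omega⟩
    exact T0_24 X hb ⟨by clear * - h3; omega, by clear * - h2; omega⟩
  exact T0_0 X hb (by clear * - h1; omega)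


end Pool.Agent.MP_a38735_al.WL.E22c
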