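import Pool.Agent.MP_a38735_al.AQ

set_option autoImplicit false
set_option linter.unusedVariables false
set_option linter.unusedSimpArgs false

namespace Pool.Agent.MP_a38735_al.WL.E22e

variable {G : Type*} [Group G]

structure C (W : ℤ → G) (N Q i a b l m c d L : ℤ) : Prop where
  al : AL W (2*N) Q
  a1 : Par W (0) (i + 2*a) (2*b)
  a2 : Par W (Q - 2*b) (i + 2*a) (2*b)
  s1 : Ant W (0) (i) (2*i + 2*a)
  s2 : Ant W (i + 2*a + 1) (Q) (2*i + 2*a)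
  bb : Par W (i + 1) (i + l + 1) (2*a + 2*b)
  c1 : Par W (i + l + 2*c + 2) (Q) (2*a + 2*b - 2*c)
  c2 : Par W (i + 2*a + 2*b + l + 2) (2*N) (-2*a - 2*b + 2*c)
  S2 : Ant W (i - 2*m + 2*c + 1) (i + l + 2*c + 1) (2*i + 2*l + 2*c + 2)
  d1 : Par W (i + 2*l + 2*m + 3) (2*N) (-2*l - 2*m - 2)
  d2 : Par W (i + 1) (Q) (2*l + 2*m + 2)
  d3 : Par W (0) (i) (2*N - 2*m + 2*c)
  n1 : Nd W (i + 2*a) (i) (i + 2*a + 2*b)
  n2 : Nd W (i + l + 1) (i + l + 2*c + 1) (i + 2*a + 2*b + l + 1)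
  n3 : Nd W (2*N + i - 2*m + 2*c) (i + 2*l + 2*m + 2) (i)
  lam : L2 W (2*N) L (i + 2*a) (i) (i + 2*a + 2*b) (2*N + i - 2*m + 2*c) (i + 2*l + 2*m + 2) (i)


/-- the linear side conditions -/
structure B (N Q i a b l m c d L : ℤ) : Prop where
  b1 : 0 ≤ i
  b2 : 0 ≤ a
  b3 : i + 2*a + 1 ≤ Q
  b4 : Q ≤ i + 2*a + 2*b
  b5 : i + 2*a + 2*b + 1 ≤ 2*N
  b6 : 0 ≤ i + l + 2*c + 1
  b7 : i + l + 2*c + 2 ≤ Q
  b8 : Q ≤ i + l + 1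
  b9 : i + 2*a + 2*b + l + 2 ≤ 2*N
  b10 : 0 ≤ d
  b11 : d ≤ 0
  b12 : Q + 2*m ≤ 2*N + i + 2*c
  b13 : i + 2*c + 1 ≤ 2*m
  b14 : Q ≤ i + 2*l + 2*m + 2
  b15 : i + 2*l + 2*m + 3 ≤ 2*N
  b16 : i + 1 ≤ Q
  b17 : i + 2*a + L + 3 ≤ 2*N
  b18 : i + 2*a + 2*b + L + 3 ≤ 2*N + Q
  b19 : l + L + 3 ≤ 2*N
  b20 : 2*a + 2*b + L + 2 ≤ 2*N
  b21 : i + L + 3 ≤ 2*N
  b22 : L ≤ i + 2*l + 2*m
  b23 : Q + L + 2 ≤ 2*N + i
  b24 : L ≤ 2*l + 2*m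
  b25 : 0 ≤ L
  b26 : i + 2*a ≤ L
  b27 : i + 2*a + 2*b ≤ Q + L
  b28 : l ≤ L
  b29 : Q ≤ i + l + 2*c + L + 2
  b30 : 2*N ≤ i + 2*a + 2*b + l + L + 2
  b31 : 2*N ≤ i + 2*l + 2*m + L + 3
  b32 : Q ≤ i + L + 1
  b33 : i ≤ L
  b34 : i + 3*l + 4*m + 4 ≤ 2*N
  b35 : 2*N ≤ i + 2*a + 2*b + 2*l + 2*m + 2
  b36 : b + l + m + 2 ≤ N
  b37 : 2*a + L ≤ 2*l + 2*m

variable {W : ℤ → G} {N Q i a b l m c d L U V Y : ℤ}

theorem T0_0 (X : C W N Q i a b l m c d L) (hb : B N Q i a b l m c d L)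
    (h : i + 1 ≤ 2*b) :
    False := by
  have b31 := hb.b31
  have b35 := hb.b35
  have b36 := hb.b36
  have b37 := hb.b37
  have g1 := h
  have k1 : 0 ≤ b + l + m := by clear * - b31 b35 b36 b37 g1; omega
  clear * - X g1 b36 b35 k1
  exact X.al.ubP (2*N - 2*b - 2*l - 2*m - 2) (by omega) (by omega) fun t h1 h2 => (fin X.al.per 0 _ (pr X.a1 X.al.per 0 (2*N - 2*b - 2*l - 2*m + t - 2) (pf X.d1 X.al.per (-1) (2*N - 2*l - 2*m + t - 2) (rfl : W (t) = W (t)) (by omega)) (by omega)) (by omega))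

theorem T0_1 (X : C W N Q i a b l m c d L) (hb : B N Q i a b l m c d L)
    (h : b ≤ i) :
    False := by
  have b24 := hb.b24
  have b28 := hb.b28
  have b34 := hb.b34
  have b35 := hb.b35
  have b36 := hb.b36
  have b37 := hb.b37
  have g1 := h
  have k1 : 1 ≤ b := by clear * - b28 b34 b35 b37; omega
  have k2 : 1 ≤ 2*a + 3*b := by clear * - b24 b28 b34 b35 b37; omega
  have k3 : 1 ≤ i + 2*a := by clear * - b35 b36; omega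
  clear * - X g1 k1 k2 k3
  obtain ⟨K0, hL⟩ : ∃ K0 : ℤ, -2*i - 2*a ≤ 2*K0 ∧ -2*a - 4*b + 2 ≤ 2*K0 ∧ 2*K0 + 2*(b) - 2 ≤ -2*a - 2 ∧ 2*K0 + 2*(b) - 2 ≤ 2*i + 2*a ∧ 2*K0 + 2*(b) - 2 ≤ 2*a + 4*b - 2 := ⟨((max (-2*a - 4*b + 2) (-2*i - 2*a)) + 1) / 2, by omega⟩
  obtain ⟨R, hR1, hR2, hR⟩ := pw (A := 0) (B := i + 2*a + 2*b) (γ := b) (by omega) (fun t h1 h2 => (fin X.al.per 0 _ (pf X.a1 X.al.per 0 (2*b + t) (rfl : W (t) = W (t)) (by omega)) (by omega))) K0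
  exact X.al.ninv (i + a + R) (fin X.al.per 0 _ (pp hR X.al.per 0 (i + a + R) (af X.s1 X.al.per 0 (i + a - R) (rfl : W (i + a + R) = W (i + a + R)) (by omega)) (by omega)) (by omega))

theorem main (X : C W N Q i a b l m c d L) (hb : B N Q i a b l m c d L) : False := by
  have b28 := hb.b28
  have b34 := hb.b34
  have b35 := hb.b35
  have b37 := hb.b37
  rcases lt_or_ge (-i + 2*b - 1) 0 with h1 | h1
  · exact T0_1 X hb (by clear * - b28 b34 b35 b37 h1; omega)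
  exact T0_0 X hb (by clear * - h1; omega)


end Pool.Agent.MP_a38735_al.WL.E22e
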