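import Pool.Agent.MP_a38735_al.AQ

set_option autoImplicit false
set_option linter.unusedVariables false
set_option linter.unusedSimpArgs false

namespace Pool.Agent.MP_a38735_al.WL.E22f

variable {G : Type*} [Group G]

structure C (W : ℤ → G) (N Q i a b l m c d L : ℤ) : Prop where
  al : AL W (2*N) Q
  a1 : Par W (0) (i + 2*a) (2*b)
  a2 : Par W (Q - 2*b) (i + 2*a) (2*b)
  s1 : Ant W (0) (i) (2*i + 2*a)
  s2 : Ant W (i + 2*a + 1) (Q) (2*i + 2*a)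
  bb : Par W (i + 1) (i + l + 1) (2*a + 2*b)
  c1 : Par W (i + l + 2*c + 2) (Q) (2*a + 2*b - 2*c)
  c2 : Par W (i + 2*a + 2*b + l + 2) (2*N) (-2*a - 2*b + 2*c)
  S2 : Ant W (i - 2*m + 2*c + 1) (i + l + 2*c + 1) (2*i + 2*l + 2*c + 2)
  d1 : Par W (i + 2*l + 2*m + 3) (2*N) (-2*l - 2*m - 2)
  d2 : Par W (i + 1) (Q) (2*l + 2*m + 2)
  d3 : Par W (0) (i) (2*N - 2*m + 2*c)
  n1 : Nd W (i + 2*a) (i) (i + 2*a + 2*b)
  n2 : Nd W (i + l + 1) (i + l + 2*c + 1) (i + 2*a + 2*b + l + 1)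
  n3 : Nd W (2*N + i - 2*m + 2*c) (i + 2*l + 2*m + 2) (i)
  lam : L2 W (2*N) L (i + 2*a) (i) (i + 2*a + 2*b) (2*N + i - 2*m + 2*c) (i + 2*l + 2*m + 2) (i)


/-- the linear side conditions -/
structure B (N Q i a b l m c d L : ℤ) : Prop where
  b1 : 0 ≤ i
  b2 : 0 ≤ a
  b3 : i + 2*a + 1 ≤ Q
  b4 : Q ≤ i + 2*a + 2*b
  b5 : i + 2*a + 2*b + 1 ≤ 2*N
  b6 : 0 ≤ i + l + 2*c + 1
  b7 : i + l + 2*c + 2 ≤ Q
  b8 : Q ≤ i + l + 1
  b9 : i + 2*a + 2*b + l + 2 ≤ 2*N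
  b10 : 0 ≤ d
  b11 : d ≤ 0
  b12 : Q + 2*m ≤ 2*N + i + 2*c
  b13 : i + 2*c + 1 ≤ 2*m
  b14 : Q ≤ i + 2*l + 2*m + 2
  b15 : i + 2*l + 2*m + 3 ≤ 2*N
  b16 : i + 1 ≤ Q
  b17 : i + 2*a + L + 3 ≤ 2*N
  b18 : i + 2*a + 2*b + L + 3 ≤ 2*N + Q
  b19 : l + L + 3 ≤ 2*N
  b20 : 2*a + 2*b + L + 2 ≤ 2*N
  b21 : i + L + 3 ≤ 2*N
  b22 : L ≤ i + 2*l + 2*m
  b23 : Q + L + 2 ≤ 2*N + i
  b24 : L ≤ 2*l + 2*m
  b25 : 0 ≤ L
  b26 : i + 2*a ≤ L
  b27 : i + 2*a + 2*b ≤ Q + L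
  b28 : l ≤ L
  b29 : Q ≤ i + l + 2*c + L + 2
  b30 : 2*N ≤ i + 2*a + 2*b + l + L + 2
  b31 : 2*N ≤ i + 2*l + 2*m + L + 3
  b32 : Q ≤ i + L + 1
  b33 : i ≤ L
  b34 : i + 3*l + 4*m + 4 ≤ 2*N
  b35 : i + 2*a + 2*b + 2*l + 2*m + 3 ≤ 2*N
  b36 : i + 2*a + 2*b ≤ Q + l + 2*m
  b37 : l + 2*c + 1 ≤ 2*a
  b38 : b + l + m + 2 ≤ N
  b39 : 2*a + L ≤ 2*l + 2*m

variable {W : ℤ → G} {N Q i a b l m c d L U V Y : ℤ}

theorem T0_0 (X : C W N Q i a b l m c d L) (hb : B N Q i a b l m c d L)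
    (h : b ≤ i + a ∧ a + 1 ≤ b) :
    False := by
  have b4 := hb.b4
  have b16 := hb.b16
  obtain ⟨g1, g2⟩ := h
  have k1 : 1 ≤ a + b := by clear * - b4 b16; omega
  clear * - X g1 g2 k1
  exact X.al.ninv (i + a - b) (fin X.al.per 0 _ (ar X.s1 X.al.per 0 (i + a - b) (pf X.a1 X.al.per 0 (i + a + b) (rfl : W (i + a - b) = W (i + a - b)) (by omega)) (by omega)) (by omega))

theorem T0_2 (X : C W N Q i a b l m c d L) (hb : B N Q i a b l m c d L)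
    (h : N + c ≤ a + b + l + m ∧ N + a + b + c ≤ 2*l + 3*m + 1 ∧ i + 2*l + m + c + 3 ≤ N + a + b) :
    False := by
  have b6 := hb.b6
  have b35 := hb.b35
  obtain ⟨g1, g2, g3⟩ := h
  have k1 : a + b + m + 1 ≤ N + c := by clear * - b6 b35 g1; omega
  have k2 : l + m + 2 ≤ N + a + b + c := by clear * - b6 g3; omega
  clear * - X g1 g2 g3 k1 k2
  exact X.al.ninv (N + i - a - b - m + c) (fin X.al.per 0 _ (pf X.d1 X.al.per (-1) (N + i - a - b - m + c) (ar X.S2 X.al.per 0 (-N + i - a - b + 2*l + m + c + 2) (pf X.bb X.al.per 0 (N + i + a + b - m + c) (rfl : W (N + i - a - b - m + c) = W (N + i - a - b - m + c)) (by omega)) (by omega)) (by omega)) (by omega))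

theorem T0_3 (X : C W N Q i a b l m c d L) (hb : B N Q i a b l m c d L)
    (h : N + i + c + 1 ≤ Q + b) :
    False := by
  have b6 := hb.b6
  have b28 := hb.b28
  have b35 := hb.b35
  have b37 := hb.b37
  have b38 := hb.b38
  have b39 := hb.b39
  have g1 := h
  have k1 : 2*a + b + 1 ≤ N + c := by clear * - b6 b28 b35 b39; omega
  have k2 : b + l + c + 2 ≤ N := by clear * - b28 b37 b38 b39; omega
  clear * - X g1 k1 k2
  exact X.al.ninv (N + i - b + c) (fin X.al.per 0 _ (pr X.c1 X.al.per (-1) (N + i - b + c) (af X.s2 X.al.per 0 (-N + i + 2*a + b - c) (rfl : W (N + i - b + c) = W (N + i - b + c)) (by omega)) (by omega)) (by omega))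

theorem T0_4 (X : C W N Q i a b l m c d L) (hb : B N Q i a b l m c d L)
    (h : l + m + c + 2 ≤ a + b ∧ Q + 2*a + 2*b ≤ 2*N + 2*c) :
    False := by
  have b16 := hb.b16
  have b22 := hb.b22
  have b24 := hb.b24
  have b28 := hb.b28
  have b30 := hb.b30
  have b34 := hb.b34
  have b36 := hb.b36
  obtain ⟨g1, g2⟩ := h
  have k1 : a + b ≤ N + l + m + c := by clear * - b22 b24 b28 b30 b34 b36 g2; omega
  clear * - X g1 g2 b36 b16 k1
  exact X.al.ubQ (2*a + 2*b - 2*l - 2*m - 2*c - 2) (by omega) (by omega) fun t h1 h2 => (fin X.al.per 0 _ (pf X.d1 X.al.per 0 (2*a + 2*b - 2*l - 2*m - 2*c + t - 2) (pf X.c1 X.al.per 0 (2*a + 2*b - 2*c + t) (rfl : W (t) = W (t)) (by omega)) (by omega)) (by omega))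

theorem T0_5 (X : C W N Q i a b l m c d L) (hb : B N Q i a b l m c d L)
    (h : 0 ≤ l + 2*c ∧ l + m + c + 1 ≤ a + b ∧ a + b ≤ l + m + c + 1) :
    False := by
  have b28 := hb.b28
  have b35 := hb.b35
  have b37 := hb.b37
  have b39 := hb.b39
  obtain ⟨g1, g2, g3⟩ := h
  have k1 : i + 3*l + 2*m + 2*c + 4 ≤ 2*N := by clear * - b28 b35 b37 b39 g1 g2; omega
  clear * - X g1 g2 g3 k1
  exact X.n2.xz (fin X.al.per 0 _ (pr X.d1 X.al.per 0 (i + 3*l + 2*m + 2*c + 3) (rfl : W (i + l + 2*c + 1) = W (i + l + 2*c + 1)) (by omega)) (by omega)).symm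

theorem T0_6 (X : C W N Q i a b l m c d L) (hb : B N Q i a b l m c d L)
    (h : i + 2*l + 2*m + 2*c + 3 ≤ Q + 2*a + 2*b ∧ a + b ≤ l + m + c) :
    False := by
  have b4 := hb.b4
  have b7 := hb.b7
  have b23 := hb.b23
  have b32 := hb.b32
  have b35 := hb.b35
  obtain ⟨g1, g2⟩ := h
  have k1 : Q + 2*l + 2*m + 2 ≤ 2*N := by clear * - b4 b35; omega
  have k2 : l + m + c + 2 ≤ N + a + b := by clear * - b23 b32 g1 g2; omega
  clear * - X g1 g2 k1 b7 k2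
  exact X.al.ubQ (-2*a - 2*b + 2*l + 2*m + 2*c + 2) (by omega) (by omega) fun t h1 h2 => (fin X.al.per 0 _ (pf X.c2 X.al.per 0 (-2*a - 2*b + 2*l + 2*m + 2*c + t + 2) (pr X.d1 X.al.per 0 (2*l + 2*m + t + 2) (rfl : W (t) = W (t)) (by omega)) (by omega)) (by omega))

theorem T0_10 (X : C W N Q i a b l m c d L) (hb : B N Q i a b l m c d L)
    (h : N + c ≤ i + a + l + 2*m + 1 ∧ a + l + 2*m + 2 ≤ N + c) :
    False := by
  have b2 := hb.b2
  have b13 := hb.b13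
  obtain ⟨g1, g2⟩ := h
  have k1 : l + 2*m + 2 ≤ N + a + c := by clear * - b2 g2; omega
  have k2 : i + a + l + c + 2 ≤ N := by clear * - b13 g2; omega
  clear * - X g1 g2 k1 k2
  exact X.al.ninv (-N + i + a + l + 2*m - c + 1) (fin X.al.per 0 _ (pr X.d3 X.al.per 0 (-N + i + a + l + 2*m - c + 1) (pr X.d1 X.al.per 0 (N + i + a + l + c + 1) (af X.s1 X.al.per 0 (N + i + a - l - 2*m + c - 1) (rfl : W (-N + i + a + l + 2*m - c + 1) = W (-N + i + a + l + 2*m - c + 1)) (by omega)) (by omega)) (by omega)) (by omega))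

theorem T0_12 (X : C W N Q i a b l m c d L) (hb : B N Q i a b l m c d L)
    (h : b ≤ i) :
    False := by
  have b2 := hb.b2
  have b3 := hb.b3
  have b4 := hb.b4
  have b16 := hb.b16
  have b19 := hb.b19
  have b30 := hb.b30
  have g1 := h
  have k1 : 1 ≤ b := by clear * - b3 b4; omega
  have k2 : 1 ≤ 2*a + 3*b := by clear * - b3 b4 b16; omega
  have k3 : 1 ≤ i + 2*a := by clear * - b2 b19 b30 g1; omega
  clear * - X g1 k1 k2 k3
  obtain ⟨K0, hL⟩ : ∃ K0 : ℤ, -2*i - 2*a ≤ 2*K0 ∧ -2*a - 4*b + 2 ≤ 2*K0 ∧ 2*K0 + 2*(b) - 2 ≤ -2*a - 2 ∧ 2*K0 + 2*(b) - 2 ≤ 2*i + 2*a ∧ 2*K0 + 2*(b) - 2 ≤ 2*a + 4*b - 2 := ⟨((max (-2*a - 4*b + 2) (-2*i - 2*a)) + 1) / 2, by omega⟩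
  obtain ⟨R, hR1, hR2, hR⟩ := pw (A := 0) (B := i + 2*a + 2*b) (γ := b) (by omega) (fun t h1 h2 => (fin X.al.per 0 _ (pf X.a1 X.al.per 0 (2*b + t) (rfl : W (t) = W (t)) (by omega)) (by omega))) K0
  exact X.al.ninv (i + a + R) (fin X.al.per 0 _ (pp hR X.al.per 0 (i + a + R) (af X.s1 X.al.per 0 (i + a - R) (rfl : W (i + a + R) = W (i + a + R)) (by omega)) (by omega)) (by omega))

theorem T0_15 (X : C W N Q i a b l m c d L) (hb : B N Q i a b l m c d L)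
    (h : a + b ≤ i + l + 2*c + 1 ∧ a ≤ b + l + 2*c) :
    False := by
  have b13 := hb.b13
  have b24 := hb.b24
  have b31 := hb.b31
  have b34 := hb.b34
  have b37 := hb.b37
  obtain ⟨g1, g2⟩ := h
  have k1 : b ≤ i + a := by clear * - b37 g1; omega
  have k2 : l + 2*c + 2 ≤ 3*a + b := by clear * - b37 g2; omega
  have k3 : b + 2*c + 1 ≤ a + 2*m := by clear * - b13 b37 g1; omega
  have k4 : a + b ≤ l + 2*m := by clear * - b13 g1; omega
  have k5 : 1 ≤ l := by clear * - b24 b31 b34; omega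
  clear * - X g1 g2 k1 k2 k3 k4 k5
  obtain ⟨K0, hL⟩ : ∃ K0 : ℤ, -4*a - 2*b + 2*l + 2*c + 4 ≤ 2*K0 ∧ -4*a - 2*b + 2*c + 2 ≤ 2*K0 ∧ -2*b - 2*l - 2*c ≤ 2*K0 ∧ -2*b - 2*c + 2 ≤ 2*K0 ∧ 2*K0 + 2*(a + b) - 2 ≤ 2*i - 2*b + 2*l + 2*c + 2 ∧ 2*K0 + 2*(a + b) - 2 ≤ 2*b + 2*l + 2*c ∧ 2*K0 + 2*(a + b) - 2 ≤ 4*a + 2*b - 2*c - 2 ∧ 2*K0 + 2*(a + b) - 2 ≤ -2*b + 2*l + 4*m - 2*c := ⟨((max (-2*b - 2*c + 2) (max (-2*b - 2*l - 2*c) (max (-4*a - 2*b + 2*c + 2) (-4*a - 2*b + 2*l + 2*c + 4)))) + 1) / 2, by omega⟩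
  obtain ⟨R, hR1, hR2, hR⟩ := pw (A := i + 1) (B := i + 2*a + 2*b + l + 1) (γ := a + b) (by omega) (fun t h1 h2 => (fin X.al.per 0 _ (pf X.bb X.al.per 0 (2*a + 2*b + t) (rfl : W (t) = W (t)) (by omega)) (by omega))) K0
  exact X.al.ninv (i - b + l + c - R + 1) (fin X.al.per 0 _ (ar X.S2 X.al.per 0 (i - b + l + c - R + 1) (pp hR X.al.per 0 (i + b + l + c + R + 1) (pf X.a1 X.al.per 0 (i + b + l + c - R + 1) (rfl : W (i - b + l + c - R + 1) = W (i - b + l + c - R + 1)) (by omega)) (by omega)) (by omega)) (by omega))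

theorem T0_16 (X : C W N Q i a b l m c d L) (hb : B N Q i a b l m c d L)
    (h : i + a + b + 2*c + 1 ≤ 2*m ∧ i + l + 2*c + 2 ≤ a + b) :
    False := by
  have b6 := hb.b6
  have b24 := hb.b24
  have b28 := hb.b28
  have b30 := hb.b30
  have b31 := hb.b31
  have b34 := hb.b34
  have b35 := hb.b35
  obtain ⟨g1, g2⟩ := h
  have k1 : a + b ≤ l + 2*m := by clear * - b6 g1; omega
  have k2 : 2*N + 2*c ≤ a + b + 3*l + 4*m + 2 := by clear * - b24 b31 g2; omega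
  have k3 : 1 ≤ a + b := by clear * - b6 g2; omega
  have k4 : 2*N + 2*c ≤ 3*a + 3*b + 2*l + 2*m + 1 := by clear * - b24 b30 g2; omega
  have k5 : a + b + l + 2*m + 2 ≤ 2*N + 2*c := by clear * - b6 b35 g2; omega
  have k6 : i + a + b + 2*l + 2*m + 3 ≤ 2*N := by clear * - b24 b28 b34 b35; omega
  have k7 : 1 ≤ l := by clear * - b24 b31 b34; omega
  clear * - X g1 g2 k1 k2 k3 k4 k5 k6 k7
  obtain ⟨K0, hL⟩ : ∃ K0 : ℤ, 2*N - 4*l - 6*m + 2*c - 2 ≤ 2*K0 ∧ 2*N - 4*a - 4*b - 2*l - 2*m + 2*c ≤ 2*K0 ∧ -2*N + 2*m - 2*c + 2 ≤ 2*K0 ∧ 2*K0 + 2*(a + b) - 2 ≤ 2*N - 2*l - 2*m + 2*c - 4 ∧ 2*K0 + 2*(a + b) - 2 ≤ 2*N - 2*m + 2*c - 2 ∧ 2*K0 + 2*(a + b) - 2 ≤ -2*N + 4*a + 4*b + 2*l + 2*m - 2*c ∧ 2*K0 + 2*(a + b) - 2 ≤ 2*N - 2*i - 4*l - 2*m - 2*c - 6 := ⟨((max (-2*N + 2*m - 2*c + 2) (max (2*N - 4*a - 4*b - 2*l - 2*m + 2*c) (2*N - 4*l - 6*m + 2*c - 2))) + 1) / 2, by omega⟩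
  obtain ⟨R, hR1, hR2, hR⟩ := pw (A := i + 1) (B := i + 2*a + 2*b + l + 1) (γ := a + b) (by omega) (fun t h1 h2 => (fin X.al.per 0 _ (pf X.bb X.al.per 0 (2*a + 2*b + t) (rfl : W (t) = W (t)) (by omega)) (by omega))) K0
  exact X.al.ninv (-N + i + 2*l + m + c + R + 2) (fin X.al.per (-1) _ (pr X.d1 X.al.per 0 (N + i + 2*l + m + c + R + 2) (pp hR X.al.per 0 (N + i - m + c + R) (af X.S2 X.al.per 0 (N + i - m + c - R) (rfl : W (-N + i + 2*l + m + c + R + 2) = W (-N + i + 2*l + m + c + R + 2)) (by omega)) (by omega)) (by omega)) (by omega))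

theorem T0_26 (X : C W N Q i a b l m c d L) (hb : B N Q i a b l m c d L)
    (h : 2*N + 2*c ≤ i + 4*a + 4*b ∧ i + 2*a + 4*b + l + 2 ≤ 2*N) :
    False := by
  have b3 := hb.b3
  have b4 := hb.b4
  have b6 := hb.b6
  have b24 := hb.b24
  have b29 := hb.b29
  have b35 := hb.b35
  have b36 := hb.b36
  have b38 := hb.b38
  obtain ⟨g1, g2⟩ := h
  have k1 : a + 2*b ≤ N + c := by clear * - b6 g2; omega
  have k2 : b + 1 ≤ N := by clear * - b24 b29 b35 b36 b38 g1; omega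
  have k3 : 1 ≤ i + 2*a := by clear * - b6 g1 g2; omega
  have k4 : 1 ≤ b := by clear * - b3 b4; omega
  clear * - X g1 g2 k1 k2 k3 k4
  obtain ⟨K0, hL⟩ : ∃ K0 : ℤ, -2*N + 2*a + 2*b - 2*c + 1 ≤ 2*K0 ∧ -i - 2*a - 2*b + 1 ≤ 2*K0 ∧ 2*K0 + 2*(b) - 2 ≤ -i - l - 2*c - 2 ∧ 2*K0 + 2*(b) - 2 ≤ 0 ∧ 2*K0 + 2*(b) - 2 ≤ -2*N + i + 4*a + 4*b - 2*c ∧ 2*K0 + 2*(b) - 2 ≤ 2*a + 2*b - 2*c - 1 := ⟨((max (-i - 2*a - 2*b + 1) (-2*N + 2*a + 2*b - 2*c + 1)) + 1) / 2, by omega⟩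
  obtain ⟨R, hR1, hR2, hR⟩ := pw (A := 0) (B := i + 2*a + 2*b) (γ := b) (by omega) (fun t h1 h2 => (fin X.al.per 0 _ (pf X.a1 X.al.per 0 (2*b + t) (rfl : W (t) = W (t)) (by omega)) (by omega))) K0
  exact X.al.ubP (2*N - 2*a - 2*b + 2*c + 2*R) (by omega) (by omega) fun t h1 h2 => (fin X.al.per 0 _ (pp hR X.al.per 0 (2*N - 2*a - 2*b + 2*c + t + 2*R) (pf X.c2 X.al.per (-1) (2*N - 2*a - 2*b + 2*c + t) (rfl : W (t) = W (t)) (by omega)) (by omega)) (by omega))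

theorem main (X : C W N Q i a b l m c d L) (hb : B N Q i a b l m c d L) : False := by
  have b3 := hb.b3
  have b4 := hb.b4
  have b7 := hb.b7
  have b28 := hb.b28
  have b31 := hb.b31
  have b35 := hb.b35
  have b36 := hb.b36
  have b39 := hb.b39
  rcases lt_or_ge (-N + i + a + l + 2*m - c + 1) 0 with h1 | h1
  · rcases lt_or_ge (-N + Q - i + b - c - 1) 0 with h2 | h2
    · rcases lt_or_ge (-i - a - b + 2*m - 2*c - 1) 0 with h3 | h3
      · rcases lt_or_ge (a + b - l - m - c - 2) 0 with h4 | h4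
        · rcases lt_or_ge (i - a - b + l + 2*c + 1) 0 with h5 | h5
          · rcases lt_or_ge (a + b - l - m - c - 1) 0 with h6 | h6
            · exact T0_6 X hb ⟨by clear * - b7 h3 h5; omega, by clear * - h6; omega⟩
            exact T0_5 X hb ⟨by clear * - h3 h4 h5; omega, by clear * - h6; omega, by clear * - h4; omega⟩
          rcases lt_or_ge (-a + b + l + 2*c) 0 with h7 | h7
          · exact T0_12 X hb (by clear * - b28 b39 h3 h5 h7; omega)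
          exact T0_15 X hb ⟨by clear * - h5; omega, by clear * - h7; omega⟩
        rcases lt_or_ge (2*N - Q - 2*a - 2*b + 2*c) 0 with h8 | h8
        · exact T0_0 X hb ⟨by clear * - b36 h1 h2 h8; omega, by clear * - b28 b39 h1 h2 h8; omega⟩
        exact T0_4 X hb ⟨by clear * - h4; omega, by clear * - h8; omega⟩
      rcases lt_or_ge (-i + a + b - l - 2*c - 2) 0 with h9 | h9
      · rcases lt_or_ge (-a + b + l + 2*c) 0 with h10 | h10
        · exact T0_12 X hb (by clear * - b3 b4 h9 h10; omega)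
        exact T0_15 X hb ⟨by clear * - h9; omega, by clear * - h10; omega⟩
      exact T0_16 X hb ⟨by clear * - h3; omega, by clear * - h9; omega⟩
    exact T0_3 X hb (by clear * - h2; omega)
  rcases lt_or_ge (N - a - l - 2*m + c - 2) 0 with h11 | h11
  · rcases lt_or_ge (-i + a + b - l - 2*c - 2) 0 with h12 | h12
    · rcases lt_or_ge (i - b) 0 with h13 | h13
      · exact T0_15 X hb ⟨by clear * - h12; omega, by clear * - b3 b4 h12 h13; omega⟩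
      exact T0_12 X hb (by clear * - h13; omega)
    rcases lt_or_ge (-i - a - b + 2*m - 2*c - 1) 0 with h14 | h14
    · rcases lt_or_ge (i - b) 0 with h15 | h15
      · rcases lt_or_ge (N - i + a + b - 2*l - m - c - 3) 0 with h16 | h16
        · rcases lt_or_ge (-a - b + l + m + c) 0 with h17 | h17
          · rcases lt_or_ge (-a - b + l + m + c + 1) 0 with h18 | h18
            · rcases lt_or_ge (-2*N + i + 4*a + 4*b - 2*c) 0 with h19 | h19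
              · exact T0_4 X hb ⟨by clear * - h18; omega, by clear * - b4 h19; omega⟩
              exact T0_26 X hb ⟨by clear * - h19; omega, by clear * - b28 b35 b39 h11 h14; omega⟩
            exact T0_5 X hb ⟨by clear * - h12 h14 h18; omega, by clear * - h17; omega, by clear * - h18; omega⟩
          exact T0_6 X hb ⟨by clear * - b7 h12 h14; omega, by clear * - h17; omega⟩
        exact T0_2 X hb ⟨by clear * - b31 b35 b39 h11 h12 h14; omega, by clear * - b31 b35 b39 h11; omega, by clear * - h16; omega⟩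
      exact T0_12 X hb (by clear * - h15; omega)
    exact T0_16 X hb ⟨by clear * - h14; omega, by clear * - h12; omega⟩
  exact T0_10 X hb ⟨by clear * - h1; omega, by clear * - h11; omega⟩


end Pool.Agent.MP_a38735_al.WL.E22f
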