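import Pool.Agent.MP_a38735_al.AQ

set_option autoImplicit false
set_option linter.unusedVariables false
set_option linter.unusedSimpArgs false

namespace Pool.Agent.MP_a38735_al.WL.E22g

variable {G : Type*} [Group G]

structure C0 (W : ℤ → G) (N Q i a b l m c d L U V : ℤ) : Prop where
  al : AL W (2*N) Q
  a1 : Par W (0) (i + 2*a) (2*b)
  a2 : Par W (Q - 2*b) (i + 2*a) (2*b)
  s1 : Ant W (0) (i) (2*i + 2*a)
  s2 : Ant W (i + 2*a + 1) (Q) (2*i + 2*a)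
  bb : Par W (i + 1) (i + l + 1) (2*a + 2*b)
  c1 : Par W (i + l + 2*c + 2) (Q) (2*a + 2*b - 2*c)
  c2 : Par W (i + 2*a + 2*b + l + 2) (2*N) (-2*a - 2*b + 2*c)
  S2 : Ant W (i - 2*m + 2*c + 1) (i + l + 2*c + 1) (2*i + 2*l + 2*c + 2)
  d1 : Par W (i + 2*l + 2*m + 3) (2*N) (-2*l - 2*m - 2)
  d2 : Par W (i + 1) (Q) (2*l + 2*m + 2)
  d3 : Par W (0) (i) (2*N - 2*m + 2*c)
  r1 : Par W (i + 2*a + 2*b + l + 1) (i + 2*a + 2*b + l + 2*V + 1) (-2*a - 2*b + 2*U)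
  r2 : Par W (i + 2*a + 2*b + l + 2*V + 1) (i + 2*a + 2*b + 2*l + 2*m + 3) (-2*a - 2*b - 2*V)
  r3 : Par W (i + 1) (i - l - 2*m + 2*U + 2*V - 1) (2*l + 2*m - 2*V + 2)
  n1 : Nd W (i + 2*a) (i) (i + 2*a + 2*b)
  n2 : Nd W (i + l + 1) (i + l + 2*c + 1) (i + 2*a + 2*b + l + 1)
  n3 : Nd W (2*N + i - 2*m + 2*c) (i + 2*l + 2*m + 2) (i)
  lam : L2 W (2*N) L (i + 2*a) (i) (i + 2*a + 2*b) (2*N + i - 2*m + 2*c) (i + 2*l + 2*m + 2) (i)

structure C (W : ℤ → G) (N Q i a b l m c d L U V : ℤ) : Prop where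
  al : AL W (2*N) Q
  a1 : Par W (0) (i + 2*a) (2*b)
  a2 : Par W (Q - 2*b) (i + 2*a) (2*b)
  s1 : Ant W (0) (i) (2*i + 2*a)
  s2 : Ant W (i + 2*a + 1) (Q) (2*i + 2*a)
  bb : Par W (i + 1) (i + l + 1) (2*a + 2*b)
  c1 : Par W (i + l + 2*c + 2) (Q) (2*a + 2*b - 2*c)
  c2 : Par W (i + 2*a + 2*b + l + 2) (2*N) (-2*a - 2*b + 2*c)
  S2 : Ant W (i - 2*m + 2*c + 1) (i + l + 2*c + 1) (2*i + 2*l + 2*c + 2)
  d1 : Par W (i + 2*l + 2*m + 3) (2*N) (-2*l - 2*m - 2)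
  d2 : Par W (i + 1) (Q) (2*l + 2*m + 2)
  d3 : Par W (0) (i) (2*N - 2*m + 2*c)
  r1 : Par W (i + 2*a + 2*b + l + 1) (i + 2*a + 2*b + l + 2*V + 1) (-2*a - 2*b + 2*U)
  r2 : Par W (i + 2*a + 2*b + l + 2*V + 1) (i + 2*a + 2*b + 2*l + 2*m + 3) (-2*a - 2*b - 2*V)
  r3 : Par W (i + 1) (i - l - 2*m + 2*U + 2*V - 1) (2*l + 2*m - 2*V + 2)
  x1 : Ant W (i + l + 2*c + 2) (i + 2*l + 2*m + 2*c - 2*U + 2) (2*i + 2*l + 4*c - 2*U + 2)
  x2 : Par W (i + 2*l + 2*m + 2*c - 2*U + 3) (i + l + 2*c + 2*V + 1) (-2*l - 2*m - 2*c + 2*U - 2)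
  x3 : Ant W (i + l + 2*c + 2*V + 2) (i + 2*l + 2*m + 2*c + 3) (2*i + 2*l + 4*c + 2*V + 2)
  x4 : Ant W (i + 1) (i - l - 2*m + 2*U + 2*V - 1) (2*i - 2*m + 2*c + 2*V)
  n1 : Nd W (i + 2*a) (i) (i + 2*a + 2*b)
  n2 : Nd W (i + l + 1) (i + l + 2*c + 1) (i + 2*a + 2*b + l + 1)
  n3 : Nd W (2*N + i - 2*m + 2*c) (i + 2*l + 2*m + 2) (i)
  lam : L2 W (2*N) L (i + 2*a) (i) (i + 2*a + 2*b) (2*N + i - 2*m + 2*c) (i + 2*l + 2*m + 2) (i)


/-- the linear side conditions -/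
structure B (N Q i a b l m c d L U V : ℤ) : Prop where
  b1 : 0 ≤ i
  b2 : 0 ≤ a
  b3 : i + 2*a + 1 ≤ Q
  b4 : Q ≤ i + 2*a + 2*b
  b5 : i + 2*a + 2*b + 1 ≤ 2*N
  b6 : 0 ≤ i + l + 2*c + 1
  b7 : i + l + 2*c + 2 ≤ Q
  b8 : Q ≤ i + l + 1
  b9 : i + 2*a + 2*b + l + 2 ≤ 2*N
  b10 : 0 ≤ d
  b11 : d ≤ 0
  b12 : Q + 2*m ≤ 2*N + i + 2*c
  b13 : i + 2*c + 1 ≤ 2*m
  b14 : Q ≤ i + 2*l + 2*m + 2
  b15 : i + 2*l + 2*m + 3 ≤ 2*N
  b16 : i + 1 ≤ Q
  b17 : i + 2*a + L + 3 ≤ 2*N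
  b18 : i + 2*a + 2*b + L + 3 ≤ 2*N + Q
  b19 : l + L + 3 ≤ 2*N
  b20 : 2*a + 2*b + L + 2 ≤ 2*N
  b21 : i + L + 3 ≤ 2*N
  b22 : L ≤ i + 2*l + 2*m
  b23 : Q + L + 2 ≤ 2*N + i
  b24 : L ≤ 2*l + 2*m
  b25 : 0 ≤ L
  b26 : i + 2*a ≤ L
  b27 : i + 2*a + 2*b ≤ Q + L
  b28 : l ≤ L
  b29 : Q ≤ i + l + 2*c + L + 2
  b30 : 2*N ≤ i + 2*a + 2*b + l + L + 2
  b31 : 2*N ≤ i + 2*l + 2*m + L + 3
  b32 : Q ≤ i + L + 1
  b33 : i ≤ L
  b34 : i + 3*l + 4*m + 4 ≤ 2*N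
  b35 : i + 2*a + 2*b ≤ Q + l + 2*m
  b36 : i + 2*a + 2*b + 2*l + 2*m + 3 ≤ 2*N
  b37 : i + 2*a ≤ l + 2*m
  b38 : 2*a ≤ l + 2*c
  b39 : 1 ≤ U
  b40 : 1 ≤ V
  b41 : l + 2*m + 2 ≤ 2*U + 2*V
  b42 : 2*U ≤ l + 2*m + 1
  b43 : 2*V ≤ l + 2*m + 1
  b44 : U + V ≤ l + m + 1
  b45 : b + l + m + 2 ≤ N
  b46 : 2*a + L ≤ 2*l + 2*m

variable {W : ℤ → G} {N Q i a b l m c d L U V Y : ℤ}

theorem T0_0 (X : C W N Q i a b l m c d L U V) (hb : B N Q i a b l m c d L U V)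
    (h : i + a + b + l + 2 ≤ N ∧ N + 2*c ≤ a + b + l + 2*m) :
    False := by
  have b6 := hb.b6
  have b38 := hb.b38
  have b45 := hb.b45
  obtain ⟨g1, g2⟩ := h
  have k1 : a + b + 1 ≤ N := by clear * - b38 b45 g2; omega
  have k2 : a + b + 1 ≤ N + 2*c := by clear * - b6 g1; omega
  clear * - X g1 g2 k1 k2
  exact X.al.ninv (N + i + a + b + l + 1) (fin X.al.per 1 _ (ar X.S2 X.al.per 0 (-N + i + a + b + l + 1) (pf X.c2 X.al.per 0 (N + i - a - b + l + 2*c + 1) (rfl : W (N + i + a + b + l + 1) = W (N + i + a + b + l + 1)) (by omega)) (by omega)) (by omega))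

theorem T0_2 (X : C W N Q i a b l m c d L U V) (hb : B N Q i a b l m c d L U V)
    (h : b ≤ i + a ∧ a + 1 ≤ b) :
    False := by
  have b4 := hb.b4
  have b16 := hb.b16
  obtain ⟨g1, g2⟩ := h
  have k1 : 1 ≤ a + b := by clear * - b4 b16; omega
  clear * - X g1 g2 k1
  exact X.al.ninv (i + a - b) (fin X.al.per 0 _ (ar X.s1 X.al.per 0 (i + a - b) (pf X.a1 X.al.per 0 (i + a + b) (rfl : W (i + a - b) = W (i + a - b)) (by omega)) (by omega)) (by omega))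

theorem T0_3 (X : C W N Q i a b l m c d L U V) (hb : B N Q i a b l m c d L U V)
    (h : N + i ≤ Q + b + l + m ∧ i + 2*a + b + l + m + 2 ≤ N) :
    False := by
  have b1 := hb.b1
  have b4 := hb.b4
  have b24 := hb.b24
  have b30 := hb.b30
  have b45 := hb.b45
  obtain ⟨g1, g2⟩ := h
  have k1 : 2*a + b + l + m + 2 ≤ N := by clear * - b1 g2; omega
  have k2 : l + m + 2 ≤ N + 2*a + b := by clear * - b4 b45 g1; omega
  have k3 : N ≤ b + 2*l + m + 1 := by clear * - b24 b30 g2; omega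
  clear * - X g1 g2 k1 k2 b45 k3
  exact X.al.ninv (N + i - b - l - m - 1) (fin X.al.per 0 _ (pr X.bb X.al.per 0 (N + i - b - l - m - 1) (pf X.d1 X.al.per (-1) (N + i + 2*a + b - l - m - 1) (af X.s2 X.al.per 0 (-N + i + 2*a + b + l + m + 1) (rfl : W (N + i - b - l - m - 1) = W (N + i - b - l - m - 1)) (by omega)) (by omega)) (by omega)) (by omega))

theorem T0_11 (X : C W N Q i a b l m c d L U V) (hb : B N Q i a b l m c d L U V)
    (h : l + m + c + 1 ≤ a + b ∧ a + b ≤ l + m + c + 1) :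
    False := by
  have b2 := hb.b2
  have b37 := hb.b37
  have b38 := hb.b38
  have b45 := hb.b45
  obtain ⟨g1, g2⟩ := h
  have k1 : 0 ≤ l + 2*c := by clear * - b2 b38; omega
  have k2 : i + 3*l + 2*m + 2*c + 4 ≤ 2*N := by clear * - b37 b45 g1; omega
  clear * - X g1 g2 k1 k2
  exact X.n2.xz (fin X.al.per 0 _ (pr X.d1 X.al.per 0 (i + 3*l + 2*m + 2*c + 3) (rfl : W (i + l + 2*c + 1) = W (i + l + 2*c + 1)) (by omega)) (by omega)).symm

theorem T0_12 (X : C W N Q i a b l m c d L U V) (hb : B N Q i a b l m c d L U V)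
    (h : i + 2*l + 2*m + 2*c + 3 ≤ Q + 2*a + 2*b ∧ a + b ≤ l + m + c) :
    False := by
  have b4 := hb.b4
  have b7 := hb.b7
  have b23 := hb.b23
  have b32 := hb.b32
  have b36 := hb.b36
  obtain ⟨g1, g2⟩ := h
  have k1 : Q + 2*l + 2*m + 2 ≤ 2*N := by clear * - b4 b36; omega
  have k2 : l + m + c + 2 ≤ N + a + b := by clear * - b23 b32 g1 g2; omega
  clear * - X g1 g2 k1 b7 k2
  exact X.al.ubQ (-2*a - 2*b + 2*l + 2*m + 2*c + 2) (by omega) (by omega) fun t h1 h2 => (fin X.al.per 0 _ (pf X.c2 X.al.per 0 (-2*a - 2*b + 2*l + 2*m + 2*c + t + 2) (pr X.d1 X.al.per 0 (2*l + 2*m + t + 2) (rfl : W (t) = W (t)) (by omega)) (by omega)) (by omega))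

theorem T0_14 (X : C W N Q i a b l m c d L U V) (hb : B N Q i a b l m c d L U V)
    (h : l + m + c + 2 ≤ a + b ∧ Q + 2*a + 2*b ≤ 2*N + 2*c) :
    False := by
  have b16 := hb.b16
  have b35 := hb.b35
  have b38 := hb.b38
  have b41 := hb.b41
  have b42 := hb.b42
  have b43 := hb.b43
  have b44 := hb.b44
  have b45 := hb.b45
  obtain ⟨g1, g2⟩ := h
  have k1 : a + b ≤ N + l + m + c := by clear * - b38 b41 b42 b43 b44 b45; omega
  clear * - X g1 g2 b35 b16 k1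
  exact X.al.ubQ (2*a + 2*b - 2*l - 2*m - 2*c - 2) (by omega) (by omega) fun t h1 h2 => (fin X.al.per 0 _ (pf X.d1 X.al.per 0 (2*a + 2*b - 2*l - 2*m - 2*c + t - 2) (pf X.c1 X.al.per 0 (2*a + 2*b - 2*c + t) (rfl : W (t) = W (t)) (by omega)) (by omega)) (by omega))

theorem T0_15 (X : C W N Q i a b l m c d L U V) (hb : B N Q i a b l m c d L U V)
    (h : N + i + c + 1 ≤ Q + b) :
    False := by
  have b1 := hb.b1
  have b13 := hb.b13
  have b28 := hb.b28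
  have b38 := hb.b38
  have b45 := hb.b45
  have b46 := hb.b46
  have g1 := h
  have k1 : 2*a + b + 1 ≤ N + c := by clear * - b28 b38 b45 b46; omega
  have k2 : b + l + c + 2 ≤ N := by clear * - b1 b13 b45; omega
  clear * - X g1 k1 k2
  exact X.al.ninv (N + i - b + c) (fin X.al.per 0 _ (pr X.c1 X.al.per (-1) (N + i - b + c) (af X.s2 X.al.per 0 (-N + i + 2*a + b - c) (rfl : W (N + i - b + c) = W (N + i - b + c)) (by omega)) (by omega)) (by omega))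

theorem T0_16 (X : C W N Q i a b l m c d L U V) (hb : B N Q i a b l m c d L U V)
    (h : i + 4*a + 4*b ≤ Q + 2*l + 2*m + 2*c + 1 ∧ Q + 4*a + 4*b ≤ 2*N + 2*c ∧ l + m + c + 2 ≤ 2*a + 2*b) :
    False := by
  have b8 := hb.b8
  have b32 := hb.b32
  have b35 := hb.b35
  have b38 := hb.b38
  have b41 := hb.b41
  have b42 := hb.b42
  have b43 := hb.b43
  have b44 := hb.b44
  have b45 := hb.b45
  have b46 := hb.b46
  obtain ⟨g1, g2, g3⟩ := h
  have k1 : 2*a + 2*b ≤ N + l + m + c := by clear * - b32 b38 b41 b42 b43 b44 b45 b46 g1; omega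
  clear * - X g1 g2 g3 b8 b35 k1
  exact X.al.ubQ (4*a + 4*b - 2*l - 2*m - 2*c - 2) (by omega) (by omega) fun t h1 h2 => (fin X.al.per 0 _ (pf X.d1 X.al.per 0 (4*a + 4*b - 2*l - 2*m - 2*c + t - 2) (pr X.c2 X.al.per 0 (4*a + 4*b - 2*c + t) (pf X.bb X.al.per 0 (2*a + 2*b + t) (rfl : W (t) = W (t)) (by omega)) (by omega)) (by omega)) (by omega))

theorem T0_23 (X : C W N Q i a b l m c d L U V) (hb : B N Q i a b l m c d L U V)
    (h : l + 2*m + 2 ≤ 2*a + 2*b + 2*V ∧ a + b + 1 ≤ U) :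
    False := by
  have b36 := hb.b36
  have b43 := hb.b43
  obtain ⟨g1, g2⟩ := h
  have k1 : i + 2*a + 2*b + l + 2*V + 2 ≤ 2*N := by clear * - b36 b43; omega
  clear * - X g1 g2 b43 k1
  exact X.n2.yz (fin X.al.per 0 _ (pf X.r3 X.al.per 0 (i + 2*a + 2*b + l + 1) (pf X.d1 X.al.per 0 (i + 2*a + 2*b - l - 2*m + 2*V - 1) (pr X.r2 X.al.per 0 (i + 2*a + 2*b + l + 2*V + 1) (rfl : W (i + l + 1) = W (i + l + 1)) (by omega)) (by omega)) (by omega)) (by omega)).symm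

theorem T0_24 (X : C W N Q i a b l m c d L U V) (hb : B N Q i a b l m c d L U V)
    (h : m + 1 ≤ c + V ∧ l + m + c + 2 ≤ 2*U + V) :
    False := by
  obtain ⟨g1, g2⟩ := h
  clear * - X g1 g2
  exact X.al.ninv (i - m + c + V) (fin X.al.per 0 _ (af X.x4 X.al.per 0 (i - m + c + V) (rfl : W (i - m + c + V) = W (i - m + c + V)) (by omega)) (by omega))

theorem T0_26 (X : C W N Q i a b l m c d L U V) (hb : B N Q i a b l m c d L U V)
    (h : a + b ≤ l + 2*c) :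
    False := by
  have b1 := hb.b1
  have b4 := hb.b4
  have b13 := hb.b13
  have b16 := hb.b16
  have b19 := hb.b19
  have b22 := hb.b22
  have b24 := hb.b24
  have b30 := hb.b30
  have b31 := hb.b31
  have b34 := hb.b34
  have b41 := hb.b41
  have b42 := hb.b42
  have b43 := hb.b43
  have b45 := hb.b45
  have b46 := hb.b46
  have g1 := h
  have k1 : a + b ≤ l + 2*m := by clear * - b1 b13 g1; omega
  have k2 : 2*c ≤ a + b + l + 2*m := by clear * - b13 b22 b30 b34 b41 b42 b43 b45 b46; omega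
  have k3 : 1 ≤ a + b := by clear * - b4 b16; omega
  have k4 : 2*c + 1 ≤ 3*a + 3*b := by clear * - b13 b19 b22 b24 b30 b34; omega
  have k5 : 1 ≤ l := by clear * - b24 b31 b34; omega
  clear * - X g1 k1 k2 k3 k4 k5
  obtain ⟨K0, hL⟩ : ∃ K0 : ℤ, -2*l - 4*m + 2*c ≤ 2*K0 ∧ -4*a - 4*b + 2*c + 2 ≤ 2*K0 ∧ -2*l - 2*c ≤ 2*K0 ∧ 2*K0 + 2*(a + b) - 2 ≤ 2*c - 2 ∧ 2*K0 + 2*(a + b) - 2 ≤ 2*l + 2*c ∧ 2*K0 + 2*(a + b) - 2 ≤ 4*a + 4*b - 2*c - 2 := ⟨((max (-2*l - 2*c) (max (-4*a - 4*b + 2*c + 2) (-2*l - 4*m + 2*c))) + 1) / 2, by omega⟩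
  obtain ⟨R, hR1, hR2, hR⟩ := pw (A := i + 1) (B := i + 2*a + 2*b + l + 1) (γ := a + b) (by omega) (fun t h1 h2 => (fin X.al.per 0 _ (pf X.bb X.al.per 0 (2*a + 2*b + t) (rfl : W (t) = W (t)) (by omega)) (by omega))) K0
  exact X.al.ninv (i + l + c + R + 1) (fin X.al.per 0 _ (pp hR X.al.per 0 (i + l + c + R + 1) (af X.S2 X.al.per 0 (i + l + c - R + 1) (rfl : W (i + l + c + R + 1) = W (i + l + c + R + 1)) (by omega)) (by omega)) (by omega))

theorem T0_31 (X : C W N Q i a b l m c d L U V) (hb : B N Q i a b l m c d L U V)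
    (h : a + b ≤ l + 2*c + V ∧ V + 1 ≤ a + b ∧ a + b + V ≤ l + 2*m + 1) :
    False := by
  have b7 := hb.b7
  have b8 := hb.b8
  obtain ⟨g1, g2, g3⟩ := h
  have k1 : 2*c + V + 1 ≤ a + b := by clear * - b7 b8 g2; omega
  clear * - X g1 g2 g3 k1
  exact X.al.ninv (i - a - b + l + 2*c + V + 1) (fin X.al.per 0 _ (af X.x3 X.al.per 0 (i - a - b + l + 2*c + V + 1) (pf X.bb X.al.per 0 (i + a + b + l + 2*c + V + 1) (rfl : W (i - a - b + l + 2*c + V + 1) = W (i - a - b + l + 2*c + V + 1)) (by omega)) (by omega)) (by omega))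

theorem T0_34 (X : C W N Q i a b l m c d L U V) (hb : B N Q i a b l m c d L U V)
    (h : a + 2*b ≤ i + l + 2*c + V + 1 ∧ l + 2*c + V + 2 ≤ 3*a + 2*b ∧ 2*c + V + 1 ≤ a ∧ a + 2*b + V ≤ l + 2*m + 1) :
    False := by
  have b2 := hb.b2
  have b38 := hb.b38
  have b41 := hb.b41
  have b42 := hb.b42
  obtain ⟨g1, g2, g3, g4⟩ := h
  have k1 : a ≤ l + 2*c + V := by clear * - b2 b38 b41 b42; omega
  have k2 : V + 1 ≤ a + 2*b := by clear * - b38 g2; omega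
  clear * - X g1 g2 g3 g4 k1 k2
  exact X.al.ninv (i - a - 2*b + l + 2*c + V + 1) (fin X.al.per 0 _ (af X.x3 X.al.per 0 (i - a - 2*b + l + 2*c + V + 1) (pf X.bb X.al.per 0 (i + a + 2*b + l + 2*c + V + 1) (pf X.a1 X.al.per 0 (i - a + l + 2*c + V + 1) (rfl : W (i - a - 2*b + l + 2*c + V + 1) = W (i - a - 2*b + l + 2*c + V + 1)) (by omega)) (by omega)) (by omega)) (by omega))

theorem T0_35 (X : C W N Q i a b l m c d L U V) (hb : B N Q i a b l m c d L U V)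
    (h : l + 4*c + 2 ≤ 2*a + 2*m ∧ l + 2*c + 1 ≤ 2*a + b ∧ 2*a + b ≤ l + 2*c + 1) :
    False := by
  have b4 := hb.b4
  have b7 := hb.b7
  have b16 := hb.b16
  have b38 := hb.b38
  obtain ⟨g1, g2, g3⟩ := h
  have k1 : a ≤ l + 2*c := by clear * - b4 b16 g3; omega
  clear * - X g1 g2 g3 b38 b7 k1
  exact X.n2.xz (fin X.al.per 0 _ (af' X.S2 X.al.per 0 (i - 2*a + 3*l + 4*c + 3) (af X.s2 X.al.per 0 (i + 2*a - l - 2*c - 1) (rfl : W (i + l + 2*c + 1) = W (i + l + 2*c + 1)) (by omega)) (by omega)) (by omega)).symm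

theorem T0_37 (X : C W N Q i a b l m c d L U V) (hb : B N Q i a b l m c d L U V)
    (h : i + a + b + 2*c + 1 ≤ 2*m ∧ 2*N + 6*c + 1 ≤ 5*a + 5*b + 2*U ∧ 2*N + 4*c ≤ 3*a + 3*b + l + 2*m ∧ a + b + 2*U ≤ l + 2*m) :
    False := by
  have b2 := hb.b2
  have b4 := hb.b4
  have b16 := hb.b16
  have b24 := hb.b24
  have b31 := hb.b31
  have b34 := hb.b34
  have b36 := hb.b36
  have b38 := hb.b38
  have b41 := hb.b41
  have b43 := hb.b43
  have b45 := hb.b45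
  obtain ⟨g1, g2, g3, g4⟩ := h
  have k1 : i + 3*a + 3*b + l + 2 ≤ 2*N := by clear * - b38 b45 g1; omega
  have k2 : i + 3*a + 3*b + 1 ≤ 2*N + 2*c := by clear * - b2 b38 b45 g1; omega
  have k3 : i + l + 4*c + 2 ≤ a + b + 2*U := by clear * - b36 b41 b43 g3; omega
  have k4 : 3*a + 3*b + 2*U ≤ 2*N + 2*l + 6*c + 1 := by clear * - b2 b38 b45 g4; omega
  have k5 : a + b + 2*U ≤ 2*l + 2*m + 2*c + 1 := by clear * - b2 b38 g4; omega
  have k6 : 3*a + 3*b + 2*U + 1 ≤ 2*N + 2*c := by clear * - b38 b45 g4; omega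
  have k7 : 1 ≤ l := by clear * - b24 b31 b34; omega
  have k8 : 1 ≤ a + b := by clear * - b4 b16; omega
  clear * - X g1 g2 g3 g4 k1 k2 k3 k4 k5 k6 k7 k8
  obtain ⟨K0, hL⟩ : ∃ K0 : ℤ, -2*N + 2*i + 2*a + 2*b + 2*l + 2*c - 2*U + 4 ≤ 2*K0 ∧ 2*N - 6*a - 6*b + 6*c - 2*U + 2 ≤ 2*K0 ∧ -2*N + 2*a + 2*b - 2*l - 6*c + 2*U ≤ 2*K0 ∧ -2*N + 2*a + 2*b - 2*c + 2*U + 2 ≤ 2*K0 ∧ 2*K0 + 2*(a + b) - 2 ≤ 2*N - 2*a - 2*b + 2*c - 2*U - 2 ∧ 2*K0 + 2*(a + b) - 2 ≤ 2*N - 2*a - 2*b + 2*l + 6*c - 2*U ∧ 2*K0 + 2*(a + b) - 2 ≤ -2*N + 6*a + 6*b - 6*c + 2*U - 2 ∧ 2*K0 + 2*(a + b) - 2 ≤ -2*N + 2*a + 2*b + 2*l + 4*m - 2*c - 2*U := ⟨((max (-2*N + 2*a + 2*b - 2*c + 2*U + 2) (max (-2*N + 2*a + 2*b - 2*l - 6*c + 2*U) (max (2*N - 6*a - 6*b + 6*c - 2*U + 2) (-2*N + 2*i + 2*a + 2*b + 2*l + 2*c - 2*U + 4)))) + 1) / 2, by omega⟩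
  obtain ⟨R, hR1, hR2, hR⟩ := pw (A := i + 1) (B := i + 2*a + 2*b + l + 1) (γ := a + b) (by omega) (fun t h1 h2 => (fin X.al.per 0 _ (pf X.bb X.al.per 0 (2*a + 2*b + t) (rfl : W (t) = W (t)) (by omega)) (by omega))) K0
  exact X.al.ninv (N + i + a + b + l + c - U - R + 1) (fin X.al.per 1 _ (af X.x1 X.al.per 0 (-N + i + a + b + l + c - U - R + 1) (pp hR X.al.per 0 (N + i - a - b + l + 3*c - U + R + 1) (pf X.c2 X.al.per 0 (N + i - a - b + l + 3*c - U - R + 1) (rfl : W (N + i + a + b + l + c - U - R + 1) = W (N + i + a + b + l + c - U - R + 1)) (by omega)) (by omega)) (by omega)) (by omega))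

theorem T0_38 (X : C W N Q i a b l m c d L U V) (hb : B N Q i a b l m c d L U V)
    (h : c + V + 1 ≤ 0 ∧ 2*a + 2*b + 2*V ≤ l + 2*m + 1) :
    False := by
  have b2 := hb.b2
  have b4 := hb.b4
  have b16 := hb.b16
  have b38 := hb.b38
  have b41 := hb.b41
  have b42 := hb.b42
  obtain ⟨g1, g2⟩ := h
  have k1 : 0 ≤ l + 2*c + 2*V + 1 := by clear * - b2 b38 b41 b42; omega
  have k2 : 2*a + 2*b ≤ l + 2*m := by clear * - b41 b42 g2; omega
  have k3 : 0 ≤ a + b := by clear * - b4 b16; omega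
  clear * - X g1 g2 k1 k2 k3
  obtain ⟨φ, H, T, ht, h0⟩ := exH X.al (i + l + 1)
  obtain ⟨Dbb, hbb⟩ := ht.par X.bb (by omega)
  obtain ⟨DS2, hS2⟩ := ht.ant X.S2 (by omega)
  obtain ⟨Dx3, hx3⟩ := ht.ant X.x3 (by omega)
  have e1 := hbb 0 0 (i + l + 1) (i + 2*a + 2*b + l + 1) (by omega)
  have e2 := hS2 0 0 (i + l + 2*c + 1) (i + l + 2) (by omega)
  have e3 := hbb 0 0 (i + l + 2*c + 2*V + 2) (i + 2*a + 2*b + l + 2*c + 2*V + 2) (by omega)
  have e4 := hx3 0 0 (i + l + 2*c + 2*V + 2) (i + l + 2*c + 1) (by omega)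
  have e5 := hS2 1 0 (2*N + i - 2*a - 2*b + l + 2*c + 1) (i + 2*a + 2*b + l + 2) (by omega)
  have e6 := hx3 0 1 (i + 2*a + 2*b + l + 2*c + 2*V + 2) (2*N + i - 2*a - 2*b + l + 2*c + 1) (by omega)
  have e7 := ht.lt (i + l + 1) 0 0 (i + l + 1) (i + l + 2) (by omega)
  have e8 := ht.lt (i + 2*a + 2*b + l + 1) 0 0 (i + 2*a + 2*b + l + 1) (i + 2*a + 2*b + l + 2) (by omega)
  have t1 := ht.tri X.n2
  omega

theorem T0_45 (X : C W N Q i a b l m c d L U V) (hb : B N Q i a b l m c d L U V)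
    (h : Q ≤ i + a + b ∧ b + 2*c + 1 ≤ a + 2*m) :
    False := by
  have b2 := hb.b2
  have b7 := hb.b7
  have b16 := hb.b16
  have b24 := hb.b24
  have b31 := hb.b31
  have b34 := hb.b34
  have b38 := hb.b38
  obtain ⟨g1, g2⟩ := h
  have k1 : l + 2*c + 2 ≤ 3*a + b := by clear * - b2 b7 g1; omega
  have k2 : Q + a ≤ i + b + l + 2*c + 1 := by clear * - b38 g1; omega
  have k3 : a ≤ b + l + 2*c := by clear * - b16 b38 g1; omega
  have k4 : a + b ≤ l + 2*m := by clear * - b38 g2; omega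
  have k5 : 1 ≤ l := by clear * - b24 b31 b34; omega
  clear * - X g1 g2 k1 k2 k3 k4 k5
  obtain ⟨K0, hL⟩ : ∃ K0 : ℤ, -4*a - 2*b + 2*l + 2*c + 4 ≤ 2*K0 ∧ -4*a - 2*b + 2*c + 2 ≤ 2*K0 ∧ -2*b - 2*l - 2*c ≤ 2*K0 ∧ -2*b - 2*c + 2 ≤ 2*K0 ∧ 2*K0 + 2*(a + b) - 2 ≤ -2*Q + 2*i + 2*b + 2*l + 2*c + 2 ∧ 2*K0 + 2*(a + b) - 2 ≤ 2*b + 2*l + 2*c ∧ 2*K0 + 2*(a + b) - 2 ≤ 4*a + 2*b - 2*c - 2 ∧ 2*K0 + 2*(a + b) - 2 ≤ -2*b + 2*l + 4*m - 2*c := ⟨((max (-2*b - 2*c + 2) (max (-2*b - 2*l - 2*c) (max (-4*a - 2*b + 2*c + 2) (-4*a - 2*b + 2*l + 2*c + 4)))) + 1) / 2, by omega⟩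
  obtain ⟨R, hR1, hR2, hR⟩ := pw (A := i + 1) (B := i + 2*a + 2*b + l + 1) (γ := a + b) (by omega) (fun t h1 h2 => (fin X.al.per 0 _ (pf X.bb X.al.per 0 (2*a + 2*b + t) (rfl : W (t) = W (t)) (by omega)) (by omega))) K0
  exact X.al.ninv (i - b + l + c - R + 1) (fin X.al.per 0 _ (ar X.S2 X.al.per 0 (i - b + l + c - R + 1) (pp hR X.al.per 0 (i + b + l + c + R + 1) (pf X.a2 X.al.per 0 (i + b + l + c - R + 1) (rfl : W (i - b + l + c - R + 1) = W (i - b + l + c - R + 1)) (by omega)) (by omega)) (by omega)) (by omega))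

theorem T0_53 (X : C W N Q i a b l m c d L U V) (hb : B N Q i a b l m c d L U V)
    (h : N + c ≤ i + a + b + l + m + 1 ∧ a + b + l + m + 2 ≤ N + c) :
    False := by
  have b2 := hb.b2
  have b13 := hb.b13
  have b38 := hb.b38
  have b41 := hb.b41
  have b44 := hb.b44
  obtain ⟨g1, g2⟩ := h
  have k1 : a + b + m + 1 ≤ N + c := by clear * - b41 b44 g2; omega
  have k2 : i + a + b + l + c + 2 ≤ N + m := by clear * - b13 g2; omega
  have k3 : N + 3*c ≤ a + b + l + 3*m := by clear * - b13 g1; omega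
  have k4 : a + b + m + 1 ≤ N + 3*c := by clear * - b2 b38 g2; omega
  clear * - X g1 g2 k1 k2 k3 k4
  exact X.al.ninv (N + i + a + b + l - m + c + 1) (fin X.al.per 0 _ (pf X.d3 X.al.per 0 (N + i + a + b + l - m + c + 1) (ar X.S2 X.al.per 0 (-N + i + a + b + l + m - c + 1) (pf X.c2 X.al.per 0 (N + i - a - b + l - m + 3*c + 1) (rfl : W (N + i + a + b + l - m + c + 1) = W (N + i + a + b + l - m + c + 1)) (by omega)) (by omega)) (by omega)) (by omega))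

theorem T0_54 (X : C W N Q i a b l m c d L U V) (hb : B N Q i a b l m c d L U V)
    (h : i + 2*l + m + c + 3 ≤ N) :
    False := by
  have b6 := hb.b6
  have b24 := hb.b24
  have b30 := hb.b30
  have b31 := hb.b31
  have b38 := hb.b38
  have b45 := hb.b45
  have g1 := h
  have k1 : N + c ≤ 2*l + 3*m + 1 := by clear * - b24 b31 g1; omega
  have k2 : l + m + 2 ≤ N + c := by clear * - b6 g1; omega
  have k3 : m + 1 ≤ N + c := by clear * - b24 b30 b38 b45 g1; omega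
  clear * - X g1 k1 k2 k3
  exact X.al.ninv (-N + i + 2*l + m + c + 2) (fin X.al.per (-1) _ (pr X.d1 X.al.per 0 (N + i + 2*l + m + c + 2) (af X.S2 X.al.per 0 (N + i - m + c) (rfl : W (-N + i + 2*l + m + c + 2) = W (-N + i + 2*l + m + c + 2)) (by omega)) (by omega)) (by omega))

theorem main (X : C W N Q i a b l m c d L U V) (hb : B N Q i a b l m c d L U V) : False := by
  have b1 := hb.b1
  have b2 := hb.b2
  have b7 := hb.b7
  have b34 := hb.b34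
  have b36 := hb.b36
  have b37 := hb.b37
  have b38 := hb.b38
  have b41 := hb.b41
  have b43 := hb.b43
  rcases lt_or_ge (N - i - a - b - l - 2) 0 with h1 | h1
  · rcases lt_or_ge (-a - b + l + m + c) 0 with h2 | h2
    · rcases lt_or_ge (-a - b + l + m + c + 1) 0 with h3 | h3
      · rcases lt_or_ge (2*N - Q - 2*a - 2*b + 2*c) 0 with h4 | h4
        · exact T0_15 X hb (by clear * - b2 b36 b37 b38 h4; omega)
        exact T0_14 X hb ⟨by clear * - h3; omega, by clear * - h4; omega⟩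
      exact T0_11 X hb ⟨by clear * - h2; omega, by clear * - h3; omega⟩
    rcases lt_or_ge (Q - i + 2*a + 2*b - 2*l - 2*m - 2*c - 3) 0 with h5 | h5
    · rcases lt_or_ge (i + a - b) 0 with h6 | h6
      · rcases lt_or_ge (-a - b + l + 2*c) 0 with h7 | h7
        · rcases lt_or_ge (-Q + i + a + b) 0 with h8 | h8
          · rcases lt_or_ge (-2*a - b + l + 2*c + 1) 0 with h9 | h9
            · rcases lt_or_ge (2*a + 2*b - l - m - c - 2) 0 with h10 | h10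
              · rcases lt_or_ge (-N + Q - i + b + l + m) 0 with h11 | h11
                · rcases lt_or_ge (-a - b + l + 2*m - 2*U) 0 with h12 | h12
                  · rcases lt_or_ge (2*a + 2*b - l - 2*m + 2*V - 2) 0 with h13 | h13
                    · exact T0_38 X hb ⟨by clear * - b34 h1 h5 h6 h8 h9 h13; omega, by clear * - h13; omega⟩
                    rcases lt_or_ge (-a - b + U - 1) 0 with h14 | h14
                    · rcases lt_or_ge (3*a + 2*b - l - 2*c - V - 2) 0 with h15 | h15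
                      · exact T0_24 X hb ⟨by clear * - h9 h10 h12 h14 h15; omega, by clear * - h5 h7 h8 h10 h12 h13; omega⟩
                      rcases lt_or_ge (i - a - 2*b + l + 2*c + V + 1) 0 with h16 | h16
                      · exact T0_31 X hb ⟨by clear * - h5 h8 h10 h12 h13 h14; omega, by clear * - b1 h10 h12 h14 h15 h16; omega, by clear * - b43 h7 h10 h13; omega⟩
                      exact T0_34 X hb ⟨by clear * - h16; omega, by clear * - h15; omega, by clear * - h1 h6 h8 h10 h11 h13 h15; omega, by clear * - h10 h15; omega⟩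
                    exact T0_23 X hb ⟨by clear * - h13; omega, by clear * - h14; omega⟩
                  exact T0_37 X hb ⟨by clear * - h6 h9 h10; omega, by clear * - b2 b41 b43 h1 h6 h8 h9 h10 h11 h12; omega, by clear * - b2 h1 h6 h9 h10; omega, by clear * - h12; omega⟩
                exact T0_3 X hb ⟨by clear * - h11; omega, by clear * - b34 h6 h7 h10; omega⟩
              exact T0_16 X hb ⟨by clear * - h5 h8; omega, by clear * - b36 h5; omega, by clear * - h10; omega⟩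
            exact T0_35 X hb ⟨by clear * - b2 h5 h7 h8; omega, by clear * - b2 h7; omega, by clear * - h9; omega⟩
          exact T0_45 X hb ⟨by clear * - h8; omega, by clear * - b2 b7 h5 h8; omega⟩
        exact T0_26 X hb (by clear * - h7; omega)
      rcases lt_or_ge (-a + b - 1) 0 with h17 | h17
      · exact T0_26 X hb (by clear * - b38 h17; omega)
      exact T0_2 X hb ⟨by clear * - h6; omega, by clear * - h17; omega⟩
    exact T0_12 X hb ⟨by clear * - h5; omega, by clear * - h2; omega⟩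
  rcases lt_or_ge (-N + a + b + l + 2*m - 2*c) 0 with h18 | h18
  · rcases lt_or_ge (-N + i + a + b + l + m - c + 1) 0 with h19 | h19
    · rcases lt_or_ge (-a - b + l + 2*c) 0 with h20 | h20
      · exact T0_54 X hb (by clear * - h19 h20; omega)
      exact T0_26 X hb (by clear * - h20; omega)
    exact T0_53 X hb ⟨by clear * - h19; omega, by clear * - h1 h18 h19; omega⟩
  exact T0_0 X hb ⟨by clear * - h1; omega, by clear * - h18; omega⟩

theorem Dx1 (X : C0 W N Q i a b l m c d L U V) (hb : B N Q i a b l m c d L U V) :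
    Ant W (i + l + 2*c + 2) (i + 2*l + 2*m + 2*c - 2*U + 2) (2*i + 2*l + 4*c - 2*U + 2) := by
  have b36 := hb.b36
  have b37 := hb.b37
  have b40 := hb.b40
  have b41 := hb.b41
  have b43 := hb.b43
  have b45 := hb.b45
  intro t h1 h2
  have hn : 2*U + 1 ≤ l + 2*m := by clear * - h1 h2; omega
  have k1 : 2*U + 1 ≤ l + 2*m := by clear * - hn; omega
  have k2 : i + 2*a + 2*b + l + 3 ≤ 2*N := by clear * - b37 b45; omega
  have k3 : i + 2*a + 2*b + 2*l + 2*m + 2 ≤ 2*N + 2*U := by clear * - b36 b41 b43; omega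
  have k4 : 2*U ≤ l + 2*m := by clear * - hn; omega
  have k5 : 1 ≤ V := by clear * - b40; omega
  have k6 : l + 2*m + 1 ≤ 2*U + 2*V := by clear * - b41; omega
  have k7 : 0 ≤ U := by clear * - b41 b43; omega
  have k8 : 1 ≤ l + 2*m := by clear * - b41 b43 hn; omega
  clear * - X h1 h2 k1 k2 k3 k4 k5 k6 k7 k8
  exact (fin X.al.per 0 _ (ar X.S2 X.al.per 0 (2*i + 2*l + 4*c - 2*U - t + 2) (pf X.r1 X.al.per 0 (-2*c + 2*U + t) (pr X.c2 X.al.per 0 (2*a + 2*b - 2*c + t) (rfl : W (t) = W (t)) (by omega)) (by omega)) (by omega)) (by omega))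

theorem Dx2 (X : C0 W N Q i a b l m c d L U V) (hb : B N Q i a b l m c d L U V) :
    Par W (i + 2*l + 2*m + 2*c - 2*U + 3) (i + l + 2*c + 2*V + 1) (-2*l - 2*m - 2*c + 2*U - 2) := by
  have b34 := hb.b34
  have b36 := hb.b36
  have b40 := hb.b40
  have b42 := hb.b42
  have b43 := hb.b43
  intro t h1 h2
  have hn : l + 2*m + 3 ≤ 2*U + 2*V := by clear * - h1 h2; omega
  have k1 : 2*U ≤ l + 2*m + 1 := by clear * - b42; omega
  have k2 : 1 ≤ V := by clear * - b40; omega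
  have k3 : i + 2*a + 2*b + 2*l + 2*m + 4 ≤ 2*N + 2*U := by clear * - b36 b43 hn; omega
  have k4 : i + 2*a + 2*b + l + 2*V + 1 ≤ 2*N := by clear * - b36 b43; omega
  have k5 : 2*U ≤ l + 2*m + 2 := by clear * - b42; omega
  have k6 : l + 2*m + 3 ≤ 2*U + 2*V := by clear * - hn; omega
  have k7 : i + 2*l + 2*m + 4 ≤ 2*N := by clear * - b34 b42 b43 hn; omega
  have k8 : i + l + 2*U + 2*V + 1 ≤ 2*N := by clear * - b34 b42 b43; omega
  clear * - X h1 h2 k1 k2 k3 k4 k5 k6 k7 k8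
  exact (fin X.al.per 0 _ (pf X.d1 X.al.per 0 (-2*l - 2*m - 2*c + 2*U + t - 2) (pf X.r1 X.al.per 0 (-2*c + 2*U + t) (pr X.c2 X.al.per 0 (2*a + 2*b - 2*c + t) (rfl : W (t) = W (t)) (by omega)) (by omega)) (by omega)) (by omega))

theorem Dx3 (X : C0 W N Q i a b l m c d L U V) (hb : B N Q i a b l m c d L U V) :
    Ant W (i + l + 2*c + 2*V + 2) (i + 2*l + 2*m + 2*c + 3) (2*i + 2*l + 4*c + 2*V + 2) := by
  have b36 := hb.b36
  have b40 := hb.b40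
  have b41 := hb.b41
  have b42 := hb.b42
  have b43 := hb.b43
  intro t h1 h2
  have hn : 2*V ≤ l + 2*m := by clear * - h1 h2; omega
  have k1 : 0 ≤ V := by clear * - b41 b42; omega
  have k2 : 0 ≤ l + 2*m := by clear * - b41 b42 hn; omega
  have k3 : i + 2*a + 2*b + l + 2*V + 3 ≤ 2*N := by clear * - b36 hn; omega
  have k4 : i + 2*a + 2*b + 2*l + 2*m + 3 ≤ 2*N := by clear * - b36; omega
  have k5 : 2*V ≤ l + 2*m + 1 := by clear * - b43; omega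
  have k6 : 2*V ≤ l + 2*m := by clear * - hn; omega
  have k7 : 1 ≤ l + 2*m := by clear * - b41 b42 hn; omega
  have k8 : 1 ≤ V := by clear * - b40; omega
  clear * - X h1 h2 k1 k2 k3 k4 k5 k6 k7 k8
  exact (fin X.al.per 0 _ (ar X.S2 X.al.per 0 (2*i + 2*l + 4*c + 2*V - t + 2) (pf X.r2 X.al.per 0 (-2*c - 2*V + t) (pr X.c2 X.al.per 0 (2*a + 2*b - 2*c + t) (rfl : W (t) = W (t)) (by omega)) (by omega)) (by omega)) (by omega))

theorem Dx4 (X : C0 W N Q i a b l m c d L U V) (hb : B N Q i a b l m c d L U V) :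
    Ant W (i + 1) (i - l - 2*m + 2*U + 2*V - 1) (2*i - 2*m + 2*c + 2*V) := by
  have b39 := hb.b39
  have b40 := hb.b40
  have b42 := hb.b42
  have b43 := hb.b43
  intro t h1 h2
  have hn : l + 2*m + 3 ≤ 2*U + 2*V := by clear * - h1 h2; omega
  have k1 : l + 2*m + 3 ≤ 2*U + 2*V := by clear * - hn; omega
  have k2 : 1 ≤ V := by clear * - b40; omega
  have k3 : 2*U ≤ l + 2*m + 1 := by clear * - b42; omega
  have k4 : 2*V ≤ l + 2*m + 1 := by clear * - b43; omega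
  have k5 : 1 ≤ U := by clear * - b39; omega
  clear * - X h1 h2 k1 k2 k3 k4 k5
  exact (fin X.al.per 0 _ (ar X.S2 X.al.per 0 (2*i - 2*m + 2*c + 2*V - t) (pf X.r3 X.al.per 0 (2*l + 2*m - 2*V + t + 2) (rfl : W (t) = W (t)) (by omega)) (by omega)) (by omega))

theorem main0 (X : C0 W N Q i a b l m c d L U V) (hb : B N Q i a b l m c d L U V) : False := by
  exact main ⟨X.al, X.a1, X.a2, X.s1, X.s2, X.bb, X.c1, X.c2, X.S2, X.d1, X.d2, X.d3, X.r1, X.r2, X.r3, Dx1 X hb, Dx2 X hb, Dx3 X hb, Dx4 X hb, X.n1, X.n2, X.n3, X.lam⟩ hb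


end Pool.Agent.MP_a38735_al.WL.E22g
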