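import Pool.Agent.MP_a38735_al.AQ

set_option autoImplicit false
set_option linter.unusedVariables false
set_option linter.unusedSimpArgs false

namespace Pool.Agent.MP_a38735_al.WL.E22h

variable {G : Type*} [Group G]

structure C0 (W : ℤ → G) (N Q i a b l m c d L U V : ℤ) : Prop where
  al : AL W (2*N) Q
  a1 : Par W (0) (i + 2*a) (2*b)
  a2 : Par W (Q - 2*b) (i + 2*a) (2*b)
  s1 : Ant W (0) (i) (2*i + 2*a)
  s2 : Ant W (i + 2*a + 1) (Q) (2*i + 2*a)
  bb : Par W (i + 1) (i + l + 1) (2*a + 2*b)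
  c1 : Par W (i + l + 2*c + 2) (Q) (2*a + 2*b - 2*c)
  c2 : Par W (i + 2*a + 2*b + l + 2) (2*N) (-2*a - 2*b + 2*c)
  S2 : Ant W (i - 2*m + 2*c + 1) (i + l + 2*c + 1) (2*i + 2*l + 2*c + 2)
  d1 : Par W (i + 2*l + 2*m + 3) (2*N) (-2*l - 2*m - 2)
  d2 : Par W (i + 1) (Q) (2*l + 2*m + 2)
  d3 : Par W (0) (i) (2*N - 2*m + 2*c)
  r1 : Par W (i + 2*a + 2*b - l - 2*m - 1) (i + 2*a + 2*b - l - 2*m + 2*V - 1) (-2*a - 2*b + 2*l + 2*m + 2*U + 2)
  r2 : Par W (i + 2*a + 2*b - l - 2*m + 2*V - 1) (i + 2*a + 2*b - l - 2*m + 2*U + 2*V - 1) (-2*a - 2*b + 2*l + 2*m - 2*V + 2)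
  n1 : Nd W (i + 2*a) (i) (i + 2*a + 2*b)
  n2 : Nd W (i + l + 1) (i + l + 2*c + 1) (i + 2*a + 2*b + l + 1)
  n3 : Nd W (2*N + i - 2*m + 2*c) (i + 2*l + 2*m + 2) (i)
  lam : L2 W (2*N) L (i + 2*a) (i) (i + 2*a + 2*b) (2*N + i - 2*m + 2*c) (i + 2*l + 2*m + 2) (i)

structure C (W : ℤ → G) (N Q i a b l m c d L U V : ℤ) : Prop where
  al : AL W (2*N) Q
  a1 : Par W (0) (i + 2*a) (2*b)
  a2 : Par W (Q - 2*b) (i + 2*a) (2*b)
  s1 : Ant W (0) (i) (2*i + 2*a)
  s2 : Ant W (i + 2*a + 1) (Q) (2*i + 2*a)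
  bb : Par W (i + 1) (i + l + 1) (2*a + 2*b)
  c1 : Par W (i + l + 2*c + 2) (Q) (2*a + 2*b - 2*c)
  c2 : Par W (i + 2*a + 2*b + l + 2) (2*N) (-2*a - 2*b + 2*c)
  S2 : Ant W (i - 2*m + 2*c + 1) (i + l + 2*c + 1) (2*i + 2*l + 2*c + 2)
  d1 : Par W (i + 2*l + 2*m + 3) (2*N) (-2*l - 2*m - 2)
  d2 : Par W (i + 1) (Q) (2*l + 2*m + 2)
  d3 : Par W (0) (i) (2*N - 2*m + 2*c)
  r1 : Par W (i + 2*a + 2*b - l - 2*m - 1) (i + 2*a + 2*b - l - 2*m + 2*V - 1) (-2*a - 2*b + 2*l + 2*m + 2*U + 2)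
  r2 : Par W (i + 2*a + 2*b - l - 2*m + 2*V - 1) (i + 2*a + 2*b - l - 2*m + 2*U + 2*V - 1) (-2*a - 2*b + 2*l + 2*m - 2*V + 2)
  x1 : Ant W (i + 2*a - l - 2*m - 1) (i + 2*a - 2*U) (2*i + 2*a - 2*m + 2*c - 2*U)
  x2 : Par W (i + 2*a - 2*U + 1) (i + 2*a - l - 2*m + 2*V - 1) (-2*a + 2*U)
  x3 : Ant W (i + 2*a - l - 2*m + 2*V) (i + 2*a) (2*i + 2*a - 2*m + 2*c + 2*V)
  x4 : Ant W (i + 1) (i - l - 2*m + 2*U + 2*V - 1) (2*i - 2*m + 2*c + 2*V)
  x5 : Par W (i + 2*a - l - 2*m) (i + 2*a) (-2*a + 2*l + 2*m + 2*c + 2)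
  x6 : Par W (i + 1) (2*N - 2*a - 2*b - 2*l - 2*m - 2) (2*l + 2*m + 2*c + 2)
  x7 : Par W (i + 2*a - l - 2*m - 1) (i + 2*a) (2*b)
  x8 : Par W (i + 2*a - l - 2*m - 1) (i + 2*a - l - 2*m) (2*b + 2*l + 2*m + 2)
  n1 : Nd W (i + 2*a) (i) (i + 2*a + 2*b)
  n2 : Nd W (i + l + 1) (i + l + 2*c + 1) (i + 2*a + 2*b + l + 1)
  n3 : Nd W (2*N + i - 2*m + 2*c) (i + 2*l + 2*m + 2) (i)
  lam : L2 W (2*N) L (i + 2*a) (i) (i + 2*a + 2*b) (2*N + i - 2*m + 2*c) (i + 2*l + 2*m + 2) (i)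


/-- the linear side conditions -/
structure B (N Q i a b l m c d L U V : ℤ) : Prop where
  b1 : 0 ≤ i
  b2 : 0 ≤ a
  b3 : i + 2*a + 1 ≤ Q
  b4 : Q ≤ i + 2*a + 2*b
  b5 : i + 2*a + 2*b + 1 ≤ 2*N
  b6 : 0 ≤ i + l + 2*c + 1
  b7 : i + l + 2*c + 2 ≤ Q
  b8 : Q ≤ i + l + 1
  b9 : i + 2*a + 2*b + l + 2 ≤ 2*N
  b10 : 0 ≤ d
  b11 : d ≤ 0
  b12 : Q + 2*m ≤ 2*N + i + 2*c
  b13 : i + 2*c + 1 ≤ 2*m
  b14 : Q ≤ i + 2*l + 2*m + 2
  b15 : i + 2*l + 2*m + 3 ≤ 2*N
  b16 : i + 1 ≤ Q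
  b17 : i + 2*a + L + 3 ≤ 2*N
  b18 : i + 2*a + 2*b + L + 3 ≤ 2*N + Q
  b19 : l + L + 3 ≤ 2*N
  b20 : 2*a + 2*b + L + 2 ≤ 2*N
  b21 : i + L + 3 ≤ 2*N
  b22 : L ≤ i + 2*l + 2*m
  b23 : Q + L + 2 ≤ 2*N + i
  b24 : L ≤ 2*l + 2*m
  b25 : 0 ≤ L
  b26 : i + 2*a ≤ L
  b27 : i + 2*a + 2*b ≤ Q + L
  b28 : l ≤ L
  b29 : Q ≤ i + l + 2*c + L + 2
  b30 : 2*N ≤ i + 2*a + 2*b + l + L + 2
  b31 : 2*N ≤ i + 2*l + 2*m + L + 3
  b32 : Q ≤ i + L + 1
  b33 : i ≤ L
  b34 : i + 3*l + 4*m + 4 ≤ 2*N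
  b35 : Q + l + 2*m + 1 ≤ i + 2*a + 2*b
  b36 : i + 2*a + 2*b + 2*l + 2*m + 3 ≤ 2*N
  b37 : l + 2*c + 1 ≤ 2*a
  b38 : 1 ≤ U
  b39 : 1 ≤ V
  b40 : l + 2*m + 2 ≤ 2*U + 2*V
  b41 : 2*U ≤ l + 2*m + 1
  b42 : 2*V ≤ l + 2*m + 1
  b43 : U + V ≤ l + m + 1
  b44 : b + l + m + 2 ≤ N
  b45 : 2*a + L ≤ 2*l + 2*m

variable {W : ℤ → G} {N Q i a b l m c d L U V Y : ℤ}

theorem T0_0 (X : C W N Q i a b l m c d L U V) (hb : B N Q i a b l m c d L U V)
    (h : b ≤ i + a) :
    False := by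
  have b3 := hb.b3
  have b16 := hb.b16
  have b28 := hb.b28
  have b35 := hb.b35
  have b40 := hb.b40
  have b41 := hb.b41
  have b42 := hb.b42
  have b45 := hb.b45
  have g1 := h
  have k1 : 1 ≤ a + b := by clear * - b16 b35 b40 b41 b42; omega
  have k2 : a + 1 ≤ b := by clear * - b3 b28 b35 b45; omega
  clear * - X g1 k1 k2
  exact X.al.ninv (i + a - b) (fin X.al.per 0 _ (ar X.s1 X.al.per 0 (i + a - b) (pf X.a1 X.al.per 0 (i + a + b) (rfl : W (i + a - b) = W (i + a - b)) (by omega)) (by omega)) (by omega))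

theorem T0_1 (X : C W N Q i a b l m c d L U V) (hb : B N Q i a b l m c d L U V)
    (h : a + m + 1 ≤ c + U + V) :
    False := by
  have b37 := hb.b37
  have g1 := h
  have k1 : l + m + c + 2 ≤ a + U + V := by clear * - b37 g1; omega
  clear * - X g1 k1
  exact X.al.ninv (i + a - m + c - U + V) (fin X.al.per 0 _ (af X.x4 X.al.per 0 (i + a - m + c - U + V) (pf X.x2 X.al.per 0 (i - a - m + c + U + V) (rfl : W (i + a - m + c - U + V) = W (i + a - m + c - U + V)) (by omega)) (by omega)) (by omega))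

theorem T0_2 (X : C W N Q i a b l m c d L U V) (hb : B N Q i a b l m c d L U V)
    (h : a + U ≤ l + m + c + 1 ∧ c + U + 1 ≤ a + m) :
    False := by
  obtain ⟨g1, g2⟩ := h
  clear * - X g1 g2
  exact X.al.ninv (i + a - m + c - U) (fin X.al.per 0 _ (af X.x1 X.al.per 0 (i + a - m + c - U) (rfl : W (i + a - m + c - U) = W (i + a - m + c - U)) (by omega)) (by omega))

theorem T0_3 (X : C W N Q i a b l m c d L U V) (hb : B N Q i a b l m c d L U V)
    (h : N + c + 1 ≤ a + b + 2*U + V ∧ i + a + b + l + c + V + 2 ≤ N) :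
    False := by
  have b6 := hb.b6
  have b34 := hb.b34
  have b41 := hb.b41
  obtain ⟨g1, g2⟩ := h
  have k1 : N + c ≤ a + b + l + 2*m + V := by clear * - b41 g1; omega
  have k2 : a + b + V + 1 ≤ N + c := by clear * - b6 g2; omega
  have k3 : l + 2*m + 2 ≤ N + a + b + c + V := by clear * - b6 b34 b41 g1; omega
  clear * - X g1 g2 k1 k2 k3
  exact X.al.ninv (-N + i + a + b + l + c + V + 1) (fin X.al.per (-1) _ (pr X.d1 X.al.per 0 (N + i + a + b + l + c + V + 1) (pr X.r2 X.al.per 0 (N + i + a + b - l - 2*m + c + V - 1) (af X.S2 X.al.per 0 (N + i - a - b + l + c - V + 1) (rfl : W (-N + i + a + b + l + c + V + 1) = W (-N + i + a + b + l + c + V + 1)) (by omega)) (by omega)) (by omega)) (by omega))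

theorem T0_4 (X : C W N Q i a b l m c d L U V) (hb : B N Q i a b l m c d L U V)
    (h : 2*a + V ≤ 2*l + 2*m + 2*c + 1 ∧ l + 2*c + V + 2 ≤ 2*a) :
    False := by
  have b39 := hb.b39
  obtain ⟨g1, g2⟩ := h
  clear * - X g1 g2 b39
  exact X.al.ninv (i + l + 2*c + V + 1) (fin X.al.per 0 _ (pf X.x5 X.al.per 0 (i + l + 2*c + V + 1) (af X.x3 X.al.per 0 (i + 2*a - l - 2*m + V - 1) (rfl : W (i + l + 2*c + V + 1) = W (i + l + 2*c + V + 1)) (by omega)) (by omega)) (by omega))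

theorem T0_5 (X : C W N Q i a b l m c d L U V) (hb : B N Q i a b l m c d L U V)
    (h : a ≤ l + m + c + 1 ∧ l + m + c + 1 ≤ a) :
    False := by
  obtain ⟨g1, g2⟩ := h
  clear * - X g1 g2
  exact X.n2.xz (fin X.al.per 0 _ (pf X.x8 X.al.per 0 (i + 2*b + 3*l + 2*m + 2*c + 3) (rfl : W (i + l + 2*c + 1) = W (i + l + 2*c + 1)) (by omega)) (by omega)).symm

theorem T0_6 (X : C W N Q i a b l m c d L U V) (hb : B N Q i a b l m c d L U V)
    (h : l + m + c + 1 ≤ i + a ∧ a ≤ l + m + c ∧ a + c + 1 ≤ m) :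
    False := by
  have b2 := hb.b2
  have b6 := hb.b6
  have b37 := hb.b37
  have b39 := hb.b39
  have b42 := hb.b42
  obtain ⟨g1, g2, g3⟩ := h
  have k1 : 0 ≤ i + a + l + m + c + 1 := by clear * - b6 b37 g2; omega
  have k2 : a ≤ 3*l + 3*m + 3*c + 2 := by clear * - b2 g2; omega
  have k3 : 1 ≤ l + 2*m := by clear * - b39 b42; omega
  clear * - X g1 g2 g3 k1 k2 k3
  obtain ⟨K0, hL⟩ : ∃ K0 : ℤ, -2*i - 2*a ≤ 2*K0 ∧ 2*a - 4*l - 4*m - 4*c - 2 ≤ 2*K0 ∧ 2*a - 2*l - 4*m ≤ 2*K0 ∧ 2*K0 + 2*(-a + l + m + c + 1) - 2 ≤ -2*a - 2 ∧ 2*K0 + 2*(-a + l + m + c + 1) - 2 ≤ -2*a + 2*l + 4*m ∧ 2*K0 + 2*(-a + l + m + c + 1) - 2 ≤ -2*a + 4*l + 4*m + 4*c + 2 := ⟨((max (2*a - 2*l - 4*m) (max (2*a - 4*l - 4*m - 4*c - 2) (-2*i - 2*a))) + 1) / 2, by omega⟩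
  obtain ⟨R, hR1, hR2, hR⟩ := pw (A := i + 2*a - l - 2*m) (B := i + 2*l + 2*m + 2*c + 2) (γ := -a + l + m + c + 1) (by omega) (fun t h1 h2 => (fin X.al.per 0 _ (pf X.x5 X.al.per 0 (-2*a + 2*l + 2*m + 2*c + t + 2) (rfl : W (t) = W (t)) (by omega)) (by omega))) K0
  exact X.al.ninv (i + a + R) (fin X.al.per 0 _ (pp hR X.al.per 0 (i + a + R) (af X.s1 X.al.per 0 (i + a - R) (rfl : W (i + a + R) = W (i + a + R)) (by omega)) (by omega)) (by omega))

theorem T0_7 (X : C W N Q i a b l m c d L U V) (hb : B N Q i a b l m c d L U V)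
    (h : 2*a + 2*b ≤ N + l + 2*c ∧ N + 2*c ≤ l + 2*m ∧ i + l + 2 ≤ N) :
    False := by
  have b6 := hb.b6
  have b16 := hb.b16
  have b31 := hb.b31
  have b35 := hb.b35
  have b36 := hb.b36
  have b44 := hb.b44
  have b45 := hb.b45
  obtain ⟨g1, g2, g3⟩ := h
  have k1 : N + 2*c + 1 ≤ 2*a + 2*b := by clear * - b16 b35 g2; omega
  have k2 : 1 ≤ N + 2*c := by clear * - b6 g3; omega
  have k3 : 2*a + 2*b + 1 ≤ N := by clear * - b31 b36 b44 b45; omega
  clear * - X g1 g2 g3 k1 k2 k3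
  exact X.al.ninv (N + i - 2*a - 2*b + l + 2*c + 1) (fin X.al.per 0 _ (pf X.c2 X.al.per (-1) (N + i - 2*a - 2*b + l + 2*c + 1) (ar X.S2 X.al.per 0 (-N + i + l + 1) (pf X.bb X.al.per 0 (N + i + l + 2*c + 1) (rfl : W (N + i - 2*a - 2*b + l + 2*c + 1) = W (N + i - 2*a - 2*b + l + 2*c + 1)) (by omega)) (by omega)) (by omega)) (by omega))

theorem T0_9 (X : C W N Q i a b l m c d L U V) (hb : B N Q i a b l m c d L U V)
    (h : c + 2*V + 1 ≤ a + m ∧ a ≤ l + m + c) :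
    False := by
  have b40 := hb.b40
  have b41 := hb.b41
  obtain ⟨g1, g2⟩ := h
  have k1 : c + 1 ≤ a + m := by clear * - b40 b41 g1; omega
  have k2 : a ≤ l + m + c + 2*V := by clear * - b40 b41 g2; omega
  clear * - X g1 g2 k1 k2
  obtain ⟨K0, hL⟩ : ∃ K0 : ℤ, 2*a - 2*l - 2*m - 2*c + 2*V ≤ 2*K0 ∧ 2*a - 4*l - 6*m - 2*c + 2*V - 2 ≤ 2*K0 ∧ 2*a - 2*l - 2*m - 2*c - 2*V ≤ 2*K0 ∧ 2*K0 + 2*(-a + l + m + c + 1) - 2 ≤ 2*a + 2*m - 2*c - 2*V - 2 ∧ 2*K0 + 2*(-a + l + m + c + 1) - 2 ≤ -2*a + 2*l + 2*m + 2*c + 2*V ∧ 2*K0 + 2*(-a + l + m + c + 1) - 2 ≤ -2*a + 4*l + 6*m + 2*c - 2*V + 2 := ⟨((max (2*a - 2*l - 2*m - 2*c - 2*V) (max (2*a - 4*l - 6*m - 2*c + 2*V - 2) (2*a - 2*l - 2*m - 2*c + 2*V))) + 1) / 2, by omega⟩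
  obtain ⟨R, hR1, hR2, hR⟩ := pw (A := i + 2*a - l - 2*m) (B := i + 2*l + 2*m + 2*c + 2) (γ := -a + l + m + c + 1) (by omega) (fun t h1 h2 => (fin X.al.per 0 _ (pf X.x5 X.al.per 0 (-2*a + 2*l + 2*m + 2*c + t + 2) (rfl : W (t) = W (t)) (by omega)) (by omega))) K0
  exact X.al.ninv (i + a - m + c + V + R) (fin X.al.per 0 _ (pp hR X.al.per 0 (i + a - m + c + V + R) (af X.x3 X.al.per 0 (i + a - m + c + V - R) (rfl : W (i + a - m + c + V + R) = W (i + a - m + c + V + R)) (by omega)) (by omega)) (by omega))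

theorem T0_10 (X : C W N Q i a b l m c d L U V) (hb : B N Q i a b l m c d L U V)
    (h : N + 2*c ≤ i + 2*a + b + m ∧ 2*a + b + m + 1 ≤ N + 2*c) :
    False := by
  have b13 := hb.b13
  have b44 := hb.b44
  obtain ⟨g1, g2⟩ := h
  have k1 : i + 2*a + b + 1 ≤ N + m := by clear * - b13 g2; omega
  clear * - X g1 g2 b44 k1
  exact X.al.ninv (N + i + 2*a + b - m) (fin X.al.per 0 _ (pf X.d3 X.al.per 0 (N + i + 2*a + b - m) (ar X.s1 X.al.per 0 (-N + i + 2*a + b + m - 2*c) (pf X.c2 X.al.per 0 (N + i - b - m + 2*c) (rfl : W (N + i + 2*a + b - m) = W (N + i + 2*a + b - m)) (by omega)) (by omega)) (by omega)) (by omega))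

theorem T0_11 (X : C W N Q i a b l m c d L U V) (hb : B N Q i a b l m c d L U V)
    (h : a + 2*b + 1 ≤ N + c ∧ 2*N + 2*c ≤ i + 4*a + 4*b) :
    False := by
  have b3 := hb.b3
  have b13 := hb.b13
  have b31 := hb.b31
  have b34 := hb.b34
  have b35 := hb.b35
  have b40 := hb.b40
  have b41 := hb.b41
  have b42 := hb.b42
  have b45 := hb.b45
  obtain ⟨g1, g2⟩ := h
  have k1 : i + l + 2*c + 2 ≤ 2*b := by clear * - b3 b13 b35; omega
  have k2 : c + 1 ≤ a + 2*b := by clear * - b31 b34 b40 b41 b42 b45 g2; omega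
  clear * - X g1 g2 k1 k2
  exact X.al.ubP (2*N - 2*a - 4*b + 2*c) (by omega) (by omega) fun t h1 h2 => (fin X.al.per 0 _ (pr X.a1 X.al.per 0 (2*N - 2*a - 4*b + 2*c + t) (pf X.c2 X.al.per (-1) (2*N - 2*a - 2*b + 2*c + t) (rfl : W (t) = W (t)) (by omega)) (by omega)) (by omega))

theorem T0_14 (X : C W N Q i a b l m c d L U V) (hb : B N Q i a b l m c d L U V)
    (h : 2*a ≤ l + 2*c + U + V ∧ 2*l + 2*m + 2*c + 3 ≤ 2*a + U + V ∧ U + 1 ≤ V) :
    False := by
  have b42 := hb.b42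
  obtain ⟨g1, g2, g3⟩ := h
  have k1 : V ≤ l + 2*m + U := by clear * - b42 g1 g2 g3; omega
  clear * - X g1 g2 g3 k1
  exact X.al.ninv (i + l + 2*c - U + V + 1) (fin X.al.per 0 _ (pf X.x5 X.al.per 0 (i + l + 2*c - U + V + 1) (af X.x4 X.al.per 0 (i + 2*a - l - 2*m - U + V - 1) (pf X.x2 X.al.per 0 (i - 2*a + l + 2*c + U + V + 1) (rfl : W (i + l + 2*c - U + V + 1) = W (i + l + 2*c - U + V + 1)) (by omega)) (by omega)) (by omega)) (by omega))

theorem T0_17 (X : C W N Q i a b l m c d L U V) (hb : B N Q i a b l m c d L U V)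
    (h : m + 1 ≤ c + V ∧ l + m + c + 2 ≤ 2*U + V) :
    False := by
  obtain ⟨g1, g2⟩ := h
  clear * - X g1 g2
  exact X.al.ninv (i - m + c + V) (fin X.al.per 0 _ (af X.x4 X.al.per 0 (i - m + c + V) (rfl : W (i - m + c + V) = W (i - m + c + V)) (by omega)) (by omega))

theorem T0_18 (X : C W N Q i a b l m c d L U V) (hb : B N Q i a b l m c d L U V)
    (h : N + i + c + 1 ≤ Q + b) :
    False := by
  have b6 := hb.b6
  have b28 := hb.b28
  have b36 := hb.b36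
  have b37 := hb.b37
  have b44 := hb.b44
  have b45 := hb.b45
  have g1 := h
  have k1 : 2*a + b + 1 ≤ N + c := by clear * - b6 b28 b36 b45; omega
  have k2 : b + l + c + 2 ≤ N := by clear * - b28 b37 b44 b45; omega
  clear * - X g1 k1 k2
  exact X.al.ninv (N + i - b + c) (fin X.al.per 0 _ (pr X.c1 X.al.per (-1) (N + i - b + c) (af X.s2 X.al.per 0 (-N + i + 2*a + b - c) (rfl : W (N + i - b + c) = W (N + i - b + c)) (by omega)) (by omega)) (by omega))

theorem T0_19 (X : C W N Q i a b l m c d L U V) (hb : B N Q i a b l m c d L U V)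
    (h : Q + a ≤ i + l + c + 1 ∧ a + 2*b + c ≤ l + 2*m ∧ 1 ≤ a + 2*b + c) :
    False := by
  have b16 := hb.b16
  have b37 := hb.b37
  have b40 := hb.b40
  have b43 := hb.b43
  obtain ⟨g1, g2, g3⟩ := h
  have k1 : l + c + 2 ≤ 3*a + 2*b := by clear * - b37 g3; omega
  have k2 : a ≤ l + c := by clear * - b16 g1; omega
  have k3 : c + 1 ≤ a := by clear * - b37 b40 b43; omega
  clear * - X g1 g2 g3 k1 k2 k3
  exact X.al.ninv (i - a - 2*b + l + c + 1) (fin X.al.per 0 _ (ar X.S2 X.al.per 0 (i - a - 2*b + l + c + 1) (pf X.bb X.al.per 0 (i + a + 2*b + l + c + 1) (pf X.a2 X.al.per 0 (i - a + l + c + 1) (rfl : W (i - a - 2*b + l + c + 1) = W (i - a - 2*b + l + c + 1)) (by omega)) (by omega)) (by omega)) (by omega))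

theorem T0_20 (X : C W N Q i a b l m c d L U V) (hb : B N Q i a b l m c d L U V)
    (h : i + 2*a + 4*b + l + 2 ≤ 2*N + Q ∧ N + c + 1 ≤ a + 2*b ∧ Q + 2*b ≤ 2*N + i + 2*c) :
    False := by
  have b30 := hb.b30
  have b34 := hb.b34
  have b40 := hb.b40
  have b41 := hb.b41
  have b42 := hb.b42
  have b45 := hb.b45
  obtain ⟨g1, g2, g3⟩ := h
  have k1 : a + 2*b + 1 ≤ 2*N + c := by clear * - b30 b34 b40 b41 b42 b45 g1 g3; omega
  clear * - X g1 g2 g3 k1
  exact X.al.ubQ (-2*N + 2*a + 4*b - 2*c) (by omega) (by omega) fun t h1 h2 => (fin X.al.per 0 _ (pf X.a2 X.al.per 1 (-2*N + 2*a + 4*b - 2*c + t) (pf X.c1 X.al.per 0 (2*a + 2*b - 2*c + t) (rfl : W (t) = W (t)) (by omega)) (by omega)) (by omega))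

theorem T0_23 (X : C W N Q i a b l m c d L U V) (hb : B N Q i a b l m c d L U V)
    (h : l + 2*m + 2 ≤ a + U + V ∧ a + U + V ≤ 2*l + 2*m + 2*c + 1 ∧ l + 2*c + V + 2 ≤ a + U) :
    False := by
  have b28 := hb.b28
  have b41 := hb.b41
  have b45 := hb.b45
  obtain ⟨g1, g2, g3⟩ := h
  have k1 : a + 1 ≤ U + V := by clear * - b28 b45 g1; omega
  have k2 : U + 1 ≤ a + V := by clear * - b41 g1; omega
  clear * - X g1 g2 g3 k1 k2
  exact X.al.ninv (i + 3*a - l - 2*m - U + V - 1) (fin X.al.per 0 _ (pr X.x5 X.al.per 0 (i + 3*a - l - 2*m - U + V - 1) (ar X.x3 X.al.per 0 (i + a + l + 2*c - U + V + 1) (pf X.x2 X.al.per 0 (i + a - l - 2*m + U + V - 1) (rfl : W (i + 3*a - l - 2*m - U + V - 1) = W (i + 3*a - l - 2*m - U + V - 1)) (by omega)) (by omega)) (by omega)) (by omega))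

theorem T0_24 (X : C W N Q i a b l m c d L U V) (hb : B N Q i a b l m c d L U V)
    (h : b + l + 2*m + U + 2 ≤ N + c ∧ i + 2*a + b + l + c + 2 ≤ N + U ∧ N + c + U ≤ 2*a + b + l + 2*m) :
    False := by
  have b16 := hb.b16
  have b28 := hb.b28
  have b31 := hb.b31
  have b34 := hb.b34
  have b35 := hb.b35
  have b40 := hb.b40
  have b41 := hb.b41
  have b42 := hb.b42
  have b45 := hb.b45
  obtain ⟨g1, g2, g3⟩ := h
  have k1 : N + c ≤ b + 2*l + 2*m + U + 1 := by clear * - b31 b34 b40 b42 b45 g3; omega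
  have k2 : l + 2*m + U + 2 ≤ N + 2*a + b + c := by clear * - b16 b35 b40 b41 b42 g1; omega
  have k3 : 2*a + b + U ≤ N + c := by clear * - b28 b45 g1; omega
  clear * - X g1 g2 g3 k1 k2 k3
  exact X.al.ninv (N + i - b - l - 2*m + c - U - 1) (fin X.al.per 0 _ (ar X.x1 X.al.per 1 (N + i - b - l - 2*m + c - U - 1) (pr X.d1 X.al.per 0 (N + i + 2*a + b + l + c - U + 1) (pf X.bb X.al.per 0 (N + i + 2*a + b - l - 2*m + c - U - 1) (rfl : W (N + i - b - l - 2*m + c - U - 1) = W (N + i - b - l - 2*m + c - U - 1)) (by omega)) (by omega)) (by omega)) (by omega))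

theorem T0_25 (X : C W N Q i a b l m c d L U V) (hb : B N Q i a b l m c d L U V)
    (h : N + 2*c + 1 ≤ 2*a + b + m + U ∧ N + U ≤ b + 2*l + 3*m + 1 ∧ b + l + m + U + 2 ≤ N) :
    False := by
  have b6 := hb.b6
  have b34 := hb.b34
  have b36 := hb.b36
  have b40 := hb.b40
  have b42 := hb.b42
  obtain ⟨g1, g2, g3⟩ := h
  have k1 : b + m + U ≤ N + i + 2*c := by clear * - b6 g3; omega
  have k2 : m + U + 1 ≤ N + b + 2*c := by clear * - b6 b34 g2; omega
  have k3 : i + b + 2*l + m + 2*c + 3 ≤ N + U := by clear * - b36 g1; omega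
  have k4 : N ≤ b + 2*l + 3*m + U + 1 := by clear * - b40 b42 g2; omega
  clear * - X g1 g2 g3 k1 k2 k3 k4
  exact X.al.ninv (N + i - b - m + 2*c - U) (fin X.al.per 0 _ (pf X.x5 X.al.per 0 (N + i - b - m + 2*c - U) (ar X.x1 X.al.per 1 (N + i + 2*a - b - 2*l - 3*m - U - 2) (pr X.d1 X.al.per 0 (N + i + b + 2*l + m + 2*c - U + 2) (pf X.a1 X.al.per 0 (N + i + b - m + 2*c - U) (rfl : W (N + i - b - m + 2*c - U) = W (N + i - b - m + 2*c - U)) (by omega)) (by omega)) (by omega)) (by omega)) (by omega))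

theorem T0_26 (X : C W N Q i a b l m c d L U V) (hb : B N Q i a b l m c d L U V)
    (h : 3*a + V ≤ 3*l + 3*m + 3*c + 2 ∧ 2*l + m + 3*c + V + 3 ≤ 3*a ∧ l + m + c + 2 ≤ a + V) :
    False := by
  obtain ⟨g1, g2, g3⟩ := h
  clear * - X g1 g2 g3
  exact X.al.ninv (i - a + 2*l + m + 3*c + V + 2) (fin X.al.per 0 _ (pf X.x5 X.al.per 0 (i - a + 2*l + m + 3*c + V + 2) (pf X.x5 X.al.per 0 (i + a - m + c + V) (af X.x3 X.al.per 0 (i + 3*a - 2*l - 3*m - c + V - 2) (rfl : W (i - a + 2*l + m + 3*c + V + 2) = W (i - a + 2*l + m + 3*c + V + 2)) (by omega)) (by omega)) (by omega)) (by omega))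

theorem T0_27 (X : C W N Q i a b l m c d L U V) (hb : B N Q i a b l m c d L U V)
    (h : N + a + b + c ≤ 2*l + 3*m + 1 ∧ i + 2*l + m + c + 3 ≤ N + a + b) :
    False := by
  have b6 := hb.b6
  have b16 := hb.b16
  have b35 := hb.b35
  have b36 := hb.b36
  have b40 := hb.b40
  have b43 := hb.b43
  obtain ⟨g1, g2⟩ := h
  have k1 : a + b + m + 1 ≤ N + c := by clear * - b6 b36 b40 b43; omega
  have k2 : N + c ≤ a + b + l + m := by clear * - b16 b35 g1; omega
  have k3 : l + m + 2 ≤ N + a + b + c := by clear * - b6 g2; omega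
  clear * - X g1 g2 k1 k2 k3
  exact X.al.ninv (N + i - a - b - m + c) (fin X.al.per 0 _ (pf X.d1 X.al.per (-1) (N + i - a - b - m + c) (ar X.S2 X.al.per 0 (-N + i - a - b + 2*l + m + c + 2) (pf X.bb X.al.per 0 (N + i + a + b - m + c) (rfl : W (N + i - a - b - m + c) = W (N + i - a - b - m + c)) (by omega)) (by omega)) (by omega)) (by omega))

theorem T0_30 (X : C W N Q i a b l m c d L U V) (hb : B N Q i a b l m c d L U V)
    (h : a ≤ l + 2*c + V ∧ 2*l + 2*m + 2*c + 3 ≤ a + 2*U + V ∧ a + 1 ≤ V) :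
    False := by
  have b37 := hb.b37
  have b42 := hb.b42
  obtain ⟨g1, g2, g3⟩ := h
  have k1 : V ≤ a + l + 2*m := by clear * - b37 b42 g1; omega
  clear * - X g1 g2 g3 k1
  exact X.al.ninv (i - a + l + 2*c + V + 1) (fin X.al.per 0 _ (pf X.x5 X.al.per 0 (i - a + l + 2*c + V + 1) (af X.x4 X.al.per 0 (i + a - l - 2*m + V - 1) (rfl : W (i - a + l + 2*c + V + 1) = W (i - a + l + 2*c + V + 1)) (by omega)) (by omega)) (by omega))

theorem T0_33 (X : C W N Q i a b l m c d L U V) (hb : B N Q i a b l m c d L U V)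
    (h : 2*U ≤ l + 2*m ∧ a ≤ l + m + c ∧ 3*l + 4*m + 2*c + 3 ≤ 2*a + 2*U + 2*V) :
    False := by
  have b2 := hb.b2
  have b16 := hb.b16
  have b28 := hb.b28
  have b35 := hb.b35
  have b36 := hb.b36
  have b42 := hb.b42
  have b43 := hb.b43
  have b45 := hb.b45
  obtain ⟨g1, g2, g3⟩ := h
  have k1 : 2*a ≤ l + 2*m := by clear * - b28 b45; omega
  have k2 : l + 2*m + 2 ≤ 2*a + 2*b := by clear * - b16 b35; omega
  have k3 : i + 2*a + 2*b + l + 1 ≤ 2*N := by clear * - b36 b42 g1 g2 g3; omega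
  clear * - X g1 g2 g3 k1 b2 k2 k3 b42 b43
  obtain ⟨φ, H, T, ht, h0⟩ := exH X.al (i + 2*l + 2*m + 2)
  obtain ⟨Dbb, hbb⟩ := ht.par X.bb (by omega)
  obtain ⟨DS2, hS2⟩ := ht.ant X.S2 (by omega)
  obtain ⟨Dd1, hd1⟩ := ht.par X.d1 (by omega)
  obtain ⟨Dr2, hr2⟩ := ht.par X.r2 (by omega)
  obtain ⟨Dx1, hx1⟩ := ht.ant X.x1 (by omega)
  obtain ⟨Dx2, hx2⟩ := ht.par X.x2 (by omega)
  obtain ⟨Dx5, hx5⟩ := ht.par X.x5 (by omega)
  obtain ⟨Dx7, hx7⟩ := ht.par X.x7 (by omega)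
  have e1 := hx5 0 0 (i) (i - 2*a + 2*l + 2*m + 2*c + 2) (by omega)
  have e2 := hbb 0 0 (i + l + 1) (i + 2*a + 2*b + l + 1) (by omega)
  have e3 := hd1 0 0 (i + 2*a + 2*b + l + 1) (i + 2*a + 2*b - l - 2*m - 1) (by omega)
  have e4 := hS2 1 0 (2*N + i - 2*m + 2*c + 1) (i + 2*l + 2*m + 2) (by omega)
  have e5 := hd1 0 0 (i + 2*l + 2*m + 3) (i + 1) (by omega)
  have e6 := hr2 0 0 (i + 2*a + 2*b - l - 2*m + 2*V - 1) (i + l + 1) (by omega)
  have e7 := hr2 0 0 (i + 2*a + 2*b - l - 2*m + 2*U + 2*V - 1) (i + l + 2*U + 1) (by omega)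
  have e8 := hx1 1 1 (2*N + i + 2*a - l - 2*m - 1) (2*N + i + l + 2*c - 2*U + 2) (by omega)
  have e9 := hx7 1 0 (2*N + i + 2*a - l - 2*m - 1) (i + 2*a + 2*b - l - 2*m - 1) (by omega)
  have e10 := hx1 0 1 (i + 2*a - 2*U) (2*N + i - 2*m + 2*c + 1) (by omega)
  have e11 := hx5 0 0 (i + 2*a - 2*U) (i + 2*l + 2*m + 2*c - 2*U + 2) (by omega)
  have e12 := hS2 1 0 (2*N + i + l + 2*c - 2*U + 2) (i + l + 2*U + 1) (by omega)
  have e13 := hx2 0 0 (i + 2*a - l - 2*m + 2*V - 1) (i - l - 2*m + 2*U + 2*V - 1) (by omega)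
  have e14 := hx7 0 0 (i + 2*a - l - 2*m + 2*V - 1) (i + 2*a + 2*b - l - 2*m + 2*V - 1) (by omega)
  have e15 := hbb 0 0 (i - l - 2*m + 2*U + 2*V - 1) (i + 2*a + 2*b - l - 2*m + 2*U + 2*V - 1) (by omega)
  have e16 := hx2 0 0 (i + 2*l + 2*m + 2*c - 2*U + 2) (i - 2*a + 2*l + 2*m + 2*c + 2) (by omega)
  have e17 := ht.lt (i + 2*l + 2*m + 2) 0 0 (i + 2*l + 2*m + 2) (i + 2*l + 2*m + 3) (by omega)
  have e18 := ht.lt (i) 0 0 (i) (i + 1) (by omega)
  have t2 := ht.tri X.n3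
  omega

theorem T0_38 (X : C W N Q i a b l m c d L U V) (hb : B N Q i a b l m c d L U V)
    (h : Q + m ≤ i + a + b + c ∧ b + c ≤ i + a + m) :
    False := by
  have b3 := hb.b3
  have b16 := hb.b16
  have b28 := hb.b28
  have b37 := hb.b37
  have b45 := hb.b45
  obtain ⟨g1, g2⟩ := h
  have k1 : c + 1 ≤ a + b + m := by clear * - b16 b28 b37 b45 g1; omega
  have k2 : a + m + 1 ≤ b + c := by clear * - b3 g1; omega
  clear * - X g1 g2 k1 k2
  exact X.al.ninv (i + a - b - m + c) (fin X.al.per (-1) _ (pf X.d3 X.al.per 0 (2*N + i + a - b - m + c) (ar X.s1 X.al.per 0 (i + a - b + m - c) (pf X.a2 X.al.per 0 (i + a + b - m + c) (rfl : W (i + a - b - m + c) = W (i + a - b - m + c)) (by omega)) (by omega)) (by omega)) (by omega))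

theorem T0_41 (X : C W N Q i a b l m c d L U V) (hb : B N Q i a b l m c d L U V)
    (h : 0 ≤ l + m + c + 1 ∧ l + m + c + 2 ≤ a ∧ i + 4*a + 2*b ≤ 2*N + 2*c) :
    False := by
  have b16 := hb.b16
  have b28 := hb.b28
  have b30 := hb.b30
  have b35 := hb.b35
  have b45 := hb.b45
  obtain ⟨g1, g2, g3⟩ := h
  have k1 : l + 2*m + 2 ≤ 2*a + 2*b := by clear * - b16 b35; omega
  have k2 : 2*N ≤ i + 2*a + 2*b + 3*l + 2*m + 3 := by clear * - b30 b45 g1 g2; omega
  have k3 : l + 2*c + 2 ≤ 0 := by clear * - b28 b45 g2; omega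
  clear * - X g1 g2 g3 k1 k2 k3
  obtain ⟨φ, H, T, ht, h0⟩ := exH X.al (i)
  obtain ⟨Dbb, hbb⟩ := ht.par X.bb (by omega)
  obtain ⟨Dc2, hc2⟩ := ht.par X.c2 (by omega)
  obtain ⟨Dd1, hd1⟩ := ht.par X.d1 (by omega)
  obtain ⟨Dx5, hx5⟩ := ht.par X.x5 (by omega)
  obtain ⟨Dx6, hx6⟩ := ht.par X.x6 (by omega)
  obtain ⟨Dx7, hx7⟩ := ht.par X.x7 (by omega)
  obtain ⟨Dx8, hx8⟩ := ht.par X.x8 (by omega)
  have e1 := hx7 0 0 (i + 2*a) (i + 2*a + 2*b) (by omega)
  have e2 := hbb 0 0 (i + 1) (i + 2*a + 2*b + 1) (by omega)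
  have e3 := hd1 0 0 (i + 2*a + 2*b + l + 1) (i + 2*a + 2*b - l - 2*m - 1) (by omega)
  have e4 := hc2 0 0 (i + 2*a + 2*b + l + 2) (i + l + 2*c + 2) (by omega)
  have e5 := hc2 (-1) 0 (0) (2*N - 2*a - 2*b + 2*c) (by omega)
  have e6 := hd1 (-1) 0 (0) (2*N - 2*l - 2*m - 2) (by omega)
  have e7 := hx7 0 0 (i + 2*a - l - 2*m - 1) (i + 2*a + 2*b - l - 2*m - 1) (by omega)
  have e8 := hx8 0 0 (i + 2*a - l - 2*m - 1) (i + 2*a + 2*b + l + 1) (by omega)
  have e9 := hx5 0 0 (i + 2*a - l - 2*m) (i + l + 2*c + 2) (by omega)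
  have e10 := hx8 0 0 (i + 2*a - l - 2*m) (i + 2*a + 2*b + l + 2) (by omega)
  have e11 := hbb 0 0 (2*N - 2*a - 2*b - 2*l - 2*m - 2) (2*N - 2*l - 2*m - 2) (by omega)
  have e12 := hx6 0 0 (2*N - 2*a - 2*b - 2*l - 2*m - 2) (2*N - 2*a - 2*b + 2*c) (by omega)
  have e13 := hx5 0 0 (i + 2*a - 2*l - 2*m - 2*c - 2) (i) (by omega)
  have e14 := hx6 0 0 (i + 2*a - 2*l - 2*m - 2*c - 2) (i + 2*a) (by omega)
  have e15 := ht.lt (i) 0 0 (i) (i + 1) (by omega)
  have e16 := ht.lt (i + 2*a + 2*b) 0 0 (i + 2*a + 2*b) (i + 2*a + 2*b + 1) (by omega)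
  have t0 := ht.tri X.n1
  omega

theorem T0_42 (X : C W N Q i a b l m c d L U V) (hb : B N Q i a b l m c d L U V)
    (h : a + 2*U ≤ 2*l + 3*m + c + 2 ∧ 2*N + 3*c ≤ 3*a + 2*b + l + 3*m ∧ l + m + c + 2 ≤ a) :
    False := by
  have b3 := hb.b3
  have b6 := hb.b6
  have b16 := hb.b16
  have b28 := hb.b28
  have b36 := hb.b36
  have b40 := hb.b40
  have b42 := hb.b42
  have b45 := hb.b45
  obtain ⟨g1, g2, g3⟩ := h
  have k1 : i + a + c + 1 ≤ Q + m := by clear * - b16 b28 b45 g3; omega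
  have k2 : 3*a + 2*b + 2*U ≤ 2*N + l + m + 3*c + 1 := by clear * - b6 b36 g1; omega
  have k3 : 2*N + i + 3*c ≤ Q + a + 2*b + l + 3*m := by clear * - b3 g2; omega
  have k4 : 2*N + i + 3*c ≤ Q + a + 2*b + l + 3*m + 2*U := by clear * - b3 b40 b42 g2; omega
  have k5 : a ≤ 2*l + 3*m + c + 2 := by clear * - b40 b42 g1; omega
  have k6 : 2*N + 3*c ≤ 3*a + 2*b + l + 3*m + 2*U := by clear * - b40 b42 g2; omega
  have k7 : 1 ≤ l + 2*m := by clear * - b40 b42 g1 g3; omega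
  clear * - X g1 g2 g3 k1 k2 k3 k4 k5 k6 k7
  obtain ⟨K0, hL⟩ : ∃ K0 : ℤ, -2*N + 2*b + 2*l + 2*m + 2*U + 4 ≤ 2*K0 ∧ 2*N - 4*a - 2*b - 2*m + 4*c + 2*U + 2 ≤ 2*K0 ∧ 2*N - 4*a - 2*b - 2*m + 4*c - 2*U + 2 ≤ 2*K0 ∧ 2*K0 + 2*(a - l - m - c - 1) - 2 ≤ -2*N + 2*Q - 2*i + 2*b + 2*m - 4*c + 2*U - 2 ∧ 2*K0 + 2*(a - l - m - c - 1) - 2 ≤ 2*N - 4*a - 2*b + 2*l + 2*m + 4*c - 2*U + 2 ∧ 2*K0 + 2*(a - l - m - c - 1) - 2 ≤ 2*N - 2*b - 2*l - 2*m - 2*U - 4 ∧ 2*K0 + 2*(a - l - m - c - 1) - 2 ≤ -2*N + 4*a + 2*b + 2*m - 4*c + 2*U - 2 := ⟨((max (2*N - 4*a - 2*b - 2*m + 4*c - 2*U + 2) (max (2*N - 4*a - 2*b - 2*m + 4*c + 2*U + 2) (-2*N + 2*b + 2*l + 2*m + 2*U + 4))) + 1) / 2, by omega⟩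
  obtain ⟨R, hR1, hR2, hR⟩ := pw (A := i + l + 2*c + 2) (B := i + 2*a) (γ := a - l - m - c - 1) (by omega) (fun t h1 h2 => (fin X.al.per 0 _ (pr X.x5 X.al.per 0 (2*a - 2*l - 2*m - 2*c + t - 2) (rfl : W (t) = W (t)) (by omega)) (by omega))) K0
  exact X.al.ninv (N + i - b - m + 2*c - U + R) (fin X.al.per 0 _ (pp hR X.al.per 0 (N + i - b - m + 2*c - U + R) (ar X.x1 X.al.per 1 (N + i - b - m + 2*c - U - R) (pf X.c1 X.al.per 0 (N + i + 2*a + b - m - U + R) (rfl : W (N + i - b - m + 2*c - U + R) = W (N + i - b - m + 2*c - U + R)) (by omega)) (by omega)) (by omega)) (by omega))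

theorem T0_48 (X : C W N Q i a b l m c d L U V) (hb : B N Q i a b l m c d L U V)
    (h : i + 2*b + 3*l + 4*m + 4 ≤ 2*N ∧ 2*N + 2*c ≤ i + 4*a + 2*b ∧ i + 2*l + 4*m + 3 ≤ 2*N + 2*c ∧ 2*l + 4*m + 2 ≤ i + 2*a) :
    False := by
  have b3 := hb.b3
  have b6 := hb.b6
  have b28 := hb.b28
  have b34 := hb.b34
  have b36 := hb.b36
  have b40 := hb.b40
  have b41 := hb.b41
  have b42 := hb.b42
  have b43 := hb.b43
  have b45 := hb.b45
  obtain ⟨g1, g2, g3, g4⟩ := h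
  have k1 : 2*N + 2*c ≤ Q + 2*a + 2*b := by clear * - b3 g2; omega
  have k2 : b + l + 2*m + 1 ≤ N + c := by clear * - b6 g1; omega
  have k3 : l + m + c + 1 ≤ a := by clear * - b36 g2; omega
  have k4 : a ≤ l + 2*m := by clear * - b28 b40 b41 b42 b45; omega
  have k5 : l + 2*m + 2 ≤ N + a := by clear * - b34 b40 b41 b42 b43 g4; omega
  clear * - X g1 g2 g3 g4 k1 k2 k3 k4 k5
  exact X.al.ubP (-2*a + 2*l + 4*m + 2) (by omega) (by omega) fun t h1 h2 => (fin X.al.per 0 _ (pr X.d3 X.al.per 0 (-2*a + 2*l + 4*m + t + 2) (pr X.d1 X.al.per 0 (2*N - 2*a + 2*l + 2*m + 2*c + t + 2) (pf X.a1 X.al.per 0 (2*N - 2*a + 2*c + t) (pr X.c1 X.al.per (-1) (2*N - 2*a - 2*b + 2*c + t) (rfl : W (t) = W (t)) (by omega)) (by omega)) (by omega)) (by omega)) (by omega))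

theorem T0_50 (X : C W N Q i a b l m c d L U V) (hb : B N Q i a b l m c d L U V)
    (h : 2*b + l + m + 1 ≤ N + i + a ∧ N + Q ≤ i + a + 2*b + l + m + 1) :
    False := by
  have b3 := hb.b3
  have b16 := hb.b16
  have b36 := hb.b36
  obtain ⟨g1, g2⟩ := h
  have k1 : N ≤ a + 2*b + l + m := by clear * - b16 g2; omega
  have k2 : i + a + l + m + 2 ≤ N := by clear * - b16 b36 g2; omega
  have k3 : N + a ≤ 2*b + l + m := by clear * - b3 g2; omega
  clear * - X g1 g2 k1 k2 k3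
  exact X.al.ninv (N + i + a - 2*b - l - m - 1) (fin X.al.per 0 _ (ar X.s1 X.al.per 0 (N + i + a - 2*b - l - m - 1) (pf X.a2 X.al.per 1 (-N + i + a + 2*b + l + m + 1) (pr X.d1 X.al.per 0 (N + i + a + l + m + 1) (pf X.a1 X.al.per 0 (N + i + a - l - m - 1) (rfl : W (N + i + a - 2*b - l - m - 1) = W (N + i + a - 2*b - l - m - 1)) (by omega)) (by omega)) (by omega)) (by omega)) (by omega))

theorem T0_51 (X : C W N Q i a b l m c d L U V) (hb : B N Q i a b l m c d L U V)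
    (h : Q + 2*l + 2*m + 2 ≤ 2*a + 4*b ∧ l + 2*m + 1 ≤ i + 2*a ∧ 2*l + 2*m + 2 ≤ i + 4*a + 2*b) :
    False := by
  have b16 := hb.b16
  have b24 := hb.b24
  have b31 := hb.b31
  have b34 := hb.b34
  have b36 := hb.b36
  have b40 := hb.b40
  have b41 := hb.b41
  have b42 := hb.b42
  have b44 := hb.b44
  have b45 := hb.b45
  obtain ⟨g1, g2, g3⟩ := h
  have k1 : i + 2*l + 2*m + 3 ≤ 2*a + 4*b := by clear * - b16 g1; omega
  have k2 : b + l + m + 1 ≤ N := by clear * - b44; omega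
  have k3 : a + b ≤ l + m := by clear * - b24 b31 b36; omega
  have k4 : l + m + 2 ≤ N + a + b := by clear * - b31 b34 b40 b41 b42 b45 g3; omega
  clear * - X g1 g2 g3 k1 k2 k3 k4
  exact X.al.ubP (-2*a - 2*b + 2*l + 2*m + 2) (by omega) (by omega) fun t h1 h2 => (fin X.al.per 0 _ (pr X.a1 X.al.per 0 (-2*a - 2*b + 2*l + 2*m + t + 2) (pr X.bb X.al.per 0 (-2*a + 2*l + 2*m + t + 2) (pr X.d1 X.al.per 0 (2*b + 2*l + 2*m + t + 2) (pf X.a2 X.al.per 0 (2*b + t) (rfl : W (t) = W (t)) (by omega)) (by omega)) (by omega)) (by omega)) (by omega))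

theorem T0_53 (X : C W N Q i a b l m c d L U V) (hb : B N Q i a b l m c d L U V)
    (h : 3*a + b + U ≤ N + 2*l + 2*m + 3*c + 2 ∧ N + l + 3*c + U + 2 ≤ 3*a + b ∧ N + c ≤ a + b + l + 2*m + U) :
    False := by
  have b3 := hb.b3
  have b6 := hb.b6
  have b36 := hb.b36
  obtain ⟨g1, g2, g3⟩ := h
  have k1 : b + 2*l + 2*m + c + U + 3 ≤ N + a := by clear * - b6 b36 g2; omega
  have k2 : N + i + a + c ≤ Q + b + l + 2*m + U := by clear * - b3 g3; omega
  clear * - X g1 g2 g3 k1 k2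
  exact X.al.ninv (N + i + a - b - l - 2*m + c - U - 1) (fin X.al.per 0 _ (pr X.x5 X.al.per 0 (N + i + a - b - l - 2*m + c - U - 1) (ar X.x1 X.al.per 1 (N + i - a - b + l + 3*c - U + 1) (pf X.c1 X.al.per 0 (N + i + 3*a + b - l - 2*m - c - U - 1) (rfl : W (N + i + a - b - l - 2*m + c - U - 1) = W (N + i + a - b - l - 2*m + c - U - 1)) (by omega)) (by omega)) (by omega)) (by omega))

theorem T0_54 (X : C W N Q i a b l m c d L U V) (hb : B N Q i a b l m c d L U V)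
    (h : 2*N + 2*c ≤ i + 2*a + 2*b + l + 2*m + 2 ∧ a + b + l + 2*m + 2 ≤ N + c) :
    False := by
  have b2 := hb.b2
  have b16 := hb.b16
  have b24 := hb.b24
  have b33 := hb.b33
  have b35 := hb.b35
  have b36 := hb.b36
  have b40 := hb.b40
  have b41 := hb.b41
  have b42 := hb.b42
  have b45 := hb.b45
  obtain ⟨g1, g2⟩ := h
  have k1 : 2 ≤ l := by clear * - b24 b33 g1 g2; omega
  have k2 : 1 ≤ a + b := by clear * - b16 b35 b40 b41 b42; omega
  have k3 : 2*N + 2*c ≤ i + 2*a + 2*b + 2*l + 4*m + 2 := by clear * - b40 b41 b42 g1; omega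
  have k4 : 2*N + 2*c ≤ 2*a + 4*b + 3*l + 4*m + 4 := by clear * - b16 b33 b35 b40 b41 b42 b45 g1; omega
  have k5 : b + l + 2*m + 2 ≤ N + c := by clear * - b2 g2; omega
  have k6 : 0 ≤ l + 2*m + 1 := by clear * - b40 b41 b42; omega
  clear * - X g1 g2 k1 k2 b36 k3 k4 k5 k6
  exact rr2a X.al.ninv (a + b) (l + m + 1) (N + i + a - m + c) (i + 2*a + 2*b + 2*l + 2*m + 2) (i + 2*a + 2*b + l + 1) (i + 2*a + 2*b + l + 1) (i + l + 1) (by omega) (ne' X.n2.yz.symm X.al.per 0 0 (by omega))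
    (fun t h1 h2 => (fin X.al.per 0 _ (pf X.bb X.al.per 0 (2*a + 2*b + t) (rfl : W (t) = W (t)) (by omega)) (by omega)))
    (fun t h1 h2 => (fin X.al.per 0 _ (pr X.d1 X.al.per 0 (2*l + 2*m + t + 2) (rfl : W (t) = W (t)) (by omega)) (by omega)))
    (fun t h1 h2 => (fin X.al.per 0 _ (af X.s1 X.al.per 0 (2*N + 2*i + 2*a - 2*m + 2*c - t) (pr X.d3 X.al.per 0 (-2*N + 2*m - 2*c + t) (rfl : W (t) = W (t)) (by omega)) (by omega)) (by omega)))

theorem T0_55 (X : C W N Q i a b l m c d L U V) (hb : B N Q i a b l m c d L U V)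
    (h : Q + 2*l + 2*m + 2 ≤ 2*a + 4*b ∧ 2*N ≤ i + 3*l + 2*m + 3 ∧ 2*l + 2*m + L + 4 ≤ 2*N + 2*a) :
    False := by
  have b16 := hb.b16
  have b28 := hb.b28
  have b30 := hb.b30
  have b34 := hb.b34
  have b36 := hb.b36
  have b40 := hb.b40
  have b41 := hb.b41
  have b42 := hb.b42
  have b45 := hb.b45
  obtain ⟨g1, g2, g3⟩ := h
  have k1 : i + 2*l + 2*m + 3 ≤ 2*a + 4*b := by clear * - b16 g1; omega
  have k2 : a + b ≤ l + m := by clear * - b36 b40 b41 b42 g2; omega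
  have k3 : l + m + 2 ≤ N + a + b := by clear * - b28 b30 b34 b40 b41 b42 b45 g3; omega
  have k4 : i + 2*a + 4*b + 2*l + 2*m + L + 4 ≤ 4*N := by clear * - b36 b40 b41 b42 g2 g3; omega
  have k5 : 2*b + l + 2*m + L + 3 ≤ 2*N := by clear * - b36 g2 g3; omega
  clear * - X g1 g2 g3 k1 k2 k3 k4 k5
  exact absurd (X.lam.mx (i + 2*a + 2*b + 1) (min (2*N + i + 4*a + 2*b - 2*l - 2*m - 2) (min (2*N + i + 2*a - l - 2*m - 1) (min (4*N - 2*b - 2*l - 2*m - 2) (2*N + i + 2*a)))) (-2*a - 2*b + 2*l + 2*m + 2) (by omega) (by omega) fun t h1 h2 => by (try simp only [max_le_iff, lt_min_iff] at h1 h2); exact (lt_or_ge t (min (2*N + 2*a + 2*b - 2*l - 2*m - 2) (i + 2*a + 2*b + l + 1))).elim (fun u0 => by (try simp only [lt_min_iff] at u0); exact (fin X.al.per 0 _ (pr X.d1 X.al.per 0 (-2*a - 2*b + 2*l + 2*m + t + 2) (pr X.bb X.al.per 0 (-2*a - 2*b + t) (rfl : W (t) = W (t)) (by omega)) (by omega)) (by omega))) (fun u0 => (fin X.al.per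 1 _ (pr X.a1 X.al.per 0 (-2*N - 2*a - 2*b + 2*l + 2*m + t + 2) (pr X.bb X.al.per 0 (-2*N - 2*a + 2*l + 2*m + t + 2) (pr X.d1 X.al.per 0 (-2*N + 2*b + 2*l + 2*m + t + 2) (pf X.a2 X.al.per 1 (-2*N + 2*b + t) (rfl : W (t) = W (t)) (by omega)) (by omega)) (by omega)) (by omega)) (by omega)))) (by omega)

theorem T0_56 (X : C W N Q i a b l m c d L U V) (hb : B N Q i a b l m c d L U V)
    (h : b + l + 3*m + 1 ≤ N + i + a + 2*c + V ∧ N + 2*c + V ≤ a + b + l + 3*m ∧ N ≤ i + a + b + l + m + V + 1 ∧ a + b + l + m + V + 2 ≤ N ∧ a + b + m + V + 1 ≤ N + 2*c) :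
    False := by
  have b16 := hb.b16
  have b35 := hb.b35
  have b36 := hb.b36
  have b40 := hb.b40
  have b41 := hb.b41
  obtain ⟨g1, g2, g3, g4, g5⟩ := h
  have k1 : l + 3*m + 2 ≤ N + a + b + 2*c + V := by clear * - b16 b35 b40 b41 g5; omega
  have k2 : i + a + b + l + 2*c + V + 2 ≤ N + m := by clear * - b36 g2; omega
  clear * - X g1 g2 g3 g4 g5 k1 k2
  exact X.al.ninv (N + i + a - b - l - 3*m + 2*c + V - 1) (fin X.al.per 0 _ (ar X.x3 X.al.per 0 (N + i + a - b - l - 3*m + 2*c + V - 1) (pr X.d3 X.al.per 0 (-N + i + a + b + l + m + V + 1) (pr X.d1 X.al.per 0 (N + i + a + b + l - m + 2*c + V + 1) (pf X.a1 X.al.per 0 (N + i + a + b - l - 3*m + 2*c + V - 1) (rfl : W (N + i + a - b - l - 3*m + 2*c + V - 1) = W (N + i + a - b - l - 3*m + 2*c + V - 1)) (by omega)) (by omega)) (by omega)) (by omega)) (by omega))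

theorem T0_57 (X : C W N Q i a b l m c d L U V) (hb : B N Q i a b l m c d L U V)
    (h : N + 2*c + 2*V ≤ a + b + l + 3*m ∧ a + b + m + 1 ≤ N + 2*c ∧ a + b + l + m + 2*V + 2 ≤ N ∧ 2*N + 2*c ≤ i + 2*a + 2*b + l + 2*m + 2 ∧ 2*N + i + 4*c ≤ Q + 2*a + 2*b + 2*m) :
    False := by
  have b40 := hb.b40
  have b41 := hb.b41
  obtain ⟨g1, g2, g3, g4, g5⟩ := h
  have k1 : N + 2*c ≤ a + b + l + 3*m := by clear * - b40 b41 g1; omega
  have k2 : a + b + m + 1 ≤ N + 2*c + 2*V := by clear * - b40 b41 g2; omega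
  have k3 : a + b + l + m + 2 ≤ N := by clear * - b40 b41 g3; omega
  clear * - X g1 g2 g3 g4 g5 k1 k2 k3
  obtain ⟨K0, hL⟩ : ∃ K0 : ℤ, 2*V + 2 ≤ 2*K0 ∧ -4*N + 4*a + 4*b + 2*l + 4*m - 4*c + 2*V + 4 ≤ 2*K0 ∧ -4*N + 4*a + 4*b + 4*m - 8*c - 2*V + 2 ≤ 2*K0 ∧ -2*V + 2 ≤ 2*K0 ∧ 2*K0 + 2*(N - a - b - m + 2*c) - 2 ≤ 2*l + 4*m - 2*V ∧ 2*K0 + 2*(N - a - b - m + 2*c) - 2 ≤ 4*N - 4*a - 4*b - 4*m + 8*c + 2*V - 2 ∧ 2*K0 + 2*(N - a - b - m + 2*c) - 2 ≤ 4*N - 4*a - 4*b - 2*l - 4*m + 4*c - 2*V - 4 := ⟨((max (-2*V + 2) (max (-4*N + 4*a + 4*b + 4*m - 8*c - 2*V + 2) (max (-4*N + 4*a + 4*b + 2*l + 4*m - 4*c + 2*V + 4) (2*V + 2)))) + 1) / 2, by omega⟩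
  obtain ⟨R, hR1, hR2, hR⟩ := pw (A := -2*N + i + 2*a + 2*b + l + 2*m - 2*c + 2) (B := 2*N + i - 2*a - 2*b - 2*m + 4*c) (γ := N - a - b - m + 2*c) (by omega) (fun t h1 h2 => (fin X.al.per 0 _ (pr X.c1 X.al.per 0 (2*N - 2*a - 2*b - 2*m + 4*c + t) (pf X.d3 X.al.per 0 (2*N - 2*m + 2*c + t) (rfl : W (t) = W (t)) (by omega)) (by omega)) (by omega))) K0
  exact X.al.ninv (i + 2*a - l - 2*m + V + R - 1) (fin X.al.per 0 _ (pr X.x5 X.al.per 0 (i + 2*a - l - 2*m + V + R - 1) (pp hR X.al.per 0 (i + l + 2*c + V + R + 1) (af X.x3 X.al.per 0 (i + l + 2*c + V - R + 1) (rfl : W (i + 2*a - l - 2*m + V + R - 1) = W (i + 2*a - l - 2*m + V + R - 1)) (by omega)) (by omega)) (by omega)) (by omega))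

theorem T0_58 (X : C W N Q i a b l m c d L U V) (hb : B N Q i a b l m c d L U V)
    (h : i + 4*a + 6*b + 1 ≤ 2*N + Q ∧ Q + 2*a + 2*b ≤ i + l + 1 ∧ N + 1 ≤ 2*a + 3*b) :
    False := by
  have b32 := hb.b32
  have b40 := hb.b40
  have b41 := hb.b41
  have b42 := hb.b42
  have b44 := hb.b44
  have b45 := hb.b45
  obtain ⟨g1, g2, g3⟩ := h
  have k1 : Q + 2*a + 4*b ≤ 2*N + i := by clear * - b40 b41 b42 b44 g2; omega
  have k2 : 2*a + 3*b + 1 ≤ 2*N := by clear * - b32 b40 b41 b42 b44 b45 g1 g2 g3; omega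
  clear * - X g1 g2 g3 k1 k2
  exact X.al.ubQ (-2*N + 4*a + 6*b) (by omega) (by omega) fun t h1 h2 => (fin X.al.per 0 _ (pf X.a2 X.al.per 1 (-2*N + 4*a + 6*b + t) (pf X.bb X.al.per 0 (4*a + 4*b + t) (pf X.bb X.al.per 0 (2*a + 2*b + t) (rfl : W (t) = W (t)) (by omega)) (by omega)) (by omega)) (by omega))

theorem T0_60 (X : C W N Q i a b l m c d L U V) (hb : B N Q i a b l m c d L U V)
    (h : N + c ≤ i + 3*a + 2*b + m ∧ N + a + c ≤ l + m) :
    False := by
  have b2 := hb.b2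
  have b6 := hb.b6
  have b16 := hb.b16
  have b24 := hb.b24
  have b29 := hb.b29
  have b35 := hb.b35
  have b36 := hb.b36
  have b40 := hb.b40
  have b41 := hb.b41
  have b42 := hb.b42
  have b44 := hb.b44
  obtain ⟨g1, g2⟩ := h
  have k1 : 3*a + 2*b + m + 1 ≤ N + c := by clear * - b6 b36 g2; omega
  have k2 : a + 2*b + m + 1 ≤ N + c := by clear * - b2 b6 b36 g2; omega
  have k3 : N + c ≤ a + 2*b + l + m := by clear * - b16 b35 b40 b41 b42 g2; omega
  have k4 : m + 1 ≤ N + a + c := by clear * - b16 b24 b29 b35 b44; omega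
  clear * - X g1 g2 k1 k2 k3 k4
  exact X.al.ninv (-N + i + 3*a + 2*b + m - c) (fin X.al.per 0 _ (pr X.d3 X.al.per 0 (-N + i + 3*a + 2*b + m - c) (pf X.bb X.al.per 0 (N + i + 3*a + 2*b - m + c) (pf X.bb X.al.per 0 (N + i + a - m + c) (af X.s1 X.al.per 0 (N + i - a - 2*b - m + c) (rfl : W (-N + i + 3*a + 2*b + m - c) = W (-N + i + 3*a + 2*b + m - c)) (by omega)) (by omega)) (by omega)) (by omega)) (by omega))

theorem T0_62 (X : C W N Q i a b l m c d L U V) (hb : B N Q i a b l m c d L U V)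
    (h : 2*a + b + V ≤ N + l + m + 2*c ∧ N + 2*c + V + 1 ≤ 2*a + b + m) :
    False := by
  have b3 := hb.b3
  have b40 := hb.b40
  have b41 := hb.b41
  have b44 := hb.b44
  obtain ⟨g1, g2⟩ := h
  have k1 : b + l + m + 2 ≤ N + V := by clear * - b40 b41 b44; omega
  have k2 : N + i + 2*c + V + 1 ≤ Q + b + m := by clear * - b3 g2; omega
  clear * - X g1 g2 k1 k2
  exact X.al.ninv (N + i - b - m + 2*c + V) (fin X.al.per 0 _ (ar X.x3 X.al.per 1 (N + i - b - m + 2*c + V) (pf X.c1 X.al.per 0 (N + i + 2*a + b - m + V) (rfl : W (N + i - b - m + 2*c + V) = W (N + i - b - m + 2*c + V)) (by omega)) (by omega)) (by omega))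

theorem T0_63 (X : C W N Q i a b l m c d L U V) (hb : B N Q i a b l m c d L U V)
    (h : N + i + 2*c + V + 1 ≤ Q + a + b + m ∧ a + b + m + 1 ≤ N + 2*c + V ∧ N + l + m + 2*c + 2 ≤ a + b + 2*U + V) :
    False := by
  have b6 := hb.b6
  have b36 := hb.b36
  have b41 := hb.b41
  obtain ⟨g1, g2, g3⟩ := h
  have k1 : a + b + l + m + 2 ≤ N + V := by clear * - b6 b36 b41 g3; omega
  clear * - X g1 g2 g3 k1
  exact X.al.ninv (N + i - a - b - m + 2*c + V) (fin X.al.per 0 _ (ar X.x4 X.al.per 1 (N + i - a - b - m + 2*c + V) (pf X.c1 X.al.per 0 (N + i + a + b - m + V) (rfl : W (N + i - a - b - m + 2*c + V) = W (N + i - a - b - m + 2*c + V)) (by omega)) (by omega)) (by omega))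

theorem T0_65 (X : C W N Q i a b l m c d L U V) (hb : B N Q i a b l m c d L U V)
    (h : 0 ≤ l + m + c + 1 ∧ l + m + c + 1 ≤ 0) :
    False := by
  have b16 := hb.b16
  have b35 := hb.b35
  have b36 := hb.b36
  have b40 := hb.b40
  have b41 := hb.b41
  have b42 := hb.b42
  obtain ⟨g1, g2⟩ := h
  have k1 : l + 2*c + 2 ≤ 0 := by clear * - b40 b41 b42 g2; omega
  have k2 : l + m + c + 2 ≤ a + b := by clear * - b16 b35 b40 b41 b42 g2; omega
  have k3 : i + 2*a + 2*b + 1 ≤ 2*N + 2*c := by clear * - b36 g1; omega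
  clear * - X g1 g2 k1 b16 k2 k3
  exact X.n1.xz (fin X.al.per 0 _ (pf X.d1 X.al.per 0 (i + 2*a + 2*b - 2*l - 2*m - 2*c - 2) (pf X.c1 X.al.per 0 (i + 2*a + 2*b - 2*c) (rfl : W (i) = W (i)) (by omega)) (by omega)) (by omega)).symm

theorem T0_68 (X : C W N Q i a b l m c d L U V) (hb : B N Q i a b l m c d L U V)
    (h : 0 ≤ l + m + c + 1 ∧ l + m + c + 2 ≤ a ∧ 2*a ≤ l + 2*c + 2*U + 2*V + 1) :
    False := by
  have b16 := hb.b16
  have b28 := hb.b28
  have b35 := hb.b35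
  have b36 := hb.b36
  have b41 := hb.b41
  have b42 := hb.b42
  have b43 := hb.b43
  have b45 := hb.b45
  obtain ⟨g1, g2, g3⟩ := h
  have k1 : l + 2*m + 2 ≤ 2*a + 2*b := by clear * - b16 b35; omega
  have k2 : i + 2*a + 2*b + l + 1 ≤ 2*N := by clear * - b36 b41 b42 g2 g3; omega
  have k3 : l + 2*c + 2 ≤ 0 := by clear * - b28 b45 g2; omega
  clear * - X g1 g2 g3 k1 k2 b41 b42 b43 k3
  obtain ⟨φ, H, T, ht, h0⟩ := exH X.al (i + 2*l + 2*m + 2)
  obtain ⟨Dbb, hbb⟩ := ht.par X.bb (by omega)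
  obtain ⟨DS2, hS2⟩ := ht.ant X.S2 (by omega)
  obtain ⟨Dd1, hd1⟩ := ht.par X.d1 (by omega)
  obtain ⟨Dr2, hr2⟩ := ht.par X.r2 (by omega)
  obtain ⟨Dx1, hx1⟩ := ht.ant X.x1 (by omega)
  obtain ⟨Dx2, hx2⟩ := ht.par X.x2 (by omega)
  obtain ⟨Dx5, hx5⟩ := ht.par X.x5 (by omega)
  obtain ⟨Dx7, hx7⟩ := ht.par X.x7 (by omega)
  have e1 := hbb 0 0 (i + l + 1) (i + 2*a + 2*b + l + 1) (by omega)
  have e2 := hd1 0 0 (i + 2*a + 2*b + l + 1) (i + 2*a + 2*b - l - 2*m - 1) (by omega)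
  have e3 := hS2 1 0 (2*N + i - 2*m + 2*c + 1) (i + 2*l + 2*m + 2) (by omega)
  have e4 := hd1 0 0 (i + 2*l + 2*m + 3) (i + 1) (by omega)
  have e5 := hr2 0 0 (i + 2*a + 2*b - l - 2*m + 2*V - 1) (i + l + 1) (by omega)
  have e6 := hr2 0 0 (i + 2*a + 2*b - l - 2*m + 2*U + 2*V - 1) (i + l + 2*U + 1) (by omega)
  have e7 := hx1 0 1 (i + 2*a - l - 2*m - 1) (2*N + i + l + 2*c - 2*U + 2) (by omega)
  have e8 := hx7 0 0 (i + 2*a - l - 2*m - 1) (i + 2*a + 2*b - l - 2*m - 1) (by omega)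
  have e9 := hx1 0 1 (i + 2*a - 2*U) (2*N + i - 2*m + 2*c + 1) (by omega)
  have e10 := hS2 1 0 (2*N + i + l + 2*c - 2*U + 2) (i + l + 2*U + 1) (by omega)
  have e11 := hx2 0 0 (i + 2*a - l - 2*m + 2*V - 1) (i - l - 2*m + 2*U + 2*V - 1) (by omega)
  have e12 := hx7 0 0 (i + 2*a - l - 2*m + 2*V - 1) (i + 2*a + 2*b - l - 2*m + 2*V - 1) (by omega)
  have e13 := hbb 0 0 (i - l - 2*m + 2*U + 2*V - 1) (i + 2*a + 2*b - l - 2*m + 2*U + 2*V - 1) (by omega)
  have e14 := hx5 0 0 (i + 2*a - 2*l - 2*m - 2*c - 2) (i) (by omega)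
  have e15 := hx2 0 0 (i + 4*a - 2*l - 2*m - 2*c - 2*U - 2) (i + 2*a - 2*l - 2*m - 2*c - 2) (by omega)
  have e16 := hx5 0 0 (i + 4*a - 2*l - 2*m - 2*c - 2*U - 2) (i + 2*a - 2*U) (by omega)
  have e17 := ht.lt (i + 2*l + 2*m + 2) 0 0 (i + 2*l + 2*m + 2) (i + 2*l + 2*m + 3) (by omega)
  have e18 := ht.lt (i) 0 0 (i) (i + 1) (by omega)
  have t2 := ht.tri X.n3
  omega

theorem T0_76 (X : C W N Q i a b l m c d L U V) (hb : B N Q i a b l m c d L U V)
    (h : 2*b ≤ i + l + m + 1 ∧ m + 1 ≤ 0 ∧ l + m + 2 ≤ 2*b) :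
    False := by
  have b2 := hb.b2
  have b36 := hb.b36
  have b40 := hb.b40
  have b41 := hb.b41
  have b42 := hb.b42
  obtain ⟨g1, g2, g3⟩ := h
  have k1 : l + m + 2 ≤ 2*a + 2*b := by clear * - b2 g3; omega
  have k2 : 0 ≤ l + m := by clear * - b40 b41 b42 g2; omega
  have k3 : i + 2*a + 2*b + l + m + 2 ≤ 2*N := by clear * - b36 b40 b41 b42 g2; omega
  clear * - X g1 g2 g3 k1 k2 k3
  exact X.al.ninv (i - 2*b + l + m + 1) (fin X.al.per 0 _ (ar X.s1 X.al.per 0 (i - 2*b + l + m + 1) (pf X.d1 X.al.per 0 (i + 2*a + 2*b - l - m - 1) (pf X.bb X.al.per 0 (i + 2*a + 2*b + l + m + 1) (pf X.a1 X.al.per 0 (i + l + m + 1) (rfl : W (i - 2*b + l + m + 1) = W (i - 2*b + l + m + 1)) (by omega)) (by omega)) (by omega)) (by omega)) (by omega))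

theorem T0_77 (X : C W N Q i a b l m c d L U V) (hb : B N Q i a b l m c d L U V)
    (h : N + c ≤ i + a + l + 2*m + 1) :
    False := by
  have b2 := hb.b2
  have b3 := hb.b3
  have b6 := hb.b6
  have b13 := hb.b13
  have b28 := hb.b28
  have b34 := hb.b34
  have b35 := hb.b35
  have b36 := hb.b36
  have b45 := hb.b45
  have g1 := h
  have k1 : a + l + 2*m + 2 ≤ N + c := by clear * - b3 b6 b35 b36; omega
  have k2 : l + 2*m + 2 ≤ N + a + c := by clear * - b2 b6 b34; omega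
  have k3 : i + a + l + c + 2 ≤ N := by clear * - b13 b28 b34 b45; omega
  clear * - X g1 k1 k2 k3
  exact X.al.ninv (-N + i + a + l + 2*m - c + 1) (fin X.al.per 0 _ (pr X.d3 X.al.per 0 (-N + i + a + l + 2*m - c + 1) (pr X.d1 X.al.per 0 (N + i + a + l + c + 1) (af X.s1 X.al.per 0 (N + i + a - l - 2*m + c - 1) (rfl : W (-N + i + a + l + 2*m - c + 1) = W (-N + i + a + l + 2*m - c + 1)) (by omega)) (by omega)) (by omega)) (by omega))

theorem T0_78 (X : C W N Q i a b l m c d L U V) (hb : B N Q i a b l m c d L U V)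
    (h : l + m + c + 2 ≤ 0) :
    False := by
  have b2 := hb.b2
  have b6 := hb.b6
  have b16 := hb.b16
  have b24 := hb.b24
  have b27 := hb.b27
  have b29 := hb.b29
  have b30 := hb.b30
  have b34 := hb.b34
  have b35 := hb.b35
  have b36 := hb.b36
  have b40 := hb.b40
  have b41 := hb.b41
  have b42 := hb.b42
  have b45 := hb.b45
  have g1 := h
  have k1 : 2 ≤ l := by clear * - b24 b27 b29 b30 b34 g1; omega
  have k2 : 1 ≤ a + b := by clear * - b16 b35 b40 b41 b42; omega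
  have k3 : 0 ≤ l + 2*m := by clear * - b40 b41 b42; omega
  have k4 : i + 2*l + 2*m + 2*c + 3 ≤ Q := by clear * - b16 g1; omega
  have k5 : 0 ≤ i + l + 2*c + 2 := by clear * - b6; omega
  have k6 : 0 ≤ 2*b + 3*l + 2*m + 2*c + 4 := by clear * - b16 b29 b35 b40 b41 b42 b45; omega
  have k7 : l + m + c + 2 ≤ a := by clear * - b2 g1; omega
  clear * - X g1 k1 k2 b36 k3 k4 k5 k6 k7
  exact rr2a X.al.ninv (a + b) (l + m + 1) (i + 2*a + b - c) (i + 2*a + 2*b + 2*l + 2*m + 2) (i + 2*a + 2*b + l + 1) (i + 2*a + 2*b + l + 1) (i + l + 1) (by omega) (ne' X.n2.yz.symm X.al.per 0 0 (by omega))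
    (fun t h1 h2 => (fin X.al.per 0 _ (pf X.bb X.al.per 0 (2*a + 2*b + t) (rfl : W (t) = W (t)) (by omega)) (by omega)))
    (fun t h1 h2 => (fin X.al.per 0 _ (pr X.d1 X.al.per 0 (2*l + 2*m + t + 2) (rfl : W (t) = W (t)) (by omega)) (by omega)))
    (fun t h1 h2 => (fin X.al.per 0 _ (af X.s1 X.al.per 0 (2*i + 4*a + 2*b - 2*c - t) (pr X.c1 X.al.per 0 (-2*a - 2*b + 2*c + t) (rfl : W (t) = W (t)) (by omega)) (by omega)) (by omega)))

theorem T0_82 (X : C W N Q i a b l m c d L U V) (hb : B N Q i a b l m c d L U V)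
    (h : 3*a ≤ 2*l + m + 3*c + U + V + 1 ∧ 3*l + 3*m + 3*c + 4 ≤ 3*a + U + V ∧ l + m + c + U + 2 ≤ a + V) :
    False := by
  have b42 := hb.b42
  obtain ⟨g1, g2, g3⟩ := h
  have k1 : a + U ≤ l + m + c + V := by clear * - b42 g1 g3; omega
  have k2 : c + V + 1 ≤ a + m + U := by clear * - b42 g1 g2 g3; omega
  have k3 : a + V ≤ 2*l + 3*m + c + U + 1 := by clear * - b42 g1 g2 g3; omega
  clear * - X g1 g2 g3 k1 k2 k3
  exact X.al.ninv (i + 3*a - 2*l - 3*m - c - U + V - 2) (fin X.al.per 0 _ (pr X.x5 X.al.per 0 (i + 3*a - 2*l - 3*m - c - U + V - 2) (pr X.x5 X.al.per 0 (i + a - m + c - U + V) (pr X.x2 X.al.per 0 (i - a + 2*l + m + 3*c - U + V + 2) (ar X.x4 X.al.per 0 (i - 3*a + 2*l + m + 3*c + U + V + 2) (rfl : W (i + 3*a - 2*l - 3*m - c - U + V - 2) = W (i + 3*a - 2*l - 3*m - c - U + V - 2)) (by omega)) (by omega)) (by omega)) (by omega)) (by omega))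

theorem T0_83 (X : C W N Q i a b l m c d L U V) (hb : B N Q i a b l m c d L U V)
    (h : 4*a + V ≤ 4*l + 4*m + 4*c + 3 ∧ 3*l + 2*m + 4*c + V + 4 ≤ 4*a ∧ 2*l + 2*m + 2*c + 3 ≤ 2*a + V) :
    False := by
  obtain ⟨g1, g2, g3⟩ := h
  clear * - X g1 g2 g3
  exact X.al.ninv (i + 4*a - 3*l - 4*m - 2*c + V - 3) (fin X.al.per 0 _ (pr X.x5 X.al.per 0 (i + 4*a - 3*l - 4*m - 2*c + V - 3) (pr X.x5 X.al.per 0 (i + 2*a - l - 2*m + V - 1) (pr X.x5 X.al.per 0 (i + l + 2*c + V + 1) (ar X.x3 X.al.per 0 (i - 2*a + 3*l + 2*m + 4*c + V + 3) (rfl : W (i + 4*a - 3*l - 4*m - 2*c + V - 3) = W (i + 4*a - 3*l - 4*m - 2*c + V - 3)) (by omega)) (by omega)) (by omega)) (by omega)) (by omega))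

theorem T0_84 (X : C W N Q i a b l m c d L U V) (hb : B N Q i a b l m c d L U V)
    (h : i + 3*l + 2*m + 2*c + 4 ≤ 2*a + 4*b ∧ 2*a + 3*b ≤ N + l + m + c ∧ i + 2*l + 2*m + 3 ≤ 2*a + 4*b ∧ 2*N + l + 2*m + 2*c + 1 ≤ i + 4*a + 4*b ∧ 2*N + 2*l + 2*m + 2*c + 2 ≤ i + 6*a + 6*b) :
    False := by
  have b31 := hb.b31
  have b33 := hb.b33
  have b45 := hb.b45
  obtain ⟨g1, g2, g3, g4, g5⟩ := h
  have k1 : i + 1 ≤ 2*b := by clear * - b33 b45 g3; omega
  have k2 : l + m + c + 2 ≤ 2*a + 3*b := by clear * - b31 b45 g1 g2 g3 g4 g5; omega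
  clear * - X g1 g2 g3 g4 g5 k1 k2
  exact X.al.ubP (2*N - 4*a - 6*b + 2*l + 2*m + 2*c + 2) (by omega) (by omega) fun t h1 h2 => (fin X.al.per 0 _ (pr X.a1 X.al.per 0 (2*N - 4*a - 6*b + 2*l + 2*m + 2*c + t + 2) (pr X.bb X.al.per 0 (2*N - 4*a - 4*b + 2*l + 2*m + 2*c + t + 2) (pr X.d1 X.al.per 0 (2*N - 2*a - 2*b + 2*l + 2*m + 2*c + t + 2) (pf X.c2 X.al.per (-1) (2*N - 2*a - 2*b + 2*c + t) (rfl : W (t) = W (t)) (by omega)) (by omega)) (by omega)) (by omega)) (by omega))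

theorem T0_85 (X : C W N Q i a b l m c d L U V) (hb : B N Q i a b l m c d L U V)
    (h : i + 4*l + 4*m + 5 ≤ 2*N + Q + 2*a ∧ Q + 4*l + 4*m + 4 ≤ 2*N + 2*a + 2*b ∧ N + a ≤ 2*l + 2*m + 1) :
    False := by
  have b6 := hb.b6
  have b32 := hb.b32
  have b35 := hb.b35
  have b37 := hb.b37
  have b40 := hb.b40
  have b41 := hb.b41
  have b42 := hb.b42
  have b44 := hb.b44
  have b45 := hb.b45
  obtain ⟨g1, g2, g3⟩ := h
  have k1 : Q + 2*l + 2*m + 2 ≤ 2*N := by clear * - b44 g2 g3; omega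
  have k2 : i + 2*b + 2*l + 2*m + 3 ≤ 2*N + Q := by clear * - b44 g1 g3; omega
  have k3 : Q + 4*l + 4*m + 4 ≤ 2*N + i + 4*a + 2*b := by clear * - b6 b37 g2; omega
  have k4 : 2*l + 2*m + 3 ≤ 2*N + a := by clear * - b32 b35 b40 b41 b42 b44 b45 g1 g3; omega
  clear * - X g1 g2 g3 k1 k2 b35 k3 k4
  exact X.al.ubQ (-2*N - 2*a + 4*l + 4*m + 4) (by omega) (by omega) fun t h1 h2 => (fin X.al.per 0 _ (pf X.a2 X.al.per 1 (-2*N - 2*a + 4*l + 4*m + t + 4) (pr X.d1 X.al.per 0 (-2*a - 2*b + 4*l + 4*m + t + 4) (pr X.bb X.al.per 0 (-2*a - 2*b + 2*l + 2*m + t + 2) (pr X.d1 X.al.per 0 (2*l + 2*m + t + 2) (rfl : W (t) = W (t)) (by omega)) (by omega)) (by omega)) (by omega)) (by omega))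

theorem T0_86 (X : C W N Q i a b l m c d L U V) (hb : B N Q i a b l m c d L U V)
    (h : 2*i + 4*a + 2*b + l + c + 2 ≤ 2*N + m + 2*U ∧ i + l + 3*c + 2 ≤ m ∧ 2*b + l + 3*m + 2*U + 2 ≤ 2*N + 3*c ∧ l + m + c + 2*U + 2 ≤ 2*a ∧ i + 2*a + 2*b + 2*l + 2*m + 4 ≤ 2*N ∧ 0 ≤ l + m + c) :
    False := by
  have b6 := hb.b6
  have b28 := hb.b28
  have b44 := hb.b44
  have b45 := hb.b45
  obtain ⟨g1, g2, g3, g4, g5, g6⟩ := h
  have k1 : i + 2*a + 2*b + 2*l + m + c + 3 ≤ 2*N := by clear * - b28 b44 b45 g2 g5; omega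
  have k2 : 2*b + 2*l + 3*m + 2*U + 3 ≤ 2*N + c := by clear * - b6 g4 g5; omega
  have k3 : 2*a + 2*b + l + m + 2*U + 1 ≤ 2*N + c := by clear * - b6 b28 b45 g4 g5; omega
  have k4 : 2*a + 2*b + m + 2*U ≤ 2*N + 3*c := by clear * - b28 b45 g3; omega
  have k5 : i + 4*a + 2*b ≤ 2*N + m + c := by clear * - b28 b45 g5 g6; omega
  have k6 : c + 2*U ≤ m := by clear * - b28 b45 g4; omega
  clear * - X g1 g2 g3 g4 g5 g6 k1 k2 k3 k4 k5 k6
  obtain ⟨K0, hL⟩ : ∃ K0 : ℤ, -2*N + 2*i + 4*a + 2*b - 2*m - 2*U + 2 ≤ 2*K0 ∧ -2*N + 2*b + 2*m - 4*c + 2*U + 2 ≤ 2*K0 ∧ -2*N + 4*a + 2*b - 2*l - 2*m - 4*c + 2*U - 2 ≤ 2*K0 ∧ 2*K0 + 2*(l + m + c + 1) - 2 ≤ 2*N - 2*b - 2*l - 2*m - 2*U - 4 ∧ 2*K0 + 2*(l + m + c + 1) - 2 ≤ 2*N - 2*b - 2*m + 4*c - 2*U - 2 ∧ 2*K0 + 2*(l + m + c + 1) - 2 ≤ 2*N - 2*i - 4*a - 2*b + 2*m + 2*U - 2 ∧ 2*K0 + 2*(l + m + c + 1) - 2 ≤ -2*N + 4*a + 2*b + 2*m - 4*c - 2*U - 2 := ⟨((max (-2*N + 4*a + 2*b - 2*l - 2*m - 4*c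 + 2*U - 2) (max (-2*N + 2*b + 2*m - 4*c + 2*U + 2) (-2*N + 2*i + 4*a + 2*b - 2*m - 2*U + 2))) + 1) / 2, by omega⟩
  obtain ⟨R, hR1, hR2, hR⟩ := pw (A := i + 1) (B := 2*N - 2*a - 2*b + 2*c) (γ := l + m + c + 1) (by omega) (fun t h1 h2 => (fin X.al.per 0 _ (pf X.x6 X.al.per 0 (2*l + 2*m + 2*c + t + 2) (rfl : W (t) = W (t)) (by omega)) (by omega))) K0
  exact X.al.ninv (N + i + 2*a + b - m - U - R) (fin X.al.per 1 _ (af X.x1 X.al.per 0 (-N + i + 2*a + b - m - U - R) (pp hR X.al.per 0 (N + i - b - m + 2*c - U + R) (pf X.c2 X.al.per 0 (N + i - b - m + 2*c - U - R) (rfl : W (N + i + 2*a + b - m - U - R) = W (N + i + 2*a + b - m - U - R)) (by omega)) (by omega)) (by omega)) (by omega))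

theorem T0_87 (X : C W N Q i a b l m c d L U V) (hb : B N Q i a b l m c d L U V)
    (h : l + m + c + U + V + 1 ≤ i + 2*a ∧ l + m + c + 2 ≤ U + V ∧ i + 2*a + 2*b + l + m + U + V + 2 ≤ 2*N + c ∧ m + 1 ≤ c + U + V ∧ 2*a + U ≤ 2*l + m + 3*c + V + 2) :
    False := by
  have b13 := hb.b13
  have b42 := hb.b42
  obtain ⟨g1, g2, g3, g4, g5⟩ := h
  have k1 : 2*a ≤ l + m + c + U + V := by clear * - b42 g2 g5; omega
  have k2 : l + 3*c + U + V + 2 ≤ 2*a + m := by clear * - b13 g1; omega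
  clear * - X g1 g2 g3 g4 g5 k1 k2
  exact X.al.ninv (i + 2*a - l - m - c - U - V - 1) (fin X.al.per 0 _ (af X.x1 X.al.per 0 (i + 2*a - l - m - c - U - V - 1) (af' X.x4 X.al.per 0 (i + l - m + 3*c - U + V + 1) (pr X.x6 X.al.per 0 (i - l - m - c + U + V - 1) (af X.s1 X.al.per 0 (i + l + m + c + U + V + 1) (rfl : W (i + 2*a - l - m - c - U - V - 1) = W (i + 2*a - l - m - c - U - V - 1)) (by omega)) (by omega)) (by omega)) (by omega)) (by omega))

theorem T0_88 (X : C W N Q i a b l m c d L U V) (hb : B N Q i a b l m c d L U V)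
    (h : 2*a + 2*b + m ≤ N + l + 3*c ∧ m + 1 ≤ N + 3*c ∧ N + c ≤ i + l + m + 1 ∧ l + m + 2 ≤ N + c) :
    False := by
  have b13 := hb.b13
  have b16 := hb.b16
  have b35 := hb.b35
  have b36 := hb.b36
  obtain ⟨g1, g2, g3, g4⟩ := h
  have k1 : N + 3*c + 1 ≤ 2*a + 2*b + m := by clear * - b13 b16 b35 g3; omega
  have k2 : N + 3*c ≤ l + 3*m := by clear * - b13 g3; omega
  have k3 : 2*a + 2*b + m + 1 ≤ N + c := by clear * - b36 g1 g3; omega
  have k4 : i + l + c + 2 ≤ N + m := by clear * - b13 g4; omega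
  clear * - X g1 g2 g3 g4 k1 k2 k3 k4
  exact X.al.ninv (N + i - 2*a - 2*b + l - m + 3*c + 1) (fin X.al.per 0 _ (pf X.c2 X.al.per 0 (N + i - 2*a - 2*b + l - m + 3*c + 1) (pf X.d3 X.al.per 0 (N + i + l - m + c + 1) (ar X.S2 X.al.per 0 (-N + i + l + m - c + 1) (pf X.bb X.al.per 0 (N + i + l - m + 3*c + 1) (rfl : W (N + i - 2*a - 2*b + l - m + 3*c + 1) = W (N + i - 2*a - 2*b + l - m + 3*c + 1)) (by omega)) (by omega)) (by omega)) (by omega)) (by omega))

theorem T0_89 (X : C W N Q i a b l m c d L U V) (hb : B N Q i a b l m c d L U V)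
    (h : Q + U ≤ i + l + c + 1 ∧ l + 2*m + U + 2 ≤ 2*a + 2*b + c ∧ 2*b + c + U ≤ l + 2*m) :
    False := by
  have b28 := hb.b28
  have b31 := hb.b31
  have b36 := hb.b36
  have b37 := hb.b37
  have b40 := hb.b40
  have b41 := hb.b41
  have b42 := hb.b42
  have b45 := hb.b45
  obtain ⟨g1, g2, g3⟩ := h
  have k1 : l + c + 2 ≤ 2*a + 2*b + U := by clear * - b28 b37 b40 b42 b45 g2; omega
  have k2 : U ≤ l + c := by clear * - b31 b36 b40 b42 b45 g2 g3; omega
  have k3 : c + 1 ≤ U := by clear * - b31 b36 b37 b40 b42 b45 g2; omega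
  have k4 : i + 2*a + 2*b + l + c + 2 ≤ 2*N + U := by clear * - b31 b36 b37 b40 b41 b42 b45 g2; omega
  have k5 : U ≤ 2*b + c := by clear * - b28 b45 g2; omega
  clear * - X g1 g2 g3 k1 k2 k3 k4 k5
  exact X.al.ninv (i - 2*b + l + c - U + 1) (fin X.al.per 0 _ (af X.x1 X.al.per 0 (i - 2*b + l + c - U + 1) (pf X.d1 X.al.per 0 (i + 2*a + 2*b - l - 2*m + c - U - 1) (pf X.bb X.al.per 0 (i + 2*a + 2*b + l + c - U + 1) (pf X.a2 X.al.per 0 (i + l + c - U + 1) (rfl : W (i - 2*b + l + c - U + 1) = W (i - 2*b + l + c - U + 1)) (by omega)) (by omega)) (by omega)) (by omega)) (by omega))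

theorem T0_90 (X : C W N Q i a b l m c d L U V) (hb : B N Q i a b l m c d L U V)
    (h : 2*V ≤ l + 2*m ∧ 2*U ≤ l + 2*m ∧ 3*l + 4*m + 2*c + 2 ≤ 2*a + 2*U + 2*V ∧ 2*a + 2*U + 2*V ≤ 3*l + 4*m + 2*c + 2 ∧ i + 2*U + 2*V ≤ Q + l + 2*m + 1 ∧ (l) % 2 = 0) :
    False := by
  have b2 := hb.b2
  have b28 := hb.b28
  have b40 := hb.b40
  have b45 := hb.b45
  obtain ⟨g1, g2, g3, g4, g5, g6⟩ := h
  have k1 : 2*a ≤ l + 2*m := by clear * - b28 b45; omega
  clear * - X g1 g2 g3 g4 g5 g6 k1 b2 b40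
  obtain ⟨φ, H, T, ht, h0⟩ := exH X.al (i + 2*l + 2*m + 2)
  obtain ⟨DS2, hS2⟩ := ht.ant X.S2 (by omega)
  obtain ⟨Dd2, hd2⟩ := ht.par X.d2 (by omega)
  obtain ⟨Dr1, hr1⟩ := ht.par X.r1 (by omega)
  obtain ⟨Dr2, hr2⟩ := ht.par X.r2 (by omega)
  obtain ⟨Dx1, hx1⟩ := ht.ant X.x1 (by omega)
  obtain ⟨Dx3, hx3⟩ := ht.ant X.x3 (by omega)
  obtain ⟨Dx5, hx5⟩ := ht.par X.x5 (by omega)
  obtain ⟨Dx7, hx7⟩ := ht.par X.x7 (by omega)
  have e1 := hx3 0 0 (i + 2*a) (i - 2*m + 2*c + 2*V + 1) (by omega)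
  have e2 := hx7 0 0 (i + 2*a) (i + 2*a + 2*b) (by omega)
  have e3 := hx5 0 0 (i) (i - 2*a + 2*l + 2*m + 2*c + 2) (by omega)
  have e4 := hd2 0 0 (i + 1) (i + 2*l + 2*m + 3) (by omega)
  have e5 := hr2 0 0 (i + 2*a + 2*b) (i + 2*l + 2*m - 2*V + 2) (by omega)
  have e6 := hS2 0 0 (i + l + 2*c + 1) (i + l + 2) (by omega)
  have e7 := hS2 1 0 (2*N + i - 2*m + 2*c + 1) (i + 2*l + 2*m + 2) (by omega)
  have e8 := hr1 0 0 (i + 2*a + 2*b - l - 2*m - 1) (i + l + 2*U + 1) (by omega)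
  have e9 := hr1 0 0 (i + 2*a + 2*b - l - 2*m + 2*V - 1) (i + l + 2*U + 2*V + 1) (by omega)
  have e10 := hr2 0 0 (i + 2*a + 2*b - l - 2*m + 2*V - 1) (i + l + 1) (by omega)
  have e11 := hx1 0 1 (i + 2*a - l - 2*m - 1) (2*N + i + l + 2*c - 2*U + 2) (by omega)
  have e12 := hx7 0 0 (i + 2*a - l - 2*m - 1) (i + 2*a + 2*b - l - 2*m - 1) (by omega)
  have e13 := hx1 0 1 (i + 2*a - 2*U) (2*N + i - 2*m + 2*c + 1) (by omega)
  have e14 := hx5 0 0 (i + 2*a - 2*U) (i + 2*a - l - 2*m + 2*V) (by omega)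
  have e15 := hS2 1 0 (2*N + i + l + 2*c - 2*U + 2) (i + l + 2*U + 1) (by omega)
  have e16 := hd2 0 0 (i - l - 2*m + 2*U + 2*V - 1) (i + l + 2*U + 2*V + 1) (by omega)
  have e17 := hx3 0 0 (i + 2*a - l - 2*m + 2*V) (i + l + 2*c + 1) (by omega)
  have e18 := hS2 0 0 (i - 2*m + 2*c + 2*V + 1) (i + 2*l + 2*m - 2*V + 2) (by omega)
  have e19 := ht.lt (i + 2*l + 2*m + 2) 0 0 (i + 2*l + 2*m + 2) (i + 2*l + 2*m + 3) (by omega)
  have e20 := ht.lt (i) 0 0 (i) (i + 1) (by omega)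
  have e21 := ht.ze 0 0 (i + l + 1) (i + l + 2) (by omega)
  have e22 := ht.ze 0 0 (i - l - 2*m + 2*U + 2*V - 1) (i - 2*a + 2*l + 2*m + 2*c + 2) (by omega)
  have t2 := ht.tri X.n3
  omega

theorem T0_91 (X : C W N Q i a b l m c d L U V) (hb : B N Q i a b l m c d L U V)
    (h : 2*l + 2*m + 2*c + 2 ≤ i + 2*a + U ∧ 2*a + U ≤ 2*l + 2*m + 2*c + 1 ∧ l + 2*m + 2 ≤ U + 2*V ∧ l + 2*c + 2 ≤ U) :
    False := by
  have b2 := hb.b2
  have b38 := hb.b38
  have b41 := hb.b41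
  have b42 := hb.b42
  obtain ⟨g1, g2, g3, g4⟩ := h
  have k1 : U ≤ l + 2*m := by clear * - b41 b42 g3; omega
  have k2 : U ≤ 2*l + 2*m + 2*c + 1 := by clear * - b2 g2; omega
  clear * - X g1 g2 g3 g4 k1 b38 k2
  exact X.al.ninv (i + 2*a - 2*l - 2*m - 2*c + U - 2) (fin X.al.per 0 _ (pr X.x5 X.al.per 0 (i + 2*a - 2*l - 2*m - 2*c + U - 2) (pf X.x2 X.al.per 0 (i + U) (pr X.x5 X.al.per 0 (i + 2*a - U) (af X.s1 X.al.per 0 (i + 2*l + 2*m + 2*c - U + 2) (rfl : W (i + 2*a - 2*l - 2*m - 2*c + U - 2) = W (i + 2*a - 2*l - 2*m - 2*c + U - 2)) (by omega)) (by omega)) (by omega)) (by omega)) (by omega))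

theorem M0 (X : C W N Q i a b l m c d L U V) (hb : B N Q i a b l m c d L U V)
    (h2 : (-a - m + c + U + V - 1) < 0)
    (h3 : (-a + l + m + c - U + 1) < 0)
    (h4 : (-2*a + 2*l + 2*m + 2*c - V + 1) < 0)
    (h5 : (a - l - m - c - 1) < 0) : False := by
  have b3 := hb.b3
  have b6 := hb.b6
  have b13 := hb.b13
  have b16 := hb.b16
  have b19 := hb.b19
  have b24 := hb.b24
  have b28 := hb.b28
  have b31 := hb.b31
  have b35 := hb.b35
  have b36 := hb.b36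
  have b45 := hb.b45
  rcases lt_or_ge (l + 2*m - 2*U) 0 with h6 | h6
  · exact T0_9 X hb ⟨by clear * - h2 h5 h6; omega, by clear * - h5; omega⟩
  rcases lt_or_ge (2*a - 3*l - 4*m - 2*c + 2*U + 2*V - 3) 0 with h7 | h7
  · rcases lt_or_ge (a + m - c - 2*V - 1) 0 with h8 | h8
    · rcases lt_or_ge (-2*a + l + 2*c + U + V) 0 with h9 | h9
      · rcases lt_or_ge (-3*a + 3*l + 3*m + 3*c - V + 2) 0 with h10 | h10
        · rcases lt_or_ge (-3*a + 2*l + m + 3*c + U + V + 1) 0 with h11 | h11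
          · rcases lt_or_ge (-4*a + 4*l + 4*m + 4*c - V + 3) 0 with h12 | h12
            · rcases lt_or_ge (-N + b + 2*l + 3*m - U + 1) 0 with h13 | h13
              · rcases lt_or_ge (-N + i + 2*a + b + m - 2*c) 0 with h14 | h14
                · rcases lt_or_ge (N - i - l - 2) 0 with h15 | h15
                  · rcases lt_or_ge (i + a - b) 0 with h16 | h16
                    · rcases lt_or_ge (i + a - l - m - c - 1) 0 with h17 | h17
                      · rcases lt_or_ge (-N + 2*a + b + l + 2*m - c - U) 0 with h18 | h18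
                        · rcases lt_or_ge (-N - a - b + 2*l + 3*m - c + 1) 0 with h19 | h19
                          · rcases lt_or_ge (2*a - l - m - c - 2*U - 2) 0 with h20 | h20
                            · exact T0_30 X hb ⟨by clear * - b6 h8 h17; omega, by clear * - h5 h12 h20; omega, by clear * - h7 h8 h12 h20; omega⟩
                            exact T0_86 X hb ⟨by clear * - b28 b45 h3 h7 h8 h17 h18 h20; omega, by clear * - b28 b45 h3 h11 h12 h17; omega, by clear * - h3 h7 h8 h18 h20; omega, by clear * - h20; omega, by clear * - h5 h11 h12 h17 h18; omega, by clear * - h3 h7 h8 h20; omega⟩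
                          exact T0_27 X hb ⟨by clear * - h19; omega, by clear * - b16 b19 b28 b35 h3 h11 h12 h16 h17 h19; omega⟩
                        exact T0_24 X hb ⟨by clear * - b6 h7 h8 h12 h13 h17 h18; omega, by clear * - b28 b45 h3 h11 h12 h13 h17 h18; omega, by clear * - h18; omega⟩
                      rcases lt_or_ge (-a + m - c - 1) 0 with h21 | h21
                      · rcases lt_or_ge (-2*N + i + 4*a + 4*b - 2*c) 0 with h22 | h22
                        · rcases lt_or_ge (a - l - 2*c + U - V - 2) 0 with h23 | h23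
                          · exact T0_17 X hb ⟨by clear * - h3 h23; omega, by clear * - b28 b45 h3 h23; omega⟩
                          exact T0_23 X hb ⟨by clear * - h8 h21 h23; omega, by clear * - h7 h8 h21 h23; omega, by clear * - h23; omega⟩
                        rcases lt_or_ge (N - a - 2*b + c - 1) 0 with h24 | h24
                        · rcases lt_or_ge (-Q + i - a + l + c + 1) 0 with h25 | h25
                          · exact T0_18 X hb (by clear * - h15 h16 h25; omega)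
                          rcases lt_or_ge (-a - 2*b + l + 2*m - c) 0 with h26 | h26
                          · rcases lt_or_ge (-2*b + l + 2*m - c - U) 0 with h27 | h27
                            · rcases lt_or_ge (-N + Q - i + b - c - 1) 0 with h28 | h28
                              · rcases lt_or_ge (i - 2*b + l + m + 1) 0 with h29 | h29
                                · rcases lt_or_ge (2*a - 3*l - 4*m - 2*c + 2*U + 2*V - 2) 0 with h30 | h30
                                  · rcases lt_or_ge (N - 2*a - 3*b + l + m + c) 0 with h31 | h31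
                                    · rcases lt_or_ge (2*N + 2*a - 2*l - 2*m - L - 4) 0 with h32 | h32
                                      · rcases lt_or_ge (2*N + Q - i + 2*a - 4*l - 4*m - 5) 0 with h33 | h33
                                        · rcases lt_or_ge (-i - l + m - 3*c - 2) 0 with h34 | h34
                                          · rcases lt_or_ge (-l - m - c + U + V - 2) 0 with h35 | h35
                                            · exact T0_17 X hb ⟨by clear * - h3 h8 h35; omega, by clear * - b28 b45 h3 h8 h35; omega⟩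
                                            rcases lt_or_ge (i + 2*a - l - m - c - U - V - 1) 0 with h36 | h36
                                            · exact T0_17 X hb ⟨by clear * - h12 h30 h34 h35 h36; omega, by clear * - h3 h21 h30 h35; omega⟩
                                            exact T0_87 X hb ⟨by clear * - h36; omega, by clear * - h35; omega, by clear * - h11 h14 h21 h30 h35 h36; omega, by clear * - h21 h30 h35; omega, by clear * - h8 h21 h30 h35; omega⟩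
                                          exact T0_86 X hb ⟨by clear * - h5 h13 h17 h21 h34; omega, by clear * - h34; omega, by clear * - h6 h8 h13 h21 h30; omega, by clear * - h8 h12 h21 h30; omega, by clear * - h5 h14 h17 h21 h34; omega, by clear * - h5 h17 h21 h34; omega⟩
                                        exact T0_85 X hb ⟨by clear * - h33; omega, by clear * - h11 h12 h16 h17 h27 h28 h29 h31 h33; omega, by clear * - b45 h3 h8 h12 h21 h30 h32; omega⟩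
                                      exact T0_55 X hb ⟨by clear * - h28 h29 h31; omega, by clear * - b13 h5 h15 h21; omega, by clear * - h32; omega⟩
                                    rcases lt_or_ge (-2*N + i + 6*a + 6*b - 2*l - 2*m - 2*c - 2) 0 with h37 | h37
                                    · rcases lt_or_ge (-N - a + 2*l + 2*m + 1) 0 with h38 | h38
                                      · exact T0_88 X hb ⟨by clear * - h15 h21 h24 h26 h31 h37; omega, by clear * - h5 h21 h38; omega, by clear * - b28 b45 h3 h12 h15 h21 h30; omega, by clear * - h5 h38; omega⟩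
                                      rcases lt_or_ge (2*N + Q - i + 2*a - 4*l - 4*m - 5) 0 with h39 | h39
                                      · rcases lt_or_ge (-l - 2*c + U - 2) 0 with h40 | h40
                                        · exact T0_17 X hb ⟨by clear * - h3 h8 h40; omega, by clear * - b28 b45 h3 h8 h40; omega⟩
                                        exact T0_91 X hb ⟨by clear * - h17 h21 h40; omega, by clear * - h8 h21 h30 h40; omega, by clear * - h8 h21 h40; omega, by clear * - h40; omega⟩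
                                      exact T0_85 X hb ⟨by clear * - h39; omega, by clear * - h11 h12 h17 h27 h28 h29 h37 h38 h39; omega, by clear * - h38; omega⟩
                                    exact T0_84 X hb ⟨by clear * - h3 h8 h12 h17 h29 h30; omega, by clear * - h31; omega, by clear * - h29 h31 h37; omega, by clear * - h17 h21 h24; omega, by clear * - h37; omega⟩
                                  rcases (Int.emod_two_eq_zero_or_one l).symm with h41 | h41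
                                  · exact by clear * - h7 h30 h41; omega
                                  exact T0_90 X hb ⟨by clear * - h3 h7; omega, by clear * - h6; omega, by clear * - h30; omega, by clear * - h7; omega, by clear * - b3 h5 h11 h21; omega, by clear * - h41; omega⟩
                                exact T0_76 X hb ⟨by clear * - h29; omega, by clear * - h16 h17 h21 h29; omega, by clear * - b28 b45 h8 h11 h26 h27; omega⟩
                              exact T0_18 X hb (by clear * - h28; omega)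
                            exact T0_89 X hb ⟨by clear * - h25 h26 h27; omega, by clear * - h26 h27; omega, by clear * - h27; omega⟩
                          exact T0_19 X hb ⟨by clear * - h25; omega, by clear * - h26; omega, by clear * - b19 b28 h5 h21 h24; omega⟩
                        exact T0_11 X hb ⟨by clear * - h24; omega, by clear * - h22; omega⟩
                      exact T0_6 X hb ⟨by clear * - h17; omega, by clear * - h5; omega, by clear * - h21; omega⟩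
                    exact T0_0 X hb (by clear * - h16; omega)
                  rcases lt_or_ge (-N + l + 2*m - 2*c) 0 with h42 | h42
                  · exact T0_88 X hb ⟨by clear * - b31 b45 h3 h11 h12 h13 h14 h15 h42; omega, by clear * - b24 b31 h15 h42; omega, by clear * - b28 b31 b45 h3 h11 h12 h15 h42; omega, by clear * - b28 b45 h3 h7 h8 h12 h42; omega⟩
                  exact T0_7 X hb ⟨by clear * - b24 b31 h7 h8 h12 h13 h14 h15; omega, by clear * - h42; omega, by clear * - h15; omega⟩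
                exact T0_10 X hb ⟨by clear * - h14; omega, by clear * - h5 h7 h8 h13; omega⟩
              exact T0_25 X hb ⟨by clear * - h3 h13; omega, by clear * - h13; omega, by clear * - b6 b36 h8 h11 h13; omega⟩
            exact T0_83 X hb ⟨by clear * - h12; omega, by clear * - h3 h11; omega, by clear * - h10 h12; omega⟩
          exact T0_82 X hb ⟨by clear * - h11; omega, by clear * - h3 h9 h10 h11; omega, by clear * - h7 h10 h11; omega⟩
        exact T0_26 X hb ⟨by clear * - h10; omega, by clear * - h3 h9; omega, by clear * - h4 h10; omega⟩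
      exact T0_14 X hb ⟨by clear * - h9; omega, by clear * - h3 h4 h7 h9; omega, by clear * - h4 h7 h9; omega⟩
    exact T0_9 X hb ⟨by clear * - h8; omega, by clear * - h5; omega⟩
  exact T0_33 X hb ⟨by clear * - h6; omega, by clear * - h5; omega, by clear * - h7; omega⟩

theorem main (X : C W N Q i a b l m c d L U V) (hb : B N Q i a b l m c d L U V) : False := by
  have b3 := hb.b3
  have b13 := hb.b13
  have b19 := hb.b19
  have b28 := hb.b28
  have b36 := hb.b36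
  have b40 := hb.b40
  have b41 := hb.b41
  have b42 := hb.b42
  have b44 := hb.b44
  have b45 := hb.b45
  rcases lt_or_ge (-N + i + a + l + 2*m - c + 1) 0 with h1 | h1
  · rcases lt_or_ge (-a - m + c + U + V - 1) 0 with h2 | h2
    · rcases lt_or_ge (-a + l + m + c - U + 1) 0 with h3 | h3
      · rcases lt_or_ge (-2*a + 2*l + 2*m + 2*c - V + 1) 0 with h4 | h4
        · rcases lt_or_ge (a - l - m - c - 1) 0 with h5 | h5
          · exact M0 X hb h2 h3 h4 h5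
          rcases lt_or_ge (-a + l + m + c + 1) 0 with h43 | h43
          · rcases lt_or_ge (-l - m - c - 2) 0 with h44 | h44
            · rcases lt_or_ge (2*N - i - 4*a - 2*b + 2*c) 0 with h45 | h45
              · rcases lt_or_ge (-N + Q - i + b - c - 1) 0 with h46 | h46
                · rcases lt_or_ge (-a + 2*l + 3*m + c - 2*U + 2) 0 with h47 | h47
                  · rcases lt_or_ge (-2*a + l + 2*c + 2*U + 2*V + 1) 0 with h48 | h48
                    · rcases lt_or_ge (-l - m - c - 1) 0 with h49 | h49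
                      · rcases lt_or_ge (2*N + Q - i - 2*a - 4*b - l - 2) 0 with h50 | h50
                        · rcases lt_or_ge (N + i + a - 2*b - l - m - 1) 0 with h51 | h51
                          · rcases lt_or_ge (-N + a + b + l + 2*m - c + V) 0 with h52 | h52
                            · exact T0_56 X hb ⟨by clear * - b40 b41 b42 h45 h49 h52; omega, by clear * - b13 b28 b45 h45 h49 h52; omega, by clear * - b28 b40 b41 b45 h45 h49 h52; omega, by clear * - b28 b45 h43 h49 h52; omega, by clear * - h49 h52; omega⟩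
                            rcases lt_or_ge (-N + a + b - c + 2*U + V - 1) 0 with h53 | h53
                            · rcases lt_or_ge (N - a - b - m + 2*c - 1) 0 with h54 | h54
                              · exact T0_62 X hb ⟨by clear * - b28 b45 h47 h49 h53; omega, by clear * - h47 h49 h53 h54; omega⟩
                              rcases lt_or_ge (-N + a + b + l + 3*m - 2*c - 2*V) 0 with h55 | h55
                              · rcases lt_or_ge (2*N - i - 2*b - 3*l - 4*m - 4) 0 with h56 | h56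
                                · exact T0_54 X hb ⟨by clear * - h47 h52 h53 h56; omega, by clear * - b36 h47 h53 h54 h55 h56; omega⟩
                                exact T0_48 X hb ⟨by clear * - h56; omega, by clear * - h45; omega, by clear * - b44 h45 h51 h54; omega, by clear * - b28 b45 h45 h47 h53 h54 h55; omega⟩
                              exact T0_57 X hb ⟨by clear * - h55; omega, by clear * - h54; omega, by clear * - b28 b45 h47 h53 h54 h55; omega, by clear * - b28 b45 h45; omega, by clear * - b3 b13 h45; omega⟩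
                            rcases lt_or_ge (N - i - a - b - l - c - V - 2) 0 with h57 | h57
                            · rcases lt_or_ge (-2*N + i + 3*l + 2*m + 3) 0 with h58 | h58
                              · exact T0_51 X hb ⟨by clear * - h50 h58; omega, by clear * - b36 b42 h48 h53 h57; omega, by clear * - b42 h43 h57 h58; omega⟩
                              rcases lt_or_ge (2*N + 2*a - 2*l - 2*m - L - 4) 0 with h59 | h59
                              · rcases lt_or_ge (-N + i + 3*a + 2*b + m - c) 0 with h60 | h60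
                                · rcases lt_or_ge (2*N - i - 2*b - 3*l - 4*m - 4) 0 with h61 | h61
                                  · rcases lt_or_ge (-N + a + b + l + 3*m - 2*c - 2*V) 0 with h62 | h62
                                    · exact T0_53 X hb ⟨by clear * - b19 b28 h47 h48 h49 h60 h61 h62; omega, by clear * - b13 h48 h53 h61 h62; omega, by clear * - b42 h52 h53; omega⟩
                                    rcases lt_or_ge (N - a - b - m + 2*c - 1) 0 with h63 | h63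
                                    · exact T0_63 X hb ⟨by clear * - b3 h48 h49 h53; omega, by clear * - b36 h49 h57; omega, by clear * - b19 b28 h47 h53 h57 h60 h63; omega⟩
                                    exact T0_57 X hb ⟨by clear * - h62; omega, by clear * - h63; omega, by clear * - b19 b28 h47 h48 h60 h61 h63; omega, by clear * - h43 h61; omega, by clear * - b3 h48 h52 h53; omega⟩
                                  exact T0_48 X hb ⟨by clear * - h61; omega, by clear * - h48 h53 h57; omega, by clear * - b42 b44 h51 h57 h61; omega, by clear * - b19 b28 h47 h48 h57 h60; omega⟩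
                                exact T0_60 X hb ⟨by clear * - h60; omega, by clear * - b45 h43 h59; omega⟩
                              rcases lt_or_ge (-Q + 2*a + 4*b - 2*l - 2*m - 2) 0 with h64 | h64
                              · exact T0_58 X hb ⟨by clear * - b36 h64; omega, by clear * - b28 b36 b45 h46 h47 h48 h51 h53 h57 h64; omega, by clear * - b28 b45 h47 h48 h49 h51 h53 h57 h58 h59; omega⟩
                              exact T0_55 X hb ⟨by clear * - h64; omega, by clear * - h58; omega, by clear * - h59; omega⟩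
                            exact T0_3 X hb ⟨by clear * - h53; omega, by clear * - h57; omega⟩
                          rcases lt_or_ge (-N - Q + i + a + 2*b + l + m + 1) 0 with h65 | h65
                          · exact T0_38 X hb ⟨by clear * - h46 h50 h65; omega, by clear * - b28 b45 h45 h46 h65; omega⟩
                          exact T0_50 X hb ⟨by clear * - h51; omega, by clear * - h65; omega⟩
                        exact T0_20 X hb ⟨by clear * - h50; omega, by clear * - b28 b45 h1 h45; omega, by clear * - b44 h46 h49; omega⟩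
                      exact T0_65 X hb ⟨by clear * - h44; omega, by clear * - h49; omega⟩
                    exact T0_68 X hb ⟨by clear * - h44; omega, by clear * - h43; omega, by clear * - h48; omega⟩
                  rcases lt_or_ge (-2*N + Q - i + a + 2*b + l + 3*m - 3*c) 0 with h66 | h66
                  · exact T0_54 X hb ⟨by clear * - b28 b45 h45; omega, by clear * - b3 h43 h66; omega⟩
                  rcases lt_or_ge (-2*N + 3*a + 2*b + l + 3*m - 3*c) 0 with h67 | h67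
                  · exact T0_54 X hb ⟨by clear * - b28 b45 h45; omega, by clear * - h43 h67; omega⟩
                  exact T0_42 X hb ⟨by clear * - h47; omega, by clear * - h67; omega, by clear * - h43; omega⟩
                exact T0_18 X hb (by clear * - h46; omega)
              exact T0_41 X hb ⟨by clear * - h44; omega, by clear * - h43; omega, by clear * - h45; omega⟩
            exact T0_78 X hb (by clear * - h44; omega)
          exact T0_5 X hb ⟨by clear * - h43; omega, by clear * - h5; omega⟩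
        exact T0_4 X hb ⟨by clear * - h4; omega, by clear * - h2 h3; omega⟩
      exact T0_2 X hb ⟨by clear * - h3; omega, by clear * - b40 h2 h3; omega⟩
    exact T0_1 X hb (by clear * - h2; omega)
  exact T0_77 X hb (by clear * - h1; omega)

theorem Dx1 (X : C0 W N Q i a b l m c d L U V) (hb : B N Q i a b l m c d L U V) :
    Ant W (i + 2*a - l - 2*m - 1) (i + 2*a - 2*U) (2*i + 2*a - 2*m + 2*c - 2*U) := by
  have b35 := hb.b35
  have b38 := hb.b38
  have b39 := hb.b39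
  have b40 := hb.b40
  have b42 := hb.b42
  intro t h1 h2
  have hn : 2*U ≤ l + 2*m := by clear * - h1 h2; omega
  have k1 : Q + l + 2*m + 1 ≤ i + 2*a + 2*b := by clear * - b35; omega
  have k2 : Q + 2*U + 1 ≤ i + 2*a + 2*b := by clear * - b35 hn; omega
  have k3 : 0 ≤ l + 2*m := by clear * - b40 b42 hn; omega
  have k4 : 0 ≤ U := by clear * - b40 b42; omega
  have k5 : 2*U ≤ l + 2*m := by clear * - hn; omega
  have k6 : 1 ≤ V := by clear * - b39; omega
  have k7 : l + 2*m + 1 ≤ 2*U + 2*V := by clear * - b40; omega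
  have k8 : 1 ≤ U := by clear * - b38; omega
  have k9 : 1 ≤ l + 2*m := by clear * - b40 b42 hn; omega
  clear * - X h1 h2 k1 k2 k3 k4 k5 k6 k7 k8 k9
  exact (fin X.al.per 0 _ (ar X.S2 X.al.per 0 (2*i + 2*a - 2*m + 2*c - 2*U - t) (pf X.r1 X.al.per 0 (-2*a + 2*l + 2*m + 2*U + t + 2) (pf X.a2 X.al.per 0 (2*b + t) (rfl : W (t) = W (t)) (by omega)) (by omega)) (by omega)) (by omega))

theorem Dx2 (X : C0 W N Q i a b l m c d L U V) (hb : B N Q i a b l m c d L U V) :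
    Par W (i + 2*a - 2*U + 1) (i + 2*a - l - 2*m + 2*V - 1) (-2*a + 2*U) := by
  have b34 := hb.b34
  have b35 := hb.b35
  have b38 := hb.b38
  have b39 := hb.b39
  have b41 := hb.b41
  have b42 := hb.b42
  intro t h1 h2
  have hn : l + 2*m + 3 ≤ 2*U + 2*V := by clear * - h1 h2; omega
  have k1 : Q + 2*U ≤ i + 2*a + 2*b + 1 := by clear * - b35 b41; omega
  have k2 : Q + l + 2*m + 2 ≤ i + 2*a + 2*b + 2*V := by clear * - b35 b41 hn; omega
  have k3 : 1 ≤ U := by clear * - b38; omega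
  have k4 : 2*V ≤ l + 2*m + 1 := by clear * - b42; omega
  have k5 : 2*U ≤ l + 2*m + 2 := by clear * - b41; omega
  have k6 : 1 ≤ V := by clear * - b39; omega
  have k7 : l + 2*m + 3 ≤ 2*U + 2*V := by clear * - hn; omega
  have k8 : i + 2*l + 2*m + 4 ≤ 2*N := by clear * - b34 b41 b42 hn; omega
  have k9 : i + l + 2*U + 2*V + 1 ≤ 2*N := by clear * - b34 b41 b42; omega
  clear * - X h1 h2 k1 k2 k3 k4 k5 k6 k7 k8 k9
  exact (fin X.al.per 0 _ (pf X.d1 X.al.per 0 (-2*a + 2*U + t) (pf X.r1 X.al.per 0 (-2*a + 2*l + 2*m + 2*U + t + 2) (pf X.a2 X.al.per 0 (2*b + t) (rfl : W (t) = W (t)) (by omega)) (by omega)) (by omega)) (by omega))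

theorem Dx3 (X : C0 W N Q i a b l m c d L U V) (hb : B N Q i a b l m c d L U V) :
    Ant W (i + 2*a - l - 2*m + 2*V) (i + 2*a) (2*i + 2*a - 2*m + 2*c + 2*V) := by
  have b35 := hb.b35
  have b38 := hb.b38
  have b40 := hb.b40
  have b41 := hb.b41
  intro t h1 h2
  have hn : 2*V + 1 ≤ l + 2*m := by clear * - h1 h2; omega
  have k1 : Q + l + 2*m ≤ i + 2*a + 2*b + 2*V := by clear * - b35 b40 b41; omega
  have k2 : Q + 1 ≤ i + 2*a + 2*b := by clear * - b35 b40 b41 hn; omega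
  have k3 : 2*V + 1 ≤ l + 2*m := by clear * - hn; omega
  have k4 : 2*V ≤ l + 2*m := by clear * - hn; omega
  have k5 : 1 ≤ U := by clear * - b38; omega
  have k6 : l + 2*m + 1 ≤ 2*U + 2*V := by clear * - b40; omega
  have k7 : 1 ≤ l + 2*m := by clear * - b40 b41 hn; omega
  have k8 : 0 ≤ V := by clear * - b40 b41; omega
  clear * - X h1 h2 k1 k2 k3 k4 k5 k6 k7 k8
  exact (fin X.al.per 0 _ (ar X.S2 X.al.per 0 (2*i + 2*a - 2*m + 2*c + 2*V - t) (pf X.r2 X.al.per 0 (-2*a + 2*l + 2*m - 2*V + t + 2) (pf X.a2 X.al.per 0 (2*b + t) (rfl : W (t) = W (t)) (by omega)) (by omega)) (by omega)) (by omega))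

theorem Dx4 (X : C0 W N Q i a b l m c d L U V) (hb : B N Q i a b l m c d L U V) :
    Ant W (i + 1) (i - l - 2*m + 2*U + 2*V - 1) (2*i - 2*m + 2*c + 2*V) := by
  have b38 := hb.b38
  have b39 := hb.b39
  have b41 := hb.b41
  have b42 := hb.b42
  have b43 := hb.b43
  intro t h1 h2
  have hn : l + 2*m + 3 ≤ 2*U + 2*V := by clear * - h1 h2; omega
  have k1 : l + 2*m + 3 ≤ 2*U + 2*V := by clear * - hn; omega
  have k2 : 1 ≤ l := by clear * - b43 hn; omega
  have k3 : U + V ≤ l + m + 1 := by clear * - b43; omega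
  have k4 : 2*V ≤ l + 2*m + 2 := by clear * - b42; omega
  have k5 : 1 ≤ U := by clear * - b38; omega
  have k6 : 1 ≤ V := by clear * - b39; omega
  have k7 : 2*U ≤ l + 2*m + 1 := by clear * - b41; omega
  have k8 : 2*V ≤ l + 2*m + 1 := by clear * - b42; omega
  clear * - X h1 h2 k1 k2 k3 k4 k5 k6 k7 k8
  exact (fin X.al.per 0 _ (ar X.S2 X.al.per 0 (2*i - 2*m + 2*c + 2*V - t) (pf X.r2 X.al.per 0 (2*l + 2*m - 2*V + t + 2) (pf X.bb X.al.per 0 (2*a + 2*b + t) (rfl : W (t) = W (t)) (by omega)) (by omega)) (by omega)) (by omega))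

theorem Dx5 (X : C0 W N Q i a b l m c d L U V) (hb : B N Q i a b l m c d L U V) :
    Par W (i + 2*a - l - 2*m) (i + 2*a) (-2*a + 2*l + 2*m + 2*c + 2) := by
  have b16 := hb.b16
  have b35 := hb.b35
  have b36 := hb.b36
  intro t h1 h2
  have hn : 1 ≤ l + 2*m := by clear * - h1 h2; omega
  have k1 : Q + l + 2*m ≤ i + 2*a + 2*b := by clear * - b35; omega
  have k2 : Q + 1 ≤ i + 2*a + 2*b := by clear * - b35 hn; omega
  have k3 : 1 ≤ l + 2*m := by clear * - hn; omega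
  have k4 : l + 2*m + 1 ≤ 2*a + 2*b := by clear * - b16 b35; omega
  have k5 : 1 ≤ a + b := by clear * - b16 b35 hn; omega
  have k6 : i + 2*a + 2*b + l + 3 ≤ 2*N := by clear * - b36 hn; omega
  have k7 : i + 2*a + 2*b + 2*l + 2*m + 2 ≤ 2*N := by clear * - b36; omega
  clear * - X h1 h2 k1 k2 k3 k4 k5 k6 k7
  exact (fin X.al.per 0 _ (pf X.c2 X.al.per 0 (-2*a + 2*l + 2*m + 2*c + t + 2) (pr X.d1 X.al.per 0 (2*b + 2*l + 2*m + t + 2) (pf X.a2 X.al.per 0 (2*b + t) (rfl : W (t) = W (t)) (by omega)) (by omega)) (by omega)) (by omega))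

theorem Dx6 (X : C0 W N Q i a b l m c d L U V) (hb : B N Q i a b l m c d L U V) :
    Par W (i + 1) (2*N - 2*a - 2*b - 2*l - 2*m - 2) (2*l + 2*m + 2*c + 2) := by
  have b16 := hb.b16
  have b24 := hb.b24
  have b30 := hb.b30
  have b31 := hb.b31
  have b34 := hb.b34
  have b35 := hb.b35
  have b40 := hb.b40
  have b41 := hb.b41
  have b42 := hb.b42
  intro t h1 h2
  have hn : i + 2*a + 2*b + 2*l + 2*m + 4 ≤ 2*N := by clear * - h1 h2; omega
  have k1 : i + 2*a + 2*b + 2*l + 2*m + 4 ≤ 2*N := by clear * - hn; omega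
  have k2 : 1 ≤ l := by clear * - b24 b31 b34; omega
  have k3 : 2*N ≤ i + 2*a + 2*b + 3*l + 2*m + 3 := by clear * - b24 b30; omega
  have k4 : 0 ≤ a + b := by clear * - b16 b35 b40 b41 b42; omega
  have k5 : i + 2*l + 2*m + 4 ≤ 2*N := by clear * - b34 b40 b41 b42; omega
  have k6 : 0 ≤ l + 2*m + 1 := by clear * - b40 b41 b42; omega
  have k7 : i + 2*a + 2*b + l + 3 ≤ 2*N := by clear * - b40 b41 b42 hn; omega
  clear * - X h1 h2 k1 k2 k3 k4 k5 k6 k7
  exact (fin X.al.per 0 _ (pf X.c2 X.al.per 0 (2*l + 2*m + 2*c + t + 2) (pr X.d1 X.al.per 0 (2*a + 2*b + 2*l + 2*m + t + 2) (pf X.bb X.al.per 0 (2*a + 2*b + t) (rfl : W (t) = W (t)) (by omega)) (by omega)) (by omega)) (by omega))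

theorem Dx7 (X : C0 W N Q i a b l m c d L U V) (hb : B N Q i a b l m c d L U V) :
    Par W (i + 2*a - l - 2*m - 1) (i + 2*a) (2*b) := by
  have b35 := hb.b35
  intro t h1 h2
  have hn : 0 ≤ l + 2*m := by clear * - h1 h2; omega
  have k1 : Q + l + 2*m + 1 ≤ i + 2*a + 2*b := by clear * - b35; omega
  have k2 : Q + 1 ≤ i + 2*a + 2*b := by clear * - b35 hn; omega
  have k3 : 0 ≤ l + 2*m := by clear * - hn; omega
  clear * - X h1 h2 k1 k2 k3
  exact (fin X.al.per 0 _ (pf X.a2 X.al.per 0 (2*b + t) (rfl : W (t) = W (t)) (by omega)) (by omega))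

theorem Dx8 (X : C0 W N Q i a b l m c d L U V) (hb : B N Q i a b l m c d L U V) :
    Par W (i + 2*a - l - 2*m - 1) (i + 2*a - l - 2*m) (2*b + 2*l + 2*m + 2) := by
  have b9 := hb.b9
  have b16 := hb.b16
  have b35 := hb.b35
  have b40 := hb.b40
  have b41 := hb.b41
  have b42 := hb.b42
  intro t h1 h2
  have k1 : Q + l + 2*m + 1 ≤ i + 2*a + 2*b := by clear * - b35; omega
  have k2 : 0 ≤ l + 2*m := by clear * - b40 b41 b42; omega
  have k3 : l + 2*m + 2 ≤ 2*a + 2*b := by clear * - b16 b35; omega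
  have k4 : i + 2*a + 2*b + l + 2 ≤ 2*N := by clear * - b9; omega
  clear * - X h1 h2 k1 k2 k3 k4
  exact (fin X.al.per 0 _ (pr X.d1 X.al.per 0 (2*b + 2*l + 2*m + t + 2) (pf X.a2 X.al.per 0 (2*b + t) (rfl : W (t) = W (t)) (by omega)) (by omega)) (by omega))

theorem main0 (X : C0 W N Q i a b l m c d L U V) (hb : B N Q i a b l m c d L U V) : False := by
  exact main ⟨X.al, X.a1, X.a2, X.s1, X.s2, X.bb, X.c1, X.c2, X.S2, X.d1, X.d2, X.d3, X.r1, X.r2, Dx1 X hb, Dx2 X hb, Dx3 X hb, Dx4 X hb, Dx5 X hb, Dx6 X hb, Dx7 X hb, Dx8 X hb, X.n1, X.n2, X.n3, X.lam⟩ hb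


end Pool.Agent.MP_a38735_al.WL.E22h
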