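import Pool.Agent.MP_a38735_al.AQ

set_option autoImplicit false
set_option linter.unusedVariables false
set_option linter.unusedSimpArgs false

namespace Pool.Agent.MP_a38735_al.WL.E22o

variable {G : Type*} [Group G]

structure C (W : ℤ → G) (N Q i a b l m c d L : ℤ) : Prop where
  al : AL W (2*N) Q
  a1 : Par W (0) (i + 2*a) (2*b)
  a2 : Par W (Q - 2*b) (i + 2*a) (2*b)
  s1 : Ant W (0) (i) (2*i + 2*a)
  s2 : Ant W (i + 2*a + 1) (Q) (2*i + 2*a)
  bb : Par W (i + 1) (i + l + 1) (2*a + 2*b)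
  c1 : Par W (i + l + 2*c + 2) (Q) (2*a + 2*b - 2*c)
  c2 : Par W (i + 2*a + 2*b + l + 2) (2*N) (-2*a - 2*b + 2*c)
  S2 : Ant W (i - 2*m + 2*c) (i + l + 2*c + 1) (2*i + 2*l + 2*c + 2)
  d1 : Par W (i + 2*l + 2*m + 4) (2*N) (2*N - 2*l - 4*m + 2*c + 2*d - 4)
  d2 : Par W (2*N + i - 2*m + 2*c + 2*d) (Q) (-2*N + 2*l + 4*m - 2*c - 2*d + 4)
  d3 : Par W (0) (2*N + i - 2*m + 2*c + 2*d - 1) (-2*d)
  n1 : Nd W (i + 2*a) (i) (i + 2*a + 2*b)
  n2 : Nd W (i + l + 1) (i + l + 2*c + 1) (i + 2*a + 2*b + l + 1)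
  n3 : Nd W (2*N + i - 2*m + 2*c - 1) (i + 2*l + 2*m + 3) (2*N + i - 2*m + 2*c + 2*d - 1)
  lam : L2 W (2*N) L (i + 2*a) (i) (i + 2*a + 2*b) (2*N + i - 2*m + 2*c - 1) (i + 2*l + 2*m + 3) (2*N + i - 2*m + 2*c + 2*d - 1)


/-- the linear side conditions -/
structure B (N Q i a b l m c d L : ℤ) : Prop where
  b1 : 0 ≤ i
  b2 : 0 ≤ a
  b3 : i + 2*a + 1 ≤ Q
  b4 : Q ≤ i + 2*a + 2*b
  b5 : i + 2*a + 2*b + 1 ≤ 2*N
  b6 : 0 ≤ i + l + 2*c + 1
  b7 : i + l + 2*c + 2 ≤ Q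
  b8 : Q ≤ i + l + 1
  b9 : i + 2*a + 2*b + l + 2 ≤ 2*N
  b10 : Q + 2*m + 1 ≤ 2*N + i + 2*c
  b11 : i + 2*c ≤ 2*m
  b12 : Q ≤ i + 2*l + 2*m + 3
  b13 : i + 2*l + 2*m + 4 ≤ 2*N
  b14 : 2*m + 1 ≤ 2*N + i + 2*c + 2*d
  b15 : 2*N + i + 2*c + 2*d ≤ Q + 2*m
  b16 : i + 2*a + L + 3 ≤ 2*N
  b17 : i + 2*a + 2*b + L + 3 ≤ 2*N + Q
  b18 : l + L + 3 ≤ 2*N
  b19 : 2*a + 2*b + L + 2 ≤ 2*N
  b20 : i + 2*c + 2*d + L + 2 ≤ 2*m
  b21 : L ≤ i + 2*l + 2*m + 1
  b22 : Q + 2*m + L + 3 ≤ 4*N + i + 2*c + 2*d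
  b23 : 2*N + 2*c + 2*d + L ≤ 2*l + 4*m + 2
  b24 : 0 ≤ L
  b25 : i + 2*a ≤ L
  b26 : i + 2*a + 2*b ≤ Q + L
  b27 : l ≤ L
  b28 : Q ≤ i + l + 2*c + L + 2
  b29 : 2*N ≤ i + 2*a + 2*b + l + L + 2
  b30 : 2*N ≤ i + 2*l + 2*m + L + 4
  b31 : Q + 2*m ≤ 2*N + i + 2*c + 2*d + L
  b32 : 2*N + i + 2*c + 2*d ≤ 2*m + L + 1
  b33 : L ≤ i + l + 2*m + 1
  b34 : Q + l + 2*m + L + 3 ≤ 4*N + i + 2*c + 2*d
  b35 : 2*i + 2*a + 2*c + 2*d + L + 2 ≤ 2*m
  b36 : 2*i + 2*a + 2*b + 2*c + 2*d + L + 2 ≤ Q + 2*m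
  b37 : 2*a + L ≤ 2*l + 2*m + 1
  b38 : 2*a + 2*b + 2*m + L + 3 ≤ 4*N + 2*c + 2*d

variable {W : ℤ → G} {N Q i a b l m c d L U V Y : ℤ}

theorem T0_0 (X : C W N Q i a b l m c d L) (hb : B N Q i a b l m c d L)
    (h : N + c ≤ l + 2*m + 1) :
    False := by
  have b6 := hb.b6
  have b13 := hb.b13
  have g1 := h
  have k1 : 1 ≤ N + c := by clear * - b6 b13 g1; omega
  clear * - X g1 k1
  exact X.al.ninv (-N + i + l + c + 1) (fin X.al.per (-1) _ (af X.S2 X.al.per 0 (N + i + l + c + 1) (rfl : W (-N + i + l + c + 1) = W (-N + i + l + c + 1)) (by omega)) (by omega))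

theorem T0_1 (X : C W N Q i a b l m c d L) (hb : B N Q i a b l m c d L)
    (h : b ≤ i + a ∧ a + 1 ≤ b) :
    False := by
  have b2 := hb.b2
  obtain ⟨g1, g2⟩ := h
  have k1 : 1 ≤ a + b := by clear * - b2 g2; omega
  clear * - X g1 g2 k1
  exact X.al.ninv (i + a - b) (fin X.al.per 0 _ (ar X.s1 X.al.per 0 (i + a - b) (pf X.a1 X.al.per 0 (i + a + b) (rfl : W (i + a - b) = W (i + a - b)) (by omega)) (by omega)) (by omega))

theorem T0_2 (X : C W N Q i a b l m c d L) (hb : B N Q i a b l m c d L)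
    (h : l + c + 2 ≤ 2*a + b ∧ 1 ≤ b + c) :
    False := by
  have b2 := hb.b2
  have b8 := hb.b8
  have b11 := hb.b11
  have b19 := hb.b19
  have b30 := hb.b30
  obtain ⟨g1, g2⟩ := h
  have k1 : Q ≤ i + b + l + c + 1 := by clear * - b8 g2; omega
  have k2 : b + c ≤ l + 2*m + 1 := by clear * - b2 b11 b19 b30; omega
  clear * - X g1 g2 k1 k2
  exact X.al.ninv (i - b + l + c + 1) (fin X.al.per 0 _ (ar X.S2 X.al.per 0 (i - b + l + c + 1) (pf X.a2 X.al.per 0 (i + b + l + c + 1) (rfl : W (i - b + l + c + 1) = W (i - b + l + c + 1)) (by omega)) (by omega)) (by omega))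

theorem T0_3 (X : C W N Q i a b l m c d L) (hb : B N Q i a b l m c d L)
    (h : a + b ≤ l + c ∧ 1 ≤ a + b + c) :
    False := by
  have b7 := hb.b7
  have b8 := hb.b8
  have b11 := hb.b11
  have b19 := hb.b19
  have b30 := hb.b30
  obtain ⟨g1, g2⟩ := h
  have k1 : c + 1 ≤ a + b := by clear * - b7 b8 g2; omega
  have k2 : a + b + c ≤ l + 2*m + 1 := by clear * - b11 b19 b30; omega
  clear * - X g1 g2 k1 k2
  exact X.al.ninv (i - a - b + l + c + 1) (fin X.al.per 0 _ (ar X.S2 X.al.per 0 (i - a - b + l + c + 1) (pf X.bb X.al.per 0 (i + a + b + l + c + 1) (rfl : W (i - a - b + l + c + 1) = W (i - a - b + l + c + 1)) (by omega)) (by omega)) (by omega))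

theorem T0_4 (X : C W N Q i a b l m c d L) (hb : B N Q i a b l m c d L)
    (h : a ≤ 0 ∧ 2*a ≤ l + 2*c ∧ l + c + 1 ≤ 2*a + b ∧ 2*a + b ≤ l + c + 1) :
    False := by
  have b2 := hb.b2
  have b11 := hb.b11
  have b19 := hb.b19
  have b30 := hb.b30
  obtain ⟨g1, g2, g3, g4⟩ := h
  have k1 : c ≤ a + m := by clear * - b2 b11 b19 b30 g3; omega
  clear * - X g1 g2 g3 g4 b2 k1
  exact X.n1.tor ⟨(fin X.al.per 0 _ (rfl : W (i + 2*a) = W (i + 2*a)) (by omega)), (fin X.al.per 0 _ (af X.S2 X.al.per 0 (i - 2*a + 2*l + 2*c + 2) (rfl : W (i + 2*a) = W (i + 2*a)) (by omega)) (by omega))⟩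

theorem T0_5 (X : C W N Q i a b l m c d L) (hb : B N Q i a b l m c d L)
    (h : a + b + 2*m + 2 ≤ 2*N + 2*c + d ∧ 2*N + 2*c + d ≤ a + b + l + 2*m + 1 ∧ 2*N + a + b + 2*c + d ≤ 2*l + 4*m + 3 ∧ a + b + d + 1 ≤ 0 ∧ i + 2*l + 2*m + 4 ≤ 2*N + a + b + d) :
    False := by
  have b6 := hb.b6
  obtain ⟨g1, g2, g3, g4, g5⟩ := h
  have k1 : l + 2*m + 3 ≤ 2*N + a + b + 2*c + d := by clear * - b6 g5; omega
  clear * - X g1 g2 g3 g4 g5 k1
  exact X.al.ninv (2*N + i - a - b - 2*m + 2*c + d - 1) (fin X.al.per 0 _ (pf X.d1 X.al.per (-1) (2*N + i - a - b - 2*m + 2*c + d - 1) (ar X.S2 X.al.per 0 (-2*N + i - a - b + 2*l + 2*m - d + 3) (pf X.bb X.al.per 0 (2*N + i + a + b - 2*m + 2*c + d - 1) (rfl : W (2*N + i - a - b - 2*m + 2*c + d - 1) = W (2*N + i - a - b - 2*m + 2*c + d - 1)) (by omega)) (by omega)) (by omega)) (by omega))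

theorem T0_6 (X : C W N Q i a b l m c d L) (hb : B N Q i a b l m c d L)
    (h : Q + a ≤ i + l + c + 1 ∧ l + c + 2 ≤ 3*a + 2*b ∧ a + 2*b + c ≤ l + 2*m + 1 ∧ 1 ≤ a + 2*b + c) :
    False := by
  have b2 := hb.b2
  have b3 := hb.b3
  have b7 := hb.b7
  obtain ⟨g1, g2, g3, g4⟩ := h
  have k1 : a ≤ l + c := by clear * - b2 b3 g1; omega
  have k2 : c + 1 ≤ a := by clear * - b2 b7 g1; omega
  clear * - X g1 g2 g3 g4 k1 k2
  exact X.al.ninv (i - a - 2*b + l + c + 1) (fin X.al.per 0 _ (ar X.S2 X.al.per 0 (i - a - 2*b + l + c + 1) (pf X.bb X.al.per 0 (i + a + 2*b + l + c + 1) (pf X.a2 X.al.per 0 (i - a + l + c + 1) (rfl : W (i - a - 2*b + l + c + 1) = W (i - a - 2*b + l + c + 1)) (by omega)) (by omega)) (by omega)) (by omega))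

theorem T0_7 (X : C W N Q i a b l m c d L) (hb : B N Q i a b l m c d L)
    (h : 2*N + c + d ≤ i + a + l + 2*m + 2 ∧ a + l + 2*m + 3 ≤ 2*N + c + d ∧ 2*N + i + a + c + d ≤ Q + l + 2*m + 1) :
    False := by
  have b13 := hb.b13
  obtain ⟨g1, g2, g3⟩ := h
  have k1 : l + c + d + 2 ≤ a := by clear * - b13 g1; omega
  clear * - X g1 g2 g3 k1
  exact X.al.ninv (-2*N + i + a + l + 2*m - c - d + 2) (fin X.al.per (-1) _ (pf X.d2 X.al.per 0 (i + a + l + 2*m - c - d + 2) (af X.s1 X.al.per 0 (2*N + i + a - l - 2*m + c + d - 2) (rfl : W (-2*N + i + a + l + 2*m - c - d + 2) = W (-2*N + i + a + l + 2*m - c - d + 2)) (by omega)) (by omega)) (by omega))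

theorem T0_8 (X : C W N Q i a b l m c d L) (hb : B N Q i a b l m c d L)
    (h : 2*a + b + 1 ≤ N + c ∧ N + i + c + 1 ≤ Q + b ∧ b + l + c + 2 ≤ N) :
    False := by
  obtain ⟨g1, g2, g3⟩ := h
  clear * - X g1 g2 g3
  exact X.al.ninv (N + i - b + c) (fin X.al.per 0 _ (pr X.c1 X.al.per (-1) (N + i - b + c) (af X.s2 X.al.per 0 (-N + i + 2*a + b - c) (rfl : W (N + i - b + c) = W (N + i - b + c)) (by omega)) (by omega)) (by omega))

theorem T0_9 (X : C W N Q i a b l m c d L) (hb : B N Q i a b l m c d L)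
    (h : 2*a + 2*b ≤ N + l + 2*c ∧ N + 2*c + 1 ≤ 2*a + 2*b ∧ N + 2*c ≤ l + 2*m + 1 ∧ 2*a + 2*b + 1 ≤ N ∧ i + l + 2 ≤ N) :
    False := by
  have b6 := hb.b6
  obtain ⟨g1, g2, g3, g4, g5⟩ := h
  have k1 : 1 ≤ N + 2*c := by clear * - b6 g5; omega
  clear * - X g1 g2 g3 g4 g5 k1
  exact X.al.ninv (N + i - 2*a - 2*b + l + 2*c + 1) (fin X.al.per 0 _ (pf X.c2 X.al.per (-1) (N + i - 2*a - 2*b + l + 2*c + 1) (ar X.S2 X.al.per 0 (-N + i + l + 1) (pf X.bb X.al.per 0 (N + i + l + 2*c + 1) (rfl : W (N + i - 2*a - 2*b + l + 2*c + 1) = W (N + i - 2*a - 2*b + l + 2*c + 1)) (by omega)) (by omega)) (by omega)) (by omega))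

theorem T0_10 (X : C W N Q i a b l m c d L) (hb : B N Q i a b l m c d L)
    (h : 2*N + i + 2*a + 2*b + 2*c + 2*d ≤ Q + l + 4*m + 2 ∧ l + 2*m + 3 ≤ N + a + b + d ∧ Q + 2*a + 2*b ≤ 2*N + 2*c) :
    False := by
  have b15 := hb.b15
  have b29 := hb.b29
  have b34 := hb.b34
  have b36 := hb.b36
  obtain ⟨g1, g2, g3⟩ := h
  have k1 : a + b + d ≤ l + 2*m + 1 := by clear * - b29 b34 b36 g1 g3; omega
  clear * - X g1 g2 g3 b15 k1
  exact X.al.ubQ (2*N + 2*a + 2*b - 2*l - 4*m + 2*d - 4) (by omega) (by omega) fun t h1 h2 => (fin X.al.per 0 _ (pf X.d1 X.al.per 0 (2*N + 2*a + 2*b - 2*l - 4*m + 2*d + t - 4) (pf X.c1 X.al.per 0 (2*a + 2*b - 2*c + t) (rfl : W (t) = W (t)) (by omega)) (by omega)) (by omega))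

theorem T0_11 (X : C W N Q i a b l m c d L) (hb : B N Q i a b l m c d L)
    (h : i + 2*l + 2*m + 4 ≤ 2*N + d) :
    False := by
  have b6 := hb.b6
  have b10 := hb.b10
  have b15 := hb.b15
  have b23 := hb.b23
  have b30 := hb.b30
  have g1 := h
  have k1 : 2*N + 2*c + d ≤ 2*l + 4*m + 3 := by clear * - b23 b30 g1; omega
  have k2 : l + 2*m + 3 ≤ 2*N + 2*c + d := by clear * - b6 g1; omega
  have k3 : d + 1 ≤ 0 := by clear * - b10 b15; omega
  clear * - X g1 k1 k2 k3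
  exact X.al.ninv (-2*N + i + 2*l + 2*m - d + 3) (fin X.al.per (-1) _ (pr X.d1 X.al.per 0 (i + 2*l + 2*m - d + 3) (af X.S2 X.al.per 0 (2*N + i - 2*m + 2*c + d - 1) (rfl : W (-2*N + i + 2*l + 2*m - d + 3) = W (-2*N + i + 2*l + 2*m - d + 3)) (by omega)) (by omega)) (by omega))

theorem T0_12 (X : C W N Q i a b l m c d L) (hb : B N Q i a b l m c d L)
    (h : a + 2*b ≤ i + l + c + 1 ∧ l + c + 2 ≤ 3*a + 2*b ∧ a ≤ l + c ∧ 1 ≤ a + 2*b + c) :
    False := by
  have b2 := hb.b2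
  have b7 := hb.b7
  have b8 := hb.b8
  have b11 := hb.b11
  obtain ⟨g1, g2, g3, g4⟩ := h
  have k1 : c + 1 ≤ a := by clear * - b2 b7 b8; omega
  have k2 : a + 2*b + c ≤ l + 2*m + 1 := by clear * - b11 g1; omega
  clear * - X g1 g2 g3 g4 k1 k2
  exact X.al.ninv (i - a - 2*b + l + c + 1) (fin X.al.per 0 _ (ar X.S2 X.al.per 0 (i - a - 2*b + l + c + 1) (pf X.bb X.al.per 0 (i + a + 2*b + l + c + 1) (pf X.a1 X.al.per 0 (i - a + l + c + 1) (rfl : W (i - a - 2*b + l + c + 1) = W (i - a - 2*b + l + c + 1)) (by omega)) (by omega)) (by omega)) (by omega))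

theorem T0_15 (X : C W N Q i a b l m c d L) (hb : B N Q i a b l m c d L)
    (h : d + 1 ≤ c ∧ 0 ≤ i + l + c + d + 1) :
    False := by
  have b11 := hb.b11
  have b13 := hb.b13
  obtain ⟨g1, g2⟩ := h
  have k1 : c ≤ l + 2*m + d + 1 := by clear * - b11 g2; omega
  have k2 : l + 2*m + 3 ≤ 2*N + c + d := by clear * - b13 g2; omega
  clear * - X g1 g2 k1 k2
  exact X.al.ninv (i + l + c + d + 1) (fin X.al.per 0 _ (pr X.d3 X.al.per 0 (i + l + c + d + 1) (af X.S2 X.al.per 0 (i + l + c - d + 1) (rfl : W (i + l + c + d + 1) = W (i + l + c + d + 1)) (by omega)) (by omega)) (by omega))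

theorem T0_16 (X : C W N Q i a b l m c d L) (hb : B N Q i a b l m c d L)
    (h : a ≤ 0 ∧ 2*a ≤ l + 2*c ∧ l + c + 1 ≤ 3*a + 2*b ∧ 3*a + 2*b ≤ l + c + 1) :
    False := by
  have b2 := hb.b2
  have b7 := hb.b7
  have b8 := hb.b8
  have b11 := hb.b11
  have b27 := hb.b27
  have b33 := hb.b33
  obtain ⟨g1, g2, g3, g4⟩ := h
  have k1 : c ≤ a + m := by clear * - b2 b7 b8 b11 b27 b33; omega
  have k2 : l + 2*c + 2 ≤ 4*a + 2*b := by clear * - b2 b7 b8 g3; omega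
  clear * - X g1 g2 g3 g4 b2 k1 k2
  exact X.n1.tor ⟨(fin X.al.per 0 _ (rfl : W (i + 2*a) = W (i + 2*a)) (by omega)), (fin X.al.per 0 _ (pr X.bb X.al.per 0 (i - 4*a - 2*b + 2*l + 2*c + 2) (af X.S2 X.al.per 0 (i - 2*a + 2*l + 2*c + 2) (rfl : W (i + 2*a) = W (i + 2*a)) (by omega)) (by omega)) (by omega))⟩

theorem T0_17 (X : C W N Q i a b l m c d L) (hb : B N Q i a b l m c d L)
    (h : 2*a + 2*b ≤ l + c ∧ 1 ≤ 2*a + 2*b + c) :
    False := by
  have b7 := hb.b7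
  have b8 := hb.b8
  have b11 := hb.b11
  have b27 := hb.b27
  have b33 := hb.b33
  obtain ⟨g1, g2⟩ := h
  have k1 : c + 1 ≤ 0 := by clear * - b7 b8; omega
  have k2 : 2*a + 2*b + c ≤ l + 2*m + 1 := by clear * - b7 b8 b11 b27 b33 g1; omega
  clear * - X g1 g2 k1 k2
  exact X.al.ninv (i - 2*a - 2*b + l + c + 1) (fin X.al.per 0 _ (ar X.S2 X.al.per 0 (i - 2*a - 2*b + l + c + 1) (pf X.bb X.al.per 0 (i + 2*a + 2*b + l + c + 1) (pf X.bb X.al.per 0 (i + l + c + 1) (rfl : W (i - 2*a - 2*b + l + c + 1) = W (i - 2*a - 2*b + l + c + 1)) (by omega)) (by omega)) (by omega)) (by omega))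

theorem T0_19 (X : C W N Q i a b l m c d L) (hb : B N Q i a b l m c d L)
    (h : 2*N + i + 2*c + 2*d ≤ 2*b + 2*m ∧ b + l + 2*m + 3 ≤ 2*N + c + d ∧ 4*N + 2*c + 2*d ≤ i + 2*a + 2*b + 2*l + 4*m + 4) :
    False := by
  have b30 := hb.b30
  have b38 := hb.b38
  obtain ⟨g1, g2, g3⟩ := h
  have k1 : N + c + d ≤ b + l + 2*m + 1 := by clear * - b30 b38 g1 g2 g3; omega
  clear * - X g1 g2 g3 k1
  exact X.al.ubP (4*N - 2*b - 2*l - 4*m + 2*c + 2*d - 4) (by omega) (by omega) fun t h1 h2 => (fin X.al.per 0 _ (pr X.a1 X.al.per 0 (4*N - 2*b - 2*l - 4*m + 2*c + 2*d + t - 4) (pf X.d1 X.al.per (-1) (4*N - 2*l - 4*m + 2*c + 2*d + t - 4) (rfl : W (t) = W (t)) (by omega)) (by omega)) (by omega))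

theorem T0_20 (X : C W N Q i a b l m c d L) (hb : B N Q i a b l m c d L)
    (h : 0 ≤ i + 2*a + b + d ∧ 2*a + b + d + 1 ≤ 0 ∧ 0 ≤ b + l + d ∧ 2*a + b + 2*m + 2 ≤ 2*N + 2*c + d) :
    False := by
  have b2 := hb.b2
  obtain ⟨g1, g2, g3, g4⟩ := h
  have k1 : b + d + 1 ≤ 0 := by clear * - b2 g2; omega
  clear * - X g1 g2 g3 g4 k1
  exact X.al.ninv (i + 2*a + b + d) (fin X.al.per 0 _ (pr X.d3 X.al.per 0 (i + 2*a + b + d) (pf X.bb X.al.per 0 (i + 2*a + b - d) (af X.s1 X.al.per 0 (i - b - d) (rfl : W (i + 2*a + b + d) = W (i + 2*a + b + d)) (by omega)) (by omega)) (by omega)) (by omega))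

theorem T0_21 (X : C W N Q i a b l m c d L) (hb : B N Q i a b l m c d L)
    (h : i + 2*a + 4*b + l + 2 ≤ 2*N + Q ∧ N + c + 1 ≤ a + 2*b ∧ Q + 2*b ≤ 2*N + i + 2*c) :
    False := by
  have b28 := hb.b28
  have b29 := hb.b29
  have b34 := hb.b34
  have b36 := hb.b36
  obtain ⟨g1, g2, g3⟩ := h
  have k1 : a + 2*b + 1 ≤ 2*N + c := by clear * - b28 b29 b34 b36 g1; omega
  clear * - X g1 g2 g3 k1
  exact X.al.ubQ (-2*N + 2*a + 4*b - 2*c) (by omega) (by omega) fun t h1 h2 => (fin X.al.per 0 _ (pf X.a2 X.al.per 1 (-2*N + 2*a + 4*b - 2*c + t) (pf X.c1 X.al.per 0 (2*a + 2*b - 2*c + t) (rfl : W (t) = W (t)) (by omega)) (by omega)) (by omega))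

theorem T0_22 (X : C W N Q i a b l m c d L) (hb : B N Q i a b l m c d L)
    (h : N + c ≤ i + a + l + 2*m + 2 ∧ a + l + 2*m + 3 ≤ N + c ∧ N + l + c + 2*d + 2 ≤ a ∧ a + l + 4*m + 4 ≤ 3*N + 3*c + 2*d) :
    False := by
  have b11 := hb.b11
  obtain ⟨g1, g2, g3, g4⟩ := h
  have k1 : i + a + l + 2*m + 3 ≤ 3*N + c + 2*d := by clear * - b11 g4; omega
  clear * - X g1 g2 g3 g4 k1
  exact X.al.ninv (-N + i + a + l + 2*m - c + 2) (fin X.al.per 0 _ (pr X.d3 X.al.per 0 (-N + i + a + l + 2*m - c + 2) (pr X.d1 X.al.per 0 (-N + i + a + l + 2*m - c - 2*d + 2) (af X.s1 X.al.per 0 (N + i + a - l - 2*m + c - 2) (rfl : W (-N + i + a + l + 2*m - c + 2) = W (-N + i + a + l + 2*m - c + 2)) (by omega)) (by omega)) (by omega)) (by omega))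

theorem T0_23 (X : C W N Q i a b l m c d L) (hb : B N Q i a b l m c d L)
    (h : b + l + 2*m + 2 ≤ 2*N + c + d ∧ 2*N + c + d ≤ b + l + 2*m + 2 ∧ 2*l + 2*m + L + 5 ≤ 2*N + 2*a) :
    False := by
  have b14 := hb.b14
  have b25 := hb.b25
  have b30 := hb.b30
  have b35 := hb.b35
  obtain ⟨g1, g2, g3⟩ := h
  have k1 : l + 2*m + 3 ≤ 2*N + c + d := by clear * - b14 b25 g3; omega
  have k2 : N + c + d ≤ l + 2*m + 1 := by clear * - b30 b35 g3; omega
  clear * - X g1 g2 g3 k1 k2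
  exact absurd (X.lam.mx (i + 2*l + 2*m + 4) (2*N + i + 2*a) (4*N - 2*l - 4*m + 2*c + 2*d - 4) (by omega) (by omega) fun t h1 h2 => (lt_or_ge t (2*N)).elim (fun u0 => (fin X.al.per 1 _ (pf X.d1 X.al.per 0 (2*N - 2*l - 4*m + 2*c + 2*d + t - 4) (rfl : W (t) = W (t)) (by omega)) (by omega))) (fun u0 => (fin X.al.per 1 _ (pf X.a1 X.al.per 1 (-2*N + 2*b + t) (rfl : W (t) = W (t)) (by omega)) (by omega)))) (by omega)

theorem T0_24 (X : C W N Q i a b l m c d L) (hb : B N Q i a b l m c d L)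
    (h : i + 2*b + 2*l + 2*m + 4 ≤ 2*N + Q ∧ Q + 2*l + 4*m + 4 ≤ 4*N + 2*c + 2*d ∧ 2*N + c + d ≤ b + l + 2*m + 1) :
    False := by
  have b1 := hb.b1
  have b2 := hb.b2
  have b29 := hb.b29
  have b32 := hb.b32
  have b34 := hb.b34
  have b38 := hb.b38
  obtain ⟨g1, g2, g3⟩ := h
  have k1 : Q + 2*l + 4*m + 4 ≤ 4*N + i + 2*a + 2*c + 2*d := by clear * - b1 b2 g2; omega
  have k2 : b + l + 2*m + 3 ≤ 3*N + c + d := by clear * - b29 b32 b34 b38 g1; omega
  clear * - X g1 g2 g3 k1 k2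
  exact X.al.ubQ (-4*N + 2*b + 2*l + 4*m - 2*c - 2*d + 4) (by omega) (by omega) fun t h1 h2 => (fin X.al.per 0 _ (pf X.a2 X.al.per 1 (-4*N + 2*b + 2*l + 4*m - 2*c - 2*d + t + 4) (pr X.d1 X.al.per 0 (-2*N + 2*l + 4*m - 2*c - 2*d + t + 4) (rfl : W (t) = W (t)) (by omega)) (by omega)) (by omega))

theorem T0_25 (X : C W N Q i a b l m c d L) (hb : B N Q i a b l m c d L)
    (h : i + 2*b + 2*l + 2*m + 4 ≤ 2*N + Q ∧ 2*N + c + d ≤ b + l + 2*m + 1 ∧ Q + 2*l + 4*m + 4 ≤ 4*N + i + 2*a + 2*c + 2*d) :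
    False := by
  have b31 := hb.b31
  have b38 := hb.b38
  obtain ⟨g1, g2, g3⟩ := h
  have k1 : b + l + 2*m + 3 ≤ 3*N + c + d := by clear * - b31 b38 g1 g2 g3; omega
  clear * - X g1 g2 g3 k1
  exact X.al.ubQ (-4*N + 2*b + 2*l + 4*m - 2*c - 2*d + 4) (by omega) (by omega) fun t h1 h2 => (fin X.al.per 0 _ (pf X.a2 X.al.per 1 (-4*N + 2*b + 2*l + 4*m - 2*c - 2*d + t + 4) (pf X.d2 X.al.per 0 (-2*N + 2*l + 4*m - 2*c - 2*d + t + 4) (rfl : W (t) = W (t)) (by omega)) (by omega)) (by omega))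

theorem T0_28 (X : C W N Q i a b l m c d L) (hb : B N Q i a b l m c d L)
    (h : b ≤ i) :
    False := by
  have b2 := hb.b2
  have b3 := hb.b3
  have b4 := hb.b4
  have b18 := hb.b18
  have b29 := hb.b29
  have g1 := h
  have k1 : 1 ≤ b := by clear * - b3 b4; omega
  have k2 : 1 ≤ 2*a + 3*b := by clear * - b2 b3 b4; omega
  have k3 : 1 ≤ i + 2*a := by clear * - b2 b18 b29 g1; omega
  clear * - X g1 k1 k2 k3
  obtain ⟨K0, hL⟩ : ∃ K0 : ℤ, -2*i - 2*a ≤ 2*K0 ∧ -2*a - 4*b + 2 ≤ 2*K0 ∧ 2*K0 + 2*(b) - 2 ≤ -2*a - 2 ∧ 2*K0 + 2*(b) - 2 ≤ 2*i + 2*a ∧ 2*K0 + 2*(b) - 2 ≤ 2*a + 4*b - 2 := ⟨((max (-2*a - 4*b + 2) (-2*i - 2*a)) + 1) / 2, by omega⟩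
  obtain ⟨R, hR1, hR2, hR⟩ := pw (A := 0) (B := i + 2*a + 2*b) (γ := b) (by omega) (fun t h1 h2 => (fin X.al.per 0 _ (pf X.a1 X.al.per 0 (2*b + t) (rfl : W (t) = W (t)) (by omega)) (by omega))) K0
  exact X.al.ninv (i + a + R) (fin X.al.per 0 _ (pp hR X.al.per 0 (i + a + R) (af X.s1 X.al.per 0 (i + a - R) (rfl : W (i + a + R) = W (i + a + R)) (by omega)) (by omega)) (by omega))

theorem T0_29 (X : C W N Q i a b l m c d L) (hb : B N Q i a b l m c d L)
    (h : l + 2 ≤ 2*a + b ∧ b ≤ i + l + 2*c + 1) :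
    False := by
  have b3 := hb.b3
  have b4 := hb.b4
  have b7 := hb.b7
  have b8 := hb.b8
  have b11 := hb.b11
  have b19 := hb.b19
  have b29 := hb.b29
  obtain ⟨g1, g2⟩ := h
  have k1 : b ≤ l + 2*m + 1 := by clear * - b11 g2; omega
  have k2 : b ≤ i + 2*l + 2*m + 3 := by clear * - b11 b19 b29 g2; omega
  have k3 : 2*c ≤ 2*a + b + 2*m := by clear * - b11 b19 b29 g1; omega
  have k4 : 2*l + 2*c + 3 ≤ 4*a + 3*b := by clear * - b4 b7 g1; omega
  have k5 : b ≤ 2*i + 2*l + 2*c + 3 := by clear * - b19 b29 g2; omega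
  have k6 : 1 ≤ i + 2*a := by clear * - b7 b8 g1 g2; omega
  have k7 : 1 ≤ b := by clear * - b3 b8 g1; omega
  clear * - X g1 g2 k1 k2 k3 k4 k5 k6 k7
  obtain ⟨K0, hL⟩ : ∃ K0 : ℤ, -2*l - 4*m + 2*c - 2 ≤ 2*K0 ∧ -4*a - 4*b + 2*l + 2*c + 4 ≤ 2*K0 ∧ -2*i - 2*l - 2*c - 2 ≤ 2*K0 ∧ 2*K0 + 2*(b) - 2 ≤ 2*c - 2 ∧ 2*K0 + 2*(b) - 2 ≤ 2*i + 2*l + 2*c + 2 ∧ 2*K0 + 2*(b) - 2 ≤ 4*a + 4*b - 2*l - 2*c - 4 := ⟨((max (-2*i - 2*l - 2*c - 2) (max (-4*a - 4*b + 2*l + 2*c + 4) (-2*l - 4*m + 2*c - 2))) + 1) / 2, by omega⟩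
  obtain ⟨R, hR1, hR2, hR⟩ := pw (A := 0) (B := i + 2*a + 2*b) (γ := b) (by omega) (fun t h1 h2 => (fin X.al.per 0 _ (pf X.a1 X.al.per 0 (2*b + t) (rfl : W (t) = W (t)) (by omega)) (by omega))) K0
  exact X.al.ninv (i + l + c + R + 1) (fin X.al.per 0 _ (pp hR X.al.per 0 (i + l + c + R + 1) (af X.S2 X.al.per 0 (i + l + c - R + 1) (rfl : W (i + l + c + R + 1) = W (i + l + c + R + 1)) (by omega)) (by omega)) (by omega))

theorem T0_30 (X : C W N Q i a b l m c d L) (hb : B N Q i a b l m c d L)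
    (h : i + l + 2*c + 2 ≤ 2*b ∧ a + 2*b + 1 ≤ N + c ∧ 2*N + 2*c ≤ i + 4*a + 4*b) :
    False := by
  have b29 := hb.b29
  have b34 := hb.b34
  have b36 := hb.b36
  obtain ⟨g1, g2, g3⟩ := h
  have k1 : c + 1 ≤ a + 2*b := by clear * - b29 b34 b36 g1; omega
  clear * - X g1 g2 g3 k1
  exact X.al.ubP (2*N - 2*a - 4*b + 2*c) (by omega) (by omega) fun t h1 h2 => (fin X.al.per 0 _ (pr X.a1 X.al.per 0 (2*N - 2*a - 4*b + 2*c + t) (pf X.c2 X.al.per (-1) (2*N - 2*a - 2*b + 2*c + t) (rfl : W (t) = W (t)) (by omega)) (by omega)) (by omega))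

theorem T0_31 (X : C W N Q i a b l m c d L) (hb : B N Q i a b l m c d L)
    (h : a ≤ b ∧ b ≤ a ∧ 2*a ≤ 2*b + l + 2*c ∧ l + c + 1 ≤ 2*a ∧ 2*a ≤ l + c + 1) :
    False := by
  have b1 := hb.b1
  have b19 := hb.b19
  have b25 := hb.b25
  have b29 := hb.b29
  have b30 := hb.b30
  have b35 := hb.b35
  have b37 := hb.b37
  have b38 := hb.b38
  obtain ⟨g1, g2, g3, g4, g5⟩ := h
  have k1 : 2*b ≤ i + 2*a := by clear * - b1 g2; omega
  have k2 : 1 ≤ b := by clear * - b29 b35 b38 g1 g3 g4; omega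
  have k3 : b + c ≤ a + m := by clear * - b19 b25 b30 b37 g2 g4; omega
  clear * - X g1 g2 g3 g4 g5 k1 k2 k3
  exact X.n1.tor ⟨(fin X.al.per 0 _ (pr X.a1 X.al.per 0 (i + 2*a - 2*b) (rfl : W (i + 2*a) = W (i + 2*a)) (by omega)) (by omega)), (fin X.al.per 0 _ (af X.S2 X.al.per 0 (i - 2*a + 2*b + 2*l + 2*c + 2) (pr X.a1 X.al.per 0 (i + 2*a - 2*b) (rfl : W (i + 2*a) = W (i + 2*a)) (by omega)) (by omega)) (by omega))⟩

theorem T0_32 (X : C W N Q i a b l m c d L) (hb : B N Q i a b l m c d L)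
    (h : 2*b ≤ i + l + c + 1 ∧ l + c + 2 ≤ 2*a ∧ 1 ≤ 2*b + c) :
    False := by
  have b7 := hb.b7
  have b8 := hb.b8
  have b19 := hb.b19
  have b25 := hb.b25
  have b29 := hb.b29
  have b37 := hb.b37
  obtain ⟨g1, g2, g3⟩ := h
  have k1 : l + c + 2 ≤ 2*a + 2*b := by clear * - b7 b8 g2 g3; omega
  have k2 : 0 ≤ i + l + c + 1 := by clear * - b19 b29 g1 g3; omega
  have k3 : 2*b + c ≤ l + 2*m + 1 := by clear * - b25 b37 g1 g2; omega
  clear * - X g1 g2 g3 k1 k2 k3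
  exact X.al.ninv (i - 2*b + l + c + 1) (fin X.al.per 0 _ (ar X.S2 X.al.per 0 (i - 2*b + l + c + 1) (pf X.a1 X.al.per 0 (i + 2*b + l + c + 1) (pf X.a1 X.al.per 0 (i + l + c + 1) (rfl : W (i - 2*b + l + c + 1) = W (i - 2*b + l + c + 1)) (by omega)) (by omega)) (by omega)) (by omega))

theorem T0_33 (X : C W N Q i a b l m c d L) (hb : B N Q i a b l m c d L)
    (h : l + 2*m + 3 ≤ N + a + d ∧ 4*N + 2*c + 2*d ≤ i + 2*a + 2*b + 2*l + 4*m + 4) :
    False := by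
  have b3 := hb.b3
  have b6 := hb.b6
  have b9 := hb.b9
  have b18 := hb.b18
  have b27 := hb.b27
  have b28 := hb.b28
  have b29 := hb.b29
  have b35 := hb.b35
  have b36 := hb.b36
  have b37 := hb.b37
  obtain ⟨g1, g2⟩ := h
  have k1 : i + 2*a + 2*d ≤ 2*m := by clear * - b6 b27 b35; omega
  have k2 : a + b ≤ N + c := by clear * - b6 b9; omega
  have k3 : 4*N + 2*c + 2*d ≤ Q + 2*b + 2*l + 4*m + 4 := by clear * - b3 g2; omega
  have k4 : a + d ≤ l + 2*m + 1 := by clear * - b18 b27 b28 b29 b36 b37; omega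
  clear * - X g1 g2 k1 k2 b9 k3 k4
  exact X.al.ubP (2*N + 2*a - 2*l - 4*m + 2*d - 4) (by omega) (by omega) fun t h1 h2 => (fin X.al.per (-1) _ (pf X.c1 X.al.per 0 (4*N + 2*a - 2*l - 4*m + 2*d + t - 4) (pr X.a1 X.al.per 0 (4*N - 2*b - 2*l - 4*m + 2*c + 2*d + t - 4) (pf X.d1 X.al.per (-1) (4*N - 2*l - 4*m + 2*c + 2*d + t - 4) (rfl : W (t) = W (t)) (by omega)) (by omega)) (by omega)) (by omega))

theorem T0_34 (X : C W N Q i a b l m c d L) (hb : B N Q i a b l m c d L)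
    (h : i + a + b + l + 2 ≤ N ∧ N + 2*c ≤ a + b + l + 2*m + 1) :
    False := by
  have b6 := hb.b6
  have b19 := hb.b19
  have b29 := hb.b29
  obtain ⟨g1, g2⟩ := h
  have k1 : a + b + 1 ≤ N := by clear * - b19 b29 g1; omega
  have k2 : a + b + 1 ≤ N + 2*c := by clear * - b6 g1; omega
  clear * - X g1 g2 k1 k2
  exact X.al.ninv (N + i + a + b + l + 1) (fin X.al.per 1 _ (ar X.S2 X.al.per 0 (-N + i + a + b + l + 1) (pf X.c2 X.al.per 0 (N + i - a - b + l + 2*c + 1) (rfl : W (N + i + a + b + l + 1) = W (N + i + a + b + l + 1)) (by omega)) (by omega)) (by omega))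

theorem T0_35 (X : C W N Q i a b l m c d L) (hb : B N Q i a b l m c d L)
    (h : 3*a + 3*b ≤ N + l + 3*c ∧ N + 3*c + 1 ≤ 3*a + 3*b ∧ i + a + b + l + c + 2 ≤ N ∧ N + c ≤ a + b + l + 2*m + 1 ∧ 3*a + 3*b + 1 ≤ N + c) :
    False := by
  have b13 := hb.b13
  have b27 := hb.b27
  have b29 := hb.b29
  have b34 := hb.b34
  have b36 := hb.b36
  obtain ⟨g1, g2, g3, g4, g5⟩ := h
  have k1 : a + b + 1 ≤ N + c := by clear * - b27 b29 b34 b36 g1; omega
  have k2 : i + l + c + 2 ≤ N + a + b := by clear * - b13 g4; omega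
  clear * - X g1 g2 g3 g4 g5 k1 k2
  exact X.al.ninv (N + i - 3*a - 3*b + l + 3*c + 1) (fin X.al.per 0 _ (pf X.c2 X.al.per 0 (N + i - 3*a - 3*b + l + 3*c + 1) (af X.S2 X.al.per 1 (N + i - a - b + l + c + 1) (pr X.c2 X.al.per 0 (N + i + a + b + l + c + 1) (pf X.bb X.al.per 0 (N + i - a - b + l + 3*c + 1) (rfl : W (N + i - 3*a - 3*b + l + 3*c + 1) = W (N + i - 3*a - 3*b + l + 3*c + 1)) (by omega)) (by omega)) (by omega)) (by omega)) (by omega))

theorem T0_36 (X : C W N Q i a b l m c d L) (hb : B N Q i a b l m c d L)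
    (h : N + i + a + c + 1 ≤ Q + b ∧ a + b + l + c + 2 ≤ N) :
    False := by
  have b2 := hb.b2
  have b6 := hb.b6
  have b9 := hb.b9
  have b19 := hb.b19
  have b27 := hb.b27
  obtain ⟨g1, g2⟩ := h
  have k1 : N + 2*i + a + c + 1 ≤ 2*Q + b := by clear * - b2 b6 b9 g1; omega
  have k2 : a + 3*b + 2*l + c + 3 ≤ 3*N := by clear * - b2 b19 b27 g2; omega
  have k3 : i + l + 2*c + 3 ≤ Q := by clear * - b2 g1 g2; omega
  have k4 : a + b + 1 ≤ N + c := by clear * - b6 b9; omega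
  clear * - X g1 g2 k1 k2 k3 k4
  obtain ⟨K0, hL⟩ : ∃ K0 : ℤ, 2*a + 2 ≤ 2*K0 ∧ -2*Q + 2*i + 2*a + 2 ≤ 2*K0 ∧ -4*N + 2*a + 4*b + 2*l + 4 ≤ 2*K0 ∧ 2*K0 + 2*(N - a - b + c) - 2 ≤ 2*Q - 2*i - 2*a - 2 ∧ 2*K0 + 2*(N - a - b + c) - 2 ≤ 4*N - 2*a - 4*b - 2*l - 4 := ⟨((max (-4*N + 2*a + 4*b + 2*l + 4) (max (-2*Q + 2*i + 2*a + 2) (2*a + 2))) + 1) / 2, by omega⟩
  obtain ⟨R, hR1, hR2, hR⟩ := pw (A := i + 2*a + 2*b + l + 2) (B := 2*N + Q) (γ := N - a - b + c) (by omega) (fun t h1 h2 => (fin X.al.per 1 _ (pr X.c1 X.al.per 0 (-2*a - 2*b + 2*c + t) (rfl : W (t) = W (t)) (by omega)) (by omega))) K0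
  exact X.al.ninv (i + a + R) (fin X.al.per (-1) _ (pp hR X.al.per (-1) (2*N + i + a + R) (af X.s2 X.al.per 0 (i + a - R) (rfl : W (i + a + R) = W (i + a + R)) (by omega)) (by omega)) (by omega))

theorem T0_38 (X : C W N Q i a b l m c d L) (hb : B N Q i a b l m c d L)
    (h : i + 4*a + 2*b ≤ 2*l + 2*m + 2 ∧ i + 2*a ≤ l ∧ l + c + 2 ≤ 2*a + b ∧ 4*a + 2*b ≤ i + 2*l + 2*c + 2) :
    False := by
  have b2 := hb.b2
  have b6 := hb.b6
  have b27 := hb.b27
  have b28 := hb.b28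
  have b29 := hb.b29
  have b35 := hb.b35
  have b36 := hb.b36
  have b38 := hb.b38
  obtain ⟨g1, g2, g3, g4⟩ := h
  have k1 : 2*a + 2*b ≤ i + 2*l + 2*c + 2 := by clear * - b2 g4; omega
  have k2 : 2*a + b ≤ N + l + c := by clear * - b27 b28 b29 b35 b36 b38 g4; omega
  clear * - X g1 g2 g3 g4 b6 k1 k2
  exact X.al.ubP (4*a + 2*b - 2*l - 2*c - 2) (by omega) (by omega) fun t h1 h2 => (fin X.al.per 0 _ (ar' X.s1 X.al.per 0 (4*a + 2*b - 2*l - 2*c + t - 2) (pr X.bb X.al.per 0 (2*i - 2*a - 2*b + 2*l + 2*c - t + 2) (af X.S2 X.al.per 0 (2*i + 2*l + 2*c - t + 2) (rfl : W (t) = W (t)) (by omega)) (by omega)) (by omega)) (by omega))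

theorem T0_39 (X : C W N Q i a b l m c d L) (hb : B N Q i a b l m c d L)
    (h : a + b + 2*m + 2 ≤ 2*N + 2*c + d ∧ 2*N + a + b + 2*c + d ≤ 2*l + 4*m + 3 ∧ l + 2*m + 3 ≤ 2*N + a + b + 2*c + d ∧ a + b + d + 1 ≤ 0 ∧ 2*N + i + 2*c + d ≤ Q + a + b + 2*m) :
    False := by
  have b8 := hb.b8
  obtain ⟨g1, g2, g3, g4, g5⟩ := h
  have k1 : 2*N + 2*c + d ≤ a + b + l + 2*m + 1 := by clear * - b8 g5; omega
  clear * - X g1 g2 g3 g4 g5 k1
  exact X.al.ninv (2*N + i - a - b - 2*m + 2*c + d - 1) (fin X.al.per 0 _ (pr X.d2 X.al.per (-1) (2*N + i - a - b - 2*m + 2*c + d - 1) (ar X.S2 X.al.per 0 (-2*N + i - a - b + 2*l + 2*m - d + 3) (pf X.bb X.al.per 0 (2*N + i + a + b - 2*m + 2*c + d - 1) (rfl : W (2*N + i - a - b - 2*m + 2*c + d - 1) = W (2*N + i - a - b - 2*m + 2*c + d - 1)) (by omega)) (by omega)) (by omega)) (by omega))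

theorem T0_46 (X : C W N Q i a b l m c d L) (hb : B N Q i a b l m c d L)
    (h : 2*b ≤ i + a ∧ 1 ≤ a ∧ a + 1 ≤ 2*b) :
    False := by
  obtain ⟨g1, g2, g3⟩ := h
  clear * - X g1 g2 g3
  exact X.al.ninv (i + a - 2*b) (fin X.al.per 0 _ (ar X.s1 X.al.per 0 (i + a - 2*b) (pf X.a1 X.al.per 0 (i + a + 2*b) (pf X.a1 X.al.per 0 (i + a) (rfl : W (i + a - 2*b) = W (i + a - 2*b)) (by omega)) (by omega)) (by omega)) (by omega))

theorem M0 (X : C W N Q i a b l m c d L) (hb : B N Q i a b l m c d L)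
    (h1 : (-N + l + 2*m - c + 1) < 0)
    (h2 : (i + a - b) < 0) : False := by
  have b2 := hb.b2
  have b3 := hb.b3
  have b4 := hb.b4
  have b6 := hb.b6
  have b7 := hb.b7
  have b9 := hb.b9
  have b14 := hb.b14
  have b15 := hb.b15
  have b26 := hb.b26
  have b27 := hb.b27
  have b29 := hb.b29
  have b30 := hb.b30
  have b31 := hb.b31
  have b32 := hb.b32
  have b33 := hb.b33
  have b34 := hb.b34
  have b35 := hb.b35
  have b36 := hb.b36
  have b37 := hb.b37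
  have b38 := hb.b38
  rcases lt_or_ge (2*a + b - l - c - 2) 0 with h3 | h3
  · rcases lt_or_ge (-a - b + l + c) 0 with h4 | h4
    · rcases lt_or_ge (-2*a + l + 2*c) 0 with h5 | h5
      · rcases lt_or_ge (2*N - i + a + b - 2*l - 2*m + d - 4) 0 with h6 | h6
        · rcases lt_or_ge (-Q + i - a + l + c + 1) 0 with h7 | h7
          · exact T0_7 X hb ⟨by clear * - b2 h4 h6; omega, by clear * - b31 b38 h1 h2 h3 h4 h6 h7; omega, by clear * - h2 h6 h7; omega⟩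
          exact T0_6 X hb ⟨by clear * - h7; omega, by clear * - b2 b30 b38 h1 h2 h4 h6; omega, by clear * - b2 b27 b33 h2 h3 h5; omega, by clear * - b2 b14 b27 b33 h1 h2 h4 h6; omega⟩
        rcases lt_or_ge (-2*N - a - b + 2*l + 4*m - 2*c - d + 3) 0 with h8 | h8
        · rcases lt_or_ge (-N + Q - i + b - c - 1) 0 with h9 | h9
          · rcases lt_or_ge (N - i - l - 2) 0 with h10 | h10
            · exact T0_6 X hb ⟨by clear * - h2 h9 h10; omega, by clear * - b2 b30 b37 h1 h2 h4; omega, by clear * - b2 b27 b33 h2 h3 h5; omega, by clear * - b2 b30 b32 b33 h2 h8; omega⟩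
            rcases lt_or_ge (-N + 2*a + 2*b - 2*c - 1) 0 with h11 | h11
            · exact T0_10 X hb ⟨by clear * - b15 b30 b33 h2 h3 h5 h11; omega, by clear * - b30 b33 h2 h3 h5 h8; omega, by clear * - h3 h9 h10; omega⟩
            exact T0_9 X hb ⟨by clear * - b6 h3 h5 h10; omega, by clear * - h11; omega, by clear * - b30 b33 h2 h3 h5; omega, by clear * - b30 b33 h1 h3 h4 h5 h10; omega, by clear * - h10; omega⟩
          exact T0_8 X hb ⟨by clear * - b27 b33 b35 b38 h1 h3; omega, by clear * - h9; omega, by clear * - b27 b33 b35 b38 h1 h3 h5; omega⟩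
        rcases lt_or_ge (-2*N + a + b + l + 2*m - 2*c - d + 1) 0 with h12 | h12
        · exact T0_11 X hb (by clear * - h2 h5 h12; omega)
        exact T0_5 X hb ⟨by clear * - b6 h3 h5 h6; omega, by clear * - h12; omega, by clear * - h8; omega, by clear * - h1 h8; omega, by clear * - h6; omega⟩
      exact T0_4 X hb ⟨by clear * - h3 h4; omega, by clear * - h5; omega, by clear * - b2 h4; omega, by clear * - h3; omega⟩
    rcases lt_or_ge (a + b + c - 1) 0 with h13 | h13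
    · rcases lt_or_ge (i - a - 2*b + l + c + 1) 0 with h14 | h14
      · rcases lt_or_ge (N - i - l - 2) 0 with h15 | h15
        · rcases lt_or_ge (-N + Q - i + b - c - 1) 0 with h16 | h16
          · exact T0_6 X hb ⟨by clear * - h3 h14 h15 h16; omega, by clear * - b2 b27 b33 h1 h4 h13 h14 h15; omega, by clear * - b2 b27 b33 h4 h13 h14; omega, by clear * - b6 h14; omega⟩
          exact T0_8 X hb ⟨by clear * - b27 b33 h1 h4 h13 h14; omega, by clear * - h16; omega, by clear * - b2 b27 b33 h1 h4 h13 h14; omega⟩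
        rcases lt_or_ge (-N + 2*a + 2*b - 2*c - 1) 0 with h17 | h17
        · exact T0_34 X hb ⟨by clear * - b2 h13 h14 h17; omega, by clear * - b2 b30 b33 h1 h4 h13 h14; omega⟩
        exact T0_9 X hb ⟨by clear * - b30 b33 h1 h4 h13 h15; omega, by clear * - h17; omega, by clear * - b2 b30 b33 h4 h13 h14; omega, by clear * - b30 b33 h1 h4 h13 h15; omega, by clear * - h15; omega⟩
      rcases lt_or_ge (3*a + 2*b - l - c - 2) 0 with h18 | h18
      · rcases lt_or_ge (-2*a - 2*b + l + c) 0 with h19 | h19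
        · rcases lt_or_ge (-2*a + l + 2*c) 0 with h20 | h20
          · exact T0_9 X hb ⟨by clear * - b27 b33 h1 h2 h4 h20; omega, by clear * - b2 b29 b33 h1 h2 h18 h20; omega, by clear * - b30 b33 h2 h14 h20; omega, by clear * - b27 b35 b38 h13 h14; omega, by clear * - b2 b27 b33 h1 h2 h18 h20; omega⟩
          exact T0_16 X hb ⟨by clear * - h18 h19; omega, by clear * - h20; omega, by clear * - b2 h19; omega, by clear * - h18; omega⟩
        rcases lt_or_ge (2*a + 2*b + c - 1) 0 with h21 | h21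
        · exact T0_35 X hb ⟨by clear * - b2 b27 b33 h1 h2 h19; omega, by clear * - b2 b4 b7 b29 b33 h1 h2 h19 h21; omega, by clear * - b2 b27 b33 h1 h2 h13 h21; omega, by clear * - b2 b27 b29 b33 h2 h13 h21; omega, by clear * - b2 b27 b33 h1 h2 h19 h21; omega⟩
        exact T0_17 X hb ⟨by clear * - h19; omega, by clear * - h21; omega⟩
      rcases lt_or_ge (a + 2*b + c - 1) 0 with h22 | h22
      · exact T0_9 X hb ⟨by clear * - b27 b33 h1 h2 h4 h18 h22; omega, by clear * - b2 b29 b33 h1 h2 h18 h22; omega, by clear * - b30 b33 h2 h14 h18 h22; omega, by clear * - b27 b35 b38 h13 h14; omega, by clear * - b2 b27 b33 h1 h2 h22; omega⟩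
      exact T0_12 X hb ⟨by clear * - h14; omega, by clear * - h18; omega, by clear * - h4 h13 h22; omega, by clear * - h22; omega⟩
    exact T0_3 X hb ⟨by clear * - h4; omega, by clear * - h13; omega⟩
  rcases lt_or_ge (b + c - 1) 0 with h23 | h23
  · rcases lt_or_ge (-2*N - a - b + 2*l + 4*m - 2*c - d + 3) 0 with h24 | h24
    · rcases lt_or_ge (-N + Q - i - a + b - c - 1) 0 with h25 | h25
      · rcases lt_or_ge (2*N - i - 2*l - 2*m + d - 4) 0 with h26 | h26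
        · rcases lt_or_ge (-4*N + i + 2*a + 2*b + 2*l + 4*m - 2*c - 2*d + 4) 0 with h27 | h27
          · rcases lt_or_ge (N - i - l - 2) 0 with h28 | h28
            · rcases lt_or_ge (i + 2*a + b + d) 0 with h29 | h29
              · rcases lt_or_ge (2*N + Q - i - 2*a - 4*b - l - 2) 0 with h30 | h30
                · rcases lt_or_ge (-N + a - l - c - 2*d - 2) 0 with h31 | h31
                  · exact T0_6 X hb ⟨by clear * - b27 b33 h23 h24 h25 h26 h28 h29 h30 h31; omega, by clear * - h2 h3 h26 h27; omega, by clear * - b15 b27 b33 h23 h25 h27 h28 h29 h30 h31; omega, by clear * - b15 b32 b33 h24 h25 h26 h29 h30 h31; omega⟩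
                  exact T0_22 X hb ⟨by clear * - b30 b33 h3 h23; omega, by clear * - b27 b33 h2 h23 h24 h26 h28 h29; omega, by clear * - h31; omega, by clear * - b30 b37 h24 h27; omega⟩
                exact T0_21 X hb ⟨by clear * - h30; omega, by clear * - h2 h3 h28; omega, by clear * - b30 b33 h2 h3 h24 h25 h28 h29 h30; omega⟩
              rcases lt_or_ge (-2*a - b - d - 1) 0 with h32 | h32
              · exact T0_3 X hb ⟨by clear * - b15 b27 b33 h2 h25 h27 h28 h32; omega, by clear * - b15 b27 b33 h2 h24 h25 h27 h28 h29 h32; omega⟩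
              exact T0_20 X hb ⟨by clear * - h29; omega, by clear * - h32; omega, by clear * - h2 h3 h23 h26 h27 h29; omega, by clear * - h2 h3 h26 h27 h29 h32; omega⟩
            rcases lt_or_ge (N - 2*a - 2*b - 1) 0 with h33 | h33
            · exact T0_15 X hb ⟨by clear * - h1 h26 h28; omega, by clear * - b27 b33 h2 h23 h24 h26 h27 h33; omega⟩
            exact T0_9 X hb ⟨by clear * - h26 h27 h28; omega, by clear * - b30 b33 h2 h3 h23 h24 h26; omega, by clear * - b30 b33 h2 h3 h23; omega, by clear * - h33; omega, by clear * - h28; omega⟩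
          rcases lt_or_ge (2*N - b - l - 2*m + c + d - 3) 0 with h34 | h34
          · rcases lt_or_ge (2*N - b - l - 2*m + c + d - 2) 0 with h35 | h35
            · exact T0_24 X hb ⟨by clear * - b2 b26 b27 b33 b36 h23 h24; omega, by clear * - b14 b27 b34 h2 h23 h24 h25; omega, by clear * - h35; omega⟩
            exact T0_23 X hb ⟨by clear * - h35; omega, by clear * - h34; omega, by clear * - b2 b9 b33 h23 h24 h34; omega⟩
          rcases lt_or_ge (-2*N - i + 2*b + 2*m - 2*c - 2*d) 0 with h36 | h36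
          · exact T0_15 X hb ⟨by clear * - b27 b36 h2 h24 h25 h26 h27 h36; omega, by clear * - b27 b33 h2 h23 h24 h26 h27 h36; omega⟩
          exact T0_19 X hb ⟨by clear * - h36; omega, by clear * - h34; omega, by clear * - h27; omega⟩
        exact T0_11 X hb (by clear * - h26; omega)
      exact T0_36 X hb ⟨by clear * - h25; omega, by clear * - b27 b33 h1 h2 h23; omega⟩
    rcases lt_or_ge (2*N - a - b - 2*m + 2*c + d - 2) 0 with h37 | h37
    · exact T0_25 X hb ⟨by clear * - b2 b26 b38 h1 h37; omega, by clear * - b6 h2 h23 h37; omega, by clear * - b2 b31 b38 h1 h37; omega⟩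
    rcases lt_or_ge (-2*N + a + b + l + 2*m - 2*c - d + 1) 0 with h38 | h38
    · exact T0_11 X hb (by clear * - h2 h3 h23 h38; omega)
    rcases lt_or_ge (2*N - i + a + b - 2*l - 2*m + d - 4) 0 with h39 | h39
    · rcases lt_or_ge (-i - 4*a - 2*b + 2*l + 2*m + 2) 0 with h40 | h40
      · rcases lt_or_ge (2*N + Q - i - 2*b - 2*l - 2*m - 4) 0 with h41 | h41
        · exact T0_6 X hb ⟨by clear * - b9 h2 h23 h37 h39 h40 h41; omega, by clear * - h2 h3 h37 h39; omega, by clear * - b2 b9 b26 b33 h23 h41; omega, by clear * - b6 h2 h3; omega⟩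
        exact T0_25 X hb ⟨by clear * - h41; omega, by clear * - h2 h24 h39 h40; omega, by clear * - b2 b31 b34 h1 h3 h23; omega⟩
      rcases lt_or_ge (i - 4*a - 2*b + 2*l + 2*c + 2) 0 with h42 | h42
      · exact T0_39 X hb ⟨by clear * - h37; omega, by clear * - h24; omega, by clear * - b14 b27 b38 h1 h2 h39 h42; omega, by clear * - h1 h24; omega, by clear * - b3 h39 h42; omega⟩
      exact T0_38 X hb ⟨by clear * - h40; omega, by clear * - h2 h23 h37 h38 h39; omega, by clear * - h3; omega, by clear * - h42; omega⟩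
    exact T0_5 X hb ⟨by clear * - h37; omega, by clear * - h38; omega, by clear * - h24; omega, by clear * - h1 h24; omega, by clear * - h39; omega⟩
  exact T0_2 X hb ⟨by clear * - h3; omega, by clear * - h23; omega⟩

theorem main (X : C W N Q i a b l m c d L) (hb : B N Q i a b l m c d L) : False := by
  have b4 := hb.b4
  have b7 := hb.b7
  have b14 := hb.b14
  have b25 := hb.b25
  have b26 := hb.b26
  have b27 := hb.b27
  have b29 := hb.b29
  have b30 := hb.b30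
  have b31 := hb.b31
  have b33 := hb.b33
  have b37 := hb.b37
  have b38 := hb.b38
  rcases lt_or_ge (-N + l + 2*m - c + 1) 0 with h1 | h1
  · rcases lt_or_ge (i + a - b) 0 with h2 | h2
    · exact M0 X hb h1 h2
    rcases lt_or_ge (-a + b - 1) 0 with h43 | h43
    · rcases lt_or_ge (i - b) 0 with h44 | h44
      · rcases lt_or_ge (-a - b + l + c) 0 with h45 | h45
        · rcases lt_or_ge (-2*N - a - b + 2*l + 4*m - 2*c - d + 3) 0 with h46 | h46
          · rcases lt_or_ge (2*a + b - l - 2) 0 with h47 | h47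
            · rcases lt_or_ge (2*N - i - 2*l - 2*m + d - 4) 0 with h48 | h48
              · rcases lt_or_ge (N - a - 2*b + c - 1) 0 with h49 | h49
                · rcases lt_or_ge (2*a - l - c - 2) 0 with h50 | h50
                  · exact T0_31 X hb ⟨by clear * - h45 h50; omega, by clear * - h43; omega, by clear * - b27 b33 h44 h45 h46 h48 h50; omega, by clear * - h43 h45; omega, by clear * - h50; omega⟩
                  rcases lt_or_ge (2*b + c - 1) 0 with h51 | h51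
                  · exact T0_46 X hb ⟨by clear * - b27 b33 h44 h46 h48 h51; omega, by clear * - h2 h44; omega, by clear * - b27 b37 h1 h49; omega⟩
                  exact T0_32 X hb ⟨by clear * - b27 b33 h43 h46 h47 h48; omega, by clear * - h50; omega, by clear * - h51; omega⟩
                rcases lt_or_ge (-2*N + i + 4*a + 4*b - 2*c) 0 with h52 | h52
                · rcases lt_or_ge (-a + b) 0 with h53 | h53
                  · exact T0_32 X hb ⟨by clear * - b30 b37 h45 h46 h47 h48 h52 h53; omega, by clear * - h45 h53; omega, by clear * - b30 b37 h44 h45 h46 h48 h52; omega⟩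
                  rcases lt_or_ge (-2*a + l + c + 1) 0 with h54 | h54
                  · exact T0_32 X hb ⟨by clear * - b30 b37 h46 h47 h48 h52 h54; omega, by clear * - h54; omega, by clear * - b30 b37 h44 h46 h48 h52 h53 h54; omega⟩
                  exact T0_31 X hb ⟨by clear * - h53; omega, by clear * - h43; omega, by clear * - b30 b37 h44 h45 h46 h48 h52 h54; omega, by clear * - h43 h45; omega, by clear * - h54; omega⟩
                exact T0_30 X hb ⟨by clear * - h44 h45 h47; omega, by clear * - h49; omega, by clear * - h52; omega⟩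
              exact T0_11 X hb (by clear * - h48; omega)
            rcases lt_or_ge (i - b + l + 2*c + 1) 0 with h55 | h55
            · rcases lt_or_ge (2*N - i - 2*l - 2*m + d - 4) 0 with h56 | h56
              · rcases lt_or_ge (-2*N - i + 2*b + 2*m - 2*c - 2*d) 0 with h57 | h57
                · exact T0_33 X hb ⟨by clear * - h43 h46 h55 h56 h57; omega, by clear * - h47 h55 h56; omega⟩
                rcases lt_or_ge (2*N - b - l - 2*m + c + d - 3) 0 with h58 | h58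
                · exact T0_2 X hb ⟨by clear * - h2 h44 h45; omega, by clear * - b27 b38 h43 h46 h58; omega⟩
                exact T0_19 X hb ⟨by clear * - h57; omega, by clear * - h58; omega, by clear * - h47 h55 h56; omega⟩
              exact T0_11 X hb (by clear * - h56; omega)
            exact T0_29 X hb ⟨by clear * - h47; omega, by clear * - h55; omega⟩
          rcases lt_or_ge (-2*N + a + b + l + 2*m - 2*c - d + 1) 0 with h59 | h59
          · rcases lt_or_ge (2*N - i - 2*l - 2*m + d - 4) 0 with h60 | h60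
            · exact T0_2 X hb ⟨by clear * - h2 h44 h45; omega, by clear * - h44 h45 h59 h60; omega⟩
            exact T0_11 X hb (by clear * - h60; omega)
          rcases lt_or_ge (2*N - i + a + b - 2*l - 2*m + d - 4) 0 with h61 | h61
          · exact T0_25 X hb ⟨by clear * - b26 b38 h1 h43 h44 h45 h61; omega, by clear * - h44 h45 h61; omega, by clear * - b31 b38 h1 h43 h44 h45 h61; omega⟩
          exact T0_5 X hb ⟨by clear * - b14 b25 b37 h1 h43; omega, by clear * - h59; omega, by clear * - h46; omega, by clear * - h1 h46; omega, by clear * - h61; omega⟩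
        rcases lt_or_ge (a + b + c - 1) 0 with h62 | h62
        · rcases lt_or_ge (-N + 2*a + 2*b - 2*c - 1) 0 with h63 | h63
          · rcases lt_or_ge (N - 3*a - 3*b + c - 1) 0 with h64 | h64
            · exact T0_12 X hb ⟨by clear * - b29 b33 h1 h43 h45 h62 h63; omega, by clear * - b27 b33 h1 h43 h44 h62 h64; omega, by clear * - b30 b37 h1 h44 h45; omega, by clear * - b27 b29 b33 h1 h44 h63 h64; omega⟩
            exact T0_35 X hb ⟨by clear * - h45 h63; omega, by clear * - b4 b7 b29 b33 h1 h43 h44 h62; omega, by clear * - b27 b33 h1 h43 h44 h62; omega, by clear * - b27 b29 b33 h2 h43 h44 h62; omega, by clear * - h64; omega⟩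
          exact T0_9 X hb ⟨by clear * - b27 b37 h1 h43 h45; omega, by clear * - h63; omega, by clear * - b27 b30 b33 h43 h44 h45 h62 h63; omega, by clear * - b27 b37 h1 h43 h62; omega, by clear * - b27 b33 h1 h43 h44 h62; omega⟩
        exact T0_3 X hb ⟨by clear * - h45; omega, by clear * - h62; omega⟩
      exact T0_28 X hb (by clear * - h44; omega)
    exact T0_1 X hb ⟨by clear * - h2; omega, by clear * - h43; omega⟩
  exact T0_0 X hb (by clear * - h1; omega)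


end Pool.Agent.MP_a38735_al.WL.E22o
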