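import Pool.Agent.MP_a38735_al.E31h

set_option autoImplicit false
set_option linter.unusedVariables false
set_option linter.unusedSimpArgs false

namespace Pool.Agent.MP_a38735_al.WL.E31

variable {G : Type*} [Group G]

variable {W : ℤ → G} {N Q i a b l m c d L U V Y : ℤ}

theorem T0_108 (X : C W N Q i a b l m c d L U V) (hb : B N Q i a b l m c d L U V)
    (h : Q + 2*a + 2*b ≤ 2*N + 2*c ∧ i + l + 2*m + 4 ≤ 2*N + Q + 2*d ∧ i + l + m + 2*c + 3 ≤ Q + 2*a + 2*b ∧ Q + 2*m + 2 ≤ 2*N + 2*b + 2*c + 2*d ∧ N + c + d ≤ m) :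
    False := by
  have b1 := hb.b1
  have b2 := hb.b2
  have b17 := hb.b17
  have b19 := hb.b19
  have b20 := hb.b20
  have b25 := hb.b25
  have b27 := hb.b27
  have b35 := hb.b35
  have b39 := hb.b39
  obtain ⟨g1, g2, g3, g4, g5⟩ := h
  have k1 : i + 2*b + l + 2*c + 2*d + 1 ≤ Q + m := by clear * - b2 b17 b19 b25 b39; omega
  have k2 : Q + 2*m + 2 ≤ 2*N + i + 2*a + 2*b + 2*c + 2*d := by clear * - b1 b2 g4; omega
  have k3 : m + 2 ≤ 2*N + c + d := by clear * - b20 b27 b35 g1 g2; omega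
  have k4 : i + l + m + 4 ≤ 2*N := by clear * - b2 b17 b19 b25 b39 g4; omega
  clear * - X g1 g2 g3 g4 g5 k1 k2 k3 k4
  obtain ⟨K0, hL⟩ : ∃ K0 : ℤ, 2*N - 2*a - 4*b + 2*c + 1 ≤ 2*K0 ∧ Q - 2*b + 1 ≤ 2*K0 ∧ 2*N - Q + i - 2*a - 2*b + l - m + 4*c + 2*d + 2 ≤ 2*K0 ∧ 2*K0 + 2*(-N + m - c - d + 1) - 2 ≤ 2*N + Q - i - 2*a - 4*b - l - 2 ∧ 2*K0 + 2*(-N + m - c - d + 1) - 2 ≤ Q - i - 2*b - l + m - 2*c - 2*d - 1 ∧ 2*K0 + 2*(-N + m - c - d + 1) - 2 ≤ 2*N - Q - 2*a - 2*b + 2*c ∧ 2*K0 + 2*(-N + m - c - d + 1) - 2 ≤ 2*N - Q + i - 2*b + 2*c ∧ 2*K0 + 2*(-N + m - c - d + 1) - 2 ≤ 4*N - 2*a - 4*b + 2*c - 1 := ⟨((max (2*N - Q + i - 2*a - 2*b + l - m + 4*c + 2*d + 2) (max (Q - 2*b + 1) (2*N - 2*a - 4*b + 2*c + 1))) + 1) / 2, by omega⟩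
  obtain ⟨R, hR1, hR2, hR⟩ := pw (A := 2*N + i + l - m + 2*c + 2*d + 1) (B := 2*N) (γ := -N + m - c - d + 1) (by omega) (fun t h1 h2 => (fin X.al.per 0 _ (pr X.d2 X.al.per 0 (-2*N + 2*m - 2*c - 2*d + t + 2) (rfl : W (t) = W (t)) (by omega)) (by omega))) K0
  exact X.al.ubQ (-2*N + 2*a + 4*b - 2*c + 2*R) (by omega) (by omega) fun t h1 h2 => (fin X.al.per 0 _ (pf X.a2 X.al.per 1 (-2*N + 2*a + 4*b - 2*c + t + 2*R) (pp hR X.al.per 0 (2*a + 2*b - 2*c + t + 2*R) (pf X.c1 X.al.per 0 (2*a + 2*b - 2*c + t) (rfl : W (t) = W (t)) (by omega)) (by omega)) (by omega)) (by omega))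

theorem T0_110 (X : C W N Q i a b l m c d L U V) (hb : B N Q i a b l m c d L U V)
    (h : a + b + m + U + 2 ≤ 2*N + l + 2*c + d ∧ a + b + d + 2*V + 1 ≤ 0 ∧ 2*N + i + l + 2*c + d ≤ Q + a + b + m + U) :
    False := by
  have b4 := hb.b4
  have b8 := hb.b8
  have b17 := hb.b17
  obtain ⟨g1, g2, g3⟩ := h
  have k1 : 2*N + 2*c + d ≤ a + b + m + U + 1 := by clear * - b8 g3; omega
  have k2 : Q + m + U + 1 ≤ 2*N + i + a + b + l + 2*c + d := by clear * - b4 g1; omega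
  have k3 : a + b + d + 1 ≤ 0 := by clear * - b17 g2; omega
  clear * - X g1 g2 g3 k1 k2 k3
  exact X.al.ninv (2*N + i - a - b + l - m + 2*c + d - U - 1) (fin X.al.per 0 _ (ar X.t2 X.al.per 0 (2*N + i - a - b + l - m + 2*c + d - U - 1) (pf X.f2 X.al.per 0 (2*N + i + a + b + l - m + 2*c + 3*d - U + 2*V - 1) (pf X.bb X.al.per 0 (2*N + i + a + b + l - m + 2*c + d - U - 1) (rfl : W (2*N + i - a - b + l - m + 2*c + d - U - 1) = W (2*N + i - a - b + l - m + 2*c + d - U - 1)) (by omega)) (by omega)) (by omega)) (by omega))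

theorem T0_111 (X : C W N Q i a b l m c d L U V) (hb : B N Q i a b l m c d L U V)
    (h : i + 2*a + 2*b + l + 2*c + 2*d + 2*V + 2 ≤ 0 ∧ 1 ≤ N + c + d + V ∧ i + 2*a + 2*b + 2*d + 2*V + 1 ≤ 0 ∧ 2*N + 2*c ≤ i + 2*a + 2*b + l + 1 ∧ m + U + 1 ≤ i + l) :
    False := by
  have b26 := hb.b26
  have b37 := hb.b37
  obtain ⟨g1, g2, g3, g4, g5⟩ := h
  have k1 : c + d + V + 1 ≤ 0 := by clear * - b26 b37 g2 g5; omega
  clear * - X g1 g2 g3 g4 g5 k1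
  exact X.al.ubP (2*N + 2*c + 2*d + 2*V) (by omega) (by omega) fun t h1 h2 => (fin X.al.per 0 _ (pr X.f1 X.al.per 0 (2*N + 2*c + 2*d + 2*V + t) (pf X.bb X.al.per 0 (2*N + 2*c + t) (pf X.c2 X.al.per (-1) (2*N - 2*a - 2*b + 2*c + t) (rfl : W (t) = W (t)) (by omega)) (by omega)) (by omega)) (by omega))

theorem T0_112 (X : C W N Q i a b l m c d L U V) (hb : B N Q i a b l m c d L U V)
    (h : 2*N + i + l + 2*c + 4*d + 2*V + 1 ≤ 2*a + 2*b + m ∧ a + b + m + 2 ≤ 2*N + c + 2*d + V ∧ i + 2*d + 2*V + 1 ≤ 0 ∧ 4*N + 2*c + 2*d ≤ i + 2*a + 2*b + l + 2*m + 3 ∧ 2*N + 2*d + U ≤ i + 2*a + 2*b + l + m + 1) :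
    False := by
  have b26 := hb.b26
  have b37 := hb.b37
  obtain ⟨g1, g2, g3, g4, g5⟩ := h
  have k1 : N + c + 2*d + V ≤ a + b + m := by clear * - b26 b37 g2 g5; omega
  clear * - X g1 g2 g3 g4 g5 k1
  exact X.al.ubP (4*N - 2*a - 2*b - 2*m + 2*c + 4*d + 2*V - 2) (by omega) (by omega) fun t h1 h2 => (fin X.al.per 0 _ (pr X.f1 X.al.per 0 (4*N - 2*a - 2*b - 2*m + 2*c + 4*d + 2*V + t - 2) (pr X.bb X.al.per 0 (4*N - 2*a - 2*b - 2*m + 2*c + 2*d + t - 2) (pf X.d2 X.al.per (-1) (4*N - 2*m + 2*c + 2*d + t - 2) (rfl : W (t) = W (t)) (by omega)) (by omega)) (by omega)) (by omega))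

theorem T0_115 (X : C W N Q i a b l m c d L U V) (hb : B N Q i a b l m c d L U V)
    (h : 2*N + i + l + 2*c + 6*d + 2*V + 1 ≤ m ∧ Q + 2*d + 2*V ≤ 0 ∧ 3*m + 2 ≤ 4*N + i + l + 4*c + 6*d + 2*V ∧ 3*m + U + 3 ≤ 4*N + i + l + 4*c + 4*d + 2*V ∧ N + c + d ≤ m) :
    False := by
  have b11 := hb.b11
  have b29 := hb.b29
  have b38 := hb.b38
  obtain ⟨g1, g2, g3, g4, g5⟩ := h
  have k1 : m + 1 ≤ 2*N + c + 3*d + V := by clear * - b11 g3; omega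
  have k2 : m + 2 ≤ 2*N + c + d := by clear * - b29 b38 g1 g2 g3 g4 g5; omega
  have k3 : i + l + m + 4 ≤ 2*N := by clear * - b11 g1 g3; omega
  clear * - X g1 g2 g3 g4 g5 k1 k2 k3
  obtain ⟨K0, hL⟩ : ∃ K0 : ℤ, -2*N - 4*d - 2*V + 1 ≤ 2*K0 ∧ i + l - m + 2*c + 2*d + 2 ≤ 2*K0 ∧ -2*N + Q - 2*d + 1 ≤ 2*K0 ∧ 2*K0 + 2*(-N + m - c - d + 1) - 2 ≤ -2*N - i - l + m - 2*c - 6*d - 2*V - 1 ∧ 2*K0 + 2*(-N + m - c - d + 1) - 2 ≤ 0 ∧ 2*K0 + 2*(-N + m - c - d + 1) - 2 ≤ i + l - m + 2*c ∧ 2*K0 + 2*(-N + m - c - d + 1) - 2 ≤ i + l - m + 2*c - 2*d - U - 1 ∧ 2*K0 + 2*(-N + m - c - d + 1) - 2 ≤ -4*d - 2*V - 1 := ⟨((max (-2*N + Q - 2*d + 1) (max (i + l - m + 2*c + 2*d + 2) (-2*N - 4*d - 2*V + 1))) + 1) / 2, by omega⟩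
  obtain ⟨R, hR1, hR2, hR⟩ := pw (A := 2*N + i + l - m + 2*c + 2*d + 1) (B := 2*N) (γ := -N + m - c - d + 1) (by omega) (fun t h1 h2 => (fin X.al.per 0 _ (pr X.d2 X.al.per 0 (-2*N + 2*m - 2*c - 2*d + t + 2) (rfl : W (t) = W (t)) (by omega)) (by omega))) K0
  exact X.al.ubP (2*N + 4*d + 2*V + 2*R) (by omega) (by omega) fun t h1 h2 => (fin X.al.per 0 _ (pr X.f1 X.al.per 0 (2*N + 4*d + 2*V + t + 2*R) (pr X.d1 X.al.per 0 (2*N + 2*d + t + 2*R) (pp hR X.al.per (-1) (2*N + t + 2*R) (rfl : W (t) = W (t)) (by omega)) (by omega)) (by omega)) (by omega))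

theorem T0_116 (X : C W N Q i a b l m c d L U V) (hb : B N Q i a b l m c d L U V)
    (h : 2*a + 2*b + m + 2 ≤ 2*N + 2*c ∧ 2*a + 2*b + m + 1 ≤ 2*N + l + 4*c ∧ 2*N + 4*c ≤ 2*a + 2*b + m ∧ c ≤ d ∧ d ≤ c) :
    False := by
  have b11 := hb.b11
  obtain ⟨g1, g2, g3, g4, g5⟩ := h
  clear * - X g1 g2 g3 g4 g5 b11
  exact X.n3.yz (fin X.al.per 0 _ (pf X.bb X.al.per 0 (2*N + i + l - m + 4*c) (pf X.c2 X.al.per 0 (2*N + i - 2*a - 2*b + l - m + 4*c) (rfl : W (2*N + i + l - m + 2*c) = W (2*N + i + l - m + 2*c)) (by omega)) (by omega)) (by omega)).symm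

theorem T0_119 (X : C W N Q i a b l m c d L U V) (hb : B N Q i a b l m c d L U V)
    (h : 2*a + 2*b + m + 1 ≤ 2*N + l + 2*c + 2*d ∧ 2*N + 2*c ≤ l + 2*m + 2 ∧ 2*a + 2*b ≤ U ∧ 4*N + 4*c + 2*d ≤ 3*m + U + 3 ∧ a + b + m + 2 ≤ N + c ∧ 2*N + 2*c + 2*d ≤ m ∧ Q + m + L + 1 ≤ 2*N + i + 2*a + 2*b + l + 2*c + 2*d ∧ 2*m + L + 4 ≤ 2*N + 2*a + 2*b + 2*c) :
    False := by
  have b11 := hb.b11
  have b28 := hb.b28
  have b34 := hb.b34
  have b38 := hb.b38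
  obtain ⟨g1, g2, g3, g4, g5, g6, g7, g8⟩ := h
  have k1 : i + 2*a + 2*b + 1 ≤ 2*N + 2*d := by clear * - b11 g1; omega
  have k2 : i + 2*a + 2*b + l + 2*c ≤ m + U := by clear * - b11 g3; omega
  have k3 : i + 2*a + 2*b + l + m + 3 ≤ 2*N := by clear * - b11 g5; omega
  have k4 : c ≤ a + b + m := by clear * - b28 b34 b38 g6 g7; omega
  have k5 : Q + L + 1 ≤ 2*N + 2*a + 2*b + 2*d := by clear * - b11 g7; omega
  have k6 : i + l + m + L + 4 ≤ 2*N + 2*a + 2*b := by clear * - b11 g8; omega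
  clear * - X g1 g2 g3 g4 g5 g6 g7 g8 k1 k2 k3 k4 k5 k6
  exact absurd (X.lam.mx (max (-2*N + i + 2*a + 2*b + 2*m - 2*c + 3) (max (i + l + m + 2*d + 3) (Q))) (min (2*N + 2*a + 2*b + 2*d) (min (2*N + i + 2*a + 2*b + l - m + 2*c + 2*d) (i + 2*a + 2*b + l + 1))) (2*N - 2*a - 2*b - 2*m + 2*c - 2) (by omega) (by omega) fun t h1 h2 => by (try simp only [max_le_iff, lt_min_iff] at h1 h2); exact (lt_or_ge t (min (-2*N + i + 2*a + 2*b + l + 2*m - 2*c + 3) (min (2*N + 2*d) (2*N + i + l - m + 2*c + 2*d)))).elim (fun u0 => by (try simp only [lt_min_iff] at u0); exact (fin X.al.per 0 _ (pr X.bb X.al.per 0 (2*N - 2*a - 2*b - 2*m + 2*c + t - 2) (pf X.d2 X.al.per 0 (2*N - 2*m + 2*c + t - 2) (pf X.d1 X.al.per 0 (-2*d + t) (rfl : W (t) = W (t)) (by omega)) (by omega)) (by omega)) (by omega))) (fun u0 => (fin X.al.per 0 _ (pf X.d2 X.al.per 0 (2*N - 2*a - 2*b - 2*m + 2*c + t - 2)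 (pf X.f3 X.al.per 0 (-2*a - 2*b - 2*d + t) (pr X.bb X.al.per 0 (-2*a - 2*b + t) (rfl : W (t) = W (t)) (by omega)) (by omega)) (by omega)) (by omega)))) (by omega)

theorem T0_123 (X : C W N Q i a b l m c d L U V) (hb : B N Q i a b l m c d L U V)
    (h : 2*a + b + d + V + 1 ≤ 0 ∧ i + 1 ≤ Q + b + d + V ∧ 2*a + b + m + U + 2 ≤ 2*N + l + 2*c + d + V) :
    False := by
  have b2 := hb.b2
  have b4 := hb.b4
  have b8 := hb.b8
  obtain ⟨g1, g2, g3⟩ := h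
  have k1 : Q + d + V ≤ i + 2*a + b := by clear * - b2 b4 g1; omega
  have k2 : b + d + V + 1 ≤ 0 := by clear * - b2 g1; omega
  have k3 : 0 ≤ b + l + d + V := by clear * - b8 g2; omega
  clear * - X g1 g2 g3 k1 k2 k3
  exact X.al.ninv (i - b - d - V) (fin X.al.per 0 _ (pr X.bb X.al.per 0 (i - b - d - V) (pr X.f2 X.al.per 0 (i + 2*a + b - d - V) (af X.s2 X.al.per 0 (i + 2*a + b + d + V) (rfl : W (i - b - d - V) = W (i - b - d - V)) (by omega)) (by omega)) (by omega)) (by omega))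

theorem T0_127 (X : C W N Q i a b l m c d L U V) (hb : B N Q i a b l m c d L U V)
    (h : a ≤ 0 ∧ Q ≤ 2*b ∧ 2*N + Q + 2*c ≤ i + 2*a + 4*b + l + 1 ∧ Q + m + U + 1 ≤ i + 2*b + l ∧ i + 2*a + l + 2 ≤ 2*N + 2*d + 2*V ∧ 2*a + m + U + 3 ≤ 2*N + 2*d + 2*V ∧ i + 2*a + 2*b + l + 2*c + 2*d + 2*V + 2 ≤ 0 ∧ i + 2*a + 2*b + 2*d + 2*V + 1 ≤ 0) :
    False := by
  have b1 := hb.b1
  have b2 := hb.b2
  have b6 := hb.b6
  have b17 := hb.b17
  have b20 := hb.b20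
  have b27 := hb.b27
  have b29 := hb.b29
  have b35 := hb.b35
  have b38 := hb.b38
  obtain ⟨g1, g2, g3, g4, g5, g6, g7, g8⟩ := h
  have k1 : c + 1 ≤ b + d + V := by clear * - b17 b29 b38 g4; omega
  have k2 : 0 ≤ i + 2*a := by clear * - b1 b2; omega
  have k3 : 2*b + m + U + 1 ≤ 2*N + i + l + 2*c := by clear * - b2 b6 g6 g7; omega
  have k4 : 1 ≤ N + c + d + V := by clear * - b2 b6 g5; omega
  have k5 : c + d + V + 1 ≤ 0 := by clear * - b20 b27 b35 g7; omega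
  clear * - X g1 g2 g3 g4 g5 g6 g7 g8 b2 k1 k2 k3 k4 k5
  exact X.al.ubP (2*N + 2*c + 2*d + 2*V) (by omega) (by omega) fun t h1 h2 => by (try simp only [max_le_iff, lt_min_iff] at h1 h2); exact (lt_or_ge t (min (i + l - m - U - 1) (min (-2*N + i + 2*a + 2*b + l - 2*c + 1) (0)))).elim (fun u0 => by (try simp only [lt_min_iff] at u0); exact (fin X.al.per 0 _ (pr X.f1 X.al.per 0 (2*N + 2*c + 2*d + 2*V + t) (pf X.bb X.al.per 0 (2*N + 2*c + t) (pf X.c2 X.al.per (-1) (2*N - 2*a - 2*b + 2*c + t) (rfl : W (t) = W (t)) (by omega)) (by omega)) (by omega)) (by omega))) (fun u0 => (fin X.al.per 0 _ (pf X.c2 X.al.per (-1) (2*N - 2*a + 2*c + 2*d + 2*V + t) (pf X.f2 X.al.per 0 (2*b + 2*d + 2*V + t) (pf X.a2 X.al.per 0 (2*b + t) (rfl : W (t) = W (t)) (by omega)) (by omega)) (by omega)) (by omega)))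

theorem T0_128 (X : C W N Q i a b l m c d L U V) (hb : B N Q i a b l m c d L U V)
    (h : 2*N + 2*c ≤ m + U + 1 ∧ 0 ≤ l + 2*d ∧ 2*a + 2*b + m + 2 ≤ 2*N + 2*c) :
    False := by
  have b4 := hb.b4
  have b6 := hb.b6
  have b13 := hb.b13
  have b17 := hb.b17
  have b19 := hb.b19
  have b20 := hb.b20
  obtain ⟨g1, g2, g3⟩ := h
  have k1 : m + 2 ≤ 2*N + 2*c := by clear * - b6 b13; omega
  have k2 : d + 1 ≤ 0 := by clear * - b17 b19 b20; omega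
  have k3 : Q ≤ i + 2*a + 2*b + l + 2*d + 1 := by clear * - b4 g2; omega
  clear * - X g1 g2 g3 k1 k2 k3
  exact X.n2.yz (fin X.al.per 0 _ (pf X.d1 X.al.per 0 (i + 2*a + 2*b + l + 1) (pf X.bb X.al.per 0 (i + 2*a + 2*b + l + 2*d + 1) (pr X.f3 X.al.per 0 (i + l + 2*d + 1) (rfl : W (i + l + 1) = W (i + l + 1)) (by omega)) (by omega)) (by omega)) (by omega)).symm

theorem T0_129 (X : C W N Q i a b l m c d L U V) (hb : B N Q i a b l m c d L U V)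
    (h : i + l + 2*d + 2 ≤ Q ∧ c + 1 ≤ d ∧ Q + 2*a + 2*b + m ≤ 2*N + i + l + 4*c ∧ Q + 2*d ≤ i + l + 2*c + 1) :
    False := by
  have b2 := hb.b2
  have b3 := hb.b3
  have b4 := hb.b4
  have b29 := hb.b29
  have b34 := hb.b34
  obtain ⟨g1, g2, g3, g4⟩ := h
  have k1 : 0 ≤ a + b := by clear * - b2 b3 b4; omega
  have k2 : i + 1 ≤ Q := by clear * - b2 b3; omega
  have k3 : d + 1 ≤ N + c := by clear * - b29 b34 g1 g2 g4; omega
  clear * - X g1 g2 g3 g4 k1 k2 k3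
  exact X.al.ubQ (-2*c + 2*d) (by omega) (by omega) fun t h1 h2 => (fin X.al.per 0 _ (pr X.bb X.al.per 0 (-2*c + 2*d + t) (pr X.d1 X.al.per 0 (2*a + 2*b - 2*c + 2*d + t) (pf X.c1 X.al.per 0 (2*a + 2*b - 2*c + t) (rfl : W (t) = W (t)) (by omega)) (by omega)) (by omega)) (by omega))

theorem T0_133 (X : C W N Q i a b l m c d L U V) (hb : B N Q i a b l m c d L U V)
    (h : N + Q + a + d ≤ i + l + m + 2 ∧ l + m + 3 ≤ N + 3*a + 2*b + d ∧ m + 2 ≤ N + a + d ∧ N + d + 1 ≤ a + 2*b ∧ N + a + 2*b + 2*c + d ≤ 2*m + 1 ∧ m + 2 ≤ N + a + 2*b + 2*c + d) :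
    False := by
  have b2 := hb.b2
  have b3 := hb.b3
  have b9 := hb.b9
  obtain ⟨g1, g2, g3, g4, g5, g6⟩ := h
  have k1 : N + a + d ≤ l + m + 1 := by clear * - b2 b3 g1; omega
  have k2 : i + a + 2*b + l + m + 3 ≤ 3*N + d := by clear * - b9 g3; omega
  clear * - X g1 g2 g3 g4 g5 g6 k1 k2
  exact X.al.ninv (-N + i - a - 2*b + l + m - d + 2) (fin X.al.per 0 _ (ar X.S2 X.al.per 0 (-N + i - a - 2*b + l + m - d + 2) (pf X.d2 X.al.per 0 (N + i + a + 2*b + l - m + 2*c + d) (pf X.bb X.al.per 0 (-N + i + a + 2*b + l + m - d + 2) (pf X.a2 X.al.per 0 (-N + i - a + l + m - d + 2) (rfl : W (-N + i - a - 2*b + l + m - d + 2) = W (-N + i - a - 2*b + l + m - d + 2)) (by omega)) (by omega)) (by omega)) (by omega)) (by omega))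

theorem T0_135 (X : C W N Q i a b l m c d L U V) (hb : B N Q i a b l m c d L U V)
    (h : Q + 2*V ≤ 2*a + 2*b ∧ 2*b + m ≤ 2*N + i + l + 2*c + 2*d ∧ i + 2*d + 2*V + 1 ≤ 0 ∧ 0 ≤ i + 2*a + l + 2*d + 1 ∧ a + 1 ≤ V) :
    False := by
  have b1 := hb.b1
  have b2 := hb.b2
  have b18 := hb.b18
  have b24 := hb.b24
  have b33 := hb.b33
  obtain ⟨g1, g2, g3, g4, g5⟩ := h
  have k1 : 0 ≤ i + 2*a := by clear * - b1 b2; omega
  have k2 : m + U + 1 ≤ 2*N + i + 2*a + l + 2*c + 2*d := by clear * - b2 b18; omega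
  have k3 : V + 1 ≤ N + a := by clear * - b24 b33 g3 g4 g5; omega
  clear * - X g1 g2 g3 g4 g5 k1 k2 k3
  exact X.al.ubP (-2*a + 2*V) (by omega) (by omega) fun t h1 h2 => (fin X.al.per 0 _ (pr X.f1 X.al.per 0 (-2*a + 2*V + t) (pr X.bb X.al.per 0 (-2*a - 2*d + t) (pf X.d1 X.al.per 0 (2*b - 2*d + t) (pf X.a2 X.al.per 0 (2*b + t) (rfl : W (t) = W (t)) (by omega)) (by omega)) (by omega)) (by omega)) (by omega))

theorem T0_136 (X : C W N Q i a b l m c d L U V) (hb : B N Q i a b l m c d L U V)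
    (h : c ≤ i + 2*a + d ∧ Q + c ≤ i + 2*a + 2*b + d ∧ 2*a + 2*b + m + 1 ≤ 2*N + l + 3*c + d ∧ l + c + d + 2 ≤ 0 ∧ 2*a + d + 1 ≤ c) :
    False := by
  have b2 := hb.b2
  have b11 := hb.b11
  obtain ⟨g1, g2, g3, g4, g5⟩ := h
  have k1 : d + 1 ≤ c := by clear * - b2 g5; omega
  have k2 : i + 2*a + 2*b + 1 ≤ 2*N + c + d := by clear * - b11 g3; omega
  clear * - X g1 g2 g3 g4 g5 k1 k2
  exact X.al.ninv (i + 2*a - c + d) (fin X.al.per 0 _ (ar X.s1 X.al.per 0 (i + 2*a - c + d) (pf X.c2 X.al.per 0 (i + c - d) (pf X.d1 X.al.per 0 (i + 2*a + 2*b - c - d) (pf X.a1 X.al.per 0 (i + 2*a + 2*b - c + d) (rfl : W (i + 2*a - c + d) = W (i + 2*a - c + d)) (by omega)) (by omega)) (by omega)) (by omega)) (by omega))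

theorem T0_137 (X : C W N Q i a b l m c d L U V) (hb : B N Q i a b l m c d L U V)
    (h : m + U + 1 ≤ N + i + a + l + c + d ∧ N + l + c + d ≤ a + m + U ∧ Q + m + U + 1 ≤ N + i + a + 2*b + l + c + d ∧ a + m + U + 3 ≤ 3*N + c + 3*d + 2*V ∧ N + i + a + 2*b + l + c + 3*d + 2*V ≤ m + U ∧ a + 1 ≤ N + c + d) :
    False := by
  have b17 := hb.b17
  obtain ⟨g1, g2, g3, g4, g5, g6⟩ := h
  have k1 : a + 2*b + d + 1 ≤ N + c := by clear * - b17 g1 g5 g6; omega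
  clear * - X g1 g2 g3 g4 g5 g6 k1
  exact X.al.ninv (N + i + a + l - m + c + d - U - 1) (fin X.al.per 0 _ (ar X.t1 X.al.per 0 (N + i + a + l - m + c + d - U - 1) (pf X.c2 X.al.per (-1) (3*N + i - a + l - m + 3*c + 3*d - U + 2*V - 1) (pf X.f2 X.al.per 0 (N + i + a + 2*b + l - m + c + 3*d - U + 2*V - 1) (pf X.a1 X.al.per 0 (N + i + a + 2*b + l - m + c + d - U - 1) (rfl : W (N + i + a + l - m + c + d - U - 1) = W (N + i + a + l - m + c + d - U - 1)) (by omega)) (by omega)) (by omega)) (by omega)) (by omega))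

theorem T0_139 (X : C W N Q i a b l m c d L U V) (hb : B N Q i a b l m c d L U V)
    (h : N + Q + c + d + V ≤ i + 2*a + 2*b ∧ 2*a + 2*b + m + U + 2 ≤ 3*N + l + 3*c + d + V ∧ l + c + 2 ≤ N + d + V ∧ N + i + c + d + V + 1 ≤ Q ∧ 2*a + 1 ≤ N + c + d + V) :
    False := by
  have b2 := hb.b2
  obtain ⟨g1, g2, g3, g4, g5⟩ := h
  have k1 : 1 ≤ N + c + d + V := by clear * - b2 g5; omega
  clear * - X g1 g2 g3 g4 g5 k1
  exact X.al.ninv (-N + i + 2*a - c - d - V) (fin X.al.per 0 _ (af X.s2 X.al.per 0 (-N + i + 2*a - c - d - V) (pr X.c1 X.al.per (-1) (N + i + c + d + V) (pf X.f2 X.al.per 0 (-N + i + 2*a + 2*b - c + d + V) (pf X.a2 X.al.per 0 (-N + i + 2*a + 2*b - c - d - V) (rfl : W (-N + i + 2*a - c - d - V) = W (-N + i + 2*a - c - d - V)) (by omega)) (by omega)) (by omega)) (by omega)) (by omega))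

theorem T0_142 (X : C W N Q i a b l m c d L U V) (hb : B N Q i a b l m c d L U V)
    (h : 2*a + 2*b + m + U + 2 ≤ 4*N + l + 4*c + 2*d + 2*V ∧ 0 ≤ N + c + d + V ∧ N + c + d + V ≤ 0) :
    False := by
  have b2 := hb.b2
  have b3 := hb.b3
  have b4 := hb.b4
  have b17 := hb.b17
  have b29 := hb.b29
  have b33 := hb.b33
  obtain ⟨g1, g2, g3⟩ := h
  have k1 : l + 2*c + 2 ≤ 0 := by clear * - b17 b29 b33 g3; omega
  have k2 : i + 1 ≤ Q := by clear * - b2 b3; omega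
  have k3 : 2*N + Q + 2*c + 2*d + 2*V ≤ i + 2*a + 2*b := by clear * - b4 g3; omega
  clear * - X g1 g2 g3 k1 k2 k3
  exact X.n1.xz (fin X.al.per 0 _ (pr X.f2 X.al.per 1 (-2*N + i + 2*a + 2*b - 2*c - 2*d - 2*V) (pf X.c1 X.al.per 0 (i + 2*a + 2*b - 2*c) (rfl : W (i) = W (i)) (by omega)) (by omega)) (by omega)).symm

theorem T0_143 (X : C W N Q i a b l m c d L U V) (hb : B N Q i a b l m c d L U V)
    (h : N + c + d + V + 1 ≤ 0 ∧ Q + 2*a + 2*b + m + U + 1 ≤ 4*N + i + l + 4*c + 2*d + 2*V) :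
    False := by
  have b2 := hb.b2
  have b3 := hb.b3
  have b4 := hb.b4
  have b6 := hb.b6
  have b13 := hb.b13
  have b17 := hb.b17
  have b29 := hb.b29
  have b33 := hb.b33
  have b34 := hb.b34
  have b37 := hb.b37
  have b39 := hb.b39
  obtain ⟨g1, g2⟩ := h
  have k1 : i + l + 2 ≤ 2*N + Q + 2*d + 2*V := by clear * - b2 b3 b17 b29 b33; omega
  have k2 : 0 ≤ a + b := by clear * - b2 b3 b4; omega
  have k3 : i + 1 ≤ Q := by clear * - b2 b3; omega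
  have k4 : Q ≤ 2*N + i + l + 2*c + 2*d + 2*V + 1 := by clear * - b17 b29 b34; omega
  have k5 : 1 ≤ 2*N + c + d + V := by clear * - b6 b13 b17 b29 b37 b39; omega
  clear * - X g1 g2 k1 k2 k3 k4 k5
  exact X.al.ubQ (-2*N - 2*c - 2*d - 2*V) (by omega) (by omega) fun t h1 h2 => (fin X.al.per 0 _ (pr X.bb X.al.per 0 (-2*N - 2*c - 2*d - 2*V + t) (pr X.f2 X.al.per 1 (-2*N + 2*a + 2*b - 2*c - 2*d - 2*V + t) (pf X.c1 X.al.per 0 (2*a + 2*b - 2*c + t) (rfl : W (t) = W (t)) (by omega)) (by omega)) (by omega)) (by omega))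

theorem T0_145 (X : C W N Q i a b l m c d L U V) (hb : B N Q i a b l m c d L U V)
    (h : c ≤ d + V ∧ d + V ≤ c ∧ 2*a + 2*b + m + 2 ≤ 2*N + 2*c ∧ 2*a + 2*b + m + 2*d + U + 3 ≤ 2*N + 2*c ∧ 2*a + 2*b + m + 1 ≤ 2*N + l + 4*c ∧ 2*a + 2*b + m + 2*d + U + 2 ≤ 2*N + l + 4*c ∧ 0 ≤ 2*c + U ∧ d + 1 ≤ c ∧ Q + 2*d + 2*V ≤ 0 ∧ 2*N + 2*c ≤ i + 2*a + 2*b + l + 1) :
    False := by
  have b29 := hb.b29
  have b38 := hb.b38
  have b39 := hb.b39
  obtain ⟨g1, g2, g3, g4, g5, g6, g7, g8, g9, g10⟩ := h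
  have k1 : 1 ≤ N + 2*d + V := by clear * - b29 b39 g1 g7; omega
  have k2 : 2*d + V + 1 ≤ 0 := by clear * - b29 b38 g4 g8 g9 g10; omega
  clear * - X g1 g2 g3 g4 g5 g6 g7 g8 g9 g10 k1 k2
  exact X.al.ubP (2*N + 4*d + 2*V) (by omega) (by omega) fun t h1 h2 => by (try simp only [max_le_iff, lt_min_iff] at h1 h2); exact (lt_or_ge t (min (i + l - m + 2*c - 2*d - U - 1) (i + l - m + 2*c))).elim (fun u0 => by (try simp only [lt_min_iff] at u0); exact (fin X.al.per 0 _ (pr X.f1 X.al.per 0 (2*N + 4*d + 2*V + t) (pr X.d1 X.al.per (-1) (2*N + 2*d + t) (rfl : W (t) = W (t)) (by omega)) (by omega)) (by omega))) (fun u0 => (fin X.al.per 0 _ (pr X.f3 X.al.per 0 (2*N + 2*c + 2*d + t) (pf X.bb X.al.per 0 (2*N + 2*c + t) (pf X.c2 X.al.per (-1) (2*N - 2*a - 2*b + 2*c + t) (rfl : W (t) = W (t)) (by omega)) (by omega)) (by omega)) (by omega)))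

theorem T0_146 (X : C W N Q i a b l m c d L U V) (hb : B N Q i a b l m c d L U V)
    (h : 2*N + i + 2*c + 2*d + 2*V + 1 ≤ Q ∧ Q + 2*a + 2*b + 2*d + 2*V ≤ 0 ∧ 1 ≤ N + c + d + V) :
    False := by
  have b4 := hb.b4
  have b7 := hb.b7
  have b8 := hb.b8
  have b17 := hb.b17
  have b18 := hb.b18
  have b24 := hb.b24
  have b29 := hb.b29
  have b33 := hb.b33
  have b35 := hb.b35
  obtain ⟨g1, g2, g3⟩ := h
  have k1 : N + c + d + V ≤ a + b := by clear * - b4 g1; omega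
  have k2 : Q + 2*a + 2*b + m + U + 1 ≤ 2*N + i + l + 2*c := by clear * - b17 b18 g2; omega
  have k3 : c + d + V + 1 ≤ 0 := by clear * - b17 b24 b29 b33 b35 g1 g2 g3; omega
  clear * - X g1 g2 g3 b8 k1 k2 b7 k3
  exact X.al.ubQ (2*N + 2*c + 2*d + 2*V) (by omega) (by omega) fun t h1 h2 => (fin X.al.per 0 _ (pf X.c2 X.al.per (-1) (2*N + 2*c + 2*d + 2*V + t) (pf X.f2 X.al.per 0 (2*a + 2*b + 2*d + 2*V + t) (pf X.bb X.al.per 0 (2*a + 2*b + t) (rfl : W (t) = W (t)) (by omega)) (by omega)) (by omega)) (by omega))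

theorem T0_147 (X : C W N Q i a b l m c d L U V) (hb : B N Q i a b l m c d L U V)
    (h : N + 2*d + V + 1 ≤ 0) :
    False := by
  have b14 := hb.b14
  have b17 := hb.b17
  have b29 := hb.b29
  have b30 := hb.b30
  have b38 := hb.b38
  have b39 := hb.b39
  have g1 := h
  have k1 : i + l + 2*c ≤ Q + m + 2*d + U + 2*V := by clear * - b17 b29 b38; omega
  have k2 : Q + m + U + 1 ≤ 4*N + i + l + 2*c + 4*d + 2*V := by clear * - b14 b17 b29 b39; omega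
  have k3 : 1 ≤ 2*N + 2*d + V := by clear * - b17 b29 b30; omega
  clear * - X g1 k1 b14 k2 k3
  exact X.al.ubQ (-2*N - 4*d - 2*V) (by omega) (by omega) fun t h1 h2 => (fin X.al.per 0 _ (pr X.f2 X.al.per 1 (-2*N - 4*d - 2*V + t) (pf X.f3 X.al.per 0 (-2*d + t) (rfl : W (t) = W (t)) (by omega)) (by omega)) (by omega))

theorem T0_149 (X : C W N Q i a b l m c d L U V) (hb : B N Q i a b l m c d L U V)
    (h : a + b + 1 ≤ N + d + V ∧ N + 2*c ≤ a + b + m + d + V ∧ a + b + d + V + 1 ≤ N + 2*c ∧ m + U + 3 ≤ N + a + b + d + V) :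
    False := by
  have b6 := hb.b6
  have b19 := hb.b19
  obtain ⟨g1, g2, g3, g4⟩ := h
  have k1 : N + i + l + 2*c + d + V + 2 ≤ Q + a + b := by clear * - b19 g4; omega
  have k2 : a + b ≤ N + i + l + 2*c + d + V + 1 := by clear * - b6 g1; omega
  clear * - X g1 g2 g3 g4 k1 k2
  exact X.al.ninv (N + i - a - b + l + 2*c + d + V + 1) (fin X.al.per 0 _ (pr X.f1 X.al.per 0 (N + i - a - b + l + 2*c + d + V + 1) (af X.S2 X.al.per 1 (N + i - a - b + l + 2*c - d - V + 1) (pf X.c1 X.al.per 0 (N + i + a + b + l + d + V + 1) (rfl : W (N + i - a - b + l + 2*c + d + V + 1) = W (N + i - a - b + l + 2*c + d + V + 1)) (by omega)) (by omega)) (by omega)) (by omega))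

theorem T0_152 (X : C W N Q i a b l m c d L U V) (hb : B N Q i a b l m c d L U V)
    (h : 2*N + l + 2*c + d ≤ 2*a + b + m + U + 1 ∧ 2*a + b + m + U + 1 ≤ 2*N + l + 2*c + d ∧ 2*N + l + 2*c + 2*d + 2*V ≤ m + U ∧ i + 2*a ≤ l ∧ Q + m + U + 1 ≤ 2*N + i + l + 2*c + d) :
    False := by
  have b2 := hb.b2
  have b17 := hb.b17
  obtain ⟨g1, g2, g3, g4, g5⟩ := h
  have k1 : 2*N + l + 2*c + 2*d + 2*V ≤ 2*a + m + U := by clear * - b2 g3; omega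
  have k2 : 2*N + l + 2*c + 2*d ≤ m + U := by clear * - b17 g3; omega
  have k3 : 2*N + l + 2*c + 2*d ≤ 2*a + m + U := by clear * - b2 b17 g3; omega
  clear * - X g1 g2 g3 g4 g5 k1 k2 k3
  exact X.al.auU (2*i + 4*a + 2*b) fun t h1 h2 => by (try simp only [max_le_iff, lt_min_iff] at h1 h2); exact (lt_or_ge t (min (i + 2*a) (i))).elim (fun u0 => by (try simp only [lt_min_iff] at u0); exact (fin X.al.per 0 _ (pf X.bb X.al.per 0 (2*i + 4*a + 2*b - t) (af X.s1 X.al.per 0 (2*i + 2*a - t) (rfl : W (t) = W (t)) (by omega)) (by omega)) (by omega))) (fun u0 => (fin X.al.per 0 _ (pr X.f2 X.al.per 0 (4*N + 2*i + 2*l - 2*m + 4*c + 2*d - 2*U - t - 2) (af X.t2 X.al.per 0 (4*N + 2*i + 2*l - 2*m + 4*c + 4*d - 2*U + 2*V - t - 2) (rfl : W (t) = W (t)) (by omega)) (by omega)) (by omega)))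

theorem T0_153 (X : C W N Q i a b l m c d L U V) (hb : B N Q i a b l m c d L U V)
    (h : 2*N + l + 2*c + d ≤ 2*a + b + m + U ∧ Q + m + U + 1 ≤ 2*N + i + b + l + 2*c + d ∧ b + d + 2*V + 1 ≤ 0) :
    False := by
  have b3 := hb.b3
  have b17 := hb.b17
  have b18 := hb.b18
  obtain ⟨g1, g2, g3⟩ := h
  have k1 : b + m + U + 1 ≤ 2*N + i + l + 2*c + d := by clear * - b17 b18 g3; omega
  have k2 : b + d + 1 ≤ 0 := by clear * - b17 g3; omega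
  have k3 : 2*N + i + l + 2*c + d ≤ Q + b + m + U := by clear * - b3 g1; omega
  clear * - X g1 g2 g3 k1 k2 k3
  exact X.al.ninv (2*N + i - b + l - m + 2*c + d - U - 1) (fin X.al.per 0 _ (ar X.t2 X.al.per 0 (2*N + i - b + l - m + 2*c + d - U - 1) (pf X.f2 X.al.per 0 (2*N + i + b + l - m + 2*c + 3*d - U + 2*V - 1) (pf X.a1 X.al.per 0 (2*N + i + b + l - m + 2*c + d - U - 1) (rfl : W (2*N + i - b + l - m + 2*c + d - U - 1) = W (2*N + i - b + l - m + 2*c + d - U - 1)) (by omega)) (by omega)) (by omega)) (by omega))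

theorem T0_154 (X : C W N Q i a b l m c d L U V) (hb : B N Q i a b l m c d L U V)
    (h : m + 2 ≤ N + 2*c ∧ N + 2*d + 1 ≤ 0 ∧ 3*N + 2*c + 2*d ≤ 2*m + U + 2) :
    False := by
  have b7 := hb.b7
  have b11 := hb.b11
  have b14 := hb.b14
  have b29 := hb.b29
  have b39 := hb.b39
  obtain ⟨g1, g2, g3⟩ := h
  have k1 : N + 2*c ≤ 2*m + 1 := by clear * - b29 b39 g3; omega
  have k2 : i + l + m + 3 ≤ 3*N + 2*d := by clear * - b7 b11 b14 g1; omega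
  have k3 : 2*m + 3 ≤ 3*N + 2*c + 2*d := by clear * - b7 b14 g1; omega
  clear * - X g1 g2 g3 k1 k2 k3
  exact X.al.ninv (-N + i + l + m + 2) (fin X.al.per 0 _ (pr X.f3 X.al.per 0 (-N + i + l + m + 2) (pr X.d2 X.al.per 0 (-N + i + l + m - 2*d + 2) (af X.S2 X.al.per 0 (N + i + l - m + 2*c) (rfl : W (-N + i + l + m + 2) = W (-N + i + l + m + 2)) (by omega)) (by omega)) (by omega)) (by omega))

theorem T0_157 (X : C W N Q i a b l m c d L U V) (hb : B N Q i a b l m c d L U V)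
    (h : c + 1 ≤ a + b + d + V ∧ a + b + c ≤ m + d + V ∧ d + V + 1 ≤ a + b + c ∧ Q + a + b + d + V ≤ i + l + c + 1 ∧ m + U + 3 ≤ 2*N + a + b + c + d + V) :
    False := by
  have b2 := hb.b2
  have b3 := hb.b3
  obtain ⟨g1, g2, g3, g4, g5⟩ := h
  have k1 : a + b + d + V ≤ l + c := by clear * - b2 b3 g4; omega
  clear * - X g1 g2 g3 g4 g5 k1
  exact X.al.ninv (i - a - b + l + c - d - V + 1) (fin X.al.per 0 _ (pr X.f2 X.al.per 0 (i - a - b + l + c - d - V + 1) (ar X.S2 X.al.per 0 (i - a - b + l + c + d + V + 1) (pf X.bb X.al.per 0 (i + a + b + l + c - d - V + 1) (rfl : W (i - a - b + l + c - d - V + 1) = W (i - a - b + l + c - d - V + 1)) (by omega)) (by omega)) (by omega)) (by omega))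

theorem T0_159 (X : C W N Q i a b l m c d L U V) (hb : B N Q i a b l m c d L U V)
    (h : i + l + m + 2*c + 2 ≤ Q + 2*a + 2*b + 2*d + U ∧ i + l + m + 2*c + 3 ≤ Q + 2*a + 2*b ∧ Q + 2*m + 2 ≤ 4*N + 2*c + 4*d ∧ N + a + b + 2*d ≤ m) :
    False := by
  have b7 := hb.b7
  have b14 := hb.b14
  have b25 := hb.b25
  have b29 := hb.b29
  have b35 := hb.b35
  have b39 := hb.b39
  obtain ⟨g1, g2, g3, g4⟩ := h
  have k1 : m + 2 ≤ 2*N + a + b + 2*d := by clear * - b25 b29 b35 b39 g1 g2 g3 g4; omega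
  clear * - X g1 g2 g3 g4 b14 b7 k1
  exact X.al.ubQ (-2*N - 2*a - 2*b + 2*m - 4*d + 2) (by omega) (by omega) fun t h1 h2 => (fin X.al.per 0 _ (pf X.c2 X.al.per 0 (-2*N - 2*a - 2*b + 2*m - 4*d + t + 2) (pr X.d2 X.al.per 0 (-2*N + 2*m - 2*c - 4*d + t + 2) (pf X.f3 X.al.per 0 (-2*d + t) (rfl : W (t) = W (t)) (by omega)) (by omega)) (by omega)) (by omega))

theorem T0_160 (X : C W N Q i a b l m c d L U V) (hb : B N Q i a b l m c d L U V)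
    (h : i + 2*a + 2*b + l + 2*d + 2 ≤ Q ∧ c + 1 ≤ a + b + d ∧ Q + 2*a + 2*b + m ≤ 2*N + i + l + 4*c) :
    False := by
  have b21 := hb.b21
  have b28 := hb.b28
  have b35 := hb.b35
  obtain ⟨g1, g2, g3⟩ := h
  have k1 : a + b + d + 1 ≤ N + c := by clear * - b21 b28 b35 g1 g3; omega
  clear * - X g1 g2 g3 k1
  exact X.al.ubQ (2*a + 2*b - 2*c + 2*d) (by omega) (by omega) fun t h1 h2 => (fin X.al.per 0 _ (pr X.d1 X.al.per 0 (2*a + 2*b - 2*c + 2*d + t) (pf X.c1 X.al.per 0 (2*a + 2*b - 2*c + t) (rfl : W (t) = W (t)) (by omega)) (by omega)) (by omega))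

theorem T0_161 (X : C W N Q i a b l m c d L U V) (hb : B N Q i a b l m c d L U V)
    (h : 2*N + i + l + 2*c ≤ Q + 4*a + 4*b + m + U ∧ Q ≤ i + 2*a + 2*b + l + 2*d + 1 ∧ 2*a + 2*b + d + 1 ≤ 0) :
    False := by
  have b2 := hb.b2
  have b3 := hb.b3
  have b14 := hb.b14
  have b20 := hb.b20
  have b29 := hb.b29
  have b38 := hb.b38
  obtain ⟨g1, g2, g3⟩ := h
  have k1 : i + 1 ≤ Q + 2*a + 2*b := by clear * - b2 b3 b20 g1; omega
  have k2 : i + 1 ≤ Q := by clear * - b2 b3; omega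
  have k3 : Q ≤ i + 4*a + 4*b + l + 2*d + 1 := by clear * - b20 g1 g2; omega
  have k4 : 1 ≤ N + 2*a + 2*b + d := by clear * - b20 b29 b38 g1; omega
  clear * - X g1 g2 g3 b14 k1 k2 k3 k4
  exact X.al.ubQ (-4*a - 4*b - 2*d) (by omega) (by omega) fun t h1 h2 => (fin X.al.per 0 _ (pr X.bb X.al.per 0 (-4*a - 4*b - 2*d + t) (pr X.bb X.al.per 0 (-2*a - 2*b - 2*d + t) (pf X.f3 X.al.per 0 (-2*d + t) (rfl : W (t) = W (t)) (by omega)) (by omega)) (by omega)) (by omega))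

theorem T0_162 (X : C W N Q i a b l m c d L U V) (hb : B N Q i a b l m c d L U V)
    (h : i + 1 ≤ 2*b ∧ a + 2*b + d + V + 1 ≤ 0 ∧ 0 ≤ i + 4*a + 4*b + 2*d + 2*V) :
    False := by
  have b4 := hb.b4
  have b17 := hb.b17
  have b18 := hb.b18
  have b25 := hb.b25
  have b29 := hb.b29
  have b31 := hb.b31
  have b35 := hb.b35
  obtain ⟨g1, g2, g3⟩ := h
  have k1 : Q ≤ 2*a + 4*b := by clear * - b4 g1; omega
  have k2 : m + U + 1 ≤ 2*N + i + l + 2*c + 2*d + 2*V := by clear * - b17 b18; omega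
  have k3 : 0 ≤ i + 2*a + 2*b + l + 2*d + 2*V + 1 := by clear * - b17 b29 b35; omega
  have k4 : 1 ≤ N + a + 2*b + d + V := by clear * - b25 b31 g1 g2 g3; omega
  clear * - X g1 g2 g3 k1 k2 k3 k4
  exact X.al.ubP (-2*a - 4*b - 2*d - 2*V) (by omega) (by omega) fun t h1 h2 => (fin X.al.per 0 _ (pr X.a1 X.al.per 0 (-2*a - 4*b - 2*d - 2*V + t) (pr X.bb X.al.per 0 (-2*a - 2*b - 2*d - 2*V + t) (pr X.f2 X.al.per 0 (-2*d - 2*V + t) (rfl : W (t) = W (t)) (by omega)) (by omega)) (by omega)) (by omega))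

theorem T0_164 (X : C W N Q i a b l m c d L U V) (hb : B N Q i a b l m c d L U V)
    (h : i + 2*a + 2*b + l + 2*c ≤ Q + 2*m + 2*V ∧ m + V + 2 ≤ a + b ∧ Q + 2*a + 2*b ≤ 2*N + 2*c) :
    False := by
  have b17 := hb.b17
  have b20 := hb.b20
  have b27 := hb.b27
  have b28 := hb.b28
  have b35 := hb.b35
  have b36 := hb.b36
  have b38 := hb.b38
  obtain ⟨g1, g2, g3⟩ := h
  have k1 : i + l + 2*c + 1 ≤ Q + m + 2*V := by clear * - b17 b28 b38; omega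
  have k2 : Q + 2*a + 2*b + U ≤ 2*N + i + l + m + 2*c + 2*V + 1 := by clear * - b17 b28 b36 g3; omega
  have k3 : a + b ≤ N + m + V := by clear * - b20 b27 b35 g1 g3; omega
  clear * - X g1 g2 g3 k1 k2 k3
  exact X.al.ubQ (2*a + 2*b - 2*m - 2*V - 2) (by omega) (by omega) fun t h1 h2 => (fin X.al.per 0 _ (pr X.f2 X.al.per 1 (2*a + 2*b - 2*m - 2*V + t - 2) (pf X.d2 X.al.per 0 (2*N + 2*a + 2*b - 2*m + 2*d + t - 2) (pf X.c1 X.al.per 0 (2*a + 2*b - 2*c + t) (rfl : W (t) = W (t)) (by omega)) (by omega)) (by omega)) (by omega))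

theorem T0_165 (X : C W N Q i a b l m c d L U V) (hb : B N Q i a b l m c d L U V)
    (h : N + Q + c ≤ i + 2*a + 2*b ∧ 2*b + l + c + 2 ≤ N) :
    False := by
  have b2 := hb.b2
  have b3 := hb.b3
  have b6 := hb.b6
  have b11 := hb.b11
  have b13 := hb.b13
  obtain ⟨g1, g2⟩ := h
  have k1 : 1 ≤ N + c := by clear * - b6 b11 b13; omega
  have k2 : 2*b ≤ N + i + c := by clear * - b6 g2; omega
  have k3 : N + c + 1 ≤ 2*b := by clear * - b3 g1; omega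
  have k4 : N + i + c + 1 ≤ Q + 2*b := by clear * - b2 b3 g1; omega
  clear * - X g1 g2 k1 k2 k3 k4
  exact X.al.ninv (-N + i + 2*a - c) (fin X.al.per (-1) _ (pf X.c1 X.al.per 0 (N + i + 2*a - c) (ar X.s1 X.al.per 0 (N + i - 2*b + c) (pf X.a2 X.al.per 0 (-N + i + 2*a + 2*b - c) (rfl : W (-N + i + 2*a - c) = W (-N + i + 2*a - c)) (by omega)) (by omega)) (by omega)) (by omega))

theorem T0_166 (X : C W N Q i a b l m c d L U V) (hb : B N Q i a b l m c d L U V)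
    (h : i + 4*a + 4*b + 1 ≤ 2*N + Q + 2*d + 2*V ∧ Q + 2*a + 2*b ≤ i + l + 1 ∧ N + d + V + 1 ≤ 2*a + 2*b) :
    False := by
  have b8 := hb.b8
  have b9 := hb.b9
  have b17 := hb.b17
  have b18 := hb.b18
  have b20 := hb.b20
  have b21 := hb.b21
  have b24 := hb.b24
  have b29 := hb.b29
  have b33 := hb.b33
  have b35 := hb.b35
  have b38 := hb.b38
  obtain ⟨g1, g2, g3⟩ := h
  have k1 : i + 2*a + 2*b + 1 ≤ 2*N + Q + 2*d + 2*V := by clear * - b17 b29 b33 g1 g2 g3; omega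
  have k2 : Q + 4*a + 4*b + m + U + 1 ≤ 4*N + i + l + 2*c + 2*d + 2*V := by clear * - b9 b17 b18 g2; omega
  have k3 : 2*a + 2*b + 1 ≤ 2*N + d + V := by clear * - b20 b21 b24 b35 b38 g1 g2; omega
  clear * - X g1 g2 g3 b8 k1 k2 k3
  exact X.al.ubQ (-2*N + 4*a + 4*b - 2*d - 2*V) (by omega) (by omega) fun t h1 h2 => (fin X.al.per 0 _ (pr X.f2 X.al.per 1 (-2*N + 4*a + 4*b - 2*d - 2*V + t) (pf X.bb X.al.per 0 (4*a + 4*b + t) (pf X.bb X.al.per 0 (2*a + 2*b + t) (rfl : W (t) = W (t)) (by omega)) (by omega)) (by omega)) (by omega))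

theorem T0_168 (X : C W N Q i a b l m c d L U V) (hb : B N Q i a b l m c d L U V)
    (h : 4*N + i + l + 4*c + 2*d ≤ Q + 2*a + 2*b + 3*m + U + 2 ∧ 2*N + i + l + 2*c + 2*d + 1 ≤ Q + 2*a + 2*b + m ∧ 2*N + Q + 2*c ≤ i + 2*a + 2*b + l + 2*m + 3 ∧ a + b + m + 2 ≤ N + c) :
    False := by
  have b2 := hb.b2
  have b3 := hb.b3
  have b11 := hb.b11
  have b14 := hb.b14
  have b29 := hb.b29
  have b34 := hb.b34
  have b39 := hb.b39
  obtain ⟨g1, g2, g3, g4⟩ := h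
  have k1 : Q ≤ 2*N + 2*d := by clear * - b11 b14; omega
  have k2 : i + 1 ≤ Q := by clear * - b2 b3; omega
  have k3 : c ≤ a + b + m := by clear * - b29 b34 b39 g1 g2 g3 g4; omega
  clear * - X g1 g2 g3 g4 b14 k1 k2 k3
  exact X.al.ubQ (2*N - 2*a - 2*b - 2*m + 2*c - 2) (by omega) (by omega) fun t h1 h2 => (fin X.al.per 0 _ (pr X.bb X.al.per 0 (2*N - 2*a - 2*b - 2*m + 2*c + t - 2) (pf X.d2 X.al.per 0 (2*N - 2*m + 2*c + t - 2) (pf X.f3 X.al.per 0 (-2*d + t) (rfl : W (t) = W (t)) (by omega)) (by omega)) (by omega)) (by omega))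

theorem T0_169 (X : C W N Q i a b l m c d L U V) (hb : B N Q i a b l m c d L U V)
    (h : V ≤ 0 ∧ 2*N + 2*d + 2*V ≤ m + U + 1 ∧ m + U + 2 ≤ 2*N + c + d + V ∧ 2*N + c + d + V ≤ m + U + 2) :
    False := by
  have b17 := hb.b17
  have b29 := hb.b29
  have b39 := hb.b39
  obtain ⟨g1, g2, g3, g4⟩ := h
  have k1 : U + 2 ≤ 2*N + 2*d + 2*V := by clear * - b17 b29 b39; omega
  clear * - X g1 g2 g3 g4 b17 k1
  exact X.n4.tor ⟨(fin X.al.per 0 _ (rfl : W (2*N + i + l - m + 2*c + 2*d - U + 2*V - 1) = W (2*N + i + l - m + 2*c + 2*d - U + 2*V - 1)) (by omega)), (fin X.al.per 0 _ (af X.S2 X.al.per 0 (-2*N + i + l + m - 2*d + U - 2*V + 3) (rfl : W (2*N + i + l - m + 2*c + 2*d - U + 2*V - 1) = W (2*N + i + l - m + 2*c + 2*d - U + 2*V - 1)) (by omega)) (by omega))⟩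

theorem T0_170 (X : C W N Q i a b l m c d L U V) (hb : B N Q i a b l m c d L U V)
    (h : 4*N + l + 2*c + 2*d ≤ 2*a + 2*b + m + L + U + 2) :
    False := by
  have b4 := hb.b4
  have b14 := hb.b14
  have b23 := hb.b23
  have g1 := h
  have k1 : 2*N + i + l + 2*c + 2*d ≤ Q + m + U := by clear * - b23 g1; omega
  clear * - X g1 b14 b4 k1
  exact X.lam.two X.al 0 0 (Q) (i + 2*a + 2*b) (2*N - 2*b) (2*N + i + l - m + 2*c + 2*d - U) (Q) (-2*d) (by omega) (fun t h1 h2 => (fin X.al.per 1 _ (pr X.a2 X.al.per 0 (-2*b + t) (rfl : W (t) = W (t)) (by omega)) (by omega))) (fun t h1 h2 => (fin X.al.per 0 _ (pf X.f3 X.al.per 0 (-2*d + t) (rfl : W (t) = W (t)) (by omega)) (by omega))) (Or.inl (Or.inr ⟨(fin X.al.per 0 _ (rfl : W (i + 2*a + 2*b) = W (i + 2*a + 2*b)) (by omega)), (fin X.al.per 1 _ (rfl : W (i + 2*a) = W (i + 2*a)) (by omega))⟩)) (Or.inr (Or.inl ⟨(fin X.al.per 0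 _ (rfl : W (2*N + i + l - m + 2*c + 2*d - U - 1) = W (2*N + i + l - m + 2*c + 2*d - U - 1)) (by omega)), (fin X.al.per 0 _ (rfl : W (2*N + i + l - m + 2*c - U - 1) = W (2*N + i + l - m + 2*c - U - 1)) (by omega))⟩))

theorem T0_171 (X : C W N Q i a b l m c d L U V) (hb : B N Q i a b l m c d L U V)
    (h : i + 2*a + 2*b + l + 4*d + 1 ≤ m ∧ m + 2 ≤ N + a + b + 2*d ∧ i + 2*a + 2*b + l + 2*d ≤ m + U ∧ 4*N + 2*c + 4*d ≤ Q + 2*m + 2) :
    False := by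
  have b9 := hb.b9
  have b14 := hb.b14
  have b25 := hb.b25
  have b29 := hb.b29
  have b35 := hb.b35
  have b36 := hb.b36
  obtain ⟨g1, g2, g3, g4⟩ := h
  have k1 : 2*N + 2*d ≤ i + l + m + 2 := by clear * - b14 g4; omega
  have k2 : a + b + 2*d ≤ m := by clear * - b25 b29 b35 b36 g1; omega
  clear * - X g1 g2 g3 g4 k1 b9 k2
  exact X.al.ubP (2*N + 2*a + 2*b - 2*m + 4*d - 2) (by omega) (by omega) fun t h1 h2 => (fin X.al.per (-1) _ (pf X.c1 X.al.per 0 (4*N + 2*a + 2*b - 2*m + 4*d + t - 2) (pr X.f3 X.al.per 0 (4*N - 2*m + 2*c + 4*d + t - 2) (pf X.d2 X.al.per (-1) (4*N - 2*m + 2*c + 2*d + t - 2) (rfl : W (t) = W (t)) (by omega)) (by omega)) (by omega)) (by omega))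

theorem T0_172 (X : C W N Q i a b l m c d L U V) (hb : B N Q i a b l m c d L U V)
    (h : a + b + 2*m + U + 3 ≤ 4*N + l + 3*c + 3*d + V ∧ m + U + 3 ≤ 2*N + a + b + c + d + V ∧ i + a + b + l + c + d + V + 1 ≤ U ∧ 4*N + i + l + 3*c + 3*d + V ≤ Q + a + b + 2*m + U + 1) :
    False := by
  have b8 := hb.b8
  have b18 := hb.b18
  obtain ⟨g1, g2, g3, g4⟩ := h
  have k1 : 4*N + 3*c + 3*d + V ≤ a + b + 2*m + U + 2 := by clear * - b8 g4; omega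
  have k2 : a + b + m + V + 2 ≤ 2*N + c + d := by clear * - b18 g3; omega
  clear * - X g1 g2 g3 g4 k1 k2
  exact X.al.ninv (4*N + i - a - b + l - 2*m + 3*c + 3*d - U + V - 2) (fin X.al.per 0 _ (ar X.t2 X.al.per 1 (4*N + i - a - b + l - 2*m + 3*c + 3*d - U + V - 2) (pr X.d2 X.al.per 0 (2*N + i + a + b + l + c + d - U + V) (pf X.bb X.al.per 0 (4*N + i + a + b + l - 2*m + 3*c + 3*d - U + V - 2) (rfl : W (4*N + i - a - b + l - 2*m + 3*c + 3*d - U + V - 2) = W (4*N + i - a - b + l - 2*m + 3*c + 3*d - U + V - 2)) (by omega)) (by omega)) (by omega)) (by omega))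

theorem T0_176 (X : C W N Q i a b l m c d L U V) (hb : B N Q i a b l m c d L U V)
    (h : 2*N + l + 2*c + 2*d + 2*V ≤ 2*a + m + U ∧ b + d + V ≤ 0 ∧ 0 ≤ b + d + V) :
    False := by
  have b17 := hb.b17
  have b18 := hb.b18
  obtain ⟨g1, g2, g3⟩ := h
  have k1 : m + U + 1 ≤ 2*N + i + l + 2*c + 2*d + 2*V := by clear * - b17 b18; omega
  clear * - X g1 g2 g3 k1
  exact X.n4.yz (fin X.al.per 0 _ (pf X.a1 X.al.per 0 (2*N + i + 2*b + l - m + 2*c + 2*d - U + 2*V - 1) (rfl : W (2*N + i + l - m + 2*c + 2*d - U + 2*V - 1) = W (2*N + i + l - m + 2*c + 2*d - U + 2*V - 1)) (by omega)) (by omega)).symm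

theorem T0_178 (X : C W N Q i a b l m c d L U V) (hb : B N Q i a b l m c d L U V)
    (h : i + l + 2*d + 1 ≤ m ∧ m + 2 ≤ N + d ∧ i + 2*a + 2*b + 1 ≤ 2*N + 2*c ∧ 4*N + 2*c + 2*d ≤ Q + 2*a + 2*b + 2*m + 2) :
    False := by
  have b8 := hb.b8
  have b9 := hb.b9
  have b25 := hb.b25
  have b29 := hb.b29
  have b35 := hb.b35
  have b36 := hb.b36
  obtain ⟨g1, g2, g3, g4⟩ := h
  have k1 : 4*N + 2*c + 2*d ≤ i + 2*a + 2*b + l + 2*m + 3 := by clear * - b8 g4; omega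
  have k2 : d ≤ m := by clear * - b25 b29 b35 b36 g1; omega
  clear * - X g1 g2 g3 g4 k1 b9 k2
  exact X.al.ubP (2*N - 2*m + 2*d - 2) (by omega) (by omega) fun t h1 h2 => (fin X.al.per (-1) _ (pf X.c1 X.al.per 0 (4*N - 2*m + 2*d + t - 2) (pr X.bb X.al.per 0 (4*N - 2*a - 2*b - 2*m + 2*c + 2*d + t - 2) (pf X.d2 X.al.per (-1) (4*N - 2*m + 2*c + 2*d + t - 2) (rfl : W (t) = W (t)) (by omega)) (by omega)) (by omega)) (by omega))

theorem T0_180 (X : C W N Q i a b l m c d L U V) (hb : B N Q i a b l m c d L U V)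
    (h : 2*N + i + l + 2*c + 2*d + 1 ≤ 2*b + m ∧ b + m + 2 ≤ 2*N + c + d ∧ 4*N + 2*c + 2*d ≤ i + 2*a + 2*b + 2*m + 2) :
    False := by
  have b25 := hb.b25
  have b27 := hb.b27
  have b28 := hb.b28
  have b34 := hb.b34
  have b35 := hb.b35
  have b36 := hb.b36
  obtain ⟨g1, g2, g3⟩ := h
  have k1 : N + c + d ≤ b + m := by clear * - b25 b27 b28 b34 b35 b36 g1; omega
  clear * - X g1 g2 g3 k1
  exact X.al.ubP (4*N - 2*b - 2*m + 2*c + 2*d - 2) (by omega) (by omega) fun t h1 h2 => (fin X.al.per 0 _ (pr X.a1 X.al.per 0 (4*N - 2*b - 2*m + 2*c + 2*d + t - 2) (pf X.d2 X.al.per (-1) (4*N - 2*m + 2*c + 2*d + t - 2) (rfl : W (t) = W (t)) (by omega)) (by omega)) (by omega))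

theorem T0_182 (X : C W N Q i a b l m c d L U V) (hb : B N Q i a b l m c d L U V)
    (h : 2*N + i + l + 2*c + 4*d + 2*V + 1 ≤ m ∧ m + 2 ≤ 2*N + c + 2*d + V ∧ 2*N + 2*d + U ≤ i + l + m + 1) :
    False := by
  have b26 := hb.b26
  have b37 := hb.b37
  obtain ⟨g1, g2, g3⟩ := h
  have k1 : N + c + 2*d + V ≤ m := by clear * - b26 b37 g2 g3; omega
  clear * - X g1 g2 g3 k1
  exact X.al.ubP (4*N - 2*m + 2*c + 4*d + 2*V - 2) (by omega) (by omega) fun t h1 h2 => (fin X.al.per 0 _ (pr X.f1 X.al.per 0 (4*N - 2*m + 2*c + 4*d + 2*V + t - 2) (pf X.d2 X.al.per (-1) (4*N - 2*m + 2*c + 2*d + t - 2) (rfl : W (t) = W (t)) (by omega)) (by omega)) (by omega))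

theorem T0_183 (X : C W N Q i a b l m c d L U V) (hb : B N Q i a b l m c d L U V)
    (h : a + b ≤ N + l + c + d ∧ N + c + d + 1 ≤ a + b ∧ N + c ≤ a + b + m + d ∧ N + a + b + c + d ≤ m + U + 1 ∧ m + 2 ≤ N + a + b + c + d) :
    False := by
  have b6 := hb.b6
  have b9 := hb.b9
  obtain ⟨g1, g2, g3, g4, g5⟩ := h
  have k1 : a + b + d + 1 ≤ N + c := by clear * - b6 b9 g2; omega
  clear * - X g1 g2 g3 g4 g5 k1
  exact X.al.ninv (N + i - a - b + l + c + d + 1) (fin X.al.per 0 _ (pr X.f3 X.al.per 0 (N + i - a - b + l + c + d + 1) (af X.S2 X.al.per 1 (N + i - a - b + l + c - d + 1) (pf X.bb X.al.per 0 (N + i + a + b + l + c + d + 1) (rfl : W (N + i - a - b + l + c + d + 1) = W (N + i - a - b + l + c + d + 1)) (by omega)) (by omega)) (by omega)) (by omega))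

theorem T0_184 (X : C W N Q i a b l m c d L U V) (hb : B N Q i a b l m c d L U V)
    (h : N + l + c + 2 ≤ 4*a + 3*b ∧ N + c + 1 ≤ 2*a + b ∧ N + c ≤ b + m ∧ 2*a + 3*b ≤ N + l + c) :
    False := by
  have b1 := hb.b1
  have b3 := hb.b3
  have b6 := hb.b6
  have b8 := hb.b8
  have b9 := hb.b9
  have b25 := hb.b25
  have b31 := hb.b31
  obtain ⟨g1, g2, g3, g4⟩ := h
  have k1 : 2*a + 3*b ≤ N + i + l + c + 1 := by clear * - b1 g4; omega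
  have k2 : 2*a + b ≤ N + l + c := by clear * - b6 b25 b31 g2; omega
  have k3 : b + 1 ≤ N + c := by clear * - b6 b9 g2; omega
  have k4 : N + c + 1 ≤ 2*a + 3*b := by clear * - b3 b8 g1; omega
  clear * - X g1 g2 g3 g4 k1 k2 k3 k4
  exact X.al.ninv (N + i - 2*a - 3*b + l + c + 1) (fin X.al.per 0 _ (pr X.bb X.al.per 0 (N + i - 2*a - 3*b + l + c + 1) (af X.S2 X.al.per 1 (N + i - b + l + c + 1) (pf X.bb X.al.per 0 (N + i + b + l + c + 1) (pf X.a1 X.al.per 0 (N + i - 2*a - b + l + c + 1) (rfl : W (N + i - 2*a - 3*b + l + c + 1) = W (N + i - 2*a - 3*b + l + c + 1)) (by omega)) (by omega)) (by omega)) (by omega)) (by omega))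

theorem T0_185 (X : C W N Q i a b l m c d L U V) (hb : B N Q i a b l m c d L U V)
    (h : i + 2*a + l + 2*d + 1 ≤ m ∧ m + 2 ≤ N + a + d ∧ 4*N + 2*c + 2*d ≤ i + 2*a + 2*b + 2*m + 2) :
    False := by
  have b3 := hb.b3
  have b6 := hb.b6
  have b9 := hb.b9
  have b25 := hb.b25
  have b27 := hb.b27
  have b28 := hb.b28
  have b34 := hb.b34
  have b35 := hb.b35
  have b36 := hb.b36
  obtain ⟨g1, g2, g3⟩ := h
  have k1 : a + b ≤ N + c := by clear * - b6 b9; omega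
  have k2 : 4*N + 2*c + 2*d ≤ Q + 2*b + 2*m + 2 := by clear * - b3 g3; omega
  have k3 : a + d ≤ m := by clear * - b25 b27 b28 b34 b35 b36 g1; omega
  clear * - X g1 g2 g3 k1 b9 k2 k3
  exact X.al.ubP (2*N + 2*a - 2*m + 2*d - 2) (by omega) (by omega) fun t h1 h2 => (fin X.al.per (-1) _ (pf X.c1 X.al.per 0 (4*N + 2*a - 2*m + 2*d + t - 2) (pr X.a1 X.al.per 0 (4*N - 2*b - 2*m + 2*c + 2*d + t - 2) (pf X.d2 X.al.per (-1) (4*N - 2*m + 2*c + 2*d + t - 2) (rfl : W (t) = W (t)) (by omega)) (by omega)) (by omega)) (by omega))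

theorem T0_186 (X : C W N Q i a b l m c d L U V) (hb : B N Q i a b l m c d L U V)
    (h : 2*N + 2*c ≤ m + U + 1 ∧ 0 ≤ l + 2*d ∧ 2*N + 2*c ≤ 2*a + 2*b + m ∧ m + 1 ≤ N + c ∧ N + c ≤ m + 1) :
    False := by
  have b6 := hb.b6
  have b9 := hb.b9
  have b13 := hb.b13
  have b17 := hb.b17
  have b19 := hb.b19
  have b20 := hb.b20
  obtain ⟨g1, g2, g3, g4, g5⟩ := h
  have k1 : m + 2 ≤ 2*N + 2*c := by clear * - b6 b13; omega
  have k2 : d + 1 ≤ 0 := by clear * - b17 b19 b20; omega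
  have k3 : i + 2*a + 2*b + l + 2*m + 4 ≤ 4*N + 2*c := by clear * - b9 g4; omega
  clear * - X g1 g2 g3 g4 g5 k1 k2 k3
  exact X.n2.yz (fin X.al.per 0 _ (pr X.d2 X.al.per 0 (-2*N + i + 2*a + 2*b + l + 2*m - 2*c + 3) (pf X.bb X.al.per 0 (i + 2*a + 2*b + l + 2*d + 1) (pr X.f3 X.al.per 0 (i + l + 2*d + 1) (rfl : W (i + l + 1) = W (i + l + 1)) (by omega)) (by omega)) (by omega)) (by omega)).symm

theorem T0_188 (X : C W N Q i a b l m c d L U V) (hb : B N Q i a b l m c d L U V)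
    (h : m + 1 ≤ 2*N + c + 2*d + V ∧ 2*N + c + 2*d + V ≤ m + 1) :
    False := by
  have b13 := hb.b13
  have b14 := hb.b14
  have b17 := hb.b17
  have b18 := hb.b18
  obtain ⟨g1, g2⟩ := h
  have k1 : 2*N + Q + 2*d + 2*V ≤ i + l + m + 2 := by clear * - b14 g2; omega
  have k2 : 2*m + U + 4 ≤ 4*N + 2*c + 2*d + 2*V := by clear * - b13 b17 b18; omega
  clear * - X g1 g2 k1 k2
  exact X.n3.xz (fin X.al.per 0 _ (pr X.f2 X.al.per 1 (-2*N + i + l + m - 2*d - 2*V + 2) (rfl : W (i + l + m + 2) = W (i + l + m + 2)) (by omega)) (by omega)).symm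

theorem T0_189 (X : C W N Q i a b l m c d L U V) (hb : B N Q i a b l m c d L U V)
    (h : i + 2*a + 2*b + l + 4*d + 2*V + 1 ≤ m ∧ m + 2 ≤ N + a + b + 2*d + V ∧ 2*N + 2*d + U ≤ i + l + m + 1) :
    False := by
  have b6 := hb.b6
  have b9 := hb.b9
  have b19 := hb.b19
  have b25 := hb.b25
  have b27 := hb.b27
  have b29 := hb.b29
  have b34 := hb.b34
  have b35 := hb.b35
  have b39 := hb.b39
  obtain ⟨g1, g2, g3⟩ := h
  have k1 : a + b ≤ N + c := by clear * - b6 b9; omega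
  have k2 : 4*N + 2*c + 4*d + 2*V ≤ Q + 2*m + 2 := by clear * - b19 g3; omega
  have k3 : a + b + 2*d + V ≤ m := by clear * - b25 b27 b29 b34 b35 b39 g1 g3; omega
  clear * - X g1 g2 g3 k1 b9 k2 k3
  exact X.al.ubP (2*N + 2*a + 2*b - 2*m + 4*d + 2*V - 2) (by omega) (by omega) fun t h1 h2 => (fin X.al.per (-1) _ (pf X.c1 X.al.per 0 (4*N + 2*a + 2*b - 2*m + 4*d + 2*V + t - 2) (pr X.f1 X.al.per 0 (4*N - 2*m + 2*c + 4*d + 2*V + t - 2) (pf X.d2 X.al.per (-1) (4*N - 2*m + 2*c + 2*d + t - 2) (rfl : W (t) = W (t)) (by omega)) (by omega)) (by omega)) (by omega))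

theorem T0_197 (X : C W N Q i a b l m c d L U V) (hb : B N Q i a b l m c d L U V)
    (h : i + 4*a + 4*b + 2*d + 1 ≤ Q ∧ Q + 2*a + 2*b ≤ i + l + 1 ∧ 1 ≤ 2*a + 2*b + d ∧ Q + 4*a + 4*b + m ≤ 2*N + i + l + 2*c) :
    False := by
  have b8 := hb.b8
  have b17 := hb.b17
  have b19 := hb.b19
  have b20 := hb.b20
  have b21 := hb.b21
  have b24 := hb.b24
  have b35 := hb.b35
  have b39 := hb.b39
  obtain ⟨g1, g2, g3, g4⟩ := h
  have k1 : i + 2*a + 2*b + 2*d + 1 ≤ Q := by clear * - b17 b19 b20 g1 g3; omega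
  have k2 : 2*a + 2*b + d + 1 ≤ N := by clear * - b20 b21 b24 b35 b39 g1 g2 g4; omega
  clear * - X g1 g2 g3 g4 b8 k1 k2
  exact X.al.ubQ (4*a + 4*b + 2*d) (by omega) (by omega) fun t h1 h2 => (fin X.al.per 0 _ (pr X.d1 X.al.per 0 (4*a + 4*b + 2*d + t) (pf X.bb X.al.per 0 (4*a + 4*b + t) (pf X.bb X.al.per 0 (2*a + 2*b + t) (rfl : W (t) = W (t)) (by omega)) (by omega)) (by omega)) (by omega))

theorem T0_199 (X : C W N Q i a b l m c d L U V) (hb : B N Q i a b l m c d L U V)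
    (h : m + 2 ≤ 2*a + 2*b ∧ m + 2 ≤ N + a + b + c + d ∧ 2*m + 2 ≤ 2*N + l + 2*c + 2*d ∧ 3*m + 3 ≤ 4*N + l + 4*c + 4*d ∧ m + 1 ≤ U ∧ 2*m + 2 ≤ 2*N + 2*c + 2*d + U ∧ a + b + m + 2 ≤ N + c ∧ 2*N + 2*c + 2*d + L ≤ l + 2*m + 1 ∧ L ≤ l + m ∧ 4*N + 4*c + 4*d + L ≤ 3*m + U + 2 ∧ 2*N + 2*c + 2*d + L ≤ 2*m + U + 1 ∧ 2*N + 2*c + 4*d + L + 1 ≤ m ∧ 2*d + L + 2 ≤ 0) :
    False := by
  have b11 := hb.b11
  have b29 := hb.b29
  have b39 := hb.b39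
  obtain ⟨g1, g2, g3, g4, g5, g6, g7, g8, g9, g10, g11, g12, g13⟩ := h
  have k1 : i + l + m + 3 ≤ 2*N + 2*a + 2*b + 2*d := by clear * - b11 g2; omega
  have k2 : i + 2*m + 3 ≤ 4*N + 2*c + 4*d := by clear * - b11 g4; omega
  have k3 : i + l + m + 2 ≤ 2*N + 2*d + U := by clear * - b11 g6; omega
  have k4 : c ≤ a + b + m := by clear * - b29 b39 g2 g6 g11; omega
  have k5 : i + 2*a + 2*b + L + 2 ≤ 2*N := by clear * - b11 g7 g9; omega
  have k6 : i + 2*a + 2*b + l + 2*c + 2*d + L + 1 ≤ m + U := by clear * - b11 g7 g11; omega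
  have k7 : i + 2*a + 2*b + l + m + 2*d + L + 4 ≤ 2*N := by clear * - b11 g7 g13; omega
  clear * - X g1 g2 g3 g4 g5 g6 g7 g8 g9 g10 g11 g12 g13 k1 k2 k3 k4 k5 k6 k7
  exact absurd (X.lam.mx (max (i + 2*a + 2*b + l + m + 2*d + 3) (max (2*N + i + 2*a + 2*b + l - m + 2*c + 2*d - U) (i + 2*a + 2*b + 1))) (min (i + 2*a + 2*b + l + m + 2) (min (-2*N + i + 2*a + 2*b + l + 2*m - 2*c - 2*d + 3) (2*N))) (2*N - 2*a - 2*b - 2*m + 2*c - 2) (by omega) (by omega) fun t h1 h2 => by (try simp only [max_le_iff, lt_min_iff] at h1 h2); exact (lt_or_ge t (min (2*N + 2*a + 2*b + 2*d) (min (2*N + i + 2*a + 2*b + l - m + 2*c + 2*d) (i + 2*a + 2*b + l + 1)))).elim (fun u0 => by (try simp only [lt_min_iff] at u0); exact (fin X.al.per 0 _ (pf X.d2 X.al.per 0 (2*N - 2*a - 2*b - 2*m + 2*c + t - 2) (pf X.f3 X.al.per 0 (-2*a - 2*b - 2*d + t) (pr X.bb X.al.per 0 (-2*a - 2*b + t) (rfl : W (t)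 = W (t)) (by omega)) (by omega)) (by omega)) (by omega))) (fun u0 => (fin X.al.per 0 _ (pf X.f3 X.al.per 0 (2*N - 2*a - 2*b - 2*m + 2*c + t - 2) (pr X.bb X.al.per 0 (2*N - 2*a - 2*b - 2*m + 2*c + 2*d + t - 2) (pf X.d2 X.al.per 0 (2*N - 2*m + 2*c + 2*d + t - 2) (rfl : W (t) = W (t)) (by omega)) (by omega)) (by omega)) (by omega)))) (by omega)

theorem T0_205 (X : C W N Q i a b l m c d L U V) (hb : B N Q i a b l m c d L U V)
    (h : i + 2*a + 2*b + 1 ≤ 2*N + Q + 4*d + 2*V ∧ Q + 2*a + 2*b + m ≤ 2*N + i + l + 2*c + 2*d ∧ N + 2*d + V + 1 ≤ a + b) :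
    False := by
  have b4 := hb.b4
  have b8 := hb.b8
  have b17 := hb.b17
  have b28 := hb.b28
  have b29 := hb.b29
  have b38 := hb.b38
  have b39 := hb.b39
  obtain ⟨g1, g2, g3⟩ := h
  have k1 : 0 ≤ N + 2*d + V := by clear * - b4 g1; omega
  have k2 : Q + 2*a + 2*b + m + U + 1 ≤ 4*N + i + l + 2*c + 4*d + 2*V := by clear * - b17 b29 b39 g2; omega
  have k3 : a + b + 1 ≤ 2*N + 2*d + V := by clear * - b17 b28 b29 b38 b39 g2 g3; omega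
  clear * - X g1 g2 g3 b8 k1 k2 k3
  exact X.al.ubQ (-2*N + 2*a + 2*b - 4*d - 2*V) (by omega) (by omega) fun t h1 h2 => (fin X.al.per 0 _ (pr X.f2 X.al.per 1 (-2*N + 2*a + 2*b - 4*d - 2*V + t) (pf X.d1 X.al.per 0 (2*a + 2*b - 2*d + t) (pf X.bb X.al.per 0 (2*a + 2*b + t) (rfl : W (t) = W (t)) (by omega)) (by omega)) (by omega)) (by omega))

theorem T0_210 (X : C W N Q i a b l m c d L U V) (hb : B N Q i a b l m c d L U V)
    (h : 0 ≤ i + d + V ∧ 2*a + m + U + 2 ≤ 2*N + l + 2*c + d + V) :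
    False := by
  have b2 := hb.b2
  have b19 := hb.b19
  have b20 := hb.b20
  obtain ⟨g1, g2⟩ := h
  have k1 : 0 ≤ 2*i + 2*a + d + V + 1 := by clear * - b2 b19 b20 g1; omega
  have k2 : 2*a + 2*m + 2*U + 3 ≤ 4*N + 2*l + 4*c + d + V := by clear * - b2 b19 b20 g2; omega
  have k3 : m + U + 2 ≤ 2*N + i + l + 2*c + 2*d + 2*V := by clear * - b2 g1 g2; omega
  have k4 : d + V + 1 ≤ 0 := by clear * - b19 b20; omega
  clear * - X g1 g2 k1 k2 k3 k4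
  obtain ⟨K0, hL⟩ : ∃ K0 : ℤ, -2*i - 2*a ≤ 2*K0 ∧ -4*N + 2*a - 2*l + 2*m - 4*c + 2*U + 4 ≤ 2*K0 ∧ 2*K0 + 2*(-d - V) - 2 ≤ -2*a - 2 ∧ 2*K0 + 2*(-d - V) - 2 ≤ 2*i + 2*a ∧ 2*K0 + 2*(-d - V) - 2 ≤ 4*N - 2*a + 2*l - 2*m + 4*c - 2*U - 4 := ⟨((max (-4*N + 2*a - 2*l + 2*m - 4*c + 2*U + 4) (-2*i - 2*a)) + 1) / 2, by omega⟩
  obtain ⟨R, hR1, hR2, hR⟩ := pw (A := 0) (B := 2*N + i + l - m + 2*c - U - 1) (γ := -d - V) (by omega) (fun t h1 h2 => (fin X.al.per 0 _ (pf X.f1 X.al.per 0 (-2*d - 2*V + t) (rfl : W (t) = W (t)) (by omega)) (by omega))) K0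
  exact X.al.ninv (i + a + R) (fin X.al.per 0 _ (pp hR X.al.per 0 (i + a + R) (af X.s1 X.al.per 0 (i + a - R) (rfl : W (i + a + R) = W (i + a + R)) (by omega)) (by omega)) (by omega))

theorem T0_211 (X : C W N Q i a b l m c d L U V) (hb : B N Q i a b l m c d L U V)
    (h : 2*a + b + d + 1 ≤ 0 ∧ 0 ≤ b + l + d ∧ 2*N + l + 2*c + d ≤ 2*a + b + m + U) :
    False := by
  have b2 := hb.b2
  have b3 := hb.b3
  have b14 := hb.b14
  have b18 := hb.b18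
  obtain ⟨g1, g2, g3⟩ := h
  have k1 : 0 ≤ i + 2*a + b + d := by clear * - b18 g3; omega
  have k2 : b + d + 1 ≤ 0 := by clear * - b2 g1; omega
  have k3 : 2*a + b + m + 1 ≤ 2*N + l + 2*c + d := by clear * - b2 b3 b14 g1; omega
  clear * - X g1 g2 g3 k1 k2 k3
  exact X.al.ninv (i + 2*a + b + d) (fin X.al.per 0 _ (pr X.f3 X.al.per 0 (i + 2*a + b + d) (pf X.bb X.al.per 0 (i + 2*a + b - d) (af X.s1 X.al.per 0 (i - b - d) (rfl : W (i + 2*a + b + d) = W (i + 2*a + b + d)) (by omega)) (by omega)) (by omega)) (by omega))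

theorem T0_214 (X : C W N Q i a b l m c d L U V) (hb : B N Q i a b l m c d L U V)
    (h : i + 4*a + 2*b ≤ l + m + 1 ∧ i + 2*a ≤ l ∧ l + c + 2 ≤ 2*a + b ∧ 4*a + 2*b ≤ i + 2*l + 2*c + 2) :
    False := by
  have b2 := hb.b2
  have b6 := hb.b6
  have b23 := hb.b23
  have b34 := hb.b34
  obtain ⟨g1, g2, g3, g4⟩ := h
  have k1 : 2*a + 2*b ≤ i + 2*l + 2*c + 2 := by clear * - b2 g4; omega
  have k2 : 2*a + b ≤ N + l + c := by clear * - b23 b34 g2 g3 g4; omega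
  clear * - X g1 g2 g3 g4 b6 k1 k2
  exact X.al.ubP (4*a + 2*b - 2*l - 2*c - 2) (by omega) (by omega) fun t h1 h2 => (fin X.al.per 0 _ (ar' X.s1 X.al.per 0 (4*a + 2*b - 2*l - 2*c + t - 2) (pr X.bb X.al.per 0 (2*i - 2*a - 2*b + 2*l + 2*c - t + 2) (af X.S2 X.al.per 0 (2*i + 2*l + 2*c - t + 2) (rfl : W (t) = W (t)) (by omega)) (by omega)) (by omega)) (by omega))

theorem T0_215 (X : C W N Q i a b l m c d L U V) (hb : B N Q i a b l m c d L U V)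
    (h : i + 2*a + 2*b + 2*m + 3 ≤ 4*N + Q + 2*c + 4*d + 2*V ∧ i + l + m + 3 ≤ 2*N + Q + 2*d + 2*V ∧ Q + 2*a + 2*b + 2*m + 2 ≤ 4*N + 2*c + 2*d ∧ 2*N + c + 2*d + V ≤ a + b + m) :
    False := by
  have b8 := hb.b8
  have b17 := hb.b17
  have b18 := hb.b18
  have b25 := hb.b25
  have b29 := hb.b29
  have b34 := hb.b34
  have b35 := hb.b35
  have b38 := hb.b38
  have b39 := hb.b39
  obtain ⟨g1, g2, g3, g4⟩ := h
  have k1 : Q + 2*a + 2*b + 3*m + U + 3 ≤ 6*N + i + l + 4*c + 4*d + 2*V := by clear * - b17 b18 g3; omega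
  have k2 : a + b + m + 2 ≤ 3*N + c + 2*d + V := by clear * - b25 b29 b34 b35 b38 b39 g2 g3 g4; omega
  clear * - X g1 g2 g3 g4 b8 k1 k2
  exact X.al.ubQ (-4*N + 2*a + 2*b + 2*m - 2*c - 4*d - 2*V + 2) (by omega) (by omega) fun t h1 h2 => (fin X.al.per 0 _ (pr X.f2 X.al.per 1 (-4*N + 2*a + 2*b + 2*m - 2*c - 4*d - 2*V + t + 2) (pr X.d2 X.al.per 0 (-2*N + 2*a + 2*b + 2*m - 2*c - 2*d + t + 2) (pf X.bb X.al.per 0 (2*a + 2*b + t) (rfl : W (t) = W (t)) (by omega)) (by omega)) (by omega)) (by omega))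

theorem T0_218 (X : C W N Q i a b l m c d L U V) (hb : B N Q i a b l m c d L U V)
    (h : 2*N + i + l + 2*c + 2*d + 1 ≤ 2*a + 4*b + m ∧ i + 1 ≤ 2*b ∧ 2*b + 2*m + 1 ≤ 2*N + i + l + 2*c + 2*d ∧ 2*m + 2 ≤ 2*N + i + 2*a + 2*c + 2*d ∧ N + c + d ≤ m) :
    False := by
  have b9 := hb.b9
  have b25 := hb.b25
  have b34 := hb.b34
  have b38 := hb.b38
  have b39 := hb.b39
  obtain ⟨g1, g2, g3, g4, g5⟩ := h
  have k1 : a + 2*b + m + 1 ≤ 2*N + c + d := by clear * - b9 g3; omega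
  have k2 : m + 2 ≤ 2*N + c + d := by clear * - b25 b34 b38 b39 g1 g2 g3 g4; omega
  have k3 : i + l + m + 4 ≤ 2*N := by clear * - b9 g1 g3; omega
  clear * - X g1 g2 g3 g4 g5 k1 k2 k3
  obtain ⟨K0, hL⟩ : ∃ K0 : ℤ, -2*N + 2*a + 4*b + 1 ≤ 2*K0 ∧ i + l - m + 2*c + 2*d + 2 ≤ 2*K0 ∧ -2*N + i + 2*a + 2*b + 2 ≤ 2*K0 ∧ 2*K0 + 2*(-N + m - c - d + 1) - 2 ≤ -2*N - i + 2*a + 4*b - l + m - 2*c - 2*d - 1 ∧ 2*K0 + 2*(-N + m - c - d + 1) - 2 ≤ 0 ∧ 2*K0 + 2*(-N + m - c - d + 1) - 2 ≤ -2*N + i + 2*a + 2*b + l + 1 ∧ 2*K0 + 2*(-N + m - c - d + 1) - 2 ≤ -2*N + i + 4*a + 4*b ∧ 2*K0 + 2*(-N + m - c - d + 1) - 2 ≤ 2*a + 4*b - 1 := ⟨((max (-2*N + i + 2*a + 2*b + 2) (max (i + l - m + 2*c + 2*d + 2) (-2*N + 2*a + 4*b + 1))) + 1) / 2, by omega⟩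
  obtain ⟨R, hR1, hR2, hR⟩ := pw (A := 2*N + i + l - m + 2*c + 2*d + 1) (B := 2*N) (γ := -N + m - c - d + 1) (by omega) (fun t h1 h2 => (fin X.al.per 0 _ (pr X.d2 X.al.per 0 (-2*N + 2*m - 2*c - 2*d + t + 2) (rfl : W (t) = W (t)) (by omega)) (by omega))) K0
  exact X.al.ubP (2*N - 2*a - 4*b + 2*R) (by omega) (by omega) fun t h1 h2 => (fin X.al.per 0 _ (pr X.a1 X.al.per 0 (2*N - 2*a - 4*b + t + 2*R) (pr X.bb X.al.per 0 (2*N - 2*a - 2*b + t + 2*R) (pp hR X.al.per (-1) (2*N + t + 2*R) (rfl : W (t) = W (t)) (by omega)) (by omega)) (by omega)) (by omega))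

theorem T0_221 (X : C W N Q i a b l m c d L U V) (hb : B N Q i a b l m c d L U V)
    (h : a + 2*b + 2*m + 3 ≤ 3*N + 2*c + 2*d ∧ 2*N + i + l + 2*c + 2*d + 1 ≤ 2*a + 4*b + m ∧ i + 1 ≤ 2*b ∧ 6*N + 4*c + 4*d ≤ i + 2*a + 2*b + l + 4*m + 5 ∧ 6*N + 4*c + 4*d ≤ i + 4*a + 4*b + 4*m + 4) :
    False := by
  have b9 := hb.b9
  have b25 := hb.b25
  have b34 := hb.b34
  have b36 := hb.b36
  have b38 := hb.b38
  have b39 := hb.b39
  obtain ⟨g1, g2, g3, g4, g5⟩ := h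
  have k1 : N + c + d ≤ m + 1 := by clear * - b9 g4; omega
  have k2 : 2*N + 2*c + 2*d ≤ a + 2*b + 2*m + 1 := by clear * - b25 b34 b36 b38 b39 g1 g2 g3 g4 g5; omega
  clear * - X g1 g2 g3 g4 g5 k1 k2
  exact X.al.ubP (6*N - 2*a - 4*b - 4*m + 4*c + 4*d - 4) (by omega) (by omega) fun t h1 h2 => (fin X.al.per 0 _ (pr X.a1 X.al.per 0 (6*N - 2*a - 4*b - 4*m + 4*c + 4*d + t - 4) (pr X.bb X.al.per 0 (6*N - 2*a - 2*b - 4*m + 4*c + 4*d + t - 4) (pf X.d2 X.al.per 0 (6*N - 4*m + 4*c + 4*d + t - 4) (pf X.d2 X.al.per (-1) (4*N - 2*m + 2*c + 2*d + t - 2) (rfl : W (t) = W (t)) (by omega)) (by omega)) (by omega)) (by omega)) (by omega))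

theorem T0_222 (X : C W N Q i a b l m c d L U V) (hb : B N Q i a b l m c d L U V)
    (h : 2*N + 2*c ≤ 2*a + 2*b + m ∧ 2*a + 2*b ≤ U ∧ 2*a + 2*b + m + 1 ≤ 2*N + l + 2*c + 2*d) :
    False := by
  have b6 := hb.b6
  have b13 := hb.b13
  have b17 := hb.b17
  have b19 := hb.b19
  have b20 := hb.b20
  obtain ⟨g1, g2, g3⟩ := h
  have k1 : 2*a + 2*b + m + 1 ≤ 2*N + l + 2*c := by clear * - b17 b19 b20 g3; omega
  have k2 : 1 ≤ a + b := by clear * - b6 b13 g1; omega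
  have k3 : 2*N + 2*c + 2*d ≤ 2*a + 2*b + m := by clear * - b17 b19 b20 g1; omega
  clear * - X g1 g2 g3 k1 k2 k3
  exact X.n3.yz (fin X.al.per 0 _ (pf X.bb X.al.per 0 (2*N + i + l - m + 2*c + 2*d) (pr X.f3 X.al.per 0 (2*N + i - 2*a - 2*b + l - m + 2*c + 2*d) (pr X.bb X.al.per 0 (2*N + i - 2*a - 2*b + l - m + 2*c) (rfl : W (2*N + i + l - m + 2*c) = W (2*N + i + l - m + 2*c)) (by omega)) (by omega)) (by omega)) (by omega)).symm

theorem T0_229 (X : C W N Q i a b l m c d L U V) (hb : B N Q i a b l m c d L U V)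
    (h : m + U + 2 ≤ 2*N + l + 2*c + 2*d + 2*V ∧ a + b + d + V ≤ 0 ∧ 0 ≤ a + b + d + V) :
    False := by
  have b8 := hb.b8
  have b19 := hb.b19
  obtain ⟨g1, g2, g3⟩ := h
  have k1 : 2*N + 2*c + 2*d + 2*V ≤ m + U + 1 := by clear * - b8 b19; omega
  clear * - X g1 g2 g3 k1
  exact X.n4.yz (fin X.al.per 0 _ (pf X.bb X.al.per 0 (2*N + i + 2*a + 2*b + l - m + 2*c + 2*d - U + 2*V - 1) (rfl : W (2*N + i + l - m + 2*c + 2*d - U + 2*V - 1) = W (2*N + i + l - m + 2*c + 2*d - U + 2*V - 1)) (by omega)) (by omega)).symm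

theorem T0_235 (X : C W N Q i a b l m c d L U V) (hb : B N Q i a b l m c d L U V)
    (h : d + V ≤ c ∧ c ≤ d + V ∧ l + 2*c + 2 ≤ 2*a ∧ b + c + 1 ≤ 0 ∧ 2*N + Q + 2*d + 2*V ≤ 2*a + 4*b ∧ Q + 2*b ≤ 2*N + i + 2*c) :
    False := by
  have b6 := hb.b6
  have b9 := hb.b9
  have b17 := hb.b17
  have b18 := hb.b18
  have b19 := hb.b19
  have b20 := hb.b20
  have b23 := hb.b23
  have b29 := hb.b29
  have b32 := hb.b32
  have b33 := hb.b33
  have b34 := hb.b34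
  obtain ⟨g1, g2, g3, g4, g5, g6⟩ := h
  have k1 : 2*a + 4*b + m + U + 3 ≤ 4*N + 2*d + 2*V := by clear * - b9 b17 b18 g4; omega
  have k2 : 2*N + Q + 2*c ≤ i + 4*a + 4*b := by clear * - b6 g2 g3 g5; omega
  have k3 : 2*N + Q + 2*c ≤ i + 2*a + 2*b + l + 1 := by clear * - b6 g2 g4 g5; omega
  have k4 : Q + m + U + 1 ≤ 2*N + i + l + 2*d + 2*V := by clear * - b20 g2; omega
  have k5 : i + 1 ≤ 2*b := by clear * - b17 b29 b32 g5; omega
  have k6 : N + d + V + 1 ≤ a + 2*b := by clear * - b17 b18 b19 g5; omega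
  have k7 : a + 2*b + 1 ≤ 2*N + d + V := by clear * - b23 b33 b34 g2 g3 g6; omega
  clear * - X g1 g2 g3 g4 g5 g6 k1 k2 k3 k4 k5 k6 k7
  exact X.al.uqU (-2*N + 2*a + 4*b - 2*d - 2*V) (by omega) (by omega) fun t h1 h2 => by (try simp only [max_le_iff, lt_min_iff] at h1 h2); exact (lt_or_ge t (min (4*N + i - 2*a - 4*b + l - m + 2*c + 2*d - U + 2*V - 1) (min (i - 2*b + l + 1) (i + 2*a)))).elim (fun u0 => by (try simp only [lt_min_iff] at u0); exact (fin X.al.per 0 _ (pr X.f2 X.al.per 1 (-2*N + 2*a + 4*b - 2*d - 2*V + t) (pf X.bb X.al.per 0 (2*a + 4*b + t) (pf X.a1 X.al.per 0 (2*b + t) (rfl : W (t) = W (t)) (by omega)) (by omega)) (by omega)) (by omega))) (fun u0 => (fin X.al.per 0 _ (pf X.a2 X.al.per 1 (-2*N + 2*a + 4*b - 2*c + t) (pf X.c1 X.al.per 0 (2*a + 2*b - 2*c + t) (rfl : W (t) = W (t)) (by omega)) (by omega)) (by omega)))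

theorem T0_237 (X : C W N Q i a b l m c d L U V) (hb : B N Q i a b l m c d L U V)
    (h : 2*N + 2*c + 2*d ≤ m ∧ 2*N + Q + 2*c ≤ i + l + 2*m + 3 ∧ 3*m + 4 ≤ 4*N + 4*c + 2*d ∧ m + d + V + 1 ≤ a + b + c ∧ a + b + c ≤ m + d + V + 1) :
    False := by
  have b9 := hb.b9
  have b11 := hb.b11
  have b17 := hb.b17
  have b18 := hb.b18
  obtain ⟨g1, g2, g3, g4, g5⟩ := h
  have k1 : i + l + 2*m + 4 ≤ 4*N + 2*c + 2*d := by clear * - b11 g3; omega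
  have k2 : 3*m + U + 5 ≤ 4*N + 4*c := by clear * - b9 b17 b18 g4; omega
  clear * - X g1 g2 g3 g4 g5 k1 k2
  exact X.n2.yz (fin X.al.per 1 _ (pf X.f2 X.al.per 0 (-2*N + i + l + 2*m - 2*c + 2*d + 2*V + 3) (pr X.d1 X.al.per 0 (-2*N + i + l + 2*m - 2*c + 3) (pr X.d2 X.al.per 0 (-2*N + i + l + 2*m - 2*c - 2*d + 3) (rfl : W (i + l + 1) = W (i + l + 1)) (by omega)) (by omega)) (by omega)) (by omega)).symm

theorem T0_238 (X : C W N Q i a b l m c d L U V) (hb : B N Q i a b l m c d L U V)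
    (h : 2*m + 3 ≤ 3*N + 2*c + 3*d + V ∧ 2*N + i + l + 2*c + 4*d + 2*V + 1 ≤ m ∧ 4*N + 2*c + 4*d + U ≤ i + l + 3*m + 3) :
    False := by
  have b21 := hb.b21
  have b26 := hb.b26
  have b37 := hb.b37
  obtain ⟨g1, g2, g3⟩ := h
  have k1 : N + c + d ≤ m + 1 := by clear * - b21 g3; omega
  have k2 : 2*N + 2*c + 3*d + V ≤ 2*m + 1 := by clear * - b26 b37 g1 g3; omega
  clear * - X g1 g2 g3 k1 k2
  exact X.al.ubP (6*N - 4*m + 4*c + 6*d + 2*V - 4) (by omega) (by omega) fun t h1 h2 => (fin X.al.per 0 _ (pr X.f1 X.al.per 0 (6*N - 4*m + 4*c + 6*d + 2*V + t - 4) (pf X.d2 X.al.per 0 (6*N - 4*m + 4*c + 4*d + t - 4) (pf X.d2 X.al.per (-1) (4*N - 2*m + 2*c + 2*d + t - 2) (rfl : W (t) = W (t)) (by omega)) (by omega)) (by omega)) (by omega))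

theorem T0_244 (X : C W N Q i a b l m c d L U V) (hb : B N Q i a b l m c d L U V)
    (h : m + U + 2*V + 2 ≤ 2*N + l + 2*c ∧ 2*N + 2*c ≤ m + U + 2*V + 1 ∧ a + b ≤ V ∧ V ≤ a + b) :
    False := by
  have b2 := hb.b2
  have b3 := hb.b3
  have b4 := hb.b4
  have b18 := hb.b18
  obtain ⟨g1, g2, g3, g4⟩ := h
  have k1 : 1 ≤ V := by clear * - b2 b3 b4 g3; omega
  clear * - X g1 g2 g3 g4 b18 k1
  exact X.n4.xz (fin X.al.per 0 _ (pf X.bb X.al.per 0 (2*N + i + 2*a + 2*b + l - m + 2*c - U - 2*V - 1) (pf X.f1 X.al.per 0 (2*N + i + l - m + 2*c - U - 2*V - 1) (rfl : W (2*N + i + l - m + 2*c + 2*d - U - 1) = W (2*N + i + l - m + 2*c + 2*d - U - 1)) (by omega)) (by omega)) (by omega)).symm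

theorem T0_245 (X : C W N Q i a b l m c d L U V) (hb : B N Q i a b l m c d L U V)
    (h : 2*a + 2*b + m + 1 ≤ 2*N + l + 2*c + 2*d ∧ 2*N + 2*c ≤ l + 2*m + 2 ∧ 2*a + 2*b ≤ U ∧ 4*N + 4*c + 2*d ≤ 3*m + U + 3 ∧ a + b + m + 2 ≤ N + c ∧ 2*N + 2*c + 2*d ≤ m ∧ L + 1 ≤ 2*a + 2*b + U ∧ 2*m + L + 4 ≤ 2*N + 2*a + 2*b + 2*c) :
    False := by
  have b11 := hb.b11
  have b28 := hb.b28
  have b33 := hb.b33
  obtain ⟨g1, g2, g3, g4, g5, g6, g7, g8⟩ := h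
  have k1 : i + 2*a + 2*b + 1 ≤ 2*N + 2*d := by clear * - b11 g1; omega
  have k2 : i + 2*a + 2*b + l + 2*c ≤ m + U := by clear * - b11 g3; omega
  have k3 : i + 2*a + 2*b + l + m + 3 ≤ 2*N := by clear * - b11 g5; omega
  have k4 : c ≤ a + b + m := by clear * - b28 b33 g2 g5 g7 g8; omega
  have k5 : i + l + 2*c + L + 1 ≤ 2*a + 2*b + m + U := by clear * - b11 g7; omega
  have k6 : i + l + m + L + 4 ≤ 2*N + 2*a + 2*b := by clear * - b11 g8; omega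
  clear * - X g1 g2 g3 g4 g5 g6 g7 g8 k1 k2 k3 k4 k5 k6
  exact absurd (X.lam.mx (max (-2*N + i + 2*a + 2*b + 2*m - 2*c + 3) (max (i + l + m + 2*d + 3) (2*N + i + l - m + 2*c + 2*d - U))) (min (2*N + 2*a + 2*b + 2*d) (min (2*N + i + 2*a + 2*b + l - m + 2*c + 2*d) (i + 2*a + 2*b + l + 1))) (2*N - 2*a - 2*b - 2*m + 2*c - 2) (by omega) (by omega) fun t h1 h2 => by (try simp only [max_le_iff, lt_min_iff] at h1 h2); exact (lt_or_ge t (min (-2*N + i + 2*a + 2*b + l + 2*m - 2*c + 3) (min (2*N + 2*d) (2*N + i + l - m + 2*c + 2*d)))).elim (fun u0 => by (try simp only [lt_min_iff] at u0); exact (fin X.al.per 0 _ (pr X.bb X.al.per 0 (2*N - 2*a - 2*b - 2*m + 2*c + t - 2) (pf X.d2 X.al.per 0 (2*N - 2*m + 2*c + t - 2) (pf X.f3 X.al.per 0 (-2*d + t) (rfl : W (t) = W (t)) (by omega)) (by omega)) (by omega)) (by omega))) (fun u0 => (fin X.al.per 0 _ (pf X.d2 X.al.per 0 (2*N -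 2*a - 2*b - 2*m + 2*c + t - 2) (pf X.f3 X.al.per 0 (-2*a - 2*b - 2*d + t) (pr X.bb X.al.per 0 (-2*a - 2*b + t) (rfl : W (t) = W (t)) (by omega)) (by omega)) (by omega)) (by omega)))) (by omega)

theorem T0_246 (X : C W N Q i a b l m c d L U V) (hb : B N Q i a b l m c d L U V)
    (h : 2*b + m + U + 1 ≤ 2*N + i + l + 2*c + 2*d + 2*V ∧ 2*b + m + U + 2 ≤ 2*N + l + 2*c ∧ 2*N + 2*c ≤ 2*b + m + U + 1 ∧ a ≤ 0) :
    False := by
  have b2 := hb.b2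
  have b3 := hb.b3
  have b4 := hb.b4
  have b19 := hb.b19
  obtain ⟨g1, g2, g3, g4⟩ := h
  have k1 : 2*N + l + 2*c + 2*d + 2*V ≤ 2*a + 2*b + m + U := by clear * - b4 b19; omega
  have k2 : 1 ≤ b := by clear * - b3 b4; omega
  clear * - X g1 g2 g3 g4 k1 k2 b2
  exact X.n4.yz (fin X.al.per 0 _ (pf X.bb X.al.per 0 (2*N + i + 2*a + l - m + 2*c - U - 1) (pf X.f1 X.al.per 0 (2*N + i - 2*b + l - m + 2*c - U - 1) (pr X.a1 X.al.per 0 (2*N + i - 2*b + l - m + 2*c + 2*d - U + 2*V - 1) (rfl : W (2*N + i + l - m + 2*c + 2*d - U + 2*V - 1) = W (2*N + i + l - m + 2*c + 2*d - U + 2*V - 1)) (by omega)) (by omega)) (by omega)) (by omega)).symm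

theorem T0_252 (X : C W N Q i a b l m c d L U V) (hb : B N Q i a b l m c d L U V)
    (h : Q ≤ 2*b ∧ b + m + V + 1 ≤ N + c ∧ 2*m + 2 ≤ 2*N + i + 2*a + 2*c + 2*d ∧ N + c + d ≤ m) :
    False := by
  have b17 := hb.b17
  have b18 := hb.b18
  have b23 := hb.b23
  have b28 := hb.b28
  have b32 := hb.b32
  have b38 := hb.b38
  obtain ⟨g1, g2, g3, g4⟩ := h
  have k1 : i + l + 2*c + 1 ≤ 2*b + m + 2*V := by clear * - b17 b28 b38 g1; omega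
  have k2 : 2*b + 3*m + U + 3 ≤ 4*N + i + l + 4*c + 2*d := by clear * - b17 b18 g2; omega
  have k3 : m + 2 ≤ 2*N + c + d := by clear * - b23 b32 g1 g3 g4; omega
  have k4 : i + l + m + 4 ≤ 2*N := by clear * - b17 b28 b38 g1 g2; omega
  clear * - X g1 g2 g3 g4 k1 k2 k3 k4
  obtain ⟨K0, hL⟩ : ∃ K0 : ℤ, 2*b + 2*d + 2*V + 1 ≤ 2*K0 ∧ i + l - m + 2*c + 2*d + 2 ≤ 2*K0 ∧ Q + 2*d + 2*V + 1 ≤ 2*K0 ∧ 2*K0 + 2*(-N + m - c - d + 1) - 2 ≤ -i + 2*b - l + m - 2*c + 2*V - 1 ∧ 2*K0 + 2*(-N + m - c - d + 1) - 2 ≤ 0 ∧ 2*K0 + 2*(-N + m - c - d + 1) - 2 ≤ 2*N + i + l - m + 2*c + 2*d - U + 2*V - 1 ∧ 2*K0 + 2*(-N + m - c - d + 1) - 2 ≤ i + 2*a + 2*b + 2*d + 2*V ∧ 2*K0 + 2*(-N + m - c - d + 1) - 2 ≤ 2*N + 2*b + 2*d + 2*V - 1 := ⟨((max (Q + 2*d + 2*V + 1) (max (i + l - m + 2*c + 2*d + 2) (2*b + 2*d + 2*V + 1))) + 1) / 2, by omega⟩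
  obtain ⟨R, hR1, hR2, hR⟩ := pw (A := 2*N + i + l - m + 2*c + 2*d + 1) (B := 2*N) (γ := -N + m - c - d + 1) (by omega) (fun t h1 h2 => (fin X.al.per 0 _ (pr X.d2 X.al.per 0 (-2*N + 2*m - 2*c - 2*d + t + 2) (rfl : W (t) = W (t)) (by omega)) (by omega))) K0
  exact X.al.ubP (-2*b - 2*d - 2*V + 2*R) (by omega) (by omega) fun t h1 h2 => (fin X.al.per 0 _ (pr X.a1 X.al.per 0 (-2*b - 2*d - 2*V + t + 2*R) (pr X.f2 X.al.per 1 (-2*d - 2*V + t + 2*R) (pp hR X.al.per (-1) (2*N + t + 2*R) (rfl : W (t) = W (t)) (by omega)) (by omega)) (by omega)) (by omega))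

theorem T0_254 (X : C W N Q i a b l m c d L U V) (hb : B N Q i a b l m c d L U V)
    (h : i + l + 2*m + 4 ≤ 2*N + Q + 2*d ∧ N + c + d ≤ m ∧ i + l + m + 2*c + 3 ≤ Q + 2*a + 2*b ∧ Q + 2*a + 2*b + 2*m + 2 ≤ 4*N + 4*c + 2*d) :
    False := by
  have b25 := hb.b25
  have b27 := hb.b27
  have b28 := hb.b28
  have b35 := hb.b35
  obtain ⟨g1, g2, g3, g4⟩ := h
  have k1 : m + 2 ≤ 2*N + c + d := by clear * - b25 b27 b28 b35 g1 g2 g3 g4; omega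
  clear * - X g1 g2 g3 g4 k1
  exact X.al.ubQ (-2*N + 2*m - 2*c - 2*d + 2) (by omega) (by omega) fun t h1 h2 => (fin X.al.per 0 _ (pf X.c2 X.al.per 0 (-2*N + 2*m - 2*c - 2*d + t + 2) (pr X.d2 X.al.per 0 (-2*N + 2*a + 2*b + 2*m - 4*c - 2*d + t + 2) (pf X.c1 X.al.per 0 (2*a + 2*b - 2*c + t) (rfl : W (t) = W (t)) (by omega)) (by omega)) (by omega)) (by omega))

theorem T0_263 (X : C W N Q i a b l m c d L U V) (hb : B N Q i a b l m c d L U V)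
    (h : 2*N + l + 2*c + 2*d ≤ 2*a + m + U ∧ 2*b ≤ U ∧ 2*N + 2*c ≤ 2*a + m + U + 1 ∧ a ≤ 0) :
    False := by
  have b2 := hb.b2
  have b3 := hb.b3
  have b4 := hb.b4
  have b18 := hb.b18
  have b20 := hb.b20
  obtain ⟨g1, g2, g3, g4⟩ := h
  have k1 : 1 ≤ b := by clear * - b3 b4; omega
  have k2 : 2*a + m + U + 2 ≤ 2*N + l + 2*c := by clear * - b3 b20; omega
  clear * - X g1 g2 g3 g4 b18 k1 k2 b2
  exact X.n4.xz (fin X.al.per 0 _ (pr X.bb X.al.per 0 (2*N + i - 2*a + l - m + 2*c - U - 1) (pf X.f3 X.al.per 0 (2*N + i + 2*b + l - m + 2*c - U - 1) (pf X.a1 X.al.per 0 (2*N + i + 2*b + l - m + 2*c + 2*d - U - 1) (rfl : W (2*N + i + l - m + 2*c + 2*d - U - 1) = W (2*N + i + l - m + 2*c + 2*d - U - 1)) (by omega)) (by omega)) (by omega)) (by omega)).symm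

theorem T0_265 (X : C W N Q i a b l m c d L U V) (hb : B N Q i a b l m c d L U V)
    (h : b + m + 1 ≤ 2*N + c + d ∧ 2*N + c + d ≤ b + m + 1) :
    False := by
  have b1 := hb.b1
  have b2 := hb.b2
  have b13 := hb.b13
  have b14 := hb.b14
  obtain ⟨g1, g2⟩ := h
  have k1 : 2*N + Q ≤ i + 2*b + l + m + 2 := by clear * - b14 g2; omega
  have k2 : l + m + 3 ≤ 2*N + 2*a := by clear * - b1 b2 b13; omega
  clear * - X g1 g2 k1 k2
  exact X.n3.xz (fin X.al.per 0 _ (pf X.a2 X.al.per 1 (-2*N + i + 2*b + l + m + 2) (rfl : W (i + l + m + 2) = W (i + l + m + 2)) (by omega)) (by omega)).symm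

end Pool.Agent.MP_a38735_al.WL.E31
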