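import Pool.Agent.MP_a38735_al.E31h

set_option autoImplicit false
set_option linter.unusedVariables false
set_option linter.unusedSimpArgs false

namespace Pool.Agent.MP_a38735_al.WL.E31

variable {G : Type*} [Group G]

variable {W : ℤ → G} {N Q i a b l m c d L U V Y : ℤ}

theorem T0_269 (X : C W N Q i a b l m c d L U V) (hb : B N Q i a b l m c d L U V)
    (h : Q + d + V ≤ i + a + b ∧ a + b + m + U + 2 ≤ 2*N + l + 2*c + d + V ∧ a + 1 ≤ b + d + V) :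
    False := by
  have b1 := hb.b1
  have b2 := hb.b2
  have b19 := hb.b19
  obtain ⟨g1, g2, g3⟩ := h
  have k1 : 1 ≤ a + b + d + V := by clear * - b2 g3; omega
  have k2 : 0 ≤ i + a + b + d + V := by clear * - b1 b2 g3; omega
  have k3 : i + a + b + d + V + 1 ≤ Q := by clear * - b19 g2; omega
  clear * - X g1 g2 g3 k1 k2 k3
  exact X.al.ninv (i + a - b - d - V) (fin X.al.per 0 _ (af X.s2 X.al.per 0 (i + a - b - d - V) (pr X.f1 X.al.per 0 (i + a + b + d + V) (pf X.a2 X.al.per 0 (i + a + b - d - V) (rfl : W (i + a - b - d - V) = W (i + a - b - d - V)) (by omega)) (by omega)) (by omega)) (by omega))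

theorem T0_271 (X : C W N Q i a b l m c d L U V) (hb : B N Q i a b l m c d L U V)
    (h : 2*b ≤ Q ∧ Q + 2*d + 2*V ≤ i + 2*a ∧ 1 ≤ b + d + V) :
    False := by
  have b20 := hb.b20
  have b23 := hb.b23
  have b32 := hb.b32
  obtain ⟨g1, g2, g3⟩ := h
  have k1 : b + d + V + 1 ≤ N := by clear * - b23 b32 g2 g3; omega
  clear * - X g1 g2 g3 b20 k1
  exact X.al.ubQ (2*b + 2*d + 2*V) (by omega) (by omega) fun t h1 h2 => (fin X.al.per 0 _ (pf X.a1 X.al.per 0 (2*b + 2*d + 2*V + t) (pr X.f1 X.al.per 0 (2*d + 2*V + t) (rfl : W (t) = W (t)) (by omega)) (by omega)) (by omega))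

theorem T0_274 (X : C W N Q i a b l m c d L U V) (hb : B N Q i a b l m c d L U V)
    (h : Q + 3*m + 2*V + 2 ≤ 2*N + i + l + 4*c ∧ 2*N + 4*c ≤ 3*m + 2*V + 2 ∧ a + b + c ≤ m + d + V + 1 ∧ m + d + V + 1 ≤ a + b + c) :
    False := by
  have b2 := hb.b2
  have b3 := hb.b3
  have b11 := hb.b11
  have b17 := hb.b17
  have b28 := hb.b28
  have b36 := hb.b36
  have b38 := hb.b38
  obtain ⟨g1, g2, g3, g4⟩ := h
  have k1 : m + 2 ≤ N + c := by clear * - b17 b28 b38 g1; omega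
  have k2 : 2*c + U ≤ 2*m + 2*V := by clear * - b11 b17 b28 b36; omega
  have k3 : 3*m + 2*V + 3 ≤ 2*N + l + 4*c := by clear * - b2 b3 g1; omega
  clear * - X g1 g2 g3 g4 k1 b11 k2 k3
  exact X.n3.yz (fin X.al.per 0 _ (pf X.bb X.al.per 0 (2*N + i + 2*a + 2*b + l - 3*m + 4*c - 2*V - 2) (pr X.f2 X.al.per 1 (2*N + i + l - 3*m + 4*c - 2*V - 2) (pf X.d2 X.al.per 0 (4*N + i + l - 3*m + 4*c + 2*d - 2) (rfl : W (2*N + i + l - m + 2*c) = W (2*N + i + l - m + 2*c)) (by omega)) (by omega)) (by omega)) (by omega)).symm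

theorem T0_278 (X : C W N Q i a b l m c d L U V) (hb : B N Q i a b l m c d L U V)
    (h : V ≤ 0 ∧ m + U + 3 ≤ 2*N + 2*d + 2*V ∧ 2*c + U + 2 ≤ 2*a + 2*b + 2*d + 2*V ∧ 2*a + 2*b + 2*d + 2*V ≤ m + 2*c + U + 1 ∧ m + U + 2 ≤ N + a + b + d + V ∧ N + a + b + d + V ≤ m + U + 2) :
    False := by
  have b17 := hb.b17
  have b19 := hb.b19
  obtain ⟨g1, g2, g3, g4, g5, g6⟩ := h
  clear * - X g1 g2 g3 g4 g5 g6 b17 b19
  exact X.n4.tor ⟨(fin X.al.per 0 _ (rfl : W (2*N + i + l - m + 2*c + 2*d - U + 2*V - 1) = W (2*N + i + l - m + 2*c + 2*d - U + 2*V - 1)) (by omega)), (fin X.al.per 0 _ (af X.S2 X.al.per 1 (i - 2*a - 2*b + l + m + 2*c - 2*d + U - 2*V + 3) (pf X.c1 X.al.per 0 (2*N + i + 2*a + 2*b + l - m + 2*d - U + 2*V - 1) (rfl : W (2*N + i + l - m + 2*c + 2*d - U + 2*V - 1) = W (2*N + i + l - m + 2*c + 2*d - U + 2*V - 1)) (by omega)) (by omega)) (by omega))⟩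

theorem T0_281 (X : C W N Q i a b l m c d L U V) (hb : B N Q i a b l m c d L U V)
    (h : b + d ≤ i + a ∧ 2*N + l + 2*c + d ≤ a + b + m + U ∧ a + b + m + 1 ≤ 2*N + l + 2*c + d ∧ a + 1 ≤ b + d) :
    False := by
  have b2 := hb.b2
  obtain ⟨g1, g2, g3, g4⟩ := h
  have k1 : 1 ≤ a + b + d := by clear * - b2 g4; omega
  clear * - X g1 g2 g3 g4 k1
  exact X.al.ninv (i + a - b - d) (fin X.al.per 0 _ (ar X.s1 X.al.per 0 (i + a - b - d) (pr X.f3 X.al.per 0 (i + a + b + d) (pf X.a1 X.al.per 0 (i + a + b - d) (rfl : W (i + a - b - d) = W (i + a - b - d)) (by omega)) (by omega)) (by omega)) (by omega))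

theorem T0_283 (X : C W N Q i a b l m c d L U V) (hb : B N Q i a b l m c d L U V)
    (h : a + b + V ≤ l + c ∧ a + b + m + U + 3 ≤ 2*N + c + V ∧ c ≤ a + b + m + 2*d + V ∧ a + b + 2*d + V + 1 ≤ c ∧ 2*N + a + b + c + 2*d + V ≤ m + U + 1 ∧ m + 2 ≤ 2*N + a + b + c + 2*d + V) :
    False := by
  have b4 := hb.b4
  have b7 := hb.b7
  have b17 := hb.b17
  obtain ⟨g1, g2, g3, g4, g5, g6⟩ := h
  have k1 : c + 1 ≤ a + b + V := by clear * - b4 b7 b17 g1; omega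
  have k2 : Q + V ≤ i + a + b + l + c + 1 := by clear * - b4 g1; omega
  clear * - X g1 g2 g3 g4 g5 g6 k1 k2
  exact X.al.ninv (i - a - b + l + c - V + 1) (fin X.al.per 0 _ (pr X.f3 X.al.per 0 (i - a - b + l + c - V + 1) (af X.S2 X.al.per 0 (i - a - b + l + c - 2*d - V + 1) (pf X.f2 X.al.per 0 (i + a + b + l + c + 2*d + V + 1) (pf X.bb X.al.per 0 (i + a + b + l + c - V + 1) (rfl : W (i - a - b + l + c - V + 1) = W (i - a - b + l + c - V + 1)) (by omega)) (by omega)) (by omega)) (by omega)) (by omega))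

theorem T0_284 (X : C W N Q i a b l m c d L U V) (hb : B N Q i a b l m c d L U V)
    (h : l + c + 2 ≤ 2*a + b + V ∧ Q + V ≤ i + b + l + c + 1 ∧ b + m + U + 3 ≤ 2*N + c + V ∧ c ≤ b + m + 2*d + V ∧ b + 2*d + V + 1 ≤ c ∧ 2*N + b + c + 2*d + V ≤ m + U + 1) :
    False := by
  have b3 := hb.b3
  have b14 := hb.b14
  have b18 := hb.b18
  obtain ⟨g1, g2, g3, g4, g5, g6⟩ := h
  have k1 : b + V ≤ i + l + c + 1 := by clear * - b18 g6; omega
  have k2 : m + 2 ≤ 2*N + b + c + 2*d + V := by clear * - b3 b14 g1; omega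
  clear * - X g1 g2 g3 g4 g5 g6 k1 k2
  exact X.al.ninv (i - b + l + c - V + 1) (fin X.al.per 0 _ (pr X.f3 X.al.per 0 (i - b + l + c - V + 1) (af X.S2 X.al.per 0 (i - b + l + c - 2*d - V + 1) (pf X.f2 X.al.per 0 (i + b + l + c + 2*d + V + 1) (pf X.a1 X.al.per 0 (i + b + l + c - V + 1) (rfl : W (i - b + l + c - V + 1) = W (i - b + l + c - V + 1)) (by omega)) (by omega)) (by omega)) (by omega)) (by omega))

theorem T0_287 (X : C W N Q i a b l m c d L U V) (hb : B N Q i a b l m c d L U V)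
    (h : a + b + V ≤ N + c ∧ N + c ≤ a + b + V ∧ 2*a + 2*b + 2*d + 2*V ≤ m + 2*c + U + 1 ∧ m + U + 2 ≤ N + a + b + d + V ∧ N + a + b + d + V ≤ m + U + 2) :
    False := by
  have b9 := hb.b9
  have b18 := hb.b18
  have b19 := hb.b19
  have b29 := hb.b29
  have b39 := hb.b39
  obtain ⟨g1, g2, g3, g4, g5⟩ := h
  have k1 : m + U + 3 ≤ 2*N + 2*d + 2*V := by clear * - b9 b18 g2; omega
  have k2 : 2*c + U + 2 ≤ 2*a + 2*b + 2*d + 2*V := by clear * - b29 b39 g2; omega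
  clear * - X g1 g2 g3 g4 g5 k1 b19 k2
  exact X.n4.tor ⟨(fin X.al.per (-1) _ (pf X.c1 X.al.per 0 (2*N + i + 2*a + 2*b + l - m + 2*d - U + 2*V - 1) (rfl : W (2*N + i + l - m + 2*c + 2*d - U + 2*V - 1) = W (2*N + i + l - m + 2*c + 2*d - U + 2*V - 1)) (by omega)) (by omega)), (fin X.al.per 0 _ (af X.S2 X.al.per 1 (i - 2*a - 2*b + l + m + 2*c - 2*d + U - 2*V + 3) (pf X.c1 X.al.per 0 (2*N + i + 2*a + 2*b + l - m + 2*d - U + 2*V - 1) (rfl : W (2*N + i + l - m + 2*c + 2*d - U + 2*V - 1) = W (2*N + i + l - m + 2*c + 2*d - U + 2*V - 1)) (by omega)) (by omega)) (by omega))⟩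

theorem T0_288 (X : C W N Q i a b l m c d L U V) (hb : B N Q i a b l m c d L U V)
    (h : i + 2*a + 2*b + l + 2 ≤ 2*N + Q + 2*d + 2*V ∧ Q + m + U + 1 ≤ i + 2*a + 2*b + l) :
    False := by
  have b6 := hb.b6
  have b9 := hb.b9
  have b19 := hb.b19
  have b27 := hb.b27
  have b32 := hb.b32
  have b33 := hb.b33
  have b34 := hb.b34
  obtain ⟨g1, g2⟩ := h
  have k1 : N + c + d + V ≤ a + b := by clear * - b19 g2; omega
  have k2 : c + 1 ≤ a + b := by clear * - b27 b32 b33 b34 g2; omega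
  have k3 : i + l + 2*c + 3 ≤ Q := by clear * - b19 g1 g2; omega
  have k4 : a + b + 1 ≤ N + c := by clear * - b6 b9; omega
  clear * - X g1 g2 k1 k2 k3 k4
  obtain ⟨K0, hL⟩ : ∃ K0 : ℤ, 2*d + 2*V + 1 ≤ 2*K0 ∧ -2*N - Q + i + 2*a + 2*b + l + 3 ≤ 2*K0 ∧ 2*K0 + 2*(N - a - b + c) - 2 ≤ 2*N + Q - i - 2*a - 2*b - l + 2*d + 2*V - 2 ∧ 2*K0 + 2*(N - a - b + c) - 2 ≤ 0 ∧ 2*K0 + 2*(N - a - b + c) - 2 ≤ 2*N - Q + i + l - m + 2*c + 2*d - U + 2*V - 1 ∧ 2*K0 + 2*(N - a - b + c) - 2 ≤ 2*N + 2*d + 2*V - 1 := ⟨((max (-2*N - Q + i + 2*a + 2*b + l + 3) (2*d + 2*V + 1)) + 1) / 2, by omega⟩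
  obtain ⟨R, hR1, hR2, hR⟩ := pw (A := i + 2*a + 2*b + l + 2) (B := 2*N + Q) (γ := N - a - b + c) (by omega) (fun t h1 h2 => (fin X.al.per 1 _ (pr X.c1 X.al.per 0 (-2*a - 2*b + 2*c + t) (rfl : W (t) = W (t)) (by omega)) (by omega))) K0
  exact X.al.ubQ (-2*d - 2*V + 2*R) (by omega) (by omega) fun t h1 h2 => (fin X.al.per 0 _ (pr X.f2 X.al.per 1 (-2*d - 2*V + t + 2*R) (pp hR X.al.per (-1) (2*N + t + 2*R) (rfl : W (t) = W (t)) (by omega)) (by omega)) (by omega))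

theorem T0_289 (X : C W N Q i a b l m c d L U V) (hb : B N Q i a b l m c d L U V)
    (h : c ≤ m + 2*d + V ∧ 2*d + V + 1 ≤ c ∧ Q + V ≤ i + l + c + 1 ∧ m + 2 ≤ 2*N + c + 2*d + V ∧ m + U + 3 ≤ 2*N + c + V) :
    False := by
  obtain ⟨g1, g2, g3, g4, g5⟩ := h
  clear * - X g1 g2 g3 g4 g5
  exact X.al.ninv (i + l + c + 2*d + V + 1) (fin X.al.per 0 _ (pf X.f2 X.al.per 0 (i + l + c + 2*d + V + 1) (pr X.d1 X.al.per 0 (i + l + c - V + 1) (af X.S2 X.al.per 0 (i + l + c - 2*d - V + 1) (rfl : W (i + l + c + 2*d + V + 1) = W (i + l + c + 2*d + V + 1)) (by omega)) (by omega)) (by omega)) (by omega))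

theorem T0_296 (X : C W N Q i a b l m c d L U V) (hb : B N Q i a b l m c d L U V)
    (h : 4*N + l + 3*c + 3*d + V ≤ 2*a + b + 2*m + U + 1 ∧ m + U + 3 ≤ 2*N + b + c + d + V ∧ i + b + l + c + d + V + 1 ≤ U) :
    False := by
  have b3 := hb.b3
  have b17 := hb.b17
  have b18 := hb.b18
  obtain ⟨g1, g2, g3⟩ := h
  have k1 : b + 2*m + U + 2 ≤ 4*N + i + l + 3*c + 3*d + V := by clear * - b17 b18 g3; omega
  have k2 : b + m + V + 2 ≤ 2*N + c + d := by clear * - b18 g3; omega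
  have k3 : 4*N + i + l + 3*c + 3*d + V ≤ Q + b + 2*m + U + 1 := by clear * - b3 g1; omega
  clear * - X g1 g2 g3 k1 k2 k3
  exact X.al.ninv (4*N + i - b + l - 2*m + 3*c + 3*d - U + V - 2) (fin X.al.per 0 _ (ar X.t2 X.al.per 1 (4*N + i - b + l - 2*m + 3*c + 3*d - U + V - 2) (pr X.d2 X.al.per 0 (2*N + i + b + l + c + d - U + V) (pf X.a1 X.al.per 0 (4*N + i + b + l - 2*m + 3*c + 3*d - U + V - 2) (rfl : W (4*N + i - b + l - 2*m + 3*c + 3*d - U + V - 2) = W (4*N + i - b + l - 2*m + 3*c + 3*d - U + V - 2)) (by omega)) (by omega)) (by omega)) (by omega))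

theorem T0_298 (X : C W N Q i a b l m c d L U V) (hb : B N Q i a b l m c d L U V)
    (h : 3*N + 3*c + 2*d ≤ 3*m + 2 ∧ m + 2 ≤ N + c ∧ i + l + 2*m + 4 ≤ 3*N + c + 2*d) :
    False := by
  have b6 := hb.b6
  obtain ⟨g1, g2, g3⟩ := h
  have k1 : 2*m + 3 ≤ 3*N + 3*c + 2*d := by clear * - b6 g3; omega
  clear * - X g1 g2 g3 k1
  exact X.al.ninv (-3*N + i + l + 2*m - c - 2*d + 3) (fin X.al.per (-1) _ (pr X.d2 X.al.per 0 (-N + i + l + 2*m - c - 2*d + 3) (pr X.d2 X.al.per 0 (N + i + l + c + 1) (af X.S2 X.al.per 0 (3*N + i + l - 2*m + 3*c + 2*d - 1) (rfl : W (-3*N + i + l + 2*m - c - 2*d + 3) = W (-3*N + i + l + 2*m - c - 2*d + 3)) (by omega)) (by omega)) (by omega)) (by omega))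

theorem T0_303 (X : C W N Q i a b l m c d L U V) (hb : B N Q i a b l m c d L U V)
    (h : 2*N + i + a + c + 2*d ≤ Q + m ∧ l + c + 2*d + 2 ≤ a ∧ i + a + m + 2 ≤ 2*N + c + 2*d ∧ l + c + 1 ≤ a + U) :
    False := by
  have b1 := hb.b1
  have b14 := hb.b14
  obtain ⟨g1, g2, g3, g4⟩ := h
  have k1 : a + m + 2 ≤ 2*N + c + 2*d := by clear * - b1 g3; omega
  have k2 : a ≤ l + c := by clear * - b14 g1; omega
  clear * - X g1 g2 g3 g4 k1 k2
  exact X.al.ninv (2*N + i + a - m + c + 2*d - 1) (fin X.al.per 0 _ (pr X.f3 X.al.per 0 (2*N + i + a - m + c + 2*d - 1) (pf X.d2 X.al.per (-1) (2*N + i + a - m + c - 1) (af X.s2 X.al.per 0 (-2*N + i + a + m - c - 2*d + 1) (rfl : W (2*N + i + a - m + c + 2*d - 1) = W (2*N + i + a - m + c + 2*d - 1)) (by omega)) (by omega)) (by omega)) (by omega))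

theorem T0_305 (X : C W N Q i a b l m c d L U V) (hb : B N Q i a b l m c d L U V)
    (h : 2*N + i + l + 2*c + 6*d + 2*V + 1 ≤ m ∧ m + 2 ≤ 2*N + c + 3*d + V ∧ 2*N + i + l + 2*c + 4*d + 2*V ≤ m + U ∧ 2*N + 2*d ≤ i + l + m + 2 ∧ 2*N + 4*d + U ≤ i + l + m + 1) :
    False := by
  have b29 := hb.b29
  have b39 := hb.b39
  obtain ⟨g1, g2, g3, g4, g5⟩ := h
  have k1 : N + c + 3*d + V ≤ m := by clear * - b29 b39 g2 g3 g4 g5; omega
  clear * - X g1 g2 g3 g4 g5 k1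
  exact X.al.ubP (4*N - 2*m + 2*c + 6*d + 2*V - 2) (by omega) (by omega) fun t h1 h2 => (fin X.al.per 0 _ (pr X.f1 X.al.per 0 (4*N - 2*m + 2*c + 6*d + 2*V + t - 2) (pr X.f3 X.al.per 0 (4*N - 2*m + 2*c + 4*d + t - 2) (pf X.d2 X.al.per (-1) (4*N - 2*m + 2*c + 2*d + t - 2) (rfl : W (t) = W (t)) (by omega)) (by omega)) (by omega)) (by omega))

theorem T0_308 (X : C W N Q i a b l m c d L U V) (hb : B N Q i a b l m c d L U V)
    (h : 2*N + l + 2*c + 2*d ≤ m + U ∧ 0 ≤ l + 2*d ∧ 2*a + 2*b + m + 1 ≤ 2*N + l + 2*c + 2*d) :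
    False := by
  have b4 := hb.b4
  have b6 := hb.b6
  have b13 := hb.b13
  have b17 := hb.b17
  have b19 := hb.b19
  have b20 := hb.b20
  obtain ⟨g1, g2, g3⟩ := h
  have k1 : m + 1 ≤ 2*N + l + 2*c + 2*d := by clear * - b6 b13 g2; omega
  have k2 : d + 1 ≤ 0 := by clear * - b17 b19 b20; omega
  clear * - X g1 g2 g3 k1 k2 b4
  exact X.n1.xz (fin X.al.per 0 _ (pr X.d1 X.al.per 0 (i + 2*a + 2*b) (pf X.bb X.al.per 0 (i + 2*a + 2*b - 2*d) (pf X.f3 X.al.per 0 (i - 2*d) (rfl : W (i) = W (i)) (by omega)) (by omega)) (by omega)) (by omega)).symm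

theorem T0_312 (X : C W N Q i a b l m c d L U V) (hb : B N Q i a b l m c d L U V)
    (h : m + 2 ≤ 2*a + 2*b ∧ m + 1 ≤ N + a + b + c + d ∧ N + a + b + c + d ≤ m + 1) :
    False := by
  have b2 := hb.b2
  have b3 := hb.b3
  have b14 := hb.b14
  obtain ⟨g1, g2, g3⟩ := h
  have k1 : 2*a + 2*b ≤ l + m + 1 := by clear * - b2 b3 b14 g3; omega
  clear * - X g1 g2 g3 k1
  exact X.n3.xz (fin X.al.per 0 _ (pr X.bb X.al.per 0 (i - 2*a - 2*b + l + m + 2) (rfl : W (i + l + m + 2) = W (i + l + m + 2)) (by omega)) (by omega)).symm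

theorem T0_313 (X : C W N Q i a b l m c d L U V) (hb : B N Q i a b l m c d L U V)
    (h : 4*N + i + 2*a + 2*b + l + 4*c + 4*d + 2*V ≤ 3*m + 2*U + 3 ∧ 2*a + 2*b ≤ i + 2*l + 2*c + 2 ∧ 4*N + i + l + 4*c + 4*d + 2*V ≤ 2*m + 2*U + 2 ∧ m + U + 3 ≤ 2*N + a + b + c + 2*d + V ∧ 2*N + 2*a + 2*b + 2*d + 2*V ≤ i + l + m + U + 3) :
    False := by
  have b6 := hb.b6
  have b24 := hb.b24
  have b33 := hb.b33
  obtain ⟨g1, g2, g3, g4, g5⟩ := h
  have k1 : N + a + b + c + 2*d + V ≤ m + U + 1 := by clear * - b24 b33 g2 g3 g4; omega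
  clear * - X g1 g2 g3 g4 g5 b6 k1
  exact X.al.ubP (4*N + 2*a + 2*b - 2*m + 2*c + 4*d - 2*U + 2*V - 4) (by omega) (by omega) fun t h1 h2 => (fin X.al.per 0 _ (ar' X.t1 X.al.per 0 (4*N + 2*a + 2*b - 2*m + 2*c + 4*d - 2*U + 2*V + t - 4) (pr X.bb X.al.per 0 (2*i - 2*a - 2*b + 2*l + 2*c - t + 2) (af X.S2 X.al.per 0 (2*i + 2*l + 2*c - t + 2) (rfl : W (t) = W (t)) (by omega)) (by omega)) (by omega)) (by omega))

theorem T0_314 (X : C W N Q i a b l m c d L U V) (hb : B N Q i a b l m c d L U V)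
    (h : m + 1 ≤ 2*N + c + 3*d + V ∧ 2*N + c + 3*d + V ≤ m + 1 ∧ 2*m + L + 4 ≤ 4*N + 2*c + 4*d + 2*V) :
    False := by
  have b19 := hb.b19
  have b20 := hb.b20
  have b21 := hb.b21
  have b36 := hb.b36
  have b39 := hb.b39
  obtain ⟨g1, g2, g3⟩ := h
  have k1 : 2*N + 2*d ≤ i + l + m + 2 := by clear * - b36 g2 g3; omega
  have k2 : m + 2 ≤ 2*N + c + 2*d := by clear * - b19 b20 g1; omega
  have k3 : N + c + 2*d ≤ m := by clear * - b21 b36 b39 g2 g3; omega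
  have k4 : 2*m + L + U + 5 ≤ 4*N + 2*c + 2*d + 2*V := by clear * - b39 g2 g3; omega
  clear * - X g1 g2 g3 k1 k2 k3 k4
  exact absurd (X.lam.mx (max (i + l + m - 2*d - U + 2) (i + l + m + 3)) (4*N + i + l - m + 2*c + 2*d - U + 2*V - 1) (4*N - 2*m + 2*c + 4*d - 2) (by omega) (by omega) fun t h1 h2 => by (try simp only [max_le_iff, lt_min_iff] at h1 h2); exact (lt_or_ge t (min (i + l + m - 2*d + 2) (2*N))).elim (fun u0 => by (try simp only [lt_min_iff] at u0); exact (fin X.al.per 1 _ (pr X.f3 X.al.per 0 (2*N - 2*m + 2*c + 4*d + t - 2) (pf X.d2 X.al.per 0 (2*N - 2*m + 2*c + 2*d + t - 2) (rfl : W (t) = W (t)) (by omega)) (by omega)) (by omega))) (fun u0 => (fin X.al.per 1 _ (pf X.f1 X.al.per 1 (-2*N - 2*d - 2*V + t) (rfl : W (t) = W (t)) (by omega)) (by omega)))) (by omega)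

theorem T0_315 (X : C W N Q i a b l m c d L U V) (hb : B N Q i a b l m c d L U V)
    (h : 2*a + 2*b + m + 2 ≤ 2*N + 2*c ∧ 0 ≤ l + 2*d + 1 ∧ m + U + 4 ≤ 2*N + 2*c) :
    False := by
  have b1 := hb.b1
  have b4 := hb.b4
  have b8 := hb.b8
  have b17 := hb.b17
  have b19 := hb.b19
  have b20 := hb.b20
  obtain ⟨g1, g2, g3⟩ := h
  have k1 : 2*N + 2*c ≤ 2*a + 2*b + m + U + 1 := by clear * - b4 b17 b19 g2; omega
  have k2 : d + 1 ≤ 0 := by clear * - b17 b19 b20; omega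
  have k3 : 0 ≤ i + l + 2*d + 2 := by clear * - b1 g2; omega
  have k4 : m + U + 2 ≤ 2*N + 2*c + 2*V := by clear * - b17 g3; omega
  have k5 : 2*N + 2*c + d + V ≤ a + b + m + U + 2 := by clear * - b4 b8 b17 b19 g2; omega
  clear * - X g1 g2 g3 k1 k2 k3 k4 k5
  exact rr1b X.al.ninv (-d) (a + b) (2*N + i + l - m + 2*c + 2*d - U + V - 1) (i + l + 2*d + 2) (2*N + i + l - m + 2*c + 2*d - U - 1) (i + l + 1) (i + 2*a + 2*b + l + 1) (by omega) (ne' X.n2.yz X.al.per 0 0 (by omega))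
    (fun t h1 h2 => (fin X.al.per 0 _ (pf X.f3 X.al.per 0 (-2*d + t) (rfl : W (t) = W (t)) (by omega)) (by omega)))
    (fun t h1 h2 => (fin X.al.per 0 _ (pf X.bb X.al.per 0 (2*a + 2*b + t) (rfl : W (t) = W (t)) (by omega)) (by omega)))
    (fun t h1 h2 => (fin X.al.per 0 _ (af X.t1 X.al.per 0 (4*N + 2*i + 2*l - 2*m + 4*c + 4*d - 2*U + 2*V - t - 2) (rfl : W (t) = W (t)) (by omega)) (by omega)))

theorem T0_316 (X : C W N Q i a b l m c d L U V) (hb : B N Q i a b l m c d L U V)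
    (h : i + l + 3*m + 5 ≤ 4*N + 2*c + 2*d ∧ 4*N + Q + 2*c + 2*d ≤ i + 2*b + l + 3*m + 4 ∧ 2*b + 3*m + 4 ≤ 4*N + 2*c + 2*d ∧ a + 2*b + 2*m + 2 ≤ 3*N + 2*c + 2*d ∧ 3*N + 2*c + 2*d ≤ a + 2*b + 2*m + 2) :
    False := by
  have b1 := hb.b1
  have b2 := hb.b2
  have b3 := hb.b3
  have b17 := hb.b17
  have b19 := hb.b19
  have b28 := hb.b28
  have b39 := hb.b39
  obtain ⟨g1, g2, g3, g4, g5⟩ := h
  have k1 : N + c + d ≤ m := by clear * - b2 b17 b19 b28 b39 g2 g4; omega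
  have k2 : l + 3*m + 5 ≤ 4*N + 2*a + 2*c + 2*d := by clear * - b1 b2 g1; omega
  have k3 : 4*N + 2*c + 2*d ≤ 2*b + l + 3*m + 3 := by clear * - b2 b3 g2; omega
  clear * - X g1 g2 g3 g4 g5 k1 k2 k3
  exact X.n3.xz (fin X.al.per 0 _ (pf X.bb X.al.per 0 (-4*N + i + 2*a + 4*b + l + 3*m - 2*c - 2*d + 4) (pf X.a2 X.al.per 1 (-4*N + i + 2*b + l + 3*m - 2*c - 2*d + 4) (pr X.d2 X.al.per 0 (-2*N + i + l + 3*m - 2*c - 2*d + 4) (rfl : W (i + l + m + 2) = W (i + l + m + 2)) (by omega)) (by omega)) (by omega)) (by omega)).symm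

theorem T0_317 (X : C W N Q i a b l m c d L U V) (hb : B N Q i a b l m c d L U V)
    (h : l + 2*c + 2 ≤ 2*a ∧ Q ≤ i + 2*b + l + 2*c + 1 ∧ 2*b + m + 2 ≤ 2*N + 2*d ∧ 2*N + 4*d ≤ 2*b + m ∧ m + 1 ≤ N + a + 2*d ∧ N + a + 2*d ≤ m + 1) :
    False := by
  have b6 := hb.b6
  have b9 := hb.b9
  obtain ⟨g1, g2, g3, g4, g5, g6⟩ := h
  have k1 : i + 2*b + l + 2*m + 4 ≤ 4*N + 4*d := by clear * - b9 g5; omega
  clear * - X g1 g2 g3 g4 g5 g6 b6 k1
  exact X.n2.xz (fin X.al.per 0 _ (pr X.d2 X.al.per 0 (-2*N + i + 2*b + l + 2*m - 4*d + 3) (pf X.d1 X.al.per 0 (i + 2*b + l + 2*c - 2*d + 1) (pf X.a1 X.al.per 0 (i + 2*b + l + 2*c + 1) (rfl : W (i + l + 2*c + 1) = W (i + l + 2*c + 1)) (by omega)) (by omega)) (by omega)) (by omega)).symm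

theorem T0_318 (X : C W N Q i a b l m c d L U V) (hb : B N Q i a b l m c d L U V)
    (h : N + i + a + d + 1 ≤ Q ∧ N + l + 2*c + d ≤ a + m + U) :
    False := by
  have b8 := hb.b8
  have b14 := hb.b14
  have b29 := hb.b29
  have b33 := hb.b33
  obtain ⟨g1, g2⟩ := h
  have k1 : a + 1 ≤ N + d := by clear * - b8 b29 b33 g1; omega
  have k2 : a + m + 1 ≤ N + l + 2*c + d := by clear * - b14 g1; omega
  clear * - X g1 g2 k1 k2
  exact X.al.ninv (N + i + a + d) (fin X.al.per 0 _ (pr X.f3 X.al.per (-1) (N + i + a + d) (af X.s2 X.al.per 0 (-N + i + a - d) (rfl : W (N + i + a + d) = W (N + i + a + d)) (by omega)) (by omega)) (by omega))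

end Pool.Agent.MP_a38735_al.WL.E31
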