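import Pool.Agent.MP_a38735_al.E31t0
import Pool.Agent.MP_a38735_al.E31t1
import Pool.Agent.MP_a38735_al.E31t2

set_option autoImplicit false
set_option linter.unusedVariables false
set_option linter.unusedSimpArgs false

namespace Pool.Agent.MP_a38735_al.WL.E31

variable {G : Type*} [Group G]

variable {W : ℤ → G} {N Q i a b l m c d L U V Y : ℤ}

theorem M3 (X : C W N Q i a b l m c d L U V) (hb : B N Q i a b l m c d L U V)
    (h1 : (-N + m - c) < 0)
    (h2 : (i - b) < 0)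
    (h3 : (2*N + i + l - m + 2*c + 3*d - U + 2*V - 1) < 0)
    (h4 : (c - d - V - 1) < 0)
    (h5 : (N - i - l - c + d - 2) < 0)
    (h6 : (N - 2*a - b + c - 1) ≥ 0)
    (h156 : (-N + Q - i + b - c - 1) < 0)
    (h157 : (-Q + i - a - b + l + c - d - V + 1) ≥ 0)
    (h222 : (-a - b + m - c + d + V) < 0)
    (h223 : (-2*N + Q - i + 2*a + 2*b - l + m - 2*c + U) < 0)
    (h224 : (i + 2*a + 2*b + 2*d + 2*V) < 0)
    (h225 : (l - m + 2*c + L - U) < 0)
    (h226 : (-3*N + Q - i + a + b - l + m - 3*c - 2*d + U - V) < 0)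
    (h227 : (-2*a - b - d - V - 1) < 0)
    (h228 : (i - a - 2*b + l + c + 1) < 0)
    (h229 : (i + l - m - U - 1) < 0) : False := by
  have b1 := hb.b1
  have b3 := hb.b3
  have b11 := hb.b11
  have b18 := hb.b18
  have b19 := hb.b19
  have b24 := hb.b24
  have b27 := hb.b27
  have b28 := hb.b28
  have b29 := hb.b29
  have b32 := hb.b32
  have b33 := hb.b33
  have b36 := hb.b36
  have b38 := hb.b38
  have b39 := hb.b39
  rcases lt_or_ge (-a - 2*b + m - c) 0 with h230 | h230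
  · rcases lt_or_ge (-N - a - 2*b + 2*m - 2*c - d + 1) 0 with h231 | h231
    · rcases lt_or_ge (2*N + i + 2*a - 2*m + 2*c + 2*d - 2) 0 with h232 | h232
      · rcases lt_or_ge (a - V) 0 with h233 | h233
        · rcases lt_or_ge (-N + Q - i - c - d - V - 1) 0 with h234 | h234
          · rcases lt_or_ge (i + 2*a + l + 2*d + 1) 0 with h235 | h235
            · rcases lt_or_ge (2*c + U) 0 with h236 | h236
              · rcases lt_or_ge (-N + m - 2*c) 0 with h237 | h237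
                · exact T0_25 X hb ⟨by have := kA 3 h236 (kA 2 h233 (kA 3 h229 (kA 2 h222 (kA 2 h5 k0)))); clear * - this; omega, by have := kA 3 h237 (kA 1 h236 (kA 1 h234 (kA 1 h227 (kA 1 h224 (kA 2 h4 (kC 1 b36 (kC 1 b29 (kC 1 b19 k0)))))))); clear * - this; omega, by have := kA 8 h236 (kA 4 h231 (kA 9 h229 (kB 2 h6 (kA 8 h5 (kA 4 h4 (kA 2 h3 k0)))))); clear * - this; omega, by clear * - h5 h229 h236; omega, by have := kA 2 h237 (kA 2 h236 (kA 2 h234 (kA 1 h232 (kA 2 h227 (kA 2 h5 (kC 2 b19 k0)))))); clear * - this; omega⟩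
                exact T0_73 X hb ⟨by have := kA 2 h235 (kA 2 h233 (kA 6 h227 (kA 4 h226 (kA 6 h224 (kA 1 h223 (kA 8 h5 (kC 5 b38 (kC 5 b29 k0)))))))); clear * - this; omega, by have := kB 2 h237 (kA 1 h227 (kA 2 h222 (kB 1 h6 (kA 1 h4 k0)))); clear * - this; omega, by clear * - h237; omega, by clear * - b32 h223 h225; omega, by have := kA 1 h235 (kA 2 h227 (kA 1 h224 (kC 1 b33 (kC 1 b29 k0)))); clear * - this; omega⟩
              rcases lt_or_ge (c - d - V) 0 with h238 | h238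
              · rcases lt_or_ge (Q - i - l - m + U - 2) 0 with h239 | h239
                · exact T0_73 X hb ⟨by have := kA 2 h238 (kB 1 h236 (kA 2 h227 (kA 2 h224 (kB 2 h6 (kA 2 h5 (kC 1 b39 (kC 1 b29 k0))))))); clear * - this; omega, by have := kA 16 h238 (kA 1 h232 (kA 8 h231 (kA 10 h227 (kA 6 h225 (kA 5 h224 (kA 14 h5 (kA 8 h3 (kC 14 b39 (kC 8 b29 k0))))))))); clear * - this; omega, by clear * - b19 h238 h239; omega, by clear * - b32 h223 h225; omega, by have := kA 1 h235 (kA 2 h227 (kA 1 h224 (kC 1 b33 (kC 1 b29 k0)))); clear * - this; omega⟩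
                rcases lt_or_ge (Q - i - l - m - 2*d - 3) 0 with h240 | h240
                · exact T0_9 X hb ⟨by have := kA 1 h235 (kA 2 h227 (kA 1 h224 (kA 2 h5 (kC 1 b33 (kC 1 b29 k0))))); clear * - this; omega, by have := kA 2 h240 (kB 1 h239 (kA 4 h238 (kA 2 h235 (kA 2 h234 (kA 4 h227 (kA 2 h224 (kA 4 h5 (kC 3 b19 k0)))))))); clear * - this; omega⟩
                exact T0_103 X hb ⟨by clear * - h239; omega, by clear * - h240; omega, by have := kA 1 h232 (kA 2 h227 (kA 2 h225 (kA 1 h224 (kA 2 h5 (kC 2 b39 k0))))); clear * - this; omega, by have := kA 2 h238 (kA 1 h234 (kA 2 h231 (kA 1 h227 (kA 2 h224 (kA 1 h156 (kA 2 h5 (kC 1 b39 (kC 1 b38 (kC 2 b29 k0))))))))); clear * - this; omega⟩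
              rcases lt_or_ge (-2*N + i + 2*a + 2*b + l - 2*c + 1) 0 with h241 | h241
              · exact T0_33 X hb ⟨by have := kB 2 h236 (kA 1 h232 (kA 8 h231 (kA 10 h227 (kA 14 h225 (kA 13 h224 (kA 10 h5 (kA 8 h4 (kC 16 b39 (kC 2 b29 k0))))))))); clear * - this; omega, by have := kA 2 h241 (kB 1 h236 (kA 2 h5 (kA 4 h4 (kC 1 b39 (kC 1 b29 k0))))); clear * - this; omega, by have := kA 1 h232 (kA 8 h231 (kA 10 h227 (kA 10 h225 (kA 9 h224 (kA 14 h5 (kA 8 h4 (kC 14 b39 (kC 4 b29 k0)))))))); clear * - this; omega⟩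
              exact T0_145 X hb ⟨by clear * - h4; omega, by clear * - h238; omega, by have := kB 1 h236 (kA 1 h235 (kA 2 h227 (kA 2 h223 (kA 2 h4 (kC 2 b19 (kC 1 b18 k0)))))); clear * - this; omega, by have := kA 1 h235 (kA 2 h227 (kA 2 h224 (kA 2 h5 (kA 2 h4 (kC 1 b33 (kC 1 b24 (kC 1 b18 k0))))))); clear * - this; omega, by have := kB 2 h236 (kA 2 h235 (kA 4 h227 (kA 1 h225 (kA 3 h224 (kA 1 h223 (kA 2 h5 (kA 2 h4 (kC 1 b38 (kC 3 b18 k0))))))))); clear * - this; omega, by have := kA 2 h235 (kA 4 h227 (kA 1 h225 (kA 2 h224 (kA 1 h223 (kA 2 h5 (kC 1 b38 (kC 2 b18 k0))))))); clear * - this; omega, by clear * - h236; omega, by have := kB 4 h238 (kA 2 h235 (kA 4 h227 (kA 1 h225 (kA 1 h223 (kA 2 h5 (kC 1 b32 k0)))))); clear * - this; omega, by have := kB 7 h241 (kB 6 h238 (kA 1 h235 (kA 2 h229 (kA 6 h228 (kA 2 h226 (kA 8 h224 (kA 8 h156 k0))))))); clear * - this; omega, by clear * - h241; omega⟩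
            rcases lt_or_ge (-Q + 2*a + 2*b - 2*V) 0 with h242 | h242
            · rcases lt_or_ge (N - a - b + c + d + V - 1) 0 with h243 | h243
              · exact T0_9 X hb ⟨by have := kA 2 h243 (kA 2 h242 (kA 4 h234 (kA 1 h232 (kA 2 h231 (kA 4 h227 (kA 3 h224 (kA 2 h5 (kC 2 b39 (kC 2 b29 (kC 2 b19 k0)))))))))); clear * - this; omega, by have := kA 1 h243 (kA 1 h242 (kB 1 h235 (kA 2 h234 (kA 1 h232 (kA 1 h231 (kA 1 h227 (kA 1 h224 (kC 1 b19 k0)))))))); clear * - this; omega⟩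
              exact T0_33 X hb ⟨by have := kA 2 h242 (kB 3 h235 (kA 2 h234 (kA 1 h232 (kA 6 h230 (kA 2 h227 (kA 4 h225 (kA 5 h224 (kC 4 b39 k0)))))))); clear * - this; omega, by clear * - h243; omega, by have := kA 1 h242 (kB 2 h235 (kA 1 h232 (kA 1 h230 (kA 1 h228 (kA 1 h225 (kA 1 h223 (kA 2 h222 (kC 1 b39 k0)))))))); clear * - this; omega⟩
            rcases lt_or_ge (2*N + i - 2*a - 2*b + l - m + 2*c + 2*d + 2*V - 1) 0 with h244 | h244
            · exact T0_97 X hb ⟨by clear * - b29 b38 h223; omega, by have := kA 2 h233 (kA 2 h227 (kA 2 h224 (kC 1 b33 (kC 1 b24 k0)))); clear * - this; omega, by have := kB 2 h235 (kA 3 h234 (kA 7 h233 (kA 5 h229 (kA 3 h227 (kA 1 h226 (kA 4 h225 (kA 7 h224 (kA 10 h5 (kC 4 b38 k0))))))))); clear * - this; omega, by have := kA 1 h244 (kB 1 h235 (kA 1 h233 (kB 1 h6 (kA 1 h4 (kA 2 h1 k0))))); clear * - this; omega, by have := kA 1 h244 (kB 1 h235 (kA 1 h233 (kB 1 h6 (kA 1 h4 k0)))); clear * - this; omega⟩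
            rcases lt_or_ge (2*N + i - 2*b + l - m + 2*c + 2*d) 0 with h245 | h245
            · exact T0_97 X hb ⟨by clear * - b29 b38 h223; omega, by have := kA 1 h245 (kB 1 h244 (kA 2 h227 (kA 2 h224 (kC 1 b33 (kC 1 b24 k0))))); clear * - this; omega, by have := kA 6 h245 (kB 8 h244 (kB 4 h235 (kA 8 h234 (kA 1 h232 (kA 12 h229 (kA 6 h227 (kA 8 h225 (kA 15 h224 (kA 22 h5 (kC 8 b38 k0)))))))))); clear * - this; omega, by have := kA 1 h245 (kB 2 h244 (kB 2 h235 (kA 4 h230 (kA 2 h227 (kA 3 h225 (kA 3 h224 (kC 3 b39 k0))))))); clear * - this; omega, by have := kA 2 h245 (kB 2 h235 (kA 1 h223 (kC 1 b38 (kC 1 b29 k0)))); clear * - this; omega⟩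
            exact T0_135 X hb ⟨by clear * - h242; omega, by clear * - h245; omega, by have := kB 4 h245 (kA 5 h232 (kA 2 h231 (kA 4 h227 (kA 4 h225 (kA 3 h224 (kA 6 h222 (kC 4 b39 k0))))))); clear * - this; omega, by clear * - h235; omega, by clear * - h233; omega⟩
          rcases lt_or_ge (N - 2*a + c + d + V - 1) 0 with h246 | h246
          · rcases lt_or_ge (i + 2*a + l + 2*d + 1) 0 with h247 | h247
            · exact T0_73 X hb ⟨by have := kA 1 h247 (kA 1 h246 (kB 12 h234 (kA 8 h229 (kA 16 h226 (kA 4 h225 (kA 5 h224 (kA 14 h5 (kA 7 h4 (kC 4 b38 k0))))))))); clear * - this; omega, by have := kB 1 h234 (kA 1 h230 (kA 1 h227 (kA 1 h225 (kB 1 h157 (kA 1 h4 (kC 1 b39 k0)))))); clear * - this; omega, by have := kA 1 h247 (kA 1 h246 (kA 1 h4 (kC 1 b36 (kC 1 b29 k0)))); clear * - this; omega, by clear * - h4 h6 h246; omega, by have := kA 1 h247 (kA 2 h227 (kA 1 h224 (kC 1 b33 (kC 1 b29 k0)))); clear * - this; omega⟩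
            rcases lt_or_ge (2*N + i - 2*a - 2*b + l - m + 2*c + 2*d + 2*V - 1) 0 with h248 | h248
            · rcases lt_or_ge (-N + Q - i + a + b - l - 2*c - d - 2) 0 with h249 | h249
              · exact T0_97 X hb ⟨by have := kA 1 h249 (kB 2 h234 (kA 1 h226 (kA 1 h225 (kA 1 h4 (kC 1 b33 k0))))); clear * - this; omega, by have := kA 2 h233 (kA 2 h227 (kA 2 h224 (kC 1 b33 (kC 1 b24 k0)))); clear * - this; omega, by have := kA 3 h249 (kB 2 h247 (kA 6 h246 (kA 16 h233 (kA 11 h229 (kA 4 h226 (kA 7 h225 (kA 7 h224 (kA 16 h5 (kC 7 b38 k0))))))))); clear * - this; omega, by have := kA 1 h248 (kB 5 h247 (kA 8 h246 (kA 9 h233 (kA 2 h231 (kA 4 h228 (kB 11 h6 (kA 1 h4 k0))))))); clear * - this; omega, by have := kA 1 h248 (kB 1 h247 (kA 1 h233 (kB 1 h6 (kA 1 h4 k0)))); clear * - this; omega⟩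
              exact T0_44 X hb ⟨by clear * - b29 b38 h223; omega, by clear * - h249; omega, by have := kA 1 h248 (kB 1 h247 (kA 1 h233 (kB 1 h6 (kA 1 h4 k0)))); clear * - this; omega, by have := kB 6 h249 (kA 5 h229 (kA 6 h226 (kA 1 h225 (kA 3 h224 (kA 8 h5 (kC 2 b33 (kC 1 b29 k0))))))); clear * - this; omega, by have := kA 3 h229 (kA 1 h225 (kA 1 h224 (kA 1 h223 (kA 4 h5 (kA 2 h4 (kC 1 b38 k0)))))); clear * - this; omega⟩
            rcases lt_or_ge (2*N + i - 2*b + l - m + 2*c + 2*d) 0 with h250 | h250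
            · rcases lt_or_ge (-N + Q - i + a + b - l - 2*c - d - 2) 0 with h251 | h251
              · exact T0_97 X hb ⟨by have := kA 1 h251 (kB 2 h234 (kA 1 h226 (kA 1 h225 (kA 1 h4 (kC 1 b33 k0))))); clear * - this; omega, by have := kA 1 h250 (kB 1 h248 (kA 2 h227 (kA 2 h224 (kC 1 b33 (kC 1 b24 k0))))); clear * - this; omega, by have := kA 3 h251 (kA 8 h250 (kB 8 h248 (kB 2 h247 (kA 6 h246 (kA 11 h229 (kA 4 h226 (kA 7 h225 (kA 7 h224 (kA 16 h5 (kC 7 b38 k0)))))))))); clear * - this; omega, by have := kA 9 h250 (kB 7 h248 (kB 10 h247 (kA 16 h246 (kA 4 h231 (kA 8 h228 (kB 22 h6 (kA 2 h4 k0))))))); clear * - this; omega, by have := kA 1 h251 (kA 2 h250 (kB 2 h247 (kB 2 h234 (kA 1 h226 (kA 1 h225 (kA 1 h4 (kC 1 b33 k0))))))); clear * - this; omega⟩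
              exact T0_44 X hb ⟨by clear * - b29 b38 h223; omega, by clear * - h251; omega, by have := kA 2 h250 (kB 2 h247 (kA 1 h223 (kC 1 b38 (kC 1 b29 k0)))); clear * - this; omega, by have := kB 6 h251 (kA 5 h229 (kA 6 h226 (kA 1 h225 (kA 3 h224 (kA 8 h5 (kC 2 b33 (kC 1 b29 k0))))))); clear * - this; omega, by have := kA 3 h229 (kA 1 h225 (kA 1 h224 (kA 1 h223 (kA 4 h5 (kA 2 h4 (kC 1 b38 k0)))))); clear * - this; omega⟩
            exact T0_135 X hb ⟨by have := kA 2 h246 (kA 1 h232 (kA 2 h231 (kA 2 h228 (kA 1 h224 (kA 2 h156 (kC 2 b36 (kC 2 b29 k0))))))); clear * - this; omega, by clear * - h250; omega, by have := kB 1 h250 (kB 2 h234 (kA 1 h232 (kA 1 h230 (kA 1 h228 (kA 2 h156 k0))))); clear * - this; omega, by clear * - h247; omega, by clear * - h233; omega⟩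
          rcases lt_or_ge (-N - Q + i + 2*a + 2*b - c - d - V) 0 with h252 | h252
          · rcases lt_or_ge (-2*N + i + l + m - 4*d - U + 1) 0 with h253 | h253
            · rcases lt_or_ge (Q - i - l - m - 2*d - 3) 0 with h254 | h254
              · exact T0_104 X hb ⟨by have := kA 1 h253 (kA 1 h252 (kB 1 h234 (kA 2 h227 (kA 2 h225 (kA 1 h224 (kA 1 h223 (kA 2 h5 (kC 2 b39 k0)))))))); clear * - this; omega, by have := kA 1 h254 (kA 2 h253 (kB 2 h234 (kA 2 h233 (kA 2 h223 (kA 2 h156 (kA 2 h5 k0)))))); clear * - this; omega, by clear * - h5 h228; omega⟩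
              exact T0_103 X hb ⟨by have := kB 4 h254 (kA 4 h253 (kA 1 h232 (kA 2 h227 (kA 2 h225 (kA 1 h224 (kA 6 h5 (kC 2 b39 k0))))))); clear * - this; omega, by clear * - h254; omega, by have := kA 1 h232 (kA 2 h227 (kA 2 h225 (kA 1 h224 (kA 2 h5 (kC 2 b39 k0))))); clear * - this; omega, by have := kA 4 h253 (kB 4 h234 (kA 1 h231 (kA 2 h229 (kA 3 h228 (kA 4 h227 (kA 4 h225 (kA 6 h223 (kA 9 h5 (kC 4 b39 k0))))))))); clear * - this; omega⟩
            exact T0_94 X hb ⟨by have := kB 17 h253 (kA 1 h252 (kB 12 h246 (kB 49 h234 (kA 8 h231 (kA 5 h229 (kA 18 h228 (kA 50 h156 (kA 24 h4 (kA 12 h3 k0))))))))); clear * - this; omega, by have := kA 1 h252 (kA 2 h231 (kA 1 h227 (kA 1 h225 (kA 1 h224 (kA 1 h156 (kA 2 h4 (kC 1 b39 (kC 1 b36 (kC 1 b29 k0))))))))); clear * - this; omega, by have := kB 1 h234 (kA 1 h228 (kB 1 h157 (kA 1 h156 k0))); clear * - this; omega, by have := kA 1 h232 (kA 2 h227 (kA 2 h225 (kA 1 h224 (kA 6 h5 (kC 2 b39 k0)))));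 clear * - this; omega, by clear * - h253; omega⟩
          exact T0_139 X hb ⟨by clear * - h252; omega, by have := kB 1 h246 (kB 3 h234 (kA 1 h233 (kA 1 h227 (kA 1 h226 (kA 2 h156 k0))))); clear * - this; omega, by clear * - b24 b33 h4; omega, by clear * - h234; omega, by clear * - h246; omega⟩
        rcases lt_or_ge (-a + V) 0 with h255 | h255
        · rcases lt_or_ge (-a - b - d - 2*V - 1) 0 with h256 | h256
          · rcases lt_or_ge (N - i - l - 2) 0 with h257 | h257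
            · rcases lt_or_ge (-2*N - a - b + m - c - 2*d + U - V + 1) 0 with h258 | h258
              · rcases lt_or_ge (-N + a + b + m - 2*c + d) 0 with h259 | h259
                · rcases lt_or_ge (-4*N + i + 2*a + 2*b + 2*m - 2*c - 4*d + 2) 0 with h260 | h260
                  · rcases lt_or_ge (l + 2*d + 1) 0 with h261 | h261
                    · rcases lt_or_ge (N - a + c + d - 1) 0 with h262 | h262
                      · rcases lt_or_ge (N - b - m + c - V - 2) 0 with h263 | h263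
                        · rcases lt_or_ge (2*a + b - l - c + V - 2) 0 with h264 | h264
                          · exact T0_101 X hb ⟨by have := kA 2 h263 (kA 2 h261 (kA 2 h260 (kA 2 h257 (kA 2 h256 (kA 2 h255 (kC 1 b19 k0)))))); clear * - this; omega, by have := kA 1 h264 (kA 3 h263 (kA 2 h262 (kA 1 h261 (kA 1 h260 (kA 2 h259 (kA 2 h258 (kA 1 h257 (kA 2 h255 (kA 1 h225 (kC 1 b38 k0)))))))))); clear * - this; omega, by have := kA 5 h264 (kA 29 h263 (kA 11 h262 (kA 17 h261 (kA 12 h260 (kA 3 h259 (kA 12 h257 (kA 25 h255 (kA 2 h231 (kA 1 h229 (kA 1 h226 k0)))))))))); clear * - this; omega, by have := kA 1 h264 (kA 1 h263 (kA 1 h262 (kA 1 h261 (kA 1 h255 k0)))); clear * - this; omega⟩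
                          exact T0_284 X hb ⟨by clear * - h264; omega, by have := kB 10 h264 (kA 14 h263 (kA 12 h261 (kA 11 h260 (kA 6 h259 (kA 24 h257 (kA 28 h255 (kA 11 h232 (kA 4 h231 (kA 2 h229 (kA 2 h226 k0)))))))))); clear * - this; omega, by have := kB 6 h264 (kA 6 h263 (kA 4 h261 (kA 5 h260 (kA 6 h259 (kA 2 h258 (kA 10 h257 (kA 12 h255 (kA 5 h232 k0)))))))); clear * - this; omega, by have := kA 3 h263 (kA 1 h261 (kA 1 h260 (kA 1 h257 (kA 2 h255 k0)))); clear * - this; omega, by have := kB 1 h264 (kA 2 h263 (kA 1 h261 (kA 1 h260 (kA 2 h259 (kA 2 h257 (kA 4 h255 (kA 1 h232 k0))))))); clear * - this; omega, by have := kA 2 h262 (kA 2 h261 (kA 1 h260 (kA 4 h257 (kA 2 h255 (kA 1 h232 (kA 2 h229 k0)))))); clear * - this; omega⟩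
                        exact T0_106 X hb ⟨by clear * - h263; omega, by have := kA 2 h257 (kA 1 h229 (kA 2 h228 (kA 1 h223 k0))); clear * - this; omega, by have := kA 2 h261 (kA 2 h258 (kA 4 h257 (kA 2 h255 (kA 1 h232 (kA 2 h229 (kA 2 h4 k0)))))); clear * - this; omega⟩
                      exact T0_137 X hb ⟨by have := kA 2 h261 (kA 1 h260 (kA 1 h258 (kA 3 h257 (kA 1 h256 (kA 3 h255 (kA 1 h232 k0)))))); clear * - this; omega, by have := kA 1 h261 (kA 1 h257 (kA 1 h255 (kA 1 h229 (kA 1 h4 k0)))); clear * - this; omega, by have := kA 2 h261 (kA 1 h260 (kA 4 h257 (kA 1 h256 (kA 3 h255 (kA 1 h232 (kA 2 h228 (kA 1 h226 k0))))))); clear * - this; omega, by have := kB 3 h262 (kA 1 h261 (kA 2 h259 (kA 2 h258 (kA 1 h257 (kA 3 h255 (kA 1 h232 (kA 5 h4 k0))))))); clear * - this; omega, by have := kA 1 h261 (kA 1 h257 (kA 1 h255 (kA 1 h229 (kA 1 h224 (kA 1 h4 k0))))); clear * - this; omega, by clear * - h262; omega⟩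
                    exact T0_315 X hb ⟨by have := kA 1 h259 (kA 1 h255 (kB 1 h6 (kA 1 h4 k0))); clear * - this; omega, by clear * - h261; omega, by have := kA 4 h259 (kA 4 h258 (kA 2 h257 (kA 4 h255 (kA 2 h232 (kA 1 h225 (kC 1 b33 k0)))))); clear * - this; omega⟩
                  rcases lt_or_ge (2*N - b - m + c + 2*d - 2) 0 with h265 | h265
                  · exact T0_48 X hb ⟨by have := kA 2 h259 (kA 2 h258 (kA 2 h257 (kA 1 h229 (kA 1 h224 (kA 2 h4 (kC 1 b19 k0)))))); clear * - this; omega, by have := kA 1 h265 (kA 2 h259 (kA 1 h258 (kA 1 h255 (kA 2 h4 (kC 1 b19 k0))))); clear * - this; omega, by have := kA 2 h265 (kA 1 h258 (kA 1 h257 (kA 3 h255 (kA 1 h229 (kB 1 h6 (kA 2 h4 k0)))))); clear * - this; omega, by have := kA 5 h265 (kA 4 h259 (kA 1 h257 (kA 13 h255 (kA 2 h231 (kA 1 h229 (kA 1 h226 (kB 6 h6 (kA 12 h4 k0)))))))); clear * - this; omega⟩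
                  exact T0_25 X hb ⟨by have := kB 1 h265 (kB 1 h260 (kA 2 h259 (kA 1 h257 (kA 2 h255 (kA 1 h232 (kA 2 h228 (kB 1 h6 (kA 2 h4 k0)))))))); clear * - this; omega, by clear * - h265; omega, by have := kB 2 h260 (kA 1 h258 (kA 1 h257 (kA 3 h255 (kA 2 h231 (kA 2 h229 (kA 2 h224 (kB 3 h6 (kA 6 h4 k0)))))))); clear * - this; omega, by have := kB 3 h265 (kB 2 h260 (kA 2 h259 (kA 1 h258 (kA 4 h257 (kA 1 h255 (kA 2 h232 (kA 1 h229 k0))))))); clear * - this; omega, by clear * - h260; omega⟩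
                exact T0_97 X hb ⟨by clear * - h4 h6 h255; omega, by have := kA 2 h256 (kA 2 h224 (kC 1 b33 (kC 1 b24 k0))); clear * - this; omega, by have := kA 1 h257 (kA 1 h256 (kA 2 h229 (kA 1 h225 (kA 1 h224 (kA 1 h223 (kA 2 h5 (kC 1 b38 k0))))))); clear * - this; omega, by have := kA 1 h258 (kA 1 h257 (kA 1 h256 (kA 2 h255 (kA 1 h222 (kB 2 h6 (kA 2 h4 (kA 1 h3 k0))))))); clear * - this; omega, by clear * - h259; omega⟩
              rcases lt_or_ge (-a - b + l + c - V) 0 with h266 | h266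
              · rcases lt_or_ge (-i - 4*a - 2*b + l + m + 1) 0 with h267 | h267
                · exact T0_25 X hb ⟨by have := kA 1 h267 (kA 2 h266 (kA 4 h257 (kA 4 h256 (kA 4 h255 (kA 1 h232 (kA 2 h228 (kA 3 h224 (kB 4 h6 k0)))))))); clear * - this; omega, by have := kA 1 h267 (kA 1 h257 (kA 1 h255 (kA 1 h229 (kA 1 h226 (kA 1 h224 (kA 2 h4 (kC 1 b3 k0))))))); clear * - this; omega, by have := kA 1 h266 (kB 1 h258 (kA 2 h257 (kA 2 h256 (kA 2 h255 (kA 2 h228 (kA 1 h224 (kB 2 h6 k0))))))); clear * - this; omega, by have := kA 1 h267 (kA 2 h257 (kA 2 h256 (kA 2 h255 (kA 1 h232 (kA 1 h224 (kB 2 h6 k0)))))); clear * - this; omega, by have := kA 2 h267 (kA 2 h257 (kA 2 h256 (kA 2 h255 (kA 2 h232 (kA 1 h224 (kB 2 h6 k0)))))); clear * - this; omega⟩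
                exact T0_214 X hb ⟨by clear * - h267; omega, by have := kB 6 h267 (kA 15 h266 (kA 11 h257 (kA 10 h256 (kA 23 h255 (kA 1 h232 (kA 4 h231 (kA 6 h224 (kB 9 h6 k0)))))))); clear * - this; omega, by clear * - h255 h266; omega, by have := kB 1 h258 (kA 1 h257 (kA 1 h226 (kC 1 b3 k0))); clear * - this; omega⟩
              rcases lt_or_ge (2*N - a - b - m + c - U + V - 3) 0 with h268 | h268
              · exact T0_97 X hb ⟨by clear * - h4 h6 h255; omega, by have := kA 2 h256 (kA 2 h224 (kC 1 b33 (kC 1 b24 k0))); clear * - this; omega, by have := kB 1 h258 (kA 1 h256 (kA 1 h255 (kB 1 h6 k0))); clear * - this; omega, by have := kA 2 h255 (kA 1 h228 (kB 1 h6 (kA 1 h5 (kA 2 h4 (kA 1 h1 k0))))); clear * - this; omega, by have := kA 2 h268 (kA 2 h4 (kC 1 b39 (kC 1 b28 k0))); clear * - this; omega⟩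
              rcases lt_or_ge (a + b + m - c + 2*d + V) 0 with h269 | h269
              · exact T0_106 X hb ⟨by have := kA 2 h269 (kB 1 h266 (kA 1 h256 (kA 2 h255 (kA 1 h4 (kC 1 b33 (kC 1 b29 k0)))))); clear * - this; omega, by have := kB 1 h258 (kA 1 h257 (kA 2 h228 (kA 1 h226 k0))); clear * - this; omega, by have := kA 4 h269 (kA 4 h257 (kA 6 h256 (kA 6 h255 (kA 3 h232 (kC 4 b33 (kC 4 b29 k0)))))); clear * - this; omega⟩
              rcases lt_or_ge (-a - b + c - 2*d - V - 1) 0 with h270 | h270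
              · exact T0_97 X hb ⟨by have := kA 2 h270 (kB 1 h268 (kB 1 h258 (kA 2 h255 (kB 2 h6 k0)))); clear * - this; omega, by have := kA 2 h256 (kA 2 h224 (kC 1 b33 (kC 1 b24 k0))); clear * - this; omega, by have := kB 1 h268 (kB 1 h258 (kA 2 h257 (kA 2 h229 k0))); clear * - this; omega, by have := kA 4 h270 (kB 2 h269 (kB 5 h268 (kB 5 h258 (kA 6 h255 (kA 4 h230 (kB 2 h6 k0)))))); clear * - this; omega, by have := kA 4 h270 (kA 2 h257 (kA 4 h255 (kA 2 h232 (kC 1 b33 (kC 1 b24 k0))))); clear * - this; omega⟩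
              exact T0_283 X hb ⟨by clear * - h266; omega, by clear * - h268; omega, by clear * - h269; omega, by clear * - h270; omega, by clear * - h258; omega, by have := kB 3 h269 (kB 3 h268 (kB 3 h258 (kA 2 h255 (kA 2 h231 k0)))); clear * - this; omega⟩
            exact T0_73 X hb ⟨by have := kB 1 h257 (kA 2 h256 (kA 2 h226 (kA 3 h224 (kA 4 h5 (kC 2 b38 (kC 2 b29 k0)))))); clear * - this; omega, by have := kB 20 h257 (kA 32 h255 (kA 7 h232 (kA 12 h231 (kA 10 h225 (kA 3 h224 (kB 6 h6 (kA 30 h5 (kA 38 h4 (kC 10 b39 k0))))))))); clear * - this; omega, by have := kA 2 h255 (kA 1 h232 (kA 2 h4 (kC 1 b1 k0))); clear * - this; omega, by clear * - b32 h223 h225; omega, by clear * - h257; omega⟩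
          rcases lt_or_ge (2*N + i + a + b + l - m + 2*c + 3*d - U + 2*V - 1) 0 with h271 | h271
          · exact T0_110 X hb ⟨by have := kB 1 h256 (kA 2 h227 (kA 1 h223 (kC 1 b3 k0))); clear * - this; omega, by clear * - h256; omega, by have := kA 1 h271 (kA 2 h227 (kC 1 b3 (kC 1 b1 k0))); clear * - this; omega⟩
          exact T0_93 X hb ⟨by clear * - h224 h271; omega, by have := kB 3 h271 (kB 1 h256 (kA 1 h229 (kA 2 h5 (kA 4 h4 (kA 4 h3 k0))))); clear * - this; omega, by clear * - h271; omega, by clear * - h256; omega⟩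
        exact T0_91 X hb ⟨by clear * - h233; omega, by clear * - h255; omega, by have := kB 2 h233 (kA 1 h232 (kA 1 h231 (kA 1 h230 (kA 1 h156 (kB 1 h6 (kA 1 h5 (kA 2 h4 k0))))))); clear * - this; omega, by have := kB 2 h233 (kA 2 h232 (kA 1 h231 (kA 3 h230 (kA 1 h225 (kA 1 h224 (kA 2 h156 (kA 3 h5 (kA 4 h4 (kC 1 b39 k0))))))))); clear * - this; omega, by have := kB 1 h255 (kA 1 h227 (kA 2 h224 (kA 2 h5 (kA 2 h4 (kC 1 b33 (kC 1 b24 k0)))))); clear * - this; omega, by have := kB 2 h233 (kA 4 h227 (kA 3 h225 (kA 2 h224 (kA 2 h5 (kA 2 h4 (kC 1 b33 (kC 1 b24 k0))))))); clear * - this; omega, by have := kA 2 h227 (kA 1 h224 (kA 1 h223 (kC 1 b27 (kC 1 b18 k0)))); clear * - this; omega⟩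
      exact T0_218 X hb ⟨by clear * - b11 h5 h231; omega, by have := kA 1 h231 (kA 2 h229 (kA 3 h228 (kA 2 h224 (kA 5 h5 (kA 4 h4 (kC 2 b39 (kC 2 b29 k0))))))); clear * - this; omega, by have := kB 2 h232 (kA 1 h229 (kA 2 h224 (kA 2 h5 (kA 4 h4 (kC 1 b18 k0))))); clear * - this; omega, by clear * - h232; omega, by clear * - b11 h5; omega⟩
    rcases lt_or_ge (-N - Q + i - a + l + m - d + 2) 0 with h272 | h272
    · exact T0_43 X hb ⟨by have := kA 2 h272 (kA 1 h230 (kA 1 h226 (kA 1 h225 (kA 1 h224 (kA 1 h5 (kA 1 h4 (kA 1 h2 (kC 1 b36 k0)))))))); clear * - this; omega, by clear * - h230 h231 h272; omega, by have := kA 3 h272 (kB 1 h231 (kA 8 h230 (kA 4 h227 (kA 2 h226 (kA 5 h225 (kA 5 h224 (kA 3 h223 (kA 4 h4 (kC 5 b36 k0))))))))); clear * - this; omega, by clear * - h230 h231; omega⟩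
    rcases lt_or_ge (N + 3*a + 2*b - l - m + d - 3) 0 with h273 | h273
    · exact T0_9 X hb ⟨by have := kA 2 h273 (kA 2 h227 (kA 2 h222 (kC 1 b33 (kC 1 b24 k0)))); clear * - this; omega, by have := kA 1 h273 (kA 1 h230 (kA 1 h227 (kA 1 h156 (kA 1 h4 (kC 1 b19 k0))))); clear * - this; omega⟩
    exact T0_133 X hb ⟨by clear * - h272; omega, by clear * - h273; omega, by have := kB 11 h273 (kA 1 h230 (kA 2 h227 (kA 4 h226 (kA 11 h224 (kA 11 h5 (kA 16 h4 (kC 4 b38 (kC 4 b29 k0)))))))); clear * - this; omega, by clear * - h230 h231; omega, by clear * - h231; omega, by clear * - b18 h229 h230; omega⟩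
  rcases lt_or_ge (-Q + i - a + l + c + 1) 0 with h274 | h274
  · rcases lt_or_ge (-N + m - 2*c) 0 with h275 | h275
    · rcases lt_or_ge (-2*N - Q + i + 2*a + 2*b + l + 2*m - 2*c + 3) 0 with h276 | h276
      · rcases lt_or_ge (2*N - Q + i - 2*a - 2*b + l - m + 4*c) 0 with h277 | h277
        · exact T0_20 X hb ⟨by have := kA 1 h277 (kA 1 h275 (kA 1 h228 (kB 1 h157 (kB 1 h6 (kA 1 h4 k0))))); clear * - this; omega, by clear * - h230 h275; omega, by have := kA 5 h277 (kA 4 h276 (kA 5 h228 (kA 5 h227 (kA 2 h226 (kA 2 h225 (kB 7 h157 (kA 4 h5 (kC 3 b36 (kC 1 b29 k0))))))))); clear * - this; omega⟩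
        exact T0_160 X hb ⟨by have := kA 1 h276 (kB 2 h230 (kA 2 h228 (kA 2 h5 k0))); clear * - this; omega, by have := kB 1 h230 (kA 1 h228 (kA 2 h222 (kA 2 h4 (kC 1 b36 (kC 1 b29 k0))))); clear * - this; omega, by clear * - h277; omega⟩
      rcases lt_or_ge (-4*N + Q - i + 2*a + 2*b - l + 3*m - 4*c - 2*d + U + 2) 0 with h278 | h278
      · exact T0_103 X hb ⟨by clear * - b19 h4 h275; omega, by have := kA 2 h278 (kA 2 h275 (kA 5 h274 (kB 3 h230 (kA 6 h228 (kB 2 h6 (kA 8 h5 (kA 4 h4 (kA 2 h3 k0)))))))); clear * - this; omega, by clear * - h5 h228 h230; omega, by have := kA 2 h278 (kA 1 h274 (kA 1 h227 (kA 2 h225 (kA 1 h222 (kA 2 h2 (kC 2 b36 k0)))))); clear * - this; omega⟩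
      exact T0_168 X hb ⟨by clear * - h278; omega, by have := kA 1 h274 (kB 1 h230 (kA 2 h228 (kA 2 h5 k0))); clear * - this; omega, by clear * - h276; omega, by have := kA 2 h275 (kA 1 h223 (kA 2 h4 (kC 1 b19 k0))); clear * - this; omega⟩
    exact T0_73 X hb ⟨by have := kA 1 h274 (kA 1 h229 (kA 1 h228 (kA 2 h226 (kA 2 h224 (kA 4 h5 (kA 2 h4 (kC 1 b38 (kC 1 b29 k0)))))))); clear * - this; omega, by have := kB 2 h275 (kA 1 h227 (kA 2 h222 (kB 1 h6 (kA 1 h4 k0)))); clear * - this; omega, by clear * - h275; omega, by have := kB 1 h230 (kA 1 h222 (kB 1 h6 (kA 1 h4 k0))); clear * - this; omega, by have := kA 1 h274 (kA 1 h229 (kA 1 h228 (kA 1 h223 k0))); clear * - this; omega⟩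
  exact T0_59 X hb ⟨by clear * - h274; omega, by have := kA 1 h227 (kA 1 h225 (kA 1 h222 (kC 1 b39 k0))); clear * - this; omega, by clear * - h230; omega, by have := kA 1 h229 (kA 2 h228 (kA 2 h5 (kC 1 b18 k0))); clear * - this; omega⟩

theorem M4 (X : C W N Q i a b l m c d L U V) (hb : B N Q i a b l m c d L U V)
    (h1 : (-N + m - c) < 0)
    (h2 : (i - b) < 0)
    (h3 : (2*N + i + l - m + 2*c + 3*d - U + 2*V - 1) < 0)
    (h4 : (c - d - V - 1) < 0)
    (h5 : (N - i - l - c + d - 2) < 0)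
    (h6 : (N - 2*a - b + c - 1) ≥ 0)
    (h156 : (-N + Q - i + b - c - 1) < 0)
    (h157 : (-Q + i - a - b + l + c - d - V + 1) ≥ 0)
    (h222 : (-a - b + m - c + d + V) < 0)
    (h223 : (-2*N + Q - i + 2*a + 2*b - l + m - 2*c + U) < 0)
    (h224 : (i + 2*a + 2*b + 2*d + 2*V) < 0)
    (c0x : (-N + m - c) < 0 → (i - b) < 0 → (2*N + i + l - m + 2*c + 3*d - U + 2*V - 1) < 0 → (c - d - V - 1) < 0 → (N - i - l - c + d - 2) < 0 → (N - 2*a - b + c - 1) ≥ 0 → (-N + Q - i + b - c - 1) < 0 → (-Q + i - a - b + l + c - d - V + 1) ≥ 0 → (-a - b + m - c + d + V) < 0 → (-2*N + Q - i + 2*a + 2*b - l + m - 2*c + U) < 0 → (i + 2*a + 2*b + 2*d + 2*V) < 0 → (l - m + 2*c + L - U) < 0 → (-3*N + Q - i + a + b - l + m - 3*c - 2*d + U - V) < 0 → (-2*a - b - d - V - 1) ≥ 0 → False) : False := by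
  have b1 := hb.b1
  have b2 := hb.b2
  have b3 := hb.b3
  have b6 := hb.b6
  have b11 := hb.b11
  have b17 := hb.b17
  have b18 := hb.b18
  have b19 := hb.b19
  have b24 := hb.b24
  have b28 := hb.b28
  have b29 := hb.b29
  have b33 := hb.b33
  have b36 := hb.b36
  have b38 := hb.b38
  have b39 := hb.b39
  rcases lt_or_ge (l - m + 2*c + L - U) 0 with h225 | h225
  · rcases lt_or_ge (-3*N + Q - i + a + b - l + m - 3*c - 2*d + U - V) 0 with h226 | h226
    · rcases lt_or_ge (-2*a - b - d - V - 1) 0 with h227 | h227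
      · rcases lt_or_ge (i - a - 2*b + l + c + 1) 0 with h228 | h228
        · rcases lt_or_ge (i + l - m - U - 1) 0 with h229 | h229
          · exact M3 X hb h1 h2 h3 h4 h5 h6 h156 h157 h222 h223 h224 h225 h226 h227 h228 h229
          rcases lt_or_ge (-i - 2*a - 2*b - l - 2*c - 2*d - 2*V - 2) 0 with h279 | h279
          · rcases lt_or_ge (-a - 2*b + m - c) 0 with h280 | h280
            · rcases lt_or_ge (-N - a - 2*b + 2*m - 2*c - d + 1) 0 with h281 | h281
              · rcases lt_or_ge (N - b - m + c - V - 2) 0 with h282 | h282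
                · rcases lt_or_ge (2*N - b - m + c + 2*d - 2) 0 with h283 | h283
                  · rcases lt_or_ge (c - d - V) 0 with h284 | h284
                    · rcases lt_or_ge (2*N - b - m + c + 2*d - 1) 0 with h285 | h285
                      · rcases lt_or_ge (2*N + Q - i - 2*b - l - m + 2*d + U - 2) 0 with h286 | h286
                        · rcases lt_or_ge (N - i - a - b - l - d - 2) 0 with h287 | h287
                          · exact T0_93 X hb ⟨by have := kA 2 h279 (kB 3 h229 (kA 4 h227 (kA 2 h226 (kA 1 h225 (kA 5 h224 (kC 2 b33 (kC 1 b29 (kC 2 b3 k0)))))))); clear * - this; omega, by have := kA 1 h287 (kA 1 h284 (kB 1 h229 (kA 3 h227 (kB 3 h6 (kA 2 h3 k0))))); clear * - this; omega, by have := kA 2 h279 (kB 3 h229 (kA 4 h227 (kA 2 h226 (kA 1 h225 (kA 1 h224 (kC 2 b33 (kC 1 b29 (kC 2 b3 k0)))))))); clear * - this; omega, by have := kA 2 h287 (kA 2 h224 (kC 1 b33 (kC 1 b24 k0))); clear * - this; omega⟩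
                          rcases lt_or_ge (-N - a - b + m - d + U + 1) 0 with h288 | h288
                          · rcases lt_or_ge (-a - b - d - 2*V - 1) 0 with h289 | h289
                            · exact T0_73 X hb ⟨by have := kA 1 h288 (kB 1 h287 (kA 4 h279 (kB 1 h229 (kA 2 h225 (kA 4 h224 (kA 2 h223 (kC 2 b38 k0))))))); clear * - this; omega, by have := kA 1 h289 (kA 1 h288 (kA 1 h286 (kA 1 h279 (kB 2 h229 (kA 2 h227 (kA 2 h226 (kA 3 h225 (kA 3 h224 (kA 2 h222 (kC 3 b38 k0)))))))))); clear * - this; omega, by have := kA 2 h288 (kA 3 h286 (kA 2 h279 (kB 5 h229 (kA 6 h227 (kA 4 h226 (kA 7 h225 (kA 7 h224 (kC 7 b38 k0)))))))); clear * - this; omega, by have := kA 1 h288 (kB 1 h287 (kA 2 h279 (kB 1 h229 (kA 2 h225 (kA 2 h224 (kA 2 h223 (kC 2 b38 k0))))))); clear * - this; omega, by have := kA 1 h289 (kA 1 h288 (kA 1 h279 (kA 1 h225 (kA 2 h224 (kC 1 b33 k0))))); clear * - this; omega⟩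
                            exact T0_93 X hb ⟨by have := kB 4 h289 (kA 1 h288 (kB 3 h287 (kA 4 h284 (kA 4 h279 (kB 1 h229 (kA 2 h224 k0)))))); clear * - this; omega, by have := kB 3 h289 (kB 2 h287 (kA 4 h284 (kA 3 h279 (kB 1 h229 (kA 2 h3 k0))))); clear * - this; omega, by have := kB 4 h289 (kA 1 h288 (kB 3 h287 (kA 4 h284 (kA 4 h279 (kB 1 h229 k0))))); clear * - this; omega, by clear * - h289; omega⟩
                          rcases lt_or_ge (-N + a + b + m - 2*c + d) 0 with h290 | h290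
                          · rcases lt_or_ge (4*N + Q - i - 2*a - 2*b - 2*m + 2*c + 4*d + 2*V - 3) 0 with h291 | h291
                            · rcases lt_or_ge (-2*N - b + m - c - 2*d + U - V + 1) 0 with h292 | h292
                              · exact T0_73 X hb ⟨by have := kB 1 h288 (kB 3 h287 (kA 8 h279 (kB 5 h229 (kA 4 h226 (kA 4 h225 (kA 10 h224 (kC 4 b38 k0))))))); clear * - this; omega, by have := kA 84 h292 (kA 33 h291 (kA 18 h290 (kB 62 h288 (kA 24 h281 (kA 22 h279 (kB 82 h229 (kA 108 h227 (kA 38 h226 (kA 71 h225 (kA 104 h224 (kC 71 b38 k0))))))))))); clear * - this; omega, by have := kA 16 h292 (kA 11 h291 (kA 6 h290 (kA 14 h284 (kA 16 h279 (kB 18 h229 (kA 16 h227 (kA 12 h226 (kA 23 h225 (kA 34 h224 (kC 23 b38 k0)))))))))); clear * - this; omega, by have := kB 1 h288 (kB 3 h287 (kA 2 h279 (kB 5 h229 (kA 4 h226 (kA 4 h225 (kA 4 h224 (kC 4 b38 k0))))))); clear * - this; omega, by have := kA 4 h292 (kA 1 h291 (kA 2 h290 (kA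 1 h284 (kA 1 h279 (kA 3 h227 (kA 2 h225 (kA 4 h224 (kA 1 h156 (kC 2 b38 k0))))))))); clear * - this; omega⟩
                              exact T0_284 X hb ⟨by have := kA 2 h291 (kA 6 h290 (kB 2 h287 (kA 1 h286 (kA 8 h284 (kB 2 h229 (kA 8 h227 (kC 4 b33 (kC 4 b29 (kC 3 b19 k0))))))))); clear * - this; omega, by have := kB 3 h292 (kA 15 h291 (kA 6 h290 (kA 12 h281 (kA 36 h279 (kB 43 h229 (kA 22 h228 (kA 14 h227 (kA 44 h226 (kA 42 h225 (kA 57 h224 (kC 42 b38 k0))))))))))); clear * - this; omega, by have := kA 1 h290 (kB 1 h287 (kB 2 h229 (kA 4 h227 (kA 1 h225 (kA 1 h224 (kB 2 h6 (kC 1 b39 k0))))))); clear * - this; omega, by have := kA 1 h286 (kA 2 h284 (kA 1 h279 (kA 1 h224 (kC 1 b38 (kC 1 b33 (kC 2 b29 k0)))))); clear * - this; omega, by have := kB 6 h292 (kA 15 h291 (kA 46 h290 (kB 6 h287 (kA 8 h286 (kB 21 h229 (kA 32 h227 (kA 12 h226 (kA 15 h224 (kC 35 b38 (kC 35 b29 k0)))))))))); clear * - this; omega, by clear * - h292; omega⟩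
                            exact T0_215 X hb ⟨by clear * - h291; omega, by have := kB 2 h291 (kA 3 h290 (kB 1 h287 (kA 2 h286 (kA 4 h284 (kB 1 h229 (kA 4 h227 (kC 2 b33 (kC 2 b29 (kC 3 b19 k0))))))))); clear * - this; omega, by have := kB 2 h291 (kA 2 h284 (kA 1 h282 (kA 3 h281 (kA 2 h227 (kA 3 h225 (kA 3 h224 (kB 3 h157 (kA 2 h156 (kC 3 b39 k0))))))))); clear * - this; omega, by have := kA 1 h286 (kA 2 h227 (kA 1 h223 (kC 2 b19 k0))); clear * - this; omega⟩
                          exact T0_97 X hb ⟨by have := kB 1 h229 (kA 2 h226 (kA 1 h225 (kA 1 h224 (kC 2 b38 (kC 1 b29 k0))))); clear * - this; omega, by clear * - h287; omega, by clear * - h288; omega, by clear * - h1 h290; omega, by clear * - h290; omega⟩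
                        exact T0_100 X hb ⟨by clear * - h286; omega, by have := kB 1 h286 (kA 1 h285 (kA 1 h284 (kA 1 h279 (kB 1 h229 (kA 1 h227 (kA 2 h224 (kC 1 b33 (kC 1 b24 k0)))))))); clear * - this; omega, by have := kB 1 h286 (kA 26 h285 (kA 14 h284 (kA 24 h281 (kB 14 h229 (kA 22 h227 (kA 16 h226 (kA 26 h224 (kA 26 h156 (kC 29 b38 (kC 29 b29 k0)))))))))); clear * - this; omega, by clear * - h285; omega⟩
                      exact T0_99 X hb ⟨by clear * - h283; omega, by clear * - h285; omega, by clear * - h5 h228 h285; omega, by have := kB 1 h285 (kA 1 h284 (kA 1 h280 (kB 1 h157 k0))); clear * - this; omega, by have := kB 2 h285 (kA 1 h282 (kA 1 h281 (kB 1 h157 k0))); clear * - this; omega, by have := kA 1 h279 (kB 1 h229 (kA 1 h225 (kA 2 h224 (kC 1 b33 (kC 2 b17 k0))))); clear * - this; omega, by have := kA 2 h284 (kA 1 h279 (kA 2 h224 (kC 1 b24 k0))); clear * - this; omega, by have := kA 1 h284 (kA 1 h283 (kA 2 h279 (kB 1 h229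 (kA 1 h227 (kA 2 h225 (kA 3 h224 (kC 1 b39 k0))))))); clear * - this; omega, by clear * - b17 h224 h225; omega, by have := kA 2 h284 (kA 2 h283 (kA 1 h282 (kA 3 h227 (kA 3 h225 (kA 3 h224 (kA 3 h5 (kC 1 b39 k0))))))); clear * - this; omega, by have := kA 2 h283 (kA 1 h279 (kB 1 h229 (kA 2 h227 (kA 2 h225 (kA 2 h224 (kC 1 b33 k0)))))); clear * - this; omega⟩
                    rcases lt_or_ge (-2*N - Q + 2*a + 4*b - 2*d - 2*V) 0 with h293 | h293
                    · exact T0_168 X hb ⟨by have := kB 2 h284 (kA 2 h282 (kB 1 h229 (kA 2 h227 (kA 1 h225 (kA 1 h224 (kC 1 b38 k0)))))); clear * - this; omega, by have := kA 1 h293 (kB 2 h284 (kA 4 h283 (kA 2 h281 (kB 1 h229 (kA 4 h227 (kA 2 h225 (kA 2 h224 (kC 2 b39 (kC 1 b38 (kC 1 b29 k0)))))))))); clear * - this; omega, by have := kA 1 h293 (kB 1 h284 (kA 3 h283 (kA 1 h282 (kA 3 h281 (kB 4 h229 (kA 5 h228 (kA 10 h227 (kA 4 h226 (kA 8 h225 (kA 8 h224 (kC 8 b36 k0))))))))))); clear * - this;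 omega, by have := kA 5 h293 (kA 4 h283 (kA 2 h282 (kA 10 h281 (kB 2 h229 (kA 1 h225 (kA 7 h224 (kA 6 h156 (kA 2 h4 (kC 1 b38 k0))))))))); clear * - this; omega⟩
                    exact T0_235 X hb ⟨by clear * - h284; omega, by clear * - h4; omega, by have := kB 1 h229 (kA 2 h227 (kA 1 h225 (kA 1 h224 (kC 1 b33 k0)))); clear * - this; omega, by have := kB 1 h229 (kA 2 h227 (kA 1 h225 (kA 1 h224 (kA 1 h223 (kC 1 b38 k0))))); clear * - this; omega, by clear * - h293; omega, by have := kB 2 h284 (kA 2 h227 (kA 1 h225 (kA 2 h223 (kC 1 b38 k0)))); clear * - this; omega⟩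
                  rcases lt_or_ge (-4*N + i + 2*a + 2*b + 2*m - 2*c - 4*d + 2) 0 with h294 | h294
                  · rcases lt_or_ge (-2*N + m - c - 3*d - V + 1) 0 with h295 | h295
                    · exact T0_94 X hb ⟨by have := kA 5 h282 (kA 2 h281 (kA 4 h279 (kB 6 h229 (kA 9 h227 (kA 6 h225 (kA 12 h224 (kB 2 h6 (kA 1 h5 (kC 6 b33 k0))))))))); clear * - this; omega, by clear * - h295; omega, by have := kA 1 h280 (kA 1 h227 (kA 1 h225 (kA 1 h224 (kB 1 h157 (kC 1 b39 k0))))); clear * - this; omega, by have := kA 1 h282 (kA 1 h227 (kA 1 h225 (kA 1 h224 (kA 3 h5 (kC 1 b39 k0))))); clear * - this; omega, by have := kA 2 h282 (kB 1 h229 (kA 2 h227 (kA 2 h224 (kA 2 h5 (kC 1 b33 (kC 1 b24 k0)))))); clear * - this; omega⟩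
                    rcases lt_or_ge (2*N - m + c + 3*d + V - 1) 0 with h296 | h296
                    · rcases lt_or_ge (2*N + Q - i - l - m + 4*d + U + 2*V - 2) 0 with h297 | h297
                      · exact T0_93 X hb ⟨by have := kA 6 h296 (kA 4 h294 (kA 2 h279 (kB 2 h229 (kA 2 h227 (kB 2 h6 (kC 1 b39 (kC 1 b28 k0))))))); clear * - this; omega, by have := kA 5 h296 (kB 8 h283 (kA 5 h282 (kA 1 h281 (kA 3 h279 (kB 2 h229 (kB 2 h6 (kA 4 h4 (kA 5 h3 k0)))))))); clear * - this; omega, by have := kA 1 h296 (kA 2 h294 (kB 1 h283 (kA 2 h282 (kA 4 h279 (kB 4 h229 (kA 3 h227 (kB 2 h6 (kC 2 b33 (kC 2 b28 k0))))))))); clear * - this; omega, by have := kA 1 h297 (kA 2 h296 (kA 2 h294 (kA 1 h279 (kB 1 h229 (kA 1 h225 (kC 1 b33 (kC 1 b19 k0))))))); clear * - this; omega⟩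
                      exact T0_101 X hb ⟨by clear * - h297; omega, by have := kB 1 h297 (kA 2 h296 (kA 1 h294 (kB 1 h229 (kA 2 h227 (kC 1 b33 (kC 1 b24 (kC 2 b17 (kC 1 b3 k0)))))))); clear * - this; omega, by have := kA 1 h296 (kA 1 h294 (kB 1 h283 (kA 1 h282 (kA 1 h281 (kA 1 h227 (kA 1 h225 (kB 1 h157 (kC 1 b39 k0)))))))); clear * - this; omega, by clear * - h296; omega⟩
                    exact T0_95 X hb ⟨by clear * - h295; omega, by clear * - h296; omega, by have := kB 5 h295 (kB 6 h283 (kA 4 h282 (kA 2 h281 (kA 1 h4 k0)))); clear * - this; omega, by have := kB 2 h295 (kB 3 h283 (kA 2 h282 (kA 1 h281 k0))); clear * - this; omega, by have := kB 1 h295 (kB 2 h283 (kA 1 h282 (kA 1 h281 (kB 1 h157 (kA 1 h4 k0))))); clear * - this; omega, by have := kB 2 h283 (kA 1 h282 (kA 1 h281 (kB 1 h157 k0))); clear * - this; omega, by have := kB 4 h295 (kA 2 h294 (kA 1 h279 (kB 1 h229 (kA 1 h225 (kC 1 b33 (kC 2 b17 k0)))))); clear * - this; omega,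 by have := kB 4 h295 (kA 2 h294 (kA 1 h279 (kA 2 h4 (kC 1 b24 k0)))); clear * - this; omega, by have := kB 5 h295 (kA 2 h294 (kB 1 h283 (kA 2 h282 (kA 1 h279 (kB 1 h229 (kA 1 h227 (kA 1 h225 k0))))))); clear * - this; omega, by have := kB 10 h295 (kA 4 h294 (kA 2 h282 (kA 2 h279 (kB 2 h229 (kA 4 h227 (kA 1 h225 (kB 2 h6 (kC 2 b28 k0)))))))); clear * - this; omega, by have := kB 2 h295 (kA 1 h294 (kA 1 h225 (kC 2 b17 k0))); clear * - this; omega, by have := kB 4 h295 (kA 1 h294 (kA 1 h279 (kA 1 h225 (kA 2 h4 k0)))); clear * - this; omega⟩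
                  exact T0_25 X hb ⟨by have := kB 2 h294 (kB 2 h283 (kA 1 h282 (kA 1 h281 (kA 1 h228 (kA 1 h227 (kA 2 h224 (kB 2 h6 (kA 2 h4 k0)))))))); clear * - this; omega, by clear * - h283; omega, by have := kA 8 h282 (kA 4 h281 (kB 3 h229 (kA 8 h227 (kB 10 h6 (kA 4 h4 (kA 10 h3 k0)))))); clear * - this; omega, by have := kB 1 h294 (kB 2 h283 (kA 2 h282 (kA 1 h224 (kA 2 h5 k0)))); clear * - this; omega, by clear * - h294; omega⟩
                rcases lt_or_ge (-Q + 2*b) 0 with h298 | h298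
                · exact T0_50 X hb ⟨by have := kA 4 h298 (kA 2 h281 (kA 2 h279 (kB 3 h229 (kA 4 h226 (kA 1 h225 (kA 1 h224 (kC 1 b36 (kC 3 b11 k0)))))))); clear * - this; omega, by have := kA 2 h298 (kB 1 h282 (kA 1 h281 (kA 4 h279 (kB 2 h229 (kA 1 h228 (kA 3 h225 (kA 2 h156 (kA 2 h4 (kA 7 h3 (kC 3 b39 k0)))))))))); clear * - this; omega, by have := kA 4 h298 (kA 2 h281 (kA 3 h280 (kA 2 h279 (kB 3 h229 (kA 9 h228 (kA 4 h226 (kA 7 h225 (kA 7 h224 (kC 7 b36 k0))))))))); clear * - this; omega⟩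
                rcases lt_or_ge (-2*N + i + 2*a + 2*b + 2*m - 2*c + 2*V + 2) 0 with h299 | h299
                · exact T0_115 X hb ⟨by have := kA 2 h228 (kA 2 h227 (kA 1 h225 (kA 3 h224 (kA 4 h5 (kA 2 h4 (kC 2 b33 (kC 1 b28 k0))))))); clear * - this; omega, by have := kA 1 h280 (kA 1 h227 (kA 1 h225 (kA 1 h224 (kB 1 h157 (kC 1 b39 k0))))); clear * - this; omega, by have := kA 2 h299 (kA 3 h279 (kB 1 h229 (kA 2 h225 (kA 1 h224 (kA 2 h4 (kC 1 b39 (kC 1 b33 k0))))))); clear * - this; omega, by have := kA 1 h299 (kA 2 h279 (kB 1 h229 (kA 1 h224 (kA 2 h4 (kC 1 b33 (kC 1 b24 k0)))))); clear * - this; omega, by clear * - b11 h5; omega⟩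
                exact T0_106 X hb ⟨by clear * - h282; omega, by clear * - h298; omega, by clear * - h299; omega⟩
              rcases lt_or_ge (-N - Q + i - a + l + m - d + 2) 0 with h300 | h300
              · exact T0_50 X hb ⟨by have := kA 3 h300 (kB 1 h281 (kA 2 h279 (kB 2 h229 (kA 2 h226 (kA 1 h225 (kA 1 h224 (kA 1 h223 (kC 1 b36 k0)))))))); clear * - this; omega, by have := kA 3 h300 (kA 4 h279 (kB 2 h229 (kA 3 h225 (kB 1 h157 (kA 2 h156 (kA 1 h5 (kA 2 h4 (kA 7 h3 (kC 3 b39 k0))))))))); clear * - this; omega, by have := kA 4 h300 (kB 2 h281 (kA 7 h280 (kA 2 h279 (kB 3 h229 (kA 5 h228 (kA 4 h226 (kA 7 h225 (kA 7 h224 (kC 7 b36 k0))))))))); clear * - this; omega⟩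
              exact T0_133 X hb ⟨by clear * - h300; omega, by have := kA 2 h280 (kA 1 h279 (kB 2 h229 (kA 4 h227 (kA 2 h225 (kA 3 h224 (kC 3 b33 (kC 1 b29 k0))))))); clear * - this; omega, by have := kA 1 h280 (kB 2 h229 (kA 3 h227 (kA 2 h226 (kA 2 h225 (kA 2 h224 (kA 1 h222 (kC 2 b38 k0))))))); clear * - this; omega, by clear * - h280 h281; omega, by clear * - h281; omega, by have := kA 2 h280 (kA 1 h279 (kA 1 h224 (kC 1 b33 (kC 1 b29 k0)))); clear * - this; omega⟩
            rcases lt_or_ge (-Q + i - a + l + c + 1) 0 with h301 | h301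
            · rcases lt_or_ge (-N + m - 2*c) 0 with h302 | h302
              · exact T0_20 X hb ⟨by have := kA 1 h279 (kB 1 h229 (kA 2 h228 (kA 1 h225 (kA 1 h224 (kA 1 h223 (kC 1 b38 k0)))))); clear * - this; omega, by clear * - h280 h302; omega, by have := kA 2 h302 (kB 2 h229 (kA 2 h228 (kA 2 h227 (kA 2 h225 (kA 1 h224 (kC 2 b36 k0)))))); clear * - this; omega⟩
              rcases lt_or_ge (N - i - l - 2) 0 with h303 | h303
              · exact T0_38 X hb ⟨by have := kA 2 h303 (kA 3 h301 (kA 1 h279 (kA 1 h228 (kA 2 h224 (kA 2 h156 (kB 2 h6 (kA 2 h4 k0))))))); clear * - this; omega, by clear * - h228 h303; omega, by have := kA 2 h303 (kA 1 h301 (kA 1 h228 (kA 2 h227 (kA 1 h224 (kA 2 h156 (kB 2 h6 k0)))))); clear * - this; omega⟩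
              exact T0_73 X hb ⟨by have := kB 1 h280 (kA 1 h279 (kA 1 h224 (kA 1 h222 (kB 1 h6 (kA 1 h4 k0))))); clear * - this; omega, by have := kB 1 h303 (kB 4 h302 (kB 1 h280 (kA 1 h279 (kA 5 h222 (kB 1 h6 (kA 3 h4 k0)))))); clear * - this; omega, by clear * - h302; omega, by have := kB 1 h280 (kA 1 h222 (kB 1 h6 (kA 1 h4 k0))); clear * - this; omega, by clear * - h303; omega⟩
            exact T0_59 X hb ⟨by clear * - h301; omega, by have := kA 1 h227 (kA 1 h225 (kA 1 h222 (kC 1 b39 k0))); clear * - this; omega, by clear * - h280; omega, by have := kA 2 h279 (kB 1 h229 (kA 1 h228 (kA 1 h225 (kA 2 h224 (kC 1 b33 k0))))); clear * - this; omega⟩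
          exact T0_111 X hb ⟨by clear * - h279; omega, by clear * - h6 h227; omega, by clear * - h224; omega, by have := kB 1 h279 (kB 8 h229 (kA 8 h227 (kA 8 h225 (kA 2 h224 (kA 8 h222 (kB 2 h6 (kA 6 h4 (kA 6 h2 (kC 8 b36 k0))))))))); clear * - this; omega, by clear * - h229; omega⟩
        rcases lt_or_ge (a + 2*b + c - 1) 0 with h304 | h304
        · rcases lt_or_ge (Q - i - l - m + U - 2) 0 with h305 | h305
          · rcases lt_or_ge (N - a - 2*b + c - 1) 0 with h306 | h306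
            · rcases lt_or_ge (i + l - m - U - 1) 0 with h307 | h307
              · exact T0_106 X hb ⟨by have := kA 1 h307 (kA 2 h304 (kA 2 h222 (kC 1 b18 k0))); clear * - this; omega, by clear * - h223 h306 h307; omega, by have := kA 1 h307 (kA 2 h306 (kA 1 h305 (kA 2 h304 (kA 2 h227 (kA 2 h5 (kC 1 b33 (kC 1 b24 (kC 1 b3 k0)))))))); clear * - this; omega⟩
              exact T0_111 X hb ⟨by have := kA 2 h306 (kA 2 h304 (kA 2 h224 (kC 1 b33 (kC 1 b24 k0)))); clear * - this; omega, by clear * - h6 h227; omega, by clear * - h224; omega, by have := kA 4 h306 (kA 1 h304 (kB 2 h228 (kA 3 h227 (kA 1 h225 (kA 1 h224 (kA 1 h222 (kB 2 h6 (kC 1 b39 k0)))))))); clear * - this; omega, by clear * - h307; omega⟩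
            rcases lt_or_ge (-2*N + i + 4*a + 4*b - 2*c) 0 with h308 | h308
            · rcases lt_or_ge (2*N + Q - i - 2*a - 2*b - l + 2*d + 2*V - 2) 0 with h309 | h309
              · rcases lt_or_ge (Q - i - 4*a - 4*b - 2*d - 1) 0 with h310 | h310
                · rcases lt_or_ge (2*N + i - b + l - m + 2*c + 2*d - U + V - 1) 0 with h311 | h311
                  · rcases lt_or_ge (-Q + i + b + l + c + d + 1) 0 with h312 | h312
                    · exact T0_35 X hb ⟨by have := kA 1 h312 (kA 2 h310 (kA 1 h308 (kA 2 h304 (kA 2 h5 (kC 1 b3 k0))))); clear * - this; omega, by have := kA 11 h312 (kA 4 h311 (kA 5 h310 (kA 2 h309 (kA 2 h304 (kA 4 h226 (kB 4 h6 (kA 4 h5 (kA 4 h4 k0)))))))); clear * - this; omega, by have := kA 6 h311 (kA 3 h310 (kA 2 h308 (kA 3 h225 (kB 2 h6 (kA 12 h5 (kA 6 h4 (kA 4 h2 (kC 3 b38 k0)))))))); clear * - this; omega, by have := kA 2 h5 (kA 2 h2 (kC 1 b33 (kC 1 b24 k0))); clear * - this; omega⟩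
                    exact T0_67 X hb ⟨by clear * - h312; omega, by have := kA 2 h311 (kA 2 h308 (kB 2 h306 (kA 6 h227 (kA 8 h225 (kA 10 h222 (kA 4 h5 (kA 6 h4 (kC 9 b39 (kC 1 b28 k0))))))))); clear * - this; omega, by have := kA 1 h311 (kB 1 h306 (kB 1 h228 (kA 1 h227 (kA 2 h222 (kB 1 h6 (kA 2 h4 (kC 1 b39 (kC 1 b29 k0)))))))); clear * - this; omega, by have := kA 3 h310 (kA 2 h308 (kA 2 h305 (kA 6 h304 (kA 4 h227 (kA 2 h5 (kC 1 b33 (kC 1 b24 (kC 2 b19 (kC 3 b3 k0))))))))); clear * - this; omega, by have := kA 2 h5 (kA 2 h2 (kC 1 b33 (kC 1 b24 k0))); clear * - this; omega⟩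
                  exact T0_50 X hb ⟨by clear * - h311; omega, by have := kB 1 h311 (kA 1 h310 (kA 2 h304 (kA 7 h227 (kA 7 h225 (kA 4 h222 (kA 6 h5 (kA 7 h3 (kC 4 b39 (kC 1 b38 (kC 2 b33 k0)))))))))); clear * - this; omega, by have := kA 2 h310 (kA 1 h309 (kA 1 h308 (kA 1 h304 (kB 1 h228 (kA 2 h225 (kA 2 h222 (kC 2 b39 (kC 3 b3 k0)))))))); clear * - this; omega⟩
                exact T0_197 X hb ⟨by clear * - h310; omega, by have := kA 1 h309 (kA 1 h308 (kA 2 h4 (kC 1 b1 k0))); clear * - this; omega, by have := kA 1 h309 (kA 2 h227 (kC 1 b33 (kC 1 b29 (kC 1 b3 k0)))); clear * - this; omega, by have := kA 1 h309 (kA 1 h308 (kA 1 h304 (kB 1 h228 (kA 2 h222 (kA 1 h156 (kB 3 h6 (kA 4 h4 k0))))))); clear * - this; omega⟩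
              exact T0_53 X hb ⟨by clear * - h309; omega, by have := kA 1 h305 (kA 2 h222 (kA 2 h4 (kC 1 b19 k0))); clear * - this; omega, by clear * - h6 h223 h227; omega⟩
            rcases lt_or_ge (-i + 2*b - l - 2*c - 2) 0 with h313 | h313
            · exact T0_45 X hb ⟨by clear * - h308; omega, by have := kA 1 h313 (kA 2 h304 (kA 2 h2 (kC 1 b33 (kC 1 b24 k0)))); clear * - this; omega⟩
            exact T0_20 X hb ⟨by clear * - h313; omega, by clear * - h306; omega, by clear * - h308; omega⟩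
          rcases lt_or_ge (4*N - Q + i + l - 3*m + 4*c + 4*d - 2) 0 with h314 | h314
          · rcases lt_or_ge (-2*N - Q + i + 2*a + 2*b + l + 2*m - 2*c + 3) 0 with h315 | h315
            · rcases lt_or_ge (2*N - Q + i - 2*a - 2*b + l - m + 4*c) 0 with h316 | h316
              · exact T0_53 X hb ⟨by have := kA 12 h316 (kA 13 h315 (kA 6 h314 (kB 2 h305 (kA 2 h304 (kB 8 h228 (kA 4 h227 (kA 30 h226 (kA 14 h225 (kA 6 h5 (kA 14 h2 (kC 14 b38 k0))))))))))); clear * - this; omega, by clear * - h157 h222 h316; omega, by clear * - h6 h223 h227; omega⟩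
              exact T0_160 X hb ⟨by have := kA 1 h315 (kA 1 h314 (kA 1 h304 (kA 1 h227 (kA 1 h222 (kB 2 h6 k0))))); clear * - this; omega, by have := kA 2 h222 (kA 2 h4 (kC 1 b36 (kC 1 b29 (kC 1 b11 k0)))); clear * - this; omega, by clear * - h316; omega⟩
            exact T0_168 X hb ⟨by have := kA 2 h314 (kA 2 h227 (kA 2 h225 (kA 2 h222 (kA 2 h2 (kC 1 b38 (kC 2 b36 (kC 1 b29 k0))))))); clear * - this; omega, by have := kA 3 h314 (kB 1 h305 (kA 2 h227 (kA 4 h222 (kA 2 h5 (kA 2 h4 (kA 2 h2 (kC 1 b39 (kC 2 b33 (kC 3 b29 k0))))))))); clear * - this; omega, by clear * - h315; omega, by clear * - h223 h305; omega⟩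
          rcases lt_or_ge (Q - i - l - m - 2*d - 3) 0 with h317 | h317
          · rcases lt_or_ge (2*N + Q - i - 2*a - 2*b + 4*d + 2*V - 1) 0 with h318 | h318
            · rcases lt_or_ge (-2*N + m - 2*c + U + 1) 0 with h319 | h319
              · rcases lt_or_ge (2*N + i + a + b + l - m + 2*c + 3*d - U + 2*V - 1) 0 with h320 | h320
                · exact T0_110 X hb ⟨by have := kA 2 h319 (kA 1 h317 (kB 1 h305 (kA 2 h304 (kA 2 h5 (kA 2 h2 (kC 1 b39 (kC 1 b29 k0))))))); clear * - this; omega, by clear * - b18 h320; omega, by have := kA 1 h320 (kA 2 h227 (kC 1 b3 (kC 1 b1 k0))); clear * - this; omega⟩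
                exact T0_93 X hb ⟨by clear * - h224 h320; omega, by have := kA 2 h319 (kA 1 h318 (kA 3 h317 (kB 4 h305 (kA 4 h304 (kA 2 h227 (kA 5 h225 (kA 6 h5 (kA 6 h2 (kC 5 b39 k0))))))))); clear * - this; omega, by clear * - h320; omega, by have := kA 2 h319 (kA 1 h318 (kA 2 h317 (kB 1 h305 (kA 2 h304 (kC 1 b19 (kC 1 b3 k0)))))); clear * - this; omega⟩
              exact T0_128 X hb ⟨by clear * - h319; omega, by have := kA 1 h317 (kA 1 h304 (kA 1 h227 (kA 1 h222 (kC 1 b3 k0)))); clear * - this; omega, by have := kA 1 h304 (kA 1 h227 (kA 1 h222 (kB 2 h6 k0))); clear * - this; omega⟩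
            exact T0_205 X hb ⟨by clear * - h318; omega, by clear * - h223 h305 h317; omega, by clear * - b11 h5 h222; omega⟩
          exact T0_103 X hb ⟨by clear * - h305; omega, by clear * - h317; omega, by clear * - b11 h5; omega, by clear * - h314; omega⟩
        exact T0_63 X hb ⟨by clear * - h228; omega, by have := kA 1 h227 (kA 1 h225 (kA 1 h222 (kC 1 b39 k0))); clear * - this; omega, by have := kB 2 h304 (kB 1 h228 (kA 1 h224 (kA 2 h4 k0))); clear * - this; omega, by clear * - h304; omega⟩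
      exact c0x h1 h2 h3 h4 h5 h6 h156 h157 h222 h223 h224 h225 h226 h227
    rcases lt_or_ge (3*N - a - b - m + c + 2*d - U + V - 3) 0 with h442 | h442
    · exact T0_153 X hb ⟨by have := kA 2 h442 (kA 2 h4 (kC 1 b33 (kC 1 b24 (kC 2 b2 k0)))); clear * - this; omega, by have := kA 2 h442 (kA 2 h222 (kA 2 h156 (kB 2 h6 (kA 4 h4 (kA 2 h2 (kC 1 b39 (kC 1 b28 (kC 2 b18 k0)))))))); clear * - this; omega, by have := kA 1 h442 (kB 1 h226 (kA 1 h224 (kA 1 h223 (kC 1 b33 (kC 1 b29 (kC 1 b18 (kC 2 b2 k0))))))); clear * - this; omega⟩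
    exact T0_88 X hb ⟨by clear * - h442; omega, by clear * - h226; omega, by have := kA 1 h224 (kC 1 b33 (kC 1 b29 (kC 1 b6 k0))); clear * - this; omega⟩
  exact T0_89 X hb (by clear * - h225; omega)

theorem M5 (X : C W N Q i a b l m c d L U V) (hb : B N Q i a b l m c d L U V)
    (h1 : (-N + m - c) < 0)
    (h2 : (i - b) < 0)
    (h3 : (2*N + i + l - m + 2*c + 3*d - U + 2*V - 1) < 0)
    (h4 : (c - d - V - 1) < 0)
    (h5 : (N - i - l - c + d - 2) < 0)
    (h6 : (N - 2*a - b + c - 1) ≥ 0)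
    (h156 : (-N + Q - i + b - c - 1) < 0)
    (h157 : (-Q + i - a - b + l + c - d - V + 1) ≥ 0)
    (h222 : (-a - b + m - c + d + V) < 0)
    (h223 : (-2*N + Q - i + 2*a + 2*b - l + m - 2*c + U) ≥ 0) : False := by
  have b1 := hb.b1
  have b2 := hb.b2
  have b3 := hb.b3
  have b7 := hb.b7
  have b9 := hb.b9
  have b11 := hb.b11
  have b17 := hb.b17
  have b18 := hb.b18
  have b19 := hb.b19
  have b23 := hb.b23
  have b24 := hb.b24
  have b28 := hb.b28
  have b29 := hb.b29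
  have b32 := hb.b32
  have b33 := hb.b33
  have b39 := hb.b39
  rcases lt_or_ge (-a - b - d - 1) 0 with h456 | h456
  · rcases lt_or_ge (-N - a - 2*b + 2*m - 2*c - d + 1) 0 with h457 | h457
    · rcases lt_or_ge (b + d + V - 1) 0 with h458 | h458
      · rcases lt_or_ge (2*N + i - 2*b + l - 2*m + 2*c + 2*d - 1) 0 with h459 | h459
        · rcases lt_or_ge (-3*N - Q + i - a + l + 3*m - 2*c - 2*d + 4) 0 with h460 | h460
          · rcases lt_or_ge (-N - Q + 2*i + 3*a + 2*b + 1) 0 with h461 | h461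
            · rcases lt_or_ge (2*N - b - m + c + 2*d - 2) 0 with h462 | h462
              · exact T0_26 X hb ⟨by have := kA 3 h462 (kA 1 h460 (kA 3 h458 (kA 4 h456 (kA 1 h156 (kB 1 h6 (kA 3 h4 k0)))))); clear * - this; omega, by have := kA 4 h462 (kA 1 h461 (kA 1 h460 (kA 5 h458 (kA 7 h456 (kA 2 h156 (kB 2 h6 (kA 1 h5 (kA 5 h4 k0)))))))); clear * - this; omega, by have := kA 3 h462 (kA 1 h461 (kA 1 h460 (kA 2 h458 (kA 5 h456 (kA 2 h156 (kB 2 h6 (kA 1 h5 (kA 2 h4 k0)))))))); clear * - this; omega, by have := kA 3 h462 (kA 1 h461 (kA 1 h460 (kA 4 h458 (kA 5 h456 (kA 2 h156 (kB 2 h6 (kA 1 h5 (kA 4 h4 k0)))))))); clear * - this; omega⟩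
              exact T0_25 X hb ⟨by have := kB 3 h462 (kA 2 h460 (kA 5 h459 (kA 3 h458 (kB 2 h157 (kA 4 h5 (kA 5 h4 k0)))))); clear * - this; omega, by clear * - h462; omega, by have := kB 1 h462 (kA 1 h461 (kA 7 h460 (kA 11 h459 (kA 3 h458 (kB 6 h223 (kB 12 h157 (kA 2 h156 (kB 2 h6 (kA 6 h5 (kA 15 h4 k0)))))))))); clear * - this; omega, by have := kB 1 h462 (kA 1 h459 (kA 1 h458 (kA 2 h5 (kA 1 h4 k0)))); clear * - this; omega, by have := kA 2 h460 (kA 6 h459 (kA 8 h458 (kA 4 h456 (kA 2 h156 (kA 8 h5 (kA 8 h4 (kC 1 b1 k0))))))); clear * - this; omega⟩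
            exact T0_80 X hb ⟨by have := kA 1 h458 (kA 1 h456 (kA 1 h5 (kA 1 h4 k0))); clear * - this; omega, by have := kA 4 h458 (kA 3 h456 (kB 1 h157 (kA 1 h156 (kA 3 h5 (kA 5 h4 (kA 3 h2 (kC 2 b3 k0))))))); clear * - this; omega, by clear * - h461; omega, by have := kA 1 h459 (kA 1 h458 (kA 1 h457 (kA 2 h456 (kB 1 h157 (kA 1 h5 (kA 2 h4 k0)))))); clear * - this; omega⟩
          rcases lt_or_ge (2*a + 2*b - l - 1) 0 with h463 | h463
          · rcases lt_or_ge (-N - Q + i - a + l + m + 2) 0 with h464 | h464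
            · rcases lt_or_ge (2*N - b - m + c + 2*d - 2) 0 with h465 | h465
              · rcases lt_or_ge (a + b + c - 1) 0 with h466 | h466
                · rcases lt_or_ge (-a - b - d) 0 with h467 | h467
                  · exact T0_58 X hb ⟨by have := kA 2 h467 (kA 2 h465 (kA 2 h464 (kA 2 h463 (kA 1 h156 (kB 1 h6 k0))))); clear * - this; omega, by clear * - h467; omega, by have := kA 22 h467 (kA 5 h466 (kA 12 h465 (kA 9 h464 (kA 10 h463 (kA 2 h457 (kA 10 h156 (kB 5 h6 k0))))))); clear * - this; omega⟩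
                  exact T0_71 X hb ⟨by have := kA 1 h466 (kA 2 h465 (kA 1 h464 (kA 1 h463 (kA 4 h456 (kA 1 h156 k0))))); clear * - this; omega, by clear * - h456; omega, by clear * - h467; omega⟩
                exact T0_12 X hb ⟨by clear * - h463 h466; omega, by clear * - h466; omega⟩
              rcases lt_or_ge (-4*N + i + 2*a + 2*b + 2*m - 2*c - 4*d + 2) 0 with h468 | h468
              · rcases lt_or_ge (-2*N + i + 2*a + 2*b + l + m - 2*d - U + 1) 0 with h469 | h469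
                · rcases lt_or_ge (2*N - 2*a - 2*b - m + 2*c - 2) 0 with h470 | h470
                  · exact T0_12 X hb ⟨by have := kA 1 h470 (kA 1 h468 (kA 1 h464 (kA 1 h463 (kA 1 h459 (kA 1 h156 (kA 2 h5 k0)))))); clear * - this; omega, by have := kA 1 h470 (kA 1 h468 (kA 1 h464 (kA 1 h459 (kA 1 h156 (kA 2 h5 k0))))); clear * - this; omega⟩
                  exact T0_128 X hb ⟨by have := kA 1 h469 (kA 1 h459 (kA 2 h458 (kA 2 h456 (kA 2 h5 (kA 2 h4 k0))))); clear * - this; omega, by clear * - h456 h463; omega, by clear * - h470; omega⟩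
                exact T0_112 X hb ⟨by have := kB 1 h465 (kA 2 h464 (kB 2 h460 (kA 1 h459 (kA 3 h458 (kA 2 h457 (kA 1 h4 k0)))))); clear * - this; omega, by have := kA 4 h468 (kA 2 h464 (kA 2 h459 (kA 2 h156 (kA 6 h5 (kA 6 h4 (kC 1 b33 (kC 1 b24 k0))))))); clear * - this; omega, by have := kA 1 h468 (kA 3 h464 (kB 3 h460 (kA 2 h458 (kA 2 h457 k0)))); clear * - this; omega, by have := kA 1 h459 (kA 2 h458 (kA 2 h456 (kA 2 h5 (kA 2 h4 k0)))); clear * - this; omega, by clear * - h469; omega⟩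
              exact T0_25 X hb ⟨by have := kB 5 h468 (kB 9 h465 (kA 2 h464 (kA 7 h463 (kA 8 h459 (kA 5 h458 (kA 6 h457 (kA 2 h156 (kB 2 h6 (kA 5 h4 k0))))))))); clear * - this; omega, by clear * - h465; omega, by have := kB 1 h468 (kB 2 h465 (kA 2 h463 (kA 2 h459 (kA 2 h458 (kA 2 h457 (kB 1 h223 (kA 1 h156 (kB 1 h6 (kA 2 h4 k0))))))))); clear * - this; omega, by clear * - h5 h460 h464; omega, by clear * - h468; omega⟩
            rcases lt_or_ge (-N + 3*a + 2*b - l + m - 2*c - 1) 0 with h471 | h471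
            · rcases lt_or_ge (-a - b - d) 0 with h472 | h472
              · exact T0_58 X hb ⟨by have := kA 2 h472 (kA 2 h471 (kA 2 h458 (kC 1 b39 (kC 1 b28 (kC 2 b19 (kC 6 b17 k0)))))); clear * - this; omega, by clear * - h472; omega, by have := kA 1 h472 (kA 2 h458 (kA 1 h222 (kA 1 h156 (kB 2 h6 (kA 1 h5 (kA 3 h4 (kA 1 h2 k0))))))); clear * - this; omega⟩
              exact T0_74 X hb ⟨by have := kA 2 h471 (kA 2 h458 (kA 6 h456 (kC 1 b39 (kC 1 b28 (kC 2 b17 k0))))); clear * - this; omega, by clear * - h472; omega, by clear * - h456; omega⟩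
            exact T0_77 X hb ⟨by have := kA 1 h459 (kA 1 h458 (kA 4 h456 (kB 1 h6 (kA 1 h5 (kC 1 b17 k0))))); clear * - this; omega, by clear * - h464; omega, by clear * - h471; omega, by have := kB 15 h471 (kB 1 h464 (kA 26 h463 (kA 4 h459 (kA 12 h457 (kA 11 h156 (kB 11 h6 (kA 4 h5 k0))))))); clear * - this; omega, by clear * - h463; omega, by have := kB 3 h471 (kB 1 h464 (kA 4 h458 (kA 2 h457 (kA 1 h156 (kB 3 h6 (kA 2 h5 (kA 4 h4 (kA 2 h2 k0)))))))); clear * - this; omega⟩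
          exact T0_81 X hb ⟨by have := kA 1 h459 (kA 1 h458 (kA 4 h456 (kB 1 h6 (kA 1 h5 (kC 1 b17 k0))))); clear * - this; omega, by have := kA 1 h459 (kA 1 h458 (kA 1 h456 (kA 1 h5 (kA 1 h4 k0)))); clear * - this; omega, by clear * - h460; omega, by have := kA 4 h459 (kA 14 h458 (kA 12 h456 (kA 2 h156 (kA 4 h5 (kA 14 h4 (kC 1 b32 (kC 1 b23 k0))))))); clear * - this; omega, by have := kB 2 h463 (kA 2 h458 (kA 2 h457 (kA 1 h156 (kB 1 h6 (kA 2 h4 (kA 2 h2 (kC 1 b32 (kC 1 b29 k0)))))))); clear * - this; omega, by have := kB 1 h463 (kA 1 h458 (kA 1 h222 (kB 1 h6 (kA 2 h4 (kA 1 h2 k0))))); clear * - this; omega, by have := kB 1 h463 (kA 1 h458 (kB 1 h157 (kB 1 h6 (kA 2 h4 (kA 1 h2 k0))))); clear * - this; omega, by have := kB 2 h463 (kA 6 h458 (kA 2 h457 (kA 1 h156 (kB 1 h6 (kA 6 h4 (kA 2 h2 (kC 1 b32 (kC 1 b29 k0)))))))); clear * - this; omega, by have := kB 1 h463 (kA 3 h458 (kA 1 h456 (kB 1 h6 (kA 1 h5 (kA 3 h4 (kA 1 h2 (kA 1 h1 k0)))))));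 clear * - this; omega, by have := kB 1 h463 (kA 4 h458 (kA 1 h457 (kA 1 h156 (kA 1 h5 (kA 4 h4 (kA 1 h2 (kC 1 b32 (kC 1 b29 k0)))))))); clear * - this; omega, by have := kB 4 h463 (kB 1 h460 (kA 6 h458 (kB 2 h157 (kB 4 h6 (kA 4 h5 (kA 8 h4 (kA 4 h2 k0))))))); clear * - this; omega, by have := kB 3 h463 (kB 8 h460 (kA 24 h458 (kA 5 h457 (kA 6 h456 (kA 6 h156 (kB 15 h6 (kA 9 h5 (kA 24 h4 (kA 9 h2 k0))))))))); clear * - this; omega, by have := kB 1 h463 (kA 2 h458 (kA 1 h456 (kB 1 h157 (kB 1 h6 (kA 1 h5 (kA 3 h4 (kA 1 h2 k0))))))); clear * - this; omega, by clear * - h463; omega, by have := kA 2 h458 (kA 2 h156 (kA 2 h4 (kC 1 b32 (kC 1 b23 k0)))); clear * - this; omega⟩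
        rcases lt_or_ge (2*N + i + 2*a - 2*m + 2*c + 2*d - 2) 0 with h473 | h473
        · rcases lt_or_ge (-2*N + i + l + m - 4*d - U + 1) 0 with h474 | h474
          · rcases lt_or_ge (4*N + i + l - 3*m + 4*c + 4*d - U + 2*V - 3) 0 with h475 | h475
            · rcases lt_or_ge (2*N - 2*a - 2*b - m + 2*c - 2) 0 with h476 | h476
              · rcases lt_or_ge (-4*N + i + 4*a + 4*b + 2*m - 2*c - 2*d + 2) 0 with h477 | h477
                · rcases lt_or_ge (3*N - a - 2*b - 2*m + 2*c + 2*d - 2) 0 with h478 | h478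
                  · rcases lt_or_ge (-N + a + 2*b + m) 0 with h479 | h479
                    · rcases lt_or_ge (-a - b - d) 0 with h480 | h480
                      · exact T0_58 X hb ⟨by clear * - b3 b17 h458; omega, by clear * - h480; omega, by have := kA 1 h478 (kB 1 h459 (kA 1 h458 (kA 1 h222 (kA 1 h156 (kB 2 h6 (kA 2 h4 (kA 1 h2 k0))))))); clear * - this; omega⟩
                      exact T0_71 X hb ⟨by clear * - h456 h478 h479; omega, by clear * - h456; omega, by clear * - h480; omega⟩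
                    rcases lt_or_ge (-N - Q + i - a + l + m + 2) 0 with h481 | h481
                    · rcases lt_or_ge (-b - d - V - 1) 0 with h482 | h482
                      · rcases lt_or_ge (-2*N + a + b + m - 2*c - d + 1) 0 with h483 | h483
                        · exact T0_58 X hb ⟨by have := kA 2 h481 (kA 2 h478 (kA 2 h477 (kA 2 h476 (kA 1 h156 (kB 1 h6 (kA 2 h5 k0)))))); clear * - this; omega, by clear * - h476 h483; omega, by have := kA 3 h481 (kA 9 h478 (kA 4 h477 (kA 4 h476 (kB 4 h459 (kA 2 h457 (kA 4 h156 (kB 4 h6 k0))))))); clear * - this; omega⟩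
                        rcases lt_or_ge (2*N - a - b - m + 2*c + d - 1) 0 with h484 | h484
                        · exact T0_222 X hb ⟨by clear * - h456 h484; omega, by have := kA 2 h484 (kA 1 h481 (kA 1 h478 (kA 1 h477 (kA 1 h474 (kA 1 h156 (kB 1 h6 (kA 2 h5 k0))))))); clear * - this; omega, by have := kB 1 h479 (kA 1 h478 (kA 1 h477 (kB 1 h459 k0))); clear * - this; omega⟩
                        exact T0_86 X hb ⟨by clear * - h484; omega, by clear * - h483; omega, by have := kB 4 h483 (kA 2 h481 (kA 1 h477 (kA 1 h476 (kA 1 h474 (kA 2 h156 (kA 2 h5 (kC 1 b33 (kC 1 b28 k0)))))))); clear * - this; omega, by have := kB 4 h483 (kA 1 h481 (kB 1 h479 (kA 1 h477 (kB 1 h459 (kA 1 h156 (kB 1 h6 k0)))))); clear * - this; omega, by have := kB 10 h483 (kA 2 h481 (kB 4 h479 (kA 2 h477 (kB 2 h459 (kA 2 h457 (kA 3 h156 (kB 3 h6 k0))))))); clear * - this; omega, by have := kB 10 h483 (kA 2 h481 (kB 4 h479 (kA 2 h478 (kA 3 h477 (kB 3 h459 (kA 2 h457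 (kA 3 h156 (kB 3 h6 k0)))))))); clear * - this; omega, by have := kB 2 h483 (kA 2 h482 (kA 2 h481 (kB 2 h479 (kA 1 h477 (kB 2 h157 k0))))); clear * - this; omega, by have := kB 6 h483 (kA 2 h481 (kB 3 h479 (kA 1 h478 (kA 2 h477 (kB 1 h459 (kA 2 h457 (kA 2 h156 (kB 2 h6 k0)))))))); clear * - this; omega, by have := kA 1 h481 (kB 1 h479 (kA 2 h478 (kA 1 h477 (kB 1 h459 (kA 2 h156 k0))))); clear * - this; omega, by have := kA 1 h481 (kB 1 h479 (kA 4 h478 (kA 2 h477 (kB 2 h459 (kA 2 h156 k0))))); clear * - this; omega⟩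
                      exact T0_87 X hb ⟨by have := kA 2 h481 (kA 6 h478 (kA 3 h477 (kA 4 h476 (kB 2 h459 (kA 2 h457 (kA 3 h156 (kB 3 h6 k0))))))); clear * - this; omega, by clear * - h482; omega, by have := kA 1 h476 (kA 1 h474 (kA 2 h5 (kC 1 b33 (kC 1 b28 (kC 2 b17 k0))))); clear * - this; omega⟩
                    exact T0_77 X hb ⟨by clear * - h479; omega, by clear * - h481; omega, by have := kA 2 h476 (kA 2 h458 (kA 2 h456 (kC 1 b33 (kC 1 b24 (kC 2 b17 k0))))); clear * - this; omega, by have := kB 2 h479 (kA 5 h478 (kA 2 h477 (kB 2 h459 (kA 4 h458 (kA 2 h457 (kA 2 h156 (kB 2 h6 (kA 4 h4 k0)))))))); clear * - this; omega, by clear * - h459 h477 h478; omega, by have := kB 2 h479 (kA 2 h458 (kA 2 h222 (kA 1 h156 (kB 1 h6 (kA 4 h4 k0))))); clear * - this; omega⟩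
                  rcases lt_or_ge (-3*N + a + 2*b + 2*m - 2*c - 2*d + 2) 0 with h485 | h485
                  · exact T0_221 X hb ⟨by clear * - h485; omega, by have := kA 10 h473 (kA 10 h458 (kA 12 h457 (kB 10 h223 (kA 10 h156 (kA 4 h5 (kA 10 h4 (kC 5 b39 (kC 5 b28 k0)))))))); clear * - this; omega, by clear * - h1 h456 h473; omega, by have := kA 2 h476 (kA 2 h473 (kA 2 h458 (kB 2 h223 (kA 2 h156 (kA 4 h5 (kA 2 h4 (kC 1 b39 (kC 1 b28 k0)))))))); clear * - this; omega, by have := kA 1 h476 (kA 1 h475 (kA 2 h456 (kA 2 h5 (kC 1 b33 (kC 1 b28 (kC 2 b17 k0)))))); clear * - this; omega⟩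
                  rcases lt_or_ge (-4*N - Q + i + 2*b + l + 3*m - 2*c - 2*d + 4) 0 with h486 | h486
                  · rcases lt_or_ge (-N - a + m - 2*d + 1) 0 with h487 | h487
                    · exact T0_222 X hb ⟨by clear * - h485 h487; omega, by have := kA 2 h487 (kB 2 h485 (kA 2 h477 (kA 1 h475 (kA 1 h474 (kA 4 h5 (kC 1 b33 (kC 1 b24 (kC 2 b17 k0)))))))); clear * - this; omega, by have := kA 2 h487 (kA 1 h486 (kB 4 h485 (kA 2 h477 (kA 2 h456 (kA 1 h156 (kB 1 h6 (kA 2 h5 k0))))))); clear * - this; omega⟩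
                    rcases lt_or_ge (2*a - l - 2*c - 2) 0 with h488 | h488
                    · exact T0_12 X hb ⟨by have := kA 1 h488 (kB 3 h487 (kA 1 h486 (kA 1 h477 (kA 4 h476 (kB 1 h459 (kA 1 h156 k0)))))); clear * - this; omega, by have := kA 1 h488 (kB 1 h487 (kA 1 h486 (kA 2 h476 (kA 1 h156 k0)))); clear * - this; omega⟩
                    exact T0_317 X hb ⟨by clear * - h488; omega, by have := kB 2 h488 (kB 4 h487 (kB 6 h485 (kA 3 h477 (kB 3 h459 (kA 2 h457 (kA 6 h456 (kA 1 h156 (kB 1 h6 k0)))))))); clear * - this; omega, by have := kB 1 h488 (kB 1 h487 (kB 1 h485 (kA 1 h477 (kB 1 h459 (kA 2 h456 k0))))); clear * - this; omega, by have := kB 3 h488 (kB 7 h487 (kB 5 h485 (kA 3 h477 (kB 3 h459 (kA 2 h457 (kA 6 h456 k0)))))); clear * - this; omega, by clear * - h476 h478; omega, by clear * - h487; omega⟩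
                  exact T0_316 X hb ⟨by have := kB 8 h485 (kA 10 h477 (kA 10 h458 (kA 12 h457 (kB 10 h223 (kA 10 h156 (kA 4 h5 (kA 10 h4 (kC 5 b39 (kC 5 b28 k0))))))))); clear * - this; omega, by clear * - h486; omega, by have := kB 2 h478 (kB 1 h459 (kA 4 h458 (kB 1 h223 (kA 1 h156 (kA 4 h4 (kA 1 h2 (kA 7 h1 (kC 1 b39 (kC 1 b29 k0))))))))); clear * - this; omega, by clear * - h478; omega, by clear * - h485; omega⟩
                exact T0_96 X hb ⟨by have := kA 10 h473 (kA 10 h458 (kA 12 h457 (kB 10 h223 (kA 10 h156 (kA 4 h5 (kA 10 h4 (kC 5 b39 (kC 5 b28 k0)))))))); clear * - this; omega, by clear * - b9 h459; omega, by have := kB 1 h477 (kA 3 h458 (kA 1 h457 (kA 1 h456 (kB 3 h6 (kA 3 h4 (kA 3 h2 k0)))))); clear * - this; omega, by clear * - h459 h473 h477; omega, by clear * - h477; omega⟩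
              exact T0_128 X hb ⟨by have := kA 1 h475 (kA 1 h474 (kA 2 h5 (kA 2 h4 k0))); clear * - this; omega, by clear * - h456 h459 h473; omega, by clear * - h476; omega⟩
            exact T0_115 X hb ⟨by have := kA 2 h473 (kA 5 h458 (kA 2 h457 (kB 1 h223 (kA 1 h156 (kA 1 h5 (kA 2 h4 (kC 1 b33 (kC 1 b28 (kC 1 b17 k0))))))))); clear * - this; omega, by have := kA 1 h473 (kA 2 h458 (kA 2 h456 (kA 2 h222 (kA 1 h156 (kB 1 h6 (kA 2 h4 k0)))))); clear * - this; omega, by have := kB 7 h475 (kA 5 h474 (kA 2 h473 (kB 2 h459 (kA 4 h456 (kB 2 h223 (kA 2 h156 (kB 2 h6 (kA 6 h5 (kA 2 h4 k0))))))))); clear * - this; omega, by clear * - h475; omega, by have := kA 2 h473 (kA 2 h458 (kB 2 h223 (kA 2 h156 (kA 2 h5 (kA 2 h4 (kC 1 b39 (kC 1 b28 k0))))))); clear * - this; omega⟩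
          rcases lt_or_ge (2*N - m + c + 3*d + V - 2) 0 with h489 | h489
          · exact T0_87 X hb ⟨by have := kB 1 h474 (kA 3 h473 (kA 6 h458 (kA 4 h457 (kA 6 h456 (kB 1 h223 (kA 3 h156 (kB 3 h6 (kA 6 h4 k0)))))))); clear * - this; omega, by have := kA 2 h489 (kB 1 h459 (kA 2 h456 (kC 1 b9 k0))); clear * - this; omega, by have := kA 4 h456 (kA 2 h5 (kA 2 h4 (kC 1 b33 (kC 1 b24 (kC 2 b17 k0))))); clear * - this; omega⟩
          exact T0_94 X hb ⟨by have := kB 2 h489 (kB 2 h474 (kA 4 h473 (kA 10 h458 (kA 4 h457 (kB 2 h223 (kA 2 h156 (kA 4 h4 (kC 1 b33 (kC 1 b24 k0))))))))); clear * - this; omega, by clear * - h489; omega, by have := kB 1 h474 (kA 3 h473 (kA 10 h458 (kA 4 h457 (kA 6 h456 (kB 1 h223 (kA 3 h156 (kB 3 h6 (kA 6 h4 k0)))))))); clear * - this; omega, by have := kB 1 h474 (kA 1 h473 (kA 2 h458 (kA 2 h456 (kB 1 h223 (kA 1 h156 (kB 1 h6 (kA 4 h5 (kA 2 h4 k0)))))))); clear * - this; omega, by clear * - h474; omega⟩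
        exact T0_218 X hb ⟨by clear * - b11 h5 h457; omega, by have := kB 1 h473 (kA 6 h457 (kA 16 h456 (kB 4 h223 (kA 4 h156 (kB 16 h6 (kA 14 h5 (kA 20 h4 (kA 10 h3 (kA 26 h2 (kC 7 b39 (kC 7 b28 k0))))))))))); clear * - this; omega, by clear * - h459; omega, by clear * - h473; omega, by clear * - b11 h5; omega⟩
      rcases lt_or_ge (2*N + i - 2*b + l - m + 2*c - U - 1) 0 with h490 | h490
      · rcases lt_or_ge (-a + b + d - 1) 0 with h491 | h491
        · rcases lt_or_ge (2*a + b - l - c - 2) 0 with h492 | h492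
          · rcases lt_or_ge (a + b + c - 1) 0 with h493 | h493
            · exact T0_77 X hb ⟨by have := kA 2 h491 (kA 2 h490 (kA 4 h456 (kB 2 h6 (kA 2 h5 (kC 1 b39 (kC 1 b28 k0)))))); clear * - this; omega, by have := kA 2 h493 (kA 2 h492 (kA 1 h491 (kA 2 h490 (kA 3 h456 (kA 2 h156 (kA 2 h5 (kC 1 b39 (kC 1 b28 k0)))))))); clear * - this; omega, by have := kA 2 h493 (kA 3 h491 (kA 2 h490 (kA 5 h456 (kA 2 h5 (kC 2 b33 (kC 2 b28 k0)))))); clear * - this; omega, by have := kA 1 h493 (kA 1 h491 (kB 2 h458 (kA 1 h456 (kB 2 h157 (kB 1 h6 k0))))); clear * - this; omega, by have := kA 2 h493 (kA 2 h492 (kA 1 h491 (kA 1 h456 k0))); clear * - this; omega, by have := kA 2 h493 (kA 4 h491 (kA 3 h490 (kB 1 h458 (kA 1 h457 (kA 1 h222 (kA 1 h156 (kB 1 h6 (kA 3 h5 (kC 3 b39 (kC 3 b29 k0)))))))))); clear * - this; omega⟩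
            exact T0_12 X hb ⟨by have := kA 2 h492 (kA 2 h491 (kA 1 h490 (kC 1 b18 k0))); clear * - this; omega, by clear * - h493; omega⟩
          rcases lt_or_ge (b + c - 1) 0 with h494 | h494
          · rcases lt_or_ge (-4*N + 2*a + 2*b - l + m - 2*c - 2*d + L + U + 2) 0 with h495 | h495
            · rcases lt_or_ge (2*a + 2*b - l - 1) 0 with h496 | h496
              · exact T0_214 X hb ⟨by have := kA 2 h496 (kA 2 h495 (kA 3 h491 (kA 4 h490 (kA 1 h456 (kB 2 h6 (kA 2 h5 (kC 2 b39 k0))))))); clear * - this; omega, by have := kA 12 h496 (kA 8 h495 (kB 16 h492 (kA 13 h491 (kA 16 h490 (kA 4 h457 (kA 7 h456 (kB 10 h6 (kA 14 h5 (kC 8 b39 k0))))))))); clear * - this; omega, by clear * - h492; omega, by have := kA 1 h496 (kA 1 h495 (kA 1 h490 (kA 2 h5 (kC 1 b33 k0)))); clear * - this; omega⟩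
              exact T0_81 X hb ⟨by have := kB 2 h496 (kA 4 h495 (kA 3 h491 (kA 6 h490 (kA 1 h456 (kB 2 h223 (kA 2 h156 (kA 6 h5 (kC 4 b39 k0)))))))); clear * - this; omega, by have := kB 4 h496 (kA 4 h495 (kA 6 h494 (kA 5 h491 (kA 8 h490 (kA 1 h456 (kB 2 h6 (kA 8 h5 (kC 4 b39 k0)))))))); clear * - this; omega, by have := kB 4 h496 (kA 6 h495 (kA 10 h494 (kA 7 h491 (kA 12 h490 (kA 3 h456 (kA 2 h156 (kB 4 h6 (kA 12 h5 (kC 6 b39 k0))))))))); clear * - this; omega, by have := kB 2 h496 (kA 4 h495 (kA 8 h494 (kA 3 h491 (kA 6 h490 (kA 1 h456 (kB 2 h223 (kA 2 h156 (kA 6 h5 (kC 4 b39 k0))))))))); clear * - this; omega, by have := kB 2 h496 (kA 4 h494 (kA 1 h491 (kA 2 h457 (kA 3 h456 (kB 4 h6 (kA 2 h2 k0)))))); clear * - this; omega, by have := kB 1 h496 (kA 2 h494 (kB 1 h458 (kA 1 h222 (kB 1 h6 (kA 1 h2 k0))))); clear * - this; omega, by have := kB 1 h496 (kA 2 h494 (kB 1 h458 (kB 1 h157 (kB 1 h6 (kA 1 h2 k0))))); clear * - this; omega, by have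 := kB 2 h496 (kA 8 h494 (kA 1 h491 (kA 2 h457 (kA 3 h456 (kB 4 h6 (kA 2 h2 k0)))))); clear * - this; omega, by have := kB 6 h496 (kA 18 h494 (kA 1 h491 (kA 2 h457 (kA 5 h456 (kB 8 h6 (kA 6 h5 (kA 6 h2 k0))))))); clear * - this; omega, by have := kA 10 h494 (kA 3 h491 (kB 4 h458 (kA 7 h456 (kA 4 h222 (kB 6 h6 k0))))); clear * - this; omega, by have := kB 3 h496 (kA 3 h495 (kA 7 h494 (kA 5 h491 (kA 6 h490 (kB 1 h458 (kA 1 h457 (kA 2 h456 (kB 1 h157 (kB 4 h6 (kA 6 h5 (kC 3 b39 k0))))))))))); clear * - this; omega, by have := kB 4 h496 (kA 4 h495 (kA 10 h494 (kA 7 h491 (kA 8 h490 (kB 4 h458 (kA 3 h456 (kB 4 h157 (kB 6 h6 (kA 8 h5 (kC 4 b39 k0)))))))))); clear * - this; omega, by have := kB 1 h496 (kA 3 h494 (kB 1 h458 (kA 1 h456 (kB 1 h157 (kB 1 h6 (kA 1 h5 (kA 1 h2 k0))))))); clear * - this; omega, by clear * - h496; omega, by have := kA 2 h494 (kA 1 h491 (kA 1 h456 (kB 2 h6 k0))); clear * - this; omega⟩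
            exact T0_170 X hb (by clear * - h495; omega)
          exact T0_6 X hb ⟨by clear * - h492; omega, by clear * - h494; omega⟩
        exact T0_281 X hb ⟨by have := kA 1 h156 (kA 1 h5 (kC 1 b7 (kC 1 b2 k0))); clear * - this; omega, by have := kA 1 h490 (kA 1 h156 (kA 1 h5 (kC 1 b7 (kC 1 b2 k0)))); clear * - this; omega, by have := kA 1 h222 (kA 1 h156 (kA 1 h5 (kA 1 h4 (kA 1 h2 (kC 1 b32 (kC 1 b29 k0)))))); clear * - this; omega, by clear * - h491; omega⟩
      exact T0_83 X hb ⟨by clear * - b11 h157 h222; omega, by clear * - h458; omega, by clear * - h490; omega⟩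
    rcases lt_or_ge (-N + a + 2*b - d - 1) 0 with h497 | h497
    · exact T0_35 X hb ⟨by clear * - h5 h456 h497; omega, by have := kB 1 h457 (kB 1 h223 (kA 3 h222 (kA 1 h156 (kA 2 h4 (kC 1 b33 (kC 1 b28 (kC 1 b17 k0))))))); clear * - this; omega, by have := kA 2 h456 (kB 1 h6 (kA 1 h5 (kA 1 h4 (kA 1 h3 (kC 1 b17 k0))))); clear * - this; omega, by have := kA 2 h5 (kA 2 h2 (kC 1 b33 (kC 1 b24 k0))); clear * - this; omega⟩
    rcases lt_or_ge (-N - Q + i - a + l + m - d + 2) 0 with h498 | h498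
    · exact T0_43 X hb ⟨by have := kA 2 h498 (kA 1 h456 (kB 1 h157 (kB 1 h6 (kA 1 h5 (kA 1 h4 (kA 1 h2 k0)))))); clear * - this; omega, by clear * - h497 h498; omega, by have := kA 4 h498 (kB 2 h497 (kA 3 h456 (kB 5 h157 (kA 1 h156 (kB 2 h6 (kA 1 h5 (kA 5 h4 (kA 1 h2 k0)))))))); clear * - this; omega, by clear * - h457 h497; omega⟩
    rcases lt_or_ge (N + a - m + d - 2) 0 with h499 | h499
    · exact T0_5 X hb ⟨by have := kA 1 h499 (kB 1 h457 (kA 1 h456 (kA 1 h222 (kA 1 h4 k0)))); clear * - this; omega, by have := kA 1 h456 (kA 1 h222 (kA 1 h4 (kC 1 b9 k0))); clear * - this; omega⟩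
    exact T0_133 X hb ⟨by clear * - h498; omega, by have := kA 2 h456 (kA 1 h222 (kA 1 h156 (kC 1 b17 (kC 1 b7 k0)))); clear * - this; omega, by clear * - h499; omega, by clear * - h497; omega, by clear * - h457; omega, by have := kA 2 h456 (kA 1 h222 (kB 1 h6 (kC 1 b17 k0))); clear * - this; omega⟩
  rcases lt_or_ge (-Q + i + 2*a + 2*b + l + 2*d + 1) 0 with h500 | h500
  · rcases lt_or_ge (2*N - Q + i - 2*a - 2*b + l - m + 4*c) 0 with h501 | h501
    · rcases lt_or_ge (2*N + Q - i - 2*a - 2*b - l + 2*d + 2*V - 2) 0 with h502 | h502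
      · exact T0_147 X hb (by clear * - h500 h502; omega)
      exact T0_53 X hb ⟨by clear * - h502; omega, by clear * - h157 h222 h501; omega, by have := kB 1 h502 (kA 1 h500 (kA 4 h156 (kA 2 h5 (kA 2 h4 (kA 4 h2 (kC 2 b18 k0)))))); clear * - this; omega⟩
    exact T0_160 X hb ⟨by clear * - h500; omega, by have := kB 1 h223 (kA 1 h222 (kB 1 h157 (kA 2 h4 (kC 1 b39 (kC 1 b29 k0))))); clear * - this; omega, by clear * - h501; omega⟩
  exact T0_37 X hb ⟨by clear * - h223; omega, by clear * - h500; omega, by clear * - h456; omega⟩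

theorem P1 (X : C W N Q i a b l m c d L U V) (hb : B N Q i a b l m c d L U V)
    (h1 : (-N + m - c) < 0)
    (h2 : (i - b) < 0)
    (h3 : (2*N + i + l - m + 2*c + 3*d - U + 2*V - 1) < 0)
    (h4 : (c - d - V - 1) < 0)
    (h5 : (N - i - l - c + d - 2) < 0)
    (h6 : (N - 2*a - b + c - 1) ≥ 0)
    (h156 : (-N + Q - i + b - c - 1) < 0)
    (h157 : (-Q + i - a - b + l + c - d - V + 1) ≥ 0)
    (h222 : (-a - b + m - c + d + V) < 0)
    (c0x : (-N + m - c) < 0 → (i - b) < 0 → (2*N + i + l - m + 2*c + 3*d - U + 2*V - 1) < 0 → (c - d - V - 1) < 0 → (N - i - l - c + d - 2) < 0 → (N - 2*a - b + c - 1) ≥ 0 → (-N + Q - i + b - c - 1) < 0 → (-Q + i - a - b + l + c - d - V + 1) ≥ 0 → (-a - b + m - c + d + V) < 0 → (-2*N + Q - i + 2*a + 2*b - l + m - 2*c + U) < 0 → (i + 2*a + 2*b + 2*d + 2*V) < 0 → (l - m + 2*c + L - U) < 0 → (-3*N + Q - i + a + b - l + m - 3*c - 2*d + U - V) < 0 → (-2*a - b - d - V - 1) ≥ 0 → False) : False := by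
  have b2 := hb.b2
  have b3 := hb.b3
  have b11 := hb.b11
  have b19 := hb.b19
  have b28 := hb.b28
  have b29 := hb.b29
  have b33 := hb.b33
  have b36 := hb.b36
  have b38 := hb.b38
  have b39 := hb.b39
  rcases lt_or_ge (-2*N + Q - i + 2*a + 2*b - l + m - 2*c + U) 0 with h223 | h223
  · rcases lt_or_ge (i + 2*a + 2*b + 2*d + 2*V) 0 with h224 | h224
    · exact M4 X hb h1 h2 h3 h4 h5 h6 h156 h157 h222 h223 h224 c0x
    rcases lt_or_ge (-Q + 2*b) 0 with h443 | h443
    · rcases lt_or_ge (b - V - 1) 0 with h444 | h444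
      · rcases lt_or_ge (a + 2*b + c - 1) 0 with h445 | h445
        · rcases lt_or_ge (-N + a + b - c - d - V - 1) 0 with h446 | h446
          · rcases lt_or_ge (4*N - Q - 2*m + 2*c + 4*d - 2) 0 with h447 | h447
            · exact T0_160 X hb ⟨by have := kA 3 h447 (kA 4 h446 (kA 6 h445 (kB 1 h224 (kA 6 h222 (kB 2 h6 (kA 4 h2 (kC 3 b33 (kC 3 b29 k0)))))))); clear * - this; omega, by have := kA 1 h445 (kB 1 h224 (kA 2 h222 (kA 2 h4 (kA 1 h3 (kA 1 h2 (kC 1 b39 (kC 1 b36 (kC 2 b29 k0)))))))); clear * - this; omega, by clear * - h157 h222 h446; omega⟩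
            rcases lt_or_ge (4*N - Q + i + l - 3*m + 4*c + 4*d - 2) 0 with h448 | h448
            · exact T0_160 X hb ⟨by have := kA 3 h448 (kB 1 h447 (kA 6 h446 (kA 4 h445 (kB 1 h224 (kA 7 h222 (kB 1 h157 (kC 1 b33 (kC 1 b29 (kC 2 b3 k0))))))))); clear * - this; omega, by have := kA 1 h448 (kB 1 h447 (kA 2 h222 (kA 2 h4 (kC 1 b36 (kC 1 b29 k0))))); clear * - this; omega, by clear * - h157 h222 h446; omega⟩
            exact T0_103 X hb ⟨by have := kA 2 h446 (kA 2 h222 (kA 2 h4 (kC 1 b19 k0))); clear * - this; omega, by have := kA 2 h446 (kA 2 h445 (kA 2 h444 (kB 2 h224 (kA 4 h222 (kA 2 h3 (kC 1 b39 (kC 1 b28 (kC 2 b3 k0)))))))); clear * - this; omega, by clear * - b11 h5; omega, by clear * - h448; omega⟩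
          exact T0_53 X hb ⟨by have := kA 2 h444 (kC 1 b33 (kC 1 b29 (kC 1 b3 k0))); clear * - this; omega, by clear * - h446; omega, by have := kA 1 h443 (kB 1 h224 (kA 1 h223 (kA 1 h156 (kB 1 h6 (kA 2 h2 k0))))); clear * - this; omega⟩
        rcases lt_or_ge (i - a - 2*b + l + c + 1) 0 with h449 | h449
        · rcases lt_or_ge (-N + a + b - c - d - V - 1) 0 with h450 | h450
          · rcases lt_or_ge (-2*N - Q + i + 2*a + 2*b + l + 2*m - 2*c + 3) 0 with h451 | h451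
            · exact T0_33 X hb ⟨by have := kA 2 h451 (kA 8 h450 (kA 3 h449 (kA 3 h444 (kA 2 h223 (kA 13 h222 (kA 12 h5 (kA 20 h4 (kA 19 h3 (kC 17 b39 (kC 17 b29 k0)))))))))); clear * - this; omega, by have := kA 2 h451 (kA 5 h449 (kA 5 h444 (kA 1 h223 (kB 1 h157 (kA 2 h5 (kA 1 h3 (kC 4 b36 (kC 4 b29 k0)))))))); clear * - this; omega, by have := kA 2 h449 (kA 1 h443 (kA 1 h222 (kB 1 h157 (kA 2 h5 (kA 2 h4 (kC 1 b39 (kC 1 b29 k0))))))); clear * - this; omega⟩
            exact T0_168 X hb ⟨by have := kA 4 h449 (kA 4 h444 (kA 1 h223 (kA 2 h5 (kC 2 b36 (kC 2 b29 (kC 2 b19 k0)))))); clear * - this; omega, by have := kA 2 h449 (kA 2 h444 (kA 2 h5 (kC 1 b39 (kC 1 b29 (kC 1 b19 k0))))); clear * - this; omega, by clear * - h451; omega, by have := kA 2 h450 (kA 1 h223 (kA 2 h222 (kA 2 h4 (kC 1 b19 k0)))); clear * - this; omega⟩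
          exact T0_53 X hb ⟨by have := kA 2 h444 (kC 1 b33 (kC 1 b29 (kC 1 b3 k0))); clear * - this; omega, by clear * - h450; omega, by have := kA 1 h443 (kB 1 h224 (kA 1 h223 (kA 1 h156 (kB 1 h6 (kA 2 h2 k0))))); clear * - this; omega⟩
        exact T0_63 X hb ⟨by clear * - h449; omega, by have := kA 1 h444 (kB 1 h224 (kA 1 h222 (kA 1 h3 (kC 1 b39 (kC 1 b29 k0))))); clear * - this; omega, by have := kA 1 h223 (kA 2 h5 (kA 2 h2 (kC 1 b38 (kC 1 b29 k0)))); clear * - this; omega, by clear * - h445; omega⟩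
      rcases lt_or_ge (2*N + i - b + l - m + 2*c + 2*d - U + V - 1) 0 with h452 | h452
      · rcases lt_or_ge (i + a - b) 0 with h453 | h453
        · rcases lt_or_ge (-2*a - b - d - V - 1) 0 with h454 | h454
          · rcases lt_or_ge (-2*N + i + 4*a + 4*b - 2*c) 0 with h455 | h455
            · exact T0_33 X hb ⟨by have := kA 2 h454 (kA 1 h453 (kA 4 h452 (kB 2 h444 (kA 3 h443 (kB 1 h224 (kA 3 h223 (kA 1 h222 (kA 1 h4 (kC 1 b39 (kC 1 b29 k0)))))))))); clear * - this; omega, by clear * - h224 h455; omega, by have := kA 2 h454 (kA 1 h452 (kB 3 h444 (kA 1 h443 (kA 1 h223 (kA 2 h222 (kA 2 h5 (kA 4 h4 (kC 1 b39 (kC 1 b28 k0))))))))); clear * - this; omega⟩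
            exact T0_20 X hb ⟨by have := kA 1 h453 (kA 2 h452 (kA 1 h443 (kB 1 h224 (kA 1 h223 (kA 1 h222 (kA 1 h4 (kC 1 b39 (kC 1 b29 k0)))))))); clear * - this; omega, by clear * - h156 h443 h453; omega, by clear * - h455; omega⟩
          exact T0_90 X hb ⟨by have := kA 1 h443 (kB 2 h224 (kA 1 h222 (kB 1 h157 (kC 1 b11 k0)))); clear * - this; omega, by clear * - h454; omega, by have := kA 3 h452 (kB 3 h444 (kA 5 h443 (kB 4 h224 (kA 3 h223 (kB 2 h157 (kA 2 h4 (kA 6 h2 k0))))))); clear * - this; omega, by have := kB 1 h454 (kA 1 h443 (kB 1 h224 (kA 1 h223 (kA 2 h2 k0)))); clear * - this; omega⟩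
        exact T0_40 X hb ⟨by clear * - h453; omega, by have := kA 1 h452 (kB 1 h444 (kB 1 h224 (kA 1 h223 (kC 1 b3 k0)))); clear * - this; omega⟩
      exact T0_50 X hb ⟨by clear * - h452; omega, by clear * - h3 h224 h452; omega, by clear * - h444; omega⟩
    exact T0_87 X hb ⟨by clear * - h443; omega, by clear * - b2 b19 h223; omega, by clear * - h224; omega⟩
  exact M5 X hb h1 h2 h3 h4 h5 h6 h156 h157 h222 h223

end Pool.Agent.MP_a38735_al.WL.E31
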