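import Pool.Agent.MP_a38735_al.E31t0
import Pool.Agent.MP_a38735_al.E31t1
import Pool.Agent.MP_a38735_al.E31t2

set_option autoImplicit false
set_option linter.unusedVariables false
set_option linter.unusedSimpArgs false

namespace Pool.Agent.MP_a38735_al.WL.E31

variable {G : Type*} [Group G]

variable {W : ℤ → G} {N Q i a b l m c d L U V Y : ℤ}

theorem M7 (X : C W N Q i a b l m c d L U V) (hb : B N Q i a b l m c d L U V)
    (h1 : (-N + m - c) < 0)
    (h2 : (i - b) < 0)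
    (h3 : (2*N + i + l - m + 2*c + 3*d - U + 2*V - 1) < 0)
    (h4 : (c - d - V - 1) < 0)
    (h5 : (N - i - l - c + d - 2) < 0)
    (h6 : (N - 2*a - b + c - 1) < 0)
    (h7 : (3*N - a - b - m + c + 2*d - U - 3) < 0)
    (h8 : (-3*N + Q - i + a + b - l + m - 2*c - 2*d + U - V) < 0)
    (h9 : (i + a + d + V) < 0) : False := by
  have b1 := hb.b1
  have b3 := hb.b3
  have b9 := hb.b9
  have b14 := hb.b14
  have b17 := hb.b17
  have b18 := hb.b18
  have b19 := hb.b19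
  have b24 := hb.b24
  have b25 := hb.b25
  have b27 := hb.b27
  have b28 := hb.b28
  have b29 := hb.b29
  have b32 := hb.b32
  have b33 := hb.b33
  have b36 := hb.b36
  have b38 := hb.b38
  have b39 := hb.b39
  rcases lt_or_ge (2*N - i - l - m + d - 3) 0 with h10 | h10
  · rcases lt_or_ge (-N - a - b + m - c - d + 1) 0 with h11 | h11
    · rcases lt_or_ge (-N + a + b + m - c + d) 0 with h12 | h12
      · rcases lt_or_ge (-2*N + m - c - d + U + 1) 0 with h13 | h13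
        · rcases lt_or_ge (N + a + b - m + d - U + V - 3) 0 with h14 | h14
          · exact T0_287 X hb ⟨by clear * - h13 h14; omega, by clear * - h4 h7 h13; omega, by have := kA 2 h14 (kA 2 h13 (kA 1 h11 (kA 1 h10 (kA 1 h7 (kC 1 b9 k0))))); clear * - this; omega, by clear * - h4 h7 h13; omega, by clear * - h14; omega⟩
          rcases lt_or_ge (N - a - b + 2*c - d - V - 1) 0 with h15 | h15
          · rcases lt_or_ge (-a - b - d - 1) 0 with h16 | h16
            · rcases lt_or_ge (-a - b - d) 0 with h17 | h17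
              · rcases lt_or_ge (-4*N + i + 2*a + 2*b + 2*m - 2*c - 2*d + 2) 0 with h18 | h18
                · rcases lt_or_ge (-N + 2*a + b - c - 1) 0 with h19 | h19
                  · exact T0_6 X hb ⟨by have := kA 1 h17 (kA 1 h13 (kA 1 h7 (kA 1 h6 (kC 1 b33 (kC 1 b25 k0))))); clear * - this; omega, by have := kA 1 h19 (kA 1 h17 (kA 1 h13 (kA 1 h7 k0))); clear * - this; omega⟩
                  exact T0_184 X hb ⟨by have := kB 1 h19 (kA 2 h13 (kA 2 h7 (kC 1 b33 (kC 1 b29 k0)))); clear * - this; omega, by clear * - h19; omega, by have := kB 1 h14 (kA 2 h10 (kA 2 h9 (kA 1 h7 (kA 1 h4 (kC 2 b33 (kC 2 b29 k0)))))); clear * - this; omega, by have := kB 1 h19 (kA 1 h18 (kA 2 h10 (kC 1 b9 k0))); clear * - this; omega⟩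
                rcases lt_or_ge (2*N - b - m + c + d - 2) 0 with h20 | h20
                · exact T0_6 X hb ⟨by have := kA 1 h17 (kA 1 h13 (kA 1 h7 (kA 1 h6 (kC 1 b33 (kC 1 b25 k0))))); clear * - this; omega, by have := kA 1 h20 (kA 4 h17 (kA 2 h12 (kA 1 h10 (kC 1 b9 k0)))); clear * - this; omega⟩
                rcases lt_or_ge (-2*N - i + 2*b - l + m - 2*c - 2*d - 1) 0 with h21 | h21
                · exact T0_185 X hb ⟨by have := kB 1 h18 (kA 2 h13 (kA 2 h7 (kC 1 b14 (kC 2 b9 (kC 1 b3 k0))))); clear * - this; omega, by have := kA 1 h21 (kB 1 h20 (kA 2 h17 (kA 1 h15 (kB 1 h14 (kA 1 h12 (kA 1 h3 k0)))))); clear * - this; omega, by clear * - h18; omega⟩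
                exact T0_180 X hb ⟨by clear * - h21; omega, by clear * - h20; omega, by clear * - h18; omega⟩
              exact T0_71 X hb ⟨by have := kA 2 h16 (kA 1 h15 (kB 1 h14 (kA 1 h10 (kA 2 h7 (kA 1 h3 (kC 2 b39 (kC 2 b29 k0))))))); clear * - this; omega, by clear * - h16; omega, by clear * - h17; omega⟩
            exact T0_37 X hb ⟨by have := kA 2 h13 (kA 2 h7 (kC 1 b38 (kC 1 b29 k0))); clear * - this; omega, by have := kA 1 h15 (kA 1 h11 (kA 2 h10 (kA 2 h9 (kA 1 h8 (kA 1 h7 (kA 2 h6 (kC 2 b33 (kC 2 b29 (kC 1 b14 k0))))))))); clear * - this; omega, by clear * - h16; omega⟩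
          exact T0_149 X hb ⟨by clear * - h4 h15; omega, by have := kA 1 h7 (kA 1 h4 (kC 1 b39 (kC 1 b29 k0))); clear * - this; omega, by clear * - h15; omega, by clear * - h14; omega⟩
        rcases lt_or_ge (c - d - 1) 0 with h22 | h22
        · rcases lt_or_ge (N - a - b + 2*c - d - 1) 0 with h23 | h23
          · rcases lt_or_ge (-i - 2*a - 2*b - l + m - 4*d - 1) 0 with h24 | h24
            · rcases lt_or_ge (i - 4*a - 2*b + 2*l + 2*c + 2) 0 with h25 | h25
              · rcases lt_or_ge (-a + b - 1) 0 with h26 | h26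
                · exact T0_36 X hb ⟨by have := kA 2 h26 (kA 2 h24 (kA 6 h23 (kA 6 h12 (kA 8 h10 (kA 10 h2 (kC 5 b33 (kC 5 b24 k0))))))); clear * - this; omega, by have := kA 10 h26 (kA 2 h25 (kA 2 h24 (kA 3 h12 (kA 1 h11 (kA 6 h10 (kC 4 b33 (kC 4 b25 (kC 6 b3 k0)))))))); clear * - this; omega, by have := kA 6 h26 (kA 2 h24 (kA 1 h12 (kA 3 h11 (kA 6 h10 (kA 4 h9 (kA 4 h8 (kA 4 h7 (kC 4 b33 (kC 4 b24 (kC 4 b9 k0)))))))))); clear * - this; omega⟩
                exact T0_40 X hb ⟨by have := kA 2 h25 (kA 2 h24 (kA 3 h12 (kA 1 h11 (kA 6 h10 (kC 4 b9 k0))))); clear * - this; omega, by clear * - h26; omega⟩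
              exact T0_214 X hb ⟨by have := kA 1 h24 (kA 2 h10 (kA 2 h9 (kC 2 b17 (kC 2 b9 k0)))); clear * - this; omega, by have := kB 1 h25 (kB 1 h13 (kA 1 h12 (kA 1 h9 (kA 1 h6 (kA 1 h4 (kA 2 h2 (kC 1 b39 (kC 1 b29 k0)))))))); clear * - this; omega, by clear * - b24 b33 h6; omega, by clear * - h25; omega⟩
            rcases lt_or_ge (-4*N + Q + 2*m - 2*c - 4*d + 2) 0 with h27 | h27
            · rcases lt_or_ge (-a - b + m - c + d + V) 0 with h28 | h28
              · exact T0_37 X hb ⟨by have := kA 1 h11 (kA 1 h10 (kA 1 h7 (kA 2 h6 (kC 1 b33 (kC 1 b29 (kC 1 b9 (kC 1 b3 k0))))))); clear * - this; omega, by have := kA 1 h27 (kB 1 h24 (kA 1 h23 (kA 1 h22 (kA 2 h11 (kA 2 h10 (kA 1 h7 (kC 1 b39 (kC 1 b29 k0)))))))); clear * - this; omega, by have := kA 1 h28 (kA 1 h10 (kA 1 h4 (kC 1 b9 k0))); clear * - this; omega⟩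
              rcases lt_or_ge (-Q + i - a - b + l + c - d - V + 1) 0 with h29 | h29
              · exact T0_58 X hb ⟨by have := kA 2 h29 (kA 2 h23 (kA 3 h12 (kA 5 h11 (kA 8 h10 (kA 2 h9 (kA 2 h6 (kC 6 b9 k0))))))); clear * - this; omega, by have := kA 2 h29 (kA 2 h27 (kA 4 h10 (kA 2 h9 (kA 2 h6 (kC 1 b33 (kC 1 b24 k0)))))); clear * - this; omega, by have := kA 1 h27 (kB 1 h24 (kA 2 h22 (kA 1 h12 (kA 1 h11 (kA 2 h10 k0))))); clear * - this; omega⟩
              exact T0_157 X hb ⟨by have := kB 1 h28 (kB 1 h24 (kA 1 h23 (kA 1 h22 (kA 3 h11 (kA 1 h10 k0))))); clear * - this; omega, by clear * - h28; omega, by have := kA 4 h11 (kA 4 h10 (kA 2 h9 (kA 2 h6 (kC 1 b33 (kC 1 b24 (kC 2 b9 k0)))))); clear * - this; omega, by clear * - h29; omega, by have := kA 2 h11 (kC 1 b39 (kC 1 b28 (kC 2 b17 k0))); clear * - this; omega⟩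
            exact T0_171 X hb ⟨by clear * - h24; omega, by clear * - h11 h22; omega, by have := kA 1 h11 (kA 1 h10 (kA 1 h7 (kC 2 b9 k0))); clear * - this; omega, by clear * - h27; omega⟩
          rcases lt_or_ge (-N + Q - i + a + b - l - 2*c - d - 2) 0 with h30 | h30
          · exact T0_58 X hb ⟨by have := kB 1 h23 (kA 1 h22 (kA 1 h12 (kA 1 h10 (kA 2 h6 (kC 1 b9 (kC 1 b3 k0)))))); clear * - this; omega, by have := kA 2 h30 (kA 4 h6 (kC 1 b33 (kC 1 b24 (kC 2 b3 k0)))); clear * - this; omega, by have := kA 1 h30 (kB 1 h23 (kA 3 h22 (kB 1 h13 (kA 3 h12 (kA 1 h11 (kA 1 h10 (kA 2 h8 (kA 1 h3 k0)))))))); clear * - this; omega⟩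
          exact T0_44 X hb ⟨by clear * - h22 h23; omega, by clear * - h30; omega, by have := kA 1 h22 (kA 1 h7 (kC 1 b39 (kC 1 b29 k0))); clear * - this; omega, by clear * - h23; omega, by clear * - h13 h22 h23; omega⟩
        exact T0_9 X hb ⟨by clear * - h22; omega, by clear * - h13; omega⟩
      exact T0_183 X hb ⟨by have := kA 3 h11 (kA 4 h10 (kA 2 h9 (kA 2 h8 (kA 2 h7 (kA 2 h6 (kC 3 b32 (kC 3 b29 (kC 1 b14 (kC 2 b9 k0))))))))); clear * - this; omega, by have := kA 2 h9 (kA 2 h6 (kA 2 h5 (kA 2 h4 (kC 1 b33 (kC 1 b24 k0))))); clear * - this; omega, by clear * - h12; omega, by have := kA 1 h11 (kA 1 h10 (kA 2 h8 (kA 2 h7 (kA 1 h3 (kC 2 b38 (kC 2 b25 k0)))))); clear * - this; omega, by clear * - h11; omega⟩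
    rcases lt_or_ge (N + a + b - m + c + d - 1) 0 with h31 | h31
    · rcases lt_or_ge (-Q + i + 2*a + 2*b + l + 2*d + 1) 0 with h32 | h32
      · exact T0_9 X hb ⟨by have := kA 1 h32 (kA 1 h9 (kA 1 h8 (kA 2 h7 (kA 1 h6 (kC 1 b33 (kC 1 b29 (kC 1 b18 k0))))))); clear * - this; omega, by have := kA 1 h32 (kA 1 h10 (kA 1 h9 (kA 1 h7 (kA 1 h6 (kA 1 h4 (kC 1 b33 (kC 1 b29 (kC 1 b14 k0)))))))); clear * - this; omega⟩
      exact T0_37 X hb ⟨by have := kA 2 h7 (kA 2 h6 (kC 1 b33 (kC 1 b29 (kC 1 b18 (kC 1 b9 (kC 1 b3 k0)))))); clear * - this; omega, by clear * - h32; omega, by clear * - h1 h31; omega⟩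
    exact T0_312 X hb ⟨by have := kB 2 h31 (kA 2 h9 (kA 2 h6 (kA 2 h5 (kA 2 h4 (kC 1 b33 (kC 1 b24 k0)))))); clear * - this; omega, by clear * - h31; omega, by clear * - h11; omega⟩
  rcases lt_or_ge (-2*N + 2*m - 2*c - d + 1) 0 with h33 | h33
  · rcases lt_or_ge (-4*N + Q - i + a + b - l + 2*m - 3*c - 3*d + U - V + 1) 0 with h34 | h34
    · rcases lt_or_ge (-a - b - d - 1) 0 with h35 | h35
      · rcases lt_or_ge (-N - a - 2*b + 2*m - 2*c - d + 1) 0 with h36 | h36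
        · rcases lt_or_ge (-4*N + 2*a + 2*b - l + m - 2*c - 2*d + L + U + 2) 0 with h37 | h37
          · rcases lt_or_ge (2*N + Q - i - 2*m + 2*c + 2*d - 3) 0 with h38 | h38
            · rcases lt_or_ge (-a - b - d) 0 with h39 | h39
              · exact T0_58 X hb ⟨by have := kA 2 h6 (kA 2 h5 (kC 2 b9 (kC 1 b3 k0))); clear * - this; omega, by clear * - h39; omega, by have := kA 1 h37 (kA 1 h34 (kA 1 h7 (kA 1 h5 (kA 1 h4 (kA 1 h3 (kC 1 b33 k0)))))); clear * - this; omega⟩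
              exact T0_71 X hb ⟨by have := kA 1 h38 (kA 2 h35 (kA 2 h6 (kC 1 b3 k0))); clear * - this; omega, by clear * - h35; omega, by clear * - h39; omega⟩
            rcases lt_or_ge (2*N - Q + i + l - 2*m + 2*c + 2*d - 1) 0 with h40 | h40
            · rcases lt_or_ge (b + c - 1) 0 with h41 | h41
              · rcases lt_or_ge (2*N + Q - i - 2*a - 2*b - l + 2*d + 2*V - 2) 0 with h42 | h42
                · rcases lt_or_ge (4*N - Q - 2*a - 2*b - 2*m + 2*c + 2*d - 2) 0 with h43 | h43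
                  · rcases lt_or_ge (2*N - i - 2*a - 2*b + 2*c - 1) 0 with h44 | h44
                    · exact T0_83 X hb ⟨by clear * - h3 h34 h43; omega, by have := kA 1 h44 (kA 1 h43 (kA 2 h35 (kA 2 h34 (kA 2 h7 (kC 2 b9 (kC 1 b3 k0)))))); clear * - this; omega, by have := kA 2 h41 (kA 2 h40 (kA 2 h35 (kA 2 h34 (kA 1 h33 (kA 2 h5 (kA 1 h3 k0)))))); clear * - this; omega⟩
                    exact T0_178 X hb ⟨by have := kA 2 h40 (kA 1 h35 (kA 1 h34 (kA 1 h33 (kA 1 h8 (kA 1 h7 (kA 1 h3 k0)))))); clear * - this; omega, by have := kA 1 h41 (kA 1 h37 (kA 1 h36 (kA 1 h35 (kA 1 h5 (kA 2 h4 (kA 1 h3 (kC 1 b33 k0))))))); clear * - this; omega, by clear * - h44; omega, by clear * - h43; omega⟩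
                  exact T0_215 X hb ⟨by have := kB 2 h43 (kA 2 h40 (kB 1 h38 (kA 2 h35 (kA 2 h5 (kA 2 h4 k0))))); clear * - this; omega, by have := kB 8 h43 (kA 1 h42 (kA 4 h41 (kA 11 h40 (kA 4 h36 (kA 10 h35 (kA 8 h5 (kA 6 h4 k0))))))); clear * - this; omega, by clear * - h43; omega, by clear * - h40 h42; omega⟩
                exact T0_53 X hb ⟨by clear * - h42; omega, by clear * - b1 h6 h9; omega, by have := kB 1 h42 (kA 3 h40 (kA 2 h35 (kA 6 h34 (kA 2 h7 (kA 2 h5 (kA 2 h3 k0)))))); clear * - this; omega⟩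
              exact T0_6 X hb ⟨by have := kB 1 h41 (kA 2 h6 (kC 1 b33 (kC 1 b25 k0))); clear * - this; omega, by clear * - h41; omega⟩
            rcases lt_or_ge (Q - i + 2*a + 2*b - l - m - 3) 0 with h45 | h45
            · exact T0_25 X hb ⟨by have := kA 1 h36 (kA 1 h35 (kA 1 h9 (kA 3 h7 (kA 1 h4 (kC 2 b39 (kC 1 b33 (kC 1 b28 (kC 2 b25 k0)))))))); clear * - this; omega, by have := kA 2 h45 (kB 2 h38 (kA 2 h6 (kC 1 b33 (kC 1 b24 k0)))); clear * - this; omega, by have := kA 3 h45 (kA 4 h36 (kA 2 h35 (kA 8 h9 (kA 8 h7 (kA 2 h5 (kA 8 h4 (kC 8 b33 (kC 5 b28 (kC 3 b27 k0))))))))); clear * - this; omega, by have := kA 1 h45 (kA 2 h7 (kA 4 h5 (kC 1 b39 (kC 1 b38 (kC 2 b28 k0))))); clear * - this; omega, by have := kA 2 h7 (kC 1 b39 (kC 1 b28 (kC 1 b1 k0))); clear * - this; omega⟩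
            exact T0_43 X hb ⟨by clear * - h38; omega, by clear * - h45; omega, by clear * - h40; omega, by have := kA 1 h35 (kA 1 h7 (kC 1 b39 (kC 1 b25 k0))); clear * - this; omega⟩
          exact T0_170 X hb (by clear * - h37; omega)
        rcases lt_or_ge (-N - Q + i - a + l + m - d + 2) 0 with h46 | h46
        · rcases lt_or_ge (2*N - b - m + c + 2*d - 2) 0 with h47 | h47
          · rcases lt_or_ge (3*N - i - l - 2*m + c + 2*d - 4) 0 with h48 | h48
            · exact T0_50 X hb ⟨by clear * - h34 h46 h48; omega, by have := kA 1 h48 (kA 2 h47 (kB 2 h36 (kA 1 h35 (kA 4 h33 (kA 1 h7 (kA 2 h6 (kA 1 h3 (kC 2 b33 (kC 2 b29 k0))))))))); clear * - this; omega, by have := kA 1 h47 (kA 1 h35 (kA 1 h34 (kC 1 b19 k0))); clear * - this; omega⟩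
            exact T0_298 X hb ⟨by clear * - h35 h36 h47; omega, by have := kA 1 h47 (kB 1 h36 (kA 1 h35 (kA 2 h33 k0))); clear * - this; omega, by clear * - h48; omega⟩
          rcases lt_or_ge (-2*N - i + 2*b - l + m - 2*c - 4*d - 1) 0 with h49 | h49
          · rcases lt_or_ge (c - d - 1) 0 with h50 | h50
            · exact T0_12 X hb ⟨by have := kA 2 h49 (kB 1 h36 (kA 1 h35 (kA 5 h9 (kA 3 h5 (kC 5 b17 k0))))); clear * - this; omega, by have := kA 1 h49 (kA 1 h34 (kA 1 h9 (kA 3 h7 (kA 1 h6 (kC 2 b33 (kC 2 b28 (kC 1 b3 k0))))))); clear * - this; omega⟩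
            exact T0_9 X hb ⟨by clear * - h50; omega, by have := kA 2 h49 (kB 1 h36 (kA 6 h35 (kA 5 h9 (kA 10 h7 (kA 3 h5 (kA 5 h4 (kC 5 b33 (kC 5 b25 k0)))))))); clear * - this; omega⟩
          exact T0_25 X hb ⟨by clear * - h49; omega, by clear * - h47; omega, by have := kA 1 h35 (kA 2 h9 (kA 1 h7 (kA 1 h5 (kA 2 h4 (kC 1 b33 (kC 1 b24 k0)))))); clear * - this; omega, by have := kB 1 h49 (kB 2 h36 (kA 2 h35 (kA 6 h5 k0))); clear * - this; omega, by have := kA 2 h7 (kC 1 b39 (kC 1 b28 (kC 1 b1 k0))); clear * - this; omega⟩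
        rcases lt_or_ge (-N + a + 2*b - d - 1) 0 with h51 | h51
        · rcases lt_or_ge (c - d - 1) 0 with h52 | h52
          · rcases lt_or_ge (2*N + Q - i - 2*a - 2*b - l + 2*d + 2*V - 2) 0 with h53 | h53
            · exact T0_88 X hb ⟨by have := kA 1 h51 (kA 1 h34 (kA 1 h7 (kA 1 h6 (kC 1 b33 (kC 1 b28 (kC 1 b3 k0)))))); clear * - this; omega, by have := kA 2 h53 (kA 3 h52 (kA 11 h51 (kB 2 h46 (kA 3 h35 (kA 5 h33 (kA 12 h7 (kA 7 h6 (kC 8 b33 (kC 8 b28 (kC 8 b3 k0)))))))))); clear * - this; omega, by have := kA 2 h51 (kA 2 h35 (kA 2 h9 (kA 2 h5 (kC 1 b33 (kC 1 b24 k0))))); clear * - this; omega⟩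
            rcases lt_or_ge (4*N - Q + i - 2*a - 2*b + l - m + 4*c + 2*d - U + 2*V - 1) 0 with h54 | h54
            · exact T0_36 X hb ⟨by have := kA 2 h54 (kA 2 h52 (kA 2 h35 (kA 4 h34 (kA 6 h7 (kC 1 b39 (kC 2 b33 (kC 3 b28 (kC 2 b3 k0)))))))); clear * - this; omega, by have := kA 1 h54 (kB 2 h53 (kA 6 h51 (kA 4 h35 (kA 3 h33 (kA 4 h7 (kA 4 h5 (kA 1 h3 (kC 3 b39 (kC 3 b28 k0))))))))); clear * - this; omega, by have := kA 5 h51 (kB 1 h36 (kA 4 h35 (kA 2 h34 (kA 2 h33 (kA 2 h9 (kA 6 h7 (kA 2 h5 (kC 4 b33 (kC 4 b28 k0))))))))); clear * - this; omega⟩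
            exact T0_53 X hb ⟨by clear * - h53; omega, by have := kA 2 h52 (kA 1 h35 (kA 1 h33 (kA 1 h7 (kA 1 h5 (kA 1 h3 (kC 1 b39 (kC 1 b28 k0))))))); clear * - this; omega, by clear * - h54; omega⟩
          exact T0_9 X hb ⟨by clear * - h52; omega, by have := kA 1 h51 (kA 1 h9 (kA 2 h7 (kA 1 h5 (kA 1 h4 (kC 1 b33 (kC 1 b29 k0)))))); clear * - this; omega⟩
        rcases lt_or_ge (N + a + 2*b - m + 2*c + d - 2) 0 with h55 | h55
        · rcases lt_or_ge (-a - b - d) 0 with h56 | h56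
          · exact T0_58 X hb ⟨by have := kA 2 h6 (kA 2 h5 (kC 2 b9 (kC 1 b3 k0))); clear * - this; omega, by clear * - h56; omega, by clear * - h33 h36 h46; omega⟩
          exact T0_71 X hb ⟨by clear * - h35 h51 h55; omega, by clear * - h35; omega, by clear * - h56; omega⟩
        exact T0_133 X hb ⟨by clear * - h46; omega, by have := kB 1 h55 (kB 1 h51 (kB 1 h36 (kA 4 h33 (kA 2 h7 (kA 6 h6 (kC 5 b33 (kC 3 b29 (kC 2 b28 k0)))))))); clear * - this; omega, by have := kB 1 h55 (kB 4 h36 (kA 2 h35 (kA 8 h33 (kA 4 h6 (kA 2 h5 (kA 4 h4 (kA 2 h3 (kC 2 b39 (kC 2 b29 k0))))))))); clear * - this; omega, by clear * - h51; omega, by clear * - h36; omega, by clear * - h55; omega⟩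
      rcases lt_or_ge (-Q + i + 2*a + 2*b + l + 2*d + 1) 0 with h57 | h57
      · exact T0_12 X hb ⟨by have := kA 1 h57 (kA 1 h34 (kA 1 h9 (kA 1 h7 (kA 1 h6 (kC 1 b36 (kC 1 b29 k0)))))); clear * - this; omega, by have := kA 1 h57 (kA 1 h34 (kA 1 h9 (kA 3 h7 (kA 1 h6 (kC 1 b39 (kC 1 b33 (kC 2 b29 (kC 1 b18 k0)))))))); clear * - this; omega⟩
      exact T0_37 X hb ⟨by have := kA 2 h7 (kA 2 h6 (kC 1 b33 (kC 1 b29 (kC 1 b18 (kC 1 b9 (kC 1 b3 k0)))))); clear * - this; omega, by clear * - h57; omega, by clear * - h35; omega⟩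
    rcases lt_or_ge (-i - a - b - l - c - d + U - V - 1) 0 with h58 | h58
    · rcases lt_or_ge (2*N - i - 2*a - 2*b + 2*c - 1) 0 with h59 | h59
      · rcases lt_or_ge (-N + Q - i - a + b - c - 1) 0 with h60 | h60
        · rcases lt_or_ge (N + a + b - m + 2*d - 2) 0 with h61 | h61
          · rcases lt_or_ge (-Q + i + 2*a + 2*b + l + 2*d + 1) 0 with h62 | h62
            · exact T0_36 X hb ⟨by have := kA 2 h61 (kA 2 h59 (kA 1 h33 (kB 1 h10 (kA 2 h2 (kC 1 b36 (kC 1 b29 k0)))))); clear * - this; omega, by have := kA 2 h62 (kA 2 h6 (kC 1 b36 (kC 1 b29 (kC 1 b14 k0)))); clear * - this; omega, by have := kA 2 h61 (kA 2 h60 (kA 1 h33 (kB 1 h10 (kC 1 b36 (kC 1 b29 k0))))); clear * - this; omega⟩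
            exact T0_37 X hb ⟨by have := kB 2 h62 (kA 2 h61 (kA 6 h58 (kB 6 h34 (kA 4 h33 (kB 6 h10 (kA 4 h7 (kC 5 b38 (kC 5 b29 k0)))))))); clear * - this; omega, by clear * - h62; omega, by have := kA 8 h61 (kA 1 h60 (kA 3 h59 (kA 4 h33 (kA 2 h9 (kA 1 h8 (kA 3 h4 (kA 1 h3 (kC 2 b32 (kC 2 b29 k0))))))))); clear * - this; omega⟩
          rcases lt_or_ge (-4*N + Q + 2*m - 2*c - 4*d + 2) 0 with h63 | h63
          · exact T0_58 X hb ⟨by have := kA 1 h59 (kA 3 h58 (kB 1 h34 (kA 2 h33 (kA 2 h9 (kA 2 h7 (kA 2 h6 (kA 2 h5 (kC 2 b32 (kC 2 b25 (kC 4 b9 k0)))))))))); clear * - this; omega, by clear * - h34 h58 h63; omega, by have := kA 3 h63 (kA 2 h60 (kA 2 h59 (kA 1 h58 (kB 1 h34 (kA 4 h9 (kA 10 h5 (kA 4 h4 (kC 6 b9 k0)))))))); clear * - this; omega⟩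
          exact T0_171 X hb ⟨by have := kB 3 h63 (kB 8 h61 (kA 6 h60 (kA 6 h59 (kA 15 h58 (kB 3 h34 (kA 4 h33 (kA 12 h9 (kA 12 h7 (kA 10 h5 (kC 30 b9 k0)))))))))); clear * - this; omega, by clear * - h61; omega, by clear * - b9 b18 h7; omega, by clear * - h63; omega⟩
        exact T0_32 X hb ⟨by clear * - h60; omega, by have := kA 3 h59 (kA 2 h5 (kC 1 b33 (kC 1 b29 (kC 5 b9 k0)))); clear * - this; omega⟩
      exact T0_178 X hb ⟨by have := kA 2 h58 (kA 1 h33 (kA 2 h7 (kA 1 h3 (kC 1 b39 (kC 1 b29 (kC 2 b9 k0)))))); clear * - this; omega, by have := kA 1 h33 (kA 2 h4 (kA 1 h3 (kC 1 b18 k0))); clear * - this; omega, by clear * - h59; omega, by clear * - h34 h58; omega⟩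
    rcases lt_or_ge (4*N - a - b + l - 2*m + 3*c + 3*d - U + V - 3) 0 with h64 | h64
    · exact T0_296 X hb ⟨by have := kA 1 h64 (kA 1 h7 (kA 1 h6 (kC 1 b18 (kC 1 b9 k0)))); clear * - this; omega, by have := kA 1 h64 (kB 1 h10 (kA 1 h9 (kC 2 b18 (kC 3 b17 k0)))); clear * - this; omega, by have := kB 1 h58 (kA 1 h7 (kA 1 h6 (kC 1 b18 (kC 1 b9 k0)))); clear * - this; omega⟩
    exact T0_172 X hb ⟨by clear * - h64; omega, by have := kA 2 h33 (kA 2 h7 (kC 3 b39 (kC 2 b29 (kC 1 b28 (kC 2 b17 k0))))); clear * - this; omega, by clear * - h58; omega, by clear * - h34; omega⟩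
  exact T0_5 X hb ⟨by clear * - h33; omega, by clear * - h10; omega⟩

theorem M8 (X : C W N Q i a b l m c d L U V) (hb : B N Q i a b l m c d L U V)
    (h2 : (i - b) < 0)
    (h3 : (2*N + i + l - m + 2*c + 3*d - U + 2*V - 1) < 0)
    (h4 : (c - d - V - 1) < 0)
    (h5 : (N - i - l - c + d - 2) < 0)
    (h6 : (N - 2*a - b + c - 1) < 0)
    (h7 : (3*N - a - b - m + c + 2*d - U - 3) ≥ 0)
    (h76 : (-3*N + Q - i + a + b - l + m - 3*c - 2*d + U - 2*V) < 0)
    (h77 : (2*N + i - b + l - m + 2*c + 2*d - U + V - 1) < 0)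
    (h78 : (-2*N + 2*m - 2*c - d + 1) < 0) : False := by
  have b3 := hb.b3
  have b6 := hb.b6
  have b9 := hb.b9
  have b11 := hb.b11
  have b14 := hb.b14
  have b17 := hb.b17
  have b18 := hb.b18
  have b19 := hb.b19
  have b24 := hb.b24
  have b25 := hb.b25
  have b28 := hb.b28
  have b29 := hb.b29
  have b33 := hb.b33
  have b34 := hb.b34
  have b36 := hb.b36
  have b38 := hb.b38
  have b39 := hb.b39
  rcases lt_or_ge (2*N - b - m + c + 2*d - 2) 0 with h79 | h79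
  · rcases lt_or_ge (N - a - b + 2*c - d - V - 1) 0 with h80 | h80
    · rcases lt_or_ge (-a - b - d - 1) 0 with h81 | h81
      · rcases lt_or_ge (-a - b - d) 0 with h82 | h82
        · rcases lt_or_ge (2*N - Q + i + l - m + 2*c + 2*d - 1) 0 with h83 | h83
          · rcases lt_or_ge (-i - 2*a - 2*b - l + m - 2*d + U) 0 with h84 | h84
            · exact T0_238 X hb ⟨by have := kA 1 h82 (kA 1 h80 (kA 5 h78 (kA 2 h76 (kC 2 b38 (kC 2 b29 k0))))); clear * - this; omega, by have := kA 1 h84 (kA 2 h83 (kA 1 h82 (kA 2 h76 (kB 1 h7 (kA 1 h5 (kA 4 h3 k0)))))); clear * - this; omega, by have := kA 2 h84 (kA 8 h83 (kA 2 h82 (kA 2 h80 (kA 5 h78 (kA 8 h76 (kA 2 h5 (kA 9 h3 (kC 6 b36 (kC 6 b29 k0))))))))); clear * - this; omega⟩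
            exact T0_171 X hb ⟨by have := kB 3 h84 (kA 2 h83 (kA 1 h82 (kA 4 h77 (kA 2 h76 (kB 5 h7 (kA 4 h6 (kA 5 h5 k0))))))); clear * - this; omega, by have := kB 1 h84 (kA 4 h82 (kA 2 h80 (kA 1 h78 (kB 2 h7 (kA 2 h5 (kA 1 h3 k0)))))); clear * - this; omega, by clear * - h84; omega, by have := kB 3 h84 (kA 4 h83 (kA 9 h82 (kA 4 h80 (kA 2 h76 (kB 5 h7 (kA 9 h5 (kA 4 h3 k0))))))); clear * - this; omega⟩
          rcases lt_or_ge (2*N - Q + i - 2*a - 2*b + l - m + 2*c) 0 with h85 | h85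
          · rcases lt_or_ge (-i - 2*a - 2*b - l + m - 2*d + U) 0 with h86 | h86
            · rcases lt_or_ge (-2*N - i - l + m - 2*c - 4*d - 2*V - 1) 0 with h87 | h87
              · rcases lt_or_ge (b + d + V - 1) 0 with h88 | h88
                · exact T0_178 X hb ⟨by have := kA 3 h88 (kA 1 h85 (kA 2 h79 (kA 1 h78 (kA 1 h77 (kA 2 h76 (kC 1 b38 (kC 1 b29 k0))))))); clear * - this; omega, by have := kA 2 h88 (kA 1 h87 (kA 1 h80 (kA 1 h79 (kA 1 h78 (kA 1 h77 (kB 1 h7 k0)))))); clear * - this; omega, by have := kA 4 h88 (kA 1 h87 (kA 1 h85 (kA 2 h77 (kA 2 h76 (kC 1 b3 k0))))); clear * - this; omega, by have := kA 2 h88 (kA 1 h87 (kA 1 h85 (kA 2 h79 k0))); clear * - this; omega⟩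
                exact T0_83 X hb ⟨by have := kA 1 h87 (kA 2 h86 (kA 1 h85 (kA 4 h76 (kB 2 h7 (kA 2 h5 (kA 8 h3 k0)))))); clear * - this; omega, by clear * - h88; omega, by have := kA 1 h86 (kA 1 h85 (kB 1 h83 (kA 2 h6 (kA 4 h5 (kC 4 b9 k0))))); clear * - this; omega⟩
              exact T0_238 X hb ⟨by have := kA 1 h85 (kB 1 h83 (kA 2 h80 (kA 10 h78 (kA 4 h76 (kC 4 b38 (kC 4 b29 k0)))))); clear * - this; omega, by clear * - h87; omega, by have := kB 11 h87 (kA 11 h85 (kB 1 h83 (kA 2 h80 (kA 6 h79 (kA 10 h76 (kA 6 h6 (kA 8 h5 (kC 13 b36 (kC 13 b25 k0))))))))); clear * - this; omega⟩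
            exact T0_171 X hb ⟨by have := kB 14 h86 (kA 19 h85 (kB 7 h83 (kA 16 h80 (kA 4 h78 (kA 12 h76 (kB 22 h7 (kA 30 h5 (kA 20 h3 k0)))))))); clear * - this; omega, by have := kB 1 h86 (kA 2 h85 (kB 2 h83 (kA 2 h80 (kA 1 h78 (kB 2 h7 (kA 2 h5 (kA 1 h3 k0))))))); clear * - this; omega, by clear * - h86; omega, by have := kB 6 h86 (kA 9 h85 (kB 1 h83 (kA 8 h80 (kA 4 h76 (kB 10 h7 (kA 18 h5 (kA 8 h3 k0))))))); clear * - this; omega⟩
          exact T0_58 X hb ⟨by have := kA 2 h6 (kA 2 h5 (kC 2 b9 (kC 1 b3 k0))); clear * - this; omega, by clear * - h82; omega, by clear * - h85; omega⟩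
        rcases lt_or_ge (-2*N + 2*a + 2*b + m - 2*c) 0 with h89 | h89
        · rcases lt_or_ge (-Q - 2*d - 2*V) 0 with h90 | h90
          · exact T0_14 X hb ⟨by have := kA 1 h77 (kB 1 h7 (kA 1 h6 (kA 1 h5 k0))); clear * - this; omega, by clear * - h90; omega, by have := kA 1 h90 (kA 1 h81 (kA 2 h76 (kB 1 h7 (kA 1 h5 (kA 2 h3 k0))))); clear * - this; omega⟩
          exact T0_83 X hb ⟨by clear * - h90; omega, by have := kA 5 h89 (kA 8 h81 (kA 3 h80 (kA 5 h79 (kA 1 h76 (kC 1 b38 (kC 1 b29 k0)))))); clear * - this; omega, by have := kA 4 h89 (kA 2 h79 (kA 4 h6 (kC 1 b39 (kC 1 b36 (kC 2 b29 k0))))); clear * - this; omega⟩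
        exact T0_71 X hb ⟨by clear * - h89; omega, by clear * - h81; omega, by clear * - h82; omega⟩
      rcases lt_or_ge (-2*N + Q - i + 2*a + 2*b - l + m - 2*c + U) 0 with h91 | h91
      · rcases lt_or_ge (-Q + 2*b) 0 with h92 | h92
        · exact T0_36 X hb ⟨by have := kA 2 h80 (kA 2 h79 (kA 1 h78 (kA 2 h77 (kA 1 h6 (kA 1 h5 (kA 1 h2 (kC 1 b33 (kC 1 b29 (kC 2 b18 k0))))))))); clear * - this; omega, by clear * - h92; omega, by have := kA 3 h92 (kA 2 h91 (kA 6 h77 (kA 3 h76 (kB 1 h7 (kA 4 h6 (kC 2 b33 (kC 2 b29 (kC 3 b6 k0)))))))); clear * - this; omega⟩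
        rcases lt_or_ge (i + 2*a + 2*b + 2*d + 2*V) 0 with h93 | h93
        · rcases lt_or_ge (2*N - a - 2*b - m + c + d - 2) 0 with h94 | h94
          · rcases lt_or_ge (l - m + 2*c + L - U) 0 with h95 | h95
            · rcases lt_or_ge (i - 4*a - 2*b + 2*l + 2*c + 2) 0 with h96 | h96
              · rcases lt_or_ge (-3*N + Q - i + a + b - l + m - 3*c - 2*d + U - V) 0 with h97 | h97
                · rcases lt_or_ge (-4*N - i - 2*a - 2*b - l + 3*m - 4*c - 4*d + 2*U - 2*V + 3) 0 with h98 | h98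
                  · rcases lt_or_ge (-2*a - b - d - V - 1) 0 with h99 | h99
                    · exact T0_93 X hb ⟨by have := kA 3 h99 (kA 3 h98 (kA 2 h97 (kA 4 h95 (kA 3 h94 (kA 6 h93 (kA 2 h91 (kA 1 h80 (kA 3 h5 (kC 4 b38 k0))))))))); clear * - this; omega, by have := kA 6 h99 (kA 4 h98 (kA 2 h97 (kA 1 h96 (kA 8 h95 (kA 4 h94 (kA 9 h93 (kB 2 h92 (kA 4 h91 (kA 2 h80 (kA 8 h5 (kC 8 b38 k0))))))))))); clear * - this; omega, by have := kA 3 h99 (kA 3 h98 (kA 2 h97 (kA 4 h95 (kA 3 h94 (kA 4 h93 (kA 2 h91 (kA 1 h80 (kA 3 h5 (kC 4 b38 k0))))))))); clear * - this; omega, by have := kA 3 h99 (kA 3 h98 (kA 7 h95 (kA 3 h94 (kA 14 h93 (kA 9 h80 (kB 1 h7 (kC 7 b33 (kC 11 b6 k0)))))))); clear * - this; omega⟩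
                    exact T0_90 X hb ⟨by have := kA 1 h98 (kA 2 h97 (kA 1 h96 (kA 2 h95 (kA 1 h94 (kA 2 h93 (kA 1 h80 (kA 3 h5 (kC 2 b38 k0)))))))); clear * - this; omega, by clear * - h99; omega, by have := kB 2 h99 (kA 4 h98 (kA 1 h97 (kA 7 h95 (kA 4 h94 (kA 8 h93 (kB 1 h92 (kA 5 h76 (kA 7 h6 (kA 5 h5 (kC 7 b38 k0)))))))))); clear * - this; omega, by have := kA 6 h98 (kA 2 h97 (kA 1 h96 (kA 8 h95 (kA 6 h94 (kA 13 h93 (kA 4 h80 (kA 6 h76 (kA 8 h5 (kC 8 b38 k0))))))))); clear * - this; omega⟩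
                  exact T0_313 X hb ⟨by clear * - h98; omega, by clear * - b6 h4 h93; omega, by have := kB 1 h98 (kA 1 h95 (kA 1 h78 (kA 1 h6 (kA 1 h5 (kA 1 h2 (kC 1 b39 k0)))))); clear * - this; omega, by have := kA 4 h97 (kA 1 h96 (kA 2 h95 (kA 1 h93 (kA 6 h6 (kA 2 h5 (kC 2 b33 (kC 4 b3 k0))))))); clear * - this; omega, by have := kA 1 h95 (kA 2 h93 (kA 2 h80 (kC 1 b33 (kC 3 b6 k0)))); clear * - this; omega⟩
                exact T0_88 X hb ⟨by clear * - h7 h76 h97; omega, by clear * - h97; omega, by have := kA 1 h93 (kC 1 b33 (kC 1 b29 (kC 1 b6 k0))); clear * - this; omega⟩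
              rcases lt_or_ge (-i - 4*a - 2*b + l + m + 1) 0 with h100 | h100
              · exact T0_88 X hb ⟨by clear * - b17 h7; omega, by have := kA 2 h100 (kB 1 h96 (kA 2 h95 (kA 2 h94 (kA 3 h93 (kA 2 h76 (kA 4 h6 (kC 2 b38 (kC 2 b3 k0)))))))); clear * - this; omega, by have := kA 2 h100 (kB 1 h96 (kA 2 h94 (kA 3 h93 (kA 2 h76 (kC 2 b38 (kC 2 b29 k0)))))); clear * - this; omega⟩
              exact T0_214 X hb ⟨by clear * - h100; omega, by have := kB 1 h100 (kA 1 h95 (kA 1 h78 (kA 1 h6 (kA 1 h5 (kA 1 h2 (kC 1 b39 k0)))))); clear * - this; omega, by clear * - b24 b33 h6; omega, by clear * - h96; omega⟩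
            exact T0_89 X hb (by clear * - h95; omega)
          exact T0_96 X hb ⟨by have := kB 2 h94 (kA 6 h79 (kA 1 h78 (kA 3 h6 (kA 1 h5 (kA 3 h2 (kC 3 b33 (kC 3 b29 k0))))))); clear * - this; omega, by clear * - h94; omega, by have := kB 1 h94 (kB 2 h92 (kA 7 h79 (kA 5 h78 (kA 2 h77 (kA 1 h76 (kA 1 h6 (kA 4 h5 (kA 11 h2 (kC 4 b39 (kC 3 b38 (kC 7 b29 k0))))))))))); clear * - this; omega, by have := kB 1 h94 (kA 1 h93 (kA 7 h79 (kA 1 h76 (kA 6 h6 (kA 3 h5 (kC 1 b38 (kC 2 b36 (kC 1 b33 (kC 4 b29 k0))))))))); clear * - this; omega, by have := kA 2 h79 (kA 2 h6 (kC 1 b33 (kC 1 b29 (kC 1 b6 k0)))); clear * - this; omega⟩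
        exact T0_87 X hb ⟨by clear * - h92; omega, by have := kA 1 h91 (kA 2 h76 (kA 2 h6 (kC 3 b19 k0))); clear * - this; omega, by clear * - h93; omega⟩
      rcases lt_or_ge (-Q + i + 2*a + 2*b + l + 2*d + 1) 0 with h101 | h101
      · rcases lt_or_ge (2*N + Q - i - 2*a - 2*b - l + 2*d + 2*V - 2) 0 with h102 | h102
        · exact T0_36 X hb ⟨by have := kA 1 h102 (kA 1 h101 (kA 2 h80 (kA 2 h5 (kA 2 h2 (kC 2 b33 (kC 2 b29 k0)))))); clear * - this; omega, by have := kA 2 h101 (kA 2 h6 (kC 1 b36 (kC 1 b29 (kC 1 b14 k0)))); clear * - this; omega, by have := kA 1 h102 (kA 4 h101 (kA 2 h77 (kA 2 h76 (kA 4 h6 (kC 2 b36 (kC 1 b33 (kC 3 b29 (kC 2 b14 k0)))))))); clear * - this; omega⟩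
        exact T0_53 X hb ⟨by clear * - h102; omega, by have := kA 1 h77 (kB 1 h7 (kA 1 h6 (kA 1 h5 k0))); clear * - this; omega, by have := kA 1 h101 (kA 2 h76 (kC 1 b34 (kC 1 b29 k0))); clear * - this; omega⟩
      exact T0_37 X hb ⟨by clear * - h91; omega, by clear * - h101; omega, by clear * - h81; omega⟩
    rcases lt_or_ge (N + a + b - m + d - U + V - 3) 0 with h103 | h103
    · rcases lt_or_ge (-N + a + b + m - 2*c + d) 0 with h104 | h104
      · exact T0_37 X hb ⟨by have := kA 2 h104 (kA 3 h103 (kA 2 h79 (kA 1 h76 (kA 8 h6 (kA 1 h4 (kC 3 b33 (kC 3 b29 (kC 3 b3 k0)))))))); clear * - this; omega, by have := kA 1 h103 (kA 2 h77 (kA 1 h76 (kA 2 h6 (kA 1 h4 (kC 2 b18 k0))))); clear * - this; omega, by have := kA 1 h104 (kA 1 h103 (kA 1 h79 (kB 1 h7 (kA 1 h6 (kA 1 h4 k0))))); clear * - this; omega⟩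
      rcases lt_or_ge (-N - a - b + m - d + U + 1) 0 with h105 | h105
      · exact T0_278 X hb ⟨by clear * - h103 h105; omega, by have := kA 1 h105 (kB 1 h80 (kA 2 h4 (kC 1 b17 k0))); clear * - this; omega, by have := kA 2 h105 (kB 1 h80 (kA 2 h79 (kA 1 h76 (kA 2 h6 (kA 3 h4 (kC 1 b38 (kC 1 b29 k0))))))); clear * - this; omega, by clear * - h80 h103; omega, by clear * - b17 h105; omega, by clear * - h103; omega⟩
      rcases lt_or_ge (-N + Q - i + a + b - l - 2*c - d - 2) 0 with h106 | h106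
      · exact T0_58 X hb ⟨by have := kA 2 h6 (kA 2 h5 (kC 2 b9 (kC 1 b3 k0))); clear * - this; omega, by have := kA 2 h106 (kA 4 h6 (kC 1 b33 (kC 1 b24 (kC 2 b3 k0)))); clear * - this; omega, by have := kA 3 h106 (kB 6 h105 (kB 5 h104 (kA 10 h78 (kA 12 h76 (kB 14 h7 (kA 20 h5 (kA 16 h4 (kA 20 h3 k0)))))))); clear * - this; omega⟩
      exact T0_44 X hb ⟨by clear * - h4 h7 h103; omega, by clear * - h106; omega, by clear * - h104; omega, by clear * - b17 h80; omega, by clear * - h105; omega⟩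
    rcases lt_or_ge (-N + a + b + m - 2*c + d + V) 0 with h107 | h107
    · exact T0_88 X hb ⟨by have := kB 1 h103 (kB 2 h80 (kB 1 h7 (kA 3 h4 k0))); clear * - this; omega, by have := kA 2 h107 (kA 2 h79 (kA 2 h6 (kA 2 h4 (kC 1 b38 (kC 1 b29 (kC 1 b19 k0)))))); clear * - this; omega, by have := kA 2 h107 (kC 1 b36 (kC 1 b29 (kC 1 b11 k0))); clear * - this; omega⟩
    exact T0_149 X hb ⟨by clear * - h4 h80; omega, by clear * - h107; omega, by clear * - h80; omega, by clear * - h103; omega⟩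
  rcases lt_or_ge (-4*N + i + 2*a + 2*b + 2*m - 2*c - 4*d + 2) 0 with h108 | h108
  · rcases lt_or_ge (-2*N - i + 2*a + 4*b - l + m - 2*c - 2*d - 1) 0 with h109 | h109
    · rcases lt_or_ge (-2*N + Q - i + 2*a + 2*b - l + m - 2*c + U) 0 with h110 | h110
      · rcases lt_or_ge (Q - i - l - m - 2*d - 3) 0 with h111 | h111
        · exact T0_40 X hb ⟨by have := kA 1 h109 (kA 2 h6 (kA 2 h5 (kC 1 b33 (kC 1 b24 (kC 1 b11 k0))))); clear * - this; omega, by have := kA 8 h111 (kA 8 h110 (kA 2 h109 (kA 2 h108 (kB 2 h79 (kA 16 h77 (kA 8 h76 (kA 34 h6 (kA 16 h5 (kC 13 b33 (kC 13 b24 (kC 24 b3 k0))))))))))); clear * - this; omega⟩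
        exact T0_103 X hb ⟨by have := kA 1 h110 (kA 2 h109 (kA 4 h77 (kA 2 h76 (kA 8 h6 (kC 2 b33 (kC 2 b24 (kC 2 b6 (kC 4 b3 k0)))))))); clear * - this; omega, by clear * - h111; omega, by clear * - b11 h5; omega, by have := kA 1 h109 (kA 1 h108 (kA 4 h77 (kA 2 h76 (kA 4 h6 (kA 2 h5 (kC 1 b33 (kC 1 b24 (kC 2 b18 (kC 1 b3 k0))))))))); clear * - this; omega⟩
      exact T0_37 X hb ⟨by clear * - h110; omega, by have := kB 2 h110 (kA 3 h109 (kA 14 h77 (kA 6 h76 (kA 8 h6 (kA 4 h5 (kA 2 h4 (kC 3 b39 (kC 3 b29 (kC 7 b18 k0))))))))); clear * - this; omega, by have := kA 1 h109 (kA 2 h77 (kA 1 h76 (kA 2 h6 (kA 1 h5 (kC 1 b33 (kC 1 b28 (kC 1 b3 k0))))))); clear * - this; omega⟩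
    exact T0_218 X hb ⟨by clear * - h109; omega, by have := kB 8 h109 (kA 5 h108 (kA 6 h77 (kA 2 h76 (kB 4 h7 (kA 14 h5 (kA 2 h4 (kA 12 h2 (kC 2 b39 (kC 2 b38 (kC 4 b29 k0)))))))))); clear * - this; omega, by have := kA 1 h108 (kA 2 h6 (kA 2 h5 (kC 1 b33 (kC 1 b25 k0)))); clear * - this; omega, by have := kA 1 h108 (kA 2 h6 (kA 2 h5 (kC 1 b33 (kC 1 b24 k0)))); clear * - this; omega, by clear * - b11 h5; omega⟩
  rcases lt_or_ge (-2*N - i + 2*b - l + m - 2*c - 4*d - 1) 0 with h112 | h112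
  · rcases lt_or_ge (a + b + c - 1) 0 with h113 | h113
    · rcases lt_or_ge (i + a + d + V) 0 with h114 | h114
      · exact T0_40 X hb ⟨by have := kA 3 h113 (kA 10 h112 (kB 12 h108 (kA 7 h78 (kA 1 h77 (kB 1 h7 (kA 5 h6 (kA 1 h4 (kC 9 b9 k0)))))))); clear * - this; omega, by have := kA 2 h113 (kA 6 h112 (kB 6 h108 (kA 4 h78 (kA 12 h77 (kA 6 h76 (kB 4 h7 (kA 4 h6 (kC 1 b39 (kC 1 b28 (kC 6 b3 k0)))))))))); clear * - this; omega⟩
      exact T0_2 X hb ⟨by clear * - h114; omega, by clear * - h5 h7 h77; omega, by have := kB 1 h7 (kA 1 h5 (kA 1 h2 (kC 1 b17 k0))); clear * - this; omega⟩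
    exact T0_12 X hb ⟨by have := kA 4 h112 (kB 3 h108 (kA 1 h78 (kA 1 h77 (kA 6 h76 (kB 1 h7 (kA 5 h6 (kA 1 h4 (kA 6 h3 (kC 6 b3 k0))))))))); clear * - this; omega, by clear * - h113; omega⟩
  exact T0_25 X hb ⟨by clear * - h112; omega, by clear * - h79; omega, by have := kA 2 h77 (kA 2 h5 (kA 2 h4 (kA 2 h2 (kC 1 b33 (kC 1 b24 k0))))); clear * - this; omega, by clear * - b11 h5; omega, by clear * - h108; omega⟩

theorem P2 (X : C W N Q i a b l m c d L U V) (hb : B N Q i a b l m c d L U V)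
    (h1 : (-N + m - c) < 0)
    (h2 : (i - b) < 0)
    (h3 : (2*N + i + l - m + 2*c + 3*d - U + 2*V - 1) < 0)
    (h4 : (c - d - V - 1) < 0)
    (h5 : (N - i - l - c + d - 2) < 0)
    (h6 : (N - 2*a - b + c - 1) < 0) : False := by
  have b1 := hb.b1
  have b3 := hb.b3
  have b6 := hb.b6
  have b9 := hb.b9
  have b17 := hb.b17
  have b18 := hb.b18
  have b19 := hb.b19
  have b24 := hb.b24
  have b25 := hb.b25
  have b27 := hb.b27
  have b28 := hb.b28
  have b29 := hb.b29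
  have b32 := hb.b32
  have b33 := hb.b33
  have b39 := hb.b39
  rcases lt_or_ge (3*N - a - b - m + c + 2*d - U - 3) 0 with h7 | h7
  · rcases lt_or_ge (-3*N + Q - i + a + b - l + m - 2*c - 2*d + U - V) 0 with h8 | h8
    · rcases lt_or_ge (i + a + d + V) 0 with h9 | h9
      · exact M7 X hb h1 h2 h3 h4 h5 h6 h7 h8 h9
      rcases lt_or_ge (-a - d - V - 1) 0 with h65 | h65
      · rcases lt_or_ge (c - d - 1) 0 with h66 | h66
        · rcases lt_or_ge (N - a - b + 2*c - d - 1) 0 with h67 | h67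
          · rcases lt_or_ge (-2*N - Q + i + 4*a + 4*b - 2*c) 0 with h68 | h68
            · rcases lt_or_ge (i - b + l + c + d + 1) 0 with h69 | h69
              · exact T0_32 X hb ⟨by have := kA 2 h69 (kA 1 h68 (kA 1 h67 (kA 1 h66 (kA 2 h7 (kC 2 b18 k0))))); clear * - this; omega, by have := kA 2 h69 (kA 2 h68 (kA 4 h67 (kA 2 h66 (kA 2 h65 (kA 2 h8 (kA 4 h5 (kA 2 h3 (kC 3 b33 (kC 3 b24 k0))))))))); clear * - this; omega⟩
              exact T0_35 X hb ⟨by clear * - h69; omega, by have := kB 4 h9 (kA 2 h3 (kA 2 h2 (kA 2 h1 (kC 1 b39 (kC 1 b28 k0))))); clear * - this; omega, by have := kB 2 h69 (kA 4 h67 (kA 6 h7 (kA 6 h5 (kA 8 h2 (kC 8 b33 (kC 3 b29 (kC 5 b25 k0))))))); clear * - this; omega, by have := kA 2 h5 (kA 2 h2 (kC 1 b33 (kC 1 b24 k0))); clear * - this; omega⟩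
            rcases lt_or_ge (2*N + Q - i - 2*a - 4*b - l - 2) 0 with h70 | h70
            · exact T0_14 X hb ⟨by have := kA 2 h67 (kA 2 h7 (kA 2 h3 (kA 2 h1 (kC 1 b39 (kC 1 b28 (kC 2 b18 k0)))))); clear * - this; omega, by clear * - b3 h9 h65; omega, by have := kA 1 h70 (kA 2 h65 (kA 2 h5 (kC 1 b18 (kC 3 b9 k0)))); clear * - this; omega⟩
            rcases lt_or_ge (Q - 2*b) 0 with h71 | h71
            · exact T0_14 X hb ⟨by have := kA 2 h67 (kA 2 h7 (kA 2 h3 (kA 2 h1 (kC 1 b39 (kC 1 b28 (kC 2 b18 k0)))))); clear * - this; omega, by clear * - b3 h9 h65; omega, by have := kA 3 h71 (kB 2 h70 (kA 2 h65 (kA 2 h5 (kC 1 b18 k0)))); clear * - this; omega⟩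
            exact T0_21 X hb ⟨by clear * - h71; omega, by clear * - h68; omega⟩
          rcases lt_or_ge (-N + Q - i + a + b - l - 2*c - d - 2) 0 with h72 | h72
          · exact T0_58 X hb ⟨by have := kA 2 h65 (kA 1 h5 (kA 1 h3 (kA 1 h1 (kC 1 b39 (kC 1 b25 (kC 1 b3 k0)))))); clear * - this; omega, by have := kA 2 h72 (kA 4 h6 (kC 1 b33 (kC 1 b24 (kC 2 b3 k0)))); clear * - this; omega, by have := kA 1 h72 (kA 1 h66 (kA 1 h7 (kA 2 h1 (kC 1 b39 (kC 1 b25 k0))))); clear * - this; omega⟩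
          exact T0_44 X hb ⟨by clear * - h66 h67; omega, by clear * - h72; omega, by have := kA 1 h66 (kA 1 h7 (kC 1 b39 (kC 1 b29 k0))); clear * - this; omega, by clear * - h67; omega, by clear * - h7 h66 h67; omega⟩
        rcases lt_or_ge (-2*N + m - c - d + U + 1) 0 with h73 | h73
        · rcases lt_or_ge (4*N - Q + i - 2*a - 2*b + l - m + 4*c + 2*d - U + 2*V - 1) 0 with h74 | h74
          · exact T0_69 X hb ⟨by clear * - b3 h9 h65; omega, by have := kA 1 h74 (kA 2 h73 (kA 2 h8 (kA 2 h7 k0))); clear * - this; omega⟩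
          exact T0_14 X hb ⟨by have := kA 1 h73 (kA 1 h7 (kA 1 h4 (kA 1 h3 (kC 1 b18 k0)))); clear * - this; omega, by clear * - b3 h9 h65; omega, by clear * - h74; omega⟩
        exact T0_9 X hb ⟨by clear * - h66; omega, by clear * - h73; omega⟩
      rcases lt_or_ge (2*N - a + l - m + 2*c + d - U + V - 2) 0 with h75 | h75
      · exact T0_58 X hb ⟨by have := kA 2 h6 (kA 2 h5 (kC 2 b9 (kC 1 b3 k0))); clear * - this; omega, by have := kA 1 h75 (kB 1 h9 (kA 2 h2 (kC 1 b18 k0))); clear * - this; omega, by have := kA 2 h75 (kA 2 h8 (kA 1 h6 (kA 2 h5 (kA 1 h2 (kA 1 h1 (kC 1 b9 (kC 1 b3 k0))))))); clear * - this; omega⟩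
      exact T0_2 X hb ⟨by clear * - h9; omega, by clear * - h65; omega, by clear * - h75; omega⟩
    exact T0_23 X hb ⟨by have := kA 1 h7 (kA 1 h6 (kA 1 h5 (kA 1 h4 (kA 1 h2 (kC 2 b18 (kC 2 b9 k0)))))); clear * - this; omega, by clear * - h8; omega⟩
  rcases lt_or_ge (-3*N + Q - i + a + b - l + m - 3*c - 2*d + U - 2*V) 0 with h76 | h76
  · rcases lt_or_ge (2*N + i - b + l - m + 2*c + 2*d - U + V - 1) 0 with h77 | h77
    · rcases lt_or_ge (-2*N + 2*m - 2*c - d + 1) 0 with h78 | h78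
      · exact M8 X hb h2 h3 h4 h5 h6 h7 h76 h77 h78
      rcases lt_or_ge (2*N - i - l - m + d - 3) 0 with h115 | h115
      · rcases lt_or_ge (-2*N + i + l + m - 2*d - U + 1) 0 with h116 | h116
        · rcases lt_or_ge (-Q + i - a - b + l + c - d - V + 1) 0 with h117 | h117
          · rcases lt_or_ge (N - a - b + d - 1) 0 with h118 | h118
            · rcases lt_or_ge (N - a - b + 2*c - d - V - 1) 0 with h119 | h119
              · rcases lt_or_ge (i + a + d + V) 0 with h120 | h120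
                · rcases lt_or_ge (b + d + V - 1) 0 with h121 | h121
                  · rcases lt_or_ge (-N + 2*a + b - c - 1) 0 with h122 | h122
                    · exact T0_37 X hb ⟨by have := kA 1 h121 (kA 4 h118 (kA 2 h117 (kA 3 h116 (kA 4 h115 (kB 1 h78 (kA 1 h77 (kB 2 h7 k0))))))); clear * - this; omega, by have := kA 2 h118 (kA 2 h116 (kA 4 h115 (kA 2 h77 (kA 1 h76 (kB 3 h7 (kA 2 h6 k0)))))); clear * - this; omega, by have := kA 7 h122 (kA 7 h121 (kA 4 h119 (kA 7 h118 (kA 1 h117 (kA 2 h116 (kA 2 h115 (kB 1 h78 (kA 1 h76 (kB 1 h7 k0))))))))); clear * - this; omega⟩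
                    rcases lt_or_ge (N - 2*a - 3*b + l + c) 0 with h123 | h123
                    · rcases lt_or_ge (b + d + V) 0 with h124 | h124
                      · exact T0_37 X hb ⟨by have := kA 1 h124 (kA 4 h118 (kA 2 h117 (kA 3 h116 (kA 4 h115 (kB 1 h78 (kA 1 h77 (kB 2 h7 k0))))))); clear * - this; omega, by have := kA 2 h124 (kA 1 h123 (kA 1 h120 (kA 1 h119 (kA 3 h118 (kA 3 h116 (kA 4 h115 (kB 1 h78 (kA 1 h76 (kB 2 h7 k0))))))))); clear * - this; omega, by have := kA 3 h124 (kA 1 h123 (kA 1 h119 (kA 1 h118 (kA 1 h116 (kA 2 h115 (kA 1 h76 (kC 1 b9 (kC 1 b3 k0)))))))); clear * - this; omega⟩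
                      exact T0_176 X hb ⟨by have := kA 1 h123 (kB 1 h122 (kA 2 h121 (kA 1 h116 (kA 2 h115 (kC 1 b9 k0))))); clear * - this; omega, by clear * - h121; omega, by clear * - h124; omega⟩
                    exact T0_184 X hb ⟨by have := kB 1 h122 (kA 2 h118 (kC 1 b33 (kC 1 b29 k0))); clear * - this; omega, by clear * - h122; omega, by have := kB 1 h122 (kA 1 h118 (kA 1 h117 (kA 1 h116 (kA 4 h115 (kA 3 h77 (kA 1 h76 (kB 3 h7 k0))))))); clear * - this; omega, by clear * - h123; omega⟩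
                  rcases lt_or_ge (-Q - 2*d - 2*V) 0 with h125 | h125
                  · exact T0_14 X hb ⟨by have := kA 1 h77 (kB 1 h7 (kA 1 h6 (kA 1 h5 k0))); clear * - this; omega, by clear * - h125; omega, by have := kA 1 h125 (kA 2 h118 (kA 1 h116 (kA 2 h115 (kA 2 h76 (kB 2 h7 (kA 2 h3 k0)))))); clear * - this; omega⟩
                  exact T0_83 X hb ⟨by clear * - h125; omega, by clear * - h121; omega, by have := kA 2 h118 (kA 1 h116 (kA 2 h115 (kB 2 h7 (kA 2 h6 (kA 2 h5 (kC 2 b9 k0)))))); clear * - this; omega⟩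
                exact T0_2 X hb ⟨by clear * - h120; omega, by clear * - h5 h7 h77; omega, by have := kA 1 h117 (kA 1 h76 (kB 2 h7 (kA 3 h5 (kA 1 h4 (kA 1 h3 (kA 2 h2 k0)))))); clear * - this; omega⟩
              exact T0_149 X hb ⟨by clear * - h4 h119; omega, by have := kA 2 h118 (kA 1 h116 (kA 1 h115 (kB 1 h78 (kB 1 h7 (kA 1 h4 k0))))); clear * - this; omega, by clear * - h119; omega, by clear * - h4 h7 h118; omega⟩
            rcases lt_or_ge (N - a - b + 2*c - d - 1) 0 with h126 | h126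
            · rcases lt_or_ge (i + a + d + V) 0 with h127 | h127
              · rcases lt_or_ge (-N + Q - i - a + b - c - 1) 0 with h128 | h128
                · rcases lt_or_ge (-N + 4*a + 3*b - l - c - 2) 0 with h129 | h129
                  · rcases lt_or_ge (-a - b - d - 1) 0 with h130 | h130
                    · rcases lt_or_ge (-N + m - c + 1) 0 with h131 | h131
                      · rcases lt_or_ge (-Q + i + b + l + c + d + 1) 0 with h132 | h132
                        · rcases lt_or_ge (-a - b - d) 0 with h133 | h133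
                          · exact T0_58 X hb ⟨by have := kA 2 h133 (kA 4 h132 (kA 4 h131 (kA 2 h127 (kA 1 h126 (kB 3 h118 (kA 4 h115 (kA 2 h77 (kA 2 h76 k0)))))))); clear * - this; omega, by clear * - h133; omega, by have := kA 2 h133 (kA 1 h132 (kA 3 h131 (kA 1 h129 (kA 1 h128 (kA 1 h126 (kA 2 h115 (kA 2 h77 (kA 1 h76 (kB 1 h7 k0))))))))); clear * - this; omega⟩
                          exact T0_71 X hb ⟨by have := kA 7 h132 (kA 7 h131 (kA 13 h130 (kA 1 h129 (kA 2 h128 (kA 1 h127 (kA 5 h126 (kA 10 h115 (kA 9 h77 (kA 5 h76 (kB 4 h7 k0)))))))))); clear * - this; omega, by clear * - h130; omega, by clear * - h133; omega⟩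
                        exact T0_67 X hb ⟨by clear * - h132; omega, by have := kB 4 h132 (kA 13 h131 (kA 1 h129 (kA 4 h128 (kA 5 h126 (kA 14 h117 (kA 13 h115 (kA 6 h76 (kB 7 h7 (kA 13 h3 k0))))))))); clear * - this; omega, by have := kA 4 h131 (kA 2 h128 (kA 2 h127 (kA 1 h126 (kB 3 h118 (kA 2 h117 (kA 2 h115 k0)))))); clear * - this; omega, by have := kA 2 h128 (kA 2 h127 (kA 1 h126 (kB 3 h118 (kA 2 h117 (kA 2 h115 k0))))); clear * - this; omega, by have := kB 1 h132 (kA 6 h131 (kA 2 h128 (kA 2 h127 (kA 4 h117 (kA 6 h115 (kA 4 h77 (kA 1 h76 (kB 3 h7 k0)))))))); clear * - this; omega⟩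
                      exact T0_186 X hb ⟨by have := kA 1 h130 (kA 1 h129 (kA 1 h128 (kA 1 h126 (kA 1 h117 (kA 1 h77 (kA 1 h5 k0)))))); clear * - this; omega, by have := kA 2 h130 (kA 1 h129 (kA 1 h128 (kA 1 h127 (kA 1 h126 (kA 1 h117 (kA 1 h5 k0)))))); clear * - this; omega, by have := kB 6 h131 (kA 5 h130 (kA 2 h129 (kA 11 h128 (kA 9 h127 (kA 10 h126 (kA 14 h117 (kA 11 h77 (kA 3 h76 (kB 8 h7 (kA 20 h5 k0)))))))))); clear * - this; omega, by clear * - h1; omega, by clear * - h131; omega⟩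
                    exact T0_37 X hb ⟨by have := kB 1 h130 (kA 5 h128 (kA 8 h127 (kA 4 h126 (kA 10 h117 (kA 3 h116 (kA 6 h115 (kA 2 h77 (kA 7 h5 (kC 3 b33 (kC 3 b29 k0)))))))))); clear * - this; omega, by have := kB 1 h130 (kA 10 h128 (kA 18 h127 (kA 14 h126 (kA 10 h117 (kA 3 h116 (kA 6 h115 (kA 2 h77 (kA 5 h76 (kA 17 h5 (kC 8 b33 (kC 8 b29 k0))))))))))); clear * - this; omega, by clear * - h130; omega⟩
                  rcases lt_or_ge (N - 2*a - 3*b + l + c) 0 with h134 | h134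
                  · exact T0_83 X hb ⟨by have := kA 1 h134 (kB 1 h129 (kA 2 h128 (kA 4 h127 (kA 2 h126 (kB 2 h118 (kA 2 h76 (kB 2 h7 (kA 4 h5 (kA 4 h3 k0))))))))); clear * - this; omega, by have := kA 1 h134 (kA 1 h127 (kA 1 h126 (kA 1 h117 (kA 1 h116 (kA 2 h115 (kA 1 h76 (kA 1 h5 (kC 1 b9 k0)))))))); clear * - this; omega, by have := kA 4 h128 (kA 4 h127 (kA 3 h126 (kB 1 h118 (kA 4 h117 (kB 2 h7 (kA 8 h5 (kC 2 b9 k0))))))); clear * - this; omega⟩
                  exact T0_184 X hb ⟨by clear * - h129; omega, by have := kA 1 h128 (kA 1 h127 (kA 1 h126 (kA 1 h117 (kA 1 h5 k0)))); clear * - this; omega, by have := kB 2 h129 (kA 2 h127 (kA 1 h126 (kB 5 h118 (kA 2 h117 (kA 4 h115 (kA 4 h77 (kA 2 h76 (kB 2 h7 (kA 2 h5 k0))))))))); clear * - this; omega, by clear * - h134; omega⟩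
                exact T0_32 X hb ⟨by clear * - h128; omega, by have := kA 2 h126 (kA 2 h5 (kC 1 b33 (kC 1 b24 (kC 2 b9 k0)))); clear * - this; omega⟩
              exact T0_2 X hb ⟨by clear * - h127; omega, by clear * - h5 h7 h77; omega, by have := kA 1 h126 (kB 1 h118 (kA 2 h117 (kA 2 h76 (kB 2 h7 (kA 4 h5 (kA 2 h3 (kA 2 h2 k0))))))); clear * - this; omega⟩
            rcases lt_or_ge (-N + Q - i + a + b - l - 2*c - d - 2) 0 with h135 | h135
            · exact T0_58 X hb ⟨by have := kA 2 h6 (kA 2 h5 (kC 2 b9 (kC 1 b3 k0))); clear * - this; omega, by have := kA 1 h135 (kA 1 h117 (kA 1 h77 (kB 1 h7 (kA 1 h6 (kA 1 h5 k0))))); clear * - this; omega, by have := kA 3 h135 (kB 1 h126 (kA 4 h115 (kA 1 h76 (kB 3 h7 (kA 6 h4 (kA 4 h3 (kA 8 h1 k0))))))); clear * - this; omega⟩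
            rcases lt_or_ge (-N - a - b + m - d + U + 1) 0 with h136 | h136
            · rcases lt_or_ge (a + b + d - 1) 0 with h137 | h137
              · rcases lt_or_ge (-N + Q - i - a + b - c - 1) 0 with h138 | h138
                · rcases lt_or_ge (i + a + d + V) 0 with h139 | h139
                  · rcases lt_or_ge (a + b + d) 0 with h140 | h140
                    · exact T0_37 X hb ⟨by have := kA 2 h140 (kA 2 h139 (kA 2 h138 (kA 4 h136 (kB 1 h126 (kB 1 h118 (kA 4 h117 (kA 4 h116 (kA 8 h115 (kA 2 h77 k0))))))))); clear * - this; omega, by have := kA 4 h140 (kA 4 h139 (kA 4 h138 (kA 10 h136 (kB 1 h126 (kB 3 h118 (kA 4 h117 (kA 8 h116 (kA 16 h115 (kA 4 h77 (kA 2 h76 k0)))))))))); clear * - this; omega, by clear * - h140; omega⟩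
                    exact T0_71 X hb ⟨by have := kA 3 h139 (kA 3 h138 (kA 3 h137 (kA 6 h136 (kB 2 h118 (kA 4 h117 (kA 4 h116 (kA 10 h115 (kA 3 h77 (kA 1 h76 k0))))))))); clear * - this; omega, by clear * - h140; omega, by clear * - h137; omega⟩
                  exact T0_2 X hb ⟨by clear * - h139; omega, by have := kA 1 h137 (kA 2 h136 (kB 1 h126 (kB 1 h118 (kA 1 h116 (kA 2 h115 (kA 1 h77 k0)))))); clear * - this; omega, by have := kB 1 h139 (kA 2 h137 (kA 2 h136 (kB 1 h126 (kB 1 h118 (kA 1 h116 (kA 2 h115 (kA 2 h2 k0))))))); clear * - this; omega⟩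
                rcases lt_or_ge (N - a - b - l - c - 2) 0 with h141 | h141
                · exact T0_12 X hb ⟨by clear * - h118 h137 h141; omega, by clear * - b24 b33 h141; omega⟩
                exact T0_32 X hb ⟨by clear * - h138; omega, by clear * - h141; omega⟩
              rcases lt_or_ge (2*N - Q + i - 2*a - 2*b + l - m + 2*c) 0 with h142 | h142
              · exact T0_183 X hb ⟨by have := kB 1 h126 (kB 5 h118 (kA 2 h6 (kA 2 h5 (kA 2 h2 k0)))); clear * - this; omega, by have := kA 2 h136 (kB 2 h135 (kB 1 h126 (kB 5 h118 (kA 4 h77 (kA 2 h76 (kA 4 h6 (kA 4 h5 k0))))))); clear * - this; omega, by have := kA 1 h142 (kA 1 h136 (kB 1 h118 (kA 1 h116 (kA 2 h115 (kA 1 h76 (kA 1 h3 k0)))))); clear * - this; omega, by have := kB 1 h126 (kB 2 h118 (kA 1 h77 (kA 1 h6 (kA 1 h5 (kA 1 h4 k0))))); clear * - this; omega, by have := kA 1 h142 (kB 2 h137 (kA 3 h136 (kB 1 h126 (kA 3 h116 (kA 1 h76 (kA 4 h5 (kA 1 h3 k0))))))); clear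 * - this; omega⟩
              exact T0_58 X hb ⟨by have := kA 2 h6 (kA 2 h5 (kC 2 b9 (kC 1 b3 k0))); clear * - this; omega, by clear * - h137; omega, by clear * - h142; omega⟩
            exact T0_44 X hb ⟨by clear * - h118; omega, by clear * - h135; omega, by have := kB 1 h118 (kA 1 h117 (kA 1 h116 (kA 4 h115 (kA 3 h77 (kA 1 h76 (kB 3 h7 (kA 3 h6 k0))))))); clear * - this; omega, by clear * - h126; omega, by clear * - h136; omega⟩
          rcases lt_or_ge (-a - b + m - c + d + V) 0 with h143 | h143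
          · rcases lt_or_ge (-Q + 2*b) 0 with h144 | h144
            · exact T0_36 X hb ⟨by have := kA 2 h143 (kA 2 h115 (kA 2 h77 (kA 1 h76 (kB 1 h7 (kA 2 h6 (kA 2 h4 (kC 1 b33 (kC 1 b29 (kC 1 b3 k0))))))))); clear * - this; omega, by clear * - h144; omega, by have := kA 17 h144 (kA 13 h143 (kB 9 h117 (kA 2 h116 (kA 3 h115 (kB 7 h78 (kA 18 h77 (kA 20 h76 (kA 8 h6 (kC 12 b33 (kC 12 b29 k0)))))))))); clear * - this; omega⟩
            rcases lt_or_ge (-b - d - V - 1) 0 with h145 | h145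
            · exact T0_37 X hb ⟨by have := kA 2 h145 (kA 2 h76 (kA 2 h6 (kC 3 b19 k0))); clear * - this; omega, by have := kB 2 h144 (kA 2 h143 (kA 4 h116 (kA 6 h115 (kB 2 h78 (kA 1 h76 (kB 3 h7 (kA 4 h6 k0))))))); clear * - this; omega, by have := kA 1 h143 (kA 1 h115 (kA 1 h4 (kC 1 b9 k0))); clear * - this; omega⟩
            rcases lt_or_ge (i + 2*a + 2*b + 2*d + 2*V) 0 with h146 | h146
            · exact T0_89 X hb (by have := kA 3 h146 (kA 2 h143 (kA 1 h116 (kA 4 h115 (kA 4 h76 (kA 8 h6 (kC 4 b33 (kC 1 b29 (kC 4 b3 k0)))))))); clear * - this; omega)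
            exact T0_87 X hb ⟨by clear * - h144; omega, by clear * - h145; omega, by clear * - h146; omega⟩
          rcases lt_or_ge (a + b + c - d - V - 1) 0 with h147 | h147
          · exact T0_2 X hb ⟨by have := kA 2 h147 (kA 2 h6 (kC 1 b33 (kC 1 b24 (kC 2 b6 k0)))); clear * - this; omega, by clear * - h5 h7 h77; omega, by have := kA 2 h147 (kA 1 h76 (kB 3 h7 (kA 2 h6 (kA 6 h5 (kA 6 h2 (kC 1 b33 (kC 1 b32 (kC 2 b24 k0)))))))); clear * - this; omega⟩
          exact T0_157 X hb ⟨by clear * - h4 h147; omega, by clear * - h143; omega, by clear * - h147; omega, by clear * - h117; omega, by have := kB 2 h7 (kA 2 h6 (kA 2 h5 (kA 2 h2 (kC 1 b33 (kC 1 b24 (kC 2 b17 k0)))))); clear * - this; omega⟩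
        rcases lt_or_ge (2*N - m + c + 2*d + V - 2) 0 with h148 | h148
        · rcases lt_or_ge (2*N - m + c + 2*d + V - 1) 0 with h149 | h149
          · exact T0_147 X hb (by clear * - h1 h149; omega)
          exact T0_188 X hb ⟨by clear * - h149; omega, by clear * - h148; omega⟩
        rcases lt_or_ge (-2*N - i - l + m - 2*c - 4*d - 2*V - 1) 0 with h150 | h150
        · rcases lt_or_ge (-i - 2*a - 2*b - l + m - 4*d - 2*V - 1) 0 with h151 | h151
          · rcases lt_or_ge (-2*N + Q - i + 2*a + 2*b - l + m - 2*c + U) 0 with h152 | h152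
            · exact T0_87 X hb ⟨by have := kA 1 h152 (kA 1 h150 (kB 1 h116 (kA 2 h77 (kA 1 h6 (kA 1 h2 (kA 1 h1 (kC 1 b33 (kC 1 b29 k0)))))))); clear * - this; omega, by have := kA 1 h152 (kA 2 h76 (kA 2 h6 (kC 3 b19 k0))); clear * - this; omega, by have := kA 1 h151 (kA 3 h150 (kB 4 h116 (kA 4 h77 (kA 2 h76 (kA 4 h6 (kA 4 h1 (kC 4 b33 (kC 2 b29 (kC 2 b27 k0))))))))); clear * - this; omega⟩
            exact T0_37 X hb ⟨by clear * - h152; omega, by have := kA 1 h151 (kA 1 h150 (kB 1 h116 (kA 1 h76 (kB 1 h7 (kA 1 h6 (kA 1 h5 (kA 3 h3 (kA 1 h2 (kC 1 b33 (kC 1 b29 k0)))))))))); clear * - this; omega, by have := kA 1 h151 (kA 1 h150 (kB 2 h116 (kA 2 h3 (kA 2 h1 (kC 2 b9 k0))))); clear * - this; omega⟩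
          rcases lt_or_ge (N + a + b - m + 2*d + V - 2) 0 with h153 | h153
          · exact T0_9 X hb ⟨by have := kA 6 h153 (kA 2 h150 (kA 2 h77 (kA 2 h76 (kA 6 h6 (kA 4 h1 (kC 1 b33 (kC 1 b24 (kC 2 b3 k0)))))))); clear * - this; omega, by have := kA 2 h153 (kA 1 h150 (kA 1 h77 (kA 1 h6 (kA 1 h4 (kA 1 h1 k0))))); clear * - this; omega⟩
          exact T0_189 X hb ⟨by clear * - h151; omega, by clear * - h153; omega, by clear * - h116; omega⟩
        exact T0_182 X hb ⟨by clear * - h150; omega, by clear * - h148; omega, by clear * - h116; omega⟩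
      exact T0_5 X hb ⟨by clear * - h78; omega, by clear * - h115; omega⟩
    rcases lt_or_ge (b - V - 1) 0 with h154 | h154
    · rcases lt_or_ge (-N + a + b - c - d - V - 1) 0 with h155 | h155
      · exact T0_88 X hb ⟨by have := kA 2 h155 (kB 2 h7 (kA 2 h4 (kA 2 h1 (kC 1 b39 (kC 1 b28 k0))))); clear * - this; omega, by have := kA 1 h155 (kA 2 h6 (kA 1 h3 (kC 1 b3 (kC 1 b1 k0)))); clear * - this; omega, by clear * - b18 h3 h155; omega⟩
      exact T0_53 X hb ⟨by have := kA 2 h154 (kC 1 b33 (kC 1 b29 (kC 1 b3 k0))); clear * - this; omega, by clear * - h155; omega, by clear * - b19 h76; omega⟩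
    exact T0_50 X hb ⟨by clear * - h77; omega, by have := kA 1 h6 (kA 1 h5 (kA 1 h3 (kC 1 b33 (kC 1 b29 (kC 1 b17 k0))))); clear * - this; omega, by clear * - h154; omega⟩
  exact T0_22 X hb ⟨by clear * - h76; omega, by clear * - h7; omega⟩

end Pool.Agent.MP_a38735_al.WL.E31
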