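import Pool.Agent.MP_a38735_al.E31t0
import Pool.Agent.MP_a38735_al.E31t1
import Pool.Agent.MP_a38735_al.E31t2

set_option autoImplicit false
set_option linter.unusedVariables false
set_option linter.unusedSimpArgs false

namespace Pool.Agent.MP_a38735_al.WL.E31

variable {G : Type*} [Group G]

variable {W : ℤ → G} {N Q i a b l m c d L U V Y : ℤ}

theorem M10 (X : C W N Q i a b l m c d L U V) (hb : B N Q i a b l m c d L U V)
    (h1 : (-N + m - c) < 0)
    (h2 : (i - b) < 0)
    (h3 : (2*N + i + l - m + 2*c + 3*d - U + 2*V - 1) < 0)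
    (h4 : (c - d - V - 1) < 0)
    (h5 : (N - i - l - c + d - 2) < 0)
    (h6 : (N - 2*a - b + c - 1) ≥ 0)
    (h156 : (-N + Q - i + b - c - 1) < 0)
    (h157 : (-Q + i - a - b + l + c - d - V + 1) < 0)
    (h158 : (i + a + d + V) < 0) : False := by
  have b1 := hb.b1
  have b2 := hb.b2
  have b4 := hb.b4
  have b7 := hb.b7
  have b11 := hb.b11
  have b14 := hb.b14
  have b18 := hb.b18
  have b19 := hb.b19
  have b28 := hb.b28
  have b29 := hb.b29
  have b33 := hb.b33
  have b36 := hb.b36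
  have b38 := hb.b38
  have b39 := hb.b39
  rcases lt_or_ge (2*N - i - l - m + d - 3) 0 with h159 | h159
  · rcases lt_or_ge (N - 2*a - 2*b + l + 2*c) 0 with h160 | h160
    · rcases lt_or_ge (2*N - b - m + c + d - 2) 0 with h161 | h161
      · rcases lt_or_ge (2*N - b - m + c + d - 1) 0 with h162 | h162
        · rcases lt_or_ge (b + c - 1) 0 with h163 | h163
          · exact T0_37 X hb ⟨by have := kA 1 h159 (kA 2 h157 (kA 1 h3 (kC 1 b14 k0))); clear * - this; omega, by have := kA 1 h163 (kA 1 h160 (kA 2 h159 (kA 2 h158 (kA 2 h157 (kA 1 h156 (kC 2 b14 k0)))))); clear * - this; omega, by have := kA 2 h163 (kA 1 h162 (kA 1 h159 (kA 1 h158 (kA 1 h157 (kA 1 h156 (kB 1 h6 (kA 2 h1 k0))))))); clear * - this; omega⟩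
          exact T0_6 X hb ⟨by clear * - b2 h6 h160; omega, by clear * - h163; omega⟩
        exact T0_265 X hb ⟨by clear * - h162; omega, by clear * - h161; omega⟩
      rcases lt_or_ge (-2*N - i + 2*b - l + m - 2*c - 2*d - 1) 0 with h164 | h164
      · exact T0_185 X hb ⟨by have := kA 1 h164 (kA 2 h160 (kA 2 h159 (kA 6 h158 (kA 4 h157 (kA 4 h156 (kB 2 h6 (kA 2 h5 (kA 2 h4 k0)))))))); clear * - this; omega, by have := kA 1 h164 (kA 1 h160 (kA 2 h158 (kA 1 h157 (kA 1 h156 (kA 1 h5 (kA 1 h4 k0)))))); clear * - this; omega, by have := kA 1 h160 (kA 2 h159 (kA 1 h158 (kA 1 h157 (kA 1 h156 k0)))); clear * - this; omega⟩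
      exact T0_180 X hb ⟨by clear * - h164; omega, by clear * - h161; omega, by have := kA 1 h160 (kA 2 h159 (kA 1 h158 (kA 1 h157 (kA 1 h156 k0)))); clear * - this; omega⟩
    rcases lt_or_ge (N - 2*a - 2*b - 1) 0 with h165 | h165
    · exact T0_6 X hb ⟨by clear * - b7 h156 h165; omega, by clear * - h6 h165; omega⟩
    rcases lt_or_ge (-N + 2*a + 2*b - 2*c - 1) 0 with h166 | h166
    · rcases lt_or_ge (-2*N + m - c - d + U + 1) 0 with h167 | h167
      · exact T0_24 X hb ⟨by have := kA 1 h167 (kA 1 h166 (kA 1 h159 (kA 2 h157 (kA 1 h5 (kA 2 h4 (kA 1 h3 (kC 1 b14 k0))))))); clear * - this; omega, by have := kA 2 h167 (kA 2 h166 (kA 2 h5 (kA 4 h4 (kA 2 h2 (kC 1 b19 (kC 2 b4 k0)))))); clear * - this; omega, by have := kA 1 h167 (kA 1 h166 (kA 1 h5 (kA 2 h4 (kA 2 h3 (kC 1 b18 (kC 2 b2 k0)))))); clear * - this; omega⟩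
      exact T0_9 X hb ⟨by have := kA 1 h158 (kA 1 h157 (kA 1 h156 (kA 1 h5 k0))); clear * - this; omega, by clear * - h167; omega⟩
    exact T0_73 X hb ⟨by clear * - h160; omega, by clear * - h166; omega, by have := kA 1 h159 (kA 2 h4 (kA 1 h3 (kC 1 b39 (kC 1 b29 k0)))); clear * - this; omega, by clear * - h165; omega, by clear * - h156 h157 h158; omega⟩
  rcases lt_or_ge (-2*N + 2*m - 2*c - d + 1) 0 with h168 | h168
  · rcases lt_or_ge (2*N - m + c + 3*d + V - 2) 0 with h169 | h169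
    · rcases lt_or_ge (-a - b - d - V) 0 with h170 | h170
      · rcases lt_or_ge (-a - b - d - 1) 0 with h171 | h171
        · rcases lt_or_ge (b + c - 1) 0 with h172 | h172
          · rcases lt_or_ge (-3*N - Q + i - a + l + 3*m - 2*c - 2*d + 4) 0 with h173 | h173
            · exact T0_26 X hb ⟨by have := kA 1 h173 (kA 4 h171 (kA 3 h169 (kA 1 h156 (kB 1 h6 (kA 3 h4 k0))))); clear * - this; omega, by have := kA 2 h172 (kA 2 h171 (kA 1 h170 (kA 1 h169 (kB 1 h6 k0)))); clear * - this; omega, by have := kA 1 h171 (kA 1 h158 (kA 1 h157 (kA 1 h156 (kB 1 h6 (kA 1 h5 k0))))); clear * - this; omega, by have := kA 2 h172 (kA 1 h171 (kA 1 h158 (kA 1 h157 (kA 1 h156 (kB 1 h6 (kA 1 h5 k0)))))); clear * - this; omega⟩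
            exact T0_81 X hb ⟨by have := kA 2 h171 (kA 1 h170 (kA 1 h169 (kB 1 h6 k0))); clear * - this; omega, by have := kB 1 h173 (kA 1 h171 (kA 1 h169 (kA 1 h168 (kA 1 h157 k0)))); clear * - this; omega, by clear * - h173; omega, by have := kA 2 h172 (kA 2 h171 (kA 1 h170 (kA 1 h169 (kB 1 h6 k0)))); clear * - this; omega, by have := kA 2 h171 (kA 1 h170 (kA 1 h169 (kA 1 h168 (kB 1 h159 (kB 1 h6 k0))))); clear * - this; omega, by have := kB 1 h173 (kA 1 h171 (kA 1 h169 (kA 2 h168 (kB 1 h159 (kA 1 h157 k0))))); clear * - this; omega, by clear * - h159 h168 h173; omega, by have := kA 2 h172 (kA 2 h171 (kA 1 h170 (kA 1 h169 (kA 1 h168 (kB 1 h159 (kB 1 h6 k0)))))); clear * - this; omega, by have := kA 4 h172 (kA 4 h171 (kA 3 h170 (kA 3 h169 (kA 2 h168 (kB 3 h6 k0))))); clear * - this; omega, by have := kB 1 h173 (kA 6 h172 (kA 5 h171 (kA 1 h169 (kA 3 h168 (kA 2 h158 (kA 3 h157 (kA 2 h156 (kB 2 h6 (kA 2 h5 k0))))))))); clear * - this; omega, by have :=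 kB 1 h173 (kA 2 h172 (kA 2 h171 (kA 2 h170 (kA 2 h169 (kA 2 h168 (kB 2 h6 k0)))))); clear * - this; omega, by have := kB 3 h173 (kA 4 h172 (kA 2 h171 (kA 2 h170 (kA 1 h169 (kA 3 h168 (kA 1 h158 (kA 1 h156 (kB 3 h6 (kA 1 h5 k0))))))))); clear * - this; omega, by have := kB 1 h173 (kA 2 h172 (kA 2 h171 (kA 1 h170 (kA 1 h169 (kA 2 h168 (kB 1 h6 k0)))))); clear * - this; omega, by have := kA 3 h171 (kA 2 h169 (kA 1 h168 (kA 1 h157 (kA 1 h156 (kB 1 h6 (kA 1 h4 k0)))))); clear * - this; omega, by have := kA 2 h172 (kA 1 h171 (kA 1 h158 (kA 1 h157 (kA 1 h156 (kB 1 h6 (kA 1 h5 k0)))))); clear * - this; omega⟩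
          exact T0_6 X hb ⟨by have := kA 5 h171 (kA 5 h169 (kA 3 h168 (kA 3 h157 (kA 4 h156 (kA 4 h4 (kC 1 b39 (kC 1 b29 (kC 1 b19 k0)))))))); clear * - this; omega, by clear * - h172; omega⟩
        rcases lt_or_ge (-Q + i + 2*a + 2*b + l + 2*d + 1) 0 with h174 | h174
        · rcases lt_or_ge (N - a - b + c + d + V - 1) 0 with h175 | h175
          · rcases lt_or_ge (-2*a - b - d - 1) 0 with h176 | h176
            · rcases lt_or_ge (-i + 2*b - l - 2*c - 2) 0 with h177 | h177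
              · rcases lt_or_ge (2*N - b - m + c + 2*d - 2) 0 with h178 | h178
                · exact T0_12 X hb ⟨by have := kA 1 h177 (kA 1 h175 (kA 1 h170 (kA 1 h158 (kB 1 h6 (kA 1 h4 k0))))); clear * - this; omega, by have := kA 2 h178 (kA 1 h177 (kA 1 h176 (kA 1 h170 (kA 1 h168 (kA 1 h158 (kC 1 b33 (kC 1 b29 k0))))))); clear * - this; omega⟩
                rcases lt_or_ge (-2*N - i + 2*b - l + m - 2*c - 2*d + U) 0 with h179 | h179
                · exact T0_45 X hb ⟨by clear * - b1 h170 h175; omega, by have := kA 1 h179 (kA 1 h176 (kA 1 h174 (kA 1 h170 (kA 1 h158 (kA 1 h156 (kB 1 h6 (kA 2 h4 (kA 1 h3 k0)))))))); clear * - this; omega⟩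
                exact T0_25 X hb ⟨by have := kA 3 h175 (kA 1 h174 (kA 4 h170 (kA 1 h169 (kA 1 h158 (kA 1 h156 (kB 2 h6 (kA 1 h4 k0))))))); clear * - this; omega, by clear * - h178; omega, by clear * - h179; omega, by have := kA 1 h177 (kA 2 h175 (kA 2 h170 (kA 1 h169 (kB 2 h6 (kA 1 h4 k0))))); clear * - this; omega, by clear * - b1 h169 h170; omega⟩
              rcases lt_or_ge (N - a - 2*b + c - 1) 0 with h180 | h180
              · rcases lt_or_ge (-N + a + b - c - d - V - 1) 0 with h181 | h181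
                · rcases lt_or_ge (-4*N + i + 2*a + 2*b + l + 2*m - 2*c - 2*d + 3) 0 with h182 | h182
                  · rcases lt_or_ge (4*N - Q + i - 2*a - 2*b + l - 3*m + 4*c + 2*d - 2) 0 with h183 | h183
                    · exact T0_154 X hb ⟨by have := kA 1 h182 (kA 1 h181 (kA 1 h180 (kA 1 h176 (kA 1 h169 (kA 1 h5 k0))))); clear * - this; omega, by have := kA 1 h182 (kA 1 h181 (kA 1 h180 (kA 1 h176 (kA 2 h169 (kA 1 h5 (kA 1 h4 k0)))))); clear * - this; omega, by have := kA 1 h182 (kA 4 h181 (kA 2 h180 (kA 2 h176 (kA 3 h169 (kA 2 h5 (kA 3 h4 (kA 2 h3 (kC 1 b36 (kC 1 b29 k0))))))))); clear * - this; omega⟩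
                    exact T0_48 X hb ⟨by have := kA 1 h182 (kA 2 h176 (kA 1 h175 (kA 1 h174 (kA 1 h158 (kB 1 h6 (kA 2 h5 (kA 2 h4 k0))))))); clear * - this; omega, by clear * - h157 h169 h183; omega, by have := kA 1 h182 (kA 2 h181 (kA 2 h180 (kA 2 h176 (kA 3 h169 (kA 1 h4 (kC 1 b36 (kC 1 b29 k0))))))); clear * - this; omega, by clear * - h183; omega⟩
                  exact T0_112 X hb ⟨by have := kA 1 h180 (kA 2 h176 (kB 1 h171 (kA 2 h169 (kB 1 h159 (kB 1 h6 k0))))); clear * - this; omega, by have := kA 2 h181 (kA 1 h168 (kA 2 h4 (kA 1 h3 (kC 1 b18 k0)))); clear * - this; omega, by have := kA 2 h176 (kA 1 h175 (kB 2 h171 (kA 1 h158 (kB 1 h6 k0)))); clear * - this; omega, by clear * - h182; omega, by have := kB 1 h182 (kA 1 h181 (kA 4 h180 (kA 4 h176 (kA 3 h174 (kA 3 h158 (kA 3 h156 (kA 4 h5 (kA 2 h4 (kC 2 b39 (kC 2 b29 k0)))))))))); clear * - this; omega⟩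
                exact T0_53 X hb ⟨by have := kA 2 h176 (kA 1 h174 (kB 2 h6 (kA 2 h4 k0))); clear * - this; omega, by clear * - h181; omega, by have := kA 1 h176 (kA 1 h174 (kA 2 h170 (kA 2 h158 (kA 2 h156 (kB 1 h6 (kA 1 h5 (kA 2 h4 (kC 1 b18 k0)))))))); clear * - this; omega⟩
              exact T0_20 X hb ⟨by clear * - h177; omega, by clear * - h180; omega, by clear * - b1 h170 h175; omega⟩
            rcases lt_or_ge (-2*N + 2*a + b - l + m - 2*c - d + U) 0 with h184 | h184
            · rcases lt_or_ge (-N + m - 2*c) 0 with h185 | h185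
              · rcases lt_or_ge (N + a + 2*b - m + 2*c + d - 2) 0 with h186 | h186
                · rcases lt_or_ge (-i + 2*b - l - 2*c - 2) 0 with h187 | h187
                  · exact T0_25 X hb ⟨by have := kB 1 h176 (kA 1 h175 (kA 3 h170 (kA 2 h169 (kB 1 h159 (kB 1 h6 k0))))); clear * - this; omega, by have := kA 1 h187 (kA 1 h185 (kA 1 h175 (kA 1 h158 (kA 2 h4 (kC 1 b33 (kC 1 b29 k0)))))); clear * - this; omega, by have := kB 1 h176 (kA 1 h175 (kA 3 h170 (kB 1 h6 (kA 1 h3 k0)))); clear * - this; omega, by have := kA 2 h187 (kA 1 h186 (kB 1 h176 (kA 5 h175 (kA 6 h170 (kA 1 h169 (kB 4 h6 k0)))))); clear * - this; omega, by have := kA 1 h187 (kB 2 h176 (kA 2 h175 (kA 4 h170 (kA 2 h169 (kC 1 b33 (kC 1 b29 k0)))))); clear * - this; omega⟩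
                  exact T0_20 X hb ⟨by clear * - h187; omega, by have := kA 2 h186 (kA 3 h185 (kA 1 h158 (kA 1 h157 (kA 1 h156 (kC 1 b36 (kC 1 b29 k0)))))); clear * - this; omega, by clear * - b1 h170 h175; omega⟩
                rcases lt_or_ge (-N - Q + i - a + l + m - d + 2) 0 with h188 | h188
                · rcases lt_or_ge (2*N - b - m + c + 2*d - 2) 0 with h189 | h189
                  · rcases lt_or_ge (i + a - b) 0 with h190 | h190
                    · rcases lt_or_ge (2*N - b - m + c + 2*d - 1) 0 with h191 | h191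
                      · rcases lt_or_ge (2*N + i - b + l - m + 2*c + 2*d - U + V - 1) 0 with h192 | h192
                        · exact T0_168 X hb ⟨by have := kA 2 h170 (kA 2 h169 (kC 1 b38 (kC 1 b29 k0))); clear * - this; omega, by have := kA 1 h192 (kA 1 h188 (kB 1 h171 (kA 2 h170 (kA 1 h169 (kA 1 h5 (kC 1 b39 (kC 1 b29 k0))))))); clear * - this; omega, by have := kA 1 h175 (kA 2 h170 (kA 1 h169 (kA 1 h158 (kA 1 h156 (kA 1 h4 (kC 1 b36 (kC 1 b29 k0))))))); clear * - this; omega, by have := kA 1 h192 (kA 1 h188 (kA 1 h184 (kA 1 h156 (kA 1 h5 (kA 1 h4 k0))))); clear * - this; omega⟩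
                        rcases lt_or_ge (b - V - 1) 0 with h193 | h193
                        · exact T0_20 X hb ⟨by have := kA 1 h190 (kA 2 h175 (kA 1 h157 (kA 1 h156 (kB 1 h6 (kA 1 h4 k0))))); clear * - this; omega, by have := kA 4 h193 (kA 1 h191 (kA 2 h188 (kB 1 h186 (kA 2 h184 (kB 1 h176 (kA 2 h156 (kA 2 h3 (kC 2 b36 (kC 2 b29 k0))))))))); clear * - this; omega, by have := kA 4 h193 (kA 3 h191 (kA 1 h190 (kA 3 h188 (kB 3 h186 (kB 2 h176 (kA 7 h175 (kA 3 h156 (kA 3 h4 (kC 3 b36 (kC 3 b29 k0)))))))))); clear * - this; omega⟩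
                        exact T0_50 X hb ⟨by clear * - h192; omega, by have := kB 1 h193 (kB 1 h192 (kA 1 h170 (kA 1 h157 (kA 1 h156 (kA 1 h5 (kA 1 h4 (kA 2 h3 k0))))))); clear * - this; omega, by clear * - h193; omega⟩
                      exact T0_52 X hb ⟨by clear * - h189; omega, by clear * - h191; omega, by have := kB 2 h191 (kB 1 h176 (kA 1 h175 (kA 3 h170 (kB 1 h6 (kA 1 h3 k0))))); clear * - this; omega, by have := kA 2 h185 (kA 2 h169 (kA 2 h4 (kC 1 b29 k0))); clear * - this; omega, by have := kA 1 h189 (kA 1 h188 (kB 1 h186 (kA 1 h185 (kA 3 h169 (kA 1 h156 (kA 3 h4 (kC 1 b29 k0))))))); clear * - this; omega⟩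
                    exact T0_40 X hb ⟨by clear * - h190; omega, by have := kA 1 h189 (kB 1 h186 (kA 1 h184 (kA 1 h156 (kA 2 h4 (kC 1 b19 k0))))); clear * - this; omega⟩
                  exact T0_25 X hb ⟨by have := kB 1 h176 (kA 1 h175 (kA 3 h170 (kA 2 h169 (kB 1 h159 (kB 1 h6 k0))))); clear * - this; omega, by clear * - h189; omega, by have := kB 1 h176 (kA 1 h175 (kA 3 h170 (kB 1 h6 (kA 1 h3 k0)))); clear * - this; omega, by have := kA 1 h184 (kA 2 h170 (kA 3 h169 (kA 1 h156 (kA 3 h5 (kA 1 h4 (kC 1 b38 (kC 1 b29 k0))))))); clear * - this; omega, by clear * - b1 h169 h170; omega⟩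
                rcases lt_or_ge (-N - a - 2*b + 2*m - 2*c - d + 1) 0 with h194 | h194
                · exact T0_38 X hb ⟨by have := kA 2 h194 (kA 4 h184 (kA 5 h174 (kA 2 h157 (kA 4 h156 (kA 6 h4 (kA 4 h3 (kC 4 b36 (kC 4 b29 (kC 8 b2 k0))))))))); clear * - this; omega, by have := kA 2 h194 (kA 2 h169 (kA 2 h4 (kC 1 b36 (kC 1 b29 (kC 1 b11 k0))))); clear * - this; omega, by clear * - b2 h6 h156; omega⟩
                exact T0_133 X hb ⟨by clear * - h188; omega, by have := kA 2 h185 (kA 1 h184 (kA 7 h175 (kA 3 h170 (kA 1 h168 (kA 4 h157 (kA 5 h156 (kC 1 b38 (kC 1 b29 k0)))))))); clear * - this; omega, by have := kB 1 h186 (kA 2 h185 (kA 2 h184 (kA 2 h175 (kA 2 h156 (kA 6 h4 (kC 2 b19 (kC 4 b2 k0))))))); clear * - this; omega, by have := kB 1 h188 (kB 1 h186 (kA 2 h175 (kA 1 h174 (kA 2 h170 k0)))); clear * - this; omega, by clear * - h194; omega, by clear * - h186; omega⟩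
              rcases lt_or_ge (N - 2*a - 2*b + l + 2*c) 0 with h195 | h195
              · exact T0_38 X hb ⟨by have := kA 2 h184 (kA 1 h174 (kA 2 h170 (kA 2 h156 (kA 2 h4 (kC 2 b19 (kC 2 b2 k0)))))); clear * - this; omega, by have := kA 3 h195 (kA 1 h184 (kA 2 h170 (kA 3 h158 (kA 1 h156 (kA 3 h5 (kA 1 h4 (kC 1 b38 (kC 1 b29 k0)))))))); clear * - this; omega, by clear * - b2 h6 h156; omega⟩
              exact T0_73 X hb ⟨by clear * - h195; omega, by have := kB 1 h195 (kB 2 h185 (kB 1 h176 (kA 4 h175 (kA 3 h170 (kA 1 h168 (kA 1 h157 (kA 1 h156 k0))))))); clear * - this; omega, by clear * - h185; omega, by have := kB 1 h195 (kB 4 h185 (kA 1 h174 (kA 2 h168 (kA 1 h156 (kB 1 h6 k0))))); clear * - this; omega, by clear * - h156 h157 h158; omega⟩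
            exact T0_211 X hb ⟨by clear * - h176; omega, by have := kA 1 h170 (kA 1 h169 (kA 1 h168 (kA 1 h158 (kA 1 h4 (kC 1 b36 (kC 1 b29 k0)))))); clear * - this; omega, by clear * - h184; omega⟩
          exact T0_33 X hb ⟨by have := kA 1 h169 (kA 1 h168 (kA 1 h4 (kA 1 h3 (kC 1 b39 (kC 1 b29 k0))))); clear * - this; omega, by clear * - h175; omega, by have := kA 2 h170 (kA 2 h169 (kA 1 h168 (kA 2 h4 (kA 1 h3 (kC 2 b18 k0))))); clear * - this; omega⟩
        exact T0_37 X hb ⟨by clear * - b19 h170; omega, by clear * - h174; omega, by clear * - h171; omega⟩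
      rcases lt_or_ge (a + b + d + V) 0 with h196 | h196
      · rcases lt_or_ge (-N + m - 2*c) 0 with h197 | h197
        · rcases lt_or_ge (-2*N - Q + i + 2*a + 2*b + l + 2*m - 2*c + 3) 0 with h198 | h198
          · rcases lt_or_ge (N - a - b + c + d + V - 1) 0 with h199 | h199
            · rcases lt_or_ge (2*N - Q + i - 2*a - 2*b + l - m + 4*c) 0 with h200 | h200
              · rcases lt_or_ge (2*N - m + c + 3*d + V - 1) 0 with h201 | h201
                · rcases lt_or_ge (4*N - Q - 2*m + 2*c + 4*d - 2) 0 with h202 | h202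
                  · exact T0_303 X hb ⟨by have := kA 1 h202 (kA 1 h201 (kA 1 h198 (kA 1 h4 (kA 2 h2 (kC 1 b36 (kC 1 b29 k0)))))); clear * - this; omega, by have := kA 1 h200 (kA 1 h196 (kB 1 h159 (kA 2 h158 (kA 2 h157 (kA 3 h156 (kA 3 h5 (kA 1 h4 k0))))))); clear * - this; omega, by have := kA 1 h199 (kA 1 h198 (kA 1 h156 (kA 1 h4 (kA 2 h2 (kC 1 b36 (kC 1 b29 k0)))))); clear * - this; omega, by have := kA 1 h201 (kA 1 h199 (kA 2 h197 (kA 1 h156 (kA 2 h4 (kC 1 b38 (kC 1 b29 k0)))))); clear * - this; omega⟩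
                  exact T0_101 X hb ⟨by have := kA 2 h197 (kA 2 h4 (kC 1 b38 (kC 1 b29 k0))); clear * - this; omega, by have := kA 2 h201 (kA 4 h197 (kA 4 h4 (kC 1 b39 (kC 1 b38 (kC 2 b29 k0))))); clear * - this; omega, by clear * - h202; omega, by clear * - h201; omega⟩
                exact T0_314 X hb ⟨by clear * - h201; omega, by clear * - h169; omega, by clear * - b29 h4 h197; omega⟩
              exact T0_160 X hb ⟨by have := kB 1 h200 (kA 2 h196 (kA 1 h169 (kA 2 h157 (kA 1 h4 k0)))); clear * - this; omega, by have := kB 1 h200 (kA 3 h199 (kA 1 h158 (kA 2 h157 (kA 1 h156 (kA 2 h4 (kC 1 b36 (kC 1 b29 k0))))))); clear * - this; omega, by clear * - h200; omega⟩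
            rcases lt_or_ge (i + 2*a + 2*b + l - m - U - 1) 0 with h203 | h203
            · exact T0_24 X hb ⟨by have := kA 1 h203 (kA 2 h157 (kA 2 h5 (kA 2 h4 (kC 1 b18 k0)))); clear * - this; omega, by have := kA 3 h203 (kA 4 h197 (kA 4 h169 (kA 4 h158 (kA 2 h157 (kA 2 h5 (kA 10 h4 (kC 5 b18 (kC 4 b4 k0)))))))); clear * - this; omega, by clear * - b2 h196; omega⟩
            exact T0_33 X hb ⟨by have := kB 1 h203 (kA 4 h197 (kA 2 h196 (kA 1 h169 (kA 5 h4 (kA 4 h3 (kC 3 b39 (kC 3 b29 k0))))))); clear * - this; omega, by clear * - h199; omega, by clear * - h203; omega⟩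
          exact T0_168 X hb ⟨by have := kA 1 h169 (kA 2 h157 (kA 1 h156 (kA 1 h5 (kA 1 h4 (kA 1 h3 (kA 1 h2 (kC 1 b36 (kC 1 b29 k0)))))))); clear * - this; omega, by have := kB 1 h198 (kA 1 h197 (kA 1 h196 (kA 2 h169 (kB 1 h159 (kA 3 h157 (kA 1 h5 k0)))))); clear * - this; omega, by clear * - h198; omega, by clear * - h4 h196 h197; omega⟩
        rcases lt_or_ge (N - 2*a - 2*b + l + 2*c) 0 with h204 | h204
        · rcases lt_or_ge (-Q + 2*b) 0 with h205 | h205
          · exact T0_36 X hb ⟨by have := kA 4 h204 (kB 1 h197 (kA 1 h196 (kA 1 h168 (kB 1 h6 (kA 3 h5 (kA 1 h4 (kA 4 h2 (kC 1 b36 (kC 1 b29 k0))))))))); clear * - this; omega, by clear * - h205; omega, by have := kA 3 h205 (kB 3 h197 (kA 5 h196 (kA 2 h168 (kA 5 h157 (kA 15 h156 (kA 6 h5 (kA 9 h2 (kC 1 b39 (kC 1 b38 (kC 2 b29 k0)))))))))); clear * - this; omega⟩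
          exact T0_87 X hb ⟨by clear * - h205; omega, by clear * - b2 h196; omega, by have := kB 4 h205 (kA 3 h204 (kB 3 h197 (kA 4 h168 (kA 16 h157 (kA 12 h156 (kA 14 h5 (kA 6 h4 (kA 4 h2 (kC 5 b36 (kC 5 b29 k0)))))))))); clear * - this; omega⟩
        rcases lt_or_ge (-N + 2*a + 2*b - 2*c - 1) 0 with h206 | h206
        · exact T0_63 X hb ⟨by have := kA 1 h206 (kB 2 h197 (kA 1 h168 (kA 1 h5 (kC 1 b2 k0)))); clear * - this; omega, by have := kA 1 h196 (kA 1 h157 (kC 1 b4 (kC 1 b2 k0))); clear * - this; omega, by have := kA 3 h206 (kB 7 h197 (kA 3 h168 (kB 2 h159 (kA 1 h156 (kA 9 h5 (kA 7 h2 (kC 1 b39 (kC 1 b38 (kC 2 b29 k0))))))))); clear * - this; omega, by have := kA 2 h206 (kB 2 h197 (kA 1 h168 (kA 2 h157 (kA 2 h5 (kA 1 h3 (kA 2 h2 (kC 1 b18 (kC 2 b4 k0)))))))); clear * - this; omega⟩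
        exact T0_73 X hb ⟨by clear * - h204; omega, by clear * - h206; omega, by clear * - h197; omega, by have := kB 1 h206 (kB 2 h204 (kA 6 h196 (kA 2 h157 (kA 2 h156 (kB 2 h6 (kA 4 h4 k0)))))); clear * - this; omega, by clear * - h156 h157 h158; omega⟩
      rcases lt_or_ge (2*N + l - m + 2*c + 2*d - U + 2*V - 2) 0 with h207 | h207
      · rcases lt_or_ge (-Q + i + 2*a + 2*b + l + 2*d + 1) 0 with h208 | h208
        · rcases lt_or_ge (N - a - b + c - V - 1) 0 with h209 | h209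
          · exact T0_26 X hb ⟨by have := kA 2 h209 (kA 1 h207 (kA 1 h158 (kA 1 h157 (kA 1 h156 (kC 1 b18 (kC 1 b2 k0)))))); clear * - this; omega, by have := kA 2 h209 (kB 2 h170 (kA 1 h158 (kA 1 h157 (kA 1 h156 (kC 1 b36 (kC 1 b29 (kC 1 b2 k0))))))); clear * - this; omega, by have := kA 2 h209 (kA 3 h208 (kA 2 h207 (kB 7 h196 (kA 1 h168 (kA 5 h158 (kA 3 h156 (kA 1 h5 (kC 2 b36 (kC 2 b29 (kC 2 b18 k0)))))))))); clear * - this; omega, by have := kB 1 h170 (kB 1 h6 (kA 1 h4 (kC 2 b2 k0))); clear * - this; omega⟩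
          exact T0_88 X hb ⟨by have := kA 1 h208 (kB 1 h196 (kA 1 h168 (kA 1 h158 (kA 1 h156 (kA 1 h5 (kA 2 h4 (kC 2 b39 (kC 2 b29 k0)))))))); clear * - this; omega, by have := kA 1 h207 (kA 1 h158 (kA 1 h157 (kA 1 h5 (kA 1 h4 (kC 1 b2 k0))))); clear * - this; omega, by clear * - h209; omega⟩
        exact T0_37 X hb ⟨by clear * - b19 h196; omega, by clear * - h208; omega, by have := kB 1 h170 (kA 1 h158 (kA 1 h157 (kA 1 h156 (kA 1 h5 (kA 1 h4 k0))))); clear * - this; omega⟩
      exact T0_229 X hb ⟨by clear * - h207; omega, by clear * - h170; omega, by clear * - h196; omega⟩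
    rcases lt_or_ge (-2*N + i + l + m - 4*d - U + 1) 0 with h210 | h210
    · rcases lt_or_ge (-Q - 2*d - 2*V) 0 with h211 | h211
      · rcases lt_or_ge (i + 2*a + 2*b + l - m - U - 1) 0 with h212 | h212
        · rcases lt_or_ge (-2*N + m - c - d + U + 1) 0 with h213 | h213
          · exact T0_24 X hb ⟨by clear * - h211; omega, by have := kA 2 h213 (kA 1 h212 (kA 1 h211 (kA 2 h158 (kA 2 h5 (kA 2 h4 (kC 2 b4 k0)))))); clear * - this; omega, by have := kA 8 h213 (kA 3 h212 (kA 1 h210 (kA 10 h5 (kA 6 h4 (kA 6 h3 (kC 2 b39 (kC 2 b29 (kC 6 b2 k0)))))))); clear * - this; omega⟩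
          exact T0_9 X hb ⟨by have := kA 1 h158 (kA 1 h157 (kA 1 h156 (kA 1 h5 k0))); clear * - this; omega, by clear * - h213; omega⟩
        exact T0_33 X hb ⟨by have := kA 1 h210 (kA 1 h168 (kA 2 h5 (kA 2 h4 (kA 3 h3 (kC 2 b39 (kC 2 b28 k0)))))); clear * - this; omega, by clear * - h156 h158 h211; omega, by clear * - h212; omega⟩
      rcases lt_or_ge (4*N + i + l - 3*m + 4*c + 4*d - U + 2*V - 3) 0 with h214 | h214
      · exact T0_9 X hb ⟨by have := kA 1 h158 (kA 1 h157 (kA 1 h156 (kA 1 h5 k0))); clear * - this; omega, by have := kA 1 h214 (kA 1 h210 (kA 2 h158 (kA 2 h157 (kA 2 h156 (kA 4 h5 (kA 2 h4 k0)))))); clear * - this; omega⟩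
      rcases lt_or_ge (-2*N - i - l + m - 2*c - 6*d - 2*V - 1) 0 with h215 | h215
      · exact T0_9 X hb ⟨by have := kA 1 h158 (kA 1 h157 (kA 1 h156 (kA 1 h5 k0))); clear * - this; omega, by have := kA 2 h215 (kA 4 h158 (kA 4 h157 (kA 4 h156 (kA 6 h5 (kA 4 h4 (kA 4 h3 (kC 1 b39 (kC 1 b28 k0)))))))); clear * - this; omega⟩
      exact T0_115 X hb ⟨by clear * - h215; omega, by clear * - h211; omega, by have := kB 1 h214 (kA 1 h210 (kB 2 h169 (kA 2 h5 k0))); clear * - this; omega, by clear * - h214; omega, by clear * - b11 h5; omega⟩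
    exact T0_305 X hb ⟨by clear * - h3 h159 h210; omega, by clear * - h169; omega, by clear * - h3 h169 h210; omega, by clear * - b11 h5; omega, by clear * - h210; omega⟩
  exact T0_5 X hb ⟨by clear * - h168; omega, by clear * - h159; omega⟩

theorem M11 (X : C W N Q i a b l m c d L U V) (hb : B N Q i a b l m c d L U V)
    (h1 : (-N + m - c) < 0)
    (h2 : (i - b) < 0)
    (h3 : (2*N + i + l - m + 2*c + 3*d - U + 2*V - 1) < 0)
    (h4 : (c - d - V - 1) < 0)
    (h5 : (N - i - l - c + d - 2) < 0)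
    (h6 : (N - 2*a - b + c - 1) ≥ 0)
    (h156 : (-N + Q - i + b - c - 1) < 0)
    (h157 : (-Q + i - a - b + l + c - d - V + 1) ≥ 0)
    (c1x : (-N + m - c) < 0 → (i - b) < 0 → (2*N + i + l - m + 2*c + 3*d - U + 2*V - 1) < 0 → (c - d - V - 1) < 0 → (N - i - l - c + d - 2) < 0 → (N - 2*a - b + c - 1) ≥ 0 → (-N + Q - i + b - c - 1) < 0 → (-Q + i - a - b + l + c - d - V + 1) ≥ 0 → (-a - b + m - c + d + V) < 0 → False) : False := by
  have b2 := hb.b2
  have b4 := hb.b4
  have b6 := hb.b6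
  have b11 := hb.b11
  have b17 := hb.b17
  have b18 := hb.b18
  have b19 := hb.b19
  have b24 := hb.b24
  have b28 := hb.b28
  have b29 := hb.b29
  have b32 := hb.b32
  have b33 := hb.b33
  have b35 := hb.b35
  have b36 := hb.b36
  have b38 := hb.b38
  have b39 := hb.b39
  rcases lt_or_ge (-a - b + m - c + d + V) 0 with h222 | h222
  · exact c1x h1 h2 h3 h4 h5 h6 h156 h157 h222
  rcases lt_or_ge (a + b + c - d - V - 1) 0 with h503 | h503
  · rcases lt_or_ge (-a) 0 with h504 | h504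
    · rcases lt_or_ge (-a + b - 1) 0 with h505 | h505
      · rcases lt_or_ge (-N + a + b + m - 2*c + d) 0 with h506 | h506
        · rcases lt_or_ge (-a - b + V) 0 with h507 | h507
          · rcases lt_or_ge (2*N - m + c + 3*d + V - 2) 0 with h508 | h508
            · rcases lt_or_ge (-a - b + l + c - V) 0 with h509 | h509
              · exact T0_168 X hb ⟨by have := kA 2 h509 (kA 1 h508 (kA 2 h507 (kA 1 h505 (kA 2 h503 (kB 1 h222 (kA 2 h2 (kC 1 b19 (kC 2 b6 k0)))))))); clear * - this; omega, by have := kA 2 h509 (kA 1 h508 (kA 1 h505 (kA 1 h503 (kA 2 h2 (kC 1 b19 (kC 1 b18 (kC 1 b6 k0))))))); clear * - this; omega, by have := kA 2 h509 (kA 1 h508 (kA 8 h507 (kA 1 h505 (kA 4 h503 (kB 3 h222 (kA 2 h156 (kA 4 h5 (kA 4 h2 k0)))))))); clear * - this; omega, by clear * - h503 h506 h507; omega⟩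
              rcases lt_or_ge (a + b + m - c + 2*d + V) 0 with h510 | h510
              · rcases lt_or_ge (Q - i - l - 2*d - 2) 0 with h511 | h511
                · exact T0_128 X hb ⟨by have := kA 1 h511 (kA 2 h507 (kA 2 h505 (kA 4 h503 (kA 4 h5 (kA 4 h2 (kC 2 b33 (kC 2 b24 (kC 1 b19 k0)))))))); clear * - this; omega, by have := kA 2 h511 (kA 2 h505 (kA 2 h503 (kA 2 h5 (kA 4 h2 (kC 1 b38 (kC 1 b29 (kC 1 b19 (kC 2 b18 k0)))))))); clear * - this; omega, by have := kA 2 h507 (kA 2 h506 (kA 1 h503 (kB 1 h222 k0))); clear * - this; omega⟩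
                rcases lt_or_ge (2*N - Q + i - 2*a - 2*b + l - m + 2*c + 2*d - 1) 0 with h512 | h512
                · exact T0_53 X hb ⟨by have := kA 1 h512 (kA 2 h510 (kA 1 h508 (kA 3 h505 (kA 5 h503 (kA 6 h5 (kA 6 h2 (kC 6 b33 (kC 6 b29 k0)))))))); clear * - this; omega, by have := kA 1 h512 (kA 1 h510 (kA 4 h507 (kA 3 h503 (kA 1 h156 (kA 1 h5 (kA 1 h2 k0)))))); clear * - this; omega, by have := kA 1 h512 (kA 2 h510 (kA 2 h505 (kA 4 h503 (kA 2 h156 (kA 6 h5 (kA 6 h2 (kC 1 b39 (kC 4 b33 (kC 5 b29 k0))))))))); clear * - this; omega⟩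
                rcases lt_or_ge (2*N - Q + i - 2*a - 2*b + l - m + 4*c) 0 with h513 | h513
                · exact T0_53 X hb ⟨by have := kA 1 h513 (kA 1 h508 (kA 2 h506 (kA 1 h505 (kA 3 h503 (kA 2 h2 (kC 2 b33 (kC 2 b29 (kC 2 b6 k0)))))))); clear * - this; omega, by have := kA 3 h513 (kB 1 h512 (kA 2 h510 (kA 2 h507 (kA 2 h156 (kA 2 h5 (kA 2 h2 k0)))))); clear * - this; omega, by have := kA 1 h510 (kA 2 h505 (kA 3 h503 (kA 1 h156 (kA 5 h5 (kA 5 h2 (kC 4 b33 (kC 3 b29 (kC 1 b28 k0)))))))); clear * - this; omega⟩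
                exact T0_129 X hb ⟨by clear * - h511; omega, by clear * - h503 h507; omega, by clear * - h513; omega, by have := kB 1 h511 (kA 2 h507 (kA 2 h503 (kA 2 h156 (kA 2 h5 (kA 2 h2 k0))))); clear * - this; omega⟩
              exact T0_283 X hb ⟨by clear * - h509; omega, by have := kA 2 h506 (kA 2 h4 (kC 1 b39 (kC 1 b28 k0))); clear * - this; omega, by clear * - h510; omega, by have := kB 1 h509 (kA 2 h508 (kA 2 h506 (kC 1 b33 (kC 1 b29 k0)))); clear * - this; omega, by have := kA 1 h503 (kA 1 h156 (kA 1 h5 (kA 1 h2 (kC 1 b19 k0)))); clear * - this; omega, by have := kB 1 h510 (kA 2 h507 (kA 2 h506 (kA 2 h4 k0))); clear * - this; omega⟩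
            rcases lt_or_ge (-2*N + i + l + m - 4*d - U + 1) 0 with h514 | h514
            · rcases lt_or_ge (-2*N + m - 2*c + U + 1) 0 with h515 | h515
              · exact T0_103 X hb ⟨by have := kA 10 h515 (kA 4 h514 (kB 2 h508 (kA 8 h505 (kA 20 h503 (kA 20 h5 (kA 16 h2 (kC 5 b33 (kC 5 b24 (kC 11 b19 (kC 6 b4 k0)))))))))); clear * - this; omega, by have := kA 15 h515 (kA 2 h514 (kB 1 h508 (kA 9 h505 (kA 25 h503 (kA 20 h5 (kA 18 h2 (kC 5 b33 (kC 5 b24 (kC 13 b19 (kC 8 b4 k0)))))))))); clear * - this; omega, by clear * - b11 h5; omega, by have := kA 1 h515 (kA 1 h514 (kA 3 h507 (kA 1 h506 (kA 2 h503 (kA 1 h156 (kA 2 h5 (kA 1 h4 (kA 1 h2 k0)))))))); clear * - this; omega⟩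
              rcases lt_or_ge (l + 2*d) 0 with h516 | h516
              · exact T0_103 X hb ⟨by have := kA 4 h516 (kA 2 h514 (kA 2 h507 (kA 2 h505 (kA 4 h503 (kA 6 h5 (kA 4 h2 (kC 2 b39 (kC 2 b29 (kC 1 b19 k0))))))))); clear * - this; omega, by have := kA 8 h516 (kB 2 h515 (kA 6 h514 (kA 2 h507 (kA 4 h505 (kA 6 h503 (kA 14 h5 (kA 8 h2 (kC 5 b39 (kC 5 b28 (kC 2 b19 k0)))))))))); clear * - this; omega, by clear * - b11 h5; omega, by have := kA 8 h516 (kB 4 h515 (kA 10 h514 (kA 2 h507 (kA 4 h505 (kA 4 h503 (kB 2 h157 (kA 18 h5 (kA 8 h2 (kC 7 b39 (kC 7 b28 k0)))))))))); clear * - this; omega⟩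
              exact T0_128 X hb ⟨by clear * - h515; omega, by clear * - h516; omega, by have := kA 2 h507 (kA 2 h506 (kA 1 h503 (kB 1 h222 k0))); clear * - this; omega⟩
            exact T0_305 X hb ⟨by have := kB 2 h514 (kA 4 h507 (kA 2 h506 (kA 2 h504 (kA 4 h503 (kA 2 h3 (kA 2 h2 (kC 1 b33 (kC 1 b24 k0)))))))); clear * - this; omega, by clear * - h508; omega, by clear * - h3 h508 h514; omega, by clear * - b11 h5; omega, by clear * - h514; omega⟩
          rcases lt_or_ge (a + b - V) 0 with h517 | h517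
          · rcases lt_or_ge (i + 2*a + 2*b + l - m - U - 1) 0 with h518 | h518
            · exact T0_128 X hb ⟨by have := kA 1 h518 (kA 4 h517 (kA 2 h505 (kA 4 h503 (kA 2 h5 (kA 4 h2 (kC 4 b19 (kC 3 b18 (kC 4 b4 k0)))))))); clear * - this; omega, by have := kA 1 h518 (kA 2 h505 (kA 4 h503 (kA 2 h5 (kA 4 h2 (kC 2 b19 (kC 3 b18 (kC 2 b4 k0))))))); clear * - this; omega, by have := kA 2 h518 (kA 2 h506 (kA 2 h503 (kA 3 h5 (kA 1 h3 (kA 5 h1 (kC 3 b39 (kC 3 b29 k0))))))); clear * - this; omega⟩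
            rcases lt_or_ge (N - a - b + c + d + V - 1) 0 with h519 | h519
            · rcases lt_or_ge (-i - 2*a - 2*b - 2*d - 2*V - 1) 0 with h520 | h520
              · exact T0_20 X hb ⟨by have := kA 1 h520 (kA 8 h519 (kA 6 h517 (kB 2 h6 (kA 4 h2 (kC 3 b33 (kC 3 b29 k0)))))); clear * - this; omega, by clear * - h6 h505; omega, by clear * - h519 h520; omega⟩
              exact T0_111 X hb ⟨by have := kB 1 h520 (kA 2 h519 (kA 2 h517 (kC 1 b33 (kC 1 b29 k0)))); clear * - this; omega, by have := kA 1 h519 (kA 2 h517 (kA 1 h505 (kA 2 h5 (kA 2 h2 (kC 2 b33 (kC 2 b29 k0)))))); clear * - this; omega, by clear * - h520; omega, by have := kA 2 h519 (kA 2 h517 (kC 1 b35 (kC 1 b29 k0))); clear * - this; omega, by clear * - b18 h517 h519; omega⟩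
            exact T0_33 X hb ⟨by have := kB 1 h518 (kA 2 h504 (kA 4 h503 (kA 6 h3 (kA 2 h2 (kA 2 h1 (kC 2 b33 (kC 2 b28 (kC 3 b18 k0)))))))); clear * - this; omega, by clear * - h519; omega, by clear * - h518; omega⟩
          exact T0_244 X hb ⟨by have := kB 5 h517 (kA 3 h506 (kA 1 h505 (kA 3 h503 (kA 3 h5 (kA 1 h3 (kA 2 h2 (kC 3 b39 (kC 3 b29 k0)))))))); clear * - this; omega, by have := kB 4 h507 (kA 2 h504 (kA 2 h503 (kA 2 h5 (kA 2 h2 (kC 1 b38 (kC 1 b29 (kC 1 b19 (kC 2 b4 k0)))))))); clear * - this; omega, by clear * - h507; omega, by clear * - h517; omega⟩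
        rcases lt_or_ge (N - i - a - b - l - d - 2) 0 with h521 | h521
        · exact T0_2 X hb ⟨by have := kA 1 h521 (kA 1 h505 (kA 1 h503 (kA 1 h5 (kA 1 h2 (kC 1 b33 (kC 1 b24 k0)))))); clear * - this; omega, by have := kA 2 h503 (kA 2 h5 (kA 2 h3 (kA 2 h2 (kC 1 b33 (kC 1 b24 (kC 2 b18 k0)))))); clear * - this; omega, by have := kA 1 h521 (kA 1 h505 (kA 1 h503 (kB 1 h6 (kA 1 h5 (kA 2 h2 (kA 1 h1 (kC 1 b33 (kC 1 b28 k0)))))))); clear * - this; omega⟩
        exact T0_97 X hb ⟨by have := kA 1 h503 (kB 1 h157 (kC 1 b33 (kC 1 b32 (kC 2 b29 k0)))); clear * - this; omega, by clear * - h521; omega, by have := kA 2 h505 (kA 4 h503 (kA 2 h156 (kA 6 h5 (kA 6 h2 (kC 3 b33 (kC 2 b29 (kC 1 b24 (kC 2 b19 k0)))))))); clear * - this; omega, by clear * - h1 h506; omega, by clear * - h506; omega⟩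
      rcases lt_or_ge (i + a - b) 0 with h522 | h522
      · rcases lt_or_ge (l + 2*d) 0 with h523 | h523
        · rcases lt_or_ge (-2*a - b - d - V - 1) 0 with h524 | h524
          · rcases lt_or_ge (-N + a + b + m - 2*c + d) 0 with h525 | h525
            · rcases lt_or_ge (2*N - m + c + 3*d + V - 2) 0 with h526 | h526
              · rcases lt_or_ge (-2*N + 2*m - 2*c - d + 1) 0 with h527 | h527
                · exact T0_168 X hb ⟨by have := kA 1 h526 (kA 2 h524 (kB 1 h505 (kB 1 h222 (kC 1 b19 k0)))); clear * - this; omega, by have := kA 1 h526 (kA 2 h524 (kA 1 h523 (kA 1 h522 (kA 1 h503 (kC 1 b19 (kC 1 b18 k0)))))); clear * - this; omega, by have := kA 1 h527 (kA 4 h526 (kA 6 h524 (kA 2 h522 (kB 2 h505 (kA 4 h503 (kA 2 h156 (kA 3 h3 (kC 2 b36 (kC 2 b29 (kC 3 b18 k0)))))))))); clear * - this; omega, by have := kA 1 h527 (kA 2 h525 (kA 2 h503 (kA 1 h3 (kC 1 b18 k0)))); clear * - this; omega⟩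
                exact T0_5 X hb ⟨by clear * - h527; omega, by have := kA 2 h525 (kA 4 h524 (kA 1 h523 (kA 2 h522 (kA 4 h503 (kA 4 h3 (kC 1 b33 (kC 1 b29 (kC 4 b18 k0)))))))); clear * - this; omega⟩
              rcases lt_or_ge (-2*N + i + l + m - 4*d - U + 1) 0 with h528 | h528
              · rcases lt_or_ge (Q - i - l - m - 2*d - 3) 0 with h529 | h529
                · rcases lt_or_ge (-c + d - 1) 0 with h530 | h530
                  · exact T0_33 X hb ⟨by have := kA 2 h530 (kA 6 h528 (kB 2 h526 (kA 4 h524 (kA 2 h523 (kA 2 h522 (kA 6 h503 (kA 14 h5 (kA 8 h3 (kC 7 b39 (kC 7 b28 k0)))))))))); clear * - this; omega, by have := kA 5 h530 (kA 1 h528 (kA 2 h503 (kB 1 h222 (kA 1 h5 (kC 1 b39 (kC 1 b29 k0)))))); clear * - this; omega, by have := kA 5 h528 (kA 4 h524 (kA 2 h523 (kA 2 h522 (kA 4 h503 (kA 12 h5 (kA 4 h3 (kC 5 b39 (kC 5 b28 k0)))))))); clear * - this; omega⟩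
                  exact T0_129 X hb ⟨by have := kA 1 h525 (kA 1 h524 (kA 1 h523 (kA 1 h522 (kA 1 h504 (kA 1 h503 (kA 1 h5 (kC 1 b39 (kC 1 b29 (kC 1 b19 k0))))))))); clear * - this; omega, by clear * - h530; omega, by clear * - h525 h529; omega, by have := kB 1 h526 (kA 2 h523 (kA 2 h522 (kB 1 h505 (kA 6 h504 (kB 1 h222 (kB 2 h157 (kA 2 h5 k0))))))); clear * - this; omega⟩
                exact T0_103 X hb ⟨by have := kB 1 h529 (kA 1 h528 (kB 1 h526 (kA 1 h523 (kA 1 h522 (kA 2 h504 (kA 1 h503 (kA 2 h5 (kC 1 b19 k0)))))))); clear * - this; omega, by clear * - h529; omega, by have := kA 2 h524 (kA 2 h522 (kA 2 h503 (kA 2 h156 (kA 2 h5 (kC 1 b39 (kC 1 b28 (kC 2 b19 k0))))))); clear * - this; omega, by have := kB 3 h529 (kA 14 h528 (kA 8 h524 (kA 4 h523 (kA 4 h522 (kA 4 h503 (kB 8 h157 (kA 20 h5 (kA 2 h3 (kC 8 b39 (kC 8 b28 k0)))))))))); clear * - this; omega⟩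
              exact T0_305 X hb ⟨by have := kB 4 h526 (kA 2 h525 (kA 4 h524 (kA 2 h523 (kA 2 h522 (kA 4 h503 (kA 8 h5 (kA 10 h3 (kC 5 b39 (kC 5 b28 k0))))))))); clear * - this; omega, by clear * - h526; omega, by clear * - h3 h526 h528; omega, by have := kB 1 h528 (kA 2 h524 (kA 2 h522 (kA 2 h503 (kA 2 h156 (kA 4 h5 (kC 1 b39 (kC 1 b29 (kC 2 b19 k0)))))))); clear * - this; omega, by clear * - h528; omega⟩
            rcases lt_or_ge (-N + Q - i + a + b - l - 2*c - d - 2) 0 with h531 | h531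
            · exact T0_97 X hb ⟨by have := kA 1 h503 (kB 1 h157 (kC 1 b33 (kC 1 b32 (kC 2 b29 k0)))); clear * - this; omega, by have := kA 1 h531 (kA 2 h523 (kA 2 h522 (kA 4 h504 (kA 2 h503 (kC 1 b19 (kC 1 b18 k0)))))); clear * - this; omega, by have := kA 3 h531 (kA 2 h524 (kA 2 h523 (kA 2 h522 (kB 2 h505 (kA 8 h504 (kA 4 h503 (kB 2 h6 (kA 2 h5 (kC 3 b19 k0))))))))); clear * - this; omega, by clear * - h1 h525; omega, by clear * - h525; omega⟩
            rcases lt_or_ge (N - a - b + 2*c - d - 1) 0 with h532 | h532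
            · exact T0_165 X hb ⟨by have := kA 2 h532 (kA 1 h523 (kA 1 h522 (kA 1 h504 (kA 1 h156 (kC 1 b6 k0))))); clear * - this; omega, by have := kA 1 h523 (kA 1 h522 (kA 3 h504 (kA 2 h503 (kA 1 h156 (kC 1 b19 (kC 1 b18 k0)))))); clear * - this; omega⟩
            exact T0_44 X hb ⟨by have := kA 1 h503 (kB 1 h157 (kC 1 b33 (kC 1 b32 (kC 2 b29 k0)))); clear * - this; omega, by clear * - h531; omega, by clear * - h525; omega, by clear * - h532; omega, by have := kA 1 h524 (kA 1 h522 (kA 1 h504 (kA 1 h503 (kA 1 h156 (kB 1 h6 (kA 1 h5 (kC 1 b19 k0))))))); clear * - this; omega⟩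
          rcases lt_or_ge (Q - i + b + d + V - 1) 0 with h533 | h533
          · rcases lt_or_ge (i + l - m - U - 1) 0 with h534 | h534
            · rcases lt_or_ge (N - a - b + c + d + V - 1) 0 with h535 | h535
              · rcases lt_or_ge (a + b + m - c + 2*d + V) 0 with h536 | h536
                · exact T0_129 X hb ⟨by have := kA 1 h534 (kA 4 h523 (kA 4 h522 (kA 8 h504 (kA 4 h503 (kA 2 h5 (kC 2 b19 (kC 3 b18 k0))))))); clear * - this; omega, by have := kA 2 h535 (kA 1 h534 (kA 2 h503 (kC 1 b18 k0))); clear * - this; omega, by have := kA 2 h536 (kA 2 h535 (kA 5 h534 (kA 2 h533 (kA 2 h523 (kA 4 h522 (kA 6 h504 (kA 6 h503 (kA 4 h5 (kC 5 b18 k0))))))))); clear * - this; omega, by have := kA 1 h536 (kA 1 h522 (kB 2 h505 (kA 5 h504 (kB 1 h222 (kA 1 h156 (kA 1 h5 k0)))))); clear * - this; omega⟩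
                rcases lt_or_ge (-a - b + l + c - V) 0 with h537 | h537
                · exact T0_53 X hb ⟨by have := kA 3 h534 (kA 4 h523 (kA 4 h522 (kA 8 h504 (kA 8 h503 (kA 2 h5 (kC 2 b19 (kC 5 b18 k0))))))); clear * - this; omega, by have := kA 1 h537 (kA 1 h533 (kA 2 h522 (kA 3 h504 (kA 1 h503 (kA 1 h5 (kC 1 b19 (kC 1 b18 k0))))))); clear * - this; omega, by have := kA 4 h537 (kA 5 h534 (kA 2 h533 (kB 6 h524 (kA 2 h523 (kA 8 h522 (kA 20 h504 (kA 8 h503 (kA 6 h5 (kC 7 b18 k0))))))))); clear * - this; omega⟩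
                exact T0_283 X hb ⟨by clear * - h537; omega, by have := kB 1 h537 (kA 2 h523 (kA 1 h522 (kB 1 h505 (kA 4 h504 (kA 2 h503 (kC 1 b18 k0)))))); clear * - this; omega, by clear * - h536; omega, by clear * - h523 h537; omega, by have := kA 1 h535 (kA 1 h534 (kB 1 h524 (kA 1 h504 (kA 1 h503 (kA 1 h5 k0))))); clear * - this; omega, by clear * - h1 h536; omega⟩
              rcases lt_or_ge (i + 2*a + 2*b + l - m - U - 1) 0 with h538 | h538
              · exact T0_9 X hb ⟨by have := kA 1 h538 (kA 2 h523 (kA 2 h522 (kA 4 h504 (kA 2 h5 (kC 1 b18 k0))))); clear * - this; omega, by have := kA 1 h538 (kB 1 h535 (kA 2 h522 (kA 4 h504 (kA 3 h503 (kA 3 h5 (kC 2 b19 (kC 2 b4 k0))))))); clear * - this; omega⟩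
              exact T0_33 X hb ⟨by have := kB 2 h538 (kB 3 h535 (kA 3 h533 (kA 1 h523 (kA 4 h522 (kA 5 h504 (kA 2 h503 (kA 1 h1 (kC 1 b39 (kC 1 b29 (kC 3 b19 k0)))))))))); clear * - this; omega, by clear * - h535; omega, by clear * - h538; omega⟩
            rcases lt_or_ge (-i - 2*a - 2*b - 2*d - 2*V - 1) 0 with h539 | h539
            · exact T0_87 X hb ⟨by have := kA 1 h539 (kA 1 h533 (kB 1 h524 (kA 2 h522 (kA 2 h504 k0)))); clear * - this; omega, by clear * - h504 h524; omega, by clear * - h539; omega⟩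
            exact T0_111 X hb ⟨by have := kB 1 h539 (kB 1 h534 (kA 1 h533 (kB 1 h524 (kA 1 h523 (kA 2 h522 (kA 4 h504 (kA 2 h503 (kC 1 b33 (kC 1 b29 (kC 1 b19 k0)))))))))); clear * - this; omega, by have := kA 1 h523 (kA 2 h522 (kA 4 h504 (kA 2 h503 (kC 1 b33 (kC 1 b29 (kC 2 b6 k0)))))); clear * - this; omega, by clear * - h539; omega, by have := kB 2 h534 (kA 2 h522 (kA 4 h504 (kA 2 h503 (kA 2 h5 (kC 1 b38 (kC 1 b29 (kC 1 b19 (kC 2 b4 k0)))))))); clear * - this; omega, by clear * - h534; omega⟩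
          exact T0_123 X hb ⟨by clear * - h524; omega, by clear * - h533; omega, by have := kB 1 h524 (kA 1 h523 (kA 2 h522 (kA 4 h504 (kA 2 h503 (kC 1 b18 (kC 1 b6 k0)))))); clear * - this; omega⟩
        rcases lt_or_ge (2*N - 2*a - 2*b + l - m + 2*c + 2*d - 1) 0 with h540 | h540
        · rcases lt_or_ge (-Q + i + b + l + c + d + 1) 0 with h541 | h541
          · rcases lt_or_ge (-N + Q - i + a + b - l - 2*c - d - 2) 0 with h542 | h542
            · exact T0_20 X hb ⟨by have := kA 2 h541 (kA 4 h540 (kB 3 h523 (kA 3 h522 (kB 1 h505 (kA 2 h503 (kB 2 h157 (kA 4 h1 (kC 2 b33 (kC 2 b29 k0))))))))); clear * - this; omega, by clear * - h541 h542; omega, by have := kA 7 h540 (kB 6 h523 (kA 2 h503 (kA 3 h5 (kA 1 h3 (kA 7 h1 (kC 2 b33 (kC 2 b29 (kC 1 b18 k0)))))))); clear * - this; omega⟩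
            exact T0_44 X hb ⟨by have := kA 1 h541 (kB 1 h523 (kB 1 h505 (kA 1 h156 k0))); clear * - this; omega, by clear * - h542; omega, by have := kA 1 h541 (kA 1 h540 (kB 2 h523 (kB 1 h505 (kA 1 h156 k0)))); clear * - this; omega, by have := kA 1 h541 (kA 1 h522 (kA 1 h156 (kC 1 b6 k0))); clear * - this; omega, by have := kA 2 h522 (kA 4 h504 (kA 4 h503 (kA 2 h3 (kC 1 b33 (kC 1 b24 (kC 4 b6 k0)))))); clear * - this; omega⟩
          rcases lt_or_ge (-b + m - c + d) 0 with h543 | h543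
          · exact T0_96 X hb ⟨by have := kA 1 h540 (kA 1 h522 (kB 1 h505 (kA 2 h504 k0))); clear * - this; omega, by have := kA 1 h543 (kA 1 h522 (kA 4 h504 (kA 2 h503 (kA 1 h156 (kB 1 h6 (kC 1 b19 (kC 1 b18 k0))))))); clear * - this; omega, by clear * - h504 h505 h522; omega, by have := kA 7 h540 (kB 5 h523 (kA 2 h522 (kA 4 h504 (kA 1 h503 (kB 3 h222 (kA 10 h5 (kA 2 h3 (kC 2 b39 (kC 2 b29 k0))))))))); clear * - this; omega, by clear * - b6 h523 h540; omega⟩
          exact T0_67 X hb ⟨by clear * - h541; omega, by clear * - h1 h540 h543; omega, by clear * - h1 h543; omega, by clear * - h543; omega, by have := kA 2 h522 (kA 2 h504 (kA 2 h5 (kC 1 b33 (kC 1 b24 k0)))); clear * - this; omega⟩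
        rcases lt_or_ge (-2*N - l + m - 2*c - 2*d + U) 0 with h544 | h544
        · rcases lt_or_ge (-2*a - b - d - V - 1) 0 with h545 | h545
          · rcases lt_or_ge (2*N - 2*a - 2*b - m + 2*c - 2) 0 with h546 | h546
            · exact T0_50 X hb ⟨by have := kA 2 h544 (kA 2 h504 (kA 2 h503 (kA 2 h5 (kC 1 b33 (kC 1 b24 k0))))); clear * - this; omega, by have := kA 2 h546 (kA 2 h545 (kA 1 h544 (kB 1 h540 (kA 2 h503 (kA 3 h5 (kA 3 h3 (kA 1 h1 (kC 2 b33 (kC 2 b24 k0))))))))); clear * - this; omega, by have := kA 2 h546 (kA 2 h544 (kA 2 h522 (kA 2 h503 (kA 2 h156 (kA 2 h5 (kA 2 h1 (kC 1 b33 (kC 1 b24 (kC 2 b19 k0))))))))); clear * - this; omega⟩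
            exact T0_128 X hb ⟨by have := kA 2 h545 (kA 1 h544 (kA 2 h522 (kA 4 h503 (kA 2 h156 (kA 2 h5 (kC 3 b19 (kC 1 b4 k0))))))); clear * - this; omega, by clear * - h523; omega, by clear * - h546; omega⟩
          rcases lt_or_ge (Q - i + b + d + V - 1) 0 with h547 | h547
          · rcases lt_or_ge (-2*N + m - 2*c + U + 1) 0 with h548 | h548
            · rcases lt_or_ge (i + l - m - U - 1) 0 with h549 | h549
              · exact T0_33 X hb ⟨by have := kA 2 h548 (kA 2 h503 (kA 2 h3 (kC 1 b35 (kC 1 b29 k0)))); clear * - this; omega, by have := kA 4 h549 (kA 3 h548 (kA 1 h544 (kA 6 h503 (kA 4 h5 (kC 1 b33 (kC 1 b29 k0)))))); clear * - this; omega, by have := kA 1 h549 (kA 4 h548 (kA 2 h544 (kA 2 h522 (kA 4 h504 (kA 8 h503 (kA 4 h5 (kC 4 b19 (kC 4 b4 k0)))))))); clear * - this; omega⟩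
              exact T0_111 X hb ⟨by have := kB 1 h549 (kA 3 h548 (kA 1 h547 (kB 1 h545 (kA 1 h544 (kA 4 h503 (kA 4 h3 (kC 1 b38 (kC 1 b29 k0)))))))); clear * - this; omega, by have := kA 2 h522 (kA 4 h504 (kA 2 h503 (kC 1 b33 (kC 1 b24 (kC 2 b6 k0))))); clear * - this; omega, by have := kB 1 h549 (kA 6 h548 (kA 2 h547 (kA 3 h544 (kA 12 h522 (kA 14 h504 (kA 12 h503 (kA 8 h156 (kA 6 h5 (kC 10 b19 k0))))))))); clear * - this; omega, by have := kB 1 h549 (kA 1 h544 (kA 1 h522 (kB 3 h505 (kA 8 h504 (kA 4 h503 (kA 2 h5 (kC 2 b19 (kC 2 b4 k0)))))))); clear * - this; omega, by clear * - h549; omega⟩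
            rcases lt_or_ge (2*N - 2*a - 2*b - m + 2*c - 2) 0 with h550 | h550
            · exact T0_50 X hb ⟨by have := kA 2 h544 (kA 2 h504 (kA 2 h503 (kA 2 h5 (kC 1 b33 (kC 1 b24 k0))))); clear * - this; omega, by have := kA 1 h550 (kB 1 h548 (kA 2 h504 (kA 1 h5 (kA 1 h3 (kA 1 h1 (kC 1 b33 (kC 1 b24 k0))))))); clear * - this; omega, by have := kA 2 h550 (kA 1 h547 (kB 1 h545 (kA 1 h544 (kA 2 h522 (kA 2 h5 (kA 2 h1 (kC 2 b33 (kC 2 b29 (kC 1 b19 k0))))))))); clear * - this; omega⟩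
            exact T0_128 X hb ⟨by clear * - h548; omega, by clear * - h523; omega, by clear * - h550; omega⟩
          exact T0_123 X hb ⟨by clear * - h545; omega, by clear * - h547; omega, by have := kB 1 h545 (kA 1 h544 (kA 2 h522 (kA 4 h504 (kA 2 h503 (kA 2 h5 (kC 1 b33 (kC 1 b24 k0))))))); clear * - this; omega⟩
        exact T0_308 X hb ⟨by clear * - h544; omega, by clear * - h523; omega, by clear * - h540; omega⟩
      exact T0_40 X hb ⟨by clear * - h522; omega, by clear * - h505; omega⟩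
    rcases lt_or_ge (-2*N + 2*a + m - 2*c + U + 1) 0 with h551 | h551
    · exact T0_246 X hb ⟨by have := kA 1 h551 (kA 2 h503 (kC 1 b6 (kC 4 b2 k0))); clear * - this; omega, by have := kA 4 h551 (kA 4 h503 (kB 2 h157 (kA 2 h5 (kA 2 h2 (kC 1 b38 (kC 1 b29 (kC 1 b19 (kC 14 b2 k0)))))))); clear * - this; omega, by have := kB 2 h504 (kA 2 h503 (kA 2 h5 (kA 2 h2 (kC 1 b38 (kC 1 b29 (kC 1 b19 (kC 2 b4 k0))))))); clear * - this; omega, by clear * - h504; omega⟩
    rcases lt_or_ge (-2*N + 2*a - l + m - 2*c - 2*d + U) 0 with h552 | h552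
    · rcases lt_or_ge (2*N - 2*a - 2*b - m + 2*c - 2) 0 with h553 | h553
      · exact T0_50 X hb ⟨by have := kA 2 h552 (kA 2 h503 (kA 2 h5 (kC 1 b33 (kC 1 b24 (kC 6 b2 k0))))); clear * - this; omega, by have := kA 1 h553 (kB 1 h551 (kA 1 h5 (kA 1 h3 (kA 1 h1 (kC 1 b33 (kC 1 b24 k0)))))); clear * - this; omega, by have := kA 1 h553 (kA 1 h552 (kA 1 h5 (kA 1 h3 (kA 1 h1 (kC 1 b33 (kC 1 b29 k0)))))); clear * - this; omega⟩
      exact T0_128 X hb ⟨by clear * - h504 h551; omega, by clear * - h551 h552; omega, by clear * - h553; omega⟩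
    exact T0_263 X hb ⟨by clear * - h552; omega, by have := kA 2 h503 (kA 1 h156 (kA 1 h2 (kA 1 h1 (kC 1 b19 (kC 1 b6 (kC 2 b2 k0)))))); clear * - this; omega, by clear * - h551; omega, by clear * - h504; omega⟩
  rcases lt_or_ge (2*N + a + b - m + c + d - U + V - 3) 0 with h554 | h554
  · rcases lt_or_ge (m - c + 2*d + V) 0 with h555 | h555
    · rcases lt_or_ge (2*N - 2*a - 2*b - m + 2*c - 2) 0 with h556 | h556
      · exact T0_35 X hb ⟨by have := kA 1 h554 (kC 1 b18 (kC 1 b17 (kC 1 b2 k0))); clear * - this; omega, by have := kA 1 h556 (kA 2 h555 (kB 1 h503 (kB 1 h222 (kA 2 h4 (kC 1 b33 (kC 1 b24 (kC 2 b2 k0))))))); clear * - this; omega, by have := kA 2 h554 (kB 2 h503 (kA 2 h5 (kA 4 h4 (kA 2 h2 (kC 1 b33 (kC 1 b24 k0)))))); clear * - this; omega, by have := kA 2 h5 (kA 2 h2 (kC 1 b33 (kC 1 b24 k0))); clear * - this; omega⟩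
      exact T0_128 X hb ⟨by clear * - h4 h503 h554; omega, by have := kA 1 h554 (kA 1 h4 (kA 1 h2 (kC 1 b18 (kC 1 b2 k0)))); clear * - this; omega, by clear * - h556; omega⟩
    rcases lt_or_ge (-Q + i + l + c - V + 1) 0 with h557 | h557
    · exact T0_37 X hb ⟨by have := kA 4 h557 (kA 3 h554 (kB 1 h157 (kA 2 h2 (kC 2 b18 (kC 2 b4 (kC 2 b2 k0)))))); clear * - this; omega, by have := kA 1 h554 (kA 1 h4 (kA 1 h2 (kC 1 b18 (kC 1 b4 (kC 1 b2 k0))))); clear * - this; omega, by clear * - h157 h557; omega⟩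
    exact T0_289 X hb ⟨by clear * - h555; omega, by have := kA 2 h554 (kB 2 h503 (kA 2 h1 (kC 1 b39 (kC 1 b28 (kC 2 b17 k0))))); clear * - this; omega, by clear * - h557; omega, by clear * - h1 h555; omega, by have := kA 2 h1 (kC 1 b39 (kC 1 b28 (kC 2 b17 k0))); clear * - this; omega⟩
  exact T0_157 X hb ⟨by clear * - h4 h503; omega, by clear * - h222; omega, by clear * - h503; omega, by clear * - h157; omega, by clear * - h554; omega⟩

theorem P3 (X : C W N Q i a b l m c d L U V) (hb : B N Q i a b l m c d L U V)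
    (h1 : (-N + m - c) < 0)
    (h2 : (i - b) < 0)
    (h3 : (2*N + i + l - m + 2*c + 3*d - U + 2*V - 1) < 0)
    (c1x : (-N + m - c) < 0 → (i - b) < 0 → (2*N + i + l - m + 2*c + 3*d - U + 2*V - 1) < 0 → (c - d - V - 1) < 0 → (N - i - l - c + d - 2) < 0 → (N - 2*a - b + c - 1) ≥ 0 → (-N + Q - i + b - c - 1) < 0 → (-Q + i - a - b + l + c - d - V + 1) ≥ 0 → (-a - b + m - c + d + V) < 0 → False)
    (c2x : (-N + m - c) < 0 → (i - b) < 0 → (2*N + i + l - m + 2*c + 3*d - U + 2*V - 1) < 0 → (c - d - V - 1) < 0 → (N - i - l - c + d - 2) < 0 → (N - 2*a - b + c - 1) < 0 → False) : False := by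
  have b1 := hb.b1
  have b2 := hb.b2
  have b3 := hb.b3
  have b9 := hb.b9
  have b17 := hb.b17
  have b18 := hb.b18
  have b24 := hb.b24
  have b28 := hb.b28
  have b29 := hb.b29
  have b33 := hb.b33
  have b34 := hb.b34
  have b39 := hb.b39
  rcases lt_or_ge (c - d - V - 1) 0 with h4 | h4
  · rcases lt_or_ge (N - i - l - c + d - 2) 0 with h5 | h5
    · rcases lt_or_ge (N - 2*a - b + c - 1) 0 with h6 | h6
      · exact c2x h1 h2 h3 h4 h5 h6
      rcases lt_or_ge (-N + Q - i + b - c - 1) 0 with h156 | h156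
      · rcases lt_or_ge (-Q + i - a - b + l + c - d - V + 1) 0 with h157 | h157
        · rcases lt_or_ge (i + a + d + V) 0 with h158 | h158
          · exact M10 X hb h1 h2 h3 h4 h5 h6 h156 h157 h158
          rcases lt_or_ge (-a - d - V - 1) 0 with h216 | h216
          · rcases lt_or_ge (-2*N + m - c - d + U + 1) 0 with h217 | h217
            · exact T0_33 X hb ⟨by have := kA 2 h217 (kA 1 h5 (kA 2 h4 (kA 3 h3 (kA 1 h1 (kC 1 b39 (kC 1 b29 k0)))))); clear * - this; omega, by clear * - h6 h216; omega, by have := kA 2 h217 (kB 2 h158 (kA 2 h5 (kA 2 h4 (kA 2 h3 (kA 2 h2 (kC 1 b18 k0)))))); clear * - this; omega⟩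
            rcases lt_or_ge (c - d - 1) 0 with h218 | h218
            · rcases lt_or_ge (i + 2*a + 2*b + l - m - U - 1) 0 with h219 | h219
              · exact T0_88 X hb ⟨by have := kA 2 h218 (kA 2 h216 (kB 2 h6 (kA 2 h1 (kC 1 b39 (kC 1 b28 k0))))); clear * - this; omega, by have := kA 1 h218 (kA 1 h157 (kA 1 h5 (kA 1 h3 k0))); clear * - this; omega, by have := kA 1 h216 (kB 1 h6 (kA 1 h3 (kC 1 b18 k0))); clear * - this; omega⟩
              exact T0_33 X hb ⟨by have := kA 2 h218 (kA 2 h3 (kA 2 h1 (kC 1 b39 (kC 1 b28 k0)))); clear * - this; omega, by clear * - h6 h216; omega, by clear * - h219; omega⟩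
            exact T0_9 X hb ⟨by clear * - h218; omega, by clear * - h217; omega⟩
          rcases lt_or_ge (2*N - a + l - m + 2*c + d - U + V - 2) 0 with h220 | h220
          · rcases lt_or_ge (-4*N + 2*a + 2*b - l + m - 2*c - 2*d + L + U + 2) 0 with h221 | h221
            · exact T0_58 X hb ⟨by have := kA 2 h221 (kA 4 h220 (kA 2 h5 (kA 2 h2 (kA 2 h1 (kC 2 b39 (kC 4 b17 (kC 1 b3 k0))))))); clear * - this; omega, by have := kA 1 h220 (kB 1 h158 (kA 2 h2 (kC 1 b18 k0))); clear * - this; omega, by have := kA 1 h221 (kA 2 h220 (kA 1 h156 (kB 1 h6 (kA 2 h5 (kA 2 h4 (kA 2 h2 (kA 2 h1 (kC 1 b39 k0)))))))); clear * - this; omega⟩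
            exact T0_170 X hb (by clear * - h221; omega)
          exact T0_2 X hb ⟨by clear * - h158; omega, by clear * - h216; omega, by clear * - h220; omega⟩
        exact M11 X hb h1 h2 h3 h4 h5 h6 h156 h157 c1x
      rcases lt_or_ge (N - b - l - c - 2) 0 with h558 | h558
      · rcases lt_or_ge (-a - b + l + c) 0 with h559 | h559
        · rcases lt_or_ge (2*N - a - b + l - m + 2*c + d - U + V - 2) 0 with h560 | h560
          · exact T0_9 X hb ⟨by have := kA 1 h559 (kA 1 h558 (kA 1 h5 (kC 1 b9 (kC 1 b2 k0)))); clear * - this; omega, by have := kA 1 h560 (kA 1 h558 (kA 1 h5 (kA 1 h4 (kC 1 b9 (kC 1 b2 k0))))); clear * - this; omega⟩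
          rcases lt_or_ge (-Q + i + a + b - d - V) 0 with h561 | h561
          · exact T0_23 X hb ⟨by have := kA 1 h561 (kB 2 h560 (kA 1 h559 (kA 1 h5 (kA 1 h4 (kA 1 h3 (kA 1 h1 (kC 1 b39 (kC 1 b34 (kC 2 b29 k0))))))))); clear * - this; omega, by have := kA 1 h561 (kA 1 h559 (kA 1 h558 (kA 1 h3 (kC 1 b2 (kC 1 b1 k0))))); clear * - this; omega⟩
          exact T0_269 X hb ⟨by clear * - h561; omega, by clear * - h560; omega, by have := kA 1 h559 (kA 1 h558 (kB 1 h6 (kA 1 h4 k0))); clear * - this; omega⟩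
        exact T0_12 X hb ⟨by clear * - h559; omega, by have := kA 2 h558 (kC 1 b33 (kC 1 b24 (kC 2 b2 k0))); clear * - this; omega⟩
      exact T0_30 X hb ⟨by clear * - h6; omega, by clear * - h156; omega, by clear * - h558; omega⟩
    rcases lt_or_ge (-N + m - c - d) 0 with h562 | h562
    · rcases lt_or_ge (-N + m - c - d + 1) 0 with h563 | h563
      · exact T0_57 X hb (by clear * - h563; omega)
      exact T0_56 X hb ⟨by clear * - h562; omega, by clear * - h563; omega⟩
    exact T0_7 X hb ⟨by clear * - h562; omega, by clear * - h5; omega, by clear * - h1 h5 h562; omega⟩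
  rcases lt_or_ge (2*N - m + c + d - U + V - 3) 0 with h564 | h564
  · rcases lt_or_ge (2*N - m + c + d - U + V - 2) 0 with h565 | h565
    · exact T0_9 X hb ⟨by clear * - b17 h4; omega, by clear * - b17 h565; omega⟩
    rcases lt_or_ge (-V) 0 with h566 | h566
    · exact T0_9 X hb ⟨by clear * - h4 h566; omega, by clear * - h564 h566; omega⟩
    exact T0_169 X hb ⟨by clear * - h566; omega, by clear * - h4 h564; omega, by clear * - h565; omega, by clear * - h564; omega⟩
  exact T0_70 X hb ⟨by clear * - h4; omega, by clear * - h564; omega⟩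

theorem M13 (X : C W N Q i a b l m c d L U V) (hb : B N Q i a b l m c d L U V)
    (h1 : (-N + m - c) < 0)
    (h2 : (i - b) < 0)
    (h3 : (2*N + i + l - m + 2*c + 3*d - U + 2*V - 1) ≥ 0)
    (h567 : (-d - 2*V - 1) < 0)
    (h568 : (2*N + i + l - m + 2*c + 3*d - U + V - 1) < 0)
    (h569 : (N - i - l - c + d - 2) < 0)
    (h570 : (-2*N + m - c - d + U + 1) < 0) : False := by
  have b1 := hb.b1
  have b2 := hb.b2
  have b3 := hb.b3
  have b4 := hb.b4
  have b8 := hb.b8
  have b9 := hb.b9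
  have b11 := hb.b11
  have b14 := hb.b14
  have b18 := hb.b18
  have b19 := hb.b19
  have b24 := hb.b24
  have b25 := hb.b25
  have b29 := hb.b29
  have b33 := hb.b33
  have b36 := hb.b36
  have b37 := hb.b37
  have b38 := hb.b38
  have b39 := hb.b39
  rcases lt_or_ge (i + a + d + V) 0 with h571 | h571
  · rcases lt_or_ge (-N + Q - i - a - d - 1) 0 with h572 | h572
    · rcases lt_or_ge (-N + Q - i + b - c - 1) 0 with h573 | h573
      · rcases lt_or_ge (c - d - V - 1) 0 with h574 | h574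
        · rcases lt_or_ge (i + 2*a + 2*b + l - m - U - 1) 0 with h575 | h575
          · exact T0_66 X hb ⟨by have := kA 1 h574 (kA 1 h573 (kA 2 h572 (kA 2 h571 (kA 3 h570 (kA 2 h569 (kA 3 h567 (kC 3 b19 k0))))))); clear * - this; omega, by have := kA 1 h575 (kA 2 h571 (kA 1 h567 (kB 1 h3 k0))); clear * - this; omega, by have := kA 1 h574 (kA 1 h570 (kA 1 h569 (kA 1 h2 k0))); clear * - this; omega⟩
          rcases lt_or_ge (-i - l - 2*c - 2*d - 2*V - 2) 0 with h576 | h576
          · exact T0_12 X hb ⟨by have := kA 1 h576 (kA 2 h574 (kA 1 h573 (kA 2 h571 (kA 1 h570 (kA 1 h569 (kC 1 b19 (kC 1 b2 k0))))))); clear * - this; omega, by have := kA 2 h576 (kA 1 h571 (kA 2 h570 (kA 1 h568 (kC 1 b19 (kC 1 b4 (kC 1 b2 k0)))))); clear * - this; omega⟩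
          exact T0_33 X hb ⟨by clear * - h576; omega, by have := kA 1 h573 (kA 1 h571 (kA 1 h567 (kB 1 h3 (kC 1 b19 k0)))); clear * - this; omega, by clear * - h575; omega⟩
        exact T0_62 X hb ⟨by clear * - h574; omega, by have := kA 1 h572 (kA 1 h571 (kA 3 h569 (kA 1 h567 (kB 1 h3 (kC 1 b38 (kC 1 b29 k0)))))); clear * - this; omega, by clear * - h3 h568 h570; omega⟩
      rcases lt_or_ge (N - 2*a - b + c - 1) 0 with h577 | h577
      · rcases lt_or_ge (4*N - Q + i - 2*a - 2*b + l - m + 4*c + 2*d - U + 2*V - 1) 0 with h578 | h578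
        · exact T0_69 X hb ⟨by clear * - b19 h3 h567; omega, by have := kA 1 h578 (kA 2 h572 (kA 2 h571 (kA 2 h570 (kA 2 h569 (kA 2 h567 k0))))); clear * - this; omega⟩
        exact T0_14 X hb ⟨by clear * - b1 h571 h577; omega, by clear * - b19 h3 h567; omega, by clear * - h578; omega⟩
      rcases lt_or_ge (N - b - l - c - 2) 0 with h579 | h579
      · exact T0_31 X hb (by have := kA 1 h579 (kA 1 h570 (kA 1 h567 (kC 1 b19 k0))); clear * - this; omega)
      exact T0_30 X hb ⟨by clear * - h577; omega, by clear * - h573; omega, by clear * - h579; omega⟩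
    exact T0_318 X hb ⟨by clear * - h572; omega, by have := kA 2 h567 (kC 1 b33 (kC 1 b24 (kC 2 b19 (kC 2 b8 (kC 2 b2 k0))))); clear * - this; omega⟩
  rcases lt_or_ge (-a - d - V - 1) 0 with h580 | h580
  · rcases lt_or_ge (2*N - m + c + 3*d + V - 2) 0 with h581 | h581
    · rcases lt_or_ge (-2*N + 2*m - 2*c - d + 1) 0 with h582 | h582
      · rcases lt_or_ge (2*N - m + c + 3*d + V - 1) 0 with h583 | h583
        · rcases lt_or_ge (N - m + 2*c - 2) 0 with h584 | h584
          · rcases lt_or_ge (N - m + c - V - 1) 0 with h585 | h585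
            · rcases lt_or_ge (-N + a + b - c - d - V - 1) 0 with h586 | h586
              · rcases lt_or_ge (a + b - V - 1) 0 with h587 | h587
                · exact T0_24 X hb ⟨by have := kA 2 h585 (kA 1 h582 (kB 1 h3 (kC 1 b19 k0))); clear * - this; omega, by have := kA 4 h587 (kA 2 h2 (kC 1 b19 (kC 2 b18 (kC 2 b4 k0)))); clear * - this; omega, by have := kA 1 h587 (kA 1 h583 (kA 1 h580 (kA 1 h570 (kC 1 b19 (kC 1 b14 k0))))); clear * - this; omega⟩
                rcases lt_or_ge (2*N - Q + i - 2*a - 2*b + l - m + 2*c - U + 2*V - 1) 0 with h588 | h588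
                · rcases lt_or_ge (N + a + b - m + d - U + V - 3) 0 with h589 | h589
                  · rcases lt_or_ge (-i - l - 2*c - 2*d - 2*V - 2) 0 with h590 | h590
                    · exact T0_12 X hb ⟨by have := kA 2 h590 (kA 3 h589 (kA 1 h586 (kA 6 h584 (kA 4 h583 (kA 5 h582 (kA 2 h580 (kA 3 h570 (kA 2 h2 k0)))))))); clear * - this; omega, by have := kA 1 h590 (kB 1 h587 (kA 1 h570 (kA 1 h568 k0))); clear * - this; omega⟩
                    exact T0_33 X hb ⟨by clear * - h590; omega, by have := kA 1 h589 (kA 2 h585 (kA 1 h582 (kA 1 h570 k0))); clear * - this; omega, by have := kB 2 h587 (kA 3 h585 (kA 2 h584 (kA 1 h583 (kA 3 h582 (kA 1 h570 (kA 1 h569 k0)))))); clear * - this; omega⟩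
                  exact T0_149 X hb ⟨by have := kB 1 h587 (kA 2 h586 (kA 1 h585 (kA 2 h584 (kA 1 h583 (kA 2 h582 k0))))); clear * - this; omega, by have := kB 1 h587 (kA 2 h585 (kA 1 h584 (kA 1 h582 k0))); clear * - this; omega, by have := kB 1 h589 (kA 2 h588 (kA 7 h586 (kA 2 h584 (kA 6 h583 (kA 3 h582 (kA 1 h570 (kC 2 b14 k0))))))); clear * - this; omega, by clear * - h589; omega⟩
                exact T0_54 X hb ⟨by have := kA 2 h586 (kA 2 h584 (kA 2 h583 (kA 2 h582 (kA 2 h580 (kC 1 b3 k0))))); clear * - this; omega, by clear * - b19 h582 h585; omega, by clear * - h588; omega, by clear * - h587; omega⟩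
              rcases lt_or_ge (4*N - Q + i - 2*a - 2*b + l - m + 4*c + 2*d - U + 2*V - 1) 0 with h591 | h591
              · rcases lt_or_ge (-Q + i + 2*a + 2*b - 1) 0 with h592 | h592
                · exact T0_15 X hb ⟨by have := kA 3 h592 (kA 3 h591 (kA 15 h585 (kA 9 h583 (kA 9 h582 (kA 3 h570 (kA 1 h569 (kA 2 h2 (kC 5 b33 (kC 5 b29 (kC 6 b14 k0)))))))))); clear * - this; omega, by have := kA 2 h591 (kA 5 h585 (kA 4 h582 (kA 3 h569 (kA 1 h568 (kC 3 b39 (kC 3 b29 k0)))))); clear * - this; omega, by have := kA 1 h592 (kA 1 h585 (kA 2 h583 (kA 1 h582 (kA 1 h580 (kC 1 b33 (kC 1 b29 (kC 1 b14 k0))))))); clear * - this; omega⟩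
                rcases lt_or_ge (-N + a + 2*b - c) 0 with h593 | h593
                · rcases lt_or_ge (-2*N - i + 2*b - l + m - 2*c - 2*d + U) 0 with h594 | h594
                  · exact T0_37 X hb ⟨by have := kA 2 h593 (kA 1 h591 (kB 2 h586 (kA 4 h585 (kA 2 h582 (kA 2 h569 (kA 2 h2 (kC 2 b33 (kC 2 b29 k0)))))))); clear * - this; omega, by have := kA 2 h594 (kB 3 h592 (kA 4 h591 (kA 8 h585 (kA 2 h570 (kA 2 h569 (kA 4 h2 (kC 1 b33 (kC 1 b29 (kC 8 b14 k0))))))))); clear * - this; omega, by have := kA 1 h594 (kA 1 h591 (kA 6 h585 (kA 4 h583 (kA 4 h582 (kC 1 b33 (kC 1 b29 (kC 2 b14 (kC 1 b9 (kC 1 b3 k0))))))))); clear * - this; omega⟩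
                  exact T0_25 X hb ⟨by have := kB 3 h594 (kA 2 h593 (kB 2 h586 (kA 3 h585 (kA 1 h583 (kA 1 h582 (kA 3 h570 (kA 1 h569 k0))))))); clear * - this; omega, by have := kB 1 h594 (kA 4 h593 (kA 2 h591 (kA 2 h585 (kA 1 h582 (kA 2 h570 (kB 1 h3 (kC 2 b14 k0))))))); clear * - this; omega, by clear * - h594; omega, by have := kB 1 h594 (kA 2 h593 (kB 2 h586 (kA 2 h585 (kA 4 h569 (kC 1 b39 (kC 1 b29 k0)))))); clear * - this; omega, by have := kB 1 h594 (kA 2 h593 (kB 1 h592 (kA 1 h591 (kA 2 h585 (kA 2 h570 (kA 2 h569 k0)))))); clear * - this; omega⟩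
                rcases lt_or_ge (-2*N - Q + i + 4*a + 4*b - 2*c) 0 with h595 | h595
                · rcases lt_or_ge (2*N - Q + i - 2*a - 2*b + l - m + 2*c - 1) 0 with h596 | h596
                  · exact T0_12 X hb ⟨by have := kA 1 h596 (kA 2 h595 (kA 2 h591 (kA 8 h585 (kA 4 h583 (kA 4 h582 (kA 2 h570 (kC 5 b14 k0))))))); clear * - this; omega, by have := kA 2 h596 (kA 1 h595 (kB 1 h592 (kA 2 h585 (kA 2 h583 (kA 2 h582 (kC 2 b14 k0)))))); clear * - this; omega⟩
                  rcases lt_or_ge (-Q + i + 2*a + 2*b + l + 2*d + 1) 0 with h597 | h597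
                  · exact T0_22 X hb ⟨by clear * - h591 h592 h595; omega, by have := kA 2 h597 (kA 1 h595 (kB 1 h592 (kA 2 h591 (kA 4 h585 (kA 4 h570 (kC 4 b14 k0)))))); clear * - this; omega⟩
                  rcases lt_or_ge (-a - b - d - 1) 0 with h598 | h598
                  · exact T0_12 X hb ⟨by have := kA 5 h598 (kB 2 h596 (kA 1 h595 (kA 1 h591 (kA 4 h585 (kA 2 h583 (kA 2 h582 (kA 1 h570 k0))))))); clear * - this; omega, by have := kA 4 h598 (kA 1 h595 (kB 1 h592 (kA 2 h585 (kA 2 h583 (kA 2 h582 k0))))); clear * - this; omega⟩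
                  exact T0_37 X hb ⟨by have := kA 2 h595 (kB 2 h593 (kB 2 h592 (kA 1 h591 (kA 2 h580 k0)))); clear * - this; omega, by clear * - h597; omega, by clear * - h598; omega⟩
                exact T0_21 X hb ⟨by have := kA 1 h591 (kA 2 h580 (kA 2 h569 (kC 1 b18 (kC 2 b9 k0)))); clear * - this; omega, by clear * - h595; omega⟩
              exact T0_53 X hb ⟨by have := kA 2 h585 (kA 1 h582 (kB 1 h3 (kC 1 b19 (kC 1 b9 k0)))); clear * - this; omega, by clear * - h586; omega, by clear * - h591; omega⟩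
            rcases lt_or_ge (-N + m - c + V + 1) 0 with h599 | h599
            · rcases lt_or_ge (-Q + i + 2*a + 2*b + l - m - U - 1) 0 with h600 | h600
              · rcases lt_or_ge (2*N - Q + i - 2*b + l - m + 2*c - U - 1) 0 with h601 | h601
                · rcases lt_or_ge (-N + a + b - c - d - V - 1) 0 with h602 | h602
                  · exact T0_24 X hb ⟨by have := kA 4 h602 (kA 3 h601 (kA 1 h600 (kA 6 h584 (kA 2 h583 (kA 4 h582 (kA 6 h580 (kA 4 h570 (kA 4 h569 k0)))))))); clear * - this; omega, by have := kA 1 h601 (kA 2 h583 (kA 2 h570 (kA 2 h567 (kC 2 b14 k0)))); clear * - this; omega, by have := kA 1 h602 (kA 2 h599 (kA 1 h584 (kA 1 h583 (kA 1 h580 k0)))); clear * - this; omega⟩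
                  exact T0_14 X hb ⟨by clear * - h602; omega, by have := kA 1 h601 (kA 1 h600 (kA 2 h599 (kA 2 h584 (kA 2 h580 (kA 2 h570 (kA 2 h569 (kA 2 h567 k0))))))); clear * - this; omega, by have := kA 1 h600 (kA 2 h583 (kA 2 h570 (kA 2 h567 (kC 2 b14 k0)))); clear * - this; omega⟩
                exact T0_29 X hb ⟨by clear * - b19 h3 h567; omega, by clear * - h601; omega⟩
              exact T0_288 X hb ⟨by have := kA 1 h567 (kB 1 h3 (kC 1 b19 (kC 1 b9 k0))); clear * - this; omega, by clear * - h600; omega⟩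
            exact T0_8 X hb ⟨by clear * - h599; omega, by clear * - h585; omega, by have := kB 2 h585 (kA 1 h583 (kA 1 h570 (kA 3 h568 (kB 3 h3 k0)))); clear * - this; omega, by have := kB 2 h599 (kA 2 h582 (kC 1 b19 (kC 1 b14 k0))); clear * - this; omega, by have := kB 1 h585 (kA 1 h569 (kA 3 h568 (kC 1 b39 (kC 1 b29 k0)))); clear * - this; omega, by have := kB 1 h599 (kA 3 h569 (kA 1 h568 (kC 1 b39 (kC 1 b29 k0)))); clear * - this; omega⟩
          rcases lt_or_ge (-3*N + 2*m - 2*c - 2*d + U + 2) 0 with h603 | h603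
          · rcases lt_or_ge (i - b + l + c + d + V + 1) 0 with h604 | h604
            · rcases lt_or_ge (N - a - b + 2*c - d - V - 1) 0 with h605 | h605
              · exact T0_14 X hb ⟨by have := kA 1 h605 (kA 1 h604 (kA 1 h603 (kA 1 h583 (kA 1 h580 (kA 2 h569 (kC 1 b37 (kC 1 b29 k0))))))); clear * - this; omega, by clear * - b19 h3 h567; omega, by have := kA 1 h603 (kB 1 h584 (kA 2 h583 (kA 2 h567 (kC 1 b36 (kC 1 b29 (kC 1 b14 (kC 1 b9 k0))))))); clear * - this; omega⟩
              exact T0_149 X hb ⟨by have := kA 1 h567 (kB 1 h3 (kC 1 b37 (kC 1 b25 k0))); clear * - this; omega, by have := kA 1 h604 (kA 1 h603 (kA 1 h583 (kA 1 h580 (kA 2 h567 (kC 1 b36 (kC 1 b29 (kC 1 b19 (kC 1 b8 k0)))))))); clear * - this; omega, by clear * - h605; omega, by have := kA 1 h604 (kA 1 h603 (kA 1 h583 (kA 1 h580 (kA 1 h567 (kB 1 h3 (kC 1 b19 (kC 1 b8 k0))))))); clear * - this; omega⟩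
            rcases lt_or_ge (b + c - d - V - 1) 0 with h606 | h606
            · exact T0_89 X hb (by have := kA 1 h606 (kA 1 h603 (kB 1 h584 (kA 1 h583 (kA 1 h2 (kC 1 b36 k0))))); clear * - this; omega)
            exact T0_55 X hb ⟨by clear * - h604; omega, by have := kB 1 h604 (kA 2 h603 (kA 2 h583 (kA 2 h567 (kC 1 b37 (kC 1 b29 k0))))); clear * - this; omega, by clear * - h606; omega⟩
          exact T0_154 X hb ⟨by clear * - h584; omega, by clear * - h567 h582 h583; omega, by clear * - h603; omega⟩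
        exact T0_314 X hb ⟨by clear * - h583; omega, by clear * - h581; omega, by clear * - b29 h567 h582; omega⟩
      rcases lt_or_ge (2*N - i - l - m + d - 3) 0 with h607 | h607
      · rcases lt_or_ge (c - d - V - 1) 0 with h608 | h608
        · rcases lt_or_ge (N - a - b + d - 1) 0 with h609 | h609
          · rcases lt_or_ge (N + a + b - m + d - U + V - 3) 0 with h610 | h610
            · exact T0_287 X hb ⟨by clear * - h570 h610; omega, by clear * - h608 h609; omega, by have := kA 3 h610 (kA 1 h609 (kA 2 h570 (kA 1 h568 (kB 1 h3 k0)))); clear * - this; omega, by clear * - h570 h608 h609; omega, by clear * - h610; omega⟩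
            rcases lt_or_ge (N - a - b + 2*c - d - V - 1) 0 with h611 | h611
            · exact T0_14 X hb ⟨by have := kA 1 h611 (kA 1 h609 (kA 1 h581 (kA 1 h570 (kC 1 b19 (kC 1 b14 k0))))); clear * - this; omega, by clear * - b19 h3 h567; omega, by have := kA 2 h609 (kA 1 h607 (kB 1 h3 (kC 1 b14 (kC 2 b9 k0)))); clear * - this; omega⟩
            exact T0_149 X hb ⟨by clear * - h608 h611; omega, by have := kB 1 h610 (kA 1 h607 (kA 1 h567 (kC 1 b37 (kC 1 b29 k0)))); clear * - this; omega, by clear * - h611; omega, by clear * - h610; omega⟩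
          rcases lt_or_ge (-N + a + b + m - 2*c + d) 0 with h612 | h612
          · rcases lt_or_ge (i - a - 2*b + l + c + 1) 0 with h613 | h613
            · exact T0_13 X hb ⟨by have := kA 1 h613 (kA 1 h612 (kB 1 h609 (kA 1 h607 (kA 1 h580 (kA 1 h570 k0))))); clear * - this; omega, by have := kA 2 h613 (kA 2 h612 (kB 2 h609 (kA 1 h608 (kA 3 h607 (kA 2 h580 (kA 1 h570 (kC 1 b19 (kC 1 b14 k0)))))))); clear * - this; omega⟩
            rcases lt_or_ge (a + 2*b + c - 1) 0 with h614 | h614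
            · rcases lt_or_ge (2*N - Q + i + 2*b + l - m + 2*c + 2*d - U + 2*V - 1) 0 with h615 | h615
              · exact T0_33 X hb ⟨by have := kA 4 h614 (kA 3 h612 (kB 1 h609 (kA 2 h608 (kA 1 h607 (kB 1 h582 (kA 4 h570 (kA 4 h2 (kC 4 b19 (kC 4 b4 k0))))))))); clear * - this; omega, by have := kA 1 h614 (kA 2 h612 (kA 1 h608 (kA 2 h607 (kA 1 h580 (kA 2 h2 (kC 2 b33 (kC 2 b29 k0))))))); clear * - this; omega, by have := kA 1 h615 (kA 4 h608 (kA 4 h570 (kA 4 h569 (kA 2 h2 (kC 1 b19 (kC 2 b4 k0)))))); clear * - this; omega⟩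
              exact T0_24 X hb ⟨by clear * - b19 h3 h567; omega, by clear * - h615; omega, by have := kA 1 h614 (kA 1 h612 (kB 1 h609 (kA 3 h581 (kA 3 h580 (kA 2 h570 (kC 2 b19 (kC 2 b14 k0))))))); clear * - this; omega⟩
            exact T0_63 X hb ⟨by clear * - h613; omega, by have := kB 1 h614 (kA 1 h612 (kB 1 h609 (kA 2 h608 (kA 1 h581 (kA 3 h580 (kA 2 h570 (kC 2 b19 (kC 2 b4 k0)))))))); clear * - this; omega, by clear * - h2 h569 h609; omega, by clear * - h614; omega⟩
          rcases lt_or_ge (N - a - b + 2*c - d - 1) 0 with h616 | h616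
          · rcases lt_or_ge (-2*N - Q + i + 4*a + 4*b - 2*c) 0 with h617 | h617
            · rcases lt_or_ge (-Q + i + 2*a + 2*b + l - m - U - 1) 0 with h618 | h618
              · exact T0_14 X hb ⟨by have := kA 2 h618 (kA 4 h616 (kA 2 h607 (kA 2 h580 (kA 6 h570 (kA 4 h569 (kA 4 h568 (kA 2 h2 (kC 1 b33 (kC 1 b24 (kC 2 b14 k0)))))))))); clear * - this; omega, by have := kA 2 h618 (kA 2 h616 (kB 1 h609 (kB 3 h571 (kA 3 h570 (kA 3 h569 (kA 1 h568 (kA 1 h567 (kA 3 h2 k0)))))))); clear * - this; omega, by have := kA 1 h618 (kA 2 h581 (kA 2 h570 (kA 2 h567 (kC 2 b14 k0)))); clear * - this; omega⟩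
              exact T0_69 X hb ⟨by have := kA 2 h617 (kA 5 h616 (kB 1 h609 (kA 4 h580 (kA 6 h569 (kA 4 h2 (kC 3 b33 (kC 3 b24 k0))))))); clear * - this; omega, by clear * - h618; omega⟩
            exact T0_21 X hb ⟨by have := kA 1 h616 (kB 1 h609 (kA 4 h580 (kA 2 h570 (kA 4 h569 (kC 2 b19 (kC 2 b9 k0)))))); clear * - this; omega, by clear * - h617; omega⟩
          rcases lt_or_ge (-N - a - b + m - d + U + 1) 0 with h619 | h619
          · exact T0_14 X hb ⟨by have := kA 3 h619 (kB 1 h612 (kA 2 h569 (kA 2 h568 (kC 1 b19 (kC 1 b14 k0))))); clear * - this; omega, by clear * - b19 h3 h567; omega, by have := kA 1 h619 (kB 1 h616 (kA 1 h607 (kA 1 h567 (kC 1 b14 (kC 1 b9 k0))))); clear * - this; omega⟩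
          rcases lt_or_ge (-N + Q - i + a + b - l - 2*c - d - 2) 0 with h620 | h620
          · rcases lt_or_ge (a + b + c - 1) 0 with h621 | h621
            · exact T0_24 X hb ⟨by clear * - b19 h3 h567; omega, by have := kA 2 h621 (kA 2 h620 (kA 4 h570 (kA 2 h569 (kA 4 h567 (kA 2 h2 (kC 3 b19 (kC 2 b4 k0))))))); clear * - this; omega, by have := kA 1 h620 (kA 1 h608 (kA 1 h580 (kA 2 h570 (kA 1 h569 (kA 1 h568 (kC 1 b19 k0)))))); clear * - this; omega⟩
            exact T0_12 X hb ⟨by have := kA 2 h620 (kA 2 h608 (kA 1 h580 (kA 3 h570 (kA 2 h569 (kA 1 h568 (kA 1 h567 (kA 1 h2 (kC 2 b19 k0)))))))); clear * - this; omega, by clear * - h621; omega⟩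
          exact T0_44 X hb ⟨by clear * - h609; omega, by clear * - h620; omega, by clear * - h612; omega, by clear * - h616; omega, by clear * - h619; omega⟩
        exact T0_62 X hb ⟨by clear * - h608; omega, by have := kA 2 h569 (kA 1 h567 (kB 1 h3 (kC 1 b37 (kC 1 b29 k0)))); clear * - this; omega, by clear * - h3 h568 h570; omega⟩
      exact T0_5 X hb ⟨by clear * - h582; omega, by clear * - h607; omega⟩
    rcases lt_or_ge (-2*N + i + l + m - 4*d - U + 1) 0 with h622 | h622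
    · rcases lt_or_ge (4*N - Q + i + l - 3*m + 4*c + 4*d - 2) 0 with h623 | h623
      · rcases lt_or_ge (-3*N + Q - i + a + b - l + m - 3*c - 2*d + U - 2*V) 0 with h624 | h624
        · exact T0_33 X hb ⟨by have := kA 3 h623 (kA 5 h622 (kA 10 h570 (kA 8 h569 (kA 6 h568 (kC 1 b39 (kC 1 b29 (kC 3 b8 k0))))))); clear * - this; omega, by have := kA 3 h624 (kA 3 h623 (kA 5 h622 (kA 4 h570 (kA 8 h569 (kA 3 h568 (kC 1 b39 (kC 1 b29 k0))))))); clear * - this; omega, by have := kA 2 h623 (kA 3 h622 (kB 2 h571 (kA 6 h570 (kA 6 h569 (kA 2 h568 (kA 2 h2 (kC 2 b8 k0))))))); clear * - this; omega⟩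
        exact T0_22 X hb ⟨by clear * - h624; omega, by have := kA 1 h622 (kA 4 h570 (kC 1 b39 (kC 1 b36 (kC 2 b25 k0)))); clear * - this; omega⟩
      exact T0_103 X hb ⟨by have := kB 2 h623 (kA 4 h570 (kA 2 h569 (kA 2 h568 (kA 6 h567 (kC 5 b19 k0))))); clear * - this; omega, by have := kB 1 h623 (kA 8 h570 (kA 4 h569 (kA 4 h568 (kA 6 h567 (kC 4 b19 k0))))); clear * - this; omega, by clear * - b11 h569; omega, by clear * - h623; omega⟩
    exact T0_305 X hb ⟨by have := kB 1 h622 (kA 4 h570 (kA 2 h569 (kA 6 h568 (kC 1 b39 (kC 1 b29 k0))))); clear * - this; omega, by clear * - h581; omega, by have := kA 2 h570 (kA 2 h569 (kA 4 h568 (kC 1 b37 (kC 1 b29 k0)))); clear * - this; omega, by clear * - b11 h569; omega, by clear * - h622; omega⟩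
  exact T0_2 X hb ⟨by clear * - h571; omega, by clear * - h580; omega, by have := kA 1 h569 (kB 1 h3 (kA 2 h2 (kA 1 h1 (kC 1 b39 (kC 1 b25 k0))))); clear * - this; omega⟩

theorem P4 (X : C W N Q i a b l m c d L U V) (hb : B N Q i a b l m c d L U V)
    (c3x : (-N + m - c) < 0 → (i - b) < 0 → (2*N + i + l - m + 2*c + 3*d - U + 2*V - 1) < 0 → False) : False := by
  have b2 := hb.b2
  have b3 := hb.b3
  have b4 := hb.b4
  have b9 := hb.b9
  have b18 := hb.b18
  have b19 := hb.b19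
  have b20 := hb.b20
  have b24 := hb.b24
  have b25 := hb.b25
  have b28 := hb.b28
  have b29 := hb.b29
  have b32 := hb.b32
  have b33 := hb.b33
  have b39 := hb.b39
  rcases lt_or_ge (-N + m - c) 0 with h1 | h1
  · rcases lt_or_ge (i - b) 0 with h2 | h2
    · rcases lt_or_ge (2*N + i + l - m + 2*c + 3*d - U + 2*V - 1) 0 with h3 | h3
      · exact c3x h1 h2 h3
      rcases lt_or_ge (-d - 2*V - 1) 0 with h567 | h567
      · rcases lt_or_ge (2*N + i + l - m + 2*c + 3*d - U + V - 1) 0 with h568 | h568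
        · rcases lt_or_ge (N - i - l - c + d - 2) 0 with h569 | h569
          · rcases lt_or_ge (-2*N + m - c - d + U + 1) 0 with h570 | h570
            · exact M13 X hb h1 h2 h3 h567 h568 h569 h570
            rcases lt_or_ge (c - d - 1) 0 with h625 | h625
            · rcases lt_or_ge (i + d + V) 0 with h626 | h626
              · rcases lt_or_ge (-N + Q - i + a + b - l - 2*c - d - 2) 0 with h627 | h627
                · rcases lt_or_ge (i - b + l + c + d + 1) 0 with h628 | h628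
                  · rcases lt_or_ge (-Q + i + b + l + c + d + 1) 0 with h629 | h629
                    · rcases lt_or_ge (-i - l - 2*c - 2*d - 2*V - 2) 0 with h630 | h630
                      · exact T0_30 X hb ⟨by have := kA 1 h629 (kA 2 h628 (kA 2 h627 (kA 1 h625 (kA 1 h569 (kB 1 h3 (kC 1 b19 k0)))))); clear * - this; omega, by have := kA 2 h630 (kA 1 h629 (kA 3 h628 (kA 2 h626 (kA 4 h625 (kA 2 h569 (kC 1 b19 (kC 1 b18 k0))))))); clear * - this; omega, by have := kA 6 h629 (kA 2 h628 (kA 4 h627 (kA 6 h625 (kA 2 h569 (kC 1 b33 (kC 1 b24 (kC 2 b4 k0))))))); clear * - this; omega⟩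
                      exact T0_33 X hb ⟨by clear * - h630; omega, by have := kA 1 h629 (kA 1 h628 (kA 2 h627 (kA 1 h567 (kB 1 h3 (kC 1 b19 k0))))); clear * - this; omega, by have := kA 2 h628 (kA 2 h625 (kA 2 h569 (kC 1 b18 (kC 2 b2 k0)))); clear * - this; omega⟩
                    exact T0_67 X hb ⟨by clear * - h629; omega, by have := kA 2 h628 (kA 2 h625 (kA 2 h569 (kC 1 b33 (kC 1 b24 (kC 4 b2 k0))))); clear * - this; omega, by have := kA 1 h627 (kA 2 h625 (kA 5 h1 (kC 1 b33 (kC 1 b32 (kC 1 b29 (kC 1 b25 (kC 5 b2 k0))))))); clear * - this; omega, by have := kA 2 h627 (kA 2 h625 (kA 2 h567 (kC 1 b39 (kC 1 b28 (kC 2 b19 (kC 2 b2 k0)))))); clear * - this; omega, by have := kA 2 h569 (kA 2 h2 (kC 1 b33 (kC 1 b24 k0))); clear * - this; omega⟩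
                  rcases lt_or_ge (2*a + b - l - c - d - 2) 0 with h631 | h631
                  · rcases lt_or_ge (2*N - 2*a - 2*b - m + 2*c - 2) 0 with h632 | h632
                    · exact T0_58 X hb ⟨by have := kA 4 h631 (kB 4 h628 (kB 2 h570 (kA 4 h568 (kA 6 h567 (kA 10 h1 (kC 5 b39 (kC 5 b28 (kC 4 b19 k0)))))))); clear * - this; omega, by have := kA 2 h632 (kA 2 h631 (kA 2 h1 (kC 1 b33 (kC 1 b24 (kC 2 b2 k0))))); clear * - this; omega, by have := kA 1 h632 (kA 2 h631 (kB 2 h628 (kA 2 h627 (kA 1 h626 (kA 4 h625 (kA 2 h569 (kA 3 h568 (kA 2 h567 (kA 6 h1 (kC 3 b33 (kC 3 b28 k0))))))))))); clear * - this; omega⟩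
                    exact T0_128 X hb ⟨by clear * - h570 h625; omega, by clear * - h2 h625 h628; omega, by clear * - h632; omega⟩
                  exact T0_35 X hb ⟨by clear * - h628; omega, by clear * - h631; omega, by have := kA 2 h625 (kB 2 h570 (kA 2 h569 (kA 2 h2 (kC 1 b33 (kC 1 b24 k0))))); clear * - this; omega, by have := kA 2 h569 (kA 2 h2 (kC 1 b33 (kC 1 b24 k0))); clear * - this; omega⟩
                rcases lt_or_ge (N - a - b + 2*c - d - 1) 0 with h633 | h633
                · rcases lt_or_ge (-N + Q - i - a + b - c - 1) 0 with h634 | h634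
                  · rcases lt_or_ge (-Q + i + 2*a + 2*b + l - m - U - 1) 0 with h635 | h635
                    · rcases lt_or_ge (2*N + Q - i - 2*a - 4*b - l - 2) 0 with h636 | h636
                      · rcases lt_or_ge (4*N - Q + i - 2*a - 2*b + l - m + 4*c + 2*d - U + 2*V - 1) 0 with h637 | h637
                        · exact T0_2 X hb ⟨by have := kA 3 h637 (kA 6 h636 (kA 23 h635 (kA 20 h634 (kA 36 h633 (kA 10 h626 (kA 30 h569 (kA 14 h567 (kB 8 h3 (kA 18 h1 (kC 18 b33 (kC 18 b28 k0))))))))))); clear * - this; omega, by have := kA 1 h637 (kA 1 h636 (kA 2 h569 (kC 1 b18 (kC 3 b9 k0)))); clear * - this; omega, by have := kA 4 h637 (kA 10 h636 (kA 8 h635 (kA 2 h634 (kA 18 h626 (kA 5 h569 (kA 8 h567 (kB 13 h3 (kA 15 h1 (kC 15 b39 (kC 15 b25 k0)))))))))); clear * - this; omega⟩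
                        exact T0_14 X hb ⟨by have := kA 2 h633 (kA 2 h626 (kA 2 h569 (kC 1 b33 (kC 1 b24 k0)))); clear * - this; omega, by have := kB 2 h637 (kA 2 h636 (kA 7 h635 (kA 2 h634 (kA 6 h633 (kB 6 h627 (kA 2 h626 (kA 4 h569 (kA 1 h567 (kB 5 h3 k0))))))))); clear * - this; omega, by clear * - h637; omega⟩
                      exact T0_38 X hb ⟨by clear * - h636; omega, by have := kA 2 h633 (kA 2 h569 (kA 2 h2 (kC 1 b33 (kC 1 b24 k0)))); clear * - this; omega, by clear * - b20 h634 h635; omega⟩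
                    exact T0_69 X hb ⟨by clear * - b19 h3 h567; omega, by clear * - h635; omega⟩
                  exact T0_32 X hb ⟨by clear * - h634; omega, by have := kA 2 h633 (kA 2 h569 (kC 1 b33 (kC 1 b24 (kC 2 b9 k0)))); clear * - this; omega⟩
                rcases lt_or_ge (-N + a + b + m - 2*c + d) 0 with h638 | h638
                · rcases lt_or_ge (-N + Q - i - a + b - c - 1) 0 with h639 | h639
                  · rcases lt_or_ge (-Q + i + 2*a + 2*b + l + 2*d + 1) 0 with h640 | h640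
                    · rcases lt_or_ge (2*N - m + c + 3*d + V - 2) 0 with h641 | h641
                      · exact T0_24 X hb ⟨by clear * - b19 h3 h567; omega, by have := kA 2 h641 (kA 2 h638 (kA 3 h625 (kB 1 h570 (kB 2 h3 (kA 2 h2 (kC 1 b33 (kC 1 b29 (kC 1 b4 k0)))))))); clear * - this; omega, by have := kA 1 h641 (kA 1 h639 (kA 1 h638 (kA 1 h626 (kA 2 h625 (kB 1 h3 (kC 1 b19 k0)))))); clear * - this; omega⟩
                      rcases lt_or_ge (-2*N + i + l + m - 4*d - U + 1) 0 with h642 | h642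
                      · rcases lt_or_ge (N - a - b + c + d + V - 1) 0 with h643 | h643
                        · exact T0_15 X hb ⟨by have := kA 1 h642 (kA 6 h640 (kA 9 h625 (kB 1 h570 (kA 4 h569 (kA 6 h2 (kC 2 b39 (kC 2 b29 (kC 6 b4 k0)))))))); clear * - this; omega, by have := kA 2 h643 (kA 1 h567 (kB 1 h3 (kC 1 b19 k0))); clear * - this; omega, by have := kA 1 h642 (kA 3 h640 (kA 3 h639 (kA 3 h625 (kB 1 h570 (kA 4 h569 (kA 3 h2 (kC 2 b39 (kC 2 b29 k0)))))))); clear * - this; omega⟩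
                        exact T0_33 X hb ⟨by have := kA 1 h642 (kA 6 h640 (kA 6 h626 (kA 9 h625 (kB 1 h570 (kA 4 h569 (kC 2 b39 (kC 2 b29 (kC 6 b4 k0)))))))); clear * - this; omega, by clear * - h643; omega, by have := kA 3 h642 (kA 2 h640 (kB 2 h627 (kA 4 h626 (kA 6 h625 (kA 10 h569 (kA 2 h567 (kC 3 b39 (kC 3 b28 (kC 4 b4 k0))))))))); clear * - this; omega⟩
                      exact T0_305 X hb ⟨by have := kB 1 h642 (kA 6 h640 (kA 6 h626 (kA 6 h625 (kB 2 h570 (kA 2 h569 (kC 1 b39 (kC 1 b29 (kC 6 b4 k0)))))))); clear * - this; omega, by clear * - h641; omega, by have := kA 2 h626 (kA 2 h625 (kA 2 h569 (kA 2 h568 (kC 1 b33 (kC 1 b24 k0))))); clear * - this; omega, by have := kB 1 h642 (kB 2 h570 (kA 2 h569 (kC 1 b39 (kC 1 b29 k0)))); clear * - this; omega, by clear * - h642; omega⟩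
                    rcases lt_or_ge (-2*N + Q - i + 2*a + 2*b - l + m - 2*c + U) 0 with h644 | h644
                    · exact T0_24 X hb ⟨by clear * - b19 h3 h567; omega, by have := kA 2 h644 (kA 6 h625 (kA 6 h569 (kA 2 h567 (kB 2 h3 (kA 8 h2 (kC 3 b33 (kC 3 b24 (kC 2 b4 k0)))))))); clear * - this; omega, by clear * - b2 b19 h644; omega⟩
                    exact T0_37 X hb ⟨by clear * - h644; omega, by clear * - h640; omega, by have := kA 2 h638 (kA 2 h625 (kB 2 h570 (kC 1 b39 (kC 1 b28 k0)))); clear * - this; omega⟩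
                  exact T0_32 X hb ⟨by clear * - h639; omega, by have := kA 1 h638 (kA 2 h625 (kB 1 h570 (kC 1 b33 (kC 1 b28 k0)))); clear * - this; omega⟩
                exact T0_44 X hb ⟨by clear * - h625 h633; omega, by clear * - h627; omega, by clear * - h638; omega, by clear * - h633; omega, by clear * - h570 h625 h633; omega⟩
              rcases lt_or_ge (2*N - 2*a + l - m + 2*c + d - U + V - 2) 0 with h645 | h645
              · rcases lt_or_ge (Q - 2*b) 0 with h646 | h646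
                · exact T0_40 X hb ⟨by have := kA 2 h645 (kA 1 h569 (kB 1 h3 (kA 1 h1 (kC 1 b39 (kC 1 b25 k0))))); clear * - this; omega, by have := kA 2 h646 (kA 2 h645 (kA 1 h569 (kB 1 h3 (kA 1 h1 (kC 1 b39 (kC 1 b25 (kC 2 b3 k0))))))); clear * - this; omega⟩
                exact T0_271 X hb ⟨by clear * - h646; omega, by clear * - b19 b20 h645; omega, by clear * - h2 h626; omega⟩
              exact T0_210 X hb ⟨by clear * - h626; omega, by clear * - h645; omega⟩
            exact T0_9 X hb ⟨by clear * - h625; omega, by clear * - h570; omega⟩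
          rcases lt_or_ge (-N + m - c - d) 0 with h647 | h647
          · rcases lt_or_ge (-N + m - c - d + 1) 0 with h648 | h648
            · exact T0_57 X hb (by clear * - h648; omega)
            exact T0_56 X hb ⟨by clear * - h647; omega, by clear * - h648; omega⟩
          exact T0_7 X hb ⟨by clear * - h647; omega, by clear * - h569; omega, by clear * - h1 h569 h647; omega⟩
        exact T0_1 X hb (by clear * - h568; omega)
      exact T0_0 X hb ⟨by clear * - h3; omega, by clear * - h567; omega⟩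
    exact T0_4 X hb (by clear * - h2; omega)
  exact T0_3 X hb (by clear * - h1; omega)

end Pool.Agent.MP_a38735_al.WL.E31
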