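import Pool.Agent.MP_a38735_al.E31m0
import Pool.Agent.MP_a38735_al.E31m1
import Pool.Agent.MP_a38735_al.E31m2
import Pool.Agent.MP_a38735_al.E31m3

set_option autoImplicit false
set_option linter.unusedVariables false
set_option linter.unusedSimpArgs false

namespace Pool.Agent.MP_a38735_al.WL.E31

variable {G : Type*} [Group G]

variable {W : ℤ → G} {N Q i a b l m c d L U V Y : ℤ}

theorem main (X : C W N Q i a b l m c d L U V) (hb : B N Q i a b l m c d L U V) : False :=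
  P4 X hb (fun h1 h2 h3 =>
    P3 X hb h1 h2 h3 (fun h1 h2 h3 h4 h5 h6 h156 h157 h222 =>
    P1 X hb h1 h2 h3 h4 h5 h6 h156 h157 h222 (fun h1 h2 h3 h4 h5 h6 h156 h157 h222 h223 h224 h225 h226 h227 =>
    P0 X hb h1 h2 h3 h4 h5 h6 h156 h157 h222 h223 h224 h225 h226 h227)) (fun h1 h2 h3 h4 h5 h6 =>
    P2 X hb h1 h2 h3 h4 h5 h6))


end Pool.Agent.MP_a38735_al.WL.E31
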