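import Mathlib.Order.Basic
import Mathlib.Algebra.Order.Ring.Int

set_option autoImplicit false

namespace Pool.Agent.MP_a38735_al.WL

theorem k0 : (0 : ℤ) ≤ 0 := le_rfl

theorem kA {e z : ℤ} (k : ℕ) (h : e < 0) (r : 0 ≤ z) : 0 ≤ (k : ℤ) * (-e - 1) + z :=
  Int.add_nonneg (Int.mul_nonneg (Int.natCast_nonneg k) (by omega)) r

theorem kB {e z : ℤ} (k : ℕ) (h : e ≥ 0) (r : 0 ≤ z) : 0 ≤ (k : ℤ) * e + z :=
  Int.add_nonneg (Int.mul_nonneg (Int.natCast_nonneg k) h) r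

theorem kC {x y z : ℤ} (k : ℕ) (h : x ≤ y) (r : 0 ≤ z) : 0 ≤ (k : ℤ) * (y - x) + z :=
  Int.add_nonneg (Int.mul_nonneg (Int.natCast_nonneg k) (by omega)) r

end Pool.Agent.MP_a38735_al.WL
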