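import Pool.Agent.MP_a38735_al.E31t0
import Pool.Agent.MP_a38735_al.E31t1
import Pool.Agent.MP_a38735_al.E31t2

set_option autoImplicit false
set_option linter.unusedVariables false
set_option linter.unusedSimpArgs false

namespace Pool.Agent.MP_a38735_al.WL.E31

variable {G : Type*} [Group G]

variable {W : ℤ → G} {N Q i a b l m c d L U V Y : ℤ}

theorem M0 (X : C W N Q i a b l m c d L U V) (hb : B N Q i a b l m c d L U V)
    (h1 : (-N + m - c) < 0)
    (h2 : (i - b) < 0)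
    (h4 : (c - d - V - 1) < 0)
    (h5 : (N - i - l - c + d - 2) < 0)
    (h6 : (N - 2*a - b + c - 1) ≥ 0)
    (h156 : (-N + Q - i + b - c - 1) < 0)
    (h157 : (-Q + i - a - b + l + c - d - V + 1) ≥ 0)
    (h222 : (-a - b + m - c + d + V) < 0)
    (h223 : (-2*N + Q - i + 2*a + 2*b - l + m - 2*c + U) < 0)
    (h224 : (i + 2*a + 2*b + 2*d + 2*V) < 0)
    (h225 : (l - m + 2*c + L - U) < 0)
    (h226 : (-3*N + Q - i + a + b - l + m - 3*c - 2*d + U - V) < 0)
    (h227 : (-2*a - b - d - V - 1) ≥ 0)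
    (h321 : (i + 2*a + b + d + V) < 0)
    (h322 : (Q - i + b + d + V - 1) < 0)
    (h323 : (-Q + i + 2*b + l - m + 2*c) ≥ 0)
    (h373 : (a - V) < 0) : False := by
  have b2 := hb.b2
  have b7 := hb.b7
  have b11 := hb.b11
  have b17 := hb.b17
  have b18 := hb.b18
  have b19 := hb.b19
  have b24 := hb.b24
  have b28 := hb.b28
  have b29 := hb.b29
  have b33 := hb.b33
  have b36 := hb.b36
  have b38 := hb.b38
  have b39 := hb.b39
  rcases lt_or_ge (-a - b + m - c + d + V + 1) 0 with h374 | h374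
  · rcases lt_or_ge (i + l - m - U - 1) 0 with h375 | h375
    · rcases lt_or_ge (i + 2*a + l + 2*d + 1) 0 with h376 | h376
      · rcases lt_or_ge (-Q + i + 2*b + l - m - U - 1) 0 with h377 | h377
        · rcases lt_or_ge (Q - i - l - m + U - 2) 0 with h378 | h378
          · exact T0_53 X hb ⟨by have := kA 1 h377 (kA 1 h376 (kA 2 h4 (kC 1 b18 k0))); clear * - this; omega, by have := kA 1 h378 (kA 2 h374 (kA 2 h4 (kC 1 b19 k0))); clear * - this; omega, by have := kA 1 h378 (kA 1 h377 (kA 2 h374 (kA 1 h373 (kA 1 h226 (kB 1 h6 (kA 2 h4 k0)))))); clear * - this; omega⟩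
          rcases lt_or_ge (Q - i - l - m - 2*d - 3) 0 with h379 | h379
          · exact T0_9 X hb ⟨by have := kA 2 h379 (kA 2 h377 (kA 2 h376 (kA 4 h374 (kA 2 h5 (kA 4 h4 (kC 1 b39 (kC 1 b28 k0))))))); clear * - this; omega, by have := kA 2 h379 (kB 1 h378 (kA 2 h376 (kA 2 h5 (kA 2 h4 (kC 1 b19 (kC 4 b2 k0)))))); clear * - this; omega⟩
          exact T0_103 X hb ⟨by clear * - h378; omega, by clear * - h379; omega, by clear * - b11 h5; omega, by have := kA 1 h377 (kA 1 h375 (kA 2 h374 (kB 1 h323 (kA 1 h322 (kA 1 h321 (kA 4 h4 (kC 2 b18 k0))))))); clear * - this; omega⟩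
        rcases lt_or_ge (-a) 0 with h380 | h380
        · rcases lt_or_ge (-N + m - 2*c) 0 with h381 | h381
          · rcases lt_or_ge (Q - i - l - m - 2*d - 3) 0 with h382 | h382
            · exact T0_9 X hb ⟨by have := kA 1 h381 (kA 4 h380 (kA 2 h376 (kA 1 h375 (kA 3 h5 (kC 1 b39 (kC 1 b29 k0)))))); clear * - this; omega, by have := kA 1 h382 (kA 1 h381 (kA 2 h380 (kA 1 h376 (kA 1 h5 (kA 2 h4 (kC 1 b19 k0)))))); clear * - this; omega⟩
            exact T0_103 X hb ⟨by clear * - b19 h4 h381; omega, by clear * - h382; omega, by clear * - b11 h5; omega, by have := kA 6 h381 (kA 1 h375 (kA 4 h374 (kA 2 h322 (kA 2 h321 (kA 8 h4 (kC 1 b39 (kC 3 b36 (kC 4 b29 k0)))))))); clear * - this; omega⟩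
          rcases lt_or_ge (N - i - l - 2) 0 with h383 | h383
          · rcases lt_or_ge (i + 2*a - c + d) 0 with h384 | h384
            · rcases lt_or_ge (N - a - b - m + c - 2) 0 with h385 | h385
              · exact T0_283 X hb ⟨by have := kA 1 h384 (kA 2 h383 (kA 3 h380 (kA 1 h321 (kC 1 b33 (kC 1 b29 k0))))); clear * - this; omega, by have := kA 2 h383 (kA 10 h380 (kA 4 h376 (kA 1 h375 (kB 2 h227 (kA 4 h4 (kC 3 b18 k0)))))); clear * - this; omega, by have := kA 1 h385 (kA 1 h384 (kA 1 h383 (kA 2 h380 (kA 1 h4 (kC 1 b33 (kC 1 b29 k0)))))); clear * - this; omega, by have := kA 1 h384 (kA 4 h383 (kA 7 h380 (kA 2 h376 (kA 1 h321 (kC 2 b33 (kC 2 b29 k0)))))); clear * - this; omega, by have := kA 2 h384 (kA 2 h383 (kA 4 h380 (kA 1 h322 (kB 1 h227 (kA 1 h225 (kC 1 b38 k0)))))); clear * - this; omega, by have := kA 1 h383 (kA 2 h380 (kA 1 h375 (kA 2 h374 (kA 1 h373 (kB 1 h6 (kA 2 h4 (kC 1 b39 (kC 1 b29 k0)))))))); clear * - this; omega⟩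
              exact T0_199 X hb ⟨by have := kA 2 h383 (kA 2 h380 (kA 1 h376 (kA 1 h375 (kA 2 h374 (kA 2 h4 (kC 1 b39 (kC 1 b29 k0))))))); clear * - this; omega, by have := kA 1 h384 (kA 1 h383 (kA 2 h380 (kA 1 h374 (kA 1 h4 (kC 1 b33 (kC 1 b29 k0)))))); clear * - this; omega, by have := kB 4 h385 (kA 2 h384 (kA 5 h383 (kB 1 h381 (kA 4 h380 (kA 3 h375 (kA 4 h374 (kA 4 h4 (kC 3 b39 (kC 3 b29 k0))))))))); clear * - this; omega, by have := kB 1 h385 (kA 4 h384 (kA 5 h383 (kA 9 h380 (kA 2 h374 (kA 1 h321 (kA 3 h4 (kC 4 b33 (kC 4 b29 k0)))))))); clear * - this; omega, by have := kB 1 h385 (kA 1 h383 (kB 1 h381 (kA 1 h380 (kA 1 h375 (kA 2 h374 (kB 1 h6 (kA 2 h4 k0))))))); clear * - this; omega, by have := kB 2 h385 (kA 2 h383 (kA 2 h375 (kA 2 h374 (kA 2 h4 (kC 1 b39 (kC 1 b29 k0)))))); clear * - this; omega, by clear * - h385; omega, by have := kA 1 h384 (kA 1 h383 (kB 2 h381 (kA 4 h380 (kA 1 h376 (kA 1 h5 (kC 1 b29 k0)))))); clear * - this; omega,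 by have := kA 1 h384 (kB 1 h381 (kA 2 h380 (kA 1 h5 (kC 1 b29 k0)))); clear * - this; omega, by have := kA 1 h384 (kA 1 h383 (kB 2 h381 (kA 4 h380 (kA 1 h376 (kA 1 h225 (kA 1 h5 k0)))))); clear * - this; omega, by have := kA 1 h384 (kB 1 h381 (kA 2 h380 (kA 1 h225 (kA 1 h5 k0)))); clear * - this; omega, by have := kA 3 h383 (kB 1 h381 (kA 6 h380 (kA 3 h376 (kC 1 b29 k0)))); clear * - this; omega, by have := kA 2 h383 (kA 4 h380 (kA 2 h376 (kC 1 b29 k0))); clear * - this; omega⟩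
            rcases lt_or_ge (2*N - 2*a - 2*b + l - m + 3*c + d - 1) 0 with h386 | h386
            · exact T0_97 X hb ⟨by have := kB 1 h384 (kA 1 h383 (kA 1 h380 (kA 1 h376 (kA 1 h321 (kA 1 h226 (kC 1 b38 (kC 1 b29 k0))))))); clear * - this; omega, by have := kB 1 h384 (kA 1 h383 (kA 5 h380 (kA 3 h376 (kA 1 h321 (kA 1 h226 (kC 1 b38 (kC 1 b29 k0))))))); clear * - this; omega, by have := kA 1 h383 (kA 2 h380 (kA 1 h375 (kA 1 h373 (kB 1 h227 k0)))); clear * - this; omega, by have := kB 1 h384 (kA 1 h374 (kB 1 h6 (kA 1 h4 (kA 1 h2 k0)))); clear * - this; omega, by have := kA 1 h386 (kA 1 h383 (kA 1 h380 (kA 1 h375 (kA 1 h321 (kA 1 h4 (kC 1 b18 k0)))))); clear * - this; omega⟩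
            exact T0_136 X hb ⟨by clear * - h384; omega, by clear * - h375 h377 h384; omega, by clear * - h386; omega, by clear * - h376 h384; omega, by have := kA 2 h383 (kA 2 h376 (kA 1 h375 (kC 1 b18 k0))); clear * - this; omega⟩
          exact T0_73 X hb ⟨by have := kB 1 h383 (kA 6 h380 (kA 2 h373 (kA 3 h321 (kB 1 h227 (kA 2 h226 (kA 4 h5 (kC 2 b38 (kC 2 b29 k0)))))))); clear * - this; omega, by have := kB 1 h383 (kB 3 h381 (kA 1 h375 (kA 4 h374 (kA 2 h5 (kA 4 h4 (kC 1 b39 (kC 1 b29 k0))))))); clear * - this; omega, by clear * - h381; omega, by have := kA 2 h380 (kB 1 h227 (kB 1 h6 (kA 1 h4 k0))); clear * - this; omega, by clear * - h383; omega⟩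
        exact T0_127 X hb ⟨by clear * - h380; omega, by clear * - h375 h377; omega, by have := kB 1 h377 (kA 1 h374 (kA 1 h225 (kA 1 h4 (kA 1 h2 (kC 1 b36 (kC 1 b2 k0)))))); clear * - this; omega, by clear * - h377; omega, by have := kA 1 h376 (kA 1 h375 (kA 2 h4 (kC 1 b18 k0))); clear * - this; omega, by clear * - b18 h4 h376; omega, by clear * - b7 h321 h322; omega, by clear * - h224; omega⟩
      rcases lt_or_ge (-Q + 2*a + 2*b - 2*V) 0 with h387 | h387
      · rcases lt_or_ge (Q - i - l - m + U - 2) 0 with h388 | h388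
        · rcases lt_or_ge (-2*N + Q - i + 4*a + 4*b - l + m - 2*c + U) 0 with h389 | h389
          · rcases lt_or_ge (-2*N + m - c - 3*d - V) 0 with h390 | h390
            · rcases lt_or_ge (2*N + Q - i - 2*a - 2*b - l + 2*d + 2*V - 2) 0 with h391 | h391
              · rcases lt_or_ge (-2*N + l + 2*m - 2*c + 2) 0 with h392 | h392
                · rcases lt_or_ge (-2*a + c - d - 1) 0 with h393 | h393
                  · exact T0_40 X hb ⟨by have := kA 2 h393 (kA 2 h392 (kA 2 h391 (kA 2 h390 (kA 3 h388 (kA 3 h387 (kA 1 h375 (kC 2 b19 k0))))))); clear * - this; omega, by have := kA 1 h390 (kA 1 h388 (kA 1 h374 (kA 2 h373 (kC 1 b19 k0)))); clear * - this; omega⟩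
                  exact T0_136 X hb ⟨by have := kA 2 h392 (kA 3 h388 (kA 1 h387 (kB 2 h376 (kA 1 h375 (kA 2 h374 (kA 4 h4 (kC 2 b19 k0))))))); clear * - this; omega, by have := kA 2 h391 (kA 2 h390 (kA 1 h388 (kA 1 h387 (kA 1 h375 (kA 2 h374 (kA 2 h225 (kA 2 h4 (kC 2 b39 k0)))))))); clear * - this; omega, by have := kB 2 h393 (kA 4 h390 (kA 3 h388 (kA 3 h387 (kB 4 h376 (kA 3 h375 (kA 6 h374 (kA 4 h373 (kA 4 h224 k0)))))))); clear * - this; omega, by have := kA 2 h392 (kA 3 h388 (kA 1 h387 (kA 1 h375 (kA 2 h374 (kA 4 h4 (kC 2 b19 k0)))))); clear * - this; omega, by clear * - h393; omega⟩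
                exact T0_119 X hb ⟨by have := kB 1 h392 (kA 1 h391 (kA 6 h390 (kA 2 h388 (kA 3 h387 (kB 2 h376 (kA 2 h375 (kA 4 h374 (kA 2 h373 (kB 2 h227 (kA 3 h224 k0)))))))))); clear * - this; omega, by clear * - h392; omega, by have := kA 1 h391 (kA 1 h389 (kA 1 h388 (kA 3 h387 (kB 3 h376 (kA 6 h375 (kA 6 h374 (kB 6 h227 (kA 8 h4 k0)))))))); clear * - this; omega, by have := kA 1 h391 (kA 1 h388 (kA 1 h387 (kA 1 h375 (kA 2 h4 (kC 1 b19 k0))))); clear * - this; omega, by have := kA 2 h390 (kA 1 h388 (kA 2 h387 (kA 1 h375 (kA 4 h374 (kA 1 h322 (kB 1 h227 (kA 1 h224 (kA 2 h4 k0)))))))); clear * - this; omega, by clear * - b11 h387 h391; omega, by have := kA 1 h391 (kA 1 h390 (kA 1 h388 (kA 1 h387 (kA 1 h375 (kA 2 h374 (kA 1 h4 (kC 1 b29 k0))))))); clear * - this; omega, by have := kA 1 h388 (kA 1 h387 (kA 1 h375 (kA 4 h374 (kA 2 h4 (kC 1 b29 k0))))); clear * - this; omega⟩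
              exact T0_53 X hb ⟨by clear * - h391; omega, by have := kA 1 h388 (kA 2 h374 (kA 2 h4 (kC 1 b19 k0))); clear * - this; omega, by have := kB 2 h391 (kA 2 h388 (kB 2 h376 (kA 1 h375 (kA 4 h374 (kA 4 h373 (kA 1 h322 (kA 1 h321 k0))))))); clear * - this; omega⟩
            rcases lt_or_ge (2*N + Q - i - l - m + 4*d + U + 2*V - 2) 0 with h394 | h394
            · exact T0_159 X hb ⟨by have := kA 2 h374 (kA 2 h4 (kC 1 b38 (kC 1 b29 k0))); clear * - this; omega, by have := kA 1 h394 (kA 1 h387 (kA 1 h375 (kA 4 h374 (kA 4 h4 (kC 1 b39 (kC 1 b38 (kC 2 b29 k0))))))); clear * - this; omega, by have := kA 1 h394 (kA 3 h389 (kA 1 h387 (kB 2 h376 (kA 6 h375 (kA 10 h374 (kB 2 h323 (kA 10 h4 (kC 4 b39 (kC 2 b38 (kC 6 b29 k0)))))))))); clear * - this; omega, by clear * - h375 h387 h394; omega⟩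
            exact T0_101 X hb ⟨by clear * - h394; omega, by have := kA 1 h387 (kA 1 h375 (kA 2 h374 (kA 2 h4 (kC 1 b39 (kC 1 b29 k0))))); clear * - this; omega, by have := kB 2 h394 (kA 2 h388 (kA 2 h374 (kA 1 h322 (kA 1 h321 k0)))); clear * - this; omega, by clear * - h390; omega⟩
          exact T0_161 X hb ⟨by clear * - h389; omega, by clear * - b11 h323 h376; omega, by clear * - h321 h322 h387; omega⟩
        exact T0_103 X hb ⟨by clear * - h388; omega, by clear * - b11 h374 h387; omega, by clear * - b11 h5; omega, by have := kB 9 h388 (kB 6 h376 (kA 2 h375 (kA 2 h374 (kB 6 h323 (kA 4 h322 (kA 4 h321 (kA 6 h226 (kA 4 h4 (kC 5 b39 (kC 5 b29 k0)))))))))); clear * - this; omega⟩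
      rcases lt_or_ge (2*N + i - 2*a - 2*b + l - m + 2*c + 2*d + 2*V - 1) 0 with h395 | h395
      · exact T0_97 X hb ⟨by clear * - b29 b38 h223; omega, by have := kA 2 h373 (kA 2 h321 (kC 1 b33 (kC 1 b24 (kC 4 b2 k0)))); clear * - this; omega, by have := kA 3 h375 (kA 1 h225 (kA 1 h224 (kA 1 h223 (kA 4 h5 (kA 2 h4 (kC 1 b38 k0)))))); clear * - this; omega, by have := kA 1 h395 (kB 1 h376 (kA 1 h373 (kB 1 h6 (kA 1 h4 (kA 2 h1 k0))))); clear * - this; omega, by have := kA 1 h395 (kB 1 h376 (kA 1 h373 (kB 1 h6 (kA 1 h4 k0)))); clear * - this; omega⟩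
      rcases lt_or_ge (2*N + i - 2*b + l - m + 2*c + 2*d) 0 with h396 | h396
      · exact T0_97 X hb ⟨by clear * - b29 b38 h223; omega, by have := kA 1 h396 (kB 1 h395 (kA 2 h321 (kC 1 b33 (kC 1 b24 (kC 4 b2 k0))))); clear * - this; omega, by have := kA 3 h375 (kA 1 h225 (kA 1 h224 (kA 1 h223 (kA 4 h5 (kA 2 h4 (kC 1 b38 k0)))))); clear * - this; omega, by have := kB 1 h376 (kA 2 h374 (kA 1 h225 (kB 1 h6 (kA 2 h4 (kA 1 h2 (kA 1 h1 (kC 1 b39 k0))))))); clear * - this; omega, by have := kA 3 h396 (kB 4 h376 (kA 1 h375 (kB 2 h227 (kA 2 h4 (kC 1 b39 (kC 1 b29 k0)))))); clear * - this; omega⟩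
      exact T0_135 X hb ⟨by clear * - h387; omega, by clear * - h396; omega, by have := kB 2 h376 (kA 4 h375 (kA 6 h374 (kA 4 h321 (kA 2 h225 (kA 1 h224 (kA 4 h5 (kA 6 h4 (kC 4 b39 (kC 2 b28 k0))))))))); clear * - this; omega, by clear * - h376; omega, by clear * - h373; omega⟩
    rcases lt_or_ge (N + c + d + V - 1) 0 with h397 | h397
    · rcases lt_or_ge (N + c + d + V) 0 with h398 | h398
      · exact T0_143 X hb ⟨by clear * - h398; omega, by clear * - b17 b19 h226; omega⟩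
      exact T0_142 X hb ⟨by clear * - h224 h375 h398; omega, by clear * - h398; omega, by clear * - h397; omega⟩
    exact T0_111 X hb ⟨by clear * - b7 h321 h322; omega, by clear * - h397; omega, by clear * - h224; omega, by have := kB 1 h375 (kA 1 h374 (kA 1 h225 (kA 1 h4 (kA 1 h2 (kC 1 b36 (kC 1 b2 k0)))))); clear * - this; omega, by clear * - h375; omega⟩
  rcases lt_or_ge (2*N - Q + i + l - 3*m + 4*c - 2*V - 2) 0 with h399 | h399
  · rcases lt_or_ge (a + 2*b + c - 1) 0 with h400 | h400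
    · rcases lt_or_ge (-2*N - Q + i + l + 2*m - 2*c + 3) 0 with h401 | h401
      · exact T0_53 X hb ⟨by clear * - h374 h401; omega, by have := kA 1 h399 (kA 1 h322 (kA 1 h321 (kA 4 h222 (kA 2 h4 (kC 1 b36 (kC 1 b29 k0)))))); clear * - this; omega, by have := kA 2 h401 (kA 1 h399 (kB 3 h374 (kA 4 h226 (kB 1 h157 (kA 2 h156 (kA 2 h5 (kA 2 h2 (kA 2 h1 k0)))))))); clear * - this; omega⟩
      rcases lt_or_ge (4*N - 3*m + 4*c + 2*d - 4) 0 with h402 | h402
      · exact T0_5 X hb ⟨by have := kA 7 h402 (kA 3 h399 (kA 2 h321 (kA 4 h226 (kA 8 h222 (kA 3 h156 (kA 3 h5 (kA 1 h2 (kC 4 b38 (kC 4 b29 k0))))))))); clear * - this; omega, by have := kA 1 h400 (kA 1 h222 (kA 1 h2 (kC 1 b33 (kC 1 b29 (kC 1 b17 k0))))); clear * - this; omega⟩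
      exact T0_237 X hb ⟨by have := kB 1 h401 (kA 2 h400 (kA 2 h399 (kA 2 h373 (kA 5 h222 (kB 1 h157 k0))))); clear * - this; omega, by clear * - h401; omega, by clear * - h402; omega, by clear * - h222; omega, by clear * - h374; omega⟩
    exact T0_59 X hb ⟨by clear * - h157 h323 h374; omega, by have := kB 1 h400 (kA 1 h399 (kA 1 h322 (kA 3 h222 (kA 2 h4 (kC 1 b33 (kC 1 b29 (kC 2 b2 k0))))))); clear * - this; omega, by clear * - b2 h227 h374; omega, by clear * - h400; omega⟩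
  exact T0_274 X hb ⟨by clear * - h399; omega, by have := kA 4 h5 (kA 2 h4 (kC 1 b36 (kC 1 b29 (kC 2 b17 (kC 5 b11 k0))))); clear * - this; omega, by clear * - h374; omega, by clear * - h222; omega⟩

theorem M1 (X : C W N Q i a b l m c d L U V) (hb : B N Q i a b l m c d L U V)
    (h1 : (-N + m - c) < 0)
    (h2 : (i - b) < 0)
    (h4 : (c - d - V - 1) < 0)
    (h5 : (N - i - l - c + d - 2) < 0)
    (h6 : (N - 2*a - b + c - 1) ≥ 0)
    (h156 : (-N + Q - i + b - c - 1) < 0)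
    (h157 : (-Q + i - a - b + l + c - d - V + 1) ≥ 0)
    (h222 : (-a - b + m - c + d + V) < 0)
    (h223 : (-2*N + Q - i + 2*a + 2*b - l + m - 2*c + U) < 0)
    (h224 : (i + 2*a + 2*b + 2*d + 2*V) < 0)
    (h225 : (l - m + 2*c + L - U) < 0)
    (h226 : (-3*N + Q - i + a + b - l + m - 3*c - 2*d + U - V) < 0)
    (h227 : (-2*a - b - d - V - 1) ≥ 0)
    (h321 : (i + 2*a + b + d + V) < 0)
    (h322 : (Q - i + b + d + V - 1) < 0)
    (h323 : (-Q + i + 2*b + l - m + 2*c) < 0) : False := by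
  have b2 := hb.b2
  have b3 := hb.b3
  have b6 := hb.b6
  have b11 := hb.b11
  have b17 := hb.b17
  have b18 := hb.b18
  have b19 := hb.b19
  have b24 := hb.b24
  have b29 := hb.b29
  have b33 := hb.b33
  have b36 := hb.b36
  have b38 := hb.b38
  have b39 := hb.b39
  rcases lt_or_ge (-a - 2*b - d - V - 1) 0 with h324 | h324
  · rcases lt_or_ge (i + l - m - U - 1) 0 with h325 | h325
    · rcases lt_or_ge (-a - b + m - c + d + V + 1) 0 with h326 | h326
      · rcases lt_or_ge (-2*N + Q - i + a + b - l + m - 2*c - d + U) 0 with h327 | h327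
        · rcases lt_or_ge (N - i - l - 2) 0 with h328 | h328
          · rcases lt_or_ge (a + b - m - V - 2) 0 with h329 | h329
            · rcases lt_or_ge (2*N - Q + i - 2*a - 2*b + l - m + 2*c + 2*d) 0 with h330 | h330
              · rcases lt_or_ge (-4*N + i + 2*a + 2*b + 2*m - 2*c - 4*d + 2) 0 with h331 | h331
                · exact T0_20 X hb ⟨by have := kA 1 h331 (kA 3 h330 (kA 2 h328 (kA 2 h327 (kA 1 h326 (kA 2 h325 (kA 1 h324 (kA 1 h322 (kB 2 h227 (kA 3 h4 k0))))))))); clear * - this; omega, by have := kA 1 h331 (kA 1 h330 (kA 2 h329 (kA 1 h328 (kA 1 h326 (kA 1 h322 k0))))); clear * - this; omega, by have := kA 1 h331 (kA 2 h330 (kA 2 h328 (kA 2 h324 (kA 2 h322 k0)))); clear * - this; omega⟩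
                rcases lt_or_ge (2*N - b - m + c + 2*d - 2) 0 with h332 | h332
                · exact T0_59 X hb ⟨by have := kA 2 h328 (kA 1 h325 (kA 2 h324 (kA 1 h322 (kA 1 h321 (kA 1 h223 k0))))); clear * - this; omega, by have := kA 1 h326 (kA 2 h324 (kA 1 h323 (kA 1 h322 k0))); clear * - this; omega, by have := kA 2 h328 (kA 1 h325 (kA 2 h324 (kA 2 h323 (kA 1 h322 (kA 1 h321 (kA 1 h223 k0)))))); clear * - this; omega, by have := kA 1 h332 (kA 1 h326 (kA 1 h325 (kA 1 h324 (kC 1 b18 k0)))); clear * - this; omega⟩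
                exact T0_25 X hb ⟨by have := kA 7 h330 (kA 2 h329 (kA 6 h328 (kA 8 h327 (kA 8 h326 (kA 8 h325 (kA 1 h323 (kB 6 h227 (kA 12 h4 k0)))))))); clear * - this; omega, by clear * - h332; omega, by have := kA 2 h330 (kA 2 h328 (kA 2 h327 (kA 2 h326 (kA 3 h325 (kB 2 h227 (kA 4 h4 k0)))))); clear * - this; omega, by have := kB 3 h332 (kB 2 h331 (kA 2 h329 (kA 2 h328 (kA 1 h326 (kA 1 h324 (kA 2 h321 k0)))))); clear * - this; omega, by clear * - h331; omega⟩
              rcases lt_or_ge (Q - i - 2*c + 2*d - 1) 0 with h333 | h333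
              · exact T0_106 X hb ⟨by clear * - h323 h326 h330; omega, by clear * - h321 h322 h324; omega, by have := kA 1 h333 (kA 2 h328 (kA 4 h324 (kA 2 h323 (kA 1 h322 (kA 1 h321 k0))))); clear * - this; omega⟩
              exact T0_107 X hb ⟨by clear * - h333; omega, by clear * - h330; omega, by clear * - h326 h329; omega⟩
            rcases lt_or_ge (Q - i - 2*a - 2*b - l + 2*m - 2*c + 2*V) 0 with h334 | h334
            · rcases lt_or_ge (2*N + i + 2*a - 2*m + 2*c + 2*d - 2) 0 with h335 | h335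
              · rcases lt_or_ge (N - a - 2*b + c - 1) 0 with h336 | h336
                · exact T0_59 X hb ⟨by have := kA 1 h336 (kA 1 h328 (kA 1 h325 (kA 1 h223 k0))); clear * - this; omega, by have := kA 1 h326 (kA 2 h324 (kA 1 h323 (kA 1 h322 k0))); clear * - this; omega, by have := kA 1 h336 (kA 1 h328 (kA 1 h325 (kA 1 h323 (kA 1 h223 k0)))); clear * - this; omega, by have := kA 6 h336 (kA 2 h334 (kA 4 h327 (kA 4 h325 (kA 4 h323 (kA 4 h5 (kC 1 b33 (kC 1 b24 (kC 4 b17 (kC 2 b3 k0))))))))); clear * - this; omega⟩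
                exact T0_20 X hb ⟨by have := kA 1 h326 (kA 3 h324 (kA 1 h323 (kA 1 h322 (kA 1 h321 (kB 1 h227 (kA 1 h4 k0)))))); clear * - this; omega, by clear * - h336; omega, by have := kA 1 h335 (kA 2 h334 (kA 2 h324 (kA 2 h323 (kA 2 h5 (kA 2 h4 (kC 1 b33 (kC 1 b24 k0))))))); clear * - this; omega⟩
              exact T0_252 X hb ⟨by clear * - h321 h322 h324; omega, by clear * - h224 h335; omega, by clear * - h335; omega, by have := kA 2 h324 (kA 1 h323 (kA 1 h322 (kA 1 h321 (kA 1 h5 k0)))); clear * - this; omega⟩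
            exact T0_164 X hb ⟨by clear * - h334; omega, by clear * - h329; omega, by clear * - h223 h325; omega⟩
          rcases lt_or_ge (-N + m - 2*c) 0 with h337 | h337
          · rcases lt_or_ge (Q - i - l - m - 2*d - 3) 0 with h338 | h338
            · exact T0_107 X hb ⟨by have := kA 1 h338 (kA 2 h326 (kA 1 h323 (kA 2 h4 (kC 1 b3 k0)))); clear * - this; omega, by have := kA 2 h338 (kA 4 h337 (kA 1 h326 (kA 1 h323 (kB 2 h227 (kB 1 h157 (kA 4 h4 k0)))))); clear * - this; omega, by clear * - h5 h328; omega⟩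
            exact T0_103 X hb ⟨by clear * - b19 h4 h337; omega, by clear * - h338; omega, by have := kA 2 h324 (kA 1 h323 (kA 1 h322 (kA 1 h321 (kA 1 h5 k0)))); clear * - this; omega, by have := kA 3 h337 (kB 1 h328 (kA 2 h326 (kA 1 h322 (kA 1 h321 (kA 4 h4 (kC 2 b36 (kC 2 b29 k0))))))); clear * - this; omega⟩
          exact T0_73 X hb ⟨by have := kB 1 h337 (kB 5 h328 (kA 6 h327 (kA 4 h326 (kA 3 h325 (kA 2 h324 (kA 3 h323 (kA 4 h321 (kA 12 h5 (kA 6 h4 (kC 3 b38 (kC 3 b29 k0))))))))))); clear * - this; omega, by have := kB 2 h337 (kA 3 h326 (kA 2 h324 (kA 1 h323 (kB 1 h157 (kA 2 h4 k0))))); clear * - this; omega, by clear * - h337; omega, by have := kA 1 h326 (kA 1 h323 (kB 1 h157 (kB 2 h6 (kA 2 h4 k0)))); clear * - this; omega, by clear * - h328; omega⟩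
        exact T0_110 X hb ⟨by have := kA 1 h326 (kA 1 h323 (kA 1 h321 (kA 1 h226 (kA 1 h5 (kA 1 h4 (kA 1 h2 (kC 1 b18 k0))))))); clear * - this; omega, by have := kB 1 h327 (kA 1 h322 (kA 1 h321 (kC 1 b18 k0))); clear * - this; omega, by clear * - h327; omega⟩
      rcases lt_or_ge (2*N - Q + i + l - 3*m + 4*c - 2*V - 2) 0 with h339 | h339
      · rcases lt_or_ge (-2*N - Q + i + l + 2*m - 2*c + 3) 0 with h340 | h340
        · exact T0_53 X hb ⟨by clear * - h326 h340; omega, by have := kA 1 h339 (kA 1 h322 (kA 1 h321 (kA 4 h222 (kA 2 h4 (kC 1 b36 (kC 1 b29 k0)))))); clear * - this; omega, by have := kA 8 h340 (kA 1 h339 (kB 8 h326 (kA 4 h325 (kA 20 h324 (kA 5 h323 (kA 10 h322 (kA 16 h226 (kA 10 h224 (kA 14 h5 (kA 8 h4 k0)))))))))); clear * - this; omega⟩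
        rcases lt_or_ge (4*N - 3*m + 4*c + 2*d - 4) 0 with h341 | h341
        · exact T0_5 X hb ⟨by have := kA 12 h341 (kA 1 h339 (kA 2 h325 (kA 8 h324 (kA 7 h323 (kA 6 h321 (kA 8 h226 (kA 6 h225 (kA 12 h222 (kA 2 h5 (kC 6 b36 k0)))))))))); clear * - this; omega, by have := kA 2 h341 (kB 1 h340 (kA 10 h325 (kA 7 h324 (kA 11 h323 (kA 4 h321 (kB 11 h227 (kA 10 h226 (kA 33 h222 (kA 31 h4 (kC 4 b33 (kC 4 b29 k0))))))))))); clear * - this; omega⟩
        exact T0_237 X hb ⟨by have := kB 1 h341 (kB 1 h340 (kA 5 h339 (kA 4 h322 (kA 4 h321 (kA 8 h222 (kA 4 h5 (kA 6 h4 k0))))))); clear * - this; omega, by clear * - h340; omega, by clear * - h341; omega, by clear * - h222; omega, by clear * - h326; omega⟩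
      exact T0_274 X hb ⟨by clear * - h339; omega, by have := kB 1 h339 (kB 2 h326 (kA 14 h324 (kA 7 h323 (kA 6 h322 (kA 6 h321 (kA 6 h5 (kA 2 h4 k0))))))); clear * - this; omega, by clear * - h326; omega, by clear * - h222; omega⟩
    rcases lt_or_ge (N + c + d + V - 1) 0 with h342 | h342
    · rcases lt_or_ge (N + c + d + V) 0 with h343 | h343
      · exact T0_143 X hb ⟨by clear * - h343; omega, by have := kA 2 h324 (kA 2 h323 (kA 2 h321 (kA 6 h226 (kA 1 h225 (kA 2 h222 (kA 1 h156 (kB 1 h6 (kA 2 h5 (kC 1 b38 (kC 4 b17 k0)))))))))); clear * - this; omega⟩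
      exact T0_142 X hb ⟨by clear * - h224 h325 h343; omega, by clear * - h343; omega, by clear * - h342; omega⟩
    exact T0_111 X hb ⟨by have := kA 1 h324 (kA 1 h323 (kA 1 h322 (kA 1 h321 (kB 1 h227 (kA 1 h222 (kA 1 h4 k0)))))); clear * - this; omega, by clear * - h342; omega, by clear * - h224; omega, by have := kB 1 h325 (kA 2 h324 (kA 1 h323 (kA 2 h322 (kA 2 h222 (kA 2 h5 (kA 4 h4 (kA 2 h2 (kC 1 b36 (kC 1 b29 (kC 1 b19 k0)))))))))); clear * - this; omega, by clear * - h325; omega⟩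
  rcases lt_or_ge (i + 4*a + 4*b + 2*d + 2*V) 0 with h344 | h344
  · rcases lt_or_ge (-a - b + m - c + d + V + 1) 0 with h345 | h345
    · rcases lt_or_ge (Q - i - l - m + U - 2) 0 with h346 | h346
      · rcases lt_or_ge (a + b - m - V - 2) 0 with h347 | h347
        · rcases lt_or_ge (-4*N + 3*m - 4*c - 2*d + U + 3) 0 with h348 | h348
          · exact T0_53 X hb ⟨by have := kA 1 h348 (kA 2 h347 (kA 2 h4 (kC 1 b19 k0))); clear * - this; omega, by have := kA 1 h346 (kA 2 h345 (kA 2 h4 (kC 1 b19 k0))); clear * - this; omega, by clear * - h1 h226 h347; omega⟩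
          rcases lt_or_ge (-2*N + m - 2*c - 2*d) 0 with h349 | h349
          · rcases lt_or_ge (Q - i - 2*c + 2*d - 1) 0 with h350 | h350
            · exact T0_53 X hb ⟨by have := kA 1 h350 (kA 1 h349 (kA 1 h323 (kA 2 h4 (kC 1 b3 k0)))); clear * - this; omega, by have := kA 1 h346 (kA 2 h345 (kA 2 h4 (kC 1 b19 k0))); clear * - this; omega, by have := kA 6 h349 (kB 1 h348 (kA 10 h347 (kA 3 h346 (kA 13 h345 (kB 1 h324 (kA 1 h323 (kB 3 h227 (kA 11 h4 k0)))))))); clear * - this; omega⟩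
            exact T0_107 X hb ⟨by clear * - h350; omega, by have := kB 1 h350 (kA 21 h349 (kB 5 h348 (kA 12 h347 (kA 5 h346 (kA 20 h345 (kA 4 h344 (kA 5 h322 (kB 5 h227 (kA 4 h5 (kA 26 h4 k0)))))))))); clear * - this; omega, by clear * - h345 h347; omega⟩
          rcases lt_or_ge (-2*N + l + 2*m - 2*c + 2) 0 with h351 | h351
          · rcases lt_or_ge (2*N + Q - i - 2*a - 2*b - l + 2*d + 2*V - 2) 0 with h352 | h352
            · rcases lt_or_ge (N - i - l - 2) 0 with h353 | h353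
              · exact T0_111 X hb ⟨by have := kA 1 h352 (kA 1 h351 (kA 2 h323 (kA 1 h322 (kB 3 h227 (kA 2 h4 (kA 2 h2 k0)))))); clear * - this; omega, by have := kA 1 h353 (kA 1 h352 (kA 2 h351 (kA 2 h347 (kA 1 h323 (kA 1 h4 (kA 2 h2 (kC 1 b36 (kC 1 b29 k0)))))))); clear * - this; omega, by clear * - h224; omega, by have := kA 2 h353 (kA 1 h351 (kA 1 h346 (kA 2 h345 (kA 1 h323 (kA 1 h225 (kA 2 h4 (kA 2 h2 (kC 1 b36 k0)))))))); clear * - this; omega, by have := kA 6 h353 (kA 4 h351 (kA 3 h346 (kA 2 h323 (kA 2 h4 (kA 4 h2 (kC 1 b19 k0)))))); clear * - this; omega⟩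
              exact T0_73 X hb ⟨by have := kA 2 h351 (kB 1 h349 (kB 1 h348 (kB 4 h324 (kA 1 h323 (kA 4 h226 (kA 6 h5 (kA 6 h2 (kC 3 b38 (kC 3 b29 k0))))))))); clear * - this; omega, by have := kB 2 h349 (kA 2 h347 (kA 3 h346 (kA 10 h345 (kA 8 h4 (kC 3 b38 (kC 3 b29 k0)))))); clear * - this; omega, by clear * - b19 h4 h346; omega, by have := kA 1 h345 (kA 1 h323 (kB 1 h157 (kB 2 h6 (kA 2 h4 k0)))); clear * - this; omega, by clear * - h353; omega⟩
            exact T0_53 X hb ⟨by clear * - h352; omega, by have := kA 1 h346 (kA 2 h345 (kA 2 h4 (kC 1 b19 k0))); clear * - this; omega, by have := kB 1 h352 (kB 1 h348 (kA 2 h345 (kA 2 h226 k0))); clear * - this; omega⟩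
          exact T0_245 X hb ⟨by have := kA 3 h345 (kA 2 h344 (kA 2 h226 (kA 5 h4 (kA 1 h2 (kC 2 b38 (kC 2 b29 (kC 3 b6 (kC 1 b2 k0)))))))); clear * - this; omega, by clear * - h351; omega, by have := kA 1 h347 (kA 4 h345 (kA 2 h344 (kA 1 h226 (kA 2 h225 (kA 1 h156 (kA 6 h4 (kA 1 h2 (kC 2 b38 (kC 3 b6 k0))))))))); clear * - this; omega, by clear * - h348; omega, by have := kA 2 h347 (kA 4 h345 (kA 1 h344 (kA 4 h4 (kC 1 b33 (kC 1 b29 (kC 1 b6 k0)))))); clear * - this; omega, by clear * - h349; omega, by have := kA 1 h345 (kA 1 h225 (kA 1 h4 (kA 1 h2 (kC 1 b6 (kC 1 b2 k0))))); clear * - this; omega, by have := kA 2 h347 (kA 4 h345 (kA 2 h4 (kC 1 b29 k0))); clear * - this; omega⟩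
        rcases lt_or_ge (Q - i - 2*a - 2*b - l + 2*m - 2*c + 2*V) 0 with h354 | h354
        · rcases lt_or_ge (i + a - b) 0 with h355 | h355
          · rcases lt_or_ge (-2*N + m - 2*c - 2*d) 0 with h356 | h356
            · exact T0_252 X hb ⟨by have := kA 2 h355 (kA 1 h354 (kA 1 h346 (kA 1 h225 (kC 1 b33 (kC 2 b17 k0))))); clear * - this; omega, by have := kA 2 h356 (kA 3 h345 (kB 2 h324 (kA 1 h323 (kB 1 h157 (kA 2 h4 k0))))); clear * - this; omega, by have := kA 2 h356 (kA 2 h354 (kA 2 h323 (kA 2 h5 (kA 2 h4 (kC 1 b33 (kC 1 b24 (kC 2 b17 k0))))))); clear * - this; omega, by have := kA 2 h355 (kA 1 h354 (kA 1 h346 (kA 2 h323 (kA 1 h225 (kA 2 h5 (kC 1 b33 (kC 2 b17 k0))))))); clear * - this; omega⟩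
            rcases lt_or_ge (-4*N + 3*m - 4*c - 2*d + U + 3) 0 with h357 | h357
            · rcases lt_or_ge (4*N - Q - 2*a - 2*b - 2*m + 4*c + 2*d - 2) 0 with h358 | h358
              · exact T0_20 X hb ⟨by have := kA 1 h355 (kA 1 h345 (kA 1 h225 (kA 1 h4 (kC 1 b39 k0)))); clear * - this; omega, by have := kA 1 h357 (kA 1 h355 (kA 1 h354 (kA 1 h346 (kA 1 h344 (kA 2 h323 (kA 1 h225 (kA 1 h156 (kC 1 b38 (kC 4 b17 (kC 2 b6 k0)))))))))); clear * - this; omega, by have := kA 1 h358 (kA 1 h357 (kA 1 h354 (kA 1 h346 (kA 1 h225 (kC 1 b38 (kC 2 b17 k0)))))); clear * - this; omega⟩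
              exact T0_254 X hb ⟨by have := kA 1 h357 (kA 2 h355 (kA 1 h354 (kA 2 h323 (kA 1 h225 (kA 2 h5 (kA 2 h4 (kC 1 b33 k0))))))); clear * - this; omega, by have := kB 1 h356 (kA 1 h346 (kA 1 h323 (kA 1 h225 (kA 2 h5 (kA 2 h2 (kC 1 b33 k0)))))); clear * - this; omega, by have := kA 4 h357 (kB 2 h356 (kA 2 h355 (kA 4 h346 (kA 8 h345 (kA 3 h323 (kA 4 h225 (kA 4 h5 (kA 8 h4 (kA 2 h2 (kC 4 b38 k0)))))))))); clear * - this; omega, by clear * - h358; omega⟩
            exact T0_119 X hb ⟨by have := kA 1 h355 (kA 1 h354 (kB 1 h347 (kA 1 h344 (kA 1 h323 (kA 2 h226 (kA 2 h5 (kC 2 b38 (kC 2 b29 (kC 3 b17 k0))))))))); clear * - this; omega, by have := kB 1 h357 (kA 2 h355 (kA 1 h354 (kA 1 h346 (kA 2 h323 (kA 2 h4 (kC 2 b6 k0)))))); clear * - this; omega, by have := kA 1 h355 (kA 1 h354 (kB 1 h347 (kA 1 h344 (kA 1 h323 (kA 2 h226 (kA 2 h225 (kA 2 h5 (kC 2 b38 (kC 3 b17 k0))))))))); clear * - this; omega, by clear * - h357; omega, by have := kA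 1 h355 (kA 1 h354 (kB 1 h347 (kA 1 h344 (kA 1 h323 (kA 2 h5 (kC 2 b33 (kC 2 b29 (kC 5 b17 k0)))))))); clear * - this; omega, by clear * - h356; omega, by have := kA 2 h355 (kA 3 h354 (kA 1 h346 (kA 2 h323 (kA 1 h225 (kC 1 b33 (kC 2 b29 (kC 6 b17 (kC 2 b6 k0)))))))); clear * - this; omega, by clear * - b17 b29 h345; omega⟩
          exact T0_40 X hb ⟨by clear * - h355; omega, by have := kA 1 h354 (kA 1 h346 (kA 1 h225 (kC 1 b33 (kC 2 b17 (kC 2 b3 k0))))); clear * - this; omega⟩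
        exact T0_164 X hb ⟨by clear * - h354; omega, by clear * - h347; omega, by have := kA 1 h344 (kA 2 h156 (kA 2 h2 (kC 1 b33 (kC 1 b29 (kC 2 b17 (kC 1 b6 k0)))))); clear * - this; omega⟩
      rcases lt_or_ge (Q - i - l - m - 2*d - 3) 0 with h359 | h359
      · rcases lt_or_ge (2*N + Q - i - l - 2*m + 2*d - 4) 0 with h360 | h360
        · rcases lt_or_ge (a + b - m - V - 2) 0 with h361 | h361
          · exact T0_107 X hb ⟨by have := kA 1 h359 (kA 2 h345 (kA 1 h323 (kA 2 h4 (kC 1 b3 k0)))); clear * - this; omega, by clear * - h223 h346 h359; omega, by clear * - h345 h361; omega⟩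
          rcases lt_or_ge (Q - i - 2*a - 2*b - l + 2*m - 2*c + 2*V) 0 with h362 | h362
          · rcases lt_or_ge (-2*N + m - 2*c + U + 1) 0 with h363 | h363
            · exact T0_107 X hb ⟨by have := kA 1 h363 (kB 2 h361 (kA 1 h360 (kA 1 h359 (kB 1 h346 (kA 1 h323 (kA 2 h4 (kC 1 b3 k0))))))); clear * - this; omega, by clear * - h223 h346 h359; omega, by clear * - h346 h360 h363; omega⟩
            exact T0_128 X hb ⟨by clear * - h363; omega, by have := kA 1 h362 (kA 1 h359 (kA 1 h323 (kC 2 b17 (kC 1 b3 k0)))); clear * - this; omega, by have := kB 1 h363 (kA 2 h360 (kB 3 h346 (kA 8 h345 (kB 2 h324 (kA 3 h323 (kA 4 h226 (kB 8 h6 (kA 6 h4 k0)))))))); clear * - this; omega⟩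
          exact T0_164 X hb ⟨by clear * - h362; omega, by clear * - h361; omega, by have := kB 1 h362 (kA 1 h360 (kA 1 h359 (kB 2 h346 (kA 2 h345 (kA 1 h344 (kA 2 h226 (kA 1 h225 (kA 2 h156 (kA 2 h2 (kC 1 b39 k0)))))))))); clear * - this; omega⟩
        rcases lt_or_ge (4*N - Q - 2*a - 2*b - 2*m + 4*c + 2*d - 2) 0 with h364 | h364
        · rcases lt_or_ge (-2*N + m - c - 3*d - V) 0 with h365 | h365
          · exact T0_20 X hb ⟨by have := kA 1 h364 (kB 1 h360 (kA 2 h359 (kA 2 h345 (kA 2 h321 (kC 1 b33 (kC 1 b24 (kC 4 b17 k0))))))); clear * - this; omega, by have := kA 2 h365 (kA 3 h359 (kA 4 h345 (kA 2 h344 (kA 3 h323 (kA 4 h5 (kA 2 h2 (kC 2 b33 (kC 2 b24 (kC 6 b17 k0))))))))); clear * - this; omega, by have := kA 2 h365 (kA 2 h364 (kA 2 h359 (kA 4 h345 (kA 1 h344 (kC 1 b33 (kC 1 b24 (kC 4 b17 k0))))))); clear * - this; omega⟩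
          exact T0_101 X hb ⟨by have := kA 2 h364 (kA 3 h359 (kB 7 h346 (kA 1 h323 (kA 4 h226 (kA 2 h4 (kA 2 h2 (kC 1 b33 (kC 1 b24 k0)))))))); clear * - this; omega, by have := kA 2 h364 (kB 4 h346 (kA 1 h323 (kA 4 h226 (kA 2 h4 (kA 2 h2 (kC 1 b33 (kC 1 b24 k0))))))); clear * - this; omega, by have := kB 2 h365 (kA 1 h364 (kB 2 h360 (kA 2 h359 (kB 2 h346 (kA 2 h226 (kA 2 h156 (kA 2 h2 k0))))))); clear * - this; omega, by clear * - h365; omega⟩
        exact T0_254 X hb ⟨by clear * - h360; omega, by clear * - b11 h5; omega, by have := kB 1 h346 (kA 4 h345 (kA 1 h323 (kA 2 h225 (kA 2 h5 (kA 4 h4 (kA 2 h2 (kC 3 b39 (kC 1 b29 k0)))))))); clear * - this; omega, by clear * - h364; omega⟩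
      rcases lt_or_ge (4*N - Q - 2*m + 2*c + 4*d - 2) 0 with h366 | h366
      · exact T0_53 X hb ⟨by have := kA 3 h366 (kB 3 h346 (kA 1 h344 (kA 4 h226 (kA 4 h4 (kA 2 h2 (kC 1 b38 (kC 3 b33 (kC 4 b29 (kC 2 b2 k0))))))))); clear * - this; omega, by have := kA 1 h366 (kB 1 h346 (kA 2 h345 (kA 2 h322 (kA 2 h4 (kA 2 h2 (kC 1 b39 (kC 1 b36 (kC 2 b29 k0)))))))); clear * - this; omega, by have := kA 2 h366 (kB 7 h346 (kA 4 h323 (kA 18 h226 (kA 6 h225 (kA 6 h156 (kB 2 h6 (kA 10 h5 (kA 4 h4 (kA 12 h2 (kC 6 b39 k0)))))))))); clear * - this; omega⟩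
      rcases lt_or_ge (4*N - Q + i + l - 3*m + 4*c + 4*d - 2) 0 with h367 | h367
      · rcases lt_or_ge (2*N + Q - i - 2*a - 2*b - l + 2*d + 2*V - 2) 0 with h368 | h368
        · exact T0_147 X hb (by have := kA 2 h368 (kA 2 h367 (kB 2 h346 (kA 2 h345 (kA 1 h344 (kA 2 h226 (kA 1 h5 (kA 1 h4 (kC 1 b33 (kC 1 b29 k0))))))))); clear * - this; omega)
        exact T0_53 X hb ⟨by clear * - h368; omega, by have := kA 2 h367 (kB 1 h366 (kA 6 h345 (kA 1 h322 (kA 1 h321 (kA 4 h4 (kC 2 b36 (kC 2 b29 k0))))))); clear * - this; omega, by have := kA 2 h367 (kB 2 h366 (kB 1 h346 (kA 2 h226 (kA 2 h5 k0)))); clear * - this; omega⟩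
      exact T0_103 X hb ⟨by clear * - h346; omega, by clear * - h359; omega, by clear * - b11 h5; omega, by clear * - h367; omega⟩
    rcases lt_or_ge (2*N - Q + i + l - 3*m + 4*c - 2*V - 2) 0 with h369 | h369
    · rcases lt_or_ge (-2*N + l + 2*m - 2*c + 2) 0 with h370 | h370
      · exact T0_53 X hb ⟨by have := kA 4 h370 (kA 1 h369 (kB 2 h345 (kB 2 h324 (kA 1 h323 (kA 2 h5 (kA 2 h4 (kA 4 h2 (kC 2 b36 (kC 2 b29 k0))))))))); clear * - this; omega, by have := kA 1 h369 (kA 1 h322 (kA 1 h321 (kA 4 h222 (kA 2 h4 (kC 1 b36 (kC 1 b29 k0)))))); clear * - this; omega, by have := kA 1 h370 (kA 2 h369 (kB 3 h324 (kA 7 h226 (kA 2 h225 (kA 4 h222 (kA 3 h5 (kA 2 h4 (kA 3 h2 (kC 2 b38 k0))))))))); clear * - this; omega⟩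
      rcases lt_or_ge (-4*N + 3*m - 4*c - 2*d + U + 3) 0 with h371 | h371
      · rcases lt_or_ge (b - V - 1) 0 with h372 | h372
        · exact T0_40 X hb ⟨by have := kA 2 h372 (kA 2 h371 (kB 1 h370 (kA 1 h369 (kB 1 h324 (kA 1 h322 (kA 2 h225 (kA 3 h222 (kA 1 h4 (kC 2 b36 k0))))))))); clear * - this; omega, by have := kA 3 h371 (kA 2 h369 (kA 1 h344 (kA 2 h322 (kA 3 h225 (kA 3 h222 (kA 2 h5 (kA 3 h4 (kA 4 h2 (kC 3 b36 k0))))))))); clear * - this; omega⟩
        exact T0_50 X hb ⟨by have := kA 2 h371 (kB 1 h370 (kA 1 h369 (kB 1 h324 (kA 1 h322 (kA 1 h222 (kA 3 h4 (kC 2 b6 k0))))))); clear * - this; omega, by have := kA 1 h371 (kA 2 h369 (kA 4 h322 (kA 3 h225 (kA 5 h222 (kA 2 h5 (kA 1 h4 (kA 3 h2 (kC 2 b38 (kC 1 b36 (kC 3 b2 k0)))))))))); clear * - this; omega, by clear * - h372; omega⟩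
      exact T0_245 X hb ⟨by have := kA 2 h344 (kA 2 h226 (kA 3 h222 (kA 5 h4 (kA 1 h2 (kC 2 b38 (kC 2 b29 (kC 3 b6 (kC 1 b2 k0)))))))); clear * - this; omega, by clear * - h370; omega, by have := kA 2 h344 (kA 1 h226 (kA 2 h225 (kA 3 h222 (kA 1 h156 (kA 5 h4 (kA 1 h2 (kC 2 b38 (kC 1 b17 (kC 3 b6 k0))))))))); clear * - this; omega, by clear * - h371; omega, by have := kA 1 h344 (kA 2 h222 (kA 2 h4 (kC 1 b33 (kC 1 b29 (kC 2 b17 (kC 1 b6 k0)))))); clear * - this; omega, by have := kB 2 h371 (kA 4 h369 (kA 1 h344 (kA 2 h322 (kA 1 h321 (kB 1 h227 (kA 2 h226 (kA 10 h222 (kA 2 h5 (kA 6 h4 k0))))))))); clear * - this; omega, by have := kA 1 h225 (kA 1 h222 (kA 1 h4 (kA 1 h2 (kC 1 b6 (kC 1 b2 k0))))); clear * - this; omega, by clear * - b17 b29 h222; omega⟩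
    exact T0_274 X hb ⟨by clear * - h369; omega, by have := kA 4 h5 (kA 2 h4 (kC 1 b36 (kC 1 b29 (kC 2 b17 (kC 5 b11 k0))))); clear * - this; omega, by clear * - h345; omega, by clear * - h222; omega⟩
  exact T0_162 X hb ⟨by clear * - h321 h344; omega, by clear * - h324; omega, by clear * - h344; omega⟩

theorem P0 (X : C W N Q i a b l m c d L U V) (hb : B N Q i a b l m c d L U V)
    (h1 : (-N + m - c) < 0)
    (h2 : (i - b) < 0)
    (h3 : (2*N + i + l - m + 2*c + 3*d - U + 2*V - 1) < 0)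
    (h4 : (c - d - V - 1) < 0)
    (h5 : (N - i - l - c + d - 2) < 0)
    (h6 : (N - 2*a - b + c - 1) ≥ 0)
    (h156 : (-N + Q - i + b - c - 1) < 0)
    (h157 : (-Q + i - a - b + l + c - d - V + 1) ≥ 0)
    (h222 : (-a - b + m - c + d + V) < 0)
    (h223 : (-2*N + Q - i + 2*a + 2*b - l + m - 2*c + U) < 0)
    (h224 : (i + 2*a + 2*b + 2*d + 2*V) < 0)
    (h225 : (l - m + 2*c + L - U) < 0)
    (h226 : (-3*N + Q - i + a + b - l + m - 3*c - 2*d + U - V) < 0)
    (h227 : (-2*a - b - d - V - 1) ≥ 0) : False := by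
  have b3 := hb.b3
  have b6 := hb.b6
  have b7 := hb.b7
  have b11 := hb.b11
  have b17 := hb.b17
  have b18 := hb.b18
  have b19 := hb.b19
  have b24 := hb.b24
  have b27 := hb.b27
  have b29 := hb.b29
  have b33 := hb.b33
  have b36 := hb.b36
  have b38 := hb.b38
  have b39 := hb.b39
  rcases lt_or_ge (i + 2*a + b + d + V) 0 with h321 | h321
  · rcases lt_or_ge (Q - i + b + d + V - 1) 0 with h322 | h322
    · rcases lt_or_ge (-Q + i + 2*b + l - m + 2*c) 0 with h323 | h323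
      · exact M1 X hb h1 h2 h4 h5 h6 h156 h157 h222 h223 h224 h225 h226 h227 h321 h322 h323
      rcases lt_or_ge (a - V) 0 with h373 | h373
      · exact M0 X hb h1 h2 h4 h5 h6 h156 h157 h222 h223 h224 h225 h226 h227 h321 h322 h323 h373
      rcases lt_or_ge (-a + V) 0 with h403 | h403
      · rcases lt_or_ge (c - d) 0 with h404 | h404
        · rcases lt_or_ge (2*N - Q + i - 2*a - 2*b + l - m + 4*c) 0 with h405 | h405
          · rcases lt_or_ge (2*N + Q - i - 2*a - 4*b - l - 2) 0 with h406 | h406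
            · rcases lt_or_ge (-N + a + b + m - 2*c + d) 0 with h407 | h407
              · rcases lt_or_ge (-4*N + 3*m - 4*c - 2*d + U + 3) 0 with h408 | h408
                · rcases lt_or_ge (2*N + i + 2*a - 2*m + 2*c + 2*d - 2) 0 with h409 | h409
                  · rcases lt_or_ge (2*N - Q - 2*a - 2*b + 2*c) 0 with h410 | h410
                    · rcases lt_or_ge (2*N + i + a + b + l - m + 2*c + 3*d - U + 2*V - 1) 0 with h411 | h411
                      · exact T0_147 X hb (by have := kA 1 h411 (kA 1 h410 (kA 1 h409 (kA 1 h408 (kA 1 h403 (kA 1 h156 (kA 1 h5 (kC 1 b17 k0))))))); clear * - this; omega)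
                      exact T0_93 X hb ⟨by have := kB 1 h411 (kA 1 h409 (kA 2 h407 (kA 2 h404 (kA 2 h403 k0)))); clear * - this; omega, by have := kB 4 h411 (kA 1 h410 (kA 5 h409 (kA 10 h407 (kA 2 h406 (kA 2 h404 (kA 12 h403 (kA 2 h322 (kA 3 h225 (kA 6 h4 (kC 3 b38 k0)))))))))); clear * - this; omega, by clear * - h411; omega, by clear * - h227 h403; omega⟩
                    exact T0_108 X hb ⟨by clear * - h410; omega, by have := kA 2 h408 (kA 1 h407 (kA 1 h405 (kA 1 h404 (kA 1 h403 (kA 1 h321 (kA 1 h225 (kA 1 h5 (kA 2 h4 (kC 1 b38 k0))))))))); clear * - this; omega, by clear * - h1 h405; omega, by have := kB 1 h410 (kA 1 h409 (kA 2 h408 (kA 2 h407 (kA 2 h406 (kA 2 h404 (kA 2 h403 (kA 1 h225 (kA 2 h4 (kC 1 b38 k0))))))))); clear * - this; omega, by clear * - h5 h405 h410; omega⟩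
                  exact T0_218 X hb ⟨by have := kA 1 h408 (kA 1 h406 (kA 2 h5 (kC 1 b19 (kC 2 b17 (kC 3 b11 k0))))); clear * - this; omega, by have := kB 3 h409 (kA 2 h407 (kA 2 h406 (kA 8 h405 (kA 2 h404 (kA 6 h156 (kB 12 h6 (kA 6 h5 (kA 22 h2 k0)))))))); clear * - this; omega, by have := kB 2 h409 (kA 1 h408 (kA 3 h407 (kA 1 h405 (kA 8 h403 (kA 4 h321 (kA 3 h226 (kA 2 h225 (kA 6 h5 (kA 9 h4 (kC 2 b38 k0)))))))))); clear * - this; omega, by clear * - h409; omega, by clear * - b11 h5; omega⟩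
                rcases lt_or_ge (2*N - 2*a - 2*b + l - m + 2*c + 2*d - 1) 0 with h412 | h412
                · exact T0_147 X hb (by have := kA 1 h412 (kA 1 h407 (kA 1 h404 (kA 1 h403 (kA 1 h321 (kA 1 h5 k0))))); clear * - this; omega)
                rcases lt_or_ge (-2*N + l + 2*m - 2*c + 2) 0 with h413 | h413
                · exact T0_218 X hb ⟨by have := kA 2 h413 (kB 1 h408 (kA 1 h406 (kA 3 h405 (kA 4 h403 (kA 4 h321 (kA 2 h226 (kA 1 h225 (kC 1 b33 (kC 6 b17 (kC 3 b6 k0)))))))))); clear * - this; omega, by have := kA 12 h413 (kB 3 h412 (kB 8 h408 (kA 2 h406 (kA 11 h405 (kA 10 h403 (kA 10 h226 (kA 1 h225 (kB 10 h6 (kA 10 h5 (kA 24 h2 (kC 1 b38 k0))))))))))); clear * - this; omega, by have := kA 2 h413 (kB 2 h412 (kB 1 h408 (kA 1 h407 (kA 1 h405 (kA 4 h403 (kA 1 h226 (kA 2 h5 (kA 3 h4 k0)))))))); clear * - this; omega, by have := kA 1 h413 (kA 2 h403 (kA 2 h4 (kC 1 b6 k0))); clear * - this; omega, by clear * - b11 h5; omega⟩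
                rcases lt_or_ge (-2*a - 2*b + U) 0 with h414 | h414
                · exact T0_106 X hb ⟨by clear * - h403 h404 h407; omega, by have := kA 7 h414 (kB 1 h413 (kB 2 h408 (kA 13 h407 (kA 4 h406 (kA 8 h404 (kA 4 h403 (kA 4 h321 (kA 5 h226 (kA 5 h225 (kA 3 h4 (kC 5 b38 k0))))))))))); clear * - this; omega, by have := kA 1 h414 (kA 1 h225 (kC 1 b36 (kC 2 b17 k0))); clear * - this; omega⟩
                exact T0_119 X hb ⟨by clear * - h412; omega, by clear * - h413; omega, by clear * - h414; omega, by clear * - h408; omega, by clear * - h404 h407; omega, by have := kA 1 h405 (kA 1 h321 (kA 1 h156 (kA 1 h5 (kC 1 b17 k0)))); clear * - this; omega, by have := kA 1 h407 (kA 1 h406 (kA 2 h403 (kA 1 h226 (kA 1 h4 (kC 1 b27 k0))))); clear * - this; omega, by have := kA 3 h407 (kA 1 h406 (kA 1 h405 (kA 2 h403 (kA 1 h226 (kA 1 h4 (kC 1 b27 k0)))))); clear * - this; omega⟩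
              rcases lt_or_ge (-N - a - b + m - d + U + 1) 0 with h415 | h415
              · rcases lt_or_ge (-N - a - b + m - d + U - V + 2) 0 with h416 | h416
                · exact T0_149 X hb ⟨by have := kA 1 h416 (kA 1 h321 (kA 1 h226 (kA 1 h156 (kA 1 h5 (kA 1 h4 (kC 1 b38 (kC 1 b27 k0))))))); clear * - this; omega, by clear * - b17 h407; omega, by have := kA 1 h416 (kA 2 h403 (kA 2 h321 (kA 1 h225 (kC 1 b33 (kC 2 b17 (kC 2 b6 k0)))))); clear * - this; omega, by clear * - h416; omega⟩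
                exact T0_278 X hb ⟨by clear * - h415 h416; omega, by have := kA 1 h415 (kA 1 h404 (kA 1 h403 (kB 1 h6 (kC 3 b17 k0)))); clear * - this; omega, by clear * - b17 h407 h415; omega, by have := kA 2 h403 (kA 2 h321 (kA 1 h225 (kC 1 b33 (kC 2 b17 (kC 2 b6 k0))))); clear * - this; omega, by clear * - b17 h415; omega, by clear * - h416; omega⟩
              exact T0_97 X hb ⟨by clear * - h4 h6 h403; omega, by have := kA 2 h403 (kA 2 h321 (kC 1 b33 (kC 1 b24 (kC 4 b17 k0)))); clear * - this; omega, by clear * - h415; omega, by have := kB 1 h415 (kA 1 h405 (kA 1 h403 (kA 1 h226 (kA 2 h222 (kB 1 h6 (kA 2 h4 k0)))))); clear * - this; omega, by clear * - h407; omega⟩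
            exact T0_38 X hb ⟨by clear * - h406; omega, by clear * - h323 h405; omega, by have := kA 2 h403 (kA 1 h156 (kB 1 h6 (kC 2 b17 k0))); clear * - this; omega⟩
          rcases lt_or_ge (Q - i - l - 2*d - 2) 0 with h417 | h417
          · exact T0_128 X hb ⟨by clear * - b17 b19 h417; omega, by have := kA 1 h417 (kA 2 h403 (kC 2 b17 (kC 1 b3 k0))); clear * - this; omega, by clear * - b7 h405; omega⟩
          exact T0_129 X hb ⟨by clear * - h417; omega, by clear * - h404; omega, by clear * - h405; omega, by have := kB 1 h417 (kA 2 h404 (kA 2 h156 (kA 2 h5 (kA 2 h2 k0)))); clear * - this; omega⟩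
        rcases lt_or_ge (-c + d) 0 with h418 | h418
        · rcases lt_or_ge (2*N - Q + i - 2*a - 2*b + l - m + 2*c + 2*d) 0 with h419 | h419
          · rcases lt_or_ge (a + 2*b + c - 1) 0 with h420 | h420
            · rcases lt_or_ge (2*N + Q - i - 4*a - 4*b + 2*d + 2*V - 1) 0 with h421 | h421
              · exact T0_38 X hb ⟨by have := kA 2 h420 (kA 4 h418 (kA 2 h403 (kA 2 h4 (kC 1 b33 (kC 1 b29 (kC 1 b3 k0)))))); clear * - this; omega, by clear * - b3 h4 h421; omega, by have := kA 2 h418 (kA 2 h403 (kA 1 h156 (kB 1 h6 (kA 2 h4 k0)))); clear * - this; omega⟩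
              exact T0_166 X hb ⟨by clear * - h421; omega, by have := kA 6 h420 (kA 1 h419 (kA 2 h418 (kA 2 h403 (kB 3 h323 (kA 2 h321 (kA 2 h226 (kA 2 h225 (kA 2 h4 (kC 2 b36 k0))))))))); clear * - this; omega, by clear * - h323 h403 h419; omega⟩
            rcases lt_or_ge (-a - 2*b + m - c) 0 with h422 | h422
            · rcases lt_or_ge (N - i - l - 2) 0 with h423 | h423
              · rcases lt_or_ge (-N - 2*d - V - 1) 0 with h424 | h424
                · rcases lt_or_ge (-2*N + Q - i - 2*c - 2*d - 2*V - 1) 0 with h425 | h425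
                  · rcases lt_or_ge (2*N - a - b - m + c - U + V - 3) 0 with h426 | h426
                    · exact T0_9 X hb ⟨by clear * - h418; omega, by have := kA 1 h426 (kA 3 h418 (kA 1 h403 (kB 1 h227 (kA 3 h4 k0)))); clear * - this; omega⟩
                    rcases lt_or_ge (a + b + m - c + 2*d + V) 0 with h427 | h427
                    · exact T0_25 X hb ⟨by have := kA 2 h427 (kA 12 h424 (kA 4 h423 (kA 2 h422 (kA 5 h419 (kA 4 h418 (kA 5 h322 (kA 5 h321 k0))))))); clear * - this; omega, by clear * - h403 h424 h427; omega, by have := kA 1 h427 (kA 1 h425 (kA 4 h424 (kA 2 h423 (kA 1 h422 (kA 2 h419 (kA 1 h322 (kA 2 h321 (kA 1 h3 k0)))))))); clear * - this; omega, by have := kA 2 h424 (kA 2 h423 (kA 1 h419 (kA 2 h418 (kA 1 h322 (kA 1 h321 k0))))); clear * - this; omega, by have := kA 1 h425 (kA 2 h423 (kA 2 h419 (kA 1 h322 (kA 1 h321 k0)))); clear * - this; omega⟩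
                    rcases lt_or_ge (-2*N - a - b + m - c - 2*d + U - V + 1) 0 with h428 | h428
                    · exact T0_93 X hb ⟨by have := kA 1 h428 (kB 1 h426 (kA 2 h424 (kA 2 h423 (kA 2 h418 (kA 2 h403 (kA 2 h321 k0)))))); clear * - this; omega, by have := kA 1 h428 (kA 2 h424 (kA 2 h423 (kA 2 h418 (kA 1 h4 (kA 2 h3 k0))))); clear * - this; omega, by have := kA 1 h428 (kA 1 h424 (kA 1 h423 (kA 1 h418 k0))); clear * - this; omega, by clear * - h227 h403; omega⟩
                    exact T0_283 X hb ⟨by have := kA 1 h424 (kA 1 h423 (kA 1 h418 (kA 1 h403 (kA 1 h321 k0)))); clear * - this; omega, by clear * - h426; omega, by clear * - h427; omega, by have := kB 1 h428 (kB 1 h426 (kA 4 h418 (kA 2 h403 (kB 2 h227 k0)))); clear * - this; omega, by clear * - h428; omega, by have := kB 2 h428 (kB 1 h427 (kB 2 h426 (kA 2 h424 (kA 2 h422 (kA 2 h403 k0))))); clear * - this; omega⟩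
                  exact T0_146 X hb ⟨by clear * - h425; omega, by clear * - h321 h322; omega, by clear * - h418 h424; omega⟩
                exact T0_147 X hb (by clear * - h424; omega)
              exact T0_73 X hb ⟨by have := kB 7 h423 (kA 4 h403 (kA 3 h321 (kB 1 h227 (kA 2 h226 (kA 10 h5 (kA 6 h4 (kC 2 b38 (kC 2 b29 k0)))))))); clear * - this; omega, by have := kB 2 h420 (kA 1 h419 (kA 6 h418 (kA 8 h403 (kB 1 h323 (kB 4 h227 (kA 12 h4 k0)))))); clear * - this; omega, by have := kA 1 h419 (kA 1 h322 (kA 1 h321 (kA 2 h4 (kC 1 b36 (kC 1 b29 k0))))); clear * - this; omega, by have := kA 2 h418 (kA 2 h403 (kB 1 h227 (kB 1 h6 (kA 3 h4 k0)))); clear * - this; omega, by clear * - h423; omega⟩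
            exact T0_59 X hb ⟨by clear * - h323 h422; omega, by have := kA 3 h419 (kA 2 h418 (kA 6 h403 (kB 1 h323 (kA 2 h226 (kA 2 h225 (kA 2 h222 (kA 6 h4 (kC 2 b33 k0)))))))); clear * - this; omega, by clear * - h422; omega, by clear * - h420; omega⟩
          exact T0_107 X hb ⟨by clear * - b3 h4 h403; omega, by clear * - h419; omega, by clear * - h418; omega⟩
        rcases lt_or_ge (2*N - 2*a - 2*b + l - m + 4*c - 1) 0 with h429 | h429
        · rcases lt_or_ge (-N - a - b + m - d + U + 1) 0 with h430 | h430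
          · rcases lt_or_ge (-a - 2*b + m - c) 0 with h431 | h431
            · rcases lt_or_ge (c - d - V) 0 with h432 | h432
              · rcases lt_or_ge (-N + a + b + m - 2*c + d + V) 0 with h433 | h433
                · exact T0_147 X hb (by have := kA 1 h433 (kA 1 h432 (kA 1 h429 (kB 2 h404 (kA 1 h403 (kA 1 h321 (kA 1 h5 k0)))))); clear * - this; omega)
                exact T0_149 X hb ⟨by have := kA 2 h432 (kB 1 h404 (kA 1 h403 (kB 1 h6 k0))); clear * - this; omega, by clear * - h433; omega, by clear * - h6 h403 h404; omega, by clear * - h404 h430 h432; omega⟩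
              rcases lt_or_ge (-2*N - Q + 2*a + 4*b - 2*d - 2*V) 0 with h434 | h434
              · exact T0_147 X hb (by have := kA 1 h434 (kA 2 h431 (kA 2 h429 (kB 4 h404 (kA 2 h403 (kA 1 h322 (kA 3 h321 (kA 2 h5 k0))))))); clear * - this; omega)
              exact T0_235 X hb ⟨by clear * - h432; omega, by clear * - h4; omega, by have := kA 2 h430 (kB 6 h404 (kA 4 h403 (kA 1 h322 (kB 1 h227 (kA 1 h225 (kA 6 h4 (kC 1 b38 k0))))))); clear * - this; omega, by have := kB 2 h404 (kA 2 h403 (kB 1 h227 (kA 3 h4 k0))); clear * - this; omega, by clear * - h434; omega, by have := kB 2 h404 (kA 2 h403 (kA 1 h156 (kB 1 h6 (kA 2 h4 k0)))); clear * - this; omega⟩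
            rcases lt_or_ge (a + 2*b + c - 1) 0 with h435 | h435
            · exact T0_38 X hb ⟨by have := kA 3 h435 (kB 1 h431 (kA 2 h430 (kB 6 h404 (kB 1 h323 (kC 2 b38 (kC 2 b29 k0)))))); clear * - this; omega, by have := kA 2 h430 (kA 1 h429 (kB 1 h323 (kA 1 h225 (kA 2 h5 (kA 2 h2 (kC 1 b38 k0)))))); clear * - this; omega, by have := kB 2 h404 (kA 2 h403 (kA 1 h156 (kB 1 h6 (kA 2 h4 k0)))); clear * - this; omega⟩
            exact T0_59 X hb ⟨by clear * - h323 h431; omega, by have := kB 1 h431 (kA 2 h430 (kB 4 h404 (kA 2 h403 (kB 1 h323 (kA 1 h225 (kA 2 h4 (kC 1 b38 k0))))))); clear * - this; omega, by clear * - h431; omega, by clear * - h435; omega⟩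
          rcases lt_or_ge (-N + a + b + m - 2*c + d) 0 with h436 | h436
          · exact T0_147 X hb (by have := kA 1 h436 (kA 1 h429 (kB 1 h404 (kA 1 h403 (kA 1 h321 (kA 1 h5 k0))))); clear * - this; omega)
          exact T0_97 X hb ⟨by clear * - h4 h6 h403; omega, by have := kB 4 h404 (kA 2 h403 (kA 2 h321 (kA 4 h4 (kC 1 b33 (kC 1 b24 k0))))); clear * - this; omega, by clear * - h430; omega, by have := kB 1 h436 (kB 2 h404 (kA 2 h403 (kA 2 h222 (kB 2 h6 (kA 4 h4 k0))))); clear * - this; omega, by clear * - h436; omega⟩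
        rcases lt_or_ge (2*N - 2*a - 2*b - m + 2*c - 2) 0 with h437 | h437
        · exact T0_97 X hb ⟨by clear * - h4 h6 h403; omega, by have := kB 4 h404 (kA 2 h403 (kA 2 h321 (kA 4 h4 (kC 1 b33 (kC 1 b24 k0))))); clear * - this; omega, by have := kA 2 h437 (kB 2 h429 (kB 2 h404 (kA 1 h322 (kB 1 h227 (kA 1 h225 (kA 2 h4 (kC 1 b38 k0))))))); clear * - this; omega, by have := kA 1 h437 (kB 2 h404 (kA 3 h403 (kA 2 h222 (kB 3 h6 (kA 5 h4 k0))))); clear * - this; omega, by have := kA 1 h437 (kA 1 h403 (kB 1 h6 (kA 1 h4 k0))); clear * - this; omega⟩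
        exact T0_116 X hb ⟨by clear * - h437; omega, by clear * - h429; omega, by have := kB 1 h418 (kA 1 h403 (kA 1 h225 (kA 1 h222 (kA 2 h5 (kA 2 h4 (kA 1 h2 (kC 1 b39 (kC 1 b11 k0)))))))); clear * - this; omega, by clear * - h418; omega, by clear * - h404; omega⟩
      rcases lt_or_ge (-2*N - Q + i + 2*b + l - 2*d + 1) 0 with h438 | h438
      · rcases lt_or_ge (-N + a + b - c - d - V - 1) 0 with h439 | h439
        · exact T0_107 X hb ⟨by clear * - b3 h4 h373; omega, by have := kA 4 h439 (kB 4 h373 (kB 1 h323 (kB 2 h227 (kA 1 h222 (kB 1 h157 (kA 4 h4 k0)))))); clear * - this; omega, by have := kA 1 h439 (kA 1 h222 (kA 1 h5 (kC 1 b11 k0))); clear * - this; omega⟩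
        exact T0_53 X hb ⟨by clear * - h403 h438; omega, by clear * - h439; omega, by have := kB 1 h439 (kA 1 h438 (kB 2 h403 (kA 1 h226 (kA 1 h156 (kA 1 h5 (kA 1 h2 k0)))))); clear * - this; omega⟩
      exact T0_91 X hb ⟨by clear * - h373; omega, by clear * - h403; omega, by clear * - h323; omega, by clear * - h438; omega, by clear * - b17 h227 h373; omega, by clear * - b17 h225 h373; omega, by have := kB 4 h373 (kA 2 h321 (kA 1 h225 (kC 2 b18 (kC 6 b17 k0)))); clear * - this; omega⟩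
    exact T0_123 X hb ⟨by clear * - h227; omega, by clear * - h322; omega, by clear * - h223 h322; omega⟩
  rcases lt_or_ge (2*N - 2*a - b + l - m + 2*c + d - U + V - 2) 0 with h440 | h440
  · rcases lt_or_ge (2*N - 2*a - b + l - m + 2*c + d - U - 1) 0 with h441 | h441
    · exact T0_153 X hb ⟨by clear * - h441; omega, by have := kA 1 h441 (kB 1 h227 (kA 1 h226 (kA 1 h222 (kA 1 h5 (kA 1 h4 (kA 1 h2 (kC 1 b39 (kC 1 b29 k0)))))))); clear * - this; omega, by clear * - b18 h224 h441; omega⟩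
    exact T0_152 X hb ⟨by clear * - b17 h440; omega, by clear * - h441; omega, by clear * - h227 h440; omega, by have := kB 1 h441 (kA 1 h440 (kB 1 h321 (kA 1 h224 (kB 1 h6 (kA 1 h5 (kA 2 h4 (kA 2 h2 k0))))))); clear * - this; omega, by have := kB 1 h441 (kA 1 h440 (kB 1 h321 (kA 1 h223 (kA 1 h2 k0)))); clear * - this; omega⟩
  exact T0_90 X hb ⟨by clear * - h321; omega, by clear * - h227; omega, by have := kB 11 h321 (kB 5 h227 (kA 2 h226 (kA 5 h224 (kA 6 h5 (kA 8 h4 (kA 12 h2 (kC 2 b38 (kC 2 b29 k0)))))))); clear * - this; omega, by clear * - h440; omega⟩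

end Pool.Agent.MP_a38735_al.WL.E31
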