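import Pool.Agent.MP_a38735_al.E31h

set_option autoImplicit false
set_option linter.unusedVariables false
set_option linter.unusedSimpArgs false

namespace Pool.Agent.MP_a38735_al.WL.E31

variable {G : Type*} [Group G]

variable {W : ℤ → G} {N Q i a b l m c d L U V Y : ℤ}

theorem T0_0 (X : C W N Q i a b l m c d L U V) (hb : B N Q i a b l m c d L U V)
    (h : m + U + 1 ≤ 2*N + i + l + 2*c + 3*d + 2*V ∧ d + 2*V + 1 ≤ 0) :
    False := by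
  have b17 := hb.b17
  obtain ⟨g1, g2⟩ := h
  have k1 : d + 1 ≤ 0 := by clear * - b17 g2; omega
  clear * - X g1 g2 k1
  exact X.al.ninv (2*N + i + l - m + 2*c + 3*d - U + 2*V - 1) (fin X.al.per 0 _ (pr X.f1 X.al.per 0 (2*N + i + l - m + 2*c + 3*d - U + 2*V - 1) (af X.t1 X.al.per 0 (2*N + i + l - m + 2*c + d - U - 1) (rfl : W (2*N + i + l - m + 2*c + 3*d - U + 2*V - 1) = W (2*N + i + l - m + 2*c + 3*d - U + 2*V - 1)) (by omega)) (by omega)) (by omega))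

theorem T0_1 (X : C W N Q i a b l m c d L U V) (hb : B N Q i a b l m c d L U V)
    (h : m + U + 1 ≤ 2*N + i + l + 2*c + 3*d + V) :
    False := by
  have b17 := hb.b17
  have b19 := hb.b19
  have b20 := hb.b20
  have g1 := h
  have k1 : d + V + 1 ≤ 0 := by clear * - b19 b20; omega
  have k2 : 3*d + V + 1 ≤ 0 := by clear * - b17 b19 b20; omega
  have k3 : m + U + 2 ≤ 2*N + i + l + 2*c + 2*d + 2*V := by clear * - b17 b19 b20 g1; omega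
  clear * - X g1 k1 k2 k3
  obtain ⟨K0, hL⟩ : ∃ K0 : ℤ, -4*N - 2*i - 2*l + 2*m - 4*c - 4*d + 2*U - 2*V + 2 ≤ 2*K0 ∧ 4*d + 2*V + 2 ≤ 2*K0 ∧ 2*K0 + 2*(-d - V) - 2 ≤ -2*V - 2 ∧ 2*K0 + 2*(-d - V) - 2 ≤ 4*N + 2*i + 2*l - 2*m + 4*c + 4*d - 2*U + 2*V - 2 ∧ 2*K0 + 2*(-d - V) - 2 ≤ -4*d - 2*V - 2 := ⟨((max (4*d + 2*V + 2) (-4*N - 2*i - 2*l + 2*m - 4*c - 4*d + 2*U - 2*V + 2)) + 1) / 2, by omega⟩
  obtain ⟨R, hR1, hR2, hR⟩ := pw (A := 0) (B := 2*N + i + l - m + 2*c - U - 1) (γ := -d - V) (by omega) (fun t h1 h2 => (fin X.al.per 0 _ (pf X.f1 X.al.per 0 (-2*d - 2*V + t) (rfl : W (t) = W (t)) (by omega)) (by omega))) K0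
  exact X.al.ninv (2*N + i + l - m + 2*c + 2*d - U + V + R - 1) (fin X.al.per 0 _ (pp hR X.al.per 0 (2*N + i + l - m + 2*c + 2*d - U + V + R - 1) (af X.t1 X.al.per 0 (2*N + i + l - m + 2*c + 2*d - U + V - R - 1) (rfl : W (2*N + i + l - m + 2*c + 2*d - U + V + R - 1) = W (2*N + i + l - m + 2*c + 2*d - U + V + R - 1)) (by omega)) (by omega)) (by omega))

theorem T0_2 (X : C W N Q i a b l m c d L U V) (hb : B N Q i a b l m c d L U V)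
    (h : 0 ≤ i + a + d + V ∧ a + d + V + 1 ≤ 0 ∧ a + m + U + 2 ≤ 2*N + l + 2*c + d + V) :
    False := by
  obtain ⟨g1, g2, g3⟩ := h
  clear * - X g1 g2 g3
  exact X.al.ninv (i + a + d + V) (fin X.al.per 0 _ (pr X.f1 X.al.per 0 (i + a + d + V) (af X.s1 X.al.per 0 (i + a - d - V) (rfl : W (i + a + d + V) = W (i + a + d + V)) (by omega)) (by omega)) (by omega))

theorem T0_3 (X : C W N Q i a b l m c d L U V) (hb : B N Q i a b l m c d L U V)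
    (h : N + c ≤ m) :
    False := by
  have b6 := hb.b6
  have b13 := hb.b13
  have g1 := h
  have k1 : 1 ≤ N + c := by clear * - b6 b13 g1; omega
  clear * - X g1 k1
  exact X.al.ninv (-N + i + l + c + 1) (fin X.al.per (-1) _ (af X.S2 X.al.per 0 (N + i + l + c + 1) (rfl : W (-N + i + l + c + 1) = W (-N + i + l + c + 1)) (by omega)) (by omega))

theorem T0_4 (X : C W N Q i a b l m c d L U V) (hb : B N Q i a b l m c d L U V)
    (h : b ≤ i) :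
    False := by
  have b2 := hb.b2
  have b3 := hb.b3
  have b4 := hb.b4
  have b24 := hb.b24
  have b35 := hb.b35
  have g1 := h
  have k1 : 1 ≤ b := by clear * - b3 b4; omega
  have k2 : 1 ≤ 2*a + 3*b := by clear * - b2 b3 b4; omega
  have k3 : 1 ≤ i + 2*a := by clear * - b2 b24 b35 g1; omega
  clear * - X g1 k1 k2 k3
  obtain ⟨K0, hL⟩ : ∃ K0 : ℤ, -2*i - 2*a ≤ 2*K0 ∧ -2*a - 4*b + 2 ≤ 2*K0 ∧ 2*K0 + 2*(b) - 2 ≤ -2*a - 2 ∧ 2*K0 + 2*(b) - 2 ≤ 2*i + 2*a ∧ 2*K0 + 2*(b) - 2 ≤ 2*a + 4*b - 2 := ⟨((max (-2*a - 4*b + 2) (-2*i - 2*a)) + 1) / 2, by omega⟩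
  obtain ⟨R, hR1, hR2, hR⟩ := pw (A := 0) (B := i + 2*a + 2*b) (γ := b) (by omega) (fun t h1 h2 => (fin X.al.per 0 _ (pf X.a1 X.al.per 0 (2*b + t) (rfl : W (t) = W (t)) (by omega)) (by omega))) K0
  exact X.al.ninv (i + a + R) (fin X.al.per 0 _ (pp hR X.al.per 0 (i + a + R) (af X.s1 X.al.per 0 (i + a - R) (rfl : W (i + a + R) = W (i + a + R)) (by omega)) (by omega)) (by omega))

theorem T0_5 (X : C W N Q i a b l m c d L U V) (hb : B N Q i a b l m c d L U V)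
    (h : 2*N + 2*c + d ≤ 2*m + 1 ∧ i + l + m + 3 ≤ 2*N + d) :
    False := by
  have b6 := hb.b6
  have b17 := hb.b17
  have b19 := hb.b19
  have b20 := hb.b20
  obtain ⟨g1, g2⟩ := h
  have k1 : m + 2 ≤ 2*N + 2*c + d := by clear * - b6 g2; omega
  have k2 : d + 1 ≤ 0 := by clear * - b17 b19 b20; omega
  clear * - X g1 g2 k1 k2
  exact X.al.ninv (-2*N + i + l + m - d + 2) (fin X.al.per (-1) _ (pr X.d2 X.al.per 0 (i + l + m - d + 2) (af X.S2 X.al.per 0 (2*N + i + l - m + 2*c + d) (rfl : W (-2*N + i + l + m - d + 2) = W (-2*N + i + l + m - d + 2)) (by omega)) (by omega)) (by omega))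

theorem T0_6 (X : C W N Q i a b l m c d L U V) (hb : B N Q i a b l m c d L U V)
    (h : l + c + 2 ≤ 2*a + b ∧ 1 ≤ b + c) :
    False := by
  have b2 := hb.b2
  have b8 := hb.b8
  have b11 := hb.b11
  have b25 := hb.b25
  have b36 := hb.b36
  obtain ⟨g1, g2⟩ := h
  have k1 : Q ≤ i + b + l + c + 1 := by clear * - b8 g2; omega
  have k2 : b + c ≤ m := by clear * - b2 b11 b25 b36; omega
  clear * - X g1 g2 k1 k2
  exact X.al.ninv (i + b + l + c + 1) (fin X.al.per 0 _ (af X.S2 X.al.per 0 (i + b + l + c + 1) (pr X.a2 X.al.per 0 (i - b + l + c + 1) (rfl : W (i + b + l + c + 1) = W (i + b + l + c + 1)) (by omega)) (by omega)) (by omega))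

theorem T0_7 (X : C W N Q i a b l m c d L U V) (hb : B N Q i a b l m c d L U V)
    (h : N + c + d ≤ m ∧ i + l + c + 2 ≤ N + d ∧ i + l + m + 4 ≤ 2*N) :
    False := by
  have b6 := hb.b6
  have b17 := hb.b17
  have b19 := hb.b19
  have b20 := hb.b20
  obtain ⟨g1, g2, g3⟩ := h
  have k1 : 1 ≤ N + c + d := by clear * - b6 g2; omega
  have k2 : d + 1 ≤ N + c := by clear * - b6 g1 g3; omega
  have k3 : N + c + 3*d ≤ m := by clear * - b17 b19 b20 g1; omega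
  clear * - X g1 g2 g3 k1 k2 k3
  obtain ⟨K0, hL⟩ : ∃ K0 : ℤ, 2*N - 2*m + 2*c ≤ 2*K0 ∧ -2*N + 2*i + 2*l + 2*c + 4 ≤ 2*K0 ∧ 2*N - 2*m + 2*c + 4*d ≤ 2*K0 ∧ 2*K0 + 2*(-N + m - c - d + 1) - 2 ≤ 2*N + 2*c - 2 ∧ 2*K0 + 2*(-N + m - c - d + 1) - 2 ≤ -2*N + 2*m - 2*c - 4*d ∧ 2*K0 + 2*(-N + m - c - d + 1) - 2 ≤ 2*N - 2*i - 2*l - 2*c - 4 := ⟨((max (2*N - 2*m + 2*c + 4*d) (max (-2*N + 2*i + 2*l + 2*c + 4) (2*N - 2*m + 2*c))) + 1) / 2, by omega⟩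
  obtain ⟨R, hR1, hR2, hR⟩ := pw (A := 2*N + i + l - m + 2*c + 2*d + 1) (B := 2*N) (γ := -N + m - c - d + 1) (by omega) (fun t h1 h2 => (fin X.al.per 0 _ (pr X.d2 X.al.per 0 (-2*N + 2*m - 2*c - 2*d + t + 2) (rfl : W (t) = W (t)) (by omega)) (by omega))) K0
  exact X.al.ninv (-N + i + l + c + R + 1) (fin X.al.per (-1) _ (pp hR X.al.per 0 (N + i + l + c + R + 1) (af X.S2 X.al.per 0 (N + i + l + c - R + 1) (rfl : W (-N + i + l + c + R + 1) = W (-N + i + l + c + R + 1)) (by omega)) (by omega)) (by omega))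

theorem T0_8 (X : C W N Q i a b l m c d L U V) (hb : B N Q i a b l m c d L U V)
    (h : N + c ≤ m + V + 1 ∧ m + V + 1 ≤ N + c ∧ 2*m + 2*d + U + 4 ≤ 2*N + 2*c ∧ 2*m + 2 ≤ 2*N + 2*c + 2*d + U ∧ 2*N + i + l + 2*c + 4*d + 2*V ≤ m + U ∧ 2*N + 2*d ≤ i + l + m + 2) :
    False := by
  have b29 := hb.b29
  have b39 := hb.b39
  obtain ⟨g1, g2, g3, g4, g5, g6⟩ := h
  have k1 : 1 ≤ N + 2*d + V := by clear * - b29 b39 g1 g4; omega
  have k2 : 2*d + V + 1 ≤ 0 := by clear * - b29 b39 g3 g4 g5 g6; omega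
  clear * - X g1 g2 g3 g4 g5 g6 k1 k2
  exact X.al.ubP (2*N + 4*d + 2*V) (by omega) (by omega) fun t h1 h2 => by (try simp only [max_le_iff, lt_min_iff] at h1 h2); exact (lt_or_ge t (min (i + l - m + 2*c - 2*d - U - 1) (i + l - m + 2*c))).elim (fun u0 => by (try simp only [lt_min_iff] at u0); exact (fin X.al.per 0 _ (pr X.f1 X.al.per 0 (2*N + 4*d + 2*V + t) (pr X.f3 X.al.per (-1) (2*N + 2*d + t) (rfl : W (t) = W (t)) (by omega)) (by omega)) (by omega))) (fun u0 => (fin X.al.per 0 _ (pr X.f3 X.al.per 0 (4*N - 2*m + 2*c + 4*d + t - 2) (pf X.d2 X.al.per (-1) (4*N - 2*m + 2*c + 2*d + t - 2) (rfl : W (t) = W (t)) (by omega)) (by omega)) (by omega)))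

theorem T0_9 (X : C W N Q i a b l m c d L U V) (hb : B N Q i a b l m c d L U V)
    (h : d + 1 ≤ c ∧ 2*N + c + d ≤ m + U + 1) :
    False := by
  have b13 := hb.b13
  have b18 := hb.b18
  have b29 := hb.b29
  have b39 := hb.b39
  obtain ⟨g1, g2⟩ := h
  have k1 : c ≤ m + d := by clear * - b29 b39 g2; omega
  have k2 : m + 2 ≤ 2*N + c + d := by clear * - b13 b18 g2; omega
  clear * - X g1 g2 k1 k2
  exact X.al.ninv (i + l + c + d + 1) (fin X.al.per 0 _ (pr X.f3 X.al.per 0 (i + l + c + d + 1) (af X.S2 X.al.per 0 (i + l + c - d + 1) (rfl : W (i + l + c + d + 1) = W (i + l + c + d + 1)) (by omega)) (by omega)) (by omega))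

theorem T0_12 (X : C W N Q i a b l m c d L U V) (hb : B N Q i a b l m c d L U V)
    (h : a + b ≤ l + c ∧ 1 ≤ a + b + c) :
    False := by
  have b7 := hb.b7
  have b8 := hb.b8
  have b11 := hb.b11
  have b25 := hb.b25
  have b36 := hb.b36
  obtain ⟨g1, g2⟩ := h
  have k1 : c + 1 ≤ a + b := by clear * - b7 b8 g2; omega
  have k2 : a + b + c ≤ m := by clear * - b11 b25 b36; omega
  clear * - X g1 g2 k1 k2
  exact X.al.ninv (i - a - b + l + c + 1) (fin X.al.per 0 _ (ar X.S2 X.al.per 0 (i - a - b + l + c + 1) (pf X.bb X.al.per 0 (i + a + b + l + c + 1) (rfl : W (i - a - b + l + c + 1) = W (i - a - b + l + c + 1)) (by omega)) (by omega)) (by omega))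

theorem T0_13 (X : C W N Q i a b l m c d L U V) (hb : B N Q i a b l m c d L U V)
    (h : m + U + 3 ≤ 2*N + 2*c + d + V ∧ 0 ≤ i + l + 2*c + d + V + 1) :
    False := by
  have b7 := hb.b7
  have b8 := hb.b8
  have b11 := hb.b11
  have b17 := hb.b17
  have b19 := hb.b19
  have b20 := hb.b20
  have b25 := hb.b25
  have b28 := hb.b28
  have b29 := hb.b29
  have b30 := hb.b30
  have b35 := hb.b35
  have b36 := hb.b36
  have b37 := hb.b37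
  have b39 := hb.b39
  obtain ⟨g1, g2⟩ := h
  have k1 : 0 ≤ m + d + V := by clear * - b11 g2; omega
  have k2 : 0 ≤ i + l + m + d + V + 2 := by clear * - b17 b25 b28 b29 b35 b36 b37 g2; omega
  have k3 : U + 2 ≤ 2*N + d + V := by clear * - b17 b28 b29 b30 b39; omega
  have k4 : 2*m + 2*U + 5 ≤ 4*N + 2*c + d + V := by clear * - b7 b20 g1; omega
  have k5 : 0 ≤ 2*i + 2*l + 2*c + d + V + 3 := by clear * - b25 b35 g2; omega
  have k6 : m + U + 2 ≤ 2*N + i + l + 2*c + 2*d + 2*V := by clear * - b7 b8 g1 g2; omega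
  have k7 : d + V + 1 ≤ 0 := by clear * - b19 b20; omega
  clear * - X g1 g2 k1 k2 k3 k4 k5 k6 k7
  obtain ⟨K0, hL⟩ : ∃ K0 : ℤ, -2*m + 2*c ≤ 2*K0 ∧ -4*N + 2*m - 2*c + 2*U + 6 ≤ 2*K0 ∧ -2*i - 2*l - 2*c - 2 ≤ 2*K0 ∧ 2*K0 + 2*(-d - V) - 2 ≤ 2*c - 2 ∧ 2*K0 + 2*(-d - V) - 2 ≤ 2*i + 2*l + 2*c + 2 ∧ 2*K0 + 2*(-d - V) - 2 ≤ 4*N - 2*m + 2*c - 2*U - 6 := ⟨((max (-2*i - 2*l - 2*c - 2) (max (-4*N + 2*m - 2*c + 2*U + 6) (-2*m + 2*c))) + 1) / 2, by omega⟩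
  obtain ⟨R, hR1, hR2, hR⟩ := pw (A := 0) (B := 2*N + i + l - m + 2*c - U - 1) (γ := -d - V) (by omega) (fun t h1 h2 => (fin X.al.per 0 _ (pf X.f1 X.al.per 0 (-2*d - 2*V + t) (rfl : W (t) = W (t)) (by omega)) (by omega))) K0
  exact X.al.ninv (i + l + c + R + 1) (fin X.al.per 0 _ (pp hR X.al.per 0 (i + l + c + R + 1) (af X.S2 X.al.per 0 (i + l + c - R + 1) (rfl : W (i + l + c + R + 1) = W (i + l + c + R + 1)) (by omega)) (by omega)) (by omega))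

theorem T0_14 (X : C W N Q i a b l m c d L U V) (hb : B N Q i a b l m c d L U V)
    (h : N + c + d + V + 1 ≤ a + b ∧ 0 ≤ Q + 2*d + 2*V ∧ Q + 2*a + 2*b + m + U + 1 ≤ 4*N + i + l + 4*c + 2*d + 2*V) :
    False := by
  have b9 := hb.b9
  have b27 := hb.b27
  have b38 := hb.b38
  obtain ⟨g1, g2, g3⟩ := h
  have k1 : i + 2*a + 2*b + l + 2 ≤ 2*N + Q + 2*d + 2*V := by clear * - b9 g2; omega
  have k2 : a + b + 1 ≤ 2*N + c + d + V := by clear * - b27 b38 g1 g3; omega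
  clear * - X g1 g2 g3 k1 k2
  exact X.al.ubQ (-2*N + 2*a + 2*b - 2*c - 2*d - 2*V) (by omega) (by omega) fun t h1 h2 => (fin X.al.per 0 _ (pf X.f1 X.al.per 1 (-2*N + 2*a + 2*b - 2*c - 2*d - 2*V + t) (pf X.c1 X.al.per 0 (2*a + 2*b - 2*c + t) (rfl : W (t) = W (t)) (by omega)) (by omega)) (by omega))

theorem T0_15 (X : C W N Q i a b l m c d L U V) (hb : B N Q i a b l m c d L U V)
    (h : i + l + 2*c + 2 ≤ 2*b ∧ 2*N + 2*c ≤ Q + 2*a + 2*b ∧ a + 2*b + 1 ≤ N + c) :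
    False := by
  have b4 := hb.b4
  have b20 := hb.b20
  have b27 := hb.b27
  have b35 := hb.b35
  obtain ⟨g1, g2, g3⟩ := h
  have k1 : 2*N + 2*c ≤ i + 4*a + 4*b := by clear * - b4 g2; omega
  have k2 : c + 1 ≤ a + 2*b := by clear * - b20 b27 b35 g1; omega
  clear * - X g1 g2 g3 k1 k2
  exact X.al.ubP (2*N - 2*a - 4*b + 2*c) (by omega) (by omega) fun t h1 h2 => (fin X.al.per 0 _ (pr X.a1 X.al.per 0 (2*N - 2*a - 4*b + 2*c + t) (pr X.c1 X.al.per (-1) (2*N - 2*a - 2*b + 2*c + t) (rfl : W (t) = W (t)) (by omega)) (by omega)) (by omega))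

theorem T0_20 (X : C W N Q i a b l m c d L U V) (hb : B N Q i a b l m c d L U V)
    (h : i + l + 2*c + 2 ≤ 2*b ∧ a + 2*b + 1 ≤ N + c ∧ 2*N + 2*c ≤ i + 4*a + 4*b) :
    False := by
  have b23 := hb.b23
  have b34 := hb.b34
  obtain ⟨g1, g2, g3⟩ := h
  have k1 : c + 1 ≤ a + 2*b := by clear * - b23 b34 g1 g3; omega
  clear * - X g1 g2 g3 k1
  exact X.al.ubP (2*N - 2*a - 4*b + 2*c) (by omega) (by omega) fun t h1 h2 => (fin X.al.per 0 _ (pr X.a1 X.al.per 0 (2*N - 2*a - 4*b + 2*c + t) (pf X.c2 X.al.per (-1) (2*N - 2*a - 2*b + 2*c + t) (rfl : W (t) = W (t)) (by omega)) (by omega)) (by omega))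

theorem T0_21 (X : C W N Q i a b l m c d L U V) (hb : B N Q i a b l m c d L U V)
    (h : 2*b ≤ Q ∧ 2*N + Q + 2*c ≤ i + 4*a + 4*b) :
    False := by
  have b3 := hb.b3
  have b6 := hb.b6
  have b9 := hb.b9
  have b23 := hb.b23
  have b32 := hb.b32
  have b33 := hb.b33
  have b34 := hb.b34
  obtain ⟨g1, g2⟩ := h
  have k1 : i + 2*a + 4*b + l + 2 ≤ 2*N + Q := by clear * - b9 g1; omega
  have k2 : N + c ≤ a + 2*b := by clear * - b3 g2; omega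
  have k3 : c + 1 ≤ a + b := by clear * - b23 b32 b33 b34 g2; omega
  have k4 : i + l + 2*c + 3 ≤ Q := by clear * - b3 b9 g1 g2; omega
  have k5 : a + b + 1 ≤ N + c := by clear * - b6 b9; omega
  clear * - X g1 g2 k1 k2 k3 k4 k5
  obtain ⟨K0, hL⟩ : ∃ K0 : ℤ, -2*b + 1 ≤ 2*K0 ∧ -2*N - Q + i + 2*a + 2*b + l + 3 ≤ 2*K0 ∧ -Q + 1 ≤ 2*K0 ∧ 2*K0 + 2*(N - a - b + c) - 2 ≤ 2*N + Q - i - 2*a - 4*b - l - 2 ∧ 2*K0 + 2*(N - a - b + c) - 2 ≤ 0 ∧ 2*K0 + 2*(N - a - b + c) - 2 ≤ -Q + i + 2*a ∧ 2*K0 + 2*(N - a - b + c) - 2 ≤ 2*N - 2*b - 1 := ⟨((max (-Q + 1) (max (-2*N - Q + i + 2*a + 2*b + l + 3) (-2*b + 1))) + 1) / 2, by omega⟩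
  obtain ⟨R, hR1, hR2, hR⟩ := pw (A := i + 2*a + 2*b + l + 2) (B := 2*N + Q) (γ := N - a - b + c) (by omega) (fun t h1 h2 => (fin X.al.per 1 _ (pr X.c1 X.al.per 0 (-2*a - 2*b + 2*c + t) (rfl : W (t) = W (t)) (by omega)) (by omega))) K0
  exact X.al.ubQ (2*b + 2*R) (by omega) (by omega) fun t h1 h2 => (fin X.al.per 0 _ (pf X.a1 X.al.per 1 (2*b + t + 2*R) (pp hR X.al.per (-1) (2*N + t + 2*R) (rfl : W (t) = W (t)) (by omega)) (by omega)) (by omega))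

theorem T0_22 (X : C W N Q i a b l m c d L U V) (hb : B N Q i a b l m c d L U V)
    (h : 3*N + i + l + 3*c + 2*d + 2*V ≤ Q + a + b + m + U ∧ a + b + m + U + 3 ≤ 3*N + c + 2*d) :
    False := by
  have b6 := hb.b6
  have b9 := hb.b9
  have b17 := hb.b17
  have b18 := hb.b18
  have b19 := hb.b19
  obtain ⟨g1, g2⟩ := h
  have k1 : 5*N + 2*i + 2*l + 5*c + 4*d + 2*V ≤ 2*Q + a + b + 2*m + 2*U + 1 := by clear * - b17 b19 g1; omega
  have k2 : 3*a + 3*b + 2*m + 2*U + 5 ≤ 7*N + 3*c + 4*d + 2*V := by clear * - b9 b17 b18 g2; omega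
  have k3 : i + l + 2*c + 3 ≤ Q := by clear * - b17 g1 g2; omega
  have k4 : a + b + 1 ≤ N + c := by clear * - b6 b9; omega
  clear * - X g1 g2 k1 k2 k3 k4
  obtain ⟨K0, hL⟩ : ∃ K0 : ℤ, 2*V + 2 ≤ 2*K0 ∧ 4*N - 2*Q + 2*i + 2*l - 2*m + 4*c + 4*d - 2*U + 2*V ≤ 2*K0 ∧ -8*N + 4*a + 4*b + 2*m - 4*c - 4*d + 2*U - 2*V + 6 ≤ 2*K0 ∧ 2*K0 + 2*(N - a - b + c) - 2 ≤ -4*N + 2*Q - 2*i - 2*l + 2*m - 4*c - 4*d + 2*U - 2*V ∧ 2*K0 + 2*(N - a - b + c) - 2 ≤ 8*N - 4*a - 4*b - 2*m + 4*c + 4*d - 2*U + 2*V - 6 := ⟨((max (-8*N + 4*a + 4*b + 2*m - 4*c - 4*d + 2*U - 2*V + 6) (max (4*N - 2*Q + 2*i + 2*l - 2*m + 4*c + 4*d - 2*U + 2*V) (2*V + 2))) + 1) / 2, by omega⟩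
  obtain ⟨R, hR1, hR2, hR⟩ := pw (A := i + 2*a + 2*b + l + 2) (B := 2*N + Q) (γ := N - a - b + c) (by omega) (fun t h1 h2 => (fin X.al.per 1 _ (pr X.c1 X.al.per 0 (-2*a - 2*b + 2*c + t) (rfl : W (t) = W (t)) (by omega)) (by omega))) K0
  exact X.al.ninv (2*N + i + l - m + 2*c + 2*d - U + V + R - 1) (fin X.al.per (-1) _ (pp hR X.al.per (-1) (4*N + i + l - m + 2*c + 2*d - U + V + R - 1) (af X.t2 X.al.per 0 (2*N + i + l - m + 2*c + 2*d - U + V - R - 1) (rfl : W (2*N + i + l - m + 2*c + 2*d - U + V + R - 1) = W (2*N + i + l - m + 2*c + 2*d - U + V + R - 1)) (by omega)) (by omega)) (by omega))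

theorem T0_23 (X : C W N Q i a b l m c d L U V) (hb : B N Q i a b l m c d L U V)
    (h : a + b + m + U + 2 ≤ 3*N + l + 2*c + 2*d + V ∧ 3*N + i + l + 2*c + 2*d + V ≤ Q + a + b + m + U) :
    False := by
  have b8 := hb.b8
  have b18 := hb.b18
  have b25 := hb.b25
  have b37 := hb.b37
  obtain ⟨g1, g2⟩ := h
  have k1 : 3*N + 2*c + 2*d + V ≤ a + b + m + U + 1 := by clear * - b8 g2; omega
  have k2 : a + b + V + 1 ≤ N := by clear * - b18 b25 b37; omega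
  clear * - X g1 g2 k1 k2
  exact X.al.ninv (3*N + i - a - b + l - m + 2*c + 2*d - U + V - 1) (fin X.al.per 0 _ (ar X.t2 X.al.per 1 (3*N + i - a - b + l - m + 2*c + 2*d - U + V - 1) (pf X.bb X.al.per 0 (3*N + i + a + b + l - m + 2*c + 2*d - U + V - 1) (rfl : W (3*N + i - a - b + l - m + 2*c + 2*d - U + V - 1) = W (3*N + i - a - b + l - m + 2*c + 2*d - U + V - 1)) (by omega)) (by omega)) (by omega))

theorem T0_24 (X : C W N Q i a b l m c d L U V) (hb : B N Q i a b l m c d L U V)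
    (h : 0 ≤ Q + 2*d + 2*V ∧ Q + m + U + 1 ≤ 2*N + i + 2*b + l + 2*c + 2*d + 2*V ∧ b + d + V + 1 ≤ 0) :
    False := by
  have b4 := hb.b4
  have b27 := hb.b27
  have b38 := hb.b38
  obtain ⟨g1, g2, g3⟩ := h
  have k1 : 1 ≤ N + b + d + V := by clear * - b27 b38 g2 g3; omega
  clear * - X g1 g2 g3 b4 k1
  exact X.al.ubQ (-2*b - 2*d - 2*V) (by omega) (by omega) fun t h1 h2 => (fin X.al.per 0 _ (pf X.f1 X.al.per 0 (-2*b - 2*d - 2*V + t) (pr X.a1 X.al.per 0 (-2*b + t) (rfl : W (t) = W (t)) (by omega)) (by omega)) (by omega))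

theorem T0_25 (X : C W N Q i a b l m c d L U V) (hb : B N Q i a b l m c d L U V)
    (h : 2*N + i + l + 2*c + 4*d + 1 ≤ 2*b + m ∧ b + m + 2 ≤ 2*N + c + 2*d ∧ 2*N + i + l + 2*c + 2*d ≤ 2*b + m + U ∧ 2*N + 2*d ≤ i + l + m + 2 ∧ 4*N + 2*c + 4*d ≤ i + 2*a + 2*b + 2*m + 2) :
    False := by
  have b29 := hb.b29
  have b39 := hb.b39
  obtain ⟨g1, g2, g3, g4, g5⟩ := h
  have k1 : N + c + 2*d ≤ b + m := by clear * - b29 b39 g1 g2 g3 g4; omega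
  clear * - X g1 g2 g3 g4 g5 k1
  exact X.al.ubP (4*N - 2*b - 2*m + 2*c + 4*d - 2) (by omega) (by omega) fun t h1 h2 => (fin X.al.per 0 _ (pr X.a1 X.al.per 0 (4*N - 2*b - 2*m + 2*c + 4*d + t - 2) (pr X.f3 X.al.per 0 (4*N - 2*m + 2*c + 4*d + t - 2) (pf X.d2 X.al.per (-1) (4*N - 2*m + 2*c + 2*d + t - 2) (rfl : W (t) = W (t)) (by omega)) (by omega)) (by omega)) (by omega))

theorem T0_26 (X : C W N Q i a b l m c d L U V) (hb : B N Q i a b l m c d L U V)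
    (h : N + l + 2*c + 2 ≤ 3*a + 2*b ∧ N + 2*c ≤ a + m ∧ a + 1 ≤ N + 2*c ∧ a + 2*b + 1 ≤ N) :
    False := by
  have b3 := hb.b3
  have b6 := hb.b6
  obtain ⟨g1, g2, g3, g4⟩ := h
  have k1 : a + 2*b ≤ N + i + l + 2*c + 1 := by clear * - b6 g4; omega
  have k2 : N + i + l + 2*c + 2 ≤ Q + a + 2*b := by clear * - b3 g1; omega
  clear * - X g1 g2 g3 g4 k1 k2
  exact X.al.ninv (N + i - a - 2*b + l + 2*c + 1) (fin X.al.per 0 _ (pr X.c1 X.al.per (-1) (N + i - a - 2*b + l + 2*c + 1) (ar X.S2 X.al.per 0 (-N + i + a + l + 1) (pf X.a1 X.al.per 0 (N + i - a + l + 2*c + 1) (rfl : W (N + i - a - 2*b + l + 2*c + 1) = W (N + i - a - 2*b + l + 2*c + 1)) (by omega)) (by omega)) (by omega)) (by omega))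

theorem T0_29 (X : C W N Q i a b l m c d L U V) (hb : B N Q i a b l m c d L U V)
    (h : 0 ≤ Q + 2*d + 2*V ∧ Q + 2*b + m + U + 1 ≤ 2*N + i + l + 2*c) :
    False := by
  have b3 := hb.b3
  have b4 := hb.b4
  have b19 := hb.b19
  have b27 := hb.b27
  have b31 := hb.b31
  have b33 := hb.b33
  have b35 := hb.b35
  obtain ⟨g1, g2⟩ := h
  have k1 : 2*b ≤ Q := by clear * - b19 g1 g2; omega
  have k2 : Q + 2*d + 2*V ≤ i + 2*a := by clear * - b4 b19 g2; omega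
  have k3 : b + 1 ≤ N := by clear * - b27 b31 b33 b35 g2; omega
  have k4 : 1 ≤ i + 2*a := by clear * - b4 b19 g1 g2; omega
  have k5 : 1 ≤ b := by clear * - b3 b4; omega
  clear * - X g1 g2 b4 k1 k2 k3 k4 k5
  obtain ⟨K0, hL⟩ : ∃ K0 : ℤ, Q - i - 2*a - 2*b + 2*d + 2*V + 1 ≤ 2*K0 ∧ -Q + 1 ≤ 2*K0 ∧ 2*d + 2*V + 1 ≤ 2*K0 ∧ 2*K0 + 2*(b) - 2 ≤ Q + 2*d + 2*V ∧ 2*K0 + 2*(b) - 2 ≤ -Q + i + 2*a + 2*b ∧ 2*K0 + 2*(b) - 2 ≤ 2*N - Q + i + l - m + 2*c + 2*d - U + 2*V - 1 ∧ 2*K0 + 2*(b) - 2 ≤ 2*N + 2*d + 2*V - 1 := ⟨((max (2*d + 2*V + 1) (max (-Q + 1) (Q - i - 2*a - 2*b + 2*d + 2*V + 1))) + 1) / 2, by omega⟩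
  obtain ⟨R, hR1, hR2, hR⟩ := pw (A := 0) (B := i + 2*a + 2*b) (γ := b) (by omega) (fun t h1 h2 => (fin X.al.per 0 _ (pf X.a1 X.al.per 0 (2*b + t) (rfl : W (t) = W (t)) (by omega)) (by omega))) K0
  exact X.al.ubQ (-2*d - 2*V + 2*R) (by omega) (by omega) fun t h1 h2 => (fin X.al.per 0 _ (pf X.f1 X.al.per 0 (-2*d - 2*V + t + 2*R) (pp hR X.al.per 0 (t + 2*R) (rfl : W (t) = W (t)) (by omega)) (by omega)) (by omega))

theorem T0_30 (X : C W N Q i a b l m c d L U V) (hb : B N Q i a b l m c d L U V)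
    (h : 2*a + b + 1 ≤ N + c ∧ N + i + c + 1 ≤ Q + b ∧ b + l + c + 2 ≤ N) :
    False := by
  obtain ⟨g1, g2, g3⟩ := h
  clear * - X g1 g2 g3
  exact X.al.ninv (N + i - b + c) (fin X.al.per 0 _ (pr X.c1 X.al.per (-1) (N + i - b + c) (af X.s2 X.al.per 0 (-N + i + 2*a + b - c) (rfl : W (N + i - b + c) = W (N + i - b + c)) (by omega)) (by omega)) (by omega))

theorem T0_31 (X : C W N Q i a b l m c d L U V) (hb : B N Q i a b l m c d L U V)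
    (h : N + i + 1 ≤ Q + b) :
    False := by
  have b2 := hb.b2
  have b8 := hb.b8
  have b25 := hb.b25
  have b31 := hb.b31
  have b33 := hb.b33
  have b35 := hb.b35
  have g1 := h
  have k1 : 2*a + b + 1 ≤ N := by clear * - b8 b25 b33 g1; omega
  have k2 : b + 1 ≤ N := by clear * - b2 b25 b31 b33 b35; omega
  have k3 : N ≤ b + l := by clear * - b8 g1; omega
  clear * - X g1 k1 k2 k3
  exact X.al.ninv (N + i - b) (fin X.al.per 0 _ (pr X.bb X.al.per (-1) (N + i - b) (af X.s2 X.al.per 0 (-N + i + 2*a + b) (rfl : W (N + i - b) = W (N + i - b)) (by omega)) (by omega)) (by omega))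

theorem T0_32 (X : C W N Q i a b l m c d L U V) (hb : B N Q i a b l m c d L U V)
    (h : N + i + a + c + 1 ≤ Q + b ∧ a + b + l + c + 2 ≤ N) :
    False := by
  have b2 := hb.b2
  have b6 := hb.b6
  have b9 := hb.b9
  have b25 := hb.b25
  have b33 := hb.b33
  obtain ⟨g1, g2⟩ := h
  have k1 : N + 2*i + a + c + 1 ≤ 2*Q + b := by clear * - b2 b6 b9 g1; omega
  have k2 : a + 3*b + 2*l + c + 3 ≤ 3*N := by clear * - b2 b25 b33 g2; omega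
  have k3 : i + l + 2*c + 3 ≤ Q := by clear * - b2 g1 g2; omega
  have k4 : a + b + 1 ≤ N + c := by clear * - b6 b9; omega
  clear * - X g1 g2 k1 k2 k3 k4
  obtain ⟨K0, hL⟩ : ∃ K0 : ℤ, 2*a + 2 ≤ 2*K0 ∧ -2*Q + 2*i + 2*a + 2 ≤ 2*K0 ∧ -4*N + 2*a + 4*b + 2*l + 4 ≤ 2*K0 ∧ 2*K0 + 2*(N - a - b + c) - 2 ≤ 2*Q - 2*i - 2*a - 2 ∧ 2*K0 + 2*(N - a - b + c) - 2 ≤ 4*N - 2*a - 4*b - 2*l - 4 := ⟨((max (-4*N + 2*a + 4*b + 2*l + 4) (max (-2*Q + 2*i + 2*a + 2) (2*a + 2))) + 1) / 2, by omega⟩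
  obtain ⟨R, hR1, hR2, hR⟩ := pw (A := i + 2*a + 2*b + l + 2) (B := 2*N + Q) (γ := N - a - b + c) (by omega) (fun t h1 h2 => (fin X.al.per 1 _ (pr X.c1 X.al.per 0 (-2*a - 2*b + 2*c + t) (rfl : W (t) = W (t)) (by omega)) (by omega))) K0
  exact X.al.ninv (i + a + R) (fin X.al.per (-1) _ (pp hR X.al.per (-1) (2*N + i + a + R) (af X.s2 X.al.per 0 (i + a - R) (rfl : W (i + a + R) = W (i + a + R)) (by omega)) (by omega)) (by omega))

theorem T0_33 (X : C W N Q i a b l m c d L U V) (hb : B N Q i a b l m c d L U V)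
    (h : i + l + 2*c + 2*d + 2*V + 2 ≤ 0 ∧ a + b + 1 ≤ N + c + d + V ∧ m + U + 1 ≤ i + 2*a + 2*b + l) :
    False := by
  have b27 := hb.b27
  have b34 := hb.b34
  obtain ⟨g1, g2, g3⟩ := h
  have k1 : c + d + V + 1 ≤ a + b := by clear * - b27 b34 g1 g3; omega
  clear * - X g1 g2 g3 k1
  exact X.al.ubP (2*N - 2*a - 2*b + 2*c + 2*d + 2*V) (by omega) (by omega) fun t h1 h2 => (fin X.al.per 0 _ (pr X.f1 X.al.per 0 (2*N - 2*a - 2*b + 2*c + 2*d + 2*V + t) (pf X.c2 X.al.per (-1) (2*N - 2*a - 2*b + 2*c + t) (rfl : W (t) = W (t)) (by omega)) (by omega)) (by omega))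

theorem T0_35 (X : C W N Q i a b l m c d L U V) (hb : B N Q i a b l m c d L U V)
    (h : b ≤ i + l + c + d + 1 ∧ l + c + d + 2 ≤ 2*a + b ∧ 2*N + c + d ≤ b + m + U + 1 ∧ d + 1 ≤ b + c) :
    False := by
  have b11 := hb.b11
  have b13 := hb.b13
  obtain ⟨g1, g2, g3, g4⟩ := h
  have k1 : b + m + 2 ≤ 2*N + c + d := by clear * - b13 g1; omega
  have k2 : b + c ≤ m + d := by clear * - b11 g1; omega
  clear * - X g1 g2 g3 g4 k1 k2
  exact X.al.ninv (i - b + l + c + d + 1) (fin X.al.per 0 _ (ar X.S2 X.al.per 0 (i - b + l + c + d + 1) (pf X.f3 X.al.per 0 (i + b + l + c - d + 1) (pf X.a1 X.al.per 0 (i + b + l + c + d + 1) (rfl : W (i - b + l + c + d + 1) = W (i - b + l + c + d + 1)) (by omega)) (by omega)) (by omega)) (by omega))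

theorem T0_36 (X : C W N Q i a b l m c d L U V) (hb : B N Q i a b l m c d L U V)
    (h : N + c + 1 ≤ a + 2*b ∧ 2*b ≤ Q ∧ Q + 2*b ≤ 2*N + i + 2*c) :
    False := by
  have b9 := hb.b9
  have b23 := hb.b23
  have b32 := hb.b32
  obtain ⟨g1, g2, g3⟩ := h
  have k1 : i + 2*a + 4*b + l + 2 ≤ 2*N + Q := by clear * - b9 g2; omega
  have k2 : a + 2*b + 1 ≤ 2*N + c := by clear * - b23 b32 g1 g3; omega
  clear * - X g1 g2 g3 k1 k2
  exact X.al.ubQ (-2*N + 2*a + 4*b - 2*c) (by omega) (by omega) fun t h1 h2 => (fin X.al.per 0 _ (pf X.a1 X.al.per 1 (-2*N + 2*a + 4*b - 2*c + t) (pf X.c1 X.al.per 0 (2*a + 2*b - 2*c + t) (rfl : W (t) = W (t)) (by omega)) (by omega)) (by omega))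

theorem T0_37 (X : C W N Q i a b l m c d L U V) (hb : B N Q i a b l m c d L U V)
    (h : 2*N + i + l + 2*c ≤ Q + 2*a + 2*b + m + U ∧ Q ≤ i + 2*a + 2*b + l + 2*d + 1 ∧ a + b + d + 1 ≤ 0) :
    False := by
  have b2 := hb.b2
  have b3 := hb.b3
  have b14 := hb.b14
  have b20 := hb.b20
  have b29 := hb.b29
  have b38 := hb.b38
  obtain ⟨g1, g2, g3⟩ := h
  have k1 : i + 1 ≤ Q := by clear * - b2 b3; omega
  have k2 : 1 ≤ N + a + b + d := by clear * - b20 b29 b38 g1; omega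
  clear * - X g1 g2 g3 b14 k1 k2
  exact X.al.ubQ (-2*a - 2*b - 2*d) (by omega) (by omega) fun t h1 h2 => (fin X.al.per 0 _ (pr X.bb X.al.per 0 (-2*a - 2*b - 2*d + t) (pf X.f3 X.al.per 0 (-2*d + t) (rfl : W (t) = W (t)) (by omega)) (by omega)) (by omega))

theorem T0_38 (X : C W N Q i a b l m c d L U V) (hb : B N Q i a b l m c d L U V)
    (h : i + 2*a + 4*b + l + 2 ≤ 2*N + Q ∧ N + c + 1 ≤ a + 2*b ∧ Q + 2*b ≤ 2*N + i + 2*c) :
    False := by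
  have b23 := hb.b23
  have b34 := hb.b34
  obtain ⟨g1, g2, g3⟩ := h
  have k1 : a + 2*b + 1 ≤ 2*N + c := by clear * - b23 b34 g1 g2 g3; omega
  clear * - X g1 g2 g3 k1
  exact X.al.ubQ (-2*N + 2*a + 4*b - 2*c) (by omega) (by omega) fun t h1 h2 => (fin X.al.per 0 _ (pf X.a2 X.al.per 1 (-2*N + 2*a + 4*b - 2*c + t) (pf X.c1 X.al.per 0 (2*a + 2*b - 2*c + t) (rfl : W (t) = W (t)) (by omega)) (by omega)) (by omega))

theorem T0_40 (X : C W N Q i a b l m c d L U V) (hb : B N Q i a b l m c d L U V)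
    (h : b ≤ i + a ∧ a + 1 ≤ b) :
    False := by
  have b2 := hb.b2
  obtain ⟨g1, g2⟩ := h
  have k1 : 1 ≤ a + b := by clear * - b2 g2; omega
  clear * - X g1 g2 k1
  exact X.al.ninv (i + a - b) (fin X.al.per 0 _ (ar X.s1 X.al.per 0 (i + a - b) (pf X.a1 X.al.per 0 (i + a + b) (rfl : W (i + a - b) = W (i + a - b)) (by omega)) (by omega)) (by omega))

theorem T0_43 (X : C W N Q i a b l m c d L U V) (hb : B N Q i a b l m c d L U V)
    (h : i + 2*m + 3 ≤ 2*N + Q + 2*c + 2*d ∧ i + l + m + 3 ≤ Q + 2*a + 2*b ∧ Q + 2*m + 1 ≤ 2*N + i + l + 2*c + 2*d ∧ N + c + d ≤ m) :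
    False := by
  have b9 := hb.b9
  have b25 := hb.b25
  have b29 := hb.b29
  have b34 := hb.b34
  have b38 := hb.b38
  have b39 := hb.b39
  obtain ⟨g1, g2, g3, g4⟩ := h
  have k1 : Q + 2*a + 2*b + 2*m + 2 ≤ 4*N + 2*c + 2*d := by clear * - b9 g3; omega
  have k2 : m + 2 ≤ 2*N + c + d := by clear * - b25 b29 b34 b38 b39 g2 g3 g4; omega
  clear * - X g1 g2 g3 g4 k1 k2
  exact X.al.ubQ (-2*N + 2*m - 2*c - 2*d + 2) (by omega) (by omega) fun t h1 h2 => (fin X.al.per 0 _ (pr X.bb X.al.per 0 (-2*N + 2*m - 2*c - 2*d + t + 2) (pr X.d2 X.al.per 0 (-2*N + 2*a + 2*b + 2*m - 2*c - 2*d + t + 2) (pf X.bb X.al.per 0 (2*a + 2*b + t) (rfl : W (t) = W (t)) (by omega)) (by omega)) (by omega)) (by omega))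

theorem T0_44 (X : C W N Q i a b l m c d L U V) (hb : B N Q i a b l m c d L U V)
    (h : a + b + 1 ≤ N + d ∧ N + i + l + 2*c + d + 2 ≤ Q + a + b ∧ N + 2*c ≤ a + b + m + d ∧ a + b + d + 1 ≤ N + 2*c ∧ N + a + b + d ≤ m + U + 1) :
    False := by
  have b14 := hb.b14
  obtain ⟨g1, g2, g3, g4, g5⟩ := h
  have k1 : m + 2 ≤ N + a + b + d := by clear * - b14 g2; omega
  clear * - X g1 g2 g3 g4 g5 k1
  exact X.al.ninv (N + i - a - b + l + 2*c + d + 1) (fin X.al.per 0 _ (pr X.f3 X.al.per 0 (N + i - a - b + l + 2*c + d + 1) (af X.S2 X.al.per 1 (N + i - a - b + l + 2*c - d + 1) (pf X.c1 X.al.per 0 (N + i + a + b + l + d + 1) (rfl : W (N + i - a - b + l + 2*c + d + 1) = W (N + i - a - b + l + 2*c + d + 1)) (by omega)) (by omega)) (by omega)) (by omega))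

theorem T0_45 (X : C W N Q i a b l m c d L U V) (hb : B N Q i a b l m c d L U V)
    (h : 2*N + 2*c ≤ i + 4*a + 4*b ∧ i + 2*a + 4*b + l + 2 ≤ 2*N) :
    False := by
  have b3 := hb.b3
  have b4 := hb.b4
  have b6 := hb.b6
  have b23 := hb.b23
  have b34 := hb.b34
  obtain ⟨g1, g2⟩ := h
  have k1 : a + 2*b ≤ N + c := by clear * - b6 g2; omega
  have k2 : b + 1 ≤ N := by clear * - b23 b34 g1 g2; omega
  have k3 : 1 ≤ i + 2*a := by clear * - b6 g1 g2; omega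
  have k4 : 1 ≤ b := by clear * - b3 b4; omega
  clear * - X g1 g2 k1 k2 k3 k4
  obtain ⟨K0, hL⟩ : ∃ K0 : ℤ, -2*N + 2*a + 2*b - 2*c + 1 ≤ 2*K0 ∧ -i - 2*a - 2*b + 1 ≤ 2*K0 ∧ 2*K0 + 2*(b) - 2 ≤ -i - l - 2*c - 2 ∧ 2*K0 + 2*(b) - 2 ≤ 0 ∧ 2*K0 + 2*(b) - 2 ≤ -2*N + i + 4*a + 4*b - 2*c ∧ 2*K0 + 2*(b) - 2 ≤ 2*a + 2*b - 2*c - 1 := ⟨((max (-i - 2*a - 2*b + 1) (-2*N + 2*a + 2*b - 2*c + 1)) + 1) / 2, by omega⟩
  obtain ⟨R, hR1, hR2, hR⟩ := pw (A := 0) (B := i + 2*a + 2*b) (γ := b) (by omega) (fun t h1 h2 => (fin X.al.per 0 _ (pf X.a1 X.al.per 0 (2*b + t) (rfl : W (t) = W (t)) (by omega)) (by omega))) K0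
  exact X.al.ubP (2*N - 2*a - 2*b + 2*c + 2*R) (by omega) (by omega) fun t h1 h2 => (fin X.al.per 0 _ (pp hR X.al.per 0 (2*N - 2*a - 2*b + 2*c + t + 2*R) (pf X.c2 X.al.per (-1) (2*N - 2*a - 2*b + 2*c + t) (rfl : W (t) = W (t)) (by omega)) (by omega)) (by omega))

theorem T0_48 (X : C W N Q i a b l m c d L U V) (hb : B N Q i a b l m c d L U V)
    (h : i + 2*a + 2*b + 2*m + 3 ≤ 2*N + Q + 2*c ∧ i + l + m + 2*d + 3 ≤ Q ∧ N + c ≤ a + b + m ∧ Q + 2*a + 2*b + 3*m + 2 ≤ 4*N + i + l + 4*c + 2*d) :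
    False := by
  have b8 := hb.b8
  have b11 := hb.b11
  have b25 := hb.b25
  have b30 := hb.b30
  obtain ⟨g1, g2, g3, g4⟩ := h
  have k1 : Q + 2*a + 2*b + 2*m + 2 ≤ 4*N + 2*c + 2*d := by clear * - b11 g4; omega
  have k2 : a + b + m + 2 ≤ 2*N + c := by clear * - b25 b30 g2 g3 g4; omega
  clear * - X g1 g2 g3 g4 b8 k1 k2
  exact X.al.ubQ (-2*N + 2*a + 2*b + 2*m - 2*c + 2) (by omega) (by omega) fun t h1 h2 => (fin X.al.per 0 _ (pr X.d1 X.al.per 0 (-2*N + 2*a + 2*b + 2*m - 2*c + t + 2) (pr X.d2 X.al.per 0 (-2*N + 2*a + 2*b + 2*m - 2*c - 2*d + t + 2) (pf X.bb X.al.per 0 (2*a + 2*b + t) (rfl : W (t) = W (t)) (by omega)) (by omega)) (by omega)) (by omega))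

theorem T0_50 (X : C W N Q i a b l m c d L U V) (hb : B N Q i a b l m c d L U V)
    (h : b + m + U + 1 ≤ 2*N + i + l + 2*c + 2*d + V ∧ 2*N + l + 2*c + 2*d + V ≤ 2*a + b + m + U ∧ V + 1 ≤ b) :
    False := by
  obtain ⟨g1, g2, g3⟩ := h
  clear * - X g1 g2 g3
  exact X.al.ninv (2*N + i - b + l - m + 2*c + 2*d - U + V - 1) (fin X.al.per 0 _ (ar X.t1 X.al.per 0 (2*N + i - b + l - m + 2*c + 2*d - U + V - 1) (pf X.a1 X.al.per 0 (2*N + i + b + l - m + 2*c + 2*d - U + V - 1) (rfl : W (2*N + i - b + l - m + 2*c + 2*d - U + V - 1) = W (2*N + i - b + l - m + 2*c + 2*d - U + V - 1)) (by omega)) (by omega)) (by omega))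

theorem T0_52 (X : C W N Q i a b l m c d L U V) (hb : B N Q i a b l m c d L U V)
    (h : 2*N + c + 2*d ≤ b + m + 1 ∧ b + m + 1 ≤ 2*N + c + 2*d ∧ i + l + m + 2 ≤ 2*N + 2*d + U ∧ 2*d + L + 2 ≤ 0 ∧ 2*N + l + 2*c + 4*d + L + 2 ≤ 2*a + 2*b + m) :
    False := by
  have b11 := hb.b11
  have b29 := hb.b29
  have b31 := hb.b31
  have b33 := hb.b33
  have b35 := hb.b35
  have b36 := hb.b36
  obtain ⟨g1, g2, g3, g4, g5⟩ := h
  have k1 : N + c + d ≤ m := by clear * - b11 b36 g4; omega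
  have k2 : m + 2 ≤ 2*N + c + d := by clear * - b29 b31 b33 b35 g2 g4; omega
  clear * - X g1 g2 g3 g4 g5 k1 k2
  exact absurd (X.lam.mx (2*N + i + l - m + 2*c + 2*d + 1) (min (i + 2*a + 2*b - 2*d) (2*N + i + l - m + 2*c)) (-2*N + 2*m - 2*c - 2*d + 2) (by omega) (by omega) fun t h1 h2 => by (try simp only [max_le_iff, lt_min_iff] at h1 h2); exact (lt_or_ge t (4*N - 2*m + 2*c + 2*d - 2)).elim (fun u0 => by (try simp only [lt_min_iff] at u0); exact (fin X.al.per 0 _ (pr X.d2 X.al.per 0 (-2*N + 2*m - 2*c - 2*d + t + 2) (rfl : W (t) = W (t)) (by omega)) (by omega))) (fun u0 => (fin X.al.per 1 _ (pr X.a1 X.al.per 0 (-2*b + 2*d + t) (pr X.f3 X.al.per 0 (2*d + t) (rfl : W (t) = W (t)) (by omega)) (by omega)) (by omega)))) (by omega)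

theorem T0_53 (X : C W N Q i a b l m c d L U V) (hb : B N Q i a b l m c d L U V)
    (h : i + 2*a + 2*b + l + 2 ≤ 2*N + Q + 2*d + 2*V ∧ N + c + d + V + 1 ≤ a + b ∧ Q + 2*a + 2*b + m + U + 1 ≤ 4*N + i + l + 4*c + 2*d + 2*V) :
    False := by
  have b27 := hb.b27
  have b38 := hb.b38
  obtain ⟨g1, g2, g3⟩ := h
  have k1 : a + b + 1 ≤ 2*N + c + d + V := by clear * - b27 b38 g2 g3; omega
  clear * - X g1 g2 g3 k1
  exact X.al.ubQ (-2*N + 2*a + 2*b - 2*c - 2*d - 2*V) (by omega) (by omega) fun t h1 h2 => (fin X.al.per 0 _ (pr X.f2 X.al.per 1 (-2*N + 2*a + 2*b - 2*c - 2*d - 2*V + t) (pf X.c1 X.al.per 0 (2*a + 2*b - 2*c + t) (rfl : W (t) = W (t)) (by omega)) (by omega)) (by omega))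

theorem T0_54 (X : C W N Q i a b l m c d L U V) (hb : B N Q i a b l m c d L U V)
    (h : i + 2*a + 2*b + 1 ≤ Q + 2*V ∧ 2*N + i + l + 2*c ≤ Q + m + U + 2*V ∧ Q + 2*a + 2*b + m + U + 1 ≤ 2*N + i + l + 2*c + 2*V ∧ V + 1 ≤ a + b) :
    False := by
  have b8 := hb.b8
  have b14 := hb.b14
  have b18 := hb.b18
  have b19 := hb.b19
  have b27 := hb.b27
  have b38 := hb.b38
  obtain ⟨g1, g2, g3, g4⟩ := h
  have k1 : Q + 2*a + 2*b + m ≤ 2*N + i + l + 2*c := by clear * - b14 b19 g3; omega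
  have k2 : 0 ≤ Q + 2*d + 2*V := by clear * - b18 g2; omega
  have k3 : a + b + 1 ≤ N + V := by clear * - b27 b38 g3 g4; omega
  clear * - X g1 g2 g3 g4 b8 k1 k2 k3
  exact X.al.ubQ (2*a + 2*b - 2*V) (by omega) (by omega) fun t h1 h2 => (fin X.al.per 0 _ (pf X.f1 X.al.per 0 (2*a + 2*b - 2*V + t) (pr X.f3 X.al.per 0 (2*a + 2*b + 2*d + t) (pf X.bb X.al.per 0 (2*a + 2*b + t) (rfl : W (t) = W (t)) (by omega)) (by omega)) (by omega)) (by omega))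

theorem T0_55 (X : C W N Q i a b l m c d L U V) (hb : B N Q i a b l m c d L U V)
    (h : b ≤ i + l + c + d + V + 1 ∧ b + m + U + 3 ≤ 2*N + c + d + V ∧ d + V + 1 ≤ b + c) :
    False := by
  have b3 := hb.b3
  have b4 := hb.b4
  have b11 := hb.b11
  have b19 := hb.b19
  obtain ⟨g1, g2, g3⟩ := h
  have k1 : l + c + d + V + 2 ≤ 2*a + b := by clear * - b4 b19 g2; omega
  have k2 : 0 ≤ i + b + l + c + d + V + 1 := by clear * - b3 b4 g1; omega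
  have k3 : b + c ≤ m + d + V := by clear * - b11 g1; omega
  clear * - X g1 g2 g3 k1 k2 k3
  exact X.al.ninv (i - b + l + c + d + V + 1) (fin X.al.per 0 _ (ar X.S2 X.al.per 0 (i - b + l + c + d + V + 1) (pf X.f1 X.al.per 0 (i + b + l + c - d - V + 1) (pf X.a1 X.al.per 0 (i + b + l + c + d + V + 1) (rfl : W (i - b + l + c + d + V + 1) = W (i - b + l + c + d + V + 1)) (by omega)) (by omega)) (by omega)) (by omega))

theorem T0_56 (X : C W N Q i a b l m c d L U V) (hb : B N Q i a b l m c d L U V)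
    (h : m + 1 ≤ N + c + d ∧ N + c + d ≤ m + 1) :
    False := by
  obtain ⟨g1, g2⟩ := h
  clear * - X g1 g2
  exact X.n3.xz (fin X.al.per 0 _ (rfl : W (i + l + m + 2) = W (i + l + m + 2)) (by omega)).symm

theorem T0_57 (X : C W N Q i a b l m c d L U V) (hb : B N Q i a b l m c d L U V)
    (h : m + 2 ≤ N + c + d) :
    False := by
  have b15 := hb.b15
  have b17 := hb.b17
  have b26 := hb.b26
  have b28 := hb.b28
  have b36 := hb.b36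
  have b39 := hb.b39
  have g1 := h
  have k1 : c + d ≤ m := by clear * - b17 b26 b28 b36 b39 g1; omega
  clear * - X g1 b15 k1
  exact X.al.ubP (2*N - 2*m + 2*c + 2*d - 2) (by omega) (by omega) fun t h1 h2 => (fin X.al.per (-1) _ (pf X.d2 X.al.per (-1) (4*N - 2*m + 2*c + 2*d + t - 2) (rfl : W (t) = W (t)) (by omega)) (by omega))

theorem T0_58 (X : C W N Q i a b l m c d L U V) (hb : B N Q i a b l m c d L U V)
    (h : i + 2*a + 2*b + 2*d + 1 ≤ Q ∧ 1 ≤ a + b + d ∧ Q + 2*a + 2*b + m ≤ 2*N + i + l + 2*c) :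
    False := by
  have b8 := hb.b8
  have b17 := hb.b17
  have b27 := hb.b27
  have b28 := hb.b28
  have b33 := hb.b33
  have b35 := hb.b35
  have b37 := hb.b37
  obtain ⟨g1, g2, g3⟩ := h
  have k1 : a + b + d + 1 ≤ N := by clear * - b17 b27 b28 b33 b35 b37 g1 g3; omega
  clear * - X g1 g2 g3 b8 k1
  exact X.al.ubQ (2*a + 2*b + 2*d) (by omega) (by omega) fun t h1 h2 => (fin X.al.per 0 _ (pr X.d1 X.al.per 0 (2*a + 2*b + 2*d + t) (pf X.bb X.al.per 0 (2*a + 2*b + t) (rfl : W (t) = W (t)) (by omega)) (by omega)) (by omega))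

theorem T0_59 (X : C W N Q i a b l m c d L U V) (hb : B N Q i a b l m c d L U V)
    (h : Q + a ≤ i + l + c + 1 ∧ l + c + 2 ≤ 3*a + 2*b ∧ a + 2*b + c ≤ m ∧ 1 ≤ a + 2*b + c) :
    False := by
  have b2 := hb.b2
  have b3 := hb.b3
  have b7 := hb.b7
  obtain ⟨g1, g2, g3, g4⟩ := h
  have k1 : a ≤ l + c := by clear * - b2 b3 g1; omega
  have k2 : c + 1 ≤ a := by clear * - b2 b7 g1; omega
  clear * - X g1 g2 g3 g4 k1 k2
  exact X.al.ninv (i - a - 2*b + l + c + 1) (fin X.al.per 0 _ (ar X.S2 X.al.per 0 (i - a - 2*b + l + c + 1) (pf X.bb X.al.per 0 (i + a + 2*b + l + c + 1) (pf X.a2 X.al.per 0 (i - a + l + c + 1) (rfl : W (i - a - 2*b + l + c + 1) = W (i - a - 2*b + l + c + 1)) (by omega)) (by omega)) (by omega)) (by omega))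

theorem T0_62 (X : C W N Q i a b l m c d L U V) (hb : B N Q i a b l m c d L U V)
    (h : d + V + 1 ≤ c ∧ 0 ≤ i + l + c + d + V + 1 ∧ m + U + 3 ≤ 2*N + c + d + V) :
    False := by
  have b11 := hb.b11
  obtain ⟨g1, g2, g3⟩ := h
  have k1 : c ≤ m + d + V := by clear * - b11 g2; omega
  clear * - X g1 g2 g3 k1
  exact X.al.ninv (i + l + c + d + V + 1) (fin X.al.per 0 _ (pr X.f1 X.al.per 0 (i + l + c + d + V + 1) (af X.S2 X.al.per 0 (i + l + c - d - V + 1) (rfl : W (i + l + c + d + V + 1) = W (i + l + c + d + V + 1)) (by omega)) (by omega)) (by omega))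

theorem T0_63 (X : C W N Q i a b l m c d L U V) (hb : B N Q i a b l m c d L U V)
    (h : a + 2*b ≤ i + l + c + 1 ∧ l + c + 2 ≤ 3*a + 2*b ∧ a ≤ l + c ∧ 1 ≤ a + 2*b + c) :
    False := by
  have b2 := hb.b2
  have b7 := hb.b7
  have b8 := hb.b8
  have b11 := hb.b11
  obtain ⟨g1, g2, g3, g4⟩ := h
  have k1 : c + 1 ≤ a := by clear * - b2 b7 b8; omega
  have k2 : a + 2*b + c ≤ m := by clear * - b11 g1; omega
  clear * - X g1 g2 g3 g4 k1 k2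
  exact X.al.ninv (i - a - 2*b + l + c + 1) (fin X.al.per 0 _ (ar X.S2 X.al.per 0 (i - a - 2*b + l + c + 1) (pf X.bb X.al.per 0 (i + a + 2*b + l + c + 1) (pf X.a1 X.al.per 0 (i - a + l + c + 1) (rfl : W (i - a - 2*b + l + c + 1) = W (i - a - 2*b + l + c + 1)) (by omega)) (by omega)) (by omega)) (by omega))

theorem T0_66 (X : C W N Q i a b l m c d L U V) (hb : B N Q i a b l m c d L U V)
    (h : b + l + c + d + V + 2 ≤ N ∧ i + 2*a + b + 1 ≤ N + c + d + V ∧ m + U + 2 ≤ N + b + l + c + d + V) :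
    False := by
  have b1 := hb.b1
  have b2 := hb.b2
  have b19 := hb.b19
  obtain ⟨g1, g2, g3⟩ := h
  have k1 : 2*a + b + 1 ≤ N + c + d + V := by clear * - b1 g2; omega
  have k2 : N + i + c + d + V + 1 ≤ Q + b := by clear * - b19 g3; omega
  have k3 : b ≤ N + i + c + d + V := by clear * - b1 b2 g2; omega
  clear * - X g1 g2 g3 k1 k2 k3
  exact X.al.ninv (N + i - b + c + d + V) (fin X.al.per 0 _ (pr X.f1 X.al.per 0 (N + i - b + c + d + V) (pf X.c2 X.al.per (-1) (N + i - b + c - d - V) (af X.s2 X.al.per 0 (-N + i + 2*a + b - c - d - V) (rfl : W (N + i - b + c + d + V) = W (N + i - b + c + d + V)) (by omega)) (by omega)) (by omega)) (by omega))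

theorem T0_67 (X : C W N Q i a b l m c d L U V) (hb : B N Q i a b l m c d L U V)
    (h : Q ≤ i + b + l + c + d + 1 ∧ l + c + d + 2 ≤ 2*a + b ∧ b + m + 2 ≤ 2*N + c + d ∧ b + c ≤ m + d ∧ d + 1 ≤ b + c) :
    False := by
  obtain ⟨g1, g2, g3, g4, g5⟩ := h
  clear * - X g1 g2 g3 g4 g5
  exact X.al.ninv (i - b + l + c + d + 1) (fin X.al.per 0 _ (ar X.S2 X.al.per 0 (i - b + l + c + d + 1) (pf X.d1 X.al.per 0 (i + b + l + c - d + 1) (pf X.a2 X.al.per 0 (i + b + l + c + d + 1) (rfl : W (i - b + l + c + d + 1) = W (i - b + l + c + d + 1)) (by omega)) (by omega)) (by omega)) (by omega))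

theorem T0_69 (X : C W N Q i a b l m c d L U V) (hb : B N Q i a b l m c d L U V)
    (h : 0 ≤ Q + 2*d + 2*V ∧ Q + m + U + 1 ≤ i + 2*a + 2*b + l) :
    False := by
  have b6 := hb.b6
  have b9 := hb.b9
  have b19 := hb.b19
  have b27 := hb.b27
  have b32 := hb.b32
  have b33 := hb.b33
  have b34 := hb.b34
  obtain ⟨g1, g2⟩ := h
  have k1 : i + 2*a + 2*b + l + 2 ≤ 2*N + Q + 2*d + 2*V := by clear * - b9 g1; omega
  have k2 : N + c + d + V ≤ a + b := by clear * - b19 g2; omega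
  have k3 : c + 1 ≤ a + b := by clear * - b27 b32 b33 b34 g2; omega
  have k4 : i + l + 2*c + 3 ≤ Q := by clear * - b9 b19 g1 g2; omega
  have k5 : a + b + 1 ≤ N + c := by clear * - b6 b9; omega
  clear * - X g1 g2 k1 k2 k3 k4 k5
  obtain ⟨K0, hL⟩ : ∃ K0 : ℤ, 2*d + 2*V + 1 ≤ 2*K0 ∧ -2*N - Q + i + 2*a + 2*b + l + 3 ≤ 2*K0 ∧ -Q + 1 ≤ 2*K0 ∧ 2*K0 + 2*(N - a - b + c) - 2 ≤ 2*N + Q - i - 2*a - 2*b - l + 2*d + 2*V - 2 ∧ 2*K0 + 2*(N - a - b + c) - 2 ≤ 0 ∧ 2*K0 + 2*(N - a - b + c) - 2 ≤ 2*N - Q + i + l - m + 2*c + 2*d - U + 2*V - 1 ∧ 2*K0 + 2*(N - a - b + c) - 2 ≤ 2*N + 2*d + 2*V - 1 := ⟨((max (-Q + 1) (max (-2*N - Q + i + 2*a + 2*b + l + 3) (2*d + 2*V + 1))) + 1) / 2, by omega⟩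
  obtain ⟨R, hR1, hR2, hR⟩ := pw (A := i + 2*a + 2*b + l + 2) (B := 2*N + Q) (γ := N - a - b + c) (by omega) (fun t h1 h2 => (fin X.al.per 1 _ (pr X.c1 X.al.per 0 (-2*a - 2*b + 2*c + t) (rfl : W (t) = W (t)) (by omega)) (by omega))) K0
  exact X.al.ubQ (-2*d - 2*V + 2*R) (by omega) (by omega) fun t h1 h2 => (fin X.al.per 0 _ (pf X.f1 X.al.per 1 (-2*d - 2*V + t + 2*R) (pp hR X.al.per (-1) (2*N + t + 2*R) (rfl : W (t) = W (t)) (by omega)) (by omega)) (by omega))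

theorem T0_70 (X : C W N Q i a b l m c d L U V) (hb : B N Q i a b l m c d L U V)
    (h : d + V + 1 ≤ c ∧ m + U + 3 ≤ 2*N + c + d + V) :
    False := by
  have b8 := hb.b8
  have b11 := hb.b11
  have b17 := hb.b17
  have b29 := hb.b29
  have b36 := hb.b36
  obtain ⟨g1, g2⟩ := h
  have k1 : c ≤ m + d + V := by clear * - b11 b17 b29 b36; omega
  have k2 : Q + d + V ≤ i + l + c + 1 := by clear * - b8 g1; omega
  clear * - X g1 g2 k1 k2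
  exact X.al.ninv (i + l + c - d - V + 1) (fin X.al.per 0 _ (pr X.f2 X.al.per 0 (i + l + c - d - V + 1) (ar X.S2 X.al.per 0 (i + l + c + d + V + 1) (rfl : W (i + l + c - d - V + 1) = W (i + l + c - d - V + 1)) (by omega)) (by omega)) (by omega))

theorem T0_71 (X : C W N Q i a b l m c d L U V) (hb : B N Q i a b l m c d L U V)
    (h : 2*N + 2*c ≤ 2*a + 2*b + m ∧ 0 ≤ a + b + d ∧ a + b + d ≤ 0) :
    False := by
  have b2 := hb.b2
  have b3 := hb.b3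
  have b14 := hb.b14
  obtain ⟨g1, g2, g3⟩ := h
  have k1 : 2*a + 2*b + m + 1 ≤ 2*N + l + 2*c := by clear * - b2 b3 b14 g3; omega
  clear * - X g1 g2 g3 k1
  exact X.n3.yz (fin X.al.per 0 _ (pr X.bb X.al.per 0 (2*N + i - 2*a - 2*b + l - m + 2*c) (rfl : W (2*N + i + l - m + 2*c) = W (2*N + i + l - m + 2*c)) (by omega)) (by omega)).symm

theorem T0_73 (X : C W N Q i a b l m c d L U V) (hb : B N Q i a b l m c d L U V)
    (h : 2*a + 2*b ≤ N + l + 2*c ∧ N + 2*c + 1 ≤ 2*a + 2*b ∧ N + 2*c ≤ m ∧ 2*a + 2*b + 1 ≤ N ∧ i + l + 2 ≤ N) :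
    False := by
  have b6 := hb.b6
  obtain ⟨g1, g2, g3, g4, g5⟩ := h
  have k1 : 1 ≤ N + 2*c := by clear * - b6 g5; omega
  clear * - X g1 g2 g3 g4 g5 k1
  exact X.al.ninv (N + i - 2*a - 2*b + l + 2*c + 1) (fin X.al.per 0 _ (pf X.c2 X.al.per (-1) (N + i - 2*a - 2*b + l + 2*c + 1) (ar X.S2 X.al.per 0 (-N + i + l + 1) (pf X.bb X.al.per 0 (N + i + l + 2*c + 1) (rfl : W (N + i - 2*a - 2*b + l + 2*c + 1) = W (N + i - 2*a - 2*b + l + 2*c + 1)) (by omega)) (by omega)) (by omega)) (by omega))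

theorem T0_74 (X : C W N Q i a b l m c d L U V) (hb : B N Q i a b l m c d L U V)
    (h : m + U + 2 ≤ 2*N + l + 2*c + 2*d ∧ a + b + d ≤ 0 ∧ 0 ≤ a + b + d) :
    False := by
  have b8 := hb.b8
  have b17 := hb.b17
  have b19 := hb.b19
  obtain ⟨g1, g2, g3⟩ := h
  have k1 : 2*N + 2*c + 2*d ≤ m + U + 1 := by clear * - b8 b17 b19; omega
  clear * - X g1 g2 g3 k1
  exact X.n4.xz (fin X.al.per 0 _ (pf X.bb X.al.per 0 (2*N + i + 2*a + 2*b + l - m + 2*c + 2*d - U - 1) (rfl : W (2*N + i + l - m + 2*c + 2*d - U - 1) = W (2*N + i + l - m + 2*c + 2*d - U - 1)) (by omega)) (by omega)).symm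

theorem T0_77 (X : C W N Q i a b l m c d L U V) (hb : B N Q i a b l m c d L U V)
    (h : N ≤ a + 2*b + m ∧ N + Q + a ≤ i + l + m + 2 ∧ N + l + 2*c + 1 ≤ 3*a + 2*b + m ∧ 2*Q + 3*a + 2*b ≤ N + 2*i + 2*l + 2*c + 3 ∧ 2*a + 2*b ≤ l + 1 ∧ Q + 1 ≤ i + 2*a + 2*b) :
    False := by
  have b2 := hb.b2
  have b3 := hb.b3
  have b6 := hb.b6
  have b7 := hb.b7
  have b13 := hb.b13
  have b24 := hb.b24
  have b25 := hb.b25
  have b33 := hb.b33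
  obtain ⟨g1, g2, g3, g4, g5, g6⟩ := h
  have k1 : l + 2 ≤ N + 3*a + 2*b := by clear * - b6 b13 g3; omega
  have k2 : 2*l + 2*c + 3 ≤ N + 5*a + 2*b := by clear * - b2 b7 b24 b33 g6; omega
  have k3 : Q + a ≤ N + i + l + 2*c + 1 := by clear * - b6 b13 g2; omega
  have k4 : i + 1 ≤ Q := by clear * - b2 b3; omega
  have k5 : a + 2*b + 1 ≤ N := by clear * - b2 b25 b33 g5; omega
  clear * - X g1 g2 g3 g4 g5 g6 k1 k2 k3 k4 k5
  obtain ⟨K0, hL⟩ : ∃ K0 : ℤ, 2*N - 2*m + 2*c ≤ 2*K0 ∧ -2*N - 4*a + 2*l + 2*c + 4 ≤ 2*K0 ∧ -2*N + 2*Q - 2*i + 4*a + 4*b - 2*l - 2*c - 2 ≤ 2*K0 ∧ 2*K0 + 2*(N - a - 2*b) - 2 ≤ 2*N + 2*c - 2 ∧ 2*K0 + 2*(N - a - 2*b) - 2 ≤ 2*N - 2*Q + 2*i - 4*a - 4*b + 2*l + 2*c + 2 ∧ 2*K0 + 2*(N - a - 2*b) - 2 ≤ 2*N + 4*a - 2*l - 2*c - 4 := ⟨((max (-2*N + 2*Q - 2*i + 4*a + 4*b - 2*l - 2*c - 2) (max (-2*N - 4*a + 2*l + 2*c + 4) (2*N - 2*m + 2*c))) + 1) / 2, by omega⟩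
  obtain ⟨R, hR1, hR2, hR⟩ := pw (A := Q + 2*a + 2*b) (B := 2*N + i + 2*a) (γ := N - a - 2*b) (by omega) (fun t h1 h2 => (fin X.al.per 1 _ (pr X.a2 X.al.per 0 (-2*a - 4*b + t) (pr X.bb X.al.per 0 (-2*a - 2*b + t) (rfl : W (t) = W (t)) (by omega)) (by omega)) (by omega))) K0
  exact X.al.ninv (-N + i + l + c + R + 1) (fin X.al.per (-1) _ (pp hR X.al.per 0 (N + i + l + c + R + 1) (af X.S2 X.al.per 0 (N + i + l + c - R + 1) (rfl : W (-N + i + l + c + R + 1) = W (-N + i + l + c + R + 1)) (by omega)) (by omega)) (by omega))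

theorem T0_80 (X : C W N Q i a b l m c d L U V) (hb : B N Q i a b l m c d L U V)
    (h : N ≤ i + a + l + 1 ∧ N + a ≤ 2*l + 1 ∧ N + Q ≤ 2*i + 3*a + 2*b + 1 ∧ 2*N + Q ≤ i + 2*a + 4*b + l) :
    False := by
  have b2 := hb.b2
  have b3 := hb.b3
  have b9 := hb.b9
  have b23 := hb.b23
  have b24 := hb.b24
  have b25 := hb.b25
  have b32 := hb.b32
  have b33 := hb.b33
  obtain ⟨g1, g2, g3, g4⟩ := h
  have k1 : N ≤ i + 3*a + 2*b := by clear * - b2 b3 g3; omega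
  have k2 : N + Q ≤ i + 3*a + 4*b := by clear * - b2 b24 b33 g4; omega
  have k3 : N ≤ a + 2*b + l := by clear * - b2 b23 b32 g4; omega
  have k4 : N + 2*Q ≤ 2*i + 3*a + 4*b + 1 := by clear * - b9 g3 g4; omega
  have k5 : N ≤ i + a + 2*b := by clear * - b3 g3; omega
  have k6 : N + Q ≤ i + a + 4*b := by clear * - b3 b9 g3 g4; omega
  have k7 : N + a ≤ 2*b + l := by clear * - b3 b25 b33 g2 g4; omega
  have k8 : 2*b + l + 1 ≤ 2*N := by clear * - b2 b25 b33; omega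
  have k9 : i + 2*a + 4*b + 1 ≤ 2*N + Q := by clear * - b2 b25 b32; omega
  have k10 : a + 2*b + 1 ≤ N := by clear * - b9 g1; omega
  clear * - X g1 g2 g3 g4 k1 k2 k3 k4 k5 k6 k7 k8 k9 k10
  obtain ⟨K0, hL⟩ : ∃ K0 : ℤ, -2*a - 2*b + 2 ≤ 2*K0 ∧ 2*a + 2*b - 2*l ≤ 2*K0 ∧ 2*Q - 2*i - 2*a - 2*b ≤ 2*K0 ∧ 2*a - 2*b + 2 ≤ 2*K0 ∧ 2*K0 + 2*(N - a - 2*b) - 2 ≤ 2*i + 2*a - 2*b ∧ 2*K0 + 2*(N - a - 2*b) - 2 ≤ -2*Q + 2*i + 2*a + 2*b ∧ 2*K0 + 2*(N - a - 2*b) - 2 ≤ -2*a - 2*b + 2*l := ⟨((max (2*a - 2*b + 2) (max (2*Q - 2*i - 2*a - 2*b) (max (2*a + 2*b - 2*l) (-2*a - 2*b + 2)))) + 1) / 2, by omega⟩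
  obtain ⟨R, hR1, hR2, hR⟩ := pw (A := Q) (B := i + l + 1) (γ := N - a - 2*b) (by omega) (fun t h1 h2 => (fin X.al.per 0 _ (pr X.bb X.al.per (-1) (2*N - 2*a - 4*b + t) (pr X.a2 X.al.per 0 (-2*b + t) (rfl : W (t) = W (t)) (by omega)) (by omega)) (by omega))) K0
  exact X.al.ninv (i + a - b - R) (fin X.al.per 0 _ (ar X.s1 X.al.per 0 (i + a - b - R) (pp hR X.al.per 0 (i + a + b + R) (pf X.a1 X.al.per 0 (i + a + b - R) (rfl : W (i + a - b - R) = W (i + a - b - R)) (by omega)) (by omega)) (by omega)) (by omega))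

theorem T0_81 (X : C W N Q i a b l m c d L U V) (hb : B N Q i a b l m c d L U V)
    (h : N ≤ a + 2*b + m ∧ 3*N + 2*c + 2*d ≤ a + 2*b + 2*m + 1 ∧ 3*N + Q + a + 2*c + 2*d ≤ i + l + 3*m + 4 ∧ N + 2*c ≤ a + m ∧ i + l + 2*m + 4 ≤ 3*N + a + 2*b + 2*c + 2*d ∧ i + l + m + 3 ≤ N + a + 2*b ∧ Q + a ≤ N ∧ i + l + 2*m + 4 ≤ 3*N + a + 2*d ∧ m + 2 ≤ N + a ∧ 2*b + 2*m + 3 ≤ 3*N + a + 2*d ∧ N + Q + a + 2*d ≤ i + l + m + 2 ∧ N + 2*Q + 3*a + 2*b + 2*d ≤ 2*i + 2*l + 2*m + 5 ∧ Q ≤ i + l ∧ l + 1 ≤ 2*a + 2*b ∧ a + 2*b + 1 ≤ N) :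
    False := by
  have b2 := hb.b2
  have b3 := hb.b3
  have b6 := hb.b6
  obtain ⟨g1, g2, g3, g4, g5, g6, g7, g8, g9, g10, g11, g12, g13, g14, g15⟩ := h
  have k1 : 2*m + 3 ≤ 3*N + a + 2*c + 2*d := by clear * - b6 g8; omega
  have k2 : Q + a ≤ N + i + l + 2*c + 1 := by clear * - b6 g7; omega
  have k3 : i + 1 ≤ Q := by clear * - b2 b3; omega
  clear * - X g1 g2 g3 g4 g5 g6 g7 g8 g9 g10 g11 g12 g13 g14 g15 k1 k2 k3
  obtain ⟨K0, hL⟩ : ∃ K0 : ℤ, 4*N - 4*m + 4*c + 2*d - 2 ≤ 2*K0 ∧ -4*N + 2*i + 2*l + 2*m - 2*d + 6 ≤ 2*K0 ∧ -4*N + 4*b + 2*m - 2*d + 4 ≤ 2*K0 ∧ 2*Q - 2*i + 4*a + 4*b - 2*l - 2*m + 2*d - 4 ≤ 2*K0 ∧ 2*K0 + 2*(N - a - 2*b) - 2 ≤ 4*N - 2*m + 4*c + 2*d - 4 ∧ 2*K0 + 2*(N - a - 2*b) - 2 ≤ -2*d - 2 ∧ 2*K0 + 2*(N - a - 2*b) - 2 ≤ -2*Q + 2*i - 4*a - 4*b + 2*l + 2*m - 2*d + 4 ∧ 2*K0 + 2*(N - a - 2*b) - 2 ≤ 4*N - 4*b - 2*m + 2*d - 4 := ⟨((max (2*Q - 2*i + 4*a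 + 4*b - 2*l - 2*m + 2*d - 4) (max (-4*N + 4*b + 2*m - 2*d + 4) (max (-4*N + 2*i + 2*l + 2*m - 2*d + 6) (4*N - 4*m + 4*c + 2*d - 2)))) + 1) / 2, by omega⟩
  obtain ⟨R, hR1, hR2, hR⟩ := pw (A := Q + 2*a + 2*b) (B := 2*N + i - 2*b + l + 1) (γ := N - a - 2*b) (by omega) (fun t h1 h2 => (fin X.al.per 1 _ (pr X.a2 X.al.per 0 (-2*a - 4*b + t) (pr X.bb X.al.per 0 (-2*a - 2*b + t) (rfl : W (t) = W (t)) (by omega)) (by omega)) (by omega))) K0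
  exact X.al.ninv (-2*N + i + l + m - d + R + 2) (fin X.al.per (-1) _ (pp hR X.al.per 0 (i + l + m - d + R + 2) (pr X.d2 X.al.per 0 (i + l + m - d - R + 2) (af X.S2 X.al.per 0 (2*N + i + l - m + 2*c + d - R) (rfl : W (-2*N + i + l + m - d + R + 2) = W (-2*N + i + l + m - d + R + 2)) (by omega)) (by omega)) (by omega)) (by omega))

theorem T0_83 (X : C W N Q i a b l m c d L U V) (hb : B N Q i a b l m c d L U V)
    (h : Q + 2*d + 2*V ≤ 0 ∧ 1 ≤ b + d + V ∧ 2*b + m + U + 1 ≤ 2*N + i + l + 2*c) :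
    False := by
  have b1 := hb.b1
  have b2 := hb.b2
  have b27 := hb.b27
  have b38 := hb.b38
  obtain ⟨g1, g2, g3⟩ := h
  have k1 : 0 ≤ i + 2*a := by clear * - b1 b2; omega
  have k2 : b + d + V + 1 ≤ N := by clear * - b27 b38 g1 g2 g3; omega
  clear * - X g1 g2 g3 k1 k2
  exact X.al.ubP (2*b + 2*d + 2*V) (by omega) (by omega) fun t h1 h2 => (fin X.al.per 0 _ (pr X.f1 X.al.per 0 (2*b + 2*d + 2*V + t) (pf X.a2 X.al.per 0 (2*b + t) (rfl : W (t) = W (t)) (by omega)) (by omega)) (by omega))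

theorem T0_86 (X : C W N Q i a b l m c d L U V) (hb : B N Q i a b l m c d L U V)
    (h : a + b + m + 1 ≤ 2*N + 2*c + d ∧ 2*N + 2*c + d ≤ a + b + m + 1 ∧ l + 2*c + 2 ≤ 2*a ∧ b + c + 1 ≤ 0 ∧ 2*N + Q + 2*c ≤ i + 4*a + 4*b ∧ 2*N + Q + 2*c ≤ i + 2*a + 2*b + l + 1 ∧ i + 1 ≤ 2*b ∧ i + l + m + 3 ≤ 2*a + 4*b ∧ Q + 2*b ≤ 2*N + i + 2*c ∧ Q + 2*a + 4*b ≤ 2*N + i + l + 2*c + 1) :
    False := by
  have b2 := hb.b2
  have b3 := hb.b3
  have b9 := hb.b9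
  have b25 := hb.b25
  have b27 := hb.b27
  have b28 := hb.b28
  have b32 := hb.b32
  have b35 := hb.b35
  have b36 := hb.b36
  obtain ⟨g1, g2, g3, g4, g5, g6, g7, g8, g9, g10⟩ := h
  have k1 : i + 2*a + 4*b + l + 2*c + 2 ≤ 2*N := by clear * - b9 g4; omega
  have k2 : Q + 2*c ≤ 0 := by clear * - b9 g6; omega
  have k3 : N + c + 1 ≤ 2*a + 2*b := by clear * - b2 b3 g5; omega
  have k4 : 2*N + 2*c ≤ 2*a + 2*b + l := by clear * - b2 b3 g6; omega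
  have k5 : m + 2 ≤ N + a + 2*b + c + d := by clear * - b27 b28 b35 b36 g1 g6 g8; omega
  have k6 : a + 2*b + c + d ≤ m := by clear * - b25 b32 g2 g9; omega
  clear * - X g1 g2 g3 g4 g5 g6 g7 g8 g9 g10 k1 k2 k3 k4 k5 k6
  exact X.al.uqU (2*N + 2*a + 4*b - 2*m + 2*c + 2*d - 2) (by omega) (by omega) fun t h1 h2 => by (try simp only [max_le_iff, lt_min_iff] at h1 h2); exact (lt_or_ge t (min (2*N - 2*a - 4*b) (min (i - 2*b + l + 1) (i + 2*a)))).elim (fun u0 => by (try simp only [lt_min_iff] at u0); exact (fin X.al.per 0 _ (pf X.d2 X.al.per 0 (2*N + 2*a + 4*b - 2*m + 2*c + 2*d + t - 2) (pf X.bb X.al.per 0 (2*a + 4*b + t) (pf X.a1 X.al.per 0 (2*b + t) (rfl : W (t) = W (t)) (by omega)) (by omega)) (by omega)) (by omega))) (fun u0 => (fin X.al.per 0 _ (pf X.bb X.al.per 0 (-2*N + 4*a + 6*b - 2*c + t) (pf X.a2 X.al.per 1 (-2*N + 2*a + 4*b - 2*c + t) (pf X.c1 X.al.per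 0 (2*a + 2*b - 2*c + t) (rfl : W (t) = W (t)) (by omega)) (by omega)) (by omega)) (by omega)))

theorem T0_87 (X : C W N Q i a b l m c d L U V) (hb : B N Q i a b l m c d L U V)
    (h : Q ≤ 2*b ∧ b + d + V + 1 ≤ 0 ∧ 0 ≤ i + 2*a + 2*b + 2*d + 2*V) :
    False := by
  have b17 := hb.b17
  have b18 := hb.b18
  have b23 := hb.b23
  have b32 := hb.b32
  obtain ⟨g1, g2, g3⟩ := h
  have k1 : m + U + 1 ≤ 2*N + i + l + 2*c + 2*d + 2*V := by clear * - b17 b18; omega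
  have k2 : 1 ≤ N + b + d + V := by clear * - b23 b32 g1 g2 g3; omega
  clear * - X g1 g2 g3 k1 k2
  exact X.al.ubP (-2*b - 2*d - 2*V) (by omega) (by omega) fun t h1 h2 => (fin X.al.per 0 _ (pr X.a1 X.al.per 0 (-2*b - 2*d - 2*V + t) (pr X.f2 X.al.per 0 (-2*d - 2*V + t) (rfl : W (t) = W (t)) (by omega)) (by omega)) (by omega))

theorem T0_88 (X : C W N Q i a b l m c d L U V) (hb : B N Q i a b l m c d L U V)
    (h : a + b + m + U + 3 ≤ 3*N + c + 2*d + V ∧ 3*N + i + l + 3*c + 2*d + V ≤ Q + a + b + m + U ∧ a + b + V + 1 ≤ N + c) :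
    False := by
  obtain ⟨g1, g2, g3⟩ := h
  clear * - X g1 g2 g3
  exact X.al.ninv (3*N + i - a - b + l - m + 3*c + 2*d - U + V - 1) (fin X.al.per 0 _ (ar X.t2 X.al.per 1 (3*N + i - a - b + l - m + 3*c + 2*d - U + V - 1) (pf X.c1 X.al.per 0 (3*N + i + a + b + l - m + c + 2*d - U + V - 1) (rfl : W (3*N + i - a - b + l - m + 3*c + 2*d - U + V - 1) = W (3*N + i - a - b + l - m + 3*c + 2*d - U + V - 1)) (by omega)) (by omega)) (by omega))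

theorem T0_89 (X : C W N Q i a b l m c d L U V) (hb : B N Q i a b l m c d L U V)
    (h : m + U ≤ l + 2*c + L) :
    False := by
  have b8 := hb.b8
  have b20 := hb.b20
  have b27 := hb.b27
  have g1 := h
  have k1 : i + 1 ≤ Q := by clear * - b27 g1; omega
  clear * - X g1 b8 b20 k1
  exact X.lam.two X.al 0 0 (Q) (2*N + i + l - m + 2*c - U - 1) (2*N + 2*d + 2*V) (i + 1) (Q) (2*a + 2*b) (by omega) (fun t h1 h2 => (fin X.al.per 1 _ (pf X.f2 X.al.per 0 (2*d + 2*V + t) (rfl : W (t) = W (t)) (by omega)) (by omega))) (fun t h1 h2 => (fin X.al.per 0 _ (pf X.bb X.al.per 0 (2*a + 2*b + t) (rfl : W (t) = W (t)) (by omega)) (by omega))) (Or.inr (Or.inr ⟨(fin X.al.per 0 _ (rfl : W (2*N + i + l - m + 2*c - U - 1) = W (2*N + i + l - m + 2*c - U - 1)) (by omega)), (fin X.al.per 1 _ (rfl : W (2*N + i + l - m + 2*c + 2*d - U + 2*V - 1) = W (2*N + i + l - m + 2*c + 2*d - U +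 2*V - 1)) (by omega))⟩)) (Or.inl (Or.inl ⟨(fin X.al.per 0 _ (rfl : W (i) = W (i)) (by omega)), (fin X.al.per 0 _ (rfl : W (i + 2*a + 2*b) = W (i + 2*a + 2*b)) (by omega))⟩))

theorem T0_90 (X : C W N Q i a b l m c d L U V) (hb : B N Q i a b l m c d L U V)
    (h : 0 ≤ i + 2*a + b + d + V ∧ 2*a + b + d + V + 1 ≤ 0 ∧ 0 ≤ b + l + d + V ∧ 2*a + b + m + U + 2 ≤ 2*N + l + 2*c + d + V) :
    False := by
  have b2 := hb.b2
  obtain ⟨g1, g2, g3, g4⟩ := h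
  have k1 : b + d + V + 1 ≤ 0 := by clear * - b2 g2; omega
  clear * - X g1 g2 g3 g4 k1
  exact X.al.ninv (i + 2*a + b + d + V) (fin X.al.per 0 _ (pr X.f1 X.al.per 0 (i + 2*a + b + d + V) (pf X.bb X.al.per 0 (i + 2*a + b - d - V) (af X.s1 X.al.per 0 (i - b - d - V) (rfl : W (i + 2*a + b + d + V) = W (i + 2*a + b + d + V)) (by omega)) (by omega)) (by omega)) (by omega))

theorem T0_91 (X : C W N Q i a b l m c d L U V) (hb : B N Q i a b l m c d L U V)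
    (h : V ≤ a ∧ a ≤ V ∧ Q + m ≤ i + 2*b + l + 2*c ∧ 2*N + Q + 2*d ≤ i + 2*b + l + 1 ∧ a + b + d + 1 ≤ 0 ∧ l + 2*c + L + 1 ≤ 2*a + m + U ∧ 2*b + m + L + U + 3 ≤ 4*N + l + 2*c + 2*d) :
    False := by
  have b17 := hb.b17
  have b28 := hb.b28
  have b29 := hb.b29
  have b38 := hb.b38
  have b39 := hb.b39
  obtain ⟨g1, g2, g3, g4, g5, g6, g7⟩ := h
  have k1 : 1 ≤ N + a + b + d := by clear * - b28 b38 b39 g3 g6 g7; omega
  have k2 : L + 2 ≤ 2*N + 2*a + 2*d := by clear * - b17 b29 g1; omega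
  clear * - X g1 g2 g3 g4 g5 g6 g7 k1 k2
  exact absurd (X.lam.mx (max (i - 2*d + 1) (2*N + i + l - m + 2*c - U)) (min (4*N + i - 2*b + l - m + 2*c - U - 1) (2*N + i + 2*a)) (2*N + 2*a + 2*b + 2*d) (by omega) (by omega) fun t h1 h2 => by (try simp only [max_le_iff, lt_min_iff] at h1 h2); exact (lt_or_ge t (min (i + l - 2*d + 1) (2*N + i + l - m + 2*c))).elim (fun u0 => by (try simp only [lt_min_iff] at u0); exact (fin X.al.per 1 _ (pf X.bb X.al.per 0 (2*a + 2*b + 2*d + t) (pr X.f3 X.al.per 0 (2*d + t) (rfl : W (t) = W (t)) (by omega)) (by omega)) (by omega))) (fun u0 => (fin X.al.per 2 _ (pf X.f2 X.al.per 0 (-2*N + 2*b + 2*d + 2*V + t) (pf X.a2 X.al.per 1 (-2*N + 2*b + t) (rfl : W (t) = W (t)) (by omega)) (by omega)) (by omega)))) (by omega)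

theorem T0_93 (X : C W N Q i a b l m c d L U V) (hb : B N Q i a b l m c d L U V)
    (h : a + b + m + U + 2 ≤ 2*N + l + 2*c + d ∧ 2*N + 2*c + d ≤ a + b + m + U + 1 ∧ m + U + 1 ≤ 2*N + i + a + b + l + 2*c + 3*d + 2*V ∧ a + b + d + 2*V + 1 ≤ 0) :
    False := by
  have b17 := hb.b17
  obtain ⟨g1, g2, g3, g4⟩ := h
  have k1 : a + b + d + 1 ≤ 0 := by clear * - b17 g4; omega
  clear * - X g1 g2 g3 g4 k1
  exact X.al.ninv (2*N + i - a - b + l - m + 2*c + d - U - 1) (fin X.al.per 0 _ (af X.t1 X.al.per 0 (2*N + i - a - b + l - m + 2*c + d - U - 1) (pr X.f1 X.al.per 0 (2*N + i + a + b + l - m + 2*c + 3*d - U + 2*V - 1) (pf X.bb X.al.per 0 (2*N + i + a + b + l - m + 2*c + d - U - 1) (rfl : W (2*N + i - a - b + l - m + 2*c + d - U - 1) = W (2*N + i - a - b + l - m + 2*c + d - U - 1)) (by omega)) (by omega)) (by omega)) (by omega))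

theorem T0_94 (X : C W N Q i a b l m c d L U V) (hb : B N Q i a b l m c d L U V)
    (h : 2*N + i + l + 2*c + 6*d + 2*V + 1 ≤ m ∧ m + 2 ≤ 2*N + c + 3*d + V ∧ Q + 2*d + 2*V ≤ 0 ∧ 2*N + 2*d ≤ i + l + m + 2 ∧ 2*N + 4*d + U ≤ i + l + m + 1) :
    False := by
  have b29 := hb.b29
  have b38 := hb.b38
  obtain ⟨g1, g2, g3, g4, g5⟩ := h
  have k1 : N + c + 3*d + V ≤ m := by clear * - b29 b38 g1 g2 g3 g4 g5; omega
  clear * - X g1 g2 g3 g4 g5 k1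
  exact X.al.ubP (4*N - 2*m + 2*c + 6*d + 2*V - 2) (by omega) (by omega) fun t h1 h2 => (fin X.al.per 0 _ (pr X.f1 X.al.per 0 (4*N - 2*m + 2*c + 6*d + 2*V + t - 2) (pr X.d1 X.al.per 0 (4*N - 2*m + 2*c + 4*d + t - 2) (pf X.d2 X.al.per (-1) (4*N - 2*m + 2*c + 2*d + t - 2) (rfl : W (t) = W (t)) (by omega)) (by omega)) (by omega)) (by omega))

theorem T0_95 (X : C W N Q i a b l m c d L U V) (hb : B N Q i a b l m c d L U V)
    (h : 2*N + c + 3*d + V ≤ m + 1 ∧ m + 1 ≤ 2*N + c + 3*d + V ∧ m + 2 ≤ 2*a + 2*b ∧ m + 2 ≤ N + a + b + c + d ∧ Q + 2*m + 1 ≤ 2*N + i + l + 2*c + 2*d ∧ Q + 3*m + 2 ≤ 4*N + i + l + 4*c + 4*d ∧ a + b + d + 1 ≤ 0 ∧ i + 2*a + 2*b + L + 2 ≤ 2*N ∧ 2*N + 2*c + 2*d + L ≤ l + 2*m + 1 ∧ 2*d + L + U + 1 ≤ l + m ∧ i + 2*a + 2*b + l + 2*c + 2*d + L + 1 ≤ m + U ∧ 4*N + 4*c + 4*d + L ≤ 3*m + U + 2) :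
    False := by
  have b2 := hb.b2
  have b3 := hb.b3
  have b17 := hb.b17
  have b29 := hb.b29
  have b33 := hb.b33
  have b38 := hb.b38
  obtain ⟨g1, g2, g3, g4, g5, g6, g7, g8, g9, g10, g11, g12⟩ := h
  have k1 : 2*m + 2 ≤ 2*N + l + 2*c + 2*d := by clear * - b2 b3 g5; omega
  have k2 : 3*m + 3 ≤ 4*N + l + 4*c + 4*d := by clear * - b2 b3 g6; omega
  have k3 : 1 ≤ N + a + b + d := by clear * - b29 b33 b38 g4 g5 g9 g10; omega
  have k4 : 2*N + 2*c + 4*d + L ≤ 2*m := by clear * - b17 b29 g1; omega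
  clear * - X g1 g2 g3 g4 g5 g6 g7 g8 g9 g10 g11 g12 k1 k2 k3 k4
  exact absurd (X.lam.mx (max (2*N + i + 2*a + 2*b + l - m + 2*c + 2*d - U) (i + 2*a + 2*b + 1)) (min (i + 2*a + 2*b + l + m - 2*d - U + 1) (min (-2*N + i + 2*a + 2*b + l + 2*m - 2*c - 2*d + 3) (2*N))) (-2*a - 2*b - 2*d) (by omega) (by omega) fun t h1 h2 => by (try simp only [max_le_iff, lt_min_iff] at h1 h2); exact (lt_or_ge t (min (2*N + i + 2*a + 2*b + l - m + 2*c + 2*d) (i + 2*a + 2*b + l + 1))).elim (fun u0 => by (try simp only [lt_min_iff] at u0); exact (fin X.al.per 0 _ (pf X.f3 X.al.per 0 (-2*a - 2*b - 2*d + t) (pr X.bb X.al.per 0 (-2*a - 2*b + t) (rfl : W (t) = W (t)) (by omega)) (by omega)) (by omega))) (fun u0 => (fin X.al.per 1 _ (pf X.f2 X.al.per 0 (2*N - 2*a - 2*b - 2*m + 2*c + 4*d + 2*V + t - 2) (pr X.bb X.al.per 0 (2*N - 2*a - 2*b - 2*m + 2*c + 2*d + t - 2) (pf X.d2 X.al.per 0 (2*N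 - 2*m + 2*c + 2*d + t - 2) (rfl : W (t) = W (t)) (by omega)) (by omega)) (by omega)) (by omega)))) (by omega)

theorem T0_96 (X : C W N Q i a b l m c d L U V) (hb : B N Q i a b l m c d L U V)
    (h : 2*N + i + l + 2*c + 2*d + 1 ≤ 2*a + 4*b + m ∧ a + 2*b + m + 2 ≤ 2*N + c + d ∧ i + 1 ≤ 2*b ∧ 4*N + 2*c + 2*d ≤ i + 2*a + 2*b + l + 2*m + 3 ∧ 4*N + 2*c + 2*d ≤ i + 4*a + 4*b + 2*m + 2) :
    False := by
  have b25 := hb.b25
  have b36 := hb.b36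
  obtain ⟨g1, g2, g3, g4, g5⟩ := h
  have k1 : N + c + d ≤ a + 2*b + m := by clear * - b25 b36 g1 g2 g3 g5; omega
  clear * - X g1 g2 g3 g4 g5 k1
  exact X.al.ubP (4*N - 2*a - 4*b - 2*m + 2*c + 2*d - 2) (by omega) (by omega) fun t h1 h2 => (fin X.al.per 0 _ (pr X.a1 X.al.per 0 (4*N - 2*a - 4*b - 2*m + 2*c + 2*d + t - 2) (pr X.bb X.al.per 0 (4*N - 2*a - 2*b - 2*m + 2*c + 2*d + t - 2) (pf X.d2 X.al.per (-1) (4*N - 2*m + 2*c + 2*d + t - 2) (rfl : W (t) = W (t)) (by omega)) (by omega)) (by omega)) (by omega))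

theorem T0_97 (X : C W N Q i a b l m c d L U V) (hb : B N Q i a b l m c d L U V)
    (h : a + b + 1 ≤ N + d ∧ i + a + b + l + d + 2 ≤ N ∧ N + a + b + d ≤ m + U + 1 ∧ m + 2 ≤ N + a + b + d ∧ N + 2*c ≤ a + b + m + d) :
    False := by
  have b6 := hb.b6
  obtain ⟨g1, g2, g3, g4, g5⟩ := h
  have k1 : a + b + d + 1 ≤ N + 2*c := by clear * - b6 g2; omega
  clear * - X g1 g2 g3 g4 g5 k1
  exact X.al.ninv (N + i + a + b + l + d + 1) (fin X.al.per 1 _ (ar X.S2 X.al.per 0 (-N + i + a + b + l + d + 1) (pf X.f3 X.al.per 0 (N + i - a - b + l + 2*c - d + 1) (pf X.c2 X.al.per 0 (N + i - a - b + l + 2*c + d + 1) (rfl : W (N + i + a + b + l + d + 1) = W (N + i + a + b + l + d + 1)) (by omega)) (by omega)) (by omega)) (by omega))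

theorem T0_99 (X : C W N Q i a b l m c d L U V) (hb : B N Q i a b l m c d L U V)
    (h : 2*N + c + 2*d ≤ b + m + 1 ∧ b + m + 1 ≤ 2*N + c + 2*d ∧ m + 2 ≤ N + a + b + c + d ∧ Q + 2*m + 1 ≤ 2*N + i + l + 2*c + 2*d ∧ Q + 3*m + 2 ≤ 4*N + i + l + 4*c + 4*d ∧ a + b + d + 1 ≤ 0 ∧ i + 2*a + 2*b + L + 2 ≤ 2*N ∧ 2*N + 2*c + 2*d + L ≤ l + 2*m + 1 ∧ i + 2*a + 2*b + l + 2*c + 2*d + L + 1 ≤ m + U ∧ 4*N + 4*c + 4*d + L ≤ 3*m + U + 2 ∧ 4*N + l + 4*c + 4*d + L ≤ 2*a + 2*b + 3*m + U + 1) :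
    False := by
  have b2 := hb.b2
  have b3 := hb.b3
  have b7 := hb.b7
  have b29 := hb.b29
  have b36 := hb.b36
  have b39 := hb.b39
  obtain ⟨g1, g2, g3, g4, g5, g6, g7, g8, g9, g10, g11⟩ := h
  have k1 : m + 2 ≤ 2*a + 2*b := by clear * - b2 b7 g1 g5; omega
  have k2 : 2*m + 2 ≤ 2*N + l + 2*c + 2*d := by clear * - b2 b3 g4; omega
  have k3 : 3*m + 3 ≤ 4*N + l + 4*c + 4*d := by clear * - b2 b3 g5; omega
  have k4 : 1 ≤ N + a + b + d := by clear * - b29 b36 b39 g3 g7 g9 g11; omega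
  have k5 : 2*N + 2*c + 2*d + L ≤ 2*a + 2*b + 2*m := by clear * - b2 b29 g1; omega
  clear * - X g1 g2 g3 g4 g5 g6 g7 g8 g9 g10 g11 k1 k2 k3 k4 k5
  exact absurd (X.lam.mx (max (2*N + i + 2*a + 2*b + l - m + 2*c + 2*d - U) (i + 2*a + 2*b + 1)) (min (-2*N + i + 4*a + 4*b + 2*m - 2*c - 2*d + 2) (min (-2*N + i + 2*a + 2*b + l + 2*m - 2*c - 2*d + 3) (2*N))) (-2*a - 2*b - 2*d) (by omega) (by omega) fun t h1 h2 => by (try simp only [max_le_iff, lt_min_iff] at h1 h2); exact (lt_or_ge t (min (2*N + i + 2*a + 2*b + l - m + 2*c + 2*d) (i + 2*a + 2*b + l + 1))).elim (fun u0 => by (try simp only [lt_min_iff] at u0); exact (fin X.al.per 0 _ (pf X.f3 X.al.per 0 (-2*a - 2*b - 2*d + t) (pr X.bb X.al.per 0 (-2*a - 2*b + t) (rfl : W (t) = W (t)) (by omega)) (by omega)) (by omega))) (fun u0 => (fin X.al.per 1 _ (pr X.a2 X.al.per 0 (2*N - 2*a - 4*b - 2*m + 2*c + 2*d + t - 2) (pr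 X.bb X.al.per 0 (2*N - 2*a - 2*b - 2*m + 2*c + 2*d + t - 2) (pf X.d2 X.al.per 0 (2*N - 2*m + 2*c + 2*d + t - 2) (rfl : W (t) = W (t)) (by omega)) (by omega)) (by omega)) (by omega)))) (by omega)

theorem T0_100 (X : C W N Q i a b l m c d L U V) (hb : B N Q i a b l m c d L U V)
    (h : i + 2*b + l + m + 2 ≤ 2*N + Q + 2*d + U ∧ i + 2*b + l + m + 3 ≤ 2*N + Q ∧ Q + 2*m + 2 ≤ 4*N + 2*c + 4*d ∧ 2*N + c + 2*d ≤ b + m) :
    False := by
  have b1 := hb.b1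
  have b2 := hb.b2
  have b14 := hb.b14
  have b25 := hb.b25
  have b29 := hb.b29
  have b34 := hb.b34
  have b35 := hb.b35
  have b39 := hb.b39
  obtain ⟨g1, g2, g3, g4⟩ := h
  have k1 : Q + 2*m + 2 ≤ 4*N + i + 2*a + 2*c + 4*d := by clear * - b1 b2 g3; omega
  have k2 : b + m + 2 ≤ 3*N + c + 2*d := by clear * - b25 b29 b34 b35 b39 g1 g2 g3 g4; omega
  clear * - X g1 g2 g3 g4 b14 k1 k2
  exact X.al.ubQ (-4*N + 2*b + 2*m - 2*c - 4*d + 2) (by omega) (by omega) fun t h1 h2 => (fin X.al.per 0 _ (pf X.a2 X.al.per 1 (-4*N + 2*b + 2*m - 2*c - 4*d + t + 2) (pr X.d2 X.al.per 0 (-2*N + 2*m - 2*c - 4*d + t + 2) (pf X.f3 X.al.per 0 (-2*d + t) (rfl : W (t) = W (t)) (by omega)) (by omega)) (by omega)) (by omega))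

theorem T0_101 (X : C W N Q i a b l m c d L U V) (hb : B N Q i a b l m c d L U V)
    (h : i + l + m + 2 ≤ 2*N + Q + 4*d + U + 2*V ∧ i + l + m + 3 ≤ 2*N + Q + 2*d + 2*V ∧ Q + 2*m + 2 ≤ 4*N + 2*c + 4*d ∧ 2*N + c + 3*d + V ≤ m) :
    False := by
  have b14 := hb.b14
  have b17 := hb.b17
  have b18 := hb.b18
  have b25 := hb.b25
  have b29 := hb.b29
  have b34 := hb.b34
  have b35 := hb.b35
  have b39 := hb.b39
  obtain ⟨g1, g2, g3, g4⟩ := h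
  have k1 : Q + 3*m + U + 3 ≤ 6*N + i + l + 4*c + 6*d + 2*V := by clear * - b17 b18 g3; omega
  have k2 : m + 2 ≤ 3*N + c + 3*d + V := by clear * - b25 b29 b34 b35 b39 g1 g2 g3 g4; omega
  clear * - X g1 g2 g3 g4 b14 k1 k2
  exact X.al.ubQ (-4*N + 2*m - 2*c - 6*d - 2*V + 2) (by omega) (by omega) fun t h1 h2 => (fin X.al.per 0 _ (pr X.f2 X.al.per 1 (-4*N + 2*m - 2*c - 6*d - 2*V + t + 2) (pr X.d2 X.al.per 0 (-2*N + 2*m - 2*c - 4*d + t + 2) (pf X.f3 X.al.per 0 (-2*d + t) (rfl : W (t) = W (t)) (by omega)) (by omega)) (by omega)) (by omega))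

theorem T0_103 (X : C W N Q i a b l m c d L U V) (hb : B N Q i a b l m c d L U V)
    (h : i + l + m + 2 ≤ Q + U ∧ i + l + m + 2*d + 3 ≤ Q ∧ N + c + d ≤ m ∧ Q + 3*m + 2 ≤ 4*N + i + l + 4*c + 4*d) :
    False := by
  have b11 := hb.b11
  have b29 := hb.b29
  have b39 := hb.b39
  obtain ⟨g1, g2, g3, g4⟩ := h
  have k1 : Q + 2*m + 2 ≤ 4*N + 2*c + 4*d := by clear * - b11 g4; omega
  have k2 : m + 2 ≤ 2*N + c + d := by clear * - b29 b39 g1 g2 g3 g4; omega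
  clear * - X g1 g2 g3 g4 k1 k2
  exact X.al.ubQ (-2*N + 2*m - 2*c - 2*d + 2) (by omega) (by omega) fun t h1 h2 => (fin X.al.per 0 _ (pr X.d1 X.al.per 0 (-2*N + 2*m - 2*c - 2*d + t + 2) (pr X.d2 X.al.per 0 (-2*N + 2*m - 2*c - 4*d + t + 2) (pf X.f3 X.al.per 0 (-2*d + t) (rfl : W (t) = W (t)) (by omega)) (by omega)) (by omega)) (by omega))

theorem T0_104 (X : C W N Q i a b l m c d L U V) (hb : B N Q i a b l m c d L U V)
    (h : i + 2*a + 4*b + 1 ≤ 2*N + Q + 2*d ∧ Q + 2*a + 2*b + m ≤ 2*N + i + l + 2*c + 2*d ∧ N + d + 1 ≤ a + 2*b) :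
    False := by
  have b1 := hb.b1
  have b2 := hb.b2
  have b8 := hb.b8
  have b11 := hb.b11
  have b17 := hb.b17
  have b26 := hb.b26
  have b28 := hb.b28
  have b33 := hb.b33
  have b35 := hb.b35
  obtain ⟨g1, g2, g3⟩ := h
  have k1 : Q + 2*b ≤ 2*N + i + 2*d := by clear * - b1 b2 b11 g2; omega
  have k2 : a + 2*b + 1 ≤ 2*N + d := by clear * - b17 b26 b28 b33 b35 g1 g2; omega
  clear * - X g1 g2 g3 b8 k1 k2
  exact X.al.ubQ (-2*N + 2*a + 4*b - 2*d) (by omega) (by omega) fun t h1 h2 => (fin X.al.per 0 _ (pf X.a2 X.al.per 1 (-2*N + 2*a + 4*b - 2*d + t) (pf X.d1 X.al.per 0 (2*a + 2*b - 2*d + t) (pf X.bb X.al.per 0 (2*a + 2*b + t) (rfl : W (t) = W (t)) (by omega)) (by omega)) (by omega)) (by omega))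

theorem T0_106 (X : C W N Q i a b l m c d L U V) (hb : B N Q i a b l m c d L U V)
    (h : b + m + V + 2 ≤ N + c ∧ Q ≤ 2*b ∧ 2*N + 2*c ≤ i + 2*a + 2*b + 2*m + 2*V + 2) :
    False := by
  have b17 := hb.b17
  have b23 := hb.b23
  have b28 := hb.b28
  have b32 := hb.b32
  have b36 := hb.b36
  have b38 := hb.b38
  obtain ⟨g1, g2, g3⟩ := h
  have k1 : i + l + 2*c + 1 ≤ 2*b + m + 2*V := by clear * - b17 b28 b38 g2; omega
  have k2 : U ≤ i + l + m + 2*V + 1 := by clear * - b17 b28 b36; omega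
  have k3 : c ≤ b + m + V := by clear * - b23 b32 g1 g2 g3; omega
  clear * - X g1 g2 g3 k1 k2 k3
  exact X.al.ubP (2*N - 2*b - 2*m + 2*c - 2*V - 2) (by omega) (by omega) fun t h1 h2 => (fin X.al.per 0 _ (pr X.a1 X.al.per 0 (2*N - 2*b - 2*m + 2*c - 2*V + t - 2) (pr X.f2 X.al.per 1 (2*N - 2*m + 2*c - 2*V + t - 2) (pf X.d2 X.al.per (-1) (4*N - 2*m + 2*c + 2*d + t - 2) (rfl : W (t) = W (t)) (by omega)) (by omega)) (by omega)) (by omega))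

theorem T0_107 (X : C W N Q i a b l m c d L U V) (hb : B N Q i a b l m c d L U V)
    (h : i + 2*c + 1 ≤ Q + 2*d ∧ Q + 2*a + 2*b + m ≤ 2*N + i + l + 2*c + 2*d ∧ d + 1 ≤ c) :
    False := by
  have b4 := hb.b4
  have b7 := hb.b7
  have b8 := hb.b8
  have b11 := hb.b11
  have b17 := hb.b17
  have b26 := hb.b26
  have b28 := hb.b28
  have b33 := hb.b33
  have b35 := hb.b35
  obtain ⟨g1, g2, g3⟩ := h
  have k1 : c ≤ a + b + d := by clear * - b4 g1; omega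
  have k2 : Q + 2*a + 2*b ≤ 2*N + 2*d := by clear * - b11 g2; omega
  have k3 : c + 1 ≤ N + d := by clear * - b17 b26 b28 b33 b35 g1 g2; omega
  clear * - X g1 g2 g3 b8 k1 b7 k2 k3
  exact X.al.ubQ (2*c - 2*d) (by omega) (by omega) fun t h1 h2 => (fin X.al.per 0 _ (pf X.c2 X.al.per 0 (2*c - 2*d + t) (pf X.d1 X.al.per 0 (2*a + 2*b - 2*d + t) (pf X.bb X.al.per 0 (2*a + 2*b + t) (rfl : W (t) = W (t)) (by omega)) (by omega)) (by omega)) (by omega))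

end Pool.Agent.MP_a38735_al.WL.E31
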