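import Pool.Agent.MP_a38735_al.AQ
import Pool.Agent.MP_a38735_al.LC

set_option autoImplicit false
set_option linter.unusedVariables false
set_option linter.unusedSimpArgs false

namespace Pool.Agent.MP_a38735_al.WL.E33

variable {G : Type*} [Group G]

structure C (W : ℤ → G) (N Q i a b l m c d L U V : ℤ) : Prop where
  al : AL W (2*N) Q
  a1 : Par W (0) (i + 2*a) (2*b)
  a2 : Par W (Q - 2*b) (i + 2*a) (2*b)
  s1 : Ant W (0) (i) (2*i + 2*a)
  s2 : Ant W (i + 2*a + 1) (Q) (2*i + 2*a)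
  bb : Par W (i + 1) (i + l + 1) (2*a + 2*b)
  c1 : Par W (i + l + 2*c + 2) (Q) (2*a + 2*b - 2*c)
  c2 : Par W (i + 2*a + 2*b + l + 2) (2*N) (-2*a - 2*b + 2*c)
  S2 : Ant W (i + l - m + 2*c + 1) (i + l + 2*c + 1) (2*i + 2*l + 2*c + 2)
  d1 : Par W (Q) (2*N + i + l - m + 2*c + 2*d) (-2*d)
  d2 : Par W (i + l + m + 3) (2*N) (2*N - 2*m + 2*c + 2*d - 2)
  t1 : Ant W (Q) (2*N + i + l - m + 2*c + 2*d + U - 2*V + 1) (4*N + 2*i + 2*l - 2*m + 4*c + 4*d + 2*U - 2*V + 2)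
  t2 : Ant W (2*N + i + l - m + 2*c + 2*d + U + 2) (2*N) (4*N + 2*i + 2*l - 2*m + 4*c + 4*d + 2*U - 2*V + 2)
  f1 : Par W (2*N + i + l - m + 2*c + 2*d + U - 2*V + 2) (2*N) (-4*N + 2*m - 2*c - 2*d + 2*V + 2)
  f2 : Par W (-2*N + i + l + m + U + 4) (Q) (4*N - 2*m + 2*c + 2*d - 2*V - 2)
  f3 : Par W (i + l + m + 3) (i + l + m + U + 3) (2*N - 2*m + 2*c + 2*d - 2)
  n1 : Nd W (i + 2*a) (i) (i + 2*a + 2*b)
  n2 : Nd W (i + l + 1) (i + l + 2*c + 1) (i + 2*a + 2*b + l + 1)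
  n3 : Nd W (2*N + i + l - m + 2*c) (i + l + m + 2) (2*N + i + l - m + 2*c + 2*d)
  n4 : Nd W (2*N + i + l - m + 2*c + 2*d + U + 1) (2*N + i + l - m + 2*c + 2*d + U - 2*V + 1) (-2*N + i + l + m + U + 3)
  lam : L2 W (2*N) L (i + 2*a) (i) (i + 2*a + 2*b) (2*N + i + l - m + 2*c + 2*d + U + 1) (2*N + i + l - m + 2*c + 2*d + U - 2*V + 1) (-2*N + i + l + m + U + 3)

/-- the linear side conditions -/
structure B (N Q i a b l m c d L U V : ℤ) : Prop where
  b1 : 0 ≤ i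
  b2 : 0 ≤ a
  b3 : i + 2*a + 1 ≤ Q
  b4 : Q ≤ i + 2*a + 2*b
  b5 : i + 2*a + 2*b + 1 ≤ 2*N
  b6 : 0 ≤ i + l + 2*c + 1
  b7 : i + l + 2*c + 2 ≤ Q
  b8 : Q ≤ i + l + 1
  b9 : i + 2*a + 2*b + l + 2 ≤ 2*N
  b10 : Q + m ≤ 2*N + i + l + 2*c
  b11 : i + l + 2*c + 1 ≤ m
  b12 : Q ≤ i + l + m + 2
  b13 : i + l + m + 3 ≤ 2*N
  b14 : Q + m ≤ 2*N + i + l + 2*c + 2*d
  b15 : i + l + 2*c + 2*d + 1 ≤ m
  b16 : 0 ≤ U
  b17 : 0 ≤ V
  b18 : Q + m + 2*V ≤ 2*N + i + l + 2*c + 2*d + U + 1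
  b19 : i + l + 2*c + 2*d + U + 2 ≤ m
  b20 : 2*N ≤ i + l + m + U + 3
  b21 : i + l + m + U + 4 ≤ 2*N + Q
  b22 : i + 2*a + L + 3 ≤ 2*N
  b23 : i + 2*a + 2*b + L + 3 ≤ 2*N + Q
  b24 : l + L + 3 ≤ 2*N
  b25 : 2*a + 2*b + L + 2 ≤ 2*N
  b26 : m + L + 2*V + 1 ≤ 2*N + i + l + 2*c + 2*d + U
  b27 : Q + L ≤ i + l + m + U + 1
  b28 : L + U + 3 ≤ 2*N
  b29 : 2*m + L + 2*V + 4 ≤ 4*N + 2*c + 2*d
  b30 : 0 ≤ L
  b31 : i + 2*a ≤ L
  b32 : i + 2*a + 2*b ≤ Q + L
  b33 : l ≤ L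
  b34 : Q ≤ i + l + 2*c + L + 2
  b35 : 2*N ≤ i + 2*a + 2*b + l + L + 2
  b36 : 2*N ≤ i + l + m + L + 3
  b37 : m + 2*V ≤ i + l + 2*c + 2*d + L + U + 2
  b38 : 2*N + Q ≤ i + l + m + L + U + 4
  b39 : U ≤ L

variable {W : ℤ → G} {N Q i a b l m c d L U V Y : ℤ}

theorem T0_0 (X : C W N Q i a b l m c d L U V) (hb : B N Q i a b l m c d L U V)
    (h : N + c ≤ m) :
    False := by
  have b6 := hb.b6
  have b13 := hb.b13
  have g1 := h
  have k1 : 1 ≤ N + c := by clear * - b6 b13 g1; omega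
  clear * - X g1 k1
  exact X.al.ninv (-N + i + l + c + 1) (fin X.al.per (-1) _ (af X.S2 X.al.per 0 (N + i + l + c + 1) (rfl : W (-N + i + l + c + 1) = W (-N + i + l + c + 1)) (by omega)) (by omega))

theorem T0_1 (X : C W N Q i a b l m c d L U V) (hb : B N Q i a b l m c d L U V)
    (h : 2*N + l + 2*c + 2*d + U ≤ 2*a + m + L + 2*V) :
    False := by
  have b22 := hb.b22
  have b26 := hb.b26
  have g1 := h
  have k1 : 0 ≤ i + 2*a := by clear * - b26 g1; omega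
  have k2 : i + l + 2*c + 2*d + U + 2 ≤ m + 2*V := by clear * - b22 g1; omega
  clear * - X g1 k1 k2
  exact X.lam.two X.al 0 1 (0) (i + 2*a) (2*b) (2*N + i + l - m + 2*c + 2*d + U - 2*V + 2) (2*N) (-2*N + 2*m - 2*c - 2*d + 2*V + 2) (by omega) (fun t h1 h2 => (fin X.al.per 0 _ (pf X.a1 X.al.per 0 (2*b + t) (rfl : W (t) = W (t)) (by omega)) (by omega))) (fun t h1 h2 => (fin X.al.per 1 _ (pf X.f1 X.al.per 0 (-4*N + 2*m - 2*c - 2*d + 2*V + t + 2) (rfl : W (t) = W (t)) (by omega)) (by omega))) (Or.inl (Or.inl ⟨(fin X.al.per 0 _ (rfl : W (i + 2*a) = W (i + 2*a)) (by omega)), (fin X.al.per 0 _ (rfl : W (i + 2*a + 2*b) = W (i + 2*a + 2*b)) (by omega))⟩)) (Or.inr (Or.inl ⟨(fin X.al.per 0 _ (rfl : W (2*N + i + l - m + 2*c + 2*d + U - 2*V + 1) = W (2*N + i + l - m + 2*c + 2*d + U - 2*V + 1)) (by omega)), (fin X.al.per 1 _ (rfl : W (-2*N + i + l + m + U + 3) = W (-2*N + i + l + m + U + 3)) (by omega))⟩))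

theorem T0_2 (X : C W N Q i a b l m c d L U V) (hb : B N Q i a b l m c d L U V)
    (h : 1 ≤ N + c + d ∧ N + c ≤ m + d + U + 1 ∧ N + c + 3*d ≤ m ∧ 1 ≤ U) :
    False := by
  have b6 := hb.b6
  have b13 := hb.b13
  have b19 := hb.b19
  have b20 := hb.b20
  obtain ⟨g1, g2, g3, g4⟩ := h
  have k1 : N + c + d ≤ m := by clear * - b19 b20; omega
  have k2 : d + 1 ≤ N + c := by clear * - b6 b13 g1 g3; omega
  clear * - X g1 g2 g3 g4 k1 k2
  obtain ⟨K0, hL⟩ : ∃ K0 : ℤ, 2*N - 2*m + 2*c ≤ 2*K0 ∧ 2*N - 2*m + 2*c - 2*U - 2 ≤ 2*K0 ∧ 2*N - 2*m + 2*c + 4*d ≤ 2*K0 ∧ 2*K0 + 2*(-N + m - c - d + 1) - 2 ≤ 2*N + 2*c - 2 ∧ 2*K0 + 2*(-N + m - c - d + 1) - 2 ≤ -2*N + 2*m - 2*c - 4*d ∧ 2*K0 + 2*(-N + m - c - d + 1) - 2 ≤ -2*N + 2*m - 2*c + 2*U + 2 := ⟨((max (2*N - 2*m + 2*c + 4*d) (max (2*N - 2*m + 2*c - 2*U - 2) (2*N - 2*m + 2*c))) + 1) / 2, by omega⟩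
  obtain ⟨R, hR1, hR2, hR⟩ := pw (A := 2*N + i + l - m + 2*c + 2*d + 1) (B := i + l + m + U + 3) (γ := -N + m - c - d + 1) (by omega) (fun t h1 h2 => (fin X.al.per 0 _ (pr X.f3 X.al.per 0 (-2*N + 2*m - 2*c - 2*d + t + 2) (rfl : W (t) = W (t)) (by omega)) (by omega))) K0
  exact X.al.ninv (-N + i + l + c + R + 1) (fin X.al.per (-1) _ (pp hR X.al.per 0 (N + i + l + c + R + 1) (af X.S2 X.al.per 0 (N + i + l + c - R + 1) (rfl : W (-N + i + l + c + R + 1) = W (-N + i + l + c + R + 1)) (by omega)) (by omega)) (by omega))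

theorem T0_3 (X : C W N Q i a b l m c d L U V) (hb : B N Q i a b l m c d L U V)
    (h : Q + m + V ≤ N + i + b + l + 2*c + 2*d + U + 1 ∧ N + l + 2*c + 2*d + U + 2 ≤ 2*a + b + m + V) :
    False := by
  have b2 := hb.b2
  have b19 := hb.b19
  have b25 := hb.b25
  have b37 := hb.b37
  obtain ⟨g1, g2⟩ := h
  have k1 : b + V + 1 ≤ N := by clear * - b2 b19 b25 b37; omega
  clear * - X g1 g2 k1
  exact X.al.ninv (N + i - b + l - m + 2*c + 2*d + U - V + 1) (fin X.al.per (-1) _ (af X.t1 X.al.per 0 (3*N + i - b + l - m + 2*c + 2*d + U - V + 1) (pf X.a2 X.al.per 0 (N + i + b + l - m + 2*c + 2*d + U - V + 1) (rfl : W (N + i - b + l - m + 2*c + 2*d + U - V + 1) = W (N + i - b + l - m + 2*c + 2*d + U - V + 1)) (by omega)) (by omega)) (by omega))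

theorem T0_4 (X : C W N Q i a b l m c d L U V) (hb : B N Q i a b l m c d L U V)
    (h : m + V + 1 ≤ N + c + d + U ∧ i + l + c + d + U + 3 ≤ N + V ∧ N + c + d + V ≤ m) :
    False := by
  have b14 := hb.b14
  obtain ⟨g1, g2, g3⟩ := h
  have k1 : Q + 2*m + V ≤ 3*N + i + l + 3*c + 3*d + U := by clear * - b14 g1; omega
  clear * - X g1 g2 g3 k1
  exact X.al.ninv (N + i + l + c + d + U - V + 2) (fin X.al.per 0 _ (af X.t1 X.al.per 0 (N + i + l + c + d + U - V + 2) (pf X.d2 X.al.per 0 (3*N + i + l - 2*m + 3*c + 3*d + U - V) (rfl : W (N + i + l + c + d + U - V + 2) = W (N + i + l + c + d + U - V + 2)) (by omega)) (by omega)) (by omega))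

theorem T0_5 (X : C W N Q i a b l m c d L U V) (hb : B N Q i a b l m c d L U V)
    (h : Q + m + V ≤ N + i + l + 2*c + 2*d + U + 1) :
    False := by
  have b19 := hb.b19
  have b26 := hb.b26
  have b30 := hb.b30
  have g1 := h
  have k1 : V + 1 ≤ N := by clear * - b19 b26 b30; omega
  clear * - X g1 k1
  exact X.al.ninv (N + i + l - m + 2*c + 2*d + U - V + 1) (fin X.al.per (-1) _ (af X.t1 X.al.per 0 (3*N + i + l - m + 2*c + 2*d + U - V + 1) (rfl : W (N + i + l - m + 2*c + 2*d + U - V + 1) = W (N + i + l - m + 2*c + 2*d + U - V + 1)) (by omega)) (by omega))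

theorem T0_6 (X : C W N Q i a b l m c d L U V) (hb : B N Q i a b l m c d L U V)
    (h : N + a + c + d ≤ m + V ∧ i + a + m + V + 2 ≤ N + Q + c + d ∧ l + c + d + U + 3 ≤ N + a + V) :
    False := by
  obtain ⟨g1, g2, g3⟩ := h
  clear * - X g1 g2 g3
  exact X.al.ninv (-N + i + a + m - c - d + V + 1) (fin X.al.per 0 _ (pr X.f2 X.al.per (-1) (-N + i + a + m - c - d + V + 1) (af X.s2 X.al.per 0 (N + i + a - m + c + d - V - 1) (rfl : W (-N + i + a + m - c - d + V + 1) = W (-N + i + a + m - c - d + V + 1)) (by omega)) (by omega)) (by omega))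

theorem T0_7 (X : C W N Q i a b l m c d L U V) (hb : B N Q i a b l m c d L U V)
    (h : i + l + m + U + 4 ≤ 2*N + 2*b ∧ N + b + c + d ≤ m + V ∧ 2*m + 2*V + 2 ≤ 2*N + i + 2*a + 2*b + 2*c + 2*d) :
    False := by
  have b27 := hb.b27
  have b32 := hb.b32
  obtain ⟨g1, g2, g3⟩ := h
  have k1 : m + V + 2 ≤ 2*N + b + c + d := by clear * - b27 b32 g1 g3; omega
  clear * - X g1 g2 g3 k1
  exact X.al.ubP (-2*N - 2*b + 2*m - 2*c - 2*d + 2*V + 2) (by omega) (by omega) fun t h1 h2 => (fin X.al.per 0 _ (pr X.a1 X.al.per 0 (-2*N - 2*b + 2*m - 2*c - 2*d + 2*V + t + 2) (pf X.f1 X.al.per (-1) (-2*N + 2*m - 2*c - 2*d + 2*V + t + 2) (rfl : W (t) = W (t)) (by omega)) (by omega)) (by omega))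

theorem T0_8 (X : C W N Q i a b l m c d L U V) (hb : B N Q i a b l m c d L U V)
    (h : a + b + m + V ≤ N + l + 2*c + 2*d + U ∧ N + 2*c + 2*d + U + 1 ≤ a + b + m + V) :
    False := by
  have b4 := hb.b4
  have b19 := hb.b19
  have b25 := hb.b25
  have b37 := hb.b37
  obtain ⟨g1, g2⟩ := h
  have k1 : Q + m + V ≤ N + i + a + b + l + 2*c + 2*d + U + 1 := by clear * - b4 g1; omega
  have k2 : a + b + V + 1 ≤ N := by clear * - b19 b25 b37; omega
  clear * - X g1 g2 k1 k2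
  exact X.al.ninv (N + i - a - b + l - m + 2*c + 2*d + U - V + 1) (fin X.al.per (-1) _ (af X.t1 X.al.per 0 (3*N + i - a - b + l - m + 2*c + 2*d + U - V + 1) (pf X.bb X.al.per 0 (N + i + a + b + l - m + 2*c + 2*d + U - V + 1) (rfl : W (N + i - a - b + l - m + 2*c + 2*d + U - V + 1) = W (N + i - a - b + l - m + 2*c + 2*d + U - V + 1)) (by omega)) (by omega)) (by omega))

theorem T0_9 (X : C W N Q i a b l m c d L U V) (hb : B N Q i a b l m c d L U V)
    (h : a ≤ 0 ∧ N + l + 2*c + 2*d + U + 1 ≤ 2*a + b + m + V ∧ 2*a + b + m + V ≤ N + l + 2*c + 2*d + U + 1) :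
    False := by
  have b2 := hb.b2
  have b4 := hb.b4
  have b19 := hb.b19
  have b25 := hb.b25
  have b37 := hb.b37
  obtain ⟨g1, g2, g3⟩ := h
  have k1 : Q + 2*a + 2*m + 2*V ≤ 2*N + i + 2*l + 4*c + 4*d + 2*U + 2 := by clear * - b4 g3; omega
  have k2 : l + 2*c + 2*d + U + 2 ≤ 2*a + m := by clear * - b2 b19 b25 b37 g2; omega
  clear * - X g1 g2 g3 b2 k1 k2
  exact X.n1.tor ⟨(fin X.al.per 0 _ (rfl : W (i + 2*a) = W (i + 2*a)) (by omega)), (fin X.al.per 0 _ (ar X.t1 X.al.per (-1) (2*N + i - 2*a + 2*l - 2*m + 4*c + 4*d + 2*U - 2*V + 2) (rfl : W (i + 2*a) = W (i + 2*a)) (by omega)) (by omega))⟩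

theorem T0_10 (X : C W N Q i a b l m c d L U V) (hb : B N Q i a b l m c d L U V)
    (h : b ≤ i) :
    False := by
  have b2 := hb.b2
  have b3 := hb.b3
  have b4 := hb.b4
  have b24 := hb.b24
  have b35 := hb.b35
  have g1 := h
  have k1 : 1 ≤ b := by clear * - b3 b4; omega
  have k2 : 1 ≤ 2*a + 3*b := by clear * - b2 b3 b4; omega
  have k3 : 1 ≤ i + 2*a := by clear * - b2 b24 b35 g1; omega
  clear * - X g1 k1 k2 k3
  obtain ⟨K0, hL⟩ : ∃ K0 : ℤ, -2*i - 2*a ≤ 2*K0 ∧ -2*a - 4*b + 2 ≤ 2*K0 ∧ 2*K0 + 2*(b) - 2 ≤ -2*a - 2 ∧ 2*K0 + 2*(b) - 2 ≤ 2*i + 2*a ∧ 2*K0 + 2*(b) - 2 ≤ 2*a + 4*b - 2 := ⟨((max (-2*a - 4*b + 2) (-2*i - 2*a)) + 1) / 2, by omega⟩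
  obtain ⟨R, hR1, hR2, hR⟩ := pw (A := 0) (B := i + 2*a + 2*b) (γ := b) (by omega) (fun t h1 h2 => (fin X.al.per 0 _ (pf X.a1 X.al.per 0 (2*b + t) (rfl : W (t) = W (t)) (by omega)) (by omega))) K0
  exact X.al.ninv (i + a + R) (fin X.al.per 0 _ (pp hR X.al.per 0 (i + a + R) (af X.s1 X.al.per 0 (i + a - R) (rfl : W (i + a + R) = W (i + a + R)) (by omega)) (by omega)) (by omega))

theorem T0_11 (X : C W N Q i a b l m c d L U V) (hb : B N Q i a b l m c d L U V)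
    (h : m + 2*V + 1 ≤ 2*N + 2*c + 2*d + U ∧ d + U + 1 ≤ 0 ∧ 0 ≤ d + U + 1) :
    False := by
  have b7 := hb.b7
  have b8 := hb.b8
  have b17 := hb.b17
  obtain ⟨g1, g2, g3⟩ := h
  have k1 : m + 1 ≤ 2*N + 2*c + 2*d + U := by clear * - b17 g1; omega
  have k2 : i + l + 2*c + 2*d + 2*U + 4 ≤ Q := by clear * - b7 g2; omega
  clear * - X g1 g2 g3 b8 k1 k2
  exact X.n2.yx (sw (fin X.al.per 0 _ (pr X.f2 X.al.per 0 (i + l + 2*c + 2*d + 2*U + 3) (af X.t1 X.al.per 0 (4*N + i + l - 2*m + 4*c + 4*d + 2*U - 2*V + 1) (rfl : W (i + l + 1) = W (i + l + 1)) (by omega)) (by omega)) (by omega)))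

theorem T0_12 (X : C W N Q i a b l m c d L U V) (hb : B N Q i a b l m c d L U V)
    (h : m + V + 2 ≤ 2*N + 2*c + d ∧ d + U + 2 ≤ V) :
    False := by
  have b11 := hb.b11
  have b16 := hb.b16
  have b20 := hb.b20
  obtain ⟨g1, g2⟩ := h
  have k1 : 2*N + 2*c + d ≤ 2*m + V + 1 := by clear * - b11 b20 g2; omega
  have k2 : i + l + 2*c + d + 1 ≤ m + V := by clear * - b11 b16 g2; omega
  clear * - X g1 g2 k1 k2
  exact X.al.ninv (-2*N + i + l + m - d + V + 2) (fin X.al.per 0 _ (pf X.f1 X.al.per 0 (-2*N + i + l + m - d + V + 2) (af X.S2 X.al.per 0 (2*N + i + l - m + 2*c + d - V) (rfl : W (-2*N + i + l + m - d + V + 2) = W (-2*N + i + l + m - d + V + 2)) (by omega)) (by omega)) (by omega))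

theorem T0_13 (X : C W N Q i a b l m c d L U V) (hb : B N Q i a b l m c d L U V)
    (h : b ≤ i + a ∧ a + 1 ≤ b) :
    False := by
  have b2 := hb.b2
  obtain ⟨g1, g2⟩ := h
  have k1 : 1 ≤ a + b := by clear * - b2 g2; omega
  clear * - X g1 g2 k1
  exact X.al.ninv (i + a - b) (fin X.al.per 0 _ (ar X.s1 X.al.per 0 (i + a - b) (pf X.a1 X.al.per 0 (i + a + b) (rfl : W (i + a - b) = W (i + a - b)) (by omega)) (by omega)) (by omega))

theorem T0_14 (X : C W N Q i a b l m c d L U V) (hb : B N Q i a b l m c d L U V)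
    (h : 2*N + i + l + 3*c + 3*d + U + 1 ≤ 2*m + 2*V) :
    False := by
  have b17 := hb.b17
  have b29 := hb.b29
  have b37 := hb.b37
  have g1 := h
  have k1 : m + 2*V + 2 ≤ 2*N + c + d := by clear * - b29 b37 g1; omega
  have k2 : m + 2 ≤ 2*N + c + d := by clear * - b17 b29 b37 g1; omega
  clear * - X g1 k1 k2
  exact X.al.ninv (4*N + i + l - 2*m + 3*c + 3*d + U - 2*V) (fin X.al.per 0 _ (pr X.f1 X.al.per 0 (4*N + i + l - 2*m + 3*c + 3*d + U - 2*V) (af X.t2 X.al.per 0 (i + l + c + d + U + 2) (rfl : W (4*N + i + l - 2*m + 3*c + 3*d + U - 2*V) = W (4*N + i + l - 2*m + 3*c + 3*d + U - 2*V)) (by omega)) (by omega)) (by omega))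

theorem T0_15 (X : C W N Q i a b l m c d L U V) (hb : B N Q i a b l m c d L U V)
    (h : N + i + 1 ≤ Q + b) :
    False := by
  have b2 := hb.b2
  have b8 := hb.b8
  have b25 := hb.b25
  have b31 := hb.b31
  have b33 := hb.b33
  have b35 := hb.b35
  have g1 := h
  have k1 : 2*a + b + 1 ≤ N := by clear * - b8 b25 b33 g1; omega
  have k2 : b + 1 ≤ N := by clear * - b2 b25 b31 b33 b35; omega
  have k3 : N ≤ b + l := by clear * - b8 g1; omega
  clear * - X g1 k1 k2 k3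
  exact X.al.ninv (N + i - b) (fin X.al.per 0 _ (pr X.bb X.al.per (-1) (N + i - b) (af X.s2 X.al.per 0 (-N + i + 2*a + b) (rfl : W (N + i - b) = W (N + i - b)) (by omega)) (by omega)) (by omega))

theorem T0_16 (X : C W N Q i a b l m c d L U V) (hb : B N Q i a b l m c d L U V)
    (h : m + 2*V + 1 ≤ N + c + d + U) :
    False := by
  have b14 := hb.b14
  have b17 := hb.b17
  have b19 := hb.b19
  have b20 := hb.b20
  have b28 := hb.b28
  have b38 := hb.b38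
  have g1 := h
  have k1 : Q + 2*m + 2*V ≤ 3*N + i + l + 3*c + 3*d + U := by clear * - b14 g1; omega
  have k2 : Q ≤ N + i + l + c + d + U + 2 := by clear * - b17 b28 b38 g1; omega
  have k3 : N + c + d ≤ m := by clear * - b19 b20; omega
  have k4 : 3*N + 3*c + 3*d ≤ 3*m + 2*V + 2 := by clear * - b17 b19 b20; omega
  have k5 : 1 ≤ U := by clear * - b17 b19 b20 g1; omega
  clear * - X g1 k1 k2 k3 k4 k5
  obtain ⟨K0, hL⟩ : ∃ K0 : ℤ, -4*N + 2*Q - 2*i - 2*l + 2*m - 4*c - 4*d - 2*U + 2*V - 2 ≤ 2*K0 ∧ 4*N - 4*m + 4*c + 4*d - 2*V - 2 ≤ 2*K0 ∧ -2*U + 2*V ≤ 2*K0 ∧ 2*K0 + 2*(-N + m - c - d + 1) - 2 ≤ -2*V - 2 ∧ 2*K0 + 2*(-N + m - c - d + 1) - 2 ≤ 2*U - 2*V ∧ 2*K0 + 2*(-N + m - c - d + 1) - 2 ≤ -4*N + 4*m - 4*c - 4*d + 2*V + 2 := ⟨((max (-2*U + 2*V) (max (4*N - 4*m + 4*c + 4*d - 2*V - 2) (-4*N + 2*Q - 2*i - 2*l + 2*m - 4*c - 4*d - 2*U + 2*V - 2))) + 1) / 2, by omega⟩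
  obtain ⟨R, hR1, hR2, hR⟩ := pw (A := 2*N + i + l - m + 2*c + 2*d + 1) (B := i + l + m + U + 3) (γ := -N + m - c - d + 1) (by omega) (fun t h1 h2 => (fin X.al.per 0 _ (pr X.f3 X.al.per 0 (-2*N + 2*m - 2*c - 2*d + t + 2) (rfl : W (t) = W (t)) (by omega)) (by omega))) K0
  exact X.al.ninv (2*N + i + l - m + 2*c + 2*d + U - V + R + 1) (fin X.al.per 0 _ (pp hR X.al.per 0 (2*N + i + l - m + 2*c + 2*d + U - V + R + 1) (af X.t1 X.al.per 0 (2*N + i + l - m + 2*c + 2*d + U - V - R + 1) (rfl : W (2*N + i + l - m + 2*c + 2*d + U - V + R + 1) = W (2*N + i + l - m + 2*c + 2*d + U - V + R + 1)) (by omega)) (by omega)) (by omega))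

theorem T0_17 (X : C W N Q i a b l m c d L U V) (hb : B N Q i a b l m c d L U V)
    (h : a + b ≤ l + c ∧ 1 ≤ a + b + c) :
    False := by
  have b7 := hb.b7
  have b8 := hb.b8
  have b11 := hb.b11
  have b25 := hb.b25
  have b36 := hb.b36
  obtain ⟨g1, g2⟩ := h
  have k1 : c + 1 ≤ a + b := by clear * - b7 b8 g2; omega
  have k2 : a + b + c ≤ m := by clear * - b11 b25 b36; omega
  clear * - X g1 g2 k1 k2
  exact X.al.ninv (i - a - b + l + c + 1) (fin X.al.per 0 _ (ar X.S2 X.al.per 0 (i - a - b + l + c + 1) (pf X.bb X.al.per 0 (i + a + b + l + c + 1) (rfl : W (i - a - b + l + c + 1) = W (i - a - b + l + c + 1)) (by omega)) (by omega)) (by omega))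

theorem T0_18 (X : C W N Q i a b l m c d L U V) (hb : B N Q i a b l m c d L U V)
    (h : i + a + b + l + c + 2*d + U + 2 ≤ m + V ∧ Q + a + b + m + V ≤ 2*N + i + l + 3*c + 2*d + U + 1 ∧ c + V + 1 ≤ a + b) :
    False := by
  have b7 := hb.b7
  obtain ⟨g1, g2, g3⟩ := h
  have k1 : a + b + m + V + 1 ≤ 2*N + c + 2*d + U := by clear * - b7 g2; omega
  clear * - X g1 g2 g3 k1
  exact X.al.ninv (2*N + i + a + b + l - m + c + 2*d + U - V + 1) (fin X.al.per 0 _ (af X.t1 X.al.per 0 (2*N + i + a + b + l - m + c + 2*d + U - V + 1) (pf X.c2 X.al.per 0 (2*N + i - a - b + l - m + 3*c + 2*d + U - V + 1) (rfl : W (2*N + i + a + b + l - m + c + 2*d + U - V + 1) = W (2*N + i + a + b + l - m + c + 2*d + U - V + 1)) (by omega)) (by omega)) (by omega))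

theorem T0_19 (X : C W N Q i a b l m c d L U V) (hb : B N Q i a b l m c d L U V)
    (h : a + 2*b ≤ i + l + c + 1 ∧ l + c + 2 ≤ 3*a + 2*b ∧ a ≤ l + c ∧ 1 ≤ a + 2*b + c) :
    False := by
  have b2 := hb.b2
  have b7 := hb.b7
  have b8 := hb.b8
  have b11 := hb.b11
  obtain ⟨g1, g2, g3, g4⟩ := h
  have k1 : c + 1 ≤ a := by clear * - b2 b7 b8; omega
  have k2 : a + 2*b + c ≤ m := by clear * - b11 g1; omega
  clear * - X g1 g2 g3 g4 k1 k2
  exact X.al.ninv (i - a - 2*b + l + c + 1) (fin X.al.per 0 _ (ar X.S2 X.al.per 0 (i - a - 2*b + l + c + 1) (pf X.bb X.al.per 0 (i + a + 2*b + l + c + 1) (pf X.a1 X.al.per 0 (i - a + l + c + 1) (rfl : W (i - a - 2*b + l + c + 1) = W (i - a - 2*b + l + c + 1)) (by omega)) (by omega)) (by omega)) (by omega))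

theorem T0_20 (X : C W N Q i a b l m c d L U V) (hb : B N Q i a b l m c d L U V)
    (h : 2*a + 2*b ≤ l + c ∧ 1 ≤ 2*a + 2*b + c) :
    False := by
  have b1 := hb.b1
  have b7 := hb.b7
  have b8 := hb.b8
  have b11 := hb.b11
  obtain ⟨g1, g2⟩ := h
  have k1 : c + 1 ≤ 0 := by clear * - b7 b8; omega
  have k2 : 2*a + 2*b + c ≤ m := by clear * - b1 b11 g1; omega
  clear * - X g1 g2 k1 k2
  exact X.al.ninv (i - 2*a - 2*b + l + c + 1) (fin X.al.per 0 _ (ar X.S2 X.al.per 0 (i - 2*a - 2*b + l + c + 1) (pf X.bb X.al.per 0 (i + 2*a + 2*b + l + c + 1) (pf X.bb X.al.per 0 (i + l + c + 1) (rfl : W (i - 2*a - 2*b + l + c + 1) = W (i - 2*a - 2*b + l + c + 1)) (by omega)) (by omega)) (by omega)) (by omega))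

theorem main (X : C W N Q i a b l m c d L U V) (hb : B N Q i a b l m c d L U V) : False := by
  have b1 := hb.b1
  have b2 := hb.b2
  have b4 := hb.b4
  have b8 := hb.b8
  have b11 := hb.b11
  have b17 := hb.b17
  have b19 := hb.b19
  have b20 := hb.b20
  have b24 := hb.b24
  have b27 := hb.b27
  have b29 := hb.b29
  have b31 := hb.b31
  have b33 := hb.b33
  have b35 := hb.b35
  have b37 := hb.b37
  have b38 := hb.b38
  have b39 := hb.b39
  rcases lt_or_ge (-N + m - c) 0 with h1 | h1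
  · rcases lt_or_ge (-2*N + 2*a - l + m - 2*c - 2*d + L - U + 2*V) 0 with h2 | h2
    · rcases lt_or_ge (-N + m - c + d + U + 1) 0 with h3 | h3
      · rcases lt_or_ge (-N + 2*a + b - l + m - 2*c - 2*d - U + V - 2) 0 with h4 | h4
        · rcases lt_or_ge (-N + m - c - d - V) 0 with h5 | h5
          · rcases lt_or_ge (N - Q + i + l - m + 2*c + 2*d + U - V + 1) 0 with h6 | h6
            · rcases lt_or_ge (N + Q - i - a - m + c + d - V - 2) 0 with h7 | h7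
              · rcases lt_or_ge (2*N + i + 2*a + 2*b - 2*m + 2*c + 2*d - 2*V - 2) 0 with h8 | h8
                · rcases lt_or_ge (N - a - b + l - m + 2*c + 2*d + U - V) 0 with h9 | h9
                  · exact T0_9 X hb ⟨by clear * - h4 h9; omega, by clear * - b2 h9; omega, by clear * - h4; omega⟩
                  exact T0_8 X hb ⟨by clear * - h9; omega, by have := kB 1 h9 (kA 2 h6 (kC 1 b8 (kC 1 b4 k0))); clear * - this; omega⟩
                rcases lt_or_ge (2*N - i + 2*b - l - m - U - 4) 0 with h10 | h10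
                · rcases lt_or_ge (i - b) 0 with h11 | h11
                  · exact T0_8 X hb ⟨by have := kA 1 h11 (kA 1 h10 (kB 1 h8 (kA 1 h7 (kA 1 h6 (kA 1 h5 (kA 2 h4 (kC 1 b19 k0))))))); clear * - this; omega, by have := kA 1 h11 (kA 1 h10 (kB 1 h8 (kA 3 h7 (kA 3 h6 (kA 1 h5 (kA 2 h4 (kA 2 h3 (kA 1 h2 (kC 1 b35 (kC 2 b11 k0)))))))))); clear * - this; omega⟩
                  exact T0_10 X hb (by clear * - h11; omega)
                exact T0_7 X hb ⟨by clear * - h10; omega, by have := kA 1 h7 (kA 1 h6 (kA 1 h4 (kC 1 b2 k0))); clear * - this; omega, by clear * - h8; omega⟩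
              rcases lt_or_ge (-N - a + m - c - d + V) 0 with h12 | h12
              · exact T0_8 X hb ⟨by have := kA 3 h12 (kA 2 h6 (kA 1 h5 (kA 3 h4 (kC 1 b38 (kC 1 b27 k0))))); clear * - this; omega, by have := kA 3 h12 (kB 3 h7 (kA 10 h6 (kA 2 h5 (kC 2 b38 (kC 2 b27 (kC 6 b8 (kC 3 b4 k0))))))); clear * - this; omega⟩
              exact T0_6 X hb ⟨by clear * - h12; omega, by clear * - h7; omega, by have := kA 1 h5 (kC 1 b19 (kC 1 b2 (kC 1 b1 k0))); clear * - this; omega⟩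
            exact T0_5 X hb (by clear * - h6; omega)
          rcases lt_or_ge (N - m + c + d + U - V - 1) 0 with h13 | h13
          · rcases lt_or_ge (-d - U - 1) 0 with h14 | h14
            · exact T0_12 X hb ⟨by have := kA 1 h14 (kA 1 h13 (kA 1 h3 (kA 1 h2 (kC 1 b33 (kC 2 b2 k0))))); clear * - this; omega, by clear * - h3 h13 h14; omega⟩
            rcases lt_or_ge (d + U + 1) 0 with h15 | h15
            · exact T0_12 X hb ⟨by have := kA 1 h13 (kA 1 h2 (kA 1 h1 (kC 1 b33 (kC 2 b2 k0)))); clear * - this; omega, by clear * - b17 h15; omega⟩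
            exact T0_11 X hb ⟨by clear * - b2 b33 h2; omega, by clear * - h14; omega, by clear * - h15; omega⟩
          exact T0_4 X hb ⟨by clear * - h13; omega, by clear * - b11 b17 h3; omega, by clear * - h5; omega⟩
        rcases lt_or_ge (N - Q + i + b + l - m + 2*c + 2*d + U - V + 1) 0 with h16 | h16
        · rcases lt_or_ge (i + a - b) 0 with h17 | h17
          · rcases lt_or_ge (N + Q - i - a - m + c + d - V - 2) 0 with h18 | h18
            · exact T0_14 X hb (by clear * - h16 h17 h18; omega)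
            rcases lt_or_ge (-N - a + m - c - d + V) 0 with h19 | h19
            · exact T0_15 X hb (by have := kA 2 h19 (kA 2 h17 (kA 1 h16 (kC 1 b20 (kC 1 b17 (kC 1 b1 k0))))); clear * - this; omega)
            exact T0_6 X hb ⟨by clear * - h19; omega, by clear * - h18; omega, by have := kA 1 h16 (kB 1 h4 (kC 1 b33 (kC 1 b29 (kC 2 b17 (kC 1 b8 k0))))); clear * - this; omega⟩
          rcases lt_or_ge (-a + b - 1) 0 with h20 | h20
          · rcases lt_or_ge (i - b) 0 with h21 | h21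
            · rcases lt_or_ge (N - m + c + d + U - 2*V - 1) 0 with h22 | h22
              · rcases lt_or_ge (a + b + c - 1) 0 with h23 | h23
                · rcases lt_or_ge (-i - a - b - l + m - c - 2*d - U + V - 2) 0 with h24 | h24
                  · rcases lt_or_ge (N - a - b + l - m + 2*c + 2*d + U - V) 0 with h25 | h25
                    · rcases lt_or_ge (a + 2*b + c - 1) 0 with h26 | h26
                      · exact T0_20 X hb ⟨by have := kA 1 h26 (kA 1 h22 (kA 1 h21 (kA 1 h20 (kA 1 h3 (kA 1 h2 (kC 1 b33 (kC 1 b20 k0))))))); clear * - this; omega, by have := kA 4 h25 (kA 2 h24 (kA 3 h22 (kA 4 h21 (kA 6 h20 (kA 1 h3 (kA 4 h2 (kA 2 h1 (kC 4 b33 (kC 2 b20 k0))))))))); clear * - this; omega⟩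
                      exact T0_19 X hb ⟨by have := kB 1 h26 (kA 2 h23 (kA 1 h22 (kA 2 h20 (kA 1 h3 (kA 1 h2 (kC 1 b33 (kC 1 b20 k0))))))); clear * - this; omega, by have := kA 2 h25 (kA 2 h24 (kA 2 h21 (kA 2 h20 (kC 1 b33 (kC 1 b24 k0))))); clear * - this; omega, by have := kB 1 h26 (kA 1 h24 (kA 3 h22 (kA 1 h21 (kA 1 h20 (kA 3 h16 (kA 1 h3 (kA 4 h2 (kA 3 h1 (kC 1 b39 (kC 3 b38 k0)))))))))); clear * - this; omega, by clear * - h26; omega⟩
                    exact T0_8 X hb ⟨by clear * - h25; omega, by have := kB 8 h25 (kA 4 h24 (kA 6 h23 (kA 7 h22 (kA 4 h21 (kA 5 h16 (kB 17 h4 (kA 3 h3 (kA 9 h2 (kA 4 h1 (kC 5 b38 (kC 4 b33 k0))))))))))); clear * - this; omega⟩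
                  rcases lt_or_ge (2*N - Q + i - a - b + l - m + 3*c + 2*d + U - V + 1) 0 with h27 | h27
                  · exact T0_19 X hb ⟨by have := kB 2 h24 (kA 2 h23 (kA 3 h22 (kA 2 h20 (kB 2 h17 (kA 1 h3 (kA 2 h2 (kA 2 h1 (kC 2 b37 (kC 2 b20 k0))))))))); clear * - this; omega, by have := kA 2 h27 (kA 1 h23 (kA 2 h22 (kA 1 h21 (kA 4 h20 (kA 3 h2 (kA 2 h1 (kC 3 b33 (kC 1 b20 (kC 2 b4 k0))))))))); clear * - this; omega, by have := kA 1 h27 (kB 1 h24 (kA 2 h22 (kA 2 h21 (kB 2 h17 (kA 2 h2 (kA 2 h1 (kC 1 b38 (kC 1 b37 k0)))))))); clear * - this; omega, by have := kA 2 h27 (kA 3 h22 (kA 2 h21 (kA 4 h20 (kA 1 h3 (kA 4 h2 (kA 2 h1 (kC 4 b33 (kC 2 b20 (kC 2 b4 k0))))))))); clear * - this; omega⟩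
                  exact T0_18 X hb ⟨by clear * - h24; omega, by clear * - h27; omega, by have := kA 2 h23 (kA 2 h21 (kA 1 h20 (kB 1 h17 (kB 2 h4 (kA 2 h2 (kC 1 b35 (kC 1 b33 k0))))))); clear * - this; omega⟩
                exact T0_17 X hb ⟨by have := kA 1 h22 (kA 2 h20 (kA 1 h3 (kA 1 h2 (kC 1 b31 (kC 1 b20 k0))))); clear * - this; omega, by clear * - h23; omega⟩
              exact T0_16 X hb (by clear * - h22; omega)
            exact T0_10 X hb (by clear * - h21; omega)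
          exact T0_13 X hb ⟨by clear * - h17; omega, by clear * - h20; omega⟩
        exact T0_3 X hb ⟨by clear * - h16; omega, by clear * - h4; omega⟩
      rcases lt_or_ge (N + c + d - 1) 0 with h28 | h28
      · exact T0_16 X hb (by have := kA 1 h28 (kA 1 h2 (kC 1 b33 (kC 2 b2 k0))); clear * - this; omega)
      exact T0_2 X hb ⟨by clear * - h28; omega, by clear * - h3; omega, by clear * - b19 b20 h1; omega, by have := kB 2 h3 (kA 4 h1 (kC 1 b20 (kC 1 b19 k0))); clear * - this; omega⟩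
    exact T0_1 X hb (by clear * - h2; omega)
  exact T0_0 X hb (by clear * - h1; omega)


end Pool.Agent.MP_a38735_al.WL.E33
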