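import Pool.Agent.MP_a38735_al.AQ
import Pool.Agent.MP_a38735_al.LC

set_option autoImplicit false
set_option linter.unusedVariables false
set_option linter.unusedSimpArgs false

namespace Pool.Agent.MP_a38735_al.WL.E340

variable {G : Type*} [Group G]

structure C (W : ℤ → G) (N Q i a b l m c d L U V : ℤ) : Prop where
  al : AL W (2*N) Q
  a1 : Par W (0) (i + 2*a) (2*b)
  a2 : Par W (Q - 2*b) (i + 2*a) (2*b)
  s1 : Ant W (0) (i) (2*i + 2*a)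
  s2 : Ant W (i + 2*a + 1) (Q) (2*i + 2*a)
  bb : Par W (i + 1) (i + l + 1) (2*a + 2*b)
  c1 : Par W (i + l + 2*c + 2) (Q) (2*a + 2*b - 2*c)
  c2 : Par W (i + 2*a + 2*b + l + 2) (2*N) (-2*a - 2*b + 2*c)
  S2 : Ant W (i + l - m + 2*c + 1) (i + l + 2*c + 1) (2*i + 2*l + 2*c + 2)
  d1 : Par W (Q) (2*N + i + l - m + 2*c + 2*d) (-2*d)
  d2 : Par W (i + l + m + 3) (2*N) (2*N - 2*m + 2*c + 2*d - 2)
  t1 : Ant W (0) (-2*N + i + 2*l + 2*m + 2*U - 2*V + 4) (-4*N + 2*i + 4*l + 4*m + 4*U - 2*V + 8)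
  t2 : Ant W (-2*N + i + 2*l + 2*m + 2*U + 5) (Q) (-4*N + 2*i + 4*l + 4*m + 4*U - 2*V + 8)
  f1 : Par W (-2*N + i + 2*l + 2*m + 2*U - 2*V + 5) (Q) (4*N - 2*m + 2*c + 2*d + 2*V - 2)
  f2 : Par W (2*N + i + 2*l + 2*c + 2*d + 2*U + 3) (2*N) (-4*N + 2*m - 2*c - 2*d - 2*V + 2)
  f3 : Par W (i + l + m + 3) (i + 2*l + 2*m + 2*U + 4) (2*N - 2*m + 2*c + 2*d - 2)
  g1 : Par W (i + 1) (Q - l - 2*m + L - 2*U + 2*V - 1) (-2*N + 2*l + 2*m + 2*U - 2*V + 4)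
  g2 : Par W (i + 1) (-2*N - l - 2*c - 2*d + L - 2*U + 1) (-2*N + 2*l + 2*m + 2*U - 2*V + 4)
  g3 : Par W (2*N - l - m - L - 2*U - 4) (i + 2*a) (-2*N - 2*a + 2*l + 2*m + 2*U + 4)
  g4 : Par W (2*N + Q - 2*b - l - m - L - 2*U - 4) (i + 2*a) (-2*N - 2*a + 2*l + 2*m + 2*U + 4)
  n1 : Nd W (i + 2*a) (i) (i + 2*a + 2*b)
  n2 : Nd W (i + l + 1) (i + l + 2*c + 1) (i + 2*a + 2*b + l + 1)
  n3 : Nd W (2*N + i + l - m + 2*c) (i + l + m + 2) (2*N + i + l - m + 2*c + 2*d)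
  n4 : Nd W (-2*N + i + 2*l + 2*m + 2*U + 4) (-2*N + i + 2*l + 2*m + 2*U - 2*V + 4) (2*N + i + 2*l + 2*c + 2*d + 2*U + 2)
  lam : L2 W (2*N) L (i + 2*a) (i) (i + 2*a + 2*b) (-2*N + i + 2*l + 2*m + 2*U + 4) (-2*N + i + 2*l + 2*m + 2*U - 2*V + 4) (2*N + i + 2*l + 2*c + 2*d + 2*U + 2)

/-- the linear side conditions -/
structure B (N Q i a b l m c d L U V : ℤ) : Prop where
  b1 : 0 ≤ i
  b2 : 0 ≤ a
  b3 : i + 2*a + 1 ≤ Q
  b4 : Q ≤ i + 2*a + 2*b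
  b5 : i + 2*a + 2*b + 1 ≤ 2*N
  b6 : 0 ≤ i + l + 2*c + 1
  b7 : i + l + 2*c + 2 ≤ Q
  b8 : Q ≤ i + l + 1
  b9 : i + 2*a + 2*b + l + 2 ≤ 2*N
  b10 : Q + m ≤ 2*N + i + l + 2*c
  b11 : i + l + 2*c + 1 ≤ m
  b12 : Q ≤ i + l + m + 2
  b13 : i + l + m + 3 ≤ 2*N
  b14 : Q + m ≤ 2*N + i + l + 2*c + 2*d
  b15 : i + l + 2*c + 2*d + 1 ≤ m
  b16 : 0 ≤ l + m + 2*U + 1
  b17 : 0 ≤ V
  b18 : 2*N + 2*V ≤ i + 2*l + 2*m + 2*U + 4
  b19 : i + 2*l + 2*m + 2*U + 5 ≤ 2*N + Q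
  b20 : Q ≤ 2*N + i + 2*l + 2*c + 2*d + 2*U + 2
  b21 : i + 2*l + 2*c + 2*d + 2*U + 3 ≤ 0
  b22 : i + 2*a + L + 3 ≤ 2*N
  b23 : i + 2*a + 2*b + L + 3 ≤ 2*N + Q
  b24 : l + L + 3 ≤ 2*N
  b25 : 2*a + 2*b + L + 2 ≤ 2*N
  b26 : Q + L + 2*V ≤ i + 2*l + 2*m + 2*U + 2
  b27 : L ≤ 2*N + i + 2*l + 2*c + 2*d + 2*U
  b28 : l + m + L + 2*U + 4 ≤ 2*N
  b29 : 2*m + L + 4 ≤ 4*N + 2*c + 2*d
  b30 : 0 ≤ L
  b31 : i + 2*a ≤ L
  b32 : i + 2*a + 2*b ≤ Q + L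
  b33 : l ≤ L
  b34 : Q ≤ i + l + 2*c + L + 2
  b35 : 2*N ≤ i + 2*a + 2*b + l + L + 2
  b36 : 2*N ≤ i + l + m + L + 3
  b37 : 2*N + Q + 2*V ≤ i + 2*l + 2*m + L + 2*U + 5
  b38 : 0 ≤ i + 2*l + 2*c + 2*d + L + 2*U + 3
  b39 : l + m + 2*U + 1 ≤ L
  b40 : 2*l + m + L + 2*U + 4 ≤ 2*N
  b41 : 2*a + L ≤ 2*N + 2*l + 2*c + 2*d + 2*U
  b42 : 2*a + 2*b + L + 2*V ≤ 2*l + 2*m + 2*U + 2

variable {W : ℤ → G} {N Q i a b l m c d L U V Y : ℤ}

theorem T0_0 (X : C W N Q i a b l m c d L U V) (hb : B N Q i a b l m c d L U V)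
    (h : N + c ≤ m) :
    False := by
  have b6 := hb.b6
  have b13 := hb.b13
  have g1 := h
  have k1 : 1 ≤ N + c := by clear * - b6 b13 g1; omega
  clear * - X g1 k1
  exact X.al.ninv (-N + i + l + c + 1) (fin X.al.per (-1) _ (af X.S2 X.al.per 0 (N + i + l + c + 1) (rfl : W (-N + i + l + c + 1) = W (-N + i + l + c + 1)) (by omega)) (by omega))

theorem T0_1 (X : C W N Q i a b l m c d L U V) (hb : B N Q i a b l m c d L U V)
    (h : N + c + d + 2*V ≤ m ∧ i + 2*l + 3*m + 2*U + 6 ≤ 3*N + Q + c + d + 2*V) :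
    False := by
  have b17 := hb.b17
  obtain ⟨g1, g2⟩ := h
  have k1 : N + c + d ≤ m := by clear * - b17 g1; omega
  clear * - X g1 g2 k1
  exact X.al.ninv (-3*N + i + 2*l + 3*m - c - d + 2*U - 2*V + 5) (fin X.al.per 0 _ (pr X.f1 X.al.per (-1) (-3*N + i + 2*l + 3*m - c - d + 2*U - 2*V + 5) (af X.t2 X.al.per 0 (-N + i + 2*l + m + c + d + 2*U + 3) (rfl : W (-3*N + i + 2*l + 3*m - c - d + 2*U - 2*V + 5) = W (-3*N + i + 2*l + 3*m - c - d + 2*U - 2*V + 5)) (by omega)) (by omega)) (by omega))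

theorem T0_2 (X : C W N Q i a b l m c d L U V) (hb : B N Q i a b l m c d L U V)
    (h : 1 ≤ N + c + d ∧ N + c ≤ l + 2*m + d + 2*U + 2 ∧ N + c + 3*d ≤ m ∧ 0 ≤ l + m + 2*U) :
    False := by
  have b6 := hb.b6
  have b13 := hb.b13
  have b17 := hb.b17
  have b18 := hb.b18
  have b21 := hb.b21
  obtain ⟨g1, g2, g3, g4⟩ := h
  have k1 : N + c + d ≤ m := by clear * - b17 b18 b21; omega
  have k2 : d + 1 ≤ N + c := by clear * - b6 b13 g1 g3; omega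
  clear * - X g1 g2 g3 g4 k1 k2
  obtain ⟨K0, hL⟩ : ∃ K0 : ℤ, 2*N - 2*m + 2*c ≤ 2*K0 ∧ 2*N - 2*l - 4*m + 2*c - 4*U - 4 ≤ 2*K0 ∧ 2*N - 2*m + 2*c + 4*d ≤ 2*K0 ∧ 2*K0 + 2*(-N + m - c - d + 1) - 2 ≤ 2*N + 2*c - 2 ∧ 2*K0 + 2*(-N + m - c - d + 1) - 2 ≤ -2*N + 2*m - 2*c - 4*d ∧ 2*K0 + 2*(-N + m - c - d + 1) - 2 ≤ -2*N + 2*l + 4*m - 2*c + 4*U + 4 := ⟨((max (2*N - 2*m + 2*c + 4*d) (max (2*N - 2*l - 4*m + 2*c - 4*U - 4) (2*N - 2*m + 2*c))) + 1) / 2, by omega⟩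
  obtain ⟨R, hR1, hR2, hR⟩ := pw (A := 2*N + i + l - m + 2*c + 2*d + 1) (B := i + 2*l + 2*m + 2*U + 4) (γ := -N + m - c - d + 1) (by omega) (fun t h1 h2 => (fin X.al.per 0 _ (pr X.f3 X.al.per 0 (-2*N + 2*m - 2*c - 2*d + t + 2) (rfl : W (t) = W (t)) (by omega)) (by omega))) K0
  exact X.al.ninv (-N + i + l + c + R + 1) (fin X.al.per (-1) _ (pp hR X.al.per 0 (N + i + l + c + R + 1) (af X.S2 X.al.per 0 (N + i + l + c - R + 1) (rfl : W (-N + i + l + c + R + 1) = W (-N + i + l + c + R + 1)) (by omega)) (by omega)) (by omega))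

theorem T0_3 (X : C W N Q i a b l m c d L U V) (hb : B N Q i a b l m c d L U V)
    (h : 2*N + 2*c + d ≤ 2*m + 1 ∧ m + 2 ≤ 2*N + 2*c + d ∧ d + 1 ≤ 0 ∧ 0 ≤ l + m + d + 2*U + 1) :
    False := by
  obtain ⟨g1, g2, g3, g4⟩ := h
  clear * - X g1 g2 g3 g4
  exact X.al.ninv (-2*N + i + l + m - d + 2) (fin X.al.per (-1) _ (pr X.f3 X.al.per 0 (i + l + m - d + 2) (af X.S2 X.al.per 0 (2*N + i + l - m + 2*c + d) (rfl : W (-2*N + i + l + m - d + 2) = W (-2*N + i + l + m - d + 2)) (by omega)) (by omega)) (by omega))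

theorem T0_4 (X : C W N Q i a b l m c d L U V) (hb : B N Q i a b l m c d L U V)
    (h : b ≤ i + a ∧ a + 1 ≤ b) :
    False := by
  have b2 := hb.b2
  obtain ⟨g1, g2⟩ := h
  have k1 : 1 ≤ a + b := by clear * - b2 g2; omega
  clear * - X g1 g2 k1
  exact X.al.ninv (i + a - b) (fin X.al.per 0 _ (ar X.s1 X.al.per 0 (i + a - b) (pf X.a1 X.al.per 0 (i + a + b) (rfl : W (i + a - b) = W (i + a - b)) (by omega)) (by omega)) (by omega))

theorem T0_5 (X : C W N Q i a b l m c d L U V) (hb : B N Q i a b l m c d L U V)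
    (h : V ≤ 0 ∧ 0 ≤ l + m + d + 2*U + 2 ∧ l + m + d + 2*U + 2 ≤ 0) :
    False := by
  have b2 := hb.b2
  have b11 := hb.b11
  have b17 := hb.b17
  have b18 := hb.b18
  have b33 := hb.b33
  have b41 := hb.b41
  obtain ⟨g1, g2, g3⟩ := h
  have k1 : 2*N + 2*c ≤ l + 3*m + 2*U + 3 := by clear * - b11 b17 b18; omega
  have k2 : l + 2*m + 2*U + 4 ≤ 2*N + 2*c := by clear * - b2 b33 b41 g3; omega
  clear * - X g1 g2 g3 b17 k1 k2
  exact X.n4.tor ⟨(fin X.al.per 0 _ (rfl : W (-2*N + i + 2*l + 2*m + 2*U + 4) = W (-2*N + i + 2*l + 2*m + 2*U + 4)) (by omega)), (fin X.al.per 0 _ (af X.S2 X.al.per 0 (2*N + i - 2*m + 2*c - 2*U - 2) (rfl : W (-2*N + i + 2*l + 2*m + 2*U + 4) = W (-2*N + i + 2*l + 2*m + 2*U + 4)) (by omega)) (by omega))⟩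

theorem T0_6 (X : C W N Q i a b l m c d L U V) (hb : B N Q i a b l m c d L U V)
    (h : l + m + d + 2*U + 3 ≤ V) :
    False := by
  have b2 := hb.b2
  have b7 := hb.b7
  have b11 := hb.b11
  have b18 := hb.b18
  have b33 := hb.b33
  have b41 := hb.b41
  have g1 := h
  have k1 : 2*N + 2*c + d + V ≤ 2*m + 1 := by clear * - b11 b18 g1; omega
  have k2 : m + 2 ≤ 2*N + 2*c + d + V := by clear * - b2 b33 b41 g1; omega
  have k3 : i + l + m + 3 ≤ 2*N + Q + d + V := by clear * - b2 b7 b33 b41 g1; omega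
  clear * - X g1 k1 k2 k3
  exact X.al.ninv (-2*N + i + l + m - d - V + 2) (fin X.al.per 0 _ (pr X.f1 X.al.per 0 (-2*N + i + l + m - d - V + 2) (af X.S2 X.al.per 0 (2*N + i + l - m + 2*c + d + V) (rfl : W (-2*N + i + l + m - d - V + 2) = W (-2*N + i + l + m - d - V + 2)) (by omega)) (by omega)) (by omega))

theorem T0_7 (X : C W N Q i a b l m c d L U V) (hb : B N Q i a b l m c d L U V)
    (h : 2*N + i + 2*l + 4*c + 2*d + 2*U + 3 ≤ Q + 2*a + 2*b ∧ a + b + m + 2 ≤ 2*N + 2*c + d + V ∧ 2*N + Q + 2*c + 2*d + 2*V ≤ 2*m + 2) :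
    False := by
  have b7 := hb.b7
  have b27 := hb.b27
  have b38 := hb.b38
  obtain ⟨g1, g2, g3⟩ := h
  have k1 : N + 2*c + d + V ≤ a + b + m := by clear * - b27 b38 g1 g2 g3; omega
  clear * - X g1 g2 g3 b7 k1
  exact X.al.ubQ (4*N - 2*a - 2*b - 2*m + 4*c + 2*d + 2*V - 2) (by omega) (by omega) fun t h1 h2 => (fin X.al.per 0 _ (pf X.c2 X.al.per 0 (4*N - 2*a - 2*b - 2*m + 4*c + 2*d + 2*V + t - 2) (pf X.f1 X.al.per 0 (4*N - 2*m + 2*c + 2*d + 2*V + t - 2) (rfl : W (t) = W (t)) (by omega)) (by omega)) (by omega))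

theorem T0_8 (X : C W N Q i a b l m c d L U V) (hb : B N Q i a b l m c d L U V)
    (h : 2*N + b + V ≤ i + 2*l + 2*m + 2*U + 4 ∧ 2*l + 2*m + 2*U + 5 ≤ 2*N + 2*a + b + V ∧ V + 1 ≤ b) :
    False := by
  obtain ⟨g1, g2, g3⟩ := h
  clear * - X g1 g2 g3
  exact X.al.ninv (-2*N + i - b + 2*l + 2*m + 2*U - V + 4) (fin X.al.per 0 _ (ar X.t1 X.al.per 0 (-2*N + i - b + 2*l + 2*m + 2*U - V + 4) (pf X.a1 X.al.per 0 (-2*N + i + b + 2*l + 2*m + 2*U - V + 4) (rfl : W (-2*N + i - b + 2*l + 2*m + 2*U - V + 4) = W (-2*N + i - b + 2*l + 2*m + 2*U - V + 4)) (by omega)) (by omega)) (by omega))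

theorem T0_9 (X : C W N Q i a b l m c d L U V) (hb : B N Q i a b l m c d L U V)
    (h : a + l + m + U + 3 ≤ N + V ∧ 3*N + i + a + 2*c + 2*d + U + V ≤ m + L + 2) :
    False := by
  have b2 := hb.b2
  have b18 := hb.b18
  obtain ⟨g1, g2⟩ := h
  have k1 : N + V ≤ i + a + l + m + U + 2 := by clear * - b2 b18 g1; omega
  have k2 : l + m + U + 3 ≤ N + a + V := by clear * - b2 g1; omega
  clear * - X g1 g2 k1 k2
  exact X.al.ninv (-N + i + a + l + m + U - V + 2) (fin X.al.per 0 _ (pf X.g2 X.al.per 0 (-N + i + a + l + m + U - V + 2) (af X.s1 X.al.per 0 (N + i + a - l - m - U + V - 2) (rfl : W (-N + i + a + l + m + U - V + 2) = W (-N + i + a + l + m + U - V + 2)) (by omega)) (by omega)) (by omega))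

theorem T0_10 (X : C W N Q i a b l m c d L U V) (hb : B N Q i a b l m c d L U V)
    (h : b ≤ i) :
    False := by
  have b2 := hb.b2
  have b3 := hb.b3
  have b4 := hb.b4
  have b24 := hb.b24
  have b35 := hb.b35
  have g1 := h
  have k1 : 1 ≤ b := by clear * - b3 b4; omega
  have k2 : 1 ≤ 2*a + 3*b := by clear * - b2 b3 b4; omega
  have k3 : 1 ≤ i + 2*a := by clear * - b2 b24 b35 g1; omega
  clear * - X g1 k1 k2 k3
  obtain ⟨K0, hL⟩ : ∃ K0 : ℤ, -2*i - 2*a ≤ 2*K0 ∧ -2*a - 4*b + 2 ≤ 2*K0 ∧ 2*K0 + 2*(b) - 2 ≤ -2*a - 2 ∧ 2*K0 + 2*(b) - 2 ≤ 2*i + 2*a ∧ 2*K0 + 2*(b) - 2 ≤ 2*a + 4*b - 2 := ⟨((max (-2*a - 4*b + 2) (-2*i - 2*a)) + 1) / 2, by omega⟩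
  obtain ⟨R, hR1, hR2, hR⟩ := pw (A := 0) (B := i + 2*a + 2*b) (γ := b) (by omega) (fun t h1 h2 => (fin X.al.per 0 _ (pf X.a1 X.al.per 0 (2*b + t) (rfl : W (t) = W (t)) (by omega)) (by omega))) K0
  exact X.al.ninv (i + a + R) (fin X.al.per 0 _ (pp hR X.al.per 0 (i + a + R) (af X.s1 X.al.per 0 (i + a - R) (rfl : W (i + a + R) = W (i + a + R)) (by omega)) (by omega)) (by omega))

theorem T0_11 (X : C W N Q i a b l m c d L U V) (hb : B N Q i a b l m c d L U V)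
    (h : 2*N + 2*c + 2*d ≤ m ∧ i + l + 2*m + 4 ≤ 4*N + 2*c + 2*d ∧ l + m + d + 2*U + 2 ≤ V ∧ V ≤ l + m + d + 2*U + 2) :
    False := by
  have b7 := hb.b7
  have b18 := hb.b18
  obtain ⟨g1, g2, g3, g4⟩ := h
  have k1 : 2*V ≤ 2*N + l + 2*c + 2*d + 2*U := by clear * - b18 g2; omega
  have k2 : i + 3*l + 2*m + 2*c + 2*d + 4*U + 6 ≤ Q + 2*V := by clear * - b7 g3; omega
  clear * - X g1 g2 g3 g4 k1 k2
  exact X.n2.yx (sw (fin X.al.per 0 _ (ar X.t2 X.al.per 1 (i + 3*l + 2*m + 2*c + 2*d + 4*U - 2*V + 5) (pr X.d2 X.al.per 0 (-2*N + i + l + 2*m - 2*c - 2*d + 3) (rfl : W (i + l + 1) = W (i + l + 1)) (by omega)) (by omega)) (by omega)))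

theorem main (X : C W N Q i a b l m c d L U V) (hb : B N Q i a b l m c d L U V) : False := by
  have b2 := hb.b2
  have b3 := hb.b3
  have b4 := hb.b4
  have b7 := hb.b7
  have b11 := hb.b11
  have b13 := hb.b13
  have b17 := hb.b17
  have b18 := hb.b18
  have b21 := hb.b21
  have b31 := hb.b31
  have b32 := hb.b32
  have b33 := hb.b33
  have b38 := hb.b38
  have b39 := hb.b39
  have b40 := hb.b40
  have b41 := hb.b41
  rcases lt_or_ge (-N + m - c) 0 with h1 | h1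
  · rcases lt_or_ge (-N + m - c - d - 2*V) 0 with h2 | h2
    · exact T0_2 X hb ⟨by have := kA 1 h2 (kC 1 b40 (kC 1 b31 (kC 1 b18 (kC 2 b2 k0)))); clear * - this; omega, by clear * - b11 b18 h2; omega, by have := kA 3 h2 (kA 2 h1 (kC 3 b21 (kC 3 b18 k0))); clear * - this; omega, by have := kA 2 h2 (kC 1 b21 (kC 2 b18 (kC 1 b13 k0))); clear * - this; omega⟩
    rcases lt_or_ge (3*N + Q - i - 2*l - 3*m + c + d - 2*U + 2*V - 6) 0 with h3 | h3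
    · rcases lt_or_ge (l + m + d + 2*U + 1) 0 with h4 | h4
      · rcases lt_or_ge (i + a - b) 0 with h5 | h5
        · rcases lt_or_ge (-V) 0 with h6 | h6
          · exact T0_6 X hb (by clear * - h4 h6; omega)
          rcases lt_or_ge (l + m + d + 2*U + 2) 0 with h7 | h7
          · exact T0_6 X hb (by clear * - b17 h7; omega)
          exact T0_5 X hb ⟨by clear * - h6; omega, by clear * - h7; omega, by clear * - h4; omega⟩
        rcases lt_or_ge (-a + b - 1) 0 with h8 | h8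
        · rcases lt_or_ge (-2*N + Q - i + 2*a + 2*b - 2*l - 4*c - 2*d - 2*U - 3) 0 with h9 | h9
          · rcases lt_or_ge (b - V - 1) 0 with h10 | h10
            · exact T0_6 X hb (by have := kA 2 h10 (kA 2 h4 (kC 1 b4 (kC 1 b3 k0))); clear * - this; omega)
            rcases lt_or_ge (-2*N + i - b + 2*l + 2*m + 2*U - V + 4) 0 with h11 | h11
            · rcases lt_or_ge (N - a - l - m - U + V - 3) 0 with h12 | h12
              · rcases lt_or_ge (i - b) 0 with h13 | h13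
                · rcases lt_or_ge (l + m + d + 2*U - V + 2) 0 with h14 | h14
                  · exact T0_6 X hb (by clear * - h14; omega)
                  exact T0_11 X hb ⟨by have := kA 1 h4 (kA 1 h3 (kA 1 h1 (kC 2 b17 (kC 1 b7 k0)))); clear * - this; omega, by have := kA 1 h11 (kB 1 h10 (kA 2 h8 (kC 1 b41 (kC 1 b33 k0)))); clear * - this; omega, by clear * - b17 h4; omega, by clear * - h14; omega⟩
                exact T0_10 X hb (by clear * - h13; omega)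
              rcases lt_or_ge (-3*N - i - a + m - 2*c - 2*d + L - U - V + 2) 0 with h15 | h15
              · exact T0_10 X hb (by have := kB 2 h12 (kA 1 h8 (kB 1 h5 (kC 1 b18 k0))); clear * - this; omega)
              exact T0_9 X hb ⟨by clear * - h12; omega, by clear * - h15; omega⟩
            exact T0_8 X hb ⟨by clear * - h11; omega, by have := kB 3 h10 (kA 1 h9 (kA 2 h8 (kA 2 h4 (kC 4 b17 (kC 2 b7 (kC 1 b4 k0)))))); clear * - this; omega, by clear * - h10; omega⟩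
          exact T0_7 X hb ⟨by clear * - h9; omega, by have := kA 1 h8 (kA 1 h4 (kC 1 b41 (kC 1 b33 (kC 1 b17 k0)))); clear * - this; omega, by have := kA 1 h4 (kA 1 h3 (kA 1 h1 (kC 1 b11 k0))); clear * - this; omega⟩
        exact T0_4 X hb ⟨by clear * - h5; omega, by clear * - h8; omega⟩
      rcases lt_or_ge (2*N - m + 2*c + d - 2) 0 with h16 | h16
      · exact T0_10 X hb (by have := kA 3 h16 (kA 1 h3 (kA 3 h1 (kC 3 b40 (kC 2 b38 (kC 1 b32 (kC 2 b17 (kC 2 b2 k0))))))); clear * - this; omega)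
      exact T0_3 X hb ⟨by have := kA 2 h3 (kC 1 b40 (kC 1 b39 (kC 4 b17 (kC 1 b7 (kC 1 b3 (kC 2 b2 k0)))))); clear * - this; omega, by clear * - h16; omega, by clear * - b17 h1 h2; omega, by clear * - h4; omega⟩
    exact T0_1 X hb ⟨by clear * - h2; omega, by clear * - h3; omega⟩
  exact T0_0 X hb (by clear * - h1; omega)


end Pool.Agent.MP_a38735_al.WL.E340
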