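import Pool.Agent.MP_a38735_al.E342h

set_option autoImplicit false
set_option linter.unusedVariables false
set_option linter.unusedSimpArgs false

namespace Pool.Agent.MP_a38735_al.WL.E342

variable {G : Type*} [Group G]

variable {W : ℤ → G} {N Q i a b l m c d L U V Y : ℤ}

theorem T0_113 (X : C W N Q i a b l m c d L U V Y) (hb : B N Q i a b l m c d L U V Y)
    (h : i + 4*a + 4*b ≤ Q + 2*m + 2*c + 2*Y + 1 ∧ Q + 4*a + 4*b ≤ 2*N + 2*c ∧ i + l + 1 ≤ Q + m + 2*Y ∧ Q + 4*a + 4*b ≤ i + l + 2*m + 2*c + 2*Y + 3 ∧ m + c + Y + 2 ≤ 2*a + 2*b) :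
    False := by
  have b7 := hb.b7
  have b11 := hb.b11
  have b17 := hb.b17
  have b18 := hb.b18
  have b33 := hb.b33
  have b39 := hb.b39
  have b41 := hb.b41
  have b43 := hb.b43
  obtain ⟨g1, g2, g3, g4, g5⟩ := h
  have k1 : i + 2*a + 2*b + l ≤ Q + 2*m + 2*Y := by clear * - b7 b11 b17 b18 b33 b41 g1 g3; omega
  have k2 : 2*a + 2*b ≤ N + m + c + Y := by clear * - b39 b41 b43 g1 g3 g4 g5; omega
  clear * - X g1 g2 g3 g4 g5 k1 k2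
  exact X.al.ubQ (4*a + 4*b - 2*m - 2*c - 2*Y - 2) (by omega) (by omega) fun t h1 h2 => (fin X.al.per 0 _ (pr X.g0 X.al.per 0 (4*a + 4*b - 2*m - 2*c - 2*Y + t - 2) (pr X.c2 X.al.per 0 (4*a + 4*b - 2*c + t) (pf X.bb X.al.per 0 (2*a + 2*b + t) (rfl : W (t) = W (t)) (by omega)) (by omega)) (by omega)) (by omega))

theorem T0_115 (X : C W N Q i a b l m c d L U V Y) (hb : B N Q i a b l m c d L U V Y)
    (h : V ≤ 0 ∧ l + 2*m + 2*U + 4 ≤ 2*N + 2*c ∧ l + m + 2*d + 2*U + 3 ≤ 0 ∧ 0 ≤ N + l + c + 2*d + 2*U + 1 ∧ N + l + c + 2*d + 2*U + 1 ≤ 0) :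
    False := by
  have b11 := hb.b11
  have b17 := hb.b17
  have b18 := hb.b18
  have b21 := hb.b21
  obtain ⟨g1, g2, g3, g4, g5⟩ := h
  have k1 : 2*N + 2*c ≤ l + 3*m + 2*U + 3 := by clear * - b11 b17 b18; omega
  have k2 : i + 1 ≤ 2*N + 2*d + 2*U := by clear * - b21 g4; omega
  clear * - X g1 g2 g3 g4 g5 b17 k1 k2
  exact X.n4.tor ⟨(fin X.al.per 0 _ (rfl : W (-2*N + i + 2*l + 2*m + 2*U + 4) = W (-2*N + i + 2*l + 2*m + 2*U + 4)) (by omega)), (fin X.al.per 0 _ (pr X.d2 X.al.per 0 (i - 2*d - 2*U) (af X.S2 X.al.per 0 (2*N + i - 2*m + 2*c - 2*U - 2) (rfl : W (-2*N + i + 2*l + 2*m + 2*U + 4) = W (-2*N + i + 2*l + 2*m + 2*U + 4)) (by omega)) (by omega)) (by omega))⟩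

theorem T0_117 (X : C W N Q i a b l m c d L U V Y) (hb : B N Q i a b l m c d L U V Y)
    (h : 2*N + b + V ≤ i + 2*l + 2*m + 2*U + 4 ∧ 2*l + 2*m + 2*U + 5 ≤ 2*N + 2*a + b + V ∧ V + 1 ≤ b) :
    False := by
  obtain ⟨g1, g2, g3⟩ := h
  clear * - X g1 g2 g3
  exact X.al.ninv (-2*N + i - b + 2*l + 2*m + 2*U - V + 4) (fin X.al.per 0 _ (ar X.t1 X.al.per 0 (-2*N + i - b + 2*l + 2*m + 2*U - V + 4) (pf X.a1 X.al.per 0 (-2*N + i + b + 2*l + 2*m + 2*U - V + 4) (rfl : W (-2*N + i - b + 2*l + 2*m + 2*U - V + 4) = W (-2*N + i - b + 2*l + 2*m + 2*U - V + 4)) (by omega)) (by omega)) (by omega))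

theorem T0_119 (X : C W N Q i a b l m c d L U V Y) (hb : B N Q i a b l m c d L U V Y)
    (h : 3*N + 3*c + 2*d ≤ a + b + 2*m + 1 ∧ 3*N + a + b + 3*c + 2*d ≤ 3*m + 2 ∧ 2*m + 3 ≤ 3*N + a + b + 3*c + 2*d ∧ 0 ≤ N + a + b + l + c + 2*d + 2*U ∧ a + b + m + 2 ≤ N + c) :
    False := by
  have b2 := hb.b2
  have b21 := hb.b21
  have b39 := hb.b39
  have b44 := hb.b44
  obtain ⟨g1, g2, g3, g4, g5⟩ := h
  have k1 : a + b + 2*m + 2 ≤ 3*N + l + 3*c + 2*d := by clear * - b2 b39 b44 g5; omega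
  have k2 : i + l + c + 2 ≤ N + a + b := by clear * - b21 g4; omega
  clear * - X g1 g2 g3 g4 g5 k1 k2
  exact X.al.ninv (3*N + i - a - b + l - 2*m + 3*c + 2*d - 1) (fin X.al.per 0 _ (pf X.d2 X.al.per 0 (3*N + i - a - b + l - 2*m + 3*c + 2*d - 1) (pf X.f3 X.al.per (-1) (N + i - a - b + l + c + 1) (ar X.S2 X.al.per 0 (-3*N + i - a - b + l + 2*m - c - 2*d + 3) (pf X.bb X.al.per 0 (3*N + i + a + b + l - 2*m + 3*c + 2*d - 1) (rfl : W (3*N + i - a - b + l - 2*m + 3*c + 2*d - 1) = W (3*N + i - a - b + l - 2*m + 3*c + 2*d - 1)) (by omega)) (by omega)) (by omega)) (by omega)) (by omega))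

theorem T0_120 (X : C W N Q i a b l m c d L U V Y) (hb : B N Q i a b l m c d L U V Y)
    (h : N + b ≤ i + l + m + 2 ∧ l + m + 3 ≤ N + 2*a + b ∧ N + Q ≤ i + b + l + m + 2 ∧ b + 2*m + 3 ≤ 3*N + 2*c + 2*d ∧ N + 2*d + 1 ≤ b ∧ m + 2 ≤ N + b + 2*c) :
    False := by
  have b11 := hb.b11
  obtain ⟨g1, g2, g3, g4, g5, g6⟩ := h
  have k1 : i + b + l + m + 3 ≤ 3*N + 2*d := by clear * - b11 g4; omega
  have k2 : N + b + 2*c ≤ 2*m + 1 := by clear * - b11 g1; omega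
  clear * - X g1 g2 g3 g4 g5 g6 k1 k2
  exact X.al.ninv (-N + i - b + l + m + 2) (fin X.al.per 0 _ (ar X.S2 X.al.per 0 (-N + i - b + l + m + 2) (pf X.d2 X.al.per 0 (N + i + b + l - m + 2*c) (pf X.d1 X.al.per 0 (-N + i + b + l + m - 2*d + 2) (pf X.a1 X.al.per 0 (-N + i + b + l + m + 2) (rfl : W (-N + i - b + l + m + 2) = W (-N + i - b + l + m + 2)) (by omega)) (by omega)) (by omega)) (by omega)) (by omega))

theorem T0_121 (X : C W N Q i a b l m c d L U V Y) (hb : B N Q i a b l m c d L U V Y)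
    (h : i + l + 2*m + 4 ≤ 2*N + Q + 2*c ∧ N + 2*c ≤ m ∧ i + l + m + 2*d + 3 ≤ Q + 2*a + 2*b ∧ Q + 2*a + 2*b + 3*m + 2 ≤ 4*N + i + l + 6*c + 2*d ∧ Q + 2*m + 1 ≤ 2*N + i + l + 4*c) :
    False := by
  have b2 := hb.b2
  have b3 := hb.b3
  have b4 := hb.b4
  have b11 := hb.b11
  have b34 := hb.b34
  have b40 := hb.b40
  have b41 := hb.b41
  have b42 := hb.b42
  have b43 := hb.b43
  obtain ⟨g1, g2, g3, g4, g5⟩ := h
  have k1 : Q + 2*a + 2*b + 2*m + 2 ≤ 4*N + 4*c + 2*d := by clear * - b11 g4; omega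
  have k2 : 0 ≤ a + b := by clear * - b2 b3 b4; omega
  have k3 : i + 1 ≤ Q := by clear * - b2 b3; omega
  have k4 : m + 2 ≤ 2*N + 2*c := by clear * - b34 b40 b41 b42 b43 g1; omega
  clear * - X g1 g2 g3 g4 g5 k1 k2 k3 k4
  exact X.al.ubQ (-2*N + 2*m - 4*c + 2) (by omega) (by omega) fun t h1 h2 => (fin X.al.per 0 _ (pr X.bb X.al.per 0 (-2*N + 2*m - 4*c + t + 2) (pr X.d1 X.al.per 0 (-2*N + 2*a + 2*b + 2*m - 4*c + t + 2) (pr X.d2 X.al.per 0 (-2*N + 2*a + 2*b + 2*m - 4*c - 2*d + t + 2) (pf X.c1 X.al.per 0 (2*a + 2*b - 2*c + t) (rfl : W (t) = W (t)) (by omega)) (by omega)) (by omega)) (by omega)) (by omega))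

theorem T0_122 (X : C W N Q i a b l m c d L U V Y) (hb : B N Q i a b l m c d L U V Y)
    (h : c ≤ m + d + V ∧ 2*N + c + 3*d + V ≤ m ∧ 2*N + Q + c + d + V ≤ i + l + 2*m + 3 ∧ 3*m + 4 ≤ 4*N + 3*c + 3*d + V ∧ i + l + c + d + V + 2 ≤ 0) :
    False := by
  have b6 := hb.b6
  have b17 := hb.b17
  have b39 := hb.b39
  have b41 := hb.b41
  have b42 := hb.b42
  obtain ⟨g1, g2, g3, g4, g5⟩ := h
  have k1 : d + V + 1 ≤ c := by clear * - b6 g5; omega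
  have k2 : l + c + d + 2*U + 2 ≤ V := by clear * - b17 b39 b41 b42 g1 g2; omega
  clear * - X g1 g2 g3 g4 g5 k1 k2
  exact X.al.ninv (i + l + c + d + V + 1) (fin X.al.per (-1) _ (pr X.f2 X.al.per 0 (2*N + i + l + c + d + V + 1) (pr X.d1 X.al.per 0 (-2*N + i + l + 2*m - c - d - V + 3) (pr X.d2 X.al.per 0 (-2*N + i + l + 2*m - c - 3*d - V + 3) (af X.S2 X.al.per 0 (i + l + c - d - V + 1) (rfl : W (i + l + c + d + V + 1) = W (i + l + c + d + V + 1)) (by omega)) (by omega)) (by omega)) (by omega)) (by omega))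

theorem T0_123 (X : C W N Q i a b l m c d L U V Y) (hb : B N Q i a b l m c d L U V Y)
    (h : i + 2*l + 2*c + 2*U + 3 ≤ Q + 2*a + 2*b + 2*Y ∧ a + b + m + Y + 2 ≤ N + c + V ∧ 2*N + Q + 2*c + 2*d + 2*V ≤ 2*m + 2 ∧ i + l + 1 ≤ Q + m + 2*Y ∧ Q + 2*c + 2*V ≤ 2*a + 2*b ∧ 2*N + Q + 2*c + 2*V ≤ i + 2*a + 2*b + l + 2*m + 2*Y + 3) :
    False := by
  have b7 := hb.b7
  have b14 := hb.b14
  have b39 := hb.b39
  have b41 := hb.b41
  have b42 := hb.b42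
  have b43 := hb.b43
  obtain ⟨g1, g2, g3, g4, g5, g6⟩ := h
  have k1 : i + l + 2 ≤ 2*N + Q + 2*d + 2*Y := by clear * - b7 b14 g4; omega
  have k2 : c + V ≤ a + b + m + Y := by clear * - b39 b41 b42 b43 g2 g4 g6; omega
  clear * - X g1 g2 g3 g4 g5 g6 k1 k2
  exact X.al.ubQ (2*N - 2*a - 2*b - 2*m + 2*c + 2*V - 2*Y - 2) (by omega) (by omega) fun t h1 h2 => (fin X.al.per 0 _ (pr X.g0 X.al.per 0 (2*N - 2*a - 2*b - 2*m + 2*c + 2*V - 2*Y + t - 2) (pr X.d2 X.al.per 0 (2*N - 2*a - 2*b + 2*c + 2*V + t) (pf X.c2 X.al.per 0 (4*N - 2*a - 2*b - 2*m + 4*c + 2*d + 2*V + t - 2) (pf X.f1 X.al.per 0 (4*N - 2*m + 2*c + 2*d + 2*V + t - 2) (rfl : W (t) = W (t)) (by omega)) (by omega)) (by omega)) (by omega)) (by omega))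

theorem T0_124 (X : C W N Q i a b l m c d L U V Y) (hb : B N Q i a b l m c d L U V Y)
    (h : i + 2*m + 2*c + 2*Y + 3 ≤ Q + 2*a + 2*b ∧ i + l + m + 2*c + 3 ≤ Q + 4*a + 4*b ∧ Q + 2*a + 2*b ≤ i + l + 1 ∧ Q + 2*a + 2*b + 2*m + 2*Y + 2 ≤ 2*N ∧ a + b ≤ m + c + Y) :
    False := by
  have b4 := hb.b4
  have b11 := hb.b11
  have b17 := hb.b17
  have b18 := hb.b18
  have b33 := hb.b33
  have b39 := hb.b39
  have b41 := hb.b41
  have b42 := hb.b42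
  have b43 := hb.b43
  obtain ⟨g1, g2, g3, g4, g5⟩ := h
  have k1 : i + l + 2*c + 2 ≤ Q + 2*a + 2*b := by clear * - b11 b17 b18 b33 b41 g1 g2 g5; omega
  have k2 : Q + 2*m + 2*c + 2*Y + 1 ≤ i + 2*a + 2*b + l := by clear * - b4 g1 g3; omega
  have k3 : m + c + Y + 2 ≤ N + a + b := by clear * - b39 b41 b42 b43 g2 g3 g5; omega
  clear * - X g1 g2 g3 g4 g5 k1 k2 k3
  exact X.al.ubQ (-2*a - 2*b + 2*m + 2*c + 2*Y + 2) (by omega) (by omega) fun t h1 h2 => (fin X.al.per 0 _ (pr X.bb X.al.per 0 (-2*a - 2*b + 2*m + 2*c + 2*Y + t + 2) (pf X.c2 X.al.per 0 (2*m + 2*c + 2*Y + t + 2) (pf X.g0 X.al.per 0 (2*a + 2*b + 2*m + 2*Y + t + 2) (pf X.bb X.al.per 0 (2*a + 2*b + t) (rfl : W (t) = W (t)) (by omega)) (by omega)) (by omega)) (by omega)) (by omega))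

theorem T0_125 (X : C W N Q i a b l m c d L U V Y) (hb : B N Q i a b l m c d L U V Y)
    (h : i + a + b + l + c + d + V + 1 ≤ m ∧ a + b + m + 2 ≤ 2*N + 3*c + d + V ∧ l + m + c + d + 2*U + 3 ≤ a + b + V) :
    False := by
  have b7 := hb.b7
  have b8 := hb.b8
  have b11 := hb.b11
  have b18 := hb.b18
  obtain ⟨g1, g2, g3⟩ := h
  have k1 : a + b + m + 2 ≤ 2*N + c + d + V := by clear * - b7 b8 g2; omega
  have k2 : 2*N + 3*c + d + V ≤ a + b + 2*m + 1 := by clear * - b11 b18 g3; omega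
  have k3 : i + a + b + l + m + 3 ≤ 2*N + Q + c + d + V := by clear * - b7 g2; omega
  clear * - X g1 g2 g3 k1 k2 k3
  exact X.al.ninv (2*N + i + a + b + l - m + c + d + V) (fin X.al.per 0 _ (pf X.f1 X.al.per 0 (2*N + i + a + b + l - m + c + d + V) (ar X.S2 X.al.per 0 (-2*N + i + a + b + l + m - c - d - V + 2) (pf X.c2 X.al.per 0 (2*N + i - a - b + l - m + 3*c + d + V) (rfl : W (2*N + i + a + b + l - m + c + d + V) = W (2*N + i + a + b + l - m + c + d + V)) (by omega)) (by omega)) (by omega)) (by omega))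

theorem T0_126 (X : C W N Q i a b l m c d L U V Y) (hb : B N Q i a b l m c d L U V Y)
    (h : i + 2*a + 2*b + l + m + 3 ≤ 2*N ∧ 2*N + 2*a + 2*b ≤ i + l + 2*m + 2*Y + 3) :
    False := by
  have b2 := hb.b2
  have b3 := hb.b3
  have b4 := hb.b4
  have b39 := hb.b39
  have b40 := hb.b40
  have b41 := hb.b41
  have b42 := hb.b42
  have b43 := hb.b43
  obtain ⟨g1, g2⟩ := h
  have k1 : i + 2*a + 2*b + 2*m + 2*Y + 3 ≤ 2*N := by clear * - b42 g1; omega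
  have k2 : 1 ≤ a + b := by clear * - b2 b3 b4; omega
  have k3 : a + b + 1 ≤ N := by clear * - b39 b40 b41 b42 b43 g1 g2; omega
  clear * - X g1 g2 k1 k2 k3
  exact X.al.ubP (2*a + 2*b) (by omega) (by omega) fun t h1 h2 => (fin X.al.per (-1) _ (pf X.g0 X.al.per 0 (2*N + 2*a + 2*b + t) (pf X.bb X.al.per 0 (2*N + 2*a + 2*b - 2*m - 2*Y + t - 2) (pr X.g0 X.al.per (-1) (2*N - 2*m - 2*Y + t - 2) (rfl : W (t) = W (t)) (by omega)) (by omega)) (by omega)) (by omega))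

theorem T0_127 (X : C W N Q i a b l m c d L U V Y) (hb : B N Q i a b l m c d L U V Y)
    (h : 2*N + i + 2*l + 4*c + 2*d + 2*U + 3 ≤ Q + 4*a + 4*b ∧ 2*N + Q + 2*c + 2*d + 2*V ≤ 2*m + 2 ∧ 4*N + Q + 4*c + 2*d + 2*V ≤ i + 4*a + 4*b + l + 2*m + 3 ∧ 2*a + 2*b + m + 2 ≤ 2*N + 2*c + d + V) :
    False := by
  have b2 := hb.b2
  have b3 := hb.b3
  have b7 := hb.b7
  have b33 := hb.b33
  have b38 := hb.b38
  have b40 := hb.b40
  have b41 := hb.b41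
  have b42 := hb.b42
  have b43 := hb.b43
  have b44 := hb.b44
  obtain ⟨g1, g2, g3, g4⟩ := h
  have k1 : i + l + 2*c + 2 ≤ Q + 2*a + 2*b := by clear * - b2 b7 b33 b44 g1; omega
  have k2 : i + 1 ≤ Q := by clear * - b2 b3; omega
  have k3 : N + 2*c + d + V ≤ 2*a + 2*b + m := by clear * - b38 b40 b41 b42 b43 g1 g2; omega
  clear * - X g1 g2 g3 g4 k1 k2 k3
  exact X.al.ubQ (4*N - 4*a - 4*b - 2*m + 4*c + 2*d + 2*V - 2) (by omega) (by omega) fun t h1 h2 => (fin X.al.per 0 _ (pr X.bb X.al.per 0 (4*N - 4*a - 4*b - 2*m + 4*c + 2*d + 2*V + t - 2) (pf X.c2 X.al.per 0 (4*N - 2*a - 2*b - 2*m + 4*c + 2*d + 2*V + t - 2) (pr X.f2 X.al.per 0 (4*N - 2*m + 2*c + 2*d + 2*V + t - 2) (rfl : W (t) = W (t)) (by omega)) (by omega)) (by omega)) (by omega))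

theorem T0_128 (X : C W N Q i a b l m c d L U V Y) (hb : B N Q i a b l m c d L U V Y)
    (h : N + 2*a + 2*b + d ≤ l + m + c + 1 ∧ i + 2*a + 2*b + l + m + 3 ≤ 3*N + c + d ∧ N + c + d + 1 ≤ 2*a + 2*b ∧ m + 2 ≤ N + 2*a + 2*b + c + d) :
    False := by
  have b1 := hb.b1
  have b7 := hb.b7
  have b11 := hb.b11
  have b14 := hb.b14
  obtain ⟨g1, g2, g3, g4⟩ := h
  have k1 : m + c + 2 ≤ N + 2*a + 2*b + d := by clear * - b7 b14 g3; omega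
  have k2 : N + 2*a + 2*b + c + d ≤ 2*m + 1 := by clear * - b1 b11 g1; omega
  clear * - X g1 g2 g3 g4 k1 k2
  exact X.al.ninv (-N + i - 2*a - 2*b + l + m + c - d + 2) (fin X.al.per 0 _ (ar X.S2 X.al.per 0 (-N + i - 2*a - 2*b + l + m + c - d + 2) (pf X.d2 X.al.per 0 (N + i + 2*a + 2*b + l - m + c + d) (pr X.c2 X.al.per 0 (-N + i + 2*a + 2*b + l + m - c - d + 2) (pf X.bb X.al.per 0 (-N + i + l + m + c - d + 2) (rfl : W (-N + i - 2*a - 2*b + l + m + c - d + 2) = W (-N + i - 2*a - 2*b + l + m + c - d + 2)) (by omega)) (by omega)) (by omega)) (by omega)) (by omega))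

theorem T0_129 (X : C W N Q i a b l m c d L U V Y) (hb : B N Q i a b l m c d L U V Y)
    (h : a ≤ 0 ∧ 2*a ≤ l + 2*c ∧ 2*N + 2*a + 2*d ≤ l + m + 1 ∧ l + 3*m + 5 ≤ 4*N + 2*a + 2*c + 2*d ∧ l + m + 2 ≤ N + 2*a + b ∧ N + 2*a + b ≤ l + m + 2) :
    False := by
  have b1 := hb.b1
  have b2 := hb.b2
  have b4 := hb.b4
  have b11 := hb.b11
  obtain ⟨g1, g2, g3, g4, g5, g6⟩ := h
  have k1 : l + 2*c + 1 ≤ 2*a + m := by clear * - b1 b2 b11; omega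
  have k2 : i + 2*l + 2*m + 5 ≤ 4*N + 2*a + 2*d := by clear * - b11 g4; omega
  have k3 : 2*N + Q + 2*a ≤ i + 2*l + 2*m + 4 := by clear * - b4 g6; omega
  clear * - X g1 g2 g3 g4 g5 g6 b2 k1 k2 k3
  exact X.n1.tor ⟨(fin X.al.per 0 _ (rfl : W (i + 2*a) = W (i + 2*a)) (by omega)), (fin X.al.per 0 _ (pr X.d1 X.al.per 0 (-2*N + i - 2*a + 2*l + 2*m + 4) (pr X.d2 X.al.per 0 (-2*N + i - 2*a + 2*l + 2*m - 2*d + 4) (af X.S2 X.al.per 0 (i - 2*a + 2*l + 2*c + 2) (rfl : W (i + 2*a) = W (i + 2*a)) (by omega)) (by omega)) (by omega)) (by omega))⟩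

theorem T0_130 (X : C W N Q i a b l m c d L U V Y) (hb : B N Q i a b l m c d L U V Y)
    (h : N + a + b ≤ l + m + 1 ∧ a + b + 2*m + 3 ≤ 3*N + 2*c + 2*d ∧ N + 2*d + 1 ≤ a + b ∧ m + 2 ≤ N + a + b + 2*c) :
    False := by
  have b1 := hb.b1
  have b4 := hb.b4
  have b7 := hb.b7
  have b11 := hb.b11
  have b14 := hb.b14
  obtain ⟨g1, g2, g3, g4⟩ := h
  have k1 : m + 2 ≤ N + a + b := by clear * - b7 b14 g3; omega
  have k2 : N + Q ≤ i + a + b + l + m + 2 := by clear * - b4 g1; omega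
  have k3 : i + a + b + l + m + 3 ≤ 3*N + 2*d := by clear * - b11 g2; omega
  have k4 : N + a + b + 2*c ≤ 2*m + 1 := by clear * - b1 b11 g1; omega
  clear * - X g1 g2 g3 g4 k1 k2 k3 k4
  exact X.al.ninv (-N + i - a - b + l + m + 2) (fin X.al.per 0 _ (ar X.S2 X.al.per 0 (-N + i - a - b + l + m + 2) (pf X.d2 X.al.per 0 (N + i + a + b + l - m + 2*c) (pf X.d1 X.al.per 0 (-N + i + a + b + l + m - 2*d + 2) (pf X.bb X.al.per 0 (-N + i + a + b + l + m + 2) (rfl : W (-N + i - a - b + l + m + 2) = W (-N + i - a - b + l + m + 2)) (by omega)) (by omega)) (by omega)) (by omega)) (by omega))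

theorem T0_131 (X : C W N Q i a b l m c d L U V Y) (hb : B N Q i a b l m c d L U V Y)
    (h : 2*N + 2*c + d + V ≤ a + b + 2*m + Y + 1 ∧ 2*m + Y + 3 ≤ 2*N + a + b + 2*c + d + V ∧ a + b + l + d + 2*U + 2 ≤ V + Y ∧ a + b + m + 2 ≤ 2*N + 2*c + d + V + Y) :
    False := by
  have b7 := hb.b7
  have b11 := hb.b11
  have b18 := hb.b18
  have b42 := hb.b42
  obtain ⟨g1, g2, g3, g4⟩ := h
  have k1 : a + b + 2*m + Y + 2 ≤ 2*N + l + 2*c + d + V := by clear * - b42 g4; omega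
  have k2 : 2*N + a + b + 2*c + d + V ≤ 3*m + Y + 2 := by clear * - b11 b18 g3; omega
  have k3 : i + l + 2*m + Y + 4 ≤ 2*N + Q + a + b + d + V := by clear * - b7 g2; omega
  clear * - X g1 g2 g3 g4 k1 k2 k3
  exact X.al.ninv (2*N + i - a - b + l - 2*m + 2*c + d + V - Y - 1) (fin X.al.per 0 _ (pr X.g0 X.al.per 0 (2*N + i - a - b + l - 2*m + 2*c + d + V - Y - 1) (pf X.f1 X.al.per 0 (2*N + i - a - b + l + 2*c + d + V + Y + 1) (ar X.S2 X.al.per 0 (-2*N + i - a - b + l + 2*m - d - V + Y + 3) (pf X.bb X.al.per 0 (2*N + i + a + b + l - 2*m + 2*c + d + V - Y - 1) (rfl : W (2*N + i - a - b + l - 2*m + 2*c + d + V - Y - 1) = W (2*N + i - a - b + l - 2*m + 2*c + d + V - Y - 1)) (by omega)) (by omega)) (by omega)) (by omega)) (by omega))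

theorem T0_132 (X : C W N Q i a b l m c d L U V Y) (hb : B N Q i a b l m c d L U V Y)
    (h : N + 2*a + 2*b + d + V ≤ l + m + c + 1 ∧ N + i + l + 3*c + d + V + 1 ≤ m ∧ 1 ≤ N + c + d + V ∧ N + 2*a + 2*b + c + d + V ≤ m) :
    False := by
  have b4 := hb.b4
  have b13 := hb.b13
  have b17 := hb.b17
  have b19 := hb.b19
  have b29 := hb.b29
  have b35 := hb.b35
  have b41 := hb.b41
  have b43 := hb.b43
  obtain ⟨g1, g2, g3, g4⟩ := h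
  have k1 : m + c + 2 ≤ N + 2*a + 2*b + d + V := by clear * - b17 b29 b35 g2; omega
  have k2 : l + m + d + 2*U + 3 ≤ N + c + V := by clear * - b4 b17 b19 g1; omega
  have k3 : N + c + d + V ≤ m := by clear * - b35 b41 b43 g1 g2; omega
  have k4 : i + l + m + 3 ≤ 3*N + c + d + V := by clear * - b13 g3; omega
  clear * - X g1 g2 g3 g4 k1 k2 k3 k4
  exact X.al.ninv (-N + i - 2*a - 2*b + l + m + c - d - V + 2) (fin X.al.per 0 _ (pf X.c2 X.al.per 0 (-N + i - 2*a - 2*b + l + m + c - d - V + 2) (af X.S2 X.al.per 1 (-N + i + l + m - c - d - V + 2) (pr X.f2 X.al.per 0 (3*N + i + l - m + 3*c + d + V) (pf X.bb X.al.per 0 (-N + i + l + m + c - d - V + 2) (rfl : W (-N + i - 2*a - 2*b + l + m + c - d - V + 2) = W (-N + i - 2*a - 2*b + l + m + c - d - V + 2)) (by omega)) (by omega)) (by omega)) (by omega)) (by omega))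

theorem T0_133 (X : C W N Q i a b l m c d L U V Y) (hb : B N Q i a b l m c d L U V Y)
    (h : Q + m + 2*Y ≤ i + l + 1 ∧ 2*N + 2*c ≤ 3*m + 2*Y + 3 ∧ 3*m + 2*Y + 3 ≤ 2*N + 2*c ∧ 2*N + 2*c + 2*d ≤ m + 1 ∧ a + b + 1 ≤ N + c + d + Y) :
    False := by
  have b2 := hb.b2
  have b3 := hb.b3
  have b4 := hb.b4
  have b33 := hb.b33
  have b42 := hb.b42
  have b43 := hb.b43
  have b44 := hb.b44
  obtain ⟨g1, g2, g3, g4, g5⟩ := h
  have k1 : 1 ≤ N + c + d + Y := by clear * - b2 b3 b4 g5; omega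
  have k2 : 0 ≤ 2*N + l + 2*c + 2*d + 2*U := by clear * - b2 b33 b44; omega
  have k3 : 2*N + 2*c + 2*d ≤ 2*a + 2*b + m + 1 := by clear * - b2 b3 b4 g4; omega
  have k4 : 2*a + 2*b ≤ 2*N + l + 2*c + 2*d + 2*U := by clear * - b43 g5; omega
  have k5 : Q + m + 2*Y ≤ i + 2*a + 2*b + l + 1 := by clear * - b4 b42; omega
  clear * - X g1 g2 g3 g4 g5 b42 k1 k2 k3 k4 k5
  obtain ⟨φ, H, T, ht, h0⟩ := exH X.al (i + l + 1)
  obtain ⟨Dbb, hbb⟩ := ht.par X.bb (by omega)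
  obtain ⟨Dd1, hd1⟩ := ht.par X.d1 (by omega)
  obtain ⟨Df3, hf3⟩ := ht.par X.f3 (by omega)
  have e1 := hbb 0 0 (i + l + 1) (i + 2*a + 2*b + l + 1) (by omega)
  have e2 := hbb 0 0 (i + l - m - 2*Y + 1) (i + 2*a + 2*b + l - m - 2*Y + 1) (by omega)
  have e3 := hd1 0 0 (i + l - m - 2*Y + 1) (-2*N + i + l + 2*m - 2*c - 2*d + 4) (by omega)
  have e4 := hf3 0 0 (-2*N + i + l + 2*m - 2*c - 2*d + 4) (i + l + 2) (by omega)
  have e5 := hf3 0 0 (-2*N + i + 2*a + 2*b + l + 2*m - 2*c - 2*d + 4) (i + 2*a + 2*b + l + 2) (by omega)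
  have e6 := hd1 0 0 (i + 2*a + 2*b + l - m - 2*Y + 1) (-2*N + i + 2*a + 2*b + l + 2*m - 2*c - 2*d + 4) (by omega)
  have e7 := ht.lt (i + l + 1) 0 0 (i + l + 1) (i + l + 2) (by omega)
  have e8 := ht.lt (i + 2*a + 2*b + l + 1) 0 0 (i + 2*a + 2*b + l + 1) (i + 2*a + 2*b + l + 2) (by omega)
  have t1 := ht.tri X.n2
  omega

theorem T0_134 (X : C W N Q i a b l m c d L U V Y) (hb : B N Q i a b l m c d L U V Y)
    (h : i + 2*a + 2*b + l + 2*d + 1 ≤ m ∧ 2*N + 2*a + 2*b + 2*d ≤ 3*m + 2*Y + 2 ∧ i + 2*a + 2*b + l + 2*c + 2*d + 2*Y + 2 ≤ 0 ∧ N + a + b + c + d ≤ m ∧ m + c + Y + 2 ≤ a + b ∧ L + 2 ≤ 2*N + 2*d + 2*Y ∧ i + 2*a + 2*b + l + L + 3 ≤ 4*N + 2*c + 2*d + 2*Y ∧ m + L + 3 ≤ 2*N + 2*a + 2*b + 2*d + 2*Y ∧ i + l + m + L + 4 ≤ 4*N + 2*c + 2*d + 2*Y) :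
    False := by
  have b36 := hb.b36
  have b41 := hb.b41
  have b42 := hb.b42
  have b43 := hb.b43
  obtain ⟨g1, g2, g3, g4, g5, g6, g7, g8, g9⟩ := h
  have k1 : a + b ≤ N + m + c + Y := by clear * - b36 b41 b42 b43 g1 g8 g9; omega
  clear * - X g1 g2 g3 g4 g5 g6 g7 g8 g9 k1
  exact absurd (X.lam.mx (max (i - 2*a - 2*b + l + m + 2*c + 3) (i + l + 2*c + 2)) (min (4*N - 2*a - 2*b + 4*c + 2*d + 2*Y) (min (2*N + i + l + 2*c + 2*d + 2*Y + 1) (4*N - 2*m + 2*c + 2*d - 2))) (2*a + 2*b - 2*m - 2*c - 2*Y - 2) (by omega) (by omega) fun t h1 h2 => by (try simp only [max_le_iff, lt_min_iff] at h1 h2); exact (lt_or_ge t (min (i - 2*a - 2*b + l + 2*m + 2*c + 2*Y + 3) (2*N - 2*a - 2*b + 2*c))).elim (fun u0 => by (try simp only [lt_min_iff] at u0); exact (fin X.al.per 0 _ (pr X.g0 X.al.per 0 (2*a + 2*b - 2*m - 2*c - 2*Y + t - 2) (pr X.c2 X.al.per 0 (2*a + 2*b -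 2*c + t) (rfl : W (t) = W (t)) (by omega)) (by omega)) (by omega))) (fun u0 => (fin X.al.per 0 _ (pf X.d2 X.al.per 0 (2*a + 2*b - 2*m - 2*c - 2*Y + t - 2) (pr X.c2 X.al.per 0 (-2*N + 2*a + 2*b - 4*c - 2*d - 2*Y + t) (pr X.g0 X.al.per 0 (-2*N - 2*c - 2*d - 2*Y + t) (pr X.d2 X.al.per 0 (-2*N + 2*m - 2*c - 2*d + t + 2) (rfl : W (t) = W (t)) (by omega)) (by omega)) (by omega)) (by omega)) (by omega)))) (by omega)

theorem T0_135 (X : C W N Q i a b l m c d L U V Y) (hb : B N Q i a b l m c d L U V Y)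
    (h : i + l + m + 2*d + 3 ≤ Q ∧ 0 ≤ m + d + Y ∧ Q + 3*m + 2*Y + 2 ≤ 2*N + i + l + 2*c) :
    False := by
  have b8 := hb.b8
  have b21 := hb.b21
  have b25 := hb.b25
  have b35 := hb.b35
  have b43 := hb.b43
  obtain ⟨g1, g2, g3⟩ := h
  have k1 : m + d + Y + 2 ≤ N := by clear * - b21 b25 b35 b43 g1 g2 g3; omega
  clear * - X g1 g2 g3 b8 k1
  exact X.al.ubQ (2*m + 2*d + 2*Y + 2) (by omega) (by omega) fun t h1 h2 => (fin X.al.per 0 _ (pr X.d1 X.al.per 0 (2*m + 2*d + 2*Y + t + 2) (pf X.g0 X.al.per 0 (2*m + 2*Y + t + 2) (rfl : W (t) = W (t)) (by omega)) (by omega)) (by omega))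

theorem T0_137 (X : C W N Q i a b l m c d L U V Y) (hb : B N Q i a b l m c d L U V Y)
    (h : N ≤ i + 2*a + b + m + Y + 1 ∧ 2*a + b + m + Y + 2 ≤ N ∧ N + 2*a + b ≤ l + m + Y + 1) :
    False := by
  have b2 := hb.b2
  have b3 := hb.b3
  have b4 := hb.b4
  have b13 := hb.b13
  obtain ⟨g1, g2, g3⟩ := h
  have k1 : b + m + Y + 2 ≤ N := by clear * - b2 g2; omega
  have k2 : N ≤ b + l + m + Y + 1 := by clear * - b2 b3 b4 g3; omega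
  have k3 : l + 2 ≤ N + 2*a + b + Y := by clear * - b13 g1; omega
  clear * - X g1 g2 g3 k1 k2 k3
  exact X.al.ninv (-N + i + 2*a + b + m + Y + 1) (fin X.al.per (-1) _ (pf X.g0 X.al.per 0 (N + i + 2*a + b + m + Y + 1) (pf X.bb X.al.per 0 (N + i + 2*a + b - m - Y - 1) (af X.s1 X.al.per 0 (N + i - b - m - Y - 1) (rfl : W (-N + i + 2*a + b + m + Y + 1) = W (-N + i + 2*a + b + m + Y + 1)) (by omega)) (by omega)) (by omega)) (by omega))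

theorem T0_138 (X : C W N Q i a b l m c d L U V Y) (hb : B N Q i a b l m c d L U V Y)
    (h : 1 ≤ N + 2*d + V ∧ N + Q + V ≤ i + l + m + 2 ∧ 2*m + 3 ≤ 3*N + 2*c + 2*d + V ∧ N + i + l + 2*c + 2*d + V + 1 ≤ m) :
    False := by
  have b6 := hb.b6
  have b17 := hb.b17
  have b39 := hb.b39
  have b41 := hb.b41
  have b42 := hb.b42
  obtain ⟨g1, g2, g3, g4⟩ := h
  have k1 : N + 2*d + V ≤ m := by clear * - b6 g4; omega
  have k2 : l + m + 2*U + 3 ≤ N + V := by clear * - b17 b39 b41 b42; omega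
  clear * - X g1 g2 g3 g4 k1 k2
  exact X.al.ninv (N + i + l - m + 2*c + 2*d + V) (fin X.al.per (-1) _ (pr X.f2 X.al.per 0 (3*N + i + l - m + 2*c + 2*d + V) (pr X.d1 X.al.per 0 (-N + i + l + m - V + 2) (af X.S2 X.al.per 0 (-N + i + l + m - 2*d - V + 2) (rfl : W (N + i + l - m + 2*c + 2*d + V) = W (N + i + l - m + 2*c + 2*d + V)) (by omega)) (by omega)) (by omega)) (by omega))

theorem T0_140 (X : C W N Q i a b l m c d L U V Y) (hb : B N Q i a b l m c d L U V Y)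
    (h : N + a + b + c + d + V ≤ m ∧ a + b + l + m + d + 2*U + 3 ≤ N + c + V ∧ N + i + l + 3*c + d + V + 1 ≤ a + b + m ∧ a + b + 1 ≤ N + c + d + V) :
    False := by
  have b6 := hb.b6
  have b13 := hb.b13
  obtain ⟨g1, g2, g3, g4⟩ := h
  have k1 : i + a + b + l + m + 3 ≤ 3*N + c + d + V := by clear * - b13 g4; omega
  have k2 : N + c + d + V ≤ a + b + m := by clear * - b6 g3; omega
  clear * - X g1 g2 g3 g4 k1 k2
  exact X.al.ninv (-N + i + a + b + l + m - c - d - V + 2) (fin X.al.per 0 _ (af X.S2 X.al.per 1 (-N + i + a + b + l + m - c - d - V + 2) (pr X.f2 X.al.per 0 (3*N + i - a - b + l - m + 3*c + d + V) (pf X.c2 X.al.per 0 (-N + i - a - b + l + m + c - d - V + 2) (rfl : W (-N + i + a + b + l + m - c - d - V + 2) = W (-N + i + a + b + l + m - c - d - V + 2)) (by omega)) (by omega)) (by omega)) (by omega))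

theorem T0_141 (X : C W N Q i a b l m c d L U V Y) (hb : B N Q i a b l m c d L U V Y)
    (h : m + 1 ≤ 2*N + c + 2*d + V ∧ 2*N + c + 2*d + V ≤ m + 1) :
    False := by
  have b11 := hb.b11
  have b17 := hb.b17
  have b29 := hb.b29
  have b39 := hb.b39
  obtain ⟨g1, g2⟩ := h
  have k1 : l + m + 2*d + 2*U + 3 ≤ 0 := by clear * - b17 b29 b39 g2; omega
  clear * - X g1 g2 k1 b11
  exact X.n3.yz (fin X.al.per 0 _ (pf X.f2 X.al.per 0 (-2*N + i + l + m - 2*d - 2*V + 2) (rfl : W (2*N + i + l - m + 2*c) = W (2*N + i + l - m + 2*c)) (by omega)) (by omega)).symm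

theorem T0_142 (X : C W N Q i a b l m c d L U V Y) (hb : B N Q i a b l m c d L U V Y)
    (h : 4*N + i + 2*l + 4*c + 4*d + 2*U + 1 ≤ Q + 2*a + 2*b + 2*m ∧ a + b + 2*m + 3 ≤ 3*N + 2*c + 2*d + V ∧ 2*N + i + l + 2*c + 2*d + 1 ≤ Q + 2*a + 2*b + m ∧ 2*N + Q + 2*c + 2*d + 2*V ≤ 2*m + 2 ∧ 6*N + Q + 4*c + 4*d + 2*V ≤ i + 2*a + 2*b + l + 4*m + 5) :
    False := by
  have b2 := hb.b2
  have b3 := hb.b3
  have b38 := hb.b38
  have b40 := hb.b40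
  have b41 := hb.b41
  have b42 := hb.b42
  have b43 := hb.b43
  obtain ⟨g1, g2, g3, g4, g5⟩ := h
  have k1 : i + 1 ≤ Q := by clear * - b2 b3; omega
  have k2 : 2*N + 2*c + 2*d + V ≤ a + b + 2*m + 1 := by clear * - b38 b40 b41 b42 b43 g1 g4; omega
  clear * - X g1 g2 g3 g4 g5 k1 k2
  exact X.al.ubQ (6*N - 2*a - 2*b - 4*m + 4*c + 4*d + 2*V - 4) (by omega) (by omega) fun t h1 h2 => (fin X.al.per 0 _ (pr X.bb X.al.per 0 (6*N - 2*a - 2*b - 4*m + 4*c + 4*d + 2*V + t - 4) (pf X.d2 X.al.per 0 (6*N - 4*m + 4*c + 4*d + 2*V + t - 4) (pf X.f1 X.al.per 0 (4*N - 2*m + 2*c + 2*d + 2*V + t - 2) (rfl : W (t) = W (t)) (by omega)) (by omega)) (by omega)) (by omega))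

theorem T0_143 (X : C W N Q i a b l m c d L U V Y) (hb : B N Q i a b l m c d L U V Y)
    (h : a + 2*m + Y + 3 ≤ 2*N + c + d ∧ 2*N + i + a + c + d ≤ Q + 2*m + Y + 1 ∧ a + Y ≤ 2*l + c + d + 2*U + 1 ∧ l + m + 3 ≤ 2*N + a + c + d + Y) :
    False := by
  have b8 := hb.b8
  have b17 := hb.b17
  have b18 := hb.b18
  have b21 := hb.b21
  obtain ⟨g1, g2, g3, g4⟩ := h
  have k1 : l + c + d + 1 ≤ a + m + Y := by clear * - b17 b18 b21 g4; omega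
  have k2 : 2*N + a + c + d ≤ l + 2*m + Y + 2 := by clear * - b8 g2; omega
  clear * - X g1 g2 g3 g4 k1 k2
  exact X.al.ninv (2*N + i + a - 2*m + c + d - Y - 2) (fin X.al.per 0 _ (pr X.g0 X.al.per 0 (2*N + i + a - 2*m + c + d - Y - 2) (pf X.f3 X.al.per (-1) (2*N + i + a + c + d + Y) (af X.s2 X.al.per 0 (-2*N + i + a + 2*m - c - d + Y + 2) (rfl : W (2*N + i + a - 2*m + c + d - Y - 2) = W (2*N + i + a - 2*m + c + d - Y - 2)) (by omega)) (by omega)) (by omega)) (by omega))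

theorem T0_144 (X : C W N Q i a b l m c d L U V Y) (hb : B N Q i a b l m c d L U V Y)
    (h : 2*N + c + d ≤ i + a + 2*m + Y + 2 ∧ a + 2*m + Y + 3 ≤ 2*N + c + d ∧ l + m + 3 ≤ 2*N + a + c + d + Y ∧ 2*N + a + c + d ≤ l + 2*m + Y + 2 ∧ a + Y ≤ 2*l + c + d + 2*U + 1) :
    False := by
  have b21 := hb.b21
  obtain ⟨g1, g2, g3, g4, g5⟩ := h
  have k1 : l + c + d + 1 ≤ a + m + Y := by clear * - b21 g1 g3 g5; omega
  clear * - X g1 g2 g3 g4 g5 k1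
  exact X.al.ninv (-2*N + i + a + 2*m - c - d + Y + 2) (fin X.al.per (-1) _ (pr X.f3 X.al.per 0 (i + a + 2*m - c - d + Y + 2) (pf X.g0 X.al.per 0 (2*N + i + a + c + d + Y) (af X.s1 X.al.per 0 (2*N + i + a - 2*m + c + d - Y - 2) (rfl : W (-2*N + i + a + 2*m - c - d + Y + 2) = W (-2*N + i + a + 2*m - c - d + Y + 2)) (by omega)) (by omega)) (by omega)) (by omega))

theorem T0_148 (X : C W N Q i a b l m c d L U V Y) (hb : B N Q i a b l m c d L U V Y)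
    (h : a + b ≤ N + c + d + Y ∧ N + c + d + Y ≤ a + b ∧ N + a + b + c + d ≤ m ∧ i + 2*a + 2*b + l + 2*c + 2*d + 2*Y + 2 ≤ 0 ∧ 2*N + 2*a + 2*b + 2*d ≤ l + 2*m + 2 ∧ i + 2*a + 2*b + 2*d + 2*Y + 1 ≤ 0 ∧ i + l + 3*m + 5 ≤ 4*N + 2*c + 2*d ∧ 3*m + 4 ≤ 2*N + 2*d ∧ 0 ≤ m + c + Y ∧ 2*N + 2*a + 2*b + 2*c + 2*d + L ≤ 4*m + 2*Y + 2 ∧ i + 2*a + 2*b + l + 2*c + 2*d + L + 1 ≤ 2*m ∧ 2*N + 2*a + 2*b + 2*d + L ≤ l + 4*m + 2*Y + 3 ∧ i + 2*a + 2*b + 2*d + L ≤ 2*m) :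
    False := by
  have b11 := hb.b11
  have b38 := hb.b38
  have b39 := hb.b39
  have b41 := hb.b41
  have b42 := hb.b42
  have b43 := hb.b43
  obtain ⟨g1, g2, g3, g4, g5, g6, g7, g8, g9, g10, g11, g12, g13⟩ := h
  have k1 : i + 2*a + 2*b + l + 2*m + 4 ≤ 6*N + 4*c + 4*d + 2*Y := by clear * - b11 b39 b41 b42 b43 g1 g7 g8 g9; omega
  have k2 : a + b + m + 2 ≤ 2*N + c + 2*d + Y := by clear * - b11 b38 b41 b42 g1 g8; omega
  have k3 : m + c + Y + 2 ≤ N := by clear * - b39 b41 b42 b43 g2 g8 g9 g10; omega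
  clear * - X g1 g2 g3 g4 g5 g6 g7 g8 g9 g10 g11 g12 g13 k1 k2 k3
  exact absurd (X.lam.mx (max (i + 2*a + 2*b - 2*m - 2*c - 2*Y - 1) (max (i + 2*a + 2*b + l - 2*m - 2*Y) (i + l - m - 2*Y + 1))) (min (-2*N + i + 2*a + 2*b + l - 4*c - 2*d - 2*Y + 1) (min (-2*c - 2*d - 2*Y) (min (-2*N + i + l + 2*m - 2*c - 2*d + 3) (2*N)))) (2*m + 2*c + 2*Y + 2) (by omega) (by omega) fun t h1 h2 => by (try simp only [max_le_iff, lt_min_iff] at h1 h2); exact (lt_or_ge t (min (i + 2*a + 2*b + l - 2*m - 2*c - 2*Y - 1) (min (2*N - 2*m - 2*Y - 2) (i + l + 1)))).elim (fun u0 => by (try simp only [lt_min_iff] at u0); exact (fin X.al.per 0 _ (pf X.bb X.al.per 0 (2*m + 2*c + 2*Y + t + 2) (pf X.c2 X.al.per 0 (-2*a - 2*b + 2*m + 2*c + 2*Y + t + 2) (pf X.g0 X.al.per 0 (2*m + 2*Y + t + 2) (rfl : W (t) = W (t)) (by omega)) (by omega)) (by omega)) (by omega))) (fun u0 => (lt_or_ge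 t (min (2*N + i + l - 2*m + 2*d - 1) (min (2*N + i + 2*a + 2*b + l - 2*m + 2*d - 1) (4*N - 2*m + 2*c + 2*d - 2)))).elim (fun u1 => by (try simp only [lt_min_iff] at u1); exact (fin X.al.per 0 _ (pf X.bb X.al.per 0 (-2*N + 2*a + 2*b + 2*m - 2*d + t + 2) (pf X.bb X.al.per 0 (-2*N + 2*m - 2*d + t + 2) (pf X.c2 X.al.per 0 (-2*N - 2*a - 2*b + 2*m - 2*d + t + 2) (pr X.d2 X.al.per 0 (-2*N + 2*m - 2*c - 2*d + t + 2) (rfl : W (t) = W (t)) (by omega)) (by omega)) (by omega)) (by omega)) (by omega))) (fun u1 => (fin X.al.per 0 _ (pf X.g0 X.al.per 0 (2*N - 2*a - 2*b + 2*m + 4*c + 2*d + 4*Y + t + 2) (pf X.c2 X.al.per 0 (2*N - 2*a - 2*b + 4*c + 2*d + 2*Y + t) (pf X.g0 X.al.per 0 (2*N + 2*c + 2*d + 2*Y + t) (pf X.d2 X.al.per 0 (2*N - 2*m + 2*c + 2*d + t - 2) (rfl : W (t) = W (t)) (by omega)) (by omega)) (by omega)) (by omega)) (by omega))))) (by omega)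

theorem T0_149 (X : C W N Q i a b l m c d L U V Y) (hb : B N Q i a b l m c d L U V Y)
    (h : b + 2*m + Y + 2 ≤ 2*N + i + a + c + d + V ∧ l + m + 3 ≤ 2*N + a + b + c + d + V + Y ∧ 2*N + a + b + c + d + V ≤ l + 2*m + Y + 2 ∧ 2*l + c + d + 2*U + 3 ≤ a + b + V + Y ∧ i + a + b + c + d + V + Y + 1 ≤ 0 ∧ 2*N + a + c + d + V ≤ b + 2*m + Y + 1) :
    False := by
  have b2 := hb.b2
  obtain ⟨g1, g2, g3, g4, g5, g6⟩ := h
  have k1 : 2*N + c + d + V ≤ a + b + 2*m + Y + 1 := by clear * - b2 g6; omega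
  clear * - X g1 g2 g3 g4 g5 g6 k1
  exact X.al.ninv (2*N + i + a - b - 2*m + c + d + V - Y - 2) (fin X.al.per 0 _ (ar X.s1 X.al.per 0 (2*N + i + a - b - 2*m + c + d + V - Y - 2) (pf X.f2 X.al.per 0 (-2*N + i + a + b + 2*m - c - d - V + Y + 2) (pf X.g0 X.al.per 0 (2*N + i + a + b + c + d + V + Y) (pf X.a1 X.al.per 0 (2*N + i + a + b - 2*m + c + d + V - Y - 2) (rfl : W (2*N + i + a - b - 2*m + c + d + V - Y - 2) = W (2*N + i + a - b - 2*m + c + d + V - Y - 2)) (by omega)) (by omega)) (by omega)) (by omega)) (by omega))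

theorem T0_151 (X : C W N Q i a b l m c d L U V Y) (hb : B N Q i a b l m c d L U V Y)
    (h : 0 ≤ l + 2*c ∧ i + 4*a + 4*b + l + 2 ≤ 2*N ∧ 2*a + 2*b ≤ m + Y ∧ 2*N + m + 2*c + 2*d + 2*Y + 2 ≤ 4*a + 4*b ∧ a + b ≤ N + c + d + Y ∧ N + c + d + Y ≤ a + b) :
    False := by
  have b7 := hb.b7
  have b11 := hb.b11
  have b14 := hb.b14
  have b38 := hb.b38
  have b41 := hb.b41
  obtain ⟨g1, g2, g3, g4, g5, g6⟩ := h
  have k1 : c + 1 ≤ 0 := by clear * - b7 b14 g3 g4; omega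
  have k2 : 1 ≤ a + b := by clear * - b11 b38 b41 g1 g4; omega
  clear * - X g1 g2 g3 g4 g5 g6 k1 k2
  exact X.n2.xz (fin X.al.per 0 _ (pr X.d2 X.al.per 0 (-2*N + i + 4*a + 4*b + l - 2*c - 2*d - 2*Y + 1) (pr X.g0 X.al.per 0 (i + 4*a + 4*b + l - 2*m - 2*Y - 1) (pr X.c2 X.al.per 0 (i + 4*a + 4*b + l + 1) (pf X.bb X.al.per 0 (i + 2*a + 2*b + l + 2*c + 1) (rfl : W (i + l + 2*c + 1) = W (i + l + 2*c + 1)) (by omega)) (by omega)) (by omega)) (by omega)) (by omega)).symm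

theorem T0_152 (X : C W N Q i a b l m c d L U V Y) (hb : B N Q i a b l m c d L U V Y)
    (h : N + c + d + Y ≤ b ∧ b ≤ N + c + d + Y ∧ l + 2*c + 2 ≤ 2*a ∧ i + 2*a + 4*b + l + 2 ≤ 2*N ∧ a + 2*b ≤ m + Y ∧ l + m + 2*c + 3 ≤ 4*a + 2*b ∧ i + 2*b + l + m + 3 ≤ 2*N ∧ 2*b ≤ m + 2*Y ∧ i + l + 2*c + 2 ≤ 2*b ∧ i + l + m + 2*c + 3 ≤ 2*a + 4*b ∧ Q + 2*a + 2*b ≤ 2*N + 2*c) :
    False := by
  have b17 := hb.b17
  have b18 := hb.b18
  have b19 := hb.b19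
  have b21 := hb.b21
  have b39 := hb.b39
  have b44 := hb.b44
  obtain ⟨g1, g2, g3, g4, g5, g6, g7, g8, g9, g10, g11⟩ := h
  have k1 : m + c + Y + 2 ≤ a + 2*b := by clear * - b39 b44 g1 g6; omega
  have k2 : a + 2*b ≤ N + m + c + Y := by clear * - b17 b18 b19 b21 g2 g11; omega
  clear * - X g1 g2 g3 g4 g5 g6 g7 g8 g9 g10 g11 k1 k2
  exact X.al.uqU (2*a + 4*b - 2*m - 2*c - 2*Y - 2) (by omega) (by omega) fun t h1 h2 => by (try simp only [max_le_iff, lt_min_iff] at h1 h2); exact (lt_or_ge t (min (i - 2*a - 4*b + l + 2*m + 2*c + 2*Y + 3) (min (2*N - 2*a - 4*b + 2*c) (i + 2*a)))).elim (fun u0 => by (try simp only [lt_min_iff] at u0); exact (fin X.al.per 0 _ (pr X.g0 X.al.per 0 (2*a + 4*b - 2*m - 2*c - 2*Y + t - 2) (pr X.c2 X.al.per 0 (2*a + 4*b - 2*c + t) (pf X.a1 X.al.per 0 (2*b + t) (rfl : W (t) = W (t)) (by omega)) (by omega)) (by omega)) (by omega)))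 (fun u0 => (fin X.al.per 0 _ (pf X.d2 X.al.per 0 (2*N + 2*a + 2*b - 2*m + 2*d + t - 2) (pr X.c2 X.al.per 0 (2*a + 2*b - 2*c + t) (rfl : W (t) = W (t)) (by omega)) (by omega)) (by omega)))

theorem T0_153 (X : C W N Q i a b l m c d L U V Y) (hb : B N Q i a b l m c d L U V Y)
    (h : b + 2*m + Y + 3 ≤ 2*N + c + d ∧ i + l + 1 ≤ 2*b + m + 2*Y ∧ 4*N + 2*c + 2*d ≤ i + l + 4*m + 2*Y + 5 ∧ 4*N + 2*c + 2*d ≤ i + 2*a + 2*b + 4*m + 2*Y + 4) :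
    False := by
  have b21 := hb.b21
  have b39 := hb.b39
  have b41 := hb.b41
  have b42 := hb.b42
  have b43 := hb.b43
  obtain ⟨g1, g2, g3, g4⟩ := h
  have k1 : 2*N + i + l + 2*c + 2*d ≤ 2*b + 3*m + 2*Y + 1 := by clear * - b21 b43 g2 g3; omega
  have k2 : N + c + d ≤ b + 2*m + Y + 1 := by clear * - b39 b41 b42 b43 g1 g2 g3; omega
  clear * - X g1 g2 g3 g4 k1 k2
  exact X.al.ubP (4*N - 2*b - 4*m + 2*c + 2*d - 2*Y - 4) (by omega) (by omega) fun t h1 h2 => (fin X.al.per 0 _ (pr X.a1 X.al.per 0 (4*N - 2*b - 4*m + 2*c + 2*d - 2*Y + t - 4) (pr X.g0 X.al.per 0 (4*N - 4*m + 2*c + 2*d - 2*Y + t - 4) (pf X.d2 X.al.per (-1) (4*N - 2*m + 2*c + 2*d + t - 2) (rfl : W (t) = W (t)) (by omega)) (by omega)) (by omega)) (by omega))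

theorem T0_154 (X : C W N Q i a b l m c d L U V Y) (hb : B N Q i a b l m c d L U V Y)
    (h : i + 2*a + 2*b + l + m + 3 ≤ 2*N ∧ 2*a + 2*b ≤ m + 2*Y ∧ N + c + d + Y + 1 ≤ a + b ∧ i + 2*m + L + 4 ≤ 4*N + 2*c + 2*d ∧ L + 1 ≤ 2*N + l + 2*c + 2*d + 2*Y ∧ i + l + m + L + 4 ≤ 2*N + 2*a + 2*b ∧ L + 1 ≤ 2*a + 2*b + m + 2*Y) :
    False := by
  have b39 := hb.b39
  have b41 := hb.b41
  have b42 := hb.b42
  have b43 := hb.b43
  obtain ⟨g1, g2, g3, g4, g5, g6, g7⟩ := h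
  have k1 : i + 2*a + 2*b + 2*m + 2*Y + 3 ≤ 2*N := by clear * - b42 g1; omega
  have k2 : 2*a + 2*b ≤ l := by clear * - b42 g2; omega
  have k3 : a + b + 1 ≤ 2*N + c + d + Y := by clear * - b39 b41 b43 g2 g5 g7; omega
  clear * - X g1 g2 g3 g4 g5 g6 g7 k1 k2 k3
  exact absurd (X.lam.mx (max (2*N + i - 2*a - 2*b + l - m + 2*c + 2*d + 1) (i + 1)) (min (2*N + i + l + 2*c + 2*d + 2*Y + 1) (4*N - 2*m + 2*c + 2*d - 2)) (-2*N + 2*a + 2*b - 2*c - 2*d - 2*Y) (by omega) (by omega) fun t h1 h2 => by (try simp only [max_le_iff, lt_min_iff] at h1 h2); exact (lt_or_ge t (min (2*N + i - 2*a - 2*b + l + 2*c + 2*d + 2*Y + 1) (min (4*N - 2*a - 2*b - 2*m + 2*c + 2*d - 2) (i + l + 1)))).elim (fun u0 => by (try simp only [lt_min_iff] at u0); exact (fin X.al.per 0 _ (pr X.g0 X.al.per 0 (-2*N + 2*a + 2*b - 2*c - 2*d - 2*Y + t) (pr X.d2 X.al.per 0 (-2*N + 2*a + 2*b + 2*m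 - 2*c - 2*d + t + 2) (pf X.bb X.al.per 0 (2*a + 2*b + t) (rfl : W (t) = W (t)) (by omega)) (by omega)) (by omega)) (by omega))) (fun u0 => (fin X.al.per 0 _ (pf X.bb X.al.per 0 (-2*N + 2*a + 2*b - 2*c - 2*d - 2*Y + t) (pr X.g0 X.al.per 0 (-2*N - 2*c - 2*d - 2*Y + t) (pr X.d2 X.al.per 0 (-2*N + 2*m - 2*c - 2*d + t + 2) (rfl : W (t) = W (t)) (by omega)) (by omega)) (by omega)) (by omega)))) (by omega)

theorem T0_155 (X : C W N Q i a b l m c d L U V Y) (hb : B N Q i a b l m c d L U V Y)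
    (h : i + 2*m + 3 ≤ 2*N + Q + 2*d ∧ i + l + m + 2*c + 3 ≤ Q + 2*a + 2*b ∧ Q + 2*a + 2*b + 2*m + 2 ≤ 4*N + 2*c + 2*d ∧ N + d ≤ m) :
    False := by
  have b7 := hb.b7
  have b8 := hb.b8
  have b36 := hb.b36
  have b40 := hb.b40
  have b41 := hb.b41
  have b42 := hb.b42
  have b43 := hb.b43
  obtain ⟨g1, g2, g3, g4⟩ := h
  have k1 : m + 2 ≤ 2*N + d := by clear * - b36 b40 b41 b42 b43 g2 g3; omega
  clear * - X g1 g2 g3 g4 b8 b7 k1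
  exact X.al.ubQ (-2*N + 2*m - 2*d + 2) (by omega) (by omega) fun t h1 h2 => (fin X.al.per 0 _ (pf X.c2 X.al.per 0 (-2*N + 2*m - 2*d + t + 2) (pr X.d2 X.al.per 0 (-2*N + 2*a + 2*b + 2*m - 2*c - 2*d + t + 2) (pf X.bb X.al.per 0 (2*a + 2*b + t) (rfl : W (t) = W (t)) (by omega)) (by omega)) (by omega)) (by omega))

theorem T0_156 (X : C W N Q i a b l m c d L U V Y) (hb : B N Q i a b l m c d L U V Y)
    (h : 3*a + 2*b + m + 2 ≤ 2*N + 2*c + d ∧ 2*N + i + 2*c + d ≤ Q + a + 2*b + m ∧ l + 2*c + d + 2 ≤ 3*a + 2*b ∧ 3*a + 2*b ≤ 2*l + m + 2*c + d + 2*U + 2) :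
    False := by
  have b2 := hb.b2
  have b4 := hb.b4
  have b7 := hb.b7
  have b8 := hb.b8
  have b21 := hb.b21
  obtain ⟨g1, g2, g3, g4⟩ := h
  have k1 : l + m + 3 ≤ 2*N + a + d := by clear * - b2 b4 b7 g1; omega
  have k2 : i + 3*a + 2*b + d ≤ m := by clear * - b21 g4; omega
  have k3 : a + 2*b + m + 2 ≤ 2*N + 2*c + d := by clear * - b2 g1; omega
  have k4 : 2*N + 2*c + d ≤ a + 2*b + l + m + 1 := by clear * - b8 g2; omega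
  clear * - X g1 g2 g3 g4 k1 k2 k3 k4
  exact X.al.ninv (2*N + i - a - 2*b - m + 2*c + d - 1) (fin X.al.per 0 _ (pr X.bb X.al.per 0 (2*N + i - a - 2*b - m + 2*c + d - 1) (pf X.c2 X.al.per 0 (2*N + i + a - m + 2*c + d - 1) (pf X.f3 X.al.per (-1) (2*N + i + 3*a + 2*b - m + d - 1) (af X.s2 X.al.per 0 (-2*N + i + 3*a + 2*b + m - 2*c - d + 1) (rfl : W (2*N + i - a - 2*b - m + 2*c + d - 1) = W (2*N + i - a - 2*b - m + 2*c + d - 1)) (by omega)) (by omega)) (by omega)) (by omega)) (by omega))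

theorem T0_157 (X : C W N Q i a b l m c d L U V Y) (hb : B N Q i a b l m c d L U V Y)
    (h : i + l + m + 2*d + 3 ≤ Q ∧ 2*N + 2*c ≤ 3*m + 2*Y + 2 ∧ i + l + 2 ≤ Q + m + 2*Y ∧ Q + m + 2*Y ≤ i + l + 2) :
    False := by
  have b14 := hb.b14
  have b43 := hb.b43
  obtain ⟨g1, g2, g3, g4⟩ := h
  have k1 : Q ≤ i + 2*l + 2*m + 2*d + 2*U + 4 := by clear * - b14 b43 g2; omega
  clear * - X g1 g2 g3 g4 b14 k1
  obtain ⟨φ, H, T, ht, h0⟩ := exH X.al (2*N + i + l - m + 2*c)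
  obtain ⟨Dd1, hd1⟩ := ht.par X.d1 (by omega)
  obtain ⟨Df3, hf3⟩ := ht.par X.f3 (by omega)
  obtain ⟨Dg0, hg0⟩ := ht.par X.g0 (by omega)
  have e1 := hf3 0 0 (i + l + m + 3) (2*N + i + l - m + 2*c + 2*d + 1) (by omega)
  have e2 := hd1 0 0 (2*N + i + l - m + 2*c + 2*d) (2*N + i + l - m + 2*c) (by omega)
  have e3 := hd1 0 0 (Q) (Q - 2*d) (by omega)
  have e4 := hf3 0 0 (Q - 2*d) (2*N + Q - 2*m + 2*c - 2) (by omega)
  have e5 := hg0 0 0 (i + l - m - 2*Y + 1) (i + l + m + 3) (by omega)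
  have e6 := hg0 0 0 (2*N + i + l - 3*m + 2*c - 2*Y - 1) (2*N + i + l - m + 2*c + 1) (by omega)
  have e7 := ht.lt (2*N + i + l - m + 2*c) 0 0 (2*N + i + l - m + 2*c) (2*N + i + l - m + 2*c + 1) (by omega)
  have e8 := ht.lt (2*N + i + l - m + 2*c + 2*d) 0 0 (2*N + i + l - m + 2*c + 2*d) (2*N + i + l - m + 2*c + 2*d + 1) (by omega)
  have e9 := ht.ze 0 0 (i + l - m - 2*Y + 1) (Q) (by omega)
  have e10 := ht.ze 0 0 (2*N + i + l - 3*m + 2*c - 2*Y - 1) (2*N + Q - 2*m + 2*c - 2) (by omega)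
  have t2 := ht.tri X.n3
  omega

theorem T0_158 (X : C W N Q i a b l m c d L U V Y) (hb : B N Q i a b l m c d L U V Y)
    (h : Q ≤ i + a + b ∧ b + l + 2*c + 1 ≤ a + m ∧ Q + a ≤ i + b + l + 2*c + 1 ∧ a + b ≤ m) :
    False := by
  have b2 := hb.b2
  have b3 := hb.b3
  have b7 := hb.b7
  have b40 := hb.b40
  have b42 := hb.b42
  obtain ⟨g1, g2, g3, g4⟩ := h
  have k1 : l + 2*c + 2 ≤ 3*a + b := by clear * - b2 b7 g1; omega
  have k2 : a ≤ b + l + 2*c := by clear * - b2 b3 g3; omega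
  have k3 : 1 ≤ l := by clear * - b40 b42; omega
  clear * - X g1 g2 g3 g4 k1 k2 k3
  obtain ⟨K0, hL⟩ : ∃ K0 : ℤ, -4*a - 2*b + 2*l + 2*c + 4 ≤ 2*K0 ∧ -4*a - 2*b + 2*c + 2 ≤ 2*K0 ∧ -2*b - 2*l - 2*c ≤ 2*K0 ∧ -2*b - 2*c + 2 ≤ 2*K0 ∧ 2*K0 + 2*(a + b) - 2 ≤ -2*Q + 2*i + 2*b + 2*l + 2*c + 2 ∧ 2*K0 + 2*(a + b) - 2 ≤ 2*b + 2*l + 2*c ∧ 2*K0 + 2*(a + b) - 2 ≤ 4*a + 2*b - 2*c - 2 ∧ 2*K0 + 2*(a + b) - 2 ≤ -2*b + 2*m - 2*c := ⟨((max (-2*b - 2*c + 2) (max (-2*b - 2*l - 2*c) (max (-4*a - 2*b + 2*c + 2) (-4*a - 2*b + 2*l + 2*c + 4)))) + 1) / 2, by omega⟩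
  obtain ⟨R, hR1, hR2, hR⟩ := pw (A := i + 1) (B := i + 2*a + 2*b + l + 1) (γ := a + b) (by omega) (fun t h1 h2 => (fin X.al.per 0 _ (pf X.bb X.al.per 0 (2*a + 2*b + t) (rfl : W (t) = W (t)) (by omega)) (by omega))) K0
  exact X.al.ninv (i - b + l + c - R + 1) (fin X.al.per 0 _ (ar X.S2 X.al.per 0 (i - b + l + c - R + 1) (pp hR X.al.per 0 (i + b + l + c + R + 1) (pf X.a2 X.al.per 0 (i + b + l + c - R + 1) (rfl : W (i - b + l + c - R + 1) = W (i - b + l + c - R + 1)) (by omega)) (by omega)) (by omega)) (by omega))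

theorem T0_160 (X : C W N Q i a b l m c d L U V Y) (hb : B N Q i a b l m c d L U V Y)
    (h : 2*N + 2*c + 2*d ≤ m ∧ i + 2*a + 2*b + l + m + 3 ≤ 2*N ∧ 4*N + l + 4*c + 4*d + 2*U ≤ 2*m ∧ i + 2*a + 2*b + 2*l + 2*c + 2*d + 2*U + 3 ≤ 0 ∧ 6*N + 4*c + 4*d + 2*V ≤ l + 4*m + 4 ∧ 2*N + i + 2*a + 2*b + 2*c + 2*d + 2*V ≤ 2*m + 1 ∧ a + b + 2*m + 3 ≤ 3*N + 2*c + 2*d + V ∧ i + 2*m + L + 4 ≤ 4*N + 2*c + 2*d ∧ 4*m + L + 5 ≤ 6*N + l + 4*c + 4*d + 2*V ∧ i + l + m + L + 4 ≤ 2*N + 2*a + 2*b ∧ 3*m + L + 5 ≤ 4*N + 2*a + 2*b + 2*c + 2*d + 2*V ∧ i + 2*l + 2*c + 2*d + L + 2*U + 4 ≤ 2*a + 2*b ∧ l + 2*m + L + 2*U + 5 ≤ 2*N + 2*a + 2*b + 2*V) :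
    False := by
  have b38 := hb.b38
  have b41 := hb.b41
  have b43 := hb.b43
  obtain ⟨g1, g2, g3, g4, g5, g6, g7, g8, g9, g10, g11, g12, g13⟩ := h
  have k1 : 2*N + 2*c + 2*d + V ≤ a + b + 2*m + 1 := by clear * - b38 b41 b43 g4 g5 g12; omega
  clear * - X g1 g2 g3 g4 g5 g6 g7 g8 g9 g10 g11 g12 g13 k1
  exact absurd (X.lam.mx (max (4*N + i - 2*a - 2*b + 2*l - 2*m + 4*c + 4*d + 2*U + 1) (max (2*N + i - 2*a - 2*b + l - m + 2*c + 2*d + 1) (i + 1))) (min (6*N + i + l - 4*m + 4*c + 4*d + 2*V - 3) (4*N - 2*m + 2*c + 2*d - 2)) (-4*N + 2*a + 2*b + 4*m - 4*c - 4*d - 2*V + 4) (by omega) (by omega) fun t h1 h2 => by (try simp only [max_le_iff, lt_min_iff] at h1 h2); exact (lt_or_ge t (min (4*N - 2*a - 2*b - 2*m + 2*c + 2*d - 2) (i + l + 1))).elim (fun u0 => by (try simp only [lt_min_iff] at u0); exact (fin X.al.per 1 _ (pf X.f2 X.al.per 0 (-6*N + 2*a + 2*b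 + 4*m - 4*c - 4*d - 2*V + t + 4) (pr X.d2 X.al.per 0 (-2*N + 2*a + 2*b + 2*m - 2*c - 2*d + t + 2) (pf X.bb X.al.per 0 (2*a + 2*b + t) (rfl : W (t) = W (t)) (by omega)) (by omega)) (by omega)) (by omega))) (fun u0 => (fin X.al.per 1 _ (pf X.bb X.al.per 0 (-6*N + 2*a + 2*b + 4*m - 4*c - 4*d - 2*V + t + 4) (pf X.f2 X.al.per 0 (-6*N + 4*m - 4*c - 4*d - 2*V + t + 4) (pr X.d2 X.al.per 0 (-2*N + 2*m - 2*c - 2*d + t + 2) (rfl : W (t) = W (t)) (by omega)) (by omega)) (by omega)) (by omega)))) (by omega)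

theorem T0_162 (X : C W N Q i a b l m c d L U V Y) (hb : B N Q i a b l m c d L U V Y)
    (h : i + 4*a + 4*b + l + 2 ≤ 2*N ∧ N + a + b + c + d ≤ m ∧ i + 2*a + 2*b + l + m + 3 ≤ 2*N ∧ 2*N + 2*c + 2*d ≤ m ∧ m + 2 ≤ N + a + b + d ∧ i + 2*a + 2*b + L + 2 ≤ 2*N + 2*c ∧ i + l + m + L + 4 ≤ 2*N + 2*a + 2*b) :
    False := by
  have b11 := hb.b11
  have b36 := hb.b36
  have b41 := hb.b41
  have b43 := hb.b43
  obtain ⟨g1, g2, g3, g4, g5, g6, g7⟩ := h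
  have k1 : a + b + d ≤ m := by clear * - b36 b41 b43 g3 g4 g6 g7; omega
  have k2 : i + l + L + 3 ≤ 2*N := by clear * - b11 b41 b43 g6 g7; omega
  clear * - X g1 g2 g3 g4 g5 g6 g7 k1 k2
  exact absurd (X.lam.mx (max (-2*N + i - 2*a - 2*b + 2*m - 2*d + 3) (max (i - 4*a - 4*b + l + m + 2*c + 3) (max (i - 2*a - 2*b + l + 2*c + 2) (i + 1)))) (2*N - 2*a - 2*b + 2*c) (2*N + 2*a + 2*b - 2*m + 2*d - 2) (by omega) (by omega) fun t h1 h2 => by (try simp only [max_le_iff, lt_min_iff] at h1 h2); exact (lt_or_ge t (min (-2*N + i - 2*a - 2*b + l + 2*m - 2*d + 3) (min (2*N - 4*a - 4*b + 2*c) (i + l + 1)))).elim (fun u0 => by (try simp only [lt_min_iff] at u0); exact (fin X.al.per 0 _ (pr X.bb X.al.per 0 (2*N + 2*a + 2*b - 2*m + 2*d + t - 2) (pf X.d2 X.al.per 0 (2*N + 4*a + 4*b - 2*m + 2*d + t - 2) (pr X.c2 X.al.per 0 (4*a + 4*b - 2*c + t) (pf X.bb X.al.per 0 (2*a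 + 2*b + t) (rfl : W (t) = W (t)) (by omega)) (by omega)) (by omega)) (by omega)) (by omega))) (fun u0 => (fin X.al.per 0 _ (pf X.d2 X.al.per 0 (2*N + 2*a + 2*b - 2*m + 2*d + t - 2) (pr X.c2 X.al.per 0 (2*a + 2*b - 2*c + t) (rfl : W (t) = W (t)) (by omega)) (by omega)) (by omega)))) (by omega)

theorem T0_166 (X : C W N Q i a b l m c d L U V Y) (hb : B N Q i a b l m c d L U V Y)
    (h : i + 2*a + 2*b + 1 ≤ 2*N + Q + 2*c + 2*d + 2*Y ∧ i + l + 1 ≤ Q + m + 2*Y ∧ Q + 2*a + 2*b + 2*m + 2 ≤ 4*N + 2*c + 2*d ∧ Q + 2*a + 2*b ≤ 2*N + i + l + 2*c + 2*d + 2*Y + 1 ∧ N + c + d + Y + 1 ≤ a + b) :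
    False := by
  have b39 := hb.b39
  have b41 := hb.b41
  have b43 := hb.b43
  obtain ⟨g1, g2, g3, g4, g5⟩ := h
  have k1 : a + b + 1 ≤ 2*N + c + d + Y := by clear * - b39 b41 b43 g1 g2 g4 g5; omega
  clear * - X g1 g2 g3 g4 g5 k1
  exact X.al.ubQ (-2*N + 2*a + 2*b - 2*c - 2*d - 2*Y) (by omega) (by omega) fun t h1 h2 => (fin X.al.per 0 _ (pr X.g0 X.al.per 0 (-2*N + 2*a + 2*b - 2*c - 2*d - 2*Y + t) (pr X.d2 X.al.per 0 (-2*N + 2*a + 2*b + 2*m - 2*c - 2*d + t + 2) (pf X.bb X.al.per 0 (2*a + 2*b + t) (rfl : W (t) = W (t)) (by omega)) (by omega)) (by omega)) (by omega))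

theorem T0_167 (X : C W N Q i a b l m c d L U V Y) (hb : B N Q i a b l m c d L U V Y)
    (h : 3*N + a + b + c + d + 2*V ≤ 2*l + 3*m + 2*U + 4 ∧ i + a + b + 2*l + m + c + d + 2*U + 4 ≤ N ∧ i + 2*l + 3*m + 2*U + 6 ≤ 3*N + Q + a + b + c + d + 2*V) :
    False := by
  have b4 := hb.b4
  have b17 := hb.b17
  have b18 := hb.b18
  have b29 := hb.b29
  have b35 := hb.b35
  have b41 := hb.b41
  have b43 := hb.b43
  obtain ⟨g1, g2, g3⟩ := h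
  have k1 : l + 3*m + 2*U + 5 ≤ 3*N + a + b + c + d + 2*V := by clear * - b17 b29 b35 g2; omega
  have k2 : N + c + d ≤ a + b + m := by clear * - b4 b17 b35 b41 b43 g1 g2 g3; omega
  have k3 : N + a + b + c + d + 2*V ≤ m := by clear * - b18 g2; omega
  clear * - X g1 g2 g3 k1 k2 k3
  exact X.al.ninv (-3*N + i - a - b + 2*l + 3*m - c - d + 2*U - 2*V + 5) (fin X.al.per 0 _ (ar X.t2 X.al.per 1 (-3*N + i - a - b + 2*l + 3*m - c - d + 2*U - 2*V + 5) (pr X.f2 X.al.per 0 (N + i + a + b + 2*l + m + c + d + 2*U + 3) (pf X.bb X.al.per 0 (-3*N + i + a + b + 2*l + 3*m - c - d + 2*U - 2*V + 5) (rfl : W (-3*N + i - a - b + 2*l + 3*m - c - d + 2*U - 2*V + 5) = W (-3*N + i - a - b + 2*l + 3*m - c - d + 2*U - 2*V + 5)) (by omega)) (by omega)) (by omega)) (by omega))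

theorem T0_170 (X : C W N Q i a b l m c d L U V Y) (hb : B N Q i a b l m c d L U V Y)
    (h : V ≤ 0 ∧ 2*N + l + 4*c + 2*d + 2*U + 2 ≤ 2*a + 2*b ∧ m + c + Y + 2 ≤ a + b ∧ 2*N + i + l + 2*c + 2*d + 2*V ≤ 3*m + 2*Y + 1 ∧ 4*N + 4*c + 2*d + 2*V ≤ 2*a + 2*b + 3*m + 2*Y + 2 ∧ 2*N + 2*c + 2*V ≤ 2*a + 2*b + l + m + 2*U + 1 ∧ 2*N + i + 2*a + 2*b + l + 2*c + 2*d + 2*V ≤ 4*m + 2*Y + 2 ∧ 2*N + 2*c + d + V ≤ 2*m + Y + 1 ∧ 2*N + 2*c + 2*V ≤ l + 2*m + 2*U + 2 ∧ i + l + 4*m + 2*Y + 6 ≤ 4*N + 2*d ∧ i + l + 3*m + 5 ≤ 4*N + 2*c + 2*d ∧ 2*m + 1 ≤ 2*N + i + l + 2*c + 2*d + 2*V) :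
    False := by
  have b6 := hb.b6
  have b17 := hb.b17
  have b21 := hb.b21
  have b39 := hb.b39
  have b41 := hb.b41
  have b42 := hb.b42
  have b43 := hb.b43
  obtain ⟨g1, g2, g3, g4, g5, g6, g7, g8, g9, g10, g11, g12⟩ := h
  have k1 : 2*m + Y + 2 ≤ 2*N + c + d + V := by clear * - b6 b17 g10; omega
  have k2 : N + a + b + d ≤ 2*m + Y + 1 := by clear * - b6 b17 g7; omega
  have k3 : 2*m + Y + 3 ≤ 2*N + a + b + d := by clear * - b39 b41 b42 b43 g5 g11 g12; omega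
  clear * - X g1 g2 g3 g4 g5 g6 g7 g8 g9 g10 g11 g12 b17 b21 k1 k2 k3
  exact X.al.ubP (-2*N - 2*a - 2*b + 4*m - 2*d + 2*Y + 4) (by omega) (by omega) fun t h1 h2 => by (try simp only [max_le_iff, lt_min_iff] at h1 h2); exact (lt_or_ge t (min (i + 2*a + 2*b + 2*l - 2*m + 2*d + 2*U - 2*Y) (min (-2*N + i + 2*a + 2*b + l - 2*c + 1) (0)))).elim (fun u0 => by (try simp only [lt_min_iff] at u0); exact (fin X.al.per (-1) _ (pr X.f3 X.al.per 0 (-2*a - 2*b + 4*m - 2*d + 2*Y + t + 4) (pf X.g0 X.al.per 0 (2*N - 2*a - 2*b + 2*m + 2*c + 2*Y + t + 2) (pf X.c2 X.al.per (-1) (2*N - 2*a - 2*b + 2*c + t) (rfl : W (t) = W (t)) (by omega)) (by omega)) (by omega)) (by omega))) (fun u0 => (fin X.al.per 0 _ (pf X.c2 X.al.per 0 (-2*N - 2*a - 2*b + 4*m - 2*d - 2*V + 2*Y + t + 4) (pf X.g0 X.al.per 0 (-2*N + 4*m - 2*c - 2*d - 2*V + 2*Y + t + 4) (pf X.f2 X.al.per (-1) (-2*N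 + 2*m - 2*c - 2*d - 2*V + t + 2) (rfl : W (t) = W (t)) (by omega)) (by omega)) (by omega)) (by omega)))

theorem T0_173 (X : C W N Q i a b l m c d L U V Y) (hb : B N Q i a b l m c d L U V Y)
    (h : 4*N + Q + 4*c + 2*d + 2*V ≤ 2*a + 4*b + 2*m + 2 ∧ N + b + c + d + V ≤ m + 1 ∧ a + b + m + 2 ≤ 2*N + 2*c + d + V ∧ 4*N + 4*c + 2*d + 2*V ≤ i + 4*a + 2*b + 2*m + 2) :
    False := by
  have b7 := hb.b7
  have b17 := hb.b17
  have b19 := hb.b19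
  have b32 := hb.b32
  have b40 := hb.b40
  have b41 := hb.b41
  have b42 := hb.b42
  have b43 := hb.b43
  obtain ⟨g1, g2, g3, g4⟩ := h
  have k1 : 2*N + i + 2*l + 4*c + 2*d + 2*U + 3 ≤ 2*a + 4*b := by clear * - b17 b19 g1; omega
  have k2 : i + l + 2*c + 2 ≤ 2*b := by clear * - b7 g1 g3; omega
  have k3 : N + 2*c + d + V ≤ a + b + m := by clear * - b32 b40 b41 b42 b43 g1 g3 g4; omega
  clear * - X g1 g2 g3 g4 k1 k2 k3
  exact X.al.ubP (4*N - 2*a - 2*b - 2*m + 4*c + 2*d + 2*V - 2) (by omega) (by omega) fun t h1 h2 => (fin X.al.per 0 _ (pr X.a1 X.al.per 0 (4*N - 2*a - 2*b - 2*m + 4*c + 2*d + 2*V + t - 2) (pf X.c2 X.al.per 0 (4*N - 2*a - 2*m + 4*c + 2*d + 2*V + t - 2) (pr X.f2 X.al.per 0 (4*N + 2*b - 2*m + 2*c + 2*d + 2*V + t - 2) (pf X.a2 X.al.per 0 (2*b + t) (rfl : W (t) = W (t)) (by omega)) (by omega)) (by omega)) (by omega)) (by omega))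

theorem T0_174 (X : C W N Q i a b l m c d L U V Y) (hb : B N Q i a b l m c d L U V Y)
    (h : i + l + 3*m + 5 ≤ 2*N + Q + 2*c ∧ N + c ≤ 2*m + Y + 1 ∧ Q + 5*m + 2*Y + 4 ≤ 4*N + i + l + 4*c + 2*d) :
    False := by
  have b8 := hb.b8
  have b11 := hb.b11
  have b17 := hb.b17
  have b18 := hb.b18
  have b21 := hb.b21
  have b25 := hb.b25
  have b35 := hb.b35
  have b43 := hb.b43
  obtain ⟨g1, g2, g3⟩ := h
  have k1 : i + l + m + 2*d + 3 ≤ Q := by clear * - b17 b18 b21 g1; omega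
  have k2 : Q + 4*m + 2*Y + 4 ≤ 4*N + 2*c + 2*d := by clear * - b11 g3; omega
  have k3 : 2*m + Y + 3 ≤ 2*N + c := by clear * - b21 b25 b35 b43 g1 g2 g3; omega
  clear * - X g1 g2 g3 b8 k1 k2 k3
  exact X.al.ubQ (-2*N + 4*m - 2*c + 2*Y + 4) (by omega) (by omega) fun t h1 h2 => (fin X.al.per 0 _ (pr X.d1 X.al.per 0 (-2*N + 4*m - 2*c + 2*Y + t + 4) (pr X.d2 X.al.per 0 (-2*N + 4*m - 2*c - 2*d + 2*Y + t + 4) (pf X.g0 X.al.per 0 (2*m + 2*Y + t + 2) (rfl : W (t) = W (t)) (by omega)) (by omega)) (by omega)) (by omega))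

theorem T0_176 (X : C W N Q i a b l m c d L U V Y) (hb : B N Q i a b l m c d L U V Y)
    (h : N + Q ≤ i + a + 2*b + L + U + 2 ∧ N + a ≤ l + m + U + 1) :
    False := by
  have b2 := hb.b2
  have b19 := hb.b19
  obtain ⟨g1, g2⟩ := h
  have k1 : i + a + l + m + U + 3 ≤ N + Q := by clear * - b19 g2; omega
  have k2 : N + i + a ≤ Q + l + m + U + 1 := by clear * - b2 b19 g2; omega
  have k3 : 3*N + a ≤ 3*l + 3*m + 3*U + 5 := by clear * - b2 g2; omega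
  have k4 : 2*N + Q ≤ i + 2*a + 2*b + l + m + L + 2*U + 3 := by clear * - b2 g1 g2; omega
  clear * - X g1 g2 k1 k2 k3 k4
  obtain ⟨K0, hL⟩ : ∃ K0 : ℤ, 2*a + 2 ≤ 2*K0 ∧ 4*N + 2*a - 4*l - 4*m - 4*U - 6 ≤ 2*K0 ∧ 4*N + 2*Q - 2*i - 2*a - 4*b - 2*l - 2*m - 2*L - 4*U - 8 ≤ 2*K0 ∧ 2*K0 + 2*(-N - a + l + m + U + 2) - 2 ≤ 2*Q - 2*i - 2*a - 2 ∧ 2*K0 + 2*(-N - a + l + m + U + 2) - 2 ≤ -4*N - 2*Q + 2*i + 2*a + 4*b + 2*l + 2*m + 2*L + 4*U + 8 ∧ 2*K0 + 2*(-N - a + l + m + U + 2) - 2 ≤ -4*N - 2*a + 4*l + 4*m + 4*U + 6 := ⟨((max (4*N + 2*Q - 2*i - 2*a - 4*b - 2*l - 2*m - 2*L - 4*U - 8) (max (4*N + 2*a - 4*l - 4*m - 4*U - 6) (2*a + 2))) + 1) / 2, by omega⟩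
  obtain ⟨R, hR1, hR2, hR⟩ := pw (A := 2*N + Q - 2*b - l - m - L - 2*U - 4) (B := -2*N + i + 2*l + 2*m + 2*U + 4) (γ := -N - a + l + m + U + 2) (by omega) (fun t h1 h2 => (fin X.al.per 0 _ (pf X.g4 X.al.per 0 (-2*N - 2*a + 2*l + 2*m + 2*U + t + 4) (rfl : W (t) = W (t)) (by omega)) (by omega))) K0
  exact X.al.ninv (i + a + R) (fin X.al.per 0 _ (pp hR X.al.per 0 (i + a + R) (af X.s2 X.al.per 0 (i + a - R) (rfl : W (i + a + R) = W (i + a + R)) (by omega)) (by omega)) (by omega))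

theorem T0_177 (X : C W N Q i a b l m c d L U V Y) (hb : B N Q i a b l m c d L U V Y)
    (h : 2*N + i + 2*l + 2*c + 2*d + 2*U + 1 ≤ Q + 2*m + 2*Y ∧ 2*m + Y + 3 ≤ 2*N + c + d + V ∧ i + l + 1 ≤ Q + m + 2*Y ∧ 4*N + Q + 2*c + 2*d + 2*V ≤ i + l + 4*m + 2*Y + 5) :
    False := by
  have b39 := hb.b39
  have b41 := hb.b41
  have b42 := hb.b42
  have b43 := hb.b43
  obtain ⟨g1, g2, g3, g4⟩ := h
  have k1 : N + c + d + V ≤ 2*m + Y + 1 := by clear * - b39 b41 b42 b43 g2 g3 g4; omega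
  clear * - X g1 g2 g3 g4 k1
  exact X.al.ubQ (4*N - 4*m + 2*c + 2*d + 2*V - 2*Y - 4) (by omega) (by omega) fun t h1 h2 => (fin X.al.per 0 _ (pr X.g0 X.al.per 0 (4*N - 4*m + 2*c + 2*d + 2*V - 2*Y + t - 4) (pf X.f1 X.al.per 0 (4*N - 2*m + 2*c + 2*d + 2*V + t - 2) (rfl : W (t) = W (t)) (by omega)) (by omega)) (by omega))

theorem T0_178 (X : C W N Q i a b l m c d L U V Y) (hb : B N Q i a b l m c d L U V Y)
    (h : a + b + m + U + 2 ≤ N + c + V ∧ 3*N + i + l + 3*c + 2*d + U + V ≤ a + b + m + L + 1 ∧ l + m + U + 3 ≤ N + a + b + c + V) :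
    False := by
  have b11 := hb.b11
  have b27 := hb.b27
  have b36 := hb.b36
  have b45 := hb.b45
  obtain ⟨g1, g2, g3⟩ := h
  have k1 : N + c + V ≤ a + b + l + m + U + 1 := by clear * - b27 g2; omega
  have k2 : N + a + b + c + V ≤ l + 2*m + U + 2 := by clear * - b11 b36 b45; omega
  clear * - X g1 g2 g3 k1 k2
  exact X.al.ninv (N + i + a + b - m + c - U + V - 1) (fin X.al.per 0 _ (af X.S2 X.al.per 0 (N + i + a + b - m + c - U + V - 1) (pf X.g2 X.al.per 0 (-N + i - a - b + 2*l + m + c + U - V + 3) (pr X.bb X.al.per 0 (N + i - a - b - m + c - U + V - 1) (rfl : W (N + i + a + b - m + c - U + V - 1) = W (N + i + a + b - m + c - U + V - 1)) (by omega)) (by omega)) (by omega)) (by omega))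

theorem T0_179 (X : C W N Q i a b l m c d L U V Y) (hb : B N Q i a b l m c d L U V Y)
    (h : l + c + 2 ≤ 2*a + b ∧ 1 ≤ b + c) :
    False := by
  have b8 := hb.b8
  have b17 := hb.b17
  have b39 := hb.b39
  have b45 := hb.b45
  obtain ⟨g1, g2⟩ := h
  have k1 : Q ≤ i + b + l + c + 1 := by clear * - b8 g2; omega
  have k2 : b + c ≤ m := by clear * - b17 b39 b45 g1; omega
  clear * - X g1 g2 k1 k2
  exact X.al.ninv (i + b + l + c + 1) (fin X.al.per 0 _ (af X.S2 X.al.per 0 (i + b + l + c + 1) (pr X.a2 X.al.per 0 (i - b + l + c + 1) (rfl : W (i + b + l + c + 1) = W (i + b + l + c + 1)) (by omega)) (by omega)) (by omega))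

theorem T0_180 (X : C W N Q i a b l m c d L U V Y) (hb : B N Q i a b l m c d L U V Y)
    (h : a ≤ 0 ∧ 2*a ≤ l + 2*c ∧ l + c + 1 ≤ 2*a + b ∧ 2*a + b ≤ l + c + 1) :
    False := by
  have b2 := hb.b2
  have b17 := hb.b17
  have b39 := hb.b39
  have b45 := hb.b45
  obtain ⟨g1, g2, g3, g4⟩ := h
  have k1 : l + 2*c + 1 ≤ 2*a + m := by clear * - b17 b39 b45 g3; omega
  clear * - X g1 g2 g3 g4 b2 k1
  exact X.n1.tor ⟨(fin X.al.per 0 _ (rfl : W (i + 2*a) = W (i + 2*a)) (by omega)), (fin X.al.per 0 _ (af X.S2 X.al.per 0 (i - 2*a + 2*l + 2*c + 2) (rfl : W (i + 2*a) = W (i + 2*a)) (by omega)) (by omega))⟩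

theorem T0_181 (X : C W N Q i a b l m c d L U V Y) (hb : B N Q i a b l m c d L U V Y)
    (h : 4*N + 4*c + 2*d ≤ 2*a + 2*b + 3*m + 2 ∧ N + c ≤ a + b + m + 1 ∧ a + b + m + 1 ≤ N + c) :
    False := by
  have b2 := hb.b2
  have b3 := hb.b3
  have b4 := hb.b4
  have b11 := hb.b11
  have b39 := hb.b39
  have b44 := hb.b44
  obtain ⟨g1, g2, g3⟩ := h
  have k1 : m + 2 ≤ N + c := by clear * - b2 b3 b4 g3; omega
  have k2 : 2*a + 2*b + 3*m + 3 ≤ 4*N + l + 4*c + 2*d := by clear * - b2 b39 b44 g3; omega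
  clear * - X g1 g2 g3 k1 b11 k2
  exact X.n3.yz (fin X.al.per 0 _ (pr X.bb X.al.per 0 (4*N + i - 2*a - 2*b + l - 3*m + 4*c + 2*d - 2) (pf X.d2 X.al.per 0 (4*N + i + l - 3*m + 4*c + 2*d - 2) (rfl : W (2*N + i + l - m + 2*c) = W (2*N + i + l - m + 2*c)) (by omega)) (by omega)) (by omega)).symm

theorem T0_186 (X : C W N Q i a b l m c d L U V Y) (hb : B N Q i a b l m c d L U V Y)
    (h : i + 2*a + 4*b + l + 2 ≤ 2*N + Q ∧ N + c + 1 ≤ a + 2*b ∧ Q + 2*b ≤ 2*N + i + 2*c) :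
    False := by
  have b34 := hb.b34
  have b40 := hb.b40
  have b41 := hb.b41
  have b42 := hb.b42
  have b43 := hb.b43
  obtain ⟨g1, g2, g3⟩ := h
  have k1 : a + 2*b + 1 ≤ 2*N + c := by clear * - b34 b40 b41 b42 b43 g1; omega
  clear * - X g1 g2 g3 k1
  exact X.al.ubQ (-2*N + 2*a + 4*b - 2*c) (by omega) (by omega) fun t h1 h2 => (fin X.al.per 0 _ (pf X.a2 X.al.per 1 (-2*N + 2*a + 4*b - 2*c + t) (pf X.c1 X.al.per 0 (2*a + 2*b - 2*c + t) (rfl : W (t) = W (t)) (by omega)) (by omega)) (by omega))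

theorem T0_187 (X : C W N Q i a b l m c d L U V Y) (hb : B N Q i a b l m c d L U V Y)
    (h : i + 4*a + 4*b ≤ Q + 2*m + 2*Y + 1 ∧ Q + 2*a + 2*b ≤ i + l + 1 ∧ i + l + 1 ≤ Q + m + 2*Y ∧ m + Y + 2 ≤ 2*a + 2*b) :
    False := by
  have b17 := hb.b17
  have b20 := hb.b20
  have b21 := hb.b21
  have b36 := hb.b36
  have b37 := hb.b37
  have b39 := hb.b39
  have b41 := hb.b41
  have b43 := hb.b43
  have b45 := hb.b45
  obtain ⟨g1, g2, g3, g4⟩ := h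
  have k1 : i + 2*a + 2*b ≤ Q + 2*m + 2*Y + 1 := by clear * - b17 b39 b45 g3; omega
  have k2 : Q + 4*a + 4*b ≤ i + l + 2*m + 2*Y + 3 := by clear * - b17 b37 b41 g1 g2; omega
  have k3 : 2*a + 2*b ≤ N + m + Y := by clear * - b20 b21 b36 b39 b41 b43 g1 g2 g3 g4; omega
  clear * - X g1 g2 g3 g4 k1 k2 k3
  exact X.al.ubQ (4*a + 4*b - 2*m - 2*Y - 2) (by omega) (by omega) fun t h1 h2 => (fin X.al.per 0 _ (pr X.g0 X.al.per 0 (4*a + 4*b - 2*m - 2*Y + t - 2) (pf X.bb X.al.per 0 (4*a + 4*b + t) (pf X.bb X.al.per 0 (2*a + 2*b + t) (rfl : W (t) = W (t)) (by omega)) (by omega)) (by omega)) (by omega))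

theorem T0_188 (X : C W N Q i a b l m c d L U V Y) (hb : B N Q i a b l m c d L U V Y)
    (h : i + l + 2*c + 2 ≤ 2*b ∧ a + 2*b + 1 ≤ N + c ∧ 2*N + 2*c ≤ i + 4*a + 4*b) :
    False := by
  have b35 := hb.b35
  have b40 := hb.b40
  have b41 := hb.b41
  have b42 := hb.b42
  have b43 := hb.b43
  obtain ⟨g1, g2, g3⟩ := h
  have k1 : c + 1 ≤ a + 2*b := by clear * - b35 b40 b41 b42 b43 g1; omega
  clear * - X g1 g2 g3 k1
  exact X.al.ubP (2*N - 2*a - 4*b + 2*c) (by omega) (by omega) fun t h1 h2 => (fin X.al.per 0 _ (pr X.a1 X.al.per 0 (2*N - 2*a - 4*b + 2*c + t) (pf X.c2 X.al.per (-1) (2*N - 2*a - 2*b + 2*c + t) (rfl : W (t) = W (t)) (by omega)) (by omega)) (by omega))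

theorem T0_189 (X : C W N Q i a b l m c d L U V Y) (hb : B N Q i a b l m c d L U V Y)
    (h : N + c ≤ i + a + b ∧ N + i + a + c + 1 ≤ Q + b) :
    False := by
  have b2 := hb.b2
  have b6 := hb.b6
  have b9 := hb.b9
  have b17 := hb.b17
  have b18 := hb.b18
  have b19 := hb.b19
  have b25 := hb.b25
  have b33 := hb.b33
  obtain ⟨g1, g2⟩ := h
  have k1 : b + l + c + 1 ≤ N + i + a := by clear * - b2 b25 b33 g1; omega
  have k2 : N + c ≤ Q + a + b := by clear * - b2 b17 b18 b19 g1 g2; omega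
  have k3 : N + 2*i + a + c + 1 ≤ 2*Q + b := by clear * - b2 b6 b9 g2; omega
  have k4 : a + b + l + c + 2 ≤ N := by clear * - b9 g1; omega
  have k5 : a + 3*b + 2*l + c + 3 ≤ 3*N := by clear * - b2 b9 b25 b33 g1; omega
  have k6 : i + l + 2*c + 3 ≤ Q := by clear * - b2 b9 g1 g2; omega
  have k7 : a + b + 1 ≤ N + c := by clear * - b6 b9; omega
  clear * - X g1 g2 k1 k2 k3 k4 k5 k6 k7
  obtain ⟨K0, hL⟩ : ∃ K0 : ℤ, -2*i - 2*a ≤ 2*K0 ∧ -2*Q + 2*i + 2*a + 2 ≤ 2*K0 ∧ -4*N + 2*a + 4*b + 2*l + 4 ≤ 2*K0 ∧ 2*K0 + 2*(N - a - b + c) - 2 ≤ -2*a - 2 ∧ 2*K0 + 2*(N - a - b + c) - 2 ≤ 4*N - 2*a - 4*b - 2*l - 4 ∧ 2*K0 + 2*(N - a - b + c) - 2 ≤ 2*Q - 2*i - 2*a - 2 := ⟨((max (-4*N + 2*a + 4*b + 2*l + 4) (max (-2*Q + 2*i + 2*a + 2) (-2*i - 2*a))) + 1) / 2, by omega⟩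
  obtain ⟨R, hR1, hR2, hR⟩ := pw (A := i + 2*a + 2*b + l + 2) (B := 2*N + Q) (γ := N - a - b + c) (by omega) (fun t h1 h2 => (fin X.al.per 1 _ (pr X.c1 X.al.per 0 (-2*a - 2*b + 2*c + t) (rfl : W (t) = W (t)) (by omega)) (by omega))) K0
  exact X.al.ninv (i + a + R) (fin X.al.per (-1) _ (pp hR X.al.per (-1) (2*N + i + a + R) (af X.s1 X.al.per 0 (i + a - R) (rfl : W (i + a + R) = W (i + a + R)) (by omega)) (by omega)) (by omega))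

theorem T0_194 (X : C W N Q i a b l m c d L U V Y) (hb : B N Q i a b l m c d L U V Y)
    (h : i + 2*l + 2*m + c + 2*U + 5 ≤ N + Q + a + b ∧ N + a + b + c + 2*V ≤ l + 2*m + 2*U + 2) :
    False := by
  have b6 := hb.b6
  have b9 := hb.b9
  have b17 := hb.b17
  have b19 := hb.b19
  have b33 := hb.b33
  have b45 := hb.b45
  obtain ⟨g1, g2⟩ := h
  have k1 : 2*i + 4*l + 4*m + c + 4*U + 9 ≤ 3*N + 2*Q + a + b + 2*V := by clear * - b17 b19 g1; omega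
  have k2 : N + 3*a + 3*b + c + 2*V ≤ 2*l + 4*m + 4*U + 5 := by clear * - b17 b33 b45 g2; omega
  have k3 : i + l + 2*c + 3 ≤ Q := by clear * - b17 g1 g2; omega
  have k4 : a + b + 1 ≤ N + c := by clear * - b6 b9; omega
  clear * - X g1 g2 k1 k2 k3 k4
  obtain ⟨K0, hL⟩ : ∃ K0 : ℤ, -4*N - 2*Q + 2*i + 4*l + 4*m + 4*U - 2*V + 10 ≤ 2*K0 ∧ 4*a + 4*b - 2*l - 4*m - 4*U + 2*V - 4 ≤ 2*K0 ∧ 2*K0 + 2*(N - a - b + c) - 2 ≤ -2*V - 2 ∧ 2*K0 + 2*(N - a - b + c) - 2 ≤ -4*a - 4*b + 2*l + 4*m + 4*U - 2*V + 4 ∧ 2*K0 + 2*(N - a - b + c) - 2 ≤ 4*N + 2*Q - 2*i - 4*l - 4*m - 4*U + 2*V - 10 := ⟨((max (4*a + 4*b - 2*l - 4*m - 4*U + 2*V - 4) (-4*N - 2*Q + 2*i + 4*l + 4*m + 4*U - 2*V + 10)) + 1) / 2, by omega⟩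
  obtain ⟨R, hR1, hR2, hR⟩ := pw (A := i + 2*a + 2*b + l + 2) (B := 2*N + Q) (γ := N - a - b + c) (by omega) (fun t h1 h2 => (fin X.al.per 1 _ (pr X.c1 X.al.per 0 (-2*a - 2*b + 2*c + t) (rfl : W (t) = W (t)) (by omega)) (by omega))) K0
  exact X.al.ninv (-2*N + i + 2*l + 2*m + 2*U - V + R + 4) (fin X.al.per (-1) _ (pp hR X.al.per (-1) (i + 2*l + 2*m + 2*U - V + R + 4) (ar X.t2 X.al.per 0 (-2*N + i + 2*l + 2*m + 2*U - V - R + 4) (rfl : W (-2*N + i + 2*l + 2*m + 2*U - V + R + 4) = W (-2*N + i + 2*l + 2*m + 2*U - V + R + 4)) (by omega)) (by omega)) (by omega))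

theorem T0_197 (X : C W N Q i a b l m c d L U V Y) (hb : B N Q i a b l m c d L U V Y)
    (h : N + i + 2*l + m + 2*c + 2*d + 3*U + V + 2 ≤ L ∧ N + V ≤ l + m + U + 1) :
    False := by
  have b1 := hb.b1
  have b17 := hb.b17
  have b18 := hb.b18
  obtain ⟨g1, g2⟩ := h
  have k1 : N + V ≤ i + l + m + U + 2 := by clear * - b1 g2; omega
  have k2 : 3*N + V ≤ i + 3*l + 3*m + 3*U + 6 := by clear * - b17 b18 g2; omega
  have k3 : 3*N + V ≤ 3*l + 3*m + 3*U + 5 := by clear * - b17 g2; omega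
  have k4 : 2*N + i + l + 2*c + 2*d + 2*U + 1 ≤ L := by clear * - b17 g1 g2; omega
  clear * - X g1 g2 k1 k2 k3 k4
  obtain ⟨K0, hL⟩ : ∃ K0 : ℤ, 4*N - 2*i - 4*l - 4*m - 4*U + 2*V - 8 ≤ 2*K0 ∧ 4*N + 2*i + 2*l + 4*c + 4*d - 2*L + 4*U + 2*V ≤ 2*K0 ∧ 4*N - 4*l - 4*m - 4*U + 2*V - 6 ≤ 2*K0 ∧ 2*K0 + 2*(-N + l + m + U - V + 2) - 2 ≤ -2*V - 2 ∧ 2*K0 + 2*(-N + l + m + U - V + 2) - 2 ≤ -4*N + 4*l + 4*m + 4*U - 2*V + 6 ∧ 2*K0 + 2*(-N + l + m + U - V + 2) - 2 ≤ -4*N - 2*i - 2*l - 4*c - 4*d + 2*L - 4*U - 2*V := ⟨((max (4*N - 4*l - 4*m - 4*U + 2*V - 6) (max (4*N + 2*i + 2*l + 4*c + 4*d - 2*L + 4*U + 2*V) (4*N - 2*i - 4*l - 4*m - 4*U + 2*V - 8))) + 1) / 2, by omega⟩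
  obtain ⟨R, hR1, hR2, hR⟩ := pw (A := i + 1) (B := -4*N + l + 2*m - 2*c - 2*d + L - 2*V + 5) (γ := -N + l + m + U - V + 2) (by omega) (fun t h1 h2 => (fin X.al.per 0 _ (pf X.g2 X.al.per 0 (-2*N + 2*l + 2*m + 2*U - 2*V + t + 4) (rfl : W (t) = W (t)) (by omega)) (by omega))) K0
  exact X.al.ninv (-2*N + i + 2*l + 2*m + 2*U - V + R + 4) (fin X.al.per 0 _ (pp hR X.al.per 0 (-2*N + i + 2*l + 2*m + 2*U - V + R + 4) (af X.t1 X.al.per 0 (-2*N + i + 2*l + 2*m + 2*U - V - R + 4) (rfl : W (-2*N + i + 2*l + 2*m + 2*U - V + R + 4) = W (-2*N + i + 2*l + 2*m + 2*U - V + R + 4)) (by omega)) (by omega)) (by omega))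

theorem T0_198 (X : C W N Q i a b l m c d L U V Y) (hb : B N Q i a b l m c d L U V Y)
    (h : 0 ≤ N + c + d ∧ N + c + d ≤ 0 ∧ 2*N + 2*c ≤ l + 2*m + 2*U + 2 ∧ 2*N + 2*c ≤ 2*a + 2*b + l + m + 2*U + 1 ∧ 0 ≤ l + d + U ∧ 2*N + i + l + 2*c + 4*d + 1 ≤ Q + m ∧ Q + 2*a + 2*b ≤ i + 2*l + 2*m + 2*c + 2*U + 4 ∧ 2*N + Q + 2*d ≤ i + l + 2*m + 3 ∧ m + 2 ≤ 2*N + c + 2*d) :
    False := by
  have b2 := hb.b2
  have b3 := hb.b3
  have b4 := hb.b4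
  have b39 := hb.b39
  have b41 := hb.b41
  have b42 := hb.b42
  have b44 := hb.b44
  obtain ⟨g1, g2, g3, g4, g5, g6, g7, g8, g9⟩ := h
  have k1 : 2*N + 2*c + 2*d ≤ m := by clear * - b39 b41 b42 g2 g3 g6 g8; omega
  have k2 : N + c + d + 1 ≤ a + b := by clear * - b2 b3 b4 g2; omega
  have k3 : m + 1 ≤ l := by clear * - b2 b39 b44 g2; omega
  clear * - X g1 g2 g3 g4 g5 g6 g7 g8 g9 k1 k2 k3
  exact X.al.ubQ (4*N - 2*m + 2*c + 4*d - 2) (by omega) (by omega) fun t h1 h2 => by (try simp only [max_le_iff, lt_min_iff] at h1 h2); exact (lt_or_ge t (min (-2*N + i + l + m - 2*d + 2) (-2*N + i + 2*l + 2*m + 2*U + 4))).elim (fun u0 => by (try simp only [lt_min_iff] at u0); exact (fin X.al.per 0 _ (pr X.d1 X.al.per 0 (4*N - 2*m + 2*c + 4*d + t - 2) (pf X.f3 X.al.per (-1) (4*N - 2*m + 2*c + 2*d + t - 2) (rfl : W (t) = W (t)) (by omega)) (by omega)) (by omega)))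 (fun u0 => (fin X.al.per 0 _ (pr X.bb X.al.per 0 (2*N - 2*m + 2*d + t - 2) (pf X.f3 X.al.per 0 (2*N + 2*a + 2*b - 2*m + 2*d + t - 2) (pf X.c1 X.al.per 0 (2*a + 2*b - 2*c + t) (rfl : W (t) = W (t)) (by omega)) (by omega)) (by omega)) (by omega)))

theorem T0_199 (X : C W N Q i a b l m c d L U V Y) (hb : B N Q i a b l m c d L U V Y)
    (h : Q + 2*m + 2 ≤ 2*N + 2*b + 2*c + 2*d ∧ Q + 2*m + 1 ≤ 2*N + i + l + 2*c + 2*d ∧ i + l + m + 3 ≤ 2*a + 4*b ∧ m + 2 ≤ 2*a + 2*b ∧ 2*N + l + 2*c + 2*d + 2*U + 2 ≤ 2*a + 2*b ∧ N + l + c + d + U + 2 ≤ 2*a + 2*b ∧ 2*a + 4*b ≤ l + m + L + 2*U + 3 ∧ 2*N + Q + 2*a + 2*b ≤ i + 2*l + 2*m + L + 2*U + 6) :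
    False := by
  have b1 := hb.b1
  have b2 := hb.b2
  have b3 := hb.b3
  have b17 := hb.b17
  have b18 := hb.b18
  have b19 := hb.b19
  have b29 := hb.b29
  have b39 := hb.b39
  have b41 := hb.b41
  have b42 := hb.b42
  have b44 := hb.b44
  have b45 := hb.b45
  obtain ⟨g1, g2, g3, g4, g5, g6, g7, g8⟩ := h
  have k1 : Q + 2*m + 2 ≤ 2*N + i + 2*a + 2*b + 2*c + 2*d := by clear * - b1 b2 g1; omega
  have k2 : i + 2*m + 3 ≤ 2*N + 2*b + 2*c + 2*d := by clear * - b2 b3 g1; omega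
  have k3 : m + 2 ≤ N + a + b + c + d := by clear * - b2 b17 b18 b19 g1; omega
  have k4 : 2*m + 2 ≤ 2*N + l + 2*c + 2*d := by clear * - b2 b3 g2; omega
  have k5 : l + m + 3 ≤ 4*a + 4*b := by clear * - b1 b2 g3; omega
  have k6 : a + b ≤ N + l + c + d + U := by clear * - b2 b39 b44 g7; omega
  have k7 : Q + 2*a + 2*b ≤ 2*N + i + 2*l + 2*c + 2*d + 2*U + 2 := by clear * - b29 g8; omega
  have k8 : 2*a + 4*b ≤ 2*N + l + m + 2*U + 1 := by clear * - b41 b42 b44 g6 g7; omega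
  have k9 : Q + 2*a + 2*b ≤ i + 2*l + 2*m + 2*U + 4 := by clear * - b41 b42 b44 g6 g7 g8; omega
  have k10 : a + b ≤ l + m + U + 1 := by clear * - b17 b39 b44 b45 g6 g7; omega
  have k11 : 2*N + 2*a + 2*b ≤ 2*l + 2*m + L + 2*U + 5 := by clear * - b2 b3 g8; omega
  clear * - X g1 g2 g3 g4 g5 g6 g7 g8 k1 k2 k3 k4 k5 k6 k7 k8 k9 k10 k11
  exact X.lam.bef X.al (max (4*N + i - 2*b - 2*m + 2*c + 2*d - 1) (max (4*N + Q - 2*b - 2*m + 2*c + 2*d - 2) (2*N + i + l - m + 2*c + 2*d + 1))) (4*N + i - 2*a - 4*b + 2*l + 2*c + 2*d + 2*U + 2) (-4*N + 2*a + 4*b + 2*m - 2*c - 2*d + 2) (by omega) (fun t h1 h2 => by (try simp only [max_le_iff, lt_min_iff] at h1 h2); exact (lt_or_ge t (min (4*N + i - 2*b + l - 2*m + 2*c + 2*d - 1) (min (4*N + i + 2*a - 2*m + 2*c + 2*d - 2) (4*N - 2*m + 2*c + 2*d - 2)))).elim (fun u0 => by (try simp only [lt_min_iff] at u0); exact (fin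 X.al.per 0 _ (pf X.bb X.al.per 0 (-4*N + 2*a + 4*b + 2*m - 2*c - 2*d + t + 2) (pf X.a2 X.al.per 1 (-4*N + 2*b + 2*m - 2*c - 2*d + t + 2) (pr X.d2 X.al.per 0 (-2*N + 2*m - 2*c - 2*d + t + 2) (rfl : W (t) = W (t)) (by omega)) (by omega)) (by omega)) (by omega))) (fun u0 => (fin X.al.per 0 _ (pr X.f3 X.al.per 0 (-4*N + 2*a + 4*b + 2*m - 2*c - 2*d + t + 2) (pf X.bb X.al.per 0 (-2*N + 2*a + 4*b + t) (pf X.a2 X.al.per 1 (-2*N + 2*b + t) (rfl : W (t) = W (t)) (by omega)) (by omega)) (by omega)) (by omega)))) (Or.inr (Or.inr ⟨(fin X.al.per 1 _ (pr X.a2 X.al.per 0 (2*N + i - 2*a - 4*b + 2*l + 2*c + 2*d + 2*U + 2) (pr X.bb X.al.per 0 (2*N + i - 2*a - 2*b + 2*l + 2*c + 2*d + 2*U + 2) (rfl : W (2*N + i + 2*l + 2*c + 2*d + 2*U + 2) = W (2*N + i + 2*l + 2*c + 2*d + 2*U + 2)) (by omega)) (by omega)) (by omega)), (fin X.al.per 1 _ (rfl : W (-2*N + i + 2*l + 2*m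 + 2*U + 4) = W (-2*N + i + 2*l + 2*m + 2*U + 4)) (by omega))⟩))

theorem T0_202 (X : C W N Q i a b l m c d L U V Y) (hb : B N Q i a b l m c d L U V Y)
    (h : i + l + m + 2*c + 2*d + 2*Y + 3 ≤ 0 ∧ 6*N + 4*c + 4*d ≤ i + l + 4*m + 5 ∧ m + 2 ≤ 2*N + 2*c + 2*d + Y) :
    False := by
  have b21 := hb.b21
  have b39 := hb.b39
  have b41 := hb.b41
  have b42 := hb.b42
  have b43 := hb.b43
  obtain ⟨g1, g2, g3⟩ := h
  have k1 : 2*N ≤ i + 2*l + 2*m + 2*U + 4 := by clear * - b43 g2 g3; omega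
  have k2 : N + c + d ≤ m + 1 := by clear * - b21 b43 g2 g3; omega
  have k3 : N + 2*c + 2*d + Y ≤ m := by clear * - b21 b39 b41 b42 b43 g1 g2 g3; omega
  clear * - X g1 g2 g3 k1 k2 k3
  exact X.al.ubP (4*N - 2*m + 4*c + 4*d + 2*Y - 2) (by omega) (by omega) fun t h1 h2 => (fin X.al.per (-1) _ (pf X.g0 X.al.per 0 (6*N - 2*m + 4*c + 4*d + 2*Y + t - 2) (pf X.d2 X.al.per 0 (6*N - 4*m + 4*c + 4*d + t - 4) (pf X.f3 X.al.per (-1) (4*N - 2*m + 2*c + 2*d + t - 2) (rfl : W (t) = W (t)) (by omega)) (by omega)) (by omega)) (by omega))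

end Pool.Agent.MP_a38735_al.WL.E342
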