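import Pool.Agent.MP_a38735_al.E342h

set_option autoImplicit false
set_option linter.unusedVariables false
set_option linter.unusedSimpArgs false

namespace Pool.Agent.MP_a38735_al.WL.E342

variable {G : Type*} [Group G]

variable {W : ℤ → G} {N Q i a b l m c d L U V Y : ℤ}

theorem T0_203 (X : C W N Q i a b l m c d L U V Y) (hb : B N Q i a b l m c d L U V Y)
    (h : l + m + U + V + 3 ≤ N + a ∧ 3*N + V ≤ i + a + 2*l + 2*m + L + 3*U + 6) :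
    False := by
  have b3 := hb.b3
  have b17 := hb.b17
  obtain ⟨g1, g2⟩ := h
  have k1 : i + a + l + m + U + 3 ≤ N + Q + V := by clear * - b3 b17 g1; omega
  have k2 : l + m + U + 3 ≤ N + a + V := by clear * - b17 g1; omega
  clear * - X g1 g2 k1 k2
  exact X.al.ninv (-N + i + a + l + m + U - V + 2) (fin X.al.per 0 _ (pr X.g3 X.al.per 0 (-N + i + a + l + m + U - V + 2) (af X.t2 X.al.per 0 (-3*N + i - a + 3*l + 3*m + 3*U - V + 6) (rfl : W (-N + i + a + l + m + U - V + 2) = W (-N + i + a + l + m + U - V + 2)) (by omega)) (by omega)) (by omega))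

theorem T0_205 (X : C W N Q i a b l m c d L U V Y) (hb : B N Q i a b l m c d L U V Y)
    (h : 2*l + 3*m + 2*U + 6 ≤ 3*N + 2*a + b + c + d + 2*V ∧ i + b + 2*l + m + c + d + 2*U + 4 ≤ N) :
    False := by
  have b3 := hb.b3
  have b4 := hb.b4
  have b17 := hb.b17
  have b18 := hb.b18
  obtain ⟨g1, g2⟩ := h
  have k1 : 3*N + b + c + d + 2*V ≤ i + 2*l + 3*m + 2*U + 5 := by clear * - b17 b18 g2; omega
  have k2 : N + c + d ≤ b + m := by clear * - b3 b4 b17 b18 g2; omega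
  have k3 : N + b + c + d + 2*V ≤ m := by clear * - b18 g2; omega
  have k4 : i + 2*l + 3*m + 2*U + 6 ≤ 3*N + Q + b + c + d + 2*V := by clear * - b3 g1; omega
  clear * - X g1 g2 k1 k2 k3 k4
  exact X.al.ninv (-3*N + i - b + 2*l + 3*m - c - d + 2*U - 2*V + 5) (fin X.al.per 0 _ (ar X.t2 X.al.per 1 (-3*N + i - b + 2*l + 3*m - c - d + 2*U - 2*V + 5) (pr X.f2 X.al.per 0 (N + i + b + 2*l + m + c + d + 2*U + 3) (pf X.a1 X.al.per 0 (-3*N + i + b + 2*l + 3*m - c - d + 2*U - 2*V + 5) (rfl : W (-3*N + i - b + 2*l + 3*m - c - d + 2*U - 2*V + 5) = W (-3*N + i - b + 2*l + 3*m - c - d + 2*U - 2*V + 5)) (by omega)) (by omega)) (by omega)) (by omega))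

theorem T0_206 (X : C W N Q i a b l m c d L U V Y) (hb : B N Q i a b l m c d L U V Y)
    (h : i + 2*m + 2*c + 2*Y + 3 ≤ Q ∧ i + l + m + 2*c + 3 ≤ Q + 2*a + 2*b ∧ Q + 2*a + 2*b ≤ i + l + 1 ∧ Q + 2*a + 2*b + 2*m + 2*Y + 2 ≤ 2*N ∧ 0 ≤ m + c + Y) :
    False := by
  have b7 := hb.b7
  have b8 := hb.b8
  have b39 := hb.b39
  have b41 := hb.b41
  have b42 := hb.b42
  have b43 := hb.b43
  obtain ⟨g1, g2, g3, g4, g5⟩ := h
  have k1 : m + c + Y + 2 ≤ N := by clear * - b39 b41 b42 b43 g2 g3 g5; omega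
  clear * - X g1 g2 g3 g4 g5 b8 b7 k1
  exact X.al.ubQ (2*m + 2*c + 2*Y + 2) (by omega) (by omega) fun t h1 h2 => (fin X.al.per 0 _ (pf X.c2 X.al.per 0 (2*m + 2*c + 2*Y + t + 2) (pf X.g0 X.al.per 0 (2*a + 2*b + 2*m + 2*Y + t + 2) (pf X.bb X.al.per 0 (2*a + 2*b + t) (rfl : W (t) = W (t)) (by omega)) (by omega)) (by omega)) (by omega))

theorem T0_207 (X : C W N Q i a b l m c d L U V Y) (hb : B N Q i a b l m c d L U V Y)
    (h : 0 ≤ l + 2*c ∧ 2*a + 2*b + m + 2 ≤ 2*N + 2*d ∧ m + 2*d + 2 ≤ 2*a + 2*b + 2*c ∧ N + 2*c ≤ m + 1 ∧ m + 1 ≤ N + 2*c) :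
    False := by
  have b4 := hb.b4
  have b11 := hb.b11
  obtain ⟨g1, g2, g3, g4, g5⟩ := h
  have k1 : Q ≤ i + 2*a + 2*b + l + 2*c + 1 := by clear * - b4 g1; omega
  have k2 : i + 2*a + 2*b + l + 2*c + 2 ≤ 2*N + 2*d := by clear * - b11 g2; omega
  clear * - X g1 g2 g3 g4 g5 k1 k2
  exact X.n2.xz (fin X.al.per 0 _ (pf X.d2 X.al.per 0 (2*N + i + 2*a + 2*b + l - 2*m + 4*c - 1) (pf X.d1 X.al.per 0 (i + 2*a + 2*b + l + 2*c - 2*d + 1) (pf X.bb X.al.per 0 (i + 2*a + 2*b + l + 2*c + 1) (rfl : W (i + l + 2*c + 1) = W (i + l + 2*c + 1)) (by omega)) (by omega)) (by omega)) (by omega)).symm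

theorem T0_210 (X : C W N Q i a b l m c d L U V Y) (hb : B N Q i a b l m c d L U V Y)
    (h : N + 2*a + 2*b + V ≤ 2*l + 2*m + c + 2*U + 3 ∧ i + 2*a + 2*b + 2*l + 2*m + 2*U + 5 ≤ 3*N + c + V ∧ i + 2*l + 2*m + c + 2*U + 5 ≤ N + Q + 2*a + 2*b + V) :
    False := by
  have b8 := hb.b8
  have b11 := hb.b11
  have b18 := hb.b18
  have b40 := hb.b40
  have b43 := hb.b43
  obtain ⟨g1, g2, g3⟩ := h
  have k1 : l + 2*m + c + 2*U + 4 ≤ N + 2*a + 2*b + V := by clear * - b8 g3; omega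
  have k2 : N + c + V ≤ l + 2*m + 2*U + 2 := by clear * - b11 b18 b40 b43; omega
  have k3 : 2*a + 2*b + V + 1 ≤ N + c := by clear * - b18 g2; omega
  clear * - X g1 g2 g3 k1 k2 k3
  exact X.al.ninv (-N + i - 2*a - 2*b + 2*l + 2*m + c + 2*U - V + 4) (fin X.al.per 0 _ (ar X.t2 X.al.per 1 (-N + i - 2*a - 2*b + 2*l + 2*m + c + 2*U - V + 4) (pr X.c2 X.al.per 0 (-N + i + 2*a + 2*b + 2*l + 2*m - c + 2*U - V + 4) (pf X.bb X.al.per 0 (-N + i + 2*l + 2*m + c + 2*U - V + 4) (rfl : W (-N + i - 2*a - 2*b + 2*l + 2*m + c + 2*U - V + 4) = W (-N + i - 2*a - 2*b + 2*l + 2*m + c + 2*U - V + 4)) (by omega)) (by omega)) (by omega)) (by omega))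

theorem T0_215 (X : C W N Q i a b l m c d L U V Y) (hb : B N Q i a b l m c d L U V Y)
    (h : 2*m + V + Y + 3 ≤ 2*N + c + d ∧ i + 2*l + c + d + 2*U + 3 ≤ Q + V + Y ∧ V ≤ l + m + c + d + 2*U + Y + 1) :
    False := by
  have b8 := hb.b8
  have b17 := hb.b17
  have b18 := hb.b18
  have b21 := hb.b21
  obtain ⟨g1, g2, g3⟩ := h
  have k1 : 2*N + c + d + V ≤ l + 3*m + 2*U + Y + 3 := by clear * - b17 b18 b21 g3; omega
  have k2 : 2*m + Y + 3 ≤ 2*N + c + d + V := by clear * - b17 g1; omega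
  have k3 : l + c + d + 2*U + 2 ≤ V + Y := by clear * - b8 g2; omega
  clear * - X g1 g2 g3 k1 k2 k3
  exact X.al.ninv (i + 2*l + c + d + 2*U - V - Y + 2) (fin X.al.per 0 _ (pr X.g0 X.al.per 0 (i + 2*l + c + d + 2*U - V - Y + 2) (pf X.f3 X.al.per (-1) (i + 2*l + 2*m + c + d + 2*U - V + Y + 4) (af X.t2 X.al.per 0 (-4*N + i + 2*l + 4*m - c - d + 2*U - V + Y + 6) (rfl : W (i + 2*l + c + d + 2*U - V - Y + 2) = W (i + 2*l + c + d + 2*U - V - Y + 2)) (by omega)) (by omega)) (by omega)) (by omega))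

theorem T0_217 (X : C W N Q i a b l m c d L U V Y) (hb : B N Q i a b l m c d L U V Y)
    (h : 2*N + 2*c + 2*d ≤ m ∧ i + 2*a + 2*b + l + m + 3 ≤ 2*N ∧ 4*N + l + 4*c + 4*d + 2*U ≤ 2*m ∧ i + 2*a + 2*b + 2*l + 2*c + 2*d + 2*U + 3 ≤ 0 ∧ 6*N + 4*c + 4*d + 2*V ≤ l + 4*m + 4 ∧ 2*N + i + 2*a + 2*b + 2*c + 2*d + 2*V ≤ 2*m + 1 ∧ 3*N + 2*c + 2*d + V ≤ a + b + 2*m + 1 ∧ i + 2*m + L + 4 ≤ 4*N + 2*c + 2*d ∧ 4*m + L + 5 ≤ 6*N + l + 4*c + 4*d + 2*V ∧ i + l + m + L + 4 ≤ 2*N + 2*a + 2*b ∧ 3*m + L + 5 ≤ 4*N + 2*a + 2*b + 2*c + 2*d + 2*V ∧ i + 2*l + 2*c + 2*d + L + 2*U + 4 ≤ 2*a + 2*b ∧ l + 2*m + L + 2*U + 5 ≤ 2*N + 2*a + 2*b + 2*V) :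
    False := by
  have b38 := hb.b38
  have b41 := hb.b41
  have b43 := hb.b43
  obtain ⟨g1, g2, g3, g4, g5, g6, g7, g8, g9, g10, g11, g12, g13⟩ := h
  have k1 : a + b + 2*m + 3 ≤ 4*N + 2*c + 2*d + V := by clear * - b38 b41 b43 g4 g9 g12; omega
  clear * - X g1 g2 g3 g4 g5 g6 g7 g8 g9 g10 g11 g12 g13 k1
  exact absurd (X.lam.mx (max (4*N + i - 2*a - 2*b + 2*l - 2*m + 4*c + 4*d + 2*U + 1) (max (2*N + i - 2*a - 2*b + l - m + 2*c + 2*d + 1) (i + 1))) (min (6*N + i + l - 4*m + 4*c + 4*d + 2*V - 3) (4*N - 2*m + 2*c + 2*d - 2)) (-6*N + 2*a + 2*b + 4*m - 4*c - 4*d - 2*V + 4) (by omega) (by omega) fun t h1 h2 => by (try simp only [max_le_iff, lt_min_iff] at h1 h2); exact (lt_or_ge t (min (4*N - 2*a - 2*b - 2*m + 2*c + 2*d - 2) (i + l + 1))).elim (fun u0 => by (try simp only [lt_min_iff] at u0); exact (fin X.al.per 0 _ (pf X.f2 X.al.per 0 (-6*N + 2*a +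 2*b + 4*m - 4*c - 4*d - 2*V + t + 4) (pr X.d2 X.al.per 0 (-2*N + 2*a + 2*b + 2*m - 2*c - 2*d + t + 2) (pf X.bb X.al.per 0 (2*a + 2*b + t) (rfl : W (t) = W (t)) (by omega)) (by omega)) (by omega)) (by omega))) (fun u0 => (fin X.al.per 0 _ (pf X.bb X.al.per 0 (-6*N + 2*a + 2*b + 4*m - 4*c - 4*d - 2*V + t + 4) (pf X.f2 X.al.per 0 (-6*N + 4*m - 4*c - 4*d - 2*V + t + 4) (pr X.d2 X.al.per 0 (-2*N + 2*m - 2*c - 2*d + t + 2) (rfl : W (t) = W (t)) (by omega)) (by omega)) (by omega)) (by omega)))) (by omega)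

theorem T0_218 (X : C W N Q i a b l m c d L U V Y) (hb : B N Q i a b l m c d L U V Y)
    (h : 2*N + i + l + 2*c + 4*d + 1 ≤ 2*b + m ∧ b + m + 2 ≤ 2*N + c + 2*d ∧ Q ≤ 2*b ∧ 2*N + 2*d ≤ i + l + m + 2 ∧ 4*N + 2*c + 4*d ≤ i + 2*a + 2*b + 2*m + 2) :
    False := by
  have b36 := hb.b36
  have b40 := hb.b40
  have b41 := hb.b41
  have b42 := hb.b42
  have b43 := hb.b43
  obtain ⟨g1, g2, g3, g4, g5⟩ := h
  have k1 : N + c + 2*d ≤ b + m := by clear * - b36 b40 b41 b42 b43 g1; omega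
  clear * - X g1 g2 g3 g4 g5 k1
  exact X.al.ubP (4*N - 2*b - 2*m + 2*c + 4*d - 2) (by omega) (by omega) fun t h1 h2 => (fin X.al.per 0 _ (pr X.a1 X.al.per 0 (4*N - 2*b - 2*m + 2*c + 4*d + t - 2) (pr X.d1 X.al.per 0 (4*N - 2*m + 2*c + 4*d + t - 2) (pf X.d2 X.al.per (-1) (4*N - 2*m + 2*c + 2*d + t - 2) (rfl : W (t) = W (t)) (by omega)) (by omega)) (by omega)) (by omega))

theorem T0_220 (X : C W N Q i a b l m c d L U V Y) (hb : B N Q i a b l m c d L U V Y)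
    (h : 2*N + i + l + 2*c + 2*d + 2*U + 2*V ≤ L ∧ 2*V ≤ i + 2*a ∧ a + 1 ≤ V ∧ 2*N + Q + 2*V ≤ i + 2*a + 2*b + l + m + L + 2*U + 4) :
    False := by
  have b2 := hb.b2
  obtain ⟨g1, g2, g3, g4⟩ := h
  have k1 : 1 ≤ V := by clear * - b2 g3; omega
  clear * - X g1 g2 g3 g4 k1
  exact X.n4.yx (sw (fin X.al.per 0 _ (pf X.g4 X.al.per 0 (-2*N + i + 2*l + 2*m + 2*U - 2*V + 4) (ar X.s1 X.al.per 0 (i + 2*a - 2*V) (pr X.g2 X.al.per 0 (i + 2*V) (rfl : W (-2*N + i + 2*l + 2*m + 2*U + 4) = W (-2*N + i + 2*l + 2*m + 2*U + 4)) (by omega)) (by omega)) (by omega)) (by omega)))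

theorem T0_222 (X : C W N Q i a b l m c d L U V Y) (hb : B N Q i a b l m c d L U V Y)
    (h : 2*i + 2*a + 1 ≤ Q ∧ 2*l + 2*m + 2*U + 5 ≤ 2*N + a + V ∧ 4*N + 2*a + 2*V ≤ i + 4*l + 4*m + 4*U + 8) :
    False := by
  have b18 := hb.b18
  have b26 := hb.b26
  have b36 := hb.b36
  have b40 := hb.b40
  have b43 := hb.b43
  obtain ⟨g1, g2, g3⟩ := h
  have k1 : N + a + V ≤ 2*l + 2*m + 2*U + 3 := by clear * - b26 b36 b40 b43 g1; omega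
  clear * - X g1 g2 g3 b18 k1
  exact X.al.ubP (4*N + 2*a - 4*l - 4*m - 4*U + 2*V - 8) (by omega) (by omega) fun t h1 h2 => (fin X.al.per 0 _ (ar' X.s1 X.al.per 0 (4*N + 2*a - 4*l - 4*m - 4*U + 2*V + t - 8) (ar X.t2 X.al.per 0 (-4*N + 2*i + 4*l + 4*m + 4*U - 2*V - t + 8) (rfl : W (t) = W (t)) (by omega)) (by omega)) (by omega))

theorem T0_224 (X : C W N Q i a b l m c d L U V Y) (hb : B N Q i a b l m c d L U V Y)
    (h : a + b ≤ N + c + d + Y ∧ N + c + d + Y ≤ a + b ∧ m + 2 ≤ 2*a + 2*b ∧ i + l + m + 3 ≤ 2*N + 2*c ∧ m + c + Y + 2 ≤ a + b ∧ i + l + 2*m + 2*Y + 4 ≤ 2*N ∧ 2*a + 2*b + L ≤ l + 2*m + 2*Y + 1 ∧ i + 4*a + 4*b + L ≤ 2*N + 2*m + 2*c + 2*Y ∧ 2*a + 2*b + 2*c + L ≤ 2*m + 2*Y ∧ i + 4*a + 4*b + l + L + 1 ≤ 2*N + 2*m + 2*Y) :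
    False := by
  have b38 := hb.b38
  have b39 := hb.b39
  have b41 := hb.b41
  obtain ⟨g1, g2, g3, g4, g5, g6, g7, g8, g9, g10⟩ := h
  have k1 : d ≤ m := by clear * - b38 b39 b41 g2 g4 g8 g9; omega
  clear * - X g1 g2 g3 g4 g5 g6 g7 g8 g9 g10 k1
  exact absurd (X.lam.mx (max (i + l + m + 2*c + 3) (max (i + 2*a + 2*b + l + 2*c + 2) (i + 2*a + 2*b + 1))) (min (2*N - 2*a - 2*b + 2*m + 2*c + 2*Y + 2) (i + l + 2*m + 2*Y + 3)) (2*N - 2*m + 2*d - 2) (by omega) (by omega) fun t h1 h2 => by (try simp only [max_le_iff, lt_min_iff] at h1 h2); exact (lt_or_ge t (min (2*N + 2*c) (i + 2*a + 2*b + l + 1))).elim (fun u0 => by (try simp only [lt_min_iff] at u0); exact (fin X.al.per 0 _ (pf X.d2 X.al.per 0 (2*N - 2*m + 2*d + t - 2) (pr X.c2 X.al.per 0 (-2*c + t) (pr X.bb X.al.per 0 (-2*a - 2*b + t) (rfl : W (t) = W (t)) (by omega)) (by omega)) (by omega)) (by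 omega))) (fun u0 => (fin X.al.per 0 _ (pr X.c2 X.al.per 0 (2*a + 2*b - 2*m - 2*c - 2*Y + t - 2) (pr X.g0 X.al.per 0 (-2*m - 2*Y + t - 2) (rfl : W (t) = W (t)) (by omega)) (by omega)) (by omega)))) (by omega)

theorem T0_225 (X : C W N Q i a b l m c d L U V Y) (hb : B N Q i a b l m c d L U V Y)
    (h : 2*V + 1 ≤ a ∧ i + a + 2*l + 2*m + 2*U + 5 ≤ 2*N + Q + 2*V ∧ 2*N + Q ≤ i + a + 2*b + l + m + L + 2*U + 4 ∧ 2*N + i + a + l + 2*c + 2*d + 2*U ≤ L) :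
    False := by
  have b17 := hb.b17
  obtain ⟨g1, g2, g3, g4⟩ := h
  have k1 : 1 ≤ a := by clear * - b17 g1; omega
  clear * - X g1 g2 g3 g4 k1
  exact X.al.ninv (-2*N + i + a + 2*l + 2*m + 2*U - 2*V + 4) (fin X.al.per 0 _ (pf X.g2 X.al.per 0 (-2*N + i + a + 2*l + 2*m + 2*U - 2*V + 4) (pr X.g4 X.al.per 0 (i + a) (af X.t2 X.al.per 0 (-2*N + i - a + 2*l + 2*m + 2*U + 4) (rfl : W (-2*N + i + a + 2*l + 2*m + 2*U - 2*V + 4) = W (-2*N + i + a + 2*l + 2*m + 2*U - 2*V + 4)) (by omega)) (by omega)) (by omega)) (by omega))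

theorem T0_226 (X : C W N Q i a b l m c d L U V Y) (hb : B N Q i a b l m c d L U V Y)
    (h : 2*N + i + 2*a + l + 2*c + 2*d + 2*U ≤ L ∧ V + 1 ≤ a ∧ i + 2*a + 2*l + 2*m + 2*U + 5 ≤ 2*N + Q + 2*V ∧ 2*N + Q ≤ i + 2*b + l + m + L + 2*U + 4) :
    False := by
  have b17 := hb.b17
  obtain ⟨g1, g2, g3, g4⟩ := h
  have k1 : 1 ≤ a := by clear * - b17 g2; omega
  clear * - X g1 g2 g3 g4 k1
  exact X.n1.yx (sw (fin X.al.per 0 _ (pr X.g4 X.al.per 0 (i) (af X.t2 X.al.per 0 (-2*N + i - 2*a + 2*l + 2*m + 2*U + 4) (pf X.g2 X.al.per 0 (-2*N + i + 2*a + 2*l + 2*m + 2*U - 2*V + 4) (rfl : W (i + 2*a) = W (i + 2*a)) (by omega)) (by omega)) (by omega)) (by omega)))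

theorem T0_228 (X : C W N Q i a b l m c d L U V Y) (hb : B N Q i a b l m c d L U V Y)
    (h : 2*l + 2*m + d + 2*U + 5 ≤ N + 2*a + b + V ∧ N + Q + V ≤ i + b + 2*l + 2*m + d + 2*U + 4 ∧ b + l + 3*m + 2*U + 5 ≤ 3*N + 2*c + d + V) :
    False := by
  have b3 := hb.b3
  have b11 := hb.b11
  have b17 := hb.b17
  have b18 := hb.b18
  obtain ⟨g1, g2, g3⟩ := h
  have k1 : N + b + V ≤ i + 2*l + 2*m + d + 2*U + 4 := by clear * - b11 b17 b18 g3; omega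
  have k2 : b + V + 1 ≤ N + d := by clear * - b11 b18 g3; omega
  have k3 : i + 2*l + 2*m + d + 2*U + 5 ≤ N + Q + b + V := by clear * - b3 g1; omega
  clear * - X g1 g2 g3 k1 k2 k3
  exact X.al.ninv (-N + i - b + 2*l + 2*m + d + 2*U - V + 4) (fin X.al.per 0 _ (ar X.t2 X.al.per 1 (-N + i - b + 2*l + 2*m + d + 2*U - V + 4) (pf X.d1 X.al.per 0 (-N + i + b + 2*l + 2*m - d + 2*U - V + 4) (pf X.a1 X.al.per 0 (-N + i + b + 2*l + 2*m + d + 2*U - V + 4) (rfl : W (-N + i - b + 2*l + 2*m + d + 2*U - V + 4) = W (-N + i - b + 2*l + 2*m + d + 2*U - V + 4)) (by omega)) (by omega)) (by omega)) (by omega))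

theorem T0_229 (X : C W N Q i a b l m c d L U V Y) (hb : B N Q i a b l m c d L U V Y)
    (h : Q + c ≤ i + 2*a + b + d ∧ 2*a + b + m + 1 ≤ 2*N + l + 3*c + d ∧ b + l + c + d + 2 ≤ 0) :
    False := by
  have b2 := hb.b2
  have b3 := hb.b3
  have b6 := hb.b6
  obtain ⟨g1, g2, g3⟩ := h
  have k1 : b + d ≤ i + c := by clear * - b6 g3; omega
  have k2 : c + 1 ≤ b + d := by clear * - b3 g1; omega
  have k3 : i + c + 1 ≤ Q + b + d := by clear * - b2 b3 g1; omega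
  clear * - X g1 g2 g3 k1 k2 k3
  exact X.al.ninv (i - b + c - d) (fin X.al.per 0 _ (pr X.c1 X.al.per 0 (i - b + c - d) (pf X.d1 X.al.per 0 (i + 2*a + b - c - d) (af X.s1 X.al.per 0 (i + 2*a + b - c + d) (rfl : W (i - b + c - d) = W (i - b + c - d)) (by omega)) (by omega)) (by omega)) (by omega))

theorem T0_230 (X : C W N Q i a b l m c d L U V Y) (hb : B N Q i a b l m c d L U V Y)
    (h : 2*a + 2*b + V ≤ 2*l + m + 2*c + d + 2*U + 2 ∧ 2*N + 2*c + d + V ≤ 2*a + 2*b + l + 2*m + 2*U + 2 ∧ i + 2*a + 2*b + 2*l + 3*m + 2*U + 6 ≤ 4*N + 2*c + d + V ∧ i + 2*l + m + 2*c + d + 2*U + 4 ≤ Q + 2*a + 2*b + V) :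
    False := by
  have b4 := hb.b4
  have b7 := hb.b7
  have b8 := hb.b8
  have b17 := hb.b17
  have b18 := hb.b18
  have b21 := hb.b21
  obtain ⟨g1, g2, g3, g4⟩ := h
  have k1 : l + m + 2*c + d + 2*U + 3 ≤ 2*a + 2*b + V := by clear * - b8 g4; omega
  have k2 : V ≤ l + m + d + 2*U + 1 := by clear * - b4 b7 g1; omega
  have k3 : i + 2*a + 2*b + 2*l + m + d + 2*U + 4 ≤ 2*N + V := by clear * - b17 b18 b21 g3; omega
  have k4 : 2*a + 2*b + m + V + 2 ≤ 2*N + 2*c + d := by clear * - b18 g3; omega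
  clear * - X g1 g2 g3 g4 k1 k2 k3 k4
  exact X.al.ninv (i - 2*a - 2*b + 2*l + m + 2*c + d + 2*U - V + 3) (fin X.al.per 0 _ (ar X.t2 X.al.per 1 (i - 2*a - 2*b + 2*l + m + 2*c + d + 2*U - V + 3) (pr X.d2 X.al.per 0 (-2*N + i + 2*a + 2*b + 2*l + 3*m - 2*c - d + 2*U - V + 5) (pr X.c2 X.al.per 0 (i + 2*a + 2*b + 2*l + m + d + 2*U - V + 3) (pf X.bb X.al.per 0 (i + 2*l + m + 2*c + d + 2*U - V + 3) (rfl : W (i - 2*a - 2*b + 2*l + m + 2*c + d + 2*U - V + 3) = W (i - 2*a - 2*b + 2*l + m + 2*c + d + 2*U - V + 3)) (by omega)) (by omega)) (by omega)) (by omega)) (by omega))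

theorem T0_231 (X : C W N Q i a b l m c d L U V Y) (hb : B N Q i a b l m c d L U V Y)
    (h : b ≤ i + a ∧ l + 2*c + 2 ≤ 3*a + b ∧ a + b ≤ i + l + 2*c + 1 ∧ a ≤ b + l + 2*c) :
    False := by
  have b11 := hb.b11
  have b40 := hb.b40
  have b42 := hb.b42
  obtain ⟨g1, g2, g3, g4⟩ := h
  have k1 : b + l + 2*c + 1 ≤ a + m := by clear * - b11 g1; omega
  have k2 : a + b ≤ m := by clear * - b11 g3; omega
  have k3 : 1 ≤ l := by clear * - b40 b42; omega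
  clear * - X g1 g2 g3 g4 k1 k2 k3
  obtain ⟨K0, hL⟩ : ∃ K0 : ℤ, -4*a - 2*b + 2*l + 2*c + 4 ≤ 2*K0 ∧ -4*a - 2*b + 2*c + 2 ≤ 2*K0 ∧ -2*b - 2*l - 2*c ≤ 2*K0 ∧ -2*b - 2*c + 2 ≤ 2*K0 ∧ 2*K0 + 2*(a + b) - 2 ≤ 2*i - 2*b + 2*l + 2*c + 2 ∧ 2*K0 + 2*(a + b) - 2 ≤ 2*b + 2*l + 2*c ∧ 2*K0 + 2*(a + b) - 2 ≤ 4*a + 2*b - 2*c - 2 ∧ 2*K0 + 2*(a + b) - 2 ≤ -2*b + 2*m - 2*c := ⟨((max (-2*b - 2*c + 2) (max (-2*b - 2*l - 2*c) (max (-4*a - 2*b + 2*c + 2) (-4*a - 2*b + 2*l + 2*c + 4)))) + 1) / 2, by omega⟩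
  obtain ⟨R, hR1, hR2, hR⟩ := pw (A := i + 1) (B := i + 2*a + 2*b + l + 1) (γ := a + b) (by omega) (fun t h1 h2 => (fin X.al.per 0 _ (pf X.bb X.al.per 0 (2*a + 2*b + t) (rfl : W (t) = W (t)) (by omega)) (by omega))) K0
  exact X.al.ninv (i - b + l + c - R + 1) (fin X.al.per 0 _ (ar X.S2 X.al.per 0 (i - b + l + c - R + 1) (pp hR X.al.per 0 (i + b + l + c + R + 1) (pf X.a1 X.al.per 0 (i + b + l + c - R + 1) (rfl : W (i - b + l + c - R + 1) = W (i - b + l + c - R + 1)) (by omega)) (by omega)) (by omega)) (by omega))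

theorem T0_234 (X : C W N Q i a b l m c d L U V Y) (hb : B N Q i a b l m c d L U V Y)
    (h : 2*N + i + l + 2*c + 2*d + 1 ≤ 2*a + 4*b + m ∧ a + 2*b + m + 2 ≤ 2*N + c + d ∧ i + 1 ≤ 2*b ∧ 4*N + 2*c + 2*d ≤ i + 2*a + 2*b + l + 2*m + 3 ∧ 4*N + 2*c + 2*d ≤ i + 4*a + 4*b + 2*m + 2) :
    False := by
  have b39 := hb.b39
  have b40 := hb.b40
  have b41 := hb.b41
  have b43 := hb.b43
  obtain ⟨g1, g2, g3, g4, g5⟩ := h
  have k1 : N + c + d ≤ a + 2*b + m := by clear * - b39 b40 b41 b43 g3 g4; omega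
  clear * - X g1 g2 g3 g4 g5 k1
  exact X.al.ubP (4*N - 2*a - 4*b - 2*m + 2*c + 2*d - 2) (by omega) (by omega) fun t h1 h2 => (fin X.al.per 0 _ (pr X.a1 X.al.per 0 (4*N - 2*a - 4*b - 2*m + 2*c + 2*d + t - 2) (pr X.bb X.al.per 0 (4*N - 2*a - 2*b - 2*m + 2*c + 2*d + t - 2) (pf X.d2 X.al.per (-1) (4*N - 2*m + 2*c + 2*d + t - 2) (rfl : W (t) = W (t)) (by omega)) (by omega)) (by omega)) (by omega))

theorem T0_238 (X : C W N Q i a b l m c d L U V Y) (hb : B N Q i a b l m c d L U V Y)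
    (h : V ≤ 0 ∧ 0 ≤ l + m + d + 2*U + 2 ∧ l + m + d + 2*U + 2 ≤ 0) :
    False := by
  have b2 := hb.b2
  have b11 := hb.b11
  have b17 := hb.b17
  have b18 := hb.b18
  have b33 := hb.b33
  have b44 := hb.b44
  obtain ⟨g1, g2, g3⟩ := h
  have k1 : 2*N + 2*c ≤ l + 3*m + 2*U + 3 := by clear * - b11 b17 b18; omega
  have k2 : l + 2*m + 2*U + 4 ≤ 2*N + 2*c := by clear * - b2 b33 b44 g3; omega
  clear * - X g1 g2 g3 b17 k1 k2
  exact X.n4.tor ⟨(fin X.al.per 0 _ (rfl : W (-2*N + i + 2*l + 2*m + 2*U + 4) = W (-2*N + i + 2*l + 2*m + 2*U + 4)) (by omega)), (fin X.al.per 0 _ (af X.S2 X.al.per 0 (2*N + i - 2*m + 2*c - 2*U - 2) (rfl : W (-2*N + i + 2*l + 2*m + 2*U + 4) = W (-2*N + i + 2*l + 2*m + 2*U + 4)) (by omega)) (by omega))⟩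

theorem T0_239 (X : C W N Q i a b l m c d L U V Y) (hb : B N Q i a b l m c d L U V Y)
    (h : l + m + d + 2*U + 3 ≤ V) :
    False := by
  have b2 := hb.b2
  have b7 := hb.b7
  have b11 := hb.b11
  have b18 := hb.b18
  have b33 := hb.b33
  have b44 := hb.b44
  have g1 := h
  have k1 : 2*N + 2*c + d + V ≤ 2*m + 1 := by clear * - b11 b18 g1; omega
  have k2 : m + 2 ≤ 2*N + 2*c + d + V := by clear * - b2 b33 b44 g1; omega
  have k3 : i + l + m + 3 ≤ 2*N + Q + d + V := by clear * - b2 b7 b33 b44 g1; omega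
  clear * - X g1 k1 k2 k3
  exact X.al.ninv (-2*N + i + l + m - d - V + 2) (fin X.al.per 0 _ (pr X.f1 X.al.per 0 (-2*N + i + l + m - d - V + 2) (af X.S2 X.al.per 0 (2*N + i + l - m + 2*c + d + V) (rfl : W (-2*N + i + l + m - d - V + 2) = W (-2*N + i + l + m - d - V + 2)) (by omega)) (by omega)) (by omega))

theorem T0_241 (X : C W N Q i a b l m c d L U V Y) (hb : B N Q i a b l m c d L U V Y)
    (h : i + l + m + 2*c + 2*d + 2*Y + 3 ≤ 0 ∧ 1 ≤ N + c + d + Y ∧ 4*N + 2*c + 2*d ≤ i + l + 2*m + 3) :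
    False := by
  have b39 := hb.b39
  have b41 := hb.b41
  have b42 := hb.b42
  have b43 := hb.b43
  obtain ⟨g1, g2, g3⟩ := h
  have k1 : c + d + Y + 1 ≤ 0 := by clear * - b39 b41 b42 b43 g1 g2 g3; omega
  clear * - X g1 g2 g3 k1
  exact X.al.ubP (2*N + 2*c + 2*d + 2*Y) (by omega) (by omega) fun t h1 h2 => (fin X.al.per (-1) _ (pf X.g0 X.al.per 0 (4*N + 2*c + 2*d + 2*Y + t) (pf X.d2 X.al.per (-1) (4*N - 2*m + 2*c + 2*d + t - 2) (rfl : W (t) = W (t)) (by omega)) (by omega)) (by omega))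

theorem T0_242 (X : C W N Q i a b l m c d L U V Y) (hb : B N Q i a b l m c d L U V Y)
    (h : 4*N + i + 4*c + 2*d + 2*V ≤ Q + 2*m + 1 ∧ 2*N + Q + 2*a + 2*b + 2*c + 2*d + 2*V ≤ 2*m + 2 ∧ m + 2 ≤ 2*N + 2*c + d + V) :
    False := by
  have b4 := hb.b4
  have b7 := hb.b7
  have b8 := hb.b8
  have b17 := hb.b17
  have b19 := hb.b19
  have b29 := hb.b29
  have b35 := hb.b35
  have b39 := hb.b39
  have b40 := hb.b40
  have b41 := hb.b41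
  have b43 := hb.b43
  obtain ⟨g1, g2, g3⟩ := h
  have k1 : 2*N + i + 2*l + 4*c + 2*d + 2*U + 3 ≤ Q + 2*a + 2*b := by clear * - b4 b17 b19 g1; omega
  have k2 : N + 2*c + d + V ≤ m := by clear * - b17 b29 b35 b39 b40 b41 b43 g1 g2; omega
  clear * - X g1 g2 g3 b8 k1 b7 k2
  exact X.al.ubQ (4*N - 2*m + 4*c + 2*d + 2*V - 2) (by omega) (by omega) fun t h1 h2 => (fin X.al.per 0 _ (pf X.c2 X.al.per 0 (4*N - 2*m + 4*c + 2*d + 2*V + t - 2) (pr X.f2 X.al.per 0 (4*N + 2*a + 2*b - 2*m + 2*c + 2*d + 2*V + t - 2) (pf X.bb X.al.per 0 (2*a + 2*b + t) (rfl : W (t) = W (t)) (by omega)) (by omega)) (by omega)) (by omega))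

theorem T0_243 (X : C W N Q i a b l m c d L U V Y) (hb : B N Q i a b l m c d L U V Y)
    (h : N + l + 2*c + d + U + 1 ≤ a ∧ a ≤ N + l + 2*c + d + U + 1 ∧ i + 2*a + 2*b + 1 ≤ 2*N + 2*c ∧ m + 2 ≤ 2*N + 2*c + d + V ∧ Q ≤ 2*b ∧ 4*N + l + 4*c + 2*d + 2*U ≤ 2*a + 2*b + L + 1) :
    False := by
  have b9 := hb.b9
  have b17 := hb.b17
  have b18 := hb.b18
  have b19 := hb.b19
  have b33 := hb.b33
  have b39 := hb.b39
  have b40 := hb.b40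
  have b41 := hb.b41
  have b43 := hb.b43
  have b44 := hb.b44
  obtain ⟨g1, g2, g3, g4, g5, g6⟩ := h
  have k1 : l + 2*m + 4 ≤ 4*N + 2*c + 2*d + 2*V := by clear * - b33 b44 g1 g4; omega
  have k2 : i + 2*l + 2*m + 2*U + 5 ≤ 2*N + 2*b + 2*V := by clear * - b17 b19 g5; omega
  have k3 : N + b + c + d + V ≤ m := by clear * - b18 g1 g3; omega
  have k4 : m + 2 ≤ 2*N + b + c + d + V := by clear * - b39 b40 b41 b43 b44 g4 g6; omega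
  clear * - X g1 g2 g3 g4 g5 g6 b9 k1 k2 k3 k4
  exact X.al.ubP (-2*N - 2*b + 2*m - 2*c - 2*d - 2*V + 2) (by omega) (by omega) fun t h1 h2 => by (try simp only [max_le_iff, lt_min_iff] at h1 h2); exact (lt_or_ge t (min (2*N + i + 2*a + 2*b - 2*m + 2*c + 2*d + 2*V - 2) (0))).elim (fun u0 => by (try simp only [lt_min_iff] at u0); exact (fin X.al.per 0 _ (pr X.a2 X.al.per 0 (-2*N - 2*b + 2*m - 2*c - 2*d - 2*V + t + 2) (pf X.f2 X.al.per (-1) (-2*N + 2*m - 2*c - 2*d - 2*V + t + 2) (rfl : W (t) = W (t)) (by omega)) (by omega)) (by omega))) (fun u0 => (fin X.al.per 0 _ (pf X.g2 X.al.per 0 (-2*a - 2*b + 2*l + 2*m + 2*c + 2*U - 2*V + t + 4) (pf X.c2 X.al.per (-1) (2*N - 2*a - 2*b + 2*c + t) (rfl : W (t) = W (t)) (by omega)) (by omega)) (by omega)))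

theorem T0_244 (X : C W N Q i a b l m c d L U V Y) (hb : B N Q i a b l m c d L U V Y)
    (h : 4*N + 2*c + 2*d ≤ i + l + 2*m + 3 ∧ 2*N + l + 2*c + 2*d + 2*U + 2 ≤ 2*b + 2*V ∧ V ≤ a ∧ a ≤ V) :
    False := by
  have b9 := hb.b9
  have b13 := hb.b13
  have b17 := hb.b17
  have b29 := hb.b29
  have b33 := hb.b33
  have b44 := hb.b44
  obtain ⟨g1, g2, g3, g4⟩ := h
  have k1 : 2*N + 2*c + 2*d ≤ m := by clear * - b13 g1; omega
  have k2 : 0 ≤ 2*N + l + 2*c + 2*d + 2*U := by clear * - b17 b33 b44 g3; omega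
  have k3 : l + 2*m + 4 ≤ 4*N + 2*a + 2*c + 2*d := by clear * - b17 b29 b33 g3; omega
  have k4 : i + 2*b + l + 2*V + 2 ≤ 2*N := by clear * - b9 g3; omega
  clear * - X g1 g2 g3 g4 k1 k2 k3 k4
  exact X.n2.yz (fin X.al.per 0 _ (pr X.f2 X.al.per 0 (i + 2*b + l + 2*V + 1) (pf X.a1 X.al.per 1 (-4*N + i + 2*b + l + 2*m - 2*c - 2*d + 3) (pr X.f3 X.al.per 0 (-2*N + i + l + 2*m - 2*c - 2*d + 3) (rfl : W (i + l + 1) = W (i + l + 1)) (by omega)) (by omega)) (by omega)) (by omega)).symm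

theorem T0_248 (X : C W N Q i a b l m c d L U V Y) (hb : B N Q i a b l m c d L U V Y)
    (h : a + l + m + U + 3 ≤ N + V ∧ N + i + a + m + U ≤ Q + L + V) :
    False := by
  have b2 := hb.b2
  have b18 := hb.b18
  obtain ⟨g1, g2⟩ := h
  have k1 : N + V ≤ i + a + l + m + U + 2 := by clear * - b2 b18 g1; omega
  have k2 : l + m + U + 3 ≤ N + a + V := by clear * - b2 g1; omega
  clear * - X g1 g2 k1 k2
  exact X.al.ninv (-N + i + a + l + m + U - V + 2) (fin X.al.per 0 _ (pf X.g1 X.al.per 0 (-N + i + a + l + m + U - V + 2) (af X.s1 X.al.per 0 (N + i + a - l - m - U + V - 2) (rfl : W (-N + i + a + l + m + U - V + 2) = W (-N + i + a + l + m + U - V + 2)) (by omega)) (by omega)) (by omega))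

theorem T0_249 (X : C W N Q i a b l m c d L U V Y) (hb : B N Q i a b l m c d L U V Y)
    (h : N + i + 2*a + m + U ≤ Q + L + V ∧ l + m + U + 3 ≤ N + V) :
    False := by
  have b2 := hb.b2
  have b18 := hb.b18
  obtain ⟨g1, g2⟩ := h
  have k1 : N + V ≤ i + l + m + U + 2 := by clear * - b18 g2; omega
  have k2 : l + m + U + 2 ≤ N + i + 2*a + V := by clear * - b2 b18 g2; omega
  have k3 : 3*l + 3*m + 3*U + 7 ≤ 3*N + 2*a + 3*V := by clear * - b2 g2; omega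
  have k4 : i + l + 2*m + 2*U + 3 ≤ Q + L + 2*V := by clear * - b2 g1 g2; omega
  clear * - X g1 g2 k1 k2 k3 k4
  obtain ⟨K0, hL⟩ : ∃ K0 : ℤ, -2*i - 2*a ≤ 2*K0 ∧ -2*Q + 2*i + 2*a + 2*l + 4*m - 2*L + 4*U - 4*V + 4 ≤ 2*K0 ∧ -4*N - 2*a + 4*l + 4*m + 4*U - 4*V + 10 ≤ 2*K0 ∧ 2*K0 + 2*(N - l - m - U + V - 2) - 2 ≤ -2*a - 2 ∧ 2*K0 + 2*(N - l - m - U + V - 2) - 2 ≤ 4*N + 2*a - 4*l - 4*m - 4*U + 4*V - 10 ∧ 2*K0 + 2*(N - l - m - U + V - 2) - 2 ≤ 2*Q - 2*i - 2*a - 2*l - 4*m + 2*L - 4*U + 4*V - 4 := ⟨((max (-4*N - 2*a + 4*l + 4*m + 4*U - 4*V + 10) (max (-2*Q + 2*i + 2*a + 2*l + 4*m - 2*L + 4*U - 4*V + 4) (-2*i - 2*a))) + 1) / 2, by omega⟩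
  obtain ⟨R, hR1, hR2, hR⟩ := pw (A := -2*N + i + 2*l + 2*m + 2*U - 2*V + 5) (B := Q - l - 2*m + L - 2*U + 2*V - 1) (γ := N - l - m - U + V - 2) (by omega) (fun t h1 h2 => (fin X.al.per 0 _ (pr X.g1 X.al.per 0 (2*N - 2*l - 2*m - 2*U + 2*V + t - 4) (rfl : W (t) = W (t)) (by omega)) (by omega))) K0
  exact X.al.ninv (i + a + R) (fin X.al.per 0 _ (pp hR X.al.per 0 (i + a + R) (af X.s1 X.al.per 0 (i + a - R) (rfl : W (i + a + R) = W (i + a + R)) (by omega)) (by omega)) (by omega))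

theorem T0_251 (X : C W N Q i a b l m c d L U V Y) (hb : B N Q i a b l m c d L U V Y)
    (h : N + d ≤ i + a + m + Y + 1 ∧ Q + m + Y + 1 ≤ N + i + a + d ∧ N + a ≤ l + m + d + Y + 1) :
    False := by
  have b3 := hb.b3
  have b6 := hb.b6
  have b13 := hb.b13
  obtain ⟨g1, g2, g3⟩ := h
  have k1 : a + m + Y + 2 ≤ N + d := by clear * - b3 g2; omega
  have k2 : a ≤ N + l + 2*c + d + Y := by clear * - b6 b13 g3; omega
  have k3 : l + d + 2 ≤ N + a + Y := by clear * - b13 g1; omega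
  clear * - X g1 g2 g3 k1 k2 k3
  exact X.al.ninv (-N + i + a + m - d + Y + 1) (fin X.al.per (-1) _ (pf X.g0 X.al.per 0 (N + i + a + m - d + Y + 1) (pf X.d1 X.al.per 0 (N + i + a - m - d - Y - 1) (af X.s1 X.al.per 0 (N + i + a - m + d - Y - 1) (rfl : W (-N + i + a + m - d + Y + 1) = W (-N + i + a + m - d + Y + 1)) (by omega)) (by omega)) (by omega)) (by omega))

theorem T0_252 (X : C W N Q i a b l m c d L U V Y) (hb : B N Q i a b l m c d L U V Y)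
    (h : N + a + b + V + Y ≤ 2*l + m + 2*U + 2 ∧ a + b + l + m + 2*U + 3 ≤ N + V + Y ∧ 3*N + V ≤ i + a + b + 2*l + 3*m + 2*U + Y + 5 ∧ a + b + m + V + Y + 2 ≤ N) :
    False := by
  have b2 := hb.b2
  have b3 := hb.b3
  have b4 := hb.b4
  have b13 := hb.b13
  obtain ⟨g1, g2, g3, g4⟩ := h
  have k1 : l + m + 2*U + 3 ≤ N + a + b + V + Y := by clear * - b2 b3 b4 g2; omega
  have k2 : N + V ≤ a + b + l + 2*m + 2*U + Y + 2 := by clear * - b13 g3; omega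
  clear * - X g1 g2 g3 g4 k1 k2
  exact X.al.ninv (-N + i - a - b + 2*l + m + 2*U - V - Y + 3) (fin X.al.per 0 _ (af X.t1 X.al.per 1 (-N + i - a - b + 2*l + m + 2*U - V - Y + 3) (pf X.g0 X.al.per 0 (-N + i + a + b + 2*l + 3*m + 2*U - V + Y + 5) (pf X.bb X.al.per 0 (-N + i + a + b + 2*l + m + 2*U - V - Y + 3) (rfl : W (-N + i - a - b + 2*l + m + 2*U - V - Y + 3) = W (-N + i - a - b + 2*l + m + 2*U - V - Y + 3)) (by omega)) (by omega)) (by omega)) (by omega))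

theorem T0_253 (X : C W N Q i a b l m c d L U V Y) (hb : B N Q i a b l m c d L U V Y)
    (h : i + l ≤ Q + 2*m + 2*Y ∧ m + c + Y + 2 ≤ 0 ∧ i + l + 1 ≤ Q + 2*a + 2*b + m + 2*Y ∧ Q + 2*a + 2*b ≤ i + l + 2*m + 2*c + 2*Y + 3) :
    False := by
  have b2 := hb.b2
  have b3 := hb.b3
  have b4 := hb.b4
  have b39 := hb.b39
  have b41 := hb.b41
  have b42 := hb.b42
  have b43 := hb.b43
  obtain ⟨g1, g2, g3, g4⟩ := h
  have k1 : i + 1 ≤ Q := by clear * - b2 b3; omega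
  have k2 : Q ≤ i + l + 2*m + 2*c + 2*Y + 3 := by clear * - b4 b42 g3 g4; omega
  have k3 : 0 ≤ N + m + c + Y := by clear * - b39 b41 b42 b43 g2 g3 g4; omega
  clear * - X g1 g2 g3 g4 k1 k2 k3
  exact X.al.ubQ (-2*m - 2*c - 2*Y - 2) (by omega) (by omega) fun t h1 h2 => (fin X.al.per 0 _ (pr X.bb X.al.per 0 (-2*m - 2*c - 2*Y + t - 2) (pr X.g0 X.al.per 0 (2*a + 2*b - 2*m - 2*c - 2*Y + t - 2) (pf X.c1 X.al.per 0 (2*a + 2*b - 2*c + t) (rfl : W (t) = W (t)) (by omega)) (by omega)) (by omega)) (by omega))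

theorem T0_255 (X : C W N Q i a b l m c d L U V Y) (hb : B N Q i a b l m c d L U V Y)
    (h : i + 2*l + 3*m + 2*U + 6 ≤ 3*N + Q + c + d + V) :
    False := by
  have b17 := hb.b17
  have b18 := hb.b18
  have b21 := hb.b21
  have g1 := h
  have k1 : N + c + d + V ≤ m := by clear * - b18 b21; omega
  have k2 : 3*N + 3*c + 3*d + V ≤ 3*m + 2 := by clear * - b17 b18 b21; omega
  have k3 : i + 2*l + 2*m + 2*U + 6 ≤ 2*N + Q + 2*V := by clear * - b17 b18 b21 g1; omega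
  clear * - X g1 k1 k2 k3
  obtain ⟨K0, hL⟩ : ∃ K0 : ℤ, 2*V + 2 ≤ 2*K0 ∧ -4*N - 2*Q + 2*i + 4*l + 4*m + 4*U - 2*V + 10 ≤ 2*K0 ∧ 4*N - 4*m + 4*c + 4*d + 2*V - 2 ≤ 2*K0 ∧ 2*K0 + 2*(-N + m - c - d - V + 1) - 2 ≤ 4*N + 2*Q - 2*i - 4*l - 4*m - 4*U + 2*V - 10 ∧ 2*K0 + 2*(-N + m - c - d - V + 1) - 2 ≤ -4*N + 4*m - 4*c - 4*d - 2*V + 2 := ⟨((max (4*N - 4*m + 4*c + 4*d + 2*V - 2) (max (-4*N - 2*Q + 2*i + 4*l + 4*m + 4*U - 2*V + 10) (2*V + 2))) + 1) / 2, by omega⟩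
  obtain ⟨R, hR1, hR2, hR⟩ := pw (A := 2*N + i + 2*l + 2*c + 2*d + 2*U + 3) (B := 2*N + Q) (γ := -N + m - c - d - V + 1) (by omega) (fun t h1 h2 => (fin X.al.per 1 _ (pr X.f1 X.al.per 0 (-4*N + 2*m - 2*c - 2*d - 2*V + t + 2) (rfl : W (t) = W (t)) (by omega)) (by omega))) K0
  exact X.al.ninv (-2*N + i + 2*l + 2*m + 2*U - V + R + 4) (fin X.al.per (-1) _ (pp hR X.al.per (-1) (i + 2*l + 2*m + 2*U - V + R + 4) (af X.t2 X.al.per 0 (-2*N + i + 2*l + 2*m + 2*U - V - R + 4) (rfl : W (-2*N + i + 2*l + 2*m + 2*U - V + R + 4) = W (-2*N + i + 2*l + 2*m + 2*U - V + R + 4)) (by omega)) (by omega)) (by omega))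

theorem T0_257 (X : C W N Q i a b l m c d L U V Y) (hb : B N Q i a b l m c d L U V Y)
    (h : l + 2 ≤ 2*b ∧ a + b ≤ l + c + 1 ∧ l + c + 1 ≤ a + b) :
    False := by
  have b2 := hb.b2
  have b7 := hb.b7
  have b8 := hb.b8
  obtain ⟨g1, g2, g3⟩ := h
  have k1 : l + 2 ≤ 2*a + 2*b := by clear * - b2 g1; omega
  have k2 : i + 2*a + 2*b ≤ Q + l := by clear * - b7 g2; omega
  clear * - X g1 g2 g3 b8 k1 k2
  exact X.n2.yx (sw (fin X.al.per 0 _ (ar X.s2 X.al.per 0 (i + 2*a + 2*b - l - 1) (pr X.a2 X.al.per 0 (i - 2*b + l + 1) (rfl : W (i + l + 1) = W (i + l + 1)) (by omega)) (by omega)) (by omega)))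

theorem T0_258 (X : C W N Q i a b l m c d L U V Y) (hb : B N Q i a b l m c d L U V Y)
    (h : N + a + c + d + V ≤ m ∧ i + a + m + 2 ≤ N + Q + c + d + V ∧ 2*l + m + c + d + 2*U + 4 ≤ N + a + V) :
    False := by
  obtain ⟨g1, g2, g3⟩ := h
  clear * - X g1 g2 g3
  exact X.al.ninv (-N + i + a + m - c - d - V + 1) (fin X.al.per 0 _ (pr X.f1 X.al.per (-1) (-N + i + a + m - c - d - V + 1) (af X.s2 X.al.per 0 (N + i + a - m + c + d + V - 1) (rfl : W (-N + i + a + m - c - d - V + 1) = W (-N + i + a + m - c - d - V + 1)) (by omega)) (by omega)) (by omega))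

theorem T0_259 (X : C W N Q i a b l m c d L U V Y) (hb : B N Q i a b l m c d L U V Y)
    (h : m + c + Y + 1 ≤ a + b ∧ a + b ≤ m + c + Y + 1 ∧ Q + m + 2*Y ≤ i + l + 1 ∧ 1 ≤ N + c + d + Y ∧ m + d + Y + 1 ≤ 0) :
    False := by
  have b7 := hb.b7
  have b11 := hb.b11
  have b17 := hb.b17
  have b18 := hb.b18
  obtain ⟨g1, g2, g3, g4, g5⟩ := h
  have k1 : 2*a + 2*b ≤ m + 1 := by clear * - b7 g2 g3; omega
  have k2 : 0 ≤ l + 3*m + 2*d + 2*U + 2*Y + 3 := by clear * - b11 b17 b18 g4; omega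
  clear * - X g1 g2 g3 g4 g5 b11 k1 k2
  obtain ⟨φ, H, T, ht, h0⟩ := exH X.al (2*N + i + l - m + 2*c)
  obtain ⟨Dc2, hc2⟩ := ht.par X.c2 (by omega)
  obtain ⟨Dd1, hd1⟩ := ht.par X.d1 (by omega)
  obtain ⟨Df3, hf3⟩ := ht.par X.f3 (by omega)
  have e1 := hc2 (-1) 0 (i + l - m + 2*c + 1) (2*N + i - 2*a - 2*b + l - m + 4*c + 1) (by omega)
  have e2 := hc2 0 0 (i + l + m + 3) (i + l - m - 2*Y + 1) (by omega)
  have e3 := hf3 0 0 (i + l + m + 3) (2*N + i + l - m + 2*c + 2*d + 1) (by omega)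
  have e4 := hd1 0 0 (2*N + i + l - m + 2*c + 2*d) (2*N + i + l - m + 2*c) (by omega)
  have e5 := hd1 0 0 (i + l - m - 2*Y + 1) (i + l - m - 2*d - 2*Y + 1) (by omega)
  have e6 := hf3 0 0 (i + l - m - 2*d - 2*Y + 1) (2*N + i - 2*a - 2*b + l - m + 4*c + 1) (by omega)
  have e7 := ht.lt (2*N + i + l - m + 2*c) 0 (-1) (2*N + i + l - m + 2*c) (i + l - m + 2*c + 1) (by omega)
  have e8 := ht.lt (2*N + i + l - m + 2*c + 2*d) 0 0 (2*N + i + l - m + 2*c + 2*d) (2*N + i + l - m + 2*c + 2*d + 1) (by omega)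
  have t2 := ht.tri X.n3
  omega

theorem T0_260 (X : C W N Q i a b l m c d L U V Y) (hb : B N Q i a b l m c d L U V Y)
    (h : V ≤ 0 ∧ l + 2*m + 2*U + 4 ≤ 2*N + 2*c ∧ 2*N + 2*c ≤ 2*a + 2*b + l + 2*m + 2*U + 2 ∧ 2*a + 2*b + l + m + 2*d + 2*U + 3 ≤ 0 ∧ 0 ≤ N + a + b + l + c + 2*d + 2*U + 1 ∧ N + a + b + l + c + 2*d + 2*U + 1 ≤ 0) :
    False := by
  have b2 := hb.b2
  have b11 := hb.b11
  have b17 := hb.b17
  have b18 := hb.b18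
  have b21 := hb.b21
  have b39 := hb.b39
  have b44 := hb.b44
  obtain ⟨g1, g2, g3, g4, g5, g6⟩ := h
  have k1 : 2*N + 2*c ≤ l + 3*m + 2*U + 3 := by clear * - b11 b17 b18; omega
  have k2 : a + b + m + U + 2 ≤ N + c := by clear * - b2 b39 b44 g4; omega
  have k3 : i + 1 ≤ 2*N + 2*a + 2*b + 2*d + 2*U := by clear * - b21 g5; omega
  clear * - X g1 g2 g3 g4 g5 g6 b17 k1 k2 k3
  exact X.n4.tor ⟨(fin X.al.per 0 _ (rfl : W (-2*N + i + 2*l + 2*m + 2*U + 4) = W (-2*N + i + 2*l + 2*m + 2*U + 4)) (by omega)), (fin X.al.per 0 _ (pr X.d2 X.al.per 0 (i - 2*a - 2*b - 2*d - 2*U) (pr X.bb X.al.per 0 (2*N + i - 2*a - 2*b - 2*m + 2*c - 2*U - 2) (af X.S2 X.al.per 0 (2*N + i - 2*m + 2*c - 2*U - 2) (rfl : W (-2*N + i + 2*l + 2*m + 2*U + 4) = W (-2*N + i + 2*l + 2*m + 2*U + 4)) (by omega)) (by omega)) (by omega)) (by omega))⟩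

theorem T0_261 (X : C W N Q i a b l m c d L U V Y) (hb : B N Q i a b l m c d L U V Y)
    (h : 3*N + a + b + c + 2*d + V ≤ l + 2*m + 2 ∧ i + a + b + l + c + V + 2 ≤ N ∧ m + 2 ≤ N + a + b + c + V ∧ 2*m + 3 ≤ 3*N + a + b + 3*c + 2*d + V) :
    False := by
  have b1 := hb.b1
  have b4 := hb.b4
  have b11 := hb.b11
  have b17 := hb.b17
  have b19 := hb.b19
  have b29 := hb.b29
  have b35 := hb.b35
  obtain ⟨g1, g2, g3, g4⟩ := h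
  have k1 : 2*m + 3 ≤ 3*N + a + b + c + 2*d + V := by clear * - b17 b29 b35 g2; omega
  have k2 : N + l + c + 2*d + 2*U + 2 ≤ a + b + V := by clear * - b4 b17 b19 g1; omega
  have k3 : 3*N + a + b + 3*c + 2*d + V ≤ 3*m + 2 := by clear * - b1 b11 g1; omega
  clear * - X g1 g2 g3 g4 k1 k2 k3
  exact X.al.ninv (-3*N + i - a - b + l + 2*m - c - 2*d - V + 3) (fin X.al.per 0 _ (ar X.S2 X.al.per 0 (-3*N + i - a - b + l + 2*m - c - 2*d - V + 3) (pf X.d2 X.al.per 0 (3*N + i + a + b + l - 2*m + 3*c + 2*d + V - 1) (pr X.f2 X.al.per 0 (N + i + a + b + l + c + V + 1) (pf X.bb X.al.per 0 (-3*N + i + a + b + l + 2*m - c - 2*d - V + 3) (rfl : W (-3*N + i - a - b + l + 2*m - c - 2*d - V + 3) = W (-3*N + i - a - b + l + 2*m - c - 2*d - V + 3)) (by omega)) (by omega)) (by omega)) (by omega)) (by omega))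

theorem T0_264 (X : C W N Q i a b l m c d L U V Y) (hb : B N Q i a b l m c d L U V Y)
    (h : l + 2*c + 2 ≤ 0 ∧ l + m + 2*c + 3 ≤ 2*a + 2*b ∧ 2*a + 2*b ≤ l + 2*m + 2*c + 2*Y + 2 ∧ 0 ≤ m + c + Y + 1 ∧ m + c + Y + 1 ≤ 0) :
    False := by
  have b2 := hb.b2
  have b3 := hb.b3
  obtain ⟨g1, g2, g3, g4, g5⟩ := h
  have k1 : i + 1 ≤ Q := by clear * - b2 b3; omega
  clear * - X g1 g2 g3 g4 g5 k1
  exact X.n1.xz (fin X.al.per 0 _ (pr X.g0 X.al.per 0 (i + 2*a + 2*b - 2*m - 2*c - 2*Y - 2) (pf X.c1 X.al.per 0 (i + 2*a + 2*b - 2*c) (rfl : W (i) = W (i)) (by omega)) (by omega)) (by omega)).symm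

theorem T0_267 (X : C W N Q i a b l m c d L U V Y) (hb : B N Q i a b l m c d L U V Y)
    (h : i + l + 3*m + 5 ≤ 4*N + 2*c + 2*d ∧ m + 2 ≤ 2*N + 2*c + 2*d + 2*Y ∧ 2*N + l + 2*c + 2*d + 2*U + 2 ≤ 2*a + 2*b ∧ 2*N + 2*a + 2*b ≤ l + 3*m + L + 2*U + 2*Y + 5) :
    False := by
  have b41 := hb.b41
  have b42 := hb.b42
  have b43 := hb.b43
  obtain ⟨g1, g2, g3, g4⟩ := h
  have k1 : i + 4*m + 2*Y + 5 ≤ 4*N + 2*c + 2*d := by clear * - b42 g1; omega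
  have k2 : 2*m + 2 ≤ 2*N + l + 2*c + 2*d := by clear * - b42 g2; omega
  have k3 : i + l + 3*m + 2*Y + 5 ≤ 2*N + 2*a + 2*b := by clear * - b43 g1 g3; omega
  have k4 : m + 2 ≤ 2*a + 2*b := by clear * - b43 g2 g3; omega
  have k5 : a + b ≤ N + l + c + d + U := by clear * - b41 b42 b43 g2 g4; omega
  have k6 : 2*a + 2*b ≤ 2*N + l + m + 2*c + 2*d + 2*U + 2*Y + 1 := by clear * - b41 b42 b43 g2 g4; omega
  have k7 : 2*a + 2*b ≤ l + 3*m + 2*U + 2*Y + 3 := by clear * - b41 b42 b43 g2 g3 g4; omega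
  have k8 : a + b ≤ l + m + U + 1 := by clear * - b41 b42 b43 g2 g3 g4; omega
  have k9 : 2*N + 2*a + 2*b ≤ 2*l + 2*m + L + 2*U + 5 := by clear * - b42 g4; omega
  clear * - X g1 g2 g3 g4 k1 k2 k3 k4 k5 k6 k7 k8 k9
  exact X.lam.bef X.al (max (2*N + i + 2*c + 2*d + 2*Y + 1) (2*N + i + l - m + 2*c + 2*d + 1)) (2*N + i - 2*a - 2*b + 2*l + 2*m + 2*c + 2*d + 2*U + 2*Y + 4) (-2*N + 2*a + 2*b - 2*c - 2*d - 2*Y) (by omega) (fun t h1 h2 => by (try simp only [max_le_iff, lt_min_iff] at h1 h2); exact (lt_or_ge t (min (2*N + i + l + 2*c + 2*d + 2*Y + 1) (4*N - 2*m + 2*c + 2*d - 2))).elim (fun u0 => by (try simp only [lt_min_iff] at u0); exact (fin X.al.per 0 _ (pf X.bb X.al.per 0 (-2*N + 2*a + 2*b - 2*c - 2*d - 2*Y + t) (pr X.g0 X.al.per 0 (-2*N - 2*c - 2*d - 2*Y + t) (pr X.d2 X.al.per 0 (-2*N + 2*m - 2*c - 2*d + t + 2) (rfl : W (t) = W (t)) (by omega)) (by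 omega)) (by omega)) (by omega))) (fun u0 => (fin X.al.per 0 _ (pr X.f3 X.al.per 0 (-2*N + 2*a + 2*b - 2*c - 2*d - 2*Y + t) (pf X.bb X.al.per 0 (2*a + 2*b - 2*m - 2*Y + t - 2) (pr X.g0 X.al.per 0 (-2*m - 2*Y + t - 2) (rfl : W (t) = W (t)) (by omega)) (by omega)) (by omega)) (by omega)))) (Or.inr (Or.inr ⟨(fin X.al.per 0 _ (pf X.g0 X.al.per 0 (2*N + i - 2*a - 2*b + 2*l + 2*m + 2*c + 2*d + 2*U + 2*Y + 4) (pr X.bb X.al.per 0 (2*N + i - 2*a - 2*b + 2*l + 2*c + 2*d + 2*U + 2) (rfl : W (2*N + i + 2*l + 2*c + 2*d + 2*U + 2) = W (2*N + i + 2*l + 2*c + 2*d + 2*U + 2)) (by omega)) (by omega)) (by omega)), (fin X.al.per 1 _ (rfl : W (-2*N + i + 2*l + 2*m + 2*U + 4) = W (-2*N + i + 2*l + 2*m + 2*U + 4)) (by omega))⟩))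

theorem T0_268 (X : C W N Q i a b l m c d L U V Y) (hb : B N Q i a b l m c d L U V Y)
    (h : l + 2*c + 2 ≤ 2*a ∧ 0 ≤ 2*b + m + 2*c + 2*Y ∧ b + c + 1 ≤ 0 ∧ m + c + Y + 1 ≤ a ∧ a ≤ m + c + Y + 1) :
    False := by
  have b6 := hb.b6
  obtain ⟨g1, g2, g3, g4, g5⟩ := h
  clear * - X g1 g2 g3 g4 g5 b6
  exact X.n2.xz (fin X.al.per 0 _ (pf X.g0 X.al.per 0 (i + 2*b + l + 2*m + 2*c + 2*Y + 3) (pf X.a1 X.al.per 0 (i + 2*b + l + 2*c + 1) (rfl : W (i + l + 2*c + 1) = W (i + l + 2*c + 1)) (by omega)) (by omega)) (by omega)).symm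

theorem T0_269 (X : C W N Q i a b l m c d L U V Y) (hb : B N Q i a b l m c d L U V Y)
    (h : 2*N ≤ i + l + 2*m + 2*Y + 3 ∧ i + l + 3*m + 5 ≤ 4*N + 2*c + 2*d ∧ 0 ≤ 2*N + i + 2*l + 4*c + 4*d + 2*U + 2*Y + 2 ∧ 2*N + 2*c + 2*d + Y ≤ m) :
    False := by
  have b21 := hb.b21
  have b39 := hb.b39
  have b41 := hb.b41
  have b42 := hb.b42
  obtain ⟨g1, g2, g3, g4⟩ := h
  have k1 : 0 ≤ N + c + d + Y := by clear * - b21 g3; omega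
  have k2 : m + 2 ≤ 3*N + 2*c + 2*d + Y := by clear * - b21 b39 b41 b42 g2 g3 g4; omega
  clear * - X g1 g2 g3 g4 k1 k2
  exact X.al.ubP (-4*N + 2*m - 4*c - 4*d - 2*Y + 2) (by omega) (by omega) fun t h1 h2 => (fin X.al.per (-1) _ (pr X.f3 X.al.per 0 (-2*N + 2*m - 4*c - 4*d - 2*Y + t + 2) (pr X.d2 X.al.per 0 (-2*c - 2*d - 2*Y + t) (pr X.g0 X.al.per (-1) (2*N - 2*m - 2*Y + t - 2) (rfl : W (t) = W (t)) (by omega)) (by omega)) (by omega)) (by omega))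

theorem T0_277 (X : C W N Q i a b l m c d L U V Y) (hb : B N Q i a b l m c d L U V Y)
    (h : i + 2*a + 2*b + 2*d + 1 ≤ Q ∧ 1 ≤ a + b + d ∧ Q + 2*a + 2*b + m ≤ 2*N + i + l + 2*c) :
    False := by
  have b8 := hb.b8
  have b21 := hb.b21
  have b25 := hb.b25
  have b35 := hb.b35
  have b39 := hb.b39
  have b40 := hb.b40
  have b41 := hb.b41
  have b43 := hb.b43
  obtain ⟨g1, g2, g3⟩ := h
  have k1 : a + b + d + 1 ≤ N := by clear * - b21 b25 b35 b39 b40 b41 b43 g1 g3; omega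
  clear * - X g1 g2 g3 b8 k1
  exact X.al.ubQ (2*a + 2*b + 2*d) (by omega) (by omega) fun t h1 h2 => (fin X.al.per 0 _ (pr X.d1 X.al.per 0 (2*a + 2*b + 2*d + t) (pf X.bb X.al.per 0 (2*a + 2*b + t) (rfl : W (t) = W (t)) (by omega)) (by omega)) (by omega))

theorem T0_279 (X : C W N Q i a b l m c d L U V Y) (hb : B N Q i a b l m c d L U V Y)
    (h : i + 2*a + 2*b + l + m + 3 ≤ 2*N ∧ 2*N + 2*c + 2*d ≤ m ∧ a + b + 1 ≤ N + c + d + Y ∧ L + 1 ≤ 2*a + 2*b + m + 2*Y) :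
    False := by
  have b39 := hb.b39
  have b41 := hb.b41
  have b42 := hb.b42
  have b43 := hb.b43
  obtain ⟨g1, g2, g3, g4⟩ := h
  have k1 : i + 2*a + 2*b + 2*m + 2*Y + 3 ≤ 2*N := by clear * - b42 g1; omega
  have k2 : 2*N + 2*c + 2*d + 2*Y ≤ l := by clear * - b42 g2; omega
  have k3 : c + d + Y + 1 ≤ a + b := by clear * - b39 b41 b42 b43 g2 g3 g4; omega
  have k4 : L ≤ 2*a + 2*b + l + m + 2*U := by clear * - b43 g4; omega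
  have k5 : L + 1 ≤ 2*N + l + 2*c + 2*d + 2*Y := by clear * - b42 g3 g4; omega
  have k6 : L ≤ 2*N + 2*l + 2*c + 2*d + 2*U := by clear * - b42 b43 g3 g4; omega
  clear * - X g1 g2 g3 g4 k1 k2 k3 k4 k5 k6
  exact absurd (X.lam.mx (max (-2*N + i + 2*a + 2*b - 2*c - 2*d - 2*Y + 1) (i + l - m - 2*Y + 1)) (min (i + 2*a + 2*b + 2*l + 2*U - 2*Y + 2) (i + 2*a + 2*b + l + 1)) (2*N - 2*a - 2*b + 2*c + 2*d + 2*Y) (by omega) (by omega) fun t h1 h2 => by (try simp only [max_le_iff, lt_min_iff] at h1 h2); exact (lt_or_ge t (min (-2*N + i + 2*a + 2*b + l - 2*c - 2*d - 2*Y + 1) (min (2*N - 2*m - 2*Y - 2) (i + l + 1)))).elim (fun u0 => by (try simp only [lt_min_iff] at u0); exact (fin X.al.per 0 _ (pr X.bb X.al.per 0 (2*N - 2*a - 2*b + 2*c + 2*d + 2*Y + t) (pf X.d2 X.al.per 0 (2*N + 2*c + 2*d + 2*Y + t) (pf X.g0 X.al.per 0 (2*m + 2*Y + t + 2) (rfl : W (t) = W (t))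 (by omega)) (by omega)) (by omega)) (by omega))) (fun u0 => (fin X.al.per 0 _ (pf X.f3 X.al.per 0 (2*N - 2*a - 2*b + 2*c + 2*d + 2*Y + t) (pf X.g0 X.al.per 0 (-2*a - 2*b + 2*m + 2*Y + t + 2) (pr X.bb X.al.per 0 (-2*a - 2*b + t) (rfl : W (t) = W (t)) (by omega)) (by omega)) (by omega)) (by omega)))) (by omega)

theorem T0_280 (X : C W N Q i a b l m c d L U V Y) (hb : B N Q i a b l m c d L U V Y)
    (h : V ≤ m + d + Y + 1 ∧ m + d + Y + 1 ≤ V ∧ 1 ≤ V ∧ l + m + 2*d + 2*U + 3 ≤ 2*V ∧ m + 1 ≤ 2*N + l + 2*c + 2*d + 2*U + 2*V ∧ m + 2 ≤ N + c + V ∧ 2*N + i + l + 2*c + 4*d + 1 ≤ Q + m ∧ 2*N + Q + 2*c + 2*d + 2*V ≤ 2*m + 2 ∧ 4*N + Q + 2*c + 2*d + 2*V ≤ i + l + 4*m + 2*Y + 5 ∧ m + 2 ≤ 2*N + c + 2*d) :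
    False := by
  have b43 := hb.b43
  obtain ⟨g1, g2, g3, g4, g5, g6, g7, g8, g9, g10⟩ := h
  have k1 : N + c + 2*d ≤ m := by clear * - b43 g4 g7 g9 g10; omega
  clear * - X g1 g2 g3 g4 g5 g6 g7 g8 g9 g10 k1
  exact X.al.ubQ (4*N - 2*m + 2*c + 4*d - 2) (by omega) (by omega) fun t h1 h2 => by (try simp only [max_le_iff, lt_min_iff] at h1 h2); exact (lt_or_ge t (min (-2*N + i + l + m - 2*d + 2) (-2*N + i + 2*l + 2*m + 2*U + 4))).elim (fun u0 => by (try simp only [lt_min_iff] at u0); exact (fin X.al.per 0 _ (pr X.d1 X.al.per 0 (4*N - 2*m + 2*c + 4*d + t - 2) (pf X.f3 X.al.per (-1) (4*N - 2*m + 2*c + 2*d + t - 2) (rfl : W (t) = W (t)) (by omega)) (by omega)) (by omega))) (fun u0 => (fin X.al.per 0 _ (pr X.g0 X.al.per 0 (4*N - 4*m + 2*c + 2*d + 2*V - 2*Y + t - 4) (pr X.f2 X.al.per 0 (4*N - 2*m + 2*c + 2*d + 2*V + t - 2) (rfl : W (t) = W (t)) (by omega))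 (by omega)) (by omega)))

theorem T0_281 (X : C W N Q i a b l m c d L U V Y) (hb : B N Q i a b l m c d L U V Y)
    (h : l + 2 ≤ 2*a + 2*b ∧ 2*b + 2*c ≤ m ∧ 2*a ≤ l + 2*c ∧ a ≤ 0) :
    False := by
  have b2 := hb.b2
  have b7 := hb.b7
  have b8 := hb.b8
  obtain ⟨g1, g2, g3, g4⟩ := h
  have k1 : c + 1 ≤ a := by clear * - b2 b7 b8; omega
  clear * - X g1 g2 g3 g4 b8 k1 b2
  exact X.n2.yx (sw (fin X.al.per 0 _ (pr X.bb X.al.per 0 (i - 2*a + l + 2*c + 1) (af X.S2 X.al.per 0 (i + 2*b + l + 2*c + 1) (pr X.a2 X.al.per 0 (i - 2*b + l + 1) (rfl : W (i + l + 1) = W (i + l + 1)) (by omega)) (by omega)) (by omega)) (by omega)))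

theorem T0_285 (X : C W N Q i a b l m c d L U V Y) (hb : B N Q i a b l m c d L U V Y)
    (h : Q + 2*m + 2*d + 2*Y + 2 ≤ 2*b ∧ i + l + m + 2*d + 3 ≤ 2*b ∧ 2*b ≤ i + l + 1 ∧ 2*b + 3*m + 2*Y + 2 ≤ 2*N + i + l + 2*c ∧ 0 ≤ m + d + Y ∧ 2*m + 2*d + 2*Y + 2 ≤ i + 2*a) :
    False := by
  have b39 := hb.b39
  have b41 := hb.b41
  have b42 := hb.b42
  have b43 := hb.b43
  obtain ⟨g1, g2, g3, g4, g5, g6⟩ := h
  have k1 : m + d + Y + 2 ≤ N := by clear * - b39 b41 b42 b43 g2 g3 g5; omega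
  clear * - X g1 g2 g3 g4 g5 g6 k1
  exact X.al.ubP (2*m + 2*d + 2*Y + 2) (by omega) (by omega) fun t h1 h2 => (fin X.al.per 0 _ (pr X.a1 X.al.per 0 (2*m + 2*d + 2*Y + t + 2) (pr X.d1 X.al.per 0 (2*b + 2*m + 2*d + 2*Y + t + 2) (pf X.g0 X.al.per 0 (2*b + 2*m + 2*Y + t + 2) (pf X.a2 X.al.per 0 (2*b + t) (rfl : W (t) = W (t)) (by omega)) (by omega)) (by omega)) (by omega)) (by omega))

theorem T0_289 (X : C W N Q i a b l m c d L U V Y) (hb : B N Q i a b l m c d L U V Y)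
    (h : 3*N + 2*V ≤ i + a + 2*l + 2*m + L + 3*U + 6 ∧ l + m + U + 3 ≤ N + a) :
    False := by
  have b3 := hb.b3
  have b17 := hb.b17
  have b19 := hb.b19
  obtain ⟨g1, g2⟩ := h
  have k1 : i + a + l + m + U + 3 ≤ N + Q := by clear * - b3 g2; omega
  have k2 : i + 3*l + 3*m + 3*U + 7 ≤ 3*N + Q + a + 2*V := by clear * - b17 b19 g2; omega
  have k3 : 3*l + 3*m + 3*U + 7 ≤ 3*N + 3*a + 2*V := by clear * - b17 g2; omega
  have k4 : 2*N ≤ i + 2*a + l + m + L + 2*U + 3 := by clear * - b17 g1 g2; omega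
  clear * - X g1 g2 k1 k2 k3 k4
  obtain ⟨K0, hL⟩ : ∃ K0 : ℤ, 2*V + 2 ≤ 2*K0 ∧ -4*N - 4*a + 4*l + 4*m + 4*U - 2*V + 10 ≤ 2*K0 ∧ 4*N - 2*i - 4*a - 2*l - 2*m - 2*L - 4*U + 2*V - 8 ≤ 2*K0 ∧ 2*K0 + 2*(N + a - l - m - U - 2) - 2 ≤ 4*N + 2*Q - 2*i - 4*l - 4*m - 4*U + 2*V - 10 ∧ 2*K0 + 2*(N + a - l - m - U - 2) - 2 ≤ -4*N + 2*i + 4*a + 2*l + 2*m + 2*L + 4*U - 2*V + 8 ∧ 2*K0 + 2*(N + a - l - m - U - 2) - 2 ≤ 4*N + 4*a - 4*l - 4*m - 4*U + 2*V - 10 := ⟨((max (4*N - 2*i - 4*a - 2*l - 2*m - 2*L - 4*U + 2*V - 8) (max (-4*N - 4*a + 4*l + 4*m + 4*U - 2*V + 10) (2*V + 2))) + 1) / 2, by omega⟩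
  obtain ⟨R, hR1, hR2, hR⟩ := pw (A := -2*a + l + m - L) (B := i + 2*a) (γ := N + a - l - m - U - 2) (by omega) (fun t h1 h2 => (fin X.al.per 0 _ (pr X.g3 X.al.per 0 (2*N + 2*a - 2*l - 2*m - 2*U + t - 4) (rfl : W (t) = W (t)) (by omega)) (by omega))) K0
  exact X.al.ninv (-2*N + i + 2*l + 2*m + 2*U - V + R + 4) (fin X.al.per 0 _ (pp hR X.al.per 0 (-2*N + i + 2*l + 2*m + 2*U - V + R + 4) (af X.t2 X.al.per 0 (-2*N + i + 2*l + 2*m + 2*U - V - R + 4) (rfl : W (-2*N + i + 2*l + 2*m + 2*U - V + R + 4) = W (-2*N + i + 2*l + 2*m + 2*U - V + R + 4)) (by omega)) (by omega)) (by omega))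

theorem T0_290 (X : C W N Q i a b l m c d L U V Y) (hb : B N Q i a b l m c d L U V Y)
    (h : i + 3*a + 3*b + l + 2 ≤ 2*N ∧ i + 3*a + 3*b + 1 ≤ 2*N + 2*c ∧ 2*i + a + b + 4*l + 4*m + 4*U + 9 ≤ 4*N + Q + 2*V ∧ i + 3*l + 4*m + 2*c + 4*U + 8 ≤ 2*N + Q + 3*a + 3*b + 2*V ∧ 2*N + 3*a + 3*b + 2*V ≤ 3*l + 4*m + 4*U + 6 ∧ 2*N + 3*a + 3*b + 2*V ≤ 4*l + 4*m + 2*c + 4*U + 7 ∧ i + a + b + 1 ≤ Q) :
    False := by
  have b4 := hb.b4
  have b7 := hb.b7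
  have b8 := hb.b8
  have b17 := hb.b17
  have b18 := hb.b18
  have b26 := hb.b26
  have b35 := hb.b35
  have b37 := hb.b37
  have b40 := hb.b40
  have b42 := hb.b42
  obtain ⟨g1, g2, g3, g4, g5, g6, g7⟩ := h
  have k1 : i + 3*l + 4*m + 4*U + 8 ≤ 4*N + a + b + 2*V := by clear * - b4 b40 b42 g3; omega
  have k2 : 2*c + 1 ≤ a + b := by clear * - b7 b8 b17 b26 b37 g4; omega
  have k3 : 2*l + 4*m + 2*c + 4*U + 7 ≤ 2*N + 5*a + 5*b + 2*V := by clear * - b4 b40 b42 g4; omega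
  have k4 : 3*a + 3*b + 2*V ≤ l + 2*m + 2*U + 2 := by clear * - b18 g1; omega
  have k5 : 3*a + 3*b + 2*V ≤ 2*l + 2*m + 2*c + 2*U + 3 := by clear * - b18 g2; omega
  have k6 : l + 2*m + 2*U + 4 ≤ 2*N + a + b := by clear * - b26 b35 g3; omega
  have k7 : i + a + b + 2*l + 2*m + 2*U + 5 ≤ 2*N + Q := by clear * - b18 g3; omega
  have k8 : 1 ≤ l := by clear * - b40 b42; omega
  have k9 : 1 ≤ a + b := by clear * - b4 g7; omega
  clear * - X g1 g2 g3 g4 g5 g6 g7 k1 k2 k3 k4 k5 k6 k7 k8 k9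
  obtain ⟨K0, hL⟩ : ∃ K0 : ℤ, -6*N + 2*i + 2*a + 2*b + 4*l + 4*m - 2*c + 4*U - 2*V + 10 ≤ 2*K0 ∧ -2*N - 6*a - 6*b + 2*l + 4*m + 2*c + 4*U - 2*V + 8 ≤ 2*K0 ∧ 2*N + 2*a + 2*b - 4*l - 4*m - 2*c - 4*U + 2*V - 6 ≤ 2*K0 ∧ -2*N + 2*a + 2*b - 2*c + 2*V + 2 ≤ 2*K0 ∧ 2*K0 + 2*(a + b) - 2 ≤ -2*N - 2*a - 2*b + 2*l + 4*m - 2*c + 4*U - 2*V + 4 ∧ 2*K0 + 2*(a + b) - 2 ≤ -2*N - 2*a - 2*b + 4*l + 4*m + 2*c + 4*U - 2*V + 6 ∧ 2*K0 + 2*(a + b) - 2 ≤ 2*N + 6*a + 6*b - 2*l - 4*m - 2*c - 4*U + 2*V - 8 ∧ 2*K0 + 2*(a + b) - 2 ≤ 2*N + 2*Q - 2*i + 2*a + 2*b - 4*l - 4*m - 2*c - 4*U + 2*V - 10 := ⟨((max (-2*N + 2*a + 2*b - 2*c + 2*V + 2) (max (2*N + 2*a + 2*b - 4*l - 4*m - 2*c - 4*U + 2*V - 6) (max (-2*N - 6*a - 6*b + 2*l + 4*m + 2*c + 4*U - 2*V + 8) (-6*N + 2*i + 2*a + 2*b + 4*l + 4*m - 2*c + 4*U - 2*V + 10)))) + 1) / 2, by omega⟩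
  obtain ⟨R, hR1, hR2, hR⟩ := pw (A := i + 1) (B := i + 2*a + 2*b + l + 1) (γ := a + b) (by omega) (fun t h1 h2 => (fin X.al.per 0 _ (pf X.bb X.al.per 0 (2*a + 2*b + t) (rfl : W (t) = W (t)) (by omega)) (by omega))) K0
  exact X.al.ninv (-N + i + a + b + 2*l + 2*m - c + 2*U - V - R + 4) (fin X.al.per 1 _ (af X.t2 X.al.per 0 (-3*N + i + a + b + 2*l + 2*m - c + 2*U - V - R + 4) (pp hR X.al.per 0 (-N + i - a - b + 2*l + 2*m + c + 2*U - V + R + 4) (pf X.c2 X.al.per 0 (-N + i - a - b + 2*l + 2*m + c + 2*U - V - R + 4) (rfl : W (-N + i + a + b + 2*l + 2*m - c + 2*U - V - R + 4) = W (-N + i + a + b + 2*l + 2*m - c + 2*U - V - R + 4)) (by omega)) (by omega)) (by omega)) (by omega))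

theorem T0_292 (X : C W N Q i a b l m c d L U V Y) (hb : B N Q i a b l m c d L U V Y)
    (h : l + 2*m + 2*U + 3 ≤ N + i + 2*a + b + V ∧ N + 2*a + b + V ≤ l + 2*m + 2*U + 2 ∧ i + l + 2*m + 2*U + 4 ≤ N + Q + b + V ∧ i + b + 3*l + 2*m + 2*U + 6 ≤ 3*N + V ∧ N + 2*a + b + V ≤ 2*l + 2*m + 2*c + 2*U + 3) :
    False := by
  have b11 := hb.b11
  have b18 := hb.b18
  have b40 := hb.b40
  have b42 := hb.b42
  obtain ⟨g1, g2, g3, g4, g5⟩ := h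
  have k1 : b + l + V + 2 ≤ N := by clear * - b18 g4; omega
  have k2 : N + 2*a + b + V ≤ 2*l + 2*m + 2*U + 3 := by clear * - b40 b42 g2; omega
  have k3 : 2*l + m + 2*c + 2*U + 4 ≤ N + 2*a + b + V := by clear * - b11 g1; omega
  clear * - X g1 g2 g3 g4 g5 k1 k2 k3
  exact X.al.ninv (N + i + 2*a + b - l - 2*m - 2*U + V - 3) (fin X.al.per 0 _ (ar X.S2 X.al.per 0 (N + i + 2*a + b - l - 2*m - 2*U + V - 3) (pf X.c2 X.al.per (-1) (-N + i - 2*a - b + 3*l + 2*m + 2*c + 2*U - V + 5) (af' X.t2 X.al.per 0 (-3*N + i + b + 3*l + 2*m + 2*U - V + 5) (af X.s1 X.al.per 0 (-N + i - b + l + 2*m + 2*U - V + 3) (rfl : W (N + i + 2*a + b - l - 2*m - 2*U + V - 3) = W (N + i + 2*a + b - l - 2*m - 2*U + V - 3)) (by omega)) (by omega)) (by omega)) (by omega)) (by omega))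

theorem T0_294 (X : C W N Q i a b l m c d L U V Y) (hb : B N Q i a b l m c d L U V Y)
    (h : Q + 2*a + 2*b + m ≤ 2*N + i + l + 2*c + 2*d ∧ 2*N + Q + 2*c ≤ i + l + 2*m + 3 ∧ a + b + m + 2 ≤ N + c ∧ 2*N + 2*c + 2*d ≤ m ∧ Q + m + L + 1 ≤ 2*N + i + 2*a + 2*b + l + 2*c + 2*d ∧ 2*m + L + 4 ≤ 2*N + 2*a + 2*b + 2*c) :
    False := by
  have b2 := hb.b2
  have b3 := hb.b3
  have b11 := hb.b11
  have b36 := hb.b36
  have b40 := hb.b40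
  have b41 := hb.b41
  have b42 := hb.b42
  have b43 := hb.b43
  obtain ⟨g1, g2, g3, g4, g5, g6⟩ := h
  have k1 : 2*a + 2*b + m + 1 ≤ 2*N + l + 2*c + 2*d := by clear * - b2 b3 g1; omega
  have k2 : i + 2*a + 2*b + 1 ≤ 2*N + 2*d := by clear * - b2 b3 b11 g1; omega
  have k3 : 2*N + 2*c ≤ l + 2*m + 2 := by clear * - b2 b3 g2; omega
  have k4 : Q + 2*a + 2*b ≤ 2*N + 2*d := by clear * - b11 g1; omega
  have k5 : i + 2*a + 2*b + l + m + 3 ≤ 2*N := by clear * - b11 g3; omega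
  have k6 : c ≤ a + b + m := by clear * - b11 b36 b40 b41 b42 b43 g6; omega
  have k7 : Q + L + 1 ≤ 2*N + 2*a + 2*b + 2*d := by clear * - b11 g5; omega
  have k8 : i + l + m + L + 4 ≤ 2*N + 2*a + 2*b := by clear * - b11 g6; omega
  clear * - X g1 g2 g3 g4 g5 g6 k1 k2 k3 k4 k5 k6 k7 k8
  exact absurd (X.lam.mx (max (-2*N + i + 2*a + 2*b + 2*m - 2*c + 3) (max (i + l + m + 2*d + 3) (Q))) (min (2*N + 2*a + 2*b + 2*d) (min (2*N + i + 2*a + 2*b + l - m + 2*c + 2*d) (i + 2*a + 2*b + l + 1))) (2*N - 2*a - 2*b - 2*m + 2*c - 2) (by omega) (by omega) fun t h1 h2 => by (try simp only [max_le_iff, lt_min_iff] at h1 h2); exact (lt_or_ge t (min (-2*N + i + 2*a + 2*b + l + 2*m - 2*c + 3) (min (2*N + 2*d) (2*N + i + l - m + 2*c + 2*d)))).elim (fun u0 => by (try simp only [lt_min_iff] at u0); exact (fin X.al.per 0 _ (pr X.bb X.al.per 0 (2*N - 2*a - 2*b - 2*m + 2*c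 + t - 2) (pf X.d2 X.al.per 0 (2*N - 2*m + 2*c + t - 2) (pf X.d1 X.al.per 0 (-2*d + t) (rfl : W (t) = W (t)) (by omega)) (by omega)) (by omega)) (by omega))) (fun u0 => (fin X.al.per 0 _ (pf X.d2 X.al.per 0 (2*N - 2*a - 2*b - 2*m + 2*c + t - 2) (pf X.d1 X.al.per 0 (-2*a - 2*b - 2*d + t) (pr X.bb X.al.per 0 (-2*a - 2*b + t) (rfl : W (t) = W (t)) (by omega)) (by omega)) (by omega)) (by omega)))) (by omega)

theorem T0_295 (X : C W N Q i a b l m c d L U V Y) (hb : B N Q i a b l m c d L U V Y)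
    (h : m + 2 ≤ 2*a + 2*b ∧ m + 2 ≤ N + a + b + c + d ∧ Q + 2*m + 1 ≤ 2*N + i + l + 2*c + 2*d ∧ Q + 3*m + 2 ≤ 4*N + i + l + 4*c + 4*d ∧ a + b + m + 2 ≤ N + c ∧ 2*N + Q + 2*c + 2*d + L ≤ i + l + 2*m + 2 ∧ Q + L ≤ i + l + m + 1 ∧ 2*N + 2*c + 4*d + L + 1 ≤ m ∧ 2*d + L + 2 ≤ 0) :
    False := by
  have b2 := hb.b2
  have b3 := hb.b3
  have b11 := hb.b11
  have b36 := hb.b36
  have b40 := hb.b40
  have b41 := hb.b41
  have b42 := hb.b42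
  have b43 := hb.b43
  obtain ⟨g1, g2, g3, g4, g5, g6, g7, g8, g9⟩ := h
  have k1 : i + l + m + 3 ≤ 2*N + 2*a + 2*b + 2*d := by clear * - b11 g2; omega
  have k2 : 2*m + 2 ≤ 2*N + l + 2*c + 2*d := by clear * - b2 b3 g3; omega
  have k3 : 3*m + 3 ≤ 4*N + l + 4*c + 4*d := by clear * - b2 b3 g4; omega
  have k4 : i + 2*m + 3 ≤ 4*N + 2*c + 4*d := by clear * - b2 b3 b11 g4; omega
  have k5 : Q + 2*m + 2 ≤ 4*N + 2*c + 4*d := by clear * - b11 g4; omega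
  have k6 : c ≤ a + b + m := by clear * - b11 b36 b40 b41 b42 b43 g2 g9; omega
  have k7 : i + 2*a + 2*b + L + 2 ≤ 2*N := by clear * - b2 b3 b11 g5 g7; omega
  have k8 : 2*N + 2*c + 2*d + L ≤ l + 2*m + 1 := by clear * - b2 b3 g6; omega
  have k9 : L ≤ l + m := by clear * - b2 b3 g7; omega
  have k10 : Q + 2*a + 2*b + L + 1 ≤ 2*N := by clear * - b11 g5 g7; omega
  have k11 : i + 2*a + 2*b + l + m + 2*d + L + 4 ≤ 2*N := by clear * - b11 g5 g9; omega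
  clear * - X g1 g2 g3 g4 g5 g6 g7 g8 g9 k1 k2 k3 k4 k5 k6 k7 k8 k9 k10 k11
  exact absurd (X.lam.mx (max (i + 2*a + 2*b + l + m + 2*d + 3) (max (Q + 2*a + 2*b) (i + 2*a + 2*b + 1))) (min (i + 2*a + 2*b + l + m + 2) (min (-2*N + i + 2*a + 2*b + l + 2*m - 2*c - 2*d + 3) (2*N))) (2*N - 2*a - 2*b - 2*m + 2*c - 2) (by omega) (by omega) fun t h1 h2 => by (try simp only [max_le_iff, lt_min_iff] at h1 h2); exact (lt_or_ge t (min (2*N + 2*a + 2*b + 2*d) (min (2*N + i + 2*a + 2*b + l - m + 2*c + 2*d) (i + 2*a + 2*b + l + 1)))).elim (fun u0 => by (try simp only [lt_min_iff] at u0); exact (fin X.al.per 0 _ (pf X.d2 X.al.per 0 (2*N - 2*a - 2*b - 2*m + 2*c + t - 2) (pf X.d1 X.al.per 0 (-2*a - 2*b - 2*d + t) (pr X.bb X.al.per 0 (-2*a - 2*b + t) (rfl : W (t) = W (t)) (by omega)) (by omega)) (by omega)) (by omega))) (fun u0 => (fin X.al.per 0 _ (pf X.d1 X.al.per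 0 (2*N - 2*a - 2*b - 2*m + 2*c + t - 2) (pr X.bb X.al.per 0 (2*N - 2*a - 2*b - 2*m + 2*c + 2*d + t - 2) (pf X.d2 X.al.per 0 (2*N - 2*m + 2*c + 2*d + t - 2) (rfl : W (t) = W (t)) (by omega)) (by omega)) (by omega)) (by omega)))) (by omega)

theorem T0_296 (X : C W N Q i a b l m c d L U V Y) (hb : B N Q i a b l m c d L U V Y)
    (h : N + b + c + d + V ≤ m + 1 ∧ m + 1 ≤ N + b + c + d + V ∧ 2*l + 2*c + 2*d + L + 2*U + 4 ≤ 2*a) :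
    False := by
  have b18 := hb.b18
  have b20 := hb.b20
  have b31 := hb.b31
  have b32 := hb.b32
  obtain ⟨g1, g2, g3⟩ := h
  have k1 : N + c + d + V ≤ m := by clear * - b18 b31 g3; omega
  have k2 : m + 2 ≤ 2*N + c + d + V := by clear * - b20 b32 g2 g3; omega
  clear * - X g1 g2 g3 k1 k2
  exact absurd (X.lam.mx (2*N + i + 2*l + 2*c + 2*d + 2*U + 3) (2*N + i + 2*a) (-2*N + 2*m - 2*c - 2*d - 2*V + 2) (by omega) (by omega) fun t h1 h2 => (lt_or_ge t (4*N + Q - 2*m + 2*c + 2*d + 2*V - 2)).elim (fun u0 => (fin X.al.per 1 _ (pr X.f1 X.al.per 0 (-4*N + 2*m - 2*c - 2*d - 2*V + t + 2) (rfl : W (t) = W (t)) (by omega)) (by omega))) (fun u0 => (fin X.al.per 1 _ (pf X.a2 X.al.per 1 (-2*N + 2*b + t) (rfl : W (t) = W (t)) (by omega)) (by omega)))) (by omega)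

theorem T0_309 (X : C W N Q i a b l m c d L U V Y) (hb : B N Q i a b l m c d L U V Y)
    (h : 4*N + c + d + V ≤ i + 2*l + 4*m + 2*U + Y + 6 ∧ 2*m + V + Y + 3 ≤ 2*N + c + d ∧ V ≤ l + m + c + d + 2*U + Y + 1 ∧ l + c + d + 2*U + 2 ≤ V + Y) :
    False := by
  have b17 := hb.b17
  have b21 := hb.b21
  have b43 := hb.b43
  obtain ⟨g1, g2, g3, g4⟩ := h
  have k1 : 2*N + c + d + V ≤ l + 3*m + 2*U + Y + 3 := by clear * - b21 b43 g1 g3 g4; omega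
  have k2 : 2*m + Y + 3 ≤ 2*N + c + d + V := by clear * - b17 g2; omega
  clear * - X g1 g2 g3 g4 k1 k2
  exact X.al.ninv (-4*N + i + 2*l + 4*m - c - d + 2*U - V + Y + 6) (fin X.al.per (-1) _ (pr X.f3 X.al.per 0 (-2*N + i + 2*l + 4*m - c - d + 2*U - V + Y + 6) (pf X.g0 X.al.per 0 (i + 2*l + 2*m + c + d + 2*U - V + Y + 4) (af X.t1 X.al.per 0 (i + 2*l + c + d + 2*U - V - Y + 2) (rfl : W (-4*N + i + 2*l + 4*m - c - d + 2*U - V + Y + 6) = W (-4*N + i + 2*l + 4*m - c - d + 2*U - V + Y + 6)) (by omega)) (by omega)) (by omega)) (by omega))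

theorem T0_310 (X : C W N Q i a b l m c d L U V Y) (hb : B N Q i a b l m c d L U V Y)
    (h : 3*N + 2*c + 2*d + V ≤ 2*m + 1) :
    False := by
  have b13 := hb.b13
  have b17 := hb.b17
  have b29 := hb.b29
  have b38 := hb.b38
  have b39 := hb.b39
  have b40 := hb.b40
  have b43 := hb.b43
  have g1 := h
  have k1 : i + 2*l + 4*m + 2*U + 7 ≤ 6*N + 2*c + 2*d + 2*V := by clear * - b13 b17 b29 b39; omega
  have k2 : 2*m ≤ 4*N + i + 2*l + 4*c + 4*d + 2*U + 2*V := by clear * - b17 b29 b38; omega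
  have k3 : 2*m + 3 ≤ 4*N + 2*c + 2*d + V := by clear * - b17 b29 b39 b40 b43; omega
  clear * - X g1 k1 b13 k2 k3
  exact X.al.ubP (-6*N + 4*m - 4*c - 4*d - 2*V + 4) (by omega) (by omega) fun t h1 h2 => (fin X.al.per (-1) _ (pr X.f3 X.al.per 0 (-4*N + 4*m - 4*c - 4*d - 2*V + t + 4) (pf X.f2 X.al.per (-1) (-2*N + 2*m - 2*c - 2*d - 2*V + t + 2) (rfl : W (t) = W (t)) (by omega)) (by omega)) (by omega))

theorem T0_313 (X : C W N Q i a b l m c d L U V Y) (hb : B N Q i a b l m c d L U V Y)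
    (h : N + Q ≤ i + b + l + m + 2 ∧ l + m + 3 ≤ N + 2*a + b ∧ b + 2*m + 3 ≤ 3*N + 2*c + 2*d ∧ N + 2*d + 1 ≤ b ∧ N + b + 2*c ≤ 2*m + 1 ∧ m + 2 ≤ N + b + 2*c) :
    False := by
  have b11 := hb.b11
  obtain ⟨g1, g2, g3, g4, g5, g6⟩ := h
  have k1 : i + b + l + m + 3 ≤ 3*N + 2*d := by clear * - b11 g3; omega
  clear * - X g1 g2 g3 g4 g5 g6 k1
  exact X.al.ninv (-N + i - b + l + m + 2) (fin X.al.per 0 _ (ar X.S2 X.al.per 0 (-N + i - b + l + m + 2) (pf X.d2 X.al.per 0 (N + i + b + l - m + 2*c) (pf X.d1 X.al.per 0 (-N + i + b + l + m - 2*d + 2) (pf X.a2 X.al.per 0 (-N + i + b + l + m + 2) (rfl : W (-N + i - b + l + m + 2) = W (-N + i - b + l + m + 2)) (by omega)) (by omega)) (by omega)) (by omega)) (by omega))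

theorem T0_314 (X : C W N Q i a b l m c d L U V Y) (hb : B N Q i a b l m c d L U V Y)
    (h : 2*a + 2*b ≤ l + m + 2*c + 2*U + 2 ∧ N + 2*c ≤ a + b + m ∧ 1 ≤ i + l + 2*c ∧ 2*a + 2*b + m + 1 ≤ 2*N + 4*c ∧ a + b + d ≤ c) :
    False := by
  have b4 := hb.b4
  have b7 := hb.b7
  have b11 := hb.b11
  have b14 := hb.b14
  have b21 := hb.b21
  have b40 := hb.b40
  have b42 := hb.b42
  obtain ⟨g1, g2, g3, g4, g5⟩ := h
  have k1 : m + 2 ≤ 2*N + 2*d := by clear * - b7 b14; omega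
  have k2 : i + 2*a + 2*b + l + 2*d + 1 ≤ m := by clear * - b21 g1; omega
  have k3 : c + 1 ≤ a + b := by clear * - b4 b7 b40 b42; omega
  have k4 : i + l + 2*c ≤ m := by clear * - b11; omega
  clear * - X g1 g2 g3 g4 g5 k1 k2 k3 k4
  exact rr2b X.al.ninv (a + b - c) (-N + m - c - d + 1) (N + i + l + c + 1) (i + 2*a + 2*b + l + m - 2*c + 1) (2*N) (i + l + m + 2) (2*N + i + l - m + 2*c + 2*d) (by omega) (ne' X.n3.xz X.al.per 0 0 (by omega))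
    (fun t h1 h2 => (fin X.al.per 0 _ (pr X.c2 X.al.per 0 (2*a + 2*b - 2*c + t) (rfl : W (t) = W (t)) (by omega)) (by omega)))
    (fun t h1 h2 => (fin X.al.per 0 _ (pr X.f3 X.al.per 0 (-2*N + 2*m - 2*c - 2*d + t + 2) (rfl : W (t) = W (t)) (by omega)) (by omega)))
    (fun t h1 h2 => (fin X.al.per 0 _ (af X.S2 X.al.per 1 (2*N + 2*i + 2*l + 2*c - t + 2) (rfl : W (t) = W (t)) (by omega)) (by omega)))

theorem T0_316 (X : C W N Q i a b l m c d L U V Y) (hb : B N Q i a b l m c d L U V Y)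
    (h : 2*i + 3*a + b + 1 ≤ Q ∧ i + a + b + 2*l + 2*c + 2*d + 2*U + 3 ≤ 0 ∧ 2*N + i + a + b + 2*c + 2*d + 2*V ≤ 2*m + 1) :
    False := by
  have b1 := hb.b1
  have b2 := hb.b2
  have b4 := hb.b4
  have b17 := hb.b17
  have b18 := hb.b18
  have b29 := hb.b29
  have b35 := hb.b35
  have b40 := hb.b40
  have b41 := hb.b41
  have b42 := hb.b42
  have b43 := hb.b43
  have b44 := hb.b44
  obtain ⟨g1, g2, g3⟩ := h
  have k1 : i + 3*a + b + 1 ≤ Q := by clear * - b1 g1; omega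
  have k2 : a + b + 2*l + 2*c + 2*d + 2*U + 3 ≤ 0 := by clear * - b1 g2; omega
  have k3 : 2*N + a + b + 2*c + 2*d + 2*V ≤ 2*m + 1 := by clear * - b18 g2; omega
  have k4 : a ≤ b + l := by clear * - b35 b44 g2; omega
  have k5 : i + a ≤ b + l := by clear * - b4 b40 b42 g1; omega
  have k6 : i + a + 2*m + 2 ≤ 2*N + Q + b + l + 2*c + 2*d + 2*V := by clear * - b17 b29 b35 g1; omega
  have k7 : l + 2*m + 2*U + 4 ≤ 2*N + a + b + 2*V := by clear * - b17 b29 b35 g2; omega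
  have k8 : 2*m + 1 ≤ 2*N + a + 3*b + 2*l + 2*c + 2*d + 2*V := by clear * - b4 b17 b29 b35 b40 b42 g1; omega
  have k9 : i + a + b + 1 ≤ Q := by clear * - b1 b2 g1; omega
  have k10 : b + 2*l + 2*c + 2*d + 2*U + 3 ≤ a := by clear * - b1 b2 g2; omega
  have k11 : 2*N + b + 2*c + 2*d + 2*V ≤ a + 2*m + 1 := by clear * - b2 b18 g2; omega
  have k12 : 1 ≤ l := by clear * - b40 b42; omega
  have k13 : 1 ≤ a + b := by clear * - b2 b4 b35 b41 b43 g1; omega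
  clear * - X g1 g2 g3 k1 k2 k3 k4 k5 k6 k7 k8 k9 k10 k11 k12 k13
  obtain ⟨K0, hL⟩ : ∃ K0 : ℤ, 2*N + 2*a - 2*m + 2*c + 2*d + 2*V ≤ 2*K0 ∧ 2*N + 2*i + 2*a - 2*m + 2*c + 2*d + 2*V ≤ 2*K0 ∧ -2*N - 2*a - 4*b - 2*l + 2*m - 2*c - 2*d - 2*V + 2 ≤ 2*K0 ∧ 2*N - 2*a - 2*m + 2*c + 2*d + 2*V ≤ 2*K0 ∧ 2*K0 + 2*(a + b) - 2 ≤ 2*N + 2*Q - 2*i - 2*a - 2*m + 2*c + 2*d + 2*V - 4 ∧ 2*K0 + 2*(a + b) - 2 ≤ 2*N + 2*a - 4*l - 2*m - 2*c - 2*d - 4*U + 2*V - 8 ∧ 2*K0 + 2*(a + b) - 2 ≤ -2*N + 2*a + 2*m - 2*c - 2*d - 2*V ∧ 2*K0 + 2*(a + b) - 2 ≤ 2*N + 2*a + 4*b + 2*l - 2*m + 2*c + 2*d + 2*V - 2 := ⟨((max (2*N - 2*a - 2*m + 2*c + 2*d + 2*V) (max (-2*N - 2*a - 4*b - 2*l + 2*m - 2*c - 2*d - 2*V + 2) (max (2*N + 2*i + 2*a - 2*m + 2*c + 2*d + 2*V) (2*N + 2*a - 2*m + 2*c + 2*d + 2*V)))) + 1) / 2, by omega⟩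
  obtain ⟨R, hR1, hR2, hR⟩ := pw (A := i + 1) (B := i + 2*a + 2*b + l + 1) (γ := a + b) (by omega) (fun t h1 h2 => (fin X.al.per 0 _ (pf X.bb X.al.per 0 (2*a + 2*b + t) (rfl : W (t) = W (t)) (by omega)) (by omega))) K0
  exact X.al.ninv (-N + i + a + m - c - d - V + R + 1) (fin X.al.per 0 _ (pp hR X.al.per 0 (-N + i + a + m - c - d - V + R + 1) (pf X.f2 X.al.per (-1) (-N + i + a + m - c - d - V - R + 1) (af X.s2 X.al.per 0 (N + i + a - m + c + d + V - R - 1) (rfl : W (-N + i + a + m - c - d - V + R + 1) = W (-N + i + a + m - c - d - V + R + 1)) (by omega)) (by omega)) (by omega)) (by omega))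

theorem T0_317 (X : C W N Q i a b l m c d L U V Y) (hb : B N Q i a b l m c d L U V Y)
    (h : 2*a + 2*b ≤ l ∧ 2*a + 2*b + l + 2*m + 2*U + 4 ≤ 2*N + 2*V ∧ 2*N + i + l + 2*c + 2*d + 2*V ≤ 2*a + 2*b + 2*m ∧ 2*a + 2*b + 3*m + 4 ≤ 4*N + 2*c + 2*d + 2*V ∧ 3*N + 2*c + 2*d + V ≤ 2*a + 2*b + 2*m + 2 ∧ 2*a + 2*b + 2*m + 2 ≤ 3*N + 2*c + 2*d + V) :
    False := by
  have b17 := hb.b17
  have b29 := hb.b29
  have b35 := hb.b35
  obtain ⟨g1, g2, g3, g4, g5, g6⟩ := h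
  have k1 : 1 ≤ a + b := by clear * - b17 b29 b35 g3; omega
  clear * - X g1 g2 g3 g4 g5 g6 k1
  exact X.n2.yz (fin X.al.per 0 _ (pf X.d2 X.al.per 0 (6*N + i - 2*a - 2*b + l - 4*m + 4*c + 4*d + 2*V - 3) (pr X.f2 X.al.per 0 (4*N + i - 2*a - 2*b + l - 2*m + 2*c + 2*d + 2*V - 1) (pr X.bb X.al.per 0 (i - 2*a - 2*b + l + 1) (rfl : W (i + l + 1) = W (i + l + 1)) (by omega)) (by omega)) (by omega)) (by omega)).symm

theorem T0_319 (X : C W N Q i a b l m c d L U V Y) (hb : B N Q i a b l m c d L U V Y)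
    (h : i + 4*a + 4*b + 2*m + 3 ≤ 4*N + Q + 4*c + 2*d + 2*V ∧ Q + 4*a + 4*b ≤ 2*N + 2*c ∧ 2*N + 2*c + d + V ≤ 2*a + 2*b + m) :
    False := by
  have b7 := hb.b7
  have b8 := hb.b8
  have b17 := hb.b17
  have b19 := hb.b19
  have b29 := hb.b29
  have b32 := hb.b32
  have b33 := hb.b33
  have b35 := hb.b35
  have b41 := hb.b41
  have b43 := hb.b43
  obtain ⟨g1, g2, g3⟩ := h
  have k1 : i + 2*a + 2*b + l + 2*m + 4 ≤ 4*N + Q + 2*c + 2*d + 2*V := by clear * - b7 b17 b29 b33 g1; omega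
  have k2 : i + 2*l + 2*m + 2*U + 5 ≤ 2*N + Q + 2*V := by clear * - b17 b19; omega
  have k3 : 2*a + 2*b + m + 2 ≤ 3*N + 2*c + d + V := by clear * - b17 b29 b32 b35 b41 b43 g2; omega
  clear * - X g1 g2 g3 b8 k1 k2 k3
  exact X.al.ubQ (-4*N + 4*a + 4*b + 2*m - 4*c - 2*d - 2*V + 2) (by omega) (by omega) fun t h1 h2 => (fin X.al.per 0 _ (pf X.f2 X.al.per 0 (-4*N + 4*a + 4*b + 2*m - 4*c - 2*d - 2*V + t + 2) (pr X.c2 X.al.per 0 (4*a + 4*b - 2*c + t) (pf X.bb X.al.per 0 (2*a + 2*b + t) (rfl : W (t) = W (t)) (by omega)) (by omega)) (by omega)) (by omega))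

theorem T0_322 (X : C W N Q i a b l m c d L U V Y) (hb : B N Q i a b l m c d L U V Y)
    (h : Q ≤ i + b + l + c + d + 1 ∧ l + c + d + 2 ≤ 2*a + b ∧ b + m + 2 ≤ 2*N + c + d ∧ b + c ≤ m + d ∧ d + 1 ≤ b + c) :
    False := by
  obtain ⟨g1, g2, g3, g4, g5⟩ := h
  clear * - X g1 g2 g3 g4 g5
  exact X.al.ninv (i - b + l + c + d + 1) (fin X.al.per 0 _ (ar X.S2 X.al.per 0 (i - b + l + c + d + 1) (pf X.d1 X.al.per 0 (i + b + l + c - d + 1) (pf X.a2 X.al.per 0 (i + b + l + c + d + 1) (rfl : W (i - b + l + c + d + 1) = W (i - b + l + c + d + 1)) (by omega)) (by omega)) (by omega)) (by omega))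

theorem T0_324 (X : C W N Q i a b l m c d L U V Y) (hb : B N Q i a b l m c d L U V Y)
    (h : 2*N + 2*a + 2*b ≤ Q + 2*l + 2*m + 2*U + 4 ∧ 2*N + 2*b ≤ Q + l + m + L + 2*U + 4 ∧ 2*N + Q ≤ i + 2*b + 2*l + 2*m + 2*U + 4 ∧ l + m + U + 3 ≤ N + a) :
    False := by
  have b32 := hb.b32
  have b40 := hb.b40
  have b41 := hb.b41
  have b42 := hb.b42
  have b43 := hb.b43
  obtain ⟨g1, g2, g3, g4⟩ := h
  have k1 : a ≤ l + m + U + 1 := by clear * - b32 b40 b41 b42 b43 g3; omega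
  clear * - X g1 g2 g3 g4 k1
  exact X.al.ubQ (2*N + 2*a - 2*l - 2*m - 2*U - 4) (by omega) (by omega) fun t h1 h2 => (fin X.al.per 0 _ (pf X.a1 X.al.per 0 (2*N + 2*a - 2*l - 2*m - 2*U + t - 4) (pr X.g3 X.al.per 0 (2*N + 2*a - 2*b - 2*l - 2*m - 2*U + t - 4) (pr X.a1 X.al.per 0 (-2*b + t) (rfl : W (t) = W (t)) (by omega)) (by omega)) (by omega)) (by omega))

theorem T0_326 (X : C W N Q i a b l m c d L U V Y) (hb : B N Q i a b l m c d L U V Y)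
    (h : N + a + b + V ≤ 2*l + 2*m + d + 2*U + 3 ∧ a + b + l + 3*m + 2*U + 5 ≤ 3*N + 2*c + d + V ∧ i + 2*l + 2*m + d + 2*U + 5 ≤ N + Q + a + b + V) :
    False := by
  have b4 := hb.b4
  have b8 := hb.b8
  have b11 := hb.b11
  have b18 := hb.b18
  obtain ⟨g1, g2, g3⟩ := h
  have k1 : l + 2*m + d + 2*U + 4 ≤ N + a + b + V := by clear * - b8 g3; omega
  have k2 : N + Q + V ≤ i + a + b + 2*l + 2*m + d + 2*U + 4 := by clear * - b4 g1; omega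
  have k3 : a + b + V + 1 ≤ N + d := by clear * - b11 b18 g2; omega
  clear * - X g1 g2 g3 k1 k2 k3
  exact X.al.ninv (-N + i - a - b + 2*l + 2*m + d + 2*U - V + 4) (fin X.al.per 0 _ (ar X.t2 X.al.per 1 (-N + i - a - b + 2*l + 2*m + d + 2*U - V + 4) (pf X.d1 X.al.per 0 (-N + i + a + b + 2*l + 2*m - d + 2*U - V + 4) (pf X.bb X.al.per 0 (-N + i + a + b + 2*l + 2*m + d + 2*U - V + 4) (rfl : W (-N + i - a - b + 2*l + 2*m + d + 2*U - V + 4) = W (-N + i - a - b + 2*l + 2*m + d + 2*U - V + 4)) (by omega)) (by omega)) (by omega)) (by omega))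

theorem T0_327 (X : C W N Q i a b l m c d L U V Y) (hb : B N Q i a b l m c d L U V Y)
    (h : l + m + U + 3 ≤ N + a ∧ 2*N ≤ 2*b + l + 3*m + 2*U + 2*Y + 3 ∧ 2*b + l + 2*m + 2*U + 4 ≤ 2*N ∧ b + 2*m + Y + 2 ≤ 2*N + c + d ∧ 2*N + c + d ≤ b + 2*m + Y + 2) :
    False := by
  have b17 := hb.b17
  have b18 := hb.b18
  obtain ⟨g1, g2, g3, g4, g5⟩ := h
  have k1 : 2*N ≤ i + 2*l + 2*m + 2*U + 4 := by clear * - b17 b18; omega
  clear * - X g1 g2 g3 g4 g5 k1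
  exact X.n4.yz (fin X.al.per 0 _ (pf X.g0 X.al.per 0 (-2*N + i + 2*b + 2*l + 4*m + 2*U + 2*Y + 6) (pf X.a1 X.al.per 0 (-2*N + i + 2*b + 2*l + 2*m + 2*U + 4) (rfl : W (-2*N + i + 2*l + 2*m + 2*U + 4) = W (-2*N + i + 2*l + 2*m + 2*U + 4)) (by omega)) (by omega)) (by omega)).symm

end Pool.Agent.MP_a38735_al.WL.E342
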