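import Pool.Agent.MP_a38735_al.E342h

set_option autoImplicit false
set_option linter.unusedVariables false
set_option linter.unusedSimpArgs false

namespace Pool.Agent.MP_a38735_al.WL.E342

variable {G : Type*} [Group G]

variable {W : ℤ → G} {N Q i a b l m c d L U V Y : ℤ}

theorem T0_328 (X : C W N Q i a b l m c d L U V Y) (hb : B N Q i a b l m c d L U V Y)
    (h : i + a + b + l + 2*c + 1 ≤ m ∧ i + l + 2*c + 2 ≤ a + b ∧ 2*N + i + a + b + 2*c + 2*d + 2*V ≤ 2*m + 1 ∧ i + a + b + 2*l + 2*c + 2*d + 2*U + 3 ≤ 0) :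
    False := by
  have b6 := hb.b6
  have b17 := hb.b17
  have b29 := hb.b29
  have b35 := hb.b35
  have b38 := hb.b38
  have b40 := hb.b40
  have b41 := hb.b41
  have b42 := hb.b42
  obtain ⟨g1, g2, g3, g4⟩ := h
  have k1 : a + b ≤ m := by clear * - b6 g1; omega
  have k2 : m + 2 ≤ 2*N + a + b + 2*d + 2*V := by clear * - b17 b38 b41 b42 g2; omega
  have k3 : 1 ≤ a + b := by clear * - b6 g2; omega
  have k4 : 2*m + 3 ≤ 2*N + 3*a + 3*b + 2*d + 2*V := by clear * - b17 b29 b35 g2; omega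
  have k5 : 2*N + a + b + 2*d + 2*V ≤ l + 2*m + 2 := by clear * - b6 g3; omega
  have k6 : a + b + l + 2*d + 2*U + 2 ≤ 0 := by clear * - b6 g4; omega
  have k7 : l + 2*m + 2*U + 4 ≤ 2*N + a + b + 2*V := by clear * - b17 b29 b35 g4; omega
  have k8 : 1 ≤ l := by clear * - b40 b42; omega
  clear * - X g1 g2 g3 g4 k1 k2 k3 k4 k5 k6 k7 k8
  obtain ⟨K0, hL⟩ : ∃ K0 : ℤ, -2*N - 2*d - 2*V + 2 ≤ 2*K0 ∧ -2*N - 4*a - 4*b + 2*m - 2*d - 2*V + 4 ≤ 2*K0 ∧ 2*N - 2*l - 2*m + 2*d + 2*V - 2 ≤ 2*K0 ∧ -2*N + 2*l + 2*m + 2*d + 4*U - 2*V + 6 ≤ 2*K0 ∧ 2*K0 + 2*(a + b) - 2 ≤ -2*N + 2*m - 2*d - 2*V ∧ 2*K0 + 2*(a + b) - 2 ≤ -2*N + 2*l + 2*m - 2*d - 2*V + 2 ∧ 2*K0 + 2*(a + b) - 2 ≤ 2*N + 4*a + 4*b - 2*m + 2*d + 2*V - 4 ∧ 2*K0 + 2*(a + b) - 2 ≤ -2*N - 2*i - 2*l + 2*m - 4*c - 2*d - 2*V - 2 := ⟨((max (-2*N + 2*l + 2*m + 2*d + 4*U - 2*V + 6) (max (2*N - 2*l - 2*m + 2*d + 2*V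 - 2) (max (-2*N - 4*a - 4*b + 2*m - 2*d - 2*V + 4) (-2*N - 2*d - 2*V + 2)))) + 1) / 2, by omega⟩
  obtain ⟨R, hR1, hR2, hR⟩ := pw (A := i + 1) (B := i + 2*a + 2*b + l + 1) (γ := a + b) (by omega) (fun t h1 h2 => (fin X.al.per 0 _ (pf X.bb X.al.per 0 (2*a + 2*b + t) (rfl : W (t) = W (t)) (by omega)) (by omega))) K0
  exact X.al.ninv (N + i + l - m + 2*c + d + V + R) (fin X.al.per (-1) _ (pr X.f2 X.al.per 0 (3*N + i + l - m + 2*c + d + V + R) (pp hR X.al.per 0 (-N + i + l + m - d - V + R + 2) (af X.S2 X.al.per 0 (-N + i + l + m - d - V - R + 2) (rfl : W (N + i + l - m + 2*c + d + V + R) = W (N + i + l - m + 2*c + d + V + R)) (by omega)) (by omega)) (by omega)) (by omega))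

theorem T0_329 (X : C W N Q i a b l m c d L U V Y) (hb : B N Q i a b l m c d L U V Y)
    (h : N + l + c + 2*d + 2*U + 1 ≤ V ∧ V ≤ N + l + c + 2*d + 2*U + 1 ∧ l + 2*m + 2*U + 4 ≤ 2*N + 2*c ∧ l + m + 2*d + 2*U + 3 ≤ 0 ∧ i + l + m + 3 ≤ 2*N + d ∧ 2*N + Q + 2*V ≤ i + 3*l + 3*m + 4*U + 6) :
    False := by
  have b11 := hb.b11
  have b17 := hb.b17
  obtain ⟨g1, g2, g3, g4, g5, g6⟩ := h
  have k1 : l + 2*m + 2*U + 4 ≤ 2*N + 2*c + 2*V := by clear * - b17 g3; omega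
  have k2 : l + m + 2*d + 2*U + 3 ≤ 2*V := by clear * - b17 g4; omega
  clear * - X g1 g2 g3 g4 g5 g6 k1 k2 b11
  exact X.al.auU (-2*N + 2*i + 2*l + 2*m - 2*d + 4) fun t h1 h2 => by (try simp only [max_le_iff, lt_min_iff] at h1 h2); exact (lt_or_ge t (min (-2*N + i + l + m - 2*d + 2) (i + l + 2*c + 1))).elim (fun u0 => by (try simp only [lt_min_iff] at u0); exact (fin X.al.per 0 _ (pr X.d2 X.al.per 0 (-2*N + 2*i + 2*l + 2*m - 2*d - t + 4) (af X.S2 X.al.per 0 (2*i + 2*l + 2*c - t + 2) (rfl : W (t) = W (t)) (by omega)) (by omega)) (by omega))) (fun u0 => (fin X.al.per 0 _ (pf X.f3 X.al.per (-1) (2*i + 4*l + 2*m + 2*c + 2*d + 4*U - 2*V - t + 6) (af X.t2 X.al.per 0 (-4*N + 2*i + 4*l + 4*m + 4*U - 2*V - t + 8) (rfl : W (t) = W (t)) (by omega)) (by omega)) (by omega)))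

theorem T0_330 (X : C W N Q i a b l m c d L U V Y) (hb : B N Q i a b l m c d L U V Y)
    (h : m + 1 ≤ N + a + b + 2*c ∧ N + a + b + 2*c ≤ m + 1 ∧ 4*a + 4*b + m + 1 ≤ 2*N + l + 2*c + 2*d ∧ 4*a + 4*b + m + 2 ≤ 2*N + 2*d ∧ L + 1 ≤ 2*a + 2*b + l ∧ i + L + 2 ≤ 2*N + 2*c ∧ m + 2*d + L + 3 ≤ 4*a + 4*b ∧ i + l + m + 2*d + L + 4 ≤ 2*N + 2*a + 2*b + 2*c) :
    False := by
  have b4 := hb.b4
  have b11 := hb.b11
  have b33 := hb.b33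
  have b35 := hb.b35
  have b36 := hb.b36
  have b39 := hb.b39
  have b40 := hb.b40
  have b41 := hb.b41
  have b43 := hb.b43
  obtain ⟨g1, g2, g3, g4, g5, g6, g7, g8⟩ := h
  have k1 : 2*a + 2*b ≤ l := by clear * - b35 g2 g3 g8; omega
  have k2 : i + 4*a + 4*b + 1 ≤ 2*N + 2*d := by clear * - b11 g3; omega
  have k3 : a + b + c + 1 ≤ 0 := by clear * - b35 g2 g4 g8; omega
  have k4 : i + 4*a + 4*b + l + 2*c + 2 ≤ 2*N + 2*d := by clear * - b11 g4; omega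
  have k5 : m + 2 ≤ N + a + b + c := by clear * - b33 g3 g5 g7; omega
  have k6 : a + b + c ≤ m := by clear * - b36 b39 b40 b41 b43 g2 g4 g6 g7 g8; omega
  have k7 : Q + L ≤ i + 4*a + 4*b + l := by clear * - b4 g5; omega
  have k8 : Q + L + 1 ≤ 2*N + 2*a + 2*b + 2*c := by clear * - b4 g6; omega
  clear * - X g1 g2 g3 g4 g5 g6 g7 g8 k1 k2 k3 k4 k5 k6 k7 k8
  exact absurd (X.lam.mx (max (i - 2*a - 2*b + l + m + 2*d + 3) (max (Q - 2*a - 2*b) (i + 1))) (min (2*N + 2*c) (i + 2*a + 2*b + l + 1)) (2*N + 2*a + 2*b - 2*m + 2*c - 2) (by omega) (by omega) fun t h1 h2 => by (try simp only [max_le_iff, lt_min_iff] at h1 h2); exact (lt_or_ge t (min (2*N - 2*a - 2*b + 2*d) (min (2*N + i - 2*a - 2*b + l - m + 2*c + 2*d) (i + l + 1)))).elim (fun u0 => by (try simp only [lt_min_iff] at u0); exact (fin X.al.per 0 _ (pf X.d2 X.al.per 0 (2*N + 2*a + 2*b - 2*m + 2*c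 + t - 2) (pf X.d1 X.al.per 0 (2*a + 2*b - 2*d + t) (pf X.bb X.al.per 0 (2*a + 2*b + t) (rfl : W (t) = W (t)) (by omega)) (by omega)) (by omega)) (by omega))) (fun u0 => (fin X.al.per 0 _ (pr X.c2 X.al.per 0 (-2*c + t) (pr X.bb X.al.per 0 (-2*a - 2*b + t) (rfl : W (t) = W (t)) (by omega)) (by omega)) (by omega)))) (by omega)

theorem T0_331 (X : C W N Q i a b l m c d L U V Y) (hb : B N Q i a b l m c d L U V Y)
    (h : 4*N + i + 2*l + 4*c + 4*d + 2*U ≤ Q + 4*m + 2*Y + 1 ∧ 3*m + Y + 4 ≤ 3*N + 2*c + 2*d + V ∧ 2*N + Q + 2*c + 2*d + 2*V ≤ 2*m + 2 ∧ i + l + 1 ≤ Q + m + 2*Y ∧ 6*N + Q + 4*c + 4*d + 2*V ≤ i + l + 6*m + 2*Y + 7) :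
    False := by
  have b39 := hb.b39
  have b41 := hb.b41
  have b42 := hb.b42
  have b43 := hb.b43
  obtain ⟨g1, g2, g3, g4, g5⟩ := h
  have k1 : 2*N + i + l + 2*c + 2*d ≤ Q + 3*m + 2*Y + 1 := by clear * - b43 g1 g2 g4 g5; omega
  have k2 : 2*N + 2*c + 2*d + V ≤ 3*m + Y + 2 := by clear * - b39 b41 b42 b43 g2 g4 g5; omega
  clear * - X g1 g2 g3 g4 g5 k1 k2
  exact X.al.ubQ (6*N - 6*m + 4*c + 4*d + 2*V - 2*Y - 6) (by omega) (by omega) fun t h1 h2 => (fin X.al.per 0 _ (pr X.g0 X.al.per 0 (6*N - 6*m + 4*c + 4*d + 2*V - 2*Y + t - 6) (pf X.d2 X.al.per 0 (6*N - 4*m + 4*c + 4*d + 2*V + t - 4) (pf X.f1 X.al.per 0 (4*N - 2*m + 2*c + 2*d + 2*V + t - 2) (rfl : W (t) = W (t)) (by omega)) (by omega)) (by omega)) (by omega))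

theorem T0_332 (X : C W N Q i a b l m c d L U V Y) (hb : B N Q i a b l m c d L U V Y)
    (h : m + 2 ≤ 2*a + 2*b ∧ a + b + 1 ≤ N + c + d + Y ∧ 2*N + 2*c + 2*d + L ≤ 3*m + 2*Y + 1) :
    False := by
  have b39 := hb.b39
  have b41 := hb.b41
  have b42 := hb.b42
  have b43 := hb.b43
  obtain ⟨g1, g2, g3⟩ := h
  have k1 : m + 2*Y + 1 ≤ 2*a + 2*b + l + 2*U := by clear * - b43 g1; omega
  have k2 : 2*m + 2 ≤ 2*N + l + 2*c + 2*d := by clear * - b42 g1 g2; omega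
  have k3 : m + Y + 1 ≤ N + l + c + d + U := by clear * - b42 b43 g1 g2; omega
  have k4 : c + d + Y + 1 ≤ a + b := by clear * - b39 b41 b42 b43 g1 g2 g3; omega
  have k5 : 2*a + 2*b + L ≤ 2*l + 2*m + 2*U + 2 := by clear * - b42 b43 g2 g3; omega
  have k6 : 2*N + 2*c + 2*d + L ≤ l + 2*m + 1 := by clear * - b42 g3; omega
  have k7 : 2*a + 2*b + L ≤ l + 3*m + 2*U + 2*Y + 2 := by clear * - b43 g2 g3; omega
  clear * - X g1 g2 g3 k1 k2 k3 k4 k5 k6 k7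
  exact absurd (X.lam.mx (max (i + 2*a + 2*b + l - m - 2*Y + 1) (i + 2*a + 2*b + 1)) (min (-2*N + i + 2*a + 2*b + l + 2*m - 2*c - 2*d + 3) (i + 2*l + 2*m + 2*U + 4)) (2*N - 2*a - 2*b + 2*c + 2*d + 2*Y) (by omega) (by omega) fun t h1 h2 => by (try simp only [max_le_iff, lt_min_iff] at h1 h2); exact (lt_or_ge t (min (i + 2*a + 2*b + 2*l + 2*U - 2*Y + 2) (i + 2*a + 2*b + l + 1))).elim (fun u0 => by (try simp only [lt_min_iff] at u0); exact (fin X.al.per 0 _ (pf X.f3 X.al.per 0 (2*N - 2*a - 2*b + 2*c + 2*d + 2*Y + t) (pf X.g0 X.al.per 0 (-2*a - 2*b + 2*m + 2*Y + t + 2) (pr X.bb X.al.per 0 (-2*a - 2*b + t) (rfl : W (t) = W (t)) (by omega)) (by omega)) (by omega)) (by omega))) (fun u0 => (fin X.al.per 0 _ (pf X.g0 X.al.per 0 (2*N - 2*a - 2*b + 2*c + 2*d + 2*Y + t) (pr X.bb X.al.per 0 (2*N - 2*a - 2*b - 2*m + 2*c + 2*d + t - 2) (pf X.f3 X.al.per 0 (2*N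 - 2*m + 2*c + 2*d + t - 2) (rfl : W (t) = W (t)) (by omega)) (by omega)) (by omega)) (by omega)))) (by omega)

theorem T0_343 (X : C W N Q i a b l m c d L U V Y) (hb : B N Q i a b l m c d L U V Y)
    (h : 2*N + a + b + c + d + V ≤ l + 2*m + U + 2 ∧ 2*m + 2 ≤ 2*N + i + 2*a + 2*b + 2*c + 2*d + 2*V ∧ Q + l + m ≤ 2*a + 2*b + L) :
    False := by
  have b17 := hb.b17
  have b19 := hb.b19
  have b32 := hb.b32
  have b40 := hb.b40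
  have b41 := hb.b41
  have b42 := hb.b42
  have b43 := hb.b43
  obtain ⟨g1, g2, g3⟩ := h
  have k1 : i + 4*l + 4*m + 4*U + 9 ≤ 4*N + 2*a + 2*b + 2*V := by clear * - b17 b19 b41 b42 g3; omega
  have k2 : Q + 2*l + 2*m + 2*U + 4 ≤ 2*N + 2*a + 2*b := by clear * - b41 b42 g3; omega
  have k3 : l + 2*m + U + 4 ≤ 3*N + a + b + c + d + V := by clear * - b32 b40 b41 b42 b43 g2 g3; omega
  clear * - X g1 g2 g3 k1 k2 k3
  exact X.al.ubP (-4*N - 2*a - 2*b + 2*l + 4*m - 2*c - 2*d + 2*U - 2*V + 6) (by omega) (by omega) fun t h1 h2 => (fin X.al.per 0 _ (pf X.g4 X.al.per 0 (-4*N - 2*a - 2*b + 2*l + 4*m - 2*c - 2*d + 2*U - 2*V + t + 6) (pr X.a2 X.al.per 0 (-2*N - 2*b + 2*m - 2*c - 2*d - 2*V + t + 2) (pf X.f2 X.al.per (-1) (-2*N + 2*m - 2*c - 2*d - 2*V + t + 2) (rfl : W (t) = W (t)) (by omega)) (by omega)) (by omega)) (by omega))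

theorem T0_346 (X : C W N Q i a b l m c d L U V Y) (hb : B N Q i a b l m c d L U V Y)
    (h : 4*N + i + 2*l + 4*c + 6*d + 2*U + 1 ≤ Q + 2*m ∧ 2*m + 3 ≤ 3*N + 2*c + 3*d + V ∧ 2*N + i + l + 2*c + 4*d + 1 ≤ Q + m ∧ 2*N + Q + 2*c + 2*d + 2*V ≤ 2*m + 2 ∧ 4*N + Q + 2*c + 4*d + 2*V ≤ i + l + 3*m + 4) :
    False := by
  have b38 := hb.b38
  have b40 := hb.b40
  have b41 := hb.b41
  have b42 := hb.b42
  have b43 := hb.b43
  obtain ⟨g1, g2, g3, g4, g5⟩ := h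
  have k1 : 2*N + 2*c + 3*d + V ≤ 2*m + 1 := by clear * - b38 b40 b41 b42 b43 g1 g4; omega
  clear * - X g1 g2 g3 g4 g5 k1
  exact X.al.ubQ (6*N - 4*m + 4*c + 6*d + 2*V - 4) (by omega) (by omega) fun t h1 h2 => (fin X.al.per 0 _ (pr X.d1 X.al.per 0 (6*N - 4*m + 4*c + 6*d + 2*V + t - 4) (pf X.d2 X.al.per 0 (6*N - 4*m + 4*c + 4*d + 2*V + t - 4) (pf X.f1 X.al.per 0 (4*N - 2*m + 2*c + 2*d + 2*V + t - 2) (rfl : W (t) = W (t)) (by omega)) (by omega)) (by omega)) (by omega))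

theorem T0_347 (X : C W N Q i a b l m c d L U V Y) (hb : B N Q i a b l m c d L U V Y)
    (h : N + a + c + 2*d + V + Y + 1 ≤ 0 ∧ i + a + 1 ≤ N + Q + c + 2*d + V + Y ∧ l + m + 3 ≤ 3*N + a + c + 2*d + V + Y ∧ 3*N + a + c + 2*d + V ≤ l + 2*m + Y + 2 ∧ Q + 2*m + Y + 2 ≤ 3*N + i + a + c + 2*d + V ∧ N + a + V ≤ l + m + c + Y + 1 ∧ 2*l + 2*m + c + 2*d + 2*U + Y + 5 ≤ N + a + V) :
    False := by
  obtain ⟨g1, g2, g3, g4, g5, g6, g7⟩ := h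
  clear * - X g1 g2 g3 g4 g5 g6 g7
  exact X.al.ninv (-N + i + a - c - 2*d - V - Y) (fin X.al.per 0 _ (pr X.f1 X.al.per 0 (-N + i + a - c - 2*d - V - Y) (pf X.d1 X.al.per 0 (3*N + i + a - 2*m + c + V - Y - 2) (pr X.g0 X.al.per (-1) (3*N + i + a - 2*m + c + 2*d + V - Y - 2) (af X.s2 X.al.per 0 (N + i + a + c + 2*d + V + Y) (rfl : W (-N + i + a - c - 2*d - V - Y) = W (-N + i + a - c - 2*d - V - Y)) (by omega)) (by omega)) (by omega)) (by omega)) (by omega))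

theorem T0_348 (X : C W N Q i a b l m c d L U V Y) (hb : B N Q i a b l m c d L U V Y)
    (h : a + m + Y ≤ l + c + V ∧ l + c + V ≤ a + m + Y ∧ i + 2*a ≤ l + 2*c ∧ a + m + 1 ≤ N + l + 2*c + d + V ∧ i + l + m + 3 ≤ 2*N + d ∧ Q + 2*l + 2*c + 2*d + 2*U + 2 ≤ i + 2*a ∧ 2*N + Q + l + 2*c + 2*d + 2*V ≤ i + 2*a + 3*m + 2*Y + 2) :
    False := by
  have b7 := hb.b7
  have b11 := hb.b11
  have b18 := hb.b18
  have b33 := hb.b33
  have b40 := hb.b40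
  have b41 := hb.b41
  obtain ⟨g1, g2, g3, g4, g5, g6, g7⟩ := h
  have k1 : 2*a ≤ l + 2*c := by clear * - b18 b33 b41 g1 g3; omega
  have k2 : 2*N + 2*a + 2*d ≤ l + m + 1 := by clear * - b7 b18 b33 b41 g1 g3 g7; omega
  have k3 : 2*N + i + 2*a + 2*d ≤ l + m + 1 := by clear * - b7 g1 g3 g7; omega
  have k4 : 2*a + m ≤ 2*l + 2*c + 2*V := by clear * - b40 g1; omega
  clear * - X g1 g2 g3 g4 g5 g6 g7 k1 k2 k3 k4 b11
  exact X.al.auU (-2*N + 2*i + 2*l + 2*m - 2*d + 4) fun t h1 h2 => by (try simp only [max_le_iff, lt_min_iff] at h1 h2); exact (lt_or_ge t (min (-2*N + i + l + m - 2*d + 2) (i + l + 2*c + 1))).elim (fun u0 => by (try simp only [lt_min_iff] at u0); exact (fin X.al.per 0 _ (pr X.d2 X.al.per 0 (-2*N + 2*i + 2*l + 2*m - 2*d - t + 4) (af X.S2 X.al.per 0 (2*i + 2*l + 2*c - t + 2) (rfl : W (t) = W (t)) (by omega)) (by omega)) (by omega))) (fun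 u0 => (fin X.al.per 0 _ (pf X.g0 X.al.per 0 (-2*N + 2*i + 2*a + 4*m - 2*c - 2*d - 2*V + 2*Y - t + 4) (pf X.f2 X.al.per (-1) (-2*N + 2*i + 2*a + 2*m - 2*c - 2*d - 2*V - t + 2) (af X.s2 X.al.per 0 (2*i + 2*a - t) (rfl : W (t) = W (t)) (by omega)) (by omega)) (by omega)) (by omega)))

theorem T0_349 (X : C W N Q i a b l m c d L U V Y) (hb : B N Q i a b l m c d L U V Y)
    (h : i + 2*a + 2*b + l ≤ Q + 2*m + 2*Y ∧ m + c + Y + 2 ≤ a + b ∧ i + l + 1 ≤ Q + m + 2*Y ∧ Q + 2*a + 2*b ≤ i + l + 2*m + 2*c + 2*Y + 3) :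
    False := by
  have b39 := hb.b39
  have b41 := hb.b41
  have b42 := hb.b42
  have b43 := hb.b43
  obtain ⟨g1, g2, g3, g4⟩ := h
  have k1 : a + b ≤ N + m + c + Y := by clear * - b39 b41 b42 b43 g2 g3 g4; omega
  clear * - X g1 g2 g3 g4 k1
  exact X.al.ubQ (2*a + 2*b - 2*m - 2*c - 2*Y - 2) (by omega) (by omega) fun t h1 h2 => (fin X.al.per 0 _ (pr X.g0 X.al.per 0 (2*a + 2*b - 2*m - 2*c - 2*Y + t - 2) (pf X.c1 X.al.per 0 (2*a + 2*b - 2*c + t) (rfl : W (t) = W (t)) (by omega)) (by omega)) (by omega))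

theorem T0_354 (X : C W N Q i a b l m c d L U V Y) (hb : B N Q i a b l m c d L U V Y)
    (h : 2*a + 3*b + 1 ≤ N + c ∧ i + 1 ≤ 2*b ∧ 2*N + 2*c ≤ i + 4*a + 4*b + l + 1 ∧ 2*N + 2*c ≤ i + 6*a + 6*b) :
    False := by
  have b4 := hb.b4
  have b7 := hb.b7
  have b39 := hb.b39
  have b40 := hb.b40
  have b41 := hb.b41
  have b43 := hb.b43
  obtain ⟨g1, g2, g3, g4⟩ := h
  have k1 : i + l + 2*c + 2 ≤ 2*a + 4*b := by clear * - b4 b7 g2; omega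
  have k2 : c + 1 ≤ 2*a + 3*b := by clear * - b39 b40 b41 b43 g2 g3; omega
  clear * - X g1 g2 g3 g4 k1 k2
  exact X.al.ubP (2*N - 4*a - 6*b + 2*c) (by omega) (by omega) fun t h1 h2 => (fin X.al.per 0 _ (pr X.a1 X.al.per 0 (2*N - 4*a - 6*b + 2*c + t) (pr X.bb X.al.per 0 (2*N - 4*a - 4*b + 2*c + t) (pf X.c2 X.al.per (-1) (2*N - 2*a - 2*b + 2*c + t) (rfl : W (t) = W (t)) (by omega)) (by omega)) (by omega)) (by omega))

theorem T0_358 (X : C W N Q i a b l m c d L U V Y) (hb : B N Q i a b l m c d L U V Y)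
    (h : 2*N + i + 2*l + m + 2*c + 2*d + 2*U + 2 ≤ 2*a + 2*b + L ∧ l + m + U + 2 ≤ N + a ∧ N + a ≤ l + m + U + 2) :
    False := by
  have b14 := hb.b14
  have b17 := hb.b17
  have b18 := hb.b18
  have b27 := hb.b27
  have b39 := hb.b39
  have b41 := hb.b41
  have b43 := hb.b43
  have b45 := hb.b45
  obtain ⟨g1, g2, g3⟩ := h
  have k1 : 2*a + 2*b ≤ l + m + 1 := by clear * - b17 b39 b45; omega
  have k2 : m + 2 ≤ 2*a + 2*b := by clear * - b27 g1; omega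
  have k3 : i + 3*l + m + 2*c + 2*d + 2*U + 5 ≤ 2*a + 2*b := by clear * - b41 b43 g1; omega
  have k4 : Q + 2*a ≤ i + 3*l + m + 2*c + 2*d + 2*U + 4 := by clear * - b14 g3; omega
  have k5 : 3*l + m + 2*c + 2*d + 2*U + 5 ≤ 4*a + 2*b := by clear * - b17 b18 b41 b43 g1 g2; omega
  clear * - X g1 g2 g3 k1 k2 k3 k4 k5
  exact X.n3.xz (fin X.al.per 0 _ (pf X.a2 X.al.per 1 (i - 2*a + 3*l + m + 2*c + 2*d + 2*U + 4) (pr X.f2 X.al.per 0 (2*N + i - 2*a - 2*b + 3*l + m + 2*c + 2*d + 2*U + 4) (pf X.g2 X.al.per 0 (-2*N + i - 2*a - 2*b + 3*l + 3*m + 2*U - 2*V + 6) (pr X.bb X.al.per 0 (i - 2*a - 2*b + l + m + 2) (rfl : W (i + l + m + 2) = W (i + l + m + 2)) (by omega)) (by omega)) (by omega)) (by omega)) (by omega)).symm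

theorem T0_361 (X : C W N Q i a b l m c d L U V Y) (hb : B N Q i a b l m c d L U V Y)
    (h : l + 2*m + 2*U + 4 ≤ 2*N + 2*c + 2*V ∧ 2*N + 2*c + d + V ≤ a + b + m + 1 ∧ a + b + m + 1 ≤ 2*N + 2*c + d + V) :
    False := by
  have b7 := hb.b7
  obtain ⟨g1, g2, g3⟩ := h
  clear * - X g1 g2 g3 b7
  exact X.n2.xz (fin X.al.per 0 _ (pf X.f1 X.al.per 0 (4*N + i + l - 2*m + 4*c + 2*d + 2*V - 1) (rfl : W (i + l + 2*c + 1) = W (i + l + 2*c + 1)) (by omega)) (by omega)).symm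

theorem T0_362 (X : C W N Q i a b l m c d L U V Y) (hb : B N Q i a b l m c d L U V Y)
    (h : 2*N + 2*c + 2*d + V ≤ a + b + m ∧ m + 2 ≤ 2*N + a + b + 2*c + 2*d + V ∧ a + b + l + m + 2*d + 2*U + 3 ≤ V ∧ Q + a + b + m ≤ 2*N + i + l + 2*c + 2*d + V ∧ V + 1 ≤ a + b) :
    False := by
  have b2 := hb.b2
  have b3 := hb.b3
  have b7 := hb.b7
  have b11 := hb.b11
  have b18 := hb.b18
  obtain ⟨g1, g2, g3, g4, g5⟩ := h
  have k1 : a + b + m + 1 ≤ 2*N + l + 2*c + 2*d + V := by clear * - b2 b3 g4; omega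
  have k2 : 2*N + a + b + 2*c + 2*d + V ≤ 2*m + 1 := by clear * - b11 b18 g3; omega
  have k3 : i + l + m + 3 ≤ 2*N + Q + a + b + 2*d + V := by clear * - b7 g2; omega
  clear * - X g1 g2 g3 g4 g5 k1 k2 k3
  exact X.al.ninv (2*N + i - a - b + l - m + 2*c + 2*d + V) (fin X.al.per 0 _ (pr X.d1 X.al.per 0 (2*N + i - a - b + l - m + 2*c + 2*d + V) (pf X.f1 X.al.per 0 (2*N + i - a - b + l - m + 2*c + V) (ar X.S2 X.al.per 0 (-2*N + i - a - b + l + m - 2*d - V + 2) (pf X.bb X.al.per 0 (2*N + i + a + b + l - m + 2*c + 2*d + V) (rfl : W (2*N + i - a - b + l - m + 2*c + 2*d + V) = W (2*N + i - a - b + l - m + 2*c + 2*d + V)) (by omega)) (by omega)) (by omega)) (by omega)) (by omega))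

theorem T0_363 (X : C W N Q i a b l m c d L U V Y) (hb : B N Q i a b l m c d L U V Y)
    (h : 2*a + 2*b + m + 1 ≤ 2*N + l + 3*c + d + V ∧ 2*N + 3*c + d + V ≤ 2*a + 2*b + m ∧ m + 2 ≤ 2*N + 3*c + d + V ∧ l + m + c + d + 2*U + 3 ≤ V ∧ 2*a + 2*b + m + 2 ≤ 2*N + c + d + V ∧ i + l + c + d + V + 1 ≤ m) :
    False := by
  have b7 := hb.b7
  have b11 := hb.b11
  have b18 := hb.b18
  obtain ⟨g1, g2, g3, g4, g5, g6⟩ := h
  have k1 : 2*N + 3*c + d + V ≤ 2*m + 1 := by clear * - b11 b18 g4; omega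
  have k2 : i + l + m + 3 ≤ 2*N + Q + c + d + V := by clear * - b7 g3; omega
  clear * - X g1 g2 g3 g4 g5 g6 k1 k2
  exact X.al.ninv (2*N + i - 2*a - 2*b + l - m + 3*c + d + V) (fin X.al.per 0 _ (pf X.c2 X.al.per 0 (2*N + i - 2*a - 2*b + l - m + 3*c + d + V) (pf X.f1 X.al.per 0 (2*N + i + l - m + c + d + V) (ar X.S2 X.al.per 0 (-2*N + i + l + m - c - d - V + 2) (pf X.bb X.al.per 0 (2*N + i + l - m + 3*c + d + V) (rfl : W (2*N + i - 2*a - 2*b + l - m + 3*c + d + V) = W (2*N + i - 2*a - 2*b + l - m + 3*c + d + V)) (by omega)) (by omega)) (by omega)) (by omega)) (by omega))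

theorem T0_364 (X : C W N Q i a b l m c d L U V Y) (hb : B N Q i a b l m c d L U V Y)
    (h : Q + 3*m + 2 ≤ 4*N + i + l + 4*c + 4*d ∧ a + b + d + 1 ≤ c ∧ i + l + 2*c + 2*d + L + 2 ≤ m ∧ 2*N + 4*c + 2*d + L ≤ 2*a + 2*b + 2*m ∧ 2*N + 4*c + L ≤ 2*a + 2*b + l + 3*m + 2*U + 2 ∧ Q + 2*a + 2*b + 2*d + L ≤ 2*m + 1 ∧ 2*N + Q + 2*c + 2*d + L ≤ i + l + 3*m + 3 ∧ 2*N + Q + 2*c + L ≤ i + 2*l + 4*m + 2*U + 5) :
    False := by
  have b7 := hb.b7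
  have b11 := hb.b11
  have b13 := hb.b13
  have b32 := hb.b32
  have b35 := hb.b35
  have b39 := hb.b39
  have b41 := hb.b41
  have b43 := hb.b43
  obtain ⟨g1, g2, g3, g4, g5, g6, g7, g8⟩ := h
  have k1 : 3*m + 4 ≤ 4*N + 2*c + 4*d := by clear * - b7 g1; omega
  have k2 : i + l + 2*m + 4 ≤ 4*N + 4*d := by clear * - b7 b11 g1; omega
  have k3 : Q + 2*m + 2 ≤ 4*N + 2*c + 4*d := by clear * - b11 g1; omega
  have k4 : m + 2 ≤ N + a + b + d := by clear * - b7 b35 g1 g3; omega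
  have k5 : c + 1 ≤ N + a + b + d := by clear * - b32 b35 b39 b41 b43 g1 g3 g5; omega
  have k6 : 2*N + i + l + 4*c + 4*d + L ≤ 3*m := by clear * - b39 g2 g3 g5; omega
  have k7 : i + 2*a + 2*b + l + 2*c + 2*d + L + 1 ≤ 2*m := by clear * - b7 g6; omega
  have k8 : 2*N + i + 2*a + 2*b + l + 4*c + 4*d + L ≤ 4*m + 1 := by clear * - b7 b39 g2 g5 g6; omega
  have k9 : 2*N + 4*c + 2*d + L ≤ 3*m + 1 := by clear * - b7 g7; omega
  have k10 : 2*N + 4*c + L ≤ l + 4*m + 2*U + 3 := by clear * - b7 g8; omega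
  have k11 : 2*N + Q + 2*a + 2*b + 2*c + 4*d + L ≤ 4*m + 3 := by clear * - b39 g2 g5 g6; omega
  clear * - X g1 g2 g3 g4 g5 g6 g7 g8 k1 k2 k3 b13 k4 k5 k6 k7 k8 k9 k10 k11
  exact absurd (X.lam.mx (max (2*N + i + 2*a + 2*b + l - m + 4*d + 1) (max (2*N + Q + 2*a + 2*b - 2*m + 2*d - 2) (max (2*N + i + 2*a + 2*b + l - 2*m + 2*c + 2*d) (2*N + i + l - m + 2*c + 2*d + 1)))) (min (i + 2*a + 2*b + 2*l + 2*m - 2*c + 2*d + 2*U + 4) (min (i + 2*a + 2*b + l + m - 2*c + 2) (min (2*m - 2*c - 2*d + 2) (2*N)))) (-2*a - 2*b + 2*c - 2*d) (by omega) (by omega) fun t h1 h2 => by (try simp only [max_le_iff, lt_min_iff] at h1 h2); exact (lt_or_ge t (min (4*N + 2*a + 2*b - 2*m + 4*d - 2) (min (4*N + i + 2*a + 2*b + l - 3*m + 2*c + 4*d - 2) (4*N - 2*m + 2*c + 2*d - 2)))).elim (fun u0 => by (try simp only [lt_min_iff] at u0); exact (fin X.al.per 0 _ (pf X.d2 X.al.per 0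 (-2*a - 2*b + 2*c - 2*d + t) (pf X.d1 X.al.per 0 (-2*N - 2*a - 2*b + 2*m - 4*d + t + 2) (pf X.c2 X.al.per 0 (-2*N - 2*a - 2*b + 2*m - 2*d + t + 2) (pr X.d2 X.al.per 0 (-2*N + 2*m - 2*c - 2*d + t + 2) (rfl : W (t) = W (t)) (by omega)) (by omega)) (by omega)) (by omega)) (by omega))) (fun u0 => (lt_or_ge t (min (2*N + i + 2*a + 2*b + l - m + 2*d) (2*N))).elim (fun u1 => by (try simp only [lt_min_iff] at u1); exact (fin X.al.per 0 _ (pf X.d1 X.al.per 0 (-2*a - 2*b + 2*c - 2*d + t) (pf X.c2 X.al.per 0 (-2*a - 2*b + 2*c + t) (rfl : W (t) = W (t)) (by omega)) (by omega)) (by omega))) (fun u1 => (fin X.al.per 0 _ (pr X.f3 X.al.per 0 (-2*a - 2*b + 2*c - 2*d + t) (pf X.d1 X.al.per 0 (2*N - 2*a - 2*b - 2*m + 4*c + t - 2) (pf X.c2 X.al.per 0 (2*N - 2*a - 2*b - 2*m + 4*c + 2*d + t - 2) (pf X.d2 X.al.per 0 (2*N - 2*m + 2*c + 2*d + t - 2) (rfl : W (t) = W (t))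 (by omega)) (by omega)) (by omega)) (by omega)) (by omega))))) (by omega)

theorem T0_365 (X : C W N Q i a b l m c d L U V Y) (hb : B N Q i a b l m c d L U V Y)
    (h : 2*N + i + 2*c + 2*V ≤ Q + 2*a + 2*b + 2*m + 2*U + 1 ∧ a + b + l + 2*m + 2*U + 4 ≤ 2*N + c + V ∧ 4*N + Q + 2*c + 2*V ≤ i + 3*l + 5*m + 4*U + 8 ∧ i + l + 2 ≤ Q + 2*a + 2*b ∧ 4*N + Q + 2*c + 2*V ≤ i + 2*a + 2*b + 3*l + 4*m + 4*U + 7) :
    False := by
  have b2 := hb.b2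
  have b3 := hb.b3
  have b40 := hb.b40
  have b43 := hb.b43
  obtain ⟨g1, g2, g3, g4, g5⟩ := h
  have k1 : i + 1 ≤ Q := by clear * - b2 b3; omega
  have k2 : N + c + V ≤ a + b + l + 2*m + 2*U + 2 := by clear * - b40 b43 g1 g2 g3 g4 g5; omega
  clear * - X g1 g2 g3 g4 g5 k1 k2
  exact X.al.ubQ (4*N - 2*a - 2*b - 2*l - 4*m + 2*c - 4*U + 2*V - 6) (by omega) (by omega) fun t h1 h2 => (fin X.al.per 0 _ (pr X.bb X.al.per 0 (4*N - 2*a - 2*b - 2*l - 4*m + 2*c - 4*U + 2*V + t - 6) (af' X.S2 X.al.per 0 (4*N - 2*l - 4*m + 2*c - 4*U + 2*V + t - 6) (af X.t2 X.al.per 0 (-4*N + 2*i + 4*l + 4*m + 4*U - 2*V - t + 8) (rfl : W (t) = W (t)) (by omega)) (by omega)) (by omega)) (by omega))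

theorem T0_369 (X : C W N Q i a b l m c d L U V Y) (hb : B N Q i a b l m c d L U V Y)
    (h : V ≤ i + 2*a ∧ 2*a + 1 ≤ V ∧ 2*N + i + l + 2*c + 2*d + 2*U + V ≤ L ∧ 2*N + Q + V ≤ i + 2*a + 2*b + l + m + L + 2*U + 4) :
    False := by
  have b2 := hb.b2
  obtain ⟨g1, g2, g3, g4⟩ := h
  have k1 : 1 ≤ V := by clear * - b2 g2; omega
  clear * - X g1 g2 g3 g4 k1
  exact X.al.ninv (i + 2*a - V) (fin X.al.per 0 _ (pr X.g4 X.al.per 0 (i + 2*a - V) (pf X.g2 X.al.per 0 (-2*N + i + 2*l + 2*m + 2*U - V + 4) (af X.s1 X.al.per 0 (i + V) (rfl : W (i + 2*a - V) = W (i + 2*a - V)) (by omega)) (by omega)) (by omega)) (by omega))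

theorem T0_372 (X : C W N Q i a b l m c d L U V Y) (hb : B N Q i a b l m c d L U V Y)
    (h : 2*l + c + d + 2*U + 3 ≤ 2*a + b + V + Y ∧ V ≤ b + l + m + c + d + 2*U + Y + 1 ∧ b + l + c + d + 2*U + 2 ≤ V + Y ∧ b + 2*m + V + Y + 3 ≤ 2*N + c + d) :
    False := by
  have b3 := hb.b3
  have b17 := hb.b17
  have b18 := hb.b18
  have b21 := hb.b21
  obtain ⟨g1, g2, g3, g4⟩ := h
  have k1 : b + V + Y ≤ i + 2*l + c + d + 2*U + 2 := by clear * - b17 b18 g4; omega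
  have k2 : 2*N + c + d + V ≤ b + l + 3*m + 2*U + Y + 3 := by clear * - b17 b18 b21 g2; omega
  have k3 : b + 2*m + Y + 3 ≤ 2*N + c + d + V := by clear * - b17 g4; omega
  have k4 : i + 2*l + c + d + 2*U + 3 ≤ Q + b + V + Y := by clear * - b3 g1; omega
  clear * - X g1 g2 g3 g4 k1 k2 k3 k4
  exact X.al.ninv (i - b + 2*l + c + d + 2*U - V - Y + 2) (fin X.al.per 0 _ (ar X.t2 X.al.per 1 (i - b + 2*l + c + d + 2*U - V - Y + 2) (pr X.f3 X.al.per 0 (-2*N + i + b + 2*l + 4*m - c - d + 2*U - V + Y + 6) (pf X.g0 X.al.per 0 (i + b + 2*l + 2*m + c + d + 2*U - V + Y + 4) (pf X.a1 X.al.per 0 (i + b + 2*l + c + d + 2*U - V - Y + 2) (rfl : W (i - b + 2*l + c + d + 2*U - V - Y + 2) = W (i - b + 2*l + c + d + 2*U - V - Y + 2)) (by omega)) (by omega)) (by omega)) (by omega)) (by omega))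

theorem T0_373 (X : C W N Q i a b l m c d L U V Y) (hb : B N Q i a b l m c d L U V Y)
    (h : i + 6*a + 6*b + 2*m + 3 ≤ 4*N + Q + 4*c + 2*d + 2*V ∧ Q + 2*a + 2*b ≤ i + l + 1 ∧ Q + 6*a + 6*b ≤ 2*N + 2*c ∧ 2*N + 2*c + d + V ≤ 3*a + 3*b + m) :
    False := by
  have b4 := hb.b4
  have b7 := hb.b7
  have b8 := hb.b8
  have b17 := hb.b17
  have b19 := hb.b19
  have b20 := hb.b20
  have b21 := hb.b21
  have b29 := hb.b29
  have b33 := hb.b33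
  have b35 := hb.b35
  have b39 := hb.b39
  have b40 := hb.b40
  have b41 := hb.b41
  have b43 := hb.b43
  obtain ⟨g1, g2, g3, g4⟩ := h
  have k1 : i + 4*a + 4*b + 2*m + 3 ≤ 4*N + Q + 4*c + 2*d + 2*V := by clear * - b4 g1 g4; omega
  have k2 : i + 2*a + 2*b + l + 2*m + 4 ≤ 4*N + Q + 2*c + 2*d + 2*V := by clear * - b7 b17 b29 b33 g1 g4; omega
  have k3 : i + 2*l + 2*m + 2*U + 5 ≤ 2*N + Q + 2*V := by clear * - b17 b19; omega
  have k4 : 3*a + 3*b + m + 2 ≤ 3*N + 2*c + d + V := by clear * - b20 b21 b35 b39 b40 b41 b43 g1 g2; omega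
  clear * - X g1 g2 g3 g4 b8 k1 k2 k3 k4
  exact X.al.ubQ (-4*N + 6*a + 6*b + 2*m - 4*c - 2*d - 2*V + 2) (by omega) (by omega) fun t h1 h2 => (fin X.al.per 0 _ (pf X.f2 X.al.per 0 (-4*N + 6*a + 6*b + 2*m - 4*c - 2*d - 2*V + t + 2) (pr X.c2 X.al.per 0 (6*a + 6*b - 2*c + t) (pf X.bb X.al.per 0 (4*a + 4*b + t) (pf X.bb X.al.per 0 (2*a + 2*b + t) (rfl : W (t) = W (t)) (by omega)) (by omega)) (by omega)) (by omega)) (by omega))

theorem T0_374 (X : C W N Q i a b l m c d L U V Y) (hb : B N Q i a b l m c d L U V Y)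
    (h : i + 2*b + 1 ≤ Q ∧ 4*N + Q + 2*c + 2*d + 2*V ≤ 2*b + l + 2*m + L + 5 ∧ 2*N + Q + 2*V ≤ i + 2*a + 2*b + 2*l + 2*m + 2*U + 4 ∧ l + m + U + 3 ≤ N + V) :
    False := by
  have b18 := hb.b18
  have b38 := hb.b38
  have b40 := hb.b40
  have b41 := hb.b41
  have b42 := hb.b42
  have b43 := hb.b43
  obtain ⟨g1, g2, g3, g4⟩ := h
  have k1 : 2*N + 2*b + 2*V ≤ Q + 2*l + 2*m + 2*U + 4 := by clear * - b18 g1; omega
  have k2 : V ≤ l + m + U + 1 := by clear * - b38 b40 b41 b42 b43 g1 g2; omega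
  clear * - X g1 g2 g3 g4 k1 k2
  exact X.al.ubQ (2*N - 2*l - 2*m - 2*U + 2*V - 4) (by omega) (by omega) fun t h1 h2 => (fin X.al.per 0 _ (pf X.a1 X.al.per 0 (2*N - 2*l - 2*m - 2*U + 2*V + t - 4) (pr X.g2 X.al.per 0 (2*N - 2*b - 2*l - 2*m - 2*U + 2*V + t - 4) (pr X.a1 X.al.per 0 (-2*b + t) (rfl : W (t) = W (t)) (by omega)) (by omega)) (by omega)) (by omega))

theorem T0_375 (X : C W N Q i a b l m c d L U V Y) (hb : B N Q i a b l m c d L U V Y)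
    (h : m + 2*c + 2*Y + 1 ≤ 0 ∧ 0 ≤ m + 2*c + 2*Y + 1 ∧ 2*N ≤ l + 2*m + 2*Y + 2 ∧ m + 1 ≤ 2*N + l + 4*c + 2*d + 2*Y ∧ i + l + m + 2*d + 3 ≤ Q ∧ Q + 2*a + 2*b + 2*m + 2*Y + 2 ≤ 2*N) :
    False := by
  have b1 := hb.b1
  have b4 := hb.b4
  have b7 := hb.b7
  have b8 := hb.b8
  have b11 := hb.b11
  have b33 := hb.b33
  have b38 := hb.b38
  have b39 := hb.b39
  have b41 := hb.b41
  have b43 := hb.b43
  obtain ⟨g1, g2, g3, g4, g5, g6⟩ := h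
  have k1 : i + 1 ≤ 2*N + 2*c + 2*d + 2*Y := by clear * - b11 g4; omega
  have k2 : 2*N ≤ 2*a + 2*b + 3*m + 4*Y + 2 := by clear * - b4 b7 g2 g3; omega
  have k3 : i + l + 1 ≤ 2*N + 2*a + 2*b + m + 2*c + 2*d + 4*Y := by clear * - b4 b7 b11 g2 g4; omega
  have k4 : 1 ≤ N + a + b + 2*c + d + 2*Y := by clear * - b4 b7 g2 g4; omega
  have k5 : N ≤ 2*m + 2*Y + 1 := by clear * - b33 b41 b43 g3; omega
  have k6 : i + l ≤ 2*N + 2*m + 2*c + 2*d + 4*Y := by clear * - b11 b38 b41 g2 g4; omega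
  have k7 : 0 ≤ 2*N + m + 4*c + 2*d + 4*Y := by clear * - b33 b41 b43 g3 g4; omega
  have k8 : Q + 2*a + 2*b ≤ i + l + 1 := by clear * - b1 g3 g6; omega
  have k9 : c + Y + 1 ≤ 0 := by clear * - b39 b41 b43 g1 g3; omega
  clear * - X g1 g2 g3 g4 g5 g6 k1 k2 k3 k4 k5 k6 k7 b8 k8 k9
  exact X.al.ubQ (-2*c - 2*Y) (by omega) (by omega) fun t h1 h2 => by (try simp only [max_le_iff, lt_min_iff] at h1 h2); exact (lt_or_ge t (min (2*N + i + l - m + 4*c + 2*d + 2*Y) (min (2*N + 2*c + 2*d + 2*Y) (-2*N + i + l + 2*m + 2*Y + 3)))).elim (fun u0 => by (try simp only [lt_min_iff] at u0); exact (fin X.al.per 0 _ (pr X.d1 X.al.per 0 (-2*c - 2*Y + t) (pr X.d2 X.al.per 0 (-2*c - 2*d - 2*Y + t) (pr X.g0 X.al.per (-1) (2*N - 2*m - 2*Y + t - 2) (rfl : W (t) = W (t)) (by omega)) (by omega)) (by omega)) (by omega))) (fun u0 => (fin X.al.per 0 _ (pf X.c2 X.al.per 0 (2*m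 + 2*c + 2*Y + t + 2) (pf X.g0 X.al.per 0 (2*a + 2*b + 2*m + 2*Y + t + 2) (pf X.bb X.al.per 0 (2*a + 2*b + t) (rfl : W (t) = W (t)) (by omega)) (by omega)) (by omega)) (by omega)))

theorem T0_376 (X : C W N Q i a b l m c d L U V Y) (hb : B N Q i a b l m c d L U V Y)
    (h : 2*a + 2*b ≤ l ∧ a + b + c + 1 ≤ 0 ∧ i + l + 2 ≤ 2*N + 2*c ∧ 2*N + Q + 2*c ≤ i + 2*b + l + 1 ∧ 2*N + 2*c ≤ 2*b + m + 2*Y ∧ m + Y + 1 ≤ N + a + c ∧ N + a + c ≤ m + Y + 1) :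
    False := by
  have b2 := hb.b2
  have b11 := hb.b11
  have b17 := hb.b17
  have b18 := hb.b18
  have b33 := hb.b33
  have b39 := hb.b39
  have b41 := hb.b41
  have b42 := hb.b42
  obtain ⟨g1, g2, g3, g4, g5, g6, g7⟩ := h
  have k1 : 1 ≤ a + b := by clear * - b11 b17 b18 b39 b41 b42 g3 g5 g6; omega
  have k2 : l + 2 ≤ 2*N + 2*a + 2*c := by clear * - b2 b17 b18 b33 b41 g3 g6; omega
  clear * - X g1 g2 g3 g4 g5 g6 g7 k1 k2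
  exact X.n2.yz (fin X.al.per 0 _ (pf X.g0 X.al.per 0 (-2*N + i + 2*b + l + 2*m - 2*c + 2*Y + 3) (pf X.a2 X.al.per 1 (-2*N + i + 2*b + l - 2*c + 1) (pr X.c2 X.al.per 0 (i + l - 2*c + 1) (pr X.bb X.al.per 0 (i - 2*a - 2*b + l + 1) (rfl : W (i + l + 1) = W (i + l + 1)) (by omega)) (by omega)) (by omega)) (by omega)) (by omega)).symm

theorem T0_377 (X : C W N Q i a b l m c d L U V Y) (hb : B N Q i a b l m c d L U V Y)
    (h : 2*a + 2*b ≤ l + m + c + U + 1 ∧ 2*N + 2*c ≤ i + 4*a + 4*b ∧ Q + l + m ≤ 2*a + 2*b + L) :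
    False := by
  have b7 := hb.b7
  have b32 := hb.b32
  have b40 := hb.b40
  have b41 := hb.b41
  have b42 := hb.b42
  have b43 := hb.b43
  obtain ⟨g1, g2, g3⟩ := h
  have k1 : i + 3*l + 2*m + 2*c + 2*U + 6 ≤ 2*N + 2*a + 2*b := by clear * - b7 b41 b42 g3; omega
  have k2 : Q + 2*l + 2*m + 2*U + 4 ≤ 2*N + 2*a + 2*b := by clear * - b41 b42 g3; omega
  have k3 : l + m + c + U + 3 ≤ N + 2*a + 2*b := by clear * - b32 b40 b41 b42 b43 g2 g3; omega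
  clear * - X g1 g2 g3 k1 k2 k3
  exact X.al.ubP (-4*a - 4*b + 2*l + 2*m + 2*c + 2*U + 4) (by omega) (by omega) fun t h1 h2 => (fin X.al.per 0 _ (pf X.g4 X.al.per 0 (-4*a - 4*b + 2*l + 2*m + 2*c + 2*U + t + 4) (pr X.a2 X.al.per 0 (2*N - 2*a - 4*b + 2*c + t) (pf X.c2 X.al.per (-1) (2*N - 2*a - 2*b + 2*c + t) (rfl : W (t) = W (t)) (by omega)) (by omega)) (by omega)) (by omega))

theorem T0_378 (X : C W N Q i a b l m c d L U V Y) (hb : B N Q i a b l m c d L U V Y)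
    (h : 2*N + i + 2*a + 2*b + l + 2*c + 2*d ≤ Q + 4*m + 2*Y + 2 ∧ 2*m + Y + 3 ≤ N + a + b + d ∧ Q + 2*a + 2*b ≤ i + 2*l + 2*m + 2*c + 2*U + 4 ∧ i + l + 1 ≤ Q + m + 2*Y ∧ 2*N + Q + 2*a + 2*b + 2*d ≤ i + l + 4*m + 2*Y + 5) :
    False := by
  have b17 := hb.b17
  have b18 := hb.b18
  have b21 := hb.b21
  have b39 := hb.b39
  have b41 := hb.b41
  have b42 := hb.b42
  have b43 := hb.b43
  obtain ⟨g1, g2, g3, g4, g5⟩ := h
  have k1 : 2*N + i + l + 2*c + 2*d ≤ Q + 3*m + 2*Y + 1 := by clear * - b17 b18 b21 g4; omega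
  have k2 : a + b + d ≤ 2*m + Y + 1 := by clear * - b39 b41 b42 b43 g2 g4 g5; omega
  clear * - X g1 g2 g3 g4 g5 k1 k2
  exact X.al.ubQ (2*N + 2*a + 2*b - 4*m + 2*d - 2*Y - 4) (by omega) (by omega) fun t h1 h2 => (fin X.al.per 0 _ (pr X.g0 X.al.per 0 (2*N + 2*a + 2*b - 4*m + 2*d - 2*Y + t - 4) (pf X.f3 X.al.per 0 (2*N + 2*a + 2*b - 2*m + 2*d + t - 2) (pf X.c1 X.al.per 0 (2*a + 2*b - 2*c + t) (rfl : W (t) = W (t)) (by omega)) (by omega)) (by omega)) (by omega))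

theorem T0_379 (X : C W N Q i a b l m c d L U V Y) (hb : B N Q i a b l m c d L U V Y)
    (h : 2*N + 2*c + d ≤ 2*m + 2 ∧ 2*m + 2 ≤ 2*N + 2*c + d ∧ i + 2*a + m + 1 ≤ Q + l + 2*c ∧ 3*l + m + 2*c + 2*U + 5 ≤ 2*N + 2*a + 2*V ∧ 2*N + i + 2*a + 2*d + 2*V ≤ l + m + 1 ∧ 6*N + 2*c + 4*d + 2*V ≤ 2*b + 2*l + 3*m + 4 ∧ 2*N + d + V ≤ b + l + m + 2 ∧ b + l + m + 2 ≤ 2*N + d + V) :
    False := by
  have b1 := hb.b1
  have b2 := hb.b2
  have b11 := hb.b11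
  have b17 := hb.b17
  have b18 := hb.b18
  have b33 := hb.b33
  have b39 := hb.b39
  have b44 := hb.b44
  have b45 := hb.b45
  obtain ⟨g1, g2, g3, g4, g5, g6, g7, g8⟩ := h
  have k1 : m + 2 ≤ N + c := by clear * - b17 b33 b45 g2 g4 g6; omega
  have k2 : l + 2*c + 1 ≤ m := by clear * - b1 b11; omega
  have k3 : l + m + 3 ≤ 2*N + a + d + V := by clear * - b11 b17 b18 g2 g4; omega
  have k4 : 2*b + l + 3*m + 5 ≤ 6*N + 2*c + 4*d + 2*V := by clear * - b2 b39 b44 g8; omega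
  clear * - X g1 g2 g3 g4 g5 g6 g7 g8 k1 b11 k2 k3 k4
  exact X.n3.tor ⟨(fin X.al.per 0 _ (pf X.d2 X.al.per 0 (4*N + i + l - 3*m + 4*c + 2*d - 2) (rfl : W (2*N + i + l - m + 2*c) = W (2*N + i + l - m + 2*c)) (by omega)) (by omega)), (fin X.al.per 0 _ (pr X.bb X.al.per 0 (6*N + i - 2*b - l - 3*m + 2*c + 4*d + 2*V - 4) (pf X.d2 X.al.per 0 (6*N + i + 2*a - l - 3*m + 2*c + 4*d + 2*V - 4) (pf X.f1 X.al.per 0 (4*N + i + 2*a - l - m + 2*d + 2*V - 2) (ar X.s2 X.al.per 1 (i + 2*a - l + m - 2*c) (rfl : W (2*N + i + l - m + 2*c) = W (2*N + i + l - m + 2*c)) (by omega)) (by omega)) (by omega)) (by omega)) (by omega))⟩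

theorem T0_380 (X : C W N Q i a b l m c d L U V Y) (hb : B N Q i a b l m c d L U V Y)
    (h : i + 2*a + 2*b ≤ Q + 2*m + 2*c + 2*Y + 1 ∧ Q + 4*a + 4*b ≤ 2*N + 2*c ∧ i + l + 1 ≤ Q + 2*a + 2*b + m + 2*Y ∧ Q + 4*a + 4*b ≤ i + l + 2*m + 2*c + 2*Y + 3 ∧ m + c + Y + 2 ≤ a + b) :
    False := by
  have b4 := hb.b4
  have b11 := hb.b11
  have b17 := hb.b17
  have b18 := hb.b18
  have b33 := hb.b33
  have b39 := hb.b39
  have b41 := hb.b41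
  have b42 := hb.b42
  have b43 := hb.b43
  obtain ⟨g1, g2, g3, g4, g5⟩ := h
  have k1 : i + l ≤ Q + 2*m + 2*Y := by clear * - b11 b17 b18 b33 b41 g1 g3 g5; omega
  have k2 : Q + 2*a + 2*b ≤ i + l + 2*m + 2*c + 2*Y + 3 := by clear * - b4 g1 g4 g5; omega
  have k3 : a + b ≤ N + m + c + Y := by clear * - b39 b41 b42 b43 g3 g4 g5; omega
  clear * - X g1 g2 g3 g4 g5 k1 k2 k3
  exact X.al.ubQ (2*a + 2*b - 2*m - 2*c - 2*Y - 2) (by omega) (by omega) fun t h1 h2 => (fin X.al.per 0 _ (pr X.bb X.al.per 0 (2*a + 2*b - 2*m - 2*c - 2*Y + t - 2) (pr X.g0 X.al.per 0 (4*a + 4*b - 2*m - 2*c - 2*Y + t - 2) (pr X.c2 X.al.per 0 (4*a + 4*b - 2*c + t) (pf X.bb X.al.per 0 (2*a + 2*b + t) (rfl : W (t) = W (t)) (by omega)) (by omega)) (by omega)) (by omega)) (by omega))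

theorem T0_381 (X : C W N Q i a b l m c d L U V Y) (hb : B N Q i a b l m c d L U V Y)
    (h : b + l + 2 ≤ N ∧ i + 2*a ≤ l + 2*c ∧ 2*N ≤ i + 2*b + 2*l + 2) :
    False := by
  have b2 := hb.b2
  have b7 := hb.b7
  have b8 := hb.b8
  have b11 := hb.b11
  have b22 := hb.b22
  have b35 := hb.b35
  have b40 := hb.b40
  have b42 := hb.b42
  obtain ⟨g1, g2, g3⟩ := h
  have k1 : i + 2*a ≤ l := by clear * - b7 b8 g2; omega
  have k2 : 2*N + 2*c ≤ i + 2*a + 2*b + l + m + 2 := by clear * - b2 b11 g1 g3; omega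
  have k3 : 0 ≤ b + l := by clear * - b22 b35 b40 b42; omega
  clear * - X g1 g2 g3 k1 k2 k3
  exact X.al.ubP (2*N - 2*b - 2*l - 2) (by omega) (by omega) fun t h1 h2 => (fin X.al.per 0 _ (ar' X.s1 X.al.per 0 (2*N - 2*b - 2*l + t - 2) (ar X.S2 X.al.per 0 (-2*N + 2*i + 2*a + 2*b + 2*l - t + 2) (pf X.c2 X.al.per (-1) (2*N - 2*a - 2*b + 2*c + t) (rfl : W (t) = W (t)) (by omega)) (by omega)) (by omega)) (by omega))

theorem T0_382 (X : C W N Q i a b l m c d L U V Y) (hb : B N Q i a b l m c d L U V Y)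
    (h : Q + m ≤ i + 2*b + l + 2*c ∧ 2*N + i + 2*b + l + 4*c + 2*d + 2*V ≤ 3*m + 1 ∧ N + 2*c + V ≤ a + m + 1 ∧ a + m + 1 ≤ N + 2*c + V) :
    False := by
  have b2 := hb.b2
  have b7 := hb.b7
  have b14 := hb.b14
  have b17 := hb.b17
  have b19 := hb.b19
  have b33 := hb.b33
  have b41 := hb.b41
  have b43 := hb.b43
  obtain ⟨g1, g2, g3, g4⟩ := h
  have k1 : l + 2*c + 1 ≤ 2*a + m := by clear * - b2 b17 b33 b41 b43 g3; omega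
  have k2 : l + 3*m + 2*U + 5 ≤ 2*N + 2*b + 2*c + 2*V := by clear * - b17 b19 g1; omega
  have k3 : 2*a + 3*m + 4 ≤ 4*N + 4*c + 2*d + 2*V := by clear * - b7 b14 g4; omega
  clear * - X g1 g2 g3 g4 k1 k2 k3
  exact X.n3.yz (fin X.al.per 0 _ (pf X.c2 X.al.per 0 (4*N + i - 2*a + l - 3*m + 6*c + 2*d + 2*V - 2) (pr X.f2 X.al.per 0 (4*N + i + 2*b + l - 3*m + 4*c + 2*d + 2*V - 2) (pf X.a2 X.al.per 1 (i + 2*b + l - m + 2*c) (rfl : W (2*N + i + l - m + 2*c) = W (2*N + i + l - m + 2*c)) (by omega)) (by omega)) (by omega)) (by omega)).symm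

theorem T0_383 (X : C W N Q i a b l m c d L U V Y) (hb : B N Q i a b l m c d L U V Y)
    (h : m + 2 ≤ 2*a + 2*b ∧ i + l + m + 3 ≤ 2*N + 2*c ∧ 2*m + 2 ≤ 2*N + l + 2*c + 2*d ∧ i + 2*a + 2*b + 2*m + 3 ≤ 4*N + 4*c + 2*d ∧ m + 2 ≤ N + d ∧ i + 2*a + 2*b + l + 2*m + 4 ≤ 4*N + 2*c + 2*d ∧ 2*N + 2*c + 2*d + L ≤ l + 2*m + 1 ∧ i + 2*a + 2*b + 2*d + L ≤ 2*m ∧ 2*N + 4*c + 2*d + L ≤ 2*m ∧ i + 2*a + 2*b + l + 2*c + 2*d + L + 1 ≤ 2*m) :
    False := by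
  have b36 := hb.b36
  have b41 := hb.b41
  have b43 := hb.b43
  obtain ⟨g1, g2, g3, g4, g5, g6, g7, g8, g9, g10⟩ := h
  have k1 : d ≤ m := by clear * - b36 b41 b43 g2 g5 g7 g9; omega
  clear * - X g1 g2 g3 g4 g5 g6 g7 g8 g9 g10 k1
  exact absurd (X.lam.mx (max (i + l + m + 2*c + 3) (max (i + 2*a + 2*b + l + 2*c + 2) (i + 2*a + 2*b + 1))) (min (2*m - 2*d + 2) (min (-2*N + i + 2*a + 2*b + l + 2*m - 2*c - 2*d + 3) (2*N))) (2*N - 2*m + 2*d - 2) (by omega) (by omega) fun t h1 h2 => by (try simp only [max_le_iff, lt_min_iff] at h1 h2); exact (lt_or_ge t (min (2*N + 2*c) (i + 2*a + 2*b + l + 1))).elim (fun u0 => by (try simp only [lt_min_iff] at u0); exact (fin X.al.per 0 _ (pf X.d2 X.al.per 0 (2*N - 2*m + 2*d + t - 2) (pr X.c2 X.al.per 0 (-2*c + t) (pr X.bb X.al.per 0 (-2*a - 2*b + t) (rfl : W (t) = W (t)) (by omega)) (by omega)) (by omega)) (by omega)))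 (fun u0 => (fin X.al.per 0 _ (pr X.c2 X.al.per 0 (2*N - 2*m + 2*d + t - 2) (pr X.bb X.al.per 0 (2*N - 2*a - 2*b - 2*m + 2*c + 2*d + t - 2) (pf X.d2 X.al.per 0 (2*N - 2*m + 2*c + 2*d + t - 2) (rfl : W (t) = W (t)) (by omega)) (by omega)) (by omega)) (by omega)))) (by omega)

theorem T0_384 (X : C W N Q i a b l m c d L U V Y) (hb : B N Q i a b l m c d L U V Y)
    (h : 2*N + 2*c + 2*d ≤ m ∧ Q + m + 2*Y ≤ i + l + 1 ∧ 2*N + 2*c ≤ 3*m + 2*Y + 3 ∧ 3*m + 2*Y + 3 ≤ 2*N + 2*c ∧ 2*a + 2*b + m + 2 ≤ 2*N + 2*c ∧ 0 ≤ 2*a + 2*b + m + 2*d + 2*Y + 1) :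
    False := by
  have b42 := hb.b42
  have b43 := hb.b43
  obtain ⟨g1, g2, g3, g4, g5, g6⟩ := h
  have k1 : m ≤ 2*N + l + 2*c + 2*d := by clear * - b42 g5 g6; omega
  have k2 : 0 ≤ 2*N + l + 2*c + 2*d + 2*U := by clear * - b43 g5 g6; omega
  clear * - X g1 g2 g3 g4 g5 g6 k1 k2
  obtain ⟨φ, H, T, ht, h0⟩ := exH X.al (i + l + 1)
  obtain ⟨Dbb, hbb⟩ := ht.par X.bb (by omega)
  obtain ⟨Dd1, hd1⟩ := ht.par X.d1 (by omega)
  obtain ⟨Df3, hf3⟩ := ht.par X.f3 (by omega)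
  obtain ⟨Dg0, hg0⟩ := ht.par X.g0 (by omega)
  have e1 := hbb 0 0 (i + l + 1) (i + 2*a + 2*b + l + 1) (by omega)
  have e2 := hf3 0 0 (i + l + m + 3) (2*N + i + l - m + 2*c + 2*d + 1) (by omega)
  have e3 := hbb 0 0 (2*N + i + l - m + 2*c + 2*d + 1) (2*N + i + 2*a + 2*b + l - m + 2*c + 2*d + 1) (by omega)
  have e4 := hd1 0 0 (i + l - m - 2*Y + 1) (-2*N + i + l + 2*m - 2*c - 2*d + 4) (by omega)
  have e5 := hg0 0 0 (i + l - m - 2*Y + 1) (i + l + m + 3) (by omega)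
  have e6 := hf3 0 0 (-2*N + i + l + 2*m - 2*c - 2*d + 4) (i + l + 2) (by omega)
  have e7 := hd1 0 0 (i + 2*a + 2*b + l + 2*d + 2) (i + 2*a + 2*b + l + 2) (by omega)
  have e8 := hg0 0 0 (i + 2*a + 2*b + l + 2*d + 2) (2*N + i + 2*a + 2*b + l - m + 2*c + 2*d + 1) (by omega)
  have e9 := ht.lt (i + l + 1) 0 0 (i + l + 1) (i + l + 2) (by omega)
  have e10 := ht.lt (i + 2*a + 2*b + l + 1) 0 0 (i + 2*a + 2*b + l + 1) (i + 2*a + 2*b + l + 2) (by omega)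
  have t1 := ht.tri X.n2
  omega

theorem T0_385 (X : C W N Q i a b l m c d L U V Y) (hb : B N Q i a b l m c d L U V Y)
    (h : Q + 2*m + 1 ≤ 2*N + i + 2*b + l + 4*c + 2*d + 2*V ∧ 2*N + l + 4*c + 2*d + 2*V ≤ 2*a + 2*m ∧ 2*b + 2*c + 2*V ≤ m ∧ N + 2*c + V ≤ a + m + 1 ∧ a + m + 1 ≤ N + 2*c + V) :
    False := by
  have b2 := hb.b2
  have b7 := hb.b7
  have b17 := hb.b17
  have b39 := hb.b39
  have b41 := hb.b41
  have b42 := hb.b42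
  obtain ⟨g1, g2, g3, g4, g5⟩ := h
  have k1 : l + 2*m + 2*U + 4 ≤ 2*N + 2*c + 2*V := by clear * - b2 b17 b39 b41 b42 g5; omega
  clear * - X g1 g2 g3 g4 g5 k1 b7
  exact X.n2.xz (fin X.al.per 0 _ (pf X.d1 X.al.per 0 (2*N + i + 2*b + l - 2*m + 4*c + 2*V - 1) (pf X.a2 X.al.per 1 (2*N + i + 2*b + l - 2*m + 4*c + 2*d + 2*V - 1) (pf X.f1 X.al.per 0 (4*N + i + l - 2*m + 4*c + 2*d + 2*V - 1) (rfl : W (i + l + 2*c + 1) = W (i + l + 2*c + 1)) (by omega)) (by omega)) (by omega)) (by omega)).symm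

theorem T0_386 (X : C W N Q i a b l m c d L U V Y) (hb : B N Q i a b l m c d L U V Y)
    (h : a + m + Y + 1 ≤ N + l + c + d + U ∧ i + 3*l + m + 2*U + 5 ≤ 2*N + 2*a + 2*Y ∧ l + m ≤ 2*a + L ∧ 4*N + 2*c + 2*d ≤ i + 2*a + 4*m + 2*Y + 4) :
    False := by
  have b3 := hb.b3
  have b8 := hb.b8
  have b21 := hb.b21
  have b31 := hb.b31
  have b40 := hb.b40
  have b41 := hb.b41
  have b42 := hb.b42
  have b43 := hb.b43
  obtain ⟨g1, g2, g3, g4⟩ := h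
  have k1 : i + 3*l + 2*c + 2*d + 2*U + 3 ≤ 2*a + m + 2*Y := by clear * - b21 g1 g2 g4; omega
  have k2 : 4*N + 2*c + 2*d ≤ i + l + 4*m + 2*Y + 5 := by clear * - b3 b8 g4; omega
  have k3 : l + c + d + U + 1 ≤ a + m + Y := by clear * - b31 b40 b41 b42 b43 g3 g4; omega
  clear * - X g1 g2 g3 g4 k1 k2 k3
  exact X.al.ubP (2*N - 2*a + 2*l - 2*m + 2*c + 2*d + 2*U - 2*Y) (by omega) (by omega) fun t h1 h2 => (fin X.al.per 0 _ (pf X.g3 X.al.per 0 (2*N - 2*a + 2*l - 2*m + 2*c + 2*d + 2*U - 2*Y + t) (pr X.g0 X.al.per 0 (4*N - 4*m + 2*c + 2*d - 2*Y + t - 4) (pf X.d2 X.al.per (-1) (4*N - 2*m + 2*c + 2*d + t - 2) (rfl : W (t) = W (t)) (by omega)) (by omega)) (by omega)) (by omega))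

theorem T0_387 (X : C W N Q i a b l m c d L U V Y) (hb : B N Q i a b l m c d L U V Y)
    (h : 2*m + 2 ≤ 2*N + 2*c + d ∧ 2*N + 2*c + d ≤ 2*m + 2 ∧ i + 2*a + 2*b + l + 2*d + 1 ≤ m ∧ Q + 2*a + 2*b ≤ 2*m + 2 ∧ 3*m + L + 5 ≤ 4*N + 2*c + 2*d ∧ 4*m + L + 6 ≤ 4*N + 2*a + 2*b + 2*c + 2*d) :
    False := by
  have b7 := hb.b7
  have b11 := hb.b11
  have b36 := hb.b36
  have b38 := hb.b38
  have b39 := hb.b39
  have b40 := hb.b40
  have b41 := hb.b41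
  have b42 := hb.b42
  have b43 := hb.b43
  obtain ⟨g1, g2, g3, g4, g5, g6⟩ := h
  have k1 : i + 2*a + 2*b + l + 2*c ≤ 2*m := by clear * - b7 g4; omega
  have k2 : m + 2 ≤ N + a + b + d := by clear * - b11 b38 b39 g2 g6; omega
  have k3 : a + b + d ≤ m := by clear * - b36 b40 b41 b42 b43 g3; omega
  have k4 : i + l + 3*m + L + 6 ≤ 4*N + 2*a + 2*b + 2*d := by clear * - b11 g6; omega
  clear * - X g1 g2 g3 g4 g5 g6 k1 k2 k3 k4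
  exact absurd (X.lam.mx (max (i - 2*a - 2*b + l + m + 2*c + 3) (i + l + 2*c + 2)) (min (4*N - 2*a - 2*b - 2*m + 4*c - 2) (min (4*N + i + l - 3*m + 4*c + 2*d - 2) (4*N - 2*m + 2*c + 2*d - 2))) (2*N + 2*a + 2*b - 2*m + 2*d - 2) (by omega) (by omega) fun t h1 h2 => by (try simp only [max_le_iff, lt_min_iff] at h1 h2); exact (lt_or_ge t (2*N - 2*a - 2*b + 2*c)).elim (fun u0 => by (try simp only [lt_min_iff] at u0); exact (fin X.al.per 0 _ (pf X.d2 X.al.per 0 (2*N + 2*a + 2*b - 2*m + 2*d + t - 2) (pr X.c2 X.al.per 0 (2*a + 2*b - 2*c + t) (rfl : W (t) = W (t)) (by omega)) (by omega)) (by omega))) (fun u0 => (fin X.al.per 0 _ (pr X.c2 X.al.per 0 (-2*N + 2*a + 2*b + 2*m - 4*c + t + 2) (pr X.d1 X.al.per 0 (-2*N + 2*m - 2*c + t + 2) (pr X.d2 X.al.per 0 (-2*N + 2*m - 2*c - 2*d + t + 2) (rfl : W (t) = W (t)) (by omega)) (by omega)) (by omega)) (by omega))))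 (by omega)

theorem T0_388 (X : C W N Q i a b l m c d L U V Y) (hb : B N Q i a b l m c d L U V Y)
    (h : 2*N + i + l + 4*c + 2*d + 1 ≤ 2*a + 4*b + m ∧ a + 2*b + m + 2 ≤ 2*N + 2*c + d ∧ i + l + 2*c + 2 ≤ 2*b ∧ 4*N + 4*c + 2*d ≤ i + 4*a + 4*b + 2*m + 2) :
    False := by
  have b17 := hb.b17
  have b18 := hb.b18
  have b21 := hb.b21
  have b36 := hb.b36
  have b40 := hb.b40
  have b41 := hb.b41
  have b42 := hb.b42
  have b43 := hb.b43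
  obtain ⟨g1, g2, g3, g4⟩ := h
  have k1 : N + c + d ≤ m + 1 := by clear * - b17 b18 b21; omega
  have k2 : N + 2*c + d ≤ a + 2*b + m := by clear * - b36 b40 b41 b42 b43 g1; omega
  clear * - X g1 g2 g3 g4 k1 k2
  exact X.al.ubP (4*N - 2*a - 4*b - 2*m + 4*c + 2*d - 2) (by omega) (by omega) fun t h1 h2 => (fin X.al.per 0 _ (pr X.a1 X.al.per 0 (4*N - 2*a - 4*b - 2*m + 4*c + 2*d + t - 2) (pf X.c2 X.al.per 0 (4*N - 2*a - 2*b - 2*m + 4*c + 2*d + t - 2) (pf X.d2 X.al.per (-1) (4*N - 2*m + 2*c + 2*d + t - 2) (rfl : W (t) = W (t)) (by omega)) (by omega)) (by omega)) (by omega))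

theorem T0_389 (X : C W N Q i a b l m c d L U V Y) (hb : B N Q i a b l m c d L U V Y)
    (h : m + 1 ≤ 2*N + 2*c + d + V ∧ 2*N + 2*c + d + V ≤ m + 1 ∧ 2*N + i + 2*a + 2*b + 2*c + 2*d + 2*V ≤ 2*m + 1 ∧ l + 2*m + L + 2*U + 5 ≤ 2*N + 2*a + 2*b + 2*V) :
    False := by
  have b2 := hb.b2
  have b3 := hb.b3
  have b4 := hb.b4
  have b17 := hb.b17
  have b25 := hb.b25
  have b29 := hb.b29
  have b39 := hb.b39
  have b40 := hb.b40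
  have b43 := hb.b43
  obtain ⟨g1, g2, g3, g4⟩ := h
  have k1 : a + b + m + 2 ≤ 3*N + 2*c + d + V := by clear * - b25 b39 b40 b43 g1; omega
  have k2 : 2*N + 2*c + d + V ≤ a + b + m := by clear * - b2 b3 b4 g2; omega
  have k3 : 2*m + L + 4 ≤ 4*N + 2*c + 2*d + 2*V := by clear * - b17 b29; omega
  clear * - X g1 g2 g3 g4 k1 k2 k3
  exact absurd (X.lam.mx (max (-4*N + i + 2*a + 2*b + l + 2*m - 2*c - 2*d - 2*V + 4) (-2*N + i + 2*l + 2*m + 2*U - 2*V + 5)) (i + 2*a + 2*b + l + 1) (6*N - 2*a - 2*b - 2*m + 4*c + 2*d + 2*V - 2) (by omega) (by omega) fun t h1 h2 => by (try simp only [max_le_iff, lt_min_iff] at h1 h2); exact (lt_or_ge t (-2*N + 2*m - 2*c - 2*d - 2*V + 2)).elim (fun u0 => by (try simp only [lt_min_iff] at u0); exact (fin X.al.per 1 _ (pf X.c2 X.al.per 0 (4*N - 2*a - 2*b - 2*m + 4*c + 2*d + 2*V + t - 2) (pr X.f2 X.al.per 0 (4*N - 2*m + 2*c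 + 2*d + 2*V + t - 2) (rfl : W (t) = W (t)) (by omega)) (by omega)) (by omega))) (fun u0 => (fin X.al.per 1 _ (pr X.bb X.al.per 0 (-2*a - 2*b + t) (rfl : W (t) = W (t)) (by omega)) (by omega)))) (by omega)

theorem T0_390 (X : C W N Q i a b l m c d L U V Y) (hb : B N Q i a b l m c d L U V Y)
    (h : l + m + d + 2*U + 2 ≤ V ∧ V ≤ l + m + d + 2*U + 2 ∧ l + 2*m + 2*U + 4 ≤ 2*N + 2*c ∧ 2*N + Q + 2*V ≤ i + 3*l + 3*m + 4*U + 6) :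
    False := by
  have b11 := hb.b11
  have b17 := hb.b17
  obtain ⟨g1, g2, g3, g4⟩ := h
  have k1 : l + 2*m + 2*U + 4 ≤ 2*N + 2*c + 2*V := by clear * - b17 g3; omega
  clear * - X g1 g2 g3 g4 k1 b11
  exact X.al.auU (2*i + 2*l + 2*c + 2) fun t h1 h2 => (lt_or_ge t (i + l + 2*c + 1)).elim (fun u0 => (fin X.al.per 0 _ (af X.S2 X.al.per 0 (2*i + 2*l + 2*c - t + 2) (rfl : W (t) = W (t)) (by omega)) (by omega))) (fun u0 => (fin X.al.per 0 _ (pf X.f3 X.al.per (-1) (2*i + 4*l + 2*m + 2*c + 2*d + 4*U - 2*V - t + 6) (af X.t2 X.al.per 0 (-4*N + 2*i + 4*l + 4*m + 4*U - 2*V - t + 8) (rfl : W (t) = W (t)) (by omega)) (by omega)) (by omega)))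

theorem T0_391 (X : C W N Q i a b l m c d L U V Y) (hb : B N Q i a b l m c d L U V Y)
    (h : 2*N + i + 2*c + 2*d + 2*V ≤ Q + 2*m + 2*U + 1 ∧ l + 2*m + 2*U + 4 ≤ 2*N + c + d + V ∧ 4*N + Q + 2*c + 2*V ≤ i + 3*l + 5*m + 4*U + 8 ∧ i + l + 2*d + 2 ≤ Q ∧ 2*N + Q + 2*V ≤ i + 3*l + 3*m + 4*U + 6) :
    False := by
  have b21 := hb.b21
  have b36 := hb.b36
  have b40 := hb.b40
  have b41 := hb.b41
  have b42 := hb.b42
  have b43 := hb.b43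
  obtain ⟨g1, g2, g3, g4, g5⟩ := h
  have k1 : N + c + d + V ≤ l + 2*m + 2*U + 2 := by clear * - b21 b36 b40 b41 b42 b43 g1 g5; omega
  clear * - X g1 g2 g3 g4 g5 k1
  exact X.al.ubQ (4*N - 2*l - 4*m + 2*c + 2*d - 4*U + 2*V - 6) (by omega) (by omega) fun t h1 h2 => (fin X.al.per 0 _ (pr X.d1 X.al.per 0 (4*N - 2*l - 4*m + 2*c + 2*d - 4*U + 2*V + t - 6) (af' X.S2 X.al.per 0 (4*N - 2*l - 4*m + 2*c - 4*U + 2*V + t - 6) (af X.t2 X.al.per 0 (-4*N + 2*i + 4*l + 4*m + 4*U - 2*V - t + 8) (rfl : W (t) = W (t)) (by omega)) (by omega)) (by omega)) (by omega))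

theorem T0_392 (X : C W N Q i a b l m c d L U V Y) (hb : B N Q i a b l m c d L U V Y)
    (h : i + 2*a + 2*b + 2*d + 1 ≤ Q + 2*c ∧ Q + 4*a + 4*b + m ≤ 2*N + i + l + 4*c ∧ Q + 2*a + 2*b + 2*d ≤ i + l + 2*c + 1 ∧ c + 1 ≤ a + b + d) :
    False := by
  have b4 := hb.b4
  have b7 := hb.b7
  have b11 := hb.b11
  have b39 := hb.b39
  have b40 := hb.b40
  have b41 := hb.b41
  have b43 := hb.b43
  obtain ⟨g1, g2, g3, g4⟩ := h
  have k1 : i + l + 2*d + 2 ≤ Q := by clear * - b4 b7 g1; omega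
  have k2 : Q + 4*a + 4*b ≤ 2*N + 2*c := by clear * - b11 g2; omega
  have k3 : 0 ≤ a + b := by clear * - b4 g1 g4; omega
  have k4 : a + b + d + 1 ≤ N + c := by clear * - b39 b40 b41 b43 g1 g3 g4; omega
  clear * - X g1 g2 g3 g4 k1 k2 k3 k4
  exact X.al.ubQ (2*a + 2*b - 2*c + 2*d) (by omega) (by omega) fun t h1 h2 => (fin X.al.per 0 _ (pr X.bb X.al.per 0 (2*a + 2*b - 2*c + 2*d + t) (pr X.d1 X.al.per 0 (4*a + 4*b - 2*c + 2*d + t) (pr X.c2 X.al.per 0 (4*a + 4*b - 2*c + t) (pf X.bb X.al.per 0 (2*a + 2*b + t) (rfl : W (t) = W (t)) (by omega)) (by omega)) (by omega)) (by omega)) (by omega))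

end Pool.Agent.MP_a38735_al.WL.E342
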