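import Pool.Agent.MP_a38735_al.E342t0
import Pool.Agent.MP_a38735_al.E342t1
import Pool.Agent.MP_a38735_al.E342t2
import Pool.Agent.MP_a38735_al.E342t3

set_option autoImplicit false
set_option linter.unusedVariables false
set_option linter.unusedSimpArgs false

namespace Pool.Agent.MP_a38735_al.WL.E342

variable {G : Type*} [Group G]

variable {W : ℤ → G} {N Q i a b l m c d L U V Y : ℤ}

theorem M5 (X : C W N Q i a b l m c d L U V Y) (hb : B N Q i a b l m c d L U V Y)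
    (h1 : (-N + m - c) < 0)
    (h3 : (N + c + d - 1) < 0)
    (h4 : (i + a - b) < 0)
    (h5 : (-2*N + 2*m - 2*c - d + 1) < 0)
    (h6 : (N + a - l - m - U - V - 3) < 0)
    (h7 : (-2*N + i + a + 2*m - c - d + Y + 2) < 0)
    (h8 : (-2*N - i + 2*a + 2*b - l + m - 2*c - 2*d - 2*V - 1) < 0)
    (h9 : (-Q + i + l - m - 2*Y + 1) ≥ 0)
    (h344 : (-2*N + 3*m - 2*c + 2*Y + 2) < 0)
    (h345 : (3*N + Q - i - 2*l - 3*m + c + d - 2*U + 2*V - 6) < 0)
    (h346 : (N - a - l - m - U + V - 3) < 0)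
    (h347 : (-N + a + b - c - d - Y - 1) < 0) : False := by
  have b2 := hb.b2
  have b7 := hb.b7
  have b11 := hb.b11
  have b17 := hb.b17
  have b18 := hb.b18
  have b19 := hb.b19
  have b21 := hb.b21
  have b33 := hb.b33
  have b35 := hb.b35
  have b36 := hb.b36
  have b38 := hb.b38
  have b39 := hb.b39
  have b40 := hb.b40
  have b41 := hb.b41
  have b42 := hb.b42
  have b43 := hb.b43
  have b45 := hb.b45
  rcases lt_or_ge (-i - 2*a + l + 2*c) 0 with h348 | h348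
  · rcases lt_or_ge (N + 2*a + b - l - m - 3) 0 with h349 | h349
    · rcases lt_or_ge (4*a + 4*b - m - 2*c - L - 3) 0 with h350 | h350
      · rcases lt_or_ge (-a - b + m + c + Y + 1) 0 with h351 | h351
        · rcases lt_or_ge (2*N - i - 2*a - 2*b + 2*c - L - 2) 0 with h352 | h352
          · rcases lt_or_ge (Q - i - 2*a - 2*b + 2*m + 2*c + 2*Y + 1) 0 with h353 | h353
            · exact T0_158 X hb ⟨by have := kA 1 h353 (kA 1 h352 (kA 1 h350 (kA 3 h346 (kA 1 h344 (kA 1 h6 (kA 1 h4 (kC 2 b41 (kC 2 b17 k0)))))))); clear * - this; omega, by have := kA 2 h351 (kA 1 h350 (kA 1 h348 (kA 2 h346 (kA 1 h4 (kC 1 b41 (kC 2 b17 k0)))))); clear * - this; omega, by have := kA 1 h353 (kA 1 h352 (kA 1 h350 (kA 4 h346 (kA 2 h344 (kA 4 h6 (kA 1 h4 (kC 3 b41 (kC 1 b39 k0)))))))); clear * - this; omega, by have := kA 2 h351 (kA 1 h350 (kA 1 h348 (kA 3 h346 (kA 1 h344 (kA 3 h6 (kA 1 h4 (kC 2 b41 (kC 1 b39 k0))))))));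 clear * - this; omega⟩
            exact T0_380 X hb ⟨by clear * - h353; omega, by have := kA 1 h350 (kA 1 h348 (kA 4 h346 (kA 1 h344 (kB 1 h9 (kA 2 h7 (kA 4 h6 (kA 2 h3 (kC 3 b41 (kC 1 b39 (kC 1 b33 k0)))))))))); clear * - this; omega, by have := kB 1 h353 (kA 1 h352 (kA 1 h348 (kA 2 h346 (kA 1 h344 (kA 2 h4 (kC 1 b41 (kC 2 b17 k0))))))); clear * - this; omega, by have := kA 2 h350 (kA 2 h348 (kA 6 h346 (kA 1 h345 (kA 1 h344 (kB 1 h9 (kA 2 h7 (kA 8 h6 (kA 2 h5 (kA 3 h3 (kC 5 b41 (kC 3 b39 k0))))))))))); clear * - this; omega, by clear * - h351; omega⟩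
          exact T0_162 X hb ⟨by have := kB 14 h352 (kA 26 h351 (kA 14 h350 (kA 2 h349 (kA 15 h348 (kA 6 h347 (kA 14 h4 (kA 6 h3 (kC 10 b40 k0)))))))); clear * - this; omega, by have := kA 2 h351 (kA 1 h350 (kA 1 h348 (kA 3 h346 (kA 1 h344 (kA 3 h6 (kA 1 h4 (kA 1 h3 (kC 2 b41 (kC 1 b39 k0))))))))); clear * - this; omega, by have := kB 5 h352 (kA 4 h351 (kA 2 h350 (kA 8 h348 (kA 4 h347 (kA 3 h346 (kA 3 h6 (kA 8 h4 (kA 4 h3 (kA 6 h1 (kC 3 b39 k0)))))))))); clear * - this; omega, by have := kA 2 h351 (kA 1 h350 (kA 2 h348 (kA 5 h346 (kA 2 h344 (kA 5 h6 (kA 2 h4 (kA 2 h3 (kC 3 b41 (kC 2 b39 k0))))))))); clear * - this; omega, by have := kA 1 h351 (kA 1 h348 (kA 1 h347 (kA 2 h346 (kA 1 h344 (kA 2 h6 (kA 1 h4 (kC 1 b41 (kC 1 b39 k0)))))))); clear * - this; omega, by clear * - h352; omega, by have := kA 1 h348 (kA 2 h346 (kA 1 h344 (kA 2 h4 (kC 1 b41 (kC 2 b17 k0))))); clear * - this; omega⟩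
        rcases lt_or_ge (a + b - m - c - Y - 1) 0 with h354 | h354
        · rcases lt_or_ge (Q - i + 2*a + 2*b - 2*m - 2*c - 2*Y - 3) 0 with h355 | h355
          · exact T0_107 X hb ⟨by have := kA 1 h355 (kA 1 h349 (kA 1 h348 (kA 1 h344 (kA 2 h4 (kC 1 b7 (kC 3 b2 k0)))))); clear * - this; omega, by have := kA 2 h348 (kA 2 h346 (kA 2 h6 (kA 2 h4 (kC 1 b42 (kC 1 b41 (kC 1 b39 k0)))))); clear * - this; omega⟩
          exact T0_124 X hb ⟨by clear * - h355; omega, by have := kA 1 h348 (kA 2 h346 (kA 1 h344 (kA 2 h4 (kC 1 b41 (kC 1 b35 (kC 2 b17 (kC 1 b7 k0))))))); clear * - this; omega, by have := kA 2 h354 (kA 1 h349 (kA 1 h348 (kA 1 h347 (kB 2 h9 (kA 1 h7 (kA 2 h3 (kC 1 b40 k0))))))); clear * - this; omega, by have := kB 1 h355 (kA 6 h354 (kA 3 h348 (kA 2 h346 (kA 1 h344 (kB 2 h9 (kA 2 h7 (kA 2 h6 (kA 2 h4 (kA 2 h3 (kC 1 b41 (kC 1 b39 k0))))))))))); clear * - this; omega, by clear * - h354; omega⟩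
        exact T0_259 X hb ⟨by clear * - h354; omega, by clear * - h351; omega, by clear * - h9; omega, by have := kA 1 h348 (kA 1 h347 (kA 2 h346 (kA 1 h344 (kA 2 h6 (kA 1 h4 (kC 1 b41 (kC 1 b39 k0))))))); clear * - this; omega, by have := kB 2 h354 (kA 1 h350 (kA 2 h348 (kA 5 h346 (kA 3 h344 (kA 5 h6 (kA 2 h4 (kA 2 h3 (kC 3 b41 (kC 2 b39 k0))))))))); clear * - this; omega⟩
      exact T0_81 X hb ⟨by have := kA 4 h349 (kA 1 h348 (kA 5 h346 (kA 2 h344 (kA 2 h7 (kA 1 h6 (kA 2 h3 (kC 3 b41 (kC 3 b33 (kC 4 b17 k0))))))))); clear * - this; omega, by have := kB 1 h350 (kA 10 h349 (kA 2 h348 (kA 10 h346 (kA 5 h344 (kA 2 h4 (kA 4 h3 (kC 5 b41 (kC 6 b33 (kC 10 b17 k0))))))))); clear * - this; omega, by have := kA 2 h349 (kA 1 h348 (kA 2 h347 (kA 3 h346 (kA 3 h344 (kA 3 h6 (kA 2 h3 (kC 2 b41 (kC 1 b39 (kC 1 b33 (kC 2 b11 k0)))))))))); clear * - this; omega, by have := kA 2 h349 (kA 1 h348 (kA 2 h346 (kA 1 h344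 (kA 1 h4 (kA 1 h3 (kC 1 b41 (kC 1 b33 (kC 2 b17 k0)))))))); clear * - this; omega, by have := kA 2 h349 (kA 1 h348 (kA 3 h346 (kA 1 h344 (kA 2 h7 (kA 1 h6 (kA 2 h3 (kC 2 b41 (kC 2 b33 (kC 2 b17 k0))))))))); clear * - this; omega, by have := kA 1 h346 (kA 1 h6 (kA 2 h3 (kC 1 b43 (kC 1 b41 (kC 1 b39 k0))))); clear * - this; omega, by have := kA 1 h349 (kA 1 h348 (kA 1 h5 (kA 1 h4 (kC 1 b2 k0)))); clear * - this; omega, by have := kB 1 h350 (kA 2 h349 (kA 2 h348 (kA 2 h346 (kA 1 h344 (kA 2 h4 (kC 1 b41 (kC 2 b17 k0))))))); clear * - this; omega, by have := kA 1 h346 (kA 1 h344 (kA 1 h6 (kC 1 b41 (kC 1 b11 k0)))); clear * - this; omega, by clear * - h350; omega, by have := kA 1 h348 (kA 2 h346 (kA 1 h344 (kA 2 h4 (kC 1 b41 (kC 2 b17 k0))))); clear * - this; omega, by clear * - b42 h347 h350; omega, by have := kA 1 h348 (kA 3 h346 (kA 1 h344 (kA 2 h7 (kA 3 h6 (kC 2 b41 (kC 1 b39 k0)))))); clear * - this;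 omega⟩
    rcases lt_or_ge (-N - b + 2*m - 2*c + 1) 0 with h356 | h356
    · rcases lt_or_ge (-2*N + i + 2*a + b + m - 2*c - d + 1) 0 with h357 | h357
      · rcases lt_or_ge (N - a - b + c + d + Y - 1) 0 with h358 | h358
        · rcases lt_or_ge (2*N - a - b - 2*m + c + d + V - Y - 3) 0 with h359 | h359
          · exact T0_317 X hb ⟨by have := kA 2 h359 (kA 2 h357 (kA 1 h348 (kA 1 h8 (kA 2 h3 (kC 1 b42 k0))))); clear * - this; omega, by have := kA 2 h358 (kA 2 h357 (kA 1 h348 (kA 1 h346 (kA 1 h8 (kA 1 h6 (kA 2 h3 (kC 1 b41 (kC 1 b39 k0)))))))); clear * - this; omega, by have := kA 2 h359 (kA 2 h358 (kA 2 h357 (kA 1 h348 k0))); clear * - this; omega, by have := kA 2 h359 (kA 1 h358 (kA 2 h357 (kB 1 h349 (kA 1 h348 (kA 2 h8 (kA 1 h7 (kA 2 h3 k0))))))); clear * - this; omega, by clear * - h358 h359; omega, by have := kA 4 h347 (kA 1 h344 (kB 1 h9 (kC 2 b17 (kC 1 b7 k0)))); clear * - this; omega⟩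
          rcases lt_or_ge (-2*N + Q - i + 2*a + 2*b - 2*l + 2*m - 2*c - 2*d - 2*U + 2*Y - 1) 0 with h360 | h360
          · rcases lt_or_ge (-N + m - 2*c) 0 with h361 | h361
            · rcases lt_or_ge (-N + m - 2*c + 1) 0 with h362 | h362
              · rcases lt_or_ge (2*N - i - 4*a - 4*b - l + 2*m - L + 2*Y - 1) 0 with h363 | h363
                · exact T0_58 X hb ⟨by clear * - b40 h344; omega, by have := kA 1 h363 (kA 2 h357 (kA 1 h348 (kA 2 h347 (kA 1 h346 (kB 1 h9 (kA 1 h6 (kC 1 b41 k0))))))); clear * - this; omega, by have := kA 1 h363 (kA 2 h357 (kA 1 h348 (kA 2 h347 (kA 1 h346 (kA 1 h6 (kC 1 b41 k0)))))); clear * - this; omega, by have := kA 2 h358 (kA 1 h346 (kA 1 h6 (kA 2 h3 (kC 1 b43 (kC 1 b41 (kC 1 b39 k0)))))); clear * - this; omega, by clear * - h358; omega, by clear * - h347; omega⟩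
                exact T0_224 X hb ⟨by clear * - h347; omega, by clear * - h358; omega, by have := kA 1 h358 (kA 1 h356 (kA 1 h348 (kA 2 h346 (kA 1 h7 (kA 2 h6 (kC 1 b41 (kC 1 b39 k0))))))); clear * - this; omega, by clear * - b11 h362; omega, by have := kA 2 h360 (kA 4 h358 (kA 1 h356 (kB 1 h349 (kA 4 h346 (kA 4 h6 (kC 3 b41 (kC 3 b39 (kC 2 b7 k0)))))))); clear * - this; omega, by clear * - h348 h357 h358; omega, by have := kB 2 h359 (kA 4 h346 (kA 4 h6 (kA 2 h3 (kC 1 b45 (kC 3 b41 (kC 2 b39 k0)))))); clear * - this; omega, by have := kB 1 h363 (kA 2 h346 (kA 1 h344 (kA 2 h6 (kC 1 b41 (kC 1 b39 k0))))); clear * - this; omega, by have := kA 1 h348 (kA 4 h347 (kA 3 h346 (kA 1 h345 (kB 2 h9 (kA 5 h6 (kA 3 h3 (kC 2 b41 (kC 3 b19 (kC 1 b11 k0))))))))); clear * - this; omega, by clear * - h363; omega⟩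
              exact T0_207 X hb ⟨by have := kA 2 h346 (kA 1 h344 (kA 2 h6 (kC 1 b41 (kC 1 b39 k0)))); clear * - this; omega, by have := kB 2 h362 (kA 1 h360 (kA 2 h347 (kC 1 b19 k0))); clear * - this; omega, by clear * - b40 h358 h361; omega, by clear * - h362; omega, by clear * - h361; omega⟩
            rcases lt_or_ge (N - i - l - 2) 0 with h364 | h364
            · rcases lt_or_ge (2*N - m + 2*c + 2*d + Y - 2) 0 with h365 | h365
              · rcases lt_or_ge (-2*a - 2*b + m + Y) 0 with h366 | h366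
                · exact T0_9 X hb ⟨by clear * - b40 h3 h365; omega, by clear * - h347 h366; omega, by clear * - h347 h365; omega⟩
                exact T0_151 X hb ⟨by have := kA 2 h346 (kA 1 h344 (kA 2 h6 (kC 1 b41 (kC 1 b39 k0)))); clear * - this; omega, by have := kB 1 h366 (kA 1 h365 (kA 2 h357 (kA 1 h348 k0))); clear * - this; omega, by clear * - h366; omega, by have := kA 2 h364 (kB 2 h361 (kA 6 h358 (kA 2 h357 (kA 1 h356 (kB 3 h349 (kA 2 h346 (kA 2 h6 (kC 1 b41 (kC 1 b39 k0))))))))); clear * - this; omega, by clear * - h347; omega, by clear * - h358; omega⟩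
              exact T0_58 X hb ⟨by clear * - b40 h344; omega, by clear * - h9 h365; omega, by clear * - h365; omega, by have := kA 2 h358 (kA 1 h346 (kA 1 h6 (kA 2 h3 (kC 1 b43 (kC 1 b41 (kC 1 b39 k0)))))); clear * - this; omega, by clear * - h358; omega, by clear * - h347; omega⟩
            exact T0_72 X hb ⟨by have := kB 1 h364 (kA 2 h357 (kA 3 h348 (kA 8 h346 (kA 5 h344 (kA 12 h6 (kA 2 h3 (kC 2 b45 (kC 5 b41 (kC 7 b39 k0))))))))); clear * - this; omega, by have := kB 3 h361 (kA 1 h356 (kB 1 h349 (kA 2 h346 (kA 1 h344 (kA 2 h6 (kC 1 b41 (kC 1 b39 k0))))))); clear * - this; omega, by clear * - h361; omega, by have := kB 1 h364 (kA 2 h357 (kA 3 h348 (kA 2 h346 (kA 2 h344 (kA 6 h6 (kA 2 h3 (kC 2 b45 (kC 2 b41 (kC 4 b39 k0))))))))); clear * - this; omega, by clear * - h364; omega⟩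
          exact T0_47 X hb ⟨by clear * - h360; omega, by clear * - h359; omega, by have := kB 2 h360 (kA 2 h348 (kA 4 h347 (kA 2 h346 (kA 2 h344 (kB 1 h9 (kA 2 h6 (kA 2 h4 k0))))))); clear * - this; omega, by have := kB 1 h360 (kA 2 h347 (kA 1 h345 (kB 1 h9 (kA 1 h3 k0)))); clear * - this; omega⟩
        exact T0_17 X hb ⟨by have := kA 2 h357 (kA 1 h348 (kA 1 h346 (kA 1 h6 (kA 2 h3 (kC 1 b43 (kC 1 b41 (kC 1 b39 k0))))))); clear * - this; omega, by have := kA 1 h346 (kA 1 h6 (kA 2 h3 (kC 1 b43 (kC 1 b41 (kC 1 b39 k0))))); clear * - this; omega, by clear * - h358; omega, by have := kA 2 h356 (kA 2 h348 (kA 5 h346 (kA 3 h6 (kA 2 h4 (kC 1 b42 (kC 3 b41 (kC 1 b39 (kC 2 b17 k0)))))))); clear * - this; omega, by have := kA 1 h348 (kA 2 h346 (kA 1 h344 (kA 2 h4 (kC 1 b41 (kC 2 b17 k0))))); clear * - this; omega⟩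
      exact T0_83 X hb ⟨by clear * - h357; omega, by have := kA 2 h347 (kA 2 h344 (kA 2 h6 (kC 1 b41 (kC 1 b39 (kC 1 b18 (kC 1 b11 k0)))))); clear * - this; omega, by have := kB 1 h357 (kA 2 h347 (kA 1 h344 (kC 1 b11 k0))); clear * - this; omega, by have := kA 2 h347 (kA 2 h346 (kA 2 h344 (kA 4 h6 (kC 1 b41 (kC 1 b39 (kC 1 b18 (kC 1 b11 k0))))))); clear * - this; omega⟩
    rcases lt_or_ge (-N - Q + i + b + l + m + 2) 0 with h367 | h367
    · exact T0_100 X hb ⟨by have := kA 2 h367 (kA 2 h345 (kA 2 h6 (kA 2 h4 (kA 2 h3 (kC 1 b42 (kC 1 b41 (kC 3 b39 k0))))))); clear * - this; omega, by have := kA 1 h367 (kB 1 h349 (kB 1 h9 (kA 2 h6 (kC 1 b41 (kC 1 b39 k0))))); clear * - this; omega⟩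
    rcases lt_or_ge (N + b - m + 2*c - 2) 0 with h368 | h368
    · rcases lt_or_ge (-N + 2*a + 2*b - 2*c - 1) 0 with h369 | h369
      · rcases lt_or_ge (-4*N - Q + l + 2*m - 2*c - 2*d + L - 2*V + 5) 0 with h370 | h370
        · exact T0_107 X hb ⟨by have := kA 1 h369 (kA 1 h368 (kB 1 h349 (kA 1 h4 k0))); clear * - this; omega, by have := kA 1 h370 (kB 1 h367 (kB 1 h356 (kA 1 h348 (kA 2 h346 (kA 2 h4 (kA 2 h3 (kC 1 b39 k0))))))); clear * - this; omega⟩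
        exact T0_35 X hb ⟨by clear * - h370; omega, by have := kA 1 h368 (kB 1 h349 (kA 1 h344 (kA 2 h6 (kC 1 b41 (kC 1 b39 k0))))); clear * - this; omega⟩
      exact T0_72 X hb ⟨by have := kB 1 h369 (kA 2 h368 (kA 8 h347 (kA 16 h346 (kA 8 h344 (kA 18 h6 (kA 8 h3 (kC 1 b45 (kC 9 b43 (kC 13 b41 (kC 14 b39 k0)))))))))); clear * - this; omega, by clear * - h369; omega, by have := kA 2 h368 (kA 1 h348 (kA 1 h346 (kA 1 h344 (kA 1 h6 (kA 2 h4 (kC 1 b41 (kC 1 b36 k0))))))); clear * - this; omega, by have := kB 1 h356 (kB 1 h349 (kA 2 h347 (kA 1 h344 (kA 2 h6 (kA 2 h3 (kC 1 b45 (kC 1 b43 (kC 1 b41 (kC 2 b39 k0))))))))); clear * - this; omega, by have := kA 3 h368 (kB 1 h349 (kA 4 h346 (kA 3 h344 (kA 4 h6 (kA 2 h4 (kC 3 b41 (kC 1 b39 (kC 2 b33 k0)))))))); clear * - this; omega⟩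
    exact T0_313 X hb ⟨by clear * - h367; omega, by clear * - h349; omega, by clear * - h5 h356; omega, by clear * - h3 h356 h368; omega, by clear * - h356; omega, by clear * - h368; omega⟩
  rcases lt_or_ge (a - l + m - c - V + Y) 0 with h371 | h371
  · rcases lt_or_ge (N + Q - i + a + b - 2*l - 2*m - d - 2*U + V - 5) 0 with h372 | h372
    · rcases lt_or_ge (N - a - b + c + d + Y - 1) 0 with h373 | h373
      · rcases lt_or_ge (-2*N + Q - i + 2*a + 2*b - 2*l + 2*m - 2*c - 2*d - 2*U + 2*Y - 1) 0 with h374 | h374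
        · rcases lt_or_ge (-N - a - b + m - c - d) 0 with h375 | h375
          · rcases lt_or_ge (-3*N + 3*m - 3*c - 2*d + 2) 0 with h376 | h376
            · exact T0_58 X hb ⟨by clear * - b40 h344; omega, by have := kA 2 h375 (kA 1 h374 (kA 1 h346 (kA 1 h6 (kC 1 b41 (kC 1 b39 k0))))); clear * - this; omega, by have := kA 2 h376 (kA 1 h346 (kA 1 h6 (kC 1 b41 (kC 1 b36 (kC 1 b11 k0))))); clear * - this; omega, by have := kA 2 h373 (kA 1 h346 (kA 1 h6 (kA 2 h3 (kC 1 b43 (kC 1 b41 (kC 1 b39 k0)))))); clear * - this; omega, by clear * - h373; omega, by clear * - h347; omega⟩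
            exact T0_14 X hb ⟨by clear * - h376; omega, by have := kB 1 h376 (kA 2 h375 (kA 2 h347 (kA 1 h344 k0))); clear * - this; omega, by clear * - h5 h376; omega, by have := kA 2 h375 (kA 1 h374 (kA 2 h346 (kA 2 h6 (kC 1 b41 (kC 1 b33 (kC 1 b7 k0)))))); clear * - this; omega⟩
          rcases lt_or_ge (4*a + 4*b - m - 2*c - L - 3) 0 with h377 | h377
          · rcases lt_or_ge (2*N - 3*a - 2*b - m + 2*c + d - 2) 0 with h378 | h378
            · exact T0_35 X hb ⟨by have := kA 2 h378 (kA 1 h377 (kA 1 h374 (kA 2 h346 (kA 1 h345 (kA 2 h4 (kA 3 h3 (kC 1 b41 (kC 2 b39 k0)))))))); clear * - this; omega, by have := kA 2 h378 (kA 1 h377 (kA 1 h374 (kA 2 h373 (kA 2 h6 (kA 2 h5 (kC 2 b41 (kC 1 b39 (kC 1 b7 k0)))))))); clear * - this; omega⟩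
            exact T0_156 X hb ⟨by clear * - h378; omega, by have := kA 2 h373 (kB 1 h348 (kA 1 h346 (kA 1 h6 (kC 1 b41 (kC 1 b35 (kC 2 b7 k0)))))); clear * - this; omega, by have := kA 3 h373 (kA 1 h372 (kA 2 h346 (kA 1 h7 (kA 2 h3 (kC 2 b41 (kC 1 b38 (kC 1 b33 (kC 1 b19 (kC 3 b17 k0))))))))); clear * - this; omega, by clear * - h6 h346 h378; omega⟩
          exact T0_81 X hb ⟨by have := kB 2 h375 (kA 1 h374 (kB 1 h348 (kA 2 h346 (kC 1 b41 (kC 1 b33 (kC 1 b19 (kC 2 b17 k0))))))); clear * - this; omega, by have := kB 2 h375 (kA 2 h346 (kA 1 h344 (kA 2 h6 (kC 1 b41 (kC 1 b39 k0))))); clear * - this; omega, by have := kB 2 h375 (kA 2 h347 (kA 1 h344 (kC 1 b11 k0))); clear * - this; omega, by clear * - h375; omega, by have := kB 2 h375 (kA 1 h374 (kA 3 h346 (kA 2 h7 (kA 1 h6 (kA 2 h3 (kC 2 b41 (kC 2 b33 (kC 1 b19 (kC 2 b17 k0))))))))); clear * - this; omega, by have := kB 2 h375 (kA 2 h373 (kA 2 h3 (kC 1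 b40 k0))); clear * - this; omega, by have := kB 1 h377 (kA 1 h374 (kA 2 h347 (kC 1 b39 (kC 1 b7 k0)))); clear * - this; omega, by have := kB 1 h377 (kA 1 h346 (kB 1 h9 (kA 1 h6 (kC 1 b41 (kC 1 b7 k0))))); clear * - this; omega, by have := kA 1 h346 (kA 1 h344 (kA 1 h6 (kC 1 b41 (kC 1 b11 k0)))); clear * - this; omega, by clear * - h377; omega, by have := kA 2 h373 (kA 1 h346 (kA 1 h6 (kA 2 h5 (kC 1 b41 (kC 1 b11 k0))))); clear * - this; omega, by clear * - b42 h347 h377; omega, by have := kB 2 h377 (kA 2 h371 (kA 6 h347 (kA 12 h346 (kA 1 h344 (kA 1 h8 (kA 10 h7 (kC 5 b43 (kC 9 b41 (kC 2 b39 (kC 8 b17 k0)))))))))); clear * - this; omega⟩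
        rcases lt_or_ge (2*N - a - b - 2*m + c + d + V - Y - 3) 0 with h379 | h379
        · exact T0_56 X hb ⟨by have := kA 2 h379 (kA 2 h347 (kA 1 h344 (kB 1 h9 (kA 2 h3 (kC 1 b39 (kC 2 b17 (kC 1 b11 k0))))))); clear * - this; omega, by have := kA 2 h379 (kA 1 h372 (kA 1 h371 (kA 1 h347 (kA 1 h346 (kA 1 h344 (kC 1 b7 k0)))))); clear * - this; omega⟩
        exact T0_47 X hb ⟨by clear * - h374; omega, by clear * - h379; omega, by have := kB 1 h374 (kA 2 h5 (kC 1 b18 (kC 2 b17 (kC 1 b11 k0)))); clear * - this; omega, by have := kB 1 h374 (kA 2 h347 (kA 1 h345 (kB 1 h9 (kA 1 h3 k0)))); clear * - this; omega⟩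
      rcases lt_or_ge (2*a + 2*b + m - L + 2*Y - 1) 0 with h380 | h380
      · rcases lt_or_ge (-N - a - b + l + m + 1) 0 with h381 | h381
        · rcases lt_or_ge (2*N - i - 2*a - 2*b + 2*c - L - 2) 0 with h382 | h382
          · rcases lt_or_ge (-2*N + i + 2*b + 2*l + 2) 0 with h383 | h383
            · exact T0_35 X hb ⟨by have := kA 1 h383 (kA 2 h382 (kA 1 h380 (kB 2 h348 (kA 3 h346 (kB 1 h9 (kA 1 h6 (kA 2 h3 (kC 2 b41 k0)))))))); clear * - this; omega, by have := kA 1 h383 (kA 1 h382 (kA 2 h371 (kC 1 b41 k0))); clear * - this; omega⟩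
            exact T0_381 X hb ⟨by have := kA 2 h381 (kA 2 h380 (kA 3 h346 (kA 1 h6 (kC 2 b41 (kC 2 b17 k0))))); clear * - this; omega, by clear * - h348; omega, by clear * - h383; omega⟩
          exact T0_162 X hb ⟨by have := kA 2 h381 (kA 3 h380 (kA 5 h346 (kA 1 h8 (kA 1 h6 (kA 2 h4 (kA 2 h3 (kC 3 b41 (kC 2 b17 k0)))))))); clear * - this; omega, by have := kA 1 h380 (kA 2 h346 (kA 2 h6 (kA 2 h3 (kC 1 b43 (kC 2 b41 (kC 1 b39 k0)))))); clear * - this; omega, by have := kA 2 h381 (kA 2 h380 (kA 4 h346 (kA 1 h8 (kA 2 h4 (kA 2 h3 (kC 2 b41 (kC 2 b17 k0))))))); clear * - this; omega, by have := kA 1 h346 (kA 1 h6 (kA 2 h3 (kC 1 b43 (kC 1 b41 (kC 1 b39 k0))))); clear * - this; omega, by have := kA 4 h381 (kB 2 h373 (kA 2 h371 (kA 5 h346 (kB 2 h9 (kA 3 h6 (kC 2 b41 (kC 2 b39 (kC 2 b7 k0)))))))); clear * - this; omega, by clear * - h382; omega, by have := kA 2 h381 (kA 2 h371 (kA 2 h346 (kC 1 b41 (kC 1 b11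 k0)))); clear * - this; omega⟩
        rcases lt_or_ge (N + a + b - m + 2*c - 2) 0 with h384 | h384
        · rcases lt_or_ge (N + a + b - m + 2*c - 1) 0 with h385 | h385
          · rcases lt_or_ge (-2*N + 3*m - 2*c + 2*Y + 3) 0 with h386 | h386
            · rcases lt_or_ge (2*N - i + 2*a + 2*b - l - m - L - 4) 0 with h387 | h387
              · exact T0_106 X hb (by have := kA 1 h387 (kA 1 h386 (kB 1 h348 (kA 2 h346 (kC 1 b41 (kC 2 b17 k0))))); clear * - this; omega)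
              exact T0_162 X hb ⟨by have := kB 2 h387 (kA 5 h380 (kB 2 h373 (kA 3 h346 (kA 3 h6 (kA 2 h3 (kC 3 b41 (kC 1 b40 k0))))))); clear * - this; omega, by have := kA 1 h380 (kA 2 h346 (kA 2 h6 (kA 2 h3 (kC 1 b43 (kC 2 b41 (kC 1 b39 k0)))))); clear * - this; omega, by have := kB 2 h387 (kA 3 h380 (kB 2 h373 (kA 1 h346 (kA 1 h6 (kA 2 h3 (kC 1 b41 (kC 1 b40 k0))))))); clear * - this; omega, by have := kA 1 h346 (kA 1 h6 (kA 2 h3 (kC 1 b43 (kC 1 b41 (kC 1 b39 k0))))); clear * - this; omega, by have := kB 1 h387 (kA 1 h385 (kA 1 h5 (kC 1 b36 k0))); clear * - this; omega, by have := kA 2 h386 (kA 2 h385 (kB 1 h348 (kA 3 h346 (kA 1 h6 (kC 2 b41 (kC 1 b33 (kC 2 b17 k0))))))); clear * - this; omega, by clear * - h387; omega⟩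
            exact T0_133 X hb ⟨by clear * - h9; omega, by clear * - h386; omega, by clear * - h344; omega, by have := kA 1 h346 (kA 1 h6 (kA 2 h3 (kC 1 b43 (kC 1 b41 (kC 1 b39 k0))))); clear * - this; omega, by clear * - h373; omega⟩
          exact T0_330 X hb ⟨by clear * - h385; omega, by clear * - h384; omega, by have := kA 1 h384 (kB 1 h381 (kB 2 h373 (kA 1 h344 k0))); clear * - this; omega, by clear * - h344 h373 h384; omega, by have := kA 6 h384 (kA 10 h346 (kA 6 h344 (kA 2 h6 (kA 4 h4 (kC 1 b43 (kC 7 b41 (kC 4 b35 (kC 8 b17 k0)))))))); clear * - this; omega, by have := kB 1 h385 (kB 1 h381 (kA 1 h380 (kA 4 h346 (kA 1 h344 (kA 2 h4 (kC 1 b43 (kC 3 b41 (kC 4 b17 k0)))))))); clear * - this; omega, by have := kA 8 h384 (kA 13 h346 (kA 9 h344 (kA 5 h6 (kA 4 h4 (kA 2 h3 (kC 9 b41 (kC 4 b35 (kC 4 b33 (kC 8 b17 k0))))))))); clear * - this; omega, by have := kB 4 h385 (kA 1 h380 (kA 4 h346 (kA 2 h4 (kA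 4 h3 (kC 3 b43 (kC 4 b41 (kC 1 b39 (kC 4 b17 k0)))))))); clear * - this; omega⟩
        exact T0_130 X hb ⟨by clear * - h381; omega, by have := kA 1 h372 (kA 1 h5 (kC 1 b19 (kC 1 b17 k0))); clear * - this; omega, by have := kB 1 h384 (kA 1 h346 (kA 1 h6 (kA 2 h3 (kC 1 b43 (kC 1 b41 (kC 1 b39 k0)))))); clear * - this; omega, by clear * - h384; omega⟩
      exact T0_279 X hb ⟨by have := kB 2 h373 (kA 1 h346 (kA 1 h344 (kA 1 h6 (kA 2 h3 (kC 1 b43 (kC 1 b41 (kC 1 b39 (kC 1 b11 k0)))))))); clear * - this; omega, by have := kA 1 h346 (kA 1 h6 (kA 2 h3 (kC 1 b43 (kC 1 b41 (kC 1 b39 k0))))); clear * - this; omega, by clear * - h373; omega, by clear * - h380; omega⟩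
    rcases lt_or_ge (3*N - a - b - l - 3*m + 2*c + d - 2*U + V - 5) 0 with h388 | h388
    · rcases lt_or_ge (2*N - a - b - 2*m + c + d + V - Y - 3) 0 with h389 | h389
      · exact T0_56 X hb ⟨by have := kA 2 h389 (kB 2 h372 (kA 4 h347 (kA 1 h346 (kB 3 h9 (kA 1 h6 (kA 2 h3 (kC 1 b33 (kC 1 b11 k0)))))))); clear * - this; omega, by have := kA 2 h389 (kA 1 h388 (kA 1 h371 (kA 3 h347 (kA 1 h346 (kA 1 h344 (kB 1 h9 (kC 1 b7 k0))))))); clear * - this; omega⟩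
      exact T0_47 X hb ⟨by have := kA 1 h388 (kB 1 h372 (kA 1 h346 (kA 1 h6 (kC 1 b41 (kC 1 b39 k0))))); clear * - this; omega, by clear * - h389; omega, by have := kB 2 h389 (kA 3 h388 (kB 1 h372 (kA 2 h346 (kA 2 h6 (kA 2 h5 (kC 2 b41 (kC 2 b39 k0))))))); clear * - this; omega, by have := kA 1 h346 (kA 1 h345 (kA 1 h6 (kA 1 h3 (kC 1 b41 (kC 1 b39 k0))))); clear * - this; omega⟩
    exact T0_326 X hb ⟨by have := kA 4 h371 (kA 4 h347 (kA 4 h346 (kA 1 h8 (kC 4 b18 (kC 5 b11 k0))))); clear * - this; omega, by clear * - h388; omega, by clear * - h372; omega⟩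
  rcases lt_or_ge (-a + l - m + c + V - Y) 0 with h390 | h390
  · rcases lt_or_ge (-N - b + 2*m - 2*c + 1) 0 with h391 | h391
    · rcases lt_or_ge (-2*N - i - 2*b - l + 3*m - 4*c - 2*d - 2*V + 1) 0 with h392 | h392
      · exact T0_295 X hb ⟨by have := kA 1 h392 (kA 4 h390 (kB 1 h348 (kA 2 h3 (kC 2 b42 (kC 2 b17 k0))))); clear * - this; omega, by have := kA 1 h392 (kA 2 h390 (kB 1 h348 (kB 1 h9 (kC 1 b7 (kC 2 b2 k0))))); clear * - this; omega, by have := kA 1 h392 (kA 4 h390 (kB 1 h348 (kA 2 h347 (kB 1 h9 (kA 2 h3 (kC 2 b42 (kC 2 b17 k0))))))); clear * - this; omega, by have := kA 1 h392 (kA 2 h390 (kB 1 h348 (kA 2 h347 (kB 2 h9 (kC 1 b7 (kC 2 b2 k0)))))); clear * - this; omega, by have := kA 2 h390 (kB 1 h348 (kA 1 h344 (kA 1 h8 (kA 2 h3 k0)))); clear * - this; omega, by have := kA 2 h346 (kB 1 h9 (kA 2 h6 (kA 2 h3 (kC 1 b43 (kC 2 b41 (kC 1 b39 k0)))))); clear * - this; omega, by have := kA 1 h346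 (kB 1 h9 (kA 1 h6 (kC 1 b41 k0))); clear * - this; omega, by have := kA 3 h346 (kA 1 h344 (kA 3 h6 (kA 4 h3 (kC 2 b43 (kC 3 b41 (kC 2 b39 k0)))))); clear * - this; omega, by have := kA 2 h346 (kA 1 h344 (kA 2 h6 (kA 2 h3 (kC 1 b43 (kC 2 b41 (kC 1 b39 k0)))))); clear * - this; omega⟩
      rcases lt_or_ge (N - a - m + 2*c + V - 1) 0 with h393 | h393
      · rcases lt_or_ge (-N + m - 2*c) 0 with h394 | h394
        · exact T0_226 X hb ⟨by have := kA 2 h393 (kB 1 h392 (kA 2 h391 (kA 1 h344 (kA 4 h6 (kC 1 b41 (kC 2 b39 k0)))))); clear * - this; omega, by clear * - h393 h394; omega, by have := kA 1 h344 (kA 2 h6 (kC 1 b41 (kC 1 b39 (kC 1 b7 k0)))); clear * - this; omega, by have := kA 2 h391 (kA 4 h390 (kB 1 h9 (kA 4 h6 (kC 1 b42 (kC 1 b39 k0))))); clear * - this; omega⟩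
        exact T0_72 X hb ⟨by have := kB 3 h394 (kB 1 h392 (kA 2 h391 (kA 2 h390 (kA 5 h346 (kA 4 h344 (kA 1 h8 (kA 7 h6 (kC 3 b41 (kC 3 b39 k0))))))))); clear * - this; omega, by have := kB 5 h394 (kA 2 h391 (kA 2 h390 (kA 4 h346 (kA 3 h344 (kA 4 h6 (kC 2 b41 (kC 2 b39 (kC 2 b17 k0)))))))); clear * - this; omega, by clear * - h394; omega, by have := kB 3 h394 (kB 1 h392 (kA 2 h391 (kA 2 h390 (kA 3 h346 (kA 3 h344 (kA 1 h8 (kA 5 h6 (kC 2 b41 (kC 2 b39 k0))))))))); clear * - this; omega, by have := kB 1 h394 (kA 2 h390 (kB 1 h348 (kA 1 h344 (kC 2 b17 k0)))); clear * - this; omega⟩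
      rcases lt_or_ge (-N + a + m - 2*c - V + 1) 0 with h395 | h395
      · exact T0_383 X hb ⟨by have := kA 2 h395 (kA 2 h391 (kA 2 h390 (kA 5 h346 (kB 3 h9 (kA 3 h6 (kC 2 b41 (kC 2 b39 (kC 2 b17 (kC 3 b7 k0))))))))); clear * - this; omega, by have := kA 2 h390 (kB 1 h348 (kA 1 h344 (kC 2 b17 k0))); clear * - this; omega, by have := kA 2 h346 (kB 1 h9 (kA 2 h6 (kA 2 h5 (kC 1 b41 (kC 1 b39 (kC 1 b7 k0)))))); clear * - this; omega, by have := kA 2 h390 (kB 1 h348 (kA 2 h347 (kA 1 h344 (kC 1 b42 (kC 2 b17 k0))))); clear * - this; omega, by have := kA 2 h395 (kA 2 h391 (kA 2 h390 (kA 2 h347 (kA 5 h346 (kB 4 h9 (kA 3 h6 (kC 2 b41 (kC 2 b39 (kC 2 b17 (kC 4 b7 k0)))))))))); clear * - this; omega, by clear * - b11 h344 h347; omega, by have := kA 2 h395 (kA 4 h390 (kA 3 h346 (kA 5 h6 (kA 4 h3 (kC 5 b42 (kC 3 b41 (kC 1 b39 k0))))))); clear * - this; omega, by have := kA 2 h395 (kB 1 h392 (kA 1 h346 (kA 1 h6 (kC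 1 b42 (kC 1 b41 k0))))); clear * - this; omega, by have := kA 2 h390 (kA 2 h6 (kA 2 h3 (kC 2 b42 (kC 1 b41 k0)))); clear * - this; omega, by have := kB 1 h392 (kA 1 h344 (kA 2 h6 (kC 1 b41 k0))); clear * - this; omega⟩
      exact T0_382 X hb ⟨by have := kB 2 h395 (kA 2 h391 (kA 2 h390 (kA 2 h346 (kA 2 h344 (kB 1 h9 (kA 6 h6 (kC 2 b41 (kC 2 b39 k0)))))))); clear * - this; omega, by clear * - h392; omega, by clear * - h395; omega, by clear * - h393; omega⟩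
    rcases lt_or_ge (N + 2*a + b - l - m - 3) 0 with h396 | h396
    · rcases lt_or_ge (-2*N + 3*m - 2*c + 2*Y + 3) 0 with h397 | h397
      · rcases lt_or_ge (2*N - i - 2*a - 2*b + 2*c - L - 2) 0 with h398 | h398
        · rcases lt_or_ge (-a) 0 with h399 | h399
          · exact T0_130 X hb ⟨by clear * - h396 h399; omega, by have := kA 3 h399 (kA 1 h398 (kA 2 h397 (kA 2 h396 (kA 2 h390 (kA 1 h347 (kA 1 h7 (kA 2 h6 (kC 1 b41 k0)))))))); clear * - this; omega, by have := kA 5 h399 (kA 2 h398 (kA 4 h397 (kA 2 h396 (kB 1 h391 (kA 4 h390 (kB 2 h348 (kA 4 h6 (kA 2 h3 (kC 2 b41 k0))))))))); clear * - this; omega, by have := kA 3 h399 (kA 1 h398 (kA 2 h397 (kA 1 h396 (kA 2 h390 (kB 1 h348 (kA 2 h6 (kC 1 b41 k0))))))); clear * - this; omega⟩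
          rcases lt_or_ge (N + 2*a + b - l - m - 2) 0 with h400 | h400
          · exact T0_130 X hb ⟨by clear * - b2 h400; omega, by clear * - h5 h391 h399; omega, by have := kA 1 h398 (kA 4 h397 (kA 2 h390 (kA 5 h346 (kA 7 h6 (kA 2 h3 (kC 3 b41 (kC 2 b39 (kC 1 b21 k0)))))))); clear * - this; omega, by have := kA 1 h400 (kB 1 h399 (kA 1 h398 (kA 2 h397 (kA 2 h390 (kB 1 h348 (kA 2 h346 (kC 1 b41 (kC 4 b17 k0)))))))); clear * - this; omega⟩
          exact T0_129 X hb ⟨by clear * - h399; omega, by have := kB 2 h399 (kA 1 h397 (kA 2 h346 (kA 2 h6 (kC 1 b41 (kC 1 b39 k0))))); clear * - this; omega, by have := kB 1 h400 (kB 4 h399 (kA 2 h397 (kB 1 h391 (kA 4 h346 (kA 4 h6 (kA 2 h3 (kC 2 b41 (kC 2 b39 k0)))))))); clear * - this; omega, by clear * - h5 h391 h400; omega, by clear * - h400; omega, by clear * - h396; omega⟩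
        rcases lt_or_ge (2*N - i + 2*a + 2*b - l - m - L - 4) 0 with h401 | h401
        · exact T0_106 X hb (by have := kA 1 h401 (kA 1 h397 (kB 1 h348 (kA 2 h346 (kC 1 b41 (kC 2 b17 k0))))); clear * - this; omega)
        exact T0_162 X hb ⟨by have := kB 1 h401 (kB 1 h398 (kA 7 h397 (kA 3 h396 (kB 4 h391 (kA 8 h390 (kA 5 h347 (kA 1 h7 (kA 8 h6 (kA 6 h3 (kC 1 b41 (kC 3 b39 k0))))))))))); clear * - this; omega, by have := kA 2 h397 (kA 1 h396 (kB 1 h391 (kA 2 h390 (kA 1 h346 (kA 3 h6 (kA 2 h3 (kC 1 b41 (kC 1 b39 k0)))))))); clear * - this; omega, by have := kB 1 h401 (kA 2 h397 (kA 1 h396 (kB 1 h391 (kA 2 h390 (kA 2 h347 (kA 2 h6 (kA 2 h3 (kC 1 b39 k0)))))))); clear * - this; omega, by have := kA 1 h346 (kA 1 h6 (kA 2 h3 (kC 1 b43 (kC 1 b41 (kC 1 b39 k0))))); clear * - this; omega, by have := kB 1 h401 (kA 2 h347 (kB 1 h9 (kC 1 b35 (kC 1 b7 k0)))); clear * - this; omega, by clear * - h398; omega, by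 clear * - h401; omega⟩
      exact T0_133 X hb ⟨by clear * - h9; omega, by clear * - h397; omega, by clear * - h344; omega, by have := kA 1 h346 (kA 1 h6 (kA 2 h3 (kC 1 b43 (kC 1 b41 (kC 1 b39 k0))))); clear * - this; omega, by have := kA 1 h396 (kA 1 h390 (kA 1 h5 (kC 1 b17 k0))); clear * - this; omega⟩
    exact T0_313 X hb ⟨by have := kA 2 h390 (kB 1 h348 (kB 2 h9 (kA 2 h6 (kC 1 b41 (kC 1 b35 k0))))); clear * - this; omega, by clear * - h396; omega, by clear * - h5 h391; omega, by have := kB 4 h396 (kB 3 h391 (kA 4 h390 (kB 2 h348 (kA 4 h346 (kA 8 h344 (kA 8 h6 (kA 4 h4 (kA 10 h3 (kC 6 b41 (kC 6 b36 k0)))))))))); clear * - this; omega, by clear * - h391; omega, by have := kA 2 h390 (kB 1 h348 (kA 2 h344 (kA 2 h6 (kC 1 b41 (kC 1 b35 k0))))); clear * - this; omega⟩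
  exact T0_348 X hb ⟨by clear * - h390; omega, by clear * - h371; omega, by clear * - h348; omega, by have := kA 1 h346 (kA 3 h6 (kA 2 h5 (kC 1 b42 (kC 1 b41 (kC 1 b39 k0))))); clear * - this; omega, by clear * - b17 h7 h371; omega, by have := kB 2 h371 (kA 2 h346 (kA 1 h345 (kA 1 h344 (kB 1 h9 (kA 3 h3 (kC 2 b43 (kC 3 b41 (kC 3 b39 (kC 6 b17 k0))))))))); clear * - this; omega, by have := kB 4 h371 (kA 3 h346 (kA 2 h344 (kB 1 h9 (kA 5 h6 (kA 2 h3 (kC 2 b41 (kC 2 b39 k0))))))); clear * - this; omega⟩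

theorem M6 (X : C W N Q i a b l m c d L U V Y) (hb : B N Q i a b l m c d L U V Y)
    (h1 : (-N + m - c) < 0)
    (h2 : (3*N + Q - i - 2*l - 3*m + c + d - 2*U + V - 6) < 0)
    (h3 : (N + c + d - 1) < 0)
    (h4 : (i + a - b) < 0)
    (h5 : (-2*N + 2*m - 2*c - d + 1) < 0)
    (h6 : (N + a - l - m - U - V - 3) < 0)
    (h7 : (-2*N + i + a + 2*m - c - d + Y + 2) < 0)
    (h8 : (-2*N - i + 2*a + 2*b - l + m - 2*c - 2*d - 2*V - 1) < 0)
    (h9 : (-Q + i + l - m - 2*Y + 1) ≥ 0)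
    (h344 : (-2*N + 3*m - 2*c + 2*Y + 2) < 0)
    (h345 : (3*N + Q - i - 2*l - 3*m + c + d - 2*U + 2*V - 6) < 0) : False := by
  have b2 := hb.b2
  have b7 := hb.b7
  have b11 := hb.b11
  have b14 := hb.b14
  have b17 := hb.b17
  have b18 := hb.b18
  have b19 := hb.b19
  have b21 := hb.b21
  have b29 := hb.b29
  have b32 := hb.b32
  have b33 := hb.b33
  have b34 := hb.b34
  have b36 := hb.b36
  have b38 := hb.b38
  have b39 := hb.b39
  have b40 := hb.b40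
  have b41 := hb.b41
  have b42 := hb.b42
  have b43 := hb.b43
  have b45 := hb.b45
  rcases lt_or_ge (N - a - l - m - U + V - 3) 0 with h346 | h346
  · rcases lt_or_ge (-N + a + b - c - d - Y - 1) 0 with h347 | h347
    · exact M5 X hb h1 h3 h4 h5 h6 h7 h8 h9 h344 h345 h346 h347
    rcases lt_or_ge (-2*a - 2*b + m + 2*Y) 0 with h402 | h402
    · rcases lt_or_ge (-N + a + b + m - c + 1) 0 with h403 | h403
      · rcases lt_or_ge (2*N - a - b - m + 2*c + d + V - 2) 0 with h404 | h404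
        · rcases lt_or_ge (2*N - a - b - m + 2*c + d + V - 1) 0 with h405 | h405
          · rcases lt_or_ge (-4*N + i + 4*a + 4*b + 2*m - 2*c - 2*d + 2) 0 with h406 | h406
            · rcases lt_or_ge (-N - i + a + b - l + m - 2*c - d - V - 1) 0 with h407 | h407
              · rcases lt_or_ge (2*N + i - 2*b + 2*l - 2*m + 2*c + 2*d + 2*U - 2*Y) 0 with h408 | h408
                · rcases lt_or_ge (-2*N - a + b + 2*m - c - d - V + Y + 1) 0 with h409 | h409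
                  · rcases lt_or_ge (-4*N - Q + l + 2*m - 2*c - 2*d + L - 2*V + 5) 0 with h410 | h410
                    · exact T0_64 X hb ⟨by have := kA 12 h410 (kA 8 h409 (kA 11 h408 (kA 12 h407 (kA 13 h406 (kA 14 h405 (kA 2 h403 (kA 2 h402 (kB 10 h347 (kA 14 h346 (kA 8 h6 (kC 12 b33 k0))))))))))); clear * - this; omega, by clear * - h405; omega, by have := kA 7 h410 (kA 8 h409 (kA 7 h408 (kA 3 h406 (kA 4 h405 (kA 10 h403 (kA 3 h402 (kA 3 h346 (kA 10 h345 (kA 5 h6 (kC 7 b39 k0)))))))))); clear * - this; omega⟩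
                    exact T0_35 X hb ⟨by clear * - h410; omega, by have := kA 20 h409 (kA 9 h408 (kA 16 h407 (kA 7 h406 (kA 30 h405 (kA 14 h403 (kA 14 h402 (kB 2 h347 (kA 22 h6 (kC 16 b41 (kC 16 b33 k0)))))))))); clear * - this; omega⟩
                  exact T0_55 X hb ⟨by have := kB 1 h409 (kA 2 h407 (kA 2 h406 (kA 5 h405 (kA 1 h403 (kA 3 h402 (kA 2 h346 (kA 1 h345 (kA 2 h5 (kC 2 b41 (kC 2 b33 (kC 9 b17 k0))))))))))); clear * - this; omega, by have := kB 1 h409 (kA 2 h407 (kA 2 h406 (kA 6 h405 (kA 2 h403 (kA 3 h402 (kA 4 h346 (kA 2 h6 (kA 2 h5 (kC 3 b41 (kC 3 b33 (kC 8 b17 k0))))))))))); clear * - this; omega, by have := kA 1 h408 (kA 2 h346 (kA 1 h8 (kA 2 h3 (kC 1 b45 (kC 1 b39 k0))))); clear * - this; omega, by have := kA 1 h408 (kA 2 h407 (kA 1 h406 (kA 4 h405 (kA 2 h403 (kA 2 h402 (kA 2 h346 (kC 2 b41 (kC 2 b33 (kC 6 b17 k0))))))))); clear * - this; omega, by have := kA 1 h408 (kA 2 h407 (kA 1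 h406 (kA 2 h403 (kA 2 h402 (kA 2 h346 (kC 2 b17 (kC 2 b7 k0))))))); clear * - this; omega, by clear * - h409; omega⟩
                exact T0_29 X hb ⟨by have := kA 1 h406 (kA 2 h405 (kA 1 h402 (kA 1 h346 (kB 1 h9 (kA 1 h6 (kA 2 h5 (kC 1 b41 (kC 1 b33 (kC 2 b17 k0))))))))); clear * - this; omega, by have := kA 1 h406 (kA 2 h405 (kA 1 h402 (kA 1 h346 (kA 1 h6 (kA 2 h5 (kC 1 b41 (kC 1 b33 (kC 2 b17 k0)))))))); clear * - this; omega, by have := kA 2 h346 (kA 1 h8 (kA 2 h3 (kC 1 b43 (kC 1 b41 (kC 1 b39 k0))))); clear * - this; omega, by clear * - h408; omega, by have := kA 2 h405 (kA 2 h403 (kA 1 h402 (kA 2 h346 (kA 4 h6 (kC 2 b41 (kC 1 b39 (kC 1 b33 k0))))))); clear * - this; omega⟩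
              exact T0_11 X hb ⟨by have := kA 2 h403 (kB 2 h347 (kA 2 h346 (kA 2 h6 (kC 1 b45 (kC 1 b41 (kC 2 b39 k0)))))); clear * - this; omega, by have := kB 4 h407 (kA 2 h402 (kA 2 h346 (kA 3 h8 (kA 2 h6 (kA 2 h5 (kA 4 h3 (kC 2 b41 (kC 1 b39 (kC 1 b38 k0))))))))); clear * - this; omega, by clear * - h8 h407; omega, by have := kB 1 h407 (kA 2 h403 (kB 2 h347 (kA 1 h346 (kA 1 h8 (kA 1 h6 (kC 1 b41 (kC 1 b39 k0))))))); clear * - this; omega, by clear * - h407; omega⟩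
            rcases lt_or_ge (2*N - a - 2*b - m + c + d - 2) 0 with h411 | h411
            · exact T0_220 X hb ⟨by have := kA 4 h411 (kA 2 h405 (kA 8 h403 (kA 1 h402 (kA 4 h346 (kA 2 h8 (kC 1 b41 (kC 2 b39 (kC 3 b11 k0)))))))); clear * - this; omega, by have := kA 2 h405 (kA 2 h403 (kA 1 h402 (kA 2 h346 (kA 1 h8 (kC 1 b41 (kC 1 b33 k0)))))); clear * - this; omega, by have := kA 2 h411 (kA 2 h403 (kA 1 h8 (kC 1 b11 k0))); clear * - this; omega, by have := kA 2 h405 (kA 2 h346 (kB 1 h9 (kA 2 h6 (kA 2 h5 (kC 1 b41 (kC 2 b33 k0)))))); clear * - this; omega⟩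
            exact T0_234 X hb ⟨by have := kB 2 h411 (kB 1 h406 (kA 1 h402 (kA 1 h346 (kA 1 h6 (kA 2 h4 (kA 2 h3 (kC 1 b41 (kC 1 b33 k0)))))))); clear * - this; omega, by clear * - h411; omega, by clear * - h4 h406 h411; omega, by have := kB 2 h411 (kB 1 h406 (kA 2 h405 (kA 2 h403 (kA 1 h402 (kA 1 h346 (kA 3 h6 (kC 1 b41 (kC 1 b39 k0)))))))); clear * - this; omega, by clear * - h406; omega⟩
          exact T0_361 X hb ⟨by have := kB 2 h405 (kA 1 h402 (kA 1 h346 (kA 1 h6 (kA 2 h3 (kC 1 b41 (kC 1 b39 k0)))))); clear * - this; omega, by clear * - h404; omega, by clear * - h405; omega⟩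
        exact T0_98 X hb ⟨by have := kA 1 h402 (kA 1 h346 (kA 1 h6 (kA 2 h3 (kC 1 b41 (kC 1 b39 (kC 1 b7 k0)))))); clear * - this; omega, by clear * - h404; omega, by have := kA 2 h403 (kA 1 h402 (kA 1 h346 (kA 1 h345 (kA 1 h6 (kA 1 h3 (kC 1 b41 (kC 1 b39 (kC 1 b11 k0)))))))); clear * - this; omega⟩
      rcases lt_or_ge (N - a - b - m + c - 1) 0 with h412 | h412
      · rcases lt_or_ge (N + a - l - m - U - 3) 0 with h413 | h413
        · rcases lt_or_ge (2*N + i + a - b - 2*m + c + d + V - Y - 2) 0 with h414 | h414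
          · exact T0_55 X hb ⟨by have := kA 2 h412 (kA 2 h402 (kA 5 h346 (kB 2 h9 (kA 2 h8 (kA 2 h7 (kA 3 h6 (kA 2 h5 (kA 6 h3 (kC 4 b41 (kC 4 b33 k0)))))))))); clear * - this; omega, by have := kA 2 h412 (kA 2 h402 (kA 5 h346 (kA 2 h8 (kA 2 h7 (kA 3 h6 (kA 2 h5 (kA 6 h3 (kC 4 b41 (kC 4 b33 k0))))))))); clear * - this; omega, by have := kA 2 h346 (kA 2 h6 (kA 2 h3 (kC 1 b45 (kC 1 b41 (kC 2 b39 k0))))); clear * - this; omega, by have := kA 1 h413 (kA 1 h402 (kA 1 h346 (kA 2 h3 (kC 2 b41 (kC 1 b39 (kC 1 b33 (kC 3 b17 k0))))))); clear * - this; omega, by have := kA 1 h414 (kA 1 h344 (kA 1 h8 (kC 1 b7 (kC 2 b2 k0)))); clear * - this; omega, by have := kA 2 h414 (kA 1 h402 (kA 1 h8 (kA 2 h3 (kC 1 b41 (kC 1 b33 (kC 1 b18 k0)))))); clear * - this; omega⟩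
          rcases lt_or_ge (-2*N - a + b + 2*m - c - d - V + Y + 1) 0 with h415 | h415
          · rcases lt_or_ge (i + 2*a - 2*V) 0 with h416 | h416
            · exact T0_34 X hb ⟨by have := kA 1 h416 (kA 2 h412 (kA 2 h346 (kB 1 h9 (kA 2 h5 (kA 2 h3 (kC 1 b41 (kC 2 b33 k0))))))); clear * - this; omega, by clear * - b18 h416; omega⟩
            rcases lt_or_ge (N + a - l - m - U - 2) 0 with h417 | h417
            · exact T0_98 X hb ⟨by clear * - b19 h3 h412; omega, by have := kA 4 h417 (kA 2 h415 (kA 1 h346 (kA 1 h344 (kA 1 h6 (kC 2 b41 (kC 1 b39 (kC 1 b33 k0))))))); clear * - this; omega, by have := kA 1 h346 (kA 1 h345 (kA 1 h344 (kA 1 h6 (kA 1 h3 (kC 1 b41 (kC 1 b39 (kC 1 b11 k0))))))); clear * - this; omega⟩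
            exact T0_33 X hb ⟨by have := kA 2 h413 (kA 2 h346 (kA 1 h344 (kA 2 h3 (kC 1 b41 (kC 2 b39 (kC 1 b11 k0)))))); clear * - this; omega, by have := kA 2 h415 (kA 6 h413 (kA 1 h402 (kA 2 h3 (kC 2 b41 (kC 1 b39 (kC 1 b33 k0)))))); clear * - this; omega, by clear * - h413; omega, by clear * - h417; omega⟩
          exact T0_149 X hb ⟨by clear * - h414; omega, by have := kA 2 h412 (kA 2 h402 (kA 5 h346 (kA 2 h8 (kA 2 h7 (kA 3 h6 (kA 2 h5 (kA 6 h3 (kC 4 b41 (kC 4 b33 k0))))))))); clear * - this; omega, by have := kA 2 h346 (kA 2 h6 (kA 2 h3 (kC 1 b45 (kC 1 b41 (kC 2 b39 k0))))); clear * - this; omega, by have := kB 1 h415 (kA 2 h402 (kA 2 h346 (kA 4 h3 (kC 4 b41 (kC 2 b39 (kC 2 b33 (kC 8 b17 k0))))))); clear * - this; omega, by have := kB 1 h414 (kA 4 h413 (kA 3 h346 (kA 2 h344 (kA 1 h6 (kA 2 h3 (kC 2 b41 (kC 2 b39 (kC 2 b11 k0)))))))); clear * - this; omega, by clear * - h415; omega⟩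
        rcases lt_or_ge (-3*N - Q + i + a + 2*b + 2*l + 2*m + L + 3*U - 2*V + 6) 0 with h418 | h418
        · exact T0_98 X hb ⟨by clear * - b19 h3 h412; omega, by have := kA 1 h418 (kA 1 h412 (kA 1 h345 (kA 1 h6 (kA 2 h5 (kC 1 b33 k0))))); clear * - this; omega, by have := kA 1 h418 (kB 3 h413 (kA 3 h345 (kA 2 h4 (kA 1 h3 (kC 1 b33 k0))))); clear * - this; omega⟩
        exact T0_73 X hb ⟨by clear * - h418; omega, by clear * - h413; omega⟩
      exact T0_181 X hb ⟨by have := kB 2 h403 (kA 1 h346 (kA 1 h6 (kA 2 h3 (kC 1 b43 (kC 1 b41 (kC 1 b39 k0)))))); clear * - this; omega, by clear * - h403; omega, by clear * - h412; omega⟩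
    rcases lt_or_ge (2*a + 2*b + m - L + 2*Y - 1) 0 with h419 | h419
    · rcases lt_or_ge (-2*N + Q - i + 4*a + 4*b - 2*l - 4*c - 2*d - 2*U - 3) 0 with h420 | h420
      · rcases lt_or_ge (2*N - 3*a - 2*b - m + 2*c + d - 2) 0 with h421 | h421
        · exact T0_35 X hb ⟨by have := kA 2 h421 (kA 1 h420 (kA 1 h419 (kA 2 h346 (kA 1 h345 (kA 2 h4 (kA 3 h3 (kC 1 b41 (kC 2 b39 k0)))))))); clear * - this; omega, by have := kA 1 h421 (kA 1 h419 (kA 1 h6 (kA 1 h5 (kC 1 b41 k0)))); clear * - this; omega⟩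
        rcases lt_or_ge (-2*N + Q - i + a + 2*b + m - 2*c - d) 0 with h422 | h422
        · exact T0_35 X hb ⟨by have := kA 2 h422 (kB 2 h347 (kA 4 h346 (kA 2 h6 (kA 2 h4 (kA 4 h3 (kC 1 b41 (kC 3 b39 (kC 1 b18 (kC 1 b11 k0))))))))); clear * - this; omega, by have := kA 1 h422 (kB 2 h347 (kA 1 h346 (kA 2 h6 (kA 1 h5 (kC 1 b41 (kC 1 b39 (kC 1 b7 k0))))))); clear * - this; omega⟩
        exact T0_156 X hb ⟨by clear * - h421; omega, by clear * - h422; omega, by have := kB 1 h422 (kA 2 h346 (kB 1 h9 (kA 2 h3 (kC 1 b41 (kC 2 b33 (kC 1 b29 (kC 2 b17 k0))))))); clear * - this; omega, by clear * - h420 h422; omega⟩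
      exact T0_127 X hb ⟨by clear * - h420; omega, by have := kA 1 h419 (kB 1 h402 (kB 2 h347 (kA 5 h346 (kB 2 h9 (kA 1 h6 (kA 2 h4 (kA 2 h3 (kC 3 b41 (kC 2 b33 k0))))))))); clear * - this; omega, by have := kB 1 h420 (kA 1 h345 (kA 1 h3 (kC 1 b14 k0))); clear * - this; omega, by have := kA 1 h419 (kA 1 h346 (kA 1 h6 (kA 1 h5 (kC 1 b41 (kC 1 b17 k0))))); clear * - this; omega⟩
    exact T0_154 X hb ⟨by clear * - b11 h344 h402; omega, by clear * - h402; omega, by clear * - h347; omega, by have := kA 2 h346 (kA 2 h7 (kC 1 b41 (kC 1 b29 (kC 2 b17 k0)))); clear * - this; omega, by have := kA 3 h346 (kB 1 h9 (kA 3 h6 (kA 2 h5 (kC 2 b41 (kC 1 b39 (kC 1 b7 k0)))))); clear * - this; omega, by clear * - b11 h344 h419; omega, by clear * - h419; omega⟩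
  rcases lt_or_ge (-3*N - i - a + m - 2*c - 2*d + L - U - V + 2) 0 with h423 | h423
  · rcases lt_or_ge (N + a - l - m - U - 3) 0 with h424 | h424
    · rcases lt_or_ge (-2*N + i + a + m - c - 2*d + 1) 0 with h425 | h425
      · rcases lt_or_ge (-2*N + 3*m - 2*c + 2*Y + 3) 0 with h426 | h426
        · rcases lt_or_ge (-4*N + Q - i - 2*l + 2*m - 4*c - 6*d - 2*U - 1) 0 with h427 | h427
          · rcases lt_or_ge (2*N - m + 3*c + d + V - 2) 0 with h428 | h428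
            · rcases lt_or_ge (N - a - m + 2*c + V - 1) 0 with h429 | h429
              · rcases lt_or_ge (-3*N + 3*m - 3*c - 2*d + 2) 0 with h430 | h430
                · rcases lt_or_ge (N - a - b - m + c - 2) 0 with h431 | h431
                  · rcases lt_or_ge (-N + a + b + m - c) 0 with h432 | h432
                    · exact T0_98 X hb ⟨by clear * - b19 h3 h431; omega, by have := kA 2 h432 (kA 1 h426 (kA 6 h424 (kA 1 h423 (kB 1 h346 (kC 1 b41 (kC 2 b39 (kC 1 b11 (kC 6 b2 k0)))))))); clear * - this; omega, by have := kA 1 h426 (kA 2 h424 (kA 1 h345 (kA 1 h3 (kC 1 b41 (kC 1 b39 (kC 1 b11 (kC 2 b2 k0))))))); clear * - this; omega⟩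
                    exact T0_26 X hb ⟨by have := kB 2 h432 (kA 4 h430 (kA 1 h427 (kA 1 h8 (kA 2 h2 (kC 1 b42 (kC 1 b41 (kC 1 b39 (kC 1 b21 k0)))))))); clear * - this; omega, by have := kB 2 h432 (kA 3 h430 (kA 1 h429 (kA 1 h425 (kB 1 h9 (kA 1 h8 (kA 3 h3 (kA 1 h2 (kC 1 b41 (kC 1 b34 k0))))))))); clear * - this; omega, by clear * - h5 h432; omega, by have := kB 4 h432 (kA 1 h430 (kA 2 h3 (kA 3 h1 k0))); clear * - this; omega, by clear * - h432; omega, by have := kA 1 h426 (kA 4 h424 (kA 2 h3 (kC 1 b43 (kC 2 b41 (kC 1 b39 (kC 4 b2 k0)))))); clear * - this; omega, by have := kA 1 h426 (kA 6 h424 (kA 4 h3 (kC 2 b43 (kC 3 b41 (kC 2 b39 (kC 6 b2 k0)))))); clear * - this; omega, by have := kA 1 h426 (kA 4 h424 (kB 2 h346 (kA 2 h3 (kC 1 b45 (kC 1 b41 (kC 1 b33 (kC 6 b2 k0))))))); clear * - this; omega, by have := kA 2 h424 (kB 1 h9 (kC 1 b41 (kC 2 b2 k0))); clear * - this; omega, by have := kA 1 h345 (kA 1 h3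 (kC 1 b42 (kC 1 b41 (kC 2 b17 k0)))); clear * - this; omega, by have := kA 1 h426 (kA 2 h424 (kA 1 h345 (kA 1 h8 (kA 1 h3 (kC 1 b41 (kC 1 b11 (kC 2 b2 k0))))))); clear * - this; omega⟩
                  rcases lt_or_ge (N + a + b - m + c + d - 2) 0 with h433 | h433
                  · exact T0_10 X hb ⟨by clear * - b2 b19 h433; omega, by have := kA 1 h424 (kA 1 h423 (kA 1 h4 (kA 1 h3 (kC 1 b39 (kC 1 b2 k0))))); clear * - this; omega, by have := kA 1 h345 (kA 1 h3 (kC 1 b43 (kC 1 b41 (kC 1 b39 (kC 2 b2 k0))))); clear * - this; omega⟩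
                  exact T0_295 X hb ⟨by have := kB 2 h433 (kA 1 h345 (kA 1 h3 (kC 1 b19 (kC 2 b17 k0)))); clear * - this; omega, by clear * - h433; omega, by have := kB 4 h433 (kA 3 h430 (kA 1 h429 (kA 1 h425 (kB 1 h9 (kA 2 h8 (kA 3 h3 (kA 3 h2 (kC 1 b41 (kC 1 b39 (kC 1 b21 k0)))))))))); clear * - this; omega, by have := kB 1 h433 (kB 1 h431 (kA 1 h430 (kA 1 h427 (kA 1 h345 (kC 1 b42 (kC 1 b41 (kC 1 b39 (kC 2 b17 k0)))))))); clear * - this; omega, by clear * - h431; omega, by have := kA 1 h345 (kA 1 h3 (kC 1 b42 (kC 1 b41 (kC 2 b17 k0)))); clear * - this; omega, by have := kA 2 h424 (kB 1 h9 (kC 1 b41 (kC 2 b2 k0))); clear * - this; omega, by have := kA 1 h426 (kA 6 h424 (kA 4 h3 (kC 2 b43 (kC 3 b41 (kC 2 b39 (kC 6 b2 k0)))))); clear * - this; omega, by have := kA 1 h426 (kA 4 h424 (kA 2 h3 (kC 1 b43 (kC 2 b41 (kC 1 b39 (kC 4 b2 k0)))))); clear * - this; omega⟩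
                exact T0_14 X hb ⟨by clear * - h430; omega, by have := kA 1 h429 (kA 2 h426 (kA 1 h425 (kA 7 h424 (kA 1 h423 (kA 2 h5 (kC 2 b41 (kC 2 b39 (kC 1 b33 (kC 6 b2 k0))))))))); clear * - this; omega, by clear * - h5 h430; omega, by have := kA 1 h428 (kA 1 h425 (kA 3 h424 (kA 1 h423 (kA 1 h5 (kC 1 b33 (kC 3 b2 k0)))))); clear * - this; omega⟩
              rcases lt_or_ge (-N + a + m - 2*c - V + 1) 0 with h434 | h434
              · rcases lt_or_ge (-N + a + b - c - d - Y - 1) 0 with h435 | h435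
                · rcases lt_or_ge (2*N - Q + i - 2*a - 2*b + l - m + 2*c + 2*d) 0 with h436 | h436
                  · exact T0_44 X hb ⟨by clear * - b21 h427; omega, by have := kA 1 h436 (kA 4 h435 (kA 1 h434 (kA 1 h428 (kA 1 h423 (kB 1 h346 (kA 1 h345 (kC 2 b42 (kC 1 b39 (kC 3 b2 k0))))))))); clear * - this; omega, by have := kA 2 h435 (kA 2 h428 (kA 2 h426 (kA 8 h424 (kA 2 h423 (kC 1 b41 (kC 3 b39 (kC 1 b11 (kC 8 b2 k0)))))))); clear * - this; omega, by have := kA 1 h436 (kA 1 h426 (kA 1 h345 (kA 2 h6 (kA 1 h3 (kC 1 b41 (kC 1 b39 k0)))))); clear * - this; omega⟩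
                  rcases lt_or_ge (-2*N - Q + i + l + 2*m - 2*c + 3) 0 with h437 | h437
                  · exact T0_91 X hb ⟨by have := kA 1 h437 (kA 1 h434 (kA 3 h428 (kA 2 h424 (kA 2 h423 (kB 2 h346 (kA 1 h345 (kC 1 b42 (kC 2 b39 (kC 7 b2 k0))))))))); clear * - this; omega, by have := kA 3 h437 (kA 1 h434 (kA 5 h428 (kA 8 h424 (kA 4 h423 (kB 6 h346 (kA 3 h345 (kA 4 h4 (kC 1 b41 (kC 5 b39 (kC 19 b2 k0)))))))))); clear * - this; omega, by have := kA 2 h435 (kA 4 h434 (kA 2 h428 (kA 8 h424 (kB 4 h346 (kC 3 b45 (kC 1 b41 (kC 4 b39 (kC 16 b2 k0)))))))); clear * - this; omega, by have := kA 1 h437 (kA 3 h434 (kA 3 h428 (kA 4 h424 (kA 2 h423 (kA 1 h345 (kC 1 b41 (kC 3 b39 (kC 2 b11 (kC 5 b2 k0))))))))); clear * - this; omega, by have := kA 8 h437 (kB 2 h436 (kA 4 h435 (kA 2 h428 (kA 6 h345 (kC 7 b42 (kC 3 b41 (kC 3 b39 (kC 14 b17 (kC 4 b11 k0))))))))); clear * - this; omega, by have := kA 2 h437 (kA 1 h426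 (kA 6 h424 (kA 1 h423 (kA 2 h345 (kA 3 h6 (kC 3 b41 (kC 4 b39 (kC 1 b11 k0)))))))); clear * - this; omega⟩
                  rcases lt_or_ge (2*N - Q + i + 2*a + 2*b + l - m + 2*c + 2*d - L - 1) 0 with h438 | h438
                  · exact T0_10 X hb ⟨by have := kA 1 h438 (kC 1 b42 (kC 1 b41 (kC 2 b2 k0))); clear * - this; omega, by have := kA 1 h434 (kA 1 h428 (kA 1 h424 (kA 1 h423 (kA 1 h4 (kC 1 b39 (kC 2 b2 k0)))))); clear * - this; omega, by have := kA 2 h438 (kB 1 h437 (kA 2 h434 (kA 4 h428 (kA 3 h426 (kA 8 h424 (kA 4 h423 (kA 2 h345 (kA 4 h4 (kC 3 b41 (kC 5 b39 (kC 16 b2 k0))))))))))); clear * - this; omega⟩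
                  exact T0_294 X hb ⟨by clear * - h436; omega, by clear * - h437; omega, by have := kA 4 h435 (kA 3 h426 (kA 1 h345 (kA 3 h3 (kC 1 b41 (kC 1 b32 (kC 2 b17 k0)))))); clear * - this; omega, by have := kA 1 h345 (kA 1 h3 (kC 1 b19 (kC 2 b17 k0))); clear * - this; omega, by clear * - h438; omega, by have := kA 2 h434 (kA 4 h428 (kA 3 h426 (kA 10 h424 (kA 2 h423 (kA 2 h4 (kC 3 b41 (kC 3 b39 (kC 1 b33 (kC 14 b2 k0))))))))); clear * - this; omega⟩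
                rcases lt_or_ge (-2*a - 2*b + l + 3*m - L + 2*U + 2*Y + 2) 0 with h439 | h439
                · rcases lt_or_ge (2*a + 2*b - l - 2) 0 with h440 | h440
                  · exact T0_13 X hb ⟨by have := kA 1 h440 (kA 1 h426 (kA 4 h424 (kC 1 b41 (kC 1 b39 (kC 4 b2 k0))))); clear * - this; omega, by have := kA 1 h439 (kA 1 h426 (kA 6 h424 (kC 2 b41 (kC 1 b33 (kC 6 b2 k0))))); clear * - this; omega⟩
                  rcases lt_or_ge (-a) 0 with h441 | h441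
                  · exact T0_149 X hb ⟨by have := kA 6 h441 (kA 1 h439 (kA 2 h434 (kA 2 h428 (kA 1 h423 (kB 1 h346 (kA 1 h8 (kC 1 b45 (kC 1 b33 k0)))))))); clear * - this; omega, by have := kA 23 h441 (kA 2 h439 (kB 1 h435 (kA 3 h434 (kA 6 h428 (kA 4 h426 (kA 2 h425 (kA 18 h424 (kA 2 h8 (kC 7 b41 (kC 5 b33 k0)))))))))); clear * - this; omega, by have := kA 6 h441 (kA 2 h434 (kA 2 h428 (kA 4 h424 (kC 1 b45 (kC 1 b41 (kC 2 b39 k0)))))); clear * - this; omega, by have := kA 10 h441 (kB 2 h440 (kA 2 h434 (kA 2 h428 (kA 4 h424 (kB 4 h346 (kC 1 b45 (kC 1 b41 (kC 2 b39 k0)))))))); clear * - this; omega, by have := kA 4 h441 (kA 1 h439 (kA 4 h434 (kA 2 h428 (kC 2 b45 (kC 1 b39 (kC 2 b11 k0)))))); clear * - this; omega, by have := kA 2 h441 (kB 2 h440 (kA 2 h434 (kA 2 h428 (kA 4 h424 (kC 1 b45 (kC 1 b41 (kC 2 b39 k0))))))); clear * - this; omega⟩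
                  exact T0_67 X hb ⟨by have := kA 2 h434 (kA 2 h428 (kA 2 h424 (kA 1 h423 (kB 1 h346 (kC 1 b45 (kC 2 b39 (kC 6 b2 k0))))))); clear * - this; omega, by clear * - h440; omega, by have := kA 1 h426 (kA 4 h424 (kC 1 b41 (kC 1 b39 (kC 2 b2 k0)))); clear * - this; omega, by clear * - h441; omega⟩
                exact T0_21 X hb ⟨by clear * - b11 h5; omega, by have := kA 4 h434 (kA 6 h428 (kA 3 h426 (kA 2 h425 (kA 14 h424 (kA 2 h423 (kC 4 b41 (kC 4 b39 (kC 2 b33 (kC 18 b2 k0))))))))); clear * - this; omega, by clear * - h435; omega, by have := kB 1 h439 (kB 2 h435 (kA 2 h434 (kA 2 h428 (kA 4 h424 (kC 2 b41 (kC 1 b39 (kC 6 b2 k0))))))); clear * - this; omega, by clear * - h439; omega⟩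
              rcases lt_or_ge (-2*b + m - 2*c - 2*V) 0 with h442 | h442
              · rcases lt_or_ge (-a) 0 with h443 | h443
                · exact T0_149 X hb ⟨by have := kA 8 h443 (kA 1 h442 (kB 2 h434 (kA 2 h428 (kA 3 h426 (kA 4 h424 (kA 2 h8 (kC 2 b41 (kC 2 b33 k0)))))))); clear * - this; omega, by have := kA 10 h443 (kA 2 h442 (kB 3 h434 (kA 2 h428 (kA 2 h426 (kA 1 h425 (kA 7 h424 (kB 1 h346 (kA 1 h8 (kA 3 h1 (kC 3 b41 (kC 3 b33 k0))))))))))); clear * - this; omega, by have := kA 6 h443 (kB 2 h429 (kA 2 h428 (kA 4 h424 (kC 1 b45 (kC 1 b41 (kC 2 b39 k0)))))); clear * - this; omega, by have := kA 16 h443 (kA 1 h442 (kB 2 h434 (kA 2 h428 (kA 3 h426 (kA 12 h424 (kB 4 h346 (kC 4 b41 (kC 2 b39 (kC 2 b33 k0))))))))); clear * - this; omega, by have := kA 4 h443 (kA 1 h442 (kB 2 h429 (kA 2 h428 (kA 1 h426 (kC 2 b45 (kC 2 b39 (kC 2 b11 k0))))))); clear * - this; omega, by have := kA 8 h443 (kA 1 h442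 (kB 2 h434 (kA 2 h428 (kA 3 h426 (kA 12 h424 (kC 4 b41 (kC 2 b39 (kC 2 b33 k0)))))))); clear * - this; omega⟩
                exact T0_67 X hb ⟨by have := kB 2 h429 (kA 2 h428 (kA 2 h424 (kA 1 h423 (kB 1 h346 (kC 1 b45 (kC 2 b39 (kC 6 b2 k0))))))); clear * - this; omega, by have := kA 1 h442 (kB 2 h434 (kA 1 h426 (kA 2 h424 (kC 1 b41 (kC 1 b33 (kC 2 b2 k0)))))); clear * - this; omega, by clear * - b39 b45 h442; omega, by clear * - h443; omega⟩
              rcases lt_or_ge (2*N - Q + i + 2*b + l - 2*m + 4*c + 2*d + 2*V - 1) 0 with h444 | h444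
              · exact T0_10 X hb ⟨by have := kA 1 h444 (kA 1 h426 (kA 4 h424 (kB 2 h346 (kC 1 b41 (kC 1 b39 (kC 6 b2 k0)))))); clear * - this; omega, by have := kB 1 h429 (kA 1 h428 (kA 1 h424 (kA 1 h423 (kA 1 h4 (kC 1 b39 (kC 2 b2 k0)))))); clear * - this; omega, by have := kA 1 h444 (kB 2 h429 (kA 2 h428 (kA 1 h426 (kA 4 h424 (kA 2 h423 (kB 2 h346 (kA 2 h345 (kA 2 h4 (kC 1 b41 (kC 3 b39 (kC 10 b2 k0))))))))))); clear * - this; omega⟩
              exact T0_385 X hb ⟨by clear * - h444; omega, by have := kA 2 h428 (kA 1 h426 (kA 4 h424 (kC 1 b42 (kC 2 b41 (kC 2 b33 (kC 6 b2 k0)))))); clear * - this; omega, by clear * - h442; omega, by clear * - h434; omega, by clear * - h429; omega⟩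
            rcases lt_or_ge (2*N - 2*a - 2*b - m + c + d + V - 2) 0 with h445 | h445
            · exact T0_149 X hb ⟨by have := kA 2 h423 (kB 1 h9 (kA 2 h3 (kC 1 b39 (kC 1 b32 (kC 2 b2 k0))))); clear * - this; omega, by have := kA 15 h445 (kB 7 h428 (kA 14 h425 (kA 14 h423 (kA 6 h8 (kA 30 h3 (kC 2 b43 (kC 11 b40 (kC 3 b39 (kC 11 b33 (kC 6 b21 k0)))))))))); clear * - this; omega, by have := kA 4 h424 (kA 2 h3 (kC 1 b45 (kC 1 b41 (kC 2 b39 (kC 4 b2 k0))))); clear * - this; omega, by have := kA 2 h445 (kA 2 h3 (kC 1 b43 (kC 3 b41 (kC 2 b39 (kC 1 b33 (kC 6 b17 k0)))))); clear * - this; omega, by have := kA 2 h426 (kA 4 h424 (kA 2 h3 (kC 1 b45 (kC 1 b41 (kC 2 b39 (kC 2 b11 (kC 4 b2 k0))))))); clear * - this; omega, by have := kA 2 h445 (kA 1 h426 (kA 8 h424 (kA 2 h3 (kC 3 b41 (kC 2 b39 (kC 1 b33 (kC 1 b18 (kC 1 b11 k0)))))))); clear * - this; omega⟩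
            exact T0_363 X hb ⟨by have := kB 1 h445 (kA 1 h426 (kA 4 h424 (kC 1 b41 (kC 1 b39 (kC 4 b2 k0))))); clear * - this; omega, by have := kA 12 h424 (kA 6 h423 (kA 4 h345 (kB 1 h9 (kA 4 h4 (kA 10 h3 (kC 1 b41 (kC 7 b39 (kC 5 b19 (kC 2 b11 (kC 14 b2 k0)))))))))); clear * - this; omega, by clear * - h428; omega, by have := kA 2 h3 (kC 1 b42 (kC 1 b41 (kC 1 b39 (kC 2 b17 k0)))); clear * - this; omega, by clear * - h445; omega, by have := kB 1 h428 (kA 1 h345 (kA 1 h3 (kC 1 b19 (kC 1 b11 k0)))); clear * - this; omega⟩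
          exact T0_346 X hb ⟨by clear * - h427; omega, by have := kA 1 h425 (kA 1 h424 (kA 1 h423 (kA 1 h3 (kC 1 b39 (kC 1 b2 k0))))); clear * - this; omega, by have := kB 1 h427 (kA 2 h5 (kC 1 b18 (kC 2 b17 (kC 1 b11 k0)))); clear * - this; omega, by have := kA 1 h426 (kA 2 h424 (kA 1 h345 (kA 1 h3 (kC 1 b41 (kC 1 b39 (kC 1 b11 (kC 2 b2 k0))))))); clear * - this; omega, by have := kB 1 h427 (kA 1 h345 (kA 1 h5 (kA 2 h2 (kA 1 h1 (kC 1 b42 (kC 1 b41 (kC 1 b39 k0))))))); clear * - this; omega⟩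
        rcases lt_or_ge (2*a + 2*b + m + 2*d + 2*Y + 1) 0 with h446 | h446
        · exact T0_10 X hb ⟨by have := kA 1 h446 (kB 1 h426 (kC 1 b19 (kC 2 b2 k0))); clear * - this; omega, by have := kA 1 h424 (kA 1 h423 (kA 1 h4 (kA 1 h3 (kC 1 b39 (kC 1 b2 k0))))); clear * - this; omega, by have := kA 1 h345 (kA 1 h3 (kC 1 b43 (kC 1 b41 (kC 1 b39 (kC 2 b2 k0))))); clear * - this; omega⟩
        rcases lt_or_ge (2*N - 2*a - 2*b - m + 2*c - 2) 0 with h447 | h447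
        · rcases lt_or_ge (-a) 0 with h448 | h448
          · exact T0_149 X hb ⟨by have := kA 4 h448 (kA 2 h447 (kA 2 h344 (kA 2 h8 (kA 2 h3 (kC 1 b45 (kC 1 b41 (kC 2 b33 k0))))))); clear * - this; omega, by have := kA 4 h448 (kB 1 h446 (kB 1 h426 (kA 2 h423 (kB 2 h346 (kA 2 h4 (kA 2 h3 (kA 4 h1 (kC 2 b33 k0)))))))); clear * - this; omega, by have := kA 4 h448 (kA 4 h424 (kA 2 h3 (kC 1 b45 (kC 1 b41 (kC 2 b39 k0))))); clear * - this; omega, by have := kA 12 h448 (kA 2 h447 (kA 8 h424 (kB 4 h346 (kA 2 h344 (kA 2 h3 (kC 1 b45 (kC 3 b41 (kC 2 b39 (kC 2 b33 k0))))))))); clear * - this; omega, by have := kA 4 h448 (kA 4 h424 (kA 2 h344 (kA 2 h3 (kC 1 b45 (kC 1 b41 (kC 2 b39 (kC 2 b11 k0))))))); clear * - this; omega, by have := kA 4 h448 (kA 2 h447 (kA 8 h424 (kA 2 h344 (kA 2 h3 (kC 1 b45 (kC 3 b41 (kC 2 b39 (kC 2 b33 k0)))))))); clear * - this; omega⟩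
          exact T0_67 X hb ⟨by have := kA 2 h424 (kA 1 h423 (kB 1 h346 (kA 2 h3 (kC 1 b45 (kC 2 b39 (kC 4 b2 k0)))))); clear * - this; omega, by have := kA 1 h447 (kA 2 h424 (kA 1 h344 (kC 1 b41 (kC 1 b33 (kC 2 b2 k0))))); clear * - this; omega, by have := kA 4 h424 (kA 1 h344 (kC 1 b41 (kC 1 b39 (kC 2 b2 k0)))); clear * - this; omega, by clear * - h448; omega⟩
        exact T0_384 X hb ⟨by have := kA 1 h345 (kA 1 h3 (kC 1 b19 (kC 2 b17 k0))); clear * - this; omega, by clear * - h9; omega, by clear * - h426; omega, by clear * - h344; omega, by clear * - h447; omega, by clear * - h446; omega⟩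
      rcases lt_or_ge (2*N - Q + i + a - m + c + 2*d - 1) 0 with h449 | h449
      · rcases lt_or_ge (-N - l - c - 2*d - 2*U + V - 2) 0 with h450 | h450
        · exact T0_14 X hb ⟨by have := kA 1 h450 (kA 1 h449 (kB 1 h425 (kA 3 h424 (kB 1 h346 (kB 1 h9 (kC 1 b41 (kC 1 b39 (kC 1 b11 (kC 4 b2 k0))))))))); clear * - this; omega, by have := kA 1 h450 (kA 3 h424 (kB 1 h346 (kA 1 h344 (kC 1 b41 (kC 1 b39 (kC 4 b2 k0)))))); clear * - this; omega, by clear * - b40 h344; omega, by have := kA 1 h450 (kA 1 h424 (kB 1 h346 (kC 2 b2 k0))); clear * - this; omega⟩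
        exact T0_59 X hb ⟨by have := kB 1 h450 (kA 6 h424 (kA 2 h423 (kA 2 h7 (kA 2 h5 (kC 1 b41 (kC 2 b39 (kC 1 b33 (kC 6 b2 k0)))))))); clear * - this; omega, by clear * - b17 b40 h344; omega, by have := kA 1 h5 (kA 1 h2 (kC 1 b19 (kC 1 b11 k0))); clear * - this; omega, by clear * - h450; omega⟩
      exact T0_103 X hb ⟨by clear * - h425; omega, by clear * - h449; omega, by have := kB 1 h425 (kA 8 h424 (kA 3 h423 (kB 1 h346 (kA 1 h344 (kA 4 h4 (kA 4 h3 (kC 2 b45 (kC 1 b41 (kC 6 b39 (kC 10 b2 k0)))))))))); clear * - this; omega, by have := kB 1 h449 (kA 4 h424 (kC 1 b19 (kC 2 b2 k0))); clear * - this; omega⟩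
    rcases lt_or_ge (-3*N - Q + i + a + 2*b + 2*l + 2*m + L + 3*U - 2*V + 6) 0 with h451 | h451
    · rcases lt_or_ge (-N + i - b + l + m + 2) 0 with h452 | h452
      · exact T0_369 X hb ⟨by clear * - b18 h6 h424; omega, by have := kA 2 h452 (kA 1 h451 (kA 1 h423 (kA 1 h345 (kA 2 h6 (kA 1 h3 (kC 2 b39 (kC 1 b18 k0))))))); clear * - this; omega, by have := kA 2 h452 (kA 1 h451 (kA 1 h345 (kA 1 h6 (kA 1 h3 (kC 2 b39 (kC 1 b18 (kC 2 b2 k0))))))); clear * - this; omega, by have := kA 4 h452 (kA 1 h451 (kA 2 h423 (kA 2 h345 (kA 3 h6 (kA 2 h3 (kC 4 b39 (kC 2 b18 (kC 4 b2 k0)))))))); clear * - this; omega⟩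
      rcases lt_or_ge (N + b - m + 2*c - 2) 0 with h453 | h453
      · rcases lt_or_ge (N - a - b - m + c - 2) 0 with h454 | h454
        · exact T0_10 X hb ⟨by have := kA 3 h451 (kB 1 h424 (kA 1 h345 (kA 2 h4 (kA 3 h3 (kC 3 b33 (kC 2 b18 (kC 4 b2 k0))))))); clear * - this; omega, by have := kA 2 h454 (kB 1 h346 (kA 1 h6 (kA 2 h5 k0))); clear * - this; omega, by have := kA 2 h454 (kA 1 h451 (kB 3 h424 (kA 3 h345 (kA 1 h3 (kA 2 h1 (kC 1 b33 k0)))))); clear * - this; omega⟩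
        rcases lt_or_ge (2*N - Q + i - 2*a - 2*b + l - m + 2*c + 2*d) 0 with h455 | h455
        · rcases lt_or_ge (2*N - a - b - m + 2*c + d + V - 2) 0 with h456 | h456
          · exact T0_10 X hb ⟨by have := kA 1 h455 (kB 1 h454 (kA 1 h453 (kB 1 h452 (kA 1 h451 (kB 1 h424 (kA 1 h345 (kA 1 h5 (kA 1 h4 (kC 1 b33 k0))))))))); clear * - this; omega, by have := kA 1 h456 (kB 1 h424 (kA 1 h423 (kA 2 h6 (kA 1 h5 (kA 1 h4 (kC 1 b39 k0)))))); clear * - this; omega, by have := kA 1 h455 (kB 2 h454 (kA 1 h453 (kB 1 h452 (kB 4 h424 (kA 1 h423 (kA 2 h345 (kA 1 h6 (kA 2 h4 (kC 1 b39 k0))))))))); clear * - this; omega⟩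
          exact T0_98 X hb ⟨by have := kA 3 h455 (kA 5 h453 (kB 1 h452 (kA 1 h423 (kA 2 h345 (kA 2 h344 (kA 3 h6 (kA 4 h5 (kA 2 h4 (kC 2 b41 (kC 3 b39 k0)))))))))); clear * - this; omega, by clear * - h456; omega, by have := kB 1 h456 (kA 1 h455 (kB 1 h454 (kA 2 h453 (kB 3 h424 (kA 3 h345 (kA 1 h344 (kA 1 h6 (kA 2 h4 (kC 1 b41 (kC 1 b39 k0)))))))))); clear * - this; omega⟩
        rcases lt_or_ge (2*N - Q + i + 2*a + 2*b + l - m + 2*c + 2*d - L - 1) 0 with h457 | h457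
        · rcases lt_or_ge (-N - b + m - c - d - V) 0 with h458 | h458
          · exact T0_229 X hb ⟨by have := kA 2 h458 (kA 1 h453 (kB 2 h424 (kA 1 h345 k0))); clear * - this; omega, by have := kA 1 h457 (kB 3 h452 (kB 4 h424 (kA 1 h423 (kA 1 h345 (kA 1 h6 (kA 2 h5 (kA 4 h4 k0))))))); clear * - this; omega, by have := kA 2 h458 (kA 1 h457 (kA 1 h453 (kA 1 h345 (kA 1 h344 (kC 1 b41 (kC 2 b2 k0)))))); clear * - this; omega⟩
          exact T0_77 X hb ⟨by have := kB 2 h458 (kB 8 h424 (kA 2 h423 (kB 1 h346 (kA 3 h6 (kA 6 h4 (kA 2 h3 (kC 2 b36 k0))))))); clear * - this; omega, by clear * - h458; omega, by have := kA 2 h423 (kA 2 h4 (kA 2 h3 (kC 1 b39 (kC 1 b36 (kC 2 b2 k0))))); clear * - this; omega⟩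
        exact T0_294 X hb ⟨by clear * - h455; omega, by have := kA 1 h453 (kB 1 h452 (kB 2 h424 (kA 1 h423 (kA 1 h345 (kA 1 h6 (kA 2 h4 (kA 1 h3 (kC 1 b39 k0)))))))); clear * - this; omega, by clear * - h454; omega, by have := kB 2 h424 (kA 1 h345 (kA 2 h6 (kA 1 h3 (kC 1 b19 k0)))); clear * - this; omega, by clear * - h457; omega, by have := kA 1 h423 (kA 1 h344 (kA 1 h6 (kA 2 h4 (kA 2 h3 (kC 1 b41 (kC 1 b39 (kC 1 b18 (kC 4 b2 k0)))))))); clear * - this; omega⟩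
      exact T0_120 X hb ⟨by clear * - h452; omega, by have := kA 2 h423 (kA 1 h345 (kA 2 h4 (kA 3 h3 (kC 1 b39 (kC 1 b33 (kC 1 b19 (kC 4 b2 k0))))))); clear * - this; omega, by have := kB 1 h452 (kB 2 h424 (kA 1 h423 (kA 1 h345 (kA 1 h6 (kA 2 h4 (kA 1 h3 (kC 1 b39 k0))))))); clear * - this; omega, by clear * - b11 h5 h452; omega, by have := kB 1 h453 (kB 2 h424 (kA 1 h345 (kA 2 h6 (kA 1 h3 (kC 1 b19 k0))))); clear * - this; omega, by clear * - h453; omega⟩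
    exact T0_73 X hb ⟨by clear * - h451; omega, by clear * - h424; omega⟩
  exact T0_12 X hb ⟨by clear * - h346; omega, by clear * - h423; omega⟩

theorem P1 (X : C W N Q i a b l m c d L U V Y) (hb : B N Q i a b l m c d L U V Y)
    (h1 : (-N + m - c) < 0)
    (h2 : (3*N + Q - i - 2*l - 3*m + c + d - 2*U + V - 6) < 0)
    (h3 : (N + c + d - 1) < 0)
    (h4 : (i + a - b) < 0)
    (h5 : (-2*N + 2*m - 2*c - d + 1) < 0)
    (h6 : (N + a - l - m - U - V - 3) < 0)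
    (h7 : (-2*N + i + a + 2*m - c - d + Y + 2) < 0)
    (h8 : (-2*N - i + 2*a + 2*b - l + m - 2*c - 2*d - 2*V - 1) < 0)
    (h9 : (-Q + i + l - m - 2*Y + 1) ≥ 0) : False := by
  have b2 := hb.b2
  have b3 := hb.b3
  have b6 := hb.b6
  have b9 := hb.b9
  have b11 := hb.b11
  have b17 := hb.b17
  have b18 := hb.b18
  have b19 := hb.b19
  have b21 := hb.b21
  have b23 := hb.b23
  have b32 := hb.b32
  have b33 := hb.b33
  have b35 := hb.b35
  have b36 := hb.b36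
  have b38 := hb.b38
  have b39 := hb.b39
  have b41 := hb.b41
  have b42 := hb.b42
  have b43 := hb.b43
  have b45 := hb.b45
  rcases lt_or_ge (-2*N + 3*m - 2*c + 2*Y + 2) 0 with h344 | h344
  · rcases lt_or_ge (3*N + Q - i - 2*l - 3*m + c + d - 2*U + 2*V - 6) 0 with h345 | h345
    · exact M6 X hb h1 h2 h3 h4 h5 h6 h7 h8 h9 h344 h345
    rcases lt_or_ge (-N + m - c - d - 2*V) 0 with h459 | h459
    · rcases lt_or_ge (-2*N - Q + 2*b + l + m + L + 2*U + 4) 0 with h460 | h460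
      · exact T0_71 X hb ⟨by have := kA 4 h459 (kA 2 h344 (kA 1 h4 (kA 2 h3 (kA 1 h2 (kC 2 b41 (kC 2 b39 (kC 3 b18 (kC 2 b11 (kC 2 b2 k0))))))))); clear * - this; omega, by have := kA 1 h460 (kA 1 h459 (kB 1 h345 (kA 1 h344 (kA 2 h3 (kA 2 h2 (kC 1 b41 (kC 1 b39 (kC 1 b33 (kC 1 b11 (kC 2 b2 k0)))))))))); clear * - this; omega⟩
      exact T0_31 X hb ⟨by clear * - h460; omega, by have := kA 1 h459 (kA 1 h344 (kA 1 h3 (kC 1 b41 (kC 1 b39 (kC 1 b18 (kC 1 b11 (kC 2 b2 k0))))))); clear * - this; omega⟩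
    exact T0_2 X hb ⟨by clear * - h459; omega, by clear * - h345; omega⟩
  rcases lt_or_ge (-m - d - Y - 1) 0 with h461 | h461
  · rcases lt_or_ge (-Q + i - 2*a - 2*b + 2*l + 2*m + 2*c + 2*U + 4) 0 with h462 | h462
    · rcases lt_or_ge (-N - a - b + l + 2*m - c + 2*U - 2*V + 2) 0 with h463 | h463
      · rcases lt_or_ge (-2*a - 2*b + l + 3*m - L + 2*U + 2*Y + 2) 0 with h464 | h464
        · rcases lt_or_ge (N + a - l - m - U - 3) 0 with h465 | h465
          · rcases lt_or_ge (N - a - l - m - U + V - 3) 0 with h466 | h466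
            · rcases lt_or_ge (-4*N - Q + l + 2*m - 2*c - 2*d + L - 2*V + 5) 0 with h467 | h467
              · exact T0_32 X hb ⟨by have := kA 11 h467 (kA 54 h466 (kA 22 h465 (kA 2 h464 (kA 10 h463 (kA 10 h461 (kB 11 h9 (kA 6 h8 (kA 2 h7 (kA 32 h4 (kA 46 h3 (kC 26 b41 (kC 35 b33 k0)))))))))))); clear * - this; omega, by have := kA 3 h466 (kA 2 h465 (kA 1 h464 (kA 1 h8 (kA 1 h6 (kA 2 h3 (kC 2 b41 (kC 1 b33 k0))))))); clear * - this; omega, by have := kA 1 h467 (kA 3 h466 (kA 1 h465 (kA 2 h464 (kA 1 h8 (kA 3 h3 (kA 1 h2 (kC 1 b41 (kC 2 b9 k0)))))))); clear * - this; omega, by have := kA 4 h467 (kA 30 h466 (kA 30 h465 (kA 3 h464 (kA 8 h463 (kA 3 h462 (kB 1 h344 (kB 7 h9 (kA 3 h8 (kA 14 h3 (kC 16 b41 (kC 17 b33 k0))))))))))); clear * - this; omega⟩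
              exact T0_35 X hb ⟨by clear * - h467; omega, by have := kA 1 h464 (kA 2 h463 (kA 2 h461 (kA 1 h8 (kA 4 h3 (kC 2 b43 (kC 2 b41 (kC 1 b33 (kC 1 b9 k0)))))))); clear * - this; omega⟩
            rcases lt_or_ge (-3*N - i - a + m - 2*c - 2*d + L - U - V + 2) 0 with h468 | h468
            · exact T0_189 X hb ⟨by have := kA 1 h468 (kA 1 h465 (kA 1 h464 (kA 3 h463 (kA 1 h462 (kA 2 h461 (kA 3 h3 (kA 1 h2 (kC 3 b45 (kC 3 b33 k0))))))))); clear * - this; omega, by have := kA 2 h465 (kA 1 h463 (kA 1 h462 (kC 1 b45 (kC 1 b33 k0)))); clear * - this; omega⟩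
            exact T0_12 X hb ⟨by clear * - h466; omega, by clear * - h468; omega⟩
          rcases lt_or_ge (-2*N - Q + 2*b + l + m + L + 2*U + 4) 0 with h469 | h469
          · exact T0_2 X hb ⟨by have := kA 2 h469 (kB 1 h465 (kA 1 h462 (kA 1 h6 (kA 2 h5 (kA 2 h4 (kA 3 h2 (kC 2 b33 k0))))))); clear * - this; omega, by have := kA 1 h469 (kA 1 h463 (kA 2 h461 (kA 1 h5 (kA 1 h4 (kA 2 h3 (kC 1 b43 (kC 1 b33 k0))))))); clear * - this; omega⟩
          exact T0_31 X hb ⟨by clear * - h469; omega, by clear * - h465; omega⟩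
        exact T0_21 X hb ⟨by clear * - b11 h5; omega, by clear * - h5 h344; omega, by have := kA 4 h463 (kA 2 h462 (kA 2 h2 (kC 3 b45 (kC 1 b43 (kC 3 b33 k0))))); clear * - this; omega, by have := kB 1 h464 (kA 4 h463 (kA 2 h462 (kA 2 h2 (kC 3 b45 (kC 3 b33 k0))))); clear * - this; omega, by clear * - h464; omega⟩
      exact T0_194 X hb ⟨by clear * - b19 h462; omega, by clear * - h463; omega⟩
    rcases lt_or_ge (N + c + d) 0 with h470 | h470
    · rcases lt_or_ge (2*N + i - 2*b + l - 3*m + 2*c - 2*Y - 2) 0 with h471 | h471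
      · rcases lt_or_ge (-2*a - 2*b + l + 3*m - L + 2*U + 2*Y + 2) 0 with h472 | h472
        · rcases lt_or_ge (-2*a - 4*b + l + m + L + 2*U + 3) 0 with h473 | h473
          · rcases lt_or_ge (-4*N - Q + l + 2*m - 2*c - 2*d + L - 2*V + 5) 0 with h474 | h474
            · rcases lt_or_ge (-3*N - i - a + m - 2*c - 2*d + L - U - V + 2) 0 with h475 | h475
              · rcases lt_or_ge (-2*N + i + 2*a + 2*b + 2*m + 2*Y + 2) 0 with h476 | h476
                · exact T0_11 X hb ⟨by have := kA 2 h473 (kA 2 h472 (kA 6 h470 (kB 3 h462 (kA 2 h461 (kC 2 b45 (kC 1 b41 (kC 3 b32 (kC 4 b2 k0)))))))); clear * - this; omega, by have := kA 1 h475 (kA 1 h472 (kA 4 h470 (kA 6 h461 (kA 1 h6 (kA 4 h1 (kC 1 b43 (kC 1 b42 (kC 1 b21 k0)))))))); clear * - this; omega, by have := kA 1 h476 (kA 1 h474 (kA 1 h472 (kA 2 h470 (kB 1 h462 (kA 2 h461 (kB 1 h344 k0)))))); clear * - this; omega, by have := kA 2 h472 (kA 2 h470 (kB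 1 h462 (kC 1 b45 (kC 2 b41 (kC 1 b32 (kC 4 b17 k0)))))); clear * - this; omega, by have := kA 1 h476 (kA 1 h473 (kA 1 h471 (kA 2 h470 (kC 1 b45 (kC 2 b33 (kC 4 b2 k0)))))); clear * - this; omega⟩
                exact T0_32 X hb ⟨by clear * - h1 h471; omega, by clear * - b6 h461 h470; omega, by have := kA 1 h474 (kA 2 h472 (kA 4 h470 (kB 1 h462 (kA 2 h461 (kC 1 b45 (kC 1 b9 (kC 2 b2 k0))))))); clear * - this; omega, by clear * - h476; omega⟩
              exact T0_12 X hb ⟨by have := kA 1 h473 (kA 2 h470 (kA 1 h8 (kC 1 b33 (kC 1 b9 k0)))); clear * - this; omega, by clear * - h475; omega⟩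
            exact T0_35 X hb ⟨by clear * - h474; omega, by have := kA 1 h473 (kA 2 h470 (kA 1 h8 (kC 1 b33 (kC 1 b9 (kC 2 b2 k0))))); clear * - this; omega⟩
          rcases lt_or_ge (-2*N - Q + i - 2*a - 2*b + 2*l + 2*m + L + 2*U + 6) 0 with h477 | h477
          · rcases lt_or_ge (-3*N - i - 2*a + m - 2*c - 2*d + L - U - V + 2) 0 with h478 | h478
            · rcases lt_or_ge (N + a - l - m - U - 3) 0 with h479 | h479
              · exact T0_149 X hb ⟨by have := kA 6 h479 (kA 2 h478 (kA 3 h477 (kB 3 h473 (kA 4 h472 (kA 6 h470 (kB 2 h462 (kA 4 h461 (kB 1 h9 (kC 2 b41 k0))))))))); clear * - this; omega, by have := kA 22 h479 (kA 4 h478 (kA 14 h477 (kB 11 h473 (kA 14 h472 (kA 4 h471 (kA 22 h470 (kB 9 h462 (kA 14 h461 (kB 3 h9 (kA 4 h5 (kA 2 h2 (kC 7 b41 k0)))))))))))); clear * - this; omega, by have := kA 4 h479 (kA 4 h477 (kB 2 h473 (kA 4 h472 (kA 10 h470 (kB 4 h462 (kA 8 h461 (kC 1 b45 (kC 1 b41 k0))))))));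 clear * - this; omega, by have := kA 10 h479 (kA 2 h478 (kA 7 h477 (kB 5 h473 (kA 8 h472 (kA 2 h471 (kA 14 h470 (kB 6 h462 (kA 8 h461 (kB 1 h9 (kC 4 b41 k0)))))))))); clear * - this; omega, by have := kA 2 h479 (kA 1 h477 (kA 2 h472 (kA 4 h470 (kB 1 h462 (kA 2 h461 (kC 1 b45 (kC 2 b9 (kC 2 b2 k0)))))))); clear * - this; omega, by have := kA 4 h479 (kA 2 h477 (kA 2 h472 (kA 6 h470 (kB 2 h462 (kA 4 h461 (kC 1 b45 (kC 1 b41 (kC 2 b33 k0)))))))); clear * - this; omega⟩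
              exact T0_31 X hb ⟨by have := kA 1 h472 (kA 1 h471 (kA 2 h470 (kB 1 h462 (kB 1 h344 (kA 2 h5 (kC 1 b43 k0)))))); clear * - this; omega, by clear * - h479; omega⟩
            rcases lt_or_ge (N - l - m - U + V - 3) 0 with h480 | h480
            · exact T0_30 X hb ⟨by have := kA 4 h480 (kB 1 h473 (kA 1 h472 (kA 1 h471 (kA 2 h470 (kA 1 h8 (kC 2 b43 (kC 2 b41 k0))))))); clear * - this; omega, by have := kA 2 h477 (kB 1 h473 (kA 1 h472 (kA 1 h471 (kA 2 h470 (kA 1 h8 k0))))); clear * - this; omega, by have := kA 4 h480 (kA 1 h477 (kA 1 h472 (kA 2 h470 (kB 1 h462 (kA 1 h8 (kC 1 b41 (kC 1 b33 (kC 1 b9 k0)))))))); clear * - this; omega⟩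
            exact T0_100 X hb ⟨by clear * - h478; omega, by clear * - h480; omega⟩
          exact T0_199 X hb ⟨by clear * - h5 h9 h471; omega, by clear * - h5 h9 h344; omega, by have := kA 3 h472 (kA 3 h471 (kA 4 h470 (kB 1 h462 (kA 2 h6 (kA 4 h5 (kC 2 b43 (kC 2 b41 (kC 1 b23 (kC 1 b18 (kC 4 b2 k0)))))))))); clear * - this; omega, by have := kA 2 h472 (kA 1 h471 (kA 3 h470 (kA 2 h6 (kA 1 h5 (kA 1 h1 (kC 1 b45 (kC 1 b43 (kC 2 b41 (kC 1 b38 (kC 4 b2 k0)))))))))); clear * - this; omega, by have := kA 3 h472 (kA 1 h471 (kA 4 h470 (kB 1 h462 (kA 2 h6 (kC 2 b41 (kC 1 b23 (kC 1 b18 (kC 4 b2 k0)))))))); clear * - this; omega, by have := kA 1 h472 (kA 1 h471 (kA 2 h470 (kC 1 b43 (kC 1 b41 (kC 1 b6 (kC 2 b2 k0)))))); clear * - this; omega, by clear * - h473; omega, by clear * - h477; omega⟩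
        exact T0_21 X hb ⟨by clear * - b11 h5; omega, by clear * - h5 h344; omega, by have := kA 1 h471 (kA 2 h470 (kB 1 h9 (kC 1 b43 (kC 1 b19 (kC 1 b6 (kC 2 b2 k0)))))); clear * - this; omega, by have := kA 1 h471 (kA 4 h470 (kB 1 h462 (kA 2 h6 (kC 1 b42 (kC 2 b41 (kC 1 b19 (kC 1 b18 (kC 4 b2 k0)))))))); clear * - this; omega, by clear * - h472; omega⟩
      rcases lt_or_ge (-i + 2*b - l - m - 2*d - 3) 0 with h481 | h481
      · rcases lt_or_ge (-N - a - b + 2*m - c + Y + 1) 0 with h482 | h482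
        · rcases lt_or_ge (-Q + i + b + l + c + d + 1) 0 with h483 | h483
          · exact T0_10 X hb ⟨by have := kA 14 h483 (kA 2 h481 (kA 2 h470 (kB 5 h9 (kA 2 h6 (kA 4 h4 (kA 2 h2 (kC 5 b41 (kC 5 b39 (kC 2 b6 (kC 6 b2 k0)))))))))); clear * - this; omega, by have := kA 3 h482 (kA 1 h481 (kA 1 h470 (kA 1 h461 (kA 2 h6 (kA 1 h4 (kC 1 b41 (kC 1 b33 k0))))))); clear * - this; omega, by have := kA 2 h483 (kA 2 h482 (kA 2 h461 (kB 1 h9 (kA 2 h2 (kC 1 b41 (kC 1 b39 k0)))))); clear * - this; omega⟩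
          exact T0_322 X hb ⟨by clear * - h483; omega, by have := kA 1 h482 (kA 3 h470 (kA 1 h461 (kA 1 h4 (kC 2 b43 (kC 2 b41 (kC 1 b36 (kC 1 b33 (kC 4 b2 k0)))))))); clear * - this; omega, by have := kB 1 h471 (kA 2 h461 (kB 1 h344 (kA 2 h5 (kC 1 b43 (kC 1 b21 k0))))); clear * - this; omega, by clear * - b11 h481; omega, by have := kA 2 h470 (kA 2 h4 (kC 1 b43 (kC 1 b41 (kC 1 b33 (kC 2 b6 (kC 2 b2 k0)))))); clear * - this; omega⟩
        rcases lt_or_ge (N + a + b - m + c - Y - 2) 0 with h484 | h484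
        · exact T0_126 X hb ⟨by have := kA 1 h484 (kB 1 h482 (kA 2 h5 (kC 1 b43 (kC 1 b21 k0)))); clear * - this; omega, by clear * - b6 h484; omega⟩
        exact T0_111 X hb ⟨by clear * - h461 h470 h484; omega, by clear * - h482; omega, by clear * - h484; omega, by have := kB 2 h484 (kB 3 h482 (kA 2 h470 (kA 2 h5 k0))); clear * - this; omega⟩
      rcases lt_or_ge (i + 2*a - 1) 0 with h485 | h485
      · rcases lt_or_ge (-N + 2*a + 2*b - 2*c - 1) 0 with h486 | h486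
        · exact T0_111 X hb ⟨by have := kA 1 h485 (kA 2 h470 (kA 2 h461 (kC 1 b43 (kC 1 b41 (kC 1 b35 (kC 2 b2 k0)))))); clear * - this; omega, by have := kA 2 h486 (kA 4 h470 (kA 4 h461 (kB 2 h344 (kC 2 b43 (kC 1 b42 (kC 1 b41 (kC 1 b39 k0))))))); clear * - this; omega, by have := kB 1 h481 (kA 2 h461 (kB 1 h9 (kC 1 b43 (kC 1 b19 (kC 1 b6 (kC 2 b2 k0)))))); clear * - this; omega, by have := kA 2 h486 (kA 1 h485 (kB 5 h481 (kB 6 h471 (kA 2 h470 (kA 12 h461 (kB 4 h344 (kC 2 b43 (kC 1 b41 (kC 1 b39 k0))))))))); clear * - this; omega⟩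
        exact T0_72 X hb ⟨by have := kA 4 h485 (kB 2 h471 (kA 4 h6 (kC 1 b43 (kC 3 b41 (kC 2 b39 (kC 1 b33 (kC 2 b18 (kC 8 b2 k0)))))))); clear * - this; omega, by clear * - h486; omega, by have := kA 4 h470 (kA 4 h461 (kC 2 b43 (kC 1 b42 (kC 1 b41 (kC 1 b39 k0))))); clear * - this; omega, by have := kA 2 h485 (kB 2 h471 (kB 2 h344 (kC 1 b43 (kC 1 b41 (kC 1 b33 k0))))); clear * - this; omega, by have := kA 2 h485 (kC 1 b43 (kC 1 b41 (kC 1 b33 (kC 4 b2 k0)))); clear * - this; omega⟩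
      rcases lt_or_ge (i + 2*a - 2*m - 2*d - 2*Y - 2) 0 with h487 | h487
      · rcases lt_or_ge (-N - Q + i + 2*a + 2*b + L + U + 2) 0 with h488 | h488
        · exact T0_111 X hb ⟨by have := kA 1 h487 (kB 3 h485 (kA 2 h470 (kA 2 h4 k0))); clear * - this; omega, by have := kA 4 h488 (kA 4 h487 (kB 4 h485 (kA 5 h470 (kB 1 h9 (kA 3 h2 (kC 1 b41 (kC 5 b33 (kC 3 b17 k0)))))))); clear * - this; omega, by have := kA 1 h487 (kB 1 h485 (kB 1 h481 (kB 1 h9 (kC 1 b43 (kC 1 b19 (kC 1 b6 (kC 2 b2 k0))))))); clear * - this; omega, by have := kA 4 h488 (kA 9 h487 (kB 13 h485 (kB 5 h481 (kB 1 h471 (kA 14 h470 (kB 4 h462 (kA 6 h5 (kC 6 b43 (kC 2 b41 (kC 6 b39 k0)))))))))); clear * - this; omega⟩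
        rcases lt_or_ge (-N - 2*a + l + m + U + 1) 0 with h489 | h489
        · rcases lt_or_ge (-N - Q + i + a + 2*b + L + U + 2) 0 with h490 | h490
          · exact T0_111 X hb ⟨by have := kA 1 h487 (kB 3 h485 (kA 2 h470 (kA 2 h4 k0))); clear * - this; omega, by have := kA 2 h490 (kA 1 h489 (kB 1 h488 (kA 1 h487 (kA 2 h470 (kB 1 h9 (kA 2 h6 (kC 1 b41 (kC 2 b33 (kC 1 b18 k0))))))))); clear * - this; omega, by have := kA 2 h490 (kB 2 h488 (kA 1 h487 (kB 1 h485 (kB 1 h481 (kB 1 h9 (kC 1 b43 (kC 1 b19 (kC 1 b6 k0)))))))); clear * - this; omega, by have := kA 2 h490 (kA 4 h487 (kB 5 h485 (kB 2 h481 (kA 8 h470 (kB 2 h462 (kA 4 h5 (kC 4 b43 (kC 2 b41 (kC 3 b39 (kC 1 b36 k0)))))))))); clear * - this; omega⟩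
          exact T0_176 X hb ⟨by clear * - h490; omega, by have := kA 1 h487 (kA 2 h470 (kC 1 b43 (kC 1 b6 k0))); clear * - this; omega⟩
        exact T0_99 X hb ⟨by clear * - h489; omega, by clear * - h488; omega⟩
      exact T0_285 X hb ⟨by clear * - h9 h481; omega, by clear * - h481; omega, by clear * - h344 h471; omega, by clear * - h471; omega, by clear * - h461; omega, by clear * - h487; omega⟩
    rcases lt_or_ge (-2*N - Q + i + l + 2*m - 2*d + 3) 0 with h491 | h491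
    · rcases lt_or_ge (-i + 2*b - l - m - 2*d - 3) 0 with h492 | h492
      · rcases lt_or_ge (-Q + i + b + l + c + d + 1) 0 with h493 | h493
        · exact T0_10 X hb ⟨by have := kA 14 h493 (kA 2 h492 (kB 5 h9 (kA 2 h6 (kA 4 h4 (kA 2 h3 (kA 2 h2 (kC 5 b41 (kC 5 b39 (kC 2 b6 (kC 6 b2 k0)))))))))); clear * - this; omega, by have := kA 5 h491 (kB 4 h9 (kA 6 h6 (kA 5 h4 (kA 4 h3 (kA 1 h2 (kC 4 b41 (kC 4 b33 (kC 5 b6 (kC 11 b2 k0))))))))); clear * - this; omega, by have := kA 2 h493 (kB 3 h9 (kA 2 h4 (kA 2 h3 (kA 2 h2 (kC 3 b41 (kC 1 b39 (kC 2 b33 (kC 2 b18 (kC 8 b2 k0))))))))); clear * - this; omega⟩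
        exact T0_322 X hb ⟨by clear * - h493; omega, by have := kA 2 h4 (kA 6 h3 (kC 5 b43 (kC 5 b41 (kC 2 b35 (kC 3 b33 (kC 10 b2 k0)))))); clear * - this; omega, by have := kA 1 h492 (kB 1 h344 (kA 2 h5 (kA 2 h1 (kC 1 b43 (kC 1 b21 k0))))); clear * - this; omega, by have := kA 1 h492 (kA 1 h491 (kB 1 h470 (kA 1 h2 (kC 1 b21 (kC 1 b17 k0))))); clear * - this; omega, by have := kA 2 h4 (kA 2 h3 (kC 1 b43 (kC 1 b41 (kC 1 b33 (kC 2 b6 (kC 2 b2 k0)))))); clear * - this; omega⟩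
      rcases lt_or_ge (i + 2*a - 2*m - 2*d - 2*Y - 2) 0 with h494 | h494
      · exact T0_34 X hb ⟨by have := kA 5 h494 (kB 5 h492 (kA 5 h491 (kB 8 h9 (kA 2 h6 (kA 8 h3 (kA 2 h2 (kC 3 b41 (kC 8 b33 (kC 5 b6 (kC 22 b2 k0)))))))))); clear * - this; omega, by have := kA 1 h494 (kA 2 h3 (kC 1 b43 (kC 1 b6 k0))); clear * - this; omega⟩
      exact T0_285 X hb ⟨by clear * - h9 h492; omega, by clear * - h492; omega, by have := kB 1 h494 (kA 2 h461 (kA 1 h8 (kA 2 h3 (kC 1 b45 (kC 1 b39 (kC 2 b2 k0)))))); clear * - this; omega, by have := kA 2 h491 (kB 1 h462 (kB 1 h9 (kA 2 h3 (kC 1 b21 (kC 2 b6 (kC 2 b2 k0)))))); clear * - this; omega, by clear * - h461; omega, by clear * - h494; omega⟩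
    rcases lt_or_ge (-2*N + Q - i - l + m - 2*c - 4*d - 1) 0 with h495 | h495
    · rcases lt_or_ge (-N - a + l + m + d + Y + 1) 0 with h496 | h496
      · rcases lt_or_ge (-2*N - Q + 2*b + l + m + L + 2*U + 4) 0 with h497 | h497
        · exact T0_2 X hb ⟨by have := kA 4 h497 (kA 2 h496 (kA 2 h495 (kA 8 h4 (kA 8 h3 (kA 2 h2 (kC 1 b41 (kC 5 b33 (kC 3 b18 (kC 1 b6 (kC 6 b2 k0)))))))))); clear * - this; omega, by have := kA 1 h497 (kA 2 h496 (kA 2 h495 (kA 2 h6 (kA 2 h4 (kA 5 h3 (kC 1 b41 (kC 2 b33 (kC 1 b6 (kC 2 b3 (kC 6 b2 k0)))))))))); clear * - this; omega⟩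
        exact T0_31 X hb ⟨by clear * - h497; omega, by have := kA 2 h496 (kA 1 h495 (kA 2 h3 (kC 1 b41 (kC 1 b39 (kC 1 b19 (kC 4 b2 k0)))))); clear * - this; omega⟩
      exact T0_251 X hb ⟨by have := kB 1 h496 (kA 2 h3 (kC 1 b43 (kC 1 b41 (kC 1 b33 (kC 1 b6 (kC 2 b2 k0)))))); clear * - this; omega, by have := kA 1 h495 (kB 1 h9 (kA 2 h3 (kC 1 b43 (kC 1 b41 (kC 1 b33 (kC 2 b2 k0)))))); clear * - this; omega, by clear * - h496; omega⟩
    rcases lt_or_ge (-2*N + 2*a + 2*b + l + m - 2*c + 2*U + 1) 0 with h498 | h498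
    · rcases lt_or_ge (N + a + b - m + c - Y - 2) 0 with h499 | h499
      · exact T0_126 X hb ⟨by have := kA 4 h499 (kA 1 h498 (kB 2 h344 (kA 6 h5 (kC 4 b43 (kC 3 b21 k0))))); clear * - this; omega, by clear * - b6 h499; omega⟩
      exact T0_111 X hb ⟨by clear * - h3 h461 h499; omega, by have := kB 1 h499 (kA 1 h498 (kA 4 h461 (kA 4 h3 (kC 1 b43 k0)))); clear * - this; omega, by clear * - h499; omega, by have := kA 1 h498 (kB 1 h495 (kB 3 h344 (kB 1 h9 (kA 4 h5 (kC 1 b43 k0))))); clear * - this; omega⟩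
    exact T0_198 X hb ⟨by clear * - h470; omega, by clear * - h3; omega, by clear * - b43 h3 h461; omega, by clear * - h498; omega, by have := kA 2 h461 (kB 1 h344 (kA 2 h5 (kA 2 h3 (kC 1 b43 (kC 1 b42 k0))))); clear * - this; omega, by clear * - h495; omega, by clear * - h462; omega, by clear * - h491; omega, by have := kA 4 h461 (kA 2 h5 (kA 2 h3 (kC 2 b43 (kC 1 b42 (kC 1 b41 (kC 1 b39 k0)))))); clear * - this; omega⟩
  exact T0_85 X hb ⟨by clear * - h9; omega, by have := kB 1 h344 (kA 2 h5 (kC 1 b11 (kC 1 b6 k0))); clear * - this; omega, by clear * - h344; omega, by clear * - h461; omega⟩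

end Pool.Agent.MP_a38735_al.WL.E342
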