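import Pool.Agent.MP_a38735_al.E342t0
import Pool.Agent.MP_a38735_al.E342t1
import Pool.Agent.MP_a38735_al.E342t2
import Pool.Agent.MP_a38735_al.E342t3

set_option autoImplicit false
set_option linter.unusedVariables false
set_option linter.unusedSimpArgs false

namespace Pool.Agent.MP_a38735_al.WL.E342

variable {G : Type*} [Group G]

variable {W : ℤ → G} {N Q i a b l m c d L U V Y : ℤ}

theorem M8 (X : C W N Q i a b l m c d L U V Y) (hb : B N Q i a b l m c d L U V Y)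
    (h1 : (-N + m - c) < 0)
    (h2 : (3*N + Q - i - 2*l - 3*m + c + d - 2*U + V - 6) < 0)
    (h3 : (N + c + d - 1) < 0)
    (h4 : (i + a - b) < 0)
    (h5 : (-2*N + 2*m - 2*c - d + 1) < 0)
    (h6 : (N + a - l - m - U - V - 3) < 0)
    (h7 : (-2*N + i + a + 2*m - c - d + Y + 2) < 0)
    (h8 : (-2*N - i + 2*a + 2*b - l + m - 2*c - 2*d - 2*V - 1) < 0)
    (h9 : (-Q + i + l - m - 2*Y + 1) < 0)
    (h10 : (-2*N + Q - i - a + 2*m - c - d + Y + 1) < 0)
    (h11 : (-Q + i + l - m - 2*Y + 2) ≥ 0)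
    (h202 : (Q - i - l - m - 2*d - 3) < 0) : False := by
  have b2 := hb.b2
  have b3 := hb.b3
  have b4 := hb.b4
  have b6 := hb.b6
  have b9 := hb.b9
  have b11 := hb.b11
  have b17 := hb.b17
  have b18 := hb.b18
  have b19 := hb.b19
  have b21 := hb.b21
  have b33 := hb.b33
  have b36 := hb.b36
  have b39 := hb.b39
  have b41 := hb.b41
  have b42 := hb.b42
  have b43 := hb.b43
  have b45 := hb.b45
  rcases lt_or_ge (-Q + i - 2*a - 2*b + 2*l + 2*m + 2*c + 2*U + 4) 0 with h203 | h203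
  · rcases lt_or_ge (-N - a - b + l + 2*m - c + 2*U - 2*V + 2) 0 with h204 | h204
    · rcases lt_or_ge (-2*a - 2*b + l + 3*m - L + 2*U + 2*Y + 2) 0 with h205 | h205
      · rcases lt_or_ge (N - b - m - Y - 2) 0 with h206 | h206
        · exact T0_34 X hb ⟨by have := kA 2 h204 (kA 1 h203 (kA 1 h10 (kA 1 h9 (kA 1 h7 (kA 2 h2 (kC 1 b45 (kC 2 b33 k0))))))); clear * - this; omega, by have := kA 4 h206 (kA 1 h205 (kA 1 h8 (kA 2 h3 (kC 1 b45 (kC 1 b43 (kC 1 b9 (kC 2 b2 k0))))))); clear * - this; omega⟩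
        rcases lt_or_ge (-2*N + i + 2*a + 2*b + 2*m + 2*Y + 2) 0 with h207 | h207
        · rcases lt_or_ge (-4*N - Q + l + 2*m - 2*c - 2*d + L - 2*V + 5) 0 with h208 | h208
          · exact T0_2 X hb ⟨by have := kA 2 h205 (kA 2 h204 (kA 1 h203 (kA 1 h9 (kA 1 h3 (kA 2 h2 (kC 4 b45 (kC 1 b41 (kC 3 b33 k0)))))))); clear * - this; omega, by have := kA 2 h208 (kA 3 h207 (kA 3 h205 (kA 2 h204 (kA 1 h202 (kA 5 h9 (kA 1 h8 (kA 2 h3 (kA 2 h2 (kC 1 b41 k0))))))))); clear * - this; omega⟩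
          exact T0_35 X hb ⟨by clear * - h208; omega, by have := kB 1 h208 (kA 2 h207 (kA 2 h205 (kA 6 h204 (kA 3 h202 (kA 4 h9 (kA 3 h8 (kA 10 h3 (kC 7 b43 (kC 7 b41 (kC 4 b33 k0)))))))))); clear * - this; omega⟩
        exact T0_32 X hb ⟨by have := kB 2 h206 (kA 6 h205 (kA 1 h10 (kA 9 h9 (kA 2 h8 (kA 5 h7 (kA 4 h6 (kA 2 h3 (kA 8 h2 (kC 2 b43 (kC 6 b41 k0)))))))))); clear * - this; omega, by have := kA 2 h204 (kA 1 h202 (kA 1 h9 (kA 2 h3 (kC 1 b45 (kC 1 b33 (kC 1 b18 k0)))))); clear * - this; omega, by clear * - h206; omega, by clear * - h207; omega⟩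
      exact T0_21 X hb ⟨by clear * - h7 h9 h10; omega, by have := kA 1 h202 (kA 1 h9 (kA 1 h5 (kA 1 h3 (kA 1 h1 k0)))); clear * - this; omega, by have := kA 4 h204 (kA 2 h203 (kA 2 h2 (kC 3 b45 (kC 1 b43 (kC 3 b33 k0))))); clear * - this; omega, by have := kB 2 h205 (kA 4 h204 (kA 2 h203 (kA 2 h9 (kA 2 h3 (kA 4 h2 (kC 2 b45 (kC 3 b43 (kC 2 b41 (kC 3 b39 k0))))))))); clear * - this; omega, by clear * - h205; omega⟩
    exact T0_194 X hb ⟨by clear * - b19 h203; omega, by clear * - h204; omega⟩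
  rcases lt_or_ge (N + c + d) 0 with h209 | h209
  · rcases lt_or_ge (2*N + i - 2*b + l - 3*m + 2*c - 2*Y - 2) 0 with h210 | h210
    · rcases lt_or_ge (-2*a - 2*b + l + 3*m - L + 2*U + 2*Y + 2) 0 with h211 | h211
      · rcases lt_or_ge (-2*N - 2*a - 2*b + l + 3*m + L + 2*U + 2*Y + 5) 0 with h212 | h212
        · rcases lt_or_ge (-3*N - i - 2*a + m - 2*c - 2*d + L - U - V + 2) 0 with h213 | h213
          · exact T0_31 X hb ⟨by have := kA 2 h211 (kA 1 h210 (kA 2 h209 (kB 1 h203 (kA 2 h10 (kA 2 h9 (kA 2 h6 (kC 1 b45 k0))))))); clear * - this; omega, by have := kA 2 h213 (kA 2 h212 (kA 6 h211 (kA 1 h210 (kA 12 h209 (kB 4 h203 (kA 3 h202 (kA 7 h9 (kA 1 h8 (kC 2 b45 (kC 2 b9 k0)))))))))); clear * - this; omega⟩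
          rcases lt_or_ge (N - l - m - U + V - 3) 0 with h214 | h214
          · exact T0_30 X hb ⟨by have := kA 2 h209 (kA 1 h202 (kA 1 h9 (kC 1 b45 (kC 1 b43 (kC 1 b33 k0))))); clear * - this; omega, by have := kA 1 h212 (kA 1 h211 (kA 2 h209 (kA 2 h9 (kA 1 h8 (kC 1 b11 k0))))); clear * - this; omega, by have := kA 4 h214 (kA 2 h211 (kA 2 h209 (kB 1 h203 (kA 1 h9 (kA 1 h8 (kC 1 b43 (kC 2 b41 (kC 1 b9 k0)))))))); clear * - this; omega⟩
          exact T0_100 X hb ⟨by clear * - h213; omega, by clear * - h214; omega⟩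
        exact T0_267 X hb ⟨by clear * - h7 h9 h10; omega, by have := kA 1 h209 (kA 1 h202 (kA 1 h9 (kA 1 h5 (kA 1 h1 k0)))); clear * - this; omega, by have := kA 2 h211 (kA 1 h209 (kA 1 h9 (kA 1 h2 (kC 1 b45 (kC 1 b41 (kC 3 b17 k0)))))); clear * - this; omega, by clear * - h212; omega⟩
      exact T0_21 X hb ⟨by clear * - h7 h9 h10; omega, by have := kA 1 h209 (kA 1 h202 (kA 1 h9 (kA 1 h5 (kA 1 h1 k0)))); clear * - this; omega, by have := kA 1 h210 (kA 2 h209 (kB 1 h11 (kC 1 b43 (kC 1 b19 (kC 1 b6 (kC 2 b2 k0)))))); clear * - this; omega, by have := kA 1 h209 (kA 1 h9 (kA 1 h2 (kC 1 b42 (kC 1 b41 (kC 1 b17 k0))))); clear * - this; omega, by clear * - h211; omega⟩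
    rcases lt_or_ge (-Q + 2*b - 2*m - 2*d - 2*Y - 2) 0 with h215 | h215
    · rcases lt_or_ge (-N - a - b + 2*m - c + Y + 1) 0 with h216 | h216
      · rcases lt_or_ge (-Q + i + b + l + c + d + 1) 0 with h217 | h217
        · exact T0_10 X hb ⟨by have := kA 14 h217 (kA 2 h215 (kA 2 h209 (kB 7 h11 (kA 2 h6 (kA 4 h4 (kA 2 h2 (kC 5 b41 (kC 5 b39 (kC 2 b6 (kC 6 b2 k0)))))))))); clear * - this; omega, by have := kA 6 h216 (kA 2 h215 (kA 2 h209 (kA 1 h202 (kB 1 h11 (kA 4 h6 (kA 2 h4 (kC 2 b41 (kC 2 b33 k0)))))))); clear * - this; omega, by have := kA 2 h217 (kA 2 h216 (kA 1 h202 (kA 2 h2 (kC 1 b41 (kC 1 b39 k0))))); clear * - this; omega⟩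
        exact T0_322 X hb ⟨by clear * - h217; omega, by have := kB 1 h217 (kA 8 h216 (kA 3 h215 (kA 4 h209 (kA 1 h202 (kA 1 h9 (kA 2 h6 (kA 2 h2 (kC 2 b43 (kC 2 b41 (kC 2 b33 (kC 3 b21 k0))))))))))); clear * - this; omega, by have := kB 1 h217 (kA 1 h215 (kA 6 h209 (kB 2 h203 (kA 1 h202 (kA 5 h10 (kA 8 h9 (kA 1 h7 (kC 2 b43 (kC 6 b42 (kC 2 b41 (kC 2 b39 k0))))))))))); clear * - this; omega, by have := kA 2 h215 (kA 2 h209 (kB 2 h11 (kA 2 h4 (kC 1 b43 (kC 1 b41 (kC 1 b33 (kC 2 b2 k0))))))); clear * - this; omega, by have := kA 10 h216 (kA 2 h209 (kA 4 h9 (kA 4 h6 (kA 6 h4 (kA 4 h2 (kC 3 b43 (kC 4 b41 (kC 4 b33 (kC 5 b21 (kC 11 b6 k0)))))))))); clear * - this; omega⟩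
      rcases lt_or_ge (N + a + b - m + c - Y - 2) 0 with h218 | h218
      · exact T0_126 X hb ⟨by have := kA 1 h218 (kB 1 h216 (kA 2 h5 (kC 1 b43 (kC 1 b21 k0)))); clear * - this; omega, by clear * - b6 h218; omega⟩
      exact T0_111 X hb ⟨by have := kB 1 h218 (kA 2 h209 (kA 1 h202 (kA 1 h9 k0))); clear * - this; omega, by clear * - h216; omega, by clear * - h218; omega, by have := kB 2 h218 (kB 3 h216 (kA 2 h209 (kA 2 h5 k0))); clear * - this; omega⟩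
    rcases lt_or_ge (i + 2*a - 1) 0 with h219 | h219
    · rcases lt_or_ge (-N + 2*a + 2*b - 2*c - 1) 0 with h220 | h220
      · exact T0_111 X hb ⟨by have := kA 2 h209 (kA 1 h202 (kA 2 h9 (kC 1 b42 (kC 1 b4 k0)))); clear * - this; omega, by have := kA 2 h220 (kA 6 h209 (kA 4 h202 (kA 4 h9 (kC 2 b43 (kC 1 b42 (kC 1 b41 (kC 1 b36 (kC 1 b21 k0)))))))); clear * - this; omega, by have := kB 1 h215 (kA 1 h202 (kA 1 h9 (kC 1 b43 (kC 1 b19 (kC 1 b6 (kC 2 b2 k0)))))); clear * - this; omega, by have := kB 2 h215 (kB 4 h210 (kA 6 h209 (kB 2 h203 (kA 5 h202 (kA 9 h9 (kA 2 h4 (kC 2 b43 (kC 2 b41 (kC 2 b39 k0))))))))); clear * - this; omega⟩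
      exact T0_72 X hb ⟨by have := kA 2 h219 (kB 1 h210 (kB 1 h203 (kA 1 h9 (kC 1 b42 (kC 1 b41 (kC 1 b36 (kC 2 b2 k0))))))); clear * - this; omega, by clear * - h220; omega, by have := kA 4 h209 (kA 2 h202 (kA 2 h9 (kC 2 b43 (kC 1 b42 (kC 1 b41 (kC 1 b39 k0)))))); clear * - this; omega, by have := kA 4 h219 (kB 4 h210 (kA 12 h209 (kB 2 h203 (kA 6 h202 (kA 8 h9 (kC 8 b43 (kC 1 b42 (kC 5 b41 (kC 5 b39 k0))))))))); clear * - this; omega, by have := kA 2 h219 (kC 1 b43 (kC 1 b41 (kC 1 b33 (kC 4 b2 k0)))); clear * - this; omega⟩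
    rcases lt_or_ge (i + 2*a - 2*m - 2*d - 2*Y - 2) 0 with h221 | h221
    · rcases lt_or_ge (-N - Q + i + 2*a + 2*b + L + U + 2) 0 with h222 | h222
      · exact T0_111 X hb ⟨by have := kA 1 h221 (kB 3 h219 (kA 2 h209 (kA 2 h4 k0))); clear * - this; omega, by have := kA 4 h222 (kA 3 h221 (kB 3 h219 (kA 5 h209 (kA 1 h202 (kA 3 h2 (kC 1 b41 (kC 5 b33 (kC 3 b17 k0)))))))); clear * - this; omega, by have := kA 1 h221 (kB 1 h219 (kB 1 h215 (kC 1 b43 (kC 1 b19 (kC 1 b6 (kC 2 b2 k0)))))); clear * - this; omega, by have := kA 2 h222 (kA 4 h221 (kB 7 h219 (kB 5 h215 (kB 1 h210 (kA 6 h209 (kB 3 h203 (kA 3 h10 (kA 9 h9 (kA 2 h8 (kA 1 h7 (kC 2 b45 (kC 4 b39 k0)))))))))))); clear * - this; omega⟩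
      rcases lt_or_ge (-N - 2*a + l + m + U + 1) 0 with h223 | h223
      · rcases lt_or_ge (-N - Q + i + a + 2*b + L + U + 2) 0 with h224 | h224
        · exact T0_111 X hb ⟨by have := kA 1 h221 (kB 3 h219 (kA 2 h209 (kA 2 h4 k0))); clear * - this; omega, by have := kA 2 h224 (kA 1 h223 (kB 1 h222 (kA 1 h221 (kA 2 h209 (kB 1 h11 (kA 2 h6 (kC 1 b41 (kC 2 b33 (kC 1 b18 k0))))))))); clear * - this; omega, by have := kA 2 h224 (kB 2 h222 (kA 1 h221 (kB 1 h219 (kB 1 h215 (kC 1 b43 (kC 1 b19 (kC 1 b6 k0))))))); clear * - this; omega, by have := kA 2 h224 (kA 4 h221 (kB 6 h219 (kB 6 h215 (kB 1 h210 (kA 6 h209 (kB 3 h203 (kA 4 h10 (kA 11 h9 (kA 3 h8 (kC 3 b45 (kC 5 b39 k0))))))))))); clear * - this; omega⟩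
        exact T0_176 X hb ⟨by clear * - h224; omega, by have := kA 1 h221 (kA 2 h209 (kC 1 b43 (kC 1 b6 k0))); clear * - this; omega⟩
      exact T0_99 X hb ⟨by clear * - h223; omega, by clear * - h222; omega⟩
    exact T0_285 X hb ⟨by clear * - h215; omega, by clear * - h9 h215; omega, by have := kB 1 h221 (kB 2 h210 (kA 6 h209 (kB 1 h203 (kA 4 h202 (kA 5 h9 (kC 1 b43 (kC 2 b42 (kC 1 b41 (kC 1 b39 k0))))))))); clear * - this; omega, by clear * - h210; omega, by clear * - h9 h202; omega, by clear * - h221; omega⟩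
  rcases lt_or_ge (-2*N - Q + i + l + 2*m - 2*d + 3) 0 with h225 | h225
  · rcases lt_or_ge (-N + i + 2*a + b + m + Y + 1) 0 with h226 | h226
    · rcases lt_or_ge (-Q + i - 2*a - 2*b + l + 2*m + 2*c + 2*Y + 3) 0 with h227 | h227
      · rcases lt_or_ge (N + Q - i + a + b - 2*l - 2*m - c - 2*U + V - 5) 0 with h228 | h228
        · exact T0_153 X hb ⟨by have := kA 2 h226 (kA 3 h225 (kB 1 h203 (kB 2 h11 (kA 2 h3 (kC 1 b41 (kC 1 b33 (kC 2 b6 (kC 6 b2 k0)))))))); clear * - this; omega, by have := kA 1 h228 (kA 1 h227 (kA 1 h9 (kA 1 h5 (kA 1 h4 (kA 1 h2 (kC 1 b41 (kC 1 b39 (kC 2 b17 k0)))))))); clear * - this; omega, by have := kA 1 h9 (kA 1 h3 (kA 1 h2 (kC 1 b42 (kC 1 b41 (kC 1 b36 (kC 1 b17 k0)))))); clear * - this; omega, by have := kA 1 h227 (kA 1 h9 (kA 2 h2 (kC 1 b41 (kC 1 b39 (kC 2 b17 (kC 1 b6 k0)))))); clear * - this; omega⟩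
        exact T0_30 X hb ⟨by have := kB 5 h228 (kA 4 h227 (kA 5 h225 (kB 8 h203 (kA 2 h9 (kA 2 h3 (kA 8 h2 (kC 2 b45 (kC 2 b41 (kC 4 b39 k0))))))))); clear * - this; omega, by clear * - h228; omega, by have := kB 1 h228 (kA 2 h226 (kA 1 h225 (kA 2 h2 (kC 1 b41 (kC 1 b33 (kC 2 b6 (kC 2 b2 k0))))))); clear * - this; omega⟩
      exact T0_253 X hb ⟨by have := kB 1 h209 (kA 3 h9 (kA 1 h2 (kC 1 b43 (kC 1 b42 (kC 1 b41 (kC 1 b39 (kC 1 b17 k0))))))); clear * - this; omega, by have := kA 2 h225 (kA 1 h202 (kB 1 h11 (kA 6 h3 (kC 2 b43 (kC 1 b42 (kC 1 b41 (kC 1 b39 k0))))))); clear * - this; omega, by clear * - b4 b42 h9; omega, by clear * - h227; omega⟩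
    rcases lt_or_ge (-N - 2*a - b + l + m + Y + 1) 0 with h229 | h229
    · rcases lt_or_ge (N + Q - i + a + b - 2*l - 2*m - c - 2*U - 5) 0 with h230 | h230
      · rcases lt_or_ge (-4*N + i + 2*a + 2*b + 2*m - 2*c - 4*d + 2) 0 with h231 | h231
        · exact T0_31 X hb ⟨by have := kA 2 h230 (kA 1 h229 (kB 1 h226 (kA 1 h225 (kA 2 h4 (kA 2 h3 (kC 1 b39 k0)))))); clear * - this; omega, by have := kA 1 h231 (kA 2 h229 (kA 1 h9 (kA 1 h6 (kA 3 h3 (kA 1 h2 (kC 1 b42 (kC 1 b41 (kC 1 b39 (kC 1 b6 k0))))))))); clear * - this; omega⟩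
        exact T0_218 X hb ⟨by have := kB 3 h231 (kA 2 h230 (kA 5 h229 (kA 1 h202 (kA 3 h9 (kA 5 h7 (kA 4 h6 (kA 1 h4 (kA 7 h3 (kC 2 b45 (kC 2 b41 (kC 4 b39 k0))))))))))); clear * - this; omega, by have := kA 2 h230 (kA 2 h225 (kC 1 b42 (kC 1 b41 (kC 1 b39 (kC 2 b2 k0))))); clear * - this; omega, by have := kB 1 h231 (kA 2 h230 (kA 1 h229 (kB 1 h226 (kA 1 h225 (kA 1 h202 (kA 2 h10 (kA 6 h4 (kA 2 h3 (kC 1 b41 (kC 1 b39 k0)))))))))); clear * - this; omega, by have := kB 1 h231 (kA 2 h230 (kA 1 h225 (kA 1 h9 (kA 2 h3 (kC 2 b42 (kC 1 b41 (kC 1 b39 (kC 1 b6 k0)))))))); clear * - this; omega, by clear * - h231; omega⟩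
      exact T0_194 X hb ⟨by clear * - h230; omega, by have := kB 3 h230 (kA 1 h225 (kB 2 h203 (kA 2 h2 k0))); clear * - this; omega⟩
    exact T0_137 X hb ⟨by clear * - h226; omega, by have := kA 1 h225 (kB 1 h203 (kB 1 h11 (kA 2 h3 (kC 1 b43 (kC 1 b41 (kC 1 b39 (kC 1 b3 k0))))))); clear * - this; omega, by clear * - h229; omega⟩
  rcases lt_or_ge (-2*N + 2*a + 2*b + l + m - 2*c + 2*U + 1) 0 with h232 | h232
  · rcases lt_or_ge (N + a + b - m + c - Y - 2) 0 with h233 | h233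
    · exact T0_126 X hb ⟨by have := kA 8 h233 (kA 1 h232 (kB 3 h225 (kA 5 h10 (kA 8 h9 (kA 5 h7 (kA 4 h3 (kC 7 b43 (kC 3 b42 (kC 3 b41 (kC 3 b39 k0)))))))))); clear * - this; omega, by clear * - b6 h233; omega⟩
    exact T0_111 X hb ⟨by have := kB 1 h233 (kA 1 h202 (kA 1 h9 (kA 2 h3 k0))); clear * - this; omega, by have := kB 1 h233 (kA 1 h232 (kA 2 h202 (kA 2 h9 (kA 4 h3 (kC 1 b43 k0))))); clear * - this; omega, by clear * - h233; omega, by have := kB 5 h233 (kA 3 h232 (kA 6 h202 (kA 6 h9 (kA 2 h5 (kA 14 h3 (kC 3 b43 k0)))))); clear * - this; omega⟩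
  exact T0_198 X hb ⟨by clear * - h209; omega, by clear * - h3; omega, by have := kA 1 h202 (kA 1 h9 (kA 2 h3 (kC 1 b43 k0))); clear * - this; omega, by clear * - h232; omega, by have := kA 2 h202 (kA 2 h9 (kA 1 h5 (kA 3 h3 (kA 1 h1 (kC 1 b43 (kC 1 b42 k0)))))); clear * - this; omega, by have := kB 1 h225 (kA 1 h9 (kA 2 h3 (kC 1 b43 (kC 1 b19 k0)))); clear * - this; omega, by clear * - h203; omega, by clear * - h225; omega, by have := kA 2 h202 (kA 2 h9 (kA 2 h5 (kA 2 h3 (kC 2 b43 (kC 1 b42 (kC 1 b41 (kC 1 b39 k0))))))); clear * - this; omega⟩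

theorem M9 (X : C W N Q i a b l m c d L U V Y) (hb : B N Q i a b l m c d L U V Y)
    (h1 : (-N + m - c) < 0)
    (h2 : (3*N + Q - i - 2*l - 3*m + c + d - 2*U + V - 6) < 0)
    (h3 : (N + c + d - 1) < 0)
    (h4 : (i + a - b) < 0)
    (h5 : (-2*N + 2*m - 2*c - d + 1) < 0)
    (h6 : (N + a - l - m - U - V - 3) < 0)
    (h7 : (-2*N + i + a + 2*m - c - d + Y + 2) < 0)
    (h8 : (-2*N - i + 2*a + 2*b - l + m - 2*c - 2*d - 2*V - 1) < 0)
    (h9 : (-Q + i + l - m - 2*Y + 1) < 0)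
    (h10 : (-2*N + Q - i - a + 2*m - c - d + Y + 1) < 0)
    (c0x : (-N + m - c) < 0 → (3*N + Q - i - 2*l - 3*m + c + d - 2*U + V - 6) < 0 → (N + c + d - 1) < 0 → (i + a - b) < 0 → (-2*N + 2*m - 2*c - d + 1) < 0 → (N + a - l - m - U - V - 3) < 0 → (-2*N + i + a + 2*m - c - d + Y + 2) < 0 → (-2*N - i + 2*a + 2*b - l + m - 2*c - 2*d - 2*V - 1) < 0 → (-2*N + Q - i - a + 2*m - c - d + Y + 1) < 0 → (-Q + i + l - m - 2*Y + 2) < 0 → False) : False := by
  have b2 := hb.b2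
  have b7 := hb.b7
  have b11 := hb.b11
  have b17 := hb.b17
  have b18 := hb.b18
  have b19 := hb.b19
  have b21 := hb.b21
  have b33 := hb.b33
  have b35 := hb.b35
  have b36 := hb.b36
  have b38 := hb.b38
  have b39 := hb.b39
  have b41 := hb.b41
  have b42 := hb.b42
  have b43 := hb.b43
  have b44 := hb.b44
  have b45 := hb.b45
  rcases lt_or_ge (-Q + i + l - m - 2*Y + 2) 0 with h11 | h11
  · exact c0x h1 h2 h3 h4 h5 h6 h7 h8 h10 h11
  rcases lt_or_ge (Q - i - l - m - 2*d - 3) 0 with h202 | h202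
  · exact M8 X hb h1 h2 h3 h4 h5 h6 h7 h8 h9 h10 h11 h202
  rcases lt_or_ge (-2*N + 3*m - 2*c + 2*Y + 2) 0 with h234 | h234
  · rcases lt_or_ge (-2*N + Q - i - 2*l - 2*c - 4*d - 2*U - 3) 0 with h235 | h235
    · rcases lt_or_ge (-N + a + b - c - d - Y - 1) 0 with h236 | h236
      · rcases lt_or_ge (N - a - b + c + d + Y - 1) 0 with h237 | h237
        · rcases lt_or_ge (2*N + Q - i - a - b - m + c + 2*d + V - 2) 0 with h238 | h238
          · rcases lt_or_ge (-3*N + 2*a + 2*b + 2*m - 2*c - 2*d - V + 2) 0 with h239 | h239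
            · rcases lt_or_ge (-2*N + Q - i + 2*a + 2*b - 2*l + 2*m - 2*c - 2*d - 2*U + 2*Y - 1) 0 with h240 | h240
              · rcases lt_or_ge (-2*N - Q + 2*b + l + m + L + 2*U + 4) 0 with h241 | h241
                · exact T0_73 X hb ⟨by have := kA 1 h241 (kA 3 h240 (kA 4 h238 (kA 6 h237 (kA 2 h235 (kA 6 h9 (kA 2 h6 (kA 2 h4 (kC 3 b39 (kC 1 b18 (kC 2 b2 k0)))))))))); clear * - this; omega, by have := kA 1 h240 (kA 2 h237 (kA 1 h9 (kC 1 b41 (kC 1 b39 (kC 2 b2 k0))))); clear * - this; omega⟩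
                exact T0_31 X hb ⟨by clear * - h241; omega, by have := kA 1 h240 (kA 2 h237 (kA 1 h9 (kC 1 b41 (kC 1 b39 (kC 2 b2 k0))))); clear * - this; omega⟩
              rcases lt_or_ge (-4*N - Q + i + l + 4*m - 2*c - 2*d - 2*V + 2*Y + 5) 0 with h242 | h242
              · rcases lt_or_ge (-2*N - Q + 2*b + l + m + L + 2*U + 4) 0 with h243 | h243
                · exact T0_15 X hb ⟨by have := kB 3 h240 (kA 2 h239 (kA 14 h238 (kA 10 h236 (kA 3 h235 (kB 2 h202 (kA 6 h8 (kA 6 h4 (kC 8 b42 k0)))))))); clear * - this; omega, by have := kA 1 h243 (kA 2 h242 (kB 1 h240 (kA 4 h238 (kA 4 h237 (kA 3 h235 (kA 3 h9 (kA 2 h3 (kC 1 b39 (kC 1 b11 (kC 2 b2 k0)))))))))); clear * - this; omega, by have := kA 1 h243 (kA 2 h239 (kA 2 h237 (kA 1 h9 (kA 2 h2 (kC 1 b39 (kC 1 b11 k0)))))); clear * - this; omega, by have := kA 16 h242 (kB 19 h240 (kA 6 h239 (kA 18 h238 (kA 26 h236 (kA 1 h235 (kB 16 h11 (kA 8 h6 (kA 14 h4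 (kC 14 b18 (kC 20 b2 k0)))))))))); clear * - this; omega⟩
                exact T0_31 X hb ⟨by clear * - h243; omega, by have := kA 2 h242 (kB 2 h240 (kA 2 h238 (kA 6 h236 (kB 2 h11 (kA 2 h3 (kC 1 b42 (kC 1 b18 (kC 1 b11 (kC 2 b2 k0))))))))); clear * - this; omega⟩
              exact T0_47 X hb ⟨by clear * - h240; omega, by clear * - h237 h239; omega, by clear * - h202 h235 h240; omega, by clear * - h242; omega⟩
            exact T0_317 X hb ⟨by have := kB 2 h239 (kA 8 h236 (kA 1 h8 (kA 4 h3 (kC 1 b43 (kC 3 b42 (kC 1 b21 k0)))))); clear * - this; omega, by have := kA 2 h236 (kA 2 h3 (kC 1 b43 (kC 1 b42 (kC 1 b41 (kC 1 b39 (kC 2 b17 k0)))))); clear * - this; omega, by have := kB 2 h239 (kA 2 h236 (kA 1 h234 (kC 1 b11 k0))); clear * - this; omega, by have := kA 2 h236 (kA 2 h10 (kA 2 h9 (kA 2 h6 (kA 2 h3 (kC 1 b43 (kC 2 b42 (kC 1 b41 (kC 1 b39 k0)))))))); clear * - this; omega, by clear * - h239; omega,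 by have := kA 4 h236 (kA 1 h234 (kB 1 h11 (kC 2 b17 (kC 1 b7 k0)))); clear * - this; omega⟩
          rcases lt_or_ge (-2*N - a + b + m - c - 2*d - V) 0 with h244 | h244
          · rcases lt_or_ge (-4*N + i + 2*a + 2*b + 4*m - 2*c - 2*d + 2*Y + 4) 0 with h245 | h245
            · rcases lt_or_ge (-3*N - i - 2*a + m - 2*c - 2*d + L - U - V + 2) 0 with h246 | h246
              · rcases lt_or_ge (3*N + Q - i - 2*l - 3*m + c + d - 2*U + 2*V - 6) 0 with h247 | h247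
                · rcases lt_or_ge (-a - b + l + m + d + 2*U - V + 1) 0 with h248 | h248
                  · exact T0_47 X hb ⟨by have := kA 2 h248 (kA 1 h9 (kC 1 b18 (kC 1 b11 k0))); clear * - this; omega, by have := kA 2 h247 (kA 2 h246 (kA 3 h245 (kA 4 h237 (kA 2 h9 (kA 4 h6 (kA 2 h3 (kC 2 b41 (kC 3 b39 (kC 1 b36 k0))))))))); clear * - this; omega, by have := kA 2 h248 (kA 8 h247 (kA 12 h246 (kA 1 h245 (kA 2 h244 (kA 14 h237 (kA 15 h9 (kA 3 h8 (kA 14 h4 (kA 12 h3 (kC 3 b45 (kC 15 b39 k0))))))))))); clear * - this; omega, by have := kA 2 h248 (kA 1 h247 (kA 2 h236 (kA 1 h3 (kC 1 b18 (kC 1 b11 k0))))); clear * - this; omega⟩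
                  rcases lt_or_ge (Q - i + a + b - 2*l - m - 2*c - d - 2*U + V - 4) 0 with h249 | h249
                  · rcases lt_or_ge (-3*N - Q + i + a + 2*b + 2*l + 2*m + L + 3*U - 2*V + 6) 0 with h250 | h250
                    · exact T0_77 X hb ⟨by have := kA 2 h237 (kA 1 h10 (kA 1 h9 (kA 1 h7 (kA 2 h6 (kC 1 b41 (kC 1 b39 k0)))))); clear * - this; omega, by have := kA 1 h250 (kA 1 h249 (kB 1 h248 (kA 1 h247 (kA 1 h246 (kA 2 h237 (kA 1 h9 (kA 1 h4 (kA 2 h3 (kC 2 b39 k0))))))))); clear * - this; omega, by have := kA 2 h246 (kA 2 h4 (kA 2 h3 (kC 1 b39 (kC 1 b36 k0)))); clear * - this; omega⟩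
                    exact T0_73 X hb ⟨by clear * - h250; omega, by have := kA 1 h249 (kB 1 h248 (kA 2 h244 (kA 4 h237 (kA 1 h234 (kA 1 h9 (kA 2 h3 (kC 2 b41 (kC 2 b39 k0)))))))); clear * - this; omega⟩
                  exact T0_45 X hb ⟨by clear * - h248; omega, by have := kB 1 h249 (kA 2 h247 (kA 2 h237 (kA 1 h10 (kA 2 h9 (kA 1 h8 (kA 1 h7 k0)))))); clear * - this; omega, by have := kA 6 h247 (kA 2 h246 (kA 5 h245 (kA 2 h244 (kA 6 h237 (kA 4 h234 (kA 6 h9 (kA 8 h6 (kC 6 b41 (kC 8 b39 (kC 3 b18 k0)))))))))); clear * - this; omega, by clear * - h249; omega⟩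
                exact T0_2 X hb ⟨by have := kB 1 h247 (kA 1 h245 (kA 2 h237 (kA 1 h9 (kA 2 h2 (kC 1 b41 (kC 1 b39 (kC 1 b18 k0))))))); clear * - this; omega, by clear * - h247; omega⟩
              rcases lt_or_ge (N - l - m - U + V - 3) 0 with h251 | h251
              · exact T0_47 X hb ⟨by have := kA 10 h251 (kA 4 h244 (kA 18 h237 (kA 2 h234 (kA 9 h9 (kA 8 h6 (kA 2 h3 (kA 2 h2 (kC 9 b41 (kC 9 b39 k0))))))))); clear * - this; omega, by have := kA 1 h245 (kA 2 h244 (kA 2 h236 (kA 3 h234 (kB 2 h11 (kA 4 h6 (kA 2 h3 (kC 2 b41 (kC 1 b36 (kC 1 b33 (kC 2 b7 k0)))))))))); clear * - this; omega, by have := kA 16 h251 (kA 1 h244 (kB 3 h238 (kA 14 h237 (kB 2 h202 (kA 10 h10 (kA 10 h9 (kA 12 h6 (kC 7 b41 (kC 7 b39 k0))))))))); clear * - this; omega, by have := kA 12 h251 (kA 2 h244 (kA 2 h237 (kA 1 h234 (kA 1 h9 (kA 4 h6 (kA 8 h3 (kA 8 h2 (kC 8 b41 (kC 8 b39 k0))))))))); clear * - this; omega⟩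
              exact T0_100 X hb ⟨by clear * - h246; omega, by clear * - h251; omega⟩
            rcases lt_or_ge (-i + 2*b - l + m + 2*Y - 1) 0 with h252 | h252
            · rcases lt_or_ge (Q - i - 2*m - 2*c - 2*Y - 3) 0 with h253 | h253
              · exact T0_59 X hb ⟨by have := kB 2 h245 (kA 2 h244 (kA 2 h236 (kA 1 h235 (kA 4 h234 (kA 1 h9 (kA 2 h7 (kA 2 h6 (kC 1 b41 (kC 1 b39 k0))))))))); clear * - this; omega, by have := kA 1 h252 (kB 2 h245 (kA 2 h244 (kA 2 h236 (kB 3 h202 (kB 1 h11 (kA 2 h10 (kA 1 h8 (kA 4 h4 k0)))))))); clear * - this; omega, by have := kA 1 h253 (kA 16 h252 (kA 1 h244 (kB 3 h238 (kA 36 h237 (kA 8 h235 (kA 28 h9 (kA 34 h7 (kA 16 h3 (kA 22 h2 (kC 22 b41 (kC 8 b39 (kC 14 b33 k0)))))))))))); clear * - this; omega, by have := kA 2 h253 (kA 5 h252 (kB 1 h245 (kA 2 h244 (kA 4 h237 (kA 1 h234 (kA 2 h9 (kA 2 h6 (kA 6 h4 (kA 6 h3 (kC 3 b41 (kC 2 b39 (kC 1 b33 k0)))))))))))); clear *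 - this; omega⟩
              exact T0_206 X hb ⟨by clear * - h253; omega, by have := kB 1 h253 (kB 1 h245 (kA 1 h10 (kA 1 h9 (kA 1 h7 k0)))); clear * - this; omega, by have := kB 1 h253 (kA 2 h252 (kA 4 h236 (kB 1 h202 (kA 2 h10 (kA 2 h7 (kA 4 h6 (kA 2 h3 (kA 4 h2 (kC 3 b41 (kC 3 b39 k0)))))))))); clear * - this; omega, by have := kB 1 h253 (kA 2 h252 (kB 1 h245 (kA 2 h244 (kA 2 h236 (kA 2 h234 (kA 4 h4 (kA 2 h3 (kA 2 h2 (kC 2 b41 (kC 2 b33 k0)))))))))); clear * - this; omega, by have := kA 3 h252 (kB 3 h245 (kA 3 h244 (kA 3 h236 (kA 4 h234 (kA 3 h9 (kA 6 h4 (kA 3 h2 (kC 2 b41 (kC 1 b39 (kC 1 b33 k0)))))))))); clear * - this; omega⟩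
            exact T0_153 X hb ⟨by have := kA 3 h244 (kB 1 h238 (kA 2 h236 (kA 4 h234 (kB 1 h11 (kA 4 h3 (kC 1 b41 (kC 1 b39 (kC 2 b18 (kC 2 b11 k0))))))))); clear * - this; omega, by clear * - h252; omega, by have := kB 1 h245 (kB 2 h238 (kA 1 h234 (kA 2 h3 (kA 2 h2 (kC 1 b41 (kC 1 b39 k0)))))); clear * - this; omega, by clear * - h245; omega⟩
          exact T0_43 X hb ⟨by have := kA 2 h237 (kA 1 h235 (kA 2 h10 (kA 1 h9 (kA 2 h6 (kC 1 b41 (kC 1 b39 k0)))))); clear * - this; omega, by clear * - h244; omega, by clear * - h238; omega, by have := kA 4 h237 (kA 2 h234 (kA 1 h9 (kA 3 h3 (kA 1 h2 (kC 3 b41 (kC 2 b39 (kC 1 b33 (kC 5 b17 k0)))))))); clear * - this; omega, by have := kB 2 h244 (kB 1 h238 (kA 2 h236 (kB 1 h11 (kC 4 b2 k0)))); clear * - this; omega⟩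
        rcases lt_or_ge (2*a + 2*b + m - L + 2*Y - 1) 0 with h254 | h254
        · rcases lt_or_ge (Q - i + 2*a + 2*b - 2*l - 2*c - 2*U + 2*Y - 3) 0 with h255 | h255
          · rcases lt_or_ge (-N + a + b + m - 2*c) 0 with h256 | h256
            · exact T0_12 X hb ⟨by have := kA 2 h256 (kB 1 h11 (kA 1 h6 (kC 1 b41 (kC 1 b35 (kC 1 b11 (kC 1 b7 k0)))))); clear * - this; omega, by have := kA 1 h254 (kA 1 h6 (kA 2 h4 (kA 2 h3 (kC 1 b41 (kC 1 b39 (kC 1 b18 (kC 4 b2 k0))))))); clear * - this; omega⟩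
            rcases lt_or_ge (2*N - 2*a - 2*b - m + 4*c - 1) 0 with h257 | h257
            · rcases lt_or_ge (-2*N - Q + 2*b + l + m + L + 2*U + 4) 0 with h258 | h258
              · exact T0_35 X hb ⟨by have := kA 1 h257 (kA 2 h255 (kA 1 h9 (kA 2 h4 (kA 2 h3 (kC 1 b41 (kC 2 b39 (kC 1 b18 (kC 4 b2 k0)))))))); clear * - this; omega, by have := kA 1 h257 (kA 1 h255 (kA 1 h234 (kA 1 h9 (kC 1 b41 (kC 1 b39 (kC 2 b17 k0)))))); clear * - this; omega⟩
              exact T0_31 X hb ⟨by clear * - h258; omega, by have := kA 1 h257 (kA 1 h255 (kA 1 h234 (kA 1 h9 (kC 1 b41 (kC 1 b39 (kC 2 b2 k0)))))); clear * - this; omega⟩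
            exact T0_314 X hb ⟨by clear * - h9 h255; omega, by clear * - h256; omega, by have := kA 1 h255 (kA 1 h9 (kC 1 b42 (kC 1 b41 (kC 1 b35 k0)))); clear * - this; omega, by clear * - h257; omega, by clear * - h3 h256 h257; omega⟩
          exact T0_123 X hb ⟨by clear * - h255; omega, by have := kA 1 h254 (kA 1 h234 (kA 2 h6 (kC 1 b41 (kC 2 b2 k0)))); clear * - this; omega, by have := kB 1 h255 (kA 4 h254 (kA 1 h234 (kB 1 h11 (kA 6 h4 (kA 4 h3 (kA 4 h2 (kC 5 b41 (kC 1 b33 (kC 2 b18 (kC 12 b2 k0)))))))))); clear * - this; omega, by clear * - h9; omega, by have := kB 3 h255 (kA 1 h254 (kA 1 h234 (kA 2 h10 (kA 1 h9 (kA 2 h7 (kA 4 h2 (kC 1 b42 (kC 1 b41 k0)))))))); clear * - this; omega, by have := kB 2 h255 (kB 2 h237 (kA 1 h234 (kB 1 h11 (kA 2 h2 k0)))); clear * - this; omega⟩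
        exact T0_17 X hb ⟨by have := kB 2 h237 (kB 1 h202 (kB 1 h11 (kC 1 b11 k0))); clear * - this; omega, by have := kA 1 h9 (kA 3 h3 (kA 1 h2 (kC 1 b43 (kC 1 b42 (kC 1 b41 (kC 1 b39 (kC 1 b17 k0))))))); clear * - this; omega, by clear * - h237; omega, by clear * - h254; omega, by clear * - b11 h234 h254; omega⟩
      rcases lt_or_ge (2*N - m + 2*c + 2*d + 2*Y - 2) 0 with h259 | h259
      · rcases lt_or_ge (N - 2*a - 2*b + l + 2*c) 0 with h260 | h260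
        · exact T0_31 X hb ⟨by have := kA 2 h260 (kA 2 h234 (kA 3 h10 (kA 4 h9 (kA 1 h7 (kA 4 h6 (kA 2 h4 (kA 4 h2 (kC 3 b39 k0)))))))); clear * - this; omega, by have := kA 1 h259 (kA 1 h235 (kA 1 h234 (kA 1 h9 (kA 2 h3 (kC 1 b41 (kC 1 b39 (kC 2 b2 k0))))))); clear * - this; omega⟩
        rcases lt_or_ge (N - i - l - 2) 0 with h261 | h261
        · rcases lt_or_ge (-3*N + i - a + 3*l + 3*m + 3*U - 2*V + 6) 0 with h262 | h262
          · exact T0_2 X hb ⟨by have := kA 2 h262 (kA 2 h261 (kA 2 h259 (kA 1 h10 (kA 3 h9 (kA 3 h7 (kA 2 h2 (kC 1 b41 (kC 1 b39 (kC 3 b18 k0))))))))); clear * - this; omega, by have := kA 44 h262 (kA 83 h261 (kB 1 h260 (kA 55 h259 (kB 2 h236 (kA 28 h235 (kA 27 h234 (kA 15 h10 (kA 97 h9 (kA 39 h7 (kA 20 h6 (kC 13 b41 (kC 13 b39 k0)))))))))))); clear * - this; omega⟩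
          rcases lt_or_ge (-5*N - Q + 2*i + a + 2*b + 4*l + 4*m + L + 5*U - 2*V + 11) 0 with h263 | h263
          · exact T0_12 X hb ⟨by have := kA 1 h259 (kA 1 h235 (kA 1 h234 (kA 1 h9 (kA 1 h6 (kA 2 h3 (kC 1 b41 (kC 1 b39 k0))))))); clear * - this; omega, by have := kA 1 h263 (kB 1 h262 (kA 1 h259 (kA 1 h235 (kA 1 h234 (kA 2 h9 (kA 2 h4 (kA 4 h3 (kA 2 h2 (kC 3 b39 (kC 2 b2 k0)))))))))); clear * - this; omega⟩
          rcases lt_or_ge (-N - Q + i + 3*a + 2*b + L + U + 2) 0 with h264 | h264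
          · exact T0_12 X hb ⟨by have := kA 1 h259 (kA 1 h235 (kA 1 h234 (kA 1 h9 (kA 1 h6 (kA 2 h3 (kC 1 b41 (kC 1 b39 k0))))))); clear * - this; omega, by have := kA 2 h264 (kA 3 h259 (kA 3 h235 (kA 3 h234 (kA 5 h9 (kA 4 h4 (kA 10 h3 (kA 4 h2 (kC 1 b41 (kC 7 b39 (kC 6 b2 k0)))))))))); clear * - this; omega⟩
          rcases lt_or_ge (-3*N - Q + i + a + 2*b + 2*l + 2*m + L + 3*U - 2*V + 6) 0 with h265 | h265
          · rcases lt_or_ge (Q - i - 2*a - 2*b - l - 2*d - 2) 0 with h266 | h266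
            · exact T0_2 X hb ⟨by have := kA 6 h266 (kA 7 h265 (kB 1 h264 (kB 4 h262 (kA 14 h259 (kA 12 h235 (kA 18 h234 (kA 26 h9 (kA 4 h7 (kA 26 h3 (kA 14 h2 (kC 8 b41 (kC 14 b39 k0)))))))))))); clear * - this; omega, by have := kA 4 h266 (kA 5 h265 (kB 1 h264 (kA 8 h259 (kA 8 h235 (kA 12 h234 (kA 16 h9 (kA 6 h6 (kA 16 h3 (kC 4 b41 (kC 8 b39 k0)))))))))); clear * - this; omega⟩
            exact T0_90 X hb ⟨by clear * - h266; omega, by have := kA 1 h261 (kA 2 h259 (kA 2 h235 (kA 1 h234 (kA 2 h9 (kA 1 h4 (kA 3 h3 (kC 1 b41 (kC 1 b39 (kC 2 b2 k0))))))))); clear * - this; omega, by have := kB 4 h266 (kA 13 h265 (kB 1 h264 (kA 28 h259 (kA 8 h235 (kA 16 h9 (kA 14 h6 (kA 72 h5 (kA 40 h2 (kC 12 b41 (kC 24 b39 k0)))))))))); clear * - this; omega⟩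
          exact T0_66 X hb ⟨by clear * - h262; omega, by have := kA 1 h259 (kA 1 h235 (kA 1 h234 (kA 1 h9 (kA 2 h3 (kC 1 b41 (kC 1 b39 (kC 2 b2 k0))))))); clear * - this; omega, by clear * - h265; omega⟩
        exact T0_72 X hb ⟨by clear * - h260; omega, by have := kB 4 h236 (kA 2 h235 (kA 2 h9 (kA 4 h3 (kC 1 b42 (kC 1 b41 (kC 1 b39 k0)))))); clear * - this; omega, by have := kA 2 h259 (kA 2 h235 (kA 2 h9 (kA 4 h3 (kC 1 b42 (kC 1 b41 (kC 1 b39 k0)))))); clear * - this; omega, by have := kB 1 h260 (kA 2 h259 (kA 2 h235 (kA 1 h234 (kA 2 h9 (kA 4 h3 (kC 1 b41 (kC 1 b39 k0))))))); clear * - this; omega, by clear * - h261; omega⟩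
      rcases lt_or_ge (-2*a - 2*b + l + 3*m - L + 2*U + 2*Y + 2) 0 with h267 | h267
      · rcases lt_or_ge (N + a - l - m - U - 3) 0 with h268 | h268
        · exact T0_2 X hb ⟨by have := kA 3 h267 (kA 2 h9 (kA 2 h3 (kA 2 h2 (kC 3 b45 (kC 1 b42 (kC 2 b41 (kC 2 b33 k0))))))); clear * - this; omega, by have := kA 2 h268 (kA 1 h267 (kA 1 h234 (kA 1 h9 (kA 1 h8 (kA 1 h3 (kC 1 b41 (kC 1 b11 (kC 2 b2 k0)))))))); clear * - this; omega⟩
        exact T0_31 X hb ⟨by have := kB 3 h268 (kA 4 h267 (kA 2 h235 (kA 2 h234 (kA 5 h9 (kA 4 h7 (kA 7 h6 (kA 5 h3 (kA 7 h2 (kC 3 b41 (kC 3 b33 k0)))))))))); clear * - this; omega, by clear * - h268; omega⟩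
      exact T0_21 X hb ⟨by clear * - h7 h9 h10; omega, by clear * - h259; omega, by clear * - h236; omega, by have := kA 1 h9 (kA 1 h3 (kA 1 h2 (kC 1 b42 (kC 1 b41 (kC 1 b17 k0))))); clear * - this; omega, by clear * - h267; omega⟩
    rcases lt_or_ge (2*N - m + c + 2*d + V - 2) 0 with h269 | h269
    · rcases lt_or_ge (2*N - m + c + 2*d + V - 1) 0 with h270 | h270
      · rcases lt_or_ge (N - l - m - U + V - 3) 0 with h271 | h271
        · rcases lt_or_ge (-i + 2*a + 2*b - 2*l - 2*c - 2*d - L - 2*U - 4) 0 with h272 | h272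
          · rcases lt_or_ge (-N - b + 2*m - 2*c + 1) 0 with h273 | h273
            · rcases lt_or_ge (2*N - i - 4*a - 4*b + 2*c - 1) 0 with h274 | h274
              · exact T0_77 X hb ⟨by have := kA 1 h274 (kA 2 h271 (kA 2 h270 (kA 1 h10 (kA 1 h9 (kA 3 h7 (kA 2 h6 (kC 2 b43 (kC 3 b41 (kC 3 b39 (kC 6 b17 k0)))))))))); clear * - this; omega, by have := kA 1 h272 (kA 2 h271 (kB 1 h235 (kB 1 h11 (kC 1 b41 (kC 1 b11 (kC 2 b2 k0)))))); clear * - this; omega, by have := kA 1 h274 (kA 1 h272 (kA 4 h271 (kA 2 h234 (kC 2 b41 (kC 1 b39 (kC 6 b17 (kC 1 b11 k0))))))); clear * - this; omega⟩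
              rcases lt_or_ge (2*N - i - 4*a - 4*b - l - 2) 0 with h275 | h275
              · exact T0_77 X hb ⟨by have := kA 1 h275 (kA 2 h7 (kA 2 h4 (kA 2 h3 (kC 2 b42 (kC 3 b41 (kC 3 b33 (kC 6 b17 k0))))))); clear * - this; omega, by have := kA 1 h272 (kA 2 h271 (kB 1 h235 (kB 1 h11 (kC 1 b41 (kC 1 b11 (kC 2 b2 k0)))))); clear * - this; omega, by have := kA 1 h275 (kA 1 h272 (kA 1 h234 (kC 1 b41 (kC 2 b17 (kC 1 b11 k0))))); clear * - this; omega⟩
              exact T0_81 X hb ⟨by clear * - h274; omega, by have := kB 1 h274 (kA 1 h272 (kA 10 h271 (kB 2 h235 (kB 2 h11 (kC 1 b43 (kC 3 b41 (kC 2 b39 (kC 10 b17 k0)))))))); clear * - this; omega, by clear * - h275; omega, by clear * - b11 h8 h270; omega, by have := kB 8 h275 (kA 4 h271 (kA 9 h10 (kA 9 h9 (kA 2 h8 (kA 5 h7 (kA 2 h4 (kA 10 h3 (kC 2 b43 (kC 4 b21 k0))))))))); clear * - this; omega, by have := kA 2 h271 (kA 2 h3 (kC 1 b43 (kC 1 b41 (kC 1 b39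 (kC 2 b17 k0))))); clear * - this; omega, by have := kA 2 h273 (kA 1 h272 (kA 2 h271 (kB 2 h11 (kA 2 h6 (kC 2 b41 (kC 1 b39 (kC 1 b11 (kC 2 b7 (kC 4 b2 k0))))))))); clear * - this; omega, by have := kA 2 h273 (kA 2 h271 (kB 2 h11 (kA 2 h6 (kC 2 b41 (kC 1 b36 (kC 1 b11 (kC 2 b7 (kC 4 b2 k0)))))))); clear * - this; omega, by have := kA 2 h271 (kA 1 h234 (kC 1 b41 (kC 2 b17 (kC 1 b11 k0)))); clear * - this; omega, by have := kA 4 h273 (kA 3 h271 (kB 3 h11 (kA 3 h6 (kC 3 b41 (kC 2 b36 (kC 2 b11 (kC 3 b7 (kC 7 b2 k0)))))))); clear * - this; omega, by have := kA 2 h273 (kB 1 h11 (kA 2 h6 (kC 1 b41 (kC 1 b19 (kC 1 b18 (kC 2 b11 (kC 4 b2 k0))))))); clear * - this; omega, by have := kA 2 h273 (kA 14 h271 (kA 1 h234 (kB 2 h11 (kA 2 h10 (kC 4 b41 (kC 3 b39 (kC 14 b17 (kC 4 b7 k0)))))))); clear * - this; omega, by have := kA 2 h271 (kA 1 h10 (kA 1 h9 (kA 1 h7 (kC 1 b42 (kC 1 b41 (kC 2 b17 k0)))))); clear * - this;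 omega⟩
            rcases lt_or_ge (N + 2*a + b - l - m - 3) 0 with h276 | h276
            · rcases lt_or_ge (2*N - i - 2*a - 2*b + 2*c - L - 2) 0 with h277 | h277
              · rcases lt_or_ge (2*a + 2*b + m - L + 2*Y - 1) 0 with h278 | h278
                · exact T0_123 X hb ⟨by have := kA 2 h277 (kA 2 h276 (kA 1 h234 (kA 1 h9 (kA 2 h4 (kC 2 b41 (kC 1 b7 (kC 6 b2 k0))))))); clear * - this; omega, by have := kA 1 h278 (kA 2 h271 (kA 1 h234 (kC 1 b41 (kC 4 b17 k0)))); clear * - this; omega, by have := kB 2 h273 (kA 4 h271 (kA 2 h270 (kB 1 h235 (kA 4 h10 (kA 1 h9 (kA 2 h6 (kA 2 h4 (kC 1 b41 (kC 1 b39 k0))))))))); clear * - this; omega, by clear * - h9; omega, by have := kB 2 h273 (kA 2 h271 (kA 1 h234 (kA 2 h10 (kA 1 h9 (kA 2 h4 (kA 2 h3 (kC 1 b41 (kC 1 b35 k0)))))))); clear * - this; omega, by have := kB 2 h273 (kA 6 h271 (kA 4 h10 (kA 2 h9 (kA 2 h6 (kA 2 h4 (kA 4 h3 (kC 1 b42 (kC 3 b41 (kC 1 b39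 (kC 2 b35 k0)))))))))); clear * - this; omega⟩
                exact T0_17 X hb ⟨by have := kA 4 h276 (kB 2 h273 (kB 1 h235 (kA 1 h234 (kA 6 h10 (kA 5 h9 (kA 2 h4 (kA 2 h3 (kC 1 b43 k0)))))))); clear * - this; omega, by have := kB 1 h278 (kA 1 h277 (kA 2 h276 (kB 2 h273 (kA 2 h270 (kB 1 h235 (kA 1 h234 (kA 3 h10 (kA 2 h9 (kA 1 h7 (kA 2 h6 k0)))))))))); clear * - this; omega, by clear * - h9 h10 h276; omega, by clear * - h278; omega, by clear * - b11 h234 h278; omega⟩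
              rcases lt_or_ge (2*N - i + 2*a + 2*b - l - m - L - 4) 0 with h279 | h279
              · exact T0_106 X hb (by have := kA 1 h279 (kA 1 h271 (kA 1 h234 (kA 1 h6 (kA 1 h4 (kC 1 b41 (kC 3 b2 k0)))))); clear * - this; omega)
              exact T0_162 X hb ⟨by have := kB 4 h277 (kA 1 h276 (kB 5 h273 (kA 3 h272 (kA 1 h234 (kA 4 h7 (kA 10 h3 (kC 1 b43 (kC 4 b41 (kC 5 b33 k0))))))))); clear * - this; omega, by have := kB 2 h273 (kA 1 h272 (kA 2 h270 (kB 1 h235 (kA 1 h10 (kA 1 h7 (kA 2 h6 (kC 1 b41 k0))))))); clear * - this; omega, by have := kA 4 h276 (kB 2 h273 (kB 1 h235 (kA 1 h234 (kA 6 h10 (kA 5 h9 (kA 2 h4 (kA 2 h3 (kC 1 b43 k0)))))))); clear * - this; omega, by have := kB 2 h279 (kA 1 h276 (kB 5 h273 (kB 5 h235 (kB 1 h11 (kA 2 h10 (kA 2 h6 (kA 2 h4 (kA 12 h3 (kA 2 h2 (kC 2 b41 (kC 4 b38 k0))))))))))); clear * - this; omega, by have := kB 1 h279 (kA 2 h276 (kA 2 h10 (kA 1 h9 (kC 1 b35 (kC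 1 b7 k0))))); clear * - this; omega, by clear * - h277; omega, by clear * - h279; omega⟩
            exact T0_313 X hb ⟨by have := kB 1 h276 (kA 2 h271 (kB 1 h11 (kA 2 h6 (kC 1 b41 (kC 1 b39 k0))))); clear * - this; omega, by clear * - h276; omega, by clear * - h5 h273; omega, by have := kB 1 h276 (kA 2 h271 (kB 1 h202 (kB 1 h11 (kA 2 h6 (kC 1 b41 (kC 1 b39 k0)))))); clear * - this; omega, by clear * - h273; omega, by have := kB 1 h276 (kA 2 h271 (kA 1 h234 (kA 2 h6 (kC 1 b41 (kC 1 b39 k0))))); clear * - this; omega⟩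
          rcases lt_or_ge (-i - 2*a - 2*b - 2*l - 2*c - 2*d - 2*U - 3) 0 with h280 | h280
          · rcases lt_or_ge (-2*a - 2*b + m + 2*Y) 0 with h281 | h281
            · rcases lt_or_ge (-N - b + m - c - d - V) 0 with h282 | h282
              · exact T0_34 X hb ⟨by have := kA 2 h282 (kA 2 h271 (kA 2 h270 (kA 2 h10 (kA 1 h9 (kC 1 b39 (kC 2 b17 (kC 1 b11 k0))))))); clear * - this; omega, by have := kA 2 h282 (kA 2 h271 (kA 2 h270 (kA 1 h8 (kC 1 b11 k0)))); clear * - this; omega⟩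
              exact T0_77 X hb ⟨by have := kB 2 h282 (kA 2 h281 (kA 2 h10 (kA 2 h9 (kA 1 h8 (kA 2 h6 (kA 2 h4 (kA 2 h3 (kC 1 b41 (kC 1 b39 k0))))))))); clear * - this; omega, by clear * - h282; omega, by have := kA 2 h281 (kA 1 h280 (kA 2 h10 (kA 2 h9 (kA 1 h8 (kA 2 h6 (kA 2 h3 (kC 1 b41 (kC 1 b39 k0)))))))); clear * - this; omega⟩
            exact T0_154 X hb ⟨by clear * - b11 h234 h281; omega, by clear * - h281; omega, by have := kA 1 h280 (kA 2 h270 (kB 1 h11 (kC 1 b19 (kC 2 b17 (kC 1 b11 k0))))); clear * - this; omega, by have := kB 1 h272 (kA 2 h271 (kA 1 h10 (kA 1 h9 (kA 1 h8 (kA 1 h7 k0))))); clear * - this; omega, by have := kA 6 h271 (kB 1 h11 (kA 2 h5 (kC 2 b41 (kC 1 b39 (kC 6 b17 (kC 1 b7 k0)))))); clear * - this; omega, by have := kB 1 h281 (kA 1 h280 (kB 2 h272 (kA 1 h10 (kA 1 h9 (kA 1 h7 (kC 1 b43 k0)))))); clear * - this; omega, by clear * - h272 h280 h281; omega⟩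
          exact T0_160 X hb ⟨by have := kB 2 h272 (kA 2 h271 (kA 2 h9 (kA 2 h8 (kA 8 h3 (kA 2 h2 (kC 3 b43 (kC 1 b41 (kC 3 b39 k0)))))))); clear * - this; omega, by have := kB 4 h280 (kA 4 h271 (kA 5 h10 (kA 5 h9 (kA 2 h8 (kA 1 h7 (kA 2 h4 (kA 2 h3 (kC 2 b43 k0)))))))); clear * - this; omega, by have := kA 2 h271 (kA 2 h270 (kB 1 h11 (kC 1 b41 (kC 1 b39 (kC 4 b17 (kC 1 b7 k0)))))); clear * - this; omega, by clear * - h280; omega, by have := kA 4 h271 (kA 2 h270 (kB 1 h11 (kC 1 b41 (kC 1 b39 (kC 4 b17 (kC 1 b7 k0)))))); clear * - this; omega, by clear * - h271 h280; omega, by have := kA 1 h10 (kA 1 h9 (kA 1 h8 (kA 1 h7 k0))); clear * - this; omega, by have := kB 1 h272 (kA 2 h271 (kA 1 h10 (kA 1 h9 (kA 1 h8 (kA 1 h7 k0))))); clear * - this; omega, by have := kB 2 h272 (kA 4 h271 (kA 2 h10 (kA 1 h9 (kA 2 h8 (kA 2 h6 (kA 2 h5 (kC 1 b39 (kC 1 b7 k0)))))))); clear * - this; omega, by have := kB 1 h272 (kA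 2 h271 (kA 2 h10 (kA 1 h9 (kA 2 h6 (kC 1 b19 k0))))); clear * - this; omega, by have := kB 2 h272 (kA 2 h271 (kA 2 h10 (kA 1 h9 (kA 1 h8 (kA 2 h6 (kA 2 h5 (kC 1 b36 (kC 1 b7 k0)))))))); clear * - this; omega, by clear * - h272; omega, by have := kB 1 h272 (kA 2 h271 (kB 1 h11 (kA 2 h5 (kC 1 b41 (kC 1 b36 (kC 4 b17 (kC 1 b7 k0))))))); clear * - this; omega⟩
        rcases lt_or_ge (-3*N - i - 2*a + m - 2*c - 2*d + L - U - V + 2) 0 with h283 | h283
        · exact T0_59 X hb ⟨by have := kA 4 h283 (kA 2 h270 (kA 2 h9 (kA 4 h7 (kA 4 h6 (kA 2 h5 (kA 2 h2 (kC 1 b42 (kC 1 b41 (kC 5 b39 k0))))))))); clear * - this; omega, by have := kB 2 h271 (kA 1 h9 (kA 1 h5 (kA 1 h2 (kC 1 b42 k0)))); clear * - this; omega, by have := kA 2 h270 (kA 2 h10 (kA 2 h9 (kC 1 b44 (kC 1 b42 (kC 1 b39 (kC 2 b11 k0)))))); clear * - this; omega, by have := kA 2 h270 (kC 1 b42 (kC 1 b41 (kC 1 b39 (kC 4 b17 k0)))); clear * - this; omega⟩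
        exact T0_100 X hb ⟨by clear * - h283; omega, by clear * - h271; omega⟩
      exact T0_141 X hb ⟨by clear * - h270; omega, by clear * - h269; omega⟩
    rcases lt_or_ge (-2*N - Q + i + l + m - 2*d - 2*V + 2) 0 with h284 | h284
    · rcases lt_or_ge (3*N + Q - i - 2*l - 3*m + c + d - 2*U + 2*V - 6) 0 with h285 | h285
      · rcases lt_or_ge (-2*N - Q + 2*b + l + m + L + 2*U + 4) 0 with h286 | h286
        · rcases lt_or_ge (-3*N - i - a + m - 2*c - 2*d + L - U - V + 2) 0 with h287 | h287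
          · rcases lt_or_ge (-a - 2*b + m - c) 0 with h288 | h288
            · exact T0_10 X hb ⟨by have := kA 1 h286 (kA 1 h284 (kB 1 h235 (kA 1 h10 (kA 1 h9 (kA 1 h7 (kA 2 h2 (kC 1 b39 k0))))))); clear * - this; omega, by have := kA 1 h288 (kA 1 h287 (kB 1 h269 (kA 1 h6 (kA 1 h4 (kA 1 h3 (kC 1 b39 k0)))))); clear * - this; omega, by have := kA 2 h288 (kA 3 h286 (kA 2 h285 (kA 3 h284 (kB 2 h235 (kA 5 h10 (kA 3 h9 (kA 1 h7 (kA 2 h4 (kA 6 h2 (kC 3 b39 k0)))))))))); clear * - this; omega⟩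
            exact T0_15 X hb ⟨by have := kA 2 h285 (kB 2 h269 (kB 1 h235 (kB 1 h11 (kA 2 h6 (kA 2 h5 (kC 1 b41 (kC 1 b39 k0))))))); clear * - this; omega, by have := kB 1 h288 (kA 14 h287 (kA 2 h286 (kA 14 h285 (kA 7 h284 (kB 3 h235 (kA 2 h234 (kA 2 h9 (kA 16 h4 (kA 16 h3 (kC 16 b39 (kC 18 b2 k0))))))))))); clear * - this; omega, by clear * - h288; omega, by have := kA 3 h287 (kA 1 h285 (kB 1 h235 (kA 1 h6 (kA 4 h4 (kA 1 h3 (kC 3 b39 (kC 1 b18 (kC 4 b2 k0)))))))); clear * - this; omega⟩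
          exact T0_12 X hb ⟨by have := kA 2 h285 (kA 2 h284 (kB 1 h235 (kB 1 h11 (kA 1 h6 (kA 2 h5 (kC 1 b41 (kC 1 b39 k0))))))); clear * - this; omega, by clear * - h287; omega⟩
        exact T0_31 X hb ⟨by clear * - h286; omega, by have := kA 2 h285 (kA 2 h284 (kB 1 h235 (kB 1 h11 (kA 2 h5 (kC 1 b41 (kC 1 b39 (kC 2 b2 k0))))))); clear * - this; omega⟩
      exact T0_2 X hb ⟨by have := kB 1 h285 (kB 2 h235 (kA 1 h10 (kA 3 h7 (kA 2 h2 (kC 2 b41 (kC 2 b39 (kC 5 b18 (kC 2 b11 (kC 2 b2 k0))))))))); clear * - this; omega, by clear * - h285; omega⟩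
    exact T0_7 X hb ⟨by clear * - h235; omega, by clear * - h269; omega, by clear * - h284; omega⟩
  exact T0_157 X hb ⟨by clear * - h202; omega, by clear * - h234; omega, by clear * - h9; omega, by clear * - h11; omega⟩

theorem P2 (X : C W N Q i a b l m c d L U V Y) (hb : B N Q i a b l m c d L U V Y)
    (h1 : (-N + m - c) < 0)
    (h2 : (3*N + Q - i - 2*l - 3*m + c + d - 2*U + V - 6) < 0)
    (h3 : (N + c + d - 1) < 0)
    (h4 : (i + a - b) < 0)
    (h5 : (-2*N + 2*m - 2*c - d + 1) < 0)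
    (h6 : (N + a - l - m - U - V - 3) < 0)
    (h7 : (-2*N + i + a + 2*m - c - d + Y + 2) < 0)
    (h8 : (-2*N - i + 2*a + 2*b - l + m - 2*c - 2*d - 2*V - 1) < 0)
    (c0x : (-N + m - c) < 0 → (3*N + Q - i - 2*l - 3*m + c + d - 2*U + V - 6) < 0 → (N + c + d - 1) < 0 → (i + a - b) < 0 → (-2*N + 2*m - 2*c - d + 1) < 0 → (N + a - l - m - U - V - 3) < 0 → (-2*N + i + a + 2*m - c - d + Y + 2) < 0 → (-2*N - i + 2*a + 2*b - l + m - 2*c - 2*d - 2*V - 1) < 0 → (-2*N + Q - i - a + 2*m - c - d + Y + 1) < 0 → (-Q + i + l - m - 2*Y + 2) < 0 → False)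
    (c1x : (-N + m - c) < 0 → (3*N + Q - i - 2*l - 3*m + c + d - 2*U + V - 6) < 0 → (N + c + d - 1) < 0 → (i + a - b) < 0 → (-2*N + 2*m - 2*c - d + 1) < 0 → (N + a - l - m - U - V - 3) < 0 → (-2*N + i + a + 2*m - c - d + Y + 2) < 0 → (-2*N - i + 2*a + 2*b - l + m - 2*c - 2*d - 2*V - 1) < 0 → (-Q + i + l - m - 2*Y + 1) ≥ 0 → False) : False := by
  have b1 := hb.b1
  have b2 := hb.b2
  have b4 := hb.b4
  have b7 := hb.b7
  have b11 := hb.b11
  have b17 := hb.b17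
  have b18 := hb.b18
  have b19 := hb.b19
  have b21 := hb.b21
  have b33 := hb.b33
  have b39 := hb.b39
  have b41 := hb.b41
  have b42 := hb.b42
  have b43 := hb.b43
  rcases lt_or_ge (-Q + i + l - m - 2*Y + 1) 0 with h9 | h9
  · rcases lt_or_ge (-2*N + Q - i - a + 2*m - c - d + Y + 1) 0 with h10 | h10
    · exact M9 X hb h1 h2 h3 h4 h5 h6 h7 h8 h9 h10 c0x
    rcases lt_or_ge (2*N + a - l - m + c + d + Y - 3) 0 with h289 | h289
    · rcases lt_or_ge (-4*N + Q - i + 2*a + 2*b - 2*l + 2*m - 4*c - 4*d - 2*U - 1) 0 with h290 | h290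
      · rcases lt_or_ge (Q - 2*i - 3*a - b - 1) 0 with h291 | h291
        · rcases lt_or_ge (-Q + i + l - m - 2*Y + 2) 0 with h292 | h292
          · rcases lt_or_ge (-N + Q - i + b + m + Y) 0 with h293 | h293
            · rcases lt_or_ge (-2*N + 2*a + 2*b + m - 2*c - d - V) 0 with h294 | h294
              · rcases lt_or_ge (N - l - m - U + V - 3) 0 with h295 | h295
                · rcases lt_or_ge (-a - b + l + 2*c) 0 with h296 | h296
                  · rcases lt_or_ge (2*N - a - b - 2*m + c + d + V - Y - 3) 0 with h297 | h297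
                    · exact T0_379 X hb ⟨by have := kA 1 h297 (kA 1 h296 (kA 1 h294 (kA 1 h289 (kC 1 b2 k0)))); clear * - this; omega, by clear * - h5; omega, by clear * - h5 h289 h292; omega, by have := kA 2 h296 (kA 1 h294 (kA 2 h289 (kA 1 h5 (kC 1 b41 (kC 1 b33 (kC 1 b17 (kC 4 b2 k0))))))); clear * - this; omega, by have := kA 2 h297 (kA 2 h293 (kA 2 h292 (kA 3 h289 (kA 1 h7 (kA 2 h5 k0))))); clear * - this; omega, by have := kA 2 h297 (kA 1 h293 (kA 2 h292 (kA 1 h291 (kA 4 h289 (kA 1 h7 (kA 2 h5 (kA 1 h3 k0))))))); clear * - this; omega, by clear * - h5 h289 h297; omega, by clear * - b2 h294 h296; omega⟩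
                    rcases lt_or_ge (-2*N + Q - i + 2*a + 2*b - 2*l + 2*m - 2*c - 2*d - 2*U + 2*Y - 1) 0 with h298 | h298
                    · rcases lt_or_ge (-2*N + i - b + 2*l + 2*m + 2*U - V + 4) 0 with h299 | h299
                      · exact T0_156 X hb ⟨by have := kA 1 h298 (kA 1 h292 (kA 2 h289 (kA 1 h5 (kC 1 b41 (kC 1 b33 (kC 1 b2 k0)))))); clear * - this; omega, by have := kA 1 h299 (kA 2 h295 (kA 1 h292 (kA 1 h291 (kA 2 h289 (kA 1 h5 (kC 1 b17 (kC 1 b7 k0))))))); clear * - this; omega, by have := kA 3 h299 (kA 2 h296 (kA 6 h295 (kA 3 h294 (kA 3 h292 (kA 3 h291 (kA 2 h289 (kA 2 h3 (kC 2 b42 k0)))))))); clear * - this; omega, by have := kA 1 h299 (kA 1 h298 (kA 2 h295 (kA 1 h294 (kA 2 h292 (kA 1 h291 (kA 2 h289 k0)))))); clear * - this; omega⟩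
                      exact T0_117 X hb ⟨by clear * - h299; omega, by have := kA 1 h296 (kA 2 h289 (kA 2 h5 (kC 1 b41 (kC 1 b33 (kC 1 b17 (kC 3 b2 k0)))))); clear * - this; omega, by have := kA 1 h296 (kA 2 h295 (kA 1 h292 (kA 1 h291 (kA 3 h289 (kA 1 h7 (kA 2 h5 (kC 1 b41 (kC 1 b33 k0)))))))); clear * - this; omega⟩
                    exact T0_47 X hb ⟨by clear * - h298; omega, by clear * - h297; omega, by have := kA 3 h292 (kA 2 h291 (kA 2 h289 (kA 2 h7 k0))); clear * - this; omega, by have := kA 2 h295 (kA 1 h3 (kA 1 h2 (kC 1 b41 (kC 1 b39 (kC 1 b17 k0))))); clear * - this; omega⟩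
                  exact T0_106 X hb (by clear * - h296; omega)
                rcases lt_or_ge (-3*N - i - 2*a + m - 2*c - 2*d + L - U - V + 2) 0 with h300 | h300
                · exact T0_2 X hb ⟨by have := kA 1 h289 (kA 1 h7 (kA 1 h3 (kC 1 b41 (kC 1 b33 (kC 1 b18 (kC 2 b2 k0)))))); clear * - this; omega, by have := kA 1 h300 (kB 1 h295 (kA 1 h292 (kA 1 h289 (kA 1 h7 (kA 1 h3 (kC 1 b39 k0)))))); clear * - this; omega⟩
                exact T0_100 X hb ⟨by clear * - h300; omega, by clear * - h295; omega⟩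
              rcases lt_or_ge (4*N + Q - i - 4*a - 4*b - 2*m + 4*c + 2*d + 2*V - 3) 0 with h301 | h301
              · rcases lt_or_ge (-2*N + a + b + 2*m - c - d - V + Y + 1) 0 with h302 | h302
                · rcases lt_or_ge (-2*N + Q - i + 2*a + 2*b - 2*l - 4*c - 2*d - 2*U - 3) 0 with h303 | h303
                  · rcases lt_or_ge (-N - Q + i + 2*a + 2*b + L + U + 2) 0 with h304 | h304
                    · rcases lt_or_ge (N + a + b + l + c + 2*d + 2*U) 0 with h305 | h305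
                      · rcases lt_or_ge (4*N - i - 2*a - 2*b - l + 2*c + 2*d - L + 2*Y - 3) 0 with h306 | h306
                        · rcases lt_or_ge (-N + l + m + U - V + 1) 0 with h307 | h307
                          · rcases lt_or_ge (4*N - Q - 4*m + 2*c + 2*d - 2*Y - 4) 0 with h308 | h308
                            · rcases lt_or_ge (-4*N + i + 2*l + 4*m - c - d + 2*U - V + Y + 6) 0 with h309 | h309
                              · exact T0_35 X hb ⟨by have := kA 3 h308 (kA 2 h305 (kA 1 h303 (kA 2 h302 (kA 2 h301 (kA 1 h290 (kA 4 h7 (kC 1 b33 (kC 4 b2 k0)))))))); clear * - this; omega, by have := kA 2 h309 (kA 2 h308 (kA 1 h303 (kA 2 h302 (kA 1 h301 k0)))); clear * - this; omega⟩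
                              exact T0_309 X hb ⟨by clear * - h309; omega, by have := kA 2 h304 (kA 1 h303 (kA 2 h302 (kA 1 h301 (kB 2 h294 (kA 2 h5 (kC 2 b33 k0)))))); clear * - this; omega, by clear * - b11 h5 h309; omega, by have := kB 5 h309 (kA 4 h308 (kA 4 h307 (kA 1 h306 (kA 6 h305 (kA 8 h304 (kA 3 h301 (kA 8 h293 (kA 15 h292 (kA 16 h291 (kA 26 h7 (kA 14 h6 (kC 7 b39 k0)))))))))))); clear * - this; omega⟩
                            exact T0_29 X hb ⟨by clear * - h308; omega, by clear * - h292 h308; omega, by have := kB 2 h308 (kA 2 h307 (kA 2 h306 (kA 4 h304 (kA 1 h303 (kA 4 h302 (kA 1 h301 (kA 6 h292 (kA 2 h291 (kA 4 h2 (kC 2 b39 k0)))))))))); clear * - this; omega, by have := kA 1 h306 (kA 2 h304 (kA 2 h303 (kA 4 h302 (kA 2 h301 (kA 2 h292 (kC 1 b33 (kC 2 b2 k0))))))); clear * - this; omega, by have := kA 2 h307 (kA 1 h303 (kA 1 h301 (kA 2 h292 (kA 2 h289 k0)))); clear * - this; omega⟩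
                          exact T0_56 X hb ⟨by have := kB 10 h307 (kA 8 h305 (kA 3 h303 (kA 8 h302 (kA 5 h301 (kA 6 h292 (kA 2 h291 (kA 4 h7 (kC 4 b39 (kC 12 b17 (kC 2 b11 k0)))))))))); clear * - this; omega, by clear * - h307; omega⟩
                        exact T0_134 X hb ⟨by have := kA 2 h305 (kA 1 h303 (kB 1 h294 (kA 1 h292 (kA 1 h5 (kC 1 b43 (kC 1 b17 (kC 1 b11 k0))))))); clear * - this; omega, by have := kA 1 h305 (kA 1 h303 (kB 1 h294 (kA 1 h293 (kA 2 h292 (kA 1 h289 (kC 1 b17 k0)))))); clear * - this; omega, by have := kA 2 h305 (kA 1 h303 (kA 2 h302 (kB 2 h294 (kA 1 h292 (kC 1 b43 (kC 1 b11 k0)))))); clear * - this; omega, by clear * - h289 h292 h293; omega, by clear * - h294 h302; omega, by have := kA 2 h304 (kA 2 h303 (kA 4 h302 (kA 3 h301 (kA 3 h292 (kC 1 b39 (kC 2 b17 k0)))))); clear * - this; omega, by clear * - h306; omega, by have := kA 2 h304 (kA 2 h303 (kA 4 h302 (kA 3 h301 (kB 1 h294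 (kA 3 h292 (kA 1 h5 (kC 1 b39 (kC 3 b17 k0)))))))); clear * - this; omega, by have := kB 1 h306 (kB 1 h294 (kA 1 h5 (kC 1 b17 k0))); clear * - this; omega⟩
                      rcases lt_or_ge (-3*N - a - b + 3*m - 3*c - 2*d + 2) 0 with h310 | h310
                      · exact T0_59 X hb ⟨by have := kA 2 h310 (kA 2 h304 (kA 1 h303 (kA 1 h301 (kC 2 b33 (kC 4 b17 k0))))); clear * - this; omega, by have := kA 2 h310 (kA 1 h303 (kA 2 h302 (kA 3 h292 (kA 2 h291 (kA 2 h289 (kA 2 h6 (kA 2 h3 (kC 1 b42 (kC 2 b21 k0))))))))); clear * - this; omega, by have := kA 2 h304 (kA 1 h303 (kA 1 h301 (kB 2 h294 (kA 2 h293 (kA 2 h292 (kA 2 h7 (kC 2 b33 (kC 2 b17 k0)))))))); clear * - this; omega, by have := kA 1 h310 (kA 1 h303 (kA 3 h302 (kA 1 h301 (kA 2 h292 (kA 5 h289 (kA 2 h3 (kC 2 b41 (kC 2 b33 (kC 5 b2 k0))))))))); clear * - this; omega⟩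
                      exact T0_119 X hb ⟨by have := kB 1 h294 (kA 1 h293 (kA 1 h292 (kA 1 h289 (kC 1 b17 k0)))); clear * - this; omega, by clear * - h310; omega, by have := kB 1 h305 (kA 2 h289 (kA 2 h5 (kC 1 b41 (kC 1 b33 (kC 2 b2 k0))))); clear * - this; omega, by clear * - h305; omega, by clear * - h5 h310; omega⟩
                    rcases lt_or_ge (-N - 2*a + l + m + U + 1) 0 with h311 | h311
                    · exact T0_100 X hb ⟨by have := kA 1 h303 (kA 1 h301 (kA 2 h293 (kA 4 h292 (kA 4 h289 (kA 2 h7 (kA 2 h3 (kC 2 b39 k0))))))); clear * - this; omega, by have := kA 1 h311 (kB 1 h304 (kA 2 h302 (kA 1 h292 (kA 2 h289 (kC 1 b41 k0))))); clear * - this; omega⟩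
                    exact T0_99 X hb ⟨by clear * - h311; omega, by clear * - h304; omega⟩
                  rcases lt_or_ge (2*N - a - b - m + 2*c + d + V - 2) 0 with h312 | h312
                  · rcases lt_or_ge (-2*N - Q - l - 2*c - 2*d + L - 2*U) 0 with h313 | h313
                    · rcases lt_or_ge (-2*N + Q - i - 2*l - 2*c - 4*d - 2*U - 3) 0 with h314 | h314
                      · exact T0_12 X hb ⟨by have := kA 2 h312 (kA 2 h302 (kA 2 h289 (kA 1 h6 (kA 2 h5 (kC 2 b41 (kC 2 b33 (kC 2 b17 k0))))))); clear * - this; omega, by have := kA 2 h312 (kA 1 h302 (kA 3 h293 (kA 4 h292 (kA 4 h289 (kA 2 h5 (kA 2 h4 (kA 1 h2 (kC 2 b39 (kC 3 b2 k0))))))))); clear * - this; omega⟩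
                      exact T0_7 X hb ⟨by clear * - h314; omega, by have := kA 1 h313 (kA 8 h312 (kA 4 h302 (kA 1 h292 (kA 2 h290 (kA 9 h289 (kA 1 h7 (kA 6 h6 (kA 6 h5 (kC 6 b41 (kC 7 b33 (kC 16 b2 k0))))))))))); clear * - this; omega, by have := kA 2 h312 (kA 2 h302 (kA 1 h292 (kA 4 h289 (kA 4 h5 (kA 2 h2 (kC 2 b41 (kC 2 b33 (kC 4 b2 k0)))))))); clear * - this; omega⟩
                    rcases lt_or_ge (-4*N - Q + l + 2*m - 2*c - 2*d + L - 2*V + 5) 0 with h315 | h315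
                    · rcases lt_or_ge (-2*N + Q - i - 2*l - 2*c - 4*d - 2*U - 3) 0 with h316 | h316
                      · exact T0_12 X hb ⟨by have := kA 1 h315 (kB 1 h313 (kA 2 h312 (kA 2 h302 (kA 2 h289 (kA 2 h6 (kA 2 h5 (kC 2 b41 (kC 2 b33 k0)))))))); clear * - this; omega, by have := kB 1 h313 (kA 1 h312 (kA 1 h293 (kA 3 h292 (kA 2 h289 (kA 1 h7 (kA 1 h5 (kA 1 h2 (kC 1 b42 (kC 1 b39 k0))))))))); clear * - this; omega⟩
                      exact T0_7 X hb ⟨by clear * - h316; omega, by have := kA 2 h315 (kB 1 h313 (kA 4 h312 (kA 1 h292 (kA 2 h290 (kA 5 h289 (kA 1 h7 (kA 2 h6 (kA 2 h5 (kC 2 b41 (kC 3 b33 (kC 8 b2 k0))))))))))); clear * - this; omega, by have := kA 2 h312 (kA 2 h302 (kA 1 h292 (kA 4 h289 (kA 4 h5 (kA 2 h2 (kC 2 b41 (kC 2 b33 (kC 4 b2 k0)))))))); clear * - this; omega⟩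
                    exact T0_35 X hb ⟨by clear * - h315; omega, by have := kA 1 h312 (kA 1 h302 (kA 1 h289 (kA 1 h6 (kA 1 h5 (kC 1 b41 (kC 1 b33 (kC 2 b2 k0))))))); clear * - this; omega⟩
                  rcases lt_or_ge (-2*N - Q + 2*m - 2*c - 2*d - 2*V + 2) 0 with h317 | h317
                  · exact T0_2 X hb ⟨by have := kA 1 h289 (kA 1 h7 (kA 1 h3 (kC 1 b41 (kC 1 b33 (kC 1 b18 (kC 2 b2 k0)))))); clear * - this; omega, by have := kA 1 h317 (kA 1 h289 (kA 1 h7 (kA 1 h3 (kC 1 b41 (kC 1 b33 (kC 2 b2 k0)))))); clear * - this; omega⟩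
                  exact T0_98 X hb ⟨by clear * - h303; omega, by clear * - h312; omega, by clear * - h317; omega⟩
                rcases lt_or_ge (4*N + Q - i - 2*a - 2*b - 4*m + 2*c + 2*d + 2*V - 2*Y - 5) 0 with h318 | h318
                · rcases lt_or_ge (-N + l + m + U - V + 1) 0 with h319 | h319
                  · rcases lt_or_ge (2*N + Q - i - 2*a - 2*b + 2*c + 2*d + 2*Y - 1) 0 with h320 | h320
                    · rcases lt_or_ge (-Q + 2*a + 2*b - l - m + L) 0 with h321 | h321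
                      · rcases lt_or_ge (2*N - a - b - m + 2*c + d + V - 2) 0 with h322 | h322
                        · rcases lt_or_ge (-N - 2*a + l + m + U + 1) 0 with h323 | h323
                          · exact T0_75 X hb ⟨by have := kA 1 h323 (kA 3 h322 (kA 3 h321 (kA 1 h320 (kA 5 h319 (kB 2 h302 (kA 1 h291 (kA 1 h290 (kA 3 h5 (kC 3 b33 k0))))))))); clear * - this; omega, by have := kA 1 h320 (kA 2 h292 (kA 1 h290 (kA 2 h289 k0))); clear * - this; omega, by have := kA 5 h320 (kA 6 h292 (kA 3 h290 (kA 2 h289 (kC 2 b39 k0)))); clear * - this; omega⟩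
                          exact T0_99 X hb ⟨by clear * - h323; omega, by have := kA 2 h322 (kA 1 h320 (kB 2 h302 (kA 1 h290 (kA 2 h5 (kC 2 b33 (kC 4 b17 k0)))))); clear * - this; omega⟩
                        exact T0_98 X hb ⟨by have := kA 2 h319 (kA 1 h318 (kA 2 h289 (kA 2 h5 (kC 2 b7 (kC 2 b2 k0))))); clear * - this; omega, by clear * - h322; omega, by have := kB 2 h302 (kA 2 h293 (kA 1 h292 (kA 1 h289 (kA 1 h7 k0)))); clear * - this; omega⟩
                      exact T0_34 X hb ⟨by clear * - h321; omega, by have := kA 1 h320 (kA 2 h292 (kA 1 h290 (kA 2 h289 k0))); clear * - this; omega⟩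
                    exact T0_166 X hb ⟨by clear * - h320; omega, by clear * - h292; omega, by have := kB 2 h320 (kA 2 h319 (kA 1 h318 (kA 6 h293 (kA 7 h292 (kA 4 h291 (kA 1 h290 (kA 7 h289 (kA 7 h7 k0)))))))); clear * - this; omega, by have := kB 3 h320 (kA 4 h319 (kB 4 h302 (kB 2 h294 (kA 4 h293 (kA 1 h290 (kA 2 h289 (kA 2 h6 (kA 2 h5 k0)))))))); clear * - this; omega, by have := kA 2 h319 (kA 1 h318 (kA 2 h289 (kA 2 h5 (kC 1 b43 (kC 1 b7 (kC 2 b2 k0)))))); clear * - this; omega⟩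
                  rcases lt_or_ge (-4*N - Q + l + 2*m - 2*c - 2*d + L - 2*V + 4) 0 with h324 | h324
                  · rcases lt_or_ge (2*N - a - b - m + 2*c + d + V - 2) 0 with h325 | h325
                    · rcases lt_or_ge (-2*N + Q - i - 2*l - 2*c - 4*d - 2*U - 3) 0 with h326 | h326
                      · exact T0_99 X hb ⟨by have := kA 1 h324 (kA 1 h318 (kA 1 h292 (kA 1 h290 (kA 3 h289 (kA 1 h7 (kA 2 h3 (kC 1 b33 k0))))))); clear * - this; omega, by have := kA 1 h326 (kA 6 h325 (kA 1 h324 (kB 2 h319 (kA 1 h318 (kB 4 h302 (kA 4 h293 (kA 1 h292 (kA 3 h289 (kA 1 h7 (kA 8 h5 (kC 5 b33 (kC 12 b17 k0)))))))))))); clear * - this; omega⟩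
                      exact T0_7 X hb ⟨by clear * - h326; omega, by have := kA 2 h325 (kA 2 h324 (kA 1 h318 (kA 2 h293 (kA 2 h292 (kA 1 h290 (kA 2 h289 (kA 2 h7 (kA 2 h6 (kC 2 b39 (kC 4 b2 k0)))))))))); clear * - this; omega, by have := kB 2 h302 (kA 2 h293 (kA 1 h292 (kA 2 h289 (kA 2 h5 k0)))); clear * - this; omega⟩
                    exact T0_98 X hb ⟨by have := kA 2 h324 (kB 2 h319 (kA 1 h318 (kA 1 h289 (kA 1 h7 (kA 4 h3 (kC 2 b39 (kC 1 b11 (kC 2 b2 k0)))))))); clear * - this; omega, by clear * - h325; omega, by have := kB 2 h302 (kA 2 h293 (kA 1 h292 (kA 1 h289 (kA 1 h7 k0)))); clear * - this; omega⟩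
                  rcases lt_or_ge (-2*N - Q - l - 2*c - 2*d + L - 2*U + 1) 0 with h327 | h327
                  · rcases lt_or_ge (-3*N - Q + i + a + 2*b + 2*l + 2*m + L + 3*U + 6) 0 with h328 | h328
                    · exact T0_48 X hb ⟨by have := kA 1 h328 (kA 3 h327 (kB 1 h324 (kA 2 h318 (kA 1 h290 (kA 2 h289 (kA 2 h7 (kA 4 h3 (kC 1 b39 (kC 2 b33 (kC 3 b2 k0)))))))))); clear * - this; omega, by have := kA 4 h328 (kA 5 h327 (kB 3 h324 (kA 6 h318 (kA 4 h293 (kA 4 h292 (kA 8 h7 (kA 12 h3 (kC 4 b43 (kC 12 b39 (kC 18 b17 k0)))))))))); clear * - this; omega⟩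
                    rcases lt_or_ge (-N - Q + i + a + 2*b + L + U + 2) 0 with h329 | h329
                    · rcases lt_or_ge (-N + l + m + U - 2*V + 1) 0 with h330 | h330
                      · exact T0_7 X hb ⟨by have := kA 18 h330 (kA 23 h329 (kB 3 h328 (kA 8 h327 (kA 12 h318 (kB 4 h302 (kA 4 h301 (kA 4 h293 (kA 16 h289 (kA 8 h7 (kA 24 h5 (kA 28 h3 (kC 28 b33 k0)))))))))))); clear * - this; omega, by have := kA 2 h330 (kA 2 h327 (kA 1 h318 (kA 1 h290 (kA 1 h289 (kA 1 h7 (kA 2 h3 (kC 2 b39 (kC 1 b11 (kC 2 b2 k0))))))))); clear * - this; omega, by have := kB 2 h302 (kA 2 h293 (kA 1 h292 (kA 2 h289 (kA 2 h5 k0)))); clear * - this; omega⟩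
                      exact T0_48 X hb ⟨by clear * - h330; omega, by have := kB 1 h330 (kA 2 h329 (kA 3 h327 (kA 3 h318 (kA 2 h293 (kA 4 h7 (kA 6 h3 (kC 4 b39 (kC 2 b33 (kC 8 b17 k0))))))))); clear * - this; omega⟩
                    exact T0_75 X hb ⟨by have := kA 2 h327 (kA 1 h318 (kA 2 h293 (kA 2 h3 (kC 2 b39 (kC 1 b19 (kC 2 b17 k0)))))); clear * - this; omega, by have := kA 1 h327 (kA 1 h318 (kA 1 h292 (kA 1 h290 (kA 3 h289 (kA 1 h7 (kA 2 h6 (kA 2 h3 (kC 1 b33 k0)))))))); clear * - this; omega, by clear * - h329; omega⟩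
                  exact T0_56 X hb ⟨by clear * - h327; omega, by clear * - h319; omega⟩
                exact T0_57 X hb ⟨by clear * - h318; omega, by have := kB 1 h318 (kA 1 h292 (kA 1 h291 (kA 1 h4 k0))); clear * - this; omega, by have := kB 2 h302 (kA 8 h293 (kA 5 h292 (kA 5 h290 (kA 10 h289 (kA 2 h6 (kA 8 h3 (kC 3 b41 (kC 3 b39 (kC 4 b2 k0))))))))); clear * - this; omega, by have := kA 2 h293 (kA 1 h292 (kA 1 h289 (kA 1 h7 k0))); clear * - this; omega, by clear * - h302; omega⟩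
              rcases lt_or_ge (2*N - Q - 4*a - 4*b + 2*c) 0 with h331 | h331
              · rcases lt_or_ge (N + a + b + l + c + 2*d + 2*U) 0 with h332 | h332
                · exact T0_98 X hb ⟨by have := kA 2 h332 (kA 2 h331 (kA 2 h293 (kA 2 h292 (kA 1 h289 (kA 1 h7 (kC 1 b11 k0)))))); clear * - this; omega, by clear * - h4 h291 h301; omega, by have := kA 8 h332 (kA 1 h331 (kB 1 h301 (kA 3 h291 (kA 8 h5 (kA 5 h4 (kA 4 h2 (kC 4 b18 (kC 8 b11 (kC 4 b2 k0))))))))); clear * - this; omega⟩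
                rcases lt_or_ge (-3*N - a - b + 3*m - 3*c - 2*d + 2) 0 with h333 | h333
                · rcases lt_or_ge (3*N - 2*m + 3*c + 2*d + V - 3) 0 with h334 | h334
                  · exact T0_35 X hb ⟨by have := kA 23 h334 (kA 21 h333 (kB 2 h332 (kB 4 h301 (kA 3 h293 (kA 2 h290 (kA 19 h289 (kA 12 h6 (kA 1 h2 (kC 11 b41 (kC 13 b33 (kC 2 b11 (kC 28 b2 k0)))))))))))); clear * - this; omega, by have := kA 3 h334 (kA 3 h333 (kB 1 h301 (kA 1 h291 (kA 2 h289 (kC 1 b41 (kC 1 b33 (kC 3 b17 (kC 1 b11 k0)))))))); clear * - this; omega⟩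
                  exact T0_59 X hb ⟨by clear * - h334; omega, by have := kB 2 h334 (kB 1 h294 (kA 2 h293 (kA 2 h292 (kA 2 h289 (kA 1 h3 k0))))); clear * - this; omega, by have := kA 1 h333 (kA 1 h293 (kA 1 h292 (kA 1 h289 (kA 1 h2 (kC 1 b19 (kC 1 b11 k0)))))); clear * - this; omega, by have := kB 1 h334 (kA 2 h289 (kA 2 h3 (kC 1 b41 (kC 1 b33 (kC 2 b2 k0))))); clear * - this; omega⟩
                exact T0_119 X hb ⟨by have := kB 1 h294 (kA 1 h293 (kA 1 h292 (kA 1 h289 (kC 1 b17 k0)))); clear * - this; omega, by clear * - h333; omega, by have := kB 1 h332 (kA 2 h289 (kA 2 h5 (kC 1 b41 (kC 1 b33 (kC 2 b2 k0))))); clear * - this; omega, by clear * - h332; omega, by clear * - h5 h333; omega⟩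
              exact T0_319 X hb ⟨by clear * - h301; omega, by clear * - h331; omega, by clear * - h294; omega⟩
            exact T0_24 X hb ⟨by have := kA 1 h290 (kA 2 h289 (kA 2 h3 (kC 1 b43 (kC 1 b41 (kC 1 b33 (kC 1 b19 k0)))))); clear * - this; omega, by clear * - h293; omega, by have := kB 2 h293 (kA 2 h292 (kA 3 h291 (kA 1 h290 (kA 1 h7 (kA 1 h3 (kC 1 b43 (kC 2 b21 k0))))))); clear * - this; omega, by have := kB 2 h293 (kA 7 h292 (kA 7 h290 (kA 14 h289 (kA 2 h6 (kA 12 h3 (kA 2 h2 (kC 5 b41 (kC 5 b39 (kC 6 b2 k0))))))))); clear * - this; omega⟩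
          rcases lt_or_ge (-2*N + 3*m - 2*c + 2*Y + 2) 0 with h335 | h335
          · rcases lt_or_ge (-N + a + b - c - d - Y - 1) 0 with h336 | h336
            · rcases lt_or_ge (2*N - a - b - 2*m + c + d + V - Y - 3) 0 with h337 | h337
              · exact T0_317 X hb ⟨by have := kA 10 h336 (kB 1 h292 (kA 2 h291 (kA 1 h290 (kB 4 h10 (kA 6 h3 (kC 1 b43 (kC 5 b42 (kC 2 b21 k0)))))))); clear * - this; omega, by have := kA 2 h336 (kA 2 h3 (kC 1 b43 (kC 1 b42 (kC 1 b41 (kC 1 b39 (kC 2 b17 k0)))))); clear * - this; omega, by clear * - b11 h335 h337; omega, by have := kA 2 h336 (kA 2 h291 (kA 2 h9 (kA 3 h8 (kA 4 h7 (kA 4 h3 (kC 1 b43 (kC 1 b21 k0))))))); clear * - this; omega, by have := kA 4 h337 (kA 1 h335 (kB 1 h292 (kC 2 b17 (kC 1 b7 k0)))); clear * - this; omega, by have := kA 4 h336 (kA 1 h335 (kB 1 h292 (kC 2 b17 (kC 1 b7 k0)))); clear * - this; omega⟩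
              rcases lt_or_ge (-2*N + Q - i + 2*a + 2*b - 2*l + 2*m - 2*c - 2*d - 2*U + 2*Y - 1) 0 with h338 | h338
              · exact T0_130 X hb ⟨by have := kA 2 h338 (kB 1 h292 (kA 1 h291 (kB 4 h10 (kA 1 h4 (kC 1 b41 (kC 1 b39 (kC 4 b2 k0))))))); clear * - this; omega, by have := kA 2 h338 (kA 2 h291 (kA 2 h289 (kA 4 h9 (kA 2 h7 (kC 1 b42 (kC 1 b41 (kC 1 b39 k0))))))); clear * - this; omega, by have := kA 2 h335 (kA 2 h291 (kA 2 h289 (kA 4 h9 (kA 2 h7 (kA 2 h3 (kA 2 h2 (kC 1 b42 (kC 1 b41 (kC 1 b39 (kC 2 b17 k0)))))))))); clear * - this; omega, by have := kA 1 h336 (kA 1 h335 (kA 1 h291 (kB 1 h10 (kA 1 h4 (kC 1 b2 k0))))); clear * - this; omega⟩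
              rcases lt_or_ge (-4*N - Q + i + l + 4*m - 2*c - 2*d - 2*V + 2*Y + 5) 0 with h339 | h339
              · exact T0_2 X hb ⟨by have := kA 1 h289 (kA 1 h7 (kA 1 h3 (kC 1 b41 (kC 1 b33 (kC 1 b18 (kC 2 b2 k0)))))); clear * - this; omega, by have := kA 3 h339 (kB 1 h338 (kA 4 h336 (kA 1 h291 (kA 2 h289 (kA 1 h4 (kA 3 h3 (kC 1 b41 (kC 1 b39 (kC 2 b2 k0))))))))); clear * - this; omega⟩
              exact T0_47 X hb ⟨by clear * - h338; omega, by clear * - h337; omega, by have := kA 2 h291 (kA 2 h289 (kA 3 h9 (kA 2 h7 k0))); clear * - this; omega, by clear * - h339; omega⟩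
            rcases lt_or_ge (2*N + Q - i - 2*a - 2*b + 2*c + 2*d + 2*Y - 1) 0 with h340 | h340
            · exact T0_176 X hb ⟨by have := kA 5 h340 (kA 3 h290 (kA 2 h289 (kA 6 h9 (kC 2 b39 k0)))); clear * - this; omega, by clear * - h10 h290 h340; omega⟩
            exact T0_166 X hb ⟨by clear * - h340; omega, by clear * - h9; omega, by clear * - b21 h290; omega, by have := kB 5 h340 (kA 4 h291 (kA 1 h290 (kA 2 h8 (kA 6 h7 (kA 2 h6 (kA 6 h3 (kA 6 h2 (kC 4 b41 (kC 4 b39 k0))))))))); clear * - this; omega, by clear * - h336; omega⟩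
          exact T0_157 X hb ⟨by have := kB 1 h292 (kB 2 h10 (kA 2 h5 (kA 2 h3 (kC 1 b43 (kC 1 b41 (kC 1 b33 (kC 2 b2 k0))))))); clear * - this; omega, by clear * - h335; omega, by clear * - h9; omega, by clear * - h292; omega⟩
        rcases lt_or_ge (-2*N - i - a - b + 2*m - 2*c - 2*d - 2*V + 1) 0 with h341 | h341
        · exact T0_2 X hb ⟨by have := kA 1 h289 (kA 1 h7 (kA 1 h3 (kC 1 b41 (kC 1 b33 (kC 1 b18 (kC 2 b2 k0)))))); clear * - this; omega, by have := kA 1 h341 (kB 1 h291 (kA 1 h3 (kC 1 b43 (kC 1 b41 (kC 1 b39 (kC 2 b2 k0)))))); clear * - this; omega⟩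
        exact T0_316 X hb ⟨by clear * - h291; omega, by have := kB 1 h291 (kA 1 h290 (kA 6 h289 (kA 2 h7 (kA 6 h3 (kC 1 b43 (kC 5 b41 (kC 5 b33 (kC 10 b2 k0)))))))); clear * - this; omega, by clear * - h341; omega⟩
      rcases lt_or_ge (4*N - Q - 2*a - 2*b - 2*m + 2*c + 2*d - 3) 0 with h342 | h342
      · exact T0_2 X hb ⟨by have := kA 1 h289 (kA 1 h7 (kA 1 h3 (kC 1 b41 (kC 1 b33 (kC 1 b18 (kC 2 b2 k0)))))); clear * - this; omega, by have := kA 1 h342 (kA 1 h8 (kA 2 h7 (kA 1 h3 (kC 1 b41 (kC 1 b33 (kC 2 b2 k0)))))); clear * - this; omega⟩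
      rcases lt_or_ge (-2*N - Q + 2*m - 2*c - 2*d - 2*V + 2) 0 with h343 | h343
      · exact T0_2 X hb ⟨by have := kA 1 h289 (kA 1 h7 (kA 1 h3 (kC 1 b41 (kC 1 b33 (kC 1 b18 (kC 2 b2 k0)))))); clear * - this; omega, by have := kA 1 h343 (kA 1 h289 (kA 1 h7 (kA 1 h3 (kC 1 b41 (kC 1 b33 (kC 2 b2 k0)))))); clear * - this; omega⟩
      exact T0_142 X hb ⟨by clear * - h290; omega, by clear * - b11 h5 h8; omega, by have := kB 1 h290 (kA 2 h5 (kC 1 b18 (kC 2 b17 (kC 1 b11 k0)))); clear * - this; omega, by clear * - h343; omega, by have := kB 1 h290 (kA 1 h289 (kA 1 h7 (kA 2 h3 (kA 2 h2 (kC 1 b41 (kC 1 b39 (kC 1 b18 (kC 1 b4 (kC 2 b2 k0))))))))); clear * - this; omega⟩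
    exact T0_143 X hb ⟨by clear * - b1 h7; omega, by clear * - h10; omega, by have := kB 1 h289 (kA 1 h7 (kA 2 h6 (kC 1 b42 (kC 1 b18 k0)))); clear * - this; omega, by clear * - h289; omega⟩
  exact c1x h1 h2 h3 h4 h5 h6 h7 h8 h9

end Pool.Agent.MP_a38735_al.WL.E342
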