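import Pool.Agent.MP_a38735_al.E342t0
import Pool.Agent.MP_a38735_al.E342t1
import Pool.Agent.MP_a38735_al.E342t2
import Pool.Agent.MP_a38735_al.E342t3

set_option autoImplicit false
set_option linter.unusedVariables false
set_option linter.unusedSimpArgs false

namespace Pool.Agent.MP_a38735_al.WL.E342

variable {G : Type*} [Group G]

variable {W : ℤ → G} {N Q i a b l m c d L U V Y : ℤ}

theorem M11 (X : C W N Q i a b l m c d L U V Y) (hb : B N Q i a b l m c d L U V Y)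
    (h2 : (3*N + Q - i - 2*l - 3*m + c + d - 2*U + V - 6) < 0)
    (h3 : (N + c + d - 1) < 0)
    (h4 : (i + a - b) < 0)
    (h5 : (-2*N + 2*m - 2*c - d + 1) < 0)
    (h6 : (N + a - l - m - U - V - 3) ≥ 0)
    (h597 : (-3*N - Q + i + a + 2*b + 2*l + 2*m + L + 3*U - V + 6) < 0)
    (h598 : (2*N - a - b - m + 2*c + d + V - 2) ≥ 0)
    (h648 : (-2*N + Q - i + 2*a + 2*b - 2*l - 4*c - 2*d - 2*U - 3) < 0)
    (h649 : (N - l - m - U + V - 3) < 0)
    (h650 : (N - i - a - b - 2*l - m - c - d - 2*U - 4) ≥ 0)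
    (h667 : (3*N + Q - i + a + b - 2*l - 3*m + c + d - 2*U + 2*V - 6) < 0)
    (h668 : (Q - i - 2*l - c - d - 2*U + V + Y - 3) < 0) : False := by
  have b3 := hb.b3
  have b6 := hb.b6
  have b7 := hb.b7
  have b11 := hb.b11
  have b17 := hb.b17
  have b19 := hb.b19
  have b21 := hb.b21
  have b33 := hb.b33
  have b35 := hb.b35
  have b36 := hb.b36
  have b38 := hb.b38
  have b39 := hb.b39
  have b40 := hb.b40
  have b41 := hb.b41
  have b42 := hb.b42
  have b43 := hb.b43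
  have b44 := hb.b44
  have b45 := hb.b45
  rcases lt_or_ge (N - a - b + c + d + Y - 1) 0 with h669 | h669
  · rcases lt_or_ge (-i + 2*a + 2*b - 2*l - 2*c - 2*d - L - 2*U - 4) 0 with h670 | h670
    · rcases lt_or_ge (N + b - m + 2*c - 2) 0 with h671 | h671
      · rcases lt_or_ge (2*N - i - l - L - 3) 0 with h672 | h672
        · exact T0_85 X hb ⟨by have := kA 6 h672 (kA 12 h671 (kA 2 h670 (kA 28 h669 (kA 8 h648 (kB 2 h598 (kA 1 h597 (kB 3 h6 (kA 6 h5 (kA 8 h4 (kC 7 b41 k0)))))))))); clear * - this; omega, by have := kA 1 h670 (kA 1 h669 (kA 2 h649 (kB 2 h6 (kA 1 h4 (kC 1 b41 (kC 4 b17 k0)))))); clear * - this; omega, by have := kA 1 h672 (kA 2 h671 (kA 1 h670 (kA 2 h669 (kA 6 h649 (kB 2 h6 (kA 2 h4 (kC 3 b41 (kC 1 b33 (kC 8 b17 k0))))))))); clear * - this; omega, by have := kA 1 h670 (kA 5 h669 (kB 1 h650 (kA 2 h649 (kB 2 h598 (kA 1 h5 (kA 2 h3 (kC 1 b41 k0))))))); clear * - this; omega⟩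
        exact T0_81 X hb ⟨by have := kA 1 h670 (kA 2 h669 (kB 2 h650 (kA 4 h649 (kB 2 h598 (kC 1 b41 (kC 2 b17 k0)))))); clear * - this; omega, by have := kA 1 h670 (kA 2 h669 (kB 2 h650 (kA 4 h649 (kC 1 b41 (kC 4 b17 (kC 1 b6 k0)))))); clear * - this; omega, by have := kB 3 h672 (kA 2 h671 (kA 2 h670 (kA 3 h667 (kB 4 h598 (kA 3 h597 (kB 1 h6 (kA 3 h4 (kA 5 h3 (kC 4 b33 k0))))))))); clear * - this; omega, by have := kA 1 h670 (kA 2 h669 (kB 1 h650 (kA 2 h649 (kC 1 b41 (kC 2 b17 k0))))); clear * - this; omega, by have := kB 2 h672 (kA 1 h670 (kA 2 h3 (kC 1 b39 k0))); clear * - this; omega, by clear * - b36 h3 h672; omega, by have := kA 4 h671 (kA 1 h670 (kA 4 h669 (kA 4 h5 (kA 2 h4 (kC 2 b41 (kC 1 b38 k0)))))); clear * - this; omega, by have := kA 2 h671 (kA 2 h670 (kA 6 h669 (kA 4 h649 (kB 2 h6 (kA 2 h5 (kA 2 h4 (kC 3 b41 (kC 6 b17 k0)))))))); clear * - this; omega, by clear * - h672; omega, by have := kA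 4 h671 (kA 2 h670 (kA 10 h669 (kA 8 h649 (kA 6 h5 (kA 2 h4 (kC 5 b41 (kC 1 b39 (kC 1 b33 (kC 8 b17 k0))))))))); clear * - this; omega, by have := kA 2 h671 (kA 4 h669 (kA 4 h649 (kB 1 h598 (kA 3 h5 (kA 1 h4 (kC 2 b41 (kC 1 b33 (kC 3 b17 k0)))))))); clear * - this; omega, by have := kB 1 h672 (kA 4 h671 (kA 3 h670 (kA 10 h669 (kA 8 h649 (kA 6 h5 (kA 2 h4 (kC 5 b41 (kC 2 b39 (kC 8 b17 k0))))))))); clear * - this; omega, by have := kB 1 h672 (kA 4 h671 (kA 4 h669 (kA 4 h649 (kB 4 h598 (kA 4 h5 (kA 2 h4 (kC 2 b41 (kC 1 b35 k0)))))))); clear * - this; omega⟩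
      rcases lt_or_ge (N + 2*a + b - l - m - 3) 0 with h673 | h673
      · exact T0_130 X hb ⟨by have := kA 1 h673 (kA 1 h649 (kB 1 h6 (kC 2 b17 k0))); clear * - this; omega, by have := kA 1 h670 (kA 2 h5 (kC 1 b42 (kC 1 b41 (kC 1 b11 k0)))); clear * - this; omega, by have := kB 1 h671 (kA 2 h670 (kA 4 h669 (kB 1 h650 (kA 5 h649 (kB 3 h6 (kA 1 h4 (kA 1 h3 (kC 2 b41 (kC 8 b17 k0))))))))); clear * - this; omega, by have := kB 1 h671 (kA 1 h649 (kB 1 h6 (kC 2 b17 k0))); clear * - this; omega⟩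
      rcases lt_or_ge (-N - Q + i + b + l + m + 2) 0 with h674 | h674
      · rcases lt_or_ge (-2*N + Q - i + 2*a + 2*b - 2*l + 2*m - 2*c - 2*d - 2*U + 2*Y - 1) 0 with h675 | h675
        · rcases lt_or_ge (2*N + Q - i + 3*a + 3*b - 3*l - 4*m - 2*c - 4*U + 2*V - 8) 0 with h676 | h676
          · exact T0_106 X hb (by have := kA 1 h676 (kA 3 h675 (kA 4 h674 (kA 6 h669 (kA 10 h649 (kA 2 h4 (kC 6 b41 (kC 4 b39 (kC 2 b35 (kC 12 b17 k0))))))))); clear * - this; omega)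
          exact T0_290 X hb ⟨by have := kB 1 h676 (kA 1 h675 (kA 3 h674 (kB 1 h673 (kA 1 h670 (kA 1 h648 (kA 4 h597 (kA 4 h4 (kA 6 h2 (kC 1 b41 (kC 4 b33 k0)))))))))); clear * - this; omega, by have := kA 2 h675 (kA 22 h674 (kB 10 h673 (kA 6 h670 (kA 16 h669 (kA 14 h649 (kB 34 h598 (kA 14 h597 (kA 23 h4 (kA 34 h2 (kC 10 b41 (kC 18 b39 k0))))))))))); clear * - this; omega, by have := kA 1 h675 (kA 2 h674 (kA 2 h669 (kA 2 h649 (kA 1 h4 (kC 2 b41 (kC 2 b39 (kC 4 b17 k0))))))); clear * - this; omega, by clear * - h676; omega, by have := kA 4 h674 (kA 1 h670 (kA 4 h649 (kA 4 h597 (kA 2 h4 (kA 8 h2 (kC 2 b44 (kC 1 b38 (kC 4 b33 k0)))))))); clear * - this; omega, by have := kA 1 h675 (kA 7 h674 (kB 3 h673 (kA 1 h670 (kA 4 h669 (kA 14 h649 (kB 10 h598 (kA 4 h597 (kA 7 h4 (kA 10 h2 (kC 3 b41 (kC 6 b36 k0))))))))))); clear * - this; omega, by have := kA 1 h675 (kA 2 h674 (kA 1 h670 (kA 4 h669 (kA 6 h649 (kA 1 h4 (kC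 3 b41 (kC 2 b39 (kC 6 b17 k0)))))))); clear * - this; omega⟩
        rcases lt_or_ge (2*N - a - b - 2*m + c + d + V - Y - 3) 0 with h677 | h677
        · exact T0_56 X hb ⟨by have := kA 1 h677 (kA 1 h668 (kB 1 h650 (kA 1 h3 (kC 1 b39 (kC 2 b17 k0))))); clear * - this; omega, by have := kA 3 h677 (kA 1 h674 (kA 1 h670 (kA 1 h669 (kA 2 h668 (kA 1 h597 (kA 1 h4 (kC 1 b17 k0))))))); clear * - this; omega⟩
        exact T0_47 X hb ⟨by clear * - h675; omega, by clear * - h677; omega, by have := kB 3 h677 (kB 5 h675 (kA 2 h674 (kA 1 h670 (kA 5 h668 (kA 1 h4 (kC 1 b41 (kC 2 b17 k0))))))); clear * - this; omega, by have := kB 1 h677 (kB 1 h675 (kA 1 h668 (kA 1 h667 (kA 2 h649 (kA 1 h3 (kC 1 b41 (kC 1 b39 (kC 2 b17 k0)))))))); clear * - this; omega⟩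
      rcases lt_or_ge (-N - b + 2*m - 2*c + 1) 0 with h678 | h678
      · rcases lt_or_ge (3*N - a - b - l - 3*m + 2*c + d - 2*U + V - 5) 0 with h679 | h679
        · rcases lt_or_ge (2*N - a - b - 2*m + c + d + V - Y - 3) 0 with h680 | h680
          · exact T0_56 X hb ⟨by have := kA 1 h680 (kA 1 h668 (kB 1 h650 (kA 1 h3 (kC 1 b39 (kC 2 b17 k0))))); clear * - this; omega, by have := kA 2 h680 (kA 1 h678 (kA 1 h670 (kA 1 h669 (kA 1 h668 (kA 1 h597 (kC 1 b17 (kC 1 b11 k0))))))); clear * - this; omega⟩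
          exact T0_47 X hb ⟨by have := kB 2 h680 (kA 6 h679 (kA 3 h678 (kB 1 h673 (kA 6 h649 (kA 2 h597 (kC 3 b41 (kC 5 b39 (kC 8 b17 k0)))))))); clear * - this; omega, by clear * - h680; omega, by have := kB 10 h680 (kA 10 h679 (kA 5 h678 (kB 3 h673 (kA 18 h649 (kA 2 h597 (kC 7 b41 (kC 9 b39 (kC 16 b17 k0)))))))); clear * - this; omega, by have := kB 4 h680 (kA 2 h679 (kA 1 h678 (kB 1 h673 (kA 2 h669 (kA 2 h667 (kA 12 h649 (kA 2 h3 (kC 5 b41 (kC 5 b39 (kC 10 b17 k0)))))))))); clear * - this; omega⟩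
        exact T0_326 X hb ⟨by have := kB 1 h679 (kA 1 h670 (kA 2 h669 (kA 4 h649 (kC 1 b41 (kC 2 b17 (kC 1 b11 k0)))))); clear * - this; omega, by clear * - h679; omega, by have := kA 2 h678 (kA 2 h669 (kA 4 h649 (kA 1 h597 (kB 1 h6 (kC 1 b41 (kC 1 b39 (kC 1 b33 (kC 6 b17 (kC 1 b7 k0))))))))); clear * - this; omega⟩
      exact T0_313 X hb ⟨by clear * - h674; omega, by clear * - h673; omega, by clear * - h5 h678; omega, by clear * - h3 h671 h678; omega, by clear * - h678; omega, by clear * - h671; omega⟩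
    rcases lt_or_ge (-4*N - l + 2*m - 4*c - 4*d - 2*U) 0 with h681 | h681
    · rcases lt_or_ge (-3*N - a - b + 3*m - 3*c - 2*d + 2) 0 with h682 | h682
      · exact T0_319 X hb ⟨by have := kA 2 h682 (kA 2 h667 (kA 2 h649 (kA 2 h597 (kC 2 b33 (kC 6 b17 (kC 1 b3 k0)))))); clear * - this; omega, by clear * - h598 h650 h667; omega, by have := kA 1 h682 (kA 2 h669 (kA 1 h667 (kA 2 h649 (kC 1 b41 (kC 1 b39 (kC 3 b17 (kC 1 b7 k0))))))); clear * - this; omega⟩
      exact T0_119 X hb ⟨by have := kB 1 h682 (kA 1 h681 (kB 1 h670 (kA 2 h3 (kC 1 b36 k0)))); clear * - this; omega, by clear * - h682; omega, by have := kB 1 h682 (kA 1 h681 (kB 1 h670 (kA 2 h5 (kC 1 b36 k0)))); clear * - this; omega, by have := kB 1 h682 (kA 2 h681 (kB 1 h670 (kA 2 h3 (kC 1 b36 k0)))); clear * - this; omega, by clear * - h5 h682; omega⟩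
    exact T0_160 X hb ⟨by have := kB 1 h681 (kA 2 h3 (kC 1 b43 (kC 1 b40 k0))); clear * - this; omega, by have := kA 4 h648 (kA 4 h597 (kA 6 h5 (kA 2 h4 (kA 14 h3 (kC 2 b45 (kC 6 b33 (kC 7 b11 k0))))))); clear * - this; omega, by clear * - h681; omega, by have := kA 1 h667 (kA 1 h597 (kB 1 h6 (kA 1 h4 (kA 1 h3 (kC 1 b33 (kC 2 b17 k0)))))); clear * - this; omega, by clear * - h649 h681; omega, by have := kA 1 h667 (kA 2 h649 (kA 1 h597 (kB 1 h6 (kA 1 h4 (kA 1 h3 (kC 1 b33 (kC 2 b17 k0))))))); clear * - this; omega, by have := kA 6 h668 (kA 2 h649 (kA 4 h648 (kA 2 h597 (kA 8 h5 (kC 1 b44 (kC 3 b41 (kC 6 b39 (kC 18 b17 (kC 8 b7 k0))))))))); clear * - this; omega, by have := kA 2 h668 (kA 10 h649 (kA 2 h597 (kB 12 h6 (kA 4 h5 (kA 4 h4 (kC 3 b44 (kC 1 b41 (kC 22 b17 (kC 2 b11 k0))))))))); clear * - this; omega, by have := kA 2 h668 (kA 2 h649 (kA 2 h597 (kA 4 h5 (kC 1 b44 (kC 1 b41 (kC 2 b35 (kC 6 b17 (kC 2 b11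 k0)))))))); clear * - this; omega, by have := kA 2 h669 (kA 2 h649 (kA 2 h5 (kC 1 b41 (kC 2 b17 (kC 1 b11 k0))))); clear * - this; omega, by have := kA 36 h669 (kA 18 h668 (kA 50 h649 (kA 4 h648 (kA 2 h597 (kA 32 h5 (kC 1 b44 (kC 27 b41 (kC 18 b39 (kC 90 b17 (kC 20 b7 k0)))))))))); clear * - this; omega, by clear * - h670; omega, by have := kB 3 h670 (kA 4 h669 (kA 6 h668 (kA 2 h649 (kA 4 h597 (kA 4 h5 (kA 2 h4 (kC 5 b41 (kC 5 b35 (kC 18 b17 (kC 2 b7 k0)))))))))); clear * - this; omega⟩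
  rcases lt_or_ge (2*a + 2*b + m - L + 2*Y - 1) 0 with h683 | h683
  · rcases lt_or_ge (Q - i + 2*a + 2*b - 2*l - m - 2*c - d - 2*U + V - 4) 0 with h684 | h684
    · rcases lt_or_ge (N - i - a - b - l - 2) 0 with h685 | h685
      · rcases lt_or_ge (a + b - m - c - Y - 2) 0 with h686 | h686
        · rcases lt_or_ge (N + a + b - m + 2*c - 2) 0 with h687 | h687
          · rcases lt_or_ge (-Q + i + l - m - 2*Y + 1) 0 with h688 | h688
            · rcases lt_or_ge (-N + a + b + m - c + Y) 0 with h689 | h689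
              · rcases lt_or_ge (-N + a + b + m - c - V + Y + 1) 0 with h690 | h690
                · exact T0_123 X hb ⟨by have := kA 3 h688 (kA 3 h687 (kA 3 h685 (kA 2 h649 (kB 8 h6 (kA 4 h4 (kC 1 b43 (kC 1 b41 (kC 1 b35 (kC 10 b17 k0))))))))); clear * - this; omega, by clear * - h690; omega, by have := kA 1 h688 (kB 6 h650 (kA 1 h597 (kB 7 h6 (kA 4 h4 (kA 10 h2 (kC 2 b43 (kC 1 b41 (kC 2 b35 k0)))))))); clear * - this; omega, by clear * - h688; omega, by have := kA 1 h690 (kA 3 h688 (kA 3 h687 (kA 1 h686 (kA 6 h685 (kA 2 h684 (kA 2 h667 (kB 14 h6 (kA 7 h4 (kC 3 b43 (kC 17 b17 k0)))))))))); clear * - this; omega, by have := kA 1 h690 (kA 2 h688 (kA 2 h687 (kA 3 h685 (kA 1 h668 (kB 1 h598 (kB 6 h6 (kA 3 h4 (kA 2 h2 (kC 5 b17 k0))))))))); clear * - this; omega⟩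
                exact T0_112 X hb ⟨by have := kA 2 h687 (kA 4 h686 (kA 1 h683 (kC 1 b43 (kC 1 b42 (kC 1 b41 k0))))); clear * - this; omega, by have := kA 3 h689 (kA 2 h687 (kA 5 h686 (kA 3 h685 (kB 6 h6 (kA 3 h4 (kC 1 b43 (kC 10 b17 k0))))))); clear * - this; omega, by have := kB 2 h690 (kA 1 h687 (kA 2 h686 (kA 1 h685 (kB 4 h6 (kA 2 h4 (kA 2 h3 (kC 2 b43 (kC 4 b17 k0)))))))); clear * - this; omega, by clear * - h598; omega, by have := kB 12 h690 (kA 2 h688 (kA 1 h687 (kA 3 h685 (kA 6 h3 (kA 2 h2 (kC 1 b43 (kC 3 b21 k0))))))); clear * - this; omega, by clear * - h690; omega, by clear * - b17 h689; omega⟩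
              exact T0_111 X hb ⟨by clear * - h689; omega, by have := kB 4 h689 (kA 2 h687 (kA 4 h686 (kA 1 h683 (kC 1 b43 (kC 1 b42 (kC 1 b41 k0)))))); clear * - this; omega, by have := kA 1 h686 (kA 1 h685 (kB 2 h6 (kA 1 h4 (kC 1 b43 (kC 2 b17 k0))))); clear * - this; omega, by have := kB 1 h689 (kA 1 h688 (kA 2 h685 (kB 2 h650 (kA 1 h648 (kC 1 b43 k0))))); clear * - this; omega⟩
            rcases lt_or_ge (-2*N + 3*m - 2*c + 2*Y + 2) 0 with h691 | h691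
            · exact T0_106 X hb (by have := kA 1 h691 (kA 1 h687 (kA 2 h686 (kA 1 h685 (kA 2 h649 (kB 2 h6 (kA 1 h4 (kC 4 b17 k0))))))); clear * - this; omega)
            rcases lt_or_ge (-m - d - Y - 1) 0 with h692 | h692
            · exact T0_72 X hb ⟨by have := kB 1 h691 (kA 2 h686 (kA 1 h685 (kB 2 h598 (kB 2 h6 (kA 1 h4 (kA 2 h3 (kC 1 b43 (kC 1 b42 k0)))))))); clear * - this; omega, by have := kA 2 h692 (kA 1 h685 (kB 2 h6 (kA 1 h4 (kA 2 h3 (kC 1 b43 (kC 2 b17 k0)))))); clear * - this; omega, by have := kA 2 h692 (kA 1 h685 (kB 1 h650 (kA 1 h3 (kC 1 b43 k0)))); clear * - this; omega, by have := kA 1 h692 (kB 4 h691 (kA 1 h687 (kA 5 h686 (kA 7 h685 (kB 7 h650 (kA 6 h5 (kC 7 b43 k0))))))); clear * - this; omega, by have := kA 1 h692 (kA 1 h686 (kB 2 h6 (kA 1 h4 (kA 1 h3 (kC 1 b43 (kC 2 b17 k0)))))); clear * - this; omega⟩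
            exact T0_85 X hb ⟨by clear * - h688; omega, by have := kB 2 h691 (kA 1 h687 (kA 3 h686 (kA 2 h685 (kB 4 h6 (kA 3 h5 (kA 2 h4 (kC 2 b43 (kC 4 b17 k0)))))))); clear * - this; omega, by clear * - h691; omega, by clear * - h692; omega⟩
          rcases lt_or_ge (-N - a - b + l + m + 1) 0 with h693 | h693
          · rcases lt_or_ge (-N - Q + i + b + l + m + 2) 0 with h694 | h694
            · rcases lt_or_ge (2*N + Q - i + 3*a + 3*b - 3*l - 4*m - 2*c - 4*U + 2*V - 8) 0 with h695 | h695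
              · rcases lt_or_ge (-2*a - 2*b + l + m + 2*c + 2*U + 2) 0 with h696 | h696
                · exact T0_56 X hb ⟨by have := kA 1 h696 (kA 1 h695 (kB 2 h6 (kA 1 h4 (kA 2 h3 (kC 1 b39 (kC 4 b17 k0)))))); clear * - this; omega, by have := kA 1 h696 (kA 1 h695 (kA 1 h694 (kA 1 h685 (kB 1 h6 (kA 1 h4 (kC 2 b17 k0)))))); clear * - this; omega⟩
                exact T0_314 X hb ⟨by clear * - h696; omega, by clear * - b11 h685; omega, by have := kB 1 h696 (kA 1 h695 (kA 1 h693 (kA 8 h686 (kA 11 h685 (kA 1 h683 (kA 1 h597 (kB 9 h6 (kA 5 h4 (kC 3 b43 (kC 10 b17 k0)))))))))); clear * - this; omega, by have := kB 4 h696 (kA 1 h695 (kA 1 h693 (kA 2 h686 (kA 5 h685 (kA 1 h683 (kA 1 h597 (kB 9 h6 (kA 5 h4 (kC 10 b17 k0))))))))); clear * - this; omega, by have := kB 1 h696 (kB 1 h687 (kA 2 h686 (kA 2 h685 (kB 2 h650 (kA 1 h3 (kC 1 b43 k0)))))); clear * - this; omega⟩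
              rcases lt_or_ge (4*N + Q - 2*i - a - b - 4*l - 4*m - 4*U + 2*V - 9) 0 with h697 | h697
              · rcases lt_or_ge (2*N + a - 2*l - 2*m - 2*U + V - 5) 0 with h698 | h698
                · exact T0_56 X hb ⟨by have := kA 1 h667 (kB 2 h6 (kA 1 h4 (kA 1 h3 (kC 1 b39 (kC 4 b17 k0))))); clear * - this; omega, by clear * - b17 h6 h698; omega⟩
                rcases lt_or_ge (-4*N + i - 2*a + 4*l + 4*m + 4*U - 2*V + 8) 0 with h699 | h699
                · rcases lt_or_ge (-N - 2*a - b + 2*l + 2*m + 2*c + 2*U - V + 3) 0 with h700 | h700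
                  · exact T0_56 X hb ⟨by have := kA 1 h699 (kA 1 h697 (kB 1 h695 (kA 2 h686 (kA 1 h683 (kA 1 h667 (kA 1 h4 (kA 1 h3 k0))))))); clear * - this; omega, by have := kA 2 h700 (kA 2 h697 (kA 1 h694 (kB 1 h687 (kA 2 h686 (kA 1 h683 (kA 1 h597 (kA 2 h4 k0))))))); clear * - this; omega⟩
                  exact T0_292 X hb ⟨by clear * - h685 h698; omega, by have := kA 1 h697 (kA 1 h694 (kA 1 h683 (kA 1 h4 (kC 1 b41 (kC 1 b17 k0))))); clear * - this; omega, by have := kA 1 h699 (kA 1 h697 (kB 3 h695 (kA 4 h694 (kA 6 h686 (kA 8 h685 (kA 2 h683 (kA 2 h597 (kA 8 h4 (kC 1 b43 k0))))))))); clear * - this; omega, by have := kA 1 h699 (kA 1 h697 (kA 1 h694 (kA 1 h683 (kA 1 h4 (kC 1 b41 (kC 1 b17 k0)))))); clear * - this; omega, by clear * - h700; omega⟩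
                exact T0_222 X hb ⟨by have := kB 1 h699 (kB 1 h698 (kB 1 h695 (kA 2 h694 (kA 2 h686 (kA 1 h683 (kA 5 h649 (kA 1 h597 (kA 5 h4 (kC 3 b17 k0))))))))); clear * - this; omega, by clear * - h698; omega, by clear * - h699; omega⟩
              exact T0_290 X hb ⟨by have := kB 1 h695 (kA 2 h686 (kB 2 h669 (kA 1 h667 (kB 1 h650 (kC 2 b43 k0))))); clear * - this; omega, by have := kB 2 h697 (kB 2 h695 (kA 4 h693 (kA 4 h686 (kA 2 h683 (kA 10 h649 (kB 6 h598 (kA 2 h597 (kA 1 h4 (kA 6 h2 k0))))))))); clear * - this; omega, by clear * - h697; omega, by clear * - h695; omega, by have := kB 4 h695 (kA 5 h694 (kA 8 h686 (kA 3 h685 (kA 4 h683 (kB 10 h669 (kA 9 h649 (kA 1 h597 (kA 3 h4 (kA 10 h2 (kC 8 b43 (kC 3 b41 k0))))))))))); clear * - this; omega, by have := kB 1 h697 (kB 2 h695 (kA 5 h686 (kA 1 h685 (kA 1 h684 (kB 1 h669 (kA 1 h667 (kA 4 h649 (kA 1 h2 (kC 3 b43 k0))))))))); clear * - this; omega, by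 have := kB 1 h697 (kA 1 h693 (kA 1 h685 (kA 1 h683 (kA 6 h649 (kC 1 b41 (kC 4 b17 k0)))))); clear * - this; omega⟩
            rcases lt_or_ge (N + b - m + 2*c - 2) 0 with h701 | h701
            · exact T0_72 X hb ⟨by have := kA 10 h701 (kB 1 h694 (kA 8 h693 (kB 7 h687 (kA 6 h686 (kA 6 h685 (kA 3 h683 (kA 5 h649 (kB 4 h598 (kA 3 h597 (kA 6 h4 (kA 2 h3 (kA 2 h2 k0)))))))))))); clear * - this; omega, by have := kA 2 h701 (kA 1 h693 (kB 1 h687 (kA 1 h685 (kA 1 h4 k0)))); clear * - this; omega, by have := kA 8 h701 (kB 1 h694 (kA 5 h693 (kB 2 h687 (kA 4 h686 (kA 4 h685 (kA 1 h683 (kA 1 h649 (kA 1 h597 (kA 4 h4 (kC 1 b43 k0)))))))))); clear * - this; omega, by have := kA 10 h701 (kB 1 h694 (kA 10 h693 (kB 5 h687 (kA 6 h686 (kA 6 h685 (kA 3 h683 (kA 5 h649 (kB 4 h598 (kA 3 h597 (kA 6 h4 (kA 2 h3 (kA 2 h2 k0)))))))))))); clear * - this; omega, by have := kA 8 h701 (kB 1 h694 (kA 5 h693 (kB 6 h687 (kA 4 h686 (kA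 1 h683 (kA 1 h649 (kA 1 h597 (kA 4 h4 (kC 1 b43 k0))))))))); clear * - this; omega⟩
            exact T0_120 X hb ⟨by have := kA 1 h685 (kA 1 h683 (kA 3 h649 (kB 1 h6 (kC 1 b41 (kC 4 b17 k0))))); clear * - this; omega, by have := kA 1 h693 (kA 1 h649 (kB 1 h6 (kC 2 b17 k0))); clear * - this; omega, by clear * - h694; omega, by have := kB 1 h694 (kA 5 h693 (kA 2 h685 (kA 2 h683 (kB 5 h669 (kA 1 h668 (kA 10 h649 (kA 2 h597 (kB 6 h6 (kA 2 h4 (kC 15 b17 k0)))))))))); clear * - this; omega, by have := kA 11 h693 (kB 7 h687 (kA 6 h686 (kA 2 h685 (kA 6 h597 (kA 8 h4 (kA 14 h3 (kA 6 h2 (kC 3 b43 (kC 6 b36 k0))))))))); clear * - this; omega, by clear * - h701; omega⟩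
          exact T0_130 X hb ⟨by clear * - h693; omega, by have := kB 1 h669 (kA 1 h668 (kC 1 b19 (kC 1 b17 k0))); clear * - this; omega, by have := kB 1 h687 (kA 2 h649 (kA 2 h3 (kC 1 b43 (kC 1 b41 (kC 1 b39 (kC 2 b17 k0)))))); clear * - this; omega, by clear * - h687; omega⟩
        rcases lt_or_ge (-i - 2*a - 2*b - l + m - 2*d - 1) 0 with h702 | h702
        · exact T0_111 X hb ⟨by have := kA 2 h702 (kB 1 h686 (kA 1 h685 (kA 2 h683 (kA 16 h649 (kB 6 h6 (kA 3 h4 (kA 4 h3 (kC 5 b41 (kC 3 b33 (kC 22 b17 k0)))))))))); clear * - this; omega, by have := kA 2 h702 (kB 1 h686 (kA 1 h685 (kA 4 h683 (kB 3 h650 (kA 20 h649 (kA 1 h3 (kC 7 b41 (kC 3 b33 (kC 20 b17 k0))))))))); clear * - this; omega, by have := kA 2 h649 (kB 8 h6 (kA 4 h4 (kC 4 b43 (kC 1 b41 (kC 1 b35 (kC 10 b17 (kC 3 b6 k0))))))); clear * - this; omega, by have := kA 2 h649 (kB 2 h598 (kA 2 h3 (kC 1 b43 (kC 1 b41 (kC 1 b40 (kC 1 b39 k0)))))); clear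 * - this; omega⟩
        rcases lt_or_ge (-2*N - 2*a - 2*b + 3*m - 2*d + 2*Y + 2) 0 with h703 | h703
        · exact T0_85 X hb ⟨by have := kA 1 h703 (kA 1 h667 (kB 1 h650 (kC 2 b17 (kC 1 b6 k0)))); clear * - this; omega, by have := kB 1 h669 (kA 2 h649 (kB 2 h6 (kA 1 h4 (kC 1 b41 (kC 1 b38 (kC 4 b17 k0)))))); clear * - this; omega, by have := kA 1 h703 (kA 1 h683 (kA 8 h649 (kA 2 h3 (kC 3 b41 (kC 1 b39 (kC 1 b33 (kC 8 b17 k0))))))); clear * - this; omega, by have := kA 1 h703 (kB 1 h702 (kA 2 h3 (kC 1 b6 k0))); clear * - this; omega⟩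
        rcases lt_or_ge (2*N + 2*a + 2*b - m + 2*d - L + 2*Y - 3) 0 with h704 | h704
        · rcases lt_or_ge (Q - i + 2*a + 2*b - l + m + 2*Y - 1) 0 with h705 | h705
          · exact T0_106 X hb (by have := kA 1 h705 (kA 1 h704 (kA 6 h649 (kB 2 h6 (kA 2 h5 (kA 1 h4 (kC 2 b41 (kC 1 b35 (kC 8 b17 (kC 1 b7 k0))))))))); clear * - this; omega)
          exact T0_380 X hb ⟨by have := kA 1 h704 (kA 6 h649 (kA 2 h5 (kC 2 b41 (kC 1 b39 (kC 6 b17 (kC 1 b7 k0)))))); clear * - this; omega, by clear * - h598 h650 h667; omega, by clear * - h705; omega, by have := kB 1 h705 (kA 2 h685 (kA 2 h684 (kA 1 h683 (kB 2 h650 (kA 2 h649 (kC 1 b41 (kC 4 b17 k0))))))); clear * - this; omega, by clear * - h686; omega⟩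
        exact T0_134 X hb ⟨by clear * - h702; omega, by clear * - h703; omega, by have := kB 1 h702 (kB 2 h686 (kA 1 h683 (kA 2 h649 (kC 1 b41 (kC 2 b17 k0))))); clear * - this; omega, by have := kB 1 h703 (kB 2 h686 (kA 1 h683 (kA 2 h649 (kC 1 b41 (kC 2 b17 k0))))); clear * - this; omega, by clear * - h686; omega, by have := kB 1 h704 (kA 1 h683 (kA 2 h649 (kC 1 b41 (kC 2 b17 k0)))); clear * - this; omega, by have := kA 1 h683 (kA 4 h649 (kA 2 h5 (kC 2 b41 (kC 4 b17 (kC 1 b11 k0))))); clear * - this; omega, by clear * - h704; omega, by have := kA 2 h649 (kA 2 h5 (kC 1 b41 (kC 2 b17 (kC 1 b11 k0)))); clear * - this; omega⟩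
      rcases lt_or_ge (-N + a + b + m - 2*c) 0 with h706 | h706
      · exact T0_106 X hb (by have := kA 2 h706 (kA 4 h649 (kC 1 b42 (kC 1 b41 (kC 1 b39 (kC 4 b17 k0))))); clear * - this; omega)
      exact T0_107 X hb ⟨by clear * - h685; omega, by clear * - h706; omega⟩
    rcases lt_or_ge (4*N - i - 2*a - 2*b - 2*l - 3*m + 2*c + d - 2*U + V - 6) 0 with h707 | h707
    · rcases lt_or_ge (-2*N + Q - i + 4*a + 4*b - 2*l - 4*c - 2*d - 2*U - 3) 0 with h708 | h708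
      · rcases lt_or_ge (-2*N + Q - i + a + 2*b + m - 2*c - d) 0 with h709 | h709
        · rcases lt_or_ge (-4*N - Q + 2*i + 4*l + 4*m + 4*U - 2*V + 9) 0 with h710 | h710
          · rcases lt_or_ge (-Q + i - a + b + l + 2*c + 1) 0 with h711 | h711
            · exact T0_328 X hb ⟨by have := kA 1 h711 (kA 1 h710 (kA 2 h709 (kA 2 h707 (kA 1 h683 (kA 2 h649 (kA 2 h4 (kC 1 b41 (kC 2 b17 k0)))))))); clear * - this; omega, by have := kA 1 h711 (kA 1 h710 (kA 2 h709 (kA 2 h707 (kA 2 h4 k0)))); clear * - this; omega, by have := kA 6 h710 (kA 1 h708 (kA 4 h707 (kA 4 h667 (kA 4 h649 (kA 1 h648 k0))))); clear * - this; omega, by have := kA 6 h710 (kA 1 h708 (kA 4 h707 (kA 4 h667 (kA 1 h648 k0)))); clear * - this; omega⟩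
            exact T0_158 X hb ⟨by have := kA 1 h710 (kA 2 h709 (kA 2 h707 (kA 1 h4 k0))); clear * - this; omega, by have := kA 3 h710 (kA 4 h709 (kA 4 h707 (kA 1 h683 (kA 6 h649 (kA 1 h4 (kC 1 b41 (kC 4 b17 (kC 1 b7 k0)))))))); clear * - this; omega, by clear * - h711; omega, by have := kA 3 h710 (kA 2 h709 (kA 1 h708 (kA 4 h707 (kA 1 h683 (kA 4 h649 (kA 1 h4 (kC 1 b41 (kC 2 b17 k0)))))))); clear * - this; omega⟩
          exact T0_69 X hb ⟨by clear * - h710; omega, by clear * - b3 h649; omega, by clear * - h684 h709; omega⟩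
        rcases lt_or_ge (2*N - 3*a - 2*b - m + 2*c + d - 2) 0 with h712 | h712
        · rcases lt_or_ge (-2*N + 2*m - 2*c - d + 2) 0 with h713 | h713
          · rcases lt_or_ge (N + a + b + l + c + 2*d + 2*U) 0 with h714 | h714
            · rcases lt_or_ge (-Q + i - a + b + l + 2*c + 1) 0 with h715 | h715
              · rcases lt_or_ge (-i + a + b - l - 2*c - 2) 0 with h716 | h716
                · rcases lt_or_ge (-N + l + m + U - V + 1) 0 with h717 | h717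
                  · exact T0_373 X hb ⟨by have := kA 2 h717 (kA 2 h716 (kA 2 h715 (kA 1 h708 (kA 2 h4 k0)))); clear * - this; omega, by have := kA 2 h717 (kA 2 h714 (kA 1 h712 (kB 1 h709 (kA 3 h708 (kB 6 h684 (kB 4 h669 (kA 4 h668 (kA 2 h667 k0)))))))); clear * - this; omega, by have := kA 2 h708 (kA 1 h707 (kB 1 h684 (kB 2 h650 k0))); clear * - this; omega, by have := kA 6 h717 (kA 2 h716 (kA 2 h715 (kA 2 h712 (kA 2 h708 (kA 3 h707 (kB 4 h6 (kA 5 h4 k0))))))); clear * - this; omega⟩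
                  exact T0_56 X hb ⟨by have := kA 1 h716 (kA 2 h713 (kA 6 h712 (kA 2 h708 (kA 1 h707 (kB 1 h684 (kA 4 h683 (kB 2 h669 (kA 3 h4 (kA 2 h3 (kC 3 b41 k0)))))))))); clear * - this; omega, by clear * - h717; omega⟩
                exact T0_328 X hb ⟨by have := kB 1 h716 (kA 1 h712 (kB 1 h709 (kA 1 h708 (kA 1 h683 (kC 1 b41 k0))))); clear * - this; omega, by clear * - h716; omega, by have := kA 1 h708 (kA 2 h707 (kB 2 h684 (kB 4 h650 (kA 4 h649 (kA 1 h648 k0))))); clear * - this; omega, by have := kA 1 h708 (kA 2 h707 (kB 2 h684 (kB 4 h650 (kA 1 h648 k0)))); clear * - this; omega⟩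
              rcases lt_or_ge (-Q + i + a + b) 0 with h718 | h718
              · rcases lt_or_ge (-N + l + m + U - V + 1) 0 with h719 | h719
                · exact T0_373 X hb ⟨by clear * - h708 h718 h719; omega, by have := kA 6 h719 (kA 3 h718 (kB 1 h715 (kA 2 h714 (kA 2 h712 (kA 3 h708 (kB 8 h684 (kB 6 h669 (kA 6 h668 (kA 4 h667 k0))))))))); clear * - this; omega, by have := kA 2 h708 (kA 1 h707 (kB 1 h684 (kB 2 h650 k0))); clear * - this; omega, by have := kA 6 h719 (kA 2 h718 (kA 2 h712 (kA 2 h708 (kA 3 h707 (kB 4 h6 (kA 3 h4 k0)))))); clear * - this; omega⟩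
                exact T0_56 X hb ⟨by have := kB 1 h715 (kA 2 h712 (kA 1 h683 (kB 2 h669 (kB 1 h650 (kA 1 h3 k0))))); clear * - this; omega, by clear * - h719; omega⟩
              exact T0_158 X hb ⟨by clear * - h718; omega, by have := kB 1 h718 (kA 2 h713 (kA 5 h712 (kB 3 h709 (kA 3 h708 (kA 3 h683 (kC 3 b41 (kC 1 b7 k0))))))); clear * - this; omega, by clear * - h715; omega, by have := kB 1 h718 (kA 2 h713 (kA 4 h712 (kB 4 h709 (kA 3 h708 (kA 3 h683 (kC 3 b41 k0)))))); clear * - this; omega⟩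
            rcases lt_or_ge (3*N + a + b - 2*m + 3*c + 2*d - 3) 0 with h720 | h720
            · exact T0_328 X hb ⟨by have := kA 1 h720 (kB 1 h714 (kA 2 h713 (kA 4 h712 (kB 2 h709 (kA 2 h708 (kA 3 h683 (kA 1 h4 (kC 3 b41 k0)))))))); clear * - this; omega, by have := kA 1 h720 (kB 1 h714 (kA 2 h713 (kA 3 h712 (kB 1 h709 (kA 1 h708 (kA 2 h683 (kA 1 h4 (kC 2 b41 k0)))))))); clear * - this; omega, by have := kA 1 h708 (kA 2 h707 (kB 2 h684 (kB 4 h650 (kA 4 h649 (kA 1 h648 k0))))); clear * - this; omega, by have := kA 1 h708 (kA 2 h707 (kB 2 h684 (kB 4 h650 (kA 1 h648 k0)))); clear * - this; omega⟩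
            exact T0_119 X hb ⟨by have := kB 1 h720 (kA 6 h712 (kB 2 h709 (kA 4 h708 (kA 2 h707 (kB 2 h684 (kA 4 h683 (kA 2 h4 (kA 4 h3 (kC 4 b41 k0))))))))); clear * - this; omega, by have := kB 1 h720 (kA 9 h712 (kB 5 h709 (kA 7 h708 (kA 2 h707 (kB 2 h684 (kA 7 h683 (kA 2 h4 (kA 4 h3 (kC 7 b41 k0))))))))); clear * - this; omega, by clear * - h720; omega, by clear * - h714; omega, by have := kA 1 h713 (kA 1 h708 (kB 2 h684 (kA 1 h667 k0))); clear * - this; omega⟩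
          rcases lt_or_ge (-i - 2*a - 2*b - l + m - 2*d - 1) 0 with h721 | h721
          · exact T0_111 X hb ⟨by have := kA 2 h721 (kA 4 h712 (kB 4 h709 (kA 3 h708 (kB 2 h650 (kA 1 h648 (kA 2 h3 (kC 2 b41 (kC 2 b33 k0)))))))); clear * - this; omega, by clear * - h669 h713; omega, by have := kA 6 h712 (kB 2 h709 (kA 3 h708 (kA 1 h707 (kB 1 h684 (kA 4 h683 (kA 4 h5 (kA 2 h4 (kC 1 b43 (kC 4 b41 (kC 1 b6 k0)))))))))); clear * - this; omega, by have := kA 1 h708 (kB 4 h684 (kB 1 h669 (kA 2 h667 (kA 1 h648 (kA 1 h5 k0))))); clear * - this; omega⟩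
          rcases lt_or_ge (4*N - 3*m + 2*c + 2*d - L - 5) 0 with h722 | h722
          · exact T0_153 X hb ⟨by have := kA 2 h712 (kA 2 h708 (kB 2 h684 (kA 1 h683 (kA 2 h668 (kA 1 h597 (kB 1 h6 (kA 2 h5 (kC 1 b7 k0)))))))); clear * - this; omega, by have := kA 1 h722 (kA 2 h712 (kA 1 h708 (kA 1 h707 (kA 1 h683 (kA 3 h5 (kA 2 h4 (kC 2 b41 (kC 1 b17 (kC 1 b7 k0))))))))); clear * - this; omega, by have := kA 6 h722 (kA 1 h712 (kB 3 h709 (kA 5 h708 (kA 2 h707 (kB 8 h684 (kB 4 h669 (kA 8 h668 (kA 2 h597 (kA 4 h5 (kA 4 h3 (kC 4 b41 k0))))))))))); clear * - this; omega, by have := kA 1 h722 (kA 1 h707 (kA 1 h5 (kC 1 b41 (kC 1 b17 k0)))); clear * - this; omega⟩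
          rcases lt_or_ge (4*N + 2*a + 2*b - 4*m + 2*c + 2*d - L - 6) 0 with h723 | h723
          · exact T0_47 X hb ⟨by have := kA 1 h723 (kA 1 h712 (kB 1 h709 (kA 2 h5 (kC 1 b41 k0)))); clear * - this; omega, by clear * - b17 h683 h722; omega, by have := kA 1 h723 (kB 1 h722 (kA 2 h712 (kB 2 h709 (kA 1 h708 (kA 2 h5 (kC 1 b41 (kC 1 b33 k0))))))); clear * - this; omega, by have := kA 3 h723 (kB 1 h722 (kA 14 h712 (kA 6 h708 (kA 8 h707 (kB 2 h684 (kA 9 h683 (kB 4 h669 (kA 2 h597 (kA 12 h5 (kA 8 h4 (kA 4 h3 (kC 9 b41 k0)))))))))))); clear * - this; omega⟩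
          exact T0_387 X hb ⟨by clear * - h5; omega, by clear * - h713; omega, by clear * - h721; omega, by have := kA 6 h712 (kB 2 h709 (kA 3 h708 (kA 4 h683 (kA 1 h648 (kA 2 h4 (kC 4 b41 k0)))))); clear * - this; omega, by clear * - h722; omega, by clear * - h723; omega⟩
        exact T0_156 X hb ⟨by clear * - h712; omega, by clear * - h709; omega, by have := kB 2 h712 (kB 1 h709 (kA 2 h707 (kB 1 h684 (kB 2 h669 (kA 2 h667 (kB 8 h6 (kA 1 h5 (kA 2 h4 (kC 1 b43 (kC 13 b17 k0)))))))))); clear * - this; omega, by clear * - h708 h709; omega⟩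
      exact T0_127 X hb ⟨by clear * - h708; omega, by have := kB 1 h708 (kA 1 h667 (kB 1 h650 (kA 1 h648 k0))); clear * - this; omega, by have := kB 17 h708 (kA 2 h707 (kB 2 h684 (kB 8 h669 (kA 16 h668 (kA 7 h648 (kA 4 h597 (kA 2 h4 (kA 12 h3 (kA 12 h2 (kC 4 b41 (kC 8 b39 k0))))))))))); clear * - this; omega, by have := kA 1 h683 (kA 2 h649 (kA 1 h5 (kC 1 b41 (kC 3 b17 k0)))); clear * - this; omega⟩
    exact T0_230 X hb ⟨by have := kA 1 h683 (kA 4 h649 (kA 1 h5 (kC 1 b41 (kC 3 b17 k0)))); clear * - this; omega, by have := kB 14 h684 (kB 12 h669 (kA 3 h667 (kA 2 h649 (kB 2 h6 (kA 7 h5 (kA 1 h4 (kA 11 h2 (kC 7 b43 (kC 1 b41 (kC 1 b38 k0)))))))))); clear * - this; omega, by clear * - h707; omega, by clear * - h684; omega⟩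
  exact T0_279 X hb ⟨by have := kB 1 h683 (kB 4 h669 (kB 2 h650 (kA 2 h3 (kC 3 b43 (kC 1 b39 k0))))); clear * - this; omega, by have := kB 2 h683 (kB 1 h650 (kA 2 h597 (kA 1 h4 (kA 7 h3 (kA 2 h2 (kC 2 b43 (kC 2 b36 (kC 2 b33 k0)))))))); clear * - this; omega, by clear * - h669; omega, by clear * - h683; omega⟩

theorem M12 (X : C W N Q i a b l m c d L U V Y) (hb : B N Q i a b l m c d L U V Y)
    (h1 : (-N + m - c) < 0)
    (h2 : (3*N + Q - i - 2*l - 3*m + c + d - 2*U + V - 6) < 0)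
    (h3 : (N + c + d - 1) < 0)
    (h4 : (i + a - b) < 0)
    (h5 : (-2*N + 2*m - 2*c - d + 1) < 0)
    (h6 : (N + a - l - m - U - V - 3) ≥ 0)
    (h597 : (-3*N - Q + i + a + 2*b + 2*l + 2*m + L + 3*U - V + 6) < 0)
    (h598 : (2*N - a - b - m + 2*c + d + V - 2) < 0) : False := by
  have b1 := hb.b1
  have b2 := hb.b2
  have b3 := hb.b3
  have b6 := hb.b6
  have b11 := hb.b11
  have b14 := hb.b14
  have b17 := hb.b17
  have b18 := hb.b18
  have b19 := hb.b19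
  have b21 := hb.b21
  have b32 := hb.b32
  have b33 := hb.b33
  have b34 := hb.b34
  have b36 := hb.b36
  have b38 := hb.b38
  have b39 := hb.b39
  have b40 := hb.b40
  have b41 := hb.b41
  have b42 := hb.b42
  have b43 := hb.b43
  have b44 := hb.b44
  have b45 := hb.b45
  rcases lt_or_ge (2*N - a - b - m + 2*c + d + V - 1) 0 with h599 | h599
  · rcases lt_or_ge (4*N + Q - i - 2*a - 2*b - l - 2*m + 2*c + 2*d + 2*V - 4) 0 with h600 | h600
    · rcases lt_or_ge (N + Q - i + a + b - 2*l - 2*m - c - 2*U + V - 5) 0 with h601 | h601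
      · rcases lt_or_ge (-2*N + i + 4*a + 4*b - 2*c) 0 with h602 | h602
        · rcases lt_or_ge (-3*N + a + b + 2*m - 2*c - 2*d - V + 1) 0 with h603 | h603
          · rcases lt_or_ge (N - l - m - U + V - 3) 0 with h604 | h604
            · exact T0_228 X hb ⟨by have := kA 2 h604 (kA 2 h600 (kA 2 h599 (kA 2 h597 (kA 4 h5 (kC 1 b43 (kC 1 b41 (kC 3 b33 (kC 8 b17 k0)))))))); clear * - this; omega, by have := kA 6 h604 (kA 4 h603 (kA 4 h600 (kA 2 h599 (kA 2 h597 (kC 2 b44 (kC 1 b43 (kC 1 b41 (kC 5 b33 (kC 8 b17 k0))))))))); clear * - this; omega, by have := kA 1 h604 (kA 1 h603 (kA 1 h600 (kA 1 h597 (kA 1 h5 (kC 1 b33 (kC 2 b17 k0)))))); clear * - this; omega⟩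
            exact T0_35 X hb ⟨by have := kA 2 h602 (kA 2 h600 (kA 4 h599 (kA 2 h5 (kC 1 b39 (kC 1 b38 (kC 4 b17 (kC 1 b11 k0))))))); clear * - this; omega, by clear * - h604; omega⟩
          rcases lt_or_ge (-i - 2*a - 2*b - 2*l - 2*c - 2*d - 2*U - 3) 0 with h605 | h605
          · exact T0_56 X hb ⟨by have := kA 1 h602 (kA 1 h600 (kA 2 h599 (kA 2 h5 (kC 1 b39 (kC 4 b17 (kC 1 b11 (kC 1 b1 k0))))))); clear * - this; omega, by clear * - h599 h602 h605; omega⟩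
          rcases lt_or_ge (4*N - i - 2*m + 2*c + 2*d - L - 4) 0 with h606 | h606
          · exact T0_35 X hb ⟨by have := kA 3 h606 (kB 1 h605 (kB 2 h603 (kA 5 h602 (kA 10 h600 (kA 6 h599 (kA 4 h597 (kA 12 h5 (kA 2 h4 (kC 7 b38 (kC 12 b17 (kC 8 b11 k0))))))))))); clear * - this; omega, by have := kA 1 h606 (kA 2 h5 (kC 1 b42 (kC 1 b41 (kC 2 b17 (kC 1 b11 k0))))); clear * - this; omega⟩
          exact T0_217 X hb ⟨by have := kB 2 h603 (kA 6 h3 (kC 1 b45 (kC 2 b43 (kC 1 b41 (kC 1 b40 (kC 2 b39 (kC 4 b17 k0))))))); clear * - this; omega, by have := kB 1 h605 (kA 2 h5 (kC 1 b18 (kC 2 b17 (kC 1 b11 k0)))); clear * - this; omega, by have := kB 1 h606 (kB 9 h605 (kB 14 h603 (kA 6 h600 (kA 6 h597 (kB 2 h6 (kA 4 h4 (kA 20 h3 (kC 7 b43 (kC 7 b41 (kC 14 b36 (kC 22 b17 k0))))))))))); clear * - this; omega, by clear * - h605; omega, by have := kB 1 h605 (kB 6 h603 (kA 2 h602 (kA 2 h600 (kA 4 h599 (kA 2 h597 (kA 2 h3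 (kC 1 b44 (kC 3 b38 (kC 4 b17 k0))))))))); clear * - this; omega, by clear * - h599 h602; omega, by clear * - h603; omega, by clear * - h606; omega, by have := kB 1 h606 (kA 2 h599 (kA 1 h597 (kB 1 h6 (kA 2 h5 (kC 1 b44 (kC 1 b38 (kC 6 b17 (kC 1 b14 k0)))))))); clear * - this; omega, by have := kB 2 h606 (kB 2 h603 (kA 2 h599 (kA 2 h5 (kC 1 b43 (kC 1 b41 (kC 1 b33 (kC 4 b17 k0))))))); clear * - this; omega, by have := kB 2 h603 (kA 3 h599 (kB 10 h6 (kA 3 h5 (kA 1 h4 (kC 4 b44 (kC 1 b38 (kC 21 b17 k0))))))); clear * - this; omega, by have := kB 1 h606 (kB 4 h603 (kA 1 h600 (kA 1 h599 (kA 1 h597 (kB 5 h6 (kA 1 h5 (kA 3 h4 (kC 2 b43 (kC 2 b41 (kC 11 b17 k0)))))))))); clear * - this; omega, by have := kB 4 h603 (kA 1 h600 (kA 4 h599 (kA 1 h597 (kB 9 h6 (kA 4 h5 (kC 5 b44 (kC 1 b43 (kC 1 b41 (kC 3 b39 (kC 26 b17 k0)))))))))); clear * - this; omega⟩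
        rcases lt_or_ge (N - a - 2*b + c - 1) 0 with h607 | h607
        · rcases lt_or_ge (-3*N - i - a + m - 2*c - 2*d + L - U - V + 2) 0 with h608 | h608
          · rcases lt_or_ge (-a + V) 0 with h609 | h609
            · rcases lt_or_ge (a - 2*V - 1) 0 with h610 | h610
              · rcases lt_or_ge (-2*N - i - 2*a - l - 2*c - 2*d + L - 2*U) 0 with h611 | h611
                · rcases lt_or_ge (2*N - m + c + 2*d + V - 2) 0 with h612 | h612
                  · exact T0_10 X hb ⟨by have := kA 4 h612 (kA 1 h611 (kA 16 h610 (kA 26 h609 (kA 1 h608 (kA 5 h601 (kA 9 h599 (kA 11 h597 (kA 6 h4 (kA 7 h3 (kC 4 b38 (kC 9 b33 k0))))))))))); clear * - this; omega, by have := kA 1 h611 (kA 2 h610 (kA 1 h600 (kA 2 h5 (kC 1 b39 (kC 1 b11 (kC 1 b3 k0)))))); clear * - this; omega, by have := kA 2 h610 (kA 4 h609 (kA 1 h601 (kA 1 h599 (kA 1 h3 (kC 1 b43 (kC 1 b41 (kC 1 b39 k0))))))); clear * - this; omega⟩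
                  exact T0_7 X hb ⟨by have := kA 1 h611 (kA 5 h610 (kA 7 h609 (kA 1 h601 (kA 2 h600 (kA 2 h597 (kA 1 h5 (kA 1 h4 (kA 3 h3 (kC 3 b33 (kC 2 b3 k0)))))))))); clear * - this; omega, by clear * - h612; omega, by have := kB 4 h612 (kA 13 h611 (kA 4 h610 (kA 8 h609 (kA 14 h601 (kA 13 h600 (kA 18 h597 (kA 8 h5 (kA 24 h4 (kA 34 h3 (kC 11 b36 (kC 20 b33 k0))))))))))); clear * - this; omega⟩
                exact T0_226 X hb ⟨by clear * - h611; omega, by clear * - h609; omega, by have := kA 1 h608 (kA 1 h597 (kA 2 h4 (kA 2 h3 (kC 1 b36 (kC 1 b33 k0))))); clear * - this; omega, by have := kA 1 h610 (kA 1 h607 (kA 1 h601 (kA 1 h599 (kA 1 h5 (kC 1 b33 k0))))); clear * - this; omega⟩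
              rcases lt_or_ge (-2*N - i - a - l - 2*c - 2*d + L - 2*U) 0 with h613 | h613
              · exact T0_10 X hb ⟨by have := kA 1 h613 (kB 3 h610 (kA 1 h601 (kA 1 h599 (kA 2 h597 (kA 2 h4 (kA 3 h3 (kC 1 b36 (kC 2 b33 (kC 6 b17 k0))))))))); clear * - this; omega, by have := kA 1 h613 (kA 1 h4 (kA 1 h3 (kC 1 b39 (kC 1 b17 k0)))); clear * - this; omega, by have := kA 1 h613 (kA 1 h609 (kA 1 h3 (kA 1 h2 (kC 1 b39 (kC 1 b21 k0))))); clear * - this; omega⟩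
              exact T0_225 X hb ⟨by clear * - h610; omega, by have := kB 1 h610 (kA 1 h608 (kA 1 h597 (kA 2 h4 (kA 2 h3 (kC 1 b36 (kC 1 b33 (kC 2 b17 k0))))))); clear * - this; omega, by have := kA 1 h607 (kA 1 h601 (kA 1 h599 (kA 1 h5 (kC 1 b33 (kC 2 b17 k0))))); clear * - this; omega, by clear * - h613; omega⟩
            rcases lt_or_ge (a - V) 0 with h614 | h614
            · rcases lt_or_ge (-2*N - i - l - 2*c - 2*d + L - 2*U - 2*V) 0 with h615 | h615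
              · exact T0_10 X hb ⟨by have := kA 1 h615 (kA 1 h608 (kA 1 h601 (kA 2 h600 (kA 1 h599 (kA 3 h597 (kA 2 h4 (kA 3 h3 (kC 3 b33 (kC 2 b32 (kC 4 b2 k0)))))))))); clear * - this; omega, by have := kA 1 h615 (kA 1 h607 (kA 1 h5 (kA 1 h4 (kC 1 b39 (kC 1 b17 k0))))); clear * - this; omega, by have := kA 1 h600 (kB 2 h6 (kC 1 b45 (kC 1 b33 (kC 4 b17 k0)))); clear * - this; omega⟩
              exact T0_220 X hb ⟨by clear * - h615; omega, by have := kB 1 h615 (kA 2 h608 (kA 1 h600 (kC 1 b32 k0))); clear * - this; omega, by clear * - h614; omega, by have := kA 1 h600 (kA 2 h5 (kC 1 b33 (kC 1 b18 (kC 2 b17 (kC 1 b11 k0))))); clear * - this; omega⟩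
            exact T0_22 X hb ⟨by have := kB 2 h614 (kA 1 h608 (kA 1 h601 (kA 1 h599 (kA 1 h597 (kA 2 h4 (kA 3 h3 (kC 1 b36 (kC 1 b33 (kC 2 b17 k0))))))))); clear * - this; omega, by have := kB 4 h614 (kA 3 h608 (kA 1 h597 (kA 6 h5 (kA 4 h4 (kC 2 b34 (kC 1 b33 (kC 1 b32 (kC 5 b11 k0)))))))); clear * - this; omega, by clear * - h600 h609; omega, by clear * - h614; omega, by clear * - h609; omega⟩
          rcases lt_or_ge (N - a - l - m - U + V - 3) 0 with h616 | h616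
          · exact T0_77 X hb ⟨by have := kA 1 h599 (kA 1 h5 (kA 1 h4 (kC 1 b43 (kC 1 b41 (kC 1 b39 (kC 3 b17 k0)))))); clear * - this; omega, by have := kA 1 h616 (kA 1 h607 (kA 1 h601 (kA 1 h597 (kA 1 h3 (kC 1 b33 k0))))); clear * - this; omega, by have := kA 2 h616 (kA 6 h607 (kB 1 h602 (kA 4 h601 (kA 4 h597 (kA 4 h5 (kC 4 b33 (kC 1 b18 (kC 8 b17 k0)))))))); clear * - this; omega⟩
          exact T0_12 X hb ⟨by clear * - h616; omega, by clear * - h608; omega⟩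
        exact T0_188 X hb ⟨by have := kB 1 h602 (kA 2 h5 (kA 4 h4 (kA 2 h3 (kC 4 b11 (kC 3 b1 k0))))); clear * - this; omega, by clear * - h607; omega, by clear * - h602; omega⟩
      rcases lt_or_ge (-N - a - b + l + 2*m - c + 2*U - V + 2) 0 with h617 | h617
      · rcases lt_or_ge (-N - b + m - c - d - V) 0 with h618 | h618
        · rcases lt_or_ge (-3*N - i - a + m - 2*c - 2*d + L - U - V + 2) 0 with h619 | h619
          · rcases lt_or_ge (N + b - m + c + d + V - 2) 0 with h620 | h620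
            · exact T0_296 X hb ⟨by clear * - h620; omega, by clear * - h618; omega, by have := kA 2 h620 (kA 1 h619 (kA 1 h617 (kB 2 h601 (kA 1 h597 (kA 1 h5 (kA 1 h4 (kA 3 h2 (kC 1 b33 k0)))))))); clear * - this; omega⟩
            exact T0_10 X hb ⟨by have := kB 1 h620 (kA 2 h597 (kA 1 h4 (kA 2 h3 (kA 1 h2 (kC 2 b33 (kC 1 b18 (kC 3 b2 k0))))))); clear * - this; omega, by clear * - h620; omega, by have := kA 1 h617 (kB 1 h601 (kA 1 h597 (kB 3 h6 (kA 4 h2 (kC 1 b43 (kC 1 b40 (kC 1 b33 k0))))))); clear * - this; omega⟩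
          rcases lt_or_ge (N - a - l - m - U + V - 3) 0 with h621 | h621
          · exact T0_2 X hb ⟨by have := kA 1 h617 (kB 1 h601 (kA 1 h600 (kC 2 b45 (kC 2 b33 k0)))); clear * - this; omega, by have := kA 1 h621 (kA 2 h618 (kA 1 h597 (kA 1 h3 (kC 1 b33 k0)))); clear * - this; omega⟩
          exact T0_12 X hb ⟨by clear * - h621; omega, by clear * - h619; omega⟩
        exact T0_77 X hb ⟨by have := kA 1 h599 (kA 1 h5 (kA 1 h4 (kC 1 b43 (kC 1 b41 (kC 1 b39 (kC 3 b17 k0)))))); clear * - this; omega, by clear * - h618; omega, by have := kA 2 h617 (kA 2 h5 (kC 2 b18 (kC 4 b17 (kC 2 b11 (kC 1 b1 k0))))); clear * - this; omega⟩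
      exact T0_30 X hb ⟨by clear * - h617; omega, by clear * - h601; omega, by have := kA 1 h597 (kB 1 h6 (kA 1 h5 (kA 1 h4 (kA 1 h2 (kC 1 b33 (kC 1 b18 (kC 2 b17 k0))))))); clear * - this; omega⟩
    rcases lt_or_ge (2*N - Q - 2*a - 2*b + 2*c) 0 with h622 | h622
    · exact T0_30 X hb ⟨by have := kA 1 h622 (kB 1 h600 (kA 1 h597 (kB 1 h6 (kA 1 h5 (kA 1 h4 (kA 3 h2 (kC 1 b33 k0))))))); clear * - this; omega, by have := kA 1 h622 (kA 1 h599 (kA 1 h597 (kB 1 h6 (kA 1 h5 (kA 1 h4 (kC 1 b33 (kC 3 b17 k0))))))); clear * - this; omega, by have := kA 1 h597 (kB 1 h6 (kA 1 h5 (kA 1 h4 (kA 1 h2 (kC 1 b33 (kC 1 b18 (kC 2 b17 k0))))))); clear * - this; omega⟩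
    exact T0_64 X hb ⟨by clear * - h600; omega, by clear * - h599; omega, by clear * - h622; omega⟩
  rcases lt_or_ge (2*N - l - 2*m + 2*c - 2*U + 2*V - 4) 0 with h623 | h623
  · rcases lt_or_ge (l + m + c + d + 2*U - V + Y + 1) 0 with h624 | h624
    · rcases lt_or_ge (-3*N - i - 2*a + m - 2*c - 2*d + L - U - V + 2) 0 with h625 | h625
      · rcases lt_or_ge (-N + a + b + m - c + 1) 0 with h626 | h626
        · rcases lt_or_ge (N + b - m + 2*c - 2) 0 with h627 | h627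
          · rcases lt_or_ge (-2*a - 2*b + m + 2*Y) 0 with h628 | h628
            · rcases lt_or_ge (2*a + b - 2*l - c - d - 2*U + V + Y - 3) 0 with h629 | h629
              · exact T0_104 X hb ⟨by have := kA 2 h629 (kA 2 h598 (kC 1 b41 (kC 1 b33 (kC 2 b17 (kC 2 b2 k0))))); clear * - this; omega, by clear * - h599; omega, by clear * - h598; omega⟩
              exact T0_372 X hb ⟨by clear * - h629; omega, by have := kB 1 h629 (kA 1 h623 (kB 1 h599 (kA 1 h5 (kA 1 h4 (kC 1 b18 (kC 1 b17 k0)))))); clear * - this; omega, by have := kB 5 h629 (kA 2 h627 (kA 3 h626 (kA 4 h597 (kA 1 h5 (kA 3 h4 (kA 3 h3 (kA 4 h2 (kC 1 b39 (kC 3 b38 k0))))))))); clear * - this; omega, by have := kB 1 h629 (kA 2 h628 (kA 4 h623 (kB 4 h599 (kA 2 h597 (kA 4 h5 (kA 2 h3 (kA 2 h2 (kC 2 b39 k0)))))))); clear * - this; omega⟩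
            rcases lt_or_ge (-N + a + b - c - d - Y - 1) 0 with h630 | h630
            · exact T0_89 X hb ⟨by have := kA 2 h630 (kA 2 h625 (kA 2 h624 (kA 6 h4 (kA 4 h3 (kC 1 b41 (kC 1 b36 (kC 2 b33 (kC 2 b18 (kC 6 b2 k0))))))))); clear * - this; omega, by have := kA 2 h630 (kA 2 h598 (kC 2 b17 (kC 1 b6 k0))); clear * - this; omega, by have := kB 2 h6 (kA 2 h4 (kC 1 b18 (kC 4 b17 k0))); clear * - this; omega, by have := kA 1 h626 (kA 1 h624 (kA 1 h623 (kB 1 h599 (kC 1 b2 k0)))); clear * - this; omega, by have := kA 3 h630 (kA 1 h627 (kA 2 h626 (kA 2 h625 (kA 1 h624 (kA 6 h598 (kA 4 h4 (kC 2 b33 (kC 3 b17 (kC 3 b6 (kC 3 b2 k0)))))))))); clear * - this; omega⟩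
            exact T0_154 X hb ⟨by have := kA 3 h626 (kA 2 h623 (kB 1 h599 (kA 1 h597 (kB 3 h6 (kA 2 h4 (kA 1 h2 (kC 1 b33 (kC 6 b17 k0)))))))); clear * - this; omega, by clear * - h628; omega, by clear * - h630; omega, by have := kA 2 h627 (kA 2 h625 (kA 1 h598 (kA 1 h597 (kB 3 h6 (kA 3 h5 (kA 5 h4 (kA 2 h2 (kC 1 b32 (kC 3 b17 (kC 1 b6 k0)))))))))); clear * - this; omega, by have := kB 3 h628 (kA 12 h627 (kA 4 h625 (kA 4 h598 (kA 8 h5 (kA 14 h4 (kC 2 b41 (kC 1 b40 (kC 10 b6 (kC 8 b2 k0))))))))); clear * - this; omega, by have := kB 2 h630 (kB 1 h628 (kA 1 h625 (kB 1 h6 (kA 2 h4 (kC 1 b2 k0))))); clear * - this; omega, by have := kA 1 h598 (kA 1 h5 (kA 1 h4 (kC 1 b41 (kC 1 b18 (kC 3 b17 (kC 2 b2 k0)))))); clear * - this; omega⟩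
          rcases lt_or_ge (-N - Q + i + b + l + m + 2) 0 with h631 | h631
          · rcases lt_or_ge (-2*N - Q + i + l + m - 2*d - 2*V + 2) 0 with h632 | h632
            · exact T0_2 X hb ⟨by have := kA 3 h632 (kB 4 h627 (kA 3 h626 (kA 1 h623 (kA 3 h598 (kA 2 h597 (kB 2 h6 (kA 5 h2 (kC 2 b39 k0)))))))); clear * - this; omega, by have := kA 2 h632 (kA 2 h631 (kA 2 h624 (kA 1 h598 (kA 3 h5 (kA 1 h4 (kA 3 h2 (kC 1 b41 (kC 1 b39 (kC 1 b6 k0))))))))); clear * - this; omega⟩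
            exact T0_7 X hb ⟨by have := kB 1 h632 (kA 4 h631 (kA 2 h625 (kA 2 h624 (kA 4 h4 (kA 2 h3 (kA 2 h2 (kC 1 b41 (kC 1 b39 (kC 2 b36 k0))))))))); clear * - this; omega, by have := kA 1 h631 (kA 3 h625 (kA 1 h623 (kB 1 h599 (kA 1 h597 (kA 4 h4 (kA 3 h3 (kA 2 h2 (kC 3 b39 (kC 1 b36 k0))))))))); clear * - this; omega, by clear * - h632; omega⟩
          exact T0_313 X hb ⟨by clear * - h631; omega, by have := kB 1 h627 (kA 1 h623 (kB 2 h6 (kC 4 b17 k0))); clear * - this; omega, by have := kB 4 h631 (kB 3 h627 (kA 6 h625 (kA 13 h623 (kB 16 h599 (kA 4 h597 (kA 4 h5 (kA 6 h4 (kA 12 h3 (kC 1 b44 (kC 11 b39 (kC 16 b2 k0))))))))))); clear * - this; omega, by have := kB 3 h627 (kA 1 h626 (kA 2 h623 (kA 1 h598 (kA 1 h597 (kB 1 h6 (kA 1 h2 (kC 1 b39 (kC 6 b17 k0)))))))); clear * - this; omega, by have := kB 3 h627 (kA 2 h625 (kA 6 h623 (kA 4 h597 (kA 2 h4 (kA 4 h2 (kC 5 b39 (kC 1 b33 (kC 10 b17 (kC 2 b2 k0)))))))));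 clear * - this; omega, by clear * - h627; omega⟩
        rcases lt_or_ge (N - a - b - m + c - 1) 0 with h633 | h633
        · rcases lt_or_ge (3*N + Q - i - 2*l - 3*m + c + d - 2*U + 2*V - 6) 0 with h634 | h634
          · rcases lt_or_ge (N + c + d) 0 with h635 | h635
            · rcases lt_or_ge (2*N - b - 2*m + c + d - V - Y - 3) 0 with h636 | h636
              · exact T0_10 X hb ⟨by have := kA 2 h636 (kA 1 h635 (kA 1 h634 (kA 1 h623 (kA 2 h597 (kA 2 h5 (kC 1 b42 (kC 2 b33 (kC 2 b2 k0)))))))); clear * - this; omega, by have := kA 1 h636 (kA 1 h633 (kA 1 h624 (kA 1 h623 (kB 1 h599 (kA 2 h5 k0))))); clear * - this; omega, by have := kA 2 h636 (kA 3 h635 (kA 1 h634 (kA 2 h633 (kA 1 h623 (kB 4 h599 (kB 4 h6 (kC 1 b42 k0))))))); clear * - this; omega⟩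
              rcases lt_or_ge (2*a + b - 2*l - c - d - 2*U + V + Y - 3) 0 with h637 | h637
              · exact T0_104 X hb ⟨by have := kA 2 h637 (kA 2 h635 (kA 2 h633 (kC 1 b41 (kC 1 b33 (kC 2 b2 k0))))); clear * - this; omega, by clear * - h599; omega, by clear * - h598; omega⟩
              exact T0_372 X hb ⟨by clear * - h637; omega, by have := kB 1 h637 (kA 1 h635 (kA 1 h633 (kA 1 h623 (kB 2 h599 (kA 1 h5 (kA 1 h4 (kC 1 b18 k0))))))); clear * - this; omega, by have := kB 1 h637 (kB 1 h636 (kA 8 h635 (kA 2 h634 (kA 6 h633 (kB 6 h599 (kA 2 h597 (kC 2 b40 (kC 2 b39 k0)))))))); clear * - this; omega, by clear * - h636; omega⟩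
            exact T0_198 X hb ⟨by clear * - h635; omega, by clear * - h3; omega, by have := kA 2 h633 (kA 1 h623 (kB 2 h599 (kA 2 h3 k0))); clear * - this; omega, by have := kA 4 h633 (kA 1 h623 (kB 2 h599 (kA 1 h5 (kA 3 h3 (kA 1 h1 k0))))); clear * - this; omega, by have := kA 2 h634 (kA 11 h633 (kA 3 h623 (kB 8 h599 (kA 2 h597 (kA 5 h5 (kA 1 h4 (kA 9 h3 (kC 1 b39 (kC 1 b38 k0))))))))); clear * - this; omega, by have := kA 1 h634 (kA 4 h633 (kA 1 h625 (kA 2 h623 (kB 4 h599 (kA 2 h597 (kB 1 h6 (kA 4 h4 (kA 9 h3 (kC 3 b33 (kC 3 b6 (kC 3 b2 k0))))))))))); clear * - this; omega, by have := kA 2 h634 (kA 2 h633 (kB 4 h599 (kA 2 h3 (kC 1 b19 k0)))); clear * - this; omega, by have := kA 3 h634 (kA 8 h633 (kB 8 h599 (kA 1 h597 (kB 3 h6 (kA 2 h4 (kA 9 h3 (kC 1 b33 (kC 2 b6 k0)))))))); clear * - this; omega, by have := kA 1 h634 (kA 6 h633 (kA 2 h625 (kA 3 h623 (kB 6 h599 (kA 1 h597 (kB 1 h6 (kA 2 h5 (kA 2 h4 (kA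 5 h3 (kC 1 b44 (kC 4 b39 k0))))))))))); clear * - this; omega⟩
          exact T0_2 X hb ⟨by have := kB 2 h634 (kA 1 h633 (kA 2 h598 (kA 2 h597 (kA 3 h5 (kA 1 h4 (kA 4 h2 (kC 2 b33 (kC 1 b18 k0)))))))); clear * - this; omega, by clear * - h634; omega⟩
        exact T0_181 X hb ⟨by have := kB 3 h626 (kB 1 h599 (kA 2 h3 (kA 1 h2 (kC 1 b19 k0)))); clear * - this; omega, by clear * - h626; omega, by clear * - h633; omega⟩
      exact T0_100 X hb ⟨by clear * - h625; omega, by have := kA 2 h624 (kA 1 h623 (kA 2 h5 (kC 1 b41 (kC 1 b33 (kC 4 b17 k0))))); clear * - this; omega⟩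
    rcases lt_or_ge (Q - i - 2*l - c - d - 2*U + V + Y - 3) 0 with h638 | h638
    · rcases lt_or_ge (-2*N + l + 2*m - 2*c + 2*U - 2*V + 2) 0 with h639 | h639
      · rcases lt_or_ge (-N + a + b - c - d - Y - 1) 0 with h640 | h640
        · rcases lt_or_ge (2*N - b - 2*m + c + d - Y - 3) 0 with h641 | h641
          · rcases lt_or_ge (2*N - b - 2*m + c + d - Y - 2) 0 with h642 | h642
            · rcases lt_or_ge (-N - a - b + 2*m - c + Y + 2) 0 with h643 | h643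
              · rcases lt_or_ge (N + b - m + 2*c - 2) 0 with h644 | h644
                · exact T0_29 X hb ⟨by have := kA 3 h644 (kA 4 h643 (kA 3 h642 (kA 1 h640 (kA 1 h639 (kA 3 h638 (kB 1 h624 (kA 2 h597 (kA 1 h4 (kC 2 b33 k0))))))))); clear * - this; omega, by have := kA 3 h644 (kA 4 h643 (kA 3 h642 (kA 1 h640 (kA 1 h623 (kB 4 h599 (kB 2 h6 (kA 1 h4 k0))))))); clear * - this; omega, by have := kA 1 h644 (kA 1 h643 (kA 1 h642 (kB 1 h599 (kA 1 h597 (kB 1 h6 (kA 1 h3 (kA 1 h2 (kC 1 b38 k0)))))))); clear * - this; omega, by have := kA 2 h644 (kA 2 h643 (kB 2 h599 (kC 1 b18 k0))); clear * - this; omega, by clear * - h642; omega⟩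
                exact T0_313 X hb ⟨by have := kB 1 h644 (kA 2 h642 (kA 2 h638 (kA 1 h623 (kA 1 h597 (kB 1 h6 (kC 1 b39 (kC 4 b17 k0))))))); clear * - this; omega, by have := kB 1 h644 (kA 1 h623 (kB 2 h6 (kC 4 b17 k0))); clear * - this; omega, by have := kB 1 h644 (kA 2 h640 (kA 1 h623 (kB 2 h6 (kC 1 b42 (kC 4 b17 k0))))); clear * - this; omega, by have := kB 1 h644 (kA 4 h642 (kA 2 h640 (kA 1 h639 (kB 2 h6 (kA 4 h3 (kA 2 h1 (kC 2 b43 (kC 1 b42 k0)))))))); clear * - this; omega, by have := kA 2 h642 (kA 1 h640 (kA 1 h638 (kA 1 h623 (kA 1 h597 (kB 1 h6 (kC 1 b43 (kC 1 b39 (kC 3 b17 (kC 1 b2 k0))))))))); clear * - this; omega, by clear * - h644; omega⟩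
              exact T0_79 X hb ⟨by clear * - h643; omega, by have := kA 1 h639 (kA 2 h598 (kA 2 h5 (kC 1 b43 k0))); clear * - this; omega, by have := kA 2 h642 (kA 1 h623 (kB 2 h6 (kA 2 h5 (kC 1 b42 (kC 4 b17 k0))))); clear * - this; omega, by have := kA 2 h642 (kA 2 h638 (kA 2 h598 (kA 1 h597 (kB 1 h6 (kA 2 h5 (kC 1 b43 (kC 1 b39 (kC 4 b17 k0)))))))); clear * - this; omega, by have := kA 2 h642 (kA 4 h639 (kA 6 h598 (kB 2 h6 (kA 6 h5 (kA 6 h3 (kC 5 b43 (kC 1 b42 (kC 1 b40 k0)))))))); clear * - this; omega, by have := kB 4 h643 (kA 2 h640 (kA 4 h639 (kA 2 h638 (kB 4 h624 (kA 4 h598 (kA 2 h597 (kC 1 b44 (kC 1 b42 k0)))))))); clear * - this; omega⟩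
            exact T0_327 X hb ⟨by clear * - b17 h6; omega, by have := kA 4 h641 (kA 2 h623 (kB 2 h599 (kB 2 h6 (kA 2 h5 (kC 1 b42 (kC 4 b17 k0)))))); clear * - this; omega, by have := kB 10 h642 (kA 6 h640 (kA 5 h639 (kA 10 h598 (kA 4 h597 (kA 2 h3 (kA 4 h2 (kC 2 b42 (kC 4 b40 (kC 4 b33 k0))))))))); clear * - this; omega, by clear * - h642; omega, by clear * - h641; omega⟩
          rcases lt_or_ge (-4*N + i + 2*a + 2*b + 4*m - 2*c - 2*d + 2*Y + 4) 0 with h645 | h645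
          · exact T0_35 X hb ⟨by have := kA 3 h645 (kA 4 h640 (kA 6 h639 (kB 2 h624 (kA 12 h598 (kA 2 h597 (kA 2 h4 (kA 4 h2 (kC 4 b33 (kC 3 b18 (kC 6 b17 (kC 2 b2 k0))))))))))); clear * - this; omega, by have := kA 1 h645 (kA 1 h639 (kA 2 h598 (kC 1 b41 (kC 1 b33 (kC 1 b18 (kC 4 b17 k0)))))); clear * - this; omega⟩
          exact T0_153 X hb ⟨by clear * - h641; omega, by have := kA 1 h639 (kB 2 h624 (kA 2 h598 (kA 2 h4 (kC 1 b41 (kC 1 b33 (kC 2 b17 k0)))))); clear * - this; omega, by have := kB 9 h645 (kB 6 h641 (kA 6 h640 (kA 3 h623 (kB 6 h599 (kA 2 h597 (kA 4 h4 (kA 8 h3 (kA 2 h2 (kC 4 b42 (kC 2 b39 k0)))))))))); clear * - this; omega, by clear * - h645; omega⟩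
        rcases lt_or_ge (2*N - m + 2*c + 2*d + 2*Y - 2) 0 with h646 | h646
        · rcases lt_or_ge (-N - i + a + b - l + m - 2*c - d - V - 1) 0 with h647 | h647
          · exact T0_153 X hb ⟨by have := kA 1 h646 (kA 1 h638 (kB 1 h624 (kA 1 h623 (kA 1 h597 (kB 1 h6 (kA 2 h5 (kC 1 b39 (kC 4 b17 k0)))))))); clear * - this; omega, by have := kA 1 h646 (kB 2 h624 (kA 1 h598 (kA 1 h5 (kA 1 h4 (kC 1 b41 (kC 1 b39 (kC 3 b17 k0))))))); clear * - this; omega, by have := kA 9 h647 (kA 17 h646 (kB 7 h640 (kA 4 h639 (kA 10 h638 (kB 39 h624 (kA 17 h598 (kA 10 h597 (kA 5 h4 (kA 8 h3 (kC 10 b41 (kC 20 b39 (kC 39 b17 k0)))))))))))); clear * - this; omega, by have := kA 5 h647 (kA 9 h646 (kB 3 h640 (kA 4 h639 (kA 2 h638 (kB 19 h624 (kA 13 h598 (kA 2 h597 (kA 1 h4 (kC 6 b41 (kC 8 b39 (kC 19 b17 k0))))))))))); clear * - this; omega⟩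
          exact T0_11 X hb ⟨by have := kA 1 h646 (kB 2 h640 (kA 1 h639 (kB 4 h624 (kA 2 h597 (kA 2 h3 (kA 2 h2 (kC 1 b44 (kC 3 b39 k0)))))))); clear * - this; omega, by have := kA 1 h646 (kB 2 h624 (kA 1 h623 (kA 4 h598 (kB 6 h6 (kA 2 h5 (kC 3 b44 (kC 3 b39 (kC 18 b17 k0)))))))); clear * - this; omega, by have := kA 1 h646 (kB 2 h640 (kA 2 h638 (kB 2 h624 (kA 5 h623 (kB 4 h599 (kA 2 h597 (kC 1 b44 (kC 2 b41 (kC 5 b39 (kC 14 b17 k0)))))))))); clear * - this; omega, by have := kA 9 h646 (kB 4 h640 (kA 2 h639 (kA 4 h638 (kB 12 h599 (kA 4 h597 (kA 14 h3 (kC 2 b44 (kC 4 b41 (kC 9 b40 (kC 10 b39 k0)))))))))); clear * - this; omega, by clear * - h647; omega⟩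
        exact T0_20 X hb ⟨by have := kA 1 h623 (kB 1 h599 (kB 2 h6 (kA 1 h5 (kA 1 h4 (kC 3 b17 k0))))); clear * - this; omega, by clear * - h646; omega, by clear * - h640; omega, by have := kB 4 h640 (kA 1 h639 (kB 6 h624 (kA 2 h598 (kA 4 h597 (kA 2 h4 (kA 4 h3 (kA 4 h2 (kC 3 b41 (kC 2 b36 (kC 1 b33 (kC 6 b17 k0))))))))))); clear * - this; omega, by have := kB 2 h624 (kA 1 h623 (kA 2 h598 (kA 4 h597 (kA 4 h5 (kA 2 h4 (kA 4 h2 (kC 1 b41 (kC 3 b33 (kC 6 b17 k0))))))))); clear * - this; omega⟩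
      exact T0_104 X hb ⟨by clear * - h639; omega, by clear * - h599; omega, by clear * - h598; omega⟩
    exact T0_215 X hb ⟨by have := kA 1 h623 (kA 2 h5 (kC 1 b43 (kC 1 b42 (kC 1 b41 (kC 1 b39 k0))))); clear * - this; omega, by clear * - h638; omega, by clear * - h624; omega⟩
  exact T0_361 X hb ⟨by clear * - h623; omega, by clear * - h598; omega, by clear * - h599; omega⟩

theorem P3 (X : C W N Q i a b l m c d L U V Y) (hb : B N Q i a b l m c d L U V Y)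
    (h1 : (-N + m - c) < 0)
    (h2 : (3*N + Q - i - 2*l - 3*m + c + d - 2*U + V - 6) < 0)
    (h3 : (N + c + d - 1) < 0)
    (h4 : (i + a - b) < 0)
    (h5 : (-2*N + 2*m - 2*c - d + 1) < 0)
    (h6 : (N + a - l - m - U - V - 3) ≥ 0) : False := by
  have b1 := hb.b1
  have b2 := hb.b2
  have b3 := hb.b3
  have b6 := hb.b6
  have b7 := hb.b7
  have b11 := hb.b11
  have b14 := hb.b14
  have b17 := hb.b17
  have b18 := hb.b18
  have b19 := hb.b19
  have b32 := hb.b32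
  have b33 := hb.b33
  have b35 := hb.b35
  have b36 := hb.b36
  have b38 := hb.b38
  have b39 := hb.b39
  have b40 := hb.b40
  have b41 := hb.b41
  have b42 := hb.b42
  have b43 := hb.b43
  have b44 := hb.b44
  have b45 := hb.b45
  rcases lt_or_ge (-3*N - Q + i + a + 2*b + 2*l + 2*m + L + 3*U - V + 6) 0 with h597 | h597
  · rcases lt_or_ge (2*N - a - b - m + 2*c + d + V - 2) 0 with h598 | h598
    · exact M12 X hb h1 h2 h3 h4 h5 h6 h597 h598
    rcases lt_or_ge (-2*N + Q - i + 2*a + 2*b - 2*l - 4*c - 2*d - 2*U - 3) 0 with h648 | h648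
    · rcases lt_or_ge (N - l - m - U + V - 3) 0 with h649 | h649
      · rcases lt_or_ge (N - i - a - b - 2*l - m - c - d - 2*U - 4) 0 with h650 | h650
        · rcases lt_or_ge (N + Q - i + 2*a + 2*b - 2*l - 2*m - c - 2*U + V - 5) 0 with h651 | h651
          · rcases lt_or_ge (N - a - b + c + d + Y - 1) 0 with h652 | h652
            · rcases lt_or_ge (-3*N - a - b + 3*m - 3*c - 2*d + 2) 0 with h653 | h653
              · rcases lt_or_ge (-N - l - c - 2*d - 2*U + V - 2) 0 with h654 | h654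
                · rcases lt_or_ge (-N - Q + i - a + l + m + c - d + 2) 0 with h655 | h655
                  · exact T0_14 X hb ⟨by have := kA 2 h655 (kA 4 h652 (kA 2 h651 (kA 2 h649 (kB 1 h598 (kA 1 h4 (kA 1 h3 (kC 2 b41 (kC 1 b39 (kC 1 b36 (kC 3 b17 k0)))))))))); clear * - this; omega, by have := kA 1 h655 (kA 2 h653 (kA 2 h652 (kA 1 h650 (kA 1 h649 (kA 2 h648 (kA 1 h597 (kA 1 h4 (kC 1 b41 (kC 1 b39 (kC 1 b33 k0)))))))))); clear * - this; omega, by have := kA 4 h655 (kA 5 h654 (kA 1 h653 (kA 18 h652 (kA 2 h650 (kA 14 h649 (kB 23 h598 (kA 2 h4 (kA 19 h3 (kA 4 h2 (kC 9 b41 (kC 9 b39 k0))))))))))); clear * - this; omega, by have := kA 2 h655 (kA 2 h652 (kA 2 h651 (kA 1 h650 (kA 1 h5 (kA 1 h4 (kC 1 b41 (kC 1 b39 (kC 2 b17 k0)))))))); clear * - this; omega⟩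
                  exact T0_86 X hb ⟨by clear * - h655; omega, by have := kA 2 h654 (kA 2 h652 (kA 1 h649 (kB 1 h6 (kA 1 h3 (kC 1 b41 (kC 1 b39 (kC 4 b17 k0))))))); clear * - this; omega, by have := kB 2 h655 (kA 4 h654 (kA 4 h649 (kA 3 h597 (kB 5 h6 (kA 2 h4 (kA 3 h3 (kA 1 h2 (kC 3 b33 (kC 11 b17 k0))))))))); clear * - this; omega, by have := kA 2 h654 (kA 8 h652 (kA 3 h650 (kB 2 h598 (kA 3 h4 (kA 7 h3 (kC 1 b43 (kC 3 b41 (kC 2 b40 (kC 3 b39 k0))))))))); clear * - this; omega, by have := kA 1 h649 (kA 1 h597 (kA 1 h2 (kC 1 b33 (kC 1 b17 k0)))); clear * - this; omega, by have := kA 1 h654 (kA 2 h652 (kA 1 h650 (kA 1 h5 (kA 1 h4 (kC 1 b41 (kC 1 b39 (kC 1 b17 k0))))))); clear * - this; omega⟩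
                rcases lt_or_ge (3*N - 2*m + 3*c + 2*d + V - 3) 0 with h656 | h656
                · exact T0_354 X hb ⟨by have := kA 1 h656 (kA 1 h653 (kA 1 h651 (kA 1 h649 (kA 1 h597 (kC 1 b33 (kC 2 b17 k0)))))); clear * - this; omega, by have := kA 1 h656 (kA 1 h650 (kB 1 h598 (kB 2 h6 (kA 2 h4 (kC 2 b17 k0))))); clear * - this; omega, by have := kA 3 h656 (kA 1 h653 (kA 2 h650 (kB 4 h6 (kA 1 h4 (kC 1 b44 (kC 1 b39 (kC 7 b17 k0))))))); clear * - this; omega, by have := kA 2 h656 (kA 2 h653 (kA 2 h652 (kA 2 h650 (kC 1 b41 (kC 1 b39 (kC 2 b17 (kC 1 b11 k0))))))); clear * - this; omega⟩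
                exact T0_59 X hb ⟨by clear * - h656; omega, by have := kB 1 h656 (kA 2 h652 (kB 2 h598 (kA 2 h3 (kC 1 b40 k0)))); clear * - this; omega, by have := kB 1 h656 (kA 2 h649 (kA 2 h3 (kC 1 b43 (kC 1 b41 (kC 1 b39 (kC 1 b11 k0)))))); clear * - this; omega, by clear * - h654; omega⟩
              exact T0_119 X hb ⟨by have := kB 1 h653 (kA 1 h650 (kB 2 h6 (kA 1 h4 (kA 1 h3 (kC 2 b17 k0))))); clear * - this; omega, by clear * - h653; omega, by have := kA 1 h650 (kB 1 h598 (kB 2 h6 (kA 1 h4 (kC 1 b17 k0)))); clear * - this; omega, by clear * - b11 h5 h650; omega, by clear * - h5 h653; omega⟩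
            rcases lt_or_ge (2*N - i + 2*a + 2*b - l - m - L - 4) 0 with h657 | h657
            · exact T0_111 X hb ⟨by have := kA 1 h657 (kA 2 h650 (kA 2 h649 (kB 4 h6 (kA 2 h4 (kA 2 h3 (kC 1 b41 (kC 6 b17 (kC 1 b11 k0)))))))); clear * - this; omega, by have := kA 1 h657 (kA 2 h649 (kC 1 b41 (kC 2 b17 (kC 1 b11 k0)))); clear * - this; omega, by have := kA 1 h657 (kA 1 h650 (kA 2 h649 (kB 6 h6 (kA 3 h4 (kA 1 h3 (kC 2 b43 (kC 1 b41 (kC 8 b17 (kC 1 b6 k0))))))))); clear * - this; omega, by have := kA 2 h649 (kB 2 h598 (kA 2 h3 (kC 1 b43 (kC 1 b41 (kC 1 b40 (kC 1 b39 k0)))))); clear * - this; omega⟩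
            exact T0_17 X hb ⟨by have := kB 4 h652 (kA 1 h597 (kB 3 h6 (kA 2 h4 (kA 3 h3 (kA 1 h2 (kC 2 b43 (kC 1 b33 (kC 3 b17 k0)))))))); clear * - this; omega, by have := kB 2 h657 (kA 5 h650 (kA 6 h597 (kA 3 h4 (kA 13 h3 (kA 6 h2 (kC 2 b39 (kC 6 b33 k0))))))); clear * - this; omega, by clear * - h652; omega, by have := kA 1 h650 (kA 2 h649 (kB 2 h6 (kA 1 h4 (kA 1 h3 (kC 1 b41 (kC 4 b17 k0)))))); clear * - this; omega, by clear * - h657; omega⟩
          rcases lt_or_ge (3*N - i - 2*a - 2*b - 2*l - 2*m + c - 2*U + V - 5) 0 with h658 | h658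
          · rcases lt_or_ge (N - a - b + c + d + Y - 1) 0 with h659 | h659
            · rcases lt_or_ge (N + 3*a + 2*b - l - m - c + d - 3) 0 with h660 | h660
              · exact T0_48 X hb ⟨by have := kA 1 h660 (kA 1 h658 (kB 1 h6 (kA 1 h5 (kC 1 b11 k0)))); clear * - this; omega, by have := kA 2 h649 (kA 1 h597 (kB 3 h6 (kA 2 h4 (kA 3 h3 (kA 1 h2 (kC 2 b39 (kC 1 b33 (kC 5 b17 k0)))))))); clear * - this; omega⟩
              rcases lt_or_ge (-N - Q + i - a + l + m + c - d + 2) 0 with h661 | h661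
              · rcases lt_or_ge (2*N + i + 2*a + 2*b - 2*m + 2*c + 2*d + 2*V - 2) 0 with h662 | h662
                · rcases lt_or_ge (-N + l + m + U - 2*V + 1) 0 with h663 | h663
                  · rcases lt_or_ge (-Q + i + l - m - 2*Y + 1) 0 with h664 | h664
                    · rcases lt_or_ge (3*N - 2*m + 3*c + 2*d - 3) 0 with h665 | h665
                      · exact T0_45 X hb ⟨by have := kA 3 h665 (kA 3 h663 (kA 1 h662 (kA 1 h661 (kA 4 h658 (kA 3 h648 (kA 2 h597 (kB 3 h6 (kA 2 h5 (kA 3 h4 (kC 2 b33 k0)))))))))); clear * - this; omega, by have := kA 6 h665 (kA 5 h664 (kA 10 h663 (kA 6 h662 (kA 1 h661 (kB 3 h660 (kA 10 h659 (kA 6 h658 (kA 6 h648 (kB 6 h6 (kA 4 h5 (kC 5 b44 (kC 5 b39 k0)))))))))))); clear * - this; omega, by have := kA 1 h665 (kA 1 h658 (kA 1 h648 (kA 1 h597 (kB 1 h6 (kA 1 h5 (kA 1 h4 (kC 1 b33 k0))))))); clear * - this; omega, by have := kA 1 h665 (kA 1 h664 (kA 3 h663 (kA 1 h662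 (kA 1 h661 (kA 2 h659 (kA 2 h658 (kA 1 h597 (kA 2 h5 (kA 1 h4 (kC 1 b43 (kC 1 b41 (kC 2 b39 k0)))))))))))); clear * - this; omega⟩
                      exact T0_14 X hb ⟨by have := kA 1 h664 (kA 6 h663 (kA 4 h662 (kA 2 h661 (kA 6 h659 (kA 4 h658 (kA 3 h648 (kC 1 b44 (kC 2 b41 (kC 3 b39 k0))))))))); clear * - this; omega, by clear * - h665; omega, by have := kB 4 h665 (kA 3 h664 (kA 6 h663 (kA 6 h659 (kA 2 h658 (kA 3 h648 (kB 4 h6 (kA 2 h4 (kA 8 h3 (kC 3 b45 (kC 3 b39 k0)))))))))); clear * - this; omega, by have := kB 1 h665 (kA 4 h663 (kA 2 h662 (kA 4 h661 (kA 2 h659 (kA 4 h658 (kA 4 h648 (kA 2 h4 (kA 2 h3 (kC 1 b43 (kC 2 b41 (kC 2 b39 k0))))))))))); clear * - this; omega⟩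
                    exact T0_85 X hb ⟨by clear * - h664; omega, by have := kA 4 h663 (kA 3 h662 (kA 2 h661 (kA 3 h659 (kA 2 h658 (kA 2 h650 (kA 2 h648 (kA 2 h5 (kA 1 h4 (kC 2 b41 (kC 2 b39 k0)))))))))); clear * - this; omega, by have := kA 12 h663 (kA 9 h662 (kA 3 h661 (kB 1 h660 (kA 9 h658 (kB 3 h651 (kA 2 h650 (kA 6 h648 (kA 2 h4 (kC 4 b41 (kC 4 b39 k0)))))))))); clear * - this; omega, by have := kA 2 h663 (kA 1 h662 (kA 2 h659 (kA 3 h658 (kB 1 h651 (kA 3 h648 (kA 2 h597 (kB 2 h6 (kA 2 h4 (kA 4 h3 (kC 2 b33 k0)))))))))); clear * - this; omega⟩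
                  exact T0_48 X hb ⟨by clear * - h663; omega, by have := kA 1 h662 (kB 1 h651 (kB 1 h598 (kB 2 h6 (kA 1 h4 (kA 2 h3 (kA 1 h2 (kC 2 b39 (kC 3 b17 k0)))))))); clear * - this; omega⟩
                exact T0_77 X hb ⟨by have := kB 1 h662 (kA 1 h661 (kB 1 h660 (kA 4 h659 (kB 2 h651 (kA 3 h648 (kA 8 h4 (kA 6 h3 (kC 4 b43 (kC 6 b41 (kC 6 b39 (kC 10 b17 k0))))))))))); clear * - this; omega, by have := kA 2 h649 (kA 1 h597 (kB 1 h6 (kA 1 h3 (kA 1 h2 (kC 1 b33 (kC 1 b17 k0)))))); clear * - this; omega, by clear * - h662; omega⟩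
              exact T0_86 X hb ⟨by clear * - h661; omega, by clear * - h660; omega, by have := kB 2 h660 (kA 4 h649 (kA 2 h648 (kA 3 h597 (kB 1 h6 (kA 2 h4 (kA 3 h3 (kA 1 h2 (kC 3 b33 (kC 3 b17 k0))))))))); clear * - this; omega, by have := kB 2 h661 (kB 2 h660 (kA 5 h658 (kB 6 h651 (kA 8 h649 (kB 11 h598 (kA 5 h4 (kA 17 h3 (kA 4 h2 (kC 7 b43 (kC 7 b41 (kC 7 b39 k0))))))))))); clear * - this; omega, by have := kA 1 h649 (kA 1 h597 (kA 1 h2 (kC 1 b33 (kC 1 b17 k0)))); clear * - this; omega, by have := kB 1 h661 (kB 1 h660 (kA 2 h658 (kB 4 h651 (kA 3 h648 (kB 2 h6 (kA 4 h4 (kC 2 b1 k0))))))); clear * - this; omega⟩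
            rcases lt_or_ge (2*N - i + 2*a + 2*b - l - m - L - 4) 0 with h666 | h666
            · exact T0_111 X hb ⟨by clear * - h2 h651 h659; omega, by have := kA 1 h666 (kA 2 h649 (kC 1 b41 (kC 2 b17 (kC 1 b11 k0)))); clear * - this; omega, by have := kB 1 h659 (kB 1 h651 (kB 4 h6 (kA 2 h4 (kA 1 h2 (kC 2 b43 (kC 4 b17 (kC 2 b6 k0))))))); clear * - this; omega, by have := kB 1 h659 (kB 1 h651 (kA 2 h649 (kB 2 h598 (kA 2 h3 (kA 1 h2 (kC 1 b43 (kC 1 b41 (kC 1 b39 k0)))))))); clear * - this; omega⟩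
            exact T0_17 X hb ⟨by have := kB 4 h659 (kA 1 h597 (kB 3 h6 (kA 2 h4 (kA 3 h3 (kA 1 h2 (kC 2 b43 (kC 1 b33 (kC 3 b17 k0)))))))); clear * - this; omega, by have := kA 4 h658 (kB 6 h651 (kA 5 h648 (kA 7 h597 (kB 1 h6 (kA 4 h4 (kA 12 h3 (kA 8 h2 (kC 7 b33 k0)))))))); clear * - this; omega, by clear * - h659; omega, by have := kA 1 h650 (kA 2 h649 (kB 2 h6 (kA 1 h4 (kA 1 h3 (kC 1 b41 (kC 4 b17 k0)))))); clear * - this; omega, by clear * - h666; omega⟩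
          exact T0_210 X hb ⟨by have := kA 1 h650 (kA 4 h649 (kA 1 h648 (kA 2 h597 (kA 1 h4 (kA 2 h3 (kA 1 h2 (kC 2 b33 (kC 1 b17 k0)))))))); clear * - this; omega, by clear * - h658; omega, by clear * - h651; omega⟩
        rcases lt_or_ge (3*N + Q - i + a + b - 2*l - 3*m + c + d - 2*U + 2*V - 6) 0 with h667 | h667
        · rcases lt_or_ge (Q - i - 2*l - c - d - 2*U + V + Y - 3) 0 with h668 | h668
          · exact M11 X hb h2 h3 h4 h5 h6 h597 h598 h648 h649 h650 h667 h668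
          rcases lt_or_ge (l + m + c + d + 2*U - V + Y + 1) 0 with h724 | h724
          · rcases lt_or_ge (3*N + a + b - 2*m + 3*c + 2*d + V - 3) 0 with h725 | h725
            · rcases lt_or_ge (4*N + Q - 2*i - a - b - 4*l - 4*m - 4*U + 2*V - 9) 0 with h726 | h726
              · rcases lt_or_ge (4*N + Q - i - 4*a - 4*b - 2*m + 4*c + 2*d + 2*V - 3) 0 with h727 | h727
                · exact T0_57 X hb ⟨by have := kA 2 h724 (kA 2 h649 (kA 1 h648 (kA 2 h5 (kC 2 b17 (kC 2 b7 k0))))); clear * - this; omega, by have := kA 1 h724 (kB 1 h668 (kA 4 h5 (kC 2 b18 (kC 4 b17 (kC 2 b11 k0))))); clear * - this; omega, by have := kA 1 h725 (kA 1 h667 (kB 2 h6 (kA 1 h5 (kC 1 b44 (kC 1 b39 (kC 5 b17 k0)))))); clear * - this; omega, by have := kA 1 h725 (kB 1 h650 (kA 1 h5 (kC 1 b43 (kC 1 b17 (kC 1 b14 k0))))); clear * - this; omega, by have := kA 1 h727 (kB 2 h668 (kA 2 h649 (kA 1 h648 k0))); clear * - this; omega⟩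
                rcases lt_or_ge (-2*N + 2*a + 2*b + m - 2*c - d - V) 0 with h728 | h728
                · rcases lt_or_ge (-a - b + l + 2*c) 0 with h729 | h729
                  · rcases lt_or_ge (-4*N + i + 4*a + 4*b + 2*m - 4*c - 2*d + 2) 0 with h730 | h730
                    · exact T0_45 X hb ⟨by have := kA 1 h730 (kA 2 h729 (kA 1 h726 (kA 1 h724 (kB 1 h668 (kA 2 h649 (kA 1 h5 (kC 1 b17 k0))))))); clear * - this; omega, by have := kA 2 h729 (kB 2 h668 (kA 2 h649 (kB 1 h598 (kA 2 h5 (kA 2 h2 (kC 1 b42 k0)))))); clear * - this; omega, by have := kA 1 h730 (kA 2 h729 (kA 1 h728 (kB 1 h727 (kA 3 h726 (kA 2 h724 (kB 2 h668 (kB 4 h6 (kA 2 h5 (kA 2 h4 k0))))))))); clear * - this; omega, by have := kA 1 h729 (kA 1 h724 (kB 1 h668 (kA 2 h649 (kA 1 h5 (kC 1 b17 k0))))); clear * - this; omega⟩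
                    exact T0_388 X hb ⟨by have := kB 2 h730 (kA 3 h729 (kA 1 h728 (kA 2 h724 (kB 2 h668 (kB 2 h650 (kA 8 h649 (kA 2 h648 (kA 3 h5 (kA 1 h4 (kC 3 b17 k0)))))))))); clear * - this; omega, by have := kA 1 h728 (kA 1 h649 (kB 1 h6 (kC 1 b17 k0))); clear * - this; omega, by clear * - h4 h729; omega, by clear * - h730; omega⟩
                  exact T0_106 X hb (by clear * - h729; omega)
                exact T0_319 X hb ⟨by clear * - h727; omega, by clear * - h598 h650 h667; omega, by clear * - h728; omega⟩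
              rcases lt_or_ge (2*N + Q - i + 3*a + 3*b - 3*l - 4*m - 2*c - 4*U + 2*V - 8) 0 with h731 | h731
              · exact T0_106 X hb (by have := kA 1 h731 (kA 3 h724 (kB 1 h668 (kA 8 h649 (kA 4 h5 (kC 1 b41 (kC 1 b39 (kC 6 b17 k0))))))); clear * - this; omega)
              exact T0_290 X hb ⟨by have := kB 1 h726 (kA 1 h667 (kB 1 h650 (kA 2 h649 (kC 1 b43 (kC 1 b41 (kC 1 b38 (kC 2 b17 k0))))))); clear * - this; omega, by have := kB 1 h731 (kB 2 h668 (kA 1 h667 (kB 1 h650 (kA 2 h649 (kA 2 h648 (kC 1 b43 k0)))))); clear * - this; omega, by clear * - h726; omega, by clear * - h731; omega, by have := kB 2 h731 (kB 5 h726 (kA 2 h725 (kB 4 h668 (kA 8 h667 (kA 20 h649 (kA 3 h648 (kC 7 b43 (kC 5 b41 (kC 5 b38 (kC 10 b17 k0)))))))))); clear * - this; omega, by have := kB 7 h731 (kA 2 h725 (kB 14 h668 (kA 8 h667 (kA 20 h649 (kA 13 h648 (kC 7 b43 k0)))))); clear * - this; omega, by have := kB 1 h726 (kA 2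 h649 (kC 1 b18 (kC 2 b17 k0))); clear * - this; omega⟩
            exact T0_261 X hb ⟨by have := kA 1 h724 (kB 1 h668 (kA 1 h667 (kA 2 h649 (kA 1 h5 (kC 1 b17 k0))))); clear * - this; omega, by have := kA 1 h724 (kB 1 h668 (kA 2 h667 (kA 2 h649 (kA 1 h597 (kB 1 h6 (kA 4 h5 (kA 2 h3 (kC 1 b44 (kC 2 b33 (kC 4 b11 k0)))))))))); clear * - this; omega, by have := kB 9 h725 (kA 2 h724 (kB 4 h668 (kB 2 h6 (kA 10 h3 (kA 4 h2 (kC 1 b44 (kC 3 b43 (kC 2 b40 (kC 1 b39 k0))))))))); clear * - this; omega, by clear * - h725; omega⟩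
          rcases lt_or_ge (2*N - 2*m + c + d - V - Y - 3) 0 with h732 | h732
          · exact T0_177 X hb ⟨by clear * - b3 h6 h732; omega, by have := kA 1 h732 (kA 2 h5 (kC 1 b42 (kC 1 b11 (kC 1 b1 k0)))); clear * - this; omega, by clear * - h668 h724; omega, by have := kA 2 h732 (kA 2 h649 (kB 2 h6 (kA 2 h3 (kA 2 h2 (kC 1 b44 (kC 1 b41 (kC 2 b39 k0))))))); clear * - this; omega⟩
          exact T0_215 X hb ⟨by clear * - h732; omega, by clear * - h668; omega, by clear * - h724; omega⟩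
        exact T0_167 X hb ⟨by have := kB 1 h650 (kA 2 h649 (kC 1 b18 (kC 2 b17 k0))); clear * - this; omega, by clear * - h650; omega, by clear * - h667; omega⟩
      rcases lt_or_ge (-3*N - i - 2*a + m - 2*c - 2*d + L - U - V + 2) 0 with h733 | h733
      · rcases lt_or_ge (-N - b + 2*m - 2*c + 1) 0 with h734 | h734
        · rcases lt_or_ge (-N - b + m - c - d - V) 0 with h735 | h735
          · rcases lt_or_ge (-N - a - b + m - c - d + 1) 0 with h736 | h736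
            · rcases lt_or_ge (2*N + a + b - m + 2*c + 2*d + V - 2) 0 with h737 | h737
              · rcases lt_or_ge (4*N - Q + i + l - 3*m + 4*c + 4*d - 2) 0 with h738 | h738
                · rcases lt_or_ge (a + 2*b + c - 1) 0 with h739 | h739
                  · exact T0_2 X hb ⟨by have := kA 8 h739 (kA 4 h738 (kA 5 h736 (kA 4 h734 (kA 8 h733 (kA 2 h597 (kA 11 h4 (kA 6 h2 (kC 10 b39 (kC 3 b18 k0))))))))); clear * - this; omega, by have := kA 2 h739 (kA 2 h738 (kA 4 h736 (kA 4 h735 (kA 1 h648 (kA 1 h597 (kB 1 h6 (kC 1 b39 k0))))))); clear * - this; omega⟩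
                  exact T0_15 X hb ⟨by have := kB 1 h739 (kA 2 h738 (kA 9 h737 (kA 17 h736 (kA 12 h735 (kB 10 h649 (kA 4 h648 (kA 4 h597 (kA 11 h2 (kC 3 b45 (kC 7 b39 k0)))))))))); clear * - this; omega, by have := kA 1 h738 (kA 1 h737 (kA 5 h736 (kA 1 h733 (kB 1 h649 (kA 1 h2 (kC 1 b39 (kC 1 b11 k0))))))); clear * - this; omega, by have := kA 1 h738 (kA 4 h737 (kA 7 h736 (kA 1 h735 (kA 1 h733 (kA 3 h648 (kA 3 h597 (kA 3 h3 (kA 1 h2 (kC 4 b36 (kC 5 b11 k0)))))))))); clear * - this; omega, by clear * - h739; omega⟩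
                exact T0_295 X hb ⟨by have := kA 1 h737 (kA 3 h736 (kA 1 h2 (kC 1 b19 (kC 2 b17 k0)))); clear * - this; omega, by clear * - h736; omega, by have := kB 3 h738 (kA 1 h737 (kA 1 h736 (kB 2 h649 (kA 2 h3 (kA 1 h2 (kC 1 b42 (kC 1 b40 k0))))))); clear * - this; omega, by clear * - h738; omega, by clear * - h598 h736 h737; omega, by have := kA 1 h733 (kB 1 h649 (kA 1 h597 (kB 1 h6 (kA 2 h4 (kA 2 h3 (kA 2 h2 (kC 1 b36 k0))))))); clear * - this; omega, by have := kA 2 h735 (kA 1 h597 (kB 1 h6 (kA 2 h2 k0))); clear * - this; omega, by have := kA 1 h737 (kA 1 h736 (kA 6 h734 (kA 3 h597 (kB 3 h6 (kA 3 h2 (kC 2 b39 (kC 5 b18 (kC 14 b17 (kC 5 b11 k0))))))))); clear * - this; omega, by have := kA 4 h734 (kA 2 h597 (kB 2 h6 (kA 2 h2 (kC 1 b39 (kC 3 b18 (kC 8 b17 (kC 3 b11 k0))))))); clear * - this; omega⟩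
              exact T0_362 X hb ⟨by have := kB 1 h737 (kA 2 h3 (kA 2 h2 (kC 2 b19 k0))); clear * - this; omega, by clear * - h737; omega, by have := kB 2 h737 (kA 1 h736 (kA 2 h734 (kA 4 h597 (kA 1 h4 (kA 5 h3 (kA 4 h2 (kC 1 b36 (kC 3 b33 k0)))))))); clear * - this; omega, by have := kA 1 h736 (kA 2 h735 (kA 1 h648 (kA 1 h597 (kB 1 h6 (kA 2 h3 (kA 1 h2 (kC 1 b36 (kC 1 b11 k0)))))))); clear * - this; omega, by clear * - b19 h2 h736; omega⟩
            rcases lt_or_ge (N + a + b - m + c + d - 1) 0 with h740 | h740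
            · rcases lt_or_ge (-2*a + V - 1) 0 with h741 | h741
              · rcases lt_or_ge (3*N + Q - i - 2*l - 3*m + c + d - 2*U + 2*V - 6) 0 with h742 | h742
                · rcases lt_or_ge (-2*N - Q + i + 2*a + 2*b + l + m + L + 2*U - 2*V + 4) 0 with h743 | h743
                  · exact T0_86 X hb ⟨by have := kA 1 h743 (kA 3 h742 (kA 2 h741 (kA 5 h740 (kA 2 h735 (kA 2 h734 (kA 2 h733 (kB 2 h649 (kA 3 h4 (kC 2 b39 (kC 1 b36 k0)))))))))); clear * - this; omega, by have := kA 3 h741 (kA 5 h740 (kA 7 h735 (kB 2 h6 (kA 1 h3 (kC 1 b18 (kC 1 b11 k0)))))); clear * - this; omega, by have := kA 1 h743 (kA 2 h741 (kA 4 h740 (kA 2 h735 (kA 2 h734 (kA 1 h648 (kB 2 h6 (kC 1 b38 (kC 3 b11 k0)))))))); clear * - this; omega, by have := kA 1 h741 (kA 3 h740 (kA 1 h735 (kA 2 h733 (kB 2 h6 (kA 4 h4 (kA 3 h3 (kC 2 b36 k0))))))); clear * - this; omega, by have := kA 1 h743 (kA 1 h742 (kA 1 h741 (kA 1 h740 (kA 1 h735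 (kC 1 b33 k0))))); clear * - this; omega, by have := kA 1 h733 (kB 1 h6 (kA 2 h4 (kA 1 h3 (kC 1 b36 k0)))); clear * - this; omega⟩
                  rcases lt_or_ge (-2*N - i - l - 2*c - 2*d + L - 2*U - 2*V) 0 with h744 | h744
                  · rcases lt_or_ge (-N - a - 2*b + 2*m - c - d + 1) 0 with h745 | h745
                    · exact T0_10 X hb ⟨by have := kA 2 h745 (kA 1 h744 (kB 1 h743 (kA 4 h741 (kA 8 h740 (kA 2 h735 (kA 2 h597 (kA 2 h4 (kC 1 b36 (kC 1 b33 k0))))))))); clear * - this; omega, by have := kA 1 h745 (kA 1 h744 (kA 1 h741 (kA 2 h740 (kA 1 h4 (kC 1 b39 k0))))); clear * - this; omega, by have := kB 1 h743 (kA 2 h741 (kA 4 h740 (kA 2 h735 (kC 1 b42 (kC 1 b41 k0))))); clear * - this; omega⟩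
                    exact T0_86 X hb ⟨by have := kB 2 h745 (kA 2 h742 (kA 2 h741 (kA 4 h740 (kA 6 h735 (kA 2 h734 (kC 1 b42 (kC 1 b41 (kC 1 b39 k0)))))))); clear * - this; omega, by have := kA 1 h744 (kB 2 h743 (kA 1 h741 (kA 1 h735 (kA 2 h597 (kA 1 h4 (kA 2 h3 (kC 1 b36 (kC 1 b11 k0)))))))); clear * - this; omega, by clear * - b11 h5 h745; omega, by have := kB 5 h745 (kA 6 h744 (kB 12 h743 (kA 4 h741 (kA 4 h735 (kA 12 h597 (kA 12 h4 (kA 14 h3 (kC 6 b36 k0)))))))); clear * - this; omega, by clear * - h745; omega, by have := kB 1 h745 (kA 3 h744 (kB 6 h743 (kA 2 h741 (kA 2 h735 (kA 6 h597 (kA 6 h4 (kA 4 h3 (kC 3 b36 k0)))))))); clear * - this; omega⟩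
                  exact T0_220 X hb ⟨by clear * - h744; omega, by have := kB 2 h744 (kA 2 h740 (kA 2 h735 (kA 2 h733 (kC 1 b18 k0)))); clear * - this; omega, by clear * - h735 h740; omega, by clear * - h743; omega⟩
                exact T0_2 X hb ⟨by have := kA 2 h741 (kA 5 h740 (kA 4 h735 (kB 2 h6 (kA 1 h4 (kC 1 b18 k0))))); clear * - this; omega, by clear * - h742; omega⟩
              rcases lt_or_ge (-2*N - i - l - 2*c - 2*d + L - 2*U - V) 0 with h746 | h746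
              · exact T0_10 X hb ⟨by clear * - b2 b19 h740; omega, by have := kA 1 h746 (kA 1 h4 (kA 1 h3 (kC 1 b39 (kC 1 b2 k0)))); clear * - this; omega, by have := kB 2 h6 (kA 2 h2 (kC 1 b19 (kC 2 b17 k0))); clear * - this; omega⟩
              rcases lt_or_ge (-2*N - Q + i + 2*a + 2*b + l + m + L + 2*U - V + 4) 0 with h747 | h747
              · exact T0_86 X hb ⟨by have := kA 3 h747 (kB 4 h746 (kB 2 h741 (kA 9 h740 (kA 6 h734 (kA 10 h733 (kB 2 h6 (kA 9 h4 (kA 9 h2 (kC 6 b39 (kC 3 b36 k0)))))))))); clear * - this; omega, by have := kB 5 h746 (kB 1 h741 (kA 6 h735 (kA 5 h733 (kB 1 h6 (kA 3 h3 (kC 3 b18 (kC 3 b11 k0))))))); clear * - this; omega, by have := kA 3 h747 (kB 8 h746 (kB 1 h741 (kA 3 h740 (kA 6 h734 (kA 11 h733 (kA 9 h648 (kB 7 h6 (kA 3 h4 (kA 6 h3 (kC 6 b32 (kC 15 b11 k0))))))))))); clear * - this; omega, by have := kA 2 h740 (kA 1 h733 (kB 1 h6 (kA 2 h4 (kA 1 h3 (kC 1 b35 k0))))); clear *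 - this; omega, by have := kA 1 h747 (kA 1 h2 (kC 1 b33 (kC 1 b2 k0))); clear * - this; omega, by have := kA 1 h733 (kB 1 h6 (kA 2 h4 (kA 1 h3 (kC 1 b36 k0)))); clear * - this; omega⟩
              exact T0_369 X hb ⟨by have := kB 2 h746 (kB 1 h741 (kA 2 h733 (kC 1 b18 k0))); clear * - this; omega, by clear * - h741; omega, by clear * - h746; omega, by clear * - h747; omega⟩
            exact T0_9 X hb ⟨by have := kA 1 h3 (kA 1 h2 (kC 1 b19 (kC 1 b17 k0))); clear * - this; omega, by clear * - h740; omega, by clear * - h736; omega⟩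
          exact T0_77 X hb ⟨by have := kB 2 h735 (kA 2 h733 (kB 2 h649 (kA 4 h4 (kA 2 h3 (kC 1 b39 (kC 1 b36 k0)))))); clear * - this; omega, by clear * - h735; omega, by have := kA 2 h733 (kA 2 h4 (kA 2 h3 (kC 1 b39 (kC 1 b36 k0)))); clear * - this; omega⟩
        rcases lt_or_ge (N + b - m + 2*c - 2) 0 with h748 | h748
        · rcases lt_or_ge (2*N - Q + i - 2*a - 2*b + l - m + 2*c + 2*d) 0 with h749 | h749
          · rcases lt_or_ge (3*N + Q - i - 2*l - 3*m + c + d - 2*U + 2*V - 6) 0 with h750 | h750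
            · exact T0_77 X hb ⟨by have := kA 5 h750 (kA 7 h749 (kA 4 h748 (kA 9 h733 (kB 13 h649 (kA 4 h648 (kA 2 h597 (kA 16 h4 (kA 13 h3 (kC 3 b44 (kC 14 b39 k0)))))))))); clear * - this; omega, by have := kA 3 h750 (kA 2 h749 (kA 2 h748 (kA 1 h648 (kA 2 h597 (kA 2 h5 (kA 1 h3 (kC 1 b39 (kC 1 b33 k0)))))))); clear * - this; omega, by have := kA 2 h733 (kA 2 h4 (kA 2 h3 (kC 1 b39 (kC 1 b36 k0)))); clear * - this; omega⟩
            exact T0_2 X hb ⟨by have := kB 3 h750 (kA 2 h749 (kA 2 h748 (kB 4 h649 (kA 2 h648 (kA 1 h597 (kB 5 h6 (kA 4 h4 (kA 2 h3 (kA 4 h2 (kC 1 b39 (kC 4 b18 k0))))))))))); clear * - this; omega, by clear * - h750; omega⟩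
          rcases lt_or_ge (-2*N - Q + i + l + 2*m - 2*c + 3) 0 with h751 | h751
          · exact T0_2 X hb ⟨by have := kA 4 h751 (kA 4 h748 (kA 5 h733 (kB 3 h649 (kA 2 h597 (kA 8 h4 (kA 5 h3 (kA 6 h2 (kC 7 b39 (kC 3 b18 k0))))))))); clear * - this; omega, by have := kA 1 h751 (kA 2 h748 (kA 1 h733 (kB 1 h649 (kA 2 h4 (kA 1 h3 (kC 1 b39 (kC 1 b6 k0))))))); clear * - this; omega⟩
          rcases lt_or_ge (2*N - Q + i + 2*a + 2*b + l - m + 2*c + 2*d - L - 1) 0 with h752 | h752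
          · rcases lt_or_ge (-3*N + 3*m - 3*c - 2*d + 2) 0 with h753 | h753
            · rcases lt_or_ge (2*a + 2*b + m - L + 2*Y - 1) 0 with h754 | h754
              · exact T0_77 X hb ⟨by have := kA 1 h752 (kA 4 h733 (kA 1 h597 (kB 1 h6 (kA 6 h4 (kA 4 h3 (kA 2 h2 (kC 3 b39 (kC 1 b36 k0)))))))); clear * - this; omega, by have := kA 4 h754 (kA 1 h752 (kB 1 h649 (kA 1 h597 (kA 4 h4 (kA 4 h3 (kA 2 h2 (kC 4 b41 (kC 4 b18 (kC 15 b2 k0))))))))); clear * - this; omega, by have := kA 2 h733 (kA 2 h4 (kA 2 h3 (kC 1 b39 (kC 1 b36 k0)))); clear * - this; omega⟩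
              exact T0_17 X hb ⟨by have := kA 5 h752 (kB 1 h751 (kA 2 h748 (kB 2 h734 (kA 3 h733 (kB 5 h649 (kA 2 h597 (kB 4 h6 (kA 10 h5 (kA 8 h4 (kA 6 h2 k0)))))))))); clear * - this; omega, by have := kB 1 h754 (kA 2 h752 (kA 2 h733 (kA 2 h4 (kA 4 h3 (kA 2 h2 (kC 2 b42 (kC 1 b41 (kC 2 b39 k0)))))))); clear * - this; omega, by have := kB 7 h754 (kA 34 h753 (kA 21 h752 (kB 1 h751 (kA 12 h748 (kB 4 h734 (kA 20 h733 (kA 12 h597 (kA 34 h4 (kA 32 h2 (kC 10 b41 (kC 14 b39 (kC 14 b36 k0)))))))))))); clear * - this; omega, by clear * - h754; omega, by have := kB 1 h754 (kA 1 h752 (kA 2 h733 (kB 4 h6 (kA 4 h4 (kA 1 h3 (kA 1 h2 (kC 1 b42 (kC 3 b17 k0)))))))); clear * - this; omega⟩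
            rcases lt_or_ge (3*N - 2*m + 3*c + 2*d - 3) 0 with h755 | h755
            · exact T0_77 X hb ⟨by have := kA 1 h755 (kB 1 h753 (kA 1 h733 (kB 1 h649 (kA 2 h5 (kA 2 h4 (kC 1 b39 k0)))))); clear * - this; omega, by have := kA 4 h755 (kA 1 h752 (kB 1 h649 (kA 2 h648 (kA 1 h597 (kB 4 h6 (kA 2 h4 (kC 2 b18 (kC 5 b2 k0)))))))); clear * - this; omega, by have := kA 2 h755 (kA 2 h733 (kA 2 h5 (kA 2 h4 (kC 1 b39 (kC 1 b36 k0))))); clear * - this; omega⟩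
            exact T0_14 X hb ⟨by clear * - h753; omega, by clear * - h755; omega, by clear * - h5 h753; omega, by have := kA 1 h752 (kA 2 h748 (kA 4 h733 (kA 1 h648 (kA 6 h4 (kA 4 h3 (kC 3 b39 (kC 2 b18 (kC 2 b2 k0)))))))); clear * - this; omega⟩
          exact T0_294 X hb ⟨by clear * - h749; omega, by clear * - h751; omega, by clear * - b19 h3 h648; omega, by have := kA 1 h3 (kA 1 h2 (kC 1 b19 (kC 1 b17 k0))); clear * - this; omega, by clear * - h752; omega, by have := kA 1 h733 (kB 1 h6 (kA 2 h4 (kA 2 h3 (kC 1 b6 (kC 1 b2 k0))))); clear * - this; omega⟩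
        rcases lt_or_ge (-N - Q + i + b + l + m + 2) 0 with h756 | h756
        · exact T0_77 X hb ⟨by have := kB 1 h748 (kB 1 h734 (kA 1 h733 (kB 1 h649 (kA 2 h4 (kA 2 h3 (kC 1 b39 k0)))))); clear * - this; omega, by have := kA 2 h756 (kA 2 h2 (kC 1 b42 (kC 1 b41 (kC 1 b39 k0)))); clear * - this; omega, by have := kA 2 h733 (kA 2 h4 (kA 2 h3 (kC 1 b39 (kC 1 b36 k0)))); clear * - this; omega⟩
        exact T0_313 X hb ⟨by clear * - h756; omega, by have := kB 1 h748 (kB 1 h734 (kA 3 h733 (kB 3 h6 (kA 4 h4 (kA 6 h3 (kC 1 b36 (kC 2 b33 (kC 3 b2 k0)))))))); clear * - this; omega, by clear * - h5 h734; omega, by clear * - h3 h734 h748; omega, by clear * - h734; omega, by clear * - h748; omega⟩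
      exact T0_100 X hb ⟨by clear * - h733; omega, by clear * - h649; omega⟩
    exact T0_98 X hb ⟨by clear * - h648; omega, by clear * - h598; omega, by have := kA 1 h597 (kB 3 h6 (kA 2 h4 (kA 1 h3 (kA 3 h2 (kC 1 b33 (kC 1 b17 k0)))))); clear * - this; omega⟩
  exact T0_4 X hb ⟨by clear * - h6; omega, by clear * - h597; omega⟩

end Pool.Agent.MP_a38735_al.WL.E342
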