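import Pool.Agent.MP_a38735_al.E342t0
import Pool.Agent.MP_a38735_al.E342t1
import Pool.Agent.MP_a38735_al.E342t2
import Pool.Agent.MP_a38735_al.E342t3

set_option autoImplicit false
set_option linter.unusedVariables false
set_option linter.unusedSimpArgs false

namespace Pool.Agent.MP_a38735_al.WL.E342

variable {G : Type*} [Group G]

variable {W : ℤ → G} {N Q i a b l m c d L U V Y : ℤ}

theorem M14 (X : C W N Q i a b l m c d L U V Y) (hb : B N Q i a b l m c d L U V Y)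
    (h1 : (-N + m - c) < 0)
    (h2 : (3*N + Q - i - 2*l - 3*m + c + d - 2*U + V - 6) < 0)
    (h3 : (N + c + d - 1) < 0)
    (h4 : (i + a - b) < 0)
    (h5 : (-2*N + 2*m - 2*c - d + 1) < 0)
    (h6 : (N + a - l - m - U - V - 3) < 0)
    (h7 : (-2*N + i + a + 2*m - c - d + Y + 2) < 0)
    (c2x : (-N + m - c) < 0 → (3*N + Q - i - 2*l - 3*m + c + d - 2*U + V - 6) < 0 → (N + c + d - 1) < 0 → (i + a - b) < 0 → (-2*N + 2*m - 2*c - d + 1) < 0 → (N + a - l - m - U - V - 3) < 0 → (-2*N + i + a + 2*m - c - d + Y + 2) < 0 → (-2*N - i + 2*a + 2*b - l + m - 2*c - 2*d - 2*V - 1) < 0 → False) : False := by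
  have b1 := hb.b1
  have b2 := hb.b2
  have b4 := hb.b4
  have b6 := hb.b6
  have b7 := hb.b7
  have b9 := hb.b9
  have b11 := hb.b11
  have b14 := hb.b14
  have b17 := hb.b17
  have b18 := hb.b18
  have b19 := hb.b19
  have b33 := hb.b33
  have b36 := hb.b36
  have b38 := hb.b38
  have b39 := hb.b39
  have b41 := hb.b41
  have b42 := hb.b42
  have b43 := hb.b43
  have b44 := hb.b44
  have b45 := hb.b45
  rcases lt_or_ge (-2*N - i + 2*a + 2*b - l + m - 2*c - 2*d - 2*V - 1) 0 with h8 | h8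
  · exact c2x h1 h2 h3 h4 h5 h6 h7 h8
  rcases lt_or_ge (a - V) 0 with h500 | h500
  · rcases lt_or_ge (N + a + b - l - m + c - U + V - 3) 0 with h501 | h501
    · rcases lt_or_ge (2*N - m + 2*c + 2*d + 2*Y - 2) 0 with h502 | h502
      · rcases lt_or_ge (N - a - l - m - U + V - 3) 0 with h503 | h503
        · rcases lt_or_ge (2*N - Q + i + a + b - 2*m + c + d + V - Y - 2) 0 with h504 | h504
          · exact T0_177 X hb ⟨by have := kA 2 h504 (kB 1 h8 (kC 1 b41 (kC 1 b39 (kC 4 b17 (kC 1 b1 k0))))); clear * - this; omega, by have := kA 1 h502 (kA 2 h5 (kC 2 b17 (kC 1 b14 (kC 1 b7 k0)))); clear * - this; omega, by have := kA 2 h504 (kA 2 h503 (kA 2 h500 (kB 1 h8 (kA 2 h5 (kC 2 b41 (kC 1 b38 (kC 1 b33 (kC 4 b17 (kC 1 b7 k0))))))))); clear * - this; omega, by have := kA 2 h504 (kA 2 h503 (kA 2 h500 (kB 1 h8 (kA 4 h3 (kA 4 h2 (kC 3 b41 (kC 2 b39 (kC 1 b36 (kC 2 b14 k0))))))))); clear * - this; omega⟩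
          rcases lt_or_ge (2*N + Q - i - a - b - 2*m + c + d + V - Y - 3) 0 with h505 | h505
          · rcases lt_or_ge (-N - a + l + m + U + 1) 0 with h506 | h506
            · rcases lt_or_ge (-2*N - Q - l - 2*c - 2*d + L - 2*U) 0 with h507 | h507
              · exact T0_69 X hb ⟨by have := kA 1 h507 (kA 2 h506 (kA 2 h505 (kA 4 h503 (kA 1 h502 (kA 2 h501 (kA 6 h500 (kA 2 h5 (kC 1 b39 k0)))))))); clear * - this; omega, by have := kA 1 h507 (kA 4 h503 (kA 1 h502 (kA 2 h501 (kA 6 h500 (kB 1 h8 (kA 2 h5 (kC 1 b41 (kC 2 b39 k0)))))))); clear * - this; omega, by clear * - h500 h506; omega⟩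
              rcases lt_or_ge (-4*N - Q + l + 2*m - 2*c - 2*d + L - 2*V + 5) 0 with h508 | h508
              · exact T0_100 X hb ⟨by have := kA 1 h508 (kB 1 h507 (kA 8 h503 (kA 2 h502 (kA 4 h501 (kA 12 h500 (kB 2 h8 (kA 4 h5 (kC 2 b41 (kC 4 b39 k0))))))))); clear * - this; omega, by clear * - h507 h508; omega⟩
              exact T0_35 X hb ⟨by clear * - h508; omega, by clear * - h500 h506; omega⟩
            exact T0_34 X hb ⟨by have := kA 4 h505 (kA 2 h503 (kA 1 h502 (kA 2 h7 (kA 4 h5 (kC 1 b39 (kC 1 b33 (kC 6 b17 (kC 2 b7 k0)))))))); clear * - this; omega, by clear * - h506; omega⟩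
          rcases lt_or_ge (-2*N - a + b + 2*m - c - d - V + Y + 1) 0 with h509 | h509
          · exact T0_100 X hb ⟨by have := kA 1 h509 (kB 1 h505 (kA 15 h503 (kA 4 h502 (kA 8 h501 (kA 27 h500 (kB 5 h8 (kA 8 h5 (kA 1 h3 (kA 1 h2 (kC 5 b41 (kC 10 b39 k0))))))))))); clear * - this; omega, by have := kA 2 h509 (kA 4 h500 (kB 1 h8 (kC 1 b41 (kC 1 b39 (kC 1 b18 k0))))); clear * - this; omega⟩
          exact T0_55 X hb ⟨by clear * - h504; omega, by have := kB 1 h509 (kB 1 h504 (kA 2 h503 (kA 2 h5 (kC 1 b41 (kC 1 b33 (kC 4 b17 (kC 1 b7 k0))))))); clear * - this; omega, by have := kB 1 h509 (kB 4 h505 (kA 10 h503 (kA 1 h502 (kA 2 h501 (kA 8 h500 (kA 2 h5 (kA 4 h3 (kA 4 h2 (kC 5 b41 (kC 5 b39 k0)))))))))); clear * - this; omega, by have := kB 1 h8 (kC 1 b41 (kC 1 b39 (kC 4 b17 (kC 1 b1 k0)))); clear * - this; omega, by clear * - h505; omega, by clear * - h509; omega⟩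
        exact T0_12 X hb ⟨by clear * - h503; omega, by have := kA 1 h502 (kA 2 h501 (kB 1 h8 (kA 3 h6 (kA 2 h5 (kC 1 b41 (kC 2 b39 (kC 2 b2 k0))))))); clear * - this; omega⟩
      rcases lt_or_ge (-2*a - 2*b + l + 3*m - L + 2*U + 2*Y + 2) 0 with h510 | h510
      · rcases lt_or_ge (-2*N - i - l - 2*c - 2*d + L - 2*U - 2*V) 0 with h511 | h511
        · rcases lt_or_ge (N + a - l - m - U - 3) 0 with h512 | h512
          · rcases lt_or_ge (-3*N - i - a + m - 2*c - 2*d + L - U - V + 2) 0 with h513 | h513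
            · exact T0_11 X hb ⟨by have := kA 3 h512 (kA 1 h510 (kA 1 h501 (kA 1 h3 (kC 1 b41 (kC 1 b9 (kC 1 b6 (kC 3 b2 k0))))))); clear * - this; omega, by have := kA 2 h513 (kA 1 h512 (kA 1 h510 (kB 1 h502 (kA 1 h501 (kA 1 h500 (kB 2 h8 (kA 1 h3 (kC 2 b45 (kC 3 b39 (kC 7 b17 k0)))))))))); clear * - this; omega, by have := kA 1 h513 (kA 3 h512 (kA 1 h510 (kA 2 h501 (kA 3 h500 (kC 1 b41 (kC 1 b39 (kC 1 b9 (kC 5 b2 k0)))))))); clear * - this; omega, by have := kA 1 h510 (kA 2 h3 (kC 1 b45 (kC 1 b41 (kC 1 b39 (kC 4 b17 (kC 1 b9 (kC 1 b6 k0))))))); clear * - this; omega, by clear * - b11 h8; omega⟩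
            exact T0_12 X hb ⟨by have := kA 2 h512 (kA 1 h511 (kA 1 h510 (kA 2 h3 (kC 1 b41 (kC 1 b39 (kC 1 b9 k0)))))); clear * - this; omega, by clear * - h513; omega⟩
          exact T0_31 X hb ⟨by have := kB 10 h512 (kA 2 h511 (kA 7 h510 (kB 11 h502 (kA 2 h501 (kA 16 h500 (kB 10 h8 (kA 8 h7 (kA 18 h6 (kA 2 h5 (kA 16 h2 (kC 11 b33 k0))))))))))); clear * - this; omega, by clear * - h512; omega⟩
        rcases lt_or_ge (i + 2*a - 2*V) 0 with h514 | h514
        · exact T0_34 X hb ⟨by have := kA 3 h510 (kB 1 h502 (kA 2 h501 (kB 2 h8 (kA 6 h5 (kA 4 h2 (kC 2 b41 (kC 3 b33 (kC 10 b17 (kC 2 b11 k0))))))))); clear * - this; omega, by clear * - b18 h514; omega⟩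
        exact T0_220 X hb ⟨by clear * - h511; omega, by clear * - h514; omega, by clear * - h500; omega, by have := kB 1 h514 (kA 1 h510 (kB 2 h502 (kA 2 h500 (kB 1 h8 (kA 2 h2 (kC 1 b43 (kC 1 b33 k0))))))); clear * - this; omega⟩
      exact T0_21 X hb ⟨by clear * - b11 h5; omega, by clear * - h502; omega, by have := kB 1 h8 (kC 1 b42 (kC 2 b17 (kC 1 b1 k0))); clear * - this; omega, by have := kA 2 h501 (kB 1 h8 (kC 1 b41 (kC 4 b17 (kC 1 b6 k0)))); clear * - this; omega, by clear * - h510; omega⟩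
    rcases lt_or_ge (N - a - b - m + c - U + V - 2) 0 with h515 | h515
    · rcases lt_or_ge (i + 2*a - V) 0 with h516 | h516
      · exact T0_34 X hb ⟨by have := kA 1 h515 (kB 1 h501 (kA 2 h5 (kA 1 h3 (kA 1 h2 (kC 1 b39 (kC 1 b17 (kC 1 b11 k0))))))); clear * - this; omega, by clear * - b18 h6 h516; omega⟩
      rcases lt_or_ge (-2*a + V - 1) 0 with h517 | h517
      · rcases lt_or_ge (-2*a - 2*b + l + 3*m - L + 2*U + 2*Y + 2) 0 with h518 | h518
        · rcases lt_or_ge (N + a - l - m - U - 3) 0 with h519 | h519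
          · rcases lt_or_ge (b + c - 1) 0 with h520 | h520
            · rcases lt_or_ge (i + 2*a - 2*V) 0 with h521 | h521
              · exact T0_34 X hb ⟨by have := kA 1 h521 (kA 6 h520 (kA 2 h519 (kA 4 h515 (kB 6 h501 (kA 2 h500 (kB 1 h8 (kA 4 h5 (kA 2 h2 (kC 1 b45 (kC 3 b39 k0)))))))))); clear * - this; omega, by clear * - b18 h521; omega⟩
              exact T0_220 X hb ⟨by have := kA 4 h519 (kA 1 h518 (kA 2 h517 (kA 2 h3 (kC 1 b41 (kC 1 b39 (kC 1 b9 k0)))))); clear * - this; omega, by clear * - h521; omega, by clear * - h500; omega, by have := kA 1 h520 (kA 1 h519 (kA 2 h515 (kB 1 h501 (kA 1 h5 (kA 1 h2 (kA 1 h1 (kC 1 b39 k0))))))); clear * - this; omega⟩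
            rcases lt_or_ge (2*a + b - l - c - 2) 0 with h522 | h522
            · exact T0_34 X hb ⟨by have := kA 2 h522 (kA 1 h518 (kA 10 h517 (kA 4 h515 (kA 16 h500 (kA 2 h7 (kA 2 h5 (kA 2 h3 (kA 2 h2 (kC 2 b41 (kC 1 b39 (kC 2 b33 k0))))))))))); clear * - this; omega, by have := kA 1 h522 (kA 1 h517 (kA 1 h515 (kA 2 h500 k0))); clear * - this; omega⟩
            exact T0_179 X hb ⟨by clear * - h522; omega, by clear * - h520; omega⟩
          exact T0_31 X hb ⟨by have := kA 1 h518 (kA 2 h517 (kA 2 h515 (kA 2 h7 (kA 6 h6 (kA 2 h5 (kA 2 h3 (kA 2 h2 (kC 2 b41 (kC 1 b39 (kC 2 b33 k0)))))))))); clear * - this; omega, by clear * - h519; omega⟩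
        rcases lt_or_ge (2*N - m + 2*c + 2*d + 2*Y - 2) 0 with h523 | h523
        · rcases lt_or_ge (i + 2*a - 2*V) 0 with h524 | h524
          · exact T0_34 X hb ⟨by have := kA 7 h524 (kA 1 h523 (kB 1 h518 (kA 1 h517 (kB 7 h516 (kA 5 h515 (kB 1 h501 (kA 2 h7 (kA 4 h5 (kA 2 h3 (kA 2 h2 (kC 1 b41 (kC 4 b39 k0)))))))))))); clear * - this; omega, by clear * - b18 h524; omega⟩
          rcases lt_or_ge (-2*N - i - l - 2*c - 2*d + L - 2*U - 2*V) 0 with h525 | h525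
          · exact T0_31 X hb ⟨by have := kB 1 h518 (kA 8 h517 (kA 6 h515 (kA 20 h500 (kB 2 h8 (kA 2 h7 (kA 2 h6 (kA 6 h5 (kA 4 h2 (kC 5 b39 k0))))))))); clear * - this; omega, by have := kA 6 h525 (kA 4 h523 (kB 3 h518 (kA 10 h517 (kA 4 h515 (kB 2 h501 (kA 6 h7 (kA 2 h5 (kA 12 h3 (kC 4 b41 (kC 13 b39 k0)))))))))); clear * - this; omega⟩
          exact T0_220 X hb ⟨by clear * - h525; omega, by clear * - h524; omega, by clear * - h500; omega, by have := kB 2 h525 (kB 4 h524 (kB 1 h518 (kA 8 h517 (kA 8 h515 (kB 2 h501 (kA 20 h500 (kA 2 h7 (kA 2 h6 (kA 6 h5 (kA 4 h2 (kC 3 b39 k0))))))))))); clear * - this; omega⟩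
        exact T0_21 X hb ⟨by clear * - b11 h5; omega, by clear * - h523; omega, by have := kA 1 h517 (kB 1 h516 (kA 4 h500 (kB 1 h8 (kC 1 b42 k0)))); clear * - this; omega, by have := kA 2 h517 (kA 1 h515 (kB 1 h501 (kA 2 h500 (kA 2 h6 (kA 2 h3 (kC 1 b45 (kC 1 b41 (kC 1 b39 k0)))))))); clear * - this; omega, by clear * - h518; omega⟩
      rcases lt_or_ge (-2*N - i - l - 2*c - 2*d + L - 2*U - V) 0 with h526 | h526
      · rcases lt_or_ge (N + a - l - m - U - 3) 0 with h527 | h527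
        · rcases lt_or_ge (-2*a - 2*b + l + 3*m - L + 2*U + 2*Y + 2) 0 with h528 | h528
          · exact T0_149 X hb ⟨by have := kA 1 h528 (kA 3 h526 (kB 1 h517 (kA 4 h3 (kC 1 b45 (kC 3 b39 (kC 1 b9 (kC 6 b2 k0))))))); clear * - this; omega, by have := kB 1 h517 (kB 1 h516 (kA 4 h515 (kB 1 h8 (kA 4 h5 (kC 2 b45 (kC 1 b41 (kC 3 b39 (kC 12 b17 k0)))))))); clear * - this; omega, by have := kA 4 h527 (kA 2 h3 (kC 1 b45 (kC 1 b41 (kC 2 b39 (kC 4 b2 k0))))); clear * - this; omega, by have := kB 1 h517 (kB 1 h516 (kB 1 h8 (kC 1 b41 (kC 1 b39 (kC 4 b17 k0))))); clear * - this; omega, by have := kA 2 h528 (kA 4 h527 (kA 2 h3 (kC 1 b45 (kC 1 b41 (kC 2 b9 (kC 4 b2 k0)))))); clear * - this; omega, by have := kA 4 h527 (kB 1 h517 (kB 1 h516 (kB 1 h8 (kC 1 b41 (kC 1 b39 k0))))); clear * - this; omega⟩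
          exact T0_21 X hb ⟨by clear * - b11 h5; omega, by have := kB 1 h528 (kA 6 h527 (kA 2 h526 (kA 2 h515 (kA 2 h7 (kA 2 h5 (kA 4 h3 (kC 2 b41 (kC 5 b39 (kC 8 b2 k0))))))))); clear * - this; omega, by have := kB 1 h528 (kA 2 h515 (kB 2 h501 (kA 2 h3 (kC 2 b42 (kC 1 b39 k0))))); clear * - this; omega, by have := kA 2 h527 (kB 2 h517 (kA 1 h515 (kB 1 h501 (kA 2 h3 (kC 1 b45 (kC 1 b41 (kC 1 b39 (kC 6 b2 k0)))))))); clear * - this; omega, by clear * - h528; omega⟩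
        exact T0_31 X hb ⟨by have := kB 5 h527 (kA 4 h515 (kB 1 h8 (kA 2 h7 (kA 9 h6 (kA 4 h5 (kA 1 h3 (kA 3 h2 (kC 1 b41 (kC 3 b39 (kC 1 b33 k0)))))))))); clear * - this; omega, by clear * - h527; omega⟩
      exact T0_369 X hb ⟨by clear * - h516; omega, by clear * - h517; omega, by clear * - h526; omega, by have := kA 2 h515 (kA 1 h5 (kA 1 h2 (kA 1 h1 (kC 1 b39 (kC 2 b17 k0))))); clear * - this; omega⟩
    rcases lt_or_ge (-3*N - i + a + b - l + m - 3*c - 2*d + L - U - V + 1) 0 with h529 | h529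
    · rcases lt_or_ge (-3*N - Q + i + a + 2*b + 2*l + 2*m + L + 3*U - 2*V + 6) 0 with h530 | h530
      · exact T0_12 X hb ⟨by have := kA 2 h529 (kA 2 h500 (kB 1 h8 (kA 2 h3 (kC 2 b39 (kC 1 b11 k0))))); clear * - this; omega, by have := kA 1 h530 (kB 1 h8 (kA 2 h6 (kA 2 h5 (kA 1 h3 (kA 1 h2 (kC 2 b39 (kC 1 b18 (kC 1 b11 k0)))))))); clear * - this; omega⟩
      exact T0_73 X hb ⟨by clear * - h530; omega, by have := kA 2 h529 (kB 1 h8 (kA 2 h3 (kC 2 b39 (kC 1 b11 (kC 2 b2 k0))))); clear * - this; omega⟩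
    exact T0_178 X hb ⟨by clear * - h515; omega, by clear * - h529; omega, by clear * - h501; omega⟩
  rcases lt_or_ge (-a + V) 0 with h531 | h531
  · rcases lt_or_ge (-N + l + m + U - V + 1) 0 with h532 | h532
    · rcases lt_or_ge (-2*N - Q + 2*b + l + m + L + 2*U + 4) 0 with h533 | h533
      · rcases lt_or_ge (2*N + a - l - m + c + d + Y - 3) 0 with h534 | h534
        · rcases lt_or_ge (-N + m - d) 0 with h535 | h535
          · rcases lt_or_ge (-2*N - a + b + 2*m - c - d - V + Y + 1) 0 with h536 | h536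
            · rcases lt_or_ge (3*N - a - b - 2*m + 2*c + 2*d + V - 3) 0 with h537 | h537
              · rcases lt_or_ge (-3*N - i - 2*a + m - 2*c - 2*d + L - U - V + 2) 0 with h538 | h538
                · exact T0_7 X hb ⟨by have := kA 2 h537 (kA 2 h536 (kA 2 h535 (kA 4 h534 (kA 1 h533 (kA 4 h531 (kB 1 h8 (kA 6 h6 (kA 4 h5 (kA 2 h3 (kC 3 b41 (kC 4 b33 k0))))))))))); clear * - this; omega, by have := kA 1 h538 (kA 2 h535 (kA 1 h534 (kA 1 h532 (kA 4 h531 (kA 1 h7 (kA 4 h6 (kC 1 b41 (kC 1 b39 (kC 1 b33 k0))))))))); clear * - this; omega, by have := kA 1 h537 (kA 1 h536 (kA 1 h535 (kA 3 h534 (kA 3 h531 (kA 2 h6 (kA 3 h5 (kA 1 h3 (kA 1 h2 (kC 2 b41 (kC 2 b33 k0)))))))))); clear * - this; omega⟩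
                exact T0_100 X hb ⟨by clear * - h538; omega, by have := kA 1 h537 (kA 1 h536 (kA 1 h535 (kA 1 h534 (kA 1 h6 (kA 1 h5 (kC 1 b41 (kC 1 b33 k0))))))); clear * - this; omega⟩
              exact T0_142 X hb ⟨by have := kA 1 h533 (kA 2 h532 (kB 2 h8 (kA 2 h6 (kC 1 b36 k0)))); clear * - this; omega, by clear * - h537; omega, by have := kA 1 h533 (kA 2 h532 (kB 2 h8 (kA 2 h6 (kC 1 b38 k0)))); clear * - this; omega, by have := kB 2 h537 (kA 2 h534 (kA 1 h532 (kA 3 h531 (kB 1 h8 (kA 1 h6 (kA 1 h3 (kA 1 h2 (kC 1 b41 (kC 1 b33 k0))))))))); clear * - this; omega, by have := kA 2 h534 (kA 3 h532 (kA 3 h531 (kB 1 h8 (kA 1 h6 (kA 1 h3 (kA 1 h2 (kC 1 b41 (kC 1 b38 k0)))))))); clear * - this; omega⟩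
            rcases lt_or_ge (2*N - Q + i + a + b - 2*m + c + d + V - Y - 2) 0 with h539 | h539
            · exact T0_177 X hb ⟨by have := kA 1 h539 (kB 1 h536 (kA 4 h532 (kA 4 h531 (kA 2 h6 k0)))); clear * - this; omega, by have := kA 2 h535 (kA 1 h534 (kA 8 h532 (kA 7 h531 (kA 4 h6 (kA 2 h5 (kC 1 b44 (kC 2 b43 (kC 1 b39 k0)))))))); clear * - this; omega, by have := kA 1 h539 (kB 1 h536 (kA 2 h535 (kA 1 h533 (kA 4 h532 (kA 8 h531 (kB 1 h8 (kA 8 h6 (kA 2 h5 (kC 1 b41 (kC 2 b33 k0)))))))))); clear * - this; omega, by have := kA 1 h539 (kB 1 h536 (kA 2 h535 (kA 1 h533 (kA 4 h532 (kA 4 h531 (kB 1 h8 (kA 4 h6 (kA 2 h5 (kA 4 h2 (kC 1 b41 (kC 2 b39 k0))))))))))); clear * - this; omega⟩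
            exact T0_55 X hb ⟨by clear * - h539; omega, by have := kB 1 h539 (kB 1 h536 (kA 2 h535 (kA 1 h533 (kA 4 h532 (kA 8 h531 (kB 1 h8 (kA 8 h6 (kA 2 h5 (kC 1 b41 (kC 2 b33 k0)))))))))); clear * - this; omega, by have := kA 4 h531 (kA 4 h6 (kA 2 h3 (kC 1 b45 (kC 1 b41 (kC 2 b39 k0))))); clear * - this; omega, by have := kB 1 h536 (kA 4 h532 (kA 4 h531 (kA 2 h6 k0))); clear * - this; omega, by have := kA 2 h535 (kA 1 h534 (kA 2 h533 (kA 2 h532 (kA 4 h531 (kB 1 h8 (kA 1 h7 (kA 6 h6 (kA 2 h5 (kC 2 b33 k0))))))))); clear * - this; omega, by clear * - h536; omega⟩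
          rcases lt_or_ge (2*N + Q - i - 2*m + 2*d - 3) 0 with h540 | h540
          · rcases lt_or_ge (-2*N + Q - i - 2*l + 2*m - 2*c - 2*d - 2*U + 2*Y - 1) 0 with h541 | h541
            · rcases lt_or_ge (N - a - b - m + c + V - Y - 2) 0 with h542 | h542
              · exact T0_98 X hb ⟨by have := kA 2 h542 (kA 1 h540 (kA 2 h534 (kA 4 h532 (kA 4 h531 (kA 2 h6 (kA 2 h5 (kC 2 b7 k0))))))); clear * - this; omega, by have := kA 2 h540 (kA 2 h533 (kA 4 h6 (kA 6 h5 (kC 1 b39 (kC 1 b38 (kC 3 b11 k0)))))); clear * - this; omega, by have := kA 2 h542 (kA 1 h540 (kA 1 h533 (kA 1 h532 (kA 1 h531 (kA 2 h7 (kA 1 h6 (kA 1 h3 (kA 1 h2 (kC 1 b33 k0))))))))); clear * - this; omega⟩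
              rcases lt_or_ge (Q - i + 2*a + 2*b - 2*l - 2*c - 2*U + 2*Y - 3) 0 with h543 | h543
              · exact T0_57 X hb ⟨by have := kA 1 h543 (kB 2 h542 (kA 1 h541 (kA 2 h533 (kA 4 h532 (kA 6 h531 (kA 2 h7 (kA 8 h6 (kA 4 h5 (kC 2 b39 (kC 4 b7 k0)))))))))); clear * - this; omega, by have := kA 1 h533 (kA 2 h532 (kB 1 h8 (kA 2 h6 (kA 2 h5 (kC 1 b38 (kC 1 b11 k0)))))); clear * - this; omega, by have := kA 1 h543 (kA 1 h541 (kA 4 h531 (kA 4 h6 (kA 2 h3 (kC 2 b41 (kC 2 b39 (kC 1 b7 k0))))))); clear * - this; omega, by have := kA 1 h543 (kA 2 h532 (kA 2 h531 (kA 2 h3 (kC 1 b44 (kC 1 b39 (kC 1 b11 k0)))))); clear * - this; omega, by have := kA 2 h531 (kB 1 h8 (kA 2 h6 (kC 1 b41 (kC 1 b36 k0)))); clear * - this; omega⟩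
              exact T0_123 X hb ⟨by clear * - h543; omega, by clear * - h542; omega, by have := kA 1 h534 (kA 1 h532 (kA 3 h531 (kA 1 h7 (kA 1 h6 (kA 1 h3 (kA 1 h2 (kC 1 b41 (kC 1 b33 k0)))))))); clear * - this; omega, by have := kA 1 h540 (kA 4 h531 (kA 4 h6 (kA 2 h5 (kC 1 b41 (kC 1 b39 (kC 2 b7 k0)))))); clear * - this; omega, by have := kB 7 h543 (kB 2 h542 (kA 5 h541 (kA 4 h534 (kA 4 h532 (kA 10 h531 (kA 6 h7 (kA 4 h3 (kA 8 h2 (kC 4 b41 (kC 4 b33 k0)))))))))); clear * - this; omega, by have := kB 3 h543 (kA 6 h541 (kA 1 h540 (kA 16 h531 (kB 1 h8 (kA 16 h6 (kA 8 h3 (kC 7 b41 (kC 7 b39 (kC 3 b18 (kC 2 b11 k0)))))))))); clear * - this; omega⟩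
            rcases lt_or_ge (-4*N - Q + i + l + 4*m - 2*c - 2*d - 2*V + 2*Y + 5) 0 with h544 | h544
            · exact T0_2 X hb ⟨by have := kA 2 h534 (kA 4 h531 (kA 2 h3 (kC 1 b44 (kC 1 b41 (kC 2 b33 k0))))); clear * - this; omega, by have := kA 1 h544 (kA 2 h531 (kA 2 h6 (kA 1 h3 (kC 1 b41 (kC 1 b39 k0))))); clear * - this; omega⟩
            exact T0_177 X hb ⟨by clear * - h541; omega, by have := kA 4 h532 (kA 3 h531 (kA 1 h7 (kA 2 h6 (kC 1 b18 k0)))); clear * - this; omega, by have := kB 1 h541 (kA 2 h532 (kA 2 h531 (kA 2 h6 (kA 2 h5 (kC 1 b18 (kC 1 b11 k0)))))); clear * - this; omega, by clear * - h544; omega⟩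
          rcases lt_or_ge (2*N - Q - 2*a - 2*b + 2*c - 1) 0 with h545 | h545
          · exact T0_2 X hb ⟨by have := kB 1 h540 (kA 2 h534 (kA 1 h533 (kB 1 h8 (kA 2 h5 (kA 2 h2 (kC 1 b41 (kC 2 b33 k0))))))); clear * - this; omega, by have := kA 1 h545 (kB 2 h535 (kA 1 h533 (kA 2 h532 (kA 2 h6 (kA 4 h5 (kC 1 b39 (kC 2 b11 k0))))))); clear * - this; omega⟩
          rcases lt_or_ge (4*N - Q - 2*a - 2*b - 2*m + 2*c + 2*d - 2) 0 with h546 | h546
          · exact T0_2 X hb ⟨by have := kB 1 h540 (kA 2 h534 (kA 1 h533 (kB 1 h8 (kA 2 h5 (kA 2 h2 (kC 1 b41 (kC 2 b33 k0))))))); clear * - this; omega, by have := kA 1 h546 (kA 1 h533 (kA 2 h532 (kA 2 h6 (kA 4 h5 (kC 1 b39 (kC 2 b11 k0)))))); clear * - this; omega⟩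
          exact T0_155 X hb ⟨by clear * - h540; omega, by have := kB 1 h540 (kA 4 h532 (kA 2 h531 (kB 1 h8 (kA 2 h6 (kC 1 b18 k0))))); clear * - this; omega, by clear * - h546; omega, by clear * - h535; omega⟩
        rcases lt_or_ge (-2*N + Q - i - a + 2*m - c - d + Y + 1) 0 with h547 | h547
        · rcases lt_or_ge (-3*N - Q + i + a + 2*b + 2*l + 2*m + L + 3*U - 2*V + 6) 0 with h548 | h548
          · rcases lt_or_ge (-3*N - i - 2*a + m - 2*c - 2*d + L - U - V + 2) 0 with h549 | h549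
            · rcases lt_or_ge (3*N + Q - i - 2*l - 3*m + c + d - 2*U + 2*V - 6) 0 with h550 | h550
              · exact T0_7 X hb ⟨by have := kA 1 h550 (kA 2 h533 (kA 2 h532 (kB 2 h8 (kA 4 h6 (kA 2 h5 (kA 1 h3 (kC 1 b39 (kC 1 b33 k0)))))))); clear * - this; omega, by have := kA 2 h549 (kA 2 h531 (kA 2 h7 (kA 4 h6 (kA 2 h3 (kC 1 b41 (kC 3 b39 (kC 1 b18 (kC 1 b11 k0)))))))); clear * - this; omega, by have := kA 2 h550 (kA 1 h533 (kA 2 h532 (kB 1 h8 (kA 2 h6 (kA 2 h5 (kC 1 b39 k0)))))); clear * - this; omega⟩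
              exact T0_2 X hb ⟨by have := kA 1 h548 (kB 1 h534 (kA 2 h532 (kB 1 h8 (kA 1 h7 (kA 1 h6 (kA 1 h2 (kC 1 b39 (kC 2 b18 k0)))))))); clear * - this; omega, by clear * - h550; omega⟩
            rcases lt_or_ge (N - l - m - U + V - 3) 0 with h551 | h551
            · rcases lt_or_ge (-2*N + Q - i + 2*a + 2*b - 2*l - 4*c - 2*d - 2*U - 3) 0 with h552 | h552
              · exact T0_11 X hb ⟨by have := kA 2 h551 (kA 1 h548 (kA 2 h533 (kB 2 h8 (kA 5 h6 (kA 1 h5 (kA 3 h2 (kA 5 h1 (kC 2 b45 (kC 5 b39 k0))))))))); clear * - this; omega, by have := kA 4 h551 (kA 6 h547 (kB 2 h534 (kA 4 h533 (kB 5 h8 (kA 16 h6 (kA 2 h5 (kC 2 b41 (kC 5 b39 (kC 1 b38 (kC 2 b7 k0)))))))))); clear * - this; omega, by have := kA 1 h552 (kA 2 h551 (kA 3 h547 (kB 1 h534 (kA 2 h533 (kB 2 h8 (kA 8 h6 (kC 1 b41 (kC 3 b39 (kC 2 b7 k0))))))))); clear * - this; omega, by have := kA 1 h548 (kA 2 h533 (kA 10 h532 (kB 2 h8 (kA 5 h6 (kA 1 h5 (kA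 3 h2 (kA 5 h1 (kC 2 b45 (kC 5 b39 k0))))))))); clear * - this; omega, by clear * - b11 h8; omega⟩
              exact T0_98 X hb ⟨by clear * - h552; omega, by have := kA 8 h551 (kA 2 h548 (kA 5 h547 (kB 1 h534 (kA 3 h533 (kB 3 h8 (kA 14 h6 (kA 4 h5 (kC 2 b41 (kC 3 b39 (kC 4 b33 k0)))))))))); clear * - this; omega, by have := kA 1 h551 (kB 1 h549 (kA 2 h547 (kA 1 h533 (kA 2 h531 (kB 1 h8 (kA 4 h6 (kC 1 b41 (kC 1 b33 k0)))))))); clear * - this; omega⟩
            exact T0_100 X hb ⟨by clear * - h549; omega, by clear * - h551; omega⟩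
          exact T0_73 X hb ⟨by clear * - h548; omega, by clear * - h531 h532; omega⟩
        exact T0_143 X hb ⟨by clear * - b18 h7 h532; omega, by clear * - h547; omega, by have := kA 2 h532 (kA 2 h531 (kA 1 h7 (kA 2 h6 (kC 1 b18 k0)))); clear * - this; omega, by clear * - h534; omega⟩
      exact T0_31 X hb ⟨by clear * - h533; omega, by clear * - h531 h532; omega⟩
    rcases lt_or_ge (-N - i - 2*l - m - 2*c - 2*d + L - 3*U - V - 2) 0 with h553 | h553
    · rcases lt_or_ge (N - b - m - Y - 2) 0 with h554 | h554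
      · exact T0_34 X hb ⟨by have := kA 2 h553 (kA 2 h531 (kB 1 h8 (kA 2 h7 (kA 3 h3 (kA 1 h2 (kC 1 b41 (kC 3 b39 (kC 1 b33 (kC 3 b17 k0))))))))); clear * - this; omega, by have := kA 2 h554 (kA 1 h553 (kB 1 h532 (kA 2 h3 (kC 1 b42 (kC 1 b39 (kC 1 b9 k0)))))); clear * - this; omega⟩
      exact T0_32 X hb ⟨by have := kB 2 h554 (kA 3 h553 (kB 1 h532 (kA 4 h531 (kB 2 h8 (kA 2 h7 (kA 6 h6 (kA 4 h3 (kC 3 b41 (kC 5 b39 (kC 1 b33 k0)))))))))); clear * - this; omega, by have := kA 1 h553 (kB 1 h532 (kA 2 h531 (kA 2 h6 (kA 2 h3 (kC 1 b41 (kC 2 b39 k0)))))); clear * - this; omega, by clear * - h554; omega, by have := kA 2 h553 (kA 2 h531 (kB 1 h8 (kA 2 h6 (kA 2 h3 (kC 1 b41 (kC 3 b39 k0)))))); clear * - this; omega⟩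
    exact T0_197 X hb ⟨by clear * - h553; omega, by clear * - h532; omega⟩
  rcases lt_or_ge (2*a + 2*b - m - 2) 0 with h555 | h555
  · exact T0_57 X hb ⟨by have := kA 1 h555 (kA 2 h5 (kC 1 b42 (kC 2 b17 (kC 1 b7 k0)))); clear * - this; omega, by have := kA 2 h5 (kC 1 b19 (kC 1 b18 (kC 4 b17 (kC 1 b11 k0)))); clear * - this; omega, by clear * - b14 h3 h555; omega, by have := kA 2 h555 (kA 2 h5 (kA 2 h3 (kC 1 b42 (kC 1 b11 (kC 1 b4 k0))))); clear * - this; omega, by have := kB 2 h500 (kB 1 h8 (kA 2 h6 (kC 1 b41 (kC 1 b36 k0)))); clear * - this; omega⟩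
  exact T0_6 X hb ⟨by clear * - h555; omega, by clear * - h8; omega, by clear * - h500; omega, by clear * - h531; omega⟩

theorem M15 (X : C W N Q i a b l m c d L U V Y) (hb : B N Q i a b l m c d L U V Y)
    (h1 : (-N + m - c) < 0)
    (h2 : (3*N + Q - i - 2*l - 3*m + c + d - 2*U + V - 6) < 0)
    (h3 : (N + c + d - 1) < 0)
    (h4 : (i + a - b) < 0)
    (h5 : (-2*N + 2*m - 2*c - d + 1) < 0)
    (c2x : (-N + m - c) < 0 → (3*N + Q - i - 2*l - 3*m + c + d - 2*U + V - 6) < 0 → (N + c + d - 1) < 0 → (i + a - b) < 0 → (-2*N + 2*m - 2*c - d + 1) < 0 → (N + a - l - m - U - V - 3) < 0 → (-2*N + i + a + 2*m - c - d + Y + 2) < 0 → (-2*N - i + 2*a + 2*b - l + m - 2*c - 2*d - 2*V - 1) < 0 → False)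
    (c3x : (-N + m - c) < 0 → (3*N + Q - i - 2*l - 3*m + c + d - 2*U + V - 6) < 0 → (N + c + d - 1) < 0 → (i + a - b) < 0 → (-2*N + 2*m - 2*c - d + 1) < 0 → (N + a - l - m - U - V - 3) ≥ 0 → False) : False := by
  have b1 := hb.b1
  have b2 := hb.b2
  have b3 := hb.b3
  have b4 := hb.b4
  have b6 := hb.b6
  have b7 := hb.b7
  have b9 := hb.b9
  have b11 := hb.b11
  have b17 := hb.b17
  have b18 := hb.b18
  have b19 := hb.b19
  have b25 := hb.b25
  have b33 := hb.b33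
  have b35 := hb.b35
  have b39 := hb.b39
  have b40 := hb.b40
  have b41 := hb.b41
  have b42 := hb.b42
  have b43 := hb.b43
  have b44 := hb.b44
  have b45 := hb.b45
  rcases lt_or_ge (N + a - l - m - U - V - 3) 0 with h6 | h6
  · rcases lt_or_ge (-2*N + i + a + 2*m - c - d + Y + 2) 0 with h7 | h7
    · exact M14 X hb h1 h2 h3 h4 h5 h6 h7 c2x
    rcases lt_or_ge (2*N - a - 2*m + c + d - Y - 3) 0 with h556 | h556
    · rcases lt_or_ge (-2*N + Q - i - 2*l + 2*m - 2*c - 2*d - 2*U + 2*Y - 1) 0 with h557 | h557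
      · rcases lt_or_ge (2*N - 2*m + c + d - V - Y - 3) 0 with h558 | h558
        · rcases lt_or_ge (-N + a + b - c - d - Y - 1) 0 with h559 | h559
          · rcases lt_or_ge (N + 2*a + b - l - m - 3) 0 with h560 | h560
            · exact T0_111 X hb ⟨by have := kA 1 h560 (kA 1 h556 (kA 1 h5 (kC 1 b7 (kC 1 b4 k0)))); clear * - this; omega, by have := kA 1 h560 (kA 1 h559 (kB 1 h7 (kC 1 b11 k0))); clear * - this; omega, by have := kA 3 h556 (kB 1 h7 (kA 4 h5 (kA 2 h4 (kC 5 b43 (kC 2 b42 (kC 3 b41 (kC 2 b39 (kC 1 b35 k0)))))))); clear * - this; omega, by have := kA 1 h559 (kA 2 h556 (kA 1 h5 (kA 2 h3 (kC 1 b44 (kC 2 b43 (kC 1 b41 (kC 2 b39 k0))))))); clear * - this; omega⟩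
            rcases lt_or_ge (-N - Q + i + b + l + m + 2) 0 with h561 | h561
            · rcases lt_or_ge (N - a - b + c + d + Y - 1) 0 with h562 | h562
              · rcases lt_or_ge (-2*N + Q - 2*a - 2*b + 2*l + 2*m + 2*U + 4) 0 with h563 | h563
                · rcases lt_or_ge (-3*N + i + a + 2*l + 2*m + L + 3*U - 2*V + 6) 0 with h564 | h564
                  · rcases lt_or_ge (3*N - 2*m + 3*c + 2*d + V - 3) 0 with h565 | h565
                    · exact T0_386 X hb ⟨by clear * - b3 h557; omega, by have := kA 1 h563 (kA 1 h561 (kA 1 h559 (kA 1 h556 k0))); clear * - this; omega, by have := kA 1 h563 (kA 2 h561 (kA 2 h558 (kA 1 h557 (kC 1 b39 (kC 1 b18 k0))))); clear * - this; omega, by clear * - h7 h556; omega⟩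
                    exact T0_62 X hb ⟨by clear * - h565; omega, by have := kA 1 h563 (kA 1 h561 (kA 1 h559 (kB 1 h7 (kA 2 h6 (kA 2 h1 (kC 1 b42 k0)))))); clear * - this; omega, by have := kA 1 h563 (kA 2 h561 (kA 1 h557 (kB 2 h7 (kA 2 h4 (kC 1 b45 (kC 1 b39 (kC 1 b11 k0))))))); clear * - this; omega, by have := kA 2 h564 (kA 2 h562 (kA 2 h561 (kA 2 h558 (kA 2 h5 (kA 2 h2 (kC 2 b39 (kC 1 b18 (kC 1 b1 k0)))))))); clear * - this; omega⟩
                  exact T0_289 X hb ⟨by clear * - h564; omega, by have := kA 1 h563 (kA 1 h561 (kA 1 h559 (kB 1 h7 (kC 1 b42 k0)))); clear * - this; omega⟩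
                exact T0_324 X hb ⟨by clear * - h563; omega, by have := kA 2 h561 (kA 2 h558 (kA 1 h557 (kC 1 b39 (kC 1 b18 k0)))); clear * - this; omega, by clear * - h4 h7 h557; omega, by have := kA 1 h562 (kA 1 h561 (kA 1 h557 (kA 1 h556 (kC 1 b41 (kC 1 b39 k0))))); clear * - this; omega⟩
              exact T0_17 X hb ⟨by have := kB 2 h562 (kA 4 h561 (kA 2 h558 (kA 2 h557 (kA 2 h4 (kA 2 h3 (kA 2 h2 (kC 2 b43 (kC 1 b42 (kC 3 b41 (kC 3 b39 k0)))))))))); clear * - this; omega, by have := kA 2 h556 (kA 4 h3 (kC 1 b44 (kC 2 b43 (kC 1 b41 (kC 2 b39 k0))))); clear * - this; omega, by clear * - h562; omega, by have := kA 1 h557 (kA 2 h556 (kB 2 h7 (kA 2 h5 (kA 2 h4 (kC 1 b42 (kC 1 b41 (kC 1 b7 k0))))))); clear * - this; omega, by have := kA 1 h561 (kB 1 h560 (kA 1 h557 (kA 1 h556 (kB 1 h7 (kA 2 h4 (kC 1 b42 (kC 1 b41 k0))))))); clear * - this; omega⟩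
            rcases lt_or_ge (N + b - m + 2*c - 2) 0 with h566 | h566
            · rcases lt_or_ge (-N - a - b + 2*m - c + Y + 1) 0 with h567 | h567
              · rcases lt_or_ge (-a + m + c + Y + 1) 0 with h568 | h568
                · rcases lt_or_ge (-3*N + i + a + 2*l + 2*m + L + 3*U - 2*V + 6) 0 with h569 | h569
                  · rcases lt_or_ge (-N - a - b + 2*m - c + Y + 2) 0 with h570 | h570
                    · rcases lt_or_ge (-N + Q - i - 2*a - m + L - U + V) 0 with h571 | h571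
                      · rcases lt_or_ge (-3*N - Q + i + a + 2*b + 2*l + 2*m + L + 3*U - 2*V + 6) 0 with h572 | h572
                        · rcases lt_or_ge (2*N - i + 2*a - 3*l - m - 2*U + 2*Y - 5) 0 with h573 | h573
                          · rcases lt_or_ge (-2*N + i + 4*a + 4*b - 2*c) 0 with h574 | h574
                            · exact T0_35 X hb ⟨by have := kA 1 h574 (kA 2 h571 (kA 2 h570 (kA 4 h568 (kA 2 h559 (kA 4 h558 (kA 4 h4 (kA 2 h3 (kC 4 b39 (kC 3 b18 k0))))))))); clear * - this; omega, by have := kA 2 h573 (kA 1 h572 (kA 6 h570 (kA 2 h569 (kA 6 h568 (kB 1 h561 (kA 5 h559 (kA 5 h558 (kC 3 b41 (kC 6 b33 k0))))))))); clear * - this; omega⟩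
                            rcases lt_or_ge (N - a - 2*b + c - 1) 0 with h575 | h575
                            · exact T0_2 X hb ⟨by have := kA 1 h572 (kA 1 h571 (kA 1 h570 (kA 1 h568 (kA 1 h559 (kA 1 h558 (kA 2 h4 (kA 1 h3 (kC 1 b39 (kC 1 b33 (kC 2 b18 k0)))))))))); clear * - this; omega, by have := kA 8 h575 (kB 1 h574 (kA 5 h573 (kA 10 h572 (kA 2 h571 (kA 15 h570 (kA 5 h568 (kA 19 h559 (kA 11 h556 (kA 6 h4 (kC 1 b45 (kC 13 b33 k0))))))))))); clear * - this; omega⟩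
                            exact T0_188 X hb ⟨by have := kA 1 h570 (kA 3 h568 (kA 3 h559 (kB 3 h7 (kA 4 h4 (kC 2 b43 (kC 1 b41 (kC 1 b39 k0))))))); clear * - this; omega, by clear * - h575; omega, by clear * - h574; omega⟩
                          exact T0_386 X hb ⟨by have := kA 1 h572 (kA 2 h570 (kA 1 h569 (kA 2 h568 (kA 2 h559 (kA 2 h558 (kA 1 h557 (kA 2 h4 (kC 2 b33 (kC 3 b18 k0))))))))); clear * - this; omega, by clear * - h573; omega, by have := kA 1 h570 (kA 1 h568 (kA 1 h559 (kA 1 h556 (kC 1 b33 k0)))); clear * - this; omega, by clear * - h7 h556; omega⟩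
                        exact T0_73 X hb ⟨by clear * - h572; omega, by have := kA 1 h570 (kA 1 h568 (kA 1 h559 (kA 1 h556 (kC 1 b43 (kC 1 b41 (kC 1 b39 k0)))))); clear * - this; omega⟩
                      exact T0_249 X hb ⟨by clear * - h571; omega, by have := kA 1 h570 (kA 1 h569 (kA 1 h568 (kA 1 h559 (kA 1 h558 (kC 1 b33 (kC 1 b18 k0)))))); clear * - this; omega⟩
                    exact T0_79 X hb ⟨by clear * - h570; omega, by clear * - h567; omega, by have := kA 1 h568 (kA 1 h567 (kB 1 h560 (kA 2 h559 (kB 2 h7 (kA 2 h4 (kC 1 b42 k0)))))); clear * - this; omega, by clear * - h561 h567 h568; omega, by have := kA 2 h569 (kA 3 h568 (kA 23 h567 (kB 3 h560 (kA 4 h559 (kA 4 h558 (kB 8 h7 (kA 6 h4 (kA 12 h3 (kC 4 b45 (kC 5 b43 (kC 6 b39 k0))))))))))); clear * - this; omega, by have := kA 4 h559 (kA 2 h556 (kC 1 b44 (kC 2 b42 (kC 1 b41 k0)))); clear * - this; omega⟩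
                  exact T0_289 X hb ⟨by clear * - h569; omega, by have := kA 1 h568 (kA 1 h567 (kA 1 h559 (kA 1 h556 (kC 1 b43 (kC 1 b41 (kC 1 b39 k0)))))); clear * - this; omega⟩
                exact T0_268 X hb ⟨by clear * - h560 h566; omega, by have := kB 1 h568 (kA 1 h567 (kB 1 h560 (kA 2 h559 (kB 2 h7 (kA 2 h4 (kC 1 b42 k0)))))); clear * - this; omega, by have := kB 1 h568 (kA 1 h566 (kB 1 h560 (kA 1 h559 (kA 1 h3 (kC 1 b42 k0))))); clear * - this; omega, by clear * - h566 h567; omega, by clear * - h568; omega⟩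
              exact T0_111 X hb ⟨by have := kB 1 h567 (kA 1 h566 (kB 1 h560 (kB 2 h7 (kA 2 h5 (kA 2 h4 (kC 1 b42 k0)))))); clear * - this; omega, by clear * - h567; omega, by have := kA 1 h566 (kA 1 h556 (kB 2 h7 (kA 3 h5 (kA 2 h4 (kC 2 b43 (kC 1 b42 (kC 1 b41 (kC 1 b39 k0)))))))); clear * - this; omega, by clear * - h1 h567; omega⟩
            exact T0_120 X hb ⟨by clear * - b42 h7 h559; omega, by clear * - h560; omega, by clear * - h561; omega, by clear * - b42 h559 h560; omega, by have := kB 2 h566 (kA 2 h556 (kA 4 h3 (kC 1 b44 (kC 2 b43 (kC 1 b41 (kC 2 b39 k0)))))); clear * - this; omega, by clear * - h566; omega⟩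
          rcases lt_or_ge (2*N - m + 2*c + 2*d + 2*Y - 2) 0 with h576 | h576
          · rcases lt_or_ge (-3*N - Q + i + a + 2*b + 2*l + 2*m + L + 3*U - 2*V + 6) 0 with h577 | h577
            · rcases lt_or_ge (-3*N - i - 2*a + m - 2*c - 2*d + L - U - V + 2) 0 with h578 | h578
              · exact T0_13 X hb ⟨by have := kA 2 h558 (kA 2 h5 (kC 1 b45 (kC 1 b42 (kC 1 b39 k0)))); clear * - this; omega, by have := kA 2 h578 (kA 2 h576 (kA 3 h556 (kB 1 h7 (kA 4 h5 (kA 4 h4 (kC 2 b39 (kC 1 b18 k0))))))); clear * - this; omega⟩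
              exact T0_100 X hb ⟨by clear * - h578; omega, by have := kA 1 h576 (kA 2 h558 (kA 1 h557 (kA 2 h5 (kC 1 b41 (kC 1 b39 (kC 1 b7 k0)))))); clear * - this; omega⟩
            exact T0_73 X hb ⟨by clear * - h577; omega, by have := kA 1 h576 (kA 1 h557 (kA 2 h556 (kA 2 h5 (kC 1 b41 (kC 1 b39 (kC 1 b7 k0)))))); clear * - this; omega⟩
          exact T0_21 X hb ⟨by clear * - b11 h5; omega, by clear * - h576; omega, by clear * - h559; omega, by have := kB 1 h576 (kB 4 h559 (kA 4 h558 (kA 2 h3 (kC 2 b45 (kC 2 b41 (kC 1 b40 k0)))))); clear * - this; omega, by have := kA 2 h558 (kA 2 h5 (kC 1 b25 (kC 1 b18 (kC 1 b11 k0)))); clear * - this; omega⟩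
        rcases lt_or_ge (l + m + c + d + 2*U - V + Y + 1) 0 with h579 | h579
        · rcases lt_or_ge (-2*N - Q + 2*b + l + m + L + 2*U + 4) 0 with h580 | h580
          · rcases lt_or_ge (-N + i - b + l + m + 2) 0 with h581 | h581
            · rcases lt_or_ge (-3*N - Q + i + a + 2*b + 2*l + 2*m + L + 3*U - 2*V + 6) 0 with h582 | h582
              · rcases lt_or_ge (2*N + Q - i - 2*m + 2*d - 3) 0 with h583 | h583
                · exact T0_98 X hb ⟨by have := kA 1 h583 (kA 2 h582 (kA 6 h581 (kA 4 h579 (kA 4 h557 (kA 8 h556 (kA 4 h6 (kA 4 h5 (kC 2 b41 (kC 4 b39 (kC 6 b18 (kC 4 b7 k0))))))))))); clear * - this; omega, by have := kA 1 h583 (kA 6 h582 (kA 8 h581 (kA 1 h580 (kA 6 h557 (kA 8 h556 (kA 8 h6 (kA 4 h5 (kC 2 b41 (kC 5 b39 (kC 4 b33 (kC 7 b18 k0))))))))))); clear * - this; omega, by have := kA 2 h581 (kA 1 h580 (kA 2 h2 (kC 1 b39 k0))); clear * - this; omega⟩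
                rcases lt_or_ge (2*N - Q - 2*a - 2*b + 2*c - 1) 0 with h584 | h584
                · exact T0_2 X hb ⟨by have := kA 1 h584 (kA 2 h581 (kA 3 h580 (kA 2 h5 (kA 2 h4 (kA 4 h2 (kC 1 b39 (kC 2 b33 k0))))))); clear * - this; omega, by have := kA 1 h584 (kA 2 h582 (kA 1 h557 (kA 1 h556 (kB 1 h7 (kA 2 h5 (kA 2 h4 (kC 2 b33 k0))))))); clear * - this; omega⟩
                rcases lt_or_ge (4*N - Q - 2*a - 2*b - 2*m + 2*c + 2*d - 2) 0 with h585 | h585
                · exact T0_2 X hb ⟨by have := kA 1 h585 (kA 4 h581 (kA 1 h580 (kB 2 h558 (kB 2 h7 (kA 2 h2 (kC 2 b45 (kC 3 b39 k0))))))); clear * - this; omega, by have := kA 3 h585 (kB 1 h583 (kA 4 h582 (kA 2 h581 (kA 2 h557 (kB 2 h7 (kA 4 h6 (kA 8 h5 (kC 1 b41 (kC 3 b39 (kC 2 b33 (kC 3 b11 k0))))))))))); clear * - this; omega⟩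
                rcases lt_or_ge (-N + m - d) 0 with h586 | h586
                · exact T0_64 X hb ⟨by have := kA 2 h586 (kA 4 h582 (kA 2 h581 (kA 2 h557 (kA 3 h556 (kB 1 h7 (kA 2 h6 (kA 2 h5 (kA 2 h4 (kC 4 b33 (kC 3 b18 k0)))))))))); clear * - this; omega, by have := kA 1 h586 (kA 1 h581 (kA 1 h579 (kA 1 h556 (kC 1 b18 k0)))); clear * - this; omega, by clear * - h584; omega⟩
                exact T0_155 X hb ⟨by clear * - h583; omega, by have := kB 1 h583 (kA 2 h581 (kA 1 h579 (kB 3 h558 (kA 2 h556 (kB 2 h7 (kA 2 h6 k0)))))); clear * - this; omega, by clear * - h585; omega, by clear * - h586; omega⟩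
              exact T0_73 X hb ⟨by clear * - h582; omega, by have := kA 2 h581 (kA 1 h580 (kA 1 h557 (kA 1 h556 (kB 1 h7 (kC 1 b39 k0))))); clear * - this; omega⟩
            rcases lt_or_ge (N + 2*a + b - l - m - 3) 0 with h587 | h587
            · exact T0_57 X hb ⟨by have := kA 2 h587 (kA 2 h579 (kB 2 h558 (kA 1 h557 (kA 4 h556 (kA 2 h6 (kA 4 h5 (kC 1 b43 (kC 1 b41 (kC 1 b33 (kC 2 b7 k0)))))))))); clear * - this; omega, by have := kA 1 h579 (kB 3 h558 (kA 2 h556 (kB 2 h7 (kA 4 h6 (kA 4 h5 (kC 1 b19 (kC 2 b11 k0))))))); clear * - this; omega, by have := kA 2 h587 (kA 2 h557 (kA 2 h556 (kA 2 h3 (kC 1 b41 (kC 1 b33 (kC 1 b19 k0)))))); clear * - this; omega, by have := kA 2 h587 (kA 1 h579 (kB 1 h558 (kA 1 h557 (kA 2 h556 (kA 2 h5 (kA 2 h3 (kC 1 b43 (kC 1 b41 (kC 1 b33 (kC 1 b11 k0)))))))))); clear * - this; omega, by have := kB 1 h558 (kA 1 h556 (kB 1 h7 (kA 1 h4 k0))); clear * - this; omega⟩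
            rcases lt_or_ge (-N - Q + i + b + l + m + 2) 0 with h588 | h588
            · exact T0_142 X hb ⟨by have := kA 2 h588 (kA 2 h579 (kB 2 h558 (kA 1 h557 (kA 2 h556 (kB 4 h7 (kA 4 h4 k0)))))); clear * - this; omega, by have := kA 1 h588 (kB 1 h558 (kA 1 h557 (kA 1 h556 (kA 2 h6 (kC 1 b41 (kC 1 b39 k0)))))); clear * - this; omega, by have := kA 2 h588 (kB 1 h587 (kB 1 h581 (kA 1 h579 (kB 1 h558 (kA 1 h557 (kA 1 h556 (kB 3 h7 (kA 4 h4 k0)))))))); clear * - this; omega, by have := kA 5 h588 (kB 1 h587 (kA 3 h579 (kB 3 h558 (kA 1 h557 (kA 2 h556 (kA 4 h4 (kA 8 h2 (kC 3 b41 (kC 3 b39 k0))))))))); clear * - this; omega, by have := kB 1 h587 (kB 1 h581 (kA 2 h579 (kB 4 h558 (kA 3 h556 (kB 3 h7 (kA 4 h4 (kA 2 h3 (kA 2 h2 k0)))))))); clear * - this; omega⟩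
            exact T0_120 X hb ⟨by clear * - h581; omega, by clear * - h587; omega, by clear * - h588; omega, by clear * - b11 h5 h581; omega, by have := kB 1 h581 (kA 1 h556 (kB 1 h7 (kA 2 h5 (kA 2 h4 (kA 2 h3 (kC 2 b43 (kC 1 b41 (kC 1 b39 k0)))))))); clear * - this; omega, by have := kB 1 h581 (kA 2 h579 (kA 2 h556 (kB 2 h7 (kA 6 h5 (kA 4 h4 (kC 2 b43 (kC 1 b41 (kC 1 b33 (kC 1 b18 k0))))))))); clear * - this; omega⟩
          exact T0_31 X hb ⟨by clear * - h580; omega, by have := kA 1 h579 (kB 1 h558 (kA 1 h556 (kB 1 h7 (kA 2 h5 (kC 1 b11 k0))))); clear * - this; omega⟩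
        rcases lt_or_ge (Q - i - 2*l - c - d - 2*U + V + Y - 3) 0 with h589 | h589
        · rcases lt_or_ge (-N - i - 2*l - m - 2*c - 2*d + L - 3*U - V - 2) 0 with h590 | h590
          · rcases lt_or_ge (N - b - m - Y - 2) 0 with h591 | h591
            · exact T0_34 X hb ⟨by have := kA 2 h591 (kA 1 h557 (kA 2 h556 (kA 2 h5 (kA 2 h3 (kC 2 b43 (kC 1 b41 (kC 2 b39 (kC 1 b11 k0)))))))); clear * - this; omega, by have := kA 2 h591 (kA 1 h590 (kB 1 h558 (kA 1 h556 (kA 2 h3 (kC 1 b42 (kC 1 b39 (kC 1 b9 k0))))))); clear * - this; omega⟩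
            rcases lt_or_ge (-2*N + i + 2*a + 2*b + 2*m + 2*Y + 2) 0 with h592 | h592
            · rcases lt_or_ge (3*a + 2*b - l - c - 2) 0 with h593 | h593
              · exact T0_77 X hb ⟨by have := kA 2 h590 (kA 2 h556 (kA 2 h5 (kA 2 h4 (kA 4 h3 (kC 2 b43 (kC 1 b42 (kC 2 b41 (kC 4 b39 (kC 1 b11 k0))))))))); clear * - this; omega, by have := kA 2 h593 (kB 4 h558 (kA 5 h556 (kB 1 h7 (kA 2 h3 (kC 2 b43 (kC 1 b41 (kC 1 b39 (kC 1 b11 k0)))))))); clear * - this; omega, by have := kA 4 h590 (kB 2 h558 (kA 4 h556 (kA 2 h5 (kA 2 h4 (kA 6 h3 (kC 2 b43 (kC 1 b42 (kC 2 b41 (kC 6 b39 (kC 1 b11 k0)))))))))); clear * - this; omega⟩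
              rcases lt_or_ge (a + 2*b + c - 1) 0 with h594 | h594
              · exact T0_135 X hb ⟨by have := kA 2 h556 (kA 2 h5 (kA 2 h3 (kC 2 b43 (kC 1 b41 (kC 1 b39 (kC 1 b3 k0)))))); clear * - this; omega, by have := kA 4 h594 (kB 1 h593 (kA 4 h590 (kB 4 h558 (kA 5 h556 (kB 2 h7 (kA 6 h4 (kC 1 b41 (kC 5 b39 k0)))))))); clear * - this; omega, by have := kA 3 h589 (kB 1 h579 (kA 4 h556 (kA 4 h6 (kA 6 h5 (kA 6 h3 (kC 6 b43 (kC 4 b42 (kC 6 b41 (kC 6 b39 k0))))))))); clear * - this; omega⟩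
              exact T0_15 X hb ⟨by have := kA 1 h592 (kA 2 h590 (kA 2 h589 (kA 2 h556 (kA 2 h4 (kA 4 h3 (kC 1 b43 (kC 2 b41 (kC 4 b39 (kC 1 b6 k0))))))))); clear * - this; omega, by clear * - h593; omega, by have := kA 2 h592 (kA 2 h590 (kA 2 h556 (kA 2 h3 (kC 1 b41 (kC 3 b39 (kC 1 b18 (kC 1 b11 k0))))))); clear * - this; omega, by clear * - h594; omega⟩
            exact T0_32 X hb ⟨by have := kB 1 h591 (kA 2 h590 (kB 2 h558 (kA 3 h556 (kA 3 h4 (kA 3 h3 (kC 1 b41 (kC 2 b39 (kC 1 b33 k0)))))))); clear * - this; omega, by have := kA 4 h590 (kB 2 h558 (kA 4 h556 (kA 2 h4 (kA 6 h3 (kC 1 b45 (kC 1 b41 (kC 6 b39 k0))))))); clear * - this; omega, by clear * - h591; omega, by clear * - h592; omega⟩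
          exact T0_197 X hb ⟨by clear * - h590; omega, by have := kA 1 h589 (kB 1 h558 (kA 2 h556 (kC 1 b3 k0))); clear * - this; omega⟩
        exact T0_215 X hb ⟨by clear * - h558; omega, by clear * - h589; omega, by clear * - h579; omega⟩
      rcases lt_or_ge (-4*N - Q + i + l + 4*m - 2*c - 2*d - 2*V + 2*Y + 5) 0 with h595 | h595
      · rcases lt_or_ge (-2*N - Q + 2*b + l + m + L + 2*U + 4) 0 with h596 | h596
        · exact T0_2 X hb ⟨by have := kA 1 h596 (kA 3 h595 (kA 2 h556 (kA 2 h5 (kA 2 h4 (kA 3 h3 (kA 4 h2 (kC 2 b41 (kC 3 b39 (kC 2 b18 (kC 1 b11 k0)))))))))); clear * - this; omega, by have := kA 2 h595 (kA 2 h556 (kA 2 h3 (kC 1 b44 (kC 1 b41 (kC 2 b39 k0))))); clear * - this; omega⟩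
        exact T0_31 X hb ⟨by clear * - h596; omega, by have := kA 2 h595 (kA 2 h556 (kA 2 h5 (kA 2 h3 (kA 2 h2 (kC 1 b42 (kC 2 b41 (kC 2 b39 (kC 1 b18 (kC 1 b11 k0))))))))); clear * - this; omega⟩
      exact T0_177 X hb ⟨by clear * - h557; omega, by have := kA 2 h5 (kC 1 b42 (kC 2 b17 (kC 1 b11 (kC 1 b1 k0)))); clear * - this; omega, by have := kB 2 h557 (kB 2 h7 (kA 2 h6 (kA 6 h5 (kC 1 b42 (kC 1 b18 (kC 3 b11 k0)))))); clear * - this; omega, by clear * - h595; omega⟩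
    exact T0_144 X hb ⟨by clear * - h7; omega, by clear * - h556; omega, by clear * - b11 h5 h7; omega, by have := kB 2 h556 (kB 4 h7 (kA 4 h6 (kA 4 h4 (kA 4 h3 (kC 2 b45 (kC 1 b44 (kC 1 b41 (kC 4 b39 (kC 8 b2 k0))))))))); clear * - this; omega, by have := kA 2 h6 (kA 2 h5 (kC 1 b42 (kC 1 b18 (kC 1 b11 k0)))); clear * - this; omega⟩
  exact c3x h1 h2 h3 h4 h5 h6

theorem P4 (X : C W N Q i a b l m c d L U V Y) (hb : B N Q i a b l m c d L U V Y)
    (h1 : (-N + m - c) < 0)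
    (h2 : (3*N + Q - i - 2*l - 3*m + c + d - 2*U + V - 6) < 0)
    (h3 : (N + c + d - 1) < 0)
    (h4 : (i + a - b) < 0)
    (c2x : (-N + m - c) < 0 → (3*N + Q - i - 2*l - 3*m + c + d - 2*U + V - 6) < 0 → (N + c + d - 1) < 0 → (i + a - b) < 0 → (-2*N + 2*m - 2*c - d + 1) < 0 → (N + a - l - m - U - V - 3) < 0 → (-2*N + i + a + 2*m - c - d + Y + 2) < 0 → (-2*N - i + 2*a + 2*b - l + m - 2*c - 2*d - 2*V - 1) < 0 → False)
    (c3x : (-N + m - c) < 0 → (3*N + Q - i - 2*l - 3*m + c + d - 2*U + V - 6) < 0 → (N + c + d - 1) < 0 → (i + a - b) < 0 → (-2*N + 2*m - 2*c - d + 1) < 0 → (N + a - l - m - U - V - 3) ≥ 0 → False) : False := by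
  have b2 := hb.b2
  have b4 := hb.b4
  have b6 := hb.b6
  have b9 := hb.b9
  have b11 := hb.b11
  have b14 := hb.b14
  have b17 := hb.b17
  have b18 := hb.b18
  have b19 := hb.b19
  have b29 := hb.b29
  have b33 := hb.b33
  have b34 := hb.b34
  have b35 := hb.b35
  have b38 := hb.b38
  have b39 := hb.b39
  have b41 := hb.b41
  have b42 := hb.b42
  have b43 := hb.b43
  have b44 := hb.b44
  have b45 := hb.b45
  rcases lt_or_ge (-2*N + 2*m - 2*c - d + 1) 0 with h5 | h5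
  · exact M15 X hb h1 h2 h3 h4 h5 c2x c3x
  rcases lt_or_ge (2*N - m + 2*c + d - 2) 0 with h757 | h757
  · rcases lt_or_ge (N - a - b + d + V - 1) 0 with h758 | h758
    · rcases lt_or_ge (2*N + i + 2*a + 2*b - 2*m + 2*c + 2*d + 2*V - 2) 0 with h759 | h759
      · rcases lt_or_ge (-2*N + m - 2*c - d - V + 1) 0 with h760 | h760
        · rcases lt_or_ge (-N + a - l - 2*c - d - U - 1) 0 with h761 | h761
          · exact T0_176 X hb ⟨by have := kA 1 h761 (kA 2 h760 (kA 2 h758 (kA 5 h757 (kC 2 b33 (kC 1 b29 (kC 1 b14 k0)))))); clear * - this; omega, by clear * - h757 h761; omega⟩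
          rcases lt_or_ge (N - a + l + 2*c + d + U + 1) 0 with h762 | h762
          · rcases lt_or_ge (N + a - l - m - U - 3) 0 with h763 | h763
            · rcases lt_or_ge (N - l - m - U + V - 3) 0 with h764 | h764
              · rcases lt_or_ge (-2*N - i + 2*a + 2*b - 2*l - m - 2*c - 2*d + L - 2*U - 2) 0 with h765 | h765
                · rcases lt_or_ge (-3*N + 2*m - 2*c - 2*d - V + 1) 0 with h766 | h766
                  · rcases lt_or_ge (a + 2*b + c - 1) 0 with h767 | h767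
                    · rcases lt_or_ge (N + c + d + Y - 1) 0 with h768 | h768
                      · rcases lt_or_ge (2*N - Q - 2*a - 2*b + 2*c - 1) 0 with h769 | h769
                        · exact T0_186 X hb ⟨by have := kA 1 h769 (kA 2 h768 (kA 2 h767 (kA 2 h764 (kA 4 h760 (kA 1 h759 (kC 1 b41 (kC 1 b33 k0))))))); clear * - this; omega, by have := kA 1 h769 (kA 1 h765 (kA 2 h763 (kA 4 h762 (kA 2 h760 (kA 2 h758 (kA 2 h4 (kC 1 b33 (kC 1 b14 k0)))))))); clear * - this; omega, by have := kA 1 h765 (kA 2 h763 (kA 4 h762 (kA 4 h760 (kA 1 h759 (kA 2 h758 (kC 1 b33 (kC 1 b14 k0))))))); clear * - this; omega⟩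
                        rcases lt_or_ge (-2*N - Q - 2*a - 2*b + 2*m - 2*c - 2*d - 2*V + 2) 0 with h770 | h770
                        · exact T0_186 X hb ⟨by have := kA 2 h770 (kB 1 h769 (kA 2 h768 (kA 2 h767 (kA 2 h764 (kA 1 h759 (kC 1 b41 (kC 1 b33 k0))))))); clear * - this; omega, by have := kA 1 h770 (kA 1 h765 (kA 2 h763 (kA 4 h762 (kA 2 h758 (kA 2 h4 (kC 1 b33 (kC 1 b14 k0))))))); clear * - this; omega, by have := kA 1 h770 (kB 2 h769 (kA 2 h768 (kA 2 h764 (kA 2 h762 (kC 1 b41 (kC 1 b38 k0)))))); clear * - this; omega⟩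
                        exact T0_242 X hb ⟨by have := kA 2 h764 (kA 2 h763 (kA 2 h762 (kC 1 b19 k0))); clear * - this; omega, by clear * - h770; omega, by clear * - h760; omega⟩
                      exact T0_241 X hb ⟨by have := kA 2 h766 (kA 4 h763 (kA 4 h762 (kA 2 h760 (kA 1 h759 (kA 2 h758 (kC 2 b43 (kC 1 b41 (kC 1 b39 k0)))))))); clear * - this; omega, by clear * - h768; omega, by have := kA 1 h765 (kA 4 h763 (kA 4 h762 (kA 2 h760 (kA 2 h758 (kC 1 b39 k0))))); clear * - this; omega⟩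
                    rcases lt_or_ge (-Q + i - a + l + c + 1) 0 with h771 | h771
                    · exact T0_56 X hb ⟨by have := kA 1 h766 (kA 1 h765 (kA 5 h763 (kA 7 h762 (kA 4 h760 (kA 1 h759 (kA 3 h758 (kA 1 h4 (kC 1 b39 (kC 1 b33 (kC 1 b14 k0)))))))))); clear * - this; omega, by have := kA 3 h771 (kA 1 h766 (kA 1 h765 (kA 5 h763 (kA 2 h762 (kA 1 h760 (kA 1 h759 (kA 4 h758 (kA 1 h2 (kC 1 b39 (kC 2 b14 k0)))))))))); clear * - this; omega⟩
                    exact T0_15 X hb ⟨by clear * - h771; omega, by have := kB 1 h767 (kA 1 h766 (kA 1 h765 (kA 2 h764 (kA 1 h763 (kA 5 h762 (kA 2 h760 (kA 1 h758 (kA 1 h4 (kC 1 b33 k0))))))))); clear * - this; omega, by have := kB 1 h767 (kA 2 h766 (kA 2 h765 (kA 2 h764 (kA 4 h763 (kA 8 h762 (kA 4 h760 (kA 2 h759 (kC 1 b39 (kC 1 b33 k0))))))))); clear * - this; omega, by clear * - h767; omega⟩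
                  exact T0_310 X hb (by clear * - h766; omega)
                rcases lt_or_ge (N + a - l - m - U - 2) 0 with h772 | h772
                · exact T0_75 X hb ⟨by have := kA 1 h772 (kA 2 h762 (kC 1 b33 (kC 1 b29 (kC 1 b6 k0)))); clear * - this; omega, by clear * - h772; omega, by have := kA 3 h772 (kA 4 h762 (kA 2 h760 (kA 2 h758 (kC 1 b44 (kC 2 b33 (kC 1 b14 k0)))))); clear * - this; omega⟩
                exact T0_358 X hb ⟨by clear * - h765; omega, by clear * - h772; omega, by clear * - h763; omega⟩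
              exact T0_35 X hb ⟨by have := kA 6 h763 (kA 6 h762 (kA 4 h760 (kA 2 h759 (kA 4 h758 (kC 1 b39 (kC 1 b38 (kC 2 b14 (kC 1 b11 k0)))))))); clear * - this; omega, by clear * - h764; omega⟩
            rcases lt_or_ge (-3*N - Q + i + a + 2*b + 2*l + 2*m + L + 3*U - 2*V + 6) 0 with h773 | h773
            · exact T0_35 X hb ⟨by have := kA 4 h760 (kA 2 h759 (kA 4 h758 (kA 6 h757 (kC 1 b39 (kC 1 b38 (kC 2 b14 (kC 1 b11 k0))))))); clear * - this; omega, by have := kA 1 h773 (kB 1 h763 (kA 2 h760 (kA 2 h758 (kA 4 h757 (kC 1 b44 (kC 2 b33 (kC 1 b14 k0))))))); clear * - this; omega⟩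
            exact T0_73 X hb ⟨by clear * - h773; omega, by clear * - h763; omega⟩
          exact T0_243 X hb ⟨by clear * - h761; omega, by clear * - h762; omega, by clear * - h759 h760; omega, by clear * - h760; omega, by have := kA 2 h760 (kA 2 h758 (kA 4 h757 (kA 2 h4 (kC 1 b43 (kC 1 b41 (kC 1 b33 (kC 2 b14 k0))))))); clear * - this; omega, by have := kB 8 h761 (kA 4 h760 (kA 4 h758 (kA 5 h757 (kB 1 h5 (kA 2 h4 (kC 2 b44 (kC 3 b39 (kC 2 b38 k0)))))))); clear * - this; omega⟩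
        rcases lt_or_ge (2*N - m + 2*c + d + V - 1) 0 with h774 | h774
        · rcases lt_or_ge (-a + V) 0 with h775 | h775
          · rcases lt_or_ge (-N + l + m + U - V + 1) 0 with h776 | h776
            · rcases lt_or_ge (-3*N + i - a + 3*l + 3*m + 3*U - 2*V + 6) 0 with h777 | h777
              · exact T0_35 X hb ⟨by have := kA 1 h777 (kA 1 h776 (kA 3 h775 (kA 4 h774 (kA 3 h759 (kA 4 h758 (kA 2 h4 (kA 2 h2 (kC 2 b39 (kC 2 b38 (kC 8 b17 (kC 2 b14 k0))))))))))); clear * - this; omega, by have := kA 1 h777 (kA 1 h775 (kA 2 h757 (kC 1 b44 (kC 1 b33 (kC 1 b6 k0))))); clear * - this; omega⟩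
              rcases lt_or_ge (-3*N - Q + i + a + 2*b + 2*l + 2*m + L + 3*U - 2*V + 6) 0 with h778 | h778
              · exact T0_35 X hb ⟨by have := kA 2 h775 (kA 2 h774 (kA 1 h759 (kA 2 h758 (kC 1 b44 (kC 1 b39 (kC 1 b33 (kC 6 b17 (kC 1 b14 k0)))))))); clear * - this; omega, by have := kA 1 h778 (kA 1 h775 (kA 2 h774 (kA 2 h758 (kC 1 b44 (kC 2 b33 (kC 4 b17 (kC 1 b14 k0))))))); clear * - this; omega⟩
              exact T0_66 X hb ⟨by clear * - h777; omega, by clear * - h775 h776; omega, by clear * - h778; omega⟩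
            exact T0_56 X hb ⟨by have := kA 2 h774 (kA 1 h759 (kA 2 h758 (kC 1 b39 (kC 1 b33 (kC 1 b29 (kC 6 b17 (kC 1 b14 k0))))))); clear * - this; omega, by clear * - h776; omega⟩
          rcases lt_or_ge (a - V) 0 with h779 | h779
          · exact T0_220 X hb ⟨by have := kA 2 h774 (kA 2 h759 (kA 4 h758 (kC 3 b39 (kC 1 b38 (kC 2 b29 (kC 6 b17 (kC 1 b11 k0))))))); clear * - this; omega, by have := kA 2 h774 (kC 1 b33 (kC 1 b29 (kC 1 b6 (kC 2 b2 k0)))); clear * - this; omega, by clear * - h779; omega, by have := kA 2 h779 (kA 2 h774 (kA 2 h758 (kC 1 b44 (kC 2 b33 (kC 1 b14 (kC 4 b2 k0)))))); clear * - this; omega⟩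
          exact T0_244 X hb ⟨by clear * - b6 h757; omega, by have := kA 2 h774 (kA 2 h758 (kC 1 b44 (kC 1 b43 (kC 1 b41 (kC 2 b39 (kC 6 b17 k0)))))); clear * - this; omega, by clear * - h779; omega, by clear * - h775; omega⟩
        exact T0_389 X hb ⟨by clear * - h774; omega, by clear * - h760; omega, by clear * - h759; omega, by have := kB 4 h774 (kA 2 h758 (kA 5 h757 (kB 1 h5 (kC 1 b39 (kC 2 b29 k0))))); clear * - this; omega⟩
      rcases lt_or_ge (-N - b + m - c - d - V) 0 with h780 | h780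
      · rcases lt_or_ge (-2*a + V - 1) 0 with h781 | h781
        · rcases lt_or_ge (i + 2*a - 2*V) 0 with h782 | h782
          · exact T0_34 X hb ⟨by have := kA 3 h782 (kA 4 h781 (kA 2 h780 (kA 4 h758 (kA 4 h757 (kA 2 h3 (kC 1 b43 (kC 1 b41 (kC 5 b33 (kC 1 b29 (kC 3 b14 k0)))))))))); clear * - this; omega, by clear * - b18 h782; omega⟩
          exact T0_220 X hb ⟨by have := kA 2 h781 (kA 2 h758 (kA 2 h757 (kA 2 h4 (kA 2 h3 (kC 1 b45 (kC 4 b39 (kC 1 b9 k0))))))); clear * - this; omega, by clear * - h782; omega, by have := kA 2 h780 (kA 2 h757 (kC 1 b9 (kC 1 b6 k0))); clear * - this; omega, by have := kA 3 h781 (kA 6 h780 (kA 4 h758 (kA 4 h757 (kA 1 h3 (kA 1 h2 (kC 2 b45 (kC 5 b33 (kC 2 b14 k0)))))))); clear * - this; omega⟩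
        rcases lt_or_ge (i + 2*a - V) 0 with h783 | h783
        · exact T0_34 X hb ⟨by have := kA 1 h783 (kB 1 h781 (kA 2 h758 (kA 2 h757 (kC 2 b33 (kC 1 b29 (kC 1 b14 (kC 4 b2 k0))))))); clear * - this; omega, by clear * - b17 b18 h783; omega⟩
        exact T0_369 X hb ⟨by clear * - h783; omega, by clear * - h781; omega, by have := kB 1 h781 (kA 2 h780 (kA 2 h758 (kA 2 h757 (kC 1 b45 (kC 2 b39 (kC 1 b9 (kC 4 b2 k0))))))); clear * - this; omega, by have := kB 1 h781 (kA 2 h780 (kA 2 h758 (kA 2 h757 (kC 1 b45 (kC 2 b33 (kC 1 b14 (kC 4 b2 k0))))))); clear * - this; omega⟩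
      exact T0_77 X hb ⟨by have := kA 2 h758 (kA 2 h757 (kA 2 h4 (kC 1 b43 (kC 1 b41 (kC 2 b39 (kC 1 b33 (kC 2 b29 (kC 6 b17 k0)))))))); clear * - this; omega, by clear * - h780; omega, by clear * - h759; omega⟩
    rcases lt_or_ge (-N - i + a + b - l + m - 2*c - d - V - 1) 0 with h784 | h784
    · rcases lt_or_ge (N - l - m - U + V - 3) 0 with h785 | h785
      · rcases lt_or_ge (2*N + 2*a + b - 2*l - 2*m - 2*U + V - 5) 0 with h786 | h786
        · rcases lt_or_ge (a + b - m - c - Y - 2) 0 with h787 | h787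
          · rcases lt_or_ge (-2*N - Q + 2*m - 2*c - 2*d - 2*V + 1) 0 with h788 | h788
            · exact T0_32 X hb ⟨by have := kA 2 h788 (kA 1 h786 (kA 2 h785 (kA 5 h4 (kA 3 h3 (kA 1 h2 (kC 3 b41 (kC 3 b33 (kC 1 b4 (kC 5 b2 k0))))))))); clear * - this; omega, by have := kA 1 h788 (kA 2 h785 (kA 2 h757 (kC 1 b41 (kC 1 b34 k0)))); clear * - this; omega, by have := kA 1 h787 (kA 1 h757 (kA 1 h3 (kC 1 b43 (kC 1 b39 (kC 1 b29 (kC 1 b2 k0)))))); clear * - this; omega, by have := kA 1 h788 (kA 2 h787 (kA 2 h785 (kA 2 h757 (kC 1 b19 (kC 2 b4 k0))))); clear * - this; omega⟩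
            rcases lt_or_ge (2*N - Q - 2*a - 2*b + 2*c) 0 with h789 | h789
            · exact T0_32 X hb ⟨by have := kA 1 h789 (kA 2 h787 (kA 2 h4 (kA 2 h3 (kC 1 b43 (kC 1 b41 (kC 1 b33 (kC 1 b14 (kC 2 b2 k0)))))))); clear * - this; omega, by have := kA 2 h787 (kA 2 h757 (kC 1 b35 (kC 1 b29 k0))); clear * - this; omega, by have := kA 1 h787 (kA 1 h757 (kA 1 h3 (kC 1 b43 (kC 1 b39 (kC 1 b29 (kC 1 b2 k0)))))); clear * - this; omega, by clear * - b4 h787 h789; omega⟩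
            exact T0_64 X hb ⟨by have := kA 2 h787 (kA 2 h784 (kA 4 h757 (kA 2 h4 (kC 1 b43 (kC 2 b33 (kC 2 b29 (kC 1 b19 (kC 4 b2 k0)))))))); clear * - this; omega, by have := kA 2 h785 (kA 2 h757 (kC 1 b19 (kC 1 b4 k0))); clear * - this; omega, by clear * - h789; omega⟩
          rcases lt_or_ge (Q - i - l + m + 2*Y - 1) 0 with h790 | h790
          · exact T0_56 X hb ⟨by have := kA 2 h790 (kA 2 h786 (kA 2 h784 (kA 2 h757 (kA 4 h4 (kA 4 h3 (kC 1 b43 (kC 3 b41 (kC 2 b39 (kC 3 b33 (kC 10 b2 k0)))))))))); clear * - this; omega, by have := kA 2 h786 (kC 1 b19 (kC 1 b4 (kC 2 b2 k0))); clear * - this; omega⟩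
          rcases lt_or_ge (-Q + i - 2*a - 2*b + l + 2*m + 2*c + 2*Y + 3) 0 with h791 | h791
          · exact T0_30 X hb ⟨by have := kA 4 h785 (kB 2 h758 (kA 2 h3 (kC 1 b43 (kC 1 b41 (kC 1 b33 k0))))); clear * - this; omega, by have := kA 1 h791 (kA 1 h786 (kA 2 h784 (kA 1 h757 (kA 2 h4 (kA 1 h3 (kC 1 b42 (kC 2 b41 (kC 2 b33 (kC 5 b2 k0))))))))); clear * - this; omega, by have := kA 1 h786 (kA 1 h1 (kC 1 b43 (kC 1 b41 (kC 1 b39 (kC 1 b2 k0))))); clear * - this; omega⟩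
          exact T0_349 X hb ⟨by have := kA 2 h786 (kA 2 h784 (kA 2 h757 (kA 2 h4 (kC 1 b43 (kC 2 b41 (kC 2 b33 (kC 1 b19 (kC 6 b2 k0)))))))); clear * - this; omega, by clear * - h787; omega, by clear * - h790; omega, by clear * - h791; omega⟩
        rcases lt_or_ge (b - V - 1) 0 with h792 | h792
        · exact T0_328 X hb ⟨by have := kA 2 h792 (kA 2 h785 (kA 2 h757 (kA 1 h4 (kC 1 b42 (kC 1 b41 (kC 2 b33 (kC 1 b29 k0))))))); clear * - this; omega, by have := kA 1 h792 (kB 1 h786 (kA 2 h785 (kA 2 h757 (kA 1 h4 (kC 1 b33 (kC 1 b29 k0)))))); clear * - this; omega, by have := kA 2 h792 (kA 4 h785 (kA 1 h4 (kA 2 h3 (kC 2 b43 (kC 2 b41 (kC 2 b39 k0)))))); clear * - this; omega, by have := kA 2 h792 (kA 2 h785 (kA 1 h4 (kA 2 h3 (kC 2 b43 (kC 2 b41 (kC 2 b39 k0)))))); clear * - this; omega⟩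
        exact T0_117 X hb ⟨by have := kA 4 h785 (kA 2 h784 (kA 2 h757 (kC 1 b43 (kC 1 b41 (kC 1 b33 (kC 2 b2 k0)))))); clear * - this; omega, by clear * - h786; omega, by clear * - h792; omega⟩
      rcases lt_or_ge (-3*N - i - 2*a + m - 2*c - 2*d + L - U - V + 2) 0 with h793 | h793
      · rcases lt_or_ge (-N - a - b + 2*m - c + Y + 1) 0 with h794 | h794
        · exact T0_10 X hb ⟨by have := kA 2 h757 (kC 1 b19 (kC 1 b9 (kC 1 b6 (kC 2 b2 k0)))); clear * - this; omega, by have := kA 6 h793 (kA 2 h784 (kA 4 h757 (kA 10 h4 (kA 4 h3 (kC 4 b39 (kC 1 b38 (kC 1 b33 (kC 1 b6 k0)))))))); clear * - this; omega, by have := kA 2 h794 (kA 2 h757 (kA 2 h2 (kC 1 b45 (kC 1 b43 (kC 2 b41 (kC 2 b39 (kC 1 b33 (kC 4 b2 k0)))))))); clear * - this; omega⟩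
        rcases lt_or_ge (N + a + b - m + c - Y - 2) 0 with h795 | h795
        · exact T0_32 X hb ⟨by have := kA 2 h795 (kA 2 h793 (kA 4 h4 (kA 2 h3 (kA 2 h2 (kC 1 b39 (kC 1 b33 (kC 2 b19 (kC 1 b6 (kC 2 b2 k0))))))))); clear * - this; omega, by have := kA 2 h784 (kA 2 h757 (kA 2 h4 (kC 1 b41 (kC 1 b33 (kC 1 b18 (kC 4 b2 k0)))))); clear * - this; omega, by have := kA 2 h795 (kA 2 h1 (kC 2 b43 (kC 1 b42 (kC 1 b41 (kC 1 b39 (kC 2 b2 k0)))))); clear * - this; omega, by have := kA 5 h795 (kB 1 h794 (kA 10 h793 (kA 12 h757 (kA 18 h4 (kA 8 h3 (kC 3 b41 (kC 7 b39 (kC 6 b33 (kC 5 b18 (kC 9 b6 (kC 16 b2 k0))))))))))); clear * - this; omega⟩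
        exact T0_111 X hb ⟨by have := kB 1 h795 (kA 4 h757 (kA 2 h4 (kC 2 b41 (kC 2 b38 (kC 4 b2 k0))))); clear * - this; omega, by clear * - h794; omega, by clear * - h795; omega, by clear * - h1 h794; omega⟩
      exact T0_100 X hb ⟨by clear * - h793; omega, by clear * - h785; omega⟩
    rcases lt_or_ge (N + a + b - m + d + V - 2) 0 with h796 | h796
    · exact T0_56 X hb ⟨by have := kA 1 h796 (kB 1 h784 (kA 2 h3 (kC 1 b39 (kC 2 b17 (kC 1 b14 k0))))); clear * - this; omega, by have := kA 5 h796 (kB 1 h784 (kA 4 h757 (kA 2 h4 (kC 1 b44 (kC 2 b38 (kC 1 b35 (kC 2 b29 (kC 6 b2 k0)))))))); clear * - this; omega⟩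
    exact T0_11 X hb ⟨by have := kA 2 h757 (kA 2 h4 (kA 2 h3 (kC 2 b45 (kC 2 b39 (kC 1 b9 (kC 3 b6 (kC 4 b2 k0))))))); clear * - this; omega, by clear * - h796; omega, by clear * - h758; omega, by have := kA 2 h3 (kC 1 b42 (kC 1 b41 (kC 1 b39 (kC 2 b17 (kC 1 b9 (kC 1 b6 k0)))))); clear * - this; omega, by clear * - h784; omega⟩
  rcases lt_or_ge (l + m + d + 2*U + 1) 0 with h797 | h797
  · rcases lt_or_ge (l + m + d + 2*U - V + 2) 0 with h798 | h798
    · exact T0_239 X hb (by clear * - h798; omega)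
    exact T0_390 X hb ⟨by clear * - b17 h797; omega, by clear * - h798; omega, by clear * - h757 h797; omega, by have := kB 1 h798 (kB 1 h757 (kA 1 h3 (kA 1 h2 k0))); clear * - this; omega⟩
  exact T0_3 X hb ⟨by clear * - h5; omega, by clear * - h757; omega, by clear * - h3 h5 h757; omega, by clear * - h797; omega⟩

end Pool.Agent.MP_a38735_al.WL.E342
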