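import Pool.Agent.MP_a38735_al.E342t0
import Pool.Agent.MP_a38735_al.E342t1
import Pool.Agent.MP_a38735_al.E342t2
import Pool.Agent.MP_a38735_al.E342t3

set_option autoImplicit false
set_option linter.unusedVariables false
set_option linter.unusedSimpArgs false

namespace Pool.Agent.MP_a38735_al.WL.E342

variable {G : Type*} [Group G]

variable {W : ℤ → G} {N Q i a b l m c d L U V Y : ℤ}

theorem M17 (X : C W N Q i a b l m c d L U V Y) (hb : B N Q i a b l m c d L U V Y)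
    (h2 : (3*N + Q - i - 2*l - 3*m + c + d - 2*U + V - 6) < 0)
    (h3 : (N + c + d - 1) ≥ 0)
    (h907 : (-N + l + 2*m - c + d + 2*U + 2) < 0)
    (h908 : (l + m + d + 2*U + 1) ≥ 0)
    (h914 : (-2*N + 2*m - 2*c - d + 1) < 0)
    (h916 : (-N - l - c - 2*d - 2*U + V - 1) < 0)
    (h917 : (-3*N + 3*m - 3*c - 2*d + 2) < 0)
    (h918 : (m + d + Y + 1) < 0)
    (h919 : (N + a - l - m - U - V - 3) < 0)
    (h920 : (3*N + Q - i - 2*l - 3*m + c + d - 2*U + 2*V - 6) < 0)
    (h921 : (-i - l - c - d - V - 2) < 0)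
    (h922 : (-4*N + Q - i - 2*l + 2*m - 4*c - 6*d - 2*U - 1) < 0)
    (h923 : (N - a - b + c + d + Y - 1) < 0)
    (h924 : (-2*a - 2*b + l + 3*m - L + 2*U + 2*Y + 2) < 0)
    (h925 : (-2*N - i + 2*a + 2*b - l + m - 2*c - 2*d - 2*V - 1) < 0) : False := by
  have b2 := hb.b2
  have b7 := hb.b7
  have b9 := hb.b9
  have b11 := hb.b11
  have b17 := hb.b17
  have b18 := hb.b18
  have b19 := hb.b19
  have b21 := hb.b21
  have b32 := hb.b32
  have b33 := hb.b33
  have b39 := hb.b39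
  have b40 := hb.b40
  have b41 := hb.b41
  have b43 := hb.b43
  have b45 := hb.b45
  rcases lt_or_ge (-2*a - 2*b + l + m - 2*d - L + 2*U) 0 with h926 | h926
  · rcases lt_or_ge (-2*N + 3*m - 2*c + 2*Y + 2) 0 with h927 | h927
    · rcases lt_or_ge (2*N + Q - i - a - b - 2*m + c + d + V - Y - 3) 0 with h928 | h928
      · rcases lt_or_ge (N + a - l - m - U - 3) 0 with h929 | h929
        · rcases lt_or_ge (-a) 0 with h930 | h930
          · rcases lt_or_ge (-4*N - Q + i + 3*l + 5*m - 2*c + 4*U - 2*V + 8) 0 with h931 | h931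
            · rcases lt_or_ge (-2*N - a - b + l + 2*m - c - d - V + Y + 2) 0 with h932 | h932
              · exact T0_70 X hb ⟨by have := kA 4 h930 (kA 2 h929 (kA 1 h925 (kA 2 h918 (kC 1 b41 (kC 1 b39 (kC 1 b18 k0)))))); clear * - this; omega, by have := kA 1 h932 (kA 2 h930 (kA 1 h928 (kC 1 b7 k0))); clear * - this; omega, by have := kA 4 h930 (kA 6 h929 (kA 1 h927 (kA 1 h924 (kC 2 b41 (kC 1 b33 k0))))); clear * - this; omega⟩
              exact T0_149 X hb ⟨by have := kA 2 h930 (kA 1 h928 (kA 1 h927 (kA 1 h925 (kC 1 b7 k0)))); clear * - this; omega, by clear * - h908 h928 h931; omega, by clear * - h932; omega, by clear * - b17 b19 h928; omega, by clear * - b11 h927 h932; omega, by clear * - b19 h928 h929; omega⟩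
            rcases lt_or_ge (-2*N + Q - i + 2*a + 2*b + 2*m - 2*c + 2*U - 2*V + 1) 0 with h933 | h933
            · rcases lt_or_ge (-N - i + a + b - l + m - 2*c - d - V - 1) 0 with h934 | h934
              · exact T0_391 X hb ⟨by have := kB 1 h931 (kA 4 h930 (kA 4 h929 (kA 1 h927 (kA 2 h907 (kC 1 b41 (kC 1 b33 (kC 2 b7 k0))))))); clear * - this; omega, by have := kA 1 h933 (kA 2 h930 (kA 2 h929 (kA 1 h927 (kA 1 h926 (kC 1 b41 (kC 1 b7 k0)))))); clear * - this; omega, by clear * - h931; omega, by have := kA 4 h930 (kA 4 h929 (kA 2 h918 (kC 1 b41 (kC 1 b33 (kC 1 b19 k0))))); clear * - this; omega, by clear * - h907 h908 h931; omega⟩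
              exact T0_11 X hb ⟨by have := kA 4 h930 (kA 4 h929 (kA 2 h918 (kC 1 b45 (kC 1 b41 (kC 2 b39 k0))))); clear * - this; omega, by have := kB 13 h934 (kB 1 h931 (kA 8 h930 (kA 4 h928 (kA 2 h927 (kA 7 h925 (kA 6 h921 (kA 8 h919 (kA 6 h916 (kA 12 h907 (kC 5 b7 k0)))))))))); clear * - this; omega, by clear * - h925 h934; omega, by have := kB 1 h934 (kA 2 h930 (kA 2 h929 (kA 1 h925 (kA 2 h918 (kC 1 b41 (kC 1 b39 k0)))))); clear * - this; omega, by clear * - h934; omega⟩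
            exact T0_365 X hb ⟨by clear * - h933; omega, by clear * - b11 h907 h925; omega, by clear * - h931; omega, by have := kB 1 h933 (kA 2 h930 (kA 1 h927 (kA 2 h919 (kC 1 b41 (kC 1 b39 k0))))); clear * - this; omega, by have := kB 2 h931 (kA 4 h930 (kA 2 h928 (kA 1 h922 (kA 4 h919 (kA 2 h918 (kA 5 h907 (kB 3 h3 (kC 4 b7 k0)))))))); clear * - this; omega⟩
          exact T0_67 X hb ⟨by have := kA 1 h925 (kA 1 h920 (kA 1 h907 (kC 1 b7 (kC 2 b2 k0)))); clear * - this; omega, by have := kA 4 h929 (kA 2 h928 (kA 3 h927 (kA 1 h926 (kA 2 h919 (kC 2 b41 (kC 1 b33 (kC 2 b7 (kC 6 b2 k0)))))))); clear * - this; omega, by clear * - h3 h907 h929; omega, by clear * - h930; omega⟩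
        exact T0_31 X hb ⟨by have := kA 2 h928 (kA 2 h923 (kA 2 h919 (kA 2 h917 (kC 1 b32 (kC 1 b11 k0))))); clear * - this; omega, by clear * - h929; omega⟩
      rcases lt_or_ge (-2*N - a - b + l + 2*m - c - d - V + Y + 2) 0 with h935 | h935
      · rcases lt_or_ge (N + a - l - m - U - 3) 0 with h936 | h936
        · rcases lt_or_ge (-a) 0 with h937 | h937
          · rcases lt_or_ge (-4*N - Q + i + 3*l + 5*m - 2*c + 4*U - 2*V + 8) 0 with h938 | h938
            · rcases lt_or_ge (-a - b + l + c) 0 with h939 | h939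
              · exact T0_70 X hb ⟨by have := kA 3 h939 (kA 2 h938 (kA 5 h937 (kA 4 h936 (kA 1 h925 (kA 2 h920 (kC 1 b45 (kC 1 b39 k0))))))); clear * - this; omega, by clear * - h937 h939; omega, by have := kA 1 h939 (kA 1 h938 (kA 1 h937 (kA 2 h936 (kA 1 h920 (kB 1 h3 k0))))); clear * - this; omega⟩
              exact T0_13 X hb ⟨by clear * - h939; omega, by have := kA 6 h937 (kA 6 h936 (kA 1 h927 (kA 1 h924 (kC 2 b41 (kC 1 b33 k0))))); clear * - this; omega⟩
            rcases lt_or_ge (-2*N + Q - i + 2*a + 2*b + 2*m - 2*c + 2*U - 2*V + 1) 0 with h940 | h940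
            · rcases lt_or_ge (-N - i - l + m - 2*c - 2*d - V - 1) 0 with h941 | h941
              · exact T0_13 X hb ⟨by have := kA 2 h941 (kA 1 h940 (kB 1 h938 (kA 10 h937 (kA 10 h936 (kA 1 h926 (kA 6 h907 (kC 1 b45 (kC 2 b9 (kC 2 b7 k0))))))))); clear * - this; omega, by have := kA 6 h937 (kA 6 h936 (kA 1 h927 (kA 1 h924 (kC 2 b41 (kC 1 b33 k0))))); clear * - this; omega⟩
              exact T0_138 X hb ⟨by have := kA 1 h940 (kB 1 h938 (kA 2 h937 (kA 2 h936 (kA 1 h935 (kB 1 h928 (kA 1 h926 (kC 1 b41 (kC 1 b7 k0)))))))); clear * - this; omega, by have := kA 1 h940 (kA 2 h937 (kA 2 h936 (kA 1 h927 (kA 1 h926 (kA 2 h920 (kC 1 b41 (kC 1 b7 k0))))))); clear * - this; omega, by have := kB 3 h941 (kA 2 h937 (kA 1 h936 (kA 1 h925 (kA 1 h924 (kA 2 h921 (kA 1 h919 (kA 1 h917 (kA 1 h916 (kC 1 b41 k0))))))))); clear * - this; omega, by clear * - h941; omega⟩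
            exact T0_365 X hb ⟨by clear * - h940; omega, by clear * - b11 h907 h925; omega, by clear * - h938; omega, by have := kB 1 h940 (kA 2 h937 (kA 1 h927 (kA 2 h919 (kC 1 b41 (kC 1 b39 k0))))); clear * - this; omega, by have := kA 2 h937 (kA 1 h924 (kA 2 h920 (kA 2 h919 (kA 1 h914 (kB 1 h908 (kC 1 b41 (kC 1 b7 k0))))))); clear * - this; omega⟩
          exact T0_67 X hb ⟨by have := kA 1 h925 (kA 1 h920 (kA 1 h907 (kC 1 b7 (kC 2 b2 k0)))); clear * - this; omega, by have := kA 4 h936 (kA 2 h935 (kA 1 h920 (kA 1 h907 (kC 1 b41 (kC 1 b39 (kC 1 b7 (kC 4 b2 k0))))))); clear * - this; omega, by clear * - h3 h907 h936; omega, by clear * - h937; omega⟩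
        exact T0_31 X hb ⟨by have := kA 1 h924 (kA 2 h920 (kA 4 h919 (kA 2 h917 (kC 1 b41 (kC 1 b33 (kC 1 b21 (kC 1 b7 (kC 2 b2 k0)))))))); clear * - this; omega, by clear * - h936; omega⟩
      rcases lt_or_ge (-2*N + a + b + 2*m - c - d - V + Y + 1) 0 with h942 | h942
      · exact T0_31 X hb ⟨by have := kA 1 h924 (kA 2 h920 (kA 4 h919 (kA 2 h917 (kC 1 b41 (kC 1 b33 (kC 1 b21 (kC 1 b7 (kC 2 b2 k0)))))))); clear * - this; omega, by have := kA 2 h942 (kA 1 h924 (kA 1 h920 (kA 1 h907 (kC 2 b41 (kC 1 b33 (kC 1 b7 (kC 6 b2 k0))))))); clear * - this; omega⟩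
      rcases lt_or_ge (-2*N - a + b + 2*m - c - d - V + Y + 1) 0 with h943 | h943
      · exact T0_31 X hb ⟨by have := kA 1 h943 (kB 1 h942 (kA 1 h924 (kA 2 h920 (kA 4 h919 (kA 2 h917 (kC 1 b41 (kC 1 b33 (kC 1 b21 (kC 1 b7 k0))))))))); clear * - this; omega, by have := kA 3 h943 (kB 1 h942 (kA 1 h924 (kA 1 h920 (kA 1 h907 (kC 2 b41 (kC 1 b33 (kC 1 b7 k0))))))); clear * - this; omega⟩
      exact T0_55 X hb ⟨by have := kB 1 h928 (kA 1 h926 (kA 2 h920 (kA 4 h918 (kA 2 h916 (kC 2 b41 (kC 1 b39 (kC 6 b17 k0))))))); clear * - this; omega, by have := kB 1 h942 (kA 2 h918 (kA 2 h916 (kC 1 b41 (kC 1 b39 (kC 4 b17 k0))))); clear * - this; omega, by clear * - h935; omega, by have := kB 1 h942 (kA 1 h927 (kA 1 h926 (kA 2 h920 (kA 2 h907 (kC 2 b41 (kC 1 b33 (kC 8 b17 (kC 2 b7 k0)))))))); clear * - this; omega, by clear * - h928; omega, by clear * - h943; omega⟩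
    rcases lt_or_ge (-Q + i + l - m - 2*Y + 1) 0 with h944 | h944
    · rcases lt_or_ge (-3*N - i + a + b - l + m - 3*c - 2*d + L - U - V + 1) 0 with h945 | h945
      · rcases lt_or_ge (-4*N - Q + i + 3*l + 5*m - 2*c + 4*U - 2*V + 8) 0 with h946 | h946
        · rcases lt_or_ge (-a - b + l + c) 0 with h947 | h947
          · rcases lt_or_ge (N + a - l - m - U - 3) 0 with h948 | h948
            · rcases lt_or_ge (-a) 0 with h949 | h949
              · exact T0_70 X hb ⟨by have := kA 3 h949 (kA 1 h947 (kA 2 h946 (kA 2 h944 (kA 3 h925 (kA 1 h924 (kA 2 h923 (kA 4 h920 (kC 1 b45 k0)))))))); clear * - this; omega, by clear * - h947 h949; omega, by have := kA 1 h949 (kA 2 h948 (kA 1 h947 (kA 1 h946 (kA 1 h920 (kB 1 h3 k0))))); clear * - this; omega⟩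
              exact T0_67 X hb ⟨by have := kA 1 h946 (kA 1 h925 (kA 2 h920 (kC 1 b7 (kC 2 b2 k0)))); clear * - this; omega, by have := kA 2 h948 (kA 2 h947 (kA 1 h946 (kA 1 h920 (kB 1 h3 (kC 2 b2 k0))))); clear * - this; omega, by have := kA 2 h948 (kA 1 h946 (kA 1 h920 (kB 1 h3 k0))); clear * - this; omega, by clear * - h949; omega⟩
            exact T0_31 X hb ⟨by have := kB 2 h948 (kA 2 h947 (kA 3 h944 (kA 2 h926 (kA 1 h925 (kA 1 h922 (kA 4 h920 (kA 6 h919 (kA 6 h918 (kA 2 h917 (kC 3 b21 k0)))))))))); clear * - this; omega, by clear * - h948; omega⟩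
          exact T0_13 X hb ⟨by clear * - h947; omega, by have := kA 1 h946 (kA 1 h945 (kA 1 h944 (kA 1 h924 (kA 2 h920 (kA 1 h919 (kC 1 b11 (kC 1 b2 k0))))))); clear * - this; omega⟩
        rcases lt_or_ge (-2*N + Q - i + 2*a + 2*b + 2*m - 2*c + 2*U - 2*V + 1) 0 with h950 | h950
        · rcases lt_or_ge (2*N - a - b - m + 2*c + d + V - 2) 0 with h951 | h951
          · rcases lt_or_ge (N + a - l - m - U - 3) 0 with h952 | h952
            · exact T0_13 X hb ⟨by have := kA 2 h952 (kA 1 h950 (kA 1 h944 (kA 1 h924 (kC 1 b45 (kC 2 b2 k0))))); clear * - this; omega, by have := kB 1 h946 (kA 1 h945 (kA 1 h944 (kA 1 h924 (kA 1 h919 (kA 2 h907 (kC 1 b11 (kC 1 b2 k0))))))); clear * - this; omega⟩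
            exact T0_31 X hb ⟨by have := kA 1 h950 (kB 2 h946 (kA 3 h944 (kA 2 h926 (kA 1 h922 (kA 2 h919 (kA 8 h918 (kC 1 b41 (kC 1 b21 k0)))))))); clear * - this; omega, by clear * - h952; omega⟩
          exact T0_98 X hb ⟨by have := kB 1 h946 (kA 1 h924 (kA 2 h919 (kA 2 h907 (kC 1 b41 (kC 2 b7 (kC 2 b2 k0)))))); clear * - this; omega, by clear * - h951; omega, by clear * - b11 h907 h946; omega⟩
        exact T0_365 X hb ⟨by clear * - h950; omega, by clear * - b11 h907 h925; omega, by clear * - h946; omega, by have := kB 1 h950 (kA 1 h907 (kB 1 h3 (kC 2 b17 k0))); clear * - this; omega, by have := kB 1 h946 (kB 1 h927 (kA 2 h923 (kA 2 h914 k0))); clear * - this; omega⟩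
      rcases lt_or_ge (N + a + b - l - m + c - U + V - 3) 0 with h953 | h953
      · rcases lt_or_ge (N + Q - i + a + b - 2*l - 2*m - c - 2*U + V - 5) 0 with h954 | h954
        · rcases lt_or_ge (-2*N - 2*a - 2*b + l + 3*m + L + 2*U + 2*Y + 5) 0 with h955 | h955
          · rcases lt_or_ge (-4*N - Q + l + 2*m - 2*c - 2*d + L - 2*V + 4) 0 with h956 | h956
            · exact T0_13 X hb ⟨by have := kA 1 h955 (kA 2 h954 (kA 4 h953 (kA 2 h944 (kA 1 h924 (kA 2 h907 (kB 2 h3 (kC 6 b17 k0))))))); clear * - this; omega, by have := kA 1 h955 (kA 2 h954 (kA 2 h944 (kA 1 h924 (kC 2 b17 k0)))); clear * - this; omega⟩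
            rcases lt_or_ge (-2*N - Q - l - 2*c - 2*d + L - 2*U + 1) 0 with h957 | h957
            · exact T0_13 X hb ⟨by have := kA 1 h957 (kB 1 h956 (kA 2 h953 (kA 2 h907 (kB 2 h3 (kC 4 b17 k0))))); clear * - this; omega, by have := kA 1 h955 (kA 2 h954 (kA 2 h944 (kA 1 h924 (kC 2 b17 k0)))); clear * - this; omega⟩
            exact T0_56 X hb ⟨by clear * - h957; omega, by have := kA 1 h955 (kA 2 h954 (kA 2 h953 (kA 2 h944 (kA 1 h924 (kC 2 b17 k0))))); clear * - this; omega⟩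
          exact T0_267 X hb ⟨by have := kA 1 h944 (kA 1 h922 (kA 2 h918 (kC 1 b21 k0))); clear * - this; omega, by clear * - h914 h927; omega, by have := kB 1 h955 (kA 4 h954 (kA 10 h953 (kA 4 h944 (kA 11 h926 (kA 6 h923 (kA 14 h919 (kA 28 h918 (kC 12 b41 (kC 14 b2 k0))))))))); clear * - this; omega, by clear * - h955; omega⟩
        exact T0_30 X hb ⟨by have := kA 4 h953 (kA 1 h944 (kA 1 h920 (kB 1 h3 (kC 2 b43 (kC 1 b41 (kC 1 b33 (kC 2 b17 k0))))))); clear * - this; omega, by clear * - h954; omega, by have := kA 1 h907 (kB 1 h3 (kC 1 b45 (kC 1 b33 k0))); clear * - this; omega⟩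
      rcases lt_or_ge (N - a - b - m + c - U + V - 2) 0 with h958 | h958
      · exact T0_31 X hb ⟨by have := kA 1 h958 (kB 1 h953 (kB 2 h945 (kA 1 h944 (kA 1 h925 (kA 1 h922 (kA 1 h920 (kA 2 h919 (kA 4 h918 (kB 1 h3 (kC 1 b41 k0)))))))))); clear * - this; omega, by have := kA 2 h958 (kA 1 h925 (kA 2 h907 (kC 1 b11 (kC 2 b2 k0)))); clear * - this; omega⟩
      exact T0_178 X hb ⟨by clear * - h958; omega, by clear * - h945; omega, by clear * - h953; omega⟩
    exact T0_85 X hb ⟨by clear * - h944; omega, by have := kB 2 h927 (kA 3 h918 (kA 1 h917 (kB 2 h3 k0))); clear * - this; omega, by clear * - h927; omega, by clear * - h918; omega⟩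
  rcases lt_or_ge (-Q + i - 2*a - 2*b + 2*l + 2*m - L + 2*U + 3) 0 with h959 | h959
  · rcases lt_or_ge (-3*N - i + a + b - l + m - 3*c - 2*d + L - U - V + 1) 0 with h960 | h960
    · rcases lt_or_ge (-4*N - Q + i + 3*l + 5*m - 2*c + 4*U - 2*V + 8) 0 with h961 | h961
      · rcases lt_or_ge (-a) 0 with h962 | h962
        · rcases lt_or_ge (-a - b + l + c) 0 with h963 | h963
          · rcases lt_or_ge (N + a - l - m - U - 3) 0 with h964 | h964
            · exact T0_70 X hb ⟨by have := kA 1 h963 (kA 1 h962 (kA 1 h961 (kA 1 h959 (kA 1 h925 (kA 2 h2 (kC 1 b45 k0)))))); clear * - this; omega, by clear * - h962 h963; omega, by have := kA 2 h964 (kA 1 h963 (kA 1 h962 (kA 1 h961 (kA 1 h920 (kB 1 h3 k0))))); clear * - this; omega⟩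
            exact T0_31 X hb ⟨by have := kB 2 h964 (kA 2 h963 (kA 3 h959 (kB 1 h926 (kA 1 h925 (kA 1 h922 (kA 4 h920 (kA 6 h919 (kA 2 h917 (kC 3 b21 k0))))))))); clear * - this; omega, by clear * - h964; omega⟩
          exact T0_13 X hb ⟨by clear * - h963; omega, by have := kA 1 h962 (kA 1 h961 (kA 1 h960 (kA 1 h959 (kA 2 h920 (kA 1 h919 (kC 1 b11 k0)))))); clear * - this; omega⟩
        rcases lt_or_ge (2*a + 2*b - l - 2) 0 with h965 | h965
        · exact T0_13 X hb ⟨by have := kA 1 h965 (kA 1 h961 (kA 1 h960 (kA 1 h959 (kA 2 h920 (kA 1 h919 (kC 1 b11 (kC 1 b2 k0))))))); clear * - this; omega, by have := kA 1 h961 (kA 1 h960 (kA 1 h959 (kA 2 h920 (kA 1 h919 (kC 1 b11 (kC 1 b2 k0)))))); clear * - this; omega⟩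
        rcases lt_or_ge (-2*a + l + 2*c) 0 with h966 | h966
        · exact T0_31 X hb ⟨by have := kA 2 h966 (kB 2 h965 (kB 2 h962 (kA 4 h959 (kB 1 h926 (kA 2 h925 (kA 1 h922 (kA 6 h920 (kA 8 h919 (kA 4 h917 (kC 5 b21 k0)))))))))); clear * - this; omega, by have := kA 1 h966 (kA 1 h961 (kA 1 h920 (kB 1 h3 k0))); clear * - this; omega⟩
        exact T0_67 X hb ⟨by have := kA 1 h961 (kA 1 h925 (kA 2 h920 (kC 1 b7 (kC 2 b2 k0)))); clear * - this; omega, by clear * - h965; omega, by clear * - h966; omega, by clear * - h962; omega⟩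
      rcases lt_or_ge (-2*N + Q - i + 2*a + 2*b + 2*m - 2*c + 2*U - 2*V + 1) 0 with h967 | h967
      · rcases lt_or_ge (N + a - l - m - U - 3) 0 with h968 | h968
        · exact T0_13 X hb ⟨by have := kA 2 h968 (kA 1 h967 (kA 1 h959 (kC 1 b45 (kC 2 b2 k0)))); clear * - this; omega, by have := kB 1 h961 (kA 1 h960 (kA 1 h959 (kA 1 h919 (kA 2 h907 (kC 1 b11 (kC 1 b2 k0)))))); clear * - this; omega⟩
        exact T0_31 X hb ⟨by have := kA 1 h967 (kB 2 h961 (kA 3 h959 (kB 2 h926 (kA 1 h924 (kA 1 h922 (kA 2 h919 (kC 1 b41 (kC 1 b21 k0)))))))); clear * - this; omega, by clear * - h968; omega⟩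
      exact T0_365 X hb ⟨by clear * - h967; omega, by clear * - b11 h907 h925; omega, by clear * - h961; omega, by have := kB 1 h967 (kA 1 h907 (kB 1 h3 (kC 2 b17 k0))); clear * - this; omega, by have := kB 1 h967 (kB 4 h961 (kA 1 h922 (kA 8 h907 (kB 2 h3 (kC 8 b17 (kC 3 b7 k0)))))); clear * - this; omega⟩
    rcases lt_or_ge (N + a + b - l - m + c - U + V - 3) 0 with h969 | h969
    · rcases lt_or_ge (2*N + Q - i - a - b - 2*m + c + d + V - Y - 3) 0 with h970 | h970
      · rcases lt_or_ge (-Q + i + l - m - 2*Y + 1) 0 with h971 | h971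
        · rcases lt_or_ge (-2*N + i + 2*a + 2*b + 2*m + 2*Y + 2) 0 with h972 | h972
          · rcases lt_or_ge (-2*N - 2*a - 2*b + l + 3*m + L + 2*U + 2*Y + 5) 0 with h973 | h973
            · rcases lt_or_ge (N + Q - i + a + b - 2*l - 2*m - c - 2*U + V - 5) 0 with h974 | h974
              · exact T0_56 X hb ⟨by have := kA 6 h974 (kA 5 h973 (kA 6 h972 (kA 6 h971 (kA 10 h970 (kA 8 h969 (kA 8 h959 (kB 1 h926 (kA 4 h925 (kC 16 b17 k0))))))))); clear * - this; omega, by have := kA 2 h974 (kA 1 h973 (kA 1 h971 (kA 2 h969 (kA 1 h959 (kC 2 b17 k0))))); clear * - this; omega⟩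
              exact T0_30 X hb ⟨by have := kA 1 h973 (kA 2 h972 (kA 6 h971 (kA 6 h970 (kA 7 h969 (kB 1 h960 (kA 3 h925 (kB 2 h3 (kC 6 b43 k0)))))))); clear * - this; omega, by clear * - h974; omega, by have := kA 1 h973 (kA 2 h972 (kA 2 h971 (kA 2 h970 (kA 2 h959 (kB 1 h926 (kA 2 h925 (kA 2 h920 (kB 2 h3 k0)))))))); clear * - this; omega⟩
            exact T0_267 X hb ⟨by have := kA 1 h959 (kB 1 h926 (kA 1 h922 (kC 1 b21 k0))); clear * - this; omega, by have := kA 2 h972 (kA 3 h971 (kA 2 h970 (kB 2 h960 (kB 1 h926 (kA 2 h923 (kA 1 h922 (kA 4 h921 (kA 2 h917 (kC 1 b41 k0))))))))); clear * - this; omega, by have := kB 1 h973 (kA 2 h972 (kA 8 h971 (kA 10 h969 (kB 5 h926 (kA 2 h925 (kA 22 h924 (kA 6 h923 (kA 8 h920 (kA 22 h919 (kC 18 b41 (kC 22 b2 k0))))))))))); clear * - this; omega, by clear * - h973; omega⟩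
          exact T0_32 X hb ⟨by have := kB 2 h972 (kA 3 h971 (kA 2 h969 (kB 6 h960 (kB 7 h926 (kA 1 h925 (kA 6 h924 (kA 2 h923 (kA 3 h922 (kA 6 h919 (kB 8 h3 (kC 5 b41 k0))))))))))); clear * - this; omega, by have := kB 1 h972 (kA 2 h969 (kA 1 h907 (kB 1 h3 (kC 2 b17 k0)))); clear * - this; omega, by have := kA 2 h969 (kB 1 h926 (kA 1 h925 (kA 2 h924 (kC 1 b43 (kC 1 b41 (kC 1 b9 (kC 4 b2 k0))))))); clear * - this; omega, by clear * - h972; omega⟩
        exact T0_85 X hb ⟨by clear * - h971; omega, by have := kB 2 h960 (kA 1 h959 (kB 2 h926 (kA 1 h922 (kA 2 h921 (kB 2 h3 (kC 1 b41 k0)))))); clear * - this; omega, by have := kA 2 h969 (kA 1 h959 (kA 1 h920 (kB 1 h3 (kC 1 b41 (kC 4 b17 k0))))); clear * - this; omega, by clear * - h926 h959 h971; omega⟩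
      rcases lt_or_ge (-2*N - a + b + 2*m - c - d - V + Y + 1) 0 with h975 | h975
      · exact T0_31 X hb ⟨by have := kB 2 h960 (kA 1 h959 (kA 1 h925 (kA 2 h919 (kA 2 h917 (kA 2 h2 (kC 2 b43 (kC 2 b41 k0))))))); clear * - this; omega, by have := kA 7 h975 (kB 1 h970 (kA 1 h969 (kB 1 h960 (kA 3 h959 (kB 1 h926 (kA 1 h925 (kA 2 h924 (kA 2 h923 (kA 4 h920 (kC 7 b41 (kC 2 b33 k0))))))))))); clear * - this; omega⟩
      exact T0_55 X hb ⟨by have := kB 5 h970 (kB 6 h960 (kA 3 h959 (kB 10 h926 (kA 6 h925 (kA 16 h924 (kA 1 h922 (kA 14 h920 (kA 12 h916 (kB 6 h3 (kC 15 b41 (kC 36 b17 k0))))))))))); clear * - this; omega, by have := kB 5 h970 (kB 6 h960 (kA 10 h959 (kB 10 h926 (kA 6 h925 (kA 9 h924 (kA 1 h922 (kA 14 h920 (kA 12 h916 (kB 6 h3 (kC 15 b41 (kC 36 b17 k0))))))))))); clear * - this; omega, by have := kB 1 h970 (kA 2 h969 (kA 1 h959 (kA 2 h920 (kA 1 h907 (kB 1 h3 (kC 1 b41 (kC 4 b17 k0))))))); clear * - this; omega, by have := kB 3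 h970 (kA 2 h969 (kA 3 h959 (kB 1 h926 (kA 3 h924 (kA 6 h920 (kC 7 b41 (kC 2 b33 (kC 16 b17 k0)))))))); clear * - this; omega, by clear * - h970; omega, by clear * - h975; omega⟩
    rcases lt_or_ge (N - a - b - m + c - U + V - 2) 0 with h976 | h976
    · exact T0_31 X hb ⟨by have := kA 4 h976 (kB 3 h969 (kB 3 h960 (kB 1 h926 (kA 2 h925 (kA 1 h922 (kA 2 h919 (kA 2 h907 (kC 1 b45 k0)))))))); clear * - this; omega, by have := kA 2 h976 (kA 1 h925 (kA 2 h907 (kC 1 b11 (kC 2 b2 k0)))); clear * - this; omega⟩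
    exact T0_178 X hb ⟨by clear * - h976; omega, by clear * - h960; omega, by clear * - h969; omega⟩
  rcases lt_or_ge (-2*d - L - 2) 0 with h977 | h977
  · exact T0_31 X hb ⟨by have := kA 1 h924 (kA 2 h920 (kA 4 h919 (kA 2 h917 (kC 1 b41 (kC 1 b33 (kC 1 b21 (kC 1 b7 (kC 2 b2 k0)))))))); clear * - this; omega, by have := kA 1 h977 (kB 1 h926 (kA 1 h924 (kC 1 b41 (kC 2 b2 k0)))); clear * - this; omega⟩
  rcases lt_or_ge (-Q + i + l + m - L + 1) 0 with h978 | h978
  · exact T0_31 X hb ⟨by have := kA 2 h978 (kB 1 h977 (kA 1 h924 (kA 1 h922 (kA 2 h919 (kA 2 h2 (kC 1 b41 (kC 1 b21 k0))))))); clear * - this; omega, by have := kA 1 h978 (kB 1 h959 (kA 1 h924 (kC 1 b41 (kC 2 b2 k0)))); clear * - this; omega⟩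
  exact T0_26 X hb ⟨by have := kB 1 h959 (kA 1 h924 (kA 3 h922 (kA 3 h907 (kB 1 h3 (kC 1 b40 k0))))); clear * - this; omega, by have := kA 1 h922 (kA 2 h920 (kA 3 h907 (kB 1 h3 (kC 4 b17 (kC 2 b7 k0))))); clear * - this; omega, by have := kB 1 h977 (kA 3 h924 (kA 4 h919 (kA 4 h916 (kA 1 h907 (kB 1 h3 (kC 2 b41 (kC 1 b40 (kC 4 b2 k0)))))))); clear * - this; omega, by have := kA 2 h924 (kA 2 h920 (kA 4 h919 (kA 1 h917 (kB 3 h908 (kA 3 h907 (kC 2 b41 (kC 2 b7 (kC 4 b2 k0)))))))); clear * - this; omega, by have := kA 1 h924 (kA 2 h919 (kC 1 b41 (kC 1 b18 (kC 1 b11 (kC 2 b2 k0))))); clear * - this; omega, by clear * - h977; omega, by have := kB 1 h977 (kA 1 h920 (kA 1 h907 (kC 2 b17 (kC 1 b7 k0)))); clear * - this; omega, by clear * - h926; omega, by clear * - h978; omega, by have := kB 1 h978 (kA 1 h920 (kA 1 h907 (kC 2 b17 (kC 1 b7 k0)))); clear * - this; omega, by clear * - h959; omega⟩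

theorem M18 (X : C W N Q i a b l m c d L U V Y) (hb : B N Q i a b l m c d L U V Y)
    (h2 : (3*N + Q - i - 2*l - 3*m + c + d - 2*U + V - 6) < 0)
    (h3 : (N + c + d - 1) ≥ 0)
    (h907 : (-N + l + 2*m - c + d + 2*U + 2) < 0)
    (h908 : (l + m + d + 2*U + 1) ≥ 0)
    (h914 : (-2*N + 2*m - 2*c - d + 1) < 0)
    (h916 : (-N - l - c - 2*d - 2*U + V - 1) < 0)
    (h917 : (-3*N + 3*m - 3*c - 2*d + 2) < 0)
    (h918 : (m + d + Y + 1) < 0)
    (h919 : (N + a - l - m - U - V - 3) < 0)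
    (h920 : (3*N + Q - i - 2*l - 3*m + c + d - 2*U + 2*V - 6) < 0)
    (h921 : (-i - l - c - d - V - 2) < 0) : False := by
  have b2 := hb.b2
  have b3 := hb.b3
  have b7 := hb.b7
  have b11 := hb.b11
  have b17 := hb.b17
  have b18 := hb.b18
  have b19 := hb.b19
  have b21 := hb.b21
  have b31 := hb.b31
  have b32 := hb.b32
  have b33 := hb.b33
  have b35 := hb.b35
  have b39 := hb.b39
  have b40 := hb.b40
  have b41 := hb.b41
  have b42 := hb.b42
  have b43 := hb.b43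
  have b45 := hb.b45
  rcases lt_or_ge (-4*N + Q - i - 2*l + 2*m - 4*c - 6*d - 2*U - 1) 0 with h922 | h922
  · rcases lt_or_ge (N - a - b + c + d + Y - 1) 0 with h923 | h923
    · rcases lt_or_ge (-2*a - 2*b + l + 3*m - L + 2*U + 2*Y + 2) 0 with h924 | h924
      · rcases lt_or_ge (-2*N - i + 2*a + 2*b - l + m - 2*c - 2*d - 2*V - 1) 0 with h925 | h925
        · exact M17 X hb h2 h3 h907 h908 h914 h916 h917 h918 h919 h920 h921 h922 h923 h924 h925
        rcases lt_or_ge (-a + V) 0 with h979 | h979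
        · rcases lt_or_ge (-a - b + l + c) 0 with h980 | h980
          · rcases lt_or_ge (b + c - 1) 0 with h981 | h981
            · exact T0_31 X hb ⟨by have := kA 4 h981 (kA 4 h980 (kA 2 h979 (kB 1 h925 (kA 1 h920 (kA 8 h919 (kA 2 h916 (kA 5 h907 (kB 4 h3 (kC 1 b39 k0))))))))); clear * - this; omega, by have := kA 1 h981 (kA 1 h980 (kA 1 h979 (kA 1 h919 (kA 1 h907 (kB 1 h3 k0))))); clear * - this; omega⟩
            rcases lt_or_ge (i - b + l + c + 1) 0 with h982 | h982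
            · exact T0_179 X hb ⟨by clear * - b17 h979 h980; omega, by clear * - h981; omega⟩
            exact T0_70 X hb ⟨by clear * - h982; omega, by clear * - b17 h979 h980; omega, by clear * - h981; omega⟩
          rcases lt_or_ge (a + b + c - 1) 0 with h983 | h983
          · exact T0_11 X hb ⟨by have := kA 4 h979 (kA 4 h919 (kA 2 h918 (kC 1 b45 (kC 1 b41 (kC 2 b39 k0))))); clear * - this; omega, by have := kA 6 h983 (kA 16 h979 (kA 2 h924 (kA 4 h923 (kA 2 h921 (kA 16 h919 (kA 4 h917 (kC 1 b43 (kC 5 b41 (kC 3 b33 (kC 2 b21 k0)))))))))); clear * - this; omega, by clear * - b17 h3 h983; omega, by have := kA 1 h983 (kA 2 h979 (kA 2 h919 (kA 2 h918 (kB 1 h3 (kC 1 b41 (kC 1 b39 (kC 1 b17 k0))))))); clear * - this; omega, by have := kA 1 h983 (kB 1 h925 (kB 1 h3 (kC 1 b17 k0))); clear * - this; omega⟩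
          exact T0_13 X hb ⟨by clear * - h980; omega, by clear * - h983; omega⟩
        rcases lt_or_ge (a - V) 0 with h984 | h984
        · rcases lt_or_ge (-2*N - i - l - 2*c - 2*d + L - 2*U - V) 0 with h985 | h985
          · rcases lt_or_ge (2*a + b - l - c - 2) 0 with h986 | h986
            · rcases lt_or_ge (a + b - l - c - 1) 0 with h987 | h987
              · exact T0_13 X hb ⟨by clear * - h987; omega, by have := kA 1 h987 (kA 1 h985 (kB 1 h925 (kC 1 b39 (kC 1 b17 k0)))); clear * - this; omega⟩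
              exact T0_257 X hb ⟨by have := kB 1 h987 (kA 1 h986 (kA 1 h985 (kA 1 h984 (kB 1 h925 (kC 1 b39 k0))))); clear * - this; omega, by clear * - b2 h986; omega, by clear * - h987; omega⟩
            rcases lt_or_ge (i - b + l + c + 1) 0 with h988 | h988
            · exact T0_179 X hb ⟨by clear * - h986; omega, by have := kA 4 h988 (kB 1 h986 (kA 2 h985 (kB 2 h925 (kA 4 h921 (kA 2 h920 (kA 2 h919 (kA 5 h907 (kB 3 h3 (kC 2 b32 k0))))))))); clear * - this; omega⟩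
            rcases lt_or_ge (b + c - 1) 0 with h989 | h989
            · exact T0_31 X hb ⟨by have := kA 3 h989 (kB 2 h988 (kB 1 h986 (kA 6 h984 (kB 3 h925 (kA 1 h920 (kA 2 h919 (kA 2 h917 (kB 3 h3 (kC 1 b39 k0))))))))); clear * - this; omega, by have := kA 1 h989 (kB 1 h986 (kA 1 h907 (kB 1 h3 k0))); clear * - this; omega⟩
            exact T0_70 X hb ⟨by clear * - h988; omega, by clear * - h986; omega, by clear * - h989; omega⟩
          rcases lt_or_ge (i + 2*a - V) 0 with h990 | h990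
          · exact T0_34 X hb ⟨by have := kB 3 h985 (kB 1 h925 (kA 2 h924 (kA 2 h923 (kA 4 h920 (kA 2 h918 (kA 3 h917 (kA 5 h916 (kC 4 b41 (kC 3 b33 (kC 18 b17 k0)))))))))); clear * - this; omega, by clear * - b18 h919 h990; omega⟩
          rcases lt_or_ge (-2*a + V - 1) 0 with h991 | h991
          · rcases lt_or_ge (N - a - b - m + c - U + V - 2) 0 with h992 | h992
            · rcases lt_or_ge (2*a + b - l - c - 2) 0 with h993 | h993
              · exact T0_34 X hb ⟨by have := kA 2 h992 (kA 5 h991 (kB 1 h990 (kB 2 h985 (kA 12 h984 (kA 1 h920 (kA 2 h917 (kB 1 h3 (kC 1 b43 (kC 1 b41 k0))))))))); clear * - this; omega, by have := kA 1 h993 (kA 1 h992 (kA 1 h991 (kA 2 h984 k0))); clear * - this; omega⟩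
              rcases lt_or_ge (i - b + l + c + 1) 0 with h994 | h994
              · exact T0_179 X hb ⟨by clear * - h993; omega, by have := kA 1 h992 (kA 1 h919 (kA 1 h907 (kB 1 h3 k0))); clear * - this; omega⟩
              exact T0_70 X hb ⟨by clear * - h994; omega, by clear * - h993; omega, by have := kA 1 h992 (kA 1 h919 (kA 1 h907 (kB 1 h3 k0))); clear * - this; omega⟩
            rcases lt_or_ge (-3*N - i + a + b - l + m - 3*c - 2*d + L - U - V + 1) 0 with h995 | h995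
            · rcases lt_or_ge (N + a - l - m - U - 3) 0 with h996 | h996
              · exact T0_13 X hb ⟨by have := kA 2 h996 (kA 1 h995 (kB 1 h992 (kA 1 h991 (kB 1 h985 k0)))); clear * - this; omega, by have := kA 1 h996 (kA 1 h995 (kA 2 h991 (kA 3 h984 (kB 1 h925 (kC 1 b39 k0))))); clear * - this; omega⟩
              exact T0_31 X hb ⟨by have := kA 3 h991 (kB 1 h990 (kB 1 h985 (kA 10 h984 (kB 1 h925 (kA 1 h920 (kA 1 h917 (kA 1 h916 (kB 1 h3 k0)))))))); clear * - this; omega, by clear * - h996; omega⟩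
            rcases lt_or_ge (N + a + b - l - m + c - U + V - 3) 0 with h997 | h997
            · rcases lt_or_ge (N - a - b + d + V - 1) 0 with h998 | h998
              · exact T0_34 X hb ⟨by have := kB 2 h995 (kA 3 h991 (kB 1 h990 (kA 8 h984 (kA 1 h920 (kA 2 h917 (kB 1 h3 (kC 1 b43 (kC 1 b41 k0)))))))); clear * - this; omega, by have := kA 1 h998 (kA 1 h997 (kA 1 h991 (kA 3 h984 (kB 1 h3 k0)))); clear * - this; omega⟩
              exact T0_11 X hb ⟨by have := kB 2 h998 (kA 3 h997 (kB 1 h992 (kB 2 h990 (kB 2 h925 (kA 4 h919 (kA 3 h907 (kB 3 h3 k0))))))); clear * - this; omega, by have := kB 3 h998 (kA 1 h997 (kB 3 h992 (kA 1 h991 (kB 2 h990 (kA 6 h984 (kB 4 h925 (kA 2 h921 (kA 1 h917 (kA 1 h916 k0))))))))); clear * - this; omega, by clear * - h998; omega, by have := kB 2 h998 (kA 1 h997 (kB 3 h992 (kB 2 h990 (kA 4 h984 (kB 2 h925 (kA 1 h907 (kB 1 h3 k0))))))); clear * - this; omega, by clear * - h925 h998; omega⟩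
            exact T0_178 X hb ⟨by clear * - h992; omega, by clear * - h995; omega, by clear * - h997; omega⟩
          exact T0_369 X hb ⟨by clear * - h990; omega, by clear * - h991; omega, by clear * - h985; omega, by have := kB 2 h990 (kB 1 h985 (kB 1 h925 (kA 1 h922 (kA 4 h919 (kA 2 h918 (kC 1 b41 (kC 1 b33 k0))))))); clear * - this; omega⟩
        exact T0_6 X hb ⟨by have := kB 2 h925 (kA 1 h922 (kA 2 h921 (kA 6 h920 (kA 2 h917 (kA 7 h907 (kB 5 h3 (kC 14 b17 (kC 7 b7 k0)))))))); clear * - this; omega, by clear * - h925; omega, by clear * - h984; omega, by clear * - h979; omega⟩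
      rcases lt_or_ge (-N + a + b - c - d - Y - 1) 0 with h999 | h999
      · exact T0_58 X hb ⟨by clear * - h907 h908; omega, by have := kB 1 h924 (kA 2 h923 (kA 2 h922 (kA 2 h907 (kC 1 b39 k0)))); clear * - this; omega, by have := kA 2 h919 (kA 2 h917 (kC 1 b41 (kC 1 b39 (kC 1 b18 (kC 1 b11 (kC 2 b2 k0)))))); clear * - this; omega, by have := kA 2 h923 (kA 1 h920 (kA 1 h907 (kC 2 b17 (kC 1 b7 k0)))); clear * - this; omega, by clear * - h923; omega, by clear * - h999; omega⟩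
      exact T0_21 X hb ⟨by have := kA 1 h917 (kA 1 h916 (kC 1 b21 (kC 1 b17 k0))); clear * - this; omega, by have := kB 2 h999 (kB 1 h924 (kA 2 h920 (kA 4 h919 (kA 4 h917 (kC 2 b41 (kC 3 b39 (kC 2 b7 (kC 4 b2 k0)))))))); clear * - this; omega, by clear * - h999; omega, by have := kA 1 h920 (kA 2 h919 (kA 1 h907 (kC 1 b41 (kC 1 b7 (kC 2 b2 k0))))); clear * - this; omega, by clear * - h924; omega⟩
    rcases lt_or_ge (2*a + 2*b - m - 2) 0 with h1000 | h1000
    · rcases lt_or_ge (-a - b + c - d - 1) 0 with h1001 | h1001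
      · rcases lt_or_ge (-a - b + c - d) 0 with h1002 | h1002
        · rcases lt_or_ge (i + a - b) 0 with h1003 | h1003
          · rcases lt_or_ge (2*N - i - l - L - 3) 0 with h1004 | h1004
            · rcases lt_or_ge (-N + a + b + m - c + Y) 0 with h1005 | h1005
              · rcases lt_or_ge (-2*N + 3*m - 2*c + 2*Y + 2) 0 with h1006 | h1006
                · exact T0_12 X hb ⟨by have := kA 1 h1006 (kA 1 h1004 (kA 1 h919 (kC 1 b41 (kC 1 b11 k0)))); clear * - this; omega, by have := kA 3 h1004 (kA 4 h1003 (kA 2 h1000 (kA 2 h920 (kA 1 h919 (kA 4 h907 (kC 2 b11 (kC 2 b7 (kC 6 b2 k0)))))))); clear * - this; omega⟩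
                exact T0_85 X hb ⟨by have := kA 2 h1005 (kA 2 h1002 (kA 1 h920 (kA 1 h907 (kC 2 b17 k0)))); clear * - this; omega, by have := kB 2 h1006 (kA 3 h918 (kA 1 h917 (kB 2 h3 k0))); clear * - this; omega, by clear * - h1006; omega, by clear * - h918; omega⟩
              exact T0_111 X hb ⟨by clear * - h1005; omega, by clear * - h1000 h1005; omega, by clear * - h3 h918 h1005; omega, by have := kB 1 h1005 (kA 1 h1000 (kB 2 h908 (kA 2 h907 k0))); clear * - this; omega⟩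
            rcases lt_or_ge (2*a + 2*b - 2*c - L - 2) 0 with h1007 | h1007
            · exact T0_12 X hb ⟨by have := kA 1 h1007 (kA 2 h1002 (kA 1 h919 (kA 2 h918 (kC 1 b41 k0)))); clear * - this; omega, by have := kA 2 h1007 (kB 1 h1004 (kA 4 h1002 (kA 2 h920 (kA 3 h919 (kA 4 h907 (kC 2 b7 (kC 2 b2 k0))))))); clear * - this; omega⟩
            rcases lt_or_ge (4*a + 4*b - m - 2*c - L - 3) 0 with h1008 | h1008
            · rcases lt_or_ge (Q - i - 2*a - 2*b + 2*c - 2*d - 1) 0 with h1009 | h1009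
              · rcases lt_or_ge (-2*N + 3*m - 2*c + 2*Y + 2) 0 with h1010 | h1010
                · exact T0_12 X hb ⟨by have := kA 1 h1010 (kA 1 h1009 (kA 1 h1008 (kB 1 h1007 (kA 3 h919 (kA 2 h907 (kC 1 b41 (kC 1 b33 (kC 1 b7 k0)))))))); clear * - this; omega, by have := kA 2 h1009 (kA 4 h1008 (kA 6 h1003 (kA 4 h1002 (kA 6 h920 (kA 7 h919 (kA 12 h907 (kC 1 b35 (kC 8 b7 (kC 14 b2 k0))))))))); clear * - this; omega⟩
                exact T0_85 X hb ⟨by have := kA 1 h1009 (kA 1 h1008 (kB 1 h1004 (kA 2 h1002 (kA 2 h919 (kA 2 h918 (kA 2 h907 (kC 1 b18 (kC 2 b2 k0)))))))); clear * - this; omega, by have := kB 2 h1010 (kA 3 h918 (kA 1 h917 (kB 2 h3 k0))); clear * - this; omega, by clear * - h1010; omega, by clear * - h918; omega⟩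
              exact T0_392 X hb ⟨by clear * - h1009; omega, by have := kA 2 h1008 (kB 1 h1007 (kB 1 h1004 (kA 1 h1002 (kB 3 h923 (kA 1 h921 (kA 2 h920 (kA 3 h918 (kA 1 h917 (kA 2 h907 (kC 3 b17 k0)))))))))); clear * - this; omega, by have := kA 1 h1008 (kB 1 h1007 (kA 1 h920 (kB 2 h908 (kA 3 h907 (kC 2 b17 k0))))); clear * - this; omega, by clear * - h1002; omega⟩
            rcases lt_or_ge (2*N - i + 2*a + 2*b - l - m - L - 4) 0 with h1011 | h1011
            · rcases lt_or_ge (-Q + i + l - m - 2*Y + 1) 0 with h1012 | h1012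
              · exact T0_90 X hb ⟨by have := kA 1 h1012 (kA 1 h1011 (kB 1 h1004 (kA 2 h918 k0))); clear * - this; omega, by clear * - h1002; omega, by have := kA 1 h1012 (kA 1 h1011 (kB 2 h1004 (kA 2 h921 (kA 2 h918 (kA 2 h917 (kA 2 h2 (kC 1 b39 (kC 1 b21 k0)))))))); clear * - this; omega⟩
              rcases lt_or_ge (-2*N + 3*m - 2*c + 2*Y + 2) 0 with h1013 | h1013
              · exact T0_131 X hb ⟨by have := kA 1 h1013 (kA 1 h1011 (kA 2 h1003 (kA 2 h2 (kC 2 b41 (kC 1 b35 (kC 2 b7 (kC 4 b2 k0))))))); clear * - this; omega, by have := kA 10 h1013 (kA 4 h1011 (kB 1 h1007 (kA 6 h1003 (kA 6 h1002 (kA 10 h919 (kC 7 b41 (kC 4 b33 (kC 2 b18 (kC 22 b2 k0))))))))); clear * - this; omega, by have := kA 1 h1011 (kA 1 h1003 (kA 1 h918 (kC 1 b41 (kC 1 b17 (kC 2 b2 k0))))); clear * - this; omega, by have := kB 1 h923 (kB 1 h908 (kA 1 h907 (kC 1 b17 k0))); clear * - this; omega⟩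
              exact T0_85 X hb ⟨by clear * - h1012; omega, by have := kB 2 h1013 (kA 3 h918 (kA 1 h917 (kB 2 h3 k0))); clear * - this; omega, by clear * - h1013; omega, by clear * - h918; omega⟩
            exact T0_81 X hb ⟨by have := kA 1 h1003 (kA 2 h1000 (kB 1 h923 (kA 1 h918 (kB 1 h908 (kA 1 h907 (kC 2 b2 k0)))))); clear * - this; omega, by have := kA 1 h1000 (kA 1 h920 (kA 2 h919 (kA 1 h907 (kC 1 b19 (kC 2 b2 k0))))); clear * - this; omega, by have := kA 1 h1000 (kB 2 h923 (kA 2 h918 (kC 1 b11 k0))); clear * - this; omega, by have := kA 1 h1000 (kA 1 h920 (kA 1 h907 (kC 2 b17 (kC 1 b7 k0)))); clear * - this; omega, by clear * - b11 h918 h923; omega, by have := kA 1 h920 (kA 1 h907 (kC 2 b17 (kC 1 b7 k0))); clear * - this; omega, by clear * - h918 h923 h1002; omega, by clear * - h1007; omega, by clear * - h1004; omega, by clear * - h1008; omega, by clear * - h1011; omega, by clear * - b42 h923 h1008; omega, by clear * - b42 h923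 h1011; omega⟩
          rcases lt_or_ge (-a + b - 1) 0 with h1014 | h1014
          · rcases lt_or_ge (-Q + i + l - m - 2*Y + 1) 0 with h1015 | h1015
            · exact T0_90 X hb ⟨by clear * - h918 h1000 h1015; omega, by clear * - h1002; omega, by have := kA 5 h1015 (kA 8 h1014 (kA 10 h1002 (kA 4 h1000 (kA 8 h920 (kA 16 h919 (kA 26 h918 (kA 6 h917 (kB 12 h3 (kC 8 b41 (kC 8 b39 k0)))))))))); clear * - this; omega⟩
            exact T0_85 X hb ⟨by clear * - h1015; omega, by have := kA 2 h1014 (kA 2 h919 (kA 2 h916 (kA 1 h907 (kB 1 h3 (kC 2 b41 (kC 1 b35 (kC 1 b31 k0))))))); clear * - this; omega, by have := kA 2 h1014 (kA 2 h1002 (kA 1 h920 (kA 2 h919 (kA 1 h907 (kC 1 b41 (kC 1 b33 (kC 1 b3 k0))))))); clear * - this; omega, by clear * - h918; omega⟩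
          exact T0_102 X hb ⟨by clear * - h1003; omega, by clear * - h1014; omega⟩
        exact T0_92 X hb ⟨by clear * - h1001; omega, by clear * - h1002; omega⟩
      rcases lt_or_ge (-2*N + 2*a + 2*b + l + 3*m - 4*c - L + 2*U + 2) 0 with h1016 | h1016
      · rcases lt_or_ge (i - b) 0 with h1017 | h1017
        · rcases lt_or_ge (-a - b + l + 2*c) 0 with h1018 | h1018
          · rcases lt_or_ge (-3*N - i - a + m - 2*c - 2*d + L - U - V + 2) 0 with h1019 | h1019
            · exact T0_77 X hb ⟨by have := kA 3 h1019 (kA 10 h1018 (kA 12 h1017 (kA 3 h1016 (kA 1 h1000 (kA 6 h921 (kA 5 h919 (kA 4 h907 (kC 4 b21 k0)))))))); clear * - this; omega, by have := kA 1 h1000 (kA 1 h920 (kA 1 h907 (kC 1 b7 (kC 2 b2 k0)))); clear * - this; omega, by have := kA 1 h1019 (kA 2 h1018 (kA 2 h1017 (kA 1 h1016 (kA 2 h921 (kA 1 h920 (kA 1 h919 (kA 1 h907 (kC 1 b7 (kC 2 b2 k0))))))))); clear * - this; omega⟩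
            exact T0_12 X hb ⟨by have := kA 2 h1018 (kA 1 h1016 (kA 2 h919 (kC 1 b42 (kC 1 b41 k0)))); clear * - this; omega, by clear * - h1019; omega⟩
          exact T0_106 X hb (by clear * - h1018; omega)
        exact T0_1 X hb (by clear * - h1017; omega)
      rcases lt_or_ge (-i - l + m - 2*c - 2*d - L - 2) 0 with h1020 | h1020
      · rcases lt_or_ge (i - b) 0 with h1021 | h1021
        · exact T0_12 X hb ⟨by have := kA 1 h1020 (kA 1 h919 (kA 2 h918 (kC 1 b41 (kC 1 b11 k0)))); clear * - this; omega, by have := kA 2 h1021 (kA 3 h1020 (kA 1 h1000 (kA 4 h920 (kA 5 h919 (kA 8 h907 (kC 4 b11 (kC 4 b7 (kC 4 b2 k0)))))))); clear * - this; omega⟩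
        exact T0_1 X hb (by clear * - h1021; omega)
      rcases lt_or_ge (-Q - 2*a - 2*b + 2*m - 2*d - L + 1) 0 with h1022 | h1022
      · exact T0_111 X hb ⟨by have := kA 1 h1022 (kA 1 h920 (kA 2 h919 (kA 1 h907 (kC 1 b41 (kC 1 b11 (kC 2 b2 k0)))))); clear * - this; omega, by have := kA 1 h1022 (kA 2 h1000 (kA 1 h920 (kA 2 h919 (kA 1 h907 (kC 1 b41 (kC 1 b11 (kC 2 b2 k0))))))); clear * - this; omega, by have := kA 1 h1022 (kB 1 h1020 (kA 1 h920 (kA 2 h918 (kA 1 h907 (kB 4 h3 (kC 2 b17 k0)))))); clear * - this; omega, by have := kA 1 h1000 (kB 2 h908 (kA 2 h907 (kC 1 b40 k0))); clear * - this; omega⟩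
      rcases lt_or_ge (-2*N - Q + i + 2*l + 4*m - 2*c - L + 2*U + 5) 0 with h1023 | h1023
      · exact T0_124 X hb ⟨by clear * - b42 h1016 h1023; omega, by have := kA 2 h1023 (kB 2 h1016 (kA 1 h920 (kA 1 h907 (kB 2 h3 (kC 2 b17 k0))))); clear * - this; omega, by have := kA 3 h1023 (kB 3 h1016 (kA 4 h1000 (kA 1 h922 (kA 3 h920 (kA 4 h907 (kB 1 h3 (kC 6 b17 k0))))))); clear * - this; omega, by have := kA 2 h1023 (kB 1 h1022 (kB 2 h1016 (kA 2 h1000 (kA 1 h922 (kA 1 h920 (kA 2 h918 (kA 1 h907 (kC 1 b39 (kC 2 b17 k0))))))))); clear * - this; omega, by have := kA 1 h1023 (kA 1 h1000 (kA 1 h920 (kA 2 h919 (kB 1 h3 (kC 1 b41 (kC 2 b2 k0)))))); clear * - this; omega⟩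
      exact T0_364 X hb ⟨by clear * - b39 h917 h1023; omega, by clear * - h1001; omega, by clear * - h1020; omega, by have := kB 3 h1016 (kB 2 h1001 (kA 2 h907 (kC 1 b39 k0))); clear * - this; omega, by clear * - h1016; omega, by clear * - h1022; omega, by have := kB 2 h1023 (kB 1 h1016 (kB 2 h1001 (kA 2 h907 (kC 1 b39 k0)))); clear * - this; omega, by clear * - h1023; omega⟩
    exact T0_332 X hb ⟨by clear * - h1000; omega, by clear * - h923; omega, by have := kA 1 h920 (kA 2 h919 (kA 1 h907 (kC 1 b41 (kC 1 b7 (kC 2 b2 k0))))); clear * - this; omega⟩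
  exact T0_346 X hb ⟨by clear * - h922; omega, by clear * - b11 h917 h921; omega, by clear * - h908 h914 h922; omega, by clear * - b11 h907 h920; omega, by have := kB 2 h922 (kA 1 h916 (kA 3 h914 (kA 5 h2 (kC 2 b42 (kC 2 b41 (kC 2 b39 k0)))))); clear * - this; omega⟩

theorem M19 (X : C W N Q i a b l m c d L U V Y) (hb : B N Q i a b l m c d L U V Y)
    (h2 : (3*N + Q - i - 2*l - 3*m + c + d - 2*U + V - 6) < 0)
    (h3 : (N + c + d - 1) ≥ 0)
    (h907 : (-N + l + 2*m - c + d + 2*U + 2) < 0)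
    (h908 : (l + m + d + 2*U + 1) ≥ 0)
    (h914 : (-2*N + 2*m - 2*c - d + 1) < 0)
    (h916 : (-N - l - c - 2*d - 2*U + V - 1) < 0)
    (h917 : (-3*N + 3*m - 3*c - 2*d + 2) < 0)
    (h918 : (m + d + Y + 1) < 0)
    (h919 : (N + a - l - m - U - V - 3) < 0) : False := by
  have b1 := hb.b1
  have b2 := hb.b2
  have b7 := hb.b7
  have b11 := hb.b11
  have b17 := hb.b17
  have b18 := hb.b18
  have b19 := hb.b19
  have b25 := hb.b25
  have b36 := hb.b36
  have b39 := hb.b39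
  have b40 := hb.b40
  have b41 := hb.b41
  have b42 := hb.b42
  have b45 := hb.b45
  rcases lt_or_ge (3*N + Q - i - 2*l - 3*m + c + d - 2*U + 2*V - 6) 0 with h920 | h920
  · rcases lt_or_ge (-i - l - c - d - V - 2) 0 with h921 | h921
    · exact M18 X hb h2 h3 h907 h908 h914 h916 h917 h918 h919 h920 h921
    rcases lt_or_ge (m - c + d + V) 0 with h1024 | h1024
    · rcases lt_or_ge (-4*N + Q - i - 2*l + 4*m - 4*c - 4*d - 2*U + 2*Y + 1) 0 with h1025 | h1025
      · rcases lt_or_ge (N - a - b + c + d + Y - 1) 0 with h1026 | h1026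
        · rcases lt_or_ge (-N + a + b - c - d - Y - 1) 0 with h1027 | h1027
          · rcases lt_or_ge (4*N - Q + i + l - 3*m + 4*c + 4*d - 2) 0 with h1028 | h1028
            · exact T0_31 X hb ⟨by have := kA 1 h1028 (kA 2 h1026 (kA 2 h919 (kA 4 h917 (kA 2 h2 (kC 1 b41 (kC 1 b39 (kC 1 b36 (kC 2 b11 k0)))))))); clear * - this; omega, by have := kA 1 h1028 (kA 1 h1025 (kC 1 b41 (kC 1 b39 (kC 2 b2 k0)))); clear * - this; omega⟩
            exact T0_58 X hb ⟨by clear * - h907 h908; omega, by clear * - h1028; omega, by have := kA 2 h919 (kA 2 h917 (kC 1 b41 (kC 1 b39 (kC 1 b18 (kC 1 b11 (kC 2 b2 k0)))))); clear * - this; omega, by have := kA 2 h1026 (kA 1 h920 (kA 1 h907 (kC 2 b17 (kC 1 b7 k0)))); clear * - this; omega, by clear * - h1026; omega, by clear * - h1027; omega⟩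
          rcases lt_or_ge (-2*a - 2*b + l + 3*m - L + 2*U + 2*Y + 2) 0 with h1029 | h1029
          · rcases lt_or_ge (-a + V) 0 with h1030 | h1030
            · rcases lt_or_ge (-2*N - i - 2*a - l - 2*c - 2*d + L - 2*U) 0 with h1031 | h1031
              · rcases lt_or_ge (2*a + b - l - c - 2) 0 with h1032 | h1032
                · exact T0_13 X hb ⟨by clear * - b17 h1030 h1032; omega, by have := kA 2 h1031 (kA 4 h1030 (kA 1 h1029 (kB 2 h1027 (kA 2 h1024 (kB 2 h921 (kA 8 h919 (kB 2 h3 (kC 2 b41 (kC 3 b39 k0))))))))); clear * - this; omega⟩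
                rcases lt_or_ge (i - b + l + c + 1) 0 with h1033 | h1033
                · exact T0_98 X hb ⟨by have := kA 2 h1030 (kA 1 h1029 (kA 1 h920 (kA 2 h919 (kA 1 h907 (kC 1 b41 (kC 2 b17 (kC 2 b7 k0))))))); clear * - this; omega, by have := kA 1 h1033 (kA 1 h1031 (kA 1 h1030 (kA 1 h1024 (kA 2 h919 (kC 2 b39 (kC 1 b25 (kC 1 b17 k0))))))); clear * - this; omega, by have := kB 2 h921 (kA 2 h2 (kC 1 b42 (kC 1 b41 (kC 1 b39 k0)))); clear * - this; omega⟩
                exact T0_70 X hb ⟨by clear * - h1033; omega, by clear * - h1032; omega, by have := kB 1 h1032 (kA 1 h1031 (kA 1 h1029 (kA 1 h1024 (kB 1 h921 (kA 4 h919 (kC 1 b45 (kC 1 b41 (kC 2 b39 k0)))))))); clear * - this; omega⟩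
              rcases lt_or_ge (2*N + Q - i - 2*a - 2*l - 2*m - 2*U + 2*V - 5) 0 with h1034 | h1034
              · exact T0_197 X hb ⟨by have := kA 2 h1034 (kA 1 h1029 (kB 2 h921 (kA 4 h919 (kA 2 h907 (kC 1 b41 (kC 3 b39 (kC 1 b25 (kC 2 b7 k0)))))))); clear * - this; omega, by have := kA 2 h1034 (kA 1 h1029 (kA 2 h1024 (kA 4 h919 (kB 2 h3 (kC 1 b45 (kC 1 b41 (kC 1 b39 (kC 2 b7 k0)))))))); clear * - this; omega⟩
              exact T0_226 X hb ⟨by clear * - h1031; omega, by clear * - h1030; omega, by clear * - h1034; omega, by have := kB 1 h1034 (kA 1 h1029 (kA 1 h1024 (kB 1 h921 (kA 2 h920 (kA 2 h916 (kC 1 b41 (kC 1 b36 (kC 6 b17 k0)))))))); clear * - this; omega⟩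
            rcases lt_or_ge (a - V) 0 with h1035 | h1035
            · rcases lt_or_ge (i + 2*a - V) 0 with h1036 | h1036
              · exact T0_34 X hb ⟨by have := kA 1 h1029 (kB 2 h1027 (kA 2 h1024 (kB 2 h921 (kA 2 h920 (kA 4 h916 (kC 2 b41 (kC 3 b39 (kC 12 b17 k0)))))))); clear * - this; omega, by clear * - b18 h919 h1036; omega⟩
              rcases lt_or_ge (-2*a + V - 1) 0 with h1037 | h1037
              · rcases lt_or_ge (N - a - b - m + c - U + V - 2) 0 with h1038 | h1038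
                · rcases lt_or_ge (2*a + b - l - c - 2) 0 with h1039 | h1039
                  · exact T0_34 X hb ⟨by have := kA 8 h1039 (kA 8 h1038 (kA 17 h1037 (kB 3 h1036 (kA 32 h1035 (kA 1 h1029 (kA 1 h1025 (kB 4 h921 (kC 2 b41 (kC 2 b39 k0))))))))); clear * - this; omega, by have := kA 1 h1039 (kA 1 h1038 (kA 1 h1037 (kA 2 h1035 k0))); clear * - this; omega⟩
                  rcases lt_or_ge (i - b + l + c + 1) 0 with h1040 | h1040
                  · exact T0_179 X hb ⟨by clear * - h1039; omega, by have := kA 1 h1038 (kA 1 h919 (kA 1 h907 (kB 1 h3 k0))); clear * - this; omega⟩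
                  exact T0_70 X hb ⟨by clear * - h1040; omega, by clear * - h1039; omega, by have := kA 1 h1038 (kA 1 h919 (kA 1 h907 (kB 1 h3 k0))); clear * - this; omega⟩
                rcases lt_or_ge (-3*N - i + a + b - l + m - 3*c - 2*d + L - U - V + 1) 0 with h1041 | h1041
                · rcases lt_or_ge (N + a - l - m - U - 3) 0 with h1042 | h1042
                  · exact T0_98 X hb ⟨by have := kA 6 h1042 (kB 2 h1038 (kA 9 h1037 (kB 1 h1036 (kA 14 h1035 (kA 3 h1029 (kA 1 h1024 (kB 1 h921 (kA 2 h920 (kC 3 b41 (kC 4 b7 k0)))))))))); clear * - this; omega, by have := kA 1 h1042 (kA 1 h1041 (kA 2 h1037 (kA 3 h1035 (kB 1 h921 (kC 1 b39 k0))))); clear * - this; omega, by have := kA 4 h1037 (kA 8 h1035 (kA 1 h1029 (kB 2 h921 (kA 2 h920 (kC 1 b45 (kC 1 b41 (kC 1 b39 k0))))))); clear * - this; omega⟩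
                  exact T0_31 X hb ⟨by have := kB 5 h1042 (kB 2 h1038 (kB 3 h1036 (kA 3 h1029 (kA 1 h1024 (kB 5 h921 (kA 2 h920 (kA 15 h919 (kA 4 h916 (kC 3 b41 (kC 2 b39 k0)))))))))); clear * - this; omega, by clear * - h1042; omega⟩
                exact T0_178 X hb ⟨by clear * - h1038; omega, by clear * - h1041; omega, by have := kA 3 h1037 (kB 1 h1036 (kA 6 h1035 (kA 1 h1029 (kA 1 h1024 (kB 1 h921 (kA 2 h919 (kB 2 h3 (kC 1 b41 k0)))))))); clear * - this; omega⟩
              rcases lt_or_ge (-2*N - i - l - 2*c - 2*d + L - 2*U - V) 0 with h1043 | h1043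
              · rcases lt_or_ge (2*a + b - l - c - 2) 0 with h1044 | h1044
                · exact T0_98 X hb ⟨by have := kA 2 h1044 (kB 3 h1037 (kB 1 h1036 (kA 3 h1029 (kA 1 h1024 (kB 1 h921 (kA 2 h920 (kA 4 h919 (kC 3 b41 (kC 4 b7 (kC 10 b2 k0)))))))))); clear * - this; omega, by have := kA 1 h1044 (kA 1 h1043 (kB 1 h1037 (kB 1 h921 (kC 1 b39 (kC 3 b2 k0))))); clear * - this; omega, by have := kB 2 h921 (kA 2 h2 (kC 1 b42 (kC 1 b41 (kC 1 b39 k0)))); clear * - this; omega⟩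
                rcases lt_or_ge (i - b + l + c + 1) 0 with h1045 | h1045
                · exact T0_98 X hb ⟨by have := kA 1 h1029 (kA 1 h920 (kA 2 h919 (kA 1 h907 (kC 1 b41 (kC 2 b7 (kC 2 b2 k0)))))); clear * - this; omega, by have := kA 1 h1045 (kA 1 h1043 (kB 3 h1037 (kA 1 h1024 (kC 1 b45 (kC 2 b39 (kC 7 b2 k0)))))); clear * - this; omega, by have := kB 2 h921 (kA 2 h2 (kC 1 b42 (kC 1 b41 (kC 1 b39 k0)))); clear * - this; omega⟩
                exact T0_70 X hb ⟨by clear * - h1045; omega, by clear * - h1044; omega, by have := kB 2 h1044 (kA 1 h1029 (kA 2 h1024 (kA 4 h919 (kB 2 h3 (kC 1 b45 (kC 1 b41 (kC 1 b39 k0))))))); clear * - this; omega⟩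
              exact T0_369 X hb ⟨by clear * - h1036; omega, by clear * - h1037; omega, by clear * - h1043; omega, by have := kB 2 h1036 (kA 1 h1029 (kB 2 h921 (kA 4 h919 (kA 1 h917 (kB 1 h908 (kA 1 h2 (kC 1 b41 (kC 1 b39 k0)))))))); clear * - this; omega⟩
            exact T0_6 X hb ⟨by have := kB 4 h1035 (kA 2 h1029 (kA 2 h920 (kA 4 h919 (kA 1 h917 (kB 3 h908 (kA 3 h907 (kC 2 b41 (kC 4 b17 (kC 2 b7 k0))))))))); clear * - this; omega, by have := kB 2 h1035 (kA 1 h1029 (kB 2 h921 (kA 2 h919 (kC 1 b41 (kC 1 b18 (kC 2 b17 k0)))))); clear * - this; omega, by clear * - h1035; omega, by clear * - h1030; omega⟩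
          exact T0_21 X hb ⟨by have := kB 2 h1027 (kB 2 h921 (kA 2 h917 (kA 2 h916 (kC 1 b45 (kC 1 b41 (kC 2 b39 (kC 6 b17 k0))))))); clear * - this; omega, by have := kB 1 h1029 (kB 2 h1027 (kA 2 h920 (kA 4 h919 (kA 4 h917 (kC 2 b41 (kC 3 b39 (kC 2 b7 (kC 4 b2 k0)))))))); clear * - this; omega, by clear * - h1027; omega, by have := kA 1 h920 (kA 2 h919 (kA 1 h907 (kC 1 b41 (kC 1 b7 (kC 2 b2 k0))))); clear * - this; omega, by clear * - h1029; omega⟩
        rcases lt_or_ge (2*a + 2*b - m - 2) 0 with h1046 | h1046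
        · rcases lt_or_ge (2*N - i - 2*a - 2*b + 2*c - L - 2) 0 with h1047 | h1047
          · rcases lt_or_ge (-2*a - 2*b + l + m + 2*c + 2*U + 2) 0 with h1048 | h1048
            · exact T0_363 X hb ⟨by have := kA 1 h1046 (kB 2 h1026 (kA 2 h1024 (kB 2 h3 (kC 2 b42 (kC 1 b40 (kC 4 b17 k0)))))); clear * - this; omega, by have := kA 1 h1048 (kB 1 h921 (kC 1 b18 (kC 2 b17 k0))); clear * - this; omega, by clear * - b17 h3 h1024; omega, by have := kA 1 h1048 (kA 1 h1046 (kA 1 h1024 (kC 2 b17 k0))); clear * - this; omega, by have := kA 1 h1048 (kA 2 h1046 (kA 1 h1024 (kA 1 h914 (kB 1 h908 (kC 2 b17 k0))))); clear * - this; omega, by have := kB 1 h921 (kA 1 h920 (kB 1 h3 (kC 1 b19 (kC 2 b17 k0)))); clear * - this; omega⟩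
            rcases lt_or_ge (-N + a + b + m - 2*c) 0 with h1049 | h1049
            · rcases lt_or_ge (i + a - b) 0 with h1050 | h1050
              · exact T0_125 X hb ⟨by have := kA 1 h1046 (kB 2 h921 (kA 1 h920 (kB 1 h3 (kC 1 b19 (kC 2 b17 k0))))); clear * - this; omega, by clear * - b17 h3 h1049; omega, by have := kA 1 h1050 (kA 2 h1049 (kA 2 h1047 (kA 1 h1046 (kB 1 h921 (kA 2 h919 (kC 2 b42 (kC 2 b41 (kC 4 b2 k0)))))))); clear * - this; omega⟩
              rcases lt_or_ge (-a + b - 1) 0 with h1051 | h1051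
              · exact T0_1 X hb (by have := kA 1 h1051 (kB 1 h1050 (kA 4 h1049 (kA 2 h1047 (kA 2 h919 (kC 2 b42 (kC 2 b41 (kC 1 b18 (kC 2 b11 k0)))))))); clear * - this; omega)
              exact T0_102 X hb ⟨by clear * - h1050; omega, by clear * - h1051; omega⟩
            exact T0_314 X hb ⟨by clear * - h1048; omega, by clear * - h1049; omega, by have := kA 2 h1024 (kB 2 h3 (kC 1 b42 (kC 1 b41 (kC 1 b39 (kC 2 b18 (kC 6 b17 k0)))))); clear * - this; omega, by clear * - h3 h907 h1048; omega, by clear * - h907 h1048 h1049; omega⟩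
          rcases lt_or_ge (2*N - i + 2*a + 2*b - l - m - L - 4) 0 with h1052 | h1052
          · rcases lt_or_ge (-a - b + l + 2*c) 0 with h1053 | h1053
            · rcases lt_or_ge (i - b) 0 with h1054 | h1054
              · exact T0_107 X hb ⟨by have := kA 1 h1054 (kA 2 h1053 (kA 1 h1052 (kB 1 h1047 (kA 1 h1024 (kB 1 h3 (kC 1 b17 (kC 1 b2 k0))))))); clear * - this; omega, by have := kA 4 h1054 (kA 6 h1053 (kA 3 h1052 (kA 2 h1024 (kA 4 h919 (kB 2 h3 (kC 3 b42 (kC 3 b41 (kC 1 b18 (kC 8 b2 k0))))))))); clear * - this; omega⟩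
              exact T0_1 X hb (by clear * - h1054; omega)
            exact T0_106 X hb (by clear * - h1053; omega)
          exact T0_162 X hb ⟨by have := kA 1 h1046 (kB 2 h1026 (kA 2 h918 (kC 1 b11 k0))); clear * - this; omega, by have := kA 1 h1046 (kA 1 h920 (kA 1 h907 (kC 2 b17 (kC 1 b7 k0)))); clear * - this; omega, by clear * - b11 h918 h1026; omega, by have := kA 1 h920 (kA 1 h907 (kC 2 b17 (kC 1 b7 k0))); clear * - this; omega, by have := kB 1 h1052 (kA 2 h920 (kA 2 h917 (kC 1 b42 (kC 1 b41 (kC 1 b39 (kC 1 b36 (kC 4 b17 (kC 2 b7 k0)))))))); clear * - this; omega, by clear * - h1047; omega, by clear * - h1052; omega⟩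
        exact T0_332 X hb ⟨by clear * - h1046; omega, by clear * - h1026; omega, by have := kA 1 h920 (kA 2 h919 (kA 1 h907 (kC 1 b41 (kC 1 b7 (kC 2 b2 k0))))); clear * - this; omega⟩
      exact T0_331 X hb ⟨by clear * - h1025; omega, by have := kA 2 h917 (kC 1 b42 (kC 2 b17 (kC 1 b11 (kC 1 b1 k0)))); clear * - this; omega, by have := kB 2 h921 (kA 2 h2 (kC 1 b42 (kC 1 b41 (kC 1 b39 k0)))); clear * - this; omega, by have := kB 1 h1025 (kA 1 h917 (kA 1 h916 (kC 1 b17 k0))); clear * - this; omega, by have := kB 2 h1025 (kA 2 h1024 (kA 6 h920 (kA 2 h917 (kA 2 h916 (kC 3 b42 (kC 3 b41 (kC 3 b39 (kC 12 b17 (kC 2 b7 k0))))))))); clear * - this; omega⟩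
    exact T0_122 X hb ⟨by clear * - h1024; omega, by have := kB 1 h1024 (kB 2 h921 (kA 2 h907 (kC 2 b18 (kC 4 b17 k0)))); clear * - this; omega, by clear * - h907 h920 h1024; omega, by clear * - h914 h1024; omega, by clear * - h921; omega⟩
  exact T0_2 X hb ⟨by clear * - b11 b18 h907; omega, by clear * - h920; omega⟩

theorem P5 (X : C W N Q i a b l m c d L U V Y) (hb : B N Q i a b l m c d L U V Y)
    (h2 : (3*N + Q - i - 2*l - 3*m + c + d - 2*U + V - 6) < 0)
    (h3 : (N + c + d - 1) ≥ 0)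
    (h907 : (-N + l + 2*m - c + d + 2*U + 2) < 0)
    (h908 : (l + m + d + 2*U + 1) ≥ 0)
    (h914 : (-2*N + 2*m - 2*c - d + 1) < 0)
    (h916 : (-N - l - c - 2*d - 2*U + V - 1) < 0)
    (h917 : (-3*N + 3*m - 3*c - 2*d + 2) < 0)
    (h918 : (m + d + Y + 1) < 0) : False := by
  have b2 := hb.b2
  have b3 := hb.b3
  have b7 := hb.b7
  have b11 := hb.b11
  have b17 := hb.b17
  have b18 := hb.b18
  have b19 := hb.b19
  have b33 := hb.b33
  have b35 := hb.b35
  have b36 := hb.b36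
  have b38 := hb.b38
  have b39 := hb.b39
  have b40 := hb.b40
  have b41 := hb.b41
  have b42 := hb.b42
  have b43 := hb.b43
  have b44 := hb.b44
  rcases lt_or_ge (N + a - l - m - U - V - 3) 0 with h919 | h919
  · exact M19 X hb h2 h3 h907 h908 h914 h916 h917 h918 h919
  rcases lt_or_ge (-3*N - Q + i + a + 2*b + 2*l + 2*m + L + 3*U - V + 6) 0 with h1055 | h1055
  · rcases lt_or_ge (i - b) 0 with h1056 | h1056
    · rcases lt_or_ge (2*a + 2*b + m - L + 2*Y - 1) 0 with h1057 | h1057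
      · rcases lt_or_ge (-a - b + l + 2*c) 0 with h1058 | h1058
        · rcases lt_or_ge (-Q + i + a + b) 0 with h1059 | h1059
          · rcases lt_or_ge (2*N - i - 2*a - 2*b + 2*c - L - 2) 0 with h1060 | h1060
            · rcases lt_or_ge (4*N + Q - 2*i - a - b - 4*l - 4*m - 4*U + 2*V - 9) 0 with h1061 | h1061
              · rcases lt_or_ge (-a - b + c - d - 1) 0 with h1062 | h1062
                · rcases lt_or_ge (Q - i - 2*a - 2*b + 2*m + 2*c + 2*Y + 1) 0 with h1063 | h1063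
                  · rcases lt_or_ge (2*N - i + 2*a + 2*b - l - m - L - 4) 0 with h1064 | h1064
                    · rcases lt_or_ge (-2*N + 3*m - 2*c + 2*Y + 2) 0 with h1065 | h1065
                      · exact T0_100 X hb ⟨by have := kA 1 h1065 (kA 10 h1064 (kA 8 h1059 (kA 11 h1058 (kA 1 h1057 (kA 19 h1056 (kB 1 h919 (kA 10 h907 (kA 8 h2 (kC 2 b41 k0))))))))); clear * - this; omega, by have := kA 1 h1065 (kA 1 h1064 (kA 1 h1058 (kA 1 h1056 (kB 1 h919 (kC 1 b41 (kC 4 b17 k0)))))); clear * - this; omega⟩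
                      rcases lt_or_ge (-Q + i + l - m - 2*Y + 1) 0 with h1066 | h1066
                      · rcases lt_or_ge (-4*N - Q + l + 2*m - 2*c - 2*d + L - 2*V + 5) 0 with h1067 | h1067
                        · exact T0_12 X hb ⟨by have := kA 1 h1067 (kA 1 h1066 (kA 1 h1064 (kA 1 h1063 (kA 1 h1057 (kA 2 h1056 (kA 1 h907 (kA 1 h2 (kC 1 b41 (kC 1 b17 k0))))))))); clear * - this; omega, by have := kB 1 h1065 (kA 1 h1064 (kA 2 h1056 (kB 1 h919 (kA 2 h918 k0)))); clear * - this; omega⟩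
                        exact T0_35 X hb ⟨by clear * - h1067; omega, by have := kA 1 h1066 (kA 1 h1063 (kA 1 h1057 (kA 1 h907 (kB 1 h3 (kC 1 b41 (kC 4 b17 k0)))))); clear * - this; omega⟩
                      exact T0_85 X hb ⟨by clear * - h1066; omega, by have := kB 2 h1065 (kA 3 h918 (kA 1 h917 (kB 2 h3 k0))); clear * - this; omega, by clear * - h1065; omega, by clear * - h918; omega⟩
                    rcases lt_or_ge (2*N - i - l - L - 3) 0 with h1068 | h1068
                    · exact T0_100 X hb ⟨by have := kA 7 h1068 (kB 5 h1064 (kA 4 h1059 (kA 5 h1057 (kA 4 h1056 (kA 4 h2 (kC 5 b41 (kC 2 b17 k0))))))); clear * - this; omega, by have := kA 1 h1068 (kB 1 h1064 (kA 1 h1057 (kC 1 b41 (kC 2 b17 k0)))); clear * - this; omega⟩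
                    rcases lt_or_ge (4*a + 4*b - m - 2*c - L - 3) 0 with h1069 | h1069
                    · rcases lt_or_ge (N - l - m - U + V - 3) 0 with h1070 | h1070
                      · exact T0_85 X hb ⟨by have := kA 1 h1069 (kB 1 h1068 (kA 1 h1063 (kA 2 h1062 (kA 1 h1061 (kA 1 h1059 (kA 2 h907 (kC 2 b17 k0))))))); clear * - this; omega, by have := kA 4 h1070 (kA 2 h1069 (kA 4 h1062 (kA 1 h1061 (kA 1 h1060 (kA 1 h1059 (kA 2 h1056 (kB 2 h919 (kA 5 h918 (kA 1 h917 (kC 3 b41 (kC 8 b17 k0))))))))))); clear * - this; omega, by have := kA 5 h1070 (kA 1 h1069 (kA 1 h1063 (kA 1 h1060 (kA 1 h1059 (kA 1 h1056 (kB 1 h919 (kC 2 b41 (kC 6 b17 k0)))))))); clear * - this; omega, by clear * - h918; omega⟩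
                      rcases lt_or_ge (-3*N - i - 2*a + m - 2*c - 2*d + L - U - V + 2) 0 with h1071 | h1071
                      · exact T0_138 X hb ⟨by have := kA 1 h1071 (kB 1 h1070 (kA 2 h1069 (kA 1 h1063 (kA 5 h1062 (kA 1 h1061 (kA 2 h1059 (kA 2 h1056 (kA 1 h907 (kC 1 b41 (kC 3 b17 k0)))))))))); clear * - this; omega, by have := kA 1 h1071 (kB 1 h1070 (kA 2 h1069 (kA 1 h1063 (kA 5 h1062 (kA 1 h1061 (kA 2 h1059 (kA 2 h1056 (kA 4 h907 (kA 3 h2 (kC 1 b41 k0)))))))))); clear * - this; omega, by have := kB 8 h1070 (kA 3 h1069 (kB 1 h1068 (kB 3 h1064 (kA 3 h1061 (kA 5 h1060 (kA 3 h1059 (kA 4 h1056 (kA 4 h1055 (kA 4 h917 (kA 4 h2 k0)))))))))); clear * - this; omega, by have := kA 1 h1071 (kA 1 h1069 (kA 3 h1059 (kA 4 h1058 (kA 3 h1056 (kB 1 h919 (kA 3 h907 (kA 3 h2 (kC 1 b17 k0)))))))); clear * - this; omega⟩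
                      exact T0_100 X hb ⟨by clear * - h1071; omega, by clear * - h1070; omega⟩
                    exact T0_81 X hb ⟨by have := kA 15 h1061 (kA 6 h1060 (kA 31 h1059 (kA 26 h1057 (kA 28 h1056 (kB 28 h919 (kA 12 h918 (kA 14 h917 (kA 16 h2 (kC 32 b41 (kC 74 b17 k0)))))))))); clear * - this; omega, by have := kB 1 h1068 (kA 8 h1061 (kA 1 h1060 (kA 16 h1059 (kA 10 h1057 (kA 8 h1056 (kB 8 h919 (kA 10 h907 (kA 8 h2 (kC 10 b41 (kC 32 b17 k0)))))))))); clear * - this; omega, by have := kB 7 h1068 (kA 4 h1061 (kA 10 h1060 (kA 26 h1059 (kA 20 h1057 (kA 14 h1056 (kB 14 h919 (kA 6 h918 (kA 14 h917 (kA 22 h2 (kC 23 b41 (kC 44 b17 k0))))))))))); clear * - this; omega, by have := kA 2 h1059 (kA 1 h1058 (kA 1 h1057 (kA 1 h907 (kA 2 h2 (kC 1 b41 (kC 2 b17 k0)))))); clear * - this; omega, by have := kB 7 h1068 (kA 3 h1061 (kA 11 h1060 (kA 23 h1059 (kA 15 h1057 (kA 14 h1056 (kB 14 h919 (kA 8 h918 (kA 14 h917 (kA 20 h2 (kC 19 b41 (kC 40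 b17 k0))))))))))); clear * - this; omega, by have := kA 1 h1059 (kA 1 h1058 (kA 1 h907 (kA 1 h2 (kC 1 b17 k0)))); clear * - this; omega, by have := kB 1 h1069 (kA 1 h1061 (kA 1 h1060 (kA 3 h1059 (kA 3 h1057 (kA 2 h1056 (kB 2 h919 (kA 2 h917 (kA 2 h2 (kC 3 b41 (kC 6 b17 k0)))))))))); clear * - this; omega, by have := kB 1 h1069 (kA 2 h1063 (kA 2 h1061 (kA 4 h1059 (kA 1 h1057 (kA 2 h1056 (kB 2 h919 (kC 3 b41 (kC 6 b17 k0)))))))); clear * - this; omega, by clear * - h1068; omega, by clear * - h1069; omega, by clear * - h1064; omega, by have := kB 24 h1069 (kB 2 h1068 (kA 12 h1062 (kA 31 h1060 (kA 42 h1056 (kA 58 h1055 (kA 46 h917 (kB 8 h908 (kA 58 h2 (kC 8 b44 (kC 13 b38 k0)))))))))); clear * - this; omega, by have := kB 2 h1068 (kA 2 h1062 (kA 1 h1060 (kA 4 h1056 (kA 4 h1055 (kA 8 h914 (kB 2 h908 (kB 2 h3 (kA 4 h2 k0)))))))); clear * - this; omega⟩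
                  rcases lt_or_ge (Q - i + 2*a + 2*b - l + m + 2*Y - 1) 0 with h1072 | h1072
                  · rcases lt_or_ge (-2*N + 3*m - 2*c + 2*Y + 2) 0 with h1073 | h1073
                    · rcases lt_or_ge (N - a - l - m - U + V - 3) 0 with h1074 | h1074
                      · exact T0_102 X hb ⟨by have := kA 2 h1074 (kA 1 h1073 (kA 1 h1072 (kB 1 h1063 (kA 1 h1060 (kA 1 h1058 (kC 1 b41 (kC 2 b17 k0))))))); clear * - this; omega, by have := kA 2 h1074 (kA 3 h1073 (kA 3 h1072 (kB 3 h1063 (kA 1 h1061 (kA 3 h1060 (kA 1 h1059 (kA 3 h1058 (kA 4 h1056 (kC 3 b41 (kC 4 b17 k0)))))))))); clear * - this; omega⟩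
                      exact T0_12 X hb ⟨by clear * - h1074; omega, by have := kA 1 h1072 (kB 1 h1063 (kA 1 h1060 (kA 1 h1059 (kA 1 h1058 (kA 2 h1056 (kB 1 h919 (kA 1 h907 (kA 1 h2 (kC 1 b17 k0))))))))); clear * - this; omega⟩
                    exact T0_85 X hb ⟨by have := kA 5 h1072 (kA 4 h1061 (kA 4 h1059 (kA 6 h1058 (kA 4 h1056 (kB 4 h919 (kA 6 h907 (kB 6 h3 (kC 12 b17 k0)))))))); clear * - this; omega, by have := kB 2 h1073 (kA 3 h918 (kA 1 h917 (kB 2 h3 k0))); clear * - this; omega, by clear * - h1073; omega, by clear * - h918; omega⟩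
                  exact T0_380 X hb ⟨by clear * - h1063; omega, by have := kB 19 h1063 (kA 38 h1062 (kA 3 h1060 (kA 8 h1059 (kA 28 h1057 (kA 14 h1056 (kB 14 h919 (kA 44 h918 (kA 22 h917 (kA 38 h2 (kC 31 b41 (kC 52 b17 k0))))))))))); clear * - this; omega, by clear * - h1072; omega, by have := kB 23 h1072 (kB 6 h1063 (kA 54 h1062 (kA 2 h1061 (kA 58 h1059 (kA 69 h1057 (kA 2 h1056 (kA 2 h1055 (kA 54 h917 (kA 48 h907 (kA 114 h2 (kC 67 b41 (kC 116 b17 k0)))))))))))); clear * - this; omega, by clear * - h918 h1062; omega⟩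
                rcases lt_or_ge (4*N - 3*m + 2*c + 4*d - 4) 0 with h1075 | h1075
                · rcases lt_or_ge (i + a - b) 0 with h1076 | h1076
                  · exact T0_12 X hb ⟨by have := kA 2 h1076 (kA 1 h1075 (kA 1 h1061 (kA 1 h1060 (kA 1 h1058 (kA 2 h1057 (kA 1 h1055 (kA 2 h917 (kC 2 b41 (kC 4 b17 k0))))))))); clear * - this; omega, by have := kA 1 h1076 (kA 1 h1075 (kA 1 h1060 (kA 1 h1059 (kA 1 h1055 (kA 2 h917 (kA 2 h2 (kC 1 b39 (kC 1 b11 k0)))))))); clear * - this; omega⟩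
                  exact T0_102 X hb ⟨by clear * - h1076; omega, by have := kB 1 h1076 (kA 4 h1075 (kA 7 h1061 (kA 4 h1060 (kA 3 h1059 (kA 4 h1058 (kA 8 h1057 (kA 12 h1056 (kA 4 h1055 (kA 8 h917 (kC 8 b41 (kC 10 b17 k0))))))))))); clear * - this; omega⟩
                rcases lt_or_ge (4*N - Q + i + l - 3*m + 4*c + 4*d - 2) 0 with h1077 | h1077
                · exact T0_174 X hb ⟨by clear * - h917 h1077; omega, by have := kA 1 h1061 (kA 1 h1059 (kC 1 b41 (kC 1 b39 (kC 2 b17 (kC 1 b11 k0))))); clear * - this; omega, by have := kA 1 h1077 (kA 3 h1061 (kA 1 h1060 (kA 5 h1058 (kA 3 h1057 (kA 4 h1056 (kA 4 h1055 (kA 8 h917 (kA 5 h907 (kB 4 h3 (kA 5 h2 (kC 7 b17 k0))))))))))); clear * - this; omega⟩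
                rcases lt_or_ge (-i - l + m - 2*c - 2*d - L - 2) 0 with h1078 | h1078
                · exact T0_100 X hb ⟨by have := kA 8 h1078 (kB 10 h1062 (kA 4 h1059 (kA 13 h1058 (kA 11 h1056 (kA 5 h1055 (kA 3 h907 (kA 9 h2 (kC 1 b17 k0)))))))); clear * - this; omega, by have := kA 1 h1078 (kA 1 h1058 (kA 1 h1057 (kA 1 h1056 (kB 1 h919 (kA 2 h918 (kC 2 b41 (kC 6 b17 k0))))))); clear * - this; omega⟩
                rcases lt_or_ge (-2*N + 2*a + 2*b + l + 3*m - 4*c - L + 2*U + 2) 0 with h1079 | h1079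
                · rcases lt_or_ge (-3*N - i - 2*a + m - 2*c - 2*d + L - U - V + 2) 0 with h1080 | h1080
                  · exact T0_203 X hb ⟨by clear * - h919; omega, by have := kA 1 h1080 (kA 1 h1079 (kA 1 h1060 (kA 2 h1059 (kA 1 h1058 (kA 1 h1056 (kA 2 h2 k0)))))); clear * - this; omega⟩
                  exact T0_100 X hb ⟨by clear * - h1080; omega, by have := kA 1 h1079 (kA 1 h1061 (kA 2 h1058 (kA 1 h1056 (kA 1 h1055 (kC 2 b17 k0))))); clear * - this; omega⟩
                rcases lt_or_ge (-i - 2*a - 2*b - l + 2*m - 2*c - 2*d - L - 1) 0 with h1081 | h1081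
                · rcases lt_or_ge (-2*N - Q - l - 2*c - 2*d + L - 2*U) 0 with h1082 | h1082
                  · exact T0_77 X hb ⟨by have := kA 2 h1081 (kB 1 h1079 (kB 1 h1078 (kB 2 h1062 (kA 2 h1057 (kA 2 h1056 (kC 2 b41 (kC 2 b17 k0))))))); clear * - this; omega, by have := kA 1 h1081 (kB 1 h1078 (kA 2 h1059 (kA 1 h1057 (kB 2 h919 (kA 2 h2 (kC 1 b41 (kC 2 b17 k0))))))); clear * - this; omega, by have := kA 2 h1082 (kA 7 h1081 (kB 5 h1078 (kA 2 h1061 (kA 5 h1057 (kA 2 h1056 (kB 2 h919 (kC 5 b41 (kC 14 b17 k0)))))))); clear * - this; omega⟩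
                  rcases lt_or_ge (-4*N - Q + l + 2*m - 2*c - 2*d + L - 2*V + 5) 0 with h1083 | h1083
                  · exact T0_77 X hb ⟨by have := kA 1 h1083 (kB 1 h1082 (kA 1 h1081 (kB 1 h1079 (kB 2 h1062 (kA 1 h1057 (kA 2 h1056 (kC 1 b41 k0))))))); clear * - this; omega, by have := kA 1 h1083 (kB 1 h1082 (kA 2 h1059 (kB 2 h919 (kA 2 h2 k0)))); clear * - this; omega, by have := kA 5 h1083 (kB 3 h1082 (kA 2 h1081 (kA 2 h1059 (kA 2 h1056 (kB 2 h919 (kA 4 h2 k0)))))); clear * - this; omega⟩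
                  exact T0_35 X hb ⟨by clear * - h1083; omega, by have := kA 1 h1081 (kB 1 h1078 (kA 1 h1057 (kC 1 b41 (kC 2 b17 k0)))); clear * - this; omega⟩
                rcases lt_or_ge (-2*N + l + 4*m - 4*c - L + 2*U + 3) 0 with h1084 | h1084
                · exact T0_128 X hb ⟨by have := kA 3 h1084 (kB 1 h1079 (kA 2 h1061 (kA 4 h1059 (kA 3 h1057 (kA 2 h1056 (kA 2 h1055 (kA 4 h2 (kC 3 b41 (kC 6 b17 k0))))))))); clear * - this; omega, by have := kA 1 h1084 (kB 2 h1081 (kB 1 h1075 (kB 2 h908 (kC 1 b39 k0)))); clear * - this; omega, by have := kA 2 h1084 (kB 3 h1079 (kB 2 h1062 (kC 1 b39 k0))); clear * - this; omega, by clear * - h3 h1079 h1084; omega⟩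
                rcases lt_or_ge (-Q - 2*a - 2*b + 2*m - 2*d - L + 1) 0 with h1085 | h1085
                · rcases lt_or_ge (-N - a - b + 2*m - c + Y + 1) 0 with h1086 | h1086
                  · rcases lt_or_ge (N - a - l - m - U + V - 3) 0 with h1087 | h1087
                    · exact T0_102 X hb ⟨by have := kA 2 h1087 (kA 2 h1086 (kA 1 h1085 (kA 1 h1059 (kA 2 h1057 (kA 2 h2 (kC 3 b41 (kC 4 b17 k0))))))); clear * - this; omega, by have := kA 2 h1087 (kA 6 h1086 (kA 3 h1085 (kA 1 h1061 (kA 4 h1059 (kA 6 h1057 (kA 4 h1056 (kA 6 h2 (kC 9 b41 (kC 10 b17 k0))))))))); clear * - this; omega⟩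
                    exact T0_12 X hb ⟨by clear * - h1087; omega, by have := kB 2 h1087 (kA 8 h1085 (kB 1 h1081 (kB 8 h1062 (kA 4 h1057 (kA 10 h1056 (kA 4 h1055 (kB 5 h919 (kA 12 h2 (kC 4 b41 (kC 8 b17 k0)))))))))); clear * - this; omega⟩
                  exact T0_111 X hb ⟨by have := kB 1 h1086 (kA 5 h1085 (kB 1 h1081 (kB 2 h1062 (kA 4 h1056 (kA 1 h1055 (kB 3 h919 (kA 6 h2 (kC 3 b41 (kC 8 b17 k0))))))))); clear * - this; omega, by clear * - h1086; omega, by have := kB 1 h1086 (kA 2 h1085 (kB 3 h1078 (kA 2 h1061 (kA 1 h1060 (kA 2 h1056 (kB 2 h919 (kA 10 h918 (kA 3 h907 (kB 15 h3 (kC 6 b17 k0)))))))))); clear * - this; omega, by have := kB 4 h1086 (kA 1 h1085 (kB 2 h1079 (kB 1 h1078 (kB 3 h1077 (kB 14 h1062 (kA 4 h1060 (kA 4 h1056 (kA 2 h1055 (kB 2 h919 (kB 2 h908 k0)))))))))); clear * - this; omega⟩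
                rcases lt_or_ge (-2*N - Q + i + 2*l + 4*m - 2*c - L + 2*U + 5) 0 with h1088 | h1088
                · rcases lt_or_ge (-3*N + i + a + 2*l + 2*m + L + 3*U - V + 6) 0 with h1089 | h1089
                  · rcases lt_or_ge (-3*N - i - 2*a + m - 2*c - 2*d + L - U - V + 2) 0 with h1090 | h1090
                    · exact T0_123 X hb ⟨by have := kA 1 h1060 (kA 1 h1059 (kA 1 h1056 (kC 1 b41 (kC 1 b2 k0)))); clear * - this; omega, by have := kA 5 h1090 (kA 9 h1089 (kA 13 h1088 (kB 4 h1085 (kB 4 h1084 (kA 9 h1061 (kA 2 h1059 (kA 9 h1057 (kA 1 h1056 (kA 2 h2 (kC 24 b17 k0)))))))))); clear * - this; omega, by have := kA 1 h1089 (kA 4 h1088 (kA 4 h1058 (kA 2 h1056 (kA 3 h1055 (kB 4 h3 (kA 10 h2 k0)))))); clear * - this; omega, by have := kA 1 h1088 (kA 1 h1061 (kA 1 h1059 (kC 1 b41 (kC 2 b17 (kC 1 b11 k0))))); clear * - this; omega, by have := kA 5 h1090 (kA 6 h1089 (kA 10 h1088 (kB 7 h1085 (kB 7 h1084 (kB 6 h1077 (kB 6 h1062 (kA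 15 h1060 (kA 11 h1059 (kA 13 h1056 (kB 9 h919 (kA 14 h2 k0))))))))))); clear * - this; omega, by have := kA 2 h1090 (kA 1 h1089 (kA 2 h1088 (kB 1 h1085 (kB 1 h1077 (kA 4 h1060 (kA 4 h1059 (kA 1 h1057 (kA 4 h1056 (kA 1 h1055 (kA 6 h2 (kC 2 b41 k0))))))))))); clear * - this; omega⟩
                    exact T0_100 X hb ⟨by clear * - h1090; omega, by have := kA 1 h1089 (kA 1 h1088 (kA 1 h1061 (kA 1 h1058 (kA 1 h1057 (kB 1 h919 (kC 1 b41 (kC 6 b17 k0))))))); clear * - this; omega⟩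
                  exact T0_203 X hb ⟨by clear * - h919; omega, by clear * - h1089; omega⟩
                exact T0_364 X hb ⟨by clear * - h1077; omega, by clear * - h1062; omega, by clear * - h1078; omega, by have := kB 1 h1088 (kB 3 h1079 (kB 4 h1062 (kA 2 h1060 (kA 2 h1056 (kA 1 h1055 (kB 1 h919 (kA 2 h907 k0))))))); clear * - this; omega, by clear * - h1079; omega, by clear * - h1085; omega, by have := kB 4 h1088 (kB 4 h1062 (kA 2 h1060 (kA 2 h1056 (kA 1 h1055 (kB 1 h919 (kA 2 h907 k0)))))); clear * - this; omega, by clear * - h1088; omega⟩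
              rcases lt_or_ge (2*N + Q - i + 3*a + 3*b - 3*l - 4*m - 2*c - 4*U + 2*V - 8) 0 with h1091 | h1091
              · rcases lt_or_ge (-N + a + b + m - 2*c) 0 with h1092 | h1092
                · rcases lt_or_ge (-2*N - Q - l - 2*c - 2*d + L - 2*U) 0 with h1093 | h1093
                  · exact T0_12 X hb ⟨by have := kA 2 h1092 (kA 1 h1091 (kA 2 h1060 (kA 1 h1058 (kA 2 h1056 (kA 1 h1055 (kC 1 b42 (kC 1 b41 (kC 2 b17 k0)))))))); clear * - this; omega, by have := kA 2 h1093 (kA 14 h1092 (kA 3 h1091 (kB 6 h1061 (kA 17 h1060 (kA 3 h1059 (kA 18 h1056 (kA 10 h1055 (kB 3 h919 (kB 4 h3 (kA 18 h2 k0)))))))))); clear * - this; omega⟩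
                  rcases lt_or_ge (-4*N - Q + l + 2*m - 2*c - 2*d + L - 2*V + 5) 0 with h1094 | h1094
                  · exact T0_12 X hb ⟨by have := kA 2 h1092 (kA 1 h1091 (kA 2 h1060 (kA 1 h1058 (kA 2 h1056 (kA 1 h1055 (kC 1 b42 (kC 1 b41 (kC 2 b17 k0)))))))); clear * - this; omega, by have := kA 1 h1094 (kB 1 h1093 (kA 2 h1092 (kA 1 h1091 (kA 3 h1060 (kA 1 h1059 (kA 4 h1056 (kA 2 h1055 (kB 1 h919 (kA 2 h2 k0))))))))); clear * - this; omega⟩
                  exact T0_35 X hb ⟨by clear * - h1094; omega, by have := kA 2 h1092 (kA 1 h1060 (kA 1 h1058 (kA 1 h1056 (kA 1 h1055 (kB 1 h3 (kA 1 h2 (kC 1 b17 k0))))))); clear * - this; omega⟩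
                exact T0_107 X hb ⟨by have := kA 1 h1091 (kB 1 h1061 (kA 1 h1058 (kA 1 h1056 (kC 1 b2 k0)))); clear * - this; omega, by clear * - h1092; omega⟩
              exact T0_290 X hb ⟨by have := kB 9 h1061 (kA 2 h1060 (kA 9 h1059 (kA 1 h1058 (kA 4 h1057 (kA 4 h918 (kA 8 h914 (kB 6 h908 (kB 8 h3 (kA 18 h2 (kC 6 b41 k0)))))))))); clear * - this; omega, by have := kB 3 h1061 (kA 3 h1059 (kA 2 h918 (kA 2 h914 (kB 4 h3 (kA 6 h2 (kC 1 b41 (kC 1 b38 k0))))))); clear * - this; omega, by clear * - h1061; omega, by clear * - h1091; omega, by have := kB 2 h1061 (kA 2 h1060 (kA 16 h1059 (kA 1 h1058 (kA 4 h1057 (kA 4 h918 (kA 8 h914 (kB 6 h908 (kB 8 h3 (kA 18 h2 (kC 6 b41 k0)))))))))); clear * - this; omega, by have := kB 1 h1061 (kA 5 h1059 (kA 2 h918 (kA 2 h914 (kB 4 h3 (kA 6 h2 (kC 1 b41 (kC 1 b38 k0))))))); clear * - this; omega, by clear * - h1059; omega⟩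
            rcases lt_or_ge (2*N - i + 2*a + 2*b - l - m - L - 4) 0 with h1095 | h1095
            · rcases lt_or_ge (-N - 2*a - 2*b + m - c - d - V) 0 with h1096 | h1096
              · exact T0_100 X hb ⟨by have := kA 4 h1095 (kA 2 h1059 (kA 3 h1058 (kA 7 h1056 (kB 1 h919 (kA 2 h918 (kA 2 h907 (kA 2 h2 (kC 1 b41 k0)))))))); clear * - this; omega, by have := kA 1 h1096 (kA 1 h1095 (kB 1 h1060 (kA 2 h1058 (kA 1 h907 (kC 1 b17 k0))))); clear * - this; omega⟩
              exact T0_132 X hb ⟨by clear * - b35 h1060 h1096; omega, by have := kB 1 h1096 (kA 1 h1058 (kA 1 h1056 (kC 1 b2 k0))); clear * - this; omega, by clear * - b17 h3; omega, by clear * - h1096; omega⟩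
            exact T0_162 X hb ⟨by have := kA 13 h1059 (kA 5 h1058 (kA 11 h1057 (kA 6 h1056 (kB 6 h919 (kA 1 h916 (kA 11 h914 (kA 13 h2 (kC 11 b41 (kC 20 b17 k0))))))))); clear * - this; omega, by have := kA 2 h1059 (kA 1 h1058 (kA 1 h1057 (kA 1 h907 (kA 2 h2 (kC 1 b41 (kC 2 b17 k0)))))); clear * - this; omega, by have := kA 11 h1059 (kA 7 h1058 (kA 7 h1057 (kA 6 h1056 (kB 6 h919 (kA 12 h916 (kA 13 h907 (kA 11 h2 (kC 7 b41 (kC 29 b17 k0))))))))); clear * - this; omega, by have := kA 1 h1059 (kA 1 h1058 (kA 1 h907 (kA 1 h2 (kC 1 b17 k0)))); clear * - this; omega, by have := kB 1 h1095 (kA 12 h1058 (kA 3 h1057 (kA 10 h1056 (kA 10 h1055 (kA 10 h917 (kA 2 h914 (kB 8 h908 (kA 10 h2 (kC 3 b41 (kC 11 b35 k0)))))))))); clear * - this; omega, by clear * - h1060; omega, by clear * - h1095; omega⟩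
          rcases lt_or_ge (-Q + i - a + b + l + 2*c + 1) 0 with h1097 | h1097
          · rcases lt_or_ge (i + a - b) 0 with h1098 | h1098
            · rcases lt_or_ge (-i - a - b - l + m - 2*c - 1) 0 with h1099 | h1099
              · rcases lt_or_ge (N + 3*a + 2*b - l - m - c + d - 3) 0 with h1100 | h1100
                · exact T0_100 X hb ⟨by have := kA 4 h1100 (kA 2 h1099 (kA 5 h1098 (kA 5 h1097 (kB 5 h1059 (kA 1 h1058 (kC 2 b39 (kC 1 b18 k0))))))); clear * - this; omega, by have := kA 1 h1099 (kA 1 h1098 (kA 1 h1097 (kB 1 h1059 (kA 1 h1057 (kC 1 b41 (kC 2 b17 k0)))))); clear * - this; omega⟩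
                rcases lt_or_ge (N + a + 2*b - m + c + d - 2) 0 with h1101 | h1101
                · exact T0_100 X hb ⟨by have := kA 5 h1101 (kB 1 h1100 (kA 2 h1099 (kA 5 h1098 (kA 1 h1058 (kC 2 b39 (kC 1 b18 k0)))))); clear * - this; omega, by have := kA 1 h1101 (kB 1 h1100 (kA 1 h1099 (kA 1 h1098 (kA 1 h1057 (kC 1 b41 (kC 2 b17 k0)))))); clear * - this; omega⟩
                exact T0_86 X hb ⟨by have := kA 1 h1099 (kA 1 h1057 (kA 1 h1056 (kA 1 h2 (kC 1 b41 (kC 1 b17 k0))))); clear * - this; omega, by clear * - h1100; omega, by have := kA 5 h1099 (kA 1 h1098 (kA 4 h1097 (kB 1 h1059 (kA 5 h1057 (kA 5 h1056 (kA 2 h916 (kA 3 h2 (kC 5 b41 (kC 5 b17 k0))))))))); clear * - this; omega, by have := kB 1 h1100 (kA 3 h1099 (kA 3 h1098 (kA 2 h1097 (kA 2 h1057 (kA 2 h2 (kC 2 b41 (kC 2 b17 k0))))))); clear * - this; omega, by have := kA 2 h1099 (kA 1 h1098 (kA 2 h1097 (kA 2 h1057 (kA 1 h1056 (kB 1 h3 (kA 2 h2 (kC 2 b41 (kC 2 b17 k0))))))));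 clear * - this; omega, by clear * - h1101; omega⟩
              exact T0_328 X hb ⟨by clear * - h1099; omega, by clear * - h1059 h1097 h1098; omega, by have := kB 1 h1099 (kA 1 h1098 (kA 1 h1097 (kA 2 h907 (kB 1 h3 (kA 1 h2 (kC 1 b18 (kC 1 b17 k0))))))); clear * - this; omega, by have := kA 2 h1098 (kA 2 h1097 (kA 1 h1057 (kA 2 h918 (kA 1 h907 (kB 1 h3 (kA 2 h2 (kC 2 b41 (kC 1 b39 (kC 2 b17 k0))))))))); clear * - this; omega⟩
            exact T0_102 X hb ⟨by clear * - h1098; omega, by clear * - b3 h1059; omega⟩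
          rcases lt_or_ge (a - b - l + m - 2*c - 1) 0 with h1102 | h1102
          · rcases lt_or_ge (N - a - b + c + d + Y - 1) 0 with h1103 | h1103
            · exact T0_77 X hb ⟨by have := kA 4 h1103 (kA 7 h1102 (kA 7 h1058 (kA 5 h1057 (kA 8 h1056 (kB 6 h919 (kB 4 h3 (kC 5 b41 (kC 2 b40 (kC 22 b17 k0))))))))); clear * - this; omega, by have := kA 1 h1102 (kA 1 h1057 (kA 1 h2 (kC 1 b41 (kC 1 b7 (kC 3 b2 k0))))); clear * - this; omega, by have := kA 2 h1103 (kA 1 h917 (kA 1 h916 (kC 1 b41 (kC 1 b36 (kC 3 b17 k0))))); clear * - this; omega⟩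
            exact T0_332 X hb ⟨by have := kA 1 h1102 (kB 1 h1059 (kC 1 b7 (kC 2 b2 k0))); clear * - this; omega, by clear * - h1103; omega, by have := kA 2 h1102 (kA 1 h1057 (kA 2 h2 (kC 2 b41 (kC 2 b17 (kC 2 b7 (kC 4 b2 k0)))))); clear * - this; omega⟩
          exact T0_158 X hb ⟨by clear * - h1059; omega, by clear * - h1102; omega, by clear * - h1097; omega, by have := kA 1 h1057 (kA 1 h1056 (kC 1 b41 (kC 1 b18 (kC 2 b17 (kC 1 b2 k0))))); clear * - this; omega⟩
        exact T0_106 X hb (by clear * - h1058; omega)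
      rcases lt_or_ge (-2*a - 2*b + m + 2*Y) 0 with h1104 | h1104
      · rcases lt_or_ge (3*a + 2*b - l - c - 2) 0 with h1105 | h1105
        · exact T0_10 X hb ⟨by have := kA 2 h1105 (kA 1 h1104 (kA 1 h907 (kA 1 h2 (kC 1 b41 (kC 1 b33 (kC 1 b17 (kC 2 b7 (kC 4 b2 k0)))))))); clear * - this; omega, by have := kA 2 h1105 (kA 2 h1104 (kB 1 h1057 (kA 2 h917 (kA 2 h2 (kC 1 b41 (kC 1 b39 (kC 1 b33 (kC 4 b17 (kC 2 b7 k0))))))))); clear * - this; omega, by have := kB 2 h919 (kA 2 h2 (kC 1 b19 (kC 2 b17 k0))); clear * - this; omega⟩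
        rcases lt_or_ge (a + 2*b + c - 1) 0 with h1106 | h1106
        · exact T0_10 X hb ⟨by have := kA 2 h1106 (kA 1 h1104 (kA 1 h907 (kA 1 h2 (kC 1 b41 (kC 1 b33 (kC 1 b17 (kC 2 b3 (kC 4 b2 k0)))))))); clear * - this; omega, by have := kA 1 h1106 (kB 1 h1105 (kA 1 h1104 (kA 2 h917 (kA 2 h2 (kC 1 b41 (kC 1 b39 (kC 4 b17 (kC 2 b3 k0)))))))); clear * - this; omega, by have := kA 1 h1106 (kB 3 h1105 (kB 3 h1057 (kA 5 h1055 (kB 5 h919 (kA 6 h918 (kA 2 h916 (kA 12 h2 (kC 4 b39 (kC 4 b33 k0))))))))); clear * - this; omega⟩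
        exact T0_15 X hb ⟨by have := kB 1 h1106 (kA 3 h1104 (kA 4 h1055 (kA 8 h918 (kA 10 h917 (kA 4 h916 (kA 20 h2 (kC 7 b41 (kC 11 b39 (kC 20 b17 (kC 4 b7 (kC 5 b3 k0))))))))))); clear * - this; omega, by clear * - h1105; omega, by have := kB 1 h1106 (kA 2 h1055 (kA 2 h917 (kA 4 h2 (kC 1 b39 (kC 1 b33 (kC 2 b17 (kC 2 b7 k0))))))); clear * - this; omega, by clear * - h1106; omega⟩
      rcases lt_or_ge (N - a - b + c + d + Y - 1) 0 with h1107 | h1107
      · rcases lt_or_ge (-N - b + 2*m - 2*c + 1) 0 with h1108 | h1108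
        · rcases lt_or_ge (2*N + a + b - m + 2*c + 2*d + V - 2) 0 with h1109 | h1109
          · exact T0_77 X hb ⟨by have := kA 8 h1109 (kA 2 h1108 (kA 10 h1107 (kA 4 h1056 (kA 2 h917 (kA 6 h916 (kB 8 h3 (kC 1 b44 (kC 5 b41 (kC 6 b39 (kC 22 b17 k0)))))))))); clear * - this; omega, by clear * - b2 h3 h1109; omega, by have := kA 2 h1107 (kA 1 h917 (kA 1 h916 (kC 1 b41 (kC 1 b36 (kC 3 b17 k0))))); clear * - this; omega⟩
          exact T0_362 X hb ⟨by have := kA 4 h1108 (kA 54 h1107 (kB 23 h1104 (kB 1 h1057 (kA 6 h1056 (kA 2 h1055 (kB 8 h919 (kA 8 h916 (kB 8 h3 (kA 2 h2 (kC 3 b41 (kC 6 b36 k0))))))))))); clear * - this; omega, by clear * - h1109; omega, by have := kA 2 h1108 (kA 2 h1107 (kB 1 h1104 (kA 2 h1055 (kA 2 h2 (kC 1 b39 (kC 1 b33 (kC 2 b17 k0))))))); clear * - this; omega, by have := kA 2 h1107 (kA 2 h1055 (kA 4 h917 (kA 2 h916 (kA 6 h2 (kC 1 b43 (kC 2 b41 (kC 4 b39 (kC 8 b17 (kC 1 b7 (kC 1 b3 k0)))))))))); clear * - this; omega,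 by have := kA 4 h1108 (kA 22 h1107 (kB 7 h1104 (kB 1 h1057 (kA 6 h1056 (kA 2 h1055 (kB 8 h919 (kA 8 h916 (kB 8 h3 (kA 2 h2 (kC 3 b41 (kC 6 b36 k0))))))))))); clear * - this; omega⟩
        exact T0_313 X hb ⟨by have := kB 1 h1108 (kA 2 h1107 (kA 2 h917 (kA 2 h2 (kC 1 b41 (kC 1 b39 (kC 2 b17 (kC 1 b3 k0))))))); clear * - this; omega, by have := kA 2 h1107 (kB 1 h1057 (kA 1 h1055 (kB 1 h919 (kA 2 h917 (kA 2 h2 (kC 2 b33 (kC 2 b17 (kC 1 b7 k0)))))))); clear * - this; omega, by clear * - h914 h1108; omega, by have := kB 1 h1057 (kA 2 h918 (kA 1 h907 (kA 1 h2 (kC 1 b33 (kC 1 b17 (kC 1 b3 k0)))))); clear * - this; omega, by clear * - h1108; omega, by have := kA 2 h1107 (kA 2 h917 (kA 1 h907 (kB 1 h3 (kA 2 h2 (kC 1 b41 (kC 1 b33 (kC 2 b17 (kC 2 b3 (kC 2 b2 k0))))))))); clear * - this; omega⟩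
      rcases lt_or_ge (2*N - i + 2*a + 2*b - l - m - L - 4) 0 with h1110 | h1110
      · exact T0_279 X hb ⟨by clear * - b11 h918 h1107; omega, by have := kA 1 h1110 (kB 1 h1057 (kA 2 h918 (kC 1 b11 k0))); clear * - this; omega, by clear * - h1107; omega, by clear * - h1057; omega⟩
      exact T0_17 X hb ⟨by clear * - b11 h918 h1107; omega, by have := kA 1 h907 (kA 1 h2 (kC 1 b17 (kC 1 b7 k0))); clear * - this; omega, by clear * - h1107; omega, by clear * - h1057; omega, by clear * - h1110; omega⟩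
    exact T0_1 X hb (by clear * - h1056; omega)
  exact T0_4 X hb ⟨by clear * - h919; omega, by clear * - h1055; omega⟩

end Pool.Agent.MP_a38735_al.WL.E342
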