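import Pool.Agent.MP_a38735_al.E342t0
import Pool.Agent.MP_a38735_al.E342t1
import Pool.Agent.MP_a38735_al.E342t2
import Pool.Agent.MP_a38735_al.E342t3

set_option autoImplicit false
set_option linter.unusedVariables false
set_option linter.unusedSimpArgs false

namespace Pool.Agent.MP_a38735_al.WL.E342

variable {G : Type*} [Group G]

variable {W : ℤ → G} {N Q i a b l m c d L U V Y : ℤ}

theorem M21 (X : C W N Q i a b l m c d L U V Y) (hb : B N Q i a b l m c d L U V Y)
    (h1 : (-N + m - c) < 0)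
    (h2 : (3*N + Q - i - 2*l - 3*m + c + d - 2*U + V - 6) < 0)
    (h3 : (N + c + d - 1) < 0)
    (h4 : (i + a - b) ≥ 0)
    (h799 : (-a + b - 1) < 0)
    (h800 : (i - b) < 0)
    (h801 : (-2*N + 2*m - 2*c - d + 1) < 0)
    (h802 : (-3*N + i + a + 2*l + 2*m + L + 3*U - V + 6) < 0) : False := by
  have b1 := hb.b1
  have b3 := hb.b3
  have b4 := hb.b4
  have b6 := hb.b6
  have b7 := hb.b7
  have b11 := hb.b11
  have b17 := hb.b17
  have b18 := hb.b18
  have b19 := hb.b19
  have b33 := hb.b33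
  have b35 := hb.b35
  have b36 := hb.b36
  have b38 := hb.b38
  have b39 := hb.b39
  have b40 := hb.b40
  have b41 := hb.b41
  have b42 := hb.b42
  have b43 := hb.b43
  have b44 := hb.b44
  have b45 := hb.b45
  rcases lt_or_ge (4*N + Q - 2*i - a - b - 4*l - 4*m - 4*U + 2*V - 9) 0 with h803 | h803
  · rcases lt_or_ge (i - a - b + l + 2*c + 1) 0 with h804 | h804
    · rcases lt_or_ge (-3*N - a - b + 3*m - 3*c - 2*d + 2) 0 with h805 | h805
      · rcases lt_or_ge (3*N + 2*a + b - 2*l - 3*m + c + d - 2*U + 2*V - 6) 0 with h806 | h806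
        · rcases lt_or_ge (2*N - i + 2*a + 2*b - l - m - L - 4) 0 with h807 | h807
          · rcases lt_or_ge (-N + a + b + m - c + Y) 0 with h808 | h808
            · exact T0_328 X hb ⟨by have := kA 2 h808 (kA 1 h807 (kA 2 h804 (kA 2 h800 (kB 1 h4 (kC 1 b41 (kC 1 b18 (kC 2 b17 k0))))))); clear * - this; omega, by clear * - h804; omega, by have := kA 1 h806 (kA 1 h800 (kA 1 h799 (kA 1 h3 (kC 1 b43 (kC 1 b41 (kC 1 b39 k0)))))); clear * - this; omega, by have := kA 1 h807 (kA 2 h800 (kA 1 h799 (kA 2 h3 (kC 2 b43 (kC 2 b41 (kC 1 b39 k0)))))); clear * - this; omega⟩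
            rcases lt_or_ge (N + a + b - m + c - Y - 2) 0 with h809 | h809
            · exact T0_126 X hb ⟨by have := kA 5 h807 (kA 2 h805 (kA 1 h804 (kA 10 h800 (kB 5 h4 (kA 4 h3 (kC 5 b43 (kC 5 b41 k0))))))); clear * - this; omega, by clear * - b6 h809; omega⟩
            exact T0_111 X hb ⟨by clear * - h808; omega, by have := kA 2 h807 (kA 1 h804 (kA 2 h800 (kA 1 h799 (kC 1 b43 (kC 2 b41 (kC 1 b18 (kC 2 b17 k0))))))); clear * - this; omega, by clear * - h809; omega, by have := kB 7 h809 (kB 11 h808 (kA 20 h807 (kA 8 h805 (kA 20 h800 (kA 10 h799 (kA 16 h3 (kC 20 b43 (kC 20 b41 k0)))))))); clear * - this; omega⟩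
          rcases lt_or_ge (N - m + d - 2) 0 with h810 | h810
          · rcases lt_or_ge (-2*a - 2*b + l + c) 0 with h811 | h811
            · exact T0_48 X hb ⟨by have := kA 2 h811 (kA 4 h806 (kA 2 h805 (kA 2 h799 (kC 1 b42 (kC 1 b41 (kC 1 b39 k0)))))); clear * - this; omega, by have := kA 8 h810 (kA 2 h806 (kA 5 h804 (kA 4 h802 (kA 2 h801 (kA 3 h799 (kA 10 h3 (kC 1 b43 (kC 1 b41 (kC 8 b39 (kC 3 b38 k0)))))))))); clear * - this; omega⟩
            exact T0_74 X hb ⟨by clear * - h811; omega, by have := kA 16 h810 (kB 1 h807 (kA 8 h805 (kA 8 h804 (kA 4 h802 (kB 2 h4 (kC 5 b39 (kC 11 b18 (kC 18 b17 k0)))))))); clear * - this; omega⟩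
          rcases lt_or_ge (2*N - i - 4*a - 4*b - l - 2) 0 with h812 | h812
          · exact T0_48 X hb ⟨by have := kA 5 h812 (kA 18 h806 (kA 8 h805 (kA 4 h804 (kA 8 h802 (kA 7 h799 (kB 7 h4 (kC 1 b44 (kC 9 b33 k0)))))))); clear * - this; omega, by have := kA 10 h812 (kB 10 h810 (kB 3 h807 (kA 27 h806 (kA 10 h805 (kA 54 h802 (kA 23 h800 (kA 52 h799 (kA 75 h3 (kC 34 b36 (kC 59 b33 k0)))))))))); clear * - this; omega⟩
          rcases lt_or_ge (2*a + 2*b - 2*c - L - 2) 0 with h813 | h813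
          · rcases lt_or_ge (-i - a - b - l + m - 2*c - 1) 0 with h814 | h814
            · rcases lt_or_ge (-a - b + m + c + Y) 0 with h815 | h815
              · exact T0_35 X hb ⟨by have := kA 2 h814 (kA 6 h813 (kB 1 h807 (kA 3 h806 (kA 8 h804 (kA 7 h803 (kA 6 h802 (kA 1 h800 (kA 5 h799 (kA 11 h3 (kC 8 b39 k0)))))))))); clear * - this; omega, by have := kA 2 h815 (kA 1 h813 (kC 1 b41 (kC 2 b17 k0))); clear * - this; omega⟩
              exact T0_124 X hb ⟨by have := kA 1 h814 (kA 1 h804 (kC 1 b42 (kC 1 b7 k0))); clear * - this; omega, by have := kA 1 h814 (kA 2 h804 (kA 1 h803 (kC 2 b19 (kC 2 b17 k0)))); clear * - this; omega, by have := kA 2 h813 (kB 2 h810 (kA 1 h804 (kA 1 h803 (kA 2 h3 (kC 2 b42 (kC 2 b41 (kC 2 b17 k0))))))); clear * - this; omega, by have := kA 1 h814 (kA 3 h813 (kB 4 h810 (kA 2 h804 (kA 2 h802 (kB 1 h4 (kA 2 h3 (kA 2 h2 (kC 2 b43 (kC 1 b42 (kC 1 b41 k0)))))))))); clear * - this; omega, by clear * - h815; omega⟩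
            exact T0_328 X hb ⟨by clear * - h814; omega, by clear * - h804; omega, by have := kA 1 h806 (kA 1 h800 (kA 1 h799 (kA 1 h3 (kC 1 b43 (kC 1 b41 (kC 1 b39 k0)))))); clear * - this; omega, by have := kB 2 h814 (kA 8 h813 (kB 7 h807 (kA 4 h806 (kA 6 h804 (kA 8 h802 (kB 6 h4 (kA 12 h3 (kC 2 b43 (kC 2 b41 (kC 9 b36 k0)))))))))); clear * - this; omega⟩
          rcases lt_or_ge (2*N - i - l - L - 3) 0 with h816 | h816
          · rcases lt_or_ge (N - a - b + c + d + Y - 1) 0 with h817 | h817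
            · exact T0_98 X hb ⟨by have := kA 2 h817 (kA 1 h816 (kA 1 h804 (kA 1 h799 (kC 1 b41 (kC 1 b3 k0))))); clear * - this; omega, by have := kA 2 h806 (kA 2 h805 (kA 2 h802 (kA 1 h799 (kB 1 h4 (kC 2 b33 (kC 1 b18 (kC 6 b17 k0))))))); clear * - this; omega, by have := kA 52 h817 (kA 8 h816 (kB 17 h812 (kB 4 h807 (kA 16 h806 (kA 18 h805 (kA 9 h804 (kA 10 h800 (kA 13 h799 (kA 32 h2 (kC 26 b41 (kC 22 b39 k0))))))))))); clear * - this; omega⟩
            rcases lt_or_ge (2*a + 2*b + m - L + 2*Y - 1) 0 with h818 | h818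
            · exact T0_35 X hb ⟨by have := kA 2 h818 (kA 1 h816 (kA 1 h803 (kA 6 h800 (kB 3 h4 (kA 2 h3 (kC 2 b41 k0)))))); clear * - this; omega, by have := kA 1 h818 (kA 1 h816 (kB 1 h807 (kC 1 b41 (kC 2 b17 k0)))); clear * - this; omega⟩
            exact T0_17 X hb ⟨by clear * - h807 h812 h816; omega, by have := kB 3 h818 (kA 4 h806 (kA 2 h799 (kA 12 h3 (kC 7 b43 (kC 4 b41 (kC 7 b39 (kC 8 b17 k0))))))); clear * - this; omega, by clear * - h817; omega, by clear * - h818; omega, by clear * - h807; omega⟩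
          rcases lt_or_ge (4*a + 4*b - m - 2*c - L - 3) 0 with h819 | h819
          · exact T0_328 X hb ⟨by clear * - h804 h813 h819; omega, by clear * - h804; omega, by have := kB 1 h816 (kA 1 h806 (kA 1 h800 (kB 1 h4 (kA 1 h3 (kC 1 b39 k0))))); clear * - this; omega, by have := kA 1 h819 (kB 1 h813 (kA 2 h800 (kB 1 h4 (kA 2 h3 (kC 1 b43 (kC 1 b41 (kC 1 b39 k0))))))); clear * - this; omega⟩
          exact T0_81 X hb ⟨by have := kA 3 h806 (kA 1 h805 (kA 2 h802 (kA 1 h801 (kA 1 h800 (kA 1 h799 (kB 2 h4 (kC 2 b33 (kC 4 b17 k0)))))))); clear * - this; omega, by have := kB 1 h819 (kA 39 h806 (kA 26 h802 (kA 7 h800 (kA 36 h799 (kA 25 h3 (kC 27 b33 (kC 52 b17 (kC 33 b6 k0)))))))); clear * - this; omega, by clear * - h812; omega, by have := kA 3 h806 (kA 2 h802 (kA 1 h800 (kB 3 h4 (kA 2 h3 (kC 2 b33 (kC 4 b17 k0)))))); clear * - this; omega, by have := kB 5 h812 (kA 1 h805 (kA 3 h804 (kA 2 h3 (kA 5 h1 k0)))); clear * - this; omega, by clear *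 - b36 h3 h816; omega, by clear * - h810; omega, by clear * - h813; omega, by clear * - h816; omega, by clear * - h819; omega, by clear * - h807; omega, by have := kB 1 h819 (kB 6 h813 (kB 2 h810 (kA 2 h806 (kA 6 h805 (kA 3 h804 (kA 4 h802 (kA 7 h799 (kA 4 h3 (kC 4 b44 (kC 7 b36 k0)))))))))); clear * - this; omega, by have := kB 1 h816 (kB 1 h812 (kB 2 h810 (kA 2 h805 (kA 8 h800 (kA 1 h799 (kB 5 h4 (kC 2 b44 (kC 2 b42 (kC 2 b41 k0))))))))); clear * - this; omega⟩
        rcases lt_or_ge (N - i - b - 2*l - m - c - d - 2*U - 4) 0 with h820 | h820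
        · exact T0_77 X hb ⟨by have := kA 2 h820 (kA 2 h802 (kA 2 h800 (kA 1 h799 (kB 1 h4 (kA 2 h3 (kC 2 b33 k0)))))); clear * - this; omega, by have := kA 1 h803 (kA 2 h802 (kA 3 h799 (kA 2 h3 (kC 2 b33 (kC 1 b18 (kC 1 b3 k0)))))); clear * - this; omega, by clear * - h806 h820; omega⟩
        exact T0_205 X hb ⟨by clear * - h806; omega, by clear * - h820; omega⟩
      rcases lt_or_ge (3*N + a + b - 2*m + 3*c + 2*d - 3) 0 with h821 | h821
      · rcases lt_or_ge (-N - a - b + 2*m - c + Y + 1) 0 with h822 | h822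
        · rcases lt_or_ge (N - m + d - 2) 0 with h823 | h823
          · rcases lt_or_ge (-N + a + b - c - d - Y - 1) 0 with h824 | h824
            · rcases lt_or_ge (-i + 2*a + 2*b - 2*l - 2*c - 2*d - L - 2*U - 4) 0 with h825 | h825
              · rcases lt_or_ge (2*a + b - 2*l - c - d - 2*U + V + Y - 3) 0 with h826 | h826
                · exact T0_56 X hb ⟨by have := kA 2 h825 (kA 14 h824 (kA 12 h823 (kA 14 h822 (kA 5 h821 (kB 1 h805 (kA 10 h804 (kA 3 h803 (kA 6 h802 (kB 3 h4 (kC 2 b39 (kC 5 b36 k0))))))))))); clear * - this; omega, by have := kA 2 h826 (kA 2 h823 (kA 1 h804 (kA 1 h799 (kC 1 b41 (kC 1 b35 k0))))); clear * - this; omega⟩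
                rcases lt_or_ge (2*N - b - 2*m + c + d - V - Y - 3) 0 with h827 | h827
                · exact T0_153 X hb ⟨by have := kA 2 h825 (kA 2 h823 (kA 2 h822 (kA 2 h804 (kA 2 h802 (kA 1 h799 (kB 1 h4 (kC 1 b18 k0))))))); clear * - this; omega, by have := kA 4 h827 (kA 2 h825 (kA 6 h824 (kA 6 h823 (kA 6 h822 (kA 6 h804 (kA 2 h802 (kC 1 b41 (kC 1 b39 (kC 3 b18 k0))))))))); clear * - this; omega, by have := kA 10 h827 (kA 4 h824 (kA 10 h822 (kA 4 h821 (kA 3 h804 (kA 5 h799 (kC 5 b45 (kC 5 b41 (kC 10 b36 k0)))))))); clear * - this; omega, by clear * - b18 h826 h827; omega⟩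
                exact T0_372 X hb ⟨by clear * - h826; omega, by have := kA 1 h825 (kA 1 h823 (kA 1 h822 (kA 1 h804 (kA 1 h800 (kC 1 b41 (kC 1 b18 (kC 1 b17 k0))))))); clear * - this; omega, by have := kB 1 h826 (kA 2 h825 (kA 2 h822 (kA 1 h821 (kB 1 h805 (kA 4 h800 (kB 2 h4 (kC 1 b42 (kC 2 b41 k0)))))))); clear * - this; omega, by clear * - h827; omega⟩
              exact T0_160 X hb ⟨by have := kA 2 h822 (kA 1 h821 (kB 1 h805 (kC 1 b40 k0))); clear * - this; omega, by have := kB 1 h825 (kA 14 h824 (kA 10 h822 (kB 6 h805 (kA 2 h804 (kC 2 b43 (kC 1 b39 k0)))))); clear * - this; omega, by have := kB 5 h825 (kA 4 h824 (kA 4 h823 (kA 4 h822 (kA 8 h821 (kB 2 h4 (kC 2 b44 (kC 4 b39 (kC 3 b38 k0)))))))); clear * - this; omega, by have := kB 1 h825 (kA 4 h824 (kA 2 h822 (kA 1 h821 (kB 1 h805 (kC 1 b43 (kC 1 b39 k0)))))); clear * - this; omega, by have := kA 4 h824 (kA 4 h823 (kA 4 h822 (kA 8 h821 (kA 5 h803 (kA 2 h802 (kA 8 h800 (kB 5 h4 (kC 2 b39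 (kC 5 b19 k0))))))))); clear * - this; omega, by have := kB 1 h825 (kA 6 h824 (kA 2 h823 (kA 2 h822 (kA 2 h821 (kA 1 h804 (kA 1 h803 (kC 1 b43 (kC 1 b42 (kC 1 b39 (kC 1 b19 k0)))))))))); clear * - this; omega, by have := kA 3 h824 (kA 1 h823 (kA 1 h822 (kA 1 h804 (kC 1 b42 (kC 1 b17 (kC 1 b1 k0)))))); clear * - this; omega, by have := kA 4 h824 (kA 2 h823 (kA 2 h822 (kA 2 h804 (kA 2 h800 (kB 2 h4 (kC 1 b44 (kC 2 b42 (kC 1 b41 k0)))))))); clear * - this; omega, by have := kB 1 h825 (kA 6 h824 (kA 6 h822 (kA 3 h804 (kA 2 h802 (kA 3 h799 (kB 2 h4 (kC 4 b44 (kC 4 b36 (kC 4 b17 k0))))))))); clear * - this; omega, by have := kA 2 h823 (kA 2 h822 (kA 2 h804 (kA 2 h800 (kB 2 h4 (kC 1 b44 (kC 1 b41 k0)))))); clear * - this; omega, by have := kB 1 h825 (kA 2 h824 (kA 2 h822 (kA 1 h804 (kB 1 h4 (kC 1 b44 (kC 1 b36 (kC 2 b17 k0))))))); clear * - this; omega, by clear * - h825; omega, by have := kB 1 h825 (kA 2 h824 (kA 2 h822 (kA 1 h804 (kA 2 h802 (kB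 1 h4 (kC 1 b35 (kC 2 b18 (kC 6 b17 k0)))))))); clear * - this; omega⟩
            rcases lt_or_ge (2*N + l + 2*c + 2*d - L + 2*Y - 1) 0 with h828 | h828
            · rcases lt_or_ge (4*N + Q - i - 2*a - 2*b - 4*m + 2*c + 2*d + 2*V - 2*Y - 5) 0 with h829 | h829
              · rcases lt_or_ge (-2*N + Q - i + 2*a + 2*b - 2*l - 4*c - 2*d - 2*U - 3) 0 with h830 | h830
                · exact T0_107 X hb ⟨by have := kA 3 h830 (kA 2 h829 (kA 2 h828 (kA 4 h804 (kA 2 h802 (kA 2 h801 (kA 4 h799 (kB 2 h4 (kC 2 b17 (kC 5 b3 k0))))))))); clear * - this; omega, by have := kA 1 h823 (kA 4 h804 (kA 2 h802 (kA 1 h801 (kB 1 h4 (kC 2 b39 (kC 5 b18 (kC 8 b17 k0))))))); clear * - this; omega⟩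
                exact T0_98 X hb ⟨by clear * - h830; omega, by have := kA 1 h829 (kA 2 h828 (kA 2 h801 (kA 4 h799 (kC 3 b44 (kC 1 b41 (kC 2 b39 (kC 4 b17 (kC 1 b3 k0)))))))); clear * - this; omega, by have := kA 1 h829 (kA 1 h828 (kA 2 h823 (kB 4 h805 (kA 3 h804 (kA 2 h803 (kA 2 h802 (kA 8 h801 (kA 1 h799 (kC 1 b45 (kC 2 b39 k0)))))))))); clear * - this; omega⟩
              rcases lt_or_ge (-2*N + a + b + 2*m - c - d - V + Y + 1) 0 with h831 | h831
              · exact T0_11 X hb ⟨by have := kA 2 h823 (kA 2 h800 (kB 2 h4 (kA 2 h3 (kC 1 b45 (kC 1 b44 (kC 2 b39 k0)))))); clear * - this; omega, by have := kA 8 h831 (kB 5 h829 (kA 1 h828 (kA 8 h804 (kA 5 h803 (kA 6 h800 (kA 3 h799 (kC 10 b41 (kC 9 b35 (kC 8 b17 k0))))))))); clear * - this; omega, by have := kA 2 h831 (kA 1 h823 (kA 1 h804 (kA 1 h803 (kA 1 h799 (kC 1 b41 (kC 1 b39 (kC 1 b17 (kC 1 b3 k0)))))))); clear * - this; omega, by have := kA 2 h831 (kB 3 h829 (kA 6 h823 (kA 2 h804 (kA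 3 h803 (kA 2 h800 (kB 1 h4 (kA 4 h3 (kC 4 b41 (kC 4 b39 k0))))))))); clear * - this; omega, by have := kA 1 h828 (kA 1 h804 (kA 2 h800 (kA 1 h799 (kC 1 b41 (kC 1 b18 k0))))); clear * - this; omega⟩
              exact T0_57 X hb ⟨by clear * - h829; omega, by have := kB 9 h831 (kB 8 h829 (kA 2 h828 (kB 1 h824 (kA 3 h823 (kA 5 h804 (kA 1 h803 (kA 7 h801 (kC 6 b41 (kC 4 b38 (kC 9 b17 k0)))))))))); clear * - this; omega, by have := kA 2 h821 (kA 1 h803 (kA 2 h802 (kA 2 h801 (kA 1 h799 (kC 1 b38 (kC 1 b33 k0)))))); clear * - this; omega, by have := kB 4 h831 (kB 16 h829 (kA 20 h828 (kA 8 h821 (kA 12 h804 (kA 5 h803 (kA 12 h802 (kA 32 h801 (kA 19 h799 (kA 30 h2 (kC 13 b44 (kC 15 b41 (kC 20 b39 k0)))))))))))); clear * - this; omega, by clear * - h831; omega⟩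
            rcases lt_or_ge (2*a + 2*b + m - L + 2*Y - 1) 0 with h832 | h832
            · rcases lt_or_ge (N - i - a - b - l - 2) 0 with h833 | h833
              · exact T0_35 X hb ⟨by have := kA 2 h833 (kA 3 h832 (kB 3 h828 (kA 14 h823 (kA 7 h821 (kB 1 h805 (kA 10 h804 (kA 5 h803 (kA 2 h802 (kA 14 h801 (kA 1 h799 (kC 1 b45 (kC 8 b39 k0)))))))))))); clear * - this; omega, by have := kA 1 h833 (kA 1 h832 (kA 1 h823 (kA 1 h804 (kA 1 h801 (kC 1 b41 (kC 2 b17 k0)))))); clear * - this; omega⟩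
              exact T0_107 X hb ⟨by clear * - h833; omega, by have := kA 1 h823 (kA 4 h804 (kA 2 h802 (kA 1 h801 (kB 1 h4 (kC 2 b39 (kC 5 b18 (kC 8 b17 k0))))))); clear * - this; omega⟩
            exact T0_154 X hb ⟨by have := kB 13 h828 (kB 26 h824 (kA 56 h821 (kA 4 h804 (kA 24 h802 (kA 64 h801 (kA 12 h800 (kA 42 h799 (kC 12 b45 (kC 24 b44 (kC 73 b33 k0)))))))))); clear * - this; omega, by have := kA 2 h823 (kA 2 h821 (kA 1 h804 (kA 2 h801 (kA 1 h799 (kC 1 b44 (kC 1 b41 (kC 1 b39 (kC 1 b38 k0)))))))); clear * - this; omega, by clear * - h824; omega, by have := kA 2 h823 (kA 2 h804 (kA 2 h801 (kA 2 h799 (kC 2 b44 (kC 1 b42 (kC 1 b41 (kC 1 b39 k0))))))); clear * - this; omega, by clear * - h828; omega, by have := kA 2 h823 (kA 2 h822 (kA 2 h804 (kA 2 h800 (kB 2 h4 (kC 1 b44 (kC 1 b41 k0)))))); clear * - this; omega, by clear * - h832; omega⟩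
          rcases lt_or_ge (2*N - i - l - L - 3) 0 with h834 | h834
          · rcases lt_or_ge (m + c + Y) 0 with h835 | h835
            · rcases lt_or_ge (2*a + b - 2*l - c - d - 2*U + V + Y - 3) 0 with h836 | h836
              · rcases lt_or_ge (Q - i + a + b - 2*l - m - 2*c - d - 2*U + V - 4) 0 with h837 | h837
                · exact T0_17 X hb ⟨by have := kA 5 h821 (kB 13 h805 (kA 5 h804 (kA 4 h802 (kA 28 h801 (kA 2 h800 (kA 7 h799 (kC 2 b45 (kC 4 b44 (kC 10 b33 k0))))))))); clear * - this; omega, by have := kA 4 h834 (kA 1 h821 (kB 1 h805 (kA 2 h801 (kA 4 h800 (kA 2 h799 (kC 4 b43 (kC 4 b41 k0))))))); clear * - this; omega, by have := kA 2 h836 (kA 1 h834 (kA 2 h800 (kA 1 h799 (kB 1 h4 (kC 2 b41 (kC 1 b33 (kC 2 b17 k0))))))); clear * - this; omega, by have := kA 2 h834 (kA 4 h822 (kA 2 h804 (kA 3 h803 (kA 4 h800 (kA 4 h799 (kB 1 h4 (kC 6 b41 (kC 6 b17 (kC 3 b3 k0))))))))); clear * - this; omega, by have := kA 2 h822 (kA 1 h804 (kA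 2 h800 (kA 1 h799 (kC 1 b43 (kC 2 b41 (kC 1 b18 (kC 2 b17 k0))))))); clear * - this; omega⟩
                exact T0_45 X hb ⟨by have := kB 1 h837 (kA 4 h836 (kA 1 h804 (kA 1 h803 (kA 2 h799 (kC 2 b41 (kC 2 b33 (kC 2 b17 k0))))))); clear * - this; omega, by have := kB 1 h837 (kA 2 h821 (kA 1 h803 (kA 2 h801 (kA 2 h800 (kA 1 h799 (kC 2 b43 (kC 2 b41 (kC 1 b39 (kC 1 b38 k0))))))))); clear * - this; omega, by have := kA 1 h836 (kA 1 h835 (kA 1 h800 (kA 1 h799 (kC 1 b41 (kC 1 b33 (kC 1 b6 k0)))))); clear * - this; omega, by clear * - h837; omega⟩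
              exact T0_372 X hb ⟨by clear * - h836; omega, by have := kA 1 h835 (kA 1 h803 (kA 1 h801 (kA 1 h800 (kA 1 h799 (kC 1 b41 (kC 1 b33 (kC 1 b17 (kC 1 b3 k0)))))))); clear * - this; omega, by have := kB 1 h836 (kA 2 h834 (kB 2 h805 (kA 2 h802 (kA 2 h801 (kA 2 h799 (kC 1 b43 (kC 2 b40 k0))))))); clear * - this; omega, by have := kA 2 h835 (kA 1 h803 (kA 2 h802 (kA 2 h801 (kA 3 h799 (kC 2 b33 (kC 1 b18 (kC 1 b3 k0))))))); clear * - this; omega⟩
            rcases lt_or_ge (Q - i - 2*m - 2*c - 2*Y - 3) 0 with h838 | h838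
            · exact T0_120 X hb ⟨by have := kA 1 h834 (kA 2 h802 (kA 2 h799 (kC 1 b33 (kC 3 b18 (kC 4 b17 k0))))); clear * - this; omega, by have := kA 2 h822 (kA 1 h804 (kA 1 h799 (kC 1 b41 (kC 1 b33 (kC 1 b18 (kC 2 b17 k0)))))); clear * - this; omega, by have := kA 1 h838 (kA 2 h834 (kA 1 h804 (kA 1 h803 (kA 2 h802 (kC 1 b43 k0))))); clear * - this; omega, by have := kB 2 h823 (kA 2 h801 (kA 4 h799 (kC 2 b44 (kC 1 b43 (kC 1 b41 (kC 2 b39 (kC 1 b33 k0))))))); clear * - this; omega, by have := kB 2 h835 (kA 1 h834 (kB 1 h823 (kA 2 h822 (kA 1 h821 (kB 1 h805 (kA 1 h801 (kA 1 h800 (kC 1 b43 (kC 1 b41 k0))))))))); clear * - this; omega, by clear * - b3 h822 h838; omega⟩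
            exact T0_206 X hb ⟨by clear * - h838; omega, by have := kB 2 h838 (kB 4 h835 (kA 2 h834 (kA 4 h822 (kA 3 h804 (kA 1 h803 (kC 2 b41 (kC 2 b17 (kC 3 b7 k0)))))))); clear * - this; omega, by have := kB 1 h835 (kA 1 h834 (kB 1 h823 (kA 1 h822 (kA 2 h821 (kA 1 h803 (kA 2 h802 (kA 1 h801 (kA 2 h799 (kC 1 b44 (kC 2 b33 k0)))))))))); clear * - this; omega, by have := kB 1 h838 (kB 2 h835 (kA 2 h834 (kA 4 h821 (kA 1 h804 (kA 3 h803 (kA 6 h802 (kA 6 h801 (kA 4 h799 (kC 1 b44 (kC 2 b43 (kC 5 b33 k0))))))))))); clear * - this; omega, by clear * - h835; omega⟩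
          rcases lt_or_ge (2*a + 2*b - 2*c - L - 2) 0 with h839 | h839
          · rcases lt_or_ge (N - i - a - b - l - 2) 0 with h840 | h840
            · rcases lt_or_ge (-N - Q + i + b + l + m + 2) 0 with h841 | h841
              · exact T0_56 X hb ⟨by have := kA 8 h840 (kA 6 h839 (kB 3 h834 (kA 2 h821 (kA 6 h804 (kA 1 h803 (kA 2 h802 (kA 2 h801 (kB 1 h4 k0)))))))); clear * - this; omega, by have := kA 1 h841 (kA 1 h840 (kA 1 h839 (kA 1 h804 (kA 1 h803 (kA 1 h802 k0))))); clear * - this; omega⟩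
              exact T0_120 X hb ⟨by have := kA 2 h840 (kA 2 h839 (kA 2 h804 (kA 2 h802 (kA 1 h799 (kB 1 h4 (kC 3 b18 (kC 4 b17 k0))))))); clear * - this; omega, by have := kA 1 h839 (kA 2 h822 (kA 2 h804 (kA 1 h803 (kB 1 h4 (kC 1 b41 (kC 1 b19 (kC 2 b17 k0))))))); clear * - this; omega, by clear * - h841; omega, by have := kA 4 h840 (kA 3 h839 (kB 3 h834 (kB 4 h823 (kA 1 h804 (kA 1 h799 k0))))); clear * - this; omega, by have := kA 16 h840 (kA 10 h839 (kB 8 h834 (kA 2 h822 (kA 4 h821 (kA 8 h804 (kA 2 h801 (kC 1 b44 (kC 1 b41 k0)))))))); clear * - this; omega, by have := kA 2 h840 (kA 5 h839 (kA 6 h822 (kA 4 h804 (kA 2 h802 (kA 2 h800 (kC 3 b41 (kC 6 b18 (kC 10 b17 k0)))))))); clear * - this; omega⟩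
            exact T0_107 X hb ⟨by clear * - h840; omega, by have := kB 1 h840 (kA 2 h822 (kA 12 h804 (kA 6 h802 (kA 2 h800 (kB 4 h4 (kC 1 b41 (kC 7 b39 (kC 17 b18 (kC 28 b17 k0))))))))); clear * - this; omega⟩
          rcases lt_or_ge (4*a + 4*b - m - 2*c - L - 3) 0 with h842 | h842
          · rcases lt_or_ge (N - i - a - b - l - 2) 0 with h843 | h843
            · exact T0_35 X hb ⟨by have := kA 22 h843 (kA 12 h842 (kB 1 h839 (kB 5 h834 (kA 8 h822 (kA 4 h821 (kA 15 h804 (kA 2 h803 (kA 4 h801 (kA 6 h800 (kA 3 h799 (kC 4 b41 k0))))))))))); clear * - this; omega, by have := kA 2 h843 (kA 2 h842 (kB 1 h839 (kA 2 h822 (kA 2 h804 (kC 1 b41 (kC 2 b17 k0)))))); clear * - this; omega⟩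
            exact T0_107 X hb ⟨by clear * - h843; omega, by clear * - b36 h839 h843; omega⟩
          exact T0_81 X hb ⟨by have := kA 2 h821 (kA 3 h803 (kA 4 h802 (kA 4 h801 (kA 5 h799 (kC 4 b33 (kC 2 b17 (kC 3 b3 k0))))))); clear * - this; omega, by have := kA 8 h821 (kA 2 h802 (kA 2 h801 (kA 6 h800 (kA 6 h799 (kC 1 b45 (kC 2 b44 (kC 5 b33 (kC 8 b6 k0)))))))); clear * - this; omega, by have := kA 2 h821 (kA 1 h803 (kA 2 h802 (kA 2 h801 (kA 3 h799 (kC 1 b44 (kC 3 b33 (kC 1 b3 k0))))))); clear * - this; omega, by clear * - h801 h805; omega, by have := kB 2 h834 (kA 2 h821 (kA 2 h801 (kC 1 b39 (kC 1 b38 k0)))); clear * - this; omega, by have := kA 2 h822 (kA 1 h821 (kB 1 h805 (kC 1 b40 k0))); clear * - this; omega, by clear * - h823; omega, by clear * - h839; omega, by clear * - h834; omega, by clear * - h842; omega, by have := kB 1 h834 (kA 2 h822 (kA 1 h804 (kA 2 h800 (kB 1 h4 (kC 1 b41 (kC 1 b18 (kC 2 b17 k0))))))); clear * - this; omega,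 by have := kB 1 h842 (kB 1 h839 (kB 4 h823 (kA 2 h802 (kA 2 h801 (kA 2 h800 (kA 2 h799 (kC 1 b39 (kC 4 b18 (kC 6 b17 k0))))))))); clear * - this; omega, by have := kB 2 h834 (kB 2 h823 (kA 2 h822 (kA 2 h800 (kA 4 h799 (kC 3 b44 (kC 1 b41 (kC 2 b39 k0))))))); clear * - this; omega⟩
        rcases lt_or_ge (-N + a + b + m - c + Y) 0 with h844 | h844
        · exact T0_328 X hb ⟨by clear * - h804 h822 h844; omega, by clear * - h804; omega, by have := kA 9 h844 (kB 1 h822 (kA 5 h821 (kB 11 h805 (kA 4 h804 (kA 8 h803 (kA 16 h801 (kA 12 h800 (kA 6 h799 (kC 4 b41 (kC 4 b39 (kC 8 b19 k0))))))))))); clear * - this; omega, by have := kA 2 h844 (kA 1 h821 (kB 1 h805 (kA 1 h804 (kA 2 h800 (kB 1 h4 (kA 2 h1 (kC 1 b41 (kC 1 b39 k0)))))))); clear * - this; omega⟩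
        rcases lt_or_ge (N + a + b - m + c - Y - 2) 0 with h845 | h845
        · exact T0_126 X hb ⟨by have := kA 5 h845 (kB 3 h844 (kB 8 h805 (kA 16 h801 (kA 4 h800 (kA 2 h799 (kC 8 b43 (kC 4 b41 (kC 4 b39 k0)))))))); clear * - this; omega, by clear * - b6 h845; omega⟩
        exact T0_111 X hb ⟨by clear * - h844; omega, by clear * - h822; omega, by clear * - h845; omega, by have := kB 3 h845 (kB 1 h844 (kB 3 h822 (kA 2 h821 (kA 4 h801 k0)))); clear * - this; omega⟩
      rcases lt_or_ge (N + a + b + l + c + 2*d + 2*U) 0 with h846 | h846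
      · rcases lt_or_ge (3*N + Q - i + a + b - 2*l - 3*m + c + d - 2*U + 2*V - 6) 0 with h847 | h847
        · rcases lt_or_ge (-3*N - a - b + l + 2*m - c - 2*d - V + 2) 0 with h848 | h848
          · rcases lt_or_ge (-V) 0 with h849 | h849
            · exact T0_35 X hb ⟨by have := kA 5 h847 (kA 1 h846 (kB 2 h821 (kB 1 h805 (kA 1 h804 (kA 1 h803 (kA 6 h800 (kA 3 h799 (kA 7 h3 (kC 6 b39 k0))))))))); clear * - this; omega, by clear * - h846 h848 h849; omega⟩
            rcases lt_or_ge (N + a + b + l + c + 2*d + 2*U + 1) 0 with h850 | h850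
            · exact T0_35 X hb ⟨by have := kA 1 h850 (kB 1 h849 (kA 1 h848 (kA 4 h847 (kB 1 h821 (kB 1 h805 (kA 1 h803 (kA 6 h800 (kA 3 h799 (kA 6 h3 (kC 5 b39 k0)))))))))); clear * - this; omega, by clear * - b17 h848 h850; omega⟩
            exact T0_260 X hb ⟨by clear * - h849; omega, by clear * - h821 h846; omega, by have := kA 1 h804 (kA 1 h803 (kC 1 b19 (kC 2 b17 k0))); clear * - this; omega, by clear * - h801 h805 h846; omega, by clear * - h850; omega, by clear * - h846; omega⟩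
          exact T0_261 X hb ⟨by clear * - h848; omega, by have := kA 1 h847 (kB 1 h805 (kA 3 h801 (kC 1 b19 (kC 2 b11 k0)))); clear * - this; omega, by have := kB 2 h821 (kB 1 h805 (kA 2 h3 (kC 1 b17 k0))); clear * - this; omega, by clear * - b17 h821; omega⟩
        exact T0_167 X hb ⟨by have := kA 1 h846 (kA 1 h803 (kA 1 h801 (kA 1 h799 (kC 1 b11 (kC 1 b3 k0))))); clear * - this; omega, by clear * - b11 h801 h846; omega, by clear * - h847; omega⟩
      rcases lt_or_ge (-3*N + a + b + 2*m - 3*c - 2*d + 1) 0 with h851 | h851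
      · exact T0_14 X hb ⟨by have := kB 5 h805 (kA 2 h800 (kA 1 h799 (kC 2 b43 (kC 2 b41 (kC 2 b35 k0))))); clear * - this; omega, by clear * - h821 h851; omega, by have := kA 1 h851 (kB 3 h821 (kB 2 h805 (kA 4 h3 k0))); clear * - this; omega, by have := kA 1 h851 (kA 1 h804 (kC 1 b18 (kC 2 b17 k0))); clear * - this; omega⟩
      exact T0_119 X hb ⟨by clear * - h851; omega, by clear * - h805; omega, by clear * - h821; omega, by clear * - h846; omega, by clear * - h801 h805; omega⟩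
    exact T0_231 X hb ⟨by clear * - h4; omega, by clear * - b4 b7 h799; omega, by clear * - h804; omega, by have := kB 2 h804 (kA 2 h800 (kC 1 b4 (kC 1 b3 k0))); clear * - this; omega⟩
  rcases lt_or_ge (2*N + Q - i + 3*a + 3*b - 3*l - 4*m - 2*c - 4*U + 2*V - 8) 0 with h852 | h852
  · rcases lt_or_ge (-N + a + b + m - 2*c) 0 with h853 | h853
    · rcases lt_or_ge (-a - b + l + 2*c) 0 with h854 | h854
      · rcases lt_or_ge (-4*N - Q + l + 2*m - 2*c - 2*d + L - 2*V + 5) 0 with h855 | h855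
        · exact T0_100 X hb ⟨by have := kA 1 h855 (kA 1 h854 (kA 1 h852 (kA 1 h802 (kA 3 h800 (kA 1 h799 (kA 4 h3 (kC 2 b39 (kC 1 b36 (kC 1 b18 k0))))))))); clear * - this; omega, by have := kA 1 h855 (kA 1 h854 (kA 1 h852 (kA 1 h802 (kA 1 h800 (kA 1 h799 (kA 2 h3 (kC 1 b39 (kC 1 b35 k0)))))))); clear * - this; omega⟩
        exact T0_35 X hb ⟨by clear * - h855; omega, by have := kA 2 h854 (kA 2 h853 (kC 1 b42 (kC 1 b41 (kC 1 b39 (kC 4 b17 k0))))); clear * - this; omega⟩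
      exact T0_106 X hb (by clear * - h854; omega)
    rcases lt_or_ge (N - i - a - b - l - 2) 0 with h856 | h856
    · exact T0_106 X hb (by have := kA 2 h856 (kA 1 h852 (kB 1 h803 (kA 2 h800 (kB 1 h4 k0)))); clear * - this; omega)
    exact T0_107 X hb ⟨by clear * - h856; omega, by clear * - h853; omega⟩
  rcases lt_or_ge (-2*N - 3*a - 3*b + 4*l + 4*m + 2*c + 4*U - 2*V + 7) 0 with h857 | h857
  · exact T0_35 X hb ⟨by have := kA 1 h857 (kB 2 h803 (kA 2 h801 (kA 2 h800 (kA 3 h799 (kA 6 h2 (kC 2 b39 (kC 2 b18 (kC 2 b3 k0)))))))); clear * - this; omega, by have := kA 1 h857 (kB 2 h803 (kA 2 h802 (kA 2 h801 (kA 1 h799 (kA 2 h2 (kC 2 b33 (kC 4 b18 (kC 8 b17 k0)))))))); clear * - this; omega⟩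
  exact T0_290 X hb ⟨by have := kB 2 h803 (kA 1 h799 (kA 2 h2 (kC 1 b44 (kC 1 b33 (kC 1 b18 k0))))); clear * - this; omega, by have := kB 5 h857 (kB 4 h803 (kA 4 h802 (kA 4 h801 (kA 1 h799 (kB 1 h4 (kA 4 h2 (kC 4 b33 (kC 2 b17 k0)))))))); clear * - this; omega, by clear * - h803; omega, by clear * - h852; omega, by have := kB 1 h803 (kA 2 h799 (kA 2 h2 (kC 1 b44 (kC 1 b33 (kC 1 b18 (kC 1 b3 k0)))))); clear * - this; omega, by clear * - h857; omega, by clear * - b3 h799; omega⟩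

theorem M22 (X : C W N Q i a b l m c d L U V Y) (hb : B N Q i a b l m c d L U V Y)
    (h2 : (3*N + Q - i - 2*l - 3*m + c + d - 2*U + V - 6) < 0)
    (h3 : (N + c + d - 1) ≥ 0)
    (h907 : (-N + l + 2*m - c + d + 2*U + 2) < 0)
    (h908 : (l + m + d + 2*U + 1) ≥ 0)
    (h914 : (-2*N + 2*m - 2*c - d + 1) < 0)
    (h916 : (-N - l - c - 2*d - 2*U + V - 1) < 0)
    (h917 : (-3*N + 3*m - 3*c - 2*d + 2) < 0)
    (h918 : (m + d + Y + 1) ≥ 0) : False := by
  have b2 := hb.b2
  have b3 := hb.b3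
  have b4 := hb.b4
  have b7 := hb.b7
  have b9 := hb.b9
  have b11 := hb.b11
  have b17 := hb.b17
  have b18 := hb.b18
  have b19 := hb.b19
  have b21 := hb.b21
  have b32 := hb.b32
  have b33 := hb.b33
  have b35 := hb.b35
  have b39 := hb.b39
  have b41 := hb.b41
  have b42 := hb.b42
  have b43 := hb.b43
  have b45 := hb.b45
  rcases lt_or_ge (-m - d - Y - 1) 0 with h1111 | h1111
  · rcases lt_or_ge (N + a - l - m - U - V - 3) 0 with h1112 | h1112
    · rcases lt_or_ge (Q - i - l - m - 2*d - 3) 0 with h1113 | h1113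
      · rcases lt_or_ge (N + Q - i - a + c + 2*d + V + Y - 1) 0 with h1114 | h1114
        · rcases lt_or_ge (3*N + Q - i - 2*l - 3*m + c + d - 2*U + 2*V - 6) 0 with h1115 | h1115
          · rcases lt_or_ge (N - a - b + c + d + Y - 1) 0 with h1116 | h1116
            · rcases lt_or_ge (-2*a - 2*b + l + 3*m - L + 2*U + 2*Y + 2) 0 with h1117 | h1117
              · rcases lt_or_ge (a - V) 0 with h1118 | h1118
                · rcases lt_or_ge (i + 2*a - 2*V) 0 with h1119 | h1119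
                  · exact T0_34 X hb ⟨by have := kA 2 h1116 (kA 2 h1115 (kA 2 h1111 (kA 2 h917 (kA 2 h907 (kC 1 b33 (kC 4 b17 (kC 1 b11 (kC 1 b7 k0)))))))); clear * - this; omega, by clear * - b18 h1119; omega⟩
                  rcases lt_or_ge (-2*N - i - l - 2*c - 2*d + L - 2*U - 2*V) 0 with h1120 | h1120
                  · rcases lt_or_ge (N + a - l - m - U - 3) 0 with h1121 | h1121
                    · rcases lt_or_ge (-2*N - i - l - 2*c - 2*d + L - 2*U - V) 0 with h1122 | h1122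
                      · rcases lt_or_ge (m + d - V + Y + 1) 0 with h1123 | h1123
                        · rcases lt_or_ge (-a - b + l + c) 0 with h1124 | h1124
                          · rcases lt_or_ge (-a) 0 with h1125 | h1125
                            · exact T0_70 X hb ⟨by have := kA 3 h1125 (kA 1 h1124 (kA 2 h1121 (kA 1 h1120 (kA 1 h1115 (kA 1 h1113 (kA 3 h907 (kC 1 b32 (kC 1 b7 k0)))))))); clear * - this; omega, by clear * - h1124 h1125; omega, by have := kA 1 h1125 (kA 1 h1124 (kA 2 h1121 (kA 1 h907 (kB 1 h3 k0)))); clear * - this; omega⟩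
                            rcases lt_or_ge (-2*b + m - 2*c) 0 with h1126 | h1126
                            · rcases lt_or_ge (2*a + b - l - c - 2) 0 with h1127 | h1127
                              · exact T0_180 X hb ⟨by clear * - h1125; omega, by clear * - h3 h907 h1121; omega, by clear * - b2 h1124; omega, by clear * - h1127; omega⟩
                              exact T0_70 X hb ⟨by have := kB 1 h1127 (kA 2 h1121 (kA 1 h1120 (kA 1 h1115 (kA 1 h1113 (kA 3 h907 (kC 1 b32 (kC 1 b7 (kC 2 b2 k0)))))))); clear * - this; omega, by clear * - h1127; omega, by have := kB 1 h1127 (kA 2 h1121 (kA 1 h907 (kB 1 h3 k0))); clear * - this; omega⟩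
                            exact T0_281 X hb ⟨by have := kA 2 h1124 (kA 2 h1121 (kA 1 h907 (kB 1 h3 (kC 2 b2 k0)))); clear * - this; omega, by clear * - h1126; omega, by clear * - h3 h907 h1121; omega, by clear * - h1125; omega⟩
                          exact T0_13 X hb ⟨by clear * - h1124; omega, by have := kA 2 h1122 (kA 6 h1121 (kA 1 h1117 (kA 1 h1115 (kA 2 h1111 (kA 5 h907 (kC 1 b33 (kC 2 b11 (kC 1 b7 (kC 6 b2 k0))))))))); clear * - this; omega⟩
                        rcases lt_or_ge (-m - d + V - Y - 1) 0 with h1128 | h1128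
                        · rcases lt_or_ge (2*a + 2*b - l - 2) 0 with h1129 | h1129
                          · exact T0_13 X hb ⟨by have := kA 1 h1129 (kA 2 h1121 (kA 1 h907 (kB 1 h3 (kC 2 b2 k0)))); clear * - this; omega, by have := kA 2 h1128 (kA 6 h1121 (kA 2 h1120 (kA 1 h1117 (kA 1 h1115 (kA 5 h907 (kC 1 b33 (kC 2 b11 (kC 1 b7 (kC 6 b2 k0))))))))); clear * - this; omega⟩
                          rcases lt_or_ge (-a) 0 with h1130 | h1130
                          · rcases lt_or_ge (-a - b + l + c) 0 with h1131 | h1131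
                            · exact T0_70 X hb ⟨by have := kA 1 h1131 (kA 3 h1130 (kA 2 h1121 (kA 1 h1120 (kA 1 h1115 (kA 1 h1113 (kA 3 h907 (kC 1 b32 (kC 1 b7 k0)))))))); clear * - this; omega, by clear * - h1130 h1131; omega, by have := kA 1 h1131 (kA 1 h1130 (kA 2 h1121 (kA 1 h907 (kB 1 h3 k0)))); clear * - this; omega⟩
                            exact T0_13 X hb ⟨by clear * - h1131; omega, by clear * - h1129 h1131; omega⟩
                          rcases lt_or_ge (-2*b + m - 2*c) 0 with h1132 | h1132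
                          · rcases lt_or_ge (2*a + b - l - c - 2) 0 with h1133 | h1133
                            · exact T0_277 X hb ⟨by have := kA 2 h1121 (kA 2 h1118 (kA 2 h907 (kC 1 b45 (kC 1 b33 (kC 1 b7 (kC 4 b2 k0)))))); clear * - this; omega, by have := kA 1 h1132 (kA 1 h1113 (kC 1 b7 (kC 2 b2 k0))); clear * - this; omega, by have := kA 2 h1114 (kA 2 h1112 (kA 2 h1111 (kA 2 h914 (kC 1 b42 (kC 1 b41 (kC 1 b32 k0)))))); clear * - this; omega⟩
                            exact T0_70 X hb ⟨by have := kB 1 h1133 (kA 2 h1121 (kA 1 h1120 (kA 1 h1115 (kA 1 h1113 (kA 3 h907 (kC 1 b32 (kC 1 b7 (kC 2 b2 k0)))))))); clear * - this; omega, by clear * - h1133; omega, by have := kB 1 h1133 (kA 2 h1121 (kA 1 h907 (kB 1 h3 k0))); clear * - this; omega⟩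
                          exact T0_281 X hb ⟨by clear * - h1129; omega, by clear * - h1132; omega, by clear * - h3 h907 h1121; omega, by clear * - h1130; omega⟩
                        exact T0_280 X hb ⟨by clear * - h1123; omega, by clear * - h1128; omega, by clear * - h1111 h1128; omega, by have := kB 8 h1128 (kA 2 h1116 (kA 1 h1115 (kA 8 h1111 (kA 3 h907 (kC 1 b41 (kC 1 b32 k0)))))); clear * - this; omega, by have := kB 2 h1128 (kA 2 h1111 (kA 1 h914 (kB 1 h908 k0))); clear * - this; omega, by have := kB 1 h1128 (kA 1 h1111 (kB 1 h908 (kA 1 h907 k0))); clear * - this; omega, by have := kB 2 h1128 (kA 4 h1121 (kA 1 h1115 (kA 2 h907 (kB 1 h3 (kC 1 b41 (kC 1 b33 (kC 2 b7 (kC 4 b2 k0)))))))); clear * - this; omega, by clear * - b11 h907 h1115; omega, by have := kB 2 h1128 (kA 2 h1115 (kA 4 h1111 (kA 2 h907 (kC 1 b7 k0)))); clear * - this; omega, by have := kB 4 h1128 (kA 1 h1117 (kA 4 h1111 (kA 2 h916 (kC 1 b45 (kC 1 b41 (kC 1 b39 k0))))));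 clear * - this; omega⟩
                      rcases lt_or_ge (-2*a + V - 1) 0 with h1134 | h1134
                      · rcases lt_or_ge (-a - b + l + c) 0 with h1135 | h1135
                        · exact T0_70 X hb ⟨by have := kA 2 h1135 (kA 3 h1134 (kB 3 h1122 (kA 4 h1121 (kA 5 h1120 (kA 2 h1115 (kA 2 h1113 (kA 6 h907 (kC 2 b32 (kC 2 b7 k0))))))))); clear * - this; omega, by have := kA 2 h1135 (kA 1 h1134 (kB 1 h1122 (kA 1 h1120 k0))); clear * - this; omega, by have := kA 2 h1135 (kA 1 h1134 (kB 1 h1122 (kA 4 h1121 (kA 1 h1120 (kA 2 h907 (kB 2 h3 k0)))))); clear * - this; omega⟩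
                        exact T0_13 X hb ⟨by clear * - h1135; omega, by have := kA 3 h1134 (kB 1 h1122 (kA 6 h1121 (kA 2 h1120 (kA 1 h1117 (kA 2 h907 (kC 1 b41 (kC 1 b33 (kC 1 b11 k0)))))))); clear * - this; omega⟩
                      exact T0_369 X hb ⟨by clear * - h1119 h1120 h1122; omega, by clear * - h1134; omega, by clear * - h1122; omega, by have := kB 4 h1122 (kA 4 h1120 (kA 2 h1116 (kA 2 h1115 (kA 2 h1111 (kA 1 h917 (kA 1 h916 (kA 2 h907 (kC 1 b33 (kC 1 b7 k0))))))))); clear * - this; omega⟩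
                    exact T0_31 X hb ⟨by have := kB 2 h1121 (kA 2 h1116 (kA 2 h1115 (kA 4 h1112 (kA 2 h1111 (kA 2 h917 (kA 2 h907 (kC 1 b33 (kC 1 b11 (kC 1 b7 k0))))))))); clear * - this; omega, by clear * - h1121; omega⟩
                  exact T0_220 X hb ⟨by clear * - h1120; omega, by clear * - h1119; omega, by clear * - h1118; omega, by have := kA 2 h1116 (kA 2 h1111 (kA 1 h917 (kA 1 h914 (kA 1 h907 (kA 2 h2 (kC 1 b33 (kC 1 b7 k0))))))); clear * - this; omega⟩
                rcases lt_or_ge (-4*N - Q + i + 2*b + l + 2*m - 2*c - 2*d + 3) 0 with h1136 | h1136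
                · rcases lt_or_ge (-2*N - 2*a - 2*b + l + 3*m + L + 2*U + 2*Y + 5) 0 with h1137 | h1137
                  · rcases lt_or_ge (-2*N - a + b + m - c - 2*d - V) 0 with h1138 | h1138
                    · rcases lt_or_ge (i + 2*a - 1) 0 with h1139 | h1139
                      · exact T0_98 X hb ⟨by have := kB 3 h1118 (kA 1 h1117 (kA 1 h1114 (kA 4 h1112 (kA 1 h1111 (kA 1 h907 (kC 1 b41 (kC 2 b7 k0))))))); clear * - this; omega, by have := kA 1 h1139 (kA 2 h1138 (kA 2 h1112 (kA 2 h907 (kC 1 b43 (kC 1 b41 (kC 1 b33 (kC 1 b18 k0))))))); clear * - this; omega, by have := kA 3 h1139 (kB 4 h1118 (kA 2 h1116 (kA 4 h1114 (kA 2 h1112 (kA 4 h1111 (kC 1 b41 (kC 1 b32 k0))))))); clear * - this; omega⟩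
                      rcases lt_or_ge (N + a - l - m - U - 3) 0 with h1140 | h1140
                      · exact T0_98 X hb ⟨by have := kB 3 h1118 (kA 1 h1117 (kA 1 h1114 (kA 4 h1112 (kA 1 h1111 (kA 1 h907 (kC 1 b41 (kC 2 b7 k0))))))); clear * - this; omega, by have := kA 4 h1140 (kA 2 h1138 (kA 2 h907 (kC 1 b43 (kC 1 b41 (kC 1 b33 k0))))); clear * - this; omega, by clear * - b11 h907 h1115; omega⟩
                      exact T0_31 X hb ⟨by have := kB 2 h1140 (kB 2 h1118 (kA 1 h1117 (kA 2 h1115 (kA 6 h1112 (kA 2 h917 (kC 1 b41 (kC 1 b33 (kC 1 b21 (kC 1 b7 k0))))))))); clear * - this; omega, by clear * - h1140; omega⟩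
                    rcases lt_or_ge (2*N + Q - i - a - b - m + c + 2*d + V - 2) 0 with h1141 | h1141
                    · rcases lt_or_ge (a + b + c - 1) 0 with h1142 | h1142
                      · exact T0_31 X hb ⟨by have := kA 2 h1142 (kA 3 h1141 (kB 1 h1138 (kA 2 h1136 (kB 2 h1118 (kA 1 h1117 (kA 2 h1116 (kA 6 h1112 (kA 4 h1111 (kA 2 h917 (kC 1 b21 k0)))))))))); clear * - this; omega, by have := kA 1 h1142 (kA 1 h1141 (kA 1 h1136 (kB 2 h1118 (kA 1 h1117 (kA 3 h1112 (kC 1 b41 k0)))))); clear * - this; omega⟩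
                      exact T0_13 X hb ⟨by have := kA 1 h1136 (kB 2 h1118 (kA 1 h1115 (kA 1 h1113 (kA 4 h1112 (kA 3 h907 (kC 1 b7 k0)))))); clear * - this; omega, by clear * - h1142; omega⟩
                    rcases lt_or_ge (a + b - 2*l - m - c - 2*d - 2*U + V - 4) 0 with h1143 | h1143
                    · exact T0_34 X hb ⟨by have := kB 4 h1118 (kA 1 h1117 (kA 2 h1114 (kA 6 h1112 (kA 2 h1111 (kA 2 h917 (kC 1 b41 (kC 1 b33 (kC 1 b21 (kC 1 b7 k0))))))))); clear * - this; omega, by clear * - h1112 h1138 h1143; omega⟩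
                    exact T0_43 X hb ⟨by have := kB 1 h1143 (kB 3 h1141 (kB 1 h1138 (kA 2 h1116 (kA 4 h1114 (kA 2 h1112 (kA 6 h1111 (kA 2 h917 k0))))))); clear * - this; omega, by clear * - h1138; omega, by clear * - h1141; omega, by clear * - h1143; omega, by clear * - h907 h1115 h1141; omega⟩
                  exact T0_267 X hb ⟨by have := kA 1 h917 (kA 1 h916 (kC 1 b21 (kC 1 b17 k0))); clear * - this; omega, by have := kA 1 h1136 (kA 2 h1116 (kA 1 h1115 (kA 2 h1114 (kA 4 h1112 (kA 6 h1111 (kA 2 h917 (kA 3 h907 (kC 2 b7 k0)))))))); clear * - this; omega, by have := kB 1 h1137 (kB 18 h1118 (kA 6 h1117 (kA 4 h1114 (kA 1 h1113 (kA 22 h1112 (kA 4 h907 (kC 7 b41 (kC 5 b7 k0)))))))); clear * - this; omega, by clear * - h1137; omega⟩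
                rcases lt_or_ge (-a + V) 0 with h1144 | h1144
                · rcases lt_or_ge (-2*N - i - 2*a - l - 2*c - 2*d + L - 2*U) 0 with h1145 | h1145
                  · rcases lt_or_ge (-a - b + l + c) 0 with h1146 | h1146
                    · exact T0_70 X hb ⟨by have := kA 2 h1145 (kA 1 h1144 (kB 1 h1136 (kA 1 h1114 (kA 1 h1113 (kA 2 h1112 (kA 1 h1111 (kA 3 h907 (kC 2 b32 (kC 1 b7 k0))))))))); clear * - this; omega, by clear * - b17 h1144 h1146; omega, by have := kA 2 h1146 (kA 1 h1145 (kA 2 h1144 (kA 1 h1117 (kA 1 h1115 (kA 4 h1112 (kA 2 h1111 (kA 3 h907 (kC 1 b9 (kC 1 b3 k0))))))))); clear * - this; omega⟩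
                    rcases lt_or_ge (a + b + c - 1) 0 with h1147 | h1147
                    · exact T0_31 X hb ⟨by have := kA 2 h1147 (kA 1 h1145 (kA 10 h1144 (kB 4 h1136 (kA 2 h1116 (kA 12 h1112 (kA 2 h1111 (kA 6 h917 (kA 2 h916 (kC 5 b33 (kC 5 b21 k0)))))))))); clear * - this; omega, by have := kA 2 h1147 (kA 1 h1145 (kA 4 h1144 (kA 1 h1117 (kA 4 h1112 (kA 2 h907 (kC 1 b41 (kC 1 b33 (kC 1 b11 k0)))))))); clear * - this; omega⟩
                    exact T0_13 X hb ⟨by clear * - h1146; omega, by clear * - h1147; omega⟩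
                  rcases lt_or_ge (2*N + Q - i - 2*a - 2*l - 2*m - 2*U + 2*V - 5) 0 with h1148 | h1148
                  · rcases lt_or_ge (-2*N - Q - l - 2*c - 2*d + L - 2*U + 1) 0 with h1149 | h1149
                    · exact T0_13 X hb ⟨by have := kA 1 h1149 (kA 2 h1148 (kA 1 h1113 (kA 4 h1112 (kA 4 h907 (kC 1 b39 (kC 1 b9 (kC 2 b7 k0))))))); clear * - this; omega, by have := kA 1 h1149 (kA 1 h1148 (kA 2 h1144 (kA 1 h1117 (kA 4 h1112 (kA 2 h907 (kC 1 b41 (kC 1 b33 (kC 1 b11 k0)))))))); clear * - this; omega⟩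
                    exact T0_56 X hb ⟨by clear * - h1149; omega, by clear * - b3 h1148; omega⟩
                  exact T0_226 X hb ⟨by clear * - h1145; omega, by clear * - h1144; omega, by clear * - h1148; omega, by have := kB 1 h1148 (kA 3 h1144 (kB 1 h1136 (kA 1 h1114 (kA 2 h1112 (kA 1 h1111 (kA 1 h917 (kB 1 h908 (kC 1 b33 k0)))))))); clear * - this; omega⟩
                exact T0_22 X hb ⟨by have := kB 1 h1118 (kA 1 h1114 (kA 2 h1112 (kA 1 h1111 (kA 1 h907 (kC 1 b7 k0))))); clear * - this; omega, by have := kA 1 h917 (kB 1 h908 (kB 1 h3 (kC 1 b21 k0))); clear * - this; omega, by clear * - h1136; omega, by clear * - h1118; omega, by clear * - h1144; omega⟩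
              rcases lt_or_ge (-N + a + b - c - d - Y - 1) 0 with h1150 | h1150
              · exact T0_58 X hb ⟨by clear * - h907 h908; omega, by clear * - h914 h1113; omega, by clear * - h914 h1111; omega, by have := kA 2 h1116 (kA 1 h1115 (kA 1 h907 (kC 2 b17 (kC 1 b7 k0)))); clear * - this; omega, by clear * - h1116; omega, by clear * - h1150; omega⟩
              exact T0_21 X hb ⟨by have := kA 1 h917 (kA 1 h916 (kC 1 b21 (kC 1 b17 k0))); clear * - this; omega, by have := kA 1 h1115 (kA 2 h1111 (kA 2 h916 (kA 3 h907 (kC 4 b17 (kC 1 b7 k0))))); clear * - this; omega, by clear * - h1150; omega, by have := kA 1 h1115 (kA 2 h1112 (kA 1 h907 (kC 1 b41 (kC 1 b7 (kC 2 b2 k0))))); clear * - this; omega, by clear * - h1117; omega⟩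
            rcases lt_or_ge (2*a + 2*b - m - 2) 0 with h1151 | h1151
            · rcases lt_or_ge (-N + a + b + m - c + Y) 0 with h1152 | h1152
              · rcases lt_or_ge (i + a - b) 0 with h1153 | h1153
                · exact T0_140 X hb ⟨by have := kA 1 h1151 (kA 1 h1115 (kA 1 h907 (kC 1 b7 k0))); clear * - this; omega, by have := kA 1 h1152 (kA 1 h1115 (kA 1 h1111 (kA 1 h907 (kC 1 b19 (kC 3 b17 k0))))); clear * - this; omega, by have := kA 1 h1153 (kA 1 h1114 (kA 1 h1111 (kC 1 b7 (kC 1 b2 k0)))); clear * - this; omega, by clear * - b17 h1111 h1152; omega⟩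
                rcases lt_or_ge (-a + b - 1) 0 with h1154 | h1154
                · rcases lt_or_ge (-a + b + l + 2*c) 0 with h1155 | h1155
                  · exact T0_1 X hb (by have := kA 6 h1155 (kA 1 h1154 (kA 11 h1152 (kA 6 h1112 (kA 1 h1111 (kA 1 h907 (kC 5 b41 (kC 5 b35 (kC 3 b18 k0)))))))); clear * - this; omega)
                  exact T0_231 X hb ⟨by clear * - h1153; omega, by clear * - b4 b7 h1154; omega, by have := kB 1 h1155 (kB 2 h1153 (kA 2 h1152 (kA 2 h1112 (kA 2 h1111 (kA 2 h907 (kC 1 b18 k0)))))); clear * - this; omega, by clear * - h1155; omega⟩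
                exact T0_102 X hb ⟨by clear * - h1153; omega, by clear * - h1154; omega⟩
              exact T0_111 X hb ⟨by clear * - h1152; omega, by clear * - h1151 h1152; omega, by have := kB 1 h1152 (kA 2 h1111 (kA 2 h907 (kC 2 b43 k0))); clear * - this; omega, by have := kB 1 h1152 (kA 1 h1151 (kB 2 h908 (kA 2 h907 k0))); clear * - this; omega⟩
            exact T0_332 X hb ⟨by clear * - h1151; omega, by clear * - h1116; omega, by have := kA 1 h1115 (kA 2 h1112 (kA 1 h907 (kC 1 b41 (kC 1 b7 (kC 2 b2 k0))))); clear * - this; omega⟩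
          exact T0_2 X hb ⟨by clear * - b11 b18 h907; omega, by clear * - h1115; omega⟩
        rcases lt_or_ge (-N - a + l + m + c - V + Y + 1) 0 with h1156 | h1156
        · exact T0_2 X hb ⟨by clear * - b11 b18 h907; omega, by clear * - h907 h1114 h1156; omega⟩
        rcases lt_or_ge (-N - a - c - 2*d - V - Y - 1) 0 with h1157 | h1157
        · rcases lt_or_ge (3*N + Q - i - 2*l - 3*m + c + d - 2*U + 2*V - 6) 0 with h1158 | h1158
          · exact T0_197 X hb ⟨by have := kA 5 h1158 (kA 5 h1157 (kB 1 h1156 (kA 2 h1113 (kA 4 h1112 (kA 13 h907 (kC 3 b43 (kC 2 b33 (kC 2 b11 (kC 7 b7 k0))))))))); clear * - this; omega, by have := kA 1 h1158 (kA 1 h1157 (kB 1 h1156 (kA 1 h907 (kC 1 b43 (kC 1 b7 k0))))); clear * - this; omega⟩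
          exact T0_2 X hb ⟨by clear * - b11 b18 h907; omega, by clear * - h1158; omega⟩
        rcases lt_or_ge (N + a - 2*l - 2*m - c - 2*d - 2*U + V - Y - 5) 0 with h1159 | h1159
        · rcases lt_or_ge (-N + l + m + U - 2*V + 1) 0 with h1160 | h1160
          · exact T0_2 X hb ⟨by clear * - b11 b18 h907; omega, by have := kA 6 h1160 (kA 5 h1159 (kB 1 h1157 (kA 1 h1113 (kA 7 h907 (kC 3 b43 (kC 1 b41 (kC 1 b33 (kC 4 b7 (kC 6 b2 k0))))))))); clear * - this; omega⟩
          rcases lt_or_ge (-N - i - 2*l - m - 2*c - 2*d + L - 3*U - 2) 0 with h1161 | h1161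
          · exact T0_258 X hb ⟨by clear * - h1111 h1157; omega, by have := kA 1 h1159 (kB 1 h1114 (kA 2 h907 (kC 1 b43 (kC 2 b17 (kC 1 b7 k0))))); clear * - this; omega, by have := kA 1 h1113 (kA 3 h907 (kA 1 h2 (kC 1 b43 (kC 1 b41 (kC 1 b33 (kC 3 b17 (kC 2 b7 (kC 2 b2 k0)))))))); clear * - this; omega⟩
          exact T0_48 X hb ⟨by clear * - h1160; omega, by clear * - h1161; omega⟩
        exact T0_347 X hb ⟨by clear * - h1157; omega, by clear * - h1114; omega, by have := kB 4 h1159 (kB 1 h1156 (kA 6 h1111 (kA 2 h917 (kB 4 h908 k0)))); clear * - this; omega, by have := kB 1 h1114 (kA 2 h907 (kA 2 h2 (kC 1 b7 k0))); clear * - this; omega, by have := kB 4 h1159 (kB 1 h1156 (kA 3 h1113 (kA 2 h917 (kB 4 h908 k0)))); clear * - this; omega, by clear * - h1156; omega, by clear * - h1159; omega⟩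
      exact T0_135 X hb ⟨by clear * - h1113; omega, by clear * - h1111; omega, by have := kB 1 h1113 (kA 4 h917 (kA 1 h907 (kA 5 h2 (kC 2 b43 (kC 3 b42 (kC 3 b41 (kC 3 b39 (kC 5 b17 (kC 2 b7 k0))))))))); clear * - this; omega⟩
    rcases lt_or_ge (-3*N - Q + i + a + 2*b + 2*l + 2*m + L + 3*U - V + 6) 0 with h1162 | h1162
    · rcases lt_or_ge (2*a + 2*b + m - L + 2*Y - 1) 0 with h1163 | h1163
      · rcases lt_or_ge (i - b) 0 with h1164 | h1164
        · rcases lt_or_ge (-N + a + b + m - c + Y) 0 with h1165 | h1165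
          · rcases lt_or_ge (-N - i + a + b - l + m - 3*c - d - V - 1) 0 with h1166 | h1166
            · rcases lt_or_ge (b - V - 1) 0 with h1167 | h1167
              · exact T0_2 X hb ⟨by clear * - b11 b18 h907; omega, by have := kA 1 h1167 (kA 1 h1166 (kA 1 h1165 (kA 1 h1164 (kA 1 h1111 (kA 1 h907 (kC 2 b7 (kC 1 b4 k0))))))); clear * - this; omega⟩
              exact T0_117 X hb ⟨by have := kA 2 h1166 (kA 1 h1164 (kB 2 h1112 (kA 2 h2 (kC 1 b17 (kC 2 b7 k0))))); clear * - this; omega, by clear * - b17 h1112 h1167; omega, by clear * - h1167; omega⟩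
            exact T0_140 X hb ⟨by have := kA 1 h1165 (kA 1 h1111 (kA 1 h907 (kA 1 h2 (kC 1 b7 k0)))); clear * - this; omega, by have := kA 1 h1165 (kA 1 h1111 (kA 1 h907 (kA 1 h2 (kC 1 b19 (kC 2 b17 k0))))); clear * - this; omega, by clear * - h1166; omega, by clear * - b17 h1111 h1165; omega⟩
          rcases lt_or_ge (-N - a - b + 2*m - c + Y + 1) 0 with h1168 | h1168
          · rcases lt_or_ge (-3*N - i - 2*a + m - 2*c - 2*d + L - U - V + 2) 0 with h1169 | h1169
            · exact T0_86 X hb ⟨by have := kA 1 h1168 (kA 1 h1164 (kA 1 h1163 (kA 1 h1111 (kA 1 h907 (kA 1 h2 (kC 1 b41 (kC 1 b18 (kC 3 b17 k0)))))))); clear * - this; omega, by have := kA 4 h1169 (kA 7 h1168 (kB 15 h1165 (kA 4 h1164 (kA 7 h1163 (kB 2 h1112 (kA 2 h2 (kC 3 b41 (kC 2 b7 k0)))))))); clear * - this; omega, by have := kA 1 h1169 (kB 2 h1165 (kA 4 h1164 (kA 1 h1163 (kA 5 h1162 (kA 2 h917 (kA 4 h914 (kA 7 h2 (kC 5 b33 (kC 1 b17 (kC 2 b7 k0)))))))))); clear * - this;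 omega, by have := kA 3 h1168 (kB 3 h1165 (kA 2 h1164 (kA 2 h1163 (kA 1 h907 (kA 1 h2 (kC 2 b41 (kC 2 b18 (kC 5 b17 (kC 1 b7 k0))))))))); clear * - this; omega, by have := kA 1 h1163 (kA 1 h2 (kC 1 b41 (kC 1 b17 (kC 1 b3 (kC 3 b2 k0))))); clear * - this; omega, by have := kA 2 h1168 (kB 1 h1165 (kA 1 h1164 (kA 1 h1163 (kA 1 h1111 (kC 1 b41 (kC 1 b18 (kC 2 b17 k0))))))); clear * - this; omega⟩
            exact T0_100 X hb ⟨by clear * - h1169; omega, by have := kA 1 h1168 (kB 1 h1165 (kA 1 h1163 (kC 1 b41 (kC 2 b17 k0)))); clear * - this; omega⟩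
          exact T0_111 X hb ⟨by clear * - h1165; omega, by clear * - h1168; omega, by have := kB 1 h1165 (kA 2 h1111 (kA 2 h907 (kC 2 b43 k0))); clear * - this; omega, by clear * - h907 h908 h1168; omega⟩
        exact T0_1 X hb (by clear * - h1164; omega)
      exact T0_279 X hb ⟨by have := kA 1 h1162 (kB 1 h1112 (kA 2 h917 (kA 1 h907 (kA 3 h2 (kC 1 b33 (kC 3 b17 (kC 1 b11 (kC 1 b7 (kC 1 b3 k0))))))))); clear * - this; omega, by have := kA 1 h907 (kA 1 h2 (kC 1 b17 (kC 1 b7 k0))); clear * - this; omega, by have := kA 1 h1162 (kB 1 h1112 (kA 2 h1111 (kA 2 h917 (kA 1 h907 (kA 3 h2 (kC 1 b33 (kC 3 b17 (kC 1 b7 (kC 1 b3 k0))))))))); clear * - this; omega, by clear * - h1163; omega⟩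
    exact T0_4 X hb ⟨by clear * - h1112; omega, by clear * - h1162; omega⟩
  exact T0_8 X hb ⟨by clear * - h907 h908; omega, by have := kB 2 h918 (kA 1 h907 (kA 1 h2 (kC 1 b17 (kC 1 b7 k0)))); clear * - this; omega, by clear * - h918; omega, by clear * - h1111; omega⟩

theorem M23 (X : C W N Q i a b l m c d L U V Y) (hb : B N Q i a b l m c d L U V Y)
    (h1 : (-N + m - c) < 0)
    (h2 : (3*N + Q - i - 2*l - 3*m + c + d - 2*U + V - 6) < 0)
    (h3 : (N + c + d - 1) < 0)
    (c4x : (-N + m - c) < 0 → (3*N + Q - i - 2*l - 3*m + c + d - 2*U + V - 6) < 0 → (N + c + d - 1) < 0 → (i + a - b) < 0 → False) : False := by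
  have b1 := hb.b1
  have b3 := hb.b3
  have b4 := hb.b4
  have b6 := hb.b6
  have b7 := hb.b7
  have b11 := hb.b11
  have b17 := hb.b17
  have b18 := hb.b18
  have b19 := hb.b19
  have b21 := hb.b21
  have b29 := hb.b29
  have b33 := hb.b33
  have b38 := hb.b38
  have b39 := hb.b39
  have b41 := hb.b41
  have b42 := hb.b42
  have b43 := hb.b43
  have b44 := hb.b44
  have b45 := hb.b45
  rcases lt_or_ge (i + a - b) 0 with h4 | h4
  · exact c4x h1 h2 h3 h4
  rcases lt_or_ge (-a + b - 1) 0 with h799 | h799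
  · rcases lt_or_ge (i - b) 0 with h800 | h800
    · rcases lt_or_ge (-2*N + 2*m - 2*c - d + 1) 0 with h801 | h801
      · rcases lt_or_ge (-3*N + i + a + 2*l + 2*m + L + 3*U - V + 6) 0 with h802 | h802
        · exact M21 X hb h1 h2 h3 h4 h799 h800 h801 h802
        rcases lt_or_ge (N + a - l - m - U - V - 3) 0 with h858 | h858
        · rcases lt_or_ge (N - a - b + c + d + Y - 1) 0 with h859 | h859
          · rcases lt_or_ge (-3*N + i + a + 2*l + 2*m + L + 3*U - 2*V + 6) 0 with h860 | h860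
            · rcases lt_or_ge (-2*N + Q - i - 2*l + 2*m - 2*c - 2*d - 2*U + 2*Y - 1) 0 with h861 | h861
              · rcases lt_or_ge (2*N - 2*m + c + d - V - Y - 3) 0 with h862 | h862
                · rcases lt_or_ge (-N - Q + i + b + l + m + 2) 0 with h863 | h863
                  · rcases lt_or_ge (-2*N - Q + i + 2*b + 2*l + 2*m + 2*U + 4) 0 with h864 | h864
                    · rcases lt_or_ge (-2*a - 2*b + l + c) 0 with h865 | h865
                      · exact T0_2 X hb ⟨by have := kA 1 h865 (kA 1 h864 (kA 1 h863 (kA 2 h860 (kA 1 h801 (kA 1 h800 (kA 1 h3 (kA 2 h2 (kC 1 b39 (kC 1 b33 (kC 3 b18 k0)))))))))); clear * - this; omega, by have := kA 2 h865 (kA 2 h864 (kA 4 h858 (kA 2 h801 (kC 1 b42 (kC 1 b41 (kC 1 b39 k0)))))); clear * - this; omega⟩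
                      rcases lt_or_ge (2*a + 2*b + c - 1) 0 with h866 | h866
                      · rcases lt_or_ge (-2*N + 4*a + 4*b - m - 2*c - 2*d - 2*Y - 2) 0 with h867 | h867
                        · rcases lt_or_ge (-4*N - Q + l + 2*m - 2*c - 2*d + L - 2*V + 5) 0 with h868 | h868
                          · exact T0_47 X hb ⟨by have := kA 3 h864 (kA 4 h862 (kA 8 h859 (kB 4 h802 (kA 4 h800 (kC 3 b44 (kC 5 b41 (kC 4 b39 k0))))))); clear * - this; omega, by have := kA 12 h868 (kA 10 h867 (kA 22 h866 (kB 2 h865 (kA 1 h864 (kA 10 h863 (kA 18 h862 (kA 23 h861 (kA 4 h860 (kA 42 h859 (kA 20 h801 (kA 8 h800 (kC 16 b39 k0)))))))))))); clear * - this; omega, by have := kA 6 h868 (kA 2 h862 (kA 4 h859 (kB 8 h802 (kA 20 h800 (kB 6 h4 (kA 6 h3 (kC 3 b45 (kC 7 b41 (kC 8 b39 k0))))))))); clear * - this; omega, by have := kA 3 h868 (kA 6 h867 (kA 12 h866 (kA 9 h864 (kA 26 h862 (kA 15 h861 (kA 40 h859 (kB 8 h802 (kA 12 h801 (kA 26 h800 (kC 19 b41 (kC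 14 b39 (kC 15 b18 k0)))))))))))); clear * - this; omega⟩
                          exact T0_35 X hb ⟨by clear * - h868; omega, by have := kA 1 h867 (kA 2 h862 (kA 1 h861 (kA 4 h859 (kA 2 h801 (kC 1 b41 (kC 1 b39 (kC 1 b7 k0))))))); clear * - this; omega⟩
                        rcases lt_or_ge (l + 2*c) 0 with h869 | h869
                        · exact T0_349 X hb ⟨by have := kA 1 h869 (kA 2 h864 (kA 4 h862 (kA 1 h861 (kA 2 h860 (kA 2 h801 (kA 2 h800 (kC 2 b33 (kC 4 b18 k0)))))))); clear * - this; omega, by have := kA 7 h869 (kB 1 h867 (kA 4 h862 (kB 4 h802 (kA 6 h801 (kA 4 h800 (kC 10 b42 (kC 5 b41 (kC 1 b39 k0)))))))); clear * - this; omega, by have := kA 6 h863 (kA 4 h862 (kA 2 h859 (kB 4 h802 (kA 4 h800 (kC 3 b44 (kC 5 b41 (kC 4 b39 k0))))))); clear * - this; omega, by have := kB 6 h865 (kA 4 h862 (kA 3 h861 (kA 2 h859 (kB 4 h802 (kA 4 h800 (kC 3 b43 (kC 8 b41 (kC 4 b39 k0)))))))); clear * - this; omega⟩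
                        rcases lt_or_ge (2*N - i - 4*a - 4*b - l - 2) 0 with h870 | h870
                        · exact T0_2 X hb ⟨by have := kA 1 h870 (kB 1 h869 (kA 5 h866 (kA 1 h864 (kA 5 h863 (kA 6 h859 (kA 3 h801 (kA 7 h800 (kA 6 h2 (kC 5 b43 (kC 8 b41 (kC 8 b39 (kC 6 b18 k0)))))))))))); clear * - this; omega, by have := kA 1 h870 (kA 1 h866 (kA 1 h864 (kA 1 h863 (kA 2 h862 (kA 1 h861 (kA 2 h860 (kA 1 h801 (kA 1 h800 (kC 2 b33 (kC 2 b18 k0)))))))))); clear * - this; omega⟩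
                        rcases lt_or_ge (N - a - b + c + d + Y) 0 with h871 | h871
                        · rcases lt_or_ge (N - l - m - U + V - 3) 0 with h872 | h872
                          · exact T0_57 X hb ⟨by have := kA 2 h872 (kA 2 h871 (kA 1 h864 (kA 2 h863 (kA 2 h861 (kA 4 h858 (kC 2 b41 (kC 2 b39 k0))))))); clear * - this; omega, by have := kA 2 h872 (kA 4 h871 (kA 2 h864 (kA 2 h863 (kA 3 h861 (kA 6 h858 (kB 2 h802 (kA 2 h800 (kC 5 b41 (kC 3 b39 k0))))))))); clear * - this; omega, by have := kA 4 h866 (kA 3 h860 (kB 1 h802 (kA 4 h801 (kB 2 h4 (kA 1 h3 (kA 5 h2 (kC 1 b44 (kC 3 b39 k0)))))))); clear * - this; omega, by have := kA 2 h872 (kA 2 h871 (kA 2 h866 (kA 1 h864 (kA 1 h861 (kA 2 h860 (kA 2 h801 (kA 2 h2 (kC 2 b33 k0)))))))); clear * - this; omega, by have := kA 3 h872 (kA 2 h871 (kA 1 h862 (kB 1 h802 (kA 1 h800 (kC 2 b41 (kC 1 b39 k0)))))); clear * - this; omega⟩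
                          exact T0_100 X hb ⟨by have := kB 1 h872 (kA 6 h871 (kB 1 h870 (kA 4 h866 (kA 4 h862 (kA 4 h801 (kA 6 h800 (kC 1 b41 (kC 4 b39 (kC 4 b18 k0))))))))); clear * - this; omega, by clear * - h872; omega⟩
                        exact T0_151 X hb ⟨by clear * - h869; omega, by clear * - h870; omega, by have := kB 2 h871 (kB 2 h870 (kB 2 h869 (kA 4 h866 (kA 2 h862 (kA 2 h858 (kB 2 h802 (kC 1 b45 (kC 3 b41 (kC 2 b39 k0))))))))); clear * - this; omega, by clear * - h867; omega, by clear * - h871; omega, by clear * - h859; omega⟩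
                      exact T0_74 X hb ⟨by clear * - h865; omega, by clear * - h866; omega⟩
                    rcases lt_or_ge (-2*N + Q - 2*a - 2*b + 2*l + 2*m + 2*U + 4) 0 with h873 | h873
                    · rcases lt_or_ge (N + 2*a + b - 2*l - 2*m - d - 2*U + V - 5) 0 with h874 | h874
                      · exact T0_386 X hb ⟨by clear * - b3 h861; omega, by have := kA 2 h874 (kA 4 h873 (kA 4 h863 (kA 4 h862 (kA 2 h801 (kA 2 h799 (kC 1 b41 (kC 1 b39 (kC 1 b18 k0)))))))); clear * - this; omega, by have := kA 1 h873 (kA 2 h863 (kA 2 h862 (kA 1 h861 (kC 1 b39 (kC 1 b18 k0))))); clear * - this; omega, by have := kA 2 h873 (kA 4 h863 (kA 6 h862 (kA 2 h861 (kA 2 h860 (kC 2 b39 (kC 5 b18 k0)))))); clear * - this; omega⟩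
                      rcases lt_or_ge (3*N - b - l - 3*m + 2*c + d - 2*U + V - 5) 0 with h875 | h875
                      · exact T0_166 X hb ⟨by have := kA 8 h875 (kA 6 h863 (kA 8 h862 (kA 5 h861 (kA 6 h860 (kA 8 h801 (kA 4 h799 (kC 2 b41 (kC 8 b39 (kC 6 b18 k0))))))))); clear * - this; omega, by have := kA 6 h863 (kA 4 h862 (kA 2 h859 (kB 4 h802 (kA 4 h800 (kC 3 b44 (kC 5 b41 (kC 4 b39 k0))))))); clear * - this; omega, by have := kA 1 h875 (kB 1 h874 (kA 48 h863 (kA 4 h862 (kA 38 h861 (kA 4 h860 (kA 28 h858 (kA 16 h800 (kA 30 h2 (kC 5 b45 (kC 36 b41 (kC 45 b39 k0))))))))))); clear * - this; omega, by have := kA 1 h875 (kA 1 h863 (kA 1 h861 (kA 2 h858 (kA 1 h801 (kA 2 h799 (kA 1 h3 (kA 1 h2 (kC 1 b44 (kC 2 b41 (kC 3 b39 k0)))))))))); clear * - this; omega, by clear * - b42 h874 h875; omega⟩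
                      exact T0_228 X hb ⟨by clear * - h874; omega, by have := kB 1 h875 (kB 1 h864 (kC 1 b18 (kC 1 b11 k0))); clear * - this; omega, by clear * - h875; omega⟩
                    exact T0_324 X hb ⟨by clear * - h873; omega, by have := kA 2 h863 (kA 2 h862 (kA 1 h861 (kC 1 b39 (kC 1 b18 k0)))); clear * - this; omega, by clear * - h864; omega, by have := kB 1 h864 (kA 2 h863 (kA 1 h861 (kA 2 h859 (kA 2 h799 (kC 2 b41 (kC 2 b39 k0)))))); clear * - this; omega⟩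
                  rcases lt_or_ge (N + b - m + 2*c - 2) 0 with h876 | h876
                  · rcases lt_or_ge (-4*N - Q + 2*b + l + 2*m - 2*c - 2*d + L - 2*V + 5) 0 with h877 | h877
                    · exact T0_59 X hb ⟨by have := kA 7 h877 (kB 6 h863 (kA 2 h862 (kA 1 h858 (kB 3 h802 (kA 11 h801 (kA 10 h800 (kA 1 h2 (kC 1 b45 (kC 4 b43 (kC 3 b41 (kC 8 b39 k0))))))))))); clear * - this; omega, by clear * - h1 h802 h860; omega, by have := kA 2 h876 (kA 2 h859 (kA 2 h801 (kA 2 h800 (kC 1 b45 (kC 1 b41 (kC 2 b33 k0)))))); clear * - this; omega, by have := kA 2 h877 (kA 2 h859 (kA 1 h801 (kA 2 h800 (kA 2 h3 (kA 3 h2 (kC 1 b41 (kC 3 b39 (kC 1 b3 k0)))))))); clear * - this; omega⟩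
                    exact T0_374 X hb ⟨by clear * - b3 h799; omega, by clear * - h877; omega, by have := kA 2 h876 (kB 2 h863 (kA 2 h862 (kA 1 h861 (kA 4 h859 (kA 4 h801 (kA 4 h800 (kA 2 h799 (kC 2 b41 (kC 2 b33 (kC 4 b18 k0)))))))))); clear * - this; omega, by have := kA 1 h876 (kA 1 h862 (kA 1 h860 (kA 1 h859 (kA 2 h801 (kC 1 b33 (kC 1 b18 k0)))))); clear * - this; omega⟩
                  exact T0_120 X hb ⟨by have := kA 2 h860 (kA 1 h858 (kB 1 h802 (kA 1 h799 (kB 1 h4 (kC 1 b39 (kC 2 b18 k0)))))); clear * - this; omega, by have := kA 1 h862 (kA 3 h860 (kA 11 h859 (kB 7 h802 (kA 12 h801 (kA 1 h800 (kB 3 h4 (kC 5 b41 (kC 1 b39 (kC 6 b11 k0))))))))); clear * - this; omega, by clear * - h863; omega, by have := kA 2 h801 (kA 1 h799 (kB 1 h4 (kC 1 b44 (kC 1 b39 (kC 1 b11 k0))))); clear * - this; omega, by have := kB 9 h876 (kA 2 h862 (kA 6 h860 (kA 4 h859 (kB 8 h802 (kA 2 h800 (kA 12 h3 (kC 3 b45 (kC 3 b43 (kC 4 b41 (kC 5 b39 k0))))))))));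 clear * - this; omega, by clear * - h876; omega⟩
                rcases lt_or_ge (l + m + c + d + 2*U - V + Y + 1) 0 with h878 | h878
                · rcases lt_or_ge (-2*N - Q + 2*b - l - 2*c - 2*d + L - 2*U) 0 with h879 | h879
                  · exact T0_2 X hb ⟨by have := kA 2 h879 (kB 2 h862 (kA 2 h859 (kA 2 h858 (kA 2 h800 (kA 3 h3 (kA 2 h2 (kC 2 b41 (kC 3 b39 (kC 1 b33 k0))))))))); clear * - this; omega, by have := kA 2 h879 (kA 1 h861 (kA 2 h859 (kA 2 h858 (kA 2 h800 (kA 3 h3 (kC 2 b41 (kC 3 b39 (kC 1 b33 k0)))))))); clear * - this; omega⟩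
                  rcases lt_or_ge (-4*N - Q + 2*b + l + 2*m - 2*c - 2*d + L - 2*V + 5) 0 with h880 | h880
                  · exact T0_2 X hb ⟨by have := kA 2 h880 (kA 1 h878 (kB 1 h862 (kA 4 h800 (kA 3 h3 (kA 2 h2 (kC 1 b41 (kC 2 b39 (kC 1 b33 (kC 2 b18 k0))))))))); clear * - this; omega, by have := kA 1 h880 (kA 1 h878 (kB 1 h862 (kA 1 h858 (kB 1 h802 (kA 2 h800 (kA 1 h3 (kC 1 b41 (kC 1 b39 k0)))))))); clear * - this; omega⟩
                  rcases lt_or_ge (-2*N - Q + i + 2*a + 2*b + 2*l + 2*m + 2*U - 2*V + 4) 0 with h881 | h881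
                  · rcases lt_or_ge (-Q + i - 2*a - 2*b + l) 0 with h882 | h882
                    · exact T0_2 X hb ⟨by have := kA 5 h882 (kA 6 h881 (kB 2 h880 (kB 3 h879 (kB 10 h862 (kA 6 h858 (kA 8 h799 (kA 6 h2 (kC 5 b41 (kC 5 b18 k0))))))))); clear * - this; omega, by have := kA 2 h882 (kA 1 h881 (kB 2 h862 (kA 1 h861 (kA 4 h858 (kA 2 h799 (kA 2 h3 (kC 2 b41 (kC 2 b39 k0)))))))); clear * - this; omega⟩
                    rcases lt_or_ge (-4*N - Q + i + l + 4*m - 2*c - 2*d - 2*V + 2*Y + 5) 0 with h883 | h883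
                    · exact T0_2 X hb ⟨by have := kA 5 h883 (kA 2 h881 (kB 4 h880 (kB 1 h879 (kA 2 h858 (kA 6 h799 (kA 2 h2 (kC 5 b41 (kC 5 b18 k0)))))))); clear * - this; omega, by have := kA 2 h883 (kB 1 h880 (kA 2 h858 (kA 2 h799 (kA 1 h3 (kC 2 b41 (kC 1 b39 (kC 1 b18 k0))))))); clear * - this; omega⟩
                    exact T0_47 X hb ⟨by have := kA 1 h881 (kA 2 h878 (kB 4 h802 (kA 4 h800 (kC 2 b42 (kC 4 b41 k0))))); clear * - this; omega, by clear * - h861 h881; omega, by have := kA 5 h881 (kA 20 h878 (kB 6 h862 (kA 1 h861 (kB 24 h802 (kA 24 h800 (kA 6 h799 (kC 6 b44 (kC 18 b41 k0)))))))); clear * - this; omega, by clear * - h883; omega⟩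
                  exact T0_374 X hb ⟨by clear * - b3 h799; omega, by clear * - h880; omega, by clear * - h881; omega, by have := kA 2 h878 (kA 1 h858 (kB 1 h802 (kA 2 h801 (kC 1 b41 (kC 1 b11 k0))))); clear * - this; omega⟩
                rcases lt_or_ge (Q - i - 2*l - c - d - 2*U + V + Y - 3) 0 with h884 | h884
                · rcases lt_or_ge (-2*N + i - b + 2*l + 2*m + 2*U - V + 4) 0 with h885 | h885
                  · rcases lt_or_ge (N - a - b + c + d + Y) 0 with h886 | h886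
                    · exact T0_166 X hb ⟨by have := kB 1 h878 (kB 1 h862 (kA 2 h858 (kA 2 h799 (kC 1 b41 (kC 1 b39 (kC 1 b3 k0)))))); clear * - this; omega, by have := kA 1 h885 (kA 1 h860 (kB 3 h802 (kA 1 h800 (kA 2 h799 (kC 2 b41 (kC 2 b3 k0)))))); clear * - this; omega, by have := kA 4 h886 (kA 19 h884 (kB 33 h878 (kB 10 h862 (kA 32 h860 (kA 16 h858 (kA 11 h799 (kB 13 h4 (kA 20 h3 (kC 9 b45 (kC 21 b39 (kC 20 b33 k0))))))))))); clear * - this; omega, by have := kA 2 h886 (kA 2 h885 (kB 5 h878 (kB 21 h862 (kA 32 h858 (kB 2 h802 (kA 16 h799 (kA 6 h3 (kA 6 h2 (kC 15 b41 (kC 13 b39 k0)))))))))); clear * - this; omega, by clear * - h886; omega⟩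
                    rcases lt_or_ge (l + 2*c) 0 with h887 | h887
                    · rcases lt_or_ge (-2*N + Q - i + 2*a + 2*b - 2*l - 4*c - 2*d - 2*U - 3) 0 with h888 | h888
                      · exact T0_47 X hb ⟨by have := kB 2 h878 (kA 4 h859 (kA 2 h858 (kA 2 h799 (kC 2 b41 (kC 2 b39 (kC 1 b3 k0)))))); clear * - this; omega, by have := kA 2 h888 (kA 4 h887 (kA 2 h885 (kA 3 h884 (kA 2 h860 (kA 4 h859 (kA 4 h858 (kA 4 h801 (kA 5 h799 (kB 4 h4 (kC 2 b39 (kC 5 b3 k0))))))))))); clear * - this; omega, by have := kA 2 h860 (kB 4 h802 (kA 2 h800 (kC 1 b42 (kC 2 b41 (kC 1 b19 k0))))); clear * - this; omega, by have := kA 1 h888 (kA 1 h887 (kA 2 h859 (kA 2 h858 (kA 2 h800 (kA 2 h799 (kA 2 h3 (kC 2 b41 (kC 2 b39 (kC 2 b18 k0))))))))); clear * - this; omega⟩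
                      rcases lt_or_ge (-2*N - Q + 2*m - 2*c - 2*d - 2*V + 2) 0 with h889 | h889
                      · exact T0_2 X hb ⟨by have := kA 1 h887 (kA 2 h885 (kA 4 h884 (kA 6 h859 (kB 2 h802 (kA 2 h801 (kA 8 h799 (kA 4 h2 (kC 1 b43 (kC 6 b41 (kC 4 b39 (kC 8 b3 k0))))))))))); clear * - this; omega, by have := kA 1 h889 (kA 2 h885 (kA 1 h799 (kB 1 h4 (kC 1 b3 k0)))); clear * - this; omega⟩
                      exact T0_98 X hb ⟨by clear * - h888; omega, by have := kA 1 h860 (kA 1 h858 (kA 1 h801 (kA 1 h799 (kC 1 b33 (kC 1 b18 k0))))); clear * - this; omega, by clear * - h889; omega⟩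
                    rcases lt_or_ge (2*N - i - 4*a - 4*b - l - 2) 0 with h890 | h890
                    · exact T0_77 X hb ⟨by have := kA 2 h885 (kA 1 h858 (kB 1 h802 (kC 1 b42 (kC 1 b41 k0)))); clear * - this; omega, by have := kA 1 h890 (kA 1 h885 (kA 8 h884 (kA 6 h859 (kA 6 h858 (kA 12 h799 (kA 3 h3 (kC 7 b41 (kC 3 b39 (kC 4 b33 (kC 8 b3 k0)))))))))); clear * - this; omega, by have := kA 1 h890 (kA 2 h885 (kA 2 h884 (kA 2 h858 (kA 2 h799 (kB 2 h4 (kC 1 b41 (kC 1 b33 (kC 2 b3 k0)))))))); clear * - this; omega⟩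
                    rcases lt_or_ge (-2*N + 4*a + 4*b - m - 2*c - 2*d - 2*Y - 2) 0 with h891 | h891
                    · exact T0_47 X hb ⟨by have := kA 1 h891 (kA 6 h859 (kA 3 h858 (kB 1 h802 (kA 2 h801 (kA 2 h800 (kA 2 h799 (kC 3 b41 (kC 2 b39 (kC 1 b18 (kC 1 b7 k0)))))))))); clear * - this; omega, by have := kA 1 h891 (kA 1 h884 (kA 4 h859 (kA 2 h858 (kA 2 h801 (kA 1 h799 (kC 1 b41 (kC 1 b39 (kC 1 b7 k0)))))))); clear * - this; omega, by have := kA 2 h860 (kB 4 h802 (kA 2 h800 (kC 1 b42 (kC 2 b41 (kC 1 b19 k0))))); clear * - this; omega, by have := kA 1 h891 (kA 4 h885 (kA 1 h884 (kB 1 h878 (kA 4 h859 (kA 4 h858 (kA 4 h799 (kA 2 h3 (kC 2 b41 (kC 2 b39 (kC 4 b18 k0)))))))))); clear * - this; omega⟩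
                    exact T0_151 X hb ⟨by clear * - h887; omega, by clear * - h890; omega, by have := kB 1 h890 (kB 1 h886 (kA 2 h858 (kA 1 h799 (kA 1 h3 (kC 1 b41 (kC 1 b39 (kC 1 b18 k0))))))); clear * - this; omega, by clear * - h891; omega, by clear * - h886; omega, by clear * - h859; omega⟩
                  exact T0_117 X hb ⟨by clear * - h885; omega, by have := kB 1 h885 (kA 2 h860 (kA 2 h859 (kB 2 h802 (kA 2 h801 (kC 1 b41 (kC 1 b39 (kC 1 b11 k0))))))); clear * - this; omega, by have := kA 1 h884 (kB 1 h878 (kA 2 h859 (kC 1 b41 (kC 1 b39 (kC 1 b3 k0))))); clear * - this; omega⟩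
                exact T0_215 X hb ⟨by clear * - h862; omega, by clear * - h884; omega, by clear * - h878; omega⟩
              rcases lt_or_ge (-4*N - Q + i + l + 4*m - 2*c - 2*d - 2*V + 2*Y + 5) 0 with h892 | h892
              · exact T0_2 X hb ⟨by have := kA 4 h892 (kB 3 h861 (kA 3 h860 (kA 2 h859 (kA 1 h858 (kA 8 h801 (kA 2 h799 (kA 4 h3 (kA 7 h2 (kC 2 b41 (kC 5 b39 (kC 7 b18 (kC 4 b11 k0)))))))))))); clear * - this; omega, by have := kA 3 h892 (kA 2 h860 (kA 2 h858 (kB 2 h802 (kA 2 h800 (kA 2 h799 (kA 3 h3 (kC 3 b41 (kC 3 b39 (kC 2 b18 k0))))))))); clear * - this; omega⟩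
              exact T0_177 X hb ⟨by clear * - h861; omega, by have := kA 2 h860 (kB 2 h802 (kA 2 h801 (kC 1 b42 (kC 1 b11 (kC 1 b1 k0))))); clear * - this; omega, by have := kB 1 h861 (kA 1 h858 (kB 1 h802 (kA 2 h801 (kC 1 b42 (kC 1 b41 (kC 1 b11 k0)))))); clear * - this; omega, by clear * - h892; omega⟩
            exact T0_289 X hb ⟨by clear * - h860; omega, by have := kA 2 h859 (kA 2 h801 (kA 1 h799 (kB 1 h4 (kC 1 b41 (kC 1 b39 (kC 1 b11 k0)))))); clear * - this; omega⟩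
          rcases lt_or_ge (2*a + 2*b + m - L + 2*Y - 1) 0 with h893 | h893
          · rcases lt_or_ge (i - a - b + l + 2*c + 1) 0 with h894 | h894
            · exact T0_328 X hb ⟨by have := kA 2 h894 (kA 2 h893 (kA 2 h858 (kA 2 h800 (kA 1 h799 (kB 1 h4 (kC 2 b41 (kC 1 b18 k0))))))); clear * - this; omega, by clear * - h894; omega, by have := kA 2 h893 (kA 1 h858 (kB 3 h802 (kA 4 h800 (kA 1 h799 (kA 2 h3 (kC 3 b42 (kC 5 b41 k0))))))); clear * - this; omega, by have := kA 1 h893 (kA 1 h858 (kB 1 h802 (kA 2 h800 (kA 1 h799 (kA 2 h3 (kC 1 b43 (kC 1 b42 (kC 3 b41 (kC 1 b39 k0))))))))); clear * - this; omega⟩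
            exact T0_231 X hb ⟨by clear * - h4; omega, by clear * - b4 b7 h799; omega, by clear * - h894; omega, by have := kB 2 h894 (kA 2 h800 (kC 1 b4 (kC 1 b3 k0))); clear * - this; omega⟩
          rcases lt_or_ge (2*N - i - 2*a - 2*b - 2*m - 2*Y - 3) 0 with h895 | h895
          · exact T0_32 X hb ⟨by have := kA 1 h895 (kB 2 h859 (kA 2 h800 (kA 2 h3 (kC 2 b43 (kC 1 b41 (kC 1 b39 k0)))))); clear * - this; omega, by have := kA 6 h895 (kB 1 h893 (kB 8 h859 (kA 7 h858 (kB 3 h802 (kA 2 h799 (kA 8 h3 (kC 2 b45 (kC 7 b42 (kC 5 b41 (kC 5 b39 k0)))))))))); clear * - this; omega, by have := kA 2 h799 (kA 2 h3 (kC 1 b44 (kC 2 b43 (kC 1 b41 (kC 2 b39 k0))))); clear * - this; omega, by clear * - h895; omega⟩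
          rcases lt_or_ge (2*N - i - 2*a - 2*b - l - m - 3) 0 with h896 | h896
          · rcases lt_or_ge (Q - i - l - m - 2*d - 3) 0 with h897 | h897
            · rcases lt_or_ge (-N + m - c - d - 2*V) 0 with h898 | h898
              · exact T0_10 X hb ⟨by have := kA 1 h898 (kB 1 h893 (kA 8 h799 (kA 5 h3 (kA 2 h2 (kC 6 b43 (kC 5 b41 (kC 6 b39 (kC 5 b3 k0)))))))); clear * - this; omega, by have := kA 2 h898 (kA 1 h897 (kA 3 h896 (kB 1 h895 (kB 2 h859 (kA 2 h801 (kA 2 h800 (kA 4 h3 (kC 2 b43 (kC 2 b41 (kC 2 b33 (kC 1 b3 k0))))))))))); clear * - this; omega, by have := kA 2 h897 (kA 2 h896 (kB 2 h802 (kA 4 h801 (kA 4 h800 (kA 8 h799 (kA 10 h3 (kA 12 h2 (kC 10 b43 (kC 10 b41 (kC 8 b39 (kC 7 b19 k0))))))))))); clear * - this; omega⟩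
              rcases lt_or_ge (3*N + Q - i - 2*l - 3*m + c + d - 2*U + 2*V - 6) 0 with h899 | h899
              · rcases lt_or_ge (N + Q - i + a + b - 2*l - 2*m - c - 2*U + V - 5) 0 with h900 | h900
                · exact T0_77 X hb ⟨by have := kA 1 h897 (kA 3 h896 (kB 2 h895 (kA 2 h858 (kA 2 h801 (kA 2 h800 (kA 2 h799 (kA 4 h3 (kC 1 b43 (kC 3 b41 (kC 3 b33 (kC 1 b3 k0))))))))))); clear * - this; omega, by have := kA 1 h899 (kA 2 h799 (kA 1 h3 (kC 1 b43 (kC 1 b41 (kC 1 b39 (kC 1 b3 k0)))))); clear * - this; omega, by have := kA 2 h897 (kA 3 h896 (kB 1 h895 (kB 1 h893 (kA 4 h858 (kA 4 h801 (kA 2 h799 (kA 4 h3 (kC 2 b43 (kC 2 b41 (kC 3 b33 (kC 2 b19 k0))))))))))); clear * - this; omega⟩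
                exact T0_30 X hb ⟨by have := kB 6 h900 (kA 6 h899 (kB 2 h898 (kB 2 h895 (kB 1 h893 (kB 8 h859 (kA 6 h858 (kB 2 h802 (kA 2 h799 (kC 7 b43 (kC 4 b41 (kC 3 b39 k0))))))))))); clear * - this; omega, by clear * - h900; omega, by have := kB 1 h900 (kA 2 h899 (kA 2 h858 (kA 2 h801 (kA 2 h799 (kC 2 b43 (kC 2 b41 (kC 2 b39 (kC 1 b3 k0)))))))); clear * - this; omega⟩
              exact T0_2 X hb ⟨by clear * - h898; omega, by clear * - h899; omega⟩
            exact T0_135 X hb ⟨by clear * - h897; omega, by clear * - b11 h859 h896; omega, by have := kA 1 h896 (kB 1 h895 (kA 2 h801 (kA 1 h3 (kA 1 h2 (kC 1 b43 (kC 1 b41 (kC 1 b39 (kC 1 b17 k0)))))))); clear * - this; omega⟩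
          exact T0_279 X hb ⟨by clear * - h896; omega, by have := kA 1 h858 (kB 1 h802 (kA 2 h3 (kC 1 b42 (kC 1 b41 (kC 1 b21 k0))))); clear * - this; omega, by clear * - h859; omega, by clear * - h893; omega⟩
        exact T0_203 X hb ⟨by clear * - h858; omega, by clear * - h802; omega⟩
      rcases lt_or_ge (2*N - m + 2*c + d - 2) 0 with h901 | h901
      · rcases lt_or_ge (N + a + b - m + c - Y - 2) 0 with h902 | h902
        · rcases lt_or_ge (-2*N - a - b + l + 2*m - 2*d - 2*V + 2) 0 with h903 | h903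
          · exact T0_32 X hb ⟨by have := kA 1 h903 (kA 2 h902 (kA 6 h800 (kB 1 h4 (kA 2 h3 (kC 1 b43 (kC 2 b41 (kC 2 b33 (kC 1 b18 (kC 2 b6 k0))))))))); clear * - this; omega, by have := kA 2 h902 (kA 8 h901 (kA 4 h800 (kA 2 h799 (kC 4 b41 (kC 4 b38 (kC 5 b6 k0)))))); clear * - this; omega, by have := kA 2 h799 (kA 2 h3 (kC 1 b44 (kC 2 b43 (kC 1 b41 (kC 2 b39 k0))))); clear * - this; omega, by have := kA 1 h903 (kA 2 h901 (kA 2 h800 (kA 1 h799 (kC 1 b41 (kC 1 b33 (kC 1 b18 (kC 2 b6 k0))))))); clear * - this; omega⟩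
          rcases lt_or_ge (-2*N - i - a - b + 2*m - 2*c - 2*d - 2*V + 1) 0 with h904 | h904
          · exact T0_32 X hb ⟨by have := kA 2 h904 (kB 1 h903 (kA 2 h902 (kA 6 h800 (kB 1 h4 (kA 2 h3 (kC 1 b43 (kC 2 b41 (kC 2 b33 (kC 1 b18 k0))))))))); clear * - this; omega, by have := kA 5 h904 (kB 5 h903 (kA 2 h902 (kA 8 h901 (kA 4 h800 (kA 2 h799 (kC 4 b41 (kC 4 b38 k0))))))); clear * - this; omega, by have := kA 2 h799 (kA 2 h3 (kC 1 b44 (kC 2 b43 (kC 1 b41 (kC 2 b39 k0))))); clear * - this; omega, by have := kA 2 h904 (kB 1 h903 (kA 2 h901 (kA 2 h800 (kA 1 h799 (kC 1 b41 (kC 1 b33 (kC 1 b18 k0))))))); clear * - this; omega⟩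
          exact T0_328 X hb ⟨by have := kA 2 h902 (kA 2 h800 (kB 1 h4 (kC 2 b43 (kC 1 b41 (kC 1 b39 k0))))); clear * - this; omega, by have := kA 2 h901 (kA 2 h800 (kB 1 h4 (kC 1 b33 (kC 1 b29 k0)))); clear * - this; omega, by clear * - h904; omega, by have := kA 2 h902 (kA 2 h800 (kA 1 h799 (kA 2 h3 (kC 3 b43 (kC 2 b41 (kC 2 b39 (kC 1 b6 k0))))))); clear * - this; omega⟩
        exact T0_111 X hb ⟨by have := kB 3 h902 (kA 8 h901 (kA 4 h800 (kA 2 h799 (kC 4 b41 (kC 4 b38 k0))))); clear * - this; omega, by have := kA 6 h901 (kA 2 h800 (kA 4 h799 (kC 3 b44 (kC 1 b43 (kC 2 b41 (kC 2 b39 (kC 3 b33 (kC 2 b6 k0)))))))); clear * - this; omega, by clear * - h902; omega, by have := kA 2 h901 (kA 2 h800 (kA 4 h799 (kA 4 h3 (kC 3 b44 (kC 1 b43 (kC 2 b41 (kC 2 b39 (kC 3 b33 (kC 2 b6 k0))))))))); clear * - this; omega⟩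
      rcases lt_or_ge (l + m + d + 2*U + 1) 0 with h905 | h905
      · rcases lt_or_ge (-2*N + Q - i + 2*a + 2*b - 2*l - 4*c - 2*d - 2*U - 3) 0 with h906 | h906
        · exact T0_100 X hb ⟨by have := kA 3 h906 (kA 10 h905 (kB 2 h801 (kA 6 h800 (kA 4 h3 (kA 4 h2 (kC 1 b44 (kC 2 b39 (kC 2 b38 (kC 1 b33 (kC 7 b7 k0)))))))))); clear * - this; omega, by have := kA 1 h906 (kA 2 h905 (kC 2 b17 (kC 2 b7 (kC 1 b4 k0)))); clear * - this; omega⟩
        exact T0_98 X hb ⟨by clear * - h906; omega, by have := kA 1 h905 (kA 1 h799 (kC 1 b44 (kC 1 b33 (kC 1 b17 k0)))); clear * - this; omega, by have := kB 1 h906 (kA 14 h905 (kA 4 h800 (kA 6 h799 (kA 6 h3 (kA 8 h2 (kC 4 b44 (kC 8 b33 (kC 4 b29 (kC 3 b18 (kC 6 b11 k0)))))))))); clear * - this; omega⟩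
      exact T0_3 X hb ⟨by clear * - h801; omega, by clear * - h901; omega, by clear * - h3 h801 h901; omega, by clear * - h905; omega⟩
    exact T0_1 X hb (by clear * - h800; omega)
  exact T0_102 X hb ⟨by clear * - h4; omega, by clear * - h799; omega⟩

theorem P6 (X : C W N Q i a b l m c d L U V Y) (hb : B N Q i a b l m c d L U V Y)
    (c4x : (-N + m - c) < 0 → (3*N + Q - i - 2*l - 3*m + c + d - 2*U + V - 6) < 0 → (N + c + d - 1) < 0 → (i + a - b) < 0 → False)
    (c5x : (3*N + Q - i - 2*l - 3*m + c + d - 2*U + V - 6) < 0 → (N + c + d - 1) ≥ 0 → (-N + l + 2*m - c + d + 2*U + 2) < 0 → (l + m + d + 2*U + 1) ≥ 0 → (-2*N + 2*m - 2*c - d + 1) < 0 → (-N - l - c - 2*d - 2*U + V - 1) < 0 → (-3*N + 3*m - 3*c - 2*d + 2) < 0 → (m + d + Y + 1) < 0 → False) : False := by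
  have b4 := hb.b4
  have b7 := hb.b7
  have b11 := hb.b11
  have b17 := hb.b17
  have b18 := hb.b18
  have b19 := hb.b19
  have b33 := hb.b33
  have b44 := hb.b44
  rcases lt_or_ge (-N + m - c) 0 with h1 | h1
  · rcases lt_or_ge (3*N + Q - i - 2*l - 3*m + c + d - 2*U + V - 6) 0 with h2 | h2
    · rcases lt_or_ge (N + c + d - 1) 0 with h3 | h3
      · exact M23 X hb h1 h2 h3 c4x
      rcases lt_or_ge (-N + l + 2*m - c + d + 2*U + 2) 0 with h907 | h907
      · rcases lt_or_ge (l + m + d + 2*U + 1) 0 with h908 | h908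
        · rcases lt_or_ge (i + a - b) 0 with h909 | h909
          · rcases lt_or_ge (-V) 0 with h910 | h910
            · exact T0_239 X hb (by clear * - h908 h910; omega)
            rcases lt_or_ge (l + m + d + 2*U + 2) 0 with h911 | h911
            · exact T0_239 X hb (by clear * - b17 h911; omega)
            exact T0_238 X hb ⟨by clear * - h910; omega, by clear * - h911; omega, by clear * - h908; omega⟩
          rcases lt_or_ge (-a + b - 1) 0 with h912 | h912
          · rcases lt_or_ge (-a + b + l + 2*c) 0 with h913 | h913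
            · exact T0_1 X hb (by have := kA 1 h913 (kB 1 h909 (kA 2 h908 (kC 1 b44 (kC 1 b33 (kC 1 b18 (kC 2 b17 k0)))))); clear * - this; omega)
            exact T0_231 X hb ⟨by clear * - h909; omega, by clear * - b4 b7 h912; omega, by have := kA 1 h912 (kA 2 h908 (kC 1 b44 (kC 1 b33 (kC 1 b18 (kC 2 b17 k0))))); clear * - this; omega, by clear * - h913; omega⟩
          exact T0_102 X hb ⟨by clear * - h909; omega, by clear * - h912; omega⟩
        rcases lt_or_ge (-2*N + 2*m - 2*c - d + 1) 0 with h914 | h914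
        · rcases lt_or_ge (-N - l - c - 2*d - 2*U + V - 2) 0 with h915 | h915
          · rcases lt_or_ge (-N - l - c - 2*d - 2*U + V - 1) 0 with h916 | h916
            · rcases lt_or_ge (-3*N + 3*m - 3*c - 2*d + 2) 0 with h917 | h917
              · rcases lt_or_ge (m + d + Y + 1) 0 with h918 | h918
                · exact c5x h2 h3 h907 h908 h914 h916 h917 h918
                exact M22 X hb h2 h3 h907 h908 h914 h916 h917 h918
              exact T0_14 X hb ⟨by clear * - h917; omega, by clear * - h3 h914; omega, by clear * - h914 h917; omega, by clear * - b17 h916; omega⟩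
            exact T0_329 X hb ⟨by clear * - h916; omega, by clear * - h915; omega, by clear * - h3 h907; omega, by have := kB 1 h916 (kA 1 h914 (kA 1 h2 (kC 1 b19 k0))); clear * - this; omega, by clear * - b11 h914; omega, by have := kA 1 h914 (kB 1 h908 (kA 2 h2 (kC 1 b19 k0))); clear * - this; omega⟩
          exact T0_59 X hb ⟨by clear * - b17 h3 h914; omega, by clear * - h908 h914 h915; omega, by have := kA 1 h914 (kA 1 h2 (kC 1 b19 (kC 1 b11 k0))); clear * - this; omega, by clear * - h915; omega⟩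
        exact T0_3 X hb ⟨by clear * - h914; omega, by clear * - h3 h907 h908; omega, by clear * - h907 h908 h914; omega, by clear * - h908; omega⟩
      exact T0_5 X hb ⟨by clear * - h3; omega, by clear * - h907; omega, by have := kA 3 h2 (kA 2 h1 (kC 3 b19 (kC 3 b17 k0))); clear * - this; omega⟩
    exact T0_255 X hb (by clear * - h2; omega)
  exact T0_0 X hb (by clear * - h1; omega)

end Pool.Agent.MP_a38735_al.WL.E342
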