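import Pool.Agent.MP_a38735_al.E342m0
import Pool.Agent.MP_a38735_al.E342m1
import Pool.Agent.MP_a38735_al.E342m2
import Pool.Agent.MP_a38735_al.E342m3
import Pool.Agent.MP_a38735_al.E342m4
import Pool.Agent.MP_a38735_al.E342m5
import Pool.Agent.MP_a38735_al.E342m6

set_option autoImplicit false
set_option linter.unusedVariables false
set_option linter.unusedSimpArgs false

namespace Pool.Agent.MP_a38735_al.WL.E342

variable {G : Type*} [Group G]

variable {W : ℤ → G} {N Q i a b l m c d L U V Y : ℤ}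

theorem main (X : C W N Q i a b l m c d L U V Y) (hb : B N Q i a b l m c d L U V Y) : False :=
  P6 X hb (fun h1 h2 h3 h4 =>
    P4 X hb h1 h2 h3 h4 (fun h1 h2 h3 h4 h5 h6 h7 h8 =>
    P2 X hb h1 h2 h3 h4 h5 h6 h7 h8 (fun h1 h2 h3 h4 h5 h6 h7 h8 h10 h11 =>
    P0 X hb h1 h2 h3 h4 h5 h6 h7 h8 h10 h11) (fun h1 h2 h3 h4 h5 h6 h7 h8 h9 =>
    P1 X hb h1 h2 h3 h4 h5 h6 h7 h8 h9)) (fun h1 h2 h3 h4 h5 h6 =>
    P3 X hb h1 h2 h3 h4 h5 h6)) (fun h2 h3 h907 h908 h914 h916 h917 h918 =>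
    P5 X hb h2 h3 h907 h908 h914 h916 h917 h918)


end Pool.Agent.MP_a38735_al.WL.E342
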