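import Pool.Agent.MP_a38735_al.AQ
import Pool.Agent.MP_a38735_al.LC

set_option autoImplicit false
set_option linter.unusedVariables false
set_option linter.unusedSimpArgs false

namespace Pool.Agent.MP_a38735_al.WL.E342

variable {G : Type*} [Group G]

structure C (W : ℤ → G) (N Q i a b l m c d L U V Y : ℤ) : Prop where
  al : AL W (2*N) Q
  a1 : Par W (0) (i + 2*a) (2*b)
  a2 : Par W (Q - 2*b) (i + 2*a) (2*b)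
  s1 : Ant W (0) (i) (2*i + 2*a)
  s2 : Ant W (i + 2*a + 1) (Q) (2*i + 2*a)
  bb : Par W (i + 1) (i + l + 1) (2*a + 2*b)
  c1 : Par W (i + l + 2*c + 2) (Q) (2*a + 2*b - 2*c)
  c2 : Par W (i + 2*a + 2*b + l + 2) (2*N) (-2*a - 2*b + 2*c)
  S2 : Ant W (i + l - m + 2*c + 1) (i + l + 2*c + 1) (2*i + 2*l + 2*c + 2)
  d1 : Par W (Q) (2*N + i + l - m + 2*c + 2*d) (-2*d)
  d2 : Par W (i + l + m + 3) (2*N) (2*N - 2*m + 2*c + 2*d - 2)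
  t1 : Ant W (0) (-2*N + i + 2*l + 2*m + 2*U - 2*V + 4) (-4*N + 2*i + 4*l + 4*m + 4*U - 2*V + 8)
  t2 : Ant W (-2*N + i + 2*l + 2*m + 2*U + 5) (Q) (-4*N + 2*i + 4*l + 4*m + 4*U - 2*V + 8)
  f1 : Par W (-2*N + i + 2*l + 2*m + 2*U - 2*V + 5) (Q) (4*N - 2*m + 2*c + 2*d + 2*V - 2)
  f2 : Par W (2*N + i + 2*l + 2*c + 2*d + 2*U + 3) (2*N) (-4*N + 2*m - 2*c - 2*d - 2*V + 2)
  f3 : Par W (i + l + m + 3) (i + 2*l + 2*m + 2*U + 4) (2*N - 2*m + 2*c + 2*d - 2)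
  g0 : Par W (i + l - m - 2*Y + 1) (i + l + 1) (2*m + 2*Y + 2)
  g1 : Par W (i + 1) (Q - l - 2*m + L - 2*U + 2*V - 1) (-2*N + 2*l + 2*m + 2*U - 2*V + 4)
  g2 : Par W (i + 1) (-2*N - l - 2*c - 2*d + L - 2*U + 1) (-2*N + 2*l + 2*m + 2*U - 2*V + 4)
  g3 : Par W (2*N - l - m - L - 2*U - 4) (i + 2*a) (-2*N - 2*a + 2*l + 2*m + 2*U + 4)
  g4 : Par W (2*N + Q - 2*b - l - m - L - 2*U - 4) (i + 2*a) (-2*N - 2*a + 2*l + 2*m + 2*U + 4)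
  n1 : Nd W (i + 2*a) (i) (i + 2*a + 2*b)
  n2 : Nd W (i + l + 1) (i + l + 2*c + 1) (i + 2*a + 2*b + l + 1)
  n3 : Nd W (2*N + i + l - m + 2*c) (i + l + m + 2) (2*N + i + l - m + 2*c + 2*d)
  n4 : Nd W (-2*N + i + 2*l + 2*m + 2*U + 4) (-2*N + i + 2*l + 2*m + 2*U - 2*V + 4) (2*N + i + 2*l + 2*c + 2*d + 2*U + 2)
  lam : L2 W (2*N) L (i + 2*a) (i) (i + 2*a + 2*b) (-2*N + i + 2*l + 2*m + 2*U + 4) (-2*N + i + 2*l + 2*m + 2*U - 2*V + 4) (2*N + i + 2*l + 2*c + 2*d + 2*U + 2)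


/-- the linear side conditions -/
structure B (N Q i a b l m c d L U V Y : ℤ) : Prop where
  b1 : 0 ≤ i
  b2 : 0 ≤ a
  b3 : i + 2*a + 1 ≤ Q
  b4 : Q ≤ i + 2*a + 2*b
  b5 : i + 2*a + 2*b + 1 ≤ 2*N
  b6 : 0 ≤ i + l + 2*c + 1
  b7 : i + l + 2*c + 2 ≤ Q
  b8 : Q ≤ i + l + 1
  b9 : i + 2*a + 2*b + l + 2 ≤ 2*N
  b10 : Q + m ≤ 2*N + i + l + 2*c
  b11 : i + l + 2*c + 1 ≤ m
  b12 : Q ≤ i + l + m + 2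
  b13 : i + l + m + 3 ≤ 2*N
  b14 : Q + m ≤ 2*N + i + l + 2*c + 2*d
  b15 : i + l + 2*c + 2*d + 1 ≤ m
  b16 : 0 ≤ l + m + 2*U + 1
  b17 : 0 ≤ V
  b18 : 2*N + 2*V ≤ i + 2*l + 2*m + 2*U + 4
  b19 : i + 2*l + 2*m + 2*U + 5 ≤ 2*N + Q
  b20 : Q ≤ 2*N + i + 2*l + 2*c + 2*d + 2*U + 2
  b21 : i + 2*l + 2*c + 2*d + 2*U + 3 ≤ 0
  b22 : i + 2*a + L + 3 ≤ 2*N
  b23 : i + 2*a + 2*b + L + 3 ≤ 2*N + Q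
  b24 : l + L + 3 ≤ 2*N
  b25 : 2*a + 2*b + L + 2 ≤ 2*N
  b26 : Q + L + 2*V ≤ i + 2*l + 2*m + 2*U + 2
  b27 : L ≤ 2*N + i + 2*l + 2*c + 2*d + 2*U
  b28 : l + m + L + 2*U + 4 ≤ 2*N
  b29 : 2*m + L + 4 ≤ 4*N + 2*c + 2*d
  b30 : 0 ≤ L
  b31 : i + 2*a ≤ L
  b32 : i + 2*a + 2*b ≤ Q + L
  b33 : l ≤ L
  b34 : Q ≤ i + l + 2*c + L + 2
  b35 : 2*N ≤ i + 2*a + 2*b + l + L + 2
  b36 : 2*N ≤ i + l + m + L + 3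
  b37 : 2*N + Q + 2*V ≤ i + 2*l + 2*m + L + 2*U + 5
  b38 : 0 ≤ i + 2*l + 2*c + 2*d + L + 2*U + 3
  b39 : l + m + 2*U + 1 ≤ L
  b40 : 1 ≤ m + 2*Y
  b41 : 2*l + L + 2*U + 4 ≤ 2*N + 2*Y
  b42 : m + 2*Y ≤ l
  b43 : 2*Y ≤ l + 2*U + 1
  b44 : 2*a + L ≤ 2*N + 2*l + 2*c + 2*d + 2*U
  b45 : 2*a + 2*b + L + 2*V ≤ 2*l + 2*m + 2*U + 2

variable {W : ℤ → G} {N Q i a b l m c d L U V Y : ℤ}

end Pool.Agent.MP_a38735_al.WL.E342
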