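import Pool.Agent.MP_a38735_al.E342t0
import Pool.Agent.MP_a38735_al.E342t1
import Pool.Agent.MP_a38735_al.E342t2
import Pool.Agent.MP_a38735_al.E342t3

set_option autoImplicit false
set_option linter.unusedVariables false
set_option linter.unusedSimpArgs false

namespace Pool.Agent.MP_a38735_al.WL.E342

variable {G : Type*} [Group G]

variable {W : ℤ → G} {N Q i a b l m c d L U V Y : ℤ}

theorem M0 (X : C W N Q i a b l m c d L U V Y) (hb : B N Q i a b l m c d L U V Y)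
    (h2 : (3*N + Q - i - 2*l - 3*m + c + d - 2*U + V - 6) < 0)
    (h3 : (N + c + d - 1) < 0)
    (h4 : (i + a - b) < 0)
    (h5 : (-2*N + 2*m - 2*c - d + 1) < 0)
    (h6 : (N + a - l - m - U - V - 3) < 0)
    (h7 : (-2*N + i + a + 2*m - c - d + Y + 2) < 0)
    (h8 : (-2*N - i + 2*a + 2*b - l + m - 2*c - 2*d - 2*V - 1) < 0)
    (h10 : (-2*N + Q - i - a + 2*m - c - d + Y + 1) < 0)
    (h11 : (-Q + i + l - m - 2*Y + 2) < 0)
    (h12 : (-N - b + 2*m - 2*c + 1) < 0)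
    (h13 : (-N + a + b - c - d - Y - 1) < 0)
    (h14 : (2*N + Q - i - a - b - m + c + 2*d + V - 2) < 0)
    (h15 : (-2*N - a + b + 2*m - c - d - V + Y + 1) < 0)
    (h16 : (N - l - m - U + V - 3) < 0)
    (h17 : (N - a - b + c + d + Y - 1) < 0)
    (h18 : (-N - l - c - 2*d - 2*U + V - 2) < 0) : False := by
  have b2 := hb.b2
  have b6 := hb.b6
  have b11 := hb.b11
  have b17 := hb.b17
  have b33 := hb.b33
  have b39 := hb.b39
  have b41 := hb.b41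
  have b42 := hb.b42
  have b43 := hb.b43
  have b44 := hb.b44
  rcases lt_or_ge (N + l + c + 2*d + 2*U) 0 with h19 | h19
  · rcases lt_or_ge (2*N - l - 2*m + 2*c - 2*U - 4) 0 with h20 | h20
    · rcases lt_or_ge (-2*N + Q - i - 2*l - 2*c - 4*d - 2*U - 3) 0 with h21 | h21
      · rcases lt_or_ge (-N + l + m + U - V + 1) 0 with h22 | h22
        · rcases lt_or_ge (a + b - c + d - 1) 0 with h23 | h23
          · exact T0_97 X hb ⟨by have := kA 1 h22 (kA 1 h21 (kA 3 h19 (kA 2 h18 (kA 2 h17 (kA 1 h11 (kA 1 h6 k0)))))); clear * - this; omega, by have := kA 1 h21 (kA 1 h20 (kA 3 h19 (kA 1 h18 (kA 3 h17 (kA 1 h14 (kA 2 h11 (kA 1 h8 (kA 1 h7 k0)))))))); clear * - this; omega, by have := kA 2 h23 (kA 1 h22 (kA 2 h21 (kA 1 h20 (kA 5 h19 (kA 2 h18 (kA 2 h17 (kA 1 h11 (kA 1 h6 k0)))))))); clear * - this; omega, by have := kA 2 h22 (kA 1 h21 (kA 1 h20 (kA 3 h19 (kA 2 h18 (kA 2 h17 (kA 1 h11 (kC 1 b2 k0)))))));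 clear * - this; omega, by have := kA 16 h22 (kA 14 h21 (kA 23 h19 (kA 17 h18 (kA 27 h17 (kA 2 h15 (kA 9 h14 (kA 23 h11 (kA 4 h8 (kA 17 h7 k0))))))))); clear * - this; omega, by have := kA 12 h22 (kA 17 h21 (kA 13 h20 (kA 53 h19 (kA 29 h18 (kA 43 h17 (kA 8 h15 (kA 23 h14 (kA 40 h11 (kA 16 h8 (kA 29 h7 k0)))))))))); clear * - this; omega, by have := kA 26 h23 (kA 16 h22 (kA 27 h21 (kA 13 h20 (kA 49 h19 (kA 17 h18 (kA 27 h17 (kA 2 h15 (kA 9 h14 (kA 23 h11 (kA 4 h8 (kA 17 h7 k0))))))))))); clear * - this; omega, by have := kA 6 h22 (kA 4 h21 (kA 3 h20 (kA 11 h19 (kA 7 h18 (kA 7 h17 (kA 2 h15 (kA 1 h14 (kA 7 h11 (kA 2 h10 (kA 3 h7 k0)))))))))); clear * - this; omega, by have := kA 26 h23 (kA 29 h21 (kA 13 h20 (kA 69 h19 (kA 25 h18 (kA 55 h17 (kA 4 h16 (kA 6 h15 (kA 27 h14 (kA 43 h11 (kA 25 h8 (kA 25 h7 k0))))))))))); clear * - this; omega, by have := kA 4 h23 (kA 3 h21 (kA 1 h20 (kA 5 h19 (kA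 1 h18 (kA 3 h17 (kA 1 h14 (kA 2 h11 (kA 1 h8 (kA 1 h7 k0))))))))); clear * - this; omega, by have := kA 2 h23 (kA 2 h22 (kA 1 h21 (kA 10 h19 (kA 8 h18 (kA 2 h15 (kA 1 h11 (kA 4 h6 (kC 1 b11 k0)))))))); clear * - this; omega, by have := kA 6 h22 (kA 15 h21 (kA 20 h19 (kA 8 h18 (kA 28 h17 (kA 4 h15 (kA 18 h14 (kA 20 h11 (kA 8 h8 (kA 8 h7 k0))))))))); clear * - this; omega, by have := kA 2 h23 (kA 3 h22 (kA 2 h21 (kA 1 h20 (kA 11 h19 (kA 8 h18 (kA 2 h17 (kA 2 h15 (kA 2 h11 (kA 3 h6 k0))))))))); clear * - this; omega⟩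
          rcases lt_or_ge (Q - i - 2*a - 2*b - l - 2*d - 2) 0 with h24 | h24
          · rcases lt_or_ge (2*N + i + 2*a + 2*b - 2*m + 2*c + 2*d + 2*V - 2) 0 with h25 | h25
            · rcases lt_or_ge (2*a - l - 2*c - 2) 0 with h26 | h26
              · exact T0_98 X hb ⟨by have := kA 2 h26 (kA 1 h24 (kA 4 h22 (kA 3 h20 (kA 8 h19 (kA 6 h18 (kA 2 h17 (kA 2 h15 (kA 2 h11 k0)))))))); clear * - this; omega, by have := kA 2 h26 (kA 1 h20 (kA 2 h15 (kC 1 b41 (kC 1 b33 k0)))); clear * - this; omega, by have := kA 4 h26 (kA 1 h25 (kA 6 h22 (kA 3 h21 (kA 4 h20 (kA 12 h19 (kA 8 h18 (kA 4 h17 (kA 4 h15 (kA 2 h14 (kA 4 h11 k0)))))))))); clear * - this; omega⟩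
              exact T0_152 X hb ⟨by have := kA 1 h22 (kA 2 h19 (kA 2 h18 (kA 1 h17 (kA 1 h6 k0)))); clear * - this; omega, by clear * - b2 h13; omega, by clear * - h26; omega, by have := kA 1 h25 (kA 2 h19 (kA 2 h18 (kA 2 h15 (kA 2 h6 (kC 1 b41 (kC 1 b33 k0)))))); clear * - this; omega, by have := kB 1 h26 (kA 6 h19 (kA 4 h18 (kA 2 h16 (kA 2 h15 (kA 2 h13 (kA 4 h6 (kC 1 b41 (kC 1 b33 k0)))))))); clear * - this; omega, by have := kB 2 h26 (kA 1 h25 (kA 2 h21 (kA 2 h19 (kA 4 h17 (kA 2 h12 (kA 2 h11 (kA 1 h8 k0))))))); clear * - this; omega, by have := kA 19 h25 (kA 22 h22 (kA 17 h21 (kA 16 h19 (kA 10 h18 (kA 36 h17 (kA 14 h15 (kA 8 h14 (kA 10 h12 (kA 25 h11 (kA 10 h8 k0)))))))))); clear * - this; omega, by have := kB 1 h26 (kA 3 h25 (kA 1 h24 (kA 2 h21 (kA 2 h19 (kA 4 h17 (kA 2 h15 (kA 2 h14 (kA 2 h12 (kA 5 h11 (kA 3 h8 k0)))))))))); clear * - this; omega, by have := kA 2 h25 (kA 4 h22 (kA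 3 h21 (kA 1 h20 (kA 4 h19 (kA 2 h18 (kA 6 h17 (kA 2 h12 (kA 3 h11 (kA 1 h8 k0))))))))); clear * - this; omega, by have := kB 1 h26 (kA 3 h25 (kA 4 h22 (kA 5 h21 (kA 1 h20 (kA 6 h19 (kA 2 h18 (kA 10 h17 (kA 4 h12 (kA 5 h11 (kA 2 h8 k0)))))))))); clear * - this; omega, by have := kA 1 h25 (kA 3 h22 (kA 3 h21 (kA 10 h19 (kA 5 h18 (kA 2 h15 (kA 1 h14 (kA 1 h12 (kA 3 h11 (kA 3 h6 (kC 2 b43 k0)))))))))); clear * - this; omega⟩
            exact T0_77 X hb ⟨by have := kA 5 h22 (kA 2 h21 (kA 12 h19 (kA 9 h18 (kA 3 h17 (kA 2 h15 (kA 1 h14 (kA 3 h11 (kA 1 h7 (kA 5 h6 k0))))))))); clear * - this; omega, by have := kA 1 h20 (kA 6 h19 (kA 4 h18 (kA 2 h16 (kA 2 h15 (kA 2 h6 (kC 1 b41 (kC 1 b33 k0))))))); clear * - this; omega, by clear * - h25; omega⟩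
          exact T0_90 X hb ⟨by clear * - h24; omega, by clear * - h23; omega, by have := kB 16 h24 (kB 2 h23 (kA 28 h21 (kA 50 h19 (kA 16 h18 (kA 12 h17 (kA 10 h15 (kA 6 h14 (kA 8 h12 (kA 11 h11 (kA 12 h6 k0)))))))))); clear * - this; omega⟩
        exact T0_56 X hb ⟨by have := kA 1 h20 (kA 1 h19 (kA 1 h15 (kA 1 h14 (kA 1 h13 (kA 1 h4 (kC 1 b39 k0)))))); clear * - this; omega, by clear * - h22; omega⟩
      exact T0_7 X hb ⟨by clear * - h21; omega, by have := kA 1 h19 (kA 2 h18 (kA 1 h17 (kA 1 h15 (kA 2 h6 (kC 1 b41 (kC 1 b39 k0)))))); clear * - this; omega, by have := kA 2 h19 (kA 4 h16 (kA 2 h14 (kA 1 h11 (kA 1 h10 (kA 1 h8 (kA 1 h7 k0)))))); clear * - this; omega⟩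
    exact T0_115 X hb ⟨by clear * - h18 h19; omega, by clear * - h20; omega, by have := kA 6 h19 (kA 4 h17 (kA 4 h16 (kA 2 h14 (kA 5 h11 (kA 3 h10 (kA 3 h8 (kA 3 h7 k0))))))); clear * - this; omega, by clear * - b17 h18; omega, by clear * - h19; omega⟩
  rcases lt_or_ge (-3*N + 3*m - 3*c - 2*d + 2) 0 with h27 | h27
  · rcases lt_or_ge (4*N - Q + i + l - 3*m + 4*c + 4*d - 2) 0 with h28 | h28
    · rcases lt_or_ge (Q - i - 2*b - 2*l - 2*c - 2*d - 2*U - 3) 0 with h29 | h29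
      · exact T0_34 X hb ⟨by have := kA 5 h29 (kA 5 h28 (kA 2 h18 (kA 2 h16 (kA 6 h15 (kA 2 h14 (kA 2 h13 (kA 2 h7 (kC 3 b41 (kC 5 b39 k0))))))))); clear * - this; omega, by have := kA 1 h29 (kA 1 h28 (kA 2 h13 (kC 1 b42 k0))); clear * - this; omega⟩
      exact T0_10 X hb ⟨by clear * - h29; omega, by have := kA 1 h27 (kB 1 h19 (kA 2 h17 (kA 2 h6 (kC 1 b41 (kC 1 b39 k0))))); clear * - this; omega, by have := kB 5 h29 (kB 6 h19 (kA 6 h17 (kA 14 h16 (kA 2 h15 (kA 6 h14 (kA 4 h10 (kA 8 h6 (kC 6 b41 (kC 6 b39 k0))))))))); clear * - this; omega⟩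
    exact T0_58 X hb ⟨by have := kA 2 h14 (kA 3 h11 (kA 1 h10 (kA 1 h8 (kA 1 h7 (kC 2 b42 k0))))); clear * - this; omega, by clear * - h28; omega, by clear * - h11 h28; omega, by have := kA 22 h17 (kA 10 h16 (kA 4 h15 (kA 2 h11 (kA 8 h6 (kA 16 h3 (kA 2 h2 (kC 7 b43 (kC 9 b41 (kC 9 b39 k0))))))))); clear * - this; omega, by clear * - h17; omega, by clear * - h13; omega⟩
  rcases lt_or_ge (3*N - 2*m + 3*c + 2*d - 3) 0 with h30 | h30
  · rcases lt_or_ge (N + a + b - m + c + d - 1) 0 with h31 | h31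
    · rcases lt_or_ge (2*N + i + 2*a + 2*b - 2*m + 2*c + 2*d + 2*V - 2) 0 with h32 | h32
      · rcases lt_or_ge (-V) 0 with h33 | h33
        · rcases lt_or_ge (N - i - l - 2) 0 with h34 | h34
          · rcases lt_or_ge (Q - i - 2*a - 2*b - l - 2*d - 2) 0 with h35 | h35
            · rcases lt_or_ge (-2*N + b + 2*m - c - d + Y + 1) 0 with h36 | h36
              · rcases lt_or_ge (2*N - i - 4*a - 4*b + 2*c - 1) 0 with h37 | h37
                · exact T0_64 X hb ⟨by have := kA 2 h36 (kA 1 h11 (kA 2 h6 (kC 1 b43 (kC 1 b41 (kC 1 b39 k0))))); clear * - this; omega, by clear * - h32 h37; omega, by have := kA 1 h37 (kA 4 h36 (kA 1 h35 (kA 24 h33 (kA 4 h32 (kA 14 h16 (kA 2 h14 (kA 6 h13 (kA 4 h12 (kC 9 b43 (kC 8 b41 (kC 8 b39 k0))))))))))); clear * - this; omega⟩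
                rcases lt_or_ge (2*N - i - l - L - 3) 0 with h38 | h38
                · rcases lt_or_ge (-3*N - Q + i - a + l + 3*m - c - 2*d + 4) 0 with h39 | h39
                  · rcases lt_or_ge (2*N - a - b - m + 2*c + d + V - 1) 0 with h40 | h40
                    · exact T0_64 X hb ⟨by have := kA 1 h39 (kA 2 h38 (kB 2 h37 (kA 2 h33 (kB 3 h19 (kA 6 h17 (kA 1 h16 (kA 1 h6 (kC 3 b41 (kC 1 b39 k0))))))))); clear * - this; omega, by clear * - h40; omega, by have := kA 2 h40 (kA 1 h39 (kA 6 h38 (kB 7 h37 (kA 3 h35 (kA 3 h33 (kB 6 h19 (kA 16 h17 (kA 1 h14 (kA 1 h12 (kA 2 h11 (kC 6 b41 k0))))))))))); clear * - this; omega⟩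
                    rcases lt_or_ge (-2*N + a + b + m - 2*c - d - V + 1) 0 with h41 | h41
                    · exact T0_98 X hb ⟨by have := kA 1 h39 (kA 1 h30 (kA 2 h17 (kA 1 h16 (kA 1 h6 (kC 1 b41 (kC 1 b39 k0)))))); clear * - this; omega, by clear * - h41; omega, by have := kA 10 h41 (kA 1 h39 (kA 6 h38 (kA 3 h35 (kA 3 h33 (kA 7 h32 (kB 6 h19 (kA 16 h17 (kA 1 h14 (kA 1 h12 (kA 2 h11 (kC 6 b41 k0))))))))))); clear * - this; omega⟩
                    exact T0_104 X hb ⟨by clear * - h18 h31 h41; omega, by clear * - h40; omega, by clear * - h41; omega⟩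
                  exact T0_97 X hb ⟨by have := kB 1 h19 (kA 2 h17 (kA 1 h16 (kA 1 h6 (kC 1 b41 (kC 1 b39 k0))))); clear * - this; omega, by have := kA 1 h34 (kB 1 h27 (kA 1 h17 (kA 1 h11 (kA 1 h10 (kA 1 h4 k0))))); clear * - this; omega, by clear * - h39; omega, by have := kA 3 h38 (kB 1 h37 (kA 2 h36 (kA 2 h35 (kA 4 h33 (kA 2 h32 (kB 4 h19 (kA 10 h17 (kA 2 h11 (kC 4 b41 (kC 1 b33 k0)))))))))); clear * - this; omega, by have := kA 1 h38 (kB 1 h37 (kA 1 h36 (kA 1 h34 (kA 8 h33 (kA 2 h32 (kB 7 h19 (kA 9 h17 (kA 4 h16 (kA 2 h12 (kC 5 b41 (kC 4 b39 k0))))))))))); clear * - this; omega, by have := kA 1 h36 (kA 1 h34 (kB 1 h27 (kA 1 h17 (kA 2 h11 (kA 2 h10 (kA 2 h4 k0)))))); clear * - this; omega, by have := kB 1 h39 (kA 1 h11 (kA 1 h10 (kA 1 h7 k0))); clear * - this; omega, by have := kA 3 h38 (kB 1 h37 (kA 1 h36 (kA 9 h33 (kA 3 h32 (kB 9 h19 (kA 12 h17 (kA 4 h16 (kA 1 h15 (kA 2 h12 (kC 7 b41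 (kC 4 b39 k0))))))))))); clear * - this; omega, by have := kB 3 h39 (kA 2 h36 (kA 2 h34 (kA 2 h17 (kA 4 h11 (kA 2 h10 (kA 2 h7 k0)))))); clear * - this; omega, by have := kB 3 h39 (kA 2 h36 (kA 1 h11 (kA 2 h5 k0))); clear * - this; omega, by clear * - h37; omega, by have := kA 4 h38 (kB 3 h37 (kA 2 h35 (kA 2 h33 (kA 1 h32 (kB 4 h19 (kA 11 h17 (kA 1 h12 (kA 2 h11 (kA 1 h10 (kC 4 b41 k0)))))))))); clear * - this; omega, by clear * - h11 h36 h39; omega⟩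
                exact T0_81 X hb ⟨by clear * - h37; omega, by clear * - b6 h32 h33; omega, by have := kA 2 h36 (kA 1 h32 (kA 2 h6 (kC 1 b41 (kC 1 b33 k0)))); clear * - this; omega, by clear * - h31; omega, by have := kA 2 h31 (kA 1 h11 (kA 1 h10 (kA 1 h7 k0))); clear * - this; omega, by have := kA 2 h36 (kA 1 h35 (kA 2 h31 (kB 2 h27 (kA 2 h12 (kA 1 h11 k0))))); clear * - this; omega, by have := kB 3 h38 (kA 3 h34 (kA 2 h33 (kA 2 h30 (kB 1 h27 (kA 3 h18 (kA 1 h15 (kA 1 h13 (kA 2 h12 (kC 3 b39 k0))))))))); clear * - this; omega, by have := kB 1 h38 (kA 1 h35 (kA 2 h34 (kA 2 h31 (kA 2 h17 (kA 2 h11 (kA 1 h10 (kA 1 h7 k0))))))); clear * - this; omega, by clear * - h38; omega, by have := kB 5 h38 (kB 2 h37 (kA 8 h35 (kA 16 h34 (kA 2 h33 (kA 10 h31 (kA 20 h17 (kA 2 h14 (kA 19 h11 (kA 9 h10 (kA 9 h7 k0)))))))))); clear * - this; omega, by have := kB 1 h38 (kA 2 h36 (kA 1 h35 (kB 2 h27 (kA 2 h12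 (kA 1 h11 k0))))); clear * - this; omega, by have := kB 1 h38 (kA 4 h36 (kA 2 h35 (kA 2 h34 (kB 4 h27 (kA 1 h13 (kA 3 h12 (kA 2 h11 (kA 1 h7 k0)))))))); clear * - this; omega, by have := kB 1 h38 (kB 1 h37 (kA 1 h35 (kA 2 h34 (kA 2 h17 (kA 2 h11 (kA 1 h10 (kA 1 h7 k0))))))); clear * - this; omega⟩
              rcases lt_or_ge (2*N + i - 2*b + 2*l - 2*m + 2*c + 2*d + 2*U - 2*Y) 0 with h42 | h42
              · exact T0_56 X hb ⟨by have := kA 1 h42 (kA 1 h34 (kA 1 h33 (kA 1 h32 (kB 1 h27 (kB 1 h19 (kA 1 h15 (kA 1 h12 (kA 1 h10 (kC 1 b39 k0))))))))); clear * - this; omega, by have := kA 1 h42 (kA 1 h34 (kA 1 h33 (kA 1 h32 (kA 2 h18 (kA 1 h17 (kA 1 h15 (kC 1 b6 k0))))))); clear * - this; omega⟩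
              exact T0_29 X hb ⟨by clear * - h7 h10; omega, by clear * - h7 h10 h11; omega, by have := kB 1 h36 (kA 2 h34 (kA 2 h31 (kB 1 h27 (kA 1 h15 (kA 1 h14 (kA 3 h13 (kA 4 h11 (kA 3 h10 (kC 4 b42 k0))))))))); clear * - this; omega, by clear * - h42; omega, by clear * - h36; omega⟩
            rcases lt_or_ge (a + b - c + d - 1) 0 with h43 | h43
            · rcases lt_or_ge (-i - 2*a - 2*b - l - 2*c - 2*d - 2*Y - 2) 0 with h44 | h44
              · exact T0_56 X hb ⟨by have := kA 1 h44 (kA 6 h33 (kA 2 h32 (kA 2 h30 (kA 2 h14 (kA 1 h11 (kA 2 h10 (kA 2 h7 (kC 3 b39 k0)))))))); clear * - this; omega, by clear * - b43 h32 h44; omega⟩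
              exact T0_148 X hb ⟨by clear * - h13; omega, by clear * - h17; omega, by clear * - h31; omega, by clear * - h44; omega, by have := kA 2 h43 (kA 4 h33 (kA 1 h32 (kA 2 h17 (kA 4 h16 (kA 1 h8 (kC 1 b41 (kC 1 b39 k0))))))); clear * - this; omega, by have := kA 2 h43 (kA 2 h33 (kA 1 h32 (kB 2 h19 (kA 2 h17 (kC 1 b42 (kC 1 b41 (kC 1 b39 k0))))))); clear * - this; omega, by clear * - h7 h10 h11; omega, by have := kA 3 h34 (kA 5 h33 (kA 3 h32 (kB 6 h19 (kA 5 h17 (kA 1 h15 (kA 2 h12 (kC 3 b41 (kC 3 b39 k0)))))))); clear * - this; omega, by have := kA 1 h43 (kA 2 h33 (kB 1 h19 (kA 1 h17 (kA 2 h16 (kC 1 b41 (kC 1 b39 k0)))))); clear * - this; omega, by have := kA 2 h33 (kA 2 h31 (kA 2 h16 (kC 1 b41 k0))); clear * - this; omega, by have := kB 1 h44 (kA 2 h33 (kA 2 h16 (kC 1 b41 k0))); clear * - this; omega, by have := kA 2 h43 (kA 8 h33 (kA 1 h32 (kA 2 h17 (kA 8 h16 (kA 1 h8 (kC 3 b41 (kC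 1 b39 k0))))))); clear * - this; omega, by have := kA 2 h43 (kA 1 h32 (kA 2 h18 (kA 4 h17 (kA 2 h16 (kA 2 h15 (kA 4 h6 (kC 3 b41 (kC 2 b39 k0)))))))); clear * - this; omega⟩
            exact T0_90 X hb ⟨by clear * - h35; omega, by clear * - h43; omega, by have := kA 4 h33 (kA 2 h32 (kB 2 h19 (kA 1 h17 (kA 1 h12 (kA 1 h10 (kC 1 b41 (kC 1 b39 (kC 2 b6 k0)))))))); clear * - this; omega⟩
          exact T0_72 X hb ⟨by have := kB 1 h34 (kA 2 h14 (kA 2 h13 (kA 2 h11 (kA 1 h8 (kC 3 b42 k0))))); clear * - this; omega, by have := kA 3 h33 (kA 1 h32 (kA 2 h30 (kB 4 h19 (kA 5 h17 (kA 4 h16 (kA 1 h15 (kA 2 h12 (kA 1 h8 (kC 3 b41 (kC 3 b39 k0)))))))))); clear * - this; omega, by have := kA 2 h30 (kB 2 h19 (kC 1 b42 (kC 1 b41 (kC 1 b39 k0)))); clear * - this; omega, by have := kA 1 h32 (kA 2 h31 (kA 2 h17 (kA 2 h11 (kA 2 h10 (kA 1 h8 (kC 1 b44 (kC 1 b39 k0))))))); clear * - this; omega, by clear * - h34;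 omega⟩
        exact T0_170 X hb ⟨by clear * - h33; omega, by have := kA 3 h30 (kB 2 h27 (kB 3 h19 (kA 3 h17 (kA 4 h16 (kA 2 h15 (kA 3 h12 (kA 1 h8 (kA 1 h7 (kC 3 b41 (kC 3 b39 k0)))))))))); clear * - this; omega, by have := kA 1 h32 (kA 4 h30 (kB 6 h19 (kA 9 h17 (kA 4 h16 (kA 2 h15 (kA 3 h12 (kA 2 h8 (kA 1 h7 (kC 4 b41 (kC 4 b39 k0)))))))))); clear * - this; omega, by have := kB 2 h33 (kB 1 h27 (kA 1 h15 (kA 1 h14 (kA 1 h13 (kA 1 h11 (kA 1 h4 k0)))))); clear * - this; omega, by have := kA 6 h30 (kB 5 h27 (kB 7 h19 (kA 3 h17 (kA 10 h16 (kA 4 h15 (kA 7 h12 (kA 1 h8 (kA 1 h7 (kC 6 b41 (kC 6 b39 k0)))))))))); clear * - this; omega, by have := kA 1 h32 (kA 4 h30 (kB 1 h27 (kB 7 h19 (kA 6 h17 (kA 6 h16 (kA 2 h15 (kA 4 h12 (kA 1 h8 (kC 4 b41 (kC 4 b39 k0)))))))))); clear * - this; omega, by have := kA 1 h32 (kA 2 h16 (kC 1 b41 (kC 1 b33 (kC 2 b17 k0)))); clear * - this; omega, by have := kA 1 h32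 (kA 4 h30 (kB 3 h27 (kB 5 h19 (kA 2 h17 (kA 6 h16 (kA 2 h15 (kA 4 h12 (kA 1 h8 (kC 4 b41 (kC 4 b39 k0)))))))))); clear * - this; omega, by clear * - h19 h30 h33; omega, by have := kA 3 h32 (kA 2 h30 (kB 8 h19 (kA 9 h17 (kA 2 h15 (kA 3 h12 (kA 2 h8 (kA 1 h7 (kC 4 b41 (kC 4 b39 k0))))))))); clear * - this; omega, by clear * - h7 h10 h11; omega, by have := kA 2 h31 (kA 1 h30 (kB 3 h19 (kA 4 h17 (kA 4 h16 (kA 2 h15 (kA 2 h12 (kA 1 h8 (kA 2 h6 (kC 3 b41 (kC 3 b39 k0)))))))))); clear * - this; omega⟩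
      exact T0_343 X hb ⟨by clear * - h16 h31; omega, by clear * - h32; omega, by have := kB 1 h19 (kA 1 h14 (kA 1 h12 (kC 1 b39 (kC 1 b17 (kC 1 b11 (kC 1 b2 k0)))))); clear * - this; omega⟩
    rcases lt_or_ge (-N - a - b + m - c - d + 1) 0 with h45 | h45
    · exact T0_202 X hb ⟨by have := kA 7 h30 (kB 1 h27 (kA 2 h16 (kA 4 h15 (kA 2 h14 (kA 1 h13 (kA 3 h12 (kA 2 h11 (kA 5 h7 (kC 7 b43 (kC 4 b41 (kC 4 b39 k0))))))))))); clear * - this; omega, by clear * - b6 h30; omega, by clear * - h13 h45; omega⟩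
    exact T0_9 X hb ⟨by clear * - h5 h27 h30; omega, by clear * - h31; omega, by clear * - h45; omega⟩
  exact T0_14 X hb ⟨by clear * - h27; omega, by clear * - h30; omega, by clear * - h5 h27; omega, by clear * - h19; omega⟩

theorem M1 (X : C W N Q i a b l m c d L U V Y) (hb : B N Q i a b l m c d L U V Y)
    (h1 : (-N + m - c) < 0)
    (h2 : (3*N + Q - i - 2*l - 3*m + c + d - 2*U + V - 6) < 0)
    (h3 : (N + c + d - 1) < 0)
    (h4 : (i + a - b) < 0)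
    (h5 : (-2*N + 2*m - 2*c - d + 1) < 0)
    (h6 : (N + a - l - m - U - V - 3) < 0)
    (h7 : (-2*N + i + a + 2*m - c - d + Y + 2) < 0)
    (h8 : (-2*N - i + 2*a + 2*b - l + m - 2*c - 2*d - 2*V - 1) < 0)
    (h10 : (-2*N + Q - i - a + 2*m - c - d + Y + 1) < 0)
    (h11 : (-Q + i + l - m - 2*Y + 2) < 0)
    (h12 : (-N - b + 2*m - 2*c + 1) < 0)
    (h13 : (-N + a + b - c - d - Y - 1) < 0)
    (h14 : (2*N + Q - i - a - b - m + c + 2*d + V - 2) < 0) : False := by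
  have b2 := hb.b2
  have b3 := hb.b3
  have b7 := hb.b7
  have b11 := hb.b11
  have b17 := hb.b17
  have b18 := hb.b18
  have b19 := hb.b19
  have b33 := hb.b33
  have b38 := hb.b38
  have b39 := hb.b39
  have b41 := hb.b41
  have b42 := hb.b42
  have b43 := hb.b43
  have b45 := hb.b45
  rcases lt_or_ge (-2*N - a + b + 2*m - c - d - V + Y + 1) 0 with h15 | h15
  · rcases lt_or_ge (N - l - m - U + V - 3) 0 with h16 | h16
    · rcases lt_or_ge (N - a - b + c + d + Y - 1) 0 with h17 | h17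
      · rcases lt_or_ge (-N - l - c - 2*d - 2*U + V - 2) 0 with h18 | h18
        · exact M0 X hb h2 h3 h4 h5 h6 h7 h8 h10 h11 h12 h13 h14 h15 h16 h17 h18
        rcases lt_or_ge (3*N - 2*m + 3*c + 2*d + V - 3) 0 with h46 | h46
        · rcases lt_or_ge (l + 2*c) 0 with h47 | h47
          · rcases lt_or_ge (2*N - i - l - L - 3) 0 with h48 | h48
            · rcases lt_or_ge (-2*N + l + 2*m - 2*c + 2*U - 2*V + 2) 0 with h49 | h49
              · rcases lt_or_ge (Q - i - 2*m - 2*c - 2*Y - 3) 0 with h50 | h50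
                · rcases lt_or_ge (2*N + i - 2*b + 2*l - 2*m + 2*c + 2*d + 2*U - 2*Y) 0 with h51 | h51
                  · rcases lt_or_ge (m + 2*c + 2*Y + 1) 0 with h52 | h52
                    · rcases lt_or_ge (-N - a + m - c + Y + 1) 0 with h53 | h53
                      · rcases lt_or_ge (N + a - l - m - U - 3) 0 with h54 | h54
                        · exact T0_98 X hb ⟨by have := kA 2 h54 (kA 1 h51 (kA 1 h48 (kA 1 h47 (kA 2 h17 (kA 2 h16 (kA 2 h15 (kC 1 b41 (kC 1 b19 k0)))))))); clear * - this; omega, by have := kA 2 h54 (kA 2 h53 (kA 1 h49 (kA 1 h47 (kA 2 h13 k0)))); clear * - this; omega, by have := kA 2 h54 (kA 2 h53 (kA 7 h52 (kA 2 h51 (kA 1 h50 (kA 3 h49 (kA 8 h16 (kA 2 h15 (kA 4 h14 (kA 6 h13 (kA 3 h11 k0)))))))))); clear * - this; omega⟩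
                        exact T0_31 X hb ⟨by have := kB 6 h54 (kA 4 h53 (kA 3 h52 (kA 2 h51 (kA 1 h50 (kA 1 h48 (kA 2 h47 (kA 6 h16 (kA 4 h13 (kA 2 h12 (kA 6 h6 k0)))))))))); clear * - this; omega, by clear * - h54; omega⟩
                      rcases lt_or_ge (N + a - m + c - Y - 1) 0 with h55 | h55
                      · exact T0_34 X hb ⟨by have := kA 2 h52 (kA 1 h51 (kA 2 h50 (kA 1 h48 (kA 1 h47 (kA 1 h17 (kA 2 h16 (kA 2 h15 (kA 1 h12 (kA 1 h11 (kA 1 h7 k0)))))))))); clear * - this; omega, by have := kA 2 h55 (kA 1 h49 (kA 2 h16 (kC 1 b43 k0))); clear * - this; omega⟩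
                      exact T0_376 X hb ⟨by have := kB 2 h53 (kA 7 h52 (kA 3 h50 (kA 4 h49 (kA 2 h46 (kA 8 h16 (kA 2 h15 (kA 2 h13 (kA 2 h12 (kA 3 h11 k0))))))))); clear * - this; omega, by have := kB 2 h53 (kA 7 h52 (kA 3 h50 (kA 3 h49 (kA 2 h46 (kA 6 h16 (kA 2 h15 (kA 2 h13 (kA 2 h12 (kA 3 h11 k0))))))))); clear * - this; omega, by have := kB 2 h55 (kA 1 h51 (kA 2 h13 (kC 1 b43 k0))); clear * - this; omega, by have := kB 4 h53 (kA 1 h52 (kA 2 h49 (kA 2 h17 (kA 4 h16 (kA 1 h11 (kA 2 h10 k0)))))); clear * - this; omega, by have := kB 4 h53 (kA 1 h52 (kA 2 h49 (kA 2 h17 (kA 4 h16 (kA 2 h11 (kA 2 h10 k0)))))); clear * - this; omega, by clear * - h55; omega, by clear * - h53; omega⟩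
                    rcases lt_or_ge (-2*N + l + 2*m + 2*Y + 2) 0 with h56 | h56
                    · exact T0_31 X hb ⟨by have := kA 6 h56 (kB 2 h52 (kA 11 h51 (kA 3 h48 (kA 5 h47 (kA 1 h17 (kA 24 h16 (kA 10 h15 (kA 3 h12 (kA 3 h10 (kA 5 h8 (kA 4 h6 k0))))))))))); clear * - this; omega, by have := kA 1 h56 (kA 1 h51 (kA 1 h48 (kA 2 h16 (kA 2 h15 (kC 1 b41 k0))))); clear * - this; omega⟩
                    exact T0_375 X hb ⟨by clear * - b42 h47; omega, by clear * - h52; omega, by clear * - h56; omega, by have := kB 1 h56 (kA 1 h50 (kA 1 h47 (kA 1 h13 (kA 1 h12 (kA 2 h11 (kA 1 h10 (kC 3 b42 k0))))))); clear * - this; omega, by have := kA 1 h49 (kA 2 h46 (kA 1 h11 (kA 2 h5 (kC 1 b43 k0)))); clear * - this; omega, by have := kA 1 h49 (kA 2 h46 (kA 2 h13 (kA 1 h10 (kA 1 h7 (kC 1 b43 k0))))); clear * - this; omega⟩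
                  rcases lt_or_ge (-2*N + b + 2*m - c - d + Y + 1) 0 with h57 | h57
                  · rcases lt_or_ge (-4*N - Q + 2*a + 4*b + 2*m - 4*c - 2*d - 2*V + 2) 0 with h58 | h58
                    · rcases lt_or_ge (2*N - 2*a - b - m + 2*c + d - 2) 0 with h59 | h59
                      · exact T0_31 X hb ⟨by have := kA 16 h59 (kA 7 h58 (kA 18 h57 (kB 1 h51 (kA 19 h50 (kA 12 h48 (kA 24 h47 (kA 18 h17 (kA 18 h16 (kA 6 h12 (kA 4 h6 (kA 32 h4 k0))))))))))); clear * - this; omega, by have := kA 12 h59 (kA 5 h58 (kA 6 h57 (kB 1 h51 (kA 5 h50 (kA 8 h47 (kA 12 h17 (kA 10 h16 (kA 4 h12 (kA 6 h7 (kC 8 b41 (kC 8 b39 k0))))))))))); clear * - this; omega⟩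
                      exact T0_83 X hb ⟨by have := kB 1 h59 (kA 3 h50 (kA 7 h48 (kA 7 h47 (kA 14 h17 (kA 10 h16 (kA 6 h15 (kA 3 h11 (kA 4 h6 (kC 3 b42 (kC 7 b41 k0)))))))))); clear * - this; omega, by clear * - h59; omega, by have := kA 2 h57 (kA 1 h50 (kA 2 h47 (kA 1 h11 (kC 1 b42 k0)))); clear * - this; omega, by have := kB 4 h59 (kA 1 h58 (kA 2 h57 (kA 2 h50 (kA 2 h17 (kA 12 h16 (kA 1 h11 (kA 1 h8 (kA 2 h7 (kA 8 h6 k0))))))))); clear * - this; omega⟩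
                    exact T0_173 X hb ⟨by clear * - h58; omega, by have := kA 2 h57 (kA 1 h50 (kA 2 h46 (kA 1 h11 (kC 1 b42 k0)))); clear * - this; omega, by have := kA 2 h57 (kA 1 h49 (kA 2 h16 (kA 2 h6 (kC 1 b41 (kC 1 b33 k0))))); clear * - this; omega, by have := kA 1 h48 (kA 1 h47 (kA 2 h17 (kA 2 h16 (kC 1 b41 (kC 2 b2 k0))))); clear * - this; omega⟩
                  exact T0_29 X hb ⟨by clear * - h7 h10; omega, by clear * - h7 h10 h11; omega, by have := kB 2 h57 (kB 1 h51 (kA 1 h49 (kA 2 h46 (kA 2 h13 (kA 2 h11 (kA 2 h10 (kC 2 b42 k0))))))); clear * - this; omega, by clear * - h51; omega, by clear * - h57; omega⟩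
                exact T0_206 X hb ⟨by clear * - h50; omega, by have := kA 2 h48 (kA 2 h47 (kA 6 h17 (kA 4 h16 (kA 2 h15 (kA 3 h11 (kA 1 h10 (kA 1 h8 (kA 1 h7 (kA 2 h4 (kC 2 b41 k0)))))))))); clear * - this; omega, by have := kA 2 h49 (kA 5 h46 (kA 3 h16 (kA 1 h14 (kA 3 h13 (kA 1 h11 (kA 3 h10 (kA 2 h8 (kA 2 h7 (kA 1 h6 k0))))))))); clear * - this; omega, by have := kA 1 h49 (kA 2 h46 (kA 2 h13 (kA 1 h10 (kA 1 h7 (kC 1 b43 k0))))); clear * - this; omega, by have := kA 1 h49 (kA 4 h16 (kC 1 b41 (kC 1 b33 (kC 2 b17 k0)))); clear * - this; omega⟩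
              rcases lt_or_ge (-V) 0 with h60 | h60
              · rcases lt_or_ge (-2*N + b + 2*m - c - d + Y + 1) 0 with h61 | h61
                · rcases lt_or_ge (-2*N + a + b + 2*m - c - d - V + Y + 1) 0 with h62 | h62
                  · rcases lt_or_ge (2*N - a - b - m + 2*c + d + V - 2) 0 with h63 | h63
                    · rcases lt_or_ge (2*N - a - b - m + 2*c + d + V - 1) 0 with h64 | h64
                      · exact T0_64 X hb ⟨by have := kA 2 h62 (kA 2 h60 (kA 2 h16 (kA 1 h11 (kC 1 b43 (kC 1 b41 (kC 1 b39 k0)))))); clear * - this; omega, by clear * - h64; omega, by have := kA 1 h60 (kB 1 h18 (kA 2 h16 (kA 1 h15 (kA 1 h14 (kA 3 h13 (kA 1 h4 (kC 2 b43 (kC 1 b41 (kC 1 b39 k0))))))))); clear * - this; omega⟩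
                      exact T0_104 X hb ⟨by clear * - h49; omega, by clear * - h64; omega, by clear * - h63; omega⟩
                    rcases lt_or_ge (-2*N + Q - i + 2*a + 2*b - 2*l - 4*c - 2*d - 2*U - 3) 0 with h65 | h65
                    · rcases lt_or_ge (-4*N - Q + 2*a + 4*b + 2*m - 4*c - 2*d - 2*V + 2) 0 with h66 | h66
                      · rcases lt_or_ge (Q - i + a + b - 2*l - m - 2*c - d - 2*U + V - 4) 0 with h67 | h67
                        · exact T0_83 X hb ⟨by have := kA 1 h67 (kA 1 h66 (kA 1 h62 (kA 1 h61 (kA 12 h60 (kB 4 h49 (kA 6 h17 (kA 6 h16 (kA 2 h12 (kC 4 b41 (kC 4 b39 k0)))))))))); clear * - this; omega, by have := kA 1 h66 (kA 1 h65 (kB 2 h49 (kA 3 h17 (kA 1 h12 (kA 1 h7 (kA 2 h6 (kC 2 b41 (kC 2 b39 k0)))))))); clear * - this; omega, by have := kA 1 h67 (kA 1 h62 (kA 1 h61 (kA 2 h60 (kB 1 h49 (kA 2 h17 (kA 1 h11 (kC 1 b41 (kC 1 b39 k0)))))))); clear * - this; omega,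 by have := kA 1 h66 (kA 1 h65 (kA 2 h60 (kB 1 h49 (kA 1 h48 (kA 2 h17 (kA 2 h16 (kA 2 h4 (kC 1 b41 k0)))))))); clear * - this; omega⟩
                        exact T0_45 X hb ⟨by clear * - h49 h65 h67; omega, by have := kB 5 h67 (kA 3 h65 (kB 1 h49 (kA 1 h48 (kA 2 h17 (kA 2 h16 (kA 1 h11 (kA 1 h10 (kA 1 h7 (kA 2 h2 (kC 1 b41 k0)))))))))); clear * - this; omega, by have := kB 1 h67 (kA 1 h66 (kA 2 h65 (kB 2 h49 (kA 3 h17 (kA 2 h16 (kA 1 h12 (kA 1 h7 (kC 2 b41 (kC 2 b39 k0))))))))); clear * - this; omega, by clear * - h67; omega⟩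
                      exact T0_173 X hb ⟨by clear * - h66; omega, by have := kA 1 h65 (kA 2 h61 (kA 2 h60 (kA 2 h46 (kA 2 h17 (kA 2 h16 (kA 1 h11 (kC 1 b41 (kC 1 b39 k0)))))))); clear * - this; omega, by clear * - h63; omega, by have := kB 1 h49 (kA 1 h48 (kA 2 h17 (kC 1 b41 (kC 2 b2 k0)))); clear * - this; omega⟩
                    exact T0_98 X hb ⟨by clear * - h65; omega, by clear * - h63; omega, by have := kB 2 h63 (kA 1 h60 (kB 1 h49 (kA 1 h46 (kA 1 h17 (kA 2 h16 (kA 1 h15 (kA 1 h14 (kA 1 h4 (kC 1 b41 (kC 1 b39 k0)))))))))); clear * - this; omega⟩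
                  exact T0_57 X hb ⟨by clear * - b19 h6 h61; omega, by have := kA 2 h17 (kA 2 h11 (kA 1 h10 (kA 1 h8 (kA 1 h7 k0)))); clear * - this; omega, by have := kB 1 h62 (kA 1 h61 (kA 1 h60 (kA 1 h46 (kA 1 h14 (kA 1 h13 (kA 1 h8 (kA 1 h7 k0))))))); clear * - this; omega, by have := kB 1 h49 (kB 2 h18 (kA 2 h13 (kA 1 h10 (kA 1 h7 (kC 1 b43 k0))))); clear * - this; omega, by clear * - h62; omega⟩
                rcases lt_or_ge (2*N + i - 2*b + 2*l - 2*m + 2*c + 2*d + 2*U - 2*Y) 0 with h68 | h68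
                · rcases lt_or_ge (-N - i + a + b - l + m - 2*c - d - V - 1) 0 with h69 | h69
                  · rcases lt_or_ge (4*N + Q - i - 2*a - 2*b - 4*m + 2*c + 2*d + 2*V - 2*Y - 5) 0 with h70 | h70
                    · rcases lt_or_ge (-2*N + i + 4*a + 4*b - 2*c) 0 with h71 | h71
                      · rcases lt_or_ge (-N + a + 2*b + m - c) 0 with h72 | h72
                        · exact T0_148 X hb ⟨by clear * - h13; omega, by clear * - h17; omega, by have := kA 2 h72 (kA 3 h71 (kA 1 h70 (kB 2 h61 (kA 2 h47 (kA 4 h46 (kA 6 h17 (kA 1 h11 (kA 3 h8 k0)))))))); clear * - this; omega, by clear * - h17 h47 h71; omega, by have := kA 2 h72 (kA 2 h71 (kA 1 h70 (kA 1 h68 (kB 2 h18 (kA 6 h17 (kA 6 h16 (kA 1 h11 (kA 3 h8 k0)))))))); clear * - this; omega, by clear * - h17 h71; omega, by clear * - h7 h10 h11; omega, by have := kA 1 h70 (kB 2 h61 (kA 3 h47 (kA 2 h15 (kA 4 h13 (kA 2 h12 (kA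 1 h11 (kC 4 b42 k0))))))); clear * - this; omega, by have := kA 2 h69 (kA 2 h68 (kA 4 h16 (kA 2 h15 (kC 1 b43 (kC 1 b41 (kC 1 b33 k0)))))); clear * - this; omega, by have := kA 1 h71 (kA 4 h60 (kB 1 h49 (kA 1 h48 (kA 2 h17 (kA 2 h16 (kC 2 b41 k0)))))); clear * - this; omega, by have := kA 1 h71 (kA 2 h60 (kB 1 h49 (kA 2 h17 (kC 1 b41 k0)))); clear * - this; omega, by have := kA 1 h71 (kA 4 h60 (kA 1 h48 (kA 2 h17 (kA 4 h16 (kC 2 b41 k0))))); clear * - this; omega, by have := kA 1 h71 (kA 2 h60 (kA 2 h17 (kA 2 h16 (kC 1 b41 k0)))); clear * - this; omega⟩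
                        exact T0_97 X hb ⟨by clear * - h72; omega, by have := kB 99 h72 (kA 27 h71 (kA 1 h70 (kA 36 h69 (kA 9 h68 (kA 12 h60 (kB 9 h49 (kA 76 h46 (kA 48 h15 (kA 36 h12 (kA 27 h11 (kA 26 h10 k0))))))))))); clear * - this; omega, by have := kA 1 h71 (kA 2 h70 (kA 2 h69 (kA 1 h68 (kA 2 h60 (kA 1 h47 (kC 1 b43 (kC 2 b42 k0))))))); clear * - this; omega, by have := kB 2 h72 (kA 1 h70 (kA 2 h47 (kA 2 h15 (kA 1 h11 (kC 1 b42 k0))))); clear * - this; omega, by have := kB 1 h72 (kA 1 h11 (kA 1 h10 (kA 1 h7 k0))); clear * - this; omega, by have := kB 15 h72 (kA 3 h71 (kA 2 h70 (kA 12 h69 (kA 12 h60 (kB 17 h49 (kB 20 h18 (kA 12 h17 (kA 6 h16 (kA 26 h11 (kA 24 h10 (kA 20 h7 k0))))))))))); clear * - this; omega, by have := kB 2 h72 (kA 1 h71 (kB 1 h61 (kA 1 h46 (kA 1 h15 (kA 1 h13 (kA 1 h12 (kA 1 h10 k0))))))); clear * - this; omega, by have := kB 6 h72 (kA 2 h71 (kA 3 h70 (kA 6 h47 (kA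 6 h15 (kA 4 h13 (kA 4 h12 (kA 3 h11 (kC 5 b42 k0)))))))); clear * - this; omega, by have := kB 55 h72 (kA 25 h71 (kA 7 h70 (kA 26 h69 (kA 1 h68 (kB 2 h61 (kB 1 h49 (kA 38 h46 (kA 28 h15 (kA 26 h12 (kA 14 h11 (kA 18 h10 k0))))))))))); clear * - this; omega, by have := kB 4 h72 (kA 3 h71 (kA 4 h69 (kA 1 h68 (kA 2 h16 (kA 2 h15 (kA 4 h14 k0)))))); clear * - this; omega, by clear * - h71; omega, by have := kB 2 h72 (kA 1 h71 (kA 4 h69 (kA 3 h68 (kB 2 h49 (kA 4 h17 (kA 2 h16 (kA 2 h15 (kA 2 h11 (kA 4 h10 k0))))))))); clear * - this; omega, by have := kA 1 h71 (kA 1 h68 (kA 2 h48 (kA 2 h16 (kA 2 h15 (kC 2 b43 (kC 2 b41 k0)))))); clear * - this; omega⟩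
                      exact T0_377 X hb ⟨by have := kB 1 h18 (kA 1 h16 (kA 2 h13 (kC 1 b43 k0))); clear * - this; omega, by clear * - h71; omega, by have := kA 2 h70 (kA 7 h68 (kB 1 h49 (kA 5 h48 (kA 6 h15 (kA 3 h13 (kA 1 h12 (kA 3 h11 (kA 6 h10 (kA 3 h7 (kC 6 b43 k0)))))))))); clear * - this; omega⟩
                    exact T0_57 X hb ⟨by clear * - h70; omega, by have := kB 1 h70 (kA 1 h68 (kA 2 h17 (kA 2 h16 (kA 2 h11 (kA 2 h10 (kA 1 h8 k0)))))); clear * - this; omega, by have := kB 1 h70 (kB 2 h61 (kB 1 h49 (kB 2 h18 (kA 2 h16 (kA 2 h13 (kA 2 h10 k0)))))); clear * - this; omega, by have := kB 1 h70 (kA 1 h68 (kB 1 h49 (kB 2 h18 (kA 2 h16 (kA 2 h13 (kA 2 h10 (kC 1 b43 k0))))))); clear * - this; omega, by have := kA 1 h68 (kA 1 h48 (kA 2 h16 (kA 1 h15 (kC 1 b43 (kC 1 b41 k0))))); clear * - this; omega⟩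
                  exact T0_11 X hb ⟨by have := kB 1 h69 (kA 2 h14 (kA 2 h13 (kA 2 h11 (kA 1 h8 (kC 3 b42 k0))))); clear * - this; omega, by have := kB 6 h61 (kA 2 h47 (kA 2 h15 (kA 3 h13 (kA 1 h12 (kA 3 h11 (kA 3 h10 (kC 5 b42 k0))))))); clear * - this; omega, by clear * - h8 h69; omega, by have := kA 1 h68 (kA 1 h47 (kB 2 h18 (kA 2 h14 (kA 4 h13 (kA 4 h11 (kA 2 h10 (kA 1 h8 (kC 1 b43 (kC 5 b42 k0))))))))); clear * - this; omega, by clear * - h69; omega⟩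
                exact T0_29 X hb ⟨by clear * - h7 h10; omega, by clear * - h7 h10 h11; omega, by have := kB 1 h68 (kB 2 h61 (kB 1 h49 (kB 2 h18 (kA 2 h13 (kA 2 h11 (kA 2 h10 (kC 2 b42 k0))))))); clear * - this; omega, by clear * - h68; omega, by clear * - h61; omega⟩
              rcases lt_or_ge (-2*N - i - 2*a - 2*b - l + 4*m - 2*c - 2*d - 2*V + 2*Y + 2) 0 with h73 | h73
              · exact T0_77 X hb ⟨by have := kA 2 h17 (kA 1 h11 (kA 1 h10 (kA 1 h7 (kA 2 h6 (kC 1 b41 (kC 1 b39 k0)))))); clear * - this; omega, by have := kB 4 h60 (kB 1 h49 (kB 2 h18 (kA 2 h16 (kA 2 h15 (kA 2 h6 (kC 1 b41 (kC 1 b33 k0))))))); clear * - this; omega, by have := kA 1 h73 (kA 2 h16 (kC 1 b41 (kC 1 b33 (kC 2 b17 k0)))); clear * - this; omega⟩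
              exact T0_170 X hb ⟨by clear * - h60; omega, by have := kB 1 h73 (kB 1 h60 (kB 1 h49 (kA 3 h48 (kA 6 h17 (kA 1 h16 (kA 3 h15 (kA 1 h11 (kA 1 h10 (kA 1 h8 (kA 1 h6 (kA 3 h4 (kC 3 b41 k0)))))))))))); clear * - this; omega, by have := kB 8 h60 (kB 11 h49 (kA 11 h48 (kA 2 h47 (kA 35 h17 (kA 16 h15 (kA 1 h12 (kA 5 h11 (kA 5 h10 (kA 7 h8 (kA 18 h4 (kC 11 b41 k0))))))))))); clear * - this; omega, by have := kB 1 h73 (kB 1 h60 (kA 1 h48 (kA 2 h17 (kA 1 h16 (kA 1 h15 (kA 1 h11 (kA 1 h10 (kA 1 h6 (kA 1 h4 (kC 1 b41 k0)))))))))); clear * - this; omega, by have := kB 2 h73 (kB 1 h60 (kB 2 h49 (kA 6 h48 (kA 10 h17 (kA 5 h16 (kA 5 h15 (kA 3 h11 (kA 3 h10 (kA 1 h8 (kA 3 h6 (kA 5 h4 (kC 6 b41 k0)))))))))))); clear * - this; omega, by have := kB 1 h60 (kB 1 h49 (kA 1 h48 (kA 2 h17 (kA 1 h16 (kA 1 h15 (kA 1 h11 (kA 1 h10 (kA 1 h6 (kA 1 h4 (kC 1 b41 k0)))))))))); clear * - this; omega, by clear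 * - h73; omega, by have := kB 3 h73 (kB 4 h49 (kA 7 h48 (kA 10 h17 (kA 2 h16 (kA 6 h15 (kA 2 h11 (kA 2 h8 (kA 6 h4 (kA 2 h2 (kC 7 b41 k0)))))))))); clear * - this; omega, by clear * - h49; omega, by have := kB 4 h60 (kA 2 h47 (kA 2 h17 (kA 2 h15 (kA 1 h11 (kA 1 h10 (kA 1 h8 (kA 1 h7 (kA 2 h4 k0)))))))); clear * - this; omega, by clear * - h7 h10 h11; omega, by have := kB 1 h60 (kA 1 h48 (kA 2 h17 (kA 1 h16 (kA 1 h15 (kA 1 h11 (kA 1 h10 (kA 1 h8 (kA 1 h6 (kA 1 h4 (kC 1 b41 k0)))))))))); clear * - this; omega⟩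
            rcases lt_or_ge (2*N - i - 4*a - 4*b + 2*c - 1) 0 with h74 | h74
            · rcases lt_or_ge (-N - b + m - c - d - V) 0 with h75 | h75
              · exact T0_34 X hb ⟨by have := kA 4 h75 (kB 1 h48 (kA 2 h46 (kA 2 h16 (kA 2 h15 (kA 2 h14 (kA 2 h13 (kA 1 h11 (kC 1 b43 (kC 2 b39 k0))))))))); clear * - this; omega, by have := kA 2 h75 (kA 1 h47 (kB 2 h18 (kA 4 h16 (kA 2 h13 (kC 1 b43 k0))))); clear * - this; omega⟩
              rcases lt_or_ge (2*N + i + 2*a + 2*b - 2*m + 2*c + 2*d + 2*V - 2) 0 with h76 | h76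
              · exact T0_64 X hb ⟨by have := kA 1 h74 (kB 1 h48 (kB 2 h18 (kA 2 h15 (kA 10 h13 (kA 4 h6 (kC 4 b43 (kC 1 b33 (kC 4 b19 k0)))))))); clear * - this; omega, by clear * - h74 h76; omega, by have := kB 2 h75 (kA 1 h74 (kB 2 h48 (kB 2 h18 (kA 2 h16 (kA 5 h13 (kA 1 h12 (kA 1 h10 (kA 2 h6 (kC 2 b43 (kC 2 b39 k0)))))))))); clear * - this; omega⟩
              exact T0_77 X hb ⟨by have := kB 1 h76 (kB 16 h75 (kA 7 h74 (kB 19 h48 (kA 5 h47 (kA 6 h16 (kA 2 h15 (kA 2 h13 (kA 12 h12 (kA 5 h8 (kA 20 h6 (kC 19 b39 k0))))))))))); clear * - this; omega, by clear * - h75; omega, by clear * - h76; omega⟩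
            exact T0_81 X hb ⟨by clear * - h74; omega, by have := kB 2 h18 (kA 2 h16 (kA 2 h13 (kC 1 b43 k0))); clear * - this; omega, by clear * - h47 h74; omega, by have := kA 1 h46 (kB 1 h18 (kA 2 h13 (kC 1 b43 k0))); clear * - this; omega, by have := kB 6 h74 (kA 3 h47 (kA 9 h46 (kB 1 h18 (kA 6 h17 (kA 2 h14 (kA 14 h11 (kA 12 h10 (kA 4 h8 (kA 10 h7 (kA 2 h6 k0)))))))))); clear * - this; omega, by have := kA 3 h47 (kB 5 h18 (kA 3 h17 (kA 9 h16 (kA 1 h14 (kA 4 h11 (kA 3 h10 (kA 2 h8 (kA 2 h7 (kA 1 h6 k0))))))))); clear * - this; omega, by have := kB 4 h48 (kA 14 h47 (kA 11 h17 (kA 36 h16 (kA 12 h15 (kA 9 h12 (kA 1 h11 (kA 1 h10 (kA 4 h8 (kA 16 h6 (kC 11 b41 (kC 15 b39 k0))))))))))); clear * - this; omega, by have := kB 3 h48 (kA 13 h47 (kA 22 h17 (kA 42 h16 (kA 14 h15 (kA 8 h12 (kA 2 h11 (kA 2 h10 (kA 3 h8 (kA 22 h6 (kC 17 b41 (kC 15 b39 k0))))))))))); clear * - this; omega, by clear *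 - h48; omega, by have := kB 4 h48 (kA 19 h47 (kA 36 h17 (kA 66 h16 (kA 22 h15 (kA 14 h12 (kA 6 h11 (kA 6 h10 (kA 4 h8 (kA 36 h6 (kC 26 b41 (kC 25 b39 k0))))))))))); clear * - this; omega, by have := kB 1 h48 (kA 1 h47 (kA 19 h17 (kA 14 h16 (kA 8 h15 (kA 1 h12 (kA 9 h11 (kA 9 h10 (kA 1 h8 (kA 4 h6 (kA 10 h4 (kC 9 b41 k0))))))))))); clear * - this; omega, by have := kB 7 h48 (kA 22 h47 (kA 33 h17 (kA 78 h16 (kA 26 h15 (kA 17 h12 (kA 3 h11 (kA 3 h10 (kA 7 h8 (kA 38 h6 (kC 28 b41 (kC 30 b39 k0))))))))))); clear * - this; omega, by have := kA 2 h17 (kA 4 h16 (kA 2 h15 (kA 1 h11 (kA 1 h10 (kA 1 h8 (kA 1 h7 (kA 2 h4 (kC 2 b41 k0)))))))); clear * - this; omega⟩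
          rcases lt_or_ge (2*N - i - 4*a - 4*b - l - 2) 0 with h77 | h77
          · rcases lt_or_ge (-2*N + Q - i + 2*a + 2*b - 2*l - 4*c - 2*d - 2*U - 3) 0 with h78 | h78
            · exact T0_269 X hb ⟨by have := kA 1 h78 (kA 2 h77 (kA 3 h46 (kB 1 h18 (kA 4 h13 (kA 1 h11 (kA 1 h8 k0)))))); clear * - this; omega, by clear * - h7 h10 h11; omega, by clear * - b43 h13 h77; omega, by clear * - b43 h18 h46; omega⟩
            rcases lt_or_ge (2*N + Q - i - 2*l - 2*m - 2*U + 2*V - 6) 0 with h79 | h79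
            · exact T0_56 X hb ⟨by have := kA 10 h79 (kB 6 h78 (kA 1 h77 (kB 2 h47 (kA 7 h46 (kB 13 h18 (kA 10 h15 (kA 15 h13 (kA 1 h12 (kA 5 h10 (kA 2 h8 (kA 12 h4 (kC 9 b33 k0)))))))))))); clear * - this; omega, by have := kA 1 h79 (kB 1 h78 (kB 1 h47 (kA 2 h13 (kC 1 b43 k0)))); clear * - this; omega⟩
            rcases lt_or_ge (2*N - a - b - m + 2*c + d + V - 2) 0 with h80 | h80
            · exact T0_56 X hb ⟨by have := kA 6 h80 (kB 2 h47 (kA 2 h46 (kB 4 h18 (kA 2 h15 (kA 6 h13 (kA 3 h10 (kA 1 h7 (kA 2 h6 (kA 2 h4 (kC 3 b33 k0)))))))))); clear * - this; omega, by have := kA 2 h80 (kB 1 h47 (kA 2 h13 (kC 1 b43 k0))); clear * - this; omega⟩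
            exact T0_98 X hb ⟨by clear * - h78; omega, by clear * - h80; omega, by have := kB 2 h80 (kB 5 h47 (kA 12 h46 (kA 8 h16 (kA 4 h15 (kA 6 h10 (kA 2 h6 (kA 6 h4 (kC 5 b41 (kC 5 b33 k0))))))))); clear * - this; omega⟩
          exact T0_151 X hb ⟨by clear * - h47; omega, by clear * - h77; omega, by have := kA 1 h46 (kB 1 h18 (kA 4 h13 (kC 1 b43 k0))); clear * - this; omega, by have := kA 3 h17 (kA 4 h16 (kA 1 h12 (kA 1 h10 (kC 1 b41 (kC 1 b39 (kC 4 b17 (kC 1 b7 k0))))))); clear * - this; omega, by clear * - h13; omega, by clear * - h17; omega⟩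
        exact T0_62 X hb ⟨by clear * - h46; omega, by have := kB 2 h18 (kA 3 h17 (kA 3 h16 (kA 1 h14 (kA 4 h11 (kA 3 h10 (kA 2 h8 (kA 2 h7 (kA 1 h6 k0)))))))); clear * - this; omega, by have := kA 1 h17 (kA 1 h12 (kA 1 h11 (kA 1 h10 (kC 1 b45 (kC 1 b39 (kC 2 b11 k0)))))); clear * - this; omega, by clear * - h18; omega⟩
      rcases lt_or_ge (2*a + 2*b + m - L + 2*Y - 1) 0 with h81 | h81
      · exact T0_106 X hb (by have := kA 2 h81 (kA 4 h16 (kA 2 h12 (kA 4 h6 (kC 1 b42 (kC 3 b41 (kC 1 b39 (kC 6 b2 k0))))))); clear * - this; omega)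
      exact T0_17 X hb ⟨by have := kB 2 h17 (kA 2 h15 (kA 2 h14 (kC 1 b11 (kC 2 b3 k0)))); clear * - this; omega, by have := kA 2 h16 (kA 2 h3 (kC 1 b43 (kC 1 b41 (kC 1 b39 (kC 2 b17 k0))))); clear * - this; omega, by clear * - h17; omega, by clear * - h81; omega, by have := kB 1 h81 (kA 2 h12 (kC 1 b43 (kC 1 b42 (kC 1 b41 (kC 2 b11 (kC 2 b2 k0)))))); clear * - this; omega⟩
    rcases lt_or_ge (-3*N - i - 2*a + m - 2*c - 2*d + L - U - V + 2) 0 with h82 | h82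
    · rcases lt_or_ge (N + a - l - m - U - 3) 0 with h83 | h83
      · rcases lt_or_ge (-2*a + m + c + Y) 0 with h84 | h84
        · exact T0_44 X hb ⟨by have := kA 2 h84 (kA 6 h83 (kA 2 h82 (kA 2 h14 (kA 4 h13 (kA 2 h12 (kA 1 h11 (kC 3 b42 (kC 1 b41 (kC 3 b39 (kC 3 b11 k0)))))))))); clear * - this; omega, by have := kA 2 h84 (kA 4 h83 (kA 2 h82 (kB 2 h16 (kA 2 h14 (kA 4 h13 (kA 2 h11 (kC 1 b45 (kC 3 b42 (kC 3 b39 k0))))))))); clear * - this; omega, by have := kA 2 h84 (kA 6 h83 (kA 2 h82 (kA 2 h14 (kA 4 h13 (kA 1 h11 (kC 2 b42 (kC 2 b39 (kC 1 b19 (kC 1 b11 k0))))))))); clear * - this; omega, by have := kA 1 h83 (kB 1 h16 (kA 1 h14 (kA 1 h11 (kC 1 b42 k0)))); clear * - this; omega⟩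
        exact T0_91 X hb ⟨by have := kA 2 h82 (kA 4 h3 (kC 1 b42 (kC 2 b39 (kC 1 b18 (kC 1 b11 k0))))); clear * - this; omega, by have := kA 4 h83 (kA 6 h82 (kA 4 h14 (kA 4 h13 (kA 4 h11 (kA 4 h4 (kA 8 h3 (kC 5 b42 (kC 6 b39 (kC 1 b18 (kC 3 b11 k0)))))))))); clear * - this; omega, by have := kB 2 h16 (kA 1 h14 (kA 3 h13 (kA 2 h11 (kA 1 h2 (kC 3 b42 k0))))); clear * - this; omega, by have := kA 8 h83 (kA 4 h82 (kA 3 h14 (kA 3 h13 (kA 1 h11 (kA 4 h3 (kA 1 h2 (kC 4 b39 (kC 3 b19 (kC 4 b11 k0))))))))); clear * - this; omega, by have := kB 1 h84 (kA 2 h83 (kA 2 h15 (kA 2 h14 (kA 2 h13 (kA 1 h11 (kC 2 b42 (kC 1 b19 (kC 1 b11 k0)))))))); clear * - this; omega, by clear * - h84; omega⟩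
      rcases lt_or_ge (-2*N - Q + 2*b + l + m + L + 2*U + 4) 0 with h85 | h85
      · exact T0_59 X hb ⟨by have := kA 1 h85 (kA 3 h82 (kA 1 h14 (kA 1 h12 (kA 2 h11 (kA 4 h7 (kA 3 h6 (kA 2 h2 (kC 4 b39 k0)))))))); clear * - this; omega, by clear * - h1 h6 h83; omega, by have := kA 1 h85 (kA 2 h14 (kA 1 h11 (kA 2 h7 (kC 1 b38 (kC 2 b11 k0))))); clear * - this; omega, by have := kA 1 h85 (kA 1 h14 (kA 1 h12 (kA 2 h6 (kC 1 b39 (kC 1 b11 (kC 1 b2 k0)))))); clear * - this; omega⟩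
      exact T0_31 X hb ⟨by clear * - h85; omega, by clear * - h83; omega⟩
    exact T0_100 X hb ⟨by clear * - h82; omega, by clear * - h16; omega⟩
  rcases lt_or_ge (2*N + Q - i - a - b - 2*m + c + d + V - Y - 3) 0 with h86 | h86
  · rcases lt_or_ge (-3*N + i + a + b + 2*l + 3*m + 2*U - V + Y + 5) 0 with h87 | h87
    · rcases lt_or_ge (N - i - l - 2) 0 with h88 | h88
      · rcases lt_or_ge (2*N + i + a - b - 2*m + c + d + V - Y - 2) 0 with h89 | h89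
        · exact T0_34 X hb ⟨by have := kA 1 h89 (kA 2 h88 (kA 1 h86 (kA 4 h12 (kA 2 h10 (kA 2 h6 (kC 1 b39 (kC 2 b33 (kC 4 b11 (kC 6 b2 k0))))))))); clear * - this; omega, by have := kA 1 h89 (kA 1 h88 (kA 1 h13 (kA 1 h6 (kC 1 b43 k0)))); clear * - this; omega⟩
        exact T0_149 X hb ⟨by clear * - h89; omega, by have := kB 2 h89 (kA 1 h86 (kA 1 h11 (kA 2 h4 k0))); clear * - this; omega, by have := kA 1 h88 (kA 1 h87 (kA 1 h86 (kA 1 h13 (kA 2 h11 (kA 1 h2 (kC 2 b42 k0)))))); clear * - this; omega, by clear * - b17 b19 h86; omega, by have := kA 1 h87 (kA 2 h86 (kA 2 h13 (kA 2 h11 (kA 1 h3 (kC 1 b43 (kC 3 b42 k0)))))); clear * - this; omega, by clear * - h15; omega⟩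
      exact T0_72 X hb ⟨by have := kB 1 h88 (kA 2 h14 (kA 2 h13 (kA 2 h11 (kA 1 h8 (kC 3 b42 k0))))); clear * - this; omega, by have := kA 3 h86 (kA 2 h13 (kA 1 h12 (kA 2 h11 (kA 1 h10 (kC 4 b42 (kC 3 b17 (kC 2 b7 k0))))))); clear * - this; omega, by have := kA 1 h86 (kA 1 h13 (kC 1 b42 (kC 1 b17 (kC 1 b7 k0)))); clear * - this; omega, by have := kA 1 h87 (kA 1 h86 (kA 1 h11 (kA 1 h8 (kA 1 h3 (kC 1 b45 (kC 1 b43 (kC 1 b39 k0))))))); clear * - this; omega, by clear * - h88; omega⟩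
    exact T0_252 X hb ⟨by have := kA 1 h86 (kA 2 h13 (kA 1 h11 (kA 1 h3 (kC 1 b43 (kC 2 b42 k0))))); clear * - this; omega, by have := kA 2 h13 (kA 2 h3 (kC 1 b42 (kC 1 b41 (kC 1 b39 (kC 2 b17 k0))))); clear * - this; omega, by clear * - h87; omega, by have := kA 1 h86 (kA 2 h13 (kA 1 h3 (kC 1 b43 (kC 1 b42 (kC 1 b19 k0))))); clear * - this; omega⟩
  rcases lt_or_ge (a + b - 2*l - c - d - 2*U + V + Y - 3) 0 with h90 | h90
  · rcases lt_or_ge (-Q + 2*a + 2*b - l - m + L) 0 with h91 | h91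
    · rcases lt_or_ge (-4*N - Q + l + 2*m - 2*c - 2*d + L - 2*V + 4) 0 with h92 | h92
      · rcases lt_or_ge (4*N + Q - 2*i - 4*l - 4*m - 4*U + 2*V - 9) 0 with h93 | h93
        · exact T0_29 X hb ⟨by clear * - h7 h10; omega, by clear * - h7 h10 h11; omega, by have := kA 1 h91 (kA 2 h11 (kA 2 h10 (kA 1 h3 (kA 1 h2 (kC 1 b42 (kC 1 b39 (kC 1 b17 k0))))))); clear * - this; omega, by have := kA 1 h93 (kA 3 h92 (kA 3 h91 (kA 7 h90 (kB 1 h86 (kA 6 h10 (kA 2 h6 (kA 6 h3 (kC 3 b39 (kC 3 b33 (kC 10 b2 k0)))))))))); clear * - this; omega, by clear * - b2 b17 h15; omega⟩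
        exact T0_49 X hb ⟨by clear * - h93; omega, by have := kA 3 h90 (kB 3 h15 (kA 2 h6 (kC 4 b2 k0))); clear * - this; omega, by have := kA 4 h92 (kA 1 h91 (kA 2 h90 (kB 1 h86 (kB 3 h15 (kA 4 h14 (kA 2 h13 (kA 2 h10 (kA 4 h3 (kC 5 b39 (kC 2 b11 (kC 10 b2 k0))))))))))); clear * - this; omega⟩
      rcases lt_or_ge (-2*N - Q - l - 2*c - 2*d + L - 2*U + 1) 0 with h94 | h94
      · exact T0_29 X hb ⟨by clear * - h7 h10; omega, by clear * - h7 h10 h11; omega, by have := kA 1 h91 (kA 2 h11 (kA 2 h10 (kA 1 h3 (kA 1 h2 (kC 1 b42 (kC 1 b39 (kC 1 b17 k0))))))); clear * - this; omega, by have := kA 1 h94 (kA 1 h91 (kA 2 h90 (kA 2 h10 (kA 2 h3 (kC 1 b39 (kC 1 b33 (kC 2 b17 (kC 2 b2 k0)))))))); clear * - this; omega, by clear * - b2 b17 h15; omega⟩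
      exact T0_56 X hb ⟨by clear * - h94; omega, by clear * - b2 h15 h90; omega⟩
    exact T0_34 X hb ⟨by clear * - h91; omega, by clear * - h6 h15 h90; omega⟩
  exact T0_55 X hb ⟨by have := kB 1 h90 (kB 1 h15 (kA 2 h11 (kA 4 h10 (kA 2 h6 (kC 2 b42 k0))))); clear * - this; omega, by have := kB 1 h90 (kB 1 h15 (kA 4 h11 (kA 4 h10 (kA 2 h6 (kC 2 b42 k0))))); clear * - this; omega, by have := kA 2 h13 (kA 2 h11 (kA 2 h3 (kA 2 h2 (kC 3 b42 (kC 1 b41 (kC 1 b39 k0)))))); clear * - this; omega, by clear * - h90; omega, by clear * - h86; omega, by clear * - h15; omega⟩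

theorem M2 (X : C W N Q i a b l m c d L U V Y) (hb : B N Q i a b l m c d L U V Y)
    (h2 : (3*N + Q - i - 2*l - 3*m + c + d - 2*U + V - 6) < 0)
    (h3 : (N + c + d - 1) < 0)
    (h4 : (i + a - b) < 0)
    (h5 : (-2*N + 2*m - 2*c - d + 1) < 0)
    (h6 : (N + a - l - m - U - V - 3) < 0)
    (h7 : (-2*N + i + a + 2*m - c - d + Y + 2) < 0)
    (h8 : (-2*N - i + 2*a + 2*b - l + m - 2*c - 2*d - 2*V - 1) < 0)
    (h10 : (-2*N + Q - i - a + 2*m - c - d + Y + 1) < 0)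
    (h11 : (-Q + i + l - m - 2*Y + 2) < 0)
    (h12 : (-N - b + 2*m - 2*c + 1) ≥ 0)
    (h137 : (N + b - m + 2*c - 2) < 0) : False := by
  have b2 := hb.b2
  have b3 := hb.b3
  have b4 := hb.b4
  have b6 := hb.b6
  have b9 := hb.b9
  have b11 := hb.b11
  have b14 := hb.b14
  have b17 := hb.b17
  have b18 := hb.b18
  have b19 := hb.b19
  have b21 := hb.b21
  have b33 := hb.b33
  have b35 := hb.b35
  have b39 := hb.b39
  have b41 := hb.b41
  have b42 := hb.b42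
  have b43 := hb.b43
  have b45 := hb.b45
  rcases lt_or_ge (N - a - b + c + d + Y - 1) 0 with h138 | h138
  · rcases lt_or_ge (N + Q - i + a + b - 2*l - 2*m - c - 2*U + V - 5) 0 with h139 | h139
    · rcases lt_or_ge (-a + m + c + Y + 1) 0 with h140 | h140
      · rcases lt_or_ge (-m - c - Y - 2) 0 with h141 | h141
        · rcases lt_or_ge (-m - c - Y - 1) 0 with h142 | h142
          · rcases lt_or_ge (2*N - Q - 2*a - 2*b - 2*m - 2*Y - 2) 0 with h143 | h143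
            · rcases lt_or_ge (a + 2*b + c - 1) 0 with h144 | h144
              · rcases lt_or_ge (-Q + i - 2*a - 2*b + l + 1) 0 with h145 | h145
                · exact T0_2 X hb ⟨by have := kA 6 h145 (kA 13 h144 (kA 1 h140 (kA 8 h139 (kA 17 h138 (kA 2 h11 (kA 1 h8 (kA 6 h5 (kA 7 h4 (kC 7 b41 (kC 7 b39 (kC 6 b18 k0))))))))))); clear * - this; omega, by have := kA 3 h145 (kA 4 h144 (kA 2 h138 (kA 1 h10 (kA 1 h7 (kA 4 h6 (kA 2 h5 (kC 2 b41 (kC 2 b39 (kC 1 b6 k0))))))))); clear * - this; omega⟩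
                exact T0_187 X hb ⟨by clear * - b3 h142 h144; omega, by clear * - h145; omega, by clear * - h11; omega, by have := kA 1 h143 (kA 2 h138 (kA 1 h10 (kA 1 h7 k0))); clear * - this; omega⟩
              rcases lt_or_ge (-Q + i - a + l + c + 1) 0 with h146 | h146
              · exact T0_2 X hb ⟨by have := kA 4 h146 (kB 2 h144 (kA 4 h139 (kA 3 h138 (kA 1 h137 (kA 1 h8 (kA 3 h7 (kA 5 h3 (kC 3 b41 (kC 3 b39 (kC 2 b18 k0)))))))))); clear * - this; omega, by have := kA 2 h146 (kA 1 h10 (kA 1 h7 (kA 2 h6 (kA 1 h3 (kC 1 b41 (kC 1 b39 (kC 1 b6 k0))))))); clear * - this; omega⟩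
              exact T0_15 X hb ⟨by clear * - h146; omega, by have := kB 1 h144 (kA 1 h138 (kA 1 h137 (kA 1 h11 (kA 1 h10 k0)))); clear * - this; omega, by have := kA 1 h139 (kA 1 h137 (kC 1 b19 (kC 1 b17 k0))); clear * - this; omega, by clear * - h144; omega⟩
            rcases lt_or_ge (-Q + i - 2*a - 2*b + l + 1) 0 with h147 | h147
            · exact T0_2 X hb ⟨by have := kA 1 h147 (kB 1 h143 (kA 2 h142 (kA 1 h138 (kA 1 h137 (kA 1 h7 (kA 2 h3 (kC 1 b41 (kC 1 b39 (kC 2 b18 k0))))))))); clear * - this; omega, by have := kA 2 h147 (kB 1 h143 (kA 2 h137 (kA 2 h6 (kA 2 h5 (kA 1 h3 (kC 1 b41 (kC 1 b39 (kC 1 b6 k0)))))))); clear * - this; omega⟩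
            exact T0_206 X hb ⟨by clear * - b3 h140; omega, by have := kA 2 h140 (kA 2 h138 (kA 2 h11 (kA 1 h10 (kA 1 h7 (kA 2 h6 (kC 1 b41 (kC 1 b39 (kC 1 b18 k0)))))))); clear * - this; omega, by clear * - h147; omega, by clear * - h143; omega, by clear * - h142; omega⟩
          rcases lt_or_ge (-l - 2*c - 2) 0 with h148 | h148
          · rcases lt_or_ge (-2*N - Q - l - 2*c - 2*d + L - 2*U) 0 with h149 | h149
            · rcases lt_or_ge (3*N + Q - i - 2*l - 3*m + c + d - 2*U + 2*V - 6) 0 with h150 | h150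
              · rcases lt_or_ge (-2*N + Q - i - 2*l - 2*c - 4*d - 2*U - 3) 0 with h151 | h151
                · exact T0_12 X hb ⟨by have := kA 1 h148 (kB 2 h142 (kA 1 h6 (kC 1 b41 (kC 1 b33 k0)))); clear * - this; omega, by have := kA 1 h151 (kA 4 h150 (kA 16 h148 (kB 20 h142 (kA 4 h140 (kA 3 h138 (kA 3 h137 (kA 5 h11 (kA 1 h7 (kA 7 h6 (kC 9 b41 (kC 10 b33 k0))))))))))); clear * - this; omega⟩
                exact T0_7 X hb ⟨by clear * - h151; omega, by have := kB 5 h151 (kA 4 h150 (kA 14 h149 (kA 4 h148 (kA 8 h141 (kA 12 h140 (kA 14 h137 (kA 9 h11 (kA 24 h10 (kA 22 h6 (kA 14 h4 (kC 5 b41 (kC 19 b39 k0)))))))))))); clear * - this; omega, by have := kB 3 h151 (kA 8 h150 (kA 4 h148 (kB 4 h142 (kA 2 h10 (kA 2 h6 (kA 4 h5 (kC 3 b41 (kC 3 b39 k0)))))))); clear * - this; omega⟩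
              exact T0_2 X hb ⟨by have := kB 1 h150 (kA 1 h149 (kA 5 h148 (kB 8 h142 (kA 1 h138 (kA 1 h137 (kA 2 h11 (kA 1 h7 (kA 4 h2 (kC 3 b41 (kC 1 b39 (kC 3 b33 k0))))))))))); clear * - this; omega, by clear * - h150; omega⟩
            rcases lt_or_ge (-4*N - Q + l + 2*m - 2*c - 2*d + L - 2*V + 5) 0 with h152 | h152
            · rcases lt_or_ge (3*N + Q - i - 2*l - 3*m + c + d - 2*U + 2*V - 6) 0 with h153 | h153
              · rcases lt_or_ge (-2*N + Q - i - 2*l - 2*c - 4*d - 2*U - 3) 0 with h154 | h154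
                · exact T0_12 X hb ⟨by have := kA 1 h148 (kB 2 h142 (kA 1 h6 (kC 1 b41 (kC 1 b33 k0)))); clear * - this; omega, by have := kA 1 h154 (kA 4 h153 (kA 2 h152 (kB 2 h149 (kA 12 h148 (kB 16 h142 (kA 3 h138 (kA 3 h137 (kA 5 h11 (kA 1 h7 (kA 3 h6 (kC 5 b41 (kC 6 b33 k0)))))))))))); clear * - this; omega⟩
                exact T0_7 X hb ⟨by clear * - h154; omega, by have := kA 4 h153 (kA 5 h152 (kB 1 h149 (kA 4 h148 (kB 2 h142 (kA 2 h140 (kA 4 h137 (kA 4 h11 (kA 4 h10 (kA 2 h6 (kA 4 h4 (kC 4 b39 k0))))))))))); clear * - this; omega, by have := kB 1 h154 (kA 4 h153 (kA 1 h152 (kB 1 h149 (kA 2 h148 (kB 2 h142 (kA 2 h5 (kC 1 b41 (kC 1 b39 k0)))))))); clear * - this; omega⟩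
              exact T0_2 X hb ⟨by have := kB 1 h153 (kB 1 h149 (kA 3 h148 (kB 4 h142 (kA 2 h139 (kA 4 h138 (kA 2 h137 (kA 2 h11 (kA 2 h7 (kC 3 b41 (kC 2 b33 (kC 3 b18 k0))))))))))); clear * - this; omega, by clear * - h153; omega⟩
            exact T0_35 X hb ⟨by clear * - h152; omega, by have := kA 1 h148 (kB 1 h142 (kA 1 h140 (kA 1 h6 (kC 1 b41 (kC 1 b33 k0))))); clear * - this; omega⟩
          exact T0_264 X hb ⟨by clear * - h148; omega, by clear * - b4 h11 h142; omega, by have := kA 4 h141 (kA 2 h139 (kA 2 h137 (kA 1 h11 (kA 2 h6 (kA 2 h5 (kA 2 h3 (kC 2 b42 (kC 1 b41 (kC 1 b39 (kC 1 b19 k0)))))))))); clear * - this; omega, by clear * - h141; omega, by clear * - h142; omega⟩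
        rcases lt_or_ge (-Q + i - 2*a - 2*b + l + 2*m + 2*c + 2*Y + 3) 0 with h155 | h155
        · rcases lt_or_ge (a + 2*b + c - 1) 0 with h156 | h156
          · rcases lt_or_ge (-2*N + Q - i - 2*a - 2*b - l + 4*m - 2*c - 2*d + 2*Y + 2) 0 with h157 | h157
            · rcases lt_or_ge (-N + i + 2*a + b + m + Y + 1) 0 with h158 | h158
              · exact T0_186 X hb ⟨by have := kA 10 h158 (kA 6 h156 (kA 5 h155 (kA 4 h139 (kA 4 h137 (kA 4 h11 (kA 4 h6 (kC 6 b41 (kC 6 b33 (kC 10 b6 (kC 14 b2 k0)))))))))); clear * - this; omega, by have := kA 4 h157 (kA 4 h155 (kA 6 h139 (kA 6 h138 (kA 2 h137 (kA 6 h11 (kA 8 h6 (kA 2 h3 (kC 1 b45 (kC 5 b41 (kC 6 b39 k0)))))))))); clear * - this; omega, by have := kA 8 h158 (kA 1 h157 (kA 2 h156 (kB 6 h141 (kA 6 h139 (kA 2 h138 (kA 6 h6 (kC 9 b41 (kC 9 b33 (kC 8 b6 (kC 26 b2 k0)))))))))); clear * - this; omega⟩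
              exact T0_137 X hb ⟨by clear * - h158; omega, by have := kA 1 h156 (kA 1 h155 (kA 2 h139 (kA 1 h138 (kA 2 h6 (kA 1 h5 (kC 1 b41 (kC 1 b39 (kC 1 b19 k0)))))))); clear * - this; omega, by have := kB 1 h158 (kA 2 h156 (kA 2 h4 (kC 1 b6 k0))); clear * - this; omega⟩
            exact T0_378 X hb ⟨by clear * - h157; omega, by have := kA 2 h155 (kA 1 h139 (kA 2 h137 (kA 3 h5 (kA 1 h4 (kA 1 h2 (kC 1 b41 (kC 1 b39 (kC 2 b17 (kC 1 b6 k0))))))))); clear * - this; omega, by have := kB 1 h157 (kA 1 h155 (kA 4 h139 (kA 2 h5 (kC 1 b42 (kC 1 b41 (kC 1 b39 (kC 4 b17 k0))))))); clear * - this; omega, by clear * - h11; omega, by have := kA 1 h156 (kA 1 h140 (kA 3 h139 (kA 3 h138 (kA 2 h11 (kA 2 h6 (kA 1 h5 (kC 1 b42 (kC 2 b41 (kC 2 b39 (kC 1 b17 k0)))))))))); clear * - this; omega⟩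
          exact T0_15 X hb ⟨by have := kB 1 h156 (kA 1 h155 (kA 2 h140 (kA 4 h139 (kA 4 h6 (kA 2 h5 (kA 2 h3 (kC 1 b42 (kC 3 b41 (kC 3 b39 k0))))))))); clear * - this; omega, by have := kB 1 h156 (kA 1 h138 (kA 1 h137 (kA 1 h11 (kA 1 h10 k0)))); clear * - this; omega, by have := kA 1 h139 (kA 1 h137 (kC 1 b19 (kC 1 b17 k0))); clear * - this; omega, by clear * - h156; omega⟩
        exact T0_253 X hb ⟨by clear * - b6 b11 h11; omega, by clear * - h141; omega, by clear * - b14 h11 h138; omega, by clear * - h155; omega⟩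
      rcases lt_or_ge (2*b + m + 2*c + 2*Y) 0 with h159 | h159
      · exact T0_349 X hb ⟨by clear * - h11 h140 h159; omega, by have := kA 4 h138 (kA 2 h137 (kA 1 h11 (kA 1 h10 (kA 1 h7 (kA 2 h6 (kA 2 h5 (kC 1 b41 (kC 1 b39 (kC 1 b18 k0))))))))); clear * - this; omega, by clear * - h11; omega, by have := kA 1 h159 (kB 2 h140 (kA 1 h11 (kA 2 h5 (kA 2 h2 (kC 1 b42 (kC 1 b41 (kC 1 b39 (kC 2 b17 k0)))))))); clear * - this; omega⟩
      exact T0_268 X hb ⟨by have := kA 1 h138 (kA 1 h137 (kA 1 h11 (kA 1 h10 k0))); clear * - this; omega, by clear * - h159; omega, by clear * - h3 h5 h12; omega, by clear * - h5 h137 h138; omega, by clear * - h140; omega⟩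
    rcases lt_or_ge (N - a - b + c - V - 1) 0 with h160 | h160
    · rcases lt_or_ge (a + 2*b + c - 1) 0 with h161 | h161
      · rcases lt_or_ge (N - a - l - m - U + V - 3) 0 with h162 | h162
        · exact T0_31 X hb ⟨by have := kA 1 h160 (kA 1 h5 (kA 1 h4 (kA 1 h2 (kC 1 b33 k0)))); clear * - this; omega, by have := kA 1 h162 (kA 1 h161 (kA 1 h160 (kA 1 h138 (kA 1 h7 (kC 1 b41 (kC 1 b33 (kC 1 b6 k0))))))); clear * - this; omega⟩
        rcases lt_or_ge (-N + Q - i - a - m + L - U + V) 0 with h163 | h163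
        · exact T0_31 X hb ⟨by have := kA 1 h160 (kA 1 h5 (kA 1 h4 (kA 1 h2 (kC 1 b33 k0)))); clear * - this; omega, by have := kA 1 h163 (kA 1 h161 (kA 1 h160 (kA 1 h138 (kA 1 h11 (kA 1 h7 (kC 1 b39 (kC 1 b6 k0))))))); clear * - this; omega⟩
        exact T0_248 X hb ⟨by clear * - h162; omega, by clear * - h163; omega⟩
      exact T0_15 X hb ⟨by have := kA 1 h160 (kA 1 h137 (kA 2 h7 (kA 1 h3 (kA 1 h2 (kC 1 b41 (kC 1 b33 (kC 2 b6 k0))))))); clear * - this; omega, by have := kB 1 h161 (kA 1 h138 (kA 1 h137 (kA 1 h11 (kA 1 h10 k0)))); clear * - this; omega, by clear * - b6 b9 h137; omega, by clear * - h161; omega⟩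
    exact T0_30 X hb ⟨by have := kB 5 h160 (kB 4 h139 (kA 6 h137 (kA 2 h11 (kA 2 h7 (kA 4 h6 (kA 4 h5 (kA 6 h2 (kC 3 b43 (kC 2 b41 (kC 2 b33 (kC 2 b18 k0))))))))))); clear * - this; omega, by clear * - h139; omega, by clear * - h160; omega⟩
  rcases lt_or_ge (2*a + 2*b - m - 2) 0 with h164 | h164
  · rcases lt_or_ge (-N + a + b + m - c + Y) 0 with h165 | h165
    · rcases lt_or_ge (N - i - a - b - l - 2) 0 with h166 | h166
      · rcases lt_or_ge (N - a - b - m + c + V - Y - 2) 0 with h167 | h167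
        · exact T0_112 X hb ⟨by have := kA 6 h167 (kA 10 h165 (kA 2 h137 (kA 6 h6 (kC 2 b41 (kC 1 b39 (kC 1 b33 (kC 4 b2 k0))))))); clear * - this; omega, by have := kA 2 h165 (kA 2 h6 (kC 1 b41 (kC 1 b39 (kC 2 b2 k0)))); clear * - this; omega, by have := kA 4 h167 (kA 8 h165 (kA 4 h137 (kA 5 h11 (kA 2 h4 (kA 4 h3 (kC 3 b42 (kC 5 b4 k0))))))); clear * - this; omega, by have := kA 2 h165 (kA 1 h11 (kC 2 b17 (kC 1 b14 k0))); clear * - this; omega, by have := kA 28 h167 (kA 6 h166 (kA 2 h165 (kA 2 h137 (kA 4 h11 (kA 2 h6 (kA 14 h3 (kA 4 h2 (kC 3 b43 (kC 1 b41 (kC 1 b39 (kC 6 b21 k0))))))))))); clear * - this; omega, by clear * - h167; omega, by clear * - b17 h165; omega⟩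
        rcases lt_or_ge (Q - i + 2*a + 2*b - 2*l - 2*c - 2*U + 2*Y - 3) 0 with h168 | h168
        · rcases lt_or_ge (-a - b + l + 2*c) 0 with h169 | h169
          · exact T0_113 X hb ⟨by have := kA 2 h168 (kA 2 h166 (kA 2 h165 (kA 2 h137 (kA 3 h11 (kA 2 h4 (kC 1 b41 (kC 1 b39 (kC 2 b2 k0)))))))); clear * - this; omega, by have := kB 2 h167 (kA 1 h165 (kA 1 h137 (kA 1 h11 (kA 1 h7 (kA 1 h5 (kA 2 h2 (kC 1 b41 (kC 1 b39 k0)))))))); clear * - this; omega, by clear * - h11; omega, by have := kA 2 h168 (kB 4 h167 (kA 2 h166 (kA 4 h137 (kA 4 h11 (kA 4 h5 (kA 2 h4 (kA 4 h2 (kC 1 b42 (kC 3 b41 (kC 3 b39 k0)))))))))); clear * - this; omega, by have := kA 1 h169 (kA 1 h166 (kA 1 h165 (kA 1 h4 (kC 2 b2 k0)))); clear * - this; omega⟩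
          exact T0_106 X hb (by clear * - h169; omega)
        exact T0_123 X hb ⟨by clear * - h168; omega, by clear * - h167; omega, by have := kA 4 h165 (kA 2 h164 (kA 2 h137 (kA 1 h11 (kA 4 h4 (kA 4 h3 (kC 1 b41 (kC 1 b39 (kC 2 b18 (kC 3 b4 (kC 6 b2 k0)))))))))); clear * - this; omega, by clear * - h11; omega, by have := kB 2 h168 (kA 2 h165 (kA 1 h10 (kA 1 h7 (kA 2 h2 k0)))); clear * - this; omega, by have := kB 4 h168 (kA 2 h166 (kA 1 h165 (kA 1 h164 (kA 1 h137 (kA 1 h10 (kA 2 h7 (kA 3 h5 (kA 6 h2 (kC 1 b41 (kC 1 b39 k0)))))))))); clear * - this; omega⟩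
      exact T0_107 X hb ⟨by clear * - h166; omega, by have := kA 4 h137 (kA 1 h11 (kA 2 h4 (kC 2 b43 (kC 1 b42 (kC 2 b41 (kC 2 b35 (kC 1 b4 k0))))))); clear * - this; omega⟩
    rcases lt_or_ge (N + a + b - m + c - Y - 2) 0 with h170 | h170
    · exact T0_126 X hb ⟨by have := kA 1 h170 (kB 1 h165 (kA 1 h164 (kA 2 h5 (kC 1 b43 (kC 1 b21 k0))))); clear * - this; omega, by clear * - b6 h170; omega⟩
    exact T0_111 X hb ⟨by clear * - h165; omega, by clear * - h164 h165; omega, by clear * - h170; omega, by have := kB 2 h170 (kB 1 h165 (kA 1 h164 (kB 2 h138 (kA 2 h3 k0)))); clear * - this; omega⟩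
  exact T0_332 X hb ⟨by clear * - h164; omega, by clear * - h138; omega, by have := kA 1 h11 (kA 1 h3 (kA 1 h2 (kC 1 b42 (kC 1 b41 (kC 1 b17 k0))))); clear * - this; omega⟩

theorem M3 (X : C W N Q i a b l m c d L U V Y) (hb : B N Q i a b l m c d L U V Y)
    (h1 : (-N + m - c) < 0)
    (h2 : (3*N + Q - i - 2*l - 3*m + c + d - 2*U + V - 6) < 0)
    (h3 : (N + c + d - 1) < 0)
    (h4 : (i + a - b) < 0)
    (h5 : (-2*N + 2*m - 2*c - d + 1) < 0)
    (h6 : (N + a - l - m - U - V - 3) < 0)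
    (h7 : (-2*N + i + a + 2*m - c - d + Y + 2) < 0)
    (h8 : (-2*N - i + 2*a + 2*b - l + m - 2*c - 2*d - 2*V - 1) < 0)
    (h10 : (-2*N + Q - i - a + 2*m - c - d + Y + 1) < 0)
    (h11 : (-Q + i + l - m - 2*Y + 2) < 0)
    (h12 : (-N - b + 2*m - 2*c + 1) < 0) : False := by
  have b1 := hb.b1
  have b2 := hb.b2
  have b6 := hb.b6
  have b7 := hb.b7
  have b9 := hb.b9
  have b11 := hb.b11
  have b14 := hb.b14
  have b17 := hb.b17
  have b18 := hb.b18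
  have b21 := hb.b21
  have b33 := hb.b33
  have b39 := hb.b39
  have b41 := hb.b41
  have b42 := hb.b42
  have b43 := hb.b43
  have b45 := hb.b45
  rcases lt_or_ge (-N + a + b - c - d - Y - 1) 0 with h13 | h13
  · rcases lt_or_ge (2*N + Q - i - a - b - m + c + 2*d + V - 2) 0 with h14 | h14
    · exact M1 X hb h1 h2 h3 h4 h5 h6 h7 h8 h10 h11 h12 h13 h14
    rcases lt_or_ge (-2*N - a + b + m - c - 2*d - V) 0 with h95 | h95
    · rcases lt_or_ge (N - a - b + c + d + Y - 1) 0 with h96 | h96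
      · rcases lt_or_ge (4*N - Q + i + l - 3*m + 4*c + 4*d - 2) 0 with h97 | h97
        · rcases lt_or_ge (N + a - l - m - U - 3) 0 with h98 | h98
          · rcases lt_or_ge (Q - i - 2*b - 2*l - 2*c - 2*d - 2*U - 3) 0 with h99 | h99
            · exact T0_34 X hb ⟨by have := kA 2 h99 (kA 3 h97 (kA 4 h95 (kA 6 h12 (kA 2 h10 (kA 2 h2 (kC 1 b41 (kC 4 b39 (kC 1 b18 (kC 4 b11 k0))))))))); clear * - this; omega, by have := kA 1 h99 (kA 1 h97 (kA 2 h13 (kC 1 b42 k0))); clear * - this; omega⟩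
            exact T0_10 X hb ⟨by clear * - h99; omega, by have := kA 10 h98 (kA 5 h96 (kA 4 h95 (kA 3 h12 (kA 1 h10 (kC 3 b41 (kC 2 b39 (kC 1 b33 (kC 1 b7 k0)))))))); clear * - this; omega, by have := kB 2 h99 (kA 3 h96 (kA 2 h95 (kA 3 h12 (kA 1 h10 (kA 4 h2 (kC 2 b41 (kC 2 b39 (kC 2 b18 (kC 2 b11 k0))))))))); clear * - this; omega⟩
          rcases lt_or_ge (-3*N - Q + i + a + 2*b + 2*l + 2*m + L + 3*U - 2*V + 6) 0 with h100 | h100
          · rcases lt_or_ge (3*N + Q - i - 2*l - 3*m + c + d - 2*U + 2*V - 6) 0 with h101 | h101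
            · rcases lt_or_ge (-N - b + m - c - d - V) 0 with h102 | h102
              · rcases lt_or_ge (2*N - a - b - 2*m + c + d + V - Y - 3) 0 with h103 | h103
                · exact T0_15 X hb ⟨by have := kA 1 h103 (kA 5 h102 (kA 5 h101 (kA 2 h100 (kA 2 h97 (kB 2 h14 (kA 2 h13 (kA 2 h12 (kA 3 h10 (kC 2 b39 k0))))))))); clear * - this; omega, by have := kA 1 h103 (kA 2 h102 (kA 1 h101 (kA 1 h100 (kB 1 h98 (kA 1 h96 (kA 1 h95 (kA 1 h12 (kA 1 h3 (kC 1 b33 (kC 1 b18 (kC 1 b11 k0))))))))))); clear * - this; omega, by have := kA 1 h102 (kA 2 h101 (kA 1 h100 (kB 1 h98 (kB 1 h14 (kA 1 h3 (kC 1 b33 k0)))))); clear * - this; omega, by have := kA 3 h103 (kA 3 h102 (kA 1 h101 (kA 1 h100 (kB 1 h98 (kA 1 h13 (kA 1 h12 (kC 2 b43 (kC 1 b39 k0)))))))); clear * - this; omega⟩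
                exact T0_47 X hb ⟨by have := kA 2 h102 (kA 2 h101 (kA 1 h100 (kB 1 h98 (kA 2 h96 (kA 2 h11 (kC 1 b39 k0)))))); clear * - this; omega, by clear * - h103; omega, by have := kA 4 h102 (kA 2 h101 (kB 4 h98 (kA 1 h97 (kA 2 h13 (kA 2 h11 (kC 2 b42 k0)))))); clear * - this; omega, by have := kA 2 h102 (kA 3 h101 (kA 1 h100 (kB 1 h98 (kA 1 h11 (kA 1 h3 (kC 1 b39 k0)))))); clear * - this; omega⟩
              exact T0_77 X hb ⟨by have := kA 2 h96 (kA 1 h11 (kA 1 h10 (kA 1 h7 (kA 2 h6 (kC 1 b41 (kC 1 b39 k0)))))); clear * - this; omega, by clear * - h102; omega, by have := kA 2 h96 (kA 2 h95 (kA 2 h12 (kA 2 h6 (kC 1 b41 (kC 1 b39 (kC 1 b18 (kC 1 b11 (kC 1 b1 k0)))))))); clear * - this; omega⟩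
            exact T0_2 X hb ⟨by have := kB 1 h101 (kA 1 h100 (kB 1 h98 (kA 2 h12 (kA 2 h2 (kC 1 b39 (kC 2 b18 (kC 2 b11 k0))))))); clear * - this; omega, by clear * - h101; omega⟩
          exact T0_73 X hb ⟨by clear * - h100; omega, by clear * - h98; omega⟩
        exact T0_58 X hb ⟨by have := kA 3 h96 (kA 2 h95 (kA 3 h12 (kA 2 h11 (kA 1 h8 (kA 1 h7 (kA 2 h3 (kA 2 h2 (kC 1 b45 (kC 2 b43 (kC 2 b41 (kC 3 b39 k0))))))))))); clear * - this; omega, by clear * - h97; omega, by clear * - h11 h97; omega, by have := kA 34 h96 (kA 4 h11 (kA 3 h8 (kA 14 h3 (kA 4 h2 (kC 1 b45 (kC 1 b43 (kC 1 b41 (kC 2 b39 (kC 3 b21 k0))))))))); clear * - this; omega, by clear * - h96; omega, by clear * - h13; omega⟩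
      rcases lt_or_ge (2*a + 2*b - m - 2) 0 with h104 | h104
      · rcases lt_or_ge (-a - b + l + 2*c) 0 with h105 | h105
        · exact T0_12 X hb ⟨by have := kA 2 h105 (kA 2 h104 (kA 2 h12 (kA 1 h6 (kC 1 b42 (kC 1 b41 (kC 1 b39 (kC 2 b17 k0))))))); clear * - this; omega, by have := kA 4 h104 (kA 1 h6 (kA 8 h4 (kA 10 h3 (kC 1 b43 (kC 1 b41 (kC 6 b39 (kC 3 b18 (kC 12 b2 k0)))))))); clear * - this; omega⟩
        exact T0_106 X hb (by clear * - h105; omega)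
      exact T0_332 X hb ⟨by clear * - h104; omega, by clear * - h96; omega, by have := kA 1 h11 (kA 1 h3 (kA 1 h2 (kC 1 b42 (kC 1 b41 (kC 1 b17 k0))))); clear * - this; omega⟩
    rcases lt_or_ge (2*N - Q + i + a + b - m + c + 2*d + V - 1) 0 with h106 | h106
    · rcases lt_or_ge (-2*N + Q - i + 2*a + 2*b - 2*l + 2*m - 2*c - 2*d - 2*U + 2*Y - 1) 0 with h107 | h107
      · rcases lt_or_ge (2*a + 2*b + m - L + 2*Y - 1) 0 with h108 | h108
        · rcases lt_or_ge (2*N + Q - i - l - 3*m + 2*c - 5) 0 with h109 | h109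
          · exact T0_12 X hb ⟨by have := kA 1 h109 (kA 1 h108 (kA 2 h12 (kC 1 b41 (kC 2 b17 (kC 1 b7 k0))))); clear * - this; omega, by have := kA 1 h109 (kA 1 h107 (kA 1 h106 (kB 1 h95 (kA 1 h11 (kA 2 h4 (kA 2 h3 (kC 2 b39 (kC 4 b2 k0)))))))); clear * - this; omega⟩
          exact T0_174 X hb ⟨by clear * - h109; omega, by have := kA 2 h6 (kC 1 b41 (kC 1 b39 (kC 1 b18 (kC 1 b11 (kC 2 b2 k0))))); clear * - this; omega, by have := kA 1 h13 (kA 1 h12 (kA 1 h10 (kC 1 b42 k0))); clear * - this; omega⟩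
        rcases lt_or_ge (N - a - b + c + d + Y - 1) 0 with h110 | h110
        · exact T0_12 X hb ⟨by have := kA 2 h110 (kA 1 h107 (kA 1 h11 (kA 1 h6 (kC 1 b41 (kC 1 b39 k0))))); clear * - this; omega, by have := kA 1 h110 (kB 4 h108 (kA 2 h107 (kA 6 h106 (kB 1 h95 (kB 1 h14 (kA 1 h12 (kA 3 h10 (kA 4 h6 (kA 2 h2 (kC 8 b39 (kC 4 b11 k0))))))))))); clear * - this; omega⟩
        exact T0_17 X hb ⟨by clear * - b21 h11 h107; omega, by have := kB 1 h108 (kA 1 h106 (kB 1 h14 (kA 6 h3 (kA 2 h2 (kC 3 b43 (kC 2 b41 (kC 3 b39 (kC 2 b17 k0)))))))); clear * - this; omega, by clear * - h110; omega, by clear * - h108; omega, by have := kB 1 h108 (kA 2 h12 (kC 1 b43 (kC 1 b42 (kC 1 b41 (kC 2 b11 (kC 2 b2 k0)))))); clear * - this; omega⟩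
      rcases lt_or_ge (2*N - a - b - 2*m + c + d + V - Y - 3) 0 with h111 | h111
      · exact T0_153 X hb ⟨by clear * - h10 h14 h106; omega, by have := kA 2 h111 (kA 2 h12 (kA 1 h8 (kC 2 b11 k0))); clear * - this; omega, by have := kA 4 h111 (kA 1 h106 (kB 1 h14 (kA 2 h10 (kA 1 h8 (kA 2 h6 (kA 2 h3 (kC 1 b43 (kC 1 b41 (kC 1 b39 k0))))))))); clear * - this; omega, by clear * - b1 b17 h111; omega⟩
      rcases lt_or_ge (-4*N - Q + i + l + 4*m - 2*c - 2*d - 2*V + 2*Y + 5) 0 with h112 | h112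
      · rcases lt_or_ge (N - a - l - m - U + V - 3) 0 with h113 | h113
        · exact T0_2 X hb ⟨by have := kA 4 h113 (kA 6 h112 (kA 1 h106 (kB 1 h14 (kA 2 h4 (kA 6 h3 (kA 8 h2 (kC 6 b41 (kC 6 b39 (kC 2 b18 k0))))))))); clear * - this; omega, by have := kA 1 h113 (kA 1 h112 (kA 1 h6 (kA 1 h3 (kC 1 b41 (kC 1 b39 k0))))); clear * - this; omega⟩
        exact T0_12 X hb ⟨by clear * - h113; omega, by have := kA 3 h106 (kB 2 h95 (kB 1 h14 (kA 4 h13 (kA 6 h4 (kA 8 h3 (kA 4 h2 (kC 2 b42 (kC 8 b39 (kC 2 b11 (kC 8 b2 k0)))))))))); clear * - this; omega⟩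
      exact T0_47 X hb ⟨by clear * - h107; omega, by clear * - h111; omega, by have := kB 4 h107 (kA 1 h106 (kB 1 h14 (kA 3 h11 (kA 6 h10 (kA 2 h7 (kA 4 h6 (kC 2 b18 k0))))))); clear * - this; omega, by clear * - h112; omega⟩
    rcases lt_or_ge (a + b - 2*l - m - c - 2*d - 2*U + V - 4) 0 with h114 | h114
    · rcases lt_or_ge (-Q + 2*a + 2*b - l - m + L) 0 with h115 | h115
      · rcases lt_or_ge (-N - i - 2*l - m - 2*c - 2*d + L - 3*U - V - 2) 0 with h116 | h116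
        · exact T0_99 X hb ⟨by have := kA 1 h116 (kA 1 h115 (kA 2 h12 (kA 1 h3 (kA 1 h2 (kC 2 b39 (kC 2 b11 k0)))))); clear * - this; omega, by have := kA 8 h116 (kA 1 h114 (kB 9 h95 (kA 4 h13 (kA 4 h12 (kA 4 h10 (kA 2 h6 (kA 8 h3 (kC 12 b39 (kC 8 b11 (kC 20 b2 k0)))))))))); clear * - this; omega⟩
        exact T0_197 X hb ⟨by clear * - h116; omega, by clear * - b2 h95 h114; omega⟩
      exact T0_34 X hb ⟨by clear * - h115; omega, by clear * - h6 h95 h114; omega⟩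
    exact T0_43 X hb ⟨by clear * - h106; omega, by clear * - h95; omega, by clear * - h14; omega, by clear * - h114; omega, by have := kB 1 h95 (kA 2 h13 (kC 1 b42 (kC 2 b2 k0))); clear * - this; omega⟩
  rcases lt_or_ge (2*N - m + 2*c + 2*d + 2*Y - 2) 0 with h117 | h117
  · rcases lt_or_ge (-4*N + Q - i + 2*a + 2*b - 2*l + 2*m - 4*c - 4*d - 2*U - 1) 0 with h118 | h118
    · rcases lt_or_ge (N - a - l - m - U + V - 3) 0 with h119 | h119
      · rcases lt_or_ge (2*N + l + 2*c + 2*d - L + 2*Y - 1) 0 with h120 | h120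
        · rcases lt_or_ge (-N - i + a + b - l + m - 2*c - d - V - 1) 0 with h121 | h121
          · rcases lt_or_ge (-Q + 2*b - 1) 0 with h122 | h122
            · rcases lt_or_ge (2*N - a - b - 2*m + c + d + V - Y - 3) 0 with h123 | h123
              · exact T0_60 X hb ⟨by have := kA 6 h123 (kA 4 h122 (kA 1 h120 (kA 1 h117 (kA 2 h12 (kA 6 h10 (kA 4 h7 (kA 10 h6 (kC 4 b41 (kC 3 b39 (kC 2 b7 k0)))))))))); clear * - this; omega, by have := kA 1 h123 (kA 2 h122 (kA 1 h10 (kA 3 h4 (kA 1 h3 (kA 1 h2 (kC 1 b39 k0)))))); clear * - this; omega, by have := kA 2 h123 (kA 1 h122 (kA 1 h10 (kA 1 h7 (kC 2 b17 k0)))); clear * - this; omega⟩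
              exact T0_47 X hb ⟨by have := kA 1 h119 (kB 2 h13 (kA 1 h11 (kA 1 h6 (kC 1 b41 (kC 1 b39 k0))))); clear * - this; omega, by clear * - h123; omega, by have := kA 1 h119 (kA 1 h118 (kB 4 h13 (kA 2 h11 (kA 1 h6 (kC 1 b41 (kC 1 b39 k0)))))); clear * - this; omega, by have := kA 1 h120 (kA 4 h119 (kA 1 h10 (kA 1 h7 (kA 4 h6 (kA 2 h3 (kC 3 b41 (kC 2 b39 (kC 1 b18 k0)))))))); clear * - this; omega⟩
            rcases lt_or_ge (-2*N + b + 2*m - c - d + Y + 1) 0 with h124 | h124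
            · exact T0_60 X hb ⟨by have := kA 2 h124 (kA 1 h120 (kA 3 h119 (kA 1 h117 (kA 2 h12 (kA 2 h10 (kA 7 h6 (kC 4 b41 (kC 3 b39 (kC 2 b7 k0))))))))); clear * - this; omega, by have := kA 2 h124 (kB 1 h122 (kA 3 h120 (kA 13 h119 (kA 1 h117 (kA 1 h11 (kA 6 h7 (kA 11 h6 (kA 8 h3 (kC 7 b41 (kC 8 b39 (kC 3 b18 k0))))))))))); clear * - this; omega, by have := kA 2 h124 (kA 1 h120 (kA 7 h119 (kA 1 h117 (kA 2 h12 (kA 2 h10 (kA 7 h6 (kC 4 b41 (kC 3 b39 (kC 2 b7 k0))))))))); clear * - this; omega⟩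
            exact T0_29 X hb ⟨by clear * - h7 h10; omega, by clear * - h7 h10 h11; omega, by have := kA 2 h119 (kA 1 h118 (kA 1 h117 (kB 2 h13 (kA 1 h11 (kA 1 h8 (kA 2 h3 (kC 1 b41 (kC 1 b39 k0)))))))); clear * - this; omega, by have := kA 2 h121 (kA 1 h120 (kA 3 h119 (kA 1 h10 (kA 1 h7 (kA 1 h6 (kC 1 b41 (kC 1 b7 k0))))))); clear * - this; omega, by clear * - h124; omega⟩
          exact T0_11 X hb ⟨by have := kB 5 h121 (kA 1 h120 (kA 7 h119 (kA 1 h117 (kB 2 h13 (kA 4 h12 (kA 5 h8 (kA 3 h6 (kA 2 h3 (kC 2 b45 (kC 3 b41 (kC 4 b39 k0))))))))))); clear * - this; omega, by have := kB 1 h121 (kA 4 h119 (kA 1 h117 (kA 2 h12 (kA 2 h10 (kA 1 h8 (kA 4 h6 (kC 2 b41 (kC 2 b39 (kC 2 b7 k0))))))))); clear * - this; omega, by clear * - h8 h121; omega, by have := kB 3 h121 (kA 3 h119 (kA 1 h118 (kA 2 h117 (kB 2 h13 (kA 2 h12 (kA 1 h11 (kA 3 h8 (kA 1 h6 (kA 2 h3 (kC 2 b41 (kC 2 b39 k0))))))))))); clear *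 - this; omega, by clear * - h121; omega⟩
        exact T0_154 X hb ⟨by have := kA 1 h119 (kA 1 h118 (kA 2 h117 (kA 2 h11 (kA 1 h10 (kA 1 h7 (kA 1 h6 (kA 2 h3 (kC 1 b41 (kC 1 b39 k0))))))))); clear * - this; omega, by have := kA 1 h119 (kA 1 h118 (kA 1 h117 (kA 1 h11 (kA 1 h6 (kA 2 h3 (kC 1 b41 (kC 1 b39 k0))))))); clear * - this; omega, by clear * - h13; omega, by have := kB 1 h120 (kA 1 h117 (kA 1 h11 (kA 1 h10 (kA 1 h7 k0)))); clear * - this; omega, by clear * - h120; omega, by have := kA 1 h119 (kB 2 h13 (kA 1 h11 (kA 1 h10 (kA 1 h7 (kA 1 h6 (kC 1 b41 k0)))))); clear * - this; omega, by have := kA 5 h119 (kA 1 h117 (kA 2 h12 (kA 2 h10 (kA 5 h6 (kC 3 b41 (kC 2 b39 (kC 2 b7 k0))))))); clear * - this; omega⟩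
      rcases lt_or_ge (-3*N - i - a + m - 2*c - 2*d + L - U - V + 2) 0 with h125 | h125
      · rcases lt_or_ge (-N - l - c - 2*d - 2*U + V - 2) 0 with h126 | h126
        · exact T0_31 X hb ⟨by have := kA 4 h126 (kA 1 h125 (kA 3 h117 (kA 2 h12 (kA 1 h11 (kA 2 h7 (kA 5 h6 (kA 4 h3 (kA 2 h2 (kC 3 b41 (kC 5 b39 (kC 6 b2 k0))))))))))); clear * - this; omega, by have := kA 2 h126 (kA 1 h125 (kB 1 h119 (kA 1 h118 (kA 3 h117 (kB 1 h13 (kA 1 h12 (kA 1 h11 (kA 1 h7 (kA 4 h3 (kC 3 b41 (kC 4 b39 (kC 10 b2 k0)))))))))))); clear * - this; omega⟩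
        exact T0_59 X hb ⟨by have := kA 2 h125 (kA 2 h118 (kA 2 h117 (kA 2 h12 (kA 2 h11 (kA 2 h6 (kA 2 h4 (kC 1 b42 (kC 1 b41 (kC 3 b39 (kC 6 b2 k0)))))))))); clear * - this; omega, by have := kB 1 h126 (kA 1 h118 (kB 2 h13 (kA 1 h11 k0))); clear * - this; omega, by have := kB 1 h13 (kA 1 h12 (kA 1 h11 (kA 1 h10 (kC 1 b45 (kC 1 b39 (kC 2 b11 k0)))))); clear * - this; omega, by clear * - h126; omega⟩
      exact T0_12 X hb ⟨by clear * - h119; omega, by clear * - h125; omega⟩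
    rcases lt_or_ge (4*N - Q - 2*a - 2*b - 2*m + 2*c + 2*d - 3) 0 with h127 | h127
    · exact T0_2 X hb ⟨by have := kA 2 h127 (kA 1 h117 (kA 3 h11 (kA 3 h10 (kA 1 h8 (kA 3 h7 (kA 1 h3 (kA 2 h2 (kC 1 b45 (kC 1 b41 (kC 2 b39 k0)))))))))); clear * - this; omega, by have := kA 4 h127 (kA 3 h117 (kA 7 h11 (kA 6 h10 (kA 4 h8 (kA 8 h7 (kA 2 h6 (kA 3 h3 (kC 3 b41 (kC 3 b39 (kC 4 b2 k0)))))))))); clear * - this; omega⟩
    rcases lt_or_ge (-2*N - Q + 2*m - 2*c - 2*d - 2*V + 2) 0 with h128 | h128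
    · exact T0_2 X hb ⟨by have := kA 1 h128 (kA 2 h117 (kA 2 h11 (kA 1 h10 (kA 3 h7 (kA 2 h3 (kA 2 h2 (kC 2 b41 (kC 2 b39 (kC 2 b18 (kC 2 b2 k0)))))))))); clear * - this; omega, by have := kA 4 h128 (kA 3 h117 (kA 3 h11 (kA 2 h10 (kA 4 h7 (kA 2 h6 (kA 3 h3 (kC 3 b41 (kC 3 b39 (kC 4 b2 k0))))))))); clear * - this; omega⟩
    rcases lt_or_ge (-6*N - Q + i + 2*a + 2*b + l + 4*m - 4*c - 4*d - 2*V + 5) 0 with h129 | h129
    · exact T0_2 X hb ⟨by have := kA 1 h129 (kB 2 h128 (kB 1 h127 (kB 3 h118 (kA 1 h11 (kA 2 h10 (kA 2 h7 (kA 1 h3 (kC 1 b45 (kC 1 b41 (kC 2 b39 (kC 5 b18 k0))))))))))); clear * - this; omega, by have := kA 1 h129 (kB 1 h118 (kA 1 h3 (kC 1 b14 k0))); clear * - this; omega⟩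
    exact T0_142 X hb ⟨by clear * - h118; omega, by have := kA 1 h11 (kA 1 h10 (kA 1 h8 (kA 1 h7 k0))); clear * - this; omega, by clear * - h11 h13; omega, by clear * - h128; omega, by clear * - h129; omega⟩
  rcases lt_or_ge (-2*a - 2*b + l + 3*m - L + 2*U + 2*Y + 2) 0 with h130 | h130
  · rcases lt_or_ge (N - l - m - U + V - 3) 0 with h131 | h131
    · rcases lt_or_ge (N + Q - i + a + b - 2*l - 2*m - c - 2*U + V - 5) 0 with h132 | h132
      · exact T0_267 X hb ⟨by clear * - h7 h10 h11; omega, by clear * - h117; omega, by have := kA 2 h130 (kA 1 h11 (kA 1 h3 (kA 1 h2 (kC 1 b45 (kC 1 b41 (kC 3 b17 k0)))))); clear * - this; omega, by have := kA 2 h132 (kA 1 h130 (kA 2 h11 (kA 1 h8 (kA 2 h3 (kC 1 b11 k0))))); clear * - this; omega⟩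
      rcases lt_or_ge (N - a - b + c - V - 1) 0 with h133 | h133
      · exact T0_32 X hb ⟨by have := kA 2 h133 (kA 1 h130 (kB 1 h13 (kA 1 h12 (kA 4 h11 (kA 1 h8 (kA 3 h7 (kA 4 h2 (kC 2 b43 (kC 3 b41 (kC 2 b39 k0)))))))))); clear * - this; omega, by have := kA 2 h131 (kA 1 h130 (kA 1 h11 (kA 1 h8 (kA 1 h3 (kA 1 h2 (kC 1 b41 (kC 1 b17 k0))))))); clear * - this; omega, by have := kA 2 h131 (kA 1 h130 (kA 1 h8 (kA 2 h3 (kC 1 b43 (kC 1 b41 (kC 1 b9 (kC 2 b2 k0))))))); clear * - this; omega, by have := kA 2 h133 (kA 2 h131 (kC 1 b41 (kC 1 b33 (kC 1 b6 k0)))); clear * - this; omega⟩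
      exact T0_30 X hb ⟨by have := kA 4 h131 (kA 1 h8 (kA 2 h3 (kC 1 b43 (kC 1 b41 (kC 1 b33 (kC 1 b11 k0)))))); clear * - this; omega, by clear * - h132; omega, by clear * - h133; omega⟩
    rcases lt_or_ge (-3*N - i - 2*a + m - 2*c - 2*d + L - U - V + 2) 0 with h134 | h134
    · rcases lt_or_ge (N + a - l - m - U - 3) 0 with h135 | h135
      · rcases lt_or_ge (3*N + Q - i - 2*l - 3*m + c + d - 2*U + 2*V - 6) 0 with h136 | h136
        · exact T0_32 X hb ⟨by have := kA 2 h136 (kA 1 h134 (kB 7 h131 (kA 2 h130 (kB 1 h117 (kA 4 h11 (kA 4 h4 (kA 2 h2 (kC 1 b45 k0)))))))); clear * - this; omega, by have := kA 1 h136 (kA 2 h135 (kA 1 h130 (kA 1 h11 (kA 1 h8 (kA 1 h3 (kC 1 b41 (kC 2 b2 k0))))))); clear * - this; omega, by have := kA 1 h136 (kA 2 h135 (kA 1 h134 (kB 3 h131 (kA 3 h130 (kA 1 h11 (kA 1 h8 (kA 3 h3 (kC 2 b45 (kC 2 b9 (kC 4 b2 k0)))))))))); clear * - this; omega, by have := kA 3 h136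 (kA 6 h135 (kA 1 h134 (kB 3 h131 (kA 3 h130 (kA 3 h11 (kA 1 h8 (kA 1 h3 (kC 2 b41 (kC 4 b2 k0))))))))); clear * - this; omega⟩
        exact T0_2 X hb ⟨by have := kB 1 h136 (kA 2 h130 (kA 1 h11 (kA 1 h3 (kA 2 h2 (kC 2 b45 (kC 1 b41 (kC 1 b33 k0))))))); clear * - this; omega, by clear * - h136; omega⟩
      exact T0_31 X hb ⟨by have := kB 1 h135 (kA 4 h134 (kA 12 h130 (kB 4 h117 (kA 9 h11 (kA 16 h7 (kA 17 h6 (kA 11 h3 (kA 21 h2 (kC 7 b41 (kC 11 b33 k0)))))))))); clear * - this; omega, by clear * - h135; omega⟩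
    exact T0_100 X hb ⟨by clear * - h134; omega, by clear * - h131; omega⟩
  exact T0_21 X hb ⟨by clear * - h7 h10 h11; omega, by clear * - h117; omega, by clear * - h13; omega, by have := kA 1 h11 (kA 1 h3 (kA 1 h2 (kC 1 b42 (kC 1 b41 (kC 1 b17 k0))))); clear * - this; omega, by clear * - h130; omega⟩

theorem P0 (X : C W N Q i a b l m c d L U V Y) (hb : B N Q i a b l m c d L U V Y)
    (h1 : (-N + m - c) < 0)
    (h2 : (3*N + Q - i - 2*l - 3*m + c + d - 2*U + V - 6) < 0)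
    (h3 : (N + c + d - 1) < 0)
    (h4 : (i + a - b) < 0)
    (h5 : (-2*N + 2*m - 2*c - d + 1) < 0)
    (h6 : (N + a - l - m - U - V - 3) < 0)
    (h7 : (-2*N + i + a + 2*m - c - d + Y + 2) < 0)
    (h8 : (-2*N - i + 2*a + 2*b - l + m - 2*c - 2*d - 2*V - 1) < 0)
    (h10 : (-2*N + Q - i - a + 2*m - c - d + Y + 1) < 0)
    (h11 : (-Q + i + l - m - 2*Y + 2) < 0) : False := by
  have b2 := hb.b2
  have b4 := hb.b4
  have b6 := hb.b6
  have b7 := hb.b7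
  have b11 := hb.b11
  have b17 := hb.b17
  have b18 := hb.b18
  have b19 := hb.b19
  have b33 := hb.b33
  have b35 := hb.b35
  have b39 := hb.b39
  have b41 := hb.b41
  have b42 := hb.b42
  have b43 := hb.b43
  have b44 := hb.b44
  have b45 := hb.b45
  rcases lt_or_ge (-N - b + 2*m - 2*c + 1) 0 with h12 | h12
  · exact M3 X hb h1 h2 h3 h4 h5 h6 h7 h8 h10 h11 h12
  rcases lt_or_ge (N + b - m + 2*c - 2) 0 with h137 | h137
  · exact M2 X hb h2 h3 h4 h5 h6 h7 h8 h10 h11 h12 h137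
  rcases lt_or_ge (-N - Q + i + b + l + m + 2) 0 with h171 | h171
  · rcases lt_or_ge (N - a - b + c + d + Y - 1) 0 with h172 | h172
    · rcases lt_or_ge (-3*N - i - 2*a + m - 2*c - 2*d + L - U - V + 2) 0 with h173 | h173
      · exact T0_2 X hb ⟨by have := kA 7 h172 (kA 5 h171 (kA 1 h11 (kA 1 h8 (kA 5 h7 (kA 6 h2 (kC 5 b41 (kC 5 b39 (kC 4 b18 k0)))))))); clear * - this; omega, by have := kA 2 h173 (kA 2 h171 (kA 2 h6 (kA 2 h4 (kA 2 h3 (kC 1 b42 (kC 1 b41 (kC 3 b39 k0))))))); clear * - this; omega⟩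
      exact T0_100 X hb ⟨by clear * - h173; omega, by have := kA 1 h172 (kA 1 h171 (kA 1 h10 (kA 2 h6 (kC 1 b41 (kC 1 b39 k0))))); clear * - this; omega⟩
    rcases lt_or_ge (2*a + 2*b + m - L + 2*Y - 1) 0 with h174 | h174
    · rcases lt_or_ge (N - a - b - m + c + V - Y - 2) 0 with h175 | h175
      · rcases lt_or_ge (4*N + Q - 2*i - a - b - 4*l - 4*m - 4*U + 2*V - 9) 0 with h176 | h176
        · rcases lt_or_ge (N - i - a - b - l - 2) 0 with h177 | h177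
          · rcases lt_or_ge (3*N + Q - i + a + b - 2*l - 3*m + c + d - 2*U + 2*V - 6) 0 with h178 | h178
            · rcases lt_or_ge (-2*N + Q - i + a + 2*b + m - 2*c - d) 0 with h179 | h179
              · rcases lt_or_ge (-N + m - 2*c) 0 with h180 | h180
                · rcases lt_or_ge (Q - i + 2*a + 2*b - 2*m - 2*c - 2*Y - 3) 0 with h181 | h181
                  · exact T0_56 X hb ⟨by have := kA 3 h181 (kA 2 h180 (kA 10 h175 (kA 4 h174 (kA 4 h171 (kA 2 h4 (kA 4 h3 (kC 6 b42 (kC 2 b41 (kC 10 b17 (kC 3 b4 k0)))))))))); clear * - this; omega, by have := kA 1 h181 (kA 1 h176 (kA 2 h175 (kA 2 h171 (kA 1 h4 (kC 2 b42 k0))))); clear * - this; omega⟩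
                  rcases lt_or_ge (-a - b + m + c + Y) 0 with h182 | h182
                  · exact T0_35 X hb ⟨by have := kA 6 h182 (kA 7 h180 (kA 2 h178 (kA 2 h177 (kA 8 h175 (kA 8 h174 (kA 1 h171 (kA 10 h6 (kA 3 h4 (kC 7 b41 (kC 15 b2 k0)))))))))); clear * - this; omega, by have := kA 1 h182 (kA 1 h180 (kA 1 h175 (kA 1 h174 (kC 1 b41 (kC 3 b17 k0))))); clear * - this; omega⟩
                  exact T0_124 X hb ⟨by clear * - h181; omega, by have := kB 1 h181 (kA 2 h180 (kA 4 h175 (kA 1 h174 (kC 1 b43 (kC 1 b41 (kC 4 b17 k0)))))); clear * - this; omega, by have := kA 2 h179 (kA 2 h177 (kA 1 h171 (kB 1 h137 (kB 2 h12 (kA 2 h4 (kA 2 h3 k0)))))); clear * - this; omega, by have := kB 4 h182 (kB 2 h181 (kA 4 h180 (kA 2 h178 (kA 4 h174 (kB 4 h137 (kB 8 h12 (kA 7 h10 (kA 7 h7 (kA 4 h6 (kA 12 h3 (kC 4 b41 k0))))))))))); clear * - this; omega, by clear * - h182; omega⟩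
                exact T0_121 X hb ⟨by clear * - h137 h171; omega, by clear * - h180; omega, by have := kA 2 h175 (kA 2 h171 (kB 2 h137 (kA 1 h3 (kA 1 h2 (kC 1 b43 (kC 1 b42 (kC 1 b41 (kC 1 b39 (kC 3 b17 k0))))))))); clear * - this; omega, by have := kA 2 h179 (kA 1 h177 (kA 1 h171 (kA 2 h4 (kC 1 b6 (kC 1 b2 k0))))); clear * - this; omega, by have := kA 2 h179 (kA 2 h175 (kB 3 h137 (kB 1 h12 (kA 1 h11 (kA 2 h3 (kC 2 b42 (kC 2 b17 k0))))))); clear * - this; omega⟩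
              rcases lt_or_ge (-3*a - 2*b + 2*l + m + 2*c + d + 2*U + 2) 0 with h183 | h183
              · exact T0_35 X hb ⟨by have := kA 1 h178 (kA 1 h4 (kA 1 h3 (kC 1 b39 (kC 2 b2 k0)))); clear * - this; omega, by have := kA 1 h183 (kA 1 h174 (kA 1 h6 (kA 1 h5 (kC 1 b41 (kC 2 b17 k0))))); clear * - this; omega⟩
              rcases lt_or_ge (2*N - 3*a - 2*b - m + 2*c + d - 2) 0 with h184 | h184
              · exact T0_35 X hb ⟨by have := kA 8 h184 (kB 3 h183 (kA 2 h178 (kA 1 h177 (kA 5 h174 (kA 1 h171 (kA 2 h6 (kA 5 h5 (kA 2 h4 (kC 5 b41 (kC 1 b39 k0)))))))))); clear * - this; omega, by have := kA 1 h184 (kA 1 h174 (kA 1 h6 (kA 1 h5 (kC 1 b41 k0)))); clear * - this; omega⟩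
              exact T0_156 X hb ⟨by clear * - h184; omega, by clear * - h179; omega, by have := kB 1 h179 (kB 2 h137 (kB 2 h12 (kA 1 h11 (kA 2 h10 (kA 2 h3 k0))))); clear * - this; omega, by clear * - h183; omega⟩
            rcases lt_or_ge (-3*N - a - b + 2*l + 3*m - c - d + 2*U - 2*V + 4) 0 with h185 | h185
            · exact T0_12 X hb ⟨by have := kA 1 h185 (kB 1 h178 (kA 1 h176 (kA 2 h174 (kA 1 h6 (kA 1 h4 (kA 2 h3 (kC 2 b41 k0))))))); clear * - this; omega, by have := kA 1 h177 (kA 1 h176 (kA 2 h174 (kA 1 h171 (kA 1 h6 (kA 3 h4 (kA 2 h3 (kC 2 b41 (kC 1 b39 (kC 5 b2 k0))))))))); clear * - this; omega⟩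
            exact T0_167 X hb ⟨by clear * - h185; omega, by have := kA 1 h174 (kA 1 h4 (kA 1 h3 (kC 1 b41 (kC 2 b2 k0)))); clear * - this; omega, by clear * - h178; omega⟩
          exact T0_107 X hb ⟨by clear * - h177; omega, by have := kA 4 h175 (kA 1 h174 (kC 1 b43 (kC 1 b42 (kC 1 b41 (kC 4 b17 k0))))); clear * - this; omega⟩
        rcases lt_or_ge (2*N + Q - i + 3*a + 3*b - 3*l - 4*m - 2*c - 4*U + 2*V - 8) 0 with h186 | h186
        · rcases lt_or_ge (N - i - a - b - l - 2) 0 with h187 | h187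
          · exact T0_56 X hb ⟨by have := kA 16 h187 (kA 20 h186 (kB 24 h176 (kA 50 h175 (kA 8 h174 (kA 5 h171 (kB 6 h137 (kB 1 h12 (kA 16 h3 (kC 17 b42 (kC 42 b17 (kC 17 b4 k0))))))))))); clear * - this; omega, by have := kA 1 h187 (kA 1 h186 (kB 1 h176 (kA 2 h175 (kA 1 h171 (kA 1 h6 (kC 1 b42 (kC 1 b4 k0))))))); clear * - this; omega⟩
          exact T0_107 X hb ⟨by clear * - h187; omega, by have := kA 4 h175 (kA 1 h174 (kC 1 b43 (kC 1 b42 (kC 1 b41 (kC 4 b17 k0))))); clear * - this; omega⟩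
        rcases lt_or_ge (Q - i - a - b - 1) 0 with h188 | h188
        · exact T0_12 X hb ⟨by have := kA 1 h188 (kB 1 h176 (kA 1 h6 (kC 1 b18 k0))); clear * - this; omega, by have := kA 1 h174 (kA 1 h6 (kA 2 h4 (kA 2 h3 (kC 1 b41 (kC 1 b39 (kC 1 b18 (kC 4 b2 k0))))))); clear * - this; omega⟩
        exact T0_290 X hb ⟨by have := kB 3 h176 (kA 2 h174 (kB 1 h137 (kB 1 h12 (kA 3 h11 (kA 2 h10 (kA 4 h2 (kC 1 b45 (kC 1 b44 k0)))))))); clear * - this; omega, by have := kB 2 h188 (kB 1 h176 (kB 1 h172 (kB 2 h137 (kB 1 h12 (kA 1 h10 (kA 2 h2 k0)))))); clear * - this; omega, by clear * - h176; omega, by clear * - h186; omega, by have := kB 7 h188 (kB 2 h186 (kA 4 h175 (kA 10 h174 (kB 14 h172 (kA 18 h171 (kB 17 h137 (kB 13 h12 (kA 1 h11 (kA 28 h2 (kC 3 b45 (kC 7 b44 k0))))))))))); clear * - this; omega, by have := kB 3 h188 (kB 1 h172 (kB 2 h137 (kB 1 h12 (kA 1 h10 (kA 2 h2 k0))))); clear * - this;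 omega, by clear * - h188; omega⟩
      rcases lt_or_ge (Q - i + 2*a + 2*b - 2*l - 2*c - 2*U + 2*Y - 3) 0 with h189 | h189
      · rcases lt_or_ge (N + a + b - m + d - 2) 0 with h190 | h190
        · rcases lt_or_ge (-4*N - Q + l + 2*m - 2*c - 2*d + L - 2*V + 5) 0 with h191 | h191
          · exact T0_12 X hb ⟨by have := kA 2 h191 (kA 2 h190 (kA 2 h10 (kA 2 h6 (kA 2 h4 (kA 4 h3 (kC 1 b41 (kC 3 b39 (kC 1 b18 (kC 1 b11 k0))))))))); clear * - this; omega, by have := kA 3 h191 (kA 6 h190 (kB 3 h172 (kB 1 h137 (kB 4 h12 (kA 3 h10 (kA 12 h4 (kA 14 h3 (kC 7 b39 (kC 5 b18 (kC 14 b2 k0)))))))))); clear * - this; omega⟩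
          exact T0_35 X hb ⟨by clear * - h191; omega, by have := kA 2 h190 (kA 1 h10 (kA 1 h7 (kC 1 b41 (kC 1 b35 (kC 2 b17 (kC 1 b7 k0)))))); clear * - this; omega⟩
        rcases lt_or_ge (2*N - i - 2*a - 2*b + 2*c - L - 2) 0 with h192 | h192
        · rcases lt_or_ge (-2*N - Q + 2*b + l + m + L + 2*U + 4) 0 with h193 | h193
          · exact T0_12 X hb ⟨by have := kA 1 h193 (kA 3 h192 (kA 3 h189 (kA 2 h171 (kA 4 h4 (kC 3 b41 (kC 1 b39 (kC 4 b17 k0))))))); clear * - this; omega, by have := kA 1 h193 (kA 1 h189 (kA 1 h171 (kB 1 h12 (kA 1 h11 (kA 6 h4 (kA 6 h3 (kA 2 h2 (kC 5 b39 (kC 1 b18 (kC 4 b2 k0)))))))))); clear * - this; omega⟩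
          exact T0_31 X hb ⟨by clear * - h193; omega, by have := kB 1 h193 (kA 1 h192 (kA 1 h189 (kA 2 h171 (kC 2 b42 (kC 3 b41 (kC 1 b39 (kC 4 b2 k0))))))); clear * - this; omega⟩
        rcases lt_or_ge (2*N - i + 2*a + 2*b - l - m - L - 4) 0 with h194 | h194
        · rcases lt_or_ge (-a - b + l + 2*c) 0 with h195 | h195
          · rcases lt_or_ge (N - l - m - U + V - 3) 0 with h196 | h196
            · exact T0_107 X hb ⟨by have := kA 3 h195 (kA 2 h194 (kB 1 h192 (kA 1 h189 (kA 1 h171 (kB 1 h137 (kA 3 h4 (kC 1 b41 (kC 6 b2 k0)))))))); clear * - this; omega, by have := kA 4 h196 (kA 2 h195 (kC 1 b42 (kC 1 b41 (kC 1 b39 (kC 4 b17 k0))))); clear * - this; omega⟩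
            exact T0_35 X hb ⟨by have := kA 1 h195 (kA 1 h194 (kA 1 h189 (kA 3 h4 (kA 2 h3 (kC 1 b41 (kC 1 b39 (kC 1 b18 (kC 6 b2 k0)))))))); clear * - this; omega, by clear * - h196; omega⟩
          exact T0_106 X hb (by clear * - h195; omega)
        exact T0_162 X hb ⟨by have := kB 1 h194 (kA 1 h189 (kA 2 h174 (kB 3 h172 (kB 2 h137 (kB 3 h12 (kA 1 h11 (kA 1 h7 (kA 4 h3 (kC 1 b41 k0))))))))); clear * - this; omega, by have := kA 1 h174 (kA 2 h171 (kB 1 h137 (kB 1 h12 (kA 2 h6 (kA 2 h3 (kA 2 h2 (kC 1 b42 (kC 2 b41 (kC 1 b39 k0))))))))); clear * - this; omega, by have := kB 1 h194 (kA 1 h174 (kB 2 h172 (kB 1 h137 (kB 1 h12 (kA 2 h3 k0))))); clear * - this; omega, by clear * - h3 h12 h137; omega, by clear * - h190; omega, by clear * - h192; omega, by clear * - h194; omega⟩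
      exact T0_123 X hb ⟨by clear * - h189; omega, by clear * - h175; omega, by have := kB 1 h189 (kB 2 h175 (kA 12 h174 (kA 16 h4 (kA 12 h3 (kA 6 h2 (kC 12 b41 (kC 7 b18 (kC 4 b4 (kC 32 b2 k0))))))))); clear * - this; omega, by clear * - h11; omega, by have := kB 3 h189 (kA 1 h174 (kA 1 h171 (kB 1 h137 (kA 2 h10 (kA 2 h7 (kA 4 h2 (kC 1 b42 (kC 1 b41 k0)))))))); clear * - this; omega, by have := kB 2 h189 (kA 1 h174 (kB 1 h172 (kB 1 h12 (kA 5 h10 (kA 6 h6 (kA 6 h4 (kA 6 h3 (kC 4 b41 (kC 3 b39 (kC 6 b18 (kC 12 b2 k0))))))))))); clear * - this; omega⟩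
    rcases lt_or_ge (2*N - i + 2*a + 2*b - l - m - L - 4) 0 with h197 | h197
    · exact T0_279 X hb ⟨by have := kA 3 h197 (kB 1 h174 (kA 10 h171 (kB 7 h137 (kB 7 h12 (kA 6 h10 (kA 4 h7 (kA 4 h6 (kA 4 h4 (kA 6 h3 (kA 4 h2 (kC 4 b41 (kC 2 b39 k0)))))))))))); clear * - this; omega, by clear * - h3 h12 h137; omega, by clear * - h172; omega, by clear * - h174; omega⟩
    exact T0_17 X hb ⟨by have := kB 1 h172 (kA 3 h171 (kB 1 h137 (kB 1 h12 (kA 1 h10 (kA 2 h7 (kA 2 h6 (kA 2 h3 (kA 2 h2 (kC 1 b43 (kC 2 b41 (kC 2 b39 k0))))))))))); clear * - this; omega, by clear * - h3 h12 h137; omega, by clear * - h172; omega, by clear * - h174; omega, by clear * - h197; omega⟩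
  rcases lt_or_ge (N + 2*a + b - l - m - 3) 0 with h198 | h198
  · rcases lt_or_ge (2*a + 2*b + m - L + 2*Y - 1) 0 with h199 | h199
    · rcases lt_or_ge (N + 2*a + b - l - m - 2) 0 with h200 | h200
      · exact T0_130 X hb ⟨by clear * - b2 h200; omega, by have := kA 2 h200 (kA 3 h11 (kA 4 h10 (kA 1 h8 (kA 2 h7 (kC 1 b19 (kC 1 b18 k0)))))); clear * - this; omega, by have := kB 2 h137 (kB 1 h12 (kA 2 h3 (kC 1 b2 k0))); clear * - this; omega, by clear * - b2 h137; omega⟩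
      rcases lt_or_ge (-a) 0 with h201 | h201
      · exact T0_130 X hb ⟨by clear * - h198 h201; omega, by have := kA 2 h198 (kA 3 h11 (kA 4 h10 (kA 1 h8 (kA 2 h7 (kC 1 b19 (kC 1 b18 k0)))))); clear * - this; omega, by have := kA 1 h201 (kB 2 h137 (kB 1 h12 (kA 2 h3 k0))); clear * - this; omega, by clear * - h137 h201; omega⟩
      exact T0_129 X hb ⟨by clear * - h201; omega, by clear * - h137 h198; omega, by have := kA 1 h198 (kB 2 h137 (kB 1 h12 (kA 2 h3 k0))); clear * - this; omega, by clear * - h5 h12 h200; omega, by clear * - h200; omega, by clear * - h198; omega⟩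
    exact T0_279 X hb ⟨by have := kA 2 h198 (kA 1 h11 (kA 1 h10 (kA 1 h7 (kA 2 h3 (kC 1 b43 (kC 1 b41 (kC 1 b33 (kC 2 b2 k0)))))))); clear * - this; omega, by clear * - h3 h12 h137; omega, by clear * - h10 h11 h198; omega, by clear * - h199; omega⟩
  exact T0_313 X hb ⟨by clear * - h171; omega, by clear * - h198; omega, by clear * - h5 h12; omega, by clear * - h3 h12 h137; omega, by clear * - h12; omega, by clear * - h137; omega⟩

end Pool.Agent.MP_a38735_al.WL.E342
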