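import Pool.Agent.MP_a38735_al.AQ
import Pool.Agent.MP_a38735_al.LC

set_option autoImplicit false
set_option linter.unusedVariables false
set_option linter.unusedSimpArgs false

namespace Pool.Agent.MP_a38735_al.WL.E343

variable {G : Type*} [Group G]

structure C (W : ℤ → G) (N Q i a b l m c d L U V Y : ℤ) : Prop where
  al : AL W (2*N) Q
  a1 : Par W (0) (i + 2*a) (2*b)
  a2 : Par W (Q - 2*b) (i + 2*a) (2*b)
  s1 : Ant W (0) (i) (2*i + 2*a)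
  s2 : Ant W (i + 2*a + 1) (Q) (2*i + 2*a)
  bb : Par W (i + 1) (i + l + 1) (2*a + 2*b)
  c1 : Par W (i + l + 2*c + 2) (Q) (2*a + 2*b - 2*c)
  c2 : Par W (i + 2*a + 2*b + l + 2) (2*N) (-2*a - 2*b + 2*c)
  S2 : Ant W (i + l - m + 2*c + 1) (i + l + 2*c + 1) (2*i + 2*l + 2*c + 2)
  d1 : Par W (Q) (2*N + i + l - m + 2*c + 2*d) (-2*d)
  d2 : Par W (i + l + m + 3) (2*N) (2*N - 2*m + 2*c + 2*d - 2)
  t1 : Ant W (0) (-2*N + i + 2*l + 2*m + 2*U - 2*V + 3) (-4*N + 2*i + 4*l + 4*m + 4*U - 2*V + 6)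
  t2 : Ant W (-2*N + i + 2*l + 2*m + 2*U + 4) (Q) (-4*N + 2*i + 4*l + 4*m + 4*U - 2*V + 6)
  f1 : Par W (-2*N + i + 2*l + 2*m + 2*U - 2*V + 4) (Q) (4*N - 2*m + 2*c + 2*d + 2*V - 2)
  f2 : Par W (2*N + i + 2*l + 2*c + 2*d + 2*U + 2) (2*N) (-4*N + 2*m - 2*c - 2*d - 2*V + 2)
  f3 : Par W (i + l + m + 3) (i + 2*l + 2*m + 2*U + 3) (2*N - 2*m + 2*c + 2*d - 2)
  g0 : Par W (i + l - m - 2*Y + 1) (i + l + 1) (2*m + 2*Y + 2)
  n1 : Nd W (i + 2*a) (i) (i + 2*a + 2*b)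
  n2 : Nd W (i + l + 1) (i + l + 2*c + 1) (i + 2*a + 2*b + l + 1)
  n3 : Nd W (2*N + i + l - m + 2*c) (i + l + m + 2) (2*N + i + l - m + 2*c + 2*d)
  n4 : Nd W (-2*N + i + 2*l + 2*m + 2*U + 3) (-2*N + i + 2*l + 2*m + 2*U - 2*V + 3) (2*N + i + 2*l + 2*c + 2*d + 2*U + 1)
  lam : L2 W (2*N) L (i + 2*a) (i) (i + 2*a + 2*b) (-2*N + i + 2*l + 2*m + 2*U + 3) (-2*N + i + 2*l + 2*m + 2*U - 2*V + 3) (2*N + i + 2*l + 2*c + 2*d + 2*U + 1)

/-- the linear side conditions -/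
structure B (N Q i a b l m c d L U V Y : ℤ) : Prop where
  b1 : 0 ≤ i
  b2 : 0 ≤ a
  b3 : i + 2*a + 1 ≤ Q
  b4 : Q ≤ i + 2*a + 2*b
  b5 : i + 2*a + 2*b + 1 ≤ 2*N
  b6 : 0 ≤ i + l + 2*c + 1
  b7 : i + l + 2*c + 2 ≤ Q
  b8 : Q ≤ i + l + 1
  b9 : i + 2*a + 2*b + l + 2 ≤ 2*N
  b10 : Q + m ≤ 2*N + i + l + 2*c
  b11 : i + l + 2*c + 1 ≤ m
  b12 : Q ≤ i + l + m + 2
  b13 : i + l + m + 3 ≤ 2*N
  b14 : Q + m ≤ 2*N + i + l + 2*c + 2*d
  b15 : i + l + 2*c + 2*d + 1 ≤ m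
  b16 : 0 ≤ l + m + 2*U
  b17 : 0 ≤ V
  b18 : 2*N + 2*V ≤ i + 2*l + 2*m + 2*U + 3
  b19 : i + 2*l + 2*m + 2*U + 4 ≤ 2*N + Q
  b20 : Q ≤ 2*N + i + 2*l + 2*c + 2*d + 2*U + 1
  b21 : i + 2*l + 2*c + 2*d + 2*U + 2 ≤ 0
  b22 : i + 2*a + L + 3 ≤ 2*N
  b23 : i + 2*a + 2*b + L + 3 ≤ 2*N + Q
  b24 : l + L + 3 ≤ 2*N
  b25 : 2*a + 2*b + L + 2 ≤ 2*N
  b26 : Q + L + 2*V ≤ i + 2*l + 2*m + 2*U + 1
  b27 : L + 1 ≤ 2*N + i + 2*l + 2*c + 2*d + 2*U
  b28 : l + m + L + 2*U + 3 ≤ 2*N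
  b29 : 2*m + L + 4 ≤ 4*N + 2*c + 2*d
  b30 : 0 ≤ L
  b31 : i + 2*a ≤ L
  b32 : i + 2*a + 2*b ≤ Q + L
  b33 : l ≤ L
  b34 : Q ≤ i + l + 2*c + L + 2
  b35 : 2*N ≤ i + 2*a + 2*b + l + L + 2
  b36 : 2*N ≤ i + l + m + L + 3
  b37 : 2*N + Q + 2*V ≤ i + 2*l + 2*m + L + 2*U + 4
  b38 : 0 ≤ i + 2*l + 2*c + 2*d + L + 2*U + 2
  b39 : l + m + 2*U ≤ L
  b40 : 1 ≤ m + 2*Y
  b41 : 2*l + L + 2*U + 3 ≤ 2*N + 2*Y
  b42 : m + 2*Y ≤ l
  b43 : 2*Y ≤ l + 2*U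
  b44 : Q + L + 2*V ≤ i + l + 2*m + 2*U + 1
  b45 : L + 1 ≤ 2*N + i + l + 2*c + 2*d + 2*U
  b46 : i + 2*a + l + m + L + 2*U + 3 ≤ 2*N
  b47 : i + 2*a + 2*b + l + m + L + 2*U + 3 ≤ 2*N + Q
  b48 : 2*a + L + 1 ≤ 2*N + 2*l + 2*c + 2*d + 2*U
  b49 : 2*a + 2*b + L + 2*V ≤ 2*l + 2*m + 2*U + 1

variable {W : ℤ → G} {N Q i a b l m c d L U V Y : ℤ}

theorem T0_0 (X : C W N Q i a b l m c d L U V Y) (hb : B N Q i a b l m c d L U V Y)
    (h : N + c ≤ m) :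
    False := by
  have b6 := hb.b6
  have b13 := hb.b13
  have g1 := h
  have k1 : 1 ≤ N + c := by clear * - b6 b13 g1; omega
  clear * - X g1 k1
  exact X.al.ninv (-N + i + l + c + 1) (fin X.al.per (-1) _ (af X.S2 X.al.per 0 (N + i + l + c + 1) (rfl : W (-N + i + l + c + 1) = W (-N + i + l + c + 1)) (by omega)) (by omega))

theorem T0_1 (X : C W N Q i a b l m c d L U V Y) (hb : B N Q i a b l m c d L U V Y)
    (h : N + c + d + 2*V ≤ m ∧ i + 2*l + 3*m + 2*U + 5 ≤ 3*N + Q + c + d + 2*V) :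
    False := by
  have b17 := hb.b17
  obtain ⟨g1, g2⟩ := h
  have k1 : N + c + d ≤ m := by clear * - b17 g1; omega
  clear * - X g1 g2 k1
  exact X.al.ninv (-3*N + i + 2*l + 3*m - c - d + 2*U - 2*V + 4) (fin X.al.per 0 _ (pr X.f1 X.al.per (-1) (-3*N + i + 2*l + 3*m - c - d + 2*U - 2*V + 4) (af X.t2 X.al.per 0 (-N + i + 2*l + m + c + d + 2*U + 2) (rfl : W (-3*N + i + 2*l + 3*m - c - d + 2*U - 2*V + 4) = W (-3*N + i + 2*l + 3*m - c - d + 2*U - 2*V + 4)) (by omega)) (by omega)) (by omega))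

theorem T0_2 (X : C W N Q i a b l m c d L U V Y) (hb : B N Q i a b l m c d L U V Y)
    (h : 2*N + 2*c + d ≤ 2*m + 1 ∧ m + 2 ≤ 2*N + 2*c + d ∧ d + 1 ≤ 0 ∧ 0 ≤ l + m + d + 2*U) :
    False := by
  obtain ⟨g1, g2, g3, g4⟩ := h
  clear * - X g1 g2 g3 g4
  exact X.al.ninv (2*N + i + l - m + 2*c + d) (fin X.al.per 0 _ (pf X.f3 X.al.per (-1) (2*N + i + l - m + 2*c + d) (ar X.S2 X.al.per 0 (-2*N + i + l + m - d + 2) (rfl : W (2*N + i + l - m + 2*c + d) = W (2*N + i + l - m + 2*c + d)) (by omega)) (by omega)) (by omega))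

theorem T0_3 (X : C W N Q i a b l m c d L U V Y) (hb : B N Q i a b l m c d L U V Y)
    (h : 2*N + b + V ≤ i + 2*l + 2*m + 2*U + 3 ∧ 2*l + 2*m + 2*U + 4 ≤ 2*N + 2*a + b + V ∧ V + 1 ≤ b) :
    False := by
  obtain ⟨g1, g2, g3⟩ := h
  clear * - X g1 g2 g3
  exact X.al.ninv (-2*N + i - b + 2*l + 2*m + 2*U - V + 3) (fin X.al.per 0 _ (ar X.t1 X.al.per 0 (-2*N + i - b + 2*l + 2*m + 2*U - V + 3) (pf X.a1 X.al.per 0 (-2*N + i + b + 2*l + 2*m + 2*U - V + 3) (rfl : W (-2*N + i - b + 2*l + 2*m + 2*U - V + 3) = W (-2*N + i - b + 2*l + 2*m + 2*U - V + 3)) (by omega)) (by omega)) (by omega))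

theorem T0_4 (X : C W N Q i a b l m c d L U V Y) (hb : B N Q i a b l m c d L U V Y)
    (h : 1 ≤ N + c + d ∧ N + c ≤ l + 2*m + d + 2*U + 1 ∧ N + c + 3*d ≤ m) :
    False := by
  have b6 := hb.b6
  have b13 := hb.b13
  have b17 := hb.b17
  have b18 := hb.b18
  have b21 := hb.b21
  have b40 := hb.b40
  have b43 := hb.b43
  obtain ⟨g1, g2, g3⟩ := h
  have k1 : N + c + d ≤ m := by clear * - b17 b18 b21; omega
  have k2 : d + 1 ≤ N + c := by clear * - b6 b13 g1 g3; omega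
  have k3 : 1 ≤ l + m + 2*U := by clear * - b40 b43; omega
  clear * - X g1 g2 g3 k1 k2 k3
  obtain ⟨K0, hL⟩ : ∃ K0 : ℤ, 2*N - 2*m + 2*c ≤ 2*K0 ∧ 2*N - 2*l - 4*m + 2*c - 4*U - 2 ≤ 2*K0 ∧ 2*N - 2*m + 2*c + 4*d ≤ 2*K0 ∧ 2*K0 + 2*(-N + m - c - d + 1) - 2 ≤ 2*N + 2*c - 2 ∧ 2*K0 + 2*(-N + m - c - d + 1) - 2 ≤ -2*N + 2*m - 2*c - 4*d ∧ 2*K0 + 2*(-N + m - c - d + 1) - 2 ≤ -2*N + 2*l + 4*m - 2*c + 4*U + 2 := ⟨((max (2*N - 2*m + 2*c + 4*d) (max (2*N - 2*l - 4*m + 2*c - 4*U - 2) (2*N - 2*m + 2*c))) + 1) / 2, by omega⟩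
  obtain ⟨R, hR1, hR2, hR⟩ := pw (A := 2*N + i + l - m + 2*c + 2*d + 1) (B := i + 2*l + 2*m + 2*U + 3) (γ := -N + m - c - d + 1) (by omega) (fun t h1 h2 => (fin X.al.per 0 _ (pr X.f3 X.al.per 0 (-2*N + 2*m - 2*c - 2*d + t + 2) (rfl : W (t) = W (t)) (by omega)) (by omega))) K0
  exact X.al.ninv (-N + i + l + c + R + 1) (fin X.al.per (-1) _ (pp hR X.al.per 0 (N + i + l + c + R + 1) (af X.S2 X.al.per 0 (N + i + l + c - R + 1) (rfl : W (-N + i + l + c + R + 1) = W (-N + i + l + c + R + 1)) (by omega)) (by omega)) (by omega))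

theorem T0_5 (X : C W N Q i a b l m c d L U V Y) (hb : B N Q i a b l m c d L U V Y)
    (h : b ≤ i + a ∧ a + 1 ≤ b) :
    False := by
  have b2 := hb.b2
  obtain ⟨g1, g2⟩ := h
  have k1 : 1 ≤ a + b := by clear * - b2 g2; omega
  clear * - X g1 g2 k1
  exact X.al.ninv (i + a - b) (fin X.al.per 0 _ (ar X.s1 X.al.per 0 (i + a - b) (pf X.a1 X.al.per 0 (i + a + b) (rfl : W (i + a - b) = W (i + a - b)) (by omega)) (by omega)) (by omega))

theorem T0_6 (X : C W N Q i a b l m c d L U V Y) (hb : B N Q i a b l m c d L U V Y)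
    (h : 2*N + 2*c + 2*d ≤ m ∧ m + 1 ≤ N + a + b + c + d ∧ N + a + b + c + d ≤ m + 1) :
    False := by
  have b9 := hb.b9
  obtain ⟨g1, g2, g3⟩ := h
  have k1 : i + l + 2*m + 4 ≤ 4*N + 2*c + 2*d := by clear * - b9 g2; omega
  clear * - X g1 g2 g3 k1
  exact X.n2.yz (fin X.al.per 0 _ (pr X.d2 X.al.per 0 (-2*N + i + l + 2*m - 2*c - 2*d + 3) (rfl : W (i + l + 1) = W (i + l + 1)) (by omega)) (by omega)).symm

theorem T0_7 (X : C W N Q i a b l m c d L U V Y) (hb : B N Q i a b l m c d L U V Y)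
    (h : i + 2*l + 2*m + 2*U + 4 ≤ 2*N + 2*b + 2*V ∧ N + b + c + d + V ≤ m ∧ 2*m + 2 ≤ 2*N + i + 2*a + 2*b + 2*c + 2*d + 2*V) :
    False := by
  have b39 := hb.b39
  have b40 := hb.b40
  have b43 := hb.b43
  have b49 := hb.b49
  obtain ⟨g1, g2, g3⟩ := h
  have k1 : m + 2 ≤ 2*N + b + c + d + V := by clear * - b39 b40 b43 b49 g1 g3; omega
  clear * - X g1 g2 g3 k1
  exact X.al.ubP (-2*N - 2*b + 2*m - 2*c - 2*d - 2*V + 2) (by omega) (by omega) fun t h1 h2 => (fin X.al.per 0 _ (pr X.a1 X.al.per 0 (-2*N - 2*b + 2*m - 2*c - 2*d - 2*V + t + 2) (pf X.f2 X.al.per (-1) (-2*N + 2*m - 2*c - 2*d - 2*V + t + 2) (rfl : W (t) = W (t)) (by omega)) (by omega)) (by omega))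

theorem T0_8 (X : C W N Q i a b l m c d L U V Y) (hb : B N Q i a b l m c d L U V Y)
    (h : a + b ≤ l + 2*c) :
    False := by
  have b4 := hb.b4
  have b7 := hb.b7
  have b11 := hb.b11
  have b17 := hb.b17
  have b25 := hb.b25
  have b33 := hb.b33
  have b35 := hb.b35
  have b36 := hb.b36
  have b40 := hb.b40
  have b41 := hb.b41
  have b42 := hb.b42
  have b43 := hb.b43
  have b44 := hb.b44
  have b47 := hb.b47
  have g1 := h
  have k1 : a + b ≤ m := by clear * - b11 b17 b33 b36 b44 b47 g1; omega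
  have k2 : 2*c ≤ a + b + m := by clear * - b11 b25 b35 b40 b41 b42 b43; omega
  have k3 : 1 ≤ a + b := by clear * - b4 b7 g1; omega
  have k4 : 2*c + 1 ≤ 3*a + 3*b := by clear * - b4 b7 b40 b42 g1; omega
  have k5 : 1 ≤ l := by clear * - b40 b42; omega
  clear * - X g1 k1 k2 k3 k4 k5
  obtain ⟨K0, hL⟩ : ∃ K0 : ℤ, -2*m + 2*c ≤ 2*K0 ∧ -4*a - 4*b + 2*c + 2 ≤ 2*K0 ∧ -2*l - 2*c ≤ 2*K0 ∧ 2*K0 + 2*(a + b) - 2 ≤ 2*c - 2 ∧ 2*K0 + 2*(a + b) - 2 ≤ 2*l + 2*c ∧ 2*K0 + 2*(a + b) - 2 ≤ 4*a + 4*b - 2*c - 2 := ⟨((max (-2*l - 2*c) (max (-4*a - 4*b + 2*c + 2) (-2*m + 2*c))) + 1) / 2, by omega⟩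
  obtain ⟨R, hR1, hR2, hR⟩ := pw (A := i + 1) (B := i + 2*a + 2*b + l + 1) (γ := a + b) (by omega) (fun t h1 h2 => (fin X.al.per 0 _ (pf X.bb X.al.per 0 (2*a + 2*b + t) (rfl : W (t) = W (t)) (by omega)) (by omega))) K0
  exact X.al.ninv (i + l + c + R + 1) (fin X.al.per 0 _ (pp hR X.al.per 0 (i + l + c + R + 1) (af X.S2 X.al.per 0 (i + l + c - R + 1) (rfl : W (i + l + c + R + 1) = W (i + l + c + R + 1)) (by omega)) (by omega)) (by omega))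

theorem T0_9 (X : C W N Q i a b l m c d L U V Y) (hb : B N Q i a b l m c d L U V Y)
    (h : 2*i + 2*a + 1 ≤ Q ∧ 2*l + 2*m + 2*U + 4 ≤ 2*N + a + V ∧ 4*N + 2*a + 2*V ≤ i + 4*l + 4*m + 4*U + 6) :
    False := by
  have b18 := hb.b18
  have b36 := hb.b36
  have b40 := hb.b40
  have b42 := hb.b42
  have b43 := hb.b43
  have b44 := hb.b44
  obtain ⟨g1, g2, g3⟩ := h
  have k1 : N + a + V ≤ 2*l + 2*m + 2*U + 2 := by clear * - b36 b40 b42 b43 b44 g1; omega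
  clear * - X g1 g2 g3 b18 k1
  exact X.al.ubP (4*N + 2*a - 4*l - 4*m - 4*U + 2*V - 6) (by omega) (by omega) fun t h1 h2 => (fin X.al.per 0 _ (ar' X.s1 X.al.per 0 (4*N + 2*a - 4*l - 4*m - 4*U + 2*V + t - 6) (ar X.t2 X.al.per 0 (-4*N + 2*i + 4*l + 4*m + 4*U - 2*V - t + 6) (rfl : W (t) = W (t)) (by omega)) (by omega)) (by omega))

theorem T0_10 (X : C W N Q i a b l m c d L U V Y) (hb : B N Q i a b l m c d L U V Y)
    (h : 2*m + 3 ≤ 3*N + 3*c + 2*d + V ∧ m + 2 ≤ N + c + V ∧ i + l + c + V + 2 ≤ N ∧ N + l + c + 2*d + 2*U + 1 ≤ V) :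
    False := by
  have b7 := hb.b7
  have b11 := hb.b11
  have b18 := hb.b18
  obtain ⟨g1, g2, g3, g4⟩ := h
  have k1 : 3*N + 3*c + 2*d + V ≤ 3*m + 2 := by clear * - b11 b18 g4; omega
  have k2 : i + l + 2*m + 4 ≤ 3*N + Q + c + 2*d + V := by clear * - b7 g1; omega
  clear * - X g1 g2 g3 g4 k1 k2
  exact X.al.ninv (-3*N + i + l + 2*m - c - 2*d - V + 3) (fin X.al.per 0 _ (pr X.f1 X.al.per 0 (-3*N + i + l + 2*m - c - 2*d - V + 3) (pr X.d2 X.al.per 0 (N + i + l + c + V + 1) (af X.S2 X.al.per 0 (3*N + i + l - 2*m + 3*c + 2*d + V - 1) (rfl : W (-3*N + i + l + 2*m - c - 2*d - V + 3) = W (-3*N + i + l + 2*m - c - 2*d - V + 3)) (by omega)) (by omega)) (by omega)) (by omega))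

theorem T0_11 (X : C W N Q i a b l m c d L U V Y) (hb : B N Q i a b l m c d L U V Y)
    (h : V ≤ 0 ∧ l + 2*m + 2*U + 3 ≤ 2*N + 2*c ∧ l + m + 2*d + 2*U + 2 ≤ 0 ∧ 0 ≤ N + l + c + 2*d + 2*U ∧ N + l + c + 2*d + 2*U ≤ 0) :
    False := by
  have b11 := hb.b11
  have b17 := hb.b17
  have b18 := hb.b18
  have b21 := hb.b21
  obtain ⟨g1, g2, g3, g4, g5⟩ := h
  have k1 : 2*N + 2*c ≤ l + 3*m + 2*U + 2 := by clear * - b11 b17 b18; omega
  have k2 : i + 2 ≤ 2*N + 2*d + 2*U := by clear * - b21 g4; omega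
  clear * - X g1 g2 g3 g4 g5 b17 k1 k2
  exact X.n4.tor ⟨(fin X.al.per 0 _ (rfl : W (-2*N + i + 2*l + 2*m + 2*U + 3) = W (-2*N + i + 2*l + 2*m + 2*U + 3)) (by omega)), (fin X.al.per 0 _ (pr X.d2 X.al.per 0 (i - 2*d - 2*U + 1) (af X.S2 X.al.per 0 (2*N + i - 2*m + 2*c - 2*U - 1) (rfl : W (-2*N + i + 2*l + 2*m + 2*U + 3) = W (-2*N + i + 2*l + 2*m + 2*U + 3)) (by omega)) (by omega)) (by omega))⟩

theorem T0_12 (X : C W N Q i a b l m c d L U V Y) (hb : B N Q i a b l m c d L U V Y)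
    (h : 3*N + 3*c + 2*d ≤ 3*m + 2 ∧ 2*m + 3 ≤ 3*N + 3*c + 2*d ∧ m + 2 ≤ N + c ∧ 1 ≤ N + l + c + 2*d + 2*U) :
    False := by
  have b21 := hb.b21
  obtain ⟨g1, g2, g3, g4⟩ := h
  have k1 : i + l + c + 2 ≤ N := by clear * - b21 g4; omega
  clear * - X g1 g2 g3 g4 k1
  exact X.al.ninv (-3*N + i + l + 2*m - c - 2*d + 3) (fin X.al.per (-1) _ (pr X.f3 X.al.per 0 (-N + i + l + 2*m - c - 2*d + 3) (pr X.d2 X.al.per 0 (N + i + l + c + 1) (af X.S2 X.al.per 0 (3*N + i + l - 2*m + 3*c + 2*d - 1) (rfl : W (-3*N + i + l + 2*m - c - 2*d + 3) = W (-3*N + i + l + 2*m - c - 2*d + 3)) (by omega)) (by omega)) (by omega)) (by omega))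

theorem T0_13 (X : C W N Q i a b l m c d L U V Y) (hb : B N Q i a b l m c d L U V Y)
    (h : a + b + m + 2 ≤ 2*N + 3*c + d + V ∧ i + a + b + l + c + d + V + 1 ≤ m ∧ l + m + c + d + 2*U + 2 ≤ a + b + V) :
    False := by
  have b7 := hb.b7
  have b8 := hb.b8
  have b11 := hb.b11
  have b18 := hb.b18
  obtain ⟨g1, g2, g3⟩ := h
  have k1 : 2*N + 3*c + d + V ≤ a + b + 2*m + 1 := by clear * - b11 b18 g3; omega
  have k2 : a + b + m + 2 ≤ 2*N + c + d + V := by clear * - b7 b8 g1; omega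
  clear * - X g1 g2 g3 k1 k2
  exact X.al.ninv (-2*N + i + a + b + l + m - c - d - V + 2) (fin X.al.per 0 _ (pf X.f2 X.al.per 0 (-2*N + i + a + b + l + m - c - d - V + 2) (pr X.c2 X.al.per 0 (2*N + i + a + b + l - m + c + d + V) (af X.S2 X.al.per 0 (2*N + i - a - b + l - m + 3*c + d + V) (rfl : W (-2*N + i + a + b + l + m - c - d - V + 2) = W (-2*N + i + a + b + l + m - c - d - V + 2)) (by omega)) (by omega)) (by omega)) (by omega))

theorem T0_14 (X : C W N Q i a b l m c d L U V Y) (hb : B N Q i a b l m c d L U V Y)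
    (h : a ≤ 0 ∧ i + 4*l + 4*m + 4*U + 7 ≤ 4*N + 2*a + 2*V ∧ 2*l + 3*m + 2*U + 4 ≤ 3*N + 2*a + b + c + d + 2*V ∧ 3*N + 2*a + b + c + d + 2*V ≤ 2*l + 3*m + 2*U + 4) :
    False := by
  have b2 := hb.b2
  have b3 := hb.b3
  have b4 := hb.b4
  have b17 := hb.b17
  have b19 := hb.b19
  have b35 := hb.b35
  have b45 := hb.b45
  obtain ⟨g1, g2, g3, g4⟩ := h
  have k1 : l + m + U + 2 ≤ N + a := by clear * - b35 b45 g2 g4; omega
  have k2 : 2*N + a + c + d + V ≤ l + 2*m + U + 2 := by clear * - b4 b17 b19 g4; omega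
  clear * - X g1 g2 g3 g4 b2 k1 b3 k2
  exact X.n1.tor ⟨(fin X.al.per 0 _ (rfl : W (i + 2*a) = W (i + 2*a)) (by omega)), (fin X.al.per 0 _ (pf X.f2 X.al.per (-1) (-6*N + i - 2*a + 4*l + 6*m - 2*c - 2*d + 4*U - 4*V + 8) (af X.t2 X.al.per 0 (-4*N + i - 2*a + 4*l + 4*m + 4*U - 2*V + 6) (rfl : W (i + 2*a) = W (i + 2*a)) (by omega)) (by omega)) (by omega))⟩

theorem T0_15 (X : C W N Q i a b l m c d L U V Y) (hb : B N Q i a b l m c d L U V Y)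
    (h : 3*m + 3 ≤ 3*N + 3*c + 2*d ∧ 3*N + 3*c + 2*d ≤ 3*m + 3 ∧ i + 2*a + 2*b + l + 2*d + 1 ≤ m ∧ Q + 2*a + 2*b ≤ 2*m + 2 ∧ 6*m + L + 8 ≤ 6*N + 2*a + 2*b + 4*c + 4*d) :
    False := by
  have b7 := hb.b7
  have b11 := hb.b11
  have b25 := hb.b25
  have b36 := hb.b36
  have b40 := hb.b40
  have b41 := hb.b41
  have b42 := hb.b42
  have b43 := hb.b43
  obtain ⟨g1, g2, g3, g4, g5⟩ := h
  have k1 : 2*N + i + 2*a + 2*b + l + 2*c + 4*d ≤ 3*m + 1 := by clear * - b36 g2 g3 g5; omega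
  have k2 : 2*N + Q + 2*a + 2*b + 2*c + 2*d ≤ 4*m + 4 := by clear * - b36 g2 g3 g4 g5; omega
  have k3 : i + 2*a + 2*b + l + 2*c ≤ 2*m := by clear * - b7 g4; omega
  have k4 : 2*N + i + 2*a + 2*b + l + 4*c + 2*d ≤ 4*m + 2 := by clear * - b7 b36 g2 g3 g4 g5; omega
  have k5 : 2*m + 3 ≤ 2*N + a + b + c + 2*d := by clear * - b11 b36 g5; omega
  have k6 : N + a + b + c + 2*d ≤ 2*m + 1 := by clear * - b36 b40 b41 b42 b43 g2 g3 g5; omega
  have k7 : 3*m + L + 5 ≤ 4*N + 2*c + 2*d := by clear * - b25 g5; omega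
  have k8 : 4*m + L + 6 ≤ 4*N + 2*a + 2*b + 2*c + 2*d := by clear * - b36 g2 g3 g5; omega
  have k9 : i + l + 5*m + L + 8 ≤ 6*N + 2*a + 2*b + 2*c + 4*d := by clear * - b11 g5; omega
  clear * - X g1 g2 g3 g4 g5 k1 k2 k3 k4 k5 k6 k7 k8 k9
  exact absurd (X.lam.mx (max (-2*N + i - 2*a - 2*b + l + 3*m - 2*d + 5) (max (i - 2*a - 2*b + l + m + 2*c + 3) (i + l + 2*c + 2))) (min (4*N - 2*a - 2*b - 2*m + 4*c - 2) (min (4*N + i + l - 3*m + 4*c + 2*d - 2) (4*N - 2*m + 2*c + 2*d - 2))) (4*N + 2*a + 2*b - 4*m + 2*c + 4*d - 4) (by omega) (by omega) fun t h1 h2 => by (try simp only [max_le_iff, lt_min_iff] at h1 h2); exact (lt_or_ge t (min (-2*a - 2*b + 2*m - 2*d + 2) (2*N - 2*a - 2*b + 2*c))).elim (fun u0 => by (try simp only [lt_min_iff] at u0); exact (fin X.al.per 0 _ (pf X.d2 X.al.per 0 (4*N + 2*a + 2*b - 4*m + 2*c + 4*d + t - 4) (pf X.d2 X.al.per 0 (2*N + 2*a + 2*b - 2*m + 2*d +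 t - 2) (pr X.c2 X.al.per 0 (2*a + 2*b - 2*c + t) (rfl : W (t) = W (t)) (by omega)) (by omega)) (by omega)) (by omega))) (fun u0 => (fin X.al.per 0 _ (pr X.c2 X.al.per 0 (-2*N + 2*a + 2*b + 2*m - 4*c + t + 2) (pr X.d1 X.al.per 0 (-2*N + 2*m - 2*c + t + 2) (pr X.d2 X.al.per 0 (-2*N + 2*m - 2*c - 2*d + t + 2) (rfl : W (t) = W (t)) (by omega)) (by omega)) (by omega)) (by omega)))) (by omega)

theorem T0_16 (X : C W N Q i a b l m c d L U V Y) (hb : B N Q i a b l m c d L U V Y)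
    (h : l + 2*m + 2*U + 3 ≤ 2*N + 2*c ∧ 4*N + 4*c + 2*V ≤ 2*l + 5*m + 4*U + 4 ∧ 2*N + 2*c + V ≤ a + b + l + 2*m + 2*U + 2 ∧ a + b + l + 2*m + 2*U + 2 ≤ 2*N + 2*c + V) :
    False := by
  have b7 := hb.b7
  have b17 := hb.b17
  obtain ⟨g1, g2, g3, g4⟩ := h
  have k1 : l + 2*m + 2*U + 3 ≤ 2*N + 2*c + V := by clear * - b17 g1; omega
  clear * - X g1 g2 g3 g4 b7 k1
  exact X.n2.xz (fin X.al.per 0 _ (af' X.S2 X.al.per 0 (4*N + i - l - 4*m + 4*c - 4*U + 2*V - 3) (af X.t2 X.al.per 0 (-4*N + i + 3*l + 4*m - 2*c + 4*U - 2*V + 5) (rfl : W (i + l + 2*c + 1) = W (i + l + 2*c + 1)) (by omega)) (by omega)) (by omega)).symm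

theorem T0_17 (X : C W N Q i a b l m c d L U V Y) (hb : B N Q i a b l m c d L U V Y)
    (h : i + 4*a + 4*b + 1 ≤ 2*N + 2*c ∧ 2*N + 2*a + 2*b + 2*d ≤ l + 2*m + 2 ∧ i + 4*a + 4*b + l + 2 ≤ 2*N ∧ N + a + b + c + d ≤ m ∧ i + 2*a + 2*b + l + m + 3 ≤ 2*N ∧ 2*N + 2*c + 2*d ≤ m ∧ m + 2 ≤ N + d ∧ 2*c + L + 2 ≤ 2*a + 2*b ∧ i + l + L + 3 ≤ 2*N ∧ m + 2*c + L + 3 ≤ 4*a + 4*b ∧ i + l + m + L + 4 ≤ 2*N + 2*a + 2*b ∧ 2*m + L + 3 ≤ 2*N + 2*a + 2*b + l + 2*d ∧ i + 2*m + L + 4 ≤ 4*N + 2*c + 2*d) :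
    False := by
  have b36 := hb.b36
  have b41 := hb.b41
  have b43 := hb.b43
  obtain ⟨g1, g2, g3, g4, g5, g6, g7, g8, g9, g10, g11, g12, g13⟩ := h
  have k1 : d ≤ m := by clear * - b36 b41 b43 g2 g5 g11; omega
  clear * - X g1 g2 g3 g4 g5 g6 g7 g8 g9 g10 g11 g12 g13 k1
  exact absurd (X.lam.mx (max (-2*N + i + 2*m - 2*d + 3) (max (i - 2*a - 2*b + l + m + 2*c + 3) (i + l + 2*c + 2))) (min (2*N + 2*c) (i + 2*a + 2*b + l + 1)) (2*N - 2*m + 2*d - 2) (by omega) (by omega) fun t h1 h2 => by (try simp only [max_le_iff, lt_min_iff] at h1 h2); exact (lt_or_ge t (min (-2*N + i + l + 2*m - 2*d + 3) (2*N - 2*a - 2*b + 2*c))).elim (fun u0 => by (try simp only [lt_min_iff] at u0); exact (fin X.al.per 0 _ (pr X.bb X.al.per 0 (2*N - 2*m + 2*d + t - 2) (pf X.d2 X.al.per 0 (2*N + 2*a + 2*b - 2*m + 2*d + t - 2) (pr X.c2 X.al.per 0 (2*a + 2*b - 2*c + t) (rfl : W (t) = W (t)) (by omega))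 (by omega)) (by omega)) (by omega))) (fun u0 => (fin X.al.per 0 _ (pf X.d2 X.al.per 0 (2*N - 2*m + 2*d + t - 2) (pr X.c2 X.al.per 0 (-2*c + t) (pr X.bb X.al.per 0 (-2*a - 2*b + t) (rfl : W (t) = W (t)) (by omega)) (by omega)) (by omega)) (by omega)))) (by omega)

theorem T0_18 (X : C W N Q i a b l m c d L U V Y) (hb : B N Q i a b l m c d L U V Y)
    (h : N + a + b + c + d + V ≤ m ∧ a + b + l + m + d + 2*U + 2 ≤ N + c + V ∧ N + i + l + 3*c + d + V + 1 ≤ a + b + m ∧ a + b + 1 ≤ N + c + d + V) :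
    False := by
  have b6 := hb.b6
  have b13 := hb.b13
  obtain ⟨g1, g2, g3, g4⟩ := h
  have k1 : i + a + b + l + m + 3 ≤ 3*N + c + d + V := by clear * - b13 g4; omega
  have k2 : N + c + d + V ≤ a + b + m := by clear * - b6 g3; omega
  clear * - X g1 g2 g3 g4 k1 k2
  exact X.al.ninv (-N + i + a + b + l + m - c - d - V + 2) (fin X.al.per 0 _ (af X.S2 X.al.per 1 (-N + i + a + b + l + m - c - d - V + 2) (pr X.f2 X.al.per 0 (3*N + i - a - b + l - m + 3*c + d + V) (pf X.c2 X.al.per 0 (-N + i - a - b + l + m + c - d - V + 2) (rfl : W (-N + i + a + b + l + m - c - d - V + 2) = W (-N + i + a + b + l + m - c - d - V + 2)) (by omega)) (by omega)) (by omega)) (by omega))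

theorem T0_19 (X : C W N Q i a b l m c d L U V Y) (hb : B N Q i a b l m c d L U V Y)
    (h : Q ≤ i + a + b ∧ b + l + 2*c + 1 ≤ a + m ∧ Q + a ≤ i + b + l + 2*c + 1 ∧ a + b ≤ m) :
    False := by
  have b2 := hb.b2
  have b3 := hb.b3
  have b7 := hb.b7
  have b40 := hb.b40
  have b42 := hb.b42
  obtain ⟨g1, g2, g3, g4⟩ := h
  have k1 : l + 2*c + 2 ≤ 3*a + b := by clear * - b2 b7 g1; omega
  have k2 : a ≤ b + l + 2*c := by clear * - b2 b3 g3; omega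
  have k3 : 1 ≤ l := by clear * - b40 b42; omega
  clear * - X g1 g2 g3 g4 k1 k2 k3
  obtain ⟨K0, hL⟩ : ∃ K0 : ℤ, -4*a - 2*b + 2*l + 2*c + 4 ≤ 2*K0 ∧ -4*a - 2*b + 2*c + 2 ≤ 2*K0 ∧ -2*b - 2*l - 2*c ≤ 2*K0 ∧ -2*b - 2*c + 2 ≤ 2*K0 ∧ 2*K0 + 2*(a + b) - 2 ≤ -2*Q + 2*i + 2*b + 2*l + 2*c + 2 ∧ 2*K0 + 2*(a + b) - 2 ≤ 2*b + 2*l + 2*c ∧ 2*K0 + 2*(a + b) - 2 ≤ 4*a + 2*b - 2*c - 2 ∧ 2*K0 + 2*(a + b) - 2 ≤ -2*b + 2*m - 2*c := ⟨((max (-2*b - 2*c + 2) (max (-2*b - 2*l - 2*c) (max (-4*a - 2*b + 2*c + 2) (-4*a - 2*b + 2*l + 2*c + 4)))) + 1) / 2, by omega⟩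
  obtain ⟨R, hR1, hR2, hR⟩ := pw (A := i + 1) (B := i + 2*a + 2*b + l + 1) (γ := a + b) (by omega) (fun t h1 h2 => (fin X.al.per 0 _ (pf X.bb X.al.per 0 (2*a + 2*b + t) (rfl : W (t) = W (t)) (by omega)) (by omega))) K0
  exact X.al.ninv (i - b + l + c - R + 1) (fin X.al.per 0 _ (ar X.S2 X.al.per 0 (i - b + l + c - R + 1) (pp hR X.al.per 0 (i + b + l + c + R + 1) (pf X.a2 X.al.per 0 (i + b + l + c - R + 1) (rfl : W (i - b + l + c - R + 1) = W (i - b + l + c - R + 1)) (by omega)) (by omega)) (by omega)) (by omega))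

theorem T0_20 (X : C W N Q i a b l m c d L U V Y) (hb : B N Q i a b l m c d L U V Y)
    (h : a + b + m + 1 ≤ 2*N + 3*c + d + V ∧ 2*N + 3*c + d + V ≤ a + b + m + 1 ∧ 2*N + i + l + 4*c + 2*d + 2*V ≤ 2*m ∧ 2*N + i + l + 4*c + 2*d + 2*V + 1 ≤ 2*a + 2*b + m ∧ i + 2*c + 2*V + 1 ≤ 0 ∧ 2*N + 2*a + 2*b + 2*d ≤ l + 2*m + 2 ∧ N + a + b + c + d ≤ m ∧ 2*N + 2*c + 2*d ≤ m ∧ a + b + 2*m + 3 ≤ 3*N + 3*c + 2*d + V ∧ l + 2*m + L + 2*U + 4 ≤ 2*N + 2*a + 2*b + 2*V ∧ 4*m + L + 6 ≤ 6*N + 4*c + 4*d + 2*V) :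
    False := by
  have b17 := hb.b17
  have b35 := hb.b35
  have b36 := hb.b36
  have b39 := hb.b39
  have b40 := hb.b40
  have b42 := hb.b42
  have b45 := hb.b45
  obtain ⟨g1, g2, g3, g4, g5, g6, g7, g8, g9, g10, g11⟩ := h
  have k1 : 4*N + i + l + 6*c + 4*d + 2*V ≤ 4*m + 2 := by clear * - b17 b39 b45 g3 g4 g6; omega
  have k2 : 4*N + i + l + 6*c + 4*d + 2*V ≤ 2*a + 2*b + 3*m + 1 := by clear * - b17 b39 b45 g4 g6; omega
  have k3 : 2*N + i + 4*c + 2*d + 2*V ≤ 2*m + 1 := by clear * - b40 b42 g3; omega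
  have k4 : 2*N + 3*c + 2*d + V ≤ a + b + 2*m + 1 := by clear * - b36 b45 g1 g3 g4 g6 g8 g10 g11; omega
  have k5 : 3*m + L + 5 ≤ 4*N + 2*a + 2*b + 2*c + 2*d + 2*V := by clear * - b17 b35 b45 g4 g6 g9 g10 g11; omega
  clear * - X g1 g2 g3 g4 g5 g6 g7 g8 g9 g10 g11 k1 k2 k3 k4 k5
  exact absurd (X.lam.mx (max (-6*N + i + 2*a + 2*b + l + 4*m - 4*c - 4*d - 2*V + 6) (max (-4*N + i + l + 3*m - 2*c - 2*d - 2*V + 5) (-2*N + i + 2*l + 2*m + 2*U - 2*V + 4))) (min (2*N + 2*c) (i + 2*a + 2*b + l + 1)) (6*N - 2*a - 2*b - 4*m + 6*c + 4*d + 2*V - 4) (by omega) (by omega) fun t h1 h2 => by (try simp only [max_le_iff, lt_min_iff] at h1 h2); exact (lt_or_ge t (min (-4*N + 4*m - 4*c - 4*d - 2*V + 4) (-2*N + 2*m - 2*c - 2*d - 2*V + 2))).elim (fun u0 => by (try simp only [lt_min_iff] at u0); exact (fin X.al.per 0 _ (pf X.c2 X.al.per 0 (6*N - 2*a - 2*b - 4*m + 6*c + 4*d + 2*V + t - 4) (pf X.d2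 X.al.per 0 (6*N - 4*m + 4*c + 4*d + 2*V + t - 4) (pr X.f2 X.al.per 0 (4*N - 2*m + 2*c + 2*d + 2*V + t - 2) (rfl : W (t) = W (t)) (by omega)) (by omega)) (by omega)) (by omega))) (fun u0 => (lt_or_ge t (min (-2*N + i + l + 2*m - 2*d + 3) (2*N - 2*a - 2*b + 2*c))).elim (fun u1 => by (try simp only [lt_min_iff] at u1); exact (fin X.al.per 0 _ (pr X.bb X.al.per 0 (2*N - 2*m + 2*d + t - 2) (pf X.d2 X.al.per 0 (2*N + 2*a + 2*b - 2*m + 2*d + t - 2) (pr X.c2 X.al.per 0 (2*a + 2*b - 2*c + t) (rfl : W (t) = W (t)) (by omega)) (by omega)) (by omega)) (by omega))) (fun u1 => (fin X.al.per 0 _ (pf X.d2 X.al.per 0 (2*N - 2*m + 2*d + t - 2) (pr X.c2 X.al.per 0 (-2*c + t) (pr X.bb X.al.per 0 (-2*a - 2*b + t) (rfl : W (t) = W (t)) (by omega)) (by omega)) (by omega)) (by omega))))) (by omega)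

theorem T0_21 (X : C W N Q i a b l m c d L U V Y) (hb : B N Q i a b l m c d L U V Y)
    (h : 3*N + a + b + c + d + 2*V ≤ 2*l + 3*m + 2*U + 3 ∧ i + a + b + 2*l + m + c + d + 2*U + 3 ≤ N ∧ i + 2*l + 3*m + 2*U + 5 ≤ 3*N + Q + a + b + c + d + 2*V) :
    False := by
  have b17 := hb.b17
  have b29 := hb.b29
  have b35 := hb.b35
  have b44 := hb.b44
  have b45 := hb.b45
  obtain ⟨g1, g2, g3⟩ := h
  have k1 : l + 3*m + 2*U + 4 ≤ 3*N + a + b + c + d + 2*V := by clear * - b17 b29 b35 g2; omega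
  have k2 : N + c + d ≤ a + b + m := by clear * - b17 b35 b44 g1 g2 g3; omega
  have k3 : N + a + b + c + d + 2*V ≤ m := by clear * - b35 b45 g1 g2; omega
  clear * - X g1 g2 g3 k1 k2 k3
  exact X.al.ninv (-3*N + i - a - b + 2*l + 3*m - c - d + 2*U - 2*V + 4) (fin X.al.per 0 _ (ar X.t2 X.al.per 1 (-3*N + i - a - b + 2*l + 3*m - c - d + 2*U - 2*V + 4) (pr X.f2 X.al.per 0 (N + i + a + b + 2*l + m + c + d + 2*U + 2) (pf X.bb X.al.per 0 (-3*N + i + a + b + 2*l + 3*m - c - d + 2*U - 2*V + 4) (rfl : W (-3*N + i - a - b + 2*l + 3*m - c - d + 2*U - 2*V + 4) = W (-3*N + i - a - b + 2*l + 3*m - c - d + 2*U - 2*V + 4)) (by omega)) (by omega)) (by omega)) (by omega))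

theorem T0_22 (X : C W N Q i a b l m c d L U V Y) (hb : B N Q i a b l m c d L U V Y)
    (h : N + b ≤ i + l + m + 2 ∧ l + m + 3 ≤ N + 2*a + b ∧ N + Q ≤ i + b + l + m + 2 ∧ b + 2*m + 3 ≤ 3*N + 2*c + 2*d ∧ N + 2*d + 1 ≤ b ∧ m + 2 ≤ N + b + 2*c) :
    False := by
  have b11 := hb.b11
  obtain ⟨g1, g2, g3, g4, g5, g6⟩ := h
  have k1 : i + b + l + m + 3 ≤ 3*N + 2*d := by clear * - b11 g4; omega
  have k2 : N + b + 2*c ≤ 2*m + 1 := by clear * - b11 g1; omega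
  clear * - X g1 g2 g3 g4 g5 g6 k1 k2
  exact X.al.ninv (-N + i - b + l + m + 2) (fin X.al.per 0 _ (ar X.S2 X.al.per 0 (-N + i - b + l + m + 2) (pf X.d2 X.al.per 0 (N + i + b + l - m + 2*c) (pf X.d1 X.al.per 0 (-N + i + b + l + m - 2*d + 2) (pf X.a1 X.al.per 0 (-N + i + b + l + m + 2) (rfl : W (-N + i - b + l + m + 2) = W (-N + i - b + l + m + 2)) (by omega)) (by omega)) (by omega)) (by omega)) (by omega))

theorem T0_23 (X : C W N Q i a b l m c d L U V Y) (hb : B N Q i a b l m c d L U V Y)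
    (h : i + a + b + l + 2 ≤ N ∧ N + 2*c ≤ a + b + m) :
    False := by
  have b6 := hb.b6
  have b25 := hb.b25
  have b39 := hb.b39
  have b40 := hb.b40
  have b43 := hb.b43
  obtain ⟨g1, g2⟩ := h
  have k1 : a + b + 1 ≤ N := by clear * - b25 b39 b40 b43; omega
  have k2 : a + b + 1 ≤ N + 2*c := by clear * - b6 g1; omega
  clear * - X g1 g2 k1 k2
  exact X.al.ninv (N + i + a + b + l + 1) (fin X.al.per 1 _ (ar X.S2 X.al.per 0 (-N + i + a + b + l + 1) (pf X.c2 X.al.per 0 (N + i - a - b + l + 2*c + 1) (rfl : W (N + i + a + b + l + 1) = W (N + i + a + b + l + 1)) (by omega)) (by omega)) (by omega))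

theorem T0_24 (X : C W N Q i a b l m c d L U V Y) (hb : B N Q i a b l m c d L U V Y)
    (h : 2*l + 4*c + 2 ≤ 2*a + m ∧ l + 2*c + 1 ≤ 2*a + b ∧ 2*a + b ≤ l + 2*c + 1) :
    False := by
  have b2 := hb.b2
  have b4 := hb.b4
  have b7 := hb.b7
  obtain ⟨g1, g2, g3⟩ := h
  have k1 : 2*a ≤ l + 2*c := by clear * - b4 b7 g3; omega
  have k2 : a ≤ l + 2*c := by clear * - b2 b4 b7 g3; omega
  clear * - X g1 g2 g3 k1 b7 k2
  exact X.n2.xz (fin X.al.per 0 _ (af' X.S2 X.al.per 0 (i - 2*a + 3*l + 4*c + 3) (af X.s2 X.al.per 0 (i + 2*a - l - 2*c - 1) (rfl : W (i + l + 2*c + 1) = W (i + l + 2*c + 1)) (by omega)) (by omega)) (by omega)).symm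

theorem T0_25 (X : C W N Q i a b l m c d L U V Y) (hb : B N Q i a b l m c d L U V Y)
    (h : 2*a + 2*b ≤ l + c ∧ 1 ≤ 2*a + 2*b + c) :
    False := by
  have b7 := hb.b7
  have b8 := hb.b8
  have b17 := hb.b17
  have b39 := hb.b39
  have b44 := hb.b44
  obtain ⟨g1, g2⟩ := h
  have k1 : c + 1 ≤ 0 := by clear * - b7 b8; omega
  have k2 : 2*a + 2*b + c ≤ m := by clear * - b7 b17 b39 b44 g1; omega
  clear * - X g1 g2 k1 k2
  exact X.al.ninv (i - 2*a - 2*b + l + c + 1) (fin X.al.per 0 _ (ar X.S2 X.al.per 0 (i - 2*a - 2*b + l + c + 1) (pf X.bb X.al.per 0 (i + 2*a + 2*b + l + c + 1) (pf X.bb X.al.per 0 (i + l + c + 1) (rfl : W (i - 2*a - 2*b + l + c + 1) = W (i - 2*a - 2*b + l + c + 1)) (by omega)) (by omega)) (by omega)) (by omega))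

theorem T0_26 (X : C W N Q i a b l m c d L U V Y) (hb : B N Q i a b l m c d L U V Y)
    (h : 2*i + 4*l + 4*m + 4*U + 7 ≤ 4*N + Q + 2*V ∧ 2*N + a + V ≤ 2*l + 2*m + 2*U + 2 ∧ 2*l + 2*m + 2*U + 3 ≤ 2*N + i + 2*a) :
    False := by
  have b1 := hb.b1
  have b17 := hb.b17
  have b39 := hb.b39
  have b40 := hb.b40
  have b42 := hb.b42
  have b43 := hb.b43
  have b44 := hb.b44
  obtain ⟨g1, g2, g3⟩ := h
  have k1 : 2*l + 2*m + 2*U + 4 ≤ 3*N + a + V := by clear * - b17 b39 b40 b42 b43 b44 g1 g3; omega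
  clear * - X g1 g2 g3 b1 k1
  exact X.al.ubP (-4*N - 2*a + 4*l + 4*m + 4*U - 2*V + 6) (by omega) (by omega) fun t h1 h2 => (fin X.al.per 0 _ (ar' X.t1 X.al.per 0 (-4*N - 2*a + 4*l + 4*m + 4*U - 2*V + t + 6) (ar X.s2 X.al.per 0 (2*i + 2*a - t) (rfl : W (t) = W (t)) (by omega)) (by omega)) (by omega))

theorem T0_27 (X : C W N Q i a b l m c d L U V Y) (hb : B N Q i a b l m c d L U V Y)
    (h : N + 2*a + 2*b + d ≤ l + m + c + 1 ∧ i + 2*a + 2*b + l + m + 3 ≤ 3*N + c + d ∧ N + c + d + 1 ≤ 2*a + 2*b ∧ m + 2 ≤ N + 2*a + 2*b + c + d) :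
    False := by
  have b7 := hb.b7
  have b14 := hb.b14
  have b17 := hb.b17
  have b39 := hb.b39
  have b44 := hb.b44
  obtain ⟨g1, g2, g3, g4⟩ := h
  have k1 : m + c + 2 ≤ N + 2*a + 2*b + d := by clear * - b7 b14 g3; omega
  have k2 : N + 2*a + 2*b + c + d ≤ 2*m + 1 := by clear * - b7 b17 b39 b44 g1; omega
  clear * - X g1 g2 g3 g4 k1 k2
  exact X.al.ninv (-N + i - 2*a - 2*b + l + m + c - d + 2) (fin X.al.per 0 _ (ar X.S2 X.al.per 0 (-N + i - 2*a - 2*b + l + m + c - d + 2) (pf X.d2 X.al.per 0 (N + i + 2*a + 2*b + l - m + c + d) (pr X.c2 X.al.per 0 (-N + i + 2*a + 2*b + l + m - c - d + 2) (pf X.bb X.al.per 0 (-N + i + l + m + c - d + 2) (rfl : W (-N + i - 2*a - 2*b + l + m + c - d + 2) = W (-N + i - 2*a - 2*b + l + m + c - d + 2)) (by omega)) (by omega)) (by omega)) (by omega)) (by omega))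

theorem T0_28 (X : C W N Q i a b l m c d L U V Y) (hb : B N Q i a b l m c d L U V Y)
    (h : Q + a ≤ i + l + c + 1 ∧ l + c + 2 ≤ 3*a + 2*b ∧ a + 2*b + c ≤ m ∧ 1 ≤ a + 2*b + c) :
    False := by
  have b2 := hb.b2
  have b3 := hb.b3
  have b7 := hb.b7
  obtain ⟨g1, g2, g3, g4⟩ := h
  have k1 : a ≤ l + c := by clear * - b2 b3 g1; omega
  have k2 : c + 1 ≤ a := by clear * - b2 b7 g1; omega
  clear * - X g1 g2 g3 g4 k1 k2
  exact X.al.ninv (i - a - 2*b + l + c + 1) (fin X.al.per 0 _ (ar X.S2 X.al.per 0 (i - a - 2*b + l + c + 1) (pf X.bb X.al.per 0 (i + a + 2*b + l + c + 1) (pf X.a2 X.al.per 0 (i - a + l + c + 1) (rfl : W (i - a - 2*b + l + c + 1) = W (i - a - 2*b + l + c + 1)) (by omega)) (by omega)) (by omega)) (by omega))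

theorem T0_29 (X : C W N Q i a b l m c d L U V Y) (hb : B N Q i a b l m c d L U V Y)
    (h : m + 2 ≤ 2*a + 2*b ∧ i + l + 3*m + 2*Y + 5 ≤ 2*N + 2*a + 2*b ∧ a + b + 1 ≤ N + c + d + Y ∧ i + 2*a + 2*b + l + L + 2 ≤ 2*N + m + 2*Y ∧ 2*N + 2*c + 2*d + L ≤ 3*m + 2*Y + 1) :
    False := by
  have b39 := hb.b39
  have b42 := hb.b42
  have b43 := hb.b43
  have b45 := hb.b45
  obtain ⟨g1, g2, g3, g4, g5⟩ := h
  have k1 : 2*m + 2 ≤ 2*N + l + 2*c + 2*d := by clear * - b42 g1 g3; omega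
  have k2 : i + 4*m + 2*Y + 5 ≤ 4*N + 2*c + 2*d := by clear * - b42 g2 g3; omega
  have k3 : c + d + Y + 1 ≤ a + b := by clear * - b39 b42 b43 b45 g1 g4 g5; omega
  have k4 : i + 2*a + 2*b + L + 2 ≤ 2*N := by clear * - b42 g4; omega
  have k5 : 2*N + 2*c + 2*d + L ≤ l + 2*m + 1 := by clear * - b42 g5; omega
  clear * - X g1 g2 g3 g4 g5 k1 k2 k3 k4 k5
  exact absurd (X.lam.mx (max (i + 2*a + 2*b + l - m - 2*Y + 1) (i + 2*a + 2*b + 1)) (min (-2*N + i + 2*a + 2*b + l + 2*m - 2*c - 2*d + 3) (2*N)) (2*N - 2*a - 2*b + 2*c + 2*d + 2*Y) (by omega) (by omega) fun t h1 h2 => by (try simp only [max_le_iff, lt_min_iff] at h1 h2); exact (lt_or_ge t (min (2*N + 2*a + 2*b - 2*m - 2*Y - 2) (i + 2*a + 2*b + l + 1))).elim (fun u0 => by (try simp only [lt_min_iff] at u0); exact (fin X.al.per 0 _ (pf X.d2 X.al.per 0 (2*N - 2*a - 2*b + 2*c + 2*d + 2*Y + t) (pf X.g0 X.al.per 0 (-2*a - 2*b +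 2*m + 2*Y + t + 2) (pr X.bb X.al.per 0 (-2*a - 2*b + t) (rfl : W (t) = W (t)) (by omega)) (by omega)) (by omega)) (by omega))) (fun u0 => (fin X.al.per 0 _ (pf X.g0 X.al.per 0 (2*N - 2*a - 2*b + 2*c + 2*d + 2*Y + t) (pr X.bb X.al.per 0 (2*N - 2*a - 2*b - 2*m + 2*c + 2*d + t - 2) (pf X.d2 X.al.per 0 (2*N - 2*m + 2*c + 2*d + t - 2) (rfl : W (t) = W (t)) (by omega)) (by omega)) (by omega)) (by omega)))) (by omega)

theorem T0_30 (X : C W N Q i a b l m c d L U V Y) (hb : B N Q i a b l m c d L U V Y)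
    (h : 4*N + i + 2*l + 6*c + 4*d + 2*U ≤ Q + 2*a + 2*b + 2*m ∧ a + b + 2*m + 3 ≤ 3*N + 3*c + 2*d + V ∧ 2*N + i + l + 4*c + 2*d + 1 ≤ Q + 2*a + 2*b + m ∧ 2*N + Q + 2*c + 2*d + 2*V ≤ 2*m + 2) :
    False := by
  have b7 := hb.b7
  have b17 := hb.b17
  have b18 := hb.b18
  have b39 := hb.b39
  have b40 := hb.b40
  have b42 := hb.b42
  have b43 := hb.b43
  have b45 := hb.b45
  obtain ⟨g1, g2, g3, g4⟩ := h
  have k1 : 4*N + Q + 4*c + 4*d + 2*V ≤ 4*m + 4 := by clear * - b17 b18 g1 g2 g4; omega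
  have k2 : 2*N + 3*c + 2*d + V ≤ a + b + 2*m + 1 := by clear * - b39 b40 b42 b43 b45 g1 g4; omega
  clear * - X g1 g2 g3 g4 b7 k1 k2
  exact X.al.ubQ (6*N - 2*a - 2*b - 4*m + 6*c + 4*d + 2*V - 4) (by omega) (by omega) fun t h1 h2 => (fin X.al.per 0 _ (pf X.c2 X.al.per 0 (6*N - 2*a - 2*b - 4*m + 6*c + 4*d + 2*V + t - 4) (pf X.d2 X.al.per 0 (6*N - 4*m + 4*c + 4*d + 2*V + t - 4) (pf X.f1 X.al.per 0 (4*N - 2*m + 2*c + 2*d + 2*V + t - 2) (rfl : W (t) = W (t)) (by omega)) (by omega)) (by omega)) (by omega))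

theorem T0_31 (X : C W N Q i a b l m c d L U V Y) (hb : B N Q i a b l m c d L U V Y)
    (h : i + 2*b + 2*l + 2*c + 2*d + 2*U + 2 ≤ Q ∧ m + 2 ≤ N + b + c + d + V ∧ 2*N + Q + 2*c + 2*d + 2*V ≤ i + 2*a + 2*m + 2) :
    False := by
  have b39 := hb.b39
  have b40 := hb.b40
  have b43 := hb.b43
  have b49 := hb.b49
  obtain ⟨g1, g2, g3⟩ := h
  have k1 : b + c + d + V ≤ m := by clear * - b39 b40 b43 b49 g1 g2 g3; omega
  clear * - X g1 g2 g3 k1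
  exact X.al.ubQ (2*N + 2*b - 2*m + 2*c + 2*d + 2*V - 2) (by omega) (by omega) fun t h1 h2 => (fin X.al.per 0 _ (pf X.a2 X.al.per 1 (2*N + 2*b - 2*m + 2*c + 2*d + 2*V + t - 2) (pf X.f1 X.al.per 0 (4*N - 2*m + 2*c + 2*d + 2*V + t - 2) (rfl : W (t) = W (t)) (by omega)) (by omega)) (by omega))

theorem T0_32 (X : C W N Q i a b l m c d L U V Y) (hb : B N Q i a b l m c d L U V Y)
    (h : N + a + c + d + V ≤ m ∧ i + a + m + 2 ≤ N + Q + c + d + V ∧ 2*l + m + c + d + 2*U + 3 ≤ N + a + V) :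
    False := by
  obtain ⟨g1, g2, g3⟩ := h
  clear * - X g1 g2 g3
  exact X.al.ninv (-N + i + a + m - c - d - V + 1) (fin X.al.per 0 _ (pr X.f1 X.al.per (-1) (-N + i + a + m - c - d - V + 1) (af X.s2 X.al.per 0 (N + i + a - m + c + d + V - 1) (rfl : W (-N + i + a + m - c - d - V + 1) = W (-N + i + a + m - c - d - V + 1)) (by omega)) (by omega)) (by omega))

theorem T0_33 (X : C W N Q i a b l m c d L U V Y) (hb : B N Q i a b l m c d L U V Y)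
    (h : Q ≤ i + b + l + c + d + 1 ∧ l + c + d + 2 ≤ 2*a + b ∧ b + m + 2 ≤ 2*N + c + d ∧ b + c ≤ m + d ∧ d + 1 ≤ b + c) :
    False := by
  obtain ⟨g1, g2, g3, g4, g5⟩ := h
  clear * - X g1 g2 g3 g4 g5
  exact X.al.ninv (i - b + l + c + d + 1) (fin X.al.per 0 _ (ar X.S2 X.al.per 0 (i - b + l + c + d + 1) (pf X.d1 X.al.per 0 (i + b + l + c - d + 1) (pf X.a2 X.al.per 0 (i + b + l + c + d + 1) (rfl : W (i - b + l + c + d + 1) = W (i - b + l + c + d + 1)) (by omega)) (by omega)) (by omega)) (by omega))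

theorem T0_34 (X : C W N Q i a b l m c d L U V Y) (hb : B N Q i a b l m c d L U V Y)
    (h : m + 2 ≤ 2*a + 2*b ∧ m + 2 ≤ N + a + b + c + d ∧ Q + 2*m + 1 ≤ 2*N + i + l + 2*c + 2*d ∧ Q + 3*m + 2 ≤ 4*N + i + l + 4*c + 4*d ∧ a + b + m + 2 ≤ N + c ∧ 2*N + Q + 2*c + 2*d + L ≤ i + l + 2*m + 2 ∧ Q + L ≤ i + l + m + 1 ∧ 2*N + 2*c + 4*d + L + 1 ≤ m ∧ 2*d + L + 2 ≤ 0) :
    False := by
  have b2 := hb.b2
  have b3 := hb.b3
  have b11 := hb.b11
  have b17 := hb.b17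
  have b18 := hb.b18
  have b36 := hb.b36
  have b45 := hb.b45
  have b46 := hb.b46
  have b47 := hb.b47
  have b49 := hb.b49
  obtain ⟨g1, g2, g3, g4, g5, g6, g7, g8, g9⟩ := h
  have k1 : i + l + m + 3 ≤ 2*N + 2*a + 2*b + 2*d := by clear * - b11 g2; omega
  have k2 : 2*m + 2 ≤ 2*N + l + 2*c + 2*d := by clear * - b2 b3 g3; omega
  have k3 : 3*m + 3 ≤ 4*N + l + 4*c + 4*d := by clear * - b2 b3 g4; omega
  have k4 : i + 2*m + 3 ≤ 4*N + 2*c + 4*d := by clear * - b2 b3 b11 g4; omega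
  have k5 : Q + 2*m + 2 ≤ 4*N + 2*c + 4*d := by clear * - b11 g4; omega
  have k6 : c ≤ a + b + m := by clear * - b11 b36 b45 b47 g2 g5 g7 g8 g9; omega
  have k7 : i + 2*a + 2*b + L + 2 ≤ 2*N := by clear * - b2 b11 b17 b46 b49 g5; omega
  have k8 : 2*N + 2*c + 2*d + L ≤ l + 2*m + 1 := by clear * - b2 b3 g6; omega
  have k9 : L ≤ l + m := by clear * - b2 b17 b18 b46; omega
  have k10 : Q + 2*a + 2*b + L + 1 ≤ 2*N := by clear * - b11 g5 g7; omega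
  have k11 : i + 2*a + 2*b + l + m + 2*d + L + 4 ≤ 2*N := by clear * - b11 g5 g9; omega
  clear * - X g1 g2 g3 g4 g5 g6 g7 g8 g9 k1 k2 k3 k4 k5 k6 k7 k8 k9 k10 k11
  exact absurd (X.lam.mx (max (i + 2*a + 2*b + l + m + 2*d + 3) (max (Q + 2*a + 2*b) (i + 2*a + 2*b + 1))) (min (i + 2*a + 2*b + l + m + 2) (min (-2*N + i + 2*a + 2*b + l + 2*m - 2*c - 2*d + 3) (2*N))) (2*N - 2*a - 2*b - 2*m + 2*c - 2) (by omega) (by omega) fun t h1 h2 => by (try simp only [max_le_iff, lt_min_iff] at h1 h2); exact (lt_or_ge t (min (2*N + 2*a + 2*b + 2*d) (min (2*N + i + 2*a + 2*b + l - m + 2*c + 2*d) (i + 2*a + 2*b + l + 1)))).elim (fun u0 => by (try simp only [lt_min_iff] at u0); exact (fin X.al.per 0 _ (pf X.d2 X.al.per 0 (2*N - 2*a - 2*b - 2*m + 2*c + t - 2) (pf X.d1 X.al.per 0 (-2*a - 2*b - 2*d + t) (pr X.bb X.al.per 0 (-2*a - 2*b + t) (rfl : W (t) = W (t)) (by omega)) (by omega)) (by omega))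 (by omega))) (fun u0 => (fin X.al.per 0 _ (pf X.d1 X.al.per 0 (2*N - 2*a - 2*b - 2*m + 2*c + t - 2) (pr X.bb X.al.per 0 (2*N - 2*a - 2*b - 2*m + 2*c + 2*d + t - 2) (pf X.d2 X.al.per 0 (2*N - 2*m + 2*c + 2*d + t - 2) (rfl : W (t) = W (t)) (by omega)) (by omega)) (by omega)) (by omega)))) (by omega)

theorem T0_35 (X : C W N Q i a b l m c d L U V Y) (hb : B N Q i a b l m c d L U V Y)
    (h : 2*l + 3*m + 2*U + 5 ≤ 3*N + 2*a + b + c + d + 2*V ∧ i + b + 2*l + m + c + d + 2*U + 3 ≤ N) :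
    False := by
  have b3 := hb.b3
  have b17 := hb.b17
  have b18 := hb.b18
  have b35 := hb.b35
  have b44 := hb.b44
  obtain ⟨g1, g2⟩ := h
  have k1 : 3*N + b + c + d + 2*V ≤ i + 2*l + 3*m + 2*U + 4 := by clear * - b17 b18 g2; omega
  have k2 : N + c + d ≤ b + m := by clear * - b3 b17 b35 b44 g2; omega
  have k3 : N + b + c + d + 2*V ≤ m := by clear * - b18 g2; omega
  have k4 : i + 2*l + 3*m + 2*U + 5 ≤ 3*N + Q + b + c + d + 2*V := by clear * - b3 g1; omega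
  clear * - X g1 g2 k1 k2 k3 k4
  exact X.al.ninv (-3*N + i - b + 2*l + 3*m - c - d + 2*U - 2*V + 4) (fin X.al.per 0 _ (ar X.t2 X.al.per 1 (-3*N + i - b + 2*l + 3*m - c - d + 2*U - 2*V + 4) (pr X.f2 X.al.per 0 (N + i + b + 2*l + m + c + d + 2*U + 2) (pf X.a1 X.al.per 0 (-3*N + i + b + 2*l + 3*m - c - d + 2*U - 2*V + 4) (rfl : W (-3*N + i - b + 2*l + 3*m - c - d + 2*U - 2*V + 4) = W (-3*N + i - b + 2*l + 3*m - c - d + 2*U - 2*V + 4)) (by omega)) (by omega)) (by omega)) (by omega))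

theorem T0_36 (X : C W N Q i a b l m c d L U V Y) (hb : B N Q i a b l m c d L U V Y)
    (h : b ≤ i) :
    False := by
  have b2 := hb.b2
  have b3 := hb.b3
  have b4 := hb.b4
  have b35 := hb.b35
  have b41 := hb.b41
  have b43 := hb.b43
  have g1 := h
  have k1 : 1 ≤ b := by clear * - b3 b4; omega
  have k2 : 1 ≤ 2*a + 3*b := by clear * - b2 b3 b4; omega
  have k3 : 1 ≤ i + 2*a := by clear * - b2 b35 b41 b43 g1; omega
  clear * - X g1 k1 k2 k3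
  obtain ⟨K0, hL⟩ : ∃ K0 : ℤ, -2*i - 2*a ≤ 2*K0 ∧ -2*a - 4*b + 2 ≤ 2*K0 ∧ 2*K0 + 2*(b) - 2 ≤ -2*a - 2 ∧ 2*K0 + 2*(b) - 2 ≤ 2*i + 2*a ∧ 2*K0 + 2*(b) - 2 ≤ 2*a + 4*b - 2 := ⟨((max (-2*a - 4*b + 2) (-2*i - 2*a)) + 1) / 2, by omega⟩
  obtain ⟨R, hR1, hR2, hR⟩ := pw (A := 0) (B := i + 2*a + 2*b) (γ := b) (by omega) (fun t h1 h2 => (fin X.al.per 0 _ (pf X.a1 X.al.per 0 (2*b + t) (rfl : W (t) = W (t)) (by omega)) (by omega))) K0
  exact X.al.ninv (i + a + R) (fin X.al.per 0 _ (pp hR X.al.per 0 (i + a + R) (af X.s1 X.al.per 0 (i + a - R) (rfl : W (i + a + R) = W (i + a + R)) (by omega)) (by omega)) (by omega))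

theorem T0_37 (X : C W N Q i a b l m c d L U V Y) (hb : B N Q i a b l m c d L U V Y)
    (h : 2*N + 2*c + 2*d ≤ m ∧ 2*V + 1 ≤ 2*N + l + 2*c + 2*d + 2*U ∧ l + m + d + 2*U + 1 ≤ V ∧ V ≤ l + m + d + 2*U + 1) :
    False := by
  have b7 := hb.b7
  have b17 := hb.b17
  obtain ⟨g1, g2, g3, g4⟩ := h
  have k1 : 1 ≤ 2*N + l + 2*c + 2*d + 2*U := by clear * - b17 g2; omega
  have k2 : i + 3*l + 2*m + 2*c + 2*d + 4*U + 4 ≤ Q + 2*V := by clear * - b7 g3; omega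
  clear * - X g1 g2 g3 g4 k1 k2
  exact X.n2.yx (sw (fin X.al.per 0 _ (ar X.t2 X.al.per 1 (i + 3*l + 2*m + 2*c + 2*d + 4*U - 2*V + 3) (pr X.f3 X.al.per 0 (-2*N + i + l + 2*m - 2*c - 2*d + 3) (rfl : W (i + l + 1) = W (i + l + 1)) (by omega)) (by omega)) (by omega)))

theorem T0_38 (X : C W N Q i a b l m c d L U V Y) (hb : B N Q i a b l m c d L U V Y)
    (h : l + m + d + 2*U + 2 ≤ V) :
    False := by
  have b2 := hb.b2
  have b7 := hb.b7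
  have b11 := hb.b11
  have b18 := hb.b18
  have b33 := hb.b33
  have b48 := hb.b48
  have g1 := h
  have k1 : 2*N + 2*c + d + V ≤ 2*m + 1 := by clear * - b11 b18 g1; omega
  have k2 : m + 2 ≤ 2*N + 2*c + d + V := by clear * - b2 b33 b48 g1; omega
  have k3 : i + l + m + 3 ≤ 2*N + Q + d + V := by clear * - b2 b7 b33 b48 g1; omega
  clear * - X g1 k1 k2 k3
  exact X.al.ninv (-2*N + i + l + m - d - V + 2) (fin X.al.per 0 _ (pr X.f1 X.al.per 0 (-2*N + i + l + m - d - V + 2) (af X.S2 X.al.per 0 (2*N + i + l - m + 2*c + d + V) (rfl : W (-2*N + i + l + m - d - V + 2) = W (-2*N + i + l + m - d - V + 2)) (by omega)) (by omega)) (by omega))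

theorem M0 (X : C W N Q i a b l m c d L U V Y) (hb : B N Q i a b l m c d L U V Y)
    (h1 : (-N + m - c) < 0)
    (h2 : (3*N + Q - i - 2*l - 3*m + c + d - 2*U + 2*V - 5) < 0)
    (h3 : (-2*N + 2*m - 2*c - d + 1) < 0)
    (h4 : (-2*N + i - b + 2*l + 2*m + 2*U - V + 3) < 0)
    (h5 : (-N + l + 2*m - c + d + 2*U + 1) < 0)
    (h6 : (i + a - b) < 0)
    (h7 : (N + a + b - m + c + d - 1) < 0) : False := by
  have b2 := hb.b2
  have b4 := hb.b4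
  have b6 := hb.b6
  have b7 := hb.b7
  have b11 := hb.b11
  have b14 := hb.b14
  have b17 := hb.b17
  have b18 := hb.b18
  have b19 := hb.b19
  have b33 := hb.b33
  have b34 := hb.b34
  have b35 := hb.b35
  have b36 := hb.b36
  have b38 := hb.b38
  have b39 := hb.b39
  have b40 := hb.b40
  have b41 := hb.b41
  have b42 := hb.b42
  have b43 := hb.b43
  have b45 := hb.b45
  have b47 := hb.b47
  have b48 := hb.b48
  have b49 := hb.b49
  rcases lt_or_ge (2*N + i + 2*a + 2*b - 2*m + 2*c + 2*d + 2*V - 2) 0 with h8 | h8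
  · rcases lt_or_ge (-a - b + l + 2*c) 0 with h9 | h9
    · rcases lt_or_ge (-4*N + i - 2*a + 4*l + 4*m + 4*U - 2*V + 6) 0 with h10 | h10
      · rcases lt_or_ge (-N - l - c - 2*d - 2*U + V - 1) 0 with h11 | h11
        · rcases lt_or_ge (-N - l - c - 2*d - 2*U) 0 with h12 | h12
          · rcases lt_or_ge (-3*N + 3*m - 3*c - 2*d + 2) 0 with h13 | h13
            · rcases lt_or_ge (2*N - a - b - m + 3*c + d + V - 2) 0 with h14 | h14
              · rcases lt_or_ge (-a) 0 with h15 | h15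
                · rcases lt_or_ge (-3*N + 3*m - 3*c - 2*d + 3) 0 with h16 | h16
                  · rcases lt_or_ge (-2*N + a + b + l + 2*m - 2*c + 2*U - V + 2) 0 with h17 | h17
                    · rcases lt_or_ge (4*a + 4*b - m - 2*c - L - 3) 0 with h18 | h18
                      · rcases lt_or_ge (N - a - b + c + d + V - 1) 0 with h19 | h19
                        · rcases lt_or_ge (-Q + i + a + b) 0 with h20 | h20
                          · rcases lt_or_ge (2*N - a - b - m + 3*c + d + V - 1) 0 with h21 | h21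
                            · rcases lt_or_ge (N - i - a - b - 2*l - m - c - d - 2*U - 3) 0 with h22 | h22
                              · exact T0_22 X hb ⟨by have := kA 3 h22 (kA 2 h21 (kA 1 h18 (kA 1 h17 (kA 1 h10 (kA 1 h2 (kC 1 b47 (kC 1 b17 k0))))))); clear * - this; omega, by have := kA 1 h22 (kA 1 h21 (kA 2 h19 (kA 1 h18 (kA 1 h15 (kA 1 h10 (kA 1 h6 (kC 1 b45 (kC 1 b17 k0)))))))); clear * - this; omega, by have := kA 5 h22 (kA 6 h21 (kA 1 h20 (kA 2 h18 (kA 4 h17 (kA 3 h10 (kA 4 h6 (kA 3 h2 (kC 2 b45 (kC 2 b17 k0))))))))); clear * - this; omega, by have := kA 3 h22 (kA 1 h21 (kA 5 h17 (kA 3 h15 (kA 2 h12 (kA 3 h9 (kA 2 h8 (kA 1 h6 k0))))))); clear * - this; omega, by have := kA 4 h22 (kA 5 h19 (kA 1 h18 (kA 1 h17 (kA 2 h10 (kA 5 h7 (kA 3 h6 (kC 1 b45 k0))))))); clear * - this; omega, by have := kA 2 h22 (kA 1 h21 (kA 2 h19 (kA 1 h18 (kA 1 h17 (kA 1 h15 (kA 1 h10 (kA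 1 h7 (kA 2 h6 (kC 1 b45 k0))))))))); clear * - this; omega⟩
                              exact T0_21 X hb ⟨by clear * - h2 h20; omega, by clear * - h22; omega, by have := kA 1 h20 (kA 1 h10 (kA 1 h7 (kA 1 h6 (kC 1 b45 (kC 1 b35 k0))))); clear * - this; omega⟩
                            exact T0_20 X hb ⟨by clear * - h21; omega, by clear * - h14; omega, by have := kA 2 h20 (kA 2 h17 (kA 2 h15 (kA 3 h9 (kA 1 h6 (kA 2 h2 k0))))); clear * - this; omega, by have := kA 1 h20 (kA 1 h19 (kA 1 h17 (kA 2 h15 (kA 2 h9 (kA 1 h6 (kA 1 h2 k0)))))); clear * - this; omega, by have := kA 1 h18 (kA 4 h17 (kA 6 h15 (kA 6 h14 (kA 1 h12 (kA 2 h11 (kA 1 h9 (kA 3 h6 (kA 1 h1 (kC 1 b49 k0))))))))); clear * - this; omega, by have := kA 1 h20 (kA 2 h17 (kA 4 h15 (kA 5 h7 (kA 2 h6 (kA 1 h2 (kC 1 b45 (kC 1 b35 k0))))))); clear * - this; omega, by clear * - h7; omega, by clear * - b17 h7 h19; omega,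 by clear * - h12 h17; omega, by have := kA 2 h19 (kA 1 h18 (kA 3 h17 (kA 6 h15 (kA 4 h14 (kA 3 h6 (kC 3 b45 (kC 1 b39 (kC 5 b17 k0)))))))); clear * - this; omega, by have := kA 3 h17 (kA 2 h15 (kA 2 h14 (kA 2 h12 (kA 1 h6 (kC 1 b45 (kC 1 b17 k0)))))); clear * - this; omega⟩
                          exact T0_19 X hb ⟨by clear * - h20; omega, by have := kA 1 h18 (kA 1 h17 (kA 4 h15 (kA 2 h14 (kA 1 h9 (kA 1 h6 (kC 1 b45 (kC 1 b17 k0))))))); clear * - this; omega, by have := kB 1 h20 (kA 2 h17 (kA 1 h7 (kA 2 h6 (kA 1 h2 (kC 1 b45 (kC 1 b35 k0)))))); clear * - this; omega, by have := kA 2 h15 (kA 2 h7 (kA 1 h6 (kC 1 b45 (kC 1 b39 k0)))); clear * - this; omega⟩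
                        exact T0_18 X hb ⟨by have := kA 1 h18 (kA 2 h15 (kA 2 h14 (kA 1 h7 (kA 1 h6 (kA 1 h5 (kC 1 b45 k0)))))); clear * - this; omega, by have := kB 1 h19 (kA 4 h15 (kA 1 h10 (kA 5 h7 (kA 3 h6 (kA 3 h5 (kC 2 b45 (kC 2 b36 k0))))))); clear * - this; omega, by have := kA 1 h18 (kA 6 h15 (kA 2 h14 (kA 2 h9 (kA 1 h7 (kA 3 h6 (kA 1 h5 (kC 1 b45 k0))))))); clear * - this; omega, by clear * - h19; omega⟩
                      exact T0_17 X hb ⟨by have := kA 1 h16 (kA 6 h15 (kA 1 h12 (kA 7 h7 (kA 3 h6 (kA 1 h5 (kC 2 b45 (kC 2 b39 k0))))))); clear * - this; omega, by have := kA 6 h15 (kA 1 h9 (kA 5 h8 (kA 3 h6 (kA 4 h5 (kC 4 b45 (kC 4 b36 (kC 10 b17 k0))))))); clear * - this; omega, by have := kA 2 h17 (kA 2 h15 (kA 2 h11 (kA 1 h9 (kA 4 h7 (kA 1 h6 k0))))); clear * - this; omega, by clear * - h7; omega, by have := kA 1 h17 (kA 2 h15 (kA 1 h12 (kA 1 h11 (kA 1 h9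 (kA 3 h7 (kA 1 h6 (kA 1 h5 k0))))))); clear * - this; omega, by have := kA 1 h5 (kA 1 h2 (kC 2 b17 (kC 1 b7 k0))); clear * - this; omega, by clear * - h12 h14 h17; omega, by have := kA 1 h17 (kA 2 h15 (kA 2 h14 (kA 1 h6 (kC 1 b45 (kC 1 b17 k0))))); clear * - this; omega, by have := kA 6 h15 (kA 1 h10 (kA 1 h8 (kA 2 h7 (kA 4 h6 (kC 2 b45 (kC 2 b43 (kC 2 b41 k0))))))); clear * - this; omega, by clear * - h18; omega, by have := kA 4 h15 (kA 1 h9 (kA 1 h7 (kA 2 h6 (kA 1 h5 (kC 1 b45 k0))))); clear * - this; omega, by have := kB 2 h18 (kA 4 h17 (kA 2 h15 (kA 2 h14 (kA 4 h12 (kA 1 h7 (kA 1 h6 (kA 1 h2 (kC 1 b47 (kC 1 b36 k0))))))))); clear * - this; omega, by have := kB 2 h18 (kA 15 h17 (kA 30 h15 (kA 3 h12 (kA 5 h11 (kA 9 h9 (kA 3 h8 (kA 8 h6 (kA 2 h2 (kC 7 b48 (kC 2 b47 k0)))))))))); clear * - this; omega⟩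
                    rcases lt_or_ge (2*N - a - b - l - 2*m + 2*c - 2*U + V - 2) 0 with h23 | h23
                    · rcases lt_or_ge (-N + i - b + l + m + 2) 0 with h24 | h24
                      · exact T0_23 X hb ⟨by have := kA 1 h24 (kA 1 h15 (kA 1 h8 (kC 1 b45 (kC 1 b39 (kC 2 b17 k0))))); clear * - this; omega, by have := kA 2 h15 (kA 1 h14 (kA 1 h7 (kA 1 h6 (kC 1 b45 (kC 1 b39 (kC 1 b17 k0)))))); clear * - this; omega⟩
                      rcases lt_or_ge (N + 2*a + b - l - m - 3) 0 with h25 | h25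
                      · exact T0_17 X hb ⟨by have := kA 1 h16 (kA 6 h15 (kA 1 h12 (kA 7 h7 (kA 3 h6 (kA 1 h5 (kC 2 b45 (kC 2 b39 k0))))))); clear * - this; omega, by have := kA 2 h23 (kA 6 h15 (kA 1 h10 (kA 7 h8 (kA 4 h6 (kA 6 h5 (kC 6 b45 (kC 6 b36 (kC 14 b17 k0)))))))); clear * - this; omega, by have := kA 2 h16 (kA 6 h15 (kA 1 h9 (kA 8 h7 (kA 3 h6 (kC 2 b45 (kC 2 b39 k0)))))); clear * - this; omega, by clear * - h7; omega, by have := kA 1 h15 (kA 1 h12 (kA 1 h11 (kA 3 h7 (kA 1 h5 (kA 1 h4 k0))))); clear * - this; omega, by have := kA 1 h23 (kA 1 h7 (kA 1 h5 (kC 1 b17 k0))); clear * - this; omega, by have := kB 1 h24 (kA 1 h16 (kA 1 h15 (kA 1 h9 (kA 1 h7 (kA 1 h6 k0))))); clear * - this; omega, by have := kA 1 h25 (kB 1 h24 (kA 3 h23 (kA 1 h10 (kA 1 h6 (kA 2 h5 (kC 1 b45 (kC 1 b17 k0))))))); clear * - this; omega, by have := kA 6 h15 (kA 1 h10 (kA 1 h8 (kA 2 h7 (kA 4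 h6 (kC 2 b45 (kC 2 b43 (kC 2 b41 k0))))))); clear * - this; omega, by have := kA 2 h25 (kA 5 h23 (kA 2 h15 (kA 1 h10 (kA 1 h6 (kA 4 h5 (kC 2 b45 (kC 1 b39 (kC 3 b17 k0)))))))); clear * - this; omega, by have := kA 4 h15 (kA 1 h9 (kA 1 h7 (kA 2 h6 (kA 1 h5 (kC 1 b45 k0))))); clear * - this; omega, by have := kB 2 h24 (kA 2 h16 (kA 4 h15 (kA 2 h14 (kA 1 h10 (kA 4 h7 (kA 4 h6 (kC 2 b45 (kC 1 b35 k0)))))))); clear * - this; omega, by have := kA 6 h15 (kA 2 h11 (kA 2 h10 (kA 2 h6 (kA 1 h5 (kA 1 h2 (kC 3 b48 (kC 1 b47 k0))))))); clear * - this; omega⟩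
                      rcases lt_or_ge (-N - Q + i + b + l + m + 2) 0 with h26 | h26
                      · exact T0_23 X hb ⟨by have := kA 2 h26 (kA 1 h10 (kA 1 h8 (kA 2 h6 (kA 2 h2 (kC 2 b45 (kC 2 b39 (kC 4 b17 k0))))))); clear * - this; omega, by have := kB 1 h24 (kA 1 h15 (kA 1 h9 (kA 1 h6 k0))); clear * - this; omega⟩
                      exact T0_22 X hb ⟨by clear * - h24; omega, by clear * - h25; omega, by clear * - h26; omega, by have := kB 3 h25 (kB 5 h24 (kA 2 h16 (kA 2 h11 (kA 1 h10 (kA 4 h7 (kA 4 h6 k0)))))); clear * - this; omega, by have := kB 1 h25 (kA 1 h23 (kA 1 h8 (kA 1 h6 (kA 2 h5 (kC 1 b45 (kC 1 b36 (kC 3 b17 k0))))))); clear * - this; omega, by have := kA 2 h15 (kA 1 h8 (kA 2 h6 (kA 2 h5 (kC 2 b45 (kC 1 b35 (kC 1 b33 (kC 2 b17 k0))))))); clear * - this; omega⟩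
                    exact T0_16 X hb ⟨by have := kA 2 h15 (kA 1 h7 (kA 1 h6 (kA 1 h5 (kC 1 b45 (kC 1 b39 k0))))); clear * - this; omega, by have := kB 2 h17 (kA 1 h8 (kC 1 b45 (kC 1 b39 (kC 2 b17 k0)))); clear * - this; omega, by clear * - h17; omega, by clear * - h23; omega⟩
                  rcases lt_or_ge (6*N + 2*a + 2*b - 6*m + 4*c + 4*d - L - 8) 0 with h27 | h27
                  · exact T0_23 X hb ⟨by have := kA 2 h27 (kA 2 h15 (kA 2 h14 (kA 4 h13 (kA 1 h10 (kA 1 h8 (kA 2 h6 (kC 2 b45 (kC 2 b17 k0)))))))); clear * - this; omega, by have := kA 2 h15 (kA 1 h14 (kA 1 h7 (kA 1 h6 (kC 1 b45 (kC 1 b39 (kC 1 b17 k0)))))); clear * - this; omega⟩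
                  exact T0_15 X hb ⟨by clear * - h13; omega, by clear * - h16; omega, by have := kB 1 h16 (kA 4 h15 (kA 1 h12 (kA 4 h8 (kA 2 h6 (kA 4 h5 (kC 3 b45 (kC 3 b33 (kC 8 b17 k0)))))))); clear * - this; omega, by have := kA 2 h15 (kA 1 h10 (kA 3 h8 (kA 2 h6 (kA 2 h2 (kC 4 b45 (kC 4 b39 (kC 8 b17 k0))))))); clear * - this; omega, by clear * - h27; omega⟩
                rcases lt_or_ge (3*N + 2*a + b - 2*l - 3*m + c + d - 2*U + 2*V - 4) 0 with h28 | h28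
                · exact T0_21 X hb ⟨by clear * - b2 h28; omega, by clear * - h10 h15 h28; omega, by have := kA 1 h6 (kA 1 h5 (kC 1 b45 (kC 1 b39 (kC 2 b17 (kC 1 b7 (kC 2 b2 k0)))))); clear * - this; omega⟩
                rcases lt_or_ge (-3*N - 2*a - b + 2*l + 3*m - c - d + 2*U - 2*V + 4) 0 with h29 | h29
                · exact T0_19 X hb ⟨by clear * - h2 h15 h29; omega, by have := kA 1 h9 (kA 1 h8 (kC 1 b45 (kC 1 b39 (kC 2 b17 (kC 2 b2 k0))))); clear * - this; omega, by have := kA 1 h6 (kA 1 h5 (kA 1 h2 (kC 1 b45 (kC 1 b39 (kC 2 b17 k0))))); clear * - this; omega, by have := kA 2 h29 (kA 4 h8 (kA 1 h6 (kC 3 b45 (kC 1 b39 (kC 2 b35 (kC 4 b17 k0)))))); clear * - this; omega⟩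
                exact T0_14 X hb ⟨by clear * - h15; omega, by clear * - h10; omega, by clear * - h28; omega, by clear * - h29; omega⟩
              exact T0_13 X hb ⟨by clear * - h14; omega, by have := kB 1 h14 (kA 1 h10 (kA 1 h9 (kA 3 h8 (kA 1 h6 (kC 2 b45 (kC 2 b35 (kC 2 b17 k0))))))); clear * - this; omega, by have := kA 1 h10 (kA 1 h9 (kA 1 h8 (kA 1 h6 (kA 1 h5 (kA 1 h2 (kC 1 b47 (kC 1 b45 (kC 2 b35 (kC 4 b17 k0))))))))); clear * - this; omega⟩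
            exact T0_12 X hb ⟨by clear * - h13; omega, by have := kA 1 h12 (kA 1 h7 (kA 1 h6 (kA 1 h5 (kC 1 b45 (kC 1 b39 (kC 2 b2 k0)))))); clear * - this; omega, by clear * - h5 h12 h13; omega, by clear * - h12; omega⟩
          exact T0_11 X hb ⟨by clear * - h11 h12; omega, by have := kA 1 h7 (kA 1 h6 (kA 1 h5 (kC 1 b45 (kC 1 b39 (kC 2 b2 k0))))); clear * - this; omega, by have := kB 2 h12 (kA 2 h5 (kC 1 b43 (kC 1 b40 k0))); clear * - this; omega, by clear * - b17 h11; omega, by clear * - h12; omega⟩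
        exact T0_10 X hb ⟨by have := kA 1 h7 (kA 1 h6 (kA 1 h3 (kC 1 b45 (kC 1 b39 (kC 1 b17 (kC 2 b2 k0)))))); clear * - this; omega, by have := kB 1 h11 (kA 2 h3 (kC 1 b43 (kC 1 b40 (kC 2 b17 k0)))); clear * - this; omega, by have := kA 3 h10 (kA 1 h9 (kA 6 h8 (kA 3 h6 (kC 5 b45 (kC 1 b38 (kC 4 b35 (kC 4 b17 k0))))))); clear * - this; omega, by clear * - h11; omega⟩
      rcases lt_or_ge (Q - 2*i - 2*a - 1) 0 with h30 | h30
      · exact T0_19 X hb ⟨by clear * - h6 h30; omega, by have := kA 1 h9 (kA 1 h8 (kC 1 b45 (kC 1 b39 (kC 2 b17 (kC 2 b2 k0))))); clear * - this; omega, by have := kA 1 h6 (kA 1 h5 (kA 1 h2 (kC 1 b45 (kC 1 b39 (kC 2 b17 k0))))); clear * - this; omega, by have := kA 1 h8 (kC 1 b45 (kC 1 b39 (kC 2 b17 (kC 1 b11 (kC 1 b6 k0))))); clear * - this; omega⟩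
      rcases lt_or_ge (4*N + Q - 2*i - 4*l - 4*m - 4*U + 2*V - 8) 0 with h31 | h31
      · rcases lt_or_ge (-2*a - b + l + 2*c + 1) 0 with h32 | h32
        · rcases lt_or_ge (2*a + 2*b + c - 1) 0 with h33 | h33
          · rcases lt_or_ge (2*a + 2*b - 2*c - L - 2) 0 with h34 | h34
            · rcases lt_or_ge (-3*N + 3*m - 3*c - 2*d + 2) 0 with h35 | h35
              · exact T0_22 X hb ⟨by have := kA 2 h32 (kA 2 h31 (kB 1 h30 (kA 1 h8 (kA 2 h5 (kC 1 b47 (kC 2 b45 (kC 3 b39 (kC 6 b17 (kC 2 b2 k0))))))))); clear * - this; omega, by have := kA 2 h34 (kA 6 h32 (kA 1 h31 (kB 1 h30 (kA 2 h6 (kA 4 h5 (kC 2 b45 (kC 2 b17 (kC 4 b2 k0)))))))); clear * - this; omega, by have := kA 2 h31 (kA 2 h4 (kC 1 b42 (kC 1 b41 (kC 1 b39 (kC 2 b17 k0))))); clear * - this; omega, by have := kA 4 h35 (kA 2 h34 (kA 6 h32 (kA 2 h31 (kB 2 h30 (kA 2 h8 (kC 3 b42 (kC 3 b41 (kC 1 b39 (kC 8 b17 (kC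 2 b6 k0)))))))))); clear * - this; omega, by have := kA 6 h34 (kA 14 h32 (kA 7 h31 (kB 7 h30 (kA 2 h6 (kA 12 h5 (kC 2 b45 (kC 4 b42 (kC 4 b41 (kC 14 b17 k0))))))))); clear * - this; omega, by have := kA 1 h34 (kA 1 h32 (kA 2 h7 (kA 3 h6 (kA 2 h5 (kC 2 b45 (kC 1 b35 (kC 3 b2 k0))))))); clear * - this; omega⟩
              exact T0_12 X hb ⟨by clear * - h35; omega, by have := kA 1 h7 (kA 1 h6 (kA 1 h3 (kC 1 b45 (kC 1 b39 (kC 2 b2 k0))))); clear * - this; omega, by clear * - h3 h35; omega, by have := kA 1 h34 (kA 2 h33 (kA 1 h32 (kA 3 h6 (kC 2 b45 (kC 1 b35 (kC 5 b2 k0)))))); clear * - this; omega⟩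
            rcases lt_or_ge (4*a + 4*b - m - 2*c - L - 3) 0 with h36 | h36
            · rcases lt_or_ge (-3*N + 3*m - 3*c - 2*d + 2) 0 with h37 | h37
              · rcases lt_or_ge (-Q + i + a + b) 0 with h38 | h38
                · rcases lt_or_ge (N + 2*a + b - l - m - 3) 0 with h39 | h39
                  · rcases lt_or_ge (4*N + Q - 2*i - 4*l - 4*m - 4*U + 2*V - 7) 0 with h40 | h40
                    · exact T0_27 X hb ⟨by have := kA 1 h40 (kA 2 h36 (kB 2 h34 (kB 1 h30 (kA 2 h5 (kC 2 b17 (kC 2 b2 k0)))))); clear * - this; omega, by have := kA 1 h36 (kA 2 h32 (kB 1 h30 (kA 2 h3 (kA 1 h2 (kC 1 b42 (kC 1 b41 (kC 2 b17 k0))))))); clear * - this; omega, by have := kA 1 h40 (kA 2 h38 (kA 2 h32 (kB 1 h30 (kA 2 h5 (kC 2 b17 (kC 2 b4 k0)))))); clear * - this; omega, by have := kA 1 h32 (kA 3 h6 (kA 1 h5 (kC 2 b45 (kC 1 b39 (kC 1 b35 (kC 5 b2 k0)))))); clear * - this; omega⟩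
                    exact T0_26 X hb ⟨by clear * - h40; omega, by clear * - h6 h31 h38; omega, by have := kA 1 h32 (kA 1 h7 (kA 1 h5 (kC 1 b45 (kC 1 b39 (kC 1 b2 k0))))); clear * - this; omega⟩
                  exact T0_22 X hb ⟨by have := kB 1 h39 (kA 1 h31 (kC 1 b47 (kC 1 b39 (kC 2 b17 k0)))); clear * - this; omega, by clear * - h39; omega, by have := kB 1 h39 (kA 2 h31 (kA 2 h4 (kC 1 b47 (kC 1 b39 (kC 2 b17 k0))))); clear * - this; omega, by have := kB 26 h39 (kA 1 h38 (kA 6 h37 (kA 6 h36 (kB 8 h34 (kA 2 h33 (kA 13 h31 (kA 2 h8 (kA 11 h6 (kC 12 b47 (kC 14 b39 (kC 30 b17 k0))))))))))); clear * - this; omega, by have := kB 4 h39 (kA 3 h38 (kA 2 h36 (kA 6 h32 (kA 3 h31 (kB 2 h10 (kA 5 h6 (kA 8 h5 (kC 2 b42 (kC 2 b41 (kC 10 b17 k0)))))))))); clear * - this; omega, by have := kB 1 h39 (kB 1 h30 (kA 1 h5 (kA 1 h2 (kC 1 b45 (kC 1 b39 (kC 2 b17 k0)))))); clear * - this; omega⟩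
                exact T0_19 X hb ⟨by clear * - h38; omega, by have := kA 1 h36 (kB 1 h34 (kA 1 h32 (kC 1 b2 k0))); clear * - this; omega, by have := kB 1 h38 (kB 1 h30 (kA 1 h5 (kA 1 h2 (kC 1 b45 (kC 1 b39 (kC 2 b17 k0)))))); clear * - this; omega, by have := kA 1 h36 (kB 1 h34 (kC 1 b11 (kC 1 b6 k0))); clear * - this; omega⟩
              rcases lt_or_ge (N + l + c + 2*d + 2*U - 1) 0 with h41 | h41
              · rcases lt_or_ge (-N - l - c - 2*d - 2*U + V - 1) 0 with h42 | h42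
                · exact T0_11 X hb ⟨by clear * - h41 h42; omega, by have := kA 1 h7 (kA 1 h6 (kA 1 h5 (kC 1 b45 (kC 1 b39 (kC 2 b2 k0))))); clear * - this; omega, by clear * - h3 h37 h41; omega, by clear * - b17 h42; omega, by clear * - h41; omega⟩
                exact T0_10 X hb ⟨by have := kB 5 h42 (kA 1 h36 (kA 2 h33 (kA 4 h32 (kA 2 h31 (kB 2 h30 (kA 4 h6 (kA 4 h3 (kC 4 b45 (kC 3 b39 (kC 8 b2 k0)))))))))); clear * - this; omega, by clear * - b17 h3 h37; omega, by have := kB 1 h42 (kA 1 h8 (kA 2 h3 (kC 1 b45 (kC 1 b35 (kC 2 b11 k0))))); clear * - this; omega, by clear * - h42; omega⟩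
              exact T0_12 X hb ⟨by clear * - h37; omega, by have := kB 4 h41 (kB 1 h37 (kA 1 h36 (kB 1 h34 (kA 2 h6 (kA 4 h5 (kC 2 b45 (kC 2 b39 (kC 4 b2 k0)))))))); clear * - this; omega, by clear * - h5 h37 h41; omega, by clear * - h41; omega⟩
            exact T0_17 X hb ⟨by have := kA 2 h8 (kA 2 h3 (kC 1 b45 (kC 1 b39 (kC 4 b17 (kC 1 b11 (kC 1 b6 k0)))))); clear * - this; omega, by clear * - b6 b17 h8; omega, by have := kA 2 h32 (kB 1 h30 (kA 3 h8 (kA 1 h5 (kA 2 h3 (kA 1 h2 (kC 3 b45 (kC 3 b39 (kC 8 b17 k0)))))))); clear * - this; omega, by clear * - h7; omega, by have := kA 2 h32 (kB 1 h30 (kA 2 h8 (kA 1 h5 (kA 2 h3 (kA 1 h2 (kC 2 b45 (kC 2 b39 (kC 6 b17 k0)))))))); clear * - this; omega, by have := kA 2 h32 (kB 1 h10 (kA 1 h8 (kA 2 h5 (kC 4 b17 k0)))); clear * - this; omega, by have := kB 1 h36 (kA 4 h33 (kA 1 h32 (kA 3 h6 (kA 2 h3 (kC 2 b45 (kC 2 b39 (kC 1 b36 (kC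 5 b2 k0)))))))); clear * - this; omega, by clear * - h34; omega, by have := kB 1 h10 (kA 1 h8 (kA 2 h7 (kA 4 h4 (kC 2 b45 (kC 6 b2 k0))))); clear * - this; omega, by clear * - h36; omega, by have := kA 1 h32 (kA 1 h7 (kA 2 h6 (kA 1 h5 (kC 1 b45 (kC 3 b2 k0))))); clear * - this; omega, by have := kB 1 h36 (kA 1 h31 (kA 2 h3 (kC 1 b47 (kC 1 b39 (kC 2 b17 (kC 1 b11 k0)))))); clear * - this; omega, by have := kA 4 h33 (kA 1 h31 (kB 1 h30 (kB 4 h10 (kA 2 h7 (kA 2 h5 (kA 10 h4 (kC 4 b45 (kC 2 b39 (kC 20 b2 k0))))))))); clear * - this; omega⟩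
          exact T0_25 X hb ⟨by have := kA 1 h31 (kA 1 h8 (kA 2 h3 (kC 1 b47 (kC 1 b39 (kC 4 b17 k0))))); clear * - this; omega, by clear * - h33; omega⟩
        exact T0_24 X hb ⟨by have := kA 2 h9 (kA 1 h8 (kC 1 b45 (kC 1 b39 (kC 2 b17 (kC 2 b2 k0))))); clear * - this; omega, by clear * - b2 h9; omega, by clear * - h32; omega⟩
      rcases lt_or_ge (2*N + a - 2*l - 2*m - 2*U + V - 4) 0 with h43 | h43
      · rcases lt_or_ge (-2*a - 2*b + l + c) 0 with h44 | h44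
        · rcases lt_or_ge (2*N - a - b - m + 3*c + d + V - 2) 0 with h45 | h45
          · rcases lt_or_ge (-N - Q + i + b + l + m + 2) 0 with h46 | h46
            · exact T0_27 X hb ⟨by have := kA 1 h43 (kA 1 h8 (kA 1 h5 (kC 1 b45 (kC 1 b39 (kC 3 b17 (kC 1 b2 k0)))))); clear * - this; omega, by have := kA 9 h46 (kA 3 h45 (kA 14 h44 (kA 9 h43 (kB 1 h31 (kA 17 h8 (kA 7 h5 (kA 6 h3 (kC 12 b45 (kC 12 b39 (kC 44 b17 (kC 10 b14 k0))))))))))); clear * - this; omega, by have := kA 3 h46 (kA 1 h45 (kA 8 h44 (kA 3 h43 (kA 1 h5 (kA 8 h3 (kA 8 h2 (kC 5 b47 (kC 5 b39 (kC 20 b17 k0))))))))); clear * - this; omega, by have := kA 1 h9 (kA 3 h6 (kA 1 h5 (kC 2 b45 (kC 1 b39 (kC 1 b35 (kC 6 b2 k0)))))); clear * - this; omega⟩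
            exact T0_22 X hb ⟨by have := kA 1 h45 (kA 1 h43 (kA 1 h8 (kA 1 h5 (kC 2 b45 (kC 2 b39 (kC 4 b17 (kC 2 b2 k0))))))); clear * - this; omega, by have := kA 1 h44 (kA 1 h7 (kA 1 h3 (kC 1 b2 k0))); clear * - this; omega, by clear * - h46; omega, by have := kB 2 h46 (kA 4 h45 (kA 2 h44 (kA 2 h43 (kB 2 h31 (kB 1 h10 (kA 7 h8 (kA 10 h3 (kC 8 b45 (kC 8 b39 (kC 18 b17 (kC 10 b2 k0))))))))))); clear * - this; omega, by have := kA 2 h44 (kB 1 h10 (kA 1 h8 (kA 2 h5 (kA 2 h1 (kC 4 b17 k0))))); clear * - this; omega, by have := kB 1 h46 (kA 6 h44 (kA 4 h43 (kB 1 h31 (kA 4 h8 (kA 2 h5 (kA 6 h3 (kC 2 b45 (kC 2 b39 (kC 10 b17 (kC 3 b6 k0)))))))))); clear * - this; omega⟩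
          exact T0_13 X hb ⟨by clear * - h45; omega, by have := kB 3 h45 (kA 2 h44 (kA 2 h9 (kA 3 h8 (kC 1 b42 (kC 1 b40 k0))))); clear * - this; omega, by have := kA 1 h44 (kA 1 h43 (kA 1 h9 (kA 1 h5 (kA 1 h3 (kA 1 h2 (kC 1 b47 (kC 1 b39 (kC 4 b17 (kC 1 b2 k0))))))))); clear * - this; omega⟩
        rcases lt_or_ge (2*a + 2*b + c - 1) 0 with h47 | h47
        · rcases lt_or_ge (-3*N + 3*m - 3*c - 2*d + 2) 0 with h48 | h48
          · rcases lt_or_ge (-2*a - b + l + 2*c + 1) 0 with h49 | h49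
            · exact T0_27 X hb ⟨by have := kA 1 h43 (kA 1 h8 (kA 1 h5 (kC 1 b45 (kC 1 b39 (kC 3 b17 (kC 1 b2 k0)))))); clear * - this; omega, by have := kA 22 h49 (kA 16 h48 (kA 12 h43 (kB 14 h31 (kB 1 h10 (kA 35 h8 (kA 4 h6 (kC 30 b45 (kC 16 b39 (kC 14 b34 (kC 56 b17 k0)))))))))); clear * - this; omega, by have := kA 1 h49 (kB 1 h10 (kA 1 h5 (kA 1 h4 (kC 1 b17 (kC 2 b2 k0))))); clear * - this; omega, by have := kA 1 h49 (kA 3 h6 (kA 1 h5 (kC 2 b45 (kC 1 b39 (kC 1 b35 (kC 5 b2 k0)))))); clear * - this; omega⟩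
            exact T0_24 X hb ⟨by have := kA 2 h9 (kA 1 h8 (kC 1 b45 (kC 1 b39 (kC 2 b17 (kC 2 b2 k0))))); clear * - this; omega, by clear * - b2 h9; omega, by clear * - h49; omega⟩
          rcases lt_or_ge (N + l + c + 2*d + 2*U - 1) 0 with h50 | h50
          · rcases lt_or_ge (-N - l - c - 2*d - 2*U + V - 1) 0 with h51 | h51
            · exact T0_11 X hb ⟨by clear * - h50 h51; omega, by have := kA 1 h7 (kA 1 h6 (kA 1 h5 (kC 1 b45 (kC 1 b39 (kC 2 b2 k0))))); clear * - this; omega, by clear * - h3 h48 h50; omega, by clear * - b17 h51; omega, by clear * - h50; omega⟩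
            exact T0_10 X hb ⟨by have := kB 3 h51 (kA 2 h47 (kA 2 h43 (kA 1 h9 (kA 3 h6 (kA 2 h3 (kC 3 b45 (kC 2 b39 (kC 1 b33 (kC 8 b2 k0))))))))); clear * - this; omega, by clear * - b17 h3 h48; omega, by have := kB 1 h51 (kA 1 h8 (kA 2 h3 (kC 1 b45 (kC 1 b35 (kC 2 b11 k0))))); clear * - this; omega, by clear * - h51; omega⟩
          exact T0_12 X hb ⟨by clear * - h48; omega, by have := kB 1 h50 (kA 1 h7 (kA 1 h6 (kA 1 h5 (kC 1 b45 (kC 1 b39 (kC 2 b2 k0)))))); clear * - this; omega, by clear * - h5 h48 h50; omega, by clear * - h50; omega⟩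
        exact T0_25 X hb ⟨by clear * - h44; omega, by clear * - h47; omega⟩
      exact T0_9 X hb ⟨by clear * - h30; omega, by clear * - h43; omega, by clear * - h10; omega⟩
    exact T0_8 X hb (by clear * - h9; omega)
  rcases lt_or_ge (-N - b + m - c - d - V) 0 with h52 | h52
  · rcases lt_or_ge (N + 2*a + b - l - m - 3) 0 with h53 | h53
    · rcases lt_or_ge (2*a + 2*b + c - 1) 0 with h54 | h54
      · rcases lt_or_ge (2*a + 2*b - 2*c - L - 2) 0 with h55 | h55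
        · exact T0_8 X hb (by have := kA 1 h55 (kA 4 h52 (kA 1 h7 (kA 1 h5 (kA 2 h2 (kC 1 b47 (kC 1 b7 (kC 4 b2 k0))))))); clear * - this; omega)
        exact T0_17 X hb ⟨by have := kB 1 h55 (kA 3 h54 (kA 5 h53 (kA 5 h7 (kA 6 h6 (kA 4 h5 (kA 1 h3 (kC 4 b45 (kC 5 b33 (kC 17 b2 k0))))))))); clear * - this; omega, by have := kA 2 h53 (kA 2 h52 (kA 6 h7 (kA 2 h6 (kA 2 h5 (kC 1 b45 (kC 1 b33 (kC 1 b18 (kC 8 b2 k0)))))))); clear * - this; omega, by have := kA 2 h54 (kA 2 h52 (kA 2 h7 (kA 2 h6 (kA 1 h5 (kA 1 h2 (kC 1 b47 (kC 1 b45 (kC 2 b33 (kC 6 b2 k0))))))))); clear * - this; omega, by clear * - h7; omega, by clear * - b11 h3 h7; omega, by have := kA 1 h5 (kA 1 h2 (kC 2 b17 (kC 1 b7 k0))); clear * - this; omega, by have := kA 1 h54 (kA 2 h52 (kA 1 h2 (kC 1 b19 (kC 2 b2 k0)))); clear * - this; omega, by clear * - h55; omega, by have := kA 1 h7 (kA 1 h6 (kA 1 h5 (kC 1 b45 (kC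 1 b11 (kC 2 b2 k0))))); clear * - this; omega, by have := kB 1 h55 (kA 2 h52 (kA 1 h5 (kA 1 h2 (kC 1 b7 (kC 2 b2 k0))))); clear * - this; omega, by have := kA 1 h52 (kA 1 h7 (kA 1 h6 (kA 1 h5 (kA 1 h4 (kA 1 h2 (kC 1 b45 (kC 1 b7 (kC 4 b2 k0)))))))); clear * - this; omega, by have := kB 4 h55 (kA 1 h54 (kA 1 h53 (kA 2 h52 (kA 1 h6 (kA 3 h3 (kA 1 h2 (kC 1 b47 (kC 1 b39 (kC 1 b38 (kC 5 b2 k0)))))))))); clear * - this; omega, by have := kB 2 h55 (kA 2 h54 (kA 9 h7 (kA 9 h6 (kA 1 h5 (kA 4 h3 (kC 6 b45 (kC 5 b39 (kC 18 b2 k0)))))))); clear * - this; omega⟩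
      exact T0_25 X hb ⟨by have := kA 1 h53 (kA 1 h7 (kA 1 h3 (kC 1 b2 k0))); clear * - this; omega, by clear * - h54; omega⟩
    rcases lt_or_ge (-N + i - b + l + m + 2) 0 with h56 | h56
    · rcases lt_or_ge (3*a + 2*b - l - c - 2) 0 with h57 | h57
      · rcases lt_or_ge (-3*N + 3*m - 3*c - 2*d + 2) 0 with h58 | h58
        · rcases lt_or_ge (-2*N + 3*m - 2*c - 2*d - L + 2*Y + 1) 0 with h59 | h59
          · exact T0_19 X hb ⟨by have := kA 1 h59 (kA 4 h52 (kA 3 h7 (kA 1 h5 (kA 2 h2 (kC 1 b41 (kC 1 b7 (kC 4 b2 k0))))))); clear * - this; omega, by have := kA 1 h59 (kA 2 h52 (kA 3 h7 (kA 1 h2 (kC 1 b41 (kC 1 b7 (kC 4 b2 k0)))))); clear * - this; omega, by have := kA 1 h6 (kA 1 h5 (kA 1 h2 (kC 1 b45 (kC 1 b39 (kC 2 b17 k0))))); clear * - this; omega, by have := kA 2 h7 (kA 1 h6 (kC 1 b45 (kC 1 b39 (kC 2 b2 k0)))); clear * - this; omega⟩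
          rcases lt_or_ge (N - a - b + c + d + Y - 1) 0 with h60 | h60
          · exact T0_30 X hb ⟨by have := kA 2 h60 (kB 1 h59 (kC 1 b39 (kC 1 b7 k0))); clear * - this; omega, by have := kA 1 h57 (kA 1 h56 (kA 1 h52 (kA 1 h7 (kC 1 b45 (kC 1 b39 (kC 3 b2 k0)))))); clear * - this; omega, by have := kA 4 h60 (kB 2 h59 (kA 4 h58 (kA 1 h56 (kB 1 h53 (kA 2 h7 (kC 1 b47 (kC 3 b39 (kC 4 b18 (kC 8 b17 (kC 3 b11 k0)))))))))); clear * - this; omega, by have := kA 1 h56 (kB 1 h53 (kA 2 h2 (kC 1 b47 (kC 1 b39 (kC 2 b17 k0))))); clear * - this; omega⟩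
          exact T0_29 X hb ⟨by have := kA 2 h52 (kA 1 h5 (kA 1 h2 (kC 1 b7 (kC 2 b2 k0)))); clear * - this; omega, by clear * - b42 h53 h56; omega, by clear * - h60; omega, by have := kB 2 h60 (kB 2 h53 (kA 1 h7 (kA 1 h6 (kA 1 h2 (kC 1 b47 (kC 2 b17 k0)))))); clear * - this; omega, by clear * - h59; omega⟩
        exact T0_12 X hb ⟨by clear * - h58; omega, by have := kA 1 h57 (kB 1 h53 (kA 1 h6 (kC 1 b45 (kC 1 b39 (kC 2 b2 k0))))); clear * - this; omega, by clear * - h3 h58; omega, by have := kA 1 h57 (kA 1 h56 (kA 2 h52 (kA 1 h7 (kA 1 h2 (kC 1 b45 (kC 1 b39 (kC 1 b7 (kC 4 b2 k0)))))))); clear * - this; omega⟩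
      rcases lt_or_ge (a + 2*b + c - 1) 0 with h61 | h61
      · exact T0_12 X hb ⟨by have := kB 1 h57 (kA 1 h56 (kA 1 h7 (kA 1 h2 (kC 1 b47 (kC 1 b36 (kC 2 b17 k0)))))); clear * - this; omega, by have := kA 1 h7 (kA 1 h6 (kA 1 h3 (kC 1 b45 (kC 1 b39 (kC 2 b2 k0))))); clear * - this; omega, by have := kA 1 h5 (kA 1 h3 (kC 1 b43 (kC 1 b40 k0))); clear * - this; omega, by have := kA 1 h61 (kA 1 h56 (kA 1 h6 (kC 1 b45 (kC 1 b36 (kC 2 b2 k0))))); clear * - this; omega⟩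
      exact T0_28 X hb ⟨by have := kB 1 h57 (kA 2 h52 (kA 2 h7 (kA 2 h3 (kA 2 h2 (kC 1 b47 (kC 1 b39 (kC 2 b17 k0))))))); clear * - this; omega, by clear * - h57; omega, by have := kA 1 h56 (kA 4 h52 (kA 5 h7 (kA 1 h3 (kA 2 h2 (kC 1 b47 (kC 1 b45 (kC 2 b39 (kC 1 b7 (kC 6 b2 k0))))))))); clear * - this; omega, by clear * - h61; omega⟩
    exact T0_22 X hb ⟨by clear * - h56; omega, by clear * - h53; omega, by have := kB 1 h56 (kA 1 h52 (kA 1 h4 (kA 1 h2 k0))); clear * - this; omega, by clear * - b11 h3 h56; omega, by have := kB 1 h53 (kA 1 h7 (kA 1 h6 (kA 1 h5 (kC 1 b18 (kC 2 b17 k0))))); clear * - this; omega, by have := kA 2 h52 (kA 2 h7 (kA 2 h6 (kA 2 h5 (kC 1 b45 (kC 1 b33 (kC 1 b18 (kC 4 b2 k0))))))); clear * - this; omega⟩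
  exact T0_7 X hb ⟨by have := kB 1 h52 (kB 1 h8 (kA 1 h7 (kA 1 h6 (kA 1 h4 k0)))); clear * - this; omega, by clear * - h52; omega, by clear * - h8; omega⟩

theorem main (X : C W N Q i a b l m c d L U V Y) (hb : B N Q i a b l m c d L U V Y) : False := by
  have b2 := hb.b2
  have b3 := hb.b3
  have b4 := hb.b4
  have b7 := hb.b7
  have b11 := hb.b11
  have b17 := hb.b17
  have b18 := hb.b18
  have b19 := hb.b19
  have b21 := hb.b21
  have b33 := hb.b33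
  have b34 := hb.b34
  have b35 := hb.b35
  have b36 := hb.b36
  have b39 := hb.b39
  have b41 := hb.b41
  have b42 := hb.b42
  have b43 := hb.b43
  have b44 := hb.b44
  have b45 := hb.b45
  have b46 := hb.b46
  have b47 := hb.b47
  have b48 := hb.b48
  have b49 := hb.b49
  rcases lt_or_ge (-N + m - c) 0 with h1 | h1
  · rcases lt_or_ge (3*N + Q - i - 2*l - 3*m + c + d - 2*U + 2*V - 5) 0 with h2 | h2
    · rcases lt_or_ge (-2*N + 2*m - 2*c - d + 1) 0 with h3 | h3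
      · rcases lt_or_ge (-2*N + i - b + 2*l + 2*m + 2*U - V + 3) 0 with h4 | h4
        · rcases lt_or_ge (-N + l + 2*m - c + d + 2*U + 1) 0 with h5 | h5
          · rcases lt_or_ge (i + a - b) 0 with h6 | h6
            · rcases lt_or_ge (N + a + b - m + c + d - 1) 0 with h7 | h7
              · exact M0 X hb h1 h2 h3 h4 h5 h6 h7
              rcases lt_or_ge (-N - a - b + m - c - d + 1) 0 with h62 | h62
              · rcases lt_or_ge (-N + i - b + l + m + 2) 0 with h63 | h63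
                · rcases lt_or_ge (N + b - m + c + d + V - 2) 0 with h64 | h64
                  · rcases lt_or_ge (3*a + 2*b - l - c - 2) 0 with h65 | h65
                    · rcases lt_or_ge (N - a - b + c + d + Y - 1) 0 with h66 | h66
                      · rcases lt_or_ge (2*a + 2*b + c - 1) 0 with h67 | h67
                        · rcases lt_or_ge (a - b - l + m - 2*c - 1) 0 with h68 | h68
                          · exact T0_30 X hb ⟨by have := kA 1 h68 (kA 2 h66 (kA 2 h64 (kA 1 h62 (kA 1 h2 (kC 1 b41 (kC 1 b39 (kC 4 b17 (kC 2 b7 k0)))))))); clear * - this; omega, by have := kA 1 h65 (kA 2 h64 (kA 1 h63 (kA 2 h62 (kC 1 b45 (kC 1 b39 (kC 3 b17 k0)))))); clear * - this; omega, by have := kA 2 h68 (kA 6 h67 (kA 6 h66 (kA 20 h64 (kA 8 h63 (kA 16 h62 (kA 4 h6 (kC 1 b47 (kC 4 b45 (kC 3 b41 (kC 8 b36 (kC 20 b17 k0))))))))))); clear * - this; omega, by clear * - h2 h4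 h64; omega⟩
                          exact T0_19 X hb ⟨by have := kA 1 h67 (kA 2 h66 (kA 1 h64 (kA 1 h63 (kA 2 h62 (kA 1 h3 (kA 2 h2 (kC 1 b45 (kC 1 b41 (kC 2 b39 (kC 5 b17 k0)))))))))); clear * - this; omega, by clear * - h68; omega, by have := kA 1 h6 (kA 1 h5 (kA 1 h2 (kC 1 b45 (kC 1 b39 (kC 2 b17 k0))))); clear * - this; omega, by have := kA 2 h64 (kA 1 h6 (kC 1 b45 (kC 1 b39 (kC 2 b17 k0)))); clear * - this; omega⟩
                        exact T0_25 X hb ⟨by have := kA 1 h65 (kA 1 h64 (kA 1 h62 (kC 1 b17 k0))); clear * - this; omega, by clear * - h67; omega⟩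
                      rcases lt_or_ge (-2*N + 3*m - 2*c - 2*d - L + 2*Y + 1) 0 with h69 | h69
                      · exact T0_19 X hb ⟨by have := kA 1 h69 (kA 1 h62 (kA 1 h5 (kA 2 h2 (kC 1 b41 (kC 4 b17 (kC 1 b7 k0)))))); clear * - this; omega, by have := kA 1 h69 (kA 2 h64 (kA 1 h62 (kA 1 h2 (kC 1 b41 (kC 4 b17 (kC 1 b7 k0)))))); clear * - this; omega, by have := kA 1 h6 (kA 1 h5 (kA 1 h2 (kC 1 b45 (kC 1 b39 (kC 2 b17 k0))))); clear * - this; omega, by have := kA 2 h64 (kA 1 h6 (kC 1 b45 (kC 1 b39 (kC 2 b17 k0)))); clear * - this; omega⟩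
                      exact T0_29 X hb ⟨by have := kA 2 h62 (kA 1 h5 (kA 1 h2 (kC 2 b17 (kC 1 b7 k0)))); clear * - this; omega, by have := kA 2 h64 (kA 2 h63 (kA 2 h62 (kA 1 h5 (kA 1 h2 (kC 1 b45 (kC 1 b42 (kC 1 b39 (kC 4 b17 (kC 1 b7 k0))))))))); clear * - this; omega, by clear * - h66; omega, by have := kB 1 h69 (kB 4 h66 (kA 4 h64 (kA 2 h63 (kA 2 h4 (kC 1 b49 (kC 1 b45 (kC 4 b17 k0))))))); clear * - this; omega, by clear * - h69; omega⟩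
                    rcases lt_or_ge (a + 2*b + c - 1) 0 with h70 | h70
                    · exact T0_19 X hb ⟨by have := kA 1 h70 (kB 1 h65 (kA 1 h6 (kA 1 h5 (kA 1 h2 (kC 1 b45 (kC 1 b39 (kC 2 b17 k0))))))); clear * - this; omega, by have := kA 1 h70 (kB 1 h65 (kA 2 h64 (kA 1 h6 (kC 1 b45 (kC 1 b39 (kC 2 b17 k0)))))); clear * - this; omega, by have := kA 1 h6 (kA 1 h5 (kA 1 h2 (kC 1 b45 (kC 1 b39 (kC 2 b17 k0))))); clear * - this; omega, by have := kA 2 h64 (kA 1 h6 (kC 1 b45 (kC 1 b39 (kC 2 b17 k0)))); clear * - this; omega⟩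
                    exact T0_28 X hb ⟨by have := kA 1 h63 (kA 1 h62 (kA 1 h5 (kA 1 h3 (kA 3 h2 (kC 1 b47 (kC 1 b45 (kC 2 b39 (kC 6 b17 (kC 1 b7 k0))))))))); clear * - this; omega, by clear * - h65; omega, by have := kA 2 h64 (kA 1 h63 (kA 1 h62 (kA 1 h3 (kA 2 h2 (kC 1 b47 (kC 1 b45 (kC 2 b39 (kC 6 b17 (kC 1 b7 k0))))))))); clear * - this; omega, by clear * - h70; omega⟩
                  exact T0_31 X hb ⟨by have := kA 1 h5 (kA 1 h2 (kC 1 b47 (kC 1 b33 (kC 2 b17 (kC 1 b7 (kC 2 b2 k0)))))); clear * - this; omega, by clear * - h64; omega, by have := kA 2 h63 (kA 2 h5 (kA 4 h2 (kC 1 b47 (kC 2 b45 (kC 3 b39 (kC 6 b17 (kC 2 b7 (kC 4 b2 k0)))))))); clear * - this; omega⟩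
                rcases lt_or_ge (N + 2*a + b - l - m - 3) 0 with h71 | h71
                · rcases lt_or_ge (N + b - m + c + d + V - 2) 0 with h72 | h72
                  · rcases lt_or_ge (N + Q - i - a - m + c + d + V - 2) 0 with h73 | h73
                    · rcases lt_or_ge (-b + m - c + d) 0 with h74 | h74
                      · rcases lt_or_ge (-2*a - 2*b + l + c) 0 with h75 | h75
                        · exact T0_28 X hb ⟨by have := kA 1 h75 (kA 1 h73 (kA 2 h71 (kA 1 h3 (kA 1 h1 (kC 1 b17 k0))))); clear * - this; omega, by have := kA 1 h75 (kA 1 h72 (kA 1 h62 (kC 1 b17 k0))); clear * - this; omega, by have := kA 1 h73 (kA 3 h72 (kA 1 h71 (kA 1 h62 (kA 1 h6 (kA 1 h3 (kC 1 b45 (kC 1 b39 (kC 4 b17 (kC 1 b7 k0))))))))); clear * - this; omega, by have := kA 1 h75 (kA 1 h74 (kA 3 h72 (kA 1 h71 (kA 2 h62 (kA 1 h6 (kC 1 b45 (kC 1 b39 (kC 3 b17 k0)))))))); clear * - this;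 omega⟩
                        rcases lt_or_ge (2*a + 2*b + c - 1) 0 with h76 | h76
                        · exact T0_34 X hb ⟨by have := kA 1 h74 (kA 1 h73 (kA 1 h72 (kA 1 h71 (kA 3 h62 (kC 2 b17 (kC 1 b7 k0)))))); clear * - this; omega, by clear * - h62; omega, by have := kA 1 h76 (kA 1 h73 (kB 1 h63 (kA 2 h62 (kA 1 h6 (kA 1 h3 (kC 1 b17 k0)))))); clear * - this; omega, by have := kA 1 h76 (kB 1 h75 (kA 1 h73 (kA 1 h72 (kA 4 h62 (kA 1 h6 (kC 1 b45 (kC 1 b39 (kC 2 b17 k0)))))))); clear * - this; omega, by have := kA 1 h76 (kA 1 h74 (kA 3 h72 (kA 2 h62 (kA 1 h6 (kC 1 b45 (kC 1 b39 (kC 3 b17 k0))))))); clear * - this; omega, by have := kA 1 h74 (kA 2 h73 (kA 1 h71 (kA 2 h62 (kA 1 h2 (kC 1 b47 (kC 4 b17 (kC 1 b7 k0))))))); clear * - this; omega, by have := kA 2 h73 (kA 2 h72 (kA 2 h71 (kA 3 h62 (kA 1 h6 (kA 1 h5 (kC 1 b45 (kC 4 b17 (kC 1 b7 k0)))))))); clear * - this; omega,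 by have := kA 2 h74 (kA 1 h73 (kA 1 h72 (kA 1 h62 (kA 1 h2 (kC 1 b47 (kC 4 b17 (kC 1 b7 k0))))))); clear * - this; omega, by have := kA 1 h74 (kA 1 h73 (kA 3 h72 (kA 1 h71 (kA 2 h62 (kA 1 h6 (kA 1 h5 (kC 1 b45 (kC 4 b17 (kC 1 b7 k0))))))))); clear * - this; omega⟩
                        exact T0_25 X hb ⟨by clear * - h75; omega, by clear * - h76; omega⟩
                      rcases lt_or_ge (-Q + i + b + l + c + d + 1) 0 with h77 | h77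
                      · exact T0_7 X hb ⟨by have := kA 1 h77 (kA 1 h73 (kA 1 h71 (kA 1 h6 (kA 3 h4 (kC 1 b45 (kC 1 b35 (kC 2 b17 k0))))))); clear * - this; omega, by have := kA 1 h77 (kA 1 h73 (kA 1 h71 (kA 1 h62 k0))); clear * - this; omega, by have := kA 2 h62 (kA 1 h5 (kA 1 h2 (kC 1 b45 (kC 1 b39 (kC 4 b17 (kC 1 b7 k0)))))); clear * - this; omega⟩
                      exact T0_33 X hb ⟨by clear * - h77; omega, by have := kB 1 h77 (kA 4 h72 (kA 3 h62 (kA 1 h6 (kA 2 h5 (kA 1 h2 (kC 1 b45 (kC 1 b33 (kC 6 b17 (kC 2 b7 k0))))))))); clear * - this; omega, by clear * - h1 h74; omega, by clear * - h74; omega, by have := kA 11 h72 (kA 1 h62 (kA 7 h6 (kA 4 h5 (kA 1 h4 (kC 5 b45 (kC 3 b35 (kC 2 b33 (kC 10 b17 k0)))))))); clear * - this; omega⟩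
                    exact T0_32 X hb ⟨by have := kA 1 h72 (kA 1 h6 (kA 1 h5 (kA 1 h2 (kC 1 b45 (kC 1 b39 (kC 2 b17 (kC 1 b7 k0))))))); clear * - this; omega, by clear * - h73; omega, by have := kA 2 h72 (kA 1 h62 (kA 1 h5 (kA 1 h4 (kA 1 h2 (kC 1 b45 (kC 1 b39 (kC 4 b17 (kC 1 b7 k0)))))))); clear * - this; omega⟩
                  exact T0_31 X hb ⟨by have := kA 1 h5 (kA 1 h2 (kC 1 b47 (kC 1 b33 (kC 2 b17 (kC 1 b7 (kC 2 b2 k0)))))); clear * - this; omega, by clear * - h72; omega, by have := kA 1 h5 (kA 1 h2 (kC 1 b44 (kC 1 b39 (kC 2 b17 (kC 1 b7 (kC 2 b2 k0)))))); clear * - this; omega⟩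
                exact T0_22 X hb ⟨by clear * - h63; omega, by clear * - h71; omega, by have := kA 2 h62 (kA 1 h5 (kA 3 h2 (kC 1 b46 (kC 1 b45 (kC 2 b39 (kC 6 b17 (kC 1 b7 k0))))))); clear * - this; omega, by clear * - b11 h3 h63; omega, by have := kB 1 h71 (kA 1 h5 (kA 1 h2 (kC 2 b17 (kC 1 b3 k0)))); clear * - this; omega, by have := kA 2 h6 (kA 2 h5 (kC 1 b45 (kC 1 b33 (kC 1 b18 (kC 2 b17 (kC 2 b2 k0)))))); clear * - this; omega⟩
              exact T0_6 X hb ⟨by have := kA 1 h5 (kA 1 h2 (kC 2 b17 (kC 1 b7 k0))); clear * - this; omega, by clear * - h7; omega, by clear * - h62; omega⟩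
            rcases lt_or_ge (-a + b - 1) 0 with h78 | h78
            · rcases lt_or_ge (-N - Q + i + b + l + m + 2) 0 with h79 | h79
              · rcases lt_or_ge (-N - 2*a - 2*b + l + m + c - d + 1) 0 with h80 | h80
                · exact T0_35 X hb ⟨by have := kA 1 h80 (kA 2 h78 (kA 1 h5 (kA 2 h4 (kC 1 b45 (kC 1 b36 (kC 2 b17 k0)))))); clear * - this; omega, by have := kA 2 h79 (kA 1 h78 (kB 1 h6 (kA 2 h4 (kA 2 h2 (kC 1 b46 (kC 1 b39 (kC 2 b17 k0))))))); clear * - this; omega⟩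
                exact T0_27 X hb ⟨by clear * - h80; omega, by have := kA 6 h79 (kA 1 h78 (kB 1 h6 (kA 4 h4 (kA 6 h2 (kC 2 b48 (kC 1 b46 (kC 2 b45 (kC 5 b39 (kC 8 b17 k0))))))))); clear * - this; omega, by have := kA 6 h79 (kA 1 h78 (kB 1 h6 (kA 6 h4 (kA 7 h2 (kC 1 b47 (kC 2 b46 (kC 2 b45 (kC 5 b35 (kC 8 b17 k0))))))))); clear * - this; omega, by have := kA 2 h78 (kA 2 h4 (kA 1 h2 (kC 1 b45 (kC 1 b35 (kC 1 b3 k0))))); clear * - this; omega⟩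
              rcases lt_or_ge (N + 2*a + b - l - m - 3) 0 with h81 | h81
              · exact T0_18 X hb ⟨by have := kA 4 h81 (kA 3 h78 (kA 5 h5 (kA 2 h4 (kA 6 h2 (kC 1 b47 (kC 2 b45 (kC 3 b33 (kC 3 b17 (kC 5 b7 k0))))))))); clear * - this; omega, by have := kA 1 h78 (kA 1 h5 (kC 1 b46 (kC 1 b33 (kC 1 b18 (kC 3 b17 k0))))); clear * - this; omega, by have := kA 1 h78 (kA 2 h4 (kA 1 h2 (kC 1 b18 (kC 1 b17 (kC 1 b7 k0))))); clear * - this; omega, by have := kA 2 h81 (kA 2 h78 (kA 2 h4 (kC 1 b45 (kC 1 b33 (kC 1 b18 (kC 2 b17 k0)))))); clear * - this; omega⟩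
              rcases lt_or_ge (N + b - m + 2*c - 2) 0 with h82 | h82
              · exact T0_35 X hb ⟨by have := kA 1 h82 (kB 1 h81 (kA 2 h78 (kA 1 h5 (kA 3 h4 (kC 2 b45 (kC 1 b39 (kC 1 b35 (kC 3 b17 k0)))))))); clear * - this; omega, by have := kA 4 h82 (kB 1 h81 (kB 1 h79 (kA 8 h78 (kA 4 h5 (kA 6 h4 (kA 4 h2 (kC 2 b45 (kC 2 b33 (kC 2 b17 (kC 5 b3 k0)))))))))); clear * - this; omega⟩
              exact T0_22 X hb ⟨by have := kB 1 h79 (kA 2 h78 (kB 2 h6 (kA 2 h2 (kC 3 b47 (kC 1 b45 (kC 3 b36 (kC 1 b35 (kC 4 b17 k0)))))))); clear * - this; omega, by clear * - h81; omega, by clear * - h79; omega, by have := kA 1 h78 (kB 1 h6 (kA 2 h3 (kC 1 b48 (kC 1 b39 (kC 1 b11 k0))))); clear * - this; omega, by have := kB 1 h82 (kA 1 h5 (kA 1 h2 (kC 2 b17 (kC 1 b7 k0)))); clear * - this; omega, by clear * - h82; omega⟩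
            exact T0_5 X hb ⟨by clear * - h6; omega, by clear * - h78; omega⟩
          rcases lt_or_ge (N + c + d - 1) 0 with h83 | h83
          · exact T0_5 X hb ⟨by have := kA 3 h83 (kA 1 h2 (kC 1 b47 (kC 2 b45 (kC 2 b39 (kC 1 b33 (kC 2 b17 (kC 4 b2 k0))))))); clear * - this; omega, by have := kA 1 h83 (kA 2 h4 (kA 1 h2 (kC 1 b45 (kC 1 b36 (kC 1 b3 k0))))); clear * - this; omega⟩
          exact T0_4 X hb ⟨by clear * - h83; omega, by clear * - h5; omega, by have := kA 2 h3 (kA 5 h2 (kC 5 b19 (kC 10 b17 k0))); clear * - this; omega⟩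
        rcases lt_or_ge (2*N + 2*a + b - 2*l - 2*m - 2*U + V - 4) 0 with h84 | h84
        · exact T0_4 X hb ⟨by have := kA 2 h84 (kC 3 b46 (kC 2 b45 (kC 1 b39 (kC 1 b35 (kC 3 b33 (kC 2 b17 (kC 8 b2 k0))))))); clear * - this; omega, by have := kA 2 h84 (kC 1 b45 (kC 1 b39 (kC 2 b17 (kC 1 b11 (kC 1 b7 (kC 1 b4 (kC 2 b2 k0))))))); clear * - this; omega, by have := kA 5 h84 (kB 5 h4 (kA 8 h3 (kC 5 b45 (kC 5 b35 (kC 15 b21 (kC 10 b17 k0)))))); clear * - this; omega⟩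
        rcases lt_or_ge (b - V - 1) 0 with h85 | h85
        · rcases lt_or_ge (i - b) 0 with h86 | h86
          · exact T0_4 X hb ⟨by have := kA 2 h86 (kA 1 h85 (kB 1 h4 (kC 1 b45 (kC 1 b43 (kC 1 b41 (kC 2 b39 k0)))))); clear * - this; omega, by have := kA 2 h86 (kA 4 h85 (kA 2 h2 (kC 1 b46 (kC 2 b45 (kC 1 b39 (kC 1 b35 (kC 1 b33 (kC 2 b7 k0)))))))); clear * - this; omega, by have := kA 2 h3 (kA 5 h2 (kC 5 b19 (kC 10 b17 k0))); clear * - this; omega⟩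
          exact T0_36 X hb (by clear * - h86; omega)
        exact T0_3 X hb ⟨by clear * - h4; omega, by clear * - h84; omega, by clear * - h85; omega⟩
      rcases lt_or_ge (l + m + d + 2*U) 0 with h87 | h87
      · rcases lt_or_ge (i - b) 0 with h88 | h88
        · rcases lt_or_ge (l + m + d + 2*U - V + 1) 0 with h89 | h89
          · exact T0_38 X hb (by clear * - h89; omega)
          exact T0_37 X hb ⟨by have := kA 1 h87 (kA 1 h2 (kA 1 h1 (kC 2 b17 (kC 1 b7 k0)))); clear * - this; omega, by have := kB 2 h89 (kA 2 h87 (kC 1 b48 (kC 1 b33 (kC 2 b2 k0)))); clear * - this; omega, by clear * - b17 h87; omega, by clear * - h89; omega⟩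
        exact T0_36 X hb (by clear * - h88; omega)
      rcases lt_or_ge (2*N - m + 2*c + d - 2) 0 with h90 | h90
      · exact T0_36 X hb (by have := kA 4 h90 (kA 2 h1 (kC 1 b47 (kC 2 b45 (kC 1 b39 (kC 1 b34 (kC 1 b33 (kC 2 b2 k0))))))); clear * - this; omega)
      exact T0_2 X hb ⟨by clear * - h3; omega, by clear * - h90; omega, by clear * - h1 h3; omega, by clear * - h87; omega⟩
    rcases lt_or_ge (-N + m - c - d - 2*V) 0 with h91 | h91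
    · exact T0_4 X hb ⟨by have := kA 1 h91 (kC 1 b46 (kC 1 b33 (kC 1 b18 (kC 2 b2 k0)))); clear * - this; omega, by clear * - b11 b18 h91; omega, by have := kA 3 h91 (kA 2 h1 (kC 3 b21 (kC 3 b18 k0))); clear * - this; omega⟩
    exact T0_1 X hb ⟨by clear * - h91; omega, by clear * - h2; omega⟩
  exact T0_0 X hb (by clear * - h1; omega)


end Pool.Agent.MP_a38735_al.WL.E343
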