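import Pool.Agent.MP_a38735_al.StA
import Mathlib.Data.Int.LeastGreatest

set_option autoImplicit false

namespace Pool.Agent.MP_a38735_al.WL

/-- the return map of a rotation to a hole -/
theorem rz {β : Type*} {V : ℤ → β} {e h p m : ℤ} (per : ∀ t, V (t + e) = V t)
    (H : e % 2 = 0 ∧ h % 2 = 0 ∧ 0 ≤ m ∧ m + 2 ≤ e)
    (B : ∀ t, p + m + 1 < t → t < p + e → V (t + h) = V t) (n1 : V p ≠ V (p + h)) :
    ∃ U U' : ℤ, (1 ≤ U ∧ 1 ≤ U' ∧ m + 2 ≤ 2 * U + 2 * U' ∧ 2 * U ≤ m + 1 ∧ 2 * U' ≤ m + 1 ∧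
      2 * U + 2 * U' ≤ e) ∧ (∀ u, 0 ≤ u → u < 2 * U' → V (p + u + 2 * U) = V (p + u + h)) ∧
      ∀ u, 2 * U' ≤ u → u < 2 * U + 2 * U' → V (p + u - 2 * U') = V (p + u + h) := by
  let R : ℤ → ℤ → Prop := fun k x => e ∣ k * h - x
  have sub : ∀ {k x k' x'}, R k x → R k' x' → R (k - k') (x - x') := fun {k x k' x'} a b => by
    have := dvd_sub a b
    rwa [show k * h - x - (k' * h - x') = (k - k') * h - (x - x') by ring] at this
  have zero : ∀ x, R 0 x → -e < x → x < e → x = 0 := fun x a h1 h2 =>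
    Int.eq_zero_of_abs_lt_dvd (by simpa [R] using a) (abs_lt.2 ⟨h1, h2⟩)
  have re : R 0 e := by simp [R]
  have ev : ∀ k x, R k x → x % 2 = 0 := fun k x ⟨z, a⟩ => by
    obtain ⟨e', rfl⟩ : ∃ e', e = 2 * e' := ⟨e / 2, by omega⟩
    obtain ⟨h', rfl⟩ : ∃ h', h = 2 * h' := ⟨h / 2, by omega⟩
    have : x = 2 * (k * h' - e' * z) := by linarith
    omega
  obtain ⟨k1, ⟨k10, a, a0, a1, ra⟩, m1⟩ := Int.exists_least_of_bdd
    (P := fun k => 0 < k ∧ ∃ x, 0 ≤ x ∧ x ≤ m + 1 ∧ R k x) ⟨0, fun _ z => z.1.le⟩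
    ⟨e, by omega, 0, le_rfl, by omega, by simp [R]⟩
  obtain ⟨k2, ⟨k20, b, b0, b1, rb⟩, m2⟩ := Int.exists_least_of_bdd
    (P := fun k => 0 < k ∧ ∃ x, 0 ≤ x ∧ x ≤ m + 1 ∧ R k (-x)) ⟨0, fun _ z => z.1.le⟩
    ⟨e, by omega, 0, le_rfl, by omega, by simp [R]⟩
  have p1 : ∀ {k x}, R k x → 0 ≤ k → 0 ≤ x → x ≤ m + 1 → k1 ≤ k ∨ (k = 0 ∧ x = 0) :=
    fun {k x} r h1 h2 h3 => h1.lt_or_eq.imp (fun z => m1 k ⟨z, x, h2, h3, r⟩)
      fun z : 0 = k => ⟨z.symm, zero x (z ▸ r) (by omega) (by omega)⟩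
  have p2 : ∀ {k x}, R k x → 0 ≤ k → x ≤ 0 → -(m + 1) ≤ x → k2 ≤ k ∨ (k = 0 ∧ x = 0) :=
    fun {k x} r h1 h2 h3 => h1.lt_or_eq.imp
      (fun z => m2 k ⟨z, -x, by omega, by omega, by rwa [neg_neg]⟩)
      fun z : 0 = k => ⟨z.symm, zero x (z ▸ r) (by omega) (by omega)⟩
  have walk : ∀ (u K y : ℤ), 0 < K → R K y →
      (∀ j x, 0 < j → j < K → 0 ≤ x → x ≤ m + 1 → ¬ R j (x - u)) →
      V (p + u + y) = V (p + u + h) := fun u K y K0 ⟨z, r⟩ c => by
    have : ∀ j, 1 ≤ j → j ≤ K → V (p + u + j * h) = V (p + u + h) := fun j hj => by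
      induction j, hj using Int.leInduction with
      | base => simp
      | succ j hj ih =>
        intro hK
        have h1 := Int.emod_add_mul_ediv (u + j * h) e
        have h2 := Int.emod_nonneg (u + j * h) (by omega : e ≠ 0)
        have h3 := Int.emod_lt_of_pos (u + j * h) (by omega : 0 < e)
        have h4 : ¬ (u + j * h) % e ≤ m + 1 := fun w =>
          c j _ (by omega) (by omega) h2 w ⟨(u + j * h) / e, by linarith⟩
        have := B (p + (u + j * h) % e) (by omega) (by omega)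
        rw [← per_mul per ((u + j * h) / e), ← per_mul per ((u + j * h) / e) (p + _)] at this
        rw [← ih (by omega)]
        convert this using 2 <;> linarith
    rw [← this K K0 le_rfl, ← per_mul per z]
    congr 1; linarith
  have a2 : a ≠ 0 := fun z => n1 (by
    simpa [z] using walk 0 k1 a k10 ra fun j x j0 j1 x0 x1 r => by
      have := p1 r j0.le (by omega) (by omega)
      omega)
  have q1 := p1 (sub ra rb)
  have q2 := p2 (sub rb ra)
  have q3 := fun z : k1 = k2 => zero _ (sub (by simpa [z] using sub ra rb) re)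
  have q4 := p1 (sub rb (sub (sub re re) re))
  have q5 := p2 (sub ra re)
  have q6 := p1 rb
  have e1 := ev _ _ ra
  have e2 := ev _ _ rb
  have ab : 0 < b ∧ m + 2 ≤ a + b ∧ a + b ≤ e := by omega
  refine ⟨a / 2, b / 2, by omega, fun u u0 u1 => ?_, fun u u0 u1 => ?_⟩
  · rw [show 2 * (a / 2) = a by omega]
    refine walk u k1 a k10 ra fun j x j0 j1 x0 x1 r => ?_
    have := p1 r
    have := p2 r
    have := p1 (sub r rb)
    omega
  · rw [show p + u - 2 * (b / 2) = p + u + -b by omega]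
    refine walk u k2 _ k20 rb fun j x j0 j1 x0 x1 r => ?_
    have := p1 r
    have := p2 r
    have := p2 (sub r ra)
    have := p1 (sub rb r)
    have := p2 (sub (sub rb r) ra)
    omega

end Pool.Agent.MP_a38735_al.WL
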