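import Pool.Agent.MP_a38735_al.TL
import Pool.Agent.MP_a38735_al.AD

set_option autoImplicit false

namespace Pool.Agent.MP_a38735_al.WL

variable {G : Type*} [Group G] {W : ℤ → G}

/-- the word after `i` has period `e` up to `n` -/
theorem exV {i e n : ℤ} (e0 : 0 < e) (d : Par W (i + e + 1) n (-e)) :
    ∃ V : ℤ → G, (∀ t, V (t + e) = V t) ∧ ∀ t, i < t → t < n → V t = W t := by
  refine ⟨fun t => W (i + 1 + (t - i - 1) % e), fun t => ?_, fun t h => ?_⟩
  · beta_reduce
    rw [show t + e - i - 1 = t - i - 1 + e by ring, Int.add_emod_right]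
  · obtain ⟨u, hu⟩ := Int.eq_ofNat_of_zero_le (by omega : 0 ≤ t - i - 1)
    induction u using Nat.strong_induction_on generalizing t with
    | _ u ih =>
      intro hn
      by_cases z : t ≤ i + e
      · beta_reduce
        rw [Int.emod_eq_of_lt (by omega) (by omega)]; congr 1; ring
      · have := ih (u - e.toNat) (by omega) (t - e) (by omega) (by omega) (by omega)
        beta_reduce at this ⊢
        rw [← d t (by omega) hn, ← sub_eq_add_neg, ← this,
          show t - i - 1 = t - e - i - 1 + e by ring, Int.add_emod_right]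

theorem one_hole {β : Type*} {V : ℤ → β} {e h p : ℤ} (per : ∀ t, V (t + e) = V t) (e2 : 2 < e)
    (B : ∀ t, p - e < t → t < p → V (t + h) = V t) : V (p + h) = V p := by
  classical
  have := rot3 per h (p - 2) (p - 1) p (by omega) (fun _ _ _ => by omega) (fun _ _ _ => by omega)
    (fun t h1 h2 => by
      have := B (t - e) (by omega) (by omega)
      rwa [← per, ← per (t - e), sub_add_cancel, show t - e + h + e = t + h by ring] at this)
    fun u => if u = V p then 1 else 0
  rw [B (p - 2) (by omega) (by omega), B (p - 1) (by omega) (by omega)] at this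
  by_contra c
  simp [c] at this

/-- the third triangle ends at `i`, and the strips at the second triangle cover a period -/
theorem tl22 {n i j k p q i2 m : ℤ} (ni : ∀ t, W t ≠ (W t)⁻¹) (n1 : Nd W j i k)
    (n2 : Nd W p i2 q) (H : q = p + (k - i) ∧ i ≤ j ∧ j < i2 ∧ i2 < p ∧ i2 - i ≤ m ∧
      q + m + 1 < n ∧ i + m + 1 < k ∧ (p + m + 1 - i) % 2 = 0)
    (A : Par W (j - m - 1) j (k - j)) (B : Par W (i + 1) p (k - i))
    (C : Par W (q + 1) n (i2 - q)) (S : Ant W (i2 - m) i2 (i2 + p))
    (D : Par W (p + m + 2) n (i - (p + m + 1))) : False := by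
  classical
  obtain ⟨rfl, H⟩ := H
  have p1 := n1.p1
  have p2 := n1.p2
  have p3 := n2.p1
  obtain ⟨V, per, hV⟩ := exV (W := W) (i := i) (e := p + m + 1 - i) (n := n) (by omega)
    fun t h1 h2 => by rw [← D t (by omega) h2]; congr 1; ring
  have np : V p ≠ V (p + (k - i)) := by
    rw [hV _ (by omega) (by omega), hV _ (by omega) (by omega)]; exact n2.yz
  have ex : ∃ u : ℕ, V (i - u) ≠ V (i - u + (k - i)) := ⟨(m + 1).toNat, by
    rw [← per, ← per (i - ((m + 1).toNat : ℤ) + (k - i))]
    convert np using 2 <;> omega⟩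
  obtain ⟨u, hu, mn⟩ : ∃ u : ℕ, V (i - u) ≠ V (i - u + (k - i)) ∧
      ∀ t, i - u < t → t < p → V (t + (k - i)) = V t := by
    refine ⟨_, Nat.find_spec ex, fun t h1 h2 => ?_⟩
    by_cases z : i < t
    · rw [hV _ (by omega) (by omega), hV _ z (by omega), B t z h2]
    · have := not_not.1 (Nat.find_min ex (m := (i - t).toNat) (by omega))
      rw [show i - ((i - t).toNat : ℤ) = t by omega] at this
      exact this.symm
  have um : (u : ℤ) ≤ m := by
    by_contra c
    exact np (one_hole per (by omega) fun t h1 h2 => mn t (by omega) h2).symm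
  obtain ⟨ρ, κ, k1, k2, k3, k4, k5⟩ := tl (o := i - u) (a := i2) per (by omega) mn
    (fun s h1 h2 => by
      rw [hV _ (by omega) (by omega), hV _ (by omega) (by omega), ← C _ (by omega) (by omega)]
      congr 1; ring) np
    (by rw [hV _ (by omega) (by omega), hV _ (by omega) (by omega)]; exact n2.xz) hu
  have k4 := k4 (by omega)
  have sv : ∀ s, 0 < s → s ≤ m → V (p + s) = (W (i2 - s))⁻¹ := fun s h1 h2 => by
    rw [hV _ (by omega) (by omega), ← S _ (by omega) (by omega)]; congr 1; ring
  have f1 : ∀ s, (s = κ ∨ s = κ + ρ) → 0 < s → s < i2 - i → False := fun s h0 h1 h2 => by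
    have := k5 s s (by omega) (by omega) (by omega) (by omega) (by omega)
    rw [sv s h1 (by omega), hV _ (by omega) (by omega)] at this
    exact ni _ this.symm
  have f2 : ∀ s, (2 * s + (j - i) = 2 * κ ∨ 2 * s + (j - i) = 2 * κ + 2 * ρ) → i2 - j < s →
      s + (j - i) < 2 * ρ → False := fun s h0 h1 h2 => by
    have := k5 s (s + (j - i)) (by omega) (by omega) (by omega) h2 (by omega)
    rw [sv s (by omega) (by omega), ← mn _ (by omega) (by omega), hV _ (by omega) (by omega),
      show i2 - (s + (j - i)) + (k - i) = i2 - s + (k - j) by ring,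
      A _ (by omega) (by omega)] at this
    exact ni _ this.symm
  have g1 := fun z : _ ∧ _ => f1 κ (Or.inl rfl) z.1 z.2
  have g2 := fun z : _ ∧ _ => f1 (κ + ρ) (Or.inr rfl) z.1 z.2
  have g3 := fun z : _ ∧ _ => f2 (κ - (j - i) / 2) (by omega) z.1 z.2
  have g4 := fun z : _ ∧ _ => f2 (κ + ρ - (j - i) / 2) (by omega) z.1 z.2
  obtain ⟨rfl, h1, rfl⟩ : j = i ∧ κ = 0 ∧ ρ = i2 - i := by
    rw [imp_false] at g1 g2 g3 g4
    omega
  have := k5 (i2 - j) (i2 - j) (by omega) (by omega) (by omega) (by omega) (by omega)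
  rw [sv _ (by omega) (by omega), ← mn _ (by omega) (by omega), hV _ (by omega) (by omega),
    sub_sub_cancel, add_sub_cancel] at this
  exact n1.tor ⟨rfl, this.symm⟩

end Pool.Agent.MP_a38735_al.WL
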