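import Pool.Agent.MP_a38735_al.E21
import Pool.Agent.MP_a38735_al.E22a
import Pool.Agent.MP_a38735_al.E22b
import Pool.Agent.MP_a38735_al.E22c
import Pool.Agent.MP_a38735_al.E22d
import Pool.Agent.MP_a38735_al.E22e
import Pool.Agent.MP_a38735_al.E22f
import Pool.Agent.MP_a38735_al.E22g
import Pool.Agent.MP_a38735_al.E22h
import Pool.Agent.MP_a38735_al.E22o
import Pool.Agent.MP_a38735_al.TL2
import Pool.Agent.MP_a38735_al.RZ

set_option autoImplicit false

namespace Pool.Agent.MP_a38735_al.WL

variable {G : Type*} [Group G] {W : ℤ → G} {n Q L j i k j' i' k' a b g a' b' g' : ℤ}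

theorem Pr2.of (e : (b = j ∧ b + g = k) ∨ (b = k ∧ b + g = j) ∨ (b = j' ∧ b + g = k') ∨
    (b = k' ∧ b + g = j')) : Pr2 W b g j k j' k' := by
  rcases e with ⟨rfl, rfl⟩ | ⟨rfl, rfl⟩ | ⟨rfl, rfl⟩ | ⟨rfl, rfl⟩
  exacts [.inl (.inl ⟨rfl, rfl⟩), .inl (.inr ⟨rfl, rfl⟩), .inr (.inl ⟨rfl, rfl⟩),
    .inr (.inr ⟨rfl, rfl⟩)]

theorem L2.bb (h : L2 W n L j i k j' i' k') (al : AL W n Q) (X : Par W a b g) (ab : a ≤ b)
    (z : Pr2 W b g j k j' k') : L + (b - a) + 3 ≤ n :=
  by_contra fun _ => h.bef al a b g (by omega) X z

theorem L2.aa (h : L2 W n L j i k j' i' k') (al : AL W n Q) (X : Par W a b g) (ab : a ≤ b)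
    (z : Pr2 W (a - 1) g i k i' k') : L + (b - a) + 3 ≤ n :=
  by_contra fun _ => h.aft al a b g (by omega) X z

theorem L2.tt (h : L2 W n L j i k j' i' k') (al : AL W n Q) (X : Par W a b g) (Y : Par W a' b' g')
    (e : a ≤ b ∧ a' ≤ b' ∧ ((a = 0 ∧ b' = n) ∨ (a = Q ∧ b' = Q)))
    (z : Pr2 W b g j k j' k') (z' : Pr2 W (a' - 1) g' i k i' k') :
    L + (b - a) + (b' - a') + 3 ≤ n := by
  by_contra c
  rcases e with ⟨e1, e2, e | e⟩
  exacts [h.two al 0 1 a b g a' b' g' (by omega) X Y z z',
    h.two al 0 0 a b g a' b' g' (by omega) X Y z z']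

theorem Par.od (X : Par W a b g) (hp : ∀ s t, W s = W t → (s - t) % 2 = 0) (e : g % 2 = 1) :
    b ≤ a := by
  by_contra c
  have := hp _ _ (X a le_rfl (by omega))
  omega

theorem Leaf.mk3 {l p q : ℤ} (lf : Leaf W n Q i j k l p q Q n) (q0 : 0 < Q) : Mk3 W n Q j i k := by
  obtain ⟨i0, ij, jQ, Qk, kn, nd, a1, a2, s1, s2, b, rfl, lk⟩ := lf
  exact ⟨⟨0, Q, Q, n, Or.inl ⟨rfl, rfl, rfl, rfl⟩, by omega, Or.inl a1, Or.inl s1,
    Or.inl fun t h1 h2 => b t h1 (by omega)⟩, nd⟩

/-- the odd case of `StL3x`, with all strips at the last triangle marked -/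
theorem o3 {N l m c d : ℤ} (hp : ∀ s t, W s = W t → (s - t) % 2 = 0)
    (hy : 0 ≤ i ∧ 0 ≤ a ∧ i + 2*a + 1 ≤ Q ∧ Q ≤ i + 2*a + 2*b ∧ i + 2*a + 2*b + 1 ≤ 2*N ∧
      0 ≤ i + l + 2*c + 1 ∧ i + l + 2*c + 2 ≤ Q ∧ Q ≤ i + l + 1 ∧ i + 2*a + 2*b + l + 2 ≤ 2*N ∧
      Q + m ≤ 2*N + i + l + 2*c ∧ i + l + 2*c + 1 ≤ m ∧ Q ≤ i + l + m + 2 ∧ i + l + m + 3 ≤ 2*N ∧
      m ≤ 2*N + i + l + 2*c + 2*d ∧ 2*N + i + l + 2*c + 2*d + 1 ≤ Q + m)
    (al : AL W (2*N) Q)
    (a1 : Par W (0) (i + 2*a) (2*b))
    (a2 : Par W (Q - 2*b) (i + 2*a) (2*b))
    (s1 : Ant W (0) (i) (2*i + 2*a))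
    (s2 : Ant W (i + 2*a + 1) (Q) (2*i + 2*a))
    (bb : Par W (i + 1) (i + l + 1) (2*a + 2*b))
    (c1 : Par W (i + l + 2*c + 2) (Q) (2*a + 2*b - 2*c))
    (c2 : Par W (i + 2*a + 2*b + l + 2) (2*N) (-2*a - 2*b + 2*c))
    (S2 : Ant W (i + l - m + 2*c + 1) (i + l + 2*c + 1) (2*i + 2*l + 2*c + 2))
    (d1 : Par W (i + l + m + 3) (2*N) (2*N - 2*m + 2*c + 2*d - 2))
    (d2 : Par W (2*N + i + l - m + 2*c + 2*d + 1) (Q) (-2*N + 2*m - 2*c - 2*d + 2))
    (n1 : Nd W (i + 2*a) (i) (i + 2*a + 2*b))
    (n2 : Nd W (i + l + 1) (i + l + 2*c + 1) (i + 2*a + 2*b + l + 1))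
    (n3 : Nd W (2*N + i + l - m + 2*c) (i + l + m + 2) (2*N + i + l - m + 2*c + 2*d))
    (d3 : Par W Q (2*N + i + l - m + 2*c) (2*d) ∨ Par W 0 (2*N + i + l - m + 2*c + 2*d) (-2*d)) : False := by
  have lf : Leaf W (2*N) Q i (i + 2*a) (i + 2*a + 2*b) l (i + l + 1) (i + 2*a + 2*b + l + 1) Q (2*N) :=
    ⟨by clear * - hy; omega, by clear * - hy; omega, by clear * - hy; omega, by clear * - hy; omega, by clear * - hy; omega, n1,
      a1.cg (by clear * -; omega), a2.cg (by clear * -; omega), s1.cg (by clear * -; omega), s2.cg (by clear * -; omega),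
      bb.cg (by clear * -; omega), (by clear * -; omega), Or.inl (by clear * - hy; omega)⟩
  obtain ⟨L, X⟩ := al.l2 (by clear * - hy; omega) (lf.mk3 al.q0)
    ⟨⟨Q, 2*N, 0, Q, Or.inr ⟨rfl, rfl, rfl, rfl⟩, by clear * - hy; omega,
      d3.imp (·.cg (by clear * -; omega)) (·.cg (by clear * -; omega)), Or.inr fun t h1 h2 => by
      have := S2 (t - 2*N) (by clear * - h1; omega) (by clear * - hy h2; omega)
      rw [← al.per (t - 2*N), sub_add_cancel] at this
      rw [← this]; congr 1; ring, Or.inl (d1.cg (by clear * -; omega))⟩, n3⟩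
  have a2' : Par W Q (i + 2*a + 2*b) (-2*b) := a2.fl (by clear * -; omega)
  have bQ : Par W (i + 1) Q (2*a + 2*b) := fun t h1 h2 => bb t h1 (by clear * - hy h2; omega)
  have t1 := X.bb al a1 (by clear * - hy; omega) (.of (by clear * -; omega))
  have t2 := X.bb al a2' (by clear * - hy; omega) (.of (by clear * -; omega))
  have t3 := X.aa al bb (by clear * - hy; omega) (.of (by clear * -; omega))
  have t4 := X.tt al a2' bQ (by clear * - hy; omega) (.of (by clear * -; omega)) (.of (by clear * -; omega))
  have t6 := X.aa al (d1.sh al (a' := i + l + m + 3) (b' := 2*N) (g' := 2*N - 2*m + 2*c + 2*d - 2) 0 0 (by clear * -; omega)) (by clear * - hy; omega) (.of (by clear * -; omega))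
  have t7 := X.aa al d2 (by clear * - hy; omega) (.of (by clear * -; omega))
  have u0 := X.l0
  have u1 := X.mx2 a1 (by clear * - hy; omega)
  have u2 := X.mx2 a2 (by clear * - hy; omega)
  have u3 := X.mx2 bb (by clear * - hy; omega)
  have u4 := X.mx2 c1 (by clear * - hy; omega)
  have u5 := X.mx2 c2 (by clear * - hy; omega)
  have u6 := X.mx2 d1 (by clear * - hy; omega)
  have u7 := X.mx2 d2 (by clear * - hy; omega)
  rcases d3 with d3 | d3
  · have t5 := X.bb al d3 (by clear * - hy; omega) (.of (by clear * -; omega))
    have t8 := X.tt al d3 d2 (by clear * - hy; omega) (.of (by clear * -; omega)) (.of (by clear * -; omega))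
    have u8 := X.mx2 d3 (by clear * - hy; omega)
    exact E21.main ⟨al, a1, a2, s1, s2, bb, c1, c2, S2, d1, d2, d3, n1, n2, n3, X⟩
      ⟨by clear * - hy; omega, by clear * - hy; omega, by clear * - hy; omega,
      by clear * - hy; omega, by clear * - hy; omega, by clear * - hy; omega,
      by clear * - hy; omega, by clear * - hy; omega, by clear * - hy; omega,
      by clear * - hy; omega, by clear * - hy; omega, by clear * - hy; omega,
      by clear * - hy; omega, by clear * - hy; omega, by clear * - hy; omega,
      by clear * - t1; omega, by clear * - t2; omega, by clear * - t3; omega,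
      by clear * - t4; omega, by clear * - t5; omega, by clear * - t6; omega,
      by clear * - t7; omega, by clear * - t8; omega, by clear * - u0; omega,
      by clear * - u1; omega, by clear * - u2; omega, by clear * - u3; omega,
      by clear * - u4; omega, by clear * - u5; omega, by clear * - u6; omega,
      by clear * - u7; omega, by clear * - u8; omega⟩
  have t5 := X.bb al d3 (by clear * - hy; omega) (.of (by clear * -; omega))
  have t8 := X.tt al d3 d1 (by clear * - hy; omega) (.of (by clear * -; omega)) (.of (by clear * -; omega))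
  have t9 := X.tt al a1 d1 (by clear * - hy; omega) (.of (by clear * -; omega)) (.of (by clear * -; omega))
  have t10 := X.tt al a2' d2 (by clear * - hy; omega) (.of (by clear * -; omega)) (.of (by clear * -; omega))
  have u8 := X.mx2 d3 (by clear * - hy; omega)
  have d1' : Par W (2*N + i + l - m + 2*c + 2*d + 1) (4*N - 2*m + 2*c + 2*d - 2)
    (-2*N + 2*m - 2*c - 2*d + 2) := d1.fl (by clear * -; omega)
  have g1 := X.ll al (by clear * - hy; omega) (by clear * - hy; omega) bb d1' (.of (by clear * -; omega)) (.of (by clear * -; omega))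
  have g2 := X.ll al (by clear * - hy; omega) (by clear * - hy; omega) bb d2 (.of (by clear * -; omega)) (.of (by clear * -; omega))
  obtain ⟨m, rfl | rfl⟩ : ∃ m', m = l + 2 * m' + 1 ∨ m = l + 2 * m' :=
    ⟨(m - l) / 2, (by clear * -; omega)⟩
  · have v1 := g1.od hp (by clear * -; omega)
    have v2 := g2.od hp (by clear * -; omega)
    have v3 := (X.rr al (by clear * - hy; omega) (by clear * - hy; omega) a1 d3 (.of (by clear * -; omega)) (.of (by clear * -; omega))).od hp (by clear * -; omega)
    have v4 := (X.rr al (by clear * - hy; omega) (by clear * - hy; omega) a2 d3 (.of (by clear * -; omega)) (.of (by clear * -; omega))).od hp (by clear * -; omega)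
    exact E22o.main (N := N) (Q := Q) (i := i) (a := a) (b := b) (l := l) (m := m) (c := c) (d := d) (L := L) ⟨al, a1, a2, s1, s2, bb, c1, c2, S2.cg (by clear * -; omega), d1.cg (by clear * -; omega),
      d2.cg (by clear * -; omega), d3.cg (by clear * -; omega), n1, n2, n3.cg (by clear * -; omega), X.cg (by clear * -; omega)⟩
      ⟨by clear * - hy; omega, by clear * - hy; omega, by clear * - hy; omega,
      by clear * - hy; omega, by clear * - hy; omega, by clear * - hy; omega,
      by clear * - hy; omega, by clear * - hy; omega, by clear * - hy; omega,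
      by clear * - hy; omega, by clear * - hy; omega, by clear * - hy; omega,
      by clear * - hy; omega, by clear * - hy; omega, by clear * - hy; omega,
      by clear * - t1; omega, by clear * - t2; omega, by clear * - t3; omega,
      by clear * - t4; omega, by clear * - t5; omega, by clear * - t6; omega,
      by clear * - t7; omega, by clear * - t8; omega, by clear * - u0; omega,
      by clear * - u1; omega, by clear * - u2; omega, by clear * - u3; omega,
      by clear * - u4; omega, by clear * - u5; omega, by clear * - u6; omega,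
      by clear * - u7; omega, by clear * - u8; omega, by clear * - v1; omega,
      by clear * - v2; omega, by clear * - v3; omega, by clear * - v4; omega,
      by clear * - t9; omega, by clear * - t10; omega⟩
  rcases lt_trichotomy (N + c + d) m with z | z | z
  · exact E22a.main (N := N) (Q := Q) (i := i) (a := a) (b := b) (l := l) (m := m) (c := c) (d := d) (L := L) ⟨al, a1, a2, s1, s2, bb, c1, c2, S2.cg (by clear * -; omega), d1.cg (by clear * -; omega),
      d2.cg (by clear * -; omega), d3.cg (by clear * -; omega), g1.cg (by clear * -; omega), g2.cg (by clear * -; omega), n1, n2, n3.cg (by clear * -; omega), X.cg (by clear * -; omega)⟩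
      ⟨by clear * - hy; omega, by clear * - hy; omega, by clear * - hy; omega,
      by clear * - hy; omega, by clear * - hy; omega, by clear * - hy; omega,
      by clear * - hy; omega, by clear * - hy; omega, by clear * - hy; omega,
      by clear * - hy; omega, by clear * - hy; omega, by clear * - hy; omega,
      by clear * - hy; omega, by clear * - hy; omega, by clear * - hy; omega,
      by clear * - t1; omega, by clear * - t2; omega, by clear * - t3; omega,
      by clear * - t4; omega, by clear * - t5; omega, by clear * - t6; omega,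
      by clear * - t7; omega, by clear * - t8; omega, by clear * - u0; omega,
      by clear * - u1; omega, by clear * - u2; omega, by clear * - u3; omega,
      by clear * - u4; omega, by clear * - u5; omega, by clear * - u6; omega,
      by clear * - u7; omega, by clear * - u8; omega, by clear * - z; omega,
      by clear * - t9; omega, by clear * - t10; omega⟩
  swap
  · exact E22b.main (N := N) (Q := Q) (i := i) (a := a) (b := b) (l := l) (m := m) (c := c) (d := d) (L := L) ⟨al, a1, a2, s1, s2, bb, c1, c2, S2.cg (by clear * -; omega), d1.cg (by clear * -; omega),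
      d2.cg (by clear * -; omega), d3.cg (by clear * -; omega), g1.cg (by clear * -; omega), g2.cg (by clear * -; omega), n1, n2, n3.cg (by clear * -; omega), X.cg (by clear * -; omega)⟩
      ⟨by clear * - hy; omega, by clear * - hy; omega, by clear * - hy; omega,
      by clear * - hy; omega, by clear * - hy; omega, by clear * - hy; omega,
      by clear * - hy; omega, by clear * - hy; omega, by clear * - hy; omega,
      by clear * - hy; omega, by clear * - hy; omega, by clear * - hy; omega,
      by clear * - hy; omega, by clear * - hy; omega, by clear * - hy; omega,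
      by clear * - t1; omega, by clear * - t2; omega, by clear * - t3; omega,
      by clear * - t4; omega, by clear * - t5; omega, by clear * - t6; omega,
      by clear * - t7; omega, by clear * - t8; omega, by clear * - u0; omega,
      by clear * - u1; omega, by clear * - u2; omega, by clear * - u3; omega,
      by clear * - u4; omega, by clear * - u5; omega, by clear * - u6; omega,
      by clear * - u7; omega, by clear * - u8; omega, by clear * - z; omega,
      by clear * - t9; omega, by clear * - t10; omega⟩
  obtain rfl : d = m - N - c := by clear * - z; omega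
  clear g1 g2 d1' z
  have Y : E22c.C W N Q i a b l m c 0 L := ⟨al, a1, a2, s1, s2, bb, c1, c2, S2.cg (by clear * -; omega),
    d1.cg (by clear * -; omega), d2.cg (by clear * -; omega), d3.cg (by clear * -; omega), n1, n2, n3.cg (by clear * -; omega), X.cg (by clear * -; omega)⟩
  rcases lt_trichotomy N (b + l + m + 1) with z | z | z
  · exact E22c.main Y
      ⟨by clear * - hy; omega, by clear * - hy; omega, by clear * - hy; omega,
      by clear * - hy; omega, by clear * - hy; omega, by clear * - hy; omega,
      by clear * - hy; omega, by clear * - hy; omega, by clear * - hy; omega,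
      by clear * - hy; omega, by clear * - hy; omega, by clear * - hy; omega,
      by clear * - hy; omega, by clear * - hy; omega, by clear * - hy; omega,
      by clear * - hy; omega, by clear * - t1; omega, by clear * - t2; omega,
      by clear * - t3; omega, by clear * - t4; omega, by clear * - t5; omega,
      by clear * - t6; omega, by clear * - t7; omega, by clear * - t8; omega,
      by clear * - u0; omega, by clear * - u1; omega, by clear * - u2; omega,
      by clear * - u3; omega, by clear * - u4; omega, by clear * - u5; omega,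
      by clear * - u6; omega, by clear * - u7; omega, by clear * - u8; omega,
      by clear * - z; omega, by clear * - t9; omega⟩
  · exact ad15 (m := l + 2 * m) al lf n2 (S2.cg (by clear * -; omega)) (by clear * - hy; omega) n3 (d1.cg (by clear * -; omega))
      (by clear * - z; omega)
  obtain ⟨y1, y2, y3, y4, y5, y6, y7, y8, y9, y10, y11, y12, y13, y14, y15, y16⟩ := Y
  by_cases z1 : 2 * N ≤ i + 3 * l + 4 * m + 3
  · exact E22d.main (N := N) (Q := Q) (i := i) (a := a) (b := b) (l := l) (m := m) (c := c) (d := 0) (L := L) ⟨y1, y2, y3, y4, y5, y6, y7, y8, y9, y10, y11, y12, y13, y14, y15, y16⟩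
      ⟨by clear * - hy; omega, by clear * - hy; omega, by clear * - hy; omega,
      by clear * - hy; omega, by clear * - hy; omega, by clear * - hy; omega,
      by clear * - hy; omega, by clear * - hy; omega, by clear * - hy; omega,
      by clear * - hy; omega, by clear * - hy; omega, by clear * - hy; omega,
      by clear * - hy; omega, by clear * - hy; omega, by clear * - hy; omega,
      by clear * - hy; omega, by clear * - t1; omega, by clear * - t2; omega,
      by clear * - t3; omega, by clear * - t4; omega, by clear * - t5; omega,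
      by clear * - t6; omega, by clear * - t7; omega, by clear * - t8; omega,
      by clear * - u0; omega, by clear * - u1; omega, by clear * - u2; omega,
      by clear * - u3; omega, by clear * - u4; omega, by clear * - u5; omega,
      by clear * - u6; omega, by clear * - u7; omega, by clear * - u8; omega,
      by clear * - z1; omega, by clear * - z; omega, by clear * - t9; omega⟩
  by_cases z2 : 2 * N ≤ i + 2 * a + 2 * b + 2 * l + 2 * m + 2
  · exact E22e.main (N := N) (Q := Q) (i := i) (a := a) (b := b) (l := l) (m := m) (c := c) (d := 0) (L := L) ⟨y1, y2, y3, y4, y5, y6, y7, y8, y9, y10, y11, y12, y13, y14, y15, y16⟩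
      ⟨by clear * - hy; omega, by clear * - hy; omega, by clear * - hy; omega,
      by clear * - hy; omega, by clear * - hy; omega, by clear * - hy; omega,
      by clear * - hy; omega, by clear * - hy; omega, by clear * - hy; omega,
      by clear * - hy; omega, by clear * - hy; omega, by clear * - hy; omega,
      by clear * - hy; omega, by clear * - hy; omega, by clear * - hy; omega,
      by clear * - hy; omega, by clear * - t1; omega, by clear * - t2; omega,
      by clear * - t3; omega, by clear * - t4; omega, by clear * - t5; omega,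
      by clear * - t6; omega, by clear * - t7; omega, by clear * - t8; omega,
      by clear * - u0; omega, by clear * - u1; omega, by clear * - u2; omega,
      by clear * - u3; omega, by clear * - u4; omega, by clear * - u5; omega,
      by clear * - u6; omega, by clear * - u7; omega, by clear * - u8; omega,
      by clear * - z1; omega, by clear * - z2; omega, by clear * - z; omega,
      by clear * - t9; omega⟩
  obtain ⟨V, per, hV⟩ := exV (W := W) (i := i) (e := 2 * l + 2 * m + 2) (n := 2 * N) (by clear * - hy; omega)
    (y10.cg (by clear * -; omega))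
  obtain ⟨U, U', hU, r1, r2⟩ := rz (h := 2 * a + 2 * b) (p := i + l + 1) (m := l + 2 * m) per (by clear * - hy; omega)
    (fun t h1 h2 => by
      clear * - hy h1 h2 y6 hV per
      have := y6 (t - (2 * l + 2 * m + 2)) (by omega) (by omega)
      rw [← hV _ (by omega) (by omega), ← hV _ (by omega) (by omega), ← per, ← per (t - _),
        sub_add_cancel] at this
      rw [← this]; congr 1; ring)
    (by
      clear * - hy hV n2
      rw [hV _ (by omega) (by omega), hV _ (by omega) (by omega)]
      convert n2.yz using 2; ring)
  by_cases z3 : i + 2 * a + 2 * b ≤ Q + l + 2 * m <;> by_cases z4 : l + 2 * c + 1 ≤ 2 * a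
  · exact E22f.main (N := N) (Q := Q) (i := i) (a := a) (b := b) (l := l) (m := m) (c := c) (d := 0) (L := L) ⟨y1, y2, y3, y4, y5, y6, y7, y8, y9, y10, y11, y12, y13, y14, y15, y16⟩
      ⟨by clear * - hy; omega, by clear * - hy; omega, by clear * - hy; omega,
      by clear * - hy; omega, by clear * - hy; omega, by clear * - hy; omega,
      by clear * - hy; omega, by clear * - hy; omega, by clear * - hy; omega,
      by clear * - hy; omega, by clear * - hy; omega, by clear * - hy; omega,
      by clear * - hy; omega, by clear * - hy; omega, by clear * - hy; omega,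
      by clear * - hy; omega, by clear * - t1; omega, by clear * - t2; omega,
      by clear * - t3; omega, by clear * - t4; omega, by clear * - t5; omega,
      by clear * - t6; omega, by clear * - t7; omega, by clear * - t8; omega,
      by clear * - u0; omega, by clear * - u1; omega, by clear * - u2; omega,
      by clear * - u3; omega, by clear * - u4; omega, by clear * - u5; omega,
      by clear * - u6; omega, by clear * - u7; omega, by clear * - u8; omega,
      by clear * - z1; omega, by clear * - z2; omega, by clear * - z3; omega,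
      by clear * - z4; omega, by clear * - z; omega, by clear * - t9; omega⟩
  · refine E22g.main0 (N := N) (Q := Q) (i := i) (a := a) (b := b) (l := l) (m := m) (c := c) (d := 0) (L := L) (U := U) (V := U') ⟨y1, y2, y3, y4, y5, y6, y7, y8, y9, y10, y11, y12,
      fun t h1 h2 => ?_, fun t h1 h2 => ?_, fun t h1 h2 => ?_, y13, y14, y15, y16⟩
      ⟨by clear * - hy hU z4; omega, by clear * - hy hU z4; omega, by clear * - hy hU z4; omega,
      by clear * - hy hU z4; omega, by clear * - hy hU z4; omega, by clear * - hy hU z4; omega,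
      by clear * - hy hU z4; omega, by clear * - hy hU z4; omega, by clear * - hy hU z4; omega,
      by clear * - hy hU z4; omega, by clear * - hy hU z4; omega, by clear * - hy hU z4; omega,
      by clear * - hy hU z4; omega, by clear * - hy hU z4; omega, by clear * - hy hU z4; omega,
      by clear * - hy hU z4; omega, by clear * - t1; omega, by clear * - t2; omega,
      by clear * - t3; omega, by clear * - t4; omega, by clear * - t5; omega,
      by clear * - t6; omega, by clear * - t7; omega, by clear * - t8; omega,
      by clear * - u0; omega, by clear * - u1; omega, by clear * - u2; omega,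
      by clear * - u3; omega, by clear * - u4; omega, by clear * - u5; omega,
      by clear * - u6; omega, by clear * - u7; omega, by clear * - u8; omega,
      by clear * - z1; omega, by clear * - z3; omega, by clear * - z2; omega,
      by clear * - hy hU z4; omega, by clear * - z4; omega, by clear * - hy hU z4; omega,
      by clear * - hy hU z4; omega, by clear * - hy hU z4; omega, by clear * - hy hU z4; omega,
      by clear * - hy hU z4; omega, by clear * - hy hU z4; omega, by clear * - z; omega,
      by clear * - t9; omega⟩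
    all_goals clear * - hy hU z1 z2 h1 h2 hV per r1 r2 y6
    · rw [← hV _ (by omega) (by omega), ← hV t (by omega) (by omega)]
      convert r1 (t - (i + 2*a + 2*b + l + 1)) (by omega) (by omega) using 2 <;> ring
    · rw [← hV _ (by omega) (by omega), ← hV t (by omega) (by omega)]
      convert r2 (t - (i + 2*a + 2*b + l + 1)) (by omega) (by omega) using 2 <;> ring
    · rw [← y6 t h1 (by omega), ← hV _ (by omega) (by omega), ← hV (t + _) (by omega) (by omega),
        ← per (t + (2 * a + 2 * b))]
      convert r2 (t + l + 2*m + 1 - i) (by omega) (by omega) using 2 <;> ring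
  · refine E22h.main0 (N := N) (Q := Q) (i := i) (a := a) (b := b) (l := l) (m := m) (c := c) (d := 0) (L := L) (U := U) (V := U') ⟨y1, y2, y3, y4, y5, y6, y7, y8, y9, y10, y11, y12,
      fun t h1 h2 => ?_, fun t h1 h2 => ?_, y13, y14, y15, y16⟩
      ⟨by clear * - hy hU; omega, by clear * - hy hU; omega, by clear * - hy hU; omega,
      by clear * - hy hU; omega, by clear * - hy hU; omega, by clear * - hy hU; omega,
      by clear * - hy hU; omega, by clear * - hy hU; omega, by clear * - hy hU; omega,
      by clear * - hy hU; omega, by clear * - hy hU; omega, by clear * - hy hU; omega,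
      by clear * - hy hU; omega, by clear * - hy hU; omega, by clear * - hy hU; omega,
      by clear * - hy hU; omega, by clear * - t1; omega, by clear * - t2; omega,
      by clear * - t3; omega, by clear * - t4; omega, by clear * - t5; omega,
      by clear * - t6; omega, by clear * - t7; omega, by clear * - t8; omega,
      by clear * - u0; omega, by clear * - u1; omega, by clear * - u2; omega,
      by clear * - u3; omega, by clear * - u4; omega, by clear * - u5; omega,
      by clear * - u6; omega, by clear * - u7; omega, by clear * - u8; omega,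
      by clear * - z1; omega, by clear * - z3; omega, by clear * - z2; omega,
      by clear * - z4; omega, by clear * - hy hU; omega, by clear * - hy hU; omega,
      by clear * - hy hU; omega, by clear * - hy hU; omega, by clear * - hy hU; omega,
      by clear * - hy hU; omega, by clear * - z; omega, by clear * - t9; omega⟩
    all_goals clear * - hy hU z1 z2 z3 h1 h2 hV per r1 r2
    · rw [← hV _ (by omega) (by omega), ← hV t (by omega) (by omega), ← per t]
      convert r1 (t + l + 2*m + 1 - i - 2*a - 2*b) (by omega) (by omega) using 2 <;> ring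
    · rw [← hV _ (by omega) (by omega), ← hV t (by omega) (by omega), ← per t]
      convert r2 (t + l + 2*m + 1 - i - 2*a - 2*b) (by omega) (by omega) using 2 <;> ring
  · exact tl22 (m := l + 2 * m) (n := 2 * N) al.ninv n1 n2 (by clear * - hy z2 z3 z4; omega)
      (fun t h1 h2 => (a2.cg (a' := Q - 2*b) (b' := i + 2*a) (g' := i + 2*a + 2*b - (i + 2*a)) (by clear * -; omega)) t (by clear * - h1 z3; omega) h2)
      (bb.cg (by clear * -; omega)) (c2.cg (by clear * -; omega)) (y9.cg (by clear * -; omega)) (y10.cg (by clear * -; omega))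

theorem stL3o {l p q i2 m i3 j3 k3 : ℤ} (hp : ∀ s t, W s = W t → (s - t) % 2 = 0)
    (al : AL W n Q) (lf : Leaf W n Q i j k l p q Q n)
    (H : 0 ≤ i2 ∧ i2 < Q ∧ j3 = i2 - m - 1 + n ∧ i3 = p + m + 1 ∧ Q ≤ j3 ∧ j3 < n ∧ Q ≤ i3 ∧
      i3 < n ∧ 0 ≤ k3 ∧ k3 < Q) (n2 : Nd W p i2 q) (c1 : Par W (i2 + 1) Q (q - i2))
    (c2 : Par W (q + 1) n (i2 - q)) (S : Ant W (i2 - m) i2 (i2 + p)) (n3 : Nd W j3 i3 k3)
    (d1 : Par W (i3 + 1) n (k3 - i3)) (d2 : Par W (k3 + 1) Q (i3 - k3))
    (d3 : Par W Q j3 (k3 - j3) ∨ Par W 0 k3 (j3 - k3)) : False := by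
  obtain ⟨i0, ij, jQ, Qk, kn, n1, a1, a2, s1, s2, bb, hp', lk⟩ := lf
  have q0 := al.q0
  have lk : q = k + 1 + l ∧ Q ≤ p ∧ q < n := by omega
  have ev := al.ev
  have p1 := n1.p1
  have p2 := n1.p2
  have p3 := n2.p1
  have p4 := n3.p2
  obtain ⟨N, rfl⟩ : ∃ N, n = 2 * N := ⟨n / 2, by omega⟩
  obtain ⟨a, rfl⟩ : ∃ a, j = i + 2 * a := ⟨(j - i) / 2, by omega⟩
  obtain ⟨b, rfl⟩ : ∃ b, k = i + 2 * a + 2 * b := ⟨(k - i) / 2 - a, by omega⟩
  obtain ⟨c, rfl⟩ : ∃ c, i2 = i + l + 2 * c + 1 := ⟨(i2 - p) / 2, by omega⟩
  obtain ⟨d, rfl⟩ : ∃ d, k3 = j3 + 2 * d := ⟨(k3 - j3) / 2, by omega⟩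
  clear p1 p2 p3 p4 ev
  obtain ⟨h1, h2, rfl, rfl, H⟩ := H
  obtain ⟨rfl, lk⟩ := lk
  subst hp'
  exact o3 (l := l) (m := m) (c := c) (d := d) hp (by omega) al (a1.cg (by clear * -; omega)) (a2.cg (by clear * -; omega))
    (s1.cg (by clear * -; omega)) (s2.cg (by clear * -; omega)) (bb.cg (by clear * -; omega)) (c1.cg (by clear * -; omega)) (c2.cg (by clear * -; omega)) (S.cg (by clear * -; omega))
    (d1.cg (by clear * -; omega)) (d2.cg (by clear * -; omega)) n1 (n2.cg (by clear * -; omega)) (n3.cg (by clear * -; omega)) (d3.imp (·.cg (by clear * -; omega)) (·.cg (by clear * -; omega)))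

end Pool.Agent.MP_a38735_al.WL
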