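import Pool.Agent.MP_a38735_al.E31
import Pool.Agent.MP_a38735_al.E32
import Pool.Agent.MP_a38735_al.E33
import Pool.Agent.MP_a38735_al.E340
import Pool.Agent.MP_a38735_al.E341
import Pool.Agent.MP_a38735_al.E342
import Pool.Agent.MP_a38735_al.E343
import Pool.Agent.MP_a38735_al.StL3o

set_option autoImplicit false
set_option linter.unusedSectionVars false
set_option linter.unusedVariables false

namespace Pool.Agent.MP_a38735_al.WL

variable {G : Type*} [Group G] {W : ℤ → G} {N Q i a b l m c d L U V : ℤ}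

section
variable (hy : 0 ≤ i ∧ 0 ≤ a ∧ i + 2*a + 1 ≤ Q ∧ Q ≤ i + 2*a + 2*b ∧ i + 2*a + 2*b + 1 ≤ 2*N ∧ 0 ≤ i + l + 2*c + 1 ∧ i + l + 2*c + 2 ≤ Q ∧ Q ≤ i + l + 1 ∧ i + 2*a + 2*b + l + 2 ≤ 2*N ∧ Q + m ≤ 2*N + i + l + 2*c ∧ i + l + 2*c + 1 ≤ m ∧ Q ≤ i + l + m + 2 ∧ i + l + m + 3 ≤ 2*N ∧ Q + m ≤ 2*N + i + l + 2*c + 2*d ∧ i + l + 2*c + 2*d + 1 ≤ m)
  (al : AL W (2*N) Q)
  (a1 : Par W (0) (i + 2*a) (2*b))
  (a2 : Par W (Q - 2*b) (i + 2*a) (2*b))
  (s1 : Ant W (0) (i) (2*i + 2*a))
  (s2 : Ant W (i + 2*a + 1) (Q) (2*i + 2*a))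
  (bb : Par W (i + 1) (i + l + 1) (2*a + 2*b))
  (c1 : Par W (i + l + 2*c + 2) (Q) (2*a + 2*b - 2*c))
  (c2 : Par W (i + 2*a + 2*b + l + 2) (2*N) (-2*a - 2*b + 2*c))
  (S2 : Ant W (i + l - m + 2*c + 1) (i + l + 2*c + 1) (2*i + 2*l + 2*c + 2))
  (d1 : Par W (Q) (2*N + i + l - m + 2*c + 2*d) (-2*d))
  (d2 : Par W (i + l + m + 3) (2*N) (2*N - 2*m + 2*c + 2*d - 2))
  (n1 : Nd W (i + 2*a) (i) (i + 2*a + 2*b))
  (n2 : Nd W (i + l + 1) (i + l + 2*c + 1) (i + 2*a + 2*b + l + 1))
  (n3 : Nd W (2*N + i + l - m + 2*c) (i + l + m + 2) (2*N + i + l - m + 2*c + 2*d))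
include hy al a1 a2 s1 s2 bb c1 c2 S2 d1 d2 n1 n2 n3

theorem ev_lf : Leaf W (2*N) Q i (i + 2*a) (i + 2*a + 2*b) l (i + l + 1) (i + 2*a + 2*b + l + 1) Q
    (2*N) :=
  ⟨by clear * - hy; omega, by clear * - hy; omega, by clear * - hy; omega, by clear * - hy; omega, by clear * - hy; omega, n1,
    a1.cg (by clear * -; omega), a2.cg (by clear * -; omega), s1.cg (by clear * -; omega), s2.cg (by clear * -; omega),
    bb.cg (by clear * -; omega), (by clear * -; omega), Or.inl (by clear * - hy; omega)⟩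

theorem ev_ne : 2*N - 2*m + 2*c + 2*d - 2 ≠ 0 := fun z => n3.xz (by congr 1; clear * - z; omega)

theorem ev_cm {j4 i4 k4 : ℤ} (X : L2 W (2*N) L (i + 2*a) i (i + 2*a + 2*b) j4 i4 k4) :
    i + 2*a + L + 3 ≤ 2*N ∧ i + 2*a + 2*b + L + 3 ≤ 2*N + Q ∧ l + L + 3 ≤ 2*N ∧ 2*a + 2*b + L + 2 ≤ 2*N ∧ 0 ≤ L ∧ i + 2*a ≤ L ∧ i + 2*a + 2*b ≤ Q + L ∧ l ≤ L ∧ Q ≤ i + l + 2*c + L + 2 ∧ 2*N ≤ i + 2*a + 2*b + l + L + 2 ∧ 2*N ≤ i + l + m + L + 3 := by
  have ne := ev_ne hy al a1 a2 s1 s2 bb c1 c2 S2 d1 d2 n1 n2 n3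
  have a2' : Par W Q (i + 2*a + 2*b) (-2*b) := a2.fl (by clear * -; omega)
  have bQ : Par W (i + 1) Q (2*a + 2*b) := fun t h1 h2 => bb t h1 (by clear * - hy h2; omega)
  have t1 := X.bb al a1 (by clear * - hy; omega) (.of (by clear * -; omega))
  have t2 := X.bb al a2' (by clear * - hy; omega) (.of (by clear * -; omega))
  have t3 := X.aa al bb (by clear * - hy; omega) (.of (by clear * -; omega))
  have t4 := X.tt al a2' bQ (by clear * - hy; omega) (.of (by clear * -; omega)) (.of (by clear * -; omega))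
  have u0 := X.l0
  have u1 := X.mx2 a1 (by clear * - hy; omega)
  have u2 := X.mx2 a2 (by clear * - hy; omega)
  have u3 := X.mx2 bb (by clear * - hy; omega)
  have u4 := X.mx2 c1 (by clear * - hy; omega)
  have u5 := X.mx2 c2 (by clear * - hy; omega)
  have u6 := X.mx2 d2 (by clear * - hy ne; omega)
  clear * - t1 t2 t3 t4 u0 u1 u2 u3 u4 u5 u6
  omega

theorem ev31 (hz : 0 ≤ U ∧ 0 ≤ V ∧ m + U + 1 ≤ 2*N + i + l + 2*c + 2*d ∧ 2*N + i + l + 2*c + 2*d + 2*V ≤ Q + m + U ∧ Q + m + U + 1 ≤ 2*N + i + l + 2*c ∧ i + l + 2*c ≤ m + U)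
    (t1 : Ant W (0) (2*N + i + l - m + 2*c + 2*d - U - 1) (4*N + 2*i + 2*l - 2*m + 4*c + 4*d - 2*U + 2*V - 2))
    (t2 : Ant W (2*N + i + l - m + 2*c + 2*d - U + 2*V) (Q) (4*N + 2*i + 2*l - 2*m + 4*c + 4*d - 2*U + 2*V - 2))
    (f1 : Par W (0) (2*N + i + l - m + 2*c + 2*d - U + 2*V - 1) (-2*d - 2*V))
    (f2 : Par W (Q) (2*N + i + l - m + 2*c - U - 1) (2*d + 2*V))
    (f3 : Par W (2*N + i + l - m + 2*c + 2*d - U) (2*N + i + l - m + 2*c + 2*d) (-2*d))
    (n4 : Nd W (2*N + i + l - m + 2*c + 2*d - U + 2*V - 1) (2*N + i + l - m + 2*c + 2*d - U - 1) (2*N + i + l - m + 2*c - U - 1)) : False := by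
  have fQ : Par W (2*N + i + l - m + 2*c + 2*d - U) Q (-2*d) := fun t h1 h2 => f3 t h1 (by clear * - hy h2; omega)
  obtain ⟨L, X⟩ := al.l2 (by clear * - hy; omega) ((ev_lf hy al a1 a2 s1 s2 bb c1 c2 S2 d1 d2 n1 n2 n3).mk3 al.q0)
    ⟨⟨0, Q, Q, 2*N, Or.inl ⟨rfl, rfl, rfl, rfl⟩, by clear * - hy hz; omega, Or.inl (f1.cg (by clear * -; omega)),
      Or.inl (t1.cg (by clear * -; omega)), Or.inl (fQ.cg (by clear * -; omega))⟩, n4⟩
  have hc := ev_cm hy al a1 a2 s1 s2 bb c1 c2 S2 d1 d2 n1 n2 n3 X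
  have ne := ev_ne hy al a1 a2 s1 s2 bb c1 c2 S2 d1 d2 n1 n2 n3
  have w1 := X.bb al f1 (by clear * - hy hz; omega) (.of (by clear * -; omega))
  have w2 := X.bb al f2 (by clear * - hy hz; omega) (.of (by clear * -; omega))
  have w3 := X.aa al f3 (by clear * - hy hz; omega) (.of (by clear * -; omega))
  have w4 := X.tt al f2 fQ (by clear * - hy hz; omega) (.of (by clear * -; omega)) (.of (by clear * -; omega))
  have w5 := X.mx2 f1 (by clear * - hy hz; omega)
  have w6 := X.mx2 f2 (by clear * - hy hz; omega)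
  have w7 := X.mx2 f3 (by clear * - hy hz; omega)
  exact E31.main (N := N) (Q := Q) (i := i) (a := a) (b := b) (l := l) (m := m) (c := c) (d := d) (L := L) (U := U) (V := V) ⟨al, a1, a2, s1, s2, bb, c1, c2, S2, d1, d2, t1, t2, f1, f2, f3, n1, n2, n3, n4, X⟩
    ⟨by clear * - hy; omega, by clear * - hy; omega, by clear * - hy; omega,
      by clear * - hy; omega, by clear * - hy; omega, by clear * - hy; omega,
      by clear * - hy; omega, by clear * - hy; omega, by clear * - hy; omega,
      by clear * - hy; omega, by clear * - hy; omega, by clear * - hy; omega,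
      by clear * - hy; omega, by clear * - hy; omega, by clear * - hy; omega,
      by clear * - hz; omega, by clear * - hz; omega, by clear * - hz; omega,
      by clear * - hz; omega, by clear * - hz; omega, by clear * - hz; omega,
      by clear * - hc; omega, by clear * - hc; omega, by clear * - hc; omega,
      by clear * - hc; omega, by clear * - w1; omega, by clear * - w2; omega,
      by clear * - w3; omega, by clear * - w4; omega, by clear * - hc; omega,
      by clear * - hc; omega, by clear * - hc; omega, by clear * - hc; omega,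
      by clear * - hc; omega, by clear * - hc; omega, by clear * - hc; omega,
      by clear * - w5; omega, by clear * - w6; omega, by clear * - w7; omega⟩

theorem ev32 (hz : 0 ≤ U ∧ 0 ≤ V ∧ Q + m + U + 1 ≤ 2*N + i + l + 2*c ∧ i + l + 2*c + 2*V ≤ m + U ∧ m + U + 1 ≤ 2*N + i + l + 2*c + 2*d ∧ 2*N + i + l + 2*c + 2*d ≤ Q + m + U)
    (t1 : Ant W (Q) (2*N + i + l - m + 2*c - U - 1) (4*N + 2*i + 2*l - 2*m + 4*c - 2*U + 2*V - 2))
    (t2 : Ant W (2*N + i + l - m + 2*c - U + 2*V) (2*N) (4*N + 2*i + 2*l - 2*m + 4*c - 2*U + 2*V - 2))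
    (f1 : Par W (Q) (2*N + i + l - m + 2*c - U + 2*V - 1) (2*d - 2*V))
    (f2 : Par W (0) (2*N + i + l - m + 2*c + 2*d - U - 1) (-2*d + 2*V))
    (f3 : Par W (2*N + i + l - m + 2*c - U) (2*N + i + l - m + 2*c) (2*d))
    (n4 : Nd W (2*N + i + l - m + 2*c - U + 2*V - 1) (2*N + i + l - m + 2*c - U - 1) (2*N + i + l - m + 2*c + 2*d - U - 1)) : False := by
  have fQ : Par W (2*N + i + l - m + 2*c + 2*d - U) Q (-2*d) := f3.fl (by clear * - hy; omega)
  obtain ⟨L, X⟩ := al.l2 (by clear * - hy; omega) ((ev_lf hy al a1 a2 s1 s2 bb c1 c2 S2 d1 d2 n1 n2 n3).mk3 al.q0)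
    ⟨⟨Q, 2*N, 0, Q, Or.inr ⟨rfl, rfl, rfl, rfl⟩, by clear * - hy hz; omega, Or.inl (f1.cg (by clear * -; omega)),
      Or.inl (t1.cg (by clear * -; omega)), Or.inr (fQ.cg (by clear * -; omega))⟩, n4⟩
  have hc := ev_cm hy al a1 a2 s1 s2 bb c1 c2 S2 d1 d2 n1 n2 n3 X
  have ne := ev_ne hy al a1 a2 s1 s2 bb c1 c2 S2 d1 d2 n1 n2 n3
  have w1 := X.bb al f1 (by clear * - hy hz; omega) (.of (by clear * -; omega))
  have w2 := X.bb al f2 (by clear * - hy hz; omega) (.of (by clear * -; omega))
  have w3 := X.aa al f3 (by clear * - hy hz; omega) (.of (by clear * -; omega))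
  have w4 := X.tt al f1 fQ (by clear * - hy hz; omega) (.of (by clear * -; omega)) (.of (by clear * -; omega))
  have w5 := X.mx2 f1 (by clear * - hy hz; omega)
  have w6 := X.mx2 f2 (by clear * - hy hz; omega)
  have w7 := X.mx2 f3 (by clear * - hy hz; omega)
  exact E32.main (N := N) (Q := Q) (i := i) (a := a) (b := b) (l := l) (m := m) (c := c) (d := d) (L := L) (U := U) (V := V) ⟨al, a1, a2, s1, s2, bb, c1, c2, S2, d1, d2, t1, t2, f1, f2, f3, n1, n2, n3, n4, X⟩
    ⟨by clear * - hy; omega, by clear * - hy; omega, by clear * - hy; omega,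
      by clear * - hy; omega, by clear * - hy; omega, by clear * - hy; omega,
      by clear * - hy; omega, by clear * - hy; omega, by clear * - hy; omega,
      by clear * - hy; omega, by clear * - hy; omega, by clear * - hy; omega,
      by clear * - hy; omega, by clear * - hy; omega, by clear * - hy; omega,
      by clear * - hz; omega, by clear * - hz; omega, by clear * - hz; omega,
      by clear * - hz; omega, by clear * - hz; omega, by clear * - hz; omega,
      by clear * - hc; omega, by clear * - hc; omega, by clear * - hc; omega,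
      by clear * - hc; omega, by clear * - w1; omega, by clear * - w2; omega,
      by clear * - w3; omega, by clear * - w4; omega, by clear * - hc; omega,
      by clear * - hc; omega, by clear * - hc; omega, by clear * - hc; omega,
      by clear * - hc; omega, by clear * - hc; omega, by clear * - hc; omega,
      by clear * - w5; omega, by clear * - w6; omega, by clear * - w7; omega⟩

theorem ev33 (hz : 0 ≤ U ∧ 0 ≤ V ∧ Q + m + 2*V ≤ 2*N + i + l + 2*c + 2*d + U + 1 ∧ i + l + 2*c + 2*d + U + 2 ≤ m ∧ 2*N ≤ i + l + m + U + 3 ∧ i + l + m + U + 4 ≤ 2*N + Q)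
    (t1 : Ant W (Q) (2*N + i + l - m + 2*c + 2*d + U - 2*V + 1) (4*N + 2*i + 2*l - 2*m + 4*c + 4*d + 2*U - 2*V + 2))
    (t2 : Ant W (2*N + i + l - m + 2*c + 2*d + U + 2) (2*N) (4*N + 2*i + 2*l - 2*m + 4*c + 4*d + 2*U - 2*V + 2))
    (f1 : Par W (2*N + i + l - m + 2*c + 2*d + U - 2*V + 2) (2*N) (-4*N + 2*m - 2*c - 2*d + 2*V + 2))
    (f2 : Par W (-2*N + i + l + m + U + 4) (Q) (4*N - 2*m + 2*c + 2*d - 2*V - 2))
    (f3 : Par W (i + l + m + 3) (i + l + m + U + 3) (2*N - 2*m + 2*c + 2*d - 2))
    (n4 : Nd W (2*N + i + l - m + 2*c + 2*d + U + 1) (2*N + i + l - m + 2*c + 2*d + U - 2*V + 1) (-2*N + i + l + m + U + 3)) : False := by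
  have fs : Par W (-2*N + i + l + m + 3) (-2*N + i + l + m + U + 3) (4*N - 2*m + 2*c + 2*d - 2) := f3.sh al 1 1 (by clear * -; omega)
  have f0 : Par W 0 (-2*N + i + l + m + U + 3) (4*N - 2*m + 2*c + 2*d - 2) := fun t h1 h2 => fs t (by clear * - hy h1; omega) h2
  obtain ⟨L, X⟩ := al.l2 (by clear * - hy; omega) ((ev_lf hy al a1 a2 s1 s2 bb c1 c2 S2 d1 d2 n1 n2 n3).mk3 al.q0)
    ⟨⟨Q, 2*N, 0, Q, Or.inr ⟨rfl, rfl, rfl, rfl⟩, by clear * - hy hz; omega, Or.inr (f0.cg (by clear * -; omega)),
      Or.inl (t1.cg (by clear * -; omega)), Or.inl (f1.cg (by clear * -; omega))⟩, n4⟩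
  have hc := ev_cm hy al a1 a2 s1 s2 bb c1 c2 S2 d1 d2 n1 n2 n3 X
  have ne := ev_ne hy al a1 a2 s1 s2 bb c1 c2 S2 d1 d2 n1 n2 n3
  have w1 := X.aa al f1 (by clear * - hy hz; omega) (.of (by clear * -; omega))
  have w2 := X.aa al f2 (by clear * - hy hz; omega) (.of (by clear * -; omega))
  have w3 := X.bb al fs (by clear * - hy hz; omega) (.of (by clear * -; omega))
  have w4 := X.tt al f0 f1 (by clear * - hy hz; omega) (.of (by clear * -; omega)) (.of (by clear * -; omega))
  have w5 := X.mx2 f1 (by clear * - hy hz; omega)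
  have w6 := X.mx2 f2 (by clear * - hy hz; omega)
  have w7 := X.mx2 f3 (by clear * - hy ne; omega)
  exact E33.main (N := N) (Q := Q) (i := i) (a := a) (b := b) (l := l) (m := m) (c := c) (d := d) (L := L) (U := U) (V := V) ⟨al, a1, a2, s1, s2, bb, c1, c2, S2, d1, d2, t1, t2, f1, f2, f3, n1, n2, n3, n4, X⟩
    ⟨by clear * - hy; omega, by clear * - hy; omega, by clear * - hy; omega,
      by clear * - hy; omega, by clear * - hy; omega, by clear * - hy; omega,
      by clear * - hy; omega, by clear * - hy; omega, by clear * - hy; omega,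
      by clear * - hy; omega, by clear * - hy; omega, by clear * - hy; omega,
      by clear * - hy; omega, by clear * - hy; omega, by clear * - hy; omega,
      by clear * - hz; omega, by clear * - hz; omega, by clear * - hz; omega,
      by clear * - hz; omega, by clear * - hz; omega, by clear * - hz; omega,
      by clear * - hc; omega, by clear * - hc; omega, by clear * - hc; omega,
      by clear * - hc; omega, by clear * - w1; omega, by clear * - w2; omega,
      by clear * - w3; omega, by clear * - w4; omega, by clear * - hc; omega,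
      by clear * - hc; omega, by clear * - hc; omega, by clear * - hc; omega,
      by clear * - hc; omega, by clear * - hc; omega, by clear * - hc; omega,
      by clear * - w5; omega, by clear * - w6; omega, by clear * - w7; omega⟩

theorem ev34e (hz : 0 ≤ l + m + 2*U + 1 ∧ 0 ≤ V ∧ 2*N + 2*V ≤ i + 2*l + 2*m + 2*U + 4 ∧ i + 2*l + 2*m + 2*U + 5 ≤ 2*N + Q ∧ Q ≤ 2*N + i + 2*l + 2*c + 2*d + 2*U + 2 ∧ i + 2*l + 2*c + 2*d + 2*U + 3 ≤ 0)
    (t1 : Ant W (0) (-2*N + i + 2*l + 2*m + 2*U - 2*V + 4) (-4*N + 2*i + 4*l + 4*m + 4*U - 2*V + 8))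
    (t2 : Ant W (-2*N + i + 2*l + 2*m + 2*U + 5) (Q) (-4*N + 2*i + 4*l + 4*m + 4*U - 2*V + 8))
    (f1 : Par W (-2*N + i + 2*l + 2*m + 2*U - 2*V + 5) (Q) (4*N - 2*m + 2*c + 2*d + 2*V - 2))
    (f2 : Par W (2*N + i + 2*l + 2*c + 2*d + 2*U + 3) (2*N) (-4*N + 2*m - 2*c - 2*d - 2*V + 2))
    (f3 : Par W (i + l + m + 3) (i + 2*l + 2*m + 2*U + 4) (2*N - 2*m + 2*c + 2*d - 2))
    (n4 : Nd W (-2*N + i + 2*l + 2*m + 2*U + 4) (-2*N + i + 2*l + 2*m + 2*U - 2*V + 4) (2*N + i + 2*l + 2*c + 2*d + 2*U + 2))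
    (hp : ∀ s t, W s = W t → (s - t) % 2 = 0) : False := by
  have fs : Par W (-2*N + i + l + m + 3) (-2*N + i + 2*l + 2*m + 2*U + 4) (4*N - 2*m + 2*c + 2*d - 2) := f3.sh al 1 1 (by clear * -; omega)
  have f0 : Par W 0 (-2*N + i + 2*l + 2*m + 2*U + 4) (4*N - 2*m + 2*c + 2*d - 2) := fun t h1 h2 => fs t (by clear * - hy h1; omega) h2
  have a2' : Par W Q (i + 2*a + 2*b) (-2*b) := a2.fl (by clear * -; omega)
  have f2' : Par W (-2*N + i + 2*l + 2*m + 2*U - 2*V + 5) (-2*N + 2*m - 2*c - 2*d - 2*V + 2) (4*N - 2*m + 2*c + 2*d + 2*V - 2) := f2.fl (by clear * -; omega)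
  obtain ⟨L, X⟩ := al.l2 (by clear * - hy; omega) ((ev_lf hy al a1 a2 s1 s2 bb c1 c2 S2 d1 d2 n1 n2 n3).mk3 al.q0)
    ⟨⟨0, Q, Q, 2*N, Or.inl ⟨rfl, rfl, rfl, rfl⟩, by clear * - hy hz; omega, Or.inl (f0.cg (by clear * -; omega)),
      Or.inl (t1.cg (by clear * -; omega)), Or.inl (f1.cg (by clear * -; omega))⟩, n4⟩
  have hc := ev_cm hy al a1 a2 s1 s2 bb c1 c2 S2 d1 d2 n1 n2 n3 X
  have ne := ev_ne hy al a1 a2 s1 s2 bb c1 c2 S2 d1 d2 n1 n2 n3
  have w1 := X.aa al f1 (by clear * - hy hz; omega) (.of (by clear * -; omega))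
  have w2 := X.aa al f2 (by clear * - hy hz; omega) (.of (by clear * -; omega))
  have w3 := X.bb al fs (by clear * - hy hz; omega) (.of (by clear * -; omega))
  have w4 := X.tt al f0 f2 (by clear * - hy hz; omega) (.of (by clear * -; omega)) (.of (by clear * -; omega))
  have w5 := X.mx2 f1 (by clear * - hy hz; omega)
  have w6 := X.mx2 f2 (by clear * - hy hz; omega)
  have w7 := X.mx2 f3 (by clear * - hy ne; omega)
  have w8 := X.tt al a1 f2 (by clear * - hy hz; omega) (.of (by clear * -; omega)) (.of (by clear * -; omega))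
  have w9 := X.tt al a2' f1 (by clear * - hy hz; omega) (.of (by clear * -; omega)) (.of (by clear * -; omega))
  have g1 := X.ll al (by clear * - hy; omega) (by clear * - hy hz; omega) bb f1 (.of (by clear * -; omega)) (.of (by clear * -; omega))
  have g2 := X.ll al (by clear * - hy; omega) (by clear * - hy hz; omega) bb f2' (.of (by clear * -; omega)) (.of (by clear * -; omega))
  have g3 := X.rr al (by clear * - hy; omega) (by clear * - hy hz; omega) a1 fs (.of (by clear * -; omega)) (.of (by clear * -; omega))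
  have g4 := X.rr al (by clear * - hy; omega) (by clear * - hy hz; omega) a2 fs (.of (by clear * -; omega)) (.of (by clear * -; omega))
  by_cases z : L + l + (l + m + 2*U + 1) + 3 ≤ 2*N
  · exact E340.main (N := N) (Q := Q) (i := i) (a := a) (b := b) (l := l) (m := m) (c := c) (d := d) (L := L) (U := U) (V := V)
      ⟨al, a1, a2, s1, s2, bb, c1, c2, S2, d1, d2, t1, t2, f1, f2, f3, g1.cg (by clear * -; omega), g2.cg (by clear * -; omega),
      g3.cg (by clear * -; omega), g4.cg (by clear * -; omega), n1, n2, n3, n4, X⟩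
      ⟨by clear * - hy; omega, by clear * - hy; omega, by clear * - hy; omega,
      by clear * - hy; omega, by clear * - hy; omega, by clear * - hy; omega,
      by clear * - hy; omega, by clear * - hy; omega, by clear * - hy; omega,
      by clear * - hy; omega, by clear * - hy; omega, by clear * - hy; omega,
      by clear * - hy; omega, by clear * - hy; omega, by clear * - hy; omega,
      by clear * - hz; omega, by clear * - hz; omega, by clear * - hz; omega,
      by clear * - hz; omega, by clear * - hz; omega, by clear * - hz; omega,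
      by clear * - hc; omega, by clear * - hc; omega, by clear * - hc; omega,
      by clear * - hc; omega, by clear * - w1; omega, by clear * - w2; omega,
      by clear * - w3; omega, by clear * - w4; omega, by clear * - hc; omega,
      by clear * - hc; omega, by clear * - hc; omega, by clear * - hc; omega,
      by clear * - hc; omega, by clear * - hc; omega, by clear * - hc; omega,
      by clear * - w5; omega, by clear * - w6; omega, by clear * - w7; omega,
      by clear * - z; omega, by clear * - w8; omega, by clear * - w9; omega⟩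
  obtain ⟨μ, z1, z2, z3, g0⟩ := X.mix al (by clear * - hy hz; omega) (by clear * - hy; omega) fs bb (.of (by clear * -; omega)) (.of (by clear * -; omega))
    (by clear * - z; omega)
  have z0 : 1 ≤ μ := by clear * - z z1; omega
  obtain ⟨Y, rfl⟩ : ∃ Y, μ = m + 2*Y := ⟨(μ - m) / 2, by
    have := hp _ _ (g0 _ le_rfl (by clear * - z0; omega))
    clear * - this; omega⟩
  exact E342.main (N := N) (Q := Q) (i := i) (a := a) (b := b) (l := l) (m := m) (c := c) (d := d) (L := L) (U := U) (V := V) (Y := Y)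
    ⟨al, a1, a2, s1, s2, bb, c1, c2, S2, d1, d2, t1, t2, f1, f2, f3, g0.sh al 0 1 (by clear * -; omega), g1.cg (by clear * -; omega), g2.cg (by clear * -; omega),
      g3.cg (by clear * -; omega), g4.cg (by clear * -; omega), n1, n2, n3, n4, X⟩
    ⟨by clear * - hy; omega, by clear * - hy; omega, by clear * - hy; omega,
      by clear * - hy; omega, by clear * - hy; omega, by clear * - hy; omega,
      by clear * - hy; omega, by clear * - hy; omega, by clear * - hy; omega,
      by clear * - hy; omega, by clear * - hy; omega, by clear * - hy; omega,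
      by clear * - hy; omega, by clear * - hy; omega, by clear * - hy; omega,
      by clear * - hz; omega, by clear * - hz; omega, by clear * - hz; omega,
      by clear * - hz; omega, by clear * - hz; omega, by clear * - hz; omega,
      by clear * - hc; omega, by clear * - hc; omega, by clear * - hc; omega,
      by clear * - hc; omega, by clear * - w1; omega, by clear * - w2; omega,
      by clear * - w3; omega, by clear * - w4; omega, by clear * - hc; omega,
      by clear * - hc; omega, by clear * - hc; omega, by clear * - hc; omega,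
      by clear * - hc; omega, by clear * - hc; omega, by clear * - hc; omega,
      by clear * - w5; omega, by clear * - w6; omega, by clear * - w7; omega,
      by clear * - z0; omega, by clear * - z1; omega, by clear * - z3; omega,
      by clear * - z2; omega, by clear * - w8; omega, by clear * - w9; omega⟩

theorem ev34o (hz : 0 ≤ l + m + 2*U ∧ 0 ≤ V ∧ 2*N + 2*V ≤ i + 2*l + 2*m + 2*U + 3 ∧ i + 2*l + 2*m + 2*U + 4 ≤ 2*N + Q ∧ Q ≤ 2*N + i + 2*l + 2*c + 2*d + 2*U + 1 ∧ i + 2*l + 2*c + 2*d + 2*U + 2 ≤ 0)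
    (t1 : Ant W (0) (-2*N + i + 2*l + 2*m + 2*U - 2*V + 3) (-4*N + 2*i + 4*l + 4*m + 4*U - 2*V + 6))
    (t2 : Ant W (-2*N + i + 2*l + 2*m + 2*U + 4) (Q) (-4*N + 2*i + 4*l + 4*m + 4*U - 2*V + 6))
    (f1 : Par W (-2*N + i + 2*l + 2*m + 2*U - 2*V + 4) (Q) (4*N - 2*m + 2*c + 2*d + 2*V - 2))
    (f2 : Par W (2*N + i + 2*l + 2*c + 2*d + 2*U + 2) (2*N) (-4*N + 2*m - 2*c - 2*d - 2*V + 2))
    (f3 : Par W (i + l + m + 3) (i + 2*l + 2*m + 2*U + 3) (2*N - 2*m + 2*c + 2*d - 2))
    (n4 : Nd W (-2*N + i + 2*l + 2*m + 2*U + 3) (-2*N + i + 2*l + 2*m + 2*U - 2*V + 3) (2*N + i + 2*l + 2*c + 2*d + 2*U + 1))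
    (hp : ∀ s t, W s = W t → (s - t) % 2 = 0) : False := by
  have fs : Par W (-2*N + i + l + m + 3) (-2*N + i + 2*l + 2*m + 2*U + 3) (4*N - 2*m + 2*c + 2*d - 2) := f3.sh al 1 1 (by clear * -; omega)
  have f0 : Par W 0 (-2*N + i + 2*l + 2*m + 2*U + 3) (4*N - 2*m + 2*c + 2*d - 2) := fun t h1 h2 => fs t (by clear * - hy h1; omega) h2
  have a2' : Par W Q (i + 2*a + 2*b) (-2*b) := a2.fl (by clear * -; omega)
  have f2' : Par W (-2*N + i + 2*l + 2*m + 2*U - 2*V + 4) (-2*N + 2*m - 2*c - 2*d - 2*V + 2) (4*N - 2*m + 2*c + 2*d + 2*V - 2) := f2.fl (by clear * -; omega)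
  obtain ⟨L, X⟩ := al.l2 (by clear * - hy; omega) ((ev_lf hy al a1 a2 s1 s2 bb c1 c2 S2 d1 d2 n1 n2 n3).mk3 al.q0)
    ⟨⟨0, Q, Q, 2*N, Or.inl ⟨rfl, rfl, rfl, rfl⟩, by clear * - hy hz; omega, Or.inl (f0.cg (by clear * -; omega)),
      Or.inl (t1.cg (by clear * -; omega)), Or.inl (f1.cg (by clear * -; omega))⟩, n4⟩
  have hc := ev_cm hy al a1 a2 s1 s2 bb c1 c2 S2 d1 d2 n1 n2 n3 X
  have ne := ev_ne hy al a1 a2 s1 s2 bb c1 c2 S2 d1 d2 n1 n2 n3
  have w1 := X.aa al f1 (by clear * - hy hz; omega) (.of (by clear * -; omega))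
  have w2 := X.aa al f2 (by clear * - hy hz; omega) (.of (by clear * -; omega))
  have w3 := X.bb al fs (by clear * - hy hz; omega) (.of (by clear * -; omega))
  have w4 := X.tt al f0 f2 (by clear * - hy hz; omega) (.of (by clear * -; omega)) (.of (by clear * -; omega))
  have w5 := X.mx2 f1 (by clear * - hy hz; omega)
  have w6 := X.mx2 f2 (by clear * - hy hz; omega)
  have w7 := X.mx2 f3 (by clear * - hy ne; omega)
  have w8 := X.tt al a1 f2 (by clear * - hy hz; omega) (.of (by clear * -; omega)) (.of (by clear * -; omega))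
  have w9 := X.tt al a2' f1 (by clear * - hy hz; omega) (.of (by clear * -; omega)) (.of (by clear * -; omega))
  have g1 := X.ll al (by clear * - hy; omega) (by clear * - hy hz; omega) bb f1 (.of (by clear * -; omega)) (.of (by clear * -; omega))
  have g2 := X.ll al (by clear * - hy; omega) (by clear * - hy hz; omega) bb f2' (.of (by clear * -; omega)) (.of (by clear * -; omega))
  have g3 := X.rr al (by clear * - hy; omega) (by clear * - hy hz; omega) a1 fs (.of (by clear * -; omega)) (.of (by clear * -; omega))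
  have g4 := X.rr al (by clear * - hy; omega) (by clear * - hy hz; omega) a2 fs (.of (by clear * -; omega)) (.of (by clear * -; omega))
  have v1 := g1.od hp (by clear * -; omega)
  have v2 := g2.od hp (by clear * -; omega)
  have v3 := g3.od hp (by clear * -; omega)
  have v4 := g4.od hp (by clear * -; omega)
  by_cases z : L + l + (l + m + 2*U) + 3 ≤ 2*N
  · exact E341.main (N := N) (Q := Q) (i := i) (a := a) (b := b) (l := l) (m := m) (c := c) (d := d) (L := L) (U := U) (V := V)
      ⟨al, a1, a2, s1, s2, bb, c1, c2, S2, d1, d2, t1, t2, f1, f2, f3, n1, n2, n3, n4, X⟩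
      ⟨by clear * - hy; omega, by clear * - hy; omega, by clear * - hy; omega,
      by clear * - hy; omega, by clear * - hy; omega, by clear * - hy; omega,
      by clear * - hy; omega, by clear * - hy; omega, by clear * - hy; omega,
      by clear * - hy; omega, by clear * - hy; omega, by clear * - hy; omega,
      by clear * - hy; omega, by clear * - hy; omega, by clear * - hy; omega,
      by clear * - hz; omega, by clear * - hz; omega, by clear * - hz; omega,
      by clear * - hz; omega, by clear * - hz; omega, by clear * - hz; omega,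
      by clear * - hc; omega, by clear * - hc; omega, by clear * - hc; omega,
      by clear * - hc; omega, by clear * - w1; omega, by clear * - w2; omega,
      by clear * - w3; omega, by clear * - w4; omega, by clear * - hc; omega,
      by clear * - hc; omega, by clear * - hc; omega, by clear * - hc; omega,
      by clear * - hc; omega, by clear * - hc; omega, by clear * - hc; omega,
      by clear * - w5; omega, by clear * - w6; omega, by clear * - w7; omega,
      by clear * - z; omega, by clear * - v1; omega, by clear * - v2; omega,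
      by clear * - v3; omega, by clear * - v4; omega, by clear * - w8; omega,
      by clear * - w9; omega⟩
  obtain ⟨μ, z1, z2, z3, g0⟩ := X.mix al (by clear * - hy hz; omega) (by clear * - hy; omega) fs bb (.of (by clear * -; omega)) (.of (by clear * -; omega))
    (by clear * - z; omega)
  have z0 : 1 ≤ μ := by clear * - z z1; omega
  obtain ⟨Y, rfl⟩ : ∃ Y, μ = m + 2*Y := ⟨(μ - m) / 2, by
    have := hp _ _ (g0 _ le_rfl (by clear * - z0; omega))
    clear * - this; omega⟩
  exact E343.main (N := N) (Q := Q) (i := i) (a := a) (b := b) (l := l) (m := m) (c := c) (d := d) (L := L) (U := U) (V := V) (Y := Y)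
    ⟨al, a1, a2, s1, s2, bb, c1, c2, S2, d1, d2, t1, t2, f1, f2, f3, g0.sh al 0 1 (by clear * -; omega), n1, n2, n3, n4, X⟩
    ⟨by clear * - hy; omega, by clear * - hy; omega, by clear * - hy; omega,
      by clear * - hy; omega, by clear * - hy; omega, by clear * - hy; omega,
      by clear * - hy; omega, by clear * - hy; omega, by clear * - hy; omega,
      by clear * - hy; omega, by clear * - hy; omega, by clear * - hy; omega,
      by clear * - hy; omega, by clear * - hy; omega, by clear * - hy; omega,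
      by clear * - hz; omega, by clear * - hz; omega, by clear * - hz; omega,
      by clear * - hz; omega, by clear * - hz; omega, by clear * - hz; omega,
      by clear * - hc; omega, by clear * - hc; omega, by clear * - hc; omega,
      by clear * - hc; omega, by clear * - w1; omega, by clear * - w2; omega,
      by clear * - w3; omega, by clear * - w4; omega, by clear * - hc; omega,
      by clear * - hc; omega, by clear * - hc; omega, by clear * - hc; omega,
      by clear * - hc; omega, by clear * - hc; omega, by clear * - hc; omega,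
      by clear * - w5; omega, by clear * - w6; omega, by clear * - w7; omega,
      by clear * - z0; omega, by clear * - z1; omega, by clear * - z3; omega,
      by clear * - z2; omega, by clear * - v1; omega, by clear * - v2; omega,
      by clear * - v3; omega, by clear * - v4; omega, by clear * - w8; omega,
      by clear * - w9; omega⟩

end

end Pool.Agent.MP_a38735_al.WL
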