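import Pool.Agent.MP_a38735_al.StackA
import Pool.Agent.MP_a38735_al.DFree

set_option autoImplicit false

namespace Pool.Agent.MP_a38735_al

open WL Monoid

variable {G : Type*} [Group G] {H : Bool → Subgroup G}

/-- a full pair of marks without real chains of length one gives the Freiheitssatz -/
def RuleH (H : Bool → Subgroup G) : Prop :=
  ∀ (n : ℕ) [NeZero n] (x : ZMod n → G) (P : ZMod n) (Q : ℤ), Cy H x →
    AL (fun t : ℤ => x (P + t)) n Q → NoCh H (fun t : ℤ => x (P + t)) n Q →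
    AL (fun t : ℤ => x (P + Q + t)) n (n - Q) →
    NoCh H (fun t : ℤ => x (P + Q + t)) n (n - Q) → Fr H x

theorem tf_main (h : FP H) (tf : ∀ b, ∀ a ∈ H b, ∀ m : ℕ, 0 < m → a ^ m = 1 → a = 1)
    (hA : StA G) (hR : RuleH H) (r : G) (h1 : ∀ b, ∀ a ∈ H b, ¬ IsConj a r)
    (h2 : ∀ (s : G) (k : ℕ), 2 ≤ k → s ^ k ≠ r) (m : ℕ) (hm : 2 ≤ m) (b : Bool) (a : G)
    (ha : a ∈ H b) (hn : a ∈ Subgroup.normalClosure ({r ^ m} : Set G)) : a = 1 := by
  obtain ⟨n, _, x, k1, k2, k3, k4⟩ := h.cyc_word r h1 h2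
  have htf : ∀ (i : ZMod n) (m : ℕ), 0 < m → x i ^ m ≠ 1 := fun i m hm e =>
    (k1 i).1 (tf _ _ (k1 i).2 m hm e)
  have hc : Cy H x := ⟨k1, k2, fun i e => htf i 2 (by omega) (by rw [← e, pow_two]),
    fun i e => htf i 3 (by omega) (by rw [← e, pow_three']), k3⟩
  obtain ⟨P, Q, a1, a2, a3, a4⟩ := exists_AL hA hc htf
  have f1 : Fr H x := hR n x P Q hc a1 a2 a3 a4
  obtain ⟨u, hu⟩ := isConj_iff.1 k4
  unfold Fr at f1
  generalize wd (· + 1) x n 0 = W at f1 hu
  have f2 : Subgroup.normalClosure ({r ^ m} : Set G) ≤ Subgroup.normalClosure ({W ^ m} : Set G) := by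
    apply Subgroup.normalClosure_le_normal
    rw [Set.singleton_subset_iff, ← hu, conj_pow]
    exact Subgroup.normalClosure_normal.conj_mem _
      (Subgroup.subset_normalClosure (Set.mem_singleton _)) u
  exact f1 m hm b a ha (f2 hn)

/-- the Freiheitssatz for torsion-free factors and `m ≥ 2` from the word lemma and the rule -/
theorem tf_coprod (A B : Type) [Group A] [Group B] (hA : StA (Coprod A B)) (hR : RuleH (HH A B))
    (tA : ∀ a : A, ∀ n : ℕ, 0 < n → a ^ n = 1 → a = 1)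
    (tB : ∀ b : B, ∀ n : ℕ, 0 < n → b ^ n = 1 → b = 1) (r : Coprod A B)
    (h1 : ∀ g : Coprod A B, ∀ a : A, r ≠ g * Coprod.inl a * g⁻¹)
    (h2 : ∀ g : Coprod A B, ∀ b : B, r ≠ g * Coprod.inr b * g⁻¹)
    (h3 : ∀ s : Coprod A B, ∀ k : ℕ, 2 ≤ k → s ^ k ≠ r) (m : ℕ) (hm : 2 ≤ m) :
    Function.Injective
        ((QuotientGroup.mk' (Subgroup.normalClosure ({r ^ m} : Set (Coprod A B)))).comp
          (Coprod.inl : A →* Coprod A B)) ∧
      Function.Injective
        ((QuotientGroup.mk' (Subgroup.normalClosure ({r ^ m} : Set (Coprod A B)))).comp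
          (Coprod.inr : B →* Coprod A B)) := by
  have h5 : ∀ b, ∀ a ∈ HH A B b, ¬ IsConj a r := by
    intro b a ha e
    obtain ⟨u, hu⟩ := isConj_iff.1 e
    cases b
    · obtain ⟨y, rfl⟩ := ha
      exact h2 u y hu.symm
    · obtain ⟨y, rfl⟩ := ha
      exact h1 u y hu.symm
  have tf : ∀ b, ∀ a ∈ HH A B b, ∀ m : ℕ, 0 < m → a ^ m = 1 → a = 1 := by
    intro b a ha k hk e
    cases b
    · obtain ⟨y, rfl⟩ := ha
      rw [tB y k hk (Coprod.inr_injective (M := A) (by simpa using e)), map_one]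
    · obtain ⟨y, rfl⟩ := ha
      rw [tA y k hk (Coprod.inl_injective (N := B) (by simpa using e)), map_one]
  exact inj_of fun b a ha hn => tf_main fp_coprod tf hA hR r h5 h3 m hm b a ha hn

end Pool.Agent.MP_a38735_al
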