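import Pool.Agent.MP_a38735_al.WL
import Mathlib.LinearAlgebra.Dimension.Constructions
import Mathlib.LinearAlgebra.Dimension.Finite
import Mathlib.Data.ZMod.Basic
import Mathlib.Data.Int.Interval
import Mathlib.Algebra.BigOperators.Fin
import Mathlib.Algebra.Order.Field.Rat

set_option autoImplicit false

namespace Pool.Agent.MP_a38735_al.WL

open Finset

/-- two different unordered pairs of different letters -/
def Dif {α : Type*} (a b x y : α) : Prop := a ≠ b ∧ x ≠ y ∧ ¬ (x = a ∧ y = b) ∧ ¬ (x = b ∧ y = a)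

theorem per_mul {β : Type*} {f : ℤ → β} {n : ℤ} (h : ∀ t, f (t + n) = f t) (m t : ℤ) :
    f (t + m * n) = f t := by
  induction m using Int.induction_on with
  | zero => simp
  | succ m ih => rw [add_mul, one_mul, ← add_assoc, h, ih]
  | pred m ih => rw [← h, ← ih]; congr 1; ring

/-- more than `n - 1` edges on `ℤ / n` carry a cycle -/
theorem ex_cyc {E : Type*} (S : Finset E) (A B : E → ℤ) (n : ℤ) (hn : 0 < n)
    (hc : n ≤ S.card) : ∃ c : E → ℚ, (∃ e, c e ≠ 0) ∧ (∀ e, c e ≠ 0 → e ∈ S) ∧
      ∀ f : ℤ → ℚ, (∀ t, f (t + n) = f t) → ∑ e ∈ S, c e * (f (A e) - f (B e)) = 0 := by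
  classical
  obtain ⟨N, rfl⟩ := Int.eq_ofNat_of_zero_le hn.le
  haveI : NeZero N := ⟨by omega⟩
  let v : Option S → ZMod N → ℚ := fun o => match o with
    | none => Pi.single 0 1
    | some e => Pi.single ((A e : ℤ) : ZMod N) 1 - Pi.single ((B e : ℤ) : ZMod N) 1
  have hv : ¬ LinearIndependent ℚ v := fun h => by
    have := h.fintype_card_le_finrank
    simp at this
    omega
  obtain ⟨g, hg, o, ho⟩ := Fintype.not_linearIndependent_iff.1 hv
  have key : ∀ F : ZMod N → ℚ, g none * F 0 +
      ∑ e : S, g (some e) * (F ((A e : ℤ) : ZMod N) - F ((B e : ℤ) : ZMod N)) = 0 := by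
    intro F
    have := congrArg (fun u : ZMod N → ℚ => ∑ z, u z * F z) hg
    simp only [Fintype.sum_option, Pi.add_apply, Finset.sum_apply, Pi.smul_apply, smul_eq_mul,
      Pi.zero_apply, zero_mul, sum_const_zero, add_mul, sum_add_distrib, sum_mul, v,
      Pi.sub_apply] at this
    rw [sum_comm] at this
    simpa [Pi.single_apply, mul_sub, sub_mul, sum_sub_distrib] using this
  have g0 : g none = 0 := by simpa using key 1
  refine ⟨fun e => if h : e ∈ S then g (some ⟨e, h⟩) else 0, ?_, ?_, ?_⟩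
  · cases o with
    | none => exact (ho g0).elim
    | some e => exact ⟨e, by simpa using ho⟩
  · intro e he
    by_contra c
    simp [c] at he
  · intro f hf
    have e : ∀ t : ℤ, f ((t : ZMod N).val : ℤ) = f t := fun t => by
      rw [ZMod.val_intCast, ← per_mul hf (t / N) (t % N)]
      congr 1
      rw [mul_comm]; exact Int.emod_add_mul_ediv _ _
    have := key fun z => f (z.val : ℤ)
    rw [g0, zero_mul, zero_add] at this
    simp only [e] at this
    rw [← this, ← sum_attach]
    simp

theorem two_zero {α E : Type*} {W : ℤ → α} {n : ℤ} (per : ∀ t, W (t + n) = W t) {S : Finset E}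
    {A B : E → ℤ} {c : E → ℚ} (hS : ∀ e, c e ≠ 0 → e ∈ S)
    (hc : ∀ f : ℤ → ℚ, (∀ t, f (t + n) = f t) → ∑ e ∈ S, c e * (f (A e) - f (B e)) = 0)
    (s : ℤ) {e1 e2 : E} (ne : e1 ≠ e2)
    (h : ∀ e, c e ≠ 0 → e ≠ e1 → e ≠ e2 → W (B e + s) = W (A e + s))
    (d : Dif (W (A e1 + s)) (W (B e1 + s)) (W (A e2 + s)) (W (B e2 + s))) :
    c e1 = 0 ∧ c e2 = 0 := by
  classical
  have key : ∀ z : α, c e1 * ((if W (A e1 + s) = z then 1 else 0) -
      if W (B e1 + s) = z then 1 else 0) + c e2 * ((if W (A e2 + s) = z then 1 else 0) -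
      if W (B e2 + s) = z then 1 else 0) = 0 := by
    intro z
    have := hc (fun t => if W (t + s) = z then 1 else 0) fun t => by
      rw [add_right_comm, per]
    rw [sum_eq_add e1 e2 ne] at this
    · exact this
    · intro e _ he
      by_cases c0 : c e = 0
      · simp [c0]
      · simp [h e c0 he.1 he.2]
    · intro he; simp [not_not.1 (mt (hS e1) he)]
    · intro he; simp [not_not.1 (mt (hS e2) he)]
  obtain ⟨d1, d2, d3, d4⟩ := d
  have k1 := key (W (A e1 + s))
  have k2 := key (W (B e1 + s))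
  have k3 := key (W (A e2 + s))
  have k4 := key (W (B e2 + s))
  generalize W (A e1 + s) = a at *
  generalize W (B e1 + s) = b at *
  generalize W (A e2 + s) = x at *
  generalize W (B e2 + s) = y at *
  have d1' := d1.symm
  have d2' := d2.symm
  by_cases xa : x = a
  · subst xa
    have yb : y ≠ b := fun e => d3 ⟨rfl, e⟩
    simp [d1, d2, yb, yb.symm] at k2 k4
    exact ⟨k2, k4⟩
  · by_cases xb : x = b
    · subst xb
      have ya : y ≠ a := fun e => d4 ⟨rfl, e⟩
      simp [d1, d1', d2, d2', ya, ya.symm] at k1 k4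
      exact ⟨k1, k4⟩
    · simp [Ne.symm xa, Ne.symm xb, d2'] at k3
      simp [k3, d1'] at k1
      exact ⟨k1, k3⟩

/-- three bands: the first two end differently, the first and the third begin differently, and
no end of the third is a beginning of the second -/
theorem three {α : Type*} {W : ℤ → α} {n : ℤ} (hn : 0 < n) (per : ∀ t, W (t + n) = W t)
    (a l d : Fin 3 → ℤ) (hl : ∀ σ, 0 ≤ l σ)
    (hp : ∀ σ t, a σ ≤ t → t < a σ + l σ → W (t + d σ) = W t)
    (hR : Dif (W (a 0 + l 0)) (W (a 0 + l 0 + d 0)) (W (a 1 + l 1)) (W (a 1 + l 1 + d 1)))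
    (hL : Dif (W (a 0 - 1)) (W (a 0 - 1 + d 0)) (W (a 2 - 1)) (W (a 2 - 1 + d 2)))
    (hU : ∀ m, 0 < m → m ≤ l 1 → m ≤ l 2 →
      ¬ ∀ s, 0 ≤ s → s < m → W (a 2 + l 2 - m + s) = W (a 1 + s)) :
    l 0 + l 1 + l 2 + 3 ≤ n := by
  classical
  by_contra con
  let S : Finset ((_ : Fin 3) × ℤ) := univ.sigma fun σ => Ico 0 (![l 0 + 1, l 1 + 1, l 2] σ)
  let A : (_ : Fin 3) × ℤ → ℤ := fun e => a e.1 + e.2
  let B : (_ : Fin 3) × ℤ → ℤ := fun e => a e.1 + e.2 + d e.1
  let Cyc : ((_ : Fin 3) × ℤ → ℚ) → Prop := fun c => (∀ e, c e ≠ 0 → e ∈ S) ∧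
    ∀ f : ℤ → ℚ, (∀ t, f (t + n) = f t) → ∑ e ∈ S, c e * (f (A e) - f (B e)) = 0
  let Val : ((_ : Fin 3) × ℤ → ℚ) → ℤ → ℤ → Prop := fun c u v =>
    ∀ e, c e ≠ 0 → u ≤ e.2 ∧ e.2 + v ≤ l e.1
  have eqw : ∀ (e : (_ : Fin 3) × ℤ) s, 0 ≤ e.2 + s → e.2 + s < l e.1 →
      W (B e + s) = W (A e + s) := fun e s h1 h2 => by
    rw [← hp e.1 (A e + s) (by simp only [A]; omega) (by simp only [A]; omega)]
    congr 1; simp only [A, B]; ring
  have exR : ∀ c u v, 0 ≤ u → 0 ≤ v → Cyc c → Val c u v → c ⟨2, l 2 - v⟩ = 0 →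
      Val c u (v + 1) := by
    intro c u v hu hv hc h h2
    have lt : ∀ e, c e ≠ 0 → e ≠ ⟨e.1, l e.1 - v⟩ → e.2 + v < l e.1 := by
      rintro ⟨σ, t⟩ c0 ne
      have := (h _ c0).2
      refine lt_of_le_of_ne this fun z => ne ?_
      simp only at z ⊢
      rw [← z]; simp
    have := two_zero per hc.1 hc.2 v (e1 := ⟨0, l 0 - v⟩) (e2 := ⟨1, l 1 - v⟩) (by simp)
      (fun e c0 n1 n2 => eqw e v (by have := (h e c0).1; omega) (lt e c0 (by
        obtain ⟨σ, t⟩ := e
        fin_cases σ
        · exact n1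
        · exact n2
        · intro z; exact c0 (z ▸ h2))))
      (by simp only [A, B]; convert hR using 2 <;> ring)
    intro e c0
    refine ⟨(h e c0).1, ?_⟩
    suffices e.2 + v < l e.1 by omega
    refine lt e c0 fun z => c0 ?_
    obtain ⟨σ, t⟩ := e
    rw [z]
    fin_cases σ
    exacts [this.1, this.2, h2]
  have exL : ∀ c u v, 0 ≤ u → 0 ≤ v → Cyc c → Val c u v → c ⟨1, u⟩ = 0 → Val c (u + 1) v := by
    intro c u v hu hv hc h h2
    have lt : ∀ e, c e ≠ 0 → e ≠ ⟨e.1, u⟩ → u < e.2 := by
      rintro ⟨σ, t⟩ c0 ne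
      refine lt_of_le_of_ne (h _ c0).1 fun z => ne ?_
      simp only at z ⊢
      rw [z]
    have := two_zero per hc.1 hc.2 (-u - 1) (e1 := ⟨0, u⟩) (e2 := ⟨2, u⟩) (by simp)
      (fun e c0 n1 n2 => eqw e _ (by
        have := lt e c0 (by
          obtain ⟨σ, t⟩ := e
          fin_cases σ
          · exact n1
          · intro z; exact c0 (z ▸ h2)
          · exact n2)
        omega) (by have := (h e c0).2; omega))
      (by simp only [A, B]; convert hL using 2 <;> ring)
    intro e c0
    refine ⟨lt e c0 fun z => c0 ?_, (h e c0).2⟩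
    obtain ⟨σ, t⟩ := e
    rw [z]
    fin_cases σ
    exacts [this.1, h2, this.2]
  have main : ∀ (K : ℕ) c u v, 0 ≤ u → 0 ≤ v → 0 < u + v → l 0 + l 1 + l 2 < u + v + K →
      Cyc c → Val c u v → ∀ e, c e = 0 := by
    intro K
    induction K with
    | zero =>
      intro c u v _ _ _ hK _ h e
      by_contra c0
      have := h e c0
      have h0 := hl 0; have h1 := hl 1; have h2 := hl 2
      obtain ⟨σ, t⟩ := e
      fin_cases σ <;> simp at this hK <;> omega
    | succ K ih =>
      intro c u v hu hv huv hK hc h e0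
      by_contra c0
      let Y : ℤ → Prop := fun t => ∀ s, -u ≤ s → s < v → W (t + s) = W (A e0 + s)
      let c' : (_ : Fin 3) × ℤ → ℚ := fun e => if Y (A e) then c e else 0
      have sub : ∀ e, c' e ≠ 0 → c e ≠ 0 ∧ Y (A e) := fun e he => by
        by_cases y : Y (A e)
        · exact ⟨by simpa [c', y] using he, y⟩
        · simp [c', y] at he
      have v' : Val c' u v := fun e he => h e (sub e he).1
      have cy : Cyc c' := by
        refine ⟨fun e he => hc.1 e (sub e he).1, fun f hf => ?_⟩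
        rw [← hc.2 (fun t => if Y t then f t else 0) fun t => by
          simp only [Y, add_right_comm t n, per, hf]]
        refine sum_congr rfl fun e _ => ?_
        by_cases ce : c e = 0
        · simp [c', ce]
        · have : Y (B e) ↔ Y (A e) := forall₃_congr fun s h1 h2 => by
            rw [eqw e s (by have := (h e ce).1; omega) (by have := (h e ce).2; omega)]
          simp only [c', this]
          split_ifs <;> simp
      have n0 : c' e0 ≠ 0 := by
        have : Y (A e0) := fun _ _ _ => rfl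
        simpa [c', this] using c0
      have r : c' ⟨2, l 2 - v⟩ ≠ 0 := fun z => n0 (ih c' u (v + 1) hu (by omega) (by omega)
        (by push_cast at hK; omega) cy (exR c' u v hu hv cy v' z) e0)
      have r' : c' ⟨1, u⟩ ≠ 0 := fun z => n0 (ih c' (u + 1) v (by omega) hv (by omega)
        (by push_cast at hK; omega) cy (exL c' u v hu hv cy v' z) e0)
      have b1 := v' _ r
      have b2 := v' _ r'
      simp only at b1 b2
      refine hU (u + v) huv (by omega) (by omega) fun s h1 h2 => ?_
      have y1 := (sub _ r).2 (s - u) (by omega) (by omega)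
      have y2 := (sub _ r').2 (s - u) (by omega) (by omega)
      simp only [A] at y1 y2
      convert y1.trans y2.symm using 2 <;> ring
  have h0 := hl 0; have h1 := hl 1; have h2 := hl 2
  obtain ⟨c, ⟨e, he⟩, hS, hc⟩ := ex_cyc S A B n hn (by
    simp only [S, card_sigma, Fin.sum_univ_three, Int.card_Ico]
    simp
    omega)
  have mem : ∀ e, c e ≠ 0 → 0 ≤ e.2 ∧ e.2 < ![l 0 + 1, l 1 + 1, l 2] e.1 := fun e he => by
    simpa [S] using hS e he
  refine he (main (l 0 + l 1 + l 2).toNat c 0 (0 + 1) le_rfl (by omega) (by omega) (by omega)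
    ⟨hS, hc⟩ (exR c 0 0 le_rfl le_rfl ⟨hS, hc⟩ ?_ ?_) e)
  · rintro ⟨σ, t⟩ c0
    have := mem _ c0
    fin_cases σ <;> simp at this ⊢ <;> omega
  · by_contra c0
    have := mem _ c0
    simp at this

theorem stA (G : Type*) [Group G] : StA G := by
  intro W n Q i j k p q L h i0 ij jQ Qk kn nd a1 a2 b1 b2 d0 dn _ L0 hp hr hl mx
  by_contra con
  have q0 := h.q0
  have qn := h.qn
  have e1 : p + L + (q - p) = q + L := by ring
  have e2 : p - 1 + (q - p) = q - 1 := by ring
  have t1 := three (n := n) (by omega) h.per ![p, 0, k + 1] ![L, j, n - k - 1]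
    ![q - p, k - j, -(k - i)] (by intro σ; fin_cases σ <;> simp <;> omega)
    (by
      intro σ t h1 h2
      fin_cases σ <;> simp at h1 h2 ⊢
      · exact hp t h1 h2
      · exact a1 t h1 h2
      · rw [← b2 (t + (i - k)) (by omega) (by omega)]; congr 1; ring)
    (by
      simp only [Matrix.cons_val, e1, zero_add, add_sub_cancel]
      exact ⟨hr, nd.yz, fun c => con (Or.inl c), fun c => con (Or.inr (Or.inl c))⟩)
    (by
      simp only [Matrix.cons_val, e2, add_sub_cancel_right, show k + -(k - i) = i by ring]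
      exact ⟨hl, nd.xz.symm, fun c => con (Or.inr (Or.inr (Or.inr c.symm))),
        fun c => con (Or.inr (Or.inr (Or.inl c.symm)))⟩)
    (by
      intro m m0 m1 _ c
      simp only [Matrix.cons_val] at m1 c
      refine h.ubP m m0 (by omega) fun t h1 h2 => ?_
      rw [← h.per t, ← zero_add (t + m), ← c (t + m) (by omega) (by omega)]; congr 1; ring)
  have t2 := three (n := n) (by omega) h.per ![p, Q, i + 1] ![L, k - Q, Q - 1 - i]
    ![q - p, -(k - j), k - i] (by intro σ; fin_cases σ <;> simp <;> omega)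
    (by
      intro σ t h1 h2
      fin_cases σ <;> simp at h1 h2 ⊢
      · exact hp t h1 h2
      · rw [← a2 (t + (j - k)) (by omega) (by omega)]; congr 1; ring
      · exact b1 t h1 (by omega))
    (by
      simp only [Matrix.cons_val, e1, add_sub_cancel, show k + -(k - j) = j by ring]
      exact ⟨hr, nd.yz.symm, fun c => con (Or.inr (Or.inl c.symm)), fun c => con (Or.inl c.symm)⟩)
    (by
      simp only [Matrix.cons_val, e2, add_sub_cancel_right, add_sub_cancel]
      exact ⟨hl, nd.xz, fun c => con (Or.inr (Or.inr (Or.inl c))),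
        fun c => con (Or.inr (Or.inr (Or.inr c)))⟩)
    (by
      intro m m0 m1 _ c
      simp only [Matrix.cons_val] at m1 c
      refine h.ubQ m m0 (by omega) fun t h1 h2 => ?_
      have := c (t + m - Q) (by omega) (by omega)
      convert this.symm using 2 <;> ring)
  simp only [Matrix.cons_val] at t1 t2
  have le : ∀ a b g, 0 < g → g < n → Par W a b g → b - a ≤ L := fun a b g g0 gn c => by
    by_contra c'
    exact mx a g g0 gn fun t h1 h2 => c t h1 (by omega)
  have l1 := le _ _ _ (by omega) (by omega) a1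
  have l2 := le _ _ _ (by omega) (by omega) a2
  have l3 := le _ _ _ (by omega) (by omega) b1
  have l4 := le _ _ _ (by omega) (by omega) b2
  have b3 : ∀ t, k + 1 - n ≤ t → t < 0 → W (t + (n - (k - i))) = W t := fun t h1 h2 => by
    rw [← b2 _ (by omega) (by omega), ← h.per t]; congr 1; ring
  rcases lt_trichotomy (k - j) (n - (k - i)) with c | c | c
  · refine h.ubP (n - (k - i) - (k - j)) (by omega) (by omega) fun t h1 h2 => ?_
    rw [← a1 _ (by omega) (by omega), ← b3 t (by omega) h2]; congr 1; ring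
  · have := le (k + 1 - n) j (k - j) (by omega) (by omega) fun t h1 h2 => by
      rcases lt_or_ge t 0 with z | z
      · rw [c]; exact b3 t h1 z
      · exact a1 t z h2
    omega
  · refine h.ubQ (k - j - (n - (k - i))) (by omega) (by omega) fun t h1 h2 => ?_
    have x1 := a2 (t + (k - i) - n) (by omega) (by omega)
    have x2 := h.per (t + (k - i) - n)
    rw [sub_add_cancel, b1 t (by omega) h2] at x2
    rw [x2, ← x1]; congr 1; ring

end Pool.Agent.MP_a38735_al.WL
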