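import Pool.Agent.MP_a38735_al.Q1m1

set_option autoImplicit false
set_option linter.unusedVariables false

namespace Pool.Agent.MP_a38735_al.WL

variable {G : Type*} [Group G]

theorem l1_100L_12 {W : ℤ → G} {n Q i j k l i2 : ℤ} (al : AL W n Q)
    {L : ℤ} (mx : ∀ a b g, 0 < g → g < n → Par W a b g → b - a ≤ L) (hL : L ≤ (n - j - 3) ∧ L ≤ (n + Q - k - 3) ∧ L ≤ (n - l - 3) ∧ L ≤ (k - j - 2))
    (hy : (0) ≤ (i) ∧ (i) ≤ (j) ∧ (j + 1) ≤ (Q) ∧ (Q) ≤ (k) ∧ (k + 1) ≤ (n) ∧ (i + l + 2) ≤ (Q) ∧ (n) ≤ (k + l + 1) ∧ (0) ≤ (i2) ∧ (i2) ≤ (i + l + 1))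
    (a1 : Par W (0) (j) (k - j))
    (a2 : Par W (Q + j - k) (j) (k - j))
    (s1 : Ant W (0) (i) (i + j))
    (s2 : Ant W (j + 1) (Q) (i + j))
    (b : Par W (i + 1) (i + l + 1) (k - i))
    (t1 : Ant W (0) (i2) (i + l + i2 + 1))
    (t2 : Ant W (i + l + 2) (Q) (i + l + i2 + 1))
    (c : Par W (i2 + 1) (Q) (k + l - n - i2 + 1))
    (n1 : Nd W (j) (i) (k))
    (n2 : Nd W (i + l + 1) (i2) (k + l - n + 1))
    (b0 : (2 * k + 3) ≤ (n + 2 * Q))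
    (b1 : (i + 2 * j + 2) ≤ (k))
    (b2 : (i + k + 2 * l + 1) ≤ (n + 2 * j))
    (b3 : (i + j + l + i2 + 2) ≤ (k))
    (b4 : (2 * Q + k) ≤ (n + 2 * i + l + i2 + 2))
    (b5 : (j + k + l + 2) ≤ (n + i + i2)) : False := by
  have ev := al.ev
  obtain ⟨y0, y1, y2, y3, y4, y5, y6, y7, y8⟩ := id hy
  have n1p := And.intro n1.p1 n1.p2
  have n2p := And.intro n2.p1 n2.p2
  by_cases z17 : (k + l + i2 + 3) ≤ (n + i + j)
  · have k59 : (n + i2) ≤ (i + j + k + l + 1) := by clear * - y6 z17; omega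
    have k60 : (n + i + j + i2 + 1) ≤ (2 * Q + k + l) := by clear * - b0 b3 y6; omega
    have k61 : (j + k + l + 2) ≤ (n + i + i2) := by clear * - b5; omega
    have k62 : (k + l + i2 + 2) ≤ (n + i + j) := by clear * - z17; omega
    clear * - al a1 a2 s1 s2 b t1 t2 c n1 n2 mx hL ev n1p n2p k59 k60 k61 k62
    obtain ⟨t, ht⟩ : ∃ t, 2 * t = (i + j + k + l - n - i2 + 1) := ⟨(i + j + k + l - n - i2 + 1) / 2, by omega⟩
    exact al.ninv t (cE (qa s1 al 0 t ((i + j) - t) (by omega)) (qf c al 0 ((i + j) - t) t (by omega)))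
  · by_cases z18 : (n + j) ≤ (k + 2 * l + 1)
    · have k63 : (k + 2) ≤ (n + j) := by clear * - b0 b2 b3 b4 y6; omega
      have k64 : (j + k + 2) ≤ (n + 2 * i) := by clear * - b5 y8 ev n1p n2p; omega
      have k65 : (n + j) ≤ (k + 2 * l + 1) := by clear * - z18; omega
      have k66 : (n + 2 * i + j + 1) ≤ (2 * Q + k) := by clear * - y5 z18; omega
      clear * - al a1 a2 s1 s2 b t1 t2 c n1 n2 mx hL ev n1p n2p k63 k64 k65 k66
      obtain ⟨t, ht⟩ : ∃ t, 2 * t = (3 * n + j + k) := ⟨(3 * n + j + k) / 2, by omega⟩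
      exact al.ninv t (cE (cI (pb b al 1 t (t + (i - n - k)) (by omega)) (qa s2 al 0 (t + (i - n - k)) ((n + j + k) - t) (by omega))) (sh al 2 ((n + j + k) - t) t (by omega)))
    · by_cases z19 : (i + l + 1) ≤ (i2)
      · have k67 : (j) ≤ (i + l) := by clear * - b5 y8 z17 ev n1p n2p; omega
        have k68 : (l + 1) ≤ (j) := by clear * - y6 z18; omega
        have k69 : (k + 2 * l + 2) ≤ (n + j) := by clear * - z18; omega
        have k70 : (n + j) ≤ (k + 2 * l + 2) := by clear * - y8 z17 ev n1p n2p; omega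
        have k71 : (i + l + 1) ≤ (i2) := by clear * - z19; omega
        have k72 : (i2) ≤ (i + l + 1) := by clear * - y8; omega
        clear * - al a1 a2 s1 s2 b t1 t2 c n1 n2 mx hL ev n1p n2p k67 k68 k69 k70 k71 k72
        exact (n2.f3 (ab s1 al 0 (i + l + 1) (k + l - n + 1) (by omega))) (sh al 0 (i2) (i + l + 1) (by omega))
      · have k73 : (n + i2) ≤ (i + j + k + l + 1) := by clear * - y6 z18 z19; omega
        have k74 : (n + i + j + i2 + 1) ≤ (2 * Q + k + l) := by clear * - b0 b3 y6; omega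
        have k75 : (j + k + l + 2) ≤ (n + i + i2) := by clear * - b5; omega
        have k76 : (k + l + i2 + 2) ≤ (n + i + j) := by clear * - z18 z19; omega
        clear * - al a1 a2 s1 s2 b t1 t2 c n1 n2 mx hL ev n1p n2p k73 k74 k75 k76
        obtain ⟨t, ht⟩ : ∃ t, 2 * t = (i + j + k + l - 3 * n - i2 + 1) := ⟨(i + j + k + l - 3 * n - i2 + 1) / 2, by omega⟩
        exact al.ninv t (cE (cE (qa s1 al (-1) t ((i + j - n) - t) (by omega)) (qf c al 0 ((i + j - n) - t) ((i + j + k + l - 2 * n - i2 + 1) - t) (by omega))) (sh al (-1) ((i + j + k + l - 2 * n - i2 + 1) - t) t (by omega)))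

theorem l1_100L_11 {W : ℤ → G} {n Q i j k l i2 : ℤ} (al : AL W n Q)
    {L : ℤ} (mx : ∀ a b g, 0 < g → g < n → Par W a b g → b - a ≤ L) (hL : L ≤ (n - j - 3) ∧ L ≤ (n + Q - k - 3) ∧ L ≤ (n - l - 3) ∧ L ≤ (k - j - 2))
    (hy : (0) ≤ (i) ∧ (i) ≤ (j) ∧ (j + 1) ≤ (Q) ∧ (Q) ≤ (k) ∧ (k + 1) ≤ (n) ∧ (i + l + 2) ≤ (Q) ∧ (n) ≤ (k + l + 1) ∧ (0) ≤ (i2) ∧ (i2) ≤ (i + l + 1))
    (a1 : Par W (0) (j) (k - j))
    (a2 : Par W (Q + j - k) (j) (k - j))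
    (s1 : Ant W (0) (i) (i + j))
    (s2 : Ant W (j + 1) (Q) (i + j))
    (b : Par W (i + 1) (i + l + 1) (k - i))
    (t1 : Ant W (0) (i2) (i + l + i2 + 1))
    (t2 : Ant W (i + l + 2) (Q) (i + l + i2 + 1))
    (c : Par W (i2 + 1) (Q) (k + l - n - i2 + 1))
    (n1 : Nd W (j) (i) (k))
    (n2 : Nd W (i + l + 1) (i2) (k + l - n + 1))
    (b0 : (2 * k + 3) ≤ (n + 2 * Q))
    (b1 : (i + 2 * j + 2) ≤ (k))
    (b2 : (i + k + 2 * l + 1) ≤ (n + 2 * j))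
    (b3 : (i + j + l + i2 + 2) ≤ (k))
    (b4 : (2 * Q + k) ≤ (n + 2 * i + l + i2 + 2)) : False := by
  have ev := al.ev
  obtain ⟨y0, y1, y2, y3, y4, y5, y6, y7, y8⟩ := id hy
  have n1p := And.intro n1.p1 n1.p2
  have n2p := And.intro n2.p1 n2.p2
  by_cases z16 : (j + k + l + 2) ≤ (n + i + i2)
  · exact l1_100L_12 al mx hL hy a1 a2 s1 s2 b t1 t2 c n1 n2 (by clear * - b0; omega) (by clear * - b1; omega) (by clear * - b2; omega) (by clear * - b3; omega) (by clear * - b4; omega) (by clear * - z16; omega)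
  · exact l1_100L_13 al mx hL hy a1 a2 s1 s2 b t1 t2 c n1 n2 (by clear * - b0; omega) (by clear * - b1; omega) (by clear * - b2; omega) (by clear * - b3; omega) (by clear * - b4; omega) (by clear * - z16; omega)

theorem l1_100L_10 {W : ℤ → G} {n Q i j k l i2 : ℤ} (al : AL W n Q)
    {L : ℤ} (mx : ∀ a b g, 0 < g → g < n → Par W a b g → b - a ≤ L) (hL : L ≤ (n - j - 3) ∧ L ≤ (n + Q - k - 3) ∧ L ≤ (n - l - 3) ∧ L ≤ (k - j - 2))
    (hy : (0) ≤ (i) ∧ (i) ≤ (j) ∧ (j + 1) ≤ (Q) ∧ (Q) ≤ (k) ∧ (k + 1) ≤ (n) ∧ (i + l + 2) ≤ (Q) ∧ (n) ≤ (k + l + 1) ∧ (0) ≤ (i2) ∧ (i2) ≤ (i + l + 1))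
    (a1 : Par W (0) (j) (k - j))
    (a2 : Par W (Q + j - k) (j) (k - j))
    (s1 : Ant W (0) (i) (i + j))
    (s2 : Ant W (j + 1) (Q) (i + j))
    (b : Par W (i + 1) (i + l + 1) (k - i))
    (t1 : Ant W (0) (i2) (i + l + i2 + 1))
    (t2 : Ant W (i + l + 2) (Q) (i + l + i2 + 1))
    (c : Par W (i2 + 1) (Q) (k + l - n - i2 + 1))
    (n1 : Nd W (j) (i) (k))
    (n2 : Nd W (i + l + 1) (i2) (k + l - n + 1))
    (b0 : (2 * Q) ≤ (n + i + j))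
    (b1 : (2 * k + 3) ≤ (n + 2 * Q))
    (b2 : (i + 2 * j + 2) ≤ (k))
    (b3 : (i + k + 2 * l + 1) ≤ (n + 2 * j))
    (b4 : (i + j + l + i2 + 2) ≤ (k))
    (b5 : (k + l + 3) ≤ (n + i2)) : False := by
  have ev := al.ev
  obtain ⟨y0, y1, y2, y3, y4, y5, y6, y7, y8⟩ := id hy
  have n1p := And.intro n1.p1 n1.p2
  have n2p := And.intro n2.p1 n2.p2
  by_cases z15 : (n + 2 * i + l + i2 + 3) ≤ (2 * Q + k)
  · have k50 : (k + l + 2) ≤ (n + i2) := by clear * - b5; omega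
    have k51 : (n) ≤ (k + l + i2 + 1) := by clear * - b5 y6; omega
    have k52 : (k) ≤ (n + 2 * i + l + i2 + 1) := by clear * - b5 y7 y8; omega
    have k53 : (n + i2) ≤ (2 * Q + k + l + 1) := by clear * - y7 y8 z15; omega
    have k54 : (k + l + 3) ≤ (n + i2) := by clear * - b5; omega
    have k55 : (3 * k + l + 3) ≤ (3 * n + 2 * i + i2) := by clear * - b5 y8; omega
    have k56 : (k + l + i2 + 3) ≤ (n + 2 * Q) := by clear * - b5 y8 z15; omega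
    have k57 : (n + 2 * i + l + i2 + 3) ≤ (2 * Q + k) := by clear * - z15; omega
    have k58 : (n + 2 * i + l + 3 * i2 + 3) ≤ (4 * Q + k) := by clear * - b5 y8 z15; omega
    clear * - al a1 a2 s1 s2 b t1 t2 c n1 n2 mx hL ev n1p n2p k50 k51 k52 k53 k54 k55 k56 k57 k58
    exact midP al (n + i2 - k - l - 1) (2 * n + i + l + i2 + 1) (max (n + i + l + i2 - Q + 2) (max (n) (k + l + 2))) (k + l + 2) (n + Q) (by omega) (fun t h1 h2 => (cE (qa t1 al 1 t ((n + i + l + i2 + 1) - t) (by omega)) (sh al 1 ((n + i + l + i2 + 1) - t) ((2 * n + i + l + i2 + 1) - t) (by omega)))) (fun t h1 h2 => (cE (pb c al 1 t (t + (i2 - k - l - 1)) (by omega)) (sh al 1 (t + (i2 - k - l - 1)) (t + (n + i2 - k - l - 1)) (by omega))))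
  · exact l1_100L_11 al mx hL hy a1 a2 s1 s2 b t1 t2 c n1 n2 (by clear * - b1; omega) (by clear * - b2; omega) (by clear * - b3; omega) (by clear * - b4; omega) (by clear * - z15; omega)

theorem l1_100L_9 {W : ℤ → G} {n Q i j k l i2 : ℤ} (al : AL W n Q)
    {L : ℤ} (mx : ∀ a b g, 0 < g → g < n → Par W a b g → b - a ≤ L) (hL : L ≤ (n - j - 3) ∧ L ≤ (n + Q - k - 3) ∧ L ≤ (n - l - 3) ∧ L ≤ (k - j - 2))
    (hy : (0) ≤ (i) ∧ (i) ≤ (j) ∧ (j + 1) ≤ (Q) ∧ (Q) ≤ (k) ∧ (k + 1) ≤ (n) ∧ (i + l + 2) ≤ (Q) ∧ (n) ≤ (k + l + 1) ∧ (0) ≤ (i2) ∧ (i2) ≤ (i + l + 1))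
    (a1 : Par W (0) (j) (k - j))
    (a2 : Par W (Q + j - k) (j) (k - j))
    (s1 : Ant W (0) (i) (i + j))
    (s2 : Ant W (j + 1) (Q) (i + j))
    (b : Par W (i + 1) (i + l + 1) (k - i))
    (t1 : Ant W (0) (i2) (i + l + i2 + 1))
    (t2 : Ant W (i + l + 2) (Q) (i + l + i2 + 1))
    (c : Par W (i2 + 1) (Q) (k + l - n - i2 + 1))
    (n1 : Nd W (j) (i) (k))
    (n2 : Nd W (i + l + 1) (i2) (k + l - n + 1))
    (b0 : (2 * Q) ≤ (n + i + j))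
    (b1 : (2 * k + 3) ≤ (n + 2 * Q))
    (b2 : (i + 2 * j + 2) ≤ (k))
    (b3 : (i + k + 2 * l + 1) ≤ (n + 2 * j))
    (b4 : (i + j + l + i2 + 2) ≤ (k))
    (b5 : (k + l + 2) ≤ (n + i2)) : False := by
  have ev := al.ev
  obtain ⟨y0, y1, y2, y3, y4, y5, y6, y7, y8⟩ := id hy
  have n1p := And.intro n1.p1 n1.p2
  have n2p := And.intro n2.p1 n2.p2
  by_cases z14 : (k + l + 3) ≤ (n + i2)
  · exact l1_100L_10 al mx hL hy a1 a2 s1 s2 b t1 t2 c n1 n2 (by clear * - b0; omega) (by clear * - b1; omega) (by clear * - b2; omega) (by clear * - b3; omega) (by clear * - b4; omega) (by clear * - z14; omega)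
  · have k354 : (k + l + 2) ≤ (n + i2) := by clear * - b5; omega
    have k355 : (k + 1) ≤ (n + i) := by clear * - b5 y8; omega
    have k356 : (n + i + i2) ≤ (Q + k + 1) := by clear * - y5 z14; omega
    have k357 : (0) ≤ (l) := by clear * - y4 y6; omega
    have k358 : (n + i2) ≤ (k + l + 2) := by clear * - z14; omega
    clear * - al a1 a2 s1 s2 b t1 t2 c n1 n2 mx hL ev n1p n2p k354 k355 k356 k357 k358
    exact n2.f1 (rEE (sh al 1 (i2) (n + i2) (by omega)) (sh al 1 (k + l - n + 1) (k + l + 1) (by omega)) (Eq.symm (rotL (n + i2 - k - l - 1) (n + i - k) (k + l + 1) (n + i2) (by omega) (fun t h1 h2 => (cE (pb c al 1 t (t + (i2 - k - l - 1)) (by omega)) (sh al 1 (t + (i2 - k - l - 1)) (t + (n + i2 - k - l - 1)) (by omega)))) (fun t h1 h2 => (cE (pb b al 0 t (t + (i - k)) (by omega)) (sh al 1 (t + (i - k)) (t + (n + i - k)) (by omega)))))))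

theorem l1_100L_8 {W : ℤ → G} {n Q i j k l i2 : ℤ} (al : AL W n Q)
    {L : ℤ} (mx : ∀ a b g, 0 < g → g < n → Par W a b g → b - a ≤ L) (hL : L ≤ (n - j - 3) ∧ L ≤ (n + Q - k - 3) ∧ L ≤ (n - l - 3) ∧ L ≤ (k - j - 2))
    (hy : (0) ≤ (i) ∧ (i) ≤ (j) ∧ (j + 1) ≤ (Q) ∧ (Q) ≤ (k) ∧ (k + 1) ≤ (n) ∧ (i + l + 2) ≤ (Q) ∧ (n) ≤ (k + l + 1) ∧ (0) ≤ (i2) ∧ (i2) ≤ (i + l + 1))
    (a1 : Par W (0) (j) (k - j))
    (a2 : Par W (Q + j - k) (j) (k - j))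
    (s1 : Ant W (0) (i) (i + j))
    (s2 : Ant W (j + 1) (Q) (i + j))
    (b : Par W (i + 1) (i + l + 1) (k - i))
    (t1 : Ant W (0) (i2) (i + l + i2 + 1))
    (t2 : Ant W (i + l + 2) (Q) (i + l + i2 + 1))
    (c : Par W (i2 + 1) (Q) (k + l - n - i2 + 1))
    (n1 : Nd W (j) (i) (k))
    (n2 : Nd W (i + l + 1) (i2) (k + l - n + 1))
    (b0 : (2 * Q) ≤ (n + i + j))
    (b1 : (2 * k + 3) ≤ (n + 2 * Q))
    (b2 : (i + 2 * j + 2) ≤ (k))
    (b3 : (i + k + 2 * l + 1) ≤ (n + 2 * j))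
    (b4 : (i + j + l + i2 + 2) ≤ (k))
    (b5 : (k + l + 1) ≤ (n + i2)) : False := by
  have ev := al.ev
  obtain ⟨y0, y1, y2, y3, y4, y5, y6, y7, y8⟩ := id hy
  have n1p := And.intro n1.p1 n1.p2
  have n2p := And.intro n2.p1 n2.p2
  by_cases z13 : (n + i2) ≤ (k + l + 1)
  · have k48 : (k + l + 1) ≤ (n + i2) := by clear * - b5; omega
    have k49 : (n + i2) ≤ (k + l + 1) := by clear * - z13; omega
    clear * - al a1 a2 s1 s2 b t1 t2 c n1 n2 mx hL ev n1p n2p k48 k49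
    exact n2.f1 (sh al 0 (i2) (k + l - n + 1) (by omega))
  · exact l1_100L_9 al mx hL hy a1 a2 s1 s2 b t1 t2 c n1 n2 (by clear * - b0; omega) (by clear * - b1; omega) (by clear * - b2; omega) (by clear * - b3; omega) (by clear * - b4; omega) (by clear * - z13; omega)

theorem l1_100L_7 {W : ℤ → G} {n Q i j k l i2 : ℤ} (al : AL W n Q)
    {L : ℤ} (mx : ∀ a b g, 0 < g → g < n → Par W a b g → b - a ≤ L) (hL : L ≤ (n - j - 3) ∧ L ≤ (n + Q - k - 3) ∧ L ≤ (n - l - 3) ∧ L ≤ (k - j - 2))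
    (hy : (0) ≤ (i) ∧ (i) ≤ (j) ∧ (j + 1) ≤ (Q) ∧ (Q) ≤ (k) ∧ (k + 1) ≤ (n) ∧ (i + l + 2) ≤ (Q) ∧ (n) ≤ (k + l + 1) ∧ (0) ≤ (i2) ∧ (i2) ≤ (i + l + 1))
    (a1 : Par W (0) (j) (k - j))
    (a2 : Par W (Q + j - k) (j) (k - j))
    (s1 : Ant W (0) (i) (i + j))
    (s2 : Ant W (j + 1) (Q) (i + j))
    (b : Par W (i + 1) (i + l + 1) (k - i))
    (t1 : Ant W (0) (i2) (i + l + i2 + 1))
    (t2 : Ant W (i + l + 2) (Q) (i + l + i2 + 1))
    (c : Par W (i2 + 1) (Q) (k + l - n - i2 + 1))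
    (n1 : Nd W (j) (i) (k))
    (n2 : Nd W (i + l + 1) (i2) (k + l - n + 1))
    (b0 : (2 * Q) ≤ (n + i + j))
    (b1 : (2 * k + 3) ≤ (n + 2 * Q))
    (b2 : (i + 2 * j + 2) ≤ (k))
    (b3 : (i + k + 2 * l + 1) ≤ (n + 2 * j))
    (b4 : (i + j + l + i2 + 2) ≤ (k)) : False := by
  have ev := al.ev
  obtain ⟨y0, y1, y2, y3, y4, y5, y6, y7, y8⟩ := id hy
  have n1p := And.intro n1.p1 n1.p2
  have n2p := And.intro n2.p1 n2.p2
  by_cases z12 : (n + i2) ≤ (k + l)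
  · have k45 : (n + i2) ≤ (k + l) := by clear * - z12; omega
    have k46 : (k + l + 2) ≤ (2 * n + i2) := by clear * - b0 b1 b4 y7; omega
    have k47 : (k + l + 2) ≤ (n + Q) := by clear * - b1 b2 b3 y0; omega
    clear * - al a1 a2 s1 s2 b t1 t2 c n1 n2 mx hL ev n1p n2p k45 k46 k47
    exact al.ubQ (k + l - n - i2 + 1) (by omega) (by omega) fun t h1 h2 => (cE (sh al (-1) t (t + (-n)) (by omega)) (qf c al (-1) (t + (-n)) (t + (k + l - n - i2 + 1)) (by omega)))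
  · exact l1_100L_8 al mx hL hy a1 a2 s1 s2 b t1 t2 c n1 n2 (by clear * - b0; omega) (by clear * - b1; omega) (by clear * - b2; omega) (by clear * - b3; omega) (by clear * - b4; omega) (by clear * - z12; omega)

theorem l1_100L_6 {W : ℤ → G} {n Q i j k l i2 : ℤ} (al : AL W n Q)
    {L : ℤ} (mx : ∀ a b g, 0 < g → g < n → Par W a b g → b - a ≤ L) (hL : L ≤ (n - j - 3) ∧ L ≤ (n + Q - k - 3) ∧ L ≤ (n - l - 3) ∧ L ≤ (k - j - 2))
    (hy : (0) ≤ (i) ∧ (i) ≤ (j) ∧ (j + 1) ≤ (Q) ∧ (Q) ≤ (k) ∧ (k + 1) ≤ (n) ∧ (i + l + 2) ≤ (Q) ∧ (n) ≤ (k + l + 1) ∧ (0) ≤ (i2) ∧ (i2) ≤ (i + l + 1))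
    (a1 : Par W (0) (j) (k - j))
    (a2 : Par W (Q + j - k) (j) (k - j))
    (s1 : Ant W (0) (i) (i + j))
    (s2 : Ant W (j + 1) (Q) (i + j))
    (b : Par W (i + 1) (i + l + 1) (k - i))
    (t1 : Ant W (0) (i2) (i + l + i2 + 1))
    (t2 : Ant W (i + l + 2) (Q) (i + l + i2 + 1))
    (c : Par W (i2 + 1) (Q) (k + l - n - i2 + 1))
    (n1 : Nd W (j) (i) (k))
    (n2 : Nd W (i + l + 1) (i2) (k + l - n + 1))
    (b0 : (2 * Q) ≤ (n + i + j))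
    (b1 : (2 * k + 3) ≤ (n + 2 * Q))
    (b2 : (i + 2 * j + 2) ≤ (k))
    (b3 : (i + k + 2 * l + 1) ≤ (n + 2 * j))
    (b4 : (k) ≤ (i + j + l + i2 + 1)) : False := by
  have ev := al.ev
  obtain ⟨y0, y1, y2, y3, y4, y5, y6, y7, y8⟩ := id hy
  have n1p := And.intro n1.p1 n1.p2
  have n2p := And.intro n2.p1 n2.p2
  by_cases z7 : (i + j + l + 2) ≤ (k + i2)
  · by_cases z8 : (i + l + i2 + 3) ≤ (j + k)
    · have k22 : (i + j + l + 3) ≤ (k + i2) := by clear * - z7 ev n1p n2p; omega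
      have k23 : (i + l + i2 + 3) ≤ (j + k) := by clear * - z8; omega
      have k24 : (k) ≤ (i + j + l + i2 + 2) := by clear * - b4; omega
      clear * - al a1 a2 s1 s2 b t1 t2 c n1 n2 mx hL ev n1p n2p k22 k23 k24
      obtain ⟨t, ht⟩ : ∃ t, 2 * t = (i + k + l + i2 - j + 1) := ⟨(i + k + l + i2 - j + 1) / 2, by omega⟩
      exact al.ninv t (cE (ab t1 al 0 t ((i + l + i2 + 1) - t) (by omega)) (qf a1 al 0 ((i + l + i2 + 1) - t) t (by omega)))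
    · have k25 : (k + 1) ≤ (l + i2) := by clear * - b2 b3 y6 y8 z8 ev n1p n2p; omega
      have k26 : (2 * i + l + 3) ≤ (k + i2) := by clear * - b2 b3 b4 y6 z7; omega
      have k27 : (i2) ≤ (k + l) := by clear * - b2 b3 b4 y6 y8 z7; omega
      have k28 : (k) ≤ (2 * i + l + i2 + 2) := by clear * - b4 y0 z8; omega
      clear * - al a1 a2 s1 s2 b t1 t2 c n1 n2 mx hL ev n1p n2p k25 k26 k27 k28
      obtain ⟨t, ht⟩ : ∃ t, 2 * t = (2 * n + 2 * i + l + i2 - k + 1) := ⟨(2 * n + 2 * i + l + i2 - k + 1) / 2, by omega⟩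
      exact al.ninv t (cE (cI (qf b al 1 t (t + (k - n - i)) (by omega)) (ab t1 al 0 (t + (k - n - i)) ((n + 2 * i + l + i2 - k + 1) - t) (by omega))) (sh al 1 ((n + 2 * i + l + i2 - k + 1) - t) t (by omega)))
  · by_cases z9 : (k) ≤ (j + l + 1)
    · have k29 : (i + 1) ≤ (k) := by clear * - b2 b3 y6 y7 y8; omega
      have k30 : (k + 1) ≤ (n + i) := by clear * - b2 b3 y0 z9; omega
      have k31 : (k) ≤ (j + l + 1) := by clear * - z9; omega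
      clear * - al a1 a2 s1 s2 b t1 t2 c n1 n2 mx hL ev n1p n2p k29 k30 k31
      exact absurd (mx (i + 1) (i + l + 1) (k - i) (by omega) (by omega) fun t h1 h2 => (qf b al 0 t (t + (k - i)) (by omega))) (by omega)
    · by_cases z10 : (i + j + l + 1) ≤ (k + i2)
      · have k32 : (i2) ≤ (i + l) := by clear * - b2 b3 b4 y6 z7 z9; omega
        have k33 : (n + i2) ≤ (i + j + 2 * l + 2) := by clear * - y6 z7; omega
        have k34 : (i + l + 2) ≤ (Q) := by clear * - y5; omega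
        have k35 : (i + 2 * l + 3) ≤ (n + i2) := by clear * - b2 b3 b4 z9; omega
        have k36 : (k + i2) ≤ (i + j + l + 1) := by clear * - z7; omega
        have k37 : (i + j + l + 1) ≤ (k + i2) := by clear * - z10; omega
        clear * - al a1 a2 s1 s2 b t1 t2 c n1 n2 mx hL ev n1p n2p k32 k33 k34 k35 k36 k37
        exact n2.f0 (cE (qf c al 0 (i + l + 1) (i + k + 2 * l - n - i2 + 2) (by omega)) (pb a1 al 0 (i + k + 2 * l - n - i2 + 2) (k + l - n + 1) (by omega)))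
      · by_cases z11 : (j + k + 1) ≤ (n + 2 * i)
        · have k38 : (n + 2 * i + j + 2) ≤ (2 * Q + k) := by clear * - b2 b4 y5 y6 z10; omega
          have k39 : (n + j) ≤ (k + 2 * l) := by clear * - b2 b4 y6 z10; omega
          have k40 : (j + k + 1) ≤ (n + 2 * i) := by clear * - z11; omega
          have k41 : (k + 1) ≤ (n + j) := by clear * - b2 b3 b4 y8; omega
          clear * - al a1 a2 s1 s2 b t1 t2 c n1 n2 mx hL ev n1p n2p k38 k39 k40 k41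
          obtain ⟨t, ht⟩ : ∃ t, 2 * t = (j + k - 3 * n) := ⟨(j + k - 3 * n) / 2, by omega⟩
          exact al.ninv t (cE (cE (ab s2 al (-1) t ((i + j - n) - t) (by omega)) (qf b al 0 ((i + j - n) - t) ((j + k - n) - t) (by omega))) (sh al (-2) ((j + k - n) - t) t (by omega)))
        · have k42 : (n + i2) ≤ (k + l) := by clear * - b2 b4 z10 z11 z9; omega
          have k43 : (k + l + 2) ≤ (2 * n + i2) := by clear * - b2 b3 b4 z10 z11 z9; omega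
          have k44 : (k + i2) ≤ (Q + j) := by clear * - y5 z10; omega
          clear * - al a1 a2 s1 s2 b t1 t2 c n1 n2 mx hL ev n1p n2p k42 k43 k44
          exact absurd (mx (n + i2 + 1) (n + Q) (k + l - n - i2 + 1) (by omega) (by omega) fun t h1 h2 => (cE (qf c al 1 t (t + (k + l - 2 * n - i2 + 1)) (by omega)) (sh al 1 (t + (k + l - 2 * n - i2 + 1)) (t + (k + l - n - i2 + 1)) (by omega)))) (by omega)

theorem l1_100L_5 {W : ℤ → G} {n Q i j k l i2 : ℤ} (al : AL W n Q)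
    {L : ℤ} (mx : ∀ a b g, 0 < g → g < n → Par W a b g → b - a ≤ L) (hL : L ≤ (n - j - 3) ∧ L ≤ (n + Q - k - 3) ∧ L ≤ (n - l - 3) ∧ L ≤ (k - j - 2))
    (hy : (0) ≤ (i) ∧ (i) ≤ (j) ∧ (j + 1) ≤ (Q) ∧ (Q) ≤ (k) ∧ (k + 1) ≤ (n) ∧ (i + l + 2) ≤ (Q) ∧ (n) ≤ (k + l + 1) ∧ (0) ≤ (i2) ∧ (i2) ≤ (i + l + 1))
    (a1 : Par W (0) (j) (k - j))
    (a2 : Par W (Q + j - k) (j) (k - j))
    (s1 : Ant W (0) (i) (i + j))
    (s2 : Ant W (j + 1) (Q) (i + j))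
    (b : Par W (i + 1) (i + l + 1) (k - i))
    (t1 : Ant W (0) (i2) (i + l + i2 + 1))
    (t2 : Ant W (i + l + 2) (Q) (i + l + i2 + 1))
    (c : Par W (i2 + 1) (Q) (k + l - n - i2 + 1))
    (n1 : Nd W (j) (i) (k))
    (n2 : Nd W (i + l + 1) (i2) (k + l - n + 1))
    (b0 : (2 * Q) ≤ (n + i + j))
    (b1 : (2 * k + 3) ≤ (n + 2 * Q))
    (b2 : (i + 2 * j + 2) ≤ (k))
    (b3 : (i + k + 2 * l + 1) ≤ (n + 2 * j)) : False := by
  have ev := al.ev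
  obtain ⟨y0, y1, y2, y3, y4, y5, y6, y7, y8⟩ := id hy
  have n1p := And.intro n1.p1 n1.p2
  have n2p := And.intro n2.p1 n2.p2
  by_cases z6 : (k) ≤ (i + j + l + i2 + 1)
  · exact l1_100L_6 al mx hL hy a1 a2 s1 s2 b t1 t2 c n1 n2 (by clear * - b0; omega) (by clear * - b1; omega) (by clear * - b2; omega) (by clear * - b3; omega) (by clear * - z6; omega)
  · exact l1_100L_7 al mx hL hy a1 a2 s1 s2 b t1 t2 c n1 n2 (by clear * - b0; omega) (by clear * - b1; omega) (by clear * - b2; omega) (by clear * - b3; omega) (by clear * - z6; omega)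

theorem l1_100L_4 {W : ℤ → G} {n Q i j k l i2 : ℤ} (al : AL W n Q)
    {L : ℤ} (mx : ∀ a b g, 0 < g → g < n → Par W a b g → b - a ≤ L) (hL : L ≤ (n - j - 3) ∧ L ≤ (n + Q - k - 3) ∧ L ≤ (n - l - 3) ∧ L ≤ (k - j - 2))
    (hy : (0) ≤ (i) ∧ (i) ≤ (j) ∧ (j + 1) ≤ (Q) ∧ (Q) ≤ (k) ∧ (k + 1) ≤ (n) ∧ (i + l + 2) ≤ (Q) ∧ (n) ≤ (k + l + 1) ∧ (0) ≤ (i2) ∧ (i2) ≤ (i + l + 1))
    (a1 : Par W (0) (j) (k - j))
    (a2 : Par W (Q + j - k) (j) (k - j))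
    (s1 : Ant W (0) (i) (i + j))
    (s2 : Ant W (j + 1) (Q) (i + j))
    (b : Par W (i + 1) (i + l + 1) (k - i))
    (t1 : Ant W (0) (i2) (i + l + i2 + 1))
    (t2 : Ant W (i + l + 2) (Q) (i + l + i2 + 1))
    (c : Par W (i2 + 1) (Q) (k + l - n - i2 + 1))
    (n1 : Nd W (j) (i) (k))
    (n2 : Nd W (i + l + 1) (i2) (k + l - n + 1))
    (b0 : (2 * Q) ≤ (n + i + j))
    (b1 : (2 * k + 3) ≤ (n + 2 * Q))
    (b2 : (i + 2 * j + 2) ≤ (k)) : False := by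
  have ev := al.ev
  obtain ⟨y0, y1, y2, y3, y4, y5, y6, y7, y8⟩ := id hy
  have n1p := And.intro n1.p1 n1.p2
  have n2p := And.intro n2.p1 n2.p2
  by_cases z5 : (n + 2 * j) ≤ (i + k + 2 * l)
  · have k13 : (k + 1) ≤ (n + i) := by clear * - y0 y4; omega
    have k14 : (n + i + 2 * j + 2) ≤ (2 * Q + k) := by clear * - y5 z5; omega
    have k15 : (k + 2) ≤ (n + i) := by clear * - y0 y4 ev n1p n2p; omega
    have k16 : (n + 2 * j) ≤ (i + k + 2 * l) := by clear * - z5; omega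
    have k17 : (i + k + 2) ≤ (n + 2 * Q) := by clear * - b0 b1 y4 y5 y6 z5; omega
    have k18 : (3 * k + 2) ≤ (3 * n + i + 2 * j) := by clear * - b0 b1 y1; omega
    have k19 : (k) ≤ (n + i + 2 * l) := by clear * - b0 b1 y4 y6 z5; omega
    have k20 : (n + i + 2 * j) ≤ (2 * Q + k + 2 * l) := by clear * - b1 b2 y6; omega
    have k21 : (n + 2 * j) ≤ (i + k + 4 * l + 2) := by clear * - y4 y6 z5; omega
    clear * - al a1 a2 s1 s2 b t1 t2 c n1 n2 mx hL ev n1p n2p k13 k14 k15 k16 k17 k18 k19 k20 k21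
    exact midP al (n + i - k) (i + j) (max (k - n + 1) (max (j - l) (j + 1))) (k - n + 1) (i + l + 1) (by omega) (fun t h1 h2 => (qa s2 al 0 t ((i + j) - t) (by omega))) (fun t h1 h2 => (pb b al (-1) t (t + (n + i - k)) (by omega)))
  · exact l1_100L_5 al mx hL hy a1 a2 s1 s2 b t1 t2 c n1 n2 (by clear * - b0; omega) (by clear * - b1; omega) (by clear * - b2; omega) (by clear * - z5; omega)

theorem l1_100L_3 {W : ℤ → G} {n Q i j k l i2 : ℤ} (al : AL W n Q)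
    {L : ℤ} (mx : ∀ a b g, 0 < g → g < n → Par W a b g → b - a ≤ L) (hL : L ≤ (n - j - 3) ∧ L ≤ (n + Q - k - 3) ∧ L ≤ (n - l - 3) ∧ L ≤ (k - j - 2))
    (hy : (0) ≤ (i) ∧ (i) ≤ (j) ∧ (j + 1) ≤ (Q) ∧ (Q) ≤ (k) ∧ (k + 1) ≤ (n) ∧ (i + l + 2) ≤ (Q) ∧ (n) ≤ (k + l + 1) ∧ (0) ≤ (i2) ∧ (i2) ≤ (i + l + 1))
    (a1 : Par W (0) (j) (k - j))
    (a2 : Par W (Q + j - k) (j) (k - j))
    (s1 : Ant W (0) (i) (i + j))
    (s2 : Ant W (j + 1) (Q) (i + j))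
    (b : Par W (i + 1) (i + l + 1) (k - i))
    (t1 : Ant W (0) (i2) (i + l + i2 + 1))
    (t2 : Ant W (i + l + 2) (Q) (i + l + i2 + 1))
    (c : Par W (i2 + 1) (Q) (k + l - n - i2 + 1))
    (n1 : Nd W (j) (i) (k))
    (n2 : Nd W (i + l + 1) (i2) (k + l - n + 1))
    (b0 : (2 * j + 2) ≤ (k))
    (b1 : (2 * Q) ≤ (n + i + j))
    (b2 : (2 * k + 3) ≤ (n + 2 * Q)) : False := by
  have ev := al.ev
  obtain ⟨y0, y1, y2, y3, y4, y5, y6, y7, y8⟩ := id hy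
  have n1p := And.intro n1.p1 n1.p2
  have n2p := And.intro n2.p1 n2.p2
  by_cases z4 : (k) ≤ (i + 2 * j + 1)
  · have k9 : (k) ≤ (i + 2 * j) := by clear * - z4 ev n1p n2p; omega
    have k10 : (2 * j + 2) ≤ (i + k) := by clear * - b0 z4; omega
    have k11 : (i + 1) ≤ (k) := by clear * - y3 y4 y5 y6; omega
    have k12 : (k) ≤ (i + 2 * j + 1) := by clear * - z4; omega
    clear * - al a1 a2 s1 s2 b t1 t2 c n1 n2 mx hL ev n1p n2p k9 k10 k11 k12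
    obtain ⟨t, ht⟩ : ∃ t, 2 * t = (2 * n + i + 2 * j - k) := ⟨(2 * n + i + 2 * j - k) / 2, by omega⟩
    exact al.ninv t (cE (cI (qf a1 al 1 t (t + (k - n - j)) (by omega)) (ab s1 al 0 (t + (k - n - j)) ((n + i + 2 * j - k) - t) (by omega))) (sh al 1 ((n + i + 2 * j - k) - t) t (by omega)))
  · exact l1_100L_4 al mx hL hy a1 a2 s1 s2 b t1 t2 c n1 n2 (by clear * - b1; omega) (by clear * - b2; omega) (by clear * - z4; omega)

theorem l1_100L_2 {W : ℤ → G} {n Q i j k l i2 : ℤ} (al : AL W n Q)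
    {L : ℤ} (mx : ∀ a b g, 0 < g → g < n → Par W a b g → b - a ≤ L) (hL : L ≤ (n - j - 3) ∧ L ≤ (n + Q - k - 3) ∧ L ≤ (n - l - 3) ∧ L ≤ (k - j - 2))
    (hy : (0) ≤ (i) ∧ (i) ≤ (j) ∧ (j + 1) ≤ (Q) ∧ (Q) ≤ (k) ∧ (k + 1) ≤ (n) ∧ (i + l + 2) ≤ (Q) ∧ (n) ≤ (k + l + 1) ∧ (0) ≤ (i2) ∧ (i2) ≤ (i + l + 1))
    (a1 : Par W (0) (j) (k - j))
    (a2 : Par W (Q + j - k) (j) (k - j))
    (s1 : Ant W (0) (i) (i + j))
    (s2 : Ant W (j + 1) (Q) (i + j))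
    (b : Par W (i + 1) (i + l + 1) (k - i))
    (t1 : Ant W (0) (i2) (i + l + i2 + 1))
    (t2 : Ant W (i + l + 2) (Q) (i + l + i2 + 1))
    (c : Par W (i2 + 1) (Q) (k + l - n - i2 + 1))
    (n1 : Nd W (j) (i) (k))
    (n2 : Nd W (i + l + 1) (i2) (k + l - n + 1))
    (b0 : (2 * j + 2) ≤ (k))
    (b1 : (2 * Q) ≤ (n + i + j)) : False := by
  have ev := al.ev
  obtain ⟨y0, y1, y2, y3, y4, y5, y6, y7, y8⟩ := id hy
  have n1p := And.intro n1.p1 n1.p2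
  have n2p := And.intro n2.p1 n2.p2
  by_cases z3 : (n + 2 * Q) ≤ (2 * k + 2)
  · have k6 : (j + 1) ≤ (k) := by clear * - b0 b1 y5 y6 y7 y8; omega
    have k7 : (k + 1) ≤ (n + j) := by clear * - y0 y1 y4; omega
    have k8 : (n + 2 * Q) ≤ (2 * k + 2) := by clear * - z3; omega
    clear * - al a1 a2 s1 s2 b t1 t2 c n1 n2 mx hL ev n1p n2p k6 k7 k8
    exact absurd (mx (n + Q + j - k) (n + j) (k - j) (by omega) (by omega) fun t h1 h2 => (cE (qf a2 al 1 t (t + (k - n - j)) (by omega)) (sh al 1 (t + (k - n - j)) (t + (k - j)) (by omega)))) (by omega)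
  · exact l1_100L_3 al mx hL hy a1 a2 s1 s2 b t1 t2 c n1 n2 (by clear * - b0; omega) (by clear * - b1; omega) (by clear * - z3; omega)

theorem l1_100L_1 {W : ℤ → G} {n Q i j k l i2 : ℤ} (al : AL W n Q)
    {L : ℤ} (mx : ∀ a b g, 0 < g → g < n → Par W a b g → b - a ≤ L) (hL : L ≤ (n - j - 3) ∧ L ≤ (n + Q - k - 3) ∧ L ≤ (n - l - 3) ∧ L ≤ (k - j - 2))
    (hy : (0) ≤ (i) ∧ (i) ≤ (j) ∧ (j + 1) ≤ (Q) ∧ (Q) ≤ (k) ∧ (k + 1) ≤ (n) ∧ (i + l + 2) ≤ (Q) ∧ (n) ≤ (k + l + 1) ∧ (0) ≤ (i2) ∧ (i2) ≤ (i + l + 1))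
    (a1 : Par W (0) (j) (k - j))
    (a2 : Par W (Q + j - k) (j) (k - j))
    (s1 : Ant W (0) (i) (i + j))
    (s2 : Ant W (j + 1) (Q) (i + j))
    (b : Par W (i + 1) (i + l + 1) (k - i))
    (t1 : Ant W (0) (i2) (i + l + i2 + 1))
    (t2 : Ant W (i + l + 2) (Q) (i + l + i2 + 1))
    (c : Par W (i2 + 1) (Q) (k + l - n - i2 + 1))
    (n1 : Nd W (j) (i) (k))
    (n2 : Nd W (i + l + 1) (i2) (k + l - n + 1))
    (b0 : (2 * j + 2) ≤ (k)) : False := by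
  have ev := al.ev
  obtain ⟨y0, y1, y2, y3, y4, y5, y6, y7, y8⟩ := id hy
  have n1p := And.intro n1.p1 n1.p2
  have n2p := And.intro n2.p1 n2.p2
  by_cases z2 : (n + i + j + 1) ≤ (2 * Q)
  · have k4 : (n + i + j + 2) ≤ (2 * Q) := by clear * - z2 ev n1p n2p; omega
    have k5 : (j + 1) ≤ (n + i) := by clear * - y0 y3 y4 z2; omega
    clear * - al a1 a2 s1 s2 b t1 t2 c n1 n2 mx hL ev n1p n2p k4 k5
    obtain ⟨t, ht⟩ : ∃ t, 2 * t = (i + j - n) := ⟨(i + j - n) / 2, by omega⟩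
    exact al.ninv t (cE (ab s2 al 0 t ((i + j) - t) (by omega)) (sh al (-1) ((i + j) - t) t (by omega)))
  · exact l1_100L_2 al mx hL hy a1 a2 s1 s2 b t1 t2 c n1 n2 (by clear * - b0; omega) (by clear * - z2; omega)

theorem l1_100L {W : ℤ → G} {n Q i j k l i2 : ℤ} (al : AL W n Q)
    {L : ℤ} (mx : ∀ a b g, 0 < g → g < n → Par W a b g → b - a ≤ L) (hL : L ≤ (n - j - 3) ∧ L ≤ (n + Q - k - 3) ∧ L ≤ (n - l - 3) ∧ L ≤ (k - j - 2))
    (hy : (0) ≤ (i) ∧ (i) ≤ (j) ∧ (j + 1) ≤ (Q) ∧ (Q) ≤ (k) ∧ (k + 1) ≤ (n) ∧ (i + l + 2) ≤ (Q) ∧ (n) ≤ (k + l + 1) ∧ (0) ≤ (i2) ∧ (i2) ≤ (i + l + 1))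
    (a1 : Par W (0) (j) (k - j))
    (a2 : Par W (Q + j - k) (j) (k - j))
    (s1 : Ant W (0) (i) (i + j))
    (s2 : Ant W (j + 1) (Q) (i + j))
    (b : Par W (i + 1) (i + l + 1) (k - i))
    (t1 : Ant W (0) (i2) (i + l + i2 + 1))
    (t2 : Ant W (i + l + 2) (Q) (i + l + i2 + 1))
    (c : Par W (i2 + 1) (Q) (k + l - n - i2 + 1))
    (n1 : Nd W (j) (i) (k))
    (n2 : Nd W (i + l + 1) (i2) (k + l - n + 1)) : False := by
  have ev := al.ev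
  obtain ⟨y0, y1, y2, y3, y4, y5, y6, y7, y8⟩ := id hy
  have n1p := And.intro n1.p1 n1.p2
  have n2p := And.intro n2.p1 n2.p2
  by_cases z1 : (k) ≤ (2 * j + 1)
  · have k1 : (k + 1) ≤ (n + j) := by clear * - y3 y4 y5 y7 y8 z1; omega
    have k2 : (j + 1) ≤ (k) := by clear * - y2 y3; omega
    have k3 : (k) ≤ (2 * j + 1) := by clear * - z1; omega
    clear * - al a1 a2 s1 s2 b t1 t2 c n1 n2 mx hL ev n1p n2p k1 k2 k3
    exact absurd (mx (k - n - j) (k - n) (n + j - k) (by omega) (by omega) fun t h1 h2 => (pb a1 al (-1) t (t + (n + j - k)) (by omega))) (by omega)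
  · exact l1_100L_1 al mx hL hy a1 a2 s1 s2 b t1 t2 c n1 n2 (by clear * - z1; omega)

end Pool.Agent.MP_a38735_al.WL
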