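import Pool.Agent.MP_a38735_al.Q1m2
import Pool.Agent.MP_a38735_al.Q1m3
import Pool.Agent.MP_a38735_al.Lam

set_option autoImplicit false

namespace Pool.Agent.MP_a38735_al.WL

theorem stL1 (G : Type*) [Group G] : StL1 G := by
  intro W n Q i j k l p q s e i2 j2 k2 al lf jk h1 h2 n2 t1 t2 c
  obtain ⟨L, lm⟩ := al.lm (by have := lf.nd.p2; have := lf.i0; have := lf.ij; have := lf.jQ; have := lf.Qk; have := lf.kn; omega)
  have hL := lm.leaf al lf
  obtain ⟨i0, ij, jQ, Qk, kn, n1, a1, a2, s1, s2, b, rfl, lk⟩ := lf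
  rcases lk with ⟨e1, e2, rfl, _, _⟩ | ⟨e1, e2, rfl, _, _⟩ <;> rcases jk with ⟨rfl, rfl⟩ | ⟨rfl, rfl⟩ <;>
    rcases c with c | c
  · exact l1_000 (i := i) (j := j) (k := k) (l := l) (i2 := i2) al (by omega) (a1.cq (by omega)) (a2.cq (by omega)) (s1.cq (by omega)) (s2.cq (by omega)) (b.cq (by omega)) (t1.cq (by omega)) (t2.cq (by omega)) (c.cq (by omega)) (n1.cq (by omega)) (n2.cq (by omega))
  · exact l1_001 (i := i) (j := j) (k := k) (l := l) (i2 := i2) al (by omega) (a1.cq (by omega)) (a2.cq (by omega)) (s1.cq (by omega)) (s2.cq (by omega)) (b.cq (by omega)) (t1.cq (by omega)) (t2.cq (by omega)) (c.cq (by omega)) (n1.cq (by omega)) (n2.cq (by omega))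
  · exact l1_010 (i := i) (j := j) (k := k) (l := l) (i2 := i2) al (by omega) (a1.cq (by omega)) (a2.cq (by omega)) (s1.cq (by omega)) (s2.cq (by omega)) (b.cq (by omega)) (t1.cq (by omega)) (t2.cq (by omega)) (c.cq (by omega)) (n1.cq (by omega)) (n2.cq (by omega))
  · exact l1_011 (i := i) (j := j) (k := k) (l := l) (i2 := i2) al (by omega) (a1.cq (by omega)) (a2.cq (by omega)) (s1.cq (by omega)) (s2.cq (by omega)) (b.cq (by omega)) (t1.cq (by omega)) (t2.cq (by omega)) (c.cq (by omega)) (n1.cq (by omega)) (n2.cq (by omega))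
  · exact l1_100L (i := i) (j := j) (k := k) (l := l) (i2 := i2) al lm.mx (by omega) (by omega) (a1.cq (by omega)) (a2.cq (by omega)) (s1.cq (by omega)) (s2.cq (by omega)) (b.cq (by omega)) (t1.cq (by omega)) (t2.cq (by omega)) (c.cq (by omega)) (n1.cq (by omega)) (n2.cq (by omega))
  · exact l1_101 (i := i) (j := j) (k := k) (l := l) (i2 := i2) al (by omega) (a1.cq (by omega)) (a2.cq (by omega)) (s1.cq (by omega)) (s2.cq (by omega)) (b.cq (by omega)) (t1.cq (by omega)) (t2.cq (by omega)) (c.cq (by omega)) (n1.cq (by omega)) (n2.cq (by omega))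
  · exact l1_110 (i := i) (j := j) (k := k) (l := l) (i2 := i2) al (by omega) (a1.cq (by omega)) (a2.cq (by omega)) (s1.cq (by omega)) (s2.cq (by omega)) (b.cq (by omega)) (t1.cq (by omega)) (t2.cq (by omega)) (c.cq (by omega)) (n1.cq (by omega)) (n2.cq (by omega))
  · exact l1_111 (i := i) (j := j) (k := k) (l := l) (i2 := i2) al (by omega) (a1.cq (by omega)) (a2.cq (by omega)) (s1.cq (by omega)) (s2.cq (by omega)) (b.cq (by omega)) (t1.cq (by omega)) (t2.cq (by omega)) (c.cq (by omega)) (n1.cq (by omega)) (n2.cq (by omega))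

end Pool.Agent.MP_a38735_al.WL
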