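import Pool.Agent.MP_a38735_al.Q2c1

set_option autoImplicit false
set_option linter.unusedVariables false

namespace Pool.Agent.MP_a38735_al.WL

variable {G : Type*} [Group G]

theorem l2_11001_7 {W : ℤ → G} {n Q i j k l i2 l2 i3 : ℤ} (al : AL W n Q)
    {L : ℤ} (mx : ∀ a b g, 0 < g → g < n → Par W a b g → b - a ≤ L) (hL : L ≤ (n - j - 3) ∧ L ≤ (n + Q - k - 3) ∧ L ≤ (n - l - 3) ∧ L ≤ (k - j - 2) ∧ L ≤ (n - l2 - 3) ∧ L ≤ (i3 - 2) ∧ L ≤ (n + i2 + l2 - Q - 1) ∧ L ≤ (n + i2 - i - l - 3))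
    (hy : (0) ≤ (i) ∧ (i) ≤ (j) ∧ (j + 1) ≤ (Q) ∧ (Q) ≤ (k) ∧ (k + 1) ≤ (n) ∧ (i + l + 2) ≤ (Q) ∧ (n) ≤ (k + l + 1) ∧ (0) ≤ (i2) ∧ (n + i2) ≤ (k + l + 1) ∧ (0) ≤ (i2 + l2 + 1) ∧ (i2 + l2 + 2) ≤ (Q) ∧ (Q) ≤ (i + l + l2 + 2) ∧ (i + l + l2 + 3) ≤ (n) ∧ (Q) ≤ (i3) ∧ (i3) ≤ (i + l + l2 + 2) ∧ (j + 3) ≤ (n) ∧ (k + 3) ≤ (n + Q) ∧ (l + 3) ≤ (n) ∧ (j + 2) ≤ (k) ∧ (l2 + 3) ≤ (n) ∧ (2) ≤ (i3) ∧ (Q + 1) ≤ (n + i2 + l2) ∧ (i + l + 3) ≤ (n + i2))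
    (a1 : Par W (0) (j) (k - j))
    (a2 : Par W (Q + j - k) (j) (k - j))
    (s1 : Ant W (0) (i) (i + j))
    (s2 : Ant W (j + 1) (Q) (i + j))
    (b : Par W (i + 1) (i + l + 1) (k - i))
    (tt : Ant W (0) (i2) (k + l + i2 - n + 1))
    (c : Par W (i2 + 1) (i2 + l2 + 1) (i + l - i2 + 1))
    (u1 : Ant W (Q) (i3) (i + l + l2 + i3 + 2))
    (u2 : Ant W (i + l + l2 + 3) (n) (i + l + l2 + i3 + 2))
    (d1 : Par W (i3 + 1) (n) (i2 + l2 - i3 + 1))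
    (d2 : Par W (i2 + l2 + 2) (Q) (i3 - i2 - l2 - 1))
    (n1 : Nd W (j) (i) (k))
    (n2 : Nd W (k + l - n + 1) (i2) (i + l + 1))
    (n3 : Nd W (i + l + l2 + 2) (i3) (i2 + l2 + 1))
    (b0 : (2 * j + 2) ≤ (k))
    (b1 : (2 * Q) ≤ (n + i + j + 1))
    (b2 : (2 * k + 3) ≤ (n + 2 * Q))
    (b3 : (n + 2 * i) ≤ (j + k))
    (b4 : (2 * n + i2) ≤ (2 * i + 2 * l + l2 + i3 + 4))
    (b5 : (2 * l + 3) ≤ (n)) : False := by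
  have ev := al.ev
  obtain ⟨y0, y1, y2, y3, y4, y5, y6, y7, y8, y9, y10, y11, y12, y13, y14, y15, y16, y17, y18, y19, y20, y21, y22⟩ := id hy
  have n1p := And.intro n1.p1 n1.p2
  have n2p := And.intro n2.p1 n2.p2
  have n3p := And.intro n3.p1 n3.p2
  by_cases z13 : (n) ≤ (2 * l2 + 2)
  · have k39 : (i + l + 2) ≤ (n + i2) := by clear * - y22; omega
    have k40 : (i2) ≤ (i + l) := by clear * - b4 y12 y14; omega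
    have k41 : L ≤ (n - l2 - 3) := by clear * - hL; omega
    clear * - al a1 a2 s1 s2 b tt c u1 u2 d1 d2 n1 n2 n3 mx k39 k40 z13 k41
    exact absurd (mx (n + i + l + 2) (n + i + l + l2 + 2) (n + i2 - i - l - 1) (by omega) (by omega) fun t h1 h2 => (cE (pb c al 1 t (t + (i2 - n - i - l - 1)) (by omega)) (sh al 2 (t + (i2 - n - i - l - 1)) (t + (n + i2 - i - l - 1)) (by omega)))) (by omega)
  · exact l2_11001_8 al mx hL hy a1 a2 s1 s2 b tt c u1 u2 d1 d2 n1 n2 n3 (by clear * - b0; omega) (by clear * - b1; omega) (by clear * - b2; omega) (by clear * - b3; omega) (by clear * - b4; omega) (by clear * - b5; omega) (by clear * - z13; omega)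

theorem l2_11001_6 {W : ℤ → G} {n Q i j k l i2 l2 i3 : ℤ} (al : AL W n Q)
    {L : ℤ} (mx : ∀ a b g, 0 < g → g < n → Par W a b g → b - a ≤ L) (hL : L ≤ (n - j - 3) ∧ L ≤ (n + Q - k - 3) ∧ L ≤ (n - l - 3) ∧ L ≤ (k - j - 2) ∧ L ≤ (n - l2 - 3) ∧ L ≤ (i3 - 2) ∧ L ≤ (n + i2 + l2 - Q - 1) ∧ L ≤ (n + i2 - i - l - 3))
    (hy : (0) ≤ (i) ∧ (i) ≤ (j) ∧ (j + 1) ≤ (Q) ∧ (Q) ≤ (k) ∧ (k + 1) ≤ (n) ∧ (i + l + 2) ≤ (Q) ∧ (n) ≤ (k + l + 1) ∧ (0) ≤ (i2) ∧ (n + i2) ≤ (k + l + 1) ∧ (0) ≤ (i2 + l2 + 1) ∧ (i2 + l2 + 2) ≤ (Q) ∧ (Q) ≤ (i + l + l2 + 2) ∧ (i + l + l2 + 3) ≤ (n) ∧ (Q) ≤ (i3) ∧ (i3) ≤ (i + l + l2 + 2) ∧ (j + 3) ≤ (n) ∧ (k + 3) ≤ (n + Q) ∧ (l + 3) ≤ (n) ∧ (j + 2) ≤ (k) ∧ (l2 + 3) ≤ (n) ∧ (2) ≤ (i3) ∧ (Q + 1) ≤ (n + i2 + l2) ∧ (i + l + 3) ≤ (n + i2))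
    (a1 : Par W (0) (j) (k - j))
    (a2 : Par W (Q + j - k) (j) (k - j))
    (s1 : Ant W (0) (i) (i + j))
    (s2 : Ant W (j + 1) (Q) (i + j))
    (b : Par W (i + 1) (i + l + 1) (k - i))
    (tt : Ant W (0) (i2) (k + l + i2 - n + 1))
    (c : Par W (i2 + 1) (i2 + l2 + 1) (i + l - i2 + 1))
    (u1 : Ant W (Q) (i3) (i + l + l2 + i3 + 2))
    (u2 : Ant W (i + l + l2 + 3) (n) (i + l + l2 + i3 + 2))
    (d1 : Par W (i3 + 1) (n) (i2 + l2 - i3 + 1))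
    (d2 : Par W (i2 + l2 + 2) (Q) (i3 - i2 - l2 - 1))
    (n1 : Nd W (j) (i) (k))
    (n2 : Nd W (k + l - n + 1) (i2) (i + l + 1))
    (n3 : Nd W (i + l + l2 + 2) (i3) (i2 + l2 + 1))
    (b0 : (2 * j + 2) ≤ (k))
    (b1 : (2 * Q) ≤ (n + i + j + 1))
    (b2 : (2 * k + 3) ≤ (n + 2 * Q))
    (b3 : (n + 2 * i) ≤ (j + k))
    (b4 : (2 * n + i2) ≤ (2 * i + 2 * l + l2 + i3 + 4)) : False := by
  have ev := al.ev
  obtain ⟨y0, y1, y2, y3, y4, y5, y6, y7, y8, y9, y10, y11, y12, y13, y14, y15, y16, y17, y18, y19, y20, y21, y22⟩ := id hy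
  have n1p := And.intro n1.p1 n1.p2
  have n2p := And.intro n2.p1 n2.p2
  have n3p := And.intro n3.p1 n3.p2
  by_cases z12 : (n) ≤ (2 * l + 2)
  · have k36 : (k + 1) ≤ (n + i) := by clear * - y0 y4; omega
    have k37 : (i + 1) ≤ (k) := by clear * - b1 b2 b3 y18; omega
    have k38 : L ≤ (n - l - 3) := by clear * - hL; omega
    clear * - al a1 a2 s1 s2 b tt c u1 u2 d1 d2 n1 n2 n3 mx k36 k37 z12 k38
    exact absurd (mx (n + k + 1) (n + k + l + 1) (n + i - k) (by omega) (by omega) fun t h1 h2 => (cE (pb b al 1 t (t + (i - n - k)) (by omega)) (sh al 2 (t + (i - n - k)) (t + (n + i - k)) (by omega)))) (by omega)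
  · exact l2_11001_7 al mx hL hy a1 a2 s1 s2 b tt c u1 u2 d1 d2 n1 n2 n3 (by clear * - b0; omega) (by clear * - b1; omega) (by clear * - b2; omega) (by clear * - b3; omega) (by clear * - b4; omega) (by clear * - z12; omega)

theorem l2_11001_5 {W : ℤ → G} {n Q i j k l i2 l2 i3 : ℤ} (al : AL W n Q)
    {L : ℤ} (mx : ∀ a b g, 0 < g → g < n → Par W a b g → b - a ≤ L) (hL : L ≤ (n - j - 3) ∧ L ≤ (n + Q - k - 3) ∧ L ≤ (n - l - 3) ∧ L ≤ (k - j - 2) ∧ L ≤ (n - l2 - 3) ∧ L ≤ (i3 - 2) ∧ L ≤ (n + i2 + l2 - Q - 1) ∧ L ≤ (n + i2 - i - l - 3))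
    (hy : (0) ≤ (i) ∧ (i) ≤ (j) ∧ (j + 1) ≤ (Q) ∧ (Q) ≤ (k) ∧ (k + 1) ≤ (n) ∧ (i + l + 2) ≤ (Q) ∧ (n) ≤ (k + l + 1) ∧ (0) ≤ (i2) ∧ (n + i2) ≤ (k + l + 1) ∧ (0) ≤ (i2 + l2 + 1) ∧ (i2 + l2 + 2) ≤ (Q) ∧ (Q) ≤ (i + l + l2 + 2) ∧ (i + l + l2 + 3) ≤ (n) ∧ (Q) ≤ (i3) ∧ (i3) ≤ (i + l + l2 + 2) ∧ (j + 3) ≤ (n) ∧ (k + 3) ≤ (n + Q) ∧ (l + 3) ≤ (n) ∧ (j + 2) ≤ (k) ∧ (l2 + 3) ≤ (n) ∧ (2) ≤ (i3) ∧ (Q + 1) ≤ (n + i2 + l2) ∧ (i + l + 3) ≤ (n + i2))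
    (a1 : Par W (0) (j) (k - j))
    (a2 : Par W (Q + j - k) (j) (k - j))
    (s1 : Ant W (0) (i) (i + j))
    (s2 : Ant W (j + 1) (Q) (i + j))
    (b : Par W (i + 1) (i + l + 1) (k - i))
    (tt : Ant W (0) (i2) (k + l + i2 - n + 1))
    (c : Par W (i2 + 1) (i2 + l2 + 1) (i + l - i2 + 1))
    (u1 : Ant W (Q) (i3) (i + l + l2 + i3 + 2))
    (u2 : Ant W (i + l + l2 + 3) (n) (i + l + l2 + i3 + 2))
    (d1 : Par W (i3 + 1) (n) (i2 + l2 - i3 + 1))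
    (d2 : Par W (i2 + l2 + 2) (Q) (i3 - i2 - l2 - 1))
    (n1 : Nd W (j) (i) (k))
    (n2 : Nd W (k + l - n + 1) (i2) (i + l + 1))
    (n3 : Nd W (i + l + l2 + 2) (i3) (i2 + l2 + 1))
    (b0 : (2 * j + 2) ≤ (k))
    (b1 : (2 * Q) ≤ (n + i + j + 1))
    (b2 : (2 * k + 3) ≤ (n + 2 * Q))
    (b3 : (n + 2 * i) ≤ (j + k)) : False := by
  have ev := al.ev
  obtain ⟨y0, y1, y2, y3, y4, y5, y6, y7, y8, y9, y10, y11, y12, y13, y14, y15, y16, y17, y18, y19, y20, y21, y22⟩ := id hy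
  have n1p := And.intro n1.p1 n1.p2
  have n2p := And.intro n2.p1 n2.p2
  have n3p := And.intro n3.p1 n3.p2
  by_cases z11 : (2 * i + 2 * l + l2 + i3 + 5) ≤ (2 * n + i2)
  · have k31 : (2 * i + 2 * l + l2 + 3 * i3 + 5) ≤ (4 * n + i2) := by clear * - y12 y14 z11; omega
    have k32 : (i2 + l2 + 3) ≤ (i3) := by clear * - y10 y13 ev n1p n2p n3p; omega
    have k33 : (3 * i2 + l2 + 1) ≤ (2 * i + 2 * l + i3) := by clear * - y10 y13 y14; omega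
    have k34 : (2 * n + i + l + l2 + i3 + 2) % 2 = 0 := by clear * - ev n1p n2p n3p; omega
    have k35 : (i3 - i2 - l2 - 1) % 2 = 0 := by clear * - ev n1p n2p n3p; omega
    clear * - al a1 a2 s1 s2 b tt c u1 u2 d1 d2 n1 n2 n3 z11 k31 k32 k33 k34 k35
    exact midP al (i3 - i2 - l2 - 1) (2 * n + i + l + l2 + i3 + 2) (max (n + i2 + l2 + 2) (i + l + l2 + i3 + 3)) (n + i2 + l2 + 2) (2 * n) (by omega) (fun t h1 h2 => (cE (ab u2 al 1 t ((n + i + l + l2 + i3 + 2) - t) (by omega)) (sh al 1 ((n + i + l + l2 + i3 + 2) - t) ((2 * n + i + l + l2 + i3 + 2) - t) (by omega)))) (fun t h1 h2 => (cE (pb d1 al 1 t (t + (i3 - n - i2 - l2 - 1)) (by omega)) (sh al 1 (t + (i3 - n - i2 - l2 - 1)) (t + (i3 - i2 - l2 - 1)) (by omega))))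
  · exact l2_11001_6 al mx hL hy a1 a2 s1 s2 b tt c u1 u2 d1 d2 n1 n2 n3 (by clear * - b0; omega) (by clear * - b1; omega) (by clear * - b2; omega) (by clear * - b3; omega) (by clear * - z11; omega)

theorem l2_11001_4 {W : ℤ → G} {n Q i j k l i2 l2 i3 : ℤ} (al : AL W n Q)
    {L : ℤ} (mx : ∀ a b g, 0 < g → g < n → Par W a b g → b - a ≤ L) (hL : L ≤ (n - j - 3) ∧ L ≤ (n + Q - k - 3) ∧ L ≤ (n - l - 3) ∧ L ≤ (k - j - 2) ∧ L ≤ (n - l2 - 3) ∧ L ≤ (i3 - 2) ∧ L ≤ (n + i2 + l2 - Q - 1) ∧ L ≤ (n + i2 - i - l - 3))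
    (hy : (0) ≤ (i) ∧ (i) ≤ (j) ∧ (j + 1) ≤ (Q) ∧ (Q) ≤ (k) ∧ (k + 1) ≤ (n) ∧ (i + l + 2) ≤ (Q) ∧ (n) ≤ (k + l + 1) ∧ (0) ≤ (i2) ∧ (n + i2) ≤ (k + l + 1) ∧ (0) ≤ (i2 + l2 + 1) ∧ (i2 + l2 + 2) ≤ (Q) ∧ (Q) ≤ (i + l + l2 + 2) ∧ (i + l + l2 + 3) ≤ (n) ∧ (Q) ≤ (i3) ∧ (i3) ≤ (i + l + l2 + 2) ∧ (j + 3) ≤ (n) ∧ (k + 3) ≤ (n + Q) ∧ (l + 3) ≤ (n) ∧ (j + 2) ≤ (k) ∧ (l2 + 3) ≤ (n) ∧ (2) ≤ (i3) ∧ (Q + 1) ≤ (n + i2 + l2) ∧ (i + l + 3) ≤ (n + i2))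
    (a1 : Par W (0) (j) (k - j))
    (a2 : Par W (Q + j - k) (j) (k - j))
    (s1 : Ant W (0) (i) (i + j))
    (s2 : Ant W (j + 1) (Q) (i + j))
    (b : Par W (i + 1) (i + l + 1) (k - i))
    (tt : Ant W (0) (i2) (k + l + i2 - n + 1))
    (c : Par W (i2 + 1) (i2 + l2 + 1) (i + l - i2 + 1))
    (u1 : Ant W (Q) (i3) (i + l + l2 + i3 + 2))
    (u2 : Ant W (i + l + l2 + 3) (n) (i + l + l2 + i3 + 2))
    (d1 : Par W (i3 + 1) (n) (i2 + l2 - i3 + 1))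
    (d2 : Par W (i2 + l2 + 2) (Q) (i3 - i2 - l2 - 1))
    (n1 : Nd W (j) (i) (k))
    (n2 : Nd W (k + l - n + 1) (i2) (i + l + 1))
    (n3 : Nd W (i + l + l2 + 2) (i3) (i2 + l2 + 1))
    (b0 : (2 * j + 2) ≤ (k))
    (b1 : (2 * Q) ≤ (n + i + j + 1))
    (b2 : (2 * k + 3) ≤ (n + 2 * Q))
    (b3 : (j + k + 1) ≤ (n + 2 * i)) : False := by
  have ev := al.ev
  obtain ⟨y0, y1, y2, y3, y4, y5, y6, y7, y8, y9, y10, y11, y12, y13, y14, y15, y16, y17, y18, y19, y20, y21, y22⟩ := id hy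
  have n1p := And.intro n1.p1 n1.p2
  have n2p := And.intro n2.p1 n2.p2
  have n3p := And.intro n3.p1 n3.p2
  by_cases z5 : (n + j) ≤ (k + 2 * l + 1)
  · have k8 : (j + k + 2) ≤ (n + 2 * i) := by clear * - b3 ev n1p n2p n3p; omega
    have k9 : (n + j) ≤ (k + 2 * l) := by clear * - z5 ev n1p n2p n3p; omega
    have k10 : (n + 2 * i + j + 1) ≤ (2 * Q + k) := by clear * - y5 z5; omega
    have k11 : (k + 1) ≤ (n + j) := by clear * - b3 y1; omega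
    obtain ⟨t, ht⟩ : ∃ t, 2 * t = (2 * i + j - n - k) := ⟨(2 * i + j - n - k) / 2, by clear * - ev n1p n2p n3p; omega⟩
    clear * - al a1 a2 s1 s2 b tt c u1 u2 d1 d2 n1 n2 n3 k8 k9 k10 k11 ht
    exact al.ninv t (cE (cE (qa s2 al (-1) t ((i + j - n) - t) (by omega)) (pb b al (-1) ((i + j - n) - t) ((2 * i + j - k) - t) (by omega))) (sh al (-1) ((2 * i + j - k) - t) t (by omega)))
  · by_cases z6 : (k) ≤ (i + 2 * j + 1)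
    · have k12 : (2 * j + 2) ≤ (i + k) := by clear * - b0 z6; omega
      have k13 : (i + 2) ≤ (k) := by clear * - y22 y8; omega
      obtain ⟨t, ht⟩ : ∃ t, 2 * t = (i + k - 2 * n) := ⟨(i + k - 2 * n) / 2, by clear * - ev n1p n2p n3p; omega⟩
      clear * - al a1 a2 s1 s2 b tt c u1 u2 d1 d2 n1 n2 n3 k12 k13 z6 ht
      exact al.ninv t (cE (cE (ab s1 al (-1) t ((i + j - n) - t) (by omega)) (qf a1 al 0 ((i + j - n) - t) ((i + k - n) - t) (by omega))) (sh al (-1) ((i + k - n) - t) t (by omega)))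
    · by_cases z7 : (n) ≤ (2 * l2 + 2)
      · have k14 : (i + l + 2) ≤ (n + i2) := by clear * - y22; omega
        have k15 : (i2) ≤ (i + l) := by clear * - y10 y13 y14; omega
        have k16 : L ≤ (n - l2 - 3) := by clear * - hL; omega
        clear * - al a1 a2 s1 s2 b tt c u1 u2 d1 d2 n1 n2 n3 mx k14 k15 z7 k16
        exact absurd (mx (n + i + l + 2) (n + i + l + l2 + 2) (n + i2 - i - l - 1) (by omega) (by omega) fun t h1 h2 => (cE (pb c al 1 t (t + (i2 - n - i - l - 1)) (by omega)) (sh al 2 (t + (i2 - n - i - l - 1)) (t + (n + i2 - i - l - 1)) (by omega)))) (by omega)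
      · by_cases z8 : (2 * i + 2 * l + l2 + i3 + 5) ≤ (2 * n + i2)
        · have k17 : (i2 + l2 + 3) ≤ (i3) := by clear * - y10 y13 ev n1p n2p n3p; omega
          have k18 : (3 * i2 + l2 + 1) ≤ (2 * i + 2 * l + i3) := by clear * - y10 y13 y14; omega
          have k19 : (2 * i + 2 * l + l2 + 3 * i3 + 5) ≤ (4 * n + i2) := by clear * - y12 y14 z8; omega
          have k20 : (2 * n + i + l + l2 + i3 + 2) % 2 = 0 := by clear * - ev n1p n2p n3p; omega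
          have k21 : (i3 - i2 - l2 - 1) % 2 = 0 := by clear * - ev n1p n2p n3p; omega
          clear * - al a1 a2 s1 s2 b tt c u1 u2 d1 d2 n1 n2 n3 z8 k17 k18 k19 k20 k21
          exact midP al (i3 - i2 - l2 - 1) (2 * n + i + l + l2 + i3 + 2) (max (n + i + l + l2 + 3) (max (n + i2 + l2 + 2) (i + l + l2 + i3 + 3))) (n + i2 + l2 + 2) (2 * n) (by omega) (fun t h1 h2 => (cE (qa u2 al 1 t ((n + i + l + l2 + i3 + 2) - t) (by omega)) (sh al 1 ((n + i + l + l2 + i3 + 2) - t) ((2 * n + i + l + l2 + i3 + 2) - t) (by omega)))) (fun t h1 h2 => (cE (pb d1 al 1 t (t + (i3 - n - i2 - l2 - 1)) (by omega)) (sh al 1 (t + (i3 - n - i2 - l2 - 1)) (t + (i3 - i2 - l2 - 1)) (by omega))))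
        · by_cases z9 : (n + i + j + i2 + l2 + 3) ≤ (2 * Q + i3)
          · have k22 : (i2 + l2 + i3 + 3) ≤ (n + i + j) := by clear * - y14 y8 z5 z7 ev n1p n2p n3p; omega
            have k23 : (j + i3 + 1) ≤ (n + i + i2 + l2) := by clear * - b1 y14 y7 z5 z6 z9; omega
            have k24 : (n + i + j + i2 + l2 + 2) ≤ (2 * Q + i3) := by clear * - z9; omega
            obtain ⟨t, ht⟩ : ∃ t, 2 * t = (3 * n + i + j + i3 - i2 - l2 - 1) := ⟨(3 * n + i + j + i3 - i2 - l2 - 1) / 2, by clear * - ev n1p n2p n3p; omega⟩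
            clear * - al a1 a2 s1 s2 b tt c u1 u2 d1 d2 n1 n2 n3 k22 k23 k24 ht
            exact al.ninv t (cE (cI (pb d2 al 1 t (t + (i2 + l2 - n - i3 + 1)) (by omega)) (qa s2 al 0 (t + (i2 + l2 - n - i3 + 1)) ((n + i + j + i3 - i2 - l2 - 1) - t) (by omega))) (sh al 2 ((n + i + j + i3 - i2 - l2 - 1) - t) t (by omega)))
          · by_cases z10 : (l + i2 + 3) ≤ (j)
            · have k25 : (l + 1) ≤ (j + i2) := by clear * - y7 z10; omega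
              have k26 : (j) ≤ (l + i2 + 2 * l2 + 2) := by clear * - y4 y5 y7 y8 z6 z8 z9; omega
              have k27 : (j + i2) ≤ (2 * i + l) := by clear * - y14 z5 z6 z7 z8; omega
              obtain ⟨t, ht⟩ : ∃ t, 2 * t = (2 * i + j + l - 2 * n - i2 + 1) := ⟨(2 * i + j + l - 2 * n - i2 + 1) / 2, by clear * - ev n1p n2p n3p; omega⟩
              clear * - al a1 a2 s1 s2 b tt c u1 u2 d1 d2 n1 n2 n3 z10 k25 k26 k27 ht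
              exact al.ninv t (cE (cI (pb c al (-1) t (t + (n + i2 - i - l - 1)) (by omega)) (qa s1 al 0 (t + (n + i2 - i - l - 1)) ((2 * i + j + l - n - i2 + 1) - t) (by omega))) (sh al (-1) ((2 * i + j + l - n - i2 + 1) - t) t (by omega)))
            · have k28 : (k + l + 2) ≤ (n + i) := by clear * - b3 z5; omega
              have k29 : (n + j) ≤ (k + 2 * l + 2) := by clear * - y8 z10 ev n1p n2p n3p; omega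
              have k30 : (k + l + 1) ≤ (n + i2) := by clear * - z10 z5 ev n1p n2p n3p; omega
              clear * - al a1 a2 s1 s2 b tt c u1 u2 d1 d2 n1 n2 n3 y6 k28 z5 k29 k30 y8
              exact (n2.f3 (qa s1 al 0 (k + l - n + 1) (i + l + 1) (by omega))) (sh al 0 (i2) (k + l - n + 1) (by omega))

theorem l2_11001_3 {W : ℤ → G} {n Q i j k l i2 l2 i3 : ℤ} (al : AL W n Q)
    {L : ℤ} (mx : ∀ a b g, 0 < g → g < n → Par W a b g → b - a ≤ L) (hL : L ≤ (n - j - 3) ∧ L ≤ (n + Q - k - 3) ∧ L ≤ (n - l - 3) ∧ L ≤ (k - j - 2) ∧ L ≤ (n - l2 - 3) ∧ L ≤ (i3 - 2) ∧ L ≤ (n + i2 + l2 - Q - 1) ∧ L ≤ (n + i2 - i - l - 3))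
    (hy : (0) ≤ (i) ∧ (i) ≤ (j) ∧ (j + 1) ≤ (Q) ∧ (Q) ≤ (k) ∧ (k + 1) ≤ (n) ∧ (i + l + 2) ≤ (Q) ∧ (n) ≤ (k + l + 1) ∧ (0) ≤ (i2) ∧ (n + i2) ≤ (k + l + 1) ∧ (0) ≤ (i2 + l2 + 1) ∧ (i2 + l2 + 2) ≤ (Q) ∧ (Q) ≤ (i + l + l2 + 2) ∧ (i + l + l2 + 3) ≤ (n) ∧ (Q) ≤ (i3) ∧ (i3) ≤ (i + l + l2 + 2) ∧ (j + 3) ≤ (n) ∧ (k + 3) ≤ (n + Q) ∧ (l + 3) ≤ (n) ∧ (j + 2) ≤ (k) ∧ (l2 + 3) ≤ (n) ∧ (2) ≤ (i3) ∧ (Q + 1) ≤ (n + i2 + l2) ∧ (i + l + 3) ≤ (n + i2))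
    (a1 : Par W (0) (j) (k - j))
    (a2 : Par W (Q + j - k) (j) (k - j))
    (s1 : Ant W (0) (i) (i + j))
    (s2 : Ant W (j + 1) (Q) (i + j))
    (b : Par W (i + 1) (i + l + 1) (k - i))
    (tt : Ant W (0) (i2) (k + l + i2 - n + 1))
    (c : Par W (i2 + 1) (i2 + l2 + 1) (i + l - i2 + 1))
    (u1 : Ant W (Q) (i3) (i + l + l2 + i3 + 2))
    (u2 : Ant W (i + l + l2 + 3) (n) (i + l + l2 + i3 + 2))
    (d1 : Par W (i3 + 1) (n) (i2 + l2 - i3 + 1))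
    (d2 : Par W (i2 + l2 + 2) (Q) (i3 - i2 - l2 - 1))
    (n1 : Nd W (j) (i) (k))
    (n2 : Nd W (k + l - n + 1) (i2) (i + l + 1))
    (n3 : Nd W (i + l + l2 + 2) (i3) (i2 + l2 + 1))
    (b0 : (2 * j + 2) ≤ (k))
    (b1 : (2 * Q) ≤ (n + i + j + 1))
    (b2 : (2 * k + 3) ≤ (n + 2 * Q)) : False := by
  have ev := al.ev
  obtain ⟨y0, y1, y2, y3, y4, y5, y6, y7, y8, y9, y10, y11, y12, y13, y14, y15, y16, y17, y18, y19, y20, y21, y22⟩ := id hy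
  have n1p := And.intro n1.p1 n1.p2
  have n2p := And.intro n2.p1 n2.p2
  have n3p := And.intro n3.p1 n3.p2
  by_cases z4 : (j + k + 1) ≤ (n + 2 * i)
  · exact l2_11001_4 al mx hL hy a1 a2 s1 s2 b tt c u1 u2 d1 d2 n1 n2 n3 (by clear * - b0; omega) (by clear * - b1; omega) (by clear * - b2; omega) (by clear * - z4; omega)
  · exact l2_11001_5 al mx hL hy a1 a2 s1 s2 b tt c u1 u2 d1 d2 n1 n2 n3 (by clear * - b0; omega) (by clear * - b1; omega) (by clear * - b2; omega) (by clear * - z4; omega)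

theorem l2_11001_2 {W : ℤ → G} {n Q i j k l i2 l2 i3 : ℤ} (al : AL W n Q)
    {L : ℤ} (mx : ∀ a b g, 0 < g → g < n → Par W a b g → b - a ≤ L) (hL : L ≤ (n - j - 3) ∧ L ≤ (n + Q - k - 3) ∧ L ≤ (n - l - 3) ∧ L ≤ (k - j - 2) ∧ L ≤ (n - l2 - 3) ∧ L ≤ (i3 - 2) ∧ L ≤ (n + i2 + l2 - Q - 1) ∧ L ≤ (n + i2 - i - l - 3))
    (hy : (0) ≤ (i) ∧ (i) ≤ (j) ∧ (j + 1) ≤ (Q) ∧ (Q) ≤ (k) ∧ (k + 1) ≤ (n) ∧ (i + l + 2) ≤ (Q) ∧ (n) ≤ (k + l + 1) ∧ (0) ≤ (i2) ∧ (n + i2) ≤ (k + l + 1) ∧ (0) ≤ (i2 + l2 + 1) ∧ (i2 + l2 + 2) ≤ (Q) ∧ (Q) ≤ (i + l + l2 + 2) ∧ (i + l + l2 + 3) ≤ (n) ∧ (Q) ≤ (i3) ∧ (i3) ≤ (i + l + l2 + 2) ∧ (j + 3) ≤ (n) ∧ (k + 3) ≤ (n + Q) ∧ (l + 3) ≤ (n) ∧ (j + 2) ≤ (k) ∧ (l2 + 3) ≤ (n) ∧ (2) ≤ (i3) ∧ (Q + 1) ≤ (n + i2 + l2) ∧ (i + l + 3) ≤ (n + i2))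
    (a1 : Par W (0) (j) (k - j))
    (a2 : Par W (Q + j - k) (j) (k - j))
    (s1 : Ant W (0) (i) (i + j))
    (s2 : Ant W (j + 1) (Q) (i + j))
    (b : Par W (i + 1) (i + l + 1) (k - i))
    (tt : Ant W (0) (i2) (k + l + i2 - n + 1))
    (c : Par W (i2 + 1) (i2 + l2 + 1) (i + l - i2 + 1))
    (u1 : Ant W (Q) (i3) (i + l + l2 + i3 + 2))
    (u2 : Ant W (i + l + l2 + 3) (n) (i + l + l2 + i3 + 2))
    (d1 : Par W (i3 + 1) (n) (i2 + l2 - i3 + 1))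
    (d2 : Par W (i2 + l2 + 2) (Q) (i3 - i2 - l2 - 1))
    (n1 : Nd W (j) (i) (k))
    (n2 : Nd W (k + l - n + 1) (i2) (i + l + 1))
    (n3 : Nd W (i + l + l2 + 2) (i3) (i2 + l2 + 1))
    (b0 : (2 * j + 2) ≤ (k))
    (b1 : (2 * Q) ≤ (n + i + j + 1)) : False := by
  have ev := al.ev
  obtain ⟨y0, y1, y2, y3, y4, y5, y6, y7, y8, y9, y10, y11, y12, y13, y14, y15, y16, y17, y18, y19, y20, y21, y22⟩ := id hy
  have n1p := And.intro n1.p1 n1.p2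
  have n2p := And.intro n2.p1 n2.p2
  have n3p := And.intro n3.p1 n3.p2
  by_cases z3 : (n + 2 * Q) ≤ (2 * k + 2)
  · have k5 : (j + 1) ≤ (k) := by clear * - y18; omega
    have k6 : (k + 1) ≤ (n + j) := by clear * - y0 y1 y4; omega
    have k7 : L ≤ (n + Q - k - 3) := by clear * - hL; omega
    clear * - al a1 a2 s1 s2 b tt c u1 u2 d1 d2 n1 n2 n3 mx k5 k6 z3 k7
    exact absurd (mx (Q + j - n - k) (j - n) (k - j) (by omega) (by omega) fun t h1 h2 => (cE (qf a2 al (-1) t (t + (n + k - j)) (by omega)) (sh al (-1) (t + (n + k - j)) (t + (k - j)) (by omega)))) (by omega)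
  · exact l2_11001_3 al mx hL hy a1 a2 s1 s2 b tt c u1 u2 d1 d2 n1 n2 n3 (by clear * - b0; omega) (by clear * - b1; omega) (by clear * - z3; omega)

theorem l2_11001_1 {W : ℤ → G} {n Q i j k l i2 l2 i3 : ℤ} (al : AL W n Q)
    {L : ℤ} (mx : ∀ a b g, 0 < g → g < n → Par W a b g → b - a ≤ L) (hL : L ≤ (n - j - 3) ∧ L ≤ (n + Q - k - 3) ∧ L ≤ (n - l - 3) ∧ L ≤ (k - j - 2) ∧ L ≤ (n - l2 - 3) ∧ L ≤ (i3 - 2) ∧ L ≤ (n + i2 + l2 - Q - 1) ∧ L ≤ (n + i2 - i - l - 3))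
    (hy : (0) ≤ (i) ∧ (i) ≤ (j) ∧ (j + 1) ≤ (Q) ∧ (Q) ≤ (k) ∧ (k + 1) ≤ (n) ∧ (i + l + 2) ≤ (Q) ∧ (n) ≤ (k + l + 1) ∧ (0) ≤ (i2) ∧ (n + i2) ≤ (k + l + 1) ∧ (0) ≤ (i2 + l2 + 1) ∧ (i2 + l2 + 2) ≤ (Q) ∧ (Q) ≤ (i + l + l2 + 2) ∧ (i + l + l2 + 3) ≤ (n) ∧ (Q) ≤ (i3) ∧ (i3) ≤ (i + l + l2 + 2) ∧ (j + 3) ≤ (n) ∧ (k + 3) ≤ (n + Q) ∧ (l + 3) ≤ (n) ∧ (j + 2) ≤ (k) ∧ (l2 + 3) ≤ (n) ∧ (2) ≤ (i3) ∧ (Q + 1) ≤ (n + i2 + l2) ∧ (i + l + 3) ≤ (n + i2))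
    (a1 : Par W (0) (j) (k - j))
    (a2 : Par W (Q + j - k) (j) (k - j))
    (s1 : Ant W (0) (i) (i + j))
    (s2 : Ant W (j + 1) (Q) (i + j))
    (b : Par W (i + 1) (i + l + 1) (k - i))
    (tt : Ant W (0) (i2) (k + l + i2 - n + 1))
    (c : Par W (i2 + 1) (i2 + l2 + 1) (i + l - i2 + 1))
    (u1 : Ant W (Q) (i3) (i + l + l2 + i3 + 2))
    (u2 : Ant W (i + l + l2 + 3) (n) (i + l + l2 + i3 + 2))
    (d1 : Par W (i3 + 1) (n) (i2 + l2 - i3 + 1))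
    (d2 : Par W (i2 + l2 + 2) (Q) (i3 - i2 - l2 - 1))
    (n1 : Nd W (j) (i) (k))
    (n2 : Nd W (k + l - n + 1) (i2) (i + l + 1))
    (n3 : Nd W (i + l + l2 + 2) (i3) (i2 + l2 + 1))
    (b0 : (2 * j + 2) ≤ (k)) : False := by
  have ev := al.ev
  obtain ⟨y0, y1, y2, y3, y4, y5, y6, y7, y8, y9, y10, y11, y12, y13, y14, y15, y16, y17, y18, y19, y20, y21, y22⟩ := id hy
  have n1p := And.intro n1.p1 n1.p2
  have n2p := And.intro n2.p1 n2.p2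
  have n3p := And.intro n3.p1 n3.p2
  by_cases z2 : (n + i + j + 2) ≤ (2 * Q)
  · have k4 : (j + 1) ≤ (n + i) := by clear * - y0 y15; omega
    obtain ⟨t, ht⟩ : ∃ t, 2 * t = (i + j - n) := ⟨(i + j - n) / 2, by clear * - ev n1p n2p n3p; omega⟩
    clear * - al a1 a2 s1 s2 b tt c u1 u2 d1 d2 n1 n2 n3 z2 k4 ht
    exact al.ninv t (cE (ab s2 al 0 t ((i + j) - t) (by omega)) (sh al (-1) ((i + j) - t) t (by omega)))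
  · exact l2_11001_2 al mx hL hy a1 a2 s1 s2 b tt c u1 u2 d1 d2 n1 n2 n3 (by clear * - b0; omega) (by clear * - z2; omega)

theorem l2_11001 {W : ℤ → G} {n Q i j k l i2 l2 i3 : ℤ} (al : AL W n Q)
    {L : ℤ} (mx : ∀ a b g, 0 < g → g < n → Par W a b g → b - a ≤ L) (hL : L ≤ (n - j - 3) ∧ L ≤ (n + Q - k - 3) ∧ L ≤ (n - l - 3) ∧ L ≤ (k - j - 2) ∧ L ≤ (n - l2 - 3) ∧ L ≤ (i3 - 2) ∧ L ≤ (n + i2 + l2 - Q - 1) ∧ L ≤ (n + i2 - i - l - 3))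
    (hy : (0) ≤ (i) ∧ (i) ≤ (j) ∧ (j + 1) ≤ (Q) ∧ (Q) ≤ (k) ∧ (k + 1) ≤ (n) ∧ (i + l + 2) ≤ (Q) ∧ (n) ≤ (k + l + 1) ∧ (0) ≤ (i2) ∧ (n + i2) ≤ (k + l + 1) ∧ (0) ≤ (i2 + l2 + 1) ∧ (i2 + l2 + 2) ≤ (Q) ∧ (Q) ≤ (i + l + l2 + 2) ∧ (i + l + l2 + 3) ≤ (n) ∧ (Q) ≤ (i3) ∧ (i3) ≤ (i + l + l2 + 2) ∧ (j + 3) ≤ (n) ∧ (k + 3) ≤ (n + Q) ∧ (l + 3) ≤ (n) ∧ (j + 2) ≤ (k) ∧ (l2 + 3) ≤ (n) ∧ (2) ≤ (i3) ∧ (Q + 1) ≤ (n + i2 + l2) ∧ (i + l + 3) ≤ (n + i2))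
    (a1 : Par W (0) (j) (k - j))
    (a2 : Par W (Q + j - k) (j) (k - j))
    (s1 : Ant W (0) (i) (i + j))
    (s2 : Ant W (j + 1) (Q) (i + j))
    (b : Par W (i + 1) (i + l + 1) (k - i))
    (tt : Ant W (0) (i2) (k + l + i2 - n + 1))
    (c : Par W (i2 + 1) (i2 + l2 + 1) (i + l - i2 + 1))
    (u1 : Ant W (Q) (i3) (i + l + l2 + i3 + 2))
    (u2 : Ant W (i + l + l2 + 3) (n) (i + l + l2 + i3 + 2))
    (d1 : Par W (i3 + 1) (n) (i2 + l2 - i3 + 1))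
    (d2 : Par W (i2 + l2 + 2) (Q) (i3 - i2 - l2 - 1))
    (n1 : Nd W (j) (i) (k))
    (n2 : Nd W (k + l - n + 1) (i2) (i + l + 1))
    (n3 : Nd W (i + l + l2 + 2) (i3) (i2 + l2 + 1)) : False := by
  have ev := al.ev
  obtain ⟨y0, y1, y2, y3, y4, y5, y6, y7, y8, y9, y10, y11, y12, y13, y14, y15, y16, y17, y18, y19, y20, y21, y22⟩ := id hy
  have n1p := And.intro n1.p1 n1.p2
  have n2p := And.intro n2.p1 n2.p2
  have n3p := And.intro n3.p1 n3.p2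
  by_cases z1 : (k) ≤ (2 * j + 1)
  · have k1 : (j + 1) ≤ (k) := by clear * - y18; omega
    have k2 : (k + 1) ≤ (n + j) := by clear * - y15 z1; omega
    have k3 : L ≤ (k - j - 2) := by clear * - hL; omega
    clear * - al a1 a2 s1 s2 b tt c u1 u2 d1 d2 n1 n2 n3 mx k1 k2 z1 k3
    exact absurd (mx (-n) (j - n) (k - j) (by omega) (by omega) fun t h1 h2 => (cE (qf a1 al (-1) t (t + (n + k - j)) (by omega)) (sh al (-1) (t + (n + k - j)) (t + (k - j)) (by omega)))) (by omega)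
  · exact l2_11001_1 al mx hL hy a1 a2 s1 s2 b tt c u1 u2 d1 d2 n1 n2 n3 (by clear * - z1; omega)

end Pool.Agent.MP_a38735_al.WL
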