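import Pool.Agent.MP_a38735_al.Q2c4

set_option autoImplicit false
set_option linter.unusedVariables false

namespace Pool.Agent.MP_a38735_al.WL

variable {G : Type*} [Group G]

theorem l2_01110_4 {W : ℤ → G} {n Q i j k l i2 l2 i3 : ℤ} (al : AL W n Q)
    {L : ℤ} (mx : ∀ a b g, 0 < g → g < n → Par W a b g → b - a ≤ L) (hL : L ≤ (n - j - 3) ∧ L ≤ (n + Q - k - 3) ∧ L ≤ (n - l - 3) ∧ L ≤ (n + i - k - 2) ∧ L ≤ (n - l2 - 3) ∧ L ≤ (i3 - 2) ∧ L ≤ (i2 + l2 - Q - 1) ∧ L ≤ (n + i3 - i2 - l2 - 3))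
    (hy : (0) ≤ (i) ∧ (i) ≤ (j) ∧ (j + 1) ≤ (Q) ∧ (Q) ≤ (k) ∧ (k + 1) ≤ (n) ∧ (Q) ≤ (i + l + 1) ∧ (k + l + 2) ≤ (n) ∧ (Q) ≤ (i2) ∧ (i2) ≤ (k + l + 1) ∧ (Q) ≤ (i + l + l2 + 2) ∧ (i + l + l2 + 3) ≤ (n) ∧ (n) ≤ (i2 + l2 + 1) ∧ (i2 + l2 + 2) ≤ (n + Q) ∧ (Q) ≤ (i3) ∧ (i3) ≤ (i + l + l2 + 2) ∧ (j + 3) ≤ (n) ∧ (k + 3) ≤ (n + Q) ∧ (l + 3) ≤ (n) ∧ (k + 2) ≤ (n + i) ∧ (l2 + 3) ≤ (n) ∧ (2) ≤ (i3) ∧ (Q + 1) ≤ (i2 + l2) ∧ (i2 + l2 + 3) ≤ (n + i3))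
    (a1 : Par W (0) (j) (k - j))
    (a2 : Par W (Q + j - k) (j) (k - j))
    (s1 : Ant W (0) (i) (i + j))
    (s2 : Ant W (j + 1) (Q) (i + j))
    (b : Par W (i + 1) (i + l + 1) (k - i))
    (tt : Ant W (k + l + 2) (n) (k + l + i2 + 1))
    (c : Par W (i2 + 1) (i2 + l2 + 1) (i + l - i2 + 1))
    (u1 : Ant W (Q) (i3) (i + l + l2 + i3 + 2))
    (u2 : Ant W (i + l + l2 + 3) (n) (i + l + l2 + i3 + 2))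
    (d1 : Par W (i3 + 1) (n) (i2 + l2 - n - i3 + 1))
    (d2 : Par W (i2 + l2 - n + 2) (Q) (n + i3 - i2 - l2 - 1))
    (n1 : Nd W (j) (i) (k))
    (n2 : Nd W (k + l + 1) (i2) (i + l + 1))
    (n3 : Nd W (i + l + l2 + 2) (i3) (i2 + l2 - n + 1))
    (b0 : (i2 + l2 + 2) ≤ (2 * i3))
    (b1 : (i + l + l2 + i3 + 3) ≤ (n + 2 * Q))
    (b2 : (n + 2 * Q) ≤ (2 * i2 + 2 * l2 + 1))
    (b3 : (l + l2 + i3 + 1) ≤ (n + k)) : False := by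
  have ev := al.ev
  obtain ⟨y0, y1, y2, y3, y4, y5, y6, y7, y8, y9, y10, y11, y12, y13, y14, y15, y16, y17, y18, y19, y20, y21, y22⟩ := id hy
  have n1p := And.intro n1.p1 n1.p2
  have n2p := And.intro n2.p1 n2.p2
  have n3p := And.intro n3.p1 n3.p2
  by_cases z5 : (i + l + 2 * i3 + 3) ≤ (n + i2)
  · have k13 : (i + l + i2 + 2 * l2 + 5) ≤ (n + 2 * i3) := by clear * - b0 z5; omega
    have k14 : (i2) ≤ (n + i + l) := by clear * - b0 y14 z5; omega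
    obtain ⟨t, ht⟩ : ∃ t, 2 * t = (i + l + 2 * i3 - n - i2 + 1) := ⟨(i + l + 2 * i3 - n - i2 + 1) / 2, by clear * - ev n1p n2p n3p; omega⟩
    clear * - al a1 a2 s1 s2 b tt c u1 u2 d1 d2 n1 n2 n3 k13 z5 k14 ht
    exact al.ninv t (cE (cE (qa u2 al (-1) t ((i + l + l2 + i3 - n + 2) - t) (by omega)) (pb d1 al 0 ((i + l + l2 + i3 - n + 2) - t) ((i + l + 2 * i3 - i2 + 1) - t) (by omega))) (sh al (-1) ((i + l + 2 * i3 - i2 + 1) - t) t (by omega)))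
  · exact l2_01110_5 al mx hL hy a1 a2 s1 s2 b tt c u1 u2 d1 d2 n1 n2 n3 (by clear * - b1; omega) (by clear * - b2; omega) (by clear * - b3; omega) (by clear * - z5; omega)

theorem l2_01110_3 {W : ℤ → G} {n Q i j k l i2 l2 i3 : ℤ} (al : AL W n Q)
    {L : ℤ} (mx : ∀ a b g, 0 < g → g < n → Par W a b g → b - a ≤ L) (hL : L ≤ (n - j - 3) ∧ L ≤ (n + Q - k - 3) ∧ L ≤ (n - l - 3) ∧ L ≤ (n + i - k - 2) ∧ L ≤ (n - l2 - 3) ∧ L ≤ (i3 - 2) ∧ L ≤ (i2 + l2 - Q - 1) ∧ L ≤ (n + i3 - i2 - l2 - 3))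
    (hy : (0) ≤ (i) ∧ (i) ≤ (j) ∧ (j + 1) ≤ (Q) ∧ (Q) ≤ (k) ∧ (k + 1) ≤ (n) ∧ (Q) ≤ (i + l + 1) ∧ (k + l + 2) ≤ (n) ∧ (Q) ≤ (i2) ∧ (i2) ≤ (k + l + 1) ∧ (Q) ≤ (i + l + l2 + 2) ∧ (i + l + l2 + 3) ≤ (n) ∧ (n) ≤ (i2 + l2 + 1) ∧ (i2 + l2 + 2) ≤ (n + Q) ∧ (Q) ≤ (i3) ∧ (i3) ≤ (i + l + l2 + 2) ∧ (j + 3) ≤ (n) ∧ (k + 3) ≤ (n + Q) ∧ (l + 3) ≤ (n) ∧ (k + 2) ≤ (n + i) ∧ (l2 + 3) ≤ (n) ∧ (2) ≤ (i3) ∧ (Q + 1) ≤ (i2 + l2) ∧ (i2 + l2 + 3) ≤ (n + i3))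
    (a1 : Par W (0) (j) (k - j))
    (a2 : Par W (Q + j - k) (j) (k - j))
    (s1 : Ant W (0) (i) (i + j))
    (s2 : Ant W (j + 1) (Q) (i + j))
    (b : Par W (i + 1) (i + l + 1) (k - i))
    (tt : Ant W (k + l + 2) (n) (k + l + i2 + 1))
    (c : Par W (i2 + 1) (i2 + l2 + 1) (i + l - i2 + 1))
    (u1 : Ant W (Q) (i3) (i + l + l2 + i3 + 2))
    (u2 : Ant W (i + l + l2 + 3) (n) (i + l + l2 + i3 + 2))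
    (d1 : Par W (i3 + 1) (n) (i2 + l2 - n - i3 + 1))
    (d2 : Par W (i2 + l2 - n + 2) (Q) (n + i3 - i2 - l2 - 1))
    (n1 : Nd W (j) (i) (k))
    (n2 : Nd W (k + l + 1) (i2) (i + l + 1))
    (n3 : Nd W (i + l + l2 + 2) (i3) (i2 + l2 - n + 1))
    (b0 : (i2 + l2 + 2) ≤ (2 * i3))
    (b1 : (i + l + l2 + i3 + 3) ≤ (n + 2 * Q))
    (b2 : (n + 2 * Q) ≤ (2 * i2 + 2 * l2 + 1)) : False := by
  have ev := al.ev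
  obtain ⟨y0, y1, y2, y3, y4, y5, y6, y7, y8, y9, y10, y11, y12, y13, y14, y15, y16, y17, y18, y19, y20, y21, y22⟩ := id hy
  have n1p := And.intro n1.p1 n1.p2
  have n2p := And.intro n2.p1 n2.p2
  have n3p := And.intro n3.p1 n3.p2
  by_cases z4 : (n + k) ≤ (l + l2 + i3)
  · have k9 : (k + l + l2 + 4) ≤ (n + i3) := by clear * - y0 y10 z4; omega
    have k10 : (l2 + i3 + 2) ≤ (n + k + l) := by clear * - b1 y10 y11 y5 y8; omega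
    have k11 : (n + 2 * Q) ≤ (k + l + l2 + i3 + 3) := by clear * - y3 z4; omega
    have k12 : (n + k) ≤ (l + l2 + i3 + 1) := by clear * - z4; omega
    obtain ⟨t, ht⟩ : ∃ t, 2 * t = (3 * n + 2 * i + l + l2 + i3 - k + 2) := ⟨(3 * n + 2 * i + l + l2 + i3 - k + 2) / 2, by clear * - ev n1p n2p n3p; omega⟩
    clear * - al a1 a2 s1 s2 b tt c u1 u2 d1 d2 n1 n2 n3 k9 k10 k11 k12 ht
    exact al.ninv t (cE (cE (ab u1 al 1 t ((n + i + l + l2 + i3 + 2) - t) (by omega)) (pb b al 0 ((n + i + l + l2 + i3 + 2) - t) ((n + 2 * i + l + l2 + i3 - k + 2) - t) (by omega))) (sh al 2 ((n + 2 * i + l + l2 + i3 - k + 2) - t) t (by omega)))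
  · exact l2_01110_4 al mx hL hy a1 a2 s1 s2 b tt c u1 u2 d1 d2 n1 n2 n3 (by clear * - b0; omega) (by clear * - b1; omega) (by clear * - b2; omega) (by clear * - z4; omega)

theorem l2_01110_2 {W : ℤ → G} {n Q i j k l i2 l2 i3 : ℤ} (al : AL W n Q)
    {L : ℤ} (mx : ∀ a b g, 0 < g → g < n → Par W a b g → b - a ≤ L) (hL : L ≤ (n - j - 3) ∧ L ≤ (n + Q - k - 3) ∧ L ≤ (n - l - 3) ∧ L ≤ (n + i - k - 2) ∧ L ≤ (n - l2 - 3) ∧ L ≤ (i3 - 2) ∧ L ≤ (i2 + l2 - Q - 1) ∧ L ≤ (n + i3 - i2 - l2 - 3))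
    (hy : (0) ≤ (i) ∧ (i) ≤ (j) ∧ (j + 1) ≤ (Q) ∧ (Q) ≤ (k) ∧ (k + 1) ≤ (n) ∧ (Q) ≤ (i + l + 1) ∧ (k + l + 2) ≤ (n) ∧ (Q) ≤ (i2) ∧ (i2) ≤ (k + l + 1) ∧ (Q) ≤ (i + l + l2 + 2) ∧ (i + l + l2 + 3) ≤ (n) ∧ (n) ≤ (i2 + l2 + 1) ∧ (i2 + l2 + 2) ≤ (n + Q) ∧ (Q) ≤ (i3) ∧ (i3) ≤ (i + l + l2 + 2) ∧ (j + 3) ≤ (n) ∧ (k + 3) ≤ (n + Q) ∧ (l + 3) ≤ (n) ∧ (k + 2) ≤ (n + i) ∧ (l2 + 3) ≤ (n) ∧ (2) ≤ (i3) ∧ (Q + 1) ≤ (i2 + l2) ∧ (i2 + l2 + 3) ≤ (n + i3))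
    (a1 : Par W (0) (j) (k - j))
    (a2 : Par W (Q + j - k) (j) (k - j))
    (s1 : Ant W (0) (i) (i + j))
    (s2 : Ant W (j + 1) (Q) (i + j))
    (b : Par W (i + 1) (i + l + 1) (k - i))
    (tt : Ant W (k + l + 2) (n) (k + l + i2 + 1))
    (c : Par W (i2 + 1) (i2 + l2 + 1) (i + l - i2 + 1))
    (u1 : Ant W (Q) (i3) (i + l + l2 + i3 + 2))
    (u2 : Ant W (i + l + l2 + 3) (n) (i + l + l2 + i3 + 2))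
    (d1 : Par W (i3 + 1) (n) (i2 + l2 - n - i3 + 1))
    (d2 : Par W (i2 + l2 - n + 2) (Q) (n + i3 - i2 - l2 - 1))
    (n1 : Nd W (j) (i) (k))
    (n2 : Nd W (k + l + 1) (i2) (i + l + 1))
    (n3 : Nd W (i + l + l2 + 2) (i3) (i2 + l2 - n + 1))
    (b0 : (i2 + l2 + 2) ≤ (2 * i3))
    (b1 : (i + l + l2 + i3 + 3) ≤ (n + 2 * Q)) : False := by
  have ev := al.ev
  obtain ⟨y0, y1, y2, y3, y4, y5, y6, y7, y8, y9, y10, y11, y12, y13, y14, y15, y16, y17, y18, y19, y20, y21, y22⟩ := id hy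
  have n1p := And.intro n1.p1 n1.p2
  have n2p := And.intro n2.p1 n2.p2
  have n3p := And.intro n3.p1 n3.p2
  by_cases z3 : (2 * i2 + 2 * l2 + 2) ≤ (n + 2 * Q)
  · have k6 : (i2 + l2 + 2) ≤ (n + i3) := by clear * - y22; omega
    have k7 : (i3) ≤ (i2 + l2) := by clear * - y10 y11 y14; omega
    have k8 : L ≤ (i2 + l2 - Q - 1) := by clear * - hL; omega
    clear * - al a1 a2 s1 s2 b tt c u1 u2 d1 d2 n1 n2 n3 mx k6 k7 z3 k8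
    exact absurd (mx (i2 + l2 + 2) (n + Q) (n + i3 - i2 - l2 - 1) (by omega) (by omega) fun t h1 h2 => (cE (qf d2 al 1 t (t + (i3 - i2 - l2 - 1)) (by omega)) (sh al 1 (t + (i3 - i2 - l2 - 1)) (t + (n + i3 - i2 - l2 - 1)) (by omega)))) (by omega)
  · exact l2_01110_3 al mx hL hy a1 a2 s1 s2 b tt c u1 u2 d1 d2 n1 n2 n3 (by clear * - b0; omega) (by clear * - b1; omega) (by clear * - z3; omega)

theorem l2_01110_1 {W : ℤ → G} {n Q i j k l i2 l2 i3 : ℤ} (al : AL W n Q)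
    {L : ℤ} (mx : ∀ a b g, 0 < g → g < n → Par W a b g → b - a ≤ L) (hL : L ≤ (n - j - 3) ∧ L ≤ (n + Q - k - 3) ∧ L ≤ (n - l - 3) ∧ L ≤ (n + i - k - 2) ∧ L ≤ (n - l2 - 3) ∧ L ≤ (i3 - 2) ∧ L ≤ (i2 + l2 - Q - 1) ∧ L ≤ (n + i3 - i2 - l2 - 3))
    (hy : (0) ≤ (i) ∧ (i) ≤ (j) ∧ (j + 1) ≤ (Q) ∧ (Q) ≤ (k) ∧ (k + 1) ≤ (n) ∧ (Q) ≤ (i + l + 1) ∧ (k + l + 2) ≤ (n) ∧ (Q) ≤ (i2) ∧ (i2) ≤ (k + l + 1) ∧ (Q) ≤ (i + l + l2 + 2) ∧ (i + l + l2 + 3) ≤ (n) ∧ (n) ≤ (i2 + l2 + 1) ∧ (i2 + l2 + 2) ≤ (n + Q) ∧ (Q) ≤ (i3) ∧ (i3) ≤ (i + l + l2 + 2) ∧ (j + 3) ≤ (n) ∧ (k + 3) ≤ (n + Q) ∧ (l + 3) ≤ (n) ∧ (k + 2) ≤ (n + i) ∧ (l2 + 3) ≤ (n) ∧ (2) ≤ (i3) ∧ (Q + 1) ≤ (i2 + l2) ∧ (i2 + l2 + 3) ≤ (n + i3))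
    (a1 : Par W (0) (j) (k - j))
    (a2 : Par W (Q + j - k) (j) (k - j))
    (s1 : Ant W (0) (i) (i + j))
    (s2 : Ant W (j + 1) (Q) (i + j))
    (b : Par W (i + 1) (i + l + 1) (k - i))
    (tt : Ant W (k + l + 2) (n) (k + l + i2 + 1))
    (c : Par W (i2 + 1) (i2 + l2 + 1) (i + l - i2 + 1))
    (u1 : Ant W (Q) (i3) (i + l + l2 + i3 + 2))
    (u2 : Ant W (i + l + l2 + 3) (n) (i + l + l2 + i3 + 2))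
    (d1 : Par W (i3 + 1) (n) (i2 + l2 - n - i3 + 1))
    (d2 : Par W (i2 + l2 - n + 2) (Q) (n + i3 - i2 - l2 - 1))
    (n1 : Nd W (j) (i) (k))
    (n2 : Nd W (k + l + 1) (i2) (i + l + 1))
    (n3 : Nd W (i + l + l2 + 2) (i3) (i2 + l2 - n + 1))
    (b0 : (i2 + l2 + 2) ≤ (2 * i3)) : False := by
  have ev := al.ev
  obtain ⟨y0, y1, y2, y3, y4, y5, y6, y7, y8, y9, y10, y11, y12, y13, y14, y15, y16, y17, y18, y19, y20, y21, y22⟩ := id hy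
  have n1p := And.intro n1.p1 n1.p2
  have n2p := And.intro n2.p1 n2.p2
  have n3p := And.intro n3.p1 n3.p2
  by_cases z2 : (n + 2 * Q) ≤ (i + l + l2 + i3 + 2)
  · have k4 : (i + l + l2 + 4) ≤ (n + i3) := by clear * - y10 y20; omega
    have k5 : (n + 2 * Q) ≤ (i + l + l2 + i3 + 3) := by clear * - z2; omega
    obtain ⟨t, ht⟩ : ∃ t, 2 * t = (n + i + l + l2 + i3 + 2) := ⟨(n + i + l + l2 + i3 + 2) / 2, by clear * - ev n1p n2p n3p; omega⟩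
    clear * - al a1 a2 s1 s2 b tt c u1 u2 d1 d2 n1 n2 n3 k4 k5 ht
    exact al.ninv t (cE (ab u1 al 0 t ((i + l + l2 + i3 + 2) - t) (by omega)) (sh al 1 ((i + l + l2 + i3 + 2) - t) t (by omega)))
  · exact l2_01110_2 al mx hL hy a1 a2 s1 s2 b tt c u1 u2 d1 d2 n1 n2 n3 (by clear * - b0; omega) (by clear * - z2; omega)

theorem l2_01110 {W : ℤ → G} {n Q i j k l i2 l2 i3 : ℤ} (al : AL W n Q)
    {L : ℤ} (mx : ∀ a b g, 0 < g → g < n → Par W a b g → b - a ≤ L) (hL : L ≤ (n - j - 3) ∧ L ≤ (n + Q - k - 3) ∧ L ≤ (n - l - 3) ∧ L ≤ (n + i - k - 2) ∧ L ≤ (n - l2 - 3) ∧ L ≤ (i3 - 2) ∧ L ≤ (i2 + l2 - Q - 1) ∧ L ≤ (n + i3 - i2 - l2 - 3))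
    (hy : (0) ≤ (i) ∧ (i) ≤ (j) ∧ (j + 1) ≤ (Q) ∧ (Q) ≤ (k) ∧ (k + 1) ≤ (n) ∧ (Q) ≤ (i + l + 1) ∧ (k + l + 2) ≤ (n) ∧ (Q) ≤ (i2) ∧ (i2) ≤ (k + l + 1) ∧ (Q) ≤ (i + l + l2 + 2) ∧ (i + l + l2 + 3) ≤ (n) ∧ (n) ≤ (i2 + l2 + 1) ∧ (i2 + l2 + 2) ≤ (n + Q) ∧ (Q) ≤ (i3) ∧ (i3) ≤ (i + l + l2 + 2) ∧ (j + 3) ≤ (n) ∧ (k + 3) ≤ (n + Q) ∧ (l + 3) ≤ (n) ∧ (k + 2) ≤ (n + i) ∧ (l2 + 3) ≤ (n) ∧ (2) ≤ (i3) ∧ (Q + 1) ≤ (i2 + l2) ∧ (i2 + l2 + 3) ≤ (n + i3))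
    (a1 : Par W (0) (j) (k - j))
    (a2 : Par W (Q + j - k) (j) (k - j))
    (s1 : Ant W (0) (i) (i + j))
    (s2 : Ant W (j + 1) (Q) (i + j))
    (b : Par W (i + 1) (i + l + 1) (k - i))
    (tt : Ant W (k + l + 2) (n) (k + l + i2 + 1))
    (c : Par W (i2 + 1) (i2 + l2 + 1) (i + l - i2 + 1))
    (u1 : Ant W (Q) (i3) (i + l + l2 + i3 + 2))
    (u2 : Ant W (i + l + l2 + 3) (n) (i + l + l2 + i3 + 2))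
    (d1 : Par W (i3 + 1) (n) (i2 + l2 - n - i3 + 1))
    (d2 : Par W (i2 + l2 - n + 2) (Q) (n + i3 - i2 - l2 - 1))
    (n1 : Nd W (j) (i) (k))
    (n2 : Nd W (k + l + 1) (i2) (i + l + 1))
    (n3 : Nd W (i + l + l2 + 2) (i3) (i2 + l2 - n + 1)) : False := by
  have ev := al.ev
  obtain ⟨y0, y1, y2, y3, y4, y5, y6, y7, y8, y9, y10, y11, y12, y13, y14, y15, y16, y17, y18, y19, y20, y21, y22⟩ := id hy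
  have n1p := And.intro n1.p1 n1.p2
  have n2p := And.intro n2.p1 n2.p2
  have n3p := And.intro n3.p1 n3.p2
  by_cases z1 : (2 * i3) ≤ (i2 + l2 + 1)
  · have k1 : (i3) ≤ (i2 + l2) := by clear * - y20 z1; omega
    have k2 : (i2 + l2 + 2) ≤ (n + i3) := by clear * - y22; omega
    have k3 : L ≤ (n + i3 - i2 - l2 - 3) := by clear * - hL; omega
    clear * - al a1 a2 s1 s2 b tt c u1 u2 d1 d2 n1 n2 n3 mx k1 k2 z1 k3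
    exact absurd (mx (n + i3 + 1) (2 * n) (i2 + l2 - i3 + 1) (by omega) (by omega) fun t h1 h2 => (cE (qf d1 al 1 t (t + (i2 + l2 - 2 * n - i3 + 1)) (by omega)) (sh al 2 (t + (i2 + l2 - 2 * n - i3 + 1)) (t + (i2 + l2 - i3 + 1)) (by omega)))) (by omega)
  · exact l2_01110_1 al mx hL hy a1 a2 s1 s2 b tt c u1 u2 d1 d2 n1 n2 n3 (by clear * - z1; omega)

end Pool.Agent.MP_a38735_al.WL
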