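import Pool.Agent.MP_a38735_al.WQ

set_option autoImplicit false
set_option linter.unusedVariables false

namespace Pool.Agent.MP_a38735_al.WL

variable {G : Type*} [Group G]

theorem l2_00010 {W : ℤ → G} {n Q i j k l i2 l2 i3 : ℤ} (al : AL W n Q)
    {L : ℤ} (mx : ∀ a b g, 0 < g → g < n → Par W a b g → b - a ≤ L) (hL : L ≤ (n - j - 3) ∧ L ≤ (n + Q - k - 3) ∧ L ≤ (n - l - 3) ∧ L ≤ (n + i - k - 2) ∧ L ≤ (n - l2 - 3) ∧ L ≤ (i3 - 2) ∧ L ≤ (i2 + l2 - Q - 1) ∧ L ≤ (n + i3 - i2 - l2 - 3))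
    (hy : (0) ≤ (i) ∧ (i) ≤ (j) ∧ (j + 1) ≤ (Q) ∧ (Q) ≤ (k) ∧ (k + 1) ≤ (n) ∧ (Q) ≤ (i + l + 1) ∧ (k + l + 2) ≤ (n) ∧ (Q) ≤ (i2) ∧ (i2) ≤ (i + l + 1) ∧ (Q) ≤ (k + l + l2 + 2) ∧ (k + l + l2 + 3) ≤ (n) ∧ (n) ≤ (i2 + l2 + 1) ∧ (i2 + l2 + 2) ≤ (n + Q) ∧ (Q) ≤ (i3) ∧ (i3) ≤ (k + l + l2 + 2) ∧ (j + 3) ≤ (n) ∧ (k + 3) ≤ (n + Q) ∧ (l + 3) ≤ (n) ∧ (k + 2) ≤ (n + i) ∧ (l2 + 3) ≤ (n) ∧ (2) ≤ (i3) ∧ (Q + 1) ≤ (i2 + l2) ∧ (i2 + l2 + 3) ≤ (n + i3))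
    (a1 : Par W (0) (j) (k - j))
    (a2 : Par W (Q + j - k) (j) (k - j))
    (s1 : Ant W (0) (i) (i + j))
    (s2 : Ant W (j + 1) (Q) (i + j))
    (b : Par W (i + 1) (i + l + 1) (k - i))
    (tt : Ant W (Q) (i2) (i + l + i2 + 1))
    (c : Par W (i2 + 1) (i2 + l2 + 1) (k + l - i2 + 1))
    (u1 : Ant W (Q) (i3) (k + l + l2 + i3 + 2))
    (u2 : Ant W (k + l + l2 + 3) (n) (k + l + l2 + i3 + 2))
    (d1 : Par W (i3 + 1) (n) (i2 + l2 - n - i3 + 1))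
    (d2 : Par W (i2 + l2 - n + 2) (Q) (n + i3 - i2 - l2 - 1))
    (n1 : Nd W (j) (i) (k))
    (n2 : Nd W (i + l + 1) (i2) (k + l + 1))
    (n3 : Nd W (k + l + l2 + 2) (i3) (i2 + l2 - n + 1)) : False := by
  have ev := al.ev
  obtain ⟨y0, y1, y2, y3, y4, y5, y6, y7, y8, y9, y10, y11, y12, y13, y14, y15, y16, y17, y18, y19, y20, y21, y22⟩ := id hy
  have n1p := And.intro n1.p1 n1.p2
  have n2p := And.intro n2.p1 n2.p2
  have n3p := And.intro n3.p1 n3.p2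
  clear * - y1 y10 y11 y2 y3 y8; omega

theorem l2_00011 {W : ℤ → G} {n Q i j k l i2 l2 i3 : ℤ} (al : AL W n Q)
    {L : ℤ} (mx : ∀ a b g, 0 < g → g < n → Par W a b g → b - a ≤ L) (hL : L ≤ (n - j - 3) ∧ L ≤ (n + Q - k - 3) ∧ L ≤ (n - l - 3) ∧ L ≤ (n + i - k - 2) ∧ L ≤ (n - l2 - 3) ∧ L ≤ (n + i3 - Q - 2) ∧ L ≤ (k + l + l2) ∧ L ≤ (n + k + l - i2 - 1))
    (hy : (0) ≤ (i) ∧ (i) ≤ (j) ∧ (j + 1) ≤ (Q) ∧ (Q) ≤ (k) ∧ (k + 1) ≤ (n) ∧ (Q) ≤ (i + l + 1) ∧ (k + l + 2) ≤ (n) ∧ (Q) ≤ (i2) ∧ (i2) ≤ (i + l + 1) ∧ (Q) ≤ (k + l + l2 + 2) ∧ (k + l + l2 + 3) ≤ (n) ∧ (n) ≤ (i2 + l2 + 1) ∧ (i2 + l2 + 2) ≤ (n + Q) ∧ (0) ≤ (i3) ∧ (n + i3) ≤ (i2 + l2 + 1) ∧ (j + 3) ≤ (n) ∧ (k + 3) ≤ (n + Q) ∧ (l + 3) ≤ (n) ∧ (k + 2) ≤ (n + i) ∧ (l2 + 3) ≤ (n) ∧ (Q + 2) ≤ (n + i3) ∧ (0) ≤ (k + l + l2) ∧ (i2 + 1) ≤ (n + k + l))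
    (a1 : Par W (0) (j) (k - j))
    (a2 : Par W (Q + j - k) (j) (k - j))
    (s1 : Ant W (0) (i) (i + j))
    (s2 : Ant W (j + 1) (Q) (i + j))
    (b : Par W (i + 1) (i + l + 1) (k - i))
    (tt : Ant W (Q) (i2) (i + l + i2 + 1))
    (c : Par W (i2 + 1) (i2 + l2 + 1) (k + l - i2 + 1))
    (u1 : Ant W (0) (i3) (i2 + l2 + i3 - n + 1))
    (u2 : Ant W (i2 + l2 - n + 2) (Q) (i2 + l2 + i3 - n + 1))
    (d1 : Par W (i3 + 1) (Q) (k + l + l2 - i3 + 2))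
    (d2 : Par W (k + l + l2 + 3) (n) (i3 - k - l - l2 - 2))
    (n1 : Nd W (j) (i) (k))
    (n2 : Nd W (i + l + 1) (i2) (k + l + 1))
    (n3 : Nd W (i2 + l2 - n + 1) (i3) (k + l + l2 + 2)) : False := by
  have ev := al.ev
  obtain ⟨y0, y1, y2, y3, y4, y5, y6, y7, y8, y9, y10, y11, y12, y13, y14, y15, y16, y17, y18, y19, y20, y21, y22⟩ := id hy
  have n1p := And.intro n1.p1 n1.p2
  have n2p := And.intro n2.p1 n2.p2
  have n3p := And.intro n3.p1 n3.p2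
  clear * - y1 y10 y13 y14 y2 y3 y8; omega

theorem l2_00100 {W : ℤ → G} {n Q i j k l i2 l2 i3 : ℤ} (al : AL W n Q)
    {L : ℤ} (mx : ∀ a b g, 0 < g → g < n → Par W a b g → b - a ≤ L) (hL : L ≤ (n - j - 3) ∧ L ≤ (n + Q - k - 3) ∧ L ≤ (n - l - 3) ∧ L ≤ (n + i - k - 2) ∧ L ≤ (n - l2 - 3) ∧ L ≤ (i3 - 2) ∧ L ≤ (k + l + l2 - Q) ∧ L ≤ (n + i3 - k - l - l2 - 4))
    (hy : (0) ≤ (i) ∧ (i) ≤ (j) ∧ (j + 1) ≤ (Q) ∧ (Q) ≤ (k) ∧ (k + 1) ≤ (n) ∧ (Q) ≤ (i + l + 1) ∧ (k + l + 2) ≤ (n) ∧ (Q) ≤ (i2) ∧ (i2) ≤ (i + l + 1) ∧ (Q) ≤ (i2 + l2 + 1) ∧ (i2 + l2 + 2) ≤ (n) ∧ (n) ≤ (k + l + l2 + 2) ∧ (k + l + l2 + 3) ≤ (n + Q) ∧ (Q) ≤ (i3) ∧ (i3) ≤ (i2 + l2 + 1) ∧ (j + 3) ≤ (n) ∧ (k + 3) ≤ (n + Q) ∧ (l + 3) ≤ (n) ∧ (k + 2) ≤ (n + i) ∧ (l2 + 3) ≤ (n) ∧ (2) ≤ (i3) ∧ (Q) ≤ (k + l + l2) ∧ (k + l + l2 + 4) ≤ (n + i3))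
    (a1 : Par W (0) (j) (k - j))
    (a2 : Par W (Q + j - k) (j) (k - j))
    (s1 : Ant W (0) (i) (i + j))
    (s2 : Ant W (j + 1) (Q) (i + j))
    (b : Par W (i + 1) (i + l + 1) (k - i))
    (tt : Ant W (i + l + 2) (n) (i + l + i2 + 1))
    (c : Par W (i2 + 1) (i2 + l2 + 1) (k + l - i2 + 1))
    (u1 : Ant W (Q) (i3) (i2 + l2 + i3 + 1))
    (u2 : Ant W (i2 + l2 + 2) (n) (i2 + l2 + i3 + 1))
    (d1 : Par W (i3 + 1) (n) (k + l + l2 - n - i3 + 2))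
    (d2 : Par W (k + l + l2 - n + 3) (Q) (n + i3 - k - l - l2 - 2))
    (n1 : Nd W (j) (i) (k))
    (n2 : Nd W (i + l + 1) (i2) (k + l + 1))
    (n3 : Nd W (i2 + l2 + 1) (i3) (k + l + l2 - n + 2)) : False := by
  have ev := al.ev
  obtain ⟨y0, y1, y2, y3, y4, y5, y6, y7, y8, y9, y10, y11, y12, y13, y14, y15, y16, y17, y18, y19, y20, y21, y22⟩ := id hy
  have n1p := And.intro n1.p1 n1.p2
  have n2p := And.intro n2.p1 n2.p2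
  have n3p := And.intro n3.p1 n3.p2
  by_cases z1 : (2 * i3) ≤ (k + l + l2 + 2)
  · have k1 : (k + l + l2 + 3) ≤ (n + i3) := by clear * - y22; omega
    have k2 : (i3) ≤ (k + l + l2 + 1) := by clear * - y20 z1; omega
    have k3 : L ≤ (n + i3 - k - l - l2 - 4) := by clear * - hL; omega
    clear * - al a1 a2 s1 s2 b tt c u1 u2 d1 d2 n1 n2 n3 mx k1 k2 z1 k3
    exact absurd (mx (k + l + l2 + 3) (n + k + l + l2 - i3 + 2) (n + i3 - k - l - l2 - 2) (by omega) (by omega) fun t h1 h2 => (cE (pb d1 al 1 t (t + (i3 - k - l - l2 - 2)) (by omega)) (sh al 1 (t + (i3 - k - l - l2 - 2)) (t + (n + i3 - k - l - l2 - 2)) (by omega)))) (by omega)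
  · by_cases z2 : (k) ≤ (2 * i + j)
    · have k4 : (j + 2) ≤ (k) := by clear * - y2 y3 ev n1p n2p n3p; omega
      have k5 : (k) ≤ (2 * i + 3 * j + 2) := by clear * - y1 y11 y12 y3 z2; omega
      have k6 : (2 * i + j + 2) ≤ (3 * k) := by clear * - y1 y2 y3; omega
      have k7 : (2 * n + i + j) % 2 = 0 := by clear * - ev n1p n2p n3p; omega
      have k8 : (k - j) % 2 = 0 := by clear * - ev n1p n2p n3p; omega
      clear * - al a1 a2 s1 s2 b tt c u1 u2 d1 d2 n1 n2 n3 z2 k4 k5 k6 k7 k8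
      exact midP al (k - j) (2 * n + i + j) (max (n + i + j - k + 1) (max (n + j + 1) (n))) (n) (n + k) (by omega) (fun t h1 h2 => (cE (ab s1 al 1 t ((n + i + j) - t) (by omega)) (sh al 1 ((n + i + j) - t) ((2 * n + i + j) - t) (by omega)))) (fun t h1 h2 => (cE (qf a1 al 1 t (t + (k - n - j)) (by omega)) (sh al 1 (t + (k - n - j)) (t + (k - j)) (by omega))))
    · by_cases z3 : (i + k + 2) ≤ (2 * i2)
      · have k9 : (i + k + 2 * l + 4) ≤ (2 * n) := by clear * - y1 y17 y6 z2; omega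
        have k10 : (i + 2) ≤ (k) := by clear * - y1 y11 y12 y3 z2 ev n1p n2p n3p; omega
        have k11 : (i + k + 2) ≤ (2 * n) := by clear * - y10 y11 y6 z3; omega
        have k12 : (i + k) ≤ (2 * l + 2 * i2) := by clear * - y10 y11 y8 z3; omega
        have k13 : (i + 2 * i2 + 2) ≤ (2 * n + k) := by clear * - y1 y17 y8 z2; omega
        have k14 : (i + 2 * i2) ≤ (3 * k + 2 * l) := by clear * - y1 y10 y11 y12 y3 z2; omega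
        have k15 : (i + l + i2 - 2 * n + 1) % 2 = 0 := by clear * - ev n1p n2p n3p; omega
        have k16 : (k - i) % 2 = 0 := by clear * - ev n1p n2p n3p; omega
        clear * - al a1 a2 s1 s2 b tt c u1 u2 d1 d2 n1 n2 n3 k9 z3 k10 k11 k12 k13 k14 k15 k16
        exact midP al (k - i) (i + l + i2 - 2 * n + 1) (max (i + i2 - n - k + 1) (max (i + l - n + 2) (i - n + 1))) (i - n + 1) (k + l - n + 1) (by omega) (fun t h1 h2 => (cE (qa tt al (-1) t ((i + l + i2 - n + 1) - t) (by omega)) (sh al (-1) ((i + l + i2 - n + 1) - t) ((i + l + i2 - 2 * n + 1) - t) (by omega)))) (fun t h1 h2 => (cE (qf b al (-1) t (t + (n + k - i)) (by omega)) (sh al (-1) (t + (n + k - i)) (t + (k - i)) (by omega))))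
      · have k17 : (i + l + i2 + 3) ≤ (n) := by clear * - y1 y6 z2 z3 ev n1p n2p n3p; omega
        have k18 : (i + l + 2) ≤ (n + i2) := by clear * - y1 y14 y19 z1 z2 z3; omega
        obtain ⟨t, ht⟩ : ∃ t, 2 * t = (n + i + l + i2 + 1) := ⟨(n + i + l + i2 + 1) / 2, by clear * - ev n1p n2p n3p; omega⟩
        clear * - al a1 a2 s1 s2 b tt c u1 u2 d1 d2 n1 n2 n3 k17 k18 ht
        exact al.ninv t (ab tt al 1 t t (by omega))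

theorem l2_00101 {W : ℤ → G} {n Q i j k l i2 l2 i3 : ℤ} (al : AL W n Q)
    {L : ℤ} (mx : ∀ a b g, 0 < g → g < n → Par W a b g → b - a ≤ L) (hL : L ≤ (n - j - 3) ∧ L ≤ (n + Q - k - 3) ∧ L ≤ (n - l - 3) ∧ L ≤ (n + i - k - 2) ∧ L ≤ (n - l2 - 3) ∧ L ≤ (n + i3 - Q - 2) ∧ L ≤ (i2 + l2 - 1) ∧ L ≤ (n + i2 - k - l - 3))
    (hy : (0) ≤ (i) ∧ (i) ≤ (j) ∧ (j + 1) ≤ (Q) ∧ (Q) ≤ (k) ∧ (k + 1) ≤ (n) ∧ (Q) ≤ (i + l + 1) ∧ (k + l + 2) ≤ (n) ∧ (Q) ≤ (i2) ∧ (i2) ≤ (i + l + 1) ∧ (Q) ≤ (i2 + l2 + 1) ∧ (i2 + l2 + 2) ≤ (n) ∧ (n) ≤ (k + l + l2 + 2) ∧ (k + l + l2 + 3) ≤ (n + Q) ∧ (0) ≤ (i3) ∧ (n + i3) ≤ (k + l + l2 + 2) ∧ (j + 3) ≤ (n) ∧ (k + 3) ≤ (n + Q) ∧ (l + 3) ≤ (n) ∧ (k + 2) ≤ (n + i) ∧ (l2 + 3) ≤ (n) ∧ (Q + 2) ≤ (n + i3) ∧ (1) ≤ (i2 + l2) ∧ (k + l + 3) ≤ (n + i2))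
    (a1 : Par W (0) (j) (k - j))
    (a2 : Par W (Q + j - k) (j) (k - j))
    (s1 : Ant W (0) (i) (i + j))
    (s2 : Ant W (j + 1) (Q) (i + j))
    (b : Par W (i + 1) (i + l + 1) (k - i))
    (tt : Ant W (i + l + 2) (n) (i + l + i2 + 1))
    (c : Par W (i2 + 1) (i2 + l2 + 1) (k + l - i2 + 1))
    (u1 : Ant W (0) (i3) (k + l + l2 + i3 - n + 2))
    (u2 : Ant W (k + l + l2 - n + 3) (Q) (k + l + l2 + i3 - n + 2))
    (d1 : Par W (i3 + 1) (Q) (i2 + l2 - i3 + 1))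
    (d2 : Par W (i2 + l2 + 2) (n) (i3 - i2 - l2 - 1))
    (n1 : Nd W (j) (i) (k))
    (n2 : Nd W (i + l + 1) (i2) (k + l + 1))
    (n3 : Nd W (k + l + l2 - n + 2) (i3) (i2 + l2 + 1)) : False := by
  have ev := al.ev
  obtain ⟨y0, y1, y2, y3, y4, y5, y6, y7, y8, y9, y10, y11, y12, y13, y14, y15, y16, y17, y18, y19, y20, y21, y22⟩ := id hy
  have n1p := And.intro n1.p1 n1.p2
  have n2p := And.intro n2.p1 n2.p2
  have n3p := And.intro n3.p1 n3.p2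
  by_cases z1 : (i + k + 2) ≤ (2 * i2)
  · have k1 : (i + k + 2 * l + 4) ≤ (2 * n) := by clear * - y1 y2 y3 y6; omega
    have k2 : (i + k + 2) ≤ (2 * n) := by clear * - y10 y13 y14 y6 z1; omega
    have k3 : (i + 2 * i2 + 2) ≤ (2 * n + k) := by clear * - y1 y10 y13 y14 y2 y3 y6; omega
    have k4 : (i + k) ≤ (2 * l + 2 * i2) := by clear * - y10 y13 y14 y8 z1; omega
    have k5 : (i + 2) ≤ (k) := by clear * - y1 y2 y3 ev n1p n2p n3p; omega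
    have k6 : (i + 2 * i2) ≤ (3 * k + 2 * l) := by clear * - y1 y10 y13 y14 y2 y3; omega
    have k7 : (i + l + i2 + 1) % 2 = 0 := by clear * - ev n1p n2p n3p; omega
    have k8 : (k - i) % 2 = 0 := by clear * - ev n1p n2p n3p; omega
    clear * - al a1 a2 s1 s2 b tt c u1 u2 d1 d2 n1 n2 n3 k1 k2 k3 z1 k4 k5 k6 k7 k8
    exact midP al (k - i) (i + l + i2 + 1) (max (i + l + i2 - n + 2) (max (i + i2 - k + 1) (i + 1))) (i + 1) (k + l + 1) (by omega) (fun t h1 h2 => (ab tt al 0 t ((i + l + i2 + 1) - t) (by omega))) (fun t h1 h2 => (qf b al 0 t (t + (k - i)) (by omega)))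
  · by_cases z2 : (k) ≤ (i + 2 * j + 1)
    · have k9 : (2 * j + 2) ≤ (i + k) := by clear * - y2 y7 z1 ev n1p n2p n3p; omega
      have k10 : (i + 2) ≤ (k) := by clear * - y1 y2 y7 z1 ev n1p n2p n3p; omega
      obtain ⟨t, ht⟩ : ∃ t, 2 * t = (i + k) := ⟨(i + k) / 2, by clear * - ev n1p n2p n3p; omega⟩
      clear * - al a1 a2 s1 s2 b tt c u1 u2 d1 d2 n1 n2 n3 k9 k10 z2 ht
      exact al.ninv t (cE (ab s1 al 0 t ((i + j) - t) (by omega)) (qf a1 al 0 ((i + j) - t) t (by omega)))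
    · have k11 : (i + l + i2 + 3) ≤ (n) := by clear * - y1 y6 z1 z2; omega
      have k12 : (i + l + 2) ≤ (n + i2) := by clear * - y1 y12 y21 y7 z1 z2; omega
      obtain ⟨t, ht⟩ : ∃ t, 2 * t = (n + i + l + i2 + 1) := ⟨(n + i + l + i2 + 1) / 2, by clear * - ev n1p n2p n3p; omega⟩
      clear * - al a1 a2 s1 s2 b tt c u1 u2 d1 d2 n1 n2 n3 k11 k12 ht
      exact al.ninv t (ab tt al 1 t t (by omega))

theorem l2_00110 {W : ℤ → G} {n Q i j k l i2 l2 i3 : ℤ} (al : AL W n Q)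
    {L : ℤ} (mx : ∀ a b g, 0 < g → g < n → Par W a b g → b - a ≤ L) (hL : L ≤ (n - j - 3) ∧ L ≤ (n + Q - k - 3) ∧ L ≤ (n - l - 3) ∧ L ≤ (n + i - k - 2) ∧ L ≤ (n - l2 - 3) ∧ L ≤ (i3 - 2) ∧ L ≤ (i2 + l2 - Q - 1) ∧ L ≤ (n + i3 - i2 - l2 - 3))
    (hy : (0) ≤ (i) ∧ (i) ≤ (j) ∧ (j + 1) ≤ (Q) ∧ (Q) ≤ (k) ∧ (k + 1) ≤ (n) ∧ (Q) ≤ (i + l + 1) ∧ (k + l + 2) ≤ (n) ∧ (Q) ≤ (i2) ∧ (i2) ≤ (i + l + 1) ∧ (Q) ≤ (k + l + l2 + 2) ∧ (k + l + l2 + 3) ≤ (n) ∧ (n) ≤ (i2 + l2 + 1) ∧ (i2 + l2 + 2) ≤ (n + Q) ∧ (Q) ≤ (i3) ∧ (i3) ≤ (k + l + l2 + 2) ∧ (j + 3) ≤ (n) ∧ (k + 3) ≤ (n + Q) ∧ (l + 3) ≤ (n) ∧ (k + 2) ≤ (n + i) ∧ (l2 + 3) ≤ (n) ∧ (2) ≤ (i3) ∧ (Q + 1) ≤ (i2 + l2) ∧ (i2 + l2 + 3) ≤ (n + i3))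
    (a1 : Par W (0) (j) (k - j))
    (a2 : Par W (Q + j - k) (j) (k - j))
    (s1 : Ant W (0) (i) (i + j))
    (s2 : Ant W (j + 1) (Q) (i + j))
    (b : Par W (i + 1) (i + l + 1) (k - i))
    (tt : Ant W (i + l + 2) (n) (i + l + i2 + 1))
    (c : Par W (i2 + 1) (i2 + l2 + 1) (k + l - i2 + 1))
    (u1 : Ant W (Q) (i3) (k + l + l2 + i3 + 2))
    (u2 : Ant W (k + l + l2 + 3) (n) (k + l + l2 + i3 + 2))
    (d1 : Par W (i3 + 1) (n) (i2 + l2 - n - i3 + 1))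
    (d2 : Par W (i2 + l2 - n + 2) (Q) (n + i3 - i2 - l2 - 1))
    (n1 : Nd W (j) (i) (k))
    (n2 : Nd W (i + l + 1) (i2) (k + l + 1))
    (n3 : Nd W (k + l + l2 + 2) (i3) (i2 + l2 - n + 1)) : False := by
  have ev := al.ev
  obtain ⟨y0, y1, y2, y3, y4, y5, y6, y7, y8, y9, y10, y11, y12, y13, y14, y15, y16, y17, y18, y19, y20, y21, y22⟩ := id hy
  have n1p := And.intro n1.p1 n1.p2
  have n2p := And.intro n2.p1 n2.p2
  have n3p := And.intro n3.p1 n3.p2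
  clear * - y1 y10 y11 y2 y3 y8; omega

theorem l2_00111 {W : ℤ → G} {n Q i j k l i2 l2 i3 : ℤ} (al : AL W n Q)
    {L : ℤ} (mx : ∀ a b g, 0 < g → g < n → Par W a b g → b - a ≤ L) (hL : L ≤ (n - j - 3) ∧ L ≤ (n + Q - k - 3) ∧ L ≤ (n - l - 3) ∧ L ≤ (n + i - k - 2) ∧ L ≤ (n - l2 - 3) ∧ L ≤ (n + i3 - Q - 2) ∧ L ≤ (k + l + l2) ∧ L ≤ (n + k + l - i2 - 1))
    (hy : (0) ≤ (i) ∧ (i) ≤ (j) ∧ (j + 1) ≤ (Q) ∧ (Q) ≤ (k) ∧ (k + 1) ≤ (n) ∧ (Q) ≤ (i + l + 1) ∧ (k + l + 2) ≤ (n) ∧ (Q) ≤ (i2) ∧ (i2) ≤ (i + l + 1) ∧ (Q) ≤ (k + l + l2 + 2) ∧ (k + l + l2 + 3) ≤ (n) ∧ (n) ≤ (i2 + l2 + 1) ∧ (i2 + l2 + 2) ≤ (n + Q) ∧ (0) ≤ (i3) ∧ (n + i3) ≤ (i2 + l2 + 1) ∧ (j + 3) ≤ (n) ∧ (k + 3) ≤ (n + Q) ∧ (l + 3) ≤ (n) ∧ (k + 2) ≤ (n + i) ∧ (l2 + 3) ≤ (n) ∧ (Q + 2) ≤ (n + i3) ∧ (0) ≤ (k + l + l2) ∧ (i2 + 1) ≤ (n + k + l))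
    (a1 : Par W (0) (j) (k - j))
    (a2 : Par W (Q + j - k) (j) (k - j))
    (s1 : Ant W (0) (i) (i + j))
    (s2 : Ant W (j + 1) (Q) (i + j))
    (b : Par W (i + 1) (i + l + 1) (k - i))
    (tt : Ant W (i + l + 2) (n) (i + l + i2 + 1))
    (c : Par W (i2 + 1) (i2 + l2 + 1) (k + l - i2 + 1))
    (u1 : Ant W (0) (i3) (i2 + l2 + i3 - n + 1))
    (u2 : Ant W (i2 + l2 - n + 2) (Q) (i2 + l2 + i3 - n + 1))
    (d1 : Par W (i3 + 1) (Q) (k + l + l2 - i3 + 2))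
    (d2 : Par W (k + l + l2 + 3) (n) (i3 - k - l - l2 - 2))
    (n1 : Nd W (j) (i) (k))
    (n2 : Nd W (i + l + 1) (i2) (k + l + 1))
    (n3 : Nd W (i2 + l2 - n + 1) (i3) (k + l + l2 + 2)) : False := by
  have ev := al.ev
  obtain ⟨y0, y1, y2, y3, y4, y5, y6, y7, y8, y9, y10, y11, y12, y13, y14, y15, y16, y17, y18, y19, y20, y21, y22⟩ := id hy
  have n1p := And.intro n1.p1 n1.p2
  have n2p := And.intro n2.p1 n2.p2
  have n3p := And.intro n3.p1 n3.p2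
  clear * - y1 y10 y13 y14 y2 y3 y8; omega

theorem l2_01000 {W : ℤ → G} {n Q i j k l i2 l2 i3 : ℤ} (al : AL W n Q)
    {L : ℤ} (mx : ∀ a b g, 0 < g → g < n → Par W a b g → b - a ≤ L) (hL : L ≤ (n - j - 3) ∧ L ≤ (n + Q - k - 3) ∧ L ≤ (n - l - 3) ∧ L ≤ (n + i - k - 2) ∧ L ≤ (n - l2 - 3) ∧ L ≤ (i3 - 2) ∧ L ≤ (i + l + l2 - Q) ∧ L ≤ (n + i3 - i - l - l2 - 4))
    (hy : (0) ≤ (i) ∧ (i) ≤ (j) ∧ (j + 1) ≤ (Q) ∧ (Q) ≤ (k) ∧ (k + 1) ≤ (n) ∧ (Q) ≤ (i + l + 1) ∧ (k + l + 2) ≤ (n) ∧ (Q) ≤ (i2) ∧ (i2) ≤ (k + l + 1) ∧ (Q) ≤ (i2 + l2 + 1) ∧ (i2 + l2 + 2) ≤ (n) ∧ (n) ≤ (i + l + l2 + 2) ∧ (i + l + l2 + 3) ≤ (n + Q) ∧ (Q) ≤ (i3) ∧ (i3) ≤ (i2 + l2 + 1) ∧ (j + 3) ≤ (n) ∧ (k + 3) ≤ (n + Q) ∧ (l + 3) ≤ (n) ∧ (k + 2) ≤ (n + i) ∧ (l2 + 3) ≤ (n) ∧ (2) ≤ (i3) ∧ (Q) ≤ (i + l + l2) ∧ (i + l + l2 + 4) ≤ (n + i3))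
    (a1 : Par W (0) (j) (k - j))
    (a2 : Par W (Q + j - k) (j) (k - j))
    (s1 : Ant W (0) (i) (i + j))
    (s2 : Ant W (j + 1) (Q) (i + j))
    (b : Par W (i + 1) (i + l + 1) (k - i))
    (tt : Ant W (Q) (i2) (k + l + i2 + 1))
    (c : Par W (i2 + 1) (i2 + l2 + 1) (i + l - i2 + 1))
    (u1 : Ant W (Q) (i3) (i2 + l2 + i3 + 1))
    (u2 : Ant W (i2 + l2 + 2) (n) (i2 + l2 + i3 + 1))
    (d1 : Par W (i3 + 1) (n) (i + l + l2 - n - i3 + 2))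
    (d2 : Par W (i + l + l2 - n + 3) (Q) (n + i3 - i - l - l2 - 2))
    (n1 : Nd W (j) (i) (k))
    (n2 : Nd W (k + l + 1) (i2) (i + l + 1))
    (n3 : Nd W (i2 + l2 + 1) (i3) (i + l + l2 - n + 2)) : False := by
  have ev := al.ev
  obtain ⟨y0, y1, y2, y3, y4, y5, y6, y7, y8, y9, y10, y11, y12, y13, y14, y15, y16, y17, y18, y19, y20, y21, y22⟩ := id hy
  have n1p := And.intro n1.p1 n1.p2
  have n2p := And.intro n2.p1 n2.p2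
  have n3p := And.intro n3.p1 n3.p2
  have k1 : (i2) ≤ (i + l) := by clear * - y10 y11; omega
  have k2 : (i + 1) ≤ (k) := by clear * - y1 y2 y3; omega
  have k3 : (k) ≤ (i + l2 + 2) := by clear * - y11 y6; omega
  have k4 : (i + 1) ≤ (i2) := by clear * - y1 y2 y7; omega
  have k5 : (i + l - i2 + 1) % 2 = 0 := by clear * - ev n1p n2p n3p; omega
  have k6 : (k - i) % 2 = 0 := by clear * - ev n1p n2p n3p; omega
  clear * - al a1 a2 s1 s2 b tt c u1 u2 d1 d2 n1 n2 n3 k1 k2 k3 k4 k5 k6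
  exact n2.f1 (rEE (sh al 1 (i2) (n + i2) (by omega)) (sh al 1 (i + l + 1) (n + i + l + 1) (by omega)) (rotL (i + l - i2 + 1) (k - i) (n + i2) (n + i + l + 1) (by omega) (fun t h1 h2 => (cE (qf c al 1 t (t + (i + l - n - i2 + 1)) (by omega)) (sh al 1 (t + (i + l - n - i2 + 1)) (t + (i + l - i2 + 1)) (by omega)))) (fun t h1 h2 => (cE (qf b al 1 t (t + (k - n - i)) (by omega)) (sh al 1 (t + (k - n - i)) (t + (k - i)) (by omega))))))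

theorem l2_01001 {W : ℤ → G} {n Q i j k l i2 l2 i3 : ℤ} (al : AL W n Q)
    {L : ℤ} (mx : ∀ a b g, 0 < g → g < n → Par W a b g → b - a ≤ L) (hL : L ≤ (n - j - 3) ∧ L ≤ (n + Q - k - 3) ∧ L ≤ (n - l - 3) ∧ L ≤ (n + i - k - 2) ∧ L ≤ (n - l2 - 3) ∧ L ≤ (n + i3 - Q - 2) ∧ L ≤ (i2 + l2 - 1) ∧ L ≤ (n + i2 - i - l - 3))
    (hy : (0) ≤ (i) ∧ (i) ≤ (j) ∧ (j + 1) ≤ (Q) ∧ (Q) ≤ (k) ∧ (k + 1) ≤ (n) ∧ (Q) ≤ (i + l + 1) ∧ (k + l + 2) ≤ (n) ∧ (Q) ≤ (i2) ∧ (i2) ≤ (k + l + 1) ∧ (Q) ≤ (i2 + l2 + 1) ∧ (i2 + l2 + 2) ≤ (n) ∧ (n) ≤ (i + l + l2 + 2) ∧ (i + l + l2 + 3) ≤ (n + Q) ∧ (0) ≤ (i3) ∧ (n + i3) ≤ (i + l + l2 + 2) ∧ (j + 3) ≤ (n) ∧ (k + 3) ≤ (n + Q) ∧ (l + 3) ≤ (n) ∧ (k + 2) ≤ (n + i) ∧ (l2 + 3) ≤ (n) ∧ (Q + 2) ≤ (n + i3) ∧ (1) ≤ (i2 + l2) ∧ (i + l + 3) ≤ (n + i2))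
    (a1 : Par W (0) (j) (k - j))
    (a2 : Par W (Q + j - k) (j) (k - j))
    (s1 : Ant W (0) (i) (i + j))
    (s2 : Ant W (j + 1) (Q) (i + j))
    (b : Par W (i + 1) (i + l + 1) (k - i))
    (tt : Ant W (Q) (i2) (k + l + i2 + 1))
    (c : Par W (i2 + 1) (i2 + l2 + 1) (i + l - i2 + 1))
    (u1 : Ant W (0) (i3) (i + l + l2 + i3 - n + 2))
    (u2 : Ant W (i + l + l2 - n + 3) (Q) (i + l + l2 + i3 - n + 2))
    (d1 : Par W (i3 + 1) (Q) (i2 + l2 - i3 + 1))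
    (d2 : Par W (i2 + l2 + 2) (n) (i3 - i2 - l2 - 1))
    (n1 : Nd W (j) (i) (k))
    (n2 : Nd W (k + l + 1) (i2) (i + l + 1))
    (n3 : Nd W (i + l + l2 - n + 2) (i3) (i2 + l2 + 1)) : False := by
  have ev := al.ev
  obtain ⟨y0, y1, y2, y3, y4, y5, y6, y7, y8, y9, y10, y11, y12, y13, y14, y15, y16, y17, y18, y19, y20, y21, y22⟩ := id hy
  have n1p := And.intro n1.p1 n1.p2
  have n2p := And.intro n2.p1 n2.p2
  have n3p := And.intro n3.p1 n3.p2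
  have k1 : (i + 1) ≤ (k) := by clear * - y1 y2 y3; omega
  have k2 : (i2) ≤ (i + l) := by clear * - y10 y13 y14; omega
  have k3 : (i) ≤ (i2 + 1) := by clear * - y1 y2 y7; omega
  have k4 : (k) ≤ (i + l2) := by clear * - y13 y14 y6; omega
  have k5 : (k - i) % 2 = 0 := by clear * - ev n1p n2p n3p; omega
  have k6 : (i + l - i2 + 1) % 2 = 0 := by clear * - ev n1p n2p n3p; omega
  clear * - al a1 a2 s1 s2 b tt c u1 u2 d1 d2 n1 n2 n3 k1 k2 k3 k4 k5 k6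
  exact n2.f0 (rEE (sh al (-1) (k + l + 1) (k + l - n + 1) (by omega)) (sh al (-1) (i + l + 1) (i + l - n + 1) (by omega)) (Eq.symm (rotR (k - i) (i + l - i2 + 1) (i + l - n + 1) (k + l - n + 1) (by omega) (fun t h1 h2 => (cE (qf b al (-1) t (t + (n + k - i)) (by omega)) (sh al (-1) (t + (n + k - i)) (t + (k - i)) (by omega)))) (fun t h1 h2 => (cE (qf c al (-1) t (t + (n + i + l - i2 + 1)) (by omega)) (sh al (-1) (t + (n + i + l - i2 + 1)) (t + (i + l - i2 + 1)) (by omega)))))))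

theorem l2_01010_1 {W : ℤ → G} {n Q i j k l i2 l2 i3 : ℤ} (al : AL W n Q)
    {L : ℤ} (mx : ∀ a b g, 0 < g → g < n → Par W a b g → b - a ≤ L) (hL : L ≤ (n - j - 3) ∧ L ≤ (n + Q - k - 3) ∧ L ≤ (n - l - 3) ∧ L ≤ (n + i - k - 2) ∧ L ≤ (n - l2 - 3) ∧ L ≤ (i3 - 2) ∧ L ≤ (i2 + l2 - Q - 1) ∧ L ≤ (n + i3 - i2 - l2 - 3))
    (hy : (0) ≤ (i) ∧ (i) ≤ (j) ∧ (j + 1) ≤ (Q) ∧ (Q) ≤ (k) ∧ (k + 1) ≤ (n) ∧ (Q) ≤ (i + l + 1) ∧ (k + l + 2) ≤ (n) ∧ (Q) ≤ (i2) ∧ (i2) ≤ (k + l + 1) ∧ (Q) ≤ (i + l + l2 + 2) ∧ (i + l + l2 + 3) ≤ (n) ∧ (n) ≤ (i2 + l2 + 1) ∧ (i2 + l2 + 2) ≤ (n + Q) ∧ (Q) ≤ (i3) ∧ (i3) ≤ (i + l + l2 + 2) ∧ (j + 3) ≤ (n) ∧ (k + 3) ≤ (n + Q) ∧ (l + 3) ≤ (n) ∧ (k + 2) ≤ (n + i) ∧ (l2 + 3) ≤ (n) ∧ (2) ≤ (i3) ∧ (Q + 1) ≤ (i2 + l2) ∧ (i2 + l2 + 3) ≤ (n + i3))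
    (a1 : Par W (0) (j) (k - j))
    (a2 : Par W (Q + j - k) (j) (k - j))
    (s1 : Ant W (0) (i) (i + j))
    (s2 : Ant W (j + 1) (Q) (i + j))
    (b : Par W (i + 1) (i + l + 1) (k - i))
    (tt : Ant W (Q) (i2) (k + l + i2 + 1))
    (c : Par W (i2 + 1) (i2 + l2 + 1) (i + l - i2 + 1))
    (u1 : Ant W (Q) (i3) (i + l + l2 + i3 + 2))
    (u2 : Ant W (i + l + l2 + 3) (n) (i + l + l2 + i3 + 2))
    (d1 : Par W (i3 + 1) (n) (i2 + l2 - n - i3 + 1))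
    (d2 : Par W (i2 + l2 - n + 2) (Q) (n + i3 - i2 - l2 - 1))
    (n1 : Nd W (j) (i) (k))
    (n2 : Nd W (k + l + 1) (i2) (i + l + 1))
    (n3 : Nd W (i + l + l2 + 2) (i3) (i2 + l2 - n + 1))
    (b0 : (i2 + l2 + 2) ≤ (2 * i3)) : False := by
  have ev := al.ev
  obtain ⟨y0, y1, y2, y3, y4, y5, y6, y7, y8, y9, y10, y11, y12, y13, y14, y15, y16, y17, y18, y19, y20, y21, y22⟩ := id hy
  have n1p := And.intro n1.p1 n1.p2
  have n2p := And.intro n2.p1 n2.p2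
  have n3p := And.intro n3.p1 n3.p2
  by_cases z2 : (n + 2 * Q) ≤ (i + l + l2 + i3 + 3)
  · have k4 : (n + 2 * Q) ≤ (i + l + l2 + i3 + 2) := by clear * - z2 ev n1p n2p n3p; omega
    have k5 : (i + l + l2 + 3) ≤ (n + i3) := by clear * - y10 y20; omega
    obtain ⟨t, ht⟩ : ∃ t, 2 * t = (i + l + l2 + i3 - 3 * n + 2) := ⟨(i + l + l2 + i3 - 3 * n + 2) / 2, by clear * - ev n1p n2p n3p; omega⟩
    clear * - al a1 a2 s1 s2 b tt c u1 u2 d1 d2 n1 n2 n3 k4 k5 ht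
    exact al.ninv t (cE (qa u1 al (-1) t ((i + l + l2 + i3 - n + 2) - t) (by omega)) (sh al (-2) ((i + l + l2 + i3 - n + 2) - t) t (by omega)))
  · by_cases z3 : (2 * i2 + 2 * l2 + 2) ≤ (n + 2 * Q)
    · have k6 : (i3) ≤ (i2 + l2) := by clear * - y10 y11 y14; omega
      have k7 : (i2 + l2 + 2) ≤ (n + i3) := by clear * - y22; omega
      have k8 : L ≤ (i2 + l2 - Q - 1) := by clear * - hL; omega
      clear * - al a1 a2 s1 s2 b tt c u1 u2 d1 d2 n1 n2 n3 mx k6 k7 z3 k8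
      exact absurd (mx (n + i3 + 1) (2 * n + Q + i3 - i2 - l2 - 1) (i2 + l2 - i3 + 1) (by omega) (by omega) fun t h1 h2 => (cE (pb d2 al 1 t (t + (i2 + l2 - 2 * n - i3 + 1)) (by omega)) (sh al 2 (t + (i2 + l2 - 2 * n - i3 + 1)) (t + (i2 + l2 - i3 + 1)) (by omega)))) (by omega)
    · by_cases z4 : (2 * k + l + 1) ≤ (i + i2 + 2 * l2)
      · have k9 : (2 * Q) ≤ (i + l + i2 + 1) := by clear * - y10 y11 y5; omega
        have k10 : (i + l + 3) ≤ (i2) := by clear * - y10 y11 ev n1p n2p n3p; omega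
        have k11 : (2 * Q + i) ≤ (2 * k + l + i2 + 1) := by clear * - y10 y11 y7 y8; omega
        have k12 : (3 * i + l + 3) ≤ (2 * k + i2) := by clear * - y10 y11 y8; omega
        have k13 : (2 * Q) ≤ (i + l + i2 + 2 * l2 + 3) := by clear * - y14 y22 z3; omega
        have k14 : (2 * k + l) ≤ (i + i2 + 4 * l2 + 1) := by clear * - y10 y11 y8 z4; omega
        have k15 : (k + l + i2 - 2 * n + 1) % 2 = 0 := by clear * - ev n1p n2p n3p; omega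
        have k16 : (i2 - i - l - 1) % 2 = 0 := by clear * - ev n1p n2p n3p; omega
        clear * - al a1 a2 s1 s2 b tt c u1 u2 d1 d2 n1 n2 n3 k9 k10 z4 k11 k12 k13 k14 k15 k16
        exact midP al (i2 - i - l - 1) (k + l + i2 - 2 * n + 1) (max (i + l - n + 2) (max (k + l - n - l2 + 1) (k + l - n + 2))) (i + l - n + 2) (i2 + l2 - n + 1) (by omega) (fun t h1 h2 => (cE (ab tt al (-1) t ((k + l + i2 - n + 1) - t) (by omega)) (sh al (-1) ((k + l + i2 - n + 1) - t) ((k + l + i2 - 2 * n + 1) - t) (by omega)))) (fun t h1 h2 => (cE (pb c al (-1) t (t + (n + i2 - i - l - 1)) (by omega)) (sh al (-1) (t + (n + i2 - i - l - 1)) (t + (i2 - i - l - 1)) (by omega))))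
      · by_cases z5 : (n) ≤ (2 * l + 2)
        · have k17 : (k + 1) ≤ (n + i) := by clear * - y18; omega
          have k18 : (i + 1) ≤ (k) := by clear * - y10 y11 y8; omega
          have k19 : L ≤ (n - l - 3) := by clear * - hL; omega
          clear * - al a1 a2 s1 s2 b tt c u1 u2 d1 d2 n1 n2 n3 mx k17 k18 z5 k19
          exact absurd (mx (n + k + 1) (n + k + l + 1) (n + i - k) (by omega) (by omega) fun t h1 h2 => (cE (pb b al 1 t (t + (i - n - k)) (by omega)) (sh al 2 (t + (i - n - k)) (t + (n + i - k)) (by omega)))) (by omega)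
        · by_cases z6 : (i + l + 2 * i3 + 2) ≤ (n + i2)
          · have k20 : (i2 + 1) ≤ (n + i + l) := by clear * - b0 y14 z6; omega
            have k21 : (i + l + i2 + 2 * l2 + 5) ≤ (n + 2 * i3) := by clear * - b0 z6; omega
            obtain ⟨t, ht⟩ : ∃ t, 2 * t = (i + l + i2 + 2 * l2 - 3 * n + 3) := ⟨(i + l + i2 + 2 * l2 - 3 * n + 3) / 2, by clear * - ev n1p n2p n3p; omega⟩
            clear * - al a1 a2 s1 s2 b tt c u1 u2 d1 d2 n1 n2 n3 k20 k21 z6 ht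
            exact al.ninv t (cE (cI (pb d1 al (-1) t (t + (2 * n + i3 - i2 - l2 - 1)) (by omega)) (qa u2 al 0 (t + (2 * n + i3 - i2 - l2 - 1)) ((i + l + i2 + 2 * l2 - 2 * n + 3) - t) (by omega))) (sh al (-1) ((i + l + i2 + 2 * l2 - 2 * n + 3) - t) t (by omega)))
          · by_cases z7 : (k) ≤ (2 * i + j)
            · have k22 : (k) ≤ (2 * i + 3 * j + 2) := by clear * - y1 y14 z2 z3 z4 z5 z6 z7; omega
              have k23 : (j + 2) ≤ (k) := by clear * - y2 y3 ev n1p n2p n3p; omega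
              have k24 : (2 * i + j + 2) ≤ (3 * k) := by clear * - y10 y11 y2 y8 z3 z4 z5; omega
              have k25 : (2 * n + i + j) % 2 = 0 := by clear * - ev n1p n2p n3p; omega
              have k26 : (k - j) % 2 = 0 := by clear * - ev n1p n2p n3p; omega
              clear * - al a1 a2 s1 s2 b tt c u1 u2 d1 d2 n1 n2 n3 z7 k22 k23 k24 k25 k26
              exact midP al (k - j) (2 * n + i + j) (max (n + i + j - k + 1) (n)) (n) (n + k) (by omega) (fun t h1 h2 => (cE (qa s1 al 1 t ((n + i + j) - t) (by omega)) (sh al 1 ((n + i + j) - t) ((2 * n + i + j) - t) (by omega)))) (fun t h1 h2 => (cE (qf a1 al 1 t (t + (k - n - j)) (by omega)) (sh al 1 (t + (k - n - j)) (t + (k - j)) (by omega))))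
            · by_cases z8 : (i + l + i2 + 3) ≤ (2 * i3)
              · have k27 : (i + l + i2 + 2 * l2 + 5) ≤ (2 * n) := by clear * - y6 z4 ev n1p n2p n3p; omega
                have k28 : (i + l + i2 + 3) ≤ (2 * n) := by clear * - y10 y14 z8; omega
                have k29 : (i + l + 2 * i3 + 3) ≤ (2 * n + i2) := by clear * - y10 y14 z2 z3; omega
                have k30 : (i + l + i2 + 1) ≤ (2 * l2 + 2 * i3) := by clear * - y14 z2 z3 z8; omega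
                have k31 : (i + l + 3) ≤ (i2) := by clear * - y10 y11 ev n1p n2p n3p; omega
                have k32 : (i + l + 2 * i3 + 1) ≤ (3 * i2 + 2 * l2) := by clear * - y14 z2 z3; omega
                have k33 : (i + l + l2 + i3 + 2) % 2 = 0 := by clear * - ev n1p n2p n3p; omega
                have k34 : (i2 - i - l - 1) % 2 = 0 := by clear * - ev n1p n2p n3p; omega
                clear * - al a1 a2 s1 s2 b tt c u1 u2 d1 d2 n1 n2 n3 k27 k28 k29 z8 k30 k31 k32 k33 k34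
                exact midP al (i2 - i - l - 1) (i + l + l2 + i3 + 2) (max (i + l + l2 + i3 - n + 3) (max (i + l + i3 - i2 + 2) (i + l + 2))) (i + l + 2) (i2 + l2 + 1) (by omega) (fun t h1 h2 => (ab u2 al 0 t ((i + l + l2 + i3 + 2) - t) (by omega))) (fun t h1 h2 => (pb c al 0 t (t + (i2 - i - l - 1)) (by omega)))
              · by_cases z9 : (n + 2 * Q + j) ≤ (i + k + l + l2 + i3 + 2)
                · have k35 : (i + l + l2 + i3 + 4) ≤ (n + j + k) := by clear * - y1 z4 z5 z8 ev n1p n2p n3p; omega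
                  have k36 : (i + k + l + l2 + 3) ≤ (n + j + i3) := by clear * - y1 y11 y6 z4 z6 z8; omega
                  obtain ⟨t, ht⟩ : ∃ t, 2 * t = (i + k + l + l2 + i3 - n - j + 2) := ⟨(i + k + l + l2 + i3 - n - j + 2) / 2, by clear * - ev n1p n2p n3p; omega⟩
                  clear * - al a1 a2 s1 s2 b tt c u1 u2 d1 d2 n1 n2 n3 z9 k35 k36 ht
                  exact al.ninv t (cE (qa u1 al 0 t ((i + l + l2 + i3 + 2) - t) (by omega)) (qf a2 al 1 ((i + l + l2 + i3 + 2) - t) t (by omega)))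
                · by_cases z10 : (2 * j + i2 + l2 + 3) ≤ (2 * Q + i3)
                  · have k37 : (i3) ≤ (i2 + l2) := by clear * - y14 z3 z5 z6 z7 z8 z9; omega
                    have k38 : (2 * i + 2 * j + i2 + l2 + 3) ≤ (4 * Q + i3) := by clear * - y14 z10 z3 z5 z6 z7 z8 z9; omega
                    have k39 : (i2 + l2 + i3 + 3) ≤ (2 * n + 2 * i) := by clear * - y14 y6 z4 z5 z6 z8 ev n1p n2p n3p; omega
                    have k40 : (i2 + l2 + 3 * i3 + 3) ≤ (4 * n + 2 * i + 2 * j) := by clear * - y13 y14 y5 z4 z5 z9; omega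
                    have k41 : (2 * n + i + j) % 2 = 0 := by clear * - ev n1p n2p n3p; omega
                    have k42 : (i2 + l2 - i3 + 1) % 2 = 0 := by clear * - ev n1p n2p n3p; omega
                    clear * - al a1 a2 s1 s2 b tt c u1 u2 d1 d2 n1 n2 n3 k37 z10 k38 k39 k40 k41 k42
                    exact midP al (i2 + l2 - i3 + 1) (2 * n + i + j) (max (n + i + j - Q + 1) (i3 + 1)) (i3 + 1) (n + Q) (by omega) (fun t h1 h2 => (cE (ab s2 al 1 t ((n + i + j) - t) (by omega)) (sh al 1 ((n + i + j) - t) ((2 * n + i + j) - t) (by omega)))) (fun t h1 h2 => (cE (pb d2 al 0 t (t + (i2 + l2 - n - i3 + 1)) (by omega)) (sh al 1 (t + (i2 + l2 - n - i3 + 1)) (t + (i2 + l2 - i3 + 1)) (by omega))))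
                  · by_cases z11 : (j + i2 + l2 + 2) ≤ (n + k)
                    · by_cases z12 : (k + i3) ≤ (j + i2 + l2)
                      · have k43 : (j + i2 + l2 + 2) ≤ (n + k + i3) := by clear * - z11 z3 z6 z9; omega
                        have k44 : (i2 + l2 + 1) ≤ (k + i3) := by clear * - z4 z5 z6; omega
                        clear * - al a1 a2 s1 s2 b tt c u1 u2 d1 d2 n1 n2 n3 z12 k43 z11 k44
                        exact al.ubP (j + i2 + l2 - k - i3 + 1) (by omega) (by omega) fun t h1 h2 => (cE (qf d1 al (-1) t (t + (i2 + l2 - i3 + 1)) (by omega)) (pb a1 al 0 (t + (i2 + l2 - i3 + 1)) (t + (j + i2 + l2 - k - i3 + 1)) (by omega)))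
                      · have k45 : (l2 + i3 + 2) ≤ (k + l) := by clear * - z10 z12 z6 z7 z8 z9 ev n1p n2p n3p; omega
                        have k46 : (k + l + i3 + 2) ≤ (2 * i2 + l2) := by clear * - y11 y6 z10 z12 z6 z7 z8 z9; omega
                        have k47 : (k + l + i3 + 1) ≤ (2 * n + l2) := by clear * - y14 y6 z10 z5 z6 z7 z8 z9; omega
                        have k48 : (2 * Q + l2) ≤ (k + l + i3 + 1) := by clear * - y13 z10 z12 z6 z7 z8 z9; omega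
                        obtain ⟨t, ht⟩ : ∃ t, 2 * t = (k + l + i3 - 2 * n - l2) := ⟨(k + l + i3 - 2 * n - l2) / 2, by clear * - ev n1p n2p n3p; omega⟩
                        clear * - al a1 a2 s1 s2 b tt c u1 u2 d1 d2 n1 n2 n3 k45 k46 k47 k48 ht
                        exact al.ninv t (cE (cI (qf d1 al (-1) t (t + (i2 + l2 - i3 + 1)) (by omega)) (ab tt al (-1) (t + (i2 + l2 - i3 + 1)) ((k + l + i3 - n - l2) - t) (by omega))) (sh al (-1) ((k + l + i3 - n - l2) - t) t (by omega)))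
                    · have k49 : (2 * k + l + 3) ≤ (n + i + i2) := by clear * - y6 z11 z4 z5 z6 z7 z8; omega
                      have k50 : (i2 + 1) ≤ (n + i + l) := by clear * - y14 y22; omega
                      have k51 : (n + 2 * Q + i) ≤ (2 * k + l + i2 + 2) := by clear * - z3 z4; omega
                      have k52 : (n + i) ≤ (l + i2) := by clear * - b0 z11 z7 z8; omega
                      obtain ⟨t, ht⟩ : ∃ t, 2 * t = (3 * n + i + l + i2 + 1) := ⟨(3 * n + i + l + i2 + 1) / 2, by clear * - ev n1p n2p n3p; omega⟩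
                      clear * - al a1 a2 s1 s2 b tt c u1 u2 d1 d2 n1 n2 n3 k49 k50 k51 k52 ht
                      exact al.ninv t (cE (cE (ab tt al 1 t ((n + k + l + i2 + 1) - t) (by omega)) (pb b al 0 ((n + k + l + i2 + 1) - t) ((n + i + l + i2 + 1) - t) (by omega))) (sh al 2 ((n + i + l + i2 + 1) - t) t (by omega)))

theorem l2_01010 {W : ℤ → G} {n Q i j k l i2 l2 i3 : ℤ} (al : AL W n Q)
    {L : ℤ} (mx : ∀ a b g, 0 < g → g < n → Par W a b g → b - a ≤ L) (hL : L ≤ (n - j - 3) ∧ L ≤ (n + Q - k - 3) ∧ L ≤ (n - l - 3) ∧ L ≤ (n + i - k - 2) ∧ L ≤ (n - l2 - 3) ∧ L ≤ (i3 - 2) ∧ L ≤ (i2 + l2 - Q - 1) ∧ L ≤ (n + i3 - i2 - l2 - 3))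
    (hy : (0) ≤ (i) ∧ (i) ≤ (j) ∧ (j + 1) ≤ (Q) ∧ (Q) ≤ (k) ∧ (k + 1) ≤ (n) ∧ (Q) ≤ (i + l + 1) ∧ (k + l + 2) ≤ (n) ∧ (Q) ≤ (i2) ∧ (i2) ≤ (k + l + 1) ∧ (Q) ≤ (i + l + l2 + 2) ∧ (i + l + l2 + 3) ≤ (n) ∧ (n) ≤ (i2 + l2 + 1) ∧ (i2 + l2 + 2) ≤ (n + Q) ∧ (Q) ≤ (i3) ∧ (i3) ≤ (i + l + l2 + 2) ∧ (j + 3) ≤ (n) ∧ (k + 3) ≤ (n + Q) ∧ (l + 3) ≤ (n) ∧ (k + 2) ≤ (n + i) ∧ (l2 + 3) ≤ (n) ∧ (2) ≤ (i3) ∧ (Q + 1) ≤ (i2 + l2) ∧ (i2 + l2 + 3) ≤ (n + i3))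
    (a1 : Par W (0) (j) (k - j))
    (a2 : Par W (Q + j - k) (j) (k - j))
    (s1 : Ant W (0) (i) (i + j))
    (s2 : Ant W (j + 1) (Q) (i + j))
    (b : Par W (i + 1) (i + l + 1) (k - i))
    (tt : Ant W (Q) (i2) (k + l + i2 + 1))
    (c : Par W (i2 + 1) (i2 + l2 + 1) (i + l - i2 + 1))
    (u1 : Ant W (Q) (i3) (i + l + l2 + i3 + 2))
    (u2 : Ant W (i + l + l2 + 3) (n) (i + l + l2 + i3 + 2))
    (d1 : Par W (i3 + 1) (n) (i2 + l2 - n - i3 + 1))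
    (d2 : Par W (i2 + l2 - n + 2) (Q) (n + i3 - i2 - l2 - 1))
    (n1 : Nd W (j) (i) (k))
    (n2 : Nd W (k + l + 1) (i2) (i + l + 1))
    (n3 : Nd W (i + l + l2 + 2) (i3) (i2 + l2 - n + 1)) : False := by
  have ev := al.ev
  obtain ⟨y0, y1, y2, y3, y4, y5, y6, y7, y8, y9, y10, y11, y12, y13, y14, y15, y16, y17, y18, y19, y20, y21, y22⟩ := id hy
  have n1p := And.intro n1.p1 n1.p2
  have n2p := And.intro n2.p1 n2.p2
  have n3p := And.intro n3.p1 n3.p2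
  by_cases z1 : (2 * i3) ≤ (i2 + l2 + 1)
  · have k1 : (i3) ≤ (i2 + l2) := by clear * - y20 z1; omega
    have k2 : (i2 + l2 + 2) ≤ (n + i3) := by clear * - y22; omega
    have k3 : L ≤ (n + i3 - i2 - l2 - 3) := by clear * - hL; omega
    clear * - al a1 a2 s1 s2 b tt c u1 u2 d1 d2 n1 n2 n3 mx k1 k2 z1 k3
    exact absurd (mx (n + i3 + 1) (2 * n) (i2 + l2 - i3 + 1) (by omega) (by omega) fun t h1 h2 => (cE (qf d1 al 1 t (t + (i2 + l2 - 2 * n - i3 + 1)) (by omega)) (sh al 2 (t + (i2 + l2 - 2 * n - i3 + 1)) (t + (i2 + l2 - i3 + 1)) (by omega)))) (by omega)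
  · exact l2_01010_1 al mx hL hy a1 a2 s1 s2 b tt c u1 u2 d1 d2 n1 n2 n3 (by clear * - z1; omega)

end Pool.Agent.MP_a38735_al.WL
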