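import Pool.Agent.MP_a38735_al.WQ

set_option autoImplicit false
set_option linter.unusedVariables false

namespace Pool.Agent.MP_a38735_al.WL

variable {G : Type*} [Group G]

theorem l2_01011 {W : ℤ → G} {n Q i j k l i2 l2 i3 : ℤ} (al : AL W n Q)
    {L : ℤ} (mx : ∀ a b g, 0 < g → g < n → Par W a b g → b - a ≤ L) (hL : L ≤ (n - j - 3) ∧ L ≤ (n + Q - k - 3) ∧ L ≤ (n - l - 3) ∧ L ≤ (n + i - k - 2) ∧ L ≤ (n - l2 - 3) ∧ L ≤ (n + i3 - Q - 2) ∧ L ≤ (i + l + l2) ∧ L ≤ (n + i + l - i2 - 1))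
    (hy : (0) ≤ (i) ∧ (i) ≤ (j) ∧ (j + 1) ≤ (Q) ∧ (Q) ≤ (k) ∧ (k + 1) ≤ (n) ∧ (Q) ≤ (i + l + 1) ∧ (k + l + 2) ≤ (n) ∧ (Q) ≤ (i2) ∧ (i2) ≤ (k + l + 1) ∧ (Q) ≤ (i + l + l2 + 2) ∧ (i + l + l2 + 3) ≤ (n) ∧ (n) ≤ (i2 + l2 + 1) ∧ (i2 + l2 + 2) ≤ (n + Q) ∧ (0) ≤ (i3) ∧ (n + i3) ≤ (i2 + l2 + 1) ∧ (j + 3) ≤ (n) ∧ (k + 3) ≤ (n + Q) ∧ (l + 3) ≤ (n) ∧ (k + 2) ≤ (n + i) ∧ (l2 + 3) ≤ (n) ∧ (Q + 2) ≤ (n + i3) ∧ (0) ≤ (i + l + l2) ∧ (i2 + 1) ≤ (n + i + l))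
    (a1 : Par W (0) (j) (k - j))
    (a2 : Par W (Q + j - k) (j) (k - j))
    (s1 : Ant W (0) (i) (i + j))
    (s2 : Ant W (j + 1) (Q) (i + j))
    (b : Par W (i + 1) (i + l + 1) (k - i))
    (tt : Ant W (Q) (i2) (k + l + i2 + 1))
    (c : Par W (i2 + 1) (i2 + l2 + 1) (i + l - i2 + 1))
    (u1 : Ant W (0) (i3) (i2 + l2 + i3 - n + 1))
    (u2 : Ant W (i2 + l2 - n + 2) (Q) (i2 + l2 + i3 - n + 1))
    (d1 : Par W (i3 + 1) (Q) (i + l + l2 - i3 + 2))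
    (d2 : Par W (i + l + l2 + 3) (n) (i3 - i - l - l2 - 2))
    (n1 : Nd W (j) (i) (k))
    (n2 : Nd W (k + l + 1) (i2) (i + l + 1))
    (n3 : Nd W (i2 + l2 - n + 1) (i3) (i + l + l2 + 2)) : False := by
  have ev := al.ev
  obtain ⟨y0, y1, y2, y3, y4, y5, y6, y7, y8, y9, y10, y11, y12, y13, y14, y15, y16, y17, y18, y19, y20, y21, y22⟩ := id hy
  have n1p := And.intro n1.p1 n1.p2
  have n2p := And.intro n2.p1 n2.p2
  have n3p := And.intro n3.p1 n3.p2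
  by_cases z1 : (2 * k + l + 1) ≤ (i + i2 + 2 * l2)
  · have k1 : (2 * Q) ≤ (i + l + i2 + 1) := by clear * - y10 y13 y14 y5; omega
    have k2 : (2 * Q + i) ≤ (2 * k + l + i2 + 1) := by clear * - y10 y13 y14 y7 y8; omega
    have k3 : (2 * Q) ≤ (i + l + i2 + 2 * l2 + 3) := by clear * - y14 y20 y9; omega
    have k4 : (i + l + 3) ≤ (i2) := by clear * - y10 y13 y14 ev n1p n2p n3p; omega
    have k5 : (3 * i + l + 3) ≤ (2 * k + i2) := by clear * - y10 y13 y14 y8; omega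
    have k6 : (2 * k + l) ≤ (i + i2 + 4 * l2 + 1) := by clear * - y10 y13 y14 y8 z1; omega
    have k7 : (k + l + i2 + 1) % 2 = 0 := by clear * - ev n1p n2p n3p; omega
    have k8 : (i2 - i - l - 1) % 2 = 0 := by clear * - ev n1p n2p n3p; omega
    clear * - al a1 a2 s1 s2 b tt c u1 u2 d1 d2 n1 n2 n3 k1 k2 k3 k4 k5 z1 k6 k7 k8
    exact midP al (i2 - i - l - 1) (k + l + i2 + 1) (max (Q) (max (i + l + 2) (k + l - l2 + 1))) (i + l + 2) (i2 + l2 + 1) (by omega) (fun t h1 h2 => (qa tt al 0 t ((k + l + i2 + 1) - t) (by omega))) (fun t h1 h2 => (pb c al 0 t (t + (i2 - i - l - 1)) (by omega)))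
  · by_cases z2 : (i2 + 2 * i3) ≤ (2 * Q + i + l)
    · have k9 : (i + l + 3) ≤ (i2) := by clear * - y10 y13 y14 ev n1p n2p n3p; omega
      have k10 : (i + l + i2 + 2 * l2 + 5) ≤ (2 * n + 2 * i3) := by clear * - y13 y6 z1 ev n1p n2p n3p; omega
      have k11 : (i + l + i2 + 2 * l2 + 4) ≤ (2 * n) := by clear * - y6 z1; omega
      obtain ⟨t, ht⟩ : ∃ t, 2 * t = (2 * n + i + l + i2 + 2 * l2 + 3) := ⟨(2 * n + i + l + i2 + 2 * l2 + 3) / 2, by clear * - ev n1p n2p n3p; omega⟩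
      clear * - al a1 a2 s1 s2 b tt c u1 u2 d1 d2 n1 n2 n3 k9 k10 k11 z2 ht
      exact al.ninv t (cE (cI (qf d2 al 1 t (t + (i3 - n - i - l - l2 - 2)) (by omega)) (qa u2 al 0 (t + (i3 - n - i - l - l2 - 2)) ((i + l + i2 + 2 * l2 + 3) - t) (by omega))) (sh al 2 ((i + l + i2 + 2 * l2 + 3) - t) t (by omega)))
    · have k12 : (n + 2 * Q) ≤ (k + l + i2 + 2) := by clear * - y14 y5 z1 z2; omega
      clear * - al a1 a2 s1 s2 b tt c u1 u2 d1 d2 n1 n2 n3 y6 k12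
      exact al.auU (k + l + i2 - n + 1) fun t h1 h2 => (ab tt al (-1) t ((k + l + i2 - n + 1) - t) (by omega))

theorem l2_01100 {W : ℤ → G} {n Q i j k l i2 l2 i3 : ℤ} (al : AL W n Q)
    {L : ℤ} (mx : ∀ a b g, 0 < g → g < n → Par W a b g → b - a ≤ L) (hL : L ≤ (n - j - 3) ∧ L ≤ (n + Q - k - 3) ∧ L ≤ (n - l - 3) ∧ L ≤ (n + i - k - 2) ∧ L ≤ (n - l2 - 3) ∧ L ≤ (i3 - 2) ∧ L ≤ (i + l + l2 - Q) ∧ L ≤ (n + i3 - i - l - l2 - 4))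
    (hy : (0) ≤ (i) ∧ (i) ≤ (j) ∧ (j + 1) ≤ (Q) ∧ (Q) ≤ (k) ∧ (k + 1) ≤ (n) ∧ (Q) ≤ (i + l + 1) ∧ (k + l + 2) ≤ (n) ∧ (Q) ≤ (i2) ∧ (i2) ≤ (k + l + 1) ∧ (Q) ≤ (i2 + l2 + 1) ∧ (i2 + l2 + 2) ≤ (n) ∧ (n) ≤ (i + l + l2 + 2) ∧ (i + l + l2 + 3) ≤ (n + Q) ∧ (Q) ≤ (i3) ∧ (i3) ≤ (i2 + l2 + 1) ∧ (j + 3) ≤ (n) ∧ (k + 3) ≤ (n + Q) ∧ (l + 3) ≤ (n) ∧ (k + 2) ≤ (n + i) ∧ (l2 + 3) ≤ (n) ∧ (2) ≤ (i3) ∧ (Q) ≤ (i + l + l2) ∧ (i + l + l2 + 4) ≤ (n + i3))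
    (a1 : Par W (0) (j) (k - j))
    (a2 : Par W (Q + j - k) (j) (k - j))
    (s1 : Ant W (0) (i) (i + j))
    (s2 : Ant W (j + 1) (Q) (i + j))
    (b : Par W (i + 1) (i + l + 1) (k - i))
    (tt : Ant W (k + l + 2) (n) (k + l + i2 + 1))
    (c : Par W (i2 + 1) (i2 + l2 + 1) (i + l - i2 + 1))
    (u1 : Ant W (Q) (i3) (i2 + l2 + i3 + 1))
    (u2 : Ant W (i2 + l2 + 2) (n) (i2 + l2 + i3 + 1))
    (d1 : Par W (i3 + 1) (n) (i + l + l2 - n - i3 + 2))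
    (d2 : Par W (i + l + l2 - n + 3) (Q) (n + i3 - i - l - l2 - 2))
    (n1 : Nd W (j) (i) (k))
    (n2 : Nd W (k + l + 1) (i2) (i + l + 1))
    (n3 : Nd W (i2 + l2 + 1) (i3) (i + l + l2 - n + 2)) : False := by
  have ev := al.ev
  obtain ⟨y0, y1, y2, y3, y4, y5, y6, y7, y8, y9, y10, y11, y12, y13, y14, y15, y16, y17, y18, y19, y20, y21, y22⟩ := id hy
  have n1p := And.intro n1.p1 n1.p2
  have n2p := And.intro n2.p1 n2.p2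
  have n3p := And.intro n3.p1 n3.p2
  have k1 : (i + 1) ≤ (k) := by clear * - y1 y2 y3; omega
  have k2 : (i2) ≤ (i + l) := by clear * - y10 y11; omega
  have k3 : (i) ≤ (i2 + 1) := by clear * - y1 y2 y7; omega
  have k4 : (k) ≤ (i + l2) := by clear * - y11 y6; omega
  have k5 : (k - i) % 2 = 0 := by clear * - ev n1p n2p n3p; omega
  have k6 : (i + l - i2 + 1) % 2 = 0 := by clear * - ev n1p n2p n3p; omega
  clear * - al a1 a2 s1 s2 b tt c u1 u2 d1 d2 n1 n2 n3 k1 k2 k3 k4 k5 k6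
  exact n2.f0 (rEE (sh al 1 (k + l + 1) (n + k + l + 1) (by omega)) (sh al 1 (i + l + 1) (n + i + l + 1) (by omega)) (Eq.symm (rotR (k - i) (i + l - i2 + 1) (n + i + l + 1) (n + k + l + 1) (by omega) (fun t h1 h2 => (cE (qf b al 1 t (t + (k - n - i)) (by omega)) (sh al 1 (t + (k - n - i)) (t + (k - i)) (by omega)))) (fun t h1 h2 => (cE (qf c al 1 t (t + (i + l - n - i2 + 1)) (by omega)) (sh al 1 (t + (i + l - n - i2 + 1)) (t + (i + l - i2 + 1)) (by omega)))))))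

theorem l2_01101 {W : ℤ → G} {n Q i j k l i2 l2 i3 : ℤ} (al : AL W n Q)
    {L : ℤ} (mx : ∀ a b g, 0 < g → g < n → Par W a b g → b - a ≤ L) (hL : L ≤ (n - j - 3) ∧ L ≤ (n + Q - k - 3) ∧ L ≤ (n - l - 3) ∧ L ≤ (n + i - k - 2) ∧ L ≤ (n - l2 - 3) ∧ L ≤ (n + i3 - Q - 2) ∧ L ≤ (i2 + l2 - 1) ∧ L ≤ (n + i2 - i - l - 3))
    (hy : (0) ≤ (i) ∧ (i) ≤ (j) ∧ (j + 1) ≤ (Q) ∧ (Q) ≤ (k) ∧ (k + 1) ≤ (n) ∧ (Q) ≤ (i + l + 1) ∧ (k + l + 2) ≤ (n) ∧ (Q) ≤ (i2) ∧ (i2) ≤ (k + l + 1) ∧ (Q) ≤ (i2 + l2 + 1) ∧ (i2 + l2 + 2) ≤ (n) ∧ (n) ≤ (i + l + l2 + 2) ∧ (i + l + l2 + 3) ≤ (n + Q) ∧ (0) ≤ (i3) ∧ (n + i3) ≤ (i + l + l2 + 2) ∧ (j + 3) ≤ (n) ∧ (k + 3) ≤ (n + Q) ∧ (l + 3) ≤ (n) ∧ (k + 2) ≤ (n + i) ∧ (l2 + 3) ≤ (n) ∧ (Q + 2) ≤ (n + i3) ∧ (1) ≤ (i2 + l2) ∧ (i + l + 3) ≤ (n + i2))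
    (a1 : Par W (0) (j) (k - j))
    (a2 : Par W (Q + j - k) (j) (k - j))
    (s1 : Ant W (0) (i) (i + j))
    (s2 : Ant W (j + 1) (Q) (i + j))
    (b : Par W (i + 1) (i + l + 1) (k - i))
    (tt : Ant W (k + l + 2) (n) (k + l + i2 + 1))
    (c : Par W (i2 + 1) (i2 + l2 + 1) (i + l - i2 + 1))
    (u1 : Ant W (0) (i3) (i + l + l2 + i3 - n + 2))
    (u2 : Ant W (i + l + l2 - n + 3) (Q) (i + l + l2 + i3 - n + 2))
    (d1 : Par W (i3 + 1) (Q) (i2 + l2 - i3 + 1))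
    (d2 : Par W (i2 + l2 + 2) (n) (i3 - i2 - l2 - 1))
    (n1 : Nd W (j) (i) (k))
    (n2 : Nd W (k + l + 1) (i2) (i + l + 1))
    (n3 : Nd W (i + l + l2 - n + 2) (i3) (i2 + l2 + 1)) : False := by
  have ev := al.ev
  obtain ⟨y0, y1, y2, y3, y4, y5, y6, y7, y8, y9, y10, y11, y12, y13, y14, y15, y16, y17, y18, y19, y20, y21, y22⟩ := id hy
  have n1p := And.intro n1.p1 n1.p2
  have n2p := And.intro n2.p1 n2.p2
  have n3p := And.intro n3.p1 n3.p2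
  have k1 : (i2) ≤ (i + l) := by clear * - y10 y13 y14; omega
  have k2 : (i + 1) ≤ (k) := by clear * - y1 y2 y3; omega
  have k3 : (k) ≤ (i + l2 + 2) := by clear * - y13 y14 y6; omega
  have k4 : (i + 1) ≤ (i2) := by clear * - y1 y2 y7; omega
  have k5 : (i + l - i2 + 1) % 2 = 0 := by clear * - ev n1p n2p n3p; omega
  have k6 : (k - i) % 2 = 0 := by clear * - ev n1p n2p n3p; omega
  clear * - al a1 a2 s1 s2 b tt c u1 u2 d1 d2 n1 n2 n3 k1 k2 k3 k4 k5 k6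
  exact n2.f1 (rEE (sh al 1 (i2) (n + i2) (by omega)) (sh al 1 (i + l + 1) (n + i + l + 1) (by omega)) (rotL (i + l - i2 + 1) (k - i) (n + i2) (n + i + l + 1) (by omega) (fun t h1 h2 => (cE (qf c al 1 t (t + (i + l - n - i2 + 1)) (by omega)) (sh al 1 (t + (i + l - n - i2 + 1)) (t + (i + l - i2 + 1)) (by omega)))) (fun t h1 h2 => (cE (qf b al 1 t (t + (k - n - i)) (by omega)) (sh al 1 (t + (k - n - i)) (t + (k - i)) (by omega))))))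

theorem l2_10000 {W : ℤ → G} {n Q i j k l i2 l2 i3 : ℤ} (al : AL W n Q)
    {L : ℤ} (mx : ∀ a b g, 0 < g → g < n → Par W a b g → b - a ≤ L) (hL : L ≤ (n - j - 3) ∧ L ≤ (n + Q - k - 3) ∧ L ≤ (n - l - 3) ∧ L ≤ (k - j - 2) ∧ L ≤ (n - l2 - 3) ∧ L ≤ (n + i3 - Q - 2) ∧ L ≤ (k + l + l2 - n) ∧ L ≤ (2 * n + i3 - k - l - l2 - 4))
    (hy : (0) ≤ (i) ∧ (i) ≤ (j) ∧ (j + 1) ≤ (Q) ∧ (Q) ≤ (k) ∧ (k + 1) ≤ (n) ∧ (i + l + 2) ≤ (Q) ∧ (n) ≤ (k + l + 1) ∧ (0) ≤ (i2) ∧ (i2) ≤ (i + l + 1) ∧ (0) ≤ (i2 + l2 + 1) ∧ (i2 + l2 + 2) ≤ (Q) ∧ (n + Q) ≤ (k + l + l2 + 2) ∧ (k + l + l2 + 3) ≤ (2 * n) ∧ (0) ≤ (i3) ∧ (i3) ≤ (i2 + l2 + 1) ∧ (j + 3) ≤ (n) ∧ (k + 3) ≤ (n + Q) ∧ (l + 3) ≤ (n) ∧ (j + 2) ≤ (k) ∧ (l2 + 3) ≤ (n) ∧ (Q + 2) ≤ (n + i3) ∧ (n) ≤ (k + l + l2) ∧ (k + l + l2 + 4) ≤ (2 * n + i3))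
    (a1 : Par W (0) (j) (k - j))
    (a2 : Par W (Q + j - k) (j) (k - j))
    (s1 : Ant W (0) (i) (i + j))
    (s2 : Ant W (j + 1) (Q) (i + j))
    (b : Par W (i + 1) (i + l + 1) (k - i))
    (tt : Ant W (0) (i2) (i + l + i2 + 1))
    (c : Par W (i2 + 1) (i2 + l2 + 1) (k + l - n - i2 + 1))
    (u1 : Ant W (0) (i3) (i2 + l2 + i3 + 1))
    (u2 : Ant W (i2 + l2 + 2) (Q) (i2 + l2 + i3 + 1))
    (d1 : Par W (i3 + 1) (Q) (k + l + l2 - n - i3 + 2))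
    (d2 : Par W (k + l + l2 - n + 3) (n) (n + i3 - k - l - l2 - 2))
    (n1 : Nd W (j) (i) (k))
    (n2 : Nd W (i + l + 1) (i2) (k + l - n + 1))
    (n3 : Nd W (i2 + l2 + 1) (i3) (k + l + l2 - n + 2)) : False := by
  have ev := al.ev
  obtain ⟨y0, y1, y2, y3, y4, y5, y6, y7, y8, y9, y10, y11, y12, y13, y14, y15, y16, y17, y18, y19, y20, y21, y22⟩ := id hy
  have n1p := And.intro n1.p1 n1.p2
  have n2p := And.intro n2.p1 n2.p2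
  have n3p := And.intro n3.p1 n3.p2
  have k1 : (k + 1) ≤ (n + i) := by clear * - y0 y4; omega
  have k2 : (n + i2) ≤ (k + l) := by clear * - y10 y11; omega
  have k3 : (k) ≤ (n + i2 + 1) := by clear * - y4 y7; omega
  have k4 : (n + i) ≤ (k + l2) := by clear * - y11 y5; omega
  have k5 : (n + i - k) % 2 = 0 := by clear * - ev n1p n2p n3p; omega
  have k6 : (k + l - n - i2 + 1) % 2 = 0 := by clear * - ev n1p n2p n3p; omega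
  clear * - al a1 a2 s1 s2 b tt c u1 u2 d1 d2 n1 n2 n3 k1 k2 k3 k4 k5 k6
  exact n2.f0 (rEE (sh al 0 (i + l + 1) (i + l + 1) (by omega)) (sh al 0 (k + l - n + 1) (k + l - n + 1) (by omega)) (Eq.symm (rotR (n + i - k) (k + l - n - i2 + 1) (k + l - n + 1) (i + l + 1) (by omega) (fun t h1 h2 => (pb b al (-1) t (t + (n + i - k)) (by omega))) (fun t h1 h2 => (qf c al 0 t (t + (k + l - n - i2 + 1)) (by omega))))))

theorem l2_10001 {W : ℤ → G} {n Q i j k l i2 l2 i3 : ℤ} (al : AL W n Q)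
    {L : ℤ} (mx : ∀ a b g, 0 < g → g < n → Par W a b g → b - a ≤ L) (hL : L ≤ (n - j - 3) ∧ L ≤ (n + Q - k - 3) ∧ L ≤ (n - l - 3) ∧ L ≤ (k - j - 2) ∧ L ≤ (n - l2 - 3) ∧ L ≤ (i3 - 2) ∧ L ≤ (n + i2 + l2 - Q - 1) ∧ L ≤ (2 * n + i2 - k - l - 3))
    (hy : (0) ≤ (i) ∧ (i) ≤ (j) ∧ (j + 1) ≤ (Q) ∧ (Q) ≤ (k) ∧ (k + 1) ≤ (n) ∧ (i + l + 2) ≤ (Q) ∧ (n) ≤ (k + l + 1) ∧ (0) ≤ (i2) ∧ (i2) ≤ (i + l + 1) ∧ (0) ≤ (i2 + l2 + 1) ∧ (i2 + l2 + 2) ≤ (Q) ∧ (n + Q) ≤ (k + l + l2 + 2) ∧ (k + l + l2 + 3) ≤ (2 * n) ∧ (Q) ≤ (i3) ∧ (n + i3) ≤ (k + l + l2 + 2) ∧ (j + 3) ≤ (n) ∧ (k + 3) ≤ (n + Q) ∧ (l + 3) ≤ (n) ∧ (j + 2) ≤ (k) ∧ (l2 + 3) ≤ (n) ∧ (2) ≤ (i3) ∧ (Q + 1) ≤ (n + i2 + l2) ∧ (k + l + 3) ≤ (2 * n + i2))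
    (a1 : Par W (0) (j) (k - j))
    (a2 : Par W (Q + j - k) (j) (k - j))
    (s1 : Ant W (0) (i) (i + j))
    (s2 : Ant W (j + 1) (Q) (i + j))
    (b : Par W (i + 1) (i + l + 1) (k - i))
    (tt : Ant W (0) (i2) (i + l + i2 + 1))
    (c : Par W (i2 + 1) (i2 + l2 + 1) (k + l - n - i2 + 1))
    (u1 : Ant W (Q) (i3) (k + l + l2 + i3 - n + 2))
    (u2 : Ant W (k + l + l2 - n + 3) (n) (k + l + l2 + i3 - n + 2))
    (d1 : Par W (i3 + 1) (n) (i2 + l2 - i3 + 1))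
    (d2 : Par W (i2 + l2 + 2) (Q) (i3 - i2 - l2 - 1))
    (n1 : Nd W (j) (i) (k))
    (n2 : Nd W (i + l + 1) (i2) (k + l - n + 1))
    (n3 : Nd W (k + l + l2 - n + 2) (i3) (i2 + l2 + 1)) : False := by
  have ev := al.ev
  obtain ⟨y0, y1, y2, y3, y4, y5, y6, y7, y8, y9, y10, y11, y12, y13, y14, y15, y16, y17, y18, y19, y20, y21, y22⟩ := id hy
  have n1p := And.intro n1.p1 n1.p2
  have n2p := And.intro n2.p1 n2.p2
  have n3p := And.intro n3.p1 n3.p2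
  have k1 : (n + i2) ≤ (k + l) := by clear * - y10 y13 y14; omega
  have k2 : (k + 1) ≤ (n + i) := by clear * - y0 y4; omega
  have k3 : (n + i) ≤ (k + l2 + 2) := by clear * - y13 y14 y5; omega
  have k4 : (k + 1) ≤ (n + i2) := by clear * - y4 y7; omega
  have k5 : (k + l - n - i2 + 1) % 2 = 0 := by clear * - ev n1p n2p n3p; omega
  have k6 : (n + i - k) % 2 = 0 := by clear * - ev n1p n2p n3p; omega
  clear * - al a1 a2 s1 s2 b tt c u1 u2 d1 d2 n1 n2 n3 k1 k2 k3 k4 k5 k6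
  exact n2.f1 (rEE (sh al 1 (i2) (n + i2) (by omega)) (sh al 1 (k + l - n + 1) (k + l + 1) (by omega)) (rotL (k + l - n - i2 + 1) (n + i - k) (n + i2) (k + l + 1) (by omega) (fun t h1 h2 => (cE (qf c al 1 t (t + (k + l - 2 * n - i2 + 1)) (by omega)) (sh al 1 (t + (k + l - 2 * n - i2 + 1)) (t + (k + l - n - i2 + 1)) (by omega)))) (fun t h1 h2 => (cE (pb b al 0 t (t + (i - k)) (by omega)) (sh al 1 (t + (i - k)) (t + (n + i - k)) (by omega))))))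

theorem l2_10010 {W : ℤ → G} {n Q i j k l i2 l2 i3 : ℤ} (al : AL W n Q)
    {L : ℤ} (mx : ∀ a b g, 0 < g → g < n → Par W a b g → b - a ≤ L) (hL : L ≤ (n - j - 3) ∧ L ≤ (n + Q - k - 3) ∧ L ≤ (n - l - 3) ∧ L ≤ (k - j - 2) ∧ L ≤ (n - l2 - 3) ∧ L ≤ (n + i3 - Q - 2) ∧ L ≤ (i2 + l2 - 1) ∧ L ≤ (n + i3 - i2 - l2 - 3))
    (hy : (0) ≤ (i) ∧ (i) ≤ (j) ∧ (j + 1) ≤ (Q) ∧ (Q) ≤ (k) ∧ (k + 1) ≤ (n) ∧ (i + l + 2) ≤ (Q) ∧ (n) ≤ (k + l + 1) ∧ (0) ≤ (i2) ∧ (i2) ≤ (i + l + 1) ∧ (n) ≤ (k + l + l2 + 2) ∧ (k + l + l2 + 3) ≤ (n + Q) ∧ (Q) ≤ (i2 + l2 + 1) ∧ (i2 + l2 + 2) ≤ (n) ∧ (0) ≤ (i3) ∧ (n + i3) ≤ (k + l + l2 + 2) ∧ (j + 3) ≤ (n) ∧ (k + 3) ≤ (n + Q) ∧ (l + 3) ≤ (n) ∧ (j + 2) ≤ (k) ∧ (l2 + 3) ≤ (n) ∧ (Q + 2) ≤ (n + i3) ∧ (1) ≤ (i2 + l2) ∧ (i2 + l2 + 3) ≤ (n + i3))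
    (a1 : Par W (0) (j) (k - j))
    (a2 : Par W (Q + j - k) (j) (k - j))
    (s1 : Ant W (0) (i) (i + j))
    (s2 : Ant W (j + 1) (Q) (i + j))
    (b : Par W (i + 1) (i + l + 1) (k - i))
    (tt : Ant W (0) (i2) (i + l + i2 + 1))
    (c : Par W (i2 + 1) (i2 + l2 + 1) (k + l - n - i2 + 1))
    (u1 : Ant W (0) (i3) (k + l + l2 + i3 - n + 2))
    (u2 : Ant W (k + l + l2 - n + 3) (Q) (k + l + l2 + i3 - n + 2))
    (d1 : Par W (i3 + 1) (Q) (i2 + l2 - i3 + 1))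
    (d2 : Par W (i2 + l2 + 2) (n) (i3 - i2 - l2 - 1))
    (n1 : Nd W (j) (i) (k))
    (n2 : Nd W (i + l + 1) (i2) (k + l - n + 1))
    (n3 : Nd W (k + l + l2 - n + 2) (i3) (i2 + l2 + 1)) : False := by
  have ev := al.ev
  obtain ⟨y0, y1, y2, y3, y4, y5, y6, y7, y8, y9, y10, y11, y12, y13, y14, y15, y16, y17, y18, y19, y20, y21, y22⟩ := id hy
  have n1p := And.intro n1.p1 n1.p2
  have n2p := And.intro n2.p1 n2.p2
  have n3p := And.intro n3.p1 n3.p2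
  by_cases z1 : (k + i3) ≤ (Q + j)
  · have k1 : (i3) ≤ (i2 + l2) := by clear * - y11 y18 z1; omega
    have k2 : (i2 + l2 + 2) ≤ (n + i3) := by clear * - y22; omega
    have k3 : L ≤ (k - j - 2) := by clear * - hL; omega
    clear * - al a1 a2 s1 s2 b tt c u1 u2 d1 d2 n1 n2 n3 mx k1 k2 z1 k3
    exact absurd (mx (i3 - n + 1) (Q - n) (i2 + l2 - i3 + 1) (by omega) (by omega) fun t h1 h2 => (cE (qf d1 al (-1) t (t + (n + i2 + l2 - i3 + 1)) (by omega)) (sh al (-1) (t + (n + i2 + l2 - i3 + 1)) (t + (i2 + l2 - i3 + 1)) (by omega)))) (by omega)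
  · by_cases z2 : (2 * n) ≤ (k + l + l2 + i3 + 3)
    · clear * - al a1 a2 s1 s2 b tt c u1 u2 d1 d2 n1 n2 n3 y10 z2
      exact al.auV (k + l + l2 + i3 - n + 2) fun t h1 h2 => (ab u1 al 0 t ((k + l + l2 + i3 - n + 2) - t) (by omega))
    · by_cases z3 : (n + 2 * Q) ≤ (2 * k + 2)
      · have k4 : (j + 1) ≤ (k) := by clear * - y18; omega
        have k5 : (k + 1) ≤ (n + j) := by clear * - y1 y10 y11 y8; omega
        have k6 : L ≤ (n + Q - k - 3) := by clear * - hL; omega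
        clear * - al a1 a2 s1 s2 b tt c u1 u2 d1 d2 n1 n2 n3 mx k4 k5 z3 k6
        exact absurd (mx (n + Q + j - k) (n + j) (k - j) (by omega) (by omega) fun t h1 h2 => (cE (qf a2 al 1 t (t + (k - n - j)) (by omega)) (sh al 1 (t + (k - n - j)) (t + (k - j)) (by omega)))) (by omega)
      · by_cases z4 : (n + 2 * i + l + 1) ≤ (k + i2 + 2 * l2)
        · have k7 : (n) ≤ (k + l + i2 + 1) := by clear * - y10 y11 y6; omega
          have k8 : (k + l + 3) ≤ (n + i2) := by clear * - y10 y11 ev n1p n2p n3p; omega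
          have k9 : (k) ≤ (n + 2 * i + l + i2 + 1) := by clear * - y10 y11 y7 y8; omega
          have k10 : (3 * k + l + 3) ≤ (3 * n + 2 * i + i2) := by clear * - y10 y11 y8; omega
          have k11 : (n) ≤ (k + l + i2 + 2 * l2 + 3) := by clear * - y13 y14 y21; omega
          have k12 : (n + 2 * i + l) ≤ (k + i2 + 4 * l2 + 1) := by clear * - y10 y11 y8 z4; omega
          have k13 : (i + l + i2 + 1) % 2 = 0 := by clear * - ev n1p n2p n3p; omega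
          have k14 : (n + i2 - k - l - 1) % 2 = 0 := by clear * - ev n1p n2p n3p; omega
          clear * - al a1 a2 s1 s2 b tt c u1 u2 d1 d2 n1 n2 n3 k7 k8 z4 k9 k10 k11 k12 k13 k14
          exact midP al (n + i2 - k - l - 1) (i + l + i2 + 1) (max (k + l - n + 2) (max (i + l - l2 + 1) (i + l + 2))) (k + l - n + 2) (i2 + l2 + 1) (by omega) (fun t h1 h2 => (ab tt al 0 t ((i + l + i2 + 1) - t) (by omega))) (fun t h1 h2 => (pb c al 0 t (t + (n + i2 - k - l - 1)) (by omega)))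
        · by_cases z5 : (n + i + j + i3 + 1) ≤ (2 * Q + i2 + l2)
          · by_cases z6 : (i2 + l2 + i3 + 2) ≤ (n + i + j)
            · have k15 : (j + i2 + l2 + 2) ≤ (n + i + i3) := by clear * - y10 y8 z1; omega
              obtain ⟨t, ht⟩ : ∃ t, 2 * t = (i + j + i2 + l2 - n - i3 + 1) := ⟨(i + j + i2 + l2 - n - i3 + 1) / 2, by clear * - ev n1p n2p n3p; omega⟩
              clear * - al a1 a2 s1 s2 b tt c u1 u2 d1 d2 n1 n2 n3 z5 k15 z6 ht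
              exact al.ninv t (cE (cE (ab s2 al 0 t ((i + j) - t) (by omega)) (qf d1 al 0 ((i + j) - t) ((i + j + i2 + l2 - i3 + 1) - t) (by omega))) (sh al (-1) ((i + j + i2 + l2 - i3 + 1) - t) t (by omega)))
            · have k16 : (i + 1) ≤ (k) := by clear * - y11 y12 y5 y6; omega
              have k17 : (k + 1) ≤ (n + i) := by clear * - y10 y11 y8; omega
              have k18 : (n) ≤ (2 * l + 2) := by clear * - y1 y14 z4 z6 ev n1p n2p n3p; omega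
              have k19 : L ≤ (n - l - 3) := by clear * - hL; omega
              clear * - al a1 a2 s1 s2 b tt c u1 u2 d1 d2 n1 n2 n3 mx k16 k17 k18 k19
              exact absurd (mx (n + i + 1) (n + i + l + 1) (k - i) (by omega) (by omega) fun t h1 h2 => (cE (qf b al 1 t (t + (k - n - i)) (by omega)) (sh al 1 (t + (k - n - i)) (t + (k - i)) (by omega)))) (by omega)
          · by_cases z7 : (k) ≤ (2 * j + 1)
            · have k20 : (k + 1) ≤ (n + j) := by clear * - y15 z7; omega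
              have k21 : (j + 1) ≤ (k) := by clear * - y18; omega
              have k22 : L ≤ (k - j - 2) := by clear * - hL; omega
              clear * - al a1 a2 s1 s2 b tt c u1 u2 d1 d2 n1 n2 n3 mx k20 k21 z7 k22
              exact absurd (mx (n + k - j) (n + k) (n + j - k) (by omega) (by omega) fun t h1 h2 => (cE (pb a1 al 1 t (t + (j - n - k)) (by omega)) (sh al 2 (t + (j - n - k)) (t + (n + j - k)) (by omega)))) (by omega)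
            · by_cases z8 : (i + j + l + 2) ≤ (k + i2)
              · by_cases z9 : (k) ≤ (i + j + l + i2 + 1)
                · have k23 : (i + l + i2 + 2) ≤ (j + k) := by clear * - y14 y5 z5; omega
                  obtain ⟨t, ht⟩ : ∃ t, 2 * t = (i + k + l + i2 - j + 1) := ⟨(i + k + l + i2 - j + 1) / 2, by clear * - ev n1p n2p n3p; omega⟩
                  clear * - al a1 a2 s1 s2 b tt c u1 u2 d1 d2 n1 n2 n3 z9 k23 z8 ht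
                  exact al.ninv t (cI (pb a1 al 0 t (t + (j - k)) (by omega)) (qa tt al 0 (t + (j - k)) t (by omega)))
                · have k24 : (i2 + l2 + 2) ≤ (n + i3) := by clear * - y22; omega
                  have k25 : (i3) ≤ (i2 + l2) := by clear * - y10 y11 y14; omega
                  have k26 : (2 * i2 + 2 * l2 + 2) ≤ (n) := by clear * - y1 z4 z9; omega
                  have k27 : L ≤ (i2 + l2 - 1) := by clear * - hL; omega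
                  clear * - al a1 a2 s1 s2 b tt c u1 u2 d1 d2 n1 n2 n3 mx k24 k25 k26 k27
                  exact absurd (mx (i2 + l2 - n + 2) (0) (n + i3 - i2 - l2 - 1) (by omega) (by omega) fun t h1 h2 => (qf d2 al (-1) t (t + (n + i3 - i2 - l2 - 1)) (by omega))) (by omega)
              · have k28 : (i2) ≤ (k + l) := by clear * - y14 y22; omega
                have k29 : (k + l + 2) ≤ (n + i2) := by clear * - y10 y11; omega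
                have k30 : (k) ≤ (j + l2 + 1) := by clear * - y11 y5 z8; omega
                have k31 : L ≤ (k - j - 2) := by clear * - hL; omega
                clear * - al a1 a2 s1 s2 b tt c u1 u2 d1 d2 n1 n2 n3 mx k28 k29 k30 k31
                exact absurd (mx (i2 + 1) (i2 + l2 + 1) (k + l - i2 + 1) (by omega) (by omega) fun t h1 h2 => (cE (qf c al 0 t (t + (k + l - n - i2 + 1)) (by omega)) (sh al 1 (t + (k + l - n - i2 + 1)) (t + (k + l - i2 + 1)) (by omega)))) (by omega)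

theorem l2_10011 {W : ℤ → G} {n Q i j k l i2 l2 i3 : ℤ} (al : AL W n Q)
    {L : ℤ} (mx : ∀ a b g, 0 < g → g < n → Par W a b g → b - a ≤ L) (hL : L ≤ (n - j - 3) ∧ L ≤ (n + Q - k - 3) ∧ L ≤ (n - l - 3) ∧ L ≤ (k - j - 2) ∧ L ≤ (n - l2 - 3) ∧ L ≤ (i3 - 2) ∧ L ≤ (k + l + l2 - Q) ∧ L ≤ (k + l - i2 - 1))
    (hy : (0) ≤ (i) ∧ (i) ≤ (j) ∧ (j + 1) ≤ (Q) ∧ (Q) ≤ (k) ∧ (k + 1) ≤ (n) ∧ (i + l + 2) ≤ (Q) ∧ (n) ≤ (k + l + 1) ∧ (0) ≤ (i2) ∧ (i2) ≤ (i + l + 1) ∧ (n) ≤ (k + l + l2 + 2) ∧ (k + l + l2 + 3) ≤ (n + Q) ∧ (Q) ≤ (i2 + l2 + 1) ∧ (i2 + l2 + 2) ≤ (n) ∧ (Q) ≤ (i3) ∧ (i3) ≤ (i2 + l2 + 1) ∧ (j + 3) ≤ (n) ∧ (k + 3) ≤ (n + Q) ∧ (l + 3) ≤ (n) ∧ (j + 2) ≤ (k) ∧ (l2 + 3) ≤ (n) ∧ (2) ≤ (i3) ∧ (Q) ≤ (k + l + l2) ∧ (i2 + 1) ≤ (k + l))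
    (a1 : Par W (0) (j) (k - j))
    (a2 : Par W (Q + j - k) (j) (k - j))
    (s1 : Ant W (0) (i) (i + j))
    (s2 : Ant W (j + 1) (Q) (i + j))
    (b : Par W (i + 1) (i + l + 1) (k - i))
    (tt : Ant W (0) (i2) (i + l + i2 + 1))
    (c : Par W (i2 + 1) (i2 + l2 + 1) (k + l - n - i2 + 1))
    (u1 : Ant W (Q) (i3) (i2 + l2 + i3 + 1))
    (u2 : Ant W (i2 + l2 + 2) (n) (i2 + l2 + i3 + 1))
    (d1 : Par W (i3 + 1) (n) (k + l + l2 - n - i3 + 2))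
    (d2 : Par W (k + l + l2 - n + 3) (Q) (n + i3 - k - l - l2 - 2))
    (n1 : Nd W (j) (i) (k))
    (n2 : Nd W (i + l + 1) (i2) (k + l - n + 1))
    (n3 : Nd W (i2 + l2 + 1) (i3) (k + l + l2 - n + 2)) : False := by
  have ev := al.ev
  obtain ⟨y0, y1, y2, y3, y4, y5, y6, y7, y8, y9, y10, y11, y12, y13, y14, y15, y16, y17, y18, y19, y20, y21, y22⟩ := id hy
  have n1p := And.intro n1.p1 n1.p2
  have n2p := And.intro n2.p1 n2.p2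
  have n3p := And.intro n3.p1 n3.p2
  by_cases z1 : (k) ≤ (2 * j + 1)
  · have k1 : (j + 1) ≤ (k) := by clear * - y18; omega
    have k2 : (k + 1) ≤ (n + j) := by clear * - y15 z1; omega
    have k3 : L ≤ (k - j - 2) := by clear * - hL; omega
    clear * - al a1 a2 s1 s2 b tt c u1 u2 d1 d2 n1 n2 n3 mx k1 k2 z1 k3
    exact absurd (mx (-n) (j - n) (k - j) (by omega) (by omega) fun t h1 h2 => (cE (qf a1 al (-1) t (t + (n + k - j)) (by omega)) (sh al (-1) (t + (n + k - j)) (t + (k - j)) (by omega)))) (by omega)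
  · by_cases z2 : (n + 2 * i + l + 1) ≤ (k + i2 + 2 * l2)
    · have k4 : (n) ≤ (k + l + i2 + 1) := by clear * - y10 y13 y14 y6; omega
      have k5 : (k) ≤ (n + 2 * i + l + i2 + 1) := by clear * - y10 y13 y14 y7 y8; omega
      have k6 : (n) ≤ (k + l + i2 + 2 * l2 + 3) := by clear * - y14 y20 y9; omega
      have k7 : (k + l + 3) ≤ (n + i2) := by clear * - y10 y13 y14 ev n1p n2p n3p; omega
      have k8 : (3 * k + l + 3) ≤ (3 * n + 2 * i + i2) := by clear * - y10 y13 y14 y8; omega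
      have k9 : (n + 2 * i + l) ≤ (k + i2 + 4 * l2 + 1) := by clear * - y10 y13 y14 y8 z2; omega
      have k10 : (i + l + i2 + 1) % 2 = 0 := by clear * - ev n1p n2p n3p; omega
      have k11 : (n + i2 - k - l - 1) % 2 = 0 := by clear * - ev n1p n2p n3p; omega
      clear * - al a1 a2 s1 s2 b tt c u1 u2 d1 d2 n1 n2 n3 k4 k5 k6 k7 k8 z2 k9 k10 k11
      exact midP al (n + i2 - k - l - 1) (i + l + i2 + 1) (max (k + l - n + 2) (max (i + l - l2 + 1) (0))) (k + l - n + 2) (i2 + l2 + 1) (by omega) (fun t h1 h2 => (qa tt al 0 t ((i + l + i2 + 1) - t) (by omega))) (fun t h1 h2 => (pb c al 0 t (t + (n + i2 - k - l - 1)) (by omega)))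
    · by_cases z3 : (i2 + 2 * i3 + 1) ≤ (n + k + l)
      · have k12 : (k + l + 3) ≤ (n + i2) := by clear * - y10 y13 y14 ev n1p n2p n3p; omega
        have k13 : (k + l + i2 + 2 * l2 + 5) ≤ (n + 2 * i3) := by clear * - y13 y5 z2 ev n1p n2p n3p; omega
        have k14 : (i2 + 2 * i3) ≤ (n + k + l) := by clear * - z3; omega
        obtain ⟨t, ht⟩ : ∃ t, 2 * t = (k + l + i2 + 2 * l2 - n + 3) := ⟨(k + l + i2 + 2 * l2 - n + 3) / 2, by clear * - ev n1p n2p n3p; omega⟩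
        clear * - al a1 a2 s1 s2 b tt c u1 u2 d1 d2 n1 n2 n3 k12 k13 k14 ht
        exact al.ninv t (cI (pb d1 al 0 t (t + (n + i3 - k - l - l2 - 2)) (by omega)) (qa u2 al 0 (t + (n + i3 - k - l - l2 - 2)) t (by omega)))
      · have k15 : (n) ≤ (i + l + i2 + 2) := by clear * - y14 y6 z2 z3; omega
        clear * - al a1 a2 s1 s2 b tt c u1 u2 d1 d2 n1 n2 n3 y5 k15
        exact al.auV (i + l + i2 + 1) fun t h1 h2 => (cI (sh al 1 t (t + (n)) (by omega)) (ab tt al 1 (t + (n)) ((i + l + i2 + 1) - t) (by omega)))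

theorem l2_10100 {W : ℤ → G} {n Q i j k l i2 l2 i3 : ℤ} (al : AL W n Q)
    {L : ℤ} (mx : ∀ a b g, 0 < g → g < n → Par W a b g → b - a ≤ L) (hL : L ≤ (n - j - 3) ∧ L ≤ (n + Q - k - 3) ∧ L ≤ (n - l - 3) ∧ L ≤ (k - j - 2) ∧ L ≤ (n - l2 - 3) ∧ L ≤ (n + i3 - Q - 2) ∧ L ≤ (k + l + l2 - n) ∧ L ≤ (2 * n + i3 - k - l - l2 - 4))
    (hy : (0) ≤ (i) ∧ (i) ≤ (j) ∧ (j + 1) ≤ (Q) ∧ (Q) ≤ (k) ∧ (k + 1) ≤ (n) ∧ (i + l + 2) ≤ (Q) ∧ (n) ≤ (k + l + 1) ∧ (0) ≤ (i2) ∧ (i2) ≤ (i + l + 1) ∧ (0) ≤ (i2 + l2 + 1) ∧ (i2 + l2 + 2) ≤ (Q) ∧ (n + Q) ≤ (k + l + l2 + 2) ∧ (k + l + l2 + 3) ≤ (2 * n) ∧ (0) ≤ (i3) ∧ (i3) ≤ (i2 + l2 + 1) ∧ (j + 3) ≤ (n) ∧ (k + 3) ≤ (n + Q) ∧ (l + 3) ≤ (n) ∧ (j + 2) ≤ (k) ∧ (l2 + 3) ≤ (n) ∧ (Q + 2) ≤ (n + i3) ∧ (n) ≤ (k + l + l2) ∧ (k + l + l2 + 4) ≤ (2 * n + i3))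
    (a1 : Par W (0) (j) (k - j))
    (a2 : Par W (Q + j - k) (j) (k - j))
    (s1 : Ant W (0) (i) (i + j))
    (s2 : Ant W (j + 1) (Q) (i + j))
    (b : Par W (i + 1) (i + l + 1) (k - i))
    (tt : Ant W (i + l + 2) (Q) (i + l + i2 + 1))
    (c : Par W (i2 + 1) (i2 + l2 + 1) (k + l - n - i2 + 1))
    (u1 : Ant W (0) (i3) (i2 + l2 + i3 + 1))
    (u2 : Ant W (i2 + l2 + 2) (Q) (i2 + l2 + i3 + 1))
    (d1 : Par W (i3 + 1) (Q) (k + l + l2 - n - i3 + 2))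
    (d2 : Par W (k + l + l2 - n + 3) (n) (n + i3 - k - l - l2 - 2))
    (n1 : Nd W (j) (i) (k))
    (n2 : Nd W (i + l + 1) (i2) (k + l - n + 1))
    (n3 : Nd W (i2 + l2 + 1) (i3) (k + l + l2 - n + 2)) : False := by
  have ev := al.ev
  obtain ⟨y0, y1, y2, y3, y4, y5, y6, y7, y8, y9, y10, y11, y12, y13, y14, y15, y16, y17, y18, y19, y20, y21, y22⟩ := id hy
  have n1p := And.intro n1.p1 n1.p2
  have n2p := And.intro n2.p1 n2.p2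
  have n3p := And.intro n3.p1 n3.p2
  have k1 : (k + 1) ≤ (n + i) := by clear * - y0 y4; omega
  have k2 : (n + i2) ≤ (k + l) := by clear * - y10 y11; omega
  have k3 : (k) ≤ (n + i2 + 1) := by clear * - y4 y7; omega
  have k4 : (n + i) ≤ (k + l2) := by clear * - y11 y5; omega
  have k5 : (n + i - k) % 2 = 0 := by clear * - ev n1p n2p n3p; omega
  have k6 : (k + l - n - i2 + 1) % 2 = 0 := by clear * - ev n1p n2p n3p; omega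
  clear * - al a1 a2 s1 s2 b tt c u1 u2 d1 d2 n1 n2 n3 k1 k2 k3 k4 k5 k6
  exact n2.f0 (rEE (sh al 1 (i + l + 1) (n + i + l + 1) (by omega)) (sh al 1 (k + l - n + 1) (k + l + 1) (by omega)) (Eq.symm (rotR (n + i - k) (k + l - n - i2 + 1) (k + l + 1) (n + i + l + 1) (by omega) (fun t h1 h2 => (cE (pb b al 0 t (t + (i - k)) (by omega)) (sh al 1 (t + (i - k)) (t + (n + i - k)) (by omega)))) (fun t h1 h2 => (cE (qf c al 1 t (t + (k + l - 2 * n - i2 + 1)) (by omega)) (sh al 1 (t + (k + l - 2 * n - i2 + 1)) (t + (k + l - n - i2 + 1)) (by omega)))))))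

theorem l2_10101 {W : ℤ → G} {n Q i j k l i2 l2 i3 : ℤ} (al : AL W n Q)
    {L : ℤ} (mx : ∀ a b g, 0 < g → g < n → Par W a b g → b - a ≤ L) (hL : L ≤ (n - j - 3) ∧ L ≤ (n + Q - k - 3) ∧ L ≤ (n - l - 3) ∧ L ≤ (k - j - 2) ∧ L ≤ (n - l2 - 3) ∧ L ≤ (i3 - 2) ∧ L ≤ (n + i2 + l2 - Q - 1) ∧ L ≤ (2 * n + i2 - k - l - 3))
    (hy : (0) ≤ (i) ∧ (i) ≤ (j) ∧ (j + 1) ≤ (Q) ∧ (Q) ≤ (k) ∧ (k + 1) ≤ (n) ∧ (i + l + 2) ≤ (Q) ∧ (n) ≤ (k + l + 1) ∧ (0) ≤ (i2) ∧ (i2) ≤ (i + l + 1) ∧ (0) ≤ (i2 + l2 + 1) ∧ (i2 + l2 + 2) ≤ (Q) ∧ (n + Q) ≤ (k + l + l2 + 2) ∧ (k + l + l2 + 3) ≤ (2 * n) ∧ (Q) ≤ (i3) ∧ (n + i3) ≤ (k + l + l2 + 2) ∧ (j + 3) ≤ (n) ∧ (k + 3) ≤ (n + Q) ∧ (l + 3) ≤ (n) ∧ (j + 2) ≤ (k) ∧ (l2 + 3) ≤ (n) ∧ (2) ≤ (i3) ∧ (Q + 1) ≤ (n + i2 + l2) ∧ (k + l + 3) ≤ (2 * n + i2))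
    (a1 : Par W (0) (j) (k - j))
    (a2 : Par W (Q + j - k) (j) (k - j))
    (s1 : Ant W (0) (i) (i + j))
    (s2 : Ant W (j + 1) (Q) (i + j))
    (b : Par W (i + 1) (i + l + 1) (k - i))
    (tt : Ant W (i + l + 2) (Q) (i + l + i2 + 1))
    (c : Par W (i2 + 1) (i2 + l2 + 1) (k + l - n - i2 + 1))
    (u1 : Ant W (Q) (i3) (k + l + l2 + i3 - n + 2))
    (u2 : Ant W (k + l + l2 - n + 3) (n) (k + l + l2 + i3 - n + 2))
    (d1 : Par W (i3 + 1) (n) (i2 + l2 - i3 + 1))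
    (d2 : Par W (i2 + l2 + 2) (Q) (i3 - i2 - l2 - 1))
    (n1 : Nd W (j) (i) (k))
    (n2 : Nd W (i + l + 1) (i2) (k + l - n + 1))
    (n3 : Nd W (k + l + l2 - n + 2) (i3) (i2 + l2 + 1)) : False := by
  have ev := al.ev
  obtain ⟨y0, y1, y2, y3, y4, y5, y6, y7, y8, y9, y10, y11, y12, y13, y14, y15, y16, y17, y18, y19, y20, y21, y22⟩ := id hy
  have n1p := And.intro n1.p1 n1.p2
  have n2p := And.intro n2.p1 n2.p2
  have n3p := And.intro n3.p1 n3.p2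
  have k1 : (k + 1) ≤ (n + i) := by clear * - y0 y4; omega
  have k2 : (n + i2) ≤ (k + l) := by clear * - y10 y13 y14; omega
  have k3 : (k) ≤ (n + i2 + 1) := by clear * - y4 y7; omega
  have k4 : (n + i) ≤ (k + l2) := by clear * - y13 y14 y5; omega
  have k5 : (n + i - k) % 2 = 0 := by clear * - ev n1p n2p n3p; omega
  have k6 : (k + l - n - i2 + 1) % 2 = 0 := by clear * - ev n1p n2p n3p; omega
  clear * - al a1 a2 s1 s2 b tt c u1 u2 d1 d2 n1 n2 n3 k1 k2 k3 k4 k5 k6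
  exact n2.f0 (rEE (sh al 0 (i + l + 1) (i + l + 1) (by omega)) (sh al 0 (k + l - n + 1) (k + l - n + 1) (by omega)) (Eq.symm (rotR (n + i - k) (k + l - n - i2 + 1) (k + l - n + 1) (i + l + 1) (by omega) (fun t h1 h2 => (pb b al (-1) t (t + (n + i - k)) (by omega))) (fun t h1 h2 => (qf c al 0 t (t + (k + l - n - i2 + 1)) (by omega))))))

end Pool.Agent.MP_a38735_al.WL
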