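import Pool.Agent.MP_a38735_al.WQ

set_option autoImplicit false
set_option linter.unusedVariables false

namespace Pool.Agent.MP_a38735_al.WL

variable {G : Type*} [Group G]

theorem l2_10111 {W : ℤ → G} {n Q i j k l i2 l2 i3 : ℤ} (al : AL W n Q)
    {L : ℤ} (mx : ∀ a b g, 0 < g → g < n → Par W a b g → b - a ≤ L) (hL : L ≤ (n - j - 3) ∧ L ≤ (n + Q - k - 3) ∧ L ≤ (n - l - 3) ∧ L ≤ (k - j - 2) ∧ L ≤ (n - l2 - 3) ∧ L ≤ (i3 - 2) ∧ L ≤ (k + l + l2 - Q) ∧ L ≤ (k + l - i2 - 1))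
    (hy : (0) ≤ (i) ∧ (i) ≤ (j) ∧ (j + 1) ≤ (Q) ∧ (Q) ≤ (k) ∧ (k + 1) ≤ (n) ∧ (i + l + 2) ≤ (Q) ∧ (n) ≤ (k + l + 1) ∧ (0) ≤ (i2) ∧ (i2) ≤ (i + l + 1) ∧ (n) ≤ (k + l + l2 + 2) ∧ (k + l + l2 + 3) ≤ (n + Q) ∧ (Q) ≤ (i2 + l2 + 1) ∧ (i2 + l2 + 2) ≤ (n) ∧ (Q) ≤ (i3) ∧ (i3) ≤ (i2 + l2 + 1) ∧ (j + 3) ≤ (n) ∧ (k + 3) ≤ (n + Q) ∧ (l + 3) ≤ (n) ∧ (j + 2) ≤ (k) ∧ (l2 + 3) ≤ (n) ∧ (2) ≤ (i3) ∧ (Q) ≤ (k + l + l2) ∧ (i2 + 1) ≤ (k + l))
    (a1 : Par W (0) (j) (k - j))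
    (a2 : Par W (Q + j - k) (j) (k - j))
    (s1 : Ant W (0) (i) (i + j))
    (s2 : Ant W (j + 1) (Q) (i + j))
    (b : Par W (i + 1) (i + l + 1) (k - i))
    (tt : Ant W (i + l + 2) (Q) (i + l + i2 + 1))
    (c : Par W (i2 + 1) (i2 + l2 + 1) (k + l - n - i2 + 1))
    (u1 : Ant W (Q) (i3) (i2 + l2 + i3 + 1))
    (u2 : Ant W (i2 + l2 + 2) (n) (i2 + l2 + i3 + 1))
    (d1 : Par W (i3 + 1) (n) (k + l + l2 - n - i3 + 2))
    (d2 : Par W (k + l + l2 - n + 3) (Q) (n + i3 - k - l - l2 - 2))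
    (n1 : Nd W (j) (i) (k))
    (n2 : Nd W (i + l + 1) (i2) (k + l - n + 1))
    (n3 : Nd W (i2 + l2 + 1) (i3) (k + l + l2 - n + 2)) : False := by
  have ev := al.ev
  obtain ⟨y0, y1, y2, y3, y4, y5, y6, y7, y8, y9, y10, y11, y12, y13, y14, y15, y16, y17, y18, y19, y20, y21, y22⟩ := id hy
  have n1p := And.intro n1.p1 n1.p2
  have n2p := And.intro n2.p1 n2.p2
  have n3p := And.intro n3.p1 n3.p2
  by_cases z1 : (k) ≤ (2 * j + 1)
  · have k1 : (j + 1) ≤ (k) := by clear * - y18; omega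
    have k2 : (k + 1) ≤ (n + j) := by clear * - y15 z1; omega
    have k3 : L ≤ (k - j - 2) := by clear * - hL; omega
    clear * - al a1 a2 s1 s2 b tt c u1 u2 d1 d2 n1 n2 n3 mx k1 k2 z1 k3
    exact absurd (mx (0) (j) (k - j) (by omega) (by omega) fun t h1 h2 => (qf a1 al 0 t (t + (k - j)) (by omega))) (by omega)
  · by_cases z2 : (2 * i2 + l2 + i3 + 2) ≤ (n + k + l)
    · have k4 : (2 * i2 + l2 + 3 * i3 + 2) ≤ (3 * n + k + l) := by clear * - y12 y14 z2; omega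
      have k5 : (k + l + l2 + 4) ≤ (n + i3) := by clear * - y10 y13 ev n1p n2p n3p; omega
      have k6 : (3 * k + 3 * l + l2 + 6) ≤ (3 * n + 2 * i2 + i3) := by clear * - y10 y13 y14; omega
      have k7 : (i2 + l2 + i3 - 2 * n + 1) % 2 = 0 := by clear * - ev n1p n2p n3p; omega
      have k8 : (n + i3 - k - l - l2 - 2) % 2 = 0 := by clear * - ev n1p n2p n3p; omega
      clear * - al a1 a2 s1 s2 b tt c u1 u2 d1 d2 n1 n2 n3 z2 k4 k5 k6 k7 k8
      exact midP al (n + i3 - k - l - l2 - 2) (i2 + l2 + i3 - 2 * n + 1) (max (k + l + l2 - 2 * n + 3) (i2 + l2 + i3 - 2 * n + 2)) (k + l + l2 - 2 * n + 3) (0) (by omega) (fun t h1 h2 => (cE (ab u2 al (-1) t ((i2 + l2 + i3 - n + 1) - t) (by omega)) (sh al (-1) ((i2 + l2 + i3 - n + 1) - t) ((i2 + l2 + i3 - 2 * n + 1) - t) (by omega)))) (fun t h1 h2 => (cE (pb d1 al (-1) t (t + (2 * n + i3 - k - l - l2 - 2)) (by omega)) (sh al (-1) (t + (2 * n + i3 -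 k - l - l2 - 2)) (t + (n + i3 - k - l - l2 - 2)) (by omega))))
    · by_cases z3 : (n + i + j + 2) ≤ (2 * Q)
      · have k9 : (j + 2) ≤ (n + i) := by clear * - y12 y14 y18 y8 z2; omega
        have k10 : (n + i + j + 1) ≤ (2 * Q) := by clear * - z3; omega
        obtain ⟨t, ht⟩ : ∃ t, 2 * t = (3 * n + i + j) := ⟨(3 * n + i + j) / 2, by clear * - ev n1p n2p n3p; omega⟩
        clear * - al a1 a2 s1 s2 b tt c u1 u2 d1 d2 n1 n2 n3 k9 k10 ht
        exact al.ninv t (cE (qa s2 al 1 t ((n + i + j) - t) (by omega)) (sh al 2 ((n + i + j) - t) t (by omega)))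
      · by_cases z4 : (k) ≤ (i + 2 * j)
        · have k11 : (i + 2) ≤ (k) := by clear * - y12 y13 y14 y5 y6; omega
          have k12 : (2 * j + 1) ≤ (i + k) := by clear * - z1 z4; omega
          obtain ⟨t, ht⟩ : ∃ t, 2 * t = (2 * n + i + 2 * j - k) := ⟨(2 * n + i + 2 * j - k) / 2, by clear * - ev n1p n2p n3p; omega⟩
          clear * - al a1 a2 s1 s2 b tt c u1 u2 d1 d2 n1 n2 n3 z4 k11 k12 ht
          exact al.ninv t (cE (cE (qa s1 al 1 t ((n + i + j) - t) (by omega)) (pb a1 al 0 ((n + i + j) - t) ((n + i + 2 * j - k) - t) (by omega))) (sh al 1 ((n + i + 2 * j - k) - t) t (by omega)))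
        · by_cases z5 : (2 * n + i + j) ≤ (k + l + i2 + 2 * l2 + 2)
          · have k13 : (i + j + k + l + 3) ≤ (2 * Q + i2) := by clear * - y10 z5; omega
            have k14 : (2 * n + i + j) ≤ (k + l + i2 + 2 * l2 + 1) := by clear * - z5 ev n1p n2p n3p; omega
            have k15 : (j + i2) ≤ (i + k + l) := by clear * - y18 y8; omega
            have k16 : (k + l + i2 + 2) ≤ (2 * n + i + j) := by clear * - y12 y14 y5 y8 z2 z3; omega
            obtain ⟨t, ht⟩ : ∃ t, 2 * t = (2 * n + i + j + i2 - k - l - 1) := ⟨(2 * n + i + j + i2 - k - l - 1) / 2, by clear * - ev n1p n2p n3p; omega⟩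
            clear * - al a1 a2 s1 s2 b tt c u1 u2 d1 d2 n1 n2 n3 k13 k14 k15 k16 ht
            exact al.ninv t (cE (ab s2 al 1 t ((n + i + j) - t) (by omega)) (pb c al 0 ((n + i + j) - t) t (by omega)))
          · by_cases z6 : (n) ≤ (2 * l2 + 2)
            · have k17 : (i2) ≤ (k + l) := by clear * - y22; omega
              have k18 : (k + l + 2) ≤ (n + i2) := by clear * - y12 y14 z2; omega
              have k19 : L ≤ (n - l2 - 3) := by clear * - hL; omega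
              clear * - al a1 a2 s1 s2 b tt c u1 u2 d1 d2 n1 n2 n3 mx k17 k18 z6 k19
              exact absurd (mx (n + i2 + 1) (n + i2 + l2 + 1) (k + l - i2 + 1) (by omega) (by omega) fun t h1 h2 => (cE (qf c al 1 t (t + (k + l - 2 * n - i2 + 1)) (by omega)) (sh al 2 (t + (k + l - 2 * n - i2 + 1)) (t + (k + l - i2 + 1)) (by omega)))) (by omega)
            · by_cases z7 : (n + j) ≤ (k + 2 * l)
              · have k20 : (k + 2) ≤ (n + j) := by clear * - y1 y14 y17 y4 y8 z2 z5 z7; omega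
                have k21 : (n + 2 * i + j + 2) ≤ (2 * Q + k) := by clear * - y5 z7; omega
                have k22 : (n + j) ≤ (k + 2 * l + 1) := by clear * - z7; omega
                have k23 : (j + k + 1) ≤ (n + 2 * i) := by clear * - y14 y8 z2 z4 z5 ev n1p n2p n3p; omega
                obtain ⟨t, ht⟩ : ∃ t, 2 * t = (n + 2 * i + j - k) := ⟨(n + 2 * i + j - k) / 2, by clear * - ev n1p n2p n3p; omega⟩
                clear * - al a1 a2 s1 s2 b tt c u1 u2 d1 d2 n1 n2 n3 k20 k21 k22 k23 ht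
                exact al.ninv t (cI (qf b al 0 t (t + (k - i)) (by omega)) (ab s2 al 1 (t + (k - i)) t (by omega)))
              · by_cases z8 : (n + i + 2 * i2 + 1) ≤ (2 * Q + k)
                · have k24 : (k + 2) ≤ (n + i) := by clear * - y12 y14 y8 z2 ev n1p n2p n3p; omega
                  have k25 : (i + k + 2 * l + 4) ≤ (n + 2 * i2) := by clear * - y1 y14 z2 z4 z5 ev n1p n2p n3p; omega
                  have k26 : (n + i) ≤ (k + 2 * l2 + 1) := by clear * - y13 y14 z8; omega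
                  obtain ⟨t, ht⟩ : ∃ t, 2 * t = (i + k + 2 * l - n + 2) := ⟨(i + k + 2 * l - n + 2) / 2, by clear * - ev n1p n2p n3p; omega⟩
                  clear * - al a1 a2 s1 s2 b tt c u1 u2 d1 d2 n1 n2 n3 k24 k25 k26 z8 ht
                  exact al.ninv t (cI (pb c al 0 t (t + (n + i2 - k - l - 1)) (by omega)) (qa tt al 0 (t + (n + i2 - k - l - 1)) t (by omega)))
                · by_cases z9 : (n + 2 * Q + j) ≤ (k + i2 + l2 + i3 + 1)
                  · have k27 : (i2 + l2 + i3 + 2) ≤ (n + j + k) := by clear * - y12 y14 y6 z7; omega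
                    have k28 : (k + i2 + l2 + 2) ≤ (n + j + i3) := by clear * - y1 y12 y8 z2; omega
                    obtain ⟨t, ht⟩ : ∃ t, 2 * t = (j + i2 + l2 + i3 - 3 * n - k + 1) := ⟨(j + i2 + l2 + i3 - 3 * n - k + 1) / 2, by clear * - ev n1p n2p n3p; omega⟩
                    clear * - al a1 a2 s1 s2 b tt c u1 u2 d1 d2 n1 n2 n3 z9 k27 k28 ht
                    exact al.ninv t (cE (cI (qf a2 al (-1) t (t + (n + k - j)) (by omega)) (qa u1 al 0 (t + (n + k - j)) ((j + i2 + l2 + i3 - n - k + 1) - t) (by omega))) (sh al (-2) ((j + i2 + l2 + i3 - n - k + 1) - t) t (by omega)))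
                  · by_cases z10 : (2 * k + l + 2) ≤ (n + Q + j)
                    · have k29 : (n + j + i2) ≤ (2 * k + l) := by clear * - y6 y8 z4 z7 ev n1p n2p n3p; omega
                      have k30 : (2 * k + l + 2) ≤ (2 * n + j + i2) := by clear * - y14 y21 z10 z2 z4 z6 z7 z8; omega
                      have k31 : (k) ≤ (Q + j) := by clear * - y6 z10; omega
                      have k32 : (Q + k + l + 1) ≤ (n + j + i2) := by clear * - y1 z7 z8; omega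
                      clear * - al a1 a2 s1 s2 b tt c u1 u2 d1 d2 n1 n2 n3 k29 k30 z10 k31 y11 k32
                      exact al.ubQ (2 * k + l - n - j - i2 + 1) (by omega) (by omega) fun t h1 h2 => (cE (sh al (-1) t (t + (-n)) (by omega)) (cE (qf c al (-1) (t + (-n)) (t + (k + l - n - i2 + 1)) (by omega)) (qf a1 al 0 (t + (k + l - n - i2 + 1)) (t + (2 * k + l - n - j - i2 + 1)) (by omega))))
                    · by_cases z11 : (n + i + j) ≤ (k + l + i2 + 1)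
                      · have k33 : (j + 1) ≤ (i2) := by clear * - z1 z11 z2 z8 z9; omega
                        have k34 : (i2 + 1) ≤ (Q) := by clear * - y5 y8; omega
                        have k35 : (k + l + i2 + 1) ≤ (n + i + j) := by clear * - y8 z7 ev n1p n2p n3p; omega
                        have k36 : (i + l + 1) ≤ (i2) := by clear * - z11 z7 ev n1p n2p n3p; omega
                        clear * - al a1 a2 s1 s2 b tt c u1 u2 d1 d2 n1 n2 n3 k33 k34 k35 z11 k36 y8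
                        exact (n2.f4 (qa s2 al 0 (i2) (k + l - n + 1) (by omega))) (sh al 0 (i2) (i + l + 1) (by omega))
                      · have k37 : (k + l + i2 + 3) ≤ (n + i + j) := by clear * - z11 ev n1p n2p n3p; omega
                        have k38 : (j + k + l + 3) ≤ (n + i + i2) := by clear * - z1 z11 z2 z8 z9; omega
                        have k39 : (n + i + j) ≤ (k + l + i2 + 2 * l2 + 2) := by clear * - y1 y14 y8 z10 z11 z2 z4 z8 z9; omega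
                        have k40 : (n + i + j + i2) ≤ (2 * Q + k + l) := by clear * - y1 y8 z10 z11 z2 z4 z9; omega
                        obtain ⟨t, ht⟩ : ∃ t, 2 * t = (i + j + k + l - n - i2 + 1) := ⟨(i + j + k + l - n - i2 + 1) / 2, by clear * - ev n1p n2p n3p; omega⟩
                        clear * - al a1 a2 s1 s2 b tt c u1 u2 d1 d2 n1 n2 n3 k37 k38 k39 k40 ht
                        exact al.ninv t (cI (pb c al 0 t (t + (n + i2 - k - l - 1)) (by omega)) (qa s2 al 0 (t + (n + i2 - k - l - 1)) t (by omega)))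

theorem l2_11010 {W : ℤ → G} {n Q i j k l i2 l2 i3 : ℤ} (al : AL W n Q)
    {L : ℤ} (mx : ∀ a b g, 0 < g → g < n → Par W a b g → b - a ≤ L) (hL : L ≤ (n - j - 3) ∧ L ≤ (n + Q - k - 3) ∧ L ≤ (n - l - 3) ∧ L ≤ (k - j - 2) ∧ L ≤ (n - l2 - 3) ∧ L ≤ (n + i3 - Q - 2) ∧ L ≤ (i2 + l2 - 1) ∧ L ≤ (n + i3 - i2 - l2 - 3))
    (hy : (0) ≤ (i) ∧ (i) ≤ (j) ∧ (j + 1) ≤ (Q) ∧ (Q) ≤ (k) ∧ (k + 1) ≤ (n) ∧ (i + l + 2) ≤ (Q) ∧ (n) ≤ (k + l + 1) ∧ (0) ≤ (i2) ∧ (n + i2) ≤ (k + l + 1) ∧ (0) ≤ (i + l + l2 + 2) ∧ (i + l + l2 + 3) ≤ (Q) ∧ (Q) ≤ (i2 + l2 + 1) ∧ (i2 + l2 + 2) ≤ (n) ∧ (0) ≤ (i3) ∧ (i3) ≤ (i + l + l2 + 2) ∧ (j + 3) ≤ (n) ∧ (k + 3) ≤ (n + Q) ∧ (l + 3) ≤ (n) ∧ (j + 2) ≤ (k) ∧ (l2 + 3) ≤ (n) ∧ (Q + 2) ≤ (n + i3) ∧ (1) ≤ (i2 + l2) ∧ (i2 + l2 + 3) ≤ (n + i3))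
    (a1 : Par W (0) (j) (k - j))
    (a2 : Par W (Q + j - k) (j) (k - j))
    (s1 : Ant W (0) (i) (i + j))
    (s2 : Ant W (j + 1) (Q) (i + j))
    (b : Par W (i + 1) (i + l + 1) (k - i))
    (tt : Ant W (0) (i2) (k + l + i2 - n + 1))
    (c : Par W (i2 + 1) (i2 + l2 + 1) (i + l - i2 + 1))
    (u1 : Ant W (0) (i3) (i + l + l2 + i3 + 2))
    (u2 : Ant W (i + l + l2 + 3) (Q) (i + l + l2 + i3 + 2))
    (d1 : Par W (i3 + 1) (Q) (i2 + l2 - i3 + 1))
    (d2 : Par W (i2 + l2 + 2) (n) (i3 - i2 - l2 - 1))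
    (n1 : Nd W (j) (i) (k))
    (n2 : Nd W (k + l - n + 1) (i2) (i + l + 1))
    (n3 : Nd W (i + l + l2 + 2) (i3) (i2 + l2 + 1)) : False := by
  have ev := al.ev
  obtain ⟨y0, y1, y2, y3, y4, y5, y6, y7, y8, y9, y10, y11, y12, y13, y14, y15, y16, y17, y18, y19, y20, y21, y22⟩ := id hy
  have n1p := And.intro n1.p1 n1.p2
  have n2p := And.intro n2.p1 n2.p2
  have n3p := And.intro n3.p1 n3.p2
  clear * - y0 y10 y11 y4 y8; omega

theorem l2_11011 {W : ℤ → G} {n Q i j k l i2 l2 i3 : ℤ} (al : AL W n Q)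
    {L : ℤ} (mx : ∀ a b g, 0 < g → g < n → Par W a b g → b - a ≤ L) (hL : L ≤ (n - j - 3) ∧ L ≤ (n + Q - k - 3) ∧ L ≤ (n - l - 3) ∧ L ≤ (k - j - 2) ∧ L ≤ (n - l2 - 3) ∧ L ≤ (i3 - 2) ∧ L ≤ (n + i + l + l2 - Q) ∧ L ≤ (n + i + l - i2 - 1))
    (hy : (0) ≤ (i) ∧ (i) ≤ (j) ∧ (j + 1) ≤ (Q) ∧ (Q) ≤ (k) ∧ (k + 1) ≤ (n) ∧ (i + l + 2) ≤ (Q) ∧ (n) ≤ (k + l + 1) ∧ (0) ≤ (i2) ∧ (n + i2) ≤ (k + l + 1) ∧ (0) ≤ (i + l + l2 + 2) ∧ (i + l + l2 + 3) ≤ (Q) ∧ (Q) ≤ (i2 + l2 + 1) ∧ (i2 + l2 + 2) ≤ (n) ∧ (Q) ≤ (i3) ∧ (i3) ≤ (i2 + l2 + 1) ∧ (j + 3) ≤ (n) ∧ (k + 3) ≤ (n + Q) ∧ (l + 3) ≤ (n) ∧ (j + 2) ≤ (k) ∧ (l2 + 3) ≤ (n) ∧ (2) ≤ (i3) ∧ (Q) ≤ (n + i + l + l2) ∧ (i2 + 1) ≤ (n + i + l))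
    (a1 : Par W (0) (j) (k - j))
    (a2 : Par W (Q + j - k) (j) (k - j))
    (s1 : Ant W (0) (i) (i + j))
    (s2 : Ant W (j + 1) (Q) (i + j))
    (b : Par W (i + 1) (i + l + 1) (k - i))
    (tt : Ant W (0) (i2) (k + l + i2 - n + 1))
    (c : Par W (i2 + 1) (i2 + l2 + 1) (i + l - i2 + 1))
    (u1 : Ant W (Q) (i3) (i2 + l2 + i3 + 1))
    (u2 : Ant W (i2 + l2 + 2) (n) (i2 + l2 + i3 + 1))
    (d1 : Par W (i3 + 1) (n) (i + l + l2 - i3 + 2))
    (d2 : Par W (i + l + l2 + 3) (Q) (i3 - i - l - l2 - 2))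
    (n1 : Nd W (j) (i) (k))
    (n2 : Nd W (k + l - n + 1) (i2) (i + l + 1))
    (n3 : Nd W (i2 + l2 + 1) (i3) (i + l + l2 + 2)) : False := by
  have ev := al.ev
  obtain ⟨y0, y1, y2, y3, y4, y5, y6, y7, y8, y9, y10, y11, y12, y13, y14, y15, y16, y17, y18, y19, y20, y21, y22⟩ := id hy
  have n1p := And.intro n1.p1 n1.p2
  have n2p := And.intro n2.p1 n2.p2
  have n3p := And.intro n3.p1 n3.p2
  clear * - y0 y10 y13 y14 y4 y8; omega

theorem l2_11100 {W : ℤ → G} {n Q i j k l i2 l2 i3 : ℤ} (al : AL W n Q)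
    {L : ℤ} (mx : ∀ a b g, 0 < g → g < n → Par W a b g → b - a ≤ L) (hL : L ≤ (n - j - 3) ∧ L ≤ (n + Q - k - 3) ∧ L ≤ (n - l - 3) ∧ L ≤ (k - j - 2) ∧ L ≤ (n - l2 - 3) ∧ L ≤ (n + i3 - Q - 2) ∧ L ≤ (i + l + l2) ∧ L ≤ (n + i3 - i - l - l2 - 4))
    (hy : (0) ≤ (i) ∧ (i) ≤ (j) ∧ (j + 1) ≤ (Q) ∧ (Q) ≤ (k) ∧ (k + 1) ≤ (n) ∧ (i + l + 2) ≤ (Q) ∧ (n) ≤ (k + l + 1) ∧ (0) ≤ (i2) ∧ (n + i2) ≤ (k + l + 1) ∧ (0) ≤ (i2 + l2 + 1) ∧ (i2 + l2 + 2) ≤ (Q) ∧ (Q) ≤ (i + l + l2 + 2) ∧ (i + l + l2 + 3) ≤ (n) ∧ (0) ≤ (i3) ∧ (i3) ≤ (i2 + l2 + 1) ∧ (j + 3) ≤ (n) ∧ (k + 3) ≤ (n + Q) ∧ (l + 3) ≤ (n) ∧ (j + 2) ≤ (k) ∧ (l2 + 3) ≤ (n) ∧ (Q + 2) ≤ (n + i3) ∧ (0) ≤ (i + l + l2) ∧ (i + l + l2 + 4) ≤ (n + i3))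
    (a1 : Par W (0) (j) (k - j))
    (a2 : Par W (Q + j - k) (j) (k - j))
    (s1 : Ant W (0) (i) (i + j))
    (s2 : Ant W (j + 1) (Q) (i + j))
    (b : Par W (i + 1) (i + l + 1) (k - i))
    (tt : Ant W (k + l - n + 2) (Q) (k + l + i2 - n + 1))
    (c : Par W (i2 + 1) (i2 + l2 + 1) (i + l - i2 + 1))
    (u1 : Ant W (0) (i3) (i2 + l2 + i3 + 1))
    (u2 : Ant W (i2 + l2 + 2) (Q) (i2 + l2 + i3 + 1))
    (d1 : Par W (i3 + 1) (Q) (i + l + l2 - i3 + 2))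
    (d2 : Par W (i + l + l2 + 3) (n) (i3 - i - l - l2 - 2))
    (n1 : Nd W (j) (i) (k))
    (n2 : Nd W (k + l - n + 1) (i2) (i + l + 1))
    (n3 : Nd W (i2 + l2 + 1) (i3) (i + l + l2 + 2)) : False := by
  have ev := al.ev
  obtain ⟨y0, y1, y2, y3, y4, y5, y6, y7, y8, y9, y10, y11, y12, y13, y14, y15, y16, y17, y18, y19, y20, y21, y22⟩ := id hy
  have n1p := And.intro n1.p1 n1.p2
  have n2p := And.intro n2.p1 n2.p2
  have n3p := And.intro n3.p1 n3.p2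
  by_cases z1 : (n + 2 * i3) ≤ (Q + i + l + l2 + 2)
  · have k1 : (i3) ≤ (i + l + l2 + 1) := by clear * - y20 z1; omega
    have k2 : (i + l + l2 + 3) ≤ (n + i3) := by clear * - y22; omega
    have k3 : L ≤ (n + i3 - i - l - l2 - 4) := by clear * - hL; omega
    clear * - al a1 a2 s1 s2 b tt c u1 u2 d1 d2 n1 n2 n3 mx k1 k2 z1 k3
    exact absurd (mx (i3 - n + 1) (Q - n) (i + l + l2 - i3 + 2) (by omega) (by omega) fun t h1 h2 => (cE (qf d1 al (-1) t (t + (n + i + l + l2 - i3 + 2)) (by omega)) (sh al (-1) (t + (n + i + l + l2 - i3 + 2)) (t + (i + l + l2 - i3 + 2)) (by omega)))) (by omega)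
  · by_cases z2 : (n) ≤ (i2 + l2 + i3 + 2)
    · have k4 : (i2 + l2 + 3) ≤ (n + i3) := by clear * - y10 y20; omega
      obtain ⟨t, ht⟩ : ∃ t, 2 * t = (3 * n + i2 + l2 + i3 + 1) := ⟨(3 * n + i2 + l2 + i3 + 1) / 2, by clear * - ev n1p n2p n3p; omega⟩
      clear * - al a1 a2 s1 s2 b tt c u1 u2 d1 d2 n1 n2 n3 k4 z2 ht
      exact al.ninv t (cE (ab u1 al 1 t ((n + i2 + l2 + i3 + 1) - t) (by omega)) (sh al 2 ((n + i2 + l2 + i3 + 1) - t) t (by omega)))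
    · by_cases z3 : (n + 2 * Q) ≤ (2 * k + 2)
      · have k5 : (j + 1) ≤ (k) := by clear * - y18; omega
        have k6 : (k + 1) ≤ (n + j) := by clear * - y0 y1 y4; omega
        have k7 : L ≤ (n + Q - k - 3) := by clear * - hL; omega
        clear * - al a1 a2 s1 s2 b tt c u1 u2 d1 d2 n1 n2 n3 mx k5 k6 z3 k7
        exact absurd (mx (n + Q + j - k) (n + j) (k - j) (by omega) (by omega) fun t h1 h2 => (cE (qf a2 al 1 t (t + (k - n - j)) (by omega)) (sh al 1 (t + (k - n - j)) (t + (k - j)) (by omega)))) (by omega)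
      · by_cases z4 : (i + k + 2) ≤ (n + 2 * i2)
        · have k8 : (i + k + 2 * l + 4) ≤ (n + 2 * Q) := by clear * - y0 y4 y5; omega
          have k9 : (k + 2) ≤ (n + i) := by clear * - y0 y4 ev n1p n2p n3p; omega
          have k10 : (i + k + 2) ≤ (n + 2 * Q) := by clear * - y14 y22 y8 z3; omega
          have k11 : (i + k) ≤ (n + 2 * l + 2 * i2) := by clear * - y10 y11 y8 z4; omega
          have k12 : (k + 2 * i2 + 2) ≤ (n + 2 * Q + i) := by clear * - y0 y10 y11 y4 y5; omega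
          have k13 : (k + 2 * i2) ≤ (n + 3 * i + 2 * l) := by clear * - y0 y10 y11 y4; omega
          have k14 : (n + k + l + i2 + 1) % 2 = 0 := by clear * - ev n1p n2p n3p; omega
          have k15 : (n + i - k) % 2 = 0 := by clear * - ev n1p n2p n3p; omega
          clear * - al a1 a2 s1 s2 b tt c u1 u2 d1 d2 n1 n2 n3 k8 z4 k9 k10 k11 k12 k13 k14 k15
          exact midP al (n + i - k) (n + k + l + i2 + 1) (max (k + i2 - i + 1) (max (k + l + 2) (k + 1))) (k + 1) (n + i + l + 1) (by omega) (fun t h1 h2 => (cE (qa tt al 1 t ((k + l + i2 + 1) - t) (by omega)) (sh al 1 ((k + l + i2 + 1) - t) ((n + k + l + i2 + 1) - t) (by omega)))) (fun t h1 h2 => (cE (pb b al 0 t (t + (i - k)) (by omega)) (sh al 1 (t + (i - k)) (t + (n + i - k)) (by omega))))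
        · by_cases z5 : (k + l + i2 + 2) ≤ (2 * Q)
          · have k16 : (k + l + 3) ≤ (2 * n + i2) := by clear * - y11 y14 y7 z1 z2 z5; omega
            obtain ⟨t, ht⟩ : ∃ t, 2 * t = (k + l + i2 + 1) := ⟨(k + l + i2 + 1) / 2, by clear * - ev n1p n2p n3p; omega⟩
            clear * - al a1 a2 s1 s2 b tt c u1 u2 d1 d2 n1 n2 n3 k16 z5 ht
            exact al.ninv t (cE (qa tt al 0 t ((k + l + i2 - n + 1) - t) (by omega)) (sh al 1 ((k + l + i2 - n + 1) - t) t (by omega)))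
          · by_cases z6 : (i + l2 + i3 + 3) ≤ (k + i2)
            · by_cases z7 : (i + k + 2 * l + l2 + 4) ≤ (2 * n + i2 + i3)
              · have k17 : (i + k + 2 * l + l2 + 5) ≤ (2 * n + i2 + i3) := by clear * - z7 ev n1p n2p n3p; omega
                have k18 : (k + i2 + i3 + 1) ≤ (2 * Q + i + l2) := by clear * - y14 z3 z4; omega
                have k19 : (i + l2 + i3 + 2) ≤ (k + i2) := by clear * - z6; omega
                obtain ⟨t, ht⟩ : ∃ t, 2 * t = (2 * n + k + i2 + i3 - i - l2 - 1) := ⟨(2 * n + k + i2 + i3 - i - l2 - 1) / 2, by clear * - ev n1p n2p n3p; omega⟩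
                clear * - al a1 a2 s1 s2 b tt c u1 u2 d1 d2 n1 n2 n3 k17 k18 k19 ht
                exact al.ninv t (cE (cE (qa tt al 1 t ((k + l + i2 + 1) - t) (by omega)) (pb d1 al (-1) ((k + l + i2 + 1) - t) ((n + k + i2 + i3 - i - l2 - 1) - t) (by omega))) (sh al 1 ((n + k + i2 + i3 - i - l2 - 1) - t) t (by omega)))
              · have k20 : (k + 1) ≤ (n + i) := by clear * - y4 y7 z4; omega
                have k21 : (i + 1) ≤ (k) := by clear * - y14 z1 z3 z4 z6 z7; omega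
                have k22 : (n + i3) ≤ (i + 2 * l + l2 + 3) := by clear * - y4 y7 z7; omega
                have k23 : L ≤ (n + i3 - i - l - l2 - 4) := by clear * - hL; omega
                clear * - al a1 a2 s1 s2 b tt c u1 u2 d1 d2 n1 n2 n3 mx k20 k21 k22 k23
                exact absurd (mx (k + 1) (k + l + 1) (n + i - k) (by omega) (by omega) fun t h1 h2 => (cE (pb b al 0 t (t + (i - k)) (by omega)) (sh al 1 (t + (i - k)) (t + (n + i - k)) (by omega)))) (by omega)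
            · have k24 : (j + i2 + l2 + 3) ≤ (k + i3) := by clear * - y10 y2 z1 z4 z5; omega
              have k25 : (i2 + l2 + i3 + 3) ≤ (j + k) := by clear * - y1 y7 z2 z4 ev n1p n2p n3p; omega
              have k26 : (k) ≤ (j + i2 + l2 + i3 + 2) := by clear * - y1 y7 z6; omega
              obtain ⟨t, ht⟩ : ∃ t, 2 * t = (k + i2 + l2 + i3 - j + 1) := ⟨(k + i2 + l2 + i3 - j + 1) / 2, by clear * - ev n1p n2p n3p; omega⟩
              clear * - al a1 a2 s1 s2 b tt c u1 u2 d1 d2 n1 n2 n3 k24 k25 k26 ht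
              exact al.ninv t (cE (ab u1 al 0 t ((i2 + l2 + i3 + 1) - t) (by omega)) (qf a1 al 0 ((i2 + l2 + i3 + 1) - t) t (by omega)))

theorem l2_11101 {W : ℤ → G} {n Q i j k l i2 l2 i3 : ℤ} (al : AL W n Q)
    {L : ℤ} (mx : ∀ a b g, 0 < g → g < n → Par W a b g → b - a ≤ L) (hL : L ≤ (n - j - 3) ∧ L ≤ (n + Q - k - 3) ∧ L ≤ (n - l - 3) ∧ L ≤ (k - j - 2) ∧ L ≤ (n - l2 - 3) ∧ L ≤ (i3 - 2) ∧ L ≤ (n + i2 + l2 - Q - 1) ∧ L ≤ (n + i2 - i - l - 3))
    (hy : (0) ≤ (i) ∧ (i) ≤ (j) ∧ (j + 1) ≤ (Q) ∧ (Q) ≤ (k) ∧ (k + 1) ≤ (n) ∧ (i + l + 2) ≤ (Q) ∧ (n) ≤ (k + l + 1) ∧ (0) ≤ (i2) ∧ (n + i2) ≤ (k + l + 1) ∧ (0) ≤ (i2 + l2 + 1) ∧ (i2 + l2 + 2) ≤ (Q) ∧ (Q) ≤ (i + l + l2 + 2) ∧ (i + l + l2 + 3) ≤ (n) ∧ (Q) ≤ (i3) ∧ (i3) ≤ (i + l + l2 + 2) ∧ (j + 3) ≤ (n) ∧ (k + 3) ≤ (n + Q) ∧ (l + 3) ≤ (n) ∧ (j + 2) ≤ (k) ∧ (l2 + 3) ≤ (n) ∧ (2) ≤ (i3) ∧ (Q + 1) ≤ (n + i2 + l2) ∧ (i + l + 3) ≤ (n + i2))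
    (a1 : Par W (0) (j) (k - j))
    (a2 : Par W (Q + j - k) (j) (k - j))
    (s1 : Ant W (0) (i) (i + j))
    (s2 : Ant W (j + 1) (Q) (i + j))
    (b : Par W (i + 1) (i + l + 1) (k - i))
    (tt : Ant W (k + l - n + 2) (Q) (k + l + i2 - n + 1))
    (c : Par W (i2 + 1) (i2 + l2 + 1) (i + l - i2 + 1))
    (u1 : Ant W (Q) (i3) (i + l + l2 + i3 + 2))
    (u2 : Ant W (i + l + l2 + 3) (n) (i + l + l2 + i3 + 2))
    (d1 : Par W (i3 + 1) (n) (i2 + l2 - i3 + 1))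
    (d2 : Par W (i2 + l2 + 2) (Q) (i3 - i2 - l2 - 1))
    (n1 : Nd W (j) (i) (k))
    (n2 : Nd W (k + l - n + 1) (i2) (i + l + 1))
    (n3 : Nd W (i + l + l2 + 2) (i3) (i2 + l2 + 1)) : False := by
  have ev := al.ev
  obtain ⟨y0, y1, y2, y3, y4, y5, y6, y7, y8, y9, y10, y11, y12, y13, y14, y15, y16, y17, y18, y19, y20, y21, y22⟩ := id hy
  have n1p := And.intro n1.p1 n1.p2
  have n2p := And.intro n2.p1 n2.p2
  have n3p := And.intro n3.p1 n3.p2
  by_cases z1 : (i + k + 2) ≤ (n + 2 * i2)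
  · have k1 : (i + k + 2 * l + 4) ≤ (n + 2 * Q) := by clear * - y0 y4 y5; omega
    have k2 : (k + 2) ≤ (n + i) := by clear * - y0 y4 ev n1p n2p n3p; omega
    have k3 : (i + k + 2) ≤ (n + 2 * Q) := by clear * - y10 y13 y14 y5 z1; omega
    have k4 : (i + k) ≤ (n + 2 * l + 2 * i2) := by clear * - y10 y13 y14 y8 z1; omega
    have k5 : (k + 2 * i2 + 2) ≤ (n + 2 * Q + i) := by clear * - y0 y10 y13 y14 y4 y5; omega
    have k6 : (k + 2 * i2) ≤ (n + 3 * i + 2 * l) := by clear * - y0 y10 y13 y14 y4; omega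
    have k7 : (k + l + i2 - n + 1) % 2 = 0 := by clear * - ev n1p n2p n3p; omega
    have k8 : (n + i - k) % 2 = 0 := by clear * - ev n1p n2p n3p; omega
    clear * - al a1 a2 s1 s2 b tt c u1 u2 d1 d2 n1 n2 n3 k1 z1 k2 k3 k4 k5 k6 k7 k8
    exact midP al (n + i - k) (k + l + i2 - n + 1) (max (k + i2 - n - i + 1) (max (k + l - n + 2) (k - n + 1))) (k - n + 1) (i + l + 1) (by omega) (fun t h1 h2 => (qa tt al 0 t ((k + l + i2 - n + 1) - t) (by omega))) (fun t h1 h2 => (pb b al (-1) t (t + (n + i - k)) (by omega)))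
  · by_cases z2 : (k + l + i2 + 3) ≤ (2 * Q)
    · have k9 : (k + l + 3) ≤ (2 * n + i2) := by clear * - y12 y13 y14 y7 z2; omega
      have k10 : (k + l + i2 + 2) ≤ (2 * Q) := by clear * - z2; omega
      obtain ⟨t, ht⟩ : ∃ t, 2 * t = (k + l + i2 - 2 * n + 1) := ⟨(k + l + i2 - 2 * n + 1) / 2, by clear * - ev n1p n2p n3p; omega⟩
      clear * - al a1 a2 s1 s2 b tt c u1 u2 d1 d2 n1 n2 n3 k9 k10 ht
      exact al.ninv t (qa tt al (-1) t t (by omega))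
    · by_cases z3 : (n + 2 * Q) ≤ (2 * k + 2)
      · have k11 : (j + 1) ≤ (k) := by clear * - y18; omega
        have k12 : (k + 1) ≤ (n + j) := by clear * - y1 y4 y7 z1; omega
        have k13 : L ≤ (n + Q - k - 3) := by clear * - hL; omega
        clear * - al a1 a2 s1 s2 b tt c u1 u2 d1 d2 n1 n2 n3 mx k11 k12 z3 k13
        exact absurd (mx (Q + j - n - k) (j - n) (k - j) (by omega) (by omega) fun t h1 h2 => (cE (qf a2 al (-1) t (t + (n + k - j)) (by omega)) (sh al (-1) (t + (n + k - j)) (t + (k - j)) (by omega)))) (by omega)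
      · by_cases z4 : (n + 2 * i2 + l2) ≤ (Q + i + l)
        · have k14 : (i2 + l2 + 2) ≤ (i3) := by clear * - y13 y22 z4; omega
          have k15 : (i3) ≤ (n + i2 + l2) := by clear * - y14 y22; omega
          have k16 : L ≤ (n + i2 - i - l - 3) := by clear * - hL; omega
          clear * - al a1 a2 s1 s2 b tt c u1 u2 d1 d2 n1 n2 n3 mx k14 k15 z4 k16
          exact absurd (mx (i2 + l2 - n + 2) (Q - n) (i3 - i2 - l2 - 1) (by omega) (by omega) fun t h1 h2 => (cE (qf d2 al (-1) t (t + (n + i3 - i2 - l2 - 1)) (by omega)) (sh al (-1) (t + (n + i3 - i2 - l2 - 1)) (t + (i3 - i2 - l2 - 1)) (by omega)))) (by omega)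
        · by_cases z5 : (k) ≤ (i + 2 * l2)
          · have k17 : (i + 2) ≤ (k) := by clear * - y22 y8; omega
            have k18 : (k + 2 * i2 + 2) ≤ (2 * Q + i) := by clear * - z1 z3; omega
            have k19 : (k) ≤ (i + 2 * l2 + 1) := by clear * - z5; omega
            have k20 : (i + k + 2 * l + 3) ≤ (2 * n + 2 * i2) := by clear * - y12 y7 z5; omega
            obtain ⟨t, ht⟩ : ∃ t, 2 * t = (k + 2 * i2 - i) := ⟨(k + 2 * i2 - i) / 2, by clear * - ev n1p n2p n3p; omega⟩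
            clear * - al a1 a2 s1 s2 b tt c u1 u2 d1 d2 n1 n2 n3 k17 k18 k19 k20 ht
            exact al.ninv t (cI (qf c al 0 t (t + (i + l - i2 + 1)) (by omega)) (ab tt al 1 (t + (i + l - i2 + 1)) t (by omega)))
          · by_cases z6 : (k) ≤ (2 * j + 1)
            · have k21 : (j + 1) ≤ (k) := by clear * - y18; omega
              have k22 : (k + 1) ≤ (n + j) := by clear * - y15 z6; omega
              have k23 : L ≤ (k - j - 2) := by clear * - hL; omega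
              clear * - al a1 a2 s1 s2 b tt c u1 u2 d1 d2 n1 n2 n3 mx k21 k22 z6 k23
              exact absurd (mx (0) (j) (k - j) (by omega) (by omega) fun t h1 h2 => (qf a1 al 0 t (t + (k - j)) (by omega))) (by omega)
            · by_cases z7 : (n + 2 * j) ≤ (i + k + 2 * l)
              · have k24 : (n) ≤ (i + k) := by clear * - y7 z1 ev n1p n2p n3p; omega
                have k25 : (k) ≤ (n + i + 2 * j) := by clear * - y1 y4 y7 z1; omega
                have k26 : (n) ≤ (i + k + 2 * l + 2) := by clear * - y7 y8 z1 z2 z3; omega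
                have k27 : (k + 2) ≤ (n + i) := by clear * - y4 y7 z1 ev n1p n2p n3p; omega
                have k28 : (3 * k + 2) ≤ (3 * n + i + 2 * j) := by clear * - y1 y4 y7 z1; omega
                have k29 : (n + 2 * j) ≤ (i + k + 4 * l + 2) := by clear * - y8 z2 z3 z7; omega
                have k30 : (2 * n + i + j) % 2 = 0 := by clear * - ev n1p n2p n3p; omega
                have k31 : (n + i - k) % 2 = 0 := by clear * - ev n1p n2p n3p; omega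
                clear * - al a1 a2 s1 s2 b tt c u1 u2 d1 d2 n1 n2 n3 k24 k25 k26 k27 k28 z7 k29 k30 k31
                exact midP al (n + i - k) (2 * n + i + j) (max (n + j - l) (max (n) (k + 1))) (k + 1) (n + i + l + 1) (by omega) (fun t h1 h2 => (cE (qa s1 al 1 t ((n + i + j) - t) (by omega)) (sh al 1 ((n + i + j) - t) ((2 * n + i + j) - t) (by omega)))) (fun t h1 h2 => (cE (pb b al 0 t (t + (i - k)) (by omega)) (sh al 1 (t + (i - k)) (t + (n + i - k)) (by omega))))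
              · by_cases z8 : (2 * i + 2 * l + l2 + i3 + 5) ≤ (2 * n + i2)
                · have k32 : (2 * i + 2 * l + l2 + 3 * i3 + 5) ≤ (4 * n + i2) := by clear * - y14 z1 z2 z3 z8; omega
                  have k33 : (i2 + l2 + 3) ≤ (i3) := by clear * - y13 z1 z3 z5 ev n1p n2p n3p; omega
                  have k34 : (3 * i2 + l2 + 1) ≤ (2 * i + 2 * l + i3) := by clear * - y13 z1 z2 z3 z5; omega
                  have k35 : (i + l + l2 + i3 - 2 * n + 2) % 2 = 0 := by clear * - ev n1p n2p n3p; omega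
                  have k36 : (i3 - i2 - l2 - 1) % 2 = 0 := by clear * - ev n1p n2p n3p; omega
                  clear * - al a1 a2 s1 s2 b tt c u1 u2 d1 d2 n1 n2 n3 z8 k32 k33 k34 k35 k36
                  exact midP al (i3 - i2 - l2 - 1) (i + l + l2 + i3 - 2 * n + 2) (max (i2 + l2 - n + 2) (i + l + l2 + i3 - 2 * n + 3)) (i2 + l2 - n + 2) (0) (by omega) (fun t h1 h2 => (cE (ab u2 al (-1) t ((i + l + l2 + i3 - n + 2) - t) (by omega)) (sh al (-1) ((i + l + l2 + i3 - n + 2) - t) ((i + l + l2 + i3 - 2 * n + 2) - t) (by omega)))) (fun t h1 h2 => (cE (pb d1 al (-1) t (t + (n + i3 - i2 - l2 - 1)) (by omega)) (sh al (-1) (t + (n + i3 - i2 - l2 - 1)) (t + (i3 - i2 - l2 - 1)) (by omega))))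
                · by_cases z9 : (l2 + i3 + 2) ≤ (k + l)
                  · by_cases z10 : (k + l + 2 * i2 + l2 + 4) ≤ (2 * Q + i3)
                    · have k37 : (k + l + i3 + 1) ≤ (2 * n + 2 * i2 + l2) := by clear * - y14 y4 y7 z6 z7; omega
                      have k38 : (l2 + i3 + 1) ≤ (k + l) := by clear * - z9; omega
                      obtain ⟨t, ht⟩ : ∃ t, 2 * t = (k + l + i3 - 4 * n - l2) := ⟨(k + l + i3 - 4 * n - l2) / 2, by clear * - ev n1p n2p n3p; omega⟩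
                      clear * - al a1 a2 s1 s2 b tt c u1 u2 d1 d2 n1 n2 n3 z10 k37 k38 ht
                      exact al.ninv t (cE (cE (ab tt al (-1) t ((k + l + i2 - 2 * n + 1) - t) (by omega)) (qf d2 al 0 ((k + l + i2 - 2 * n + 1) - t) ((k + l + i3 - 2 * n - l2) - t) (by omega))) (sh al (-2) ((k + l + i3 - 2 * n - l2) - t) t (by omega)))
                    · have k39 : (k + i3) ≤ (n + j + i2 + l2) := by clear * - z1 z10 z3 z7; omega
                      have k40 : (j + i2 + l2 + 2) ≤ (k + i3) := by clear * - z1 z2 z3 z5 z6 z7 z8; omega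
                      have k41 : (j + i2 + l2 + 2) ≤ (k) := by clear * - y4 z1 z5 z6; omega
                      have k42 : (n + i2 + l2 + 1) ≤ (k + i3) := by clear * - y13 y5 y7 z1 z3 z5 z8; omega
                      clear * - al a1 a2 s1 s2 b tt c u1 u2 d1 d2 n1 n2 n3 k39 k40 k41 k42
                      exact al.ubP (n + j + i2 + l2 - k - i3 + 1) (by omega) (by omega) fun t h1 h2 => (cE (qf d1 al (-1) t (t + (n + i2 + l2 - i3 + 1)) (by omega)) (pb a1 al 0 (t + (n + i2 + l2 - i3 + 1)) (t + (n + j + i2 + l2 - k - i3 + 1)) (by omega)))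
                  · have k43 : (k + l + i2 + 2) ≤ (Q + i3) := by clear * - z1 z3 z5 z9 ev n1p n2p n3p; omega
                    have k44 : (i3 + 1) ≤ (n + i2) := by clear * - y12 y14 y7; omega
                    have k45 : (l2 + i3) ≤ (k + l) := by clear * - y14 z5 ev n1p n2p n3p; omega
                    have k46 : (k + l) ≤ (l2 + i3) := by clear * - z9 ev n1p n2p n3p; omega
                    have k47 : (i + l + l2 + 2) ≤ (i3) := by clear * - z5 z9 ev n1p n2p n3p; omega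
                    clear * - al a1 a2 s1 s2 b tt c u1 u2 d1 d2 n1 n2 n3 k43 k44 k45 k46 k47 y14
                    exact (n3.f4 (ab tt al 1 (i3) (i2 + l2 + 1) (by omega))) (sh al 0 (i3) (i + l + l2 + 2) (by omega))

theorem l2_11110 {W : ℤ → G} {n Q i j k l i2 l2 i3 : ℤ} (al : AL W n Q)
    {L : ℤ} (mx : ∀ a b g, 0 < g → g < n → Par W a b g → b - a ≤ L) (hL : L ≤ (n - j - 3) ∧ L ≤ (n + Q - k - 3) ∧ L ≤ (n - l - 3) ∧ L ≤ (k - j - 2) ∧ L ≤ (n - l2 - 3) ∧ L ≤ (n + i3 - Q - 2) ∧ L ≤ (i2 + l2 - 1) ∧ L ≤ (n + i3 - i2 - l2 - 3))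
    (hy : (0) ≤ (i) ∧ (i) ≤ (j) ∧ (j + 1) ≤ (Q) ∧ (Q) ≤ (k) ∧ (k + 1) ≤ (n) ∧ (i + l + 2) ≤ (Q) ∧ (n) ≤ (k + l + 1) ∧ (0) ≤ (i2) ∧ (n + i2) ≤ (k + l + 1) ∧ (0) ≤ (i + l + l2 + 2) ∧ (i + l + l2 + 3) ≤ (Q) ∧ (Q) ≤ (i2 + l2 + 1) ∧ (i2 + l2 + 2) ≤ (n) ∧ (0) ≤ (i3) ∧ (i3) ≤ (i + l + l2 + 2) ∧ (j + 3) ≤ (n) ∧ (k + 3) ≤ (n + Q) ∧ (l + 3) ≤ (n) ∧ (j + 2) ≤ (k) ∧ (l2 + 3) ≤ (n) ∧ (Q + 2) ≤ (n + i3) ∧ (1) ≤ (i2 + l2) ∧ (i2 + l2 + 3) ≤ (n + i3))
    (a1 : Par W (0) (j) (k - j))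
    (a2 : Par W (Q + j - k) (j) (k - j))
    (s1 : Ant W (0) (i) (i + j))
    (s2 : Ant W (j + 1) (Q) (i + j))
    (b : Par W (i + 1) (i + l + 1) (k - i))
    (tt : Ant W (k + l - n + 2) (Q) (k + l + i2 - n + 1))
    (c : Par W (i2 + 1) (i2 + l2 + 1) (i + l - i2 + 1))
    (u1 : Ant W (0) (i3) (i + l + l2 + i3 + 2))
    (u2 : Ant W (i + l + l2 + 3) (Q) (i + l + l2 + i3 + 2))
    (d1 : Par W (i3 + 1) (Q) (i2 + l2 - i3 + 1))
    (d2 : Par W (i2 + l2 + 2) (n) (i3 - i2 - l2 - 1))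
    (n1 : Nd W (j) (i) (k))
    (n2 : Nd W (k + l - n + 1) (i2) (i + l + 1))
    (n3 : Nd W (i + l + l2 + 2) (i3) (i2 + l2 + 1)) : False := by
  have ev := al.ev
  obtain ⟨y0, y1, y2, y3, y4, y5, y6, y7, y8, y9, y10, y11, y12, y13, y14, y15, y16, y17, y18, y19, y20, y21, y22⟩ := id hy
  have n1p := And.intro n1.p1 n1.p2
  have n2p := And.intro n2.p1 n2.p2
  have n3p := And.intro n3.p1 n3.p2
  clear * - y0 y10 y11 y4 y8; omega

theorem l2_11111 {W : ℤ → G} {n Q i j k l i2 l2 i3 : ℤ} (al : AL W n Q)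
    {L : ℤ} (mx : ∀ a b g, 0 < g → g < n → Par W a b g → b - a ≤ L) (hL : L ≤ (n - j - 3) ∧ L ≤ (n + Q - k - 3) ∧ L ≤ (n - l - 3) ∧ L ≤ (k - j - 2) ∧ L ≤ (n - l2 - 3) ∧ L ≤ (i3 - 2) ∧ L ≤ (n + i + l + l2 - Q) ∧ L ≤ (n + i + l - i2 - 1))
    (hy : (0) ≤ (i) ∧ (i) ≤ (j) ∧ (j + 1) ≤ (Q) ∧ (Q) ≤ (k) ∧ (k + 1) ≤ (n) ∧ (i + l + 2) ≤ (Q) ∧ (n) ≤ (k + l + 1) ∧ (0) ≤ (i2) ∧ (n + i2) ≤ (k + l + 1) ∧ (0) ≤ (i + l + l2 + 2) ∧ (i + l + l2 + 3) ≤ (Q) ∧ (Q) ≤ (i2 + l2 + 1) ∧ (i2 + l2 + 2) ≤ (n) ∧ (Q) ≤ (i3) ∧ (i3) ≤ (i2 + l2 + 1) ∧ (j + 3) ≤ (n) ∧ (k + 3) ≤ (n + Q) ∧ (l + 3) ≤ (n) ∧ (j + 2) ≤ (k) ∧ (l2 + 3) ≤ (n) ∧ (2) ≤ (i3) ∧ (Q) ≤ (n + i + l + l2) ∧ (i2 + 1) ≤ (n + i + l))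
    (a1 : Par W (0) (j) (k - j))
    (a2 : Par W (Q + j - k) (j) (k - j))
    (s1 : Ant W (0) (i) (i + j))
    (s2 : Ant W (j + 1) (Q) (i + j))
    (b : Par W (i + 1) (i + l + 1) (k - i))
    (tt : Ant W (k + l - n + 2) (Q) (k + l + i2 - n + 1))
    (c : Par W (i2 + 1) (i2 + l2 + 1) (i + l - i2 + 1))
    (u1 : Ant W (Q) (i3) (i2 + l2 + i3 + 1))
    (u2 : Ant W (i2 + l2 + 2) (n) (i2 + l2 + i3 + 1))
    (d1 : Par W (i3 + 1) (n) (i + l + l2 - i3 + 2))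
    (d2 : Par W (i + l + l2 + 3) (Q) (i3 - i - l - l2 - 2))
    (n1 : Nd W (j) (i) (k))
    (n2 : Nd W (k + l - n + 1) (i2) (i + l + 1))
    (n3 : Nd W (i2 + l2 + 1) (i3) (i + l + l2 + 2)) : False := by
  have ev := al.ev
  obtain ⟨y0, y1, y2, y3, y4, y5, y6, y7, y8, y9, y10, y11, y12, y13, y14, y15, y16, y17, y18, y19, y20, y21, y22⟩ := id hy
  have n1p := And.intro n1.p1 n1.p2
  have n2p := And.intro n2.p1 n2.p2
  have n3p := And.intro n3.p1 n3.p2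
  clear * - y0 y10 y13 y14 y4 y8; omega

end Pool.Agent.MP_a38735_al.WL
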