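import Pool.Agent.MP_a38735_al.WS
import Pool.Agent.MP_a38735_al.L2x
import Pool.Agent.MP_a38735_al.Q2b8
import Pool.Agent.MP_a38735_al.Q2c5
import Pool.Agent.MP_a38735_al.Q2c6
import Pool.Agent.MP_a38735_al.Q2c7
import Pool.Agent.MP_a38735_al.Q2c8
import Pool.Agent.MP_a38735_al.Q2c9

set_option autoImplicit false
set_option linter.unusedVariables false

namespace Pool.Agent.MP_a38735_al.WL

variable {G : Type*} [Group G]

theorem l2_11000 {W : ℤ → G} {n Q i j k l i2 l2 i3 : ℤ} (al : AL W n Q)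
    {L : ℤ} (mx : ∀ a b g, 0 < g → g < n → Par W a b g → b - a ≤ L) (hL : L ≤ (n - j - 3) ∧ L ≤ (n + Q - k - 3) ∧ L ≤ (n - l - 3) ∧ L ≤ (k - j - 2) ∧ L ≤ (n - l2 - 3) ∧ L ≤ (n + i3 - Q - 2) ∧ L ≤ (i + l + l2) ∧ L ≤ (n + i3 - i - l - l2 - 4))
    (hy : (0) ≤ (i) ∧ (i) ≤ (j) ∧ (j + 1) ≤ (Q) ∧ (Q) ≤ (k) ∧ (k + 1) ≤ (n) ∧ (i + l + 2) ≤ (Q) ∧ (n) ≤ (k + l + 1) ∧ (0) ≤ (i2) ∧ (n + i2) ≤ (k + l + 1) ∧ (0) ≤ (i2 + l2 + 1) ∧ (i2 + l2 + 2) ≤ (Q) ∧ (Q) ≤ (i + l + l2 + 2) ∧ (i + l + l2 + 3) ≤ (n) ∧ (0) ≤ (i3) ∧ (i3) ≤ (i2 + l2 + 1) ∧ (j + 3) ≤ (n) ∧ (k + 3) ≤ (n + Q) ∧ (l + 3) ≤ (n) ∧ (j + 2) ≤ (k) ∧ (l2 + 3) ≤ (n) ∧ (Q + 2) ≤ (n + i3) ∧ (0) ≤ (i + l + l2) ∧ (i + l + l2 + 4) ≤ (n + i3))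
    (a1 : Par W (0) (j) (k - j))
    (a2 : Par W (Q + j - k) (j) (k - j))
    (s1 : Ant W (0) (i) (i + j))
    (s2 : Ant W (j + 1) (Q) (i + j))
    (b : Par W (i + 1) (i + l + 1) (k - i))
    (tt : Ant W (0) (i2) (k + l + i2 - n + 1))
    (c : Par W (i2 + 1) (i2 + l2 + 1) (i + l - i2 + 1))
    (u1 : Ant W (0) (i3) (i2 + l2 + i3 + 1))
    (u2 : Ant W (i2 + l2 + 2) (Q) (i2 + l2 + i3 + 1))
    (d1 : Par W (i3 + 1) (Q) (i + l + l2 - i3 + 2))
    (d2 : Par W (i + l + l2 + 3) (n) (i3 - i - l - l2 - 2))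
    (n1 : Nd W (j) (i) (k))
    (n2 : Nd W (k + l - n + 1) (i2) (i + l + 1))
    (n3 : Nd W (i2 + l2 + 1) (i3) (i + l + l2 + 2)) : False :=
  l2_10110 (i := Q - 2 - i2 - l2) (j := Q - 1 - i3) (k := Q - 3 - i - l - l2 + n) (l := l2)
    (i2 := Q - 2 - k - l + n) (l2 := l) (i3 := Q - 1 - j) al.rf (mx_rf mx) (by omega) (by omega)
    (d1.rf al 0 1 (by omega)) (d2.rg al 0 1 (by omega)) (u2.rf al 0 0 (by omega))
    (u1.rf al 0 0 (by omega)) (c.rf al 0 1 (by omega)) (tt.rf al 0 0 (by omega))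
    (b.rg al (-1) (-1) (by omega)) (s2.rf al 0 0 (by omega)) (s1.rf al 0 0 (by omega))
    (a1.rf al 0 1 (by omega)) (a2.rg al (-1) (-1) (by omega)) (n3.rf al 0 0 1 (by omega))
    (n2.rf al 0 0 0 (by omega)) (n1.rf al 0 0 1 (by omega))

theorem l2_00001 (hx : L2x G) {W : ℤ → G} {n Q i j k l i2 l2 i3 : ℤ} (al : AL W n Q)
    {L : ℤ} (mx : ∀ a b g, 0 < g → g < n → Par W a b g → b - a ≤ L) (hL : L ≤ (n - j - 3) ∧ L ≤ (n + Q - k - 3) ∧ L ≤ (n - l - 3) ∧ L ≤ (n + i - k - 2) ∧ L ≤ (n - l2 - 3) ∧ L ≤ (n + i3 - Q - 2) ∧ L ≤ (i2 + l2 - 1) ∧ L ≤ (n + i2 - k - l - 3))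
    (hy : (0) ≤ (i) ∧ (i) ≤ (j) ∧ (j + 1) ≤ (Q) ∧ (Q) ≤ (k) ∧ (k + 1) ≤ (n) ∧ (Q) ≤ (i + l + 1) ∧ (k + l + 2) ≤ (n) ∧ (Q) ≤ (i2) ∧ (i2) ≤ (i + l + 1) ∧ (Q) ≤ (i2 + l2 + 1) ∧ (i2 + l2 + 2) ≤ (n) ∧ (n) ≤ (k + l + l2 + 2) ∧ (k + l + l2 + 3) ≤ (n + Q) ∧ (0) ≤ (i3) ∧ (n + i3) ≤ (k + l + l2 + 2) ∧ (j + 3) ≤ (n) ∧ (k + 3) ≤ (n + Q) ∧ (l + 3) ≤ (n) ∧ (k + 2) ≤ (n + i) ∧ (l2 + 3) ≤ (n) ∧ (Q + 2) ≤ (n + i3) ∧ (1) ≤ (i2 + l2) ∧ (k + l + 3) ≤ (n + i2))
    (a1 : Par W (0) (j) (k - j))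
    (a2 : Par W (Q + j - k) (j) (k - j))
    (s1 : Ant W (0) (i) (i + j))
    (s2 : Ant W (j + 1) (Q) (i + j))
    (b : Par W (i + 1) (i + l + 1) (k - i))
    (tt : Ant W (Q) (i2) (i + l + i2 + 1))
    (c : Par W (i2 + 1) (i2 + l2 + 1) (k + l - i2 + 1))
    (u1 : Ant W (0) (i3) (k + l + l2 + i3 - n + 2))
    (u2 : Ant W (k + l + l2 - n + 3) (Q) (k + l + l2 + i3 - n + 2))
    (d1 : Par W (i3 + 1) (Q) (i2 + l2 - i3 + 1))
    (d2 : Par W (i2 + l2 + 2) (n) (i3 - i2 - l2 - 1))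
    (n1 : Nd W (j) (i) (k))
    (n2 : Nd W (i + l + 1) (i2) (k + l + 1))
    (n3 : Nd W (k + l + l2 - n + 2) (i3) (i2 + l2 + 1)) : False :=
  hx W n Q i j k (i + l + 1) (k + l + 1) i2 i3 (k + l + l2 - n + 2) (i2 + l2 + 1) al (by omega)
    a1 (a2.cq (by omega)) s1 s2 b (tt.cq (by omega)) (c.cq (by omega)) (u1.cq (by omega))
    (u2.cq (by omega)) (d1.cq (by omega)) (d2.cq (by omega)) n1 n2 n3

theorem l2_01111 (hx : L2x G) {W : ℤ → G} {n Q i j k l i2 l2 i3 : ℤ} (al : AL W n Q)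
    {L : ℤ} (mx : ∀ a b g, 0 < g → g < n → Par W a b g → b - a ≤ L) (hL : L ≤ (n - j - 3) ∧ L ≤ (n + Q - k - 3) ∧ L ≤ (n - l - 3) ∧ L ≤ (n + i - k - 2) ∧ L ≤ (n - l2 - 3) ∧ L ≤ (n + i3 - Q - 2) ∧ L ≤ (i + l + l2) ∧ L ≤ (n + i + l - i2 - 1))
    (hy : (0) ≤ (i) ∧ (i) ≤ (j) ∧ (j + 1) ≤ (Q) ∧ (Q) ≤ (k) ∧ (k + 1) ≤ (n) ∧ (Q) ≤ (i + l + 1) ∧ (k + l + 2) ≤ (n) ∧ (Q) ≤ (i2) ∧ (i2) ≤ (k + l + 1) ∧ (Q) ≤ (i + l + l2 + 2) ∧ (i + l + l2 + 3) ≤ (n) ∧ (n) ≤ (i2 + l2 + 1) ∧ (i2 + l2 + 2) ≤ (n + Q) ∧ (0) ≤ (i3) ∧ (n + i3) ≤ (i2 + l2 + 1) ∧ (j + 3) ≤ (n) ∧ (k + 3) ≤ (n + Q) ∧ (l + 3) ≤ (n) ∧ (k + 2) ≤ (n + i) ∧ (l2 + 3) ≤ (n) ∧ (Q + 2) ≤ (n + i3) ∧ (0) ≤ (i + l + l2) ∧ (i2 + 1) ≤ (n + i + l))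
    (a1 : Par W (0) (j) (k - j))
    (a2 : Par W (Q + j - k) (j) (k - j))
    (s1 : Ant W (0) (i) (i + j))
    (s2 : Ant W (j + 1) (Q) (i + j))
    (b : Par W (i + 1) (i + l + 1) (k - i))
    (tt : Ant W (k + l + 2) (n) (k + l + i2 + 1))
    (c : Par W (i2 + 1) (i2 + l2 + 1) (i + l - i2 + 1))
    (u1 : Ant W (0) (i3) (i2 + l2 + i3 - n + 1))
    (u2 : Ant W (i2 + l2 - n + 2) (Q) (i2 + l2 + i3 - n + 1))
    (d1 : Par W (i3 + 1) (Q) (i + l + l2 - i3 + 2))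
    (d2 : Par W (i + l + l2 + 3) (n) (i3 - i - l - l2 - 2))
    (n1 : Nd W (j) (i) (k))
    (n2 : Nd W (k + l + 1) (i2) (i + l + 1))
    (n3 : Nd W (i2 + l2 - n + 1) (i3) (i + l + l2 + 2)) : False :=
  hx (Rf W Q) n Q (Q - 2 - i2 - l2 + n) (Q - 1 - i3) (Q - 3 - i - l - l2 + n) (Q - 1 - i2 + n)
    (Q - 2 - i - l + n) (Q - 2 - k - l + n) (Q - 1 - j) (Q - 1 - i) (Q - 1 - k + n) al.rf (by omega)
    (d1.rf al 0 1 (by omega)) (d2.rg al 0 1 (by omega)) (u2.rf al 0 0 (by omega))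
    (u1.rf al 0 0 (by omega)) (c.rf al (-1) 0 (by omega)) (tt.rf al (-1) 2 (by omega))
    (b.rg al (-1) 0 (by omega)) (s2.rf al 0 0 (by omega)) (s1.rf al 0 0 (by omega))
    (a1.rf al 0 1 (by omega)) (a2.rg al (-1) (-1) (by omega)) (n3.rf al 0 0 1 (by omega))
    (n2.rf al 1 1 1 (by omega)) (n1.rf al 0 0 1 (by omega))

theorem stL2_of (hx : L2x G) : StL2 G := by
  intro W n Q i j k l p q s e s' e' i2 j2 k2 l2 p3 q3 i3 j3 k3 s3 e3 s4 e4 al lf ps jk h1 h2 n2 tt c pq h3 h4 h5 h6 j3c h7 h8 n3 u1 u2 d1 d2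
  obtain ⟨L, lm⟩ := al.lm (by have := lf.nd.p2; have := lf.i0; have := lf.ij; have := lf.jQ; have := lf.Qk; have := lf.kn; omega)
  have hL := lm.leaf al lf
  have l0 := lm.l0
  obtain ⟨-, hM⟩ := lm.mbd al lf ps jk h1 h2 c pq h3 h4 h5 h6 j3c h7 h8 n3 u1 d1 d2
  obtain ⟨i0, ij, jQ, Qk, kn, n1, a1, a2, s1, s2, b, rfl, lk⟩ := lf
  have q0 := al.q0
  have qn := al.qn
  unfold Pts at ps
  rcases lk with ⟨e1, e2, rfl, _, _⟩ | ⟨e1, e2, rfl, _, _⟩ <;> rcases jk with ⟨rfl, rfl⟩ | ⟨rfl, rfl⟩ <;>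
    rcases tt with tt | tt <;> rcases pq with ⟨rfl, rfl⟩ | ⟨rfl, rfl⟩ <;>
    rcases j3c with ⟨rfl, rfl, rfl, rfl, rfl, rfl⟩ | ⟨rfl, rfl, rfl, rfl, rfl, rfl⟩
  · exact l2_00000 (i := i) (j := j) (k := k) (l := l) (i2 := i2) (l2 := l2) (i3 := i3) al lm.mx (by omega) (by omega) (a1.cq (by omega)) (a2.cq (by omega)) (s1.cq (by omega)) (s2.cq (by omega)) (b.cq (by omega)) (tt.cq (by omega)) (c.cq (by omega)) (u1.cq (by omega)) (u2.cq (by omega)) (d1.cq (by omega)) (d2.cq (by omega)) (n1.cq (by omega)) (n2.cq (by omega)) (n3.cq (by omega))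
  · exact l2_00001 hx (i := i) (j := j) (k := k) (l := l) (i2 := i2) (l2 := l2) (i3 := i3) al lm.mx (by omega) (by omega) (a1.cq (by omega)) (a2.cq (by omega)) (s1.cq (by omega)) (s2.cq (by omega)) (b.cq (by omega)) (tt.cq (by omega)) (c.cq (by omega)) (u1.cq (by omega)) (u2.cq (by omega)) (d1.cq (by omega)) (d2.cq (by omega)) (n1.cq (by omega)) (n2.cq (by omega)) (n3.cq (by omega))
  · exact l2_00010 (i := i) (j := j) (k := k) (l := l) (i2 := i2) (l2 := l2) (i3 := i3) al lm.mx (by omega) (by omega) (a1.cq (by omega)) (a2.cq (by omega)) (s1.cq (by omega)) (s2.cq (by omega)) (b.cq (by omega)) (tt.cq (by omega)) (c.cq (by omega)) (u1.cq (by omega)) (u2.cq (by omega)) (d1.cq (by omega)) (d2.cq (by omega)) (n1.cq (by omega)) (n2.cq (by omega)) (n3.cq (by omega))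
  · exact l2_00011 (i := i) (j := j) (k := k) (l := l) (i2 := i2) (l2 := l2) (i3 := i3) al lm.mx (by omega) (by omega) (a1.cq (by omega)) (a2.cq (by omega)) (s1.cq (by omega)) (s2.cq (by omega)) (b.cq (by omega)) (tt.cq (by omega)) (c.cq (by omega)) (u1.cq (by omega)) (u2.cq (by omega)) (d1.cq (by omega)) (d2.cq (by omega)) (n1.cq (by omega)) (n2.cq (by omega)) (n3.cq (by omega))
  · exact l2_00100 (i := i) (j := j) (k := k) (l := l) (i2 := i2) (l2 := l2) (i3 := i3) al lm.mx (by omega) (by omega) (a1.cq (by omega)) (a2.cq (by omega)) (s1.cq (by omega)) (s2.cq (by omega)) (b.cq (by omega)) (tt.cq (by omega)) (c.cq (by omega)) (u1.cq (by omega)) (u2.cq (by omega)) (d1.cq (by omega)) (d2.cq (by omega)) (n1.cq (by omega)) (n2.cq (by omega)) (n3.cq (by omega))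
  · exact l2_00101 (i := i) (j := j) (k := k) (l := l) (i2 := i2) (l2 := l2) (i3 := i3) al lm.mx (by omega) (by omega) (a1.cq (by omega)) (a2.cq (by omega)) (s1.cq (by omega)) (s2.cq (by omega)) (b.cq (by omega)) (tt.cq (by omega)) (c.cq (by omega)) (u1.cq (by omega)) (u2.cq (by omega)) (d1.cq (by omega)) (d2.cq (by omega)) (n1.cq (by omega)) (n2.cq (by omega)) (n3.cq (by omega))
  · exact l2_00110 (i := i) (j := j) (k := k) (l := l) (i2 := i2) (l2 := l2) (i3 := i3) al lm.mx (by omega) (by omega) (a1.cq (by omega)) (a2.cq (by omega)) (s1.cq (by omega)) (s2.cq (by omega)) (b.cq (by omega)) (tt.cq (by omega)) (c.cq (by omega)) (u1.cq (by omega)) (u2.cq (by omega)) (d1.cq (by omega)) (d2.cq (by omega)) (n1.cq (by omega)) (n2.cq (by omega)) (n3.cq (by omega))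
  · exact l2_00111 (i := i) (j := j) (k := k) (l := l) (i2 := i2) (l2 := l2) (i3 := i3) al lm.mx (by omega) (by omega) (a1.cq (by omega)) (a2.cq (by omega)) (s1.cq (by omega)) (s2.cq (by omega)) (b.cq (by omega)) (tt.cq (by omega)) (c.cq (by omega)) (u1.cq (by omega)) (u2.cq (by omega)) (d1.cq (by omega)) (d2.cq (by omega)) (n1.cq (by omega)) (n2.cq (by omega)) (n3.cq (by omega))
  · exact l2_01000 (i := i) (j := j) (k := k) (l := l) (i2 := i2) (l2 := l2) (i3 := i3) al lm.mx (by omega) (by omega) (a1.cq (by omega)) (a2.cq (by omega)) (s1.cq (by omega)) (s2.cq (by omega)) (b.cq (by omega)) (tt.cq (by omega)) (c.cq (by omega)) (u1.cq (by omega)) (u2.cq (by omega)) (d1.cq (by omega)) (d2.cq (by omega)) (n1.cq (by omega)) (n2.cq (by omega)) (n3.cq (by omega))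
  · exact l2_01001 (i := i) (j := j) (k := k) (l := l) (i2 := i2) (l2 := l2) (i3 := i3) al lm.mx (by omega) (by omega) (a1.cq (by omega)) (a2.cq (by omega)) (s1.cq (by omega)) (s2.cq (by omega)) (b.cq (by omega)) (tt.cq (by omega)) (c.cq (by omega)) (u1.cq (by omega)) (u2.cq (by omega)) (d1.cq (by omega)) (d2.cq (by omega)) (n1.cq (by omega)) (n2.cq (by omega)) (n3.cq (by omega))
  · exact l2_01010 (i := i) (j := j) (k := k) (l := l) (i2 := i2) (l2 := l2) (i3 := i3) al lm.mx (by omega) (by omega) (a1.cq (by omega)) (a2.cq (by omega)) (s1.cq (by omega)) (s2.cq (by omega)) (b.cq (by omega)) (tt.cq (by omega)) (c.cq (by omega)) (u1.cq (by omega)) (u2.cq (by omega)) (d1.cq (by omega)) (d2.cq (by omega)) (n1.cq (by omega)) (n2.cq (by omega)) (n3.cq (by omega))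
  · exact l2_01011 (i := i) (j := j) (k := k) (l := l) (i2 := i2) (l2 := l2) (i3 := i3) al lm.mx (by omega) (by omega) (a1.cq (by omega)) (a2.cq (by omega)) (s1.cq (by omega)) (s2.cq (by omega)) (b.cq (by omega)) (tt.cq (by omega)) (c.cq (by omega)) (u1.cq (by omega)) (u2.cq (by omega)) (d1.cq (by omega)) (d2.cq (by omega)) (n1.cq (by omega)) (n2.cq (by omega)) (n3.cq (by omega))
  · exact l2_01100 (i := i) (j := j) (k := k) (l := l) (i2 := i2) (l2 := l2) (i3 := i3) al lm.mx (by omega) (by omega) (a1.cq (by omega)) (a2.cq (by omega)) (s1.cq (by omega)) (s2.cq (by omega)) (b.cq (by omega)) (tt.cq (by omega)) (c.cq (by omega)) (u1.cq (by omega)) (u2.cq (by omega)) (d1.cq (by omega)) (d2.cq (by omega)) (n1.cq (by omega)) (n2.cq (by omega)) (n3.cq (by omega))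
  · exact l2_01101 (i := i) (j := j) (k := k) (l := l) (i2 := i2) (l2 := l2) (i3 := i3) al lm.mx (by omega) (by omega) (a1.cq (by omega)) (a2.cq (by omega)) (s1.cq (by omega)) (s2.cq (by omega)) (b.cq (by omega)) (tt.cq (by omega)) (c.cq (by omega)) (u1.cq (by omega)) (u2.cq (by omega)) (d1.cq (by omega)) (d2.cq (by omega)) (n1.cq (by omega)) (n2.cq (by omega)) (n3.cq (by omega))
  · exact l2_01110 (i := i) (j := j) (k := k) (l := l) (i2 := i2) (l2 := l2) (i3 := i3) al lm.mx (by omega) (by omega) (a1.cq (by omega)) (a2.cq (by omega)) (s1.cq (by omega)) (s2.cq (by omega)) (b.cq (by omega)) (tt.cq (by omega)) (c.cq (by omega)) (u1.cq (by omega)) (u2.cq (by omega)) (d1.cq (by omega)) (d2.cq (by omega)) (n1.cq (by omega)) (n2.cq (by omega)) (n3.cq (by omega))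
  · exact l2_01111 hx (i := i) (j := j) (k := k) (l := l) (i2 := i2) (l2 := l2) (i3 := i3) al lm.mx (by omega) (by omega) (a1.cq (by omega)) (a2.cq (by omega)) (s1.cq (by omega)) (s2.cq (by omega)) (b.cq (by omega)) (tt.cq (by omega)) (c.cq (by omega)) (u1.cq (by omega)) (u2.cq (by omega)) (d1.cq (by omega)) (d2.cq (by omega)) (n1.cq (by omega)) (n2.cq (by omega)) (n3.cq (by omega))
  · exact l2_10000 (i := i) (j := j) (k := k) (l := l) (i2 := i2) (l2 := l2) (i3 := i3) al lm.mx (by omega) (by omega) (a1.cq (by omega)) (a2.cq (by omega)) (s1.cq (by omega)) (s2.cq (by omega)) (b.cq (by omega)) (tt.cq (by omega)) (c.cq (by omega)) (u1.cq (by omega)) (u2.cq (by omega)) (d1.cq (by omega)) (d2.cq (by omega)) (n1.cq (by omega)) (n2.cq (by omega)) (n3.cq (by omega))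
  · exact l2_10001 (i := i) (j := j) (k := k) (l := l) (i2 := i2) (l2 := l2) (i3 := i3) al lm.mx (by omega) (by omega) (a1.cq (by omega)) (a2.cq (by omega)) (s1.cq (by omega)) (s2.cq (by omega)) (b.cq (by omega)) (tt.cq (by omega)) (c.cq (by omega)) (u1.cq (by omega)) (u2.cq (by omega)) (d1.cq (by omega)) (d2.cq (by omega)) (n1.cq (by omega)) (n2.cq (by omega)) (n3.cq (by omega))
  · exact l2_10010 (i := i) (j := j) (k := k) (l := l) (i2 := i2) (l2 := l2) (i3 := i3) al lm.mx (by omega) (by omega) (a1.cq (by omega)) (a2.cq (by omega)) (s1.cq (by omega)) (s2.cq (by omega)) (b.cq (by omega)) (tt.cq (by omega)) (c.cq (by omega)) (u1.cq (by omega)) (u2.cq (by omega)) (d1.cq (by omega)) (d2.cq (by omega)) (n1.cq (by omega)) (n2.cq (by omega)) (n3.cq (by omega))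
  · exact l2_10011 (i := i) (j := j) (k := k) (l := l) (i2 := i2) (l2 := l2) (i3 := i3) al lm.mx (by omega) (by omega) (a1.cq (by omega)) (a2.cq (by omega)) (s1.cq (by omega)) (s2.cq (by omega)) (b.cq (by omega)) (tt.cq (by omega)) (c.cq (by omega)) (u1.cq (by omega)) (u2.cq (by omega)) (d1.cq (by omega)) (d2.cq (by omega)) (n1.cq (by omega)) (n2.cq (by omega)) (n3.cq (by omega))
  · exact l2_10100 (i := i) (j := j) (k := k) (l := l) (i2 := i2) (l2 := l2) (i3 := i3) al lm.mx (by omega) (by omega) (a1.cq (by omega)) (a2.cq (by omega)) (s1.cq (by omega)) (s2.cq (by omega)) (b.cq (by omega)) (tt.cq (by omega)) (c.cq (by omega)) (u1.cq (by omega)) (u2.cq (by omega)) (d1.cq (by omega)) (d2.cq (by omega)) (n1.cq (by omega)) (n2.cq (by omega)) (n3.cq (by omega))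
  · exact l2_10101 (i := i) (j := j) (k := k) (l := l) (i2 := i2) (l2 := l2) (i3 := i3) al lm.mx (by omega) (by omega) (a1.cq (by omega)) (a2.cq (by omega)) (s1.cq (by omega)) (s2.cq (by omega)) (b.cq (by omega)) (tt.cq (by omega)) (c.cq (by omega)) (u1.cq (by omega)) (u2.cq (by omega)) (d1.cq (by omega)) (d2.cq (by omega)) (n1.cq (by omega)) (n2.cq (by omega)) (n3.cq (by omega))
  · exact l2_10110 (i := i) (j := j) (k := k) (l := l) (i2 := i2) (l2 := l2) (i3 := i3) al lm.mx (by omega) (by omega) (a1.cq (by omega)) (a2.cq (by omega)) (s1.cq (by omega)) (s2.cq (by omega)) (b.cq (by omega)) (tt.cq (by omega)) (c.cq (by omega)) (u1.cq (by omega)) (u2.cq (by omega)) (d1.cq (by omega)) (d2.cq (by omega)) (n1.cq (by omega)) (n2.cq (by omega)) (n3.cq (by omega))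
  · exact l2_10111 (i := i) (j := j) (k := k) (l := l) (i2 := i2) (l2 := l2) (i3 := i3) al lm.mx (by omega) (by omega) (a1.cq (by omega)) (a2.cq (by omega)) (s1.cq (by omega)) (s2.cq (by omega)) (b.cq (by omega)) (tt.cq (by omega)) (c.cq (by omega)) (u1.cq (by omega)) (u2.cq (by omega)) (d1.cq (by omega)) (d2.cq (by omega)) (n1.cq (by omega)) (n2.cq (by omega)) (n3.cq (by omega))
  · exact l2_11000 (i := i) (j := j) (k := k) (l := l) (i2 := i2) (l2 := l2) (i3 := i3) al lm.mx (by omega) (by omega) (a1.cq (by omega)) (a2.cq (by omega)) (s1.cq (by omega)) (s2.cq (by omega)) (b.cq (by omega)) (tt.cq (by omega)) (c.cq (by omega)) (u1.cq (by omega)) (u2.cq (by omega)) (d1.cq (by omega)) (d2.cq (by omega)) (n1.cq (by omega)) (n2.cq (by omega)) (n3.cq (by omega))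
  · exact l2_11001 (i := i) (j := j) (k := k) (l := l) (i2 := i2) (l2 := l2) (i3 := i3) al lm.mx (by omega) (by omega) (a1.cq (by omega)) (a2.cq (by omega)) (s1.cq (by omega)) (s2.cq (by omega)) (b.cq (by omega)) (tt.cq (by omega)) (c.cq (by omega)) (u1.cq (by omega)) (u2.cq (by omega)) (d1.cq (by omega)) (d2.cq (by omega)) (n1.cq (by omega)) (n2.cq (by omega)) (n3.cq (by omega))
  · exact l2_11010 (i := i) (j := j) (k := k) (l := l) (i2 := i2) (l2 := l2) (i3 := i3) al lm.mx (by omega) (by omega) (a1.cq (by omega)) (a2.cq (by omega)) (s1.cq (by omega)) (s2.cq (by omega)) (b.cq (by omega)) (tt.cq (by omega)) (c.cq (by omega)) (u1.cq (by omega)) (u2.cq (by omega)) (d1.cq (by omega)) (d2.cq (by omega)) (n1.cq (by omega)) (n2.cq (by omega)) (n3.cq (by omega))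
  · exact l2_11011 (i := i) (j := j) (k := k) (l := l) (i2 := i2) (l2 := l2) (i3 := i3) al lm.mx (by omega) (by omega) (a1.cq (by omega)) (a2.cq (by omega)) (s1.cq (by omega)) (s2.cq (by omega)) (b.cq (by omega)) (tt.cq (by omega)) (c.cq (by omega)) (u1.cq (by omega)) (u2.cq (by omega)) (d1.cq (by omega)) (d2.cq (by omega)) (n1.cq (by omega)) (n2.cq (by omega)) (n3.cq (by omega))
  · exact l2_11100 (i := i) (j := j) (k := k) (l := l) (i2 := i2) (l2 := l2) (i3 := i3) al lm.mx (by omega) (by omega) (a1.cq (by omega)) (a2.cq (by omega)) (s1.cq (by omega)) (s2.cq (by omega)) (b.cq (by omega)) (tt.cq (by omega)) (c.cq (by omega)) (u1.cq (by omega)) (u2.cq (by omega)) (d1.cq (by omega)) (d2.cq (by omega)) (n1.cq (by omega)) (n2.cq (by omega)) (n3.cq (by omega))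
  · exact l2_11101 (i := i) (j := j) (k := k) (l := l) (i2 := i2) (l2 := l2) (i3 := i3) al lm.mx (by omega) (by omega) (a1.cq (by omega)) (a2.cq (by omega)) (s1.cq (by omega)) (s2.cq (by omega)) (b.cq (by omega)) (tt.cq (by omega)) (c.cq (by omega)) (u1.cq (by omega)) (u2.cq (by omega)) (d1.cq (by omega)) (d2.cq (by omega)) (n1.cq (by omega)) (n2.cq (by omega)) (n3.cq (by omega))
  · exact l2_11110 (i := i) (j := j) (k := k) (l := l) (i2 := i2) (l2 := l2) (i3 := i3) al lm.mx (by omega) (by omega) (a1.cq (by omega)) (a2.cq (by omega)) (s1.cq (by omega)) (s2.cq (by omega)) (b.cq (by omega)) (tt.cq (by omega)) (c.cq (by omega)) (u1.cq (by omega)) (u2.cq (by omega)) (d1.cq (by omega)) (d2.cq (by omega)) (n1.cq (by omega)) (n2.cq (by omega)) (n3.cq (by omega))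
  · exact l2_11111 (i := i) (j := j) (k := k) (l := l) (i2 := i2) (l2 := l2) (i3 := i3) al lm.mx (by omega) (by omega) (a1.cq (by omega)) (a2.cq (by omega)) (s1.cq (by omega)) (s2.cq (by omega)) (b.cq (by omega)) (tt.cq (by omega)) (c.cq (by omega)) (u1.cq (by omega)) (u2.cq (by omega)) (d1.cq (by omega)) (d2.cq (by omega)) (n1.cq (by omega)) (n2.cq (by omega)) (n3.cq (by omega))

end Pool.Agent.MP_a38735_al.WL
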