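import Mathlib.Algebra.Group.Basic
import Mathlib.Tactic.Ring
import Mathlib.Tactic.Linarith

set_option autoImplicit false

namespace Pool.Agent.MP_a38735_al.WL

variable {G : Type*} [Group G]

/-- the letters in `[a, b)` are repeated `g` places further -/
def Par (W : ℤ → G) (a b g : ℤ) : Prop := ∀ t, a ≤ t → t < b → W (t + g) = W t

/-- the letters in `[a, b)` are inverse to their mirror images under `t ↦ c - t` -/
def Ant (W : ℤ → G) (a b c : ℤ) : Prop := ∀ t, a ≤ t → t < b → W (c - t) = (W t)⁻¹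

/-- a stacking `r` of the junctions, least at `0` and greatest at `Q`, such that no triangle that
meets an end of a certain longest parallel strip is cyclic -/
structure Sk (W : ℤ → G) (r : ℤ → ℤ) (n Q : ℤ) : Prop where
  rper : ∀ t, r (t + n) = r t
  inj : ∀ s t, r s = r t → n ∣ s - t
  mn : ∀ t, r 0 ≤ r t
  mx : ∀ t, r t ≤ r Q
  par : ∀ p q, W p = W q → (r p < r q ↔ r (p + 1) < r (q + 1))
  ant : ∀ p q, W p = (W q)⁻¹ → (r p < r (q + 1) ↔ r (p + 1) < r q)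
  lam : 2 < n → ∃ x d L, 0 ≤ L ∧ Par W x (x + L) d ∧ W (x + L) ≠ W (x + L + d) ∧
    W (x - 1) ≠ W (x - 1 + d) ∧ (∀ a b g, 0 < g → g < n → Par W a b g → b - a ≤ L) ∧
    ∀ j i k, (j - i) % 2 = 0 → (k - j) % 2 = 0 → W j * W i = W k →
      ((W j = W (x + L) ∧ W k = W (x + L + d)) ∨ (W j = W (x + L + d) ∧ W k = W (x + L)) ∨
        (W i = W (x - 1) ∧ W k = W (x - 1 + d)) ∨ (W i = W (x - 1 + d) ∧ W k = W (x - 1))) →
      ¬ (r j < r k ∧ r i < r (j + 1) ∧ r (k + 1) < r (i + 1)) ∧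
        ¬ (r k < r j ∧ r (j + 1) < r i ∧ r (i + 1) < r (k + 1))

/-- periodic word, marks at the junctions `0` and `Q`, parts `u = [0, Q)` and `v = [Q, n)` -/
structure AL (W : ℤ → G) (n Q : ℤ) : Prop where
  per : ∀ t, W (t + n) = W t
  ninv : ∀ t, W t ≠ (W t)⁻¹
  q0 : 0 < Q
  qn : Q < n
  ev : n % 2 = 0
  ubP : ∀ l, 0 < l → l < n → ¬ Par W (-l) 0 l
  ubQ : ∀ l, 0 < l → l < n → ¬ Par W (Q - l) Q l
  uqU : ∀ g, 0 < g → g < n → ¬ Par W 0 Q g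
  uqV : ∀ g, 0 < g → g < n → ¬ Par W Q n g
  auU : ∀ c, ¬ Ant W 0 Q c
  auV : ∀ c, ¬ Ant W Q n c
  tf : ∀ t (m : ℕ), 0 < m → W t ^ m ≠ 1
  stk : ∃ r, Sk W r n Q

/-- what a relation `W j * W i = W k` in a factor without 2- and 3-torsion gives -/
structure Nd (W : ℤ → G) (j i k : ℤ) : Prop where
  p1 : (j - i) % 2 = 0
  p2 : (k - j) % 2 = 0
  yz : W j ≠ W k
  xz : W i ≠ W k
  yx : W j ≠ (W i)⁻¹
  tor : ¬ (W i = W j ∧ W k = (W j)⁻¹)
  rel : W j * W i = W k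

/-- `[s, e)` is one part and `[s', e')` the other -/
def Pts (n Q s e s' e' : ℤ) : Prop :=
  (s = 0 ∧ e = Q ∧ s' = Q ∧ e' = n) ∨ (s = Q ∧ e = n ∧ s' = 0 ∧ e' = Q)

/-- odd triangle with `i ≤ j` in `u`, `k` in `v`, the strip before `j, k` cross, the antiparallel
strip through both marks, and the strip after `i, k` (of exact length `l`) through one mark;
`p, q` are the two letters after that strip, both in the part `[s, e)` -/
structure Leaf (W : ℤ → G) (n Q i j k l p q s e : ℤ) : Prop where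
  i0 : 0 ≤ i
  ij : i ≤ j
  jQ : j < Q
  Qk : Q ≤ k
  kn : k < n
  nd : Nd W j i k
  a1 : Par W 0 j (k - j)
  a2 : Par W (Q - (k - j)) j (k - j)
  s1 : Ant W 0 i (i + j)
  s2 : Ant W (j + 1) Q (i + j)
  b : Par W (i + 1) (i + 1 + l) (k - i)
  hp : p = i + 1 + l
  lk : (s = Q ∧ e = n ∧ q = k + 1 + l ∧ Q ≤ p ∧ q < n) ∨
    (s = 0 ∧ e = Q ∧ q = k + 1 + l - n ∧ p < Q ∧ 0 ≤ q)

/-- chains of length one meet an end of any longest parallel strip -/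
def StA (G : Type*) [Group G] : Prop :=
  ∀ (W : ℤ → G) (n Q i j k p q L : ℤ), AL W n Q → 0 ≤ i → i ≤ j → j < Q → Q ≤ k → k < n →
    Nd W j i k → Par W 0 j (k - j) → Par W (Q - (k - j)) j (k - j) →
    Par W (i + 1) Q (k - i) → Par W (i + 1) (n - (k - i)) (k - i) →
    0 < q - p → q - p < n → (q - p) % 2 = 0 → 0 ≤ L → Par W p (p + L) (q - p) →
    W (p + L) ≠ W (q + L) → W (p - 1) ≠ W (q - 1) →
    (∀ a g, 0 < g → g < n → ¬ Par W a (a + L + 1) g) →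
    (W j = W (p + L) ∧ W k = W (q + L)) ∨ (W j = W (q + L) ∧ W k = W (p + L)) ∨
      (W i = W (p - 1) ∧ W k = W (q - 1)) ∨ (W i = W (q - 1) ∧ W k = W (p - 1))

/-- after a leaf there is no even triangle with a doubly marked antiparallel strip and a marked
strip after it -/
def StL1 (G : Type*) [Group G] : Prop :=
  ∀ (W : ℤ → G) (n Q i j k l p q s e i2 j2 k2 : ℤ), AL W n Q → Leaf W n Q i j k l p q s e →
    ((j2 = p ∧ k2 = q) ∨ (j2 = q ∧ k2 = p)) → s ≤ i2 → i2 ≤ j2 → Nd W j2 i2 k2 →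
    Ant W s i2 (i2 + j2) → Ant W (j2 + 1) e (i2 + j2) →
    (Par W (i2 + 1) e (k2 - i2) ∨ Par W (k2 + 1) e (i2 - k2)) → False

/-- no even triangle with marked antiparallel strip between a leaf and a mirror leaf -/
def StL2 (G : Type*) [Group G] : Prop :=
  ∀ (W : ℤ → G) (n Q i j k l p q s e s' e' i2 j2 k2 l2 p3 q3 i3 j3 k3 s3 e3 s4 e4 : ℤ),
    AL W n Q → Leaf W n Q i j k l p q s e → Pts n Q s e s' e' →
    ((j2 = p ∧ k2 = q) ∨ (j2 = q ∧ k2 = p)) → s ≤ i2 → i2 ≤ j2 → Nd W j2 i2 k2 →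
    (Ant W s i2 (i2 + j2) ∨ Ant W (j2 + 1) e (i2 + j2)) →
    Par W (i2 + 1) (i2 + 1 + l2) (k2 - i2) →
    ((p3 = i2 + 1 + l2 ∧ q3 = k2 + 1 + l2 - e + s') ∨
      (p3 = k2 + 1 + l2 ∧ q3 = i2 + 1 + l2 - e + s')) →
    s ≤ p3 → p3 < e → s' ≤ q3 → q3 < e' →
    ((j3 = p3 ∧ k3 = q3 ∧ s3 = s ∧ e3 = e ∧ s4 = s' ∧ e4 = e') ∨
      (j3 = q3 ∧ k3 = p3 ∧ s3 = s' ∧ e3 = e' ∧ s4 = s ∧ e4 = e)) →
    s3 ≤ i3 → i3 ≤ j3 → Nd W j3 i3 k3 →
    Ant W s3 i3 (i3 + j3) → Ant W (j3 + 1) e3 (i3 + j3) →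
    Par W (i3 + 1) e3 (k3 - i3) → Par W (k3 + 1) e4 (i3 - k3) → False

/-- after a leaf, a triangle with `i2` in the other part and a cross strip after it; its
antiparallel strip (exact length `m`, one mark) ends in a triangle `j3, i3, k3` with `j3, i3` in
one part `[s3, e3)`.  Then the two parallel strips there are not both marked if `k3` is in that
part, and neither is cross if it is in the other part -/
def StL3 (G : Type*) [Group G] : Prop :=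
  ∀ (W : ℤ → G) (n Q i j k l p q s e s' e' i2 j2 k2 m i3 j3 k3 s3 e3 s4 e4 : ℤ),
    AL W n Q → Leaf W n Q i j k l p q s e → Pts n Q s e s' e' →
    ((j2 = p ∧ k2 = q) ∨ (j2 = q ∧ k2 = p)) → s' ≤ i2 → i2 < e' → Nd W j2 i2 k2 →
    Par W (i2 + 1) e' (k2 - i2) → Par W (k2 + 1) e (i2 - k2) →
    Ant W (i2 - m) i2 (i2 + j2) →
    ((j3 = i2 - m - 1 ∧ i3 = j2 + m + 1 - e + s' ∧ s3 = s' ∧ e3 = e' ∧ s4 = s ∧ e4 = e) ∨
      (j3 = i2 - m - 1 - s' + e ∧ i3 = j2 + m + 1 ∧ s3 = s ∧ e3 = e ∧ s4 = s' ∧ e4 = e')) →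
    s3 ≤ j3 → j3 < e3 → s3 ≤ i3 → i3 < e3 → Nd W j3 i3 k3 →
    ((s3 ≤ k3 ∧ k3 < e3 ∧ (Par W s3 j3 (k3 - j3) ∨ Par W s3 k3 (j3 - k3)) ∧
        (Par W (i3 + 1) e3 (k3 - i3) ∨ Par W (k3 + 1) e3 (i3 - k3))) ∨
      (s4 ≤ k3 ∧ k3 < e4 ∧ ((Par W s3 j3 (k3 - j3) ∧ Par W s4 k3 (j3 - k3)) ∨
        (Par W (i3 + 1) e3 (k3 - i3) ∧ Par W (k3 + 1) e4 (i3 - k3))))) → False

end Pool.Agent.MP_a38735_al.WL
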