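import Mathlib.Dynamics.PeriodicPts.Lemmas
import Mathlib.Data.Finset.Max
import Mathlib.Data.Fintype.Pigeonhole
import Mathlib.Data.Int.Interval
import Mathlib.Algebra.Order.Monoid.Unbundled.Basic
import Mathlib.Data.Multiset.OrderedMonoid
import Pool.Agent.MP_a38735_al.WL

set_option autoImplicit false

namespace Pool.Agent.MP_a38735_al.WL

open Function

theorem im_iter {S : Type*} {X : Finset S} {ψ : S → S} (hψ : ∀ x ∈ X, ψ x ∈ X) {x : S}
    (hx : x ∈ X) (m : ℕ) : ψ^[m] x ∈ X := by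
  induction m with
  | zero => exact hx
  | succ m ih => rw [iterate_succ_apply']; exact hψ _ ih

theorem im_per {S : Type*} {X : Finset S} {ψ : S → S} (hψ : ∀ x ∈ X, ψ x ∈ X) {x : S}
    (hx : x ∈ X) : ∃ m : ℕ, ψ^[m] x ∈ periodicPts ψ := by
  obtain ⟨a, b, ne, e⟩ := Finite.exists_ne_map_eq_of_infinite
    (fun m : ℕ => (⟨ψ^[m] x, im_iter hψ hx m⟩ : X))
  have e' : ψ^[a] x = ψ^[b] x := congrArg Subtype.val e
  rcases lt_or_gt_of_ne ne with h | h
  · refine ⟨a, mk_mem_periodicPts (Nat.sub_pos_of_lt h) ?_⟩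
    show ψ^[b - a] (ψ^[a] x) = ψ^[a] x
    rw [← iterate_add_apply, Nat.sub_add_cancel h.le, e']
  · refine ⟨b, mk_mem_periodicPts (Nat.sub_pos_of_lt h) ?_⟩
    show ψ^[a - b] (ψ^[b] x) = ψ^[b] x
    rw [← iterate_add_apply, Nat.sub_add_cancel h.le, e']

/-- interval map lemma: a self map of a finite set that commutes with a neighbour map and keeps a
label off a set `R` of cuts permutes the labels of a nonempty set of periodic cuts -/
theorem im {S β : Type*} (X : Finset S) (hX : X.Nonempty) (ψ nb : S → S) (ht : S → ℤ)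
    (hht : ∀ s, ht s < ht (nb s)) (ℓ : S → β) (R : S → Prop) (hψ : ∀ x ∈ X, ψ x ∈ X)
    (hR : ∀ x ∈ X, ¬ R x → nb x ∈ X ∧ ψ (nb x) = nb (ψ x) ∧ ℓ (ψ x) = ℓ x) :
    ∃ T : Finset S, T.Nonempty ∧ (∀ y ∈ T, R y ∧ y ∈ X ∧ y ∈ periodicPts ψ) ∧
      T.val.map (fun y => ℓ (ψ y)) = T.val.map ℓ := by
  classical
  let Ω := X.filter (· ∈ periodicPts ψ)
  have mΩ : ∀ x, x ∈ Ω ↔ x ∈ X ∧ x ∈ periodicPts ψ := fun x => Finset.mem_filter
  have st : ∀ x ∈ Ω, ψ x ∈ Ω := fun x hx =>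
    (mΩ _).2 ⟨hψ x ((mΩ x).1 hx).1, (bijOn_periodicPts ψ).mapsTo ((mΩ x).1 hx).2⟩
  have inj : Set.InjOn ψ Ω := fun x hx y hy e =>
    (bijOn_periodicPts ψ).injOn ((mΩ x).1 hx).2 ((mΩ y).1 hy).2 e
  have img : Ω.image ψ = Ω := by
    apply Finset.eq_of_subset_of_card_le
    · intro y hy
      obtain ⟨x, hx, rfl⟩ := Finset.mem_image.1 hy
      exact st x hx
    · exact (Finset.card_image_of_injOn inj).ge
  have mv : Ω.val.map ψ = Ω.val := by
    rw [← Finset.image_val_of_injOn inj, img]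
  have ne : Ω.Nonempty := by
    obtain ⟨x, hx⟩ := hX
    obtain ⟨m, hm⟩ := im_per hψ hx
    exact ⟨_, (mΩ _).2 ⟨im_iter hψ hx m, hm⟩⟩
  refine ⟨Ω.filter R, ?_, fun y hy => ?_, ?_⟩
  · by_contra hc
    have no : ∀ x ∈ Ω, ¬ R x := fun x hx r => hc ⟨x, Finset.mem_filter.2 ⟨hx, r⟩⟩
    obtain ⟨x, hx, mx⟩ := Finset.exists_max_image Ω ht ne
    have it : ∀ m : ℕ, ψ^[m] (nb x) = nb (ψ^[m] x) := by
      intro m
      induction m with
      | zero => rfl
      | succ m ih =>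
        have h1 := im_iter st hx m
        rw [iterate_succ_apply', iterate_succ_apply', ih,
          (hR _ ((mΩ _).1 h1).1 (no _ h1)).2.1]
    obtain ⟨m, m0, hm⟩ := ((mΩ x).1 hx).2
    have h2 : nb x ∈ Ω := by
      refine (mΩ _).2 ⟨(hR x ((mΩ x).1 hx).1 (no x hx)).1, m, m0, ?_⟩
      show ψ^[m] (nb x) = nb x
      rw [it, show ψ^[m] x = x from hm]
    exact absurd (mx _ h2) (not_le.2 (hht x))
  · obtain ⟨h1, h2⟩ := Finset.mem_filter.1 hy
    exact ⟨h2, (mΩ y).1 h1⟩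
  · have e1 : Ω.val.map (fun y => ℓ (ψ y)) = Ω.val.map ℓ := by
      conv_rhs => rw [← mv, Multiset.map_map]
      rfl
    have sp := (Multiset.filter_add_not R Ω.val).symm
    rw [sp, Multiset.map_add, Multiset.map_add] at e1
    have e2 : (Ω.val.filter fun a => ¬ R a).map (fun y => ℓ (ψ y)) =
        (Ω.val.filter fun a => ¬ R a).map ℓ := by
      refine Multiset.map_congr rfl fun y hy => ?_
      obtain ⟨h1, h2⟩ := Multiset.mem_filter.1 hy
      exact (hR y ((mΩ y).1 h1).1 h2).2.2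
    rw [e2] at e1
    exact add_right_cancel e1

/-- the form of `im` with two cuts that can be hit -/
theorem im_two {S β : Type*} (X : Finset S) (hX : X.Nonempty) (ψ nb : S → S) (ht : S → ℤ)
    (hht : ∀ s, ht s < ht (nb s)) (ℓ : S → β) (a b c : S) (hψ : ∀ x ∈ X, ψ x ∈ X ∧ ψ x ≠ c)
    (hR : ∀ x ∈ X, x ≠ a → x ≠ b → x ≠ c → nb x ∈ X ∧ ψ (nb x) = nb (ψ x) ∧ ℓ (ψ x) = ℓ x)
    (ha : ℓ (ψ a) ≠ ℓ a) (hb : ℓ (ψ b) ≠ ℓ b) : ℓ (ψ a) = ℓ b ∧ ℓ (ψ b) = ℓ a := by
  obtain ⟨T, ⟨y, hy⟩, hT, e⟩ := im X hX ψ nb ht hht ℓ (fun x => x = a ∨ x = b ∨ x = c)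
    (fun x hx => (hψ x hx).1) (fun x hx r => hR x hx (fun z => r (Or.inl z))
      (fun z => r (Or.inr (Or.inl z))) (fun z => r (Or.inr (Or.inr z))))
  have ab : ∀ y ∈ T, y = a ∨ y = b := by
    intro y hy
    obtain ⟨r, hx, m, m0, hm⟩ := hT y hy
    rcases r with r | r | r
    · exact Or.inl r
    · exact Or.inr r
    · exfalso
      obtain ⟨m, rfl⟩ := Nat.exists_eq_succ_of_ne_zero m0.ne'
      have h1 : ψ^[m + 1] y = y := hm
      rw [iterate_succ_apply'] at h1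
      exact (hψ _ (im_iter (fun x hx => (hψ x hx).1) hx m)).2 (h1.trans r)
  have nx : ∀ y ∈ T, ∃ z ∈ T, ℓ (ψ y) = ℓ z := by
    intro y hy
    have : ℓ (ψ y) ∈ T.val.map ℓ := e ▸ Multiset.mem_map_of_mem (fun y => ℓ (ψ y)) hy
    obtain ⟨z, hz, h⟩ := Multiset.mem_map.1 this
    exact ⟨z, hz, h.symm⟩
  have sa : a ∈ T → b ∈ T ∧ ℓ (ψ a) = ℓ b := fun h => by
    obtain ⟨z, hz, h1⟩ := nx a h
    rcases ab z hz with rfl | rfl
    · exact absurd h1 ha
    · exact ⟨hz, h1⟩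
  have sb : b ∈ T → a ∈ T ∧ ℓ (ψ b) = ℓ a := fun h => by
    obtain ⟨z, hz, h1⟩ := nx b h
    rcases ab z hz with rfl | rfl
    · exact ⟨hz, h1⟩
    · exact absurd h1 hb
  rcases ab y hy with rfl | rfl
  · exact ⟨(sa hy).2, (sb (sa hy).1).2⟩
  · exact ⟨(sa (sb hy).1).2, (sb hy).2⟩

/-- three arcs `[lo, x)`, `(x, y)`, `(y, hi)` are copied into the inside of `[lo, hi)` -/
theorem three_arc {β : Type*} (V : ℤ → β) (lo x y hi d1 d2 d3 : ℤ)
    (h : lo ≤ x ∧ x < y ∧ y < hi ∧ 0 < d1 ∧ x + d1 < hi ∧ lo ≤ x + d2 ∧ y + d2 < hi ∧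
      lo ≤ y + d3 ∧ d3 < 0)
    (A : ∀ t, lo ≤ t → t < x → V (t + d1) = V t) (B : ∀ t, x < t → t < y → V (t + d2) = V t)
    (C : ∀ t, y < t → t < hi → V (t + d3) = V t)
    (n1 : V (x + d1) ≠ V x) (n2 : V (x + d2) ≠ V x) (n3 : V (y + d2) ≠ V y)
    (n4 : V (y + d3) ≠ V y) :
    V (x + d1) = V y ∧ V (y + d2) = V x ∧ V (x + d2) = V y ∧ V (y + d3) = V x := by
  let ψ : ℤ → ℤ := fun t => if t ≤ x then t + d1 else if t ≤ y then t + d2 else t + d3
  have ne : (Finset.Icc lo hi).Nonempty := ⟨lo, Finset.mem_Icc.2 ⟨le_rfl, by omega⟩⟩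
  have px : ψ x = x + d1 := if_pos le_rfl
  have py : ψ y = y + d2 := by simp only [ψ]; split_ifs <;> omega
  have px' : ψ (x + 1) - 1 = x + d2 := by simp only [ψ]; split_ifs <;> omega
  have py' : ψ (y + 1) - 1 = y + d3 := by simp only [ψ]; split_ifs <;> omega
  have r := im_two (Finset.Icc lo hi) ne ψ (· + 1) id (fun s => lt_add_one s) V x y hi
    (fun t ht => by simp only [ψ, Finset.mem_Icc] at ht ⊢; split_ifs <;> omega)
    (fun t ht h1 h2 h3 => by
      simp only [ψ, Finset.mem_Icc] at ht ⊢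
      refine ⟨by omega, by split_ifs <;> omega, ?_⟩
      split_ifs
      · exact A t (by omega) (by omega)
      · exact B t (by omega) (by omega)
      · exact C t (by omega) (by omega))
    (px ▸ n1) (py ▸ n3)
  have l := im_two (Finset.Icc lo hi) ne ψ (· - 1) (fun s => -s) (fun s => by omega)
    (fun t => V (t - 1)) (x + 1) (y + 1) lo
    (fun t ht => by simp only [ψ, Finset.mem_Icc] at ht ⊢; split_ifs <;> omega)
    (fun t ht h1 h2 h3 => by
      simp only [ψ, Finset.mem_Icc] at ht ⊢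
      refine ⟨by omega, by split_ifs <;> omega, ?_⟩
      split_ifs
      · rw [← A (t - 1) (by omega) (by omega)]; congr 1; ring
      · rw [← B (t - 1) (by omega) (by omega)]; congr 1; ring
      · rw [← C (t - 1) (by omega) (by omega)]; congr 1; ring)
    (by simpa only [px', add_sub_cancel_right] using n2)
    (by simpa only [py', add_sub_cancel_right] using n4)
  simp only [px', py', add_sub_cancel_right] at l
  rw [px, py] at r
  exact ⟨r.1, r.2, l.1, l.2⟩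

variable {G : Type*} [Group G]

/-- the cases `p < Q`, `j2 = p` of `StL3` -/
theorem l3_10 {W : ℤ → G} {n Q i j k p q i2 : ℤ} (per : ∀ t, W (t + n) = W t)
    (h : 0 ≤ i ∧ 0 ≤ j ∧ j < Q ∧ Q ≤ k ∧ k < n ∧ i < p ∧ p < Q ∧ 0 ≤ q ∧ q = k + p - i - n ∧
      Q ≤ i2 ∧ i2 < n)
    (n1 : Nd W j i k) (n2 : Nd W p i2 q) (r1 : W j * W i = W k) (r2 : W p * W i2 = W q)
    (a2 : Par W (Q - (k - j)) j (k - j)) (b : Par W (i + 1) p (k - i))
    (c2 : Par W (q + 1) Q (i2 - q)) : False := by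
  have sh : ∀ s t, s = t + n → W s = W t := fun s t e => e ▸ per t
  have e1 : W (k + (n - k + j)) = W j := sh _ _ (by ring)
  have e2 : W (k + (n - k + i)) = W i := sh _ _ (by ring)
  have e3 : W (q + n + (n - k + i)) = W p := sh _ _ (by omega)
  have e4 : W (q + n + (i2 - q - n)) = W i2 := by congr 1; ring
  have r := three_arc W Q k (q + n) (Q + n) (n - k + j) (n - k + i) (i2 - q - n) (by omega)
    (fun t h1 h2 => by
      rw [sh _ (t - (k - j)) (by ring), ← a2 (t - (k - j)) (by omega) (by omega)]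
      congr 1; ring)
    (fun t h1 h2 => by
      rw [sh _ (t - (k - i)) (by ring), ← b (t - (k - i)) (by omega) (by omega)]
      congr 1; ring)
    (fun t h1 h2 => by
      rw [sh t (t - n) (by ring), ← c2 (t - n) (by omega) (by omega)]
      congr 1; ring)
    (e1 ▸ n1.yz) (e2 ▸ n1.xz) (by rw [e3, per]; exact n2.yz) (by rw [e4, per]; exact n2.xz)
  rw [e1, e2, e3, e4, per] at r
  obtain ⟨f1, f2, f3, f4⟩ := r
  refine n1.tor ⟨f3.trans f1.symm, ?_⟩
  rw [f2, f4, ← f1] at r2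
  rw [f3, ← f1] at r1
  rw [← r1] at r2 ⊢
  have : W j * W j * W j = 1 := by
    have h1 : W j * W j * W j * W j = 1 * W j := by
      rw [one_mul, mul_assoc (W j * W j)]; exact r2
    exact mul_right_cancel h1
  exact eq_inv_of_mul_eq_one_left this

end Pool.Agent.MP_a38735_al.WL
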