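import Pool.Agent.MP_a38735_al.AP

set_option autoImplicit false
set_option linter.unusedVariables false

namespace Pool.Agent.MP_a38735_al.WL.L3c10

variable {G : Type*} [Group G]

structure C (W : ℤ → G) (N Q i a b l m c d : ℤ) : Prop where
  al : AL W (2*N) Q
  a1 : Par W (0) (i + 2*a) (2*b)
  a2 : Par W (Q - 2*b) (i + 2*a) (2*b)
  s1 : Ant W (0) (i) (2*i + 2*a)
  s2 : Ant W (i + 2*a + 1) (Q) (2*i + 2*a)
  bb : Par W (i + 1) (i + l + 1) (2*a + 2*b)
  c1 : Par W (i + l + 2*c + 2) (Q) (2*a + 2*b - 2*c)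
  c2 : Par W (i + 2*a + 2*b + l + 2) (2*N) (-2*a - 2*b + 2*c)
  S2 : Ant W (i + l - m + 2*c + 1) (i + l + 2*c + 1) (2*i + 2*l + 2*c + 2)
  d1 : Par W (Q) (2*N + i + l - m + 2*c) (2*d)
  d2 : Par W (0) (2*N + i + l - m + 2*c + 2*d) (-2*d)
  n1 : Nd W (i + 2*a) (i) (i + 2*a + 2*b)
  n2 : Nd W (i + l + 1) (i + l + 2*c + 1) (i + 2*a + 2*b + l + 1)
  n3 : Nd W (2*N + i + l - m + 2*c) (i + l + m + 2) (2*N + i + l - m + 2*c + 2*d)

/-- the linear side conditions -/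
abbrev B (N Q i a b l m c d : ℤ) : Prop :=
  0 ≤ i ∧ 0 ≤ a ∧ i + 2*a + 1 ≤ Q ∧ Q ≤ i + 2*a + 2*b ∧ i + 2*a + 2*b + 1 ≤ 2*N ∧ 0 ≤ i + l + 2*c + 1 ∧ i + l + 2*c + 2 ≤ Q ∧ Q ≤ i + l + 1 ∧ i + 2*a + 2*b + l + 2 ≤ 2*N ∧ Q + m ≤ 2*N + i + l + 2*c ∧ i + l + 2*c + 1 ≤ m ∧ Q ≤ i + l + m + 2 ∧ i + l + m + 3 ≤ 2*N ∧ m ≤ 2*N + i + l + 2*c + 2*d ∧ 2*N + i + l + 2*c + 2*d + 1 ≤ Q + m

variable {W : ℤ → G} {N Q i a b l m c d U V : ℤ}

theorem T0_0 (X : C W N Q i a b l m c d) (hb : B N Q i a b l m c d)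
    (h : N + c ≤ m) :
    False := by
  obtain ⟨b1, b2, b3, b4, b5, b6, b7, b8, b9, b10, b11, b12, b13, b14, b15⟩ := hb
  have g1 := h
  have k1 : 1 ≤ N + c := by clear * - b6 b13 g1; omega
  clear * - X g1 k1
  exact X.al.ninv (-N + i + l + c + 1) (fin X.al.per (-1) _ (af X.S2 X.al.per 0 (N + i + l + c + 1) (rfl : W (-N + i + l + c + 1) = W (-N + i + l + c + 1)) (by omega)) (by omega))

theorem T0_1 (X : C W N Q i a b l m c d) (hb : B N Q i a b l m c d)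
    (h : b ≤ i) :
    False := by
  obtain ⟨b1, b2, b3, b4, b5, b6, b7, b8, b9, b10, b11, b12, b13, b14, b15⟩ := hb
  have g1 := h
  have k1 : 1 ≤ b := by clear * - b3 b4; omega
  have k2 : 1 ≤ 2*a + 3*b := by clear * - b2 b3 b4; omega
  have k3 : 1 ≤ i + 2*a := by clear * - b2 b4 b14 b15 g1; omega
  clear * - X g1 k1 k2 k3
  obtain ⟨L, hL⟩ : ∃ L : ℤ, -2*i - 2*a ≤ 2*L ∧ -2*a - 4*b + 2 ≤ 2*L ∧ 2*L + 2*(b) - 2 ≤ -2*a - 2 ∧ 2*L + 2*(b) - 2 ≤ 2*i + 2*a ∧ 2*L + 2*(b) - 2 ≤ 2*a + 4*b - 2 := ⟨((max (-2*a - 4*b + 2) (-2*i - 2*a)) + 1) / 2, by omega⟩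
  obtain ⟨R, hR1, hR2, hR⟩ := pw (A := 0) (B := i + 2*a + 2*b) (γ := b) (by omega) (fun t h1 h2 => (fin X.al.per 0 _ (pf X.a1 X.al.per 0 (2*b + t) (rfl : W (t) = W (t)) (by omega)) (by omega))) L
  exact X.al.ninv (i + a + R) (fin X.al.per 0 _ (pp hR X.al.per 0 (i + a + R) (af X.s1 X.al.per 0 (i + a - R) (rfl : W (i + a + R) = W (i + a + R)) (by omega)) (by omega)) (by omega))

theorem T0_2 (X : C W N Q i a b l m c d) (hb : B N Q i a b l m c d)
    (h : N + d ≤ m) :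
    False := by
  obtain ⟨b1, b2, b3, b4, b5, b6, b7, b8, b9, b10, b11, b12, b13, b14, b15⟩ := hb
  have g1 := h
  have k1 : N + Q + d ≤ i + l + m + 2 := by clear * - b8 g1; omega
  have k2 : 1 ≤ N + d := by clear * - b11 b14; omega
  have k3 : m + 2 ≤ 3*N + 2*c + d := by clear * - b13 b14 g1; omega
  have k4 : 2*m + 3 ≤ 5*N + 2*c + 3*d := by clear * - b11 b13 b14; omega
  have k5 : Q + m + 1 ≤ 2*N + i + l + 2*c := by clear * - b6 b8 b13; omega
  clear * - X g1 k1 k2 k3 k4 k5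
  obtain ⟨L, hL⟩ : ∃ L : ℤ, 2*N - 2*m + 2*c ≤ 2*L ∧ -6*N + 2*m - 2*c - 4*d + 4 ≤ 2*L ∧ -2*N + 2*Q - 2*i - 2*l - 2*c - 2 ≤ 2*L ∧ 2*L + 2*(N + d) - 2 ≤ 2*N + 2*c - 2 ∧ 2*L + 2*(N + d) - 2 ≤ 2*N - 2*Q + 2*i + 2*l + 2*c + 2 ∧ 2*L + 2*(N + d) - 2 ≤ 6*N - 2*m + 2*c + 4*d - 4 := ⟨((max (-2*N + 2*Q - 2*i - 2*l - 2*c - 2) (max (-6*N + 2*m - 2*c - 4*d + 4) (2*N - 2*m + 2*c))) + 1) / 2, by omega⟩
  obtain ⟨R, hR1, hR2, hR⟩ := pw (A := Q) (B := 4*N + i + l - m + 2*c + 2*d) (γ := N + d) (by omega) (fun t h1 h2 => (fin X.al.per 1 _ (pf X.d1 X.al.per 0 (2*d + t) (rfl : W (t) = W (t)) (by omega)) (by omega))) L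
  exact X.al.ninv (-N + i + l + c + R + 1) (fin X.al.per (-1) _ (pp hR X.al.per 0 (N + i + l + c + R + 1) (af X.S2 X.al.per 0 (N + i + l + c - R + 1) (rfl : W (-N + i + l + c + R + 1) = W (-N + i + l + c + R + 1)) (by omega)) (by omega)) (by omega))

theorem T0_3 (X : C W N Q i a b l m c d) (hb : B N Q i a b l m c d)
    (h : N + i + a + c + 1 ≤ Q + b ∧ a + b + l + c + 2 ≤ N) :
    False := by
  obtain ⟨b1, b2, b3, b4, b5, b6, b7, b8, b9, b10, b11, b12, b13, b14, b15⟩ := hb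
  obtain ⟨g1, g2⟩ := h
  have k1 : N + 2*i + a + c + 1 ≤ 2*Q + b := by clear * - b2 b6 b9 g1; omega
  have k2 : a + 3*b + 2*l + c + 3 ≤ 3*N := by clear * - b2 b6 b9 g2; omega
  have k3 : i + l + 2*c + 3 ≤ Q := by clear * - b2 g1 g2; omega
  have k4 : a + b + 1 ≤ N + c := by clear * - b6 b9; omega
  clear * - X g1 g2 k1 k2 k3 k4
  obtain ⟨L, hL⟩ : ∃ L : ℤ, 2*a + 2 ≤ 2*L ∧ -2*Q + 2*i + 2*a + 2 ≤ 2*L ∧ -4*N + 2*a + 4*b + 2*l + 4 ≤ 2*L ∧ 2*L + 2*(N - a - b + c) - 2 ≤ 2*Q - 2*i - 2*a - 2 ∧ 2*L + 2*(N - a - b + c) - 2 ≤ 4*N - 2*a - 4*b - 2*l - 4 := ⟨((max (-4*N + 2*a + 4*b + 2*l + 4) (max (-2*Q + 2*i + 2*a + 2) (2*a + 2))) + 1) / 2, by omega⟩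
  obtain ⟨R, hR1, hR2, hR⟩ := pw (A := i + 2*a + 2*b + l + 2) (B := 2*N + Q) (γ := N - a - b + c) (by omega) (fun t h1 h2 => (fin X.al.per 1 _ (pr X.c1 X.al.per 0 (-2*a - 2*b + 2*c + t) (rfl : W (t) = W (t)) (by omega)) (by omega))) L
  exact X.al.ninv (i + a + R) (fin X.al.per (-1) _ (pp hR X.al.per (-1) (2*N + i + a + R) (af X.s2 X.al.per 0 (i + a - R) (rfl : W (i + a + R) = W (i + a + R)) (by omega)) (by omega)) (by omega))

theorem T0_4 (X : C W N Q i a b l m c d) (hb : B N Q i a b l m c d)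
    (h : N + Q + d ≤ 2*i + 2*a + 1 ∧ m ≤ N + i + l + 2*c + d ∧ 2*a + 2*m + 1 ≤ 5*N + 2*l + 4*c + 3*d) :
    False := by
  obtain ⟨b1, b2, b3, b4, b5, b6, b7, b8, b9, b10, b11, b12, b13, b14, b15⟩ := hb
  obtain ⟨g1, g2, g3⟩ := h
  have k1 : N + d ≤ i := by clear * - b3 g1; omega
  have k2 : 2*a + m + 1 ≤ 3*N + l + 2*c + d := by clear * - b3 b12 b13 g2; omega
  have k3 : Q + d ≤ N + i := by clear * - b4 b8 b9 b15 g2; omega
  have k4 : 2*Q + d ≤ N + 2*i + 2*a + 1 := by clear * - b12 b13 g1; omega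
  have k5 : Q + m + 1 ≤ 2*N + i + l + 2*c := by clear * - b6 b8 b13; omega
  have k6 : 1 ≤ N + d := by clear * - b11 g2; omega
  clear * - X g1 g2 g3 k1 k2 k3 k4 k5 k6
  obtain ⟨L, hL⟩ : ∃ L : ℤ, 2*N - 2*i - 2*a ≤ 2*L ∧ -6*N + 2*a - 2*l + 2*m - 4*c - 4*d + 2 ≤ 2*L ∧ -2*N + 2*Q - 2*i - 2*a ≤ 2*L ∧ 2*L + 2*(N + d) - 2 ≤ 2*N - 2*a - 2 ∧ 2*L + 2*(N + d) - 2 ≤ 2*N - 2*Q + 2*i + 2*a ∧ 2*L + 2*(N + d) - 2 ≤ 6*N - 2*a + 2*l - 2*m + 4*c + 4*d - 2 := ⟨((max (-2*N + 2*Q - 2*i - 2*a) (max (-6*N + 2*a - 2*l + 2*m - 4*c - 4*d + 2) (2*N - 2*i - 2*a))) + 1) / 2, by omega⟩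
  obtain ⟨R, hR1, hR2, hR⟩ := pw (A := Q) (B := 4*N + i + l - m + 2*c + 2*d) (γ := N + d) (by omega) (fun t h1 h2 => (fin X.al.per 1 _ (pf X.d1 X.al.per 0 (2*d + t) (rfl : W (t) = W (t)) (by omega)) (by omega))) L
  exact X.al.ninv (-N + i + a + R) (fin X.al.per (-1) _ (pp hR X.al.per 0 (N + i + a + R) (af X.s1 X.al.per 0 (N + i + a - R) (rfl : W (-N + i + a + R) = W (-N + i + a + R)) (by omega)) (by omega)) (by omega))

theorem T0_7 (X : C W N Q i a b l m c d) (hb : B N Q i a b l m c d)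
    (h : i + 2*a + 2*b + l + 2 ≤ 2*N + Q + 2*d ∧ N + c + d + 1 ≤ a + b ∧ Q + 2*a + 2*b + m ≤ 4*N + i + l + 4*c + 2*d) :
    False := by
  obtain ⟨b1, b2, b3, b4, b5, b6, b7, b8, b9, b10, b11, b12, b13, b14, b15⟩ := hb
  obtain ⟨g1, g2, g3⟩ := h
  have k1 : a + b + 1 ≤ 2*N + c + d := by clear * - b11 b14 b15 g3; omega
  clear * - X g1 g2 g3 k1
  exact X.al.ubQ (-2*N + 2*a + 2*b - 2*c - 2*d) (by omega) (by omega) fun t h1 h2 => (fin X.al.per 0 _ (pr X.d1 X.al.per 1 (-2*N + 2*a + 2*b - 2*c - 2*d + t) (pf X.c1 X.al.per 0 (2*a + 2*b - 2*c + t) (rfl : W (t) = W (t)) (by omega)) (by omega)) (by omega))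

theorem T0_8 (X : C W N Q i a b l m c d) (hb : B N Q i a b l m c d)
    (h : c ≤ m + d ∧ d + 1 ≤ c) :
    False := by
  obtain ⟨b1, b2, b3, b4, b5, b6, b7, b8, b9, b10, b11, b12, b13, b14, b15⟩ := hb
  obtain ⟨g1, g2⟩ := h
  have k1 : Q + d ≤ i + l + c + 1 := by clear * - b8 g2; omega
  have k2 : m + 2 ≤ 2*N + c + d := by clear * - b13 b14; omega
  clear * - X g1 g2 k1 k2
  exact X.al.ninv (i + l + c + d + 1) (fin X.al.per 0 _ (pf X.d1 X.al.per 0 (i + l + c + d + 1) (af X.S2 X.al.per 0 (i + l + c - d + 1) (rfl : W (i + l + c + d + 1) = W (i + l + c + d + 1)) (by omega)) (by omega)) (by omega))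

theorem T0_14 (X : C W N Q i a b l m c d) (hb : B N Q i a b l m c d)
    (h : i + 2*a + 4*b + l + 2 ≤ 2*N + Q ∧ N + c + 1 ≤ a + 2*b ∧ Q + 2*b ≤ 2*N + i + 2*c) :
    False := by
  obtain ⟨b1, b2, b3, b4, b5, b6, b7, b8, b9, b10, b11, b12, b13, b14, b15⟩ := hb
  obtain ⟨g1, g2, g3⟩ := h
  have k1 : a + 2*b + 1 ≤ 2*N + c := by clear * - b6 b12 b13 g1; omega
  clear * - X g1 g2 g3 k1
  exact X.al.ubQ (-2*N + 2*a + 4*b - 2*c) (by omega) (by omega) fun t h1 h2 => (fin X.al.per 0 _ (pf X.a2 X.al.per 1 (-2*N + 2*a + 4*b - 2*c + t) (pf X.c1 X.al.per 0 (2*a + 2*b - 2*c + t) (rfl : W (t) = W (t)) (by omega)) (by omega)) (by omega))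

theorem T0_23 (X : C W N Q i a b l m c d) (hb : B N Q i a b l m c d)
    (h : b ≤ i + a ∧ a + 1 ≤ b) :
    False := by
  obtain ⟨b1, b2, b3, b4, b5, b6, b7, b8, b9, b10, b11, b12, b13, b14, b15⟩ := hb
  obtain ⟨g1, g2⟩ := h
  have k1 : 1 ≤ a + b := by clear * - b2 g2; omega
  clear * - X g1 g2 k1
  exact X.al.ninv (i + a - b) (fin X.al.per 0 _ (ar X.s1 X.al.per 0 (i + a - b) (pf X.a1 X.al.per 0 (i + a + b) (rfl : W (i + a - b) = W (i + a - b)) (by omega)) (by omega)) (by omega))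

theorem T0_25 (X : C W N Q i a b l m c d) (hb : B N Q i a b l m c d)
    (h : a + b + 1 ≤ N + d ∧ N + 2*c ≤ a + b + m + d ∧ a + b + d + 1 ≤ N + 2*c ∧ m + 2 ≤ N + a + b + d) :
    False := by
  obtain ⟨b1, b2, b3, b4, b5, b6, b7, b8, b9, b10, b11, b12, b13, b14, b15⟩ := hb
  obtain ⟨g1, g2, g3, g4⟩ := h
  have k1 : N + i + l + 2*c + d + 2 ≤ Q + a + b := by clear * - b15 g4; omega
  have k2 : Q + a + b + d ≤ N + i + l + 2*c + 1 := by clear * - b8 g3; omega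
  clear * - X g1 g2 g3 g4 k1 k2
  exact X.al.ninv (N + i - a - b + l + 2*c + d + 1) (fin X.al.per 0 _ (pf X.d1 X.al.per 0 (N + i - a - b + l + 2*c + d + 1) (af X.S2 X.al.per 1 (N + i - a - b + l + 2*c - d + 1) (pf X.c1 X.al.per 0 (N + i + a + b + l + d + 1) (rfl : W (N + i - a - b + l + 2*c + d + 1) = W (N + i - a - b + l + 2*c + d + 1)) (by omega)) (by omega)) (by omega)) (by omega))

theorem T0_26 (X : C W N Q i a b l m c d) (hb : B N Q i a b l m c d)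
    (h : N + c ≤ a + b + m ∧ a + b + c ≤ N + m + 2*d ∧ m + 2 ≤ N + a + b + c ∧ a + b + m + 2 ≤ 3*N + c + 2*d ∧ 3*a + 3*b + 1 ≤ 3*N + c + 2*d ∧ i + l + 2*c + 3 ≤ Q) :
    False := by
  obtain ⟨b1, b2, b3, b4, b5, b6, b7, b8, b9, b10, b11, b12, b13, b14, b15⟩ := hb
  obtain ⟨g1, g2, g3, g4, g5, g6⟩ := h
  have k1 : N + Q + c ≤ i + a + b + l + m + 2 := by clear * - b8 g1; omega
  have k2 : Q + m ≤ N + i + a + b + l + c := by clear * - b8 g3; omega
  have k3 : N + i + l + c + 2*d + 2 ≤ Q + a + b := by clear * - b15 g3; omega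
  have k4 : N + c + 2*d ≤ a + b := by clear * - b8 b15 g3; omega
  have k5 : a + b + 1 ≤ N + c := by clear * - b6 b9; omega
  have k6 : Q + a + b ≤ N + i + l + c + 1 := by clear * - b6 b8 b9; omega
  clear * - X g1 g2 g3 g4 g5 g6 k1 k2 k3 k4 k5 k6
  obtain ⟨L, hL⟩ : ∃ L : ℤ, -2*m + 2*c - 2*d ≤ 2*L ∧ -4*N + 2*m - 2*c - 2*d + 4 ≤ 2*L ∧ -2*Q + 2*i + 2*l + 2*c + 2*d + 4 ≤ 2*L ∧ -4*N + 4*a + 4*b - 2*c - 2*d + 2 ≤ 2*L ∧ 2*L + 2*(N - a - b + c) - 2 ≤ 2*c - 2*d - 2 ∧ 2*L + 2*(N - a - b + c) - 2 ≤ -2*Q + 2*i + 2*l + 2*c - 2*d + 2 ∧ 2*L + 2*(N - a - b + c) - 2 ≤ 4*N - 4*a - 4*b + 2*c + 2*d - 2 ∧ 2*L + 2*(N - a - b + c) - 2 ≤ 2*Q - 2*i - 2*l - 2*c - 2*d - 4 := ⟨((max (-4*N + 4*a + 4*b - 2*c - 2*d + 2) (max (-2*Q + 2*i + 2*l + 2*c + 2*d + 4) (max (-4*N + 2*m - 2*c - 2*d + 4) (-2*m + 2*c - 2*d)))) + 1) / 2, by omega⟩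
  obtain ⟨R, hR1, hR2, hR⟩ := pw (A := i + 2*a + 2*b + l + 2) (B := 2*N + Q) (γ := N - a - b + c) (by omega) (fun t h1 h2 => (fin X.al.per 1 _ (pr X.c1 X.al.per 0 (-2*a - 2*b + 2*c + t) (rfl : W (t) = W (t)) (by omega)) (by omega))) L
  exact X.al.ninv (i + l + c + d + R + 1) (fin X.al.per (-1) _ (pp hR X.al.per (-1) (2*N + i + l + c + d + R + 1) (pf X.d1 X.al.per 0 (i + l + c + d - R + 1) (af X.S2 X.al.per 0 (i + l + c - d - R + 1) (rfl : W (i + l + c + d + R + 1) = W (i + l + c + d + R + 1)) (by omega)) (by omega)) (by omega)) (by omega))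

theorem T128_i (X : C W N Q i a b l m c d) (hb : B N Q i a b l m c d) :
    ∃ U : ℤ, (0 ≤ U ∧ 2*c - 2*d ≤ 2*U ∧ 2*U < 2*c - 2*d + 2*(N + d)) ∧ Par W (Q) (4*N + i + l - m + 2*c + 2*d - 2*U) (2*U) := by
  obtain ⟨b1, b2, b3, b4, b5, b6, b7, b8, b9, b10, b11, b12, b13, b14, b15⟩ := hb
  have k1 : Q + m + 1 ≤ 2*N + i + l + 2*c := by clear * - b6 b8 b13; omega
  have k2 : 1 ≤ N + d := by clear * - b11 b14; omega
  have k3 : 1 ≤ N + c := by clear * - b6 b11 b13; omega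
  clear * - X k1 k2 k3
  exact (pwi (A := Q) (B := 4*N + i + l - m + 2*c + 2*d) (γ := N + d) (2*c - 2*d) (by omega) (fun t h1 h2 => (fin X.al.per 1 _ (pf X.d1 X.al.per 0 (2*d + t) (rfl : W (t) = W (t)) (by omega)) (by omega)))).imp
    fun _ h => ⟨h.1, h.2.cg (by omega)⟩

theorem T128_0 (X : C W N Q i a b l m c d) (hb : B N Q i a b l m c d)
    (w1 : Par W (Q) (4*N + i + l - m + 2*c + 2*d - 2*U) (2*U))
    (h : N + c ≤ m + U ∧ U + 1 ≤ N + c ∧ m + U + 2 ≤ 3*N + c + 2*d) :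
    False := by
  obtain ⟨b1, b2, b3, b4, b5, b6, b7, b8, b9, b10, b11, b12, b13, b14, b15⟩ := hb
  obtain ⟨g1, g2, g3⟩ := h
  have k1 : Q + U ≤ N + i + l + c + 1 := by clear * - b8 g2; omega
  clear * - X w1 g1 g2 g3 k1
  exact X.al.ninv (-N + i + l + c + U + 1) (fin X.al.per (-1) _ (pf w1 X.al.per 0 (N + i + l + c + U + 1) (af X.S2 X.al.per 0 (N + i + l + c - U + 1) (rfl : W (-N + i + l + c + U + 1) = W (-N + i + l + c + U + 1)) (by omega)) (by omega)) (by omega))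

theorem T128_2 (X : C W N Q i a b l m c d) (hb : B N Q i a b l m c d)
    (w1 : Par W (Q) (4*N + i + l - m + 2*c + 2*d - 2*U) (2*U))
    (h : Q + 2*U ≤ 2*N ∧ m + 2*U ≤ 2*N + i + l + 2*c + 2*d ∧ 1 ≤ U) :
    False := by
  obtain ⟨b1, b2, b3, b4, b5, b6, b7, b8, b9, b10, b11, b12, b13, b14, b15⟩ := hb
  obtain ⟨g1, g2, g3⟩ := h
  have k1 : U + 1 ≤ N := by clear * - b15 g1 g2 g3; omega
  clear * - X w1 g1 g2 g3 k1
  exact X.al.ubP (2*U) (by omega) (by omega) fun t h1 h2 => (fin X.al.per (-1) _ (pf w1 X.al.per (-1) (2*N + 2*U + t) (rfl : W (t) = W (t)) (by omega)) (by omega))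

theorem T128_3 (X : C W N Q i a b l m c d) (hb : B N Q i a b l m c d)
    (w1 : Par W (Q) (4*N + i + l - m + 2*c + 2*d - 2*U) (2*U))
    (h : i + 2*a + 2*b + 1 ≤ 2*N + Q + 2*d ∧ N + d + 1 ≤ a + b) :
    False := by
  obtain ⟨b1, b2, b3, b4, b5, b6, b7, b8, b9, b10, b11, b12, b13, b14, b15⟩ := hb
  obtain ⟨g1, g2⟩ := h
  have k1 : Q + 2*a + 2*b + m ≤ 4*N + i + l + 2*c + 2*d := by clear * - b8 b9 b14; omega
  have k2 : a + b + 1 ≤ 2*N + d := by clear * - b8 b9 b11 b14 b15; omega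
  clear * - X w1 g1 g2 b8 k1 k2
  exact X.al.ubQ (-2*N + 2*a + 2*b - 2*d) (by omega) (by omega) fun t h1 h2 => (fin X.al.per 0 _ (pr X.d1 X.al.per 1 (-2*N + 2*a + 2*b - 2*d + t) (pf X.bb X.al.per 0 (2*a + 2*b + t) (rfl : W (t) = W (t)) (by omega)) (by omega)) (by omega))

theorem T128_8 (X : C W N Q i a b l m c d) (hb : B N Q i a b l m c d)
    (w1 : Par W (Q) (4*N + i + l - m + 2*c + 2*d - 2*U) (2*U))
    (h : i + 2*a + 2*b + 1 ≤ Q + 2*U ∧ U + 1 ≤ a + b) :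
    False := by
  obtain ⟨b1, b2, b3, b4, b5, b6, b7, b8, b9, b10, b11, b12, b13, b14, b15⟩ := hb
  obtain ⟨g1, g2⟩ := h
  have k1 : Q + 2*a + 2*b + m ≤ 4*N + i + l + 2*c + 2*d := by clear * - b8 b9 b14; omega
  have k2 : a + b + 1 ≤ N + U := by clear * - b4 b8 b9 b14 b15 g1; omega
  clear * - X w1 g1 g2 b8 k1 k2
  exact X.al.ubQ (2*a + 2*b - 2*U) (by omega) (by omega) fun t h1 h2 => (fin X.al.per 0 _ (pr w1 X.al.per 0 (2*a + 2*b - 2*U + t) (pf X.bb X.al.per 0 (2*a + 2*b + t) (rfl : W (t) = W (t)) (by omega)) (by omega)) (by omega))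

theorem T128_19 (X : C W N Q i a b l m c d) (hb : B N Q i a b l m c d)
    (w1 : Par W (Q) (4*N + i + l - m + 2*c + 2*d - 2*U) (2*U))
    (h : Q + 2*d ≤ 2*c ∧ i + 2*a + 2*b + 1 ≤ 2*N + 2*c ∧ 2*N + 2*d ≤ Q + 2*a ∧ c + 1 ≤ b + d) :
    False := by
  obtain ⟨b1, b2, b3, b4, b5, b6, b7, b8, b9, b10, b11, b12, b13, b14, b15⟩ := hb
  obtain ⟨g1, g2, g3, g4⟩ := h
  have k1 : 0 ≤ i + 2*a := by clear * - b1 b2; omega
  have k2 : 2*b + m ≤ 2*N + i + l + 2*c := by clear * - b8 b9 b14 g3; omega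
  have k3 : 2*N + 2*d ≤ i + 2*a + l + 1 := by clear * - b8 g3; omega
  have k4 : b + d + 1 ≤ N + c := by clear * - b9 b12 b14 g1 g3 g4; omega
  clear * - X w1 g1 g2 g3 g4 k1 k2 k3 b9 k4
  exact X.al.ubP (2*b - 2*c + 2*d) (by omega) (by omega) fun t h1 h2 => (fin X.al.per (-1) _ (pf X.c1 X.al.per 0 (2*N + 2*b - 2*c + 2*d + t) (pr X.bb X.al.per (-1) (2*N - 2*a + 2*d + t) (pf X.d1 X.al.per 0 (2*b + 2*d + t) (pf X.a2 X.al.per 0 (2*b + t) (rfl : W (t) = W (t)) (by omega)) (by omega)) (by omega)) (by omega)) (by omega))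

theorem T128_23 (X : C W N Q i a b l m c d) (hb : B N Q i a b l m c d)
    (w1 : Par W (Q) (4*N + i + l - m + 2*c + 2*d - 2*U) (2*U))
    (h : N + i + 1 ≤ Q + b) :
    False := by
  obtain ⟨b1, b2, b3, b4, b5, b6, b7, b8, b9, b10, b11, b12, b13, b14, b15⟩ := hb
  have g1 := h
  have k1 : 2*a + b + 1 ≤ N := by clear * - b1 b8 b9 g1; omega
  have k2 : b + 1 ≤ N := by clear * - b2 b8 b9 b14 b15; omega
  have k3 : N ≤ b + l := by clear * - b8 g1; omega
  clear * - X w1 g1 k1 k2 k3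
  exact X.al.ninv (N + i - b) (fin X.al.per 0 _ (pr X.bb X.al.per (-1) (N + i - b) (af X.s2 X.al.per 0 (-N + i + 2*a + b) (rfl : W (N + i - b) = W (N + i - b)) (by omega)) (by omega)) (by omega))

theorem T128_24 (X : C W N Q i a b l m c d) (hb : B N Q i a b l m c d)
    (w1 : Par W (Q) (4*N + i + l - m + 2*c + 2*d - 2*U) (2*U))
    (h : N + c ≤ a + b + m ∧ a + b + c ≤ N + m + 2*d ∧ m + 2 ≤ N + a + b + c ∧ a + b + m + 2 ≤ 3*N + c + 2*d ∧ 3*a + 3*b + 1 ≤ 3*N + c + 2*d ∧ i + l + 2*c + 3 ≤ Q) :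
    False := by
  obtain ⟨b1, b2, b3, b4, b5, b6, b7, b8, b9, b10, b11, b12, b13, b14, b15⟩ := hb
  obtain ⟨g1, g2, g3, g4, g5, g6⟩ := h
  have k1 : N + Q + c ≤ i + a + b + l + m + 2 := by clear * - b8 g1; omega
  have k2 : Q + m ≤ N + i + a + b + l + c := by clear * - b8 g3; omega
  have k3 : N + i + l + c + 2*d + 2 ≤ Q + a + b := by clear * - b15 g3; omega
  have k4 : N + c + 2*d ≤ a + b := by clear * - b8 b15 g3; omega
  have k5 : a + b + 1 ≤ N + c := by clear * - b6 b9; omega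
  have k6 : Q + a + b ≤ N + i + l + c + 1 := by clear * - b6 b8 b9; omega
  clear * - X w1 g1 g2 g3 g4 g5 g6 k1 k2 k3 k4 k5 k6
  obtain ⟨L, hL⟩ : ∃ L : ℤ, -2*m + 2*c - 2*d ≤ 2*L ∧ -4*N + 2*m - 2*c - 2*d + 4 ≤ 2*L ∧ -2*Q + 2*i + 2*l + 2*c + 2*d + 4 ≤ 2*L ∧ -4*N + 4*a + 4*b - 2*c - 2*d + 2 ≤ 2*L ∧ 2*L + 2*(N - a - b + c) - 2 ≤ 2*c - 2*d - 2 ∧ 2*L + 2*(N - a - b + c) - 2 ≤ -2*Q + 2*i + 2*l + 2*c - 2*d + 2 ∧ 2*L + 2*(N - a - b + c) - 2 ≤ 4*N - 4*a - 4*b + 2*c + 2*d - 2 ∧ 2*L + 2*(N - a - b + c) - 2 ≤ 2*Q - 2*i - 2*l - 2*c - 2*d - 4 := ⟨((max (-4*N + 4*a + 4*b - 2*c - 2*d + 2) (max (-2*Q + 2*i + 2*l + 2*c + 2*d + 4) (max (-4*N + 2*m - 2*c - 2*d + 4) (-2*m + 2*c - 2*d)))) + 1) / 2, by omega⟩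
  obtain ⟨R, hR1, hR2, hR⟩ := pw (A := i + 2*a + 2*b + l + 2) (B := 2*N + Q) (γ := N - a - b + c) (by omega) (fun t h1 h2 => (fin X.al.per 1 _ (pr X.c1 X.al.per 0 (-2*a - 2*b + 2*c + t) (rfl : W (t) = W (t)) (by omega)) (by omega))) L
  exact X.al.ninv (i + l + c + d + R + 1) (fin X.al.per (-1) _ (pp hR X.al.per (-1) (2*N + i + l + c + d + R + 1) (pf X.d1 X.al.per 0 (i + l + c + d - R + 1) (af X.S2 X.al.per 0 (i + l + c - d - R + 1) (rfl : W (i + l + c + d + R + 1) = W (i + l + c + d + R + 1)) (by omega)) (by omega)) (by omega)) (by omega))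

theorem T128_25 (X : C W N Q i a b l m c d) (hb : B N Q i a b l m c d)
    (w1 : Par W (Q) (4*N + i + l - m + 2*c + 2*d - 2*U) (2*U))
    (h : i + 2*a + 4*b + l + 2 ≤ 2*N + Q + 2*U ∧ N + c + U + 1 ≤ a + 2*b ∧ Q + 2*a + 2*b + m ≤ 4*N + i + l + 4*c + 2*d ∧ Q + 2*b ≤ 2*N + i + 2*c + 2*U) :
    False := by
  obtain ⟨b1, b2, b3, b4, b5, b6, b7, b8, b9, b10, b11, b12, b13, b14, b15⟩ := hb
  obtain ⟨g1, g2, g3, g4⟩ := h
  have k1 : b ≤ N := by clear * - b2 b8 b15 g1 g2 g3; omega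
  have k2 : a + 2*b + 1 ≤ 2*N + c + U := by clear * - b6 b12 b13 g1; omega
  clear * - X w1 g1 g2 g3 g4 k1 k2
  exact X.al.ubQ (-2*N + 2*a + 4*b - 2*c - 2*U) (by omega) (by omega) fun t h1 h2 => (fin X.al.per 0 _ (pf X.a2 X.al.per 1 (-2*N + 2*a + 4*b - 2*c - 2*U + t) (pr w1 X.al.per 0 (2*a + 2*b - 2*c - 2*U + t) (pf X.c1 X.al.per 0 (2*a + 2*b - 2*c + t) (rfl : W (t) = W (t)) (by omega)) (by omega)) (by omega)) (by omega))

theorem T128_26 (X : C W N Q i a b l m c d) (hb : B N Q i a b l m c d)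
    (w1 : Par W (Q) (4*N + i + l - m + 2*c + 2*d - 2*U) (2*U))
    (h : 2*a + m + 1 ≤ 2*N + l + 2*c + 2*d ∧ Q + 2*U ≤ i + 2*a + 2*b ∧ 1 ≤ U) :
    False := by
  obtain ⟨b1, b2, b3, b4, b5, b6, b7, b8, b9, b10, b11, b12, b13, b14, b15⟩ := hb
  obtain ⟨g1, g2, g3⟩ := h
  have k1 : Q + 2*U ≤ 2*N + i + 2*a := by clear * - b2 b8 b9 b14 b15 g2; omega
  have k2 : 2*a + 2*b + m + 1 ≤ 4*N + l + 2*c + 2*d := by clear * - b5 b14; omega
  clear * - X w1 g1 g2 g3 k1 k2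
  exact X.n1.yz (fin X.al.per 0 _ (pf w1 X.al.per 0 (i + 2*a + 2*b) (pf X.a2 X.al.per 1 (i + 2*a + 2*b - 2*U) (pr w1 X.al.per (-1) (2*N + i + 2*a - 2*U) (rfl : W (i + 2*a) = W (i + 2*a)) (by omega)) (by omega)) (by omega)) (by omega)).symm

theorem T148_i (X : C W N Q i a b l m c d) (hb : B N Q i a b l m c d) :
    ∃ U : ℤ, (0 ≤ U ∧ -2*N + 2*a + 2*b - 2*c - 2*d ≤ 2*U ∧ 2*U < -2*N + 2*a + 2*b - 2*c - 2*d + 2*(N + d)) ∧ Par W (Q) (4*N + i + l - m + 2*c + 2*d - 2*U) (2*U) := by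
  obtain ⟨b1, b2, b3, b4, b5, b6, b7, b8, b9, b10, b11, b12, b13, b14, b15⟩ := hb
  have k1 : Q + m + 1 ≤ 2*N + i + l + 2*c := by clear * - b6 b8 b13; omega
  have k2 : 1 ≤ N + d := by clear * - b11 b14; omega
  have k3 : c + 1 ≤ a + b := by clear * - b2 b3 b4 b7 b8; omega
  clear * - X k1 k2 k3
  exact (pwi (A := Q) (B := 4*N + i + l - m + 2*c + 2*d) (γ := N + d) (-2*N + 2*a + 2*b - 2*c - 2*d) (by omega) (fun t h1 h2 => (fin X.al.per 1 _ (pf X.d1 X.al.per 0 (2*d + t) (rfl : W (t) = W (t)) (by omega)) (by omega)))).imp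
    fun _ h => ⟨h.1, h.2.cg (by omega)⟩

theorem T148_0 (X : C W N Q i a b l m c d) (hb : B N Q i a b l m c d)
    (w1 : Par W (Q) (4*N + i + l - m + 2*c + 2*d - 2*U) (2*U))
    (h : i + 2*a + 2*b + l + 2 ≤ Q + 2*U ∧ c + U + 1 ≤ a + b ∧ Q + 2*a + 2*b + m ≤ 4*N + i + l + 4*c + 2*d) :
    False := by
  obtain ⟨b1, b2, b3, b4, b5, b6, b7, b8, b9, b10, b11, b12, b13, b14, b15⟩ := hb
  obtain ⟨g1, g2, g3⟩ := h
  have k1 : a + b + 1 ≤ N + c + U := by clear * - b6 b12 b13 g1; omega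
  clear * - X w1 g1 g2 g3 k1
  exact X.al.ubQ (2*a + 2*b - 2*c - 2*U) (by omega) (by omega) fun t h1 h2 => (fin X.al.per 0 _ (pr w1 X.al.per 0 (2*a + 2*b - 2*c - 2*U + t) (pf X.c1 X.al.per 0 (2*a + 2*b - 2*c + t) (rfl : W (t) = W (t)) (by omega)) (by omega)) (by omega))

theorem T148_1 (X : C W N Q i a b l m c d) (hb : B N Q i a b l m c d)
    (w1 : Par W (Q) (4*N + i + l - m + 2*c + 2*d - 2*U) (2*U))
    (h : U ≤ a + b ∧ a + b ≤ U) :
    False := by
  obtain ⟨b1, b2, b3, b4, b5, b6, b7, b8, b9, b10, b11, b12, b13, b14, b15⟩ := hb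
  obtain ⟨g1, g2⟩ := h
  have k1 : m + 2*U + 2 ≤ 4*N + 2*c + 2*d := by clear * - b9 b14 g1; omega
  clear * - X w1 g1 g2 b8 k1
  exact X.n2.yz (fin X.al.per 0 _ (pf w1 X.al.per 0 (i + l + 2*U + 1) (rfl : W (i + l + 1) = W (i + l + 1)) (by omega)) (by omega)).symm

theorem T148_2 (X : C W N Q i a b l m c d) (hb : B N Q i a b l m c d)
    (w1 : Par W (Q) (4*N + i + l - m + 2*c + 2*d - 2*U) (2*U))
    (h : 2*N + Q + 2*d ≤ i + l + 1) :
    False := by
  obtain ⟨b1, b2, b3, b4, b5, b6, b7, b8, b9, b10, b11, b12, b13, b14, b15⟩ := hb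
  have g1 := h
  have k1 : m + 2 ≤ 4*N + 2*c + 2*d := by clear * - b6 b11 b13 b14; omega
  have k2 : 2*N + 2*d ≤ l := by clear * - b2 b3 g1; omega
  have k3 : 1 ≤ N + d := by clear * - b11 b14; omega
  have k4 : 2*N + Q + 2*d ≤ i + 2*a + 2*b + l + 1 := by clear * - b2 b3 b4 g1; omega
  have k5 : 2*a + 2*b + m + 2 ≤ 4*N + 2*c + 2*d := by clear * - b9 b14; omega
  clear * - X w1 g1 k1 k2 k3 k4 k5
  exact X.n2.yz (fin X.al.per 1 _ (pf X.d1 X.al.per 0 (-2*N + i + 2*a + 2*b + l + 1) (pf X.bb X.al.per 0 (-2*N + i + 2*a + 2*b + l - 2*d + 1) (pr X.d1 X.al.per 1 (-2*N + i + l - 2*d + 1) (rfl : W (i + l + 1) = W (i + l + 1)) (by omega)) (by omega)) (by omega)) (by omega)).symm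

theorem T148_9 (X : C W N Q i a b l m c d) (hb : B N Q i a b l m c d)
    (w1 : Par W (Q) (4*N + i + l - m + 2*c + 2*d - 2*U) (2*U))
    (h : i + 2*a + 2*b + 1 ≤ 2*N + Q + 2*d ∧ N + d + 1 ≤ a + b) :
    False := by
  obtain ⟨b1, b2, b3, b4, b5, b6, b7, b8, b9, b10, b11, b12, b13, b14, b15⟩ := hb
  obtain ⟨g1, g2⟩ := h
  have k1 : Q + 2*a + 2*b + m ≤ 4*N + i + l + 2*c + 2*d := by clear * - b8 b9 b14; omega
  have k2 : a + b + 1 ≤ 2*N + d := by clear * - b8 b9 b11 b14 b15; omega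
  clear * - X w1 g1 g2 b8 k1 k2
  exact X.al.ubQ (-2*N + 2*a + 2*b - 2*d) (by omega) (by omega) fun t h1 h2 => (fin X.al.per 0 _ (pr X.d1 X.al.per 1 (-2*N + 2*a + 2*b - 2*d + t) (pf X.bb X.al.per 0 (2*a + 2*b + t) (rfl : W (t) = W (t)) (by omega)) (by omega)) (by omega))

theorem T148_14 (X : C W N Q i a b l m c d) (hb : B N Q i a b l m c d)
    (w1 : Par W (Q) (4*N + i + l - m + 2*c + 2*d - 2*U) (2*U))
    (h : Q + m ≤ i + 2*b + l + 2*c ∧ 2*N + l + 2*c + 2*d + 1 ≤ 2*a + m) :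
    False := by
  obtain ⟨b1, b2, b3, b4, b5, b6, b7, b8, b9, b10, b11, b12, b13, b14, b15⟩ := hb
  obtain ⟨g1, g2⟩ := h
  have k1 : l + 2*c + 1 ≤ 2*a + m := by clear * - b11 b14 g2; omega
  have k2 : b + 1 ≤ N := by clear * - b5 b14 g2; omega
  clear * - X w1 g1 g2 k1 k2 b14
  exact X.n3.yz (fin X.al.per 0 _ (pr X.a1 X.al.per (-1) (2*N + i + l - m + 2*c + 2*d) (pf X.d1 X.al.per 0 (i + 2*b + l - m + 2*c + 2*d) (pf X.a2 X.al.per 1 (i + 2*b + l - m + 2*c) (rfl : W (2*N + i + l - m + 2*c) = W (2*N + i + l - m + 2*c)) (by omega)) (by omega)) (by omega)) (by omega)).symm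

theorem T148_26 (X : C W N Q i a b l m c d) (hb : B N Q i a b l m c d)
    (w1 : Par W (Q) (4*N + i + l - m + 2*c + 2*d - 2*U) (2*U))
    (h : i + 2*a + 2*b + 1 ≤ Q + 2*U ∧ U + 1 ≤ a + b) :
    False := by
  obtain ⟨b1, b2, b3, b4, b5, b6, b7, b8, b9, b10, b11, b12, b13, b14, b15⟩ := hb
  obtain ⟨g1, g2⟩ := h
  have k1 : Q + 2*a + 2*b + m ≤ 4*N + i + l + 2*c + 2*d := by clear * - b8 b9 b14; omega
  have k2 : a + b + 1 ≤ N + U := by clear * - b4 b8 b9 b14 b15 g1; omega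
  clear * - X w1 g1 g2 b8 k1 k2
  exact X.al.ubQ (2*a + 2*b - 2*U) (by omega) (by omega) fun t h1 h2 => (fin X.al.per 0 _ (pr w1 X.al.per 0 (2*a + 2*b - 2*U + t) (pf X.bb X.al.per 0 (2*a + 2*b + t) (rfl : W (t) = W (t)) (by omega)) (by omega)) (by omega))

theorem T148_27 (X : C W N Q i a b l m c d) (hb : B N Q i a b l m c d)
    (w1 : Par W (Q) (4*N + i + l - m + 2*c + 2*d - 2*U) (2*U))
    (h : Q + 2*d ≤ 0 ∧ m ≤ i + l + 2*c + 2*U ∧ U + 1 ≤ N + d) :
    False := by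
  obtain ⟨b1, b2, b3, b4, b5, b6, b7, b8, b9, b10, b11, b12, b13, b14, b15⟩ := hb
  obtain ⟨g1, g2, g3⟩ := h
  have k1 : d + 1 ≤ U := by clear * - b12 b13 b15 g2; omega
  clear * - X w1 g1 g2 g3 k1
  exact X.al.ubP (2*N + 2*d - 2*U) (by omega) (by omega) fun t h1 h2 => (fin X.al.per 0 _ (pf X.d1 X.al.per 0 (2*N + 2*d - 2*U + t) (pr w1 X.al.per (-1) (2*N - 2*U + t) (rfl : W (t) = W (t)) (by omega)) (by omega)) (by omega))

theorem T148_28 (X : C W N Q i a b l m c d) (hb : B N Q i a b l m c d)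
    (w1 : Par W (Q) (4*N + i + l - m + 2*c + 2*d - 2*U) (2*U))
    (h : Q + 2*U ≤ 2*N ∧ m + 2*U ≤ 2*N + i + l + 2*c + 2*d ∧ 1 ≤ U) :
    False := by
  obtain ⟨b1, b2, b3, b4, b5, b6, b7, b8, b9, b10, b11, b12, b13, b14, b15⟩ := hb
  obtain ⟨g1, g2, g3⟩ := h
  have k1 : U + 1 ≤ N := by clear * - b15 g1 g2 g3; omega
  clear * - X w1 g1 g2 g3 k1
  exact X.al.ubP (2*U) (by omega) (by omega) fun t h1 h2 => (fin X.al.per (-1) _ (pf w1 X.al.per (-1) (2*N + 2*U + t) (rfl : W (t) = W (t)) (by omega)) (by omega))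

theorem T148_29 (X : C W N Q i a b l m c d) (hb : B N Q i a b l m c d)
    (w1 : Par W (Q) (4*N + i + l - m + 2*c + 2*d - 2*U) (2*U))
    (h : Q + 2*a + 2*b + m ≤ 2*N + i + l + 4*c + 1 ∧ a + b ≤ N + c + d ∧ a + b + m + 1 ≤ 2*N + 2*c + d) :
    False := by
  obtain ⟨b1, b2, b3, b4, b5, b6, b7, b8, b9, b10, b11, b12, b13, b14, b15⟩ := hb
  obtain ⟨g1, g2, g3⟩ := h
  have k1 : 2*a + 2*b + m + 2 ≤ 2*N + 2*c := by clear * - b8 b15 g3; omega
  have k2 : c + 1 ≤ a + b := by clear * - b2 b3 b4 b7 b8; omega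
  have k3 : 2*N + 2*c + 2*d + 1 ≤ 2*a + 2*b + m := by clear * - b2 b3 b4 b8 b15; omega
  have k4 : 2*N + 4*c + 2*d ≤ 2*a + 2*b + m + 1 := by clear * - b2 b3 b4 b7 b8 b15; omega
  clear * - X w1 g1 g2 g3 k1 b11 k2 k3 k4
  exact rr1b X.al.ninv (a + b - c) (-d) (i + l + c + 1) (2*N + i - 2*a - 2*b + l - m + 4*c + 2*d + 1) (i + l + 2*c + 1) (i + l + 2*c + 1) (i + 2*a + 2*b + l + 1) (by omega) (ne' X.n2.xz X.al.per 0 0 (by omega))
    (fun t h1 h2 => (fin X.al.per 0 _ (pr X.c2 X.al.per 0 (2*a + 2*b - 2*c + t) (rfl : W (t) = W (t)) (by omega)) (by omega)))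
    (fun t h1 h2 => (fin X.al.per 0 _ (pr X.d1 X.al.per 0 (-2*d + t) (rfl : W (t) = W (t)) (by omega)) (by omega)))
    (fun t h1 h2 => (fin X.al.per 0 _ (af X.S2 X.al.per 0 (2*i + 2*l + 2*c - t + 2) (rfl : W (t) = W (t)) (by omega)) (by omega)))

theorem T148_36 (X : C W N Q i a b l m c d) (hb : B N Q i a b l m c d)
    (w1 : Par W (Q) (4*N + i + l - m + 2*c + 2*d - 2*U) (2*U))
    (h : l + c + 2 ≤ 2*a + b ∧ b + c ≤ m ∧ 1 ≤ b + c) :
    False := by
  obtain ⟨b1, b2, b3, b4, b5, b6, b7, b8, b9, b10, b11, b12, b13, b14, b15⟩ := hb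
  obtain ⟨g1, g2, g3⟩ := h
  have k1 : Q ≤ i + b + l + c + 1 := by clear * - b8 g3; omega
  clear * - X w1 g1 g2 g3 k1
  exact X.al.ninv (i - b + l + c + 1) (fin X.al.per 0 _ (ar X.S2 X.al.per 0 (i - b + l + c + 1) (pf X.a2 X.al.per 0 (i + b + l + c + 1) (rfl : W (i - b + l + c + 1) = W (i - b + l + c + 1)) (by omega)) (by omega)) (by omega))

theorem T152_i (X : C W N Q i a b l m c d) (hb : B N Q i a b l m c d)
    (w1 : Par W (Q) (4*N + i + l - m + 2*c + 2*d - 2*U) (2*U))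
    (h : 1 ≤ l) :
    ∃ V : ℤ, (0 ≤ V ∧ -2*a - 2*b - 2*d ≤ 2*V ∧ 2*V < -2*a - 2*b - 2*d + 2*(a + b)) ∧ Par W (i + 1) (i + 2*a + 2*b + l - 2*V + 1) (2*V) := by
  obtain ⟨b1, b2, b3, b4, b5, b6, b7, b8, b9, b10, b11, b12, b13, b14, b15⟩ := hb
  have g1 := h
  have k1 : 1 ≤ a + b := by clear * - b2 b3 b4; omega
  have k2 : d + 1 ≤ 0 := by clear * - b10 b15; omega
  clear * - X w1 g1 k1 k2
  exact (pwi (A := i + 1) (B := i + 2*a + 2*b + l + 1) (γ := a + b) (-2*a - 2*b - 2*d) (by omega) (fun t h1 h2 => (fin X.al.per 0 _ (pf X.bb X.al.per 0 (2*a + 2*b + t) (rfl : W (t) = W (t)) (by omega)) (by omega)))).imp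
    fun _ h => ⟨h.1, h.2.cg (by omega)⟩

theorem T152_0 (X : C W N Q i a b l m c d) (hb : B N Q i a b l m c d)
    (w1 : Par W (Q) (4*N + i + l - m + 2*c + 2*d - 2*U) (2*U))
    (w2 : Par W (i + 1) (i + 2*a + 2*b + l - 2*V + 1) (2*V))
    (h : Q + 2*U ≤ 2*N ∧ m + 2*U ≤ 4*N + i + l + 2*c + 4*d ∧ N + d + 1 ≤ U) :
    False := by
  obtain ⟨b1, b2, b3, b4, b5, b6, b7, b8, b9, b10, b11, b12, b13, b14, b15⟩ := hb
  obtain ⟨g1, g2, g3⟩ := h
  have k1 : U + 1 ≤ 2*N + d := by clear * - b12 b13 b15 g2; omega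
  clear * - X w1 w2 g1 g2 g3 k1
  exact X.al.ubP (-2*N - 2*d + 2*U) (by omega) (by omega) fun t h1 h2 => (fin X.al.per (-1) _ (pf w1 X.al.per 0 (-2*d + 2*U + t) (pr X.d1 X.al.per 0 (-2*d + t) (rfl : W (t) = W (t)) (by omega)) (by omega)) (by omega))

theorem T152_1 (X : C W N Q i a b l m c d) (hb : B N Q i a b l m c d)
    (w1 : Par W (Q) (4*N + i + l - m + 2*c + 2*d - 2*U) (2*U))
    (w2 : Par W (i + 1) (i + 2*a + 2*b + l - 2*V + 1) (2*V))
    (h : i + 2*a + 2*b + 1 ≤ 2*N + Q + 2*d ∧ N + d + 1 ≤ a + b) :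
    False := by
  obtain ⟨b1, b2, b3, b4, b5, b6, b7, b8, b9, b10, b11, b12, b13, b14, b15⟩ := hb
  obtain ⟨g1, g2⟩ := h
  have k1 : Q + 2*a + 2*b + m ≤ 4*N + i + l + 2*c + 2*d := by clear * - b8 b9 b14; omega
  have k2 : a + b + 1 ≤ 2*N + d := by clear * - b8 b9 b11 b14 b15; omega
  clear * - X w1 w2 g1 g2 b8 k1 k2
  exact X.al.ubQ (-2*N + 2*a + 2*b - 2*d) (by omega) (by omega) fun t h1 h2 => (fin X.al.per 0 _ (pr X.d1 X.al.per 1 (-2*N + 2*a + 2*b - 2*d + t) (pf X.bb X.al.per 0 (2*a + 2*b + t) (rfl : W (t) = W (t)) (by omega)) (by omega)) (by omega))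

theorem T152_2 (X : C W N Q i a b l m c d) (hb : B N Q i a b l m c d)
    (w1 : Par W (Q) (4*N + i + l - m + 2*c + 2*d - 2*U) (2*U))
    (w2 : Par W (i + 1) (i + 2*a + 2*b + l - 2*V + 1) (2*V))
    (h : i + l + 2 ≤ 2*N + Q + 2*d ∧ N + c + d + 1 ≤ 0 ∧ Q + 2*a + 2*b + m ≤ 4*N + i + l + 4*c + 2*d ∧ Q ≤ 2*N + i + l + 2*c + 2*d + 1) :
    False := by
  obtain ⟨b1, b2, b3, b4, b5, b6, b7, b8, b9, b10, b11, b12, b13, b14, b15⟩ := hb
  obtain ⟨g1, g2, g3, g4⟩ := h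
  have k1 : 0 ≤ a + b := by clear * - b2 b3 b4; omega
  have k2 : i + 1 ≤ Q := by clear * - b2 b3; omega
  have k3 : 1 ≤ 2*N + c + d := by clear * - b13 b14 b15 g4; omega
  clear * - X w1 w2 g1 g2 g3 g4 k1 k2 k3
  exact X.al.ubQ (-2*N - 2*c - 2*d) (by omega) (by omega) fun t h1 h2 => (fin X.al.per 0 _ (pr X.bb X.al.per 0 (-2*N - 2*c - 2*d + t) (pr X.d1 X.al.per 1 (-2*N + 2*a + 2*b - 2*c - 2*d + t) (pf X.c1 X.al.per 0 (2*a + 2*b - 2*c + t) (rfl : W (t) = W (t)) (by omega)) (by omega)) (by omega)) (by omega))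

theorem T152_3 (X : C W N Q i a b l m c d) (hb : B N Q i a b l m c d)
    (w1 : Par W (Q) (4*N + i + l - m + 2*c + 2*d - 2*U) (2*U))
    (w2 : Par W (i + 1) (i + 2*a + 2*b + l - 2*V + 1) (2*V))
    (h : l + c + 2 ≤ 2*a + b ∧ b + c ≤ m ∧ 1 ≤ b + c) :
    False := by
  obtain ⟨b1, b2, b3, b4, b5, b6, b7, b8, b9, b10, b11, b12, b13, b14, b15⟩ := hb
  obtain ⟨g1, g2, g3⟩ := h
  have k1 : Q ≤ i + b + l + c + 1 := by clear * - b8 g3; omega
  clear * - X w1 w2 g1 g2 g3 k1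
  exact X.al.ninv (i - b + l + c + 1) (fin X.al.per 0 _ (ar X.S2 X.al.per 0 (i - b + l + c + 1) (pf X.a2 X.al.per 0 (i + b + l + c + 1) (rfl : W (i - b + l + c + 1) = W (i - b + l + c + 1)) (by omega)) (by omega)) (by omega))

theorem T152_4 (X : C W N Q i a b l m c d) (hb : B N Q i a b l m c d)
    (w1 : Par W (Q) (4*N + i + l - m + 2*c + 2*d - 2*U) (2*U))
    (w2 : Par W (i + 1) (i + 2*a + 2*b + l - 2*V + 1) (2*V))
    (h : 2*a + m + 1 ≤ 2*N + l + 2*c + 2*d ∧ 2*N + Q + 2*d ≤ i + 2*a + 2*b) :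
    False := by
  obtain ⟨b1, b2, b3, b4, b5, b6, b7, b8, b9, b10, b11, b12, b13, b14, b15⟩ := hb
  obtain ⟨g1, g2⟩ := h
  have k1 : Q + 2*d ≤ i + 2*a := by clear * - b2 b8 b9 b14 b15 g2; omega
  have k2 : 1 ≤ N + d := by clear * - b11 b14; omega
  have k3 : 2*a + 2*b + m + 1 ≤ 4*N + l + 2*c + 2*d := by clear * - b5 b14; omega
  clear * - X w1 w2 g1 g2 k1 k2 k3
  exact X.n1.yz (fin X.al.per 1 _ (pf X.d1 X.al.per 0 (-2*N + i + 2*a + 2*b) (pf X.a2 X.al.per 1 (-2*N + i + 2*a + 2*b - 2*d) (pr X.d1 X.al.per 0 (i + 2*a - 2*d) (rfl : W (i + 2*a) = W (i + 2*a)) (by omega)) (by omega)) (by omega)) (by omega)).symm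

theorem T152_5 (X : C W N Q i a b l m c d) (hb : B N Q i a b l m c d)
    (w1 : Par W (Q) (4*N + i + l - m + 2*c + 2*d - 2*U) (2*U))
    (w2 : Par W (i + 1) (i + 2*a + 2*b + l - 2*V + 1) (2*V))
    (h : a + b + 1 ≤ U ∧ 2*N + 2*c ≤ a + b + m + U ∧ a + b + U + 1 ≤ 2*N + 2*c ∧ m + U + 2 ≤ 2*N + a + b + 2*d) :
    False := by
  obtain ⟨b1, b2, b3, b4, b5, b6, b7, b8, b9, b10, b11, b12, b13, b14, b15⟩ := hb
  obtain ⟨g1, g2, g3, g4⟩ := h
  have k1 : i + l + 2*c + U + 2 ≤ Q + a + b := by clear * - b15 g4; omega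
  have k2 : Q + a + b + U ≤ 2*N + i + l + 2*c + 1 := by clear * - b8 g3; omega
  clear * - X w1 w2 g1 g2 g3 g4 k1 k2
  exact X.al.ninv (i - a - b + l + 2*c + U + 1) (fin X.al.per (-1) _ (pf w1 X.al.per 0 (2*N + i - a - b + l + 2*c + U + 1) (af X.S2 X.al.per 1 (2*N + i - a - b + l + 2*c - U + 1) (pf X.c1 X.al.per 0 (i + a + b + l + U + 1) (rfl : W (i - a - b + l + 2*c + U + 1) = W (i - a - b + l + 2*c + U + 1)) (by omega)) (by omega)) (by omega)) (by omega))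

theorem T152_6 (X : C W N Q i a b l m c d) (hb : B N Q i a b l m c d)
    (w1 : Par W (Q) (4*N + i + l - m + 2*c + 2*d - 2*U) (2*U))
    (w2 : Par W (i + 1) (i + 2*a + 2*b + l - 2*V + 1) (2*V))
    (h : N + c ≤ m + U ∧ U + 1 ≤ N + c ∧ m + U + 2 ≤ 3*N + c + 2*d) :
    False := by
  obtain ⟨b1, b2, b3, b4, b5, b6, b7, b8, b9, b10, b11, b12, b13, b14, b15⟩ := hb
  obtain ⟨g1, g2, g3⟩ := h
  have k1 : Q + U ≤ N + i + l + c + 1 := by clear * - b8 g2; omega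
  clear * - X w1 w2 g1 g2 g3 k1
  exact X.al.ninv (-N + i + l + c + U + 1) (fin X.al.per (-1) _ (pf w1 X.al.per 0 (N + i + l + c + U + 1) (af X.S2 X.al.per 0 (N + i + l + c - U + 1) (rfl : W (-N + i + l + c + U + 1) = W (-N + i + l + c + U + 1)) (by omega)) (by omega)) (by omega))

theorem T152_7 (X : C W N Q i a b l m c d) (hb : B N Q i a b l m c d)
    (w1 : Par W (Q) (4*N + i + l - m + 2*c + 2*d - 2*U) (2*U))
    (w2 : Par W (i + 1) (i + 2*a + 2*b + l - 2*V + 1) (2*V))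
    (h : a + b + 1 ≤ N + c + d + U ∧ Q + 2*d + 2*U ≤ 0 ∧ m ≤ i + 2*a + 2*b + l ∧ m + 2*U ≤ i + 2*a + 2*b + l) :
    False := by
  obtain ⟨b1, b2, b3, b4, b5, b6, b7, b8, b9, b10, b11, b12, b13, b14, b15⟩ := hb
  obtain ⟨g1, g2, g3, g4⟩ := h
  have k1 : i + l + 2*c + 2*d + 2*U + 2 ≤ 0 := by clear * - b7 g2; omega
  have k2 : Q + 2*U ≤ 2*N := by clear * - b11 g1 g2 g4; omega
  have k3 : c + d + U + 1 ≤ a + b := by clear * - b12 b13 b15 g4; omega
  clear * - X w1 w2 g1 g2 g3 g4 k1 k2 k3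
  exact X.al.ubP (2*N - 2*a - 2*b + 2*c + 2*d + 2*U) (by omega) (by omega) fun t h1 h2 => (fin X.al.per (-1) _ (pf w1 X.al.per (-1) (4*N - 2*a - 2*b + 2*c + 2*d + 2*U + t) (pf X.d1 X.al.per 0 (2*N - 2*a - 2*b + 2*c + 2*d + t) (pf X.c2 X.al.per (-1) (2*N - 2*a - 2*b + 2*c + t) (rfl : W (t) = W (t)) (by omega)) (by omega)) (by omega)) (by omega))

theorem T152_8 (X : C W N Q i a b l m c d) (hb : B N Q i a b l m c d)
    (w1 : Par W (Q) (4*N + i + l - m + 2*c + 2*d - 2*U) (2*U))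
    (w2 : Par W (i + 1) (i + 2*a + 2*b + l - 2*V + 1) (2*V))
    (h : Q ≤ 2*b ∧ N + b + 2*d + 1 ≤ 0 ∧ 0 ≤ 2*N + i + 2*a + 2*b + 4*d) :
    False := by
  obtain ⟨b1, b2, b3, b4, b5, b6, b7, b8, b9, b10, b11, b12, b13, b14, b15⟩ := hb
  obtain ⟨g1, g2, g3⟩ := h
  have k1 : Q ≤ 2*N + 2*b + 2*d := by clear * - b11 b14 g1; omega
  have k2 : m ≤ 4*N + i + l + 2*c + 4*d := by clear * - b11 b14; omega
  have k3 : 1 ≤ 2*N + b + 2*d := by clear * - b11 b14 b15 g1; omega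
  clear * - X w1 w2 g1 g2 g3 k1 b14 k2 k3
  exact X.al.ubP (-2*N - 2*b - 4*d) (by omega) (by omega) fun t h1 h2 => (fin X.al.per 0 _ (pr X.a1 X.al.per 0 (-2*N - 2*b - 4*d + t) (pr X.d1 X.al.per 1 (-2*N - 4*d + t) (pr X.d1 X.al.per 0 (-2*d + t) (rfl : W (t) = W (t)) (by omega)) (by omega)) (by omega)) (by omega))

theorem T152_9 (X : C W N Q i a b l m c d) (hb : B N Q i a b l m c d)
    (w1 : Par W (Q) (4*N + i + l - m + 2*c + 2*d - 2*U) (2*U))
    (w2 : Par W (i + 1) (i + 2*a + 2*b + l - 2*V + 1) (2*V))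
    (h : Q + c + U ≤ i + 2*a + b ∧ 2*a + b + m + U + 1 ≤ 4*N + l + 3*c + 2*d ∧ b + l + c + 2 ≤ U) :
    False := by
  obtain ⟨b1, b2, b3, b4, b5, b6, b7, b8, b9, b10, b11, b12, b13, b14, b15⟩ := hb
  obtain ⟨g1, g2, g3⟩ := h
  have k1 : b ≤ i + c + U := by clear * - b6 g3; omega
  have k2 : c + U + 1 ≤ b := by clear * - b3 g1; omega
  have k3 : i + c + U + 1 ≤ Q + b := by clear * - b2 b3 g1; omega
  clear * - X w1 w2 g1 g2 g3 k1 k2 k3
  exact X.al.ninv (i - b + c + U) (fin X.al.per 0 _ (pr X.c1 X.al.per 0 (i - b + c + U) (pf w1 X.al.per 0 (i + 2*a + b - c + U) (af X.s1 X.al.per 0 (i + 2*a + b - c - U) (rfl : W (i - b + c + U) = W (i - b + c + U)) (by omega)) (by omega)) (by omega)) (by omega))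

theorem T152_10 (X : C W N Q i a b l m c d) (hb : B N Q i a b l m c d)
    (w1 : Par W (Q) (4*N + i + l - m + 2*c + 2*d - 2*U) (2*U))
    (w2 : Par W (i + 1) (i + 2*a + 2*b + l - 2*V + 1) (2*V))
    (h : 2*N + i + 2*a + 2*b + 2*d + 1 ≤ Q + 2*U ∧ Q + 2*a + 2*b + m ≤ 2*N + i + l + 2*c ∧ U + 1 ≤ N + a + b + d) :
    False := by
  obtain ⟨b1, b2, b3, b4, b5, b6, b7, b8, b9, b10, b11, b12, b13, b14, b15⟩ := hb
  obtain ⟨g1, g2, g3⟩ := h
  have k1 : N + d ≤ U := by clear * - b4 g1; omega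
  have k2 : a + b + d + 1 ≤ U := by clear * - b4 b11 b14 b15 g1 g2; omega
  clear * - X w1 w2 g1 g2 g3 b8 k1 k2
  exact X.al.ubQ (2*N + 2*a + 2*b + 2*d - 2*U) (by omega) (by omega) fun t h1 h2 => (fin X.al.per 0 _ (pr w1 X.al.per (-1) (2*N + 2*a + 2*b + 2*d - 2*U + t) (pf X.d1 X.al.per 0 (2*a + 2*b + 2*d + t) (pf X.bb X.al.per 0 (2*a + 2*b + t) (rfl : W (t) = W (t)) (by omega)) (by omega)) (by omega)) (by omega))

theorem T152_11 (X : C W N Q i a b l m c d) (hb : B N Q i a b l m c d)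
    (w1 : Par W (Q) (4*N + i + l - m + 2*c + 2*d - 2*U) (2*U))
    (w2 : Par W (i + 1) (i + 2*a + 2*b + l - 2*V + 1) (2*V))
    (h : N ≤ i + a + U ∧ Q + U ≤ N + i + a ∧ a + m + U + 1 ≤ 3*N + l + 2*c + 2*d) :
    False := by
  obtain ⟨b1, b2, b3, b4, b5, b6, b7, b8, b9, b10, b11, b12, b13, b14, b15⟩ := hb
  obtain ⟨g1, g2, g3⟩ := h
  have k1 : a + U + 1 ≤ N := by clear * - b3 g2; omega
  clear * - X w1 w2 g1 g2 g3 k1
  exact X.al.ninv (-N + i + a + U) (fin X.al.per (-1) _ (pf w1 X.al.per 0 (N + i + a + U) (af X.s1 X.al.per 0 (N + i + a - U) (rfl : W (-N + i + a + U) = W (-N + i + a + U)) (by omega)) (by omega)) (by omega))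

theorem T152_12 (X : C W N Q i a b l m c d) (hb : B N Q i a b l m c d)
    (w1 : Par W (Q) (4*N + i + l - m + 2*c + 2*d - 2*U) (2*U))
    (w2 : Par W (i + 1) (i + 2*a + 2*b + l - 2*V + 1) (2*V))
    (h : 2*N + Q + 4*d ≤ 0 ∧ 2*b + m + 2*d ≤ i + l + 2*c ∧ 1 ≤ N + b + 2*d) :
    False := by
  obtain ⟨b1, b2, b3, b4, b5, b6, b7, b8, b9, b10, b11, b12, b13, b14, b15⟩ := hb
  obtain ⟨g1, g2, g3⟩ := h
  have k1 : 0 ≤ i + 2*a := by clear * - b1 b2; omega
  have k2 : 2*b + m ≤ 2*N + i + l + 2*c := by clear * - b11 g2 g3; omega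
  have k3 : Q + 2*d ≤ 0 := by clear * - b12 b13 g1; omega
  have k4 : b + 2*d + 1 ≤ 0 := by clear * - b12 b13 b15 g2; omega
  clear * - X w1 w2 g1 g2 g3 k1 k2 k3 k4
  exact X.al.ubP (2*N + 2*b + 4*d) (by omega) (by omega) fun t h1 h2 => (fin X.al.per 0 _ (pf X.d1 X.al.per (-1) (2*N + 2*b + 4*d + t) (pf X.d1 X.al.per 0 (2*b + 2*d + t) (pf X.a2 X.al.per 0 (2*b + t) (rfl : W (t) = W (t)) (by omega)) (by omega)) (by omega)) (by omega))

theorem T152_13 (X : C W N Q i a b l m c d) (hb : B N Q i a b l m c d)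
    (w1 : Par W (Q) (4*N + i + l - m + 2*c + 2*d - 2*U) (2*U))
    (w2 : Par W (i + 1) (i + 2*a + 2*b + l - 2*V + 1) (2*V))
    (h : Q ≤ 2*b ∧ b + d + 1 ≤ 0 ∧ 0 ≤ i + 2*a + 2*b + 2*d) :
    False := by
  obtain ⟨b1, b2, b3, b4, b5, b6, b7, b8, b9, b10, b11, b12, b13, b14, b15⟩ := hb
  obtain ⟨g1, g2, g3⟩ := h
  have k1 : 1 ≤ N + b + d := by clear * - b11 b14 b15 g1; omega
  clear * - X w1 w2 g1 g2 g3 b14 k1
  exact X.al.ubP (-2*b - 2*d) (by omega) (by omega) fun t h1 h2 => (fin X.al.per 0 _ (pr X.a1 X.al.per 0 (-2*b - 2*d + t) (pr X.d1 X.al.per 0 (-2*d + t) (rfl : W (t) = W (t)) (by omega)) (by omega)) (by omega))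

theorem T152_14 (X : C W N Q i a b l m c d) (hb : B N Q i a b l m c d)
    (w1 : Par W (Q) (4*N + i + l - m + 2*c + 2*d - 2*U) (2*U))
    (w2 : Par W (i + 1) (i + 2*a + 2*b + l - 2*V + 1) (2*V))
    (h : Q + m ≤ i + 2*b + l + 2*c ∧ 2*N + l + 2*c + 2*d + 1 ≤ 2*a + m) :
    False := by
  obtain ⟨b1, b2, b3, b4, b5, b6, b7, b8, b9, b10, b11, b12, b13, b14, b15⟩ := hb
  obtain ⟨g1, g2⟩ := h
  have k1 : l + 2*c + 1 ≤ 2*a + m := by clear * - b11 b14 g2; omega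
  have k2 : b + 1 ≤ N := by clear * - b5 b14 g2; omega
  clear * - X w1 w2 g1 g2 k1 k2 b14
  exact X.n3.yz (fin X.al.per 0 _ (pr X.a1 X.al.per (-1) (2*N + i + l - m + 2*c + 2*d) (pf X.d1 X.al.per 0 (i + 2*b + l - m + 2*c + 2*d) (pf X.a2 X.al.per 1 (i + 2*b + l - m + 2*c) (rfl : W (2*N + i + l - m + 2*c) = W (2*N + i + l - m + 2*c)) (by omega)) (by omega)) (by omega)) (by omega)).symm

theorem T152_15 (X : C W N Q i a b l m c d) (hb : B N Q i a b l m c d)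
    (w1 : Par W (Q) (4*N + i + l - m + 2*c + 2*d - 2*U) (2*U))
    (w2 : Par W (i + 1) (i + 2*a + 2*b + l - 2*V + 1) (2*V))
    (h : Q + 2*U ≤ 2*N ∧ m + 2*U ≤ 6*N + i + l + 2*c + 6*d ∧ 2*N + 2*d + 1 ≤ U) :
    False := by
  obtain ⟨b1, b2, b3, b4, b5, b6, b7, b8, b9, b10, b11, b12, b13, b14, b15⟩ := hb
  obtain ⟨g1, g2, g3⟩ := h
  have k1 : Q + 2*U ≤ 4*N + 2*d := by clear * - b11 g1 g2 g3; omega
  have k2 : m ≤ 4*N + i + l + 2*c + 4*d := by clear * - b11 g2 g3; omega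
  have k3 : U + 1 ≤ 3*N + 2*d := by clear * - b12 b13 b15 g2; omega
  clear * - X w1 w2 g1 g2 g3 k1 k2 k3
  exact X.al.ubP (-4*N - 4*d + 2*U) (by omega) (by omega) fun t h1 h2 => (fin X.al.per (-1) _ (pf w1 X.al.per 0 (-2*N - 4*d + 2*U + t) (pr X.d1 X.al.per 1 (-2*N - 4*d + t) (pr X.d1 X.al.per 0 (-2*d + t) (rfl : W (t) = W (t)) (by omega)) (by omega)) (by omega)) (by omega))

theorem T152_16 (X : C W N Q i a b l m c d) (hb : B N Q i a b l m c d)
    (w1 : Par W (Q) (4*N + i + l - m + 2*c + 2*d - 2*U) (2*U))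
    (w2 : Par W (i + 1) (i + 2*a + 2*b + l - 2*V + 1) (2*V))
    (h : Q + m + 2*d ≤ i + l + 2*c ∧ l + 2*c + 1 ≤ 2*a + 2*b + m + 2*d ∧ 0 ≤ N + b + 2*d ∧ N + b + 2*d ≤ 0) :
    False := by
  obtain ⟨b1, b2, b3, b4, b5, b6, b7, b8, b9, b10, b11, b12, b13, b14, b15⟩ := hb
  obtain ⟨g1, g2, g3, g4⟩ := h
  have k1 : 1 ≤ N + d := by clear * - b11 b14; omega
  have k2 : 2*b + m + 2*d ≤ i + l + 2*c := by clear * - b14 g4; omega
  clear * - X w1 w2 g1 g2 g3 g4 k1 k2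
  exact X.n3.yz (fin X.al.per 0 _ (pr X.a1 X.al.per 0 (i - 2*b + l - m + 2*c - 2*d) (pr X.d1 X.al.per 1 (i + l - m + 2*c - 2*d) (rfl : W (2*N + i + l - m + 2*c) = W (2*N + i + l - m + 2*c)) (by omega)) (by omega)) (by omega)).symm

theorem T152_17 (X : C W N Q i a b l m c d) (hb : B N Q i a b l m c d)
    (w1 : Par W (Q) (4*N + i + l - m + 2*c + 2*d - 2*U) (2*U))
    (w2 : Par W (i + 1) (i + 2*a + 2*b + l - 2*V + 1) (2*V))
    (h : Q + 2*U ≤ 2*N ∧ 2*b + m + 2*U ≤ 4*N + i + l + 2*c + 2*d ∧ N + 1 ≤ b + U) :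
    False := by
  obtain ⟨b1, b2, b3, b4, b5, b6, b7, b8, b9, b10, b11, b12, b13, b14, b15⟩ := hb
  obtain ⟨g1, g2, g3⟩ := h
  have k1 : 0 ≤ i + 2*a := by clear * - b1 b2; omega
  have k2 : b + U + 1 ≤ 2*N := by clear * - b12 b13 b15 g2; omega
  clear * - X w1 w2 g1 g2 g3 k1 k2
  exact X.al.ubP (-2*N + 2*b + 2*U) (by omega) (by omega) fun t h1 h2 => (fin X.al.per (-1) _ (pf w1 X.al.per 0 (2*b + 2*U + t) (pf X.a2 X.al.per 0 (2*b + t) (rfl : W (t) = W (t)) (by omega)) (by omega)) (by omega))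

theorem T152_18 (X : C W N Q i a b l m c d) (hb : B N Q i a b l m c d)
    (w1 : Par W (Q) (4*N + i + l - m + 2*c + 2*d - 2*U) (2*U))
    (w2 : Par W (i + 1) (i + 2*a + 2*b + l - 2*V + 1) (2*V))
    (h : 2*a + b + d + 1 ≤ 0 ∧ i + 1 ≤ Q + b + d ∧ 2*a + b + m + 1 ≤ 2*N + l + 2*c + d) :
    False := by
  obtain ⟨b1, b2, b3, b4, b5, b6, b7, b8, b9, b10, b11, b12, b13, b14, b15⟩ := hb
  obtain ⟨g1, g2, g3⟩ := h
  have k1 : Q + d ≤ i + 2*a + b := by clear * - b2 b4 g1; omega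
  have k2 : b + d + 1 ≤ 0 := by clear * - b2 g1; omega
  have k3 : 0 ≤ b + l + d := by clear * - b8 g2; omega
  clear * - X w1 w2 g1 g2 g3 k1 k2 k3
  exact X.al.ninv (i - b - d) (fin X.al.per 0 _ (pr X.bb X.al.per 0 (i - b - d) (pr X.d1 X.al.per 0 (i + 2*a + b - d) (af X.s2 X.al.per 0 (i + 2*a + b + d) (rfl : W (i - b - d) = W (i - b - d)) (by omega)) (by omega)) (by omega)) (by omega))

theorem T152_19 (X : C W N Q i a b l m c d) (hb : B N Q i a b l m c d)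
    (w1 : Par W (Q) (4*N + i + l - m + 2*c + 2*d - 2*U) (2*U))
    (w2 : Par W (i + 1) (i + 2*a + 2*b + l - 2*V + 1) (2*V))
    (h : i + 1 ≤ 2*b ∧ 0 ≤ i + 2*a + 2*b + l + 2*d + 1 ∧ a + 2*b + d + 1 ≤ 0 ∧ 0 ≤ i + 4*a + 4*b + 2*d) :
    False := by
  obtain ⟨b1, b2, b3, b4, b5, b6, b7, b8, b9, b10, b11, b12, b13, b14, b15⟩ := hb
  obtain ⟨g1, g2, g3, g4⟩ := h
  have k1 : Q ≤ 2*a + 4*b := by clear * - b4 g1; omega
  have k2 : 1 ≤ N + a + 2*b + d := by clear * - b8 b9 b14 b15 g1 g4; omega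
  clear * - X w1 w2 g1 g2 g3 g4 k1 b14 k2
  exact X.al.ubP (-2*a - 4*b - 2*d) (by omega) (by omega) fun t h1 h2 => (fin X.al.per 0 _ (pr X.a1 X.al.per 0 (-2*a - 4*b - 2*d + t) (pr X.bb X.al.per 0 (-2*a - 2*b - 2*d + t) (pr X.d1 X.al.per 0 (-2*d + t) (rfl : W (t) = W (t)) (by omega)) (by omega)) (by omega)) (by omega))

theorem T152_20 (X : C W N Q i a b l m c d) (hb : B N Q i a b l m c d)
    (w1 : Par W (Q) (4*N + i + l - m + 2*c + 2*d - 2*U) (2*U))
    (w2 : Par W (i + 1) (i + 2*a + 2*b + l - 2*V + 1) (2*V))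
    (h : i + 2*a + 2*b + l + 2*c + 2*d + 2 ≤ 0 ∧ 1 ≤ N + c + d ∧ i + 2*a + 2*b + 2*d + 1 ≤ 0 ∧ 2*N + 2*c ≤ i + 2*a + 2*b + l + 1 ∧ m ≤ i + l) :
    False := by
  obtain ⟨b1, b2, b3, b4, b5, b6, b7, b8, b9, b10, b11, b12, b13, b14, b15⟩ := hb
  obtain ⟨g1, g2, g3, g4, g5⟩ := h
  have k1 : Q + 2*d ≤ 0 := by clear * - b4 g3; omega
  have k2 : c + d + 1 ≤ 0 := by clear * - b12 b13 b15 g5; omega
  clear * - X w1 w2 g1 g2 g3 g4 g5 k1 k2
  exact X.al.ubP (2*N + 2*c + 2*d) (by omega) (by omega) fun t h1 h2 => (fin X.al.per 0 _ (pf X.d1 X.al.per 0 (2*N + 2*c + 2*d + t) (pf X.bb X.al.per 0 (2*N + 2*c + t) (pf X.c2 X.al.per (-1) (2*N - 2*a - 2*b + 2*c + t) (rfl : W (t) = W (t)) (by omega)) (by omega)) (by omega)) (by omega))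

theorem T152_21 (X : C W N Q i a b l m c d) (hb : B N Q i a b l m c d)
    (w1 : Par W (Q) (4*N + i + l - m + 2*c + 2*d - 2*U) (2*U))
    (w2 : Par W (i + 1) (i + 2*a + 2*b + l - 2*V + 1) (2*V))
    (h : c + 1 ≤ b + d ∧ 2*a + b + m + 1 ≤ 2*N + l + 3*c + d ∧ b + l + c + d + 2 ≤ 0) :
    False := by
  obtain ⟨b1, b2, b3, b4, b5, b6, b7, b8, b9, b10, b11, b12, b13, b14, b15⟩ := hb
  obtain ⟨g1, g2, g3⟩ := h
  have k1 : b + d ≤ i + c := by clear * - b6 g3; omega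
  have k2 : Q + c + d ≤ i + 2*a + b := by clear * - b2 b4 b8 b15 g1 g2 g3; omega
  have k3 : i + c + 1 ≤ Q + b + d := by clear * - b2 b15 g1 g2; omega
  clear * - X w1 w2 g1 g2 g3 k1 k2 k3
  exact X.al.ninv (i - b + c - d) (fin X.al.per 0 _ (pr X.c1 X.al.per 0 (i - b + c - d) (pr X.d1 X.al.per 0 (i + 2*a + b - c - d) (af X.s1 X.al.per 0 (i + 2*a + b - c + d) (rfl : W (i - b + c - d) = W (i - b + c - d)) (by omega)) (by omega)) (by omega)) (by omega))

theorem T152_22 (X : C W N Q i a b l m c d) (hb : B N Q i a b l m c d)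
    (w1 : Par W (Q) (4*N + i + l - m + 2*c + 2*d - 2*U) (2*U))
    (w2 : Par W (i + 1) (i + 2*a + 2*b + l - 2*V + 1) (2*V))
    (h : i + l + 2*c + 2 ≤ 2*b ∧ a + 2*b + 1 ≤ N + c ∧ 2*N + 2*c ≤ i + 4*a + 4*b) :
    False := by
  obtain ⟨b1, b2, b3, b4, b5, b6, b7, b8, b9, b10, b11, b12, b13, b14, b15⟩ := hb
  obtain ⟨g1, g2, g3⟩ := h
  have k1 : c + 1 ≤ a + 2*b := by clear * - b5 b6 g1 g3; omega
  clear * - X w1 w2 g1 g2 g3 k1
  exact X.al.ubP (2*N - 2*a - 4*b + 2*c) (by omega) (by omega) fun t h1 h2 => (fin X.al.per 0 _ (pr X.a1 X.al.per 0 (2*N - 2*a - 4*b + 2*c + t) (pf X.c2 X.al.per (-1) (2*N - 2*a - 2*b + 2*c + t) (rfl : W (t) = W (t)) (by omega)) (by omega)) (by omega))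

theorem T152_23 (X : C W N Q i a b l m c d) (hb : B N Q i a b l m c d)
    (w1 : Par W (Q) (4*N + i + l - m + 2*c + 2*d - 2*U) (2*U))
    (w2 : Par W (i + 1) (i + 2*a + 2*b + l - 2*V + 1) (2*V))
    (h : 0 ≤ 2*N + Q + 4*d ∧ Q + m ≤ 2*N + i + 2*b + l + 2*c + 2*d ∧ N + b + 2*d + 1 ≤ 0) :
    False := by
  obtain ⟨b1, b2, b3, b4, b5, b6, b7, b8, b9, b10, b11, b12, b13, b14, b15⟩ := hb
  obtain ⟨g1, g2, g3⟩ := h
  have k1 : 0 ≤ N + d := by clear * - b12 b13 g1; omega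
  have k2 : 1 ≤ 2*N + b + 2*d := by clear * - b12 b13 b15 g1 g2; omega
  clear * - X w1 w2 g1 g2 g3 b4 k1 k2
  exact X.al.ubQ (-2*N - 2*b - 4*d) (by omega) (by omega) fun t h1 h2 => (fin X.al.per 0 _ (pr X.d1 X.al.per 1 (-2*N - 2*b - 4*d + t) (pr X.d1 X.al.per 0 (-2*b - 2*d + t) (pr X.a1 X.al.per 0 (-2*b + t) (rfl : W (t) = W (t)) (by omega)) (by omega)) (by omega)) (by omega))

theorem T152_24 (X : C W N Q i a b l m c d) (hb : B N Q i a b l m c d)
    (w1 : Par W (Q) (4*N + i + l - m + 2*c + 2*d - 2*U) (2*U))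
    (w2 : Par W (i + 1) (i + 2*a + 2*b + l - 2*V + 1) (2*V))
    (h : i + 2*c + 2*U + 1 ≤ Q ∧ Q + 2*a + 2*b + 2*U ≤ 2*N ∧ 1 ≤ c + U) :
    False := by
  obtain ⟨b1, b2, b3, b4, b5, b6, b7, b8, b9, b10, b11, b12, b13, b14, b15⟩ := hb
  obtain ⟨g1, g2, g3⟩ := h
  have k1 : c + U ≤ a + b := by clear * - b4 g1; omega
  have k2 : Q + 2*a + 2*b + m + 2*U ≤ 4*N + i + l + 2*c + 2*d := by clear * - b14 g2; omega
  have k3 : c + U + 1 ≤ N := by clear * - b4 b8 b11 b13 b14 b15 g1 g2; omega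
  clear * - X w1 w2 g1 g2 g3 b8 k1 k2 b7 k3
  exact X.al.ubQ (2*c + 2*U) (by omega) (by omega) fun t h1 h2 => (fin X.al.per 0 _ (pf X.c2 X.al.per 0 (2*c + 2*U + t) (pf w1 X.al.per 0 (2*a + 2*b + 2*U + t) (pf X.bb X.al.per 0 (2*a + 2*b + t) (rfl : W (t) = W (t)) (by omega)) (by omega)) (by omega)) (by omega))

theorem T152_25 (X : C W N Q i a b l m c d) (hb : B N Q i a b l m c d)
    (w1 : Par W (Q) (4*N + i + l - m + 2*c + 2*d - 2*U) (2*U))
    (w2 : Par W (i + 1) (i + 2*a + 2*b + l - 2*V + 1) (2*V))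
    (h : Q + 2*d ≤ 0 ∧ m ≤ i + l + 2*c + 2*U ∧ U + 1 ≤ N + d) :
    False := by
  obtain ⟨b1, b2, b3, b4, b5, b6, b7, b8, b9, b10, b11, b12, b13, b14, b15⟩ := hb
  obtain ⟨g1, g2, g3⟩ := h
  have k1 : d + 1 ≤ U := by clear * - b12 b13 b15 g2; omega
  clear * - X w1 w2 g1 g2 g3 k1
  exact X.al.ubP (2*N + 2*d - 2*U) (by omega) (by omega) fun t h1 h2 => (fin X.al.per 0 _ (pf X.d1 X.al.per 0 (2*N + 2*d - 2*U + t) (pr w1 X.al.per (-1) (2*N - 2*U + t) (rfl : W (t) = W (t)) (by omega)) (by omega)) (by omega))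

theorem T152_26 (X : C W N Q i a b l m c d) (hb : B N Q i a b l m c d)
    (w1 : Par W (Q) (4*N + i + l - m + 2*c + 2*d - 2*U) (2*U))
    (w2 : Par W (i + 1) (i + 2*a + 2*b + l - 2*V + 1) (2*V))
    (h : i + 4*a + 2*b ≤ l + m + 1 ∧ i + 2*a ≤ l ∧ l + c + 2 ≤ 2*a + b ∧ 4*a + 2*b ≤ i + 2*l + 2*c + 2) :
    False := by
  obtain ⟨b1, b2, b3, b4, b5, b6, b7, b8, b9, b10, b11, b12, b13, b14, b15⟩ := hb
  obtain ⟨g1, g2, g3, g4⟩ := h
  have k1 : 2*a + 2*b ≤ i + 2*l + 2*c + 2 := by clear * - b2 g4; omega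
  have k2 : 2*a + b ≤ N + l + c := by clear * - b10 b14 b15 g1; omega
  clear * - X w1 w2 g1 g2 g3 g4 b6 k1 k2
  exact X.al.ubP (4*a + 2*b - 2*l - 2*c - 2) (by omega) (by omega) fun t h1 h2 => (fin X.al.per 0 _ (ar' X.s1 X.al.per 0 (4*a + 2*b - 2*l - 2*c + t - 2) (pr X.bb X.al.per 0 (2*i - 2*a - 2*b + 2*l + 2*c - t + 2) (af X.S2 X.al.per 0 (2*i + 2*l + 2*c - t + 2) (rfl : W (t) = W (t)) (by omega)) (by omega)) (by omega)) (by omega))

theorem T152_27 (X : C W N Q i a b l m c d) (hb : B N Q i a b l m c d)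
    (w1 : Par W (Q) (4*N + i + l - m + 2*c + 2*d - 2*U) (2*U))
    (w2 : Par W (i + 1) (i + 2*a + 2*b + l - 2*V + 1) (2*V))
    (h : Q ≤ 2*b + 2*V ∧ i + 1 ≤ 2*b ∧ 0 ≤ i + 2*a + 2*b + l + 2*d + 1 ∧ b + d + V + 1 ≤ 0 ∧ 0 ≤ i + 2*a + 2*b + 2*d + 2*V) :
    False := by
  obtain ⟨b1, b2, b3, b4, b5, b6, b7, b8, b9, b10, b11, b12, b13, b14, b15⟩ := hb
  obtain ⟨g1, g2, g3, g4, g5⟩ := h
  have k1 : 1 ≤ N + b + d + V := by clear * - b11 b14 b15 g1; omega
  clear * - X w1 w2 g1 g2 g3 g4 g5 b14 k1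
  exact X.al.ubP (-2*b - 2*d - 2*V) (by omega) (by omega) fun t h1 h2 => (fin X.al.per 0 _ (pr X.a1 X.al.per 0 (-2*b - 2*d - 2*V + t) (pr w2 X.al.per 0 (-2*d - 2*V + t) (pr X.d1 X.al.per 0 (-2*d + t) (rfl : W (t) = W (t)) (by omega)) (by omega)) (by omega)) (by omega))

theorem T152_28 (X : C W N Q i a b l m c d) (hb : B N Q i a b l m c d)
    (w1 : Par W (Q) (4*N + i + l - m + 2*c + 2*d - 2*U) (2*U))
    (w2 : Par W (i + 1) (i + 2*a + 2*b + l - 2*V + 1) (2*V))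
    (h : 2*a + 2*b ≤ l ∧ 2*a + 4*b ≤ i + l + 1 ∧ l + 2 ≤ 4*a + 4*b ∧ m + 2 ≤ 2*N + 2*a + 4*b + 2*c + 2*d ∧ 0 ≤ 2*a + 3*b + d ∧ 2*a + 3*b + d ≤ 0) :
    False := by
  obtain ⟨b1, b2, b3, b4, b5, b6, b7, b8, b9, b10, b11, b12, b13, b14, b15⟩ := hb
  obtain ⟨g1, g2, g3, g4, g5, g6⟩ := h
  have k1 : Q + 2*a + 4*b + 2*d ≤ i + l + 1 := by clear * - b8 g1 g3 g6; omega
  clear * - X w1 w2 g1 g2 g3 g4 g5 g6 k1
  exact X.n2.yz (fin X.al.per 0 _ (pr X.d1 X.al.per 0 (i - 2*a - 4*b + l - 2*d + 1) (pr X.a1 X.al.per 0 (i - 2*a - 4*b + l + 1) (pr X.bb X.al.per 0 (i - 2*a - 2*b + l + 1) (rfl : W (i + l + 1) = W (i + l + 1)) (by omega)) (by omega)) (by omega)) (by omega)).symm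

theorem T152_29 (X : C W N Q i a b l m c d) (hb : B N Q i a b l m c d)
    (w1 : Par W (Q) (4*N + i + l - m + 2*c + 2*d - 2*U) (2*U))
    (w2 : Par W (i + 1) (i + 2*a + 2*b + l - 2*V + 1) (2*V))
    (h : 0 ≤ 2*N + Q + 4*d ∧ Q + 2*b + m + 2*d ≤ i + l + 2*c) :
    False := by
  obtain ⟨b1, b2, b3, b4, b5, b6, b7, b8, b9, b10, b11, b12, b13, b14, b15⟩ := hb
  obtain ⟨g1, g2⟩ := h
  have k1 : 0 ≤ N + d := by clear * - b12 b13 g1; omega
  have k2 : 2*b ≤ Q := by clear * - b15 g1 g2; omega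
  have k3 : 2*N + Q + 4*d ≤ i + 2*a := by clear * - b4 b15 g2; omega
  have k4 : b + 1 ≤ N := by clear * - b12 b13 b15 g1 g2; omega
  have k5 : 1 ≤ i + 2*a := by clear * - b4 b15 g1 g2; omega
  have k6 : 1 ≤ b := by clear * - b3 b4; omega
  clear * - X w1 w2 g1 g2 b4 k1 k2 k3 k4 k5 k6
  obtain ⟨L, hL⟩ : ∃ L : ℤ, 2*N + Q - i - 2*a - 2*b + 4*d + 1 ≤ 2*L ∧ -Q + 1 ≤ 2*L ∧ 2*d + 1 ≤ 2*L ∧ 2*N + 4*d + 1 ≤ 2*L ∧ 2*L + 2*(b) - 2 ≤ 2*N + Q + 4*d ∧ 2*L + 2*(b) - 2 ≤ -Q + i + 2*a + 2*b ∧ 2*L + 2*(b) - 2 ≤ 2*N - Q + i + l - m + 2*c + 2*d ∧ 2*L + 2*(b) - 2 ≤ 4*N - Q + i + l - m + 2*c + 4*d ∧ 2*L + 2*(b) - 2 ≤ 4*N + 4*d - 1 := ⟨((max (2*N + 4*d + 1) (max (2*d + 1) (max (-Q + 1) (2*N + Q - i - 2*a - 2*b + 4*d + 1)))) + 1) / 2, by omega⟩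
  obtain ⟨R, hR1, hR2, hR⟩ := pw (A := 0) (B := i + 2*a + 2*b) (γ := b) (by omega) (fun t h1 h2 => (fin X.al.per 0 _ (pf X.a1 X.al.per 0 (2*b + t) (rfl : W (t) = W (t)) (by omega)) (by omega))) L
  exact X.al.ubQ (-2*N - 4*d + 2*R) (by omega) (by omega) fun t h1 h2 => (fin X.al.per 0 _ (pr X.d1 X.al.per 1 (-2*N - 4*d + t + 2*R) (pr X.d1 X.al.per 0 (-2*d + t + 2*R) (pp hR X.al.per 0 (t + 2*R) (rfl : W (t) = W (t)) (by omega)) (by omega)) (by omega)) (by omega))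

theorem T153_i (X : C W N Q i a b l m c d) (hb : B N Q i a b l m c d)
    (w1 : Par W (Q) (4*N + i + l - m + 2*c + 2*d - 2*U) (2*U))
    (h : Q + m + 2*U + 1 ≤ 4*N + i + l + 2*c + 2*d ∧ N + d + 1 ≤ U) :
    ∃ V : ℤ, (0 ≤ V ∧ 4*N - 2*a - 2*b + 2*d - 2*U + 2 ≤ 2*V ∧ 2*V < 4*N - 2*a - 2*b + 2*d - 2*U + 2 + 2*(-N - d + U)) ∧ Par W (Q + 2*d) (2*N + i + l - m + 2*c + 2*d - 2*V) (2*V) := by
  obtain ⟨b1, b2, b3, b4, b5, b6, b7, b8, b9, b10, b11, b12, b13, b14, b15⟩ := hb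
  obtain ⟨g1, g2⟩ := h
  have k1 : a + b ≤ N := by clear * - b8 b9 b14 b15; omega
  clear * - X w1 g1 g2 k1
  exact (pwi (A := Q + 2*d) (B := 2*N + i + l - m + 2*c + 2*d) (γ := -N - d + U) (4*N - 2*a - 2*b + 2*d - 2*U + 2) (by omega) (fun t h1 h2 => (fin X.al.per (-1) _ (pf w1 X.al.per 0 (-2*d + 2*U + t) (pr X.d1 X.al.per 0 (-2*d + t) (rfl : W (t) = W (t)) (by omega)) (by omega)) (by omega)))).imp
    fun _ h => ⟨h.1, h.2.cg (by omega)⟩

theorem T153_0 (X : C W N Q i a b l m c d) (hb : B N Q i a b l m c d)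
    (w1 : Par W (Q) (4*N + i + l - m + 2*c + 2*d - 2*U) (2*U))
    (w2 : Par W (Q + 2*d) (2*N + i + l - m + 2*c + 2*d - 2*V) (2*V))
    (h : 2*a + m + 1 ≤ 2*N + l + 2*c + 2*d ∧ 2*N + Q + 2*d ≤ i + 2*a + 2*b) :
    False := by
  obtain ⟨b1, b2, b3, b4, b5, b6, b7, b8, b9, b10, b11, b12, b13, b14, b15⟩ := hb
  obtain ⟨g1, g2⟩ := h
  have k1 : Q + 2*d ≤ i + 2*a := by clear * - b2 b8 b9 b14 b15 g2; omega
  have k2 : 1 ≤ N + d := by clear * - b11 b14; omega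
  have k3 : 2*a + 2*b + m + 1 ≤ 4*N + l + 2*c + 2*d := by clear * - b5 b14; omega
  clear * - X w1 w2 g1 g2 k1 k2 k3
  exact X.n1.yz (fin X.al.per 1 _ (pf X.d1 X.al.per 0 (-2*N + i + 2*a + 2*b) (pf X.a2 X.al.per 1 (-2*N + i + 2*a + 2*b - 2*d) (pr X.d1 X.al.per 0 (i + 2*a - 2*d) (rfl : W (i + 2*a) = W (i + 2*a)) (by omega)) (by omega)) (by omega)) (by omega)).symm

theorem T153_1 (X : C W N Q i a b l m c d) (hb : B N Q i a b l m c d)
    (w1 : Par W (Q) (4*N + i + l - m + 2*c + 2*d - 2*U) (2*U))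
    (w2 : Par W (Q + 2*d) (2*N + i + l - m + 2*c + 2*d - 2*V) (2*V))
    (h : i + 2*a ≤ l + m + 1 ∧ l + c + 2 ≤ a) :
    False := by
  obtain ⟨b1, b2, b3, b4, b5, b6, b7, b8, b9, b10, b11, b12, b13, b14, b15⟩ := hb
  obtain ⟨g1, g2⟩ := h
  have k1 : 2*a ≤ i + 2*l + 2*c + 2 := by clear * - b3 b6 b8; omega
  have k2 : a ≤ N + l + c := by clear * - b10 b14 b15 g1; omega
  clear * - X w1 w2 g1 g2 b6 k1 k2
  exact X.al.ubP (2*a - 2*l - 2*c - 2) (by omega) (by omega) fun t h1 h2 => (fin X.al.per 0 _ (ar' X.s1 X.al.per 0 (2*a - 2*l - 2*c + t - 2) (af X.S2 X.al.per 0 (2*i + 2*l + 2*c - t + 2) (rfl : W (t) = W (t)) (by omega)) (by omega)) (by omega))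

theorem T153_2 (X : C W N Q i a b l m c d) (hb : B N Q i a b l m c d)
    (w1 : Par W (Q) (4*N + i + l - m + 2*c + 2*d - 2*U) (2*U))
    (w2 : Par W (Q + 2*d) (2*N + i + l - m + 2*c + 2*d - 2*V) (2*V))
    (h : Q + 2*U ≤ 2*N ∧ m + 2*U ≤ 4*N + i + l + 2*c + 4*d ∧ N + d + 1 ≤ U) :
    False := by
  obtain ⟨b1, b2, b3, b4, b5, b6, b7, b8, b9, b10, b11, b12, b13, b14, b15⟩ := hb
  obtain ⟨g1, g2, g3⟩ := h
  have k1 : U + 1 ≤ 2*N + d := by clear * - b12 b13 b15 g2; omega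
  clear * - X w1 w2 g1 g2 g3 k1
  exact X.al.ubP (-2*N - 2*d + 2*U) (by omega) (by omega) fun t h1 h2 => (fin X.al.per (-1) _ (pf w1 X.al.per 0 (-2*d + 2*U + t) (pr X.d1 X.al.per 0 (-2*d + t) (rfl : W (t) = W (t)) (by omega)) (by omega)) (by omega))

theorem T153_3 (X : C W N Q i a b l m c d) (hb : B N Q i a b l m c d)
    (w1 : Par W (Q) (4*N + i + l - m + 2*c + 2*d - 2*U) (2*U))
    (w2 : Par W (Q + 2*d) (2*N + i + l - m + 2*c + 2*d - 2*V) (2*V))
    (h : Q + c + U ≤ i + 2*a + b ∧ 2*a + b + m + U + 1 ≤ 4*N + l + 3*c + 2*d ∧ b + l + c + 2 ≤ U) :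
    False := by
  obtain ⟨b1, b2, b3, b4, b5, b6, b7, b8, b9, b10, b11, b12, b13, b14, b15⟩ := hb
  obtain ⟨g1, g2, g3⟩ := h
  have k1 : b ≤ i + c + U := by clear * - b6 g3; omega
  have k2 : c + U + 1 ≤ b := by clear * - b3 g1; omega
  have k3 : i + c + U + 1 ≤ Q + b := by clear * - b2 b3 g1; omega
  clear * - X w1 w2 g1 g2 g3 k1 k2 k3
  exact X.al.ninv (i - b + c + U) (fin X.al.per 0 _ (pr X.c1 X.al.per 0 (i - b + c + U) (pf w1 X.al.per 0 (i + 2*a + b - c + U) (af X.s1 X.al.per 0 (i + 2*a + b - c - U) (rfl : W (i - b + c + U) = W (i - b + c + U)) (by omega)) (by omega)) (by omega)) (by omega))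

theorem T153_4 (X : C W N Q i a b l m c d) (hb : B N Q i a b l m c d)
    (w1 : Par W (Q) (4*N + i + l - m + 2*c + 2*d - 2*U) (2*U))
    (w2 : Par W (Q + 2*d) (2*N + i + l - m + 2*c + 2*d - 2*V) (2*V))
    (h : b + c ≤ N + m + d ∧ N + d + 1 ≤ b + c ∧ m + 2 ≤ N + b + c + d) :
    False := by
  obtain ⟨b1, b2, b3, b4, b5, b6, b7, b8, b9, b10, b11, b12, b13, b14, b15⟩ := hb
  obtain ⟨g1, g2, g3⟩ := h
  have k1 : N + Q + d ≤ i + b + l + c + 1 := by clear * - b8 g2; omega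
  have k2 : l + c + 2 ≤ N + 2*a + b + d := by clear * - b1 b2 b11 g3; omega
  have k3 : Q + b + d ≤ N + i + l + c + 1 := by clear * - b2 b8 b9 b14 b15 g2; omega
  clear * - X w1 w2 g1 g2 g3 k1 k2 k3
  exact X.al.ninv (-N + i - b + l + c - d + 1) (fin X.al.per (-1) _ (pr X.d1 X.al.per 0 (N + i - b + l + c - d + 1) (ar X.S2 X.al.per 0 (N + i - b + l + c + d + 1) (pf X.a2 X.al.per 0 (-N + i + b + l + c - d + 1) (rfl : W (-N + i - b + l + c - d + 1) = W (-N + i - b + l + c - d + 1)) (by omega)) (by omega)) (by omega)) (by omega))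

theorem T153_5 (X : C W N Q i a b l m c d) (hb : B N Q i a b l m c d)
    (w1 : Par W (Q) (4*N + i + l - m + 2*c + 2*d - 2*U) (2*U))
    (w2 : Par W (Q + 2*d) (2*N + i + l - m + 2*c + 2*d - 2*V) (2*V))
    (h : N + c ≤ m + U ∧ U + 1 ≤ N + c ∧ m + U + 2 ≤ 3*N + c + 2*d) :
    False := by
  obtain ⟨b1, b2, b3, b4, b5, b6, b7, b8, b9, b10, b11, b12, b13, b14, b15⟩ := hb
  obtain ⟨g1, g2, g3⟩ := h
  have k1 : Q + U ≤ N + i + l + c + 1 := by clear * - b8 g2; omega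
  clear * - X w1 w2 g1 g2 g3 k1
  exact X.al.ninv (-N + i + l + c + U + 1) (fin X.al.per (-1) _ (pf w1 X.al.per 0 (N + i + l + c + U + 1) (af X.S2 X.al.per 0 (N + i + l + c - U + 1) (rfl : W (-N + i + l + c + U + 1) = W (-N + i + l + c + U + 1)) (by omega)) (by omega)) (by omega))

theorem T153_6 (X : C W N Q i a b l m c d) (hb : B N Q i a b l m c d)
    (w1 : Par W (Q) (4*N + i + l - m + 2*c + 2*d - 2*U) (2*U))
    (w2 : Par W (Q + 2*d) (2*N + i + l - m + 2*c + 2*d - 2*V) (2*V))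
    (h : Q + 2*U ≤ 2*N ∧ m + 2*U ≤ 6*N + i + l + 2*c + 6*d ∧ 2*N + 2*d + 1 ≤ U) :
    False := by
  obtain ⟨b1, b2, b3, b4, b5, b6, b7, b8, b9, b10, b11, b12, b13, b14, b15⟩ := hb
  obtain ⟨g1, g2, g3⟩ := h
  have k1 : Q + 2*U ≤ 4*N + 2*d := by clear * - b11 g1 g2 g3; omega
  have k2 : m ≤ 4*N + i + l + 2*c + 4*d := by clear * - b11 g2 g3; omega
  have k3 : U + 1 ≤ 3*N + 2*d := by clear * - b12 b13 b15 g2; omega
  clear * - X w1 w2 g1 g2 g3 k1 k2 k3
  exact X.al.ubP (-4*N - 4*d + 2*U) (by omega) (by omega) fun t h1 h2 => (fin X.al.per (-1) _ (pf w1 X.al.per 0 (-2*N - 4*d + 2*U + t) (pr X.d1 X.al.per 1 (-2*N - 4*d + t) (pr X.d1 X.al.per 0 (-2*d + t) (rfl : W (t) = W (t)) (by omega)) (by omega)) (by omega)) (by omega))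

theorem T153_7 (X : C W N Q i a b l m c d) (hb : B N Q i a b l m c d)
    (w1 : Par W (Q) (4*N + i + l - m + 2*c + 2*d - 2*U) (2*U))
    (w2 : Par W (Q + 2*d) (2*N + i + l - m + 2*c + 2*d - 2*V) (2*V))
    (h : 0 ≤ i + a + d + U ∧ Q + d + U ≤ i + a ∧ a + m + 1 ≤ 2*N + l + 2*c + d + U ∧ a + m + U + 1 ≤ 2*N + l + 2*c + d) :
    False := by
  obtain ⟨b1, b2, b3, b4, b5, b6, b7, b8, b9, b10, b11, b12, b13, b14, b15⟩ := hb
  obtain ⟨g1, g2, g3, g4⟩ := h
  have k1 : a + d + U + 1 ≤ 0 := by clear * - b3 g2; omega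
  have k2 : Q + U ≤ 2*N + i + a + d := by clear * - b11 g1 g2 g4; omega
  clear * - X w1 w2 g1 g2 g3 g4 k1 k2
  exact X.al.ninv (i + a + d + U) (fin X.al.per (-1) _ (pf w1 X.al.per (-1) (2*N + i + a + d + U) (pf X.d1 X.al.per 0 (i + a + d - U) (af X.s1 X.al.per 0 (i + a - d - U) (rfl : W (i + a + d + U) = W (i + a + d + U)) (by omega)) (by omega)) (by omega)) (by omega))

theorem T153_8 (X : C W N Q i a b l m c d) (hb : B N Q i a b l m c d)
    (w1 : Par W (Q) (4*N + i + l - m + 2*c + 2*d - 2*U) (2*U))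
    (w2 : Par W (Q + 2*d) (2*N + i + l - m + 2*c + 2*d - 2*V) (2*V))
    (h : N + l + c + d + 2 ≤ 2*a + b + U ∧ N + b + c + d ≤ m + U ∧ U + 1 ≤ N + b + c + d ∧ Q + b + d + U ≤ N + i + l + c + 1 ∧ m + U + 2 ≤ 3*N + b + c + 3*d ∧ m + 2 ≤ N + b + c + d + U) :
    False := by
  obtain ⟨b1, b2, b3, b4, b5, b6, b7, b8, b9, b10, b11, b12, b13, b14, b15⟩ := hb
  obtain ⟨g1, g2, g3, g4, g5, g6⟩ := h
  have k1 : Q + U ≤ N + i + b + l + c + d + 1 := by clear * - b8 g3; omega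
  clear * - X w1 w2 g1 g2 g3 g4 g5 g6 k1
  exact X.al.ninv (N + i - b + l + c + d - U + 1) (fin X.al.per 0 _ (pf X.d1 X.al.per 0 (N + i - b + l + c + d - U + 1) (pr w1 X.al.per (-1) (N + i - b + l + c - d - U + 1) (ar X.S2 X.al.per 0 (-N + i - b + l + c - d + U + 1) (pf X.a2 X.al.per 0 (N + i + b + l + c + d - U + 1) (rfl : W (N + i - b + l + c + d - U + 1) = W (N + i - b + l + c + d - U + 1)) (by omega)) (by omega)) (by omega)) (by omega)) (by omega))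

theorem T154_i (X : C W N Q i a b l m c d) (hb : B N Q i a b l m c d)
    (w1 : Par W (Q) (4*N + i + l - m + 2*c + 2*d - 2*U) (2*U))
    (h : 0 ≤ N + b + l + c + d + 1) :
    ∃ V : ℤ, (0 ≤ V ∧ 2*b + 2*l + 2*c + 4 ≤ 2*V ∧ 2*V < 2*b + 2*l + 2*c + 4 + 2*(N + d)) ∧ Par W (Q) (4*N + i + l - m + 2*c + 2*d - 2*V) (2*V) := by
  obtain ⟨b1, b2, b3, b4, b5, b6, b7, b8, b9, b10, b11, b12, b13, b14, b15⟩ := hb
  have g1 := h
  have k1 : Q + m + 1 ≤ 2*N + i + l + 2*c := by clear * - b6 b8 b13; omega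
  have k2 : 1 ≤ N + d := by clear * - b11 b14; omega
  clear * - X w1 g1 k1 k2
  exact (pwi (A := Q) (B := 4*N + i + l - m + 2*c + 2*d) (γ := N + d) (2*b + 2*l + 2*c + 4) (by omega) (fun t h1 h2 => (fin X.al.per 1 _ (pf X.d1 X.al.per 0 (2*d + t) (rfl : W (t) = W (t)) (by omega)) (by omega)))).imp
    fun _ h => ⟨h.1, h.2.cg (by omega)⟩

theorem T154_0 (X : C W N Q i a b l m c d) (hb : B N Q i a b l m c d)
    (w1 : Par W (Q) (4*N + i + l - m + 2*c + 2*d - 2*U) (2*U))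
    (w2 : Par W (Q) (4*N + i + l - m + 2*c + 2*d - 2*V) (2*V))
    (h : i + 2*a + 4*b + l + 2 ≤ 2*N + Q ∧ N + c + 1 ≤ a + 2*b ∧ Q + 2*b ≤ 2*N + i + 2*c) :
    False := by
  obtain ⟨b1, b2, b3, b4, b5, b6, b7, b8, b9, b10, b11, b12, b13, b14, b15⟩ := hb
  obtain ⟨g1, g2, g3⟩ := h
  have k1 : a + 2*b + 1 ≤ 2*N + c := by clear * - b6 b12 b13 g1; omega
  clear * - X w1 w2 g1 g2 g3 k1
  exact X.al.ubQ (-2*N + 2*a + 4*b - 2*c) (by omega) (by omega) fun t h1 h2 => (fin X.al.per 0 _ (pf X.a2 X.al.per 1 (-2*N + 2*a + 4*b - 2*c + t) (pf X.c1 X.al.per 0 (2*a + 2*b - 2*c + t) (rfl : W (t) = W (t)) (by omega)) (by omega)) (by omega))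

theorem T154_1 (X : C W N Q i a b l m c d) (hb : B N Q i a b l m c d)
    (w1 : Par W (Q) (4*N + i + l - m + 2*c + 2*d - 2*U) (2*U))
    (w2 : Par W (Q) (4*N + i + l - m + 2*c + 2*d - 2*V) (2*V))
    (h : i + 2*a + 2*b + l + 2 ≤ Q + 2*U ∧ Q + m + 2*U ≤ 2*N + i + 2*a + 2*b + l + 2*d) :
    False := by
  obtain ⟨b1, b2, b3, b4, b5, b6, b7, b8, b9, b10, b11, b12, b13, b14, b15⟩ := hb
  obtain ⟨g1, g2⟩ := h
  have k1 : c + U ≤ a + b := by clear * - b15 g2; omega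
  have k2 : c + 1 ≤ a + b := by clear * - b2 b3 b4 b8 b15 g1 g2; omega
  have k3 : i + l + 2*c + 3 ≤ Q := by clear * - b15 g1 g2; omega
  have k4 : a + b + 1 ≤ N + c := by clear * - b6 b9; omega
  clear * - X w1 w2 g1 g2 k1 k2 k3 k4
  obtain ⟨L, hL⟩ : ∃ L : ℤ, -2*N + 2*U + 1 ≤ 2*L ∧ -2*N - Q + i + 2*a + 2*b + l + 3 ≤ 2*L ∧ 2*L + 2*(N - a - b + c) - 2 ≤ Q - i - 2*a - 2*b - l + 2*U - 2 ∧ 2*L + 2*(N - a - b + c) - 2 ≤ 0 ∧ 2*L + 2*(N - a - b + c) - 2 ≤ 2*N - Q + i + l - m + 2*c + 2*d ∧ 2*L + 2*(N - a - b + c) - 2 ≤ 2*U - 1 := ⟨((max (-2*N - Q + i + 2*a + 2*b + l + 3) (-2*N + 2*U + 1)) + 1) / 2, by omega⟩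
  obtain ⟨R, hR1, hR2, hR⟩ := pw (A := i + 2*a + 2*b + l + 2) (B := 2*N + Q) (γ := N - a - b + c) (by omega) (fun t h1 h2 => (fin X.al.per 1 _ (pr X.c1 X.al.per 0 (-2*a - 2*b + 2*c + t) (rfl : W (t) = W (t)) (by omega)) (by omega))) L
  exact X.al.ubQ (2*N - 2*U + 2*R) (by omega) (by omega) fun t h1 h2 => (fin X.al.per 0 _ (pr w1 X.al.per 0 (2*N - 2*U + t + 2*R) (pp hR X.al.per (-1) (2*N + t + 2*R) (rfl : W (t) = W (t)) (by omega)) (by omega)) (by omega))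

theorem T154_2 (X : C W N Q i a b l m c d) (hb : B N Q i a b l m c d)
    (w1 : Par W (Q) (4*N + i + l - m + 2*c + 2*d - 2*U) (2*U))
    (w2 : Par W (Q) (4*N + i + l - m + 2*c + 2*d - 2*V) (2*V))
    (h : b ≤ i + a ∧ a + 1 ≤ b) :
    False := by
  obtain ⟨b1, b2, b3, b4, b5, b6, b7, b8, b9, b10, b11, b12, b13, b14, b15⟩ := hb
  obtain ⟨g1, g2⟩ := h
  have k1 : 1 ≤ a + b := by clear * - b2 g2; omega
  clear * - X w1 w2 g1 g2 k1
  exact X.al.ninv (i + a - b) (fin X.al.per 0 _ (ar X.s1 X.al.per 0 (i + a - b) (pf X.a1 X.al.per 0 (i + a + b) (rfl : W (i + a - b) = W (i + a - b)) (by omega)) (by omega)) (by omega))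

theorem T154_3 (X : C W N Q i a b l m c d) (hb : B N Q i a b l m c d)
    (w1 : Par W (Q) (4*N + i + l - m + 2*c + 2*d - 2*U) (2*U))
    (w2 : Par W (Q) (4*N + i + l - m + 2*c + 2*d - 2*V) (2*V))
    (h : c ≤ N + m + 2*d ∧ N + 2*d + 1 ≤ c ∧ m + 2 ≤ N + c) :
    False := by
  obtain ⟨b1, b2, b3, b4, b5, b6, b7, b8, b9, b10, b11, b12, b13, b14, b15⟩ := hb
  obtain ⟨g1, g2, g3⟩ := h
  have k1 : N + Q + 2*d ≤ i + l + c + 1 := by clear * - b8 g2; omega
  clear * - X w1 w2 g1 g2 g3 k1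
  exact X.al.ninv (N + i + l + c + 2*d + 1) (fin X.al.per 0 _ (pf X.d1 X.al.per (-1) (N + i + l + c + 2*d + 1) (pf X.d1 X.al.per 0 (-N + i + l + c + 1) (af X.S2 X.al.per 0 (-N + i + l + c - 2*d + 1) (rfl : W (N + i + l + c + 2*d + 1) = W (N + i + l + c + 2*d + 1)) (by omega)) (by omega)) (by omega)) (by omega))

theorem T154_4 (X : C W N Q i a b l m c d) (hb : B N Q i a b l m c d)
    (w1 : Par W (Q) (4*N + i + l - m + 2*c + 2*d - 2*U) (2*U))
    (w2 : Par W (Q) (4*N + i + l - m + 2*c + 2*d - 2*V) (2*V))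
    (h : Q + m ≤ i + 2*b + l + 2*c + 1 ∧ i + 2*b + l + 2*c + 1 ≤ Q + m ∧ 2*N + l + 2*c + 2*d + 1 ≤ 2*a + m) :
    False := by
  obtain ⟨b1, b2, b3, b4, b5, b6, b7, b8, b9, b10, b11, b12, b13, b14, b15⟩ := hb
  obtain ⟨g1, g2, g3⟩ := h
  have k1 : Q + m ≤ 2*N + i + 2*b + l + 2*c + 2*d + 1 := by clear * - b11 b14 g1; omega
  clear * - X w1 w2 g1 g2 g3 b10 k1
  obtain ⟨φ, H, T, ht, h0⟩ := exH X.al (2*N + i + l - m + 2*c)
  obtain ⟨Da2, ha2⟩ := ht.par X.a2 (by omega)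
  obtain ⟨Dd1, hd1⟩ := ht.par X.d1 (by omega)
  have e1 := hd1 0 0 (2*N + i + l - m + 2*c) (2*N + i + l - m + 2*c + 2*d) (by omega)
  have e2 := ha2 1 0 (2*N + i + l - m + 2*c + 1) (Q) (by omega)
  have e3 := ha2 0 0 (2*N + i + l - m + 2*c + 2*d + 1) (2*N + Q + 2*d) (by omega)
  have e4 := hd1 0 1 (Q) (2*N + Q + 2*d) (by omega)
  have e5 := ht.lt (2*N + i + l - m + 2*c) 0 0 (2*N + i + l - m + 2*c) (2*N + i + l - m + 2*c + 1) (by omega)
  have e6 := ht.lt (2*N + i + l - m + 2*c + 2*d) 0 0 (2*N + i + l - m + 2*c + 2*d) (2*N + i + l - m + 2*c + 2*d + 1) (by omega)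
  have t2 := ht.tri X.n3
  omega

theorem T154_5 (X : C W N Q i a b l m c d) (hb : B N Q i a b l m c d)
    (w1 : Par W (Q) (4*N + i + l - m + 2*c + 2*d - 2*U) (2*U))
    (w2 : Par W (Q) (4*N + i + l - m + 2*c + 2*d - 2*V) (2*V))
    (h : a + b + 1 ≤ 2*N + 2*d ∧ 2*c ≤ a + b + m + 2*d ∧ a + b + 2*d + 1 ≤ 2*c ∧ m + 2 ≤ a + b) :
    False := by
  obtain ⟨b1, b2, b3, b4, b5, b6, b7, b8, b9, b10, b11, b12, b13, b14, b15⟩ := hb
  obtain ⟨g1, g2, g3, g4⟩ := h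
  have k1 : 2*N + i + l + 2*c + 2*d + 2 ≤ Q + a + b := by clear * - b15 g4; omega
  have k2 : Q + a + b + 2*d ≤ i + l + 2*c + 1 := by clear * - b8 g3; omega
  clear * - X w1 w2 g1 g2 g3 g4 k1 k2
  exact X.al.ninv (2*N + i - a - b + l + 2*c + 2*d + 1) (fin X.al.per 0 _ (pf X.d1 X.al.per (-1) (2*N + i - a - b + l + 2*c + 2*d + 1) (pf X.d1 X.al.per 0 (i - a - b + l + 2*c + 1) (af X.S2 X.al.per 1 (i - a - b + l + 2*c - 2*d + 1) (pf X.c1 X.al.per 0 (2*N + i + a + b + l + 2*d + 1) (rfl : W (2*N + i - a - b + l + 2*c + 2*d + 1) = W (2*N + i - a - b + l + 2*c + 2*d + 1)) (by omega)) (by omega)) (by omega)) (by omega)) (by omega))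

theorem T154_6 (X : C W N Q i a b l m c d) (hb : B N Q i a b l m c d)
    (w1 : Par W (Q) (4*N + i + l - m + 2*c + 2*d - 2*U) (2*U))
    (w2 : Par W (Q) (4*N + i + l - m + 2*c + 2*d - 2*V) (2*V))
    (h : c + 1 ≤ b + d ∧ 2*N + 2*d ≤ Q + 2*a ∧ Q + 2*b ≤ 2*N + i + 2*c ∧ N + d ≤ a + b ∧ Q + 2*b + 2*d ≤ i + l + 2*c + 1) :
    False := by
  obtain ⟨b1, b2, b3, b4, b5, b6, b7, b8, b9, b10, b11, b12, b13, b14, b15⟩ := hb
  obtain ⟨g1, g2, g3, g4, g5⟩ := h
  have k1 : i + 2*b + l + 2*d + 2 ≤ Q := by clear * - b9 g2; omega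
  have k2 : Q + 2*a + 4*b + m ≤ 4*N + i + l + 4*c := by clear * - b9 b14 g5; omega
  have k3 : i + 1 ≤ Q := by clear * - b2 b3; omega
  have k4 : b + d + 1 ≤ N + c := by clear * - b9 b12 b14 g2 g4; omega
  clear * - X w1 w2 g1 g2 g3 g4 g5 k1 k2 k3 k4
  exact X.al.ubQ (2*b - 2*c + 2*d) (by omega) (by omega) fun t h1 h2 => (fin X.al.per 0 _ (pr X.bb X.al.per (-1) (2*b - 2*c + 2*d + t) (pf X.d1 X.al.per 0 (-2*N + 2*a + 4*b - 2*c + 2*d + t) (pf X.a1 X.al.per 1 (-2*N + 2*a + 4*b - 2*c + t) (pf X.c1 X.al.per 0 (2*a + 2*b - 2*c + t) (rfl : W (t) = W (t)) (by omega)) (by omega)) (by omega)) (by omega)) (by omega))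

theorem T154_7 (X : C W N Q i a b l m c d) (hb : B N Q i a b l m c d)
    (w1 : Par W (Q) (4*N + i + l - m + 2*c + 2*d - 2*U) (2*U))
    (w2 : Par W (Q) (4*N + i + l - m + 2*c + 2*d - 2*V) (2*V))
    (h : Q ≤ 2*b ∧ b + d + 1 ≤ 0 ∧ 0 ≤ i + 2*a + 2*b + 2*d) :
    False := by
  obtain ⟨b1, b2, b3, b4, b5, b6, b7, b8, b9, b10, b11, b12, b13, b14, b15⟩ := hb
  obtain ⟨g1, g2, g3⟩ := h
  have k1 : 1 ≤ N + b + d := by clear * - b11 b14 b15 g1; omega
  clear * - X w1 w2 g1 g2 g3 b14 k1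
  exact X.al.ubP (-2*b - 2*d) (by omega) (by omega) fun t h1 h2 => (fin X.al.per 0 _ (pr X.a1 X.al.per 0 (-2*b - 2*d + t) (pr X.d1 X.al.per 0 (-2*d + t) (rfl : W (t) = W (t)) (by omega)) (by omega)) (by omega))

theorem T154_8 (X : C W N Q i a b l m c d) (hb : B N Q i a b l m c d)
    (w1 : Par W (Q) (4*N + i + l - m + 2*c + 2*d - 2*U) (2*U))
    (w2 : Par W (Q) (4*N + i + l - m + 2*c + 2*d - 2*V) (2*V))
    (h : 2*N + Q + 4*d ≤ 0 ∧ 2*b + m + 2*d ≤ i + l + 2*c ∧ 1 ≤ N + b + 2*d) :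
    False := by
  obtain ⟨b1, b2, b3, b4, b5, b6, b7, b8, b9, b10, b11, b12, b13, b14, b15⟩ := hb
  obtain ⟨g1, g2, g3⟩ := h
  have k1 : 0 ≤ i + 2*a := by clear * - b1 b2; omega
  have k2 : 2*b + m ≤ 2*N + i + l + 2*c := by clear * - b11 g2 g3; omega
  have k3 : Q + 2*d ≤ 0 := by clear * - b12 b13 g1; omega
  have k4 : b + 2*d + 1 ≤ 0 := by clear * - b12 b13 b15 g2; omega
  clear * - X w1 w2 g1 g2 g3 k1 k2 k3 k4
  exact X.al.ubP (2*N + 2*b + 4*d) (by omega) (by omega) fun t h1 h2 => (fin X.al.per 0 _ (pf X.d1 X.al.per (-1) (2*N + 2*b + 4*d + t) (pf X.d1 X.al.per 0 (2*b + 2*d + t) (pf X.a2 X.al.per 0 (2*b + t) (rfl : W (t) = W (t)) (by omega)) (by omega)) (by omega)) (by omega))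

theorem T154_9 (X : C W N Q i a b l m c d) (hb : B N Q i a b l m c d)
    (w1 : Par W (Q) (4*N + i + l - m + 2*c + 2*d - 2*U) (2*U))
    (w2 : Par W (Q) (4*N + i + l - m + 2*c + 2*d - 2*V) (2*V))
    (h : Q ≤ 2*b ∧ 2*N + 2*d ≤ i + 2*a) :
    False := by
  obtain ⟨b1, b2, b3, b4, b5, b6, b7, b8, b9, b10, b11, b12, b13, b14, b15⟩ := hb
  obtain ⟨g1, g2⟩ := h
  have k1 : Q + 2*d ≤ 0 := by clear * - b5 g1 g2; omega
  have k2 : 2*b + m ≤ 2*N + i + l + 2*c := by clear * - b5 b14 g2; omega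
  have k3 : d + 1 ≤ 0 := by clear * - b10 b15; omega
  have k4 : Q + m + 1 ≤ 2*N + i + l + 2*c := by clear * - b6 b8 b13; omega
  have k5 : 1 ≤ N + d := by clear * - b11 b14; omega
  clear * - X w1 w2 g1 g2 b14 k1 k2 k3 k4 k5
  obtain ⟨L, hL⟩ : ∃ L : ℤ, -4*N - i + 2*b - l + m - 2*c - 2*d + 1 ≤ 2*L ∧ -2*N + Q + 1 ≤ 2*L ∧ -2*N + 2*b + 1 ≤ 2*L ∧ 2*L + 2*(N + d) - 2 ≤ -Q + 2*b ∧ 2*L + 2*(N + d) - 2 ≤ 2*N + i + l - m + 2*c + 2*d ∧ 2*L + 2*(N + d) - 2 ≤ -2*N + i + 2*a + 2*b ∧ 2*L + 2*(N + d) - 2 ≤ 2*b - 1 := ⟨((max (-2*N + 2*b + 1) (max (-2*N + Q + 1) (-4*N - i + 2*b - l + m - 2*c - 2*d + 1))) + 1) / 2, by omega⟩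
  obtain ⟨R, hR1, hR2, hR⟩ := pw (A := Q) (B := 4*N + i + l - m + 2*c + 2*d) (γ := N + d) (by omega) (fun t h1 h2 => (fin X.al.per 1 _ (pf X.d1 X.al.per 0 (2*d + t) (rfl : W (t) = W (t)) (by omega)) (by omega))) L
  exact X.al.ubP (2*N - 2*b + 2*R) (by omega) (by omega) fun t h1 h2 => (fin X.al.per 0 _ (pr X.a1 X.al.per 0 (2*N - 2*b + t + 2*R) (pp hR X.al.per (-1) (2*N + t + 2*R) (rfl : W (t) = W (t)) (by omega)) (by omega)) (by omega))

theorem T154_10 (X : C W N Q i a b l m c d) (hb : B N Q i a b l m c d)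
    (w1 : Par W (Q) (4*N + i + l - m + 2*c + 2*d - 2*U) (2*U))
    (w2 : Par W (Q) (4*N + i + l - m + 2*c + 2*d - 2*V) (2*V))
    (h : i + 2*a + 2*b + 1 ≤ 4*N + Q + 4*d ∧ 2*N + 2*d + 1 ≤ a + b) :
    False := by
  obtain ⟨b1, b2, b3, b4, b5, b6, b7, b8, b9, b10, b11, b12, b13, b14, b15⟩ := hb
  obtain ⟨g1, g2⟩ := h
  have k1 : 0 ≤ N + d := by clear * - b11 b14; omega
  have k2 : Q + 2*a + 2*b + m ≤ 4*N + i + l + 2*c + 2*d := by clear * - b8 b9 b14; omega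
  have k3 : a + b + 1 ≤ 3*N + 2*d := by clear * - b8 b9 b11 b14 b15; omega
  clear * - X w1 w2 g1 g2 b8 k1 k2 k3
  exact X.al.ubQ (-4*N + 2*a + 2*b - 4*d) (by omega) (by omega) fun t h1 h2 => (fin X.al.per 0 _ (pr X.d1 X.al.per 1 (-4*N + 2*a + 2*b - 4*d + t) (pr X.d1 X.al.per 1 (-2*N + 2*a + 2*b - 2*d + t) (pf X.bb X.al.per 0 (2*a + 2*b + t) (rfl : W (t) = W (t)) (by omega)) (by omega)) (by omega)) (by omega))

theorem T154_11 (X : C W N Q i a b l m c d) (hb : B N Q i a b l m c d)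
    (w1 : Par W (Q) (4*N + i + l - m + 2*c + 2*d - 2*U) (2*U))
    (w2 : Par W (Q) (4*N + i + l - m + 2*c + 2*d - 2*V) (2*V))
    (h : 2*N + i + 2*d + 1 ≤ Q) :
    False := by
  obtain ⟨b1, b2, b3, b4, b5, b6, b7, b8, b9, b10, b11, b12, b13, b14, b15⟩ := hb
  have g1 := h
  have k1 : Q + 2*a + 2*b + m ≤ 4*N + i + l + 2*c + 2*d := by clear * - b8 b9 b14; omega
  have k2 : N + d ≤ a + b := by clear * - b4 g1; omega
  have k3 : d + 1 ≤ 0 := by clear * - b10 b15; omega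
  have k4 : Q + m + 1 ≤ 2*N + i + l + 2*c := by clear * - b6 b8 b13; omega
  have k5 : 1 ≤ N + d := by clear * - b11 b14; omega
  clear * - X w1 w2 g1 b8 k1 k2 k3 k4 k5
  obtain ⟨L, hL⟩ : ∃ L : ℤ, Q - i - 2*a - 2*b - l ≤ 2*L ∧ -4*N + Q - i - l + m - 2*c - 2*d + 1 ≤ 2*L ∧ -2*a - 2*b + 1 ≤ 2*L ∧ 2*L + 2*(N + d) - 2 ≤ Q - i - 2*a - 2*b - 1 ∧ 2*L + 2*(N + d) - 2 ≤ 0 ∧ 2*L + 2*(N + d) - 2 ≤ 4*N - Q + i - 2*a - 2*b + l - m + 2*c + 2*d ∧ 2*L + 2*(N + d) - 2 ≤ 2*N - 2*a - 2*b - 1 := ⟨((max (-2*a - 2*b + 1) (max (-4*N + Q - i - l + m - 2*c - 2*d + 1) (Q - i - 2*a - 2*b - l))) + 1) / 2, by omega⟩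
  obtain ⟨R, hR1, hR2, hR⟩ := pw (A := Q) (B := 4*N + i + l - m + 2*c + 2*d) (γ := N + d) (by omega) (fun t h1 h2 => (fin X.al.per 1 _ (pf X.d1 X.al.per 0 (2*d + t) (rfl : W (t) = W (t)) (by omega)) (by omega))) L
  exact X.al.ubQ (2*a + 2*b + 2*R) (by omega) (by omega) fun t h1 h2 => (fin X.al.per 0 _ (pp hR X.al.per 0 (2*a + 2*b + t + 2*R) (pf X.bb X.al.per 0 (2*a + 2*b + t) (rfl : W (t) = W (t)) (by omega)) (by omega)) (by omega))

theorem main (X : C W N Q i a b l m c d) (hb : B N Q i a b l m c d) : False := by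
  obtain ⟨b1, b2, b3, b4, b5, b6, b7, b8, b9, b10, b11, b12, b13, b14, b15⟩ := id hb
  rcases lt_or_ge (-N + m - c) 0 with h1 | h1
  · rcases lt_or_ge (i - b) 0 with h2 | h2
    · rcases lt_or_ge (-N + m - d) 0 with h3 | h3
      · rcases lt_or_ge (-N + Q - i - a + b - c - 1) 0 with h4 | h4
        · rcases lt_or_ge (-N - Q + 2*i + 2*a - d + 1) 0 with h5 | h5
          · rcases lt_or_ge (m - c + d) 0 with h6 | h6
            · obtain ⟨U, ⟨U0, U1, U2⟩, w1⟩ := T148_i X hb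
              rcases lt_or_ge (Q - i - 2*a - 2*b - l + 2*U - 2) 0 with h7 | h7
              · rcases lt_or_ge (a + b - U) 0 with h8 | h8
                · rcases lt_or_ge (-2*N - Q + i + l - 2*d + 1) 0 with h9 | h9
                  · obtain ⟨V, ⟨V0, V1, V2⟩, w2⟩ := T152_i X hb w1 (by clear * - b2 b6 b15 h3 h5 h7 h8; omega)
                    rcases lt_or_ge (4*N + i + l - m + 2*c + 4*d - 2*U) 0 with h10 | h10
                    · rcases lt_or_ge (2*N + Q - i - 2*a - 2*b + 2*d - 1) 0 with h11 | h11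
                      · rcases lt_or_ge (-N - c - d - 1) 0 with h12 | h12
                        · rcases lt_or_ge (-b + m - c) 0 with h13 | h13
                          · rcases lt_or_ge (2*N - 2*a + l - m + 2*c + 2*d - 1) 0 with h14 | h14
                            · rcases lt_or_ge (-2*N + a + b + m - 2*c + U) 0 with h15 | h15
                              · rcases lt_or_ge (-N + m - c + U) 0 with h16 | h16
                                · rcases lt_or_ge (-Q - 2*d - 2*U) 0 with h17 | h17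
                                  · rcases lt_or_ge (-N - b - 2*d - 1) 0 with h18 | h18
                                    · exact T152_9 X hb w1 w2 ⟨by clear * - h7 h8 h14 h16 h18; omega, by clear * - b15 h5 h7 h8 h12 h14 h16 h17 h18; omega, by clear * - h8 h14 h16 h18; omega⟩
                                    rcases lt_or_ge (2*N + i + 2*a + 2*b + 4*d) 0 with h19 | h19
                                    · exact T152_10 X hb w1 w2 ⟨by clear * - h17 h19; omega, by clear * - h7 h8 h15; omega, by clear * - h7 h9; omega⟩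
                                    exact T152_8 X hb w1 w2 ⟨by clear * - b11 b15 h7 h8 h12 h13; omega, by clear * - h18; omega, by clear * - h19; omega⟩
                                  exact T152_7 X hb w1 w2 ⟨by clear * - h8 h12; omega, by clear * - h17; omega, by clear * - b14 U2 h10; omega, by clear * - b6 b15 h3 h7; omega⟩
                                exact T152_6 X hb w1 w2 ⟨by clear * - h16; omega, by clear * - b15 h7 h12 h15 h16; omega, by clear * - h3 h7 h9 h15 h16; omega⟩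
                              rcases lt_or_ge (2*N - a - b + 2*c - U - 1) 0 with h20 | h20
                              · rcases lt_or_ge (-N + i + a + U) 0 with h21 | h21
                                · rcases lt_or_ge (i - 2*b + l - m + 2*c - 2*d) 0 with h22 | h22
                                  · exact T152_13 X hb w1 w2 ⟨by clear * - h7 h8 V0 V2 h11 h12 h13 h21 h22; omega, by clear * - b6 h3 h8 h14 h21; omega, by clear * - b6 h3 h14 h22; omega⟩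
                                  exact T152_12 X hb w1 w2 ⟨by clear * - b6 h7 h8 h13 h14 h21; omega, by clear * - h22; omega, by clear * - b1 h12 h20 h21; omega⟩
                                exact T152_11 X hb w1 w2 ⟨by clear * - h21; omega, by clear * - b9 h7 h21; omega, by clear * - b6 b9 h3 h5 h7 h21; omega⟩
                              exact T152_5 X hb w1 w2 ⟨by clear * - h8; omega, by clear * - h15; omega, by clear * - h20; omega, by clear * - h3 h7 h9; omega⟩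
                            exact T152_4 X hb w1 w2 ⟨by clear * - h14; omega, by clear * - h11; omega⟩
                          exact T152_3 X hb w1 w2 ⟨by clear * - b15 h3 h11 h12 h13; omega, by clear * - h13; omega, by clear * - b3 h11 h12; omega⟩
                        rcases lt_or_ge (2*N - Q + i - 2*a - 2*b + l - m + 2*c - 1) 0 with h23 | h23
                        · rcases lt_or_ge (2*N - a - b + 2*c - U - 1) 0 with h24 | h24
                          · rcases lt_or_ge (-N + i + a + U) 0 with h25 | h25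
                            · rcases lt_or_ge (-Q + i + 2*b + l - m + 2*c) 0 with h26 | h26
                              · rcases lt_or_ge (-2*N - 2*d + U - 1) 0 with h27 | h27
                                · rcases lt_or_ge (N + b + 2*d - 1) 0 with h28 | h28
                                  · rcases lt_or_ge (N + b + 2*d) 0 with h29 | h29
                                    · exact T152_8 X hb w1 w2 ⟨by clear * - b3 U1 h11 h24 h25 h27 h29; omega, by clear * - h29; omega, by clear * - b14 h8 h11 h23 h27; omega⟩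
                                    exact T152_16 X hb w1 w2 ⟨by clear * - b15 h6 U1 h7 h12; omega, by clear * - h11 h26 h29; omega, by clear * - h29; omega, by clear * - h28; omega⟩
                                  rcases lt_or_ge (-2*N - Q - 4*d) 0 with h30 | h30
                                  · exact T152_13 X hb w1 w2 ⟨by clear * - h8 h11 h25 h30; omega, by clear * - b15 h6 U1 h7 h12 h26; omega, by clear * - h11 h30; omega⟩
                                  exact T152_12 X hb w1 w2 ⟨by clear * - h30; omega, by clear * - b6 h6 h8 h24 h26 h27 h30; omega, by clear * - h28; omega⟩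
                                rcases lt_or_ge (6*N + i + l - m + 2*c + 6*d - 2*U) 0 with h31 | h31
                                · exact T152_8 X hb w1 w2 ⟨by clear * - b1 h3 U1 h7 h23 h25 h31; omega, by clear * - b6 b9 h3 h7 h26 h31; omega, by clear * - b1 h3 U1 h7 h23 h25 h26 h27; omega⟩
                                exact T152_15 X hb w1 w2 ⟨by clear * - b9 h7; omega, by clear * - h31; omega, by clear * - h27; omega⟩
                              exact T152_14 X hb w1 w2 ⟨by clear * - h26; omega, by clear * - b15 h4 h12 h23; omega⟩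
                            exact T152_11 X hb w1 w2 ⟨by clear * - h25; omega, by clear * - b9 h7 h25; omega, by clear * - b6 b9 h3 h5 h7 h25; omega⟩
                          exact T152_5 X hb w1 w2 ⟨by clear * - h8; omega, by clear * - h7 h8 h23; omega, by clear * - h24; omega, by clear * - h3 h7 h9; omega⟩
                        rcases lt_or_ge (4*N - Q + i - 2*a - 2*b + l - m + 4*c + 2*d) 0 with h32 | h32
                        · rcases lt_or_ge (-2*N + Q - i - 2*a - 2*b - 2*d + 2*U - 1) 0 with h33 | h33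
                          · rcases lt_or_ge (2*N - a - b + 2*c - U - 1) 0 with h34 | h34
                            · rcases lt_or_ge (-Q + i + 2*b + l - m + 2*c) 0 with h35 | h35
                              · rcases lt_or_ge (-N + i + a + U) 0 with h36 | h36
                                · rcases lt_or_ge (-N + b + U - 1) 0 with h37 | h37
                                  · rcases lt_or_ge (-N - b - 2*d) 0 with h38 | h38
                                    · rcases lt_or_ge (-2*N - Q - 4*d) 0 with h39 | h39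
                                      · exact T152_13 X hb w1 w2 ⟨by clear * - h10 h11 h23 h36 h39; omega, by clear * - b15 h6 U1 h7 h23 h34 h37; omega, by clear * - h11 h39; omega⟩
                                      exact T152_12 X hb w1 w2 ⟨by clear * - h39; omega, by clear * - b6 h6 h23 h34 h35 h37 h38 h39; omega, by clear * - h38; omega⟩
                                    rcases lt_or_ge (N + b + 2*d) 0 with h40 | h40
                                    · exact T152_8 X hb w1 w2 ⟨by clear * - b3 U1 h11 h33 h34 h36 h40; omega, by clear * - h40; omega, by clear * - b14 U1 h32 h33; omega⟩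
                                    exact T152_16 X hb w1 w2 ⟨by clear * - b15 h6 U1 h7 h23 h34; omega, by clear * - h11 h35 h40; omega, by clear * - h40; omega, by clear * - h38; omega⟩
                                  exact T152_17 X hb w1 w2 ⟨by clear * - h11 h23 h33 h35 h36; omega, by clear * - b6 h3 h11 h23 h33 h35 h36; omega, by clear * - h37; omega⟩
                                exact T152_11 X hb w1 w2 ⟨by clear * - h36; omega, by clear * - h11 h23 h33 h35; omega, by clear * - b6 h5 h6 h11 h23 h33 h34 h35 h36; omega⟩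
                              exact T152_14 X hb w1 w2 ⟨by clear * - h35; omega, by clear * - b15 h4 h32; omega⟩
                            exact T152_5 X hb w1 w2 ⟨by clear * - h8; omega, by clear * - U1 h7 h23 h32; omega, by clear * - h34; omega, by clear * - h3 h7 h9; omega⟩
                          exact T152_10 X hb w1 w2 ⟨by clear * - h33; omega, by clear * - h23; omega, by clear * - h7 h9; omega⟩
                        exact T152_2 X hb w1 w2 ⟨by clear * - h9; omega, by clear * - h12; omega, by clear * - h32; omega, by clear * - U1 h7; omega⟩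
                      rcases lt_or_ge (-N + a + b - d - 1) 0 with h41 | h41
                      · exact T152_2 X hb w1 w2 ⟨by clear * - h9; omega, by clear * - b6 b15 h3 h7 h10 h41; omega, by clear * - b15 h6 U1 h7 h41; omega, by clear * - U1 h7; omega⟩
                      exact T152_1 X hb w1 w2 ⟨by clear * - h11; omega, by clear * - h41; omega⟩
                    rcases lt_or_ge (-N - d + U - 1) 0 with h42 | h42
                    · rcases lt_or_ge (N - a - b + c + d + U - 1) 0 with h43 | h43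
                      · exact T152_2 X hb w1 w2 ⟨by clear * - h9; omega, by clear * - h8 h43; omega, by clear * - b15 h6 U1 h7 h8 h42; omega, by clear * - U1 h7; omega⟩
                      rcases lt_or_ge (-Q - 2*d - 2*U) 0 with h44 | h44
                      · rcases lt_or_ge (-2*a - b - d - 1) 0 with h45 | h45
                        · rcases lt_or_ge (-a - 2*b - d - 1) 0 with h46 | h46
                          · rcases lt_or_ge (N + c + d - 1) 0 with h47 | h47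
                            · exact T152_21 X hb w1 w2 ⟨by clear * - h42 h43 h46 h47; omega, by clear * - b6 h2 h6 h42 h43 h47; omega, by clear * - b15 h4 h6 h42 h43 h46 h47; omega⟩
                            rcases lt_or_ge (-i - 2*a - 2*b - 2*d - 1) 0 with h48 | h48
                            · exact T152_21 X hb w1 w2 ⟨by clear * - b15 h2 h6 h7 h8 h42 h48; omega, by clear * - b6 h2 h6 h8 h42; omega, by clear * - b15 h2 h4 h6 h7 h8 h42 h48; omega⟩
                            rcases lt_or_ge (-2*N + i + 2*a + 2*b + l - 2*c + 1) 0 with h49 | h49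
                            · exact T152_22 X hb w1 w2 ⟨by clear * - b15 h6 h7 h8 h42 h45 h46 h49; omega, by clear * - b6 b15 h6 h7 h8 h42 h45 h49; omega, by clear * - b1 b15 h6 h7 h8 h42 h45 h46; omega⟩
                            exact T152_20 X hb w1 w2 ⟨by clear * - b11 b15 h6 h7 h8 h42; omega, by clear * - h47; omega, by clear * - h48; omega, by clear * - h49; omega, by clear * - b15 h6 h7 h8 h42 h47 h49; omega⟩
                          exact T152_19 X hb w1 w2 ⟨by clear * - b3 b4 h2; omega, by clear * - h7 h44; omega, by clear * - h46; omega, by clear * - b1 h2 h45; omega⟩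
                        rcases lt_or_ge (Q - i + b + d - 1) 0 with h50 | h50
                        · rcases lt_or_ge (-N - b - 2*d - 1) 0 with h51 | h51
                          · rcases lt_or_ge (N - a - 2*b + c - 1) 0 with h52 | h52
                            · exact T152_21 X hb w1 w2 ⟨by clear * - h8 h42 h52; omega, by clear * - b6 h2 h6 h8 h42; omega, by clear * - b15 h4 h6 h8 h42 h52; omega⟩
                            rcases lt_or_ge (-2*N + i + 4*a + 4*b - 2*c) 0 with h53 | h53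
                            · rcases lt_or_ge (c + U - 1) 0 with h54 | h54
                              · rcases lt_or_ge (N + d - U - 1) 0 with h55 | h55
                                · exact T152_26 X hb w1 w2 ⟨by clear * - b15 h7 h44 h51 h53 h54 h55; omega, by clear * - h5 h7 h44 h51 h53 h54 h55; omega, by clear * - b2 b15 h6 h50 h51; omega, by clear * - b6 h51 h53 h54 h55; omega⟩
                                exact T152_25 X hb w1 w2 ⟨by clear * - h2 V0 V2 h50; omega, by clear * - b15 h6 h7 h8 h43 h44; omega, by clear * - h55; omega⟩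
                              exact T152_24 X hb w1 w2 ⟨by clear * - b15 h3 h7 h44 h53; omega, by clear * - b15 h3 h7 h50 h51 h53; omega, by clear * - h54; omega⟩
                            exact T152_22 X hb w1 w2 ⟨by clear * - b15 h2 h6 h8 h42 h45 h50 h51 h52 h53; omega, by clear * - h52; omega, by clear * - h53; omega⟩
                          rcases lt_or_ge (2*N - Q + i + 2*b + l - m + 2*c + 2*d) 0 with h56 | h56
                          · rcases lt_or_ge (i + 4*a + 4*b + 2*d) 0 with h57 | h57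
                            · rcases lt_or_ge (-b - d - V - 1) 0 with h58 | h58
                              · rcases lt_or_ge (-2*a - 3*b - d) 0 with h59 | h59
                                · exact T152_29 X hb w1 w2 ⟨by clear * - h42 h44; omega, by clear * - h6 h7 h43 h44 h50 h56 h57 h59; omega⟩
                                rcases lt_or_ge (2*a + 3*b + d) 0 with h60 | h60
                                · exact T152_29 X hb w1 w2 ⟨by clear * - h42 h44; omega, by clear * - h6 h7 h8 h43 h56; omega⟩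
                                exact T152_28 X hb w1 w2 ⟨by clear * - h7 h44 h57; omega, by clear * - h7 h44 h59; omega, by clear * - h6 h42 h43 h44 h45 h50 h51 h56 h57 h60; omega, by clear * - h6 h42 h43 h44 h45 h50 h51 h57 h60; omega, by clear * - h60; omega, by clear * - h59; omega⟩
                              exact T152_27 X hb w1 w2 ⟨by clear * - b4 h2 V1 h45 h57; omega, by clear * - b3 b4 h2; omega, by clear * - h7 h44; omega, by clear * - h58; omega, by clear * - b1 V1; omega⟩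
                            exact T152_19 X hb w1 w2 ⟨by clear * - h2 h45 h57; omega, by clear * - h7 h44; omega, by clear * - h8 h42 h51; omega, by clear * - h57; omega⟩
                          exact T152_23 X hb w1 w2 ⟨by clear * - h42 h44; omega, by clear * - h56; omega, by clear * - h51; omega⟩
                        exact T152_18 X hb w1 w2 ⟨by clear * - h45; omega, by clear * - h50; omega, by clear * - h4 h6 h7 h8 h42 h45 h50; omega⟩
                      exact T152_7 X hb w1 w2 ⟨by clear * - h43; omega, by clear * - h44; omega, by clear * - b6 b15 h3 h7 h8 V1 V2; omega, by clear * - b6 b15 h3 h7; omega⟩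
                    exact T152_0 X hb w1 w2 ⟨by clear * - b9 h7; omega, by clear * - h10; omega, by clear * - h42; omega⟩
                  exact T148_2 X hb w1 (by clear * - h9; omega)
                rcases lt_or_ge (-a - b + U) 0 with h61 | h61
                · rcases lt_or_ge (Q - i - 2*a - 2*b + 2*U - 1) 0 with h62 | h62
                  · rcases lt_or_ge (-N - d + U - 1) 0 with h63 | h63
                    · rcases lt_or_ge (b + c - 1) 0 with h64 | h64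
                      · rcases lt_or_ge (2*N + i + l - m + 2*c + 2*d - 2*U) 0 with h65 | h65
                        · exact T148_27 X hb w1 ⟨by clear * - b12 h6 h63 h65; omega, by clear * - b6 h3 h65; omega, by clear * - b6 b15 h3 h5 U1 h62 h64; omega⟩
                        rcases lt_or_ge (U - 1) 0 with h66 | h66
                        · exact T148_29 X hb w1 ⟨by clear * - b12 h6 U1 h66; omega, by clear * - U1 h66; omega, by clear * - h6 U1 h63; omega⟩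
                        exact T148_28 X hb w1 ⟨by clear * - b12 b15 h5 h6 U1 h62 h64 h65 h66; omega, by clear * - h65; omega, by clear * - h66; omega⟩
                      exact T148_36 X hb w1 ⟨by clear * - b2 b15 h3 U0 U1 h62; omega, by clear * - b2 b8 b15 U1 h63; omega, by clear * - h64; omega⟩
                    obtain ⟨V, ⟨V0, V1, V2⟩, w2⟩ := T153_i X hb w1 ⟨by clear * - b9 b14 h7; omega, by clear * - h63; omega⟩
                    rcases lt_or_ge (2*N - 2*a + l - m + 2*c + 2*d - 1) 0 with h67 | h67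
                    · rcases lt_or_ge (-i - 2*a + l + m + 1) 0 with h68 | h68
                      · rcases lt_or_ge (4*N + i + l - m + 2*c + 4*d - 2*U) 0 with h69 | h69
                        · rcases lt_or_ge (-b - l - c + U - 2) 0 with h70 | h70
                          · rcases lt_or_ge (N - b + m - c + d) 0 with h71 | h71
                            · rcases lt_or_ge (-N + m - c + U) 0 with h72 | h72
                              · rcases lt_or_ge (6*N + i + l - m + 2*c + 6*d - 2*U) 0 with h73 | h73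
                                · rcases lt_or_ge (i + a + d + U) 0 with h74 | h74
                                  · exact T153_8 X hb w1 w2 ⟨by clear * - U1 U2 h68 h70 h73; omega, by clear * - b8 b15 h5 U1 h67 h68 h70; omega, by clear * - b15 h3 U1 h62 h70; omega, by clear * - b8 U1 V0 V2 h67 h70 h72; omega, by clear * - b15 h3 U1 h7 h62 h70; omega, by clear * - U1 U2 V1 V2 h71; omega⟩
                                  exact T153_7 X hb w1 w2 ⟨by clear * - h74; omega, by clear * - b8 b15 U1 h62 h67 h72; omega, by clear * - h5 U1 h7 V0 V2 h72 h73 h74; omega, by clear * - b12 b15 h3 U1 h70 h72; omega⟩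
                                exact T153_6 X hb w1 w2 ⟨by clear * - b11 b12 h72; omega, by clear * - h73; omega, by clear * - b8 b15 h5 U1 h67 h68 h70 h71; omega⟩
                              exact T153_5 X hb w1 w2 ⟨by clear * - h72; omega, by clear * - b9 h68 h70 h72; omega, by clear * - h5 U1 h7 V0 V2 h68; omega⟩
                            exact T153_4 X hb w1 w2 ⟨by clear * - h71; omega, by clear * - b3 U1 h62 h68 h69 h70; omega, by clear * - b15 h3 U1 h62 V1 V2 h70; omega⟩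
                          exact T153_3 X hb w1 w2 ⟨by clear * - h7 h70; omega, by clear * - b6 b9 h3 h5 h7 h70; omega, by clear * - h70; omega⟩
                        exact T153_2 X hb w1 w2 ⟨by clear * - b9 h7; omega, by clear * - h69; omega, by clear * - h63; omega⟩
                      exact T153_1 X hb w1 w2 ⟨by clear * - h68; omega, by clear * - b15 h3 U1 h62 h67; omega⟩
                    exact T153_0 X hb w1 w2 ⟨by clear * - h67; omega, by clear * - h62 V1 V2; omega⟩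
                  exact T148_26 X hb w1 ⟨by clear * - h62; omega, by clear * - h61; omega⟩
                exact T148_1 X hb w1 ⟨by clear * - h8; omega, by clear * - h61; omega⟩
              rcases lt_or_ge (4*N - Q + i - 2*a - 2*b + l - m + 4*c + 2*d) 0 with h75 | h75
              · rcases lt_or_ge (2*N + Q - i - 2*a - 2*b + 2*d - 1) 0 with h76 | h76
                · rcases lt_or_ge (-Q + i + 2*b + l - m + 2*c) 0 with h77 | h77
                  · obtain ⟨V, ⟨V0, V1, V2⟩, w2⟩ := T154_i X hb w1 (by clear * - b12 b14 h5 h76 h77; omega)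
                    rcases lt_or_ge (2*N + Q - i - 2*a - 4*b - l - 2) 0 with h78 | h78
                    · rcases lt_or_ge (2*N - Q + i + 2*a + 2*b + l - m + 2*d - 2*U) 0 with h79 | h79
                      · rcases lt_or_ge (i + a - b) 0 with h80 | h80
                        · rcases lt_or_ge (-N + c - 2*d - 1) 0 with h81 | h81
                          · rcases lt_or_ge (-Q + i + 2*b + l - m + 2*c + 1) 0 with h82 | h82
                            · rcases lt_or_ge (-a - b + 2*c - 2*d - 1) 0 with h83 | h83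
                              · rcases lt_or_ge (-Q + i - 2*b + l + 2*c - 2*d + 1) 0 with h84 | h84
                                · rcases lt_or_ge (i + 2*a + 2*b + 2*d) 0 with h85 | h85
                                  · exact T154_8 X hb w1 w2 ⟨by clear * - h76 h85; omega, by clear * - b6 h6 h76 h81 h82 h85; omega, by clear * - b6 h4 h80 h83 h84 h85; omega⟩
                                  exact T154_7 X hb w1 w2 ⟨by clear * - b9 h78; omega, by clear * - b12 h6 h82; omega, by clear * - h85; omega⟩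
                                exact T154_6 X hb w1 w2 ⟨by clear * - b3 h76 h81; omega, by clear * - b6 h6 h78 h82; omega, by clear * - b6 b9 h4; omega, by clear * - b6 h6 h76 h80 h81 h82; omega, by clear * - h84; omega⟩
                              exact T154_5 X hb w1 w2 ⟨by clear * - h81 h83; omega, by clear * - h78 h81 h82 h83; omega, by clear * - h83; omega, by clear * - h6 h78 h81 h82 h83; omega⟩
                            exact T154_4 X hb w1 w2 ⟨by clear * - h82; omega, by clear * - h77; omega, by clear * - h76 h77; omega⟩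
                          rcases lt_or_ge (N + m - c + 2*d) 0 with h86 | h86
                          · rcases lt_or_ge (-2*N + i + 2*a - 2*d) 0 with h87 | h87
                            · rcases lt_or_ge (-Q + i + 2*b + l - m + 2*c + 1) 0 with h88 | h88
                              · exact T154_10 X hb w1 w2 ⟨by clear * - b14 h87 h88; omega, by clear * - h78 h81 h86 h88; omega⟩
                              exact T154_4 X hb w1 w2 ⟨by clear * - h88; omega, by clear * - h77; omega, by clear * - h76 h77; omega⟩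
                            exact T154_9 X hb w1 w2 ⟨by clear * - b9 h78; omega, by clear * - h87; omega⟩
                          exact T154_3 X hb w1 w2 ⟨by clear * - h86; omega, by clear * - h81; omega, by clear * - h6 h86; omega⟩
                        exact T154_2 X hb w1 w2 ⟨by clear * - h80; omega, by clear * - b3 b9 h78 h80; omega⟩
                      exact T154_1 X hb w1 w2 ⟨by clear * - h7; omega, by clear * - h79; omega⟩
                    rcases lt_or_ge (-N + a + 2*b - c - 1) 0 with h89 | h89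
                    · exact T154_11 X hb w1 w2 (by clear * - b6 h3 h5 h75 h76 h89; omega)
                    exact T154_0 X hb w1 w2 ⟨by clear * - h78; omega, by clear * - h89; omega, by clear * - b6 b9 h4; omega⟩
                  exact T148_14 X hb w1 ⟨by clear * - h77; omega, by clear * - b15 h4 h75; omega⟩
                exact T148_9 X hb w1 ⟨by clear * - h76; omega, by clear * - b4 b6 b15 h2 h4 h6 h75; omega⟩
              exact T148_0 X hb w1 ⟨by clear * - h7; omega, by clear * - U2; omega, by clear * - h75; omega⟩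
            rcases lt_or_ge (c - d - 1) 0 with h90 | h90
            · rcases lt_or_ge (N - a - b + 2*c - d - 1) 0 with h91 | h91
              · rcases lt_or_ge (-N + a + 2*b - c - 1) 0 with h92 | h92
                · rcases lt_or_ge (2*N + Q - i - 2*a - 2*b - l + 2*d - 2) 0 with h93 | h93
                  · exact T0_26 X hb ⟨by clear * - b4 b6 b15 h2 h90 h92; omega, by clear * - b6 b9 h6 h91; omega, by clear * - b4 b6 b15 h2 h3 h92; omega, by clear * - b9 b14 h1 h6 h91; omega, by clear * - b6 b9 h91; omega, by clear * - b15 h1 h6 h90; omega⟩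
                  rcases lt_or_ge (4*N - Q + i - 2*a - 2*b + l - m + 4*c + 2*d) 0 with h94 | h94
                  · exact T0_26 X hb ⟨by clear * - b4 b6 h2 h6 h92 h94; omega, by clear * - b12 h6 h91 h93; omega, by clear * - b4 b14 b15 h1 h2 h92 h94; omega, by clear * - b12 h1 h6 h91 h93; omega, by clear * - b6 b9 h91; omega, by clear * - b15 h1 h6 h90; omega⟩
                  exact T0_7 X hb ⟨by clear * - h93; omega, by clear * - b4 b6 b8 b15 h1 h2 h91 h92 h94; omega, by clear * - h94; omega⟩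
                rcases lt_or_ge (2*N + Q - i - 2*a - 4*b - l - 2) 0 with h95 | h95
                · exact T0_23 X hb ⟨by clear * - b6 b15 h3 h4 h90; omega, by clear * - b6 b9 b15 h3 h91 h95; omega⟩
                exact T0_14 X hb ⟨by clear * - h95; omega, by clear * - h92; omega, by clear * - b6 b9 h4; omega⟩
              exact T0_25 X hb ⟨by clear * - h90 h91; omega, by clear * - b4 b6 b15 h2 h4 h90 h91; omega, by clear * - h91; omega, by clear * - b4 b6 b15 h2 h3 h4 h90 h91; omega⟩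
            exact T0_8 X hb ⟨by clear * - h6; omega, by clear * - h90; omega⟩
          exact T0_4 X hb ⟨by clear * - h5; omega, by clear * - b6 h3; omega, by clear * - b6 b9 b12 b14 b15 h2 h3; omega⟩
        rcases lt_or_ge (N - a - b - l - c - 2) 0 with h96 | h96
        · obtain ⟨U, ⟨U0, U1, U2⟩, w1⟩ := T128_i X hb
          rcases lt_or_ge (-N + m - c + U) 0 with h97 | h97
          · rcases lt_or_ge (Q - i - 2*a - 2*b + 2*U - 1) 0 with h98 | h98
            · rcases lt_or_ge (-N + Q - i + b - 1) 0 with h99 | h99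
              · rcases lt_or_ge (U - 1) 0 with h100 | h100
                · exact T128_24 X hb w1 ⟨by clear * - b6 b11 b15 h96 U1 h98; omega, by clear * - b6 b9 b15 h96 U1 h98 h100; omega, by clear * - b15 h96 U0 U1 U2 h97 h98; omega, by clear * - b9 b14 U1 U2 h97; omega, by clear * - b6 b9 U1 h100; omega, by clear * - b15 U1 U2 h97; omega⟩
                rcases lt_or_ge (2*N + i + l - m + 2*c + 2*d - 2*U) 0 with h101 | h101
                · rcases lt_or_ge (-2*N + Q + 2*a - 2*d) 0 with h102 | h102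
                  · rcases lt_or_ge (2*N + Q - i - 2*a - 4*b - l + 2*U - 2) 0 with h103 | h103
                    · exact T128_26 X hb w1 ⟨by clear * - b6 b9 h4 h96 U1 h97 h103; omega, by clear * - h98; omega, by clear * - h100; omega⟩
                    rcases lt_or_ge (4*N - Q + i - 2*a - 2*b + l - m + 4*c + 2*d) 0 with h104 | h104
                    · exact T128_26 X hb w1 ⟨by clear * - b6 h96 U1 h97 h102 h103 h104; omega, by clear * - h98; omega, by clear * - h100; omega⟩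
                    exact T128_25 X hb w1 ⟨by clear * - h103; omega, by clear * - b1 b15 h96 U1 h97 h98 h102; omega, by clear * - h104; omega, by clear * - b1 b2 h101 h104; omega⟩
                  rcases lt_or_ge (-Q + 2*c - 2*d) 0 with h105 | h105
                  · exact T128_3 X hb w1 ⟨by clear * - b6 b9 h96 h105; omega, by clear * - b6 h96 U2 h97 h98 h101 h105; omega⟩
                  exact T128_19 X hb w1 ⟨by clear * - h105; omega, by clear * - b6 b9 h96; omega, by clear * - h102; omega, by clear * - b6 b9 h4 U1 h98; omega⟩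
                exact T128_2 X hb w1 ⟨by clear * - b15 h2 h99 h101; omega, by clear * - h101; omega, by clear * - h100; omega⟩
              exact T128_23 X hb w1 (by clear * - h99; omega)
            exact T128_8 X hb w1 ⟨by clear * - h98; omega, by clear * - b1 b11 h96 h97; omega⟩
          exact T128_0 X hb w1 ⟨by clear * - h97; omega, by clear * - U2; omega, by clear * - h3 U2 h97; omega⟩
        exact T0_3 X hb ⟨by clear * - h4; omega, by clear * - h96; omega⟩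
      exact T0_2 X hb (by clear * - h3; omega)
    exact T0_1 X hb (by clear * - h2; omega)
  exact T0_0 X hb (by clear * - h1; omega)

end Pool.Agent.MP_a38735_al.WL.L3c10
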