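import Pool.Agent.MP_a38735_al.AP

set_option autoImplicit false
set_option linter.unusedVariables false

namespace Pool.Agent.MP_a38735_al.WL.L3c3

variable {G : Type*} [Group G]

structure C (W : ℤ → G) (N Q i a b l m c d : ℤ) : Prop where
  al : AL W (2*N) Q
  a1 : Par W (0) (i + 2*a) (2*b)
  a2 : Par W (Q - 2*b) (i + 2*a) (2*b)
  s1 : Ant W (0) (i) (2*i + 2*a)
  s2 : Ant W (i + 2*a + 1) (Q) (2*i + 2*a)
  bb : Par W (i + 1) (i + l + 1) (2*a + 2*b)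
  c1 : Par W (-2*N + i + 2*a + 2*b + l + 2*c + 2) (2*N) (2*N - 2*a - 2*b - 2*c)
  c2 : Par W (i + l + 2) (Q) (-2*N + 2*a + 2*b + 2*c)
  S2 : Ant W (-2*N + i + 2*a + 2*b + l - m + 2*c + 1) (-2*N + i + 2*a + 2*b + l + 2*c + 1) (-4*N + 2*i + 4*a + 4*b + 2*l + 2*c + 2)
  n1 : Nd W (i + 2*a) (i) (i + 2*a + 2*b)
  n2 : Nd W (-2*N + i + 2*a + 2*b + l + 1) (-2*N + i + 2*a + 2*b + l + 2*c + 1) (i + l + 1)
  yx3 : W (-2*N + i + 2*a + 2*b + l - m + 2*c) ≠ (W (-2*N + i + 2*a + 2*b + l + m + 2))⁻¹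

/-- the linear side conditions -/
abbrev B (N Q i a b l m c d : ℤ) : Prop :=
  0 ≤ i ∧ 0 ≤ a ∧ i + 2*a + 1 ≤ Q ∧ Q ≤ i + 2*a + 2*b ∧ i + 2*a + 2*b + 1 ≤ 2*N ∧ 2*N + Q ≤ i + 2*a + 2*b + l + 2*c + 1 ∧ i + 2*a + 2*b + l + 2*c + 2 ≤ 4*N ∧ i + l + 2 ≤ Q ∧ 2*N ≤ i + 2*a + 2*b + l + 1 ∧ 0 ≤ d ∧ d ≤ 0 ∧ 2*N + Q + m ≤ i + 2*a + 2*b + l + 2*c ∧ i + 2*a + 2*b + l + 2*c + 1 ≤ 4*N + m ∧ 2*N + Q ≤ i + 2*a + 2*b + l + m + 2 ∧ i + 2*a + 2*b + l + m + 3 ≤ 4*N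

variable {W : ℤ → G} {N Q i a b l m c d U V : ℤ}

theorem T0_0 (X : C W N Q i a b l m c d) (hb : B N Q i a b l m c d)
    (h : b + l + c + 2 ≤ 2*N ∧ b + 1 ≤ c) :
    False := by
  obtain ⟨b1, b2, b3, b4, b5, b6, b7, b8, b9, b10, b11, b12, b13, b14, b15⟩ := hb
  obtain ⟨g1, g2⟩ := h
  have k1 : 2*N + Q ≤ i + 2*a + 3*b + l + c + 1 := by clear * - b3 b12 b14 g1; omega
  have k2 : c ≤ b + m := by clear * - b3 b14 g1; omega
  clear * - X g1 g2 k1 k2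
  exact X.al.ninv (-2*N + i + 2*a + b + l + c + 1) (fin X.al.per 0 _ (af X.S2 X.al.per 0 (-2*N + i + 2*a + b + l + c + 1) (pf X.a2 X.al.per 0 (-2*N + i + 2*a + 3*b + l + c + 1) (rfl : W (-2*N + i + 2*a + b + l + c + 1) = W (-2*N + i + 2*a + b + l + c + 1)) (by omega)) (by omega)) (by omega))

theorem T0_1 (X : C W N Q i a b l m c d) (hb : B N Q i a b l m c d)
    (h : c ≤ m) :
    False := by
  obtain ⟨b1, b2, b3, b4, b5, b6, b7, b8, b9, b10, b11, b12, b13, b14, b15⟩ := hb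
  have g1 := h
  have k1 : 1 ≤ c := by clear * - b1 b5 b8 b12 g1; omega
  clear * - X g1 k1
  exact X.al.ninv (-2*N + i + 2*a + 2*b + l + c + 1) (fin X.al.per 0 _ (af X.S2 X.al.per 0 (-2*N + i + 2*a + 2*b + l + c + 1) (rfl : W (-2*N + i + 2*a + 2*b + l + c + 1) = W (-2*N + i + 2*a + 2*b + l + c + 1)) (by omega)) (by omega))

theorem T0_2 (X : C W N Q i a b l m c d) (hb : B N Q i a b l m c d)
    (h : N + a ≤ b + l) :
    False := by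
  obtain ⟨b1, b2, b3, b4, b5, b6, b7, b8, b9, b10, b11, b12, b13, b14, b15⟩ := hb
  have g1 := h
  have k1 : N + i + a + 1 ≤ Q + b := by clear * - b8 g1; omega
  have k2 : a + b + 1 ≤ N := by clear * - b1 b5; omega
  have k3 : i + a + b + 1 ≤ N + Q := by clear * - b1 b5 b8 b9; omega
  have k4 : a + 3*b + 1 ≤ 3*N := by clear * - b1 b2 b5; omega
  have k5 : 1 ≤ l := by clear * - b1 b2 b5 g1; omega
  clear * - X g1 k1 k2 k3 k4 k5
  obtain ⟨L, hL⟩ : ∃ L : ℤ, 2*a + 2 ≤ 2*L ∧ 2*a - 2*l ≤ 2*L ∧ -4*N + 2*a + 4*b + 2 ≤ 2*L ∧ 2*L + 2*(N - a - b) - 2 ≤ 2*Q - 2*i - 2*a - 2 ∧ 2*L + 2*(N - a - b) - 2 ≤ 4*N - 2*a - 4*b - 2 ∧ 2*L + 2*(N - a - b) - 2 ≤ -2*a + 2*l := ⟨((max (-4*N + 2*a + 4*b + 2) (max (2*a - 2*l) (2*a + 2))) + 1) / 2, by omega⟩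
  obtain ⟨R, hR1, hR2, hR⟩ := pw (A := i + 2*a + 2*b + 1) (B := 2*N + i + l + 1) (γ := N - a - b) (by omega) (fun t h1 h2 => (fin X.al.per 1 _ (pr X.bb X.al.per 0 (-2*a - 2*b + t) (rfl : W (t) = W (t)) (by omega)) (by omega))) L
  exact X.al.ninv (i + a + R) (fin X.al.per (-1) _ (pp hR X.al.per (-1) (2*N + i + a + R) (af X.s2 X.al.per 0 (i + a - R) (rfl : W (i + a + R) = W (i + a + R)) (by omega)) (by omega)) (by omega))

theorem T0_15 (X : C W N Q i a b l m c d) (hb : B N Q i a b l m c d)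
    (h : 3*N ≤ a + b + l + 2*c + 1 ∧ a + b + l + 2*c + 1 ≤ 3*N ∧ a + c ≤ N ∧ N ≤ a + c) :
    False := by
  obtain ⟨b1, b2, b3, b4, b5, b6, b7, b8, b9, b10, b11, b12, b13, b14, b15⟩ := hb
  obtain ⟨g1, g2, g3, g4⟩ := h
  have k1 : 2*b + l + 2 ≤ 2*N := by clear * - b1 b7 g4; omega
  have k2 : 2*c ≤ 2*b + m := by clear * - b8 b14 g3; omega
  have k3 : i + 2*a + l + 2*c + 2 ≤ 2*N + Q := by clear * - b8 g3; omega
  clear * - X g1 g2 g3 g4 b9 k1 k2 k3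
  exact X.n2.tor ⟨(fin X.al.per 1 _ (af' X.s2 X.al.per 0 (2*N + i - l - 2*c - 1) (af X.S2 X.al.per 0 (-2*N + i + 2*a + l + 2*c + 1) (pf X.a1 X.al.per 0 (-2*N + i + 2*a + 4*b + l + 1) (rfl : W (-2*N + i + 2*a + 2*b + l + 1) = W (-2*N + i + 2*a + 2*b + l + 1)) (by omega)) (by omega)) (by omega)) (by omega)), (fin X.al.per 0 _ (af X.S2 X.al.per 0 (-2*N + i + 2*a + l + 2*c + 1) (pf X.a1 X.al.per 0 (-2*N + i + 2*a + 4*b + l + 1) (rfl : W (-2*N + i + 2*a + 2*b + l + 1) = W (-2*N + i + 2*a + 2*b + l + 1)) (by omega)) (by omega)) (by omega))⟩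

theorem T0_16 (X : C W N Q i a b l m c d) (hb : B N Q i a b l m c d)
    (h : 3*N ≤ a + b + l + 2*c) :
    False := by
  obtain ⟨b1, b2, b3, b4, b5, b6, b7, b8, b9, b10, b11, b12, b13, b14, b15⟩ := hb
  have g1 := h
  have k1 : N ≤ a + b + m := by clear * - b1 b8 b13 b14 g1; omega
  have k2 : a + b + 2*c ≤ 3*N + m := by clear * - b1 b7 b9 b13 g1; omega
  have k3 : a + b + 1 ≤ N := by clear * - b1 b7 g1; omega
  have k4 : 3*a + 3*b + 2*c + 1 ≤ 5*N := by clear * - b1 b7 b9 g1; omega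
  have k5 : 1 ≤ l := by clear * - b1 b7 b9 g1; omega
  clear * - X g1 k1 k2 k3 k4 k5
  obtain ⟨L, hL⟩ : ∃ L : ℤ, -2*N - 2*m + 2*c ≤ 2*L ∧ -6*N + 4*a + 4*b + 2*c + 2 ≤ 2*L ∧ 2*N - 2*l - 2*c ≤ 2*L ∧ 2*L + 2*(N - a - b) - 2 ≤ -2*N + 2*c - 2 ∧ 2*L + 2*(N - a - b) - 2 ≤ -2*N + 2*l + 2*c ∧ 2*L + 2*(N - a - b) - 2 ≤ 6*N - 4*a - 4*b - 2*c - 2 := ⟨((max (2*N - 2*l - 2*c) (max (-6*N + 4*a + 4*b + 2*c + 2) (-2*N - 2*m + 2*c))) + 1) / 2, by omega⟩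
  obtain ⟨R, hR1, hR2, hR⟩ := pw (A := i + 2*a + 2*b + 1) (B := 2*N + i + l + 1) (γ := N - a - b) (by omega) (fun t h1 h2 => (fin X.al.per 1 _ (pr X.bb X.al.per 0 (-2*a - 2*b + t) (rfl : W (t) = W (t)) (by omega)) (by omega))) L
  exact X.al.ninv (-N + i + 2*a + 2*b + l + c + R + 1) (fin X.al.per 0 _ (pp hR X.al.per (-1) (-N + i + 2*a + 2*b + l + c + R + 1) (af X.S2 X.al.per 0 (-3*N + i + 2*a + 2*b + l + c - R + 1) (rfl : W (-N + i + 2*a + 2*b + l + c + R + 1) = W (-N + i + 2*a + 2*b + l + c + R + 1)) (by omega)) (by omega)) (by omega))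

theorem T1_i (X : C W N Q i a b l m c d) (hb : B N Q i a b l m c d) :
    ∃ U : ℤ, (0 ≤ U ∧ i + 1 ≤ 2*U ∧ 2*U < i + 1 + 2*(N - b)) ∧ Par W (Q) (2*N + i + 2*a - 2*U) (2*U) := by
  obtain ⟨b1, b2, b3, b4, b5, b6, b7, b8, b9, b10, b11, b12, b13, b14, b15⟩ := hb
  have k1 : Q + 1 ≤ i + 2*a + 2*b := by clear * - b1 b7 b8 b12 b14; omega
  have k2 : b + 1 ≤ N := by clear * - b1 b2 b5; omega
  have k3 : 2*b ≤ 2*N + i := by clear * - b1 b2 b5; omega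
  clear * - X k1 k2 k3
  exact (pwi (A := Q) (B := 2*N + i + 2*a) (γ := N - b) (i + 1) (by omega) (fun t h1 h2 => (fin X.al.per 1 _ (pr X.a2 X.al.per 0 (-2*b + t) (rfl : W (t) = W (t)) (by omega)) (by omega)))).imp
    fun _ h => ⟨h.1, h.2.cg (by omega)⟩

theorem T1_0 (X : C W N Q i a b l m c d) (hb : B N Q i a b l m c d)
    (w1 : Par W (Q) (2*N + i + 2*a - 2*U) (2*U))
    (h : 2*U ≤ i + 2*a ∧ 1 ≤ U) :
    False := by
  obtain ⟨b1, b2, b3, b4, b5, b6, b7, b8, b9, b10, b11, b12, b13, b14, b15⟩ := hb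
  obtain ⟨g1, g2⟩ := h
  have k1 : Q + 1 ≤ 2*N := by clear * - b14 b15; omega
  have k2 : U + 1 ≤ N := by clear * - b3 b14 b15 g1; omega
  clear * - X w1 g1 g2 k1 k2
  exact X.al.uqV (2*U) (by omega) (by omega) fun t h1 h2 => (fin X.al.per 0 _ (pf w1 X.al.per 0 (2*U + t) (rfl : W (t) = W (t)) (by omega)) (by omega))

theorem T1_1 (X : C W N Q i a b l m c d) (hb : B N Q i a b l m c d)
    (w1 : Par W (Q) (2*N + i + 2*a - 2*U) (2*U))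
    (h : 3*a + 3*b + 2*c + 2*U + 1 ≤ 5*N ∧ a + 3*b + l + 2*c + 2*U + 2 ≤ 5*N ∧ 3*N ≤ a + b + l + 2*c + 2*U ∧ 1 ≤ l) :
    False := by
  obtain ⟨b1, b2, b3, b4, b5, b6, b7, b8, b9, b10, b11, b12, b13, b14, b15⟩ := hb
  obtain ⟨g1, g2, g3, g4⟩ := h
  have k1 : N ≤ a + b + m := by clear * - b1 b5 b8 b14; omega
  have k2 : a + b + 2*c + 2*U ≤ 3*N + m := by clear * - b8 b14 g1; omega
  have k3 : b + l + 2*c + 2*U + 1 ≤ 3*N + a + m := by clear * - b8 b14 g2; omega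
  have k4 : a + b + 1 ≤ N := by clear * - b1 b5; omega
  have k5 : b + 1 ≤ N + a := by clear * - b2 g2 g3; omega
  have k6 : 3*N + Q ≤ i + 3*a + 3*b + l + 2*c + 1 := by clear * - b6 b8 b12 b14; omega
  have k7 : Q + 2*U ≤ N + i + a + b + l + 1 := by clear * - b8 b12 b14 g1; omega
  have k8 : Q + 2*U ≤ N + i + 3*a + b := by clear * - b8 b12 b14 g2; omega
  clear * - X w1 g1 g2 g3 g4 k1 k2 k3 k4 k5 k6 k7 k8
  obtain ⟨L, hL⟩ : ∃ L : ℤ, -2*N - 2*m + 2*c + 2*U ≤ 2*L ∧ -6*N + 4*a + 4*b + 2*c + 2*U + 2 ≤ 2*L ∧ 2*N - 2*l - 2*c - 2*U ≤ 2*L ∧ 2*N + 2*Q - 2*i - 4*a - 4*b - 2*l - 2*c + 2*U - 2 ≤ 2*L ∧ 2*L + 2*(N - a - b) - 2 ≤ -2*N + 2*c + 2*U - 2 ∧ 2*L + 2*(N - a - b) - 2 ≤ -2*N + 2*l + 2*c + 2*U ∧ 2*L + 2*(N - a - b) - 2 ≤ 6*N - 4*a - 4*b - 2*c - 2*U - 2 ∧ 2*L + 2*(N - a - b) - 2 ≤ 6*N - 4*b - 2*l - 2*c - 2*U - 4 := ⟨((max (2*N + 2*Q - 2*i - 4*a - 4*b - 2*l - 2*c + 2*U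 - 2) (max (2*N - 2*l - 2*c - 2*U) (max (-6*N + 4*a + 4*b + 2*c + 2*U + 2) (-2*N - 2*m + 2*c + 2*U)))) + 1) / 2, by omega⟩
  obtain ⟨R, hR1, hR2, hR⟩ := pw (A := i + 2*a + 2*b + 1) (B := 2*N + i + l + 1) (γ := N - a - b) (by omega) (fun t h1 h2 => (fin X.al.per 1 _ (pr X.bb X.al.per 0 (-2*a - 2*b + t) (rfl : W (t) = W (t)) (by omega)) (by omega))) L
  exact X.al.ninv (-N + i + 2*a + 2*b + l + c - U + R + 1) (fin X.al.per 0 _ (pr w1 X.al.per 0 (-N + i + 2*a + 2*b + l + c - U + R + 1) (pp hR X.al.per (-1) (-N + i + 2*a + 2*b + l + c + U + R + 1) (af X.S2 X.al.per 0 (-3*N + i + 2*a + 2*b + l + c + U - R + 1) (rfl : W (-N + i + 2*a + 2*b + l + c - U + R + 1) = W (-N + i + 2*a + 2*b + l + c - U + R + 1)) (by omega)) (by omega)) (by omega)) (by omega))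

theorem T1_2 (X : C W N Q i a b l m c d) (hb : B N Q i a b l m c d)
    (w1 : Par W (Q) (2*N + i + 2*a - 2*U) (2*U))
    (h : 3*N ≤ a + 3*b + m ∧ i + 3*a + b + l + 2*c + 2 ≤ 3*N) :
    False := by
  obtain ⟨b1, b2, b3, b4, b5, b6, b7, b8, b9, b10, b11, b12, b13, b14, b15⟩ := hb
  obtain ⟨g1, g2⟩ := h
  have k1 : 5*N + Q ≤ i + 3*a + 5*b + l + 2*c + 1 := by clear * - b12 g1; omega
  have k2 : a + 3*b + 1 ≤ 3*N := by clear * - b1 b2 b5; omega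
  have k3 : b + 1 ≤ N + a := by clear * - b1 b2 b5; omega
  have k4 : a + b + l + 2*c + 2 ≤ 3*N := by clear * - b1 b2 g2; omega
  clear * - X w1 g1 g2 k1 k2 k3 k4
  exact X.al.ninv (-5*N + i + 3*a + 3*b + l + 2*c + 1) (fin X.al.per (-1) _ (pf X.a2 X.al.per 1 (-3*N + i + 3*a + 3*b + l + 2*c + 1) (pr X.c1 X.al.per 0 (-N + i + 3*a + b + l + 2*c + 1) (af X.S2 X.al.per 0 (N + i + a - b + l + 1) (pf X.a2 X.al.per 0 (-5*N + i + 3*a + 5*b + l + 2*c + 1) (rfl : W (-5*N + i + 3*a + 3*b + l + 2*c + 1) = W (-5*N + i + 3*a + 3*b + l + 2*c + 1)) (by omega)) (by omega)) (by omega)) (by omega)) (by omega))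

theorem T1_13 (X : C W N Q i a b l m c d) (hb : B N Q i a b l m c d)
    (w1 : Par W (Q) (2*N + i + 2*a - 2*U) (2*U))
    (h : Q + 2*U ≤ 2*N ∧ 2*b + 2*U ≤ 2*N + i + 2*a ∧ N + 1 ≤ b + U) :
    False := by
  obtain ⟨b1, b2, b3, b4, b5, b6, b7, b8, b9, b10, b11, b12, b13, b14, b15⟩ := hb
  obtain ⟨g1, g2, g3⟩ := h
  have k1 : b + U + 1 ≤ 2*N := by clear * - b3 b14 b15 g2; omega
  clear * - X w1 g1 g2 g3 k1
  exact X.al.ubP (-2*N + 2*b + 2*U) (by omega) (by omega) fun t h1 h2 => (fin X.al.per (-1) _ (pf w1 X.al.per 0 (2*b + 2*U + t) (pf X.a2 X.al.per 0 (2*b + t) (rfl : W (t) = W (t)) (by omega)) (by omega)) (by omega))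

theorem T3_i (X : C W N Q i a b l m c d) (hb : B N Q i a b l m c d)
    (w1 : Par W (Q) (2*N + i + 2*a - 2*U) (2*U)) :
    ∃ V : ℤ, (0 ≤ V ∧ 2*N - 2*a - 2*c ≤ 2*V ∧ 2*V < 2*N - 2*a - 2*c + 2*(N - b)) ∧ Par W (Q) (2*N + i + 2*a - 2*V) (2*V) := by
  obtain ⟨b1, b2, b3, b4, b5, b6, b7, b8, b9, b10, b11, b12, b13, b14, b15⟩ := hb
  have k1 : Q + 1 ≤ i + 2*a + 2*b := by clear * - b1 b7 b8 b12 b14; omega
  have k2 : b + 1 ≤ N := by clear * - b1 b2 b5; omega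
  have k3 : a + b + c + 1 ≤ 2*N := by clear * - b1 b5 b7 b9; omega
  clear * - X w1 k1 k2 k3
  exact (pwi (A := Q) (B := 2*N + i + 2*a) (γ := N - b) (2*N - 2*a - 2*c) (by omega) (fun t h1 h2 => (fin X.al.per 1 _ (pr X.a2 X.al.per 0 (-2*b + t) (rfl : W (t) = W (t)) (by omega)) (by omega)))).imp
    fun _ h => ⟨h.1, h.2.cg (by omega)⟩

theorem T3_0 (X : C W N Q i a b l m c d) (hb : B N Q i a b l m c d)
    (w1 : Par W (Q) (2*N + i + 2*a - 2*U) (2*U))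
    (w2 : Par W (Q) (2*N + i + 2*a - 2*V) (2*V))
    (h : b + l + c + 2 ≤ 2*N + U ∧ b + 1 ≤ c + U ∧ b + l + c + U + 2 ≤ 2*N) :
    False := by
  obtain ⟨b1, b2, b3, b4, b5, b6, b7, b8, b9, b10, b11, b12, b13, b14, b15⟩ := hb
  obtain ⟨g1, g2, g3⟩ := h
  have k1 : 2*N + Q + U ≤ i + 2*a + 3*b + l + c + 1 := by clear * - b3 b12 b14 g3; omega
  have k2 : c + U ≤ b + m := by clear * - b3 b14 g3; omega
  have k3 : Q + U ≤ i + 2*a + b + l + c + 1 := by clear * - b5 b6 b9 g3; omega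
  clear * - X w1 w2 g1 g2 g3 k1 k2 k3
  exact X.al.ninv (-2*N + i + 2*a + b + l + c - U + 1) (fin X.al.per (-1) _ (pr w1 X.al.per (-1) (i + 2*a + b + l + c - U + 1) (af X.S2 X.al.per 0 (-2*N + i + 2*a + b + l + c + U + 1) (pf X.a2 X.al.per 0 (-2*N + i + 2*a + 3*b + l + c - U + 1) (rfl : W (-2*N + i + 2*a + b + l + c - U + 1) = W (-2*N + i + 2*a + b + l + c - U + 1)) (by omega)) (by omega)) (by omega)) (by omega))

theorem T3_1 (X : C W N Q i a b l m c d) (hb : B N Q i a b l m c d)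
    (w1 : Par W (Q) (2*N + i + 2*a - 2*U) (2*U))
    (w2 : Par W (Q) (2*N + i + 2*a - 2*V) (2*V))
    (h : 2*N ≤ a + b + l + c + V ∧ a + b + c + V + 1 ≤ 2*N ∧ a + 3*b + l + c + V + 2 ≤ 4*N ∧ a + b + 1 ≤ c + V) :
    False := by
  obtain ⟨b1, b2, b3, b4, b5, b6, b7, b8, b9, b10, b11, b12, b13, b14, b15⟩ := hb
  obtain ⟨g1, g2, g3, g4⟩ := h
  have k1 : 2*N + Q + V ≤ i + 3*a + 3*b + l + c + 1 := by clear * - b8 b12 b14 g2; omega
  have k2 : c + V ≤ a + b + m := by clear * - b8 b14 g2; omega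
  clear * - X w1 w2 g1 g2 g3 g4 k1 k2
  exact X.al.ninv (-2*N + i + a + b + l + c + V + 1) (fin X.al.per 0 _ (af X.S2 X.al.per 0 (-2*N + i + a + b + l + c + V + 1) (pr w2 X.al.per 0 (-2*N + i + 3*a + 3*b + l + c - V + 1) (pf X.bb X.al.per 0 (-2*N + i + 3*a + 3*b + l + c + V + 1) (rfl : W (-2*N + i + a + b + l + c + V + 1) = W (-2*N + i + a + b + l + c + V + 1)) (by omega)) (by omega)) (by omega)) (by omega))

theorem T3_2 (X : C W N Q i a b l m c d) (hb : B N Q i a b l m c d)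
    (w1 : Par W (Q) (2*N + i + 2*a - 2*U) (2*U))
    (w2 : Par W (Q) (2*N + i + 2*a - 2*V) (2*V))
    (h : b + l + c + V + 2 ≤ 2*N ∧ b + 1 ≤ c + V) :
    False := by
  obtain ⟨b1, b2, b3, b4, b5, b6, b7, b8, b9, b10, b11, b12, b13, b14, b15⟩ := hb
  obtain ⟨g1, g2⟩ := h
  have k1 : 2*N ≤ i + 2*a + b + l + c + V + 1 := by clear * - b9 g2; omega
  have k2 : 2*N + Q + V ≤ i + 2*a + 3*b + l + c + 1 := by clear * - b3 b12 b14 g1; omega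
  have k3 : 3*b + l + c + V + 2 ≤ 4*N := by clear * - b5 b9 g1 g2; omega
  have k4 : c + V ≤ b + m := by clear * - b3 b14 g1; omega
  clear * - X w1 w2 g1 g2 k1 k2 k3 k4
  exact X.al.ninv (-2*N + i + 2*a + b + l + c + V + 1) (fin X.al.per 0 _ (af X.S2 X.al.per 0 (-2*N + i + 2*a + b + l + c + V + 1) (pr w2 X.al.per 0 (-2*N + i + 2*a + 3*b + l + c - V + 1) (pf X.a1 X.al.per 0 (-2*N + i + 2*a + 3*b + l + c + V + 1) (rfl : W (-2*N + i + 2*a + b + l + c + V + 1) = W (-2*N + i + 2*a + b + l + c + V + 1)) (by omega)) (by omega)) (by omega)) (by omega))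

theorem T3_3 (X : C W N Q i a b l m c d) (hb : B N Q i a b l m c d)
    (w1 : Par W (Q) (2*N + i + 2*a - 2*U) (2*U))
    (w2 : Par W (Q) (2*N + i + 2*a - 2*V) (2*V))
    (h : a ≤ 0 ∧ 2*b + l + 2 ≤ 2*N ∧ b + l + c + V + 1 ≤ 2*N ∧ 2*N ≤ b + l + c + V + 1) :
    False := by
  obtain ⟨b1, b2, b3, b4, b5, b6, b7, b8, b9, b10, b11, b12, b13, b14, b15⟩ := hb
  obtain ⟨g1, g2, g3, g4⟩ := h
  have k1 : 2*N ≤ 2*b + l + m + 1 := by clear * - b5 b8 b9 b14 g1; omega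
  have k2 : 4*N + Q ≤ i + 2*a + 4*b + 2*l + 2*c + 2 := by clear * - b5 b8 b9 b12 b14 g1; omega
  have k3 : 2*b + l + c + V + 2 ≤ 3*N := by clear * - b5 b9 g2 g3; omega
  clear * - X w1 w2 g1 g2 g3 g4 b2 k1 k2 k3
  exact X.n1.tor ⟨(fin X.al.per 0 _ (rfl : W (i + 2*a) = W (i + 2*a)) (by omega)), (fin X.al.per 0 _ (pf w2 X.al.per 0 (-4*N + i + 2*a + 4*b + 2*l + 2*c + 2*V + 2) (ar X.S2 X.al.per 0 (-4*N + i + 2*a + 4*b + 2*l + 2*c + 2) (rfl : W (i + 2*a) = W (i + 2*a)) (by omega)) (by omega)) (by omega))⟩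

theorem T3_4 (X : C W N Q i a b l m c d) (hb : B N Q i a b l m c d)
    (w1 : Par W (Q) (2*N + i + 2*a - 2*U) (2*U))
    (w2 : Par W (Q) (2*N + i + 2*a - 2*V) (2*V))
    (h : Q + 2*V ≤ 2*N ∧ 2*b + 2*V ≤ 2*N + i + 2*a ∧ N + 1 ≤ b + V) :
    False := by
  obtain ⟨b1, b2, b3, b4, b5, b6, b7, b8, b9, b10, b11, b12, b13, b14, b15⟩ := hb
  obtain ⟨g1, g2, g3⟩ := h
  have k1 : b + V + 1 ≤ 2*N := by clear * - b3 b14 b15 g2; omega
  clear * - X w1 w2 g1 g2 g3 k1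
  exact X.al.ubP (-2*N + 2*b + 2*V) (by omega) (by omega) fun t h1 h2 => (fin X.al.per (-1) _ (pf w2 X.al.per 0 (2*b + 2*V + t) (pf X.a2 X.al.per 0 (2*b + t) (rfl : W (t) = W (t)) (by omega)) (by omega)) (by omega))

theorem T3_5 (X : C W N Q i a b l m c d) (hb : B N Q i a b l m c d)
    (w1 : Par W (Q) (2*N + i + 2*a - 2*U) (2*U))
    (w2 : Par W (Q) (2*N + i + 2*a - 2*V) (2*V))
    (h : 3*a + 3*b + 2*c + 2*V + 1 ≤ 5*N ∧ a + 3*b + l + 2*c + 2*V + 2 ≤ 5*N ∧ 3*N ≤ a + b + l + 2*c + 2*V ∧ 1 ≤ l) :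
    False := by
  obtain ⟨b1, b2, b3, b4, b5, b6, b7, b8, b9, b10, b11, b12, b13, b14, b15⟩ := hb
  obtain ⟨g1, g2, g3, g4⟩ := h
  have k1 : N ≤ a + b + m := by clear * - b1 b5 b8 b14; omega
  have k2 : a + b + 2*c + 2*V ≤ 3*N + m := by clear * - b8 b14 g1; omega
  have k3 : b + l + 2*c + 2*V + 1 ≤ 3*N + a + m := by clear * - b8 b14 g2; omega
  have k4 : a + b + 1 ≤ N := by clear * - b1 b5; omega
  have k5 : b + 1 ≤ N + a := by clear * - b2 g2 g3; omega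
  have k6 : 3*N + Q ≤ i + 3*a + 3*b + l + 2*c + 1 := by clear * - b6 b8 b12 b14; omega
  have k7 : Q + 2*V ≤ N + i + a + b + l + 1 := by clear * - b8 b12 b14 g1; omega
  have k8 : Q + 2*V ≤ N + i + 3*a + b := by clear * - b8 b12 b14 g2; omega
  clear * - X w1 w2 g1 g2 g3 g4 k1 k2 k3 k4 k5 k6 k7 k8
  obtain ⟨L, hL⟩ : ∃ L : ℤ, -2*N - 2*m + 2*c + 2*V ≤ 2*L ∧ -6*N + 4*a + 4*b + 2*c + 2*V + 2 ≤ 2*L ∧ 2*N - 2*l - 2*c - 2*V ≤ 2*L ∧ 2*N + 2*Q - 2*i - 4*a - 4*b - 2*l - 2*c + 2*V - 2 ≤ 2*L ∧ 2*L + 2*(N - a - b) - 2 ≤ -2*N + 2*c + 2*V - 2 ∧ 2*L + 2*(N - a - b) - 2 ≤ -2*N + 2*l + 2*c + 2*V ∧ 2*L + 2*(N - a - b) - 2 ≤ 6*N - 4*a - 4*b - 2*c - 2*V - 2 ∧ 2*L + 2*(N - a - b) - 2 ≤ 6*N - 4*b - 2*l - 2*c - 2*V - 4 := ⟨((max (2*N + 2*Q - 2*i - 4*a - 4*b - 2*l - 2*c + 2*V - 2) (max (2*N - 2*l - 2*c - 2*V) (max (-6*N + 4*a + 4*b + 2*c + 2*V + 2) (-2*N - 2*m + 2*c + 2*V)))) + 1)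 / 2, by omega⟩
  obtain ⟨R, hR1, hR2, hR⟩ := pw (A := i + 2*a + 2*b + 1) (B := 2*N + i + l + 1) (γ := N - a - b) (by omega) (fun t h1 h2 => (fin X.al.per 1 _ (pr X.bb X.al.per 0 (-2*a - 2*b + t) (rfl : W (t) = W (t)) (by omega)) (by omega))) L
  exact X.al.ninv (-N + i + 2*a + 2*b + l + c - V + R + 1) (fin X.al.per 0 _ (pr w2 X.al.per 0 (-N + i + 2*a + 2*b + l + c - V + R + 1) (pp hR X.al.per (-1) (-N + i + 2*a + 2*b + l + c + V + R + 1) (af X.S2 X.al.per 0 (-3*N + i + 2*a + 2*b + l + c + V - R + 1) (rfl : W (-N + i + 2*a + 2*b + l + c - V + R + 1) = W (-N + i + 2*a + 2*b + l + c - V + R + 1)) (by omega)) (by omega)) (by omega)) (by omega))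

theorem T3_6 (X : C W N Q i a b l m c d) (hb : B N Q i a b l m c d)
    (w1 : Par W (Q) (2*N + i + 2*a - 2*U) (2*U))
    (w2 : Par W (Q) (2*N + i + 2*a - 2*V) (2*V))
    (h : 2*a ≤ l ∧ 2*a + b ≤ N ∧ N ≤ 2*a + b ∧ 2*b + l + 2 ≤ 2*N ∧ b + l + c + V + 1 ≤ 2*N ∧ 2*N ≤ b + l + c + V + 1) :
    False := by
  obtain ⟨b1, b2, b3, b4, b5, b6, b7, b8, b9, b10, b11, b12, b13, b14, b15⟩ := hb
  obtain ⟨g1, g2, g3, g4, g5, g6⟩ := h
  have k1 : 2*N ≤ 2*b + l + m + 1 := by clear * - b8 b14 g1; omega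
  have k2 : 4*N + Q ≤ i + 2*a + 4*b + 2*l + 2*c + 2 := by clear * - b8 b12 b14 g1; omega
  clear * - X w1 w2 g1 g2 g3 g4 g5 g6 k1 k2
  exact X.n1.tor ⟨(fin X.al.per (-1) _ (pf X.bb X.al.per 0 (i + 4*a + 2*b) (rfl : W (i + 2*a) = W (i + 2*a)) (by omega)) (by omega)), (fin X.al.per 0 _ (pf w2 X.al.per 0 (-4*N + i + 2*a + 4*b + 2*l + 2*c + 2*V + 2) (ar X.S2 X.al.per 0 (-4*N + i + 2*a + 4*b + 2*l + 2*c + 2) (rfl : W (i + 2*a) = W (i + 2*a)) (by omega)) (by omega)) (by omega))⟩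

theorem T3_7 (X : C W N Q i a b l m c d) (hb : B N Q i a b l m c d)
    (w1 : Par W (Q) (2*N + i + 2*a - 2*U) (2*U))
    (w2 : Par W (Q) (2*N + i + 2*a - 2*V) (2*V))
    (h : 2*a ≤ l ∧ 3*a + 2*b ≤ 2*N ∧ 2*N ≤ 3*a + 2*b ∧ 2*b + l + 2 ≤ 2*N ∧ b + l + c + V + 1 ≤ 2*N ∧ 2*N ≤ b + l + c + V + 1) :
    False := by
  obtain ⟨b1, b2, b3, b4, b5, b6, b7, b8, b9, b10, b11, b12, b13, b14, b15⟩ := hb
  obtain ⟨g1, g2, g3, g4, g5, g6⟩ := h
  have k1 : 2*N ≤ 2*b + l + m + 1 := by clear * - b8 b14 g1; omega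
  have k2 : 4*N + Q ≤ i + 2*a + 4*b + 2*l + 2*c + 2 := by clear * - b8 b12 b14 g1; omega
  clear * - X w1 w2 g1 g2 g3 g4 g5 g6 k1 k2
  exact X.n1.tor ⟨(fin X.al.per (-1) _ (pf X.bb X.al.per 1 (-2*N + i + 6*a + 4*b) (pf X.bb X.al.per 0 (i + 4*a + 2*b) (rfl : W (i + 2*a) = W (i + 2*a)) (by omega)) (by omega)) (by omega)), (fin X.al.per 0 _ (pf w2 X.al.per 0 (-4*N + i + 2*a + 4*b + 2*l + 2*c + 2*V + 2) (ar X.S2 X.al.per 0 (-4*N + i + 2*a + 4*b + 2*l + 2*c + 2) (rfl : W (i + 2*a) = W (i + 2*a)) (by omega)) (by omega)) (by omega))⟩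

theorem T3_8 (X : C W N Q i a b l m c d) (hb : B N Q i a b l m c d)
    (w1 : Par W (Q) (2*N + i + 2*a - 2*U) (2*U))
    (w2 : Par W (Q) (2*N + i + 2*a - 2*V) (2*V))
    (h : 2*N + Q ≤ i + 2*a + 4*b + l + 1 ∧ 2*N ≤ b + l + c + V + 1 ∧ b + l + c + V + 1 ≤ 2*N ∧ a + c + V ≤ N ∧ N ≤ a + c + V) :
    False := by
  obtain ⟨b1, b2, b3, b4, b5, b6, b7, b8, b9, b10, b11, b12, b13, b14, b15⟩ := hb
  obtain ⟨g1, g2, g3, g4, g5⟩ := h
  have k1 : 0 ≤ l := by clear * - b5 b9; omega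
  have k2 : 2*b + l + 2 ≤ 2*N := by clear * - b1 b5 g3 g5; omega
  have k3 : 2*N ≤ 2*a + 2*b + m := by clear * - b8 b14; omega
  have k4 : 4*N + Q ≤ i + 4*a + 4*b + l + 2*c + 1 := by clear * - b8 b12 b14; omega
  clear * - X w1 w2 g1 g2 g3 g4 g5 k1 k2 b8 k3 k4
  obtain ⟨φ, H, T, ht, h0⟩ := exH X.al (i + 2*a)
  obtain ⟨Da2, ha2⟩ := ht.par X.a2 (by omega)
  obtain ⟨Ds2, hs2⟩ := ht.ant X.s2 (by omega)
  obtain ⟨Dbb, hbb⟩ := ht.par X.bb (by omega)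
  obtain ⟨DS2, hS2⟩ := ht.ant X.S2 (by omega)
  obtain ⟨Dw2, hw2⟩ := ht.par w2 (by omega)
  have e1 := ha2 0 0 (i + 2*a) (i + 2*a + 2*b) (by omega)
  have e2 := hs2 0 0 (i + 2*a + 1) (i) (by omega)
  have e3 := hbb 0 (-1) (i + 1) (-2*N + i + 2*a + 2*b + 1) (by omega)
  have e4 := ha2 0 0 (-2*N + i + 2*a + 2*b + l + 1) (-2*N + i + 2*a + 4*b + l + 1) (by omega)
  have e5 := ha2 0 0 (-2*N + i + 2*a + 2*b + l + 2) (-2*N + i + 2*a + 4*b + l + 2) (by omega)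
  have e6 := hS2 0 0 (-2*N + i + 2*a + 2*b + l + 2*c + 1) (-2*N + i + 2*a + 2*b + l + 2) (by omega)
  have e7 := hw2 0 (-1) (-2*N + i + 2*a + 2*b + l + 2*c + 1) (-4*N + i + 2*a + 2*b + l + 2*c + 2*V + 1) (by omega)
  have e8 := hbb 0 (-1) (i + l + 1) (-2*N + i + 2*a + 2*b + l + 1) (by omega)
  have e9 := hs2 0 0 (i + l + 2) (-4*N + i + 2*a + 2*b + l + 2*c + 2*V + 1) (by omega)
  have e10 := hS2 0 0 (-4*N + i + 2*a + 4*b + 2*l + 2*c + 3) (i + 2*a) (by omega)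
  have e11 := hw2 0 (-1) (-4*N + i + 2*a + 4*b + 2*l + 2*c + 3) (-2*N + i + 2*a + 2*b + 1) (by omega)
  have e12 := hS2 0 0 (-4*N + i + 4*a + 4*b + l + 2*c + 2) (i + l + 1) (by omega)
  have e13 := hw2 0 0 (-4*N + i + 4*a + 4*b + l + 2*c + 2) (-2*N + i + 2*a + 4*b + l + 2) (by omega)
  have e14 := hS2 0 0 (-4*N + i + 4*a + 4*b + l + 2*c + 1) (i + l + 2) (by omega)
  have e15 := hw2 0 0 (-4*N + i + 4*a + 4*b + l + 2*c + 1) (-2*N + i + 2*a + 4*b + l + 1) (by omega)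
  have e16 := ht.lt (i + 2*a) 0 0 (i + 2*a) (i + 2*a + 1) (by omega)
  have e17 := ht.lt (i) 0 0 (i) (i + 1) (by omega)
  have e18 := ht.lt (i + 2*a + 2*b) 0 (-1) (i + 2*a + 2*b) (-2*N + i + 2*a + 2*b + 1) (by omega)
  have t0 := ht.tri X.n1
  omega

theorem T3_9 (X : C W N Q i a b l m c d) (hb : B N Q i a b l m c d)
    (w1 : Par W (Q) (2*N + i + 2*a - 2*U) (2*U))
    (w2 : Par W (Q) (2*N + i + 2*a - 2*V) (2*V))
    (h : 2*N + Q ≤ i + 2*a + 4*b + l + 1 ∧ 2*N ≤ b + l + c + U + 1 ∧ b + l + c + U + 1 ≤ 2*N ∧ a + c + U ≤ N ∧ N ≤ a + c + U) :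
    False := by
  obtain ⟨b1, b2, b3, b4, b5, b6, b7, b8, b9, b10, b11, b12, b13, b14, b15⟩ := hb
  obtain ⟨g1, g2, g3, g4, g5⟩ := h
  have k1 : 0 ≤ l := by clear * - b5 b9; omega
  have k2 : 2*b + l + 2 ≤ 2*N := by clear * - b1 b5 g3 g5; omega
  have k3 : 2*N ≤ 2*a + 2*b + m := by clear * - b8 b14; omega
  have k4 : 4*N + Q ≤ i + 4*a + 4*b + l + 2*c + 1 := by clear * - b8 b12 b14; omega
  clear * - X w1 w2 g1 g2 g3 g4 g5 k1 k2 b8 k3 k4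
  obtain ⟨φ, H, T, ht, h0⟩ := exH X.al (i + 2*a)
  obtain ⟨Da2, ha2⟩ := ht.par X.a2 (by omega)
  obtain ⟨Ds2, hs2⟩ := ht.ant X.s2 (by omega)
  obtain ⟨Dbb, hbb⟩ := ht.par X.bb (by omega)
  obtain ⟨DS2, hS2⟩ := ht.ant X.S2 (by omega)
  obtain ⟨Dw1, hw1⟩ := ht.par w1 (by omega)
  have e1 := ha2 0 0 (i + 2*a) (i + 2*a + 2*b) (by omega)
  have e2 := hs2 0 0 (i + 2*a + 1) (i) (by omega)
  have e3 := hbb 0 (-1) (i + 1) (-2*N + i + 2*a + 2*b + 1) (by omega)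
  have e4 := ha2 0 0 (-2*N + i + 2*a + 2*b + l + 1) (-2*N + i + 2*a + 4*b + l + 1) (by omega)
  have e5 := ha2 0 0 (-2*N + i + 2*a + 2*b + l + 2) (-2*N + i + 2*a + 4*b + l + 2) (by omega)
  have e6 := hS2 0 0 (-2*N + i + 2*a + 2*b + l + 2*c + 1) (-2*N + i + 2*a + 2*b + l + 2) (by omega)
  have e7 := hw1 0 (-1) (-2*N + i + 2*a + 2*b + l + 2*c + 1) (-4*N + i + 2*a + 2*b + l + 2*c + 2*U + 1) (by omega)
  have e8 := hbb 0 (-1) (i + l + 1) (-2*N + i + 2*a + 2*b + l + 1) (by omega)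
  have e9 := hs2 0 0 (i + l + 2) (-4*N + i + 2*a + 2*b + l + 2*c + 2*U + 1) (by omega)
  have e10 := hS2 0 0 (-4*N + i + 2*a + 4*b + 2*l + 2*c + 3) (i + 2*a) (by omega)
  have e11 := hw1 0 (-1) (-4*N + i + 2*a + 4*b + 2*l + 2*c + 3) (-2*N + i + 2*a + 2*b + 1) (by omega)
  have e12 := hS2 0 0 (-4*N + i + 4*a + 4*b + l + 2*c + 2) (i + l + 1) (by omega)
  have e13 := hw1 0 0 (-4*N + i + 4*a + 4*b + l + 2*c + 2) (-2*N + i + 2*a + 4*b + l + 2) (by omega)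
  have e14 := hS2 0 0 (-4*N + i + 4*a + 4*b + l + 2*c + 1) (i + l + 2) (by omega)
  have e15 := hw1 0 0 (-4*N + i + 4*a + 4*b + l + 2*c + 1) (-2*N + i + 2*a + 4*b + l + 1) (by omega)
  have e16 := ht.lt (i + 2*a) 0 0 (i + 2*a) (i + 2*a + 1) (by omega)
  have e17 := ht.lt (i) 0 0 (i) (i + 1) (by omega)
  have e18 := ht.lt (i + 2*a + 2*b) 0 (-1) (i + 2*a + 2*b) (-2*N + i + 2*a + 2*b + 1) (by omega)
  have t0 := ht.tri X.n1
  omega

theorem main (X : C W N Q i a b l m c d) (hb : B N Q i a b l m c d) : False := by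
  obtain ⟨b1, b2, b3, b4, b5, b6, b7, b8, b9, b10, b11, b12, b13, b14, b15⟩ := id hb
  rcases lt_or_ge (-b + c - 1) 0 with h1 | h1
  · rcases lt_or_ge (m - c) 0 with h2 | h2
    · rcases lt_or_ge (-N - a + b + l) 0 with h3 | h3
      · obtain ⟨U, ⟨U0, U1, U2⟩, w1⟩ := T1_i X hb
        rcases lt_or_ge (i + 2*a - 2*U) 0 with h4 | h4
        · rcases lt_or_ge (-3*N + a + b + l + 2*c + 2*U) 0 with h5 | h5
          · rcases lt_or_ge (-3*N + a + 3*b + m) 0 with h6 | h6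
            · obtain ⟨V, ⟨V0, V1, V2⟩, w2⟩ := T3_i X hb w1
              rcases lt_or_ge (-b + c + U - 1) 0 with h7 | h7
              · rcases lt_or_ge (-2*N + a + b + l + c + V) 0 with h8 | h8
                · rcases lt_or_ge (2*N - b - l - c - V - 2) 0 with h9 | h9
                  · exact T3_3 X hb w1 w2 ⟨by clear * - h8 h9; omega, by clear * - V1 V2 h8; omega, by clear * - b2 h8; omega, by clear * - h9; omega⟩
                  exact T3_2 X hb w1 w2 ⟨by clear * - h9; omega, by clear * - U2 h4 V1; omega⟩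
                rcases lt_or_ge (-a - b + c + V - 1) 0 with h10 | h10
                · rcases lt_or_ge (2*N + i + 2*a - 2*b - 2*V) 0 with h11 | h11
                  · rcases lt_or_ge (-3*N + a + b + l + 2*c + 2*V) 0 with h12 | h12
                    · rcases lt_or_ge (2*N - b - l - c - V - 2) 0 with h13 | h13
                      · rcases lt_or_ge (N - 2*a - b) 0 with h14 | h14
                        · rcases lt_or_ge (2*N - 3*a - 2*b) 0 with h15 | h15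
                          · exact T3_8 X hb w1 w2 ⟨by clear * - b8 b14 h2 V0 h12 h13; omega, by clear * - h13; omega, by clear * - V1 h12; omega, by clear * - h12 h13; omega, by clear * - V1; omega⟩
                          rcases lt_or_ge (-2*N + 3*a + 2*b) 0 with h16 | h16
                          · exact T3_8 X hb w1 w2 ⟨by clear * - b8 b14 h2 V0 h12 h13; omega, by clear * - h13; omega, by clear * - V1 h12; omega, by clear * - h12 h13; omega, by clear * - V1; omega⟩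
                          exact T3_7 X hb w1 w2 ⟨by clear * - h12 h13 h14 h15; omega, by clear * - h15; omega, by clear * - h16; omega, by clear * - V1 h12 h14 h15; omega, by clear * - V1 h12; omega, by clear * - h13; omega⟩
                        exact T3_6 X hb w1 w2 ⟨by clear * - h8 h12 h13 h14; omega, by clear * - h14; omega, by clear * - V1 h10; omega, by clear * - V1 h8 h12 h14; omega, by clear * - V1 h12; omega, by clear * - h13; omega⟩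
                      exact T3_2 X hb w1 w2 ⟨by clear * - h13; omega, by clear * - U2 h4 V1; omega⟩
                    exact T3_5 X hb w1 w2 ⟨by clear * - U2 h4 h10; omega, by clear * - h3 V2; omega, by clear * - h12; omega, by clear * - V2 h10 h12; omega⟩
                  rcases lt_or_ge (2*N - Q - 2*V) 0 with h17 | h17
                  · exact T3_5 X hb w1 w2 ⟨by clear * - U2 h4 h10; omega, by clear * - h4 h5 h11; omega, by clear * - b5 b8 b14 h2 U2 h4 h17; omega, by clear * - V2 h8; omega⟩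
                  exact T3_4 X hb w1 w2 ⟨by clear * - h17; omega, by clear * - h11; omega, by clear * - b1 h4 V1 h7; omega⟩
                exact T3_1 X hb w1 w2 ⟨by clear * - h8; omega, by clear * - V2; omega, by clear * - h3 V2 h10; omega, by clear * - h10; omega⟩
              rcases lt_or_ge (2*N - b - l - c - U - 2) 0 with h18 | h18
              · exact T3_9 X hb w1 w2 ⟨by clear * - b8 b14 h2 U0 h5 h18; omega, by clear * - h18; omega, by clear * - h3 h5; omega, by clear * - h5 h18; omega, by clear * - h3 h18; omega⟩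
              exact T3_0 X hb w1 w2 ⟨by clear * - U0 h18; omega, by clear * - h7; omega, by clear * - h18; omega⟩
            exact T1_2 X hb w1 ⟨by clear * - h6; omega, by clear * - h4 h5; omega⟩
          rcases lt_or_ge (l - 1) 0 with h19 | h19
          · exact T1_13 X hb w1 ⟨by clear * - b5 b8 b14 h1 h2 U2 h19; omega, by clear * - b2 U2; omega, by clear * - h1 U2 h4 h5 h19; omega⟩
          exact T1_1 X hb w1 ⟨by clear * - b5 h1 U2 h4; omega, by clear * - b5 h1 h3 U2; omega, by clear * - h5; omega, by clear * - h19; omega⟩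
        exact T1_0 X hb w1 ⟨by clear * - h4; omega, by clear * - b1 U1; omega⟩
      exact T0_2 X hb (by clear * - h3; omega)
    exact T0_1 X hb (by clear * - h2; omega)
  rcases lt_or_ge (2*N - b - l - c - 2) 0 with h20 | h20
  · rcases lt_or_ge (-N - a + b + l) 0 with h21 | h21
    · rcases lt_or_ge (3*N - a - b - l - 2*c - 1) 0 with h22 | h22
      · exact T0_16 X hb (by clear * - h22; omega)
      exact T0_15 X hb ⟨by clear * - h20 h21; omega, by clear * - h22; omega, by clear * - h20 h22; omega, by clear * - h20 h21; omega⟩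
    exact T0_2 X hb (by clear * - h21; omega)
  exact T0_0 X hb ⟨by clear * - h20; omega, by clear * - h1; omega⟩

end Pool.Agent.MP_a38735_al.WL.L3c3
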