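import Pool.Agent.MP_a38735_al.AP

set_option autoImplicit false
set_option linter.unusedVariables false

namespace Pool.Agent.MP_a38735_al.WL.L3c4

variable {G : Type*} [Group G]

structure C (W : ℤ → G) (N Q i a b l m c d : ℤ) : Prop where
  al : AL W (2*N) Q
  a1 : Par W (0) (i + 2*a) (2*b)
  a2 : Par W (Q - 2*b) (i + 2*a) (2*b)
  s1 : Ant W (0) (i) (2*i + 2*a)
  s2 : Ant W (i + 2*a + 1) (Q) (2*i + 2*a)
  bb : Par W (i + 1) (i + l + 1) (2*a + 2*b)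
  c1 : Par W (i + l + 2*c + 2) (Q) (2*a + 2*b - 2*c)
  c2 : Par W (i + 2*a + 2*b + l + 2) (2*N) (-2*a - 2*b + 2*c)
  S2 : Ant W (i + l - m + 2*c + 1) (i + l + 2*c + 1) (2*i + 2*l + 2*c + 2)
  n1 : Nd W (i + 2*a) (i) (i + 2*a + 2*b)
  n2 : Nd W (i + l + 1) (i + l + 2*c + 1) (i + 2*a + 2*b + l + 1)
  yx3 : W (i + l - m + 2*c) ≠ (W (-2*N + i + l + m + 2))⁻¹

/-- the linear side conditions -/
abbrev B (N Q i a b l m c d : ℤ) : Prop :=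
  0 ≤ i ∧ 0 ≤ a ∧ i + 2*a + 1 ≤ Q ∧ Q ≤ i + 2*a + 2*b ∧ i + 2*a + 2*b + 1 ≤ 2*N ∧ 0 ≤ i + l + 2*c + 1 ∧ i + l + 2*c + 2 ≤ Q ∧ Q ≤ i + l + 1 ∧ i + 2*a + 2*b + l + 2 ≤ 2*N ∧ 0 ≤ d ∧ d ≤ 0 ∧ m ≤ i + l + 2*c ∧ i + l + 2*c + 1 ≤ Q + m ∧ 2*N ≤ i + l + m + 2 ∧ i + l + m + 3 ≤ 2*N + Q

variable {W : ℤ → G} {N Q i a b l m c d U V : ℤ}

theorem T0_0 (X : C W N Q i a b l m c d) (hb : B N Q i a b l m c d)
    (h : b ≤ i) :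
    False := by
  obtain ⟨b1, b2, b3, b4, b5, b6, b7, b8, b9, b10, b11, b12, b13, b14, b15⟩ := hb
  have g1 := h
  have k1 : 1 ≤ b := by clear * - b3 b4; omega
  have k2 : 1 ≤ 2*a + 3*b := by clear * - b2 b3 b4; omega
  have k3 : 1 ≤ i + 2*a := by clear * - b2 b4 b14 b15 g1; omega
  clear * - X g1 k1 k2 k3
  obtain ⟨L, hL⟩ : ∃ L : ℤ, -2*i - 2*a ≤ 2*L ∧ -2*a - 4*b + 2 ≤ 2*L ∧ 2*L + 2*(b) - 2 ≤ -2*a - 2 ∧ 2*L + 2*(b) - 2 ≤ 2*i + 2*a ∧ 2*L + 2*(b) - 2 ≤ 2*a + 4*b - 2 := ⟨((max (-2*a - 4*b + 2) (-2*i - 2*a)) + 1) / 2, by omega⟩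
  obtain ⟨R, hR1, hR2, hR⟩ := pw (A := 0) (B := i + 2*a + 2*b) (γ := b) (by omega) (fun t h1 h2 => (fin X.al.per 0 _ (pf X.a1 X.al.per 0 (2*b + t) (rfl : W (t) = W (t)) (by omega)) (by omega))) L
  exact X.al.ninv (i + a + R) (fin X.al.per 0 _ (pp hR X.al.per 0 (i + a + R) (af X.s1 X.al.per 0 (i + a - R) (rfl : W (i + a + R) = W (i + a + R)) (by omega)) (by omega)) (by omega))

theorem T0_1 (X : C W N Q i a b l m c d) (hb : B N Q i a b l m c d)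
    (h : a + b ≤ l + 2*c) :
    False := by
  obtain ⟨b1, b2, b3, b4, b5, b6, b7, b8, b9, b10, b11, b12, b13, b14, b15⟩ := hb
  have g1 := h
  have k1 : a + b ≤ m := by clear * - b4 b9 b13 b14 g1; omega
  have k2 : 2*c ≤ a + b + m := by clear * - b4 b7 b8 b13 g1; omega
  have k3 : 1 ≤ a + b := by clear * - b4 b7 g1; omega
  have k4 : 2*c + 1 ≤ 3*a + 3*b := by clear * - b4 b7 b8 g1; omega
  have k5 : 1 ≤ l := by clear * - b4 b7 b8 g1; omega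
  clear * - X g1 k1 k2 k3 k4 k5
  obtain ⟨L, hL⟩ : ∃ L : ℤ, -2*m + 2*c ≤ 2*L ∧ -4*a - 4*b + 2*c + 2 ≤ 2*L ∧ -2*l - 2*c ≤ 2*L ∧ 2*L + 2*(a + b) - 2 ≤ 2*c - 2 ∧ 2*L + 2*(a + b) - 2 ≤ 2*l + 2*c ∧ 2*L + 2*(a + b) - 2 ≤ 4*a + 4*b - 2*c - 2 := ⟨((max (-2*l - 2*c) (max (-4*a - 4*b + 2*c + 2) (-2*m + 2*c))) + 1) / 2, by omega⟩
  obtain ⟨R, hR1, hR2, hR⟩ := pw (A := i + 1) (B := i + 2*a + 2*b + l + 1) (γ := a + b) (by omega) (fun t h1 h2 => (fin X.al.per 0 _ (pf X.bb X.al.per 0 (2*a + 2*b + t) (rfl : W (t) = W (t)) (by omega)) (by omega))) L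
  exact X.al.ninv (i + l + c + R + 1) (fin X.al.per 0 _ (pp hR X.al.per 0 (i + l + c + R + 1) (af X.S2 X.al.per 0 (i + l + c - R + 1) (rfl : W (i + l + c + R + 1) = W (i + l + c + R + 1)) (by omega)) (by omega)) (by omega))

theorem main (X : C W N Q i a b l m c d) (hb : B N Q i a b l m c d) : False := by
  obtain ⟨b1, b2, b3, b4, b5, b6, b7, b8, b9, b10, b11, b12, b13, b14, b15⟩ := id hb
  rcases lt_or_ge (i - b) 0 with h1 | h1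
  · exact T0_1 X hb (by clear * - b2 b9 b12 b14 h1; omega)
  exact T0_0 X hb (by clear * - h1; omega)

end Pool.Agent.MP_a38735_al.WL.L3c4
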