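import Pool.Agent.MP_a38735_al.AP

set_option autoImplicit false
set_option linter.unusedVariables false

namespace Pool.Agent.MP_a38735_al.WL.L3c5

variable {G : Type*} [Group G]

structure C (W : ℤ → G) (N Q i a b l m c d : ℤ) : Prop where
  al : AL W (2*N) Q
  a1 : Par W (0) (i + 2*a) (2*b)
  a2 : Par W (Q - 2*b) (i + 2*a) (2*b)
  s1 : Ant W (0) (i) (2*i + 2*a)
  s2 : Ant W (i + 2*a + 1) (Q) (2*i + 2*a)
  bb : Par W (i + 1) (i + l + 1) (2*a + 2*b)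
  c1 : Par W (i + l + 2*c + 2) (Q) (2*a + 2*b - 2*c)
  c2 : Par W (i + 2*a + 2*b + l + 2) (2*N) (-2*a - 2*b + 2*c)
  S2 : Ant W (i + l - m + 2*c + 1) (i + l + 2*c + 1) (2*i + 2*l + 2*c + 2)
  d1 : Par W (Q) (2*N + i + l - m + 2*c + 2*d) (-2*d)
  d2 : Par W (2*N + i + l - m + 2*c + 2*d + 1) (2*N) (-2*N + 2*m - 2*c - 2*d + 2)
  n1 : Nd W (i + 2*a) (i) (i + 2*a + 2*b)
  n2 : Nd W (i + l + 1) (i + l + 2*c + 1) (i + 2*a + 2*b + l + 1)
  n3 : Nd W (2*N + i + l - m + 2*c) (i + l + m + 2) (2*N + i + l - m + 2*c + 2*d)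

/-- the linear side conditions -/
abbrev B (N Q i a b l m c d : ℤ) : Prop :=
  0 ≤ i ∧ 0 ≤ a ∧ i + 2*a + 1 ≤ Q ∧ Q ≤ i + 2*a + 2*b ∧ i + 2*a + 2*b + 1 ≤ 2*N ∧ 0 ≤ i + l + 2*c + 1 ∧ i + l + 2*c + 2 ≤ Q ∧ Q ≤ i + l + 1 ∧ i + 2*a + 2*b + l + 2 ≤ 2*N ∧ Q + m ≤ 2*N + i + l + 2*c ∧ i + l + 2*c + 1 ≤ m ∧ Q ≤ i + l + m + 2 ∧ i + l + m + 3 ≤ 2*N ∧ Q + m ≤ 2*N + i + l + 2*c + 2*d ∧ i + l + 2*c + 2*d + 1 ≤ m

variable {W : ℤ → G} {N Q i a b l m c d U V : ℤ}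

theorem T0_0 (X : C W N Q i a b l m c d) (hb : B N Q i a b l m c d)
    (h : N + c + d ≤ m) :
    False := by
  obtain ⟨b1, b2, b3, b4, b5, b6, b7, b8, b9, b10, b11, b12, b13, b14, b15⟩ := hb
  have g1 := h
  have k1 : m + 2 ≤ 2*N + c + d := by clear * - b6 b7 b13 b14; omega
  clear * - X g1 b13 k1
  exact X.al.ubP (-2*N + 2*m - 2*c - 2*d + 2) (by omega) (by omega) fun t h1 h2 => (fin X.al.per (-1) _ (pf X.d2 X.al.per (-1) (2*m - 2*c - 2*d + t + 2) (rfl : W (t) = W (t)) (by omega)) (by omega))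

theorem T0_1 (X : C W N Q i a b l m c d) (hb : B N Q i a b l m c d)
    (h : 1 ≤ d) :
    False := by
  obtain ⟨b1, b2, b3, b4, b5, b6, b7, b8, b9, b10, b11, b12, b13, b14, b15⟩ := hb
  have g1 := h
  have k1 : d + 1 ≤ N := by clear * - b6 b7 b10 b15; omega
  clear * - X g1 b10 k1
  exact X.al.ubQ (2*d) (by omega) (by omega) fun t h1 h2 => (fin X.al.per 0 _ (pr X.d1 X.al.per 0 (2*d + t) (rfl : W (t) = W (t)) (by omega)) (by omega))

theorem T0_2 (X : C W N Q i a b l m c d) (hb : B N Q i a b l m c d)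
    (h : m + 1 ≤ N + c + d ∧ N + c + d ≤ m + 1) :
    False := by
  obtain ⟨b1, b2, b3, b4, b5, b6, b7, b8, b9, b10, b11, b12, b13, b14, b15⟩ := hb
  obtain ⟨g1, g2⟩ := h
  clear * - X g1 g2
  exact X.n3.xz (fin X.al.per 0 _ (rfl : W (i + l + m + 2) = W (i + l + m + 2)) (by omega)).symm

theorem T0_3 (X : C W N Q i a b l m c d) (hb : B N Q i a b l m c d)
    (h : b ≤ i + a ∧ a + 1 ≤ b) :
    False := by
  obtain ⟨b1, b2, b3, b4, b5, b6, b7, b8, b9, b10, b11, b12, b13, b14, b15⟩ := hb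
  obtain ⟨g1, g2⟩ := h
  have k1 : 1 ≤ a + b := by clear * - b2 g2; omega
  clear * - X g1 g2 k1
  exact X.al.ninv (i + a - b) (fin X.al.per 0 _ (ar X.s1 X.al.per 0 (i + a - b) (pf X.a1 X.al.per 0 (i + a + b) (rfl : W (i + a - b) = W (i + a - b)) (by omega)) (by omega)) (by omega))

theorem T0_4 (X : C W N Q i a b l m c d) (hb : B N Q i a b l m c d)
    (h : Q + m ≤ i + 2*b + l + 2*c ∧ Q + m ≤ i + 2*b + l + 2*c + 2*d) :
    False := by
  obtain ⟨b1, b2, b3, b4, b5, b6, b7, b8, b9, b10, b11, b12, b13, b14, b15⟩ := hb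
  obtain ⟨g1, g2⟩ := h
  have k1 : l + 2*c + 1 ≤ 2*a + m := by clear * - b1 b2 b11; omega
  have k2 : b + 1 ≤ N := by clear * - b2 b6 b7 b8 b9; omega
  have k3 : l + 2*c + 2*d + 1 ≤ 2*a + m := by clear * - b1 b2 b15; omega
  clear * - X g1 g2 k1 k2 k3
  exact X.n3.yz (fin X.al.per 1 _ (pr X.a2 X.al.per 0 (i + l - m + 2*c + 2*d) (pr X.d1 X.al.per 0 (i + 2*b + l - m + 2*c + 2*d) (pf X.a2 X.al.per 1 (i + 2*b + l - m + 2*c) (rfl : W (2*N + i + l - m + 2*c) = W (2*N + i + l - m + 2*c)) (by omega)) (by omega)) (by omega)) (by omega)).symm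

theorem T0_5 (X : C W N Q i a b l m c d) (hb : B N Q i a b l m c d)
    (h : 2*a + b + 1 ≤ N + c ∧ N + i + c + 1 ≤ Q + b ∧ b + l + c + 2 ≤ N) :
    False := by
  obtain ⟨b1, b2, b3, b4, b5, b6, b7, b8, b9, b10, b11, b12, b13, b14, b15⟩ := hb
  obtain ⟨g1, g2, g3⟩ := h
  clear * - X g1 g2 g3
  exact X.al.ninv (N + i - b + c) (fin X.al.per 0 _ (pr X.c1 X.al.per (-1) (N + i - b + c) (af X.s2 X.al.per 0 (-N + i + 2*a + b - c) (rfl : W (N + i - b + c) = W (N + i - b + c)) (by omega)) (by omega)) (by omega))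

theorem T0_6 (X : C W N Q i a b l m c d) (hb : B N Q i a b l m c d)
    (h : d ≤ 0 ∧ m + 2 ≤ N + c + d) :
    False := by
  obtain ⟨b1, b2, b3, b4, b5, b6, b7, b8, b9, b10, b11, b12, b13, b14, b15⟩ := hb
  obtain ⟨g1, g2⟩ := h
  have k1 : Q ≤ i + l + m + 3 := by clear * - b12; omega
  clear * - X g1 g2 b11 k1
  obtain ⟨φ, H, T, ht, h0⟩ := exH X.al (2*N + i + l - m + 2*c)
  obtain ⟨Dd1, hd1⟩ := ht.par X.d1 (by omega)
  obtain ⟨Dd2, hd2⟩ := ht.par X.d2 (by omega)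
  have e1 := hd2 0 0 (2*N + i + l - m + 2*c + 1) (i + l + m - 2*d + 3) (by omega)
  have e2 := hd1 0 0 (i + l + m + 3) (i + l + m - 2*d + 3) (by omega)
  have e3 := hd1 0 0 (2*N + i + l - m + 2*c + 2*d) (2*N + i + l - m + 2*c) (by omega)
  have e4 := hd2 0 0 (2*N + i + l - m + 2*c + 2*d + 1) (i + l + m + 3) (by omega)
  have e5 := ht.lt (2*N + i + l - m + 2*c) 0 0 (2*N + i + l - m + 2*c) (2*N + i + l - m + 2*c + 1) (by omega)
  have e6 := ht.lt (2*N + i + l - m + 2*c + 2*d) 0 0 (2*N + i + l - m + 2*c + 2*d) (2*N + i + l - m + 2*c + 2*d + 1) (by omega)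
  have t2 := ht.tri X.n3
  omega

theorem main (X : C W N Q i a b l m c d) (hb : B N Q i a b l m c d) : False := by
  obtain ⟨b1, b2, b3, b4, b5, b6, b7, b8, b9, b10, b11, b12, b13, b14, b15⟩ := id hb
  rcases lt_or_ge (-N + m - c - d) 0 with h1 | h1
  · rcases lt_or_ge (d - 1) 0 with h2 | h2
    · rcases lt_or_ge (-N + m - c - d + 1) 0 with h3 | h3
      · rcases lt_or_ge (i + a - b) 0 with h4 | h4
        · rcases lt_or_ge (-Q + i + 2*b + l - m + 2*c + 2*d) 0 with h5 | h5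
          · rcases lt_or_ge (-N + Q - i + b - c - 1) 0 with h6 | h6
            · exact T0_6 X hb ⟨by clear * - h2; omega, by clear * - h3; omega⟩
            rcases lt_or_ge (N - 2*a - b + c - 1) 0 with h7 | h7
            · exact T0_6 X hb ⟨by clear * - h2; omega, by clear * - h3; omega⟩
            rcases lt_or_ge (N - b - l - c - 2) 0 with h8 | h8
            · exact T0_6 X hb ⟨by clear * - h2; omega, by clear * - h3; omega⟩
            exact T0_5 X hb ⟨by clear * - h7; omega, by clear * - h6; omega, by clear * - h8; omega⟩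
          exact T0_4 X hb ⟨by clear * - h2 h5; omega, by clear * - h5; omega⟩
        rcases lt_or_ge (-a + b - 1) 0 with h9 | h9
        · exact T0_6 X hb ⟨by clear * - h2; omega, by clear * - h3; omega⟩
        exact T0_3 X hb ⟨by clear * - h4; omega, by clear * - h9; omega⟩
      exact T0_2 X hb ⟨by clear * - h1; omega, by clear * - h3; omega⟩
    exact T0_1 X hb (by clear * - h2; omega)
  exact T0_0 X hb (by clear * - h1; omega)

end Pool.Agent.MP_a38735_al.WL.L3c5
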