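import Pool.Agent.MP_a38735_al.AP

set_option autoImplicit false
set_option linter.unusedVariables false

namespace Pool.Agent.MP_a38735_al.WL.L3c8

variable {G : Type*} [Group G]

structure C (W : ℤ → G) (N Q i a b l m c d : ℤ) : Prop where
  al : AL W (2*N) Q
  a1 : Par W (0) (i + 2*a) (2*b)
  a2 : Par W (Q - 2*b) (i + 2*a) (2*b)
  s1 : Ant W (0) (i) (2*i + 2*a)
  s2 : Ant W (i + 2*a + 1) (Q) (2*i + 2*a)
  bb : Par W (i + 1) (i + l + 1) (2*a + 2*b)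
  c1 : Par W (i + l + 2*c + 2) (Q) (2*a + 2*b - 2*c)
  c2 : Par W (i + 2*a + 2*b + l + 2) (2*N) (-2*a - 2*b + 2*c)
  S2 : Ant W (i + l - m + 2*c + 1) (i + l + 2*c + 1) (2*i + 2*l + 2*c + 2)
  d1 : Par W (Q) (2*N + i + l - m + 2*c) (2*d)
  d2 : Par W (i + l + m + 3) (2*N) (2*N - 2*m + 2*c + 2*d - 2)
  n1 : Nd W (i + 2*a) (i) (i + 2*a + 2*b)
  n2 : Nd W (i + l + 1) (i + l + 2*c + 1) (i + 2*a + 2*b + l + 1)
  n3 : Nd W (2*N + i + l - m + 2*c) (i + l + m + 2) (2*N + i + l - m + 2*c + 2*d)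

/-- the linear side conditions -/
abbrev B (N Q i a b l m c d : ℤ) : Prop :=
  0 ≤ i ∧ 0 ≤ a ∧ i + 2*a + 1 ≤ Q ∧ Q ≤ i + 2*a + 2*b ∧ i + 2*a + 2*b + 1 ≤ 2*N ∧ 0 ≤ i + l + 2*c + 1 ∧ i + l + 2*c + 2 ≤ Q ∧ Q ≤ i + l + 1 ∧ i + 2*a + 2*b + l + 2 ≤ 2*N ∧ Q + m ≤ 2*N + i + l + 2*c ∧ i + l + 2*c + 1 ≤ m ∧ Q ≤ i + l + m + 2 ∧ i + l + m + 3 ≤ 2*N ∧ Q + m ≤ 2*N + i + l + 2*c + 2*d ∧ i + l + 2*c + 2*d + 1 ≤ m

variable {W : ℤ → G} {N Q i a b l m c d U V : ℤ}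

theorem T0_0 (X : C W N Q i a b l m c d) (hb : B N Q i a b l m c d)
    (h : d + 1 ≤ 0) :
    False := by
  obtain ⟨b1, b2, b3, b4, b5, b6, b7, b8, b9, b10, b11, b12, b13, b14, b15⟩ := hb
  have g1 := h
  have k1 : 1 ≤ N + d := by clear * - b6 b7 b11 b14; omega
  clear * - X g1 b14 k1
  exact X.al.ubQ (-2*d) (by omega) (by omega) fun t h1 h2 => (fin X.al.per 0 _ (pr X.d1 X.al.per 0 (-2*d + t) (rfl : W (t) = W (t)) (by omega)) (by omega))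

theorem T0_1 (X : C W N Q i a b l m c d) (hb : B N Q i a b l m c d)
    (h : N + c ≤ m) :
    False := by
  obtain ⟨b1, b2, b3, b4, b5, b6, b7, b8, b9, b10, b11, b12, b13, b14, b15⟩ := hb
  have g1 := h
  have k1 : 1 ≤ N + c := by clear * - b6 b13 g1; omega
  clear * - X g1 k1
  exact X.al.ninv (-N + i + l + c + 1) (fin X.al.per (-1) _ (af X.S2 X.al.per 0 (N + i + l + c + 1) (rfl : W (-N + i + l + c + 1) = W (-N + i + l + c + 1)) (by omega)) (by omega))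

theorem T0_2 (X : C W N Q i a b l m c d) (hb : B N Q i a b l m c d)
    (h : m + 2 ≤ N + c + d) :
    False := by
  obtain ⟨b1, b2, b3, b4, b5, b6, b7, b8, b9, b10, b11, b12, b13, b14, b15⟩ := hb
  have g1 := h
  have k1 : c + d ≤ m := by clear * - b6 b7 b12 b15; omega
  clear * - X g1 b15 k1
  exact X.al.ubP (2*N - 2*m + 2*c + 2*d - 2) (by omega) (by omega) fun t h1 h2 => (fin X.al.per (-1) _ (pf X.d2 X.al.per (-1) (4*N - 2*m + 2*c + 2*d + t - 2) (rfl : W (t) = W (t)) (by omega)) (by omega))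

theorem T0_3 (X : C W N Q i a b l m c d) (hb : B N Q i a b l m c d)
    (h : 0 ≤ d ∧ d ≤ 0) :
    False := by
  obtain ⟨b1, b2, b3, b4, b5, b6, b7, b8, b9, b10, b11, b12, b13, b14, b15⟩ := hb
  obtain ⟨g1, g2⟩ := h
  clear * - X g1 g2
  exact X.n3.yz (fin X.al.per 0 _ (rfl : W (2*N + i + l - m + 2*c) = W (2*N + i + l - m + 2*c)) (by omega)).symm

theorem main (X : C W N Q i a b l m c d) (hb : B N Q i a b l m c d) : False := by
  obtain ⟨b1, b2, b3, b4, b5, b6, b7, b8, b9, b10, b11, b12, b13, b14, b15⟩ := id hb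
  rcases lt_or_ge (-d - 1) 0 with h1 | h1
  · rcases lt_or_ge (-N + m - c) 0 with h2 | h2
    · rcases lt_or_ge (N - m + c + d - 2) 0 with h3 | h3
      · exact T0_3 X hb ⟨by clear * - h1; omega, by clear * - h2 h3; omega⟩
      exact T0_2 X hb (by clear * - h3; omega)
    exact T0_1 X hb (by clear * - h2; omega)
  exact T0_0 X hb (by clear * - h1; omega)

end Pool.Agent.MP_a38735_al.WL.L3c8
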