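import Pool.Agent.MP_a38735_al.AP

set_option autoImplicit false
set_option linter.unusedVariables false

namespace Pool.Agent.MP_a38735_al.WL.M3c13

variable {G : Type*} [Group G]

structure C (W : ℤ → G) (N Q i a b l m c d : ℤ) : Prop where
  al : AL W (2*N) Q
  a1 : Par W (0) (i + 2*a) (2*b)
  a2 : Par W (Q - 2*b) (i + 2*a) (2*b)
  s1 : Ant W (0) (i) (2*i + 2*a)
  s2 : Ant W (i + 2*a + 1) (Q) (2*i + 2*a)
  bb : Par W (i + 1) (i + l + 1) (2*a + 2*b)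
  c1 : Par W (-2*N + i + 2*a + 2*b + l + 2*c + 2) (2*N) (2*N - 2*a - 2*b - 2*c)
  c2 : Par W (i + l + 2) (Q) (-2*N + 2*a + 2*b + 2*c)
  S2 : Ant W (-2*N + i + 2*a + 2*b + l - m + 2*c + 1) (-2*N + i + 2*a + 2*b + l + 2*c + 1) (-4*N + 2*i + 4*a + 4*b + 2*l + 2*c + 2)
  n1 : Nd W (i + 2*a) (i) (i + 2*a + 2*b)
  n2 : Nd W (-2*N + i + 2*a + 2*b + l + 1) (-2*N + i + 2*a + 2*b + l + 2*c + 1) (i + l + 1)
  yx3 : W (-2*N + i + 2*a + 2*b + l - m + 2*c) ≠ (W (-2*N + i + 2*a + 2*b + l + m + 2))⁻¹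
  la1 : ∀ x y g, 0 < g → g < 2*N → Par W x y g → y - x ≤ 2*N - i - 2*a - 3
  la2 : ∀ x y g, 0 < g → g < 2*N → Par W x y g → y - x ≤ 2*N + Q - i - 2*a - 2*b - 3
  la3 : ∀ x y g, 0 < g → g < 2*N → Par W x y g → y - x ≤ 2*N - l - 3
  la4 : ∀ x y g, 0 < g → g < 2*N → Par W x y g → y - x ≤ 2*b - 2

/-- the linear side conditions -/
abbrev B (N Q i a b l m c d : ℤ) : Prop :=
  0 ≤ i ∧ 0 ≤ a ∧ i + 2*a + 1 ≤ Q ∧ Q ≤ i + 2*a + 2*b ∧ i + 2*a + 2*b + 1 ≤ 2*N ∧ 2*N + Q ≤ i + 2*a + 2*b + l + 2*c + 1 ∧ i + 2*a + 2*b + l + 2*c + 2 ≤ 4*N ∧ i + l + 2 ≤ Q ∧ 2*N ≤ i + 2*a + 2*b + l + 1 ∧ 0 ≤ d ∧ d ≤ 0 ∧ 2*N + m ≤ i + 2*a + 2*b + l + 2*c ∧ i + 2*a + 2*b + l + 2*c + 1 ≤ 2*N + Q + m ∧ 2*N ≤ i + 2*a + 2*b + l + m + 2 ∧ i + 2*a + 2*b + l + m + 3 ≤ 2*N + Q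

variable {W : ℤ → G} {N Q i a b l m c d U V : ℤ}

theorem T0_0 (X : C W N Q i a b l m c d) (hb : B N Q i a b l m c d)
    (h : 2*b ≤ i + 2*a + 1) :
    False := by
  obtain ⟨b1, b2, b3, b4, b5, b6, b7, b8, b9, b10, b11, b12, b13, b14, b15⟩ := hb
  have g1 := h
  have k1 : 1 ≤ b := by clear * - b3 b4; omega
  have k2 : b + 1 ≤ N := by clear * - b5 b6 b7 b14 b15 g1; omega
  clear * - X g1 k1 k2
  exact absurd (X.la4 (0) (2*b - 1) (2*b) (by omega) (by omega) fun t h1 h2 => (fin X.al.per 0 _ (pf X.a1 X.al.per 0 (2*b + t) (rfl : W (t) = W (t)) (by omega)) (by omega))) (by omega)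

theorem T0_1 (X : C W N Q i a b l m c d) (hb : B N Q i a b l m c d)
    (h : c ≤ m) :
    False := by
  obtain ⟨b1, b2, b3, b4, b5, b6, b7, b8, b9, b10, b11, b12, b13, b14, b15⟩ := hb
  have g1 := h
  have k1 : 1 ≤ c := by clear * - b6 b15 g1; omega
  clear * - X g1 k1
  exact X.al.ninv (-2*N + i + 2*a + 2*b + l + c + 1) (fin X.al.per 0 _ (af X.S2 X.al.per 0 (-2*N + i + 2*a + 2*b + l + c + 1) (rfl : W (-2*N + i + 2*a + 2*b + l + c + 1) = W (-2*N + i + 2*a + 2*b + l + c + 1)) (by omega)) (by omega))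

theorem T0_2 (X : C W N Q i a b l m c d) (hb : B N Q i a b l m c d)
    (h : N + i + a + 1 ≤ Q) :
    False := by
  obtain ⟨b1, b2, b3, b4, b5, b6, b7, b8, b9, b10, b11, b12, b13, b14, b15⟩ := hb
  have g1 := h
  have k1 : a + 1 ≤ N := by clear * - b1 b6 b7 g1; omega
  clear * - X g1 k1
  exact X.al.ninv (N + i + a) (fin X.al.per 1 _ (af X.s2 X.al.per 0 (-N + i + a) (rfl : W (N + i + a) = W (N + i + a)) (by omega)) (by omega))

theorem T0_3 (X : C W N Q i a b l m c d) (hb : B N Q i a b l m c d)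
    (h : b ≤ i + a ∧ a + 1 ≤ b) :
    False := by
  obtain ⟨b1, b2, b3, b4, b5, b6, b7, b8, b9, b10, b11, b12, b13, b14, b15⟩ := hb
  obtain ⟨g1, g2⟩ := h
  have k1 : 1 ≤ a + b := by clear * - b6 b7 b8 b9; omega
  clear * - X g1 g2 k1
  exact X.al.ninv (i + a - b) (fin X.al.per 0 _ (ar X.s1 X.al.per 0 (i + a - b) (pf X.a1 X.al.per 0 (i + a + b) (rfl : W (i + a - b) = W (i + a - b)) (by omega)) (by omega)) (by omega))

theorem T0_4 (X : C W N Q i a b l m c d) (hb : B N Q i a b l m c d)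
    (h : N + Q ≤ i + 2*a + 2*b + 1) :
    False := by
  obtain ⟨b1, b2, b3, b4, b5, b6, b7, b8, b9, b10, b11, b12, b13, b14, b15⟩ := hb
  have g1 := h
  have k1 : i + 2*a + 2*b + 3 ≤ 2*N + Q := by clear * - b5 b6 b9 b13 b15; omega
  have k2 : 1 ≤ b := by clear * - b3 b6 b7 b14 b15 g1; omega
  have k3 : b + 1 ≤ N := by clear * - b1 b2 b5; omega
  clear * - X g1 k1 k2 k3
  exact absurd (X.la2 (Q - 2*b) (2*N + 2*Q - i - 2*a - 4*b - 2) (2*b) (by omega) (by omega) fun t h1 h2 => (fin X.al.per 0 _ (pf X.a2 X.al.per 0 (2*b + t) (rfl : W (t) = W (t)) (by omega)) (by omega))) (by omega)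

theorem T0_5 (X : C W N Q i a b l m c d) (hb : B N Q i a b l m c d)
    (h : 2*a + b + 1 ≤ N ∧ N ≤ b + l) :
    False := by
  obtain ⟨b1, b2, b3, b4, b5, b6, b7, b8, b9, b10, b11, b12, b13, b14, b15⟩ := hb
  obtain ⟨g1, g2⟩ := h
  have k1 : N + i + 1 ≤ Q + b := by clear * - b8 g2; omega
  have k2 : b + 1 ≤ N := by clear * - b2 g1; omega
  clear * - X g1 g2 k1 k2
  exact X.al.ninv (N + i - b) (fin X.al.per 0 _ (pr X.bb X.al.per (-1) (N + i - b) (af X.s2 X.al.per 0 (-N + i + 2*a + b) (rfl : W (N + i - b) = W (N + i - b)) (by omega)) (by omega)) (by omega))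

theorem T0_6 (X : C W N Q i a b l m c d) (hb : B N Q i a b l m c d)
    (h : 2*a + b + c + 1 ≤ 2*N ∧ 2*N + i + 1 ≤ Q + b + c ∧ b + l + c + 2 ≤ 2*N) :
    False := by
  obtain ⟨b1, b2, b3, b4, b5, b6, b7, b8, b9, b10, b11, b12, b13, b14, b15⟩ := hb
  obtain ⟨g1, g2, g3⟩ := h
  clear * - X g1 g2 g3
  exact X.al.ninv (2*N + i - b - c) (fin X.al.per 0 _ (pr X.c2 X.al.per (-1) (2*N + i - b - c) (af X.s2 X.al.per 0 (-2*N + i + 2*a + b + c) (rfl : W (2*N + i - b - c) = W (2*N + i - b - c)) (by omega)) (by omega)) (by omega))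

theorem T0_7 (X : C W N Q i a b l m c d) (hb : B N Q i a b l m c d)
    (h : i + l + 2 ≤ 2*b ∧ a + 2*b + c + 1 ≤ 2*N ∧ 4*N ≤ i + 4*a + 4*b + 2*c) :
    False := by
  obtain ⟨b1, b2, b3, b4, b5, b6, b7, b8, b9, b10, b11, b12, b13, b14, b15⟩ := hb
  obtain ⟨g1, g2, g3⟩ := h
  have k1 : N + 1 ≤ a + 2*b + c := by clear * - b6 b14 b15 g1; omega
  clear * - X g1 g2 g3 k1
  exact X.al.ubP (4*N - 2*a - 4*b - 2*c) (by omega) (by omega) fun t h1 h2 => (fin X.al.per 0 _ (pr X.a1 X.al.per 0 (4*N - 2*a - 4*b - 2*c + t) (pf X.c1 X.al.per (-1) (4*N - 2*a - 2*b - 2*c + t) (rfl : W (t) = W (t)) (by omega)) (by omega)) (by omega))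

theorem T0_9 (X : C W N Q i a b l m c d) (hb : B N Q i a b l m c d)
    (h : N + a ≤ b + l) :
    False := by
  obtain ⟨b1, b2, b3, b4, b5, b6, b7, b8, b9, b10, b11, b12, b13, b14, b15⟩ := hb
  have g1 := h
  have k1 : N + i + a + 1 ≤ Q + b := by clear * - b8 g1; omega
  have k2 : a + b + 1 ≤ N := by clear * - b1 b5; omega
  have k3 : i + a + b + 1 ≤ N + Q := by clear * - b5 b8 b9 b14 b15; omega
  have k4 : a + 3*b + 1 ≤ 3*N := by clear * - b1 b2 b5; omega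
  have k5 : 1 ≤ l := by clear * - b1 b2 b5 g1; omega
  clear * - X g1 k1 k2 k3 k4 k5
  obtain ⟨L, hL⟩ : ∃ L : ℤ, 2*a + 2 ≤ 2*L ∧ 2*a - 2*l ≤ 2*L ∧ -4*N + 2*a + 4*b + 2 ≤ 2*L ∧ 2*L + 2*(N - a - b) - 2 ≤ 2*Q - 2*i - 2*a - 2 ∧ 2*L + 2*(N - a - b) - 2 ≤ 4*N - 2*a - 4*b - 2 ∧ 2*L + 2*(N - a - b) - 2 ≤ -2*a + 2*l := ⟨((max (-4*N + 2*a + 4*b + 2) (max (2*a - 2*l) (2*a + 2))) + 1) / 2, by omega⟩
  obtain ⟨R, hR1, hR2, hR⟩ := pw (A := i + 2*a + 2*b + 1) (B := 2*N + i + l + 1) (γ := N - a - b) (by omega) (fun t h1 h2 => (fin X.al.per 1 _ (pr X.bb X.al.per 0 (-2*a - 2*b + t) (rfl : W (t) = W (t)) (by omega)) (by omega))) L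
  exact X.al.ninv (i + a + R) (fin X.al.per (-1) _ (pp hR X.al.per (-1) (2*N + i + a + R) (af X.s2 X.al.per 0 (i + a - R) (rfl : W (i + a + R) = W (i + a + R)) (by omega)) (by omega)) (by omega))

theorem T0_11 (X : C W N Q i a b l m c d) (hb : B N Q i a b l m c d)
    (h : 2*i + 3*a + b + c + 1 ≤ N + Q ∧ i + a + b + l + c + 2 ≤ N + Q ∧ b + 2*l + c + 3 ≤ 3*N + a ∧ i + 2*a + 2*b + l + 2*c + 3 ≤ 4*N) :
    False := by
  obtain ⟨b1, b2, b3, b4, b5, b6, b7, b8, b9, b10, b11, b12, b13, b14, b15⟩ := hb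
  obtain ⟨g1, g2, g3, g4⟩ := h
  have k1 : i + 3*a + b + c + 1 ≤ N + Q := by clear * - b1 g1; omega
  have k2 : a + b + l + c + 2 ≤ 3*N := by clear * - b1 b6 g2 g4; omega
  have k3 : i + 3*a + b + c + 1 ≤ 3*N := by clear * - b1 b6 g1 g4; omega
  have k4 : 2*i + 3*a + b + c + 1 ≤ 3*N := by clear * - b6 g1 g4; omega
  have k5 : N + 1 ≤ a + b + c := by clear * - b6 g2; omega
  clear * - X g1 g2 g3 g4 k1 k2 k3 k4 k5
  obtain ⟨L, hL⟩ : ∃ L : ℤ, -2*N + 2*a + 2 ≤ 2*L ∧ -2*N + 2*i + 2*a + 2 ≤ 2*L ∧ -2*N - 2*a + 2*l + 4 ≤ 2*L ∧ 2*L + 2*(-N + a + b + c) - 2 ≤ -2*N + 2*Q - 2*i - 2*a - 2 ∧ 2*L + 2*(-N + a + b + c) - 2 ≤ 2*N + 2*a - 2*l - 4 ∧ 2*L + 2*(-N + a + b + c) - 2 ≤ 2*N - 2*i - 2*a - 2 := ⟨((max (-2*N - 2*a + 2*l + 4) (max (-2*N + 2*i + 2*a + 2) (-2*N + 2*a + 2))) + 1) / 2, by omega⟩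
  obtain ⟨R, hR1, hR2, hR⟩ := pw (A := i + l + 2) (B := 2*N) (γ := -N + a + b + c) (by omega) (fun t h1 h2 => (fin X.al.per 0 _ (pr X.c1 X.al.per 0 (-2*N + 2*a + 2*b + 2*c + t) (rfl : W (t) = W (t)) (by omega)) (by omega))) L
  exact X.al.ninv (N + i + a + R) (fin X.al.per 0 _ (pp hR X.al.per (-1) (N + i + a + R) (af X.s2 X.al.per 0 (-N + i + a - R) (rfl : W (N + i + a + R) = W (N + i + a + R)) (by omega)) (by omega)) (by omega))

theorem T0_12 (X : C W N Q i a b l m c d) (hb : B N Q i a b l m c d)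
    (h : i + 2*a + 4*b + l + 2*c + 1 ≤ 4*N) :
    False := by
  obtain ⟨b1, b2, b3, b4, b5, b6, b7, b8, b9, b10, b11, b12, b13, b14, b15⟩ := hb
  have g1 := h
  have k1 : 1 ≤ b := by clear * - b3 b4; omega
  have k2 : a + b + c + 1 ≤ 2*N := by clear * - b1 b5 b7 b9; omega
  have k3 : N + 1 ≤ a + b + c := by clear * - b6 b8; omega
  clear * - X g1 k1 k2 k3
  exact absurd (X.la4 (-2*N + i + 2*a + 2*b + l + 2*c + 2) (-2*N + i + 2*a + 4*b + l + 2*c + 1) (4*N - 2*a - 2*b - 2*c) (by omega) (by omega) fun t h1 h2 => (fin X.al.per 1 _ (pf X.c1 X.al.per 0 (2*N - 2*a - 2*b - 2*c + t) (rfl : W (t) = W (t)) (by omega)) (by omega))) (by omega)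

theorem T0_13 (X : C W N Q i a b l m c d) (hb : B N Q i a b l m c d)
    (h : b + l + c + 2 ≤ 2*N ∧ c ≤ b + m ∧ b + 1 ≤ c) :
    False := by
  obtain ⟨b1, b2, b3, b4, b5, b6, b7, b8, b9, b10, b11, b12, b13, b14, b15⟩ := hb
  obtain ⟨g1, g2, g3⟩ := h
  have k1 : 2*N ≤ i + 2*a + b + l + c + 1 := by clear * - b9 g3; omega
  clear * - X g1 g2 g3 k1
  exact X.al.ninv (-2*N + i + 2*a + b + l + c + 1) (fin X.al.per 0 _ (af X.S2 X.al.per 0 (-2*N + i + 2*a + b + l + c + 1) (pf X.a1 X.al.per 0 (-2*N + i + 2*a + 3*b + l + c + 1) (rfl : W (-2*N + i + 2*a + b + l + c + 1) = W (-2*N + i + 2*a + b + l + c + 1)) (by omega)) (by omega)) (by omega))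

theorem T0_14 (X : C W N Q i a b l m c d) (hb : B N Q i a b l m c d)
    (h : i + l + 2 ≤ 2*b ∧ 2*b + 2*c ≤ 2*N + i) :
    False := by
  obtain ⟨b1, b2, b3, b4, b5, b6, b7, b8, b9, b10, b11, b12, b13, b14, b15⟩ := hb
  obtain ⟨g1, g2⟩ := h
  have k1 : a + 2*b + c ≤ 2*N := by clear * - b5 g2; omega
  have k2 : a + b + c + 1 ≤ 2*N := by clear * - b3 b6 b7 g2; omega
  have k3 : i + 2*a + 2*b + l + 2*c + 3 ≤ 4*N := by clear * - b5 g1 g2; omega
  have k4 : N + 1 ≤ a + b + c := by clear * - b6 b8; omega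
  clear * - X g1 g2 k1 k2 k3 k4
  obtain ⟨L, hL⟩ : ∃ L : ℤ, -2*N + 2*b + 1 ≤ 2*L ∧ -2*N + i + l + 3 ≤ 2*L ∧ 2*L + 2*(-N + a + b + c) - 2 ≤ -i + 2*b - l - 2 ∧ 2*L + 2*(-N + a + b + c) - 2 ≤ 0 ∧ 2*L + 2*(-N + a + b + c) - 2 ≤ -2*N + i + 2*a + 2*b ∧ 2*L + 2*(-N + a + b + c) - 2 ≤ 2*b - 1 := ⟨((max (-2*N + i + l + 3) (-2*N + 2*b + 1)) + 1) / 2, by omega⟩
  obtain ⟨R, hR1, hR2, hR⟩ := pw (A := i + l + 2) (B := 2*N) (γ := -N + a + b + c) (by omega) (fun t h1 h2 => (fin X.al.per 0 _ (pr X.c1 X.al.per 0 (-2*N + 2*a + 2*b + 2*c + t) (rfl : W (t) = W (t)) (by omega)) (by omega))) L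
  exact X.al.ubP (2*N - 2*b + 2*R) (by omega) (by omega) fun t h1 h2 => (fin X.al.per 0 _ (pr X.a1 X.al.per 0 (2*N - 2*b + t + 2*R) (pp hR X.al.per (-1) (2*N + t + 2*R) (rfl : W (t) = W (t)) (by omega)) (by omega)) (by omega))

theorem T0_16 (X : C W N Q i a b l m c d) (hb : B N Q i a b l m c d)
    (h : 2*a + c + 1 ≤ N ∧ N + i + 1 ≤ Q + c ∧ l + c + 2 ≤ N) :
    False := by
  obtain ⟨b1, b2, b3, b4, b5, b6, b7, b8, b9, b10, b11, b12, b13, b14, b15⟩ := hb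
  obtain ⟨g1, g2, g3⟩ := h
  have k1 : N + Q ≤ i + 2*a + 2*b + c := by clear * - b6 g3; omega
  have k2 : c + 1 ≤ N := by clear * - b7 b9; omega
  have k3 : i + 2*a + 2*b + c + 1 ≤ 3*N := by clear * - b5 b9 g3; omega
  clear * - X g1 g2 g3 k1 k2 k3
  exact X.al.ninv (-N + i + 2*a + 2*b + c) (fin X.al.per 0 _ (pr X.c1 X.al.per 0 (-N + i + 2*a + 2*b + c) (ar X.s2 X.al.per 0 (N + i - c) (pr X.a2 X.al.per 0 (-N + i + 2*a + c) (rfl : W (-N + i + 2*a + 2*b + c) = W (-N + i + 2*a + 2*b + c)) (by omega)) (by omega)) (by omega)) (by omega))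

theorem T0_18 (X : C W N Q i a b l m c d) (hb : B N Q i a b l m c d)
    (h : N + i + a + 1 ≤ Q + c ∧ a + l + c + 2 ≤ N) :
    False := by
  obtain ⟨b1, b2, b3, b4, b5, b6, b7, b8, b9, b10, b11, b12, b13, b14, b15⟩ := hb
  obtain ⟨g1, g2⟩ := h
  have k1 : a + c + 1 ≤ N := by clear * - b5 b9 g2; omega
  have k2 : i + a + c + 1 ≤ N + Q := by clear * - b7 b9 g1; omega
  have k3 : a + 3*c + 1 ≤ 3*N := by clear * - b5 b7 b9 g2; omega
  have k4 : 2*N + Q ≤ i + 2*a + 2*b + l + 2*c + 2 := by clear * - b6; omega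
  have k5 : l + 2*c + 3 ≤ 2*N := by clear * - b2 b7 b9 g2; omega
  have k6 : i + 2*a + 2*b ≤ 2*N := by clear * - b5; omega
  clear * - X g1 g2 k1 k2 k3 k4 k5 k6
  obtain ⟨L, hL⟩ : ∃ L : ℤ, 2*a + 2 ≤ 2*L ∧ -4*N + 2*a + 4*c + 2 ≤ 2*L ∧ -4*N + 2*a + 2*l + 4*c + 4 ≤ 2*L ∧ 2*L + 2*(N - a - c) - 2 ≤ 2*Q - 2*i - 2*a - 2 ∧ 2*L + 2*(N - a - c) - 2 ≤ 4*N - 2*a - 2*l - 4*c - 4 ∧ 2*L + 2*(N - a - c) - 2 ≤ 4*N - 2*a - 4*c - 2 := ⟨((max (-4*N + 2*a + 2*l + 4*c + 4) (max (-4*N + 2*a + 4*c + 2) (2*a + 2))) + 1) / 2, by omega⟩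
  obtain ⟨R, hR1, hR2, hR⟩ := pw (A := -2*N + i + 2*a + l + 2*c + 2) (B := 2*N + i - 2*c) (γ := N - a - c) (by omega) (fun t h1 h2 => (fin X.al.per 0 _ (pf X.c1 X.al.per 0 (2*N - 2*a - 2*c + t) (pf X.a2 X.al.per 0 (2*b + t) (rfl : W (t) = W (t)) (by omega)) (by omega)) (by omega))) L
  exact X.al.ninv (i + a + R) (fin X.al.per 0 _ (pp hR X.al.per 0 (i + a + R) (af X.s2 X.al.per 0 (i + a - R) (rfl : W (i + a + R) = W (i + a + R)) (by omega)) (by omega)) (by omega))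

theorem T0_19 (X : C W N Q i a b l m c d) (hb : B N Q i a b l m c d)
    (h : N + Q ≤ i + 3*a + 3*b ∧ a + b + l + 2*c + 2 ≤ 3*N ∧ N + Q ≤ i + a + 3*b + l + 1 ∧ 3*a + b + 2*c + 1 ≤ 3*N ∧ 3*N + Q ≤ i + 3*a + 3*b + l + 2*c + 1 ∧ N + b ≤ a + l + 2*c ∧ 1 ≤ l) :
    False := by
  obtain ⟨b1, b2, b3, b4, b5, b6, b7, b8, b9, b10, b11, b12, b13, b14, b15⟩ := hb
  obtain ⟨g1, g2, g3, g4, g5, g6, g7⟩ := h
  have k1 : b + 1 ≤ N + a := by clear * - b2 g2 g6; omega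
  have k2 : l + 2*c + 1 ≤ N + a + b + m := by clear * - b13 g1; omega
  have k3 : a + 2*c ≤ N + b + m := by clear * - b13 g3; omega
  have k4 : a + b + 1 ≤ N := by clear * - b1 b5; omega
  have k5 : N ≤ a + b + m := by clear * - b13 g5; omega
  clear * - X g1 g2 g3 g4 g5 g6 g7 k1 k2 k3 k4 k5
  obtain ⟨L, hL⟩ : ∃ L : ℤ, -4*N + 2*b + 2*l + 2*c + 4 ≤ 2*L ∧ -4*N + 4*a + 2*b + 2*c + 2 ≤ 2*L ∧ 2*b - 2*l - 2*c ≤ 2*L ∧ 2*b - 2*c + 2 ≤ 2*L ∧ 2*L + 2*(N - a - b) - 2 ≤ -4*N - 2*Q + 2*i + 4*a + 6*b + 2*l + 2*c + 2 ∧ 2*L + 2*(N - a - b) - 2 ≤ -2*b + 2*l + 2*c ∧ 2*L + 2*(N - a - b) - 2 ≤ 4*N - 4*a - 2*b - 2*c - 2 ∧ 2*L + 2*(N - a - b) - 2 ≤ 2*b + 2*m - 2*c := ⟨((max (2*b - 2*c + 2) (max (2*b - 2*l - 2*c) (max (-4*N + 4*a + 2*b + 2*c + 2) (-4*N + 2*b + 2*l + 2*c + 4)))) + 1) / 2, by omega⟩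
  obtain ⟨R, hR1, hR2, hR⟩ := pw (A := i + 2*a + 2*b + 1) (B := 2*N + i + l + 1) (γ := N - a - b) (by omega) (fun t h1 h2 => (fin X.al.per 1 _ (pr X.bb X.al.per 0 (-2*a - 2*b + t) (rfl : W (t) = W (t)) (by omega)) (by omega))) L
  exact X.al.ninv (-2*N + i + 2*a + 3*b + l + c - R + 1) (fin X.al.per 0 _ (ar X.S2 X.al.per 1 (-2*N + i + 2*a + 3*b + l + c - R + 1) (pp hR X.al.per (-1) (i + 2*a + b + l + c + R + 1) (pr X.a2 X.al.per 0 (-2*N + i + 2*a + b + l + c - R + 1) (rfl : W (-2*N + i + 2*a + 3*b + l + c - R + 1) = W (-2*N + i + 2*a + 3*b + l + c - R + 1)) (by omega)) (by omega)) (by omega)) (by omega))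

theorem T0_20 (X : C W N Q i a b l m c d) (hb : B N Q i a b l m c d)
    (h : a ≤ 0 ∧ 2*b + l + 2 ≤ 2*N ∧ 4*N + Q ≤ i + 2*a + 4*b + 2*l + 2*c + 2 ∧ l + c + 1 ≤ N ∧ N ≤ l + c + 1) :
    False := by
  obtain ⟨b1, b2, b3, b4, b5, b6, b7, b8, b9, b10, b11, b12, b13, b14, b15⟩ := hb
  obtain ⟨g1, g2, g3, g4, g5⟩ := h
  have k1 : 2*N ≤ 2*b + l + m + 1 := by clear * - b13 g3; omega
  have k2 : b + l + c + 2 ≤ 2*N := by clear * - b7 b9 g2 g4; omega
  clear * - X g1 g2 g3 g4 g5 b2 k1 k2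
  exact X.n1.tor ⟨(fin X.al.per 0 _ (rfl : W (i + 2*a) = W (i + 2*a)) (by omega)), (fin X.al.per 1 _ (pr X.a2 X.al.per 0 (-4*N + i + 2*a + 2*b + 2*l + 2*c + 2) (ar X.S2 X.al.per 0 (-4*N + i + 2*a + 4*b + 2*l + 2*c + 2) (rfl : W (i + 2*a) = W (i + 2*a)) (by omega)) (by omega)) (by omega))⟩

theorem T0_21 (X : C W N Q i a b l m c d) (hb : B N Q i a b l m c d)
    (h : i + 2*a + 4*b + l + 2*c + 2 ≤ 4*N + Q ∧ Q + 2*a + 2*b + 2*c ≤ 4*N ∧ 2*N + 1 ≤ a + 2*b + c) :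
    False := by
  obtain ⟨b1, b2, b3, b4, b5, b6, b7, b8, b9, b10, b11, b12, b13, b14, b15⟩ := hb
  obtain ⟨g1, g2, g3⟩ := h
  have k1 : Q + 2*b + 2*c ≤ 4*N + i := by clear * - b1 b2 g2; omega
  have k2 : a + 2*b + c + 1 ≤ 3*N := by clear * - b6 b14 b15 g1 g2; omega
  clear * - X g1 g2 g3 k1 k2
  exact X.al.ubQ (-4*N + 2*a + 4*b + 2*c) (by omega) (by omega) fun t h1 h2 => (fin X.al.per 0 _ (pf X.a2 X.al.per 1 (-4*N + 2*a + 4*b + 2*c + t) (pr X.c1 X.al.per 0 (-2*N + 2*a + 2*b + 2*c + t) (rfl : W (t) = W (t)) (by omega)) (by omega)) (by omega))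

theorem T0_22 (X : C W N Q i a b l m c d) (hb : B N Q i a b l m c d)
    (h : 1 ≤ a ∧ 3*N ≤ a + 2*b + l + 2*c + 1 ∧ a + 2*b + l + 2*c + 1 ≤ 3*N ∧ 2*b + l + 2 ≤ 2*N ∧ 2*N ≤ 2*b + l + m + 1 ∧ 2*N + i + 1 ≤ Q + 2*b ∧ a + c ≤ b ∧ b ≤ a + c) :
    False := by
  obtain ⟨b1, b2, b3, b4, b5, b6, b7, b8, b9, b10, b11, b12, b13, b14, b15⟩ := hb
  obtain ⟨g1, g2, g3, g4, g5, g6, g7, g8⟩ := h
  have k1 : Q ≤ i + 2*b := by clear * - b6 g4 g7; omega
  have k2 : a + b + 1 ≤ N := by clear * - b1 b5; omega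
  clear * - X g1 g2 g3 g4 g5 g6 g7 g8 k1 b5 k2
  obtain ⟨φ, H, T, ht, h0⟩ := exH X.al (i + 2*a)
  obtain ⟨Da2, ha2⟩ := ht.par X.a2 (by omega)
  obtain ⟨Ds2, hs2⟩ := ht.ant X.s2 (by omega)
  obtain ⟨Dc1, hc1⟩ := ht.par X.c1 (by omega)
  obtain ⟨Dc2, hc2⟩ := ht.par X.c2 (by omega)
  obtain ⟨DS2, hS2⟩ := ht.ant X.S2 (by omega)
  have e1 := ha2 0 0 (i) (i + 2*b) (by omega)
  have e2 := ha2 0 0 (i + 1) (i + 2*b + 1) (by omega)
  have e3 := hc1 0 0 (i + 2*a + 2*b) (-4*N + i + 2*a + 4*b + 2*l + 2*c + 2) (by omega)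
  have e4 := hc1 0 0 (i + 2*a + 2*b + 1) (-4*N + i + 2*a + 4*b + 2*l + 2*c + 3) (by omega)
  have e5 := hS2 0 0 (-4*N + i + 2*a + 4*b + 2*l + 2*c + 3) (i + 2*a) (by omega)
  have e6 := hS2 0 0 (-4*N + i + 2*a + 4*b + 2*l + 2*c + 2) (i + 2*a + 1) (by omega)
  have e7 := hs2 0 1 (2*N + i - 2*b + 1) (i + 2*a + 2*b) (by omega)
  have e8 := hc2 0 0 (2*N + i - 2*b + 1) (i + 2*b + 1) (by omega)
  have e9 := hs2 0 1 (2*N + i - 2*b) (i + 2*a + 2*b + 1) (by omega)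
  have e10 := hc2 0 0 (2*N + i - 2*b) (i + 2*b) (by omega)
  have e11 := ht.lt (i + 2*a) 0 0 (i + 2*a) (i + 2*a + 1) (by omega)
  have e12 := ht.lt (i) 0 0 (i) (i + 1) (by omega)
  have e13 := ht.lt (i + 2*a + 2*b) 0 0 (i + 2*a + 2*b) (i + 2*a + 2*b + 1) (by omega)
  have t0 := ht.tri X.n1
  omega

theorem T0_23 (X : C W N Q i a b l m c d) (hb : B N Q i a b l m c d)
    (h : 3*N + Q ≤ i + 3*a + 4*b + l + c + 1 ∧ a + 2*b + l + c + 2 ≤ 3*N ∧ a + 2*b + 1 ≤ N + c ∧ N ≤ a + l + c ∧ a + c + 1 ≤ N) :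
    False := by
  obtain ⟨b1, b2, b3, b4, b5, b6, b7, b8, b9, b10, b11, b12, b13, b14, b15⟩ := hb
  obtain ⟨g1, g2, g3, g4, g5⟩ := h
  have k1 : N + c ≤ a + 2*b + m := by clear * - b13 g1; omega
  clear * - X g1 g2 g3 g4 g5 k1
  exact X.al.ninv (-3*N + i + 3*a + 2*b + l + c + 1) (fin X.al.per (-1) _ (pf X.bb X.al.per 0 (-N + i + 3*a + 2*b + l + c + 1) (af X.S2 X.al.per 0 (-N + i + a + l + c + 1) (pf X.a2 X.al.per 0 (-3*N + i + 3*a + 4*b + l + c + 1) (rfl : W (-3*N + i + 3*a + 2*b + l + c + 1) = W (-3*N + i + 3*a + 2*b + l + c + 1)) (by omega)) (by omega)) (by omega)) (by omega))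

theorem T0_24 (X : C W N Q i a b l m c d) (hb : B N Q i a b l m c d)
    (h : a + 2*b + l + 2*c + 2 ≤ 3*N ∧ N + 1 ≤ a + 2*b ∧ a + 2*c ≤ N + m ∧ N + 1 ≤ a + 2*c) :
    False := by
  obtain ⟨b1, b2, b3, b4, b5, b6, b7, b8, b9, b10, b11, b12, b13, b14, b15⟩ := hb
  obtain ⟨g1, g2, g3, g4⟩ := h
  have k1 : 3*N ≤ i + 3*a + 2*b + l + 2*c + 1 := by clear * - b9 g4; omega
  have k2 : i + 3*a + 4*b + l + 2*c + 2 ≤ 5*N := by clear * - b5 g1; omega
  clear * - X g1 g2 g3 g4 k1 k2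
  exact X.al.ninv (-3*N + i + 3*a + 2*b + l + 2*c + 1) (fin X.al.per 0 _ (af X.S2 X.al.per 0 (-3*N + i + 3*a + 2*b + l + 2*c + 1) (pf X.c1 X.al.per 0 (-N + i + a + 2*b + l + 1) (pf X.a1 X.al.per 0 (-3*N + i + 3*a + 4*b + l + 2*c + 1) (rfl : W (-3*N + i + 3*a + 2*b + l + 2*c + 1) = W (-3*N + i + 3*a + 2*b + l + 2*c + 1)) (by omega)) (by omega)) (by omega)) (by omega))

theorem T0_27 (X : C W N Q i a b l m c d) (hb : B N Q i a b l m c d)
    (h : N ≤ a + m + c ∧ N + c ≤ a + 2*b + m ∧ a + 2*b + l + 3*c + 1 ≤ 3*N + m ∧ 3*a + 4*b + 2*l + 5*c + 3 ≤ 7*N ∧ N + c + 1 ≤ a + 4*b ∧ l + 2*c + 3 ≤ 2*N ∧ a + c + 1 ≤ N) :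
    False := by
  obtain ⟨b1, b2, b3, b4, b5, b6, b7, b8, b9, b10, b11, b12, b13, b14, b15⟩ := hb
  obtain ⟨g1, g2, g3, g4, g5, g6, g7⟩ := h
  have k1 : a + 2*b + l + c + 2 ≤ 3*N := by clear * - b6 b15 g3; omega
  have k2 : N + 1 ≤ a + 2*b + c := by clear * - b6 b15 g2; omega
  have k3 : 2*N + Q ≤ i + 2*a + 2*b + l + 2*c + 2 := by clear * - b6; omega
  have k4 : i + 2*a + 2*b ≤ 2*N := by clear * - b5; omega
  clear * - X g1 g2 g3 g4 g5 g6 g7 k1 k2 k3 k4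
  obtain ⟨L, hL⟩ : ∃ L : ℤ, -2*m + 2*c ≤ 2*L ∧ -8*N + 4*a + 4*b + 2*l + 6*c + 4 ≤ 2*L ∧ -4*b + 2*c + 2 ≤ 2*L ∧ 2*L + 2*(N - a - c) - 2 ≤ 2*c - 2 ∧ 2*L + 2*(N - a - c) - 2 ≤ 4*b - 2*c - 2 ∧ 2*L + 2*(N - a - c) - 2 ≤ 8*N - 4*a - 4*b - 2*l - 6*c - 4 := ⟨((max (-4*b + 2*c + 2) (max (-8*N + 4*a + 4*b + 2*l + 6*c + 4) (-2*m + 2*c))) + 1) / 2, by omega⟩
  obtain ⟨R, hR1, hR2, hR⟩ := pw (A := -2*N + i + 2*a + l + 2*c + 2) (B := 2*N + i - 2*c) (γ := N - a - c) (by omega) (fun t h1 h2 => (fin X.al.per 0 _ (pf X.c1 X.al.per 0 (2*N - 2*a - 2*c + t) (pf X.a2 X.al.per 0 (2*b + t) (rfl : W (t) = W (t)) (by omega)) (by omega)) (by omega))) L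
  exact X.al.ninv (-2*N + i + 2*a + 2*b + l + c + R + 1) (fin X.al.per 0 _ (pp hR X.al.per 0 (-2*N + i + 2*a + 2*b + l + c + R + 1) (af X.S2 X.al.per 0 (-2*N + i + 2*a + 2*b + l + c - R + 1) (rfl : W (-2*N + i + 2*a + 2*b + l + c + R + 1) = W (-2*N + i + 2*a + 2*b + l + c + R + 1)) (by omega)) (by omega)) (by omega))

theorem T0_41 (X : C W N Q i a b l m c d) (hb : B N Q i a b l m c d)
    (h : l + c + 2 ≤ N + a + b ∧ a + 3*b + l + c + 2 ≤ 3*N ∧ 3*N + 1 ≤ 3*a + 5*b + c ∧ N + c ≤ a + 3*b + m ∧ a + b + c ≤ N + m ∧ i + 2*a + 2*b + l + 2*c + 3 ≤ 4*N) :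
    False := by
  obtain ⟨b1, b2, b3, b4, b5, b6, b7, b8, b9, b10, b11, b12, b13, b14, b15⟩ := hb
  obtain ⟨g1, g2, g3, g4, g5, g6⟩ := h
  have k1 : b + c ≤ N + i + a := by clear * - b9 g2; omega
  have k2 : a + 3*b + c ≤ 3*N := by clear * - b5 b9 g2; omega
  have k3 : i + 3*a + 5*b + l + c + 2 ≤ 5*N := by clear * - b5 g2; omega
  have k4 : 3*N ≤ i + 3*a + 3*b + l + c + 1 := by clear * - b6 b8 b9; omega
  have k5 : N + 1 ≤ a + b + c := by clear * - b6 b8; omega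
  have k6 : N + c ≤ i + a + b + l + m + 2 := by clear * - b9 g5; omega
  clear * - X g1 g2 g3 g4 g5 g6 k1 k2 k3 k4 k5 k6
  obtain ⟨L, hL⟩ : ∃ L : ℤ, -4*N + 2*b + 2*l + 2*c + 4 ≤ 2*L ∧ -8*N + 2*i + 4*a + 6*b + 2*l + 2*c + 4 ≤ 2*L ∧ 4*N - 4*a - 6*b - 2*c + 2 ≤ 2*L ∧ -2*b - 2*m + 2*c ≤ 2*L ∧ 2*L + 2*(-N + a + b + c) - 2 ≤ -4*N + 2*i + 4*a + 2*b + 2*l + 2*c + 2 ∧ 2*L + 2*(-N + a + b + c) - 2 ≤ -4*N + 4*a + 6*b + 2*c - 2 ∧ 2*L + 2*(-N + a + b + c) - 2 ≤ 8*N - 2*i - 4*a - 6*b - 2*l - 2*c - 4 ∧ 2*L + 2*(-N + a + b + c) - 2 ≤ -2*b + 2*c - 2 := ⟨((max (-2*b - 2*m + 2*c) (max (4*N - 4*a - 6*b - 2*c + 2) (max (-8*N + 2*i + 4*a + 6*b + 2*l + 2*c + 4) (-4*N + 2*b + 2*l + 2*c + 4)))) + 1) / 2, by omega⟩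
  obtain ⟨R, hR1, hR2, hR⟩ := pw (A := i + l + 2) (B := 2*N) (γ := -N + a + b + c) (by omega) (fun t h1 h2 => (fin X.al.per 0 _ (pr X.c1 X.al.per 0 (-2*N + 2*a + 2*b + 2*c + t) (rfl : W (t) = W (t)) (by omega)) (by omega))) L
  exact X.al.ninv (-2*N + i + 2*a + b + l + c - R + 1) (fin X.al.per 0 _ (af X.S2 X.al.per 0 (-2*N + i + 2*a + b + l + c - R + 1) (pp hR X.al.per 0 (-2*N + i + 2*a + 3*b + l + c + R + 1) (pf X.a1 X.al.per 0 (-2*N + i + 2*a + 3*b + l + c - R + 1) (rfl : W (-2*N + i + 2*a + b + l + c - R + 1) = W (-2*N + i + 2*a + b + l + c - R + 1)) (by omega)) (by omega)) (by omega)) (by omega))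

theorem T0_42 (X : C W N Q i a b l m c d) (hb : B N Q i a b l m c d)
    (h : i + 2*a + l + 2 ≤ 2*N ∧ b + c + 1 ≤ N ∧ 4*N ≤ i + 4*a + 4*b + 2*c ∧ 4*N ≤ i + 2*a + 4*b + l + 2*c + 1) :
    False := by
  obtain ⟨b1, b2, b3, b4, b5, b6, b7, b8, b9, b10, b11, b12, b13, b14, b15⟩ := hb
  obtain ⟨g1, g2, g3, g4⟩ := h
  have k1 : a + b ≤ N := by clear * - b1 b5; omega
  clear * - X g1 g2 g3 g4 k1 b5
  exact X.al.ubP (2*N - 2*b - 2*c) (by omega) (by omega) fun t h1 h2 => (fin X.al.per (-1) _ (pf X.bb X.al.per 0 (4*N - 2*b - 2*c + t) (pr X.a1 X.al.per 0 (4*N - 2*a - 4*b - 2*c + t) (pf X.c1 X.al.per (-1) (4*N - 2*a - 2*b - 2*c + t) (rfl : W (t) = W (t)) (by omega)) (by omega)) (by omega)) (by omega))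

theorem T0_45 (X : C W N Q i a b l m c d) (hb : B N Q i a b l m c d)
    (h : 2*N ≤ a + b + l + c ∧ a + b + 1 ≤ c) :
    False := by
  obtain ⟨b1, b2, b3, b4, b5, b6, b7, b8, b9, b10, b11, b12, b13, b14, b15⟩ := hb
  obtain ⟨g1, g2⟩ := h
  have k1 : a + b + c + 1 ≤ 2*N := by clear * - b7 b9 g2; omega
  have k2 : c ≤ a + b + m := by clear * - b4 b13 g1; omega
  clear * - X g1 g2 k1 k2
  exact X.al.ninv (-2*N + i + a + b + l + c + 1) (fin X.al.per 0 _ (af X.S2 X.al.per 0 (-2*N + i + a + b + l + c + 1) (pf X.bb X.al.per 0 (-2*N + i + 3*a + 3*b + l + c + 1) (rfl : W (-2*N + i + a + b + l + c + 1) = W (-2*N + i + a + b + l + c + 1)) (by omega)) (by omega)) (by omega))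

theorem T0_46 (X : C W N Q i a b l m c d) (hb : B N Q i a b l m c d)
    (h : i + 2*b + l + 1 ≤ Q) :
    False := by
  obtain ⟨b1, b2, b3, b4, b5, b6, b7, b8, b9, b10, b11, b12, b13, b14, b15⟩ := hb
  have g1 := h
  have k1 : 1 ≤ b := by clear * - b3 b4; omega
  have k2 : N + 1 ≤ a + b + c := by clear * - b6 b8; omega
  have k3 : a + b + c + 1 ≤ 2*N := by clear * - b1 b5 b7 b9; omega
  clear * - X g1 k1 k2 k3
  exact absurd (X.la4 (i + l + 2) (i + 2*b + l + 1) (-2*N + 2*a + 2*b + 2*c) (by omega) (by omega) fun t h1 h2 => (fin X.al.per 0 _ (pf X.c2 X.al.per 0 (-2*N + 2*a + 2*b + 2*c + t) (rfl : W (t) = W (t)) (by omega)) (by omega))) (by omega)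

theorem T0_59 (X : C W N Q i a b l m c d) (hb : B N Q i a b l m c d)
    (h : 2*N ≤ i + 3*a + b + l + c + 1 ∧ a + b + l + c + 2 ≤ 2*N ∧ 4*N + Q ≤ i + 3*a + 5*b + l + c + 1 ∧ a + 3*b + 1 ≤ 2*N + c ∧ a + c + 1 ≤ b) :
    False := by
  obtain ⟨b1, b2, b3, b4, b5, b6, b7, b8, b9, b10, b11, b12, b13, b14, b15⟩ := hb
  obtain ⟨g1, g2, g3, g4, g5⟩ := h
  have k1 : 2*N + c ≤ a + 3*b + m := by clear * - b13 g3; omega
  have k2 : b ≤ a + l + c := by clear * - b5 g1; omega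
  clear * - X g1 g2 g3 g4 g5 k1 k2
  exact X.al.ninv (-2*N + i + 3*a + b + l + c + 1) (fin X.al.per (-1) _ (pf X.bb X.al.per 0 (i + 3*a + b + l + c + 1) (af X.S2 X.al.per 0 (i + a - b + l + c + 1) (pf X.a2 X.al.per 1 (-4*N + i + 3*a + 5*b + l + c + 1) (pf X.a1 X.al.per 0 (-2*N + i + 3*a + 3*b + l + c + 1) (rfl : W (-2*N + i + 3*a + b + l + c + 1) = W (-2*N + i + 3*a + b + l + c + 1)) (by omega)) (by omega)) (by omega)) (by omega)) (by omega))

theorem T0_61 (X : C W N Q i a b l m c d) (hb : B N Q i a b l m c d)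
    (h : Q + l + 2*c ≤ 2*N) :
    False := by
  obtain ⟨b1, b2, b3, b4, b5, b6, b7, b8, b9, b10, b11, b12, b13, b14, b15⟩ := hb
  have g1 := h
  have k1 : i + 2*a + 2*b + 3 ≤ 2*N + Q := by clear * - b5 b6 b9 b13 b15; omega
  have k2 : a + b + c + 1 ≤ 2*N := by clear * - b1 b5 b9 b14 b15 g1; omega
  have k3 : N + 1 ≤ a + b + c := by clear * - b6 b8; omega
  clear * - X g1 k1 k2 k3
  exact absurd (X.la2 (-2*N + i + 2*a + 2*b + l + 2*c + 2) (Q + l + 2*c) (4*N - 2*a - 2*b - 2*c) (by omega) (by omega) fun t h1 h2 => (fin X.al.per 1 _ (pf X.c1 X.al.per 0 (2*N - 2*a - 2*b - 2*c + t) (rfl : W (t) = W (t)) (by omega)) (by omega))) (by omega)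

theorem T0_63 (X : C W N Q i a b l m c d) (hb : B N Q i a b l m c d)
    (h : 2*N + i + a + 1 ≤ Q + b + c ∧ a + b + l + c + 2 ≤ 2*N) :
    False := by
  obtain ⟨b1, b2, b3, b4, b5, b6, b7, b8, b9, b10, b11, b12, b13, b14, b15⟩ := hb
  obtain ⟨g1, g2⟩ := h
  have k1 : 2*N + 2*i + a + 1 ≤ 2*Q + b + c := by clear * - b5 b8 b9 g1; omega
  have k2 : a + 3*b + 2*l + 3*c + 3 ≤ 6*N := by clear * - b2 b5 b9 g2; omega
  have k3 : i + l + 3 ≤ Q := by clear * - b2 g1 g2; omega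
  have k4 : a + b + c + 1 ≤ 2*N := by clear * - b5 b9 g2; omega
  clear * - X g1 g2 k1 k2 k3 k4
  obtain ⟨L, hL⟩ : ∃ L : ℤ, 2*a + 2 ≤ 2*L ∧ -2*Q + 2*i + 2*a + 2 ≤ 2*L ∧ -8*N + 2*a + 4*b + 2*l + 4*c + 4 ≤ 2*L ∧ 2*L + 2*(2*N - a - b - c) - 2 ≤ 2*Q - 2*i - 2*a - 2 ∧ 2*L + 2*(2*N - a - b - c) - 2 ≤ 8*N - 2*a - 4*b - 2*l - 4*c - 4 := ⟨((max (-8*N + 2*a + 4*b + 2*l + 4*c + 4) (max (-2*Q + 2*i + 2*a + 2) (2*a + 2))) + 1) / 2, by omega⟩
  obtain ⟨R, hR1, hR2, hR⟩ := pw (A := -2*N + i + 2*a + 2*b + l + 2*c + 2) (B := 2*N + Q) (γ := 2*N - a - b - c) (by omega) (fun t h1 h2 => (fin X.al.per 1 _ (pr X.c2 X.al.per 0 (2*N - 2*a - 2*b - 2*c + t) (rfl : W (t) = W (t)) (by omega)) (by omega))) L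
  exact X.al.ninv (i + a + R) (fin X.al.per (-1) _ (pp hR X.al.per (-1) (2*N + i + a + R) (af X.s2 X.al.per 0 (i + a - R) (rfl : W (i + a + R) = W (i + a + R)) (by omega)) (by omega)) (by omega))

theorem T36_i (X : C W N Q i a b l m c d) (hb : B N Q i a b l m c d)
    (h : N ≤ l + c) :
    ∃ U : ℤ, (0 ≤ U ∧ -4*N + 2*a + 2*b + 2*l + 2*c + 2 ≤ 2*U ∧ 2*U < -4*N + 2*a + 2*b + 2*l + 2*c + 2 + 2*(N - a - b)) ∧ Par W (i + 2*a + 2*b + 1) (2*N + i + l - 2*U + 1) (2*U) := by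
  obtain ⟨b1, b2, b3, b4, b5, b6, b7, b8, b9, b10, b11, b12, b13, b14, b15⟩ := hb
  have g1 := h
  have k1 : 1 ≤ l := by clear * - b7 b9 g1; omega
  have k2 : a + b + 1 ≤ N := by clear * - b1 b5; omega
  clear * - X g1 k1 k2
  exact (pwi (A := i + 2*a + 2*b + 1) (B := 2*N + i + l + 1) (γ := N - a - b) (-4*N + 2*a + 2*b + 2*l + 2*c + 2) (by omega) (fun t h1 h2 => (fin X.al.per 1 _ (pr X.bb X.al.per 0 (-2*a - 2*b + t) (rfl : W (t) = W (t)) (by omega)) (by omega)))).imp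
    fun _ h => ⟨h.1, h.2.cg (by omega)⟩

theorem T36_0 (X : C W N Q i a b l m c d) (hb : B N Q i a b l m c d)
    (w1 : Par W (i + 2*a + 2*b + 1) (2*N + i + l - 2*U + 1) (2*U))
    (h : 2*a + 4*b + 2*U ≤ 2*N + l + 1 ∧ 1 ≤ U) :
    False := by
  obtain ⟨b1, b2, b3, b4, b5, b6, b7, b8, b9, b10, b11, b12, b13, b14, b15⟩ := hb
  obtain ⟨g1, g2⟩ := h
  have k1 : 1 ≤ b := by clear * - b3 b4; omega
  have k2 : U + 1 ≤ N := by clear * - b3 b4 b8 g1; omega
  clear * - X w1 g1 g2 k1 k2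
  exact absurd (X.la4 (i + 2*a + 2*b + 1) (i + 2*a + 4*b) (2*U) (by omega) (by omega) fun t h1 h2 => (fin X.al.per 0 _ (pf w1 X.al.per 0 (2*U + t) (rfl : W (t) = W (t)) (by omega)) (by omega))) (by omega)

theorem T36_1 (X : C W N Q i a b l m c d) (hb : B N Q i a b l m c d)
    (w1 : Par W (i + 2*a + 2*b + 1) (2*N + i + l - 2*U + 1) (2*U))
    (h : N + 1 ≤ c + U ∧ N + U ≤ l + c) :
    False := by
  obtain ⟨b1, b2, b3, b4, b5, b6, b7, b8, b9, b10, b11, b12, b13, b14, b15⟩ := hb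
  obtain ⟨g1, g2⟩ := h
  have k1 : c + U ≤ N + m := by clear * - b4 b13 g2; omega
  have k2 : 2*a + 2*b + c + U + 1 ≤ 3*N := by clear * - b1 b7 g2; omega
  clear * - X w1 g1 g2 k1 k2
  exact X.al.ninv (-N + i + 2*a + 2*b + l + c - U + 1) (fin X.al.per 0 _ (pr w1 X.al.per (-1) (-N + i + 2*a + 2*b + l + c - U + 1) (af X.S2 X.al.per 0 (-3*N + i + 2*a + 2*b + l + c + U + 1) (rfl : W (-N + i + 2*a + 2*b + l + c - U + 1) = W (-N + i + 2*a + 2*b + l + c - U + 1)) (by omega)) (by omega)) (by omega))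

theorem T36_2 (X : C W N Q i a b l m c d) (hb : B N Q i a b l m c d)
    (w1 : Par W (i + 2*a + 2*b + 1) (2*N + i + l - 2*U + 1) (2*U))
    (h : a ≤ U ∧ U ≤ a ∧ 2*b + l + 2 ≤ 2*N ∧ b + l + c + 1 ≤ 2*N ∧ 2*N ≤ b + l + c + 1) :
    False := by
  obtain ⟨b1, b2, b3, b4, b5, b6, b7, b8, b9, b10, b11, b12, b13, b14, b15⟩ := hb
  obtain ⟨g1, g2, g3, g4, g5⟩ := h
  have k1 : 2*a ≤ l := by clear * - b1 b7 g5; omega
  have k2 : 2*N ≤ 2*b + l + m + 1 := by clear * - b4 b13 g5; omega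
  clear * - X w1 g1 g2 g3 g4 g5 k1 k2
  exact X.n1.tor ⟨(fin X.al.per (-1) _ (pr w1 X.al.per (-1) (2*N + i + 2*a - 2*U) (rfl : W (i + 2*a) = W (i + 2*a)) (by omega)) (by omega)), (fin X.al.per 0 _ (ar X.S2 X.al.per 0 (-4*N + i + 2*a + 4*b + 2*l + 2*c + 2) (rfl : W (i + 2*a) = W (i + 2*a)) (by omega)) (by omega))⟩

theorem T148_i (X : C W N Q i a b l m c d) (hb : B N Q i a b l m c d)
    (h : 2*N ≤ i + 2*a + l + 2*c + 2 ∧ l + 2*c + 3 ≤ 2*N ∧ a + c + 1 ≤ N ∧ N ≤ i + 2*a + b) :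
    ∃ U : ℤ, (0 ≤ U ∧ -4*N + 2*i + 6*a + 2*b + 2*c + 2 ≤ 2*U ∧ 2*U < -4*N + 2*i + 6*a + 2*b + 2*c + 2 + 2*(N - a - c)) ∧ Par W (-2*N + i + 2*a + l + 2*c + 2) (2*N + i - 2*c - 2*U) (2*U) := by
  obtain ⟨b1, b2, b3, b4, b5, b6, b7, b8, b9, b10, b11, b12, b13, b14, b15⟩ := hb
  obtain ⟨g1, g2, g3, g4⟩ := h
  have k1 : i + 2*a + 2*b ≤ 2*N := by clear * - b5; omega
  clear * - X g1 g2 g3 g4 k1
  exact (pwi (A := -2*N + i + 2*a + l + 2*c + 2) (B := 2*N + i - 2*c) (γ := N - a - c) (-4*N + 2*i + 6*a + 2*b + 2*c + 2) (by omega) (fun t h1 h2 => (fin X.al.per 0 _ (pf X.c1 X.al.per 0 (2*N - 2*a - 2*c + t) (pf X.a1 X.al.per 0 (2*b + t) (rfl : W (t) = W (t)) (by omega)) (by omega)) (by omega)))).imp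
    fun _ h => ⟨h.1, h.2.cg (by omega)⟩

theorem T148_0 (X : C W N Q i a b l m c d) (hb : B N Q i a b l m c d)
    (w1 : Par W (-2*N + i + 2*a + l + 2*c + 2) (2*N + i - 2*c - 2*U) (2*U))
    (h : N + U ≤ i + 2*a + b ∧ 2*a + b + 1 ≤ N + U ∧ 2*a + b + l + 2*c + U + 2 ≤ 3*N ∧ 2*c + U + 1 ≤ N + b ∧ N ≤ b + l + U) :
    False := by
  obtain ⟨b1, b2, b3, b4, b5, b6, b7, b8, b9, b10, b11, b12, b13, b14, b15⟩ := hb
  obtain ⟨g1, g2, g3, g4, g5⟩ := h
  have k1 : b + U + 1 ≤ N := by clear * - b5 g1; omega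
  clear * - X w1 g1 g2 g3 g4 g5 k1
  exact X.al.ninv (-N + i + 2*a + b - U) (fin X.al.per (-1) _ (pf X.bb X.al.per 0 (N + i + 2*a + b - U) (pr w1 X.al.per 0 (N + i - b - U) (af X.s1 X.al.per 0 (N + i - b + U) (rfl : W (-N + i + 2*a + b - U) = W (-N + i + 2*a + b - U)) (by omega)) (by omega)) (by omega)) (by omega))

theorem T148_1 (X : C W N Q i a b l m c d) (hb : B N Q i a b l m c d)
    (w1 : Par W (-2*N + i + 2*a + l + 2*c + 2) (2*N + i - 2*c - 2*U) (2*U))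
    (h : c ≤ m + U ∧ U + 1 ≤ c ∧ c + U + 1 ≤ 2*b ∧ 2*a + 2*b + l + 3*c + U + 2 ≤ 4*N) :
    False := by
  obtain ⟨b1, b2, b3, b4, b5, b6, b7, b8, b9, b10, b11, b12, b13, b14, b15⟩ := hb
  obtain ⟨g1, g2, g3, g4⟩ := h
  clear * - X w1 g1 g2 g3 g4
  exact X.al.ninv (-2*N + i + 2*a + 2*b + l + c + U + 1) (fin X.al.per 0 _ (pf w1 X.al.per 0 (-2*N + i + 2*a + 2*b + l + c + U + 1) (af X.S2 X.al.per 0 (-2*N + i + 2*a + 2*b + l + c - U + 1) (rfl : W (-2*N + i + 2*a + 2*b + l + c + U + 1) = W (-2*N + i + 2*a + 2*b + l + c + U + 1)) (by omega)) (by omega)) (by omega))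

theorem T148_2 (X : C W N Q i a b l m c d) (hb : B N Q i a b l m c d)
    (w1 : Par W (-2*N + i + 2*a + l + 2*c + 2) (2*N + i - 2*c - 2*U) (2*U))
    (h : N + U ≤ i + 2*a + c ∧ 2*a + c + 1 ≤ N + U ∧ l + c + U + 2 ≤ N) :
    False := by
  obtain ⟨b1, b2, b3, b4, b5, b6, b7, b8, b9, b10, b11, b12, b13, b14, b15⟩ := hb
  obtain ⟨g1, g2, g3⟩ := h
  have k1 : c + 1 ≤ N + U := by clear * - b2 g2; omega
  have k2 : c + U + 1 ≤ N := by clear * - b5 b9 g3; omega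
  have k3 : i + 2*a + 2*b + c + 1 ≤ 3*N + U := by clear * - b2 b5 g2; omega
  clear * - X w1 g1 g2 g3 k1 k2 k3
  exact X.al.ninv (-N + i + 2*a + 2*b + c - U) (fin X.al.per 0 _ (pr X.c1 X.al.per 0 (-N + i + 2*a + 2*b + c - U) (pr w1 X.al.per 0 (N + i - c - U) (af X.s1 X.al.per 0 (N + i - c + U) (pr X.a1 X.al.per 0 (-N + i + 2*a + c - U) (rfl : W (-N + i + 2*a + 2*b + c - U) = W (-N + i + 2*a + 2*b + c - U)) (by omega)) (by omega)) (by omega)) (by omega)) (by omega))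

theorem T148_4 (X : C W N Q i a b l m c d) (hb : B N Q i a b l m c d)
    (w1 : Par W (-2*N + i + 2*a + l + 2*c + 2) (2*N + i - 2*c - 2*U) (2*U))
    (h : N ≤ i + 2*a + l + c + U + 1 ∧ l + c + U + 2 ≤ N ∧ 2*a + l + 3*c + U + 2 ≤ 3*N ∧ 2*b + U + 1 ≤ N + c ∧ 3*N + Q ≤ i + 2*a + 4*b + l + c + U + 1) :
    False := by
  obtain ⟨b1, b2, b3, b4, b5, b6, b7, b8, b9, b10, b11, b12, b13, b14, b15⟩ := hb
  obtain ⟨g1, g2, g3, g4, g5⟩ := h
  have k1 : c + U + 1 ≤ N := by clear * - b5 b9 g2; omega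
  have k2 : N + c ≤ 2*b + m + U := by clear * - b13 g5; omega
  have k3 : 2*b + l + c + U + 2 ≤ 3*N := by clear * - b7 g1 g2 g4; omega
  clear * - X w1 g1 g2 g3 g4 g5 k1 k2 k3
  exact X.al.ninv (-N + i + 2*a + 2*b + l + c + U + 1) (fin X.al.per 1 _ (pr X.a2 X.al.per 0 (-3*N + i + 2*a + 2*b + l + c + U + 1) (ar X.S2 X.al.per 0 (-3*N + i + 2*a + 4*b + l + c + U + 1) (pr w1 X.al.per 0 (-N + i + 2*a + l + c - U + 1) (pr X.a1 X.al.per 0 (-N + i + 2*a + l + c + U + 1) (rfl : W (-N + i + 2*a + 2*b + l + c + U + 1) = W (-N + i + 2*a + 2*b + l + c + U + 1)) (by omega)) (by omega)) (by omega)) (by omega)) (by omega))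

theorem T148_5 (X : C W N Q i a b l m c d) (hb : B N Q i a b l m c d)
    (w1 : Par W (-2*N + i + 2*a + l + 2*c + 2) (2*N + i - 2*c - 2*U) (2*U))
    (h : N + i + a + 1 ≤ Q + b ∧ N + a ≤ b + l + 2*U ∧ i + a + b + 2*U + 1 ≤ N + Q ∧ a + 3*b + 2*U + 1 ≤ 3*N ∧ i + a + l + 2*c + 2*U + 2 ≤ N + Q + b ∧ a + b + l + 2*c + 2*U + 2 ≤ 3*N ∧ a + l + 4*c + 2*U + 2 ≤ 3*N + b ∧ 1 ≤ l) :
    False := by
  obtain ⟨b1, b2, b3, b4, b5, b6, b7, b8, b9, b10, b11, b12, b13, b14, b15⟩ := hb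
  obtain ⟨g1, g2, g3, g4, g5, g6, g7, g8⟩ := h
  have k1 : a + b + 1 ≤ N := by clear * - b1 b5; omega
  clear * - X w1 g1 g2 g3 g4 g5 g6 g7 g8 k1
  obtain ⟨L, hL⟩ : ∃ L : ℤ, 2*a - 2*U + 2 ≤ 2*L ∧ 2*a - 2*l - 2*U ≤ 2*L ∧ -4*N + 2*a + 4*b + 2*U + 2 ≤ 2*L ∧ -4*N + 2*a + 2*l + 4*c + 2*U + 4 ≤ 2*L ∧ 2*L + 2*(N - a - b) - 2 ≤ 2*Q - 2*i - 2*a - 2*U - 2 ∧ 2*L + 2*(N - a - b) - 2 ≤ 4*N - 2*a - 4*b - 2*U - 2 ∧ 2*L + 2*(N - a - b) - 2 ≤ -2*a + 2*l + 2*U ∧ 2*L + 2*(N - a - b) - 2 ≤ 4*N - 2*a - 4*c - 2*U - 2 := ⟨((max (-4*N + 2*a + 2*l + 4*c + 2*U + 4) (max (-4*N + 2*a + 4*b + 2*U + 2) (max (2*a - 2*l - 2*U) (2*a - 2*U + 2)))) + 1) / 2, by omega⟩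
  obtain ⟨R, hR1, hR2, hR⟩ := pw (A := i + 2*a + 2*b + 1) (B := 2*N + i + l + 1) (γ := N - a - b) (by omega) (fun t h1 h2 => (fin X.al.per 1 _ (pr X.bb X.al.per 0 (-2*a - 2*b + t) (rfl : W (t) = W (t)) (by omega)) (by omega))) L
  exact X.al.ninv (i + a + U + R) (fin X.al.per 0 _ (pf w1 X.al.per 1 (i + a + U + R) (pp hR X.al.per (-1) (2*N + i + a - U + R) (af X.s2 X.al.per 0 (i + a - U - R) (rfl : W (i + a + U + R) = W (i + a + U + R)) (by omega)) (by omega)) (by omega)) (by omega))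

theorem T154_i (X : C W N Q i a b l m c d) (hb : B N Q i a b l m c d)
    (w1 : Par W (-2*N + i + 2*a + l + 2*c + 2) (2*N + i - 2*c - 2*U) (2*U))
    (h : 2*N ≤ i + 2*a + l + 2*c + 2 ∧ l + 2*c + 3 ≤ 2*N ∧ a + c + 1 ≤ N ∧ a + m + 1 ≤ N) :
    ∃ V : ℤ, (0 ≤ V ∧ -2*m + 2*c ≤ 2*V ∧ 2*V < -2*m + 2*c + 2*(N - a - c)) ∧ Par W (-2*N + i + 2*a + l + 2*c + 2) (2*N + i - 2*c - 2*V) (2*V) := by
  obtain ⟨b1, b2, b3, b4, b5, b6, b7, b8, b9, b10, b11, b12, b13, b14, b15⟩ := hb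
  obtain ⟨g1, g2, g3, g4⟩ := h
  have k1 : i + 2*a + 2*b ≤ 2*N := by clear * - b5; omega
  clear * - X w1 g1 g2 g3 g4 k1
  exact (pwi (A := -2*N + i + 2*a + l + 2*c + 2) (B := 2*N + i - 2*c) (γ := N - a - c) (-2*m + 2*c) (by omega) (fun t h1 h2 => (fin X.al.per 0 _ (pf X.c1 X.al.per 0 (2*N - 2*a - 2*c + t) (pf X.a1 X.al.per 0 (2*b + t) (rfl : W (t) = W (t)) (by omega)) (by omega)) (by omega)))).imp
    fun _ h => ⟨h.1, h.2.cg (by omega)⟩

theorem T154_0 (X : C W N Q i a b l m c d) (hb : B N Q i a b l m c d)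
    (w1 : Par W (-2*N + i + 2*a + l + 2*c + 2) (2*N + i - 2*c - 2*U) (2*U))
    (w2 : Par W (-2*N + i + 2*a + l + 2*c + 2) (2*N + i - 2*c - 2*V) (2*V))
    (h : c ≤ m + V ∧ V + 1 ≤ c ∧ c + V + 1 ≤ 2*b ∧ 2*a + 2*b + l + 3*c + V + 2 ≤ 4*N) :
    False := by
  obtain ⟨b1, b2, b3, b4, b5, b6, b7, b8, b9, b10, b11, b12, b13, b14, b15⟩ := hb
  obtain ⟨g1, g2, g3, g4⟩ := h
  clear * - X w1 w2 g1 g2 g3 g4
  exact X.al.ninv (-2*N + i + 2*a + 2*b + l + c + V + 1) (fin X.al.per 0 _ (pf w2 X.al.per 0 (-2*N + i + 2*a + 2*b + l + c + V + 1) (af X.S2 X.al.per 0 (-2*N + i + 2*a + 2*b + l + c - V + 1) (rfl : W (-2*N + i + 2*a + 2*b + l + c + V + 1) = W (-2*N + i + 2*a + 2*b + l + c + V + 1)) (by omega)) (by omega)) (by omega))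

theorem T154_1 (X : C W N Q i a b l m c d) (hb : B N Q i a b l m c d)
    (w1 : Par W (-2*N + i + 2*a + l + 2*c + 2) (2*N + i - 2*c - 2*U) (2*U))
    (w2 : Par W (-2*N + i + 2*a + l + 2*c + 2) (2*N + i - 2*c - 2*V) (2*V))
    (h : U ≤ i + a ∧ a + 1 ≤ U ∧ a + l + 2*c + U + 2 ≤ 2*N) :
    False := by
  obtain ⟨b1, b2, b3, b4, b5, b6, b7, b8, b9, b10, b11, b12, b13, b14, b15⟩ := hb
  obtain ⟨g1, g2, g3⟩ := h
  have k1 : a + 2*c + U + 1 ≤ 2*N := by clear * - b5 b9 g3; omega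
  clear * - X w1 w2 g1 g2 g3 k1
  exact X.al.ninv (i + a - U) (fin X.al.per 0 _ (pr w1 X.al.per 0 (i + a - U) (af X.s1 X.al.per 0 (i + a + U) (rfl : W (i + a - U) = W (i + a - U)) (by omega)) (by omega)) (by omega))

theorem T154_2 (X : C W N Q i a b l m c d) (hb : B N Q i a b l m c d)
    (w1 : Par W (-2*N + i + 2*a + l + 2*c + 2) (2*N + i - 2*c - 2*U) (2*U))
    (w2 : Par W (-2*N + i + 2*a + l + 2*c + 2) (2*N + i - 2*c - 2*V) (2*V))
    (h : a ≤ U ∧ U ≤ a ∧ 2*b + l + 2*U + 2 ≤ 2*N ∧ 4*N + Q ≤ i + 2*a + 4*b + 2*l + 2*c + 2*U + 2 ∧ l + c + U + 1 ≤ N ∧ N ≤ l + c + U + 1) :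
    False := by
  obtain ⟨b1, b2, b3, b4, b5, b6, b7, b8, b9, b10, b11, b12, b13, b14, b15⟩ := hb
  obtain ⟨g1, g2, g3, g4, g5, g6⟩ := h
  have k1 : l + 2*c + 2*U + 2 ≤ 2*N := by clear * - b5 b9 g5; omega
  have k2 : 2*N ≤ 2*b + l + m + 2*U + 1 := by clear * - b13 g4; omega
  have k3 : b + l + c + U + 2 ≤ 2*N := by clear * - b2 b7 b9 g1 g3 g5; omega
  clear * - X w1 w2 g1 g2 g3 g4 g5 g6 k1 k2 k3
  exact X.n1.tor ⟨(fin X.al.per 0 _ (pr w1 X.al.per 0 (i + 2*a - 2*U) (rfl : W (i + 2*a) = W (i + 2*a)) (by omega)) (by omega)), (fin X.al.per 1 _ (pr X.a2 X.al.per 0 (-4*N + i + 2*a + 2*b + 2*l + 2*c + 2*U + 2) (ar X.S2 X.al.per 0 (-4*N + i + 2*a + 4*b + 2*l + 2*c + 2*U + 2) (pr w1 X.al.per 0 (i + 2*a - 2*U) (rfl : W (i + 2*a) = W (i + 2*a)) (by omega)) (by omega)) (by omega)) (by omega))⟩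

theorem T154_3 (X : C W N Q i a b l m c d) (hb : B N Q i a b l m c d)
    (w1 : Par W (-2*N + i + 2*a + l + 2*c + 2) (2*N + i - 2*c - 2*U) (2*U))
    (w2 : Par W (-2*N + i + 2*a + l + 2*c + 2) (2*N + i - 2*c - 2*V) (2*V))
    (h : N + V ≤ a + b + l + c ∧ a + b + c + 1 ≤ N + V ∧ N + c + V + 1 ≤ a + 3*b ∧ 3*a + 3*b + l + 3*c + V + 2 ≤ 5*N ∧ N + c ≤ a + b + m + V ∧ a + b + V + 1 ≤ N + c) :
    False := by
  obtain ⟨b1, b2, b3, b4, b5, b6, b7, b8, b9, b10, b11, b12, b13, b14, b15⟩ := hb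
  obtain ⟨g1, g2, g3, g4, g5, g6⟩ := h
  clear * - X w1 w2 g1 g2 g3 g4 g5 g6
  exact X.al.ninv (-N + i + a + b + l + c - V + 1) (fin X.al.per 0 _ (af X.S2 X.al.per 0 (-N + i + a + b + l + c - V + 1) (pf w2 X.al.per 1 (-3*N + i + 3*a + 3*b + l + c + V + 1) (pf X.bb X.al.per 0 (-N + i + 3*a + 3*b + l + c - V + 1) (rfl : W (-N + i + a + b + l + c - V + 1) = W (-N + i + a + b + l + c - V + 1)) (by omega)) (by omega)) (by omega)) (by omega))

theorem T154_4 (X : C W N Q i a b l m c d) (hb : B N Q i a b l m c d)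
    (w1 : Par W (-2*N + i + 2*a + l + 2*c + 2) (2*N + i - 2*c - 2*U) (2*U))
    (w2 : Par W (-2*N + i + 2*a + l + 2*c + 2) (2*N + i - 2*c - 2*V) (2*V))
    (h : c + V + 1 ≤ N ∧ 2*N + Q ≤ i + 2*a + 4*b ∧ N + U ≤ a + c + V ∧ a + c + V ≤ N + U ∧ N ≤ b + V ∧ b + V ≤ N ∧ i + 2*V + 1 ≤ Q ∧ l + c + U + 1 ≤ N ∧ N ≤ l + c + U + 1) :
    False := by
  obtain ⟨b1, b2, b3, b4, b5, b6, b7, b8, b9, b10, b11, b12, b13, b14, b15⟩ := hb
  obtain ⟨g1, g2, g3, g4, g5, g6, g7, g8, g9⟩ := h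
  have k1 : 2*a + l + 2*c + 2 ≤ 2*N := by clear * - b1 b5 g4 g5 g8; omega
  have k2 : l + 2*c + 2 ≤ 2*N := by clear * - b1 b2 b7 g4 g5 g8; omega
  have k3 : i + 2*a + 2*b ≤ 2*N := by clear * - b5; omega
  have k4 : l + 2*c + 1 ≤ 2*b + m := by clear * - b13 g2; omega
  clear * - X w1 w2 g1 g2 g3 g4 g5 g6 g7 g8 g9 k1 k2 k3 k4
  obtain ⟨φ, H, T, ht, h0⟩ := exH X.al (-2*N + i + 2*a + 2*b + l + 1)
  obtain ⟨Da2, ha2⟩ := ht.par X.a2 (by omega)
  obtain ⟨Ds2, hs2⟩ := ht.ant X.s2 (by omega)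
  obtain ⟨Dbb, hbb⟩ := ht.par X.bb (by omega)
  obtain ⟨Dc1, hc1⟩ := ht.par X.c1 (by omega)
  obtain ⟨DS2, hS2⟩ := ht.ant X.S2 (by omega)
  obtain ⟨Dw1, hw1⟩ := ht.par w1 (by omega)
  obtain ⟨Dw2, hw2⟩ := ht.par w2 (by omega)
  have e1 := ha2 0 0 (i + 2*a) (i + 2*a + 2*b) (by omega)
  have e2 := hs2 0 0 (i + 2*a + 1) (i) (by omega)
  have e3 := hw2 0 0 (i) (i + 2*V) (by omega)
  have e4 := hbb 0 (-1) (i + 1) (-2*N + i + 2*a + 2*b + 1) (by omega)
  have e5 := hw2 0 0 (i + 1) (i + 2*V + 1) (by omega)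
  have e6 := ha2 1 0 (i + 2*a + 2*b) (-2*N + i + 2*a + 4*b) (by omega)
  have e7 := hc1 0 0 (i + 2*a + 2*b) (2*N + i - 2*c) (by omega)
  have e8 := hS2 0 0 (-2*N + i + 2*a + 2*b + l + 2*c + 1) (-2*N + i + 2*a + 2*b + l + 2) (by omega)
  have e9 := hc1 0 0 (-2*N + i + 2*a + 2*b + l + 2*c + 2) (i + l + 2) (by omega)
  have e10 := hbb 0 (-1) (i + l + 1) (-2*N + i + 2*a + 2*b + l + 1) (by omega)
  have e11 := hw1 0 0 (i + l + 1) (i + l + 2*U + 1) (by omega)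
  have e12 := ha2 0 0 (-2*N + i + 2*a + l + 2*c + 2) (-2*N + i + 2*a + 2*b + l + 2*c + 2) (by omega)
  have e13 := hw1 0 0 (2*N + i - 2*c - 2*V) (i + 2*a) (by omega)
  have e14 := hw2 0 0 (2*N + i - 2*c - 2*V) (2*N + i - 2*c) (by omega)
  have e15 := hw1 0 0 (i + 2*a - 2*U + 1) (i + 2*a + 1) (by omega)
  have e16 := hs2 0 0 (i + 2*V) (-2*N + i + 2*a + 2*b + 1) (by omega)
  have e17 := hs2 0 1 (i + 2*V + 1) (i + 2*a + 2*b) (by omega)
  have e18 := hS2 0 0 (-2*N + i + 2*a + 4*b) (i + 2*a - 2*U + 1) (by omega)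
  have e19 := hs2 0 0 (i + l + 2*U + 1) (-2*N + i + 2*a + l + 2*c + 2) (by omega)
  have e20 := ht.lt (-2*N + i + 2*a + 2*b + l + 1) 0 0 (-2*N + i + 2*a + 2*b + l + 1) (-2*N + i + 2*a + 2*b + l + 2) (by omega)
  have e21 := ht.lt (-2*N + i + 2*a + 2*b + l + 2*c + 1) 0 0 (-2*N + i + 2*a + 2*b + l + 2*c + 1) (-2*N + i + 2*a + 2*b + l + 2*c + 2) (by omega)
  have e22 := ht.lt (i + l + 1) 0 0 (i + l + 1) (i + l + 2) (by omega)
  have t1 := ht.tri X.n2
  omega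

theorem T162_i (X : C W N Q i a b l m c d) (hb : B N Q i a b l m c d)
    (h : l + 2*c + 3 ≤ 2*N ∧ a + c + 1 ≤ N ∧ a + l + 2*c + 2 ≤ 2*N) :
    ∃ U : ℤ, (0 ≤ U ∧ 2*N - 2*l - 2*c - 2 ≤ 2*U ∧ 2*U < 2*N - 2*l - 2*c - 2 + 2*(N - a - c)) ∧ Par W (-2*N + i + 2*a + l + 2*c + 2) (2*N + i - 2*c - 2*U) (2*U) := by
  obtain ⟨b1, b2, b3, b4, b5, b6, b7, b8, b9, b10, b11, b12, b13, b14, b15⟩ := hb
  obtain ⟨g1, g2, g3⟩ := h
  have k1 : 2*N + Q ≤ i + 2*a + 2*b + l + 2*c + 2 := by clear * - b6; omega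
  have k2 : i + 2*a + 2*b ≤ 2*N := by clear * - b5; omega
  clear * - X g1 g2 g3 k1 k2
  exact (pwi (A := -2*N + i + 2*a + l + 2*c + 2) (B := 2*N + i - 2*c) (γ := N - a - c) (2*N - 2*l - 2*c - 2) (by omega) (fun t h1 h2 => (fin X.al.per 0 _ (pf X.c1 X.al.per 0 (2*N - 2*a - 2*c + t) (pf X.a2 X.al.per 0 (2*b + t) (rfl : W (t) = W (t)) (by omega)) (by omega)) (by omega)))).imp
    fun _ h => ⟨h.1, h.2.cg (by omega)⟩

theorem T162_0 (X : C W N Q i a b l m c d) (hb : B N Q i a b l m c d)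
    (w1 : Par W (-2*N + i + 2*a + l + 2*c + 2) (2*N + i - 2*c - 2*U) (2*U))
    (h : a + 1 ≤ U ∧ i + a + U + 1 ≤ Q ∧ a + l + 2*c + U + 2 ≤ 2*N) :
    False := by
  obtain ⟨b1, b2, b3, b4, b5, b6, b7, b8, b9, b10, b11, b12, b13, b14, b15⟩ := hb
  obtain ⟨g1, g2, g3⟩ := h
  have k1 : a + 2*c + U + 1 ≤ 2*N := by clear * - b5 b9 g3; omega
  clear * - X w1 g1 g2 g3 k1
  exact X.al.ninv (i + a + U) (fin X.al.per 0 _ (pf w1 X.al.per 0 (i + a + U) (af X.s2 X.al.per 0 (i + a - U) (rfl : W (i + a + U) = W (i + a + U)) (by omega)) (by omega)) (by omega))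

theorem T162_1 (X : C W N Q i a b l m c d) (hb : B N Q i a b l m c d)
    (w1 : Par W (-2*N + i + 2*a + l + 2*c + 2) (2*N + i - 2*c - 2*U) (2*U))
    (h : 2*a + b + 1 ≤ N + U ∧ N + i + U + 1 ≤ Q + b ∧ b + U + 1 ≤ N ∧ N ≤ b + l + U ∧ 2*a + b + l + 2*c + U + 2 ≤ 3*N ∧ 2*c + U + 1 ≤ N + b) :
    False := by
  obtain ⟨b1, b2, b3, b4, b5, b6, b7, b8, b9, b10, b11, b12, b13, b14, b15⟩ := hb
  obtain ⟨g1, g2, g3, g4, g5, g6⟩ := h
  clear * - X w1 g1 g2 g3 g4 g5 g6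
  exact X.al.ninv (N + i - b + U) (fin X.al.per 0 _ (pf w1 X.al.per 0 (N + i - b + U) (pr X.bb X.al.per (-1) (N + i - b - U) (af X.s2 X.al.per 0 (-N + i + 2*a + b - U) (rfl : W (N + i - b + U) = W (N + i - b + U)) (by omega)) (by omega)) (by omega)) (by omega))

theorem T162_3 (X : C W N Q i a b l m c d) (hb : B N Q i a b l m c d)
    (w1 : Par W (-2*N + i + 2*a + l + 2*c + 2) (2*N + i - 2*c - 2*U) (2*U))
    (h : N + i + a + 1 ≤ Q + b ∧ N + a ≤ b + l + 2*U ∧ i + a + b + 2*U + 1 ≤ N + Q ∧ a + 3*b + 2*U + 1 ≤ 3*N ∧ i + a + l + 2*c + 2*U + 2 ≤ N + Q + b ∧ a + b + l + 2*c + 2*U + 2 ≤ 3*N ∧ a + l + 4*c + 2*U + 2 ≤ 3*N + b ∧ 1 ≤ l) :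
    False := by
  obtain ⟨b1, b2, b3, b4, b5, b6, b7, b8, b9, b10, b11, b12, b13, b14, b15⟩ := hb
  obtain ⟨g1, g2, g3, g4, g5, g6, g7, g8⟩ := h
  have k1 : a + b + 1 ≤ N := by clear * - b1 b5; omega
  clear * - X w1 g1 g2 g3 g4 g5 g6 g7 g8 k1
  obtain ⟨L, hL⟩ : ∃ L : ℤ, 2*a - 2*U + 2 ≤ 2*L ∧ 2*a - 2*l - 2*U ≤ 2*L ∧ -4*N + 2*a + 4*b + 2*U + 2 ≤ 2*L ∧ -4*N + 2*a + 2*l + 4*c + 2*U + 4 ≤ 2*L ∧ 2*L + 2*(N - a - b) - 2 ≤ 2*Q - 2*i - 2*a - 2*U - 2 ∧ 2*L + 2*(N - a - b) - 2 ≤ 4*N - 2*a - 4*b - 2*U - 2 ∧ 2*L + 2*(N - a - b) - 2 ≤ -2*a + 2*l + 2*U ∧ 2*L + 2*(N - a - b) - 2 ≤ 4*N - 2*a - 4*c - 2*U - 2 := ⟨((max (-4*N + 2*a + 2*l + 4*c + 2*U + 4) (max (-4*N + 2*a + 4*b + 2*U + 2) (max (2*a - 2*l - 2*U) (2*a - 2*U + 2)))) + 1) / 2, by omega⟩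
  obtain ⟨R, hR1, hR2, hR⟩ := pw (A := i + 2*a + 2*b + 1) (B := 2*N + i + l + 1) (γ := N - a - b) (by omega) (fun t h1 h2 => (fin X.al.per 1 _ (pr X.bb X.al.per 0 (-2*a - 2*b + t) (rfl : W (t) = W (t)) (by omega)) (by omega))) L
  exact X.al.ninv (i + a + U + R) (fin X.al.per 0 _ (pf w1 X.al.per 1 (i + a + U + R) (pp hR X.al.per (-1) (2*N + i + a - U + R) (af X.s2 X.al.per 0 (i + a - U - R) (rfl : W (i + a + U + R) = W (i + a + U + R)) (by omega)) (by omega)) (by omega)) (by omega))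

theorem T162_6 (X : C W N Q i a b l m c d) (hb : B N Q i a b l m c d)
    (w1 : Par W (-2*N + i + 2*a + l + 2*c + 2) (2*N + i - 2*c - 2*U) (2*U))
    (h : c ≤ m + U ∧ U + 1 ≤ c ∧ c + U + 1 ≤ 2*b ∧ 2*a + 2*b + l + 3*c + U + 2 ≤ 4*N) :
    False := by
  obtain ⟨b1, b2, b3, b4, b5, b6, b7, b8, b9, b10, b11, b12, b13, b14, b15⟩ := hb
  obtain ⟨g1, g2, g3, g4⟩ := h
  clear * - X w1 g1 g2 g3 g4
  exact X.al.ninv (-2*N + i + 2*a + 2*b + l + c + U + 1) (fin X.al.per 0 _ (pf w1 X.al.per 0 (-2*N + i + 2*a + 2*b + l + c + U + 1) (af X.S2 X.al.per 0 (-2*N + i + 2*a + 2*b + l + c - U + 1) (rfl : W (-2*N + i + 2*a + 2*b + l + c + U + 1) = W (-2*N + i + 2*a + 2*b + l + c + U + 1)) (by omega)) (by omega)) (by omega))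

theorem T172_i (X : C W N Q i a b l m c d) (hb : B N Q i a b l m c d)
    (w1 : Par W (-2*N + i + 2*a + l + 2*c + 2) (2*N + i - 2*c - 2*U) (2*U))
    (h : 1 ≤ l ∧ b ≤ l + c) :
    ∃ V : ℤ, (0 ≤ V ∧ -2*N + 2*a + 2*l + 2*c + 2 ≤ 2*V ∧ 2*V < -2*N + 2*a + 2*l + 2*c + 2 + 2*(N - a - b)) ∧ Par W (i + 2*a + 2*b + 1) (2*N + i + l - 2*V + 1) (2*V) := by
  obtain ⟨b1, b2, b3, b4, b5, b6, b7, b8, b9, b10, b11, b12, b13, b14, b15⟩ := hb
  obtain ⟨g1, g2⟩ := h
  have k1 : a + b + 1 ≤ N := by clear * - b1 b5; omega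
  clear * - X w1 g1 g2 k1
  exact (pwi (A := i + 2*a + 2*b + 1) (B := 2*N + i + l + 1) (γ := N - a - b) (-2*N + 2*a + 2*l + 2*c + 2) (by omega) (fun t h1 h2 => (fin X.al.per 1 _ (pr X.bb X.al.per 0 (-2*a - 2*b + t) (rfl : W (t) = W (t)) (by omega)) (by omega)))).imp
    fun _ h => ⟨h.1, h.2.cg (by omega)⟩

theorem T172_0 (X : C W N Q i a b l m c d) (hb : B N Q i a b l m c d)
    (w1 : Par W (-2*N + i + 2*a + l + 2*c + 2) (2*N + i - 2*c - 2*U) (2*U))
    (w2 : Par W (i + 2*a + 2*b + 1) (2*N + i + l - 2*V + 1) (2*V))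
    (h : V + 1 ≤ a + b ∧ i + 3*a + 3*b + l + 2*c + 2 ≤ 4*N + V ∧ a + b + 2*c + V ≤ 2*N + m ∧ 2*N + 1 ≤ a + b + 2*c + V ∧ 2*N + V ≤ a + b + l + 2*c ∧ 3*a + 3*b + 2*c + V + 1 ≤ 4*N) :
    False := by
  obtain ⟨b1, b2, b3, b4, b5, b6, b7, b8, b9, b10, b11, b12, b13, b14, b15⟩ := hb
  obtain ⟨g1, g2, g3, g4, g5, g6⟩ := h
  clear * - X w1 w2 g1 g2 g3 g4 g5 g6
  exact X.al.ninv (-2*N + i + 3*a + 3*b + l + 2*c - V + 1) (fin X.al.per 0 _ (pr w2 X.al.per (-1) (-2*N + i + 3*a + 3*b + l + 2*c - V + 1) (af X.S2 X.al.per 0 (-4*N + i + 3*a + 3*b + l + 2*c + V + 1) (pf X.c1 X.al.per 0 (i + a + b + l - V + 1) (rfl : W (-2*N + i + 3*a + 3*b + l + 2*c - V + 1) = W (-2*N + i + 3*a + 3*b + l + 2*c - V + 1)) (by omega)) (by omega)) (by omega)) (by omega))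

theorem T172_1 (X : C W N Q i a b l m c d) (hb : B N Q i a b l m c d)
    (w1 : Par W (-2*N + i + 2*a + l + 2*c + 2) (2*N + i - 2*c - 2*U) (2*U))
    (w2 : Par W (i + 2*a + 2*b + 1) (2*N + i + l - 2*V + 1) (2*V))
    (h : U + V ≤ a ∧ a ≤ U + V ∧ 2*N ≤ a + 2*b + c ∧ a + 2*b + c ≤ 2*N ∧ 2*a + 2*b + l + 4*c + 1 ≤ 4*N + m ∧ a + 2*b + l + 2*c + U + 1 ≤ 3*N ∧ 3*N ≤ a + 2*b + l + 2*c + U + 1 ∧ U ≤ a ∧ 2*a ≤ l + 2*U ∧ 2*b ≤ l + 2*c) :
    False := by
  obtain ⟨b1, b2, b3, b4, b5, b6, b7, b8, b9, b10, b11, b12, b13, b14, b15⟩ := hb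
  obtain ⟨g1, g2, g3, g4, g5, g6, g7, g8, g9, g10⟩ := h
  have k1 : l + 2*c + 2 ≤ 2*N := by clear * - b2 g3 g6 g9; omega
  clear * - X w1 w2 g1 g2 g3 g4 g5 g6 g7 g8 g9 g10 k1 b5
  obtain ⟨φ, H, T, ht, h0⟩ := exH X.al (i + 2*a)
  obtain ⟨Dbb, hbb⟩ := ht.par X.bb (by omega)
  obtain ⟨Dc1, hc1⟩ := ht.par X.c1 (by omega)
  obtain ⟨DS2, hS2⟩ := ht.ant X.S2 (by omega)
  obtain ⟨Dw1, hw1⟩ := ht.par w1 (by omega)
  obtain ⟨Dw2, hw2⟩ := ht.par w2 (by omega)
  have e1 := hw2 (-1) (-1) (i) (i + 2*a - 2*U) (by omega)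
  have e2 := hbb 0 0 (i + 1) (i + 2*a + 2*b + 1) (by omega)
  have e3 := hc1 0 0 (i + 2*a + 2*b) (2*N + i - 2*c) (by omega)
  have e4 := hc1 0 0 (i + 2*a + 2*b + 1) (-2*N + i + 2*a + 4*b + 1) (by omega)
  have e5 := hw2 0 (-1) (i + 2*a + 2*b + 1) (-2*N + i + 2*a + 2*b + 2*V + 1) (by omega)
  have e6 := hS2 0 0 (2*N + i - 2*c) (i + 2*a - 2*U + 1) (by omega)
  have e7 := hw1 0 0 (i + 2*a - 2*U) (i + 2*a) (by omega)
  have e8 := hbb 0 (-1) (i + 2*a - 2*U + 1) (-2*N + i + 2*a + 2*b + 2*V + 1) (by omega)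
  have e9 := hw1 0 0 (i + 2*a - 2*U + 1) (i + 2*a + 1) (by omega)
  have e10 := hS2 0 0 (-2*N + i + 2*a + 4*b + 1) (i + 2*a - 2*U) (by omega)
  have e11 := ht.lt (i + 2*a) 0 0 (i + 2*a) (i + 2*a + 1) (by omega)
  have e12 := ht.lt (i) 0 0 (i) (i + 1) (by omega)
  have e13 := ht.lt (i + 2*a + 2*b) 0 0 (i + 2*a + 2*b) (i + 2*a + 2*b + 1) (by omega)
  have t0 := ht.tri X.n1
  omega

theorem main (X : C W N Q i a b l m c d) (hb : B N Q i a b l m c d) : False := by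
  obtain ⟨b1, b2, b3, b4, b5, b6, b7, b8, b9, b10, b11, b12, b13, b14, b15⟩ := id hb
  rcases lt_or_ge (i + 2*a - 2*b + 1) 0 with h1 | h1
  · rcases lt_or_ge (m - c) 0 with h2 | h2
    · rcases lt_or_ge (-N + Q - i - a - 1) 0 with h3 | h3
      · rcases lt_or_ge (i + a - b) 0 with h4 | h4
        · rcases lt_or_ge (-N + l + c) 0 with h5 | h5
          · rcases lt_or_ge (-N - Q + i + 2*a + 2*b + 1) 0 with h6 | h6
            · rcases lt_or_ge (-2*N + i + 2*a + l + 2*c + 2) 0 with h7 | h7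
              · obtain ⟨U, ⟨U0, U1, U2⟩, w1⟩ := T162_i X hb ⟨by clear * - b2 b9 h3 h5 h6 h7; omega, by clear * - b1 b5 b9 h7; omega, by clear * - b1 b9 h3 h5 h6 h7; omega⟩
                rcases lt_or_ge (-2*N + Q - i + b + c - 1) 0 with h8 | h8
                · rcases lt_or_ge (2*N + i - 2*b - 2*c) 0 with h9 | h9
                  · rcases lt_or_ge (-a + U - 1) 0 with h10 | h10
                    · rcases lt_or_ge (N - 2*a - b + U - 1) 0 with h11 | h11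
                      · rcases lt_or_ge (-N - a + b + l + 2*U) 0 with h12 | h12
                        · obtain ⟨V, ⟨V0, V1, V2⟩, w2⟩ := T172_i X hb w1 ⟨by clear * - U1 U2 h11 h12; omega, by clear * - U1 U2 h12; omega⟩
                          rcases lt_or_ge (2*N - a - 2*b - c - 1) 0 with h13 | h13
                          · rcases lt_or_ge (-2*N + a + b + 2*c + V - 1) 0 with h14 | h14
                            · rcases lt_or_ge (3*N - a - 2*b - l - 2*c - 2) 0 with h15 | h15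
                              · exact T0_22 X hb ⟨by clear * - U0 h11 V1 V2; omega, by clear * - h15; omega, by clear * - U0 U1 h12 V1 h14; omega, by clear * - U0 h12 V1 V2; omega, by clear * - b13 h8 V0 h13 h14 h15; omega, by clear * - h6 U1 h11 V1 h13 h14; omega, by clear * - V1 h14 h15; omega, by clear * - U0 U1 h12; omega⟩
                              rcases lt_or_ge (N - a + m - 2*c) 0 with h16 | h16
                              · exact T172_1 X hb w1 w2 ⟨by clear * - U1 h12 h13 h14; omega, by clear * - U1 V1; omega, by clear * - h13; omega, by clear * - U1 h12 V1 h14; omega, by clear * - b13 h8 V0 h13 h14; omega, by clear * - U1 h12 V1 h14; omega, by clear * - U1 h13; omega, by clear * - h10; omega, by clear * - U1 V1 V2 h13 h14; omega, by clear * - U1 h12 V1 V2; omega⟩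
                              exact T0_24 X hb ⟨by clear * - h15; omega, by clear * - V0 V2 h13 h14 h15; omega, by clear * - h16; omega, by clear * - U1 h12 V1 V2 h13 h15; omega⟩
                            rcases lt_or_ge (4*N - i - 3*a - 3*b - l - 2*c + V - 2) 0 with h17 | h17
                            · exact T0_21 X hb ⟨by clear * - h5 h6 U1 h8 h11; omega, by clear * - h7 h8 V0 V2; omega, by clear * - h7 h14 h17; omega⟩
                            rcases lt_or_ge (4*N - 3*a - 3*b - 2*c - V - 1) 0 with h18 | h18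
                            · exact T0_21 X hb ⟨by clear * - h5 h6 U1 h8 h11; omega, by clear * - h7 h8 V0 V2; omega, by clear * - b1 h7 V2 h18; omega⟩
                            exact T172_0 X hb w1 w2 ⟨by clear * - U0 h11 h13 h14 h18; omega, by clear * - h17; omega, by clear * - b13 U1 h8 h11 h13 h18; omega, by clear * - h14; omega, by clear * - V2 h13; omega, by clear * - h18; omega⟩
                          exact T0_7 X hb ⟨by clear * - U0 U2 h9 h11 V1 V2; omega, by clear * - h13; omega, by clear * - b1 U0 h9 h11; omega⟩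
                        rcases lt_or_ge (-N + Q - i - a + b - 1) 0 with h19 | h19
                        · exact T162_6 X hb w1 ⟨by clear * - b1 b13 h9 h11 h12 h19; omega, by clear * - b1 h6 h8 h9 h11; omega, by clear * - b9 U1 U2 h9 h10; omega, by clear * - h6 U2 h11 h12 h19; omega⟩
                        exact T162_3 X hb w1 ⟨by clear * - h19; omega, by clear * - h12; omega, by clear * - b6 h6 U2 h11; omega, by clear * - b1 h6 h8 h9 h11; omega, by clear * - U2 h10 h19; omega, by clear * - b1 h6 U2 h8 h9 h11; omega, by clear * - U2 h10 h12; omega, by clear * - b9 h6 h8 h9 h11 h12; omega⟩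
                      rcases lt_or_ge (-N + Q - i + b - U - 1) 0 with h20 | h20
                      · rcases lt_or_ge (-N + a + m + c) 0 with h21 | h21
                        · rcases lt_or_ge (-N + a + l + c) 0 with h22 | h22
                          · rcases lt_or_ge (N - a + m - 2*c) 0 with h23 | h23
                            · exact T0_7 X hb ⟨by clear * - U0 U2 h9 h10; omega, by clear * - b13 U1 h10 h11 h20 h21; omega, by clear * - b9 b13 h9 h10 h11 h20 h21 h22 h23; omega⟩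
                            rcases lt_or_ge (-3*N + i + 3*a + 2*b + l + 2*c + 1) 0 with h24 | h24
                            · exact T0_61 X hb (by clear * - b8 b9 h9 h10 h20 h24; omega)
                            rcases lt_or_ge (-N + a + 2*c - 1) 0 with h25 | h25
                            · exact T0_61 X hb (by clear * - b8 h9 h10 h20 h25; omega)
                            exact T0_24 X hb ⟨by clear * - h6 U0 h10 h20 h21 h22 h23; omega, by clear * - U0 h9 h10 h21 h22 h23 h24; omega, by clear * - h23; omega, by clear * - h25; omega⟩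
                          exact T0_23 X hb ⟨by clear * - b9 h7 h9 h10 h20; omega, by clear * - h5 h10 h11 h22; omega, by clear * - b1 h6 h9 h10 h20; omega, by clear * - h22; omega, by clear * - U1 U2; omega⟩
                        exact T0_27 X hb ⟨by clear * - h21; omega, by clear * - b9 h7 h21; omega, by clear * - b9 b13 h7 h10 h20; omega, by clear * - b9 h5 h6 h7 h10 h11 h20; omega, by clear * - b9 U0 U1 U2 h9 h10; omega, by clear * - b9 h5 h7 U1 h10 h11; omega, by clear * - U1 U2; omega⟩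
                      exact T162_1 X hb w1 ⟨by clear * - h11; omega, by clear * - h20; omega, by clear * - h10 h11; omega, by clear * - b9 h7 U1; omega, by clear * - U2 h10 h11; omega, by clear * - b9 h7 h10 h11; omega⟩
                    rcases lt_or_ge (Q - i - a - U - 1) 0 with h26 | h26
                    · rcases lt_or_ge (-N + Q - i + c - 1) 0 with h27 | h27
                      · rcases lt_or_ge (-N + b + l) 0 with h28 | h28
                        · exact T0_7 X hb ⟨by clear * - b9 h4 h28; omega, by clear * - b2 h6 h27; omega, by clear * - b9 h9 h28; omega⟩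
                        exact T0_5 X hb ⟨by clear * - b1 h6 h9 h27; omega, by clear * - h28; omega⟩
                      rcases lt_or_ge (N - 2*a - c - 1) 0 with h29 | h29
                      · rcases lt_or_ge (-N + Q - i - a + c - 1) 0 with h30 | h30
                        · exact T0_7 X hb ⟨by clear * - U2 h9 h10 h27 h30; omega, by clear * - h6 h30; omega, by clear * - b1 b9 U2 h9 h26 h27 h29; omega⟩
                        exact T0_18 X hb ⟨by clear * - h30; omega, by clear * - U2 h26 h30; omega⟩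
                      exact T0_16 X hb ⟨by clear * - h29; omega, by clear * - h27; omega, by clear * - U2 h26 h27; omega⟩
                    exact T162_0 X hb w1 ⟨by clear * - h10; omega, by clear * - h26; omega, by clear * - U2; omega⟩
                  exact T0_14 X hb ⟨by clear * - b6 b8 h7; omega, by clear * - h9; omega⟩
                exact T0_6 X hb ⟨by clear * - b1 b5 U1 U2; omega, by clear * - h8; omega, by clear * - b2 h3 h5 h6; omega⟩
              rcases lt_or_ge (N - a - c - 1) 0 with h31 | h31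
              · rcases lt_or_ge (b + m - c) 0 with h32 | h32
                · rcases lt_or_ge (-2*N + Q - i - a + b + c - 1) 0 with h33 | h33
                  · rcases lt_or_ge (2*N - 2*a - b - c - 1) 0 with h34 | h34
                    · exact T0_46 X hb (by clear * - b13 h32 h34; omega)
                    exact T0_6 X hb ⟨by clear * - h34; omega, by clear * - b9 b13 h1 h31 h32; omega, by clear * - h4 h5 h6 h7 h33; omega⟩
                  exact T0_63 X hb ⟨by clear * - h33; omega, by clear * - b1 b13 h3 h4 h5 h32; omega⟩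
                exact T0_13 X hb ⟨by clear * - b7 b9 h3 h5 h6 h31; omega, by clear * - h32; omega, by clear * - b1 b5 h31; omega⟩
              rcases lt_or_ge (2*N - l - 2*c - 3) 0 with h35 | h35
              · exact T0_6 X hb ⟨by clear * - h3 h5 h6 h31 h35; omega, by clear * - b2 b9 h4 h5 h6 h35; omega, by clear * - b5 b9 h5 h7; omega⟩
              obtain ⟨U, ⟨U0, U1, U2⟩, w1⟩ := T148_i X hb ⟨by clear * - h7; omega, by clear * - h35; omega, by clear * - h31; omega, by clear * - b9 h5 h7; omega⟩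
              rcases lt_or_ge (-2*N + Q - i + b + c - 1) 0 with h36 | h36
              · rcases lt_or_ge (2*N + i - 2*b - 2*c) 0 with h37 | h37
                · rcases lt_or_ge (-b + c - 1) 0 with h38 | h38
                  · rcases lt_or_ge (3*N - a - 2*b - l - 2*c - 2) 0 with h39 | h39
                    · rcases lt_or_ge (-N + a + l + c) 0 with h40 | h40
                      · rcases lt_or_ge (-N + b + l + U) 0 with h41 | h41
                        · rcases lt_or_ge (N - l - c - 2) 0 with h42 | h42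
                          · exact T0_20 X hb ⟨by clear * - h40 h42; omega, by clear * - h35 U0 h41 h42; omega, by clear * - h36 h38 h39; omega, by clear * - h5; omega, by clear * - h42; omega⟩
                          exact T0_16 X hb ⟨by clear * - h6 h36 h38 h39 h40; omega, by clear * - b2 h6 h39 h42; omega, by clear * - h42; omega⟩
                        exact T148_0 X hb w1 ⟨by clear * - U2; omega, by clear * - h6 U0 h36 h39 h40; omega, by clear * - h4 h6 U2 h36 h40; omega, by clear * - b5 U2 h38; omega, by clear * - h41; omega⟩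
                      rcases lt_or_ge (N - a - 2*b + c - 1) 0 with h43 | h43
                      · rcases lt_or_ge (-a + b - c - 1) 0 with h44 | h44
                        · rcases lt_or_ge (-N + a - b + l + 2*c) 0 with h45 | h45
                          · rcases lt_or_ge (m - c + U) 0 with h46 | h46
                            · rcases lt_or_ge (3*N - a - 2*b - l - 2*c - 1) 0 with h47 | h47
                              · exact T0_21 X hb ⟨by clear * - h6 h36 h43 h44 h45; omega, by clear * - b13 U1 h36 h43 h44 h46 h47; omega, by clear * - h44 h45 h47; omega⟩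
                              rcases lt_or_ge (-a + b - c) 0 with h48 | h48
                              · exact T0_21 X hb ⟨by clear * - h6 h40 h45 h47 h48; omega, by clear * - b13 U1 h36 h39 h43 h46 h48; omega, by clear * - h39 h45 h48; omega⟩
                              exact T0_22 X hb ⟨by clear * - h40 h44 h45; omega, by clear * - h39; omega, by clear * - h47; omega, by clear * - h6 h36 h39 h44 h45; omega, by clear * - b13 h36 h39 h40 h45; omega, by clear * - h6 h39 h43 h44 h45; omega, by clear * - h48; omega, by clear * - h44; omega⟩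
                            rcases lt_or_ge (4*N - 2*a - 2*b - l - 3*c - U - 2) 0 with h49 | h49
                            · exact T0_21 X hb ⟨by clear * - h6 h36 h43 h44 h45; omega, by clear * - b5 h36 h40 h45; omega, by clear * - U2 h37 h45 h49; omega⟩
                            exact T148_1 X hb w1 ⟨by clear * - h46; omega, by clear * - h7 h37 h49; omega, by clear * - U1 U2 h39 h43 h44 h45 h49; omega, by clear * - h49; omega⟩
                          exact T0_19 X hb ⟨by clear * - U0 U2 h36 h37 h38 h44; omega, by clear * - h5 U1 U2 h45; omega, by clear * - U0 U1 U2 h36 h37 h39 h43 h45; omega, by clear * - h5 h6 h36 h39 h43; omega, by clear * - U0 U2 h36 h37 h39 h43 h44; omega, by clear * - h45; omega, by clear * - U1 U2 h43 h45; omega⟩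
                        exact T0_59 X hb ⟨by clear * - U0 U2 h40; omega, by clear * - h5 h6 h36 h39; omega, by clear * - h5 h36 h39 h43; omega, by clear * - b5 h5 h7 h44; omega, by clear * - h44; omega⟩
                      exact T0_23 X hb ⟨by clear * - h5 h36 h38 h39 h40; omega, by clear * - h35 h43; omega, by clear * - h43; omega, by clear * - h40; omega, by clear * - h31; omega⟩
                    rcases lt_or_ge (N - a + m - 2*c) 0 with h50 | h50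
                    · rcases lt_or_ge (N - 2*a - c - 1) 0 with h51 | h51
                      · rcases lt_or_ge (2*N - a - 2*b - c - 1) 0 with h52 | h52
                        · obtain ⟨V, ⟨V0, V1, V2⟩, w2⟩ := T154_i X hb w1 ⟨by clear * - h7; omega, by clear * - h35; omega, by clear * - h31; omega, by clear * - U1 U2 h50; omega⟩
                          rcases lt_or_ge (4*N - 2*a - 2*b - l - 3*c - V - 2) 0 with h53 | h53
                          · rcases lt_or_ge (-N + a + l + c) 0 with h54 | h54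
                            · rcases lt_or_ge (N - l - c - U - 2) 0 with h55 | h55
                              · rcases lt_or_ge (-a + U - 1) 0 with h56 | h56
                                · rcases lt_or_ge (2*N - 2*b - l - 2*U - 2) 0 with h57 | h57
                                  · exact T148_0 X hb w1 ⟨by clear * - U2; omega, by clear * - h6 h36 h52 h54 h55; omega, by clear * - h7 U1 V1 V2 h54 h56; omega, by clear * - V1 V2 h54 h56 h57; omega, by clear * - V1 V2 h55 h56 h57; omega⟩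
                                  exact T154_2 X hb w1 w2 ⟨by clear * - h54 h55; omega, by clear * - h56; omega, by clear * - h57; omega, by clear * - h36 h38 h52 h55; omega, by clear * - h54 h56; omega, by clear * - h55; omega⟩
                                exact T154_1 X hb w1 w2 ⟨by clear * - h6 U2 h36 h52; omega, by clear * - h56; omega, by clear * - b5 U2 h38 h54; omega⟩
                              exact T148_2 X hb w1 ⟨by clear * - h7 h55; omega, by clear * - b9 h7 U1 h54; omega, by clear * - h55; omega⟩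
                            rcases lt_or_ge (N - a - 2*b + c - 1) 0 with h58 | h58
                            · rcases lt_or_ge (N - a - b - c + V - 1) 0 with h59 | h59
                              · rcases lt_or_ge (-N + a - b + l + 2*c) 0 with h60 | h60
                                · rcases lt_or_ge (-N - a + b + l + 2*U) 0 with h61 | h61
                                  · rcases lt_or_ge (N - l - c - U - 2) 0 with h62 | h62
                                    · rcases lt_or_ge (-N + a + c - U + V) 0 with h63 | h63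
                                      · exact T0_21 X hb ⟨by clear * - h6 h39 h53 h54 h60 h61 h63; omega, by clear * - U1 h36 h54 h60 h61; omega, by clear * - h53 h60 h61 h63; omega⟩
                                      rcases lt_or_ge (N - a - c + U - V) 0 with h64 | h64
                                      · exact T0_21 X hb ⟨by clear * - h6 h39 h54 h59 h60 h62 h64; omega, by clear * - U1 h36 h54 h60 h61; omega, by clear * - h59 h60 h62 h64; omega⟩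
                                      exact T154_4 X hb w1 w2 ⟨by clear * - h54 h60 h61 h64; omega, by clear * - h36 h54 h59 h60 h62 h63; omega, by clear * - h63; omega, by clear * - h64; omega, by clear * - h60 h62 h63; omega, by clear * - h61 h62 h64; omega, by clear * - h6 h58 h59 h61 h62 h64; omega, by clear * - h60 h61; omega, by clear * - h62; omega⟩
                                    exact T148_4 X hb w1 ⟨by clear * - h7 U1 h51 h58 h60 h62; omega, by clear * - h62; omega, by clear * - V1 V2 h62; omega, by clear * - h6 h36 h53 h59 h61; omega, by clear * - h7 U1 h36 h53 h58 h59 h60; omega⟩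
                                  exact T148_5 X hb w1 ⟨by clear * - h6 h53 h54 h59 h60; omega, by clear * - h61; omega, by clear * - b5 h6 U2 h53 h58 h59 h60 h61; omega, by clear * - b5 h7 U2 h60; omega, by clear * - b5 h6 U2 h53 h58 h59 h60; omega, by clear * - b5 U2 h60; omega, by clear * - b5 U2 h58 h60 h61; omega, by clear * - V1 V2 h54; omega⟩
                                exact T0_19 X hb ⟨by clear * - h36 V0 h58 h59; omega, by clear * - h39 V1 V2 h53 h59; omega, by clear * - h36 V1 V2 h53 h58 h59; omega, by clear * - h6 h36 h52 h58; omega, by clear * - h36 V1 V2 h53 h58 h59; omega, by clear * - h60; omega, by clear * - V1 V2 h58 h60; omega⟩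
                              exact T154_3 X hb w1 w2 ⟨by clear * - b13 h36 h52 V2 h54; omega, by clear * - h59; omega, by clear * - b13 h36 h52 V2 h54 h58; omega, by clear * - b13 h36 V2; omega, by clear * - b13 h36 h53 h58; omega, by clear * - b13 h7 h36 h37 V2; omega⟩
                            exact T0_23 X hb ⟨by clear * - h36 h38 h52 h54; omega, by clear * - h39 h52 V1 V2 h54 h58; omega, by clear * - h58; omega, by clear * - h54; omega, by clear * - h31; omega⟩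
                          exact T154_0 X hb w1 w2 ⟨by clear * - V1; omega, by clear * - h7 h37 h53; omega, by clear * - h7 h37 h38 h53; omega, by clear * - h53; omega⟩
                        exact T0_7 X hb ⟨by clear * - U0 U2 h37 h38 h39 h52; omega, by clear * - h52; omega, by clear * - U0 U2 h37; omega⟩
                      rcases lt_or_ge (N - l - c - 2) 0 with h65 | h65
                      · exact T0_7 X hb ⟨by clear * - U0 U2 h37 h38 h39 h65; omega, by clear * - h39 h65; omega, by clear * - U0 U2 h37; omega⟩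
                      exact T0_16 X hb ⟨by clear * - h51; omega, by clear * - b13 h4 h7 h38 h50; omega, by clear * - h65; omega⟩
                    exact T0_24 X hb ⟨by clear * - h39; omega, by clear * - h7 h37 h38 h39; omega, by clear * - h50; omega, by clear * - h7 h37 h39; omega⟩
                  exact T0_13 X hb ⟨by clear * - h35 h38; omega, by clear * - b9 b13 h36 h37; omega, by clear * - h38; omega⟩
                exact T0_14 X hb ⟨by clear * - h4 h5 h7; omega, by clear * - h37; omega⟩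
              exact T0_6 X hb ⟨by clear * - b1 b5 U1 U2; omega, by clear * - h36; omega, by clear * - b5 h5 U0 U2; omega⟩
            exact T0_4 X hb (by clear * - h6; omega)
          obtain ⟨U, ⟨U0, U1, U2⟩, w1⟩ := T36_i X hb (by clear * - h5; omega)
          rcases lt_or_ge (-N - a + b + l) 0 with h66 | h66
          · rcases lt_or_ge (-b + c - 1) 0 with h67 | h67
            · rcases lt_or_ge (-2*N + Q - i + b + c - 1) 0 with h68 | h68
              · rcases lt_or_ge (2*N + i - 2*b - 2*c) 0 with h69 | h69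
                · rcases lt_or_ge (-3*N - Q + i + 3*a + 3*b + l + 2*c + 1) 0 with h70 | h70
                  · rcases lt_or_ge (N - 2*a - b - 1) 0 with h71 | h71
                    · exact T0_7 X hb ⟨by clear * - U1 U2 h66 h67 h69; omega, by clear * - U0 U2 h66 h67 h68 h70; omega, by clear * - b1 h69 h71; omega⟩
                    exact T0_5 X hb ⟨by clear * - h71; omega, by clear * - U0 U2 h67; omega⟩
                  exact T0_19 X hb ⟨by clear * - U1 U2 h66 h67 h70; omega, by clear * - U1 U2 h66 h67; omega, by clear * - U1 U2 h67 h70; omega, by clear * - U1 U2 h67; omega, by clear * - h70; omega, by clear * - U0 U2 h66; omega, by clear * - U0 U1 U2 h66 h67; omega⟩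
                rcases lt_or_ge (-i + 2*b - l - 2) 0 with h72 | h72
                · rcases lt_or_ge (4*N - i - 2*a - 4*b - l - 2*c - 1) 0 with h73 | h73
                  · rcases lt_or_ge (2*N - 2*a - 4*b + l - 2*U + 1) 0 with h74 | h74
                    · rcases lt_or_ge (-4*N + i + 4*a + 4*b + 2*c) 0 with h75 | h75
                      · rcases lt_or_ge (N - a - b + m - c) 0 with h76 | h76
                        · exact T0_11 X hb ⟨by clear * - b13 U2 h74 h75 h76; omega, by clear * - b13 h76; omega, by clear * - U2 h66 h67 h73 h74 h75; omega, by clear * - U2 h66 h67 h73 h74 h75; omega⟩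
                        exact T0_41 X hb ⟨by clear * - U2 h66 h67 h73 h74 h75; omega, by clear * - b1 h66 h75; omega, by clear * - U2 h66 h67 h73 h74 h75; omega, by clear * - U2 h66 h67 h73 h74 h75 h76; omega, by clear * - h76; omega, by clear * - U2 h66 h67 h73 h74 h75; omega⟩
                      exact T0_42 X hb ⟨by clear * - h1 h66 h72; omega, by clear * - h4 h66 h67 h72; omega, by clear * - h75; omega, by clear * - h73; omega⟩
                    rcases lt_or_ge (U - 1) 0 with h77 | h77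
                    · rcases lt_or_ge (N - a - b + m - c) 0 with h78 | h78
                      · exact T0_11 X hb ⟨by clear * - b13 h4 h72 h78; omega, by clear * - b13 h78; omega, by clear * - h4 U1 h66 h69 h73 h74 h77; omega, by clear * - h4 U1 h66 h69 h72 h73 h77; omega⟩
                      exact T0_41 X hb ⟨by clear * - h4 U1 h66 h67 h72 h73 h77; omega, by clear * - h4 U1 h66 h72 h77; omega, by clear * - h4 h66 h67 h72 h73; omega, by clear * - h4 h66 h67 h72 h73 h78; omega, by clear * - h78; omega, by clear * - h4 U1 h66 h69 h72 h73 h77; omega⟩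
                    exact T36_0 X hb w1 ⟨by clear * - h74; omega, by clear * - h77; omega⟩
                  exact T0_12 X hb (by clear * - h73; omega)
                exact T0_14 X hb ⟨by clear * - h72; omega, by clear * - h69; omega⟩
              exact T0_6 X hb ⟨by clear * - U1 U2 h67; omega, by clear * - h68; omega, by clear * - U1 U2 h66 h67; omega⟩
            rcases lt_or_ge (2*N - b - l - c - 2) 0 with h79 | h79
            · rcases lt_or_ge (-a - b + c - 1) 0 with h80 | h80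
              · rcases lt_or_ge (-N + c + U - 1) 0 with h81 | h81
                · exact T36_2 X hb w1 ⟨by clear * - U1 h79; omega, by clear * - h66 h79 h81; omega, by clear * - U1 h66 h67 h81; omega, by clear * - U1 h66 h81; omega, by clear * - h79; omega⟩
                exact T36_1 X hb w1 ⟨by clear * - h81; omega, by clear * - U2; omega⟩
              exact T0_45 X hb ⟨by clear * - b7 b9 h66 h79; omega, by clear * - h80; omega⟩
            rcases lt_or_ge (b + m - c) 0 with h82 | h82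
            · rcases lt_or_ge (-2*N + Q - i + b + c - 1) 0 with h83 | h83
              · rcases lt_or_ge (N + Q - i - a - b - l - c - 2) 0 with h84 | h84
                · exact T0_5 X hb ⟨by clear * - b1 b13 h4 h82 h84; omega, by clear * - b9 b13 h4 h82 h84; omega⟩
                rcases lt_or_ge (N + Q - i - 3*a - b - c - 1) 0 with h85 | h85
                · exact T0_14 X hb ⟨by clear * - h1 h84 h85; omega, by clear * - b9 b13 h82 h83; omega⟩
                rcases lt_or_ge (N + Q - 2*i - 3*a - b - c - 1) 0 with h86 | h86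
                · exact T0_14 X hb ⟨by clear * - h4 h84 h86; omega, by clear * - b9 b13 h82 h83; omega⟩
                exact T0_11 X hb ⟨by clear * - h86; omega, by clear * - h84; omega, by clear * - b14 h1 h66 h82 h83 h84; omega, by clear * - h4 U0 U2 h79 h83 h86; omega⟩
              rcases lt_or_ge (2*N - 2*a - b - c - 1) 0 with h87 | h87
              · exact T0_46 X hb (by clear * - b13 h82 h87; omega)
              exact T0_6 X hb ⟨by clear * - h87; omega, by clear * - h83; omega, by clear * - h79; omega⟩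
            exact T0_13 X hb ⟨by clear * - h79; omega, by clear * - h82; omega, by clear * - h67; omega⟩
          exact T0_9 X hb (by clear * - h66; omega)
        exact T0_3 X hb ⟨by clear * - h4; omega, by clear * - h1 h4; omega⟩
      exact T0_2 X hb (by clear * - h3; omega)
    exact T0_1 X hb (by clear * - h2; omega)
  exact T0_0 X hb (by clear * - h1; omega)

end Pool.Agent.MP_a38735_al.WL.M3c13
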