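import Pool.Agent.MP_a38735_al.WL

set_option autoImplicit false

namespace Pool.Agent.MP_a38735_al.WL

variable {G : Type*} [Group G]

/-- a triangle with `j, i` in one part, `k` in the other, and an antiparallel cross strip -/
structure Glf (W : ℤ → G) (n Q j i k s e s' e' : ℤ) : Prop where
  ps : Pts n Q s e s' e'
  bd : s ≤ i ∧ i ≤ j ∧ j < e ∧ s' ≤ k ∧ k < e'
  nd : Nd W j i k
  t1 : Ant W s i (i + j)
  t2 : Ant W (j + 1) e (i + j)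

/-- `x, y` are the letters after the third strip of a leaf -/
def ZF (W : ℤ → G) (n Q x y : ℤ) : Prop :=
  ∃ j i k l s e s' e', Glf W n Q j i k s e s' e' ∧ Par W s j (k - j) ∧ Par W s' k (j - k) ∧ 0 ≤ l ∧
    Par W (i + 1) (i + 1 + l) (k - i) ∧
    ((x = i + 1 + l ∧ y = k + 1 + l) ∨ (x = k + 1 + l ∧ y = i + 1 + l))

/-- the strip after `x, y` is the third strip of a mirrored leaf -/
def ZB (W : ℤ → G) (n Q x y : ℤ) : Prop :=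
  ∃ j i k l s e s' e' p q, Glf W n Q j i k s e s' e' ∧ Par W (i + 1) e (k - i) ∧
    Par W (k + 1) e' (i - k) ∧ 0 ≤ l ∧ Par W (x + 1) (x + 1 + l) (y - x) ∧
    ((p = x + 1 + l ∧ q = y + 1 + l - n) ∨ (p = x + 1 + l - n ∧ q = y + 1 + l)) ∧
    ((j = p ∧ k = q) ∨ (j = q ∧ k = p))

/-- `StL3m` with a leaf at the end of one of the two parallel strips in the even case -/
def StL3z (G : Type*) [Group G] : Prop :=
  ∀ (W : ℤ → G) (n Q i j k l p q s e s' e' i2 j2 k2 m i3 j3 k3 s3 e3 s4 e4 : ℤ),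
    (∀ s t, W s = W t → (s - t) % 2 = 0) →
    AL W n Q → Leaf W n Q i j k l p q s e → Pts n Q s e s' e' →
    ((j2 = p ∧ k2 = q) ∨ (j2 = q ∧ k2 = p)) → s' ≤ i2 → i2 < e' → Nd W j2 i2 k2 →
    Par W (i2 + 1) e' (k2 - i2) → Par W (k2 + 1) e (i2 - k2) →
    Ant W (i2 - m) i2 (i2 + j2) →
    ((j3 = i2 - m - 1 ∧ i3 = j2 + m + 1 - e + s' ∧ s3 = s' ∧ e3 = e' ∧ s4 = s ∧ e4 = e) ∨
      (j3 = i2 - m - 1 - s' + e ∧ i3 = j2 + m + 1 ∧ s3 = s ∧ e3 = e ∧ s4 = s' ∧ e4 = e')) →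
    s3 ≤ j3 → j3 < e3 → s3 ≤ i3 → i3 < e3 → Nd W j3 i3 k3 →
    ((s3 ≤ k3 ∧ k3 < e3 ∧ (Par W s3 j3 (k3 - j3) ∨ Par W s3 k3 (j3 - k3)) ∧
        (Par W (i3 + 1) e3 (k3 - i3) ∨ Par W (k3 + 1) e3 (i3 - k3)) ∧
        (s3 = Q → ZF W n Q j3 k3 ∨ ZB W n Q i3 k3)) ∨
      (s4 ≤ k3 ∧ k3 < e4 ∧ ((Par W s3 j3 (k3 - j3) ∧ Par W s4 k3 (j3 - k3)) ∨
        (Par W (i3 + 1) e3 (k3 - i3) ∧ Par W (k3 + 1) e4 (i3 - k3) ∧
          (Par W s3 j3 (k3 - j3) ∨ Par W s4 k3 (j3 - k3)))))) → False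

end Pool.Agent.MP_a38735_al.WL
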