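import Pool.Agent.MP_a38735_al.L3c1
import Pool.Agent.MP_a38735_al.L3c3
import Pool.Agent.MP_a38735_al.L3c4
import Pool.Agent.MP_a38735_al.L3c5
import Pool.Agent.MP_a38735_al.L3c6
import Pool.Agent.MP_a38735_al.L3c8
import Pool.Agent.MP_a38735_al.L3c10
import Pool.Agent.MP_a38735_al.M3c13
import Pool.Agent.MP_a38735_al.IM
import Pool.Agent.MP_a38735_al.Lam
import Pool.Agent.MP_a38735_al.StL3e
import Pool.Agent.MP_a38735_al.EvZ

set_option autoImplicit false

namespace Pool.Agent.MP_a38735_al.WL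

theorem stL3ez {G : Type*} [Group G] {W : ℤ → G} {n Q i j k l p q i2 m i3 j3 k3 : ℤ}
    (hp : ∀ s t, W s = W t → (s - t) % 2 = 0) (al : AL W n Q) (lf : Leaf W n Q i j k l p q Q n)
    (H : 0 ≤ i2 ∧ i2 < Q ∧ j3 = i2 - m - 1 + n ∧ i3 = p + m + 1 ∧ Q ≤ j3 ∧ j3 < n ∧ Q ≤ i3 ∧
      i3 < n ∧ Q ≤ k3 ∧ k3 < n) (n2 : Nd W p i2 q) (c1 : Par W (i2 + 1) Q (q - i2))
    (c2 : Par W (q + 1) n (i2 - q)) (S : Ant W (i2 - m) i2 (i2 + p)) (n3 : Nd W j3 i3 k3)
    (d1 : Par W Q k3 (j3 - k3)) (d2 : Par W (i3 + 1) n (k3 - i3)) (d3 : ¬ Par W Q j3 (k3 - j3))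
    (d4 : ¬ Par W (k3 + 1) n (i3 - k3)) (z : ZF W n Q j3 k3 ∨ ZB W n Q i3 k3) : False := by
  obtain ⟨i0, ij, jQ, Qk, kn, n1, a1, a2, s1, s2, bb, hp', lk⟩ := lf
  have q0 := al.q0
  have lk : q = k + 1 + l ∧ Q ≤ p ∧ q < n := by omega
  have ev := al.ev
  have p1 := n1.p1
  have p2 := n1.p2
  have p3 := n2.p1
  have p4 := n3.p2
  obtain ⟨N, rfl⟩ : ∃ N, n = 2 * N := ⟨n / 2, by omega⟩
  obtain ⟨a, rfl⟩ : ∃ a, j = i + 2 * a := ⟨(j - i) / 2, by omega⟩
  obtain ⟨b, rfl⟩ : ∃ b, k = i + 2 * a + 2 * b := ⟨(k - i) / 2 - a, by omega⟩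
  obtain ⟨c, rfl⟩ : ∃ c, i2 = i + l + 2 * c + 1 := ⟨(i2 - p) / 2, by omega⟩
  obtain ⟨d, rfl⟩ : ∃ d, k3 = j3 + 2 * d := ⟨(k3 - j3) / 2, by omega⟩
  clear p1 p2 p3 p4 ev
  obtain ⟨h1, h2, rfl, rfl, H⟩ := H
  obtain ⟨rfl, lk⟩ := lk
  subst hp'
  have hy := And.intro (And.intro (And.intro i0 ij) (And.intro jQ (And.intro Qk kn)))
    (And.intro (And.intro h1 h2) (And.intro H lk))
  rcases z with ⟨j4, i4, k4, l4, s, e, s', e', ⟨ps, bd, n4, t1, t2⟩, f1, f2, l0, f3, z⟩ |
    ⟨j4, i4, k4, l4, s, e, s', e', p, q, ⟨ps, bd, n4, t1, t2⟩, f1, f2, l0, f3, y, z⟩ <;>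
  obtain ⟨V, hV⟩ : ∃ V, j4 = i4 + 2 * V := ⟨(j4 - i4) / 2, by have := n4.p1; clear * - this; omega⟩
  · subst hV
    rcases ps with ⟨rfl, rfl, rfl, rfl⟩ | ⟨rfl, rfl, rfl, rfl⟩ <;> rcases z with ⟨y, z⟩ | ⟨y, z⟩
    · exact d3 (f3.sh al 0 0 (by clear * - bd y z; omega))
    · obtain rfl : i4 = 2*N + i + l - m + 2*c + 2*d - l4 - 1 := by clear * - z; omega
      obtain rfl : k4 = 2*N + i + l - m + 2*c - l4 - 1 := by clear * - y; omega
      exact ev31 (l := l) (m := m) (c := c) (d := d) (U := l4) (V := V) (by clear * - hy; omega) al (a1.cg (by clear * -; omega)) (a2.cg (by clear * -; omega)) (s1.cg (by clear * -; omega)) (s2.cg (by clear * -; omega))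
        (bb.cg (by clear * -; omega)) (c1.cg (by clear * -; omega)) (c2.cg (by clear * -; omega)) (S.cg (by clear * -; omega)) (d1.cg (by clear * -; omega)) (d2.cg (by clear * -; omega)) n1
        (n2.cg (by clear * -; omega)) (n3.cg (by clear * -; omega))
        (by clear * - bd l0; omega) (t1.cg (by clear * -; omega)) (t2.cg (by clear * -; omega)) (f1.cg (by clear * -; omega)) (f2.cg (by clear * -; omega))
        (f3.cg (by clear * -; omega)) (n4.cg (by clear * -; omega))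
    · obtain rfl : i4 = 2*N + i + l - m + 2*c - l4 - 1 := by clear * - y; omega
      obtain rfl : k4 = 2*N + i + l - m + 2*c + 2*d - l4 - 1 := by clear * - z; omega
      exact ev32 (l := l) (m := m) (c := c) (d := d) (U := l4) (V := V) (by clear * - hy; omega) al (a1.cg (by clear * -; omega)) (a2.cg (by clear * -; omega)) (s1.cg (by clear * -; omega)) (s2.cg (by clear * -; omega))
        (bb.cg (by clear * -; omega)) (c1.cg (by clear * -; omega)) (c2.cg (by clear * -; omega)) (S.cg (by clear * -; omega)) (d1.cg (by clear * -; omega)) (d2.cg (by clear * -; omega)) n1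
        (n2.cg (by clear * -; omega)) (n3.cg (by clear * -; omega))
        (by clear * - bd l0; omega) (t1.cg (by clear * -; omega)) (t2.cg (by clear * -; omega)) (f1.cg (by clear * -; omega)) (f2.cg (by clear * -; omega))
        (f3.cg (by clear * -; omega)) (n4.cg (by clear * -; omega))
    · exact d3 (f3.fl (by clear * - bd y z; omega))
  obtain rfl : i4 = j4 - 2 * V := by clear * - hV; omega
  rcases y with ⟨rfl, rfl⟩ | ⟨rfl, rfl⟩
  · exact d4 (f3.fl (by
      clear * - ps bd z hy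
      rcases ps with ⟨rfl, rfl, rfl, rfl⟩ | ⟨rfl, rfl, rfl, rfl⟩ <;> omega))
  rcases ps with ⟨rfl, rfl, rfl, rfl⟩ | ⟨rfl, rfl, rfl, rfl⟩ <;> rcases z with ⟨rfl, rfl⟩ | ⟨rfl, rfl⟩
  · obtain ⟨U, rfl | rfl⟩ : ∃ U, l4 = l + m + 2 * U + 1 ∨ l4 = l + m + 2 * U :=
      ⟨(l4 - l - m) / 2, (by clear * -; omega)⟩
    · exact ev34e (l := l) (m := m) (c := c) (d := d) (U := U) (V := V) (by clear * - hy; omega) al (a1.cg (by clear * -; omega)) (a2.cg (by clear * -; omega)) (s1.cg (by clear * -; omega)) (s2.cg (by clear * -; omega))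
        (bb.cg (by clear * -; omega)) (c1.cg (by clear * -; omega)) (c2.cg (by clear * -; omega)) (S.cg (by clear * -; omega)) (d1.cg (by clear * -; omega)) (d2.cg (by clear * -; omega)) n1
        (n2.cg (by clear * -; omega)) (n3.cg (by clear * -; omega))
        (by clear * - bd l0; omega) (t1.cg (by clear * -; omega)) (t2.cg (by clear * -; omega)) (f1.cg (by clear * -; omega)) (f2.cg (by clear * -; omega))
        (f3.cg (by clear * -; omega)) (n4.cg (by clear * -; omega)) hp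
    · exact ev34o (l := l) (m := m) (c := c) (d := d) (U := U) (V := V) (by clear * - hy; omega) al (a1.cg (by clear * -; omega)) (a2.cg (by clear * -; omega)) (s1.cg (by clear * -; omega)) (s2.cg (by clear * -; omega))
        (bb.cg (by clear * -; omega)) (c1.cg (by clear * -; omega)) (c2.cg (by clear * -; omega)) (S.cg (by clear * -; omega)) (d1.cg (by clear * -; omega)) (d2.cg (by clear * -; omega)) n1
        (n2.cg (by clear * -; omega)) (n3.cg (by clear * -; omega))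
        (by clear * - bd l0; omega) (t1.cg (by clear * -; omega)) (t2.cg (by clear * -; omega)) (f1.cg (by clear * -; omega)) (f2.cg (by clear * -; omega))
        (f3.cg (by clear * -; omega)) (n4.cg (by clear * -; omega)) hp
  · clear * - bd hy l0; omega
  · clear * - bd hy l0; omega
  · exact ev33 (l := l) (m := m) (c := c) (d := d) (U := l4) (V := V) (by clear * - hy; omega) al (a1.cg (by clear * -; omega)) (a2.cg (by clear * -; omega)) (s1.cg (by clear * -; omega)) (s2.cg (by clear * -; omega))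
        (bb.cg (by clear * -; omega)) (c1.cg (by clear * -; omega)) (c2.cg (by clear * -; omega)) (S.cg (by clear * -; omega)) (d1.cg (by clear * -; omega)) (d2.cg (by clear * -; omega)) n1
        (n2.cg (by clear * -; omega)) (n3.cg (by clear * -; omega))
        (by clear * - bd l0; omega) (t1.cg (by clear * -; omega)) (t2.cg (by clear * -; omega)) (f1.cg (by clear * -; omega)) (f2.cg (by clear * -; omega))
        (f3.cg (by clear * -; omega)) (n4.cg (by clear * -; omega))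

theorem stL3z (G : Type*) [Group G] : StL3z G := by
  intro W n Q i j k l p q s e s' e' i2 j2 k2 m i3 j3 k3 s3 e3 s4 e4 pp al lf ps jk h1 h2 n2 c1 c2 S o
    h3 h4 h5 h6 n3 z
  obtain ⟨i0, ij, jQ, Qk, kn, n1, a1, a2, s1, s2, b, hp, lk⟩ := id lf
  have q0 := al.q0
  have qn := al.qn
  have ev := al.ev
  have p1 := n1.p1
  have p2 := n1.p2
  have p3 := n2.p1
  have p4 := n3.p2
  rcases lk with ⟨hs, he, hq, u1, u2⟩ | ⟨hs, he, hq, u1, u2⟩
  · obtain ⟨rfl, rfl⟩ : 0 = s' ∧ Q = e' := by unfold Pts at ps; omega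
    obtain ⟨rfl, rfl⟩ : Q = s ∧ n = e := ⟨hs.symm, he.symm⟩
    rcases jk with ⟨rfl, rfl⟩ | ⟨rfl, rfl⟩
    · rcases o with ⟨o1, o2, o3, o4, o5, o6⟩ | ⟨o1, o2, o3, o4, o5, o6⟩
      · exact L3c4.main (N := n / 2) (Q := Q) (i := i) (a := (j - i) / 2) (b := (k - j) / 2) (l := l) (m := m)
          (c := (i2 - j2) / 2) (d := 0) ⟨al.cg (by omega), a1.cg (by omega), a2.cg (by omega),
          s1.cg (by omega), s2.cg (by omega), b.cg (by omega), c1.cg (by omega), c2.cg (by omega),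
          S.cg (by omega), n1.cg (by omega), n2.cg (by omega), n3.yx' (by omega)⟩ (by unfold L3c4.B; omega)
      have z' : (s3 ≤ k3 ∧ k3 < e3 ∧ ((Par W s3 j3 (k3 - j3) ∧ Par W (i3 + 1) e3 (k3 - i3)) ∨
          (Par W s3 j3 (k3 - j3) ∧ Par W (k3 + 1) e3 (i3 - k3)) ∨
          (Par W s3 k3 (j3 - k3) ∧ Par W (i3 + 1) e3 (k3 - i3) ∧ ¬ Par W s3 j3 (k3 - j3) ∧
            ¬ Par W (k3 + 1) e3 (i3 - k3) ∧ (s3 = Q → ZF W n Q j3 k3 ∨ ZB W n Q i3 k3)) ∨
          (Par W s3 k3 (j3 - k3) ∧ Par W (k3 + 1) e3 (i3 - k3)))) ∨ _ :=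
        z.imp_left fun ⟨v1, v2, d1, d2, d3⟩ => ⟨v1, v2, (em _).elim
          (fun y => d2.elim (fun z => .inl ⟨y, z⟩) fun z => .inr (.inl ⟨y, z⟩)) fun y => (em _).elim
          (fun z => .inr (.inr (.inr ⟨d1.resolve_left y, z⟩))) fun z =>
            .inr (.inr (.inl ⟨d1.resolve_left y, d2.resolve_right z, y, z, d3⟩))⟩
      clear z
      rcases z' with ⟨v1, v2, ⟨d1, d2⟩ | ⟨d1, d2⟩ | ⟨d1, d2, d3, d4, d5⟩ | ⟨d1, d2⟩⟩ |
        ⟨v1, v2, ⟨d1, d2⟩ | ⟨d1, d2, d3⟩⟩
      · exact L3c8.main (N := n / 2) (Q := Q) (i := i) (a := (j - i) / 2) (b := (k - j) / 2) (l := l) (m := m)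
          (c := (i2 - j2) / 2) (d := (k3 - j3) / 2) ⟨al.cg (by omega), a1.cg (by omega), a2.cg (by omega),
          s1.cg (by omega), s2.cg (by omega), b.cg (by omega), c1.cg (by omega), c2.cg (by omega),
          S.cg (by omega), d1.cg (by omega), d2.cg (by omega), n1.cg (by omega), n2.cg (by omega), n3.cg (by omega)⟩ (by unfold L3c8.B; omega)
      · exact L3c6.main (N := n / 2) (Q := Q) (i := i) (a := (j - i) / 2) (b := (k - j) / 2) (l := l) (m := m)
          (c := (i2 - j2) / 2) (d := (k3 - j3) / 2) ⟨al.cg (by omega), a1.cg (by omega), a2.cg (by omega),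
          s1.cg (by omega), s2.cg (by omega), b.cg (by omega), c1.cg (by omega), c2.cg (by omega),
          S.cg (by omega), d1.cg (by omega), d2.cg (by omega), n1.cg (by omega), n2.cg (by omega), n3.cg (by omega)⟩ (by unfold L3c6.B; omega)
      · subst o3 o4
        exact stL3ez pp al lf (by omega) n2 c1 c2 S n3 d1 d2 d3 d4 (d5 rfl)
      · exact L3c5.main (N := n / 2) (Q := Q) (i := i) (a := (j - i) / 2) (b := (k - j) / 2) (l := l) (m := m)
          (c := (i2 - j2) / 2) (d := (k3 - j3) / 2) ⟨al.cg (by omega), a1.cg (by omega), a2.cg (by omega),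
          s1.cg (by omega), s2.cg (by omega), b.cg (by omega), c1.cg (by omega), c2.cg (by omega),
          S.cg (by omega), d1.cg (by omega), d2.cg (by omega), n1.cg (by omega), n2.cg (by omega), n3.cg (by omega)⟩ (by unfold L3c5.B; omega)
      · exact L3c10.main (N := n / 2) (Q := Q) (i := i) (a := (j - i) / 2) (b := (k - j) / 2) (l := l) (m := m)
          (c := (i2 - j2) / 2) (d := (k3 - j3) / 2) ⟨al.cg (by omega), a1.cg (by omega), a2.cg (by omega),
          s1.cg (by omega), s2.cg (by omega), b.cg (by omega), c1.cg (by omega), c2.cg (by omega),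
          S.cg (by omega), d1.cg (by omega), d2.cg (by omega), n1.cg (by omega), n2.cg (by omega), n3.cg (by omega)⟩ (by unfold L3c10.B; omega)
      · exact stL3o pp al lf (by omega) n2 c1 c2 S n3 (d1.cg (by omega)) (d2.cg (by omega))
          (d3.imp (·.cg (by omega)) (·.cg (by omega)))
    · exact L3c1.main (N := n / 2) (Q := Q) (i := i) (a := (j - i) / 2) (b := (k - j) / 2) (l := l) (m := 0)
          (c := (i2 - j2) / 2) (d := 0) ⟨al.cg (by omega), a1.cg (by omega), a2.cg (by omega),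
          s1.cg (by omega), s2.cg (by omega), b.cg (by omega), c1.cg (by omega), c2.cg (by omega),
          n1.cg (by omega), n2.cg (by omega)⟩ (by unfold L3c1.B; omega)
  · obtain ⟨rfl, rfl⟩ : Q = s' ∧ n = e' := by unfold Pts at ps; omega
    obtain ⟨rfl, rfl⟩ : 0 = s ∧ Q = e := ⟨hs.symm, he.symm⟩
    rcases jk with ⟨rfl, rfl⟩ | ⟨rfl, rfl⟩
    · exact l3_10 al.per (by omega) n1 n2 n1.rel n2.rel a2 (b.cg (by omega)) c2
    rcases o with ⟨o1, o2, o3, o4, o5, o6⟩ | ⟨o1, o2, o3, o4, o5, o6⟩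
    · exact L3c3.main (N := n / 2) (Q := Q) (i := i) (a := (j - i) / 2) (b := (k - j) / 2) (l := l) (m := m)
          (c := (i2 - j2) / 2) (d := 0) ⟨al.cg (by omega), a1.cg (by omega), a2.cg (by omega),
          s1.cg (by omega), s2.cg (by omega), b.cg (by omega), c1.cg (by omega), c2.cg (by omega),
          S.cg (by omega), n1.cg (by omega), n2.cg (by omega), n3.yx' (by omega)⟩ (by unfold L3c3.B; omega)
    obtain ⟨L, hL⟩ := al.lm (by omega)
    obtain ⟨t1, t2, t3, -, t4⟩ := hL.leaf al lf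
    have t4 := t4 rfl
    have mx : ∀ U, L ≤ U → ∀ x y g, 0 < g → g < 2 * (n / 2) → Par W x y g → y - x ≤ U :=
      fun U hU x y g g0 g1 c => (hL.mx x y g g0 (by omega) c).trans hU
    exact M3c13.main (N := n / 2) (Q := Q) (i := i) (a := (j - i) / 2) (b := (k - j) / 2) (l := l) (m := m)
          (c := (i2 - j2) / 2) (d := 0) ⟨al.cg (by omega), a1.cg (by omega), a2.cg (by omega),
          s1.cg (by omega), s2.cg (by omega), b.cg (by omega), c1.cg (by omega), c2.cg (by omega),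
          S.cg (by omega), n1.cg (by omega), n2.cg (by omega), n3.yx' (by omega),
          mx _ (by omega), mx _ (by omega), mx _ (by omega), mx _ (by omega)⟩ (by unfold M3c13.B; omega)

end Pool.Agent.MP_a38735_al.WL
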