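import Pool.Agent.MP_a38735_al.WT
import Pool.Agent.MP_a38735_al.L2x

set_option autoImplicit false
set_option linter.unusedVariables false

namespace Pool.Agent.MP_a38735_al.WL

variable {G : Type*} [Group G]

theorem xa0 {W : ℤ → G} {n Q i j k l i2 l2 i3 : ℤ} (al : AL W n Q)
    (hy : (0) ≤ (i) ∧ (i) ≤ (j) ∧ (j + 1) ≤ (Q) ∧ (Q) ≤ (k) ∧ (k + 1) ≤ (n) ∧ (Q) ≤ (i + l + 1) ∧ (k + l + 2) ≤ (n) ∧ (Q) ≤ (i2) ∧ (i2) ≤ (i + l + 1) ∧ (Q) ≤ (i2 + l2 + 1) ∧ (i2 + l2 + 2) ≤ (n) ∧ (n) ≤ (k + l + l2 + 2) ∧ (k + l + l2 + 3) ≤ (n + Q) ∧ (0) ≤ (i3) ∧ (n + i3) ≤ (k + l + l2 + 2) ∧ (k + i2 + l2 + 2) ≤ (n + j + i3) ∧ (j + i3 + 1) ≤ (k) ∧ (n + i3) ≤ (k + i2 + l2 + 1))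
    (a1 : Par W (0) (j) (k - j))
    (a2 : Par W (Q + j - k) (j) (k - j))
    (s1 : Ant W (0) (i) (i + j))
    (s2 : Ant W (j + 1) (Q) (i + j))
    (b : Par W (i + 1) (i + l + 1) (k - i))
    (tt : Ant W (Q) (i2) (i + l + i2 + 1))
    (c : Par W (i2 + 1) (i2 + l2 + 1) (k + l - i2 + 1))
    (u1 : Ant W (0) (i3) (k + l + l2 + i3 - n + 2))
    (u2 : Ant W (k + l + l2 - n + 3) (Q) (k + l + l2 + i3 - n + 2))
    (D1 : Par W (i3 + 1) (Q) (i2 + l2 - i3 + 1))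
    (D2 : Par W (i2 + l2 + 2) (n) (i3 - i2 - l2 - 1))
    {L : ℤ} (mx : ∀ a b g, 0 < g → g < n → Par W a b g → b - a ≤ L)
    (hL : L ≤ (n - j - 3) ∧ L ≤ (n + Q - k - 3) ∧ L ≤ (n - l - 3) ∧ L ≤ (n + i - k - 2) ∧ L ≤ (n - l2 - 3) ∧ L ≤ (n + i3 - Q - 2) ∧ L ≤ (i2 + l2 - 1) ∧ L ≤ (n + i2 - k - l - 3))
    (bd0 : Bd W n L (j) (i) (k))
    (bd2 : Bd W n L (k + l + l2 - n + 2) (i3) (i2 + l2 + 1))
    (n1 : Nd W (j) (i) (k))
    (n2 : Nd W (i + l + 1) (i2) (k + l + 1))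
    (n3 : Nd W (k + l + l2 - n + 2) (i3) (i2 + l2 + 1)) : False := by
  have ev := al.ev
  obtain ⟨y0, y1, y2, y3, y4, y5, y6, y7, y8, y9, y10, y11, y12, y13, y14, y15, y16, y17⟩ := id hy
  have n1p := And.intro n1.p1 n1.p2
  have n2p := And.intro n2.p1 n2.p2
  have n3p := And.intro n3.p1 n3.p2
  have kk1 : (k + i2 + l2 + 2) ≤ (n + j + i3) := by clear * - y15; omega
  have kk2 : (j + i3) ≤ (k + i2 + l2) := by clear * - y12 y13 y14 y16 y9; omega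
  have kk3 : (j + i3 + 1) ≤ (k) := by clear * - y16; omega
  have kk4 : (n + i3) ≤ (k + i2 + l2 + 1) := by clear * - y17; omega
  clear * - al a1 D2 kk1 kk2 kk3 kk4
  exact al.ubP (n + j + i3 - k - i2 - l2 - 1) (by omega) (by omega) fun t h1 h2 => (cE (sh al 1 t (t + (n)) (by omega)) (cE (qf D2 al 0 (t + (n)) (t + (n + i3 - i2 - l2 - 1)) (by omega)) (pb a1 al 0 (t + (n + i3 - i2 - l2 - 1)) (t + (n + j + i3 - k - i2 - l2 - 1)) (by omega))))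

theorem xa1 {W : ℤ → G} {n Q i j k l i2 l2 i3 : ℤ} (al : AL W n Q)
    (hy : (0) ≤ (i) ∧ (i) ≤ (j) ∧ (j + 1) ≤ (Q) ∧ (Q) ≤ (k) ∧ (k + 1) ≤ (n) ∧ (Q) ≤ (i + l + 1) ∧ (k + l + 2) ≤ (n) ∧ (Q) ≤ (i2) ∧ (i2) ≤ (i + l + 1) ∧ (Q) ≤ (i2 + l2 + 1) ∧ (i2 + l2 + 2) ≤ (n) ∧ (n) ≤ (k + l + l2 + 2) ∧ (k + l + l2 + 3) ≤ (n + Q) ∧ (0) ≤ (i3) ∧ (n + i3) ≤ (k + l + l2 + 2) ∧ (k + i2 + l2 + 2) ≤ (n + j + i3) ∧ (k) ≤ (j + i3))
    (a1 : Par W (0) (j) (k - j))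
    (a2 : Par W (Q + j - k) (j) (k - j))
    (s1 : Ant W (0) (i) (i + j))
    (s2 : Ant W (j + 1) (Q) (i + j))
    (b : Par W (i + 1) (i + l + 1) (k - i))
    (tt : Ant W (Q) (i2) (i + l + i2 + 1))
    (c : Par W (i2 + 1) (i2 + l2 + 1) (k + l - i2 + 1))
    (u1 : Ant W (0) (i3) (k + l + l2 + i3 - n + 2))
    (u2 : Ant W (k + l + l2 - n + 3) (Q) (k + l + l2 + i3 - n + 2))
    (D1 : Par W (i3 + 1) (Q) (i2 + l2 - i3 + 1))
    (D2 : Par W (i2 + l2 + 2) (n) (i3 - i2 - l2 - 1))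
    {L : ℤ} (mx : ∀ a b g, 0 < g → g < n → Par W a b g → b - a ≤ L)
    (hL : L ≤ (n - j - 3) ∧ L ≤ (n + Q - k - 3) ∧ L ≤ (n - l - 3) ∧ L ≤ (n + i - k - 2) ∧ L ≤ (n - l2 - 3) ∧ L ≤ (n + i3 - Q - 2) ∧ L ≤ (i2 + l2 - 1) ∧ L ≤ (n + i2 - k - l - 3))
    (bd0 : Bd W n L (j) (i) (k))
    (bd2 : Bd W n L (k + l + l2 - n + 2) (i3) (i2 + l2 + 1))
    (n1 : Nd W (j) (i) (k))
    (n2 : Nd W (i + l + 1) (i2) (k + l + 1))
    (n3 : Nd W (k + l + l2 - n + 2) (i3) (i2 + l2 + 1)) : False := by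
  have ev := al.ev
  obtain ⟨y0, y1, y2, y3, y4, y5, y6, y7, y8, y9, y10, y11, y12, y13, y14, y15, y16⟩ := id hy
  have n1p := And.intro n1.p1 n1.p2
  have n2p := And.intro n2.p1 n2.p2
  have n3p := And.intro n3.p1 n3.p2
  by_cases z1 : (k + 2 * l + 2 * l2 + 6) ≤ (2 * n + j)
  · by_cases v1 : (l + l2 + i3 + 3) ≤ (n)
    · have kk1 : (j + 1) ≤ (k) := by clear * - y2 y3; omega
      have kk2 : (k) ≤ (j + 2 * i3) := by clear * - y13 y16; omega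
      have kk3 : (2 * n) ≤ (j + k + 2 * l + 2 * l2 + 2 * i3 + 6) := by clear * - y13 y14 y16; omega
      have kk4 : (0) ≤ (j + k) := by clear * - y13 y14 z1; omega
      have kk5 : (l + l2 + i3 + 3) ≤ (n) := by clear * - v1; omega
      have r6 : (k + l + l2 + i3 - n + 2) % 2 = 0 := by clear * - ev n1p n2p n3p; omega
      have r7 : (k - j) % 2 = 0 := by clear * - ev n1p n2p n3p; omega
      clear * - al a1 u1 kk1 kk2 kk3 kk4 kk5 r6 r7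
      exact midP al (k - j) (k + l + l2 + i3 - n + 2) (0) (0) (k) (by omega) (fun t h1 h2 => (qa u1 al 0 t ((k + l + l2 + i3 - n + 2) - t) (by omega))) (fun t h1 h2 => (qf a1 al 0 t (t + (k - j)) (by omega)))
    · have kk8 : (j + 1) ≤ (k) := by clear * - y2 y3; omega
      have kk9 : (k + 2 * l + 2 * l2 + 6) ≤ (2 * n + j) := by clear * - z1; omega
      have kk10 : (0) ≤ (j + k) := by clear * - y13 y14 z1; omega
      have kk11 : (2 * l + 2 * l2 + 2 * i3 + 6) ≤ (2 * n + j + k) := by clear * - y12 y14 y3 z1; omega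
      have kk12 : (n) ≤ (l + l2 + i3 + 3) := by clear * - v1; omega
      have r13 : (k + l + l2 + i3 - n + 2) % 2 = 0 := by clear * - ev n1p n2p n3p; omega
      have r14 : (k - j) % 2 = 0 := by clear * - ev n1p n2p n3p; omega
      clear * - al a1 u1 kk8 kk9 kk10 kk11 kk12 r13 r14
      exact midP al (k - j) (k + l + l2 + i3 - n + 2) (l + l2 + i3 - n + 3) (0) (k) (by omega) (fun t h1 h2 => (qa u1 al 0 t ((k + l + l2 + i3 - n + 2) - t) (by omega))) (fun t h1 h2 => (qf a1 al 0 t (t + (k - j)) (by omega)))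
  · have kk15 : (j + 1) ≤ (k) := by clear * - y12 y3 z1; omega
    have kk16 : (2 * n + k) ≤ (j + 2 * l + 2 * l2 + 2 * i3 + 4) := by clear * - y16 z1 ev n1p n2p n3p; omega
    have kk17 : (2 * i + 2) ≤ (j + k) := by clear * - y1 y12 y3 z1 ev n1p n2p n3p; omega
    have kk18 : (l + l2 + 2) ≤ (n) := by clear * - y12 y3; omega
    have kk19 : (l2 + i3 + 2) ≤ (n) := by clear * - y10 y12 y14 y7; omega
    have kk20 : (l + l2 + i3 + 2) ≤ (n + k) := by clear * - y12 y14 y3; omega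
    have kk21 : (0) ≤ (i + 1) := by clear * - y0; omega
    have r22 : (i + l + l2 + i3 - 3 * n + 2) % 2 = 0 := by clear * - ev n1p n2p n3p; omega
    have r23 : (k - j) % 2 = 0 := by clear * - ev n1p n2p n3p; omega
    clear * - al a1 b u1 kk15 kk16 kk17 kk18 kk19 kk20 kk21 r22 r23
    exact midP al (k - j) (i + l + l2 + i3 - 3 * n + 2) (i - n + 1) (-n) (k - n) (by omega) (fun t h1 h2 => (cE (cI (qf b al (-1) t (t + (n + k - i)) (by omega)) (ab u1 al 0 (t + (n + k - i)) ((i + l + l2 + i3 - 2 * n + 2) - t) (by omega))) (sh al (-1) ((i + l + l2 + i3 - 2 * n + 2) - t) ((i + l + l2 + i3 - 3 * n + 2) - t) (by omega)))) (fun t h1 h2 => (cE (qf a1 al (-1) t (t + (n + k - j)) (by omega)) (sh al (-1) (t + (n + k - j)) (t + (k - j)) (by omega))))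

theorem xb {W : ℤ → G} {n Q i j k l i2 l2 i3 : ℤ} (al : AL W n Q)
    (hy : (0) ≤ (i) ∧ (i) ≤ (j) ∧ (j + 1) ≤ (Q) ∧ (Q) ≤ (k) ∧ (k + 1) ≤ (n) ∧ (Q) ≤ (i + l + 1) ∧ (k + l + 2) ≤ (n) ∧ (Q) ≤ (i2) ∧ (i2) ≤ (i + l + 1) ∧ (Q) ≤ (i2 + l2 + 1) ∧ (i2 + l2 + 2) ≤ (n) ∧ (n) ≤ (k + l + l2 + 2) ∧ (k + l + l2 + 3) ≤ (n + Q) ∧ (0) ≤ (i3) ∧ (n + i3) ≤ (k + l + l2 + 2) ∧ (n + j + i3) ≤ (k + i2 + l2))
    (a1 : Par W (0) (j) (k - j))
    (a2 : Par W (Q + j - k) (j) (k - j))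
    (s1 : Ant W (0) (i) (i + j))
    (s2 : Ant W (j + 1) (Q) (i + j))
    (b : Par W (i + 1) (i + l + 1) (k - i))
    (tt : Ant W (Q) (i2) (i + l + i2 + 1))
    (c : Par W (i2 + 1) (i2 + l2 + 1) (k + l - i2 + 1))
    (u1 : Ant W (0) (i3) (k + l + l2 + i3 - n + 2))
    (u2 : Ant W (k + l + l2 - n + 3) (Q) (k + l + l2 + i3 - n + 2))
    (D1 : Par W (i3 + 1) (Q) (i2 + l2 - i3 + 1))
    (D2 : Par W (i2 + l2 + 2) (n) (i3 - i2 - l2 - 1))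
    {L : ℤ} (mx : ∀ a b g, 0 < g → g < n → Par W a b g → b - a ≤ L)
    (hL : L ≤ (n - j - 3) ∧ L ≤ (n + Q - k - 3) ∧ L ≤ (n - l - 3) ∧ L ≤ (n + i - k - 2) ∧ L ≤ (n - l2 - 3) ∧ L ≤ (n + i3 - Q - 2) ∧ L ≤ (i2 + l2 - 1) ∧ L ≤ (n + i2 - k - l - 3))
    (bd0 : Bd W n L (j) (i) (k))
    (bd2 : Bd W n L (k + l + l2 - n + 2) (i3) (i2 + l2 + 1))
    (n1 : Nd W (j) (i) (k))
    (n2 : Nd W (i + l + 1) (i2) (k + l + 1))
    (n3 : Nd W (k + l + l2 - n + 2) (i3) (i2 + l2 + 1)) : False := by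
  have ev := al.ev
  obtain ⟨y0, y1, y2, y3, y4, y5, y6, y7, y8, y9, y10, y11, y12, y13, y14, y15⟩ := id hy
  have n1p := And.intro n1.p1 n1.p2
  have n2p := And.intro n2.p1 n2.p2
  have n3p := And.intro n3.p1 n3.p2
  by_cases z1 : (Q + i2 + l2 + 1) ≤ (n + j + i3)
  · have kk1 : (n + j + i3) ≤ (k + i2 + l2) := by clear * - y15; omega
    have kk2 : (k + i2 + l2 + 2) ≤ (2 * n + j + i3) := by clear * - y12 y13 y14 y4 z1; omega
    have kk3 : (k + i2 + l2 + 2) ≤ (n + Q + j) := by clear * - y1 y12 y8; omega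
    have kk4 : (Q + i2 + l2 + 1) ≤ (n + j + i3) := by clear * - z1; omega
    clear * - al a2 D1 kk1 kk2 kk3 kk4
    exact al.ubQ (k + i2 + l2 - n - j - i3 + 1) (by omega) (by omega) fun t h1 h2 => (cE (sh al (-1) t (t + (-n)) (by omega)) (cE (qf D1 al (-1) (t + (-n)) (t + (i2 + l2 - i3 + 1)) (by omega)) (qf a2 al 1 (t + (i2 + l2 - i3 + 1)) (t + (k + i2 + l2 - n - j - i3 + 1)) (by omega))))
  · by_cases z2 : (i2 + l2 + i3 + 3) ≤ (n + 2 * i)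
    · by_cases v1 : (Q + i2 + l2 + 1) ≤ (n + i + j)
      · have kk5 : (i2 + l2 + 2) ≤ (n + i3) := by clear * - y10 y13; omega
        have kk6 : (n + 2 * j + i3 + 1) ≤ (2 * Q + i2 + l2) := by clear * - y10 y13 z1; omega
        have kk7 : (i2 + l2 + i3 + 3) ≤ (n + 2 * Q) := by clear * - y10 y12 y13 y14; omega
        have kk8 : (n + 2 * i + 2 * j + i3 + 1) ≤ (4 * Q + i2 + l2) := by clear * - y1 y10 y13 z1; omega
        have kk9 : (Q + i2 + l2 + 1) ≤ (n + i + j) := by clear * - v1; omega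
        have r10 : (i + j) % 2 = 0 := by clear * - ev n1p n2p n3p; omega
        have r11 : (n + i3 - i2 - l2 - 1) % 2 = 0 := by clear * - ev n1p n2p n3p; omega
        clear * - al s2 D1 kk5 kk6 kk7 kk8 kk9 r10 r11
        exact midP al (n + i3 - i2 - l2 - 1) (i + j) (i + j - Q + 1) (i2 + l2 - n + 2) (Q) (by omega) (fun t h1 h2 => (ab s2 al 0 t ((i + j) - t) (by omega))) (fun t h1 h2 => (pb D1 al (-1) t (t + (n + i3 - i2 - l2 - 1)) (by omega)))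
      · have kk12 : (i2 + l2 + 2) ≤ (n + i3) := by clear * - y10 y13; omega
        have kk13 : (i2 + l2 + i3 + 3) ≤ (n + 2 * i) := by clear * - z2; omega
        have kk14 : (3 * i2 + 3 * l2 + i3 + 5) ≤ (3 * n + 2 * i + 2 * j) := by clear * - y1 y10 y13 z2; omega
        have kk15 : (i2 + l2 + i3 + 3) ≤ (n + 2 * Q) := by clear * - y10 y12 y13 y14; omega
        have kk16 : (n + i + j) ≤ (Q + i2 + l2 + 1) := by clear * - v1; omega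
        have r17 : (i + j) % 2 = 0 := by clear * - ev n1p n2p n3p; omega
        have r18 : (n + i3 - i2 - l2 - 1) % 2 = 0 := by clear * - ev n1p n2p n3p; omega
        clear * - al s2 D1 kk12 kk13 kk14 kk15 kk16 r17 r18
        exact midP al (n + i3 - i2 - l2 - 1) (i + j) (i2 + l2 - n + 2) (i2 + l2 - n + 2) (Q) (by omega) (fun t h1 h2 => (ab s2 al 0 t ((i + j) - t) (by omega))) (fun t h1 h2 => (pb D1 al (-1) t (t + (n + i3 - i2 - l2 - 1)) (by omega)))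
    · have kk19 : (2 * n + i + j) ≤ (k + l + i2 + 2 * l2 + 1) := by clear * - y15 y8 z2 ev n1p n2p n3p; omega
      have kk20 : (i + j + k + l + 2) ≤ (2 * Q + i2) := by clear * - y10 y12 y13 z1 z2; omega
      have kk21 : (i2 + l2 + 1) ≤ (n + i) := by clear * - y12 y3 y8; omega
      have kk22 : (Q + i2) ≤ (n + i + j) := by clear * - y0 y1 y3 y6 y8; omega
      have r23 : (i + j + k + l - 2 * n - i2 + 1) % 2 = 0 := by clear * - ev n1p n2p n3p; omega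
      clear * - al s2 c kk19 kk20 kk21 kk22 r23
      obtain ⟨t, ht⟩ : ∃ t, 2 * t = (i + j + k + l - 2 * n - i2 + 1) := ⟨(i + j + k + l - 2 * n - i2 + 1) / 2, by omega⟩
      exact al.ninv t (cE (cE (qa s2 al (-1) t ((i + j - n) - t) (by omega)) (qf c al (-1) ((i + j - n) - t) ((i + j + k + l - i2 + 1) - t) (by omega))) (sh al (-2) ((i + j + k + l - i2 + 1) - t) t (by omega)))

/-- the region of `L2x` in which the first and the last strip have the same shift -/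
def L2ad (G : Type*) [Group G] : Prop :=
  ∀ (W : ℤ → G) (n Q i j k p q i2 i3 j3 k3 L : ℤ), AL W n Q → Lm W n Q L →
    Bd W n L j i k → Bd W n L j3 i3 k3 →
    (L + j + 3 ≤ n ∧ L + k - Q + 3 ≤ n ∧ L + p - i + 2 ≤ n ∧ L + k - i + 2 ≤ n ∧
      L + k3 - i2 + 2 ≤ n ∧ L + Q - i3 + 2 ≤ n ∧ L + 2 ≤ k3 - j3) →
    k - j + k3 - i3 = n →
    (0 ≤ i ∧ i ≤ j ∧ j < Q ∧ Q ≤ k ∧ q = p + k - i ∧ q < n ∧ Q ≤ i2 ∧ i2 ≤ p ∧ k3 < n ∧
      j3 + n = k3 + q - i2 ∧ 0 ≤ i3 ∧ i3 ≤ j3 ∧ j3 < Q) →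
    Par W 0 j (k - j) → Par W (Q - (k - j)) j (k - j) → Ant W 0 i (i + j) →
    Ant W (j + 1) Q (i + j) → Par W (i + 1) p (k - i) → Ant W Q i2 (i2 + p) →
    Par W (i2 + 1) k3 (q - i2) → Ant W 0 i3 (i3 + j3) → Ant W (j3 + 1) Q (i3 + j3) →
    Par W (i3 + 1) Q (k3 - i3) → Par W (k3 + 1) n (i3 - k3) →
    Nd W j i k → Nd W p i2 q → Nd W j3 i3 k3 → False

/-- the region of `L2x` with a long middle gap -/
def L2y (G : Type*) [Group G] : Prop :=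
  ∀ (W : ℤ → G) (n Q i j k p q i2 i3 j3 k3 L : ℤ), AL W n Q → Lm W n Q L →
    Bd W n L j i k → Bd W n L j3 i3 k3 →
    (L + j + 3 ≤ n ∧ L + k - Q + 3 ≤ n ∧ L + p - i + 2 ≤ n ∧ L + k - i + 2 ≤ n ∧
      L + k3 - i2 + 2 ≤ n ∧ L + Q - i3 + 2 ≤ n ∧ L + 2 ≤ k3 - j3) →
    (i3 < k - j ∧ j3 - i3 + i < p - i2) →
    (0 ≤ i ∧ i ≤ j ∧ j < Q ∧ Q ≤ k ∧ q = p + k - i ∧ q < n ∧ Q ≤ i2 ∧ i2 ≤ p ∧ k3 < n ∧
      j3 + n = k3 + q - i2 ∧ 0 ≤ i3 ∧ i3 ≤ j3 ∧ j3 < Q) →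
    Par W 0 j (k - j) → Par W (Q - (k - j)) j (k - j) → Ant W 0 i (i + j) →
    Ant W (j + 1) Q (i + j) → Par W (i + 1) p (k - i) → Ant W Q i2 (i2 + p) →
    Par W (i2 + 1) k3 (q - i2) → Ant W 0 i3 (i3 + j3) → Ant W (j3 + 1) Q (i3 + j3) →
    Par W (i3 + 1) Q (k3 - i3) → Par W (k3 + 1) n (i3 - k3) →
    Nd W j i k → Nd W p i2 q → Nd W j3 i3 k3 → False

theorem l2x_of_ad_y (h1 : L2ad G) (h2 : L2y G) : L2x G := by
  refine l2x_of fun W n Q i j k p q i2 i3 j3 k3 L al lm bd1 bd3 hL hy a1 a2 s1 s2 b tt c u1 u2 d1 d2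
    n1 n2 n3 => ?_
  by_cases e1 : k - j + k3 - i3 = n
  · exact h1 W n Q i j k p q i2 i3 j3 k3 L al lm bd1 bd3 hL e1 hy a1 a2 s1 s2 b tt c u1 u2 d1 d2
      n1 n2 n3
  by_cases e2 : i3 < k - j ∧ j3 - i3 + i < p - i2
  · exact h2 W n Q i j k p q i2 i3 j3 k3 L al lm bd1 bd3 hL e2 hy a1 a2 s1 s2 b tt c u1 u2 d1 d2
      n1 n2 n3
  have := n1.p2
  obtain ⟨l, rfl⟩ : ∃ l, p = i + l + 1 := ⟨p - i - 1, by omega⟩
  obtain ⟨l2, rfl⟩ : ∃ l2, k3 = i2 + l2 + 1 := ⟨k3 - i2 - 1, by omega⟩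
  obtain rfl : q = k + l + 1 := by omega
  obtain rfl : j3 = k + l + l2 - n + 2 := by omega
  have k3 : Q ≤ i2 + l2 + 1 := by
    have := n3.p2
    by_contra hc
    omega
  by_cases e3 : n < k - j + (i2 + l2 + 1) - i3
  · exact xb al (by omega) a1 (a2.cq (by omega)) s1 s2 b (tt.cq (by omega)) (c.cq (by omega))
      (u1.cq (by omega)) (u2.cq (by omega)) (d1.cq (by omega)) (d2.cq (by omega)) lm.mx (by omega)
      bd1 bd3 n1 n2 n3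
  by_cases e4 : k - j ≤ i3
  · exact xa1 al (by omega) a1 (a2.cq (by omega)) s1 s2 b (tt.cq (by omega)) (c.cq (by omega))
      (u1.cq (by omega)) (u2.cq (by omega)) (d1.cq (by omega)) (d2.cq (by omega)) lm.mx (by omega)
      bd1 bd3 n1 n2 n3
  · exact xa0 al (by omega) a1 (a2.cq (by omega)) s1 s2 b (tt.cq (by omega)) (c.cq (by omega))
      (u1.cq (by omega)) (u2.cq (by omega)) (d1.cq (by omega)) (d2.cq (by omega)) lm.mx (by omega)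
      bd1 bd3 n1 n2 n3

end Pool.Agent.MP_a38735_al.WL
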