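import Pool.Agent.MP_a38735_al.WT

set_option autoImplicit false
set_option linter.unusedVariables false

namespace Pool.Agent.MP_a38735_al.WL

variable {G : Type*} [Group G]

theorem ya1 {W : ℤ → G} {n Q i j k l i2 l2 i3 : ℤ} (al : AL W n Q)
    (hy : (0) ≤ (i) ∧ (i) ≤ (j) ∧ (j + 1) ≤ (Q) ∧ (Q) ≤ (k) ∧ (k + 1) ≤ (n) ∧ (Q) ≤ (i + l + 1) ∧ (k + l + 2) ≤ (n) ∧ (Q) ≤ (i2) ∧ (i2) ≤ (i + l + 1) ∧ (Q) ≤ (i2 + l2 + 1) ∧ (i2 + l2 + 2) ≤ (n) ∧ (n) ≤ (k + l + l2 + 2) ∧ (k + l + l2 + 3) ≤ (n + Q) ∧ (0) ≤ (i3) ∧ (n + i3) ≤ (k + l + l2 + 2) ∧ (k + i2 + l2 + 2) ≤ (n + j + i3) ∧ (j + i3 + 1) ≤ (k) ∧ (k + i2 + l2 + 2) ≤ (n + i3) ∧ (i2 + l2) ≤ (i + l))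
    (a1 : Par W (0) (j) (k - j))
    (a2 : Par W (Q + j - k) (j) (k - j))
    (s1 : Ant W (0) (i) (i + j))
    (s2 : Ant W (j + 1) (Q) (i + j))
    (b : Par W (i + 1) (i + l + 1) (k - i))
    (tt : Ant W (Q) (i2) (i + l + i2 + 1))
    (c : Par W (i2 + 1) (i2 + l2 + 1) (k + l - i2 + 1))
    (u1 : Ant W (0) (i3) (k + l + l2 + i3 - n + 2))
    (u2 : Ant W (k + l + l2 - n + 3) (Q) (k + l + l2 + i3 - n + 2))
    (D1 : Par W (i3 + 1) (Q) (i2 + l2 - i3 + 1))
    (D2 : Par W (i2 + l2 + 2) (n) (i3 - i2 - l2 - 1))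
    {L : ℤ} (mx : ∀ a b g, 0 < g → g < n → Par W a b g → b - a ≤ L)
    (hL : L ≤ (n - j - 3) ∧ L ≤ (n + Q - k - 3) ∧ L ≤ (n - l - 3) ∧ L ≤ (n + i - k - 2) ∧ L ≤ (n - l2 - 3) ∧ L ≤ (n + i3 - Q - 2) ∧ L ≤ (i2 + l2 - 1) ∧ L ≤ (n + i2 - k - l - 3))
    (bd0 : Bd W n L (j) (i) (k))
    (bd2 : Bd W n L (k + l + l2 - n + 2) (i3) (i2 + l2 + 1))
    (n1 : Nd W (j) (i) (k))
    (n2 : Nd W (i + l + 1) (i2) (k + l + 1))
    (n3 : Nd W (k + l + l2 - n + 2) (i3) (i2 + l2 + 1)) : False := by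
  have ev := al.ev
  obtain ⟨y0, y1, y2, y3, y4, y5, y6, y7, y8, y9, y10, y11, y12, y13, y14, y15, y16, y17, y18⟩ := id hy
  have n1p := And.intro n1.p1 n1.p2
  have n2p := And.intro n2.p1 n2.p2
  have n3p := And.intro n3.p1 n3.p2
  by_cases z1 : (n + i2) ≤ (k + 2 * l + 2)
  · have kk1 : (i + 1) ≤ (k) := by clear * - y1 y13 y16; omega
    have kk2 : (k + 1) ≤ (n + i) := by clear * - y12 y8 y9; omega
    have kk3 : (n + i2) ≤ (k + 2 * l + 2) := by clear * - z1; omega
    clear * - al b mx hL kk1 kk2 kk3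
    exact absurd (mx (i + 1) (i + l + 1) (k - i) (by omega) (by omega) fun t h1 h2 => (qf b al 0 t (t + (k - i)) (by omega))) (by omega)
  · by_cases z2 : (k) ≤ (2 * i + j)
    · by_cases v1 : (i + j + 1) ≤ (k)
      · have kk4 : (j + 1) ≤ (k) := by clear * - v1 z2; omega
        have kk5 : (k) ≤ (2 * i + j) := by clear * - z2; omega
        have kk6 : (k) ≤ (2 * i + 3 * j + 2) := by clear * - v1 y1 z2; omega
        have kk7 : (0) ≤ (j + k) := by clear * - v1 y1 z2; omega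
        have kk8 : (i + j + 1) ≤ (k) := by clear * - v1; omega
        have r9 : (i + j - 2 * n) % 2 = 0 := by clear * - ev n1p n2p n3p; omega
        have r10 : (k - j) % 2 = 0 := by clear * - ev n1p n2p n3p; omega
        clear * - al a1 s1 kk4 kk5 kk6 kk7 kk8 r9 r10
        exact midP al (k - j) (i + j - 2 * n) (-n) (-n) (k - n) (by omega) (fun t h1 h2 => (cE (qa s1 al (-1) t ((i + j - n) - t) (by omega)) (sh al (-1) ((i + j - n) - t) ((i + j - 2 * n) - t) (by omega)))) (fun t h1 h2 => (cE (qf a1 al (-1) t (t + (n + k - j)) (by omega)) (sh al (-1) (t + (n + k - j)) (t + (k - j)) (by omega))))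
      · have kk11 : (j + 1) ≤ (k) := by clear * - y13 y16; omega
        have kk12 : (j + 2) ≤ (k) := by clear * - y13 y16 ev n1p n2p n3p; omega
        have kk13 : (0) ≤ (j + k) := by clear * - v1 y1 y13 y16; omega
        have kk14 : (2 * i + j + 2) ≤ (3 * k) := by clear * - y1 y13 y16; omega
        have kk15 : (k) ≤ (i + j + 1) := by clear * - v1; omega
        have r16 : (i + j - 2 * n) % 2 = 0 := by clear * - ev n1p n2p n3p; omega
        have r17 : (k - j) % 2 = 0 := by clear * - ev n1p n2p n3p; omega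
        clear * - al a1 s1 kk11 kk12 kk13 kk14 kk15 r16 r17
        exact midP al (k - j) (i + j - 2 * n) (i + j - n - k + 1) (-n) (k - n) (by omega) (fun t h1 h2 => (cE (qa s1 al (-1) t ((i + j - n) - t) (by omega)) (sh al (-1) ((i + j - n) - t) ((i + j - 2 * n) - t) (by omega)))) (fun t h1 h2 => (cE (qf a1 al (-1) t (t + (n + k - j)) (by omega)) (sh al (-1) (t + (n + k - j)) (t + (k - j)) (by omega))))
    · by_cases z3 : (2 * i2 + l2) ≤ (k + l)
      · have kk18 : (i2 + l2 + 2) ≤ (n + i3) := by clear * - y13 y15 y16; omega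
        have kk19 : (i3) ≤ (i2 + l2) := by clear * - y12 y14 y9; omega
        have kk20 : (2 * i2 + l2) ≤ (k + l) := by clear * - z3; omega
        clear * - al D2 mx hL kk18 kk19 kk20
        exact absurd (mx (n + i2 + l2 + 2) (2 * n) (n + i3 - i2 - l2 - 1) (by omega) (by omega) fun t h1 h2 => (cE (qf D2 al 1 t (t + (i3 - n - i2 - l2 - 1)) (by omega)) (sh al 2 (t + (i3 - n - i2 - l2 - 1)) (t + (n + i3 - i2 - l2 - 1)) (by omega)))) (by omega)
      · by_cases z4 : (k + i3) ≤ (i + i2)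
        · by_cases v2 : (n + i) ≤ (k + l + l2 + i3 + 2)
          · have kk21 : (i + 1) ≤ (k) := by clear * - v2 y1 y16 y18 z1; omega
            have kk22 : (k + i3) ≤ (i + i2) := by clear * - z4; omega
            have kk23 : (k + i3 + 1) ≤ (Q + i2) := by clear * - y1 y2 z4; omega
            have kk24 : (i3 + 1) ≤ (Q) := by clear * - y12 y14; omega
            have kk25 : (i + k + 2 * l + 2 * l2 + 6) ≤ (2 * n) := by clear * - y1 y18 z1 z2; omega
            have kk26 : (i + k + 2 * l2 + 4) ≤ (2 * n) := by clear * - v2 y12 y14 y15 y18 y7 z1 z2 z4; linarith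
            have kk27 : (i + 2 * i2 + 2 * l2 + 4) ≤ (2 * n + k) := by clear * - v2 y12 y14 y15 y18 y3 z1 z2; linarith
            have kk28 : (0) ≤ (i3) := by clear * - v2 y18 z1; omega
            have kk29 : (Q + i2) ≤ (k + l + i3 + 1) := by clear * - v2 y14 y17 y18 y3 z1; omega
            have kk30 : (n + i3) ≤ (k + l + i2 + l2 + 2) := by clear * - v2 y12 y14 y18 y7 z1; omega
            have kk31 : (n + i) ≤ (k + l + l2 + i3 + 2) := by clear * - v2; omega
            have kk32 : (2 * i3) ≤ (i + i2) := by clear * - y12 y14 y18 y7 z1; omega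
            have kk33 : (Q + i + i2) ≤ (k + l + 2 * i3 + 1) := by clear * - v2 y17 y3; omega
            have r34 : (k + l + 2 * i3 - 2 * n - i2 + 1) % 2 = 0 := by clear * - ev n1p n2p n3p; omega
            have r35 : (k - i) % 2 = 0 := by clear * - ev n1p n2p n3p; omega
            have r36 : (i + l + i2 - 2 * n + 1) % 2 = 0 := by clear * - ev n1p n2p n3p; omega
            clear * - al b tt u2 D2 kk21 kk22 kk23 kk24 kk25 kk26 kk27 kk28 kk29 kk30 kk31 kk32 kk33 r34 r35 r36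
            exact mid2 al (k - i) (k + l + 2 * i3 - 2 * n - i2 + 1) (i + l + i2 - 2 * n + 1) (k + l + l2 + i3 - 2 * n + 3) (Q - n) (-1) (i - n + 1) (k + l - n + 1) (by omega) (fun t h1 h2 => ⟨by omega, (cE (cE (qa u2 al (-1) t ((k + l + l2 + i3 - 2 * n + 2) - t) (by omega)) (qf D2 al (-1) ((k + l + l2 + i3 - 2 * n + 2) - t) ((k + l + 2 * i3 - n - i2 + 1) - t) (by omega))) (sh al (-1) ((k + l + 2 * i3 - n - i2 + 1) - t) ((k + l + 2 * i3 - 2 * n - i2 + 1) - t) (by omega)))⟩) (fun t h1 h2 => ⟨by omega, (cE (qa tt al (-1) t ((i + l + i2 - n + 1) - t) (by omega)) (sh al (-1) ((i + l + i2 - n + 1) - t) ((i + l + i2 - 2 * n + 1) - t) (by omega)))⟩) (fun t h1 h2 => (cE (qf b al (-1) t (t + (n + k - i)) (by omega)) (sh al (-1) (t + (n + k - i)) (t + (k - i)) (by omega))))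
          · by_cases v3 : (Q + i + i2) ≤ (k + l + 2 * i3 + 1)
            · have kk37 : (i + 1) ≤ (k) := by clear * - y1 y13 y16; omega
              have kk38 : (k + i3) ≤ (i + i2) := by clear * - z4; omega
              have kk39 : (k + i3 + 1) ≤ (Q + i2) := by clear * - y1 y2 z4; omega
              have kk40 : (i3 + 1) ≤ (Q) := by clear * - y12 y14; omega
              have kk41 : (3 * i + 2) ≤ (k + 2 * i3) := by clear * - y1 y13 z2 ev n1p n2p n3p; omega
              have kk42 : (3 * i) ≤ (k + 2 * l + 2 * i3) := by clear * - y12 y13 y14 y15 y7 z2 z4; linarith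
              have kk43 : (3 * i + 2 * i2) ≤ (3 * k + 2 * l + 2 * i3) := by clear * - v3 y12 y13 y14 y15 y3 z2; linarith
              have kk44 : (0) ≤ (i3) := by clear * - y13; omega
              have kk45 : (Q + i2) ≤ (k + l + i3 + 1) := by clear * - v3 y14 y18 z1; omega
              have kk46 : (k + l + l2 + i3 + 2) ≤ (n + i) := by clear * - v2; omega
              have kk47 : (2 * i3) ≤ (i + i2) := by clear * - y12 y14 y18 y7 z1; omega
              have kk48 : (Q + i + i2) ≤ (k + l + 2 * i3 + 1) := by clear * - v3; omega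
              have r49 : (k + l + 2 * i3 - 2 * n - i2 + 1) % 2 = 0 := by clear * - ev n1p n2p n3p; omega
              have r50 : (k - i) % 2 = 0 := by clear * - ev n1p n2p n3p; omega
              have r51 : (i + l + i2 - 2 * n + 1) % 2 = 0 := by clear * - ev n1p n2p n3p; omega
              clear * - al b tt u2 D2 kk37 kk38 kk39 kk40 kk41 kk42 kk43 kk44 kk45 kk46 kk47 kk48 r49 r50 r51
              exact mid2 al (k - i) (k + l + 2 * i3 - 2 * n - i2 + 1) (i + l + i2 - 2 * n + 1) (i - n + 1) (Q - n) (-1) (i - n + 1) (k + l - n + 1) (by omega) (fun t h1 h2 => ⟨by omega, (cE (cE (qa u2 al (-1) t ((k + l + l2 + i3 - 2 * n + 2) - t) (by omega)) (qf D2 al (-1) ((k + l + l2 + i3 - 2 * n + 2) - t) ((k + l + 2 * i3 - n - i2 + 1) - t) (by omega))) (sh al (-1) ((k + l + 2 * i3 - n - i2 + 1) - t) ((k + l + 2 * i3 - 2 * n - i2 + 1) - t) (by omega)))⟩) (fun t h1 h2 => ⟨by omega, (cE (qa tt al (-1) t ((i + l + i2 - n + 1) - t) (by omega)) (sh al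 (-1) ((i + l + i2 - n + 1) - t) ((i + l + i2 - 2 * n + 1) - t) (by omega)))⟩) (fun t h1 h2 => (cE (qf b al (-1) t (t + (n + k - i)) (by omega)) (sh al (-1) (t + (n + k - i)) (t + (k - i)) (by omega))))
            · have kk52 : (i + 1) ≤ (k) := by clear * - v3 y13 y14 y15 y3 z2; omega
              have kk53 : (Q) ≤ (l + i3 + 1) := by clear * - y13 y14 y17 y7; omega
              have kk54 : (i) ≤ (l + i3) := by clear * - y13 y14 y15 z2 z4; omega
              have kk55 : (i + i2) ≤ (k + l + i3) := by clear * - v2 y13 y14 y15 z2; omega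
              have kk56 : (3 * i + 2) ≤ (k + 2 * i3) := by clear * - y1 y13 z2 ev n1p n2p n3p; omega
              have kk57 : (3 * i) ≤ (k + 2 * l + 2 * i3) := by clear * - v2 v3 y13 y14 y15 y7 z2 z4; linarith
              have kk58 : (3 * i + 2 * i2) ≤ (3 * k + 2 * l + 2 * i3) := by clear * - v2 v3 y13 y14 y15 y3 z2; linarith
              have kk59 : (0) ≤ (i3) := by clear * - y13; omega
              have kk60 : (Q + i2) ≤ (k + l + i3 + 1) := by clear * - y13 y14 y17 y3; omega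
              have kk61 : (k + l + l2 + i3 + 2) ≤ (n + i) := by clear * - v2; omega
              have kk62 : (2 * i3) ≤ (i + i2) := by clear * - v2 v3 y13 y14 y15 y7 z2; linarith
              have kk63 : (k + l + 2 * i3 + 1) ≤ (Q + i + i2) := by clear * - v3; omega
              have r64 : (k + l + 2 * i3 - 2 * n - i2 + 1) % 2 = 0 := by clear * - ev n1p n2p n3p; omega
              have r65 : (k - i) % 2 = 0 := by clear * - ev n1p n2p n3p; omega
              have r66 : (i + l + i2 - 2 * n + 1) % 2 = 0 := by clear * - ev n1p n2p n3p; omega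
              clear * - al b tt u2 D2 kk52 kk53 kk54 kk55 kk56 kk57 kk58 kk59 kk60 kk61 kk62 kk63 r64 r65 r66
              exact mid2 al (k - i) (k + l + 2 * i3 - 2 * n - i2 + 1) (i + l + i2 - 2 * n + 1) (i - n + 1) (k + l + 2 * i3 - n - i - i2 + 1) (-1) (i - n + 1) (k + l - n + 1) (by omega) (fun t h1 h2 => ⟨by omega, (cE (cE (qa u2 al (-1) t ((k + l + l2 + i3 - 2 * n + 2) - t) (by omega)) (qf D2 al (-1) ((k + l + l2 + i3 - 2 * n + 2) - t) ((k + l + 2 * i3 - n - i2 + 1) - t) (by omega))) (sh al (-1) ((k + l + 2 * i3 - n - i2 + 1) - t) ((k + l + 2 * i3 - 2 * n - i2 + 1) - t) (by omega)))⟩) (fun t h1 h2 => ⟨by omega, (cE (qa tt al (-1) t ((i + l + i2 - n + 1) - t) (by omega)) (sh al (-1) ((i + l + i2 - n + 1) - t) ((i + l + i2 - 2 * n + 1) - t) (by omega)))⟩) (fun t h1 h2 => (cE (qf b al (-1) t (t + (n + k - i)) (by omega)) (sh al (-1) (t + (n + k - i)) (t + (k - i)) (by omega))))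
        · have kk67 : (2 * i2 + l2 + 1) ≤ (k + l + i3) := by clear * - y18 z4; omega
          have kk68 : (k + l + i3 + 1) ≤ (n + 2 * i2 + l2) := by clear * - y14 y15 y18 z1 z2 z3 z4; linarith
          have kk69 : (k + l + 2) ≤ (n) := by clear * - y14 y17 z1; omega
          have kk70 : (i3) ≤ (i2) := by clear * - y12 y14 y7; omega
          have kk71 : (n + i3) ≤ (2 * i2 + 2 * l2 + 2) := by clear * - y14 z3; omega
          clear * - al c D2 kk67 kk68 kk69 kk70 kk71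
          exact al.ubP (k + l + i3 - 2 * i2 - l2) (by omega) (by omega) fun t h1 h2 => (cE (cE (qf D2 al (-1) t (t + (n + i3 - i2 - l2 - 1)) (by omega)) (qf c al 0 (t + (n + i3 - i2 - l2 - 1)) (t + (n + k + l + i3 - 2 * i2 - l2)) (by omega))) (sh al (-1) (t + (n + k + l + i3 - 2 * i2 - l2)) (t + (k + l + i3 - 2 * i2 - l2)) (by omega)))

theorem t2b_3 {W : ℤ → G} {n Q i j k l i2 l2 i3 : ℤ} (al : AL W n Q)
    (hy : (0) ≤ (i) ∧ (i) ≤ (j) ∧ (j + 1) ≤ (Q) ∧ (Q) ≤ (k) ∧ (k + 1) ≤ (n) ∧ (Q) ≤ (i + l + 1) ∧ (k + l + 2) ≤ (n) ∧ (Q) ≤ (i2) ∧ (i2) ≤ (i + l + 1) ∧ (Q) ≤ (i2 + l2 + 1) ∧ (i2 + l2 + 2) ≤ (n) ∧ (n) ≤ (k + l + l2 + 2) ∧ (k + l + l2 + 3) ≤ (n + Q) ∧ (0) ≤ (i3) ∧ (n + i3) ≤ (k + l + l2 + 2) ∧ (k + i2 + l2 + 2) ≤ (n + j + i3) ∧ (j + i3 + 1) ≤ (k) ∧ (k + i2 + l2 + 2) ≤ (n + i3) ∧ (i + 2 * i2 + 1) ≤ (2 * Q + k) ∧ (i + l + 1) ≤ (i2 + l2) ∧ (k + l) ≤ (i2 + l2) ∧ (i2 + l2) ≤ (k + l) ∧ (i + 1) ≤ (i3))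
    (a1 : Par W (0) (j) (k - j))
    (a2 : Par W (Q + j - k) (j) (k - j))
    (s1 : Ant W (0) (i) (i + j))
    (s2 : Ant W (j + 1) (Q) (i + j))
    (b : Par W (i + 1) (i + l + 1) (k - i))
    (tt : Ant W (Q) (i2) (i + l + i2 + 1))
    (c : Par W (i2 + 1) (i2 + l2 + 1) (k + l - i2 + 1))
    (u1 : Ant W (0) (i3) (k + l + l2 + i3 - n + 2))
    (u2 : Ant W (k + l + l2 - n + 3) (Q) (k + l + l2 + i3 - n + 2))
    (D1 : Par W (i3 + 1) (Q) (i2 + l2 - i3 + 1))
    (D2 : Par W (i2 + l2 + 2) (n) (i3 - i2 - l2 - 1))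
    {L : ℤ} (mx : ∀ a b g, 0 < g → g < n → Par W a b g → b - a ≤ L)
    (hL : L ≤ (n - j - 3) ∧ L ≤ (n + Q - k - 3) ∧ L ≤ (n - l - 3) ∧ L ≤ (n + i - k - 2) ∧ L ≤ (n - l2 - 3) ∧ L ≤ (n + i3 - Q - 2) ∧ L ≤ (i2 + l2 - 1) ∧ L ≤ (n + i2 - k - l - 3) ∧ L ≤ (Q + i2 + l2 - i - l - 3))
    (bd0 : Bd W n L (j) (i) (k))
    (bd2 : Bd W n L (k + l + l2 - n + 2) (i3) (i2 + l2 + 1))
    (n1 : Nd W (j) (i) (k))
    (n2 : Nd W (i + l + 1) (i2) (k + l + 1))
    (n3 : Nd W (k + l + l2 - n + 2) (i3) (i2 + l2 + 1))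
    (b0 : (i + l + 3) ≤ (Q + i2))
    (b1 : (2 * n + i + i2 + 2 * i3) ≤ (4 * k + 3 * l + 4)) : False := by
  have ev := al.ev
  obtain ⟨y0, y1, y2, y3, y4, y5, y6, y7, y8, y9, y10, y11, y12, y13, y14, y15, y16, y17, y18, y19, y20, y21, y22⟩ := id hy
  have n1p := And.intro n1.p1 n1.p2
  have n2p := And.intro n2.p1 n2.p2
  have n3p := And.intro n3.p1 n3.p2
  by_cases z7 : (i + k + 2 * l + i2 + 3 * l2 + 7) ≤ (3 * n + i3)
  · by_cases z8 : (n + i) ≤ (k + i2 + l2 + i3 + 1)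
    · by_cases v5 : (i + k + 2 * l + 2) ≤ (n + i2)
      · have kk117 : (k + i2 + l2 + 2) ≤ (n + i + i3) := by clear * - y0 y17; omega
        have kk118 : (n + i) ≤ (k + i2 + l2 + i3 + 1) := by clear * - z8; omega
        have kk119 : (k + i2 + l2 + 3) ≤ (n + i + i3) := by clear * - y0 y17 ev n1p n2p n3p; omega
        have kk120 : (3 * i2 + 3 * l2 + 3) ≤ (n + i + k + 2 * l + i3) := by clear * - y0 y17 y21 ev n1p n2p n3p; omega
        have kk121 : (k + l) ≤ (i2 + l2) := by clear * - y20; omega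
        have kk122 : (n) ≤ (k + l + l2 + 2) := by clear * - y13 y14; omega
        have kk123 : (i + l) ≤ (i2 + l2) := by clear * - y19; omega
        have kk124 : (i + k + l) ≤ (2 * i2 + l2) := by clear * - b0 y14 y17 y20 y7; omega
        have kk125 : (i + l + l2 + 2) ≤ (n) := by clear * - v5 y21; omega
        have kk126 : (2 * i2 + l2) ≤ (i + k + 2 * l + 1) := by clear * - y21 y8; omega
        have kk127 : (i2) ≤ (i + l + 1) := by clear * - y8; omega
        have r128 : (k + l + l2 + i3 - n + 2) % 2 = 0 := by clear * - ev n1p n2p n3p; omega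
        have r129 : (n + i + i3 - k - i2 - l2 - 1) % 2 = 0 := by clear * - ev n1p n2p n3p; omega
        clear * - al b c u1 D2 kk117 kk118 kk119 kk120 kk121 kk122 kk123 kk124 kk125 kk126 kk127 r128 r129
        exact midP al (n + i + i3 - k - i2 - l2 - 1) (k + l + l2 + i3 - n + 2) (k + l + l2 - n + 3) (k + i2 + l2 - n - i + 2) (i + k + 2 * l + i3 - 2 * i2 - l2 + 1) (by omega) (fun t h1 h2 => (ab u1 al 0 t ((k + l + l2 + i3 - n + 2) - t) (by omega))) (fun t h1 h2 => (cE (cE (pb c al (-1) t (t + (n + i2 - k - l - 1)) (by omega)) (pb b al 0 (t + (n + i2 - k - l - 1)) (t + (n + i + i2 - 2 * k - l - 1)) (by omega))) (pb (show Par W (i3 + 1) (n + i3 - i2 - l2 - 1) (2 * i2 + l2 - k - l - i3) from fun t h1 h2 => (cE (sh al (-1) t (t + (-n)) (by omega)) (cE (pb D2 al (-1) (t + (-n)) (t + (i2 + l2 - i3 + 1)) (by omega)) (pb c al 0 (t + (i2 + l2 - i3 + 1)) (t + (2 * i2 + l2 - k - l - i3)) (by omega))))) al 0 (t + (n + i + i2 - 2 * k - l - 1))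 (t + (n + i + i3 - k - i2 - l2 - 1)) (by omega))))
      · have kk130 : (k + i2 + l2 + 2) ≤ (n + i + i3) := by clear * - v5 y20 z7; omega
        have kk131 : (n + i) ≤ (k + i2 + l2 + i3 + 1) := by clear * - z8; omega
        have kk132 : (k + i2 + l2 + 3) ≤ (n + i + i3) := by clear * - v5 y20 z7; omega
        have kk133 : (i + k + 2 * l + i2 + 3 * l2 + 7) ≤ (3 * n + i3) := by clear * - z7; omega
        have kk134 : (k + l) ≤ (i2 + l2) := by clear * - y20; omega
        have kk135 : (n) ≤ (k + l + l2 + 2) := by clear * - b1 v5 y20 z7 z8; omega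
        have kk136 : (i + l) ≤ (i2 + l2) := by clear * - b1 v5 y20 z7 z8; omega
        have kk137 : (i + k + l) ≤ (2 * i2 + l2) := by clear * - b0 b1 v5 y17 y20 y7 z7; linarith
        have kk138 : (n) ≤ (i + l + l2 + 2) := by clear * - v5 y20; omega
        have kk139 : (n + i2) ≤ (i + k + 2 * l + 2) := by clear * - v5; omega
        have kk140 : (i2 + l2 + 1) ≤ (n) := by clear * - b1 v5 y20 z7; omega
        have kk141 : (i2) ≤ (i + l + 1) := by clear * - b1 v5 y20 z7; omega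
        have r142 : (k + l + l2 + i3 - n + 2) % 2 = 0 := by clear * - ev n1p n2p n3p; omega
        have r143 : (n + i + i3 - k - i2 - l2 - 1) % 2 = 0 := by clear * - ev n1p n2p n3p; omega
        clear * - al b c u1 D2 kk130 kk131 kk132 kk133 kk134 kk135 kk136 kk137 kk138 kk139 kk140 kk141 r142 r143
        exact midP al (n + i + i3 - k - i2 - l2 - 1) (k + l + l2 + i3 - n + 2) (k + l + l2 - n + 3) (k + i2 + l2 - n - i + 2) (n + i3 - i2 - l2 - 1) (by omega) (fun t h1 h2 => (ab u1 al 0 t ((k + l + l2 + i3 - n + 2) - t) (by omega))) (fun t h1 h2 => (cE (cE (pb c al (-1) t (t + (n + i2 - k - l - 1)) (by omega)) (pb b al 0 (t + (n + i2 - k - l - 1)) (t + (n + i + i2 - 2 * k - l - 1)) (by omega))) (pb (show Par W (i3 + 1) (n + i3 - i2 - l2 - 1) (2 * i2 + l2 - k - l - i3) from fun t h1 h2 => (cE (sh al (-1) t (t + (-n)) (by omega)) (cE (pb D2 al (-1) (t + (-n)) (t + (i2 + l2 - i3 + 1)) (by omega)) (pb c al 0 (t + (i2 + l2 - i3 + 1)) (t +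 (2 * i2 + l2 - k - l - i3)) (by omega))))) al 0 (t + (n + i + i2 - 2 * k - l - 1)) (t + (n + i + i3 - k - i2 - l2 - 1)) (by omega))))
    · have kk144 : (k + i2 + l2 + 2) ≤ (n + i + i3) := by clear * - y13 z8; omega
      have kk145 : (i + k + 2 * l + l2 + i3 + 5) ≤ (n + 2 * Q + i2) := by clear * - b0 z8; omega
      have kk146 : (k + i2 + l2 + 3) ≤ (n + i + i3) := by clear * - y0 y22 z8; omega
      have kk147 : (3 * i2 + 3 * l2 + 3) ≤ (n + i + k + 2 * l + i3) := by clear * - y0 y21 y22 z8; omega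
      have kk148 : (k + l) ≤ (i2 + l2) := by clear * - y20; omega
      have kk149 : (n) ≤ (k + l + l2 + 2) := by clear * - b1 y13 y20 z8; omega
      have kk150 : (i + l) ≤ (i2 + l2) := by clear * - y19; omega
      have kk151 : (i + k + l) ≤ (2 * i2 + l2) := by clear * - b0 y14 y17 y20 y7; omega
      have kk152 : (i + l + l2 + 2) ≤ (n) := by clear * - b0 y22 y3 z8; omega
      have kk153 : (2 * i2 + l2) ≤ (i + k + 2 * l + 1) := by clear * - b1 y13 y20 z8; omega
      have kk154 : (i2) ≤ (i + l + 1) := by clear * - b1 y13 y20 z8; omega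
      have r155 : (k + l + l2 + i3 - n + 2) % 2 = 0 := by clear * - ev n1p n2p n3p; omega
      have r156 : (n + i + i3 - k - i2 - l2 - 1) % 2 = 0 := by clear * - ev n1p n2p n3p; omega
      clear * - al b c u2 D2 kk144 kk145 kk146 kk147 kk148 kk149 kk150 kk151 kk152 kk153 kk154 r155 r156
      exact midP al (n + i + i3 - k - i2 - l2 - 1) (k + l + l2 + i3 - n + 2) (k + l + l2 - n + 3) (k + i2 + l2 - n - i + 2) (i + k + 2 * l + i3 - 2 * i2 - l2 + 1) (by omega) (fun t h1 h2 => (qa u2 al 0 t ((k + l + l2 + i3 - n + 2) - t) (by omega))) (fun t h1 h2 => (cE (cE (pb c al (-1) t (t + (n + i2 - k - l - 1)) (by omega)) (pb b al 0 (t + (n + i2 - k - l - 1)) (t + (n + i + i2 - 2 * k - l - 1)) (by omega))) (pb (show Par W (i3 + 1) (n + i3 - i2 - l2 - 1) (2 * i2 + l2 - k - l - i3) from fun t h1 h2 => (cE (sh al (-1) t (t + (-n)) (by omega)) (cE (pb D2 al (-1) (t + (-n)) (t + (i2 + l2 - i3 + 1)) (by omega)) (pb c al 0 (t + (i2 + l2 - i3 + 1)) (t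 + (2 * i2 + l2 - k - l - i3)) (by omega))))) al 0 (t + (n + i + i2 - 2 * k - l - 1)) (t + (n + i + i3 - k - i2 - l2 - 1)) (by omega))))
  · by_cases z9 : (n + 2 * i + j + i2) ≤ (4 * k + l)
    · by_cases z10 : (n + 4 * k) ≤ (2 * i + j + l + i2 + 2 * l2 + 2 * i3 + 3)
      · by_cases z11 : (n + 8 * i + 3 * i2 + 2 * l2 + 2 * i3 + 3) ≤ (j + 12 * k + l)
        · by_cases z12 : (k) ≤ (i2)
          · by_cases v6 : (2 * i + i2 + l2 + 1) ≤ (3 * k)
            · have kk157 : (n + 2 * i + j + i2) ≤ (4 * k + l) := by clear * - z9; omega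
              have kk158 : (n + 4 * k) ≤ (2 * i + j + l + i2 + 2 * l2 + 2 * i3 + 3) := by clear * - z10; omega
              have kk159 : (n + 2 * k) ≤ (j + l + i2 + 2 * l2 + 1) := by clear * - b1 y15 y16 y17 y20 z12 z7; linarith
              have kk160 : (k) ≤ (i2) := by clear * - z12; omega
              have kk161 : (i2 + l2) ≤ (k + l) := by clear * - y21; omega
              have kk162 : (l + l2 + 2) ≤ (n) := by clear * - y12 y3; omega
              have kk163 : (l2 + i3 + 2) ≤ (n) := by clear * - b1 y12 y15 y16 y20 y7 z7; linarith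
              have kk164 : (i + j + 1) ≤ (k) := by clear * - y16 y22; omega
              have kk165 : (2 * i + j + i2 + 1) ≤ (3 * k) := by clear * - v6 y15 y16 y20 z10; omega
              have kk166 : (2 * i + i2 + l2 + 1) ≤ (3 * k) := by clear * - v6; omega
              have kk167 : (i + i2 + l2) ≤ (2 * k + l) := by clear * - y19 y21; omega
              have kk168 : (0) ≤ (i + 1) := by clear * - y12 y17 y3 z7; omega
              have kk169 : (i3) ≤ (k) := by clear * - b1 y12 y17 y20 y3 z7; omega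
              have r170 : (n + i + l + l2 + i3 + 2) % 2 = 0 := by clear * - ev n1p n2p n3p; omega
              have r171 : (4 * k + l - n - 2 * i - j - i2 + 1) % 2 = 0 := by clear * - ev n1p n2p n3p; omega
              clear * - al a1 b c u1 kk157 kk158 kk159 kk160 kk161 kk162 kk163 kk164 kk165 kk166 kk167 kk168 kk169 r170 r171
              exact midP al (4 * k + l - n - 2 * i - j - i2 + 1) (n + i + l + l2 + i3 + 2) (n + i + 1) (n) (k + l + l2 + 2) (by omega) (fun t h1 h2 => (cE (cI (qf b al 1 t (t + (k - n - i)) (by omega)) (ab u1 al 0 (t + (k - n - i)) ((i + l + l2 + i3 + 2) - t) (by omega))) (sh al 1 ((i + l + l2 + i3 + 2) - t) ((n + i + l + l2 + i3 + 2) - t) (by omega)))) (fun t h1 h2 => (cE (cE (qf a1 al 1 t (t + (k - n - j)) (by omega)) (qf b al 0 (t + (k - n - j)) (t + (2 * k - n - i - j)) (by omega))) (pb (show Par W (k + l + 2) (k + l + l2 + 2) (n + i + i2 - 2 * k - l - 1) from fun t h1 h2 => (cE (sh al (-1) t (t + (-n))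 (by omega)) (cE (cE (pb c al (-1) (t + (-n)) (t + (i2 - k - l - 1)) (by omega)) (pb b al 0 (t + (i2 - k - l - 1)) (t + (i + i2 - 2 * k - l - 1)) (by omega))) (sh al 1 (t + (i + i2 - 2 * k - l - 1)) (t + (n + i + i2 - 2 * k - l - 1)) (by omega))))) al (-1) (t + (2 * k - n - i - j)) (t + (4 * k + l - n - 2 * i - j - i2 + 1)) (by omega))))
            · by_cases v7 : (2 * i + i2 + l2 + i3 + 1) ≤ (4 * k)
              · have kk172 : (n + 2 * i + j + i2) ≤ (4 * k + l) := by clear * - z9; omega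
                have kk173 : (n + 4 * k) ≤ (2 * i + j + l + i2 + 2 * l2 + 2 * i3 + 3) := by clear * - z10; omega
                have kk174 : (n + 4 * i + i2 + 1) ≤ (j + 4 * k + l) := by clear * - y1 z9 ev n1p n2p n3p; omega
                have kk175 : (k) ≤ (i2) := by clear * - z12; omega
                have kk176 : (i2 + l2) ≤ (k + l) := by clear * - y21; omega
                have kk177 : (l + l2 + 2) ≤ (n) := by clear * - y12 y3; omega
                have kk178 : (l2 + i3 + 2) ≤ (n) := by clear * - v6 v7 y17 z12; omega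
                have kk179 : (i + j + 1) ≤ (k) := by clear * - y16 y22; omega
                have kk180 : (2 * i + j + i2 + 1) ≤ (3 * k) := by clear * - v6 v7 y17 y20 z9; omega
                have kk181 : (k) ≤ (i + l + 1) := by clear * - v6 v7 y21 y22; omega
                have kk182 : (3 * k) ≤ (2 * i + i2 + l2 + 1) := by clear * - v6; omega
                have kk183 : (0) ≤ (i + 1) := by clear * - y12 y17 y3 z7; omega
                have kk184 : (2 * i + i2 + l2 + i3 + 1) ≤ (4 * k) := by clear * - v7; omega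
                have r185 : (n + i + l + l2 + i3 + 2) % 2 = 0 := by clear * - ev n1p n2p n3p; omega
                have r186 : (4 * k + l - n - 2 * i - j - i2 + 1) % 2 = 0 := by clear * - ev n1p n2p n3p; omega
                clear * - al a1 b c u1 kk172 kk173 kk174 kk175 kk176 kk177 kk178 kk179 kk180 kk181 kk182 kk183 kk184 r185 r186
                exact midP al (4 * k + l - n - 2 * i - j - i2 + 1) (n + i + l + l2 + i3 + 2) (n + i + 1) (n) (4 * k + l - 2 * i - i2 + 1) (by omega) (fun t h1 h2 => (cE (cI (qf b al 1 t (t + (k - n - i)) (by omega)) (ab u1 al 0 (t + (k - n - i)) ((i + l + l2 + i3 + 2) - t) (by omega))) (sh al 1 ((i + l + l2 + i3 + 2) - t) ((n + i + l + l2 + i3 + 2) - t) (by omega)))) (fun t h1 h2 => (cE (cE (qf a1 al 1 t (t + (k - n - j)) (by omega)) (qf b al 0 (t + (k - n - j)) (t + (2 * k - n - i - j)) (by omega))) (pb (show Par W (k + l + 2) (k + l + l2 + 2) (n + i + i2 - 2 * k - l - 1) from fun t h1 h2 => (cE (sh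 al (-1) t (t + (-n)) (by omega)) (cE (cE (pb c al (-1) (t + (-n)) (t + (i2 - k - l - 1)) (by omega)) (pb b al 0 (t + (i2 - k - l - 1)) (t + (i + i2 - 2 * k - l - 1)) (by omega))) (sh al 1 (t + (i + i2 - 2 * k - l - 1)) (t + (n + i + i2 - 2 * k - l - 1)) (by omega))))) al (-1) (t + (2 * k - n - i - j)) (t + (4 * k + l - n - 2 * i - j - i2 + 1)) (by omega))))
              · have kk187 : (n + 2 * i + j + i2) ≤ (4 * k + l) := by clear * - z9; omega
                have kk188 : (n + 2 * i + i2) ≤ (j + 4 * k + l + 1) := by clear * - b0 b1 v7 y15 y18 y3; omega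
                have kk189 : (n + 8 * i + 3 * i2 + 2 * l2 + 2 * i3 + 3) ≤ (j + 12 * k + l) := by clear * - z11; omega
                have kk190 : (k) ≤ (i2) := by clear * - z12; omega
                have kk191 : (i2 + l2) ≤ (k + l) := by clear * - y21; omega
                have kk192 : (l + l2 + 2) ≤ (n) := by clear * - y12 y3; omega
                have kk193 : (l2 + i3 + 2) ≤ (n) := by clear * - b1 v6 y12 y15 y16 y7 z11 z7; linarith
                have kk194 : (i + j + 1) ≤ (k) := by clear * - y16 y22; omega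
                have kk195 : (2 * i + j + i2 + 1) ≤ (3 * k) := by clear * - y15 y16 y20 z9; omega
                have kk196 : (k) ≤ (i + l + 1) := by clear * - v6 y19 y21; omega
                have kk197 : (3 * k) ≤ (2 * i + i2 + l2 + 1) := by clear * - v6; omega
                have kk198 : (0) ≤ (i + 1) := by clear * - b1 v7 y12 y18 y3 z11 z7 z9; linarith
                have kk199 : (4 * k) ≤ (2 * i + i2 + l2 + i3 + 1) := by clear * - v7; omega
                have r200 : (n + i + l + l2 + i3 + 2) % 2 = 0 := by clear * - ev n1p n2p n3p; omega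
                have r201 : (4 * k + l - n - 2 * i - j - i2 + 1) % 2 = 0 := by clear * - ev n1p n2p n3p; omega
                clear * - al a1 b c u1 kk187 kk188 kk189 kk190 kk191 kk192 kk193 kk194 kk195 kk196 kk197 kk198 kk199 r200 r201
                exact midP al (4 * k + l - n - 2 * i - j - i2 + 1) (n + i + l + l2 + i3 + 2) (n + 3 * i + i2 + l2 + i3 - 4 * k + 2) (n) (4 * k + l - 2 * i - i2 + 1) (by omega) (fun t h1 h2 => (cE (cI (qf b al 1 t (t + (k - n - i)) (by omega)) (ab u1 al 0 (t + (k - n - i)) ((i + l + l2 + i3 + 2) - t) (by omega))) (sh al 1 ((i + l + l2 + i3 + 2) - t) ((n + i + l + l2 + i3 + 2) - t) (by omega)))) (fun t h1 h2 => (cE (cE (qf a1 al 1 t (t + (k - n - j)) (by omega)) (qf b al 0 (t + (k - n - j)) (t + (2 * k - n - i - j)) (by omega))) (pb (show Par W (k + l + 2) (k + l + l2 + 2) (n + i + i2 - 2 * k - l - 1) from fun t h1 h2 => (cE (sh al (-1) t (t + (-n)) (by omega)) (cE (cE (pb c al (-1) (t + (-n)) (t + (i2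 - k - l - 1)) (by omega)) (pb b al 0 (t + (i2 - k - l - 1)) (t + (i + i2 - 2 * k - l - 1)) (by omega))) (sh al 1 (t + (i + i2 - 2 * k - l - 1)) (t + (n + i + i2 - 2 * k - l - 1)) (by omega))))) al (-1) (t + (2 * k - n - i - j)) (t + (4 * k + l - n - 2 * i - j - i2 + 1)) (by omega))))
          · have kk202 : (i + 2 * i2 + l2 + 1) ≤ (2 * k + l + i3) := by clear * - y21 y22 z12; omega
            have kk203 : (i + 2 * i2 + l2) ≤ (2 * k + l + i3) := by clear * - y21 y22 z12; omega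
            have kk204 : (i + 4 * i2 + 3 * l2 + 4) ≤ (2 * n + 2 * k + l + i3) := by clear * - y15 y16 y21 y22 z12; omega
            have kk205 : (3 * i + l + 4 * i2 + 5 * l2 + 8) ≤ (4 * n + 2 * k + i3) := by clear * - b1 y12 y17 y20 y7 z11 z12 z9; linarith
            have kk206 : (i2) ≤ (k) := by clear * - z12; omega
            have kk207 : (i2 + l2) ≤ (k + l) := by clear * - y21; omega
            have kk208 : (k + l + l2 + 2) ≤ (n + i2) := by clear * - y12 y7; omega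
            have kk209 : (k + l + i3 + 2) ≤ (n + i2) := by clear * - b1 y12 y17 y20 y7 z12 z7; linarith
            have kk210 : (i) ≤ (i3) := by clear * - y22; omega
            have kk211 : (n + k + i3) ≤ (i + 2 * i2 + 2 * l2 + 2) := by clear * - b1 y12 y17 y20 y7 z12 z7; linarith
            have kk212 : (n) ≤ (i + l + l2 + 2) := by clear * - y12 y17 y7 z12 z7; omega
            have kk213 : (n + k) ≤ (i + i2 + 2 * l2 + 2) := by clear * - y12 y17 y20 y7 z12 z7; omega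
            have r214 : (2 * k + 2 * l + l2 + i3 - 2 * n - i2 + 3) % 2 = 0 := by clear * - ev n1p n2p n3p; omega
            have r215 : (2 * k + l + i3 - i - 2 * i2 - l2) % 2 = 0 := by clear * - ev n1p n2p n3p; omega
            clear * - al b c u1 D2 kk202 kk203 kk204 kk205 kk206 kk207 kk208 kk209 kk210 kk211 kk212 kk213 r214 r215
            exact midP al (2 * k + l + i3 - i - 2 * i2 - l2) (2 * k + 2 * l + l2 + i3 - 2 * n - i2 + 3) (i + l + i2 + 2 * l2 - 2 * n + 4) (i2 + l2 - n + 2) (2 * k + l + i3 - i - 2 * i2 - l2) (by omega) (fun t h1 h2 => (cI (pb c al (-1) t (t + (n + i2 - k - l - 1)) (by omega)) (ab u1 al 0 (t + (n + i2 - k - l - 1)) ((2 * k + 2 * l + l2 + i3 - 2 * n - i2 + 3) - t) (by omega)))) (fun t h1 h2 => (cE (cE (qf D2 al (-1) t (t + (n + i3 - i2 - l2 - 1)) (by omega)) (pb (show Par W (2 * k + l - i2 + 2) (k + l + l2 + 2) (n + i + i2 - 2 * k - l - 1) from fun t h1 h2 => (cE (sh al (-1) t (t + (-n)) (by omega)) (cE (cE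 (pb c al (-1) (t + (-n)) (t + (i2 - k - l - 1)) (by omega)) (pb b al 0 (t + (i2 - k - l - 1)) (t + (i + i2 - 2 * k - l - 1)) (by omega))) (sh al 1 (t + (i + i2 - 2 * k - l - 1)) (t + (n + i + i2 - 2 * k - l - 1)) (by omega))))) al (-1) (t + (n + i3 - i2 - l2 - 1)) (t + (n + 2 * k + l + i3 - i - 2 * i2 - l2)) (by omega))) (sh al (-1) (t + (n + 2 * k + l + i3 - i - 2 * i2 - l2)) (t + (2 * k + l + i3 - i - 2 * i2 - l2)) (by omega))))
        · have kk216 : (i + 1) ≤ (k) := by clear * - y19 y21; omega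
          have kk217 : (k + 1) ≤ (n + i) := by clear * - y12 y8 y9; omega
          have kk218 : (Q + i2 + l2) ≤ (i + 2 * l + 2) := by clear * - y1 y16 y21 y3 z11 z9; omega
          clear * - al b mx hL kk216 kk217 kk218
          exact absurd (mx (i - n + 1) (i + l - n + 1) (k - i) (by omega) (by omega) fun t h1 h2 => (cE (qf b al (-1) t (t + (n + k - i)) (by omega)) (sh al (-1) (t + (n + k - i)) (t + (k - i)) (by omega)))) (by omega)
      · by_cases z13 : (n + i + j + i3 + 1) ≤ (2 * Q + i2 + l2)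
        · by_cases z14 : (i + 2 * i2 + l2 + 1) ≤ (2 * k + l + i3)
          · have kk219 : (i + 2 * i2 + l2 + 1) ≤ (2 * k + l + i3) := by clear * - z14; omega
            have kk220 : (2 * k + l) ≤ (i + 2 * i2 + l2 + i3) := by clear * - y12 y17 y20 y3 y7 z14 z7; linarith
            have kk221 : (2 * n + 2 * i2) ≤ (i + 2 * k + 3 * l + l2 + i3 + 4) := by clear * - y12 y17 y3 z14 z7; omega
            have kk222 : (i + 2 * i2 + l2) ≤ (2 * k + l + i3) := by clear * - z14; omega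
            have kk223 : (k + l) ≤ (i2 + l2) := by clear * - y20; omega
            have kk224 : (n) ≤ (k + l + l2 + 2) := by clear * - b1 y13 y15 y16 y20 z7; omega
            have kk225 : (k + l + 2) ≤ (n) := by clear * - y15 y16 y20; omega
            have kk226 : (n + i3) ≤ (k + l + l2 + 2) := by clear * - b1 y15 y16 y20 z7; omega
            have kk227 : (i) ≤ (i3) := by clear * - y22; omega
            have kk228 : (n + i3) ≤ (i + l + i2 + l2 + 2) := by clear * - y12 y15 y16 y7 z7; omega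
            have kk229 : (i + l + i2 + 2 * l2 + 4) ≤ (2 * n) := by clear * - y12 y15 y17 y20 y7 z10 z7; linarith
            have kk230 : (i2 + l2 + 2) ≤ (n) := by clear * - y15 y16; omega
            have r231 : (i2 + l2 + i3 - 2 * n + 1) % 2 = 0 := by clear * - ev n1p n2p n3p; omega
            have r232 : (2 * k + l + i3 - i - 2 * i2 - l2) % 2 = 0 := by clear * - ev n1p n2p n3p; omega
            clear * - al b c u1 D2 kk219 kk220 kk221 kk222 kk223 kk224 kk225 kk226 kk227 kk228 kk229 kk230 r231 r232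
            exact midP al (2 * k + l + i3 - i - 2 * i2 - l2) (i2 + l2 + i3 - 2 * n + 1) (i2 - k - l - 1) (2 * i2 + l2 - n - k - l + 1) (k + i3 - i - i2 - l2 - 1) (by omega) (fun t h1 h2 => (cE (cI (qf c al (-1) t (t + (n + k + l - i2 + 1)) (by omega)) (qa u1 al 1 (t + (n + k + l - i2 + 1)) ((i2 + l2 + i3 - n + 1) - t) (by omega))) (sh al (-1) ((i2 + l2 + i3 - n + 1) - t) ((i2 + l2 + i3 - 2 * n + 1) - t) (by omega)))) (fun t h1 h2 => (cE (cE (pb (show Par W (i3 + 1) (n + i3 - i2 - l2 - 1) (2 * i2 + l2 - k - l - i3) from fun t h1 h2 => (cE (sh al (-1) t (t + (-n)) (by omega)) (cE (pb D2 al (-1) (t + (-n)) (t + (i2 + l2 - i3 + 1)) (by omega)) (pb c al 0 (t + (i2 + l2 - i3 + 1)) (t + (2 * i2 + l2 - k - l - i3)) (by omega))))) al (-1) t (t + (n + k + l + i3 - 2 * i2 - l2)) (by omega)) (qf b al 0 (t + (n + k + l + i3 - 2 * i2 - l2)) (t + (n + 2 * k + l + i3 - i - 2 * i2 - l2)) (by omega))) (sh al (-1) (t + (n + 2 * k + l + i3 - i - 2 * i2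 - l2)) (t + (2 * k + l + i3 - i - 2 * i2 - l2)) (by omega))))
          · by_cases v8 : (j) ≤ (i3)
            · have kk233 : (i2 + l2 + i3 + 3) ≤ (n + i + j) := by clear * - y15 y18 y21 y3 z14; omega
              have kk234 : (n + i + j + i3) ≤ (2 * Q + i2 + l2) := by clear * - z13; omega
              have kk235 : (j) ≤ (i3) := by clear * - v8; omega
              have r236 : (i + j + i2 + l2 - n - i3 + 1) % 2 = 0 := by clear * - ev n1p n2p n3p; omega
              clear * - al s2 D1 kk233 kk234 kk235 r236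
              obtain ⟨t, ht⟩ : ∃ t, 2 * t = (i + j + i2 + l2 - n - i3 + 1) := ⟨(i + j + i2 + l2 - n - i3 + 1) / 2, by omega⟩
              exact al.ninv t (cI (pb D1 al (-1) t (t + (n + i3 - i2 - l2 - 1)) (by omega)) (qa s2 al 0 (t + (n + i3 - i2 - l2 - 1)) t (by omega)))
            · have kk237 : (j + i2 + l2 + 3) ≤ (n + i + i3) := by clear * - y12 y17 y3 z13 z7; omega
              have kk238 : (n + i + j + i3) ≤ (2 * Q + i2 + l2) := by clear * - z13; omega
              have kk239 : (i3) ≤ (j) := by clear * - v8; omega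
              have r240 : (i + j + i2 + l2 - n - i3 + 1) % 2 = 0 := by clear * - ev n1p n2p n3p; omega
              clear * - al s2 D1 kk237 kk238 kk239 r240
              obtain ⟨t, ht⟩ : ∃ t, 2 * t = (i + j + i2 + l2 - n - i3 + 1) := ⟨(i + j + i2 + l2 - n - i3 + 1) / 2, by omega⟩
              exact al.ninv t (cI (pb D1 al (-1) t (t + (n + i3 - i2 - l2 - 1)) (by omega)) (qa s2 al 0 (t + (n + i3 - i2 - l2 - 1)) t (by omega)))
        · have kk241 : (j + 1) ≤ (k) := by clear * - b0 y16 y17 z13 z7; omega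
          have kk242 : (k) ≤ (2 * i + j) := by clear * - y12 z13 z7; omega
          have kk243 : (k) ≤ (2 * i + 3 * j + 2) := by clear * - b0 b1 y12 y17 y19 y20 z13 z7; linarith
          have kk244 : (0) ≤ (j + k) := by clear * - b0 y15 y16 z13 z7; omega
          have kk245 : (i + j + 1) ≤ (k) := by clear * - y16 y22; omega
          have r246 : (2 * n + i + j) % 2 = 0 := by clear * - ev n1p n2p n3p; omega
          have r247 : (k - j) % 2 = 0 := by clear * - ev n1p n2p n3p; omega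
          clear * - al a1 s1 kk241 kk242 kk243 kk244 kk245 r246 r247
          exact midP al (k - j) (2 * n + i + j) (n) (n) (n + k) (by omega) (fun t h1 h2 => (cE (qa s1 al 1 t ((n + i + j) - t) (by omega)) (sh al 1 ((n + i + j) - t) ((2 * n + i + j) - t) (by omega)))) (fun t h1 h2 => (cE (qf a1 al 1 t (t + (k - n - j)) (by omega)) (sh al 1 (t + (k - n - j)) (t + (k - j)) (by omega))))
    · by_cases z15 : (k) ≤ (2 * i + j)
      · have kk248 : (j + 1) ≤ (k) := by clear * - y16 y22 z15; omega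
        have kk249 : (k) ≤ (2 * i + j) := by clear * - z15; omega
        have kk250 : (k) ≤ (2 * i + 3 * j + 2) := by clear * - b0 y18 y19 y21 y22 y3 z7 z9; linarith
        have kk251 : (0) ≤ (j + k) := by clear * - y19 y21 z15; omega
        have kk252 : (i + j + 1) ≤ (k) := by clear * - y16 y22; omega
        have r253 : (i + j - 2 * n) % 2 = 0 := by clear * - ev n1p n2p n3p; omega
        have r254 : (k - j) % 2 = 0 := by clear * - ev n1p n2p n3p; omega
        clear * - al a1 s1 kk248 kk249 kk250 kk251 kk252 r253 r254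
        exact midP al (k - j) (i + j - 2 * n) (-n) (-n) (k - n) (by omega) (fun t h1 h2 => (cE (qa s1 al (-1) t ((i + j - n) - t) (by omega)) (sh al (-1) ((i + j - n) - t) ((i + j - 2 * n) - t) (by omega)))) (fun t h1 h2 => (cE (qf a1 al (-1) t (t + (n + k - j)) (by omega)) (sh al (-1) (t + (n + k - j)) (t + (k - j)) (by omega))))
      · have kk255 : (i + 1) ≤ (k) := by clear * - y19 y21; omega
        have kk256 : (k + 1) ≤ (n + i) := by clear * - b1 y13 y15 y16 y20 z9; omega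
        have kk257 : (Q + i2 + l2) ≤ (i + 2 * l + 2) := by clear * - b0 y16 y17 y21 y3 z15 z7 z9; linarith
        clear * - al b mx hL kk255 kk256 kk257
        exact absurd (mx (i - n + 1) (i + l - n + 1) (k - i) (by omega) (by omega) fun t h1 h2 => (cE (qf b al (-1) t (t + (n + k - i)) (by omega)) (sh al (-1) (t + (n + k - i)) (t + (k - i)) (by omega)))) (by omega)

theorem t2b_2 {W : ℤ → G} {n Q i j k l i2 l2 i3 : ℤ} (al : AL W n Q)
    (hy : (0) ≤ (i) ∧ (i) ≤ (j) ∧ (j + 1) ≤ (Q) ∧ (Q) ≤ (k) ∧ (k + 1) ≤ (n) ∧ (Q) ≤ (i + l + 1) ∧ (k + l + 2) ≤ (n) ∧ (Q) ≤ (i2) ∧ (i2) ≤ (i + l + 1) ∧ (Q) ≤ (i2 + l2 + 1) ∧ (i2 + l2 + 2) ≤ (n) ∧ (n) ≤ (k + l + l2 + 2) ∧ (k + l + l2 + 3) ≤ (n + Q) ∧ (0) ≤ (i3) ∧ (n + i3) ≤ (k + l + l2 + 2) ∧ (k + i2 + l2 + 2) ≤ (n + j + i3) ∧ (j + i3 + 1) ≤ (k) ∧ (k + i2 + l2 + 2) ≤ (n + i3) ∧ (i + 2 * i2 + 1) ≤ (2 * Q + k) ∧ (i + l + 1) ≤ (i2 + l2) ∧ (k + l) ≤ (i2 + l2) ∧ (i2 + l2) ≤ (k + l) ∧ (i + 1) ≤ (i3))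
    (a1 : Par W (0) (j) (k - j))
    (a2 : Par W (Q + j - k) (j) (k - j))
    (s1 : Ant W (0) (i) (i + j))
    (s2 : Ant W (j + 1) (Q) (i + j))
    (b : Par W (i + 1) (i + l + 1) (k - i))
    (tt : Ant W (Q) (i2) (i + l + i2 + 1))
    (c : Par W (i2 + 1) (i2 + l2 + 1) (k + l - i2 + 1))
    (u1 : Ant W (0) (i3) (k + l + l2 + i3 - n + 2))
    (u2 : Ant W (k + l + l2 - n + 3) (Q) (k + l + l2 + i3 - n + 2))
    (D1 : Par W (i3 + 1) (Q) (i2 + l2 - i3 + 1))
    (D2 : Par W (i2 + l2 + 2) (n) (i3 - i2 - l2 - 1))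
    {L : ℤ} (mx : ∀ a b g, 0 < g → g < n → Par W a b g → b - a ≤ L)
    (hL : L ≤ (n - j - 3) ∧ L ≤ (n + Q - k - 3) ∧ L ≤ (n - l - 3) ∧ L ≤ (n + i - k - 2) ∧ L ≤ (n - l2 - 3) ∧ L ≤ (n + i3 - Q - 2) ∧ L ≤ (i2 + l2 - 1) ∧ L ≤ (n + i2 - k - l - 3) ∧ L ≤ (Q + i2 + l2 - i - l - 3))
    (bd0 : Bd W n L (j) (i) (k))
    (bd2 : Bd W n L (k + l + l2 - n + 2) (i3) (i2 + l2 + 1))
    (n1 : Nd W (j) (i) (k))
    (n2 : Nd W (i + l + 1) (i2) (k + l + 1))
    (n3 : Nd W (k + l + l2 - n + 2) (i3) (i2 + l2 + 1))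
    (b0 : (i + l + 3) ≤ (Q + i2))
    (b1 : (4 * k + 3 * l + 5) ≤ (2 * n + i + i2 + 2 * i3)) : False := by
  have ev := al.ev
  obtain ⟨y0, y1, y2, y3, y4, y5, y6, y7, y8, y9, y10, y11, y12, y13, y14, y15, y16, y17, y18, y19, y20, y21, y22⟩ := id hy
  have n1p := And.intro n1.p1 n1.p2
  have n2p := And.intro n2.p1 n2.p2
  have n3p := And.intro n3.p1 n3.p2
  by_cases z3 : (i + 2 * k + 3 * l + i2 + 4 * l2 + 9) ≤ (4 * n + 2 * i3)
  · by_cases z4 : (2 * n + i) ≤ (2 * k + l + i2 + 2 * l2 + 3)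
    · by_cases z5 : (n + i) ≤ (k + i2 + l2 + i3 + 1)
      · by_cases v1 : (i + k + 2 * l + 2) ≤ (n + i2)
        · by_cases v2 : (k + i2 + l2 + 2) ≤ (n + i)
          · have kk4 : (k + i2 + l2 + 2) ≤ (n + i + i3) := by clear * - v2 z5; omega
            have kk5 : (n + i) ≤ (k + i2 + l2 + i3 + 1) := by clear * - z5; omega
            have kk6 : (n + i2) ≤ (i + k + 2 * l + l2 + i3 + 3) := by clear * - v2 z4 z5; omega
            have kk7 : (n + 3 * i2 + l2) ≤ (i + 3 * k + 4 * l + i3 + 3) := by clear * - v2 y21 z4 z5; omega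
            have kk8 : (k + l) ≤ (i2 + l2) := by clear * - y20; omega
            have kk9 : (n) ≤ (k + l + l2 + 2) := by clear * - v2 z4; omega
            have kk10 : (i + l) ≤ (i2 + l2) := by clear * - v1 v2 z4; omega
            have kk11 : (i + k + l) ≤ (2 * i2 + l2) := by clear * - b0 v2 y14 y20 y22 y7; omega
            have kk12 : (i + l + l2 + 2) ≤ (n) := by clear * - v1 y21; omega
            have kk13 : (2 * i2 + 2 * l2 + 2) ≤ (n + i + l) := by clear * - v2 y21; omega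
            have kk14 : (k + i2 + l2 + 2) ≤ (n + i) := by clear * - v2; omega
            have r15 : (k + l + l2 + i3 - n + 2) % 2 = 0 := by clear * - ev n1p n2p n3p; omega
            have r16 : (n + i + i3 - k - i2 - l2 - 1) % 2 = 0 := by clear * - ev n1p n2p n3p; omega
            clear * - al b c u1 D2 kk4 kk5 kk6 kk7 kk8 kk9 kk10 kk11 kk12 kk13 kk14 r15 r16
            exact midP al (n + i + i3 - k - i2 - l2 - 1) (k + l + l2 + i3 - n + 2) (0) (k + i2 + l2 - n - i + 2) (i + k + 2 * l + i3 - 2 * i2 - l2 + 1) (by omega) (fun t h1 h2 => (qa u1 al 0 t ((k + l + l2 + i3 - n + 2) - t) (by omega))) (fun t h1 h2 => (cE (cE (pb c al (-1) t (t + (n + i2 - k - l - 1)) (by omega)) (pb b al 0 (t + (n + i2 - k - l - 1)) (t + (n + i + i2 - 2 * k - l - 1)) (by omega))) (pb (show Par W (i3 + 1) (n + i3 - i2 - l2 - 1) (2 * i2 + l2 - k - l - i3) from fun t h1 h2 => (cE (sh al (-1) t (t + (-n)) (by omega)) (cE (pb D2 al (-1) (t + (-n)) (t + (i2 + l2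 - i3 + 1)) (by omega)) (pb c al 0 (t + (i2 + l2 - i3 + 1)) (t + (2 * i2 + l2 - k - l - i3)) (by omega))))) al 0 (t + (n + i + i2 - 2 * k - l - 1)) (t + (n + i + i3 - k - i2 - l2 - 1)) (by omega))))
          · have kk17 : (k + i2 + l2 + 2) ≤ (n + i + i3) := by clear * - b1 y14 y21; omega
            have kk18 : (k + i2 + l2 + 3) ≤ (n + i + i3) := by clear * - b1 y14 y21; omega
            have kk19 : (k + 3 * i2 + l2 + 1) ≤ (n + 3 * i + 2 * l + i3) := by clear * - b1 y14 y21; omega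
            have kk20 : (5 * i2 + 3 * l2 + 1) ≤ (n + 3 * i + k + 4 * l + i3) := by clear * - b1 y14 y21; omega
            have kk21 : (k + l) ≤ (i2 + l2) := by clear * - y20; omega
            have kk22 : (n) ≤ (k + l + l2 + 2) := by clear * - b1 v2 y14 y21; omega
            have kk23 : (i + l) ≤ (i2 + l2) := by clear * - y19; omega
            have kk24 : (i + k + l) ≤ (2 * i2 + l2) := by clear * - b0 y14 y17 y20 y7; omega
            have kk25 : (i + l + l2 + 2) ≤ (n) := by clear * - v1 y21; omega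
            have kk26 : (n + i + l) ≤ (2 * i2 + 2 * l2 + 2) := by clear * - v2 y20; omega
            have kk27 : (i2 + l2) ≤ (k + l) := by clear * - y21; omega
            have r28 : (k + l + l2 + i3 - n + 2) % 2 = 0 := by clear * - ev n1p n2p n3p; omega
            have r29 : (n + i + i3 - k - i2 - l2 - 1) % 2 = 0 := by clear * - ev n1p n2p n3p; omega
            clear * - al b c u1 D2 kk17 kk18 kk19 kk20 kk21 kk22 kk23 kk24 kk25 kk26 kk27 r28 r29
            exact midP al (n + i + i3 - k - i2 - l2 - 1) (k + l + l2 + i3 - n + 2) (k + i2 + l2 - n - i + 2) (k + i2 + l2 - n - i + 2) (i + k + 2 * l + i3 - 2 * i2 - l2 + 1) (by omega) (fun t h1 h2 => (qa u1 al 0 t ((k + l + l2 + i3 - n + 2) - t) (by omega))) (fun t h1 h2 => (cE (cE (pb c al (-1) t (t + (n + i2 - k - l - 1)) (by omega)) (pb b al 0 (t + (n + i2 - k - l - 1)) (t + (n + i + i2 - 2 * k - l - 1)) (by omega))) (pb (show Par W (i3 + 1) (n + i3 - i2 - l2 - 1) (2 * i2 + l2 - k -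 l - i3) from fun t h1 h2 => (cE (sh al (-1) t (t + (-n)) (by omega)) (cE (pb D2 al (-1) (t + (-n)) (t + (i2 + l2 - i3 + 1)) (by omega)) (pb c al 0 (t + (i2 + l2 - i3 + 1)) (t + (2 * i2 + l2 - k - l - i3)) (by omega))))) al 0 (t + (n + i + i2 - 2 * k - l - 1)) (t + (n + i + i3 - k - i2 - l2 - 1)) (by omega))))
        · by_cases v3 : (k + l + i2 + 2 * l2 + 4) ≤ (2 * n)
          · have kk30 : (k + i2 + l2 + 2) ≤ (n + i + i3) := by clear * - b1 v1 v3 z4; omega
            have kk31 : (n + i) ≤ (k + i2 + l2 + i3 + 1) := by clear * - z5; omega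
            have kk32 : (n + i2) ≤ (i + k + 2 * l + l2 + i3 + 3) := by clear * - v1 v3 y20 z4 z5; omega
            have kk33 : (i + i2 + l2 + 1) ≤ (n + k + i3) := by clear * - b1 v1 v3 z4; omega
            have kk34 : (k + l) ≤ (i2 + l2) := by clear * - y20; omega
            have kk35 : (n) ≤ (k + l + l2 + 2) := by clear * - v1 v3 y20 z4; omega
            have kk36 : (i + l) ≤ (i2 + l2) := by clear * - v3 y20 z4; omega
            have kk37 : (i + k + l) ≤ (2 * i2 + l2) := by clear * - b0 v1 v3 y14 y20 y22 y7; linarith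
            have kk38 : (n) ≤ (i + l + l2 + 2) := by clear * - v1 y20; omega
            have kk39 : (n + i2) ≤ (i + k + 2 * l + 2) := by clear * - v1; omega
            have kk40 : (k + l + i2 + 2 * l2 + 4) ≤ (2 * n) := by clear * - v3; omega
            have kk41 : (k + i2 + l2 + 2) ≤ (n + i) := by clear * - v1 v3 y20; omega
            have r42 : (k + l + l2 + i3 - n + 2) % 2 = 0 := by clear * - ev n1p n2p n3p; omega
            have r43 : (n + i + i3 - k - i2 - l2 - 1) % 2 = 0 := by clear * - ev n1p n2p n3p; omega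
            clear * - al b c u1 D2 kk30 kk31 kk32 kk33 kk34 kk35 kk36 kk37 kk38 kk39 kk40 kk41 r42 r43
            exact midP al (n + i + i3 - k - i2 - l2 - 1) (k + l + l2 + i3 - n + 2) (0) (k + i2 + l2 - n - i + 2) (n + i3 - i2 - l2 - 1) (by omega) (fun t h1 h2 => (qa u1 al 0 t ((k + l + l2 + i3 - n + 2) - t) (by omega))) (fun t h1 h2 => (cE (cE (pb c al (-1) t (t + (n + i2 - k - l - 1)) (by omega)) (pb b al 0 (t + (n + i2 - k - l - 1)) (t + (n + i + i2 - 2 * k - l - 1)) (by omega))) (pb (show Par W (i3 + 1) (n + i3 - i2 - l2 - 1) (2 * i2 + l2 - k - l - i3) from fun t h1 h2 => (cE (sh al (-1) t (t + (-n)) (by omega)) (cE (pb D2 al (-1) (t + (-n)) (t + (i2 + l2 - i3 + 1)) (by omega)) (pb c al 0 (t + (i2 + l2 - i3 + 1)) (t + (2 * i2 + l2 - k - l - i3)) (by omega))))) al 0 (t + (n + i + i2 - 2 * k - l - 1)) (t + (n + i + i3 - k - i2 - l2 - 1)) (by omega))))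
          · have kk44 : (k + i2 + l2 + 2) ≤ (n + i + i3) := by clear * - b1 v1 y15 y16 z3; omega
            have kk45 : (i + k + 2 * l + i2 + 3 * l2 + 7) ≤ (3 * n + i3) := by clear * - y14 z3; omega
            have kk46 : (k + 3 * i2 + 3 * l2 + 5) ≤ (3 * n + i + i3) := by clear * - b1 v1 y15 y16 z3; omega
            have kk47 : (i + k + 2 * l + 3 * i2 + 5 * l2 + 9) ≤ (5 * n + i3) := by clear * - b1 v1 y14 z3; omega
            have kk48 : (k + l) ≤ (i2 + l2) := by clear * - y20; omega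
            have kk49 : (n) ≤ (k + l + l2 + 2) := by clear * - v1 y19; omega
            have kk50 : (i + l) ≤ (i2 + l2) := by clear * - y19; omega
            have kk51 : (i + k + l) ≤ (2 * i2 + l2) := by clear * - b0 y14 y17 y20 y7; omega
            have kk52 : (n) ≤ (i + l + l2 + 2) := by clear * - v1 y20; omega
            have kk53 : (n + i2) ≤ (i + k + 2 * l + 2) := by clear * - v1; omega
            have kk54 : (2 * n) ≤ (k + l + i2 + 2 * l2 + 4) := by clear * - v3; omega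
            have r55 : (k + l + l2 + i3 - n + 2) % 2 = 0 := by clear * - ev n1p n2p n3p; omega
            have r56 : (n + i + i3 - k - i2 - l2 - 1) % 2 = 0 := by clear * - ev n1p n2p n3p; omega
            clear * - al b c u1 D2 kk44 kk45 kk46 kk47 kk48 kk49 kk50 kk51 kk52 kk53 kk54 r55 r56
            exact midP al (n + i + i3 - k - i2 - l2 - 1) (k + l + l2 + i3 - n + 2) (k + l + i2 + 2 * l2 - 2 * n + 4) (k + i2 + l2 - n - i + 2) (n + i3 - i2 - l2 - 1) (by omega) (fun t h1 h2 => (qa u1 al 0 t ((k + l + l2 + i3 - n + 2) - t) (by omega))) (fun t h1 h2 => (cE (cE (pb c al (-1) t (t + (n + i2 - k - l - 1)) (by omega)) (pb b al 0 (t + (n + i2 - k - l - 1)) (t + (n + i + i2 - 2 * k - l - 1)) (by omega))) (pb (show Par W (i3 + 1) (n + i3 - i2 - l2 - 1) (2 * i2 + l2 - k - l - i3) from fun t h1 h2 => (cE (sh al (-1) t (t + (-n)) (by omega)) (cE (pb D2 al (-1) (t + (-n)) (t + (i2 + l2 - i3 + 1)) (by omega)) (pb c al 0 (t + (i2 + l2 - i3 + 1))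 (t + (2 * i2 + l2 - k - l - i3)) (by omega))))) al 0 (t + (n + i + i2 - 2 * k - l - 1)) (t + (n + i + i3 - k - i2 - l2 - 1)) (by omega))))
      · have kk57 : (k + i2 + l2 + 2) ≤ (n + i + i3) := by clear * - b1 y21 z4 z5; omega
        have kk58 : (i + k + 2 * l + l2 + i3 + 5) ≤ (n + 2 * Q + i2) := by clear * - b0 z5; omega
        have kk59 : (k + i2 + l2 + 3) ≤ (n + i + i3) := by clear * - b1 y21 z4 z5; omega
        have kk60 : (3 * i2 + 3 * l2 + 3) ≤ (n + i + k + 2 * l + i3) := by clear * - b1 y21 z4 z5; omega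
        have kk61 : (k + l) ≤ (i2 + l2) := by clear * - y20; omega
        have kk62 : (n) ≤ (k + l + l2 + 2) := by clear * - b1 y21 z4 z5; omega
        have kk63 : (i + l) ≤ (i2 + l2) := by clear * - y20 z3 z4 z5; omega
        have kk64 : (i + k + l) ≤ (2 * i2 + l2) := by clear * - b0 b1 y22 y7 z4 z5; omega
        have kk65 : (i + l + l2 + 2) ≤ (n) := by clear * - b0 y22 y3 z5; omega
        have kk66 : (2 * i2 + l2) ≤ (i + k + 2 * l + 1) := by clear * - b1 y21 z4 z5; omega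
        have kk67 : (i2) ≤ (i + l + 1) := by clear * - b1 y21 z4 z5; omega
        have r68 : (k + l + l2 + i3 - n + 2) % 2 = 0 := by clear * - ev n1p n2p n3p; omega
        have r69 : (n + i + i3 - k - i2 - l2 - 1) % 2 = 0 := by clear * - ev n1p n2p n3p; omega
        clear * - al b c u2 D2 kk57 kk58 kk59 kk60 kk61 kk62 kk63 kk64 kk65 kk66 kk67 r68 r69
        exact midP al (n + i + i3 - k - i2 - l2 - 1) (k + l + l2 + i3 - n + 2) (k + l + l2 - n + 3) (k + i2 + l2 - n - i + 2) (i + k + 2 * l + i3 - 2 * i2 - l2 + 1) (by omega) (fun t h1 h2 => (qa u2 al 0 t ((k + l + l2 + i3 - n + 2) - t) (by omega))) (fun t h1 h2 => (cE (cE (pb c al (-1) t (t + (n + i2 - k - l - 1)) (by omega)) (pb b al 0 (t + (n + i2 - k - l - 1)) (t + (n + i + i2 - 2 * k - l - 1)) (by omega))) (pb (show Par W (i3 + 1) (n + i3 - i2 - l2 - 1) (2 * i2 + l2 - k - l - i3) from fun t h1 h2 => (cE (sh al (-1) t (t + (-n)) (by omega)) (cE (pb D2 al (-1) (t + (-n)) (t + (i2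 + l2 - i3 + 1)) (by omega)) (pb c al 0 (t + (i2 + l2 - i3 + 1)) (t + (2 * i2 + l2 - k - l - i3)) (by omega))))) al 0 (t + (n + i + i2 - 2 * k - l - 1)) (t + (n + i + i3 - k - i2 - l2 - 1)) (by omega))))
    · by_cases v4 : (i + k + 2 * l + i3 + 1) ≤ (Q + 2 * i2 + l2)
      · have kk70 : (i2) ≤ (i + l) := by clear * - b1 y14 y21; omega
        have kk71 : (3 * i2 + 4 * l2 + 5) ≤ (2 * n + i + l + 2 * i3) := by clear * - b1 y21; omega
        have kk72 : (7 * i2 + 4 * l2) ≤ (3 * i + 4 * k + 7 * l + 1) := by clear * - b1 y14 y21; omega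
        have kk73 : (Q) ≤ (l2 + i3 + 1) := by clear * - b1 y14 y21 y22 y3; omega
        have kk74 : (n + i3) ≤ (k + l + l2 + 2) := by clear * - y14; omega
        have kk75 : (i) ≤ (i2) := by clear * - b1 v4 y14 y21 y22 y7; omega
        have kk76 : (i + l) ≤ (i2 + l2) := by clear * - y19; omega
        have kk77 : (2 * k + 2 * l) ≤ (2 * i2 + 2 * l2) := by clear * - y20; omega
        have kk78 : (i + k + 2 * l + i3 + 1) ≤ (Q + 2 * i2 + l2) := by clear * - v4; omega
        have r79 : (2 * i2 + 2 * l2 - 2 * n + 2) % 2 = 0 := by clear * - ev n1p n2p n3p; omega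
        have r80 : (i + l - i2 + 1) % 2 = 0 := by clear * - ev n1p n2p n3p; omega
        clear * - al b c u2 D1 kk70 kk71 kk72 kk73 kk74 kk75 kk76 kk77 kk78 r79 r80
        exact midP al (i + l - i2 + 1) (2 * i2 + 2 * l2 - 2 * n + 2) (3 * i2 + 2 * l2 - n - i - k - 2 * l + 1) (k + i2 - n - i + 1) (i + k + 2 * l - n - i2 + 2) (by omega) (fun t h1 h2 => (cE (cE (cI (qf c al (-1) t (t + (n + k + l - i2 + 1)) (by omega)) (ab u2 al 1 (t + (n + k + l - i2 + 1)) ((i2 + l2 + i3 - n + 1) - t) (by omega))) (qf D1 al 0 ((i2 + l2 + i3 - n + 1) - t) ((2 * i2 + 2 * l2 - n + 2) - t) (by omega))) (sh al (-1) ((2 * i2 + 2 * l2 - n + 2) - t) ((2 * i2 + 2 * l2 - 2 * n + 2) - t) (by omega)))) (fun t h1 h2 => (cE (cE (pb b al (-1) t (t + (n + i - k)) (by omega)) (qf c al 0 (t + (n + i - k)) (t + (n + i + l - i2 + 1)) (by omega))) (sh al (-1) (t + (n + i + l - i2 + 1)) (t + (i + l - i2 + 1)) (by omega))))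
      · have kk81 : (i2) ≤ (i + l) := by clear * - b0 b1 v4 y14 z4; omega
        have kk82 : (i + 2 * k + 3 * l + 2 * l2 + 7) ≤ (2 * n + 2 * Q + i2) := by clear * - b0 z4; omega
        have kk83 : (2 * k + l + 2 * i3 + 1) ≤ (2 * Q + i + i2 + 2 * l2) := by clear * - b0 b1 v4 y14 z4; omega
        have kk84 : (3 * i2 + 2 * l2 + 2 * i3 + 1) ≤ (2 * Q + i + 2 * k + 3 * l) := by clear * - b0 b1 v4 y14 z4; omega
        have kk85 : (Q) ≤ (l2 + i3 + 1) := by clear * - v4 y19 y20; omega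
        have kk86 : (n + i3) ≤ (k + l + l2 + 2) := by clear * - y14; omega
        have kk87 : (i) ≤ (i2) := by clear * - b0 b1 v4 y14 y22 y7 z4; linarith
        have kk88 : (i + l) ≤ (i2 + l2) := by clear * - y19; omega
        have kk89 : (2 * k + 2 * l) ≤ (2 * i2 + 2 * l2) := by clear * - y20; omega
        have kk90 : (Q + 2 * i2 + l2) ≤ (i + k + 2 * l + i3 + 1) := by clear * - v4; omega
        have r91 : (2 * i2 + 2 * l2 - 2 * n + 2) % 2 = 0 := by clear * - ev n1p n2p n3p; omega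
        have r92 : (i + l - i2 + 1) % 2 = 0 := by clear * - ev n1p n2p n3p; omega
        clear * - al b c u2 D1 kk81 kk82 kk83 kk84 kk85 kk86 kk87 kk88 kk89 kk90 r91 r92
        exact midP al (i + l - i2 + 1) (2 * i2 + 2 * l2 - 2 * n + 2) (i2 + l2 + i3 - n - Q + 2) (k + i2 - n - i + 1) (i + k + 2 * l - n - i2 + 2) (by omega) (fun t h1 h2 => (cE (cE (cI (qf c al (-1) t (t + (n + k + l - i2 + 1)) (by omega)) (ab u2 al 1 (t + (n + k + l - i2 + 1)) ((i2 + l2 + i3 - n + 1) - t) (by omega))) (qf D1 al 0 ((i2 + l2 + i3 - n + 1) - t) ((2 * i2 + 2 * l2 - n + 2) - t) (by omega))) (sh al (-1) ((2 * i2 + 2 * l2 - n + 2) - t) ((2 * i2 + 2 * l2 - 2 * n + 2) - t) (by omega)))) (fun t h1 h2 => (cE (cE (pb b al (-1) t (t + (n + i - k)) (by omega)) (qf c al 0 (t + (n + i - k)) (t + (n + i + l - i2 + 1)) (by omega))) (sh al (-1) (t + (n + i + l - i2 + 1)) (t + (i + l - i2 + 1)) (by omega))))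
  · by_cases z6 : (k) ≤ (i + 2 * i3)
    · have kk93 : (i + 1) ≤ (k) := by clear * - y19 y21; omega
      have kk94 : (k) ≤ (i + 2 * i3) := by clear * - z6; omega
      have kk95 : (2 * n + i) ≤ (k + 2 * l + 2 * l2 + 2 * i3 + 4) := by clear * - b1 y19 y21 y22 z3; omega
      have kk96 : (2 * n + 2 * i2) ≤ (i + 3 * k + 4 * l + 4) := by clear * - b1 y19 y21 z3; omega
      have kk97 : (k + l + 2) ≤ (n) := by clear * - y15 y16 y20; omega
      have kk98 : (n + i3) ≤ (k + l + l2 + 2) := by clear * - y14; omega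
      have kk99 : (l2 + i3 + 2) ≤ (n) := by clear * - y12 y14 y15 y16 y7; omega
      have kk100 : (i + k + l + 2) ≤ (n + i2) := by clear * - b0 y14 y15 y16 y17 y20 y7; linarith
      have r101 : (i2 + l2 + i3 + 1) % 2 = 0 := by clear * - ev n1p n2p n3p; omega
      have r102 : (k - i) % 2 = 0 := by clear * - ev n1p n2p n3p; omega
      clear * - al b c u1 kk93 kk94 kk95 kk96 kk97 kk98 kk99 kk100 r101 r102
      exact midP al (k - i) (i2 + l2 + i3 + 1) (n + i2 - k - l - 1) (i + 1) (k + l + 1) (by omega) (fun t h1 h2 => (cI (qf c al 0 t (t + (k + l - i2 + 1)) (by omega)) (qa u1 al 1 (t + (k + l - i2 + 1)) ((i2 + l2 + i3 + 1) - t) (by omega)))) (fun t h1 h2 => (qf b al 0 t (t + (k - i)) (by omega)))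
    · have kk103 : (k + i2 + l2 + 2) ≤ (n + i + i3) := by clear * - b1 y19 y21 z3 z6; omega
      have kk104 : (n + i) ≤ (k + i2 + l2 + i3 + 1) := by clear * - b0 b1 y21 y22 y3 z3; omega
      have kk105 : (n + i2) ≤ (i + k + 2 * l + l2 + i3 + 3) := by clear * - b1 y19 y21 z3 z6; omega
      have kk106 : (i + i2 + l2 + 1) ≤ (n + k + i3) := by clear * - b1 y19 y21 z3 z6; omega
      have kk107 : (k + l) ≤ (i2 + l2) := by clear * - y20; omega
      have kk108 : (n) ≤ (k + l + l2 + 2) := by clear * - b1 y19 y21 z3; omega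
      have kk109 : (i + l) ≤ (i2 + l2) := by clear * - y19; omega
      have kk110 : (i + k + l) ≤ (2 * i2 + l2) := by clear * - b0 b1 y19 y21 y22 y7 z3 z6; linarith
      have kk111 : (n) ≤ (i + l + l2 + 2) := by clear * - b1 y21 z3; omega
      have kk112 : (n + i2) ≤ (i + k + 2 * l + 2) := by clear * - b1 y21 z3; omega
      have kk113 : (k + l + i2 + 2 * l2 + 4) ≤ (2 * n) := by clear * - b1 y21 z6; omega
      have kk114 : (k + i2 + l2 + 2) ≤ (n + i) := by clear * - b1 y21 z3 z6; omega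
      have r115 : (k + l + l2 + i3 - n + 2) % 2 = 0 := by clear * - ev n1p n2p n3p; omega
      have r116 : (n + i + i3 - k - i2 - l2 - 1) % 2 = 0 := by clear * - ev n1p n2p n3p; omega
      clear * - al b c u1 D2 kk103 kk104 kk105 kk106 kk107 kk108 kk109 kk110 kk111 kk112 kk113 kk114 r115 r116
      exact midP al (n + i + i3 - k - i2 - l2 - 1) (k + l + l2 + i3 - n + 2) (0) (k + i2 + l2 - n - i + 2) (n + i3 - i2 - l2 - 1) (by omega) (fun t h1 h2 => (qa u1 al 0 t ((k + l + l2 + i3 - n + 2) - t) (by omega))) (fun t h1 h2 => (cE (cE (pb c al (-1) t (t + (n + i2 - k - l - 1)) (by omega)) (pb b al 0 (t + (n + i2 - k - l - 1)) (t + (n + i + i2 - 2 * k - l - 1)) (by omega))) (pb (show Par W (i3 + 1) (n + i3 - i2 - l2 - 1) (2 * i2 + l2 - k - l - i3) from fun t h1 h2 => (cE (sh al (-1) t (t + (-n)) (by omega)) (cE (pb D2 al (-1) (t + (-n)) (t + (i2 + l2 - i3 + 1)) (by omega)) (pb c al 0 (t + (i2 + l2 - i3 + 1)) (t + (2 * i2 + l2 - k - l - i3))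 (by omega))))) al 0 (t + (n + i + i2 - 2 * k - l - 1)) (t + (n + i + i3 - k - i2 - l2 - 1)) (by omega))))

theorem t2b_1 {W : ℤ → G} {n Q i j k l i2 l2 i3 : ℤ} (al : AL W n Q)
    (hy : (0) ≤ (i) ∧ (i) ≤ (j) ∧ (j + 1) ≤ (Q) ∧ (Q) ≤ (k) ∧ (k + 1) ≤ (n) ∧ (Q) ≤ (i + l + 1) ∧ (k + l + 2) ≤ (n) ∧ (Q) ≤ (i2) ∧ (i2) ≤ (i + l + 1) ∧ (Q) ≤ (i2 + l2 + 1) ∧ (i2 + l2 + 2) ≤ (n) ∧ (n) ≤ (k + l + l2 + 2) ∧ (k + l + l2 + 3) ≤ (n + Q) ∧ (0) ≤ (i3) ∧ (n + i3) ≤ (k + l + l2 + 2) ∧ (k + i2 + l2 + 2) ≤ (n + j + i3) ∧ (j + i3 + 1) ≤ (k) ∧ (k + i2 + l2 + 2) ≤ (n + i3) ∧ (i + 2 * i2 + 1) ≤ (2 * Q + k) ∧ (i + l + 1) ≤ (i2 + l2) ∧ (k + l) ≤ (i2 + l2) ∧ (i2 + l2) ≤ (k + l) ∧ (i + 1) ≤ (i3))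
    (a1 : Par W (0) (j) (k - j))
    (a2 : Par W (Q + j - k) (j) (k - j))
    (s1 : Ant W (0) (i) (i + j))
    (s2 : Ant W (j + 1) (Q) (i + j))
    (b : Par W (i + 1) (i + l + 1) (k - i))
    (tt : Ant W (Q) (i2) (i + l + i2 + 1))
    (c : Par W (i2 + 1) (i2 + l2 + 1) (k + l - i2 + 1))
    (u1 : Ant W (0) (i3) (k + l + l2 + i3 - n + 2))
    (u2 : Ant W (k + l + l2 - n + 3) (Q) (k + l + l2 + i3 - n + 2))
    (D1 : Par W (i3 + 1) (Q) (i2 + l2 - i3 + 1))
    (D2 : Par W (i2 + l2 + 2) (n) (i3 - i2 - l2 - 1))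
    {L : ℤ} (mx : ∀ a b g, 0 < g → g < n → Par W a b g → b - a ≤ L)
    (hL : L ≤ (n - j - 3) ∧ L ≤ (n + Q - k - 3) ∧ L ≤ (n - l - 3) ∧ L ≤ (n + i - k - 2) ∧ L ≤ (n - l2 - 3) ∧ L ≤ (n + i3 - Q - 2) ∧ L ≤ (i2 + l2 - 1) ∧ L ≤ (n + i2 - k - l - 3) ∧ L ≤ (Q + i2 + l2 - i - l - 3))
    (bd0 : Bd W n L (j) (i) (k))
    (bd2 : Bd W n L (k + l + l2 - n + 2) (i3) (i2 + l2 + 1))
    (n1 : Nd W (j) (i) (k))
    (n2 : Nd W (i + l + 1) (i2) (k + l + 1))
    (n3 : Nd W (k + l + l2 - n + 2) (i3) (i2 + l2 + 1))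
    (b0 : (i + l + 3) ≤ (Q + i2)) : False := by
  have ev := al.ev
  obtain ⟨y0, y1, y2, y3, y4, y5, y6, y7, y8, y9, y10, y11, y12, y13, y14, y15, y16, y17, y18, y19, y20, y21, y22⟩ := id hy
  have n1p := And.intro n1.p1 n1.p2
  have n2p := And.intro n2.p1 n2.p2
  have n3p := And.intro n3.p1 n3.p2
  by_cases z2 : (4 * k + 3 * l + 5) ≤ (2 * n + i + i2 + 2 * i3)
  · exact t2b_2 al hy a1 a2 s1 s2 b tt c u1 u2 D1 D2 mx hL bd0 bd2 n1 n2 n3 (by clear * - b0; omega) (by clear * - z2; omega)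
  · exact t2b_3 al hy a1 a2 s1 s2 b tt c u1 u2 D1 D2 mx hL bd0 bd2 n1 n2 n3 (by clear * - b0; omega) (by clear * - z2; omega)

theorem t2b {W : ℤ → G} {n Q i j k l i2 l2 i3 : ℤ} (al : AL W n Q)
    (hy : (0) ≤ (i) ∧ (i) ≤ (j) ∧ (j + 1) ≤ (Q) ∧ (Q) ≤ (k) ∧ (k + 1) ≤ (n) ∧ (Q) ≤ (i + l + 1) ∧ (k + l + 2) ≤ (n) ∧ (Q) ≤ (i2) ∧ (i2) ≤ (i + l + 1) ∧ (Q) ≤ (i2 + l2 + 1) ∧ (i2 + l2 + 2) ≤ (n) ∧ (n) ≤ (k + l + l2 + 2) ∧ (k + l + l2 + 3) ≤ (n + Q) ∧ (0) ≤ (i3) ∧ (n + i3) ≤ (k + l + l2 + 2) ∧ (k + i2 + l2 + 2) ≤ (n + j + i3) ∧ (j + i3 + 1) ≤ (k) ∧ (k + i2 + l2 + 2) ≤ (n + i3) ∧ (i + 2 * i2 + 1) ≤ (2 * Q + k) ∧ (i + l + 1) ≤ (i2 + l2) ∧ (k + l) ≤ (i2 + l2) ∧ (i2 + l2) ≤ (k + l) ∧ (i + 1) ≤ (i3))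
    (a1 : Par W (0) (j) (k - j))
    (a2 : Par W (Q + j - k) (j) (k - j))
    (s1 : Ant W (0) (i) (i + j))
    (s2 : Ant W (j + 1) (Q) (i + j))
    (b : Par W (i + 1) (i + l + 1) (k - i))
    (tt : Ant W (Q) (i2) (i + l + i2 + 1))
    (c : Par W (i2 + 1) (i2 + l2 + 1) (k + l - i2 + 1))
    (u1 : Ant W (0) (i3) (k + l + l2 + i3 - n + 2))
    (u2 : Ant W (k + l + l2 - n + 3) (Q) (k + l + l2 + i3 - n + 2))
    (D1 : Par W (i3 + 1) (Q) (i2 + l2 - i3 + 1))
    (D2 : Par W (i2 + l2 + 2) (n) (i3 - i2 - l2 - 1))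
    {L : ℤ} (mx : ∀ a b g, 0 < g → g < n → Par W a b g → b - a ≤ L)
    (hL : L ≤ (n - j - 3) ∧ L ≤ (n + Q - k - 3) ∧ L ≤ (n - l - 3) ∧ L ≤ (n + i - k - 2) ∧ L ≤ (n - l2 - 3) ∧ L ≤ (n + i3 - Q - 2) ∧ L ≤ (i2 + l2 - 1) ∧ L ≤ (n + i2 - k - l - 3) ∧ L ≤ (Q + i2 + l2 - i - l - 3))
    (bd0 : Bd W n L (j) (i) (k))
    (bd2 : Bd W n L (k + l + l2 - n + 2) (i3) (i2 + l2 + 1))
    (n1 : Nd W (j) (i) (k))
    (n2 : Nd W (i + l + 1) (i2) (k + l + 1))
    (n3 : Nd W (k + l + l2 - n + 2) (i3) (i2 + l2 + 1)) : False := by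
  have ev := al.ev
  obtain ⟨y0, y1, y2, y3, y4, y5, y6, y7, y8, y9, y10, y11, y12, y13, y14, y15, y16, y17, y18, y19, y20, y21, y22⟩ := id hy
  have n1p := And.intro n1.p1 n1.p2
  have n2p := And.intro n2.p1 n2.p2
  have n3p := And.intro n3.p1 n3.p2
  by_cases z1 : (Q + i2) ≤ (i + l + 2)
  · have kk1 : (k + l + 2) ≤ (n + i2) := by clear * - y12 y9; omega
    have kk2 : (i2) ≤ (k + l) := by clear * - y13 y14 y15 y16; omega
    have kk3 : (Q + i2) ≤ (i + l + 2) := by clear * - z1; omega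
    clear * - al c mx hL kk1 kk2 kk3
    exact absurd (mx (k + l + 2) (k + l + l2 + 2) (n + i2 - k - l - 1) (by omega) (by omega) fun t h1 h2 => (cE (pb c al 0 t (t + (i2 - k - l - 1)) (by omega)) (sh al 1 (t + (i2 - k - l - 1)) (t + (n + i2 - k - l - 1)) (by omega)))) (by omega)
  · exact t2b_1 al hy a1 a2 s1 s2 b tt c u1 u2 D1 D2 mx hL bd0 bd2 n1 n2 n3 (by clear * - z1; omega)

end Pool.Agent.MP_a38735_al.WL
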