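import Pool.Agent.MP_a38735_al.WT

set_option autoImplicit false
set_option linter.unusedVariables false

namespace Pool.Agent.MP_a38735_al.WL

variable {G : Type*} [Group G]

theorem t1a_11 {W : ℤ → G} {n Q i j k l i2 l2 i3 : ℤ} (al : AL W n Q)
    (hy : (0) ≤ (i) ∧ (i) ≤ (j) ∧ (j + 1) ≤ (Q) ∧ (Q) ≤ (k) ∧ (k + 1) ≤ (n) ∧ (Q) ≤ (i + l + 1) ∧ (k + l + 2) ≤ (n) ∧ (Q) ≤ (i2) ∧ (i2) ≤ (i + l + 1) ∧ (Q) ≤ (i2 + l2 + 1) ∧ (i2 + l2 + 2) ≤ (n) ∧ (n) ≤ (k + l + l2 + 2) ∧ (k + l + l2 + 3) ≤ (n + Q) ∧ (0) ≤ (i3) ∧ (n + i3) ≤ (k + l + l2 + 2) ∧ (k + i2 + l2 + 2) ≤ (n + j + i3) ∧ (j + i3 + 1) ≤ (k) ∧ (k + i2 + l2 + 2) ≤ (n + i3) ∧ (i + 2 * i2 + 1) ≤ (2 * Q + k) ∧ (i + l + 1) ≤ (i2 + l2) ∧ (i2 + l2 + 1) ≤ (k + l) ∧ (i + 1) ≤ (i3))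
    (a1 : Par W (0) (j) (k - j))
    (a2 : Par W (Q + j - k) (j) (k - j))
    (s1 : Ant W (0) (i) (i + j))
    (s2 : Ant W (j + 1) (Q) (i + j))
    (b : Par W (i + 1) (i + l + 1) (k - i))
    (tt : Ant W (Q) (i2) (i + l + i2 + 1))
    (c : Par W (i2 + 1) (i2 + l2 + 1) (k + l - i2 + 1))
    (u1 : Ant W (0) (i3) (k + l + l2 + i3 - n + 2))
    (u2 : Ant W (k + l + l2 - n + 3) (Q) (k + l + l2 + i3 - n + 2))
    (D1 : Par W (i3 + 1) (Q) (i2 + l2 - i3 + 1))
    (D2 : Par W (i2 + l2 + 2) (n) (i3 - i2 - l2 - 1))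
    {L : ℤ} (mx : ∀ a b g, 0 < g → g < n → Par W a b g → b - a ≤ L)
    (hL : L ≤ (n - j - 3) ∧ L ≤ (n + Q - k - 3) ∧ L ≤ (n - l - 3) ∧ L ≤ (n + i - k - 2) ∧ L ≤ (n - l2 - 3) ∧ L ≤ (n + i3 - Q - 2) ∧ L ≤ (i2 + l2 - 1) ∧ L ≤ (n + i2 - k - l - 3) ∧ L ≤ (Q + i2 + l2 - i - l - 3))
    (bd0 : Bd W n L (j) (i) (k))
    (bd2 : Bd W n L (k + l + l2 - n + 2) (i3) (i2 + l2 + 1))
    (n1 : Nd W (j) (i) (k))
    (n2 : Nd W (i + l + 1) (i2) (k + l + 1))
    (n3 : Nd W (k + l + l2 - n + 2) (i3) (i2 + l2 + 1))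
    (b0 : (i + 2 * l + 3) ≤ (Q + i2 + l2))
    (b1 : (i + l + 3) ≤ (Q + i2))
    (b2 : (k + 2 * l + 2 * l2 + 6) ≤ (2 * n + j))
    (b3 : (n + i3) ≤ (j + l + l2 + 2))
    (b4 : (j + 2 * i3 + 1) ≤ (k))
    (b5 : (2 * Q + i2 + l2) ≤ (n + i + j + i3))
    (b6 : (n + i + j + i2) ≤ (3 * k + l + 1)) : False := by
  have ev := al.ev
  obtain ⟨y0, y1, y2, y3, y4, y5, y6, y7, y8, y9, y10, y11, y12, y13, y14, y15, y16, y17, y18, y19, y20, y21⟩ := id hy
  have n1p := And.intro n1.p1 n1.p2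
  have n2p := And.intro n2.p1 n2.p2
  have n3p := And.intro n3.p1 n3.p2
  by_cases z15 : (i2) ≤ (Q)
  · by_cases z16 : (i + i2 + l2 + 2) ≤ (2 * k)
    · by_cases v5 : (2 * k + l + 2) ≤ (n + i2)
      · have kk109 : (k) ≤ (i2 + l2) := by clear * - b3 b4 v5 y13; omega
        have kk110 : (i2 + l2 + 1) ≤ (k + l) := by clear * - y20; omega
        have kk111 : (j + 1) ≤ (k) := by clear * - b4 y13; omega
        have kk112 : (0) ≤ (j) := by clear * - b2 b3 b4 y13; omega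
        have kk113 : (k) ≤ (i + i2 + l2 + 1) := by clear * - b3 b6 v5 y0 y21; omega
        have kk114 : (i + i2 + l2 + 2) ≤ (2 * k) := by clear * - z16; omega
        have kk115 : (n) ≤ (k + l + l2 + 2) := by clear * - b3 b4 y13; omega
        have kk116 : (l + l2 + 3) ≤ (n) := by clear * - b2 b4 y13; omega
        have kk117 : (n) ≤ (j + l + l2 + 4) := by clear * - b3 y13; omega
        have kk118 : (i2) ≤ (k) := by clear * - b0 b5 b6 y14 y16 z15; omega
        have kk119 : (i2 + l2) ≤ (k + l) := by clear * - y20; omega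
        have kk120 : (2 * k + l + 1) ≤ (n + i + i2) := by clear * - v5 y0; omega
        have kk121 : (2 * k + l + 2) ≤ (n + i2) := by clear * - v5; omega
        have kk122 : (i + i2 + l2 + 1) ≤ (2 * k) := by clear * - z16; omega
        have r123 : (2 * k + l - n - i - i2 + 1) % 2 = 0 := by clear * - ev n1p n2p n3p; omega
        have r124 : (k - j) % 2 = 0 := by clear * - ev n1p n2p n3p; omega
        clear * - al a1 b c n3 kk109 kk110 kk111 kk112 kk113 kk114 kk115 kk116 kk117 kk118 kk119 kk120 kk121 kk122 r123 r124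
        exact ivt0 (-n) (j - n) (k - j) (i + i2 - 2 * k - l - 1) (i + i2 + l2 - n - k + 1) (2 * k + l - n - i - i2 + 1) (i + i2 + l2 - n - k + 1) (k + l + l2 - 2 * n + 2) 0 (fun t h1 h2 => (cE (qf a1 al (-1) t (t + (n + k - j)) (by omega)) (sh al (-1) (t + (n + k - j)) (t + (k - j)) (by omega)))) (fun t h1 h2 => (cE (sh al 3 t (t + (3 * n)) (by omega)) (cE (pb (show Par W (2 * k + l - i2 + 2) (k + l + l2 + 2) (n + i + i2 - 2 * k - l - 1) from fun t h1 h2 => (cE (sh al (-1) t (t + (-n)) (by omega)) (cE (cE (pb c al (-1) (t + (-n)) (t + (i2 - k - l - 1)) (by omega)) (pb b al 0 (t + (i2 - k - l - 1)) (t + (i + i2 - 2 * k - l - 1)) (by omega))) (sh al 1 (t + (i + i2 - 2 * k - l - 1)) (t + (n + i + i2 - 2 * k - l - 1)) (by omega))))) al 1 (t + (3 * n)) (t + (n + 2 * k + l - i - i2 + 1)) (by omega)) (sh al (-2) (t + (n + 2 * k + l - i - i2 + 1)) (t + (2 * k + l - n - i - i2 + 1)) (by omega))))) (fun hh => n3.f0 (rEE (sh al (-1)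 (k + l + l2 - n + 2) (k + l + l2 - 2 * n + 2) (by omega)) (cE (pb b al 0 (i2 + l2 + 1) (i + i2 + l2 - k + 1) (by omega)) (sh al (-1) (i + i2 + l2 - k + 1) (i + i2 + l2 - n - k + 1) (by omega))) (Eq.symm (Eq.symm hh)))) (by omega) (by omega)
      · have kk125 : (k) ≤ (i2 + l2) := by clear * - b0 b3 b5 y17 y2 y7; omega
        have kk126 : (i2 + l2 + 1) ≤ (k + l) := by clear * - y20; omega
        have kk127 : (j + 1) ≤ (k) := by clear * - b4 y13; omega
        have kk128 : (0) ≤ (j) := by clear * - b2 b3 b4 y13; omega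
        have kk129 : (k) ≤ (i + i2 + l2 + 1) := by clear * - b0 b3 b5 y0 y17 y2 y7; linarith
        have kk130 : (i + i2 + l2 + 2) ≤ (2 * k) := by clear * - z16; omega
        have kk131 : (n) ≤ (k + l + l2 + 2) := by clear * - b3 b4 y13; omega
        have kk132 : (l + l2 + 3) ≤ (n) := by clear * - b2 b4 y13; omega
        have kk133 : (2 * k) ≤ (j + i2 + l2 + 2) := by clear * - b0 b3 y0 y17 y2 y7; omega
        have kk134 : (i2) ≤ (k) := by clear * - b5 v5 y16 y19 z15; omega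
        have kk135 : (i2 + l2) ≤ (k + l) := by clear * - y20; omega
        have kk136 : (n + i2) ≤ (2 * k + l + 2) := by clear * - v5; omega
        have kk137 : (0) ≤ (i + 1) := by clear * - y0; omega
        have kk138 : (l + l2 + 2) ≤ (n) := by clear * - b2 b4 y13; omega
        have kk139 : (i + i2 + l2 + 1) ≤ (2 * k) := by clear * - z16; omega
        have r140 : (2 * k + l - n - i - i2 + 1) % 2 = 0 := by clear * - ev n1p n2p n3p; omega
        have r141 : (k - j) % 2 = 0 := by clear * - ev n1p n2p n3p; omega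
        clear * - al a1 b c n3 kk125 kk126 kk127 kk128 kk129 kk130 kk131 kk132 kk133 kk134 kk135 kk136 kk137 kk138 kk139 r140 r141
        exact ivt0 (-n) (j - n) (k - j) (i - n + 1) (i + i2 + l2 - n - k + 1) (2 * k + l - n - i - i2 + 1) (i + i2 + l2 - n - k + 1) (k + l + l2 - 2 * n + 2) 0 (fun t h1 h2 => (cE (qf a1 al (-1) t (t + (n + k - j)) (by omega)) (sh al (-1) (t + (n + k - j)) (t + (k - j)) (by omega)))) (fun t h1 h2 => (cE (sh al 3 t (t + (3 * n)) (by omega)) (cE (pb (show Par W (2 * k + l - i2 + 2) (k + l + l2 + 2) (n + i + i2 - 2 * k - l - 1) from fun t h1 h2 => (cE (sh al (-1) t (t + (-n)) (by omega)) (cE (cE (pb c al (-1) (t + (-n)) (t + (i2 - k - l - 1)) (by omega)) (pb b al 0 (t + (i2 - k - l - 1)) (t + (i + i2 - 2 * k - l - 1)) (by omega))) (sh al 1 (t + (i + i2 - 2 * k - l - 1)) (t + (n + i + i2 - 2 * k - l - 1)) (by omega))))) al 1 (t + (3 * n)) (t + (n + 2 * k + l - i - i2 + 1)) (by omega)) (sh al (-2)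 (t + (n + 2 * k + l - i - i2 + 1)) (t + (2 * k + l - n - i - i2 + 1)) (by omega))))) (fun hh => n3.f0 (rEE (sh al (-1) (k + l + l2 - n + 2) (k + l + l2 - 2 * n + 2) (by omega)) (cE (pb b al 0 (i2 + l2 + 1) (i + i2 + l2 - k + 1) (by omega)) (sh al (-1) (i + i2 + l2 - k + 1) (i + i2 + l2 - n - k + 1) (by omega))) (Eq.symm (Eq.symm hh)))) (by omega) (by omega)
    · by_cases z17 : (n + i) ≤ (k + i2 + l2 + i3 + 1)
      · by_cases z18 : (2 * j + k + 2 * l + 3) ≤ (n + i + i2 + l2 + i3)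
        · by_cases v6 : (i2 + l2) ≤ (j + l)
          · have kk142 : (k + i2 + l2 + 2) ≤ (n + i + i3) := by clear * - v6 z18; omega
            have kk143 : (2 * j + k + 2 * l + 3) ≤ (n + i + i2 + l2 + i3) := by clear * - z18; omega
            have kk144 : (2 * j + 3 * k + 2 * l + 1) ≤ (n + 3 * i + i2 + 3 * l2 + i3) := by clear * - b4 b5 z15 z16 z17 z18; omega
            have kk145 : (3 * k + i2 + 1) ≤ (n + 3 * i + l2 + i3) := by clear * - b4 b5 v6 z15 z16 z17 z18; linarith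
            have kk146 : (i2) ≤ (k) := by clear * - b4 b5 z15 z17; omega
            have kk147 : (i2 + l2) ≤ (k + l) := by clear * - b4 v6 z17 z18; omega
            have kk148 : (n) ≤ (k + l + l2 + 2) := by clear * - b4 b5 v6 z15 z16 z17 z18; linarith
            have kk149 : (i3) ≤ (j) := by clear * - b2 b3 b6 z16; omega
            have kk150 : (i) ≤ (i2) := by clear * - b2 b4 v6 y21 z16 z17 z18; linarith
            have kk151 : (i + l + l2 + 2) ≤ (n) := by clear * - b2 b4 y21; omega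
            have kk152 : (i2 + l2) ≤ (j + l) := by clear * - v6; omega
            have kk153 : (n + i) ≤ (j + k + l + 2) := by clear * - b0 b6 v6 y7 z16; omega
            have r154 : (n + 2 * k + l + l2 + i3 - j + 2) % 2 = 0 := by clear * - ev n1p n2p n3p; omega
            have r155 : (n + i + i3 - k - i2 - l2 - 1) % 2 = 0 := by clear * - ev n1p n2p n3p; omega
            clear * - al a1 b c u1 D2 kk142 kk143 kk144 kk145 kk146 kk147 kk148 kk149 kk150 kk151 kk152 kk153 r154 r155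
            exact midP al (n + i + i3 - k - i2 - l2 - 1) (n + 2 * k + l + l2 + i3 - j + 2) (2 * k + l - i + 2) (2 * k + l - i + 2) (n + i + l + i3 - i2 + 1) (by omega) (fun t h1 h2 => (cE (cI (pb a1 al 1 t (t + (j - n - k)) (by omega)) (qa u1 al 0 (t + (j - n - k)) ((2 * k + l + l2 + i3 - j + 2) - t) (by omega))) (sh al 1 ((2 * k + l + l2 + i3 - j + 2) - t) ((n + 2 * k + l + l2 + i3 - j + 2) - t) (by omega)))) (fun t h1 h2 => (cE (cE (qf (show Par W (2 * k + l - i2 + 2) (k + l + l2 + 2) (n + i + i2 - 2 * k - l - 1) from fun t h1 h2 => (cE (sh al (-1) t (t + (-n)) (by omega)) (cE (cE (pb c al (-1) (t + (-n)) (t + (i2 - k - l - 1)) (by omega)) (pb b al 0 (t + (i2 - k - l - 1)) (t + (i + i2 - 2 * k - l - 1)) (by omega))) (sh al 1 (t + (i + i2 - 2 * k - l - 1)) (t + (n + i + i2 - 2 * k - l - 1)) (by omega))))) al 0 t (t + (n + i + i2 - 2 * k - l - 1)) (by omega)) (pb (show Par W (k + l + i3 - i2 - l2 + 1) (n + i3 - i2 - l2 -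 1) (2 * i2 + l2 - k - l - i3) from fun t h1 h2 => (cE (sh al (-1) t (t + (-n)) (by omega)) (cE (pb D2 al (-1) (t + (-n)) (t + (i2 + l2 - i3 + 1)) (by omega)) (pb c al 0 (t + (i2 + l2 - i3 + 1)) (t + (2 * i2 + l2 - k - l - i3)) (by omega))))) al 1 (t + (n + i + i2 - 2 * k - l - 1)) (t + (i + i3 - k - i2 - l2 - 1)) (by omega))) (sh al 1 (t + (i + i3 - k - i2 - l2 - 1)) (t + (n + i + i3 - k - i2 - l2 - 1)) (by omega))))
          · by_cases v7 : (n + i) ≤ (k + i2 + l2 + 2)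
            · have kk156 : (k + i2 + l2 + 2) ≤ (n + i + i3) := by clear * - y0 y17; omega
              have kk157 : (k + i2 + l2 + 3) ≤ (n + i + i3) := by clear * - y0 y17 ev n1p n2p n3p; omega
              have kk158 : (3 * k + i2 + 1) ≤ (n + 3 * i + l2 + i3) := by clear * - b3 b5 y20 z15 z16 z18; omega
              have kk159 : (3 * k + 3 * i2 + l2 + 1) ≤ (n + 3 * i + 2 * j + 2 * l + i3) := by clear * - b3 y0 y17; omega
              have kk160 : (i2) ≤ (k) := by clear * - b4 b5 z15 z17; omega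
              have kk161 : (i2 + l2) ≤ (k + l) := by clear * - y20; omega
              have kk162 : (n) ≤ (k + l + l2 + 2) := by clear * - b4 b5 v6 v7 y20 z15 z16; linarith
              have kk163 : (i3) ≤ (j) := by clear * - b2 b3 b6 z16; omega
              have kk164 : (i) ≤ (i2) := by clear * - b2 b4 v7 y20 y21 z16; omega
              have kk165 : (i + l + l2 + 2) ≤ (n) := by clear * - b2 b4 y21; omega
              have kk166 : (j + l) ≤ (i2 + l2) := by clear * - v6; omega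
              have kk167 : (n + i) ≤ (k + i2 + l2 + 2) := by clear * - v7; omega
              have r168 : (n + 2 * k + l + l2 + i3 - j + 2) % 2 = 0 := by clear * - ev n1p n2p n3p; omega
              have r169 : (n + i + i3 - k - i2 - l2 - 1) % 2 = 0 := by clear * - ev n1p n2p n3p; omega
              clear * - al a1 b c u1 D2 kk156 kk157 kk158 kk159 kk160 kk161 kk162 kk163 kk164 kk165 kk166 kk167 r168 r169
              exact midP al (n + i + i3 - k - i2 - l2 - 1) (n + 2 * k + l + l2 + i3 - j + 2) (2 * k + i2 + l2 - i - j + 2) (2 * k + l - i + 2) (n + i + l + i3 - i2 + 1) (by omega) (fun t h1 h2 => (cE (cI (pb a1 al 1 t (t + (j - n - k)) (by omega)) (qa u1 al 0 (t + (j - n - k)) ((2 * k + l + l2 + i3 - j + 2) - t) (by omega))) (sh al 1 ((2 * k + l + l2 + i3 - j + 2) - t) ((n + 2 * k + l + l2 + i3 - j + 2) - t) (by omega)))) (fun t h1 h2 => (cE (cE (qf (show Par W (2 * k + l - i2 + 2) (k + l + l2 + 2) (n + i + i2 - 2 *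 k - l - 1) from fun t h1 h2 => (cE (sh al (-1) t (t + (-n)) (by omega)) (cE (cE (pb c al (-1) (t + (-n)) (t + (i2 - k - l - 1)) (by omega)) (pb b al 0 (t + (i2 - k - l - 1)) (t + (i + i2 - 2 * k - l - 1)) (by omega))) (sh al 1 (t + (i + i2 - 2 * k - l - 1)) (t + (n + i + i2 - 2 * k - l - 1)) (by omega))))) al 0 t (t + (n + i + i2 - 2 * k - l - 1)) (by omega)) (pb (show Par W (k + l + i3 - i2 - l2 + 1) (n + i3 - i2 - l2 - 1) (2 * i2 + l2 - k - l - i3) from fun t h1 h2 => (cE (sh al (-1) t (t + (-n)) (by omega)) (cE (pb D2 al (-1) (t + (-n)) (t + (i2 + l2 - i3 + 1)) (by omega)) (pb c al 0 (t + (i2 + l2 - i3 + 1)) (t + (2 * i2 + l2 - k - l - i3)) (by omega))))) al 1 (t + (n + i + i2 - 2 * k - l - 1)) (t + (i + i3 - k - i2 - l2 - 1)) (by omega))) (sh al 1 (t + (i + i3 - k - i2 - l2 - 1)) (t + (n + i + i3 - k - i2 - l2 - 1)) (by omega))))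
            · have kk170 : (k + i2 + l2 + 2) ≤ (n + i + i3) := by clear * - v7 z17; omega
              have kk171 : (n + i) ≤ (k + i2 + l2 + i3 + 1) := by clear * - z17; omega
              have kk172 : (n + k) ≤ (i + i2 + 3 * l2 + i3 + 3) := by clear * - b4 b5 z15 z16 z17; omega
              have kk173 : (n + k + i2) ≤ (i + 2 * j + 2 * l + l2 + i3 + 3) := by clear * - b3 v7 z17; omega
              have kk174 : (i2) ≤ (k) := by clear * - b4 b5 z15 z17; omega
              have kk175 : (i2 + l2) ≤ (k + l) := by clear * - y20; omega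
              have kk176 : (n) ≤ (k + l + l2 + 2) := by clear * - b3 b4 v7 z17; omega
              have kk177 : (i3) ≤ (j) := by clear * - b2 b3 b6 z16; omega
              have kk178 : (i) ≤ (i2) := by clear * - b1 b3 b6 v6 v7 y21 y7 z17; linarith
              have kk179 : (i + l + l2 + 2) ≤ (n) := by clear * - b2 b4 y21; omega
              have kk180 : (j + l) ≤ (i2 + l2) := by clear * - v6; omega
              have kk181 : (k + i2 + l2 + 2) ≤ (n + i) := by clear * - v7; omega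
              have r182 : (n + 2 * k + l + l2 + i3 - j + 2) % 2 = 0 := by clear * - ev n1p n2p n3p; omega
              have r183 : (n + i + i3 - k - i2 - l2 - 1) % 2 = 0 := by clear * - ev n1p n2p n3p; omega
              clear * - al a1 b c u1 D2 kk170 kk171 kk172 kk173 kk174 kk175 kk176 kk177 kk178 kk179 kk180 kk181 r182 r183
              exact midP al (n + i + i3 - k - i2 - l2 - 1) (n + 2 * k + l + l2 + i3 - j + 2) (n + k - j) (2 * k + l - i + 2) (n + i + l + i3 - i2 + 1) (by omega) (fun t h1 h2 => (cE (cI (pb a1 al 1 t (t + (j - n - k)) (by omega)) (qa u1 al 0 (t + (j - n - k)) ((2 * k + l + l2 + i3 - j + 2) - t) (by omega))) (sh al 1 ((2 * k + l + l2 + i3 - j + 2) - t) ((n + 2 * k + l + l2 + i3 - j + 2) - t) (by omega)))) (fun t h1 h2 => (cE (cE (qf (show Par W (2 * k + l - i2 + 2) (k + l + l2 + 2) (n + i + i2 - 2 * k - l - 1) from fun t h1 h2 => (cE (sh al (-1) t (t + (-n)) (by omega)) (cE (cE (pb c al (-1) (t +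 (-n)) (t + (i2 - k - l - 1)) (by omega)) (pb b al 0 (t + (i2 - k - l - 1)) (t + (i + i2 - 2 * k - l - 1)) (by omega))) (sh al 1 (t + (i + i2 - 2 * k - l - 1)) (t + (n + i + i2 - 2 * k - l - 1)) (by omega))))) al 0 t (t + (n + i + i2 - 2 * k - l - 1)) (by omega)) (pb (show Par W (k + l + i3 - i2 - l2 + 1) (n + i3 - i2 - l2 - 1) (2 * i2 + l2 - k - l - i3) from fun t h1 h2 => (cE (sh al (-1) t (t + (-n)) (by omega)) (cE (pb D2 al (-1) (t + (-n)) (t + (i2 + l2 - i3 + 1)) (by omega)) (pb c al 0 (t + (i2 + l2 - i3 + 1)) (t + (2 * i2 + l2 - k - l - i3)) (by omega))))) al 1 (t + (n + i + i2 - 2 * k - l - 1)) (t + (i + i3 - k - i2 - l2 - 1)) (by omega))) (sh al 1 (t + (i + i3 - k - i2 - l2 - 1)) (t + (n + i + i3 - k - i2 - l2 - 1)) (by omega))))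
        · have kk184 : (i + 1) ≤ (k) := by clear * - b2 b4 b5 b6 y21 z15 z16 z17 z18; linarith
          have kk185 : (k + 1) ≤ (n + i) := by clear * - b2 b4 b5 b6 y21 z15 z16 z17 z18; linarith
          have kk186 : (n + i2) ≤ (k + 2 * l + 2) := by clear * - b6 y0 y17 z16 z18; omega
          clear * - al b mx hL kk184 kk185 kk186
          exact absurd (mx (i - n + 1) (i + l - n + 1) (k - i) (by omega) (by omega) fun t h1 h2 => (cE (qf b al (-1) t (t + (n + k - i)) (by omega)) (sh al (-1) (t + (n + k - i)) (t + (k - i)) (by omega)))) (by omega)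
      · have kk187 : (i2 + l2 + 1) ≤ (k + l) := by clear * - y20; omega
        have kk188 : (k + l + i3 + 1) ≤ (Q + i2 + l2) := by clear * - b0 b1 b3 b5 b6 z16 z17; linarith
        have kk189 : (j + 1) ≤ (k) := by clear * - b2 b6 z16; omega
        have kk190 : (0) ≤ (j) := by clear * - b1 b3 b5 b6 y20 z15 z16 z17; linarith
        have kk191 : (i2 + l2) ≤ (k + l + i3) := by clear * - y13 y20; omega
        have kk192 : (l + i3 + 1) ≤ (i2 + l2) := by clear * - b0 b1 b3 b4 b5 b6 z16 z17; linarith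
        have kk193 : (0) ≤ (i2) := by clear * - b1 b3 b5 b6 y20 y7 z16 z17; linarith
        have kk194 : (i2 + 1) ≤ (k) := by clear * - b0 b2 b3 b5 b6 z15 z16 z17; linarith
        have kk195 : (i2) ≤ (Q) := by clear * - z15; omega
        have kk196 : (i2 + l2) ≤ (k + l) := by clear * - y20; omega
        have kk197 : (n) ≤ (k + l + l2 + 2) := by clear * - b1 b3 b5 b6 y20 z15 z16 z17; linarith
        have kk198 : (i2) ≤ (k) := by clear * - b0 b2 b3 b5 b6 z15 z16 z17; linarith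
        have kk199 : (n + i) ≤ (k + l + l2 + 2) := by clear * - b2 b3 b6 y21 z16; omega
        have kk200 : (Q + 2 * k + l + 1) ≤ (n + i + j + i2) := by clear * - b0 b2 b3 b5 y7 z16 z17; linarith
        have kk201 : (i2 + l2) ≤ (k + l + i3 + 1) := by clear * - y13 y20; omega
        have kk202 : (0) ≤ (i2 + 1) := by clear * - b1 b3 b5 b6 y20 y7 z16 z17; linarith
        have kk203 : (k + i2 + l2 + 1) ≤ (n + i3) := by clear * - y17; omega
        have kk204 : (k + l + i3) ≤ (2 * i2 + l2) := by clear * - b0 b1 b3 b5 b6 y7 z16 z17; linarith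
        have kk205 : (n + 2 * i + i2) ≤ (3 * k + l + 1) := by clear * - b2 b3 b6 y21 z16; omega
        have kk206 : (0) ≤ (j + 1) := by clear * - b1 b3 b5 b6 y20 z15 z16 z17; linarith
        have kk207 : (Q + 2 * k + l) ≤ (n + 2 * i + j + i2) := by clear * - b0 b2 b3 b5 y0 y7 z16 z17; linarith
        have kk208 : (Q) ≤ (k) := by clear * - b0 b2 b3 b5 b6 y7 z16 z17; linarith
        have r209 : (2 * i2 + l2 - k - l - i3) % 2 = 0 := by clear * - ev n1p n2p n3p; omega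
        have r210 : (k - j) % 2 = 0 := by clear * - ev n1p n2p n3p; omega
        have r211 : (2 * i + j + i2 - n - 2 * k - l - 1) % 2 = 0 := by clear * - ev n1p n2p n3p; omega
        clear * - al a1 s2 b c D1 D2 n2 kk187 kk188 kk189 kk190 kk191 kk192 kk193 kk194 kk195 kk196 kk197 kk198 kk199 kk200 kk201 kk202 kk203 kk204 kk205 kk206 kk207 kk208 r209 r210 r211
        exact ivt al.ninv (-n) (j - n) (k - j) (k + l + i3 - n - i2 - l2 + 1) (2 * k + l + i3 - n - 2 * i2 - l2) (2 * i2 + l2 - k - l - i3) (k + l + i3 - n - i2 - l2) (i2 - n) 0 (fun t h1 h2 => (cE (qf a1 al (-1) t (t + (n + k - j)) (by omega)) (sh al (-1) (t + (n + k - j)) (t + (k - j)) (by omega)))) (fun t h1 h2 => (cE (qf (show Par W (k + l + i3 - i2 - l2 + 1) (n + i3 - i2 - l2 - 1) (2 * i2 + l2 - k - l - i3) from fun t h1 h2 => (cE (sh al (-1) t (t + (-n)) (by omega)) (cE (pb D2 al (-1) (t + (-n)) (t + (i2 + l2 - i3 + 1)) (by omega)) (pb c al 0 (t + (i2 + l2 -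 i3 + 1)) (t + (2 * i2 + l2 - k - l - i3)) (by omega))))) al (-1) t (t + (n + 2 * i2 + l2 - k - l - i3)) (by omega)) (sh al (-1) (t + (n + 2 * i2 + l2 - k - l - i3)) (t + (2 * i2 + l2 - k - l - i3)) (by omega)))) (fun hh => n2.f1 (rEE (sh al (-1) (i2) (i2 - n) (by omega)) (cE (pb D1 al 0 (k + l + 1) (k + l + i3 - i2 - l2) (by omega)) (sh al (-1) (k + l + i3 - i2 - l2) (k + l + i3 - n - i2 - l2) (by omega))) (Eq.symm (Eq.symm hh)))) (by omega) (j - n + 1) (Q - n) (2 * i + j + i2 - n - 2 * k - l - 1) 1 (-1) (fun t h1 h2 => (cE (cE (qa s2 al (-1) t ((i + j - n) - t) (by omega)) (qf (show Par W (2 * k + l - i2 + 2) (k + l + l2 + 2) (n + i + i2 - 2 * k - l - 1) from fun t h1 h2 => (cE (sh al (-1) t (t + (-n)) (by omega)) (cE (cE (pb c al (-1) (t + (-n)) (t + (i2 - k - l - 1)) (by omega)) (pb b al 0 (t + (i2 - k - l - 1)) (t + (i + i2 - 2 * k - l - 1)) (by omega))) (sh al 1 (t + (i + i2 - 2 * k - l - 1)) (t + (n + i + i2 - 2 *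 k - l - 1)) (by omega))))) al (-1) ((i + j - n) - t) ((n + 2 * i + j + i2 - 2 * k - l - 1) - t) (by omega))) (sh al (-2) ((n + 2 * i + j + i2 - 2 * k - l - 1) - t) ((2 * i + j + i2 - n - 2 * k - l - 1) - t) (by omega)))) (by omega)
  · by_cases z19 : (2 * j + k + 2 * l + 3) ≤ (n + i + i2 + l2 + i3)
    · by_cases z20 : (n + i) ≤ (k + i2 + l2 + i3 + 1)
      · by_cases v8 : (j + k + l + 2) ≤ (n + i)
        · by_cases v9 : (k + i2 + l2 + 2) ≤ (n + i)
          · have kk212 : (k + i2 + l2 + 2) ≤ (n + i + i3) := by clear * - v9 z20; omega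
            have kk213 : (n + i) ≤ (k + i2 + l2 + i3 + 1) := by clear * - z20; omega
            have kk214 : (n + k) ≤ (i + i2 + 3 * l2 + i3 + 3) := by clear * - b3 v8 v9 z20; omega
            have kk215 : (n + k + i2) ≤ (i + 2 * j + 2 * l + l2 + i3 + 3) := by clear * - b3 v9 z20; omega
            have kk216 : (i2) ≤ (k) := by clear * - b0 b3 b6 v9 z15 z20; omega
            have kk217 : (i2 + l2) ≤ (k + l) := by clear * - b1 b3 b6 v9 z15 z20; omega
            have kk218 : (n) ≤ (k + l + l2 + 2) := by clear * - b3 b4 v9 z20; omega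
            have kk219 : (i3) ≤ (j) := by clear * - b2 b3 b4 v9 z20; omega
            have kk220 : (i) ≤ (i2) := by clear * - b1 b3 b6 v8 v9 y21 z15 z20; linarith
            have kk221 : (i + l + l2 + 2) ≤ (n) := by clear * - b2 b4 y21; omega
            have kk222 : (j + k + l + 2) ≤ (n + i) := by clear * - v8; omega
            have kk223 : (k + i2 + l2 + 2) ≤ (n + i) := by clear * - v9; omega
            have r224 : (2 * k + l + l2 + i3 - n - j + 2) % 2 = 0 := by clear * - ev n1p n2p n3p; omega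
            have r225 : (n + i + i3 - k - i2 - l2 - 1) % 2 = 0 := by clear * - ev n1p n2p n3p; omega
            clear * - al a1 b c u1 D2 kk212 kk213 kk214 kk215 kk216 kk217 kk218 kk219 kk220 kk221 kk222 kk223 r224 r225
            exact midP al (n + i + i3 - k - i2 - l2 - 1) (2 * k + l + l2 + i3 - n - j + 2) (k - j) (2 * k + l - n - i + 2) (i + l + i3 - i2 + 1) (by omega) (fun t h1 h2 => (cI (pb a1 al 0 t (t + (j - k)) (by omega)) (qa u1 al 0 (t + (j - k)) ((2 * k + l + l2 + i3 - n - j + 2) - t) (by omega)))) (fun t h1 h2 => (cE (qf (show Par W (2 * k + l - i2 + 2) (k + l + l2 + 2) (n + i + i2 - 2 * k - l - 1) from fun t h1 h2 => (cE (sh al (-1) t (t + (-n)) (by omega)) (cE (cE (pb c al (-1) (t + (-n)) (t + (i2 - k - l - 1)) (by omega)) (pb b al 0 (t + (i2 - k - l - 1)) (t + (i + i2 - 2 * k - l - 1)) (by omega))) (sh al 1 (t + (i + i2 - 2 * k - l - 1)) (t + (n + i + i2 - 2 * k - l - 1)) (by omega))))) al (-1) t (t + (2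 * n + i + i2 - 2 * k - l - 1)) (by omega)) (pb (show Par W (k + l + i3 - i2 - l2 + 1) (n + i3 - i2 - l2 - 1) (2 * i2 + l2 - k - l - i3) from fun t h1 h2 => (cE (sh al (-1) t (t + (-n)) (by omega)) (cE (pb D2 al (-1) (t + (-n)) (t + (i2 + l2 - i3 + 1)) (by omega)) (pb c al 0 (t + (i2 + l2 - i3 + 1)) (t + (2 * i2 + l2 - k - l - i3)) (by omega))))) al 1 (t + (2 * n + i + i2 - 2 * k - l - 1)) (t + (n + i + i3 - k - i2 - l2 - 1)) (by omega))))
          · have kk226 : (k + i2 + l2 + 2) ≤ (n + i + i3) := by clear * - y0 y17; omega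
            have kk227 : (k + i2 + l2 + 3) ≤ (n + i + i3) := by clear * - y0 y17 ev n1p n2p n3p; omega
            have kk228 : (3 * k + i2 + 1) ≤ (n + 3 * i + l2 + i3) := by clear * - b3 v8 v9 y0 y17; omega
            have kk229 : (3 * k + 3 * i2 + l2 + 1) ≤ (n + 3 * i + 2 * j + 2 * l + i3) := by clear * - b3 y0 y17; omega
            have kk230 : (i2) ≤ (k) := by clear * - b0 b3 b4 b5 b6 y0 y17; linarith
            have kk231 : (i2 + l2) ≤ (k + l) := by clear * - y20; omega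
            have kk232 : (n) ≤ (k + l + l2 + 2) := by clear * - b3 v8 y20 z20; omega
            have kk233 : (i3) ≤ (j) := by clear * - b2 b3 v8 v9 y20; omega
            have kk234 : (i) ≤ (i2) := by clear * - b1 b3 v8 y20 y21 z15; omega
            have kk235 : (i + l + l2 + 2) ≤ (n) := by clear * - b2 b4 y21; omega
            have kk236 : (n + i) ≤ (k + i2 + l2 + 2) := by clear * - v9; omega
            have kk237 : (j + l) ≤ (i2 + l2) := by clear * - v8 v9; omega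
            have r238 : (2 * k + l + l2 + i3 - n - j + 2) % 2 = 0 := by clear * - ev n1p n2p n3p; omega
            have r239 : (n + i + i3 - k - i2 - l2 - 1) % 2 = 0 := by clear * - ev n1p n2p n3p; omega
            clear * - al a1 b c u1 D2 kk226 kk227 kk228 kk229 kk230 kk231 kk232 kk233 kk234 kk235 kk236 kk237 r238 r239
            exact midP al (n + i + i3 - k - i2 - l2 - 1) (2 * k + l + l2 + i3 - n - j + 2) (2 * k + i2 + l2 - n - i - j + 2) (2 * k + l - n - i + 2) (i + l + i3 - i2 + 1) (by omega) (fun t h1 h2 => (cI (pb a1 al 0 t (t + (j - k)) (by omega)) (qa u1 al 0 (t + (j - k)) ((2 * k + l + l2 + i3 - n - j + 2) - t) (by omega)))) (fun t h1 h2 => (cE (qf (show Par W (2 * k + l - i2 + 2) (k + l + l2 + 2) (n + i + i2 - 2 * k - l - 1) from fun t h1 h2 => (cE (sh al (-1) t (t + (-n)) (by omega)) (cE (cE (pb c al (-1) (t + (-n)) (t + (i2 - k - l - 1)) (by omega)) (pb b al 0 (t + (i2 - k - l - 1)) (t + (i + i2 - 2 * k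 - l - 1)) (by omega))) (sh al 1 (t + (i + i2 - 2 * k - l - 1)) (t + (n + i + i2 - 2 * k - l - 1)) (by omega))))) al (-1) t (t + (2 * n + i + i2 - 2 * k - l - 1)) (by omega)) (pb (show Par W (k + l + i3 - i2 - l2 + 1) (n + i3 - i2 - l2 - 1) (2 * i2 + l2 - k - l - i3) from fun t h1 h2 => (cE (sh al (-1) t (t + (-n)) (by omega)) (cE (pb D2 al (-1) (t + (-n)) (t + (i2 + l2 - i3 + 1)) (by omega)) (pb c al 0 (t + (i2 + l2 - i3 + 1)) (t + (2 * i2 + l2 - k - l - i3)) (by omega))))) al 1 (t + (2 * n + i + i2 - 2 * k - l - 1)) (t + (n + i + i3 - k - i2 - l2 - 1)) (by omega))))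
        · by_cases v10 : (i2 + l2) ≤ (j + l)
          · have kk240 : (k + i2 + l2 + 2) ≤ (n + i + i3) := by clear * - v10 z19; omega
            have kk241 : (2 * j + k + 2 * l + 3) ≤ (n + i + i2 + l2 + i3) := by clear * - z19; omega
            have kk242 : (2 * j + 3 * k + 2 * l + 1) ≤ (n + 3 * i + i2 + 3 * l2 + i3) := by clear * - b3 v10 z19; omega
            have kk243 : (3 * k + i2 + 1) ≤ (n + 3 * i + l2 + i3) := by clear * - b3 v10 z19; omega
            have kk244 : (i2) ≤ (k) := by clear * - b0 b3 b4 b5 b6 v10 z19; linarith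
            have kk245 : (i2 + l2) ≤ (k + l) := by clear * - b4 v10 v8 z19; omega
            have kk246 : (n) ≤ (k + l + l2 + 2) := by clear * - b3 b4 v10 v8 z19; omega
            have kk247 : (i3) ≤ (j) := by clear * - b2 b3 b4 v10 v8 z19; omega
            have kk248 : (i) ≤ (i2) := by clear * - b1 b3 b4 v10 v8 y21 z15 z19; linarith
            have kk249 : (i + l + l2 + 2) ≤ (n) := by clear * - b2 b4 y21; omega
            have kk250 : (n + i) ≤ (j + k + l + 2) := by clear * - v8; omega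
            have kk251 : (i2 + l2) ≤ (j + l) := by clear * - v10; omega
            have r252 : (2 * k + l + l2 + i3 - n - j + 2) % 2 = 0 := by clear * - ev n1p n2p n3p; omega
            have r253 : (n + i + i3 - k - i2 - l2 - 1) % 2 = 0 := by clear * - ev n1p n2p n3p; omega
            clear * - al a1 b c u1 D2 kk240 kk241 kk242 kk243 kk244 kk245 kk246 kk247 kk248 kk249 kk250 kk251 r252 r253
            exact midP al (n + i + i3 - k - i2 - l2 - 1) (2 * k + l + l2 + i3 - n - j + 2) (2 * k + l - n - i + 2) (2 * k + l - n - i + 2) (i + l + i3 - i2 + 1) (by omega) (fun t h1 h2 => (cI (pb a1 al 0 t (t + (j - k)) (by omega)) (qa u1 al 0 (t + (j - k)) ((2 * k + l + l2 + i3 - n - j + 2) - t) (by omega)))) (fun t h1 h2 => (cE (qf (show Par W (2 * k + l - i2 + 2) (k + l + l2 + 2) (n + i + i2 - 2 * k - l - 1) from fun t h1 h2 => (cE (sh al (-1) t (t + (-n)) (by omega)) (cE (cE (pb c al (-1) (t + (-n)) (t + (i2 - k - l - 1)) (by omega))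 (pb b al 0 (t + (i2 - k - l - 1)) (t + (i + i2 - 2 * k - l - 1)) (by omega))) (sh al 1 (t + (i + i2 - 2 * k - l - 1)) (t + (n + i + i2 - 2 * k - l - 1)) (by omega))))) al (-1) t (t + (2 * n + i + i2 - 2 * k - l - 1)) (by omega)) (pb (show Par W (k + l + i3 - i2 - l2 + 1) (n + i3 - i2 - l2 - 1) (2 * i2 + l2 - k - l - i3) from fun t h1 h2 => (cE (sh al (-1) t (t + (-n)) (by omega)) (cE (pb D2 al (-1) (t + (-n)) (t + (i2 + l2 - i3 + 1)) (by omega)) (pb c al 0 (t + (i2 + l2 - i3 + 1)) (t + (2 * i2 + l2 - k - l - i3)) (by omega))))) al 1 (t + (2 * n + i + i2 - 2 * k - l - 1)) (t + (n + i + i3 - k - i2 - l2 - 1)) (by omega))))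
          · have kk254 : (k + i2 + l2 + 2) ≤ (n + i + i3) := by clear * - y0 y17; omega
            have kk255 : (k + i2 + l2 + 3) ≤ (n + i + i3) := by clear * - y0 y17 ev n1p n2p n3p; omega
            have kk256 : (3 * k + i2 + 1) ≤ (n + 3 * i + l2 + i3) := by clear * - b3 v10 y0 y17; omega
            have kk257 : (3 * k + 3 * i2 + l2 + 1) ≤ (n + 3 * i + 2 * j + 2 * l + i3) := by clear * - b3 y0 y17; omega
            have kk258 : (i2) ≤ (k) := by clear * - b0 b3 b4 b5 b6 y0 y17; linarith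
            have kk259 : (i2 + l2) ≤ (k + l) := by clear * - y20; omega
            have kk260 : (n) ≤ (k + l + l2 + 2) := by clear * - b3 v8 y20 z19; omega
            have kk261 : (i3) ≤ (j) := by clear * - b2 b3 v10 y20; omega
            have kk262 : (i) ≤ (i2) := by clear * - b1 b3 v10 y17 y20 z15; omega
            have kk263 : (i + l + l2 + 2) ≤ (n) := by clear * - b2 b4 y21; omega
            have kk264 : (n + i) ≤ (j + k + l + 2) := by clear * - v8; omega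
            have kk265 : (j + l) ≤ (i2 + l2) := by clear * - v10; omega
            have r266 : (2 * k + l + l2 + i3 - n - j + 2) % 2 = 0 := by clear * - ev n1p n2p n3p; omega
            have r267 : (n + i + i3 - k - i2 - l2 - 1) % 2 = 0 := by clear * - ev n1p n2p n3p; omega
            clear * - al a1 b c u1 D2 kk254 kk255 kk256 kk257 kk258 kk259 kk260 kk261 kk262 kk263 kk264 kk265 r266 r267
            exact midP al (n + i + i3 - k - i2 - l2 - 1) (2 * k + l + l2 + i3 - n - j + 2) (2 * k + i2 + l2 - n - i - j + 2) (2 * k + l - n - i + 2) (i + l + i3 - i2 + 1) (by omega) (fun t h1 h2 => (cI (pb a1 al 0 t (t + (j - k)) (by omega)) (qa u1 al 0 (t + (j - k)) ((2 * k + l + l2 + i3 - n - j + 2) - t) (by omega)))) (fun t h1 h2 => (cE (qf (show Par W (2 * k + l - i2 + 2) (k + l + l2 + 2) (n + i + i2 - 2 * k - l - 1) from fun t h1 h2 => (cE (sh al (-1) t (t + (-n)) (by omega)) (cE (cE (pb c al (-1) (t + (-n)) (t + (i2 - k - l -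 1)) (by omega)) (pb b al 0 (t + (i2 - k - l - 1)) (t + (i + i2 - 2 * k - l - 1)) (by omega))) (sh al 1 (t + (i + i2 - 2 * k - l - 1)) (t + (n + i + i2 - 2 * k - l - 1)) (by omega))))) al (-1) t (t + (2 * n + i + i2 - 2 * k - l - 1)) (by omega)) (pb (show Par W (k + l + i3 - i2 - l2 + 1) (n + i3 - i2 - l2 - 1) (2 * i2 + l2 - k - l - i3) from fun t h1 h2 => (cE (sh al (-1) t (t + (-n)) (by omega)) (cE (pb D2 al (-1) (t + (-n)) (t + (i2 + l2 - i3 + 1)) (by omega)) (pb c al 0 (t + (i2 + l2 - i3 + 1)) (t + (2 * i2 + l2 - k - l - i3)) (by omega))))) al 1 (t + (2 * n + i + i2 - 2 * k - l - 1)) (t + (n + i + i3 - k - i2 - l2 - 1)) (by omega))))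
      · by_cases z21 : (2 * j + k + 2 * l + i2 + 3 * l2 + 7) ≤ (3 * n + i + i3)
        · have kk268 : (k + i2 + l2 + 2) ≤ (n + i + i3) := by clear * - y13 z20; omega
          have kk269 : (2 * j + k + 2 * l + i2 + 3 * l2 + 7) ≤ (3 * n + i + i3) := by clear * - z21; omega
          have kk270 : (3 * k + 3 * i2 + 3 * l2 + 5) ≤ (3 * n + i + 3 * i3) := by clear * - y13 y21 z20; omega
          have kk271 : (2 * j + 3 * k + 2 * l + 3 * i2 + 5 * l2 + 9) ≤ (5 * n + 3 * i + i3) := by clear * - y13 z20 z21; omega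
          have kk272 : (Q) ≤ (k) := by clear * - b2 b3 b5 b6 z15 z19; omega
          have kk273 : (n) ≤ (j + l + l2 + 3) := by clear * - b3 y13; omega
          have kk274 : (i3) ≤ (k) := by clear * - b1 b3 b5 b6 y20 z15 z19 z21; linarith
          have kk275 : (n + i3) ≤ (k + l + i2 + l2 + 2) := by clear * - b1 b3 y20 z15 z19; omega
          have kk276 : (n + i) ≤ (j + l + l2 + i3 + 2) := by clear * - b3 y13 y21; omega
          have kk277 : (n + i + i3) ≤ (Q + j + i2 + l2 + 1) := by clear * - b1 b3; omega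
          have r278 : (n + j + l + l2 + i3 + 2) % 2 = 0 := by clear * - ev n1p n2p n3p; omega
          have r279 : (n + i + i3 - k - i2 - l2 - 1) % 2 = 0 := by clear * - ev n1p n2p n3p; omega
          clear * - al a1 b u2 D2 kk268 kk269 kk270 kk271 kk272 kk273 kk274 kk275 kk276 kk277 r278 r279
          exact midP al (n + i + i3 - k - i2 - l2 - 1) (n + j + l + l2 + i3 + 2) (j + k + l + i2 + 2 * l2 - n - i + 4) (k + i2 + l2 - i3 + 2) (2 * n + i + i3 - k - i2 - l2 - 1) (by omega) (fun t h1 h2 => (cE (cE (ab u2 al 1 t ((k + l + l2 + i3 + 2) - t) (by omega)) (pb a1 al 0 ((k + l + l2 + i3 + 2) - t) ((j + l + l2 + i3 + 2) - t) (by omega))) (sh al 1 ((j + l + l2 + i3 + 2) - t) ((n + j + l + l2 + i3 + 2) - t) (by omega)))) (fun t h1 h2 => (cE (cE (qf D2 al 0 t (t + (i3 - i2 - l2 - 1)) (by omega)) (pb b al 0 (t + (i3 - i2 - l2 - 1)) (t + (i + i3 - k - i2 - l2 - 1)) (by omega))) (sh al 1 (t + (i + i3 - k - i2 - l2 - 1)) (t + (n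 + i + i3 - k - i2 - l2 - 1)) (by omega))))
        · by_cases z22 : (i + i2 + l2 + 2) ≤ (2 * k)
          · have kk280 : (k) ≤ (i2 + l2) := by clear * - b1 y17 y20 z15 z19 z20 z21; linarith
            have kk281 : (i2 + l2 + 1) ≤ (k + l) := by clear * - y20; omega
            have kk282 : (j + 1) ≤ (k) := by clear * - b1 b6 y20 z15 z19 z20 z21; linarith
            have kk283 : (0) ≤ (j) := by clear * - b2 b4 y13 z20 z21; omega
            have kk284 : (k) ≤ (i + i2 + l2 + 1) := by clear * - b1 b6 y13 z15 z19 z20 z21; linarith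
            have kk285 : (i + i2 + l2 + 2) ≤ (2 * k) := by clear * - z22; omega
            have kk286 : (n) ≤ (k + l + l2 + 2) := by clear * - y20 z19 z21; omega
            have kk287 : (l + l2 + 3) ≤ (n) := by clear * - b1 b5 y20 z15 z19 z20 z21 z22; linarith
            have kk288 : (n) ≤ (j + l + l2 + 4) := by clear * - y13 z20 z21; omega
            have kk289 : (i2) ≤ (k) := by clear * - y13 z19 z20 z21 z22; omega
            have kk290 : (i2 + l2) ≤ (k + l) := by clear * - y20; omega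
            have kk291 : (0) ≤ (i + 1) := by clear * - y0; omega
            have kk292 : (2 * k + l + 2) ≤ (n + i2) := by clear * - b1 y17 z15 z19 z20 z21; omega
            have kk293 : (i + i2 + l2 + 1) ≤ (2 * k) := by clear * - z22; omega
            have kk294 : (l + l2 + 2) ≤ (n) := by clear * - b1 b5 y20 z15 z19 z20 z21 z22; linarith
            have r295 : (2 * k + l - n - i - i2 + 1) % 2 = 0 := by clear * - ev n1p n2p n3p; omega
            have r296 : (k - j) % 2 = 0 := by clear * - ev n1p n2p n3p; omega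
            clear * - al a1 b c n3 kk280 kk281 kk282 kk283 kk284 kk285 kk286 kk287 kk288 kk289 kk290 kk291 kk292 kk293 kk294 r295 r296
            exact ivt0 (0) (j) (k - j) (n + i + i2 - 2 * k - l - 1) (i + i2 + l2 - k + 1) (2 * k + l - n - i - i2 + 1) (i + i2 + l2 - k + 1) (k + l + l2 - n + 2) 0 (fun t h1 h2 => (qf a1 al 0 t (t + (k - j)) (by omega))) (fun t h1 h2 => (cE (pb (show Par W (2 * k + l - i2 + 2) (k + l + l2 + 2) (n + i + i2 - 2 * k - l - 1) from fun t h1 h2 => (cE (sh al (-1) t (t + (-n)) (by omega)) (cE (cE (pb c al (-1) (t + (-n)) (t + (i2 - k - l - 1)) (by omega)) (pb b al 0 (t + (i2 - k - l - 1)) (t + (i + i2 - 2 * k - l - 1)) (by omega))) (sh al 1 (t + (i + i2 - 2 * k - l - 1)) (t + (n + i + i2 - 2 * k - l - 1)) (by omega))))) al (-1) t (t + (2 * k + l - i - i2 + 1)) (by omega)) (sh al (-1) (t + (2 * k + l - i - i2 + 1)) (t + (2 * k + l - n - i - i2 + 1)) (by omega)))) (fun hh => n3.f0 (rEE (sh al 0 (k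 + l + l2 - n + 2) (k + l + l2 - n + 2) (by omega)) (pb b al 0 (i2 + l2 + 1) (i + i2 + l2 - k + 1) (by omega)) (Eq.symm (Eq.symm hh)))) (by omega) (by omega)
          · by_cases v11 : (2 * n + 2 * i + j + 2 * i2) ≤ (4 * k + 3 * l + i3 + 3)
            · by_cases v12 : (2 * n + 3 * i + j + i2) ≤ (Q + 4 * k + 2 * l + 2)
              · have kk297 : (k + i2 + l2 + 2) ≤ (n + i + i3) := by clear * - y13 z20; omega
                have kk298 : (7 * k + 4 * l + i3 + 5) ≤ (3 * n + 5 * i + 3 * i2 + l2) := by clear * - b0 y0 y21 z15 z20 z22; omega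
                have kk299 : (11 * k + 6 * l + i3 + 7) ≤ (5 * n + 7 * i + 2 * j + 3 * i2 + l2) := by clear * - b0 b2 b5 y0 z20 z22; omega
                have kk300 : (3 * k + i2 + 1) ≤ (n + 3 * i + l2 + i3) := by clear * - y13 z19 z20 z21; omega
                have kk301 : (i2) ≤ (k) := by clear * - b0 b6 y13 z15 z20 z21; omega
                have kk302 : (i2 + l2) ≤ (k + l) := by clear * - y20; omega
                have kk303 : (n) ≤ (k + l + l2 + 2) := by clear * - y20 z19 z21; omega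
                have kk304 : (Q + 2 * k + l + 1) ≤ (n + i + j + i2) := by clear * - b0 b2 b5 z15 z20 z21 z22; linarith
                have kk305 : (n + i) ≤ (k + l + l2 + 2) := by clear * - b2 b5 v12 z19 z20 z21 z22; linarith
                have kk306 : (i) ≤ (i2) := by clear * - b2 b6 v11 v12 z15 z19 z20 z21 z22; linarith
                have kk307 : (i + l + l2 + 2) ≤ (n) := by clear * - b0 b2 v11 z15 z20 z22; omega
                have kk308 : (2 * n + 2 * i + j + 2 * i2) ≤ (4 * k + 3 * l + i3 + 3) := by clear * - v11; omega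
                have kk309 : (2 * n + 3 * i + j + i2) ≤ (Q + 4 * k + 2 * l + 2) := by clear * - v12; omega
                have r310 : (5 * n + 2 * i + j + i2 - 2 * k - l - 1) % 2 = 0 := by clear * - ev n1p n2p n3p; omega
                have r311 : (n + i + i3 - k - i2 - l2 - 1) % 2 = 0 := by clear * - ev n1p n2p n3p; omega
                clear * - al s2 b c D2 kk297 kk298 kk299 kk300 kk301 kk302 kk303 kk304 kk305 kk306 kk307 kk308 kk309 r310 r311
                exact midP al (n + i + i3 - k - i2 - l2 - 1) (5 * n + 2 * i + j + i2 - 2 * k - l - 1) (n + 2 * k + l - i + 2) (n + 2 * k + l - i + 2) (2 * n + i + l + i3 - i2 + 1) (by omega) (fun t h1 h2 => (cE (cI (pb (show Par W (2 * k + l - i2 + 2) (k + l + l2 + 2) (n + i + i2 - 2 * k - l - 1) from fun t h1 h2 => (cE (sh al (-1) t (t + (-n)) (by omega)) (cE (cE (pb c al (-1) (t + (-n)) (t + (i2 - k - l - 1)) (by omega)) (pb b al 0 (t + (i2 - k - l - 1)) (t + (i + i2 - 2 *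 k - l - 1)) (by omega))) (sh al 1 (t + (i + i2 - 2 * k - l - 1)) (t + (n + i + i2 - 2 * k - l - 1)) (by omega))))) al 1 t (t + (2 * k + l - 2 * n - i - i2 + 1)) (by omega)) (ab s2 al 1 (t + (2 * k + l - 2 * n - i - i2 + 1)) ((3 * n + 2 * i + j + i2 - 2 * k - l - 1) - t) (by omega))) (sh al 2 ((3 * n + 2 * i + j + i2 - 2 * k - l - 1) - t) ((5 * n + 2 * i + j + i2 - 2 * k - l - 1) - t) (by omega)))) (fun t h1 h2 => (cE (cE (qf (show Par W (2 * k + l - i2 + 2) (k + l + l2 + 2) (n + i + i2 - 2 * k - l - 1) from fun t h1 h2 => (cE (sh al (-1) t (t + (-n)) (by omega)) (cE (cE (pb c al (-1) (t + (-n)) (t + (i2 - k - l - 1)) (by omega)) (pb b al 0 (t + (i2 - k - l - 1)) (t + (i + i2 - 2 * k - l - 1)) (by omega))) (sh al 1 (t + (i + i2 - 2 * k - l - 1)) (t + (n + i + i2 - 2 * k - l - 1)) (by omega))))) al 1 t (t + (i + i2 - 2 * k - l - 1)) (by omega)) (pb (show Par W (k + l + i3 - i2 - l2 + 1) (n + i3 - i2 - l2 - 1) (2 * i2 + l2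 - k - l - i3) from fun t h1 h2 => (cE (sh al (-1) t (t + (-n)) (by omega)) (cE (pb D2 al (-1) (t + (-n)) (t + (i2 + l2 - i3 + 1)) (by omega)) (pb c al 0 (t + (i2 + l2 - i3 + 1)) (t + (2 * i2 + l2 - k - l - i3)) (by omega))))) al 1 (t + (i + i2 - 2 * k - l - 1)) (t + (i + i3 - n - k - i2 - l2 - 1)) (by omega))) (sh al 2 (t + (i + i3 - n - k - i2 - l2 - 1)) (t + (n + i + i3 - k - i2 - l2 - 1)) (by omega))))
              · have kk312 : (k + i2 + l2 + 2) ≤ (n + i + i3) := by clear * - b1 v11 v12 z20; omega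
                have kk313 : (n + i + 2 * j + i3 + 1) ≤ (2 * Q + k + i2 + l2) := by clear * - b1 b6 z20 z22; omega
                have kk314 : (3 * k + 2 * l + i3 + 3) ≤ (n + 2 * Q + i + i2 + l2) := by clear * - b1 v11 v12 z19 z20 z21; omega
                have kk315 : (3 * n + 3 * i + 2 * j + 3 * i2) ≤ (2 * Q + 5 * k + 4 * l + l2 + i3 + 3) := by clear * - b1 v11 v12 z19 z20 z21; omega
                have kk316 : (i2) ≤ (k) := by clear * - b0 b1 b6 v11 v12 z15 z20 z21; linarith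
                have kk317 : (i2 + l2) ≤ (k + l) := by clear * - b1 b6 v11 v12 z15 z20 z21; linarith
                have kk318 : (n) ≤ (k + l + l2 + 2) := by clear * - b1 b6 v11 v12 z15 z19 z20 z21; linarith
                have kk319 : (Q + 2 * k + l + 1) ≤ (n + i + j + i2) := by clear * - b0 b2 v11 v12 z15 z20 z21 z22; linarith
                have kk320 : (n + i) ≤ (k + l + l2 + 2) := by clear * - b0 b2 b6 v11 v12 z15 z20 z21 z22; linarith
                have kk321 : (i) ≤ (i2) := by clear * - b1 b5 v11 z15 z19 z20 z21 z22; linarith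
                have kk322 : (i + l + l2 + 2) ≤ (n) := by clear * - b0 b2 v11 z15 z20 z22; omega
                have kk323 : (Q + 4 * k + 2 * l + 2) ≤ (2 * n + 3 * i + j + i2) := by clear * - v12; omega
                have kk324 : (Q + i2) ≤ (i + l + i3 + 1) := by clear * - v11 v12; omega
                have r325 : (5 * n + 2 * i + j + i2 - 2 * k - l - 1) % 2 = 0 := by clear * - ev n1p n2p n3p; omega
                have r326 : (n + i + i3 - k - i2 - l2 - 1) % 2 = 0 := by clear * - ev n1p n2p n3p; omega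
                clear * - al s2 b c D2 kk312 kk313 kk314 kk315 kk316 kk317 kk318 kk319 kk320 kk321 kk322 kk323 kk324 r325 r326
                exact midP al (n + i + i3 - k - i2 - l2 - 1) (5 * n + 2 * i + j + i2 - 2 * k - l - 1) (3 * n + 2 * i + j + i2 - Q - 2 * k - l) (n + 2 * k + l - i + 2) (2 * n + i + l + i3 - i2 + 1) (by omega) (fun t h1 h2 => (cE (cI (pb (show Par W (2 * k + l - i2 + 2) (k + l + l2 + 2) (n + i + i2 - 2 * k - l - 1) from fun t h1 h2 => (cE (sh al (-1) t (t + (-n)) (by omega)) (cE (cE (pb c al (-1) (t + (-n)) (t + (i2 - k - l - 1)) (by omega)) (pb b al 0 (t + (i2 - k - l - 1)) (t + (i + i2 - 2 * k - l - 1)) (by omega))) (sh al 1 (t + (i + i2 - 2 * k - l - 1)) (t + (n + i + i2 - 2 * k - l - 1)) (by omega))))) al 1 t (t + (2 * k + l - 2 * n - i - i2 + 1)) (by omega)) (ab s2 al 1 (t + (2 * k + l - 2 * n - i - i2 + 1)) ((3 * n + 2 * i + j + i2 - 2 * k - l - 1) - t) (by omega))) (sh al 2 ((3 * n + 2 * i +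 j + i2 - 2 * k - l - 1) - t) ((5 * n + 2 * i + j + i2 - 2 * k - l - 1) - t) (by omega)))) (fun t h1 h2 => (cE (cE (qf (show Par W (2 * k + l - i2 + 2) (k + l + l2 + 2) (n + i + i2 - 2 * k - l - 1) from fun t h1 h2 => (cE (sh al (-1) t (t + (-n)) (by omega)) (cE (cE (pb c al (-1) (t + (-n)) (t + (i2 - k - l - 1)) (by omega)) (pb b al 0 (t + (i2 - k - l - 1)) (t + (i + i2 - 2 * k - l - 1)) (by omega))) (sh al 1 (t + (i + i2 - 2 * k - l - 1)) (t + (n + i + i2 - 2 * k - l - 1)) (by omega))))) al 1 t (t + (i + i2 - 2 * k - l - 1)) (by omega)) (pb (show Par W (k + l + i3 - i2 - l2 + 1) (n + i3 - i2 - l2 - 1) (2 * i2 + l2 - k - l - i3) from fun t h1 h2 => (cE (sh al (-1) t (t + (-n)) (by omega)) (cE (pb D2 al (-1) (t + (-n)) (t + (i2 + l2 - i3 + 1)) (by omega)) (pb c al 0 (t + (i2 + l2 - i3 + 1)) (t + (2 * i2 + l2 - k - l - i3)) (by omega))))) al 1 (t + (i + i2 - 2 * k - l - 1)) (t + (i + i3 - n - k - i2 - l2 - 1)) (by omega)))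 (sh al 2 (t + (i + i3 - n - k - i2 - l2 - 1)) (t + (n + i + i3 - k - i2 - l2 - 1)) (by omega))))
            · by_cases v13 : (i + l + i3 + 1) ≤ (Q + i2)
              · have kk327 : (k + i2 + l2 + 2) ≤ (n + i + i3) := by clear * - y13 z20; omega
                have kk328 : (n + 2 * j + i2) ≤ (i + k + 2 * l + l2 + i3 + 1) := by clear * - b6 y0 y21 z20 z22; omega
                have kk329 : (3 * k + i2 + 1) ≤ (n + 3 * i + l2 + i3) := by clear * - y13 z19 z20 z21; omega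
                have kk330 : (3 * n + i + 2 * j + 5 * i2) ≤ (5 * k + 6 * l + l2 + 3 * i3 + 5) := by clear * - b6 y13 y21 z20 z21 z22; omega
                have kk331 : (i2) ≤ (k) := by clear * - b0 b6 y13 z15 z20 z21; omega
                have kk332 : (i2 + l2) ≤ (k + l) := by clear * - y20; omega
                have kk333 : (n) ≤ (k + l + l2 + 2) := by clear * - y20 z19 z21; omega
                have kk334 : (Q + 2 * k + l + 1) ≤ (n + i + j + i2) := by clear * - b0 b2 b5 z15 z20 z21 z22; linarith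
                have kk335 : (n + i) ≤ (k + l + l2 + 2) := by clear * - b2 b6 y21 z20 z21 z22; omega
                have kk336 : (i) ≤ (i2) := by clear * - v11 v13 y20 y21 z15 z19 z20 z21 z22; linarith
                have kk337 : (i + l + l2 + 2) ≤ (n) := by clear * - b2 b6 v11 v13 y21 z15 z20 z21 z22; linarith
                have kk338 : (4 * k + 3 * l + i3 + 3) ≤ (2 * n + 2 * i + j + 2 * i2) := by clear * - v11; omega
                have kk339 : (i + l + i3 + 1) ≤ (Q + i2) := by clear * - v13; omega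
                have r340 : (5 * n + 2 * i + j + i2 - 2 * k - l - 1) % 2 = 0 := by clear * - ev n1p n2p n3p; omega
                have r341 : (n + i + i3 - k - i2 - l2 - 1) % 2 = 0 := by clear * - ev n1p n2p n3p; omega
                clear * - al s2 b c D2 kk327 kk328 kk329 kk330 kk331 kk332 kk333 kk334 kk335 kk336 kk337 kk338 kk339 r340 r341
                exact midP al (n + i + i3 - k - i2 - l2 - 1) (5 * n + 2 * i + j + i2 - 2 * k - l - 1) (3 * n + i + j + 2 * i2 - 2 * k - 2 * l - i3 - 1) (n + 2 * k + l - i + 2) (2 * n + i + l + i3 - i2 + 1) (by omega) (fun t h1 h2 => (cE (cI (pb (show Par W (2 * k + l - i2 + 2) (k + l + l2 + 2) (n + i + i2 - 2 * k - l - 1) from fun t h1 h2 => (cE (sh al (-1) t (t + (-n)) (by omega)) (cE (cE (pb c al (-1) (t + (-n)) (t + (i2 - k - l - 1)) (by omega)) (pb b al 0 (t + (i2 - k - l - 1)) (t + (i + i2 - 2 * k - l - 1)) (by omega))) (sh al 1 (t + (i + i2 - 2 * k - l - 1)) (t + (n + i + i2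 - 2 * k - l - 1)) (by omega))))) al 1 t (t + (2 * k + l - 2 * n - i - i2 + 1)) (by omega)) (ab s2 al 1 (t + (2 * k + l - 2 * n - i - i2 + 1)) ((3 * n + 2 * i + j + i2 - 2 * k - l - 1) - t) (by omega))) (sh al 2 ((3 * n + 2 * i + j + i2 - 2 * k - l - 1) - t) ((5 * n + 2 * i + j + i2 - 2 * k - l - 1) - t) (by omega)))) (fun t h1 h2 => (cE (cE (qf (show Par W (2 * k + l - i2 + 2) (k + l + l2 + 2) (n + i + i2 - 2 * k - l - 1) from fun t h1 h2 => (cE (sh al (-1) t (t + (-n)) (by omega)) (cE (cE (pb c al (-1) (t + (-n)) (t + (i2 - k - l - 1)) (by omega)) (pb b al 0 (t + (i2 - k - l - 1)) (t + (i + i2 - 2 * k - l - 1)) (by omega))) (sh al 1 (t + (i + i2 - 2 * k - l - 1)) (t + (n + i + i2 - 2 * k - l - 1)) (by omega))))) al 1 t (t + (i + i2 - 2 * k - l - 1)) (by omega)) (pb (show Par W (k + l + i3 - i2 - l2 + 1) (n + i3 - i2 - l2 - 1) (2 * i2 + l2 - k - l - i3) from fun t h1 h2 => (cE (sh al (-1) t (t + (-n)) (by omega)) (cE (pb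 D2 al (-1) (t + (-n)) (t + (i2 + l2 - i3 + 1)) (by omega)) (pb c al 0 (t + (i2 + l2 - i3 + 1)) (t + (2 * i2 + l2 - k - l - i3)) (by omega))))) al 1 (t + (i + i2 - 2 * k - l - 1)) (t + (i + i3 - n - k - i2 - l2 - 1)) (by omega))) (sh al 2 (t + (i + i3 - n - k - i2 - l2 - 1)) (t + (n + i + i3 - k - i2 - l2 - 1)) (by omega))))
              · have kk342 : (k + i2 + l2 + 2) ≤ (n + i + i3) := by clear * - b1 v13 z20; omega
                have kk343 : (n + i + 2 * j + i3 + 1) ≤ (2 * Q + k + i2 + l2) := by clear * - b1 b6 z20 z22; omega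
                have kk344 : (3 * k + 2 * l + i3 + 3) ≤ (n + 2 * Q + i + i2 + l2) := by clear * - b1 v13 z19 z20 z21; omega
                have kk345 : (3 * n + 3 * i + 2 * j + 3 * i2) ≤ (2 * Q + 5 * k + 4 * l + l2 + i3 + 3) := by clear * - b1 b6 v13 y21 z20 z21 z22; linarith
                have kk346 : (i2) ≤ (k) := by clear * - b0 b1 b6 v13 z15 z20 z21; linarith
                have kk347 : (i2 + l2) ≤ (k + l) := by clear * - b1 b6 v13 z15 z20 z21; omega
                have kk348 : (n) ≤ (k + l + l2 + 2) := by clear * - b1 b6 v13 z15 z19 z20 z21; linarith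
                have kk349 : (Q + 2 * k + l + 1) ≤ (n + i + j + i2) := by clear * - b0 b2 v13 z15 z20 z21 z22; linarith
                have kk350 : (n + i) ≤ (k + l + l2 + 2) := by clear * - b2 b6 y21 z20 z21 z22; omega
                have kk351 : (i) ≤ (i2) := by clear * - b1 b6 v11 v13 y21 z15 z20 z21 z22; linarith
                have kk352 : (i + l + l2 + 2) ≤ (n) := by clear * - b2 b4 y21; omega
                have kk353 : (4 * k + 3 * l + i3 + 3) ≤ (2 * n + 2 * i + j + 2 * i2) := by clear * - v11; omega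
                have kk354 : (Q + i2) ≤ (i + l + i3 + 1) := by clear * - v13; omega
                have r355 : (5 * n + 2 * i + j + i2 - 2 * k - l - 1) % 2 = 0 := by clear * - ev n1p n2p n3p; omega
                have r356 : (n + i + i3 - k - i2 - l2 - 1) % 2 = 0 := by clear * - ev n1p n2p n3p; omega
                clear * - al s2 b c D2 kk342 kk343 kk344 kk345 kk346 kk347 kk348 kk349 kk350 kk351 kk352 kk353 kk354 r355 r356
                exact midP al (n + i + i3 - k - i2 - l2 - 1) (5 * n + 2 * i + j + i2 - 2 * k - l - 1) (3 * n + 2 * i + j + i2 - Q - 2 * k - l) (n + 2 * k + l - i + 2) (2 * n + i + l + i3 - i2 + 1) (by omega) (fun t h1 h2 => (cE (cI (pb (show Par W (2 * k + l - i2 + 2) (k + l + l2 + 2) (n + i + i2 - 2 * k - l - 1) from fun t h1 h2 => (cE (sh al (-1) t (t + (-n)) (by omega)) (cE (cE (pb c al (-1) (t + (-n)) (t + (i2 - k - l - 1)) (by omega)) (pb b al 0 (t + (i2 - k - l - 1)) (t + (i + i2 - 2 * k - l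 - 1)) (by omega))) (sh al 1 (t + (i + i2 - 2 * k - l - 1)) (t + (n + i + i2 - 2 * k - l - 1)) (by omega))))) al 1 t (t + (2 * k + l - 2 * n - i - i2 + 1)) (by omega)) (ab s2 al 1 (t + (2 * k + l - 2 * n - i - i2 + 1)) ((3 * n + 2 * i + j + i2 - 2 * k - l - 1) - t) (by omega))) (sh al 2 ((3 * n + 2 * i + j + i2 - 2 * k - l - 1) - t) ((5 * n + 2 * i + j + i2 - 2 * k - l - 1) - t) (by omega)))) (fun t h1 h2 => (cE (cE (qf (show Par W (2 * k + l - i2 + 2) (k + l + l2 + 2) (n + i + i2 - 2 * k - l - 1) from fun t h1 h2 => (cE (sh al (-1) t (t + (-n)) (by omega)) (cE (cE (pb c al (-1) (t + (-n)) (t + (i2 - k - l - 1)) (by omega)) (pb b al 0 (t + (i2 - k - l - 1)) (t + (i + i2 - 2 * k - l - 1)) (by omega))) (sh al 1 (t + (i + i2 - 2 * k - l - 1)) (t + (n + i + i2 - 2 * k - l - 1)) (by omega))))) al 1 t (t + (i + i2 - 2 * k - l - 1)) (by omega)) (pb (show Par W (k + l + i3 - i2 - l2 + 1) (n + i3 - i2 - l2 - 1) (2 * i2 + l2 - k -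 l - i3) from fun t h1 h2 => (cE (sh al (-1) t (t + (-n)) (by omega)) (cE (pb D2 al (-1) (t + (-n)) (t + (i2 + l2 - i3 + 1)) (by omega)) (pb c al 0 (t + (i2 + l2 - i3 + 1)) (t + (2 * i2 + l2 - k - l - i3)) (by omega))))) al 1 (t + (i + i2 - 2 * k - l - 1)) (t + (i + i3 - n - k - i2 - l2 - 1)) (by omega))) (sh al 2 (t + (i + i3 - n - k - i2 - l2 - 1)) (t + (n + i + i3 - k - i2 - l2 - 1)) (by omega))))
    · by_cases z23 : (j + l + l2 + 2) ≤ (n + i3)
      · by_cases v14 : (j + k) ≤ (i + i2 + l2 + 1)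
        · have kk357 : (j + l + l2 + 2) ≤ (n + i3) := by clear * - z23; omega
          have kk358 : (n + i3) ≤ (j + l + l2 + 2) := by clear * - b3; omega
          have kk359 : (n + i + i2 + i3) ≤ (j + 2 * k + l) := by clear * - b0 b3 b4 b5 b6 y0 y17 z19; linarith
          have kk360 : (j + l + 2) ≤ (n + i2) := by clear * - b2 b3 b6 v14 y21; omega
          have kk361 : (i2) ≤ (j + l) := by clear * - b2 b3 b5 v14 y18 y21 z15 z19; linarith
          have kk362 : (k + i2 + l2 + 1) ≤ (n + i3) := by clear * - y17; omega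
          have kk363 : (i2) ≤ (k) := by clear * - b0 b3 b4 b5 b6 y0 y17; linarith
          have kk364 : (i2 + l2) ≤ (k + l) := by clear * - y20; omega
          have kk365 : (j) ≤ (k) := by clear * - b2 b6 v14; omega
          have kk366 : (0) ≤ (i + 1) := by clear * - y0; omega
          have kk367 : (j + k) ≤ (i + i2 + l2 + 1) := by clear * - v14; omega
          have kk368 : (k) ≤ (i + l + 1) := by clear * - v14 y0 y17 z19; omega
          clear * - al a1 b c D2 mx hL kk357 kk358 kk359 kk360 kk361 kk362 kk363 kk364 kk365 kk366 kk367 kk368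
          have := mx (2 * k + l - n - i2 + 2) ((2 * k + l - n - i2 + 2) + (n + i2 - k - l - 2)) (n + i2 - j - l - 1) (by omega) (by omega) (mgP (b := (j + 2 * k + l - n - i - i2 + 1)) (le_refl _) (fun t h1 h2 => (cE (cE (qf (show Par W (2 * k + l - i2 + 2) (k + l + l2 + 2) (n + i + i2 - 2 * k - l - 1) from fun t h1 h2 => (cE (sh al (-1) t (t + (-n)) (by omega)) (cE (cE (pb c al (-1) (t + (-n)) (t + (i2 - k - l - 1)) (by omega)) (pb b al 0 (t + (i2 - k - l - 1)) (t + (i + i2 - 2 * k - l - 1)) (by omega))) (sh al 1 (t + (i + i2 - 2 * k - l - 1)) (t + (n + i + i2 - 2 * k - l - 1)) (by omega))))) al (-1) t (t + (2 * n + i + i2 - 2 * k - l - 1)) (by omega)) (qf a1 al 1 (t + (2 * n + i + i2 - 2 * k - l - 1)) (t + (n + i + i2 - j - k - l - 1)) (by omega))) (qf b al 0 (t + (n + i + i2 - j - k - l - 1)) (t + (n + i2 - j - l - 1)) (by omega)))) (fun t h1 h2 => (cE (sh al (-1) t (t + (-n)) (by omega)) (pb D2 al (-1) (t + (-n)) (t +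 (n + i2 - j - l - 1)) (by omega)))))
          omega
        · have kk369 : (j + l + l2 + 2) ≤ (n + i3) := by clear * - z23; omega
          have kk370 : (n + i3) ≤ (j + l + l2 + 2) := by clear * - b3; omega
          have kk371 : (n + i3) ≤ (k + l + l2 + 1) := by clear * - b3 b4 y13; omega
          have kk372 : (j + l + 2) ≤ (n + i2) := by clear * - y12 y14 y9 z23; omega
          have kk373 : (i2) ≤ (j + l) := by clear * - y14 y15; omega
          have kk374 : (k + i2 + l2 + 1) ≤ (n + i3) := by clear * - y17; omega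
          have kk375 : (i2) ≤ (k) := by clear * - b0 b3 b4 b5 b6 y0 y17; linarith
          have kk376 : (i2 + l2) ≤ (k + l) := by clear * - y20; omega
          have kk377 : (j) ≤ (k) := by clear * - y14 z23; omega
          have kk378 : (0) ≤ (i + 1) := by clear * - y0; omega
          have kk379 : (i2 + l2) ≤ (j + l) := by clear * - y0 y17 z19; omega
          have kk380 : (i + i2 + l2 + 1) ≤ (j + k) := by clear * - v14; omega
          clear * - al a1 b c D2 mx hL kk369 kk370 kk371 kk372 kk373 kk374 kk375 kk376 kk377 kk378 kk379 kk380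
          have := mx (2 * k + l - n - i2 + 2) ((2 * k + l - n - i2 + 2) + (n + i2 - k - l - 2)) (n + i2 - j - l - 1) (by omega) (by omega) (mgP (b := (k + l + l2 - n + 2)) (le_refl _) (fun t h1 h2 => (cE (cE (qf (show Par W (2 * k + l - i2 + 2) (k + l + l2 + 2) (n + i + i2 - 2 * k - l - 1) from fun t h1 h2 => (cE (sh al (-1) t (t + (-n)) (by omega)) (cE (cE (pb c al (-1) (t + (-n)) (t + (i2 - k - l - 1)) (by omega)) (pb b al 0 (t + (i2 - k - l - 1)) (t + (i + i2 - 2 * k - l - 1)) (by omega))) (sh al 1 (t + (i + i2 - 2 * k - l - 1)) (t + (n + i + i2 - 2 * k - l - 1)) (by omega))))) al (-1) t (t + (2 * n + i + i2 - 2 * k - l - 1)) (by omega)) (qf a1 al 1 (t + (2 * n + i + i2 - 2 * k - l - 1)) (t + (n + i + i2 - j - k - l - 1)) (by omega))) (qf b al 0 (t + (n + i + i2 - j - k - l - 1)) (t + (n + i2 - j - l - 1)) (by omega)))) (fun t h1 h2 => (cE (sh al (-1) t (t + (-n)) (by omega)) (pb D2 al (-1) (t + (-n)) (t + (n + i2 - j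 - l - 1)) (by omega)))))
          omega
      · by_cases z24 : (2 * k + l + 2) ≤ (n + i + i2)
        · by_cases z25 : (i + i2 + l2 + 2) ≤ (2 * k)
          · have kk381 : (k) ≤ (i2 + l2) := by clear * - b6 y21 z23 z24; omega
            have kk382 : (i2 + l2 + 1) ≤ (k + l) := by clear * - y20; omega
            have kk383 : (2 * k + l + 2) ≤ (n + i + i2) := by clear * - z24; omega
            have kk384 : (j + 1) ≤ (k) := by clear * - b6 z24; omega
            have kk385 : (2 * k) ≤ (j + i2 + l2 + 1) := by clear * - y21 z23 z24; omega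
            have kk386 : (n) ≤ (j + l + l2 + 3) := by clear * - y13 z23; omega
            have kk387 : (i + i2 + l2 + 2) ≤ (2 * k) := by clear * - z25; omega
            have kk388 : (i2) ≤ (k) := by clear * - b0 b4 b5 b6 y0 y17 z23; linarith
            have kk389 : (i2 + l2) ≤ (k + l) := by clear * - y20; omega
            have r390 : (n + i + i2 - 2 * k - l - 1) % 2 = 0 := by clear * - ev n1p n2p n3p; omega
            have r391 : (k - j) % 2 = 0 := by clear * - ev n1p n2p n3p; omega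
            clear * - al a1 b c n3 kk381 kk382 kk383 kk384 kk385 kk386 kk387 kk388 kk389 r390 r391
            exact n3.f0 (rEE (sh al 1 (k + l + l2 - n + 2) (k + l + l2 + 2) (by omega)) (cE (pb b al 0 (i2 + l2 + 1) (i + i2 + l2 - k + 1) (by omega)) (sh al 1 (i + i2 + l2 - k + 1) (n + i + i2 + l2 - k + 1) (by omega))) (rotR (n + i + i2 - 2 * k - l - 1) (k - j) (k + l + l2 + 2) (n + i + i2 + l2 - k + 1) (by omega) (fun t h1 h2 => (qf (show Par W (2 * k + l - i2 + 2) (k + l + l2 + 2) (n + i + i2 - 2 * k - l - 1) from fun t h1 h2 => (cE (sh al (-1) t (t + (-n)) (by omega)) (cE (cE (pb c al (-1) (t + (-n)) (t + (i2 - k - l - 1)) (by omega)) (pb b al 0 (t + (i2 - k - l - 1)) (t + (i + i2 - 2 * k - l - 1)) (by omega))) (sh al 1 (t + (i + i2 - 2 * k - l - 1)) (t + (n + i + i2 - 2 * k - l - 1)) (by omega))))) al 0 t (t + (n + i + i2 - 2 * k - l - 1)) (by omega))) (fun t h1 h2 => (cE (qf a1 al 1 t (t + (k - n - j)) (by omega)) (sh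 al 1 (t + (k - n - j)) (t + (k - j)) (by omega))))))
          · have kk392 : (i + 1) ≤ (k) := by clear * - b2 b6 y21 z23 z25; omega
            have kk393 : (k + 1) ≤ (n + i) := by clear * - b0 b4 b5 y20 y21 z25; omega
            have kk394 : (n + i2) ≤ (k + 2 * l + 2) := by clear * - b6 y0 y17 z19 z25; omega
            clear * - al b mx hL kk392 kk393 kk394
            exact absurd (mx (i - n + 1) (i + l - n + 1) (k - i) (by omega) (by omega) fun t h1 h2 => (cE (qf b al (-1) t (t + (n + k - i)) (by omega)) (sh al (-1) (t + (n + k - i)) (t + (k - i)) (by omega)))) (by omega)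
        · have kk395 : (i + 1) ≤ (k) := by clear * - y19 y20; omega
          have kk396 : (k + 1) ≤ (n + i) := by clear * - y12 y19 y8 z15; omega
          have kk397 : (n + i2) ≤ (k + 2 * l + 2) := by clear * - y0 y17 y2 z15 z23 z24; omega
          clear * - al b mx hL kk395 kk396 kk397
          exact absurd (mx (i + 1) (i + l + 1) (k - i) (by omega) (by omega) fun t h1 h2 => (qf b al 0 t (t + (k - i)) (by omega))) (by omega)

theorem t1a_10 {W : ℤ → G} {n Q i j k l i2 l2 i3 : ℤ} (al : AL W n Q)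
    (hy : (0) ≤ (i) ∧ (i) ≤ (j) ∧ (j + 1) ≤ (Q) ∧ (Q) ≤ (k) ∧ (k + 1) ≤ (n) ∧ (Q) ≤ (i + l + 1) ∧ (k + l + 2) ≤ (n) ∧ (Q) ≤ (i2) ∧ (i2) ≤ (i + l + 1) ∧ (Q) ≤ (i2 + l2 + 1) ∧ (i2 + l2 + 2) ≤ (n) ∧ (n) ≤ (k + l + l2 + 2) ∧ (k + l + l2 + 3) ≤ (n + Q) ∧ (0) ≤ (i3) ∧ (n + i3) ≤ (k + l + l2 + 2) ∧ (k + i2 + l2 + 2) ≤ (n + j + i3) ∧ (j + i3 + 1) ≤ (k) ∧ (k + i2 + l2 + 2) ≤ (n + i3) ∧ (i + 2 * i2 + 1) ≤ (2 * Q + k) ∧ (i + l + 1) ≤ (i2 + l2) ∧ (i2 + l2 + 1) ≤ (k + l) ∧ (i + 1) ≤ (i3))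
    (a1 : Par W (0) (j) (k - j))
    (a2 : Par W (Q + j - k) (j) (k - j))
    (s1 : Ant W (0) (i) (i + j))
    (s2 : Ant W (j + 1) (Q) (i + j))
    (b : Par W (i + 1) (i + l + 1) (k - i))
    (tt : Ant W (Q) (i2) (i + l + i2 + 1))
    (c : Par W (i2 + 1) (i2 + l2 + 1) (k + l - i2 + 1))
    (u1 : Ant W (0) (i3) (k + l + l2 + i3 - n + 2))
    (u2 : Ant W (k + l + l2 - n + 3) (Q) (k + l + l2 + i3 - n + 2))
    (D1 : Par W (i3 + 1) (Q) (i2 + l2 - i3 + 1))
    (D2 : Par W (i2 + l2 + 2) (n) (i3 - i2 - l2 - 1))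
    {L : ℤ} (mx : ∀ a b g, 0 < g → g < n → Par W a b g → b - a ≤ L)
    (hL : L ≤ (n - j - 3) ∧ L ≤ (n + Q - k - 3) ∧ L ≤ (n - l - 3) ∧ L ≤ (n + i - k - 2) ∧ L ≤ (n - l2 - 3) ∧ L ≤ (n + i3 - Q - 2) ∧ L ≤ (i2 + l2 - 1) ∧ L ≤ (n + i2 - k - l - 3) ∧ L ≤ (Q + i2 + l2 - i - l - 3))
    (bd0 : Bd W n L (j) (i) (k))
    (bd2 : Bd W n L (k + l + l2 - n + 2) (i3) (i2 + l2 + 1))
    (n1 : Nd W (j) (i) (k))
    (n2 : Nd W (i + l + 1) (i2) (k + l + 1))
    (n3 : Nd W (k + l + l2 - n + 2) (i3) (i2 + l2 + 1))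
    (b0 : (i + 2 * l + 3) ≤ (Q + i2 + l2))
    (b1 : (i + l + 3) ≤ (Q + i2))
    (b2 : (k + 2 * l + 2 * l2 + 6) ≤ (2 * n + j))
    (b3 : (n + i3) ≤ (j + l + l2 + 2))
    (b4 : (j + 2 * i3 + 1) ≤ (k))
    (b5 : (2 * Q + i2 + l2) ≤ (n + i + j + i3))
    (b6 : (3 * k + l + 2) ≤ (n + i + j + i2)) : False := by
  have ev := al.ev
  obtain ⟨y0, y1, y2, y3, y4, y5, y6, y7, y8, y9, y10, y11, y12, y13, y14, y15, y16, y17, y18, y19, y20, y21⟩ := id hy
  have n1p := And.intro n1.p1 n1.p2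
  have n2p := And.intro n2.p1 n2.p2
  have n3p := And.intro n3.p1 n3.p2
  by_cases z11 : (i + 2 * i2 + l2 + 1) ≤ (2 * k + l + i3)
  · by_cases z12 : (n + i + i2) ≤ (3 * k + l + 1)
    · by_cases z13 : (i2) ≤ (k)
      · by_cases v2 : (2 * k) ≤ (i + i2 + l2 + 1)
        · have kk32 : (3 * k + l + 2) ≤ (n + i + j + i2) := by clear * - b6; omega
          have kk33 : (i + j + i2) ≤ (3 * k + l) := by clear * - b1 b4 b5 v2 y16 z11 z12; linarith
          have kk34 : (n + i + i2) ≤ (3 * k + l + 1) := by clear * - z12; omega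
          have kk35 : (i2) ≤ (k) := by clear * - z13; omega
          have kk36 : (i2 + l2) ≤ (k + l) := by clear * - y20; omega
          have kk37 : (i + j + 1) ≤ (k) := by clear * - y16 y21; omega
          have kk38 : (2 * k) ≤ (i + i2 + l2 + 1) := by clear * - v2; omega
          clear * - al a1 b c kk32 kk33 kk34 kk35 kk36 kk37 kk38
          exact al.ubP (n + i + j + i2 - 3 * k - l - 1) (by omega) (by omega) fun t h1 h2 => (cE (qf (show Par W (2 * k + l - i2 + 2) (k + l + l2 + 2) (n + i + i2 - 2 * k - l - 1) from fun t h1 h2 => (cE (sh al (-1) t (t + (-n)) (by omega)) (cE (cE (pb c al (-1) (t + (-n)) (t + (i2 - k - l - 1)) (by omega)) (pb b al 0 (t + (i2 - k - l - 1)) (t + (i + i2 - 2 * k - l - 1)) (by omega))) (sh al 1 (t + (i + i2 - 2 * k - l - 1)) (t + (n + i + i2 - 2 * k - l - 1)) (by omega))))) al (-1) t (t + (2 * n + i + i2 - 2 * k - l - 1)) (by omega)) (pb a1 al 1 (t + (2 * n + i + i2 - 2 * k - l - 1)) (t +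 (n + i + j + i2 - 3 * k - l - 1)) (by omega)))
        · have kk39 : (3 * k + l + 2) ≤ (n + i + j + i2) := by clear * - b6; omega
          have kk40 : (i + j + i2) ≤ (3 * k + l) := by clear * - b3 b4 b6 v2 y13 y21 z11; linarith
          have kk41 : (n) ≤ (k + l + l2 + 2) := by clear * - b3 b4 y13; omega
          have kk42 : (i2) ≤ (k) := by clear * - z13; omega
          have kk43 : (i2 + l2) ≤ (k + l) := by clear * - y20; omega
          have kk44 : (i + j + 1) ≤ (k) := by clear * - y16 y21; omega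
          have kk45 : (i + i2 + l2 + 1) ≤ (2 * k) := by clear * - v2; omega
          clear * - al a1 b c kk39 kk40 kk41 kk42 kk43 kk44 kk45
          exact al.ubP (n + i + j + i2 - 3 * k - l - 1) (by omega) (by omega) fun t h1 h2 => (cE (qf (show Par W (2 * k + l - i2 + 2) (k + l + l2 + 2) (n + i + i2 - 2 * k - l - 1) from fun t h1 h2 => (cE (sh al (-1) t (t + (-n)) (by omega)) (cE (cE (pb c al (-1) (t + (-n)) (t + (i2 - k - l - 1)) (by omega)) (pb b al 0 (t + (i2 - k - l - 1)) (t + (i + i2 - 2 * k - l - 1)) (by omega))) (sh al 1 (t + (i + i2 - 2 * k - l - 1)) (t + (n + i + i2 - 2 * k - l - 1)) (by omega))))) al (-1) t (t + (2 * n + i + i2 - 2 * k - l - 1)) (by omega)) (pb a1 al 1 (t + (2 * n + i + i2 - 2 * k - l - 1)) (t + (n + i + j + i2 - 3 * k - l - 1)) (by omega)))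
      · have kk46 : (j + 1) ≤ (k) := by clear * - b4 y13; omega
        have kk47 : (i + 2 * i2 + l2 + 1) ≤ (2 * k + l + i3) := by clear * - z11; omega
        have kk48 : (2 * k + l + i3) ≤ (i + j + 2 * i2 + l2 + 1) := by clear * - b0 b3 b4 b5 b6 y0 z13; linarith
        have kk49 : (k + l + i3) ≤ (j + i2 + l2) := by clear * - b0 b3 b4 b5 b6 z13; omega
        have kk50 : (k + i2 + l2 + 2) ≤ (n + i3) := by clear * - y17; omega
        have kk51 : (i2 + l2) ≤ (k + l) := by clear * - y20; omega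
        have kk52 : (n) ≤ (k + l + l2 + 2) := by clear * - b3 b4 y13; omega
        have kk53 : (k) ≤ (i2) := by clear * - z13; omega
        have kk54 : (n + i2) ≤ (2 * k + 2 * l + 2) := by clear * - b3 b4 y13 y20; omega
        have r55 : (k - j) % 2 = 0 := by clear * - ev n1p n2p n3p; omega
        have r56 : (2 * k + l + i3 - i - 2 * i2 - l2) % 2 = 0 := by clear * - ev n1p n2p n3p; omega
        clear * - al a1 b c D2 n1 kk46 kk47 kk48 kk49 kk50 kk51 kk52 kk53 kk54 r55 r56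
        exact n1.f0 (rEE (sh al 1 (j) (n + j) (by omega)) (sh al 1 (k) (n + k) (by omega)) (rotR (k - j) (2 * k + l + i3 - i - 2 * i2 - l2) (n + j) (n + k) (by omega) (fun t h1 h2 => (cE (qf a1 al 1 t (t + (k - n - j)) (by omega)) (sh al 1 (t + (k - n - j)) (t + (k - j)) (by omega)))) (fun t h1 h2 => (cE (cE (qf b al 1 t (t + (k - n - i)) (by omega)) (pb (show Par W (k + l + i3 - i2 - l2 + 1) (n + i3 - i2 - l2 - 1) (2 * i2 + l2 - k - l - i3) from fun t h1 h2 => (cE (sh al (-1) t (t + (-n)) (by omega)) (cE (pb D2 al (-1) (t + (-n)) (t + (i2 + l2 - i3 + 1)) (by omega)) (pb c al 0 (t + (i2 + l2 - i3 + 1)) (t + (2 * i2 + l2 - k - l - i3)) (by omega))))) al 0 (t + (k - n - i)) (t + (2 * k + l + i3 - n - i - 2 * i2 - l2)) (by omega))) (sh al 1 (t + (2 * k + l + i3 - n - i - 2 * i2 - l2)) (t + (2 * k + l + i3 - i - 2 * i2 - l2)) (by omega))))))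
    · by_cases v3 : (i2) ≤ (k)
      · have kk57 : (i + 2 * i2 + l2 + 1) ≤ (2 * k + l + i3) := by clear * - z11; omega
        have kk58 : (2 * k + l + i3 + 1) ≤ (n + i + 2 * i2 + l2) := by clear * - b1 b3 b4 b5 b6 y13 z11 z12; linarith
        have kk59 : (2 * k + l + i3 + 1) ≤ (Q + 2 * i2 + l2) := by clear * - b1 y14 z12; omega
        have kk60 : (Q + 2 * k + l + 1) ≤ (n + i + i2) := by clear * - v3 y7 z12; omega
        have kk61 : (i2 + l2) ≤ (k + l) := by clear * - y20; omega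
        have kk62 : (n) ≤ (k + l + l2 + 2) := by clear * - b3 b4 y13; omega
        have kk63 : (i2) ≤ (k) := by clear * - v3; omega
        have kk64 : (n + i2) ≤ (2 * k + 2 * l + 2) := by clear * - b3 b4 y13 y20; omega
        clear * - al b c D2 kk57 kk58 kk59 kk60 kk61 kk62 kk63 kk64
        exact al.ubQ (2 * k + l + i3 - i - 2 * i2 - l2) (by omega) (by omega) fun t h1 h2 => (cE (sh al (-1) t (t + (-n)) (by omega)) (cE (qf b al (-1) (t + (-n)) (t + (k - i)) (by omega)) (pb (show Par W (k + l + i3 - i2 - l2 + 1) (n + i3 - i2 - l2 - 1) (2 * i2 + l2 - k - l - i3) from fun t h1 h2 => (cE (sh al (-1) t (t + (-n)) (by omega)) (cE (pb D2 al (-1) (t + (-n)) (t + (i2 + l2 - i3 + 1)) (by omega)) (pb c al 0 (t + (i2 + l2 - i3 + 1)) (t + (2 * i2 + l2 - k - l - i3)) (by omega))))) al 0 (t + (k - i)) (t + (2 * k + l + i3 - i - 2 * i2 - l2)) (by omega))))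
      · have kk65 : (i + 2 * i2 + l2 + 1) ≤ (2 * k + l + i3) := by clear * - z11; omega
        have kk66 : (2 * k + l + i3 + 1) ≤ (n + i + 2 * i2 + l2) := by clear * - b1 b3 b4 b5 b6 y13 z11 z12; linarith
        have kk67 : (k + l + i3 + 1) ≤ (Q + i2 + l2) := by clear * - b0 y14 y20 z12; omega
        have kk68 : (Q + 2 * k + l + 1) ≤ (n + i + i2) := by clear * - y3 z12; omega
        have kk69 : (i2 + l2) ≤ (k + l) := by clear * - y20; omega
        have kk70 : (n) ≤ (k + l + l2 + 2) := by clear * - b3 b4 y13; omega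
        have kk71 : (k) ≤ (i2) := by clear * - v3; omega
        have kk72 : (n + i2) ≤ (2 * k + 2 * l + 2) := by clear * - b3 b4 y13 y20; omega
        clear * - al b c D2 kk65 kk66 kk67 kk68 kk69 kk70 kk71 kk72
        exact al.ubQ (2 * k + l + i3 - i - 2 * i2 - l2) (by omega) (by omega) fun t h1 h2 => (cE (sh al (-1) t (t + (-n)) (by omega)) (cE (qf b al (-1) (t + (-n)) (t + (k - i)) (by omega)) (pb (show Par W (k + l + i3 - i2 - l2 + 1) (n + i3 - i2 - l2 - 1) (2 * i2 + l2 - k - l - i3) from fun t h1 h2 => (cE (sh al (-1) t (t + (-n)) (by omega)) (cE (pb D2 al (-1) (t + (-n)) (t + (i2 + l2 - i3 + 1)) (by omega)) (pb c al 0 (t + (i2 + l2 - i3 + 1)) (t + (2 * i2 + l2 - k - l - i3)) (by omega))))) al 0 (t + (k - i)) (t + (2 * k + l + i3 - i - 2 * i2 - l2)) (by omega))))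
  · by_cases z14 : (2 * i + l + i2 + 2 * l2 + 5) ≤ (n + 2 * Q + k)
    · have kk73 : (3 * k + l + 2) ≤ (n + 2 * i + i2) := by clear * - y0 y17 z11; omega
      have kk74 : (2 * i + l + i2 + 2 * l2 + 5) ≤ (n + 2 * Q + k) := by clear * - z14; omega
      have kk75 : (3 * k + l + 3) ≤ (n + i2 + 2 * i3) := by clear * - y13 y17 y21 z11; omega
      have kk76 : (3 * k + l + 3) ≤ (n + 2 * i + i2) := by clear * - y0 y17 z11 ev n1p n2p n3p; omega
      have kk77 : (k) ≤ (i2) := by clear * - y20 y21 z11; omega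
      have kk78 : (i2 + l2) ≤ (k + l) := by clear * - y20; omega
      have kk79 : (i + i2) ≤ (2 * k) := by clear * - b0 b5 y14 y16 y18 y20 y21 z11; linarith
      have kk80 : (i + i2 + l2) ≤ (2 * k + l) := by clear * - y19 y20; omega
      have kk81 : (2 * k + i3) ≤ (2 * i + i2 + l2 + 1) := by clear * - y8 z11; omega
      have kk82 : (2 * k) ≤ (i + i2 + l2 + 1) := by clear * - b3 b4 y13 y17 z11; omega
      have r83 : (k + l + l2 + i3 - n + 2) % 2 = 0 := by clear * - ev n1p n2p n3p; omega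
      have r84 : (n + 2 * i + i2 - 3 * k - l - 1) % 2 = 0 := by clear * - ev n1p n2p n3p; omega
      clear * - al b c u2 kk73 kk74 kk75 kk76 kk77 kk78 kk79 kk80 kk81 kk82 r83 r84
      exact midP al (n + 2 * i + i2 - 3 * k - l - 1) (k + l + l2 + i3 - n + 2) (k + l + l2 - n + 3) (3 * k + l - n - i - i2 + 2) (2 * i + i2 + l2 - 2 * k + 1) (by omega) (fun t h1 h2 => (qa u2 al 0 t ((k + l + l2 + i3 - n + 2) - t) (by omega))) (fun t h1 h2 => (cE (qf (show Par W (k + l + 2) (k + l + l2 + 2) (n + i + i2 - 2 * k - l - 1) from fun t h1 h2 => (cE (sh al (-1) t (t + (-n)) (by omega)) (cE (cE (pb c al (-1) (t + (-n)) (t + (i2 - k - l - 1)) (by omega)) (pb b al 0 (t + (i2 - k - l - 1)) (t + (i + i2 - 2 * k - l - 1)) (by omega))) (sh al 1 (t + (i + i2 - 2 * k - l - 1)) (t + (n + i + i2 - 2 * k - l - 1)) (by omega))))) al (-1) t (t + (2 * n + i + i2 - 2 * k - l - 1)) (by omega)) (pb b al 1 (t + (2 * n + i + i2 - 2 * k - l - 1)) (t + (n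 + 2 * i + i2 - 3 * k - l - 1)) (by omega))))
    · by_cases v4 : (3 * k + l + i3 + 2) ≤ (n + 2 * i + i2)
      · have kk85 : (3 * k + l + 2) ≤ (n + 2 * i + i2) := by clear * - b0 v4 y20 y21 z14; omega
        have kk86 : (n + 2 * i + i2) ≤ (3 * k + l + 2 * i3 + 1) := by clear * - b0 y20 y21 z14; omega
        have kk87 : (n + k) ≤ (l + i2 + 2 * l2 + 2 * i3 + 3) := by clear * - b0 b3 b4 v4 y20 y21 z14; linarith
        have kk88 : (n + k) ≤ (2 * i + l + i2 + 2 * l2 + 3) := by clear * - b0 b3 b4 v4 y20 y21 z14; linarith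
        have kk89 : (k) ≤ (i2) := by clear * - y20 y21 z11; omega
        have kk90 : (i2 + l2) ≤ (k + l) := by clear * - y20; omega
        have kk91 : (i + i2) ≤ (2 * k) := by clear * - b1 b4 b5 y18 y20 y21 z14; linarith
        have kk92 : (i + i2 + l2) ≤ (2 * k + l) := by clear * - b0 b4 b6 y20 y21 z14; omega
        have kk93 : (3 * k + l + i3 + 2) ≤ (n + 2 * i + i2) := by clear * - v4; omega
        have kk94 : (3 * k + l + 2) ≤ (n + i + i2) := by clear * - v4 y21; omega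
        have r95 : (k + l + l2 + i3 - n + 2) % 2 = 0 := by clear * - ev n1p n2p n3p; omega
        have r96 : (n + 2 * i + i2 - 3 * k - l - 1) % 2 = 0 := by clear * - ev n1p n2p n3p; omega
        clear * - al b c u1 kk85 kk86 kk87 kk88 kk89 kk90 kk91 kk92 kk93 kk94 r95 r96
        exact midP al (n + 2 * i + i2 - 3 * k - l - 1) (k + l + l2 + i3 - n + 2) (0) (3 * k + l - n - i - i2 + 2) (2 * i + i2 + l2 - 2 * k + 1) (by omega) (fun t h1 h2 => (qa u1 al 0 t ((k + l + l2 + i3 - n + 2) - t) (by omega))) (fun t h1 h2 => (cE (qf (show Par W (k + l + 2) (k + l + l2 + 2) (n + i + i2 - 2 * k - l - 1) from fun t h1 h2 => (cE (sh al (-1) t (t + (-n)) (by omega)) (cE (cE (pb c al (-1) (t + (-n)) (t + (i2 - k - l - 1)) (by omega)) (pb b al 0 (t + (i2 - k - l - 1)) (t + (i + i2 - 2 * k - l - 1)) (by omega))) (sh al 1 (t + (i + i2 - 2 * k - l - 1)) (t + (n + i + i2 - 2 * k - l - 1)) (by omega))))) al (-1) t (t + (2 * n + i + i2 - 2 * k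 - l - 1)) (by omega)) (pb b al 1 (t + (2 * n + i + i2 - 2 * k - l - 1)) (t + (n + 2 * i + i2 - 3 * k - l - 1)) (by omega))))
      · have kk97 : (3 * k + l + 2) ≤ (n + 2 * i + i2) := by clear * - b0 y17 y20 z11 z14; omega
        have kk98 : (3 * k + l + 3) ≤ (n + 2 * i + i2) := by clear * - b0 y17 y20 z11 z14; omega
        have kk99 : (7 * k + l + 1) ≤ (n + 4 * i + 3 * i2 + 2 * l2) := by clear * - b0 b3 b4 v4 y17 y20 z11 z14; linarith
        have kk100 : (7 * k + l + 2 * i3 + 1) ≤ (n + 6 * i + 3 * i2 + 2 * l2) := by clear * - b0 b3 b4 v4 y17 y20 z11 z14; linarith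
        have kk101 : (k) ≤ (i2) := by clear * - y20 y21 z11; omega
        have kk102 : (i2 + l2) ≤ (k + l) := by clear * - y20; omega
        have kk103 : (i + i2) ≤ (2 * k) := by clear * - b1 b4 b5 y18 y20 y21 z14; linarith
        have kk104 : (i + i2 + l2) ≤ (2 * k + l) := by clear * - b0 b4 b6 y20 y21 z14; omega
        have kk105 : (n + 2 * i + i2) ≤ (3 * k + l + i3 + 2) := by clear * - v4; omega
        have kk106 : (i) ≤ (i3) := by clear * - y21; omega
        have r107 : (k + l + l2 + i3 - n + 2) % 2 = 0 := by clear * - ev n1p n2p n3p; omega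
        have r108 : (n + 2 * i + i2 - 3 * k - l - 1) % 2 = 0 := by clear * - ev n1p n2p n3p; omega
        clear * - al b c u1 kk97 kk98 kk99 kk100 kk101 kk102 kk103 kk104 kk105 kk106 r107 r108
        exact midP al (n + 2 * i + i2 - 3 * k - l - 1) (k + l + l2 + i3 - n + 2) (3 * k + l + i3 - n - 2 * i - i2 + 2) (3 * k + l - n - i - i2 + 2) (2 * i + i2 + l2 - 2 * k + 1) (by omega) (fun t h1 h2 => (qa u1 al 0 t ((k + l + l2 + i3 - n + 2) - t) (by omega))) (fun t h1 h2 => (cE (qf (show Par W (k + l + 2) (k + l + l2 + 2) (n + i + i2 - 2 * k - l - 1) from fun t h1 h2 => (cE (sh al (-1) t (t + (-n)) (by omega)) (cE (cE (pb c al (-1) (t + (-n)) (t + (i2 - k - l - 1)) (by omega)) (pb b al 0 (t + (i2 - k - l - 1)) (t + (i + i2 - 2 * k - l - 1)) (by omega))) (sh al 1 (t + (i + i2 - 2 * k - l - 1)) (t + (n + i + i2 - 2 * k - l - 1)) (by omega))))) al (-1) t (t + (2 * n + i + i2 - 2 * k - l - 1)) (by omega)) (pb b al 1 (t + (2 * n +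 i + i2 - 2 * k - l - 1)) (t + (n + 2 * i + i2 - 3 * k - l - 1)) (by omega))))

theorem t1a_9 {W : ℤ → G} {n Q i j k l i2 l2 i3 : ℤ} (al : AL W n Q)
    (hy : (0) ≤ (i) ∧ (i) ≤ (j) ∧ (j + 1) ≤ (Q) ∧ (Q) ≤ (k) ∧ (k + 1) ≤ (n) ∧ (Q) ≤ (i + l + 1) ∧ (k + l + 2) ≤ (n) ∧ (Q) ≤ (i2) ∧ (i2) ≤ (i + l + 1) ∧ (Q) ≤ (i2 + l2 + 1) ∧ (i2 + l2 + 2) ≤ (n) ∧ (n) ≤ (k + l + l2 + 2) ∧ (k + l + l2 + 3) ≤ (n + Q) ∧ (0) ≤ (i3) ∧ (n + i3) ≤ (k + l + l2 + 2) ∧ (k + i2 + l2 + 2) ≤ (n + j + i3) ∧ (j + i3 + 1) ≤ (k) ∧ (k + i2 + l2 + 2) ≤ (n + i3) ∧ (i + 2 * i2 + 1) ≤ (2 * Q + k) ∧ (i + l + 1) ≤ (i2 + l2) ∧ (i2 + l2 + 1) ≤ (k + l) ∧ (i + 1) ≤ (i3))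
    (a1 : Par W (0) (j) (k - j))
    (a2 : Par W (Q + j - k) (j) (k - j))
    (s1 : Ant W (0) (i) (i + j))
    (s2 : Ant W (j + 1) (Q) (i + j))
    (b : Par W (i + 1) (i + l + 1) (k - i))
    (tt : Ant W (Q) (i2) (i + l + i2 + 1))
    (c : Par W (i2 + 1) (i2 + l2 + 1) (k + l - i2 + 1))
    (u1 : Ant W (0) (i3) (k + l + l2 + i3 - n + 2))
    (u2 : Ant W (k + l + l2 - n + 3) (Q) (k + l + l2 + i3 - n + 2))
    (D1 : Par W (i3 + 1) (Q) (i2 + l2 - i3 + 1))
    (D2 : Par W (i2 + l2 + 2) (n) (i3 - i2 - l2 - 1))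
    {L : ℤ} (mx : ∀ a b g, 0 < g → g < n → Par W a b g → b - a ≤ L)
    (hL : L ≤ (n - j - 3) ∧ L ≤ (n + Q - k - 3) ∧ L ≤ (n - l - 3) ∧ L ≤ (n + i - k - 2) ∧ L ≤ (n - l2 - 3) ∧ L ≤ (n + i3 - Q - 2) ∧ L ≤ (i2 + l2 - 1) ∧ L ≤ (n + i2 - k - l - 3) ∧ L ≤ (Q + i2 + l2 - i - l - 3))
    (bd0 : Bd W n L (j) (i) (k))
    (bd2 : Bd W n L (k + l + l2 - n + 2) (i3) (i2 + l2 + 1))
    (n1 : Nd W (j) (i) (k))
    (n2 : Nd W (i + l + 1) (i2) (k + l + 1))
    (n3 : Nd W (k + l + l2 - n + 2) (i3) (i2 + l2 + 1))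
    (b0 : (i + 2 * l + 3) ≤ (Q + i2 + l2))
    (b1 : (i + l + 3) ≤ (Q + i2))
    (b2 : (k + 2 * l + 2 * l2 + 6) ≤ (2 * n + j))
    (b3 : (n + i3) ≤ (j + l + l2 + 2))
    (b4 : (j + 2 * i3 + 1) ≤ (k))
    (b5 : (2 * Q + i2 + l2) ≤ (n + i + j + i3)) : False := by
  have ev := al.ev
  obtain ⟨y0, y1, y2, y3, y4, y5, y6, y7, y8, y9, y10, y11, y12, y13, y14, y15, y16, y17, y18, y19, y20, y21⟩ := id hy
  have n1p := And.intro n1.p1 n1.p2
  have n2p := And.intro n2.p1 n2.p2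
  have n3p := And.intro n3.p1 n3.p2
  by_cases z10 : (3 * k + l + 2) ≤ (n + i + j + i2)
  · exact t1a_10 al hy a1 a2 s1 s2 b tt c u1 u2 D1 D2 mx hL bd0 bd2 n1 n2 n3 (by clear * - b0; omega) (by clear * - b1; omega) (by clear * - b2; omega) (by clear * - b3; omega) (by clear * - b4; omega) (by clear * - b5; omega) (by clear * - z10; omega)
  · exact t1a_11 al hy a1 a2 s1 s2 b tt c u1 u2 D1 D2 mx hL bd0 bd2 n1 n2 n3 (by clear * - b0; omega) (by clear * - b1; omega) (by clear * - b2; omega) (by clear * - b3; omega) (by clear * - b4; omega) (by clear * - b5; omega) (by clear * - z10; omega)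

theorem t1a_8 {W : ℤ → G} {n Q i j k l i2 l2 i3 : ℤ} (al : AL W n Q)
    (hy : (0) ≤ (i) ∧ (i) ≤ (j) ∧ (j + 1) ≤ (Q) ∧ (Q) ≤ (k) ∧ (k + 1) ≤ (n) ∧ (Q) ≤ (i + l + 1) ∧ (k + l + 2) ≤ (n) ∧ (Q) ≤ (i2) ∧ (i2) ≤ (i + l + 1) ∧ (Q) ≤ (i2 + l2 + 1) ∧ (i2 + l2 + 2) ≤ (n) ∧ (n) ≤ (k + l + l2 + 2) ∧ (k + l + l2 + 3) ≤ (n + Q) ∧ (0) ≤ (i3) ∧ (n + i3) ≤ (k + l + l2 + 2) ∧ (k + i2 + l2 + 2) ≤ (n + j + i3) ∧ (j + i3 + 1) ≤ (k) ∧ (k + i2 + l2 + 2) ≤ (n + i3) ∧ (i + 2 * i2 + 1) ≤ (2 * Q + k) ∧ (i + l + 1) ≤ (i2 + l2) ∧ (i2 + l2 + 1) ≤ (k + l) ∧ (i + 1) ≤ (i3))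
    (a1 : Par W (0) (j) (k - j))
    (a2 : Par W (Q + j - k) (j) (k - j))
    (s1 : Ant W (0) (i) (i + j))
    (s2 : Ant W (j + 1) (Q) (i + j))
    (b : Par W (i + 1) (i + l + 1) (k - i))
    (tt : Ant W (Q) (i2) (i + l + i2 + 1))
    (c : Par W (i2 + 1) (i2 + l2 + 1) (k + l - i2 + 1))
    (u1 : Ant W (0) (i3) (k + l + l2 + i3 - n + 2))
    (u2 : Ant W (k + l + l2 - n + 3) (Q) (k + l + l2 + i3 - n + 2))
    (D1 : Par W (i3 + 1) (Q) (i2 + l2 - i3 + 1))
    (D2 : Par W (i2 + l2 + 2) (n) (i3 - i2 - l2 - 1))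
    {L : ℤ} (mx : ∀ a b g, 0 < g → g < n → Par W a b g → b - a ≤ L)
    (hL : L ≤ (n - j - 3) ∧ L ≤ (n + Q - k - 3) ∧ L ≤ (n - l - 3) ∧ L ≤ (n + i - k - 2) ∧ L ≤ (n - l2 - 3) ∧ L ≤ (n + i3 - Q - 2) ∧ L ≤ (i2 + l2 - 1) ∧ L ≤ (n + i2 - k - l - 3) ∧ L ≤ (Q + i2 + l2 - i - l - 3))
    (bd0 : Bd W n L (j) (i) (k))
    (bd2 : Bd W n L (k + l + l2 - n + 2) (i3) (i2 + l2 + 1))
    (n1 : Nd W (j) (i) (k))
    (n2 : Nd W (i + l + 1) (i2) (k + l + 1))
    (n3 : Nd W (k + l + l2 - n + 2) (i3) (i2 + l2 + 1))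
    (b0 : (i + 2 * l + 3) ≤ (Q + i2 + l2))
    (b1 : (i + l + 3) ≤ (Q + i2))
    (b2 : (k + 2 * l + 2 * l2 + 6) ≤ (2 * n + j))
    (b3 : (n + i3) ≤ (j + l + l2 + 2))
    (b4 : (j + 2 * i3 + 1) ≤ (k)) : False := by
  have ev := al.ev
  obtain ⟨y0, y1, y2, y3, y4, y5, y6, y7, y8, y9, y10, y11, y12, y13, y14, y15, y16, y17, y18, y19, y20, y21⟩ := id hy
  have n1p := And.intro n1.p1 n1.p2
  have n2p := And.intro n2.p1 n2.p2
  have n3p := And.intro n3.p1 n3.p2
  by_cases z9 : (n + i + j + i3 + 1) ≤ (2 * Q + i2 + l2)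
  · have kk27 : (n + i + j + i3 + 1) ≤ (2 * Q + i2 + l2) := by clear * - z9; omega
    have kk28 : (i + j + i2 + l2 + 2) ≤ (n + i3) := by clear * - y16 y17 y21; omega
    have kk29 : (Q + i2 + l2 + 1) ≤ (n + i + j) := by clear * - b2 b3 y0 y17 y3 z9; omega
    have kk30 : (0) ≤ (i) := by clear * - y0; omega
    have r31 : (i + j + i3 - n - i2 - l2 - 1) % 2 = 0 := by clear * - ev n1p n2p n3p; omega
    clear * - al s2 D2 kk27 kk28 kk29 kk30 r31
    obtain ⟨t, ht⟩ : ∃ t, 2 * t = (i + j + i3 - n - i2 - l2 - 1) := ⟨(i + j + i3 - n - i2 - l2 - 1) / 2, by omega⟩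
    exact al.ninv t (cE (cI (pb D2 al (-1) t (t + (n + i2 + l2 - i3 + 1)) (by omega)) (ab s2 al 1 (t + (n + i2 + l2 - i3 + 1)) ((i + j + i3 - i2 - l2 - 1) - t) (by omega))) (sh al (-1) ((i + j + i3 - i2 - l2 - 1) - t) t (by omega)))
  · exact t1a_9 al hy a1 a2 s1 s2 b tt c u1 u2 D1 D2 mx hL bd0 bd2 n1 n2 n3 (by clear * - b0; omega) (by clear * - b1; omega) (by clear * - b2; omega) (by clear * - b3; omega) (by clear * - b4; omega) (by clear * - z9; omega)

theorem t1a_7 {W : ℤ → G} {n Q i j k l i2 l2 i3 : ℤ} (al : AL W n Q)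
    (hy : (0) ≤ (i) ∧ (i) ≤ (j) ∧ (j + 1) ≤ (Q) ∧ (Q) ≤ (k) ∧ (k + 1) ≤ (n) ∧ (Q) ≤ (i + l + 1) ∧ (k + l + 2) ≤ (n) ∧ (Q) ≤ (i2) ∧ (i2) ≤ (i + l + 1) ∧ (Q) ≤ (i2 + l2 + 1) ∧ (i2 + l2 + 2) ≤ (n) ∧ (n) ≤ (k + l + l2 + 2) ∧ (k + l + l2 + 3) ≤ (n + Q) ∧ (0) ≤ (i3) ∧ (n + i3) ≤ (k + l + l2 + 2) ∧ (k + i2 + l2 + 2) ≤ (n + j + i3) ∧ (j + i3 + 1) ≤ (k) ∧ (k + i2 + l2 + 2) ≤ (n + i3) ∧ (i + 2 * i2 + 1) ≤ (2 * Q + k) ∧ (i + l + 1) ≤ (i2 + l2) ∧ (i2 + l2 + 1) ≤ (k + l) ∧ (i + 1) ≤ (i3))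
    (a1 : Par W (0) (j) (k - j))
    (a2 : Par W (Q + j - k) (j) (k - j))
    (s1 : Ant W (0) (i) (i + j))
    (s2 : Ant W (j + 1) (Q) (i + j))
    (b : Par W (i + 1) (i + l + 1) (k - i))
    (tt : Ant W (Q) (i2) (i + l + i2 + 1))
    (c : Par W (i2 + 1) (i2 + l2 + 1) (k + l - i2 + 1))
    (u1 : Ant W (0) (i3) (k + l + l2 + i3 - n + 2))
    (u2 : Ant W (k + l + l2 - n + 3) (Q) (k + l + l2 + i3 - n + 2))
    (D1 : Par W (i3 + 1) (Q) (i2 + l2 - i3 + 1))
    (D2 : Par W (i2 + l2 + 2) (n) (i3 - i2 - l2 - 1))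
    {L : ℤ} (mx : ∀ a b g, 0 < g → g < n → Par W a b g → b - a ≤ L)
    (hL : L ≤ (n - j - 3) ∧ L ≤ (n + Q - k - 3) ∧ L ≤ (n - l - 3) ∧ L ≤ (n + i - k - 2) ∧ L ≤ (n - l2 - 3) ∧ L ≤ (n + i3 - Q - 2) ∧ L ≤ (i2 + l2 - 1) ∧ L ≤ (n + i2 - k - l - 3) ∧ L ≤ (Q + i2 + l2 - i - l - 3))
    (bd0 : Bd W n L (j) (i) (k))
    (bd2 : Bd W n L (k + l + l2 - n + 2) (i3) (i2 + l2 + 1))
    (n1 : Nd W (j) (i) (k))
    (n2 : Nd W (i + l + 1) (i2) (k + l + 1))
    (n3 : Nd W (k + l + l2 - n + 2) (i3) (i2 + l2 + 1))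
    (b0 : (i + 2 * l + 3) ≤ (Q + i2 + l2))
    (b1 : (i + l + 3) ≤ (Q + i2))
    (b2 : (2 * k + 2 * l + l2 + i3 + 5) ≤ (2 * n + i2))
    (b3 : (k + 2 * l + 2 * l2 + 6) ≤ (2 * n + j))
    (b4 : (n + i3) ≤ (j + l + l2 + 2)) : False := by
  have ev := al.ev
  obtain ⟨y0, y1, y2, y3, y4, y5, y6, y7, y8, y9, y10, y11, y12, y13, y14, y15, y16, y17, y18, y19, y20, y21⟩ := id hy
  have n1p := And.intro n1.p1 n1.p2
  have n2p := And.intro n2.p1 n2.p2
  have n3p := And.intro n3.p1 n3.p2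
  by_cases z8 : (k) ≤ (j + 2 * i3)
  · have kk20 : (j + 1) ≤ (k) := by clear * - y16 z8; omega
    have kk21 : (k) ≤ (j + 2 * i3) := by clear * - z8; omega
    have kk22 : (k + 2 * l + 2 * l2 + 6) ≤ (2 * n + j) := by clear * - b3; omega
    have kk23 : (i3) ≤ (k) := by clear * - b3 b4 y16 z8; omega
    have kk24 : (n) ≤ (k + l + l2 + 3) := by clear * - b4 y16 z8; omega
    have r25 : (n + k + l + l2 + i3 + 2) % 2 = 0 := by clear * - ev n1p n2p n3p; omega
    have r26 : (k - j) % 2 = 0 := by clear * - ev n1p n2p n3p; omega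
    clear * - al a1 u1 kk20 kk21 kk22 kk23 kk24 r25 r26
    exact midP al (k - j) (n + k + l + l2 + i3 + 2) (k + l + l2 + 3) (n) (n + k) (by omega) (fun t h1 h2 => (cE (ab u1 al 1 t ((k + l + l2 + i3 + 2) - t) (by omega)) (sh al 1 ((k + l + l2 + i3 + 2) - t) ((n + k + l + l2 + i3 + 2) - t) (by omega)))) (fun t h1 h2 => (cE (qf a1 al 1 t (t + (k - n - j)) (by omega)) (sh al 1 (t + (k - n - j)) (t + (k - j)) (by omega))))
  · exact t1a_8 al hy a1 a2 s1 s2 b tt c u1 u2 D1 D2 mx hL bd0 bd2 n1 n2 n3 (by clear * - b0; omega) (by clear * - b1; omega) (by clear * - b3; omega) (by clear * - b4; omega) (by clear * - z8; omega)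

theorem t1a_6 {W : ℤ → G} {n Q i j k l i2 l2 i3 : ℤ} (al : AL W n Q)
    (hy : (0) ≤ (i) ∧ (i) ≤ (j) ∧ (j + 1) ≤ (Q) ∧ (Q) ≤ (k) ∧ (k + 1) ≤ (n) ∧ (Q) ≤ (i + l + 1) ∧ (k + l + 2) ≤ (n) ∧ (Q) ≤ (i2) ∧ (i2) ≤ (i + l + 1) ∧ (Q) ≤ (i2 + l2 + 1) ∧ (i2 + l2 + 2) ≤ (n) ∧ (n) ≤ (k + l + l2 + 2) ∧ (k + l + l2 + 3) ≤ (n + Q) ∧ (0) ≤ (i3) ∧ (n + i3) ≤ (k + l + l2 + 2) ∧ (k + i2 + l2 + 2) ≤ (n + j + i3) ∧ (j + i3 + 1) ≤ (k) ∧ (k + i2 + l2 + 2) ≤ (n + i3) ∧ (i + 2 * i2 + 1) ≤ (2 * Q + k) ∧ (i + l + 1) ≤ (i2 + l2) ∧ (i2 + l2 + 1) ≤ (k + l) ∧ (i + 1) ≤ (i3))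
    (a1 : Par W (0) (j) (k - j))
    (a2 : Par W (Q + j - k) (j) (k - j))
    (s1 : Ant W (0) (i) (i + j))
    (s2 : Ant W (j + 1) (Q) (i + j))
    (b : Par W (i + 1) (i + l + 1) (k - i))
    (tt : Ant W (Q) (i2) (i + l + i2 + 1))
    (c : Par W (i2 + 1) (i2 + l2 + 1) (k + l - i2 + 1))
    (u1 : Ant W (0) (i3) (k + l + l2 + i3 - n + 2))
    (u2 : Ant W (k + l + l2 - n + 3) (Q) (k + l + l2 + i3 - n + 2))
    (D1 : Par W (i3 + 1) (Q) (i2 + l2 - i3 + 1))
    (D2 : Par W (i2 + l2 + 2) (n) (i3 - i2 - l2 - 1))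
    {L : ℤ} (mx : ∀ a b g, 0 < g → g < n → Par W a b g → b - a ≤ L)
    (hL : L ≤ (n - j - 3) ∧ L ≤ (n + Q - k - 3) ∧ L ≤ (n - l - 3) ∧ L ≤ (n + i - k - 2) ∧ L ≤ (n - l2 - 3) ∧ L ≤ (n + i3 - Q - 2) ∧ L ≤ (i2 + l2 - 1) ∧ L ≤ (n + i2 - k - l - 3) ∧ L ≤ (Q + i2 + l2 - i - l - 3))
    (bd0 : Bd W n L (j) (i) (k))
    (bd2 : Bd W n L (k + l + l2 - n + 2) (i3) (i2 + l2 + 1))
    (n1 : Nd W (j) (i) (k))
    (n2 : Nd W (i + l + 1) (i2) (k + l + 1))
    (n3 : Nd W (k + l + l2 - n + 2) (i3) (i2 + l2 + 1))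
    (b0 : (i + 2 * l + 3) ≤ (Q + i2 + l2))
    (b1 : (i + l + 3) ≤ (Q + i2))
    (b2 : (2 * k + 2 * l + l2 + i3 + 5) ≤ (2 * n + i2))
    (b3 : (n) ≤ (j + l + l2 + i3 + 2))
    (b4 : (k + 2 * l + 2 * l2 + 6) ≤ (2 * n + j)) : False := by
  have ev := al.ev
  obtain ⟨y0, y1, y2, y3, y4, y5, y6, y7, y8, y9, y10, y11, y12, y13, y14, y15, y16, y17, y18, y19, y20, y21⟩ := id hy
  have n1p := And.intro n1.p1 n1.p2
  have n2p := And.intro n2.p1 n2.p2
  have n3p := And.intro n3.p1 n3.p2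
  by_cases z7 : (j + l + l2 + 3) ≤ (n + i3)
  · by_cases v1 : (i3) ≤ (j)
    · have kk12 : (n) ≤ (j + l + l2 + i3 + 2) := by clear * - b3; omega
      have kk13 : (j + l + l2 + 3) ≤ (n + i3) := by clear * - z7; omega
      have kk14 : (i3) ≤ (j) := by clear * - v1; omega
      have r15 : (2 * k + l + l2 + i3 - 3 * n - j + 2) % 2 = 0 := by clear * - ev n1p n2p n3p; omega
      clear * - al a1 u1 kk12 kk13 kk14 r15
      obtain ⟨t, ht⟩ : ∃ t, 2 * t = (2 * k + l + l2 + i3 - 3 * n - j + 2) := ⟨(2 * k + l + l2 + i3 - 3 * n - j + 2) / 2, by omega⟩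
      exact al.ninv t (cE (cI (pb a1 al (-1) t (t + (n + j - k)) (by omega)) (qa u1 al 0 (t + (n + j - k)) ((2 * k + l + l2 + i3 - 2 * n - j + 2) - t) (by omega))) (sh al (-1) ((2 * k + l + l2 + i3 - 2 * n - j + 2) - t) t (by omega)))
    · have kk16 : (n) ≤ (j + l + l2 + i3 + 2) := by clear * - b3; omega
      have kk17 : (l + l2 + i3 + 3) ≤ (n + j) := by clear * - b4 y14; omega
      have kk18 : (j) ≤ (i3) := by clear * - v1; omega
      have r19 : (2 * k + l + l2 + i3 - 3 * n - j + 2) % 2 = 0 := by clear * - ev n1p n2p n3p; omega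
      clear * - al a1 u1 kk16 kk17 kk18 r19
      obtain ⟨t, ht⟩ : ∃ t, 2 * t = (2 * k + l + l2 + i3 - 3 * n - j + 2) := ⟨(2 * k + l + l2 + i3 - 3 * n - j + 2) / 2, by omega⟩
      exact al.ninv t (cE (cI (pb a1 al (-1) t (t + (n + j - k)) (by omega)) (qa u1 al 0 (t + (n + j - k)) ((2 * k + l + l2 + i3 - 2 * n - j + 2) - t) (by omega))) (sh al (-1) ((2 * k + l + l2 + i3 - 2 * n - j + 2) - t) t (by omega)))
  · exact t1a_7 al hy a1 a2 s1 s2 b tt c u1 u2 D1 D2 mx hL bd0 bd2 n1 n2 n3 (by clear * - b0; omega) (by clear * - b1; omega) (by clear * - b2; omega) (by clear * - b4; omega) (by clear * - z7; omega)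

theorem t1a_12 {W : ℤ → G} {n Q i j k l i2 l2 i3 : ℤ} (al : AL W n Q)
    (hy : (0) ≤ (i) ∧ (i) ≤ (j) ∧ (j + 1) ≤ (Q) ∧ (Q) ≤ (k) ∧ (k + 1) ≤ (n) ∧ (Q) ≤ (i + l + 1) ∧ (k + l + 2) ≤ (n) ∧ (Q) ≤ (i2) ∧ (i2) ≤ (i + l + 1) ∧ (Q) ≤ (i2 + l2 + 1) ∧ (i2 + l2 + 2) ≤ (n) ∧ (n) ≤ (k + l + l2 + 2) ∧ (k + l + l2 + 3) ≤ (n + Q) ∧ (0) ≤ (i3) ∧ (n + i3) ≤ (k + l + l2 + 2) ∧ (k + i2 + l2 + 2) ≤ (n + j + i3) ∧ (j + i3 + 1) ≤ (k) ∧ (k + i2 + l2 + 2) ≤ (n + i3) ∧ (i + 2 * i2 + 1) ≤ (2 * Q + k) ∧ (i + l + 1) ≤ (i2 + l2) ∧ (i2 + l2 + 1) ≤ (k + l) ∧ (i + 1) ≤ (i3))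
    (a1 : Par W (0) (j) (k - j))
    (a2 : Par W (Q + j - k) (j) (k - j))
    (s1 : Ant W (0) (i) (i + j))
    (s2 : Ant W (j + 1) (Q) (i + j))
    (b : Par W (i + 1) (i + l + 1) (k - i))
    (tt : Ant W (Q) (i2) (i + l + i2 + 1))
    (c : Par W (i2 + 1) (i2 + l2 + 1) (k + l - i2 + 1))
    (u1 : Ant W (0) (i3) (k + l + l2 + i3 - n + 2))
    (u2 : Ant W (k + l + l2 - n + 3) (Q) (k + l + l2 + i3 - n + 2))
    (D1 : Par W (i3 + 1) (Q) (i2 + l2 - i3 + 1))
    (D2 : Par W (i2 + l2 + 2) (n) (i3 - i2 - l2 - 1))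
    {L : ℤ} (mx : ∀ a b g, 0 < g → g < n → Par W a b g → b - a ≤ L)
    (hL : L ≤ (n - j - 3) ∧ L ≤ (n + Q - k - 3) ∧ L ≤ (n - l - 3) ∧ L ≤ (n + i - k - 2) ∧ L ≤ (n - l2 - 3) ∧ L ≤ (n + i3 - Q - 2) ∧ L ≤ (i2 + l2 - 1) ∧ L ≤ (n + i2 - k - l - 3) ∧ L ≤ (Q + i2 + l2 - i - l - 3))
    (bd0 : Bd W n L (j) (i) (k))
    (bd2 : Bd W n L (k + l + l2 - n + 2) (i3) (i2 + l2 + 1))
    (n1 : Nd W (j) (i) (k))
    (n2 : Nd W (i + l + 1) (i2) (k + l + 1))
    (n3 : Nd W (k + l + l2 - n + 2) (i3) (i2 + l2 + 1))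
    (b0 : (i + 2 * l + 3) ≤ (Q + i2 + l2))
    (b1 : (i + l + 3) ≤ (Q + i2))
    (b2 : (2 * k + 2 * l + l2 + i3 + 5) ≤ (2 * n + i2))
    (b3 : (n) ≤ (j + l + l2 + i3 + 2))
    (b4 : (l + l2 + i3 + 3) ≤ (n + j))
    (b5 : (2 * n + j) ≤ (k + 2 * l + 2 * l2 + 5)) : False := by
  have ev := al.ev
  obtain ⟨y0, y1, y2, y3, y4, y5, y6, y7, y8, y9, y10, y11, y12, y13, y14, y15, y16, y17, y18, y19, y20, y21⟩ := id hy
  have n1p := And.intro n1.p1 n1.p2
  have n2p := And.intro n2.p1 n2.p2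
  have n3p := And.intro n3.p1 n3.p2
  by_cases z26 : (n + i + i2) ≤ (2 * k + l + 2 * i3 + 1)
  · by_cases z27 : (j + l + l2 + 4) ≤ (n + i3)
    · by_cases v15 : (i3) ≤ (j)
      · have kk398 : (n) ≤ (j + l + l2 + i3 + 2) := by clear * - b3; omega
        have kk399 : (j + l + l2 + 3) ≤ (n + i3) := by clear * - z27; omega
        have kk400 : (i3) ≤ (j) := by clear * - v15; omega
        have r401 : (2 * k + l + l2 + i3 - 3 * n - j + 2) % 2 = 0 := by clear * - ev n1p n2p n3p; omega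
        clear * - al a1 u1 kk398 kk399 kk400 r401
        obtain ⟨t, ht⟩ : ∃ t, 2 * t = (2 * k + l + l2 + i3 - 3 * n - j + 2) := ⟨(2 * k + l + l2 + i3 - 3 * n - j + 2) / 2, by omega⟩
        exact al.ninv t (cE (cI (pb a1 al (-1) t (t + (n + j - k)) (by omega)) (qa u1 al 0 (t + (n + j - k)) ((2 * k + l + l2 + i3 - 2 * n - j + 2) - t) (by omega))) (sh al (-1) ((2 * k + l + l2 + i3 - 2 * n - j + 2) - t) t (by omega)))
      · have kk402 : (n) ≤ (j + l + l2 + i3 + 2) := by clear * - b3; omega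
        have kk403 : (l + l2 + i3 + 3) ≤ (n + j) := by clear * - b4; omega
        have kk404 : (j) ≤ (i3) := by clear * - v15; omega
        have r405 : (2 * k + l + l2 + i3 - 3 * n - j + 2) % 2 = 0 := by clear * - ev n1p n2p n3p; omega
        clear * - al a1 u1 kk402 kk403 kk404 r405
        obtain ⟨t, ht⟩ : ∃ t, 2 * t = (2 * k + l + l2 + i3 - 3 * n - j + 2) := ⟨(2 * k + l + l2 + i3 - 3 * n - j + 2) / 2, by omega⟩
        exact al.ninv t (cE (cI (pb a1 al (-1) t (t + (n + j - k)) (by omega)) (qa u1 al 0 (t + (n + j - k)) ((2 * k + l + l2 + i3 - 2 * n - j + 2) - t) (by omega))) (sh al (-1) ((2 * k + l + l2 + i3 - 2 * n - j + 2) - t) t (by omega)))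
    · have kk406 : (2 * k + l + 2) ≤ (n + i + i2) := by clear * - b0 b2 b5 y0 y12 y17 y7 z27; linarith
      have kk407 : (n + i + i2) ≤ (2 * k + l + 2 * i3 + 1) := by clear * - z26; omega
      have kk408 : (i + 2 * k + l + 3) ≤ (n + i2 + 2 * i3) := by clear * - b0 b1 b2 b5 y13 y17 y7 z27; linarith
      have kk409 : (2 * k + l + 3) ≤ (n + i + i2) := by clear * - b0 b2 b5 y0 y12 y17 y7 z27; linarith
      have kk410 : (k + l + 1) ≤ (n + i) := by clear * - b0 y0 y16 y17 y7 z27; omega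
      have kk411 : (k + l2 + 1) ≤ (n + i) := by clear * - y12 y7 y8; omega
      have kk412 : (i) ≤ (i3) := by clear * - y21; omega
      have kk413 : (n + i3) ≤ (k + l + l2 + 2) := by clear * - b4 b5; omega
      have kk414 : (k + l2 + i3 + 2) ≤ (n + i) := by clear * - y0 y12 y16 y17 y7 z27; omega
      have kk415 : (k + l + 2) ≤ (n) := by clear * - y6; omega
      have r416 : (k + i2 + l2 + i3 - i + 1) % 2 = 0 := by clear * - ev n1p n2p n3p; omega
      have r417 : (n + i + i2 - 2 * k - l - 1) % 2 = 0 := by clear * - ev n1p n2p n3p; omega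
      clear * - al b c u1 kk406 kk407 kk408 kk409 kk410 kk411 kk412 kk413 kk414 kk415 r416 r417
      exact midP al (n + i + i2 - 2 * k - l - 1) (k + i2 + l2 + i3 - i + 1) (2 * k + l + l2 - n - i + 3) (k + 1) (i2 + l2 + 1) (by omega) (fun t h1 h2 => (cE (cI (pb b al 0 t (t + (i - k)) (by omega)) (ab u1 al 0 (t + (i - k)) ((2 * k + l + l2 + i3 - n - i + 2) - t) (by omega))) (pb c al (-1) ((2 * k + l + l2 + i3 - n - i + 2) - t) ((k + i2 + l2 + i3 - i + 1) - t) (by omega)))) (fun t h1 h2 => (qf (show Par W (k + 1) (2 * k + l + l2 - n - i + 2) (n + i + i2 - 2 * k - l - 1) from fun t h1 h2 => (cE (sh al (-1) t (t + (-n)) (by omega)) (cE (pb b al (-1) (t + (-n)) (t + (i - k)) (by omega)) (pb c al (-1) (t + (i - k)) (t + (n + i + i2 - 2 * k - l - 1)) (by omega))))) al 0 t (t + (n + i + i2 - 2 * k - l - 1)) (by omega)))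
  · by_cases z28 : (k) ≤ (i + l2 + 1)
    · by_cases v16 : (Q + k + l + 1) ≤ (n + i + j)
      · have kk418 : (i + 1) ≤ (k) := by clear * - y19 y20; omega
        have kk419 : (0) ≤ (l) := by clear * - b2 b3 b4 b5 y13 y20; omega
        have kk420 : (i) ≤ (i2 + l2) := by clear * - b1 b2 b5 v16 y20 y21; omega
        have kk421 : (i2 + l2 + 1) ≤ (k + l) := by clear * - y20; omega
        have kk422 : (n + i) ≤ (k + l + l2 + 1) := by clear * - b4 b5 y21; omega
        have kk423 : (l2 + 2) ≤ (n) := by clear * - b2 b4 b5 y13 y20; omega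
        have kk424 : (n + j) ≤ (Q + l + l2 + 2) := by clear * - b5 y12; omega
        have kk425 : (Q + k + l + 1) ≤ (n + i + j) := by clear * - v16; omega
        have kk426 : (n + i) ≤ (k + l + l2 + 2) := by clear * - b4 b5 y21; omega
        have kk427 : (k + l + 1) ≤ (n + i) := by clear * - v16 y12 y13 y16 z28; omega
        have kk428 : (k + l + 1) ≤ (n + i2) := by clear * - b2 b4 b5 y13; omega
        have kk429 : (l2 + 1) ≤ (n) := by clear * - b2 b4 b5 y13 y20; omega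
        have kk430 : (i2 + l2) ≤ (k + l) := by clear * - y20; omega
        have kk431 : (Q) ≤ (k + l + 1) := by clear * - y20 y9; omega
        have kk432 : (Q + k + l + 1) ≤ (n + j + i2) := by clear * - b4 y21 y7 z28; omega
        have kk433 : (i) ≤ (j) := by clear * - y1; omega
        have kk434 : (n + i + i2) ≤ (2 * k + 2 * l + 2) := by clear * - b4 b5 y20 y21; omega
        have r435 : (k + l - n - i2 + 1) % 2 = 0 := by clear * - ev n1p n2p n3p; omega
        have r436 : (k - i) % 2 = 0 := by clear * - ev n1p n2p n3p; omega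
        have r437 : (i + j + i2 - n - k - l - 1) % 2 = 0 := by clear * - ev n1p n2p n3p; omega
        clear * - al s2 b c n3 kk418 kk419 kk420 kk421 kk422 kk423 kk424 kk425 kk426 kk427 kk428 kk429 kk430 kk431 kk432 kk433 kk434 r435 r436 r437
        exact ivt al.ninv (i - n + 1) (i + l - n + 1) (k - i) (i + i2 - k - l) (i2 + l2 - n + 1) (k + l - n - i2 + 1) (i2 + l2 - n + 1) (k + l + l2 - 2 * n + 2) 0 (fun t h1 h2 => (cE (qf b al (-1) t (t + (n + k - i)) (by omega)) (sh al (-1) (t + (n + k - i)) (t + (k - i)) (by omega)))) (fun t h1 h2 => (cE (qf c al (-1) t (t + (n + k + l - i2 + 1)) (by omega)) (sh al (-2) (t + (n + k + l - i2 + 1)) (t + (k + l - n - i2 + 1)) (by omega)))) (fun hh => n3.f0 (rEE (sh al (-1) (k + l + l2 - n + 2) (k + l + l2 - 2 * n + 2) (by omega)) (sh al (-1) (i2 + l2 + 1) (i2 + l2 - n + 1) (by omega)) (Eq.symm (Eq.symm hh)))) (by omega) (i + j + i2 - Q - k - l) (i + i2 - k - l - 1) (i + j + i2 - n - k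 - l - 1) 0 (-1) (fun t h1 h2 => (cE (cI (qf c al (-1) t (t + (n + k + l - i2 + 1)) (by omega)) (ab s2 al 1 (t + (n + k + l - i2 + 1)) ((i + j + i2 - k - l - 1) - t) (by omega))) (sh al (-1) ((i + j + i2 - k - l - 1) - t) ((i + j + i2 - n - k - l - 1) - t) (by omega)))) (by omega)
      · have kk438 : (i + 1) ≤ (k) := by clear * - y19 y20; omega
        have kk439 : (0) ≤ (l) := by clear * - b2 b3 b4 b5 y13 y20; omega
        have kk440 : (i) ≤ (i2 + l2) := by clear * - b2 b3 y16 y21; omega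
        have kk441 : (i2 + l2 + 1) ≤ (k + l) := by clear * - y20; omega
        have kk442 : (n + i) ≤ (k + l + l2 + 1) := by clear * - b4 b5 y21; omega
        have kk443 : (l2 + 2) ≤ (n) := by clear * - b2 b4 b5 y13 y20; omega
        have kk444 : (k) ≤ (i + l2 + 1) := by clear * - z28; omega
        have kk445 : (n + i + j) ≤ (Q + k + l + 1) := by clear * - v16; omega
        have kk446 : (n + i) ≤ (k + l + l2 + 2) := by clear * - b4 b5 y21; omega
        have kk447 : (k + l + 1) ≤ (n + i) := by clear * - y12 y3 z28; omega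
        have kk448 : (k + l + 1) ≤ (n + i2) := by clear * - b2 b4 b5 y13; omega
        have kk449 : (l2 + 1) ≤ (n) := by clear * - b2 b4 b5 y13 y20; omega
        have kk450 : (i2 + l2) ≤ (k + l) := by clear * - y20; omega
        have kk451 : (n + i + j) ≤ (2 * k + 2 * l + 2) := by clear * - v16 y20 y9; omega
        have kk452 : (i) ≤ (i2) := by clear * - b4 v16 y21 y7 z28; omega
        have kk453 : (i) ≤ (j) := by clear * - y1; omega
        have kk454 : (n + i + i2) ≤ (2 * k + 2 * l + 2) := by clear * - b4 b5 y20 y21; omega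
        have r455 : (k + l - n - i2 + 1) % 2 = 0 := by clear * - ev n1p n2p n3p; omega
        have r456 : (k - i) % 2 = 0 := by clear * - ev n1p n2p n3p; omega
        have r457 : (i + j + i2 - n - k - l - 1) % 2 = 0 := by clear * - ev n1p n2p n3p; omega
        clear * - al s2 b c n3 kk438 kk439 kk440 kk441 kk442 kk443 kk444 kk445 kk446 kk447 kk448 kk449 kk450 kk451 kk452 kk453 kk454 r455 r456 r457
        exact ivt al.ninv (i - n + 1) (i + l - n + 1) (k - i) (i + i2 - k - l) (i2 + l2 - n + 1) (k + l - n - i2 + 1) (i2 + l2 - n + 1) (k + l + l2 - 2 * n + 2) 0 (fun t h1 h2 => (cE (qf b al (-1) t (t + (n + k - i)) (by omega)) (sh al (-1) (t + (n + k - i)) (t + (k - i)) (by omega)))) (fun t h1 h2 => (cE (qf c al (-1) t (t + (n + k + l - i2 + 1)) (by omega)) (sh al (-2) (t + (n + k + l - i2 + 1)) (t + (k + l - n - i2 + 1)) (by omega)))) (fun hh => n3.f0 (rEE (sh al (-1) (k + l + l2 - n + 2) (k + l + l2 - 2 * n + 2) (by omega))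 (sh al (-1) (i2 + l2 + 1) (i2 + l2 - n + 1) (by omega)) (Eq.symm (Eq.symm hh)))) (by omega) (i2 - n + 1) (i + i2 - k - l - 1) (i + j + i2 - n - k - l - 1) 0 (-1) (fun t h1 h2 => (cE (cI (qf c al (-1) t (t + (n + k + l - i2 + 1)) (by omega)) (ab s2 al 1 (t + (n + k + l - i2 + 1)) ((i + j + i2 - k - l - 1) - t) (by omega))) (sh al (-1) ((i + j + i2 - k - l - 1) - t) ((i + j + i2 - n - k - l - 1) - t) (by omega)))) (by omega)
    · have kk458 : (i + 1) ≤ (k) := by clear * - y19 y20; omega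
      have kk459 : (k + 1) ≤ (n + i) := by clear * - b4 b5 y13 y16 y17 z26; omega
      have kk460 : (n) ≤ (2 * l + 2) := by clear * - b3 b5 y0 y17 z26 z28; omega
      clear * - al b mx hL kk458 kk459 kk460
      exact absurd (mx (i + 1) (i + l + 1) (k - i) (by omega) (by omega) fun t h1 h2 => (qf b al 0 t (t + (k - i)) (by omega))) (by omega)

theorem t1a_5 {W : ℤ → G} {n Q i j k l i2 l2 i3 : ℤ} (al : AL W n Q)
    (hy : (0) ≤ (i) ∧ (i) ≤ (j) ∧ (j + 1) ≤ (Q) ∧ (Q) ≤ (k) ∧ (k + 1) ≤ (n) ∧ (Q) ≤ (i + l + 1) ∧ (k + l + 2) ≤ (n) ∧ (Q) ≤ (i2) ∧ (i2) ≤ (i + l + 1) ∧ (Q) ≤ (i2 + l2 + 1) ∧ (i2 + l2 + 2) ≤ (n) ∧ (n) ≤ (k + l + l2 + 2) ∧ (k + l + l2 + 3) ≤ (n + Q) ∧ (0) ≤ (i3) ∧ (n + i3) ≤ (k + l + l2 + 2) ∧ (k + i2 + l2 + 2) ≤ (n + j + i3) ∧ (j + i3 + 1) ≤ (k) ∧ (k + i2 + l2 + 2) ≤ (n + i3) ∧ (i + 2 * i2 + 1) ≤ (2 * Q + k) ∧ (i + l + 1) ≤ (i2 + l2) ∧ (i2 + l2 + 1) ≤ (k + l) ∧ (i + 1) ≤ (i3))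
    (a1 : Par W (0) (j) (k - j))
    (a2 : Par W (Q + j - k) (j) (k - j))
    (s1 : Ant W (0) (i) (i + j))
    (s2 : Ant W (j + 1) (Q) (i + j))
    (b : Par W (i + 1) (i + l + 1) (k - i))
    (tt : Ant W (Q) (i2) (i + l + i2 + 1))
    (c : Par W (i2 + 1) (i2 + l2 + 1) (k + l - i2 + 1))
    (u1 : Ant W (0) (i3) (k + l + l2 + i3 - n + 2))
    (u2 : Ant W (k + l + l2 - n + 3) (Q) (k + l + l2 + i3 - n + 2))
    (D1 : Par W (i3 + 1) (Q) (i2 + l2 - i3 + 1))
    (D2 : Par W (i2 + l2 + 2) (n) (i3 - i2 - l2 - 1))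
    {L : ℤ} (mx : ∀ a b g, 0 < g → g < n → Par W a b g → b - a ≤ L)
    (hL : L ≤ (n - j - 3) ∧ L ≤ (n + Q - k - 3) ∧ L ≤ (n - l - 3) ∧ L ≤ (n + i - k - 2) ∧ L ≤ (n - l2 - 3) ∧ L ≤ (n + i3 - Q - 2) ∧ L ≤ (i2 + l2 - 1) ∧ L ≤ (n + i2 - k - l - 3) ∧ L ≤ (Q + i2 + l2 - i - l - 3))
    (bd0 : Bd W n L (j) (i) (k))
    (bd2 : Bd W n L (k + l + l2 - n + 2) (i3) (i2 + l2 + 1))
    (n1 : Nd W (j) (i) (k))
    (n2 : Nd W (i + l + 1) (i2) (k + l + 1))
    (n3 : Nd W (k + l + l2 - n + 2) (i3) (i2 + l2 + 1))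
    (b0 : (i + 2 * l + 3) ≤ (Q + i2 + l2))
    (b1 : (i + l + 3) ≤ (Q + i2))
    (b2 : (2 * k + 2 * l + l2 + i3 + 5) ≤ (2 * n + i2))
    (b3 : (n) ≤ (j + l + l2 + i3 + 2))
    (b4 : (l + l2 + i3 + 3) ≤ (n + j)) : False := by
  have ev := al.ev
  obtain ⟨y0, y1, y2, y3, y4, y5, y6, y7, y8, y9, y10, y11, y12, y13, y14, y15, y16, y17, y18, y19, y20, y21⟩ := id hy
  have n1p := And.intro n1.p1 n1.p2
  have n2p := And.intro n2.p1 n2.p2
  have n3p := And.intro n3.p1 n3.p2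
  by_cases z6 : (k + 2 * l + 2 * l2 + 6) ≤ (2 * n + j)
  · exact t1a_6 al hy a1 a2 s1 s2 b tt c u1 u2 D1 D2 mx hL bd0 bd2 n1 n2 n3 (by clear * - b0; omega) (by clear * - b1; omega) (by clear * - b2; omega) (by clear * - b3; omega) (by clear * - z6; omega)
  · exact t1a_12 al hy a1 a2 s1 s2 b tt c u1 u2 D1 D2 mx hL bd0 bd2 n1 n2 n3 (by clear * - b0; omega) (by clear * - b1; omega) (by clear * - b2; omega) (by clear * - b3; omega) (by clear * - b4; omega) (by clear * - z6; omega)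

theorem t1a_13 {W : ℤ → G} {n Q i j k l i2 l2 i3 : ℤ} (al : AL W n Q)
    (hy : (0) ≤ (i) ∧ (i) ≤ (j) ∧ (j + 1) ≤ (Q) ∧ (Q) ≤ (k) ∧ (k + 1) ≤ (n) ∧ (Q) ≤ (i + l + 1) ∧ (k + l + 2) ≤ (n) ∧ (Q) ≤ (i2) ∧ (i2) ≤ (i + l + 1) ∧ (Q) ≤ (i2 + l2 + 1) ∧ (i2 + l2 + 2) ≤ (n) ∧ (n) ≤ (k + l + l2 + 2) ∧ (k + l + l2 + 3) ≤ (n + Q) ∧ (0) ≤ (i3) ∧ (n + i3) ≤ (k + l + l2 + 2) ∧ (k + i2 + l2 + 2) ≤ (n + j + i3) ∧ (j + i3 + 1) ≤ (k) ∧ (k + i2 + l2 + 2) ≤ (n + i3) ∧ (i + 2 * i2 + 1) ≤ (2 * Q + k) ∧ (i + l + 1) ≤ (i2 + l2) ∧ (i2 + l2 + 1) ≤ (k + l) ∧ (i + 1) ≤ (i3))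
    (a1 : Par W (0) (j) (k - j))
    (a2 : Par W (Q + j - k) (j) (k - j))
    (s1 : Ant W (0) (i) (i + j))
    (s2 : Ant W (j + 1) (Q) (i + j))
    (b : Par W (i + 1) (i + l + 1) (k - i))
    (tt : Ant W (Q) (i2) (i + l + i2 + 1))
    (c : Par W (i2 + 1) (i2 + l2 + 1) (k + l - i2 + 1))
    (u1 : Ant W (0) (i3) (k + l + l2 + i3 - n + 2))
    (u2 : Ant W (k + l + l2 - n + 3) (Q) (k + l + l2 + i3 - n + 2))
    (D1 : Par W (i3 + 1) (Q) (i2 + l2 - i3 + 1))
    (D2 : Par W (i2 + l2 + 2) (n) (i3 - i2 - l2 - 1))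
    {L : ℤ} (mx : ∀ a b g, 0 < g → g < n → Par W a b g → b - a ≤ L)
    (hL : L ≤ (n - j - 3) ∧ L ≤ (n + Q - k - 3) ∧ L ≤ (n - l - 3) ∧ L ≤ (n + i - k - 2) ∧ L ≤ (n - l2 - 3) ∧ L ≤ (n + i3 - Q - 2) ∧ L ≤ (i2 + l2 - 1) ∧ L ≤ (n + i2 - k - l - 3) ∧ L ≤ (Q + i2 + l2 - i - l - 3))
    (bd0 : Bd W n L (j) (i) (k))
    (bd2 : Bd W n L (k + l + l2 - n + 2) (i3) (i2 + l2 + 1))
    (n1 : Nd W (j) (i) (k))
    (n2 : Nd W (i + l + 1) (i2) (k + l + 1))
    (n3 : Nd W (k + l + l2 - n + 2) (i3) (i2 + l2 + 1))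
    (b0 : (i + 2 * l + 3) ≤ (Q + i2 + l2))
    (b1 : (i + l + 3) ≤ (Q + i2))
    (b2 : (2 * k + 2 * l + l2 + i3 + 5) ≤ (2 * n + i2))
    (b3 : (n + j) ≤ (l + l2 + i3 + 2)) : False := by
  have ev := al.ev
  obtain ⟨y0, y1, y2, y3, y4, y5, y6, y7, y8, y9, y10, y11, y12, y13, y14, y15, y16, y17, y18, y19, y20, y21⟩ := id hy
  have n1p := And.intro n1.p1 n1.p2
  have n2p := And.intro n2.p1 n2.p2
  have n3p := And.intro n3.p1 n3.p2
  by_cases z29 : (n + i + i2) ≤ (2 * k + l + 2 * i3 + 1)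
  · by_cases v17 : (k + l2 + i3 + 2) ≤ (n + i)
    · by_cases v18 : (2 * k + l + i3 + 2) ≤ (n + i + i2)
      · have kk461 : (2 * k + l + 2) ≤ (n + i + i2) := by clear * - v18 z29; omega
        have kk462 : (n + i + i2) ≤ (2 * k + l + 2 * i3 + 1) := by clear * - z29; omega
        have kk463 : (3 * n + 3 * i + i2) ≤ (4 * k + 3 * l + 2 * l2 + 2 * i3 + 5) := by clear * - y14 y21 z29; omega
        have kk464 : (3 * n + i + i2) ≤ (4 * k + 3 * l + 2 * l2 + 5) := by clear * - y14 z29; omega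
        have kk465 : (k + l + 1) ≤ (n + i) := by clear * - y0 y6; omega
        have kk466 : (k + l2 + 1) ≤ (n + i) := by clear * - v17 v18 z29; omega
        have kk467 : (k + l + 2) ≤ (n) := by clear * - y6; omega
        have kk468 : (k + l2 + i3 + 2) ≤ (n + i) := by clear * - v17; omega
        have kk469 : (n + i3) ≤ (k + l + l2 + 2) := by clear * - y14; omega
        have kk470 : (n + i) ≤ (k + l + l2 + 2) := by clear * - y14 y21; omega
        have kk471 : (2 * k + l + 2) ≤ (n + i2) := by clear * - v18 y21; omega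
        have kk472 : (2 * k + l + i3 + 2) ≤ (n + i + i2) := by clear * - v18; omega
        have r473 : (k + i2 + l2 + i3 - 2 * n - i + 1) % 2 = 0 := by clear * - ev n1p n2p n3p; omega
        have r474 : (n + i + i2 - 2 * k - l - 1) % 2 = 0 := by clear * - ev n1p n2p n3p; omega
        clear * - al b c u1 kk461 kk462 kk463 kk464 kk465 kk466 kk467 kk468 kk469 kk470 kk471 kk472 r473 r474
        exact midP al (n + i + i2 - 2 * k - l - 1) (k + i2 + l2 + i3 - 2 * n - i + 1) (i2 - k - l - 1) (k - n + 1) (i2 + l2 - n + 1) (by omega) (fun t h1 h2 => (cE (cE (cI (qf c al (-1) t (t + (n + k + l - i2 + 1)) (by omega)) (qa u1 al 1 (t + (n + k + l - i2 + 1)) ((i2 + l2 + i3 - n + 1) - t) (by omega))) (qf b al 0 ((i2 + l2 + i3 - n + 1) - t) ((k + i2 + l2 + i3 - n - i + 1) - t) (by omega))) (sh al (-1) ((k + i2 + l2 + i3 - n - i + 1) - t) ((k + i2 + l2 + i3 - 2 * n - i + 1) - t) (by omega)))) (fun t h1 h2 => (cE (qf (show Par W (k + 1)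 (2 * k + l + l2 - n - i + 2) (n + i + i2 - 2 * k - l - 1) from fun t h1 h2 => (cE (sh al (-1) t (t + (-n)) (by omega)) (cE (pb b al (-1) (t + (-n)) (t + (i - k)) (by omega)) (pb c al (-1) (t + (i - k)) (t + (n + i + i2 - 2 * k - l - 1)) (by omega))))) al (-1) t (t + (2 * n + i + i2 - 2 * k - l - 1)) (by omega)) (sh al (-1) (t + (2 * n + i + i2 - 2 * k - l - 1)) (t + (n + i + i2 - 2 * k - l - 1)) (by omega))))
      · have kk475 : (2 * k + l + 2) ≤ (n + i + i2) := by clear * - b2 b3 y0 y1; omega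
        have kk476 : (2 * k + l + 3) ≤ (n + i + i2) := by clear * - b2 b3 y0 y1; omega
        have kk477 : (n + i) ≤ (l + i2 + 2 * l2 + 1) := by clear * - b0 b1 b2 b3 v17 v18 y14 y15 y7; linarith
        have kk478 : (n + 2 * i3) ≤ (i + l + i2 + 2 * l2 + 1) := by clear * - b2 b3 y0 y1 y14; omega
        have kk479 : (k + l + 1) ≤ (n + i) := by clear * - y0 y6; omega
        have kk480 : (k + l2 + 1) ≤ (n + i) := by clear * - v17 y13; omega
        have kk481 : (k + l + 2) ≤ (n) := by clear * - y6; omega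
        have kk482 : (k + l2 + i3 + 2) ≤ (n + i) := by clear * - v17; omega
        have kk483 : (n + i3) ≤ (k + l + l2 + 2) := by clear * - y14; omega
        have kk484 : (n + i) ≤ (k + l + l2 + 2) := by clear * - y14 y21; omega
        have kk485 : (n + i + i2) ≤ (2 * k + l + i3 + 2) := by clear * - v18; omega
        have kk486 : (i) ≤ (i3) := by clear * - y21; omega
        have r487 : (k + i2 + l2 + i3 - 2 * n - i + 1) % 2 = 0 := by clear * - ev n1p n2p n3p; omega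
        have r488 : (n + i + i2 - 2 * k - l - 1) % 2 = 0 := by clear * - ev n1p n2p n3p; omega
        clear * - al b c u1 kk475 kk476 kk477 kk478 kk479 kk480 kk481 kk482 kk483 kk484 kk485 kk486 r487 r488
        exact midP al (n + i + i2 - 2 * k - l - 1) (k + i2 + l2 + i3 - 2 * n - i + 1) (k + i3 - n - i + 1) (k - n + 1) (i2 + l2 - n + 1) (by omega) (fun t h1 h2 => (cE (cE (cI (qf c al (-1) t (t + (n + k + l - i2 + 1)) (by omega)) (qa u1 al 1 (t + (n + k + l - i2 + 1)) ((i2 + l2 + i3 - n + 1) - t) (by omega))) (qf b al 0 ((i2 + l2 + i3 - n + 1) - t) ((k + i2 + l2 + i3 - n - i + 1) - t) (by omega))) (sh al (-1) ((k + i2 + l2 + i3 - n - i + 1) - t) ((k + i2 + l2 + i3 - 2 * n - i + 1) - t) (by omega)))) (fun t h1 h2 => (cE (qf (show Par W (k + 1) (2 * k + l + l2 - n - i + 2) (n + i + i2 - 2 * k - l - 1) from fun t h1 h2 => (cE (sh al (-1) t (t + (-n)) (by omega)) (cE (pb b al (-1) (t + (-n)) (t + (i - k)) (by omega)) (pb c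 al (-1) (t + (i - k)) (t + (n + i + i2 - 2 * k - l - 1)) (by omega))))) al (-1) t (t + (2 * n + i + i2 - 2 * k - l - 1)) (by omega)) (sh al (-1) (t + (2 * n + i + i2 - 2 * k - l - 1)) (t + (n + i + i2 - 2 * k - l - 1)) (by omega))))
    · have kk489 : (2 * k + l + 2) ≤ (n + i + i2) := by clear * - b2 b3 y0 y1; omega
      have kk490 : (2 * k + l + 3) ≤ (n + i + i2) := by clear * - b2 b3 y0 y1; omega
      have kk491 : (n + i) ≤ (l + i2 + 2 * l2 + 1) := by clear * - b1 b2 b3 v17 y13 y14 y15 y7; linarith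
      have kk492 : (n + 2 * i3) ≤ (i + l + i2 + 2 * l2 + 1) := by clear * - b2 b3 y0 y1 y14; omega
      have kk493 : (k + l + 1) ≤ (n + i) := by clear * - b2 v17 y0 y14 y17; omega
      have kk494 : (k + l2 + 1) ≤ (n + i) := by clear * - y12 y7 y8; omega
      have kk495 : (n + i) ≤ (k + l2 + i3 + 2) := by clear * - v17; omega
      have kk496 : (i + l) ≤ (l2 + i3) := by clear * - b2 v17 y8; omega
      have kk497 : (n + i3) ≤ (k + l + l2 + 2) := by clear * - y14; omega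
      have kk498 : (n + i) ≤ (k + l + l2 + 2) := by clear * - y14 y21; omega
      have kk499 : (i + k + l) ≤ (i2 + l2 + i3) := by clear * - b2 b3 v17 y0 y1; omega
      have kk500 : (i2 + l2) ≤ (k + l) := by clear * - y20; omega
      have r501 : (k + i2 + l2 + i3 - 2 * n - i + 1) % 2 = 0 := by clear * - ev n1p n2p n3p; omega
      have r502 : (n + i + i2 - 2 * k - l - 1) % 2 = 0 := by clear * - ev n1p n2p n3p; omega
      clear * - al b c u1 kk489 kk490 kk491 kk492 kk493 kk494 kk495 kk496 kk497 kk498 kk499 kk500 r501 r502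
      exact midP al (n + i + i2 - 2 * k - l - 1) (k + i2 + l2 + i3 - 2 * n - i + 1) (k + i3 - n - i + 1) (k - n + 1) (i2 + l2 - n + 1) (by omega) (fun t h1 h2 => (cE (cE (cI (qf c al (-1) t (t + (n + k + l - i2 + 1)) (by omega)) (qa u1 al 1 (t + (n + k + l - i2 + 1)) ((i2 + l2 + i3 - n + 1) - t) (by omega))) (qf b al 0 ((i2 + l2 + i3 - n + 1) - t) ((k + i2 + l2 + i3 - n - i + 1) - t) (by omega))) (sh al (-1) ((k + i2 + l2 + i3 - n - i + 1) - t) ((k + i2 + l2 + i3 - 2 * n - i + 1) - t) (by omega)))) (fun t h1 h2 => (cE (qf (show Par W (k + 1) (2 * k + l + l2 - n - i + 2) (n + i + i2 - 2 * k - l - 1) from fun t h1 h2 => (cE (sh al (-1) t (t + (-n)) (by omega)) (cE (pb b al (-1) (t + (-n)) (t + (i - k)) (by omega)) (pb c al (-1) (t + (i - k)) (t + (n + i + i2 - 2 * k - l - 1)) (by omega))))) al (-1) t (t + (2 * n + i + i2 - 2 * k - l - 1)) (by omega)) (sh al (-1) (t + (2 * n + i + i2 - 2 * k - l - 1)) (t + (n + i + i2 - 2 *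 k - l - 1)) (by omega))))
  · by_cases z30 : (n + 2 * j + i3 + 1) ≤ (2 * Q + i2 + l2)
    · by_cases v19 : (Q + i2 + l2 + 1) ≤ (n + i + j)
      · have kk503 : (i2 + l2 + 2) ≤ (n + i3) := by clear * - v19 y21 z30; omega
        have kk504 : (n + 2 * j + i3 + 1) ≤ (2 * Q + i2 + l2) := by clear * - z30; omega
        have kk505 : (i2 + l2 + i3 + 3) ≤ (n + 2 * Q) := by clear * - b1 b2 b3 v19 y14 y18 y20 z29; linarith
        have kk506 : (n + 2 * i + 2 * j + i3 + 1) ≤ (4 * Q + i2 + l2) := by clear * - b1 b2 b3 v19 y14 y18 y20 z29; linarith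
        have kk507 : (Q + i2 + l2 + 1) ≤ (n + i + j) := by clear * - v19; omega
        have r508 : (i + j) % 2 = 0 := by clear * - ev n1p n2p n3p; omega
        have r509 : (n + i3 - i2 - l2 - 1) % 2 = 0 := by clear * - ev n1p n2p n3p; omega
        clear * - al s2 D1 kk503 kk504 kk505 kk506 kk507 r508 r509
        exact midP al (n + i3 - i2 - l2 - 1) (i + j) (i + j - Q + 1) (i2 + l2 - n + 2) (Q) (by omega) (fun t h1 h2 => (ab s2 al 0 t ((i + j) - t) (by omega))) (fun t h1 h2 => (pb D1 al (-1) t (t + (n + i3 - i2 - l2 - 1)) (by omega)))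
      · have kk510 : (i2 + l2 + 2) ≤ (n + i3) := by clear * - y13 y15 y16; omega
        have kk511 : (i2 + l2 + i3 + 3) ≤ (n + 2 * i) := by clear * - y0 y17 y18 y20 y3 z29; omega
        have kk512 : (3 * i2 + 3 * l2 + i3 + 5) ≤ (3 * n + 2 * i + 2 * j) := by clear * - b0 b3 y0 y14 y15 y20 y3 z29; linarith
        have kk513 : (i2 + l2 + i3 + 3) ≤ (n + 2 * Q) := by clear * - b1 b2 y13 y14 y18 y20 z29; linarith
        have kk514 : (n + i + j) ≤ (Q + i2 + l2 + 1) := by clear * - v19; omega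
        have r515 : (i + j) % 2 = 0 := by clear * - ev n1p n2p n3p; omega
        have r516 : (n + i3 - i2 - l2 - 1) % 2 = 0 := by clear * - ev n1p n2p n3p; omega
        clear * - al s2 D1 kk510 kk511 kk512 kk513 kk514 r515 r516
        exact midP al (n + i3 - i2 - l2 - 1) (i + j) (i2 + l2 - n + 2) (i2 + l2 - n + 2) (Q) (by omega) (fun t h1 h2 => (ab s2 al 0 t ((i + j) - t) (by omega))) (fun t h1 h2 => (pb D1 al (-1) t (t + (n + i3 - i2 - l2 - 1)) (by omega)))
    · have kk517 : (i + 1) ≤ (k) := by clear * - y19 y20; omega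
      have kk518 : (2 * j + k + 2) ≤ (2 * Q + i) := by clear * - b0 b3 y0 y12 y20 z29; omega
      have kk519 : (3 * k + 2 * l + 4) ≤ (2 * n + i + 2 * i2) := by clear * - y13 y19 y20 z29; omega
      have kk520 : (2 * j) ≤ (i + k + 2 * l) := by clear * - b2 b3 y13 y14 y16 y20 z29; linarith
      have kk521 : (n + i) ≤ (k + l + l2 + 2) := by clear * - y14 y21; omega
      have kk522 : (Q + k + l + 1) ≤ (n + i + j) := by clear * - b0 b3 y0 y20 z29 z30; omega
      have kk523 : (i) ≤ (j) := by clear * - y1; omega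
      have kk524 : (n + i + i2) ≤ (2 * k + 2 * l + 2) := by clear * - b0 b1 b3 y14 y20 z29 z30; linarith
      have r525 : (n + i + j + i2 - k - l - 1) % 2 = 0 := by clear * - ev n1p n2p n3p; omega
      have r526 : (k - i) % 2 = 0 := by clear * - ev n1p n2p n3p; omega
      clear * - al s2 b c kk517 kk518 kk519 kk520 kk521 kk522 kk523 kk524 r525 r526
      exact midP al (k - i) (n + i + j + i2 - k - l - 1) (j + 1) (i + 1) (k + l + 1) (by omega) (fun t h1 h2 => (cE (qa s2 al 0 t ((i + j) - t) (by omega)) (pb c al (-1) ((i + j) - t) ((n + i + j + i2 - k - l - 1) - t) (by omega)))) (fun t h1 h2 => (qf b al 0 t (t + (k - i)) (by omega)))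

theorem t1a_4 {W : ℤ → G} {n Q i j k l i2 l2 i3 : ℤ} (al : AL W n Q)
    (hy : (0) ≤ (i) ∧ (i) ≤ (j) ∧ (j + 1) ≤ (Q) ∧ (Q) ≤ (k) ∧ (k + 1) ≤ (n) ∧ (Q) ≤ (i + l + 1) ∧ (k + l + 2) ≤ (n) ∧ (Q) ≤ (i2) ∧ (i2) ≤ (i + l + 1) ∧ (Q) ≤ (i2 + l2 + 1) ∧ (i2 + l2 + 2) ≤ (n) ∧ (n) ≤ (k + l + l2 + 2) ∧ (k + l + l2 + 3) ≤ (n + Q) ∧ (0) ≤ (i3) ∧ (n + i3) ≤ (k + l + l2 + 2) ∧ (k + i2 + l2 + 2) ≤ (n + j + i3) ∧ (j + i3 + 1) ≤ (k) ∧ (k + i2 + l2 + 2) ≤ (n + i3) ∧ (i + 2 * i2 + 1) ≤ (2 * Q + k) ∧ (i + l + 1) ≤ (i2 + l2) ∧ (i2 + l2 + 1) ≤ (k + l) ∧ (i + 1) ≤ (i3))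
    (a1 : Par W (0) (j) (k - j))
    (a2 : Par W (Q + j - k) (j) (k - j))
    (s1 : Ant W (0) (i) (i + j))
    (s2 : Ant W (j + 1) (Q) (i + j))
    (b : Par W (i + 1) (i + l + 1) (k - i))
    (tt : Ant W (Q) (i2) (i + l + i2 + 1))
    (c : Par W (i2 + 1) (i2 + l2 + 1) (k + l - i2 + 1))
    (u1 : Ant W (0) (i3) (k + l + l2 + i3 - n + 2))
    (u2 : Ant W (k + l + l2 - n + 3) (Q) (k + l + l2 + i3 - n + 2))
    (D1 : Par W (i3 + 1) (Q) (i2 + l2 - i3 + 1))
    (D2 : Par W (i2 + l2 + 2) (n) (i3 - i2 - l2 - 1))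
    {L : ℤ} (mx : ∀ a b g, 0 < g → g < n → Par W a b g → b - a ≤ L)
    (hL : L ≤ (n - j - 3) ∧ L ≤ (n + Q - k - 3) ∧ L ≤ (n - l - 3) ∧ L ≤ (n + i - k - 2) ∧ L ≤ (n - l2 - 3) ∧ L ≤ (n + i3 - Q - 2) ∧ L ≤ (i2 + l2 - 1) ∧ L ≤ (n + i2 - k - l - 3) ∧ L ≤ (Q + i2 + l2 - i - l - 3))
    (bd0 : Bd W n L (j) (i) (k))
    (bd2 : Bd W n L (k + l + l2 - n + 2) (i3) (i2 + l2 + 1))
    (n1 : Nd W (j) (i) (k))
    (n2 : Nd W (i + l + 1) (i2) (k + l + 1))
    (n3 : Nd W (k + l + l2 - n + 2) (i3) (i2 + l2 + 1))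
    (b0 : (i + 2 * l + 3) ≤ (Q + i2 + l2))
    (b1 : (i + l + 3) ≤ (Q + i2))
    (b2 : (2 * k + 2 * l + l2 + i3 + 5) ≤ (2 * n + i2))
    (b3 : (n) ≤ (j + l + l2 + i3 + 2)) : False := by
  have ev := al.ev
  obtain ⟨y0, y1, y2, y3, y4, y5, y6, y7, y8, y9, y10, y11, y12, y13, y14, y15, y16, y17, y18, y19, y20, y21⟩ := id hy
  have n1p := And.intro n1.p1 n1.p2
  have n2p := And.intro n2.p1 n2.p2
  have n3p := And.intro n3.p1 n3.p2
  by_cases z5 : (l + l2 + i3 + 3) ≤ (n + j)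
  · exact t1a_5 al hy a1 a2 s1 s2 b tt c u1 u2 D1 D2 mx hL bd0 bd2 n1 n2 n3 (by clear * - b0; omega) (by clear * - b1; omega) (by clear * - b2; omega) (by clear * - b3; omega) (by clear * - z5; omega)
  · exact t1a_13 al hy a1 a2 s1 s2 b tt c u1 u2 D1 D2 mx hL bd0 bd2 n1 n2 n3 (by clear * - b0; omega) (by clear * - b1; omega) (by clear * - b2; omega) (by clear * - z5; omega)

end Pool.Agent.MP_a38735_al.WL
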