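import Pool.Agent.MP_a38735_al.Zw0
import Pool.Agent.MP_a38735_al.Zw1

set_option autoImplicit false
set_option linter.unusedVariables false

namespace Pool.Agent.MP_a38735_al.WL

variable {G : Type*} [Group G]

theorem t1a_21 {W : ℤ → G} {n Q i j k l i2 l2 i3 : ℤ} (al : AL W n Q)
    (hy : (0) ≤ (i) ∧ (i) ≤ (j) ∧ (j + 1) ≤ (Q) ∧ (Q) ≤ (k) ∧ (k + 1) ≤ (n) ∧ (Q) ≤ (i + l + 1) ∧ (k + l + 2) ≤ (n) ∧ (Q) ≤ (i2) ∧ (i2) ≤ (i + l + 1) ∧ (Q) ≤ (i2 + l2 + 1) ∧ (i2 + l2 + 2) ≤ (n) ∧ (n) ≤ (k + l + l2 + 2) ∧ (k + l + l2 + 3) ≤ (n + Q) ∧ (0) ≤ (i3) ∧ (n + i3) ≤ (k + l + l2 + 2) ∧ (k + i2 + l2 + 2) ≤ (n + j + i3) ∧ (j + i3 + 1) ≤ (k) ∧ (k + i2 + l2 + 2) ≤ (n + i3) ∧ (i + 2 * i2 + 1) ≤ (2 * Q + k) ∧ (i + l + 1) ≤ (i2 + l2) ∧ (i2 + l2 + 1) ≤ (k + l) ∧ (i + 1) ≤ (i3))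
    (a1 : Par W (0) (j) (k - j))
    (a2 : Par W (Q + j - k) (j) (k - j))
    (s1 : Ant W (0) (i) (i + j))
    (s2 : Ant W (j + 1) (Q) (i + j))
    (b : Par W (i + 1) (i + l + 1) (k - i))
    (tt : Ant W (Q) (i2) (i + l + i2 + 1))
    (c : Par W (i2 + 1) (i2 + l2 + 1) (k + l - i2 + 1))
    (u1 : Ant W (0) (i3) (k + l + l2 + i3 - n + 2))
    (u2 : Ant W (k + l + l2 - n + 3) (Q) (k + l + l2 + i3 - n + 2))
    (D1 : Par W (i3 + 1) (Q) (i2 + l2 - i3 + 1))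
    (D2 : Par W (i2 + l2 + 2) (n) (i3 - i2 - l2 - 1))
    {L : ℤ} (mx : ∀ a b g, 0 < g → g < n → Par W a b g → b - a ≤ L)
    (hL : L ≤ (n - j - 3) ∧ L ≤ (n + Q - k - 3) ∧ L ≤ (n - l - 3) ∧ L ≤ (n + i - k - 2) ∧ L ≤ (n - l2 - 3) ∧ L ≤ (n + i3 - Q - 2) ∧ L ≤ (i2 + l2 - 1) ∧ L ≤ (n + i2 - k - l - 3) ∧ L ≤ (Q + i2 + l2 - i - l - 3))
    (bd0 : Bd W n L (j) (i) (k))
    (bd2 : Bd W n L (k + l + l2 - n + 2) (i3) (i2 + l2 + 1))
    (n1 : Nd W (j) (i) (k))
    (n2 : Nd W (i + l + 1) (i2) (k + l + 1))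
    (n3 : Nd W (k + l + l2 - n + 2) (i3) (i2 + l2 + 1))
    (b0 : (i + 2 * l + 3) ≤ (Q + i2 + l2))
    (b1 : (i + l + 3) ≤ (Q + i2))
    (b2 : (j + l + l2 + i3 + 3) ≤ (n))
    (b3 : (2 * Q + i2 + l2) ≤ (n + i + j + i3))
    (b4 : (k + l + i3 + 1) ≤ (2 * i2 + l2))
    (b5 : (2 * n + i + i2 + i3) ≤ (3 * k + 2 * l + l2 + 3))
    (b6 : (2 * k + l + 2 * i3 + 2) ≤ (n + i + i2)) : False := by
  have ev := al.ev
  obtain ⟨y0, y1, y2, y3, y4, y5, y6, y7, y8, y9, y10, y11, y12, y13, y14, y15, y16, y17, y18, y19, y20, y21⟩ := id hy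
  have n1p := And.intro n1.p1 n1.p2
  have n2p := And.intro n2.p1 n2.p2
  have n3p := And.intro n3.p1 n3.p2
  by_cases z44 : (2 * i + 2 * j + 2 * i2 + l2 + 2) ≤ (2 * Q + k + l + i3)
  · by_cases z45 : (k + l + i3 + 2) ≤ (2 * Q + l2)
    · by_cases v30 : (i + j + i2 + l2) ≤ (k + l + i3)
      · have kk720 : (k + l + i3 + 1) ≤ (2 * i2 + l2) := by clear * - b4; omega
        have kk721 : (k + l + i3 + 2) ≤ (2 * Q + l2) := by clear * - z45; omega
        have kk722 : (5 * k + 5 * l + 3 * i3 + 4) ≤ (2 * n + 2 * i + 2 * j + 4 * i2 + 3 * l2) := by clear * - b3 b4 z45; omega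
        have kk723 : (3 * k + 3 * l + i3 + 4) ≤ (2 * n + 2 * i2 + l2) := by clear * - b3 b4 v30 z45; omega
        have kk724 : (i2 + l2) ≤ (k + l) := by clear * - y20; omega
        have kk725 : (n) ≤ (k + l + l2 + 2) := by clear * - b5 b6 y13; omega
        have kk726 : (n + i) ≤ (k + l + l2 + 2) := by clear * - y14 y21; omega
        have kk727 : (Q + k + l + 1) ≤ (n + i + j) := by clear * - b3 b4 z45; omega
        have kk728 : (j + i2 + l2) ≤ (k + l + i3) := by clear * - v30 y0; omega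
        have kk729 : (i + j + i2 + l2) ≤ (k + l + i3) := by clear * - v30; omega
        have r730 : (i + j + i2 - n - k - l - 1) % 2 = 0 := by clear * - ev n1p n2p n3p; omega
        have r731 : (2 * i2 + l2 - k - l - i3) % 2 = 0 := by clear * - ev n1p n2p n3p; omega
        clear * - al s2 c D2 kk720 kk721 kk722 kk723 kk724 kk725 kk726 kk727 kk728 kk729 r730 r731
        exact midP al (2 * i2 + l2 - k - l - i3) (i + j + i2 - n - k - l - 1) (k + l + i3 - n - i2 - l2 + 1) (k + l + i3 - n - i2 - l2 + 1) (i2 - k - l - 1) (by omega) (fun t h1 h2 => (cE (cE (qa s2 al (-1) t ((i + j - n) - t) (by omega)) (pb c al (-1) ((i + j - n) - t) ((i + j + i2 - k - l - 1) - t) (by omega))) (sh al (-1) ((i + j + i2 - k - l - 1) - t) ((i + j + i2 - n - k - l - 1) - t) (by omega)))) (fun t h1 h2 => (cE (qf (show Par W (k + l + i3 - i2 - l2 + 1) (n + i3 - i2 - l2 - 1) (2 * i2 + l2 - k - l - i3) from fun t h1 h2 => (cE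 (sh al (-1) t (t + (-n)) (by omega)) (cE (pb D2 al (-1) (t + (-n)) (t + (i2 + l2 - i3 + 1)) (by omega)) (pb c al 0 (t + (i2 + l2 - i3 + 1)) (t + (2 * i2 + l2 - k - l - i3)) (by omega))))) al (-1) t (t + (n + 2 * i2 + l2 - k - l - i3)) (by omega)) (sh al (-1) (t + (n + 2 * i2 + l2 - k - l - i3)) (t + (2 * i2 + l2 - k - l - i3)) (by omega))))
      · have kk732 : (k + l + i3 + 1) ≤ (2 * i2 + l2) := by clear * - b4; omega
        have kk733 : (2 * i + 2 * j + 2 * i2 + l2 + 2) ≤ (2 * Q + k + l + i3) := by clear * - z44; omega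
        have kk734 : (3 * k + 3 * l + i3 + 4) ≤ (2 * n + 2 * i2 + l2) := by clear * - b3 b4 v30 z44; omega
        have kk735 : (2 * i + 2 * j + k + l + l2 + 4) ≤ (2 * n + i3) := by clear * - b3 b4 z44; omega
        have kk736 : (i2 + l2) ≤ (k + l) := by clear * - y20; omega
        have kk737 : (n) ≤ (k + l + l2 + 2) := by clear * - b5 b6 y13; omega
        have kk738 : (n + i) ≤ (k + l + l2 + 2) := by clear * - y14 y21; omega
        have kk739 : (Q + k + l + 1) ≤ (n + i + j) := by clear * - b3 b4 z45; omega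
        have kk740 : (k + l + i3) ≤ (i + j + i2 + l2) := by clear * - v30; omega
        have kk741 : (0) ≤ (i) := by clear * - y0; omega
        have r742 : (i + j + i2 - n - k - l - 1) % 2 = 0 := by clear * - ev n1p n2p n3p; omega
        have r743 : (2 * i2 + l2 - k - l - i3) % 2 = 0 := by clear * - ev n1p n2p n3p; omega
        clear * - al s2 c D2 kk732 kk733 kk734 kk735 kk736 kk737 kk738 kk739 kk740 kk741 r742 r743
        exact midP al (2 * i2 + l2 - k - l - i3) (i + j + i2 - n - k - l - 1) (i + j - n + 1) (k + l + i3 - n - i2 - l2 + 1) (i2 - k - l - 1) (by omega) (fun t h1 h2 => (cE (cE (qa s2 al (-1) t ((i + j - n) - t) (by omega)) (pb c al (-1) ((i + j - n) - t) ((i + j + i2 - k - l - 1) - t) (by omega))) (sh al (-1) ((i + j + i2 - k - l - 1) - t) ((i + j + i2 - n - k - l - 1) - t) (by omega)))) (fun t h1 h2 => (cE (qf (show Par W (k + l + i3 - i2 - l2 + 1) (n + i3 - i2 - l2 - 1) (2 * i2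 + l2 - k - l - i3) from fun t h1 h2 => (cE (sh al (-1) t (t + (-n)) (by omega)) (cE (pb D2 al (-1) (t + (-n)) (t + (i2 + l2 - i3 + 1)) (by omega)) (pb c al 0 (t + (i2 + l2 - i3 + 1)) (t + (2 * i2 + l2 - k - l - i3)) (by omega))))) al (-1) t (t + (n + 2 * i2 + l2 - k - l - i3)) (by omega)) (sh al (-1) (t + (n + 2 * i2 + l2 - k - l - i3)) (t + (2 * i2 + l2 - k - l - i3)) (by omega))))
    · by_cases z46 : (2 * i + k + 3 * l + l2 + 6) ≤ (2 * n + i3)
      · have kk744 : (k + l + i3 + 1) ≤ (2 * i2 + l2) := by clear * - b4; omega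
        have kk745 : (2 * Q + l2) ≤ (k + l + i3) := by clear * - z45 ev n1p n2p n3p; omega
        have kk746 : (k + l + i3 + 2) ≤ (2 * i2 + l2) := by clear * - b4 ev n1p n2p n3p; omega
        have kk747 : (2 * i + k + 3 * l + l2 + 6) ≤ (2 * n + i3) := by clear * - z46; omega
        have kk748 : (i2 + l2) ≤ (k + l) := by clear * - y20; omega
        have kk749 : (n) ≤ (k + l + l2 + 2) := by clear * - b5 b6 y13; omega
        have kk750 : (k + l + 1) ≤ (n) := by clear * - b0 b3 b5 b6 y13 y17 z44 z46; linarith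
        have kk751 : (k + i3) ≤ (i + i2 + l2 + 1) := by clear * - b5 b6 y13; omega
        have r752 : (2 * n + i + l + i2 + 1) % 2 = 0 := by clear * - ev n1p n2p n3p; omega
        have r753 : (2 * i2 + l2 - k - l - i3) % 2 = 0 := by clear * - ev n1p n2p n3p; omega
        clear * - al tt c D2 kk744 kk745 kk746 kk747 kk748 kk749 kk750 kk751 r752 r753
        exact midP al (2 * i2 + l2 - k - l - i3) (2 * n + i + l + i2 + 1) (n + i + l + 2) (n + k + l + i3 - i2 - l2 + 1) (2 * n + i2 - k - l - 1) (by omega) (fun t h1 h2 => (cE (ab tt al 1 t ((n + i + l + i2 + 1) - t) (by omega)) (sh al 1 ((n + i + l + i2 + 1) - t) ((2 * n + i + l + i2 + 1) - t) (by omega)))) (fun t h1 h2 => (cE (qf (show Par W (k + l + i3 - i2 - l2 + 1) (n + i3 - i2 - l2 - 1) (2 * i2 + l2 - k - l - i3) from fun t h1 h2 => (cE (sh al (-1) t (t + (-n)) (by omega)) (cE (pb D2 al (-1) (t + (-n)) (t + (i2 + l2 - i3 + 1)) (by omega)) (pb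 c al 0 (t + (i2 + l2 - i3 + 1)) (t + (2 * i2 + l2 - k - l - i3)) (by omega))))) al 1 t (t + (2 * i2 + l2 - n - k - l - i3)) (by omega)) (sh al 1 (t + (2 * i2 + l2 - n - k - l - i3)) (t + (2 * i2 + l2 - k - l - i3)) (by omega))))
      · by_cases z47 : (i + 2 * j + l + 3) ≤ (2 * Q + i2)
        · by_cases z48 : (n + 2 * j) ≤ (i + l + i2 + 2 * l2 + 1)
          · have kk754 : (2 * k + l + 2) ≤ (n + i + i2) := by clear * - b0 b6 y17 z45 z46; omega
            have kk755 : (n + i + 2 * j + i2 + 1) ≤ (2 * Q + 2 * k + l) := by clear * - b5 y0 z44 z47; omega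
            have kk756 : (2 * k + l + 3) ≤ (n + i + i2) := by clear * - b0 b6 y17 z45 z46; omega
            have kk757 : (n + 2 * j) ≤ (i + l + i2 + 2 * l2 + 1) := by clear * - z48; omega
            have kk758 : (i2) ≤ (k) := by clear * - b0 b2 b3 b5 y17 z46; omega
            have kk759 : (i2 + l2) ≤ (k + l) := by clear * - y20; omega
            have kk760 : (k) ≤ (i2 + l2 + 1) := by clear * - b0 b3 b6 y21 z44 z45 z46; linarith
            have kk761 : (2 * k + l + 1) ≤ (n + j + i2) := by clear * - b4 y15; omega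
            have r762 : (i + j) % 2 = 0 := by clear * - ev n1p n2p n3p; omega
            have r763 : (n + i + i2 - 2 * k - l - 1) % 2 = 0 := by clear * - ev n1p n2p n3p; omega
            clear * - al s2 b c kk754 kk755 kk756 kk757 kk758 kk759 kk760 kk761 r762 r763
            exact midP al (n + i + i2 - 2 * k - l - 1) (i + j) (j + 1) (2 * k + l - n - i2 + 2) (i + i2 + l2 - k + 1) (by omega) (fun t h1 h2 => (qa s2 al 0 t ((i + j) - t) (by omega))) (fun t h1 h2 => (cE (qf (show Par W (2 * k + l - i2 + 2) (k + l + l2 + 2) (n + i + i2 - 2 * k - l - 1) from fun t h1 h2 => (cE (sh al (-1) t (t + (-n)) (by omega)) (cE (cE (pb c al (-1) (t + (-n)) (t + (i2 - k - l - 1)) (by omega)) (pb b al 0 (t + (i2 - k - l - 1)) (t + (i + i2 - 2 * k - l - 1)) (by omega))) (sh al 1 (t + (i + i2 - 2 * k - l - 1)) (t + (n + i + i2 - 2 * k - l - 1)) (by omega))))) al (-1) t (t + (2 * n + i + i2 - 2 * k - l - 1)) (by omega))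 (sh al (-1) (t + (2 * n + i + i2 - 2 * k - l - 1)) (t + (n + i + i2 - 2 * k - l - 1)) (by omega))))
          · have kk764 : (2 * k + l + 2) ≤ (n + i + i2) := by clear * - b0 b6 y17 z45 z46; omega
            have kk765 : (i + l + i2 + 2 * l2 + 5) ≤ (n + 2 * Q) := by clear * - b0 b3 b6 y17 z44 z45 z46 z47 z48; linarith
            have kk766 : (i + 2 * k + l + 3) ≤ (n + i2 + 2 * i3) := by clear * - b0 b6 y17 y21 z45 z46; omega
            have kk767 : (2 * k + l + 3) ≤ (n + i + i2) := by clear * - b0 b6 y17 z45 z46; omega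
            have kk768 : (i2) ≤ (k) := by clear * - b0 b2 b3 b5 y17 z46; omega
            have kk769 : (i2 + l2) ≤ (k + l) := by clear * - b1 b3 b5 b6 z44 z45 z46 z47 z48; linarith
            have kk770 : (k) ≤ (i2 + l2 + 1) := by clear * - b0 b3 b6 y21 z44 z45 z46; linarith
            have kk771 : (k + i3) ≤ (i + i2 + l2 + 1) := by clear * - b0 b3 b6 y21 z44 z45 z46; linarith
            have r772 : (n + k + l + l2 + i3 + 2) % 2 = 0 := by clear * - ev n1p n2p n3p; omega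
            have r773 : (n + i + i2 - 2 * k - l - 1) % 2 = 0 := by clear * - ev n1p n2p n3p; omega
            clear * - al b c u2 kk764 kk765 kk766 kk767 kk768 kk769 kk770 kk771 r772 r773
            exact midP al (n + i + i2 - 2 * k - l - 1) (n + k + l + l2 + i3 + 2) (k + l + l2 + 3) (2 * k + l - i2 + 2) (n + i + i2 + l2 - k + 1) (by omega) (fun t h1 h2 => (cE (qa u2 al 1 t ((k + l + l2 + i3 + 2) - t) (by omega)) (sh al 1 ((k + l + l2 + i3 + 2) - t) ((n + k + l + l2 + i3 + 2) - t) (by omega)))) (fun t h1 h2 => (qf (show Par W (2 * k + l - i2 + 2) (k + l + l2 + 2) (n + i + i2 - 2 * k - l - 1) from fun t h1 h2 => (cE (sh al (-1) t (t + (-n)) (by omega)) (cE (cE (pb c al (-1) (t + (-n)) (t + (i2 - k - l - 1)) (by omega)) (pb b al 0 (t + (i2 - k - l - 1)) (t + (i + i2 - 2 * k - l - 1)) (by omega))) (sh al 1 (t + (i + i2 - 2 * k - l - 1)) (t + (n + i + i2 - 2 * k - l - 1)) (by omega))))) al 0 t (t +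 (n + i + i2 - 2 * k - l - 1)) (by omega)))
        · by_cases z49 : (n + i + 2 * j + i2 + 1) ≤ (2 * Q + 2 * k + l)
          · by_cases z50 : (n + 2 * j) ≤ (i + l + i2 + 2 * l2 + 1)
            · have kk774 : (2 * k + l + 2) ≤ (n + i + i2) := by clear * - b0 b6 y17 z45 z46; omega
              have kk775 : (n + i + 2 * j + i2 + 1) ≤ (2 * Q + 2 * k + l) := by clear * - z49; omega
              have kk776 : (2 * k + l + 3) ≤ (n + i + i2) := by clear * - b0 b6 y17 z45 z46; omega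
              have kk777 : (n + 2 * j) ≤ (i + l + i2 + 2 * l2 + 1) := by clear * - z50; omega
              have kk778 : (i2) ≤ (k) := by clear * - b0 b3 b6 z47 z49; omega
              have kk779 : (i2 + l2) ≤ (k + l) := by clear * - b1 b2 b3 z44 z46 z47; omega
              have kk780 : (k) ≤ (i2 + l2 + 1) := by clear * - b0 b3 b6 y21 z46 z49; omega
              have kk781 : (2 * k + l + 1) ≤ (n + j + i2) := by clear * - b1 b6 y17 z47 z50; omega
              have r782 : (i + j) % 2 = 0 := by clear * - ev n1p n2p n3p; omega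
              have r783 : (n + i + i2 - 2 * k - l - 1) % 2 = 0 := by clear * - ev n1p n2p n3p; omega
              clear * - al s2 b c kk774 kk775 kk776 kk777 kk778 kk779 kk780 kk781 r782 r783
              exact midP al (n + i + i2 - 2 * k - l - 1) (i + j) (j + 1) (2 * k + l - n - i2 + 2) (i + i2 + l2 - k + 1) (by omega) (fun t h1 h2 => (qa s2 al 0 t ((i + j) - t) (by omega))) (fun t h1 h2 => (cE (qf (show Par W (2 * k + l - i2 + 2) (k + l + l2 + 2) (n + i + i2 - 2 * k - l - 1) from fun t h1 h2 => (cE (sh al (-1) t (t + (-n)) (by omega)) (cE (cE (pb c al (-1) (t + (-n)) (t + (i2 - k - l - 1)) (by omega)) (pb b al 0 (t + (i2 - k - l - 1)) (t + (i + i2 - 2 * k - l - 1)) (by omega))) (sh al 1 (t + (i + i2 - 2 * k - l - 1)) (t + (n + i + i2 - 2 * k - l - 1)) (by omega))))) al (-1) t (t + (2 * n + i + i2 - 2 * k - l - 1)) (by omega)) (sh al (-1) (t + (2 * n + i + i2 - 2 * k - l - 1)) (t + (n + i + i2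 - 2 * k - l - 1)) (by omega))))
            · have kk784 : (2 * k + l + 2) ≤ (n + i + i2) := by clear * - b0 b6 y17 z45 z46; omega
              have kk785 : (i + l + i2 + 2 * l2 + 5) ≤ (n + 2 * Q) := by clear * - b0 b6 y17 z45 z46 z49 z50; linarith
              have kk786 : (i + 2 * k + l + 3) ≤ (n + i2 + 2 * i3) := by clear * - b0 b6 y17 y21 z45 z46; omega
              have kk787 : (2 * k + l + 3) ≤ (n + i + i2) := by clear * - b0 b6 y17 z45 z46; omega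
              have kk788 : (i2) ≤ (k) := by clear * - b0 b3 b6 z47 z49; omega
              have kk789 : (i2 + l2) ≤ (k + l) := by clear * - b3 b4 z44 z46 z49 z50; omega
              have kk790 : (k) ≤ (i2 + l2 + 1) := by clear * - b0 b3 b6 y21 z46 z49; omega
              have kk791 : (k + i3) ≤ (i + i2 + l2 + 1) := by clear * - b0 b3 b6 y21 z46 z49; omega
              have r792 : (k + l + l2 + i3 - n + 2) % 2 = 0 := by clear * - ev n1p n2p n3p; omega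
              have r793 : (n + i + i2 - 2 * k - l - 1) % 2 = 0 := by clear * - ev n1p n2p n3p; omega
              clear * - al b c u2 kk784 kk785 kk786 kk787 kk788 kk789 kk790 kk791 r792 r793
              exact midP al (n + i + i2 - 2 * k - l - 1) (k + l + l2 + i3 - n + 2) (k + l + l2 - n + 3) (2 * k + l - n - i2 + 2) (i + i2 + l2 - k + 1) (by omega) (fun t h1 h2 => (qa u2 al 0 t ((k + l + l2 + i3 - n + 2) - t) (by omega))) (fun t h1 h2 => (cE (qf (show Par W (2 * k + l - i2 + 2) (k + l + l2 + 2) (n + i + i2 - 2 * k - l - 1) from fun t h1 h2 => (cE (sh al (-1) t (t + (-n)) (by omega)) (cE (cE (pb c al (-1) (t + (-n)) (t + (i2 - k - l - 1)) (by omega)) (pb b al 0 (t + (i2 - k - l - 1)) (t + (i + i2 - 2 * k - l - 1)) (by omega))) (sh al 1 (t + (i + i2 - 2 * k - l - 1)) (t + (n + i + i2 - 2 * k - l - 1)) (by omega))))) al (-1) t (t + (2 * n + i + i2 - 2 * k - l - 1)) (by omega)) (sh al (-1) (t + (2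 * n + i + i2 - 2 * k - l - 1)) (t + (n + i + i2 - 2 * k - l - 1)) (by omega))))
          · have kk794 : (k + l + i3 + 1) ≤ (2 * i2 + l2) := by clear * - b4; omega
            have kk795 : (j + l + l2 + 4) ≤ (n + i3) := by clear * - b0 b2 y17 z45 z46; omega
            have kk796 : (2 * k + 3 * l + i3 + 4) ≤ (n + j + 2 * i2 + l2) := by clear * - b0 b6 z49; omega
            have kk797 : (2 * i + j + l + l2 + 4) ≤ (n + i3) := by clear * - b0 b6 z44 z45 z49; omega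
            have kk798 : (2 * i + j + k + 2 * l + 4) ≤ (n + 2 * Q) := by clear * - b0 b6 z44 z49; omega
            have kk799 : (5 * k + 6 * l + 2 * i3 + 6) ≤ (3 * n + j + 4 * i2 + 2 * l2) := by clear * - b0 b3 b6 z44 z45 z46 z49; linarith
            have kk800 : (2 * i + j + 3 * k + 4 * l + 6) ≤ (3 * n + 2 * i2) := by clear * - b0 b3 b6 z44 z45 z46 z49; linarith
            have kk801 : (i2 + l2) ≤ (k + l) := by clear * - b1 b2 b3 z44 z46 z47; omega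
            have kk802 : (n) ≤ (k + l + l2 + 2) := by clear * - b0 b3 b6 z44 z45 z46 z47 z49; linarith
            have kk803 : (n + i) ≤ (k + l + l2 + 2) := by clear * - b0 b6 z44 z45 z46 z47 z49; linarith
            have kk804 : (Q + k + l + 1) ≤ (n + i + j) := by clear * - b0 b3 b6 z44 z46 z49; omega
            have kk805 : (n + i3) ≤ (i + l + i2 + l2 + 2) := by clear * - b4 z46; omega
            have kk806 : (n + Q) ≤ (i + k + 2 * l + 3) := by clear * - z45 z46; omega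
            have kk807 : (k + l + 1) ≤ (n) := by clear * - b0 b3 b6 z44 z45 z46 z49; linarith
            have kk808 : (k + i3) ≤ (i + i2 + l2 + 1) := by clear * - b0 b3 b6 z44 z45 z46 z49; linarith
            have r809 : (i + l + i2 - 2 * n + 1) % 2 = 0 := by clear * - ev n1p n2p n3p; omega
            have r810 : (2 * i2 + l2 - k - l - i3) % 2 = 0 := by clear * - ev n1p n2p n3p; omega
            have r811 : (i + j + i2 - n - k - l - 1) % 2 = 0 := by clear * - ev n1p n2p n3p; omega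
            clear * - al s2 tt c D2 kk794 kk795 kk796 kk797 kk798 kk799 kk800 kk801 kk802 kk803 kk804 kk805 kk806 kk807 kk808 r809 r810 r811
            exact mid2 al (2 * i2 + l2 - k - l - i3) (i + l + i2 - 2 * n + 1) (i + j + i2 - n - k - l - 1) (i + k + 2 * l - 2 * n + 3) (i2 - n) (-1) (k + l + i3 - n - i2 - l2 + 1) (i2 - k - l - 1) (by omega) (fun t h1 h2 => ⟨by omega, (cE (qa tt al (-1) t ((i + l + i2 - n + 1) - t) (by omega)) (sh al (-1) ((i + l + i2 - n + 1) - t) ((i + l + i2 - 2 * n + 1) - t) (by omega)))⟩) (fun t h1 h2 => ⟨by omega, (cE (cE (qa s2 al (-1) t ((i + j - n) - t) (by omega)) (pb c al (-1) ((i + j - n) - t) ((i + j + i2 - k - l - 1) - t) (by omega))) (sh al (-1) ((i + j + i2 - k - l - 1) - t) ((i + j + i2 - n - k - l - 1) - t) (by omega)))⟩) (fun t h1 h2 => (cE (qf (show Par W (k + l + i3 - i2 - l2 + 1) (n + i3 - i2 - l2 - 1) (2 * i2 + l2 - k - l - i3) from fun t h1 h2 => (cE (sh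 al (-1) t (t + (-n)) (by omega)) (cE (pb D2 al (-1) (t + (-n)) (t + (i2 + l2 - i3 + 1)) (by omega)) (pb c al 0 (t + (i2 + l2 - i3 + 1)) (t + (2 * i2 + l2 - k - l - i3)) (by omega))))) al (-1) t (t + (n + 2 * i2 + l2 - k - l - i3)) (by omega)) (sh al (-1) (t + (n + 2 * i2 + l2 - k - l - i3)) (t + (2 * i2 + l2 - k - l - i3)) (by omega))))
  · by_cases z51 : (j + l + i3 + 1) ≤ (i2 + l2)
    · by_cases z52 : (i + 2 * i2 + l2) ≤ (j + k + l + i3)
      · have kk812 : (0) ≤ (i) := by clear * - y0; omega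
        have kk813 : (i + 1) ≤ (j) := by clear * - b4 z52; omega
        have kk814 : (k + l + i3 + 1) ≤ (2 * i2 + l2) := by clear * - b4; omega
        have kk815 : (i + 2 * i2 + l2) ≤ (j + k + l + i3) := by clear * - z52; omega
        have kk816 : (j + l + i3 + 1) ≤ (i + i2 + l2) := by clear * - y0 z51; omega
        have kk817 : (k + i2 + l2 + 1) ≤ (n + i3) := by clear * - y17; omega
        have kk818 : (0) ≤ (i + 1) := by clear * - y0; omega
        have kk819 : (j) ≤ (i + l + 1) := by clear * - b5 y17 y2 y7 z44; omega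
        have kk820 : (i2 + l2) ≤ (k + l) := by clear * - y20; omega
        have kk821 : (n) ≤ (k + l + l2 + 2) := by clear * - b5 b6 y13; omega
        have r822 : (j - i) % 2 = 0 := by clear * - ev n1p n2p n3p; omega
        have r823 : (2 * i2 + l2 - k - l - i3) % 2 = 0 := by clear * - ev n1p n2p n3p; omega
        clear * - al a1 b c D2 n1 kk812 kk813 kk814 kk815 kk816 kk817 kk818 kk819 kk820 kk821 r822 r823
        exact n1.f1 (rEE (cE (qf a1 al 0 (i) (i + k - j) (by omega)) (sh al (-1) (i + k - j) (i + k - n - j) (by omega))) (sh al (-1) (k) (k - n) (by omega)) (rotL (j - i) (2 * i2 + l2 - k - l - i3) (i + k - n - j) (k - n) (by omega) (fun t h1 h2 => (cE (cE (pb a1 al (-1) t (t + (n + j - k)) (by omega)) (qf b al 0 (t + (n + j - k)) (t + (n + j - i)) (by omega))) (sh al (-1) (t + (n + j - i)) (t + (j - i)) (by omega)))) (fun t h1 h2 => (cE (cE (pb D2 al (-1) t (t + (n + i2 + l2 - i3 + 1)) (by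 omega)) (pb c al 0 (t + (n + i2 + l2 - i3 + 1)) (t + (n + 2 * i2 + l2 - k - l - i3)) (by omega))) (sh al (-1) (t + (n + 2 * i2 + l2 - k - l - i3)) (t + (2 * i2 + l2 - k - l - i3)) (by omega))))))
      · have kk824 : (j + 2 * k + l + 3) ≤ (n + 2 * i + i2) := by clear * - y0 y17 z52; omega
        have kk825 : (n + 2 * i + j + i2) ≤ (2 * Q + 2 * k + l) := by clear * - b1 b5 y12 y13 y17 z52; omega
        have kk826 : (i) ≤ (j) := by clear * - b1 b5 y17 z44 z52; omega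
        have kk827 : (n + i) ≤ (k + l + l2 + 2) := by clear * - b5 y15 y21 z52; omega
        have kk828 : (Q) ≤ (i + l + 1) := by clear * - b4 b5 y13 y17 y20 z44 z52; linarith
        have kk829 : (Q + k + l + 1) ≤ (n + i + j) := by clear * - b0 b5 y17 y20 z44 z52; omega
        have r830 : (n + j + i2 - l - 1) % 2 = 0 := by clear * - ev n1p n2p n3p; omega
        clear * - al s2 b c kk824 kk825 kk826 kk827 kk828 kk829 r830
        obtain ⟨t, ht⟩ : ∃ t, 2 * t = (n + j + i2 - l - 1) := ⟨(n + j + i2 - l - 1) / 2, by omega⟩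
        exact al.ninv t (cE (cI (pb b al 0 t (t + (i - k)) (by omega)) (qa s2 al 0 (t + (i - k)) ((j + k) - t) (by omega))) (pb c al (-1) ((j + k) - t) t (by omega)))
    · by_cases z53 : (i + l + i2 + 2 * l2 + 5) ≤ (n + 2 * Q)
      · have kk831 : (2 * k + l + 2) ≤ (n + i + i2) := by clear * - b6 y13; omega
        have kk832 : (i + l + i2 + 2 * l2 + 5) ≤ (n + 2 * Q) := by clear * - z53; omega
        have kk833 : (i + 2 * k + l + 3) ≤ (n + i2 + 2 * i3) := by clear * - b6 y13 y21; omega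
        have kk834 : (2 * k + l + 3) ≤ (n + i + i2) := by clear * - b4 y17 y2 z44; omega
        have kk835 : (i2) ≤ (k) := by clear * - b0 b2 b3 b4 b5 y0 y17; linarith
        have kk836 : (i2 + l2) ≤ (k + l) := by clear * - y20; omega
        have kk837 : (k) ≤ (i2 + l2 + 1) := by clear * - b5 b6 y13 y21; omega
        have kk838 : (k + i3) ≤ (i + i2 + l2 + 1) := by clear * - b5 b6 y13; omega
        have r839 : (k + l + l2 + i3 - n + 2) % 2 = 0 := by clear * - ev n1p n2p n3p; omega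
        have r840 : (n + i + i2 - 2 * k - l - 1) % 2 = 0 := by clear * - ev n1p n2p n3p; omega
        clear * - al b c u2 kk831 kk832 kk833 kk834 kk835 kk836 kk837 kk838 r839 r840
        exact midP al (n + i + i2 - 2 * k - l - 1) (k + l + l2 + i3 - n + 2) (k + l + l2 - n + 3) (2 * k + l - n - i2 + 2) (i + i2 + l2 - k + 1) (by omega) (fun t h1 h2 => (qa u2 al 0 t ((k + l + l2 + i3 - n + 2) - t) (by omega))) (fun t h1 h2 => (cE (qf (show Par W (2 * k + l - i2 + 2) (k + l + l2 + 2) (n + i + i2 - 2 * k - l - 1) from fun t h1 h2 => (cE (sh al (-1) t (t + (-n)) (by omega)) (cE (cE (pb c al (-1) (t + (-n)) (t + (i2 - k - l - 1)) (by omega)) (pb b al 0 (t + (i2 - k - l - 1)) (t + (i + i2 - 2 * k - l - 1)) (by omega))) (sh al 1 (t + (i + i2 - 2 * k - l - 1)) (t + (n + i + i2 - 2 * k - l - 1)) (by omega))))) al (-1) t (t + (2 * n + i + i2 - 2 * k - l - 1)) (by omega)) (sh al (-1) (t + (2 * n + i + i2 - 2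 * k - l - 1)) (t + (n + i + i2 - 2 * k - l - 1)) (by omega))))
      · by_cases z54 : (2 * Q + l2) ≤ (k + l + i3)
        · have kk841 : (k + l + i3 + 1) ≤ (2 * i2 + l2) := by clear * - b4; omega
          have kk842 : (2 * Q + l2) ≤ (k + l + i3) := by clear * - z54; omega
          have kk843 : (k + l + i3 + 2) ≤ (2 * i2 + l2) := by clear * - b1 b6 z53; omega
          have kk844 : (4 * i + k + 3 * l + l2 + 6) ≤ (2 * n + 2 * j + i3) := by clear * - b0 b2 b3 b5 b6 y21 z51; linarith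
          have kk845 : (i2 + l2) ≤ (k + l) := by clear * - y20; omega
          have kk846 : (n) ≤ (k + l + l2 + 2) := by clear * - b5 b6 y13; omega
          have kk847 : (0) ≤ (i + 1) := by clear * - y0; omega
          have kk848 : (k) ≤ (i + l + 1) := by clear * - b6 y2 z51 z53; omega
          have kk849 : (2 * i + l + i2 + 2) ≤ (Q + j + k) := by clear * - b0 b2 b5 b6 y17 z51 z53; linarith
          have kk850 : (i + i2 + 1) ≤ (Q + k) := by clear * - b4 y18 z54; omega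
          have kk851 : (2 * i + l + i2 + l2 + 2) ≤ (n + j + i3) := by clear * - b0 b5 b6 y17 z51 z54; omega
          have kk852 : (j + k + i3) ≤ (2 * i + i2 + l2 + 1) := by clear * - b6 y0 y2 z53; omega
          have r853 : (2 * n + 2 * i + l + i2 - j + 1) % 2 = 0 := by clear * - ev n1p n2p n3p; omega
          have r854 : (2 * i2 + l2 - k - l - i3) % 2 = 0 := by clear * - ev n1p n2p n3p; omega
          clear * - al a1 b tt c D2 kk841 kk842 kk843 kk844 kk845 kk846 kk847 kk848 kk849 kk850 kk851 kk852 r853 r854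
          exact midP al (2 * i2 + l2 - k - l - i3) (2 * n + 2 * i + l + i2 - j + 1) (n + 2 * i + l - j + 2) (n + k + l + i3 - i2 - l2 + 1) (2 * n + i2 - k - l - 1) (by omega) (fun t h1 h2 => (cE (cI (cE (pb a1 al 1 t (t + (j - n - k)) (by omega)) (qf b al 0 (t + (j - n - k)) (t + (j - n - i)) (by omega))) (ab tt al 0 (t + (j - n - i)) ((n + 2 * i + l + i2 - j + 1) - t) (by omega))) (sh al 1 ((n + 2 * i + l + i2 - j + 1) - t) ((2 * n + 2 * i + l + i2 - j + 1) - t) (by omega)))) (fun t h1 h2 => (cE (qf (show Par W (k + l + i3 - i2 - l2 + 1) (n + i3 - i2 - l2 - 1) (2 * i2 + l2 - k - l - i3) from fun t h1 h2 => (cE (sh al (-1) t (t + (-n)) (by omega)) (cE (pb D2 al (-1) (t + (-n)) (t + (i2 + l2 - i3 + 1)) (by omega)) (pb c al 0 (t + (i2 + l2 - i3 + 1)) (t + (2 * i2 + l2 - k - l - i3)) (by omega))))) al 1 t (t + (2 * i2 + l2 - n - k - l - i3)) (by omega)) (sh al 1 (t + (2 * i2 + l2 - n - k - l - i3)) (t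 + (2 * i2 + l2 - k - l - i3)) (by omega))))
        · have kk855 : (n + i + j + i2) ≤ (3 * k + l) := by clear * - b2 b5 y13; omega
          have kk856 : (3 * k + l + 2) ≤ (2 * n + i + j + i2) := by clear * - b1 b2 y17 y20 z44 z53 z54; linarith
          have kk857 : (k) ≤ (Q + j) := by clear * - b4 z51 z54; omega
          have kk858 : (Q + k) ≤ (i + i2 + l2 + 1) := by clear * - b6 y13 z53; omega
          have kk859 : (i2) ≤ (k) := by clear * - b2 b3 b5 y13 z54; omega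
          have kk860 : (i2 + l2) ≤ (k + l) := by clear * - y20; omega
          have kk861 : (2 * k + l + 2) ≤ (n + i2) := by clear * - b4 y17; omega
          have kk862 : (k + l + l2 + 2) ≤ (n + j) := by clear * - b0 b2 b6 z51 z53; omega
          clear * - al a1 b c kk855 kk856 kk857 kk858 kk859 kk860 kk861 kk862
          exact al.ubQ (3 * k + l - n - i - j - i2 + 1) (by omega) (by omega) fun t h1 h2 => (cE (pb (show Par W (2 * k + l - i2 + 2) (k + l + l2 + 2) (n + i + i2 - 2 * k - l - 1) from fun t h1 h2 => (cE (sh al (-1) t (t + (-n)) (by omega)) (cE (cE (pb c al (-1) (t + (-n)) (t + (i2 - k - l - 1)) (by omega)) (pb b al 0 (t + (i2 - k - l - 1)) (t + (i + i2 - 2 * k - l - 1)) (by omega))) (sh al 1 (t + (i + i2 - 2 * k - l - 1)) (t + (n + i + i2 - 2 * k - l - 1)) (by omega))))) al (-1) t (t + (2 * k + l - i - i2 + 1)) (by omega)) (qf a1 al 1 (t + (2 * k + l - i - i2 + 1)) (t + (3 * k + l - n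 - i - j - i2 + 1)) (by omega)))

theorem t1a_20 {W : ℤ → G} {n Q i j k l i2 l2 i3 : ℤ} (al : AL W n Q)
    (hy : (0) ≤ (i) ∧ (i) ≤ (j) ∧ (j + 1) ≤ (Q) ∧ (Q) ≤ (k) ∧ (k + 1) ≤ (n) ∧ (Q) ≤ (i + l + 1) ∧ (k + l + 2) ≤ (n) ∧ (Q) ≤ (i2) ∧ (i2) ≤ (i + l + 1) ∧ (Q) ≤ (i2 + l2 + 1) ∧ (i2 + l2 + 2) ≤ (n) ∧ (n) ≤ (k + l + l2 + 2) ∧ (k + l + l2 + 3) ≤ (n + Q) ∧ (0) ≤ (i3) ∧ (n + i3) ≤ (k + l + l2 + 2) ∧ (k + i2 + l2 + 2) ≤ (n + j + i3) ∧ (j + i3 + 1) ≤ (k) ∧ (k + i2 + l2 + 2) ≤ (n + i3) ∧ (i + 2 * i2 + 1) ≤ (2 * Q + k) ∧ (i + l + 1) ≤ (i2 + l2) ∧ (i2 + l2 + 1) ≤ (k + l) ∧ (i + 1) ≤ (i3))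
    (a1 : Par W (0) (j) (k - j))
    (a2 : Par W (Q + j - k) (j) (k - j))
    (s1 : Ant W (0) (i) (i + j))
    (s2 : Ant W (j + 1) (Q) (i + j))
    (b : Par W (i + 1) (i + l + 1) (k - i))
    (tt : Ant W (Q) (i2) (i + l + i2 + 1))
    (c : Par W (i2 + 1) (i2 + l2 + 1) (k + l - i2 + 1))
    (u1 : Ant W (0) (i3) (k + l + l2 + i3 - n + 2))
    (u2 : Ant W (k + l + l2 - n + 3) (Q) (k + l + l2 + i3 - n + 2))
    (D1 : Par W (i3 + 1) (Q) (i2 + l2 - i3 + 1))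
    (D2 : Par W (i2 + l2 + 2) (n) (i3 - i2 - l2 - 1))
    {L : ℤ} (mx : ∀ a b g, 0 < g → g < n → Par W a b g → b - a ≤ L)
    (hL : L ≤ (n - j - 3) ∧ L ≤ (n + Q - k - 3) ∧ L ≤ (n - l - 3) ∧ L ≤ (n + i - k - 2) ∧ L ≤ (n - l2 - 3) ∧ L ≤ (n + i3 - Q - 2) ∧ L ≤ (i2 + l2 - 1) ∧ L ≤ (n + i2 - k - l - 3) ∧ L ≤ (Q + i2 + l2 - i - l - 3))
    (bd0 : Bd W n L (j) (i) (k))
    (bd2 : Bd W n L (k + l + l2 - n + 2) (i3) (i2 + l2 + 1))
    (n1 : Nd W (j) (i) (k))
    (n2 : Nd W (i + l + 1) (i2) (k + l + 1))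
    (n3 : Nd W (k + l + l2 - n + 2) (i3) (i2 + l2 + 1))
    (b0 : (i + 2 * l + 3) ≤ (Q + i2 + l2))
    (b1 : (i + l + 3) ≤ (Q + i2))
    (b2 : (j + l + l2 + i3 + 3) ≤ (n))
    (b3 : (2 * Q + i2 + l2) ≤ (n + i + j + i3))
    (b4 : (k + l + i3 + 1) ≤ (2 * i2 + l2))
    (b5 : (2 * n + i + i2 + i3) ≤ (3 * k + 2 * l + l2 + 3)) : False := by
  have ev := al.ev
  obtain ⟨y0, y1, y2, y3, y4, y5, y6, y7, y8, y9, y10, y11, y12, y13, y14, y15, y16, y17, y18, y19, y20, y21⟩ := id hy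
  have n1p := And.intro n1.p1 n1.p2
  have n2p := And.intro n2.p1 n2.p2
  have n3p := And.intro n3.p1 n3.p2
  by_cases z43 : (n + i + i2) ≤ (2 * k + l + 2 * i3 + 1)
  · by_cases v29 : (2 * k + l + i3 + 2) ≤ (n + i + i2)
    · have kk700 : (2 * k + l + 2) ≤ (n + i + i2) := by clear * - v29 z43; omega
      have kk701 : (n + i + i2) ≤ (2 * k + l + 2 * i3 + 1) := by clear * - z43; omega
      have kk702 : (n + i) ≤ (l + i2 + 2 * l2 + 2 * i3 + 3) := by clear * - b5 v29 y21 z43; omega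
      have kk703 : (n) ≤ (i + l + i2 + 2 * l2 + 3) := by clear * - b5 v29 z43; omega
      have kk704 : (i2) ≤ (k) := by clear * - b0 b2 b3 b5 v29 y0 y17 z43; linarith
      have kk705 : (i2 + l2) ≤ (k + l) := by clear * - y20; omega
      have kk706 : (2 * k + l + 2) ≤ (n + i2) := by clear * - v29 y21; omega
      have kk707 : (2 * k + l + i3 + 2) ≤ (n + i + i2) := by clear * - v29; omega
      have r708 : (k + l + l2 + i3 - n + 2) % 2 = 0 := by clear * - ev n1p n2p n3p; omega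
      have r709 : (n + i + i2 - 2 * k - l - 1) % 2 = 0 := by clear * - ev n1p n2p n3p; omega
      clear * - al b c u1 kk700 kk701 kk702 kk703 kk704 kk705 kk706 kk707 r708 r709
      exact midP al (n + i + i2 - 2 * k - l - 1) (k + l + l2 + i3 - n + 2) (0) (2 * k + l - n - i2 + 2) (i + i2 + l2 - k + 1) (by omega) (fun t h1 h2 => (qa u1 al 0 t ((k + l + l2 + i3 - n + 2) - t) (by omega))) (fun t h1 h2 => (cE (qf (show Par W (2 * k + l - i2 + 2) (k + l + l2 + 2) (n + i + i2 - 2 * k - l - 1) from fun t h1 h2 => (cE (sh al (-1) t (t + (-n)) (by omega)) (cE (cE (pb c al (-1) (t + (-n)) (t + (i2 - k - l - 1)) (by omega)) (pb b al 0 (t + (i2 - k - l - 1)) (t + (i + i2 - 2 * k - l - 1)) (by omega))) (sh al 1 (t + (i + i2 - 2 * k - l - 1)) (t + (n + i + i2 - 2 * k - l - 1)) (by omega))))) al (-1) t (t + (2 * n + i + i2 - 2 * k - l - 1)) (by omega)) (sh al (-1) (t + (2 * n + i + i2 - 2 * k - l - 1)) (t + (n +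 i + i2 - 2 * k - l - 1)) (by omega))))
    · have kk710 : (2 * k + l + 2) ≤ (n + i + i2) := by clear * - b4 y0 y17; omega
      have kk711 : (2 * k + l + 3) ≤ (n + i + i2) := by clear * - b4 y0 y17; omega
      have kk712 : (4 * k + l + 1) ≤ (n + i + 3 * i2 + 2 * l2) := by clear * - b4 y17 y8 z43; omega
      have kk713 : (4 * k + l + 2 * i3 + 1) ≤ (n + 3 * i + 3 * i2 + 2 * l2) := by clear * - b4 b5 y0 y17; omega
      have kk714 : (i2) ≤ (k) := by clear * - b0 b2 b3 b4 b5 y0 y17; linarith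
      have kk715 : (i2 + l2) ≤ (k + l) := by clear * - y20; omega
      have kk716 : (n + i + i2) ≤ (2 * k + l + i3 + 2) := by clear * - v29; omega
      have kk717 : (i) ≤ (i3) := by clear * - y21; omega
      have r718 : (k + l + l2 + i3 - n + 2) % 2 = 0 := by clear * - ev n1p n2p n3p; omega
      have r719 : (n + i + i2 - 2 * k - l - 1) % 2 = 0 := by clear * - ev n1p n2p n3p; omega
      clear * - al b c u1 kk710 kk711 kk712 kk713 kk714 kk715 kk716 kk717 r718 r719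
      exact midP al (n + i + i2 - 2 * k - l - 1) (k + l + l2 + i3 - n + 2) (2 * k + l + i3 - n - i - i2 + 2) (2 * k + l - n - i2 + 2) (i + i2 + l2 - k + 1) (by omega) (fun t h1 h2 => (qa u1 al 0 t ((k + l + l2 + i3 - n + 2) - t) (by omega))) (fun t h1 h2 => (cE (qf (show Par W (2 * k + l - i2 + 2) (k + l + l2 + 2) (n + i + i2 - 2 * k - l - 1) from fun t h1 h2 => (cE (sh al (-1) t (t + (-n)) (by omega)) (cE (cE (pb c al (-1) (t + (-n)) (t + (i2 - k - l - 1)) (by omega)) (pb b al 0 (t + (i2 - k - l - 1)) (t + (i + i2 - 2 * k - l - 1)) (by omega))) (sh al 1 (t + (i + i2 - 2 * k - l - 1)) (t + (n + i + i2 - 2 * k - l - 1)) (by omega))))) al (-1) t (t + (2 * n + i + i2 - 2 * k - l - 1)) (by omega)) (sh al (-1) (t + (2 * n + i + i2 - 2 * k - l - 1)) (t + (n + i + i2 - 2 * k - l - 1)) (by omega))))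
  · exact t1a_21 al hy a1 a2 s1 s2 b tt c u1 u2 D1 D2 mx hL bd0 bd2 n1 n2 n3 (by clear * - b0; omega) (by clear * - b1; omega) (by clear * - b2; omega) (by clear * - b3; omega) (by clear * - b4; omega) (by clear * - b5; omega) (by clear * - z43; omega)

theorem t1a_19 {W : ℤ → G} {n Q i j k l i2 l2 i3 : ℤ} (al : AL W n Q)
    (hy : (0) ≤ (i) ∧ (i) ≤ (j) ∧ (j + 1) ≤ (Q) ∧ (Q) ≤ (k) ∧ (k + 1) ≤ (n) ∧ (Q) ≤ (i + l + 1) ∧ (k + l + 2) ≤ (n) ∧ (Q) ≤ (i2) ∧ (i2) ≤ (i + l + 1) ∧ (Q) ≤ (i2 + l2 + 1) ∧ (i2 + l2 + 2) ≤ (n) ∧ (n) ≤ (k + l + l2 + 2) ∧ (k + l + l2 + 3) ≤ (n + Q) ∧ (0) ≤ (i3) ∧ (n + i3) ≤ (k + l + l2 + 2) ∧ (k + i2 + l2 + 2) ≤ (n + j + i3) ∧ (j + i3 + 1) ≤ (k) ∧ (k + i2 + l2 + 2) ≤ (n + i3) ∧ (i + 2 * i2 + 1) ≤ (2 * Q + k) ∧ (i + l + 1) ≤ (i2 + l2) ∧ (i2 + l2 + 1) ≤ (k + l) ∧ (i + 1) ≤ (i3))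
    (a1 : Par W (0) (j) (k - j))
    (a2 : Par W (Q + j - k) (j) (k - j))
    (s1 : Ant W (0) (i) (i + j))
    (s2 : Ant W (j + 1) (Q) (i + j))
    (b : Par W (i + 1) (i + l + 1) (k - i))
    (tt : Ant W (Q) (i2) (i + l + i2 + 1))
    (c : Par W (i2 + 1) (i2 + l2 + 1) (k + l - i2 + 1))
    (u1 : Ant W (0) (i3) (k + l + l2 + i3 - n + 2))
    (u2 : Ant W (k + l + l2 - n + 3) (Q) (k + l + l2 + i3 - n + 2))
    (D1 : Par W (i3 + 1) (Q) (i2 + l2 - i3 + 1))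
    (D2 : Par W (i2 + l2 + 2) (n) (i3 - i2 - l2 - 1))
    {L : ℤ} (mx : ∀ a b g, 0 < g → g < n → Par W a b g → b - a ≤ L)
    (hL : L ≤ (n - j - 3) ∧ L ≤ (n + Q - k - 3) ∧ L ≤ (n - l - 3) ∧ L ≤ (n + i - k - 2) ∧ L ≤ (n - l2 - 3) ∧ L ≤ (n + i3 - Q - 2) ∧ L ≤ (i2 + l2 - 1) ∧ L ≤ (n + i2 - k - l - 3) ∧ L ≤ (Q + i2 + l2 - i - l - 3))
    (bd0 : Bd W n L (j) (i) (k))
    (bd2 : Bd W n L (k + l + l2 - n + 2) (i3) (i2 + l2 + 1))
    (n1 : Nd W (j) (i) (k))
    (n2 : Nd W (i + l + 1) (i2) (k + l + 1))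
    (n3 : Nd W (k + l + l2 - n + 2) (i3) (i2 + l2 + 1))
    (b0 : (i + 2 * l + 3) ≤ (Q + i2 + l2))
    (b1 : (i + l + 3) ≤ (Q + i2))
    (b2 : (j + l + l2 + i3 + 3) ≤ (n))
    (b3 : (2 * Q + i2 + l2) ≤ (n + i + j + i3))
    (b4 : (k + l + i3 + 1) ≤ (2 * i2 + l2))
    (b5 : (n + i + i2) ≤ (Q + 2 * k + l + 1))
    (b6 : (3 * n + i + i2 + 2 * i3) ≤ (4 * k + 3 * l + 2 * l2 + 6)) : False := by
  have ev := al.ev
  obtain ⟨y0, y1, y2, y3, y4, y5, y6, y7, y8, y9, y10, y11, y12, y13, y14, y15, y16, y17, y18, y19, y20, y21⟩ := id hy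
  have n1p := And.intro n1.p1 n1.p2
  have n2p := And.intro n2.p1 n2.p2
  have n3p := And.intro n3.p1 n3.p2
  by_cases z41 : (3 * k + 2 * l + l2 + 4) ≤ (2 * n + i + i2 + i3)
  · by_cases z42 : (2 * n + i + i2) ≤ (3 * k + 2 * l + l2 + i3 + 4)
    · by_cases v27 : (n + i) ≤ (k + l2 + i3 + 2)
      · have kk672 : (i2 + l2 + i3 + 1) ≤ (i + k + 2 * l) := by clear * - b6 y20 z41; omega
        have kk673 : (3 * k + 2 * l + l2 + 4) ≤ (2 * n + i + i2 + i3) := by clear * - z41; omega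
        have kk674 : (i + l) ≤ (l2 + i3) := by clear * - b0 b2 b3 b4 b6 v27 y17 z41; linarith
        have kk675 : (n + i) ≤ (k + l2 + i3 + 2) := by clear * - v27; omega
        have kk676 : (n + i3) ≤ (k + l + l2 + 2) := by clear * - b6 z41; omega
        have kk677 : (n + i) ≤ (k + l + l2 + 2) := by clear * - b6 y21 z41; omega
        have r678 : (k + i2 + l2 + i3 - i + 1) % 2 = 0 := by clear * - ev n1p n2p n3p; omega
        clear * - al b c u1 kk672 kk673 kk674 kk675 kk676 kk677 r678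
        obtain ⟨t, ht⟩ : ∃ t, 2 * t = (k + i2 + l2 + i3 - i + 1) := ⟨(k + i2 + l2 + i3 - i + 1) / 2, by omega⟩
        exact al.ninv t (cE (cI (qf c al 0 t (t + (k + l - i2 + 1)) (by omega)) (qa u1 al 1 (t + (k + l - i2 + 1)) ((i2 + l2 + i3 + 1) - t) (by omega))) (qf b al 0 ((i2 + l2 + i3 + 1) - t) t (by omega)))
      · have kk679 : (2 * n + i + i2) ≤ (3 * k + 2 * l + l2 + i3 + 3) := by clear * - z42 ev n1p n2p n3p; omega
        have kk680 : (3 * k + 2 * l + l2 + 4) ≤ (2 * n + i + i2 + i3) := by clear * - z41; omega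
        have kk681 : (k + l + 2) ≤ (n) := by clear * - b0 b2 b3 b4 b6 y17 z41; linarith
        have kk682 : (k + l2 + i3 + 2) ≤ (n + i) := by clear * - v27; omega
        have kk683 : (n + i3) ≤ (k + l + l2 + 2) := by clear * - b6 z41; omega
        have kk684 : (n + i) ≤ (k + l + l2 + 2) := by clear * - b6 y21 z41; omega
        have r685 : (k + i2 + l2 + i3 - i + 1) % 2 = 0 := by clear * - ev n1p n2p n3p; omega
        clear * - al b c u1 kk679 kk680 kk681 kk682 kk683 kk684 r685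
        obtain ⟨t, ht⟩ : ∃ t, 2 * t = (k + i2 + l2 + i3 - i + 1) := ⟨(k + i2 + l2 + i3 - i + 1) / 2, by omega⟩
        exact al.ninv t (cE (cI (qf c al 0 t (t + (k + l - i2 + 1)) (by omega)) (qa u1 al 1 (t + (k + l - i2 + 1)) ((i2 + l2 + i3 + 1) - t) (by omega))) (qf b al 0 ((i2 + l2 + i3 + 1) - t) t (by omega)))
    · by_cases v28 : (Q) ≤ (l2 + i3 + 1)
      · have kk686 : (3 * k + 2 * l + l2 + 5) ≤ (2 * n + i + i2 + i3) := by clear * - y13 z42; omega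
        have kk687 : (i + i2 + l2 + i3 + 2) ≤ (2 * Q + k) := by clear * - b5 z42; omega
        have kk688 : (n + i) ≤ (k + l + l2 + 2) := by clear * - b6 y21 z41; omega
        have kk689 : (n + i3) ≤ (k + l + l2 + 2) := by clear * - b6 z41; omega
        have kk690 : (Q) ≤ (i + l + 1) := by clear * - y7 y8; omega
        have kk691 : (Q) ≤ (l2 + i3 + 1) := by clear * - v28; omega
        have r692 : (k + i2 + l2 + i3 - 2 * n - i + 1) % 2 = 0 := by clear * - ev n1p n2p n3p; omega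
        clear * - al b c u2 kk686 kk687 kk688 kk689 kk690 kk691 r692
        obtain ⟨t, ht⟩ : ∃ t, 2 * t = (k + i2 + l2 + i3 - 2 * n - i + 1) := ⟨(k + i2 + l2 + i3 - 2 * n - i + 1) / 2, by omega⟩
        exact al.ninv t (cE (cE (cI (pb b al (-1) t (t + (n + i - k)) (by omega)) (qa u2 al 0 (t + (n + i - k)) ((2 * k + l + l2 + i3 - 2 * n - i + 2) - t) (by omega))) (pb c al (-1) ((2 * k + l + l2 + i3 - 2 * n - i + 2) - t) ((k + i2 + l2 + i3 - n - i + 1) - t) (by omega))) (sh al (-1) ((k + i2 + l2 + i3 - n - i + 1) - t) t (by omega)))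
      · have kk693 : (3 * k + 2 * l + l2 + 5) ≤ (2 * n + i + i2 + i3) := by clear * - y13 z42; omega
        have kk694 : (i + i2) ≤ (k + l2 + i3) := by clear * - b0 b2 b3 b4 b6 y13 y17 z42; linarith
        have kk695 : (n + i) ≤ (k + l + l2 + 2) := by clear * - b6 y21 z41; omega
        have kk696 : (n + i3) ≤ (k + l + l2 + 2) := by clear * - b6 z41; omega
        have kk697 : (l2 + i3) ≤ (i + l) := by clear * - v28 y7 y8; omega
        have kk698 : (l2 + i3 + 1) ≤ (Q) := by clear * - v28; omega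
        have r699 : (k + i2 + l2 + i3 - 2 * n - i + 1) % 2 = 0 := by clear * - ev n1p n2p n3p; omega
        clear * - al b c u2 kk693 kk694 kk695 kk696 kk697 kk698 r699
        obtain ⟨t, ht⟩ : ∃ t, 2 * t = (k + i2 + l2 + i3 - 2 * n - i + 1) := ⟨(k + i2 + l2 + i3 - 2 * n - i + 1) / 2, by omega⟩
        exact al.ninv t (cE (cE (cI (pb b al (-1) t (t + (n + i - k)) (by omega)) (qa u2 al 0 (t + (n + i - k)) ((2 * k + l + l2 + i3 - 2 * n - i + 2) - t) (by omega))) (pb c al (-1) ((2 * k + l + l2 + i3 - 2 * n - i + 2) - t) ((k + i2 + l2 + i3 - n - i + 1) - t) (by omega))) (sh al (-1) ((k + i2 + l2 + i3 - n - i + 1) - t) t (by omega)))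
  · exact t1a_20 al hy a1 a2 s1 s2 b tt c u1 u2 D1 D2 mx hL bd0 bd2 n1 n2 n3 (by clear * - b0; omega) (by clear * - b1; omega) (by clear * - b2; omega) (by clear * - b3; omega) (by clear * - b4; omega) (by clear * - z41; omega)

theorem t1a_18 {W : ℤ → G} {n Q i j k l i2 l2 i3 : ℤ} (al : AL W n Q)
    (hy : (0) ≤ (i) ∧ (i) ≤ (j) ∧ (j + 1) ≤ (Q) ∧ (Q) ≤ (k) ∧ (k + 1) ≤ (n) ∧ (Q) ≤ (i + l + 1) ∧ (k + l + 2) ≤ (n) ∧ (Q) ≤ (i2) ∧ (i2) ≤ (i + l + 1) ∧ (Q) ≤ (i2 + l2 + 1) ∧ (i2 + l2 + 2) ≤ (n) ∧ (n) ≤ (k + l + l2 + 2) ∧ (k + l + l2 + 3) ≤ (n + Q) ∧ (0) ≤ (i3) ∧ (n + i3) ≤ (k + l + l2 + 2) ∧ (k + i2 + l2 + 2) ≤ (n + j + i3) ∧ (j + i3 + 1) ≤ (k) ∧ (k + i2 + l2 + 2) ≤ (n + i3) ∧ (i + 2 * i2 + 1) ≤ (2 * Q + k) ∧ (i + l + 1) ≤ (i2 + l2) ∧ (i2 + l2 + 1) ≤ (k + l) ∧ (i + 1) ≤ (i3))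
    (a1 : Par W (0) (j) (k - j))
    (a2 : Par W (Q + j - k) (j) (k - j))
    (s1 : Ant W (0) (i) (i + j))
    (s2 : Ant W (j + 1) (Q) (i + j))
    (b : Par W (i + 1) (i + l + 1) (k - i))
    (tt : Ant W (Q) (i2) (i + l + i2 + 1))
    (c : Par W (i2 + 1) (i2 + l2 + 1) (k + l - i2 + 1))
    (u1 : Ant W (0) (i3) (k + l + l2 + i3 - n + 2))
    (u2 : Ant W (k + l + l2 - n + 3) (Q) (k + l + l2 + i3 - n + 2))
    (D1 : Par W (i3 + 1) (Q) (i2 + l2 - i3 + 1))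
    (D2 : Par W (i2 + l2 + 2) (n) (i3 - i2 - l2 - 1))
    {L : ℤ} (mx : ∀ a b g, 0 < g → g < n → Par W a b g → b - a ≤ L)
    (hL : L ≤ (n - j - 3) ∧ L ≤ (n + Q - k - 3) ∧ L ≤ (n - l - 3) ∧ L ≤ (n + i - k - 2) ∧ L ≤ (n - l2 - 3) ∧ L ≤ (n + i3 - Q - 2) ∧ L ≤ (i2 + l2 - 1) ∧ L ≤ (n + i2 - k - l - 3) ∧ L ≤ (Q + i2 + l2 - i - l - 3))
    (bd0 : Bd W n L (j) (i) (k))
    (bd2 : Bd W n L (k + l + l2 - n + 2) (i3) (i2 + l2 + 1))
    (n1 : Nd W (j) (i) (k))
    (n2 : Nd W (i + l + 1) (i2) (k + l + 1))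
    (n3 : Nd W (k + l + l2 - n + 2) (i3) (i2 + l2 + 1))
    (b0 : (i + 2 * l + 3) ≤ (Q + i2 + l2))
    (b1 : (i + l + 3) ≤ (Q + i2))
    (b2 : (j + l + l2 + i3 + 3) ≤ (n))
    (b3 : (2 * Q + i2 + l2) ≤ (n + i + j + i3))
    (b4 : (k + l + i3 + 1) ≤ (2 * i2 + l2))
    (b5 : (n + i + i2) ≤ (Q + 2 * k + l + 1)) : False := by
  have ev := al.ev
  obtain ⟨y0, y1, y2, y3, y4, y5, y6, y7, y8, y9, y10, y11, y12, y13, y14, y15, y16, y17, y18, y19, y20, y21⟩ := id hy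
  have n1p := And.intro n1.p1 n1.p2
  have n2p := And.intro n2.p1 n2.p2
  have n3p := And.intro n3.p1 n3.p2
  by_cases z39 : (4 * k + 3 * l + 2 * l2 + 7) ≤ (3 * n + i + i2 + 2 * i3)
  · by_cases z40 : (n + i + i2) ≤ (2 * k + l + l2 + i3 + 2)
    · by_cases v22 : (k) ≤ (i2)
      · by_cases v23 : (i + i2) ≤ (k + i3)
        · by_cases v24 : (Q + k) ≤ (i + i2 + l2 + 1)
          · have kk583 : (2 * k + l + 2) ≤ (n + i + i2) := by clear * - y14 z39; omega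
            have kk584 : (n + i + i2) ≤ (Q + 2 * k + l + 1) := by clear * - b5; omega
            have kk585 : (i + i2 + 1) ≤ (Q + k) := by clear * - b2 b3 b4 b5 v22 v23 v24 y18; linarith
            have kk586 : (i3 + 1) ≤ (Q) := by clear * - y12 y14; omega
            have kk587 : (4 * k + 3 * l + 2 * l2 + 7) ≤ (3 * n + i + i2 + 2 * i3) := by clear * - z39; omega
            have kk588 : (4 * k + 3 * l + 5) ≤ (3 * n + i + i2 + 2 * i3) := by clear * - b2 b3 b4 b5 v22 v23 v24 y18 z39; linarith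
            have kk589 : (k) ≤ (i2) := by clear * - v22; omega
            have kk590 : (i2 + l2) ≤ (k + l) := by clear * - y20; omega
            have kk591 : (0) ≤ (l2 + 1) := by clear * - b2 b3 b4 b5 v22 v23 v24 y18; linarith
            have kk592 : (k + i3) ≤ (i + i2 + l2 + 1) := by clear * - y14 z39; omega
            have kk593 : (i + i2) ≤ (k + i3) := by clear * - v23; omega
            have kk594 : (Q + k) ≤ (i + i2 + l2 + 1) := by clear * - v24; omega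
            have r595 : (k + l + l2 + i3 - n + 2) % 2 = 0 := by clear * - ev n1p n2p n3p; omega
            have r596 : (n + i + i2 - 2 * k - l - 1) % 2 = 0 := by clear * - ev n1p n2p n3p; omega
            clear * - al b c u1 u2 kk583 kk584 kk585 kk586 kk587 kk588 kk589 kk590 kk591 kk592 kk593 kk594 r595 r596
            exact mid2 al (n + i + i2 - 2 * k - l - 1) (k + l + l2 + i3 - n + 2) (k + l + l2 + i3 - n + 2) (k + l + l2 - n + 3) (Q) (-2) (k + l - n + 2) (i + i2 + l2 - k + 1) (by omega) (fun t h1 h2 => ⟨by omega, (qa u2 al 0 t ((k + l + l2 + i3 - n + 2) - t) (by omega))⟩) (fun t h1 h2 => ⟨by omega, (qa u1 al 0 t ((k + l + l2 + i3 - n + 2) - t) (by omega))⟩) (fun t h1 h2 => (cE (pb c al (-1) t (t + (n + i2 - k - l - 1)) (by omega)) (pb b al 0 (t + (n + i2 - k - l - 1)) (t + (n + i + i2 - 2 * k - l - 1)) (by omega))))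
          · have kk597 : (2 * k + l + 2) ≤ (n + i + i2) := by clear * - y14 z39; omega
            have kk598 : (n) ≤ (k + l + l2 + 2) := by clear * - y13 y14; omega
            have kk599 : (0) ≤ (l2) := by clear * - v23 y14 z39; omega
            have kk600 : (k + i3) ≤ (i + i2 + l2) := by clear * - y14 z39; omega
            have kk601 : (4 * k + 3 * l + 2 * l2 + 7) ≤ (3 * n + i + i2 + 2 * i3) := by clear * - z39; omega
            have kk602 : (4 * k + 3 * l + 5) ≤ (3 * n + i + i2 + 2 * i3) := by clear * - v23 y14 z39; omega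
            have kk603 : (k) ≤ (i2) := by clear * - v22; omega
            have kk604 : (i2 + l2) ≤ (k + l) := by clear * - y20; omega
            have kk605 : (0) ≤ (l2 + 1) := by clear * - v23 y14 z39; omega
            have kk606 : (k + i3) ≤ (i + i2 + l2 + 1) := by clear * - y14 z39; omega
            have kk607 : (i + i2) ≤ (k + i3) := by clear * - v23; omega
            have kk608 : (i + i2 + l2 + 1) ≤ (Q + k) := by clear * - v24; omega
            have r609 : (k + l + l2 + i3 - n + 2) % 2 = 0 := by clear * - ev n1p n2p n3p; omega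
            have r610 : (n + i + i2 - 2 * k - l - 1) % 2 = 0 := by clear * - ev n1p n2p n3p; omega
            clear * - al b c u1 u2 kk597 kk598 kk599 kk600 kk601 kk602 kk603 kk604 kk605 kk606 kk607 kk608 r609 r610
            exact mid2 al (n + i + i2 - 2 * k - l - 1) (k + l + l2 + i3 - n + 2) (k + l + l2 + i3 - n + 2) (k + l + l2 - n + 3) (i + i2 + l2 - k + 1) (-2) (k + l - n + 2) (i + i2 + l2 - k + 1) (by omega) (fun t h1 h2 => ⟨by omega, (qa u2 al 0 t ((k + l + l2 + i3 - n + 2) - t) (by omega))⟩) (fun t h1 h2 => ⟨by omega, (qa u1 al 0 t ((k + l + l2 + i3 - n + 2) - t) (by omega))⟩) (fun t h1 h2 => (cE (pb c al (-1) t (t + (n + i2 - k - l - 1)) (by omega)) (pb b al 0 (t + (n + i2 - k - l - 1)) (t + (n + i + i2 - 2 * k - l - 1)) (by omega))))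
        · by_cases v25 : (Q) ≤ (l2 + i3 + 1)
          · have kk611 : (2 * k + l + 2) ≤ (n + i + i2) := by clear * - b2 b3 b4 v22 v23 v25 y18 z39 z40; linarith
            have kk612 : (n + i + i2) ≤ (Q + 2 * k + l + 1) := by clear * - b5; omega
            have kk613 : (i + i2 + 1) ≤ (Q + k) := by clear * - b2 b3 b4 b5 v22 v25 y18; linarith
            have kk614 : (i3 + 1) ≤ (Q) := by clear * - b2 b3 b4 b5 v22 v23 v25 y18; linarith
            have kk615 : (4 * k + 3 * l + 2 * l2 + 7) ≤ (3 * n + i + i2 + 2 * i3) := by clear * - z39; omega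
            have kk616 : (4 * k + 3 * l + 5) ≤ (3 * n + i + i2 + 2 * i3) := by clear * - b2 b3 b4 v22 v23 v25 y18 z39 z40; linarith
            have kk617 : (k) ≤ (i2) := by clear * - v22; omega
            have kk618 : (i2 + l2) ≤ (k + l) := by clear * - y20; omega
            have kk619 : (0) ≤ (l2 + 1) := by clear * - b2 b3 b4 v22 v23 v25 y18 z40; linarith
            have kk620 : (k + i3) ≤ (i + i2 + l2 + 1) := by clear * - b2 b3 b4 v22 v23 v25 y18 z40; linarith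
            have kk621 : (Q) ≤ (l2 + i3 + 1) := by clear * - v25; omega
            have kk622 : (Q + k) ≤ (i + i2 + l2 + 1) := by clear * - v23 v25; omega
            have r623 : (k + l + l2 + i3 - n + 2) % 2 = 0 := by clear * - ev n1p n2p n3p; omega
            have r624 : (n + i + i2 - 2 * k - l - 1) % 2 = 0 := by clear * - ev n1p n2p n3p; omega
            clear * - al b c u1 u2 kk611 kk612 kk613 kk614 kk615 kk616 kk617 kk618 kk619 kk620 kk621 kk622 r623 r624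
            exact mid2 al (n + i + i2 - 2 * k - l - 1) (k + l + l2 + i3 - n + 2) (k + l + l2 + i3 - n + 2) (k + l + l2 - n + 3) (Q) (-2) (k + l - n + 2) (i + i2 + l2 - k + 1) (by omega) (fun t h1 h2 => ⟨by omega, (qa u2 al 0 t ((k + l + l2 + i3 - n + 2) - t) (by omega))⟩) (fun t h1 h2 => ⟨by omega, (qa u1 al 0 t ((k + l + l2 + i3 - n + 2) - t) (by omega))⟩) (fun t h1 h2 => (cE (pb c al (-1) t (t + (n + i2 - k - l - 1)) (by omega)) (pb b al 0 (t + (n + i2 - k - l - 1)) (t + (n + i + i2 - 2 * k - l - 1)) (by omega))))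
          · have kk625 : (2 * k + l + 2) ≤ (n + i + i2) := by clear * - b0 b2 b3 v22 v23 y17 z40; linarith
            have kk626 : (n + i + i2) ≤ (2 * k + l + l2 + i3 + 2) := by clear * - z40; omega
            have kk627 : (i + i2) ≤ (k + l2 + i3) := by clear * - b0 b2 b3 v22 v23 y14 y17 z40; linarith
            have kk628 : (0) ≤ (l2) := by clear * - b0 b2 b3 v22 v23 y14 y17 z40; linarith
            have kk629 : (4 * k + 3 * l + 2 * l2 + 7) ≤ (3 * n + i + i2 + 2 * i3) := by clear * - z39; omega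
            have kk630 : (4 * k + 3 * l + 5) ≤ (3 * n + i + i2 + 2 * i3) := by clear * - b0 b2 b3 v22 v23 y17 z40; linarith
            have kk631 : (k) ≤ (i2) := by clear * - v22; omega
            have kk632 : (i2 + l2) ≤ (k + l) := by clear * - y20; omega
            have kk633 : (0) ≤ (l2 + 1) := by clear * - b0 b2 b3 v22 v23 y14 y17 z40; linarith
            have kk634 : (k + i3) ≤ (i + i2 + l2 + 1) := by clear * - y14 z39; omega
            have kk635 : (k + i3) ≤ (i + i2) := by clear * - v23; omega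
            have kk636 : (l2 + i3 + 1) ≤ (Q) := by clear * - v25; omega
            have r637 : (k + l + l2 + i3 - n + 2) % 2 = 0 := by clear * - ev n1p n2p n3p; omega
            have r638 : (n + i + i2 - 2 * k - l - 1) % 2 = 0 := by clear * - ev n1p n2p n3p; omega
            clear * - al b c u1 u2 kk625 kk626 kk627 kk628 kk629 kk630 kk631 kk632 kk633 kk634 kk635 kk636 r637 r638
            exact mid2 al (n + i + i2 - 2 * k - l - 1) (k + l + l2 + i3 - n + 2) (k + l + l2 + i3 - n + 2) (k + l + l2 - n + 3) (l2 + i3 + 1) (-2) (k + l - n + 2) (i + i2 + l2 - k + 1) (by omega) (fun t h1 h2 => ⟨by omega, (qa u2 al 0 t ((k + l + l2 + i3 - n + 2) - t) (by omega))⟩) (fun t h1 h2 => ⟨by omega, (qa u1 al 0 t ((k + l + l2 + i3 - n + 2) - t) (by omega))⟩) (fun t h1 h2 => (cE (pb c al (-1) t (t + (n + i2 - k - l - 1)) (by omega)) (pb b al 0 (t + (n + i2 - k - l - 1)) (t + (n + i + i2 - 2 * k - l - 1)) (by omega))))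
      · by_cases v26 : (Q + k) ≤ (i + i2 + l2 + 1)
        · have kk639 : (2 * k + l + 2) ≤ (n + i + i2) := by clear * - y14 z39; omega
          have kk640 : (n + i + i2) ≤ (Q + 2 * k + l + 1) := by clear * - b5; omega
          have kk641 : (i + 1) ≤ (Q) := by clear * - b4 b5 y17; omega
          have kk642 : (i3 + 1) ≤ (Q) := by clear * - y12 y14; omega
          have kk643 : (4 * k + 3 * l + 2 * l2 + 7) ≤ (3 * n + i + i2 + 2 * i3) := by clear * - z39; omega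
          have kk644 : (6 * k + 3 * l + 5) ≤ (3 * n + i + 3 * i2 + 2 * i3) := by clear * - b4 b5 v26 y17 z39; omega
          have kk645 : (i2) ≤ (k) := by clear * - v22; omega
          have kk646 : (i2 + l2) ≤ (k + l) := by clear * - y20; omega
          have kk647 : (k) ≤ (i2 + l2 + 1) := by clear * - b4 b5 v26 y17; omega
          have kk648 : (k + i3) ≤ (i + i2 + l2 + 1) := by clear * - y14 z39; omega
          have kk649 : (i) ≤ (i3) := by clear * - y21; omega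
          have kk650 : (Q + k) ≤ (i + i2 + l2 + 1) := by clear * - v26; omega
          have r651 : (k + l + l2 + i3 - n + 2) % 2 = 0 := by clear * - ev n1p n2p n3p; omega
          have r652 : (n + i + i2 - 2 * k - l - 1) % 2 = 0 := by clear * - ev n1p n2p n3p; omega
          clear * - al b c u1 u2 kk639 kk640 kk641 kk642 kk643 kk644 kk645 kk646 kk647 kk648 kk649 kk650 r651 r652
          exact mid2 al (n + i + i2 - 2 * k - l - 1) (k + l + l2 + i3 - n + 2) (k + l + l2 + i3 - n + 2) (k + l + l2 - n + 3) (Q) (-2) (2 * k + l - n - i2 + 2) (i + i2 + l2 - k + 1) (by omega) (fun t h1 h2 => ⟨by omega, (qa u2 al 0 t ((k + l + l2 + i3 - n + 2) - t) (by omega))⟩) (fun t h1 h2 => ⟨by omega, (qa u1 al 0 t ((k + l + l2 + i3 - n + 2) - t) (by omega))⟩) (fun t h1 h2 => (cE (pb c al (-1) t (t + (n + i2 - k - l - 1)) (by omega)) (pb b al 0 (t + (n + i2 - k - l - 1)) (t + (n + i + i2 - 2 * k - l - 1)) (by omega))))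
        · have kk653 : (2 * k + l + 2) ≤ (n + i + i2) := by clear * - y14 z39; omega
          have kk654 : (n) ≤ (k + l + l2 + 2) := by clear * - y13 y14; omega
          have kk655 : (k) ≤ (i2 + l2) := by clear * - y14 y21 z39; omega
          have kk656 : (k + i3) ≤ (i + i2 + l2) := by clear * - y14 z39; omega
          have kk657 : (4 * k + 3 * l + 2 * l2 + 7) ≤ (3 * n + i + i2 + 2 * i3) := by clear * - z39; omega
          have kk658 : (6 * k + 3 * l + 5) ≤ (3 * n + i + 3 * i2 + 2 * i3) := by clear * - y14 y21 z39; omega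
          have kk659 : (i2) ≤ (k) := by clear * - v22; omega
          have kk660 : (i2 + l2) ≤ (k + l) := by clear * - y20; omega
          have kk661 : (k) ≤ (i2 + l2 + 1) := by clear * - y14 y21 z39; omega
          have kk662 : (k + i3) ≤ (i + i2 + l2 + 1) := by clear * - y14 z39; omega
          have kk663 : (i) ≤ (i3) := by clear * - y21; omega
          have kk664 : (i + i2 + l2 + 1) ≤ (Q + k) := by clear * - v26; omega
          have r665 : (k + l + l2 + i3 - n + 2) % 2 = 0 := by clear * - ev n1p n2p n3p; omega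
          have r666 : (n + i + i2 - 2 * k - l - 1) % 2 = 0 := by clear * - ev n1p n2p n3p; omega
          clear * - al b c u1 u2 kk653 kk654 kk655 kk656 kk657 kk658 kk659 kk660 kk661 kk662 kk663 kk664 r665 r666
          exact mid2 al (n + i + i2 - 2 * k - l - 1) (k + l + l2 + i3 - n + 2) (k + l + l2 + i3 - n + 2) (k + l + l2 - n + 3) (i + i2 + l2 - k + 1) (-2) (2 * k + l - n - i2 + 2) (i + i2 + l2 - k + 1) (by omega) (fun t h1 h2 => ⟨by omega, (qa u2 al 0 t ((k + l + l2 + i3 - n + 2) - t) (by omega))⟩) (fun t h1 h2 => ⟨by omega, (qa u1 al 0 t ((k + l + l2 + i3 - n + 2) - t) (by omega))⟩) (fun t h1 h2 => (cE (pb c al (-1) t (t + (n + i2 - k - l - 1)) (by omega)) (pb b al 0 (t + (n + i2 - k - l - 1)) (t + (n + i + i2 - 2 * k - l - 1)) (by omega))))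
    · have kk667 : (k + l + 2 * i3 + 3) ≤ (2 * Q + i2) := by clear * - b0 b5 y13 y14 y18 y21 z40; linarith
      have kk668 : (k + l + i2 + 2 * l2 + 4) ≤ (2 * n) := by clear * - b2 b3 b4 b5 y17 y18 z40; linarith
      have kk669 : (Q + i2) ≤ (k + l + i3 + 1) := by clear * - b2 b3 y13 y14 y17 y21; omega
      have kk670 : (0) ≤ (i3) := by clear * - y13; omega
      have r671 : (k + l + 2 * i3 - i2 + 1) % 2 = 0 := by clear * - ev n1p n2p n3p; omega
      clear * - al u2 D2 kk667 kk668 kk669 kk670 r671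
      obtain ⟨t, ht⟩ : ∃ t, 2 * t = (k + l + 2 * i3 - i2 + 1) := ⟨(k + l + 2 * i3 - i2 + 1) / 2, by omega⟩
      exact al.ninv t (cI (pb D2 al 0 t (t + (i2 + l2 - i3 + 1)) (by omega)) (ab u2 al 1 (t + (i2 + l2 - i3 + 1)) t (by omega)))
  · exact t1a_19 al hy a1 a2 s1 s2 b tt c u1 u2 D1 D2 mx hL bd0 bd2 n1 n2 n3 (by clear * - b0; omega) (by clear * - b1; omega) (by clear * - b2; omega) (by clear * - b3; omega) (by clear * - b4; omega) (by clear * - b5; omega) (by clear * - z39; omega)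

theorem t1a_17 {W : ℤ → G} {n Q i j k l i2 l2 i3 : ℤ} (al : AL W n Q)
    (hy : (0) ≤ (i) ∧ (i) ≤ (j) ∧ (j + 1) ≤ (Q) ∧ (Q) ≤ (k) ∧ (k + 1) ≤ (n) ∧ (Q) ≤ (i + l + 1) ∧ (k + l + 2) ≤ (n) ∧ (Q) ≤ (i2) ∧ (i2) ≤ (i + l + 1) ∧ (Q) ≤ (i2 + l2 + 1) ∧ (i2 + l2 + 2) ≤ (n) ∧ (n) ≤ (k + l + l2 + 2) ∧ (k + l + l2 + 3) ≤ (n + Q) ∧ (0) ≤ (i3) ∧ (n + i3) ≤ (k + l + l2 + 2) ∧ (k + i2 + l2 + 2) ≤ (n + j + i3) ∧ (j + i3 + 1) ≤ (k) ∧ (k + i2 + l2 + 2) ≤ (n + i3) ∧ (i + 2 * i2 + 1) ≤ (2 * Q + k) ∧ (i + l + 1) ≤ (i2 + l2) ∧ (i2 + l2 + 1) ≤ (k + l) ∧ (i + 1) ≤ (i3))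
    (a1 : Par W (0) (j) (k - j))
    (a2 : Par W (Q + j - k) (j) (k - j))
    (s1 : Ant W (0) (i) (i + j))
    (s2 : Ant W (j + 1) (Q) (i + j))
    (b : Par W (i + 1) (i + l + 1) (k - i))
    (tt : Ant W (Q) (i2) (i + l + i2 + 1))
    (c : Par W (i2 + 1) (i2 + l2 + 1) (k + l - i2 + 1))
    (u1 : Ant W (0) (i3) (k + l + l2 + i3 - n + 2))
    (u2 : Ant W (k + l + l2 - n + 3) (Q) (k + l + l2 + i3 - n + 2))
    (D1 : Par W (i3 + 1) (Q) (i2 + l2 - i3 + 1))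
    (D2 : Par W (i2 + l2 + 2) (n) (i3 - i2 - l2 - 1))
    {L : ℤ} (mx : ∀ a b g, 0 < g → g < n → Par W a b g → b - a ≤ L)
    (hL : L ≤ (n - j - 3) ∧ L ≤ (n + Q - k - 3) ∧ L ≤ (n - l - 3) ∧ L ≤ (n + i - k - 2) ∧ L ≤ (n - l2 - 3) ∧ L ≤ (n + i3 - Q - 2) ∧ L ≤ (i2 + l2 - 1) ∧ L ≤ (n + i2 - k - l - 3) ∧ L ≤ (Q + i2 + l2 - i - l - 3))
    (bd0 : Bd W n L (j) (i) (k))
    (bd2 : Bd W n L (k + l + l2 - n + 2) (i3) (i2 + l2 + 1))
    (n1 : Nd W (j) (i) (k))
    (n2 : Nd W (i + l + 1) (i2) (k + l + 1))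
    (n3 : Nd W (k + l + l2 - n + 2) (i3) (i2 + l2 + 1))
    (b0 : (i + 2 * l + 3) ≤ (Q + i2 + l2))
    (b1 : (i + l + 3) ≤ (Q + i2))
    (b2 : (j + l + l2 + i3 + 3) ≤ (n))
    (b3 : (2 * Q + i2 + l2) ≤ (n + i + j + i3))
    (b4 : (k + l + i3 + 1) ≤ (2 * i2 + l2)) : False := by
  have ev := al.ev
  obtain ⟨y0, y1, y2, y3, y4, y5, y6, y7, y8, y9, y10, y11, y12, y13, y14, y15, y16, y17, y18, y19, y20, y21⟩ := id hy
  have n1p := And.intro n1.p1 n1.p2
  have n2p := And.intro n2.p1 n2.p2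
  have n3p := And.intro n3.p1 n3.p2
  by_cases z38 : (n + i + i2) ≤ (Q + 2 * k + l + 1)
  · exact t1a_18 al hy a1 a2 s1 s2 b tt c u1 u2 D1 D2 mx hL bd0 bd2 n1 n2 n3 (by clear * - b0; omega) (by clear * - b1; omega) (by clear * - b2; omega) (by clear * - b3; omega) (by clear * - b4; omega) (by clear * - z38; omega)
  · exact t1a_22 al hy a1 a2 s1 s2 b tt c u1 u2 D1 D2 mx hL bd0 bd2 n1 n2 n3 (by clear * - b0; omega) (by clear * - b1; omega) (by clear * - b2; omega) (by clear * - b3; omega) (by clear * - z38; omega)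

theorem t1a_16 {W : ℤ → G} {n Q i j k l i2 l2 i3 : ℤ} (al : AL W n Q)
    (hy : (0) ≤ (i) ∧ (i) ≤ (j) ∧ (j + 1) ≤ (Q) ∧ (Q) ≤ (k) ∧ (k + 1) ≤ (n) ∧ (Q) ≤ (i + l + 1) ∧ (k + l + 2) ≤ (n) ∧ (Q) ≤ (i2) ∧ (i2) ≤ (i + l + 1) ∧ (Q) ≤ (i2 + l2 + 1) ∧ (i2 + l2 + 2) ≤ (n) ∧ (n) ≤ (k + l + l2 + 2) ∧ (k + l + l2 + 3) ≤ (n + Q) ∧ (0) ≤ (i3) ∧ (n + i3) ≤ (k + l + l2 + 2) ∧ (k + i2 + l2 + 2) ≤ (n + j + i3) ∧ (j + i3 + 1) ≤ (k) ∧ (k + i2 + l2 + 2) ≤ (n + i3) ∧ (i + 2 * i2 + 1) ≤ (2 * Q + k) ∧ (i + l + 1) ≤ (i2 + l2) ∧ (i2 + l2 + 1) ≤ (k + l) ∧ (i + 1) ≤ (i3))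
    (a1 : Par W (0) (j) (k - j))
    (a2 : Par W (Q + j - k) (j) (k - j))
    (s1 : Ant W (0) (i) (i + j))
    (s2 : Ant W (j + 1) (Q) (i + j))
    (b : Par W (i + 1) (i + l + 1) (k - i))
    (tt : Ant W (Q) (i2) (i + l + i2 + 1))
    (c : Par W (i2 + 1) (i2 + l2 + 1) (k + l - i2 + 1))
    (u1 : Ant W (0) (i3) (k + l + l2 + i3 - n + 2))
    (u2 : Ant W (k + l + l2 - n + 3) (Q) (k + l + l2 + i3 - n + 2))
    (D1 : Par W (i3 + 1) (Q) (i2 + l2 - i3 + 1))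
    (D2 : Par W (i2 + l2 + 2) (n) (i3 - i2 - l2 - 1))
    {L : ℤ} (mx : ∀ a b g, 0 < g → g < n → Par W a b g → b - a ≤ L)
    (hL : L ≤ (n - j - 3) ∧ L ≤ (n + Q - k - 3) ∧ L ≤ (n - l - 3) ∧ L ≤ (n + i - k - 2) ∧ L ≤ (n - l2 - 3) ∧ L ≤ (n + i3 - Q - 2) ∧ L ≤ (i2 + l2 - 1) ∧ L ≤ (n + i2 - k - l - 3) ∧ L ≤ (Q + i2 + l2 - i - l - 3))
    (bd0 : Bd W n L (j) (i) (k))
    (bd2 : Bd W n L (k + l + l2 - n + 2) (i3) (i2 + l2 + 1))
    (n1 : Nd W (j) (i) (k))
    (n2 : Nd W (i + l + 1) (i2) (k + l + 1))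
    (n3 : Nd W (k + l + l2 - n + 2) (i3) (i2 + l2 + 1))
    (b0 : (i + 2 * l + 3) ≤ (Q + i2 + l2))
    (b1 : (i + l + 3) ≤ (Q + i2))
    (b2 : (2 * k + 2 * l + l2 + i3 + 5) ≤ (2 * n + i2))
    (b3 : (j + l + l2 + i3 + 3) ≤ (n))
    (b4 : (2 * Q + i2 + l2) ≤ (n + i + j + i3))
    (b5 : (2 * i2 + l2) ≤ (k + l + i3)) : False := by
  have ev := al.ev
  obtain ⟨y0, y1, y2, y3, y4, y5, y6, y7, y8, y9, y10, y11, y12, y13, y14, y15, y16, y17, y18, y19, y20, y21⟩ := id hy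
  have n1p := And.intro n1.p1 n1.p2
  have n2p := And.intro n2.p1 n2.p2
  have n3p := And.intro n3.p1 n3.p2
  by_cases z33 : (k + l + i3) ≤ (2 * i2 + l2)
  · have kk537 : (i3 + 1) ≤ (i2) := by clear * - y20 z33; omega
    have kk538 : (2 * i2 + l2 + 2) ≤ (n + i3) := by clear * - b0 b3 b4 b5 y14 y17 y8; linarith
    have kk539 : (k + l + i3) ≤ (2 * i2 + l2) := by clear * - z33; omega
    have kk540 : (2 * i2 + l2) ≤ (k + l + i3) := by clear * - b5; omega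
    clear * - al D2 n2 kk537 kk538 kk539 kk540
    exact n2.f1 (pb D2 al 0 (i2) (k + l + 1) (by omega))
  · by_cases z34 : (n + j + i3) ≤ (k + i2 + 2 * l2 + 2)
    · by_cases z35 : (j + i2) ≤ (k)
      · by_cases z36 : (l + i3) ≤ (i2 + l2)
        · by_cases v21 : (2 * i2 + 2 * l2 + 2) ≤ (n + i3)
          · have kk541 : (i3 + 1) ≤ (i2) := by clear * - y12 y14 y7; omega
            have kk542 : (2 * i2 + l2 + 2) ≤ (n + i3) := by clear * - y17 z33 z36; omega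
            have kk543 : (2 * i2 + l2 + 1) ≤ (k + l + i3) := by clear * - z33; omega
            have kk544 : (k + i2 + l2 + 2) ≤ (n + j + i3) := by clear * - y15; omega
            have kk545 : (n + j + i3) ≤ (k + i2 + 2 * l2 + 2) := by clear * - z34; omega
            have kk546 : (Q) ≤ (i2) := by clear * - y7; omega
            have kk547 : (l + i3) ≤ (i2 + l2) := by clear * - z36; omega
            have kk548 : (i3) ≤ (i2) := by clear * - y12 y14 y7; omega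
            have kk549 : (2 * i2 + 2 * l2 + 2) ≤ (n + i3) := by clear * - v21; omega
            have kk550 : (i3 + 1) ≤ (Q) := by clear * - y12 y14; omega
            have kk551 : (k + i2 + l2 + 1) ≤ (n + i3) := by clear * - y17; omega
            have r552 : (k + l + i3 - 2 * i2 - l2) % 2 = 0 := by clear * - ev n1p n2p n3p; omega
            have r553 : (n + j + i3 - k - i2 - l2 - 1) % 2 = 0 := by clear * - ev n1p n2p n3p; omega
            clear * - al a2 c D2 n2 kk541 kk542 kk543 kk544 kk545 kk546 kk547 kk548 kk549 kk550 kk551 r552 r553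
            exact n2.f1 (rEE (cE (pb D2 al 0 (i2) (2 * i2 + l2 - i3 + 1) (by omega)) (sh al (-1) (2 * i2 + l2 - i3 + 1) (2 * i2 + l2 - n - i3 + 1) (by omega))) (sh al (-1) (k + l + 1) (k + l - n + 1) (by omega)) (rotL (k + l + i3 - 2 * i2 - l2) (n + j + i3 - k - i2 - l2 - 1) (2 * i2 + l2 - n - i3 + 1) (k + l - n + 1) (by omega) (fun t h1 h2 => (cE (cE (qf D2 al (-1) t (t + (n + i3 - i2 - l2 - 1)) (by omega)) (qf c al 0 (t + (n + i3 - i2 - l2 - 1)) (t + (n + k + l + i3 - 2 * i2 - l2)) (by omega))) (sh al (-1) (t + (n + k + l + i3 - 2 * i2 - l2)) (t + (k + l + i3 - 2 * i2 - l2)) (by omega)))) (fun t h1 h2 => (cE (qf D2 al (-1) t (t + (n + i3 - i2 - l2 - 1)) (by omega)) (pb a2 al 0 (t + (n + i3 - i2 - l2 - 1)) (t + (n + j + i3 - k - i2 - l2 - 1)) (by omega))))))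
          · have kk554 : (i3 + 1) ≤ (i2) := by clear * - y12 y14 y7; omega
            have kk555 : (2 * i2 + l2 + 2) ≤ (n + i3) := by clear * - y17 z33 z36; omega
            have kk556 : (2 * i2 + l2 + 1) ≤ (k + l + i3) := by clear * - z33; omega
            have kk557 : (k + i2 + l2 + 2) ≤ (n + j + i3) := by clear * - y15; omega
            have kk558 : (j + i2) ≤ (k) := by clear * - z35; omega
            have kk559 : (Q) ≤ (i2) := by clear * - y7; omega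
            have kk560 : (l + i3) ≤ (i2 + l2) := by clear * - z36; omega
            have kk561 : (i3) ≤ (i2) := by clear * - y12 y14 y7; omega
            have kk562 : (n + i3) ≤ (2 * i2 + 2 * l2 + 2) := by clear * - v21; omega
            have kk563 : (i3 + 1) ≤ (Q) := by clear * - y12 y14; omega
            have kk564 : (k + i2 + l2 + 1) ≤ (n + i3) := by clear * - y17; omega
            have r565 : (k + l + i3 - 2 * i2 - l2) % 2 = 0 := by clear * - ev n1p n2p n3p; omega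
            have r566 : (n + j + i3 - k - i2 - l2 - 1) % 2 = 0 := by clear * - ev n1p n2p n3p; omega
            clear * - al a2 c D2 n2 kk554 kk555 kk556 kk557 kk558 kk559 kk560 kk561 kk562 kk563 kk564 r565 r566
            exact n2.f1 (rEE (cE (pb D2 al 0 (i2) (2 * i2 + l2 - i3 + 1) (by omega)) (sh al (-1) (2 * i2 + l2 - i3 + 1) (2 * i2 + l2 - n - i3 + 1) (by omega))) (sh al (-1) (k + l + 1) (k + l - n + 1) (by omega)) (rotL (k + l + i3 - 2 * i2 - l2) (n + j + i3 - k - i2 - l2 - 1) (2 * i2 + l2 - n - i3 + 1) (k + l - n + 1) (by omega) (fun t h1 h2 => (cE (cE (qf D2 al (-1) t (t + (n + i3 - i2 - l2 - 1)) (by omega)) (qf c al 0 (t + (n + i3 - i2 - l2 - 1)) (t + (n + k + l + i3 - 2 * i2 - l2)) (by omega))) (sh al (-1) (t + (n + k + l + i3 - 2 * i2 - l2)) (t + (k + l + i3 - 2 * i2 - l2)) (by omega)))) (fun t h1 h2 => (cE (qf D2 al (-1) t (t + (n + i3 - i2 - l2 - 1)) (by omega)) (pb a2 al 0 (t + (n +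 i3 - i2 - l2 - 1)) (t + (n + j + i3 - k - i2 - l2 - 1)) (by omega))))))
        · have kk567 : (i + 1) ≤ (k) := by clear * - y19 y20; omega
          have kk568 : (k + 1) ≤ (n + i) := by clear * - b2 y13 y14 y8; omega
          have kk569 : (n + i2) ≤ (k + 2 * l + 2) := by clear * - y14 z36; omega
          clear * - al b mx hL kk567 kk568 kk569
          exact absurd (mx (i + 1) (i + l + 1) (k - i) (by omega) (by omega) fun t h1 h2 => (qf b al 0 t (t + (k - i)) (by omega))) (by omega)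
      · have kk570 : (2 * i2 + l2 + 1) ≤ (k + l + i3) := by clear * - z33; omega
        have kk571 : (k + l + i3 + 1) ≤ (n + 2 * i2 + l2) := by clear * - b2 y13 z33 z34 z35; omega
        have kk572 : (k + l + 2) ≤ (n) := by clear * - y6; omega
        have kk573 : (i3) ≤ (i2) := by clear * - b3 z33 z34 z35; omega
        have kk574 : (n + i3) ≤ (2 * i2 + 2 * l2 + 2) := by clear * - z34 z35; omega
        clear * - al c D2 kk570 kk571 kk572 kk573 kk574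
        exact al.ubP (k + l + i3 - 2 * i2 - l2) (by omega) (by omega) fun t h1 h2 => (cE (sh al 2 t (t + (2 * n)) (by omega)) (cE (cE (qf D2 al 1 (t + (2 * n)) (t + (n + i3 - i2 - l2 - 1)) (by omega)) (qf c al 0 (t + (n + i3 - i2 - l2 - 1)) (t + (n + k + l + i3 - 2 * i2 - l2)) (by omega))) (sh al (-1) (t + (n + k + l + i3 - 2 * i2 - l2)) (t + (k + l + i3 - 2 * i2 - l2)) (by omega))))
    · by_cases z37 : (2 * i2 + l2) ≤ (k + l)
      · have kk575 : (i2 + l2 + 2) ≤ (n + i3) := by clear * - y13 y15 y16; omega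
        have kk576 : (i3) ≤ (i2 + l2) := by clear * - b2 y13 y14; omega
        have kk577 : (2 * i2 + l2) ≤ (k + l) := by clear * - z37; omega
        clear * - al D2 mx hL kk575 kk576 kk577
        exact absurd (mx (i2 + l2 + 2) (n) (n + i3 - i2 - l2 - 1) (by omega) (by omega) fun t h1 h2 => (cE (qf D2 al 0 t (t + (i3 - i2 - l2 - 1)) (by omega)) (sh al 1 (t + (i3 - i2 - l2 - 1)) (t + (n + i3 - i2 - l2 - 1)) (by omega)))) (by omega)
      · have kk578 : (2 * i2 + l2 + 1) ≤ (k + l + i3) := by clear * - z33; omega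
        have kk579 : (k + l + i3 + 1) ≤ (n + 2 * i2 + l2) := by clear * - b2 y14 z33 z37; omega
        have kk580 : (k + l + 2) ≤ (n) := by clear * - y6; omega
        have kk581 : (i3) ≤ (i2) := by clear * - b3 y14 z33 z34 z37; omega
        have kk582 : (n + i3) ≤ (2 * i2 + 2 * l2 + 2) := by clear * - y14 z37; omega
        clear * - al c D2 kk578 kk579 kk580 kk581 kk582
        exact al.ubP (k + l + i3 - 2 * i2 - l2) (by omega) (by omega) fun t h1 h2 => (cE (cE (qf D2 al (-1) t (t + (n + i3 - i2 - l2 - 1)) (by omega)) (qf c al 0 (t + (n + i3 - i2 - l2 - 1)) (t + (n + k + l + i3 - 2 * i2 - l2)) (by omega))) (sh al (-1) (t + (n + k + l + i3 - 2 * i2 - l2)) (t + (k + l + i3 - 2 * i2 - l2)) (by omega)))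

theorem t1a_15 {W : ℤ → G} {n Q i j k l i2 l2 i3 : ℤ} (al : AL W n Q)
    (hy : (0) ≤ (i) ∧ (i) ≤ (j) ∧ (j + 1) ≤ (Q) ∧ (Q) ≤ (k) ∧ (k + 1) ≤ (n) ∧ (Q) ≤ (i + l + 1) ∧ (k + l + 2) ≤ (n) ∧ (Q) ≤ (i2) ∧ (i2) ≤ (i + l + 1) ∧ (Q) ≤ (i2 + l2 + 1) ∧ (i2 + l2 + 2) ≤ (n) ∧ (n) ≤ (k + l + l2 + 2) ∧ (k + l + l2 + 3) ≤ (n + Q) ∧ (0) ≤ (i3) ∧ (n + i3) ≤ (k + l + l2 + 2) ∧ (k + i2 + l2 + 2) ≤ (n + j + i3) ∧ (j + i3 + 1) ≤ (k) ∧ (k + i2 + l2 + 2) ≤ (n + i3) ∧ (i + 2 * i2 + 1) ≤ (2 * Q + k) ∧ (i + l + 1) ≤ (i2 + l2) ∧ (i2 + l2 + 1) ≤ (k + l) ∧ (i + 1) ≤ (i3))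
    (a1 : Par W (0) (j) (k - j))
    (a2 : Par W (Q + j - k) (j) (k - j))
    (s1 : Ant W (0) (i) (i + j))
    (s2 : Ant W (j + 1) (Q) (i + j))
    (b : Par W (i + 1) (i + l + 1) (k - i))
    (tt : Ant W (Q) (i2) (i + l + i2 + 1))
    (c : Par W (i2 + 1) (i2 + l2 + 1) (k + l - i2 + 1))
    (u1 : Ant W (0) (i3) (k + l + l2 + i3 - n + 2))
    (u2 : Ant W (k + l + l2 - n + 3) (Q) (k + l + l2 + i3 - n + 2))
    (D1 : Par W (i3 + 1) (Q) (i2 + l2 - i3 + 1))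
    (D2 : Par W (i2 + l2 + 2) (n) (i3 - i2 - l2 - 1))
    {L : ℤ} (mx : ∀ a b g, 0 < g → g < n → Par W a b g → b - a ≤ L)
    (hL : L ≤ (n - j - 3) ∧ L ≤ (n + Q - k - 3) ∧ L ≤ (n - l - 3) ∧ L ≤ (n + i - k - 2) ∧ L ≤ (n - l2 - 3) ∧ L ≤ (n + i3 - Q - 2) ∧ L ≤ (i2 + l2 - 1) ∧ L ≤ (n + i2 - k - l - 3) ∧ L ≤ (Q + i2 + l2 - i - l - 3))
    (bd0 : Bd W n L (j) (i) (k))
    (bd2 : Bd W n L (k + l + l2 - n + 2) (i3) (i2 + l2 + 1))
    (n1 : Nd W (j) (i) (k))
    (n2 : Nd W (i + l + 1) (i2) (k + l + 1))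
    (n3 : Nd W (k + l + l2 - n + 2) (i3) (i2 + l2 + 1))
    (b0 : (i + 2 * l + 3) ≤ (Q + i2 + l2))
    (b1 : (i + l + 3) ≤ (Q + i2))
    (b2 : (2 * k + 2 * l + l2 + i3 + 5) ≤ (2 * n + i2))
    (b3 : (j + l + l2 + i3 + 3) ≤ (n))
    (b4 : (2 * Q + i2 + l2) ≤ (n + i + j + i3)) : False := by
  have ev := al.ev
  obtain ⟨y0, y1, y2, y3, y4, y5, y6, y7, y8, y9, y10, y11, y12, y13, y14, y15, y16, y17, y18, y19, y20, y21⟩ := id hy
  have n1p := And.intro n1.p1 n1.p2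
  have n2p := And.intro n2.p1 n2.p2
  have n3p := And.intro n3.p1 n3.p2
  by_cases z32 : (2 * i2 + l2) ≤ (k + l + i3)
  · exact t1a_16 al hy a1 a2 s1 s2 b tt c u1 u2 D1 D2 mx hL bd0 bd2 n1 n2 n3 (by clear * - b0; omega) (by clear * - b1; omega) (by clear * - b2; omega) (by clear * - b3; omega) (by clear * - b4; omega) (by clear * - z32; omega)
  · exact t1a_17 al hy a1 a2 s1 s2 b tt c u1 u2 D1 D2 mx hL bd0 bd2 n1 n2 n3 (by clear * - b0; omega) (by clear * - b1; omega) (by clear * - b3; omega) (by clear * - b4; omega) (by clear * - z32; omega)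

theorem t1a_14 {W : ℤ → G} {n Q i j k l i2 l2 i3 : ℤ} (al : AL W n Q)
    (hy : (0) ≤ (i) ∧ (i) ≤ (j) ∧ (j + 1) ≤ (Q) ∧ (Q) ≤ (k) ∧ (k + 1) ≤ (n) ∧ (Q) ≤ (i + l + 1) ∧ (k + l + 2) ≤ (n) ∧ (Q) ≤ (i2) ∧ (i2) ≤ (i + l + 1) ∧ (Q) ≤ (i2 + l2 + 1) ∧ (i2 + l2 + 2) ≤ (n) ∧ (n) ≤ (k + l + l2 + 2) ∧ (k + l + l2 + 3) ≤ (n + Q) ∧ (0) ≤ (i3) ∧ (n + i3) ≤ (k + l + l2 + 2) ∧ (k + i2 + l2 + 2) ≤ (n + j + i3) ∧ (j + i3 + 1) ≤ (k) ∧ (k + i2 + l2 + 2) ≤ (n + i3) ∧ (i + 2 * i2 + 1) ≤ (2 * Q + k) ∧ (i + l + 1) ≤ (i2 + l2) ∧ (i2 + l2 + 1) ≤ (k + l) ∧ (i + 1) ≤ (i3))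
    (a1 : Par W (0) (j) (k - j))
    (a2 : Par W (Q + j - k) (j) (k - j))
    (s1 : Ant W (0) (i) (i + j))
    (s2 : Ant W (j + 1) (Q) (i + j))
    (b : Par W (i + 1) (i + l + 1) (k - i))
    (tt : Ant W (Q) (i2) (i + l + i2 + 1))
    (c : Par W (i2 + 1) (i2 + l2 + 1) (k + l - i2 + 1))
    (u1 : Ant W (0) (i3) (k + l + l2 + i3 - n + 2))
    (u2 : Ant W (k + l + l2 - n + 3) (Q) (k + l + l2 + i3 - n + 2))
    (D1 : Par W (i3 + 1) (Q) (i2 + l2 - i3 + 1))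
    (D2 : Par W (i2 + l2 + 2) (n) (i3 - i2 - l2 - 1))
    {L : ℤ} (mx : ∀ a b g, 0 < g → g < n → Par W a b g → b - a ≤ L)
    (hL : L ≤ (n - j - 3) ∧ L ≤ (n + Q - k - 3) ∧ L ≤ (n - l - 3) ∧ L ≤ (n + i - k - 2) ∧ L ≤ (n - l2 - 3) ∧ L ≤ (n + i3 - Q - 2) ∧ L ≤ (i2 + l2 - 1) ∧ L ≤ (n + i2 - k - l - 3) ∧ L ≤ (Q + i2 + l2 - i - l - 3))
    (bd0 : Bd W n L (j) (i) (k))
    (bd2 : Bd W n L (k + l + l2 - n + 2) (i3) (i2 + l2 + 1))
    (n1 : Nd W (j) (i) (k))
    (n2 : Nd W (i + l + 1) (i2) (k + l + 1))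
    (n3 : Nd W (k + l + l2 - n + 2) (i3) (i2 + l2 + 1))
    (b0 : (i + 2 * l + 3) ≤ (Q + i2 + l2))
    (b1 : (i + l + 3) ≤ (Q + i2))
    (b2 : (2 * k + 2 * l + l2 + i3 + 5) ≤ (2 * n + i2))
    (b3 : (j + l + l2 + i3 + 3) ≤ (n)) : False := by
  have ev := al.ev
  obtain ⟨y0, y1, y2, y3, y4, y5, y6, y7, y8, y9, y10, y11, y12, y13, y14, y15, y16, y17, y18, y19, y20, y21⟩ := id hy
  have n1p := And.intro n1.p1 n1.p2
  have n2p := And.intro n2.p1 n2.p2
  have n3p := And.intro n3.p1 n3.p2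
  by_cases z31 : (n + i + j + i3 + 1) ≤ (2 * Q + i2 + l2)
  · by_cases v20 : (n + i + j) ≤ (Q + i2 + l2 + 1)
    · have kk527 : (i2 + l2 + i3 + 3) ≤ (n + i + j) := by clear * - b3 y0 y1 y14 y17; omega
      have kk528 : (i + j + i2 + l2 + 2) ≤ (n + i3) := by clear * - y16 y17 y21; omega
      have kk529 : (n + i + j) ≤ (Q + i2 + l2 + 1) := by clear * - v20; omega
      have kk530 : (0) ≤ (i) := by clear * - y0; omega
      have r531 : (n + i + j + i3 - i2 - l2 - 1) % 2 = 0 := by clear * - ev n1p n2p n3p; omega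
      clear * - al s2 D2 kk527 kk528 kk529 kk530 r531
      obtain ⟨t, ht⟩ : ∃ t, 2 * t = (n + i + j + i3 - i2 - l2 - 1) := ⟨(n + i + j + i3 - i2 - l2 - 1) / 2, by omega⟩
      exact al.ninv t (cI (pb D2 al 0 t (t + (i2 + l2 - i3 + 1)) (by omega)) (ab s2 al 1 (t + (i2 + l2 - i3 + 1)) t (by omega)))
    · have kk532 : (n + i + j + i3 + 1) ≤ (2 * Q + i2 + l2) := by clear * - z31; omega
      have kk533 : (i + j + i2 + l2 + 2) ≤ (n + i3) := by clear * - y16 y17 y21; omega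
      have kk534 : (Q + i2 + l2 + 1) ≤ (n + i + j) := by clear * - v20; omega
      have kk535 : (0) ≤ (i) := by clear * - y0; omega
      have r536 : (n + i + j + i3 - i2 - l2 - 1) % 2 = 0 := by clear * - ev n1p n2p n3p; omega
      clear * - al s2 D2 kk532 kk533 kk534 kk535 r536
      obtain ⟨t, ht⟩ : ∃ t, 2 * t = (n + i + j + i3 - i2 - l2 - 1) := ⟨(n + i + j + i3 - i2 - l2 - 1) / 2, by omega⟩
      exact al.ninv t (cI (pb D2 al 0 t (t + (i2 + l2 - i3 + 1)) (by omega)) (ab s2 al 1 (t + (i2 + l2 - i3 + 1)) t (by omega)))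
  · exact t1a_15 al hy a1 a2 s1 s2 b tt c u1 u2 D1 D2 mx hL bd0 bd2 n1 n2 n3 (by clear * - b0; omega) (by clear * - b1; omega) (by clear * - b2; omega) (by clear * - b3; omega) (by clear * - z31; omega)

theorem t1a_3 {W : ℤ → G} {n Q i j k l i2 l2 i3 : ℤ} (al : AL W n Q)
    (hy : (0) ≤ (i) ∧ (i) ≤ (j) ∧ (j + 1) ≤ (Q) ∧ (Q) ≤ (k) ∧ (k + 1) ≤ (n) ∧ (Q) ≤ (i + l + 1) ∧ (k + l + 2) ≤ (n) ∧ (Q) ≤ (i2) ∧ (i2) ≤ (i + l + 1) ∧ (Q) ≤ (i2 + l2 + 1) ∧ (i2 + l2 + 2) ≤ (n) ∧ (n) ≤ (k + l + l2 + 2) ∧ (k + l + l2 + 3) ≤ (n + Q) ∧ (0) ≤ (i3) ∧ (n + i3) ≤ (k + l + l2 + 2) ∧ (k + i2 + l2 + 2) ≤ (n + j + i3) ∧ (j + i3 + 1) ≤ (k) ∧ (k + i2 + l2 + 2) ≤ (n + i3) ∧ (i + 2 * i2 + 1) ≤ (2 * Q + k) ∧ (i + l + 1) ≤ (i2 + l2) ∧ (i2 + l2 + 1) ≤ (k + l) ∧ (i + 1) ≤ (i3))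
    (a1 : Par W (0) (j) (k - j))
    (a2 : Par W (Q + j - k) (j) (k - j))
    (s1 : Ant W (0) (i) (i + j))
    (s2 : Ant W (j + 1) (Q) (i + j))
    (b : Par W (i + 1) (i + l + 1) (k - i))
    (tt : Ant W (Q) (i2) (i + l + i2 + 1))
    (c : Par W (i2 + 1) (i2 + l2 + 1) (k + l - i2 + 1))
    (u1 : Ant W (0) (i3) (k + l + l2 + i3 - n + 2))
    (u2 : Ant W (k + l + l2 - n + 3) (Q) (k + l + l2 + i3 - n + 2))
    (D1 : Par W (i3 + 1) (Q) (i2 + l2 - i3 + 1))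
    (D2 : Par W (i2 + l2 + 2) (n) (i3 - i2 - l2 - 1))
    {L : ℤ} (mx : ∀ a b g, 0 < g → g < n → Par W a b g → b - a ≤ L)
    (hL : L ≤ (n - j - 3) ∧ L ≤ (n + Q - k - 3) ∧ L ≤ (n - l - 3) ∧ L ≤ (n + i - k - 2) ∧ L ≤ (n - l2 - 3) ∧ L ≤ (n + i3 - Q - 2) ∧ L ≤ (i2 + l2 - 1) ∧ L ≤ (n + i2 - k - l - 3) ∧ L ≤ (Q + i2 + l2 - i - l - 3))
    (bd0 : Bd W n L (j) (i) (k))
    (bd2 : Bd W n L (k + l + l2 - n + 2) (i3) (i2 + l2 + 1))
    (n1 : Nd W (j) (i) (k))
    (n2 : Nd W (i + l + 1) (i2) (k + l + 1))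
    (n3 : Nd W (k + l + l2 - n + 2) (i3) (i2 + l2 + 1))
    (b0 : (i + 2 * l + 3) ≤ (Q + i2 + l2))
    (b1 : (i + l + 3) ≤ (Q + i2))
    (b2 : (2 * k + 2 * l + l2 + i3 + 5) ≤ (2 * n + i2)) : False := by
  have ev := al.ev
  obtain ⟨y0, y1, y2, y3, y4, y5, y6, y7, y8, y9, y10, y11, y12, y13, y14, y15, y16, y17, y18, y19, y20, y21⟩ := id hy
  have n1p := And.intro n1.p1 n1.p2
  have n2p := And.intro n2.p1 n2.p2
  have n3p := And.intro n3.p1 n3.p2
  by_cases z4 : (n) ≤ (j + l + l2 + i3 + 2)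
  · exact t1a_4 al hy a1 a2 s1 s2 b tt c u1 u2 D1 D2 mx hL bd0 bd2 n1 n2 n3 (by clear * - b0; omega) (by clear * - b1; omega) (by clear * - b2; omega) (by clear * - z4; omega)
  · exact t1a_14 al hy a1 a2 s1 s2 b tt c u1 u2 D1 D2 mx hL bd0 bd2 n1 n2 n3 (by clear * - b0; omega) (by clear * - b1; omega) (by clear * - b2; omega) (by clear * - z4; omega)

theorem t1a_2 {W : ℤ → G} {n Q i j k l i2 l2 i3 : ℤ} (al : AL W n Q)
    (hy : (0) ≤ (i) ∧ (i) ≤ (j) ∧ (j + 1) ≤ (Q) ∧ (Q) ≤ (k) ∧ (k + 1) ≤ (n) ∧ (Q) ≤ (i + l + 1) ∧ (k + l + 2) ≤ (n) ∧ (Q) ≤ (i2) ∧ (i2) ≤ (i + l + 1) ∧ (Q) ≤ (i2 + l2 + 1) ∧ (i2 + l2 + 2) ≤ (n) ∧ (n) ≤ (k + l + l2 + 2) ∧ (k + l + l2 + 3) ≤ (n + Q) ∧ (0) ≤ (i3) ∧ (n + i3) ≤ (k + l + l2 + 2) ∧ (k + i2 + l2 + 2) ≤ (n + j + i3) ∧ (j + i3 + 1) ≤ (k) ∧ (k + i2 + l2 + 2) ≤ (n + i3) ∧ (i + 2 * i2 + 1) ≤ (2 * Q + k) ∧ (i + l + 1) ≤ (i2 + l2) ∧ (i2 + l2 + 1) ≤ (k + l) ∧ (i + 1) ≤ (i3))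
    (a1 : Par W (0) (j) (k - j))
    (a2 : Par W (Q + j - k) (j) (k - j))
    (s1 : Ant W (0) (i) (i + j))
    (s2 : Ant W (j + 1) (Q) (i + j))
    (b : Par W (i + 1) (i + l + 1) (k - i))
    (tt : Ant W (Q) (i2) (i + l + i2 + 1))
    (c : Par W (i2 + 1) (i2 + l2 + 1) (k + l - i2 + 1))
    (u1 : Ant W (0) (i3) (k + l + l2 + i3 - n + 2))
    (u2 : Ant W (k + l + l2 - n + 3) (Q) (k + l + l2 + i3 - n + 2))
    (D1 : Par W (i3 + 1) (Q) (i2 + l2 - i3 + 1))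
    (D2 : Par W (i2 + l2 + 2) (n) (i3 - i2 - l2 - 1))
    {L : ℤ} (mx : ∀ a b g, 0 < g → g < n → Par W a b g → b - a ≤ L)
    (hL : L ≤ (n - j - 3) ∧ L ≤ (n + Q - k - 3) ∧ L ≤ (n - l - 3) ∧ L ≤ (n + i - k - 2) ∧ L ≤ (n - l2 - 3) ∧ L ≤ (n + i3 - Q - 2) ∧ L ≤ (i2 + l2 - 1) ∧ L ≤ (n + i2 - k - l - 3) ∧ L ≤ (Q + i2 + l2 - i - l - 3))
    (bd0 : Bd W n L (j) (i) (k))
    (bd2 : Bd W n L (k + l + l2 - n + 2) (i3) (i2 + l2 + 1))
    (n1 : Nd W (j) (i) (k))
    (n2 : Nd W (i + l + 1) (i2) (k + l + 1))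
    (n3 : Nd W (k + l + l2 - n + 2) (i3) (i2 + l2 + 1))
    (b0 : (i + 2 * l + 3) ≤ (Q + i2 + l2))
    (b1 : (i + l + 3) ≤ (Q + i2)) : False := by
  have ev := al.ev
  obtain ⟨y0, y1, y2, y3, y4, y5, y6, y7, y8, y9, y10, y11, y12, y13, y14, y15, y16, y17, y18, y19, y20, y21⟩ := id hy
  have n1p := And.intro n1.p1 n1.p2
  have n2p := And.intro n2.p1 n2.p2
  have n3p := And.intro n3.p1 n3.p2
  by_cases z3 : (2 * n + i2) ≤ (2 * k + 2 * l + l2 + i3 + 4)
  · have kk7 : (2 * k + 2 * l + l2 + 5) ≤ (2 * n + i2 + i3) := by clear * - b0 y12 y17 y7 y8; omega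
    have kk8 : (2 * n + i2) ≤ (2 * k + 2 * l + l2 + i3 + 4) := by clear * - z3; omega
    have kk9 : (n + i3) ≤ (k + l + l2 + 2) := by clear * - y14; omega
    have kk10 : (k + l + 2) ≤ (n) := by clear * - y6; omega
    have r11 : (i2 + l2 + i3 - 2 * n + 1) % 2 = 0 := by clear * - ev n1p n2p n3p; omega
    clear * - al c u1 kk7 kk8 kk9 kk10 r11
    obtain ⟨t, ht⟩ : ∃ t, 2 * t = (i2 + l2 + i3 - 2 * n + 1) := ⟨(i2 + l2 + i3 - 2 * n + 1) / 2, by omega⟩
    exact al.ninv t (cE (cE (ab u1 al (-1) t ((k + l + l2 + i3 - 2 * n + 2) - t) (by omega)) (pb c al (-1) ((k + l + l2 + i3 - 2 * n + 2) - t) ((i2 + l2 + i3 - n + 1) - t) (by omega))) (sh al (-1) ((i2 + l2 + i3 - n + 1) - t) t (by omega)))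
  · exact t1a_3 al hy a1 a2 s1 s2 b tt c u1 u2 D1 D2 mx hL bd0 bd2 n1 n2 n3 (by clear * - b0; omega) (by clear * - b1; omega) (by clear * - z3; omega)

theorem t1a_1 {W : ℤ → G} {n Q i j k l i2 l2 i3 : ℤ} (al : AL W n Q)
    (hy : (0) ≤ (i) ∧ (i) ≤ (j) ∧ (j + 1) ≤ (Q) ∧ (Q) ≤ (k) ∧ (k + 1) ≤ (n) ∧ (Q) ≤ (i + l + 1) ∧ (k + l + 2) ≤ (n) ∧ (Q) ≤ (i2) ∧ (i2) ≤ (i + l + 1) ∧ (Q) ≤ (i2 + l2 + 1) ∧ (i2 + l2 + 2) ≤ (n) ∧ (n) ≤ (k + l + l2 + 2) ∧ (k + l + l2 + 3) ≤ (n + Q) ∧ (0) ≤ (i3) ∧ (n + i3) ≤ (k + l + l2 + 2) ∧ (k + i2 + l2 + 2) ≤ (n + j + i3) ∧ (j + i3 + 1) ≤ (k) ∧ (k + i2 + l2 + 2) ≤ (n + i3) ∧ (i + 2 * i2 + 1) ≤ (2 * Q + k) ∧ (i + l + 1) ≤ (i2 + l2) ∧ (i2 + l2 + 1) ≤ (k + l) ∧ (i + 1) ≤ (i3))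
    (a1 : Par W (0) (j) (k - j))
    (a2 : Par W (Q + j - k) (j) (k - j))
    (s1 : Ant W (0) (i) (i + j))
    (s2 : Ant W (j + 1) (Q) (i + j))
    (b : Par W (i + 1) (i + l + 1) (k - i))
    (tt : Ant W (Q) (i2) (i + l + i2 + 1))
    (c : Par W (i2 + 1) (i2 + l2 + 1) (k + l - i2 + 1))
    (u1 : Ant W (0) (i3) (k + l + l2 + i3 - n + 2))
    (u2 : Ant W (k + l + l2 - n + 3) (Q) (k + l + l2 + i3 - n + 2))
    (D1 : Par W (i3 + 1) (Q) (i2 + l2 - i3 + 1))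
    (D2 : Par W (i2 + l2 + 2) (n) (i3 - i2 - l2 - 1))
    {L : ℤ} (mx : ∀ a b g, 0 < g → g < n → Par W a b g → b - a ≤ L)
    (hL : L ≤ (n - j - 3) ∧ L ≤ (n + Q - k - 3) ∧ L ≤ (n - l - 3) ∧ L ≤ (n + i - k - 2) ∧ L ≤ (n - l2 - 3) ∧ L ≤ (n + i3 - Q - 2) ∧ L ≤ (i2 + l2 - 1) ∧ L ≤ (n + i2 - k - l - 3) ∧ L ≤ (Q + i2 + l2 - i - l - 3))
    (bd0 : Bd W n L (j) (i) (k))
    (bd2 : Bd W n L (k + l + l2 - n + 2) (i3) (i2 + l2 + 1))
    (n1 : Nd W (j) (i) (k))
    (n2 : Nd W (i + l + 1) (i2) (k + l + 1))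
    (n3 : Nd W (k + l + l2 - n + 2) (i3) (i2 + l2 + 1))
    (b0 : (i + 2 * l + 3) ≤ (Q + i2 + l2)) : False := by
  have ev := al.ev
  obtain ⟨y0, y1, y2, y3, y4, y5, y6, y7, y8, y9, y10, y11, y12, y13, y14, y15, y16, y17, y18, y19, y20, y21⟩ := id hy
  have n1p := And.intro n1.p1 n1.p2
  have n2p := And.intro n2.p1 n2.p2
  have n3p := And.intro n3.p1 n3.p2
  by_cases z2 : (Q + i2) ≤ (i + l + 2)
  · have kk4 : (k + l + 2) ≤ (n + i2) := by clear * - y12 y9; omega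
    have kk5 : (i2) ≤ (k + l) := by clear * - y13 y14 y15 y16; omega
    have kk6 : (Q + i2) ≤ (i + l + 2) := by clear * - z2; omega
    clear * - al c mx hL kk4 kk5 kk6
    exact absurd (mx (k + l + 2) (k + l + l2 + 2) (n + i2 - k - l - 1) (by omega) (by omega) fun t h1 h2 => (cE (pb c al 0 t (t + (i2 - k - l - 1)) (by omega)) (sh al 1 (t + (i2 - k - l - 1)) (t + (n + i2 - k - l - 1)) (by omega)))) (by omega)
  · exact t1a_2 al hy a1 a2 s1 s2 b tt c u1 u2 D1 D2 mx hL bd0 bd2 n1 n2 n3 (by clear * - b0; omega) (by clear * - z2; omega)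

theorem t1a {W : ℤ → G} {n Q i j k l i2 l2 i3 : ℤ} (al : AL W n Q)
    (hy : (0) ≤ (i) ∧ (i) ≤ (j) ∧ (j + 1) ≤ (Q) ∧ (Q) ≤ (k) ∧ (k + 1) ≤ (n) ∧ (Q) ≤ (i + l + 1) ∧ (k + l + 2) ≤ (n) ∧ (Q) ≤ (i2) ∧ (i2) ≤ (i + l + 1) ∧ (Q) ≤ (i2 + l2 + 1) ∧ (i2 + l2 + 2) ≤ (n) ∧ (n) ≤ (k + l + l2 + 2) ∧ (k + l + l2 + 3) ≤ (n + Q) ∧ (0) ≤ (i3) ∧ (n + i3) ≤ (k + l + l2 + 2) ∧ (k + i2 + l2 + 2) ≤ (n + j + i3) ∧ (j + i3 + 1) ≤ (k) ∧ (k + i2 + l2 + 2) ≤ (n + i3) ∧ (i + 2 * i2 + 1) ≤ (2 * Q + k) ∧ (i + l + 1) ≤ (i2 + l2) ∧ (i2 + l2 + 1) ≤ (k + l) ∧ (i + 1) ≤ (i3))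
    (a1 : Par W (0) (j) (k - j))
    (a2 : Par W (Q + j - k) (j) (k - j))
    (s1 : Ant W (0) (i) (i + j))
    (s2 : Ant W (j + 1) (Q) (i + j))
    (b : Par W (i + 1) (i + l + 1) (k - i))
    (tt : Ant W (Q) (i2) (i + l + i2 + 1))
    (c : Par W (i2 + 1) (i2 + l2 + 1) (k + l - i2 + 1))
    (u1 : Ant W (0) (i3) (k + l + l2 + i3 - n + 2))
    (u2 : Ant W (k + l + l2 - n + 3) (Q) (k + l + l2 + i3 - n + 2))
    (D1 : Par W (i3 + 1) (Q) (i2 + l2 - i3 + 1))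
    (D2 : Par W (i2 + l2 + 2) (n) (i3 - i2 - l2 - 1))
    {L : ℤ} (mx : ∀ a b g, 0 < g → g < n → Par W a b g → b - a ≤ L)
    (hL : L ≤ (n - j - 3) ∧ L ≤ (n + Q - k - 3) ∧ L ≤ (n - l - 3) ∧ L ≤ (n + i - k - 2) ∧ L ≤ (n - l2 - 3) ∧ L ≤ (n + i3 - Q - 2) ∧ L ≤ (i2 + l2 - 1) ∧ L ≤ (n + i2 - k - l - 3) ∧ L ≤ (Q + i2 + l2 - i - l - 3))
    (bd0 : Bd W n L (j) (i) (k))
    (bd2 : Bd W n L (k + l + l2 - n + 2) (i3) (i2 + l2 + 1))
    (n1 : Nd W (j) (i) (k))
    (n2 : Nd W (i + l + 1) (i2) (k + l + 1))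
    (n3 : Nd W (k + l + l2 - n + 2) (i3) (i2 + l2 + 1)) : False := by
  have ev := al.ev
  obtain ⟨y0, y1, y2, y3, y4, y5, y6, y7, y8, y9, y10, y11, y12, y13, y14, y15, y16, y17, y18, y19, y20, y21⟩ := id hy
  have n1p := And.intro n1.p1 n1.p2
  have n2p := And.intro n2.p1 n2.p2
  have n3p := And.intro n3.p1 n3.p2
  by_cases z1 : (Q + i2 + l2) ≤ (i + 2 * l + 2)
  · have kk1 : (k + 1) ≤ (n + i) := by clear * - y12 y8 y9; omega
    have kk2 : (i + 1) ≤ (k) := by clear * - y19 y20; omega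
    have kk3 : (Q + i2 + l2) ≤ (i + 2 * l + 2) := by clear * - z1; omega
    clear * - al b mx hL kk1 kk2 kk3
    exact absurd (mx (n + k + 1) (n + k + l + 1) (n + i - k) (by omega) (by omega) fun t h1 h2 => (cE (pb b al 1 t (t + (i - n - k)) (by omega)) (sh al 2 (t + (i - n - k)) (t + (n + i - k)) (by omega)))) (by omega)
  · exact t1a_1 al hy a1 a2 s1 s2 b tt c u1 u2 D1 D2 mx hL bd0 bd2 n1 n2 n3 (by clear * - z1; omega)

end Pool.Agent.MP_a38735_al.WL
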