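import Pool.Agent.MP_a38735_al.Zw5

set_option autoImplicit false
set_option linter.unusedVariables false

namespace Pool.Agent.MP_a38735_al.WL

variable {G : Type*} [Group G]

theorem t1c_4 {W : ℤ → G} {n Q i j k l i2 l2 i3 : ℤ} (al : AL W n Q)
    (hy : (0) ≤ (i) ∧ (i) ≤ (j) ∧ (j + 1) ≤ (Q) ∧ (Q) ≤ (k) ∧ (k + 1) ≤ (n) ∧ (Q) ≤ (i + l + 1) ∧ (k + l + 2) ≤ (n) ∧ (Q) ≤ (i2) ∧ (i2) ≤ (i + l + 1) ∧ (Q) ≤ (i2 + l2 + 1) ∧ (i2 + l2 + 2) ≤ (n) ∧ (n) ≤ (k + l + l2 + 2) ∧ (k + l + l2 + 3) ≤ (n + Q) ∧ (0) ≤ (i3) ∧ (n + i3) ≤ (k + l + l2 + 2) ∧ (k + i2 + l2 + 2) ≤ (n + j + i3) ∧ (j + i3 + 1) ≤ (k) ∧ (k + i2 + l2 + 2) ≤ (n + i3) ∧ (i + 2 * i2 + 1) ≤ (2 * Q + k) ∧ (i + l + 1) ≤ (i2 + l2) ∧ (i2 + l2 + 1) ≤ (k + l) ∧ (i3 + 1) ≤ (i))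
    (a1 : Par W (0) (j) (k - j))
    (a2 : Par W (Q + j - k) (j) (k - j))
    (s1 : Ant W (0) (i) (i + j))
    (s2 : Ant W (j + 1) (Q) (i + j))
    (b : Par W (i + 1) (i + l + 1) (k - i))
    (tt : Ant W (Q) (i2) (i + l + i2 + 1))
    (c : Par W (i2 + 1) (i2 + l2 + 1) (k + l - i2 + 1))
    (u1 : Ant W (0) (i3) (k + l + l2 + i3 - n + 2))
    (u2 : Ant W (k + l + l2 - n + 3) (Q) (k + l + l2 + i3 - n + 2))
    (D1 : Par W (i3 + 1) (Q) (i2 + l2 - i3 + 1))
    (D2 : Par W (i2 + l2 + 2) (n) (i3 - i2 - l2 - 1))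
    {L : ℤ} (mx : ∀ a b g, 0 < g → g < n → Par W a b g → b - a ≤ L)
    (hL : L ≤ (n - j - 3) ∧ L ≤ (n + Q - k - 3) ∧ L ≤ (n - l - 3) ∧ L ≤ (n + i - k - 2) ∧ L ≤ (n - l2 - 3) ∧ L ≤ (n + i3 - Q - 2) ∧ L ≤ (i2 + l2 - 1) ∧ L ≤ (n + i2 - k - l - 3) ∧ L ≤ (Q + i2 + l2 - l - i3 - 3))
    (bd0 : Bd W n L (j) (i) (k))
    (bd2 : Bd W n L (k + l + l2 - n + 2) (i3) (i2 + l2 + 1))
    (n1 : Nd W (j) (i) (k))
    (n2 : Nd W (i + l + 1) (i2) (k + l + 1))
    (n3 : Nd W (k + l + l2 - n + 2) (i3) (i2 + l2 + 1))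
    (b0 : (2 * l + i3 + 3) ≤ (Q + i2 + l2))
    (b1 : (n + l + i3 + 1) ≤ (Q + 2 * i2 + 2 * l2))
    (b2 : (2 * i + j + 1) ≤ (k))
    (b3 : (i + l + i2 + 2 * l2 + 5) ≤ (n + 2 * Q)) : False := by
  have ev := al.ev
  obtain ⟨y0, y1, y2, y3, y4, y5, y6, y7, y8, y9, y10, y11, y12, y13, y14, y15, y16, y17, y18, y19, y20, y21⟩ := id hy
  have n1p := And.intro n1.p1 n1.p2
  have n2p := And.intro n2.p1 n2.p2
  have n3p := And.intro n3.p1 n3.p2
  by_cases z5 : (2 * k + 2 * l + l2 + i3 + 5) ≤ (n + 2 * Q + i2)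
  · have kk21 : (k + l + i2 + 2 * l2 + 5) ≤ (2 * n + 2 * i3) := by clear * - b0 y13 y17 y20 y7; omega
    have kk22 : (k + l + 2 * i3 + 2) ≤ (2 * Q + i2) := by clear * - y14 z5; omega
    have kk23 : (n + i3) ≤ (k + l + l2 + 2) := by clear * - y14; omega
    have r24 : (k + l + i2 + 2 * l2 - 2 * n + 3) % 2 = 0 := by clear * - ev n1p n2p n3p; omega
    clear * - al u2 D1 kk21 kk22 kk23 r24
    obtain ⟨t, ht⟩ : ∃ t, 2 * t = (k + l + i2 + 2 * l2 - 2 * n + 3) := ⟨(k + l + i2 + 2 * l2 - 2 * n + 3) / 2, by omega⟩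
    exact al.ninv t (cI (pb D1 al (-1) t (t + (n + i3 - i2 - l2 - 1)) (by omega)) (qa u2 al 0 (t + (n + i3 - i2 - l2 - 1)) t (by omega)))
  · by_cases z6 : (i + k + 1) ≤ (i2 + l2 + i3)
    · by_cases z7 : (3 * k + 2 * l + l2 + 4) ≤ (2 * n + i + i2 + i3)
      · by_cases v2 : (n + i) ≤ (k + l + l2 + 2)
        · by_cases v3 : (Q) ≤ (l2 + i3 + 1)
          · have kk25 : (3 * k + 2 * l + l2 + 5) ≤ (2 * n + i + i2 + i3) := by clear * - z7 ev n1p n2p n3p; omega
            have kk26 : (i + i2 + l2 + i3 + 2) ≤ (2 * Q + k) := by clear * - b3 v2 y21; omega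
            have kk27 : (n + i) ≤ (k + l + l2 + 2) := by clear * - v2; omega
            have kk28 : (n + i3) ≤ (k + l + l2 + 2) := by clear * - v2 y21; omega
            have kk29 : (Q) ≤ (i + l + 1) := by clear * - v2 y13 y17 y21 y7; omega
            have kk30 : (Q) ≤ (l2 + i3 + 1) := by clear * - v3; omega
            have r31 : (2 * n + k + i2 + l2 + i3 - i + 1) % 2 = 0 := by clear * - ev n1p n2p n3p; omega
            clear * - al b c u2 kk25 kk26 kk27 kk28 kk29 kk30 r31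
            obtain ⟨t, ht⟩ : ∃ t, 2 * t = (2 * n + k + i2 + l2 + i3 - i + 1) := ⟨(2 * n + k + i2 + l2 + i3 - i + 1) / 2, by omega⟩
            exact al.ninv t (cE (cE (cI (pb b al 1 t (t + (i - n - k)) (by omega)) (qa u2 al 0 (t + (i - n - k)) ((2 * k + l + l2 + i3 - i + 2) - t) (by omega))) (pb c al (-1) ((2 * k + l + l2 + i3 - i + 2) - t) ((n + k + i2 + l2 + i3 - i + 1) - t) (by omega))) (sh al 1 ((n + k + i2 + l2 + i3 - i + 1) - t) t (by omega)))
          · have kk32 : (3 * k + 2 * l + l2 + 5) ≤ (2 * n + i + i2 + i3) := by clear * - z7 ev n1p n2p n3p; omega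
            have kk33 : (i + i2) ≤ (k + l2 + i3) := by clear * - y18 y19 z5 z7; omega
            have kk34 : (n + i) ≤ (k + l + l2 + 2) := by clear * - v2; omega
            have kk35 : (n + i3) ≤ (k + l + l2 + 2) := by clear * - v2 y21; omega
            have kk36 : (l2 + i3) ≤ (i + l) := by clear * - v2 v3 y21 z5 z7; omega
            have kk37 : (l2 + i3 + 1) ≤ (Q) := by clear * - v3; omega
            have r38 : (2 * n + k + i2 + l2 + i3 - i + 1) % 2 = 0 := by clear * - ev n1p n2p n3p; omega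
            clear * - al b c u2 kk32 kk33 kk34 kk35 kk36 kk37 r38
            obtain ⟨t, ht⟩ : ∃ t, 2 * t = (2 * n + k + i2 + l2 + i3 - i + 1) := ⟨(2 * n + k + i2 + l2 + i3 - i + 1) / 2, by omega⟩
            exact al.ninv t (cE (cE (cI (pb b al 1 t (t + (i - n - k)) (by omega)) (qa u2 al 0 (t + (i - n - k)) ((2 * k + l + l2 + i3 - i + 2) - t) (by omega))) (pb c al (-1) ((2 * k + l + l2 + i3 - i + 2) - t) ((n + k + i2 + l2 + i3 - i + 1) - t) (by omega))) (sh al 1 ((n + k + i2 + l2 + i3 - i + 1) - t) t (by omega)))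
        · by_cases v4 : (Q) ≤ (l2 + i3 + 1)
          · have kk39 : (i + k + 1) ≤ (i2 + l2 + i3) := by clear * - z6; omega
            have kk40 : (i + i2 + l2 + i3 + 2) ≤ (2 * Q + k) := by clear * - b3 y14; omega
            have kk41 : (k + l + l2 + 2) ≤ (n + i) := by clear * - v2; omega
            have kk42 : (i3) ≤ (i) := by clear * - y21; omega
            have kk43 : (Q) ≤ (i + l + 1) := by clear * - v2 y13 y14 y17 y7; omega
            have kk44 : (Q) ≤ (l2 + i3 + 1) := by clear * - v4; omega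
            have r45 : (2 * n + k + i2 + l2 + i3 - i + 1) % 2 = 0 := by clear * - ev n1p n2p n3p; omega
            clear * - al b c u2 kk39 kk40 kk41 kk42 kk43 kk44 r45
            obtain ⟨t, ht⟩ : ∃ t, 2 * t = (2 * n + k + i2 + l2 + i3 - i + 1) := ⟨(2 * n + k + i2 + l2 + i3 - i + 1) / 2, by omega⟩
            exact al.ninv t (cE (cE (cI (pb b al 1 t (t + (i - n - k)) (by omega)) (qa u2 al 0 (t + (i - n - k)) ((2 * k + l + l2 + i3 - i + 2) - t) (by omega))) (pb c al (-1) ((2 * k + l + l2 + i3 - i + 2) - t) ((n + k + i2 + l2 + i3 - i + 1) - t) (by omega))) (sh al 1 ((n + k + i2 + l2 + i3 - i + 1) - t) t (by omega)))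
          · have kk46 : (i + k + 1) ≤ (i2 + l2 + i3) := by clear * - z6; omega
            have kk47 : (i + i2) ≤ (k + l2 + i3) := by clear * - y18 y19 z5 z7; omega
            have kk48 : (k + l + l2 + 2) ≤ (n + i) := by clear * - v2; omega
            have kk49 : (i3) ≤ (i) := by clear * - y21; omega
            have kk50 : (l2 + i3) ≤ (i + l) := by clear * - v2 v4 y21 z5 z6; omega
            have kk51 : (l2 + i3 + 1) ≤ (Q) := by clear * - v4; omega
            have r52 : (2 * n + k + i2 + l2 + i3 - i + 1) % 2 = 0 := by clear * - ev n1p n2p n3p; omega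
            clear * - al b c u2 kk46 kk47 kk48 kk49 kk50 kk51 r52
            obtain ⟨t, ht⟩ : ∃ t, 2 * t = (2 * n + k + i2 + l2 + i3 - i + 1) := ⟨(2 * n + k + i2 + l2 + i3 - i + 1) / 2, by omega⟩
            exact al.ninv t (cE (cE (cI (pb b al 1 t (t + (i - n - k)) (by omega)) (qa u2 al 0 (t + (i - n - k)) ((2 * k + l + l2 + i3 - i + 2) - t) (by omega))) (pb c al (-1) ((2 * k + l + l2 + i3 - i + 2) - t) ((n + k + i2 + l2 + i3 - i + 1) - t) (by omega))) (sh al 1 ((n + k + i2 + l2 + i3 - i + 1) - t) t (by omega)))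
      · by_cases z8 : (i + 2 * k + l + 3) ≤ (n + i2 + 2 * i3)
        · by_cases v5 : (i2 + l2 + i3 + 1) ≤ (Q + k)
          · have kk53 : (2 * k + l + 2) ≤ (n + i + i2) := by clear * - y21 z8; omega
            have kk54 : (i + 2 * k + l + 3) ≤ (n + i2 + 2 * i3) := by clear * - z8; omega
            have kk55 : (i + 4 * k + l + 1) ≤ (n + 3 * i2 + 2 * l2 + 2 * i3) := by clear * - y21 z7 z8; omega
            have kk56 : (4 * k + l + 1) ≤ (n + i + 3 * i2 + 2 * l2) := by clear * - y21 z7 z8; omega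
            have kk57 : (i2) ≤ (k) := by clear * - b0 v5 y17 z5; omega
            have kk58 : (i2 + l2) ≤ (k + l) := by clear * - y20; omega
            have kk59 : (i3) ≤ (i) := by clear * - y21; omega
            have kk60 : (i2 + l2 + i3 + 1) ≤ (Q + k) := by clear * - v5; omega
            have r61 : (n + k + l + l2 + i3 + 2) % 2 = 0 := by clear * - ev n1p n2p n3p; omega
            have r62 : (n + i + i2 - 2 * k - l - 1) % 2 = 0 := by clear * - ev n1p n2p n3p; omega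
            clear * - al b c u2 kk53 kk54 kk55 kk56 kk57 kk58 kk59 kk60 r61 r62
            exact midP al (n + i + i2 - 2 * k - l - 1) (n + k + l + l2 + i3 + 2) (2 * k + l - i2 + 2) (2 * k + l - i2 + 2) (n + i + i2 + l2 - k + 1) (by omega) (fun t h1 h2 => (cE (ab u2 al 1 t ((k + l + l2 + i3 + 2) - t) (by omega)) (sh al 1 ((k + l + l2 + i3 + 2) - t) ((n + k + l + l2 + i3 + 2) - t) (by omega)))) (fun t h1 h2 => (cE (cE (pb c al 0 t (t + (i2 - k - l - 1)) (by omega)) (pb b al 0 (t + (i2 - k - l - 1)) (t + (i + i2 - 2 * k - l - 1)) (by omega))) (sh al 1 (t + (i + i2 - 2 * k - l - 1)) (t + (n + i + i2 - 2 * k - l - 1)) (by omega))))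
          · have kk63 : (2 * k + l + 2) ≤ (n + i + i2) := by clear * - y21 z8; omega
            have kk64 : (i + l + i2 + 2 * l2 + 5) ≤ (n + 2 * Q) := by clear * - b3; omega
            have kk65 : (i + 2 * k + l + 3) ≤ (n + 2 * Q + i2) := by clear * - b3 v5 y21 z7; omega
            have kk66 : (2 * k + l + 2 * i3 + 3) ≤ (n + 2 * Q + i + i2) := by clear * - b3 v5 y21 z7; omega
            have kk67 : (i2) ≤ (k) := by clear * - b0 y13 y17 y21 y7 z7; omega
            have kk68 : (i2 + l2) ≤ (k + l) := by clear * - y20; omega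
            have kk69 : (Q + k) ≤ (i2 + l2 + i3 + 1) := by clear * - v5; omega
            have kk70 : (Q + k) ≤ (i + i2 + l2 + 1) := by clear * - v5 y21; omega
            have r71 : (n + k + l + l2 + i3 + 2) % 2 = 0 := by clear * - ev n1p n2p n3p; omega
            have r72 : (n + i + i2 - 2 * k - l - 1) % 2 = 0 := by clear * - ev n1p n2p n3p; omega
            clear * - al b c u2 kk63 kk64 kk65 kk66 kk67 kk68 kk69 kk70 r71 r72
            exact midP al (n + i + i2 - 2 * k - l - 1) (n + k + l + l2 + i3 + 2) (k + l + l2 + i3 - Q + 3) (2 * k + l - i2 + 2) (n + i + i2 + l2 - k + 1) (by omega) (fun t h1 h2 => (cE (ab u2 al 1 t ((k + l + l2 + i3 + 2) - t) (by omega)) (sh al 1 ((k + l + l2 + i3 + 2) - t) ((n + k + l + l2 + i3 + 2) - t) (by omega)))) (fun t h1 h2 => (cE (cE (pb c al 0 t (t + (i2 - k - l - 1)) (by omega)) (pb b al 0 (t + (i2 - k - l - 1)) (t + (i + i2 - 2 * k - l - 1)) (by omega))) (sh al 1 (t + (i + i2 - 2 * k - l -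 1)) (t + (n + i + i2 - 2 * k - l - 1)) (by omega))))
        · by_cases z9 : (j + 2 * k + l + 2) ≤ (n + 2 * i + i2)
          · by_cases v6 : (2 * k + l + 2) ≤ (n + i2)
            · have kk73 : (j + 2 * k + l + 3) ≤ (n + 2 * i + i2) := by clear * - z9 ev n1p n2p n3p; omega
              have kk74 : (n + i2) ≤ (j + 2 * k + l + 2) := by clear * - y1 y13 z8; omega
              have kk75 : (i2 + l2) ≤ (k + l) := by clear * - y20; omega
              have kk76 : (n + i) ≤ (k + l + l2 + 2) := by clear * - z6 z7; omega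
              have kk77 : (2 * k + l + 2) ≤ (n + i2) := by clear * - v6; omega
              have kk78 : (k + l + 2) ≤ (n) := by clear * - b0 b3 v6 y17 z5 z8; omega
              have r79 : (2 * i + j + i2 - n - 2 * k - l - 1) % 2 = 0 := by clear * - ev n1p n2p n3p; omega
              clear * - al s1 b c kk73 kk74 kk75 kk76 kk77 kk78 r79
              obtain ⟨t, ht⟩ : ∃ t, 2 * t = (2 * i + j + i2 - n - 2 * k - l - 1) := ⟨(2 * i + j + i2 - n - 2 * k - l - 1) / 2, by omega⟩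
              exact al.ninv t (cE (cE (cE (ab s1 al (-1) t ((i + j - n) - t) (by omega)) (pb c al (-1) ((i + j - n) - t) ((i + j + i2 - k - l - 1) - t) (by omega))) (pb b al 0 ((i + j + i2 - k - l - 1) - t) ((2 * i + j + i2 - 2 * k - l - 1) - t) (by omega))) (sh al (-1) ((2 * i + j + i2 - 2 * k - l - 1) - t) t (by omega)))
            · have kk80 : (j + 2 * k + l + 3) ≤ (n + 2 * i + i2) := by clear * - z9 ev n1p n2p n3p; omega
              have kk81 : (2 * k + l + 2) ≤ (n + j + i2) := by clear * - y1 z9; omega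
              have kk82 : (i2 + l2) ≤ (k + l) := by clear * - y20; omega
              have kk83 : (n + i) ≤ (k + l + l2 + 2) := by clear * - z6 z7; omega
              have kk84 : (i2) ≤ (k) := by clear * - b0 b3 y17 z5 z8; omega
              have kk85 : (n + i2) ≤ (2 * k + l + 2) := by clear * - v6; omega
              have r86 : (2 * i + j + i2 - n - 2 * k - l - 1) % 2 = 0 := by clear * - ev n1p n2p n3p; omega
              clear * - al s1 b c kk80 kk81 kk82 kk83 kk84 kk85 r86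
              obtain ⟨t, ht⟩ : ∃ t, 2 * t = (2 * i + j + i2 - n - 2 * k - l - 1) := ⟨(2 * i + j + i2 - n - 2 * k - l - 1) / 2, by omega⟩
              exact al.ninv t (cE (cE (cE (ab s1 al (-1) t ((i + j - n) - t) (by omega)) (pb c al (-1) ((i + j - n) - t) ((i + j + i2 - k - l - 1) - t) (by omega))) (pb b al 0 ((i + j + i2 - k - l - 1) - t) ((2 * i + j + i2 - 2 * k - l - 1) - t) (by omega))) (sh al (-1) ((2 * i + j + i2 - 2 * k - l - 1) - t) t (by omega)))
          · by_cases z10 : (k) ≤ (i + 2 * j)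
            · by_cases z11 : (2 * j + 1) ≤ (i + k)
              · have kk87 : (k) ≤ (i + 2 * j) := by clear * - z10; omega
                have kk88 : (2 * j + 1) ≤ (i + k) := by clear * - z11; omega
                have kk89 : (i) ≤ (j) := by clear * - b2 z10; omega
                have r90 : (i + k - 2 * n) % 2 = 0 := by clear * - ev n1p n2p n3p; omega
                clear * - al a1 s1 kk87 kk88 kk89 r90
                obtain ⟨t, ht⟩ : ∃ t, 2 * t = (i + k - 2 * n) := ⟨(i + k - 2 * n) / 2, by omega⟩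
                exact al.ninv t (cE (cI (pb a1 al (-1) t (t + (n + j - k)) (by omega)) (qa s1 al 0 (t + (n + j - k)) ((i + k - n) - t) (by omega))) (sh al (-1) ((i + k - n) - t) t (by omega)))
              · have kk91 : (2 * k + l + i2 + 2 * l2 + 5) ≤ (2 * n + j + 2 * i3) := by clear * - b0 b3 y13 y17 y7 z10 z11 z8; linarith
                have kk92 : (l + 2 * i3 + 2) ≤ (j + i2) := by clear * - b0 y17 y2 y7 z11 z8; omega
                have kk93 : (n + j + i3) ≤ (2 * k + l + l2 + 2) := by clear * - b2 y13 y21 z6 z8; omega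
                have kk94 : (n) ≤ (k + l + l2 + 3) := by clear * - y13 z6 z8; omega
                have kk95 : (k + i2 + l2 + 1) ≤ (n + i3) := by clear * - y17; omega
                have kk96 : (j) ≤ (Q) := by clear * - y2; omega
                have r97 : (2 * k + l + i2 + 2 * l2 - 2 * n - j + 3) % 2 = 0 := by clear * - ev n1p n2p n3p; omega
                clear * - al a1 u2 D2 kk91 kk92 kk93 kk94 kk95 kk96 r97
                obtain ⟨t, ht⟩ : ∃ t, 2 * t = (2 * k + l + i2 + 2 * l2 - 2 * n - j + 3) := ⟨(2 * k + l + i2 + 2 * l2 - 2 * n - j + 3) / 2, by omega⟩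
                exact al.ninv t (cI (cE (qf D2 al (-1) t (t + (n + i3 - i2 - l2 - 1)) (by omega)) (pb a1 al 0 (t + (n + i3 - i2 - l2 - 1)) (t + (n + j + i3 - k - i2 - l2 - 1)) (by omega))) (qa u2 al 0 (t + (n + j + i3 - k - i2 - l2 - 1)) t (by omega)))
            · by_cases z12 : (k + l + i3 + 1) ≤ (2 * i2 + l2)
              · by_cases z13 : (j + l + i3 + 1) ≤ (i + i2 + l2)
                · have kk98 : (0) ≤ (i) := by clear * - y13 y21; omega
                  have kk99 : (i + 1) ≤ (j) := by clear * - y15 z12 z9; omega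
                  have kk100 : (k + l + i3 + 1) ≤ (2 * i2 + l2) := by clear * - z12; omega
                  have kk101 : (i + 2 * i2 + l2) ≤ (j + k + l + i3) := by clear * - y13 y17 z12 z8 z9; omega
                  have kk102 : (j + l + i3 + 1) ≤ (i + i2 + l2) := by clear * - z13; omega
                  have kk103 : (k + i2 + l2 + 1) ≤ (n + i3) := by clear * - y17; omega
                  have kk104 : (i2 + l2) ≤ (k + l) := by clear * - y20; omega
                  have kk105 : (n) ≤ (k + l + l2 + 2) := by clear * - y13 z6 z8; omega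
                  have kk106 : (0) ≤ (i + 1) := by clear * - y13 y21; omega
                  have kk107 : (j) ≤ (i + l + 1) := by clear * - y13 y17 y2 y7 z12 z7 z8; linarith
                  have r108 : (j - i) % 2 = 0 := by clear * - ev n1p n2p n3p; omega
                  have r109 : (2 * i2 + l2 - k - l - i3) % 2 = 0 := by clear * - ev n1p n2p n3p; omega
                  clear * - al a1 b c D2 n1 kk98 kk99 kk100 kk101 kk102 kk103 kk104 kk105 kk106 kk107 r108 r109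
                  exact n1.f1 (rEE (cE (qf a1 al 0 (i) (i + k - j) (by omega)) (sh al (-1) (i + k - j) (i + k - n - j) (by omega))) (sh al (-1) (k) (k - n) (by omega)) (rotL (j - i) (2 * i2 + l2 - k - l - i3) (i + k - n - j) (k - n) (by omega) (fun t h1 h2 => (cE (cE (pb a1 al (-1) t (t + (n + j - k)) (by omega)) (qf b al 0 (t + (n + j - k)) (t + (n + j - i)) (by omega))) (sh al (-1) (t + (n + j - i)) (t + (j - i)) (by omega)))) (fun t h1 h2 => (cE (qf (show Par W (k + l + i3 - i2 - l2 + 1) (n + i3 - i2 - l2 - 1) (2 * i2 + l2 - k - l - i3) from fun t h1 h2 => (cE (sh al (-1) t (t + (-n)) (by omega)) (cE (pb D2 al (-1) (t + (-n)) (t + (i2 + l2 - i3 + 1)) (by omega)) (pb c al 0 (t + (i2 + l2 - i3 + 1)) (t + (2 * i2 + l2 - k - l - i3)) (by omega))))) al (-1) t (t + (n + 2 * i2 + l2 - k - l - i3)) (by omega)) (sh al (-1) (t + (n + 2 * i2 + l2 - k - l - i3)) (t + (2 * i2 + l2 - k - l - i3)) (by omega))))))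
                · have kk110 : (2 * k + l + i2 + 2 * l2 + 5) ≤ (2 * n + j + 2 * i3) := by clear * - b0 y13 y17 y7 z12 z13 z8; linarith
                  have kk111 : (l + 2 * i3 + 2) ≤ (j + i2) := by clear * - b0 y17 y7 z12 z13 z8; omega
                  have kk112 : (n + j + i3) ≤ (2 * k + l + l2 + 2) := by clear * - b1 b3 y20 y21 z10 z13 z5 z6; linarith
                  have kk113 : (n) ≤ (k + l + l2 + 3) := by clear * - y13 z6 z8; omega
                  have kk114 : (k + i2 + l2 + 1) ≤ (n + i3) := by clear * - y17; omega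
                  have kk115 : (j) ≤ (Q) := by clear * - b1 y13 y17 z10 z12 z13 z8; linarith
                  have r116 : (2 * k + l + i2 + 2 * l2 - 2 * n - j + 3) % 2 = 0 := by clear * - ev n1p n2p n3p; omega
                  clear * - al a1 u2 D2 kk110 kk111 kk112 kk113 kk114 kk115 r116
                  obtain ⟨t, ht⟩ : ∃ t, 2 * t = (2 * k + l + i2 + 2 * l2 - 2 * n - j + 3) := ⟨(2 * k + l + i2 + 2 * l2 - 2 * n - j + 3) / 2, by omega⟩
                  exact al.ninv t (cI (cE (qf D2 al (-1) t (t + (n + i3 - i2 - l2 - 1)) (by omega)) (pb a1 al 0 (t + (n + i3 - i2 - l2 - 1)) (t + (n + j + i3 - k - i2 - l2 - 1)) (by omega))) (qa u2 al 0 (t + (n + j + i3 - k - i2 - l2 - 1)) t (by omega)))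
              · by_cases z14 : (k + l + i3) ≤ (2 * i2 + l2)
                · have kk117 : (i3 + 1) ≤ (i2) := by clear * - y20 z14; omega
                  have kk118 : (2 * i2 + l2 + 2) ≤ (n + i3) := by clear * - b0 b3 y17 z5 z8; omega
                  have kk119 : (k + l + i3) ≤ (2 * i2 + l2) := by clear * - z14; omega
                  have kk120 : (2 * i2 + l2) ≤ (k + l + i3) := by clear * - z12; omega
                  clear * - al D2 n2 kk117 kk118 kk119 kk120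
                  exact n2.f1 (pb D2 al 0 (i2) (k + l + 1) (by omega))
                · have kk121 : (2 * i2 + l2 + 1) ≤ (k + l + i3) := by clear * - z14; omega
                  have kk122 : (k + l + i3 + 1) ≤ (n + 2 * i2 + l2) := by clear * - b3 y21 y9 z6; omega
                  have kk123 : (k + l + 2) ≤ (n) := by clear * - y17 y19 y21; omega
                  have kk124 : (i3) ≤ (i2) := by clear * - b3 y21 y7 z6 z8; omega
                  have kk125 : (n + i3) ≤ (2 * i2 + 2 * l2 + 2) := by clear * - b1 y21 y7 z6 z8; omega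
                  clear * - al c D2 kk121 kk122 kk123 kk124 kk125
                  exact al.ubP (k + l + i3 - 2 * i2 - l2) (by omega) (by omega) fun t h1 h2 => (cE (sh al 2 t (t + (2 * n)) (by omega)) (cE (cE (qf D2 al 1 (t + (2 * n)) (t + (n + i3 - i2 - l2 - 1)) (by omega)) (qf c al 0 (t + (n + i3 - i2 - l2 - 1)) (t + (n + k + l + i3 - 2 * i2 - l2)) (by omega))) (sh al (-1) (t + (n + k + l + i3 - 2 * i2 - l2)) (t + (k + l + i3 - 2 * i2 - l2)) (by omega))))
    · by_cases z15 : (i + k) ≤ (i2 + l2 + i3 + 1)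
      · by_cases v7 : (Q + i2 + l2) ≤ (k + l + i3)
        · by_cases v8 : (Q) ≤ (l2 + i3 + 1)
          · have kk126 : (k + i3) ≤ (i + i2 + l2) := by clear * - y21 z15; omega
            have kk127 : (k + l + l2 + 3) ≤ (n + i) := by clear * - b1 y17 y7 z6; omega
            have kk128 : (i + 1) ≤ (Q) := by clear * - b3 y14 z15; omega
            have kk129 : (i + k) ≤ (i2 + l2 + i3 + 1) := by clear * - z15; omega
            have kk130 : (i2 + l2 + i3 + 1) ≤ (i + k) := by clear * - z6 ev n1p n2p n3p; omega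
            have kk131 : (i3 + 1) ≤ (j) := by clear * - y1 y21; omega
            have kk132 : (i3 + 1) ≤ (i) := by clear * - y21; omega
            have kk133 : (j + k + i3) ≤ (Q + i + i2 + l2) := by clear * - y2 y21 z15; omega
            have kk134 : (k + i3) ≤ (Q + i2 + l2) := by clear * - b3 y14 y21 z15; omega
            have kk135 : (k) ≤ (i2 + l2 + 1) := by clear * - y21 z15; omega
            have kk136 : (Q + i2 + l2) ≤ (k + l + i3) := by clear * - v7; omega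
            have kk137 : (i3) ≤ (j) := by clear * - y1 y21; omega
            have kk138 : (k + i3) ≤ (Q + i2 + l2 + 1) := by clear * - b3 y14 y21 z15; omega
            have kk139 : (0) ≤ (i3 + 1) := by clear * - b1 v7 y17; omega
            have kk140 : (j + k) ≤ (Q + i2 + l2 + 1) := by clear * - y2 y21 z15; omega
            have kk141 : (n + i3) ≤ (k + l + l2 + 2) := by clear * - y14; omega
            have kk142 : (Q) ≤ (l2 + i3 + 1) := by clear * - v8; omega
            have r143 : (2 * n + i + j) % 2 = 0 := by clear * - ev n1p n2p n3p; omega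
            have r144 : (i + i2 + l2 - k - i3 + 1) % 2 = 0 := by clear * - ev n1p n2p n3p; omega
            clear * - al s1 b c u2 D1 n1 kk126 kk127 kk128 kk129 kk130 kk131 kk132 kk133 kk134 kk135 kk136 kk137 kk138 kk139 kk140 kk141 kk142 r143 r144
            exact (n1.f4 (cE (qa u2 al 0 (i) (k + l + l2 + i3 - n - i + 2) (by omega)) (pb c al (-1) (k + l + l2 + i3 - n - i + 2) (k) (by omega)))) (rEE (sh al 1 (i) (n + i) (by omega)) (sh al 1 (j) (n + j) (by omega)) (Eq.symm (midL al (i + i2 + l2 - k - i3 + 1) (2 * n + i + j) (n + j) (n + i) (n + i3 + 1) (n + Q + i + i2 + l2 - k - i3 + 1) (by omega) (fun t h1 h2 => (cE (ab s1 al 1 t ((n + i + j) - t) (by omega)) (sh al 1 ((n + i + j) - t) ((2 * n + i + j) - t) (by omega)))) (fun t h1 h2 => (cE (cE (qf D1 al 1 t (t + (i2 + l2 - n - i3 + 1)) (by omega)) (pb b al 0 (t + (i2 + l2 - n - i3 + 1)) (t + (i + i2 + l2 - n - k - i3 + 1)) (by omega))) (sh al 1 (t + (i + i2 + l2 - n - k - i3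 + 1)) (t + (i + i2 + l2 - k - i3 + 1)) (by omega)))))))
          · have kk145 : (k + i3) ≤ (i + i2 + l2) := by clear * - y21 z15; omega
            have kk146 : (k + l + l2 + 3) ≤ (n + i) := by clear * - b1 y17 y7 z6; omega
            have kk147 : (i) ≤ (l2 + i3) := by clear * - b0 v8 y17 z15 z5; omega
            have kk148 : (i + k) ≤ (i2 + l2 + i3 + 1) := by clear * - z15; omega
            have kk149 : (i2 + l2 + i3 + 1) ≤ (i + k) := by clear * - z6 ev n1p n2p n3p; omega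
            have kk150 : (i3 + 1) ≤ (j) := by clear * - y1 y21; omega
            have kk151 : (i3 + 1) ≤ (i) := by clear * - y21; omega
            have kk152 : (j + k + i3) ≤ (Q + i + i2 + l2) := by clear * - y2 y21 z15; omega
            have kk153 : (k + i3) ≤ (Q + i2 + l2) := by clear * - v7 v8 y18 y19 y21 z15; omega
            have kk154 : (k) ≤ (i2 + l2 + 1) := by clear * - y21 z15; omega
            have kk155 : (Q + i2 + l2) ≤ (k + l + i3) := by clear * - v7; omega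
            have kk156 : (i3) ≤ (j) := by clear * - y1 y21; omega
            have kk157 : (k + i3) ≤ (Q + i2 + l2 + 1) := by clear * - v7 v8 y18 y19 y21 z15; omega
            have kk158 : (0) ≤ (i3 + 1) := by clear * - b1 v7 y17; omega
            have kk159 : (j + k) ≤ (Q + i2 + l2 + 1) := by clear * - y2 y21 z15; omega
            have kk160 : (n + i3) ≤ (k + l + l2 + 2) := by clear * - y14; omega
            have kk161 : (l2 + i3 + 1) ≤ (Q) := by clear * - v8; omega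
            have r162 : (2 * n + i + j) % 2 = 0 := by clear * - ev n1p n2p n3p; omega
            have r163 : (i + i2 + l2 - k - i3 + 1) % 2 = 0 := by clear * - ev n1p n2p n3p; omega
            clear * - al s1 b c u2 D1 n1 kk145 kk146 kk147 kk148 kk149 kk150 kk151 kk152 kk153 kk154 kk155 kk156 kk157 kk158 kk159 kk160 kk161 r162 r163
            exact (n1.f4 (cE (qa u2 al 0 (i) (k + l + l2 + i3 - n - i + 2) (by omega)) (pb c al (-1) (k + l + l2 + i3 - n - i + 2) (k) (by omega)))) (rEE (sh al 1 (i) (n + i) (by omega)) (sh al 1 (j) (n + j) (by omega)) (Eq.symm (midL al (i + i2 + l2 - k - i3 + 1) (2 * n + i + j) (n + j) (n + i) (n + i3 + 1) (n + Q + i + i2 + l2 - k - i3 + 1) (by omega) (fun t h1 h2 => (cE (ab s1 al 1 t ((n + i + j) - t) (by omega)) (sh al 1 ((n + i + j) - t) ((2 * n + i + j) - t) (by omega)))) (fun t h1 h2 => (cE (cE (qf D1 al 1 t (t + (i2 + l2 - n - i3 + 1)) (by omega)) (pb b al 0 (t + (i2 + l2 - n - i3 + 1)) (t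 + (i + i2 + l2 - n - k - i3 + 1)) (by omega))) (sh al 1 (t + (i + i2 + l2 - n - k - i3 + 1)) (t + (i + i2 + l2 - k - i3 + 1)) (by omega)))))))
        · by_cases v9 : (Q) ≤ (l2 + i3 + 1)
          · have kk164 : (k + i3) ≤ (i + i2 + l2) := by clear * - y21 z15; omega
            have kk165 : (k + l + l2 + 3) ≤ (n + i) := by clear * - b1 y17 y7 z6; omega
            have kk166 : (i + 1) ≤ (Q) := by clear * - b3 y14 z15; omega
            have kk167 : (i + k) ≤ (i2 + l2 + i3 + 1) := by clear * - z15; omega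
            have kk168 : (i2 + l2 + i3 + 1) ≤ (i + k) := by clear * - z6 ev n1p n2p n3p; omega
            have kk169 : (i3 + 1) ≤ (j) := by clear * - y1 y21; omega
            have kk170 : (i3 + 1) ≤ (i) := by clear * - y21; omega
            have kk171 : (j) ≤ (i + l) := by clear * - v7 y13 y14 y17 y2 y7 z6; linarith
            have kk172 : (0) ≤ (l) := by clear * - y20 y21 z15; omega
            have kk173 : (k) ≤ (i2 + l2 + 1) := by clear * - y21 z15; omega
            have kk174 : (k + l + i3) ≤ (Q + i2 + l2) := by clear * - v7; omega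
            have kk175 : (i3) ≤ (j) := by clear * - y1 y21; omega
            have kk176 : (0) ≤ (l + 1) := by clear * - y20 y21 z15; omega
            have kk177 : (j) ≤ (l) := by clear * - y14 y17 y2 y7; omega
            have kk178 : (0) ≤ (i3 + 1) := by clear * - y13; omega
            have kk179 : (n + i3) ≤ (k + l + l2 + 2) := by clear * - y14; omega
            have kk180 : (Q) ≤ (l2 + i3 + 1) := by clear * - v9; omega
            have r181 : (2 * n + i + j) % 2 = 0 := by clear * - ev n1p n2p n3p; omega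
            have r182 : (i + i2 + l2 - k - i3 + 1) % 2 = 0 := by clear * - ev n1p n2p n3p; omega
            clear * - al s1 b c u2 D1 n1 kk164 kk165 kk166 kk167 kk168 kk169 kk170 kk171 kk172 kk173 kk174 kk175 kk176 kk177 kk178 kk179 kk180 r181 r182
            exact (n1.f4 (cE (qa u2 al 0 (i) (k + l + l2 + i3 - n - i + 2) (by omega)) (pb c al (-1) (k + l + l2 + i3 - n - i + 2) (k) (by omega)))) (rEE (sh al 1 (i) (n + i) (by omega)) (sh al 1 (j) (n + j) (by omega)) (Eq.symm (midL al (i + i2 + l2 - k - i3 + 1) (2 * n + i + j) (n + j) (n + i) (n + i3 + 1) (n + i + l + 1) (by omega) (fun t h1 h2 => (cE (ab s1 al 1 t ((n + i + j) - t) (by omega)) (sh al 1 ((n + i + j) - t) ((2 * n + i + j) - t) (by omega)))) (fun t h1 h2 => (cE (cE (qf D1 al 1 t (t + (i2 + l2 - n - i3 + 1)) (by omega)) (pb b al 0 (t + (i2 + l2 - n - i3 + 1)) (t + (i + i2 + l2 - n - k - i3 + 1)) (by omega))) (sh al 1 (t + (i + i2 + l2 - n - k - i3 + 1)) (t + (i + i2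 + l2 - k - i3 + 1)) (by omega)))))))
          · have kk183 : (k + i3) ≤ (i + i2 + l2) := by clear * - y21 z15; omega
            have kk184 : (k + l + l2 + 3) ≤ (n + i) := by clear * - b1 y17 y7 z6; omega
            have kk185 : (i) ≤ (l2 + i3) := by clear * - b0 v9 y17 z15 z5; omega
            have kk186 : (i + k) ≤ (i2 + l2 + i3 + 1) := by clear * - z15; omega
            have kk187 : (i2 + l2 + i3 + 1) ≤ (i + k) := by clear * - z6 ev n1p n2p n3p; omega
            have kk188 : (i3 + 1) ≤ (j) := by clear * - y1 y21; omega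
            have kk189 : (i3 + 1) ≤ (i) := by clear * - y21; omega
            have kk190 : (j) ≤ (i + l) := by clear * - b1 v7 v9 y17 y2 y7 z5 z6; linarith
            have kk191 : (0) ≤ (l) := by clear * - y20 y21 z15; omega
            have kk192 : (k) ≤ (i2 + l2 + 1) := by clear * - y21 z15; omega
            have kk193 : (k + l + i3) ≤ (Q + i2 + l2) := by clear * - v7; omega
            have kk194 : (i3) ≤ (j) := by clear * - y1 y21; omega
            have kk195 : (0) ≤ (l + 1) := by clear * - y20 y21 z15; omega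
            have kk196 : (j) ≤ (l) := by clear * - v7 v9 y17 y2 y7 z5; omega
            have kk197 : (0) ≤ (i3 + 1) := by clear * - y13; omega
            have kk198 : (n + i3) ≤ (k + l + l2 + 2) := by clear * - v7 v9 z5; omega
            have kk199 : (l2 + i3 + 1) ≤ (Q) := by clear * - v9; omega
            have r200 : (2 * n + i + j) % 2 = 0 := by clear * - ev n1p n2p n3p; omega
            have r201 : (i + i2 + l2 - k - i3 + 1) % 2 = 0 := by clear * - ev n1p n2p n3p; omega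
            clear * - al s1 b c u2 D1 n1 kk183 kk184 kk185 kk186 kk187 kk188 kk189 kk190 kk191 kk192 kk193 kk194 kk195 kk196 kk197 kk198 kk199 r200 r201
            exact (n1.f4 (cE (qa u2 al 0 (i) (k + l + l2 + i3 - n - i + 2) (by omega)) (pb c al (-1) (k + l + l2 + i3 - n - i + 2) (k) (by omega)))) (rEE (sh al 1 (i) (n + i) (by omega)) (sh al 1 (j) (n + j) (by omega)) (Eq.symm (midL al (i + i2 + l2 - k - i3 + 1) (2 * n + i + j) (n + j) (n + i) (n + i3 + 1) (n + i + l + 1) (by omega) (fun t h1 h2 => (cE (ab s1 al 1 t ((n + i + j) - t) (by omega)) (sh al 1 ((n + i + j) - t) ((2 * n + i + j) - t) (by omega)))) (fun t h1 h2 => (cE (cE (qf D1 al 1 t (t + (i2 + l2 - n - i3 + 1)) (by omega)) (pb b al 0 (t + (i2 + l2 - n - i3 + 1)) (t + (i + i2 + l2 - n - k - i3 + 1)) (by omega))) (sh al 1 (t + (i + i2 + l2 - n - k - i3 + 1)) (t + (i + i2 + l2 - k - i3 + 1)) (by omega)))))))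
      · by_cases v10 : (l2 + i3 + 1) ≤ (j)
        · have kk202 : (3 * k + 2 * l + l2 + 5) ≤ (2 * n + j + i2 + i3) := by clear * - b1 b2 b3 v10 y17 y21 y7 z15 z5; linarith
          have kk203 : (j + i2) ≤ (k + l2 + i3) := by clear * - b1 b2 y13 y17 y21 z15 z5; linarith
          have kk204 : (0) ≤ (i3 + 1) := by clear * - y13; omega
          have kk205 : (n + i3) ≤ (k + l + l2 + 2) := by clear * - y14; omega
          have kk206 : (l2 + i3 + 1) ≤ (j) := by clear * - v10; omega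
          have kk207 : (l2 + i3 + 1) ≤ (Q) := by clear * - v10 y2; omega
          have r208 : (k + i2 + l2 + i3 - j + 1) % 2 = 0 := by clear * - ev n1p n2p n3p; omega
          clear * - al a1 c u2 kk202 kk203 kk204 kk205 kk206 kk207 r208
          obtain ⟨t, ht⟩ : ∃ t, 2 * t = (k + i2 + l2 + i3 - j + 1) := ⟨(k + i2 + l2 + i3 - j + 1) / 2, by omega⟩
          exact al.ninv t (cE (cI (pb a1 al 0 t (t + (j - k)) (by omega)) (qa u2 al 0 (t + (j - k)) ((2 * k + l + l2 + i3 - n - j + 2) - t) (by omega))) (pb c al (-1) ((2 * k + l + l2 + i3 - n - j + 2) - t) t (by omega)))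
        · have kk209 : (3 * k + 2 * l + l2 + 5) ≤ (2 * n + j + i2 + i3) := by clear * - b1 y1 y17 y7 z15; omega
          have kk210 : (i2 + l2 + i3 + 2) ≤ (j + k) := by clear * - y1 z15; omega
          have kk211 : (0) ≤ (i3 + 1) := by clear * - y13; omega
          have kk212 : (n + i3) ≤ (k + l + l2 + 2) := by clear * - y14; omega
          have kk213 : (j) ≤ (l2 + i3 + 1) := by clear * - v10; omega
          have kk214 : (j) ≤ (Q) := by clear * - y2; omega
          have r215 : (k + i2 + l2 + i3 - j + 1) % 2 = 0 := by clear * - ev n1p n2p n3p; omega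
          clear * - al a1 c u2 kk209 kk210 kk211 kk212 kk213 kk214 r215
          obtain ⟨t, ht⟩ : ∃ t, 2 * t = (k + i2 + l2 + i3 - j + 1) := ⟨(k + i2 + l2 + i3 - j + 1) / 2, by omega⟩
          exact al.ninv t (cE (cI (pb a1 al 0 t (t + (j - k)) (by omega)) (qa u2 al 0 (t + (j - k)) ((2 * k + l + l2 + i3 - n - j + 2) - t) (by omega))) (pb c al (-1) ((2 * k + l + l2 + i3 - n - j + 2) - t) t (by omega)))

theorem t1c_3 {W : ℤ → G} {n Q i j k l i2 l2 i3 : ℤ} (al : AL W n Q)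
    (hy : (0) ≤ (i) ∧ (i) ≤ (j) ∧ (j + 1) ≤ (Q) ∧ (Q) ≤ (k) ∧ (k + 1) ≤ (n) ∧ (Q) ≤ (i + l + 1) ∧ (k + l + 2) ≤ (n) ∧ (Q) ≤ (i2) ∧ (i2) ≤ (i + l + 1) ∧ (Q) ≤ (i2 + l2 + 1) ∧ (i2 + l2 + 2) ≤ (n) ∧ (n) ≤ (k + l + l2 + 2) ∧ (k + l + l2 + 3) ≤ (n + Q) ∧ (0) ≤ (i3) ∧ (n + i3) ≤ (k + l + l2 + 2) ∧ (k + i2 + l2 + 2) ≤ (n + j + i3) ∧ (j + i3 + 1) ≤ (k) ∧ (k + i2 + l2 + 2) ≤ (n + i3) ∧ (i + 2 * i2 + 1) ≤ (2 * Q + k) ∧ (i + l + 1) ≤ (i2 + l2) ∧ (i2 + l2 + 1) ≤ (k + l) ∧ (i3 + 1) ≤ (i))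
    (a1 : Par W (0) (j) (k - j))
    (a2 : Par W (Q + j - k) (j) (k - j))
    (s1 : Ant W (0) (i) (i + j))
    (s2 : Ant W (j + 1) (Q) (i + j))
    (b : Par W (i + 1) (i + l + 1) (k - i))
    (tt : Ant W (Q) (i2) (i + l + i2 + 1))
    (c : Par W (i2 + 1) (i2 + l2 + 1) (k + l - i2 + 1))
    (u1 : Ant W (0) (i3) (k + l + l2 + i3 - n + 2))
    (u2 : Ant W (k + l + l2 - n + 3) (Q) (k + l + l2 + i3 - n + 2))
    (D1 : Par W (i3 + 1) (Q) (i2 + l2 - i3 + 1))
    (D2 : Par W (i2 + l2 + 2) (n) (i3 - i2 - l2 - 1))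
    {L : ℤ} (mx : ∀ a b g, 0 < g → g < n → Par W a b g → b - a ≤ L)
    (hL : L ≤ (n - j - 3) ∧ L ≤ (n + Q - k - 3) ∧ L ≤ (n - l - 3) ∧ L ≤ (n + i - k - 2) ∧ L ≤ (n - l2 - 3) ∧ L ≤ (n + i3 - Q - 2) ∧ L ≤ (i2 + l2 - 1) ∧ L ≤ (n + i2 - k - l - 3) ∧ L ≤ (Q + i2 + l2 - l - i3 - 3))
    (bd0 : Bd W n L (j) (i) (k))
    (bd2 : Bd W n L (k + l + l2 - n + 2) (i3) (i2 + l2 + 1))
    (n1 : Nd W (j) (i) (k))
    (n2 : Nd W (i + l + 1) (i2) (k + l + 1))
    (n3 : Nd W (k + l + l2 - n + 2) (i3) (i2 + l2 + 1))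
    (b0 : (2 * l + i3 + 3) ≤ (Q + i2 + l2))
    (b1 : (n + l + i3 + 1) ≤ (Q + 2 * i2 + 2 * l2))
    (b2 : (2 * i + j + 1) ≤ (k)) : False := by
  have ev := al.ev
  obtain ⟨y0, y1, y2, y3, y4, y5, y6, y7, y8, y9, y10, y11, y12, y13, y14, y15, y16, y17, y18, y19, y20, y21⟩ := id hy
  have n1p := And.intro n1.p1 n1.p2
  have n2p := And.intro n2.p1 n2.p2
  have n3p := And.intro n3.p1 n3.p2
  by_cases z4 : (i + l + i2 + 2 * l2 + 5) ≤ (n + 2 * Q)
  · exact t1c_4 al hy a1 a2 s1 s2 b tt c u1 u2 D1 D2 mx hL bd0 bd2 n1 n2 n3 (by clear * - b0; omega) (by clear * - b1; omega) (by clear * - b2; omega) (by clear * - z4; omega)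
  · exact t1c_5 al hy a1 a2 s1 s2 b tt c u1 u2 D1 D2 mx hL bd0 bd2 n1 n2 n3 (by clear * - b0; omega) (by clear * - b1; omega) (by clear * - b2; omega) (by clear * - z4; omega)

theorem t1c_2 {W : ℤ → G} {n Q i j k l i2 l2 i3 : ℤ} (al : AL W n Q)
    (hy : (0) ≤ (i) ∧ (i) ≤ (j) ∧ (j + 1) ≤ (Q) ∧ (Q) ≤ (k) ∧ (k + 1) ≤ (n) ∧ (Q) ≤ (i + l + 1) ∧ (k + l + 2) ≤ (n) ∧ (Q) ≤ (i2) ∧ (i2) ≤ (i + l + 1) ∧ (Q) ≤ (i2 + l2 + 1) ∧ (i2 + l2 + 2) ≤ (n) ∧ (n) ≤ (k + l + l2 + 2) ∧ (k + l + l2 + 3) ≤ (n + Q) ∧ (0) ≤ (i3) ∧ (n + i3) ≤ (k + l + l2 + 2) ∧ (k + i2 + l2 + 2) ≤ (n + j + i3) ∧ (j + i3 + 1) ≤ (k) ∧ (k + i2 + l2 + 2) ≤ (n + i3) ∧ (i + 2 * i2 + 1) ≤ (2 * Q + k) ∧ (i + l + 1) ≤ (i2 + l2) ∧ (i2 + l2 + 1) ≤ (k + l) ∧ (i3 + 1) ≤ (i))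
    (a1 : Par W (0) (j) (k - j))
    (a2 : Par W (Q + j - k) (j) (k - j))
    (s1 : Ant W (0) (i) (i + j))
    (s2 : Ant W (j + 1) (Q) (i + j))
    (b : Par W (i + 1) (i + l + 1) (k - i))
    (tt : Ant W (Q) (i2) (i + l + i2 + 1))
    (c : Par W (i2 + 1) (i2 + l2 + 1) (k + l - i2 + 1))
    (u1 : Ant W (0) (i3) (k + l + l2 + i3 - n + 2))
    (u2 : Ant W (k + l + l2 - n + 3) (Q) (k + l + l2 + i3 - n + 2))
    (D1 : Par W (i3 + 1) (Q) (i2 + l2 - i3 + 1))
    (D2 : Par W (i2 + l2 + 2) (n) (i3 - i2 - l2 - 1))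
    {L : ℤ} (mx : ∀ a b g, 0 < g → g < n → Par W a b g → b - a ≤ L)
    (hL : L ≤ (n - j - 3) ∧ L ≤ (n + Q - k - 3) ∧ L ≤ (n - l - 3) ∧ L ≤ (n + i - k - 2) ∧ L ≤ (n - l2 - 3) ∧ L ≤ (n + i3 - Q - 2) ∧ L ≤ (i2 + l2 - 1) ∧ L ≤ (n + i2 - k - l - 3) ∧ L ≤ (Q + i2 + l2 - l - i3 - 3))
    (bd0 : Bd W n L (j) (i) (k))
    (bd2 : Bd W n L (k + l + l2 - n + 2) (i3) (i2 + l2 + 1))
    (n1 : Nd W (j) (i) (k))
    (n2 : Nd W (i + l + 1) (i2) (k + l + 1))
    (n3 : Nd W (k + l + l2 - n + 2) (i3) (i2 + l2 + 1))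
    (b0 : (2 * l + i3 + 3) ≤ (Q + i2 + l2))
    (b1 : (n + l + i3 + 1) ≤ (Q + 2 * i2 + 2 * l2)) : False := by
  have ev := al.ev
  obtain ⟨y0, y1, y2, y3, y4, y5, y6, y7, y8, y9, y10, y11, y12, y13, y14, y15, y16, y17, y18, y19, y20, y21⟩ := id hy
  have n1p := And.intro n1.p1 n1.p2
  have n2p := And.intro n2.p1 n2.p2
  have n3p := And.intro n3.p1 n3.p2
  by_cases z3 : (k) ≤ (2 * i + j)
  · by_cases v1 : (i + j + 1) ≤ (k)
    · have kk7 : (j + 1) ≤ (k) := by clear * - v1 z3; omega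
      have kk8 : (k) ≤ (2 * i + j) := by clear * - z3; omega
      have kk9 : (k) ≤ (2 * i + 3 * j + 2) := by clear * - v1 y1 z3; omega
      have kk10 : (0) ≤ (j + k) := by clear * - y19 y20 z3; omega
      have kk11 : (i + j + 1) ≤ (k) := by clear * - v1; omega
      have r12 : (i + j) % 2 = 0 := by clear * - ev n1p n2p n3p; omega
      have r13 : (k - j) % 2 = 0 := by clear * - ev n1p n2p n3p; omega
      clear * - al a1 s1 kk7 kk8 kk9 kk10 kk11 r12 r13
      exact midP al (k - j) (i + j) (0) (0) (k) (by omega) (fun t h1 h2 => (qa s1 al 0 t ((i + j) - t) (by omega))) (fun t h1 h2 => (qf a1 al 0 t (t + (k - j)) (by omega)))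
    · have kk14 : (j + 1) ≤ (k) := by clear * - y13 y16; omega
      have kk15 : (j + 2) ≤ (k) := by clear * - y13 y16 ev n1p n2p n3p; omega
      have kk16 : (0) ≤ (j + k) := by clear * - y19 y20 z3; omega
      have kk17 : (2 * i + j + 2) ≤ (3 * k) := by clear * - y13 y16 y19 y20; omega
      have kk18 : (k) ≤ (i + j + 1) := by clear * - v1; omega
      have r19 : (i + j) % 2 = 0 := by clear * - ev n1p n2p n3p; omega
      have r20 : (k - j) % 2 = 0 := by clear * - ev n1p n2p n3p; omega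
      clear * - al a1 s1 kk14 kk15 kk16 kk17 kk18 r19 r20
      exact midP al (k - j) (i + j) (i + j - k + 1) (0) (k) (by omega) (fun t h1 h2 => (qa s1 al 0 t ((i + j) - t) (by omega))) (fun t h1 h2 => (qf a1 al 0 t (t + (k - j)) (by omega)))
  · exact t1c_3 al hy a1 a2 s1 s2 b tt c u1 u2 D1 D2 mx hL bd0 bd2 n1 n2 n3 (by clear * - b0; omega) (by clear * - b1; omega) (by clear * - z3; omega)

theorem t1c_1 {W : ℤ → G} {n Q i j k l i2 l2 i3 : ℤ} (al : AL W n Q)
    (hy : (0) ≤ (i) ∧ (i) ≤ (j) ∧ (j + 1) ≤ (Q) ∧ (Q) ≤ (k) ∧ (k + 1) ≤ (n) ∧ (Q) ≤ (i + l + 1) ∧ (k + l + 2) ≤ (n) ∧ (Q) ≤ (i2) ∧ (i2) ≤ (i + l + 1) ∧ (Q) ≤ (i2 + l2 + 1) ∧ (i2 + l2 + 2) ≤ (n) ∧ (n) ≤ (k + l + l2 + 2) ∧ (k + l + l2 + 3) ≤ (n + Q) ∧ (0) ≤ (i3) ∧ (n + i3) ≤ (k + l + l2 + 2) ∧ (k + i2 + l2 + 2) ≤ (n + j + i3) ∧ (j + i3 + 1) ≤ (k) ∧ (k + i2 + l2 + 2) ≤ (n + i3) ∧ (i + 2 * i2 + 1) ≤ (2 * Q + k) ∧ (i + l + 1) ≤ (i2 + l2) ∧ (i2 + l2 + 1) ≤ (k + l) ∧ (i3 + 1) ≤ (i))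
    (a1 : Par W (0) (j) (k - j))
    (a2 : Par W (Q + j - k) (j) (k - j))
    (s1 : Ant W (0) (i) (i + j))
    (s2 : Ant W (j + 1) (Q) (i + j))
    (b : Par W (i + 1) (i + l + 1) (k - i))
    (tt : Ant W (Q) (i2) (i + l + i2 + 1))
    (c : Par W (i2 + 1) (i2 + l2 + 1) (k + l - i2 + 1))
    (u1 : Ant W (0) (i3) (k + l + l2 + i3 - n + 2))
    (u2 : Ant W (k + l + l2 - n + 3) (Q) (k + l + l2 + i3 - n + 2))
    (D1 : Par W (i3 + 1) (Q) (i2 + l2 - i3 + 1))
    (D2 : Par W (i2 + l2 + 2) (n) (i3 - i2 - l2 - 1))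
    {L : ℤ} (mx : ∀ a b g, 0 < g → g < n → Par W a b g → b - a ≤ L)
    (hL : L ≤ (n - j - 3) ∧ L ≤ (n + Q - k - 3) ∧ L ≤ (n - l - 3) ∧ L ≤ (n + i - k - 2) ∧ L ≤ (n - l2 - 3) ∧ L ≤ (n + i3 - Q - 2) ∧ L ≤ (i2 + l2 - 1) ∧ L ≤ (n + i2 - k - l - 3) ∧ L ≤ (Q + i2 + l2 - l - i3 - 3))
    (bd0 : Bd W n L (j) (i) (k))
    (bd2 : Bd W n L (k + l + l2 - n + 2) (i3) (i2 + l2 + 1))
    (n1 : Nd W (j) (i) (k))
    (n2 : Nd W (i + l + 1) (i2) (k + l + 1))
    (n3 : Nd W (k + l + l2 - n + 2) (i3) (i2 + l2 + 1))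
    (b0 : (2 * l + i3 + 3) ≤ (Q + i2 + l2)) : False := by
  have ev := al.ev
  obtain ⟨y0, y1, y2, y3, y4, y5, y6, y7, y8, y9, y10, y11, y12, y13, y14, y15, y16, y17, y18, y19, y20, y21⟩ := id hy
  have n1p := And.intro n1.p1 n1.p2
  have n2p := And.intro n2.p1 n2.p2
  have n3p := And.intro n3.p1 n3.p2
  by_cases z2 : (Q + 2 * i2 + 2 * l2) ≤ (n + l + i3)
  · have kk4 : (i2 + l2 + 2) ≤ (n + i3) := by clear * - y13 y17 y19 y20 y21; omega
    have kk5 : (i3) ≤ (i2 + l2) := by clear * - y12 y14 y9; omega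
    have kk6 : (Q + 2 * i2 + 2 * l2) ≤ (n + l + i3) := by clear * - z2; omega
    clear * - al D2 mx hL kk4 kk5 kk6
    exact absurd (mx (n + i2 + l2 + 2) (2 * n) (n + i3 - i2 - l2 - 1) (by omega) (by omega) fun t h1 h2 => (cE (qf D2 al 1 t (t + (i3 - n - i2 - l2 - 1)) (by omega)) (sh al 2 (t + (i3 - n - i2 - l2 - 1)) (t + (n + i3 - i2 - l2 - 1)) (by omega)))) (by omega)
  · exact t1c_2 al hy a1 a2 s1 s2 b tt c u1 u2 D1 D2 mx hL bd0 bd2 n1 n2 n3 (by clear * - b0; omega) (by clear * - z2; omega)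

theorem t1c {W : ℤ → G} {n Q i j k l i2 l2 i3 : ℤ} (al : AL W n Q)
    (hy : (0) ≤ (i) ∧ (i) ≤ (j) ∧ (j + 1) ≤ (Q) ∧ (Q) ≤ (k) ∧ (k + 1) ≤ (n) ∧ (Q) ≤ (i + l + 1) ∧ (k + l + 2) ≤ (n) ∧ (Q) ≤ (i2) ∧ (i2) ≤ (i + l + 1) ∧ (Q) ≤ (i2 + l2 + 1) ∧ (i2 + l2 + 2) ≤ (n) ∧ (n) ≤ (k + l + l2 + 2) ∧ (k + l + l2 + 3) ≤ (n + Q) ∧ (0) ≤ (i3) ∧ (n + i3) ≤ (k + l + l2 + 2) ∧ (k + i2 + l2 + 2) ≤ (n + j + i3) ∧ (j + i3 + 1) ≤ (k) ∧ (k + i2 + l2 + 2) ≤ (n + i3) ∧ (i + 2 * i2 + 1) ≤ (2 * Q + k) ∧ (i + l + 1) ≤ (i2 + l2) ∧ (i2 + l2 + 1) ≤ (k + l) ∧ (i3 + 1) ≤ (i))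
    (a1 : Par W (0) (j) (k - j))
    (a2 : Par W (Q + j - k) (j) (k - j))
    (s1 : Ant W (0) (i) (i + j))
    (s2 : Ant W (j + 1) (Q) (i + j))
    (b : Par W (i + 1) (i + l + 1) (k - i))
    (tt : Ant W (Q) (i2) (i + l + i2 + 1))
    (c : Par W (i2 + 1) (i2 + l2 + 1) (k + l - i2 + 1))
    (u1 : Ant W (0) (i3) (k + l + l2 + i3 - n + 2))
    (u2 : Ant W (k + l + l2 - n + 3) (Q) (k + l + l2 + i3 - n + 2))
    (D1 : Par W (i3 + 1) (Q) (i2 + l2 - i3 + 1))
    (D2 : Par W (i2 + l2 + 2) (n) (i3 - i2 - l2 - 1))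
    {L : ℤ} (mx : ∀ a b g, 0 < g → g < n → Par W a b g → b - a ≤ L)
    (hL : L ≤ (n - j - 3) ∧ L ≤ (n + Q - k - 3) ∧ L ≤ (n - l - 3) ∧ L ≤ (n + i - k - 2) ∧ L ≤ (n - l2 - 3) ∧ L ≤ (n + i3 - Q - 2) ∧ L ≤ (i2 + l2 - 1) ∧ L ≤ (n + i2 - k - l - 3) ∧ L ≤ (Q + i2 + l2 - l - i3 - 3))
    (bd0 : Bd W n L (j) (i) (k))
    (bd2 : Bd W n L (k + l + l2 - n + 2) (i3) (i2 + l2 + 1))
    (n1 : Nd W (j) (i) (k))
    (n2 : Nd W (i + l + 1) (i2) (k + l + 1))
    (n3 : Nd W (k + l + l2 - n + 2) (i3) (i2 + l2 + 1)) : False := by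
  have ev := al.ev
  obtain ⟨y0, y1, y2, y3, y4, y5, y6, y7, y8, y9, y10, y11, y12, y13, y14, y15, y16, y17, y18, y19, y20, y21⟩ := id hy
  have n1p := And.intro n1.p1 n1.p2
  have n2p := And.intro n2.p1 n2.p2
  have n3p := And.intro n3.p1 n3.p2
  by_cases z1 : (Q + i2 + l2) ≤ (2 * l + i3 + 2)
  · have kk1 : (k + 1) ≤ (n + i) := by clear * - y12 y13 y14 y17 y19 y21 z1; linarith
    have kk2 : (i + 1) ≤ (k) := by clear * - y19 y20; omega
    have kk3 : (Q + i2 + l2) ≤ (2 * l + i3 + 2) := by clear * - z1; omega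
    clear * - al b mx hL kk1 kk2 kk3
    exact absurd (mx (n + k + 1) (n + k + l + 1) (n + i - k) (by omega) (by omega) fun t h1 h2 => (cE (pb b al 1 t (t + (i - n - k)) (by omega)) (sh al 2 (t + (i - n - k)) (t + (n + i - k)) (by omega)))) (by omega)
  · exact t1c_1 al hy a1 a2 s1 s2 b tt c u1 u2 D1 D2 mx hL bd0 bd2 n1 n2 n3 (by clear * - z1; omega)

end Pool.Agent.MP_a38735_al.WL
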