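import Pool.Agent.MP_a38735_al.Zw9

set_option autoImplicit false
set_option linter.unusedVariables false

namespace Pool.Agent.MP_a38735_al.WL

variable {G : Type*} [Group G]

theorem t2c_8 {W : ℤ → G} {n Q i j k l i2 l2 i3 : ℤ} (al : AL W n Q)
    (hy : (0) ≤ (i) ∧ (i) ≤ (j) ∧ (j + 1) ≤ (Q) ∧ (Q) ≤ (k) ∧ (k + 1) ≤ (n) ∧ (Q) ≤ (i + l + 1) ∧ (k + l + 2) ≤ (n) ∧ (Q) ≤ (i2) ∧ (i2) ≤ (i + l + 1) ∧ (Q) ≤ (i2 + l2 + 1) ∧ (i2 + l2 + 2) ≤ (n) ∧ (n) ≤ (k + l + l2 + 2) ∧ (k + l + l2 + 3) ≤ (n + Q) ∧ (0) ≤ (i3) ∧ (n + i3) ≤ (k + l + l2 + 2) ∧ (k + i2 + l2 + 2) ≤ (n + j + i3) ∧ (j + i3 + 1) ≤ (k) ∧ (k + i2 + l2 + 2) ≤ (n + i3) ∧ (i + 2 * i2 + 1) ≤ (2 * Q + k) ∧ (i + l + 1) ≤ (i2 + l2) ∧ (k + l + 1) ≤ (i2 + l2) ∧ (2 * k + 2 * l + 3) ≤ (n + i2) ∧ (i + 1) ≤ (i3))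
    (a1 : Par W (0) (j) (k - j))
    (a2 : Par W (Q + j - k) (j) (k - j))
    (s1 : Ant W (0) (i) (i + j))
    (s2 : Ant W (j + 1) (Q) (i + j))
    (b : Par W (i + 1) (i + l + 1) (k - i))
    (tt : Ant W (Q) (i2) (i + l + i2 + 1))
    (c : Par W (i2 + 1) (i2 + l2 + 1) (k + l - i2 + 1))
    (u1 : Ant W (0) (i3) (k + l + l2 + i3 - n + 2))
    (u2 : Ant W (k + l + l2 - n + 3) (Q) (k + l + l2 + i3 - n + 2))
    (D1 : Par W (i3 + 1) (Q) (i2 + l2 - i3 + 1))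
    (D2 : Par W (i2 + l2 + 2) (n) (i3 - i2 - l2 - 1))
    {L : ℤ} (mx : ∀ a b g, 0 < g → g < n → Par W a b g → b - a ≤ L)
    (hL : L ≤ (n - j - 3) ∧ L ≤ (n + Q - k - 3) ∧ L ≤ (n - l - 3) ∧ L ≤ (n + i - k - 2) ∧ L ≤ (n - l2 - 3) ∧ L ≤ (n + i3 - Q - 2) ∧ L ≤ (i2 + l2 - 1) ∧ L ≤ (n + i2 - k - l - 3) ∧ L ≤ (Q + i2 + l2 - i - l - 3))
    (bd0 : Bd W n L (j) (i) (k))
    (bd2 : Bd W n L (k + l + l2 - n + 2) (i3) (i2 + l2 + 1))
    (n1 : Nd W (j) (i) (k))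
    (n2 : Nd W (i + l + 1) (i2) (k + l + 1))
    (n3 : Nd W (k + l + l2 - n + 2) (i3) (i2 + l2 + 1))
    (b0 : (2 * l2 + 3) ≤ (n))
    (b1 : (2 * Q + i2) ≤ (k + l + 2 * i3 + 1))
    (b2 : (2 * Q + i2 + l2) ≤ (n + i + j + i3))
    (b3 : (2 * i + l + i2 + 2) ≤ (2 * Q + k))
    (b4 : (i + k + 2 * l + 3) ≤ (2 * i2 + l2))
    (b5 : (n) ≤ (j + l + l2 + i3 + 2)) : False := by
  have ev := al.ev
  obtain ⟨y0, y1, y2, y3, y4, y5, y6, y7, y8, y9, y10, y11, y12, y13, y14, y15, y16, y17, y18, y19, y20, y21, y22⟩ := id hy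
  have n1p := And.intro n1.p1 n1.p2
  have n2p := And.intro n2.p1 n2.p2
  have n3p := And.intro n3.p1 n3.p2
  by_cases z14 : (j + l + l2 + 3) ≤ (n + i3)
  · by_cases v5 : (n) ≤ (j + l + l2 + 3)
    · by_cases v6 : (n) ≤ (l + l2 + i3 + 3)
      · have kk99 : (j + l + l2 + 4) ≤ (n + i3) := by clear * - b0 b2 b3 v5 v6 y0 y16 y21; linarith
        have kk100 : (l + l2 + i3 + 3) ≤ (n + j) := by clear * - b0 b2 b3 v5 v6 y0 y16 y21; linarith
        have kk101 : (n) ≤ (j + l + l2 + 3) := by clear * - v5; omega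
        have kk102 : (n) ≤ (l + l2 + i3 + 3) := by clear * - v6; omega
        have r103 : (j + l + l2 + i3 - 3 * n + 2) % 2 = 0 := by clear * - ev n1p n2p n3p; omega
        clear * - al a1 u1 kk99 kk100 kk101 kk102 r103
        obtain ⟨t, ht⟩ : ∃ t, 2 * t = (j + l + l2 + i3 - 3 * n + 2) := ⟨(j + l + l2 + i3 - 3 * n + 2) / 2, by omega⟩
        exact al.ninv t (cE (cI (qf a1 al (-1) t (t + (n + k - j)) (by omega)) (ab u1 al 0 (t + (n + k - j)) ((j + l + l2 + i3 - 2 * n + 2) - t) (by omega))) (sh al (-1) ((j + l + l2 + i3 - 2 * n + 2) - t) t (by omega)))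
      · have kk104 : (j + l + l2 + 4) ≤ (n + i3) := by clear * - z14 ev n1p n2p n3p; omega
        have kk105 : (n) ≤ (j + l + l2 + i3 + 3) := by clear * - v5 z14; omega
        have kk106 : (n) ≤ (j + l + l2 + 3) := by clear * - v5; omega
        have kk107 : (l + l2 + i3 + 3) ≤ (n) := by clear * - v6; omega
        have r108 : (j + l + l2 + i3 - 3 * n + 2) % 2 = 0 := by clear * - ev n1p n2p n3p; omega
        clear * - al a1 u1 kk104 kk105 kk106 kk107 r108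
        obtain ⟨t, ht⟩ : ∃ t, 2 * t = (j + l + l2 + i3 - 3 * n + 2) := ⟨(j + l + l2 + i3 - 3 * n + 2) / 2, by omega⟩
        exact al.ninv t (cE (cI (qf a1 al (-1) t (t + (n + k - j)) (by omega)) (ab u1 al 0 (t + (n + k - j)) ((j + l + l2 + i3 - 2 * n + 2) - t) (by omega))) (sh al (-1) ((j + l + l2 + i3 - 2 * n + 2) - t) t (by omega)))
    · by_cases v7 : (n) ≤ (l + l2 + i3 + 3)
      · have kk109 : (n) ≤ (j + l + l2 + i3 + 2) := by clear * - b5; omega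
        have kk110 : (l + l2 + i3 + 3) ≤ (n + j) := by clear * - b0 b2 b3 v7 y0 y14 y21; linarith
        have kk111 : (j + l + l2 + 3) ≤ (n) := by clear * - v5; omega
        have kk112 : (n) ≤ (l + l2 + i3 + 3) := by clear * - v7; omega
        have r113 : (j + l + l2 + i3 - 3 * n + 2) % 2 = 0 := by clear * - ev n1p n2p n3p; omega
        clear * - al a1 u1 kk109 kk110 kk111 kk112 r113
        obtain ⟨t, ht⟩ : ∃ t, 2 * t = (j + l + l2 + i3 - 3 * n + 2) := ⟨(j + l + l2 + i3 - 3 * n + 2) / 2, by omega⟩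
        exact al.ninv t (cE (cI (qf a1 al (-1) t (t + (n + k - j)) (by omega)) (ab u1 al 0 (t + (n + k - j)) ((j + l + l2 + i3 - 2 * n + 2) - t) (by omega))) (sh al (-1) ((j + l + l2 + i3 - 2 * n + 2) - t) t (by omega)))
      · have kk114 : (n) ≤ (j + l + l2 + i3 + 2) := by clear * - b5; omega
        have kk115 : (n) ≤ (j + l + l2 + i3 + 3) := by clear * - b5; omega
        have kk116 : (j + l + l2 + 3) ≤ (n) := by clear * - v5; omega
        have kk117 : (l + l2 + i3 + 3) ≤ (n) := by clear * - v7; omega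
        have r118 : (j + l + l2 + i3 - 3 * n + 2) % 2 = 0 := by clear * - ev n1p n2p n3p; omega
        clear * - al a1 u1 kk114 kk115 kk116 kk117 r118
        obtain ⟨t, ht⟩ : ∃ t, 2 * t = (j + l + l2 + i3 - 3 * n + 2) := ⟨(j + l + l2 + i3 - 3 * n + 2) / 2, by omega⟩
        exact al.ninv t (cE (cI (qf a1 al (-1) t (t + (n + k - j)) (by omega)) (ab u1 al 0 (t + (n + k - j)) ((j + l + l2 + i3 - 2 * n + 2) - t) (by omega))) (sh al (-1) ((j + l + l2 + i3 - 2 * n + 2) - t) t (by omega)))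
  · by_cases z15 : (3 * k + 2 * l + 2 * l2 + 2 * i3 + 6) ≤ (2 * n + 2 * Q + j)
    · by_cases z16 : (n + i + 2 * j) ≤ (2 * k + l + l2 + i3 + 2)
      · by_cases z17 : (2 * Q + i + l2) ≤ (2 * k + l + i3)
        · by_cases z18 : (2 * k + l + l2 + i3 + 2) ≤ (n + i + 2 * j)
          · have kk119 : (0) ≤ (i) := by clear * - y0; omega
            have kk120 : (i + 1) ≤ (i3) := by clear * - y22; omega
            have kk121 : (n + i + 2 * j) ≤ (2 * k + l + l2 + i3 + 2) := by clear * - z16; omega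
            have kk122 : (2 * k + l + l2 + i3 + 2) ≤ (n + i + 2 * j) := by clear * - z18; omega
            have kk123 : (k + l + l2 + i3 + 3) ≤ (n + j) := by clear * - b1 b3 b4 b5 y16 z14 z15 z17 z18; linarith
            have kk124 : (n) ≤ (k + l + l2 + 3) := by clear * - b5 y16; omega
            clear * - al a1 u1 n1 kk119 kk120 kk121 kk122 kk123 kk124
            exact n1.f2 (cE (qa u1 al 0 (i) (k + l + l2 + i3 - n - i + 2) (by omega)) (qf a1 al 0 (k + l + l2 + i3 - n - i + 2) (j) (by omega)))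
          · by_cases z19 : (k) ≤ (j + 2 * i3)
            · have kk125 : (j + 1) ≤ (k) := by clear * - y16 z19; omega
              have kk126 : (k) ≤ (j + 2 * i3) := by clear * - z19; omega
              have kk127 : (2 * n) ≤ (j + k + 2 * l + 2 * l2 + 2 * i3 + 6) := by clear * - y16 z14 z19; omega
              have kk128 : (0) ≤ (j + k) := by clear * - y16 y3 z14 z15 z19; omega
              have kk129 : (l + l2 + i3 + 3) ≤ (n) := by clear * - y16 y3 z15 z19; omega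
              have r130 : (k + l + l2 + i3 - n + 2) % 2 = 0 := by clear * - ev n1p n2p n3p; omega
              have r131 : (k - j) % 2 = 0 := by clear * - ev n1p n2p n3p; omega
              clear * - al a1 u1 kk125 kk126 kk127 kk128 kk129 r130 r131
              exact midP al (k - j) (k + l + l2 + i3 - n + 2) (0) (0) (k) (by omega) (fun t h1 h2 => (qa u1 al 0 t ((k + l + l2 + i3 - n + 2) - t) (by omega))) (fun t h1 h2 => (qf a1 al 0 t (t + (k - j)) (by omega)))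
            · by_cases z20 : (2 * Q + l2 + i3) ≤ (3 * i + 3 * l + 2)
              · have kk132 : (2 * k + l + i3 + 1) ≤ (i + 2 * i2 + l2) := by clear * - b0 y0 y21 z14 z18; omega
                have kk133 : (2 * Q + i + l2) ≤ (2 * k + l + i3) := by clear * - z17; omega
                have kk134 : (2 * Q + l2 + i3) ≤ (3 * i + 3 * l + 2) := by clear * - z20; omega
                have kk135 : (2 * k + l + i3) ≤ (i + 2 * i2 + l2) := by clear * - b0 y0 y21 z14 z18; omega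
                have kk136 : (i + 1) ≤ (Q) := by clear * - b2 b3 b4 b5 z15 z17 z18 z19 z20; linarith
                have kk137 : (i2) ≤ (i + l + 1) := by clear * - y8; omega
                have kk138 : (i) ≤ (i3) := by clear * - y22; omega
                have kk139 : (k + l) ≤ (i2 + l2) := by clear * - y20; omega
                have kk140 : (Q) ≤ (i + l + 1) := by clear * - b2 b3 b5 y21 z18 z19 z20; linarith
                have kk141 : (Q + i2) ≤ (k + l + i3 + 1) := by clear * - b2 b5 z15 z18 z19; omega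
                have kk142 : (i3 + 1) ≤ (Q) := by clear * - y13 z14 z15 z19; omega
                have kk143 : (i + k + 2 * l + i3 + 2) ≤ (2 * Q + i2 + l2) := by clear * - b1 b3 b4 y0 z14 z15 z18; linarith
                have r144 : (k + l + i2 - 2 * n + 1) % 2 = 0 := by clear * - ev n1p n2p n3p; omega
                have r145 : (i + 2 * i2 + l2 - 2 * k - l - i3) % 2 = 0 := by clear * - ev n1p n2p n3p; omega
                clear * - al b tt c D1 kk132 kk133 kk134 kk135 kk136 kk137 kk138 kk139 kk140 kk141 kk142 kk143 r144 r145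
                exact midP al (i + 2 * i2 + l2 - 2 * k - l - i3) (k + l + i2 - 2 * n + 1) (Q + k - n - i) (k + i3 - n - i + 1) (Q + 2 * i2 + l2 - n - k - l - i3) (by omega) (fun t h1 h2 => (cE (cI (pb b al (-1) t (t + (n + i - k)) (by omega)) (qa tt al 0 (t + (n + i - k)) ((k + l + i2 - n + 1) - t) (by omega))) (sh al (-1) ((k + l + i2 - n + 1) - t) ((k + l + i2 - 2 * n + 1) - t) (by omega)))) (fun t h1 h2 => (cE (cE (cE (pb b al (-1) t (t + (n + i - k)) (by omega)) (qf D1 al 0 (t + (n + i - k)) (t + (n + i + i2 + l2 - k - i3 + 1)) (by omega))) (pb c al 0 (t + (n + i + i2 + l2 - k - i3 + 1)) (t + (n + i + 2 * i2 + l2 - 2 * k - l - i3)) (by omega))) (sh al (-1) (t + (n + i + 2 * i2 + l2 - 2 * k - l - i3)) (t + (i + 2 * i2 + l2 - 2 * k - l - i3)) (by omega))))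
              · have kk146 : (j + 1) ≤ (k) := by clear * - y13 z19; omega
                have kk147 : (3 * k + 2 * l + 2 * l2 + 2 * i3 + 6) ≤ (2 * n + 2 * Q + j) := by clear * - z15; omega
                have kk148 : (j) ≤ (k) := by clear * - y13 z19; omega
                have kk149 : (k + 2 * l + 4 * i3 + 4) ≤ (2 * Q + j + 2 * i2) := by clear * - b0 y0 y21 z14 z18 z19 z20; linarith
                have kk150 : (Q + i2) ≤ (k + l + i3 + 1) := by clear * - b2 b5 z15 z18 z19; omega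
                have kk151 : (0) ≤ (i3) := by clear * - y13; omega
                have kk152 : (Q) ≤ (k) := by clear * - y3; omega
                have kk153 : (2 * Q + j + i2) ≤ (2 * k + l + 2 * i3 + 2) := by clear * - b2 z18; omega
                have r154 : (2 * n + k + l + 2 * i3 - i2 + 1) % 2 = 0 := by clear * - ev n1p n2p n3p; omega
                have r155 : (k - j) % 2 = 0 := by clear * - ev n1p n2p n3p; omega
                clear * - al a2 u2 D2 kk146 kk147 kk148 kk149 kk150 kk151 kk152 kk153 r154 r155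
                exact midP al (k - j) (2 * n + k + l + 2 * i3 - i2 + 1) (n + k + l + 2 * i3 - Q - i2 + 2) (n + Q + j - k) (n + k) (by omega) (fun t h1 h2 => (cE (cI (pb D2 al 1 t (t + (i2 + l2 - n - i3 + 1)) (by omega)) (ab u2 al 1 (t + (i2 + l2 - n - i3 + 1)) ((n + k + l + 2 * i3 - i2 + 1) - t) (by omega))) (sh al 1 ((n + k + l + 2 * i3 - i2 + 1) - t) ((2 * n + k + l + 2 * i3 - i2 + 1) - t) (by omega)))) (fun t h1 h2 => (cE (qf a2 al 1 t (t + (k - n - j)) (by omega)) (sh al 1 (t + (k - n - j)) (t + (k - j)) (by omega))))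
        · by_cases z21 : (Q + i2 + l2) ≤ (i + k + 2 * l + 2)
          · have kk156 : (k + l + 1) ≤ (i2 + l2) := by clear * - b2 b3 b4 b5 z14 z15 z16 z17 z21; linarith
            have kk157 : (i2) ≤ (k + l) := by clear * - b2 b3 b4 b5 z14 z15 z16 z17 z21; linarith
            have kk158 : (i + 1) ≤ (k) := by clear * - b2 b3 b4 b5 z14 z15 z16 z17 z21; linarith
            have kk159 : (0) ≤ (l) := by clear * - b2 b3 b4 b5 z14 z15 z16 z17 z21; linarith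
            have kk160 : (i + k + l + 1) ≤ (2 * i2 + l2) := by clear * - b2 b3 b4 b5 z14 z15 z16 z17 z21; linarith
            have kk161 : (2 * i2 + l2) ≤ (2 * k + 2 * l) := by clear * - b2 b3 b4 b5 z14 z15 z16 z17 z21; linarith
            have kk162 : (i + 1) ≤ (i3) := by clear * - y22; omega
            have kk163 : (i3) ≤ (k + l) := by clear * - b2 b3 b4 b5 z14 z15 z16 z17 z21; linarith
            have kk164 : (Q + i2 + l2) ≤ (i + k + 2 * l + 2) := by clear * - z21; omega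
            have kk165 : (k + l) ≤ (i2 + l2) := by clear * - b2 b3 b4 b5 z14 z15 z16 z17 z21; linarith
            have kk166 : (n) ≤ (k + l + l2 + 2) := by clear * - b5 y16; omega
            have kk167 : (i + k + l) ≤ (2 * i2 + l2) := by clear * - b2 b3 b4 b5 z14 z15 z16 z17 z21; linarith
            have kk168 : (i) ≤ (i3) := by clear * - y22; omega
            have kk169 : (2 * k + 2 * l + 2) ≤ (n + i2) := by clear * - y21; omega
            have kk170 : (k + l + i3) ≤ (2 * i2 + l2) := by clear * - b2 b3 b4 b5 z14 z15 z16 z17 z21; linarith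
            have kk171 : (0) ≤ (l + 1) := by clear * - b2 b3 b4 b5 z14 z15 z16 z17 z21; linarith
            have kk172 : (i2) ≤ (k + l + 1) := by clear * - b2 b3 b4 b5 z14 z15 z16 z17 z21; linarith
            have kk173 : (i + 1) ≤ (Q) := by clear * - b2 b3 b4 b5 z14 z15 z16 z17 z21; linarith
            have kk174 : (i + i2 + 1) ≤ (Q + k) := by clear * - b2 b3 b4 b5 z14 z15 z16 z17 z21; linarith
            have r175 : (k + l + i3 - 2 * i2 - l2) % 2 = 0 := by clear * - ev n1p n2p n3p; omega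
            have r176 : (k - i) % 2 = 0 := by clear * - ev n1p n2p n3p; omega
            have r177 : (i + l + i2 - 2 * n + 1) % 2 = 0 := by clear * - ev n1p n2p n3p; omega
            clear * - al b tt c D2 n3 kk156 kk157 kk158 kk159 kk160 kk161 kk162 kk163 kk164 kk165 kk166 kk167 kk168 kk169 kk170 kk171 kk172 kk173 kk174 r175 r176 r177
            exact ivt al.ninv (i - n + 1) (i + l - n + 1) (k - i) (2 * i2 + l2 - n - k - l + 1) (k + l - n + 1) (k + l + i3 - 2 * i2 - l2) (2 * i2 + l2 - n - k - l) (i3 - n) 0 (fun t h1 h2 => (cE (qf b al (-1) t (t + (n + k - i)) (by omega)) (sh al (-1) (t + (n + k - i)) (t + (k - i)) (by omega)))) (fun t h1 h2 => (cE (sh al 1 t (t + (n)) (by omega)) (cE (cE (qf c al 0 (t + (n)) (t + (n + k + l - i2 + 1)) (by omega)) (qf D2 al 0 (t + (n + k + l - i2 + 1)) (t + (n + k + l + i3 - 2 * i2 - l2)) (by omega))) (sh al (-1) (t + (n + k + l + i3 - 2 * i2 - l2)) (t + (k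 + l + i3 - 2 * i2 - l2)) (by omega))))) (fun hh => n3.f1 (rEE (sh al (-1) (i3) (i3 - n) (by omega)) (cE (pb c al 0 (i2 + l2 + 1) (2 * i2 + l2 - k - l) (by omega)) (sh al (-1) (2 * i2 + l2 - k - l) (2 * i2 + l2 - n - k - l) (by omega))) (Eq.symm (Eq.symm hh)))) (by omega) (i + l - n + 2) (i + l + i2 - n - Q + 2) (i + l + i2 - 2 * n + 1) 0 (-1) (fun t h1 h2 => (cE (ab tt al (-1) t ((i + l + i2 - n + 1) - t) (by omega)) (sh al (-1) ((i + l + i2 - n + 1) - t) ((i + l + i2 - 2 * n + 1) - t) (by omega)))) (by omega)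
          · have kk178 : (j + 1) ≤ (k) := by clear * - y13 y16; omega
            have kk179 : (2 * j + 2 * l + l2 + i3 + 5) ≤ (n + 2 * Q + i2) := by clear * - b0 y0 y16 z16 z17 z21; omega
            have kk180 : (2 * j + i2 + l2 + 1) ≤ (n + 2 * k + 3 * i3) := by clear * - b0 b2 b5 y16 z15 z16 z17 z21; linarith
            have kk181 : (2 * j + 2 * l + l2 + i3 + 5) ≤ (n + 2 * k + i2) := by clear * - b0 b2 y0 y16 z14 z16 z21; linarith
            have kk182 : (3 * k + i2 + l2 + 1) ≤ (n + 3 * j + i3) := by clear * - b0 b1 z14 z17 z21; omega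
            have kk183 : (n + k + i2) ≤ (3 * j + 2 * l + l2 + 3 * i3 + 5) := by clear * - b2 b5 z15 z16; omega
            have kk184 : (n + k + i3) ≤ (3 * j + i2 + l2 + 1) := by clear * - b0 b1 y0 z14 z21; omega
            have kk185 : (Q + i2) ≤ (k + l + i3 + 1) := by clear * - b0 b2 z14 z16 z17 z21; omega
            have kk186 : (0) ≤ (i3) := by clear * - y13; omega
            have kk187 : (Q) ≤ (k) := by clear * - y3; omega
            have kk188 : (k + l + l2 + i3 + 3) ≤ (n + Q) := by clear * - b0 b2 y16 z14 z15 z16 z17 z21; linarith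
            have kk189 : (n) ≤ (k + l + l2 + 3) := by clear * - b5 y16; omega
            have kk190 : (i3) ≤ (k) := by clear * - b0 b2 b5 y16 z14 z16 z17 z21; linarith
            have r191 : (k + l + l2 + i3 - 3 * n + 2) % 2 = 0 := by clear * - ev n1p n2p n3p; omega
            have r192 : (k - j) % 2 = 0 := by clear * - ev n1p n2p n3p; omega
            have r193 : (k + l + 2 * i3 - 2 * n - i2 + 1) % 2 = 0 := by clear * - ev n1p n2p n3p; omega
            clear * - al a1 u2 D2 kk178 kk179 kk180 kk181 kk182 kk183 kk184 kk185 kk186 kk187 kk188 kk189 kk190 r191 r192 r193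
            exact mid2 al (k - j) (k + l + l2 + i3 - 3 * n + 2) (k + l + 2 * i3 - 2 * n - i2 + 1) (-n) (i3 - n) 2 (-n) (k - n) (by omega) (fun t h1 h2 => ⟨by omega, (cE (ab u2 al (-1) t ((k + l + l2 + i3 - 2 * n + 2) - t) (by omega)) (sh al (-1) ((k + l + l2 + i3 - 2 * n + 2) - t) ((k + l + l2 + i3 - 3 * n + 2) - t) (by omega)))⟩) (fun t h1 h2 => ⟨by omega, (cE (cI (pb D2 al (-1) t (t + (n + i2 + l2 - i3 + 1)) (by omega)) (ab u2 al 1 (t + (n + i2 + l2 - i3 + 1)) ((k + l + 2 * i3 - n - i2 + 1) - t) (by omega))) (sh al (-1) ((k + l + 2 * i3 - n - i2 + 1) - t) ((k + l + 2 * i3 - 2 * n - i2 + 1) - t) (by omega)))⟩) (fun t h1 h2 => (cE (qf a1 al (-1) t (t + (n + k - j)) (by omega)) (sh al (-1) (t + (n + k - j)) (t + (k - j)) (by omega))))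
      · by_cases z22 : (2 * Q + j) ≤ (2 * i + l + i2 + 2)
        · by_cases z23 : (2 * Q) ≤ (j + k)
          · by_cases v8 : (k) ≤ (i2)
            · have kk194 : (2 * Q + j) ≤ (2 * i + l + i2 + 1) := by clear * - z22 ev n1p n2p n3p; omega
              have kk195 : (2 * i + l + i2 + 2) ≤ (j + 2 * k) := by clear * - b3 z23; omega
              have kk196 : (i + k + 1) ≤ (Q + j) := by clear * - b1 b3 b5 v8 z14 z15 z22; linarith
              have kk197 : (k) ≤ (Q + j) := by clear * - b3 b5 z15 z22; omega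
              have kk198 : (j + i2) ≤ (i + k + l + 1) := by clear * - y18 z22; omega
              have kk199 : (k) ≤ (i2) := by clear * - v8; omega
              have r200 : (j + l + i2 - 2 * n + 1) % 2 = 0 := by clear * - ev n1p n2p n3p; omega
              clear * - al a1 b tt kk194 kk195 kk196 kk197 kk198 kk199 r200
              obtain ⟨t, ht⟩ : ∃ t, 2 * t = (j + l + i2 - 2 * n + 1) := ⟨(j + l + i2 - 2 * n + 1) / 2, by omega⟩
              exact al.ninv t (cE (cI (cE (pb b al (-1) t (t + (n + i - k)) (by omega)) (qf a1 al 0 (t + (n + i - k)) (t + (n + i - j)) (by omega))) (qa tt al 0 (t + (n + i - j)) ((j + l + i2 - n + 1) - t) (by omega))) (sh al (-1) ((j + l + i2 - n + 1) - t) t (by omega)))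
            · have kk201 : (2 * Q + j) ≤ (2 * i + l + i2 + 1) := by clear * - z22 ev n1p n2p n3p; omega
              have kk202 : (2 * i + l + 2) ≤ (j + i2) := by clear * - b0 b1 b3 b4 z14; omega
              have kk203 : (i + k + 1) ≤ (Q + j) := by clear * - b3 b5 y22 z14 z15 z22; omega
              have kk204 : (k) ≤ (Q + j) := by clear * - b3 b5 z15 z22; omega
              have kk205 : (j + i2) ≤ (i + k + l + 1) := by clear * - y18 z22; omega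
              have kk206 : (i2) ≤ (k) := by clear * - v8; omega
              have r207 : (j + l + i2 - 2 * n + 1) % 2 = 0 := by clear * - ev n1p n2p n3p; omega
              clear * - al a1 b tt kk201 kk202 kk203 kk204 kk205 kk206 r207
              obtain ⟨t, ht⟩ : ∃ t, 2 * t = (j + l + i2 - 2 * n + 1) := ⟨(j + l + i2 - 2 * n + 1) / 2, by omega⟩
              exact al.ninv t (cE (cI (cE (pb b al (-1) t (t + (n + i - k)) (by omega)) (qf a1 al 0 (t + (n + i - k)) (t + (n + i - j)) (by omega))) (qa tt al 0 (t + (n + i - j)) ((j + l + i2 - n + 1) - t) (by omega))) (sh al (-1) ((j + l + i2 - n + 1) - t) t (by omega)))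
          · by_cases v9 : (k) ≤ (i2)
            · have kk208 : (3 * k + 2 * l + 3) ≤ (n + i + 2 * i2) := by clear * - b2 b4 z16 z22 z23; omega
              have kk209 : (i + 2 * i2 + 2 * l2 + 4) ≤ (n + 2 * Q + k) := by clear * - b0 b2 b3 z14 z22 z23; omega
              have kk210 : (i + k + 2 * l + 4) ≤ (n + 2 * i3) := by clear * - b1 b3 b4 z16 z22 z23; omega
              have kk211 : (3 * k + 2 * l + 4) ≤ (n + i + 2 * i2) := by clear * - b2 b4 z16 z22 z23; omega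
              have kk212 : (i2) ≤ (k + l + 1) := by clear * - b2 b3 v9 z14 z22 z23; omega
              have kk213 : (k) ≤ (i2) := by clear * - v9; omega
              have kk214 : (2 * i2 + l2) ≤ (2 * k + 2 * l + 1) := by clear * - b0 b1 b3 z14 z16 z22 z23; linarith
              have kk215 : (k + l) ≤ (i2 + l2) := by clear * - b2 b3 b4 z14 z22 z23; omega
              have kk216 : (2 * k + l + i3) ≤ (i + 2 * i2 + l2) := by clear * - b2 b3 b4 z14 z16 z22 z23; linarith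
              have r217 : (n + k + l + l2 + i3 + 2) % 2 = 0 := by clear * - ev n1p n2p n3p; omega
              have r218 : (n + i + 2 * i2 - 3 * k - 2 * l - 2) % 2 = 0 := by clear * - ev n1p n2p n3p; omega
              clear * - al b c u2 kk208 kk209 kk210 kk211 kk212 kk213 kk214 kk215 kk216 r217 r218
              exact midP al (n + i + 2 * i2 - 3 * k - 2 * l - 2) (n + k + l + l2 + i3 + 2) (k + l + l2 + 3) (2 * k + 2 * l - i2 + 3) (n + i + 2 * i2 + l2 - 2 * k - l) (by omega) (fun t h1 h2 => (cE (qa u2 al 1 t ((k + l + l2 + i3 + 2) - t) (by omega)) (sh al 1 ((k + l + l2 + i3 + 2) - t) ((n + k + l + l2 + i3 + 2) - t) (by omega)))) (fun t h1 h2 => (cE (cE (cE (pb c al 0 t (t + (i2 - k - l - 1)) (by omega)) (pb c al 0 (t + (i2 - k - l - 1)) (t + (2 * i2 - 2 * k - 2 * l - 2)) (by omega))) (pb b al 0 (t + (2 * i2 - 2 * k - 2 * l - 2)) (t + (i + 2 * i2 - 3 * k - 2 * l - 2)) (by omega))) (sh al 1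 (t + (i + 2 * i2 - 3 * k - 2 * l - 2)) (t + (n + i + 2 * i2 - 3 * k - 2 * l - 2)) (by omega))))
            · have kk219 : (3 * k + 2 * l + 3) ≤ (n + i + 2 * i2) := by clear * - b2 b4 z16 z22 z23; omega
              have kk220 : (i + 2 * i2 + 2 * l2 + 4) ≤ (n + 2 * Q + k) := by clear * - b0 b2 b3 z14 z22 z23; omega
              have kk221 : (i + 3 * k + 2 * l + 4) ≤ (n + 2 * i2 + 2 * i3) := by clear * - b0 b1 b4 v9 z14 z16 z22 z23; linarith
              have kk222 : (3 * k + 2 * l + 4) ≤ (n + i + 2 * i2) := by clear * - b2 b4 z16 z22 z23; omega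
              have kk223 : (i2) ≤ (k + l + 1) := by clear * - b1 b3 b5 z14 z15 z22; omega
              have kk224 : (i2) ≤ (k) := by clear * - v9; omega
              have kk225 : (2 * i2 + l2) ≤ (2 * k + 2 * l + 1) := by clear * - b0 b1 b4 v9 z14 z16 z22 z23; linarith
              have kk226 : (2 * k + l) ≤ (2 * i2 + l2) := by clear * - b1 b3 b4 b5 z14 z15 z22 z23; linarith
              have kk227 : (2 * k + l + i3) ≤ (i + 2 * i2 + l2) := by clear * - b4 b5 v9 z14 z15 z22 z23; linarith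
              have r228 : (n + k + l + l2 + i3 + 2) % 2 = 0 := by clear * - ev n1p n2p n3p; omega
              have r229 : (n + i + 2 * i2 - 3 * k - 2 * l - 2) % 2 = 0 := by clear * - ev n1p n2p n3p; omega
              clear * - al b c u2 kk219 kk220 kk221 kk222 kk223 kk224 kk225 kk226 kk227 r228 r229
              exact midP al (n + i + 2 * i2 - 3 * k - 2 * l - 2) (n + k + l + l2 + i3 + 2) (k + l + l2 + 3) (3 * k + 2 * l - 2 * i2 + 3) (n + i + 2 * i2 + l2 - 2 * k - l) (by omega) (fun t h1 h2 => (cE (qa u2 al 1 t ((k + l + l2 + i3 + 2) - t) (by omega)) (sh al 1 ((k + l + l2 + i3 + 2) - t) ((n + k + l + l2 + i3 + 2) - t) (by omega)))) (fun t h1 h2 => (cE (cE (cE (pb c al 0 t (t + (i2 - k - l - 1)) (by omega)) (pb c al 0 (t + (i2 - k - l - 1)) (t + (2 * i2 - 2 * k - 2 * l - 2)) (by omega))) (pb b al 0 (t + (2 * i2 - 2 * k - 2 * l - 2)) (t + (i + 2 * i2 - 3 * k - 2 * l - 2)) (by omega))) (sh al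 1 (t + (i + 2 * i2 - 3 * k - 2 * l - 2)) (t + (n + i + 2 * i2 - 3 * k - 2 * l - 2)) (by omega))))
        · have kk230 : (j + 1) ≤ (k) := by clear * - y13 y16; omega
          have kk231 : (2 * k + l + i3 + 1) ≤ (i + 2 * i2 + l2) := by clear * - y0 y2 y21 y7 z14; omega
          have kk232 : (i + 2 * i2 + l2) ≤ (j + 2 * k + l + i3 + 1) := by clear * - b0 b1 b3 y0 z14; omega
          have kk233 : (i + 2 * i2 + l2) ≤ (j + 2 * k + l) := by clear * - b0 b1 y0 y16 z14 z22; omega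
          have kk234 : (k) ≤ (i + l) := by clear * - b1 y2 y7 z14 z16; omega
          have kk235 : (k + l) ≤ (i2 + l2) := by clear * - y20; omega
          have kk236 : (2 * k + l) ≤ (2 * i2 + l2) := by clear * - b1 b4 y2 y7 z14 z16; omega
          have kk237 : (2 * k + 2 * l + 2) ≤ (n + i2) := by clear * - y21; omega
          have r238 : (k - j) % 2 = 0 := by clear * - ev n1p n2p n3p; omega
          have r239 : (i + 2 * i2 + l2 - 2 * k - l - i3) % 2 = 0 := by clear * - ev n1p n2p n3p; omega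
          clear * - al a1 b c D2 n1 kk230 kk231 kk232 kk233 kk234 kk235 kk236 kk237 r238 r239
          exact n1.f0 (rEE (sh al 0 (j) (j) (by omega)) (sh al 0 (k) (k) (by omega)) (rotR (k - j) (i + 2 * i2 + l2 - 2 * k - l - i3) (j) (k) (by omega) (fun t h1 h2 => (qf a1 al 0 t (t + (k - j)) (by omega))) (fun t h1 h2 => (cE (cE (pb D2 al 0 t (t + (i2 + l2 - i3 + 1)) (by omega)) (pb c al 0 (t + (i2 + l2 - i3 + 1)) (t + (2 * i2 + l2 - k - l - i3)) (by omega))) (pb b al 0 (t + (2 * i2 + l2 - k - l - i3)) (t + (i + 2 * i2 + l2 - 2 * k - l - i3)) (by omega))))))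
    · by_cases z24 : (Q + i2 + l2) ≤ (i + k + 2 * l + 2)
      · have kk240 : (k + l + 1) ≤ (i2 + l2) := by clear * - y20; omega
        have kk241 : (i2) ≤ (k + l) := by clear * - b3 y20 z24; omega
        have kk242 : (i + 1) ≤ (k) := by clear * - b3 b4 y20 z24; omega
        have kk243 : (0) ≤ (l) := by clear * - b0 b5 y16 y17 y21 z14; omega
        have kk244 : (i + k + l + 1) ≤ (2 * i2 + l2) := by clear * - b0 b5 y16 y21 y22 z14; omega
        have kk245 : (2 * i2 + l2) ≤ (2 * k + 2 * l) := by clear * - b4 y18 z24; omega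
        have kk246 : (i + 1) ≤ (i3) := by clear * - y22; omega
        have kk247 : (i3) ≤ (k + l) := by clear * - b0 b3 b5 y16 y21 z14 z24; linarith
        have kk248 : (Q + i2 + l2) ≤ (i + k + 2 * l + 2) := by clear * - z24; omega
        have kk249 : (k + l) ≤ (i2 + l2) := by clear * - y20; omega
        have kk250 : (n) ≤ (k + l + l2 + 2) := by clear * - b5 y16; omega
        have kk251 : (i + k + l) ≤ (2 * i2 + l2) := by clear * - b0 b5 y16 y21 y22 z14; omega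
        have kk252 : (i) ≤ (i3) := by clear * - y22; omega
        have kk253 : (2 * k + 2 * l + 2) ≤ (n + i2) := by clear * - y21; omega
        have kk254 : (k + l + i3) ≤ (2 * i2 + l2) := by clear * - b0 b5 y16 y21 z14; omega
        have kk255 : (0) ≤ (l + 1) := by clear * - b0 b5 y16 y17 y21 z14; omega
        have kk256 : (i2) ≤ (k + l + 1) := by clear * - b3 y20 z24; omega
        have kk257 : (i + 1) ≤ (Q) := by clear * - y12 y16 y22 z14 z15; omega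
        have kk258 : (i + i2 + 1) ≤ (Q + k) := by clear * - b3 y20 z24; omega
        have r259 : (k + l + i3 - 2 * i2 - l2) % 2 = 0 := by clear * - ev n1p n2p n3p; omega
        have r260 : (k - i) % 2 = 0 := by clear * - ev n1p n2p n3p; omega
        have r261 : (i + l + i2 - 2 * n + 1) % 2 = 0 := by clear * - ev n1p n2p n3p; omega
        clear * - al b tt c D2 n3 kk240 kk241 kk242 kk243 kk244 kk245 kk246 kk247 kk248 kk249 kk250 kk251 kk252 kk253 kk254 kk255 kk256 kk257 kk258 r259 r260 r261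
        exact ivt al.ninv (i - n + 1) (i + l - n + 1) (k - i) (2 * i2 + l2 - n - k - l + 1) (k + l - n + 1) (k + l + i3 - 2 * i2 - l2) (2 * i2 + l2 - n - k - l) (i3 - n) 0 (fun t h1 h2 => (cE (qf b al (-1) t (t + (n + k - i)) (by omega)) (sh al (-1) (t + (n + k - i)) (t + (k - i)) (by omega)))) (fun t h1 h2 => (cE (cE (qf c al (-1) t (t + (n + k + l - i2 + 1)) (by omega)) (qf D2 al 0 (t + (n + k + l - i2 + 1)) (t + (n + k + l + i3 - 2 * i2 - l2)) (by omega))) (sh al (-1) (t + (n + k + l + i3 - 2 * i2 - l2)) (t + (k + l + i3 - 2 * i2 - l2)) (by omega)))) (fun hh => n3.f1 (rEE (sh al (-1) (i3) (i3 - n) (by omega)) (cE (pb c al 0 (i2 + l2 + 1) (2 * i2 + l2 - k - l) (by omega)) (sh al (-1) (2 * i2 + l2 - k - l) (2 * i2 + l2 - n - k - l) (by omega))) (Eq.symm (Eq.symm hh)))) (by omega) (i + l - n + 2) (i + l + i2 - n - Q + 2) (i + l + i2 - 2 * n + 1) 0 (-1) (fun t h1 h2 => (cI (sh al 1 t (t + (n))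 (by omega)) (cE (ab tt al 0 (t + (n)) ((i + l + i2 - n + 1) - t) (by omega)) (sh al (-1) ((i + l + i2 - n + 1) - t) ((i + l + i2 - 2 * n + 1) - t) (by omega))))) (by omega)
      · have kk262 : (j + 1) ≤ (k) := by clear * - y13 y16; omega
        have kk263 : (k) ≤ (j + 2 * i3) := by clear * - b0 y0 y17 z14 z15 z24; omega
        have kk264 : (2 * n) ≤ (j + k + 2 * l + 2 * l2 + 2 * i3 + 6) := by clear * - y13 y16 z14; omega
        have kk265 : (0) ≤ (j + k) := by clear * - b0 b2 y12 y16 z14 z15 z24; linarith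
        have kk266 : (l + l2 + i3 + 3) ≤ (n) := by clear * - b0 b2 y12 y16 z14 z24; omega
        have r267 : (k + l + l2 + i3 - 3 * n + 2) % 2 = 0 := by clear * - ev n1p n2p n3p; omega
        have r268 : (k - j) % 2 = 0 := by clear * - ev n1p n2p n3p; omega
        clear * - al a1 u1 kk262 kk263 kk264 kk265 kk266 r267 r268
        exact midP al (k - j) (k + l + l2 + i3 - 3 * n + 2) (-n) (-n) (k - n) (by omega) (fun t h1 h2 => (cE (qa u1 al (-1) t ((k + l + l2 + i3 - 2 * n + 2) - t) (by omega)) (sh al (-1) ((k + l + l2 + i3 - 2 * n + 2) - t) ((k + l + l2 + i3 - 3 * n + 2) - t) (by omega)))) (fun t h1 h2 => (cE (qf a1 al (-1) t (t + (n + k - j)) (by omega)) (sh al (-1) (t + (n + k - j)) (t + (k - j)) (by omega))))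

theorem t2c_9 {W : ℤ → G} {n Q i j k l i2 l2 i3 : ℤ} (al : AL W n Q)
    (hy : (0) ≤ (i) ∧ (i) ≤ (j) ∧ (j + 1) ≤ (Q) ∧ (Q) ≤ (k) ∧ (k + 1) ≤ (n) ∧ (Q) ≤ (i + l + 1) ∧ (k + l + 2) ≤ (n) ∧ (Q) ≤ (i2) ∧ (i2) ≤ (i + l + 1) ∧ (Q) ≤ (i2 + l2 + 1) ∧ (i2 + l2 + 2) ≤ (n) ∧ (n) ≤ (k + l + l2 + 2) ∧ (k + l + l2 + 3) ≤ (n + Q) ∧ (0) ≤ (i3) ∧ (n + i3) ≤ (k + l + l2 + 2) ∧ (k + i2 + l2 + 2) ≤ (n + j + i3) ∧ (j + i3 + 1) ≤ (k) ∧ (k + i2 + l2 + 2) ≤ (n + i3) ∧ (i + 2 * i2 + 1) ≤ (2 * Q + k) ∧ (i + l + 1) ≤ (i2 + l2) ∧ (k + l + 1) ≤ (i2 + l2) ∧ (2 * k + 2 * l + 3) ≤ (n + i2) ∧ (i + 1) ≤ (i3))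
    (a1 : Par W (0) (j) (k - j))
    (a2 : Par W (Q + j - k) (j) (k - j))
    (s1 : Ant W (0) (i) (i + j))
    (s2 : Ant W (j + 1) (Q) (i + j))
    (b : Par W (i + 1) (i + l + 1) (k - i))
    (tt : Ant W (Q) (i2) (i + l + i2 + 1))
    (c : Par W (i2 + 1) (i2 + l2 + 1) (k + l - i2 + 1))
    (u1 : Ant W (0) (i3) (k + l + l2 + i3 - n + 2))
    (u2 : Ant W (k + l + l2 - n + 3) (Q) (k + l + l2 + i3 - n + 2))
    (D1 : Par W (i3 + 1) (Q) (i2 + l2 - i3 + 1))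
    (D2 : Par W (i2 + l2 + 2) (n) (i3 - i2 - l2 - 1))
    {L : ℤ} (mx : ∀ a b g, 0 < g → g < n → Par W a b g → b - a ≤ L)
    (hL : L ≤ (n - j - 3) ∧ L ≤ (n + Q - k - 3) ∧ L ≤ (n - l - 3) ∧ L ≤ (n + i - k - 2) ∧ L ≤ (n - l2 - 3) ∧ L ≤ (n + i3 - Q - 2) ∧ L ≤ (i2 + l2 - 1) ∧ L ≤ (n + i2 - k - l - 3) ∧ L ≤ (Q + i2 + l2 - i - l - 3))
    (bd0 : Bd W n L (j) (i) (k))
    (bd2 : Bd W n L (k + l + l2 - n + 2) (i3) (i2 + l2 + 1))
    (n1 : Nd W (j) (i) (k))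
    (n2 : Nd W (i + l + 1) (i2) (k + l + 1))
    (n3 : Nd W (k + l + l2 - n + 2) (i3) (i2 + l2 + 1))
    (b0 : (2 * l2 + 3) ≤ (n))
    (b1 : (2 * Q + i2) ≤ (k + l + 2 * i3 + 1))
    (b2 : (2 * Q + i2 + l2) ≤ (n + i + j + i3))
    (b3 : (2 * i + l + i2 + 2) ≤ (2 * Q + k))
    (b4 : (i + k + 2 * l + 3) ≤ (2 * i2 + l2))
    (b5 : (j + l + l2 + i3 + 3) ≤ (n)) : False := by
  have ev := al.ev
  obtain ⟨y0, y1, y2, y3, y4, y5, y6, y7, y8, y9, y10, y11, y12, y13, y14, y15, y16, y17, y18, y19, y20, y21, y22⟩ := id hy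
  have n1p := And.intro n1.p1 n1.p2
  have n2p := And.intro n2.p1 n2.p2
  have n3p := And.intro n3.p1 n3.p2
  by_cases z25 : (Q + i2 + l2) ≤ (i + k + 2 * l + 2)
  · have kk269 : (k + l + 1) ≤ (i2 + l2) := by clear * - y20; omega
    have kk270 : (i2) ≤ (k + l) := by clear * - b3 y20 z25; omega
    have kk271 : (i + 1) ≤ (k) := by clear * - b3 b4 y20 z25; omega
    have kk272 : (0) ≤ (l) := by clear * - b0 y13 y14 y17 y21; omega
    have kk273 : (i + 1) ≤ (i3) := by clear * - y22; omega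
    have kk274 : (i3) ≤ (k + l) := by clear * - b0 b3 y14 y20 z25; omega
    have kk275 : (i + k + l + 1) ≤ (2 * i2 + l2) := by clear * - b0 y14 y20 y22; omega
    have kk276 : (2 * i2 + l2) ≤ (2 * k + 2 * l) := by clear * - b4 y18 z25; omega
    have kk277 : (Q + i2 + l2) ≤ (i + k + 2 * l + 2) := by clear * - z25; omega
    have kk278 : (k + l) ≤ (i2 + l2) := by clear * - y20; omega
    have kk279 : (n) ≤ (k + l + l2 + 2) := by clear * - y13 y14; omega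
    have kk280 : (i) ≤ (i3) := by clear * - y22; omega
    have kk281 : (i + k + l) ≤ (2 * i2 + l2) := by clear * - b0 y14 y20 y22; omega
    have kk282 : (2 * k + 2 * l + 2) ≤ (n + i2) := by clear * - y21; omega
    have kk283 : (k + l + i3) ≤ (2 * i2 + l2) := by clear * - b0 y14 y20; omega
    have kk284 : (0) ≤ (l + 1) := by clear * - b0 y13 y14 y17 y21; omega
    have kk285 : (i2) ≤ (k + l + 1) := by clear * - b3 y20 z25; omega
    have kk286 : (i + 1) ≤ (Q) := by clear * - y12 y14 y22; omega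
    have kk287 : (i + i2 + 1) ≤ (Q + k) := by clear * - b3 y20 z25; omega
    have r288 : (2 * i2 + l2 - k - l - i3) % 2 = 0 := by clear * - ev n1p n2p n3p; omega
    have r289 : (k - i) % 2 = 0 := by clear * - ev n1p n2p n3p; omega
    have r290 : (i + l + i2 - 2 * n + 1) % 2 = 0 := by clear * - ev n1p n2p n3p; omega
    clear * - al b tt c D2 n3 kk269 kk270 kk271 kk272 kk273 kk274 kk275 kk276 kk277 kk278 kk279 kk280 kk281 kk282 kk283 kk284 kk285 kk286 kk287 r288 r289 r290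
    exact ivt al.ninv (i - n + 1) (i + l - n + 1) (k - i) (i3 - n + 1) (2 * k + 2 * l + i3 - n - 2 * i2 - l2 + 1) (2 * i2 + l2 - k - l - i3) (i3 - n) (2 * i2 + l2 - n - k - l) 0 (fun t h1 h2 => (cE (qf b al (-1) t (t + (n + k - i)) (by omega)) (sh al (-1) (t + (n + k - i)) (t + (k - i)) (by omega)))) (fun t h1 h2 => (cE (cE (pb D2 al (-1) t (t + (n + i2 + l2 - i3 + 1)) (by omega)) (pb c al 0 (t + (n + i2 + l2 - i3 + 1)) (t + (n + 2 * i2 + l2 - k - l - i3)) (by omega))) (sh al (-1) (t + (n + 2 * i2 + l2 - k - l - i3)) (t + (2 * i2 + l2 - k - l - i3)) (by omega)))) (fun hh => n3.f1 (rEE (sh al (-1) (i3) (i3 - n) (by omega)) (cE (pb c al 0 (i2 + l2 + 1) (2 * i2 + l2 - k - l) (by omega)) (sh al (-1) (2 * i2 + l2 - k - l) (2 * i2 + l2 - n - k - l) (by omega))) (Eq.symm hh))) (by omega) (i + l - n + 2) (i + l + i2 - n - Q + 2) (i + l + i2 - 2 * n + 1) 1 (-1) (fun t h1 h2 => (cE (ab tt al (-1) t ((i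 + l + i2 - n + 1) - t) (by omega)) (sh al (-1) ((i + l + i2 - n + 1) - t) ((i + l + i2 - 2 * n + 1) - t) (by omega)))) (by omega)
  · exact t2c_10 al hy a1 a2 s1 s2 b tt c u1 u2 D1 D2 mx hL bd0 bd2 n1 n2 n3 (by clear * - b0; omega) (by clear * - b1; omega) (by clear * - b2; omega) (by clear * - b3; omega) (by clear * - b5; omega) (by clear * - z25; omega)

theorem t2c_7 {W : ℤ → G} {n Q i j k l i2 l2 i3 : ℤ} (al : AL W n Q)
    (hy : (0) ≤ (i) ∧ (i) ≤ (j) ∧ (j + 1) ≤ (Q) ∧ (Q) ≤ (k) ∧ (k + 1) ≤ (n) ∧ (Q) ≤ (i + l + 1) ∧ (k + l + 2) ≤ (n) ∧ (Q) ≤ (i2) ∧ (i2) ≤ (i + l + 1) ∧ (Q) ≤ (i2 + l2 + 1) ∧ (i2 + l2 + 2) ≤ (n) ∧ (n) ≤ (k + l + l2 + 2) ∧ (k + l + l2 + 3) ≤ (n + Q) ∧ (0) ≤ (i3) ∧ (n + i3) ≤ (k + l + l2 + 2) ∧ (k + i2 + l2 + 2) ≤ (n + j + i3) ∧ (j + i3 + 1) ≤ (k) ∧ (k + i2 + l2 + 2) ≤ (n + i3) ∧ (i + 2 * i2 + 1) ≤ (2 * Q + k) ∧ (i + l + 1) ≤ (i2 + l2) ∧ (k + l + 1) ≤ (i2 + l2) ∧ (2 * k + 2 *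 l + 3) ≤ (n + i2) ∧ (i + 1) ≤ (i3))
    (a1 : Par W (0) (j) (k - j))
    (a2 : Par W (Q + j - k) (j) (k - j))
    (s1 : Ant W (0) (i) (i + j))
    (s2 : Ant W (j + 1) (Q) (i + j))
    (b : Par W (i + 1) (i + l + 1) (k - i))
    (tt : Ant W (Q) (i2) (i + l + i2 + 1))
    (c : Par W (i2 + 1) (i2 + l2 + 1) (k + l - i2 + 1))
    (u1 : Ant W (0) (i3) (k + l + l2 + i3 - n + 2))
    (u2 : Ant W (k + l + l2 - n + 3) (Q) (k + l + l2 + i3 - n + 2))
    (D1 : Par W (i3 + 1) (Q) (i2 + l2 - i3 + 1))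
    (D2 : Par W (i2 + l2 + 2) (n) (i3 - i2 - l2 - 1))
    {L : ℤ} (mx : ∀ a b g, 0 < g → g < n → Par W a b g → b - a ≤ L)
    (hL : L ≤ (n - j - 3) ∧ L ≤ (n + Q - k - 3) ∧ L ≤ (n - l - 3) ∧ L ≤ (n + i - k - 2) ∧ L ≤ (n - l2 - 3) ∧ L ≤ (n + i3 - Q - 2) ∧ L ≤ (i2 + l2 - 1) ∧ L ≤ (n + i2 - k - l - 3) ∧ L ≤ (Q + i2 + l2 - i - l - 3))
    (bd0 : Bd W n L (j) (i) (k))
    (bd2 : Bd W n L (k + l + l2 - n + 2) (i3) (i2 + l2 + 1))
    (n1 : Nd W (j) (i) (k))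
    (n2 : Nd W (i + l + 1) (i2) (k + l + 1))
    (n3 : Nd W (k + l + l2 - n + 2) (i3) (i2 + l2 + 1))
    (b0 : (2 * l2 + 3) ≤ (n))
    (b1 : (2 * Q + i2) ≤ (k + l + 2 * i3 + 1))
    (b2 : (2 * Q + i2 + l2) ≤ (n + i + j + i3))
    (b3 : (2 * i + l + i2 + 2) ≤ (2 * Q + k))
    (b4 : (i + k + 2 * l + 3) ≤ (2 * i2 + l2)) : False := by
  have ev := al.ev
  obtain ⟨y0, y1, y2, y3, y4, y5, y6, y7, y8, y9, y10, y11, y12, y13, y14, y15, y16, y17, y18, y19, y20, y21, y22⟩ := id hy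
  have n1p := And.intro n1.p1 n1.p2
  have n2p := And.intro n2.p1 n2.p2
  have n3p := And.intro n3.p1 n3.p2
  by_cases z13 : (n) ≤ (j + l + l2 + i3 + 2)
  · exact t2c_8 al hy a1 a2 s1 s2 b tt c u1 u2 D1 D2 mx hL bd0 bd2 n1 n2 n3 (by clear * - b0; omega) (by clear * - b1; omega) (by clear * - b2; omega) (by clear * - b3; omega) (by clear * - b4; omega) (by clear * - z13; omega)
  · exact t2c_9 al hy a1 a2 s1 s2 b tt c u1 u2 D1 D2 mx hL bd0 bd2 n1 n2 n3 (by clear * - b0; omega) (by clear * - b1; omega) (by clear * - b2; omega) (by clear * - b3; omega) (by clear * - b4; omega) (by clear * - z13; omega)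

theorem t2c_6 {W : ℤ → G} {n Q i j k l i2 l2 i3 : ℤ} (al : AL W n Q)
    (hy : (0) ≤ (i) ∧ (i) ≤ (j) ∧ (j + 1) ≤ (Q) ∧ (Q) ≤ (k) ∧ (k + 1) ≤ (n) ∧ (Q) ≤ (i + l + 1) ∧ (k + l + 2) ≤ (n) ∧ (Q) ≤ (i2) ∧ (i2) ≤ (i + l + 1) ∧ (Q) ≤ (i2 + l2 + 1) ∧ (i2 + l2 + 2) ≤ (n) ∧ (n) ≤ (k + l + l2 + 2) ∧ (k + l + l2 + 3) ≤ (n + Q) ∧ (0) ≤ (i3) ∧ (n + i3) ≤ (k + l + l2 + 2) ∧ (k + i2 + l2 + 2) ≤ (n + j + i3) ∧ (j + i3 + 1) ≤ (k) ∧ (k + i2 + l2 + 2) ≤ (n + i3) ∧ (i + 2 * i2 + 1) ≤ (2 * Q + k) ∧ (i + l + 1) ≤ (i2 + l2) ∧ (k + l + 1) ≤ (i2 + l2) ∧ (2 * k + 2 * l + 3) ≤ (n + i2) ∧ (i + 1) ≤ (i3))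
    (a1 : Par W (0) (j) (k - j))
    (a2 : Par W (Q + j - k) (j) (k - j))
    (s1 : Ant W (0) (i) (i + j))
    (s2 : Ant W (j + 1) (Q) (i + j))
    (b : Par W (i + 1) (i + l + 1) (k - i))
    (tt : Ant W (Q) (i2) (i + l + i2 + 1))
    (c : Par W (i2 + 1) (i2 + l2 + 1) (k + l - i2 + 1))
    (u1 : Ant W (0) (i3) (k + l + l2 + i3 - n + 2))
    (u2 : Ant W (k + l + l2 - n + 3) (Q) (k + l + l2 + i3 - n + 2))
    (D1 : Par W (i3 + 1) (Q) (i2 + l2 - i3 + 1))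
    (D2 : Par W (i2 + l2 + 2) (n) (i3 - i2 - l2 - 1))
    {L : ℤ} (mx : ∀ a b g, 0 < g → g < n → Par W a b g → b - a ≤ L)
    (hL : L ≤ (n - j - 3) ∧ L ≤ (n + Q - k - 3) ∧ L ≤ (n - l - 3) ∧ L ≤ (n + i - k - 2) ∧ L ≤ (n - l2 - 3) ∧ L ≤ (n + i3 - Q - 2) ∧ L ≤ (i2 + l2 - 1) ∧ L ≤ (n + i2 - k - l - 3) ∧ L ≤ (Q + i2 + l2 - i - l - 3))
    (bd0 : Bd W n L (j) (i) (k))
    (bd2 : Bd W n L (k + l + l2 - n + 2) (i3) (i2 + l2 + 1))
    (n1 : Nd W (j) (i) (k))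
    (n2 : Nd W (i + l + 1) (i2) (k + l + 1))
    (n3 : Nd W (k + l + l2 - n + 2) (i3) (i2 + l2 + 1))
    (b0 : (2 * l2 + 3) ≤ (n))
    (b1 : (2 * Q + i2) ≤ (k + l + 2 * i3 + 1))
    (b2 : (n + i + l + i3) ≤ (2 * i2 + 2 * l2))
    (b3 : (2 * Q + i2 + l2) ≤ (n + i + j + i3))
    (b4 : (2 * i + l + i2 + 2) ≤ (2 * Q + k)) : False := by
  have ev := al.ev
  obtain ⟨y0, y1, y2, y3, y4, y5, y6, y7, y8, y9, y10, y11, y12, y13, y14, y15, y16, y17, y18, y19, y20, y21, y22⟩ := id hy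
  have n1p := And.intro n1.p1 n1.p2
  have n2p := And.intro n2.p1 n2.p2
  have n3p := And.intro n3.p1 n3.p2
  by_cases z12 : (2 * i2 + l2) ≤ (i + k + 2 * l + 2)
  · have kk82 : (k + l + 1) ≤ (i2 + l2) := by clear * - y20; omega
    have kk83 : (i2) ≤ (k + l) := by clear * - b0 b1 b2 b4 y20 z12; omega
    have kk84 : (i + 1) ≤ (k) := by clear * - b0 b1 b2 b4 y20 z12; omega
    have kk85 : (0) ≤ (l) := by clear * - b0 b2 y20 y22 z12; omega
    have kk86 : (i + k + l + 1) ≤ (2 * i2 + l2) := by clear * - b0 b2 y20 y22 z12; omega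
    have kk87 : (2 * i2 + l2) ≤ (2 * k + 2 * l) := by clear * - b0 b1 b2 b4 y20 z12; omega
    have kk88 : (i + 1) ≤ (i3) := by clear * - y22; omega
    have kk89 : (i3) ≤ (k + l) := by clear * - b0 b1 b2 b4 y20 z12; omega
    have kk90 : (2 * i2 + l2) ≤ (i + k + 2 * l + 2) := by clear * - z12; omega
    have kk91 : (k + l) ≤ (i2 + l2) := by clear * - y20; omega
    have kk92 : (n) ≤ (k + l + l2 + 2) := by clear * - b2 y13 z12; omega
    have kk93 : (i + k + l) ≤ (2 * i2 + l2) := by clear * - b0 b2 y20 y22 z12; omega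
    have kk94 : (i) ≤ (i3) := by clear * - y22; omega
    have kk95 : (2 * k + 2 * l + 2) ≤ (n + i2) := by clear * - y21; omega
    have kk96 : (k + l + i3) ≤ (2 * i2 + l2) := by clear * - b0 b2 y20 z12; omega
    have r97 : (k + l + i3 - 2 * i2 - l2) % 2 = 0 := by clear * - ev n1p n2p n3p; omega
    have r98 : (k - i) % 2 = 0 := by clear * - ev n1p n2p n3p; omega
    clear * - al b c D2 n3 kk82 kk83 kk84 kk85 kk86 kk87 kk88 kk89 kk90 kk91 kk92 kk93 kk94 kk95 kk96 r97 r98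
    exact ivt0 (i - n + 1) (i + l - n + 1) (k - i) (2 * i2 + l2 - n - k - l + 1) (k + l - n + 1) (k + l + i3 - 2 * i2 - l2) (2 * i2 + l2 - n - k - l) (i3 - n) 0 (fun t h1 h2 => (cE (qf b al (-1) t (t + (n + k - i)) (by omega)) (sh al (-1) (t + (n + k - i)) (t + (k - i)) (by omega)))) (fun t h1 h2 => (cE (cE (qf c al (-1) t (t + (n + k + l - i2 + 1)) (by omega)) (qf D2 al 0 (t + (n + k + l - i2 + 1)) (t + (n + k + l + i3 - 2 * i2 - l2)) (by omega))) (sh al (-1) (t + (n + k + l + i3 - 2 * i2 - l2)) (t + (k + l + i3 - 2 * i2 - l2)) (by omega)))) (fun hh => n3.f1 (rEE (sh al (-1) (i3) (i3 - n) (by omega)) (cE (pb c al 0 (i2 + l2 + 1) (2 * i2 + l2 - k - l) (by omega)) (sh al (-1) (2 * i2 + l2 - k - l) (2 * i2 + l2 - n - k - l) (by omega))) (Eq.symm (Eq.symm hh)))) (by omega) (by omega)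
  · exact t2c_7 al hy a1 a2 s1 s2 b tt c u1 u2 D1 D2 mx hL bd0 bd2 n1 n2 n3 (by clear * - b0; omega) (by clear * - b1; omega) (by clear * - b3; omega) (by clear * - b4; omega) (by clear * - z12; omega)

theorem t2c_5 {W : ℤ → G} {n Q i j k l i2 l2 i3 : ℤ} (al : AL W n Q)
    (hy : (0) ≤ (i) ∧ (i) ≤ (j) ∧ (j + 1) ≤ (Q) ∧ (Q) ≤ (k) ∧ (k + 1) ≤ (n) ∧ (Q) ≤ (i + l + 1) ∧ (k + l + 2) ≤ (n) ∧ (Q) ≤ (i2) ∧ (i2) ≤ (i + l + 1) ∧ (Q) ≤ (i2 + l2 + 1) ∧ (i2 + l2 + 2) ≤ (n) ∧ (n) ≤ (k + l + l2 + 2) ∧ (k + l + l2 + 3) ≤ (n + Q) ∧ (0) ≤ (i3) ∧ (n + i3) ≤ (k + l + l2 + 2) ∧ (k + i2 + l2 + 2) ≤ (n + j + i3) ∧ (j + i3 + 1) ≤ (k) ∧ (k + i2 + l2 + 2) ≤ (n + i3) ∧ (i + 2 * i2 + 1) ≤ (2 * Q + k) ∧ (i + l + 1) ≤ (i2 + l2) ∧ (k + l + 1) ≤ (i2 + l2) ∧ (2 * k + 2 * l + 3) ≤ (n + i2) ∧ (i + 1) ≤ (i3))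
    (a1 : Par W (0) (j) (k - j))
    (a2 : Par W (Q + j - k) (j) (k - j))
    (s1 : Ant W (0) (i) (i + j))
    (s2 : Ant W (j + 1) (Q) (i + j))
    (b : Par W (i + 1) (i + l + 1) (k - i))
    (tt : Ant W (Q) (i2) (i + l + i2 + 1))
    (c : Par W (i2 + 1) (i2 + l2 + 1) (k + l - i2 + 1))
    (u1 : Ant W (0) (i3) (k + l + l2 + i3 - n + 2))
    (u2 : Ant W (k + l + l2 - n + 3) (Q) (k + l + l2 + i3 - n + 2))
    (D1 : Par W (i3 + 1) (Q) (i2 + l2 - i3 + 1))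
    (D2 : Par W (i2 + l2 + 2) (n) (i3 - i2 - l2 - 1))
    {L : ℤ} (mx : ∀ a b g, 0 < g → g < n → Par W a b g → b - a ≤ L)
    (hL : L ≤ (n - j - 3) ∧ L ≤ (n + Q - k - 3) ∧ L ≤ (n - l - 3) ∧ L ≤ (n + i - k - 2) ∧ L ≤ (n - l2 - 3) ∧ L ≤ (n + i3 - Q - 2) ∧ L ≤ (i2 + l2 - 1) ∧ L ≤ (n + i2 - k - l - 3) ∧ L ≤ (Q + i2 + l2 - i - l - 3))
    (bd0 : Bd W n L (j) (i) (k))
    (bd2 : Bd W n L (k + l + l2 - n + 2) (i3) (i2 + l2 + 1))
    (n1 : Nd W (j) (i) (k))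
    (n2 : Nd W (i + l + 1) (i2) (k + l + 1))
    (n3 : Nd W (k + l + l2 - n + 2) (i3) (i2 + l2 + 1))
    (b0 : (2 * l2 + 3) ≤ (n))
    (b1 : (2 * Q + i2) ≤ (k + l + 2 * i3 + 1))
    (b2 : (n + i + l + i3) ≤ (2 * i2 + 2 * l2))
    (b3 : (2 * Q + i2 + l2) ≤ (n + i + j + i3))
    (b4 : (2 * Q + k) ≤ (2 * i + l + i2 + 1)) : False := by
  have ev := al.ev
  obtain ⟨y0, y1, y2, y3, y4, y5, y6, y7, y8, y9, y10, y11, y12, y13, y14, y15, y16, y17, y18, y19, y20, y21, y22⟩ := id hy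
  have n1p := And.intro n1.p1 n1.p2
  have n2p := And.intro n2.p1 n2.p2
  have n3p := And.intro n3.p1 n3.p2
  by_cases z7 : (2 * i + l + 2) ≤ (k + i2)
  · have kk32 : (2 * i + l + 3) ≤ (k + i2) := by clear * - z7 ev n1p n2p n3p; omega
    have kk33 : (2 * Q + k) ≤ (2 * i + l + i2 + 2) := by clear * - b4; omega
    have kk34 : (i2) ≤ (i + l + 1) := by clear * - b4 y18; omega
    have kk35 : (i + 1) ≤ (Q) := by clear * - y12 y14 y22; omega
    have r36 : (2 * n + k + l + i2 + 1) % 2 = 0 := by clear * - ev n1p n2p n3p; omega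
    clear * - al b tt kk32 kk33 kk34 kk35 r36
    obtain ⟨t, ht⟩ : ∃ t, 2 * t = (2 * n + k + l + i2 + 1) := ⟨(2 * n + k + l + i2 + 1) / 2, by omega⟩
    exact al.ninv t (cE (cE (ab tt al 1 t ((n + i + l + i2 + 1) - t) (by omega)) (qf b al 0 ((n + i + l + i2 + 1) - t) ((n + k + l + i2 + 1) - t) (by omega))) (sh al 1 ((n + k + l + i2 + 1) - t) t (by omega)))
  · by_cases z8 : (Q + i2) ≤ (i + l + 2)
    · have kk37 : (i2) ≤ (k + l) := by clear * - b0 b1 b2 y18 z7; omega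
      have kk38 : (k + l + 2) ≤ (n + i2) := by clear * - b0 y19 z7; omega
      have kk39 : (Q + i2) ≤ (i + l + 2) := by clear * - z8; omega
      clear * - al c mx hL kk37 kk38 kk39
      exact absurd (mx (i2 + 1) (i2 + l2 + 1) (k + l - i2 + 1) (by omega) (by omega) fun t h1 h2 => (qf c al 0 t (t + (k + l - i2 + 1)) (by omega))) (by omega)
    · by_cases z9 : (n) ≤ (j + l + l2 + i3 + 2)
      · by_cases z10 : (j + l + l2 + 4) ≤ (n + i3)
        · by_cases v2 : (n) ≤ (j + l + l2 + 3)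
          · by_cases v3 : (n) ≤ (l + l2 + i3 + 3)
            · have kk40 : (j + l + l2 + 4) ≤ (n + i3) := by clear * - z10; omega
              have kk41 : (l + l2 + i3 + 3) ≤ (n + j) := by clear * - b0 b2 b3 y18 z7; omega
              have kk42 : (n) ≤ (j + l + l2 + 3) := by clear * - v2; omega
              have kk43 : (n) ≤ (l + l2 + i3 + 3) := by clear * - v3; omega
              have r44 : (j + l + l2 + i3 - 3 * n + 2) % 2 = 0 := by clear * - ev n1p n2p n3p; omega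
              clear * - al a1 u1 kk40 kk41 kk42 kk43 r44
              obtain ⟨t, ht⟩ : ∃ t, 2 * t = (j + l + l2 + i3 - 3 * n + 2) := ⟨(j + l + l2 + i3 - 3 * n + 2) / 2, by omega⟩
              exact al.ninv t (cE (cI (qf a1 al (-1) t (t + (n + k - j)) (by omega)) (ab u1 al 0 (t + (n + k - j)) ((j + l + l2 + i3 - 2 * n + 2) - t) (by omega))) (sh al (-1) ((j + l + l2 + i3 - 2 * n + 2) - t) t (by omega)))
            · have kk45 : (j + l + l2 + 4) ≤ (n + i3) := by clear * - z10; omega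
              have kk46 : (n) ≤ (j + l + l2 + i3 + 3) := by clear * - v2 z10; omega
              have kk47 : (n) ≤ (j + l + l2 + 3) := by clear * - v2; omega
              have kk48 : (l + l2 + i3 + 3) ≤ (n) := by clear * - v3; omega
              have r49 : (j + l + l2 + i3 - 3 * n + 2) % 2 = 0 := by clear * - ev n1p n2p n3p; omega
              clear * - al a1 u1 kk45 kk46 kk47 kk48 r49
              obtain ⟨t, ht⟩ : ∃ t, 2 * t = (j + l + l2 + i3 - 3 * n + 2) := ⟨(j + l + l2 + i3 - 3 * n + 2) / 2, by omega⟩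
              exact al.ninv t (cE (cI (qf a1 al (-1) t (t + (n + k - j)) (by omega)) (ab u1 al 0 (t + (n + k - j)) ((j + l + l2 + i3 - 2 * n + 2) - t) (by omega))) (sh al (-1) ((j + l + l2 + i3 - 2 * n + 2) - t) t (by omega)))
          · by_cases v4 : (n) ≤ (l + l2 + i3 + 3)
            · have kk50 : (n) ≤ (j + l + l2 + i3 + 2) := by clear * - z9; omega
              have kk51 : (l + l2 + i3 + 3) ≤ (n + j) := by clear * - b0 b2 b3 y18 z7; omega
              have kk52 : (j + l + l2 + 3) ≤ (n) := by clear * - v2; omega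
              have kk53 : (n) ≤ (l + l2 + i3 + 3) := by clear * - v4; omega
              have r54 : (j + l + l2 + i3 - 3 * n + 2) % 2 = 0 := by clear * - ev n1p n2p n3p; omega
              clear * - al a1 u1 kk50 kk51 kk52 kk53 r54
              obtain ⟨t, ht⟩ : ∃ t, 2 * t = (j + l + l2 + i3 - 3 * n + 2) := ⟨(j + l + l2 + i3 - 3 * n + 2) / 2, by omega⟩
              exact al.ninv t (cE (cI (qf a1 al (-1) t (t + (n + k - j)) (by omega)) (ab u1 al 0 (t + (n + k - j)) ((j + l + l2 + i3 - 2 * n + 2) - t) (by omega))) (sh al (-1) ((j + l + l2 + i3 - 2 * n + 2) - t) t (by omega)))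
            · have kk55 : (n) ≤ (j + l + l2 + i3 + 2) := by clear * - z9; omega
              have kk56 : (n) ≤ (j + l + l2 + i3 + 3) := by clear * - z9; omega
              have kk57 : (j + l + l2 + 3) ≤ (n) := by clear * - v2; omega
              have kk58 : (l + l2 + i3 + 3) ≤ (n) := by clear * - v4; omega
              have r59 : (j + l + l2 + i3 - 3 * n + 2) % 2 = 0 := by clear * - ev n1p n2p n3p; omega
              clear * - al a1 u1 kk55 kk56 kk57 kk58 r59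
              obtain ⟨t, ht⟩ : ∃ t, 2 * t = (j + l + l2 + i3 - 3 * n + 2) := ⟨(j + l + l2 + i3 - 3 * n + 2) / 2, by omega⟩
              exact al.ninv t (cE (cI (qf a1 al (-1) t (t + (n + k - j)) (by omega)) (ab u1 al 0 (t + (n + k - j)) ((j + l + l2 + i3 - 2 * n + 2) - t) (by omega))) (sh al (-1) ((j + l + l2 + i3 - 2 * n + 2) - t) t (by omega)))
        · by_cases z11 : (2 * k + i2 + l2 + 2) ≤ (n + i + j + i3)
          · have kk60 : (2 * k + i2 + l2 + 2) ≤ (n + i + j + i3) := by clear * - z11; omega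
            have kk61 : (i + j + i3) ≤ (2 * k + i2 + l2) := by clear * - b1 b2 b4 y16 z10 z11 z8 z9; linarith
            have kk62 : (i3) ≤ (k) := by clear * - b3 y16 z10 z11 z8 z9; omega
            have kk63 : (i + j + 1) ≤ (k) := by clear * - y16 y22; omega
            have kk64 : (n + i3) ≤ (k + l + i2 + l2 + 2) := by clear * - b1 b4 y16 z10 z11 z8 z9; linarith
            have kk65 : (n + i + i3) ≤ (2 * k + i2 + l2 + 1) := by clear * - y16 y3 z10 z8 z9; omega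
            clear * - al a1 b D2 kk60 kk61 kk62 kk63 kk64 kk65
            exact al.ubP (n + i + j + i3 - 2 * k - i2 - l2 - 1) (by omega) (by omega) fun t h1 h2 => (cE (cE (qf D2 al (-1) t (t + (n + i3 - i2 - l2 - 1)) (by omega)) (pb b al 0 (t + (n + i3 - i2 - l2 - 1)) (t + (n + i + i3 - k - i2 - l2 - 1)) (by omega))) (pb a1 al 0 (t + (n + i + i3 - k - i2 - l2 - 1)) (t + (n + i + j + i3 - 2 * k - i2 - l2 - 1)) (by omega)))
          · have kk66 : (i + 1) ≤ (k) := by clear * - b0 b1 b2 y18 z7; omega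
            have kk67 : (k + l + i3 + 1) ≤ (2 * i2 + l2) := by clear * - b0 b2 y19 z7; omega
            have kk68 : (2 * i2 + l2) ≤ (k + 2 * l + i3 + 1) := by clear * - b0 b3 y18 y22 z10 z11 z7; linarith
            have kk69 : (2 * i2 + l2) ≤ (i + k + 2 * l + 1) := by clear * - b0 b1 y18 z10 z11 z7; omega
            have kk70 : (2 * k + 2 * l + 3) ≤ (n + i2) := by clear * - y21; omega
            have kk71 : (k + l) ≤ (i2 + l2) := by clear * - y20; omega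
            have kk72 : (n) ≤ (k + l + l2 + 2) := by clear * - b4 y18 z11 z9; omega
            have r73 : (k - i) % 2 = 0 := by clear * - ev n1p n2p n3p; omega
            have r74 : (2 * i2 + l2 - k - l - i3) % 2 = 0 := by clear * - ev n1p n2p n3p; omega
            clear * - al b c D2 n2 kk66 kk67 kk68 kk69 kk70 kk71 kk72 r73 r74
            exact n2.f0 (rEE (sh al 0 (i + l + 1) (i + l + 1) (by omega)) (sh al 0 (k + l + 1) (k + l + 1) (by omega)) (rotR (k - i) (2 * i2 + l2 - k - l - i3) (i + l + 1) (k + l + 1) (by omega) (fun t h1 h2 => (qf b al 0 t (t + (k - i)) (by omega))) (fun t h1 h2 => (cE (pb D2 al 0 t (t + (i2 + l2 - i3 + 1)) (by omega)) (pb c al 0 (t + (i2 + l2 - i3 + 1)) (t + (2 * i2 + l2 - k - l - i3)) (by omega))))))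
      · have kk75 : (j + k + i2 + l2 + 3) ≤ (n + 2 * i + i3) := by clear * - b1 z7 z8 z9; omega
        have kk76 : (j + k + i2 + l2 + 2) ≤ (n + i3) := by clear * - y22 z7 z9; omega
        have kk77 : (i3) ≤ (k) := by clear * - b3 y14 y22 z7 z8 z9; omega
        have kk78 : (i) ≤ (j) := by clear * - y1; omega
        have kk79 : (Q) ≤ (i + l + 1) := by clear * - b0 b1 b2 y18 z7; omega
        have kk80 : (n + i + i3) ≤ (Q + k + i2 + l2 + 1) := by clear * - y14 z8; omega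
        have r81 : (3 * n + j + k + i2 + l2 - i3 + 1) % 2 = 0 := by clear * - ev n1p n2p n3p; omega
        clear * - al s2 b D2 kk75 kk76 kk77 kk78 kk79 kk80 r81
        obtain ⟨t, ht⟩ : ∃ t, 2 * t = (3 * n + j + k + i2 + l2 - i3 + 1) := ⟨(3 * n + j + k + i2 + l2 - i3 + 1) / 2, by omega⟩
        exact al.ninv t (cE (cI (cE (qf D2 al 1 t (t + (i3 - n - i2 - l2 - 1)) (by omega)) (pb b al 0 (t + (i3 - n - i2 - l2 - 1)) (t + (i + i3 - n - k - i2 - l2 - 1)) (by omega))) (qa s2 al 0 (t + (i + i3 - n - k - i2 - l2 - 1)) ((n + j + k + i2 + l2 - i3 + 1) - t) (by omega))) (sh al 2 ((n + j + k + i2 + l2 - i3 + 1) - t) t (by omega)))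

theorem t2c_4 {W : ℤ → G} {n Q i j k l i2 l2 i3 : ℤ} (al : AL W n Q)
    (hy : (0) ≤ (i) ∧ (i) ≤ (j) ∧ (j + 1) ≤ (Q) ∧ (Q) ≤ (k) ∧ (k + 1) ≤ (n) ∧ (Q) ≤ (i + l + 1) ∧ (k + l + 2) ≤ (n) ∧ (Q) ≤ (i2) ∧ (i2) ≤ (i + l + 1) ∧ (Q) ≤ (i2 + l2 + 1) ∧ (i2 + l2 + 2) ≤ (n) ∧ (n) ≤ (k + l + l2 + 2) ∧ (k + l + l2 + 3) ≤ (n + Q) ∧ (0) ≤ (i3) ∧ (n + i3) ≤ (k + l + l2 + 2) ∧ (k + i2 + l2 + 2) ≤ (n + j + i3) ∧ (j + i3 + 1) ≤ (k) ∧ (k + i2 + l2 + 2) ≤ (n + i3) ∧ (i + 2 * i2 + 1) ≤ (2 * Q + k) ∧ (i + l + 1) ≤ (i2 + l2) ∧ (k + l + 1) ≤ (i2 + l2) ∧ (2 * k + 2 * l + 3) ≤ (n + i2) ∧ (i + 1) ≤ (i3))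
    (a1 : Par W (0) (j) (k - j))
    (a2 : Par W (Q + j - k) (j) (k - j))
    (s1 : Ant W (0) (i) (i + j))
    (s2 : Ant W (j + 1) (Q) (i + j))
    (b : Par W (i + 1) (i + l + 1) (k - i))
    (tt : Ant W (Q) (i2) (i + l + i2 + 1))
    (c : Par W (i2 + 1) (i2 + l2 + 1) (k + l - i2 + 1))
    (u1 : Ant W (0) (i3) (k + l + l2 + i3 - n + 2))
    (u2 : Ant W (k + l + l2 - n + 3) (Q) (k + l + l2 + i3 - n + 2))
    (D1 : Par W (i3 + 1) (Q) (i2 + l2 - i3 + 1))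
    (D2 : Par W (i2 + l2 + 2) (n) (i3 - i2 - l2 - 1))
    {L : ℤ} (mx : ∀ a b g, 0 < g → g < n → Par W a b g → b - a ≤ L)
    (hL : L ≤ (n - j - 3) ∧ L ≤ (n + Q - k - 3) ∧ L ≤ (n - l - 3) ∧ L ≤ (n + i - k - 2) ∧ L ≤ (n - l2 - 3) ∧ L ≤ (n + i3 - Q - 2) ∧ L ≤ (i2 + l2 - 1) ∧ L ≤ (n + i2 - k - l - 3) ∧ L ≤ (Q + i2 + l2 - i - l - 3))
    (bd0 : Bd W n L (j) (i) (k))
    (bd2 : Bd W n L (k + l + l2 - n + 2) (i3) (i2 + l2 + 1))
    (n1 : Nd W (j) (i) (k))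
    (n2 : Nd W (i + l + 1) (i2) (k + l + 1))
    (n3 : Nd W (k + l + l2 - n + 2) (i3) (i2 + l2 + 1))
    (b0 : (2 * l2 + 3) ≤ (n))
    (b1 : (2 * Q + i2) ≤ (k + l + 2 * i3 + 1))
    (b2 : (n + i + l + i3) ≤ (2 * i2 + 2 * l2))
    (b3 : (2 * Q + i2 + l2) ≤ (n + i + j + i3)) : False := by
  have ev := al.ev
  obtain ⟨y0, y1, y2, y3, y4, y5, y6, y7, y8, y9, y10, y11, y12, y13, y14, y15, y16, y17, y18, y19, y20, y21, y22⟩ := id hy
  have n1p := And.intro n1.p1 n1.p2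
  have n2p := And.intro n2.p1 n2.p2
  have n3p := And.intro n3.p1 n3.p2
  by_cases z6 : (2 * Q + k) ≤ (2 * i + l + i2 + 1)
  · exact t2c_5 al hy a1 a2 s1 s2 b tt c u1 u2 D1 D2 mx hL bd0 bd2 n1 n2 n3 (by clear * - b0; omega) (by clear * - b1; omega) (by clear * - b2; omega) (by clear * - b3; omega) (by clear * - z6; omega)
  · exact t2c_6 al hy a1 a2 s1 s2 b tt c u1 u2 D1 D2 mx hL bd0 bd2 n1 n2 n3 (by clear * - b0; omega) (by clear * - b1; omega) (by clear * - b2; omega) (by clear * - b3; omega) (by clear * - z6; omega)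

theorem t2c_3 {W : ℤ → G} {n Q i j k l i2 l2 i3 : ℤ} (al : AL W n Q)
    (hy : (0) ≤ (i) ∧ (i) ≤ (j) ∧ (j + 1) ≤ (Q) ∧ (Q) ≤ (k) ∧ (k + 1) ≤ (n) ∧ (Q) ≤ (i + l + 1) ∧ (k + l + 2) ≤ (n) ∧ (Q) ≤ (i2) ∧ (i2) ≤ (i + l + 1) ∧ (Q) ≤ (i2 + l2 + 1) ∧ (i2 + l2 + 2) ≤ (n) ∧ (n) ≤ (k + l + l2 + 2) ∧ (k + l + l2 + 3) ≤ (n + Q) ∧ (0) ≤ (i3) ∧ (n + i3) ≤ (k + l + l2 + 2) ∧ (k + i2 + l2 + 2) ≤ (n + j + i3) ∧ (j + i3 + 1) ≤ (k) ∧ (k + i2 + l2 + 2) ≤ (n + i3) ∧ (i + 2 * i2 + 1) ≤ (2 * Q + k) ∧ (i + l + 1) ≤ (i2 + l2) ∧ (k + l + 1) ≤ (i2 + l2) ∧ (2 * k + 2 * l + 3) ≤ (n + i2) ∧ (i + 1) ≤ (i3))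
    (a1 : Par W (0) (j) (k - j))
    (a2 : Par W (Q + j - k) (j) (k - j))
    (s1 : Ant W (0) (i) (i + j))
    (s2 : Ant W (j + 1) (Q) (i + j))
    (b : Par W (i + 1) (i + l + 1) (k - i))
    (tt : Ant W (Q) (i2) (i + l + i2 + 1))
    (c : Par W (i2 + 1) (i2 + l2 + 1) (k + l - i2 + 1))
    (u1 : Ant W (0) (i3) (k + l + l2 + i3 - n + 2))
    (u2 : Ant W (k + l + l2 - n + 3) (Q) (k + l + l2 + i3 - n + 2))
    (D1 : Par W (i3 + 1) (Q) (i2 + l2 - i3 + 1))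
    (D2 : Par W (i2 + l2 + 2) (n) (i3 - i2 - l2 - 1))
    {L : ℤ} (mx : ∀ a b g, 0 < g → g < n → Par W a b g → b - a ≤ L)
    (hL : L ≤ (n - j - 3) ∧ L ≤ (n + Q - k - 3) ∧ L ≤ (n - l - 3) ∧ L ≤ (n + i - k - 2) ∧ L ≤ (n - l2 - 3) ∧ L ≤ (n + i3 - Q - 2) ∧ L ≤ (i2 + l2 - 1) ∧ L ≤ (n + i2 - k - l - 3) ∧ L ≤ (Q + i2 + l2 - i - l - 3))
    (bd0 : Bd W n L (j) (i) (k))
    (bd2 : Bd W n L (k + l + l2 - n + 2) (i3) (i2 + l2 + 1))
    (n1 : Nd W (j) (i) (k))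
    (n2 : Nd W (i + l + 1) (i2) (k + l + 1))
    (n3 : Nd W (k + l + l2 - n + 2) (i3) (i2 + l2 + 1))
    (b0 : (2 * l2 + 3) ≤ (n))
    (b1 : (2 * Q + i2) ≤ (k + l + 2 * i3 + 1))
    (b2 : (n + i + l + i3) ≤ (2 * i2 + 2 * l2)) : False := by
  have ev := al.ev
  obtain ⟨y0, y1, y2, y3, y4, y5, y6, y7, y8, y9, y10, y11, y12, y13, y14, y15, y16, y17, y18, y19, y20, y21, y22⟩ := id hy
  have n1p := And.intro n1.p1 n1.p2
  have n2p := And.intro n2.p1 n2.p2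
  have n3p := And.intro n3.p1 n3.p2
  by_cases z4 : (n + i + j + i3 + 1) ≤ (2 * Q + i2 + l2)
  · by_cases z5 : (i2 + l2 + i3 + 2) ≤ (n + i + j)
    · by_cases v1 : (Q + i2 + l2 + 1) ≤ (n + i + j)
      · have kk17 : (n + i + j + i3 + 1) ≤ (2 * Q + i2 + l2) := by clear * - z4; omega
        have kk18 : (i + j + i2 + l2 + 2) ≤ (n + i3) := by clear * - y16 y17 y22; omega
        have kk19 : (Q + i2 + l2 + 1) ≤ (n + i + j) := by clear * - v1; omega
        have kk20 : (0) ≤ (i) := by clear * - y0; omega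
        have r21 : (i + j + i3 - n - i2 - l2 - 1) % 2 = 0 := by clear * - ev n1p n2p n3p; omega
        clear * - al s2 D2 kk17 kk18 kk19 kk20 r21
        obtain ⟨t, ht⟩ : ∃ t, 2 * t = (i + j + i3 - n - i2 - l2 - 1) := ⟨(i + j + i3 - n - i2 - l2 - 1) / 2, by omega⟩
        exact al.ninv t (cE (cI (pb D2 al (-1) t (t + (n + i2 + l2 - i3 + 1)) (by omega)) (ab s2 al 1 (t + (n + i2 + l2 - i3 + 1)) ((i + j + i3 - i2 - l2 - 1) - t) (by omega))) (sh al (-1) ((i + j + i3 - i2 - l2 - 1) - t) t (by omega)))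
      · have kk22 : (i2 + l2 + i3 + 3) ≤ (n + i + j) := by clear * - z5 ev n1p n2p n3p; omega
        have kk23 : (i + j + i2 + l2 + 2) ≤ (n + i3) := by clear * - y16 y17 y22; omega
        have kk24 : (n + i + j) ≤ (Q + i2 + l2 + 1) := by clear * - v1; omega
        have kk25 : (0) ≤ (i) := by clear * - y0; omega
        have r26 : (i + j + i3 - n - i2 - l2 - 1) % 2 = 0 := by clear * - ev n1p n2p n3p; omega
        clear * - al s2 D2 kk22 kk23 kk24 kk25 r26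
        obtain ⟨t, ht⟩ : ∃ t, 2 * t = (i + j + i3 - n - i2 - l2 - 1) := ⟨(i + j + i3 - n - i2 - l2 - 1) / 2, by omega⟩
        exact al.ninv t (cE (cI (pb D2 al (-1) t (t + (n + i2 + l2 - i3 + 1)) (by omega)) (ab s2 al 1 (t + (n + i2 + l2 - i3 + 1)) ((i + j + i3 - i2 - l2 - 1) - t) (by omega))) (sh al (-1) ((i + j + i3 - i2 - l2 - 1) - t) t (by omega)))
    · have kk27 : (i + l + l2 + 4) ≤ (n + i3) := by clear * - b0 b1 b2 y13 y18 y21; omega
      have kk28 : (n + i) ≤ (l + l2 + i3 + 1) := by clear * - y14 y15 z5; omega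
      have kk29 : (i3) ≤ (i + l + 1) := by clear * - b0 b2 y8; omega
      have kk30 : (0) ≤ (i + 1) := by clear * - y0; omega
      have r31 : (n + 2 * k + l + l2 + i3 - i + 2) % 2 = 0 := by clear * - ev n1p n2p n3p; omega
      clear * - al b u1 kk27 kk28 kk29 kk30 r31
      obtain ⟨t, ht⟩ : ∃ t, 2 * t = (n + 2 * k + l + l2 + i3 - i + 2) := ⟨(n + 2 * k + l + l2 + i3 - i + 2) / 2, by omega⟩
      exact al.ninv t (cE (cE (ab u1 al 1 t ((k + l + l2 + i3 + 2) - t) (by omega)) (qf b al 0 ((k + l + l2 + i3 + 2) - t) ((2 * k + l + l2 + i3 - i + 2) - t) (by omega))) (sh al 1 ((2 * k + l + l2 + i3 - i + 2) - t) t (by omega)))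
  · exact t2c_4 al hy a1 a2 s1 s2 b tt c u1 u2 D1 D2 mx hL bd0 bd2 n1 n2 n3 (by clear * - b0; omega) (by clear * - b1; omega) (by clear * - b2; omega) (by clear * - z4; omega)

theorem t2c_2 {W : ℤ → G} {n Q i j k l i2 l2 i3 : ℤ} (al : AL W n Q)
    (hy : (0) ≤ (i) ∧ (i) ≤ (j) ∧ (j + 1) ≤ (Q) ∧ (Q) ≤ (k) ∧ (k + 1) ≤ (n) ∧ (Q) ≤ (i + l + 1) ∧ (k + l + 2) ≤ (n) ∧ (Q) ≤ (i2) ∧ (i2) ≤ (i + l + 1) ∧ (Q) ≤ (i2 + l2 + 1) ∧ (i2 + l2 + 2) ≤ (n) ∧ (n) ≤ (k + l + l2 + 2) ∧ (k + l + l2 + 3) ≤ (n + Q) ∧ (0) ≤ (i3) ∧ (n + i3) ≤ (k + l + l2 + 2) ∧ (k + i2 + l2 + 2) ≤ (n + j + i3) ∧ (j + i3 + 1) ≤ (k) ∧ (k + i2 + l2 + 2) ≤ (n + i3) ∧ (i + 2 * i2 + 1) ≤ (2 * Q + k) ∧ (i + l + 1) ≤ (i2 + l2) ∧ (k + l + 1) ≤ (i2 + l2) ∧ (2 * k + 2 * l + 3) ≤ (n + i2) ∧ (i + 1) ≤ (i3))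
    (a1 : Par W (0) (j) (k - j))
    (a2 : Par W (Q + j - k) (j) (k - j))
    (s1 : Ant W (0) (i) (i + j))
    (s2 : Ant W (j + 1) (Q) (i + j))
    (b : Par W (i + 1) (i + l + 1) (k - i))
    (tt : Ant W (Q) (i2) (i + l + i2 + 1))
    (c : Par W (i2 + 1) (i2 + l2 + 1) (k + l - i2 + 1))
    (u1 : Ant W (0) (i3) (k + l + l2 + i3 - n + 2))
    (u2 : Ant W (k + l + l2 - n + 3) (Q) (k + l + l2 + i3 - n + 2))
    (D1 : Par W (i3 + 1) (Q) (i2 + l2 - i3 + 1))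
    (D2 : Par W (i2 + l2 + 2) (n) (i3 - i2 - l2 - 1))
    {L : ℤ} (mx : ∀ a b g, 0 < g → g < n → Par W a b g → b - a ≤ L)
    (hL : L ≤ (n - j - 3) ∧ L ≤ (n + Q - k - 3) ∧ L ≤ (n - l - 3) ∧ L ≤ (n + i - k - 2) ∧ L ≤ (n - l2 - 3) ∧ L ≤ (n + i3 - Q - 2) ∧ L ≤ (i2 + l2 - 1) ∧ L ≤ (n + i2 - k - l - 3) ∧ L ≤ (Q + i2 + l2 - i - l - 3))
    (bd0 : Bd W n L (j) (i) (k))
    (bd2 : Bd W n L (k + l + l2 - n + 2) (i3) (i2 + l2 + 1))
    (n1 : Nd W (j) (i) (k))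
    (n2 : Nd W (i + l + 1) (i2) (k + l + 1))
    (n3 : Nd W (k + l + l2 - n + 2) (i3) (i2 + l2 + 1))
    (b0 : (2 * l2 + 3) ≤ (n))
    (b1 : (2 * Q + i2) ≤ (k + l + 2 * i3 + 1)) : False := by
  have ev := al.ev
  obtain ⟨y0, y1, y2, y3, y4, y5, y6, y7, y8, y9, y10, y11, y12, y13, y14, y15, y16, y17, y18, y19, y20, y21, y22⟩ := id hy
  have n1p := And.intro n1.p1 n1.p2
  have n2p := And.intro n2.p1 n2.p2
  have n3p := And.intro n3.p1 n3.p2
  by_cases z3 : (2 * i2 + 2 * l2 + 1) ≤ (n + i + l + i3)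
  · have kk8 : (i + 1) ≤ (k) := by clear * - y18 y7; omega
    have kk9 : (k + l + i3 + 1) ≤ (2 * i2 + l2) := by clear * - b0 y14 y20; omega
    have kk10 : (2 * i2 + l2) ≤ (k + 2 * l + i3 + 1) := by clear * - y14 y22 z3; omega
    have kk11 : (2 * i2 + l2) ≤ (i + k + 2 * l + 1) := by clear * - y14 z3; omega
    have kk12 : (2 * k + 2 * l + 3) ≤ (n + i2) := by clear * - y21; omega
    have kk13 : (k + l) ≤ (i2 + l2) := by clear * - y20; omega
    have kk14 : (n) ≤ (k + l + l2 + 2) := by clear * - y13 y14; omega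
    have r15 : (k - i) % 2 = 0 := by clear * - ev n1p n2p n3p; omega
    have r16 : (2 * i2 + l2 - k - l - i3) % 2 = 0 := by clear * - ev n1p n2p n3p; omega
    clear * - al b c D2 n2 kk8 kk9 kk10 kk11 kk12 kk13 kk14 r15 r16
    exact n2.f0 (rEE (sh al (-1) (i + l + 1) (i + l - n + 1) (by omega)) (sh al (-1) (k + l + 1) (k + l - n + 1) (by omega)) (rotR (k - i) (2 * i2 + l2 - k - l - i3) (i + l - n + 1) (k + l - n + 1) (by omega) (fun t h1 h2 => (cE (qf b al (-1) t (t + (n + k - i)) (by omega)) (sh al (-1) (t + (n + k - i)) (t + (k - i)) (by omega)))) (fun t h1 h2 => (cE (cE (pb D2 al (-1) t (t + (n + i2 + l2 - i3 + 1)) (by omega)) (pb c al 0 (t + (n + i2 + l2 - i3 + 1)) (t + (n + 2 * i2 + l2 - k - l - i3)) (by omega))) (sh al (-1) (t + (n + 2 * i2 + l2 - k - l - i3)) (t + (2 * i2 + l2 - k - l - i3)) (by omega))))))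
  · exact t2c_3 al hy a1 a2 s1 s2 b tt c u1 u2 D1 D2 mx hL bd0 bd2 n1 n2 n3 (by clear * - b0; omega) (by clear * - b1; omega) (by clear * - z3; omega)

theorem t2c_1 {W : ℤ → G} {n Q i j k l i2 l2 i3 : ℤ} (al : AL W n Q)
    (hy : (0) ≤ (i) ∧ (i) ≤ (j) ∧ (j + 1) ≤ (Q) ∧ (Q) ≤ (k) ∧ (k + 1) ≤ (n) ∧ (Q) ≤ (i + l + 1) ∧ (k + l + 2) ≤ (n) ∧ (Q) ≤ (i2) ∧ (i2) ≤ (i + l + 1) ∧ (Q) ≤ (i2 + l2 + 1) ∧ (i2 + l2 + 2) ≤ (n) ∧ (n) ≤ (k + l + l2 + 2) ∧ (k + l + l2 + 3) ≤ (n + Q) ∧ (0) ≤ (i3) ∧ (n + i3) ≤ (k + l + l2 + 2) ∧ (k + i2 + l2 + 2) ≤ (n + j + i3) ∧ (j + i3 + 1) ≤ (k) ∧ (k + i2 + l2 + 2) ≤ (n + i3) ∧ (i + 2 * i2 + 1) ≤ (2 * Q + k) ∧ (i + l + 1) ≤ (i2 + l2) ∧ (k + l + 1) ≤ (i2 + l2) ∧ (2 * k + 2 * l + 3) ≤ (n + i2) ∧ (i + 1) ≤ (i3))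
    (a1 : Par W (0) (j) (k - j))
    (a2 : Par W (Q + j - k) (j) (k - j))
    (s1 : Ant W (0) (i) (i + j))
    (s2 : Ant W (j + 1) (Q) (i + j))
    (b : Par W (i + 1) (i + l + 1) (k - i))
    (tt : Ant W (Q) (i2) (i + l + i2 + 1))
    (c : Par W (i2 + 1) (i2 + l2 + 1) (k + l - i2 + 1))
    (u1 : Ant W (0) (i3) (k + l + l2 + i3 - n + 2))
    (u2 : Ant W (k + l + l2 - n + 3) (Q) (k + l + l2 + i3 - n + 2))
    (D1 : Par W (i3 + 1) (Q) (i2 + l2 - i3 + 1))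
    (D2 : Par W (i2 + l2 + 2) (n) (i3 - i2 - l2 - 1))
    {L : ℤ} (mx : ∀ a b g, 0 < g → g < n → Par W a b g → b - a ≤ L)
    (hL : L ≤ (n - j - 3) ∧ L ≤ (n + Q - k - 3) ∧ L ≤ (n - l - 3) ∧ L ≤ (n + i - k - 2) ∧ L ≤ (n - l2 - 3) ∧ L ≤ (n + i3 - Q - 2) ∧ L ≤ (i2 + l2 - 1) ∧ L ≤ (n + i2 - k - l - 3) ∧ L ≤ (Q + i2 + l2 - i - l - 3))
    (bd0 : Bd W n L (j) (i) (k))
    (bd2 : Bd W n L (k + l + l2 - n + 2) (i3) (i2 + l2 + 1))
    (n1 : Nd W (j) (i) (k))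
    (n2 : Nd W (i + l + 1) (i2) (k + l + 1))
    (n3 : Nd W (k + l + l2 - n + 2) (i3) (i2 + l2 + 1))
    (b0 : (2 * l2 + 3) ≤ (n)) : False := by
  have ev := al.ev
  obtain ⟨y0, y1, y2, y3, y4, y5, y6, y7, y8, y9, y10, y11, y12, y13, y14, y15, y16, y17, y18, y19, y20, y21, y22⟩ := id hy
  have n1p := And.intro n1.p1 n1.p2
  have n2p := And.intro n2.p1 n2.p2
  have n3p := And.intro n3.p1 n3.p2
  by_cases z2 : (k + l + 2 * i3 + 2) ≤ (2 * Q + i2)
  · have kk4 : (k + l + i2 + 2 * l2 + 5) ≤ (2 * n + 2 * i3) := by clear * - y13 y17 y3 z2; omega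
    have kk5 : (k + l + 2 * i3 + 2) ≤ (2 * Q + i2) := by clear * - z2; omega
    have kk6 : (n + i3) ≤ (k + l + l2 + 2) := by clear * - y14; omega
    have r7 : (k + l + i2 + 2 * l2 - 2 * n + 3) % 2 = 0 := by clear * - ev n1p n2p n3p; omega
    clear * - al u2 D1 kk4 kk5 kk6 r7
    obtain ⟨t, ht⟩ : ∃ t, 2 * t = (k + l + i2 + 2 * l2 - 2 * n + 3) := ⟨(k + l + i2 + 2 * l2 - 2 * n + 3) / 2, by omega⟩
    exact al.ninv t (cI (pb D1 al (-1) t (t + (n + i3 - i2 - l2 - 1)) (by omega)) (qa u2 al 0 (t + (n + i3 - i2 - l2 - 1)) t (by omega)))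
  · exact t2c_2 al hy a1 a2 s1 s2 b tt c u1 u2 D1 D2 mx hL bd0 bd2 n1 n2 n3 (by clear * - b0; omega) (by clear * - z2; omega)

theorem t2c {W : ℤ → G} {n Q i j k l i2 l2 i3 : ℤ} (al : AL W n Q)
    (hy : (0) ≤ (i) ∧ (i) ≤ (j) ∧ (j + 1) ≤ (Q) ∧ (Q) ≤ (k) ∧ (k + 1) ≤ (n) ∧ (Q) ≤ (i + l + 1) ∧ (k + l + 2) ≤ (n) ∧ (Q) ≤ (i2) ∧ (i2) ≤ (i + l + 1) ∧ (Q) ≤ (i2 + l2 + 1) ∧ (i2 + l2 + 2) ≤ (n) ∧ (n) ≤ (k + l + l2 + 2) ∧ (k + l + l2 + 3) ≤ (n + Q) ∧ (0) ≤ (i3) ∧ (n + i3) ≤ (k + l + l2 + 2) ∧ (k + i2 + l2 + 2) ≤ (n + j + i3) ∧ (j + i3 + 1) ≤ (k) ∧ (k + i2 + l2 + 2) ≤ (n + i3) ∧ (i + 2 * i2 + 1) ≤ (2 * Q + k) ∧ (i + l + 1) ≤ (i2 + l2) ∧ (k + l + 1) ≤ (i2 + l2) ∧ (2 * k + 2 * l + 3) ≤ (n + i2) ∧ (i + 1) ≤ (i3))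
    (a1 : Par W (0) (j) (k - j))
    (a2 : Par W (Q + j - k) (j) (k - j))
    (s1 : Ant W (0) (i) (i + j))
    (s2 : Ant W (j + 1) (Q) (i + j))
    (b : Par W (i + 1) (i + l + 1) (k - i))
    (tt : Ant W (Q) (i2) (i + l + i2 + 1))
    (c : Par W (i2 + 1) (i2 + l2 + 1) (k + l - i2 + 1))
    (u1 : Ant W (0) (i3) (k + l + l2 + i3 - n + 2))
    (u2 : Ant W (k + l + l2 - n + 3) (Q) (k + l + l2 + i3 - n + 2))
    (D1 : Par W (i3 + 1) (Q) (i2 + l2 - i3 + 1))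
    (D2 : Par W (i2 + l2 + 2) (n) (i3 - i2 - l2 - 1))
    {L : ℤ} (mx : ∀ a b g, 0 < g → g < n → Par W a b g → b - a ≤ L)
    (hL : L ≤ (n - j - 3) ∧ L ≤ (n + Q - k - 3) ∧ L ≤ (n - l - 3) ∧ L ≤ (n + i - k - 2) ∧ L ≤ (n - l2 - 3) ∧ L ≤ (n + i3 - Q - 2) ∧ L ≤ (i2 + l2 - 1) ∧ L ≤ (n + i2 - k - l - 3) ∧ L ≤ (Q + i2 + l2 - i - l - 3))
    (bd0 : Bd W n L (j) (i) (k))
    (bd2 : Bd W n L (k + l + l2 - n + 2) (i3) (i2 + l2 + 1))
    (n1 : Nd W (j) (i) (k))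
    (n2 : Nd W (i + l + 1) (i2) (k + l + 1))
    (n3 : Nd W (k + l + l2 - n + 2) (i3) (i2 + l2 + 1)) : False := by
  have ev := al.ev
  obtain ⟨y0, y1, y2, y3, y4, y5, y6, y7, y8, y9, y10, y11, y12, y13, y14, y15, y16, y17, y18, y19, y20, y21, y22⟩ := id hy
  have n1p := And.intro n1.p1 n1.p2
  have n2p := And.intro n2.p1 n2.p2
  have n3p := And.intro n3.p1 n3.p2
  by_cases z1 : (n) ≤ (2 * l2 + 2)
  · have kk1 : (i2) ≤ (k + l) := by clear * - y13 y14 y15 y16; omega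
    have kk2 : (k + l + 2) ≤ (n + i2) := by clear * - y12 y9; omega
    have kk3 : (n) ≤ (2 * l2 + 2) := by clear * - z1; omega
    clear * - al c mx hL kk1 kk2 kk3
    exact absurd (mx (i2 - n + 1) (i2 + l2 - n + 1) (k + l - i2 + 1) (by omega) (by omega) fun t h1 h2 => (cE (qf c al (-1) t (t + (n + k + l - i2 + 1)) (by omega)) (sh al (-1) (t + (n + k + l - i2 + 1)) (t + (k + l - i2 + 1)) (by omega)))) (by omega)
  · exact t2c_1 al hy a1 a2 s1 s2 b tt c u1 u2 D1 D2 mx hL bd0 bd2 n1 n2 n3 (by clear * - z1; omega)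

end Pool.Agent.MP_a38735_al.WL
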