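import Pool.Agent.MP_a38735_al.WT

set_option autoImplicit false
set_option linter.unusedVariables false

namespace Pool.Agent.MP_a38735_al.WL

variable {G : Type*} [Group G]

theorem t2d_9 {W : ℤ → G} {n Q i j k l i2 l2 i3 : ℤ} (al : AL W n Q)
    (hy : (0) ≤ (i) ∧ (i) ≤ (j) ∧ (j + 1) ≤ (Q) ∧ (Q) ≤ (k) ∧ (k + 1) ≤ (n) ∧ (Q) ≤ (i + l + 1) ∧ (k + l + 2) ≤ (n) ∧ (Q) ≤ (i2) ∧ (i2) ≤ (i + l + 1) ∧ (Q) ≤ (i2 + l2 + 1) ∧ (i2 + l2 + 2) ≤ (n) ∧ (n) ≤ (k + l + l2 + 2) ∧ (k + l + l2 + 3) ≤ (n + Q) ∧ (0) ≤ (i3) ∧ (n + i3) ≤ (k + l + l2 + 2) ∧ (k + i2 + l2 + 2) ≤ (n + j + i3) ∧ (j + i3 + 1) ≤ (k) ∧ (k + i2 + l2 + 2) ≤ (n + i3) ∧ (i + 2 * i2 + 1) ≤ (2 * Q + k) ∧ (i + l + 1) ≤ (i2 + l2) ∧ (k + l + 1) ≤ (i2 + l2) ∧ (n + i2) ≤ (2 * k + 2 * l + 2) ∧ (i + 1) ≤ (i3))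
    (a1 : Par W (0) (j) (k - j))
    (a2 : Par W (Q + j - k) (j) (k - j))
    (s1 : Ant W (0) (i) (i + j))
    (s2 : Ant W (j + 1) (Q) (i + j))
    (b : Par W (i + 1) (i + l + 1) (k - i))
    (tt : Ant W (Q) (i2) (i + l + i2 + 1))
    (c : Par W (i2 + 1) (i2 + l2 + 1) (k + l - i2 + 1))
    (u1 : Ant W (0) (i3) (k + l + l2 + i3 - n + 2))
    (u2 : Ant W (k + l + l2 - n + 3) (Q) (k + l + l2 + i3 - n + 2))
    (D1 : Par W (i3 + 1) (Q) (i2 + l2 - i3 + 1))
    (D2 : Par W (i2 + l2 + 2) (n) (i3 - i2 - l2 - 1))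
    {L : ℤ} (mx : ∀ a b g, 0 < g → g < n → Par W a b g → b - a ≤ L)
    (hL : L ≤ (n - j - 3) ∧ L ≤ (n + Q - k - 3) ∧ L ≤ (n - l - 3) ∧ L ≤ (n + i - k - 2) ∧ L ≤ (n - l2 - 3) ∧ L ≤ (n + i3 - Q - 2) ∧ L ≤ (i2 + l2 - 1) ∧ L ≤ (n + i2 - k - l - 3) ∧ L ≤ (Q + i2 + l2 - i - l - 3))
    (bd0 : Bd W n L (j) (i) (k))
    (bd2 : Bd W n L (k + l + l2 - n + 2) (i3) (i2 + l2 + 1))
    (n1 : Nd W (j) (i) (k))
    (n2 : Nd W (i + l + 1) (i2) (k + l + 1))
    (n3 : Nd W (k + l + l2 - n + 2) (i3) (i2 + l2 + 1))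
    (b0 : (2 * l2 + 3) ≤ (n))
    (b1 : (2 * n + 2 * i2) ≤ (i + 3 * k + 4 * l + 4))
    (b2 : (i + 2 * i3 + 1) ≤ (k))
    (b3 : (n + i) ≤ (k + i2 + l2))
    (b4 : (2 * Q + i2 + l2) ≤ (n + i + j + i3))
    (b5 : (n + i3) ≤ (j + l + l2 + 2))
    (b6 : (2 * n + j) ≤ (k + 2 * l + 2 * l2 + 5)) : False := by
  have ev := al.ev
  obtain ⟨y0, y1, y2, y3, y4, y5, y6, y7, y8, y9, y10, y11, y12, y13, y14, y15, y16, y17, y18, y19, y20, y21, y22⟩ := id hy
  have n1p := And.intro n1.p1 n1.p2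
  have n2p := And.intro n2.p1 n2.p2
  have n3p := And.intro n3.p1 n3.p2
  by_cases z23 : (k) ≤ (i2)
  · by_cases z24 : (i + 2 * i2 + l2) ≤ (j + 2 * k + l + 1)
    · by_cases v11 : (Q + i + 2 * i2 + l2) ≤ (3 * k + l + i3)
      · have kk264 : (k + l + 1) ≤ (i2 + l2) := by clear * - y20; omega
        have kk265 : (2 * i2 + l2) ≤ (2 * k + 2 * l) := by clear * - b0 b1 b2 b4 b6 y18 y20; linarith
        have kk266 : (j + 1) ≤ (k) := by clear * - y13 y16; omega
        have kk267 : (0) ≤ (j) := by clear * - b1 b2 b3 b4 b5 v11 y12 y20 z23; linarith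
        have kk268 : (2 * k + l) ≤ (i + 2 * i2 + l2) := by clear * - y0 y20 z23; omega
        have kk269 : (i + 2 * i2 + l2 + 1) ≤ (3 * k + l) := by clear * - b0 b3 b4 b6 y16 y18 z24; linarith
        have kk270 : (0) ≤ (i3) := by clear * - y13; omega
        have kk271 : (i3 + 1) ≤ (k) := by clear * - b3 b4 b5 b6 y12 y16; omega
        have kk272 : (k + i3) ≤ (Q + j + 1) := by clear * - b5 y12; omega
        have kk273 : (k) ≤ (i2) := by clear * - z23; omega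
        have kk274 : (k + l) ≤ (i2 + l2) := by clear * - y20; omega
        have kk275 : (Q + 2 * i2 + l2) ≤ (2 * k + 2 * l + i3 + 1) := by clear * - b0 b2 b3 b4 b6 y18 y20; linarith
        have kk276 : (2 * k + l) ≤ (i + 2 * i2 + l2 + 1) := by clear * - y0 y20 z23; omega
        have kk277 : (0) ≤ (i3 + 1) := by clear * - y13; omega
        have kk278 : (Q + i + 2 * i2 + l2) ≤ (3 * k + l + i3) := by clear * - v11; omega
        have kk279 : (Q) ≤ (k) := by clear * - b3 b4 y16; omega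
        have r280 : (2 * k + l + i3 - i - 2 * i2 - l2) % 2 = 0 := by clear * - ev n1p n2p n3p; omega
        have r281 : (k - j) % 2 = 0 := by clear * - ev n1p n2p n3p; omega
        clear * - al a1 b c D1 n3 kk264 kk265 kk266 kk267 kk268 kk269 kk270 kk271 kk272 kk273 kk274 kk275 kk276 kk277 kk278 kk279 r280 r281
        exact ivt0 (-n) (j - n) (k - j) (i + 2 * i2 + l2 - n - 2 * k - l + 1) (Q + i + 2 * i2 + l2 - n - 2 * k - l - i3) (2 * k + l + i3 - i - 2 * i2 - l2) (i + 2 * i2 + l2 - n - 2 * k - l) (i3 - n) 0 (fun t h1 h2 => (cE (qf a1 al (-1) t (t + (n + k - j)) (by omega)) (sh al (-1) (t + (n + k - j)) (t + (k - j)) (by omega)))) (fun t h1 h2 => (cE (sh al 1 t (t + (n)) (by omega)) (cE (cE (pb (show Par W (k + l + 2) (2 * k + 2 * l - i2 + 2) (n + i + i2 - 2 * k - l - 1) from fun t h1 h2 => (cE (sh al (-1) t (t + (-n)) (by omega)) (cE (cE (pb c al (-1) (t + (-n)) (t + (i2 - k - l - 1)) (by omega)) (pb b al 0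 (t + (i2 - k - l - 1)) (t + (i + i2 - 2 * k - l - 1)) (by omega))) (sh al 1 (t + (i + i2 - 2 * k - l - 1)) (t + (n + i + i2 - 2 * k - l - 1)) (by omega))))) al (-1) (t + (n)) (t + (n + 2 * k + l - i - i2 + 1)) (by omega)) (pb D1 al 0 (t + (n + 2 * k + l - i - i2 + 1)) (t + (n + 2 * k + l + i3 - i - 2 * i2 - l2)) (by omega))) (sh al (-1) (t + (n + 2 * k + l + i3 - i - 2 * i2 - l2)) (t + (2 * k + l + i3 - i - 2 * i2 - l2)) (by omega))))) (fun hh => n3.f1 (rEE (sh al (-1) (i3) (i3 - n) (by omega)) (cE (qf (show Par W (k + l + 2) (2 * k + 2 * l - i2 + 2) (n + i + i2 - 2 * k - l - 1) from fun t h1 h2 => (cE (sh al (-1) t (t + (-n)) (by omega)) (cE (cE (pb c al (-1) (t + (-n)) (t + (i2 - k - l - 1)) (by omega)) (pb b al 0 (t + (i2 - k - l - 1)) (t + (i + i2 - 2 * k - l - 1)) (by omega))) (sh al 1 (t + (i + i2 - 2 * k - l - 1)) (t + (n + i + i2 - 2 * k - l - 1)) (by omega))))) al 0 (i2 + l2 + 1) (n + i + 2 * i2 + l2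 - 2 * k - l) (by omega)) (sh al (-2) (n + i + 2 * i2 + l2 - 2 * k - l) (i + 2 * i2 + l2 - n - 2 * k - l) (by omega))) (Eq.symm (Eq.symm hh)))) (by omega) (by omega)
      · have kk282 : (k + l + 1) ≤ (i2 + l2) := by clear * - y20; omega
        have kk283 : (2 * i2 + l2) ≤ (2 * k + 2 * l) := by clear * - b0 b1 b2 b4 b6 y18 y20; linarith
        have kk284 : (j + 1) ≤ (k) := by clear * - y13 y16; omega
        have kk285 : (0) ≤ (j) := by clear * - b0 b1 b2 b3 b4 v11 y18 z23; linarith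
        have kk286 : (2 * k + l) ≤ (i + 2 * i2 + l2) := by clear * - b3 b4 v11 y13 y16; omega
        have kk287 : (i + 2 * i2 + l2 + 1) ≤ (3 * k + l) := by clear * - b0 b3 b4 b6 y16 y18 z24; linarith
        have kk288 : (0) ≤ (i3) := by clear * - y13; omega
        have kk289 : (i3 + 1) ≤ (k) := by clear * - b0 b3 b4 b6 v11 y16 y18 z24; linarith
        have kk290 : (i + 2 * i2 + l2) ≤ (j + 2 * k + l + 1) := by clear * - z24; omega
        have kk291 : (k) ≤ (i2) := by clear * - z23; omega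
        have kk292 : (k + l) ≤ (i2 + l2) := by clear * - y20; omega
        have kk293 : (Q + 2 * i2 + l2) ≤ (2 * k + 2 * l + i3 + 1) := by clear * - b0 b2 b3 b4 b6 y18 y20; linarith
        have kk294 : (2 * k + l) ≤ (i + 2 * i2 + l2 + 1) := by clear * - b3 b4 v11 y13 y16; omega
        have kk295 : (0) ≤ (i3 + 1) := by clear * - y13; omega
        have kk296 : (2 * k + l + i3) ≤ (i + 2 * i2 + l2) := by clear * - b3 b4 v11 y16; omega
        have kk297 : (3 * k + l + i3) ≤ (Q + i + 2 * i2 + l2) := by clear * - v11; omega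
        have r298 : (2 * k + l + i3 - i - 2 * i2 - l2) % 2 = 0 := by clear * - ev n1p n2p n3p; omega
        have r299 : (k - j) % 2 = 0 := by clear * - ev n1p n2p n3p; omega
        clear * - al a1 b c D1 n3 kk282 kk283 kk284 kk285 kk286 kk287 kk288 kk289 kk290 kk291 kk292 kk293 kk294 kk295 kk296 kk297 r298 r299
        exact ivt0 (-n) (j - n) (k - j) (i + 2 * i2 + l2 - n - 2 * k - l + 1) (k - n) (2 * k + l + i3 - i - 2 * i2 - l2) (i + 2 * i2 + l2 - n - 2 * k - l) (i3 - n) 0 (fun t h1 h2 => (cE (qf a1 al (-1) t (t + (n + k - j)) (by omega)) (sh al (-1) (t + (n + k - j)) (t + (k - j)) (by omega)))) (fun t h1 h2 => (cE (sh al 1 t (t + (n)) (by omega)) (cE (cE (pb (show Par W (k + l + 2) (2 * k + 2 * l - i2 + 2) (n + i + i2 - 2 * k - l - 1) from fun t h1 h2 => (cE (sh al (-1) t (t + (-n)) (by omega)) (cE (cE (pb c al (-1) (t + (-n)) (t + (i2 - k - l - 1)) (by omega)) (pb b al 0 (t + (i2 - k - l - 1)) (t + (i + i2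 - 2 * k - l - 1)) (by omega))) (sh al 1 (t + (i + i2 - 2 * k - l - 1)) (t + (n + i + i2 - 2 * k - l - 1)) (by omega))))) al (-1) (t + (n)) (t + (n + 2 * k + l - i - i2 + 1)) (by omega)) (pb D1 al 0 (t + (n + 2 * k + l - i - i2 + 1)) (t + (n + 2 * k + l + i3 - i - 2 * i2 - l2)) (by omega))) (sh al (-1) (t + (n + 2 * k + l + i3 - i - 2 * i2 - l2)) (t + (2 * k + l + i3 - i - 2 * i2 - l2)) (by omega))))) (fun hh => n3.f1 (rEE (sh al (-1) (i3) (i3 - n) (by omega)) (cE (qf (show Par W (k + l + 2) (2 * k + 2 * l - i2 + 2) (n + i + i2 - 2 * k - l - 1) from fun t h1 h2 => (cE (sh al (-1) t (t + (-n)) (by omega)) (cE (cE (pb c al (-1) (t + (-n)) (t + (i2 - k - l - 1)) (by omega)) (pb b al 0 (t + (i2 - k - l - 1)) (t + (i + i2 - 2 * k - l - 1)) (by omega))) (sh al 1 (t + (i + i2 - 2 * k - l - 1)) (t + (n + i + i2 - 2 * k - l - 1)) (by omega))))) al 0 (i2 + l2 + 1) (n + i + 2 * i2 + l2 - 2 * k - l) (by omega)) (sh al (-2)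 (n + i + 2 * i2 + l2 - 2 * k - l) (i + 2 * i2 + l2 - n - 2 * k - l) (by omega))) (Eq.symm (Eq.symm hh)))) (by omega) (by omega)
    · have kk300 : (i + 1) ≤ (k) := by clear * - b0 b2 b3 b4 b6 y18 z23 z24; linarith
      have kk301 : (n + j) ≤ (k + 2 * l + 2) := by clear * - b0 b6; omega
      have kk302 : (n + 2 * i + j) ≤ (2 * Q + k + 2 * l) := by clear * - b0 b2 b3 b4 b6 y18 z23 z24; linarith
      have kk303 : (n + 2 * i + j + 2 * i2) ≤ (2 * Q + 3 * k + 2 * l) := by clear * - b0 b2 b3 b4 b6 y18 z23 z24; linarith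
      have kk304 : (j + 2 * k + 2 * l + 4) ≤ (n + i + 2 * i2) := by clear * - b3 b4 y12 y16 z24; omega
      have kk305 : (j + 2 * k + 2) ≤ (n + i + 2 * i2) := by clear * - b0 b2 b3 b4 b5 b6 y18 z23 z24; linarith
      have kk306 : (j + 2) ≤ (n + i) := by clear * - b0 b2 b3 b4 b5 b6 y18 z23 z24; linarith
      have kk307 : (n + i) ≤ (k + l + l2 + 2) := by clear * - b1 b2 y20 y22; omega
      have kk308 : (Q + k + l + 1) ≤ (n + i + j) := by clear * - b0 b2 b3 b4 b5 y18 z24; linarith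
      have kk309 : (n + i + i2) ≤ (2 * k + 2 * l + 2) := by clear * - b1 b2 y22; omega
      have kk310 : (i) ≤ (j) := by clear * - b2 b3 b4 b5 b6 y12 y22; linarith
      have kk311 : (Q + k + l + 1) ≤ (n + j + i2) := by clear * - b0 b2 b3 b4 b5 b6 y18 z23 z24; linarith
      have kk312 : (Q) ≤ (k + l + 1) := by clear * - b0 b2 b3 b4 b5 b6 y18 z23 z24; linarith
      have r313 : (i + j + i2 - n - k - l - 1) % 2 = 0 := by clear * - ev n1p n2p n3p; omega
      have r314 : (k - i) % 2 = 0 := by clear * - ev n1p n2p n3p; omega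
      have r315 : (i + l + i2 - 2 * n + 1) % 2 = 0 := by clear * - ev n1p n2p n3p; omega
      clear * - al s2 b tt c kk300 kk301 kk302 kk303 kk304 kk305 kk306 kk307 kk308 kk309 kk310 kk311 kk312 r313 r314 r315
      exact mid2 al (k - i) (i + j + i2 - n - k - l - 1) (i + l + i2 - 2 * n + 1) (j - n + 1) (Q - n) 0 (i - n + 1) (k + l - n + 1) (by omega) (fun t h1 h2 => ⟨by omega, (cE (cE (qa s2 al (-1) t ((i + j - n) - t) (by omega)) (pb c al (-1) ((i + j - n) - t) ((i + j + i2 - k - l - 1) - t) (by omega))) (sh al (-1) ((i + j + i2 - k - l - 1) - t) ((i + j + i2 - n - k - l - 1) - t) (by omega)))⟩) (fun t h1 h2 => ⟨by omega, (cE (qa tt al (-1) t ((i + l + i2 - n + 1) - t) (by omega)) (sh al (-1) ((i + l + i2 - n + 1) - t) ((i + l + i2 - 2 * n + 1) - t) (by omega)))⟩) (fun t h1 h2 => (cE (qf b al (-1) t (t + (n + k - i)) (by omega)) (sh al (-1) (t + (n + k - i)) (t + (k - i)) (by omega))))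
  · by_cases z25 : (n + i + i2) ≤ (3 * k + l + 1)
    · have kk316 : (i + 2 * i2 + l2 + 1) ≤ (2 * k + l + i3) := by clear * - y17 z25; omega
      have kk317 : (2 * k + l + i3 + 1) ≤ (n + i + 2 * i2 + l2) := by clear * - b0 b1 b5 b6 y17 y20 z23; linarith
      have kk318 : (2 * k + l + i3 + 2) ≤ (n + i + i2) := by clear * - b0 b4 b5 b6 y12 y16 y20; linarith
      have kk319 : (i2) ≤ (k) := by clear * - z23; omega
      have kk320 : (k + l) ≤ (i2 + l2) := by clear * - y20; omega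
      have kk321 : (i) ≤ (i3) := by clear * - y22; omega
      have kk322 : (n + i3) ≤ (i + l + i2 + l2 + 2) := by clear * - b0 b5 b6 y0 y20 z23; omega
      clear * - al b c D2 kk316 kk317 kk318 kk319 kk320 kk321 kk322
      exact al.ubP (2 * k + l + i3 - i - 2 * i2 - l2) (by omega) (by omega) fun t h1 h2 => (cE (sh al 1 t (t + (n)) (by omega)) (cE (cE (qf D2 al 0 (t + (n)) (t + (n + i3 - i2 - l2 - 1)) (by omega)) (pb (show Par W (2 * k + l - i2 + 2) (2 * k + 2 * l - i2 + 2) (n + i + i2 - 2 * k - l - 1) from fun t h1 h2 => (cE (sh al (-1) t (t + (-n)) (by omega)) (cE (cE (pb c al (-1) (t + (-n)) (t + (i2 - k - l - 1)) (by omega)) (pb b al 0 (t + (i2 - k - l - 1)) (t + (i + i2 - 2 * k - l - 1)) (by omega))) (sh al 1 (t + (i + i2 - 2 * k - l - 1)) (t + (n + i + i2 - 2 * k - l - 1)) (by omega))))) al (-1) (t + (n + i3 - i2 - l2 - 1)) (t + (n + 2 * k + l + i3 - i - 2 * i2 - l2)) (by omega))) (sh al (-1) (t + (n +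 2 * k + l + i3 - i - 2 * i2 - l2)) (t + (2 * k + l + i3 - i - 2 * i2 - l2)) (by omega))))
    · by_cases v12 : (Q + i + 2 * i2 + l2) ≤ (3 * k + l + i3)
      · have kk323 : (2 * k + l + 1) ≤ (2 * i2 + l2) := by clear * - b3 z25; omega
        have kk324 : (2 * i2 + l2) ≤ (2 * k + 2 * l) := by clear * - b0 b1 b3 b5 b6 y22 z23 z25; linarith
        have kk325 : (j + 1) ≤ (k) := by clear * - b0 b3 b6 z23 z25; omega
        have kk326 : (0) ≤ (j) := by clear * - b0 b3 b5 y13 z23 z25; omega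
        have kk327 : (0) ≤ (i3) := by clear * - y13; omega
        have kk328 : (i3 + 1) ≤ (k) := by clear * - b0 b3 b5 b6 z23 z25; omega
        have kk329 : (2 * k + l) ≤ (i + 2 * i2 + l2) := by clear * - b3 y0 z25; omega
        have kk330 : (i + 2 * i2 + l2 + 1) ≤ (3 * k + l) := by clear * - b0 b3 b5 b6 y22 z23 z25; linarith
        have kk331 : (k + i3) ≤ (Q + j + 1) := by clear * - b5 y12; omega
        have kk332 : (i2) ≤ (k) := by clear * - z23; omega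
        have kk333 : (k + l) ≤ (i2 + l2) := by clear * - b3 z23 z25; omega
        have kk334 : (2 * k + l) ≤ (2 * i2 + l2) := by clear * - b3 z25; omega
        have kk335 : (Q + 2 * i2 + l2) ≤ (2 * k + 2 * l + i3 + 1) := by clear * - b0 b1 b3 b5 b6 v12 y22 z23 z25; linarith
        have kk336 : (0) ≤ (i3 + 1) := by clear * - y13; omega
        have kk337 : (2 * k + l) ≤ (i + 2 * i2 + l2 + 1) := by clear * - b3 y0 z25; omega
        have kk338 : (Q) ≤ (k) := by clear * - b3 b4 y16; omega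
        have kk339 : (Q + i + 2 * i2 + l2) ≤ (3 * k + l + i3) := by clear * - v12; omega
        have r340 : (i + 2 * i2 + l2 - 2 * k - l - i3) % 2 = 0 := by clear * - ev n1p n2p n3p; omega
        have r341 : (k - j) % 2 = 0 := by clear * - ev n1p n2p n3p; omega
        clear * - al a1 b c D1 n3 kk323 kk324 kk325 kk326 kk327 kk328 kk329 kk330 kk331 kk332 kk333 kk334 kk335 kk336 kk337 kk338 kk339 r340 r341
        exact ivt0 (-n) (j - n) (k - j) (i3 - n + 1) (Q - n) (i + 2 * i2 + l2 - 2 * k - l - i3) (i3 - n) (i + 2 * i2 + l2 - n - 2 * k - l) 0 (fun t h1 h2 => (cE (qf a1 al (-1) t (t + (n + k - j)) (by omega)) (sh al (-1) (t + (n + k - j)) (t + (k - j)) (by omega)))) (fun t h1 h2 => (cE (cE (qf D1 al (-1) t (t + (n + i2 + l2 - i3 + 1)) (by omega)) (qf (show Par W (2 * k + l - i2 + 2) (2 * k + 2 * l - i2 + 2) (n + i + i2 - 2 * k - l - 1) from fun t h1 h2 => (cE (sh al (-1) t (t + (-n)) (by omega)) (cE (cE (pb c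 al (-1) (t + (-n)) (t + (i2 - k - l - 1)) (by omega)) (pb b al 0 (t + (i2 - k - l - 1)) (t + (i + i2 - 2 * k - l - 1)) (by omega))) (sh al 1 (t + (i + i2 - 2 * k - l - 1)) (t + (n + i + i2 - 2 * k - l - 1)) (by omega))))) al 0 (t + (n + i2 + l2 - i3 + 1)) (t + (2 * n + i + 2 * i2 + l2 - 2 * k - l - i3)) (by omega))) (sh al (-2) (t + (2 * n + i + 2 * i2 + l2 - 2 * k - l - i3)) (t + (i + 2 * i2 + l2 - 2 * k - l - i3)) (by omega)))) (fun hh => n3.f1 (rEE (sh al (-1) (i3) (i3 - n) (by omega)) (cE (qf (show Par W (2 * k + l - i2 + 2) (2 * k + 2 * l - i2 + 2) (n + i + i2 - 2 * k - l - 1) from fun t h1 h2 => (cE (sh al (-1) t (t + (-n)) (by omega)) (cE (cE (pb c al (-1) (t + (-n)) (t + (i2 - k - l - 1)) (by omega)) (pb b al 0 (t + (i2 - k - l - 1)) (t + (i + i2 - 2 * k - l - 1)) (by omega))) (sh al 1 (t + (i + i2 - 2 * k - l - 1)) (t + (n + i + i2 - 2 * k - l - 1)) (by omega))))) al 0 (i2 + l2 + 1) (n + i + 2 * i2 +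 l2 - 2 * k - l) (by omega)) (sh al (-2) (n + i + 2 * i2 + l2 - 2 * k - l) (i + 2 * i2 + l2 - n - 2 * k - l) (by omega))) (Eq.symm hh))) (by omega) (by omega)
      · have kk342 : (2 * k + l + 1) ≤ (2 * i2 + l2) := by clear * - b3 z25; omega
        have kk343 : (2 * i2 + l2) ≤ (2 * k + 2 * l) := by clear * - b0 b3 b4 b5 b6 v12 y22 z23 z25; linarith
        have kk344 : (j + 1) ≤ (k) := by clear * - b0 b3 b6 z23 z25; omega
        have kk345 : (0) ≤ (j) := by clear * - b0 b3 b4 b5 b6 v12 y22 z23 z25; linarith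
        have kk346 : (0) ≤ (i3) := by clear * - b0 b3 b4 b6 v12 y22 z23; linarith
        have kk347 : (i3 + 1) ≤ (k) := by clear * - b0 b3 b5 b6 z23 z25; omega
        have kk348 : (2 * k + l) ≤ (i + 2 * i2 + l2) := by clear * - b0 b3 b4 b6 v12 y22 z23 z25; linarith
        have kk349 : (i + 2 * i2 + l2 + 1) ≤ (3 * k + l) := by clear * - b0 b3 b5 b6 y22 z23 z25; linarith
        have kk350 : (i + 2 * i2 + l2) ≤ (j + 2 * k + l + 1) := by clear * - b0 b5 y22 z23; omega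
        have kk351 : (i2) ≤ (k) := by clear * - z23; omega
        have kk352 : (k + l) ≤ (i2 + l2) := by clear * - b3 z23 z25; omega
        have kk353 : (2 * k + l) ≤ (2 * i2 + l2) := by clear * - b3 z25; omega
        have kk354 : (Q + 2 * i2 + l2) ≤ (2 * k + 2 * l + i3 + 1) := by clear * - b0 b3 b4 b5 b6 v12 y22 z23 z25; linarith
        have kk355 : (0) ≤ (i3 + 1) := by clear * - b0 b3 b4 b6 v12 y22 z23; linarith
        have kk356 : (2 * k + l) ≤ (i + 2 * i2 + l2 + 1) := by clear * - b0 b3 b4 b6 v12 y22 z23 z25; linarith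
        have kk357 : (2 * k + l + i3) ≤ (i + 2 * i2 + l2) := by clear * - b3 b4 v12 y16; omega
        have kk358 : (3 * k + l + i3) ≤ (Q + i + 2 * i2 + l2) := by clear * - v12; omega
        have r359 : (i + 2 * i2 + l2 - 2 * k - l - i3) % 2 = 0 := by clear * - ev n1p n2p n3p; omega
        have r360 : (k - j) % 2 = 0 := by clear * - ev n1p n2p n3p; omega
        clear * - al a1 b c D1 n3 kk342 kk343 kk344 kk345 kk346 kk347 kk348 kk349 kk350 kk351 kk352 kk353 kk354 kk355 kk356 kk357 kk358 r359 r360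
        exact ivt0 (-n) (j - n) (k - j) (i3 - n + 1) (3 * k + l + i3 - n - i - 2 * i2 - l2) (i + 2 * i2 + l2 - 2 * k - l - i3) (i3 - n) (i + 2 * i2 + l2 - n - 2 * k - l) 0 (fun t h1 h2 => (cE (qf a1 al (-1) t (t + (n + k - j)) (by omega)) (sh al (-1) (t + (n + k - j)) (t + (k - j)) (by omega)))) (fun t h1 h2 => (cE (cE (qf D1 al (-1) t (t + (n + i2 + l2 - i3 + 1)) (by omega)) (qf (show Par W (2 * k + l - i2 + 2) (2 * k + 2 * l - i2 + 2) (n + i + i2 - 2 * k - l - 1) from fun t h1 h2 => (cE (sh al (-1) t (t + (-n)) (by omega)) (cE (cE (pb c al (-1) (t + (-n)) (t + (i2 - k - l - 1)) (by omega)) (pb b al 0 (t + (i2 - k - l - 1)) (t + (i + i2 - 2 * k - l - 1)) (by omega))) (sh al 1 (t + (i + i2 - 2 * k - l - 1)) (t + (n + i + i2 - 2 * k - l - 1)) (by omega))))) al 0 (t + (n + i2 + l2 - i3 + 1)) (t + (2 * n + i + 2 * i2 + l2 - 2 * k - l - i3)) (by omega))) (sh al (-2) (t + (2 * n + i + 2 * i2 + l2 - 2 * k - l - i3))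 (t + (i + 2 * i2 + l2 - 2 * k - l - i3)) (by omega)))) (fun hh => n3.f1 (rEE (sh al (-1) (i3) (i3 - n) (by omega)) (cE (qf (show Par W (2 * k + l - i2 + 2) (2 * k + 2 * l - i2 + 2) (n + i + i2 - 2 * k - l - 1) from fun t h1 h2 => (cE (sh al (-1) t (t + (-n)) (by omega)) (cE (cE (pb c al (-1) (t + (-n)) (t + (i2 - k - l - 1)) (by omega)) (pb b al 0 (t + (i2 - k - l - 1)) (t + (i + i2 - 2 * k - l - 1)) (by omega))) (sh al 1 (t + (i + i2 - 2 * k - l - 1)) (t + (n + i + i2 - 2 * k - l - 1)) (by omega))))) al 0 (i2 + l2 + 1) (n + i + 2 * i2 + l2 - 2 * k - l) (by omega)) (sh al (-2) (n + i + 2 * i2 + l2 - 2 * k - l) (i + 2 * i2 + l2 - n - 2 * k - l) (by omega))) (Eq.symm hh))) (by omega) (by omega)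

theorem t2d_8 {W : ℤ → G} {n Q i j k l i2 l2 i3 : ℤ} (al : AL W n Q)
    (hy : (0) ≤ (i) ∧ (i) ≤ (j) ∧ (j + 1) ≤ (Q) ∧ (Q) ≤ (k) ∧ (k + 1) ≤ (n) ∧ (Q) ≤ (i + l + 1) ∧ (k + l + 2) ≤ (n) ∧ (Q) ≤ (i2) ∧ (i2) ≤ (i + l + 1) ∧ (Q) ≤ (i2 + l2 + 1) ∧ (i2 + l2 + 2) ≤ (n) ∧ (n) ≤ (k + l + l2 + 2) ∧ (k + l + l2 + 3) ≤ (n + Q) ∧ (0) ≤ (i3) ∧ (n + i3) ≤ (k + l + l2 + 2) ∧ (k + i2 + l2 + 2) ≤ (n + j + i3) ∧ (j + i3 + 1) ≤ (k) ∧ (k + i2 + l2 + 2) ≤ (n + i3) ∧ (i + 2 * i2 + 1) ≤ (2 * Q + k) ∧ (i + l + 1) ≤ (i2 + l2) ∧ (k + l + 1) ≤ (i2 + l2) ∧ (n + i2) ≤ (2 * k + 2 * l + 2) ∧ (i + 1) ≤ (i3))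
    (a1 : Par W (0) (j) (k - j))
    (a2 : Par W (Q + j - k) (j) (k - j))
    (s1 : Ant W (0) (i) (i + j))
    (s2 : Ant W (j + 1) (Q) (i + j))
    (b : Par W (i + 1) (i + l + 1) (k - i))
    (tt : Ant W (Q) (i2) (i + l + i2 + 1))
    (c : Par W (i2 + 1) (i2 + l2 + 1) (k + l - i2 + 1))
    (u1 : Ant W (0) (i3) (k + l + l2 + i3 - n + 2))
    (u2 : Ant W (k + l + l2 - n + 3) (Q) (k + l + l2 + i3 - n + 2))
    (D1 : Par W (i3 + 1) (Q) (i2 + l2 - i3 + 1))
    (D2 : Par W (i2 + l2 + 2) (n) (i3 - i2 - l2 - 1))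
    {L : ℤ} (mx : ∀ a b g, 0 < g → g < n → Par W a b g → b - a ≤ L)
    (hL : L ≤ (n - j - 3) ∧ L ≤ (n + Q - k - 3) ∧ L ≤ (n - l - 3) ∧ L ≤ (n + i - k - 2) ∧ L ≤ (n - l2 - 3) ∧ L ≤ (n + i3 - Q - 2) ∧ L ≤ (i2 + l2 - 1) ∧ L ≤ (n + i2 - k - l - 3) ∧ L ≤ (Q + i2 + l2 - i - l - 3))
    (bd0 : Bd W n L (j) (i) (k))
    (bd2 : Bd W n L (k + l + l2 - n + 2) (i3) (i2 + l2 + 1))
    (n1 : Nd W (j) (i) (k))
    (n2 : Nd W (i + l + 1) (i2) (k + l + 1))
    (n3 : Nd W (k + l + l2 - n + 2) (i3) (i2 + l2 + 1))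
    (b0 : (2 * l2 + 3) ≤ (n))
    (b1 : (2 * n + 2 * i2) ≤ (i + 3 * k + 4 * l + 4))
    (b2 : (i + 2 * i3 + 1) ≤ (k))
    (b3 : (n + i) ≤ (k + i2 + l2))
    (b4 : (2 * Q + i2 + l2) ≤ (n + i + j + i3))
    (b5 : (n + i3) ≤ (j + l + l2 + 2))
    (b6 : (k + 2 * l + 2 * l2 + 6) ≤ (2 * n + j)) : False := by
  have ev := al.ev
  obtain ⟨y0, y1, y2, y3, y4, y5, y6, y7, y8, y9, y10, y11, y12, y13, y14, y15, y16, y17, y18, y19, y20, y21, y22⟩ := id hy
  have n1p := And.intro n1.p1 n1.p2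
  have n2p := And.intro n2.p1 n2.p2
  have n3p := And.intro n3.p1 n3.p2
  by_cases z15 : (k) ≤ (j + 2 * i3)
  · by_cases v8 : (n) ≤ (l + l2 + i3 + 3)
    · have kk165 : (j + 1) ≤ (k) := by clear * - y16 z15; omega
      have kk166 : (k + 2 * l + 2 * l2 + 6) ≤ (2 * n + j) := by clear * - b6; omega
      have kk167 : (0) ≤ (j + k) := by clear * - b6 y20 y21; omega
      have kk168 : (2 * l + 2 * l2 + 2 * i3 + 6) ≤ (2 * n + j + k) := by clear * - b5 b6 v8 y16; omega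
      have kk169 : (n) ≤ (l + l2 + i3 + 3) := by clear * - v8; omega
      have r170 : (k + l + l2 + i3 - 3 * n + 2) % 2 = 0 := by clear * - ev n1p n2p n3p; omega
      have r171 : (k - j) % 2 = 0 := by clear * - ev n1p n2p n3p; omega
      clear * - al a1 u1 kk165 kk166 kk167 kk168 kk169 r170 r171
      exact midP al (k - j) (k + l + l2 + i3 - 3 * n + 2) (l + l2 + i3 - 2 * n + 3) (-n) (k - n) (by omega) (fun t h1 h2 => (cE (qa u1 al (-1) t ((k + l + l2 + i3 - 2 * n + 2) - t) (by omega)) (sh al (-1) ((k + l + l2 + i3 - 2 * n + 2) - t) ((k + l + l2 + i3 - 3 * n + 2) - t) (by omega)))) (fun t h1 h2 => (cE (qf a1 al (-1) t (t + (n + k - j)) (by omega)) (sh al (-1) (t + (n + k - j)) (t + (k - j)) (by omega))))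
    · have kk172 : (j + 1) ≤ (k) := by clear * - y16 z15; omega
      have kk173 : (k) ≤ (j + 2 * i3) := by clear * - z15; omega
      have kk174 : (2 * n) ≤ (j + k + 2 * l + 2 * l2 + 2 * i3 + 6) := by clear * - b1 v8 y20 y22 z15; omega
      have kk175 : (0) ≤ (j + k) := by clear * - b1 v8 y20 y22 z15; omega
      have kk176 : (l + l2 + i3 + 3) ≤ (n) := by clear * - v8; omega
      have r177 : (k + l + l2 + i3 - 3 * n + 2) % 2 = 0 := by clear * - ev n1p n2p n3p; omega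
      have r178 : (k - j) % 2 = 0 := by clear * - ev n1p n2p n3p; omega
      clear * - al a1 u1 kk172 kk173 kk174 kk175 kk176 r177 r178
      exact midP al (k - j) (k + l + l2 + i3 - 3 * n + 2) (-n) (-n) (k - n) (by omega) (fun t h1 h2 => (cE (qa u1 al (-1) t ((k + l + l2 + i3 - 2 * n + 2) - t) (by omega)) (sh al (-1) ((k + l + l2 + i3 - 2 * n + 2) - t) ((k + l + l2 + i3 - 3 * n + 2) - t) (by omega)))) (fun t h1 h2 => (cE (qf a1 al (-1) t (t + (n + k - j)) (by omega)) (sh al (-1) (t + (n + k - j)) (t + (k - j)) (by omega))))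
  · by_cases z16 : (2 * Q + i2 + l2) ≤ (i + k + 2 * l + i3 + 1)
    · by_cases z17 : (i + k + 2 * l + i3 + 3) ≤ (3 * i2 + l2)
      · by_cases z18 : (i + k + 2 * l + i2 + l2 + 5) ≤ (2 * n + i3)
        · by_cases v9 : (n + i3) ≤ (2 * i2 + l2 + 1)
          · have kk179 : (i + k + 2 * l + i2 + l2 + 5) ≤ (2 * n + i3) := by clear * - z18; omega
            have kk180 : (2 * Q + i2 + l2) ≤ (i + k + 2 * l + i3 + 2) := by clear * - z16; omega
            have kk181 : (k + l) ≤ (i2 + l2) := by clear * - y20; omega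
            have kk182 : (n) ≤ (k + l + l2 + 2) := by clear * - b1 v9 y20 z18; omega
            have kk183 : (n + i3) ≤ (2 * i2 + l2 + 1) := by clear * - v9; omega
            have kk184 : (i3 + 1) ≤ (Q) := by clear * - b1 b6 v9 y17 y18 y20 z15; linarith
            have r185 : (2 * n + i + 3 * i2 + l2 - k - i3 + 1) % 2 = 0 := by clear * - ev n1p n2p n3p; omega
            clear * - al tt c D2 kk179 kk180 kk181 kk182 kk183 kk184 r185
            obtain ⟨t, ht⟩ : ∃ t, 2 * t = (2 * n + i + 3 * i2 + l2 - k - i3 + 1) := ⟨(2 * n + i + 3 * i2 + l2 - k - i3 + 1) / 2, by omega⟩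
            exact al.ninv t (cE (cE (ab tt al 1 t ((n + i + l + i2 + 1) - t) (by omega)) (qf (show Par W (i3 + 1) (n + i3 - i2 - l2 - 1) (2 * i2 + l2 - k - l - i3) from fun t h1 h2 => (cE (sh al (-1) t (t + (-n)) (by omega)) (cE (pb D2 al (-1) (t + (-n)) (t + (i2 + l2 - i3 + 1)) (by omega)) (pb c al 0 (t + (i2 + l2 - i3 + 1)) (t + (2 * i2 + l2 - k - l - i3)) (by omega))))) al 0 ((n + i + l + i2 + 1) - t) ((n + i + 3 * i2 + l2 - k - i3 + 1) - t) (by omega))) (sh al 1 ((n + i + 3 * i2 + l2 - k - i3 + 1) - t) t (by omega)))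
          · have kk186 : (i + k + 2 * l + i3 + 3) ≤ (3 * i2 + l2) := by clear * - z17; omega
            have kk187 : (2 * Q + i2 + l2) ≤ (i + k + 2 * l + i3 + 2) := by clear * - z16; omega
            have kk188 : (k + l) ≤ (i2 + l2) := by clear * - y20; omega
            have kk189 : (n) ≤ (k + l + l2 + 2) := by clear * - b1 v9 y20 z17; omega
            have kk190 : (2 * i2 + l2 + 1) ≤ (n + i3) := by clear * - v9; omega
            have kk191 : (i3 + 1) ≤ (Q) := by clear * - b1 b5 v9 y12 y20 z15 z17; linarith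
            have r192 : (2 * n + i + 3 * i2 + l2 - k - i3 + 1) % 2 = 0 := by clear * - ev n1p n2p n3p; omega
            clear * - al tt c D2 kk186 kk187 kk188 kk189 kk190 kk191 r192
            obtain ⟨t, ht⟩ : ∃ t, 2 * t = (2 * n + i + 3 * i2 + l2 - k - i3 + 1) := ⟨(2 * n + i + 3 * i2 + l2 - k - i3 + 1) / 2, by omega⟩
            exact al.ninv t (cE (cE (ab tt al 1 t ((n + i + l + i2 + 1) - t) (by omega)) (qf (show Par W (i3 + 1) (n + i3 - i2 - l2 - 1) (2 * i2 + l2 - k - l - i3) from fun t h1 h2 => (cE (sh al (-1) t (t + (-n)) (by omega)) (cE (pb D2 al (-1) (t + (-n)) (t + (i2 + l2 - i3 + 1)) (by omega)) (pb c al 0 (t + (i2 + l2 - i3 + 1)) (t + (2 * i2 + l2 - k - l - i3)) (by omega))))) al 0 ((n + i + l + i2 + 1) - t) ((n + i + 3 * i2 + l2 - k - i3 + 1) - t) (by omega))) (sh al 1 ((n + i + 3 * i2 + l2 - k - i3 + 1) - t) t (by omega)))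
        · have kk193 : (2 * Q + k) ≤ (2 * i + l + i2 + 1) := by clear * - b6 y17 y20 z15 z16 z18; omega
          have kk194 : (2 * i + l + 2) ≤ (k + i2) := by clear * - b3 b6 y22 z15; omega
          have kk195 : (i + i2 + 1) ≤ (Q + k) := by clear * - y18 z16 z17; omega
          have kk196 : (k) ≤ (i + l + 1) := by clear * - b1 b6 y17 y20 z15 z17 z18; linarith
          have r197 : (2 * n + 2 * i + l + i2 - k + 1) % 2 = 0 := by clear * - ev n1p n2p n3p; omega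
          clear * - al b tt kk193 kk194 kk195 kk196 r197
          obtain ⟨t, ht⟩ : ∃ t, 2 * t = (2 * n + 2 * i + l + i2 - k + 1) := ⟨(2 * n + 2 * i + l + i2 - k + 1) / 2, by omega⟩
          exact al.ninv t (cE (cE (qa tt al 1 t ((n + i + l + i2 + 1) - t) (by omega)) (pb b al 0 ((n + i + l + i2 + 1) - t) ((n + 2 * i + l + i2 - k + 1) - t) (by omega))) (sh al 1 ((n + 2 * i + l + i2 - k + 1) - t) t (by omega)))
      · have kk198 : (2 * n + i + i2) ≤ (3 * k + 2 * l + l2 + i3 + 3) := by clear * - b3 z17; omega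
        have kk199 : (3 * k + 2 * l + l2 + 4) ≤ (2 * n + i + i2 + i3) := by clear * - b0 y20 z17; omega
        have kk200 : (i + l) ≤ (l2 + i3) := by clear * - b3 b6 y20 y22 z15 z17; omega
        have kk201 : (k + l2 + i3 + 2) ≤ (n + i) := by clear * - b0 b3 b5 y20 z15 z17; omega
        have kk202 : (n + i3) ≤ (k + l + l2 + 2) := by clear * - b1 b2 y20; omega
        have kk203 : (n + i) ≤ (k + l + l2 + 2) := by clear * - b1 b5 b6 y20 y22 z15; omega
        have r204 : (k + i2 + l2 + i3 - i + 1) % 2 = 0 := by clear * - ev n1p n2p n3p; omega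
        clear * - al b c u1 kk198 kk199 kk200 kk201 kk202 kk203 r204
        obtain ⟨t, ht⟩ : ∃ t, 2 * t = (k + i2 + l2 + i3 - i + 1) := ⟨(k + i2 + l2 + i3 - i + 1) / 2, by omega⟩
        exact al.ninv t (cE (cI (qf c al 0 t (t + (k + l - i2 + 1)) (by omega)) (qa u1 al 1 (t + (k + l - i2 + 1)) ((i2 + l2 + i3 + 1) - t) (by omega))) (qf b al 0 ((i2 + l2 + i3 + 1) - t) t (by omega)))
    · by_cases z19 : (i + 2 * i2 + l2 + 1) ≤ (2 * k + l + i3)
      · by_cases v10 : (2 * i2 + l2) ≤ (2 * k + l)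
        · have kk205 : (j + 1) ≤ (k) := by clear * - y13 z15; omega
          have kk206 : (i + 2 * i2 + l2 + 1) ≤ (2 * k + l + i3) := by clear * - z19; omega
          have kk207 : (2 * k + l + i3) ≤ (i + j + 2 * i2 + l2 + 1) := by clear * - b0 b5 y0 y20; omega
          have kk208 : (2 * k + l + i3) ≤ (j + 2 * i2 + l2) := by clear * - b0 b5 y20; omega
          have kk209 : (k + i2 + l2 + 2) ≤ (n + i3) := by clear * - y17; omega
          have kk210 : (k + l) ≤ (i2 + l2) := by clear * - y20; omega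
          have kk211 : (n) ≤ (k + l + l2 + 2) := by clear * - b0 b1 b5 y20 z15 z19; omega
          have kk212 : (2 * i2 + l2) ≤ (2 * k + l) := by clear * - v10; omega
          have kk213 : (n + i2) ≤ (2 * k + 2 * l + 2) := by clear * - y21; omega
          have r214 : (k - j) % 2 = 0 := by clear * - ev n1p n2p n3p; omega
          have r215 : (2 * k + l + i3 - i - 2 * i2 - l2) % 2 = 0 := by clear * - ev n1p n2p n3p; omega
          clear * - al a1 b c D2 n1 kk205 kk206 kk207 kk208 kk209 kk210 kk211 kk212 kk213 r214 r215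
          exact n1.f0 (rEE (sh al 1 (j) (n + j) (by omega)) (sh al 1 (k) (n + k) (by omega)) (rotR (k - j) (2 * k + l + i3 - i - 2 * i2 - l2) (n + j) (n + k) (by omega) (fun t h1 h2 => (cE (qf a1 al 1 t (t + (k - n - j)) (by omega)) (sh al 1 (t + (k - n - j)) (t + (k - j)) (by omega)))) (fun t h1 h2 => (cE (cE (qf b al 1 t (t + (k - n - i)) (by omega)) (pb (show Par W (i3 + 1) (n + i3 - i2 - l2 - 1) (2 * i2 + l2 - k - l - i3) from fun t h1 h2 => (cE (sh al (-1) t (t + (-n)) (by omega)) (cE (pb D2 al (-1) (t + (-n)) (t + (i2 + l2 - i3 + 1)) (by omega)) (pb c al 0 (t + (i2 + l2 - i3 + 1)) (t + (2 * i2 + l2 - k - l - i3)) (by omega))))) al 0 (t + (k - n - i)) (t + (2 * k + l + i3 - n - i - 2 * i2 - l2)) (by omega))) (sh al 1 (t + (2 * k + l + i3 - n - i - 2 * i2 - l2)) (t + (2 * k + l + i3 - i - 2 * i2 - l2)) (by omega))))))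
        · have kk216 : (j + 1) ≤ (k) := by clear * - y13 z15; omega
          have kk217 : (i + 2 * i2 + l2 + 1) ≤ (2 * k + l + i3) := by clear * - z19; omega
          have kk218 : (2 * k + l + i3) ≤ (i + j + 2 * i2 + l2 + 1) := by clear * - b1 b4 b6 v10 z15 z16; omega
          have kk219 : (i3) ≤ (j) := by clear * - b1 b4 b5 b6 v10 z15 z16 z19; linarith
          have kk220 : (k + i2 + l2 + 2) ≤ (n + i3) := by clear * - y17; omega
          have kk221 : (k + l) ≤ (i2 + l2) := by clear * - y20; omega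
          have kk222 : (n) ≤ (k + l + l2 + 2) := by clear * - b1 b6 v10 y20 z15 z19; omega
          have kk223 : (2 * k + l) ≤ (2 * i2 + l2) := by clear * - v10; omega
          have kk224 : (n + i2) ≤ (2 * k + 2 * l + 2) := by clear * - y21; omega
          have r225 : (k - j) % 2 = 0 := by clear * - ev n1p n2p n3p; omega
          have r226 : (2 * k + l + i3 - i - 2 * i2 - l2) % 2 = 0 := by clear * - ev n1p n2p n3p; omega
          clear * - al a1 b c D2 n1 kk216 kk217 kk218 kk219 kk220 kk221 kk222 kk223 kk224 r225 r226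
          exact n1.f0 (rEE (sh al 1 (j) (n + j) (by omega)) (sh al 1 (k) (n + k) (by omega)) (rotR (k - j) (2 * k + l + i3 - i - 2 * i2 - l2) (n + j) (n + k) (by omega) (fun t h1 h2 => (cE (qf a1 al 1 t (t + (k - n - j)) (by omega)) (sh al 1 (t + (k - n - j)) (t + (k - j)) (by omega)))) (fun t h1 h2 => (cE (cE (qf b al 1 t (t + (k - n - i)) (by omega)) (pb (show Par W (i3 + 1) (n + i3 - i2 - l2 - 1) (2 * i2 + l2 - k - l - i3) from fun t h1 h2 => (cE (sh al (-1) t (t + (-n)) (by omega)) (cE (pb D2 al (-1) (t + (-n)) (t + (i2 + l2 - i3 + 1)) (by omega)) (pb c al 0 (t + (i2 + l2 - i3 + 1)) (t + (2 * i2 + l2 - k - l - i3)) (by omega))))) al 0 (t + (k - n - i)) (t + (2 * k + l + i3 - n - i - 2 * i2 - l2)) (by omega))) (sh al 1 (t + (2 * k + l + i3 - n - i - 2 * i2 - l2)) (t + (2 * k + l + i3 - i - 2 * i2 - l2)) (by omega))))))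
      · by_cases z20 : (2 * Q + k) ≤ (2 * i + l + i2 + 2)
        · have kk227 : (2 * i + l + 3) ≤ (k + i2) := by clear * - b3 b6 y22 z15; omega
          have kk228 : (2 * Q + k) ≤ (2 * i + l + i2 + 2) := by clear * - z20; omega
          have kk229 : (k) ≤ (i + l + 1) := by clear * - y17 y21 z19; omega
          have kk230 : (i + i2 + 1) ≤ (Q + k) := by clear * - b3 b6 y18 y22 z15 z20; omega
          have r231 : (2 * i + l + i2 - 2 * n - k + 1) % 2 = 0 := by clear * - ev n1p n2p n3p; omega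
          clear * - al b tt kk227 kk228 kk229 kk230 r231
          obtain ⟨t, ht⟩ : ∃ t, 2 * t = (2 * i + l + i2 - 2 * n - k + 1) := ⟨(2 * i + l + i2 - 2 * n - k + 1) / 2, by omega⟩
          exact al.ninv t (cE (cI (qf b al (-1) t (t + (n + k - i)) (by omega)) (ab tt al 0 (t + (n + k - i)) ((2 * i + l + i2 - n - k + 1) - t) (by omega))) (sh al (-1) ((2 * i + l + i2 - n - k + 1) - t) t (by omega)))
        · by_cases z21 : (2 * j + i2 + 2 * l2 + 3) ≤ (n + 2 * i + k + l)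
          · have kk232 : (3 * k + l + 2) ≤ (n + 2 * i + i2) := by clear * - y0 y17 z19; omega
            have kk233 : (2 * i + l + i2 + 2 * l2 + 5) ≤ (n + 2 * Q + k) := by clear * - b0 z20; omega
            have kk234 : (3 * k + l + 3) ≤ (n + i2 + 2 * i3) := by clear * - b3 y13 y17 z19; omega
            have kk235 : (2 * j + i2 + 2 * l2 + 3) ≤ (n + 2 * i + k + l) := by clear * - z21; omega
            have kk236 : (n) ≤ (j + l + l2 + 3) := by clear * - b1 b4 b5 y22 z19 z20; omega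
            have kk237 : (Q) ≤ (k) := by clear * - b3 b4 y16; omega
            have kk238 : (i + i2) ≤ (2 * k) := by clear * - b1 b3 b4 b6 y22 z15 z19 z20 z21; linarith
            have kk239 : (i) ≤ (k) := by clear * - b3 b4 b5 b6 y22 z15 z19 z20 z21; linarith
            have kk240 : (k + l) ≤ (i2 + l2) := by clear * - y20; omega
            have kk241 : (k + i3) ≤ (2 * i + l + 1) := by clear * - b1 b4 b5 y17 z19 z20 z21; linarith
            have kk242 : (3 * k) ≤ (i + j + i2 + l2 + 1) := by clear * - b1 b3 b4 b5 y17 z19 z20; linarith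
            have r243 : (j + l + l2 + i3 - n + 2) % 2 = 0 := by clear * - ev n1p n2p n3p; omega
            have r244 : (n + 2 * i + i2 - 3 * k - l - 1) % 2 = 0 := by clear * - ev n1p n2p n3p; omega
            clear * - al a1 b c u2 kk232 kk233 kk234 kk235 kk236 kk237 kk238 kk239 kk240 kk241 kk242 r243 r244
            exact midP al (n + 2 * i + i2 - 3 * k - l - 1) (j + l + l2 + i3 - n + 2) (j + l + l2 - n + 3) (3 * k + l - n - i - i2 + 2) (2 * i + l - k + 1) (by omega) (fun t h1 h2 => (cI (qf a1 al 0 t (t + (k - j)) (by omega)) (qa u2 al 0 (t + (k - j)) ((j + l + l2 + i3 - n + 2) - t) (by omega)))) (fun t h1 h2 => (cE (cE (pb c al (-1) t (t + (n + i2 - k - l - 1)) (by omega)) (pb b al 0 (t + (n + i2 - k - l - 1)) (t + (n + i + i2 - 2 * k - l - 1)) (by omega))) (pb b al 0 (t + (n + i + i2 - 2 * k - l - 1)) (t + (n + 2 * i + i2 - 3 * k - l - 1)) (by omega))))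
          · by_cases z22 : (n + i + j + l + 3 * i3 + 2) ≤ (2 * Q + k + 2 * i2 + l2)
            · have kk245 : (k + l + l2 + i3 + 3) ≤ (n + i + j) := by clear * - b0 y0 y17 z15 z21; omega
              have kk246 : (i + k + l + l2 + 4) ≤ (n + j + i3) := by clear * - b0 b6 y13 y17 z15 z21; omega
              have kk247 : (n + i + j + l + 3 * i3 + 2) ≤ (2 * Q + k + 2 * i2 + l2) := by clear * - z22; omega
              have kk248 : (k + l + l2 + i3 + 4) ≤ (n + i + j) := by clear * - b0 y0 y17 z15 z21; omega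
              have kk249 : (k + i2 + l2 + 1) ≤ (n + i3) := by clear * - y17; omega
              have kk250 : (j) ≤ (Q) := by clear * - y2; omega
              have kk251 : (n) ≤ (k + l + l2 + 3) := by clear * - b1 b6 y20 y22 z15; omega
              have kk252 : (n + j + i3) ≤ (2 * k + l + l2 + 2) := by clear * - b1 b4 y16 y22 z19 z20; omega
              have kk253 : (k + l + l2 + 2) ≤ (n + j) := by clear * - b0 b6 y0 y17 z15 z21; omega
              have kk254 : (k + i2 + l2 + 1) ≤ (n + i + i3) := by clear * - y0 y17; omega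
              have r255 : (2 * k + l + i2 + 2 * l2 - 4 * n - j + 3) % 2 = 0 := by clear * - ev n1p n2p n3p; omega
              have r256 : (n + i + j - k - l - l2 - i3 - 2) % 2 = 0 := by clear * - ev n1p n2p n3p; omega
              clear * - al a1 s2 u2 D2 kk245 kk246 kk247 kk248 kk249 kk250 kk251 kk252 kk253 kk254 r255 r256
              exact midP al (n + i + j - k - l - l2 - i3 - 2) (2 * k + l + i2 + 2 * l2 - 4 * n - j + 3) (k + l + l2 + i3 - 2 * n - j + 3) (k + l + l2 + i3 - 2 * n - Q + 3) (i - n) (by omega) (fun t h1 h2 => (cE (cE (cE (ab u2 al (-1) t ((k + l + l2 + i3 - 2 * n + 2) - t) (by omega)) (qf a1 al 0 ((k + l + l2 + i3 - 2 * n + 2) - t) ((2 * k + l + l2 + i3 - 2 * n - j + 2) - t) (by omega))) (pb D2 al 0 ((2 * k + l + l2 + i3 - 2 * n - j + 2) - t) ((2 * k + l + i2 + 2 * l2 - 2 * n - j + 3) - t) (by omega))) (sh al (-2) ((2 * k + l + i2 + 2 * l2 - 2 * n - j + 3) - t) ((2 * k + l + i2 + 2 * l2 -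 4 * n - j + 3) - t) (by omega)))) (fun t h1 h2 => (cE (cII (ab u2 al (-1) t ((k + l + l2 + i3 - 2 * n + 2) - t) (by omega)) (qa s2 al 0 ((k + l + l2 + i3 - 2 * n + 2) - t) (t + (2 * n + i + j - k - l - l2 - i3 - 2)) (by omega))) (sh al (-1) (t + (2 * n + i + j - k - l - l2 - i3 - 2)) (t + (n + i + j - k - l - l2 - i3 - 2)) (by omega))))
            · have kk257 : (l + 2 * i3 + 3) ≤ (j + i2) := by clear * - b0 y0 z15 z21 ev n1p n2p n3p; omega
              have kk258 : (2 * k + l + i2 + 2 * l2 + 4) ≤ (2 * n + j) := by clear * - b0 y0 y17 z15 z21; omega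
              have kk259 : (j + i2) ≤ (k + l + i3 + 1) := by clear * - b0 b1 b3 y16 y22 z19 z20 z22; linarith
              have kk260 : (j) ≤ (Q) := by clear * - y2; omega
              have kk261 : (0) ≤ (i3) := by clear * - y13; omega
              have kk262 : (n + Q + j) ≤ (2 * k + l + l2 + i3 + 3) := by clear * - b3 y0 y2 z15 z22; omega
              have r263 : (2 * k + l + 2 * i3 - 2 * n - j - i2 + 1) % 2 = 0 := by clear * - ev n1p n2p n3p; omega
              clear * - al a2 u2 D2 kk257 kk258 kk259 kk260 kk261 kk262 r263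
              obtain ⟨t, ht⟩ : ∃ t, 2 * t = (2 * k + l + 2 * i3 - 2 * n - j - i2 + 1) := ⟨(2 * k + l + 2 * i3 - 2 * n - j - i2 + 1) / 2, by omega⟩
              exact al.ninv t (cE (cE (cI (pb D2 al (-1) t (t + (n + i2 + l2 - i3 + 1)) (by omega)) (ab u2 al 1 (t + (n + i2 + l2 - i3 + 1)) ((k + l + 2 * i3 - n - i2 + 1) - t) (by omega))) (qf a2 al 0 ((k + l + 2 * i3 - n - i2 + 1) - t) ((2 * k + l + 2 * i3 - n - j - i2 + 1) - t) (by omega))) (sh al (-1) ((2 * k + l + 2 * i3 - n - j - i2 + 1) - t) t (by omega)))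

theorem t2d_7 {W : ℤ → G} {n Q i j k l i2 l2 i3 : ℤ} (al : AL W n Q)
    (hy : (0) ≤ (i) ∧ (i) ≤ (j) ∧ (j + 1) ≤ (Q) ∧ (Q) ≤ (k) ∧ (k + 1) ≤ (n) ∧ (Q) ≤ (i + l + 1) ∧ (k + l + 2) ≤ (n) ∧ (Q) ≤ (i2) ∧ (i2) ≤ (i + l + 1) ∧ (Q) ≤ (i2 + l2 + 1) ∧ (i2 + l2 + 2) ≤ (n) ∧ (n) ≤ (k + l + l2 + 2) ∧ (k + l + l2 + 3) ≤ (n + Q) ∧ (0) ≤ (i3) ∧ (n + i3) ≤ (k + l + l2 + 2) ∧ (k + i2 + l2 + 2) ≤ (n + j + i3) ∧ (j + i3 + 1) ≤ (k) ∧ (k + i2 + l2 + 2) ≤ (n + i3) ∧ (i + 2 * i2 + 1) ≤ (2 * Q + k) ∧ (i + l + 1) ≤ (i2 + l2) ∧ (k + l + 1) ≤ (i2 + l2) ∧ (n + i2) ≤ (2 * k + 2 * l + 2) ∧ (i + 1) ≤ (i3))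
    (a1 : Par W (0) (j) (k - j))
    (a2 : Par W (Q + j - k) (j) (k - j))
    (s1 : Ant W (0) (i) (i + j))
    (s2 : Ant W (j + 1) (Q) (i + j))
    (b : Par W (i + 1) (i + l + 1) (k - i))
    (tt : Ant W (Q) (i2) (i + l + i2 + 1))
    (c : Par W (i2 + 1) (i2 + l2 + 1) (k + l - i2 + 1))
    (u1 : Ant W (0) (i3) (k + l + l2 + i3 - n + 2))
    (u2 : Ant W (k + l + l2 - n + 3) (Q) (k + l + l2 + i3 - n + 2))
    (D1 : Par W (i3 + 1) (Q) (i2 + l2 - i3 + 1))
    (D2 : Par W (i2 + l2 + 2) (n) (i3 - i2 - l2 - 1))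
    {L : ℤ} (mx : ∀ a b g, 0 < g → g < n → Par W a b g → b - a ≤ L)
    (hL : L ≤ (n - j - 3) ∧ L ≤ (n + Q - k - 3) ∧ L ≤ (n - l - 3) ∧ L ≤ (n + i - k - 2) ∧ L ≤ (n - l2 - 3) ∧ L ≤ (n + i3 - Q - 2) ∧ L ≤ (i2 + l2 - 1) ∧ L ≤ (n + i2 - k - l - 3) ∧ L ≤ (Q + i2 + l2 - i - l - 3))
    (bd0 : Bd W n L (j) (i) (k))
    (bd2 : Bd W n L (k + l + l2 - n + 2) (i3) (i2 + l2 + 1))
    (n1 : Nd W (j) (i) (k))
    (n2 : Nd W (i + l + 1) (i2) (k + l + 1))
    (n3 : Nd W (k + l + l2 - n + 2) (i3) (i2 + l2 + 1))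
    (b0 : (2 * l2 + 3) ≤ (n))
    (b1 : (2 * n + 2 * i2) ≤ (i + 3 * k + 4 * l + 4))
    (b2 : (i + 2 * i3 + 1) ≤ (k))
    (b3 : (n + i) ≤ (k + i2 + l2))
    (b4 : (2 * Q + i2 + l2) ≤ (n + i + j + i3))
    (b5 : (n + i3) ≤ (j + l + l2 + 2)) : False := by
  have ev := al.ev
  obtain ⟨y0, y1, y2, y3, y4, y5, y6, y7, y8, y9, y10, y11, y12, y13, y14, y15, y16, y17, y18, y19, y20, y21, y22⟩ := id hy
  have n1p := And.intro n1.p1 n1.p2
  have n2p := And.intro n2.p1 n2.p2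
  have n3p := And.intro n3.p1 n3.p2
  by_cases z14 : (k + 2 * l + 2 * l2 + 6) ≤ (2 * n + j)
  · exact t2d_8 al hy a1 a2 s1 s2 b tt c u1 u2 D1 D2 mx hL bd0 bd2 n1 n2 n3 (by clear * - b0; omega) (by clear * - b1; omega) (by clear * - b2; omega) (by clear * - b3; omega) (by clear * - b4; omega) (by clear * - b5; omega) (by clear * - z14; omega)
  · exact t2d_9 al hy a1 a2 s1 s2 b tt c u1 u2 D1 D2 mx hL bd0 bd2 n1 n2 n3 (by clear * - b0; omega) (by clear * - b1; omega) (by clear * - b2; omega) (by clear * - b3; omega) (by clear * - b4; omega) (by clear * - b5; omega) (by clear * - z14; omega)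

theorem t2d_6 {W : ℤ → G} {n Q i j k l i2 l2 i3 : ℤ} (al : AL W n Q)
    (hy : (0) ≤ (i) ∧ (i) ≤ (j) ∧ (j + 1) ≤ (Q) ∧ (Q) ≤ (k) ∧ (k + 1) ≤ (n) ∧ (Q) ≤ (i + l + 1) ∧ (k + l + 2) ≤ (n) ∧ (Q) ≤ (i2) ∧ (i2) ≤ (i + l + 1) ∧ (Q) ≤ (i2 + l2 + 1) ∧ (i2 + l2 + 2) ≤ (n) ∧ (n) ≤ (k + l + l2 + 2) ∧ (k + l + l2 + 3) ≤ (n + Q) ∧ (0) ≤ (i3) ∧ (n + i3) ≤ (k + l + l2 + 2) ∧ (k + i2 + l2 + 2) ≤ (n + j + i3) ∧ (j + i3 + 1) ≤ (k) ∧ (k + i2 + l2 + 2) ≤ (n + i3) ∧ (i + 2 * i2 + 1) ≤ (2 * Q + k) ∧ (i + l + 1) ≤ (i2 + l2) ∧ (k + l + 1) ≤ (i2 + l2) ∧ (n + i2) ≤ (2 * k + 2 * l + 2) ∧ (i + 1) ≤ (i3))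
    (a1 : Par W (0) (j) (k - j))
    (a2 : Par W (Q + j - k) (j) (k - j))
    (s1 : Ant W (0) (i) (i + j))
    (s2 : Ant W (j + 1) (Q) (i + j))
    (b : Par W (i + 1) (i + l + 1) (k - i))
    (tt : Ant W (Q) (i2) (i + l + i2 + 1))
    (c : Par W (i2 + 1) (i2 + l2 + 1) (k + l - i2 + 1))
    (u1 : Ant W (0) (i3) (k + l + l2 + i3 - n + 2))
    (u2 : Ant W (k + l + l2 - n + 3) (Q) (k + l + l2 + i3 - n + 2))
    (D1 : Par W (i3 + 1) (Q) (i2 + l2 - i3 + 1))
    (D2 : Par W (i2 + l2 + 2) (n) (i3 - i2 - l2 - 1))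
    {L : ℤ} (mx : ∀ a b g, 0 < g → g < n → Par W a b g → b - a ≤ L)
    (hL : L ≤ (n - j - 3) ∧ L ≤ (n + Q - k - 3) ∧ L ≤ (n - l - 3) ∧ L ≤ (n + i - k - 2) ∧ L ≤ (n - l2 - 3) ∧ L ≤ (n + i3 - Q - 2) ∧ L ≤ (i2 + l2 - 1) ∧ L ≤ (n + i2 - k - l - 3) ∧ L ≤ (Q + i2 + l2 - i - l - 3))
    (bd0 : Bd W n L (j) (i) (k))
    (bd2 : Bd W n L (k + l + l2 - n + 2) (i3) (i2 + l2 + 1))
    (n1 : Nd W (j) (i) (k))
    (n2 : Nd W (i + l + 1) (i2) (k + l + 1))
    (n3 : Nd W (k + l + l2 - n + 2) (i3) (i2 + l2 + 1))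
    (b0 : (2 * l2 + 3) ≤ (n))
    (b1 : (2 * n + 2 * i2) ≤ (i + 3 * k + 4 * l + 4))
    (b2 : (i + 2 * i3 + 1) ≤ (k))
    (b3 : (n + i) ≤ (k + i2 + l2))
    (b4 : (2 * Q + i2 + l2) ≤ (n + i + j + i3))
    (b5 : (j + l + l2 + 3) ≤ (n + i3)) : False := by
  have ev := al.ev
  obtain ⟨y0, y1, y2, y3, y4, y5, y6, y7, y8, y9, y10, y11, y12, y13, y14, y15, y16, y17, y18, y19, y20, y21, y22⟩ := id hy
  have n1p := And.intro n1.p1 n1.p2
  have n2p := And.intro n2.p1 n2.p2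
  have n3p := And.intro n3.p1 n3.p2
  by_cases z7 : (2 * n + i + i2) ≤ (3 * k + 2 * l + l2 + i3 + 4)
  · by_cases v2 : (n + i) ≤ (k + l2 + i3 + 2)
    · have kk33 : (3 * k + 2 * l + l2 + 5) ≤ (2 * n + i + i2 + i3) := by clear * - b0 y0 y17 y20; omega
      have kk34 : (i2 + l2 + i3) ≤ (i + k + 2 * l) := by clear * - b0 b1 b2 y20 y8; omega
      have kk35 : (n + i) ≤ (k + l + l2 + 2) := by clear * - b1 b2 y20 y22; omega
      have kk36 : (n + i3) ≤ (k + l + l2 + 2) := by clear * - b1 b2 y20; omega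
      have kk37 : (n + i) ≤ (k + l2 + i3 + 2) := by clear * - v2; omega
      have kk38 : (i + l) ≤ (l2 + i3) := by clear * - b2 b3 b4 b5 v2 y17 y18 y20 z7; linarith
      have r39 : (2 * n + k + i2 + l2 + i3 - i + 1) % 2 = 0 := by clear * - ev n1p n2p n3p; omega
      clear * - al b c u1 kk33 kk34 kk35 kk36 kk37 kk38 r39
      obtain ⟨t, ht⟩ : ∃ t, 2 * t = (2 * n + k + i2 + l2 + i3 - i + 1) := ⟨(2 * n + k + i2 + l2 + i3 - i + 1) / 2, by omega⟩
      exact al.ninv t (cE (cE (cI (pb b al 1 t (t + (i - n - k)) (by omega)) (ab u1 al 0 (t + (i - n - k)) ((2 * k + l + l2 + i3 - i + 2) - t) (by omega))) (pb c al (-1) ((2 * k + l + l2 + i3 - i + 2) - t) ((n + k + i2 + l2 + i3 - i + 1) - t) (by omega))) (sh al 1 ((n + k + i2 + l2 + i3 - i + 1) - t) t (by omega)))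
    · have kk40 : (3 * k + 2 * l + l2 + 5) ≤ (2 * n + i + i2 + i3) := by clear * - b0 y0 y17 y20; omega
      have kk41 : (2 * n + i + i2) ≤ (3 * k + 2 * l + l2 + i3 + 4) := by clear * - z7; omega
      have kk42 : (n + i) ≤ (k + l + l2 + 2) := by clear * - b1 b2 y20 y22; omega
      have kk43 : (n + i3) ≤ (k + l + l2 + 2) := by clear * - b1 b2 y20; omega
      have kk44 : (k + l2 + i3 + 2) ≤ (n + i) := by clear * - v2; omega
      have kk45 : (k + l + 2) ≤ (n) := by clear * - b2 b3 b4 b5 v2 y17 y18 y20 z7; linarith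
      have r46 : (2 * n + k + i2 + l2 + i3 - i + 1) % 2 = 0 := by clear * - ev n1p n2p n3p; omega
      clear * - al b c u1 kk40 kk41 kk42 kk43 kk44 kk45 r46
      obtain ⟨t, ht⟩ : ∃ t, 2 * t = (2 * n + k + i2 + l2 + i3 - i + 1) := ⟨(2 * n + k + i2 + l2 + i3 - i + 1) / 2, by omega⟩
      exact al.ninv t (cE (cE (cI (pb b al 1 t (t + (i - n - k)) (by omega)) (ab u1 al 0 (t + (i - n - k)) ((2 * k + l + l2 + i3 - i + 2) - t) (by omega))) (pb c al (-1) ((2 * k + l + l2 + i3 - i + 2) - t) ((n + k + i2 + l2 + i3 - i + 1) - t) (by omega))) (sh al 1 ((n + k + i2 + l2 + i3 - i + 1) - t) t (by omega)))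
  · by_cases z8 : (n) ≤ (j + l + l2 + i3 + 2)
    · by_cases z9 : (l + l2 + i3 + 3) ≤ (n + j)
      · by_cases v3 : (i3) ≤ (j)
        · have kk47 : (n) ≤ (j + l + l2 + i3 + 2) := by clear * - z8; omega
          have kk48 : (j + l + l2 + 3) ≤ (n + i3) := by clear * - b5; omega
          have kk49 : (i3) ≤ (j) := by clear * - v3; omega
          have r50 : (2 * k + l + l2 + i3 - 3 * n - j + 2) % 2 = 0 := by clear * - ev n1p n2p n3p; omega
          clear * - al a1 u1 kk47 kk48 kk49 r50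
          obtain ⟨t, ht⟩ : ∃ t, 2 * t = (2 * k + l + l2 + i3 - 3 * n - j + 2) := ⟨(2 * k + l + l2 + i3 - 3 * n - j + 2) / 2, by omega⟩
          exact al.ninv t (cE (cI (pb a1 al (-1) t (t + (n + j - k)) (by omega)) (qa u1 al 0 (t + (n + j - k)) ((2 * k + l + l2 + i3 - 2 * n - j + 2) - t) (by omega))) (sh al (-1) ((2 * k + l + l2 + i3 - 2 * n - j + 2) - t) t (by omega)))
        · have kk51 : (n) ≤ (j + l + l2 + i3 + 2) := by clear * - z8; omega
          have kk52 : (l + l2 + i3 + 3) ≤ (n + j) := by clear * - z9; omega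
          have kk53 : (j) ≤ (i3) := by clear * - v3; omega
          have r54 : (2 * k + l + l2 + i3 - 3 * n - j + 2) % 2 = 0 := by clear * - ev n1p n2p n3p; omega
          clear * - al a1 u1 kk51 kk52 kk53 r54
          obtain ⟨t, ht⟩ : ∃ t, 2 * t = (2 * k + l + l2 + i3 - 3 * n - j + 2) := ⟨(2 * k + l + l2 + i3 - 3 * n - j + 2) / 2, by omega⟩
          exact al.ninv t (cE (cI (pb a1 al (-1) t (t + (n + j - k)) (by omega)) (qa u1 al 0 (t + (n + j - k)) ((2 * k + l + l2 + i3 - 2 * n - j + 2) - t) (by omega))) (sh al (-1) ((2 * k + l + l2 + i3 - 2 * n - j + 2) - t) t (by omega)))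
      · have kk55 : (2 * i + l + 3) ≤ (k + i2) := by clear * - b2 b3 b4 y12 z9; omega
        have kk56 : (2 * Q + k) ≤ (2 * i + l + i2 + 2) := by clear * - b1 b3 b4 z7 z9; omega
        have kk57 : (k) ≤ (i + l + 1) := by clear * - b1 b2 b5 z7 z8 z9; omega
        have kk58 : (i + i2 + 1) ≤ (Q + k) := by clear * - b2 b5 y18 z8; omega
        have r59 : (2 * i + l + i2 - 2 * n - k + 1) % 2 = 0 := by clear * - ev n1p n2p n3p; omega
        clear * - al b tt kk55 kk56 kk57 kk58 r59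
        obtain ⟨t, ht⟩ : ∃ t, 2 * t = (2 * i + l + i2 - 2 * n - k + 1) := ⟨(2 * i + l + i2 - 2 * n - k + 1) / 2, by omega⟩
        exact al.ninv t (cE (cI (qf b al (-1) t (t + (n + k - i)) (by omega)) (ab tt al 0 (t + (n + k - i)) ((2 * i + l + i2 - n - k + 1) - t) (by omega))) (sh al (-1) ((2 * i + l + i2 - n - k + 1) - t) t (by omega)))
    · by_cases z10 : (i + 2 * i2 + l2 + 1) ≤ (2 * k + l + i3)
      · by_cases z11 : (2 * j + 2 * k + l + i3 + 2) ≤ (2 * Q + i + 2 * i2 + l2)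
        · by_cases z12 : (2 * Q + 2 * j + l + i3) ≤ (3 * i + 2 * i2 + l2)
          · by_cases z13 : (2 * Q + 2 * i2 + l2 + i3) ≤ (i + 4 * k + l)
            · by_cases v4 : (i + k + 1) ≤ (2 * Q)
              · by_cases v5 : (2 * i2 + l2) ≤ (2 * k + l)
                · have kk60 : (i + 2 * i2 + l2 + 1) ≤ (2 * k + l + i3) := by clear * - z10; omega
                  have kk61 : (2 * Q + 2 * j + l + i3) ≤ (3 * i + 2 * i2 + l2) := by clear * - z12; omega
                  have kk62 : (2 * Q + l + i3) ≤ (i + 2 * i2 + l2) := by clear * - b1 b3 b4 y20 z7 z8; omega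
                  have kk63 : (2 * Q + 2 * k + l + l2 + 2) ≤ (2 * n + i + i3) := by clear * - b1 b4 y20 y22 z7 z8; omega
                  have kk64 : (k + l) ≤ (i2 + l2) := by clear * - y20; omega
                  have kk65 : (n) ≤ (k + l + l2 + 2) := by clear * - b1 b3 y20 z10 z7; omega
                  have kk66 : (i + k + 1) ≤ (2 * Q) := by clear * - v4; omega
                  have kk67 : (i) ≤ (j) := by clear * - y1; omega
                  have kk68 : (2 * i2 + l2) ≤ (2 * k + l) := by clear * - v5; omega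
                  have kk69 : (n + i2) ≤ (2 * k + 2 * l + 2) := by clear * - b1 b2 b3 b4 v4 z10 z12; linarith
                  have kk70 : (k + i2 + l2 + 1) ≤ (n + i3) := by clear * - y17; omega
                  have kk71 : (i + 1) ≤ (Q) := by clear * - b2 b3 b4 v4 z10 z12; omega
                  have r72 : (i + k - 2 * n) % 2 = 0 := by clear * - ev n1p n2p n3p; omega
                  have r73 : (2 * k + l + i3 - i - 2 * i2 - l2) % 2 = 0 := by clear * - ev n1p n2p n3p; omega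
                  clear * - al a2 s2 b c D2 kk60 kk61 kk62 kk63 kk64 kk65 kk66 kk67 kk68 kk69 kk70 kk71 r72 r73
                  exact midP al (2 * k + l + i3 - i - 2 * i2 - l2) (i + k - 2 * n) (Q - n) (i - n + 1) (i3 - i2 - l2 - 1) (by omega) (fun t h1 h2 => (cE (cI (pb a2 al (-1) t (t + (n + j - k)) (by omega)) (ab s2 al 0 (t + (n + j - k)) ((i + k - n) - t) (by omega))) (sh al (-1) ((i + k - n) - t) ((i + k - 2 * n) - t) (by omega)))) (fun t h1 h2 => (cE (cE (qf b al (-1) t (t + (n + k - i)) (by omega)) (pb (show Par W (i3 + 1) (n + i3 - i2 - l2 - 1) (2 * i2 + l2 - k - l - i3) from fun t h1 h2 => (cE (sh al (-1) t (t + (-n)) (by omega)) (cE (pb D2 al (-1) (t + (-n)) (t + (i2 + l2 - i3 + 1)) (by omega)) (pb c al 0 (t + (i2 + l2 - i3 + 1)) (t + (2 * i2 + l2 - k - l - i3)) (by omega))))) al 0 (t + (n + k - i)) (t + (n + 2 * k + l + i3 - i - 2 * i2 - l2)) (by omega))) (sh al (-1) (t + (n + 2 * k + l + i3 - i -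 2 * i2 - l2)) (t + (2 * k + l + i3 - i - 2 * i2 - l2)) (by omega))))
                · have kk74 : (i + 2 * i2 + l2 + 1) ≤ (2 * k + l + i3) := by clear * - z10; omega
                  have kk75 : (2 * Q + 2 * j + l + i3) ≤ (3 * i + 2 * i2 + l2) := by clear * - z12; omega
                  have kk76 : (2 * Q + 2 * i2 + l2 + i3) ≤ (i + 4 * k + l) := by clear * - z13; omega
                  have kk77 : (2 * Q + 2 * k + l + l2 + 2) ≤ (2 * n + i + i3) := by clear * - b1 b4 v4 v5 y20 z10 z8; linarith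
                  have kk78 : (k + l) ≤ (i2 + l2) := by clear * - y20; omega
                  have kk79 : (n) ≤ (k + l + l2 + 2) := by clear * - b1 v4 v5 y20 z10 z13; omega
                  have kk80 : (i + k + 1) ≤ (2 * Q) := by clear * - v4; omega
                  have kk81 : (i) ≤ (j) := by clear * - y1; omega
                  have kk82 : (2 * k + l) ≤ (2 * i2 + l2) := by clear * - v5; omega
                  have kk83 : (n + i2) ≤ (2 * k + 2 * l + 2) := by clear * - b1 v4 v5 z10 z13; omega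
                  have kk84 : (3 * k + l + 1) ≤ (n + i2 + i3) := by clear * - v5 y17; omega
                  have kk85 : (i + 2 * i2 + l2 + 1) ≤ (Q + 2 * k + l) := by clear * - v4 z10 z13; omega
                  have r86 : (i + k - 2 * n) % 2 = 0 := by clear * - ev n1p n2p n3p; omega
                  have r87 : (2 * k + l + i3 - i - 2 * i2 - l2) % 2 = 0 := by clear * - ev n1p n2p n3p; omega
                  clear * - al a2 s2 b c D2 kk74 kk75 kk76 kk77 kk78 kk79 kk80 kk81 kk82 kk83 kk84 kk85 r86 r87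
                  exact midP al (2 * k + l + i3 - i - 2 * i2 - l2) (i + k - 2 * n) (Q - n) (i + 2 * i2 + l2 - n - 2 * k - l + 1) (i3 - i2 - l2 - 1) (by omega) (fun t h1 h2 => (cE (cI (pb a2 al (-1) t (t + (n + j - k)) (by omega)) (ab s2 al 0 (t + (n + j - k)) ((i + k - n) - t) (by omega))) (sh al (-1) ((i + k - n) - t) ((i + k - 2 * n) - t) (by omega)))) (fun t h1 h2 => (cE (cE (qf b al (-1) t (t + (n + k - i)) (by omega)) (pb (show Par W (i3 + 1) (n + i3 - i2 - l2 - 1) (2 * i2 + l2 - k - l - i3) from fun t h1 h2 => (cE (sh al (-1) t (t + (-n)) (by omega)) (cE (pb D2 al (-1) (t + (-n)) (t + (i2 + l2 - i3 + 1)) (by omega)) (pb c al 0 (t + (i2 + l2 - i3 + 1)) (t + (2 * i2 + l2 - k - l - i3)) (by omega))))) al 0 (t + (n + k - i)) (t + (n + 2 * k + l + i3 - i - 2 * i2 - l2)) (by omega))) (sh al (-1) (t + (n + 2 * k + l + i3 - i - 2 * i2 - l2)) (t + (2 * k + l + i3 - i - 2 * i2 - l2)) (by omega))))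
              · by_cases v6 : (2 * i2 + l2) ≤ (2 * k + l)
                · have kk88 : (i + 2 * i2 + l2 + 1) ≤ (2 * k + l + i3) := by clear * - z10; omega
                  have kk89 : (2 * j + 2 * k + l + i3 + 2) ≤ (2 * Q + i + 2 * i2 + l2) := by clear * - z11; omega
                  have kk90 : (i + 2 * k + l + i3 + 2) ≤ (2 * Q + 2 * i2 + l2) := by clear * - y1 z11; omega
                  have kk91 : (i + 4 * k + l + l2 + 4) ≤ (2 * n + 2 * Q + i3) := by clear * - y1 y17 z11; omega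
                  have kk92 : (k + l) ≤ (i2 + l2) := by clear * - y20; omega
                  have kk93 : (n) ≤ (k + l + l2 + 2) := by clear * - b1 b3 y20 z10 z7; omega
                  have kk94 : (2 * Q) ≤ (i + k + 1) := by clear * - v4; omega
                  have kk95 : (i) ≤ (j) := by clear * - y1; omega
                  have kk96 : (2 * i2 + l2) ≤ (2 * k + l) := by clear * - v6; omega
                  have kk97 : (n + i2) ≤ (2 * k + 2 * l + 2) := by clear * - y21; omega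
                  have kk98 : (k + i2 + l2 + 1) ≤ (n + i3) := by clear * - y17; omega
                  have kk99 : (Q) ≤ (k) := by clear * - b2 b3 b4 v4 z10 z11; omega
                  have r100 : (i + k - 2 * n) % 2 = 0 := by clear * - ev n1p n2p n3p; omega
                  have r101 : (2 * k + l + i3 - i - 2 * i2 - l2) % 2 = 0 := by clear * - ev n1p n2p n3p; omega
                  clear * - al a2 s2 b c D2 kk88 kk89 kk90 kk91 kk92 kk93 kk94 kk95 kk96 kk97 kk98 kk99 r100 r101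
                  exact midP al (2 * k + l + i3 - i - 2 * i2 - l2) (i + k - 2 * n) (i + k - n - Q + 1) (i - n + 1) (i3 - i2 - l2 - 1) (by omega) (fun t h1 h2 => (cE (cI (pb a2 al (-1) t (t + (n + j - k)) (by omega)) (ab s2 al 0 (t + (n + j - k)) ((i + k - n) - t) (by omega))) (sh al (-1) ((i + k - n) - t) ((i + k - 2 * n) - t) (by omega)))) (fun t h1 h2 => (cE (cE (qf b al (-1) t (t + (n + k - i)) (by omega)) (pb (show Par W (i3 + 1) (n + i3 - i2 - l2 - 1) (2 * i2 + l2 - k - l - i3) from fun t h1 h2 => (cE (sh al (-1) t (t + (-n)) (by omega)) (cE (pb D2 al (-1) (t + (-n)) (t + (i2 + l2 - i3 + 1)) (by omega)) (pb c al 0 (t + (i2 + l2 - i3 + 1)) (t + (2 * i2 + l2 - k - l - i3)) (by omega))))) al 0 (t + (n + k - i)) (t + (n + 2 * k + l + i3 - i - 2 * i2 - l2)) (by omega))) (sh al (-1) (t + (n + 2 * k + l + i3 - i - 2 * i2 - l2)) (t + (2 * k + l + i3 - i - 2 * i2 - l2)) (by omega))))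
                · have kk102 : (i + 2 * i2 + l2 + 1) ≤ (2 * k + l + i3) := by clear * - z10; omega
                  have kk103 : (2 * j + 2 * k + l + i3 + 2) ≤ (2 * Q + i + 2 * i2 + l2) := by clear * - z11; omega
                  have kk104 : (i + 2 * i2 + l2 + i3 + 2) ≤ (2 * Q + 2 * k + l) := by clear * - b1 b3 y18 z10 z7; omega
                  have kk105 : (i + 4 * k + l + l2 + 4) ≤ (2 * n + 2 * Q + i3) := by clear * - b1 v6 y18 z10 z7; omega
                  have kk106 : (k + l) ≤ (i2 + l2) := by clear * - y20; omega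
                  have kk107 : (n) ≤ (k + l + l2 + 2) := by clear * - b1 b3 y20 z10 z7; omega
                  have kk108 : (2 * Q) ≤ (i + k + 1) := by clear * - v4; omega
                  have kk109 : (i) ≤ (j) := by clear * - y1; omega
                  have kk110 : (2 * k + l) ≤ (2 * i2 + l2) := by clear * - v6; omega
                  have kk111 : (n + i2) ≤ (2 * k + 2 * l + 2) := by clear * - y21; omega
                  have kk112 : (3 * k + l + 1) ≤ (n + i2 + i3) := by clear * - v6 y17; omega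
                  have kk113 : (Q + 2 * i2 + l2) ≤ (3 * k + l) := by clear * - z10 z13; omega
                  have r114 : (i + k - 2 * n) % 2 = 0 := by clear * - ev n1p n2p n3p; omega
                  have r115 : (2 * k + l + i3 - i - 2 * i2 - l2) % 2 = 0 := by clear * - ev n1p n2p n3p; omega
                  clear * - al a2 s2 b c D2 kk102 kk103 kk104 kk105 kk106 kk107 kk108 kk109 kk110 kk111 kk112 kk113 r114 r115
                  exact midP al (2 * k + l + i3 - i - 2 * i2 - l2) (i + k - 2 * n) (i + k - n - Q + 1) (i + 2 * i2 + l2 - n - 2 * k - l + 1) (i3 - i2 - l2 - 1) (by omega) (fun t h1 h2 => (cE (cI (pb a2 al (-1) t (t + (n + j - k)) (by omega)) (ab s2 al 0 (t + (n + j - k)) ((i + k - n) - t) (by omega))) (sh al (-1) ((i + k - n) - t) ((i + k - 2 * n) - t) (by omega)))) (fun t h1 h2 => (cE (cE (qf b al (-1) t (t + (n + k - i)) (by omega)) (pb (show Par W (i3 + 1) (n + i3 - i2 - l2 - 1) (2 * i2 + l2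 - k - l - i3) from fun t h1 h2 => (cE (sh al (-1) t (t + (-n)) (by omega)) (cE (pb D2 al (-1) (t + (-n)) (t + (i2 + l2 - i3 + 1)) (by omega)) (pb c al 0 (t + (i2 + l2 - i3 + 1)) (t + (2 * i2 + l2 - k - l - i3)) (by omega))))) al 0 (t + (n + k - i)) (t + (n + 2 * k + l + i3 - i - 2 * i2 - l2)) (by omega))) (sh al (-1) (t + (n + 2 * k + l + i3 - i - 2 * i2 - l2)) (t + (2 * k + l + i3 - i - 2 * i2 - l2)) (by omega))))
            · have kk116 : (2 * i + l + 3) ≤ (k + i2) := by clear * - b3 z10 z7; omega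
              have kk117 : (2 * Q + k) ≤ (2 * i + l + i2 + 2) := by clear * - b1 b2 b3 b4 z12 z13 z7 z8; linarith
              have kk118 : (k) ≤ (i + l + 1) := by clear * - b1 b2 b4 z11 z13; omega
              have kk119 : (i + i2 + 1) ≤ (Q + k) := by clear * - b1 b2 b3 b4 y18 z10 z12 z13 z7; linarith
              have r120 : (2 * i + l + i2 - 2 * n - k + 1) % 2 = 0 := by clear * - ev n1p n2p n3p; omega
              clear * - al b tt kk116 kk117 kk118 kk119 r120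
              obtain ⟨t, ht⟩ : ∃ t, 2 * t = (2 * i + l + i2 - 2 * n - k + 1) := ⟨(2 * i + l + i2 - 2 * n - k + 1) / 2, by omega⟩
              exact al.ninv t (cE (cI (qf b al (-1) t (t + (n + k - i)) (by omega)) (ab tt al 0 (t + (n + k - i)) ((2 * i + l + i2 - n - k + 1) - t) (by omega))) (sh al (-1) ((2 * i + l + i2 - n - k + 1) - t) t (by omega)))
          · by_cases v7 : (2 * k + l + i3) ≤ (2 * i + 2 * i2 + l2)
            · have kk121 : (i + 2 * i2 + l2 + 1) ≤ (2 * k + l + i3) := by clear * - z10; omega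
              have kk122 : (3 * i + 2 * j + 2 * i2 + l2 + 2) ≤ (2 * Q + 2 * k + l + i3) := by clear * - b1 v7 y20 y22 z10 z12 z8; linarith
              have kk123 : (i + 4 * i2 + 3 * l2 + 4) ≤ (2 * n + 2 * k + l + i3) := by clear * - b2 b4 z10 z11 z12; omega
              have kk124 : (3 * i + 2 * j + 4 * i2 + 3 * l2 + 4) ≤ (2 * n + 2 * k + l + 3 * i3) := by clear * - b1 y20 y22 z10 z7 z8; omega
              have kk125 : (k + l) ≤ (i2 + l2) := by clear * - y20; omega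
              have kk126 : (n) ≤ (k + l + l2 + 2) := by clear * - b1 b3 y20 z10 z7; omega
              have kk127 : (i) ≤ (j) := by clear * - b2 b3 b4 v7 y22 z12; omega
              have kk128 : (n + i) ≤ (k + l + l2 + 2) := by clear * - b1 b3 b4 v7 y20 y22 z12 z8; linarith
              have kk129 : (Q) ≤ (i + l + 1) := by clear * - b1 b3 b4 v7 y20 y22 z11 z12 z8; linarith
              have kk130 : (Q + k + l + 1) ≤ (n + i + j) := by clear * - b2 b4 v7 y20 z10 z11 z12; linarith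
              have kk131 : (i) ≤ (i3) := by clear * - y22; omega
              have kk132 : (n + i3) ≤ (i + l + i2 + l2 + 2) := by clear * - b1 b2 v7 y22; omega
              have kk133 : (i3) ≤ (i + j) := by clear * - b1 b3 b4 v7 y20 z10 z12 z8; linarith
              have kk134 : (2 * k + l + i3) ≤ (2 * i + 2 * i2 + l2) := by clear * - v7; omega
              have r135 : (n + j + i2 - l - 1) % 2 = 0 := by clear * - ev n1p n2p n3p; omega
              have r136 : (2 * k + l + i3 - i - 2 * i2 - l2) % 2 = 0 := by clear * - ev n1p n2p n3p; omega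
              clear * - al s2 b c D2 kk121 kk122 kk123 kk124 kk125 kk126 kk127 kk128 kk129 kk130 kk131 kk132 kk133 kk134 r135 r136
              exact midP al (2 * k + l + i3 - i - 2 * i2 - l2) (n + j + i2 - l - 1) (i + j + 2 * i2 + l2 - k - l - i3 + 1) (2 * i2 + l2 - k - l + 1) (n + k + i3 - i - i2 - l2 - 1) (by omega) (fun t h1 h2 => (cE (cI (pb b al 0 t (t + (i - k)) (by omega)) (qa s2 al 0 (t + (i - k)) ((j + k) - t) (by omega))) (pb c al (-1) ((j + k) - t) ((n + j + i2 - l - 1) - t) (by omega)))) (fun t h1 h2 => (cE (pb (show Par W (i3 + 1) (n + i3 - i2 - l2 - 1) (2 * i2 + l2 - k - l - i3) from fun t h1 h2 => (cE (sh al (-1) t (t + (-n)) (by omega)) (cE (pb D2 al (-1) (t + (-n)) (t + (i2 + l2 - i3 + 1)) (by omega)) (pb c al 0 (t + (i2 + l2 - i3 + 1)) (t + (2 * i2 + l2 - k - l - i3)) (by omega))))) al 0 t (t + (k + l + i3 - 2 * i2 - l2)) (by omega)) (qf b al 0 (t + (k + l + i3 - 2 * i2 - l2)) (t + (2 * k +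 l + i3 - i - 2 * i2 - l2)) (by omega))))
            · have kk137 : (i + 2 * i2 + l2 + 1) ≤ (2 * k + l + i3) := by clear * - z10; omega
              have kk138 : (2 * j + 2 * k + l + i3 + 2) ≤ (2 * Q + i + 2 * i2 + l2) := by clear * - z11; omega
              have kk139 : (2 * k + l + l2 + i3 + 4) ≤ (2 * n + 3 * i) := by clear * - b1 b3 b4 y18 z11 z7; omega
              have kk140 : (2 * j + 2 * k + l + l2 + 4) ≤ (2 * n + i + i3) := by clear * - b1 b5 v7 y20 y22 z7 z8; linarith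
              have kk141 : (k + l) ≤ (i2 + l2) := by clear * - y20; omega
              have kk142 : (n) ≤ (k + l + l2 + 2) := by clear * - b1 b3 y20 z10 z7; omega
              have kk143 : (i) ≤ (j) := by clear * - b1 b3 b4 y20 z12 z7 z8; linarith
              have kk144 : (n + i) ≤ (k + l + l2 + 2) := by clear * - b1 b3 v7 y20 z7; omega
              have kk145 : (Q) ≤ (i + l + 1) := by clear * - b1 b3 b4 v7 y20 y22 z11 z7 z8; linarith
              have kk146 : (Q + k + l + 1) ≤ (n + i + j) := by clear * - b1 b3 b4 y18 y20 z7; omega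
              have kk147 : (i) ≤ (i3) := by clear * - y22; omega
              have kk148 : (n + i3) ≤ (i + l + i2 + l2 + 2) := by clear * - b1 b3 y20 z7; omega
              have kk149 : (i + 2 * i2 + l2) ≤ (j + 2 * k + l) := by clear * - b1 b3 b4 y0 y20 z12 z8; linarith
              have kk150 : (2 * i + 2 * i2 + l2) ≤ (2 * k + l + i3) := by clear * - v7; omega
              have r151 : (n + j + i2 - l - 1) % 2 = 0 := by clear * - ev n1p n2p n3p; omega
              have r152 : (2 * k + l + i3 - i - 2 * i2 - l2) % 2 = 0 := by clear * - ev n1p n2p n3p; omega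
              clear * - al s2 b c D2 kk137 kk138 kk139 kk140 kk141 kk142 kk143 kk144 kk145 kk146 kk147 kk148 kk149 kk150 r151 r152
              exact midP al (2 * k + l + i3 - i - 2 * i2 - l2) (n + j + i2 - l - 1) (j + k - i + 1) (2 * i2 + l2 - k - l + 1) (n + k + i3 - i - i2 - l2 - 1) (by omega) (fun t h1 h2 => (cE (cI (pb b al 0 t (t + (i - k)) (by omega)) (qa s2 al 0 (t + (i - k)) ((j + k) - t) (by omega))) (pb c al (-1) ((j + k) - t) ((n + j + i2 - l - 1) - t) (by omega)))) (fun t h1 h2 => (cE (pb (show Par W (i3 + 1) (n + i3 - i2 - l2 - 1) (2 * i2 + l2 - k - l - i3) from fun t h1 h2 => (cE (sh al (-1) t (t + (-n)) (by omega)) (cE (pb D2 al (-1) (t + (-n)) (t + (i2 + l2 - i3 + 1)) (by omega)) (pb c al 0 (t + (i2 + l2 - i3 + 1)) (t + (2 * i2 + l2 - k - l - i3)) (by omega))))) al 0 t (t + (k + l + i3 - 2 * i2 - l2)) (by omega)) (qf b al 0 (t + (k + l + i3 - 2 * i2 - l2)) (t + (2 * k + l + i3 - i - 2 * i2 -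 l2)) (by omega))))
        · have kk153 : (i + 2 * i2 + l2 + 1) ≤ (2 * k + l + i3) := by clear * - z10; omega
          have kk154 : (2 * k + l + i3 + 1) ≤ (n + i + 2 * i2 + l2) := by clear * - b0 b1 b3 y20 z10 z7; omega
          have kk155 : (2 * k + l + i3 + 2) ≤ (n + i + i2) := by clear * - b1 b3 y20 z10 z7; omega
          have kk156 : (i2) ≤ (k) := by clear * - b1 y12 y20 z10 z11 z8; omega
          have kk157 : (k + l) ≤ (i2 + l2) := by clear * - y20; omega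
          have kk158 : (i) ≤ (i3) := by clear * - y22; omega
          have kk159 : (n + i3) ≤ (i + l + i2 + l2 + 2) := by clear * - b1 b3 y20 z7; omega
          clear * - al b c D2 kk153 kk154 kk155 kk156 kk157 kk158 kk159
          exact al.ubP (2 * k + l + i3 - i - 2 * i2 - l2) (by omega) (by omega) fun t h1 h2 => (cE (cE (qf D2 al (-1) t (t + (n + i3 - i2 - l2 - 1)) (by omega)) (pb (show Par W (2 * k + l - i2 + 2) (2 * k + 2 * l - i2 + 2) (n + i + i2 - 2 * k - l - 1) from fun t h1 h2 => (cE (sh al (-1) t (t + (-n)) (by omega)) (cE (cE (pb c al (-1) (t + (-n)) (t + (i2 - k - l - 1)) (by omega)) (pb b al 0 (t + (i2 - k - l - 1)) (t + (i + i2 - 2 * k - l - 1)) (by omega))) (sh al 1 (t + (i + i2 - 2 * k - l - 1)) (t + (n + i + i2 - 2 * k - l - 1)) (by omega))))) al (-1) (t + (n + i3 - i2 - l2 - 1)) (t + (n + 2 * k + l + i3 - i - 2 * i2 - l2)) (by omega))) (sh al (-1) (t + (n + 2 * k + l + i3 - i - 2 * i2 - l2))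 (t + (2 * k + l + i3 - i - 2 * i2 - l2)) (by omega)))
      · have kk160 : (2 * i + l + 3) ≤ (k + i2) := by clear * - b3 y15 z8; omega
        have kk161 : (2 * Q + k) ≤ (2 * i + l + i2 + 2) := by clear * - b1 b4 y22 z10 z8; omega
        have kk162 : (k) ≤ (i + l + 1) := by clear * - b1 y20 y22 z7; omega
        have kk163 : (i + i2 + 1) ≤ (Q + k) := by clear * - b1 b3 b4 y18 y22 z10 z7 z8; linarith
        have r164 : (2 * i + l + i2 - 2 * n - k + 1) % 2 = 0 := by clear * - ev n1p n2p n3p; omega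
        clear * - al b tt kk160 kk161 kk162 kk163 r164
        obtain ⟨t, ht⟩ : ∃ t, 2 * t = (2 * i + l + i2 - 2 * n - k + 1) := ⟨(2 * i + l + i2 - 2 * n - k + 1) / 2, by omega⟩
        exact al.ninv t (cE (cI (qf b al (-1) t (t + (n + k - i)) (by omega)) (ab tt al 0 (t + (n + k - i)) ((2 * i + l + i2 - n - k + 1) - t) (by omega))) (sh al (-1) ((2 * i + l + i2 - n - k + 1) - t) t (by omega)))

theorem t2d_5 {W : ℤ → G} {n Q i j k l i2 l2 i3 : ℤ} (al : AL W n Q)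
    (hy : (0) ≤ (i) ∧ (i) ≤ (j) ∧ (j + 1) ≤ (Q) ∧ (Q) ≤ (k) ∧ (k + 1) ≤ (n) ∧ (Q) ≤ (i + l + 1) ∧ (k + l + 2) ≤ (n) ∧ (Q) ≤ (i2) ∧ (i2) ≤ (i + l + 1) ∧ (Q) ≤ (i2 + l2 + 1) ∧ (i2 + l2 + 2) ≤ (n) ∧ (n) ≤ (k + l + l2 + 2) ∧ (k + l + l2 + 3) ≤ (n + Q) ∧ (0) ≤ (i3) ∧ (n + i3) ≤ (k + l + l2 + 2) ∧ (k + i2 + l2 + 2) ≤ (n + j + i3) ∧ (j + i3 + 1) ≤ (k) ∧ (k + i2 + l2 + 2) ≤ (n + i3) ∧ (i + 2 * i2 + 1) ≤ (2 * Q + k) ∧ (i + l + 1) ≤ (i2 + l2) ∧ (k + l + 1) ≤ (i2 + l2) ∧ (n + i2) ≤ (2 * k + 2 * l + 2) ∧ (i + 1) ≤ (i3))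
    (a1 : Par W (0) (j) (k - j))
    (a2 : Par W (Q + j - k) (j) (k - j))
    (s1 : Ant W (0) (i) (i + j))
    (s2 : Ant W (j + 1) (Q) (i + j))
    (b : Par W (i + 1) (i + l + 1) (k - i))
    (tt : Ant W (Q) (i2) (i + l + i2 + 1))
    (c : Par W (i2 + 1) (i2 + l2 + 1) (k + l - i2 + 1))
    (u1 : Ant W (0) (i3) (k + l + l2 + i3 - n + 2))
    (u2 : Ant W (k + l + l2 - n + 3) (Q) (k + l + l2 + i3 - n + 2))
    (D1 : Par W (i3 + 1) (Q) (i2 + l2 - i3 + 1))
    (D2 : Par W (i2 + l2 + 2) (n) (i3 - i2 - l2 - 1))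
    {L : ℤ} (mx : ∀ a b g, 0 < g → g < n → Par W a b g → b - a ≤ L)
    (hL : L ≤ (n - j - 3) ∧ L ≤ (n + Q - k - 3) ∧ L ≤ (n - l - 3) ∧ L ≤ (n + i - k - 2) ∧ L ≤ (n - l2 - 3) ∧ L ≤ (n + i3 - Q - 2) ∧ L ≤ (i2 + l2 - 1) ∧ L ≤ (n + i2 - k - l - 3) ∧ L ≤ (Q + i2 + l2 - i - l - 3))
    (bd0 : Bd W n L (j) (i) (k))
    (bd2 : Bd W n L (k + l + l2 - n + 2) (i3) (i2 + l2 + 1))
    (n1 : Nd W (j) (i) (k))
    (n2 : Nd W (i + l + 1) (i2) (k + l + 1))
    (n3 : Nd W (k + l + l2 - n + 2) (i3) (i2 + l2 + 1))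
    (b0 : (2 * l2 + 3) ≤ (n))
    (b1 : (2 * n + 2 * i2) ≤ (i + 3 * k + 4 * l + 4))
    (b2 : (i + 2 * i3 + 1) ≤ (k))
    (b3 : (n + i) ≤ (k + i2 + l2))
    (b4 : (2 * Q + i2 + l2) ≤ (n + i + j + i3)) : False := by
  have ev := al.ev
  obtain ⟨y0, y1, y2, y3, y4, y5, y6, y7, y8, y9, y10, y11, y12, y13, y14, y15, y16, y17, y18, y19, y20, y21, y22⟩ := id hy
  have n1p := And.intro n1.p1 n1.p2
  have n2p := And.intro n2.p1 n2.p2
  have n3p := And.intro n3.p1 n3.p2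
  by_cases z6 : (j + l + l2 + 3) ≤ (n + i3)
  · exact t2d_6 al hy a1 a2 s1 s2 b tt c u1 u2 D1 D2 mx hL bd0 bd2 n1 n2 n3 (by clear * - b0; omega) (by clear * - b1; omega) (by clear * - b2; omega) (by clear * - b3; omega) (by clear * - b4; omega) (by clear * - z6; omega)
  · exact t2d_7 al hy a1 a2 s1 s2 b tt c u1 u2 D1 D2 mx hL bd0 bd2 n1 n2 n3 (by clear * - b0; omega) (by clear * - b1; omega) (by clear * - b2; omega) (by clear * - b3; omega) (by clear * - b4; omega) (by clear * - z6; omega)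

theorem t2d_4 {W : ℤ → G} {n Q i j k l i2 l2 i3 : ℤ} (al : AL W n Q)
    (hy : (0) ≤ (i) ∧ (i) ≤ (j) ∧ (j + 1) ≤ (Q) ∧ (Q) ≤ (k) ∧ (k + 1) ≤ (n) ∧ (Q) ≤ (i + l + 1) ∧ (k + l + 2) ≤ (n) ∧ (Q) ≤ (i2) ∧ (i2) ≤ (i + l + 1) ∧ (Q) ≤ (i2 + l2 + 1) ∧ (i2 + l2 + 2) ≤ (n) ∧ (n) ≤ (k + l + l2 + 2) ∧ (k + l + l2 + 3) ≤ (n + Q) ∧ (0) ≤ (i3) ∧ (n + i3) ≤ (k + l + l2 + 2) ∧ (k + i2 + l2 + 2) ≤ (n + j + i3) ∧ (j + i3 + 1) ≤ (k) ∧ (k + i2 + l2 + 2) ≤ (n + i3) ∧ (i + 2 * i2 + 1) ≤ (2 * Q + k) ∧ (i + l + 1) ≤ (i2 + l2) ∧ (k + l + 1) ≤ (i2 + l2) ∧ (n + i2) ≤ (2 * k + 2 * l + 2) ∧ (i + 1) ≤ (i3))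
    (a1 : Par W (0) (j) (k - j))
    (a2 : Par W (Q + j - k) (j) (k - j))
    (s1 : Ant W (0) (i) (i + j))
    (s2 : Ant W (j + 1) (Q) (i + j))
    (b : Par W (i + 1) (i + l + 1) (k - i))
    (tt : Ant W (Q) (i2) (i + l + i2 + 1))
    (c : Par W (i2 + 1) (i2 + l2 + 1) (k + l - i2 + 1))
    (u1 : Ant W (0) (i3) (k + l + l2 + i3 - n + 2))
    (u2 : Ant W (k + l + l2 - n + 3) (Q) (k + l + l2 + i3 - n + 2))
    (D1 : Par W (i3 + 1) (Q) (i2 + l2 - i3 + 1))
    (D2 : Par W (i2 + l2 + 2) (n) (i3 - i2 - l2 - 1))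
    {L : ℤ} (mx : ∀ a b g, 0 < g → g < n → Par W a b g → b - a ≤ L)
    (hL : L ≤ (n - j - 3) ∧ L ≤ (n + Q - k - 3) ∧ L ≤ (n - l - 3) ∧ L ≤ (n + i - k - 2) ∧ L ≤ (n - l2 - 3) ∧ L ≤ (n + i3 - Q - 2) ∧ L ≤ (i2 + l2 - 1) ∧ L ≤ (n + i2 - k - l - 3) ∧ L ≤ (Q + i2 + l2 - i - l - 3))
    (bd0 : Bd W n L (j) (i) (k))
    (bd2 : Bd W n L (k + l + l2 - n + 2) (i3) (i2 + l2 + 1))
    (n1 : Nd W (j) (i) (k))
    (n2 : Nd W (i + l + 1) (i2) (k + l + 1))
    (n3 : Nd W (k + l + l2 - n + 2) (i3) (i2 + l2 + 1))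
    (b0 : (2 * l2 + 3) ≤ (n))
    (b1 : (2 * n + 2 * i2) ≤ (i + 3 * k + 4 * l + 4))
    (b2 : (i + 2 * i3 + 1) ≤ (k))
    (b3 : (n + i) ≤ (k + i2 + l2)) : False := by
  have ev := al.ev
  obtain ⟨y0, y1, y2, y3, y4, y5, y6, y7, y8, y9, y10, y11, y12, y13, y14, y15, y16, y17, y18, y19, y20, y21, y22⟩ := id hy
  have n1p := And.intro n1.p1 n1.p2
  have n2p := And.intro n2.p1 n2.p2
  have n3p := And.intro n3.p1 n3.p2
  by_cases z5 : (n + i + j + i3 + 1) ≤ (2 * Q + i2 + l2)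
  · by_cases v1 : (j) ≤ (i3)
    · have kk25 : (n + i + j + i3 + 1) ≤ (2 * Q + i2 + l2) := by clear * - z5; omega
      have kk26 : (i2 + l2 + i3 + 2) ≤ (n + i + j) := by clear * - b2 y0 y15; omega
      have kk27 : (j) ≤ (i3) := by clear * - v1; omega
      have r28 : (i + j + i2 + l2 - n - i3 + 1) % 2 = 0 := by clear * - ev n1p n2p n3p; omega
      clear * - al s2 D1 kk25 kk26 kk27 r28
      obtain ⟨t, ht⟩ : ∃ t, 2 * t = (i + j + i2 + l2 - n - i3 + 1) := ⟨(i + j + i2 + l2 - n - i3 + 1) / 2, by omega⟩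
      exact al.ninv t (cE (cE (ab s2 al 0 t ((i + j) - t) (by omega)) (qf D1 al 0 ((i + j) - t) ((i + j + i2 + l2 - i3 + 1) - t) (by omega))) (sh al (-1) ((i + j + i2 + l2 - i3 + 1) - t) t (by omega)))
    · have kk29 : (n + i + j + i3 + 1) ≤ (2 * Q + i2 + l2) := by clear * - z5; omega
      have kk30 : (j + i2 + l2 + 2) ≤ (n + i + i3) := by clear * - b3 y0 y16 y17; omega
      have kk31 : (i3) ≤ (j) := by clear * - v1; omega
      have r32 : (i + j + i2 + l2 - n - i3 + 1) % 2 = 0 := by clear * - ev n1p n2p n3p; omega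
      clear * - al s2 D1 kk29 kk30 kk31 r32
      obtain ⟨t, ht⟩ : ∃ t, 2 * t = (i + j + i2 + l2 - n - i3 + 1) := ⟨(i + j + i2 + l2 - n - i3 + 1) / 2, by omega⟩
      exact al.ninv t (cE (cE (ab s2 al 0 t ((i + j) - t) (by omega)) (qf D1 al 0 ((i + j) - t) ((i + j + i2 + l2 - i3 + 1) - t) (by omega))) (sh al (-1) ((i + j + i2 + l2 - i3 + 1) - t) t (by omega)))
  · exact t2d_5 al hy a1 a2 s1 s2 b tt c u1 u2 D1 D2 mx hL bd0 bd2 n1 n2 n3 (by clear * - b0; omega) (by clear * - b1; omega) (by clear * - b2; omega) (by clear * - b3; omega) (by clear * - z5; omega)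

theorem t2d_3 {W : ℤ → G} {n Q i j k l i2 l2 i3 : ℤ} (al : AL W n Q)
    (hy : (0) ≤ (i) ∧ (i) ≤ (j) ∧ (j + 1) ≤ (Q) ∧ (Q) ≤ (k) ∧ (k + 1) ≤ (n) ∧ (Q) ≤ (i + l + 1) ∧ (k + l + 2) ≤ (n) ∧ (Q) ≤ (i2) ∧ (i2) ≤ (i + l + 1) ∧ (Q) ≤ (i2 + l2 + 1) ∧ (i2 + l2 + 2) ≤ (n) ∧ (n) ≤ (k + l + l2 + 2) ∧ (k + l + l2 + 3) ≤ (n + Q) ∧ (0) ≤ (i3) ∧ (n + i3) ≤ (k + l + l2 + 2) ∧ (k + i2 + l2 + 2) ≤ (n + j + i3) ∧ (j + i3 + 1) ≤ (k) ∧ (k + i2 + l2 + 2) ≤ (n + i3) ∧ (i + 2 * i2 + 1) ≤ (2 * Q + k) ∧ (i + l + 1) ≤ (i2 + l2) ∧ (k + l + 1) ≤ (i2 + l2) ∧ (n + i2) ≤ (2 * k + 2 * l + 2) ∧ (i + 1) ≤ (i3))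
    (a1 : Par W (0) (j) (k - j))
    (a2 : Par W (Q + j - k) (j) (k - j))
    (s1 : Ant W (0) (i) (i + j))
    (s2 : Ant W (j + 1) (Q) (i + j))
    (b : Par W (i + 1) (i + l + 1) (k - i))
    (tt : Ant W (Q) (i2) (i + l + i2 + 1))
    (c : Par W (i2 + 1) (i2 + l2 + 1) (k + l - i2 + 1))
    (u1 : Ant W (0) (i3) (k + l + l2 + i3 - n + 2))
    (u2 : Ant W (k + l + l2 - n + 3) (Q) (k + l + l2 + i3 - n + 2))
    (D1 : Par W (i3 + 1) (Q) (i2 + l2 - i3 + 1))
    (D2 : Par W (i2 + l2 + 2) (n) (i3 - i2 - l2 - 1))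
    {L : ℤ} (mx : ∀ a b g, 0 < g → g < n → Par W a b g → b - a ≤ L)
    (hL : L ≤ (n - j - 3) ∧ L ≤ (n + Q - k - 3) ∧ L ≤ (n - l - 3) ∧ L ≤ (n + i - k - 2) ∧ L ≤ (n - l2 - 3) ∧ L ≤ (n + i3 - Q - 2) ∧ L ≤ (i2 + l2 - 1) ∧ L ≤ (n + i2 - k - l - 3) ∧ L ≤ (Q + i2 + l2 - i - l - 3))
    (bd0 : Bd W n L (j) (i) (k))
    (bd2 : Bd W n L (k + l + l2 - n + 2) (i3) (i2 + l2 + 1))
    (n1 : Nd W (j) (i) (k))
    (n2 : Nd W (i + l + 1) (i2) (k + l + 1))
    (n3 : Nd W (k + l + l2 - n + 2) (i3) (i2 + l2 + 1))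
    (b0 : (2 * l2 + 3) ≤ (n))
    (b1 : (2 * n + 2 * i2) ≤ (i + 3 * k + 4 * l + 4))
    (b2 : (i + 2 * i3 + 1) ≤ (k)) : False := by
  have ev := al.ev
  obtain ⟨y0, y1, y2, y3, y4, y5, y6, y7, y8, y9, y10, y11, y12, y13, y14, y15, y16, y17, y18, y19, y20, y21, y22⟩ := id hy
  have n1p := And.intro n1.p1 n1.p2
  have n2p := And.intro n2.p1 n2.p2
  have n3p := And.intro n3.p1 n3.p2
  by_cases z4 : (k + i2 + l2 + 1) ≤ (n + i)
  · have kk14 : (k + l + 1) ≤ (i2 + l2) := by clear * - y20; omega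
    have kk15 : (i2) ≤ (k + l) := by clear * - y19 y21 z4; omega
    have kk16 : (k + l + i3 + 1) ≤ (2 * i2 + l2) := by clear * - b0 b1 b2 y20; omega
    have kk17 : (i + 1) ≤ (k) := by clear * - b2 y13; omega
    have kk18 : (k + i2 + l2 + 1) ≤ (n + i) := by clear * - z4; omega
    have kk19 : (i + 1) ≤ (i3) := by clear * - y22; omega
    have kk20 : (2 * i2 + l2) ≤ (i + k + 2 * l + 1) := by clear * - y21 z4; omega
    have kk21 : (k + l) ≤ (i2 + l2) := by clear * - y20; omega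
    have kk22 : (n) ≤ (k + l + l2 + 2) := by clear * - y20 y21; omega
    have r23 : (2 * i2 + l2 - k - l - i3) % 2 = 0 := by clear * - ev n1p n2p n3p; omega
    have r24 : (k - i) % 2 = 0 := by clear * - ev n1p n2p n3p; omega
    clear * - al b c D2 n3 kk14 kk15 kk16 kk17 kk18 kk19 kk20 kk21 kk22 r23 r24
    exact n3.f1 (rEE (sh al (-1) (i3) (i3 - n) (by omega)) (cE (pb c al 0 (i2 + l2 + 1) (2 * i2 + l2 - k - l) (by omega)) (sh al (-1) (2 * i2 + l2 - k - l) (2 * i2 + l2 - n - k - l) (by omega))) (rotL (2 * i2 + l2 - k - l - i3) (k - i) (i3 - n) (2 * i2 + l2 - n - k - l) (by omega) (fun t h1 h2 => (cE (cE (pb D2 al (-1) t (t + (n + i2 + l2 - i3 + 1)) (by omega)) (pb c al 0 (t + (n + i2 + l2 - i3 + 1)) (t + (n + 2 * i2 + l2 - k - l - i3)) (by omega))) (sh al (-1) (t + (n + 2 * i2 + l2 - k - l - i3)) (t + (2 * i2 + l2 - k - l - i3)) (by omega)))) (fun t h1 h2 => (cE (qf b al (-1) t (t + (n + k - i)) (by omega))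 (sh al (-1) (t + (n + k - i)) (t + (k - i)) (by omega))))))
  · exact t2d_4 al hy a1 a2 s1 s2 b tt c u1 u2 D1 D2 mx hL bd0 bd2 n1 n2 n3 (by clear * - b0; omega) (by clear * - b1; omega) (by clear * - b2; omega) (by clear * - z4; omega)

theorem t2d_2 {W : ℤ → G} {n Q i j k l i2 l2 i3 : ℤ} (al : AL W n Q)
    (hy : (0) ≤ (i) ∧ (i) ≤ (j) ∧ (j + 1) ≤ (Q) ∧ (Q) ≤ (k) ∧ (k + 1) ≤ (n) ∧ (Q) ≤ (i + l + 1) ∧ (k + l + 2) ≤ (n) ∧ (Q) ≤ (i2) ∧ (i2) ≤ (i + l + 1) ∧ (Q) ≤ (i2 + l2 + 1) ∧ (i2 + l2 + 2) ≤ (n) ∧ (n) ≤ (k + l + l2 + 2) ∧ (k + l + l2 + 3) ≤ (n + Q) ∧ (0) ≤ (i3) ∧ (n + i3) ≤ (k + l + l2 + 2) ∧ (k + i2 + l2 + 2) ≤ (n + j + i3) ∧ (j + i3 + 1) ≤ (k) ∧ (k + i2 + l2 + 2) ≤ (n + i3) ∧ (i + 2 * i2 + 1) ≤ (2 * Q + k) ∧ (i + l + 1) ≤ (i2 + l2) ∧ (k + l + 1) ≤ (i2 + l2) ∧ (n + i2) ≤ (2 * k + 2 * l + 2) ∧ (i + 1) ≤ (i3))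
    (a1 : Par W (0) (j) (k - j))
    (a2 : Par W (Q + j - k) (j) (k - j))
    (s1 : Ant W (0) (i) (i + j))
    (s2 : Ant W (j + 1) (Q) (i + j))
    (b : Par W (i + 1) (i + l + 1) (k - i))
    (tt : Ant W (Q) (i2) (i + l + i2 + 1))
    (c : Par W (i2 + 1) (i2 + l2 + 1) (k + l - i2 + 1))
    (u1 : Ant W (0) (i3) (k + l + l2 + i3 - n + 2))
    (u2 : Ant W (k + l + l2 - n + 3) (Q) (k + l + l2 + i3 - n + 2))
    (D1 : Par W (i3 + 1) (Q) (i2 + l2 - i3 + 1))
    (D2 : Par W (i2 + l2 + 2) (n) (i3 - i2 - l2 - 1))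
    {L : ℤ} (mx : ∀ a b g, 0 < g → g < n → Par W a b g → b - a ≤ L)
    (hL : L ≤ (n - j - 3) ∧ L ≤ (n + Q - k - 3) ∧ L ≤ (n - l - 3) ∧ L ≤ (n + i - k - 2) ∧ L ≤ (n - l2 - 3) ∧ L ≤ (n + i3 - Q - 2) ∧ L ≤ (i2 + l2 - 1) ∧ L ≤ (n + i2 - k - l - 3) ∧ L ≤ (Q + i2 + l2 - i - l - 3))
    (bd0 : Bd W n L (j) (i) (k))
    (bd2 : Bd W n L (k + l + l2 - n + 2) (i3) (i2 + l2 + 1))
    (n1 : Nd W (j) (i) (k))
    (n2 : Nd W (i + l + 1) (i2) (k + l + 1))
    (n3 : Nd W (k + l + l2 - n + 2) (i3) (i2 + l2 + 1))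
    (b0 : (2 * l2 + 3) ≤ (n))
    (b1 : (2 * n + 2 * i2) ≤ (i + 3 * k + 4 * l + 4)) : False := by
  have ev := al.ev
  obtain ⟨y0, y1, y2, y3, y4, y5, y6, y7, y8, y9, y10, y11, y12, y13, y14, y15, y16, y17, y18, y19, y20, y21, y22⟩ := id hy
  have n1p := And.intro n1.p1 n1.p2
  have n2p := And.intro n2.p1 n2.p2
  have n3p := And.intro n3.p1 n3.p2
  by_cases z3 : (k) ≤ (i + 2 * i3)
  · have kk4 : (i + 1) ≤ (k) := by clear * - y18 y7; omega
    have kk5 : (k) ≤ (i + 2 * i3) := by clear * - z3; omega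
    have kk6 : (2 * n + i) ≤ (k + 2 * l + 2 * l2 + 2 * i3 + 4) := by clear * - b1 y20 y22; omega
    have kk7 : (2 * n + 2 * i2) ≤ (i + 3 * k + 4 * l + 4) := by clear * - b1; omega
    have kk8 : (k + l + 2) ≤ (n) := by clear * - y15 y16 y20; omega
    have kk9 : (n + i3) ≤ (k + l + l2 + 2) := by clear * - y14; omega
    have kk10 : (l2 + i3 + 2) ≤ (n) := by clear * - b0 y14 y15 y16 y20; omega
    have kk11 : (i + k + l + 2) ≤ (n + i2) := by clear * - b0 y14 y17 y19 y20; omega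
    have r12 : (i2 + l2 + i3 - 2 * n + 1) % 2 = 0 := by clear * - ev n1p n2p n3p; omega
    have r13 : (k - i) % 2 = 0 := by clear * - ev n1p n2p n3p; omega
    clear * - al b c u1 kk4 kk5 kk6 kk7 kk8 kk9 kk10 kk11 r12 r13
    exact midP al (k - i) (i2 + l2 + i3 - 2 * n + 1) (i2 - k - l - 1) (i - n + 1) (k + l - n + 1) (by omega) (fun t h1 h2 => (cE (cI (qf c al (-1) t (t + (n + k + l - i2 + 1)) (by omega)) (qa u1 al 1 (t + (n + k + l - i2 + 1)) ((i2 + l2 + i3 - n + 1) - t) (by omega))) (sh al (-1) ((i2 + l2 + i3 - n + 1) - t) ((i2 + l2 + i3 - 2 * n + 1) - t) (by omega)))) (fun t h1 h2 => (cE (qf b al (-1) t (t + (n + k - i)) (by omega)) (sh al (-1) (t + (n + k - i)) (t + (k - i)) (by omega))))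
  · exact t2d_3 al hy a1 a2 s1 s2 b tt c u1 u2 D1 D2 mx hL bd0 bd2 n1 n2 n3 (by clear * - b0; omega) (by clear * - b1; omega) (by clear * - z3; omega)

end Pool.Agent.MP_a38735_al.WL
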