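import Pool.Agent.MP_a38735_al.Zw10
import Pool.Agent.MP_a38735_al.Zw11

set_option autoImplicit false
set_option linter.unusedVariables false

namespace Pool.Agent.MP_a38735_al.WL

variable {G : Type*} [Group G]

theorem t2d_18 {W : ℤ → G} {n Q i j k l i2 l2 i3 : ℤ} (al : AL W n Q)
    (hy : (0) ≤ (i) ∧ (i) ≤ (j) ∧ (j + 1) ≤ (Q) ∧ (Q) ≤ (k) ∧ (k + 1) ≤ (n) ∧ (Q) ≤ (i + l + 1) ∧ (k + l + 2) ≤ (n) ∧ (Q) ≤ (i2) ∧ (i2) ≤ (i + l + 1) ∧ (Q) ≤ (i2 + l2 + 1) ∧ (i2 + l2 + 2) ≤ (n) ∧ (n) ≤ (k + l + l2 + 2) ∧ (k + l + l2 + 3) ≤ (n + Q) ∧ (0) ≤ (i3) ∧ (n + i3) ≤ (k + l + l2 + 2) ∧ (k + i2 + l2 + 2) ≤ (n + j + i3) ∧ (j + i3 + 1) ≤ (k) ∧ (k + i2 + l2 + 2) ≤ (n + i3) ∧ (i + 2 * i2 + 1) ≤ (2 * Q + k) ∧ (i + l + 1) ≤ (i2 + l2) ∧ (k + l + 1) ≤ (i2 + l2) ∧ (n + i2) ≤ (2 * k + 2 * l + 2) ∧ (i + 1) ≤ (i3))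
    (a1 : Par W (0) (j) (k - j))
    (a2 : Par W (Q + j - k) (j) (k - j))
    (s1 : Ant W (0) (i) (i + j))
    (s2 : Ant W (j + 1) (Q) (i + j))
    (b : Par W (i + 1) (i + l + 1) (k - i))
    (tt : Ant W (Q) (i2) (i + l + i2 + 1))
    (c : Par W (i2 + 1) (i2 + l2 + 1) (k + l - i2 + 1))
    (u1 : Ant W (0) (i3) (k + l + l2 + i3 - n + 2))
    (u2 : Ant W (k + l + l2 - n + 3) (Q) (k + l + l2 + i3 - n + 2))
    (D1 : Par W (i3 + 1) (Q) (i2 + l2 - i3 + 1))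
    (D2 : Par W (i2 + l2 + 2) (n) (i3 - i2 - l2 - 1))
    {L : ℤ} (mx : ∀ a b g, 0 < g → g < n → Par W a b g → b - a ≤ L)
    (hL : L ≤ (n - j - 3) ∧ L ≤ (n + Q - k - 3) ∧ L ≤ (n - l - 3) ∧ L ≤ (n + i - k - 2) ∧ L ≤ (n - l2 - 3) ∧ L ≤ (n + i3 - Q - 2) ∧ L ≤ (i2 + l2 - 1) ∧ L ≤ (n + i2 - k - l - 3) ∧ L ≤ (Q + i2 + l2 - i - l - 3))
    (bd0 : Bd W n L (j) (i) (k))
    (bd2 : Bd W n L (k + l + l2 - n + 2) (i3) (i2 + l2 + 1))
    (n1 : Nd W (j) (i) (k))
    (n2 : Nd W (i + l + 1) (i2) (k + l + 1))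
    (n3 : Nd W (k + l + l2 - n + 2) (i3) (i2 + l2 + 1))
    (b0 : (2 * l2 + 3) ≤ (n))
    (b1 : (i + 3 * k + 4 * l + 5) ≤ (2 * n + 2 * i2))
    (b2 : (n + i) ≤ (k + i2 + l2))
    (b3 : (n + i3) ≤ (j + l + l2 + 3))
    (b4 : (j + 2 * i3 + 1) ≤ (k))
    (b5 : (2 * i + l + i2 + 3) ≤ (2 * Q + k))
    (b6 : (k + l + l2 + i3 + 2) ≤ (n + i + j)) : False := by
  have ev := al.ev
  obtain ⟨y0, y1, y2, y3, y4, y5, y6, y7, y8, y9, y10, y11, y12, y13, y14, y15, y16, y17, y18, y19, y20, y21, y22⟩ := id hy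
  have n1p := And.intro n1.p1 n1.p2
  have n2p := And.intro n2.p1 n2.p2
  have n3p := And.intro n3.p1 n3.p2
  by_cases z40 : (n + i + j) ≤ (k + l + l2 + i3 + 2)
  · have kk511 : (k + l + l2 + i3 + 3) ≤ (n + Q + i) := by clear * - b6 y2; omega
    have kk512 : (i + 1) ≤ (i3) := by clear * - y22; omega
    have kk513 : (n + i + j) ≤ (k + l + l2 + i3 + 2) := by clear * - z40; omega
    have kk514 : (k + l + l2 + i3 + 2) ≤ (n + i + j) := by clear * - b6; omega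
    clear * - al u2 n1 kk511 kk512 kk513 kk514
    exact n1.f2 (ab u2 al 0 (i) (j) (by omega))
  · by_cases z41 : (3 * j + 2) ≤ (i + 2 * k)
    · by_cases z42 : (2 * k) ≤ (i + 3 * j + 1)
      · have kk515 : (3 * j + 2) ≤ (i + 2 * k) := by clear * - z41; omega
        have kk516 : (2 * k) ≤ (i + 3 * j + 1) := by clear * - z42; omega
        have kk517 : (k) ≤ (2 * j + 1) := by clear * - b4 y22 z41 z42; omega
        have kk518 : (i) ≤ (j) := by clear * - b4 y22 z41 z42; omega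
        have kk519 : (i + j + 1) ≤ (k) := by clear * - b4 y22 z41 z42; omega
        have r520 : (i + j - 2 * n) % 2 = 0 := by clear * - ev n1p n2p n3p; omega
        clear * - al a1 s1 kk515 kk516 kk517 kk518 kk519 r520
        obtain ⟨t, ht⟩ : ∃ t, 2 * t = (i + j - 2 * n) := ⟨(i + j - 2 * n) / 2, by omega⟩
        exact al.ninv t (cE (cE (cI (qf a1 al (-1) t (t + (n + k - j)) (by omega)) (ab s1 al 0 (t + (n + k - j)) ((i + 2 * j - n - k) - t) (by omega))) (qf a1 al 0 ((i + 2 * j - n - k) - t) ((i + j - n) - t) (by omega))) (sh al (-1) ((i + j - n) - t) t (by omega)))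
      · by_cases z43 : (i + 2 * i2 + l2 + 1) ≤ (2 * k + l + i3)
        · by_cases v21 : (2 * i2 + l2) ≤ (2 * k + l)
          · have kk521 : (j + 1) ≤ (k) := by clear * - b3 y22 z40 z41; omega
            have kk522 : (i + 2 * i2 + l2 + 1) ≤ (2 * k + l + i3) := by clear * - z43; omega
            have kk523 : (2 * k + l + i3) ≤ (i + j + 2 * i2 + l2 + 1) := by clear * - b3 y13 y2 y20 y7 z40; omega
            have kk524 : (2 * k + l + i3) ≤ (j + 2 * i2 + l2) := by clear * - b0 b3 y20; omega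
            have kk525 : (k + i2 + l2 + 2) ≤ (n + i3) := by clear * - y17; omega
            have kk526 : (k + l) ≤ (i2 + l2) := by clear * - y20; omega
            have kk527 : (n) ≤ (k + l + l2 + 2) := by clear * - y20 y21; omega
            have kk528 : (2 * i2 + l2) ≤ (2 * k + l) := by clear * - v21; omega
            have kk529 : (n + i2) ≤ (2 * k + 2 * l + 2) := by clear * - y21; omega
            have r530 : (k - j) % 2 = 0 := by clear * - ev n1p n2p n3p; omega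
            have r531 : (2 * k + l + i3 - i - 2 * i2 - l2) % 2 = 0 := by clear * - ev n1p n2p n3p; omega
            clear * - al a1 b c D2 n1 kk521 kk522 kk523 kk524 kk525 kk526 kk527 kk528 kk529 r530 r531
            exact n1.f0 (rEE (sh al (-1) (j) (j - n) (by omega)) (sh al (-1) (k) (k - n) (by omega)) (rotR (k - j) (2 * k + l + i3 - i - 2 * i2 - l2) (j - n) (k - n) (by omega) (fun t h1 h2 => (cE (qf a1 al (-1) t (t + (n + k - j)) (by omega)) (sh al (-1) (t + (n + k - j)) (t + (k - j)) (by omega)))) (fun t h1 h2 => (cE (cE (qf b al (-1) t (t + (n + k - i)) (by omega)) (pb (show Par W (i3 + 1) (n + i3 - i2 - l2 - 1) (2 * i2 + l2 - k - l - i3) from fun t h1 h2 => (cE (sh al (-1) t (t + (-n)) (by omega)) (cE (pb D2 al (-1) (t + (-n)) (t + (i2 + l2 - i3 + 1)) (by omega)) (pb c al 0 (t + (i2 + l2 - i3 + 1)) (t + (2 * i2 + l2 - k - l - i3)) (by omega))))) al 0 (t + (n + k - i)) (t + (n + 2 * k + l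 + i3 - i - 2 * i2 - l2)) (by omega))) (sh al (-1) (t + (n + 2 * k + l + i3 - i - 2 * i2 - l2)) (t + (2 * k + l + i3 - i - 2 * i2 - l2)) (by omega))))))
          · have kk532 : (j + 1) ≤ (k) := by clear * - b3 v21 z40 z41 z43; omega
            have kk533 : (i + 2 * i2 + l2 + 1) ≤ (2 * k + l + i3) := by clear * - z43; omega
            have kk534 : (2 * k + l + i3) ≤ (i + j + 2 * i2 + l2 + 1) := by clear * - v21 y20 y21 z40; omega
            have kk535 : (i3) ≤ (j) := by clear * - b3 v21 z40 z41 z43; omega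
            have kk536 : (k + i2 + l2 + 2) ≤ (n + i3) := by clear * - y17; omega
            have kk537 : (k + l) ≤ (i2 + l2) := by clear * - y20; omega
            have kk538 : (n) ≤ (k + l + l2 + 2) := by clear * - y20 y21; omega
            have kk539 : (2 * k + l) ≤ (2 * i2 + l2) := by clear * - v21; omega
            have kk540 : (n + i2) ≤ (2 * k + 2 * l + 2) := by clear * - y21; omega
            have r541 : (k - j) % 2 = 0 := by clear * - ev n1p n2p n3p; omega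
            have r542 : (2 * k + l + i3 - i - 2 * i2 - l2) % 2 = 0 := by clear * - ev n1p n2p n3p; omega
            clear * - al a1 b c D2 n1 kk532 kk533 kk534 kk535 kk536 kk537 kk538 kk539 kk540 r541 r542
            exact n1.f0 (rEE (sh al (-1) (j) (j - n) (by omega)) (sh al (-1) (k) (k - n) (by omega)) (rotR (k - j) (2 * k + l + i3 - i - 2 * i2 - l2) (j - n) (k - n) (by omega) (fun t h1 h2 => (cE (qf a1 al (-1) t (t + (n + k - j)) (by omega)) (sh al (-1) (t + (n + k - j)) (t + (k - j)) (by omega)))) (fun t h1 h2 => (cE (cE (qf b al (-1) t (t + (n + k - i)) (by omega)) (pb (show Par W (i3 + 1) (n + i3 - i2 - l2 - 1) (2 * i2 + l2 - k - l - i3) from fun t h1 h2 => (cE (sh al (-1) t (t + (-n)) (by omega)) (cE (pb D2 al (-1) (t + (-n)) (t + (i2 + l2 - i3 + 1)) (by omega)) (pb c al 0 (t + (i2 + l2 - i3 + 1)) (t + (2 * i2 + l2 - k - l - i3)) (by omega))))) al 0 (t + (n + k - i)) (t + (n + 2 * k + l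 + i3 - i - 2 * i2 - l2)) (by omega))) (sh al (-1) (t + (n + 2 * k + l + i3 - i - 2 * i2 - l2)) (t + (2 * k + l + i3 - i - 2 * i2 - l2)) (by omega))))))
        · have kk543 : (3 * k + l + 2) ≤ (n + 2 * i + i2) := by clear * - y0 y17 z43; omega
          have kk544 : (2 * i + l + i2 + 2 * l2 + 5) ≤ (n + 2 * Q + k) := by clear * - b0 b5; omega
          have kk545 : (3 * k + l + 3) ≤ (n + i2 + 2 * i3) := by clear * - b2 y13 y17 z43; omega
          have kk546 : (2 * j + i2 + 2 * l2 + 3) ≤ (n + 2 * i + k + l) := by clear * - b0 b3 y0 y17 z42; omega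
          have kk547 : (n) ≤ (j + l + l2 + 3) := by clear * - b3 y13; omega
          have kk548 : (Q) ≤ (k) := by clear * - y3; omega
          have kk549 : (i + i2) ≤ (2 * k) := by clear * - b3 y18 y22 y3 z40 z41; omega
          have kk550 : (i) ≤ (k) := by clear * - b3 y22 z40 z41; omega
          have kk551 : (k + l) ≤ (i2 + l2) := by clear * - y20; omega
          have kk552 : (k + i3) ≤ (2 * i + l + 1) := by clear * - b0 b3 y0 y17 z42 z43; omega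
          have kk553 : (3 * k) ≤ (i + j + i2 + l2 + 1) := by clear * - b3 y13 y17 z43; omega
          have r554 : (j + l + l2 + i3 - n + 2) % 2 = 0 := by clear * - ev n1p n2p n3p; omega
          have r555 : (n + 2 * i + i2 - 3 * k - l - 1) % 2 = 0 := by clear * - ev n1p n2p n3p; omega
          clear * - al a1 b c u2 kk543 kk544 kk545 kk546 kk547 kk548 kk549 kk550 kk551 kk552 kk553 r554 r555
          exact midP al (n + 2 * i + i2 - 3 * k - l - 1) (j + l + l2 + i3 - n + 2) (j + l + l2 - n + 3) (3 * k + l - n - i - i2 + 2) (2 * i + l - k + 1) (by omega) (fun t h1 h2 => (cI (qf a1 al 0 t (t + (k - j)) (by omega)) (qa u2 al 0 (t + (k - j)) ((j + l + l2 + i3 - n + 2) - t) (by omega)))) (fun t h1 h2 => (cE (cE (pb c al (-1) t (t + (n + i2 - k - l - 1)) (by omega)) (pb b al 0 (t + (n + i2 - k - l - 1)) (t + (n + i + i2 - 2 * k - l - 1)) (by omega))) (pb b al 0 (t + (n + i + i2 - 2 * k - l - 1)) (t +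 (n + 2 * i + i2 - 3 * k - l - 1)) (by omega))))
    · by_cases z44 : (n + i + j + l + 3 * i3 + 2) ≤ (2 * Q + k + 2 * i2 + l2)
      · have kk556 : (k + l + l2 + i3 + 3) ≤ (n + i + j) := by clear * - z40; omega
        have kk557 : (n + i + j + l + 3 * i3 + 2) ≤ (2 * Q + k + 2 * i2 + l2) := by clear * - z44; omega
        have kk558 : (k + l + l2 + i3 + 4) ≤ (n + i + j) := by clear * - z40 ev n1p n2p n3p; omega
        have kk559 : (i) ≤ (i3) := by clear * - y22; omega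
        have kk560 : (k + l + l2 + i3 + 2) ≤ (n + i + j) := by clear * - z40; omega
        have kk561 : (0) ≤ (i3) := by clear * - y13; omega
        have kk562 : (k + i2 + l2 + 1) ≤ (n + i3) := by clear * - y17; omega
        have kk563 : (j + i3 + 1) ≤ (k) := by clear * - y16; omega
        have kk564 : (Q + i2) ≤ (j + l + 2 * i3 + 2) := by clear * - b3 y13 y17 y3; omega
        have kk565 : (k + i2 + l2 + 1) ≤ (n + i + i3) := by clear * - y0 y17; omega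
        have kk566 : (j) ≤ (Q) := by clear * - y2; omega
        have r567 : (j + l + 2 * i3 - 2 * n - i2 + 1) % 2 = 0 := by clear * - ev n1p n2p n3p; omega
        have r568 : (n + i + j - k - l - l2 - i3 - 2) % 2 = 0 := by clear * - ev n1p n2p n3p; omega
        clear * - al a1 s2 u2 D2 kk556 kk557 kk558 kk559 kk560 kk561 kk562 kk563 kk564 kk565 kk566 r567 r568
        exact midP al (n + i + j - k - l - l2 - i3 - 2) (j + l + 2 * i3 - 2 * n - i2 + 1) (l + 2 * i3 - n - i2 + 2) (k + l + l2 + i3 - 2 * n - i + 3) (Q - n) (by omega) (fun t h1 h2 => (cE (cE (cE (qa u2 al (-1) t ((k + l + l2 + i3 - 2 * n + 2) - t) (by omega)) (qf D2 al (-1) ((k + l + l2 + i3 - 2 * n + 2) - t) ((k + l + 2 * i3 - n - i2 + 1) - t) (by omega))) (pb a1 al 0 ((k + l + 2 * i3 - n - i2 + 1) - t) ((j + l + 2 * i3 - n - i2 + 1) - t) (by omega))) (sh al (-1) ((j + l + 2 * i3 - n - i2 + 1) - t) ((j + l + 2 * i3 - 2 * n - i2 + 1) -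 t) (by omega)))) (fun t h1 h2 => (cE (qf (show Par W (k + l + l2 + i3 - n - i + 3) (Q + k + l + l2 + i3 - n - i - j + 2) (n + i + j - k - l - l2 - i3 - 2) from fun t h1 h2 => (cE (sh al (-1) t (t + (-n)) (by omega)) (cII (qa u2 al (-1) (t + (-n)) ((k + l + l2 + i3 - n + 2) - t) (by omega)) (ab s2 al 0 ((k + l + l2 + i3 - n + 2) - t) (t + (n + i + j - k - l - l2 - i3 - 2)) (by omega))))) al (-1) t (t + (2 * n + i + j - k - l - l2 - i3 - 2)) (by omega)) (sh al (-1) (t + (2 * n + i + j - k - l - l2 - i3 - 2)) (t + (n + i + j - k - l - l2 - i3 - 2)) (by omega))))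
      · by_cases z45 : (2 * Q + k) ≤ (j + 2 * i2)
        · have kk569 : (j + 1) ≤ (k) := by clear * - b4 y13; omega
          have kk570 : (2 * Q + k) ≤ (j + 2 * i2) := by clear * - z45; omega
          have kk571 : (2 * Q + 3 * k) ≤ (4 * i + j + 2 * l + 2 * i2 + 4) := by clear * - b3 b4 b5 y0 y2 z41 z44 z45; linarith
          have kk572 : (2 * Q) ≤ (j + k) := by clear * - b2 b4 z40 z44; omega
          have kk573 : (i + i2 + 1) ≤ (Q + k) := by clear * - b1 y18 y21; omega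
          have kk574 : (k) ≤ (i + l + 1) := by clear * - b2 b3 b4 y2 z40 z44 z45; linarith
          have kk575 : (2 * k) ≤ (2 * i + l + i2 + 2) := by clear * - b3 y0 y2 z40 z44 z45; omega
          have kk576 : (2 * i + l + i2 + 2) ≤ (Q + 2 * k) := by clear * - b2 b5 y16 z40 z44; omega
          have r577 : (2 * i + l + i2 - k + 1) % 2 = 0 := by clear * - ev n1p n2p n3p; omega
          have r578 : (k - j) % 2 = 0 := by clear * - ev n1p n2p n3p; omega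
          clear * - al a1 b tt kk569 kk570 kk571 kk572 kk573 kk574 kk575 kk576 r577 r578
          exact midP al (k - j) (2 * i + l + i2 - k + 1) (Q) (0) (k) (by omega) (fun t h1 h2 => (cE (qa tt al 0 t ((i + l + i2 + 1) - t) (by omega)) (pb b al 0 ((i + l + i2 + 1) - t) ((2 * i + l + i2 - k + 1) - t) (by omega)))) (fun t h1 h2 => (qf a1 al 0 t (t + (k - j)) (by omega)))
        · by_cases z46 : (2 * j + 3 * i2 + 3 * l2 + 3) ≤ (n + i + 3 * k + 2 * l + i3)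
          · have kk579 : (k + i2 + l2 + 2) ≤ (n + i + i3) := by clear * - y2 z40 z44; omega
            have kk580 : (n + i) ≤ (k + i2 + l2 + i3 + 1) := by clear * - b2 y13; omega
            have kk581 : (k + i2 + l2 + 3) ≤ (n + i + i3) := by clear * - y2 z40 z44 ev n1p n2p n3p; omega
            have kk582 : (2 * j + 3 * i2 + 3 * l2 + 3) ≤ (n + i + 3 * k + 2 * l + i3) := by clear * - z46; omega
            have kk583 : (i2) ≤ (k) := by clear * - b2 b4 z40 z44 z45; omega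
            have kk584 : (k + l) ≤ (i2 + l2) := by clear * - y20; omega
            have kk585 : (n) ≤ (k + l + l2 + 2) := by clear * - y20 y21; omega
            have kk586 : (n) ≤ (j + l + l2 + 3) := by clear * - b3 y13; omega
            have kk587 : (l + l2 + i3 + 3) ≤ (n) := by clear * - b1 b2 b3 b4 z40 z41 z46; linarith
            have kk588 : (i + k + l) ≤ (2 * i2 + l2) := by clear * - b0 b2 b3 b4 y20 y22 z46; linarith
            have kk589 : (i + k + 2 * l + 2) ≤ (n + i2) := by clear * - b1 y21; omega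
            have kk590 : (k + i2) ≤ (i + j + l + 1) := by clear * - b3 y2 z40 z44; omega
            have kk591 : (2 * i2 + l2) ≤ (i + k + 2 * l + 1) := by clear * - b3 y2 z40 z44 z46; omega
            have r592 : (j + l + l2 + i3 - n + 2) % 2 = 0 := by clear * - ev n1p n2p n3p; omega
            have r593 : (n + i + i3 - k - i2 - l2 - 1) % 2 = 0 := by clear * - ev n1p n2p n3p; omega
            clear * - al a1 b c u1 D2 kk579 kk580 kk581 kk582 kk583 kk584 kk585 kk586 kk587 kk588 kk589 kk590 kk591 r592 r593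
            exact midP al (n + i + i3 - k - i2 - l2 - 1) (j + l + l2 + i3 - n + 2) (j + l + l2 - n + 3) (k + i2 + l2 - n - i + 2) (i + k + 2 * l + i3 - 2 * i2 - l2 + 1) (by omega) (fun t h1 h2 => (cI (qf a1 al 0 t (t + (k - j)) (by omega)) (ab u1 al 0 (t + (k - j)) ((j + l + l2 + i3 - n + 2) - t) (by omega)))) (fun t h1 h2 => (cE (qf (show Par W (2 * k + l - i2 + 2) (2 * k + 2 * l - i2 + 2) (n + i + i2 - 2 * k - l - 1) from fun t h1 h2 => (cE (sh al (-1) t (t + (-n)) (by omega)) (cE (cE (pb c al (-1) (t + (-n)) (t + (i2 - k - l - 1)) (by omega)) (pb b al 0 (t + (i2 - k - l - 1)) (t + (i + i2 - 2 * k - l - 1)) (by omega))) (sh al 1 (t + (i + i2 - 2 * k - l - 1)) (t + (n + i + i2 - 2 * k - l - 1)) (by omega))))) al (-1) t (t + (2 * n + i + i2 - 2 * k - l - 1)) (by omega)) (pb (show Par W (i3 + 1) (n + i3 - i2 - l2 - 1) (2 * i2 + l2 - k - l - i3) from fun t h1 h2 => (cE (sh al (-1) t (t + (-n)) (by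 omega)) (cE (pb D2 al (-1) (t + (-n)) (t + (i2 + l2 - i3 + 1)) (by omega)) (pb c al 0 (t + (i2 + l2 - i3 + 1)) (t + (2 * i2 + l2 - k - l - i3)) (by omega))))) al 1 (t + (2 * n + i + i2 - 2 * k - l - 1)) (t + (n + i + i3 - k - i2 - l2 - 1)) (by omega))))
          · by_cases v22 : (Q + i + 2 * i2 + l2) ≤ (3 * k + l + i3)
            · have kk594 : (2 * k + l + 1) ≤ (2 * i2 + l2) := by clear * - y2 y7 z40 z44 z46; omega
              have kk595 : (2 * i2 + l2) ≤ (2 * k + 2 * l) := by clear * - b0 b4 b5 y20 y21 z44 z45 z46; linarith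
              have kk596 : (j + 1) ≤ (k) := by clear * - b4 y13; omega
              have kk597 : (0) ≤ (j) := by clear * - b0 v22 y20 y21 z40 z44 z45 z46; linarith
              have kk598 : (2 * k + l) ≤ (i + 2 * i2 + l2) := by clear * - b0 b2 b4 y0 y2 z44 z46; linarith
              have kk599 : (i + 2 * i2 + l2 + 1) ≤ (3 * k + l) := by clear * - b0 b1 b4 v22 y21 z40 z44 z45 z46; linarith
              have kk600 : (0) ≤ (i3) := by clear * - y13; omega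
              have kk601 : (i3 + 1) ≤ (k) := by clear * - b0 b4 v22 y20 y21 z40 z44 z45 z46; linarith
              have kk602 : (k + i3) ≤ (Q + j + 1) := by clear * - b3 y12; omega
              have kk603 : (i2) ≤ (k) := by clear * - b2 b4 z40 z44 z45; omega
              have kk604 : (k + l) ≤ (i2 + l2) := by clear * - y20; omega
              have kk605 : (2 * k + l) ≤ (2 * i2 + l2) := by clear * - y2 y7 z40 z44 z46; omega
              have kk606 : (Q + 2 * i2 + l2) ≤ (2 * k + 2 * l + i3 + 1) := by clear * - b0 b1 b2 b4 y21 z44 z45; linarith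
              have kk607 : (2 * k + l) ≤ (i + 2 * i2 + l2 + 1) := by clear * - b0 b2 b4 y0 y2 z44 z46; linarith
              have kk608 : (0) ≤ (i3 + 1) := by clear * - y13; omega
              have kk609 : (Q + i + 2 * i2 + l2) ≤ (3 * k + l + i3) := by clear * - v22; omega
              have kk610 : (Q) ≤ (k) := by clear * - b2 y16 z40 z44; omega
              have r611 : (2 * k + l + i3 - i - 2 * i2 - l2) % 2 = 0 := by clear * - ev n1p n2p n3p; omega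
              have r612 : (k - j) % 2 = 0 := by clear * - ev n1p n2p n3p; omega
              clear * - al a1 b c D1 n3 kk594 kk595 kk596 kk597 kk598 kk599 kk600 kk601 kk602 kk603 kk604 kk605 kk606 kk607 kk608 kk609 kk610 r611 r612
              exact ivt0 (-n) (j - n) (k - j) (i + 2 * i2 + l2 - n - 2 * k - l + 1) (Q + i + 2 * i2 + l2 - n - 2 * k - l - i3) (2 * k + l + i3 - i - 2 * i2 - l2) (i + 2 * i2 + l2 - n - 2 * k - l) (i3 - n) 0 (fun t h1 h2 => (cE (qf a1 al (-1) t (t + (n + k - j)) (by omega)) (sh al (-1) (t + (n + k - j)) (t + (k - j)) (by omega)))) (fun t h1 h2 => (cE (sh al 1 t (t + (n)) (by omega)) (cE (cE (pb (show Par W (2 * k + l - i2 + 2) (2 * k + 2 * l - i2 + 2) (n + i + i2 - 2 * k - l - 1) from fun t h1 h2 => (cE (sh al (-1) t (t + (-n)) (by omega)) (cE (cE (pb c al (-1) (t + (-n)) (t + (i2 - k - l - 1)) (by omega)) (pb b al 0 (t + (i2 - k - l - 1)) (t + (i + i2 - 2 * k - l - 1))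 (by omega))) (sh al 1 (t + (i + i2 - 2 * k - l - 1)) (t + (n + i + i2 - 2 * k - l - 1)) (by omega))))) al (-1) (t + (n)) (t + (n + 2 * k + l - i - i2 + 1)) (by omega)) (pb D1 al 0 (t + (n + 2 * k + l - i - i2 + 1)) (t + (n + 2 * k + l + i3 - i - 2 * i2 - l2)) (by omega))) (sh al (-1) (t + (n + 2 * k + l + i3 - i - 2 * i2 - l2)) (t + (2 * k + l + i3 - i - 2 * i2 - l2)) (by omega))))) (fun hh => n3.f1 (rEE (sh al (-1) (i3) (i3 - n) (by omega)) (cE (qf (show Par W (2 * k + l - i2 + 2) (2 * k + 2 * l - i2 + 2) (n + i + i2 - 2 * k - l - 1) from fun t h1 h2 => (cE (sh al (-1) t (t + (-n)) (by omega)) (cE (cE (pb c al (-1) (t + (-n)) (t + (i2 - k - l - 1)) (by omega)) (pb b al 0 (t + (i2 - k - l - 1)) (t + (i + i2 - 2 * k - l - 1)) (by omega))) (sh al 1 (t + (i + i2 - 2 * k - l - 1)) (t + (n + i + i2 - 2 * k - l - 1)) (by omega))))) al 0 (i2 + l2 + 1) (n + i + 2 * i2 + l2 - 2 * k - l) (by omega)) (sh al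 (-2) (n + i + 2 * i2 + l2 - 2 * k - l) (i + 2 * i2 + l2 - n - 2 * k - l) (by omega))) (Eq.symm (Eq.symm hh)))) (by omega) (by omega)
            · have kk613 : (2 * k + l + 1) ≤ (2 * i2 + l2) := by clear * - b0 b2 b4 v22 z40 z44 z45 z46; linarith
              have kk614 : (2 * i2 + l2) ≤ (2 * k + 2 * l) := by clear * - b0 b2 b3 b4 v22 z40 z44 z45 z46; linarith
              have kk615 : (j + 1) ≤ (k) := by clear * - b0 b2 b4 v22 z40 z44 z45; linarith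
              have kk616 : (0) ≤ (j) := by clear * - b0 b2 b3 b4 v22 z40 z44 z45 z46; linarith
              have kk617 : (2 * k + l) ≤ (i + 2 * i2 + l2) := by clear * - b0 b2 b4 v22 z40 z44 z45; linarith
              have kk618 : (i + 2 * i2 + l2 + 1) ≤ (3 * k + l) := by clear * - b0 b2 b3 b4 v22 z40 z44 z45 z46; linarith
              have kk619 : (0) ≤ (i3) := by clear * - b0 b2 b4 v22 z40 z44 z45; linarith
              have kk620 : (i3 + 1) ≤ (k) := by clear * - b0 b2 b3 b4 v22 z40 z44 z45 z46; linarith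
              have kk621 : (i + 2 * i2 + l2) ≤ (j + 2 * k + l + 1) := by clear * - b0 b2 b3 b4 v22 z40 z44 z45 z46; linarith
              have kk622 : (i2) ≤ (k) := by clear * - b2 b4 z40 z44 z45; omega
              have kk623 : (k + l) ≤ (i2 + l2) := by clear * - b0 b2 b4 v22 z40 z44 z45 z46; linarith
              have kk624 : (2 * k + l) ≤ (2 * i2 + l2) := by clear * - b0 b2 b4 v22 z40 z44 z45 z46; linarith
              have kk625 : (Q + 2 * i2 + l2) ≤ (2 * k + 2 * l + i3 + 1) := by clear * - b0 b2 b3 b4 v22 z40 z44 z45; linarith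
              have kk626 : (2 * k + l) ≤ (i + 2 * i2 + l2 + 1) := by clear * - b0 b2 b4 v22 z40 z44 z45; linarith
              have kk627 : (0) ≤ (i3 + 1) := by clear * - b0 b2 b4 v22 z40 z44 z45; linarith
              have kk628 : (2 * k + l + i3) ≤ (i + 2 * i2 + l2) := by clear * - b0 b2 b4 v22 z40 z44 z45; linarith
              have kk629 : (3 * k + l + i3) ≤ (Q + i + 2 * i2 + l2) := by clear * - v22; omega
              have r630 : (2 * k + l + i3 - i - 2 * i2 - l2) % 2 = 0 := by clear * - ev n1p n2p n3p; omega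
              have r631 : (k - j) % 2 = 0 := by clear * - ev n1p n2p n3p; omega
              clear * - al a1 b c D1 n3 kk613 kk614 kk615 kk616 kk617 kk618 kk619 kk620 kk621 kk622 kk623 kk624 kk625 kk626 kk627 kk628 kk629 r630 r631
              exact ivt0 (-n) (j - n) (k - j) (i + 2 * i2 + l2 - n - 2 * k - l + 1) (k - n) (2 * k + l + i3 - i - 2 * i2 - l2) (i + 2 * i2 + l2 - n - 2 * k - l) (i3 - n) 0 (fun t h1 h2 => (cE (qf a1 al (-1) t (t + (n + k - j)) (by omega)) (sh al (-1) (t + (n + k - j)) (t + (k - j)) (by omega)))) (fun t h1 h2 => (cE (sh al 1 t (t + (n)) (by omega)) (cE (cE (pb (show Par W (2 * k + l - i2 + 2) (2 * k + 2 * l - i2 + 2) (n + i + i2 - 2 * k - l - 1) from fun t h1 h2 => (cE (sh al (-1) t (t + (-n)) (by omega)) (cE (cE (pb c al (-1) (t + (-n)) (t + (i2 - k - l - 1)) (by omega)) (pb b al 0 (t + (i2 - k - l - 1)) (t + (i + i2 - 2 * k - l - 1)) (by omega))) (sh al 1 (t + (i + i2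 - 2 * k - l - 1)) (t + (n + i + i2 - 2 * k - l - 1)) (by omega))))) al (-1) (t + (n)) (t + (n + 2 * k + l - i - i2 + 1)) (by omega)) (pb D1 al 0 (t + (n + 2 * k + l - i - i2 + 1)) (t + (n + 2 * k + l + i3 - i - 2 * i2 - l2)) (by omega))) (sh al (-1) (t + (n + 2 * k + l + i3 - i - 2 * i2 - l2)) (t + (2 * k + l + i3 - i - 2 * i2 - l2)) (by omega))))) (fun hh => n3.f1 (rEE (sh al (-1) (i3) (i3 - n) (by omega)) (cE (qf (show Par W (2 * k + l - i2 + 2) (2 * k + 2 * l - i2 + 2) (n + i + i2 - 2 * k - l - 1) from fun t h1 h2 => (cE (sh al (-1) t (t + (-n)) (by omega)) (cE (cE (pb c al (-1) (t + (-n)) (t + (i2 - k - l - 1)) (by omega)) (pb b al 0 (t + (i2 - k - l - 1)) (t + (i + i2 - 2 * k - l - 1)) (by omega))) (sh al 1 (t + (i + i2 - 2 * k - l - 1)) (t + (n + i + i2 - 2 * k - l - 1)) (by omega))))) al 0 (i2 + l2 + 1) (n + i + 2 * i2 + l2 - 2 * k - l) (by omega)) (sh al (-2) (n + i + 2 * i2 + l2 - 2 * k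 - l) (i + 2 * i2 + l2 - n - 2 * k - l) (by omega))) (Eq.symm (Eq.symm hh)))) (by omega) (by omega)

theorem t2d_17 {W : ℤ → G} {n Q i j k l i2 l2 i3 : ℤ} (al : AL W n Q)
    (hy : (0) ≤ (i) ∧ (i) ≤ (j) ∧ (j + 1) ≤ (Q) ∧ (Q) ≤ (k) ∧ (k + 1) ≤ (n) ∧ (Q) ≤ (i + l + 1) ∧ (k + l + 2) ≤ (n) ∧ (Q) ≤ (i2) ∧ (i2) ≤ (i + l + 1) ∧ (Q) ≤ (i2 + l2 + 1) ∧ (i2 + l2 + 2) ≤ (n) ∧ (n) ≤ (k + l + l2 + 2) ∧ (k + l + l2 + 3) ≤ (n + Q) ∧ (0) ≤ (i3) ∧ (n + i3) ≤ (k + l + l2 + 2) ∧ (k + i2 + l2 + 2) ≤ (n + j + i3) ∧ (j + i3 + 1) ≤ (k) ∧ (k + i2 + l2 + 2) ≤ (n + i3) ∧ (i + 2 * i2 + 1) ≤ (2 * Q + k) ∧ (i + l + 1) ≤ (i2 + l2) ∧ (k + l + 1) ≤ (i2 + l2) ∧ (n + i2) ≤ (2 * k + 2 * l + 2) ∧ (i + 1) ≤ (i3))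
    (a1 : Par W (0) (j) (k - j))
    (a2 : Par W (Q + j - k) (j) (k - j))
    (s1 : Ant W (0) (i) (i + j))
    (s2 : Ant W (j + 1) (Q) (i + j))
    (b : Par W (i + 1) (i + l + 1) (k - i))
    (tt : Ant W (Q) (i2) (i + l + i2 + 1))
    (c : Par W (i2 + 1) (i2 + l2 + 1) (k + l - i2 + 1))
    (u1 : Ant W (0) (i3) (k + l + l2 + i3 - n + 2))
    (u2 : Ant W (k + l + l2 - n + 3) (Q) (k + l + l2 + i3 - n + 2))
    (D1 : Par W (i3 + 1) (Q) (i2 + l2 - i3 + 1))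
    (D2 : Par W (i2 + l2 + 2) (n) (i3 - i2 - l2 - 1))
    {L : ℤ} (mx : ∀ a b g, 0 < g → g < n → Par W a b g → b - a ≤ L)
    (hL : L ≤ (n - j - 3) ∧ L ≤ (n + Q - k - 3) ∧ L ≤ (n - l - 3) ∧ L ≤ (n + i - k - 2) ∧ L ≤ (n - l2 - 3) ∧ L ≤ (n + i3 - Q - 2) ∧ L ≤ (i2 + l2 - 1) ∧ L ≤ (n + i2 - k - l - 3) ∧ L ≤ (Q + i2 + l2 - i - l - 3))
    (bd0 : Bd W n L (j) (i) (k))
    (bd2 : Bd W n L (k + l + l2 - n + 2) (i3) (i2 + l2 + 1))
    (n1 : Nd W (j) (i) (k))
    (n2 : Nd W (i + l + 1) (i2) (k + l + 1))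
    (n3 : Nd W (k + l + l2 - n + 2) (i3) (i2 + l2 + 1))
    (b0 : (2 * l2 + 3) ≤ (n))
    (b1 : (i + 3 * k + 4 * l + 5) ≤ (2 * n + 2 * i2))
    (b2 : (n + i) ≤ (k + i2 + l2))
    (b3 : (k + 2 * l + 2 * l2 + 6) ≤ (2 * n + j))
    (b4 : (n + i3) ≤ (j + l + l2 + 3))
    (b5 : (j + 2 * i3 + 1) ≤ (k))
    (b6 : (2 * i + l + i2 + 3) ≤ (2 * Q + k))
    (b7 : (n + i + j) ≤ (k + l + l2 + i3 + 1)) : False := by
  have ev := al.ev
  obtain ⟨y0, y1, y2, y3, y4, y5, y6, y7, y8, y9, y10, y11, y12, y13, y14, y15, y16, y17, y18, y19, y20, y21, y22⟩ := id hy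
  have n1p := And.intro n1.p1 n1.p2
  have n2p := And.intro n2.p1 n2.p2
  have n3p := And.intro n3.p1 n3.p2
  by_cases z33 : (k + l + l2 + i3 + 3) ≤ (n + Q)
  · by_cases z34 : (n + i + j + i3) ≤ (2 * Q + i2 + l2)
    · have kk411 : (i + j + i2 + l2 + 3) ≤ (n + i3) := by clear * - b3 b5 b7 y17; omega
      have kk412 : (n + i + j + i3) ≤ (2 * Q + i2 + l2) := by clear * - z34; omega
      have kk413 : (0) ≤ (i) := by clear * - y0; omega
      have kk414 : (Q + i2 + l2 + 1) ≤ (n + i + j) := by clear * - b3 b4 y0 y17 y3 z34; omega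
      have r415 : (i + j + i3 - n - i2 - l2 - 1) % 2 = 0 := by clear * - ev n1p n2p n3p; omega
      clear * - al s2 D2 kk411 kk412 kk413 kk414 r415
      obtain ⟨t, ht⟩ : ∃ t, 2 * t = (i + j + i3 - n - i2 - l2 - 1) := ⟨(i + j + i3 - n - i2 - l2 - 1) / 2, by omega⟩
      exact al.ninv t (cE (cE (qa s2 al (-1) t ((i + j - n) - t) (by omega)) (qf D2 al (-1) ((i + j - n) - t) ((i + j + i3 - i2 - l2 - 1) - t) (by omega))) (sh al (-1) ((i + j + i3 - i2 - l2 - 1) - t) t (by omega)))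
    · by_cases z35 : (k + l + l2 + 2) ≤ (n + i + j)
      · by_cases v17 : (k + l + l2 + 2) ≤ (n + j)
        · have kk416 : (n + i + j) ≤ (k + l + l2 + i3 + 1) := by clear * - b7; omega
          have kk417 : (k + l + l2 + i3 + 3) ≤ (2 * n + i + j) := by clear * - b0 b4 b5 b7 y20 z33 z34 z35; linarith
          have kk418 : (0) ≤ (i) := by clear * - y0; omega
          have kk419 : (k + l + l2 + i3 + 3) ≤ (n + Q) := by clear * - z33; omega
          have kk420 : (k + l + l2 + 2) ≤ (n + j) := by clear * - v17; omega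
          clear * - al s2 u1 kk416 kk417 kk418 kk419 kk420
          exact al.ubP (k + l + l2 + i3 - n - i - j + 2) (by omega) (by omega) fun t h1 h2 => (cE (sh al (-1) t (t + (-n)) (by omega)) (cII (ab s2 al (-1) (t + (-n)) ((i + j) - t) (by omega)) (ab u1 al 0 ((i + j) - t) (t + (k + l + l2 + i3 - n - i - j + 2)) (by omega))))
        · have kk421 : (n + i + j) ≤ (k + l + l2 + i3 + 1) := by clear * - b7; omega
          have kk422 : (k + l + l2 + i3 + 3) ≤ (2 * n + i + j) := by clear * - b0 b1 b4 b6 b7 v17 z33 z34 z35; linarith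
          have kk423 : (k + l + l2 + 2) ≤ (n + i + j) := by clear * - z35; omega
          have kk424 : (k + l + l2 + i3 + 3) ≤ (n + Q) := by clear * - z33; omega
          have kk425 : (n + j) ≤ (k + l + l2 + 2) := by clear * - v17; omega
          clear * - al s2 u1 kk421 kk422 kk423 kk424 kk425
          exact al.ubP (k + l + l2 + i3 - n - i - j + 2) (by omega) (by omega) fun t h1 h2 => (cE (sh al (-1) t (t + (-n)) (by omega)) (cII (ab s2 al (-1) (t + (-n)) ((i + j) - t) (by omega)) (ab u1 al 0 ((i + j) - t) (t + (k + l + l2 + i3 - n - i - j + 2)) (by omega))))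
      · by_cases z36 : (3 * k + l + 2) ≤ (n + 2 * i + i2)
        · have kk426 : (3 * k + l + 2) ≤ (n + 2 * i + i2) := by clear * - z36; omega
          have kk427 : (2 * i + l + i2 + 2 * l2 + 5) ≤ (n + 2 * Q + k) := by clear * - b0 b6; omega
          have kk428 : (3 * k + l + 3) ≤ (n + i2 + 2 * i3) := by clear * - y22 z36; omega
          have kk429 : (2 * j + i2 + 2 * l2 + 3) ≤ (n + 2 * i + k + l) := by clear * - b0 b7 y0 z33 z34 z35; omega
          have kk430 : (n) ≤ (j + l + l2 + 3) := by clear * - b4 y13; omega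
          have kk431 : (Q) ≤ (k) := by clear * - b2 y16 z34; omega
          have kk432 : (i + i2) ≤ (2 * k) := by clear * - b2 b5 b6 b7 y21 z33 z34 z35 z36; linarith
          have kk433 : (i) ≤ (k) := by clear * - b2 b6 b7 y21 z33 z34 z35 z36; linarith
          have kk434 : (k + l) ≤ (i2 + l2) := by clear * - y20; omega
          have kk435 : (k + i3) ≤ (2 * i + l + 1) := by clear * - b0 b4 b7 y0 z33 z34 z35 z36; linarith
          have kk436 : (3 * k) ≤ (i + j + i2 + l2 + 1) := by clear * - b4 y22 z36; omega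
          have r437 : (j + l + l2 + i3 - n + 2) % 2 = 0 := by clear * - ev n1p n2p n3p; omega
          have r438 : (n + 2 * i + i2 - 3 * k - l - 1) % 2 = 0 := by clear * - ev n1p n2p n3p; omega
          clear * - al a1 b c u2 kk426 kk427 kk428 kk429 kk430 kk431 kk432 kk433 kk434 kk435 kk436 r437 r438
          exact midP al (n + 2 * i + i2 - 3 * k - l - 1) (j + l + l2 + i3 - n + 2) (j + l + l2 - n + 3) (3 * k + l - n - i - i2 + 2) (2 * i + l - k + 1) (by omega) (fun t h1 h2 => (cI (qf a1 al 0 t (t + (k - j)) (by omega)) (qa u2 al 0 (t + (k - j)) ((j + l + l2 + i3 - n + 2) - t) (by omega)))) (fun t h1 h2 => (cE (cE (pb c al (-1) t (t + (n + i2 - k - l - 1)) (by omega)) (pb b al 0 (t + (n + i2 - k - l - 1)) (t + (n + i + i2 - 2 * k - l - 1)) (by omega))) (pb b al 0 (t + (n + i + i2 - 2 * k - l - 1)) (t + (n + 2 * i + i2 - 3 * k - l - 1)) (by omega))))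
        · by_cases v18 : (2 * i2 + l2) ≤ (2 * k + l)
          · have kk439 : (j + 1) ≤ (k) := by clear * - b5 y13; omega
            have kk440 : (i + 2 * i2 + l2 + 1) ≤ (2 * k + l + i3) := by clear * - v18 y22; omega
            have kk441 : (2 * k + l + i3) ≤ (i + j + 2 * i2 + l2 + 1) := by clear * - b0 b1 b4 b7 y0; omega
            have kk442 : (2 * k + l + i3) ≤ (j + 2 * i2 + l2) := by clear * - b0 b4 y20; omega
            have kk443 : (k + i2 + l2 + 2) ≤ (n + i3) := by clear * - y17; omega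
            have kk444 : (k + l) ≤ (i2 + l2) := by clear * - y20; omega
            have kk445 : (n) ≤ (k + l + l2 + 2) := by clear * - y20 y21; omega
            have kk446 : (2 * i2 + l2) ≤ (2 * k + l) := by clear * - v18; omega
            have kk447 : (n + i2) ≤ (2 * k + 2 * l + 2) := by clear * - y21; omega
            have r448 : (k - j) % 2 = 0 := by clear * - ev n1p n2p n3p; omega
            have r449 : (2 * k + l + i3 - i - 2 * i2 - l2) % 2 = 0 := by clear * - ev n1p n2p n3p; omega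
            clear * - al a1 b c D2 n1 kk439 kk440 kk441 kk442 kk443 kk444 kk445 kk446 kk447 r448 r449
            exact n1.f0 (rEE (sh al (-1) (j) (j - n) (by omega)) (sh al (-1) (k) (k - n) (by omega)) (rotR (k - j) (2 * k + l + i3 - i - 2 * i2 - l2) (j - n) (k - n) (by omega) (fun t h1 h2 => (cE (qf a1 al (-1) t (t + (n + k - j)) (by omega)) (sh al (-1) (t + (n + k - j)) (t + (k - j)) (by omega)))) (fun t h1 h2 => (cE (cE (qf b al (-1) t (t + (n + k - i)) (by omega)) (pb (show Par W (i3 + 1) (n + i3 - i2 - l2 - 1) (2 * i2 + l2 - k - l - i3) from fun t h1 h2 => (cE (sh al (-1) t (t + (-n)) (by omega)) (cE (pb D2 al (-1) (t + (-n)) (t + (i2 + l2 - i3 + 1)) (by omega)) (pb c al 0 (t + (i2 + l2 - i3 + 1)) (t + (2 * i2 + l2 - k - l - i3)) (by omega))))) al 0 (t + (n + k - i)) (t + (n + 2 * k + l + i3 - i - 2 * i2 - l2)) (by omega))) (sh al (-1) (t + (n + 2 * k + l + i3 - i - 2 * i2 - l2)) (t + (2 *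 k + l + i3 - i - 2 * i2 - l2)) (by omega))))))
          · have kk450 : (j + 1) ≤ (k) := by clear * - b5 y13; omega
            have kk451 : (i + 2 * i2 + l2 + 1) ≤ (2 * k + l + i3) := by clear * - y0 y17 z36; omega
            have kk452 : (2 * k + l + i3) ≤ (i + j + 2 * i2 + l2 + 1) := by clear * - b4 b7 v18 y0 z33 z34 z36; linarith
            have kk453 : (i3) ≤ (j) := by clear * - b3 b4 b5 y20 y21; omega
            have kk454 : (k + i2 + l2 + 2) ≤ (n + i3) := by clear * - y17; omega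
            have kk455 : (k + l) ≤ (i2 + l2) := by clear * - y20; omega
            have kk456 : (n) ≤ (k + l + l2 + 2) := by clear * - y20 y21; omega
            have kk457 : (2 * k + l) ≤ (2 * i2 + l2) := by clear * - v18; omega
            have kk458 : (n + i2) ≤ (2 * k + 2 * l + 2) := by clear * - y21; omega
            have r459 : (k - j) % 2 = 0 := by clear * - ev n1p n2p n3p; omega
            have r460 : (2 * k + l + i3 - i - 2 * i2 - l2) % 2 = 0 := by clear * - ev n1p n2p n3p; omega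
            clear * - al a1 b c D2 n1 kk450 kk451 kk452 kk453 kk454 kk455 kk456 kk457 kk458 r459 r460
            exact n1.f0 (rEE (sh al (-1) (j) (j - n) (by omega)) (sh al (-1) (k) (k - n) (by omega)) (rotR (k - j) (2 * k + l + i3 - i - 2 * i2 - l2) (j - n) (k - n) (by omega) (fun t h1 h2 => (cE (qf a1 al (-1) t (t + (n + k - j)) (by omega)) (sh al (-1) (t + (n + k - j)) (t + (k - j)) (by omega)))) (fun t h1 h2 => (cE (cE (qf b al (-1) t (t + (n + k - i)) (by omega)) (pb (show Par W (i3 + 1) (n + i3 - i2 - l2 - 1) (2 * i2 + l2 - k - l - i3) from fun t h1 h2 => (cE (sh al (-1) t (t + (-n)) (by omega)) (cE (pb D2 al (-1) (t + (-n)) (t + (i2 + l2 - i3 + 1)) (by omega)) (pb c al 0 (t + (i2 + l2 - i3 + 1)) (t + (2 * i2 + l2 - k - l - i3)) (by omega))))) al 0 (t + (n + k - i)) (t + (n + 2 * k + l + i3 - i - 2 * i2 - l2)) (by omega))) (sh al (-1) (t + (n + 2 * k + l + i3 - i - 2 * i2 - l2)) (t + (2 *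 k + l + i3 - i - 2 * i2 - l2)) (by omega))))))
  · by_cases z37 : (n + i + j + i3) ≤ (2 * Q + i2 + l2)
    · have kk461 : (n + i + j + i3 + 1) ≤ (2 * Q + i2 + l2) := by clear * - z37 ev n1p n2p n3p; omega
      have kk462 : (n + i + j + i3) ≤ (2 * Q + i2 + l2) := by clear * - z37; omega
      have kk463 : (Q + i2 + l2 + 1) ≤ (n + i + i3) := by clear * - b3 b5 y0 y17 z33; omega
      have kk464 : (Q + i2 + l2 + 1) ≤ (n + i + j) := by clear * - b3 b4 b5 y0 y17 z33 z37; linarith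
      have r465 : (i + j + i3 - n - i2 - l2 - 1) % 2 = 0 := by clear * - ev n1p n2p n3p; omega
      clear * - al s2 D1 kk461 kk462 kk463 kk464 r465
      obtain ⟨t, ht⟩ : ∃ t, 2 * t = (i + j + i3 - n - i2 - l2 - 1) := ⟨(i + j + i3 - n - i2 - l2 - 1) / 2, by omega⟩
      exact al.ninv t (cE (cE (qa s2 al (-1) t ((i + j - n) - t) (by omega)) (pb D1 al (-1) ((i + j - n) - t) ((i + j + i3 - i2 - l2 - 1) - t) (by omega))) (sh al (-1) ((i + j + i3 - i2 - l2 - 1) - t) t (by omega)))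
    · by_cases z38 : (2 * k + l + i3 + 1) ≤ (i + 2 * i2 + l2)
      · by_cases v19 : (n + 2 * i) ≤ (j + k + l2 + i3 + 2)
        · have kk466 : (3 * k + l + 2) ≤ (n + 2 * i + i2) := by clear * - y0 y17 z38; omega
          have kk467 : (2 * j + i2 + 2 * l2 + 3) ≤ (n + 2 * i + k + l) := by clear * - b0 b5 b7 y0 y17; omega
          have kk468 : (5 * k + 1) ≤ (n + 4 * i + l + i2) := by clear * - b0 b4 b5 b7 v19 y0 y17 z38; linarith
          have kk469 : (2 * j + k + i2 + 2 * l2 + 2 * i3 + 1) ≤ (n + 6 * i + 3 * l) := by clear * - b0 b4 b5 b7 y0 y17 z38; linarith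
          have kk470 : (l + l2 + i3 + 3) ≤ (n) := by clear * - b3 b5; omega
          have kk471 : (n) ≤ (j + l + l2 + 3) := by clear * - b4 y13; omega
          have kk472 : (i2) ≤ (k) := by clear * - b5 v19 y0 y17; omega
          have kk473 : (i) ≤ (k) := by clear * - b3 b4 b5 b6 b7 y21 z37 z38; linarith
          have kk474 : (k + l) ≤ (i2 + l2) := by clear * - b6 b7 z37 z38; omega
          have kk475 : (i + 2 * k + l) ≤ (j + i2 + l2 + i3) := by clear * - v19 y17 z38; omega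
          have kk476 : (n + 2 * i) ≤ (j + k + l2 + i3 + 2) := by clear * - v19; omega
          have r477 : (n + j + l + l2 + i3 + 2) % 2 = 0 := by clear * - ev n1p n2p n3p; omega
          have r478 : (n + 2 * i + i2 - 3 * k - l - 1) % 2 = 0 := by clear * - ev n1p n2p n3p; omega
          clear * - al a1 b c u1 kk466 kk467 kk468 kk469 kk470 kk471 kk472 kk473 kk474 kk475 kk476 r477 r478
          exact midP al (n + 2 * i + i2 - 3 * k - l - 1) (n + j + l + l2 + i3 + 2) (j + k + l2 + i3 - 2 * i + 2) (3 * k + l - i - i2 + 2) (n + 2 * i + l - k + 1) (by omega) (fun t h1 h2 => (cE (cE (qa u1 al 1 t ((k + l + l2 + i3 + 2) - t) (by omega)) (pb a1 al 0 ((k + l + l2 + i3 + 2) - t) ((j + l + l2 + i3 + 2) - t) (by omega))) (sh al 1 ((j + l + l2 + i3 + 2) - t) ((n + j + l + l2 + i3 + 2) - t) (by omega)))) (fun t h1 h2 => (cE (cE (cE (pb c al 0 t (t + (i2 - k - l - 1)) (by omega)) (pb b al 0 (t + (i2 - k - l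 - 1)) (t + (i + i2 - 2 * k - l - 1)) (by omega))) (pb b al 0 (t + (i + i2 - 2 * k - l - 1)) (t + (2 * i + i2 - 3 * k - l - 1)) (by omega))) (sh al 1 (t + (2 * i + i2 - 3 * k - l - 1)) (t + (n + 2 * i + i2 - 3 * k - l - 1)) (by omega))))
        · have kk479 : (3 * k + l + 2) ≤ (n + 2 * i + i2) := by clear * - y0 y17 z38; omega
          have kk480 : (n + 2 * i + i2) ≤ (3 * k + l + 2 * i3 + 1) := by clear * - b0 b6 z33; omega
          have kk481 : (n + 3 * k) ≤ (2 * j + l + i2 + 2 * l2 + 2 * i3 + 3) := by clear * - b2 b4 y13 y17 z38; omega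
          have kk482 : (n + i2) ≤ (2 * i + k + 3 * l + 3) := by clear * - b0 b4 b6 v19 y13 z33; omega
          have kk483 : (l + l2 + i3 + 3) ≤ (n) := by clear * - b3 b5; omega
          have kk484 : (n) ≤ (j + l + l2 + 3) := by clear * - b4 y13; omega
          have kk485 : (i + i2) ≤ (2 * k) := by clear * - b3 b4 b5 b6 b7 v19 z33; linarith
          have kk486 : (i) ≤ (k) := by clear * - b2 b3 b4 b6 b7 v19 z37; linarith
          have kk487 : (k + l) ≤ (i2 + l2) := by clear * - b6 b7 z37 z38; omega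
          have kk488 : (j + k + l2 + i3 + 2) ≤ (n + 2 * i) := by clear * - v19; omega
          have kk489 : (3 * k + l + 2) ≤ (n + i + i2) := by clear * - y17 z38; omega
          have r490 : (n + j + l + l2 + i3 + 2) % 2 = 0 := by clear * - ev n1p n2p n3p; omega
          have r491 : (n + 2 * i + i2 - 3 * k - l - 1) % 2 = 0 := by clear * - ev n1p n2p n3p; omega
          clear * - al a1 b c u1 kk479 kk480 kk481 kk482 kk483 kk484 kk485 kk486 kk487 kk488 kk489 r490 r491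
          exact midP al (n + 2 * i + i2 - 3 * k - l - 1) (n + j + l + l2 + i3 + 2) (n) (3 * k + l - i - i2 + 2) (n + 2 * i + l - k + 1) (by omega) (fun t h1 h2 => (cE (cE (qa u1 al 1 t ((k + l + l2 + i3 + 2) - t) (by omega)) (pb a1 al 0 ((k + l + l2 + i3 + 2) - t) ((j + l + l2 + i3 + 2) - t) (by omega))) (sh al 1 ((j + l + l2 + i3 + 2) - t) ((n + j + l + l2 + i3 + 2) - t) (by omega)))) (fun t h1 h2 => (cE (cE (cE (pb c al 0 t (t + (i2 - k - l - 1)) (by omega)) (pb b al 0 (t + (i2 - k - l - 1)) (t + (i + i2 - 2 * k - l - 1)) (by omega))) (pb b al 0 (t + (i + i2 - 2 * k - l - 1)) (t + (2 * i + i2 - 3 * k - l - 1)) (by omega))) (sh al 1 (t + (2 * i + i2 - 3 * k - l - 1)) (t + (n + 2 * i + i2 - 3 * k - l - 1)) (by omega))))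
      · by_cases z39 : (2 * k + l + i3) ≤ (i + 2 * i2 + l2)
        · by_cases v20 : (i2) ≤ (k)
          · have kk492 : (i + 1) ≤ (i3) := by clear * - y22; omega
            have kk493 : (i3) ≤ (i + l) := by clear * - b3 b5 b6 y17 y21 z33 z39; linarith
            have kk494 : (i + 2 * i2 + l2) ≤ (2 * k + l + i3) := by clear * - z38; omega
            have kk495 : (2 * k + l + i3) ≤ (i + 2 * i2 + l2) := by clear * - z39; omega
            have kk496 : (i2) ≤ (k) := by clear * - v20; omega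
            have kk497 : (k + l) ≤ (i2 + l2) := by clear * - b6 b7 z37 z39; omega
            clear * - al b c n3 kk492 kk493 kk494 kk495 kk496 kk497
            exact n3.f1 (cE (qf b al 0 (i3) (k + i3 - i) (by omega)) (qf c al 0 (k + i3 - i) (i2 + l2 + 1) (by omega)))
          · have kk498 : (i + i2 + 1) ≤ (k + i3) := by clear * - b6 b7 z37; omega
            have kk499 : (i3) ≤ (i + l) := by clear * - b0 b5 b7 v20 y18 y21 z37 z39; linarith
            have kk500 : (i + 2 * i2 + l2) ≤ (2 * k + l + i3) := by clear * - z38; omega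
            have kk501 : (2 * k + l + i3) ≤ (i + 2 * i2 + l2) := by clear * - z39; omega
            have kk502 : (k) ≤ (i2) := by clear * - v20; omega
            have kk503 : (k + l) ≤ (i2 + l2) := by clear * - b6 b7 z37 z39; omega
            clear * - al b c n3 kk498 kk499 kk500 kk501 kk502 kk503
            exact n3.f1 (cE (qf b al 0 (i3) (k + i3 - i) (by omega)) (qf c al 0 (k + i3 - i) (i2 + l2 + 1) (by omega)))
        · have kk504 : (i + 2 * i2 + l2 + 1) ≤ (2 * k + l + i3) := by clear * - z39; omega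
          have kk505 : (2 * k + l + i3 + 1) ≤ (n + i + 2 * i2 + l2) := by clear * - b0 b4 b5 b6 y20 y8 z33; linarith
          have kk506 : (2 * k + l + i3 + 2) ≤ (n + i + i2) := by clear * - b0 b1 b4 b5 b7 y0 y17 z39; linarith
          have kk507 : (i) ≤ (i3) := by clear * - y22; omega
          have kk508 : (i + i2) ≤ (k + i3) := by clear * - b6 b7 z37; omega
          have kk509 : (n + i3) ≤ (i + l + i2 + l2 + 2) := by clear * - b4 y0 y2 y7; omega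
          have kk510 : (n + k + i3) ≤ (i + 2 * i2 + 2 * l2 + 2) := by clear * - b1 b4 y0 y2 y7 z33; omega
          clear * - al b c D2 kk504 kk505 kk506 kk507 kk508 kk509 kk510
          exact al.ubP (2 * k + l + i3 - i - 2 * i2 - l2) (by omega) (by omega) fun t h1 h2 => (cE (sh al 2 t (t + (2 * n)) (by omega)) (cE (cE (cE (qf D2 al 1 (t + (2 * n)) (t + (n + i3 - i2 - l2 - 1)) (by omega)) (qf b al 0 (t + (n + i3 - i2 - l2 - 1)) (t + (n + k + i3 - i - i2 - l2 - 1)) (by omega))) (qf c al 0 (t + (n + k + i3 - i - i2 - l2 - 1)) (t + (n + 2 * k + l + i3 - i - 2 * i2 - l2)) (by omega))) (sh al (-1) (t + (n + 2 * k + l + i3 - i - 2 * i2 - l2)) (t + (2 * k + l + i3 - i - 2 * i2 - l2)) (by omega))))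

theorem t2d_16 {W : ℤ → G} {n Q i j k l i2 l2 i3 : ℤ} (al : AL W n Q)
    (hy : (0) ≤ (i) ∧ (i) ≤ (j) ∧ (j + 1) ≤ (Q) ∧ (Q) ≤ (k) ∧ (k + 1) ≤ (n) ∧ (Q) ≤ (i + l + 1) ∧ (k + l + 2) ≤ (n) ∧ (Q) ≤ (i2) ∧ (i2) ≤ (i + l + 1) ∧ (Q) ≤ (i2 + l2 + 1) ∧ (i2 + l2 + 2) ≤ (n) ∧ (n) ≤ (k + l + l2 + 2) ∧ (k + l + l2 + 3) ≤ (n + Q) ∧ (0) ≤ (i3) ∧ (n + i3) ≤ (k + l + l2 + 2) ∧ (k + i2 + l2 + 2) ≤ (n + j + i3) ∧ (j + i3 + 1) ≤ (k) ∧ (k + i2 + l2 + 2) ≤ (n + i3) ∧ (i + 2 * i2 + 1) ≤ (2 * Q + k) ∧ (i + l + 1) ≤ (i2 + l2) ∧ (k + l + 1) ≤ (i2 + l2) ∧ (n + i2) ≤ (2 * k + 2 * l + 2) ∧ (i + 1) ≤ (i3))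
    (a1 : Par W (0) (j) (k - j))
    (a2 : Par W (Q + j - k) (j) (k - j))
    (s1 : Ant W (0) (i) (i + j))
    (s2 : Ant W (j + 1) (Q) (i + j))
    (b : Par W (i + 1) (i + l + 1) (k - i))
    (tt : Ant W (Q) (i2) (i + l + i2 + 1))
    (c : Par W (i2 + 1) (i2 + l2 + 1) (k + l - i2 + 1))
    (u1 : Ant W (0) (i3) (k + l + l2 + i3 - n + 2))
    (u2 : Ant W (k + l + l2 - n + 3) (Q) (k + l + l2 + i3 - n + 2))
    (D1 : Par W (i3 + 1) (Q) (i2 + l2 - i3 + 1))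
    (D2 : Par W (i2 + l2 + 2) (n) (i3 - i2 - l2 - 1))
    {L : ℤ} (mx : ∀ a b g, 0 < g → g < n → Par W a b g → b - a ≤ L)
    (hL : L ≤ (n - j - 3) ∧ L ≤ (n + Q - k - 3) ∧ L ≤ (n - l - 3) ∧ L ≤ (n + i - k - 2) ∧ L ≤ (n - l2 - 3) ∧ L ≤ (n + i3 - Q - 2) ∧ L ≤ (i2 + l2 - 1) ∧ L ≤ (n + i2 - k - l - 3) ∧ L ≤ (Q + i2 + l2 - i - l - 3))
    (bd0 : Bd W n L (j) (i) (k))
    (bd2 : Bd W n L (k + l + l2 - n + 2) (i3) (i2 + l2 + 1))
    (n1 : Nd W (j) (i) (k))
    (n2 : Nd W (i + l + 1) (i2) (k + l + 1))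
    (n3 : Nd W (k + l + l2 - n + 2) (i3) (i2 + l2 + 1))
    (b0 : (2 * l2 + 3) ≤ (n))
    (b1 : (i + 3 * k + 4 * l + 5) ≤ (2 * n + 2 * i2))
    (b2 : (n + i) ≤ (k + i2 + l2))
    (b3 : (k + 2 * l + 2 * l2 + 6) ≤ (2 * n + j))
    (b4 : (n + i3) ≤ (j + l + l2 + 3))
    (b5 : (j + 2 * i3 + 1) ≤ (k))
    (b6 : (2 * i + l + i2 + 3) ≤ (2 * Q + k)) : False := by
  have ev := al.ev
  obtain ⟨y0, y1, y2, y3, y4, y5, y6, y7, y8, y9, y10, y11, y12, y13, y14, y15, y16, y17, y18, y19, y20, y21, y22⟩ := id hy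
  have n1p := And.intro n1.p1 n1.p2
  have n2p := And.intro n2.p1 n2.p2
  have n3p := And.intro n3.p1 n3.p2
  by_cases z32 : (n + i + j) ≤ (k + l + l2 + i3 + 1)
  · exact t2d_17 al hy a1 a2 s1 s2 b tt c u1 u2 D1 D2 mx hL bd0 bd2 n1 n2 n3 (by clear * - b0; omega) (by clear * - b1; omega) (by clear * - b2; omega) (by clear * - b3; omega) (by clear * - b4; omega) (by clear * - b5; omega) (by clear * - b6; omega) (by clear * - z32; omega)
  · exact t2d_18 al hy a1 a2 s1 s2 b tt c u1 u2 D1 D2 mx hL bd0 bd2 n1 n2 n3 (by clear * - b0; omega) (by clear * - b1; omega) (by clear * - b2; omega) (by clear * - b4; omega) (by clear * - b5; omega) (by clear * - b6; omega) (by clear * - z32; omega)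

theorem t2d_15 {W : ℤ → G} {n Q i j k l i2 l2 i3 : ℤ} (al : AL W n Q)
    (hy : (0) ≤ (i) ∧ (i) ≤ (j) ∧ (j + 1) ≤ (Q) ∧ (Q) ≤ (k) ∧ (k + 1) ≤ (n) ∧ (Q) ≤ (i + l + 1) ∧ (k + l + 2) ≤ (n) ∧ (Q) ≤ (i2) ∧ (i2) ≤ (i + l + 1) ∧ (Q) ≤ (i2 + l2 + 1) ∧ (i2 + l2 + 2) ≤ (n) ∧ (n) ≤ (k + l + l2 + 2) ∧ (k + l + l2 + 3) ≤ (n + Q) ∧ (0) ≤ (i3) ∧ (n + i3) ≤ (k + l + l2 + 2) ∧ (k + i2 + l2 + 2) ≤ (n + j + i3) ∧ (j + i3 + 1) ≤ (k) ∧ (k + i2 + l2 + 2) ≤ (n + i3) ∧ (i + 2 * i2 + 1) ≤ (2 * Q + k) ∧ (i + l + 1) ≤ (i2 + l2) ∧ (k + l + 1) ≤ (i2 + l2) ∧ (n + i2) ≤ (2 * k + 2 * l + 2) ∧ (i + 1) ≤ (i3))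
    (a1 : Par W (0) (j) (k - j))
    (a2 : Par W (Q + j - k) (j) (k - j))
    (s1 : Ant W (0) (i) (i + j))
    (s2 : Ant W (j + 1) (Q) (i + j))
    (b : Par W (i + 1) (i + l + 1) (k - i))
    (tt : Ant W (Q) (i2) (i + l + i2 + 1))
    (c : Par W (i2 + 1) (i2 + l2 + 1) (k + l - i2 + 1))
    (u1 : Ant W (0) (i3) (k + l + l2 + i3 - n + 2))
    (u2 : Ant W (k + l + l2 - n + 3) (Q) (k + l + l2 + i3 - n + 2))
    (D1 : Par W (i3 + 1) (Q) (i2 + l2 - i3 + 1))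
    (D2 : Par W (i2 + l2 + 2) (n) (i3 - i2 - l2 - 1))
    {L : ℤ} (mx : ∀ a b g, 0 < g → g < n → Par W a b g → b - a ≤ L)
    (hL : L ≤ (n - j - 3) ∧ L ≤ (n + Q - k - 3) ∧ L ≤ (n - l - 3) ∧ L ≤ (n + i - k - 2) ∧ L ≤ (n - l2 - 3) ∧ L ≤ (n + i3 - Q - 2) ∧ L ≤ (i2 + l2 - 1) ∧ L ≤ (n + i2 - k - l - 3) ∧ L ≤ (Q + i2 + l2 - i - l - 3))
    (bd0 : Bd W n L (j) (i) (k))
    (bd2 : Bd W n L (k + l + l2 - n + 2) (i3) (i2 + l2 + 1))
    (n1 : Nd W (j) (i) (k))
    (n2 : Nd W (i + l + 1) (i2) (k + l + 1))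
    (n3 : Nd W (k + l + l2 - n + 2) (i3) (i2 + l2 + 1))
    (b0 : (2 * l2 + 3) ≤ (n))
    (b1 : (i + 3 * k + 4 * l + 5) ≤ (2 * n + 2 * i2))
    (b2 : (n + i) ≤ (k + i2 + l2))
    (b3 : (k + 2 * l + 2 * l2 + 6) ≤ (2 * n + j))
    (b4 : (n + i3) ≤ (j + l + l2 + 3))
    (b5 : (j + 2 * i3 + 1) ≤ (k)) : False := by
  have ev := al.ev
  obtain ⟨y0, y1, y2, y3, y4, y5, y6, y7, y8, y9, y10, y11, y12, y13, y14, y15, y16, y17, y18, y19, y20, y21, y22⟩ := id hy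
  have n1p := And.intro n1.p1 n1.p2
  have n2p := And.intro n2.p1 n2.p2
  have n3p := And.intro n3.p1 n3.p2
  by_cases z31 : (2 * Q + k) ≤ (2 * i + l + i2 + 2)
  · have kk406 : (2 * i + l + 3) ≤ (k + i2) := by clear * - b2 b3 b5 y22; omega
    have kk407 : (2 * Q + k) ≤ (2 * i + l + i2 + 2) := by clear * - z31; omega
    have kk408 : (k) ≤ (i + l + 1) := by clear * - b4 y15 y2 z31; omega
    have kk409 : (i + i2 + 1) ≤ (Q + k) := by clear * - b2 b3 b5 y18 y22 z31; omega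
    have r410 : (2 * i + l + i2 - 2 * n - k + 1) % 2 = 0 := by clear * - ev n1p n2p n3p; omega
    clear * - al b tt kk406 kk407 kk408 kk409 r410
    obtain ⟨t, ht⟩ : ∃ t, 2 * t = (2 * i + l + i2 - 2 * n - k + 1) := ⟨(2 * i + l + i2 - 2 * n - k + 1) / 2, by omega⟩
    exact al.ninv t (cE (cI (qf b al (-1) t (t + (n + k - i)) (by omega)) (ab tt al 0 (t + (n + k - i)) ((2 * i + l + i2 - n - k + 1) - t) (by omega))) (sh al (-1) ((2 * i + l + i2 - n - k + 1) - t) t (by omega)))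
  · exact t2d_16 al hy a1 a2 s1 s2 b tt c u1 u2 D1 D2 mx hL bd0 bd2 n1 n2 n3 (by clear * - b0; omega) (by clear * - b1; omega) (by clear * - b2; omega) (by clear * - b3; omega) (by clear * - b4; omega) (by clear * - b5; omega) (by clear * - z31; omega)

theorem t2d_14 {W : ℤ → G} {n Q i j k l i2 l2 i3 : ℤ} (al : AL W n Q)
    (hy : (0) ≤ (i) ∧ (i) ≤ (j) ∧ (j + 1) ≤ (Q) ∧ (Q) ≤ (k) ∧ (k + 1) ≤ (n) ∧ (Q) ≤ (i + l + 1) ∧ (k + l + 2) ≤ (n) ∧ (Q) ≤ (i2) ∧ (i2) ≤ (i + l + 1) ∧ (Q) ≤ (i2 + l2 + 1) ∧ (i2 + l2 + 2) ≤ (n) ∧ (n) ≤ (k + l + l2 + 2) ∧ (k + l + l2 + 3) ≤ (n + Q) ∧ (0) ≤ (i3) ∧ (n + i3) ≤ (k + l + l2 + 2) ∧ (k + i2 + l2 + 2) ≤ (n + j + i3) ∧ (j + i3 + 1) ≤ (k) ∧ (k + i2 + l2 + 2) ≤ (n + i3) ∧ (i + 2 * i2 + 1) ≤ (2 * Q + k) ∧ (i + l + 1) ≤ (i2 + l2) ∧ (k + l + 1) ≤ (i2 + l2) ∧ (n + i2) ≤ (2 * k + 2 * l + 2) ∧ (i + 1) ≤ (i3))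
    (a1 : Par W (0) (j) (k - j))
    (a2 : Par W (Q + j - k) (j) (k - j))
    (s1 : Ant W (0) (i) (i + j))
    (s2 : Ant W (j + 1) (Q) (i + j))
    (b : Par W (i + 1) (i + l + 1) (k - i))
    (tt : Ant W (Q) (i2) (i + l + i2 + 1))
    (c : Par W (i2 + 1) (i2 + l2 + 1) (k + l - i2 + 1))
    (u1 : Ant W (0) (i3) (k + l + l2 + i3 - n + 2))
    (u2 : Ant W (k + l + l2 - n + 3) (Q) (k + l + l2 + i3 - n + 2))
    (D1 : Par W (i3 + 1) (Q) (i2 + l2 - i3 + 1))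
    (D2 : Par W (i2 + l2 + 2) (n) (i3 - i2 - l2 - 1))
    {L : ℤ} (mx : ∀ a b g, 0 < g → g < n → Par W a b g → b - a ≤ L)
    (hL : L ≤ (n - j - 3) ∧ L ≤ (n + Q - k - 3) ∧ L ≤ (n - l - 3) ∧ L ≤ (n + i - k - 2) ∧ L ≤ (n - l2 - 3) ∧ L ≤ (n + i3 - Q - 2) ∧ L ≤ (i2 + l2 - 1) ∧ L ≤ (n + i2 - k - l - 3) ∧ L ≤ (Q + i2 + l2 - i - l - 3))
    (bd0 : Bd W n L (j) (i) (k))
    (bd2 : Bd W n L (k + l + l2 - n + 2) (i3) (i2 + l2 + 1))
    (n1 : Nd W (j) (i) (k))
    (n2 : Nd W (i + l + 1) (i2) (k + l + 1))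
    (n3 : Nd W (k + l + l2 - n + 2) (i3) (i2 + l2 + 1))
    (b0 : (2 * l2 + 3) ≤ (n))
    (b1 : (i + 3 * k + 4 * l + 5) ≤ (2 * n + 2 * i2))
    (b2 : (n + i) ≤ (k + i2 + l2))
    (b3 : (k + 2 * l + 2 * l2 + 6) ≤ (2 * n + j))
    (b4 : (n + i3) ≤ (j + l + l2 + 3)) : False := by
  have ev := al.ev
  obtain ⟨y0, y1, y2, y3, y4, y5, y6, y7, y8, y9, y10, y11, y12, y13, y14, y15, y16, y17, y18, y19, y20, y21, y22⟩ := id hy
  have n1p := And.intro n1.p1 n1.p2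
  have n2p := And.intro n2.p1 n2.p2
  have n3p := And.intro n3.p1 n3.p2
  by_cases z30 : (k) ≤ (j + 2 * i3)
  · by_cases v16 : (l + l2 + i3 + 3) ≤ (n)
    · have kk392 : (j + 1) ≤ (k) := by clear * - y16 z30; omega
      have kk393 : (k) ≤ (j + 2 * i3) := by clear * - z30; omega
      have kk394 : (2 * n) ≤ (j + k + 2 * l + 2 * l2 + 2 * i3 + 6) := by clear * - y20 y21 z30; omega
      have kk395 : (0) ≤ (j + k) := by clear * - v16 y20 y21 z30; omega
      have kk396 : (l + l2 + i3 + 3) ≤ (n) := by clear * - v16; omega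
      have r397 : (k + l + l2 + i3 - n + 2) % 2 = 0 := by clear * - ev n1p n2p n3p; omega
      have r398 : (k - j) % 2 = 0 := by clear * - ev n1p n2p n3p; omega
      clear * - al a1 u1 kk392 kk393 kk394 kk395 kk396 r397 r398
      exact midP al (k - j) (k + l + l2 + i3 - n + 2) (0) (0) (k) (by omega) (fun t h1 h2 => (qa u1 al 0 t ((k + l + l2 + i3 - n + 2) - t) (by omega))) (fun t h1 h2 => (qf a1 al 0 t (t + (k - j)) (by omega)))
    · have kk399 : (j + 1) ≤ (k) := by clear * - y16 z30; omega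
      have kk400 : (k + 2 * l + 2 * l2 + 6) ≤ (2 * n + j) := by clear * - b3; omega
      have kk401 : (0) ≤ (j + k) := by clear * - b3 y20 y21; omega
      have kk402 : (2 * l + 2 * l2 + 2 * i3 + 6) ≤ (2 * n + j + k) := by clear * - b3 b4 v16 y16; omega
      have kk403 : (n) ≤ (l + l2 + i3 + 3) := by clear * - v16; omega
      have r404 : (k + l + l2 + i3 - n + 2) % 2 = 0 := by clear * - ev n1p n2p n3p; omega
      have r405 : (k - j) % 2 = 0 := by clear * - ev n1p n2p n3p; omega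
      clear * - al a1 u1 kk399 kk400 kk401 kk402 kk403 r404 r405
      exact midP al (k - j) (k + l + l2 + i3 - n + 2) (l + l2 + i3 - n + 3) (0) (k) (by omega) (fun t h1 h2 => (qa u1 al 0 t ((k + l + l2 + i3 - n + 2) - t) (by omega))) (fun t h1 h2 => (qf a1 al 0 t (t + (k - j)) (by omega)))
  · exact t2d_15 al hy a1 a2 s1 s2 b tt c u1 u2 D1 D2 mx hL bd0 bd2 n1 n2 n3 (by clear * - b0; omega) (by clear * - b1; omega) (by clear * - b2; omega) (by clear * - b3; omega) (by clear * - b4; omega) (by clear * - z30; omega)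

theorem t2d_13 {W : ℤ → G} {n Q i j k l i2 l2 i3 : ℤ} (al : AL W n Q)
    (hy : (0) ≤ (i) ∧ (i) ≤ (j) ∧ (j + 1) ≤ (Q) ∧ (Q) ≤ (k) ∧ (k + 1) ≤ (n) ∧ (Q) ≤ (i + l + 1) ∧ (k + l + 2) ≤ (n) ∧ (Q) ≤ (i2) ∧ (i2) ≤ (i + l + 1) ∧ (Q) ≤ (i2 + l2 + 1) ∧ (i2 + l2 + 2) ≤ (n) ∧ (n) ≤ (k + l + l2 + 2) ∧ (k + l + l2 + 3) ≤ (n + Q) ∧ (0) ≤ (i3) ∧ (n + i3) ≤ (k + l + l2 + 2) ∧ (k + i2 + l2 + 2) ≤ (n + j + i3) ∧ (j + i3 + 1) ≤ (k) ∧ (k + i2 + l2 + 2) ≤ (n + i3) ∧ (i + 2 * i2 + 1) ≤ (2 * Q + k) ∧ (i + l + 1) ≤ (i2 + l2) ∧ (k + l + 1) ≤ (i2 + l2) ∧ (n + i2) ≤ (2 * k + 2 * l + 2) ∧ (i + 1) ≤ (i3))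
    (a1 : Par W (0) (j) (k - j))
    (a2 : Par W (Q + j - k) (j) (k - j))
    (s1 : Ant W (0) (i) (i + j))
    (s2 : Ant W (j + 1) (Q) (i + j))
    (b : Par W (i + 1) (i + l + 1) (k - i))
    (tt : Ant W (Q) (i2) (i + l + i2 + 1))
    (c : Par W (i2 + 1) (i2 + l2 + 1) (k + l - i2 + 1))
    (u1 : Ant W (0) (i3) (k + l + l2 + i3 - n + 2))
    (u2 : Ant W (k + l + l2 - n + 3) (Q) (k + l + l2 + i3 - n + 2))
    (D1 : Par W (i3 + 1) (Q) (i2 + l2 - i3 + 1))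
    (D2 : Par W (i2 + l2 + 2) (n) (i3 - i2 - l2 - 1))
    {L : ℤ} (mx : ∀ a b g, 0 < g → g < n → Par W a b g → b - a ≤ L)
    (hL : L ≤ (n - j - 3) ∧ L ≤ (n + Q - k - 3) ∧ L ≤ (n - l - 3) ∧ L ≤ (n + i - k - 2) ∧ L ≤ (n - l2 - 3) ∧ L ≤ (n + i3 - Q - 2) ∧ L ≤ (i2 + l2 - 1) ∧ L ≤ (n + i2 - k - l - 3) ∧ L ≤ (Q + i2 + l2 - i - l - 3))
    (bd0 : Bd W n L (j) (i) (k))
    (bd2 : Bd W n L (k + l + l2 - n + 2) (i3) (i2 + l2 + 1))
    (n1 : Nd W (j) (i) (k))
    (n2 : Nd W (i + l + 1) (i2) (k + l + 1))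
    (n3 : Nd W (k + l + l2 - n + 2) (i3) (i2 + l2 + 1))
    (b0 : (2 * l2 + 3) ≤ (n))
    (b1 : (i + 3 * k + 4 * l + 5) ≤ (2 * n + 2 * i2))
    (b2 : (n + i) ≤ (k + i2 + l2))
    (b3 : (n) ≤ (j + l + l2 + i3 + 2))
    (b4 : (k + 2 * l + 2 * l2 + 6) ≤ (2 * n + j)) : False := by
  have ev := al.ev
  obtain ⟨y0, y1, y2, y3, y4, y5, y6, y7, y8, y9, y10, y11, y12, y13, y14, y15, y16, y17, y18, y19, y20, y21, y22⟩ := id hy
  have n1p := And.intro n1.p1 n1.p2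
  have n2p := And.intro n2.p1 n2.p2
  have n3p := And.intro n3.p1 n3.p2
  by_cases z29 : (j + l + l2 + 4) ≤ (n + i3)
  · by_cases v13 : (n) ≤ (j + l + l2 + 3)
    · by_cases v14 : (n) ≤ (l + l2 + i3 + 3)
      · have kk372 : (j + l + l2 + 4) ≤ (n + i3) := by clear * - z29; omega
        have kk373 : (l + l2 + i3 + 3) ≤ (n + j) := by clear * - b4 v13 y16; omega
        have kk374 : (n) ≤ (j + l + l2 + 3) := by clear * - v13; omega
        have kk375 : (n) ≤ (l + l2 + i3 + 3) := by clear * - v14; omega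
        have r376 : (j + l + l2 + i3 - 3 * n + 2) % 2 = 0 := by clear * - ev n1p n2p n3p; omega
        clear * - al a1 u1 kk372 kk373 kk374 kk375 r376
        obtain ⟨t, ht⟩ : ∃ t, 2 * t = (j + l + l2 + i3 - 3 * n + 2) := ⟨(j + l + l2 + i3 - 3 * n + 2) / 2, by omega⟩
        exact al.ninv t (cE (cI (qf a1 al (-1) t (t + (n + k - j)) (by omega)) (ab u1 al 0 (t + (n + k - j)) ((j + l + l2 + i3 - 2 * n + 2) - t) (by omega))) (sh al (-1) ((j + l + l2 + i3 - 2 * n + 2) - t) t (by omega)))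
      · have kk377 : (j + l + l2 + 4) ≤ (n + i3) := by clear * - z29; omega
        have kk378 : (n) ≤ (j + l + l2 + i3 + 3) := by clear * - v13 z29; omega
        have kk379 : (n) ≤ (j + l + l2 + 3) := by clear * - v13; omega
        have kk380 : (l + l2 + i3 + 3) ≤ (n) := by clear * - v14; omega
        have r381 : (j + l + l2 + i3 - 3 * n + 2) % 2 = 0 := by clear * - ev n1p n2p n3p; omega
        clear * - al a1 u1 kk377 kk378 kk379 kk380 r381
        obtain ⟨t, ht⟩ : ∃ t, 2 * t = (j + l + l2 + i3 - 3 * n + 2) := ⟨(j + l + l2 + i3 - 3 * n + 2) / 2, by omega⟩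
        exact al.ninv t (cE (cI (qf a1 al (-1) t (t + (n + k - j)) (by omega)) (ab u1 al 0 (t + (n + k - j)) ((j + l + l2 + i3 - 2 * n + 2) - t) (by omega))) (sh al (-1) ((j + l + l2 + i3 - 2 * n + 2) - t) t (by omega)))
    · by_cases v15 : (n) ≤ (l + l2 + i3 + 3)
      · have kk382 : (n) ≤ (j + l + l2 + i3 + 2) := by clear * - b3; omega
        have kk383 : (l + l2 + i3 + 3) ≤ (n + j) := by clear * - b4 y14; omega
        have kk384 : (j + l + l2 + 3) ≤ (n) := by clear * - v13; omega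
        have kk385 : (n) ≤ (l + l2 + i3 + 3) := by clear * - v15; omega
        have r386 : (j + l + l2 + i3 - 3 * n + 2) % 2 = 0 := by clear * - ev n1p n2p n3p; omega
        clear * - al a1 u1 kk382 kk383 kk384 kk385 r386
        obtain ⟨t, ht⟩ : ∃ t, 2 * t = (j + l + l2 + i3 - 3 * n + 2) := ⟨(j + l + l2 + i3 - 3 * n + 2) / 2, by omega⟩
        exact al.ninv t (cE (cI (qf a1 al (-1) t (t + (n + k - j)) (by omega)) (ab u1 al 0 (t + (n + k - j)) ((j + l + l2 + i3 - 2 * n + 2) - t) (by omega))) (sh al (-1) ((j + l + l2 + i3 - 2 * n + 2) - t) t (by omega)))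
      · have kk387 : (n) ≤ (j + l + l2 + i3 + 2) := by clear * - b3; omega
        have kk388 : (n) ≤ (j + l + l2 + i3 + 3) := by clear * - b3; omega
        have kk389 : (j + l + l2 + 3) ≤ (n) := by clear * - v13; omega
        have kk390 : (l + l2 + i3 + 3) ≤ (n) := by clear * - v15; omega
        have r391 : (j + l + l2 + i3 - 3 * n + 2) % 2 = 0 := by clear * - ev n1p n2p n3p; omega
        clear * - al a1 u1 kk387 kk388 kk389 kk390 r391
        obtain ⟨t, ht⟩ : ∃ t, 2 * t = (j + l + l2 + i3 - 3 * n + 2) := ⟨(j + l + l2 + i3 - 3 * n + 2) / 2, by omega⟩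
        exact al.ninv t (cE (cI (qf a1 al (-1) t (t + (n + k - j)) (by omega)) (ab u1 al 0 (t + (n + k - j)) ((j + l + l2 + i3 - 2 * n + 2) - t) (by omega))) (sh al (-1) ((j + l + l2 + i3 - 2 * n + 2) - t) t (by omega)))
  · exact t2d_14 al hy a1 a2 s1 s2 b tt c u1 u2 D1 D2 mx hL bd0 bd2 n1 n2 n3 (by clear * - b0; omega) (by clear * - b1; omega) (by clear * - b2; omega) (by clear * - b4; omega) (by clear * - z29; omega)

theorem t2d_12 {W : ℤ → G} {n Q i j k l i2 l2 i3 : ℤ} (al : AL W n Q)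
    (hy : (0) ≤ (i) ∧ (i) ≤ (j) ∧ (j + 1) ≤ (Q) ∧ (Q) ≤ (k) ∧ (k + 1) ≤ (n) ∧ (Q) ≤ (i + l + 1) ∧ (k + l + 2) ≤ (n) ∧ (Q) ≤ (i2) ∧ (i2) ≤ (i + l + 1) ∧ (Q) ≤ (i2 + l2 + 1) ∧ (i2 + l2 + 2) ≤ (n) ∧ (n) ≤ (k + l + l2 + 2) ∧ (k + l + l2 + 3) ≤ (n + Q) ∧ (0) ≤ (i3) ∧ (n + i3) ≤ (k + l + l2 + 2) ∧ (k + i2 + l2 + 2) ≤ (n + j + i3) ∧ (j + i3 + 1) ≤ (k) ∧ (k + i2 + l2 + 2) ≤ (n + i3) ∧ (i + 2 * i2 + 1) ≤ (2 * Q + k) ∧ (i + l + 1) ≤ (i2 + l2) ∧ (k + l + 1) ≤ (i2 + l2) ∧ (n + i2) ≤ (2 * k + 2 * l + 2) ∧ (i + 1) ≤ (i3))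
    (a1 : Par W (0) (j) (k - j))
    (a2 : Par W (Q + j - k) (j) (k - j))
    (s1 : Ant W (0) (i) (i + j))
    (s2 : Ant W (j + 1) (Q) (i + j))
    (b : Par W (i + 1) (i + l + 1) (k - i))
    (tt : Ant W (Q) (i2) (i + l + i2 + 1))
    (c : Par W (i2 + 1) (i2 + l2 + 1) (k + l - i2 + 1))
    (u1 : Ant W (0) (i3) (k + l + l2 + i3 - n + 2))
    (u2 : Ant W (k + l + l2 - n + 3) (Q) (k + l + l2 + i3 - n + 2))
    (D1 : Par W (i3 + 1) (Q) (i2 + l2 - i3 + 1))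
    (D2 : Par W (i2 + l2 + 2) (n) (i3 - i2 - l2 - 1))
    {L : ℤ} (mx : ∀ a b g, 0 < g → g < n → Par W a b g → b - a ≤ L)
    (hL : L ≤ (n - j - 3) ∧ L ≤ (n + Q - k - 3) ∧ L ≤ (n - l - 3) ∧ L ≤ (n + i - k - 2) ∧ L ≤ (n - l2 - 3) ∧ L ≤ (n + i3 - Q - 2) ∧ L ≤ (i2 + l2 - 1) ∧ L ≤ (n + i2 - k - l - 3) ∧ L ≤ (Q + i2 + l2 - i - l - 3))
    (bd0 : Bd W n L (j) (i) (k))
    (bd2 : Bd W n L (k + l + l2 - n + 2) (i3) (i2 + l2 + 1))
    (n1 : Nd W (j) (i) (k))
    (n2 : Nd W (i + l + 1) (i2) (k + l + 1))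
    (n3 : Nd W (k + l + l2 - n + 2) (i3) (i2 + l2 + 1))
    (b0 : (2 * l2 + 3) ≤ (n))
    (b1 : (i + 3 * k + 4 * l + 5) ≤ (2 * n + 2 * i2))
    (b2 : (n + i) ≤ (k + i2 + l2))
    (b3 : (n) ≤ (j + l + l2 + i3 + 2)) : False := by
  have ev := al.ev
  obtain ⟨y0, y1, y2, y3, y4, y5, y6, y7, y8, y9, y10, y11, y12, y13, y14, y15, y16, y17, y18, y19, y20, y21, y22⟩ := id hy
  have n1p := And.intro n1.p1 n1.p2
  have n2p := And.intro n2.p1 n2.p2
  have n3p := And.intro n3.p1 n3.p2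
  by_cases z28 : (k + 2 * l + 2 * l2 + 6) ≤ (2 * n + j)
  · exact t2d_13 al hy a1 a2 s1 s2 b tt c u1 u2 D1 D2 mx hL bd0 bd2 n1 n2 n3 (by clear * - b0; omega) (by clear * - b1; omega) (by clear * - b2; omega) (by clear * - b3; omega) (by clear * - z28; omega)
  · by_cases z47 : (2 * j + k + 2) ≤ (2 * Q + i)
    · by_cases v23 : (Q + k + l + 1) ≤ (n + i + j)
      · have kk632 : (i + 1) ≤ (k) := by clear * - b1 y21; omega
        have kk633 : (2 * j + k + 2) ≤ (2 * Q + i) := by clear * - z47; omega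
        have kk634 : (i + k + 2) ≤ (2 * Q) := by clear * - y1 z47; omega
        have kk635 : (2 * n + i + 2 * j + 2 * i2) ≤ (2 * Q + 3 * k + 4 * l + 2) := by clear * - b0 y18 z28 ev n1p n2p n3p; omega
        have kk636 : (Q + k + l + 1) ≤ (n + i + j) := by clear * - v23; omega
        have kk637 : (n + i) ≤ (k + l + l2 + 2) := by clear * - y14 y22; omega
        have kk638 : (Q) ≤ (k + l + 1) := by clear * - b0 b1 v23 y21 z28; omega
        have kk639 : (Q + k + l + 1) ≤ (n + j + i2) := by clear * - b0 b1 b2 b3 v23 y14 y22 z28 z47; linarith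
        have r640 : (i + j + i2 - n - k - l - 1) % 2 = 0 := by clear * - ev n1p n2p n3p; omega
        have r641 : (k - i) % 2 = 0 := by clear * - ev n1p n2p n3p; omega
        clear * - al s2 b c kk632 kk633 kk634 kk635 kk636 kk637 kk638 kk639 r640 r641
        exact midP al (k - i) (i + j + i2 - n - k - l - 1) (i + j + i2 - Q - k - l) (i - n + 1) (k + l - n + 1) (by omega) (fun t h1 h2 => (cE (cI (qf c al (-1) t (t + (n + k + l - i2 + 1)) (by omega)) (ab s2 al 1 (t + (n + k + l - i2 + 1)) ((i + j + i2 - k - l - 1) - t) (by omega))) (sh al (-1) ((i + j + i2 - k - l - 1) - t) ((i + j + i2 - n - k - l - 1) - t) (by omega)))) (fun t h1 h2 => (cE (qf b al (-1) t (t + (n + k - i)) (by omega)) (sh al (-1) (t + (n + k - i)) (t + (k - i)) (by omega))))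
      · have kk642 : (i + 1) ≤ (k) := by clear * - b1 y21; omega
        have kk643 : (3 * k + 2 * l + 4) ≤ (2 * n + 3 * i) := by clear * - b1 y0 y14 y17; omega
        have kk644 : (3 * k + 2 * l + 4) ≤ (2 * n + i + 2 * j) := by clear * - b1 y0 y14 y15; omega
        have kk645 : (2 * i2) ≤ (i + k + 2 * l) := by clear * - b3 y15 y16 y8; omega
        have kk646 : (n + i + j) ≤ (Q + k + l + 1) := by clear * - v23; omega
        have kk647 : (n + i) ≤ (k + l + l2 + 2) := by clear * - y14 y22; omega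
        have kk648 : (n + i + j) ≤ (2 * k + 2 * l + 2) := by clear * - b0 b1 y21 z28; omega
        have kk649 : (i) ≤ (i2) := by clear * - b0 b1 b3 y14 y21 z28; omega
        have r650 : (i + j + i2 - n - k - l - 1) % 2 = 0 := by clear * - ev n1p n2p n3p; omega
        have r651 : (k - i) % 2 = 0 := by clear * - ev n1p n2p n3p; omega
        clear * - al s2 b c kk642 kk643 kk644 kk645 kk646 kk647 kk648 kk649 r650 r651
        exact midP al (k - i) (i + j + i2 - n - k - l - 1) (i2 - n + 1) (i - n + 1) (k + l - n + 1) (by omega) (fun t h1 h2 => (cE (cI (qf c al (-1) t (t + (n + k + l - i2 + 1)) (by omega)) (ab s2 al 1 (t + (n + k + l - i2 + 1)) ((i + j + i2 - k - l - 1) - t) (by omega))) (sh al (-1) ((i + j + i2 - k - l - 1) - t) ((i + j + i2 - n - k - l - 1) - t) (by omega)))) (fun t h1 h2 => (cE (qf b al (-1) t (t + (n + k - i)) (by omega)) (sh al (-1) (t + (n + k - i)) (t + (k - i)) (by omega))))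
    · have kk652 : (i + 1) ≤ (k) := by clear * - b1 y21; omega
      have kk653 : (j + 2 * k + 2 * l + 4) ≤ (n + i + 2 * i2) := by clear * - b0 b1 y0 z28 ev n1p n2p n3p; omega
      have kk654 : (j + 2 * k + 2) ≤ (n + i + 2 * i2) := by clear * - b0 b1 b2 y20 y8 z28; omega
      have kk655 : (j + 2) ≤ (n + i) := by clear * - b0 b1 b3 y13 y16 y8; omega
      have kk656 : (n + j) ≤ (k + 2 * l + 2) := by clear * - b0 z28; omega
      have kk657 : (n + 2 * i + j) ≤ (2 * Q + k + 2 * l) := by clear * - b0 b1 b3 y14 y18 z28; omega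
      have kk658 : (n + 2 * i + j + 2 * i2) ≤ (2 * Q + 3 * k + 2 * l) := by clear * - b0 b1 y18 y21 z28; omega
      have kk659 : (Q + k + l + 1) ≤ (n + i + j) := by clear * - b1 y0 y14 y17 z47; omega
      have kk660 : (n + i) ≤ (k + l + l2 + 2) := by clear * - b0 y18 y20 z28 z47; omega
      have kk661 : (Q) ≤ (k + l + 1) := by clear * - b0 b1 b3 y13 y16 y8 z28 z47; linarith
      have kk662 : (Q + k + l + 1) ≤ (n + j + i2) := by clear * - b0 b1 b2 y20 y8 z47; omega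
      have kk663 : (i) ≤ (j) := by clear * - y12 z28 z47; omega
      have kk664 : (n + i + i2) ≤ (2 * k + 2 * l + 2) := by clear * - b0 y18 z28 z47; omega
      have r665 : (i + j + i2 - n - k - l - 1) % 2 = 0 := by clear * - ev n1p n2p n3p; omega
      have r666 : (k - i) % 2 = 0 := by clear * - ev n1p n2p n3p; omega
      have r667 : (i + l + i2 - 2 * n + 1) % 2 = 0 := by clear * - ev n1p n2p n3p; omega
      clear * - al s2 b tt c kk652 kk653 kk654 kk655 kk656 kk657 kk658 kk659 kk660 kk661 kk662 kk663 kk664 r665 r666 r667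
      exact mid2 al (k - i) (i + j + i2 - n - k - l - 1) (i + l + i2 - 2 * n + 1) (i + j + i2 - Q - k - l) (i + i2 - k - l - 1) (-1) (i - n + 1) (k + l - n + 1) (by omega) (fun t h1 h2 => ⟨by omega, (cE (cI (qf c al (-1) t (t + (n + k + l - i2 + 1)) (by omega)) (ab s2 al 1 (t + (n + k + l - i2 + 1)) ((i + j + i2 - k - l - 1) - t) (by omega))) (sh al (-1) ((i + j + i2 - k - l - 1) - t) ((i + j + i2 - n - k - l - 1) - t) (by omega)))⟩) (fun t h1 h2 => ⟨by omega, (cE (ab tt al (-1) t ((i + l + i2 - n + 1) - t) (by omega)) (sh al (-1) ((i + l + i2 - n + 1) - t) ((i + l + i2 - 2 * n + 1) - t) (by omega)))⟩) (fun t h1 h2 => (cE (qf b al (-1) t (t + (n + k - i)) (by omega)) (sh al (-1) (t + (n + k - i)) (t + (k - i)) (by omega))))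

theorem t2d_11 {W : ℤ → G} {n Q i j k l i2 l2 i3 : ℤ} (al : AL W n Q)
    (hy : (0) ≤ (i) ∧ (i) ≤ (j) ∧ (j + 1) ≤ (Q) ∧ (Q) ≤ (k) ∧ (k + 1) ≤ (n) ∧ (Q) ≤ (i + l + 1) ∧ (k + l + 2) ≤ (n) ∧ (Q) ≤ (i2) ∧ (i2) ≤ (i + l + 1) ∧ (Q) ≤ (i2 + l2 + 1) ∧ (i2 + l2 + 2) ≤ (n) ∧ (n) ≤ (k + l + l2 + 2) ∧ (k + l + l2 + 3) ≤ (n + Q) ∧ (0) ≤ (i3) ∧ (n + i3) ≤ (k + l + l2 + 2) ∧ (k + i2 + l2 + 2) ≤ (n + j + i3) ∧ (j + i3 + 1) ≤ (k) ∧ (k + i2 + l2 + 2) ≤ (n + i3) ∧ (i + 2 * i2 + 1) ≤ (2 * Q + k) ∧ (i + l + 1) ≤ (i2 + l2) ∧ (k + l + 1) ≤ (i2 + l2) ∧ (n + i2) ≤ (2 * k + 2 * l + 2) ∧ (i + 1) ≤ (i3))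
    (a1 : Par W (0) (j) (k - j))
    (a2 : Par W (Q + j - k) (j) (k - j))
    (s1 : Ant W (0) (i) (i + j))
    (s2 : Ant W (j + 1) (Q) (i + j))
    (b : Par W (i + 1) (i + l + 1) (k - i))
    (tt : Ant W (Q) (i2) (i + l + i2 + 1))
    (c : Par W (i2 + 1) (i2 + l2 + 1) (k + l - i2 + 1))
    (u1 : Ant W (0) (i3) (k + l + l2 + i3 - n + 2))
    (u2 : Ant W (k + l + l2 - n + 3) (Q) (k + l + l2 + i3 - n + 2))
    (D1 : Par W (i3 + 1) (Q) (i2 + l2 - i3 + 1))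
    (D2 : Par W (i2 + l2 + 2) (n) (i3 - i2 - l2 - 1))
    {L : ℤ} (mx : ∀ a b g, 0 < g → g < n → Par W a b g → b - a ≤ L)
    (hL : L ≤ (n - j - 3) ∧ L ≤ (n + Q - k - 3) ∧ L ≤ (n - l - 3) ∧ L ≤ (n + i - k - 2) ∧ L ≤ (n - l2 - 3) ∧ L ≤ (n + i3 - Q - 2) ∧ L ≤ (i2 + l2 - 1) ∧ L ≤ (n + i2 - k - l - 3) ∧ L ≤ (Q + i2 + l2 - i - l - 3))
    (bd0 : Bd W n L (j) (i) (k))
    (bd2 : Bd W n L (k + l + l2 - n + 2) (i3) (i2 + l2 + 1))
    (n1 : Nd W (j) (i) (k))
    (n2 : Nd W (i + l + 1) (i2) (k + l + 1))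
    (n3 : Nd W (k + l + l2 - n + 2) (i3) (i2 + l2 + 1))
    (b0 : (2 * l2 + 3) ≤ (n))
    (b1 : (i + 3 * k + 4 * l + 5) ≤ (2 * n + 2 * i2))
    (b2 : (n + i) ≤ (k + i2 + l2)) : False := by
  have ev := al.ev
  obtain ⟨y0, y1, y2, y3, y4, y5, y6, y7, y8, y9, y10, y11, y12, y13, y14, y15, y16, y17, y18, y19, y20, y21, y22⟩ := id hy
  have n1p := And.intro n1.p1 n1.p2
  have n2p := And.intro n2.p1 n2.p2
  have n3p := And.intro n3.p1 n3.p2
  by_cases z27 : (n) ≤ (j + l + l2 + i3 + 2)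
  · exact t2d_12 al hy a1 a2 s1 s2 b tt c u1 u2 D1 D2 mx hL bd0 bd2 n1 n2 n3 (by clear * - b0; omega) (by clear * - b1; omega) (by clear * - b2; omega) (by clear * - z27; omega)
  · exact t2d_19 al hy a1 a2 s1 s2 b tt c u1 u2 D1 D2 mx hL bd0 bd2 n1 n2 n3 (by clear * - b0; omega) (by clear * - b1; omega) (by clear * - b2; omega) (by clear * - z27; omega)

theorem t2d_10 {W : ℤ → G} {n Q i j k l i2 l2 i3 : ℤ} (al : AL W n Q)
    (hy : (0) ≤ (i) ∧ (i) ≤ (j) ∧ (j + 1) ≤ (Q) ∧ (Q) ≤ (k) ∧ (k + 1) ≤ (n) ∧ (Q) ≤ (i + l + 1) ∧ (k + l + 2) ≤ (n) ∧ (Q) ≤ (i2) ∧ (i2) ≤ (i + l + 1) ∧ (Q) ≤ (i2 + l2 + 1) ∧ (i2 + l2 + 2) ≤ (n) ∧ (n) ≤ (k + l + l2 + 2) ∧ (k + l + l2 + 3) ≤ (n + Q) ∧ (0) ≤ (i3) ∧ (n + i3) ≤ (k + l + l2 + 2) ∧ (k + i2 + l2 + 2) ≤ (n + j + i3) ∧ (j + i3 + 1) ≤ (k) ∧ (k + i2 + l2 + 2) ≤ (n + i3) ∧ (i + 2 * i2 + 1) ≤ (2 * Q + k) ∧ (i + l + 1) ≤ (i2 + l2) ∧ (k + l + 1) ≤ (i2 + l2) ∧ (n + i2) ≤ (2 * k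 + 2 * l + 2) ∧ (i + 1) ≤ (i3))
    (a1 : Par W (0) (j) (k - j))
    (a2 : Par W (Q + j - k) (j) (k - j))
    (s1 : Ant W (0) (i) (i + j))
    (s2 : Ant W (j + 1) (Q) (i + j))
    (b : Par W (i + 1) (i + l + 1) (k - i))
    (tt : Ant W (Q) (i2) (i + l + i2 + 1))
    (c : Par W (i2 + 1) (i2 + l2 + 1) (k + l - i2 + 1))
    (u1 : Ant W (0) (i3) (k + l + l2 + i3 - n + 2))
    (u2 : Ant W (k + l + l2 - n + 3) (Q) (k + l + l2 + i3 - n + 2))
    (D1 : Par W (i3 + 1) (Q) (i2 + l2 - i3 + 1))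
    (D2 : Par W (i2 + l2 + 2) (n) (i3 - i2 - l2 - 1))
    {L : ℤ} (mx : ∀ a b g, 0 < g → g < n → Par W a b g → b - a ≤ L)
    (hL : L ≤ (n - j - 3) ∧ L ≤ (n + Q - k - 3) ∧ L ≤ (n - l - 3) ∧ L ≤ (n + i - k - 2) ∧ L ≤ (n - l2 - 3) ∧ L ≤ (n + i3 - Q - 2) ∧ L ≤ (i2 + l2 - 1) ∧ L ≤ (n + i2 - k - l - 3) ∧ L ≤ (Q + i2 + l2 - i - l - 3))
    (bd0 : Bd W n L (j) (i) (k))
    (bd2 : Bd W n L (k + l + l2 - n + 2) (i3) (i2 + l2 + 1))
    (n1 : Nd W (j) (i) (k))
    (n2 : Nd W (i + l + 1) (i2) (k + l + 1))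
    (n3 : Nd W (k + l + l2 - n + 2) (i3) (i2 + l2 + 1))
    (b0 : (2 * l2 + 3) ≤ (n))
    (b1 : (i + 3 * k + 4 * l + 5) ≤ (2 * n + 2 * i2)) : False := by
  have ev := al.ev
  obtain ⟨y0, y1, y2, y3, y4, y5, y6, y7, y8, y9, y10, y11, y12, y13, y14, y15, y16, y17, y18, y19, y20, y21, y22⟩ := id hy
  have n1p := And.intro n1.p1 n1.p2
  have n2p := And.intro n2.p1 n2.p2
  have n3p := And.intro n3.p1 n3.p2
  by_cases z26 : (k + i2 + l2 + 1) ≤ (n + i)
  · have kk361 : (k + l + 1) ≤ (i2 + l2) := by clear * - y20; omega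
    have kk362 : (i2) ≤ (k + l) := by clear * - b1 y20 y21 z26; omega
    have kk363 : (k + l + i3 + 1) ≤ (2 * i2 + l2) := by clear * - b0 y14 y20; omega
    have kk364 : (i + 1) ≤ (k) := by clear * - b1 y21; omega
    have kk365 : (k + i2 + l2 + 1) ≤ (n + i) := by clear * - z26; omega
    have kk366 : (i + 1) ≤ (i3) := by clear * - y22; omega
    have kk367 : (2 * i2 + l2) ≤ (i + k + 2 * l + 1) := by clear * - y21 z26; omega
    have kk368 : (k + l) ≤ (i2 + l2) := by clear * - y20; omega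
    have kk369 : (n) ≤ (k + l + l2 + 2) := by clear * - y20 y21; omega
    have r370 : (2 * i2 + l2 - k - l - i3) % 2 = 0 := by clear * - ev n1p n2p n3p; omega
    have r371 : (k - i) % 2 = 0 := by clear * - ev n1p n2p n3p; omega
    clear * - al b c D2 n3 kk361 kk362 kk363 kk364 kk365 kk366 kk367 kk368 kk369 r370 r371
    exact n3.f1 (rEE (sh al (-1) (i3) (i3 - n) (by omega)) (cE (pb c al 0 (i2 + l2 + 1) (2 * i2 + l2 - k - l) (by omega)) (sh al (-1) (2 * i2 + l2 - k - l) (2 * i2 + l2 - n - k - l) (by omega))) (rotL (2 * i2 + l2 - k - l - i3) (k - i) (i3 - n) (2 * i2 + l2 - n - k - l) (by omega) (fun t h1 h2 => (cE (cE (pb D2 al (-1) t (t + (n + i2 + l2 - i3 + 1)) (by omega)) (pb c al 0 (t + (n + i2 + l2 - i3 + 1)) (t + (n + 2 * i2 + l2 - k - l - i3)) (by omega))) (sh al (-1) (t + (n + 2 * i2 + l2 - k - l - i3)) (t + (2 * i2 + l2 - k - l - i3)) (by omega)))) (fun t h1 h2 => (cE (qf b al (-1) t (t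 + (n + k - i)) (by omega)) (sh al (-1) (t + (n + k - i)) (t + (k - i)) (by omega))))))
  · exact t2d_11 al hy a1 a2 s1 s2 b tt c u1 u2 D1 D2 mx hL bd0 bd2 n1 n2 n3 (by clear * - b0; omega) (by clear * - b1; omega) (by clear * - z26; omega)

theorem t2d_1 {W : ℤ → G} {n Q i j k l i2 l2 i3 : ℤ} (al : AL W n Q)
    (hy : (0) ≤ (i) ∧ (i) ≤ (j) ∧ (j + 1) ≤ (Q) ∧ (Q) ≤ (k) ∧ (k + 1) ≤ (n) ∧ (Q) ≤ (i + l + 1) ∧ (k + l + 2) ≤ (n) ∧ (Q) ≤ (i2) ∧ (i2) ≤ (i + l + 1) ∧ (Q) ≤ (i2 + l2 + 1) ∧ (i2 + l2 + 2) ≤ (n) ∧ (n) ≤ (k + l + l2 + 2) ∧ (k + l + l2 + 3) ≤ (n + Q) ∧ (0) ≤ (i3) ∧ (n + i3) ≤ (k + l + l2 + 2) ∧ (k + i2 + l2 + 2) ≤ (n + j + i3) ∧ (j + i3 + 1) ≤ (k) ∧ (k + i2 + l2 + 2) ≤ (n + i3) ∧ (i + 2 * i2 + 1) ≤ (2 * Q + k) ∧ (i + l + 1) ≤ (i2 + l2) ∧ (k + l + 1) ≤ (i2 + l2) ∧ (n + i2) ≤ (2 * k + 2 * l + 2) ∧ (i + 1) ≤ (i3))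
    (a1 : Par W (0) (j) (k - j))
    (a2 : Par W (Q + j - k) (j) (k - j))
    (s1 : Ant W (0) (i) (i + j))
    (s2 : Ant W (j + 1) (Q) (i + j))
    (b : Par W (i + 1) (i + l + 1) (k - i))
    (tt : Ant W (Q) (i2) (i + l + i2 + 1))
    (c : Par W (i2 + 1) (i2 + l2 + 1) (k + l - i2 + 1))
    (u1 : Ant W (0) (i3) (k + l + l2 + i3 - n + 2))
    (u2 : Ant W (k + l + l2 - n + 3) (Q) (k + l + l2 + i3 - n + 2))
    (D1 : Par W (i3 + 1) (Q) (i2 + l2 - i3 + 1))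
    (D2 : Par W (i2 + l2 + 2) (n) (i3 - i2 - l2 - 1))
    {L : ℤ} (mx : ∀ a b g, 0 < g → g < n → Par W a b g → b - a ≤ L)
    (hL : L ≤ (n - j - 3) ∧ L ≤ (n + Q - k - 3) ∧ L ≤ (n - l - 3) ∧ L ≤ (n + i - k - 2) ∧ L ≤ (n - l2 - 3) ∧ L ≤ (n + i3 - Q - 2) ∧ L ≤ (i2 + l2 - 1) ∧ L ≤ (n + i2 - k - l - 3) ∧ L ≤ (Q + i2 + l2 - i - l - 3))
    (bd0 : Bd W n L (j) (i) (k))
    (bd2 : Bd W n L (k + l + l2 - n + 2) (i3) (i2 + l2 + 1))
    (n1 : Nd W (j) (i) (k))
    (n2 : Nd W (i + l + 1) (i2) (k + l + 1))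
    (n3 : Nd W (k + l + l2 - n + 2) (i3) (i2 + l2 + 1))
    (b0 : (2 * l2 + 3) ≤ (n)) : False := by
  have ev := al.ev
  obtain ⟨y0, y1, y2, y3, y4, y5, y6, y7, y8, y9, y10, y11, y12, y13, y14, y15, y16, y17, y18, y19, y20, y21, y22⟩ := id hy
  have n1p := And.intro n1.p1 n1.p2
  have n2p := And.intro n2.p1 n2.p2
  have n3p := And.intro n3.p1 n3.p2
  by_cases z2 : (2 * n + 2 * i2) ≤ (i + 3 * k + 4 * l + 4)
  · exact t2d_2 al hy a1 a2 s1 s2 b tt c u1 u2 D1 D2 mx hL bd0 bd2 n1 n2 n3 (by clear * - b0; omega) (by clear * - z2; omega)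
  · exact t2d_10 al hy a1 a2 s1 s2 b tt c u1 u2 D1 D2 mx hL bd0 bd2 n1 n2 n3 (by clear * - b0; omega) (by clear * - z2; omega)

theorem t2d {W : ℤ → G} {n Q i j k l i2 l2 i3 : ℤ} (al : AL W n Q)
    (hy : (0) ≤ (i) ∧ (i) ≤ (j) ∧ (j + 1) ≤ (Q) ∧ (Q) ≤ (k) ∧ (k + 1) ≤ (n) ∧ (Q) ≤ (i + l + 1) ∧ (k + l + 2) ≤ (n) ∧ (Q) ≤ (i2) ∧ (i2) ≤ (i + l + 1) ∧ (Q) ≤ (i2 + l2 + 1) ∧ (i2 + l2 + 2) ≤ (n) ∧ (n) ≤ (k + l + l2 + 2) ∧ (k + l + l2 + 3) ≤ (n + Q) ∧ (0) ≤ (i3) ∧ (n + i3) ≤ (k + l + l2 + 2) ∧ (k + i2 + l2 + 2) ≤ (n + j + i3) ∧ (j + i3 + 1) ≤ (k) ∧ (k + i2 + l2 + 2) ≤ (n + i3) ∧ (i + 2 * i2 + 1) ≤ (2 * Q + k) ∧ (i + l + 1) ≤ (i2 + l2) ∧ (k + l + 1) ≤ (i2 + l2) ∧ (n + i2) ≤ (2 * k + 2 * l + 2) ∧ (i + 1) ≤ (i3))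
    (a1 : Par W (0) (j) (k - j))
    (a2 : Par W (Q + j - k) (j) (k - j))
    (s1 : Ant W (0) (i) (i + j))
    (s2 : Ant W (j + 1) (Q) (i + j))
    (b : Par W (i + 1) (i + l + 1) (k - i))
    (tt : Ant W (Q) (i2) (i + l + i2 + 1))
    (c : Par W (i2 + 1) (i2 + l2 + 1) (k + l - i2 + 1))
    (u1 : Ant W (0) (i3) (k + l + l2 + i3 - n + 2))
    (u2 : Ant W (k + l + l2 - n + 3) (Q) (k + l + l2 + i3 - n + 2))
    (D1 : Par W (i3 + 1) (Q) (i2 + l2 - i3 + 1))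
    (D2 : Par W (i2 + l2 + 2) (n) (i3 - i2 - l2 - 1))
    {L : ℤ} (mx : ∀ a b g, 0 < g → g < n → Par W a b g → b - a ≤ L)
    (hL : L ≤ (n - j - 3) ∧ L ≤ (n + Q - k - 3) ∧ L ≤ (n - l - 3) ∧ L ≤ (n + i - k - 2) ∧ L ≤ (n - l2 - 3) ∧ L ≤ (n + i3 - Q - 2) ∧ L ≤ (i2 + l2 - 1) ∧ L ≤ (n + i2 - k - l - 3) ∧ L ≤ (Q + i2 + l2 - i - l - 3))
    (bd0 : Bd W n L (j) (i) (k))
    (bd2 : Bd W n L (k + l + l2 - n + 2) (i3) (i2 + l2 + 1))
    (n1 : Nd W (j) (i) (k))
    (n2 : Nd W (i + l + 1) (i2) (k + l + 1))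
    (n3 : Nd W (k + l + l2 - n + 2) (i3) (i2 + l2 + 1)) : False := by
  have ev := al.ev
  obtain ⟨y0, y1, y2, y3, y4, y5, y6, y7, y8, y9, y10, y11, y12, y13, y14, y15, y16, y17, y18, y19, y20, y21, y22⟩ := id hy
  have n1p := And.intro n1.p1 n1.p2
  have n2p := And.intro n2.p1 n2.p2
  have n3p := And.intro n3.p1 n3.p2
  by_cases z1 : (n) ≤ (2 * l2 + 2)
  · have kk1 : (k + l + 2) ≤ (n + i2) := by clear * - y12 y9; omega
    have kk2 : (i2) ≤ (k + l) := by clear * - y15 y16 y20 y21; omega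
    have kk3 : (n) ≤ (2 * l2 + 2) := by clear * - z1; omega
    clear * - al c mx hL kk1 kk2 kk3
    exact absurd (mx (k + l + 2) (k + l + l2 + 2) (n + i2 - k - l - 1) (by omega) (by omega) fun t h1 h2 => (cE (pb c al 0 t (t + (i2 - k - l - 1)) (by omega)) (sh al 1 (t + (i2 - k - l - 1)) (t + (n + i2 - k - l - 1)) (by omega)))) (by omega)
  · exact t2d_1 al hy a1 a2 s1 s2 b tt c u1 u2 D1 D2 mx hL bd0 bd2 n1 n2 n3 (by clear * - z1; omega)

end Pool.Agent.MP_a38735_al.WL
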