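import Pool.Agent.MP_a38735_al.WT

set_option autoImplicit false
set_option linter.unusedVariables false

namespace Pool.Agent.MP_a38735_al.WL

variable {G : Type*} [Group G]

theorem t3c_11 {W : ℤ → G} {n Q i j k l i2 l2 i3 : ℤ} (al : AL W n Q)
    (hy : (0) ≤ (i) ∧ (i) ≤ (j) ∧ (j + 1) ≤ (Q) ∧ (Q) ≤ (k) ∧ (k + 1) ≤ (n) ∧ (Q) ≤ (i + l + 1) ∧ (k + l + 2) ≤ (n) ∧ (Q) ≤ (i2) ∧ (i2) ≤ (i + l + 1) ∧ (Q) ≤ (i2 + l2 + 1) ∧ (i2 + l2 + 2) ≤ (n) ∧ (n) ≤ (k + l + l2 + 2) ∧ (k + l + l2 + 3) ≤ (n + Q) ∧ (0) ≤ (i3) ∧ (n + i3) ≤ (k + l + l2 + 2) ∧ (k + i2 + l2 + 2) ≤ (n + j + i3) ∧ (j + i3 + 1) ≤ (k) ∧ (k + i2 + l2 + 2) ≤ (n + i3) ∧ (i + 2 * i2 + 1) ≤ (2 * Q + k) ∧ (i + l + 1) ≤ (i2 + l2) ∧ (k + l) ≤ (i2 + l2) ∧ (i3 + 1) ≤ (i))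
    (a1 : Par W (0) (j) (k - j))
    (a2 : Par W (Q + j - k) (j) (k - j))
    (s1 : Ant W (0) (i) (i + j))
    (s2 : Ant W (j + 1) (Q) (i + j))
    (b : Par W (i + 1) (i + l + 1) (k - i))
    (tt : Ant W (Q) (i2) (i + l + i2 + 1))
    (c : Par W (i2 + 1) (i2 + l2 + 1) (k + l - i2 + 1))
    (u1 : Ant W (0) (i3) (k + l + l2 + i3 - n + 2))
    (u2 : Ant W (k + l + l2 - n + 3) (Q) (k + l + l2 + i3 - n + 2))
    (D1 : Par W (i3 + 1) (Q) (i2 + l2 - i3 + 1))
    (D2 : Par W (i2 + l2 + 2) (n) (i3 - i2 - l2 - 1))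
    {L : ℤ} (mx : ∀ a b g, 0 < g → g < n → Par W a b g → b - a ≤ L)
    (hL : L ≤ (n - j - 3) ∧ L ≤ (n + Q - k - 3) ∧ L ≤ (n - l - 3) ∧ L ≤ (n + i - k - 2) ∧ L ≤ (n - l2 - 3) ∧ L ≤ (n + i3 - Q - 2) ∧ L ≤ (i2 + l2 - 1) ∧ L ≤ (n + i2 - k - l - 3) ∧ L ≤ (Q + i2 + l2 - l - i3 - 3))
    (bd0 : Bd W n L (j) (i) (k))
    (bd2 : Bd W n L (k + l + l2 - n + 2) (i3) (i2 + l2 + 1))
    (n1 : Nd W (j) (i) (k))
    (n2 : Nd W (i + l + 1) (i2) (k + l + 1))
    (n3 : Nd W (k + l + l2 - n + 2) (i3) (i2 + l2 + 1))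
    (b0 : (2 * i + j + 1) ≤ (k))
    (b1 : (k + 2 * l + i3 + 2) ≤ (2 * i2 + l2))
    (b2 : (2 * l2 + 3) ≤ (n))
    (b3 : (2 * Q + i2) ≤ (k + l + 2 * i3 + 1))
    (b4 : (2 * i + l + i2 + 2) ≤ (2 * Q + k))
    (b5 : (j + i2) ≤ (l + 2 * i3 + 2))
    (b6 : (n + i) ≤ (k + l + l2 + i3 + 2))
    (b7 : (i + 2 * i2 + l2) ≤ (2 * k + l + i3)) : False := by
  have ev := al.ev
  obtain ⟨y0, y1, y2, y3, y4, y5, y6, y7, y8, y9, y10, y11, y12, y13, y14, y15, y16, y17, y18, y19, y20, y21⟩ := id hy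
  have n1p := And.intro n1.p1 n1.p2
  have n2p := And.intro n2.p1 n2.p2
  have n3p := And.intro n3.p1 n3.p2
  by_cases z27 : (Q + i2 + l2) ≤ (k + 2 * l + i3 + 2)
  · have kk314 : (k + l + i3 + 1) ≤ (2 * i2 + l2) := by clear * - b2 y14 y20; omega
    have kk315 : (i2 + l2 + 2) ≤ (n) := by clear * - b1 b4 b6 y17 y21 z27; omega
    have kk316 : (i3 + 1) ≤ (k) := by clear * - b1 b4 y20 y21 z27; omega
    have kk317 : (2 * k + l + 2) ≤ (n + i2) := by clear * - b1 b2 b6 y14 y17 y21; omega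
    have kk318 : (i3 + 1) ≤ (i) := by clear * - y21; omega
    have kk319 : (i + k + l + 2) ≤ (n + i2) := by clear * - b0 b2 b6 y15 y20 y21; omega
    have kk320 : (Q + i2 + l2) ≤ (k + 2 * l + i3 + 2) := by clear * - z27; omega
    have kk321 : (k + l) ≤ (i2 + l2) := by clear * - y20; omega
    have kk322 : (n) ≤ (k + l + l2 + 2) := by clear * - b6 y21; omega
    have kk323 : (i3) ≤ (k) := by clear * - b1 b4 y20 y21 z27; omega
    have kk324 : (i3) ≤ (i) := by clear * - y21; omega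
    have kk325 : (2 * k + 2 * l + 2) ≤ (n + i2) := by clear * - b1 y17; omega
    have kk326 : (i + k + 2 * l + 2) ≤ (n + i2) := by clear * - b1 b4 b6 y17 y21 z27; omega
    have kk327 : (i + k + 2 * l + 2) ≤ (n + i3) := by clear * - b1 b3 b4 y17; omega
    have kk328 : (i3) ≤ (i + l + 1) := by clear * - b1 b2 b6 y14 y17 y21; omega
    have kk329 : (i3 + 1) ≤ (Q) := by clear * - y12 y14; omega
    have kk330 : (i + k + 2 * l + 3) ≤ (n + Q) := by clear * - b1 b4 b6 y17 y21 z27; omega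
    have r331 : (i - k) % 2 = 0 := by clear * - ev n1p n2p n3p; omega
    have r332 : (2 * i2 + l2 - k - l - i3) % 2 = 0 := by clear * - ev n1p n2p n3p; omega
    have r333 : (2 * n + i + l + i2 + 1) % 2 = 0 := by clear * - ev n1p n2p n3p; omega
    clear * - al b tt c D2 n1 kk314 kk315 kk316 kk317 kk318 kk319 kk320 kk321 kk322 kk323 kk324 kk325 kk326 kk327 kk328 kk329 kk330 r331 r332 r333
    exact ivt al.ninv (n + i3 + 1) (2 * n + i3 - i2 - l2 - 1) (2 * i2 + l2 - k - l - i3) (n + k + 1) (n + k + l + 1) (i - k) (n + k) (n + i) 0 (fun t h1 h2 => (cE (cE (pb D2 al 1 t (t + (i2 + l2 - n - i3 + 1)) (by omega)) (pb c al 0 (t + (i2 + l2 - n - i3 + 1)) (t + (2 * i2 + l2 - n - k - l - i3)) (by omega))) (sh al 1 (t + (2 * i2 + l2 - n - k - l - i3)) (t + (2 * i2 + l2 - k - l - i3)) (by omega)))) (fun t h1 h2 => (cE (sh al (-2) t (t + (-2 * n)) (by omega)) (cE (pb b al (-1) (t + (-2 * n)) (t + (i - n - k)) (by omega)) (sh al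 1 (t + (i - n - k)) (t + (i - k)) (by omega))))) (fun hh => n1.f1 (rEE (sh al 1 (i) (n + i) (by omega)) (sh al 1 (k) (n + k) (by omega)) (Eq.symm (Eq.symm hh)))) (by omega) (n + i + l + 2) (n + i + l + i2 - Q + 2) (2 * n + i + l + i2 + 1) 1 0 (fun t h1 h2 => (cI (sh al (-1) t (t + (-n)) (by omega)) (cE (ab tt al 0 (t + (-n)) ((n + i + l + i2 + 1) - t) (by omega)) (sh al 1 ((n + i + l + i2 + 1) - t) ((2 * n + i + l + i2 + 1) - t) (by omega))))) (by omega)
  · by_cases z28 : (2 * k + l + i3) ≤ (i + 2 * i2 + l2)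
    · have kk334 : (i3 + 1) ≤ (i) := by clear * - y21; omega
      have kk335 : (i + 1) ≤ (Q) := by clear * - b2 b6 y14 y17 z27; omega
      have kk336 : (2 * k + l + i3) ≤ (i + 2 * i2 + l2) := by clear * - z28; omega
      have kk337 : (i + 2 * i2 + l2) ≤ (2 * k + l + i3) := by clear * - b7; omega
      have kk338 : (k + l) ≤ (i2 + l2) := by clear * - b3 b4 z28; omega
      have kk339 : (Q + i2) ≤ (k + l + i3 + 1) := by clear * - b0 b2 b3 b5 b6 y15 y21 z27; linarith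
      clear * - al c D1 n1 kk334 kk335 kk336 kk337 kk338 kk339
      exact n1.f1 (cE (qf D1 al 0 (i) (i + i2 + l2 - i3 + 1) (by omega)) (pb c al 0 (i + i2 + l2 - i3 + 1) (k) (by omega)))
    · by_cases z29 : (3 * i2 + 2 * l2) ≤ (n + j + 2 * l + 2 * i3)
      · by_cases z30 : (n + Q + j + l + 2 * i3) ≤ (i + 3 * i2 + 2 * l2 + 1)
        · by_cases v12 : (n + Q + j + l + i3) ≤ (3 * i2 + 2 * l2 + 2)
          · have kk340 : (2 * i2 + l2 + 1) ≤ (2 * k + l) := by clear * - y21 z28; omega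
            have kk341 : (2 * k + l + 2) ≤ (n + i2) := by clear * - b2 v12 y14 y17 z27 z29; omega
            have kk342 : (i + 2 * i2 + l2 + 1) ≤ (2 * k + l + i3) := by clear * - z28; omega
            have kk343 : (n + j + l + 2 * i3) ≤ (3 * i2 + 2 * l2) := by clear * - b2 b5 v12 y14 z27 z29; omega
            have kk344 : (3 * i2 + 2 * l2) ≤ (n + j + 2 * l + 2 * i3) := by clear * - z29; omega
            have kk345 : (i3 + 1) ≤ (i) := by clear * - y21; omega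
            have kk346 : (k + i2 + l2 + 1) ≤ (n + i3) := by clear * - y17; omega
            have kk347 : (k + l) ≤ (i2 + l2) := by clear * - v12 z27 z29; omega
            have kk348 : (n) ≤ (k + l + l2 + 2) := by clear * - b6 y21; omega
            have kk349 : (k + i2 + l2 + 2) ≤ (n + Q + j) := by clear * - b2 v12 y14 z27 z29; omega
            have kk350 : (0) ≤ (j) := by clear * - y1 y13 y21; omega
            have kk351 : (2 * i2 + l2) ≤ (2 * k + l) := by clear * - y21 z28; omega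
            have kk352 : (2 * k + 2 * l + 2) ≤ (n + i2) := by clear * - b1 y17; omega
            have kk353 : (n + Q + j + l + i3) ≤ (3 * i2 + 2 * l2 + 2) := by clear * - v12; omega
            have kk354 : (k + l + i3) ≤ (2 * i2 + l2) := by clear * - b2 v12 y14 z27 z29; omega
            have r355 : (2 * k + l + i3 - i - 2 * i2 - l2) % 2 = 0 := by clear * - ev n1p n2p n3p; omega
            have r356 : (3 * i2 + 2 * l2 - n - j - l - 2 * i3 + 1) % 2 = 0 := by clear * - ev n1p n2p n3p; omega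
            clear * - al a2 b c D2 n1 kk340 kk341 kk342 kk343 kk344 kk345 kk346 kk347 kk348 kk349 kk350 kk351 kk352 kk353 kk354 r355 r356
            exact n1.f1 (rEE (sh al 0 (i) (i) (by omega)) (pb (show Par W (i3 + 1) (n + i3 - i2 - l2 - 1) (2 * i2 + l2 - k - l - i3) from fun t h1 h2 => (cE (sh al (-1) t (t + (-n)) (by omega)) (cE (pb D2 al (-1) (t + (-n)) (t + (i2 + l2 - i3 + 1)) (by omega)) (pb c al 0 (t + (i2 + l2 - i3 + 1)) (t + (2 * i2 + l2 - k - l - i3)) (by omega))))) al 0 (k) (2 * k + l + i3 - 2 * i2 - l2) (by omega)) (rotL (2 * k + l + i3 - i - 2 * i2 - l2) (3 * i2 + 2 * l2 - n - j - l - 2 * i3 + 1) (i) (2 * k + l + i3 - 2 * i2 - l2) (by omega) (fun t h1 h2 => (cE (qf b al 0 t (t + (k - i)) (by omega)) (pb (show Par W (i3 + 1) (n + i3 - i2 - l2 - 1) (2 * i2 + l2 - k - l - i3) from fun t h1 h2 => (cE (sh al (-1) t (t + (-n)) (by omega)) (cE (pb D2 al (-1) (t + (-n)) (t + (i2 + l2 - i3 + 1)) (by omega)) (pb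 c al 0 (t + (i2 + l2 - i3 + 1)) (t + (2 * i2 + l2 - k - l - i3)) (by omega))))) al 0 (t + (k - i)) (t + (2 * k + l + i3 - i - 2 * i2 - l2)) (by omega)))) (fun t h1 h2 => (cE (qf (show Par W (i3 + 1) (n + i3 - i2 - l2 - 1) (2 * i2 + l2 - k - l - i3) from fun t h1 h2 => (cE (sh al (-1) t (t + (-n)) (by omega)) (cE (pb D2 al (-1) (t + (-n)) (t + (i2 + l2 - i3 + 1)) (by omega)) (pb c al 0 (t + (i2 + l2 - i3 + 1)) (t + (2 * i2 + l2 - k - l - i3)) (by omega))))) al 0 t (t + (2 * i2 + l2 - k - l - i3)) (by omega)) (pb (show Par W (Q) (k - j) (n + j + i3 - k - i2 - l2 - 1) from fun t h1 h2 => (cE (sh al (-1) t (t + (-n)) (by omega)) (cE (pb a2 al (-1) (t + (-n)) (t + (j - k)) (by omega)) (qf D2 al (-1) (t + (j - k)) (t + (n + j + i3 - k - i2 - l2 - 1)) (by omega))))) al 0 (t + (2 * i2 + l2 - k - l - i3)) (t + (3 * i2 + 2 * l2 - n - j - l - 2 * i3 + 1)) (by omega))))))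
          · have kk357 : (2 * i2 + l2 + 1) ≤ (2 * k + l) := by clear * - v12 z28 z30; omega
            have kk358 : (2 * k + l + 2) ≤ (n + i2) := by clear * - b1 b2 b6 v12 y14 y17 z30; linarith
            have kk359 : (i + 2 * i2 + l2 + 1) ≤ (2 * k + l + i3) := by clear * - z28; omega
            have kk360 : (n + j + l + 2 * i3) ≤ (3 * i2 + 2 * l2) := by clear * - b1 b2 b5 y14; omega
            have kk361 : (3 * i2 + 2 * l2) ≤ (n + j + 2 * l + 2 * i3) := by clear * - z29; omega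
            have kk362 : (n + Q + j + l + 2 * i3) ≤ (i + 3 * i2 + 2 * l2 + 1) := by clear * - z30; omega
            have kk363 : (k + i2 + l2 + 1) ≤ (n + i3) := by clear * - y17; omega
            have kk364 : (k + l) ≤ (i2 + l2) := by clear * - y20; omega
            have kk365 : (n) ≤ (k + l + l2 + 2) := by clear * - b6 v12 z30; omega
            have kk366 : (k + i2 + l2 + 2) ≤ (n + Q + j) := by clear * - b1 b2 b5 v12 y14 z29; omega
            have kk367 : (0) ≤ (j) := by clear * - b6 v12 y7 z27 z30; omega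
            have kk368 : (2 * i2 + l2) ≤ (2 * k + l) := by clear * - v12 z28 z30; omega
            have kk369 : (2 * k + 2 * l + 2) ≤ (n + i2) := by clear * - b1 y17; omega
            have kk370 : (3 * i2 + 2 * l2 + 2) ≤ (n + Q + j + l + i3) := by clear * - v12; omega
            have kk371 : (k + l + i3) ≤ (2 * i2 + l2) := by clear * - b1 b2 b5 y14 z29; omega
            have r372 : (2 * k + l + i3 - i - 2 * i2 - l2) % 2 = 0 := by clear * - ev n1p n2p n3p; omega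
            have r373 : (3 * i2 + 2 * l2 - n - j - l - 2 * i3 + 1) % 2 = 0 := by clear * - ev n1p n2p n3p; omega
            clear * - al a2 b c D2 n1 kk357 kk358 kk359 kk360 kk361 kk362 kk363 kk364 kk365 kk366 kk367 kk368 kk369 kk370 kk371 r372 r373
            exact n1.f1 (rEE (sh al 0 (i) (i) (by omega)) (pb (show Par W (i3 + 1) (n + i3 - i2 - l2 - 1) (2 * i2 + l2 - k - l - i3) from fun t h1 h2 => (cE (sh al (-1) t (t + (-n)) (by omega)) (cE (pb D2 al (-1) (t + (-n)) (t + (i2 + l2 - i3 + 1)) (by omega)) (pb c al 0 (t + (i2 + l2 - i3 + 1)) (t + (2 * i2 + l2 - k - l - i3)) (by omega))))) al 0 (k) (2 * k + l + i3 - 2 * i2 - l2) (by omega)) (rotL (2 * k + l + i3 - i - 2 * i2 - l2) (3 * i2 + 2 * l2 - n - j - l - 2 * i3 + 1) (i) (2 * k + l + i3 - 2 * i2 - l2) (by omega) (fun t h1 h2 => (cE (qf b al 0 t (t + (k - i)) (by omega)) (pb (show Par W (i3 + 1) (n + i3 - i2 - l2 - 1) (2 * i2 + l2 - k - l - i3) from fun t h1 h2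 => (cE (sh al (-1) t (t + (-n)) (by omega)) (cE (pb D2 al (-1) (t + (-n)) (t + (i2 + l2 - i3 + 1)) (by omega)) (pb c al 0 (t + (i2 + l2 - i3 + 1)) (t + (2 * i2 + l2 - k - l - i3)) (by omega))))) al 0 (t + (k - i)) (t + (2 * k + l + i3 - i - 2 * i2 - l2)) (by omega)))) (fun t h1 h2 => (cE (qf (show Par W (i3 + 1) (n + i3 - i2 - l2 - 1) (2 * i2 + l2 - k - l - i3) from fun t h1 h2 => (cE (sh al (-1) t (t + (-n)) (by omega)) (cE (pb D2 al (-1) (t + (-n)) (t + (i2 + l2 - i3 + 1)) (by omega)) (pb c al 0 (t + (i2 + l2 - i3 + 1)) (t + (2 * i2 + l2 - k - l - i3)) (by omega))))) al 0 t (t + (2 * i2 + l2 - k - l - i3)) (by omega)) (pb (show Par W (Q) (k - j) (n + j + i3 - k - i2 - l2 - 1) from fun t h1 h2 => (cE (sh al (-1) t (t + (-n)) (by omega)) (cE (pb a2 al (-1) (t + (-n)) (t + (j - k)) (by omega)) (qf D2 al (-1) (t + (j - k)) (t + (n + j + i3 - k - i2 - l2 - 1)) (by omega))))) al 0 (t + (2 * i2 + l2 - k - l - i3)) (t +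 (3 * i2 + 2 * l2 - n - j - l - 2 * i3 + 1)) (by omega))))))
        · by_cases z31 : (k + l + l2 + 2) ≤ (n + i3)
          · by_cases z32 : (k + 2 * l + l2 + i3 + 3) ≤ (n + j + i2)
            · by_cases v13 : (Q + k + l) ≤ (i2 + l2 + i3)
              · have kk374 : (k + i2 + l2 + 2) ≤ (n + j + i3) := by clear * - b1 z29; omega
                have kk375 : (k + l + 1) ≤ (i2 + l2) := by clear * - b1 b6 y17 y21; omega
                have kk376 : (3 * i2 + 2 * l2 + 2) ≤ (n + k + l + i3) := by clear * - y17 y21 z28; omega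
                have kk377 : (n + i3) ≤ (k + l + l2 + 2) := by clear * - y14; omega
                have kk378 : (k + l + l2 + 2) ≤ (n + i3) := by clear * - z31; omega
                have kk379 : (Q + i2) ≤ (k + l + i3 + 1) := by clear * - b0 b3 b6 v13 y21 z29 z31 z32; linarith
                have kk380 : (Q + k + l) ≤ (2 * i2 + l2) := by clear * - b2 b5 v13 y14 z27 z29; omega
                have kk381 : (k + l + l2 + 3) ≤ (n + j) := by clear * - b1 z29 z32; omega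
                have kk382 : (3 * i2 + 2 * l2 + 2) ≤ (n + j + k + l + i3) := by clear * - b3 b4 y21 z28 z29 z32; omega
                have kk383 : (k + 2 * l + l2 + i3 + 3) ≤ (n + j + i2) := by clear * - z32; omega
                have kk384 : (i3) ≤ (i2) := by clear * - b2 b5 v13 y14 z27 z29; omega
                have kk385 : (n + i3) ≤ (2 * i2 + 2 * l2 + 2) := by clear * - b2 b5 b6 v13 y14 y21 z27 z30; linarith
                have kk386 : (i3 + 1) ≤ (Q) := by clear * - b2 b5 v13 y14 z27 z29; omega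
                have kk387 : (k + i2 + l2 + 1) ≤ (n + i3) := by clear * - y17; omega
                have kk388 : (3 * i2 + l2) ≤ (2 * k + 2 * l + 1) := by clear * - y14 y17 y21 z28; omega
                have kk389 : (i2) ≤ (k + l + 1) := by clear * - b0 b2 b6 v13 y21 z27 z29; linarith
                have kk390 : (Q + k + l) ≤ (i2 + l2 + i3) := by clear * - v13; omega
                have kk391 : (3 * i2 + l2) ≤ (j + 2 * k + 2 * l + 1) := by clear * - b3 b4 y14 y21 z28 z29 z32; linarith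
                have kk392 : (Q + i2) ≤ (k + l + i3 + 2) := by clear * - b0 b3 b6 v13 y21 z29 z31 z32; linarith
                have kk393 : (j) ≤ (Q) := by clear * - b2 b5 y14 z27; omega
                have kk394 : (Q + j + k + l) ≤ (2 * i2 + l2 + i3 + 1) := by clear * - b2 b5 v13 y14 z27; omega
                have r395 : (3 * i2 + 2 * l2 - n - k - l + 1) % 2 = 0 := by clear * - ev n1p n2p n3p; omega
                have r396 : (n + j + i3 - k - i2 - l2 - 1) % 2 = 0 := by clear * - ev n1p n2p n3p; omega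
                clear * - al a2 c u2 D2 n3 kk374 kk375 kk376 kk377 kk378 kk379 kk380 kk381 kk382 kk383 kk384 kk385 kk386 kk387 kk388 kk389 kk390 kk391 kk392 kk393 kk394 r395 r396
                exact n3.f0 (rEE (sh al 0 (k + l + l2 - n + 2) (k + l + l2 - n + 2) (by omega)) (cE (qf (show Par W (k + l + 2) (n + k + l + i3 - 2 * i2 - l2) (2 * i2 + l2 - k - l - i3) from fun t h1 h2 => (cE (sh al (-1) t (t + (-n)) (by omega)) (cE (pb c al (-1) (t + (-n)) (t + (i2 - k - l - 1)) (by omega)) (pb D2 al 0 (t + (i2 - k - l - 1)) (t + (2 * i2 + l2 - k - l - i3)) (by omega))))) al 0 (i2 + l2 + 1) (3 * i2 + 2 * l2 - k - l - i3 + 1) (by omega)) (sh al (-1) (3 * i2 + 2 * l2 - k - l - i3 + 1) (3 * i2 + 2 * l2 - n - k - l - i3 + 1) (by omega))) (midL al (n + j + i3 - k - i2 - l2 - 1) (3 * i2 + 2 * l2 - n - k - l + 1) (k + l + l2 - n + 2) (3 * i2 + 2 * l2 - n - k - l - i3 + 1) (Q + i2 + l2 - n - i3 + 1) (j) (by omega) (fun t h1 h2 =>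 (cE (cE (cE (qa u2 al 0 t ((k + l + l2 + i3 - n + 2) - t) (by omega)) (pb c al (-1) ((k + l + l2 + i3 - n + 2) - t) ((i2 + l2 + i3 + 1) - t) (by omega))) (qf (show Par W (k + l + 2) (n + k + l + i3 - 2 * i2 - l2) (2 * i2 + l2 - k - l - i3) from fun t h1 h2 => (cE (sh al (-1) t (t + (-n)) (by omega)) (cE (pb c al (-1) (t + (-n)) (t + (i2 - k - l - 1)) (by omega)) (pb D2 al 0 (t + (i2 - k - l - 1)) (t + (2 * i2 + l2 - k - l - i3)) (by omega))))) al 0 ((i2 + l2 + i3 + 1) - t) ((3 * i2 + 2 * l2 - k - l + 1) - t) (by omega))) (sh al (-1) ((3 * i2 + 2 * l2 - k - l + 1) - t) ((3 * i2 + 2 * l2 - n - k - l + 1) - t) (by omega)))) (fun t h1 h2 => (cE (qf (show Par W (Q + i2 + l2 - i3 + 1) (k + i2 + l2 - i3 + 1) (n + j + i3 - k - i2 - l2 - 1) from fun t h1 h2 => (cE (sh al (-1) t (t + (-n)) (by omega)) (cE (cE (qf D2 al (-1) (t + (-n)) (t + (i3 - i2 - l2 - 1)) (by omega)) (pb a2 al 0 (t + (i3 - i2 - l2 - 1)) (t + (j + i3 - k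 - i2 - l2 - 1)) (by omega))) (sh al 1 (t + (j + i3 - k - i2 - l2 - 1)) (t + (n + j + i3 - k - i2 - l2 - 1)) (by omega))))) al (-1) t (t + (2 * n + j + i3 - k - i2 - l2 - 1)) (by omega)) (sh al (-1) (t + (2 * n + j + i3 - k - i2 - l2 - 1)) (t + (n + j + i3 - k - i2 - l2 - 1)) (by omega))))))
              · have kk397 : (k + i2 + l2 + 2) ≤ (n + j + i3) := by clear * - b1 z29; omega
                have kk398 : (k + l + 1) ≤ (i2 + l2) := by clear * - b1 b6 y17 y21; omega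
                have kk399 : (3 * i2 + 2 * l2 + 2) ≤ (n + k + l + i3) := by clear * - y17 y21 z28; omega
                have kk400 : (n + i3) ≤ (k + l + l2 + 2) := by clear * - y14; omega
                have kk401 : (k + l + l2 + 2) ≤ (n + i3) := by clear * - z31; omega
                have kk402 : (Q + i2) ≤ (k + l + i3 + 1) := by clear * - b0 b1 b3 b6 y21 z29 z31; linarith
                have kk403 : (Q + k + l) ≤ (2 * i2 + l2) := by clear * - y20 y7; omega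
                have kk404 : (k + l + l2 + 3) ≤ (n + j) := by clear * - b1 z29 z32; omega
                have kk405 : (3 * i2 + 2 * l2 + 2) ≤ (n + j + k + l + i3) := by clear * - b3 v13 y21 z27 z29 z30 z32; linarith
                have kk406 : (k + 2 * l + l2 + i3 + 3) ≤ (n + j + i2) := by clear * - z32; omega
                have kk407 : (i3) ≤ (i2) := by clear * - b1 b2 b5 y14 z29; omega
                have kk408 : (n + i3) ≤ (2 * i2 + 2 * l2 + 2) := by clear * - b1 b2 b5 b6 y14 y21 z29; linarith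
                have kk409 : (i3 + 1) ≤ (Q) := by clear * - v13 y20; omega
                have kk410 : (k + i2 + l2 + 1) ≤ (n + i3) := by clear * - y17; omega
                have kk411 : (3 * i2 + l2) ≤ (2 * k + 2 * l + 1) := by clear * - y14 y17 y21 z28; omega
                have kk412 : (i2) ≤ (k + l + 1) := by clear * - b0 b1 b6 y21 z29 z31; omega
                have kk413 : (i2 + l2 + i3) ≤ (Q + k + l) := by clear * - v13; omega
                have kk414 : (3 * i2 + l2) ≤ (j + 2 * k + 2 * l + 1) := by clear * - b3 v13 y14 y21 z27 z29 z30 z32; linarith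
                have kk415 : (Q + i2) ≤ (k + l + i3 + 2) := by clear * - b0 b1 b3 b6 y21 z29 z31; linarith
                have kk416 : (j + k + l) ≤ (i2 + l2 + i3) := by clear * - b1 b5; omega
                have kk417 : (Q + j + k + l) ≤ (2 * i2 + l2 + i3 + 1) := by clear * - b5 y7 z27; omega
                have r418 : (3 * i2 + 2 * l2 - n - k - l + 1) % 2 = 0 := by clear * - ev n1p n2p n3p; omega
                have r419 : (n + j + i3 - k - i2 - l2 - 1) % 2 = 0 := by clear * - ev n1p n2p n3p; omega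
                clear * - al a2 c u2 D2 n3 kk397 kk398 kk399 kk400 kk401 kk402 kk403 kk404 kk405 kk406 kk407 kk408 kk409 kk410 kk411 kk412 kk413 kk414 kk415 kk416 kk417 r418 r419
                exact n3.f0 (rEE (sh al 0 (k + l + l2 - n + 2) (k + l + l2 - n + 2) (by omega)) (cE (qf (show Par W (k + l + 2) (n + k + l + i3 - 2 * i2 - l2) (2 * i2 + l2 - k - l - i3) from fun t h1 h2 => (cE (sh al (-1) t (t + (-n)) (by omega)) (cE (pb c al (-1) (t + (-n)) (t + (i2 - k - l - 1)) (by omega)) (pb D2 al 0 (t + (i2 - k - l - 1)) (t + (2 * i2 + l2 - k - l - i3)) (by omega))))) al 0 (i2 + l2 + 1) (3 * i2 + 2 * l2 - k - l - i3 + 1) (by omega)) (sh al (-1) (3 * i2 + 2 * l2 - k - l - i3 + 1) (3 * i2 + 2 * l2 - n - k - l - i3 + 1) (by omega))) (midL al (n + j + i3 - k - i2 - l2 - 1) (3 * i2 + 2 * l2 - n - k - l + 1) (k + l + l2 - n + 2) (3 * i2 + 2 * l2 - n - k - l - i3 + 1) (Q + i2 + l2 - n - i3 + 1) (j) (by omega) (fun t h1 h2 =>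 (cE (cE (cE (qa u2 al 0 t ((k + l + l2 + i3 - n + 2) - t) (by omega)) (pb c al (-1) ((k + l + l2 + i3 - n + 2) - t) ((i2 + l2 + i3 + 1) - t) (by omega))) (qf (show Par W (k + l + 2) (n + k + l + i3 - 2 * i2 - l2) (2 * i2 + l2 - k - l - i3) from fun t h1 h2 => (cE (sh al (-1) t (t + (-n)) (by omega)) (cE (pb c al (-1) (t + (-n)) (t + (i2 - k - l - 1)) (by omega)) (pb D2 al 0 (t + (i2 - k - l - 1)) (t + (2 * i2 + l2 - k - l - i3)) (by omega))))) al 0 ((i2 + l2 + i3 + 1) - t) ((3 * i2 + 2 * l2 - k - l + 1) - t) (by omega))) (sh al (-1) ((3 * i2 + 2 * l2 - k - l + 1) - t) ((3 * i2 + 2 * l2 - n - k - l + 1) - t) (by omega)))) (fun t h1 h2 => (cE (qf (show Par W (Q + i2 + l2 - i3 + 1) (k + i2 + l2 - i3 + 1) (n + j + i3 - k - i2 - l2 - 1) from fun t h1 h2 => (cE (sh al (-1) t (t + (-n)) (by omega)) (cE (cE (qf D2 al (-1) (t + (-n)) (t + (i3 - i2 - l2 - 1)) (by omega)) (pb a2 al 0 (t + (i3 - i2 - l2 - 1)) (t + (j + i3 - k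 - i2 - l2 - 1)) (by omega))) (sh al 1 (t + (j + i3 - k - i2 - l2 - 1)) (t + (n + j + i3 - k - i2 - l2 - 1)) (by omega))))) al (-1) t (t + (2 * n + j + i3 - k - i2 - l2 - 1)) (by omega)) (sh al (-1) (t + (2 * n + j + i3 - k - i2 - l2 - 1)) (t + (n + j + i3 - k - i2 - l2 - 1)) (by omega))))))
            · by_cases z33 : (i2 + l2 + i3) ≤ (Q + k + l)
              · have kk420 : (i3 + 1) ≤ (i) := by clear * - y21; omega
                have kk421 : (i + i2 + l2 + 2) ≤ (n + i3) := by clear * - b0 b1 b3 z29 z31 z32 z33; linarith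
                have kk422 : (i + 1) ≤ (k) := by clear * - b0 b1 b3 b6 z29 z31 z32 z33; linarith
                have kk423 : (0) ≤ (l) := by clear * - b1 b2 y14 z29 z32; omega
                have kk424 : (k + l + i3 + 1) ≤ (2 * i2 + l2) := by clear * - b1 b2 y14 z29 z32; omega
                have kk425 : (i + 2 * i2 + l2) ≤ (2 * k + 2 * l + i3) := by clear * - b0 b1 b3 b6 z29 z31 z32 z33; linarith
                have kk426 : (i2 + l2 + i3) ≤ (Q + k + l) := by clear * - z33; omega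
                have kk427 : (k + i2 + l2 + 1) ≤ (n + i3) := by clear * - y17; omega
                have kk428 : (k + l) ≤ (i2 + l2) := by clear * - b1 z29 z32; omega
                have kk429 : (n) ≤ (k + l + l2 + 2) := by clear * - b6 y21; omega
                have kk430 : (Q + i2) ≤ (k + l + i3 + 1) := by clear * - b1 b3 z29 z32 z33; omega
                have kk431 : (0) ≤ (i3) := by clear * - b6 y21 z31; omega
                have kk432 : (i3) ≤ (i) := by clear * - y21; omega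
                have kk433 : (k + l + i3) ≤ (2 * i2 + l2) := by clear * - b1 b2 y14 z29 z32; omega
                have kk434 : (2 * k + 2 * l + 2) ≤ (n + i2) := by clear * - b1 y17; omega
                have kk435 : (2 * i3) ≤ (i + i2) := by clear * - b1 b2 y14 y21 z29 z32; omega
                have kk436 : (Q + i + i2) ≤ (k + l + 2 * i3 + 1) := by clear * - b0 b1 b3 b6 z29 z31 z32 z33; linarith
                have kk437 : (n + i) ≤ (k + l + l2 + i3 + 2) := by clear * - b6; omega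
                have r438 : (k + l + i3 - 2 * i2 - l2) % 2 = 0 := by clear * - ev n1p n2p n3p; omega
                have r439 : (k - i) % 2 = 0 := by clear * - ev n1p n2p n3p; omega
                have r440 : (2 * n + k + l + 2 * i3 - i2 + 1) % 2 = 0 := by clear * - ev n1p n2p n3p; omega
                clear * - al b c u2 D2 n1 kk420 kk421 kk422 kk423 kk424 kk425 kk426 kk427 kk428 kk429 kk430 kk431 kk432 kk433 kk434 kk435 kk436 kk437 r438 r439 r440
                exact ivt al.ninv (n + i + 1) (n + i + l + 1) (k - i) (n + i + 2 * i2 + l2 - k - l - i3 + 1) (n + k + l + 1) (k + l + i3 - 2 * i2 - l2) (n + i + 2 * i2 + l2 - k - l - i3) (n + k) 1 (fun t h1 h2 => (cE (qf b al 1 t (t + (k - n - i)) (by omega)) (sh al 1 (t + (k - n - i)) (t + (k - i)) (by omega)))) (fun t h1 h2 => (cE (sh al (-1) t (t + (-n)) (by omega)) (cE (pb (show Par W (i3 + 1) (n + i3 - i2 - l2 - 1) (2 * i2 + l2 - k - l - i3) from fun t h1 h2 => (cE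 (sh al (-1) t (t + (-n)) (by omega)) (cE (pb D2 al (-1) (t + (-n)) (t + (i2 + l2 - i3 + 1)) (by omega)) (pb c al 0 (t + (i2 + l2 - i3 + 1)) (t + (2 * i2 + l2 - k - l - i3)) (by omega))))) al 0 (t + (-n)) (t + (k + l + i3 - n - 2 * i2 - l2)) (by omega)) (sh al 1 (t + (k + l + i3 - n - 2 * i2 - l2)) (t + (k + l + i3 - 2 * i2 - l2)) (by omega))))) (fun hh => n1.f1 (rEE (cE (qf (show Par W (i3 + 1) (n + i3 - i2 - l2 - 1) (2 * i2 + l2 - k - l - i3) from fun t h1 h2 => (cE (sh al (-1) t (t + (-n)) (by omega)) (cE (pb D2 al (-1) (t + (-n)) (t + (i2 + l2 - i3 + 1)) (by omega)) (pb c al 0 (t + (i2 + l2 - i3 + 1)) (t + (2 * i2 + l2 - k - l - i3)) (by omega))))) al 0 (i) (i + 2 * i2 + l2 - k - l - i3) (by omega)) (sh al 1 (i + 2 * i2 + l2 - k - l - i3) (n + i + 2 * i2 + l2 - k - l - i3) (by omega))) (sh al 1 (k) (n + k) (by omega)) (Eq.symm hh))) (by omega) (n + k + l + 2 * i3 - Q - i2 + 2) (2 * n + i3 - i2 - l2 - 1) (2 * n +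 k + l + 2 * i3 - i2 + 1) 1 0 (fun t h1 h2 => (cI (sh al (-1) t (t + (-n)) (by omega)) (cE (cI (pb D2 al 0 (t + (-n)) (t + (i2 + l2 - n - i3 + 1)) (by omega)) (ab u2 al 1 (t + (i2 + l2 - n - i3 + 1)) ((n + k + l + 2 * i3 - i2 + 1) - t) (by omega))) (sh al 1 ((n + k + l + 2 * i3 - i2 + 1) - t) ((2 * n + k + l + 2 * i3 - i2 + 1) - t) (by omega))))) (by omega)
              · by_cases z34 : (n + Q + 2 * j) ≤ (i + 2 * k + l + l2 + 3)
                · by_cases z35 : (n + Q + 2 * j) ≤ (2 * k + l + l2 + i3 + 3)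
                  · have kk441 : (i3 + 1) ≤ (i) := by clear * - y21; omega
                    have kk442 : (i + i2 + l2 + 2) ≤ (n + i3) := by clear * - b0 b2 b6 y21 z27 z29 z33; linarith
                    have kk443 : (i + 1) ≤ (k) := by clear * - b0 b1 b2 b6 y21 z30 z33; linarith
                    have kk444 : (0) ≤ (l) := by clear * - b2 y14 z27 z29 z32 z33; omega
                    have kk445 : (k + l + i3 + 1) ≤ (2 * i2 + l2) := by clear * - b2 y14 z27 z29 z32 z33; omega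
                    have kk446 : (i + 2 * i2 + l2) ≤ (2 * k + 2 * l + i3) := by clear * - b0 b2 b6 y21 z30 z33; omega
                    have kk447 : (2 * i2 + 2 * l2 + 1) ≤ (n + j + l + i3) := by clear * - b2 y14 y21 z30 z33; omega
                    have kk448 : (k + l) ≤ (i2 + l2) := by clear * - b1 z29 z32; omega
                    have kk449 : (n) ≤ (k + l + l2 + 2) := by clear * - b6 y21; omega
                    have kk450 : (i3) ≤ (j) := by clear * - b2 y14 y21 z27 z30 z33; omega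
                    have kk451 : (n) ≤ (k + l + l2 + 3) := by clear * - b6 y21; omega
                    have kk452 : (n + Q + 2 * j) ≤ (2 * k + l + l2 + i3 + 3) := by clear * - z35; omega
                    have kk453 : (j) ≤ (Q) := by clear * - b2 z27 z32; omega
                    have kk454 : (i3) ≤ (i) := by clear * - y21; omega
                    have kk455 : (k + l + i3) ≤ (2 * i2 + l2) := by clear * - b2 y14 z27 z29 z32 z33; omega
                    have kk456 : (2 * k + 2 * l + 2) ≤ (n + i2) := by clear * - b1 y17; omega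
                    have kk457 : (i3) ≤ (j + l + 1) := by clear * - b2 y14 z27 z29 z32 z33; omega
                    have kk458 : (n + i + j) ≤ (2 * k + l + l2 + 2) := by clear * - b0 b6 y21 z31; omega
                    have kk459 : (n + i + 2 * j) ≤ (2 * k + l + l2 + i3 + 2) := by clear * - b1 b2 z28 z32; omega
                    have kk460 : (0) ≤ (l + 1) := by clear * - b2 y14 z27 z29 z32 z33; omega
                    have r461 : (2 * i2 + l2 - k - l - i3) % 2 = 0 := by clear * - ev n1p n2p n3p; omega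
                    have r462 : (k - i) % 2 = 0 := by clear * - ev n1p n2p n3p; omega
                    have r463 : (3 * k + l + l2 + i3 - 3 * n - 2 * j + 2) % 2 = 0 := by clear * - ev n1p n2p n3p; omega
                    clear * - al a1 a2 b c u2 D2 n1 kk441 kk442 kk443 kk444 kk445 kk446 kk447 kk448 kk449 kk450 kk451 kk452 kk453 kk454 kk455 kk456 kk457 kk458 kk459 kk460 r461 r462 r463
                    exact ivt al.ninv (i - n + 1) (i + l - n + 1) (k - i) (i - n + 1) (2 * k + 2 * l + i3 - n - 2 * i2 - l2 + 1) (2 * i2 + l2 - k - l - i3) (k - n) (i + 2 * i2 + l2 - n - k - l - i3) (-1) (fun t h1 h2 => (cE (qf b al (-1) t (t + (n + k - i)) (by omega)) (sh al (-1) (t + (n + k - i)) (t + (k - i)) (by omega)))) (fun t h1 h2 => (cE (sh al 2 t (t + (2 * n)) (by omega)) (cE (qf (show Par W (i3 + 1) (n + i3 - i2 - l2 - 1) (2 * i2 + l2 - k - l - i3) from fun t h1 h2 => (cE (sh al (-1) t (t + (-n)) (by omega)) (cE (pb D2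 al (-1) (t + (-n)) (t + (i2 + l2 - i3 + 1)) (by omega)) (pb c al 0 (t + (i2 + l2 - i3 + 1)) (t + (2 * i2 + l2 - k - l - i3)) (by omega))))) al 1 (t + (2 * n)) (t + (n + 2 * i2 + l2 - k - l - i3)) (by omega)) (sh al (-1) (t + (n + 2 * i2 + l2 - k - l - i3)) (t + (2 * i2 + l2 - k - l - i3)) (by omega))))) (fun hh => n1.f1 (rEE (cE (qf (show Par W (i3 + 1) (n + i3 - i2 - l2 - 1) (2 * i2 + l2 - k - l - i3) from fun t h1 h2 => (cE (sh al (-1) t (t + (-n)) (by omega)) (cE (pb D2 al (-1) (t + (-n)) (t + (i2 + l2 - i3 + 1)) (by omega)) (pb c al 0 (t + (i2 + l2 - i3 + 1)) (t + (2 * i2 + l2 - k - l - i3)) (by omega))))) al 0 (i) (i + 2 * i2 + l2 - k - l - i3) (by omega)) (sh al (-1) (i + 2 * i2 + l2 - k - l - i3) (i + 2 * i2 + l2 - n - k - l - i3) (by omega))) (sh al (-1) (k) (k - n) (by omega)) (Eq.symm (Eq.symm hh)))) (by omega) (2 * k + l + l2 - 2 * n - j + 3) (k - n) (3 * k + l + l2 + i3 - 3 * n - 2 * j + 2) 0 0 (fun t h1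 h2 => (cE (cE (cI (pb a1 al (-1) t (t + (n + j - k)) (by omega)) (qa u2 al 0 (t + (n + j - k)) ((2 * k + l + l2 + i3 - 2 * n - j + 2) - t) (by omega))) (qf a2 al 0 ((2 * k + l + l2 + i3 - 2 * n - j + 2) - t) ((3 * k + l + l2 + i3 - 2 * n - 2 * j + 2) - t) (by omega))) (sh al (-1) ((3 * k + l + l2 + i3 - 2 * n - 2 * j + 2) - t) ((3 * k + l + l2 + i3 - 3 * n - 2 * j + 2) - t) (by omega)))) (by omega)
                  · have kk464 : (i + 2 * i2 + l2 + 1) ≤ (2 * k + l + i3) := by clear * - z28; omega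
                    have kk465 : (2 * k + l + i3 + 1) ≤ (n + i + 2 * i2 + l2) := by clear * - b1 b2 b3 z28 z32 z33 z34 z35; linarith
                    have kk466 : (2 * k + l + i3 + 1) ≤ (Q + 2 * i2 + l2) := by clear * - b1 b2 z32 z35; omega
                    have kk467 : (Q) ≤ (i + l + 1) := by clear * - b2 y14 z27 z30 z32 z33 z34 z35; linarith
                    have kk468 : (k + l) ≤ (i2 + l2) := by clear * - b1 z29 z32; omega
                    have kk469 : (n) ≤ (k + l + l2 + 2) := by clear * - b6 z34 z35; omega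
                    have kk470 : (2 * i2 + l2) ≤ (2 * k + l) := by clear * - z28 z34 z35; omega
                    have kk471 : (2 * k + 2 * l + 2) ≤ (n + i2) := by clear * - b0 b2 z27 z31 z32 z33 z34 z35; linarith
                    clear * - al b c D2 kk464 kk465 kk466 kk467 kk468 kk469 kk470 kk471
                    exact al.ubQ (2 * k + l + i3 - i - 2 * i2 - l2) (by omega) (by omega) fun t h1 h2 => (cE (sh al (-1) t (t + (-n)) (by omega)) (cE (qf b al (-1) (t + (-n)) (t + (k - i)) (by omega)) (pb (show Par W (i3 + 1) (n + i3 - i2 - l2 - 1) (2 * i2 + l2 - k - l - i3) from fun t h1 h2 => (cE (sh al (-1) t (t + (-n)) (by omega)) (cE (pb D2 al (-1) (t + (-n)) (t + (i2 + l2 - i3 + 1)) (by omega)) (pb c al 0 (t + (i2 + l2 - i3 + 1)) (t + (2 * i2 + l2 - k - l - i3)) (by omega))))) al 0 (t + (k - i)) (t + (2 * k + l + i3 - i - 2 * i2 - l2)) (by omega))))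
                · have kk472 : (i + 2 * i2 + l2 + 1) ≤ (2 * k + l + i3) := by clear * - z28; omega
                  have kk473 : (2 * k + l + i3 + 1) ≤ (n + i + 2 * i2 + l2) := by clear * - b1 b2 b3 y21 z28 z32 z33 z34; linarith
                  have kk474 : (2 * k + l + i3 + 1) ≤ (Q + 2 * i2 + l2) := by clear * - b1 b2 y21 z32 z34; omega
                  have kk475 : (Q) ≤ (i + l + 1) := by clear * - b2 y14 y21 z27 z30 z32 z33; linarith
                  have kk476 : (k + l) ≤ (i2 + l2) := by clear * - b1 z29 z32; omega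
                  have kk477 : (n) ≤ (k + l + l2 + 2) := by clear * - b6 y21; omega
                  have kk478 : (2 * i2 + l2) ≤ (2 * k + l) := by clear * - y21 z28; omega
                  have kk479 : (2 * k + 2 * l + 2) ≤ (n + i2) := by clear * - b0 b2 y21 z27 z31 z32 z33 z34; linarith
                  clear * - al b c D2 kk472 kk473 kk474 kk475 kk476 kk477 kk478 kk479
                  exact al.ubQ (2 * k + l + i3 - i - 2 * i2 - l2) (by omega) (by omega) fun t h1 h2 => (cE (sh al 1 t (t + (n)) (by omega)) (cE (qf b al 1 (t + (n)) (t + (k - i)) (by omega)) (pb (show Par W (i3 + 1) (n + i3 - i2 - l2 - 1) (2 * i2 + l2 - k - l - i3) from fun t h1 h2 => (cE (sh al (-1) t (t + (-n)) (by omega)) (cE (pb D2 al (-1) (t + (-n)) (t + (i2 + l2 - i3 + 1)) (by omega)) (pb c al 0 (t + (i2 + l2 - i3 + 1)) (t + (2 * i2 + l2 - k - l - i3)) (by omega))))) al 0 (t + (k - i)) (t + (2 * k + l + i3 - i - 2 * i2 - l2)) (by omega))))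
          · by_cases z36 : (2 * k + l + i3 + 1) ≤ (Q + 2 * i2 + l2)
            · have kk480 : (i + 2 * i2 + l2 + 1) ≤ (2 * k + l + i3) := by clear * - z28; omega
              have kk481 : (2 * k + l + i3 + 1) ≤ (n + i + 2 * i2 + l2) := by clear * - b2 b3 y21 z27 z28 z36; omega
              have kk482 : (2 * k + l + i3 + 1) ≤ (Q + 2 * i2 + l2) := by clear * - z36; omega
              have kk483 : (Q) ≤ (i + l + 1) := by clear * - b5 y21 y7 z27 z30 z31; omega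
              have kk484 : (k + l) ≤ (i2 + l2) := by clear * - b3 z27 z36; omega
              have kk485 : (n) ≤ (k + l + l2 + 2) := by clear * - b6 y21; omega
              have kk486 : (2 * i2 + l2) ≤ (2 * k + l) := by clear * - y21 z28; omega
              have kk487 : (2 * k + 2 * l + 2) ≤ (n + i2) := by clear * - b1 y17; omega
              clear * - al b c D2 kk480 kk481 kk482 kk483 kk484 kk485 kk486 kk487
              exact al.ubQ (2 * k + l + i3 - i - 2 * i2 - l2) (by omega) (by omega) fun t h1 h2 => (cE (sh al 1 t (t + (n)) (by omega)) (cE (qf b al 1 (t + (n)) (t + (k - i)) (by omega)) (pb (show Par W (i3 + 1) (n + i3 - i2 - l2 - 1) (2 * i2 + l2 - k - l - i3) from fun t h1 h2 => (cE (sh al (-1) t (t + (-n)) (by omega)) (cE (pb D2 al (-1) (t + (-n)) (t + (i2 + l2 - i3 + 1)) (by omega)) (pb c al 0 (t + (i2 + l2 - i3 + 1)) (t + (2 * i2 + l2 - k - l - i3)) (by omega))))) al 0 (t + (k - i)) (t + (2 * k + l +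 i3 - i - 2 * i2 - l2)) (by omega))))
            · have kk488 : (n + j + l + 2 * i3) ≤ (3 * i2 + 2 * l2) := by clear * - b1 b2 b5 z31; omega
              have kk489 : (3 * i2 + 2 * l2 + 2) ≤ (2 * n + j + l + 2 * i3) := by clear * - b1 b2 b5 z27 z29 z31 z36; linarith
              have kk490 : (Q + 3 * i2 + 2 * l2 + 1) ≤ (n + k + l + 2 * i3) := by clear * - y17 z36; omega
              have kk491 : (k + l) ≤ (i2 + l2) := by clear * - b1 b5 z29 z31; omega
              have kk492 : (n) ≤ (k + l + l2 + 2) := by clear * - b6 y21; omega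
              have kk493 : (k + i2 + l2 + 2) ≤ (n + Q + j) := by clear * - b1 b2 b5 z27 z29 z31; omega
              have kk494 : (0) ≤ (j) := by clear * - b6 y21 y7 z27 z30; omega
              have kk495 : (3 * i2 + 2 * l2 + 2) ≤ (n + Q + j + l + i3) := by clear * - y21 z30; omega
              have kk496 : (k + l + i3) ≤ (2 * i2 + l2) := by clear * - b1 b2 b5 z29 z31; omega
              clear * - al a2 c D2 kk488 kk489 kk490 kk491 kk492 kk493 kk494 kk495 kk496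
              exact al.ubQ (3 * i2 + 2 * l2 - n - j - l - 2 * i3 + 1) (by omega) (by omega) fun t h1 h2 => (cE (sh al 1 t (t + (n)) (by omega)) (cE (qf (show Par W (i3 + 1) (n + i3 - i2 - l2 - 1) (2 * i2 + l2 - k - l - i3) from fun t h1 h2 => (cE (sh al (-1) t (t + (-n)) (by omega)) (cE (pb D2 al (-1) (t + (-n)) (t + (i2 + l2 - i3 + 1)) (by omega)) (pb c al 0 (t + (i2 + l2 - i3 + 1)) (t + (2 * i2 + l2 - k - l - i3)) (by omega))))) al 1 (t + (n)) (t + (2 * i2 + l2 - k - l - i3)) (by omega)) (pb (show Par W (Q) (k - j) (n + j + i3 - k - i2 - l2 - 1) from fun t h1 h2 => (cE (sh al (-1) t (t + (-n)) (by omega)) (cE (pb a2 al (-1) (t + (-n)) (t + (j - k)) (by omega)) (qf D2 al (-1) (t + (j - k)) (t + (n + j + i3 - k - i2 - l2 - 1)) (by omega))))) al 0 (t + (2 * i2 + l2 - k - l - i3)) (t + (3 * i2 + 2 * l2 - n - j - l - 2 * i3 + 1)) (by omega))))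
      · have kk497 : (2 * i2 + l2) ≤ (2 * k + 2 * l) := by clear * - b0 b2 b6 y15 y17 y21 z28; linarith
        have kk498 : (2 * k + 2 * l + 3) ≤ (n + i2) := by clear * - b1 y17; omega
        have kk499 : (3 * i2 + l2) ≤ (2 * k + 2 * l + i3) := by clear * - b6 y17 y21 z28; omega
        have kk500 : (k + i2 + l2 + 2) ≤ (n + j + i3) := by clear * - y15; omega
        have kk501 : (j + k + 2 * l + i3 + 1) ≤ (2 * i2 + l2) := by clear * - y17 z29; omega
        have kk502 : (Q) ≤ (i2) := by clear * - y7; omega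
        have kk503 : (k + l) ≤ (i2 + l2) := by clear * - y20; omega
        have kk504 : (n) ≤ (k + l + l2 + 2) := by clear * - b6 y21; omega
        have kk505 : (k + i2 + l2 + 2) ≤ (n + Q + j) := by clear * - b2 b5 y14 y15 z27; omega
        have kk506 : (0) ≤ (j) := by clear * - y1 y13 y21; omega
        have kk507 : (2 * i2 + l2) ≤ (2 * k + 2 * l + 1) := by clear * - b0 b2 b6 y15 y17 y21 z28; linarith
        have kk508 : (n + i2) ≤ (2 * k + 2 * l + l2 + 3) := by clear * - b0 b2 b5 b6 y15 y21 z28 z29; linarith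
        have r509 : (2 * k + 2 * l + i3 - 3 * i2 - l2 + 1) % 2 = 0 := by clear * - ev n1p n2p n3p; omega
        have r510 : (n + j + i3 - k - i2 - l2 - 1) % 2 = 0 := by clear * - ev n1p n2p n3p; omega
        clear * - al a2 c D2 n2 kk497 kk498 kk499 kk500 kk501 kk502 kk503 kk504 kk505 kk506 kk507 kk508 r509 r510
        exact n2.f1 (rEE (sh al (-1) (i2) (i2 - n) (by omega)) (cE (pb (show Par W (i3 + 1) (n + i3 - i2 - l2 - 1) (2 * i2 + l2 - k - l - i3) from fun t h1 h2 => (cE (sh al (-1) t (t + (-n)) (by omega)) (cE (pb D2 al (-1) (t + (-n)) (t + (i2 + l2 - i3 + 1)) (by omega)) (pb c al 0 (t + (i2 + l2 - i3 + 1)) (t + (2 * i2 + l2 - k - l - i3)) (by omega))))) al 0 (k + l + 1) (2 * k + 2 * l + i3 - 2 * i2 - l2 + 1) (by omega)) (sh al (-1) (2 * k + 2 * l + i3 - 2 * i2 - l2 + 1) (2 * k + 2 * l + i3 - n - 2 * i2 - l2 + 1) (by omega))) (rotL (2 * k + 2 * l + i3 - 3 * i2 - l2 + 1) (n + j + i3 - k - i2 - l2 - 1) (i2 - n)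 (2 * k + 2 * l + i3 - n - 2 * i2 - l2 + 1) (by omega) (fun t h1 h2 => (cE (cE (qf c al (-1) t (t + (n + k + l - i2 + 1)) (by omega)) (pb (show Par W (i3 + 1) (n + i3 - i2 - l2 - 1) (2 * i2 + l2 - k - l - i3) from fun t h1 h2 => (cE (sh al (-1) t (t + (-n)) (by omega)) (cE (pb D2 al (-1) (t + (-n)) (t + (i2 + l2 - i3 + 1)) (by omega)) (pb c al 0 (t + (i2 + l2 - i3 + 1)) (t + (2 * i2 + l2 - k - l - i3)) (by omega))))) al 0 (t + (n + k + l - i2 + 1)) (t + (n + 2 * k + 2 * l + i3 - 3 * i2 - l2 + 1)) (by omega))) (sh al (-1) (t + (n + 2 * k + 2 * l + i3 - 3 * i2 - l2 + 1)) (t + (2 * k + 2 * l + i3 - 3 * i2 - l2 + 1)) (by omega)))) (fun t h1 h2 => (cE (qf (show Par W (Q) (k - j) (n + j + i3 - k - i2 - l2 - 1) from fun t h1 h2 => (cE (sh al (-1) t (t + (-n)) (by omega)) (cE (pb a2 al (-1) (t + (-n)) (t + (j - k)) (by omega)) (qf D2 al (-1) (t + (j - k)) (t + (n + j + i3 - k - i2 - l2 - 1)) (by omega))))) al (-1) t (t + (2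 * n + j + i3 - k - i2 - l2 - 1)) (by omega)) (sh al (-1) (t + (2 * n + j + i3 - k - i2 - l2 - 1)) (t + (n + j + i3 - k - i2 - l2 - 1)) (by omega))))))

theorem t3c_10 {W : ℤ → G} {n Q i j k l i2 l2 i3 : ℤ} (al : AL W n Q)
    (hy : (0) ≤ (i) ∧ (i) ≤ (j) ∧ (j + 1) ≤ (Q) ∧ (Q) ≤ (k) ∧ (k + 1) ≤ (n) ∧ (Q) ≤ (i + l + 1) ∧ (k + l + 2) ≤ (n) ∧ (Q) ≤ (i2) ∧ (i2) ≤ (i + l + 1) ∧ (Q) ≤ (i2 + l2 + 1) ∧ (i2 + l2 + 2) ≤ (n) ∧ (n) ≤ (k + l + l2 + 2) ∧ (k + l + l2 + 3) ≤ (n + Q) ∧ (0) ≤ (i3) ∧ (n + i3) ≤ (k + l + l2 + 2) ∧ (k + i2 + l2 + 2) ≤ (n + j + i3) ∧ (j + i3 + 1) ≤ (k) ∧ (k + i2 + l2 + 2) ≤ (n + i3) ∧ (i + 2 * i2 + 1) ≤ (2 * Q + k) ∧ (i + l + 1) ≤ (i2 + l2) ∧ (k + l) ≤ (i2 + l2) ∧ (i3 + 1) ≤ (i))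
    (a1 : Par W (0) (j) (k - j))
    (a2 : Par W (Q + j - k) (j) (k - j))
    (s1 : Ant W (0) (i) (i + j))
    (s2 : Ant W (j + 1) (Q) (i + j))
    (b : Par W (i + 1) (i + l + 1) (k - i))
    (tt : Ant W (Q) (i2) (i + l + i2 + 1))
    (c : Par W (i2 + 1) (i2 + l2 + 1) (k + l - i2 + 1))
    (u1 : Ant W (0) (i3) (k + l + l2 + i3 - n + 2))
    (u2 : Ant W (k + l + l2 - n + 3) (Q) (k + l + l2 + i3 - n + 2))
    (D1 : Par W (i3 + 1) (Q) (i2 + l2 - i3 + 1))
    (D2 : Par W (i2 + l2 + 2) (n) (i3 - i2 - l2 - 1))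
    {L : ℤ} (mx : ∀ a b g, 0 < g → g < n → Par W a b g → b - a ≤ L)
    (hL : L ≤ (n - j - 3) ∧ L ≤ (n + Q - k - 3) ∧ L ≤ (n - l - 3) ∧ L ≤ (n + i - k - 2) ∧ L ≤ (n - l2 - 3) ∧ L ≤ (n + i3 - Q - 2) ∧ L ≤ (i2 + l2 - 1) ∧ L ≤ (n + i2 - k - l - 3) ∧ L ≤ (Q + i2 + l2 - l - i3 - 3))
    (bd0 : Bd W n L (j) (i) (k))
    (bd2 : Bd W n L (k + l + l2 - n + 2) (i3) (i2 + l2 + 1))
    (n1 : Nd W (j) (i) (k))
    (n2 : Nd W (i + l + 1) (i2) (k + l + 1))
    (n3 : Nd W (k + l + l2 - n + 2) (i3) (i2 + l2 + 1))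
    (b0 : (2 * i + j + 1) ≤ (k))
    (b1 : (k + 2 * l + i3 + 2) ≤ (2 * i2 + l2))
    (b2 : (2 * l2 + 3) ≤ (n))
    (b3 : (2 * Q + i2) ≤ (k + l + 2 * i3 + 1))
    (b4 : (2 * i + l + i2 + 2) ≤ (2 * Q + k))
    (b5 : (j + i2) ≤ (l + 2 * i3 + 2))
    (b6 : (n + i) ≤ (k + l + l2 + i3 + 2))
    (b7 : (2 * k + l + i3 + 1) ≤ (i + 2 * i2 + l2)) : False := by
  have ev := al.ev
  obtain ⟨y0, y1, y2, y3, y4, y5, y6, y7, y8, y9, y10, y11, y12, y13, y14, y15, y16, y17, y18, y19, y20, y21⟩ := id hy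
  have n1p := And.intro n1.p1 n1.p2
  have n2p := And.intro n2.p1 n2.p2
  have n3p := And.intro n3.p1 n3.p2
  by_cases z16 : (l2 + 3 * i3 + 2) ≤ (2 * Q + i + l)
  · by_cases z17 : (i + l + 2 * i2 + 3 * l2 + i3 + 6) ≤ (2 * n + 2 * Q)
    · by_cases v6 : (i + l + i2 + l2 + 2) ≤ (n + i3)
      · have kk143 : (2 * k + l + i3 + 1) ≤ (i + 2 * i2 + l2) := by clear * - b7; omega
        have kk144 : (i + l + 2 * i2 + 3 * l2 + 6) ≤ (2 * n + 2 * Q + i3) := by clear * - y13 z17; omega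
        have kk145 : (i + 2 * k + l + i3 + 2) ≤ (2 * Q + 2 * i2 + l2) := by clear * - b6 b7 z17; omega
        have kk146 : (l2 + 3 * i3 + 2) ≤ (2 * Q + i + l) := by clear * - z16; omega
        have kk147 : (n + i3) ≤ (k + l + l2 + 2) := by clear * - y14; omega
        have kk148 : (i2) ≤ (k) := by clear * - b6 v6 y21; omega
        have kk149 : (i3) ≤ (i) := by clear * - y21; omega
        have kk150 : (i + l + i2 + l2 + 2) ≤ (n + i3) := by clear * - v6; omega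
        have kk151 : (k + l) ≤ (i2 + l2) := by clear * - b3 b4 b7; omega
        have kk152 : (i + k + l) ≤ (i2 + l2 + i3) := by clear * - b6 b7 v6; omega
        have kk153 : (Q) ≤ (i + l + 1) := by clear * - b3 b7 z16; omega
        have r154 : (k + l + i2 + 2 * l2 - 2 * n + 3) % 2 = 0 := by clear * - ev n1p n2p n3p; omega
        have r155 : (i + 2 * i2 + l2 - 2 * k - l - i3) % 2 = 0 := by clear * - ev n1p n2p n3p; omega
        clear * - al b c u2 D1 D2 kk143 kk144 kk145 kk146 kk147 kk148 kk149 kk150 kk151 kk152 kk153 r154 r155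
        exact midP al (i + 2 * i2 + l2 - 2 * k - l - i3) (k + l + i2 + 2 * l2 - 2 * n + 3) (k + l + l2 + i3 - n - Q + 3) (2 * k + l - n - i2 + 2) (i + l + i2 + l2 - n - i3 + 2) (by omega) (fun t h1 h2 => (cE (cE (ab u2 al 0 t ((k + l + l2 + i3 - n + 2) - t) (by omega)) (qf D1 al 0 ((k + l + l2 + i3 - n + 2) - t) ((k + l + i2 + 2 * l2 - n + 3) - t) (by omega))) (sh al (-1) ((k + l + i2 + 2 * l2 - n + 3) - t) ((k + l + i2 + 2 * l2 - 2 * n + 3) - t) (by omega)))) (fun t h1 h2 => (cE (cE (cE (pb c al (-1) t (t + (n + i2 - k - l - 1)) (by omega)) (pb b al 0 (t + (n + i2 - k - l - 1)) (t + (n + i + i2 - 2 * k - l - 1)) (by omega))) (pb D2 al 0 (t + (n + i + i2 - 2 * k - l - 1)) (t + (n + i + 2 * i2 + l2 - 2 * k - l - i3)) (by omega))) (sh al (-1) (t + (n + i + 2 * i2 + l2 - 2 * k - l - i3)) (t + (i + 2 * i2 + l2 - 2 * k - l - i3)) (by omega))))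
      · have kk156 : (2 * k + l + i3 + 1) ≤ (i + 2 * i2 + l2) := by clear * - b7; omega
        have kk157 : (i + l + 2 * i2 + 3 * l2 + 6) ≤ (2 * n + 2 * Q + i3) := by clear * - y13 z17; omega
        have kk158 : (i + 2 * k + l + i3 + 2) ≤ (2 * Q + 2 * i2 + l2) := by clear * - b6 b7 z17; omega
        have kk159 : (i + l + 2 * i2 + 3 * l2 + i3 + 6) ≤ (2 * n + 2 * Q) := by clear * - z17; omega
        have kk160 : (n + i3) ≤ (k + l + l2 + 2) := by clear * - y14; omega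
        have kk161 : (i2) ≤ (k) := by clear * - b3 b4 y21; omega
        have kk162 : (i3) ≤ (i) := by clear * - y21; omega
        have kk163 : (n + k + i3) ≤ (i + 2 * i2 + 2 * l2 + 2) := by clear * - b3 b4 b7 v6; omega
        have kk164 : (n + i3) ≤ (i + l + i2 + l2 + 2) := by clear * - v6; omega
        have kk165 : (Q + i2 + l2 + 1) ≤ (n + i3) := by clear * - b3 b7 z17; omega
        have kk166 : (Q + k) ≤ (i2 + l2 + i3 + 1) := by clear * - b3 b6 b7 z17; omega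
        have r167 : (k + l + i2 + 2 * l2 - 2 * n + 3) % 2 = 0 := by clear * - ev n1p n2p n3p; omega
        have r168 : (i + 2 * i2 + l2 - 2 * k - l - i3) % 2 = 0 := by clear * - ev n1p n2p n3p; omega
        clear * - al b c u2 D1 D2 kk156 kk157 kk158 kk159 kk160 kk161 kk162 kk163 kk164 kk165 kk166 r167 r168
        exact midP al (i + 2 * i2 + l2 - 2 * k - l - i3) (k + l + i2 + 2 * l2 - 2 * n + 3) (k + l + l2 + i3 - n - Q + 3) (2 * k + l - n - i2 + 2) (0) (by omega) (fun t h1 h2 => (cE (cE (ab u2 al 0 t ((k + l + l2 + i3 - n + 2) - t) (by omega)) (qf D1 al 0 ((k + l + l2 + i3 - n + 2) - t) ((k + l + i2 + 2 * l2 - n + 3) - t) (by omega))) (sh al (-1) ((k + l + i2 + 2 * l2 - n + 3) - t) ((k + l + i2 + 2 * l2 - 2 * n + 3) - t) (by omega)))) (fun t h1 h2 => (cE (cE (cE (pb c al (-1) t (t + (n + i2 - k - l - 1)) (by omega)) (pb b al 0 (t + (n + i2 - k - l - 1)) (t + (n + i + i2 - 2 * k - l - 1)) (by omega))) (pb D2 al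 0 (t + (n + i + i2 - 2 * k - l - 1)) (t + (n + i + 2 * i2 + l2 - 2 * k - l - i3)) (by omega))) (sh al (-1) (t + (n + i + 2 * i2 + l2 - 2 * k - l - i3)) (t + (i + 2 * i2 + l2 - 2 * k - l - i3)) (by omega))))
    · by_cases z18 : (2 * i2 + l2) ≤ (i + 2 * k + l + i3)
      · by_cases v7 : (2 * k + l) ≤ (2 * i2 + l2)
        · have kk169 : (2 * k + l + i3 + 1) ≤ (i + 2 * i2 + l2) := by clear * - b7; omega
          have kk170 : (2 * i2 + l2) ≤ (i + 2 * k + l + i3) := by clear * - z18; omega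
          have kk171 : (2 * j + 2 * i2 + l2 + i3 + 2) ≤ (i + 4 * k + l) := by clear * - b0 v7 y21 z18; omega
          have kk172 : (2 * j + 2 * i2 + l2) ≤ (i + 2 * k + 3 * l + i3) := by clear * - b0 b3 b5 b7 z16 z18; omega
          have kk173 : (i) ≤ (j) := by clear * - y1; omega
          have kk174 : (k + l) ≤ (i2 + l2) := by clear * - b3 b4 b7; omega
          have kk175 : (2 * k + l) ≤ (2 * i2 + l2) := by clear * - v7; omega
          have kk176 : (2 * k + 2 * l + 2) ≤ (n + i2) := by clear * - b1 y17; omega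
          have kk177 : (i3) ≤ (j) := by clear * - y1 y21; omega
          have kk178 : (k) ≤ (j + l + 1) := by clear * - y1 y17 z16 z17; omega
          have r179 : (i + k) % 2 = 0 := by clear * - ev n1p n2p n3p; omega
          have r180 : (i + 2 * i2 + l2 - 2 * k - l - i3) % 2 = 0 := by clear * - ev n1p n2p n3p; omega
          clear * - al a1 s1 b c D2 kk169 kk170 kk171 kk172 kk173 kk174 kk175 kk176 kk177 kk178 r179 r180
          exact midP al (i + 2 * i2 + l2 - 2 * k - l - i3) (i + k) (j + 1) (i3 + 1) (i + l + 1) (by omega) (fun t h1 h2 => (cE (ab s1 al 0 t ((i + j) - t) (by omega)) (qf a1 al 0 ((i + j) - t) ((i + k) - t) (by omega)))) (fun t h1 h2 => (cE (cE (pb D2 al 0 t (t + (i2 + l2 - i3 + 1)) (by omega)) (pb c al 0 (t + (i2 + l2 - i3 + 1)) (t + (2 * i2 + l2 - k - l - i3)) (by omega))) (pb b al 0 (t + (2 * i2 + l2 - k - l - i3)) (t + (i + 2 * i2 + l2 - 2 * k - l - i3)) (by omega))))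
        · have kk181 : (2 * k + l + i3 + 1) ≤ (i + 2 * i2 + l2) := by clear * - b7; omega
          have kk182 : (2 * i2 + l2) ≤ (i + 2 * k + l + i3) := by clear * - z18; omega
          have kk183 : (2 * j + l + i3 + 2) ≤ (i + 2 * i2 + l2) := by clear * - b0 b7 z18; omega
          have kk184 : (2 * j + 2 * i2 + l2) ≤ (i + 2 * k + 3 * l + i3) := by clear * - b0 b3 b5 b7 z16 z18; omega
          have kk185 : (i) ≤ (j) := by clear * - y1; omega
          have kk186 : (2 * i2 + l2) ≤ (2 * k + l) := by clear * - v7; omega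
          have kk187 : (i2) ≤ (k) := by clear * - b3 b4 b7 v7; omega
          have kk188 : (k + l) ≤ (i2 + l2) := by clear * - b3 b4 b7; omega
          have kk189 : (2 * k + 2 * l + 2) ≤ (n + i2) := by clear * - b1 y17; omega
          have kk190 : (k) ≤ (j + l + 1) := by clear * - y1 y17 z16 z17; omega
          have kk191 : (2 * k + l + i3) ≤ (j + 2 * i2 + l2) := by clear * - b7 y1; omega
          have r192 : (i + k) % 2 = 0 := by clear * - ev n1p n2p n3p; omega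
          have r193 : (i + 2 * i2 + l2 - 2 * k - l - i3) % 2 = 0 := by clear * - ev n1p n2p n3p; omega
          clear * - al a1 s1 b c D2 kk181 kk182 kk183 kk184 kk185 kk186 kk187 kk188 kk189 kk190 kk191 r192 r193
          exact midP al (i + 2 * i2 + l2 - 2 * k - l - i3) (i + k) (j + 1) (2 * k + l + i3 - 2 * i2 - l2 + 1) (i + l + 1) (by omega) (fun t h1 h2 => (cE (ab s1 al 0 t ((i + j) - t) (by omega)) (qf a1 al 0 ((i + j) - t) ((i + k) - t) (by omega)))) (fun t h1 h2 => (cE (cE (pb D2 al 0 t (t + (i2 + l2 - i3 + 1)) (by omega)) (pb c al 0 (t + (i2 + l2 - i3 + 1)) (t + (2 * i2 + l2 - k - l - i3)) (by omega))) (pb b al 0 (t + (2 * i2 + l2 - k - l - i3)) (t + (i + 2 * i2 + l2 - 2 * k - l - i3)) (by omega))))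
      · by_cases z19 : (k) ≤ (i + 2 * j)
        · by_cases z20 : (2 * j + 1) ≤ (i + k)
          · have kk194 : (k) ≤ (i + 2 * j) := by clear * - z19; omega
            have kk195 : (2 * j + 1) ≤ (i + k) := by clear * - z20; omega
            have kk196 : (i) ≤ (j) := by clear * - b0 z19; omega
            have r197 : (i + k) % 2 = 0 := by clear * - ev n1p n2p n3p; omega
            clear * - al a1 s1 kk194 kk195 kk196 r197
            obtain ⟨t, ht⟩ : ∃ t, 2 * t = (i + k) := ⟨(i + k) / 2, by omega⟩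
            exact al.ninv t (cI (pb a1 al 0 t (t + (j - k)) (by omega)) (qa s1 al 0 (t + (j - k)) t (by omega)))
          · by_cases v8 : (n) ≤ (j + l + l2 + 3)
            · have kk198 : (n) ≤ (j + l + l2 + i3 + 2) := by clear * - b2 b4 b5 v8 z17 z19; omega
              have kk199 : (j + l + l2 + 3) ≤ (n + i3) := by clear * - b1 b2 b3 b4 b5 y21; omega
              have kk200 : (l + l2 + i3 + 3) ≤ (n) := by clear * - b2 b3 b4 b7 y21 z18; omega
              have kk201 : (n) ≤ (j + l + l2 + 3) := by clear * - v8; omega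
              have r202 : (j + l + l2 + i3 - 3 * n + 2) % 2 = 0 := by clear * - ev n1p n2p n3p; omega
              clear * - al a1 u1 kk198 kk199 kk200 kk201 r202
              obtain ⟨t, ht⟩ : ∃ t, 2 * t = (j + l + l2 + i3 - 3 * n + 2) := ⟨(j + l + l2 + i3 - 3 * n + 2) / 2, by omega⟩
              exact al.ninv t (cE (cE (qa u1 al (-1) t ((k + l + l2 + i3 - 2 * n + 2) - t) (by omega)) (pb a1 al 0 ((k + l + l2 + i3 - 2 * n + 2) - t) ((j + l + l2 + i3 - 2 * n + 2) - t) (by omega))) (sh al (-1) ((j + l + l2 + i3 - 2 * n + 2) - t) t (by omega)))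
            · have kk203 : (n) ≤ (j + l + l2 + i3 + 2) := by clear * - b2 b4 b5 y21 z17 z20; omega
              have kk204 : (n) ≤ (j + l + l2 + i3 + 3) := by clear * - b2 b4 b5 y21 z17 z20; omega
              have kk205 : (l + l2 + i3 + 3) ≤ (n) := by clear * - b6 v8 y21 z20; omega
              have kk206 : (j + l + l2 + 3) ≤ (n) := by clear * - v8; omega
              have r207 : (j + l + l2 + i3 - 3 * n + 2) % 2 = 0 := by clear * - ev n1p n2p n3p; omega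
              clear * - al a1 u1 kk203 kk204 kk205 kk206 r207
              obtain ⟨t, ht⟩ : ∃ t, 2 * t = (j + l + l2 + i3 - 3 * n + 2) := ⟨(j + l + l2 + i3 - 3 * n + 2) / 2, by omega⟩
              exact al.ninv t (cE (cE (qa u1 al (-1) t ((k + l + l2 + i3 - 2 * n + 2) - t) (by omega)) (pb a1 al 0 ((k + l + l2 + i3 - 2 * n + 2) - t) ((j + l + l2 + i3 - 2 * n + 2) - t) (by omega))) (sh al (-1) ((j + l + l2 + i3 - 2 * n + 2) - t) t (by omega)))
        · by_cases z21 : (k + l + l2 + i3 + 3) ≤ (n + i + j)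
          · by_cases z22 : (4 * k + 3 * l + l2 + 5) ≤ (2 * n + i + 2 * i2 + i3)
            · by_cases v9 : (i2 + l2 + i3) ≤ (Q + k + l)
              · have kk208 : (i + l + 2) ≤ (l2 + i3) := by clear * - b3 b4 b7; omega
                have kk209 : (4 * k + 3 * l + l2 + 5) ≤ (2 * n + i + 2 * i2 + i3) := by clear * - z22; omega
                have kk210 : (i2) ≤ (k + l + 1) := by clear * - b3 b4 b7 v9; omega
                have kk211 : (i2 + l2 + i3) ≤ (i + k + 2 * l + 1) := by clear * - b3 z16; omega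
                have kk212 : (i2 + l2 + i3) ≤ (Q + k + l) := by clear * - v9; omega
                have kk213 : (i3) ≤ (i) := by clear * - y21; omega
                have kk214 : (n + i) ≤ (k + l + l2 + 2) := by clear * - b3 b4 v9 z17 z18; omega
                have r215 : (2 * n + 2 * i2 + l2 + i3 - i - l) % 2 = 0 := by clear * - ev n1p n2p n3p; omega
                clear * - al b c u2 kk208 kk209 kk210 kk211 kk212 kk213 kk214 r215
                obtain ⟨t, ht⟩ : ∃ t, 2 * t = (2 * n + 2 * i2 + l2 + i3 - i - l) := ⟨(2 * n + 2 * i2 + l2 + i3 - i - l) / 2, by omega⟩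
                exact al.ninv t (cE (cE (cI (cE (qf c al 1 t (t + (k + l - n - i2 + 1)) (by omega)) (qf c al 0 (t + (k + l - n - i2 + 1)) (t + (2 * k + 2 * l - n - 2 * i2 + 2)) (by omega))) (ab u2 al 1 (t + (2 * k + 2 * l - n - 2 * i2 + 2)) ((n + 2 * i2 + l2 + i3 - k - l) - t) (by omega))) (qf b al 0 ((n + 2 * i2 + l2 + i3 - k - l) - t) ((n + 2 * i2 + l2 + i3 - i - l) - t) (by omega))) (sh al 1 ((n + 2 * i2 + l2 + i3 - i - l) - t) t (by omega)))
              · by_cases v10 : (n + i) ≤ (k + l + l2 + 2)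
                · have kk216 : (i + 2 * i2 + l2 + i3 + 2) ≤ (2 * Q + 2 * k + l) := by clear * - b3 b4 z16; omega
                  have kk217 : (4 * k + 3 * l + l2 + 5) ≤ (2 * n + i + 2 * i2 + i3) := by clear * - z22; omega
                  have kk218 : (Q + k + l) ≤ (i2 + l2 + i3) := by clear * - v9; omega
                  have kk219 : (i + l) ≤ (l2 + i3) := by clear * - b4 b5 b6 v10 v9 z17 z19 z21; linarith
                  have kk220 : (Q) ≤ (i + l + 1) := by clear * - b3 v9 z16; omega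
                  have kk221 : (i2) ≤ (k + l + 1) := by clear * - b3 b4 v9 z16; omega
                  have kk222 : (i3) ≤ (i) := by clear * - y21; omega
                  have kk223 : (n + i) ≤ (k + l + l2 + 2) := by clear * - v10; omega
                  have r224 : (2 * n + 2 * i2 + l2 + i3 - i - l) % 2 = 0 := by clear * - ev n1p n2p n3p; omega
                  clear * - al b c u2 kk216 kk217 kk218 kk219 kk220 kk221 kk222 kk223 r224
                  obtain ⟨t, ht⟩ : ∃ t, 2 * t = (2 * n + 2 * i2 + l2 + i3 - i - l) := ⟨(2 * n + 2 * i2 + l2 + i3 - i - l) / 2, by omega⟩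
                  exact al.ninv t (cE (cE (cI (cE (qf c al 1 t (t + (k + l - n - i2 + 1)) (by omega)) (qf c al 0 (t + (k + l - n - i2 + 1)) (t + (2 * k + 2 * l - n - 2 * i2 + 2)) (by omega))) (ab u2 al 1 (t + (2 * k + 2 * l - n - 2 * i2 + 2)) ((n + 2 * i2 + l2 + i3 - k - l) - t) (by omega))) (qf b al 0 ((n + 2 * i2 + l2 + i3 - k - l) - t) ((n + 2 * i2 + l2 + i3 - i - l) - t) (by omega))) (sh al 1 ((n + 2 * i2 + l2 + i3 - i - l) - t) t (by omega)))
                · have kk225 : (i + 2 * i2 + l2 + i3 + 2) ≤ (2 * Q + 2 * k + l) := by clear * - b3 b4 z16; omega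
                  have kk226 : (i + 2 * k + l + 1) ≤ (2 * i2 + l2 + i3) := by clear * - b6 v10 z18; omega
                  have kk227 : (Q + k + l) ≤ (i2 + l2 + i3) := by clear * - v9; omega
                  have kk228 : (i + l) ≤ (l2 + i3) := by clear * - b3 b4 v9 z16; omega
                  have kk229 : (Q) ≤ (i + l + 1) := by clear * - b3 v9 z16; omega
                  have kk230 : (i2) ≤ (k + l + 1) := by clear * - b3 b4 v9 z16; omega
                  have kk231 : (i3) ≤ (i) := by clear * - y21; omega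
                  have kk232 : (k + l + l2 + 2) ≤ (n + i) := by clear * - v10; omega
                  have r233 : (2 * n + 2 * i2 + l2 + i3 - i - l) % 2 = 0 := by clear * - ev n1p n2p n3p; omega
                  clear * - al b c u2 kk225 kk226 kk227 kk228 kk229 kk230 kk231 kk232 r233
                  obtain ⟨t, ht⟩ : ∃ t, 2 * t = (2 * n + 2 * i2 + l2 + i3 - i - l) := ⟨(2 * n + 2 * i2 + l2 + i3 - i - l) / 2, by omega⟩
                  exact al.ninv t (cE (cE (cI (cE (qf c al 1 t (t + (k + l - n - i2 + 1)) (by omega)) (qf c al 0 (t + (k + l - n - i2 + 1)) (t + (2 * k + 2 * l - n - 2 * i2 + 2)) (by omega))) (ab u2 al 1 (t + (2 * k + 2 * l - n - 2 * i2 + 2)) ((n + 2 * i2 + l2 + i3 - k - l) - t) (by omega))) (qf b al 0 ((n + 2 * i2 + l2 + i3 - k - l) - t) ((n + 2 * i2 + l2 + i3 - i - l) - t) (by omega))) (sh al 1 ((n + 2 * i2 + l2 + i3 - i - l) - t) t (by omega)))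
            · have kk234 : (k + l + i3 + 1) ≤ (2 * i2 + l2) := by clear * - b6 b7 z19 z21; omega
              have kk235 : (i2 + l2 + 2) ≤ (n) := by clear * - b5 b6 z18 z19 z21 z22; omega
              have kk236 : (i3 + 1) ≤ (k) := by clear * - b3 b4 b6 z16 z17 z19 z21; linarith
              have kk237 : (2 * k + l + 2) ≤ (n + i2) := by clear * - b5 b6 b7 z18 z19 z21; omega
              have kk238 : (i3 + 1) ≤ (i) := by clear * - y21; omega
              have kk239 : (i + k + l + 2) ≤ (n + i2) := by clear * - b5 b6 b7 z18 z19 z21; omega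
              have kk240 : (Q + i2 + l2) ≤ (k + 2 * l + i3 + 2) := by clear * - b2 y17 z17 z22; omega
              have kk241 : (k + l) ≤ (i2 + l2) := by clear * - b4 b5 b6 b7 z17 z18 z19 z21; linarith
              have kk242 : (n) ≤ (k + l + l2 + 2) := by clear * - b3 b4 z16 z17; omega
              have kk243 : (i3) ≤ (k) := by clear * - b3 b4 b6 z16 z17 z19 z21; linarith
              have kk244 : (i3) ≤ (i) := by clear * - y21; omega
              have kk245 : (2 * k + 2 * l + 2) ≤ (n + i2) := by clear * - b1 y17; omega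
              have kk246 : (i + k + 2 * l + 2) ≤ (n + i2) := by clear * - b2 b3 b4 b7 z18 z19 z21 z22; linarith
              have kk247 : (i + k + 2 * l + 2) ≤ (n + i3) := by clear * - b1 b3 b4 y17; omega
              have kk248 : (i3) ≤ (i + l + 1) := by clear * - b5 b6 z16 z17 z18 z19 z21 z22; linarith
              have kk249 : (i3 + 1) ≤ (Q) := by clear * - b4 b5 b6 z16 z17 z18 z19 z21 z22; linarith
              have kk250 : (i + k + 2 * l + 3) ≤ (n + Q) := by clear * - b4 b5 b6 z17 z18 z19 z21; linarith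
              have r251 : (i - k) % 2 = 0 := by clear * - ev n1p n2p n3p; omega
              have r252 : (2 * i2 + l2 - k - l - i3) % 2 = 0 := by clear * - ev n1p n2p n3p; omega
              have r253 : (2 * n + i + l + i2 + 1) % 2 = 0 := by clear * - ev n1p n2p n3p; omega
              clear * - al b tt c D2 n1 kk234 kk235 kk236 kk237 kk238 kk239 kk240 kk241 kk242 kk243 kk244 kk245 kk246 kk247 kk248 kk249 kk250 r251 r252 r253
              exact ivt al.ninv (n + i3 + 1) (2 * n + i3 - i2 - l2 - 1) (2 * i2 + l2 - k - l - i3) (n + k + 1) (n + k + l + 1) (i - k) (n + k) (n + i) 0 (fun t h1 h2 => (cE (cE (pb D2 al 1 t (t + (i2 + l2 - n - i3 + 1)) (by omega)) (pb c al 0 (t + (i2 + l2 - n - i3 + 1)) (t + (2 * i2 + l2 - n - k - l - i3)) (by omega))) (sh al 1 (t + (2 * i2 + l2 - n - k - l - i3)) (t + (2 * i2 + l2 - k - l - i3)) (by omega)))) (fun t h1 h2 => (cE (sh al (-2) t (t + (-2 * n)) (by omega)) (cE (pb b al (-1) (t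 + (-2 * n)) (t + (i - n - k)) (by omega)) (sh al 1 (t + (i - n - k)) (t + (i - k)) (by omega))))) (fun hh => n1.f1 (rEE (sh al 1 (i) (n + i) (by omega)) (sh al 1 (k) (n + k) (by omega)) (Eq.symm (Eq.symm hh)))) (by omega) (n + i + l + 2) (n + i + l + i2 - Q + 2) (2 * n + i + l + i2 + 1) 1 0 (fun t h1 h2 => (cI (sh al (-1) t (t + (-n)) (by omega)) (cE (ab tt al 0 (t + (-n)) ((n + i + l + i2 + 1) - t) (by omega)) (sh al 1 ((n + i + l + i2 + 1) - t) ((2 * n + i + l + i2 + 1) - t) (by omega))))) (by omega)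
          · by_cases z23 : (k + l + l2 + i3 + 2) ≤ (n + i + j)
            · have kk254 : (0) ≤ (i3) := by clear * - b2 b4 b5 z17 z23; omega
              have kk255 : (i3 + 1) ≤ (i) := by clear * - y21; omega
              have kk256 : (k + l + l2 + i3 + 2) ≤ (n + i + j) := by clear * - z23; omega
              have kk257 : (n + i + j) ≤ (k + l + l2 + i3 + 2) := by clear * - z21; omega
              clear * - al s1 n3 kk254 kk255 kk256 kk257
              exact n3.f2 (qa s1 al 0 (i3) (k + l + l2 - n + 2) (by omega))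
            · by_cases z24 : (k + l + l2 + 2) ≤ (n + i + j)
              · have kk258 : (n + i + j) ≤ (k + l + l2 + i3 + 1) := by clear * - z23; omega
                have kk259 : (k + l + l2 + i3 + 3) ≤ (2 * n + i + j) := by clear * - b3 b4 b7 z16 z17 z18 z19 z24; linarith
                have kk260 : (k + l + l2 + i3 + 3) ≤ (n + Q) := by clear * - b2 b4 y17 y21 z18 z23 z24; linarith
                have kk261 : (k + l + l2 + 2) ≤ (n + i + j) := by clear * - z24; omega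
                have kk262 : (n + j) ≤ (k + l + l2 + 2) := by clear * - y21 z23; omega
                clear * - al s2 u2 kk258 kk259 kk260 kk261 kk262
                exact al.ubP (k + l + l2 + i3 - n - i - j + 2) (by omega) (by omega) fun t h1 h2 => (cE (sh al 1 t (t + (n)) (by omega)) (cII (ab s2 al 1 (t + (n)) ((i + j) - t) (by omega)) (qa u2 al 0 ((i + j) - t) (t + (k + l + l2 + i3 - n - i - j + 2)) (by omega))))
              · have kk263 : (2 * k + l + i3 + 1) ≤ (i + 2 * i2 + l2) := by clear * - b7; omega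
                have kk264 : (3 * i + 2 * j + 2 * i2 + l2 + 2) ≤ (2 * Q + 2 * k + l + i3) := by clear * - b2 b4 y17 y21 z23 z24; omega
                have kk265 : (i + 2 * k + l + l2 + 4) ≤ (2 * n + i3) := by clear * - b2 b3 b7 y18 z18; omega
                have kk266 : (3 * i + 2 * j + 4 * i2 + 3 * l2 + 4) ≤ (2 * n + 2 * k + l + 3 * i3) := by clear * - b2 b3 b4 y17 y21 z18 z23; linarith
                have kk267 : (i3) ≤ (j) := by clear * - y1 y21; omega
                have kk268 : (i2) ≤ (k) := by clear * - b3 b4 y21; omega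
                have kk269 : (i3) ≤ (i) := by clear * - y21; omega
                have kk270 : (k + l) ≤ (i2 + l2) := by clear * - b3 b4 b7; omega
                have kk271 : (n + i3) ≤ (i + l + i2 + l2 + 2) := by clear * - z16 z17; omega
                have kk272 : (2 * k + l + i3) ≤ (j + 2 * i2 + l2) := by clear * - b2 b4 y15 y21 z17 z18; omega
                have kk273 : (0) ≤ (i) := by clear * - b2 b4 y17 y21 z17; omega
                have r274 : (n + i + j + i2 + l2 - i3 + 1) % 2 = 0 := by clear * - ev n1p n2p n3p; omega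
                have r275 : (i + 2 * i2 + l2 - 2 * k - l - i3) % 2 = 0 := by clear * - ev n1p n2p n3p; omega
                clear * - al s2 b c D1 D2 kk263 kk264 kk265 kk266 kk267 kk268 kk269 kk270 kk271 kk272 kk273 r274 r275
                exact midP al (i + 2 * i2 + l2 - 2 * k - l - i3) (n + i + j + i2 + l2 - i3 + 1) (i + j + i2 + l2 - i3 + 2) (2 * k + l - i2 + 2) (n) (by omega) (fun t h1 h2 => (cE (cI (pb D1 al 0 t (t + (i3 - i2 - l2 - 1)) (by omega)) (qa s2 al 0 (t + (i3 - i2 - l2 - 1)) ((i + j + i2 + l2 - i3 + 1) - t) (by omega))) (sh al 1 ((i + j + i2 + l2 - i3 + 1) - t) ((n + i + j + i2 + l2 - i3 + 1) - t) (by omega)))) (fun t h1 h2 => (cE (cE (pb c al 0 t (t + (i2 - k - l - 1)) (by omega)) (pb b al 0 (t + (i2 - k - l - 1)) (t + (i + i2 - 2 * k - l - 1)) (by omega))) (pb D2 al 0 (t + (i + i2 - 2 * k - l - 1)) (t + (i + 2 * i2 + l2 - 2 * k - l - i3)) (by omega))))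
  · by_cases z25 : (i + 2 * i2 + l2 + 1) ≤ (Q + 2 * k + l)
    · by_cases z26 : (Q + 2 * i2 + l2) ≤ (2 * k + 2 * l + i3 + 1)
      · by_cases v11 : (2 * k + l) ≤ (2 * i2 + l2)
        · have kk276 : (2 * k + l + i3 + 1) ≤ (i + 2 * i2 + l2) := by clear * - b7; omega
          have kk277 : (i + 2 * i2 + l2 + 1) ≤ (n + 2 * k + l + i3) := by clear * - b2 b7 z16 z25 z26; omega
          have kk278 : (i + 2 * i2 + l2 + 1) ≤ (Q + 2 * k + l) := by clear * - z25; omega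
          have kk279 : (Q + 2 * i2 + l2) ≤ (2 * k + 2 * l + i3 + 1) := by clear * - z26; omega
          have kk280 : (k + l) ≤ (i2 + l2) := by clear * - b7 z16 z25; omega
          have kk281 : (n) ≤ (k + l + l2 + 2) := by clear * - b6 y21; omega
          have kk282 : (2 * k + l) ≤ (2 * i2 + l2) := by clear * - v11; omega
          have kk283 : (2 * k + 2 * l + 2) ≤ (n + i2) := by clear * - b1 y17; omega
          clear * - al b c D2 kk276 kk277 kk278 kk279 kk280 kk281 kk282 kk283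
          exact al.ubQ (i + 2 * i2 + l2 - 2 * k - l - i3) (by omega) (by omega) fun t h1 h2 => (cE (sh al 1 t (t + (n)) (by omega)) (cE (qf (show Par W (i3 + 1) (n + i3 - i2 - l2 - 1) (2 * i2 + l2 - k - l - i3) from fun t h1 h2 => (cE (sh al (-1) t (t + (-n)) (by omega)) (cE (pb D2 al (-1) (t + (-n)) (t + (i2 + l2 - i3 + 1)) (by omega)) (pb c al 0 (t + (i2 + l2 - i3 + 1)) (t + (2 * i2 + l2 - k - l - i3)) (by omega))))) al 1 (t + (n)) (t + (2 * i2 + l2 - k - l - i3)) (by omega)) (pb b al 0 (t + (2 * i2 + l2 - k - l - i3)) (t + (i + 2 * i2 + l2 - 2 * k - l - i3)) (by omega))))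
        · have kk284 : (2 * k + l + i3 + 1) ≤ (i + 2 * i2 + l2) := by clear * - b7; omega
          have kk285 : (i + 2 * i2 + l2 + 1) ≤ (n + 2 * k + l + i3) := by clear * - b2 b7 z16 z25 z26; omega
          have kk286 : (i + 1) ≤ (Q) := by clear * - b2 b4 b6 b7 y14 y17; omega
          have kk287 : (Q + 2 * i2 + l2) ≤ (2 * k + 2 * l + i3 + 1) := by clear * - z26; omega
          have kk288 : (k + l) ≤ (i2 + l2) := by clear * - b7 z16 z25; omega
          have kk289 : (n) ≤ (k + l + l2 + 2) := by clear * - b6 b7 v11; omega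
          have kk290 : (2 * i2 + l2) ≤ (2 * k + l) := by clear * - v11; omega
          have kk291 : (2 * k + 2 * l + 2) ≤ (n + i2) := by clear * - b1 y17; omega
          clear * - al b c D2 kk284 kk285 kk286 kk287 kk288 kk289 kk290 kk291
          exact al.ubQ (i + 2 * i2 + l2 - 2 * k - l - i3) (by omega) (by omega) fun t h1 h2 => (cE (sh al 1 t (t + (n)) (by omega)) (cE (qf (show Par W (i3 + 1) (n + i3 - i2 - l2 - 1) (2 * i2 + l2 - k - l - i3) from fun t h1 h2 => (cE (sh al (-1) t (t + (-n)) (by omega)) (cE (pb D2 al (-1) (t + (-n)) (t + (i2 + l2 - i3 + 1)) (by omega)) (pb c al 0 (t + (i2 + l2 - i3 + 1)) (t + (2 * i2 + l2 - k - l - i3)) (by omega))))) al 1 (t + (n)) (t + (2 * i2 + l2 - k - l - i3)) (by omega)) (pb b al 0 (t + (2 * i2 + l2 - k - l - i3)) (t + (i + 2 * i2 + l2 - 2 * k - l - i3)) (by omega))))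
      · have kk292 : (3 * k + 2 * l + 3) ≤ (n + i + 2 * i2) := by clear * - b2 b6 b7 y17 y21 z16 z26; linarith
        have kk293 : (n + i + 2 * j + 2 * i2) ≤ (2 * Q + 3 * k + 2 * l) := by clear * - b2 b5 y14 y21 z16 z25 z26; linarith
        have kk294 : (3 * k + 2 * l + 4) ≤ (n + i + 2 * i2) := by clear * - b2 b6 b7 y17 y21 z16 z26; linarith
        have kk295 : (n + 2 * j + k) ≤ (i + 2 * i2 + 2 * l2) := by clear * - b2 b5 y14 y21 z16 z26; omega
        have kk296 : (i2) ≤ (k + l + 1) := by clear * - b3 b7 z25; omega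
        have kk297 : (i2) ≤ (k) := by clear * - b7 y21 z16 z25; omega
        have kk298 : (2 * i2 + l2) ≤ (2 * k + 2 * l + 1) := by clear * - b2 b6 y14 y17 y21 z16 z25 z26; linarith
        have kk299 : (2 * k + l) ≤ (2 * i2 + l2) := by clear * - b2 b6 b7 y14 y17 z16 z26; linarith
        have kk300 : (3 * k + 2 * l + 2) ≤ (n + j + 2 * i2) := by clear * - b2 b7 y14 y15 z16 z26; omega
        have r301 : (i + j) % 2 = 0 := by clear * - ev n1p n2p n3p; omega
        have r302 : (n + i + 2 * i2 - 3 * k - 2 * l - 2) % 2 = 0 := by clear * - ev n1p n2p n3p; omega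
        clear * - al s2 b c kk292 kk293 kk294 kk295 kk296 kk297 kk298 kk299 kk300 r301 r302
        exact midP al (n + i + 2 * i2 - 3 * k - 2 * l - 2) (i + j) (j + 1) (3 * k + 2 * l - n - 2 * i2 + 3) (i + 2 * i2 + l2 - 2 * k - l) (by omega) (fun t h1 h2 => (qa s2 al 0 t ((i + j) - t) (by omega))) (fun t h1 h2 => (cE (cE (pb c al (-1) t (t + (n + i2 - k - l - 1)) (by omega)) (pb c al 0 (t + (n + i2 - k - l - 1)) (t + (n + 2 * i2 - 2 * k - 2 * l - 2)) (by omega))) (pb b al 0 (t + (n + 2 * i2 - 2 * k - 2 * l - 2)) (t + (n + i + 2 * i2 - 3 * k - 2 * l - 2)) (by omega))))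
    · have kk303 : (3 * k + 2 * l + 3) ≤ (n + i + 2 * i2) := by clear * - b2 y18 z25; omega
      have kk304 : (i + 2 * i2 + 2 * l2 + 4) ≤ (n + 2 * Q + k) := by clear * - b2 y18; omega
      have kk305 : (i + 3 * k + 2 * l + 4) ≤ (n + 2 * i2 + 2 * i3) := by clear * - b2 b4 b6 y17 z25; omega
      have kk306 : (3 * k + 2 * l + 4) ≤ (n + i + 2 * i2) := by clear * - b2 y18 z25; omega
      have kk307 : (i2) ≤ (k + l + 1) := by clear * - b0 b2 b4 b5 b6 y15 y21 z16 z25; linarith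
      have kk308 : (i2) ≤ (k) := by clear * - b3 b4 y21; omega
      have kk309 : (2 * i2 + l2) ≤ (2 * k + 2 * l + 1) := by clear * - b2 b4 b6 y14 y17 y21 z16; linarith
      have kk310 : (2 * k + l) ≤ (2 * i2 + l2) := by clear * - b2 b4 b6 b7 y14 y17 z25; linarith
      have kk311 : (2 * k + l + i3) ≤ (i + 2 * i2 + l2) := by clear * - b7; omega
      have r312 : (k + l + l2 + i3 - n + 2) % 2 = 0 := by clear * - ev n1p n2p n3p; omega
      have r313 : (n + i + 2 * i2 - 3 * k - 2 * l - 2) % 2 = 0 := by clear * - ev n1p n2p n3p; omega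
      clear * - al b c u2 kk303 kk304 kk305 kk306 kk307 kk308 kk309 kk310 kk311 r312 r313
      exact midP al (n + i + 2 * i2 - 3 * k - 2 * l - 2) (k + l + l2 + i3 - n + 2) (k + l + l2 - n + 3) (3 * k + 2 * l - n - 2 * i2 + 3) (i + 2 * i2 + l2 - 2 * k - l) (by omega) (fun t h1 h2 => (qa u2 al 0 t ((k + l + l2 + i3 - n + 2) - t) (by omega))) (fun t h1 h2 => (cE (cE (pb c al (-1) t (t + (n + i2 - k - l - 1)) (by omega)) (pb c al 0 (t + (n + i2 - k - l - 1)) (t + (n + 2 * i2 - 2 * k - 2 * l - 2)) (by omega))) (pb b al 0 (t + (n + 2 * i2 - 2 * k - 2 * l - 2)) (t + (n + i + 2 * i2 - 3 * k - 2 * l - 2)) (by omega))))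

theorem t3c_9 {W : ℤ → G} {n Q i j k l i2 l2 i3 : ℤ} (al : AL W n Q)
    (hy : (0) ≤ (i) ∧ (i) ≤ (j) ∧ (j + 1) ≤ (Q) ∧ (Q) ≤ (k) ∧ (k + 1) ≤ (n) ∧ (Q) ≤ (i + l + 1) ∧ (k + l + 2) ≤ (n) ∧ (Q) ≤ (i2) ∧ (i2) ≤ (i + l + 1) ∧ (Q) ≤ (i2 + l2 + 1) ∧ (i2 + l2 + 2) ≤ (n) ∧ (n) ≤ (k + l + l2 + 2) ∧ (k + l + l2 + 3) ≤ (n + Q) ∧ (0) ≤ (i3) ∧ (n + i3) ≤ (k + l + l2 + 2) ∧ (k + i2 + l2 + 2) ≤ (n + j + i3) ∧ (j + i3 + 1) ≤ (k) ∧ (k + i2 + l2 + 2) ≤ (n + i3) ∧ (i + 2 * i2 + 1) ≤ (2 * Q + k) ∧ (i + l + 1) ≤ (i2 + l2) ∧ (k + l) ≤ (i2 + l2) ∧ (i3 + 1) ≤ (i))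
    (a1 : Par W (0) (j) (k - j))
    (a2 : Par W (Q + j - k) (j) (k - j))
    (s1 : Ant W (0) (i) (i + j))
    (s2 : Ant W (j + 1) (Q) (i + j))
    (b : Par W (i + 1) (i + l + 1) (k - i))
    (tt : Ant W (Q) (i2) (i + l + i2 + 1))
    (c : Par W (i2 + 1) (i2 + l2 + 1) (k + l - i2 + 1))
    (u1 : Ant W (0) (i3) (k + l + l2 + i3 - n + 2))
    (u2 : Ant W (k + l + l2 - n + 3) (Q) (k + l + l2 + i3 - n + 2))
    (D1 : Par W (i3 + 1) (Q) (i2 + l2 - i3 + 1))
    (D2 : Par W (i2 + l2 + 2) (n) (i3 - i2 - l2 - 1))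
    {L : ℤ} (mx : ∀ a b g, 0 < g → g < n → Par W a b g → b - a ≤ L)
    (hL : L ≤ (n - j - 3) ∧ L ≤ (n + Q - k - 3) ∧ L ≤ (n - l - 3) ∧ L ≤ (n + i - k - 2) ∧ L ≤ (n - l2 - 3) ∧ L ≤ (n + i3 - Q - 2) ∧ L ≤ (i2 + l2 - 1) ∧ L ≤ (n + i2 - k - l - 3) ∧ L ≤ (Q + i2 + l2 - l - i3 - 3))
    (bd0 : Bd W n L (j) (i) (k))
    (bd2 : Bd W n L (k + l + l2 - n + 2) (i3) (i2 + l2 + 1))
    (n1 : Nd W (j) (i) (k))
    (n2 : Nd W (i + l + 1) (i2) (k + l + 1))
    (n3 : Nd W (k + l + l2 - n + 2) (i3) (i2 + l2 + 1))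
    (b0 : (2 * i + j + 1) ≤ (k))
    (b1 : (k + 2 * l + i3 + 2) ≤ (2 * i2 + l2))
    (b2 : (2 * l2 + 3) ≤ (n))
    (b3 : (2 * Q + i2) ≤ (k + l + 2 * i3 + 1))
    (b4 : (2 * i + l + i2 + 2) ≤ (2 * Q + k))
    (b5 : (j + i2) ≤ (l + 2 * i3 + 2))
    (b6 : (n + i) ≤ (k + l + l2 + i3 + 2)) : False := by
  have ev := al.ev
  obtain ⟨y0, y1, y2, y3, y4, y5, y6, y7, y8, y9, y10, y11, y12, y13, y14, y15, y16, y17, y18, y19, y20, y21⟩ := id hy
  have n1p := And.intro n1.p1 n1.p2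
  have n2p := And.intro n2.p1 n2.p2
  have n3p := And.intro n3.p1 n3.p2
  by_cases z15 : (2 * k + l + i3 + 1) ≤ (i + 2 * i2 + l2)
  · exact t3c_10 al hy a1 a2 s1 s2 b tt c u1 u2 D1 D2 mx hL bd0 bd2 n1 n2 n3 (by clear * - b0; omega) (by clear * - b1; omega) (by clear * - b2; omega) (by clear * - b3; omega) (by clear * - b4; omega) (by clear * - b5; omega) (by clear * - b6; omega) (by clear * - z15; omega)
  · exact t3c_11 al hy a1 a2 s1 s2 b tt c u1 u2 D1 D2 mx hL bd0 bd2 n1 n2 n3 (by clear * - b0; omega) (by clear * - b1; omega) (by clear * - b2; omega) (by clear * - b3; omega) (by clear * - b4; omega) (by clear * - b5; omega) (by clear * - b6; omega) (by clear * - z15; omega)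

theorem t3c_8 {W : ℤ → G} {n Q i j k l i2 l2 i3 : ℤ} (al : AL W n Q)
    (hy : (0) ≤ (i) ∧ (i) ≤ (j) ∧ (j + 1) ≤ (Q) ∧ (Q) ≤ (k) ∧ (k + 1) ≤ (n) ∧ (Q) ≤ (i + l + 1) ∧ (k + l + 2) ≤ (n) ∧ (Q) ≤ (i2) ∧ (i2) ≤ (i + l + 1) ∧ (Q) ≤ (i2 + l2 + 1) ∧ (i2 + l2 + 2) ≤ (n) ∧ (n) ≤ (k + l + l2 + 2) ∧ (k + l + l2 + 3) ≤ (n + Q) ∧ (0) ≤ (i3) ∧ (n + i3) ≤ (k + l + l2 + 2) ∧ (k + i2 + l2 + 2) ≤ (n + j + i3) ∧ (j + i3 + 1) ≤ (k) ∧ (k + i2 + l2 + 2) ≤ (n + i3) ∧ (i + 2 * i2 + 1) ≤ (2 * Q + k) ∧ (i + l + 1) ≤ (i2 + l2) ∧ (k + l) ≤ (i2 + l2) ∧ (i3 + 1) ≤ (i))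
    (a1 : Par W (0) (j) (k - j))
    (a2 : Par W (Q + j - k) (j) (k - j))
    (s1 : Ant W (0) (i) (i + j))
    (s2 : Ant W (j + 1) (Q) (i + j))
    (b : Par W (i + 1) (i + l + 1) (k - i))
    (tt : Ant W (Q) (i2) (i + l + i2 + 1))
    (c : Par W (i2 + 1) (i2 + l2 + 1) (k + l - i2 + 1))
    (u1 : Ant W (0) (i3) (k + l + l2 + i3 - n + 2))
    (u2 : Ant W (k + l + l2 - n + 3) (Q) (k + l + l2 + i3 - n + 2))
    (D1 : Par W (i3 + 1) (Q) (i2 + l2 - i3 + 1))
    (D2 : Par W (i2 + l2 + 2) (n) (i3 - i2 - l2 - 1))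
    {L : ℤ} (mx : ∀ a b g, 0 < g → g < n → Par W a b g → b - a ≤ L)
    (hL : L ≤ (n - j - 3) ∧ L ≤ (n + Q - k - 3) ∧ L ≤ (n - l - 3) ∧ L ≤ (n + i - k - 2) ∧ L ≤ (n - l2 - 3) ∧ L ≤ (n + i3 - Q - 2) ∧ L ≤ (i2 + l2 - 1) ∧ L ≤ (n + i2 - k - l - 3) ∧ L ≤ (Q + i2 + l2 - l - i3 - 3))
    (bd0 : Bd W n L (j) (i) (k))
    (bd2 : Bd W n L (k + l + l2 - n + 2) (i3) (i2 + l2 + 1))
    (n1 : Nd W (j) (i) (k))
    (n2 : Nd W (i + l + 1) (i2) (k + l + 1))
    (n3 : Nd W (k + l + l2 - n + 2) (i3) (i2 + l2 + 1))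
    (b0 : (2 * i + j + 1) ≤ (k))
    (b1 : (k + 2 * l + i3 + 2) ≤ (2 * i2 + l2))
    (b2 : (2 * l2 + 3) ≤ (n))
    (b3 : (2 * Q + i2) ≤ (k + l + 2 * i3 + 1))
    (b4 : (2 * i + l + i2 + 2) ≤ (2 * Q + k))
    (b5 : (j + i2) ≤ (l + 2 * i3 + 2))
    (b6 : (k + l + l2 + i3 + 3) ≤ (n + i)) : False := by
  have ev := al.ev
  obtain ⟨y0, y1, y2, y3, y4, y5, y6, y7, y8, y9, y10, y11, y12, y13, y14, y15, y16, y17, y18, y19, y20, y21⟩ := id hy
  have n1p := And.intro n1.p1 n1.p2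
  have n2p := And.intro n2.p1 n2.p2
  have n3p := And.intro n3.p1 n3.p2
  by_cases z13 : (l + 2 * i3 + 1) ≤ (j + i2)
  · have kk106 : (l + 2 * i3 + 1) ≤ (j + i2) := by clear * - z13; omega
    have kk107 : (j + i2) ≤ (l + 2 * i3 + 1) := by clear * - b5 ev n1p n2p n3p; omega
    have kk108 : (k + l + l2 + i3 + 3) ≤ (n + i) := by clear * - b6; omega
    have kk109 : (j) ≤ (l) := by clear * - b1 b2 b5 y14 y17; omega
    have kk110 : (i) ≤ (j) := by clear * - y1; omega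
    have kk111 : (0) ≤ (i3) := by clear * - y13; omega
    have kk112 : (Q + i2) ≤ (k + l + i3 + 1) := by clear * - b1 b2 b3 b4 b5 y14 y15 y21; linarith
    clear * - al s1 b u2 D2 kk106 kk107 kk108 kk109 kk110 kk111 kk112
    exact al.auU (j + k) (mgA (b := (i)) (le_refl _) (fun t h1 h2 => (cI (sh al (-1) t (t + (-n)) (by omega)) (cE (qa s1 al (-1) (t + (-n)) ((i + j) - t) (by omega)) (qf b al 0 ((i + j) - t) ((j + k) - t) (by omega))))) (fun t h1 h2 => (cI (sh al (-1) t (t + (-n)) (by omega)) (cE (qa u2 al (-1) (t + (-n)) ((k + l + l2 + i3 - n + 2) - t) (by omega)) (qf D2 al (-1) ((k + l + l2 + i3 - n + 2) - t) ((j + k) - t) (by omega))))))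
  · by_cases z14 : (i + l + 2 * i3 + 3) ≤ (2 * Q + i2)
    · by_cases v5 : (n + i + i3) ≤ (Q + k + i2 + l2 + 1)
      · have kk113 : (2 * k + l + i2 + 2 * l2 + 5) ≤ (2 * n + i) := by clear * - b6 y17; omega
        have kk114 : (i + i2) ≤ (l + 2 * i3) := by clear * - y1 z13; omega
        have kk115 : (n + i3) ≤ (k + l + i2 + l2 + 2) := by clear * - b2 y13 y14 y20; omega
        have kk116 : (n + i + i3) ≤ (Q + k + i2 + l2 + 1) := by clear * - v5; omega
        have kk117 : (k + l + l2 + 2) ≤ (n + i) := by clear * - b6 y13; omega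
        have kk118 : (i3) ≤ (k) := by clear * - b3 y21 z14; omega
        have r119 : (2 * k + l + i2 + 2 * l2 - 2 * n - i + 3) % 2 = 0 := by clear * - ev n1p n2p n3p; omega
        clear * - al b u2 D2 kk113 kk114 kk115 kk116 kk117 kk118 r119
        obtain ⟨t, ht⟩ : ∃ t, 2 * t = (2 * k + l + i2 + 2 * l2 - 2 * n - i + 3) := ⟨(2 * k + l + i2 + 2 * l2 - 2 * n - i + 3) / 2, by omega⟩
        exact al.ninv t (cE (cE (cE (ab u2 al 0 t ((k + l + l2 + i3 - n + 2) - t) (by omega)) (qf b al 0 ((k + l + l2 + i3 - n + 2) - t) ((2 * k + l + l2 + i3 - n - i + 2) - t) (by omega))) (pb D2 al 0 ((2 * k + l + l2 + i3 - n - i + 2) - t) ((2 * k + l + i2 + 2 * l2 - n - i + 3) - t) (by omega))) (sh al (-1) ((2 * k + l + i2 + 2 * l2 - n - i + 3) - t) t (by omega)))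
      · have kk120 : (i + l + 2 * i3 + 3) ≤ (2 * Q + i2) := by clear * - z14; omega
        have kk121 : (i + i2) ≤ (l + 2 * i3) := by clear * - y1 z13; omega
        have kk122 : (Q + k + i2 + l2 + 1) ≤ (n + i + i3) := by clear * - v5; omega
        have kk123 : (Q) ≤ (i + l + 1) := by clear * - b2 v5 y13 y14 y20; omega
        have kk124 : (k + l + l2 + 2) ≤ (n + i) := by clear * - b6 y13; omega
        have kk125 : (i3) ≤ (k) := by clear * - b3 y21 z14; omega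
        have r126 : (2 * k + l + i2 + 2 * l2 - 2 * n - i + 3) % 2 = 0 := by clear * - ev n1p n2p n3p; omega
        clear * - al b u2 D2 kk120 kk121 kk122 kk123 kk124 kk125 r126
        obtain ⟨t, ht⟩ : ∃ t, 2 * t = (2 * k + l + i2 + 2 * l2 - 2 * n - i + 3) := ⟨(2 * k + l + i2 + 2 * l2 - 2 * n - i + 3) / 2, by omega⟩
        exact al.ninv t (cE (cE (cE (ab u2 al 0 t ((k + l + l2 + i3 - n + 2) - t) (by omega)) (qf b al 0 ((k + l + l2 + i3 - n + 2) - t) ((2 * k + l + l2 + i3 - n - i + 2) - t) (by omega))) (pb D2 al 0 ((2 * k + l + l2 + i3 - n - i + 2) - t) ((2 * k + l + i2 + 2 * l2 - n - i + 3) - t) (by omega))) (sh al (-1) ((2 * k + l + i2 + 2 * l2 - n - i + 3) - t) t (by omega)))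
    · have kk127 : (n + j + l + 2 * i3) ≤ (3 * i2 + 2 * l2) := by clear * - b1 b2 y14 z13; omega
      have kk128 : (2 * Q + i2 + 2 * l2 + 1) ≤ (n + j + l + 2 * i3) := by clear * - b2 y1 z14; omega
      have kk129 : (n + 2 * Q + 2 * i + j) ≤ (4 * k + l + i2 + 1) := by clear * - b0 b1 b2 b4 y13 y14 z14; linarith
      have kk130 : (2 * i + j + 3 * l + 5) ≤ (n + i2) := by clear * - b0 b1 b2 b3 b4 b6 z13; linarith
      have kk131 : (k + i2 + l2 + 2) ≤ (n + Q + j) := by clear * - y12 y14 y15; omega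
      have kk132 : (0) ≤ (j) := by clear * - y1 y13 y21; omega
      have kk133 : (k + l) ≤ (i2 + l2) := by clear * - y20; omega
      have kk134 : (n) ≤ (k + l + l2 + 2) := by clear * - y13 y14; omega
      have kk135 : (i2) ≤ (i + l + 1) := by clear * - y14 y15 y21 z13; omega
      have kk136 : (i + 1) ≤ (Q) := by clear * - y1 y2; omega
      have kk137 : (i3 + 1) ≤ (Q) := by clear * - y12 y14; omega
      have kk138 : (k + i2 + l2 + 1) ≤ (n + j + i3) := by clear * - y15; omega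
      have kk139 : (j + k + l + i3) ≤ (i + i2 + l2) := by clear * - b1 b6 y14 z13; omega
      have kk140 : (n + Q + j + i3) ≤ (i + k + l + i2 + l2 + 3) := by clear * - b1 b2 y14 y2 z14; omega
      have r141 : (2 * n + k + l + i2 + 1) % 2 = 0 := by clear * - ev n1p n2p n3p; omega
      have r142 : (3 * i2 + 2 * l2 - n - j - l - 2 * i3 + 1) % 2 = 0 := by clear * - ev n1p n2p n3p; omega
      clear * - al a2 b tt c D2 kk127 kk128 kk129 kk130 kk131 kk132 kk133 kk134 kk135 kk136 kk137 kk138 kk139 kk140 r141 r142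
      exact midP al (3 * i2 + 2 * l2 - n - j - l - 2 * i3 + 1) (2 * n + k + l + i2 + 1) (n + i + l + 2) (2 * n + Q + j + i3 - k - i2 - l2 - 1) (n + 2 * i2 + l2 - j - l - i3) (by (repeat' apply And.intro) <;> first | assumption | linarith | omega) (fun t h1 h2 => (cE (cE (ab tt al 1 t ((n + i + l + i2 + 1) - t) (by (repeat' apply And.intro) <;> first | assumption | linarith | omega)) (qf b al 0 ((n + i + l + i2 + 1) - t) ((n + k + l + i2 + 1) - t) (by (repeat' apply And.intro) <;> first | assumption | linarith | omega))) (sh al 1 ((n + k + l + i2 + 1) - t) ((2 * n + k + l + i2 + 1) - t) (by (repeat' apply And.intro) <;> first | assumption | linarith | omega)))) (fun t h1 h2 => (cE (cE (pb (show Par W (Q) (k - j) (n + j + i3 - k - i2 - l2 - 1) from fun t h1 h2 => (cE (sh al (-1) t (t + (-n)) (by (repeat' apply And.intro) <;> first | assumption | linarith | omega)) (cE (pb a2 al (-1) (t + (-n)) (t + (j - k)) (by (repeat'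 apply And.intro) <;> first | assumption | linarith | omega)) (qf D2 al (-1) (t + (j - k)) (t + (n + j + i3 - k - i2 - l2 - 1)) (by (repeat' apply And.intro) <;> first | assumption | linarith | omega))))) al 1 t (t + (k + i2 + l2 - 2 * n - j - i3 + 1)) (by (repeat' apply And.intro) <;> first | assumption | linarith | omega)) (qf (show Par W (i3 + 1) (n + i3 - i2 - l2 - 1) (2 * i2 + l2 - k - l - i3) from fun t h1 h2 => (cE (sh al (-1) t (t + (-n)) (by (repeat' apply And.intro) <;> first | assumption | linarith | omega)) (cE (pb D2 al (-1) (t + (-n)) (t + (i2 + l2 - i3 + 1)) (by (repeat' apply And.intro) <;> first | assumption | linarith | omega)) (pb c al 0 (t + (i2 + l2 - i3 + 1)) (t + (2 * i2 + l2 - k - l - i3)) (by (repeat' apply And.intro) <;> first | assumption | linarith | omega))))) al 0 (t + (k + i2 + l2 - 2 * n - j - i3 + 1)) (t + (3 * i2 + 2 * l2 - 2 * n - j - l - 2 * i3 + 1)) (by (repeat' apply And.intro)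 <;> first | assumption | linarith | omega))) (sh al 1 (t + (3 * i2 + 2 * l2 - 2 * n - j - l - 2 * i3 + 1)) (t + (3 * i2 + 2 * l2 - n - j - l - 2 * i3 + 1)) (by (repeat' apply And.intro) <;> first | assumption | linarith | omega))))

theorem t3c_7 {W : ℤ → G} {n Q i j k l i2 l2 i3 : ℤ} (al : AL W n Q)
    (hy : (0) ≤ (i) ∧ (i) ≤ (j) ∧ (j + 1) ≤ (Q) ∧ (Q) ≤ (k) ∧ (k + 1) ≤ (n) ∧ (Q) ≤ (i + l + 1) ∧ (k + l + 2) ≤ (n) ∧ (Q) ≤ (i2) ∧ (i2) ≤ (i + l + 1) ∧ (Q) ≤ (i2 + l2 + 1) ∧ (i2 + l2 + 2) ≤ (n) ∧ (n) ≤ (k + l + l2 + 2) ∧ (k + l + l2 + 3) ≤ (n + Q) ∧ (0) ≤ (i3) ∧ (n + i3) ≤ (k + l + l2 + 2) ∧ (k + i2 + l2 + 2) ≤ (n + j + i3) ∧ (j + i3 + 1) ≤ (k) ∧ (k + i2 + l2 + 2) ≤ (n + i3) ∧ (i + 2 * i2 + 1) ≤ (2 * Q + k) ∧ (i + l + 1) ≤ (i2 + l2) ∧ (k + l) ≤ (i2 + l2) ∧ (i3 + 1) ≤ (i))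
    (a1 : Par W (0) (j) (k - j))
    (a2 : Par W (Q + j - k) (j) (k - j))
    (s1 : Ant W (0) (i) (i + j))
    (s2 : Ant W (j + 1) (Q) (i + j))
    (b : Par W (i + 1) (i + l + 1) (k - i))
    (tt : Ant W (Q) (i2) (i + l + i2 + 1))
    (c : Par W (i2 + 1) (i2 + l2 + 1) (k + l - i2 + 1))
    (u1 : Ant W (0) (i3) (k + l + l2 + i3 - n + 2))
    (u2 : Ant W (k + l + l2 - n + 3) (Q) (k + l + l2 + i3 - n + 2))
    (D1 : Par W (i3 + 1) (Q) (i2 + l2 - i3 + 1))
    (D2 : Par W (i2 + l2 + 2) (n) (i3 - i2 - l2 - 1))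
    {L : ℤ} (mx : ∀ a b g, 0 < g → g < n → Par W a b g → b - a ≤ L)
    (hL : L ≤ (n - j - 3) ∧ L ≤ (n + Q - k - 3) ∧ L ≤ (n - l - 3) ∧ L ≤ (n + i - k - 2) ∧ L ≤ (n - l2 - 3) ∧ L ≤ (n + i3 - Q - 2) ∧ L ≤ (i2 + l2 - 1) ∧ L ≤ (n + i2 - k - l - 3) ∧ L ≤ (Q + i2 + l2 - l - i3 - 3))
    (bd0 : Bd W n L (j) (i) (k))
    (bd2 : Bd W n L (k + l + l2 - n + 2) (i3) (i2 + l2 + 1))
    (n1 : Nd W (j) (i) (k))
    (n2 : Nd W (i + l + 1) (i2) (k + l + 1))
    (n3 : Nd W (k + l + l2 - n + 2) (i3) (i2 + l2 + 1))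
    (b0 : (2 * i + j + 1) ≤ (k))
    (b1 : (k + 2 * l + i3 + 2) ≤ (2 * i2 + l2))
    (b2 : (2 * l2 + 3) ≤ (n))
    (b3 : (2 * Q + i2) ≤ (k + l + 2 * i3 + 1))
    (b4 : (2 * i + l + i2 + 2) ≤ (2 * Q + k))
    (b5 : (j + i2) ≤ (l + 2 * i3 + 2)) : False := by
  have ev := al.ev
  obtain ⟨y0, y1, y2, y3, y4, y5, y6, y7, y8, y9, y10, y11, y12, y13, y14, y15, y16, y17, y18, y19, y20, y21⟩ := id hy
  have n1p := And.intro n1.p1 n1.p2
  have n2p := And.intro n2.p1 n2.p2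
  have n3p := And.intro n3.p1 n3.p2
  by_cases z12 : (k + l + l2 + i3 + 3) ≤ (n + i)
  · exact t3c_8 al hy a1 a2 s1 s2 b tt c u1 u2 D1 D2 mx hL bd0 bd2 n1 n2 n3 (by clear * - b0; omega) (by clear * - b1; omega) (by clear * - b2; omega) (by clear * - b3; omega) (by clear * - b4; omega) (by clear * - b5; omega) (by clear * - z12; omega)
  · exact t3c_9 al hy a1 a2 s1 s2 b tt c u1 u2 D1 D2 mx hL bd0 bd2 n1 n2 n3 (by clear * - b0; omega) (by clear * - b1; omega) (by clear * - b2; omega) (by clear * - b3; omega) (by clear * - b4; omega) (by clear * - b5; omega) (by clear * - z12; omega)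

theorem t3c_6 {W : ℤ → G} {n Q i j k l i2 l2 i3 : ℤ} (al : AL W n Q)
    (hy : (0) ≤ (i) ∧ (i) ≤ (j) ∧ (j + 1) ≤ (Q) ∧ (Q) ≤ (k) ∧ (k + 1) ≤ (n) ∧ (Q) ≤ (i + l + 1) ∧ (k + l + 2) ≤ (n) ∧ (Q) ≤ (i2) ∧ (i2) ≤ (i + l + 1) ∧ (Q) ≤ (i2 + l2 + 1) ∧ (i2 + l2 + 2) ≤ (n) ∧ (n) ≤ (k + l + l2 + 2) ∧ (k + l + l2 + 3) ≤ (n + Q) ∧ (0) ≤ (i3) ∧ (n + i3) ≤ (k + l + l2 + 2) ∧ (k + i2 + l2 + 2) ≤ (n + j + i3) ∧ (j + i3 + 1) ≤ (k) ∧ (k + i2 + l2 + 2) ≤ (n + i3) ∧ (i + 2 * i2 + 1) ≤ (2 * Q + k) ∧ (i + l + 1) ≤ (i2 + l2) ∧ (k + l) ≤ (i2 + l2) ∧ (i3 + 1) ≤ (i))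
    (a1 : Par W (0) (j) (k - j))
    (a2 : Par W (Q + j - k) (j) (k - j))
    (s1 : Ant W (0) (i) (i + j))
    (s2 : Ant W (j + 1) (Q) (i + j))
    (b : Par W (i + 1) (i + l + 1) (k - i))
    (tt : Ant W (Q) (i2) (i + l + i2 + 1))
    (c : Par W (i2 + 1) (i2 + l2 + 1) (k + l - i2 + 1))
    (u1 : Ant W (0) (i3) (k + l + l2 + i3 - n + 2))
    (u2 : Ant W (k + l + l2 - n + 3) (Q) (k + l + l2 + i3 - n + 2))
    (D1 : Par W (i3 + 1) (Q) (i2 + l2 - i3 + 1))
    (D2 : Par W (i2 + l2 + 2) (n) (i3 - i2 - l2 - 1))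
    {L : ℤ} (mx : ∀ a b g, 0 < g → g < n → Par W a b g → b - a ≤ L)
    (hL : L ≤ (n - j - 3) ∧ L ≤ (n + Q - k - 3) ∧ L ≤ (n - l - 3) ∧ L ≤ (n + i - k - 2) ∧ L ≤ (n - l2 - 3) ∧ L ≤ (n + i3 - Q - 2) ∧ L ≤ (i2 + l2 - 1) ∧ L ≤ (n + i2 - k - l - 3) ∧ L ≤ (Q + i2 + l2 - l - i3 - 3))
    (bd0 : Bd W n L (j) (i) (k))
    (bd2 : Bd W n L (k + l + l2 - n + 2) (i3) (i2 + l2 + 1))
    (n1 : Nd W (j) (i) (k))
    (n2 : Nd W (i + l + 1) (i2) (k + l + 1))
    (n3 : Nd W (k + l + l2 - n + 2) (i3) (i2 + l2 + 1))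
    (b0 : (2 * i + j + 1) ≤ (k))
    (b1 : (k + 2 * l + i3 + 2) ≤ (2 * i2 + l2))
    (b2 : (2 * l2 + 3) ≤ (n))
    (b3 : (2 * Q + i2) ≤ (k + l + 2 * i3 + 1))
    (b4 : (2 * i + l + i2 + 2) ≤ (2 * Q + k)) : False := by
  have ev := al.ev
  obtain ⟨y0, y1, y2, y3, y4, y5, y6, y7, y8, y9, y10, y11, y12, y13, y14, y15, y16, y17, y18, y19, y20, y21⟩ := id hy
  have n1p := And.intro n1.p1 n1.p2
  have n2p := And.intro n2.p1 n2.p2
  have n3p := And.intro n3.p1 n3.p2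
  by_cases z11 : (l + 2 * i3 + 3) ≤ (j + i2)
  · have kk99 : (2 * k + l + i2 + 2 * l2 + 5) ≤ (2 * n + j) := by clear * - y17 z11; omega
    have kk100 : (l + 2 * i3 + 2) ≤ (j + i2) := by clear * - z11; omega
    have kk101 : (0) ≤ (i3) := by clear * - y13; omega
    have kk102 : (n) ≤ (k + l + l2 + i3 + 3) := by clear * - y13 y14; omega
    have kk103 : (j + i2) ≤ (k + l + i3 + 1) := by clear * - b0 y13 y14 y17 y21; omega
    have kk104 : (j) ≤ (Q) := by clear * - y2; omega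
    have r105 : (2 * k + l + 2 * i3 - 2 * n - j - i2 + 1) % 2 = 0 := by clear * - ev n1p n2p n3p; omega
    clear * - al a1 u2 D2 kk99 kk100 kk101 kk102 kk103 kk104 r105
    obtain ⟨t, ht⟩ : ∃ t, 2 * t = (2 * k + l + 2 * i3 - 2 * n - j - i2 + 1) := ⟨(2 * k + l + 2 * i3 - 2 * n - j - i2 + 1) / 2, by omega⟩
    exact al.ninv t (cE (cE (cI (pb a1 al (-1) t (t + (n + j - k)) (by omega)) (qa u2 al 0 (t + (n + j - k)) ((2 * k + l + l2 + i3 - 2 * n - j + 2) - t) (by omega))) (qf D2 al (-1) ((2 * k + l + l2 + i3 - 2 * n - j + 2) - t) ((2 * k + l + 2 * i3 - n - j - i2 + 1) - t) (by omega))) (sh al (-1) ((2 * k + l + 2 * i3 - n - j - i2 + 1) - t) t (by omega)))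
  · exact t3c_7 al hy a1 a2 s1 s2 b tt c u1 u2 D1 D2 mx hL bd0 bd2 n1 n2 n3 (by clear * - b0; omega) (by clear * - b1; omega) (by clear * - b2; omega) (by clear * - b3; omega) (by clear * - b4; omega) (by clear * - z11; omega)

theorem t3c_5 {W : ℤ → G} {n Q i j k l i2 l2 i3 : ℤ} (al : AL W n Q)
    (hy : (0) ≤ (i) ∧ (i) ≤ (j) ∧ (j + 1) ≤ (Q) ∧ (Q) ≤ (k) ∧ (k + 1) ≤ (n) ∧ (Q) ≤ (i + l + 1) ∧ (k + l + 2) ≤ (n) ∧ (Q) ≤ (i2) ∧ (i2) ≤ (i + l + 1) ∧ (Q) ≤ (i2 + l2 + 1) ∧ (i2 + l2 + 2) ≤ (n) ∧ (n) ≤ (k + l + l2 + 2) ∧ (k + l + l2 + 3) ≤ (n + Q) ∧ (0) ≤ (i3) ∧ (n + i3) ≤ (k + l + l2 + 2) ∧ (k + i2 + l2 + 2) ≤ (n + j + i3) ∧ (j + i3 + 1) ≤ (k) ∧ (k + i2 + l2 + 2) ≤ (n + i3) ∧ (i + 2 * i2 + 1) ≤ (2 * Q + k) ∧ (i + l + 1) ≤ (i2 + l2) ∧ (k + l) ≤ (i2 + l2) ∧ (i3 + 1) ≤ (i))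
    (a1 : Par W (0) (j) (k - j))
    (a2 : Par W (Q + j - k) (j) (k - j))
    (s1 : Ant W (0) (i) (i + j))
    (s2 : Ant W (j + 1) (Q) (i + j))
    (b : Par W (i + 1) (i + l + 1) (k - i))
    (tt : Ant W (Q) (i2) (i + l + i2 + 1))
    (c : Par W (i2 + 1) (i2 + l2 + 1) (k + l - i2 + 1))
    (u1 : Ant W (0) (i3) (k + l + l2 + i3 - n + 2))
    (u2 : Ant W (k + l + l2 - n + 3) (Q) (k + l + l2 + i3 - n + 2))
    (D1 : Par W (i3 + 1) (Q) (i2 + l2 - i3 + 1))
    (D2 : Par W (i2 + l2 + 2) (n) (i3 - i2 - l2 - 1))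
    {L : ℤ} (mx : ∀ a b g, 0 < g → g < n → Par W a b g → b - a ≤ L)
    (hL : L ≤ (n - j - 3) ∧ L ≤ (n + Q - k - 3) ∧ L ≤ (n - l - 3) ∧ L ≤ (n + i - k - 2) ∧ L ≤ (n - l2 - 3) ∧ L ≤ (n + i3 - Q - 2) ∧ L ≤ (i2 + l2 - 1) ∧ L ≤ (n + i2 - k - l - 3) ∧ L ≤ (Q + i2 + l2 - l - i3 - 3))
    (bd0 : Bd W n L (j) (i) (k))
    (bd2 : Bd W n L (k + l + l2 - n + 2) (i3) (i2 + l2 + 1))
    (n1 : Nd W (j) (i) (k))
    (n2 : Nd W (i + l + 1) (i2) (k + l + 1))
    (n3 : Nd W (k + l + l2 - n + 2) (i3) (i2 + l2 + 1))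
    (b0 : (2 * i + j + 1) ≤ (k))
    (b1 : (k + 2 * l + i3 + 2) ≤ (2 * i2 + l2))
    (b2 : (2 * l2 + 3) ≤ (n))
    (b3 : (2 * Q + i2) ≤ (k + l + 2 * i3 + 1))
    (b4 : (2 * Q + k) ≤ (2 * i + l + i2 + 1)) : False := by
  have ev := al.ev
  obtain ⟨y0, y1, y2, y3, y4, y5, y6, y7, y8, y9, y10, y11, y12, y13, y14, y15, y16, y17, y18, y19, y20, y21⟩ := id hy
  have n1p := And.intro n1.p1 n1.p2
  have n2p := And.intro n2.p1 n2.p2
  have n3p := And.intro n3.p1 n3.p2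
  by_cases z6 : (2 * i + l + 3) ≤ (k + i2)
  · have kk31 : (2 * Q + k) ≤ (2 * i + l + i2 + 1) := by clear * - b4; omega
    have kk32 : (2 * i + l + 2) ≤ (k + i2) := by clear * - z6; omega
    have kk33 : (i + 1) ≤ (Q) := by clear * - y1 y2; omega
    have kk34 : (i2) ≤ (i + l + 1) := by clear * - b4 y18; omega
    have r35 : (2 * n + k + l + i2 + 1) % 2 = 0 := by clear * - ev n1p n2p n3p; omega
    clear * - al b tt kk31 kk32 kk33 kk34 r35
    obtain ⟨t, ht⟩ : ∃ t, 2 * t = (2 * n + k + l + i2 + 1) := ⟨(2 * n + k + l + i2 + 1) / 2, by omega⟩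
    exact al.ninv t (cE (cI (pb b al 1 t (t + (i - n - k)) (by omega)) (qa tt al 0 (t + (i - n - k)) ((n + k + l + i2 + 1) - t) (by omega))) (sh al 1 ((n + k + l + i2 + 1) - t) t (by omega)))
  · by_cases z7 : (i + l + 2 * i3 + 3) ≤ (2 * Q + i2)
    · by_cases z8 : (2 * k + l + i2 + 2 * l2 + 4) ≤ (2 * n + i)
      · by_cases v2 : (Q + i2) ≤ (l + 2 * i3 + 1)
        · have kk36 : (2 * k + l + i2 + 2 * l2 + 5) ≤ (2 * n + i) := by clear * - z8 ev n1p n2p n3p; omega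
          have kk37 : (i + l + 2 * i3 + 2) ≤ (2 * Q + i2) := by clear * - z7; omega
          have kk38 : (0) ≤ (i3) := by clear * - y13; omega
          have kk39 : (n + i3) ≤ (k + l + i2 + l2 + 2) := by clear * - b3 b4 y13 y14 z7; omega
          have kk40 : (Q + i2) ≤ (l + 2 * i3 + 1) := by clear * - v2; omega
          have kk41 : (Q + i2) ≤ (k + l + i3 + 1) := by clear * - b3 z6 z7; omega
          have r42 : (2 * n + i + l + 2 * i3 - i2 + 1) % 2 = 0 := by clear * - ev n1p n2p n3p; omega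
          clear * - al b u2 D2 kk36 kk37 kk38 kk39 kk40 kk41 r42
          obtain ⟨t, ht⟩ : ∃ t, 2 * t = (2 * n + i + l + 2 * i3 - i2 + 1) := ⟨(2 * n + i + l + 2 * i3 - i2 + 1) / 2, by omega⟩
          exact al.ninv t (cE (cE (cE (qa u2 al 1 t ((k + l + l2 + i3 + 2) - t) (by omega)) (qf D2 al (-1) ((k + l + l2 + i3 + 2) - t) ((n + k + l + 2 * i3 - i2 + 1) - t) (by omega))) (pb b al 0 ((n + k + l + 2 * i3 - i2 + 1) - t) ((n + i + l + 2 * i3 - i2 + 1) - t) (by omega))) (sh al 1 ((n + i + l + 2 * i3 - i2 + 1) - t) t (by omega)))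
        · have kk43 : (2 * k + l + i2 + 2 * l2 + 5) ≤ (2 * n + i) := by clear * - z8 ev n1p n2p n3p; omega
          have kk44 : (i + i2) ≤ (l + 2 * i3) := by clear * - b0 y1 y13 z6 ev n1p n2p n3p; omega
          have kk45 : (0) ≤ (i3) := by clear * - y13; omega
          have kk46 : (n + i3) ≤ (k + l + i2 + l2 + 2) := by clear * - b3 b4 y13 y14 z7; omega
          have kk47 : (i3) ≤ (k) := by clear * - b3 v2 z6 z7; omega
          have kk48 : (l + 2 * i3 + 1) ≤ (Q + i2) := by clear * - v2; omega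
          have r49 : (2 * n + i + l + 2 * i3 - i2 + 1) % 2 = 0 := by clear * - ev n1p n2p n3p; omega
          clear * - al b u2 D2 kk43 kk44 kk45 kk46 kk47 kk48 r49
          obtain ⟨t, ht⟩ : ∃ t, 2 * t = (2 * n + i + l + 2 * i3 - i2 + 1) := ⟨(2 * n + i + l + 2 * i3 - i2 + 1) / 2, by omega⟩
          exact al.ninv t (cE (cE (cE (qa u2 al 1 t ((k + l + l2 + i3 + 2) - t) (by omega)) (qf D2 al (-1) ((k + l + l2 + i3 + 2) - t) ((n + k + l + 2 * i3 - i2 + 1) - t) (by omega))) (pb b al 0 ((n + k + l + 2 * i3 - i2 + 1) - t) ((n + i + l + 2 * i3 - i2 + 1) - t) (by omega))) (sh al 1 ((n + i + l + 2 * i3 - i2 + 1) - t) t (by omega)))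
      · by_cases z9 : (n + 2 * i + j + i2 + i3 + 1) ≤ (2 * Q + 3 * k + l2)
        · by_cases z10 : (n + i + 2 * j + 2 * i2) ≤ (2 * Q + 3 * k + 2 * l)
          · by_cases v3 : (k) ≤ (i2)
            · have kk50 : (3 * k + 2 * l + 3) ≤ (n + i + 2 * i2) := by clear * - b1 b2 b3 v3 y18 z6; omega
              have kk51 : (n + i + 2 * j + 2 * i2) ≤ (2 * Q + 3 * k + 2 * l) := by clear * - z10; omega
              have kk52 : (k + 2 * l + 4) ≤ (n + i) := by clear * - b1 b2 b3 y18 z6; omega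
              have kk53 : (n + 2 * j + k) ≤ (i + 2 * i2 + 2 * l2) := by clear * - b1 b3 v3 z10 z6; omega
              have kk54 : (i2) ≤ (k + l + 1) := by clear * - b3 z6 z7; omega
              have kk55 : (k) ≤ (i2) := by clear * - v3; omega
              have kk56 : (2 * i2 + l2) ≤ (2 * k + 2 * l + 1) := by clear * - b2 b3 y14 y18 z6 z7; omega
              have kk57 : (2 * k + l) ≤ (2 * i2 + l2) := by clear * - v3 y20; omega
              have kk58 : (2 * k + 2 * l + 2) ≤ (n + j + i2) := by clear * - b1 y15; omega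
              have r59 : (i + j) % 2 = 0 := by clear * - ev n1p n2p n3p; omega
              have r60 : (n + i + 2 * i2 - 3 * k - 2 * l - 2) % 2 = 0 := by clear * - ev n1p n2p n3p; omega
              clear * - al s2 b c kk50 kk51 kk52 kk53 kk54 kk55 kk56 kk57 kk58 r59 r60
              exact midP al (n + i + 2 * i2 - 3 * k - 2 * l - 2) (i + j) (j + 1) (2 * k + 2 * l - n - i2 + 3) (i + 2 * i2 + l2 - 2 * k - l) (by omega) (fun t h1 h2 => (qa s2 al 0 t ((i + j) - t) (by omega))) (fun t h1 h2 => (cE (cE (pb c al (-1) t (t + (n + i2 - k - l - 1)) (by omega)) (pb c al 0 (t + (n + i2 - k - l - 1)) (t + (n + 2 * i2 - 2 * k - 2 * l - 2)) (by omega))) (pb b al 0 (t + (n + 2 * i2 - 2 * k - 2 * l - 2)) (t + (n + i + 2 * i2 - 3 * k - 2 * l - 2)) (by omega))))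
            · have kk61 : (3 * k + 2 * l + 3) ≤ (n + i + 2 * i2) := by clear * - b1 b2 y17 z6 z8; omega
              have kk62 : (n + i + 2 * j + 2 * i2) ≤ (2 * Q + 3 * k + 2 * l) := by clear * - z10; omega
              have kk63 : (3 * k + 2 * l + 4) ≤ (n + i + 2 * i2) := by clear * - b1 b2 y17 z6 z8; omega
              have kk64 : (n + 2 * j + k) ≤ (i + 2 * i2 + 2 * l2) := by clear * - b0 b1 b2 y13 z6 z8; omega
              have kk65 : (i2) ≤ (k + l + 1) := by clear * - b3 z6 z7; omega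
              have kk66 : (i2) ≤ (k) := by clear * - v3; omega
              have kk67 : (2 * i2 + l2) ≤ (2 * k + 2 * l + 1) := by clear * - b0 b2 v3 y15 y21 z6 z8; linarith
              have kk68 : (2 * k + l) ≤ (2 * i2 + l2) := by clear * - b0 b1 b2 y1 y17 z6 z8; linarith
              have kk69 : (3 * k + 2 * l + 2) ≤ (n + j + 2 * i2) := by clear * - b1 b2 y1 y17 z6 z8; omega
              have r70 : (i + j) % 2 = 0 := by clear * - ev n1p n2p n3p; omega
              have r71 : (n + i + 2 * i2 - 3 * k - 2 * l - 2) % 2 = 0 := by clear * - ev n1p n2p n3p; omega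
              clear * - al s2 b c kk61 kk62 kk63 kk64 kk65 kk66 kk67 kk68 kk69 r70 r71
              exact midP al (n + i + 2 * i2 - 3 * k - 2 * l - 2) (i + j) (j + 1) (3 * k + 2 * l - n - 2 * i2 + 3) (i + 2 * i2 + l2 - 2 * k - l) (by omega) (fun t h1 h2 => (qa s2 al 0 t ((i + j) - t) (by omega))) (fun t h1 h2 => (cE (cE (pb c al (-1) t (t + (n + i2 - k - l - 1)) (by omega)) (pb c al 0 (t + (n + i2 - k - l - 1)) (t + (n + 2 * i2 - 2 * k - 2 * l - 2)) (by omega))) (pb b al 0 (t + (n + 2 * i2 - 2 * k - 2 * l - 2)) (t + (n + i + 2 * i2 - 3 * k - 2 * l - 2)) (by omega))))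
          · by_cases v4 : (i + i2) ≤ (j + k)
            · have kk72 : (n + 2 * i + j + 2 * i2) ≤ (2 * Q + 3 * k + 2 * l) := by clear * - b0 b2 y18 z6 z8; omega
              have kk73 : (j + 3 * k + 2 * l + 3) ≤ (n + 2 * i + 2 * i2) := by clear * - b0 b1 b2 y13 z6; omega
              have kk74 : (k + 2 * l + 2) ≤ (n + j) := by clear * - b1 b2 b3 y18 z10 z6 z7; linarith
              have kk75 : (k + l) ≤ (i2 + l2) := by clear * - y20; omega
              have kk76 : (Q) ≤ (i + l + 1) := by clear * - b3 b4 z6 z7; omega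
              have kk77 : (n + i) ≤ (k + l + l2 + 2) := by clear * - b0 b2 y18 z10 z6 z8; omega
              have kk78 : (i + i2) ≤ (j + k) := by clear * - v4; omega
              have kk79 : (i) ≤ (j) := by clear * - b0 b2 y18 z10 z6 z8; omega
              have r80 : (n + j + k) % 2 = 0 := by clear * - ev n1p n2p n3p; omega
              clear * - al s2 b c kk72 kk73 kk74 kk75 kk76 kk77 kk78 kk79 r80
              obtain ⟨t, ht⟩ : ∃ t, 2 * t = (n + j + k) := ⟨(n + j + k) / 2, by omega⟩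
              exact al.ninv t (cE (cE (cI (qf c al 0 t (t + (k + l - i2 + 1)) (by omega)) (ab s2 al 1 (t + (k + l - i2 + 1)) ((n + i + j + i2 - k - l - 1) - t) (by omega))) (qf b al 0 ((n + i + j + i2 - k - l - 1) - t) ((n + j + i2 - l - 1) - t) (by omega))) (qf c al 0 ((n + j + i2 - l - 1) - t) t (by omega)))
            · have kk81 : (n + 2 * i + j + 2 * i2) ≤ (2 * Q + 3 * k + 2 * l) := by clear * - b0 b2 y18 z6 z8; omega
              have kk82 : (k + 2 * l + 3) ≤ (n + j) := by clear * - b2 b3 v4 y18 z10 z6 z7 z9; linarith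
              have kk83 : (k + 2 * l + 2) ≤ (n + j) := by clear * - b2 b3 v4 y18 z10 z6 z7 z9; linarith
              have kk84 : (k + l) ≤ (i2 + l2) := by clear * - y20; omega
              have kk85 : (Q) ≤ (i + l + 1) := by clear * - b3 b4 z6 z7; omega
              have kk86 : (n + j) ≤ (l + i2 + l2 + 2) := by clear * - b0 b2 v4 y18 z10 z6 z8; linarith
              have kk87 : (k) ≤ (i2) := by clear * - b0 b2 v4 y18 z10 z6 z8; linarith
              have kk88 : (j + k) ≤ (i + i2) := by clear * - v4; omega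
              have r89 : (n + j + k) % 2 = 0 := by clear * - ev n1p n2p n3p; omega
              clear * - al s2 b c kk81 kk82 kk83 kk84 kk85 kk86 kk87 kk88 r89
              obtain ⟨t, ht⟩ : ∃ t, 2 * t = (n + j + k) := ⟨(n + j + k) / 2, by omega⟩
              exact al.ninv t (cE (cE (cI (qf c al 0 t (t + (k + l - i2 + 1)) (by omega)) (ab s2 al 1 (t + (k + l - i2 + 1)) ((n + i + j + i2 - k - l - 1) - t) (by omega))) (qf b al 0 ((n + i + j + i2 - k - l - 1) - t) ((n + j + i2 - l - 1) - t) (by omega))) (qf c al 0 ((n + j + i2 - l - 1) - t) t (by omega)))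
        · have kk90 : (2 * k + i2 + l2 + 2) ≤ (n + i + j + i3) := by clear * - y18 z9 ev n1p n2p n3p; omega
          have kk91 : (i + j + i3) ≤ (2 * k + i2 + l2) := by clear * - b0 b1 b2 b3 y18 z6 z7 z8 z9; linarith
          have kk92 : (i3) ≤ (k) := by clear * - b3 y21 z7; omega
          have kk93 : (i + j + 1) ≤ (k) := by clear * - b0 b1 b2 b3 y18 z6 z8; linarith
          have kk94 : (k) ≤ (i + l + 1) := by clear * - b0 b1 b2 b4 y18 z6 z8 z9; linarith
          have kk95 : (n + i + i3) ≤ (2 * k + i2 + l2 + 1) := by clear * - b0 b1 b2 b3 y18 y21 z8 z9; linarith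
          clear * - al a1 b D2 kk90 kk91 kk92 kk93 kk94 kk95
          exact al.ubP (n + i + j + i3 - 2 * k - i2 - l2 - 1) (by omega) (by omega) fun t h1 h2 => (cE (sh al 2 t (t + (2 * n)) (by omega)) (cE (cE (qf D2 al 1 (t + (2 * n)) (t + (n + i3 - i2 - l2 - 1)) (by omega)) (pb b al 0 (t + (n + i3 - i2 - l2 - 1)) (t + (n + i + i3 - k - i2 - l2 - 1)) (by omega))) (pb a1 al 0 (t + (n + i + i3 - k - i2 - l2 - 1)) (t + (n + i + j + i3 - 2 * k - i2 - l2 - 1)) (by omega))))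
    · have kk96 : (i2) ≤ (k + l) := by clear * - b2 y14 y18 y20 z7; omega
      have kk97 : (k + l + 2) ≤ (n + i2) := by clear * - b2 y19 z6; omega
      have kk98 : (Q + i2) ≤ (l + i3 + 2) := by clear * - b0 y1 z6 z7; omega
      clear * - al c mx hL kk96 kk97 kk98
      exact absurd (mx (i2 - n + 1) (i2 + l2 - n + 1) (k + l - i2 + 1) (by omega) (by omega) fun t h1 h2 => (cE (qf c al (-1) t (t + (n + k + l - i2 + 1)) (by omega)) (sh al (-1) (t + (n + k + l - i2 + 1)) (t + (k + l - i2 + 1)) (by omega)))) (by omega)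

theorem t3c_4 {W : ℤ → G} {n Q i j k l i2 l2 i3 : ℤ} (al : AL W n Q)
    (hy : (0) ≤ (i) ∧ (i) ≤ (j) ∧ (j + 1) ≤ (Q) ∧ (Q) ≤ (k) ∧ (k + 1) ≤ (n) ∧ (Q) ≤ (i + l + 1) ∧ (k + l + 2) ≤ (n) ∧ (Q) ≤ (i2) ∧ (i2) ≤ (i + l + 1) ∧ (Q) ≤ (i2 + l2 + 1) ∧ (i2 + l2 + 2) ≤ (n) ∧ (n) ≤ (k + l + l2 + 2) ∧ (k + l + l2 + 3) ≤ (n + Q) ∧ (0) ≤ (i3) ∧ (n + i3) ≤ (k + l + l2 + 2) ∧ (k + i2 + l2 + 2) ≤ (n + j + i3) ∧ (j + i3 + 1) ≤ (k) ∧ (k + i2 + l2 + 2) ≤ (n + i3) ∧ (i + 2 * i2 + 1) ≤ (2 * Q + k) ∧ (i + l + 1) ≤ (i2 + l2) ∧ (k + l) ≤ (i2 + l2) ∧ (i3 + 1) ≤ (i))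
    (a1 : Par W (0) (j) (k - j))
    (a2 : Par W (Q + j - k) (j) (k - j))
    (s1 : Ant W (0) (i) (i + j))
    (s2 : Ant W (j + 1) (Q) (i + j))
    (b : Par W (i + 1) (i + l + 1) (k - i))
    (tt : Ant W (Q) (i2) (i + l + i2 + 1))
    (c : Par W (i2 + 1) (i2 + l2 + 1) (k + l - i2 + 1))
    (u1 : Ant W (0) (i3) (k + l + l2 + i3 - n + 2))
    (u2 : Ant W (k + l + l2 - n + 3) (Q) (k + l + l2 + i3 - n + 2))
    (D1 : Par W (i3 + 1) (Q) (i2 + l2 - i3 + 1))
    (D2 : Par W (i2 + l2 + 2) (n) (i3 - i2 - l2 - 1))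
    {L : ℤ} (mx : ∀ a b g, 0 < g → g < n → Par W a b g → b - a ≤ L)
    (hL : L ≤ (n - j - 3) ∧ L ≤ (n + Q - k - 3) ∧ L ≤ (n - l - 3) ∧ L ≤ (n + i - k - 2) ∧ L ≤ (n - l2 - 3) ∧ L ≤ (n + i3 - Q - 2) ∧ L ≤ (i2 + l2 - 1) ∧ L ≤ (n + i2 - k - l - 3) ∧ L ≤ (Q + i2 + l2 - l - i3 - 3))
    (bd0 : Bd W n L (j) (i) (k))
    (bd2 : Bd W n L (k + l + l2 - n + 2) (i3) (i2 + l2 + 1))
    (n1 : Nd W (j) (i) (k))
    (n2 : Nd W (i + l + 1) (i2) (k + l + 1))
    (n3 : Nd W (k + l + l2 - n + 2) (i3) (i2 + l2 + 1))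
    (b0 : (2 * i + j + 1) ≤ (k))
    (b1 : (k + 2 * l + i3 + 2) ≤ (2 * i2 + l2))
    (b2 : (2 * l2 + 3) ≤ (n))
    (b3 : (2 * Q + i2) ≤ (k + l + 2 * i3 + 1)) : False := by
  have ev := al.ev
  obtain ⟨y0, y1, y2, y3, y4, y5, y6, y7, y8, y9, y10, y11, y12, y13, y14, y15, y16, y17, y18, y19, y20, y21⟩ := id hy
  have n1p := And.intro n1.p1 n1.p2
  have n2p := And.intro n2.p1 n2.p2
  have n3p := And.intro n3.p1 n3.p2
  by_cases z5 : (2 * Q + k) ≤ (2 * i + l + i2 + 1)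
  · exact t3c_5 al hy a1 a2 s1 s2 b tt c u1 u2 D1 D2 mx hL bd0 bd2 n1 n2 n3 (by clear * - b0; omega) (by clear * - b1; omega) (by clear * - b2; omega) (by clear * - b3; omega) (by clear * - z5; omega)
  · exact t3c_6 al hy a1 a2 s1 s2 b tt c u1 u2 D1 D2 mx hL bd0 bd2 n1 n2 n3 (by clear * - b0; omega) (by clear * - b1; omega) (by clear * - b2; omega) (by clear * - b3; omega) (by clear * - z5; omega)

theorem t3c_3 {W : ℤ → G} {n Q i j k l i2 l2 i3 : ℤ} (al : AL W n Q)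
    (hy : (0) ≤ (i) ∧ (i) ≤ (j) ∧ (j + 1) ≤ (Q) ∧ (Q) ≤ (k) ∧ (k + 1) ≤ (n) ∧ (Q) ≤ (i + l + 1) ∧ (k + l + 2) ≤ (n) ∧ (Q) ≤ (i2) ∧ (i2) ≤ (i + l + 1) ∧ (Q) ≤ (i2 + l2 + 1) ∧ (i2 + l2 + 2) ≤ (n) ∧ (n) ≤ (k + l + l2 + 2) ∧ (k + l + l2 + 3) ≤ (n + Q) ∧ (0) ≤ (i3) ∧ (n + i3) ≤ (k + l + l2 + 2) ∧ (k + i2 + l2 + 2) ≤ (n + j + i3) ∧ (j + i3 + 1) ≤ (k) ∧ (k + i2 + l2 + 2) ≤ (n + i3) ∧ (i + 2 * i2 + 1) ≤ (2 * Q + k) ∧ (i + l + 1) ≤ (i2 + l2) ∧ (k + l) ≤ (i2 + l2) ∧ (i3 + 1) ≤ (i))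
    (a1 : Par W (0) (j) (k - j))
    (a2 : Par W (Q + j - k) (j) (k - j))
    (s1 : Ant W (0) (i) (i + j))
    (s2 : Ant W (j + 1) (Q) (i + j))
    (b : Par W (i + 1) (i + l + 1) (k - i))
    (tt : Ant W (Q) (i2) (i + l + i2 + 1))
    (c : Par W (i2 + 1) (i2 + l2 + 1) (k + l - i2 + 1))
    (u1 : Ant W (0) (i3) (k + l + l2 + i3 - n + 2))
    (u2 : Ant W (k + l + l2 - n + 3) (Q) (k + l + l2 + i3 - n + 2))
    (D1 : Par W (i3 + 1) (Q) (i2 + l2 - i3 + 1))
    (D2 : Par W (i2 + l2 + 2) (n) (i3 - i2 - l2 - 1))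
    {L : ℤ} (mx : ∀ a b g, 0 < g → g < n → Par W a b g → b - a ≤ L)
    (hL : L ≤ (n - j - 3) ∧ L ≤ (n + Q - k - 3) ∧ L ≤ (n - l - 3) ∧ L ≤ (n + i - k - 2) ∧ L ≤ (n - l2 - 3) ∧ L ≤ (n + i3 - Q - 2) ∧ L ≤ (i2 + l2 - 1) ∧ L ≤ (n + i2 - k - l - 3) ∧ L ≤ (Q + i2 + l2 - l - i3 - 3))
    (bd0 : Bd W n L (j) (i) (k))
    (bd2 : Bd W n L (k + l + l2 - n + 2) (i3) (i2 + l2 + 1))
    (n1 : Nd W (j) (i) (k))
    (n2 : Nd W (i + l + 1) (i2) (k + l + 1))
    (n3 : Nd W (k + l + l2 - n + 2) (i3) (i2 + l2 + 1))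
    (b0 : (2 * i + j + 1) ≤ (k))
    (b1 : (k + 2 * l + i3 + 2) ≤ (2 * i2 + l2))
    (b2 : (2 * l2 + 3) ≤ (n)) : False := by
  have ev := al.ev
  obtain ⟨y0, y1, y2, y3, y4, y5, y6, y7, y8, y9, y10, y11, y12, y13, y14, y15, y16, y17, y18, y19, y20, y21⟩ := id hy
  have n1p := And.intro n1.p1 n1.p2
  have n2p := And.intro n2.p1 n2.p2
  have n3p := And.intro n3.p1 n3.p2
  by_cases z4 : (k + l + 2 * i3 + 2) ≤ (2 * Q + i2)
  · have kk27 : (k + l + i2 + 2 * l2 + 5) ≤ (2 * n + 2 * i3) := by clear * - y13 y17 y3 z4; omega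
    have kk28 : (k + l + 2 * i3 + 2) ≤ (2 * Q + i2) := by clear * - z4; omega
    have kk29 : (n + i3) ≤ (k + l + l2 + 2) := by clear * - y14; omega
    have r30 : (k + l + i2 + 2 * l2 - 2 * n + 3) % 2 = 0 := by clear * - ev n1p n2p n3p; omega
    clear * - al u2 D1 kk27 kk28 kk29 r30
    obtain ⟨t, ht⟩ : ∃ t, 2 * t = (k + l + i2 + 2 * l2 - 2 * n + 3) := ⟨(k + l + i2 + 2 * l2 - 2 * n + 3) / 2, by omega⟩
    exact al.ninv t (cI (pb D1 al (-1) t (t + (n + i3 - i2 - l2 - 1)) (by omega)) (qa u2 al 0 (t + (n + i3 - i2 - l2 - 1)) t (by omega)))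
  · exact t3c_4 al hy a1 a2 s1 s2 b tt c u1 u2 D1 D2 mx hL bd0 bd2 n1 n2 n3 (by clear * - b0; omega) (by clear * - b1; omega) (by clear * - b2; omega) (by clear * - z4; omega)

theorem t3c_2 {W : ℤ → G} {n Q i j k l i2 l2 i3 : ℤ} (al : AL W n Q)
    (hy : (0) ≤ (i) ∧ (i) ≤ (j) ∧ (j + 1) ≤ (Q) ∧ (Q) ≤ (k) ∧ (k + 1) ≤ (n) ∧ (Q) ≤ (i + l + 1) ∧ (k + l + 2) ≤ (n) ∧ (Q) ≤ (i2) ∧ (i2) ≤ (i + l + 1) ∧ (Q) ≤ (i2 + l2 + 1) ∧ (i2 + l2 + 2) ≤ (n) ∧ (n) ≤ (k + l + l2 + 2) ∧ (k + l + l2 + 3) ≤ (n + Q) ∧ (0) ≤ (i3) ∧ (n + i3) ≤ (k + l + l2 + 2) ∧ (k + i2 + l2 + 2) ≤ (n + j + i3) ∧ (j + i3 + 1) ≤ (k) ∧ (k + i2 + l2 + 2) ≤ (n + i3) ∧ (i + 2 * i2 + 1) ≤ (2 * Q + k) ∧ (i + l + 1) ≤ (i2 + l2) ∧ (k + l) ≤ (i2 + l2) ∧ (i3 + 1) ≤ (i))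
    (a1 : Par W (0) (j) (k - j))
    (a2 : Par W (Q + j - k) (j) (k - j))
    (s1 : Ant W (0) (i) (i + j))
    (s2 : Ant W (j + 1) (Q) (i + j))
    (b : Par W (i + 1) (i + l + 1) (k - i))
    (tt : Ant W (Q) (i2) (i + l + i2 + 1))
    (c : Par W (i2 + 1) (i2 + l2 + 1) (k + l - i2 + 1))
    (u1 : Ant W (0) (i3) (k + l + l2 + i3 - n + 2))
    (u2 : Ant W (k + l + l2 - n + 3) (Q) (k + l + l2 + i3 - n + 2))
    (D1 : Par W (i3 + 1) (Q) (i2 + l2 - i3 + 1))
    (D2 : Par W (i2 + l2 + 2) (n) (i3 - i2 - l2 - 1))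
    {L : ℤ} (mx : ∀ a b g, 0 < g → g < n → Par W a b g → b - a ≤ L)
    (hL : L ≤ (n - j - 3) ∧ L ≤ (n + Q - k - 3) ∧ L ≤ (n - l - 3) ∧ L ≤ (n + i - k - 2) ∧ L ≤ (n - l2 - 3) ∧ L ≤ (n + i3 - Q - 2) ∧ L ≤ (i2 + l2 - 1) ∧ L ≤ (n + i2 - k - l - 3) ∧ L ≤ (Q + i2 + l2 - l - i3 - 3))
    (bd0 : Bd W n L (j) (i) (k))
    (bd2 : Bd W n L (k + l + l2 - n + 2) (i3) (i2 + l2 + 1))
    (n1 : Nd W (j) (i) (k))
    (n2 : Nd W (i + l + 1) (i2) (k + l + 1))
    (n3 : Nd W (k + l + l2 - n + 2) (i3) (i2 + l2 + 1))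
    (b0 : (2 * i + j + 1) ≤ (k))
    (b1 : (k + 2 * l + i3 + 2) ≤ (2 * i2 + l2)) : False := by
  have ev := al.ev
  obtain ⟨y0, y1, y2, y3, y4, y5, y6, y7, y8, y9, y10, y11, y12, y13, y14, y15, y16, y17, y18, y19, y20, y21⟩ := id hy
  have n1p := And.intro n1.p1 n1.p2
  have n2p := And.intro n2.p1 n2.p2
  have n3p := And.intro n3.p1 n3.p2
  by_cases z3 : (n) ≤ (2 * l2 + 2)
  · have kk24 : (i2) ≤ (k + l) := by clear * - b0 y13 y14 y15 y21; omega
    have kk25 : (k + l + 2) ≤ (n + i2) := by clear * - y12 y9; omega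
    have kk26 : (n) ≤ (2 * l2 + 2) := by clear * - z3; omega
    clear * - al c mx hL kk24 kk25 kk26
    exact absurd (mx (i2 - n + 1) (i2 + l2 - n + 1) (k + l - i2 + 1) (by omega) (by omega) fun t h1 h2 => (cE (qf c al (-1) t (t + (n + k + l - i2 + 1)) (by omega)) (sh al (-1) (t + (n + k + l - i2 + 1)) (t + (k + l - i2 + 1)) (by omega)))) (by omega)
  · exact t3c_3 al hy a1 a2 s1 s2 b tt c u1 u2 D1 D2 mx hL bd0 bd2 n1 n2 n3 (by clear * - b0; omega) (by clear * - b1; omega) (by clear * - z3; omega)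

theorem t3c_1 {W : ℤ → G} {n Q i j k l i2 l2 i3 : ℤ} (al : AL W n Q)
    (hy : (0) ≤ (i) ∧ (i) ≤ (j) ∧ (j + 1) ≤ (Q) ∧ (Q) ≤ (k) ∧ (k + 1) ≤ (n) ∧ (Q) ≤ (i + l + 1) ∧ (k + l + 2) ≤ (n) ∧ (Q) ≤ (i2) ∧ (i2) ≤ (i + l + 1) ∧ (Q) ≤ (i2 + l2 + 1) ∧ (i2 + l2 + 2) ≤ (n) ∧ (n) ≤ (k + l + l2 + 2) ∧ (k + l + l2 + 3) ≤ (n + Q) ∧ (0) ≤ (i3) ∧ (n + i3) ≤ (k + l + l2 + 2) ∧ (k + i2 + l2 + 2) ≤ (n + j + i3) ∧ (j + i3 + 1) ≤ (k) ∧ (k + i2 + l2 + 2) ≤ (n + i3) ∧ (i + 2 * i2 + 1) ≤ (2 * Q + k) ∧ (i + l + 1) ≤ (i2 + l2) ∧ (k + l) ≤ (i2 + l2) ∧ (i3 + 1) ≤ (i))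
    (a1 : Par W (0) (j) (k - j))
    (a2 : Par W (Q + j - k) (j) (k - j))
    (s1 : Ant W (0) (i) (i + j))
    (s2 : Ant W (j + 1) (Q) (i + j))
    (b : Par W (i + 1) (i + l + 1) (k - i))
    (tt : Ant W (Q) (i2) (i + l + i2 + 1))
    (c : Par W (i2 + 1) (i2 + l2 + 1) (k + l - i2 + 1))
    (u1 : Ant W (0) (i3) (k + l + l2 + i3 - n + 2))
    (u2 : Ant W (k + l + l2 - n + 3) (Q) (k + l + l2 + i3 - n + 2))
    (D1 : Par W (i3 + 1) (Q) (i2 + l2 - i3 + 1))
    (D2 : Par W (i2 + l2 + 2) (n) (i3 - i2 - l2 - 1))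
    {L : ℤ} (mx : ∀ a b g, 0 < g → g < n → Par W a b g → b - a ≤ L)
    (hL : L ≤ (n - j - 3) ∧ L ≤ (n + Q - k - 3) ∧ L ≤ (n - l - 3) ∧ L ≤ (n + i - k - 2) ∧ L ≤ (n - l2 - 3) ∧ L ≤ (n + i3 - Q - 2) ∧ L ≤ (i2 + l2 - 1) ∧ L ≤ (n + i2 - k - l - 3) ∧ L ≤ (Q + i2 + l2 - l - i3 - 3))
    (bd0 : Bd W n L (j) (i) (k))
    (bd2 : Bd W n L (k + l + l2 - n + 2) (i3) (i2 + l2 + 1))
    (n1 : Nd W (j) (i) (k))
    (n2 : Nd W (i + l + 1) (i2) (k + l + 1))
    (n3 : Nd W (k + l + l2 - n + 2) (i3) (i2 + l2 + 1))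
    (b0 : (2 * i + j + 1) ≤ (k)) : False := by
  have ev := al.ev
  obtain ⟨y0, y1, y2, y3, y4, y5, y6, y7, y8, y9, y10, y11, y12, y13, y14, y15, y16, y17, y18, y19, y20, y21⟩ := id hy
  have n1p := And.intro n1.p1 n1.p2
  have n2p := And.intro n2.p1 n2.p2
  have n3p := And.intro n3.p1 n3.p2
  by_cases z2 : (2 * i2 + l2) ≤ (k + 2 * l + i3 + 1)
  · have kk15 : (i + 1) ≤ (k) := by clear * - y18 y7; omega
    have kk16 : (k + l + i3 + 1) ≤ (2 * i2 + l2) := by clear * - y12 y14 y20 y7; omega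
    have kk17 : (2 * i2 + l2) ≤ (k + 2 * l + i3 + 1) := by clear * - z2; omega
    have kk18 : (i3 + 1) ≤ (i) := by clear * - y21; omega
    have kk19 : (k + i2 + l2 + 1) ≤ (n + i3) := by clear * - y17; omega
    have kk20 : (k + l) ≤ (i2 + l2) := by clear * - y20; omega
    have kk21 : (n) ≤ (k + l + l2 + 2) := by clear * - y13 y14; omega
    have r22 : (k - i) % 2 = 0 := by clear * - ev n1p n2p n3p; omega
    have r23 : (2 * i2 + l2 - k - l - i3) % 2 = 0 := by clear * - ev n1p n2p n3p; omega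
    clear * - al b c D2 n1 kk15 kk16 kk17 kk18 kk19 kk20 kk21 r22 r23
    exact n1.f1 (rEE (sh al (-1) (i) (i - n) (by omega)) (sh al (-1) (k) (k - n) (by omega)) (rotL (k - i) (2 * i2 + l2 - k - l - i3) (i - n) (k - n) (by omega) (fun t h1 h2 => (cE (qf b al (-1) t (t + (n + k - i)) (by omega)) (sh al (-1) (t + (n + k - i)) (t + (k - i)) (by omega)))) (fun t h1 h2 => (cE (cE (pb D2 al (-1) t (t + (n + i2 + l2 - i3 + 1)) (by omega)) (pb c al 0 (t + (n + i2 + l2 - i3 + 1)) (t + (n + 2 * i2 + l2 - k - l - i3)) (by omega))) (sh al (-1) (t + (n + 2 * i2 + l2 - k - l - i3)) (t + (2 * i2 + l2 - k - l - i3)) (by omega))))))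
  · exact t3c_2 al hy a1 a2 s1 s2 b tt c u1 u2 D1 D2 mx hL bd0 bd2 n1 n2 n3 (by clear * - b0; omega) (by clear * - z2; omega)

theorem t3c {W : ℤ → G} {n Q i j k l i2 l2 i3 : ℤ} (al : AL W n Q)
    (hy : (0) ≤ (i) ∧ (i) ≤ (j) ∧ (j + 1) ≤ (Q) ∧ (Q) ≤ (k) ∧ (k + 1) ≤ (n) ∧ (Q) ≤ (i + l + 1) ∧ (k + l + 2) ≤ (n) ∧ (Q) ≤ (i2) ∧ (i2) ≤ (i + l + 1) ∧ (Q) ≤ (i2 + l2 + 1) ∧ (i2 + l2 + 2) ≤ (n) ∧ (n) ≤ (k + l + l2 + 2) ∧ (k + l + l2 + 3) ≤ (n + Q) ∧ (0) ≤ (i3) ∧ (n + i3) ≤ (k + l + l2 + 2) ∧ (k + i2 + l2 + 2) ≤ (n + j + i3) ∧ (j + i3 + 1) ≤ (k) ∧ (k + i2 + l2 + 2) ≤ (n + i3) ∧ (i + 2 * i2 + 1) ≤ (2 * Q + k) ∧ (i + l + 1) ≤ (i2 + l2) ∧ (k + l) ≤ (i2 + l2) ∧ (i3 + 1) ≤ (i))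
    (a1 : Par W (0) (j) (k - j))
    (a2 : Par W (Q + j - k) (j) (k - j))
    (s1 : Ant W (0) (i) (i + j))
    (s2 : Ant W (j + 1) (Q) (i + j))
    (b : Par W (i + 1) (i + l + 1) (k - i))
    (tt : Ant W (Q) (i2) (i + l + i2 + 1))
    (c : Par W (i2 + 1) (i2 + l2 + 1) (k + l - i2 + 1))
    (u1 : Ant W (0) (i3) (k + l + l2 + i3 - n + 2))
    (u2 : Ant W (k + l + l2 - n + 3) (Q) (k + l + l2 + i3 - n + 2))
    (D1 : Par W (i3 + 1) (Q) (i2 + l2 - i3 + 1))
    (D2 : Par W (i2 + l2 + 2) (n) (i3 - i2 - l2 - 1))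
    {L : ℤ} (mx : ∀ a b g, 0 < g → g < n → Par W a b g → b - a ≤ L)
    (hL : L ≤ (n - j - 3) ∧ L ≤ (n + Q - k - 3) ∧ L ≤ (n - l - 3) ∧ L ≤ (n + i - k - 2) ∧ L ≤ (n - l2 - 3) ∧ L ≤ (n + i3 - Q - 2) ∧ L ≤ (i2 + l2 - 1) ∧ L ≤ (n + i2 - k - l - 3) ∧ L ≤ (Q + i2 + l2 - l - i3 - 3))
    (bd0 : Bd W n L (j) (i) (k))
    (bd2 : Bd W n L (k + l + l2 - n + 2) (i3) (i2 + l2 + 1))
    (n1 : Nd W (j) (i) (k))
    (n2 : Nd W (i + l + 1) (i2) (k + l + 1))
    (n3 : Nd W (k + l + l2 - n + 2) (i3) (i2 + l2 + 1)) : False := by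
  have ev := al.ev
  obtain ⟨y0, y1, y2, y3, y4, y5, y6, y7, y8, y9, y10, y11, y12, y13, y14, y15, y16, y17, y18, y19, y20, y21⟩ := id hy
  have n1p := And.intro n1.p1 n1.p2
  have n2p := And.intro n2.p1 n2.p2
  have n3p := And.intro n3.p1 n3.p2
  by_cases z1 : (k) ≤ (2 * i + j)
  · by_cases v1 : (i + j + 1) ≤ (k)
    · have kk1 : (j + 1) ≤ (k) := by clear * - v1 z1; omega
      have kk2 : (k) ≤ (2 * i + j) := by clear * - z1; omega
      have kk3 : (k) ≤ (2 * i + 3 * j + 2) := by clear * - v1 y1 z1; omega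
      have kk4 : (0) ≤ (j + k) := by clear * - y18 y7 z1; omega
      have kk5 : (i + j + 1) ≤ (k) := by clear * - v1; omega
      have r6 : (i + j) % 2 = 0 := by clear * - ev n1p n2p n3p; omega
      have r7 : (k - j) % 2 = 0 := by clear * - ev n1p n2p n3p; omega
      clear * - al a1 s1 kk1 kk2 kk3 kk4 kk5 r6 r7
      exact midP al (k - j) (i + j) (0) (0) (k) (by omega) (fun t h1 h2 => (qa s1 al 0 t ((i + j) - t) (by omega))) (fun t h1 h2 => (qf a1 al 0 t (t + (k - j)) (by omega)))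
    · have kk8 : (j + 1) ≤ (k) := by clear * - y13 y16; omega
      have kk9 : (j + 2) ≤ (k) := by clear * - y13 y16 ev n1p n2p n3p; omega
      have kk10 : (0) ≤ (j + k) := by clear * - y18 y7 z1; omega
      have kk11 : (2 * i + j + 2) ≤ (3 * k) := by clear * - y13 y16 y18 y7; omega
      have kk12 : (k) ≤ (i + j + 1) := by clear * - v1; omega
      have r13 : (i + j) % 2 = 0 := by clear * - ev n1p n2p n3p; omega
      have r14 : (k - j) % 2 = 0 := by clear * - ev n1p n2p n3p; omega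
      clear * - al a1 s1 kk8 kk9 kk10 kk11 kk12 r13 r14
      exact midP al (k - j) (i + j) (i + j - k + 1) (0) (k) (by omega) (fun t h1 h2 => (qa s1 al 0 t ((i + j) - t) (by omega))) (fun t h1 h2 => (qf a1 al 0 t (t + (k - j)) (by omega)))
  · exact t3c_1 al hy a1 a2 s1 s2 b tt c u1 u2 D1 D2 mx hL bd0 bd2 n1 n2 n3 (by clear * - z1; omega)

end Pool.Agent.MP_a38735_al.WL
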