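import Pool.Agent.MP_a38735_al.Zw12

set_option autoImplicit false
set_option linter.unusedVariables false

namespace Pool.Agent.MP_a38735_al.WL

variable {G : Type*} [Group G]

theorem t4_20 {W : ℤ → G} {n Q i j k l i2 l2 i3 : ℤ} (al : AL W n Q)
    (hy : (0) ≤ (i) ∧ (i) ≤ (j) ∧ (j + 1) ≤ (Q) ∧ (Q) ≤ (k) ∧ (k + 1) ≤ (n) ∧ (Q) ≤ (i + l + 1) ∧ (k + l + 2) ≤ (n) ∧ (Q) ≤ (i2) ∧ (i2) ≤ (i + l + 1) ∧ (Q) ≤ (i2 + l2 + 1) ∧ (i2 + l2 + 2) ≤ (n) ∧ (n) ≤ (k + l + l2 + 2) ∧ (k + l + l2 + 3) ≤ (n + Q) ∧ (0) ≤ (i3) ∧ (n + i3) ≤ (k + l + l2 + 2) ∧ (k + i2 + l2 + 2) ≤ (n + j + i3) ∧ (j + i3 + 1) ≤ (k) ∧ (k + i2 + l2 + 2) ≤ (n + i3) ∧ (i + 2 * i2 + 1) ≤ (2 * Q + k) ∧ (i + l + 1) ≤ (i2 + l2) ∧ (i2 + l2 + 1) ≤ (k + l) ∧ (i) ≤ (i3) ∧ (i3) ≤ (i))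
    (a1 : Par W (0) (j) (k - j))
    (a2 : Par W (Q + j - k) (j) (k - j))
    (s1 : Ant W (0) (i) (i + j))
    (s2 : Ant W (j + 1) (Q) (i + j))
    (b : Par W (i + 1) (i + l + 1) (k - i))
    (tt : Ant W (Q) (i2) (i + l + i2 + 1))
    (c : Par W (i2 + 1) (i2 + l2 + 1) (k + l - i2 + 1))
    (u1 : Ant W (0) (i3) (k + l + l2 + i3 - n + 2))
    (u2 : Ant W (k + l + l2 - n + 3) (Q) (k + l + l2 + i3 - n + 2))
    (D1 : Par W (i3 + 1) (Q) (i2 + l2 - i3 + 1))
    (D2 : Par W (i2 + l2 + 2) (n) (i3 - i2 - l2 - 1))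
    {L : ℤ} (mx : ∀ a b g, 0 < g → g < n → Par W a b g → b - a ≤ L)
    (hL : L ≤ (n - j - 3) ∧ L ≤ (n + Q - k - 3) ∧ L ≤ (n - l - 3) ∧ L ≤ (n + i - k - 2) ∧ L ≤ (n - l2 - 3) ∧ L ≤ (n + i3 - Q - 2) ∧ L ≤ (i2 + l2 - 1) ∧ L ≤ (n + i2 - k - l - 3))
    (bd0 : Bd W n L (j) (i) (k))
    (bd2 : Bd W n L (k + l + l2 - n + 2) (i3) (i2 + l2 + 1))
    (n1 : Nd W (j) (i) (k))
    (n2 : Nd W (i + l + 1) (i2) (k + l + 1))
    (n3 : Nd W (k + l + l2 - n + 2) (i3) (i2 + l2 + 1))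
    (b0 : (2 * l + 3) ≤ (n))
    (b1 : (2 * i + j + 1) ≤ (k))
    (b2 : (n + 2 * Q) ≤ (i + l + i2 + 2 * l2 + 4))
    (b3 : (k + l + i3 + 1) ≤ (2 * i2 + l2))
    (b4 : (i + 2 * k + 2 * l + 3) ≤ (n + 2 * Q + j))
    (b5 : (n + 2 * i + i2) ≤ (j + 2 * k + l + 2)) : False := by
  have ev := al.ev
  obtain ⟨y0, y1, y2, y3, y4, y5, y6, y7, y8, y9, y10, y11, y12, y13, y14, y15, y16, y17, y18, y19, y20, y21, y22⟩ := id hy
  have n1p := And.intro n1.p1 n1.p2
  have n2p := And.intro n2.p1 n2.p2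
  have n3p := And.intro n3.p1 n3.p2
  by_cases z48 : (3 * k + 2 * l + i3 + 2) ≤ (n + 2 * i + 2 * i2 + l2)
  · by_cases z49 : (n + i + 2 * i2) ≤ (2 * k + 2 * l + i3 + 2)
    · have kk651 : (2 * k + l + 2) ≤ (n + i + i2) := by clear * - y20 y21 z48; omega
      have kk652 : (n + i) ≤ (k + l + l2 + 1) := by clear * - b3 z49; omega
      have kk653 : (n + 2 * i + i2) ≤ (3 * k + l) := by clear * - b0 b5 y2 y22 y7 z49; omega
      have kk654 : (k + l + i3 + 1) ≤ (2 * i2 + l2) := by clear * - b3; omega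
      have kk655 : (n + i + 2 * i2) ≤ (2 * k + 2 * l + i3 + 2) := by clear * - z49; omega
      have kk656 : (3 * k + 2 * l + i3 + 2) ≤ (n + 2 * i + 2 * i2 + l2) := by clear * - z48; omega
      have kk657 : (k + i2 + l2 + 1) ≤ (n + i3) := by clear * - y17; omega
      have kk658 : (i2) ≤ (k) := by clear * - b0 y22 z49; omega
      have kk659 : (i2 + l2) ≤ (k + l) := by clear * - y20; omega
      have kk660 : (n) ≤ (k + l + l2 + 2) := by clear * - b3 y13 y22 z49; omega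
      have kk661 : (2 * k + l + 1) ≤ (n + i + i2) := by clear * - y20 y21 z48; omega
      have kk662 : (k + l2 + 1) ≤ (n + i) := by clear * - y20 y21 z48; omega
      have r663 : (3 * k + l - n - 2 * i - i2 + 1) % 2 = 0 := by clear * - ev n1p n2p n3p; omega
      have r664 : (2 * i2 + l2 - k - l - i3) % 2 = 0 := by clear * - ev n1p n2p n3p; omega
      clear * - al b c D2 n1 kk651 kk652 kk653 kk654 kk655 kk656 kk657 kk658 kk659 kk660 kk661 kk662 r663 r664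
      exact n1.f1 (rEE (cE (qf (show Par W (2 * k + l - i2 + 2) (k + l + l2 + 2) (n + i + i2 - 2 * k - l - 1) from fun t h1 h2 => (cE (sh al (-1) t (t + (-n)) (by omega)) (cE (cE (pb c al (-1) (t + (-n)) (t + (i2 - k - l - 1)) (by omega)) (pb b al 0 (t + (i2 - k - l - 1)) (t + (i + i2 - 2 * k - l - 1)) (by omega))) (sh al 1 (t + (i + i2 - 2 * k - l - 1)) (t + (n + i + i2 - 2 * k - l - 1)) (by omega))))) al (-1) (i) (2 * n + 2 * i + i2 - 2 * k - l - 1) (by omega)) (sh al (-1) (2 * n + 2 * i + i2 - 2 * k - l - 1) (n + 2 * i + i2 - 2 * k - l - 1) (by omega))) (sh al 0 (k) (k) (by omega)) (rotL (3 * k + l - n - 2 * i - i2 + 1) (2 * i2 + l2 - k - l - i3) (n + 2 * i + i2 - 2 * k - l - 1) (k) (by omega) (fun t h1 h2 => (cE (pb (show Par W (2 * k + l - i2 + 2) (k + l + l2 + 2) (n + i + i2 - 2 * k - l - 1) from fun t h1 h2 => (cE (sh al (-1) t (t + (-n)) (by omega)) (cE (cE (pb c al (-1) (t + (-n)) (t + (i2 - k -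 l - 1)) (by omega)) (pb b al 0 (t + (i2 - k - l - 1)) (t + (i + i2 - 2 * k - l - 1)) (by omega))) (sh al 1 (t + (i + i2 - 2 * k - l - 1)) (t + (n + i + i2 - 2 * k - l - 1)) (by omega))))) al (-1) t (t + (2 * k + l - i - i2 + 1)) (by omega)) (qf b al 1 (t + (2 * k + l - i - i2 + 1)) (t + (3 * k + l - n - 2 * i - i2 + 1)) (by omega)))) (fun t h1 h2 => (qf (show Par W (k + l + i3 - i2 - l2 + 1) (n + i3 - i2 - l2 - 1) (2 * i2 + l2 - k - l - i3) from fun t h1 h2 => (cE (sh al (-1) t (t + (-n)) (by omega)) (cE (pb D2 al (-1) (t + (-n)) (t + (i2 + l2 - i3 + 1)) (by omega)) (pb c al 0 (t + (i2 + l2 - i3 + 1)) (t + (2 * i2 + l2 - k - l - i3)) (by omega))))) al 0 t (t + (2 * i2 + l2 - k - l - i3)) (by omega)))))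
    · have kk665 : (j + l + 2 * i3 + 3) ≤ (2 * Q + i2) := by clear * - b5 y2 y22 z49; omega
      have kk666 : (l + 2 * i3 + 2) ≤ (j + i2) := by clear * - b5 y22 z49 ev n1p n2p n3p; omega
      have kk667 : (Q + i2) ≤ (j + l + 2 * i3 + 2) := by clear * - b2 b3 b5 y13 y17 y22; omega
      have kk668 : (Q + i2) ≤ (k + l + i3 + 1) := by clear * - b1 b2 b3 b5 y13 y17 y22; linarith
      have kk669 : (k + i2 + l2 + 1) ≤ (n + i3) := by clear * - y17; omega
      have kk670 : (k + i2 + l2 + 1) ≤ (n + 2 * i3) := by clear * - y13 y17; omega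
      have r671 : (j + l + 2 * i3 - 2 * n - i2 + 1) % 2 = 0 := by clear * - ev n1p n2p n3p; omega
      clear * - al a1 u2 D2 kk665 kk666 kk667 kk668 kk669 kk670 r671
      obtain ⟨t, ht⟩ : ∃ t, 2 * t = (j + l + 2 * i3 - 2 * n - i2 + 1) := ⟨(j + l + 2 * i3 - 2 * n - i2 + 1) / 2, by omega⟩
      exact al.ninv t (cE (cI (cE (qf a1 al (-1) t (t + (n + k - j)) (by omega)) (pb D2 al 0 (t + (n + k - j)) (t + (n + k + i2 + l2 - j - i3 + 1)) (by omega))) (ab u2 al 1 (t + (n + k + i2 + l2 - j - i3 + 1)) ((j + l + 2 * i3 - n - i2 + 1) - t) (by omega))) (sh al (-1) ((j + l + 2 * i3 - n - i2 + 1) - t) t (by omega)))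
  · by_cases z50 : (i2) ≤ (Q)
    · by_cases z51 : (2 * k + l + 1) ≤ (n + i + j)
      · have kk672 : (i2 + 1) ≤ (k) := by clear * - b0 b2 y20 y22 z48 z50; omega
        have kk673 : (2 * k + l + 2) ≤ (n + i2) := by clear * - b3 y17; omega
        have kk674 : (j + 1) ≤ (k) := by clear * - b1 y13 y22; omega
        have kk675 : (0) ≤ (j) := by clear * - b3 y13 y22 z48 z51; omega
        have kk676 : (2 * i2 + l2) ≤ (2 * k + l + i3) := by clear * - b1 y13 y22 z48 z51; omega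
        have kk677 : (k + l + i3 + 1) ≤ (2 * i2 + l2) := by clear * - b3; omega
        have kk678 : (i2) ≤ (Q) := by clear * - z50; omega
        have kk679 : (i2 + l2) ≤ (k + l) := by clear * - y20; omega
        have kk680 : (n) ≤ (k + l + l2 + 2) := by clear * - b2 b3 y13 y20 y22 z48 z50; linarith
        have kk681 : (i2) ≤ (k) := by clear * - b0 b2 y20 y22 z48 z50; omega
        have kk682 : (n + i) ≤ (k + l + l2 + 2) := by clear * - b2 b3 y20 y21 z48 z50; omega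
        have kk683 : (Q + 2 * k + l + 1) ≤ (n + i + j + i2) := by clear * - y7 z51; omega
        have kk684 : (i2 + l2) ≤ (k + l + i3 + 1) := by clear * - y13 y20; omega
        have kk685 : (0) ≤ (i2 + 1) := by clear * - b3 y13 y20; omega
        have kk686 : (k + l + i3) ≤ (2 * i2 + l2) := by clear * - b3; omega
        have kk687 : (2 * k + l + 1) ≤ (n + i2) := by clear * - b3 y17; omega
        have kk688 : (0) ≤ (j + 1) := by clear * - b3 y13 y22 z48 z51; omega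
        have kk689 : (n + 2 * i + i2) ≤ (3 * k + l + 1) := by clear * - b0 b2 b3 y20 y22 z48 z50; linarith
        have kk690 : (Q) ≤ (k) := by clear * - b0 b2 y20 y22 y7 z48; omega
        have kk691 : (Q + 2 * k + l) ≤ (n + 2 * i + j + i2) := by clear * - y13 y22 y7 z51; omega
        have r692 : (2 * i2 + l2 - k - l - i3) % 2 = 0 := by clear * - ev n1p n2p n3p; omega
        have r693 : (k - j) % 2 = 0 := by clear * - ev n1p n2p n3p; omega
        have r694 : (n + 2 * i + j + i2 - 2 * k - l - 1) % 2 = 0 := by clear * - ev n1p n2p n3p; omega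
        clear * - al a1 s2 b c D2 n1 kk672 kk673 kk674 kk675 kk676 kk677 kk678 kk679 kk680 kk681 kk682 kk683 kk684 kk685 kk686 kk687 kk688 kk689 kk690 kk691 r692 r693 r694
        exact ivt al.ninv (0) (j) (k - j) (k + l + i3 - i2 - l2 + 1) (2 * k + l + i3 - 2 * i2 - l2) (2 * i2 + l2 - k - l - i3) (2 * k + l + i3 - 2 * i2 - l2) (j) (-1) (fun t h1 h2 => (qf a1 al 0 t (t + (k - j)) (by omega))) (fun t h1 h2 => (cE (sh al (-1) t (t + (-n)) (by omega)) (qf (show Par W (k + l + i3 - i2 - l2 + 1) (n + i3 - i2 - l2 - 1) (2 * i2 + l2 - k - l - i3) from fun t h1 h2 => (cE (sh al (-1) t (t + (-n)) (by omega)) (cE (pb D2 al (-1) (t + (-n)) (t + (i2 + l2 - i3 + 1)) (by omega)) (pb c al 0 (t + (i2 + l2 - i3 + 1)) (t + (2 * i2 + l2 - k - l - i3)) (by omega))))) al (-1) (t + (-n)) (t + (2 * i2 + l2 - k - l - i3)) (by omega)))) (fun hh => n1.f0 (rEE (sh al 0 (j) (j) (by omega)) (pb (show Par W (k + l + i3 - i2 - l2 + 1)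 (n + i3 - i2 - l2 - 1) (2 * i2 + l2 - k - l - i3) from fun t h1 h2 => (cE (sh al (-1) t (t + (-n)) (by omega)) (cE (pb D2 al (-1) (t + (-n)) (t + (i2 + l2 - i3 + 1)) (by omega)) (pb c al 0 (t + (i2 + l2 - i3 + 1)) (t + (2 * i2 + l2 - k - l - i3)) (by omega))))) al 0 (k) (2 * k + l + i3 - 2 * i2 - l2) (by omega)) (Eq.symm (Eq.symm hh)))) (by omega) (j + 1) (Q) (n + 2 * i + j + i2 - 2 * k - l - 1) 1 (-1) (fun t h1 h2 => (cI (sh al (-1) t (t + (-n)) (by omega)) (cE (cE (qa s2 al (-1) (t + (-n)) ((i + j) - t) (by omega)) (qf (show Par W (2 * k + l - i2 + 2) (k + l + l2 + 2) (n + i + i2 - 2 * k - l - 1) from fun t h1 h2 => (cE (sh al (-1) t (t + (-n)) (by omega)) (cE (cE (pb c al (-1) (t + (-n)) (t + (i2 - k - l - 1)) (by omega)) (pb b al 0 (t + (i2 - k - l - 1)) (t + (i + i2 - 2 * k - l - 1)) (by omega))) (sh al 1 (t + (i + i2 - 2 * k - l - 1)) (t + (n + i + i2 - 2 * k - l - 1)) (by omega))))) al (-1) ((i +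 j) - t) ((2 * n + 2 * i + j + i2 - 2 * k - l - 1) - t) (by omega))) (sh al (-1) ((2 * n + 2 * i + j + i2 - 2 * k - l - 1) - t) ((n + 2 * i + j + i2 - 2 * k - l - 1) - t) (by omega))))) (by omega)
      · have kk695 : (2 * k + l + 2) ≤ (n + i + i2) := by clear * - b3 y13 y17 y22; omega
        have kk696 : (2 * k + l + 3) ≤ (n + i + i2) := by clear * - b3 y13 y17 y22; omega
        have kk697 : (6 * k + 3 * l + 5) ≤ (3 * n + i + 2 * j + 3 * i2) := by clear * - b3 b5 y13 y17 y22; omega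
        have kk698 : (4 * k + l + 1) ≤ (n + i + 3 * i2 + 2 * l2) := by clear * - b2 b3 y13 y17 y22 z48 z50; linarith
        have kk699 : (i2) ≤ (k) := by clear * - b0 b2 y20 y22 z48 z50; omega
        have kk700 : (i2 + l2) ≤ (k + l) := by clear * - y20; omega
        have kk701 : (n + j) ≤ (k + l + l2 + 2) := by clear * - b2 b4 y13 y17 y22 z51; omega
        have kk702 : (n + i + j + i2) ≤ (Q + 2 * k + l + 1) := by clear * - z50 z51; omega
        have r703 : (2 * n + i + j) % 2 = 0 := by clear * - ev n1p n2p n3p; omega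
        have r704 : (n + i + i2 - 2 * k - l - 1) % 2 = 0 := by clear * - ev n1p n2p n3p; omega
        clear * - al s2 b c kk695 kk696 kk697 kk698 kk699 kk700 kk701 kk702 r703 r704
        exact midP al (n + i + i2 - 2 * k - l - 1) (2 * n + i + j) (2 * k + l - i2 + 2) (2 * k + l - i2 + 2) (n + i + i2 + l2 - k + 1) (by omega) (fun t h1 h2 => (cE (ab s2 al 1 t ((n + i + j) - t) (by omega)) (sh al 1 ((n + i + j) - t) ((2 * n + i + j) - t) (by omega)))) (fun t h1 h2 => (qf (show Par W (2 * k + l - i2 + 2) (k + l + l2 + 2) (n + i + i2 - 2 * k - l - 1) from fun t h1 h2 => (cE (sh al (-1) t (t + (-n)) (by omega)) (cE (cE (pb c al (-1) (t + (-n)) (t + (i2 - k - l - 1)) (by omega)) (pb b al 0 (t + (i2 - k - l - 1)) (t + (i + i2 - 2 * k - l - 1)) (by omega))) (sh al 1 (t + (i + i2 - 2 * k - l - 1)) (t + (n + i + i2 - 2 * k - l - 1)) (by omega))))) al 0 t (t + (n + i + i2 - 2 * k - l - 1)) (by omega)))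
    · by_cases z52 : (n + i2) ≤ (k + 2 * l + 2)
      · have kk705 : (i + 1) ≤ (k) := by clear * - b0 b3 y20 y21 z52; omega
        have kk706 : (k + 1) ≤ (n + i) := by clear * - b1 b2 b4 y13 y17 y22 z48 z50 z52; linarith
        have kk707 : (n + i2) ≤ (k + 2 * l + 2) := by clear * - z52; omega
        clear * - al b mx hL kk705 kk706 kk707
        exact absurd (mx (i + 1) (i + l + 1) (k - i) (by omega) (by omega) fun t h1 h2 => (qf b al 0 t (t + (k - i)) (by omega))) (by omega)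
      · by_cases z53 : (n + i + j + i2) ≤ (3 * k + l)
        · by_cases z54 : (j + l + i3 + 1) ≤ (i + i2 + l2)
          · have kk708 : (0) ≤ (i) := by clear * - y13 y22; omega
            have kk709 : (i + 1) ≤ (j) := by clear * - b2 b4 b5 y20 z50; omega
            have kk710 : (k + l + i3 + 1) ≤ (2 * i2 + l2) := by clear * - b3; omega
            have kk711 : (k + l + 2) ≤ (n) := by clear * - b2 b4 b5 y17 y20 z50 z54; linarith
            have kk712 : (j + l + i3 + 1) ≤ (i + i2 + l2) := by clear * - z54; omega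
            have kk713 : (i + 2 * k + l + 2) ≤ (n + j + i2) := by clear * - b2 b3 b4 b5 y17 y20 z50; linarith
            have kk714 : (l + i3 + 1) ≤ (i2 + l2) := by clear * - b2 b4 b5 y20 z50 z54; omega
            have kk715 : (2 * k + l + 2) ≤ (n + i2) := by clear * - b3 y17; omega
            have kk716 : (k + i2 + l2) ≤ (n + i3) := by clear * - y17; omega
            have kk717 : (i2 + l2) ≤ (k + l) := by clear * - y20; omega
            have kk718 : (n) ≤ (k + l + l2 + 2) := by clear * - y13 y14; omega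
            have kk719 : (0) ≤ (i + 1) := by clear * - y13 y22; omega
            have kk720 : (j) ≤ (i + l + 1) := by clear * - b2 y15 y2 y22 z48 z50; omega
            have kk721 : (j + l + i3) ≤ (i + i2 + l2) := by clear * - z54; omega
            have kk722 : (l + i3) ≤ (i2 + l2) := by clear * - b2 b4 b5 y20 z50 z54; omega
            have kk723 : (i) ≤ (j) := by clear * - b2 b4 b5 y20 z50; omega
            have kk724 : (n + i + i2) ≤ (j + 2 * k + l + 1) := by clear * - b5 y13 y22 ev n1p n2p n3p; omega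
            have r725 : (j - i) % 2 = 0 := by clear * - ev n1p n2p n3p; omega
            have r726 : (2 * i2 + l2 - k - l - i3) % 2 = 0 := by clear * - ev n1p n2p n3p; omega
            clear * - al a1 b c D2 n1 kk708 kk709 kk710 kk711 kk712 kk713 kk714 kk715 kk716 kk717 kk718 kk719 kk720 kk721 kk722 kk723 kk724 r725 r726
            exact ivt0 (k + l + i3 - n - i2 - l2 + 1) (i3 - i2 - l2 - 1) (2 * i2 + l2 - k - l - i3) (i + k - n - j + 1) (i + i2 - j - k - l - 1) (j - i) (i + k - n - j) (k - n) 0 (fun t h1 h2 => (cE (qf (show Par W (k + l + i3 - i2 - l2 + 1) (n + i3 - i2 - l2 - 1) (2 * i2 + l2 - k - l - i3) from fun t h1 h2 => (cE (sh al (-1) t (t + (-n)) (by omega)) (cE (pb D2 al (-1) (t + (-n)) (t + (i2 + l2 - i3 + 1)) (by omega)) (pb c al 0 (t + (i2 + l2 - i3 + 1)) (t + (2 * i2 + l2 - k - l - i3)) (by omega))))) al (-1) t (t + (n + 2 * i2 + l2 - k - l - i3)) (by omega)) (sh al (-1) (t + (n + 2 * i2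 + l2 - k - l - i3)) (t + (2 * i2 + l2 - k - l - i3)) (by omega)))) (fun t h1 h2 => (cE (sh al 2 t (t + (2 * n)) (by omega)) (cE (cE (pb a1 al 1 (t + (2 * n)) (t + (n + j - k)) (by omega)) (qf b al 0 (t + (n + j - k)) (t + (n + j - i)) (by omega))) (sh al (-1) (t + (n + j - i)) (t + (j - i)) (by omega))))) (fun hh => n1.f1 (rEE (cE (qf a1 al 0 (i) (i + k - j) (by omega)) (sh al (-1) (i + k - j) (i + k - n - j) (by omega))) (sh al (-1) (k) (k - n) (by omega)) (Eq.symm hh))) (by omega) (by omega)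
          · have kk727 : (n + i + j + i2) ≤ (3 * k + l) := by clear * - z53; omega
            have kk728 : (3 * k + l + 2) ≤ (2 * n + i + j + i2) := by clear * - b2 b3 b4 y13 y17 y22 z52 z53 z54; linarith
            have kk729 : (Q + k) ≤ (i + i2 + l2 + 1) := by clear * - b2 b3 y13 y17 y22; omega
            have kk730 : (i2) ≤ (k) := by clear * - b2 b4 y13 y17 y22 z52 z53 z54; linarith
            have kk731 : (i2 + l2) ≤ (k + l) := by clear * - y20; omega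
            have kk732 : (3 * k + l + 2) ≤ (n + Q + j + i2) := by clear * - b2 b4 y2 y22 z50 z52 z54; linarith
            have kk733 : (k + l + l2 + 2) ≤ (n + j) := by clear * - y22 z52 z54; omega
            clear * - al a2 b c kk727 kk728 kk729 kk730 kk731 kk732 kk733
            exact al.ubQ (3 * k + l - n - i - j - i2 + 1) (by omega) (by omega) fun t h1 h2 => (cE (pb (show Par W (2 * k + l - i2 + 2) (k + l + l2 + 2) (n + i + i2 - 2 * k - l - 1) from fun t h1 h2 => (cE (sh al (-1) t (t + (-n)) (by omega)) (cE (cE (pb c al (-1) (t + (-n)) (t + (i2 - k - l - 1)) (by omega)) (pb b al 0 (t + (i2 - k - l - 1)) (t + (i + i2 - 2 * k - l - 1)) (by omega))) (sh al 1 (t + (i + i2 - 2 * k - l - 1)) (t + (n + i + i2 - 2 * k - l - 1)) (by omega))))) al (-1) t (t + (2 * k + l - i - i2 + 1)) (by omega)) (qf a2 al 1 (t + (2 * k + l - i - i2 + 1)) (t + (3 * k + l - n - i - j - i2 + 1)) (by omega)))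
        · by_cases z55 : (n + i3) ≤ (i + l + i2 + l2 + 2)
          · have kk734 : (2 * i + i2 + l2 + 2) ≤ (2 * k + i3) := by clear * - z48 z52; omega
            have kk735 : (4 * k + 2 * l + l2 + i3 + 5) ≤ (2 * n + 2 * i + 2 * j + i2) := by clear * - y22 z48 z52 z53 ev n1p n2p n3p; omega
            have kk736 : (2 * i + i2 + l2 + 3) ≤ (2 * k + i3) := by clear * - z48 z52 ev n1p n2p n3p; omega
            have kk737 : (3 * i2 + 3 * l2 + i3 + 3) ≤ (2 * j + 2 * k + 2 * l) := by clear * - y22 z48 z52 z53 ev n1p n2p n3p; omega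
            have kk738 : (i3) ≤ (i) := by clear * - y22; omega
            have kk739 : (n + i3) ≤ (i + l + i2 + l2 + 2) := by clear * - z55; omega
            have kk740 : (j) ≤ (l2 + i3 + 1) := by clear * - b0 b2 y2 z48 z53; omega
            have kk741 : (j) ≤ (Q) := by clear * - y2; omega
            have kk742 : (n + i3) ≤ (k + l + l2 + 2) := by clear * - b1 b2 b5 y18 y22 z55; omega
            have kk743 : (n) ≤ (k + l + l2 + 3) := by clear * - b1 b2 b4 y13 y22 z48 z55; linarith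
            have kk744 : (k + i3) ≤ (i + i2 + l2 + 1) := by clear * - b0 b1 b2 b4 y17 y22 z48 z53 z55; linarith
            have kk745 : (k + l + 1) ≤ (n) := by clear * - b0 b1 b2 b4 y17 y22 z48 z53 z55; linarith
            have kk746 : (i + i2 + l2) ≤ (k + l + i3) := by clear * - y20 y21; omega
            have kk747 : (2 * i + j) ≤ (k + 2 * i3) := by clear * - b1 y13; omega
            have r748 : (k + i2 + l2 + i3 - 2 * n - j + 1) % 2 = 0 := by clear * - ev n1p n2p n3p; omega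
            have r749 : (2 * k + i3 - 2 * i - i2 - l2 - 1) % 2 = 0 := by clear * - ev n1p n2p n3p; omega
            clear * - al a1 b c u2 D2 kk734 kk735 kk736 kk737 kk738 kk739 kk740 kk741 kk742 kk743 kk744 kk745 kk746 kk747 r748 r749
            exact midP al (2 * k + i3 - 2 * i - i2 - l2 - 1) (k + i2 + l2 + i3 - 2 * n - j + 1) (i2 + l2 + i3 - n - j + 2) (2 * i + i2 + l2 - n - k - i3 + 2) (2 * k + l + i3 - n - i - i2 - l2) (by omega) (fun t h1 h2 => (cE (cE (cI (qf c al (-1) t (t + (n + k + l - i2 + 1)) (by omega)) (ab u2 al 1 (t + (n + k + l - i2 + 1)) ((i2 + l2 + i3 - n + 1) - t) (by omega))) (qf a1 al 0 ((i2 + l2 + i3 - n + 1) - t) ((k + i2 + l2 + i3 - n - j + 1) - t) (by omega))) (sh al (-1) ((k + i2 + l2 + i3 - n - j + 1) - t) ((k + i2 + l2 + i3 - 2 * n - j + 1) - t) (by omega)))) (fun t h1 h2 => (cE (cE (qf b al (-1) t (t + (n + k - i)) (by omega)) (pb (show Par W (k + 1) (n + k + i3 - i - i2 -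 l2 - 1) (i + i2 + l2 - k - i3 + 1) from fun t h1 h2 => (cE (sh al (-1) t (t + (-n)) (by omega)) (cE (pb b al (-1) (t + (-n)) (t + (i - k)) (by omega)) (pb D2 al 0 (t + (i - k)) (t + (i + i2 + l2 - k - i3 + 1)) (by omega))))) al 0 (t + (n + k - i)) (t + (n + 2 * k + i3 - 2 * i - i2 - l2 - 1)) (by omega))) (sh al (-1) (t + (n + 2 * k + i3 - 2 * i - i2 - l2 - 1)) (t + (2 * k + i3 - 2 * i - i2 - l2 - 1)) (by omega))))
          · have kk750 : (3 * k + 2 * l + l2 + 5) ≤ (2 * n + i + i2 + i3) := by clear * - y13 y2 y22 z50 z53 z55; omega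
            have kk751 : (i + i2 + l2 + i3 + 2) ≤ (2 * Q + k) := by clear * - b5 y2 y22 z48 z52 z53; omega
            have kk752 : (n + i3) ≤ (k + l + l2 + 2) := by clear * - y14; omega
            have kk753 : (n + i2 + i3) ≤ (2 * k + 2 * l + 2) := by clear * - y14 y20; omega
            have kk754 : (i2) ≤ (k) := by clear * - b1 b2 b4 y13 y22 z48 z55; linarith
            have kk755 : (Q + k) ≤ (i2 + l2 + i3 + 1) := by clear * - b1 b2 y13 z53; omega
            have r756 : (2 * n + i + i2 + l2 + i3 - k + 1) % 2 = 0 := by clear * - ev n1p n2p n3p; omega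
            clear * - al b c u2 kk750 kk751 kk752 kk753 kk754 kk755 r756
            obtain ⟨t, ht⟩ : ∃ t, 2 * t = (2 * n + i + i2 + l2 + i3 - k + 1) := ⟨(2 * n + i + i2 + l2 + i3 - k + 1) / 2, by omega⟩
            exact al.ninv t (cE (cE (cE (qa u2 al 1 t ((k + l + l2 + i3 + 2) - t) (by omega)) (pb c al (-1) ((k + l + l2 + i3 + 2) - t) ((n + i2 + l2 + i3 + 1) - t) (by omega))) (pb b al 0 ((n + i2 + l2 + i3 + 1) - t) ((n + i + i2 + l2 + i3 - k + 1) - t) (by omega))) (sh al 1 ((n + i + i2 + l2 + i3 - k + 1) - t) t (by omega)))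

theorem t4_9 {W : ℤ → G} {n Q i j k l i2 l2 i3 : ℤ} (al : AL W n Q)
    (hy : (0) ≤ (i) ∧ (i) ≤ (j) ∧ (j + 1) ≤ (Q) ∧ (Q) ≤ (k) ∧ (k + 1) ≤ (n) ∧ (Q) ≤ (i + l + 1) ∧ (k + l + 2) ≤ (n) ∧ (Q) ≤ (i2) ∧ (i2) ≤ (i + l + 1) ∧ (Q) ≤ (i2 + l2 + 1) ∧ (i2 + l2 + 2) ≤ (n) ∧ (n) ≤ (k + l + l2 + 2) ∧ (k + l + l2 + 3) ≤ (n + Q) ∧ (0) ≤ (i3) ∧ (n + i3) ≤ (k + l + l2 + 2) ∧ (k + i2 + l2 + 2) ≤ (n + j + i3) ∧ (j + i3 + 1) ≤ (k) ∧ (k + i2 + l2 + 2) ≤ (n + i3) ∧ (i + 2 * i2 + 1) ≤ (2 * Q + k) ∧ (i + l + 1) ≤ (i2 + l2) ∧ (i2 + l2 + 1) ≤ (k + l) ∧ (i) ≤ (i3) ∧ (i3) ≤ (i))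
    (a1 : Par W (0) (j) (k - j))
    (a2 : Par W (Q + j - k) (j) (k - j))
    (s1 : Ant W (0) (i) (i + j))
    (s2 : Ant W (j + 1) (Q) (i + j))
    (b : Par W (i + 1) (i + l + 1) (k - i))
    (tt : Ant W (Q) (i2) (i + l + i2 + 1))
    (c : Par W (i2 + 1) (i2 + l2 + 1) (k + l - i2 + 1))
    (u1 : Ant W (0) (i3) (k + l + l2 + i3 - n + 2))
    (u2 : Ant W (k + l + l2 - n + 3) (Q) (k + l + l2 + i3 - n + 2))
    (D1 : Par W (i3 + 1) (Q) (i2 + l2 - i3 + 1))
    (D2 : Par W (i2 + l2 + 2) (n) (i3 - i2 - l2 - 1))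
    {L : ℤ} (mx : ∀ a b g, 0 < g → g < n → Par W a b g → b - a ≤ L)
    (hL : L ≤ (n - j - 3) ∧ L ≤ (n + Q - k - 3) ∧ L ≤ (n - l - 3) ∧ L ≤ (n + i - k - 2) ∧ L ≤ (n - l2 - 3) ∧ L ≤ (n + i3 - Q - 2) ∧ L ≤ (i2 + l2 - 1) ∧ L ≤ (n + i2 - k - l - 3))
    (bd0 : Bd W n L (j) (i) (k))
    (bd2 : Bd W n L (k + l + l2 - n + 2) (i3) (i2 + l2 + 1))
    (n1 : Nd W (j) (i) (k))
    (n2 : Nd W (i + l + 1) (i2) (k + l + 1))
    (n3 : Nd W (k + l + l2 - n + 2) (i3) (i2 + l2 + 1))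
    (b0 : (2 * l + 3) ≤ (n))
    (b1 : (2 * i + j + 1) ≤ (k))
    (b2 : (n + 2 * Q) ≤ (i + l + i2 + 2 * l2 + 4))
    (b3 : (k + l + i3 + 1) ≤ (2 * i2 + l2))
    (b4 : (n + i) ≤ (2 * k + l))
    (b5 : (i + 2 * k + 2 * l + 3) ≤ (n + 2 * Q + j)) : False := by
  have ev := al.ev
  obtain ⟨y0, y1, y2, y3, y4, y5, y6, y7, y8, y9, y10, y11, y12, y13, y14, y15, y16, y17, y18, y19, y20, y21, y22⟩ := id hy
  have n1p := And.intro n1.p1 n1.p2
  have n2p := And.intro n2.p1 n2.p2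
  have n3p := And.intro n3.p1 n3.p2
  by_cases z13 : (j + 2 * k + l + 3) ≤ (n + 2 * i + i2)
  · exact t4_10 al hy a1 a2 s1 s2 b tt c u1 u2 D1 D2 mx hL bd0 bd2 n1 n2 n3 (by clear * - b0; omega) (by clear * - b1; omega) (by clear * - b2; omega) (by clear * - b3; omega) (by clear * - b4; omega) (by clear * - b5; omega) (by clear * - z13; omega)
  · exact t4_20 al hy a1 a2 s1 s2 b tt c u1 u2 D1 D2 mx hL bd0 bd2 n1 n2 n3 (by clear * - b0; omega) (by clear * - b1; omega) (by clear * - b2; omega) (by clear * - b3; omega) (by clear * - b5; omega) (by clear * - z13; omega)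

theorem t4_8 {W : ℤ → G} {n Q i j k l i2 l2 i3 : ℤ} (al : AL W n Q)
    (hy : (0) ≤ (i) ∧ (i) ≤ (j) ∧ (j + 1) ≤ (Q) ∧ (Q) ≤ (k) ∧ (k + 1) ≤ (n) ∧ (Q) ≤ (i + l + 1) ∧ (k + l + 2) ≤ (n) ∧ (Q) ≤ (i2) ∧ (i2) ≤ (i + l + 1) ∧ (Q) ≤ (i2 + l2 + 1) ∧ (i2 + l2 + 2) ≤ (n) ∧ (n) ≤ (k + l + l2 + 2) ∧ (k + l + l2 + 3) ≤ (n + Q) ∧ (0) ≤ (i3) ∧ (n + i3) ≤ (k + l + l2 + 2) ∧ (k + i2 + l2 + 2) ≤ (n + j + i3) ∧ (j + i3 + 1) ≤ (k) ∧ (k + i2 + l2 + 2) ≤ (n + i3) ∧ (i + 2 * i2 + 1) ≤ (2 * Q + k) ∧ (i + l + 1) ≤ (i2 + l2) ∧ (i2 + l2 + 1) ≤ (k + l) ∧ (i) ≤ (i3) ∧ (i3) ≤ (i))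
    (a1 : Par W (0) (j) (k - j))
    (a2 : Par W (Q + j - k) (j) (k - j))
    (s1 : Ant W (0) (i) (i + j))
    (s2 : Ant W (j + 1) (Q) (i + j))
    (b : Par W (i + 1) (i + l + 1) (k - i))
    (tt : Ant W (Q) (i2) (i + l + i2 + 1))
    (c : Par W (i2 + 1) (i2 + l2 + 1) (k + l - i2 + 1))
    (u1 : Ant W (0) (i3) (k + l + l2 + i3 - n + 2))
    (u2 : Ant W (k + l + l2 - n + 3) (Q) (k + l + l2 + i3 - n + 2))
    (D1 : Par W (i3 + 1) (Q) (i2 + l2 - i3 + 1))
    (D2 : Par W (i2 + l2 + 2) (n) (i3 - i2 - l2 - 1))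
    {L : ℤ} (mx : ∀ a b g, 0 < g → g < n → Par W a b g → b - a ≤ L)
    (hL : L ≤ (n - j - 3) ∧ L ≤ (n + Q - k - 3) ∧ L ≤ (n - l - 3) ∧ L ≤ (n + i - k - 2) ∧ L ≤ (n - l2 - 3) ∧ L ≤ (n + i3 - Q - 2) ∧ L ≤ (i2 + l2 - 1) ∧ L ≤ (n + i2 - k - l - 3))
    (bd0 : Bd W n L (j) (i) (k))
    (bd2 : Bd W n L (k + l + l2 - n + 2) (i3) (i2 + l2 + 1))
    (n1 : Nd W (j) (i) (k))
    (n2 : Nd W (i + l + 1) (i2) (k + l + 1))
    (n3 : Nd W (k + l + l2 - n + 2) (i3) (i2 + l2 + 1))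
    (b0 : (2 * l + 3) ≤ (n))
    (b1 : (2 * i + j + 1) ≤ (k))
    (b2 : (n + 2 * Q) ≤ (i + l + i2 + 2 * l2 + 4))
    (b3 : (k + l + i3 + 1) ≤ (2 * i2 + l2))
    (b4 : (n + i) ≤ (2 * k + l))
    (b5 : (i + 2 * k + 2 * l + 3) ≤ (n + j + 2 * i2))
    (b6 : (n + 2 * Q + j) ≤ (i + 2 * k + 2 * l + 2)) : False := by
  have ev := al.ev
  obtain ⟨y0, y1, y2, y3, y4, y5, y6, y7, y8, y9, y10, y11, y12, y13, y14, y15, y16, y17, y18, y19, y20, y21, y22⟩ := id hy
  have n1p := And.intro n1.p1 n1.p2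
  have n2p := And.intro n2.p1 n2.p2
  have n3p := And.intro n3.p1 n3.p2
  by_cases z9 : (n + i + j) ≤ (2 * k + 2 * l2)
  · by_cases v2 : (2 * k + l + l2 + 2) ≤ (n + j + i2)
    · by_cases v3 : (k + l + l2 + 2) ≤ (n + j)
      · have kk45 : (n + i + j) ≤ (2 * k + 2 * l2) := by clear * - z9; omega
        have kk46 : (n + 2 * Q + j) ≤ (i + 2 * k + 2 * l + 3) := by clear * - b6; omega
        have kk47 : (2 * k + l + l2 + 2) ≤ (n + j + i2) := by clear * - v2; omega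
        have kk48 : (k + l + l2 + 2) ≤ (n + j) := by clear * - v3; omega
        have kk49 : (2 * k + l + 2) ≤ (n + Q + j) := by clear * - b2 b3 v2 y13 y17 y18 y22; linarith
        have r50 : (i + j + 2 * i2 - n - 2 * k) % 2 = 0 := by clear * - ev n1p n2p n3p; omega
        clear * - al a2 tt c kk45 kk46 kk47 kk48 kk49 r50
        obtain ⟨t, ht⟩ : ∃ t, 2 * t = (i + j + 2 * i2 - n - 2 * k) := ⟨(i + j + 2 * i2 - n - 2 * k) / 2, by omega⟩
        exact al.ninv t (cE (cE (cE (ab tt al (-1) t ((i + l + i2 - n + 1) - t) (by omega)) (pb a2 al 0 ((i + l + i2 - n + 1) - t) ((i + j + l + i2 - n - k + 1) - t) (by omega))) (pb c al (-1) ((i + j + l + i2 - n - k + 1) - t) ((i + j + 2 * i2 - 2 * k) - t) (by omega))) (sh al (-1) ((i + j + 2 * i2 - 2 * k) - t) t (by omega)))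
      · have kk51 : (i + 2 * l + 4) ≤ (n + j) := by clear * - b0 y1 ev n1p n2p n3p; omega
        have kk52 : (n + 2 * Q + j) ≤ (i + 2 * k + 2 * l + 3) := by clear * - b6; omega
        have kk53 : (n + j) ≤ (k + l + l2 + 2) := by clear * - v3; omega
        have kk54 : (k) ≤ (i2) := by clear * - v2 v3; omega
        have kk55 : (2 * k + l + 2) ≤ (n + Q + j) := by clear * - b0 b2 v2 v3 y15 y18 y22; linarith
        have r56 : (i + j + 2 * i2 - n - 2 * k) % 2 = 0 := by clear * - ev n1p n2p n3p; omega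
        clear * - al a2 tt c kk51 kk52 kk53 kk54 kk55 r56
        obtain ⟨t, ht⟩ : ∃ t, 2 * t = (i + j + 2 * i2 - n - 2 * k) := ⟨(i + j + 2 * i2 - n - 2 * k) / 2, by omega⟩
        exact al.ninv t (cE (cE (cE (ab tt al (-1) t ((i + l + i2 - n + 1) - t) (by omega)) (pb a2 al 0 ((i + l + i2 - n + 1) - t) ((i + j + l + i2 - n - k + 1) - t) (by omega))) (pb c al (-1) ((i + j + l + i2 - n - k + 1) - t) ((i + j + 2 * i2 - 2 * k) - t) (by omega))) (sh al (-1) ((i + j + 2 * i2 - 2 * k) - t) t (by omega)))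
    · by_cases v4 : (i2) ≤ (k)
      · by_cases v5 : (2 * k + l + 2) ≤ (n + Q + j)
        · have kk57 : (i + 2 * k + 2 * l + 4) ≤ (n + j + 2 * i2) := by clear * - b5 ev n1p n2p n3p; omega
          have kk58 : (n + 2 * Q + j) ≤ (i + 2 * k + 2 * l + 3) := by clear * - b6; omega
          have kk59 : (n + j + i2) ≤ (2 * k + l + l2 + 2) := by clear * - v2; omega
          have kk60 : (i2) ≤ (k) := by clear * - v4; omega
          have kk61 : (2 * k + l + 2) ≤ (n + Q + j) := by clear * - v5; omega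
          have r62 : (i + j + 2 * i2 - n - 2 * k) % 2 = 0 := by clear * - ev n1p n2p n3p; omega
          clear * - al a2 tt c kk57 kk58 kk59 kk60 kk61 r62
          obtain ⟨t, ht⟩ : ∃ t, 2 * t = (i + j + 2 * i2 - n - 2 * k) := ⟨(i + j + 2 * i2 - n - 2 * k) / 2, by omega⟩
          exact al.ninv t (cE (cE (cE (ab tt al (-1) t ((i + l + i2 - n + 1) - t) (by omega)) (pb a2 al 0 ((i + l + i2 - n + 1) - t) ((i + j + l + i2 - n - k + 1) - t) (by omega))) (pb c al (-1) ((i + j + l + i2 - n - k + 1) - t) ((i + j + 2 * i2 - 2 * k) - t) (by omega))) (sh al (-1) ((i + j + 2 * i2 - 2 * k) - t) t (by omega)))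
        · have kk63 : (i + 2 * k + 2 * l + 4) ≤ (n + j + 2 * i2) := by clear * - b5 ev n1p n2p n3p; omega
          have kk64 : (2 * k + 1) ≤ (n + i + j) := by clear * - b5 y13 y14 y17 y22; omega
          have kk65 : (n + j + i2) ≤ (2 * k + l + l2 + 2) := by clear * - v2; omega
          have kk66 : (i2) ≤ (k) := by clear * - v4; omega
          have kk67 : (n + Q + j) ≤ (2 * k + l + 2) := by clear * - v5; omega
          have r68 : (i + j + 2 * i2 - n - 2 * k) % 2 = 0 := by clear * - ev n1p n2p n3p; omega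
          clear * - al a2 tt c kk63 kk64 kk65 kk66 kk67 r68
          obtain ⟨t, ht⟩ : ∃ t, 2 * t = (i + j + 2 * i2 - n - 2 * k) := ⟨(i + j + 2 * i2 - n - 2 * k) / 2, by omega⟩
          exact al.ninv t (cE (cE (cE (ab tt al (-1) t ((i + l + i2 - n + 1) - t) (by omega)) (pb a2 al 0 ((i + l + i2 - n + 1) - t) ((i + j + l + i2 - n - k + 1) - t) (by omega))) (pb c al (-1) ((i + j + l + i2 - n - k + 1) - t) ((i + j + 2 * i2 - 2 * k) - t) (by omega))) (sh al (-1) ((i + j + 2 * i2 - 2 * k) - t) t (by omega)))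
      · by_cases v6 : (2 * k + l + 2) ≤ (n + Q + j)
        · have kk69 : (i + 2 * l + 4) ≤ (n + j) := by clear * - b0 y1 ev n1p n2p n3p; omega
          have kk70 : (n + 2 * Q + j) ≤ (i + 2 * k + 2 * l + 3) := by clear * - b6; omega
          have kk71 : (n + j + i2) ≤ (2 * k + l + l2 + 2) := by clear * - v2; omega
          have kk72 : (k) ≤ (i2) := by clear * - v4; omega
          have kk73 : (2 * k + l + 2) ≤ (n + Q + j) := by clear * - v6; omega
          have r74 : (i + j + 2 * i2 - n - 2 * k) % 2 = 0 := by clear * - ev n1p n2p n3p; omega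
          clear * - al a2 tt c kk69 kk70 kk71 kk72 kk73 r74
          obtain ⟨t, ht⟩ : ∃ t, 2 * t = (i + j + 2 * i2 - n - 2 * k) := ⟨(i + j + 2 * i2 - n - 2 * k) / 2, by omega⟩
          exact al.ninv t (cE (cE (cE (ab tt al (-1) t ((i + l + i2 - n + 1) - t) (by omega)) (pb a2 al 0 ((i + l + i2 - n + 1) - t) ((i + j + l + i2 - n - k + 1) - t) (by omega))) (pb c al (-1) ((i + j + l + i2 - n - k + 1) - t) ((i + j + 2 * i2 - 2 * k) - t) (by omega))) (sh al (-1) ((i + j + 2 * i2 - 2 * k) - t) t (by omega)))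
        · have kk75 : (i + 2 * l + 4) ≤ (n + j) := by clear * - b0 y1 ev n1p n2p n3p; omega
          have kk76 : (2 * k + 1) ≤ (n + i + j) := by clear * - v4 y15 y22 z9; omega
          have kk77 : (n + j + i2) ≤ (2 * k + l + l2 + 2) := by clear * - v2; omega
          have kk78 : (k) ≤ (i2) := by clear * - v4; omega
          have kk79 : (n + Q + j) ≤ (2 * k + l + 2) := by clear * - v6; omega
          have r80 : (i + j + 2 * i2 - n - 2 * k) % 2 = 0 := by clear * - ev n1p n2p n3p; omega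
          clear * - al a2 tt c kk75 kk76 kk77 kk78 kk79 r80
          obtain ⟨t, ht⟩ : ∃ t, 2 * t = (i + j + 2 * i2 - n - 2 * k) := ⟨(i + j + 2 * i2 - n - 2 * k) / 2, by omega⟩
          exact al.ninv t (cE (cE (cE (ab tt al (-1) t ((i + l + i2 - n + 1) - t) (by omega)) (pb a2 al 0 ((i + l + i2 - n + 1) - t) ((i + j + l + i2 - n - k + 1) - t) (by omega))) (pb c al (-1) ((i + j + l + i2 - n - k + 1) - t) ((i + j + 2 * i2 - 2 * k) - t) (by omega))) (sh al (-1) ((i + j + 2 * i2 - 2 * k) - t) t (by omega)))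
  · by_cases z10 : (k + l + 2 * i2 + 3 * l2 + i3 + 6) ≤ (2 * n + 2 * Q)
    · by_cases z11 : (4 * i2 + 5 * l2 + 6) ≤ (2 * n + k + l + i3)
      · by_cases z12 : (5 * k + 3 * l + 3 * l2 + i3 + 8) ≤ (4 * n + 2 * i)
        · by_cases v7 : (n + i + i2) ≤ (Q + 2 * k + l + 1)
          · have kk81 : (k + l + i3 + 1) ≤ (2 * i2 + l2) := by clear * - b3; omega
            have kk82 : (5 * k + 3 * l + 3 * l2 + 8) ≤ (4 * n + 2 * i + i3) := by clear * - y13 z12; omega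
            have kk83 : (3 * k + 3 * l + i3 + 4) ≤ (2 * n + 2 * i2 + l2) := by clear * - b0 b2 b3 b6 y18 y21 z12 z9; linarith
            have kk84 : (5 * k + 3 * l + 3 * l2 + i3 + 8) ≤ (4 * n + 2 * i) := by clear * - z12; omega
            have kk85 : (i2 + l2) ≤ (k + l) := by clear * - y20; omega
            have kk86 : (n) ≤ (k + l + l2 + 2) := by clear * - b2 b3 v7 y13 z12; omega
            have kk87 : (Q) ≤ (l2 + i3 + 1) := by clear * - b0 b2 b3 v7 y13 y21 z12; linarith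
            have kk88 : (Q) ≤ (i + l + 1) := by clear * - b2 b3 v7 y13 z11 z12; omega
            have kk89 : (i3) ≤ (i) := by clear * - y22; omega
            have kk90 : (n + i) ≤ (k + l + l2 + 2) := by clear * - b2 b3 v7 y21 z12; omega
            have kk91 : (n + i) ≤ (k + i2 + 2 * l2 + 2) := by clear * - b0 b2 b3 v7 y13 y21 z12; linarith
            have kk92 : (n + i + i2) ≤ (Q + 2 * k + l + 1) := by clear * - v7; omega
            have r93 : (2 * n + k + i2 + l2 + i3 - i + 1) % 2 = 0 := by clear * - ev n1p n2p n3p; omega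
            have r94 : (2 * i2 + l2 - k - l - i3) % 2 = 0 := by clear * - ev n1p n2p n3p; omega
            clear * - al b c u2 D2 kk81 kk82 kk83 kk84 kk85 kk86 kk87 kk88 kk89 kk90 kk91 kk92 r93 r94
            exact midP al (2 * i2 + l2 - k - l - i3) (2 * n + k + i2 + l2 + i3 - i + 1) (2 * k + l + l2 + i3 - i + 3) (n + k + l + i3 - i2 - l2 + 1) (2 * n + i2 - k - l - 1) (by omega) (fun t h1 h2 => (cE (cE (cI (qf c al 1 t (t + (k + l - n - i2 + 1)) (by omega)) (ab u2 al 1 (t + (k + l - n - i2 + 1)) ((n + i2 + l2 + i3 + 1) - t) (by omega))) (qf b al 0 ((n + i2 + l2 + i3 + 1) - t) ((n + k + i2 + l2 + i3 - i + 1) - t) (by omega))) (sh al 1 ((n + k + i2 + l2 + i3 - i + 1) - t) ((2 * n + k + i2 + l2 + i3 - i + 1) - t) (by omega)))) (fun t h1 h2 => (cE (qf (show Par W (k + l + i3 - i2 - l2 + 1) (n + i3 - i2 - l2 - 1) (2 * i2 + l2 - k - l - i3) from fun t h1 h2 => (cE (sh al (-1) t (t + (-n)) (by omega)) (cE (pb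 D2 al (-1) (t + (-n)) (t + (i2 + l2 - i3 + 1)) (by omega)) (pb c al 0 (t + (i2 + l2 - i3 + 1)) (t + (2 * i2 + l2 - k - l - i3)) (by omega))))) al 1 t (t + (2 * i2 + l2 - n - k - l - i3)) (by omega)) (sh al 1 (t + (2 * i2 + l2 - n - k - l - i3)) (t + (2 * i2 + l2 - k - l - i3)) (by omega))))
          · have kk95 : (k + l + i3 + 1) ≤ (2 * i2 + l2) := by clear * - b3; omega
            have kk96 : (k + l + 2 * i2 + 3 * l2 + 6) ≤ (2 * n + 2 * Q + i3) := by clear * - y13 z10; omega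
            have kk97 : (2 * i + l + i3 + 2) ≤ (2 * Q + k + l2) := by clear * - b3 b5 b6 y18; omega
            have kk98 : (k + l + 2 * i2 + 3 * l2 + i3 + 6) ≤ (2 * n + 2 * Q) := by clear * - z10; omega
            have kk99 : (i2 + l2) ≤ (k + l) := by clear * - y20; omega
            have kk100 : (n) ≤ (k + l + l2 + 2) := by clear * - y13 y14; omega
            have kk101 : (Q) ≤ (l2 + i3 + 1) := by clear * - b0 b1 b2 y13 y18 z9; omega
            have kk102 : (Q) ≤ (i + l + 1) := by clear * - b2 b3 b4 y13 z10; omega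
            have kk103 : (i3) ≤ (i) := by clear * - y22; omega
            have kk104 : (n + i) ≤ (k + l + l2 + 2) := by clear * - y14 y21; omega
            have kk105 : (Q + 2 * k + l + 1) ≤ (n + i + i2) := by clear * - v7; omega
            have kk106 : (Q + k + l) ≤ (2 * i2 + 2 * l2 + 1) := by clear * - b2 b3 y13 y19 z10; omega
            have r107 : (2 * n + k + i2 + l2 + i3 - i + 1) % 2 = 0 := by clear * - ev n1p n2p n3p; omega
            have r108 : (2 * i2 + l2 - k - l - i3) % 2 = 0 := by clear * - ev n1p n2p n3p; omega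
            clear * - al b c u2 D2 kk95 kk96 kk97 kk98 kk99 kk100 kk101 kk102 kk103 kk104 kk105 kk106 r107 r108
            exact midP al (2 * i2 + l2 - k - l - i3) (2 * n + k + i2 + l2 + i3 - i + 1) (n + i2 + l2 + i3 - Q + 2) (n + k + l + i3 - i2 - l2 + 1) (2 * n + i2 - k - l - 1) (by omega) (fun t h1 h2 => (cE (cE (cI (qf c al 1 t (t + (k + l - n - i2 + 1)) (by omega)) (ab u2 al 1 (t + (k + l - n - i2 + 1)) ((n + i2 + l2 + i3 + 1) - t) (by omega))) (qf b al 0 ((n + i2 + l2 + i3 + 1) - t) ((n + k + i2 + l2 + i3 - i + 1) - t) (by omega))) (sh al 1 ((n + k + i2 + l2 + i3 - i + 1) - t) ((2 * n + k + i2 + l2 + i3 - i + 1) - t) (by omega)))) (fun t h1 h2 => (cE (qf (show Par W (k + l + i3 - i2 - l2 + 1) (n + i3 - i2 - l2 - 1) (2 * i2 + l2 - k - l - i3) from fun t h1 h2 => (cE (sh al (-1) t (t + (-n)) (by omega)) (cE (pb D2 al (-1) (t + (-n)) (t + (i2 + l2 - i3 + 1)) (by omega)) (pb c al 0 (t + (i2 + l2 - i3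 + 1)) (t + (2 * i2 + l2 - k - l - i3)) (by omega))))) al 1 t (t + (2 * i2 + l2 - n - k - l - i3)) (by omega)) (sh al 1 (t + (2 * i2 + l2 - n - k - l - i3)) (t + (2 * i2 + l2 - k - l - i3)) (by omega))))
        · have kk109 : (2 * Q + k) ≤ (2 * i + l + i2 + 1) := by clear * - b2 b3 b6 y13 z10 z9; omega
          have kk110 : (2 * i + l + 2) ≤ (k + i2) := by clear * - b0 b1 b3 z12 z9; omega
          have kk111 : (i + i2 + 1) ≤ (Q + k) := by clear * - b5 b6 y18; omega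
          have kk112 : (k) ≤ (i + l + 1) := by clear * - b0 b2 b5 y2 y21 z10 z12 z9; linarith
          have r113 : (2 * i + l + i2 - 2 * n - k + 1) % 2 = 0 := by clear * - ev n1p n2p n3p; omega
          clear * - al b tt kk109 kk110 kk111 kk112 r113
          obtain ⟨t, ht⟩ : ∃ t, 2 * t = (2 * i + l + i2 - 2 * n - k + 1) := ⟨(2 * i + l + i2 - 2 * n - k + 1) / 2, by omega⟩
          exact al.ninv t (cE (cE (qa tt al (-1) t ((i + l + i2 - n + 1) - t) (by omega)) (pb b al 0 ((i + l + i2 - n + 1) - t) ((2 * i + l + i2 - n - k + 1) - t) (by omega))) (sh al (-1) ((2 * i + l + i2 - n - k + 1) - t) t (by omega)))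
      · by_cases v8 : (2 * i + i2 + l2 + 1) ≤ (2 * k + i3)
        · have kk114 : (k + l + i3 + 1) ≤ (2 * i2 + l2) := by clear * - b5 b6 z10 z11; omega
          have kk115 : (2 * Q + 3 * k + i3) ≤ (4 * i + l + 2 * i2 + l2 + 2) := by clear * - b6 y17 y22 z11 z9; omega
          have kk116 : (5 * k + l + 3 * i3) ≤ (4 * i + 4 * i2 + 3 * l2) := by clear * - b6 y17 y22 z10 z11 z9 ev n1p n2p n3p; omega
          have kk117 : (3 * k + 3 * l + i3 + 4) ≤ (2 * n + 2 * i2 + l2) := by clear * - b0 b2 b6 y20 y21 z10 z11 z9; linarith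
          have kk118 : (i2 + l2) ≤ (k + l) := by clear * - y20; omega
          have kk119 : (n) ≤ (k + l + l2 + 2) := by clear * - b0 b2 b6 v8 y18 y21 z10 z11 z9; linarith
          have kk120 : (k) ≤ (i + l + 1) := by clear * - b0 b2 b6 y18 y21 z10 z11 z9; linarith
          have kk121 : (i + i2 + 1) ≤ (Q + k) := by clear * - b5 b6 y18; omega
          have kk122 : (2 * i + i2 + l2 + 1) ≤ (2 * k + i3) := by clear * - v8; omega
          have kk123 : (2 * i + l + i2 + l2 + 2) ≤ (n + k + i3) := by clear * - b0 b2 b4 y21 z10; omega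
          have r124 : (2 * i + l + i2 - k + 1) % 2 = 0 := by clear * - ev n1p n2p n3p; omega
          have r125 : (2 * i2 + l2 - k - l - i3) % 2 = 0 := by clear * - ev n1p n2p n3p; omega
          clear * - al b tt c D2 kk114 kk115 kk116 kk117 kk118 kk119 kk120 kk121 kk122 kk123 r124 r125
          exact midP al (2 * i2 + l2 - k - l - i3) (2 * i + l + i2 - k + 1) (k + l + i3 - i2 - l2 + 1) (k + l + i3 - i2 - l2 + 1) (n + i2 - k - l - 1) (by omega) (fun t h1 h2 => (cI (qf b al 0 t (t + (k - i)) (by omega)) (ab tt al 0 (t + (k - i)) ((2 * i + l + i2 - k + 1) - t) (by omega)))) (fun t h1 h2 => (qf (show Par W (k + l + i3 - i2 - l2 + 1) (n + i3 - i2 - l2 - 1) (2 * i2 + l2 - k - l - i3) from fun t h1 h2 => (cE (sh al (-1) t (t + (-n)) (by omega)) (cE (pb D2 al (-1) (t + (-n)) (t + (i2 + l2 - i3 + 1)) (by omega)) (pb c al 0 (t + (i2 + l2 - i3 + 1)) (t + (2 * i2 + l2 - k - l - i3)) (by omega))))) al 0 t (t + (2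 * i2 + l2 - k - l - i3)) (by omega)))
        · have kk126 : (k + l + i3 + 1) ≤ (2 * i2 + l2) := by clear * - b5 b6 z10 z11; omega
          have kk127 : (2 * Q + l2) ≤ (k + l + i3) := by clear * - b0 b2 b4 b6 y21 z10 z9; linarith
          have kk128 : (k + l + i3 + 2) ≤ (2 * i2 + l2) := by clear * - b0 b1 b4 v8 z11 z9; omega
          have kk129 : (4 * i + 3 * l + l2 + 6) ≤ (2 * n + k + i3) := by clear * - b0 b2 b4 b6 y21 z10 z11 z9; linarith
          have kk130 : (i2 + l2) ≤ (k + l) := by clear * - y20; omega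
          have kk131 : (n) ≤ (k + l + l2 + 2) := by clear * - b0 b2 b4 b6 v8 y18 y21 z11 z9; linarith
          have kk132 : (k) ≤ (i + l + 1) := by clear * - v8 y20 y21; omega
          have kk133 : (i + i2 + 1) ≤ (Q + k) := by clear * - b5 b6 y18; omega
          have kk134 : (2 * k + i3) ≤ (2 * i + i2 + l2 + 1) := by clear * - v8; omega
          have kk135 : (k + l + 1) ≤ (n) := by clear * - b0 b2 b4 v8 y21 z10; omega
          have r136 : (2 * i + l + i2 - k + 1) % 2 = 0 := by clear * - ev n1p n2p n3p; omega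
          have r137 : (2 * i2 + l2 - k - l - i3) % 2 = 0 := by clear * - ev n1p n2p n3p; omega
          clear * - al b tt c D2 kk126 kk127 kk128 kk129 kk130 kk131 kk132 kk133 kk134 kk135 r136 r137
          exact midP al (2 * i2 + l2 - k - l - i3) (2 * i + l + i2 - k + 1) (2 * i + l - k + 2) (k + l + i3 - i2 - l2 + 1) (n + i2 - k - l - 1) (by omega) (fun t h1 h2 => (cI (qf b al 0 t (t + (k - i)) (by omega)) (ab tt al 0 (t + (k - i)) ((2 * i + l + i2 - k + 1) - t) (by omega)))) (fun t h1 h2 => (qf (show Par W (k + l + i3 - i2 - l2 + 1) (n + i3 - i2 - l2 - 1) (2 * i2 + l2 - k - l - i3) from fun t h1 h2 => (cE (sh al (-1) t (t + (-n)) (by omega)) (cE (pb D2 al (-1) (t + (-n)) (t + (i2 + l2 - i3 + 1)) (by omega)) (pb c al 0 (t + (i2 + l2 - i3 + 1)) (t + (2 * i2 + l2 - k - l - i3)) (by omega))))) al 0 t (t + (2 * i2 + l2 - k - l - i3)) (by omega)))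
    · by_cases v9 : (n + Q) ≤ (k + l + l2 + i3 + 3)
      · have kk138 : (2 * k + l + l2 + i3 + 4) ≤ (n + 2 * Q + j) := by clear * - b3 y18 z9 ev n1p n2p n3p; omega
        have kk139 : (j + l + l2 + 3) ≤ (n + i3) := by clear * - b0 b6 y2 y21 z9; omega
        have kk140 : (n + Q) ≤ (k + l + l2 + i3 + 3) := by clear * - v9; omega
        have kk141 : (i3) ≤ (j) := by clear * - b1 b5 v9 y18 y22 z9; omega
        have r142 : (2 * k + l + l2 + i3 - 3 * n - j + 2) % 2 = 0 := by clear * - ev n1p n2p n3p; omega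
        clear * - al a1 u2 kk138 kk139 kk140 kk141 r142
        obtain ⟨t, ht⟩ : ∃ t, 2 * t = (2 * k + l + l2 + i3 - 3 * n - j + 2) := ⟨(2 * k + l + l2 + i3 - 3 * n - j + 2) / 2, by omega⟩
        exact al.ninv t (cE (cI (pb a1 al (-1) t (t + (n + j - k)) (by omega)) (ab u2 al 0 (t + (n + j - k)) ((2 * k + l + l2 + i3 - 2 * n - j + 2) - t) (by omega))) (sh al (-1) ((2 * k + l + l2 + i3 - 2 * n - j + 2) - t) t (by omega)))
      · have kk143 : (n) ≤ (j + l + l2 + i3 + 2) := by clear * - y18 z10 z9 ev n1p n2p n3p; omega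
        have kk144 : (j + l + l2 + 3) ≤ (n + i3) := by clear * - b0 b6 y2 y21 z9; omega
        have kk145 : (k + l + l2 + i3 + 3) ≤ (n + Q) := by clear * - v9; omega
        have kk146 : (i3) ≤ (j) := by clear * - b0 b1 y18 y22 z10 z9; omega
        have r147 : (2 * k + l + l2 + i3 - 3 * n - j + 2) % 2 = 0 := by clear * - ev n1p n2p n3p; omega
        clear * - al a1 u2 kk143 kk144 kk145 kk146 r147
        obtain ⟨t, ht⟩ : ∃ t, 2 * t = (2 * k + l + l2 + i3 - 3 * n - j + 2) := ⟨(2 * k + l + l2 + i3 - 3 * n - j + 2) / 2, by omega⟩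
        exact al.ninv t (cE (cI (pb a1 al (-1) t (t + (n + j - k)) (by omega)) (ab u2 al 0 (t + (n + j - k)) ((2 * k + l + l2 + i3 - 2 * n - j + 2) - t) (by omega))) (sh al (-1) ((2 * k + l + l2 + i3 - 2 * n - j + 2) - t) t (by omega)))

theorem t4_7 {W : ℤ → G} {n Q i j k l i2 l2 i3 : ℤ} (al : AL W n Q)
    (hy : (0) ≤ (i) ∧ (i) ≤ (j) ∧ (j + 1) ≤ (Q) ∧ (Q) ≤ (k) ∧ (k + 1) ≤ (n) ∧ (Q) ≤ (i + l + 1) ∧ (k + l + 2) ≤ (n) ∧ (Q) ≤ (i2) ∧ (i2) ≤ (i + l + 1) ∧ (Q) ≤ (i2 + l2 + 1) ∧ (i2 + l2 + 2) ≤ (n) ∧ (n) ≤ (k + l + l2 + 2) ∧ (k + l + l2 + 3) ≤ (n + Q) ∧ (0) ≤ (i3) ∧ (n + i3) ≤ (k + l + l2 + 2) ∧ (k + i2 + l2 + 2) ≤ (n + j + i3) ∧ (j + i3 + 1) ≤ (k) ∧ (k + i2 + l2 + 2) ≤ (n + i3) ∧ (i + 2 * i2 + 1) ≤ (2 * Q + k) ∧ (i + l + 1) ≤ (i2 + l2) ∧ (i2 + l2 + 1) ≤ (k + l) ∧ (i) ≤ (i3) ∧ (i3) ≤ (i))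
    (a1 : Par W (0) (j) (k - j))
    (a2 : Par W (Q + j - k) (j) (k - j))
    (s1 : Ant W (0) (i) (i + j))
    (s2 : Ant W (j + 1) (Q) (i + j))
    (b : Par W (i + 1) (i + l + 1) (k - i))
    (tt : Ant W (Q) (i2) (i + l + i2 + 1))
    (c : Par W (i2 + 1) (i2 + l2 + 1) (k + l - i2 + 1))
    (u1 : Ant W (0) (i3) (k + l + l2 + i3 - n + 2))
    (u2 : Ant W (k + l + l2 - n + 3) (Q) (k + l + l2 + i3 - n + 2))
    (D1 : Par W (i3 + 1) (Q) (i2 + l2 - i3 + 1))
    (D2 : Par W (i2 + l2 + 2) (n) (i3 - i2 - l2 - 1))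
    {L : ℤ} (mx : ∀ a b g, 0 < g → g < n → Par W a b g → b - a ≤ L)
    (hL : L ≤ (n - j - 3) ∧ L ≤ (n + Q - k - 3) ∧ L ≤ (n - l - 3) ∧ L ≤ (n + i - k - 2) ∧ L ≤ (n - l2 - 3) ∧ L ≤ (n + i3 - Q - 2) ∧ L ≤ (i2 + l2 - 1) ∧ L ≤ (n + i2 - k - l - 3))
    (bd0 : Bd W n L (j) (i) (k))
    (bd2 : Bd W n L (k + l + l2 - n + 2) (i3) (i2 + l2 + 1))
    (n1 : Nd W (j) (i) (k))
    (n2 : Nd W (i + l + 1) (i2) (k + l + 1))
    (n3 : Nd W (k + l + l2 - n + 2) (i3) (i2 + l2 + 1))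
    (b0 : (2 * l + 3) ≤ (n))
    (b1 : (2 * i + j + 1) ≤ (k))
    (b2 : (n + 2 * Q) ≤ (i + l + i2 + 2 * l2 + 4))
    (b3 : (k + l + i3 + 1) ≤ (2 * i2 + l2))
    (b4 : (n + i) ≤ (2 * k + l))
    (b5 : (i + 2 * k + 2 * l + 3) ≤ (n + j + 2 * i2)) : False := by
  have ev := al.ev
  obtain ⟨y0, y1, y2, y3, y4, y5, y6, y7, y8, y9, y10, y11, y12, y13, y14, y15, y16, y17, y18, y19, y20, y21, y22⟩ := id hy
  have n1p := And.intro n1.p1 n1.p2
  have n2p := And.intro n2.p1 n2.p2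
  have n3p := And.intro n3.p1 n3.p2
  by_cases z8 : (n + 2 * Q + j) ≤ (i + 2 * k + 2 * l + 2)
  · exact t4_8 al hy a1 a2 s1 s2 b tt c u1 u2 D1 D2 mx hL bd0 bd2 n1 n2 n3 (by clear * - b0; omega) (by clear * - b1; omega) (by clear * - b2; omega) (by clear * - b3; omega) (by clear * - b4; omega) (by clear * - b5; omega) (by clear * - z8; omega)
  · exact t4_9 al hy a1 a2 s1 s2 b tt c u1 u2 D1 D2 mx hL bd0 bd2 n1 n2 n3 (by clear * - b0; omega) (by clear * - b1; omega) (by clear * - b2; omega) (by clear * - b3; omega) (by clear * - b4; omega) (by clear * - z8; omega)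

theorem t4_22 {W : ℤ → G} {n Q i j k l i2 l2 i3 : ℤ} (al : AL W n Q)
    (hy : (0) ≤ (i) ∧ (i) ≤ (j) ∧ (j + 1) ≤ (Q) ∧ (Q) ≤ (k) ∧ (k + 1) ≤ (n) ∧ (Q) ≤ (i + l + 1) ∧ (k + l + 2) ≤ (n) ∧ (Q) ≤ (i2) ∧ (i2) ≤ (i + l + 1) ∧ (Q) ≤ (i2 + l2 + 1) ∧ (i2 + l2 + 2) ≤ (n) ∧ (n) ≤ (k + l + l2 + 2) ∧ (k + l + l2 + 3) ≤ (n + Q) ∧ (0) ≤ (i3) ∧ (n + i3) ≤ (k + l + l2 + 2) ∧ (k + i2 + l2 + 2) ≤ (n + j + i3) ∧ (j + i3 + 1) ≤ (k) ∧ (k + i2 + l2 + 2) ≤ (n + i3) ∧ (i + 2 * i2 + 1) ≤ (2 * Q + k) ∧ (i + l + 1) ≤ (i2 + l2) ∧ (i2 + l2 + 1) ≤ (k + l) ∧ (i) ≤ (i3) ∧ (i3) ≤ (i))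
    (a1 : Par W (0) (j) (k - j))
    (a2 : Par W (Q + j - k) (j) (k - j))
    (s1 : Ant W (0) (i) (i + j))
    (s2 : Ant W (j + 1) (Q) (i + j))
    (b : Par W (i + 1) (i + l + 1) (k - i))
    (tt : Ant W (Q) (i2) (i + l + i2 + 1))
    (c : Par W (i2 + 1) (i2 + l2 + 1) (k + l - i2 + 1))
    (u1 : Ant W (0) (i3) (k + l + l2 + i3 - n + 2))
    (u2 : Ant W (k + l + l2 - n + 3) (Q) (k + l + l2 + i3 - n + 2))
    (D1 : Par W (i3 + 1) (Q) (i2 + l2 - i3 + 1))
    (D2 : Par W (i2 + l2 + 2) (n) (i3 - i2 - l2 - 1))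
    {L : ℤ} (mx : ∀ a b g, 0 < g → g < n → Par W a b g → b - a ≤ L)
    (hL : L ≤ (n - j - 3) ∧ L ≤ (n + Q - k - 3) ∧ L ≤ (n - l - 3) ∧ L ≤ (n + i - k - 2) ∧ L ≤ (n - l2 - 3) ∧ L ≤ (n + i3 - Q - 2) ∧ L ≤ (i2 + l2 - 1) ∧ L ≤ (n + i2 - k - l - 3))
    (bd0 : Bd W n L (j) (i) (k))
    (bd2 : Bd W n L (k + l + l2 - n + 2) (i3) (i2 + l2 + 1))
    (n1 : Nd W (j) (i) (k))
    (n2 : Nd W (i + l + 1) (i2) (k + l + 1))
    (n3 : Nd W (k + l + l2 - n + 2) (i3) (i2 + l2 + 1))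
    (b0 : (2 * l + 3) ≤ (n))
    (b1 : (2 * i + j + 1) ≤ (k))
    (b2 : (n + 2 * Q) ≤ (i + l + i2 + 2 * l2 + 4))
    (b3 : (k + l + i3 + 1) ≤ (2 * i2 + l2))
    (b4 : (n + i) ≤ (2 * k + l))
    (b5 : (n + j + 2 * i2) ≤ (i + 2 * k + 2 * l + 2))
    (b6 : (n + 2 * i + j + i2 + 1) ≤ (2 * Q + 2 * k + l)) : False := by
  have ev := al.ev
  obtain ⟨y0, y1, y2, y3, y4, y5, y6, y7, y8, y9, y10, y11, y12, y13, y14, y15, y16, y17, y18, y19, y20, y21, y22⟩ := id hy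
  have n1p := And.intro n1.p1 n1.p2
  have n2p := And.intro n2.p1 n2.p2
  have n3p := And.intro n3.p1 n3.p2
  by_cases z57 : (n + i + 2 * j + i2 + 1) ≤ (2 * Q + 2 * k + l)
  · by_cases v23 : (n + i + j + i2) ≤ (Q + 2 * k + l + 1)
    · have kk757 : (2 * k + l + 2) ≤ (n + i + i2) := by clear * - b3 y13 y17 y22; omega
      have kk758 : (2 * k + l + 3) ≤ (n + i + i2) := by clear * - b3 y13 y17 y22; omega
      have kk759 : (6 * k + 3 * l + 5) ≤ (3 * n + i + 2 * j + 3 * i2) := by clear * - b3 y13 y15 y17 y22; omega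
      have kk760 : (4 * k + l + 1) ≤ (n + i + 3 * i2 + 2 * l2) := by clear * - b2 b3 b5 v23 y13 y15 y17; linarith
      have kk761 : (i2) ≤ (k) := by clear * - b0 b5 y1; omega
      have kk762 : (i2 + l2) ≤ (k + l) := by clear * - y20; omega
      have kk763 : (n + j) ≤ (k + l + l2 + 2) := by clear * - b2 z57; omega
      have kk764 : (n + i + j + i2) ≤ (Q + 2 * k + l + 1) := by clear * - v23; omega
      have r765 : (2 * n + i + j) % 2 = 0 := by clear * - ev n1p n2p n3p; omega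
      have r766 : (n + i + i2 - 2 * k - l - 1) % 2 = 0 := by clear * - ev n1p n2p n3p; omega
      clear * - al s2 b c kk757 kk758 kk759 kk760 kk761 kk762 kk763 kk764 r765 r766
      exact midP al (n + i + i2 - 2 * k - l - 1) (2 * n + i + j) (2 * k + l - i2 + 2) (2 * k + l - i2 + 2) (n + i + i2 + l2 - k + 1) (by omega) (fun t h1 h2 => (cE (ab s2 al 1 t ((n + i + j) - t) (by omega)) (sh al 1 ((n + i + j) - t) ((2 * n + i + j) - t) (by omega)))) (fun t h1 h2 => (cE (cE (pb c al 0 t (t + (i2 - k - l - 1)) (by omega)) (pb b al 0 (t + (i2 - k - l - 1)) (t + (i + i2 - 2 * k - l - 1)) (by omega))) (sh al 1 (t + (i + i2 - 2 * k - l - 1)) (t + (n + i + i2 - 2 * k - l - 1)) (by omega))))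
    · have kk767 : (2 * k + l + 2) ≤ (n + i + i2) := by clear * - v23 z57; omega
      have kk768 : (n + i + 2 * j + i2 + 1) ≤ (2 * Q + 2 * k + l) := by clear * - z57; omega
      have kk769 : (i + 2 * k + l + 3) ≤ (n + 2 * Q + i2) := by clear * - b6 v23 z57; omega
      have kk770 : (n + i + 2 * j) ≤ (2 * Q + l + i2 + 2 * l2 + 1) := by clear * - b2 b6 v23 z57; omega
      have kk771 : (i2) ≤ (k) := by clear * - b0 b5 y1; omega
      have kk772 : (i2 + l2) ≤ (k + l) := by clear * - y20; omega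
      have kk773 : (Q + 2 * k + l + 1) ≤ (n + i + j + i2) := by clear * - v23; omega
      have kk774 : (Q + k) ≤ (i + i2 + l2 + 1) := by clear * - b2 v23 z57; omega
      have r775 : (2 * n + i + j) % 2 = 0 := by clear * - ev n1p n2p n3p; omega
      have r776 : (n + i + i2 - 2 * k - l - 1) % 2 = 0 := by clear * - ev n1p n2p n3p; omega
      clear * - al s2 b c kk767 kk768 kk769 kk770 kk771 kk772 kk773 kk774 r775 r776
      exact midP al (n + i + i2 - 2 * k - l - 1) (2 * n + i + j) (n + i + j - Q + 1) (2 * k + l - i2 + 2) (n + i + i2 + l2 - k + 1) (by omega) (fun t h1 h2 => (cE (ab s2 al 1 t ((n + i + j) - t) (by omega)) (sh al 1 ((n + i + j) - t) ((2 * n + i + j) - t) (by omega)))) (fun t h1 h2 => (cE (cE (pb c al 0 t (t + (i2 - k - l - 1)) (by omega)) (pb b al 0 (t + (i2 - k - l - 1)) (t + (i + i2 - 2 * k - l - 1)) (by omega))) (sh al 1 (t + (i + i2 - 2 * k - l - 1)) (t + (n + i + i2 - 2 * k - l - 1))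 (by omega))))
  · by_cases z58 : (n + i + 2 * j + i3 + 1) ≤ (2 * Q + k + i2 + l2)
    · by_cases z59 : (2 * j + 5 * k + 2 * l + l2 + 5) ≤ (3 * n + 3 * i + i2 + i3)
      · by_cases z60 : (n + 3 * i + 3 * i2 + l2 + 1) ≤ (2 * Q + 3 * k + 2 * l + i3)
        · by_cases v24 : (j + k + l + i3) ≤ (i + 2 * i2 + l2)
          · have kk777 : (k + i2 + l2 + 2) ≤ (n + i + i3) := by clear * - y13 y17 y22; omega
            have kk778 : (n + 3 * i + 3 * i2 + l2 + 1) ≤ (2 * Q + 3 * k + 2 * l + i3) := by clear * - z60; omega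
            have kk779 : (i + 5 * i2 + 3 * l2 + 3) ≤ (n + 2 * j + k + 2 * l + 3 * i3) := by clear * - b5 y12 y21 z57 z60; omega
            have kk780 : (3 * k + 3 * i2 + 3 * l2 + 5) ≤ (3 * n + i + 3 * i3) := by clear * - y13 y17 y22; omega
            have kk781 : (i2) ≤ (k) := by clear * - b0 b5 v24 z57 z60; omega
            have kk782 : (i2 + l2) ≤ (k + l) := by clear * - y20; omega
            have kk783 : (i) ≤ (j) := by clear * - v24 z57 z60; omega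
            have kk784 : (Q + k) ≤ (i + i2 + l2 + 1) := by clear * - b2 v24 y15; omega
            have kk785 : (i3) ≤ (k) := by clear * - b0 b1 b4 b5 v24 y22 z57 z59 z60; linarith
            have kk786 : (n + i3) ≤ (k + l + i2 + l2 + 2) := by clear * - b4 b5 v24 y15 z57 z60; omega
            have kk787 : (j + 2 * k + l + 1) ≤ (n + i + i2) := by clear * - v24 y17; omega
            have kk788 : (j + k + l + i3) ≤ (i + 2 * i2 + l2) := by clear * - v24; omega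
            have r789 : (j + 2 * k + l - n - i2 + 1) % 2 = 0 := by clear * - ev n1p n2p n3p; omega
            have r790 : (n + i + i3 - k - i2 - l2 - 1) % 2 = 0 := by clear * - ev n1p n2p n3p; omega
            clear * - al s2 b c D2 kk777 kk778 kk779 kk780 kk781 kk782 kk783 kk784 kk785 kk786 kk787 kk788 r789 r790
            exact midP al (n + i + i3 - k - i2 - l2 - 1) (j + 2 * k + l - n - i2 + 1) (k + i2 + l2 - n - i3 + 2) (k + i2 + l2 - n - i3 + 2) (n + i + i3 - k - i2 - l2 - 1) (by omega) (fun t h1 h2 => (cI (qf (show Par W (2 * k + l - i2 + 2) (k + l + l2 + 2) (n + i + i2 - 2 * k - l - 1) from fun t h1 h2 => (cE (sh al (-1) t (t + (-n)) (by omega)) (cE (cE (pb c al (-1) (t + (-n)) (t + (i2 - k - l - 1)) (by omega)) (pb b al 0 (t + (i2 - k - l - 1)) (t + (i + i2 - 2 * k - l - 1)) (by omega))) (sh al 1 (t + (i + i2 - 2 * k - l - 1)) (t + (n + i + i2 - 2 * k - l - 1)) (by omega))))) al (-1) t (t + (2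 * n + i + i2 - 2 * k - l - 1)) (by omega)) (qa s2 al 1 (t + (2 * n + i + i2 - 2 * k - l - 1)) ((j + 2 * k + l - n - i2 + 1) - t) (by omega)))) (fun t h1 h2 => (cE (qf D2 al (-1) t (t + (n + i3 - i2 - l2 - 1)) (by omega)) (pb b al 0 (t + (n + i3 - i2 - l2 - 1)) (t + (n + i + i3 - k - i2 - l2 - 1)) (by omega))))
          · have kk791 : (k + i2 + l2 + 2) ≤ (n + i + i3) := by clear * - v24 y13 y22 z59; omega
            have kk792 : (n + i + 2 * j + i3 + 1) ≤ (2 * Q + k + i2 + l2) := by clear * - z58; omega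
            have kk793 : (k + i2 + l2 + 3) ≤ (n + i + i3) := by clear * - v24 y13 y22 z59; omega
            have kk794 : (2 * j + 5 * k + 2 * l + l2 + 5) ≤ (3 * n + 3 * i + i2 + i3) := by clear * - z59; omega
            have kk795 : (i2) ≤ (k) := by clear * - b0 b5 v24 z57 z58; omega
            have kk796 : (i2 + l2) ≤ (k + l) := by clear * - y20; omega
            have kk797 : (i) ≤ (j) := by clear * - v24 z57 z58; omega
            have kk798 : (Q + k) ≤ (i + i2 + l2 + 1) := by clear * - b2 b5 v24 y13 z57 z58 z59; linarith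
            have kk799 : (i3) ≤ (k) := by clear * - b0 b1 b4 b5 v24 y22 z57 z58 z59; linarith
            have kk800 : (n + i3) ≤ (k + l + i2 + l2 + 2) := by clear * - b4 b5 y15 z57 z58; omega
            have kk801 : (k + i2 + l2 + 1) ≤ (n + i3) := by clear * - y17; omega
            have kk802 : (i + 2 * i2 + l2) ≤ (j + k + l + i3) := by clear * - v24; omega
            have r803 : (j + 2 * k + l - n - i2 + 1) % 2 = 0 := by clear * - ev n1p n2p n3p; omega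
            have r804 : (n + i + i3 - k - i2 - l2 - 1) % 2 = 0 := by clear * - ev n1p n2p n3p; omega
            clear * - al s2 b c D2 kk791 kk792 kk793 kk794 kk795 kk796 kk797 kk798 kk799 kk800 kk801 kk802 r803 r804
            exact midP al (n + i + i3 - k - i2 - l2 - 1) (j + 2 * k + l - n - i2 + 1) (j + 2 * k + l - n - i - i2 + 2) (k + i2 + l2 - n - i3 + 2) (n + i + i3 - k - i2 - l2 - 1) (by omega) (fun t h1 h2 => (cI (qf (show Par W (2 * k + l - i2 + 2) (k + l + l2 + 2) (n + i + i2 - 2 * k - l - 1) from fun t h1 h2 => (cE (sh al (-1) t (t + (-n)) (by omega)) (cE (cE (pb c al (-1) (t + (-n)) (t + (i2 - k - l - 1)) (by omega)) (pb b al 0 (t + (i2 - k - l - 1)) (t + (i + i2 - 2 * k - l - 1)) (by omega))) (sh al 1 (t + (i + i2 - 2 * k - l - 1)) (t + (n + i + i2 - 2 * k - l - 1)) (by omega))))) al (-1) t (t + (2 * n + i + i2 - 2 * k - l - 1)) (by omega)) (qa s2 al 1 (t + (2 * n + i + i2 - 2 * k - l - 1))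 ((j + 2 * k + l - n - i2 + 1) - t) (by omega)))) (fun t h1 h2 => (cE (qf D2 al (-1) t (t + (n + i3 - i2 - l2 - 1)) (by omega)) (pb b al 0 (t + (n + i3 - i2 - l2 - 1)) (t + (n + i + i3 - k - i2 - l2 - 1)) (by omega))))
        · have kk805 : (2 * k + l + 2) ≤ (n + i + i2) := by clear * - y15 z58 z60; omega
          have kk806 : (n + 2 * i + j + i2) ≤ (2 * Q + 2 * k + l) := by clear * - b6; omega
          have kk807 : (i + 1) ≤ (Q) := by clear * - b6 y15 z57 z60; omega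
          have kk808 : (n + i + j) ≤ (Q + k + l + l2 + 1) := by clear * - b2 b6 y15 z60; omega
          have kk809 : (2 * j + 2 * k + l + 3) ≤ (n + 3 * i + i2) := by clear * - b5 y12 y21 z57 z58 z60; omega
          have kk810 : (2 * j + 4 * k + l + 1) ≤ (n + 3 * i + 3 * i2 + 2 * l2) := by clear * - b5 y15 y21 z57 z58 z60; omega
          have kk811 : (i2) ≤ (k) := by clear * - b0 b5 b6 z57; omega
          have kk812 : (i2 + l2) ≤ (k + l) := by clear * - y20; omega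
          have kk813 : (k) ≤ (i2 + l2 + 1) := by clear * - b2 y15 z57 z58; omega
          have kk814 : (2 * k + l + 1) ≤ (n + j + i2) := by clear * - y15 z57 z58; omega
          have kk815 : (Q + k) ≤ (i + i2 + l2 + 1) := by clear * - b2 y15 z58 z60; omega
          have kk816 : (Q + 2 * k + l + 1) ≤ (n + i + j + i2) := by clear * - y15 z57 z58 z60; omega
          have r817 : (i + j) % 2 = 0 := by clear * - ev n1p n2p n3p; omega
          have r818 : (n + i + i2 - 2 * k - l - 1) % 2 = 0 := by clear * - ev n1p n2p n3p; omega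
          clear * - al s2 b c kk805 kk806 kk807 kk808 kk809 kk810 kk811 kk812 kk813 kk814 kk815 kk816 r817 r818
          exact mid2 al (n + i + i2 - 2 * k - l - 1) (i + j) (i + j) (j + 1) (Q) (-2) (2 * k + l - n - i2 + 2) (i + i2 + l2 - k + 1) (by omega) (fun t h1 h2 => ⟨by omega, (qa s2 al 0 t ((i + j) - t) (by omega))⟩) (fun t h1 h2 => ⟨by omega, (ab s2 al 0 t ((i + j) - t) (by omega))⟩) (fun t h1 h2 => (cE (qf (show Par W (2 * k + l - i2 + 2) (k + l + l2 + 2) (n + i + i2 - 2 * k - l - 1) from fun t h1 h2 => (cE (sh al (-1) t (t + (-n)) (by omega)) (cE (cE (pb c al (-1) (t + (-n)) (t + (i2 - k - l - 1)) (by omega)) (pb b al 0 (t + (i2 - k - l - 1)) (t + (i + i2 - 2 * k - l - 1)) (by omega))) (sh al 1 (t + (i + i2 - 2 * k - l - 1)) (t + (n + i + i2 - 2 * k - l - 1)) (by omega))))) al (-1) t (t + (2 * n + i + i2 - 2 * k - l - 1)) (by omega)) (sh al (-1) (t + (2 * n + i + i2 - 2 * k - l - 1)) (t + (n + i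 + i2 - 2 * k - l - 1)) (by omega))))
      · by_cases z61 : (5 * n + 5 * i + j + 4 * i2) ≤ (2 * Q + 9 * k + 5 * l + l2 + i3 + 6)
        · by_cases z62 : (2 * k + l + 1) ≤ (n + i + j)
          · by_cases z63 : (n + i + j + i2) ≤ (3 * k + l)
            · have kk819 : (i2 + l2 + 1) ≤ (k + l) := by clear * - y20; omega
              have kk820 : (k + l + 2) ≤ (n) := by clear * - y17 z57 z58 z62 z63; omega
              have kk821 : (k + l + i3 + 1) ≤ (2 * i2 + l2) := by clear * - z57 z58; omega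
              have kk822 : (n + i + j + i2) ≤ (3 * k + l) := by clear * - z63; omega
              have kk823 : (4 * k + 2 * l + 2) ≤ (2 * n + i + j + i2) := by clear * - y17 z57 z58 z62; omega
              have kk824 : (n + i + 2 * i2 + l2) ≤ (3 * k + 2 * l + i3 + 1) := by clear * - b5 y12 y21 y7 z59 z62; omega
              have kk825 : (2 * k + l + 1) ≤ (n + i + j) := by clear * - z62; omega
              have kk826 : (i2 + l2) ≤ (k + l) := by clear * - y20; omega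
              have kk827 : (n) ≤ (k + l + l2 + 2) := by clear * - b4 b5 y21 z57 z58 z62; omega
              have kk828 : (i2) ≤ (k) := by clear * - z62 z63; omega
              have kk829 : (2 * k + l + 2) ≤ (n + i2) := by clear * - y17 z57 z58; omega
              have kk830 : (n + j) ≤ (k + l + l2 + 2) := by clear * - b5 y21 z57 z58; omega
              have r831 : (2 * i2 + l2 - k - l - i3) % 2 = 0 := by clear * - ev n1p n2p n3p; omega
              have r832 : (3 * k + l - n - i - j - i2 + 1) % 2 = 0 := by clear * - ev n1p n2p n3p; omega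
              clear * - al a1 b c D2 n2 kk819 kk820 kk821 kk822 kk823 kk824 kk825 kk826 kk827 kk828 kk829 kk830 r831 r832
              exact n2.f1 (rEE (sh al 1 (i2) (n + i2) (by omega)) (cE (qf D2 al 0 (k + l + 1) (k + l + i3 - i2 - l2) (by omega)) (sh al 1 (k + l + i3 - i2 - l2) (n + k + l + i3 - i2 - l2) (by omega))) (Eq.symm (rotL (2 * i2 + l2 - k - l - i3) (3 * k + l - n - i - j - i2 + 1) (n + k + l + i3 - i2 - l2) (n + i2) (by omega) (fun t h1 h2 => (cE (qf (show Par W (k + l + i3 - i2 - l2 + 1) (n + i3 - i2 - l2 - 1) (2 * i2 + l2 - k - l - i3) from fun t h1 h2 => (cE (sh al (-1) t (t + (-n)) (by omega)) (cE (pb D2 al (-1) (t + (-n)) (t + (i2 + l2 - i3 + 1)) (by omega)) (pb c al 0 (t + (i2 + l2 - i3 + 1)) (t + (2 * i2 + l2 - k - l - i3)) (by omega))))) al 1 t (t + (2 * i2 + l2 - n - k - l - i3)) (by omega)) (sh al 1 (t + (2 * i2 + l2 - n - k - l - i3)) (t + (2 * i2 + l2 - k - l - i3)) (by omega))))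 (fun t h1 h2 => (cE (cE (pb (show Par W (2 * k + l - i2 + 2) (k + l + l2 + 2) (n + i + i2 - 2 * k - l - 1) from fun t h1 h2 => (cE (sh al (-1) t (t + (-n)) (by omega)) (cE (cE (pb c al (-1) (t + (-n)) (t + (i2 - k - l - 1)) (by omega)) (pb b al 0 (t + (i2 - k - l - 1)) (t + (i + i2 - 2 * k - l - 1)) (by omega))) (sh al 1 (t + (i + i2 - 2 * k - l - 1)) (t + (n + i + i2 - 2 * k - l - 1)) (by omega))))) al 0 t (t + (2 * k + l - n - i - i2 + 1)) (by omega)) (qf a1 al 1 (t + (2 * k + l - n - i - i2 + 1)) (t + (3 * k + l - 2 * n - i - j - i2 + 1)) (by omega))) (sh al 1 (t + (3 * k + l - 2 * n - i - j - i2 + 1)) (t + (3 * k + l - n - i - j - i2 + 1)) (by omega)))))))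
            · have kk833 : (i + 1) ≤ (k) := by clear * - b0 b1 b4 b5 z63; omega
              have kk834 : (k + 1) ≤ (n + i) := by clear * - b0 b5 y20 y21 z57 z58 z62 z63; linarith
              have kk835 : (n + i2) ≤ (k + 2 * l + 2) := by clear * - b1 b5 y20 y22 y7 z61 z63; linarith
              clear * - al b mx hL kk833 kk834 kk835
              exact absurd (mx (i - n + 1) (i + l - n + 1) (k - i) (by omega) (by omega) fun t h1 h2 => (cE (qf b al (-1) t (t + (n + k - i)) (by omega)) (sh al (-1) (t + (n + k - i)) (t + (k - i)) (by omega)))) (by omega)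
          · by_cases v25 : (n + Q + j) ≤ (i + k + 2 * l + 3)
            · have kk836 : (k + l + i3 + 1) ≤ (2 * i2 + l2) := by clear * - z57 z58; omega
              have kk837 : (2 * i + k + 3 * l + l2 + 6) ≤ (2 * n + 2 * j + i3) := by clear * - b0 y12 y17 y21 z57 z58 z59; linarith
              have kk838 : (k + l + i3 + 2) ≤ (2 * i2 + l2) := by clear * - z57 z58 ev n1p n2p n3p; omega
              have kk839 : (2 * i + 5 * k + 5 * l + l2 + 8) ≤ (4 * n + 2 * j + 2 * i2 + i3) := by clear * - b0 y12 y17 y21 z57 z58 z59; linarith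
              have kk840 : (i2 + l2) ≤ (k + l) := by clear * - y20; omega
              have kk841 : (n) ≤ (k + l + l2 + 2) := by clear * - b5 b6 y13 z57 z58; omega
              have kk842 : (i2) ≤ (i + l + 1) := by clear * - b5 y15 z57 z58; omega
              have kk843 : (n + Q + j + i2) ≤ (i + 2 * k + 2 * l + 3) := by clear * - b0 b5 b6 v25 z57; omega
              have kk844 : (n + j) ≤ (k + l + l2 + 2) := by clear * - b5 y21 z57 z58; omega
              have kk845 : (n + Q + j) ≤ (i + k + 2 * l + 3) := by clear * - v25; omega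
              have kk846 : (k + l + 1) ≤ (n) := by clear * - b0 b5 b6 y17 z57 z58; omega
              have kk847 : (n + j + i3) ≤ (i + k + l + l2 + 2) := by clear * - b5 z57 z58; omega
              have r848 : (i + 2 * k + 2 * l - 3 * n - j + 2) % 2 = 0 := by clear * - ev n1p n2p n3p; omega
              have r849 : (2 * i2 + l2 - k - l - i3) % 2 = 0 := by clear * - ev n1p n2p n3p; omega
              clear * - al a2 tt c D2 kk836 kk837 kk838 kk839 kk840 kk841 kk842 kk843 kk844 kk845 kk846 kk847 r848 r849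
              exact midP al (2 * i2 + l2 - k - l - i3) (i + 2 * k + 2 * l - 3 * n - j + 2) (i + 2 * k + 2 * l - 2 * n - j - i2 + 3) (k + l + i3 - n - i2 - l2 + 1) (i2 - k - l - 1) (by omega) (fun t h1 h2 => (cE (cI (cE (pb a2 al (-1) t (t + (n + j - k)) (by omega)) (pb c al (-1) (t + (n + j - k)) (t + (2 * n + j + i2 - 2 * k - l - 1)) (by omega))) (ab tt al 0 (t + (2 * n + j + i2 - 2 * k - l - 1)) ((i + 2 * k + 2 * l - 2 * n - j + 2) - t) (by omega))) (sh al (-1) ((i + 2 * k + 2 * l - 2 * n - j + 2) - t) ((i + 2 * k + 2 * l - 3 * n - j + 2) - t) (by omega)))) (fun t h1 h2 => (cE (qf (show Par W (k + l + i3 - i2 - l2 + 1) (n + i3 - i2 - l2 - 1) (2 * i2 + l2 - k - l - i3) from fun t h1 h2 => (cE (sh al (-1) t (t + (-n)) (by omega)) (cE (pb D2 al (-1) (t + (-n)) (t + (i2 + l2 - i3 + 1)) (by omega)) (pb c al 0 (t + (i2 + l2 - i3 + 1)) (t + (2 * i2 + l2 - k - l - i3)) (by omega))))) al (-1) t (t + (n + 2 * i2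 + l2 - k - l - i3)) (by omega)) (sh al (-1) (t + (n + 2 * i2 + l2 - k - l - i3)) (t + (2 * i2 + l2 - k - l - i3)) (by omega))))
            · have kk850 : (k + l + i3 + 1) ≤ (2 * i2 + l2) := by clear * - z57 z58; omega
              have kk851 : (2 * Q + l2) ≤ (k + l + i3) := by clear * - y13 y17 y22 z57 z62; omega
              have kk852 : (k + l + i3 + 2) ≤ (2 * i2 + l2) := by clear * - z57 z58 ev n1p n2p n3p; omega
              have kk853 : (2 * i + 5 * k + 5 * l + l2 + 8) ≤ (4 * n + 2 * j + 2 * i2 + i3) := by clear * - v25 y13 y17 y22 z57 z58 z62; linarith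
              have kk854 : (i2 + l2) ≤ (k + l) := by clear * - y20; omega
              have kk855 : (n) ≤ (k + l + l2 + 2) := by clear * - b5 b6 y13 z57 z58; omega
              have kk856 : (i2) ≤ (i + l + 1) := by clear * - b5 y15 z57 z58; omega
              have kk857 : (n + Q + j + i2) ≤ (i + 2 * k + 2 * l + 3) := by clear * - b5 y13 y17 y22 z57 z58 z62; linarith
              have kk858 : (i + l + 1) ≤ (Q + l2) := by clear * - b5 v25 y21 z57 z58; omega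
              have kk859 : (i + k + 2 * l + 3) ≤ (n + Q + j) := by clear * - v25; omega
              have kk860 : (k + l + 1) ≤ (n) := by clear * - b0 b5 b6 y17 z57 z58; omega
              have kk861 : (n + j + i3) ≤ (i + k + l + l2 + 2) := by clear * - b5 z57 z58; omega
              have r862 : (i + 2 * k + 2 * l - 3 * n - j + 2) % 2 = 0 := by clear * - ev n1p n2p n3p; omega
              have r863 : (2 * i2 + l2 - k - l - i3) % 2 = 0 := by clear * - ev n1p n2p n3p; omega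
              clear * - al a2 tt c D2 kk850 kk851 kk852 kk853 kk854 kk855 kk856 kk857 kk858 kk859 kk860 kk861 r862 r863
              exact midP al (2 * i2 + l2 - k - l - i3) (i + 2 * k + 2 * l - 3 * n - j + 2) (i + 2 * k + 2 * l - 2 * n - j - i2 + 3) (k + l + i3 - n - i2 - l2 + 1) (i2 - k - l - 1) (by omega) (fun t h1 h2 => (cE (cI (cE (pb a2 al (-1) t (t + (n + j - k)) (by omega)) (pb c al (-1) (t + (n + j - k)) (t + (2 * n + j + i2 - 2 * k - l - 1)) (by omega))) (ab tt al 0 (t + (2 * n + j + i2 - 2 * k - l - 1)) ((i + 2 * k + 2 * l - 2 * n - j + 2) - t) (by omega))) (sh al (-1) ((i + 2 * k + 2 * l - 2 * n - j + 2) - t) ((i + 2 * k + 2 * l - 3 * n - j + 2) - t) (by omega)))) (fun t h1 h2 => (cE (qf (show Par W (k + l + i3 - i2 - l2 + 1) (n + i3 - i2 - l2 - 1) (2 * i2 + l2 - k - l - i3) from fun t h1 h2 => (cE (sh al (-1) t (t + (-n)) (by omega)) (cE (pb D2 al (-1) (t + (-n)) (t + (i2 + l2 - i3 + 1)) (by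 omega)) (pb c al 0 (t + (i2 + l2 - i3 + 1)) (t + (2 * i2 + l2 - k - l - i3)) (by omega))))) al (-1) t (t + (n + 2 * i2 + l2 - k - l - i3)) (by omega)) (sh al (-1) (t + (n + 2 * i2 + l2 - k - l - i3)) (t + (2 * i2 + l2 - k - l - i3)) (by omega))))
        · by_cases z64 : (Q) ≤ (i + j + 1)
          · have kk864 : (n + i + j) ≤ (k + l + l2 + i3 + 1) := by clear * - b5 y21 z58 z59 z61; omega
            have kk865 : (k + l + l2 + i3 + 3) ≤ (2 * n + i + j) := by clear * - b1 b5 b6 y21 z58 z59 z61 z64; linarith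
            have kk866 : (k + l + l2 + 3) ≤ (n + Q) := by clear * - y12; omega
            have kk867 : (Q) ≤ (i + j + 1) := by clear * - z64; omega
            have kk868 : (i3) ≤ (i) := by clear * - y22; omega
            clear * - al s1 u1 kk864 kk865 kk866 kk867 kk868
            exact al.ubQ (k + l + l2 + i3 - n - i - j + 2) (by omega) (by omega) fun t h1 h2 => (cE (sh al (-1) t (t + (-n)) (by omega)) (cII (ab s1 al (-1) (t + (-n)) ((i + j) - t) (by omega)) (qa u1 al 0 ((i + j) - t) (t + (k + l + l2 + i3 - n - i - j + 2)) (by omega))))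
          · by_cases z65 : (n + i2) ≤ (k + 2 * l + 2)
            · have kk869 : (i + 1) ≤ (k) := by clear * - b0 b4 y21 z58 z59 z61 z64 z65; linarith
              have kk870 : (k + 1) ≤ (n + i) := by clear * - b4 b5 y18 y21 z58 z59 z61 z64 z65; linarith
              have kk871 : (n + i2) ≤ (k + 2 * l + 2) := by clear * - z65; omega
              clear * - al b mx hL kk869 kk870 kk871
              exact absurd (mx (i - n + 1) (i + l - n + 1) (k - i) (by omega) (by omega) fun t h1 h2 => (cE (qf b al (-1) t (t + (n + k - i)) (by omega)) (sh al (-1) (t + (n + k - i)) (t + (k - i)) (by omega)))) (by omega)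
            · have kk872 : (Q + j) ≤ (i + k) := by clear * - b5 y7 z65; omega
              have kk873 : (i + 1) ≤ (j) := by clear * - b6 z57; omega
              have kk874 : (k + l + i3 + 1) ≤ (2 * i2 + l2) := by clear * - z57 z58; omega
              have kk875 : (i + 2 * i2 + l2) ≤ (j + k + l + i3) := by clear * - y13 y17 y22 z59; omega
              have kk876 : (j + l + i3 + 1) ≤ (i + i2 + l2) := by clear * - b5 z57 z58 z65; omega
              have kk877 : (k + i2 + l2 + 1) ≤ (n + i3) := by clear * - y17; omega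
              have kk878 : (i2 + l2) ≤ (k + l) := by clear * - y20; omega
              have kk879 : (n) ≤ (k + l + l2 + 2) := by clear * - b5 y13 z57 z58 z59 z61 z64; linarith
              have kk880 : (0) ≤ (i + 1) := by clear * - y13 y22; omega
              have kk881 : (j) ≤ (i + l + 1) := by clear * - b4 b5 y15 y21 z58 z59 z61 z64; linarith
              have r882 : (j - i) % 2 = 0 := by clear * - ev n1p n2p n3p; omega
              have r883 : (2 * i2 + l2 - k - l - i3) % 2 = 0 := by clear * - ev n1p n2p n3p; omega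
              clear * - al a1 a2 b c D2 n1 kk872 kk873 kk874 kk875 kk876 kk877 kk878 kk879 kk880 kk881 r882 r883
              exact n1.f1 (rEE (qf a2 al 0 (i) (i + k - j) (by omega)) (sh al 0 (k) (k) (by omega)) (rotL (j - i) (2 * i2 + l2 - k - l - i3) (i + k - j) (k) (by omega) (fun t h1 h2 => (cE (pb a1 al 0 t (t + (j - k)) (by omega)) (qf b al 0 (t + (j - k)) (t + (j - i)) (by omega)))) (fun t h1 h2 => (qf (show Par W (k + l + i3 - i2 - l2 + 1) (n + i3 - i2 - l2 - 1) (2 * i2 + l2 - k - l - i3) from fun t h1 h2 => (cE (sh al (-1) t (t + (-n)) (by omega)) (cE (pb D2 al (-1) (t + (-n)) (t + (i2 + l2 - i3 + 1)) (by omega)) (pb c al 0 (t + (i2 + l2 - i3 + 1)) (t + (2 * i2 + l2 - k - l - i3)) (by omega))))) al 0 t (t + (2 * i2 + l2 - k - l - i3)) (by omega)))))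
    · by_cases z66 : (j + l + i3 + 1) ≤ (i + i2 + l2)
      · have kk884 : (0) ≤ (i) := by clear * - y13 y22; omega
        have kk885 : (i + 1) ≤ (j) := by clear * - b6 z57; omega
        have kk886 : (k + l + i3 + 1) ≤ (2 * i2 + l2) := by clear * - b3; omega
        have kk887 : (i + 2 * i2 + l2) ≤ (j + k + l + i3) := by clear * - b6 z58; omega
        have kk888 : (j + l + i3 + 1) ≤ (i + i2 + l2) := by clear * - z66; omega
        have kk889 : (k + i2 + l2 + 1) ≤ (n + i3) := by clear * - y17; omega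
        have kk890 : (i2 + l2) ≤ (k + l) := by clear * - y20; omega
        have kk891 : (n) ≤ (k + l + l2 + 2) := by clear * - b3 b5 b6 y13 z58; omega
        have kk892 : (0) ≤ (i + 1) := by clear * - y13 y22; omega
        have kk893 : (j) ≤ (i + l + 1) := by clear * - b3 b4 b5 y13 y17 y22; omega
        have r894 : (j - i) % 2 = 0 := by clear * - ev n1p n2p n3p; omega
        have r895 : (2 * i2 + l2 - k - l - i3) % 2 = 0 := by clear * - ev n1p n2p n3p; omega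
        clear * - al a1 b c D2 n1 kk884 kk885 kk886 kk887 kk888 kk889 kk890 kk891 kk892 kk893 r894 r895
        exact n1.f1 (rEE (qf a1 al 0 (i) (i + k - j) (by omega)) (sh al 0 (k) (k) (by omega)) (rotL (j - i) (2 * i2 + l2 - k - l - i3) (i + k - j) (k) (by omega) (fun t h1 h2 => (cE (pb a1 al 0 t (t + (j - k)) (by omega)) (qf b al 0 (t + (j - k)) (t + (j - i)) (by omega)))) (fun t h1 h2 => (qf (show Par W (k + l + i3 - i2 - l2 + 1) (n + i3 - i2 - l2 - 1) (2 * i2 + l2 - k - l - i3) from fun t h1 h2 => (cE (sh al (-1) t (t + (-n)) (by omega)) (cE (pb D2 al (-1) (t + (-n)) (t + (i2 + l2 - i3 + 1)) (by omega)) (pb c al 0 (t + (i2 + l2 - i3 + 1)) (t + (2 * i2 + l2 - k - l - i3)) (by omega))))) al 0 t (t + (2 * i2 + l2 - k - l - i3)) (by omega)))))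
      · have kk896 : (i + 1) ≤ (k) := by clear * - b0 b3 b5 y20 y21 z66; omega
        have kk897 : (k + 1) ≤ (n + i) := by clear * - b1 b3 b5 b6 y13 y17 y22 z58; linarith
        have kk898 : (n + i2) ≤ (k + 2 * l + 2) := by clear * - b3 b5 z66; omega
        clear * - al b mx hL kk896 kk897 kk898
        exact absurd (mx (i + 1) (i + l + 1) (k - i) (by omega) (by omega) fun t h1 h2 => (qf b al 0 t (t + (k - i)) (by omega))) (by omega)

theorem t4_23 {W : ℤ → G} {n Q i j k l i2 l2 i3 : ℤ} (al : AL W n Q)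
    (hy : (0) ≤ (i) ∧ (i) ≤ (j) ∧ (j + 1) ≤ (Q) ∧ (Q) ≤ (k) ∧ (k + 1) ≤ (n) ∧ (Q) ≤ (i + l + 1) ∧ (k + l + 2) ≤ (n) ∧ (Q) ≤ (i2) ∧ (i2) ≤ (i + l + 1) ∧ (Q) ≤ (i2 + l2 + 1) ∧ (i2 + l2 + 2) ≤ (n) ∧ (n) ≤ (k + l + l2 + 2) ∧ (k + l + l2 + 3) ≤ (n + Q) ∧ (0) ≤ (i3) ∧ (n + i3) ≤ (k + l + l2 + 2) ∧ (k + i2 + l2 + 2) ≤ (n + j + i3) ∧ (j + i3 + 1) ≤ (k) ∧ (k + i2 + l2 + 2) ≤ (n + i3) ∧ (i + 2 * i2 + 1) ≤ (2 * Q + k) ∧ (i + l + 1) ≤ (i2 + l2) ∧ (i2 + l2 + 1) ≤ (k + l) ∧ (i) ≤ (i3) ∧ (i3) ≤ (i))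
    (a1 : Par W (0) (j) (k - j))
    (a2 : Par W (Q + j - k) (j) (k - j))
    (s1 : Ant W (0) (i) (i + j))
    (s2 : Ant W (j + 1) (Q) (i + j))
    (b : Par W (i + 1) (i + l + 1) (k - i))
    (tt : Ant W (Q) (i2) (i + l + i2 + 1))
    (c : Par W (i2 + 1) (i2 + l2 + 1) (k + l - i2 + 1))
    (u1 : Ant W (0) (i3) (k + l + l2 + i3 - n + 2))
    (u2 : Ant W (k + l + l2 - n + 3) (Q) (k + l + l2 + i3 - n + 2))
    (D1 : Par W (i3 + 1) (Q) (i2 + l2 - i3 + 1))
    (D2 : Par W (i2 + l2 + 2) (n) (i3 - i2 - l2 - 1))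
    {L : ℤ} (mx : ∀ a b g, 0 < g → g < n → Par W a b g → b - a ≤ L)
    (hL : L ≤ (n - j - 3) ∧ L ≤ (n + Q - k - 3) ∧ L ≤ (n - l - 3) ∧ L ≤ (n + i - k - 2) ∧ L ≤ (n - l2 - 3) ∧ L ≤ (n + i3 - Q - 2) ∧ L ≤ (i2 + l2 - 1) ∧ L ≤ (n + i2 - k - l - 3))
    (bd0 : Bd W n L (j) (i) (k))
    (bd2 : Bd W n L (k + l + l2 - n + 2) (i3) (i2 + l2 + 1))
    (n1 : Nd W (j) (i) (k))
    (n2 : Nd W (i + l + 1) (i2) (k + l + 1))
    (n3 : Nd W (k + l + l2 - n + 2) (i3) (i2 + l2 + 1))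
    (b0 : (2 * l + 3) ≤ (n))
    (b1 : (2 * i + j + 1) ≤ (k))
    (b2 : (k + l + i3 + 1) ≤ (2 * i2 + l2))
    (b3 : (n + i) ≤ (2 * k + l))
    (b4 : (n + j + 2 * i2) ≤ (i + 2 * k + 2 * l + 2))
    (b5 : (2 * Q + 2 * k + l) ≤ (n + 2 * i + j + i2)) : False := by
  have ev := al.ev
  obtain ⟨y0, y1, y2, y3, y4, y5, y6, y7, y8, y9, y10, y11, y12, y13, y14, y15, y16, y17, y18, y19, y20, y21, y22⟩ := id hy
  have n1p := And.intro n1.p1 n1.p2
  have n2p := And.intro n2.p1 n2.p2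
  have n3p := And.intro n3.p1 n3.p2
  by_cases z67 : (2 * j + l + i3 + 2) ≤ (2 * i + k + l2)
  · by_cases z68 : (2 * Q + 2 * i2 + l2) ≤ (3 * k + l + i3)
    · by_cases z69 : (2 * Q + 2 * j + 2 * i2 + l2) ≤ (2 * i + 3 * k + l + i3)
      · by_cases z70 : (2 * j + 3 * k + l + l2 + 4) ≤ (2 * n + 2 * i + i3)
        · by_cases v26 : (i + k + 1) ≤ (2 * Q)
          · have kk899 : (k + l + i3 + 1) ≤ (2 * i2 + l2) := by clear * - b2; omega
            have kk900 : (2 * Q + 2 * j + 2 * i2 + l2) ≤ (2 * i + 3 * k + l + i3) := by clear * - z69; omega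
            have kk901 : (2 * j + l + i3 + 2) ≤ (2 * i + k + l2) := by clear * - z67; omega
            have kk902 : (2 * j + 3 * k + l + l2 + 4) ≤ (2 * n + 2 * i + i3) := by clear * - z70; omega
            have kk903 : (i2 + l2) ≤ (k + l) := by clear * - y20; omega
            have kk904 : (n) ≤ (k + l + l2 + 2) := by clear * - b3 b4 b5 v26 y19; omega
            have kk905 : (i) ≤ (j) := by clear * - y1; omega
            have kk906 : (Q) ≤ (i + l + 1) := by clear * - b1 b3 b4 b5 v26 z67 z68; linarith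
            have kk907 : (i + k + 1) ≤ (2 * Q) := by clear * - v26; omega
            have kk908 : (i + 2 * k + l + 1) ≤ (n + j + i2) := by clear * - b1 b3 b5 v26 y18; omega
            have kk909 : (i + l + i3) ≤ (j + i2 + l2) := by clear * - b2 y1 z67; omega
            have r910 : (2 * n + 2 * k) % 2 = 0 := by clear * - ev n1p n2p n3p; omega
            have r911 : (2 * i2 + l2 - k - l - i3) % 2 = 0 := by clear * - ev n1p n2p n3p; omega
            clear * - al a2 s2 b c D2 kk899 kk900 kk901 kk902 kk903 kk904 kk905 kk906 kk907 kk908 kk909 r910 r911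
            exact midP al (2 * i2 + l2 - k - l - i3) (2 * n + 2 * k) (n + j + k - i + 1) (n + k + l + i3 - i2 - l2 + 1) (2 * n + i2 - k - l - 1) (by omega) (fun t h1 h2 => (cE (cE (cI (pb b al 1 t (t + (i - n - k)) (by omega)) (qa s2 al 0 (t + (i - n - k)) ((n + j + k) - t) (by omega))) (qf a2 al 0 ((n + j + k) - t) ((n + 2 * k) - t) (by omega))) (sh al 1 ((n + 2 * k) - t) ((2 * n + 2 * k) - t) (by omega)))) (fun t h1 h2 => (cE (qf (show Par W (k + l + i3 - i2 - l2 + 1) (n + i3 - i2 - l2 - 1) (2 * i2 + l2 - k - l - i3) from fun t h1 h2 => (cE (sh al (-1) t (t + (-n)) (by omega)) (cE (pb D2 al (-1) (t + (-n)) (t + (i2 + l2 - i3 + 1)) (by omega)) (pb c al 0 (t + (i2 + l2 - i3 + 1)) (t + (2 * i2 + l2 - k - l - i3)) (by omega))))) al 1 t (t + (2 * i2 + l2 - n - k - l - i3)) (by omega)) (sh al 1 (t + (2 * i2 + l2 - n - k - l - i3)) (t + (2 * i2 + l2 - k - l - i3)) (by omega))))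
          · have kk912 : (k + l + i3 + 1) ≤ (2 * i2 + l2) := by clear * - b2; omega
            have kk913 : (2 * j + 2 * i2 + l2 + 2) ≤ (2 * Q + k + l + i3) := by clear * - b2 b4 y12 y21; omega
            have kk914 : (2 * j + l + i3 + 2) ≤ (2 * i + k + l2) := by clear * - z67; omega
            have kk915 : (2 * j + 3 * k + l + l2 + 4) ≤ (2 * n + 2 * i + i3) := by clear * - z70; omega
            have kk916 : (i2 + l2) ≤ (k + l) := by clear * - y20; omega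
            have kk917 : (n) ≤ (k + l + l2 + 2) := by clear * - y13 y14; omega
            have kk918 : (i) ≤ (j) := by clear * - y1; omega
            have kk919 : (Q) ≤ (i + l + 1) := by clear * - b2 b4 b5 y15 y20 y21; omega
            have kk920 : (2 * Q) ≤ (i + k + 1) := by clear * - v26; omega
            have kk921 : (i + 2 * k + l + 1) ≤ (n + j + i2) := by clear * - b2 y1 z70; omega
            have kk922 : (i + l + i3) ≤ (j + i2 + l2) := by clear * - b2 y1 z67; omega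
            have r923 : (2 * n + 2 * k) % 2 = 0 := by clear * - ev n1p n2p n3p; omega
            have r924 : (2 * i2 + l2 - k - l - i3) % 2 = 0 := by clear * - ev n1p n2p n3p; omega
            clear * - al a2 s2 b c D2 kk912 kk913 kk914 kk915 kk916 kk917 kk918 kk919 kk920 kk921 kk922 r923 r924
            exact midP al (2 * i2 + l2 - k - l - i3) (2 * n + 2 * k) (n + j + k - i + 1) (n + k + l + i3 - i2 - l2 + 1) (2 * n + i2 - k - l - 1) (by omega) (fun t h1 h2 => (cE (cE (cI (pb b al 1 t (t + (i - n - k)) (by omega)) (qa s2 al 0 (t + (i - n - k)) ((n + j + k) - t) (by omega))) (qf a2 al 0 ((n + j + k) - t) ((n + 2 * k) - t) (by omega))) (sh al 1 ((n + 2 * k) - t) ((2 * n + 2 * k) - t) (by omega)))) (fun t h1 h2 => (cE (qf (show Par W (k + l + i3 - i2 - l2 + 1) (n + i3 - i2 - l2 - 1) (2 * i2 + l2 - k - l - i3) from fun t h1 h2 => (cE (sh al (-1) t (t + (-n)) (by omega)) (cE (pb D2 al (-1) (t + (-n)) (t +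 (i2 + l2 - i3 + 1)) (by omega)) (pb c al 0 (t + (i2 + l2 - i3 + 1)) (t + (2 * i2 + l2 - k - l - i3)) (by omega))))) al 1 t (t + (2 * i2 + l2 - n - k - l - i3)) (by omega)) (sh al 1 (t + (2 * i2 + l2 - n - k - l - i3)) (t + (2 * i2 + l2 - k - l - i3)) (by omega))))
        · have kk925 : (n + i + j) ≤ (k + l + l2 + i3 + 1) := by clear * - b2 b4 y21; omega
          have kk926 : (k + l + l2 + i3 + 3) ≤ (2 * n + i + j) := by clear * - b0 b2 b4 y15 y20; omega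
          have kk927 : (k + l + l2 + 3) ≤ (n + Q) := by clear * - y12; omega
          have kk928 : (Q) ≤ (i + j + 1) := by clear * - b2 b4 b5 y12 y21 z70; omega
          have kk929 : (i3) ≤ (i) := by clear * - y22; omega
          clear * - al s1 u1 kk925 kk926 kk927 kk928 kk929
          exact al.ubQ (k + l + l2 + i3 - n - i - j + 2) (by omega) (by omega) fun t h1 h2 => (cE (sh al 1 t (t + (n)) (by omega)) (cII (ab s1 al 1 (t + (n)) ((i + j) - t) (by omega)) (qa u1 al 0 ((i + j) - t) (t + (k + l + l2 + i3 - n - i - j + 2)) (by omega))))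
      · by_cases v27 : (i2 + 2 * l2 + 2) ≤ (n + i3)
        · have kk930 : (n + i + j) ≤ (2 * i2 + 2 * l2 + 1) := by clear * - b2 b4 y21; omega
          have kk931 : (n + i + j) ≤ (2 * Q + 2 * l2) := by clear * - b4 y21 z67 z69; omega
          have kk932 : (n + j + 4 * k + 2 * l) ≤ (i + 4 * i2 + 6 * l2 + 2) := by clear * - b2 b4 b5 y21 z67 z69; omega
          have kk933 : (3 * n + i + j) ≤ (4 * i2 + 6 * l2 + 6) := by clear * - b2 b3 b4 b5 y21 z67 z69; linarith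
          have kk934 : (i2) ≤ (k) := by clear * - b0 b4 z68 z69; omega
          have kk935 : (i2 + l2) ≤ (k + l) := by clear * - b2 b4 v27 z68 z69; omega
          have kk936 : (n) ≤ (k + l + l2 + 2) := by clear * - b2 b3 b4 b5 v27 y21 z67 z68 z69; linarith
          have kk937 : (n + i) ≤ (k + l + l2 + 2) := by clear * - b2 b4 y21 z68 z69; omega
          have kk938 : (Q + 2 * k + l + 1) ≤ (n + i + j + i2) := by clear * - b2 b4 b5 v27 y21 z67 z68 z69; linarith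
          have kk939 : (i2 + 2 * l2 + 2) ≤ (n + i) := by clear * - v27 y22; omega
          have kk940 : (i2 + 2 * l2 + 2) ≤ (n + i3) := by clear * - v27; omega
          have kk941 : (k + l + i2 + 2 * l2 + 4) ≤ (2 * n) := by clear * - b1 b4 b5 v27 z67 z68 z69; linarith
          have kk942 : (n + i) ≤ (2 * k + l + 2) := by clear * - b3; omega
          have r943 : (2 * i + j + i2 - n - 2 * k - l - 1) % 2 = 0 := by clear * - ev n1p n2p n3p; omega
          have r944 : (2 * i2 + 2 * l2 - n - i - j + 2) % 2 = 0 := by clear * - ev n1p n2p n3p; omega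
          clear * - al s1 s2 b c u1 D2 kk930 kk931 kk932 kk933 kk934 kk935 kk936 kk937 kk938 kk939 kk940 kk941 kk942 r943 r944
          exact midP al (2 * i2 + 2 * l2 - n - i - j + 2) (2 * i + j + i2 - n - 2 * k - l - 1) (i + j - i2 - 2 * l2 - 1) (i + j - i2 - 2 * l2 - 1) (2 * i2 + 2 * l2 - 2 * n + 3) (by omega) (fun t h1 h2 => (cE (cE (qa s2 al (-1) t ((i + j - n) - t) (by omega)) (qf (show Par W (2 * k + l - i2 + 2) (k + l + l2 + 2) (n + i + i2 - 2 * k - l - 1) from fun t h1 h2 => (cE (sh al (-1) t (t + (-n)) (by omega)) (cE (cE (pb c al (-1) (t + (-n)) (t + (i2 - k - l - 1)) (by omega)) (pb b al 0 (t + (i2 - k - l - 1)) (t + (i + i2 - 2 * k - l - 1)) (by omega))) (sh al 1 (t + (i + i2 - 2 * k - l - 1)) (t + (n + i + i2 - 2 * k - l - 1)) (by omega))))) al (-1) ((i + j - n) - t) ((n + 2 * i + j + i2 - 2 * k - l - 1) - t) (by omega))) (sh al (-2) ((n + 2 * i + j + i2 - 2 * k - l - 1) - t) ((2 * i + j +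 i2 - n - 2 * k - l - 1) - t) (by omega)))) (fun t h1 h2 => (cE (cE (cII (ab s1 al (-1) t ((i + j - n) - t) (by omega)) (qa u1 al 0 ((i + j - n) - t) (t + (k + l + l2 + i3 - i - j + 2)) (by omega))) (qf (show Par W (k + l + i3 - i2 - l2 + 1) (n + i3 - i2 - l2 - 1) (2 * i2 + l2 - k - l - i3) from fun t h1 h2 => (cE (sh al (-1) t (t + (-n)) (by omega)) (cE (pb D2 al (-1) (t + (-n)) (t + (i2 + l2 - i3 + 1)) (by omega)) (pb c al 0 (t + (i2 + l2 - i3 + 1)) (t + (2 * i2 + l2 - k - l - i3)) (by omega))))) al 0 (t + (k + l + l2 + i3 - i - j + 2)) (t + (2 * i2 + 2 * l2 - i - j + 2)) (by omega))) (sh al (-1) (t + (2 * i2 + 2 * l2 - i - j + 2)) (t + (2 * i2 + 2 * l2 - n - i - j + 2)) (by omega))))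
        · have kk945 : (n + i + j) ≤ (2 * i2 + 2 * l2 + 1) := by clear * - b2 b4 y21; omega
          have kk946 : (i + j + 2 * i2 + 2 * l2 + 4) ≤ (n + 2 * Q + 2 * i3) := by clear * - b4 y12 y21; omega
          have kk947 : (j + 4 * k + 2 * l + 2 * l2 + 6) ≤ (3 * n + i + 4 * i3) := by clear * - b2 b4 b5 y12 y21; omega
          have kk948 : (n + i + j) ≤ (2 * i2 + 2 * l2 + 2 * i3 + 2) := by clear * - b2 b4 y13 y21; omega
          have kk949 : (i2) ≤ (k) := by clear * - b0 b4 z68 z69; omega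
          have kk950 : (i2 + l2) ≤ (k + l) := by clear * - y20; omega
          have kk951 : (n) ≤ (k + l + l2 + 2) := by clear * - b3 b4 b5 y20 y21 z67 z69; linarith
          have kk952 : (n + i) ≤ (k + l + l2 + 2) := by clear * - b2 b4 y21 z68 z69; omega
          have kk953 : (Q + 2 * k + l + 1) ≤ (n + i + j + i2) := by clear * - b5 y20 y21 z67 z69; omega
          have kk954 : (n + i) ≤ (i2 + 2 * l2 + 2) := by clear * - v27 y21; omega
          have kk955 : (i3) ≤ (i) := by clear * - y22; omega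
          have kk956 : (k + l + i2 + 2 * l2 + 4) ≤ (2 * n) := by clear * - b1 b4 b5 y12 z68 z69; omega
          have kk957 : (2 * n + 2 * i) ≤ (2 * k + l + i2 + 2 * l2 + 4) := by clear * - b3 v27 y21; omega
          have r958 : (2 * i + j + i2 - n - 2 * k - l - 1) % 2 = 0 := by clear * - ev n1p n2p n3p; omega
          have r959 : (2 * i2 + 2 * l2 - n - i - j + 2) % 2 = 0 := by clear * - ev n1p n2p n3p; omega
          clear * - al s1 s2 b c u1 D2 kk945 kk946 kk947 kk948 kk949 kk950 kk951 kk952 kk953 kk954 kk955 kk956 kk957 r958 r959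
          exact midP al (2 * i2 + 2 * l2 - n - i - j + 2) (2 * i + j + i2 - n - 2 * k - l - 1) (i + j - n - i3 + 1) (i + j - n - i3 + 1) (2 * i2 + 2 * l2 - 2 * n + 3) (by omega) (fun t h1 h2 => (cE (cE (qa s2 al (-1) t ((i + j - n) - t) (by omega)) (qf (show Par W (2 * k + l - i2 + 2) (k + l + l2 + 2) (n + i + i2 - 2 * k - l - 1) from fun t h1 h2 => (cE (sh al (-1) t (t + (-n)) (by omega)) (cE (cE (pb c al (-1) (t + (-n)) (t + (i2 - k - l - 1)) (by omega)) (pb b al 0 (t + (i2 - k - l - 1)) (t + (i + i2 - 2 * k - l - 1)) (by omega))) (sh al 1 (t + (i + i2 - 2 * k - l - 1)) (t + (n + i + i2 - 2 * k - l - 1)) (by omega))))) al (-1) ((i + j - n) - t) ((n + 2 * i + j + i2 - 2 * k - l - 1) - t) (by omega))) (sh al (-2) ((n + 2 * i + j + i2 - 2 * k - l - 1) - t) ((2 * i + j + i2 - n - 2 * k - l - 1) - t) (by omega)))) (fun t h1 h2 => (cE (cE (cII (ab s1 al (-1) t ((i + j - n) - t) (by omega)) (qa u1 al 0 ((i +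 j - n) - t) (t + (k + l + l2 + i3 - i - j + 2)) (by omega))) (qf (show Par W (k + l + i3 - i2 - l2 + 1) (n + i3 - i2 - l2 - 1) (2 * i2 + l2 - k - l - i3) from fun t h1 h2 => (cE (sh al (-1) t (t + (-n)) (by omega)) (cE (pb D2 al (-1) (t + (-n)) (t + (i2 + l2 - i3 + 1)) (by omega)) (pb c al 0 (t + (i2 + l2 - i3 + 1)) (t + (2 * i2 + l2 - k - l - i3)) (by omega))))) al 0 (t + (k + l + l2 + i3 - i - j + 2)) (t + (2 * i2 + 2 * l2 - i - j + 2)) (by omega))) (sh al (-1) (t + (2 * i2 + 2 * l2 - i - j + 2)) (t + (2 * i2 + 2 * l2 - n - i - j + 2)) (by omega))))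
    · have kk960 : (j + l + l2 + 4) ≤ (n + i3) := by clear * - b0 b1 b3 b4 b5 y12 y21 z68; linarith
      have kk961 : (l + l2 + i3 + 3) ≤ (n + j) := by clear * - b0 b1 b3 b4 b5 y1 y12 z68; linarith
      have kk962 : (n) ≤ (j + l + l2 + 3) := by clear * - b0 b3 b4 b5 y1 y21 z68; linarith
      have kk963 : (n) ≤ (l + l2 + i3 + 3) := by clear * - b0 b3 b4 b5 y1 y21 z68; linarith
      have r964 : (j + l + l2 + i3 - 3 * n + 2) % 2 = 0 := by clear * - ev n1p n2p n3p; omega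
      clear * - al a1 u1 kk960 kk961 kk962 kk963 r964
      obtain ⟨t, ht⟩ : ∃ t, 2 * t = (j + l + l2 + i3 - 3 * n + 2) := ⟨(j + l + l2 + i3 - 3 * n + 2) / 2, by omega⟩
      exact al.ninv t (cE (cI (qf a1 al (-1) t (t + (n + k - j)) (by omega)) (ab u1 al 0 (t + (n + k - j)) ((j + l + l2 + i3 - 2 * n + 2) - t) (by omega))) (sh al (-1) ((j + l + l2 + i3 - 2 * n + 2) - t) t (by omega)))
  · have kk965 : (i + 1) ≤ (k) := by clear * - b0 b2 b4 y20 y21 z67; omega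
    have kk966 : (k + 1) ≤ (n + i) := by clear * - b0 b2 b3 b4 y13 y17 y22 z67; linarith
    have kk967 : (n + i2) ≤ (k + 2 * l + 2) := by clear * - b2 b4 z67; omega
    clear * - al b mx hL kk965 kk966 kk967
    exact absurd (mx (i + 1) (i + l + 1) (k - i) (by omega) (by omega) fun t h1 h2 => (qf b al 0 t (t + (k - i)) (by omega))) (by omega)

theorem t4_21 {W : ℤ → G} {n Q i j k l i2 l2 i3 : ℤ} (al : AL W n Q)
    (hy : (0) ≤ (i) ∧ (i) ≤ (j) ∧ (j + 1) ≤ (Q) ∧ (Q) ≤ (k) ∧ (k + 1) ≤ (n) ∧ (Q) ≤ (i + l + 1) ∧ (k + l + 2) ≤ (n) ∧ (Q) ≤ (i2) ∧ (i2) ≤ (i + l + 1) ∧ (Q) ≤ (i2 + l2 + 1) ∧ (i2 + l2 + 2) ≤ (n) ∧ (n) ≤ (k + l + l2 + 2) ∧ (k + l + l2 + 3) ≤ (n + Q) ∧ (0) ≤ (i3) ∧ (n + i3) ≤ (k + l + l2 + 2) ∧ (k + i2 + l2 + 2) ≤ (n + j + i3) ∧ (j + i3 + 1) ≤ (k) ∧ (k + i2 + l2 + 2) ≤ (n + i3) ∧ (i + 2 * i2 + 1) ≤ (2 * Q + k) ∧ (i + l + 1) ≤ (i2 + l2) ∧ (i2 + l2 + 1) ≤ (k + l) ∧ (i) ≤ (i3) ∧ (i3) ≤ (i))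
    (a1 : Par W (0) (j) (k - j))
    (a2 : Par W (Q + j - k) (j) (k - j))
    (s1 : Ant W (0) (i) (i + j))
    (s2 : Ant W (j + 1) (Q) (i + j))
    (b : Par W (i + 1) (i + l + 1) (k - i))
    (tt : Ant W (Q) (i2) (i + l + i2 + 1))
    (c : Par W (i2 + 1) (i2 + l2 + 1) (k + l - i2 + 1))
    (u1 : Ant W (0) (i3) (k + l + l2 + i3 - n + 2))
    (u2 : Ant W (k + l + l2 - n + 3) (Q) (k + l + l2 + i3 - n + 2))
    (D1 : Par W (i3 + 1) (Q) (i2 + l2 - i3 + 1))
    (D2 : Par W (i2 + l2 + 2) (n) (i3 - i2 - l2 - 1))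
    {L : ℤ} (mx : ∀ a b g, 0 < g → g < n → Par W a b g → b - a ≤ L)
    (hL : L ≤ (n - j - 3) ∧ L ≤ (n + Q - k - 3) ∧ L ≤ (n - l - 3) ∧ L ≤ (n + i - k - 2) ∧ L ≤ (n - l2 - 3) ∧ L ≤ (n + i3 - Q - 2) ∧ L ≤ (i2 + l2 - 1) ∧ L ≤ (n + i2 - k - l - 3))
    (bd0 : Bd W n L (j) (i) (k))
    (bd2 : Bd W n L (k + l + l2 - n + 2) (i3) (i2 + l2 + 1))
    (n1 : Nd W (j) (i) (k))
    (n2 : Nd W (i + l + 1) (i2) (k + l + 1))
    (n3 : Nd W (k + l + l2 - n + 2) (i3) (i2 + l2 + 1))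
    (b0 : (2 * l + 3) ≤ (n))
    (b1 : (2 * i + j + 1) ≤ (k))
    (b2 : (n + 2 * Q) ≤ (i + l + i2 + 2 * l2 + 4))
    (b3 : (k + l + i3 + 1) ≤ (2 * i2 + l2))
    (b4 : (n + i) ≤ (2 * k + l))
    (b5 : (n + j + 2 * i2) ≤ (i + 2 * k + 2 * l + 2)) : False := by
  have ev := al.ev
  obtain ⟨y0, y1, y2, y3, y4, y5, y6, y7, y8, y9, y10, y11, y12, y13, y14, y15, y16, y17, y18, y19, y20, y21, y22⟩ := id hy
  have n1p := And.intro n1.p1 n1.p2
  have n2p := And.intro n2.p1 n2.p2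
  have n3p := And.intro n3.p1 n3.p2
  by_cases z56 : (n + 2 * i + j + i2 + 1) ≤ (2 * Q + 2 * k + l)
  · exact t4_22 al hy a1 a2 s1 s2 b tt c u1 u2 D1 D2 mx hL bd0 bd2 n1 n2 n3 (by clear * - b0; omega) (by clear * - b1; omega) (by clear * - b2; omega) (by clear * - b3; omega) (by clear * - b4; omega) (by clear * - b5; omega) (by clear * - z56; omega)
  · exact t4_23 al hy a1 a2 s1 s2 b tt c u1 u2 D1 D2 mx hL bd0 bd2 n1 n2 n3 (by clear * - b0; omega) (by clear * - b1; omega) (by clear * - b3; omega) (by clear * - b4; omega) (by clear * - b5; omega) (by clear * - z56; omega)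

theorem t4_6 {W : ℤ → G} {n Q i j k l i2 l2 i3 : ℤ} (al : AL W n Q)
    (hy : (0) ≤ (i) ∧ (i) ≤ (j) ∧ (j + 1) ≤ (Q) ∧ (Q) ≤ (k) ∧ (k + 1) ≤ (n) ∧ (Q) ≤ (i + l + 1) ∧ (k + l + 2) ≤ (n) ∧ (Q) ≤ (i2) ∧ (i2) ≤ (i + l + 1) ∧ (Q) ≤ (i2 + l2 + 1) ∧ (i2 + l2 + 2) ≤ (n) ∧ (n) ≤ (k + l + l2 + 2) ∧ (k + l + l2 + 3) ≤ (n + Q) ∧ (0) ≤ (i3) ∧ (n + i3) ≤ (k + l + l2 + 2) ∧ (k + i2 + l2 + 2) ≤ (n + j + i3) ∧ (j + i3 + 1) ≤ (k) ∧ (k + i2 + l2 + 2) ≤ (n + i3) ∧ (i + 2 * i2 + 1) ≤ (2 * Q + k) ∧ (i + l + 1) ≤ (i2 + l2) ∧ (i2 + l2 + 1) ≤ (k + l) ∧ (i) ≤ (i3) ∧ (i3) ≤ (i))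
    (a1 : Par W (0) (j) (k - j))
    (a2 : Par W (Q + j - k) (j) (k - j))
    (s1 : Ant W (0) (i) (i + j))
    (s2 : Ant W (j + 1) (Q) (i + j))
    (b : Par W (i + 1) (i + l + 1) (k - i))
    (tt : Ant W (Q) (i2) (i + l + i2 + 1))
    (c : Par W (i2 + 1) (i2 + l2 + 1) (k + l - i2 + 1))
    (u1 : Ant W (0) (i3) (k + l + l2 + i3 - n + 2))
    (u2 : Ant W (k + l + l2 - n + 3) (Q) (k + l + l2 + i3 - n + 2))
    (D1 : Par W (i3 + 1) (Q) (i2 + l2 - i3 + 1))
    (D2 : Par W (i2 + l2 + 2) (n) (i3 - i2 - l2 - 1))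
    {L : ℤ} (mx : ∀ a b g, 0 < g → g < n → Par W a b g → b - a ≤ L)
    (hL : L ≤ (n - j - 3) ∧ L ≤ (n + Q - k - 3) ∧ L ≤ (n - l - 3) ∧ L ≤ (n + i - k - 2) ∧ L ≤ (n - l2 - 3) ∧ L ≤ (n + i3 - Q - 2) ∧ L ≤ (i2 + l2 - 1) ∧ L ≤ (n + i2 - k - l - 3))
    (bd0 : Bd W n L (j) (i) (k))
    (bd2 : Bd W n L (k + l + l2 - n + 2) (i3) (i2 + l2 + 1))
    (n1 : Nd W (j) (i) (k))
    (n2 : Nd W (i + l + 1) (i2) (k + l + 1))
    (n3 : Nd W (k + l + l2 - n + 2) (i3) (i2 + l2 + 1))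
    (b0 : (2 * l + 3) ≤ (n))
    (b1 : (2 * i + j + 1) ≤ (k))
    (b2 : (n + 2 * Q) ≤ (i + l + i2 + 2 * l2 + 4))
    (b3 : (k + l + i3 + 1) ≤ (2 * i2 + l2))
    (b4 : (n + i) ≤ (2 * k + l)) : False := by
  have ev := al.ev
  obtain ⟨y0, y1, y2, y3, y4, y5, y6, y7, y8, y9, y10, y11, y12, y13, y14, y15, y16, y17, y18, y19, y20, y21, y22⟩ := id hy
  have n1p := And.intro n1.p1 n1.p2
  have n2p := And.intro n2.p1 n2.p2
  have n3p := And.intro n3.p1 n3.p2
  by_cases z7 : (i + 2 * k + 2 * l + 3) ≤ (n + j + 2 * i2)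
  · exact t4_7 al hy a1 a2 s1 s2 b tt c u1 u2 D1 D2 mx hL bd0 bd2 n1 n2 n3 (by clear * - b0; omega) (by clear * - b1; omega) (by clear * - b2; omega) (by clear * - b3; omega) (by clear * - b4; omega) (by clear * - z7; omega)
  · exact t4_21 al hy a1 a2 s1 s2 b tt c u1 u2 D1 D2 mx hL bd0 bd2 n1 n2 n3 (by clear * - b0; omega) (by clear * - b1; omega) (by clear * - b2; omega) (by clear * - b3; omega) (by clear * - b4; omega) (by clear * - z7; omega)

theorem t4_5 {W : ℤ → G} {n Q i j k l i2 l2 i3 : ℤ} (al : AL W n Q)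
    (hy : (0) ≤ (i) ∧ (i) ≤ (j) ∧ (j + 1) ≤ (Q) ∧ (Q) ≤ (k) ∧ (k + 1) ≤ (n) ∧ (Q) ≤ (i + l + 1) ∧ (k + l + 2) ≤ (n) ∧ (Q) ≤ (i2) ∧ (i2) ≤ (i + l + 1) ∧ (Q) ≤ (i2 + l2 + 1) ∧ (i2 + l2 + 2) ≤ (n) ∧ (n) ≤ (k + l + l2 + 2) ∧ (k + l + l2 + 3) ≤ (n + Q) ∧ (0) ≤ (i3) ∧ (n + i3) ≤ (k + l + l2 + 2) ∧ (k + i2 + l2 + 2) ≤ (n + j + i3) ∧ (j + i3 + 1) ≤ (k) ∧ (k + i2 + l2 + 2) ≤ (n + i3) ∧ (i + 2 * i2 + 1) ≤ (2 * Q + k) ∧ (i + l + 1) ≤ (i2 + l2) ∧ (i2 + l2 + 1) ≤ (k + l) ∧ (i) ≤ (i3) ∧ (i3) ≤ (i))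
    (a1 : Par W (0) (j) (k - j))
    (a2 : Par W (Q + j - k) (j) (k - j))
    (s1 : Ant W (0) (i) (i + j))
    (s2 : Ant W (j + 1) (Q) (i + j))
    (b : Par W (i + 1) (i + l + 1) (k - i))
    (tt : Ant W (Q) (i2) (i + l + i2 + 1))
    (c : Par W (i2 + 1) (i2 + l2 + 1) (k + l - i2 + 1))
    (u1 : Ant W (0) (i3) (k + l + l2 + i3 - n + 2))
    (u2 : Ant W (k + l + l2 - n + 3) (Q) (k + l + l2 + i3 - n + 2))
    (D1 : Par W (i3 + 1) (Q) (i2 + l2 - i3 + 1))
    (D2 : Par W (i2 + l2 + 2) (n) (i3 - i2 - l2 - 1))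
    {L : ℤ} (mx : ∀ a b g, 0 < g → g < n → Par W a b g → b - a ≤ L)
    (hL : L ≤ (n - j - 3) ∧ L ≤ (n + Q - k - 3) ∧ L ≤ (n - l - 3) ∧ L ≤ (n + i - k - 2) ∧ L ≤ (n - l2 - 3) ∧ L ≤ (n + i3 - Q - 2) ∧ L ≤ (i2 + l2 - 1) ∧ L ≤ (n + i2 - k - l - 3))
    (bd0 : Bd W n L (j) (i) (k))
    (bd2 : Bd W n L (k + l + l2 - n + 2) (i3) (i2 + l2 + 1))
    (n1 : Nd W (j) (i) (k))
    (n2 : Nd W (i + l + 1) (i2) (k + l + 1))
    (n3 : Nd W (k + l + l2 - n + 2) (i3) (i2 + l2 + 1))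
    (b0 : (2 * l + 3) ≤ (n))
    (b1 : (2 * i + j + 1) ≤ (k))
    (b2 : (n + 2 * Q) ≤ (i + l + i2 + 2 * l2 + 4))
    (b3 : (k + l + i3 + 1) ≤ (2 * i2 + l2)) : False := by
  have ev := al.ev
  obtain ⟨y0, y1, y2, y3, y4, y5, y6, y7, y8, y9, y10, y11, y12, y13, y14, y15, y16, y17, y18, y19, y20, y21, y22⟩ := id hy
  have n1p := And.intro n1.p1 n1.p2
  have n2p := And.intro n2.p1 n2.p2
  have n3p := And.intro n3.p1 n3.p2
  by_cases z6 : (2 * k + l + 1) ≤ (n + i)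
  · have kk34 : (i2 + l2 + 1) ≤ (k + l) := by clear * - y20; omega
    have kk35 : (k + l + 2) ≤ (n) := by clear * - y19 y20 z6; omega
    have kk36 : (k + l + i3 + 1) ≤ (2 * i2 + l2) := by clear * - b3; omega
    have kk37 : (i + 1) ≤ (k) := by clear * - y19 y20; omega
    have kk38 : (2 * k + l + 1) ≤ (n + i) := by clear * - z6; omega
    have kk39 : (i + i2 + l2 + 1) ≤ (k + l + i3) := by clear * - y20 y21; omega
    have kk40 : (i2) ≤ (i + l + 1) := by clear * - y13 y14 y20 z6; omega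
    have kk41 : (i2 + l2) ≤ (k + l) := by clear * - y20; omega
    have kk42 : (n) ≤ (k + l + l2 + 2) := by clear * - y13 y14; omega
    have r43 : (2 * i2 + l2 - k - l - i3) % 2 = 0 := by clear * - ev n1p n2p n3p; omega
    have r44 : (k - i) % 2 = 0 := by clear * - ev n1p n2p n3p; omega
    clear * - al b c D2 n2 kk34 kk35 kk36 kk37 kk38 kk39 kk40 kk41 kk42 r43 r44
    exact n2.f1 (rEE (sh al 1 (i2) (n + i2) (by omega)) (cE (qf D2 al 0 (k + l + 1) (k + l + i3 - i2 - l2) (by omega)) (sh al 1 (k + l + i3 - i2 - l2) (n + k + l + i3 - i2 - l2) (by omega))) (Eq.symm (rotL (2 * i2 + l2 - k - l - i3) (k - i) (n + k + l + i3 - i2 - l2) (n + i2) (by omega) (fun t h1 h2 => (cE (qf (show Par W (k + l + i3 - i2 - l2 + 1) (n + i3 - i2 - l2 - 1) (2 * i2 + l2 - k - l - i3) from fun t h1 h2 => (cE (sh al (-1) t (t + (-n)) (by omega)) (cE (pb D2 al (-1) (t + (-n)) (t + (i2 + l2 - i3 + 1)) (by omega)) (pb c al 0 (t + (i2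 + l2 - i3 + 1)) (t + (2 * i2 + l2 - k - l - i3)) (by omega))))) al 1 t (t + (2 * i2 + l2 - n - k - l - i3)) (by omega)) (sh al 1 (t + (2 * i2 + l2 - n - k - l - i3)) (t + (2 * i2 + l2 - k - l - i3)) (by omega)))) (fun t h1 h2 => (cE (qf b al 1 t (t + (k - n - i)) (by omega)) (sh al 1 (t + (k - n - i)) (t + (k - i)) (by omega)))))))
  · exact t4_6 al hy a1 a2 s1 s2 b tt c u1 u2 D1 D2 mx hL bd0 bd2 n1 n2 n3 (by clear * - b0; omega) (by clear * - b1; omega) (by clear * - b2; omega) (by clear * - b3; omega) (by clear * - z6; omega)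

theorem t4_4 {W : ℤ → G} {n Q i j k l i2 l2 i3 : ℤ} (al : AL W n Q)
    (hy : (0) ≤ (i) ∧ (i) ≤ (j) ∧ (j + 1) ≤ (Q) ∧ (Q) ≤ (k) ∧ (k + 1) ≤ (n) ∧ (Q) ≤ (i + l + 1) ∧ (k + l + 2) ≤ (n) ∧ (Q) ≤ (i2) ∧ (i2) ≤ (i + l + 1) ∧ (Q) ≤ (i2 + l2 + 1) ∧ (i2 + l2 + 2) ≤ (n) ∧ (n) ≤ (k + l + l2 + 2) ∧ (k + l + l2 + 3) ≤ (n + Q) ∧ (0) ≤ (i3) ∧ (n + i3) ≤ (k + l + l2 + 2) ∧ (k + i2 + l2 + 2) ≤ (n + j + i3) ∧ (j + i3 + 1) ≤ (k) ∧ (k + i2 + l2 + 2) ≤ (n + i3) ∧ (i + 2 * i2 + 1) ≤ (2 * Q + k) ∧ (i + l + 1) ≤ (i2 + l2) ∧ (i2 + l2 + 1) ≤ (k + l) ∧ (i) ≤ (i3) ∧ (i3) ≤ (i))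
    (a1 : Par W (0) (j) (k - j))
    (a2 : Par W (Q + j - k) (j) (k - j))
    (s1 : Ant W (0) (i) (i + j))
    (s2 : Ant W (j + 1) (Q) (i + j))
    (b : Par W (i + 1) (i + l + 1) (k - i))
    (tt : Ant W (Q) (i2) (i + l + i2 + 1))
    (c : Par W (i2 + 1) (i2 + l2 + 1) (k + l - i2 + 1))
    (u1 : Ant W (0) (i3) (k + l + l2 + i3 - n + 2))
    (u2 : Ant W (k + l + l2 - n + 3) (Q) (k + l + l2 + i3 - n + 2))
    (D1 : Par W (i3 + 1) (Q) (i2 + l2 - i3 + 1))
    (D2 : Par W (i2 + l2 + 2) (n) (i3 - i2 - l2 - 1))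
    {L : ℤ} (mx : ∀ a b g, 0 < g → g < n → Par W a b g → b - a ≤ L)
    (hL : L ≤ (n - j - 3) ∧ L ≤ (n + Q - k - 3) ∧ L ≤ (n - l - 3) ∧ L ≤ (n + i - k - 2) ∧ L ≤ (n - l2 - 3) ∧ L ≤ (n + i3 - Q - 2) ∧ L ≤ (i2 + l2 - 1) ∧ L ≤ (n + i2 - k - l - 3))
    (bd0 : Bd W n L (j) (i) (k))
    (bd2 : Bd W n L (k + l + l2 - n + 2) (i3) (i2 + l2 + 1))
    (n1 : Nd W (j) (i) (k))
    (n2 : Nd W (i + l + 1) (i2) (k + l + 1))
    (n3 : Nd W (k + l + l2 - n + 2) (i3) (i2 + l2 + 1))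
    (b0 : (2 * l + 3) ≤ (n))
    (b1 : (k + l + 1) ≤ (2 * i2 + l2))
    (b2 : (2 * i + j + 1) ≤ (k))
    (b3 : (n + 2 * Q) ≤ (i + l + i2 + 2 * l2 + 4)) : False := by
  have ev := al.ev
  obtain ⟨y0, y1, y2, y3, y4, y5, y6, y7, y8, y9, y10, y11, y12, y13, y14, y15, y16, y17, y18, y19, y20, y21, y22⟩ := id hy
  have n1p := And.intro n1.p1 n1.p2
  have n2p := And.intro n2.p1 n2.p2
  have n3p := And.intro n3.p1 n3.p2
  by_cases z5 : (k + l + i3 + 1) ≤ (2 * i2 + l2)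
  · exact t4_5 al hy a1 a2 s1 s2 b tt c u1 u2 D1 D2 mx hL bd0 bd2 n1 n2 n3 (by clear * - b0; omega) (by clear * - b2; omega) (by clear * - b3; omega) (by clear * - z5; omega)
  · by_cases z71 : (k + l + i3) ≤ (2 * i2 + l2)
    · have kk968 : (i3 + 1) ≤ (i2) := by clear * - y20 z71; omega
      have kk969 : (2 * i2 + l2 + 2) ≤ (n + i3) := by clear * - y17 y19 y22 z5; omega
      have kk970 : (k + l + i3) ≤ (2 * i2 + l2) := by clear * - z71; omega
      have kk971 : (2 * i2 + l2) ≤ (k + l + i3) := by clear * - z5; omega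
      clear * - al D2 n2 kk968 kk969 kk970 kk971
      exact n2.f1 (pb D2 al 0 (i2) (k + l + 1) (by omega))
    · have kk972 : (2 * i2 + l2 + 1) ≤ (k + l + i3) := by clear * - z71; omega
      have kk973 : (k + l + i3 + 1) ≤ (n + 2 * i2 + l2) := by clear * - b1 b2 b3 y15 y18 y20 y22 z71; linarith
      have kk974 : (k + l + 2) ≤ (n) := by clear * - y17 y19 y22; omega
      have kk975 : (i3) ≤ (i2) := by clear * - y12 y14 y7; omega
      have kk976 : (n + i3) ≤ (2 * i2 + 2 * l2 + 2) := by clear * - b1 y14; omega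
      clear * - al c D2 kk972 kk973 kk974 kk975 kk976
      exact al.ubP (k + l + i3 - 2 * i2 - l2) (by omega) (by omega) fun t h1 h2 => (cE (cE (qf D2 al (-1) t (t + (n + i3 - i2 - l2 - 1)) (by omega)) (qf c al 0 (t + (n + i3 - i2 - l2 - 1)) (t + (n + k + l + i3 - 2 * i2 - l2)) (by omega))) (sh al (-1) (t + (n + k + l + i3 - 2 * i2 - l2)) (t + (k + l + i3 - 2 * i2 - l2)) (by omega)))

theorem t4_3 {W : ℤ → G} {n Q i j k l i2 l2 i3 : ℤ} (al : AL W n Q)
    (hy : (0) ≤ (i) ∧ (i) ≤ (j) ∧ (j + 1) ≤ (Q) ∧ (Q) ≤ (k) ∧ (k + 1) ≤ (n) ∧ (Q) ≤ (i + l + 1) ∧ (k + l + 2) ≤ (n) ∧ (Q) ≤ (i2) ∧ (i2) ≤ (i + l + 1) ∧ (Q) ≤ (i2 + l2 + 1) ∧ (i2 + l2 + 2) ≤ (n) ∧ (n) ≤ (k + l + l2 + 2) ∧ (k + l + l2 + 3) ≤ (n + Q) ∧ (0) ≤ (i3) ∧ (n + i3) ≤ (k + l + l2 + 2) ∧ (k + i2 + l2 + 2) ≤ (n + j + i3) ∧ (j + i3 + 1) ≤ (k) ∧ (k + i2 + l2 + 2) ≤ (n + i3) ∧ (i + 2 * i2 + 1) ≤ (2 * Q + k) ∧ (i + l + 1) ≤ (i2 + l2) ∧ (i2 + l2 + 1) ≤ (k +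 l) ∧ (i) ≤ (i3) ∧ (i3) ≤ (i))
    (a1 : Par W (0) (j) (k - j))
    (a2 : Par W (Q + j - k) (j) (k - j))
    (s1 : Ant W (0) (i) (i + j))
    (s2 : Ant W (j + 1) (Q) (i + j))
    (b : Par W (i + 1) (i + l + 1) (k - i))
    (tt : Ant W (Q) (i2) (i + l + i2 + 1))
    (c : Par W (i2 + 1) (i2 + l2 + 1) (k + l - i2 + 1))
    (u1 : Ant W (0) (i3) (k + l + l2 + i3 - n + 2))
    (u2 : Ant W (k + l + l2 - n + 3) (Q) (k + l + l2 + i3 - n + 2))
    (D1 : Par W (i3 + 1) (Q) (i2 + l2 - i3 + 1))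
    (D2 : Par W (i2 + l2 + 2) (n) (i3 - i2 - l2 - 1))
    {L : ℤ} (mx : ∀ a b g, 0 < g → g < n → Par W a b g → b - a ≤ L)
    (hL : L ≤ (n - j - 3) ∧ L ≤ (n + Q - k - 3) ∧ L ≤ (n - l - 3) ∧ L ≤ (n + i - k - 2) ∧ L ≤ (n - l2 - 3) ∧ L ≤ (n + i3 - Q - 2) ∧ L ≤ (i2 + l2 - 1) ∧ L ≤ (n + i2 - k - l - 3))
    (bd0 : Bd W n L (j) (i) (k))
    (bd2 : Bd W n L (k + l + l2 - n + 2) (i3) (i2 + l2 + 1))
    (n1 : Nd W (j) (i) (k))
    (n2 : Nd W (i + l + 1) (i2) (k + l + 1))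
    (n3 : Nd W (k + l + l2 - n + 2) (i3) (i2 + l2 + 1))
    (b0 : (2 * l + 3) ≤ (n))
    (b1 : (k + l + 1) ≤ (2 * i2 + l2))
    (b2 : (2 * i + j + 1) ≤ (k)) : False := by
  have ev := al.ev
  obtain ⟨y0, y1, y2, y3, y4, y5, y6, y7, y8, y9, y10, y11, y12, y13, y14, y15, y16, y17, y18, y19, y20, y21, y22⟩ := id hy
  have n1p := And.intro n1.p1 n1.p2
  have n2p := And.intro n2.p1 n2.p2
  have n3p := And.intro n3.p1 n3.p2
  by_cases z4 : (i + l + i2 + 2 * l2 + 5) ≤ (n + 2 * Q)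
  · by_cases v1 : (k) ≤ (i2)
    · have kk14 : (2 * k + l + 2) ≤ (n + i + i2) := by clear * - b1 y17 y22; omega
      have kk15 : (i + l + i2 + 2 * l2 + 5) ≤ (n + 2 * Q) := by clear * - z4; omega
      have kk16 : (i + l + i2 + 3) ≤ (n + 2 * i3) := by clear * - b0 y13 y14 y17 y21; omega
      have kk17 : (2 * k + l + 3) ≤ (n + i + i2) := by clear * - b1 y17 y22; omega
      have kk18 : (k) ≤ (i2) := by clear * - v1; omega
      have kk19 : (i2 + l2) ≤ (k + l) := by clear * - y20; omega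
      have kk20 : (0) ≤ (l2 + 1) := by clear * - b0 v1 y13 y14 y17; omega
      have kk21 : (k + i3) ≤ (i + i2 + l2 + 1) := by clear * - b1 y14 y17 y22; omega
      have r22 : (k + l + l2 + i3 - n + 2) % 2 = 0 := by clear * - ev n1p n2p n3p; omega
      have r23 : (n + i + i2 - 2 * k - l - 1) % 2 = 0 := by clear * - ev n1p n2p n3p; omega
      clear * - al b c u2 kk14 kk15 kk16 kk17 kk18 kk19 kk20 kk21 r22 r23
      exact midP al (n + i + i2 - 2 * k - l - 1) (k + l + l2 + i3 - n + 2) (k + l + l2 - n + 3) (k + l - n + 2) (i + i2 + l2 - k + 1) (by omega) (fun t h1 h2 => (qa u2 al 0 t ((k + l + l2 + i3 - n + 2) - t) (by omega))) (fun t h1 h2 => (cE (pb c al (-1) t (t + (n + i2 - k - l - 1)) (by omega)) (pb b al 0 (t + (n + i2 - k - l - 1)) (t + (n + i + i2 - 2 * k - l - 1)) (by omega))))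
    · have kk24 : (2 * k + l + 2) ≤ (n + i + i2) := by clear * - b1 y17 y22; omega
      have kk25 : (i + l + i2 + 2 * l2 + 5) ≤ (n + 2 * Q) := by clear * - z4; omega
      have kk26 : (i + 2 * k + l + 3) ≤ (n + i2 + 2 * i3) := by clear * - b1 y17 y21; omega
      have kk27 : (2 * k + l + 3) ≤ (n + i + i2) := by clear * - b1 y17 y22; omega
      have kk28 : (i2) ≤ (k) := by clear * - v1; omega
      have kk29 : (i2 + l2) ≤ (k + l) := by clear * - y20; omega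
      have kk30 : (k) ≤ (i2 + l2 + 1) := by clear * - b1 y14 y17; omega
      have kk31 : (k + i3) ≤ (i + i2 + l2 + 1) := by clear * - b1 y14 y17 y22; omega
      have r32 : (k + l + l2 + i3 - n + 2) % 2 = 0 := by clear * - ev n1p n2p n3p; omega
      have r33 : (n + i + i2 - 2 * k - l - 1) % 2 = 0 := by clear * - ev n1p n2p n3p; omega
      clear * - al b c u2 kk24 kk25 kk26 kk27 kk28 kk29 kk30 kk31 r32 r33
      exact midP al (n + i + i2 - 2 * k - l - 1) (k + l + l2 + i3 - n + 2) (k + l + l2 - n + 3) (2 * k + l - n - i2 + 2) (i + i2 + l2 - k + 1) (by omega) (fun t h1 h2 => (qa u2 al 0 t ((k + l + l2 + i3 - n + 2) - t) (by omega))) (fun t h1 h2 => (cE (pb c al (-1) t (t + (n + i2 - k - l - 1)) (by omega)) (pb b al 0 (t + (n + i2 - k - l - 1)) (t + (n + i + i2 - 2 * k - l - 1)) (by omega))))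
  · exact t4_4 al hy a1 a2 s1 s2 b tt c u1 u2 D1 D2 mx hL bd0 bd2 n1 n2 n3 (by clear * - b0; omega) (by clear * - b1; omega) (by clear * - b2; omega) (by clear * - z4; omega)

theorem t4_2 {W : ℤ → G} {n Q i j k l i2 l2 i3 : ℤ} (al : AL W n Q)
    (hy : (0) ≤ (i) ∧ (i) ≤ (j) ∧ (j + 1) ≤ (Q) ∧ (Q) ≤ (k) ∧ (k + 1) ≤ (n) ∧ (Q) ≤ (i + l + 1) ∧ (k + l + 2) ≤ (n) ∧ (Q) ≤ (i2) ∧ (i2) ≤ (i + l + 1) ∧ (Q) ≤ (i2 + l2 + 1) ∧ (i2 + l2 + 2) ≤ (n) ∧ (n) ≤ (k + l + l2 + 2) ∧ (k + l + l2 + 3) ≤ (n + Q) ∧ (0) ≤ (i3) ∧ (n + i3) ≤ (k + l + l2 + 2) ∧ (k + i2 + l2 + 2) ≤ (n + j + i3) ∧ (j + i3 + 1) ≤ (k) ∧ (k + i2 + l2 + 2) ≤ (n + i3) ∧ (i + 2 * i2 + 1) ≤ (2 * Q + k) ∧ (i + l + 1) ≤ (i2 + l2) ∧ (i2 + l2 + 1) ≤ (k + l) ∧ (i) ≤ (i3) ∧ (i3) ≤ (i))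
    (a1 : Par W (0) (j) (k - j))
    (a2 : Par W (Q + j - k) (j) (k - j))
    (s1 : Ant W (0) (i) (i + j))
    (s2 : Ant W (j + 1) (Q) (i + j))
    (b : Par W (i + 1) (i + l + 1) (k - i))
    (tt : Ant W (Q) (i2) (i + l + i2 + 1))
    (c : Par W (i2 + 1) (i2 + l2 + 1) (k + l - i2 + 1))
    (u1 : Ant W (0) (i3) (k + l + l2 + i3 - n + 2))
    (u2 : Ant W (k + l + l2 - n + 3) (Q) (k + l + l2 + i3 - n + 2))
    (D1 : Par W (i3 + 1) (Q) (i2 + l2 - i3 + 1))
    (D2 : Par W (i2 + l2 + 2) (n) (i3 - i2 - l2 - 1))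
    {L : ℤ} (mx : ∀ a b g, 0 < g → g < n → Par W a b g → b - a ≤ L)
    (hL : L ≤ (n - j - 3) ∧ L ≤ (n + Q - k - 3) ∧ L ≤ (n - l - 3) ∧ L ≤ (n + i - k - 2) ∧ L ≤ (n - l2 - 3) ∧ L ≤ (n + i3 - Q - 2) ∧ L ≤ (i2 + l2 - 1) ∧ L ≤ (n + i2 - k - l - 3))
    (bd0 : Bd W n L (j) (i) (k))
    (bd2 : Bd W n L (k + l + l2 - n + 2) (i3) (i2 + l2 + 1))
    (n1 : Nd W (j) (i) (k))
    (n2 : Nd W (i + l + 1) (i2) (k + l + 1))
    (n3 : Nd W (k + l + l2 - n + 2) (i3) (i2 + l2 + 1))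
    (b0 : (2 * l + 3) ≤ (n))
    (b1 : (k + l + 1) ≤ (2 * i2 + l2)) : False := by
  have ev := al.ev
  obtain ⟨y0, y1, y2, y3, y4, y5, y6, y7, y8, y9, y10, y11, y12, y13, y14, y15, y16, y17, y18, y19, y20, y21, y22⟩ := id hy
  have n1p := And.intro n1.p1 n1.p2
  have n2p := And.intro n2.p1 n2.p2
  have n3p := And.intro n3.p1 n3.p2
  by_cases z3 : (k) ≤ (2 * i + j)
  · have kk7 : (j + 1) ≤ (k) := by clear * - y16 y21 z3; omega
    have kk8 : (k) ≤ (2 * i + j) := by clear * - z3; omega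
    have kk9 : (k) ≤ (2 * i + 3 * j + 2) := by clear * - y1 y19 y20 z3; omega
    have kk10 : (0) ≤ (j + k) := by clear * - y19 y20 z3; omega
    have kk11 : (i + j + 1) ≤ (k) := by clear * - y16 y21; omega
    have r12 : (i + j - 2 * n) % 2 = 0 := by clear * - ev n1p n2p n3p; omega
    have r13 : (k - j) % 2 = 0 := by clear * - ev n1p n2p n3p; omega
    clear * - al a1 s1 kk7 kk8 kk9 kk10 kk11 r12 r13
    exact midP al (k - j) (i + j - 2 * n) (-n) (-n) (k - n) (by omega) (fun t h1 h2 => (cE (qa s1 al (-1) t ((i + j - n) - t) (by omega)) (sh al (-1) ((i + j - n) - t) ((i + j - 2 * n) - t) (by omega)))) (fun t h1 h2 => (cE (qf a1 al (-1) t (t + (n + k - j)) (by omega)) (sh al (-1) (t + (n + k - j)) (t + (k - j)) (by omega))))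
  · exact t4_3 al hy a1 a2 s1 s2 b tt c u1 u2 D1 D2 mx hL bd0 bd2 n1 n2 n3 (by clear * - b0; omega) (by clear * - b1; omega) (by clear * - z3; omega)

theorem t4_1 {W : ℤ → G} {n Q i j k l i2 l2 i3 : ℤ} (al : AL W n Q)
    (hy : (0) ≤ (i) ∧ (i) ≤ (j) ∧ (j + 1) ≤ (Q) ∧ (Q) ≤ (k) ∧ (k + 1) ≤ (n) ∧ (Q) ≤ (i + l + 1) ∧ (k + l + 2) ≤ (n) ∧ (Q) ≤ (i2) ∧ (i2) ≤ (i + l + 1) ∧ (Q) ≤ (i2 + l2 + 1) ∧ (i2 + l2 + 2) ≤ (n) ∧ (n) ≤ (k + l + l2 + 2) ∧ (k + l + l2 + 3) ≤ (n + Q) ∧ (0) ≤ (i3) ∧ (n + i3) ≤ (k + l + l2 + 2) ∧ (k + i2 + l2 + 2) ≤ (n + j + i3) ∧ (j + i3 + 1) ≤ (k) ∧ (k + i2 + l2 + 2) ≤ (n + i3) ∧ (i + 2 * i2 + 1) ≤ (2 * Q + k) ∧ (i + l + 1) ≤ (i2 + l2) ∧ (i2 + l2 + 1) ≤ (k + l) ∧ (i) ≤ (i3) ∧ (i3) ≤ (i))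
    (a1 : Par W (0) (j) (k - j))
    (a2 : Par W (Q + j - k) (j) (k - j))
    (s1 : Ant W (0) (i) (i + j))
    (s2 : Ant W (j + 1) (Q) (i + j))
    (b : Par W (i + 1) (i + l + 1) (k - i))
    (tt : Ant W (Q) (i2) (i + l + i2 + 1))
    (c : Par W (i2 + 1) (i2 + l2 + 1) (k + l - i2 + 1))
    (u1 : Ant W (0) (i3) (k + l + l2 + i3 - n + 2))
    (u2 : Ant W (k + l + l2 - n + 3) (Q) (k + l + l2 + i3 - n + 2))
    (D1 : Par W (i3 + 1) (Q) (i2 + l2 - i3 + 1))
    (D2 : Par W (i2 + l2 + 2) (n) (i3 - i2 - l2 - 1))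
    {L : ℤ} (mx : ∀ a b g, 0 < g → g < n → Par W a b g → b - a ≤ L)
    (hL : L ≤ (n - j - 3) ∧ L ≤ (n + Q - k - 3) ∧ L ≤ (n - l - 3) ∧ L ≤ (n + i - k - 2) ∧ L ≤ (n - l2 - 3) ∧ L ≤ (n + i3 - Q - 2) ∧ L ≤ (i2 + l2 - 1) ∧ L ≤ (n + i2 - k - l - 3))
    (bd0 : Bd W n L (j) (i) (k))
    (bd2 : Bd W n L (k + l + l2 - n + 2) (i3) (i2 + l2 + 1))
    (n1 : Nd W (j) (i) (k))
    (n2 : Nd W (i + l + 1) (i2) (k + l + 1))
    (n3 : Nd W (k + l + l2 - n + 2) (i3) (i2 + l2 + 1))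
    (b0 : (2 * l + 3) ≤ (n)) : False := by
  have ev := al.ev
  obtain ⟨y0, y1, y2, y3, y4, y5, y6, y7, y8, y9, y10, y11, y12, y13, y14, y15, y16, y17, y18, y19, y20, y21, y22⟩ := id hy
  have n1p := And.intro n1.p1 n1.p2
  have n2p := And.intro n2.p1 n2.p2
  have n3p := And.intro n3.p1 n3.p2
  by_cases z2 : (2 * i2 + l2) ≤ (k + l)
  · have kk4 : (i2 + l2 + 2) ≤ (n + i3) := by clear * - y13 y17 y19 y20 y22; omega
    have kk5 : (i3) ≤ (i2 + l2) := by clear * - y12 y14 y9; omega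
    have kk6 : (2 * i2 + l2) ≤ (k + l) := by clear * - z2; omega
    clear * - al D2 mx hL kk4 kk5 kk6
    exact absurd (mx (i2 + l2 + 2) (n) (n + i3 - i2 - l2 - 1) (by omega) (by omega) fun t h1 h2 => (cE (qf D2 al 0 t (t + (i3 - i2 - l2 - 1)) (by omega)) (sh al 1 (t + (i3 - i2 - l2 - 1)) (t + (n + i3 - i2 - l2 - 1)) (by omega)))) (by omega)
  · exact t4_2 al hy a1 a2 s1 s2 b tt c u1 u2 D1 D2 mx hL bd0 bd2 n1 n2 n3 (by clear * - b0; omega) (by clear * - z2; omega)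

theorem t4 {W : ℤ → G} {n Q i j k l i2 l2 i3 : ℤ} (al : AL W n Q)
    (hy : (0) ≤ (i) ∧ (i) ≤ (j) ∧ (j + 1) ≤ (Q) ∧ (Q) ≤ (k) ∧ (k + 1) ≤ (n) ∧ (Q) ≤ (i + l + 1) ∧ (k + l + 2) ≤ (n) ∧ (Q) ≤ (i2) ∧ (i2) ≤ (i + l + 1) ∧ (Q) ≤ (i2 + l2 + 1) ∧ (i2 + l2 + 2) ≤ (n) ∧ (n) ≤ (k + l + l2 + 2) ∧ (k + l + l2 + 3) ≤ (n + Q) ∧ (0) ≤ (i3) ∧ (n + i3) ≤ (k + l + l2 + 2) ∧ (k + i2 + l2 + 2) ≤ (n + j + i3) ∧ (j + i3 + 1) ≤ (k) ∧ (k + i2 + l2 + 2) ≤ (n + i3) ∧ (i + 2 * i2 + 1) ≤ (2 * Q + k) ∧ (i + l + 1) ≤ (i2 + l2) ∧ (i2 + l2 + 1) ≤ (k + l) ∧ (i) ≤ (i3) ∧ (i3) ≤ (i))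
    (a1 : Par W (0) (j) (k - j))
    (a2 : Par W (Q + j - k) (j) (k - j))
    (s1 : Ant W (0) (i) (i + j))
    (s2 : Ant W (j + 1) (Q) (i + j))
    (b : Par W (i + 1) (i + l + 1) (k - i))
    (tt : Ant W (Q) (i2) (i + l + i2 + 1))
    (c : Par W (i2 + 1) (i2 + l2 + 1) (k + l - i2 + 1))
    (u1 : Ant W (0) (i3) (k + l + l2 + i3 - n + 2))
    (u2 : Ant W (k + l + l2 - n + 3) (Q) (k + l + l2 + i3 - n + 2))
    (D1 : Par W (i3 + 1) (Q) (i2 + l2 - i3 + 1))
    (D2 : Par W (i2 + l2 + 2) (n) (i3 - i2 - l2 - 1))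
    {L : ℤ} (mx : ∀ a b g, 0 < g → g < n → Par W a b g → b - a ≤ L)
    (hL : L ≤ (n - j - 3) ∧ L ≤ (n + Q - k - 3) ∧ L ≤ (n - l - 3) ∧ L ≤ (n + i - k - 2) ∧ L ≤ (n - l2 - 3) ∧ L ≤ (n + i3 - Q - 2) ∧ L ≤ (i2 + l2 - 1) ∧ L ≤ (n + i2 - k - l - 3))
    (bd0 : Bd W n L (j) (i) (k))
    (bd2 : Bd W n L (k + l + l2 - n + 2) (i3) (i2 + l2 + 1))
    (n1 : Nd W (j) (i) (k))
    (n2 : Nd W (i + l + 1) (i2) (k + l + 1))
    (n3 : Nd W (k + l + l2 - n + 2) (i3) (i2 + l2 + 1)) : False := by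
  have ev := al.ev
  obtain ⟨y0, y1, y2, y3, y4, y5, y6, y7, y8, y9, y10, y11, y12, y13, y14, y15, y16, y17, y18, y19, y20, y21, y22⟩ := id hy
  have n1p := And.intro n1.p1 n1.p2
  have n2p := And.intro n2.p1 n2.p2
  have n3p := And.intro n3.p1 n3.p2
  by_cases z1 : (n) ≤ (2 * l + 2)
  · have kk1 : (i + 1) ≤ (k) := by clear * - y19 y20; omega
    have kk2 : (k + 1) ≤ (n + i) := by clear * - y13 y17 y19 y20 y22 z1; omega
    have kk3 : (n) ≤ (2 * l + 2) := by clear * - z1; omega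
    clear * - al b mx hL kk1 kk2 kk3
    exact absurd (mx (i - n + 1) (i + l - n + 1) (k - i) (by omega) (by omega) fun t h1 h2 => (cE (qf b al (-1) t (t + (n + k - i)) (by omega)) (sh al (-1) (t + (n + k - i)) (t + (k - i)) (by omega)))) (by omega)
  · exact t4_1 al hy a1 a2 s1 s2 b tt c u1 u2 D1 D2 mx hL bd0 bd2 n1 n2 n3 (by clear * - z1; omega)

end Pool.Agent.MP_a38735_al.WL
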