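import Pool.Agent.MP_a38735_al.Zw13

set_option autoImplicit false
set_option linter.unusedVariables false

namespace Pool.Agent.MP_a38735_al.WL

variable {G : Type*} [Group G]

theorem yf2_11 {W : ℤ → G} {n Q i j k l i2 l2 i3 : ℤ} (al : AL W n Q)
    (hy : (0) ≤ (i) ∧ (i) ≤ (j) ∧ (j + 1) ≤ (Q) ∧ (Q) ≤ (k) ∧ (k + 1) ≤ (n) ∧ (Q) ≤ (i + l + 1) ∧ (k + l + 2) ≤ (n) ∧ (Q) ≤ (i2) ∧ (i2) ≤ (i + l + 1) ∧ (Q) ≤ (i2 + l2 + 1) ∧ (i2 + l2 + 2) ≤ (n) ∧ (n) ≤ (k + l + l2 + 2) ∧ (k + l + l2 + 3) ≤ (n + Q) ∧ (0) ≤ (i3) ∧ (n + i3) ≤ (k + l + l2 + 2) ∧ (k + i2 + l2 + 2) ≤ (n + j + i3) ∧ (j + i3 + 1) ≤ (k) ∧ (k + i2 + l2 + 2) ≤ (n + i3) ∧ (i + l + 1) ≤ (i2 + l2) ∧ (i) ≤ (i3) ∧ (i3) ≤ (i) ∧ (k + l) ≤ (i2 + l2) ∧ (i2 + l2) ≤ (k + l))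
    (a1 : Par W (0) (j) (k - j))
    (a2 : Par W (Q + j - k) (j) (k - j))
    (s1 : Ant W (0) (i) (i + j))
    (s2 : Ant W (j + 1) (Q) (i + j))
    (b : Par W (i + 1) (i + l + 1) (k - i))
    (tt : Ant W (Q) (i2) (i + l + i2 + 1))
    (c : Par W (i2 + 1) (i2 + l2 + 1) (k + l - i2 + 1))
    (u1 : Ant W (0) (i3) (k + l + l2 + i3 - n + 2))
    (u2 : Ant W (k + l + l2 - n + 3) (Q) (k + l + l2 + i3 - n + 2))
    (D1 : Par W (i3 + 1) (Q) (i2 + l2 - i3 + 1))
    (D2 : Par W (i2 + l2 + 2) (n) (i3 - i2 - l2 - 1))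
    {L : ℤ} (mx : ∀ a b g, 0 < g → g < n → Par W a b g → b - a ≤ L)
    (hL : L ≤ (n - j - 3) ∧ L ≤ (n + Q - k - 3) ∧ L ≤ (n - l - 3) ∧ L ≤ (n + i - k - 2) ∧ L ≤ (n - l2 - 3) ∧ L ≤ (n + i3 - Q - 2) ∧ L ≤ (i2 + l2 - 1) ∧ L ≤ (n + i2 - k - l - 3))
    (bd0 : Bd W n L (j) (i) (k))
    (bd2 : Bd W n L (k + l + l2 - n + 2) (i3) (i2 + l2 + 1))
    (n1 : Nd W (j) (i) (k))
    (n2 : Nd W (i + l + 1) (i2) (k + l + 1))
    (n3 : Nd W (k + l + l2 - n + 2) (i3) (i2 + l2 + 1))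
    (b0 : (n + 2 * Q + i2) ≤ (i + k + 2 * l + l2 + i3 + 4))
    (b1 : (2 * i + j + 1) ≤ (k))
    (b2 : (2 * n + 2 * Q + i3) ≤ (k + l + 2 * i2 + 3 * l2 + 5))
    (b3 : (n + i + 2 * i2) ≤ (j + 2 * k + 2 * l + 3))
    (b4 : (i + 2 * k + 2 * l + 5) ≤ (n + 2 * Q + j))
    (b5 : (i + 2 * i2 + l2 + 1) ≤ (2 * k + l + i3)) : False := by
  have ev := al.ev
  obtain ⟨y0, y1, y2, y3, y4, y5, y6, y7, y8, y9, y10, y11, y12, y13, y14, y15, y16, y17, y18, y19, y20, y21, y22⟩ := id hy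
  have n1p := And.intro n1.p1 n1.p2
  have n2p := And.intro n2.p1 n2.p2
  have n3p := And.intro n3.p1 n3.p2
  by_cases z22 : (2 * k + l + i3 + 1) ≤ (Q + 2 * i2 + l2)
  · have kk371 : (i + 2 * i2 + l2 + 1) ≤ (2 * k + l + i3) := by clear * - b5; omega
    have kk372 : (2 * k + l + i3 + 1) ≤ (n + i + 2 * i2 + l2) := by clear * - b0 b2 b5 y12 y20 z22; omega
    have kk373 : (2 * k + l + i3 + 1) ≤ (Q + 2 * i2 + l2) := by clear * - z22; omega
    have kk374 : (Q + 2 * k + l + 1) ≤ (n + i + i2) := by clear * - y17 y20 y21 y7; omega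
    have kk375 : (k + l) ≤ (i2 + l2) := by clear * - y21; omega
    have kk376 : (n) ≤ (k + l + l2 + 2) := by clear * - y13 y14; omega
    have kk377 : (2 * i2 + l2) ≤ (2 * k + l) := by clear * - b5 y20; omega
    have kk378 : (n + i2) ≤ (2 * k + 2 * l + 2) := by clear * - y13 y14 y22; omega
    clear * - al b c D2 kk371 kk372 kk373 kk374 kk375 kk376 kk377 kk378
    exact al.ubQ (2 * k + l + i3 - i - 2 * i2 - l2) (by omega) (by omega) fun t h1 h2 => (cE (sh al 1 t (t + (n)) (by omega)) (cE (qf b al 1 (t + (n)) (t + (k - i)) (by omega)) (pb (show Par W (i3 + 1) (n + i3 - i2 - l2 - 1) (2 * i2 + l2 - k - l - i3) from fun t h1 h2 => (cE (sh al (-1) t (t + (-n)) (by omega)) (cE (pb D2 al (-1) (t + (-n)) (t + (i2 + l2 - i3 + 1)) (by omega)) (pb c al 0 (t + (i2 + l2 - i3 + 1)) (t + (2 * i2 + l2 - k - l - i3)) (by omega))))) al 0 (t + (k - i)) (t + (2 * k + l + i3 - i - 2 * i2 - l2)) (by omega))))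
  · by_cases z23 : (n + j) ≤ (k + l + l2 + 2)
    · by_cases z24 : (i + j + 2 * i2 + l2 + 2) ≤ (2 * Q + k + l + i3)
      · have kk379 : (j + k + l + i3 + 1) ≤ (i + 2 * i2 + l2) := by clear * - y20 y21 y7 z24; omega
        have kk380 : (i + j + 2 * i2 + l2 + 2) ≤ (2 * Q + k + l + i3) := by clear * - z24; omega
        have kk381 : (j + k + l + i3 + 2) ≤ (i + 2 * i2 + l2) := by clear * - y20 y21 y7 z24; omega
        have kk382 : (i2) ≤ (k) := by clear * - b5 y20 y21; omega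
        have kk383 : (i2 + l2) ≤ (k + l) := by clear * - y22; omega
        have kk384 : (2 * i2 + l2) ≤ (2 * k + l) := by clear * - b5 y20; omega
        have kk385 : (Q + 2 * i2 + l2) ≤ (2 * k + l + i3 + 1) := by clear * - z22; omega
        have kk386 : (i2) ≤ (l + i3 + 1) := by clear * - y15 z23; omega
        have kk387 : (k + i2 + l2 + 1) ≤ (n + i3) := by clear * - y17; omega
        have kk388 : (k + l + i3) ≤ (2 * i2 + l2) := by clear * - b2 y12; omega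
        have r389 : (i + j) % 2 = 0 := by clear * - ev n1p n2p n3p; omega
        have r390 : (i + 2 * i2 + l2 - j - k - l - i3) % 2 = 0 := by clear * - ev n1p n2p n3p; omega
        clear * - al a2 s2 b c D2 kk379 kk380 kk381 kk382 kk383 kk384 kk385 kk386 kk387 kk388 r389 r390
        exact midP al (i + 2 * i2 + l2 - j - k - l - i3) (i + j) (j + 1) (j + k + l + i3 - 2 * i2 - l2 + 1) (i + 2 * i2 + l2 - k - l - i3) (by omega) (fun t h1 h2 => (qa s2 al 0 t ((i + j) - t) (by omega))) (fun t h1 h2 => (cE (cE (cE (qf a2 al 0 t (t + (k - j)) (by omega)) (pb D2 al 0 (t + (k - j)) (t + (k + i2 + l2 - j - i3 + 1)) (by omega))) (qf (show Par W (2 * k + l - i2 + 2) (k + l + l2 + 2) (n + i + i2 - 2 * k - l - 1) from fun t h1 h2 => (cE (sh al (-1) t (t + (-n)) (by omega)) (cE (cE (pb c al (-1) (t + (-n)) (t + (i2 - k - l - 1)) (by omega)) (pb b al 0 (t + (i2 - k - l - 1)) (t + (i + i2 - 2 * k - l - 1)) (by omega))) (sh al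 1 (t + (i + i2 - 2 * k - l - 1)) (t + (n + i + i2 - 2 * k - l - 1)) (by omega))))) al 0 (t + (k + i2 + l2 - j - i3 + 1)) (t + (n + i + 2 * i2 + l2 - j - k - l - i3)) (by omega))) (sh al (-1) (t + (n + i + 2 * i2 + l2 - j - k - l - i3)) (t + (i + 2 * i2 + l2 - j - k - l - i3)) (by omega))))
      · by_cases z25 : (k + l + l2 + 2) ≤ (n + j)
        · by_cases v11 : (i + l + i2 + l2 + 2) ≤ (n + i3)
          · have kk391 : (i2 + l2) ≤ (k + l) := by clear * - y22; omega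
            have kk392 : (k + l) ≤ (i2 + l2) := by clear * - y21; omega
            have kk393 : (i) ≤ (i3) := by clear * - y19; omega
            have kk394 : (i3) ≤ (i) := by clear * - y20; omega
            have kk395 : (i + 2 * i2 + l2 + 1) ≤ (2 * k + l + i3) := by clear * - b5; omega
            have kk396 : (k + l + i3 + 1) ≤ (2 * i2 + l2) := by clear * - b2 y12; omega
            have kk397 : (i + i2 + l2) ≤ (k + l + i3) := by clear * - y19 y22; omega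
            have kk398 : (i2) ≤ (i + l + 1) := by clear * - y15 y20 z23; omega
            have kk399 : (i3 + 1) ≤ (i2) := by clear * - b2 y12 y22; omega
            have kk400 : (2 * k + l + 1) ≤ (n + i) := by clear * - y17 y20 y21; omega
            have kk401 : (n) ≤ (k + l + l2 + 2) := by clear * - b4 y13 y22 z23 z24; omega
            have kk402 : (k + l + l2 + 2) ≤ (n + j) := by clear * - z25; omega
            have kk403 : (n + j) ≤ (k + l + l2 + 2) := by clear * - z23; omega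
            have kk404 : (i + l + i2 + l2 + 2) ≤ (n + i3) := by clear * - v11; omega
            have r405 : (2 * k + l + i3 - i - 2 * i2 - l2) % 2 = 0 := by clear * - ev n1p n2p n3p; omega
            have r406 : (2 * i2 + l2 - k - l - i3) % 2 = 0 := by clear * - ev n1p n2p n3p; omega
            clear * - al b c D2 n1 n2 n3 kk391 kk392 kk393 kk394 kk395 kk396 kk397 kk398 kk399 kk400 kk401 kk402 kk403 kk404 r405 r406
            exact n2.f1 (rEE (sh al (-1) (i2) (i2 - n) (by omega)) (cE (pb (uP (k) (i2 + l2 + 1) (i2 + l2 - k + 1) (by omega) (oNN (lat n1.r0 n3.r0 (sh al 0 (j) (k + l + l2 - n + 2) (by omega)) (sh al 0 (i) (i3) (by omega))))) al 0 (k + l + 1) (2 * k + l - i2 - l2) (by omega)) (sh al (-1) (2 * k + l - i2 - l2) (2 * k + l - n - i2 - l2) (by omega))) (rotL (2 * k + l + i3 - i - 2 * i2 - l2) (2 * i2 + l2 - k - l - i3) (i2 - n) (2 * k + l - n - i2 - l2) (by omega) (fun t h1 h2 => (cE (cE (pb (show Par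 W (i3 + 1) (n + i3 - i2 - l2 - 1) (2 * i2 + l2 - k - l - i3) from fun t h1 h2 => (cE (sh al (-1) t (t + (-n)) (by omega)) (cE (pb D2 al (-1) (t + (-n)) (t + (i2 + l2 - i3 + 1)) (by omega)) (pb c al 0 (t + (i2 + l2 - i3 + 1)) (t + (2 * i2 + l2 - k - l - i3)) (by omega))))) al (-1) t (t + (n + k + l + i3 - 2 * i2 - l2)) (by omega)) (qf b al 0 (t + (n + k + l + i3 - 2 * i2 - l2)) (t + (n + 2 * k + l + i3 - i - 2 * i2 - l2)) (by omega))) (sh al (-1) (t + (n + 2 * k + l + i3 - i - 2 * i2 - l2)) (t + (2 * k + l + i3 - i - 2 * i2 - l2)) (by omega)))) (fun t h1 h2 => (cE (qf (show Par W (i3 + 1) (n + i3 - i2 - l2 - 1) (2 * i2 + l2 - k - l - i3) from fun t h1 h2 => (cE (sh al (-1) t (t + (-n)) (by omega)) (cE (pb D2 al (-1) (t + (-n)) (t + (i2 + l2 - i3 + 1)) (by omega)) (pb c al 0 (t + (i2 + l2 - i3 + 1)) (t + (2 * i2 + l2 - k - l - i3)) (by omega))))) al (-1) t (t + (n + 2 * i2 + l2 - k - l - i3)) (by omega)) (sh al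 (-1) (t + (n + 2 * i2 + l2 - k - l - i3)) (t + (2 * i2 + l2 - k - l - i3)) (by omega))))))
          · have kk407 : (i2 + l2) ≤ (k + l) := by clear * - y22; omega
            have kk408 : (k + l) ≤ (i2 + l2) := by clear * - y21; omega
            have kk409 : (i) ≤ (i3) := by clear * - y19; omega
            have kk410 : (i3) ≤ (i) := by clear * - y20; omega
            have kk411 : (i + 2 * i2 + l2 + 1) ≤ (2 * k + l + i3) := by clear * - b5; omega
            have kk412 : (k + l + i3 + 1) ≤ (2 * i2 + l2) := by clear * - v11 y16 y19 y21 z25; omega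
            have kk413 : (i + i2 + l2) ≤ (k + l + i3) := by clear * - y19 y22; omega
            have kk414 : (2 * i2 + l2 + 1) ≤ (n + i3) := by clear * - b5 y17 y20 y21; omega
            have kk415 : (i3 + 1) ≤ (i2) := by clear * - v11 y16 y19 z25; omega
            have kk416 : (2 * k + l + 1) ≤ (n + i) := by clear * - y17 y20 y21; omega
            have kk417 : (n) ≤ (k + l + l2 + 2) := by clear * - b5 v11 y21; omega
            have kk418 : (k + l + l2 + 2) ≤ (n + j) := by clear * - z25; omega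
            have kk419 : (n + j) ≤ (k + l + l2 + 2) := by clear * - z23; omega
            have kk420 : (n + i3) ≤ (i + l + i2 + l2 + 2) := by clear * - v11; omega
            have r421 : (2 * k + l + i3 - i - 2 * i2 - l2) % 2 = 0 := by clear * - ev n1p n2p n3p; omega
            have r422 : (2 * i2 + l2 - k - l - i3) % 2 = 0 := by clear * - ev n1p n2p n3p; omega
            clear * - al b c D2 n1 n2 n3 kk407 kk408 kk409 kk410 kk411 kk412 kk413 kk414 kk415 kk416 kk417 kk418 kk419 kk420 r421 r422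
            exact n2.f1 (rEE (sh al (-1) (i2) (i2 - n) (by omega)) (cE (pb (uP (k) (i2 + l2 + 1) (i2 + l2 - k + 1) (by omega) (oNN (lat n1.r0 n3.r0 (sh al 0 (j) (k + l + l2 - n + 2) (by omega)) (sh al 0 (i) (i3) (by omega))))) al 0 (k + l + 1) (2 * k + l - i2 - l2) (by omega)) (sh al (-1) (2 * k + l - i2 - l2) (2 * k + l - n - i2 - l2) (by omega))) (rotL (2 * k + l + i3 - i - 2 * i2 - l2) (2 * i2 + l2 - k - l - i3) (i2 - n) (2 * k + l - n - i2 - l2) (by omega) (fun t h1 h2 => (cE (cE (pb (show Par W (i3 + 1) (n + i3 - i2 - l2 - 1) (2 * i2 + l2 - k - l - i3) from fun t h1 h2 => (cE (sh al (-1) t (t + (-n)) (by omega)) (cE (pb D2 al (-1) (t + (-n)) (t + (i2 + l2 - i3 + 1)) (by omega)) (pb c al 0 (t + (i2 + l2 - i3 + 1)) (t + (2 * i2 + l2 - k - l - i3)) (by omega))))) al (-1) t (t + (n + k + l + i3 - 2 * i2 - l2)) (by omega)) (qf b al 0 (t + (n + k + l + i3 - 2 * i2 - l2)) (t + (n + 2 * k + l + i3 - i - 2 * i2 -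 l2)) (by omega))) (sh al (-1) (t + (n + 2 * k + l + i3 - i - 2 * i2 - l2)) (t + (2 * k + l + i3 - i - 2 * i2 - l2)) (by omega)))) (fun t h1 h2 => (cE (qf (show Par W (i3 + 1) (n + i3 - i2 - l2 - 1) (2 * i2 + l2 - k - l - i3) from fun t h1 h2 => (cE (sh al (-1) t (t + (-n)) (by omega)) (cE (pb D2 al (-1) (t + (-n)) (t + (i2 + l2 - i3 + 1)) (by omega)) (pb c al 0 (t + (i2 + l2 - i3 + 1)) (t + (2 * i2 + l2 - k - l - i3)) (by omega))))) al (-1) t (t + (n + 2 * i2 + l2 - k - l - i3)) (by omega)) (sh al (-1) (t + (n + 2 * i2 + l2 - k - l - i3)) (t + (2 * i2 + l2 - k - l - i3)) (by omega))))))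
        · have kk423 : (j + k + l + i3 + 1) ≤ (i + 2 * i2 + l2) := by clear * - y12 z24 z25; omega
          have kk424 : (2 * Q + i + l2) ≤ (j + k + l + i3) := by clear * - y19 y22 z24 ev n1p n2p n3p; omega
          have kk425 : (2 * n + 2 * Q + i + j + 2 * i2 + l2) ≤ (5 * k + 5 * l + i3 + 4) := by clear * - y19 y22 z24 z25; omega
          have kk426 : (2 * Q + k + l + i3) ≤ (i + j + 2 * i2 + l2) := by clear * - z24 ev n1p n2p n3p; omega
          have kk427 : (k + l) ≤ (i2 + l2) := by clear * - y21; omega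
          have kk428 : (n) ≤ (k + l + l2 + 2) := by clear * - b4 y13 y22 z24 z25; omega
          have kk429 : (i2) ≤ (k) := by clear * - b5 y20 y21; omega
          have kk430 : (i2 + l2) ≤ (k + l) := by clear * - y22; omega
          have kk431 : (i3 + 1) ≤ (Q) := by clear * - b3 y12 z24 z25; omega
          have kk432 : (k + i2 + l2 + 1) ≤ (n + i3) := by clear * - y17; omega
          have kk433 : (2 * k + 2 * l + i3 + 1) ≤ (Q + 2 * i2 + 2 * l2) := by clear * - b4 y12 z24 z25; omega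
          have kk434 : (i + k + 2 * l + 3) ≤ (n + Q) := by clear * - b1 b4 y12 y20 y21 z22; omega
          have kk435 : (2 * i2 + l2) ≤ (k + 2 * l + i3 + 1) := by clear * - y15 y22 z25; omega
          have kk436 : (2 * i2 + l2) ≤ (i + k + 2 * l + 1) := by clear * - y15 y20 y22 z25; omega
          have kk437 : (Q + 2 * i2 + l2) ≤ (2 * k + l + i3 + 1) := by clear * - z22; omega
          have kk438 : (i2) ≤ (l + i3 + 1) := by clear * - y15 z25; omega
          have kk439 : (j + k + l + i3 + 1) ≤ (Q + 2 * i2 + l2) := by clear * - b2 y12 z25; omega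
          have kk440 : (4 * k + 4 * l + 2 * i3 + 3) ≤ (n + Q + i + 4 * i2 + 2 * l2) := by clear * - b4 y12 z24 z25; omega
          have r441 : (3 * k + 3 * l + i3 - n - 2 * i2 - l2 + 2) % 2 = 0 := by clear * - ev n1p n2p n3p; omega
          have r442 : (i + 2 * i2 + l2 - j - k - l - i3) % 2 = 0 := by clear * - ev n1p n2p n3p; omega
          clear * - al a2 b tt c D2 kk423 kk424 kk425 kk426 kk427 kk428 kk429 kk430 kk431 kk432 kk433 kk434 kk435 kk436 kk437 kk438 kk439 kk440 r441 r442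
          exact midP al (i + 2 * i2 + l2 - j - k - l - i3) (3 * k + 3 * l + i3 - n - 2 * i2 - l2 + 2) (Q) (j + k + l + i3 - 2 * i2 - l2 + 1) (i + 2 * i2 + l2 - k - l - i3) (by omega) (fun t h1 h2 => (cE (cE (cE (qa tt al 0 t ((i + l + i2 + 1) - t) (by omega)) (pb (show Par W (i3 + 1) (n + i3 - i2 - l2 - 1) (2 * i2 + l2 - k - l - i3) from fun t h1 h2 => (cE (sh al (-1) t (t + (-n)) (by omega)) (cE (pb D2 al (-1) (t + (-n)) (t + (i2 + l2 - i3 + 1)) (by omega)) (pb c al 0 (t + (i2 + l2 - i3 + 1)) (t + (2 * i2 + l2 - k - l - i3)) (by omega))))) al 0 ((i + l + i2 + 1) - t) ((i + k + 2 * l + i3 - i2 - l2 + 1) - t) (by omega))) (pb (show Par W (2 * k + l - i2 + 2) (k + l + l2 + 2) (n + i + i2 - 2 * k - l - 1) from fun t h1 h2 => (cE (sh al (-1) t (t + (-n)) (by omega)) (cE (cE (pb c al (-1) (t + (-n)) (t + (i2 - k - l - 1)) (by omega)) (pb b al 0 (t + (i2 - k - l - 1)) (t + (i + i2 - 2 * k - l - 1)) (by omega))) (sh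 al 1 (t + (i + i2 - 2 * k - l - 1)) (t + (n + i + i2 - 2 * k - l - 1)) (by omega))))) al (-1) ((i + k + 2 * l + i3 - i2 - l2 + 1) - t) ((3 * k + 3 * l + i3 - 2 * i2 - l2 + 2) - t) (by omega))) (sh al (-1) ((3 * k + 3 * l + i3 - 2 * i2 - l2 + 2) - t) ((3 * k + 3 * l + i3 - n - 2 * i2 - l2 + 2) - t) (by omega)))) (fun t h1 h2 => (cE (cE (pb (show Par W (Q + i2 + l2 - i3 + 1) (k + i2 + l2 - i3 + 1) (n + j + i3 - k - i2 - l2 - 1) from fun t h1 h2 => (cE (sh al (-1) t (t + (-n)) (by omega)) (cE (cE (qf D2 al (-1) (t + (-n)) (t + (i3 - i2 - l2 - 1)) (by omega)) (pb a2 al 0 (t + (i3 - i2 - l2 - 1)) (t + (j + i3 - k - i2 - l2 - 1)) (by omega))) (sh al 1 (t + (j + i3 - k - i2 - l2 - 1)) (t + (n + j + i3 - k - i2 - l2 - 1)) (by omega))))) al (-1) t (t + (k + i2 + l2 - j - i3 + 1)) (by omega)) (qf (show Par W (2 * k + l - i2 + 2) (k + l + l2 + 2) (n + i + i2 - 2 * k - l - 1) from fun t h1 h2 => (cE (sh al (-1) t (t + (-n))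 (by omega)) (cE (cE (pb c al (-1) (t + (-n)) (t + (i2 - k - l - 1)) (by omega)) (pb b al 0 (t + (i2 - k - l - 1)) (t + (i + i2 - 2 * k - l - 1)) (by omega))) (sh al 1 (t + (i + i2 - 2 * k - l - 1)) (t + (n + i + i2 - 2 * k - l - 1)) (by omega))))) al 0 (t + (k + i2 + l2 - j - i3 + 1)) (t + (n + i + 2 * i2 + l2 - j - k - l - i3)) (by omega))) (sh al (-1) (t + (n + i + 2 * i2 + l2 - j - k - l - i3)) (t + (i + 2 * i2 + l2 - j - k - l - i3)) (by omega))))
    · by_cases z26 : (i + 2 * i2 + 2 * l2 + 2) ≤ (n + 2 * j + i3)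
      · have kk443 : (j + k + l + i3 + 1) ≤ (i + 2 * i2 + l2) := by clear * - y2 y20 y21 y7; omega
        have kk444 : (i + k + l + 2 * i2 + 3 * l2 + 6) ≤ (2 * n + 2 * Q + j + i3) := by clear * - y2 z23 z26; omega
        have kk445 : (i + j + k + l + 2) ≤ (2 * i2 + l2 + i3) := by clear * - y19 y2 y21 y7 ev n1p n2p n3p; omega
        have kk446 : (3 * k + 3 * l + l2 + i3 + 6) ≤ (2 * n + i + j + 2 * i2) := by clear * - y12 y20 y21 y7 z26; omega
        have kk447 : (k + l) ≤ (i2 + l2) := by clear * - y21; omega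
        have kk448 : (n) ≤ (k + l + l2 + 2) := by clear * - y13 y14; omega
        have kk449 : (2 * i2 + l2) ≤ (2 * k + l) := by clear * - b5 y20; omega
        have kk450 : (Q + 2 * i2 + l2) ≤ (2 * k + l + i3 + 1) := by clear * - z22; omega
        have kk451 : (k + i2 + l2 + 1) ≤ (n + i3) := by clear * - y17; omega
        have kk452 : (2 * i2 + l2) ≤ (k + 2 * l + i3 + 1) := by clear * - y13 y14 y17 y22; omega
        have kk453 : (k + l + 2 * i3) ≤ (i + 2 * i2 + l2) := by clear * - b2 y12 y20; omega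
        have kk454 : (n + j + i3) ≤ (2 * i2 + 2 * l2 + 2) := by clear * - b2 y2 z23; omega
        have r455 : (k + l + l2 + i3 - 3 * n + 2) % 2 = 0 := by clear * - ev n1p n2p n3p; omega
        have r456 : (i + 2 * i2 + l2 - j - k - l - i3) % 2 = 0 := by clear * - ev n1p n2p n3p; omega
        clear * - al a2 b c u2 D2 kk443 kk444 kk445 kk446 kk447 kk448 kk449 kk450 kk451 kk452 kk453 kk454 r455 r456
        exact midP al (i + 2 * i2 + l2 - j - k - l - i3) (k + l + l2 + i3 - 3 * n + 2) (k + l + l2 - 2 * n + 3) (j + k + l + i3 - n - 2 * i2 - l2 + 1) (i + 2 * i2 + l2 - n - k - l - i3) (by omega) (fun t h1 h2 => (cE (qa u2 al (-1) t ((k + l + l2 + i3 - 2 * n + 2) - t) (by omega)) (sh al (-1) ((k + l + l2 + i3 - 2 * n + 2) - t) ((k + l + l2 + i3 - 3 * n + 2) - t) (by omega)))) (fun t h1 h2 => (cE (cE (cE (qf a2 al (-1) t (t + (n + k - j)) (by omega)) (qf (show Par W (i3 + 1) (n + i3 - i2 - l2 - 1) (2 * i2 + l2 -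 k - l - i3) from fun t h1 h2 => (cE (sh al (-1) t (t + (-n)) (by omega)) (cE (pb D2 al (-1) (t + (-n)) (t + (i2 + l2 - i3 + 1)) (by omega)) (pb c al 0 (t + (i2 + l2 - i3 + 1)) (t + (2 * i2 + l2 - k - l - i3)) (by omega))))) al 0 (t + (n + k - j)) (t + (n + 2 * i2 + l2 - j - l - i3)) (by omega))) (pb b al 0 (t + (n + 2 * i2 + l2 - j - l - i3)) (t + (n + i + 2 * i2 + l2 - j - k - l - i3)) (by omega))) (sh al (-1) (t + (n + i + 2 * i2 + l2 - j - k - l - i3)) (t + (i + 2 * i2 + l2 - j - k - l - i3)) (by omega))))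
      · by_cases z27 : (3 * i2 + 2 * l2 + 2) ≤ (n + j + l + 2 * i3)
        · by_cases z28 : (4 * k + 3 * l + l2 + i3 + 6) ≤ (2 * n + 2 * Q + j + 2 * i2)
          · have kk457 : (j + 2 * i2 + l2 + 1) ≤ (2 * k + l + i3) := by clear * - y2 z22; omega
            have kk458 : (4 * k + 3 * l + l2 + i3 + 6) ≤ (2 * n + 2 * Q + j + 2 * i2) := by clear * - z28; omega
            have kk459 : (j + 2 * i2 + l2 + 2) ≤ (2 * k + l + i3) := by clear * - y2 z22 ev n1p n2p n3p; omega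
            have kk460 : (l + 2 * i2 + 3 * l2 + 6) ≤ (2 * n + j + i3) := by clear * - z22 z28; omega
            have kk461 : (k + l) ≤ (i2 + l2) := by clear * - y21; omega
            have kk462 : (n) ≤ (k + l + l2 + 2) := by clear * - b3 y13 z23 z26; omega
            have kk463 : (Q + k + l) ≤ (2 * i2 + l2 + 1) := by clear * - y21 y7; omega
            have kk464 : (2 * k + l + 1) ≤ (n + i2) := by clear * - b1 b2 z23 z26 z27 z28; omega
            have kk465 : (n + j + 2 * i2) ≤ (3 * k + 2 * l + 2) := by clear * - b3 b4 y22 z22 z26; omega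
            have kk466 : (2 * i2 + l2) ≤ (2 * k + l) := by clear * - b3 z22 z26 z28; omega
            have r467 : (k + l + l2 + i3 - n + 2) % 2 = 0 := by clear * - ev n1p n2p n3p; omega
            have r468 : (2 * k + l + i3 - j - 2 * i2 - l2) % 2 = 0 := by clear * - ev n1p n2p n3p; omega
            clear * - al a2 c u2 D2 kk457 kk458 kk459 kk460 kk461 kk462 kk463 kk464 kk465 kk466 r467 r468
            exact midP al (2 * k + l + i3 - j - 2 * i2 - l2) (k + l + l2 + i3 - n + 2) (k + l + l2 - n + 3) (j + 2 * i2 + l2 - 2 * k - l + 1) (2 * k + l + i3 - 2 * i2 - l2) (by omega) (fun t h1 h2 => (qa u2 al 0 t ((k + l + l2 + i3 - n + 2) - t) (by omega))) (fun t h1 h2 => (cE (qf a2 al 0 t (t + (k - j)) (by omega)) (pb (show Par W (i3 + 1) (n + i3 - i2 - l2 - 1) (2 * i2 + l2 - k - l - i3) from fun t h1 h2 => (cE (sh al (-1) t (t + (-n)) (by omega)) (cE (pb D2 al (-1) (t + (-n)) (t + (i2 + l2 - i3 + 1)) (by omega)) (pb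 c al 0 (t + (i2 + l2 - i3 + 1)) (t + (2 * i2 + l2 - k - l - i3)) (by omega))))) al 0 (t + (k - j)) (t + (2 * k + l + i3 - j - 2 * i2 - l2)) (by omega))))
          · by_cases z29 : (n + l + 2 * i3) ≤ (3 * i2 + 2 * l2 + 1)
            · have kk469 : (3 * i2 + 2 * l2 + 2) ≤ (n + j + l + 2 * i3) := by clear * - z27; omega
              have kk470 : (j + l + 2 * i3) ≤ (3 * i2 + 2 * l2) := by clear * - b1 b3 b5 z23 z26 z27 z29; linarith
              have kk471 : (k + l) ≤ (i2 + l2) := by clear * - y21; omega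
              have kk472 : (n) ≤ (k + l + l2 + 2) := by clear * - b3 y13 z26 z27 z29; omega
              have kk473 : (k + l + i3) ≤ (2 * i2 + l2) := by clear * - b3 y19 z23 z26; omega
              have kk474 : (j + i3 + 1) ≤ (k) := by clear * - b1 b5 y20 z23 z26; omega
              have kk475 : (n + l + 2 * i3) ≤ (3 * i2 + 2 * l2 + 1) := by clear * - z29; omega
              clear * - al a1 c D2 kk469 kk470 kk471 kk472 kk473 kk474 kk475
              exact al.ubP (n + j + l + 2 * i3 - 3 * i2 - 2 * l2 - 1) (by omega) (by omega) fun t h1 h2 => (cE (cE (qf D2 al (-1) t (t + (n + i3 - i2 - l2 - 1)) (by omega)) (pb (show Par W (i3 + 1) (n + i3 - i2 - l2 - 1) (2 * i2 + l2 - k - l - i3) from fun t h1 h2 => (cE (sh al (-1) t (t + (-n)) (by omega)) (cE (pb D2 al (-1) (t + (-n)) (t + (i2 + l2 - i3 + 1)) (by omega)) (pb c al 0 (t + (i2 + l2 - i3 + 1)) (t + (2 * i2 + l2 - k - l - i3)) (by omega))))) al 0 (t + (n + i3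 - i2 - l2 - 1)) (t + (n + k + l + 2 * i3 - 3 * i2 - 2 * l2 - 1)) (by omega))) (pb a1 al 0 (t + (n + k + l + 2 * i3 - 3 * i2 - 2 * l2 - 1)) (t + (n + j + l + 2 * i3 - 3 * i2 - 2 * l2 - 1)) (by omega)))
            · by_cases z30 : (i + k + l + 2 * i2 + 3 * l2 + 6) ≤ (2 * n + 2 * Q + j + i3)
              · have kk476 : (j + k + l + i3 + 1) ≤ (i + 2 * i2 + l2) := by clear * - z23 z26; omega
                have kk477 : (i + k + l + 2 * i2 + 3 * l2 + 6) ≤ (2 * n + 2 * Q + j + i3) := by clear * - z30; omega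
                have kk478 : (i + j + k + l + 2) ≤ (2 * i2 + l2 + i3) := by clear * - y19 z23 z26; omega
                have kk479 : (3 * k + 3 * l + l2 + i3 + 6) ≤ (2 * n + i + j + 2 * i2) := by clear * - z23 z26; omega
                have kk480 : (k + l) ≤ (i2 + l2) := by clear * - y21; omega
                have kk481 : (n) ≤ (k + l + l2 + 2) := by clear * - b3 y13 z23 z26; omega
                have kk482 : (2 * i2 + l2) ≤ (2 * k + l) := by clear * - b3 z23 z26 z28 z30; omega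
                have kk483 : (Q + 2 * i2 + l2) ≤ (2 * k + l + i3 + 1) := by clear * - z23 z26 z28 z30; omega
                have kk484 : (2 * i2 + l2) ≤ (k + 2 * l + i3 + 1) := by clear * - b2 y22 z26 z27 z30; omega
                have kk485 : (k + i2 + l2 + 1) ≤ (n + i3) := by clear * - b2 z23 z26 z29 z30; omega
                have kk486 : (k + l + 2 * i3) ≤ (i + 2 * i2 + l2) := by clear * - b3 z23 z26; omega
                have kk487 : (n + j + i3) ≤ (2 * i2 + 2 * l2 + 2) := by clear * - b2 z26 z30; omega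
                have r488 : (n + k + l + l2 + i3 + 2) % 2 = 0 := by clear * - ev n1p n2p n3p; omega
                have r489 : (i + 2 * i2 + l2 - j - k - l - i3) % 2 = 0 := by clear * - ev n1p n2p n3p; omega
                clear * - al a2 b c u2 D2 kk476 kk477 kk478 kk479 kk480 kk481 kk482 kk483 kk484 kk485 kk486 kk487 r488 r489
                exact midP al (i + 2 * i2 + l2 - j - k - l - i3) (n + k + l + l2 + i3 + 2) (k + l + l2 + 3) (n + j + k + l + i3 - 2 * i2 - l2 + 1) (n + i + 2 * i2 + l2 - k - l - i3) (by omega) (fun t h1 h2 => (cE (qa u2 al 1 t ((k + l + l2 + i3 + 2) - t) (by omega)) (sh al 1 ((k + l + l2 + i3 + 2) - t) ((n + k + l + l2 + i3 + 2) - t) (by omega)))) (fun t h1 h2 => (cE (cE (cE (qf a2 al 1 t (t + (k - n - j)) (by omega)) (qf (show Par W (i3 + 1) (n + i3 - i2 - l2 - 1) (2 * i2 + l2 - k - l - i3) from fun t h1 h2 => (cE (sh al (-1) t (t + (-n)) (by omega)) (cE (pb D2 al (-1) (t + (-n)) (t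 + (i2 + l2 - i3 + 1)) (by omega)) (pb c al 0 (t + (i2 + l2 - i3 + 1)) (t + (2 * i2 + l2 - k - l - i3)) (by omega))))) al 0 (t + (k - n - j)) (t + (2 * i2 + l2 - n - j - l - i3)) (by omega))) (pb b al 0 (t + (2 * i2 + l2 - n - j - l - i3)) (t + (i + 2 * i2 + l2 - n - j - k - l - i3)) (by omega))) (sh al 1 (t + (i + 2 * i2 + l2 - n - j - k - l - i3)) (t + (i + 2 * i2 + l2 - j - k - l - i3)) (by omega))))
              · have kk490 : (j + k + l + i3 + 1) ≤ (i + 2 * i2 + l2) := by clear * - z23 z26; omega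
                have kk491 : (2 * n + 2 * Q + i + j + 2 * i2 + l2) ≤ (5 * k + 5 * l + i3 + 4) := by clear * - y19 y22 z30 ev n1p n2p n3p; omega
                have kk492 : (2 * n + i + 3 * j + i3) ≤ (3 * k + 3 * l + 2 * i2 + l2 + 2) := by clear * - b4 y19 y22 z23 z26 z30; omega
                have kk493 : (j + 3 * k + 3 * l + 3 * i3 + 2) ≤ (i + 6 * i2 + 3 * l2) := by clear * - b3 y19 z23 z26; omega
                have kk494 : (i2) ≤ (k) := by clear * - b3 b4 z22 z23 z26; omega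
                have kk495 : (i2 + l2) ≤ (k + l) := by clear * - y22; omega
                have kk496 : (k + l) ≤ (i2 + l2) := by clear * - y21; omega
                have kk497 : (n) ≤ (k + l + l2 + 2) := by clear * - b3 y13 z23 z26; omega
                have kk498 : (i3 + 1) ≤ (Q) := by clear * - b4 y22 z23 z26 z30; omega
                have kk499 : (k + i2 + l2 + 1) ≤ (n + i3) := by clear * - b3 y19 z23 z26 z29; omega
                have kk500 : (2 * i2 + l2) ≤ (k + 2 * l + i3 + 1) := by clear * - b4 y19 y22 z23 z26 z27 z30; linarith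
                have kk501 : (2 * i2 + l2) ≤ (i + k + 2 * l + 1) := by clear * - b4 y22 z23 z26 z27 z30; omega
                have kk502 : (i + k + 2 * l + 3) ≤ (n + Q) := by clear * - b1 b4 y12 y20 y21 z23 z28; linarith
                have kk503 : (2 * k + 2 * l + i3 + 1) ≤ (Q + 2 * i2 + 2 * l2) := by clear * - b4 z23 z26 z30; omega
                have kk504 : (Q + 2 * i2 + l2) ≤ (2 * k + l + i3 + 1) := by clear * - z22; omega
                have kk505 : (i2) ≤ (l + i3 + 1) := by clear * - b3 y19 z23 z26 z27; omega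
                have kk506 : (2 * k + 2 * l + 2) ≤ (n + j + i2) := by clear * - y21 z23; omega
                have kk507 : (3 * k + 3 * l + i3 + 2) ≤ (n + i + j + 2 * i2 + l2) := by clear * - y20 y21 z23; omega
                have r508 : (3 * k + 3 * l + i3 - n - 2 * i2 - l2 + 2) % 2 = 0 := by clear * - ev n1p n2p n3p; omega
                have r509 : (i + 2 * i2 + l2 - j - k - l - i3) % 2 = 0 := by clear * - ev n1p n2p n3p; omega
                clear * - al a2 b tt c D2 kk490 kk491 kk492 kk493 kk494 kk495 kk496 kk497 kk498 kk499 kk500 kk501 kk502 kk503 kk504 kk505 kk506 kk507 r508 r509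
                exact midP al (i + 2 * i2 + l2 - j - k - l - i3) (3 * k + 3 * l + i3 - n - 2 * i2 - l2 + 2) (j + k + l + i3 - 2 * i2 - l2 + 1) (j + k + l + i3 - 2 * i2 - l2 + 1) (i + 2 * i2 + l2 - k - l - i3) (by omega) (fun t h1 h2 => (cI (cE (qf (show Par W (2 * k + l - i2 + 2) (k + l + l2 + 2) (n + i + i2 - 2 * k - l - 1) from fun t h1 h2 => (cE (sh al (-1) t (t + (-n)) (by omega)) (cE (cE (pb c al (-1) (t + (-n)) (t + (i2 - k - l - 1)) (by omega)) (pb b al 0 (t + (i2 - k - l - 1)) (t + (i + i2 - 2 * k - l - 1)) (by omega))) (sh al 1 (t + (i + i2 - 2 * k - l - 1)) (t + (n + i + i2 - 2 * k - l - 1)) (by omega))))) al (-1) t (t + (2 * n + i + i2 - 2 * k - l - 1)) (by omega)) (qf (show Par W (i3 + 1) (n + i3 - i2 - l2 - 1) (2 * i2 + l2 - k - l - i3) from fun t h1 h2 => (cE (sh al (-1) t (t + (-n)) (by omega)) (cE (pb D2 al (-1) (t + (-n)) (t + (i2 + l2 - i3 + 1)) (by omega)) (pb c al 0 (t + (i2 + l2 - i3 + 1))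 (t + (2 * i2 + l2 - k - l - i3)) (by omega))))) al 1 (t + (2 * n + i + i2 - 2 * k - l - 1)) (t + (n + i + 3 * i2 + l2 - 3 * k - 2 * l - i3 - 1)) (by omega))) (ab tt al 0 (t + (n + i + 3 * i2 + l2 - 3 * k - 2 * l - i3 - 1)) ((3 * k + 3 * l + i3 - n - 2 * i2 - l2 + 2) - t) (by omega)))) (fun t h1 h2 => (cE (cE (pb (show Par W (Q + i2 + l2 - i3 + 1) (k + i2 + l2 - i3 + 1) (n + j + i3 - k - i2 - l2 - 1) from fun t h1 h2 => (cE (sh al (-1) t (t + (-n)) (by omega)) (cE (cE (qf D2 al (-1) (t + (-n)) (t + (i3 - i2 - l2 - 1)) (by omega)) (pb a2 al 0 (t + (i3 - i2 - l2 - 1)) (t + (j + i3 - k - i2 - l2 - 1)) (by omega))) (sh al 1 (t + (j + i3 - k - i2 - l2 - 1)) (t + (n + j + i3 - k - i2 - l2 - 1)) (by omega))))) al (-1) t (t + (k + i2 + l2 - j - i3 + 1)) (by omega)) (qf (show Par W (2 * k + l - i2 + 2) (k + l + l2 + 2) (n + i + i2 - 2 * k - l - 1) from fun t h1 h2 => (cE (sh al (-1) t (t + (-n)) (by omega)) (cE (cE (pb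 c al (-1) (t + (-n)) (t + (i2 - k - l - 1)) (by omega)) (pb b al 0 (t + (i2 - k - l - 1)) (t + (i + i2 - 2 * k - l - 1)) (by omega))) (sh al 1 (t + (i + i2 - 2 * k - l - 1)) (t + (n + i + i2 - 2 * k - l - 1)) (by omega))))) al 0 (t + (k + i2 + l2 - j - i3 + 1)) (t + (n + i + 2 * i2 + l2 - j - k - l - i3)) (by omega))) (sh al (-1) (t + (n + i + 2 * i2 + l2 - j - k - l - i3)) (t + (i + 2 * i2 + l2 - j - k - l - i3)) (by omega))))
        · have kk510 : (i + k + 2 * l + i3 + 3) ≤ (3 * i2 + l2) := by clear * - y19 z23 z27 ev n1p n2p n3p; omega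
          have kk511 : (2 * Q + i2 + l2) ≤ (i + k + 2 * l + i3 + 2) := by clear * - b0 y19 y22 z23 z26; omega
          have kk512 : (k + l) ≤ (i2 + l2) := by clear * - y21; omega
          have kk513 : (n) ≤ (k + l + l2 + 2) := by clear * - b3 y13 z23 z26; omega
          have kk514 : (2 * i2 + l2 + 1) ≤ (n + i3) := by clear * - b3 b4 y17 z22 z23 z26; omega
          have kk515 : (i3 + 1) ≤ (Q) := by clear * - b3 b4 y22 z23 z26; omega
          have r516 : (2 * n + i + 3 * i2 + l2 - k - i3 + 1) % 2 = 0 := by clear * - ev n1p n2p n3p; omega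
          clear * - al tt c D2 kk510 kk511 kk512 kk513 kk514 kk515 r516
          obtain ⟨t, ht⟩ : ∃ t, 2 * t = (2 * n + i + 3 * i2 + l2 - k - i3 + 1) := ⟨(2 * n + i + 3 * i2 + l2 - k - i3 + 1) / 2, by omega⟩
          exact al.ninv t (cE (cE (ab tt al 1 t ((n + i + l + i2 + 1) - t) (by omega)) (qf (show Par W (i3 + 1) (n + i3 - i2 - l2 - 1) (2 * i2 + l2 - k - l - i3) from fun t h1 h2 => (cE (sh al (-1) t (t + (-n)) (by omega)) (cE (pb D2 al (-1) (t + (-n)) (t + (i2 + l2 - i3 + 1)) (by omega)) (pb c al 0 (t + (i2 + l2 - i3 + 1)) (t + (2 * i2 + l2 - k - l - i3)) (by omega))))) al 0 ((n + i + l + i2 + 1) - t) ((n + i + 3 * i2 + l2 - k - i3 + 1) - t) (by omega))) (sh al 1 ((n + i + 3 * i2 + l2 - k - i3 + 1) - t) t (by omega)))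

theorem yf2_10 {W : ℤ → G} {n Q i j k l i2 l2 i3 : ℤ} (al : AL W n Q)
    (hy : (0) ≤ (i) ∧ (i) ≤ (j) ∧ (j + 1) ≤ (Q) ∧ (Q) ≤ (k) ∧ (k + 1) ≤ (n) ∧ (Q) ≤ (i + l + 1) ∧ (k + l + 2) ≤ (n) ∧ (Q) ≤ (i2) ∧ (i2) ≤ (i + l + 1) ∧ (Q) ≤ (i2 + l2 + 1) ∧ (i2 + l2 + 2) ≤ (n) ∧ (n) ≤ (k + l + l2 + 2) ∧ (k + l + l2 + 3) ≤ (n + Q) ∧ (0) ≤ (i3) ∧ (n + i3) ≤ (k + l + l2 + 2) ∧ (k + i2 + l2 + 2) ≤ (n + j + i3) ∧ (j + i3 + 1) ≤ (k) ∧ (k + i2 + l2 + 2) ≤ (n + i3) ∧ (i + l + 1) ≤ (i2 + l2) ∧ (i) ≤ (i3) ∧ (i3) ≤ (i) ∧ (k + l) ≤ (i2 + l2) ∧ (i2 + l2) ≤ (k + l))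
    (a1 : Par W (0) (j) (k - j))
    (a2 : Par W (Q + j - k) (j) (k - j))
    (s1 : Ant W (0) (i) (i + j))
    (s2 : Ant W (j + 1) (Q) (i + j))
    (b : Par W (i + 1) (i + l + 1) (k - i))
    (tt : Ant W (Q) (i2) (i + l + i2 + 1))
    (c : Par W (i2 + 1) (i2 + l2 + 1) (k + l - i2 + 1))
    (u1 : Ant W (0) (i3) (k + l + l2 + i3 - n + 2))
    (u2 : Ant W (k + l + l2 - n + 3) (Q) (k + l + l2 + i3 - n + 2))
    (D1 : Par W (i3 + 1) (Q) (i2 + l2 - i3 + 1))
    (D2 : Par W (i2 + l2 + 2) (n) (i3 - i2 - l2 - 1))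
    {L : ℤ} (mx : ∀ a b g, 0 < g → g < n → Par W a b g → b - a ≤ L)
    (hL : L ≤ (n - j - 3) ∧ L ≤ (n + Q - k - 3) ∧ L ≤ (n - l - 3) ∧ L ≤ (n + i - k - 2) ∧ L ≤ (n - l2 - 3) ∧ L ≤ (n + i3 - Q - 2) ∧ L ≤ (i2 + l2 - 1) ∧ L ≤ (n + i2 - k - l - 3))
    (bd0 : Bd W n L (j) (i) (k))
    (bd2 : Bd W n L (k + l + l2 - n + 2) (i3) (i2 + l2 + 1))
    (n1 : Nd W (j) (i) (k))
    (n2 : Nd W (i + l + 1) (i2) (k + l + 1))
    (n3 : Nd W (k + l + l2 - n + 2) (i3) (i2 + l2 + 1))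
    (b0 : (2 * l + 3) ≤ (n))
    (b1 : (n + 2 * Q + i2) ≤ (i + k + 2 * l + l2 + i3 + 4))
    (b2 : (2 * i + j + 1) ≤ (k))
    (b3 : (2 * n + 2 * Q + i3) ≤ (k + l + 2 * i2 + 3 * l2 + 5))
    (b4 : (n + i + 2 * i2) ≤ (j + 2 * k + 2 * l + 3))
    (b5 : (i + 2 * k + 2 * l + 5) ≤ (n + 2 * Q + j))
    (b6 : (Q + 1) ≤ (k)) : False := by
  have ev := al.ev
  obtain ⟨y0, y1, y2, y3, y4, y5, y6, y7, y8, y9, y10, y11, y12, y13, y14, y15, y16, y17, y18, y19, y20, y21, y22⟩ := id hy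
  have n1p := And.intro n1.p1 n1.p2
  have n2p := And.intro n2.p1 n2.p2
  have n3p := And.intro n3.p1 n3.p2
  by_cases z21 : (i + 2 * i2 + l2 + 1) ≤ (2 * k + l + i3)
  · exact yf2_11 al hy a1 a2 s1 s2 b tt c u1 u2 D1 D2 mx hL bd0 bd2 n1 n2 n3 (by clear * - b1; omega) (by clear * - b2; omega) (by clear * - b3; omega) (by clear * - b4; omega) (by clear * - b5; omega) (by clear * - z21; omega)
  · exact yf2_12 al hy a1 a2 s1 s2 b tt c u1 u2 D1 D2 mx hL bd0 bd2 n1 n2 n3 (by clear * - b0; omega) (by clear * - b1; omega) (by clear * - b2; omega) (by clear * - b3; omega) (by clear * - b4; omega) (by clear * - b5; omega) (by clear * - b6; omega) (by clear * - z21; omega)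

theorem yf2_9 {W : ℤ → G} {n Q i j k l i2 l2 i3 : ℤ} (al : AL W n Q)
    (hy : (0) ≤ (i) ∧ (i) ≤ (j) ∧ (j + 1) ≤ (Q) ∧ (Q) ≤ (k) ∧ (k + 1) ≤ (n) ∧ (Q) ≤ (i + l + 1) ∧ (k + l + 2) ≤ (n) ∧ (Q) ≤ (i2) ∧ (i2) ≤ (i + l + 1) ∧ (Q) ≤ (i2 + l2 + 1) ∧ (i2 + l2 + 2) ≤ (n) ∧ (n) ≤ (k + l + l2 + 2) ∧ (k + l + l2 + 3) ≤ (n + Q) ∧ (0) ≤ (i3) ∧ (n + i3) ≤ (k + l + l2 + 2) ∧ (k + i2 + l2 + 2) ≤ (n + j + i3) ∧ (j + i3 + 1) ≤ (k) ∧ (k + i2 + l2 + 2) ≤ (n + i3) ∧ (i + l + 1) ≤ (i2 + l2) ∧ (i) ≤ (i3) ∧ (i3) ≤ (i) ∧ (k + l) ≤ (i2 + l2) ∧ (i2 + l2) ≤ (k + l))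
    (a1 : Par W (0) (j) (k - j))
    (a2 : Par W (Q + j - k) (j) (k - j))
    (s1 : Ant W (0) (i) (i + j))
    (s2 : Ant W (j + 1) (Q) (i + j))
    (b : Par W (i + 1) (i + l + 1) (k - i))
    (tt : Ant W (Q) (i2) (i + l + i2 + 1))
    (c : Par W (i2 + 1) (i2 + l2 + 1) (k + l - i2 + 1))
    (u1 : Ant W (0) (i3) (k + l + l2 + i3 - n + 2))
    (u2 : Ant W (k + l + l2 - n + 3) (Q) (k + l + l2 + i3 - n + 2))
    (D1 : Par W (i3 + 1) (Q) (i2 + l2 - i3 + 1))
    (D2 : Par W (i2 + l2 + 2) (n) (i3 - i2 - l2 - 1))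
    {L : ℤ} (mx : ∀ a b g, 0 < g → g < n → Par W a b g → b - a ≤ L)
    (hL : L ≤ (n - j - 3) ∧ L ≤ (n + Q - k - 3) ∧ L ≤ (n - l - 3) ∧ L ≤ (n + i - k - 2) ∧ L ≤ (n - l2 - 3) ∧ L ≤ (n + i3 - Q - 2) ∧ L ≤ (i2 + l2 - 1) ∧ L ≤ (n + i2 - k - l - 3))
    (bd0 : Bd W n L (j) (i) (k))
    (bd2 : Bd W n L (k + l + l2 - n + 2) (i3) (i2 + l2 + 1))
    (n1 : Nd W (j) (i) (k))
    (n2 : Nd W (i + l + 1) (i2) (k + l + 1))
    (n3 : Nd W (k + l + l2 - n + 2) (i3) (i2 + l2 + 1))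
    (b0 : (2 * l + 3) ≤ (n))
    (b1 : (n + 2 * Q + i2) ≤ (i + k + 2 * l + l2 + i3 + 4))
    (b2 : (2 * i + j + 1) ≤ (k))
    (b3 : (2 * n + 2 * Q + i3) ≤ (k + l + 2 * i2 + 3 * l2 + 5))
    (b4 : (n + i + 2 * i2) ≤ (j + 2 * k + 2 * l + 3))
    (b5 : (i + 2 * k + 2 * l + 5) ≤ (n + 2 * Q + j)) : False := by
  have ev := al.ev
  obtain ⟨y0, y1, y2, y3, y4, y5, y6, y7, y8, y9, y10, y11, y12, y13, y14, y15, y16, y17, y18, y19, y20, y21, y22⟩ := id hy
  have n1p := And.intro n1.p1 n1.p2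
  have n2p := And.intro n2.p1 n2.p2
  have n3p := And.intro n3.p1 n3.p2
  by_cases z20 : (k) ≤ (Q)
  · have kk353 : (i + 1) ≤ (k) := by clear * - y18 y22; omega
    have kk354 : (0) ≤ (l) := by clear * - b0 b1 b3 y12 y19 y22 z20; linarith
    have kk355 : (i + 1) ≤ (j) := by clear * - b4 b5 y7; omega
    have kk356 : (j) ≤ (k + l) := by clear * - b1 b2 b3 b5 y12 y13 y20 y22 z20; linarith
    have kk357 : (k) ≤ (Q) := by clear * - z20; omega
    have kk358 : (n + i) ≤ (k + l + l2 + 2) := by clear * - b0 b3 y19 y22 z20; omega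
    have kk359 : (Q + k + l + 1) ≤ (n + i + j) := by clear * - b0 b1 b5 y20 y22 y7 z20; linarith
    have kk360 : (0) ≤ (i + 1) := by clear * - y13 y20; omega
    have kk361 : (j) ≤ (k) := by clear * - b2 y13 y20; omega
    have kk362 : (j) ≤ (k + l + 1) := by clear * - b1 b2 b3 b5 y12 y13 y20 y22 z20; linarith
    have kk363 : (0) ≤ (l + 1) := by clear * - b0 b1 b3 y12 y19 y22 z20; linarith
    have kk364 : (n + i + i2) ≤ (2 * k + 2 * l + 2) := by clear * - b0 b3 y19 y22 z20; omega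
    have kk365 : (i) ≤ (j) := by clear * - b4 b5 y7; omega
    have kk366 : (Q + k + l + 1) ≤ (n + j + i2) := by clear * - b0 b1 b3 b5 y22 y7 z20; linarith
    have kk367 : (Q) ≤ (k + l + 1) := by clear * - b0 b1 b3 y12 y19 y22 z20; linarith
    have r368 : (k - j) % 2 = 0 := by clear * - ev n1p n2p n3p; omega
    have r369 : (k - i) % 2 = 0 := by clear * - ev n1p n2p n3p; omega
    have r370 : (i + j + i2 - n - k - l - 1) % 2 = 0 := by clear * - ev n1p n2p n3p; omega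
    clear * - al a1 s2 b c n1 kk353 kk354 kk355 kk356 kk357 kk358 kk359 kk360 kk361 kk362 kk363 kk364 kk365 kk366 kk367 r368 r369 r370
    exact ivt al.ninv (i - n + 1) (i + l - n + 1) (k - i) (i - n + 1) (j - n) (k - j) (j - n) (k - n) 0 (fun t h1 h2 => (cE (qf b al (-1) t (t + (n + k - i)) (by omega)) (sh al (-1) (t + (n + k - i)) (t + (k - i)) (by omega)))) (fun t h1 h2 => (cE (sh al 2 t (t + (2 * n)) (by omega)) (cE (qf a1 al 1 (t + (2 * n)) (t + (n + k - j)) (by omega)) (sh al (-1) (t + (n + k - j)) (t + (k - j)) (by omega))))) (fun hh => n1.f0 (rEE (sh al (-1) (j) (j - n) (by omega)) (sh al (-1) (k) (k - n) (by omega)) (Eq.symm hh))) (by omega) (j - n + 1) (Q - n) (i + j + i2 - n - k - l - 1) 0 0 (fun t h1 h2 => (cE (cE (qa s2 al (-1) t ((i + j - n) - t) (by omega)) (pb c al (-1) ((i + j - n) - t) ((i + j + i2 - k - l - 1) - t) (by omega))) (sh al (-1) ((i + j + i2 - k - l - 1) - t) ((i + j + i2 - n - k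 - l - 1) - t) (by omega)))) (by omega)
  · exact yf2_10 al hy a1 a2 s1 s2 b tt c u1 u2 D1 D2 mx hL bd0 bd2 n1 n2 n3 (by clear * - b0; omega) (by clear * - b1; omega) (by clear * - b2; omega) (by clear * - b3; omega) (by clear * - b4; omega) (by clear * - b5; omega) (by clear * - z20; omega)

theorem yf2_8 {W : ℤ → G} {n Q i j k l i2 l2 i3 : ℤ} (al : AL W n Q)
    (hy : (0) ≤ (i) ∧ (i) ≤ (j) ∧ (j + 1) ≤ (Q) ∧ (Q) ≤ (k) ∧ (k + 1) ≤ (n) ∧ (Q) ≤ (i + l + 1) ∧ (k + l + 2) ≤ (n) ∧ (Q) ≤ (i2) ∧ (i2) ≤ (i + l + 1) ∧ (Q) ≤ (i2 + l2 + 1) ∧ (i2 + l2 + 2) ≤ (n) ∧ (n) ≤ (k + l + l2 + 2) ∧ (k + l + l2 + 3) ≤ (n + Q) ∧ (0) ≤ (i3) ∧ (n + i3) ≤ (k + l + l2 + 2) ∧ (k + i2 + l2 + 2) ≤ (n + j + i3) ∧ (j + i3 + 1) ≤ (k) ∧ (k + i2 + l2 + 2) ≤ (n + i3) ∧ (i + l + 1) ≤ (i2 + l2) ∧ (i) ≤ (i3) ∧ (i3) ≤ (i) ∧ (k + l) ≤ (i2 + l2) ∧ (i2 + l2) ≤ (k + l))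
    (a1 : Par W (0) (j) (k - j))
    (a2 : Par W (Q + j - k) (j) (k - j))
    (s1 : Ant W (0) (i) (i + j))
    (s2 : Ant W (j + 1) (Q) (i + j))
    (b : Par W (i + 1) (i + l + 1) (k - i))
    (tt : Ant W (Q) (i2) (i + l + i2 + 1))
    (c : Par W (i2 + 1) (i2 + l2 + 1) (k + l - i2 + 1))
    (u1 : Ant W (0) (i3) (k + l + l2 + i3 - n + 2))
    (u2 : Ant W (k + l + l2 - n + 3) (Q) (k + l + l2 + i3 - n + 2))
    (D1 : Par W (i3 + 1) (Q) (i2 + l2 - i3 + 1))
    (D2 : Par W (i2 + l2 + 2) (n) (i3 - i2 - l2 - 1))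
    {L : ℤ} (mx : ∀ a b g, 0 < g → g < n → Par W a b g → b - a ≤ L)
    (hL : L ≤ (n - j - 3) ∧ L ≤ (n + Q - k - 3) ∧ L ≤ (n - l - 3) ∧ L ≤ (n + i - k - 2) ∧ L ≤ (n - l2 - 3) ∧ L ≤ (n + i3 - Q - 2) ∧ L ≤ (i2 + l2 - 1) ∧ L ≤ (n + i2 - k - l - 3))
    (bd0 : Bd W n L (j) (i) (k))
    (bd2 : Bd W n L (k + l + l2 - n + 2) (i3) (i2 + l2 + 1))
    (n1 : Nd W (j) (i) (k))
    (n2 : Nd W (i + l + 1) (i2) (k + l + 1))
    (n3 : Nd W (k + l + l2 - n + 2) (i3) (i2 + l2 + 1))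
    (b0 : (2 * l + 3) ≤ (n))
    (b1 : (2 * i + j + 1) ≤ (k))
    (b2 : (n + i + 2 * i2) ≤ (j + 2 * k + 2 * l + 3))
    (b3 : (n + 2 * Q + j) ≤ (i + 2 * k + 2 * l + 4)) : False := by
  have ev := al.ev
  obtain ⟨y0, y1, y2, y3, y4, y5, y6, y7, y8, y9, y10, y11, y12, y13, y14, y15, y16, y17, y18, y19, y20, y21, y22⟩ := id hy
  have n1p := And.intro n1.p1 n1.p2
  have n2p := And.intro n2.p1 n2.p2
  have n3p := And.intro n3.p1 n3.p2
  by_cases z15 : (k + l + l2 + 2) ≤ (n + j)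
  · have kk209 : (i2 + l2) ≤ (k + l) := by clear * - y22; omega
    have kk210 : (k + l) ≤ (i2 + l2) := by clear * - y21; omega
    have kk211 : (i + 1) ≤ (k) := by clear * - y18 y22; omega
    have kk212 : (0) ≤ (l) := by clear * - b3 y12 y14 y15 y19 y21; omega
    have kk213 : (i + i2 + l2 + 1) ≤ (2 * k + l) := by clear * - y18 y22; omega
    have kk214 : (k) ≤ (i2 + l2) := by clear * - b3 y12 y14 y15 y19 y21; omega
    have kk215 : (k + l + l2 + 2) ≤ (n + j) := by clear * - z15; omega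
    have kk216 : (n + j) ≤ (k + l + l2 + 2) := by clear * - b2 b3 y2 y21; omega
    have kk217 : (n + 2 * Q + j) ≤ (i + 2 * k + 2 * l + 4) := by clear * - b3; omega
    have kk218 : (i3) ≤ (i) := by clear * - y20; omega
    have kk219 : (i) ≤ (i3) := by clear * - y19; omega
    have kk220 : (2 * k + l + 2) ≤ (n + Q + j) := by clear * - y12 y14 y15 y21; omega
    have kk221 : (i + 1) ≤ (Q) := by clear * - y12 y14 y19; omega
    have kk222 : (i + 2 * k + l + 2) ≤ (n + Q + j + i2) := by clear * - b3 y12 y14 y15 y19 y21 z15; linarith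
    have kk223 : (k + l2 + 1) ≤ (n + j) := by clear * - b3 y12 y14 y15 y19 y21 z15; linarith
    have kk224 : (0) ≤ (l + 1) := by clear * - b3 y12 y14 y15 y19 y21; omega
    have kk225 : (i2) ≤ (k + l + 1) := by clear * - b1 y13 y14 y17 y20 z15; omega
    have kk226 : (i + i2 + 1) ≤ (Q + k) := by clear * - b1 b2 y12 y13 y20 y21; omega
    have r227 : (2 * k + l - n - j - i2 + 1) % 2 = 0 := by clear * - ev n1p n2p n3p; omega
    have r228 : (k - i) % 2 = 0 := by clear * - ev n1p n2p n3p; omega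
    have r229 : (i + l + i2 - 2 * n + 1) % 2 = 0 := by clear * - ev n1p n2p n3p; omega
    clear * - al a2 b tt c n1 n2 n3 kk209 kk210 kk211 kk212 kk213 kk214 kk215 kk216 kk217 kk218 kk219 kk220 kk221 kk222 kk223 kk224 kk225 kk226 r227 r228 r229
    exact ivt al.ninv (i - n + 1) (i + l - n + 1) (k - i) (Q + j + i2 - 2 * k - l - 1) (k + l - n + 1) (2 * k + l - n - j - i2 + 1) (i + l - n + 1) (2 * k + l - n - i2 - l2) 1 (fun t h1 h2 => (cE (qf b al (-1) t (t + (n + k - i)) (by omega)) (sh al (-1) (t + (n + k - i)) (t + (k - i)) (by omega)))) (fun t h1 h2 => (cE (cE (qf c al (-1) t (t + (n + k + l - i2 + 1)) (by omega)) (qf a2 al 1 (t + (n + k + l - i2 + 1)) (t + (2 * k + l - j - i2 + 1)) (by omega))) (sh al (-1) (t + (2 * k + l - j - i2 + 1)) (t + (2 * k + l - n - j - i2 + 1)) (by omega)))) (fun hh => n2.f0 (rEE (sh al (-1) (i + l + 1) (i + l - n + 1) (by omega)) (cE (pb (uP (k) (i2 + l2 + 1) (i2 + l2 - k + 1)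 (by omega) (oNN (lat n1.r0 n3.r0 (sh al 0 (j) (k + l + l2 - n + 2) (by omega)) (sh al 0 (i) (i3) (by omega))))) al 0 (k + l + 1) (2 * k + l - i2 - l2) (by omega)) (sh al (-1) (2 * k + l - i2 - l2) (2 * k + l - n - i2 - l2) (by omega))) (Eq.symm hh))) (by omega) (i + l - n + 2) (i + l + i2 - n - Q + 2) (i + l + i2 - 2 * n + 1) 0 (-1) (fun t h1 h2 => (cE (ab tt al (-1) t ((i + l + i2 - n + 1) - t) (by omega)) (sh al (-1) ((i + l + i2 - n + 1) - t) ((i + l + i2 - 2 * n + 1) - t) (by omega)))) (by omega)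
  · by_cases z16 : (n + i + 2 * j + i3 + 1) ≤ (2 * Q + k + i2 + l2)
    · by_cases v8 : (i + k + 2 * l + 2) ≤ (n + i2)
      · have kk230 : (k + i2 + l2 + 2) ≤ (n + i + i3) := by clear * - y13 y17 y20; omega
        have kk231 : (n + i + 2 * j + i3 + 1) ≤ (2 * Q + k + i2 + l2) := by clear * - z16; omega
        have kk232 : (k + i2 + l2 + i3 + 3) ≤ (n + 3 * i) := by clear * - y13 y17 y20 ev n1p n2p n3p; omega
        have kk233 : (n + 2 * j + 3 * i2 + l2) ≤ (i + 3 * k + 4 * l + i3 + 1) := by clear * - y13 y17 y20 y22 z15; omega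
        have kk234 : (k + l) ≤ (i2 + l2) := by clear * - y21; omega
        have kk235 : (n) ≤ (k + l + l2 + 2) := by clear * - y13 y14; omega
        have kk236 : (i + l) ≤ (i2 + l2) := by clear * - y18; omega
        have kk237 : (i + k + l) ≤ (2 * i2 + l2) := by clear * - b2 y12 y21 y7 z15; omega
        have kk238 : (i + l + l2 + 2) ≤ (n) := by clear * - v8 y22; omega
        have kk239 : (2 * i2 + l2) ≤ (k + 2 * l + i3 + 1) := by clear * - y15 y22 z15; omega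
        have kk240 : (k + i2 + l2 + 1) ≤ (n + i + j) := by clear * - y15 y20; omega
        have r241 : (i + j) % 2 = 0 := by clear * - ev n1p n2p n3p; omega
        have r242 : (n + i + i3 - k - i2 - l2 - 1) % 2 = 0 := by clear * - ev n1p n2p n3p; omega
        clear * - al s2 b c D2 kk230 kk231 kk232 kk233 kk234 kk235 kk236 kk237 kk238 kk239 kk240 r241 r242
        exact midP al (n + i + i3 - k - i2 - l2 - 1) (i + j) (j + 1) (k + i2 + l2 - n - i + 2) (i + k + 2 * l + i3 - 2 * i2 - l2 + 1) (by omega) (fun t h1 h2 => (qa s2 al 0 t ((i + j) - t) (by omega))) (fun t h1 h2 => (cE (cE (pb c al (-1) t (t + (n + i2 - k - l - 1)) (by omega)) (pb b al 0 (t + (n + i2 - k - l - 1)) (t + (n + i + i2 - 2 * k - l - 1)) (by omega))) (pb (show Par W (i3 + 1) (n + i3 - i2 - l2 - 1) (2 * i2 + l2 - k - l - i3) from fun t h1 h2 => (cE (sh al (-1) t (t + (-n)) (by omega)) (cE (pb D2 al (-1) (t + (-n)) (t + (i2 + l2 - i3 + 1)) (by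 omega)) (pb c al 0 (t + (i2 + l2 - i3 + 1)) (t + (2 * i2 + l2 - k - l - i3)) (by omega))))) al 0 (t + (n + i + i2 - 2 * k - l - 1)) (t + (n + i + i3 - k - i2 - l2 - 1)) (by omega))))
      · have kk243 : (k + i2 + l2 + 2) ≤ (n + i + i3) := by clear * - y13 y17 y20; omega
        have kk244 : (n + i + 2 * j + i3 + 1) ≤ (2 * Q + k + i2 + l2) := by clear * - z16; omega
        have kk245 : (k + i2 + l2 + i3 + 3) ≤ (n + 3 * i) := by clear * - b0 b3 v8 y12 y15 y17 y20 y21; linarith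
        have kk246 : (i + 2 * j + i2 + l2 + 3) ≤ (n + k + i3) := by clear * - b0 b1 b3 y17 y18 y22 z16; linarith
        have kk247 : (k + l) ≤ (i2 + l2) := by clear * - y21; omega
        have kk248 : (n) ≤ (k + l + l2 + 2) := by clear * - v8 y18; omega
        have kk249 : (i + l) ≤ (i2 + l2) := by clear * - y18; omega
        have kk250 : (i + k + l) ≤ (2 * i2 + l2) := by clear * - b2 y12 y21 y7 z15; omega
        have kk251 : (n) ≤ (i + l + l2 + 2) := by clear * - v8 y21; omega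
        have kk252 : (n + i2) ≤ (i + k + 2 * l + 2) := by clear * - v8; omega
        have kk253 : (i + i2 + l2 + 1) ≤ (n + i3) := by clear * - y17 y18 y22; omega
        have kk254 : (k + i2 + l2 + 1) ≤ (n + i + j) := by clear * - y15 y20; omega
        have r255 : (i + j) % 2 = 0 := by clear * - ev n1p n2p n3p; omega
        have r256 : (n + i + i3 - k - i2 - l2 - 1) % 2 = 0 := by clear * - ev n1p n2p n3p; omega
        clear * - al s2 b c D2 kk243 kk244 kk245 kk246 kk247 kk248 kk249 kk250 kk251 kk252 kk253 kk254 r255 r256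
        exact midP al (n + i + i3 - k - i2 - l2 - 1) (i + j) (j + 1) (k + i2 + l2 - n - i + 2) (n + i3 - i2 - l2 - 1) (by omega) (fun t h1 h2 => (qa s2 al 0 t ((i + j) - t) (by omega))) (fun t h1 h2 => (cE (cE (pb c al (-1) t (t + (n + i2 - k - l - 1)) (by omega)) (pb b al 0 (t + (n + i2 - k - l - 1)) (t + (n + i + i2 - 2 * k - l - 1)) (by omega))) (pb (show Par W (i3 + 1) (n + i3 - i2 - l2 - 1) (2 * i2 + l2 - k - l - i3) from fun t h1 h2 => (cE (sh al (-1) t (t + (-n)) (by omega)) (cE (pb D2 al (-1) (t + (-n)) (t + (i2 + l2 - i3 + 1)) (by omega)) (pb c al 0 (t + (i2 + l2 - i3 + 1)) (t + (2 * i2 + l2 - k - l - i3)) (by omega))))) al 0 (t + (n + i + i2 - 2 * k - l - 1)) (t + (n + i + i3 - k - i2 - l2 - 1)) (by omega))))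
    · by_cases z17 : (k + l + l2 + i3 + 2) ≤ (n + 3 * i + j)
      · by_cases v9 : (j + k + l + i3 + 1) ≤ (2 * i2 + l2)
        · have kk257 : (n + i + j) ≤ (k + l + l2 + i3 + 1) := by clear * - y19 z15; omega
          have kk258 : (k + l + l2 + i3 + 2) ≤ (n + 3 * i + j) := by clear * - z17; omega
          have kk259 : (3 * j + 3 * k + 3 * l + 3 * i3 + 4) ≤ (n + 5 * i + 4 * i2 + l2) := by clear * - b3 y12 y20 y21 z15 ev n1p n2p n3p; omega
          have kk260 : (n + j) ≤ (i + k + l + l2 + i3 + 2) := by clear * - y19 z15 z17; omega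
          have kk261 : (k + l) ≤ (i2 + l2) := by clear * - y21; omega
          have kk262 : (n) ≤ (k + l + l2 + 2) := by clear * - b2 v9 y19 z15 z17; omega
          have kk263 : (i) ≤ (i3) := by clear * - y19; omega
          have kk264 : (i + k + i2 + l2 + 1) ≤ (n + j + i3) := by clear * - b2 v9 y12 y19 z15 z16; omega
          have kk265 : (i) ≤ (j) := by clear * - b2 y12 y21 y7; omega
          have kk266 : (i + 2 * i2 + l2) ≤ (j + k + 2 * l + i3 + 1) := by clear * - b2 v9 y17 y19 y22 z15 z17; linarith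
          have kk267 : (j + i3 + 1) ≤ (k) := by clear * - b1 y20 z15 z17; omega
          have kk268 : (j + k + l + i3 + 1) ≤ (2 * i2 + l2) := by clear * - v9; omega
          have kk269 : (n + 2 * i + 2 * i2) ≤ (j + 2 * k + 2 * l + 2 * i3 + 3) := by clear * - b2 y19 z15 z17; omega
          have r270 : (2 * i + 2 * i2 + l2 - 2 * n - k - l - i3) % 2 = 0 := by clear * - ev n1p n2p n3p; omega
          have r271 : (k + l + l2 + i3 - n - i - j + 2) % 2 = 0 := by clear * - ev n1p n2p n3p; omega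
          clear * - al a1 s1 b c u1 D2 kk257 kk258 kk259 kk260 kk261 kk262 kk263 kk264 kk265 kk266 kk267 kk268 kk269 r270 r271
          exact midP al (k + l + l2 + i3 - n - i - j + 2) (2 * i + 2 * i2 + l2 - 2 * n - k - l - i3) (j - n + 1) (j - n + 1) (k + l + l2 + i3 - 2 * n + 3) (by omega) (fun t h1 h2 => (cE (cE (cE (cE (ab s1 al (-1) t ((i + j - n) - t) (by omega)) (qf a1 al 0 ((i + j - n) - t) ((i + k - n) - t) (by omega))) (qf (show Par W (i3 + 1) (n + i3 - i2 - l2 - 1) (2 * i2 + l2 - k - l - i3) from fun t h1 h2 => (cE (sh al (-1) t (t + (-n)) (by omega)) (cE (pb D2 al (-1) (t + (-n)) (t + (i2 + l2 - i3 + 1)) (by omega)) (pb c al 0 (t + (i2 + l2 - i3 + 1)) (t + (2 * i2 + l2 - k - l - i3)) (by omega))))) al 0 ((i + k - n) - t) ((i + 2 * i2 + l2 - n - l - i3) - t) (by omega))) (pb b al 0 ((i + 2 * i2 + l2 - n - l - i3) - t) ((2 * i + 2 * i2 + l2 - n - k - l - i3) - t) (by omega))) (sh al (-1) ((2 * i + 2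 * i2 + l2 - n - k - l - i3) - t) ((2 * i + 2 * i2 + l2 - 2 * n - k - l - i3) - t) (by omega)))) (fun t h1 h2 => (cE (qf (show Par W (j + 1) (i + j + 1) (k + l + l2 + i3 - n - i - j + 2) from fun t h1 h2 => (cE (sh al (-1) t (t + (-n)) (by omega)) (cII (ab s1 al (-1) (t + (-n)) ((i + j) - t) (by omega)) (qa u1 al 0 ((i + j) - t) (t + (k + l + l2 + i3 - n - i - j + 2)) (by omega))))) al (-1) t (t + (k + l + l2 + i3 - i - j + 2)) (by omega)) (sh al (-1) (t + (k + l + l2 + i3 - i - j + 2)) (t + (k + l + l2 + i3 - n - i - j + 2)) (by omega))))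
        · have kk272 : (n + i + j) ≤ (k + l + l2 + i3 + 1) := by clear * - y19 z15; omega
          have kk273 : (j + 3 * k + 3 * l + 3 * i3 + 4) ≤ (n + 3 * i + 4 * i2 + l2) := by clear * - y12 y20 y21 y7 z15; omega
          have kk274 : (3 * j + 3 * k + 3 * l + 3 * i3 + 4) ≤ (n + 5 * i + 4 * i2 + l2) := by clear * - b3 y12 y20 y21 z15 ev n1p n2p n3p; omega
          have kk275 : (n + j) ≤ (i + k + l + l2 + i3 + 2) := by clear * - y19 z15 z17; omega
          have kk276 : (k + l) ≤ (i2 + l2) := by clear * - y21; omega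
          have kk277 : (n) ≤ (k + l + l2 + 2) := by clear * - y14 y19 z15 z17; omega
          have kk278 : (i) ≤ (i3) := by clear * - y19; omega
          have kk279 : (i + k + i2 + l2 + 1) ≤ (n + j + i3) := by clear * - b2 y12 y17 y21 y7; omega
          have kk280 : (i) ≤ (j) := by clear * - b2 y12 y21 y7; omega
          have kk281 : (i + 2 * i2 + l2) ≤ (j + k + 2 * l + i3 + 1) := by clear * - y14 y15 y19 y22; omega
          have kk282 : (2 * i2 + l2) ≤ (2 * k + l) := by clear * - b1 v9 y20 z15 z17; omega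
          have kk283 : (2 * i2 + l2) ≤ (j + k + l + i3 + 1) := by clear * - v9; omega
          have kk284 : (n + 2 * i + 2 * i2) ≤ (j + 2 * k + 2 * l + 2 * i3 + 3) := by clear * - b2 y19 z15 z17; omega
          have r285 : (2 * i + 2 * i2 + l2 - 2 * n - k - l - i3) % 2 = 0 := by clear * - ev n1p n2p n3p; omega
          have r286 : (k + l + l2 + i3 - n - i - j + 2) % 2 = 0 := by clear * - ev n1p n2p n3p; omega
          clear * - al a1 s1 b c u1 D2 kk272 kk273 kk274 kk275 kk276 kk277 kk278 kk279 kk280 kk281 kk282 kk283 kk284 r285 r286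
          exact midP al (k + l + l2 + i3 - n - i - j + 2) (2 * i + 2 * i2 + l2 - 2 * n - k - l - i3) (j - n + 1) (j - n + 1) (k + l + l2 + i3 - 2 * n + 3) (by omega) (fun t h1 h2 => (cE (cE (cE (cE (ab s1 al (-1) t ((i + j - n) - t) (by omega)) (qf a1 al 0 ((i + j - n) - t) ((i + k - n) - t) (by omega))) (qf (show Par W (i3 + 1) (n + i3 - i2 - l2 - 1) (2 * i2 + l2 - k - l - i3) from fun t h1 h2 => (cE (sh al (-1) t (t + (-n)) (by omega)) (cE (pb D2 al (-1) (t + (-n)) (t + (i2 + l2 - i3 + 1)) (by omega)) (pb c al 0 (t + (i2 + l2 - i3 + 1)) (t + (2 * i2 + l2 - k - l - i3)) (by omega))))) al 0 ((i + k - n) - t) ((i + 2 * i2 + l2 - n - l - i3) - t) (by omega))) (pb b al 0 ((i + 2 * i2 + l2 - n - l - i3) - t) ((2 * i + 2 * i2 + l2 - n - k - l - i3) - t) (by omega))) (sh al (-1) ((2 * i + 2 * i2 + l2 - n - k - l - i3) - t) ((2 * i + 2 * i2 + l2 - 2 * n - k - l - i3) - t) (by omega)))) (fun t h1 h2 => (cE (qf (show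 Par W (j + 1) (i + j + 1) (k + l + l2 + i3 - n - i - j + 2) from fun t h1 h2 => (cE (sh al (-1) t (t + (-n)) (by omega)) (cII (ab s1 al (-1) (t + (-n)) ((i + j) - t) (by omega)) (qa u1 al 0 ((i + j) - t) (t + (k + l + l2 + i3 - n - i - j + 2)) (by omega))))) al (-1) t (t + (k + l + l2 + i3 - i - j + 2)) (by omega)) (sh al (-1) (t + (k + l + l2 + i3 - i - j + 2)) (t + (k + l + l2 + i3 - n - i - j + 2)) (by omega))))
      · by_cases z18 : (k) ≤ (i2)
        · have kk287 : (k + l + 2) ≤ (n + i2) := by clear * - b0 b2 y15 y20 y22 z15 z18; linarith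
          have kk288 : (0) ≤ (l2) := by clear * - b0 b2 y15 y20 z15 z18; omega
          have kk289 : (k + l + 2) ≤ (n + i) := by clear * - b0 y15 y20 z15 z18; omega
          have kk290 : (i) ≤ (i2 + l2) := by clear * - b0 b2 y15 y20 y22 z15 z18; linarith
          have kk291 : (l + 2) ≤ (n) := by clear * - b0 b2 y15 y20 y22 z15 z18; linarith
          have kk292 : (k) ≤ (i2 + l2) := by clear * - b0 b2 y15 y20 z15 z18; omega
          have kk293 : (n + Q) ≤ (k + l + l2 + 3) := by clear * - b2 b3 y21; omega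
          have kk294 : (k) ≤ (i2) := by clear * - z18; omega
          have kk295 : (k + l + 1) ≤ (n + i) := by clear * - b0 y15 y20 z15 z18; omega
          have kk296 : (l + 1) ≤ (n) := by clear * - b0 b2 y15 y20 y22 z15 z18; linarith
          have kk297 : (i + l) ≤ (i2 + l2) := by clear * - b0 b2 z15 z18; omega
          have kk298 : (i2 + l2) ≤ (k + l) := by clear * - y22; omega
          have kk299 : (i + l + 1) ≤ (Q + l2) := by clear * - b0 b2 y12 y21 z15 z18; omega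
          have kk300 : (k + l + 2) ≤ (n + Q) := by clear * - b0 b2 y12 y20 z15 z16 z18; linarith
          have kk301 : (0) ≤ (l2 + 1) := by clear * - b0 b2 y15 y20 z15 z18; omega
          have kk302 : (k) ≤ (n + i) := by clear * - b0 b2 y15 y20 y22 z15 z18; linarith
          have r303 : (k - i) % 2 = 0 := by clear * - ev n1p n2p n3p; omega
          have r304 : (n + i2 - k - l - 1) % 2 = 0 := by clear * - ev n1p n2p n3p; omega
          have r305 : (i + l + i2 + 1) % 2 = 0 := by clear * - ev n1p n2p n3p; omega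
          clear * - al b tt c n1 kk287 kk288 kk289 kk290 kk291 kk292 kk293 kk294 kk295 kk296 kk297 kk298 kk299 kk300 kk301 kk302 r303 r304 r305
          exact ivt al.ninv (k + l - n + 2) (k + l + l2 - n + 2) (n + i2 - k - l - 1) (i + 1) (i + i2 + l2 - k + 1) (k - i) (i) (k) 0 (fun t h1 h2 => (pb c al (-1) t (t + (n + i2 - k - l - 1)) (by omega))) (fun t h1 h2 => (cE (sh al (-1) t (t + (-n)) (by omega)) (qf b al (-1) (t + (-n)) (t + (k - i)) (by omega)))) (fun hh => n1.f1 (rEE (sh al 0 (i) (i) (by omega)) (sh al 0 (k) (k) (by omega)) (Eq.symm hh))) (by omega) (Q) (i2) (i + l + i2 + 1) 1 (-1) (fun t h1 h2 => (cI (sh al (-1) t (t + (-n)) (by omega)) (qa tt al (-1) (t + (-n)) ((i + l + i2 + 1) - t) (by omega)))) (by omega)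
        · by_cases z19 : (3 * k + l + 2) ≤ (n + i + j + i2)
          · by_cases v10 : (i + l + i2 + l2 + 2) ≤ (n + i3)
            · have kk306 : (2 * k + l + 2) ≤ (n + j + i2) := by clear * - y18 y22 z19; omega
              have kk307 : (n + j) ≤ (k + l + l2 + 1) := by clear * - z15; omega
              have kk308 : (3 * k + l + 2) ≤ (n + i + j + i2) := by clear * - z19; omega
              have kk309 : (i + 2 * i2 + l2 + 1) ≤ (2 * k + l + i3) := by clear * - y19 y22 z18; omega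
              have kk310 : (Q + k + l + i3) ≤ (i + 2 * i2 + l2 + 1) := by clear * - y20 y21 y7; omega
              have kk311 : (n + i + j + i2) ≤ (3 * k + 2 * l + 1) := by clear * - y18 y22 z15; omega
              have kk312 : (i2) ≤ (k) := by clear * - z18; omega
              have kk313 : (i2 + l2) ≤ (k + l) := by clear * - y22; omega
              have kk314 : (k + l) ≤ (i2 + l2) := by clear * - y21; omega
              have kk315 : (n) ≤ (k + l + l2 + 2) := by clear * - y13 y14; omega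
              have kk316 : (3 * k + l + 2) ≤ (n + Q + j + i2) := by clear * - y12 y14 y19 z19; omega
              have kk317 : (n + j) ≤ (k + l + l2 + 2) := by clear * - z15; omega
              have kk318 : (i3) ≤ (i) := by clear * - y20; omega
              have kk319 : (i + l + i2 + l2 + 2) ≤ (n + i3) := by clear * - v10; omega
              have r320 : (n + i + j + i2 - 3 * k - l - 1) % 2 = 0 := by clear * - ev n1p n2p n3p; omega
              have r321 : (2 * k + l + i3 - i - 2 * i2 - l2) % 2 = 0 := by clear * - ev n1p n2p n3p; omega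
              clear * - al a2 b c D2 n1 kk306 kk307 kk308 kk309 kk310 kk311 kk312 kk313 kk314 kk315 kk316 kk317 kk318 kk319 r320 r321
              exact n1.f0 (rEE (cE (qf (show Par W (2 * k + l - i2 + 2) (k + l + l2 + 2) (n + i + i2 - 2 * k - l - 1) from fun t h1 h2 => (cE (sh al (-1) t (t + (-n)) (by omega)) (cE (cE (pb c al (-1) (t + (-n)) (t + (i2 - k - l - 1)) (by omega)) (pb b al 0 (t + (i2 - k - l - 1)) (t + (i + i2 - 2 * k - l - 1)) (by omega))) (sh al 1 (t + (i + i2 - 2 * k - l - 1)) (t + (n + i + i2 - 2 * k - l - 1)) (by omega))))) al (-1) (j) (2 * n + i + j + i2 - 2 * k - l - 1) (by omega)) (sh al (-2) (2 * n + i + j + i2 - 2 * k - l - 1) (i + j + i2 - 2 * k - l - 1) (by omega))) (sh al (-1) (k) (k - n) (by omega)) (Eq.symm (rotR (n + i + j + i2 - 3 * k - l - 1) (2 * k + l + i3 - i - 2 * i2 - l2) (k - n) (i + j + i2 - 2 * k - l - 1) (by omega) (fun t h1 h2 => (cE (cE (pb a2 al (-1) t (t + (n + j -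 k)) (by omega)) (qf (show Par W (2 * k + l - i2 + 2) (k + l + l2 + 2) (n + i + i2 - 2 * k - l - 1) from fun t h1 h2 => (cE (sh al (-1) t (t + (-n)) (by omega)) (cE (cE (pb c al (-1) (t + (-n)) (t + (i2 - k - l - 1)) (by omega)) (pb b al 0 (t + (i2 - k - l - 1)) (t + (i + i2 - 2 * k - l - 1)) (by omega))) (sh al 1 (t + (i + i2 - 2 * k - l - 1)) (t + (n + i + i2 - 2 * k - l - 1)) (by omega))))) al (-1) (t + (n + j - k)) (t + (3 * n + i + j + i2 - 3 * k - l - 1)) (by omega))) (sh al (-2) (t + (3 * n + i + j + i2 - 3 * k - l - 1)) (t + (n + i + j + i2 - 3 * k - l - 1)) (by omega)))) (fun t h1 h2 => (cE (cE (pb (show Par W (i3 + 1) (n + i3 - i2 - l2 - 1) (2 * i2 + l2 - k - l - i3) from fun t h1 h2 => (cE (sh al (-1) t (t + (-n)) (by omega)) (cE (pb D2 al (-1) (t + (-n)) (t + (i2 + l2 - i3 + 1)) (by omega)) (pb c al 0 (t + (i2 + l2 - i3 + 1)) (t + (2 * i2 + l2 - k - l - i3)) (by omega))))) al (-1) t (t + (n + k + l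 + i3 - 2 * i2 - l2)) (by omega)) (qf b al 0 (t + (n + k + l + i3 - 2 * i2 - l2)) (t + (n + 2 * k + l + i3 - i - 2 * i2 - l2)) (by omega))) (sh al (-1) (t + (n + 2 * k + l + i3 - i - 2 * i2 - l2)) (t + (2 * k + l + i3 - i - 2 * i2 - l2)) (by omega)))))))
            · have kk322 : (2 * k + l + 2) ≤ (n + j + i2) := by clear * - y18 y22 z19; omega
              have kk323 : (n + j) ≤ (k + l + l2 + 1) := by clear * - z15; omega
              have kk324 : (3 * k + l + 2) ≤ (n + i + j + i2) := by clear * - z19; omega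
              have kk325 : (i + 2 * i2 + l2 + 1) ≤ (2 * k + l + i3) := by clear * - y19 y22 z18; omega
              have kk326 : (Q + k + l + i3) ≤ (i + 2 * i2 + l2 + 1) := by clear * - y20 y21 y7; omega
              have kk327 : (2 * i + j + 2 * i2 + l2 + 1) ≤ (3 * k + l + i3) := by clear * - b0 y19 y22 z15 z17; omega
              have kk328 : (i2) ≤ (k) := by clear * - z18; omega
              have kk329 : (i2 + l2) ≤ (k + l) := by clear * - y22; omega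
              have kk330 : (k + l) ≤ (i2 + l2) := by clear * - y21; omega
              have kk331 : (n) ≤ (k + l + l2 + 2) := by clear * - v10 y19 z18; omega
              have kk332 : (3 * k + l + 2) ≤ (n + Q + j + i2) := by clear * - v10 y12 y21 z16 z17 z18; omega
              have kk333 : (n + j) ≤ (k + l + l2 + 2) := by clear * - z15; omega
              have kk334 : (i3) ≤ (i) := by clear * - y20; omega
              have kk335 : (n + i3) ≤ (i + l + i2 + l2 + 2) := by clear * - v10; omega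
              have r336 : (n + i + j + i2 - 3 * k - l - 1) % 2 = 0 := by clear * - ev n1p n2p n3p; omega
              have r337 : (2 * k + l + i3 - i - 2 * i2 - l2) % 2 = 0 := by clear * - ev n1p n2p n3p; omega
              clear * - al a2 b c D2 n1 kk322 kk323 kk324 kk325 kk326 kk327 kk328 kk329 kk330 kk331 kk332 kk333 kk334 kk335 r336 r337
              exact n1.f0 (rEE (cE (qf (show Par W (2 * k + l - i2 + 2) (k + l + l2 + 2) (n + i + i2 - 2 * k - l - 1) from fun t h1 h2 => (cE (sh al (-1) t (t + (-n)) (by omega)) (cE (cE (pb c al (-1) (t + (-n)) (t + (i2 - k - l - 1)) (by omega)) (pb b al 0 (t + (i2 - k - l - 1)) (t + (i + i2 - 2 * k - l - 1)) (by omega))) (sh al 1 (t + (i + i2 - 2 * k - l - 1)) (t + (n + i + i2 - 2 * k - l - 1)) (by omega))))) al (-1) (j) (2 * n + i + j + i2 - 2 * k - l - 1) (by omega)) (sh al (-2) (2 * n + i + j + i2 - 2 * k - l - 1) (i + j + i2 - 2 * k - l - 1) (by omega))) (sh al (-1)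 (k) (k - n) (by omega)) (Eq.symm (rotR (n + i + j + i2 - 3 * k - l - 1) (2 * k + l + i3 - i - 2 * i2 - l2) (k - n) (i + j + i2 - 2 * k - l - 1) (by omega) (fun t h1 h2 => (cE (cE (pb a2 al (-1) t (t + (n + j - k)) (by omega)) (qf (show Par W (2 * k + l - i2 + 2) (k + l + l2 + 2) (n + i + i2 - 2 * k - l - 1) from fun t h1 h2 => (cE (sh al (-1) t (t + (-n)) (by omega)) (cE (cE (pb c al (-1) (t + (-n)) (t + (i2 - k - l - 1)) (by omega)) (pb b al 0 (t + (i2 - k - l - 1)) (t + (i + i2 - 2 * k - l - 1)) (by omega))) (sh al 1 (t + (i + i2 - 2 * k - l - 1)) (t + (n + i + i2 - 2 * k - l - 1)) (by omega))))) al (-1) (t + (n + j - k)) (t + (3 * n + i + j + i2 - 3 * k - l - 1)) (by omega))) (sh al (-2) (t + (3 * n + i + j + i2 - 3 * k - l - 1)) (t + (n + i + j + i2 - 3 * k - l - 1)) (by omega)))) (fun t h1 h2 => (cE (cE (pb (show Par W (i3 + 1) (n + i3 - i2 - l2 - 1) (2 * i2 + l2 - k - l - i3) from fun t h1 h2 => (cE (sh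 al (-1) t (t + (-n)) (by omega)) (cE (pb D2 al (-1) (t + (-n)) (t + (i2 + l2 - i3 + 1)) (by omega)) (pb c al 0 (t + (i2 + l2 - i3 + 1)) (t + (2 * i2 + l2 - k - l - i3)) (by omega))))) al (-1) t (t + (n + k + l + i3 - 2 * i2 - l2)) (by omega)) (qf b al 0 (t + (n + k + l + i3 - 2 * i2 - l2)) (t + (n + 2 * k + l + i3 - i - 2 * i2 - l2)) (by omega))) (sh al (-1) (t + (n + 2 * k + l + i3 - i - 2 * i2 - l2)) (t + (2 * k + l + i3 - i - 2 * i2 - l2)) (by omega)))))))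
          · have kk338 : (i3 + 1) ≤ (k) := by clear * - y18 y20 y22; omega
            have kk339 : (k + i2 + l2 + 2) ≤ (n + i3) := by clear * - y17; omega
            have kk340 : (k + i2 + l2 + 2) ≤ (n + j + i3) := by clear * - y15; omega
            have kk341 : (i + 2 * i2 + l2 + 1) ≤ (2 * k + l + i3) := by clear * - y19 y22 z18; omega
            have kk342 : (Q + k + l + i3) ≤ (i + 2 * i2 + l2 + 1) := by clear * - y20 y21 y7; omega
            have kk343 : (k + l + i3) ≤ (2 * i2 + l2) := by clear * - b2 y12 y20 y21 y7 z15; omega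
            have kk344 : (n + j) ≤ (k + l + l2 + 1) := by clear * - z15; omega
            have kk345 : (i3 + 1) ≤ (Q) := by clear * - y12 y14; omega
            have kk346 : (k + i2 + l2 + 1) ≤ (n + i3) := by clear * - y17; omega
            have kk347 : (i3) ≤ (i) := by clear * - y20; omega
            have kk348 : (i2) ≤ (k) := by clear * - z18; omega
            have kk349 : (i + l + i2 + l2 + 2) ≤ (n + i3) := by clear * - y12 y20 y21 z15 z16 z17 z19; linarith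
            have kk350 : (i2 + l2) ≤ (k + l) := by clear * - y22; omega
            have r351 : (n + j + i3 - k - i2 - l2 - 1) % 2 = 0 := by clear * - ev n1p n2p n3p; omega
            have r352 : (2 * k + l + i3 - i - 2 * i2 - l2) % 2 = 0 := by clear * - ev n1p n2p n3p; omega
            clear * - al a2 b c D2 n1 kk338 kk339 kk340 kk341 kk342 kk343 kk344 kk345 kk346 kk347 kk348 kk349 kk350 r351 r352
            exact n1.f0 (rEE (sh al 0 (j) (j) (by omega)) (cE (pb D2 al 0 (k) (k + i2 + l2 - i3 + 1) (by omega)) (sh al (-1) (k + i2 + l2 - i3 + 1) (k + i2 + l2 - n - i3 + 1) (by omega))) (Eq.symm (rotR (n + j + i3 - k - i2 - l2 - 1) (2 * k + l + i3 - i - 2 * i2 - l2) (k + i2 + l2 - n - i3 + 1) (j) (by omega) (fun t h1 h2 => (cE (qf (show Par W (Q + i2 + l2 - i3 + 1) (k + i2 + l2 - i3 + 1) (n + j + i3 - k - i2 - l2 - 1) from fun t h1 h2 => (cE (sh al (-1) t (t + (-n)) (by omega)) (cE (cE (qf D2 al (-1) (t + (-n))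 (t + (i3 - i2 - l2 - 1)) (by omega)) (pb a2 al 0 (t + (i3 - i2 - l2 - 1)) (t + (j + i3 - k - i2 - l2 - 1)) (by omega))) (sh al 1 (t + (j + i3 - k - i2 - l2 - 1)) (t + (n + j + i3 - k - i2 - l2 - 1)) (by omega))))) al (-1) t (t + (2 * n + j + i3 - k - i2 - l2 - 1)) (by omega)) (sh al (-1) (t + (2 * n + j + i3 - k - i2 - l2 - 1)) (t + (n + j + i3 - k - i2 - l2 - 1)) (by omega)))) (fun t h1 h2 => (cE (cE (cE (qf D2 al (-1) t (t + (n + i3 - i2 - l2 - 1)) (by omega)) (qf b al 0 (t + (n + i3 - i2 - l2 - 1)) (t + (n + k + i3 - i - i2 - l2 - 1)) (by omega))) (qf c al 0 (t + (n + k + i3 - i - i2 - l2 - 1)) (t + (n + 2 * k + l + i3 - i - 2 * i2 - l2)) (by omega))) (sh al (-1) (t + (n + 2 * k + l + i3 - i - 2 * i2 - l2)) (t + (2 * k + l + i3 - i - 2 * i2 - l2)) (by omega)))))))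

theorem yf2_7 {W : ℤ → G} {n Q i j k l i2 l2 i3 : ℤ} (al : AL W n Q)
    (hy : (0) ≤ (i) ∧ (i) ≤ (j) ∧ (j + 1) ≤ (Q) ∧ (Q) ≤ (k) ∧ (k + 1) ≤ (n) ∧ (Q) ≤ (i + l + 1) ∧ (k + l + 2) ≤ (n) ∧ (Q) ≤ (i2) ∧ (i2) ≤ (i + l + 1) ∧ (Q) ≤ (i2 + l2 + 1) ∧ (i2 + l2 + 2) ≤ (n) ∧ (n) ≤ (k + l + l2 + 2) ∧ (k + l + l2 + 3) ≤ (n + Q) ∧ (0) ≤ (i3) ∧ (n + i3) ≤ (k + l + l2 + 2) ∧ (k + i2 + l2 + 2) ≤ (n + j + i3) ∧ (j + i3 + 1) ≤ (k) ∧ (k + i2 + l2 + 2) ≤ (n + i3) ∧ (i + l + 1) ≤ (i2 + l2) ∧ (i) ≤ (i3) ∧ (i3) ≤ (i) ∧ (k + l) ≤ (i2 + l2) ∧ (i2 + l2) ≤ (k + l))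
    (a1 : Par W (0) (j) (k - j))
    (a2 : Par W (Q + j - k) (j) (k - j))
    (s1 : Ant W (0) (i) (i + j))
    (s2 : Ant W (j + 1) (Q) (i + j))
    (b : Par W (i + 1) (i + l + 1) (k - i))
    (tt : Ant W (Q) (i2) (i + l + i2 + 1))
    (c : Par W (i2 + 1) (i2 + l2 + 1) (k + l - i2 + 1))
    (u1 : Ant W (0) (i3) (k + l + l2 + i3 - n + 2))
    (u2 : Ant W (k + l + l2 - n + 3) (Q) (k + l + l2 + i3 - n + 2))
    (D1 : Par W (i3 + 1) (Q) (i2 + l2 - i3 + 1))
    (D2 : Par W (i2 + l2 + 2) (n) (i3 - i2 - l2 - 1))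
    {L : ℤ} (mx : ∀ a b g, 0 < g → g < n → Par W a b g → b - a ≤ L)
    (hL : L ≤ (n - j - 3) ∧ L ≤ (n + Q - k - 3) ∧ L ≤ (n - l - 3) ∧ L ≤ (n + i - k - 2) ∧ L ≤ (n - l2 - 3) ∧ L ≤ (n + i3 - Q - 2) ∧ L ≤ (i2 + l2 - 1) ∧ L ≤ (n + i2 - k - l - 3))
    (bd0 : Bd W n L (j) (i) (k))
    (bd2 : Bd W n L (k + l + l2 - n + 2) (i3) (i2 + l2 + 1))
    (n1 : Nd W (j) (i) (k))
    (n2 : Nd W (i + l + 1) (i2) (k + l + 1))
    (n3 : Nd W (k + l + l2 - n + 2) (i3) (i2 + l2 + 1))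
    (b0 : (2 * l + 3) ≤ (n))
    (b1 : (n + 2 * Q + i2) ≤ (i + k + 2 * l + l2 + i3 + 4))
    (b2 : (2 * i + j + 1) ≤ (k))
    (b3 : (2 * n + 2 * Q + i3) ≤ (k + l + 2 * i2 + 3 * l2 + 5))
    (b4 : (n + i + 2 * i2) ≤ (j + 2 * k + 2 * l + 3)) : False := by
  have ev := al.ev
  obtain ⟨y0, y1, y2, y3, y4, y5, y6, y7, y8, y9, y10, y11, y12, y13, y14, y15, y16, y17, y18, y19, y20, y21, y22⟩ := id hy
  have n1p := And.intro n1.p1 n1.p2
  have n2p := And.intro n2.p1 n2.p2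
  have n3p := And.intro n3.p1 n3.p2
  by_cases z14 : (n + 2 * Q + j) ≤ (i + 2 * k + 2 * l + 4)
  · exact yf2_8 al hy a1 a2 s1 s2 b tt c u1 u2 D1 D2 mx hL bd0 bd2 n1 n2 n3 (by clear * - b0; omega) (by clear * - b2; omega) (by clear * - b4; omega) (by clear * - z14; omega)
  · exact yf2_9 al hy a1 a2 s1 s2 b tt c u1 u2 D1 D2 mx hL bd0 bd2 n1 n2 n3 (by clear * - b0; omega) (by clear * - b1; omega) (by clear * - b2; omega) (by clear * - b3; omega) (by clear * - b4; omega) (by clear * - z14; omega)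

theorem yf2_6 {W : ℤ → G} {n Q i j k l i2 l2 i3 : ℤ} (al : AL W n Q)
    (hy : (0) ≤ (i) ∧ (i) ≤ (j) ∧ (j + 1) ≤ (Q) ∧ (Q) ≤ (k) ∧ (k + 1) ≤ (n) ∧ (Q) ≤ (i + l + 1) ∧ (k + l + 2) ≤ (n) ∧ (Q) ≤ (i2) ∧ (i2) ≤ (i + l + 1) ∧ (Q) ≤ (i2 + l2 + 1) ∧ (i2 + l2 + 2) ≤ (n) ∧ (n) ≤ (k + l + l2 + 2) ∧ (k + l + l2 + 3) ≤ (n + Q) ∧ (0) ≤ (i3) ∧ (n + i3) ≤ (k + l + l2 + 2) ∧ (k + i2 + l2 + 2) ≤ (n + j + i3) ∧ (j + i3 + 1) ≤ (k) ∧ (k + i2 + l2 + 2) ≤ (n + i3) ∧ (i + l + 1) ≤ (i2 + l2) ∧ (i) ≤ (i3) ∧ (i3) ≤ (i) ∧ (k + l) ≤ (i2 + l2) ∧ (i2 + l2) ≤ (k + l))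
    (a1 : Par W (0) (j) (k - j))
    (a2 : Par W (Q + j - k) (j) (k - j))
    (s1 : Ant W (0) (i) (i + j))
    (s2 : Ant W (j + 1) (Q) (i + j))
    (b : Par W (i + 1) (i + l + 1) (k - i))
    (tt : Ant W (Q) (i2) (i + l + i2 + 1))
    (c : Par W (i2 + 1) (i2 + l2 + 1) (k + l - i2 + 1))
    (u1 : Ant W (0) (i3) (k + l + l2 + i3 - n + 2))
    (u2 : Ant W (k + l + l2 - n + 3) (Q) (k + l + l2 + i3 - n + 2))
    (D1 : Par W (i3 + 1) (Q) (i2 + l2 - i3 + 1))
    (D2 : Par W (i2 + l2 + 2) (n) (i3 - i2 - l2 - 1))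
    {L : ℤ} (mx : ∀ a b g, 0 < g → g < n → Par W a b g → b - a ≤ L)
    (hL : L ≤ (n - j - 3) ∧ L ≤ (n + Q - k - 3) ∧ L ≤ (n - l - 3) ∧ L ≤ (n + i - k - 2) ∧ L ≤ (n - l2 - 3) ∧ L ≤ (n + i3 - Q - 2) ∧ L ≤ (i2 + l2 - 1) ∧ L ≤ (n + i2 - k - l - 3))
    (bd0 : Bd W n L (j) (i) (k))
    (bd2 : Bd W n L (k + l + l2 - n + 2) (i3) (i2 + l2 + 1))
    (n1 : Nd W (j) (i) (k))
    (n2 : Nd W (i + l + 1) (i2) (k + l + 1))
    (n3 : Nd W (k + l + l2 - n + 2) (i3) (i2 + l2 + 1))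
    (b0 : (2 * l + 3) ≤ (n))
    (b1 : (n + 2 * Q + i2) ≤ (i + k + 2 * l + l2 + i3 + 4))
    (b2 : (i + 2 * k + 2 * l + 3) ≤ (n + 2 * Q + j))
    (b3 : (2 * i + j + 1) ≤ (k))
    (b4 : (2 * n + 2 * Q + i3) ≤ (k + l + 2 * i2 + 3 * l2 + 5))
    (b5 : (j + 2 * k + 2 * l + 4) ≤ (n + i + 2 * i2)) : False := by
  have ev := al.ev
  obtain ⟨y0, y1, y2, y3, y4, y5, y6, y7, y8, y9, y10, y11, y12, y13, y14, y15, y16, y17, y18, y19, y20, y21, y22⟩ := id hy
  have n1p := And.intro n1.p1 n1.p2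
  have n2p := And.intro n2.p1 n2.p2
  have n3p := And.intro n3.p1 n3.p2
  by_cases z8 : (n + j) ≤ (k + 2 * l + 2)
  · by_cases z9 : (n + 2 * i + j + 2 * i2) ≤ (2 * Q + 3 * k + 2 * l)
    · by_cases v5 : (i + i2 + 1) ≤ (Q + k)
      · have kk88 : (i + 1) ≤ (k) := by clear * - b0 b2 b4 b5 v5 y19 y22; linarith
        have kk89 : (n + j) ≤ (k + 2 * l + 2) := by clear * - z8; omega
        have kk90 : (2 * Q + k) ≤ (n + j + 2 * i2) := by clear * - b0 b2 b4 b5 v5 y15 y19 y22; linarith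
        have kk91 : (n + 2 * Q + j) ≤ (3 * k + 4 * l + 4) := by clear * - b1 b2 b4 b5 v5 y19 y22 z9; linarith
        have kk92 : (j + 2 * k + 2 * l + 4) ≤ (n + i + 2 * i2) := by clear * - b5; omega
        have kk93 : (i + 2 * k + 2 * l + 4) ≤ (n + j + 2 * i2) := by clear * - b5 y1; omega
        have kk94 : (n + i + j) ≤ (2 * k + 2 * l) := by clear * - b2 b4 b5 v5 y19 y22 z8; linarith
        have kk95 : (Q + k + l + 1) ≤ (n + i + j) := by clear * - b0 b1 b2 b5 y20 y22 y7; linarith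
        have kk96 : (n + i) ≤ (k + l + l2 + 2) := by clear * - y14 y19; omega
        have kk97 : (0) ≤ (l + 1) := by clear * - b1 b2 b4 b5 v5 y19 y22 z8; linarith
        have kk98 : (i2) ≤ (k + l + 1) := by clear * - b1 b2 b4 b5 v5 y22; omega
        have kk99 : (i + 1) ≤ (Q) := by clear * - b2 b4 b5 v5 y19 y22 z8; linarith
        have kk100 : (i + i2 + 1) ≤ (Q + k) := by clear * - v5; omega
        have r101 : (i + l + i2 - 2 * n + 1) % 2 = 0 := by clear * - ev n1p n2p n3p; omega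
        have r102 : (k - i) % 2 = 0 := by clear * - ev n1p n2p n3p; omega
        have r103 : (i + j + i2 - n - k - l - 1) % 2 = 0 := by clear * - ev n1p n2p n3p; omega
        clear * - al s2 b tt c kk88 kk89 kk90 kk91 kk92 kk93 kk94 kk95 kk96 kk97 kk98 kk99 kk100 r101 r102 r103
        exact mid2 al (k - i) (i + l + i2 - 2 * n + 1) (i + j + i2 - n - k - l - 1) (i + l - n + 2) (i + l + i2 - n - Q + 2) 0 (i - n + 1) (k + l - n + 1) (by omega) (fun t h1 h2 => ⟨by omega, (cE (ab tt al (-1) t ((i + l + i2 - n + 1) - t) (by omega)) (sh al (-1) ((i + l + i2 - n + 1) - t) ((i + l + i2 - 2 * n + 1) - t) (by omega)))⟩) (fun t h1 h2 => ⟨by omega, (cE (cI (qf c al (-1) t (t + (n + k + l - i2 + 1)) (by omega)) (ab s2 al 1 (t + (n + k + l - i2 + 1)) ((i + j + i2 - k - l - 1) - t) (by omega))) (sh al (-1) ((i + j + i2 - k - l - 1) - t) ((i + j + i2 - n - k - l - 1) - t) (by omega)))⟩) (fun t h1 h2 => (cE (qf b al (-1) t (t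 + (n + k - i)) (by omega)) (sh al (-1) (t + (n + k - i)) (t + (k - i)) (by omega))))
      · have kk104 : (i + 1) ≤ (k) := by clear * - b0 b2 b4 v5 y19 y22 z9; linarith
        have kk105 : (n + 2 * i + j + 2 * i2) ≤ (2 * Q + 3 * k + 2 * l) := by clear * - z9; omega
        have kk106 : (2 * i + 2) ≤ (n + j + k) := by clear * - b0 b1 b2 b4 v5 y19 y22 z9; linarith
        have kk107 : (n + 2 * i + j + 2 * i2) ≤ (5 * k + 4 * l + 2) := by clear * - b0 b1 b2 b4 v5 y19 y22 z9; linarith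
        have kk108 : (j + 2 * k + 2 * l + 4) ≤ (n + i + 2 * i2) := by clear * - b5; omega
        have kk109 : (i + 2 * k + 2 * l + 4) ≤ (n + j + 2 * i2) := by clear * - b0 b2 b4 v5 y19 y22 z9; linarith
        have kk110 : (n + i + j) ≤ (2 * k + 2 * l) := by clear * - b2 b4 b5 v5 y19 y22 z9; linarith
        have kk111 : (Q + k + l + 1) ≤ (n + i + j) := by clear * - b0 b1 b2 b4 v5 y22 z9; linarith
        have kk112 : (n + i) ≤ (k + l + l2 + 2) := by clear * - y14 y19; omega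
        have kk113 : (0) ≤ (l + 1) := by clear * - b1 b2 b4 b5 v5 y19 y22 z9; linarith
        have kk114 : (i2) ≤ (k + l + 1) := by clear * - b0 b1 b2 b4 v5 y22 z9; linarith
        have kk115 : (k) ≤ (i2) := by clear * - b2 b4 b5 v5 y19 y22 z9; linarith
        have kk116 : (Q + k) ≤ (i + i2 + 1) := by clear * - v5; omega
        have r117 : (i + l + i2 - 2 * n + 1) % 2 = 0 := by clear * - ev n1p n2p n3p; omega
        have r118 : (k - i) % 2 = 0 := by clear * - ev n1p n2p n3p; omega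
        have r119 : (i + j + i2 - n - k - l - 1) % 2 = 0 := by clear * - ev n1p n2p n3p; omega
        clear * - al s2 b tt c kk104 kk105 kk106 kk107 kk108 kk109 kk110 kk111 kk112 kk113 kk114 kk115 kk116 r117 r118 r119
        exact mid2 al (k - i) (i + l + i2 - 2 * n + 1) (i + j + i2 - n - k - l - 1) (i + l - n + 2) (k + l - n + 1) 0 (i - n + 1) (k + l - n + 1) (by omega) (fun t h1 h2 => ⟨by omega, (cE (ab tt al (-1) t ((i + l + i2 - n + 1) - t) (by omega)) (sh al (-1) ((i + l + i2 - n + 1) - t) ((i + l + i2 - 2 * n + 1) - t) (by omega)))⟩) (fun t h1 h2 => ⟨by omega, (cE (cI (qf c al (-1) t (t + (n + k + l - i2 + 1)) (by omega)) (ab s2 al 1 (t + (n + k + l - i2 + 1)) ((i + j + i2 - k - l - 1) - t) (by omega))) (sh al (-1) ((i + j + i2 - k - l - 1) - t) ((i + j + i2 - n - k - l - 1) - t) (by omega)))⟩) (fun t h1 h2 => (cE (qf b al (-1) t (t + (n + k - i)) (by omega)) (sh al (-1) (t + (n + k - i)) (t + (k - i))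 (by omega))))
    · have kk120 : (i + 1) ≤ (k) := by clear * - b0 b2 b4 y19 y22 z8 z9; linarith
      have kk121 : (i + 2) ≤ (k) := by clear * - b0 b2 b4 y19 y22 z8 z9; linarith
      have kk122 : (i) ≤ (k + 2 * l) := by clear * - b0 b1 b2 b4 y19 y22 z8 z9; linarith
      have kk123 : (i + 2 * i2) ≤ (3 * k + 2 * l) := by clear * - b0 b1 b2 b4 y19 y22 z8 z9; linarith
      have kk124 : (k) ≤ (i2) := by clear * - b2 b4 b5 y19 y22 z8 z9; linarith
      have kk125 : (Q + k) ≤ (i + i2 + 1) := by clear * - z8 z9; omega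
      have r126 : (i + l + i2 - 2 * n + 1) % 2 = 0 := by clear * - ev n1p n2p n3p; omega
      have r127 : (k - i) % 2 = 0 := by clear * - ev n1p n2p n3p; omega
      clear * - al b tt kk120 kk121 kk122 kk123 kk124 kk125 r126 r127
      exact midP al (k - i) (i + l + i2 - 2 * n + 1) (i + i2 - n - k + 1) (i - n + 1) (k + l - n + 1) (by omega) (fun t h1 h2 => (cE (qa tt al (-1) t ((i + l + i2 - n + 1) - t) (by omega)) (sh al (-1) ((i + l + i2 - n + 1) - t) ((i + l + i2 - 2 * n + 1) - t) (by omega)))) (fun t h1 h2 => (cE (qf b al (-1) t (t + (n + k - i)) (by omega)) (sh al (-1) (t + (n + k - i)) (t + (k - i)) (by omega))))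
  · by_cases z10 : (n + i + j + 2 * i2 + l2) ≤ (3 * k + 3 * l + i3 + 2)
    · by_cases z11 : (3 * i + j + l + 2 * i2 + l2 + 4) ≤ (n + 2 * Q + k + i3)
      · by_cases v6 : (n + Q) ≤ (i + k + 2 * l + 3)
        · have kk128 : (k + l + i3 + 1) ≤ (2 * i2 + l2) := by clear * - b2 b4 b5 y22; omega
          have kk129 : (j + 2 * k + 2 * l + 4) ≤ (n + i + 2 * i2) := by clear * - b5; omega
          have kk130 : (2 * k + 2 * l + 2 * i3 + 4) ≤ (n + i + j + 2 * i2) := by clear * - b2 b3 b5 v6 y20 z8; omega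
          have kk131 : (3 * i + j + 2 * l + 4) ≤ (n + 2 * i2) := by clear * - b0 b2 b3 b5 v6 z8; omega
          have kk132 : (3 * i + j + l + 2 * i2 + l2 + 4) ≤ (n + 2 * Q + k + i3) := by clear * - z11; omega
          have kk133 : (3 * k + 3 * l + l2 + i3 + 6) ≤ (3 * n + i + j) := by clear * - b1 b2 b3 b5 v6 y20 y22 z11 z8; linarith
          have kk134 : (3 * i + j + k + 3 * l + l2 + 6) ≤ (3 * n + i3) := by clear * - b1 b2 b3 b4 b5 v6 y22 z11 z8; linarith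
          have kk135 : (k + l) ≤ (i2 + l2) := by clear * - y21; omega
          have kk136 : (n) ≤ (k + l + l2 + 2) := by clear * - b2 b4 b5 v6 y20 y21 z11 z8; linarith
          have kk137 : (i2) ≤ (k) := by clear * - v6 y20 y21 z11 z8; omega
          have kk138 : (i2 + l2) ≤ (k + l) := by clear * - y22; omega
          have kk139 : (n + i) ≤ (k + l + l2 + 2) := by clear * - b2 b4 v6 z11; omega
          have kk140 : (Q + 2 * k + l + 1) ≤ (n + i + j + i2) := by clear * - b1 b2 b3 b5 v6 y20 y22 z8; linarith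
          have kk141 : (n + i3) ≤ (i + k + 2 * l + 2) := by clear * - b2 b3 b4 b5 v6 y20 z11 z8; linarith
          have kk142 : (n + Q) ≤ (i + k + 2 * l + 3) := by clear * - v6; omega
          have kk143 : (k + l + 1) ≤ (n) := by clear * - b1 b2 b3 b5 v6 y20 z11 z8; linarith
          have kk144 : (i3) ≤ (i + l + 1) := by clear * - b1 b2 b3 b4 b5 v6 y20 z11 z8; linarith
          have r145 : (i + l + i2 - 2 * n + 1) % 2 = 0 := by clear * - ev n1p n2p n3p; omega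
          have r146 : (2 * i2 + l2 - k - l - i3) % 2 = 0 := by clear * - ev n1p n2p n3p; omega
          have r147 : (2 * i + j + i2 - n - 2 * k - l - 1) % 2 = 0 := by clear * - ev n1p n2p n3p; omega
          clear * - al s2 b tt c D2 kk128 kk129 kk130 kk131 kk132 kk133 kk134 kk135 kk136 kk137 kk138 kk139 kk140 kk141 kk142 kk143 kk144 r145 r146 r147
          exact mid2 al (2 * i2 + l2 - k - l - i3) (i + l + i2 - 2 * n + 1) (2 * i + j + i2 - n - 2 * k - l - 1) (i + k + 2 * l - 2 * n + 3) (i2 - n) 0 (i3 - n + 1) (i2 - k - l - 1) (by omega) (fun t h1 h2 => ⟨by omega, (cE (qa tt al (-1) t ((i + l + i2 - n + 1) - t) (by omega)) (sh al (-1) ((i + l + i2 - n + 1) - t) ((i + l + i2 - 2 * n + 1) - t) (by omega)))⟩) (fun t h1 h2 => ⟨by omega, (cE (cE (qa s2 al (-1) t ((i + j - n) - t) (by omega)) (qf (show Par W (2 * k + l - i2 + 2) (k + l + l2 + 2) (n + i + i2 - 2 * k - l - 1) from fun t h1 h2 => (cE (sh al (-1) t (t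 + (-n)) (by omega)) (cE (cE (pb c al (-1) (t + (-n)) (t + (i2 - k - l - 1)) (by omega)) (pb b al 0 (t + (i2 - k - l - 1)) (t + (i + i2 - 2 * k - l - 1)) (by omega))) (sh al 1 (t + (i + i2 - 2 * k - l - 1)) (t + (n + i + i2 - 2 * k - l - 1)) (by omega))))) al (-1) ((i + j - n) - t) ((n + 2 * i + j + i2 - 2 * k - l - 1) - t) (by omega))) (sh al (-2) ((n + 2 * i + j + i2 - 2 * k - l - 1) - t) ((2 * i + j + i2 - n - 2 * k - l - 1) - t) (by omega)))⟩) (fun t h1 h2 => (cE (qf (show Par W (i3 + 1) (n + i3 - i2 - l2 - 1) (2 * i2 + l2 - k - l - i3) from fun t h1 h2 => (cE (sh al (-1) t (t + (-n)) (by omega)) (cE (pb D2 al (-1) (t + (-n)) (t + (i2 + l2 - i3 + 1)) (by omega)) (pb c al 0 (t + (i2 + l2 - i3 + 1)) (t + (2 * i2 + l2 - k - l - i3)) (by omega))))) al (-1) t (t + (n + 2 * i2 + l2 - k - l - i3)) (by omega)) (sh al (-1) (t + (n + 2 * i2 + l2 - k - l - i3)) (t + (2 * i2 + l2 - k - l - i3)) (by omega))))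
        · have kk148 : (k + l + i3 + 1) ≤ (2 * i2 + l2) := by clear * - b2 b4 b5 y22; omega
          have kk149 : (j + 2 * k + 2 * l + 4) ≤ (n + i + 2 * i2) := by clear * - b5; omega
          have kk150 : (2 * k + 2 * l + 2 * i3 + 4) ≤ (n + i + j + 2 * i2) := by clear * - b5 y1 y20; omega
          have kk151 : (3 * i + j + 2 * l + 4) ≤ (n + 2 * i2) := by clear * - b2 b4 b5 v6 y19 y22; omega
          have kk152 : (n + i + j + 2 * i2 + l2) ≤ (3 * k + 3 * l + i3 + 2) := by clear * - z10; omega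
          have kk153 : (2 * Q + k + l2 + i3) ≤ (n + 3 * i + j + l) := by clear * - b4 b5 y15 y20 y22; omega
          have kk154 : (2 * Q + i + j + l2) ≤ (n + k + l + i3) := by clear * - b1 b2 b4 b5 v6 y19 y22; linarith
          have kk155 : (k + l) ≤ (i2 + l2) := by clear * - y21; omega
          have kk156 : (n) ≤ (k + l + l2 + 2) := by clear * - b2 b4 y13 y20 z10; omega
          have kk157 : (i2) ≤ (k) := by clear * - y20 y21 z10 z8; omega
          have kk158 : (i2 + l2) ≤ (k + l) := by clear * - y22; omega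
          have kk159 : (n + i) ≤ (k + l + l2 + 2) := by clear * - b2 b4 z10; omega
          have kk160 : (Q + 2 * k + l + 1) ≤ (n + i + j + i2) := by clear * - b1 b2 b5 y20 y22 y7; omega
          have kk161 : (i + k + 2 * l + 3) ≤ (n + Q) := by clear * - v6; omega
          have kk162 : (i3 + 1) ≤ (Q) := by clear * - b2 b4 b5 y20 y22 z10; omega
          have kk163 : (k + l + 1) ≤ (n) := by clear * - b1 b2 b4 b5 v6 y22; omega
          have kk164 : (i3) ≤ (i + l + 1) := by clear * - b1 b2 b4 b5 y20 y22 z10; linarith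
          have r165 : (i + l + i2 - 2 * n + 1) % 2 = 0 := by clear * - ev n1p n2p n3p; omega
          have r166 : (2 * i2 + l2 - k - l - i3) % 2 = 0 := by clear * - ev n1p n2p n3p; omega
          have r167 : (2 * i + j + i2 - n - 2 * k - l - 1) % 2 = 0 := by clear * - ev n1p n2p n3p; omega
          clear * - al s2 b tt c D2 kk148 kk149 kk150 kk151 kk152 kk153 kk154 kk155 kk156 kk157 kk158 kk159 kk160 kk161 kk162 kk163 kk164 r165 r166 r167
          exact mid2 al (2 * i2 + l2 - k - l - i3) (i + l + i2 - 2 * n + 1) (2 * i + j + i2 - n - 2 * k - l - 1) (Q - n) (i2 - n) 0 (i3 - n + 1) (i2 - k - l - 1) (by omega) (fun t h1 h2 => ⟨by omega, (cE (qa tt al (-1) t ((i + l + i2 - n + 1) - t) (by omega)) (sh al (-1) ((i + l + i2 - n + 1) - t) ((i + l + i2 - 2 * n + 1) - t) (by omega)))⟩) (fun t h1 h2 => ⟨by omega, (cE (cE (qa s2 al (-1) t ((i + j - n) - t) (by omega)) (qf (show Par W (2 * k + l - i2 + 2) (k + l + l2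 + 2) (n + i + i2 - 2 * k - l - 1) from fun t h1 h2 => (cE (sh al (-1) t (t + (-n)) (by omega)) (cE (cE (pb c al (-1) (t + (-n)) (t + (i2 - k - l - 1)) (by omega)) (pb b al 0 (t + (i2 - k - l - 1)) (t + (i + i2 - 2 * k - l - 1)) (by omega))) (sh al 1 (t + (i + i2 - 2 * k - l - 1)) (t + (n + i + i2 - 2 * k - l - 1)) (by omega))))) al (-1) ((i + j - n) - t) ((n + 2 * i + j + i2 - 2 * k - l - 1) - t) (by omega))) (sh al (-2) ((n + 2 * i + j + i2 - 2 * k - l - 1) - t) ((2 * i + j + i2 - n - 2 * k - l - 1) - t) (by omega)))⟩) (fun t h1 h2 => (cE (qf (show Par W (i3 + 1) (n + i3 - i2 - l2 - 1) (2 * i2 + l2 - k - l - i3) from fun t h1 h2 => (cE (sh al (-1) t (t + (-n)) (by omega)) (cE (pb D2 al (-1) (t + (-n)) (t + (i2 + l2 - i3 + 1)) (by omega)) (pb c al 0 (t + (i2 + l2 - i3 + 1)) (t + (2 * i2 + l2 - k - l - i3)) (by omega))))) al (-1) t (t + (n + 2 * i2 + l2 - k - l - i3)) (by omega)) (sh al (-1) (t + (n + 2 * i2 +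 l2 - k - l - i3)) (t + (2 * i2 + l2 - k - l - i3)) (by omega))))
      · by_cases v7 : (n) ≤ (j + l + l2 + 3)
        · have kk168 : (j + l + l2 + 4) ≤ (n + i3) := by clear * - b5 z10 z8; omega
          have kk169 : (n) ≤ (j + l + l2 + i3 + 3) := by clear * - b5 v7 z10 z8; omega
          have kk170 : (n) ≤ (j + l + l2 + 3) := by clear * - v7; omega
          have kk171 : (l + l2 + i3 + 3) ≤ (n) := by clear * - b3 b5 v7 y20 y22 z8; omega
          have r172 : (j + l + l2 + i3 - 3 * n + 2) % 2 = 0 := by clear * - ev n1p n2p n3p; omega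
          clear * - al a1 u1 kk168 kk169 kk170 kk171 r172
          obtain ⟨t, ht⟩ : ∃ t, 2 * t = (j + l + l2 + i3 - 3 * n + 2) := ⟨(j + l + l2 + i3 - 3 * n + 2) / 2, by omega⟩
          exact al.ninv t (cE (cI (qf a1 al (-1) t (t + (n + k - j)) (by omega)) (ab u1 al 0 (t + (n + k - j)) ((j + l + l2 + i3 - 2 * n + 2) - t) (by omega))) (sh al (-1) ((j + l + l2 + i3 - 2 * n + 2) - t) t (by omega)))
        · have kk173 : (n) ≤ (j + l + l2 + i3 + 2) := by clear * - b2 y21 z10 z11 z8; omega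
          have kk174 : (n) ≤ (j + l + l2 + i3 + 3) := by clear * - b2 y21 z10 z11 z8; omega
          have kk175 : (j + l + l2 + 3) ≤ (n) := by clear * - v7; omega
          have kk176 : (l + l2 + i3 + 3) ≤ (n) := by clear * - b2 b3 v7 y20 z10 z11 z8; linarith
          have r177 : (j + l + l2 + i3 - 3 * n + 2) % 2 = 0 := by clear * - ev n1p n2p n3p; omega
          clear * - al a1 u1 kk173 kk174 kk175 kk176 r177
          obtain ⟨t, ht⟩ : ∃ t, 2 * t = (j + l + l2 + i3 - 3 * n + 2) := ⟨(j + l + l2 + i3 - 3 * n + 2) / 2, by omega⟩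
          exact al.ninv t (cE (cI (qf a1 al (-1) t (t + (n + k - j)) (by omega)) (ab u1 al 0 (t + (n + k - j)) ((j + l + l2 + i3 - 2 * n + 2) - t) (by omega))) (sh al (-1) ((j + l + l2 + i3 - 2 * n + 2) - t) t (by omega)))
    · by_cases z12 : (i2) ≤ (k)
      · by_cases z13 : (i + l + i2 + l2 + 3) ≤ (n + Q)
        · have kk178 : (k + l + i3 + 1) ≤ (2 * i2 + l2) := by clear * - b2 b4 b5 y22; omega
          have kk179 : (3 * k + 3 * l + l2 + 6) ≤ (2 * n + 2 * i2 + i3) := by clear * - b5 y19 y22 z10; omega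
          have kk180 : (k + l + i3 + 2) ≤ (2 * i2 + l2) := by clear * - b2 b4 b5 y22; omega
          have kk181 : (2 * i + k + 3 * l + l2 + i3 + 6) ≤ (2 * n + 2 * i2) := by clear * - b2 b4 b5 y19 y22 z10 z13; linarith
          have kk182 : (i2 + l2) ≤ (k + l) := by clear * - y22; omega
          have kk183 : (Q) ≤ (i + l + 1) := by clear * - b1 b2 b4 b5 y22; omega
          have kk184 : (Q + l2 + 1) ≤ (n) := by clear * - b1 b2 b4 b5 y19 y22 z10 z13; linarith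
          have kk185 : (k + l) ≤ (i2 + l2) := by clear * - y21; omega
          have kk186 : (n) ≤ (k + l + l2 + 2) := by clear * - y13 y14; omega
          have kk187 : (i2) ≤ (k) := by clear * - z12; omega
          have kk188 : (n + i3) ≤ (k + l + l2 + 2) := by clear * - y14; omega
          have kk189 : (Q + k) ≤ (i2 + l2 + i3 + 1) := by clear * - b1 b2 b4 b5 y19 y22; omega
          have kk190 : (i + k + 2 * l + 3) ≤ (n + Q) := by clear * - y21 z13; omega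
          have kk191 : (i3 + 1) ≤ (Q) := by clear * - b2 b5 y14 y22; omega
          have kk192 : (k + l + 1) ≤ (n) := by clear * - b1 b2 b4 b5 y22 z13; omega
          have kk193 : (i3) ≤ (i + l + 1) := by clear * - b1 b2 b4 b5 y14 y22; omega
          have r194 : (i + l + i2 - 2 * n + 1) % 2 = 0 := by clear * - ev n1p n2p n3p; omega
          have r195 : (2 * i2 + l2 - k - l - i3) % 2 = 0 := by clear * - ev n1p n2p n3p; omega
          have r196 : (i + i2 + l2 + i3 - 2 * n - k + 1) % 2 = 0 := by clear * - ev n1p n2p n3p; omega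
          clear * - al b tt c u2 D2 kk178 kk179 kk180 kk181 kk182 kk183 kk184 kk185 kk186 kk187 kk188 kk189 kk190 kk191 kk192 kk193 r194 r195 r196
          exact mid2 al (2 * i2 + l2 - k - l - i3) (i + l + i2 - 2 * n + 1) (i + i2 + l2 + i3 - 2 * n - k + 1) (Q - n) (i2 - n) 0 (i3 - n + 1) (i2 - k - l - 1) (by omega) (fun t h1 h2 => ⟨by omega, (cE (qa tt al (-1) t ((i + l + i2 - n + 1) - t) (by omega)) (sh al (-1) ((i + l + i2 - n + 1) - t) ((i + l + i2 - 2 * n + 1) - t) (by omega)))⟩) (fun t h1 h2 => ⟨by omega, (cE (cE (qa u2 al (-1) t ((k + l + l2 + i3 - 2 * n + 2) - t) (by omega)) (qf (show Par W (2 * k + l - i2 + 2) (k + l + l2 + 2) (n + i + i2 - 2 * k - l - 1) from fun t h1 h2 => (cE (sh al (-1) t (t + (-n)) (by omega)) (cE (cE (pb c al (-1) (t + (-n)) (t + (i2 - k - l - 1)) (by omega)) (pb b al 0 (t + (i2 - k - l - 1)) (t + (i + i2 - 2 * k - l - 1)) (by omega))) (sh al 1 (t + (i + i2 - 2 * k - l - 1)) (t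 + (n + i + i2 - 2 * k - l - 1)) (by omega))))) al (-1) ((k + l + l2 + i3 - 2 * n + 2) - t) ((i + i2 + l2 + i3 - k + 1) - t) (by omega))) (sh al (-2) ((i + i2 + l2 + i3 - k + 1) - t) ((i + i2 + l2 + i3 - 2 * n - k + 1) - t) (by omega)))⟩) (fun t h1 h2 => (cE (qf (show Par W (i3 + 1) (n + i3 - i2 - l2 - 1) (2 * i2 + l2 - k - l - i3) from fun t h1 h2 => (cE (sh al (-1) t (t + (-n)) (by omega)) (cE (pb D2 al (-1) (t + (-n)) (t + (i2 + l2 - i3 + 1)) (by omega)) (pb c al 0 (t + (i2 + l2 - i3 + 1)) (t + (2 * i2 + l2 - k - l - i3)) (by omega))))) al (-1) t (t + (n + 2 * i2 + l2 - k - l - i3)) (by omega)) (sh al (-1) (t + (n + 2 * i2 + l2 - k - l - i3)) (t + (2 * i2 + l2 - k - l - i3)) (by omega))))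
        · have kk197 : (n) ≤ (j + l + l2 + i3 + 2) := by clear * - b2 y19 y22 z12 z13; omega
          have kk198 : (j + l + l2 + 3) ≤ (n + i3) := by clear * - b5 y19 y22 z12; omega
          have kk199 : (i3) ≤ (j) := by clear * - b2 b4 y22 z10; omega
          have r200 : (n + 2 * k + l + l2 + i3 - j + 2) % 2 = 0 := by clear * - ev n1p n2p n3p; omega
          clear * - al a1 u1 kk197 kk198 kk199 r200
          obtain ⟨t, ht⟩ : ∃ t, 2 * t = (n + 2 * k + l + l2 + i3 - j + 2) := ⟨(n + 2 * k + l + l2 + i3 - j + 2) / 2, by omega⟩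
          exact al.ninv t (cE (cI (pb a1 al 1 t (t + (j - n - k)) (by omega)) (qa u1 al 0 (t + (j - n - k)) ((2 * k + l + l2 + i3 - j + 2) - t) (by omega))) (sh al 1 ((2 * k + l + l2 + i3 - j + 2) - t) t (by omega)))
      · have kk201 : (2 * k + l + i3 + 1) ≤ (i + 2 * i2 + l2) := by clear * - y20 y21 z12; omega
        have kk202 : (i + 2 * i2 + l2 + 1) ≤ (n + 2 * k + l + i3) := by clear * - b1 b2 b5 y14 y19 y22 z8; linarith
        have kk203 : (i + 2 * i2 + l2 + 1) ≤ (Q + 2 * k + l) := by clear * - y14 y19 y2 y22 z8; omega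
        have kk204 : (Q + i2 + l2 + 1) ≤ (n + i3) := by clear * - b0 b1 b2 b3 b5 y22 z12 z8; linarith
        have kk205 : (k + l) ≤ (i2 + l2) := by clear * - y21; omega
        have kk206 : (n) ≤ (k + l + l2 + 2) := by clear * - y13 y14; omega
        have kk207 : (2 * k + l) ≤ (2 * i2 + l2) := by clear * - y21 z12; omega
        have kk208 : (n + i2) ≤ (2 * k + 2 * l + 2) := by clear * - y13 y14 y22; omega
        clear * - al b c D2 kk201 kk202 kk203 kk204 kk205 kk206 kk207 kk208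
        exact al.ubQ (i + 2 * i2 + l2 - 2 * k - l - i3) (by omega) (by omega) fun t h1 h2 => (cE (sh al 1 t (t + (n)) (by omega)) (cE (qf (show Par W (i3 + 1) (n + i3 - i2 - l2 - 1) (2 * i2 + l2 - k - l - i3) from fun t h1 h2 => (cE (sh al (-1) t (t + (-n)) (by omega)) (cE (pb D2 al (-1) (t + (-n)) (t + (i2 + l2 - i3 + 1)) (by omega)) (pb c al 0 (t + (i2 + l2 - i3 + 1)) (t + (2 * i2 + l2 - k - l - i3)) (by omega))))) al 1 (t + (n)) (t + (2 * i2 + l2 - k - l - i3)) (by omega)) (pb b al 0 (t + (2 * i2 + l2 - k - l - i3)) (t + (i + 2 * i2 + l2 - 2 * k - l - i3)) (by omega))))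

theorem yf2_5 {W : ℤ → G} {n Q i j k l i2 l2 i3 : ℤ} (al : AL W n Q)
    (hy : (0) ≤ (i) ∧ (i) ≤ (j) ∧ (j + 1) ≤ (Q) ∧ (Q) ≤ (k) ∧ (k + 1) ≤ (n) ∧ (Q) ≤ (i + l + 1) ∧ (k + l + 2) ≤ (n) ∧ (Q) ≤ (i2) ∧ (i2) ≤ (i + l + 1) ∧ (Q) ≤ (i2 + l2 + 1) ∧ (i2 + l2 + 2) ≤ (n) ∧ (n) ≤ (k + l + l2 + 2) ∧ (k + l + l2 + 3) ≤ (n + Q) ∧ (0) ≤ (i3) ∧ (n + i3) ≤ (k + l + l2 + 2) ∧ (k + i2 + l2 + 2) ≤ (n + j + i3) ∧ (j + i3 + 1) ≤ (k) ∧ (k + i2 + l2 + 2) ≤ (n + i3) ∧ (i + l + 1) ≤ (i2 + l2) ∧ (i) ≤ (i3) ∧ (i3) ≤ (i) ∧ (k + l) ≤ (i2 + l2) ∧ (i2 + l2) ≤ (k + l))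
    (a1 : Par W (0) (j) (k - j))
    (a2 : Par W (Q + j - k) (j) (k - j))
    (s1 : Ant W (0) (i) (i + j))
    (s2 : Ant W (j + 1) (Q) (i + j))
    (b : Par W (i + 1) (i + l + 1) (k - i))
    (tt : Ant W (Q) (i2) (i + l + i2 + 1))
    (c : Par W (i2 + 1) (i2 + l2 + 1) (k + l - i2 + 1))
    (u1 : Ant W (0) (i3) (k + l + l2 + i3 - n + 2))
    (u2 : Ant W (k + l + l2 - n + 3) (Q) (k + l + l2 + i3 - n + 2))
    (D1 : Par W (i3 + 1) (Q) (i2 + l2 - i3 + 1))
    (D2 : Par W (i2 + l2 + 2) (n) (i3 - i2 - l2 - 1))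
    {L : ℤ} (mx : ∀ a b g, 0 < g → g < n → Par W a b g → b - a ≤ L)
    (hL : L ≤ (n - j - 3) ∧ L ≤ (n + Q - k - 3) ∧ L ≤ (n - l - 3) ∧ L ≤ (n + i - k - 2) ∧ L ≤ (n - l2 - 3) ∧ L ≤ (n + i3 - Q - 2) ∧ L ≤ (i2 + l2 - 1) ∧ L ≤ (n + i2 - k - l - 3))
    (bd0 : Bd W n L (j) (i) (k))
    (bd2 : Bd W n L (k + l + l2 - n + 2) (i3) (i2 + l2 + 1))
    (n1 : Nd W (j) (i) (k))
    (n2 : Nd W (i + l + 1) (i2) (k + l + 1))
    (n3 : Nd W (k + l + l2 - n + 2) (i3) (i2 + l2 + 1))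
    (b0 : (2 * l + 3) ≤ (n))
    (b1 : (n + 2 * Q + i2) ≤ (i + k + 2 * l + l2 + i3 + 4))
    (b2 : (i + 2 * k + 2 * l + 3) ≤ (n + 2 * Q + j))
    (b3 : (2 * i + j + 1) ≤ (k))
    (b4 : (2 * n + 2 * Q + i3) ≤ (k + l + 2 * i2 + 3 * l2 + 5)) : False := by
  have ev := al.ev
  obtain ⟨y0, y1, y2, y3, y4, y5, y6, y7, y8, y9, y10, y11, y12, y13, y14, y15, y16, y17, y18, y19, y20, y21, y22⟩ := id hy
  have n1p := And.intro n1.p1 n1.p2
  have n2p := And.intro n2.p1 n2.p2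
  have n3p := And.intro n3.p1 n3.p2
  by_cases z7 : (j + 2 * k + 2 * l + 4) ≤ (n + i + 2 * i2)
  · exact yf2_6 al hy a1 a2 s1 s2 b tt c u1 u2 D1 D2 mx hL bd0 bd2 n1 n2 n3 (by clear * - b0; omega) (by clear * - b1; omega) (by clear * - b2; omega) (by clear * - b3; omega) (by clear * - b4; omega) (by clear * - z7; omega)
  · exact yf2_7 al hy a1 a2 s1 s2 b tt c u1 u2 D1 D2 mx hL bd0 bd2 n1 n2 n3 (by clear * - b0; omega) (by clear * - b1; omega) (by clear * - b3; omega) (by clear * - b4; omega) (by clear * - z7; omega)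

theorem yf2_4 {W : ℤ → G} {n Q i j k l i2 l2 i3 : ℤ} (al : AL W n Q)
    (hy : (0) ≤ (i) ∧ (i) ≤ (j) ∧ (j + 1) ≤ (Q) ∧ (Q) ≤ (k) ∧ (k + 1) ≤ (n) ∧ (Q) ≤ (i + l + 1) ∧ (k + l + 2) ≤ (n) ∧ (Q) ≤ (i2) ∧ (i2) ≤ (i + l + 1) ∧ (Q) ≤ (i2 + l2 + 1) ∧ (i2 + l2 + 2) ≤ (n) ∧ (n) ≤ (k + l + l2 + 2) ∧ (k + l + l2 + 3) ≤ (n + Q) ∧ (0) ≤ (i3) ∧ (n + i3) ≤ (k + l + l2 + 2) ∧ (k + i2 + l2 + 2) ≤ (n + j + i3) ∧ (j + i3 + 1) ≤ (k) ∧ (k + i2 + l2 + 2) ≤ (n + i3) ∧ (i + l + 1) ≤ (i2 + l2) ∧ (i) ≤ (i3) ∧ (i3) ≤ (i) ∧ (k + l) ≤ (i2 + l2) ∧ (i2 + l2) ≤ (k + l))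
    (a1 : Par W (0) (j) (k - j))
    (a2 : Par W (Q + j - k) (j) (k - j))
    (s1 : Ant W (0) (i) (i + j))
    (s2 : Ant W (j + 1) (Q) (i + j))
    (b : Par W (i + 1) (i + l + 1) (k - i))
    (tt : Ant W (Q) (i2) (i + l + i2 + 1))
    (c : Par W (i2 + 1) (i2 + l2 + 1) (k + l - i2 + 1))
    (u1 : Ant W (0) (i3) (k + l + l2 + i3 - n + 2))
    (u2 : Ant W (k + l + l2 - n + 3) (Q) (k + l + l2 + i3 - n + 2))
    (D1 : Par W (i3 + 1) (Q) (i2 + l2 - i3 + 1))
    (D2 : Par W (i2 + l2 + 2) (n) (i3 - i2 - l2 - 1))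
    {L : ℤ} (mx : ∀ a b g, 0 < g → g < n → Par W a b g → b - a ≤ L)
    (hL : L ≤ (n - j - 3) ∧ L ≤ (n + Q - k - 3) ∧ L ≤ (n - l - 3) ∧ L ≤ (n + i - k - 2) ∧ L ≤ (n - l2 - 3) ∧ L ≤ (n + i3 - Q - 2) ∧ L ≤ (i2 + l2 - 1) ∧ L ≤ (n + i2 - k - l - 3))
    (bd0 : Bd W n L (j) (i) (k))
    (bd2 : Bd W n L (k + l + l2 - n + 2) (i3) (i2 + l2 + 1))
    (n1 : Nd W (j) (i) (k))
    (n2 : Nd W (i + l + 1) (i2) (k + l + 1))
    (n3 : Nd W (k + l + l2 - n + 2) (i3) (i2 + l2 + 1))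
    (b0 : (2 * l + 3) ≤ (n))
    (b1 : (n + 2 * Q + i2) ≤ (i + k + 2 * l + l2 + i3 + 4))
    (b2 : (i + 2 * k + 2 * l + 3) ≤ (n + 2 * Q + j))
    (b3 : (2 * i + j + 1) ≤ (k)) : False := by
  have ev := al.ev
  obtain ⟨y0, y1, y2, y3, y4, y5, y6, y7, y8, y9, y10, y11, y12, y13, y14, y15, y16, y17, y18, y19, y20, y21, y22⟩ := id hy
  have n1p := And.intro n1.p1 n1.p2
  have n2p := And.intro n2.p1 n2.p2
  have n3p := And.intro n3.p1 n3.p2
  by_cases z6 : (k + l + 2 * i2 + 3 * l2 + 6) ≤ (2 * n + 2 * Q + i3)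
  · have kk74 : (k + l + i3 + 1) ≤ (2 * i2 + l2) := by clear * - y14 y21 y7 z6; omega
    have kk75 : (k + l + 2 * i2 + 3 * l2 + 6) ≤ (2 * n + 2 * Q + i3) := by clear * - z6; omega
    have kk76 : (2 * i2 + l2 + i3 + 2) ≤ (2 * Q + k + l) := by clear * - y14 z6; omega
    have kk77 : (2 * i + l + 2 * i2 + 3 * l2 + i3 + 6) ≤ (2 * n + 2 * Q + k) := by clear * - b0 b2 b3 y18 y20 y22 y7 z6; linarith
    have kk78 : (k + l) ≤ (i2 + l2) := by clear * - y21; omega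
    have kk79 : (n) ≤ (k + l + l2 + 2) := by clear * - y13 y14; omega
    have kk80 : (Q + k) ≤ (i2 + l2 + i3 + 1) := by clear * - b1 y14 y19 y21 y7 z6; omega
    have kk81 : (Q) ≤ (l2 + i3 + 1) := by clear * - b1 y13 y17 y18 y20; omega
    have kk82 : (n + i2 + i3) ≤ (2 * k + 2 * l + 2) := by clear * - y14 y22; omega
    have kk83 : (n + i3) ≤ (k + l + l2 + 2) := by clear * - y14; omega
    have kk84 : (i + l + l2 + 2) ≤ (n) := by clear * - b3 y1 y20 y21 y3 y7 z6; linarith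
    have kk85 : (Q + k) ≤ (i + i2 + l2 + 1) := by clear * - b1 y14 y21 y7 z6; omega
    have r86 : (i + i2 + l2 + i3 - 2 * n - k + 1) % 2 = 0 := by clear * - ev n1p n2p n3p; omega
    have r87 : (2 * i2 + l2 - k - l - i3) % 2 = 0 := by clear * - ev n1p n2p n3p; omega
    clear * - al b c u2 D2 kk74 kk75 kk76 kk77 kk78 kk79 kk80 kk81 kk82 kk83 kk84 kk85 r86 r87
    exact midP al (2 * i2 + l2 - k - l - i3) (i + i2 + l2 + i3 - 2 * n - k + 1) (i + i2 + l2 + i3 - n - Q - k + 2) (i3 - n + 1) (i2 - k - l - 1) (by omega) (fun t h1 h2 => (cE (cI (cE (qf b al (-1) t (t + (n + k - i)) (by omega)) (qf c al 0 (t + (n + k - i)) (t + (n + 2 * k + l - i - i2 + 1)) (by omega))) (ab u2 al 1 (t + (n + 2 * k + l - i - i2 + 1)) ((i + i2 + l2 + i3 - n - k + 1) - t) (by omega))) (sh al (-1) ((i + i2 + l2 + i3 - n - k + 1) - t) ((i + i2 + l2 + i3 - 2 * n - k + 1) - t) (by omega)))) (fun t h1 h2 => (cE (qf (show Par W (i3 + 1) (n + i3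 - i2 - l2 - 1) (2 * i2 + l2 - k - l - i3) from fun t h1 h2 => (cE (sh al (-1) t (t + (-n)) (by omega)) (cE (pb D2 al (-1) (t + (-n)) (t + (i2 + l2 - i3 + 1)) (by omega)) (pb c al 0 (t + (i2 + l2 - i3 + 1)) (t + (2 * i2 + l2 - k - l - i3)) (by omega))))) al (-1) t (t + (n + 2 * i2 + l2 - k - l - i3)) (by omega)) (sh al (-1) (t + (n + 2 * i2 + l2 - k - l - i3)) (t + (2 * i2 + l2 - k - l - i3)) (by omega))))
  · exact yf2_5 al hy a1 a2 s1 s2 b tt c u1 u2 D1 D2 mx hL bd0 bd2 n1 n2 n3 (by clear * - b0; omega) (by clear * - b1; omega) (by clear * - b2; omega) (by clear * - b3; omega) (by clear * - z6; omega)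

theorem yf2_3 {W : ℤ → G} {n Q i j k l i2 l2 i3 : ℤ} (al : AL W n Q)
    (hy : (0) ≤ (i) ∧ (i) ≤ (j) ∧ (j + 1) ≤ (Q) ∧ (Q) ≤ (k) ∧ (k + 1) ≤ (n) ∧ (Q) ≤ (i + l + 1) ∧ (k + l + 2) ≤ (n) ∧ (Q) ≤ (i2) ∧ (i2) ≤ (i + l + 1) ∧ (Q) ≤ (i2 + l2 + 1) ∧ (i2 + l2 + 2) ≤ (n) ∧ (n) ≤ (k + l + l2 + 2) ∧ (k + l + l2 + 3) ≤ (n + Q) ∧ (0) ≤ (i3) ∧ (n + i3) ≤ (k + l + l2 + 2) ∧ (k + i2 + l2 + 2) ≤ (n + j + i3) ∧ (j + i3 + 1) ≤ (k) ∧ (k + i2 + l2 + 2) ≤ (n + i3) ∧ (i + l + 1) ≤ (i2 + l2) ∧ (i) ≤ (i3) ∧ (i3) ≤ (i) ∧ (k + l) ≤ (i2 + l2) ∧ (i2 + l2) ≤ (k + l))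
    (a1 : Par W (0) (j) (k - j))
    (a2 : Par W (Q + j - k) (j) (k - j))
    (s1 : Ant W (0) (i) (i + j))
    (s2 : Ant W (j + 1) (Q) (i + j))
    (b : Par W (i + 1) (i + l + 1) (k - i))
    (tt : Ant W (Q) (i2) (i + l + i2 + 1))
    (c : Par W (i2 + 1) (i2 + l2 + 1) (k + l - i2 + 1))
    (u1 : Ant W (0) (i3) (k + l + l2 + i3 - n + 2))
    (u2 : Ant W (k + l + l2 - n + 3) (Q) (k + l + l2 + i3 - n + 2))
    (D1 : Par W (i3 + 1) (Q) (i2 + l2 - i3 + 1))
    (D2 : Par W (i2 + l2 + 2) (n) (i3 - i2 - l2 - 1))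
    {L : ℤ} (mx : ∀ a b g, 0 < g → g < n → Par W a b g → b - a ≤ L)
    (hL : L ≤ (n - j - 3) ∧ L ≤ (n + Q - k - 3) ∧ L ≤ (n - l - 3) ∧ L ≤ (n + i - k - 2) ∧ L ≤ (n - l2 - 3) ∧ L ≤ (n + i3 - Q - 2) ∧ L ≤ (i2 + l2 - 1) ∧ L ≤ (n + i2 - k - l - 3))
    (bd0 : Bd W n L (j) (i) (k))
    (bd2 : Bd W n L (k + l + l2 - n + 2) (i3) (i2 + l2 + 1))
    (n1 : Nd W (j) (i) (k))
    (n2 : Nd W (i + l + 1) (i2) (k + l + 1))
    (n3 : Nd W (k + l + l2 - n + 2) (i3) (i2 + l2 + 1))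
    (b0 : (2 * l + 3) ≤ (n))
    (b1 : (n + 2 * Q + i2) ≤ (i + k + 2 * l + l2 + i3 + 4))
    (b2 : (i + 2 * k + 2 * l + 3) ≤ (n + 2 * Q + j)) : False := by
  have ev := al.ev
  obtain ⟨y0, y1, y2, y3, y4, y5, y6, y7, y8, y9, y10, y11, y12, y13, y14, y15, y16, y17, y18, y19, y20, y21, y22⟩ := id hy
  have n1p := And.intro n1.p1 n1.p2
  have n2p := And.intro n2.p1 n2.p2
  have n3p := And.intro n3.p1 n3.p2
  by_cases z5 : (k) ≤ (2 * i + j)
  · have kk67 : (j + 1) ≤ (k) := by clear * - y16 y19 z5; omega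
    have kk68 : (k) ≤ (2 * i + j) := by clear * - z5; omega
    have kk69 : (k) ≤ (2 * i + 3 * j + 2) := by clear * - b2 y14 y19 y22 y3 y7 z5; linarith
    have kk70 : (0) ≤ (j + k) := by clear * - y18 y22 z5; omega
    have kk71 : (i + j + 1) ≤ (k) := by clear * - y16 y19; omega
    have r72 : (i + j - 2 * n) % 2 = 0 := by clear * - ev n1p n2p n3p; omega
    have r73 : (k - j) % 2 = 0 := by clear * - ev n1p n2p n3p; omega
    clear * - al a1 s1 kk67 kk68 kk69 kk70 kk71 r72 r73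
    exact midP al (k - j) (i + j - 2 * n) (-n) (-n) (k - n) (by omega) (fun t h1 h2 => (cE (qa s1 al (-1) t ((i + j - n) - t) (by omega)) (sh al (-1) ((i + j - n) - t) ((i + j - 2 * n) - t) (by omega)))) (fun t h1 h2 => (cE (qf a1 al (-1) t (t + (n + k - j)) (by omega)) (sh al (-1) (t + (n + k - j)) (t + (k - j)) (by omega))))
  · exact yf2_4 al hy a1 a2 s1 s2 b tt c u1 u2 D1 D2 mx hL bd0 bd2 n1 n2 n3 (by clear * - b0; omega) (by clear * - b1; omega) (by clear * - b2; omega) (by clear * - z5; omega)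

theorem yf2_2 {W : ℤ → G} {n Q i j k l i2 l2 i3 : ℤ} (al : AL W n Q)
    (hy : (0) ≤ (i) ∧ (i) ≤ (j) ∧ (j + 1) ≤ (Q) ∧ (Q) ≤ (k) ∧ (k + 1) ≤ (n) ∧ (Q) ≤ (i + l + 1) ∧ (k + l + 2) ≤ (n) ∧ (Q) ≤ (i2) ∧ (i2) ≤ (i + l + 1) ∧ (Q) ≤ (i2 + l2 + 1) ∧ (i2 + l2 + 2) ≤ (n) ∧ (n) ≤ (k + l + l2 + 2) ∧ (k + l + l2 + 3) ≤ (n + Q) ∧ (0) ≤ (i3) ∧ (n + i3) ≤ (k + l + l2 + 2) ∧ (k + i2 + l2 + 2) ≤ (n + j + i3) ∧ (j + i3 + 1) ≤ (k) ∧ (k + i2 + l2 + 2) ≤ (n + i3) ∧ (i + l + 1) ≤ (i2 + l2) ∧ (i) ≤ (i3) ∧ (i3) ≤ (i) ∧ (k + l) ≤ (i2 + l2) ∧ (i2 + l2) ≤ (k + l))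
    (a1 : Par W (0) (j) (k - j))
    (a2 : Par W (Q + j - k) (j) (k - j))
    (s1 : Ant W (0) (i) (i + j))
    (s2 : Ant W (j + 1) (Q) (i + j))
    (b : Par W (i + 1) (i + l + 1) (k - i))
    (tt : Ant W (Q) (i2) (i + l + i2 + 1))
    (c : Par W (i2 + 1) (i2 + l2 + 1) (k + l - i2 + 1))
    (u1 : Ant W (0) (i3) (k + l + l2 + i3 - n + 2))
    (u2 : Ant W (k + l + l2 - n + 3) (Q) (k + l + l2 + i3 - n + 2))
    (D1 : Par W (i3 + 1) (Q) (i2 + l2 - i3 + 1))
    (D2 : Par W (i2 + l2 + 2) (n) (i3 - i2 - l2 - 1))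
    {L : ℤ} (mx : ∀ a b g, 0 < g → g < n → Par W a b g → b - a ≤ L)
    (hL : L ≤ (n - j - 3) ∧ L ≤ (n + Q - k - 3) ∧ L ≤ (n - l - 3) ∧ L ≤ (n + i - k - 2) ∧ L ≤ (n - l2 - 3) ∧ L ≤ (n + i3 - Q - 2) ∧ L ≤ (i2 + l2 - 1) ∧ L ≤ (n + i2 - k - l - 3))
    (bd0 : Bd W n L (j) (i) (k))
    (bd2 : Bd W n L (k + l + l2 - n + 2) (i3) (i2 + l2 + 1))
    (n1 : Nd W (j) (i) (k))
    (n2 : Nd W (i + l + 1) (i2) (k + l + 1))
    (n3 : Nd W (k + l + l2 - n + 2) (i3) (i2 + l2 + 1))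
    (b0 : (2 * l + 3) ≤ (n))
    (b1 : (n + 2 * Q + i2) ≤ (i + k + 2 * l + l2 + i3 + 4)) : False := by
  have ev := al.ev
  obtain ⟨y0, y1, y2, y3, y4, y5, y6, y7, y8, y9, y10, y11, y12, y13, y14, y15, y16, y17, y18, y19, y20, y21, y22⟩ := id hy
  have n1p := And.intro n1.p1 n1.p2
  have n2p := And.intro n2.p1 n2.p2
  have n3p := And.intro n3.p1 n3.p2
  by_cases z3 : (n + 2 * Q + j) ≤ (i + 2 * k + 2 * l + 2)
  · by_cases z4 : (n + i + j) ≤ (2 * k + 2 * l2)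
    · by_cases v2 : (i + l + 1) ≤ (Q + l2)
      · by_cases v3 : (n + Q + j) ≤ (i + k + 2 * l + 3)
        · have kk31 : (n + 2 * Q + j) ≤ (i + 2 * k + 2 * l + 2) := by clear * - z3; omega
          have kk32 : (i + 2 * l + 3) ≤ (n + j) := by clear * - b0 y1; omega
          have kk33 : (i2) ≤ (i + l + 1) := by clear * - v2 v3 y15 y20; omega
          have kk34 : (i + 2 * k + 2 * l + 3) ≤ (n + Q + j + i2) := by clear * - y1 y12 y21; omega
          have kk35 : (i + l + 1) ≤ (Q + l2) := by clear * - v2; omega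
          have kk36 : (n + Q + j) ≤ (i + k + 2 * l + 3) := by clear * - v3; omega
          have r37 : (i + 2 * k + 2 * l - 3 * n - j + 2) % 2 = 0 := by clear * - ev n1p n2p n3p; omega
          clear * - al a2 tt c kk31 kk32 kk33 kk34 kk35 kk36 r37
          obtain ⟨t, ht⟩ : ∃ t, 2 * t = (i + 2 * k + 2 * l - 3 * n - j + 2) := ⟨(i + 2 * k + 2 * l - 3 * n - j + 2) / 2, by omega⟩
          exact al.ninv t (cE (cI (cE (pb a2 al (-1) t (t + (n + j - k)) (by omega)) (pb c al (-1) (t + (n + j - k)) (t + (2 * n + j + i2 - 2 * k - l - 1)) (by omega))) (ab tt al 0 (t + (2 * n + j + i2 - 2 * k - l - 1)) ((i + 2 * k + 2 * l - 2 * n - j + 2) - t) (by omega))) (sh al (-1) ((i + 2 * k + 2 * l - 2 * n - j + 2) - t) t (by omega)))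
        · have kk38 : (n + 2 * Q + j) ≤ (i + 2 * k + 2 * l + 2) := by clear * - z3; omega
          have kk39 : (n + 2 * Q + j) ≤ (i + 2 * k + 2 * l + 3) := by clear * - z3; omega
          have kk40 : (i2) ≤ (i + l + 1) := by clear * - y13 y14 y17 y20; omega
          have kk41 : (i + 2 * k + 2 * l + 3) ≤ (n + Q + j + i2) := by clear * - y1 y12 y21; omega
          have kk42 : (i + l + 1) ≤ (Q + l2) := by clear * - v2; omega
          have kk43 : (i + k + 2 * l + 3) ≤ (n + Q + j) := by clear * - v3; omega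
          have r44 : (i + 2 * k + 2 * l - 3 * n - j + 2) % 2 = 0 := by clear * - ev n1p n2p n3p; omega
          clear * - al a2 tt c kk38 kk39 kk40 kk41 kk42 kk43 r44
          obtain ⟨t, ht⟩ : ∃ t, 2 * t = (i + 2 * k + 2 * l - 3 * n - j + 2) := ⟨(i + 2 * k + 2 * l - 3 * n - j + 2) / 2, by omega⟩
          exact al.ninv t (cE (cI (cE (pb a2 al (-1) t (t + (n + j - k)) (by omega)) (pb c al (-1) (t + (n + j - k)) (t + (2 * n + j + i2 - 2 * k - l - 1)) (by omega))) (ab tt al 0 (t + (2 * n + j + i2 - 2 * k - l - 1)) ((i + 2 * k + 2 * l - 2 * n - j + 2) - t) (by omega))) (sh al (-1) ((i + 2 * k + 2 * l - 2 * n - j + 2) - t) t (by omega)))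
      · by_cases v4 : (n + j) ≤ (k + l + l2 + 2)
        · have kk45 : (n + 2 * Q + j) ≤ (i + 2 * k + 2 * l + 2) := by clear * - v2 z4; omega
          have kk46 : (i + 2 * l + 3) ≤ (n + j) := by clear * - b0 y1; omega
          have kk47 : (i2) ≤ (i + l + 1) := by clear * - v4 y15 y20; omega
          have kk48 : (i + 2 * k + 2 * l + 3) ≤ (n + Q + j + i2) := by clear * - y1 y12 y21; omega
          have kk49 : (n + j) ≤ (k + l + l2 + 2) := by clear * - v4; omega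
          have kk50 : (n + Q + j) ≤ (i + k + 2 * l + 3) := by clear * - v2 v4; omega
          have r51 : (i + 2 * k + 2 * l - 3 * n - j + 2) % 2 = 0 := by clear * - ev n1p n2p n3p; omega
          clear * - al a2 tt c kk45 kk46 kk47 kk48 kk49 kk50 r51
          obtain ⟨t, ht⟩ : ∃ t, 2 * t = (i + 2 * k + 2 * l - 3 * n - j + 2) := ⟨(i + 2 * k + 2 * l - 3 * n - j + 2) / 2, by omega⟩
          exact al.ninv t (cE (cI (cE (pb a2 al (-1) t (t + (n + j - k)) (by omega)) (pb c al (-1) (t + (n + j - k)) (t + (2 * n + j + i2 - 2 * k - l - 1)) (by omega))) (ab tt al 0 (t + (2 * n + j + i2 - 2 * k - l - 1)) ((i + 2 * k + 2 * l - 2 * n - j + 2) - t) (by omega))) (sh al (-1) ((i + 2 * k + 2 * l - 2 * n - j + 2) - t) t (by omega)))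
        · have kk52 : (n + 2 * Q + j) ≤ (i + 2 * k + 2 * l + 2) := by clear * - v2 z4; omega
          have kk53 : (n + i + j) ≤ (2 * k + 2 * l2 + 1) := by clear * - z4; omega
          have kk54 : (i2) ≤ (i + l + 1) := by clear * - y13 y14 y17 y20; omega
          have kk55 : (i + 2 * k + 2 * l + 3) ≤ (n + Q + j + i2) := by clear * - v4 y12 y14 y19 y21; omega
          have kk56 : (Q + l2) ≤ (i + l + 1) := by clear * - v2; omega
          have kk57 : (k + l + l2 + 2) ≤ (n + j) := by clear * - v4; omega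
          have r58 : (i + 2 * k + 2 * l - 3 * n - j + 2) % 2 = 0 := by clear * - ev n1p n2p n3p; omega
          clear * - al a2 tt c kk52 kk53 kk54 kk55 kk56 kk57 r58
          obtain ⟨t, ht⟩ : ∃ t, 2 * t = (i + 2 * k + 2 * l - 3 * n - j + 2) := ⟨(i + 2 * k + 2 * l - 3 * n - j + 2) / 2, by omega⟩
          exact al.ninv t (cE (cI (cE (pb a2 al (-1) t (t + (n + j - k)) (by omega)) (pb c al (-1) (t + (n + j - k)) (t + (2 * n + j + i2 - 2 * k - l - 1)) (by omega))) (ab tt al 0 (t + (2 * n + j + i2 - 2 * k - l - 1)) ((i + 2 * k + 2 * l - 2 * n - j + 2) - t) (by omega))) (sh al (-1) ((i + 2 * k + 2 * l - 2 * n - j + 2) - t) t (by omega)))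
    · have kk59 : (i + 1) ≤ (k) := by clear * - y18 y22; omega
      have kk60 : (i + 2) ≤ (k) := by clear * - b0 y12 y14 y19 z3 z4; omega
      have kk61 : (i) ≤ (k + 2 * l) := by clear * - b0 y13 y14 y16 y17 y19 y21 z4; linarith
      have kk62 : (i + 2 * i2) ≤ (3 * k + 2 * l) := by clear * - y13 y14 y17 y18 y20 y22; omega
      have kk63 : (k) ≤ (i2) := by clear * - y13 y14 y16 y19 y21 z4; omega
      have kk64 : (Q + k) ≤ (i + i2 + 1) := by clear * - y21 z3 z4; omega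
      have r65 : (i + l + i2 - 2 * n + 1) % 2 = 0 := by clear * - ev n1p n2p n3p; omega
      have r66 : (k - i) % 2 = 0 := by clear * - ev n1p n2p n3p; omega
      clear * - al b tt kk59 kk60 kk61 kk62 kk63 kk64 r65 r66
      exact midP al (k - i) (i + l + i2 - 2 * n + 1) (i + i2 - n - k + 1) (i - n + 1) (k + l - n + 1) (by omega) (fun t h1 h2 => (cE (qa tt al (-1) t ((i + l + i2 - n + 1) - t) (by omega)) (sh al (-1) ((i + l + i2 - n + 1) - t) ((i + l + i2 - 2 * n + 1) - t) (by omega)))) (fun t h1 h2 => (cE (qf b al (-1) t (t + (n + k - i)) (by omega)) (sh al (-1) (t + (n + k - i)) (t + (k - i)) (by omega))))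
  · exact yf2_3 al hy a1 a2 s1 s2 b tt c u1 u2 D1 D2 mx hL bd0 bd2 n1 n2 n3 (by clear * - b0; omega) (by clear * - b1; omega) (by clear * - z3; omega)

theorem yf2_1 {W : ℤ → G} {n Q i j k l i2 l2 i3 : ℤ} (al : AL W n Q)
    (hy : (0) ≤ (i) ∧ (i) ≤ (j) ∧ (j + 1) ≤ (Q) ∧ (Q) ≤ (k) ∧ (k + 1) ≤ (n) ∧ (Q) ≤ (i + l + 1) ∧ (k + l + 2) ≤ (n) ∧ (Q) ≤ (i2) ∧ (i2) ≤ (i + l + 1) ∧ (Q) ≤ (i2 + l2 + 1) ∧ (i2 + l2 + 2) ≤ (n) ∧ (n) ≤ (k + l + l2 + 2) ∧ (k + l + l2 + 3) ≤ (n + Q) ∧ (0) ≤ (i3) ∧ (n + i3) ≤ (k + l + l2 + 2) ∧ (k + i2 + l2 + 2) ≤ (n + j + i3) ∧ (j + i3 + 1) ≤ (k) ∧ (k + i2 + l2 + 2) ≤ (n + i3) ∧ (i + l + 1) ≤ (i2 + l2) ∧ (i) ≤ (i3) ∧ (i3) ≤ (i) ∧ (k + l) ≤ (i2 + l2) ∧ (i2 + l2) ≤ (k + l))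
    (a1 : Par W (0) (j) (k - j))
    (a2 : Par W (Q + j - k) (j) (k - j))
    (s1 : Ant W (0) (i) (i + j))
    (s2 : Ant W (j + 1) (Q) (i + j))
    (b : Par W (i + 1) (i + l + 1) (k - i))
    (tt : Ant W (Q) (i2) (i + l + i2 + 1))
    (c : Par W (i2 + 1) (i2 + l2 + 1) (k + l - i2 + 1))
    (u1 : Ant W (0) (i3) (k + l + l2 + i3 - n + 2))
    (u2 : Ant W (k + l + l2 - n + 3) (Q) (k + l + l2 + i3 - n + 2))
    (D1 : Par W (i3 + 1) (Q) (i2 + l2 - i3 + 1))
    (D2 : Par W (i2 + l2 + 2) (n) (i3 - i2 - l2 - 1))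
    {L : ℤ} (mx : ∀ a b g, 0 < g → g < n → Par W a b g → b - a ≤ L)
    (hL : L ≤ (n - j - 3) ∧ L ≤ (n + Q - k - 3) ∧ L ≤ (n - l - 3) ∧ L ≤ (n + i - k - 2) ∧ L ≤ (n - l2 - 3) ∧ L ≤ (n + i3 - Q - 2) ∧ L ≤ (i2 + l2 - 1) ∧ L ≤ (n + i2 - k - l - 3))
    (bd0 : Bd W n L (j) (i) (k))
    (bd2 : Bd W n L (k + l + l2 - n + 2) (i3) (i2 + l2 + 1))
    (n1 : Nd W (j) (i) (k))
    (n2 : Nd W (i + l + 1) (i2) (k + l + 1))
    (n3 : Nd W (k + l + l2 - n + 2) (i3) (i2 + l2 + 1))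
    (b0 : (2 * l + 3) ≤ (n)) : False := by
  have ev := al.ev
  obtain ⟨y0, y1, y2, y3, y4, y5, y6, y7, y8, y9, y10, y11, y12, y13, y14, y15, y16, y17, y18, y19, y20, y21, y22⟩ := id hy
  have n1p := And.intro n1.p1 n1.p2
  have n2p := And.intro n2.p1 n2.p2
  have n3p := And.intro n3.p1 n3.p2
  by_cases z2 : (i + k + 2 * l + l2 + i3 + 5) ≤ (n + 2 * Q + i2)
  · by_cases v1 : (i + k + 2 * l + 2) ≤ (n + i2)
    · have kk4 : (k + i2 + l2 + 2) ≤ (n + i + i3) := by clear * - y13 y17 y20; omega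
      have kk5 : (i + k + 2 * l + l2 + i3 + 5) ≤ (n + 2 * Q + i2) := by clear * - z2; omega
      have kk6 : (3 * k + 2 * l + 3) ≤ (n + i + i2 + l2 + i3) := by clear * - y13 y17 y20 y21 ev n1p n2p n3p; omega
      have kk7 : (3 * i2 + 3 * l2 + 3) ≤ (n + i + k + 2 * l + i3) := by clear * - y13 y17 y20 y22 ev n1p n2p n3p; omega
      have kk8 : (i + l) ≤ (i2 + l2) := by clear * - y18; omega
      have kk9 : (i + k + l) ≤ (2 * i2 + l2) := by clear * - y13 y14 y17 y19 y21 y7 z2; linarith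
      have kk10 : (i2 + l2) ≤ (k + l) := by clear * - y22; omega
      have kk11 : (i + l + l2 + 2) ≤ (n) := by clear * - v1 y22; omega
      have kk12 : (k + l) ≤ (i2 + l2) := by clear * - y21; omega
      have kk13 : (2 * i2 + l2) ≤ (i + k + 2 * l + 1) := by clear * - y13 y14 y17 y20 y22; omega
      have kk14 : (k) ≤ (i + l2 + 1) := by clear * - y13 y14 y17 y20 y21; omega
      have r15 : (k + l + l2 + i3 - n + 2) % 2 = 0 := by clear * - ev n1p n2p n3p; omega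
      have r16 : (n + i + i3 - k - i2 - l2 - 1) % 2 = 0 := by clear * - ev n1p n2p n3p; omega
      clear * - al b c u2 D2 kk4 kk5 kk6 kk7 kk8 kk9 kk10 kk11 kk12 kk13 kk14 r15 r16
      exact midP al (n + i + i3 - k - i2 - l2 - 1) (k + l + l2 + i3 - n + 2) (k + l + l2 - n + 3) (2 * k + l - n - i + 2) (i + k + 2 * l + i3 - 2 * i2 - l2 + 1) (by omega) (fun t h1 h2 => (qa u2 al 0 t ((k + l + l2 + i3 - n + 2) - t) (by omega))) (fun t h1 h2 => (cE (cE (cE (pb c al (-1) t (t + (n + i2 - k - l - 1)) (by omega)) (pb b al 0 (t + (n + i2 - k - l - 1)) (t + (n + i + i2 - 2 * k - l - 1)) (by omega))) (qf c al 0 (t + (n + i + i2 - 2 * k - l - 1)) (t + (n + i - k)) (by omega))) (qf D2 al 0 (t + (n + i - k)) (t + (n + i + i3 - k - i2 - l2 - 1)) (by omega))))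
    · have kk17 : (k + i2 + l2 + 2) ≤ (n + i + i3) := by clear * - y13 y17 y20; omega
      have kk18 : (i + k + 2 * l + l2 + i3 + 5) ≤ (n + 2 * Q + i2) := by clear * - z2; omega
      have kk19 : (3 * k + 2 * l + 3) ≤ (n + i + i2 + l2 + i3) := by clear * - b0 v1 y17 y21 y7 z2; omega
      have kk20 : (i + k + 2 * l + i2 + 3 * l2 + 7) ≤ (3 * n + i3) := by clear * - y17 y3 z2; omega
      have kk21 : (i + l) ≤ (i2 + l2) := by clear * - y18; omega
      have kk22 : (i + k + l) ≤ (2 * i2 + l2) := by clear * - b0 v1 y14 y17 y19 y21 y7 z2; linarith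
      have kk23 : (i2 + l2) ≤ (k + l) := by clear * - y22; omega
      have kk24 : (n) ≤ (i + l + l2 + 2) := by clear * - v1 y21; omega
      have kk25 : (n + i2) ≤ (i + k + 2 * l + 2) := by clear * - v1; omega
      have kk26 : (n) ≤ (k + l + l2 + 2) := by clear * - v1 y18; omega
      have kk27 : (i2 + l2 + 1) ≤ (n) := by clear * - y17 y18 y20 y22; omega
      have kk28 : (k) ≤ (i + l2 + 1) := by clear * - v1 y17 y18 y20 y21; omega
      have r29 : (k + l + l2 + i3 - n + 2) % 2 = 0 := by clear * - ev n1p n2p n3p; omega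
      have r30 : (n + i + i3 - k - i2 - l2 - 1) % 2 = 0 := by clear * - ev n1p n2p n3p; omega
      clear * - al b c u2 D2 kk17 kk18 kk19 kk20 kk21 kk22 kk23 kk24 kk25 kk26 kk27 kk28 r29 r30
      exact midP al (n + i + i3 - k - i2 - l2 - 1) (k + l + l2 + i3 - n + 2) (k + l + l2 - n + 3) (2 * k + l - n - i + 2) (n + i3 - i2 - l2 - 1) (by omega) (fun t h1 h2 => (qa u2 al 0 t ((k + l + l2 + i3 - n + 2) - t) (by omega))) (fun t h1 h2 => (cE (cE (cE (pb c al (-1) t (t + (n + i2 - k - l - 1)) (by omega)) (pb b al 0 (t + (n + i2 - k - l - 1)) (t + (n + i + i2 - 2 * k - l - 1)) (by omega))) (qf c al 0 (t + (n + i + i2 - 2 * k - l - 1)) (t + (n + i - k)) (by omega))) (qf D2 al 0 (t + (n + i - k)) (t + (n + i + i3 - k - i2 - l2 - 1)) (by omega))))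
  · exact yf2_2 al hy a1 a2 s1 s2 b tt c u1 u2 D1 D2 mx hL bd0 bd2 n1 n2 n3 (by clear * - b0; omega) (by clear * - z2; omega)

theorem yf2 {W : ℤ → G} {n Q i j k l i2 l2 i3 : ℤ} (al : AL W n Q)
    (hy : (0) ≤ (i) ∧ (i) ≤ (j) ∧ (j + 1) ≤ (Q) ∧ (Q) ≤ (k) ∧ (k + 1) ≤ (n) ∧ (Q) ≤ (i + l + 1) ∧ (k + l + 2) ≤ (n) ∧ (Q) ≤ (i2) ∧ (i2) ≤ (i + l + 1) ∧ (Q) ≤ (i2 + l2 + 1) ∧ (i2 + l2 + 2) ≤ (n) ∧ (n) ≤ (k + l + l2 + 2) ∧ (k + l + l2 + 3) ≤ (n + Q) ∧ (0) ≤ (i3) ∧ (n + i3) ≤ (k + l + l2 + 2) ∧ (k + i2 + l2 + 2) ≤ (n + j + i3) ∧ (j + i3 + 1) ≤ (k) ∧ (k + i2 + l2 + 2) ≤ (n + i3) ∧ (i + l + 1) ≤ (i2 + l2) ∧ (i) ≤ (i3) ∧ (i3) ≤ (i) ∧ (k + l) ≤ (i2 + l2) ∧ (i2 + l2) ≤ (k + l))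
    (a1 : Par W (0) (j) (k - j))
    (a2 : Par W (Q + j - k) (j) (k - j))
    (s1 : Ant W (0) (i) (i + j))
    (s2 : Ant W (j + 1) (Q) (i + j))
    (b : Par W (i + 1) (i + l + 1) (k - i))
    (tt : Ant W (Q) (i2) (i + l + i2 + 1))
    (c : Par W (i2 + 1) (i2 + l2 + 1) (k + l - i2 + 1))
    (u1 : Ant W (0) (i3) (k + l + l2 + i3 - n + 2))
    (u2 : Ant W (k + l + l2 - n + 3) (Q) (k + l + l2 + i3 - n + 2))
    (D1 : Par W (i3 + 1) (Q) (i2 + l2 - i3 + 1))
    (D2 : Par W (i2 + l2 + 2) (n) (i3 - i2 - l2 - 1))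
    {L : ℤ} (mx : ∀ a b g, 0 < g → g < n → Par W a b g → b - a ≤ L)
    (hL : L ≤ (n - j - 3) ∧ L ≤ (n + Q - k - 3) ∧ L ≤ (n - l - 3) ∧ L ≤ (n + i - k - 2) ∧ L ≤ (n - l2 - 3) ∧ L ≤ (n + i3 - Q - 2) ∧ L ≤ (i2 + l2 - 1) ∧ L ≤ (n + i2 - k - l - 3))
    (bd0 : Bd W n L (j) (i) (k))
    (bd2 : Bd W n L (k + l + l2 - n + 2) (i3) (i2 + l2 + 1))
    (n1 : Nd W (j) (i) (k))
    (n2 : Nd W (i + l + 1) (i2) (k + l + 1))
    (n3 : Nd W (k + l + l2 - n + 2) (i3) (i2 + l2 + 1)) : False := by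
  have ev := al.ev
  obtain ⟨y0, y1, y2, y3, y4, y5, y6, y7, y8, y9, y10, y11, y12, y13, y14, y15, y16, y17, y18, y19, y20, y21, y22⟩ := id hy
  have n1p := And.intro n1.p1 n1.p2
  have n2p := And.intro n2.p1 n2.p2
  have n3p := And.intro n3.p1 n3.p2
  by_cases z1 : (n) ≤ (2 * l + 2)
  · have kk1 : (i + 1) ≤ (k) := by clear * - y18 y22; omega
    have kk2 : (k + 1) ≤ (n + i) := by clear * - y13 y17 y18 y20 y22 z1; omega
    have kk3 : (n) ≤ (2 * l + 2) := by clear * - z1; omega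
    clear * - al b mx hL kk1 kk2 kk3
    exact absurd (mx (i - n + 1) (i + l - n + 1) (k - i) (by omega) (by omega) fun t h1 h2 => (cE (qf b al (-1) t (t + (n + k - i)) (by omega)) (sh al (-1) (t + (n + k - i)) (t + (k - i)) (by omega)))) (by omega)
  · exact yf2_1 al hy a1 a2 s1 s2 b tt c u1 u2 D1 D2 mx hL bd0 bd2 n1 n2 n3 (by clear * - z1; omega)

end Pool.Agent.MP_a38735_al.WL
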