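import Pool.Agent.MP_a38735_al.WT

set_option autoImplicit false
set_option linter.unusedVariables false

namespace Pool.Agent.MP_a38735_al.WL

variable {G : Type*} [Group G]

theorem t6_3 {W : ℤ → G} {n Q i j k l i2 l2 i3 : ℤ} (al : AL W n Q)
    (hy : (0) ≤ (i) ∧ (i) ≤ (j) ∧ (j + 1) ≤ (Q) ∧ (Q) ≤ (k) ∧ (k + 1) ≤ (n) ∧ (Q) ≤ (i + l + 1) ∧ (k + l + 2) ≤ (n) ∧ (Q) ≤ (i2) ∧ (i2) ≤ (i + l + 1) ∧ (Q) ≤ (i2 + l2 + 1) ∧ (i2 + l2 + 2) ≤ (n) ∧ (n) ≤ (k + l + l2 + 2) ∧ (k + l + l2 + 3) ≤ (n + Q) ∧ (0) ≤ (i3) ∧ (n + i3) ≤ (k + l + l2 + 2) ∧ (k + i2 + l2 + 2) ≤ (n + j + i3) ∧ (j + i3 + 1) ≤ (k) ∧ (k + i2 + l2 + 2) ≤ (n + i3) ∧ (i + 2 * i2 + 1) ≤ (2 * Q + k) ∧ (i + l + 1) ≤ (i2 + l2) ∧ (k + l + 1) ≤ (i2 + l2) ∧ (2 * k + 2 * l + 3) ≤ (n + i2) ∧ (i) ≤ (i3) ∧ (i3) ≤ (i))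
    (a1 : Par W (0) (j) (k - j))
    (a2 : Par W (Q + j - k) (j) (k - j))
    (s1 : Ant W (0) (i) (i + j))
    (s2 : Ant W (j + 1) (Q) (i + j))
    (b : Par W (i + 1) (i + l + 1) (k - i))
    (tt : Ant W (Q) (i2) (i + l + i2 + 1))
    (c : Par W (i2 + 1) (i2 + l2 + 1) (k + l - i2 + 1))
    (u1 : Ant W (0) (i3) (k + l + l2 + i3 - n + 2))
    (u2 : Ant W (k + l + l2 - n + 3) (Q) (k + l + l2 + i3 - n + 2))
    (D1 : Par W (i3 + 1) (Q) (i2 + l2 - i3 + 1))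
    (D2 : Par W (i2 + l2 + 2) (n) (i3 - i2 - l2 - 1))
    {L : ℤ} (mx : ∀ a b g, 0 < g → g < n → Par W a b g → b - a ≤ L)
    (hL : L ≤ (n - j - 3) ∧ L ≤ (n + Q - k - 3) ∧ L ≤ (n - l - 3) ∧ L ≤ (n + i - k - 2) ∧ L ≤ (n - l2 - 3) ∧ L ≤ (n + i3 - Q - 2) ∧ L ≤ (i2 + l2 - 1) ∧ L ≤ (n + i2 - k - l - 3))
    (bd0 : Bd W n L (j) (i) (k))
    (bd2 : Bd W n L (k + l + l2 - n + 2) (i3) (i2 + l2 + 1))
    (n1 : Nd W (j) (i) (k))
    (n2 : Nd W (i + l + 1) (i2) (k + l + 1))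
    (n3 : Nd W (k + l + l2 - n + 2) (i3) (i2 + l2 + 1))
    (b0 : (2 * l2 + 3) ≤ (n))
    (b1 : (k + 2 * l + i3 + 2) ≤ (2 * i2 + l2))
    (b2 : (n + 2 * Q + i2) ≤ (2 * k + 2 * l + l2 + i3 + 4)) : False := by
  have ev := al.ev
  obtain ⟨y0, y1, y2, y3, y4, y5, y6, y7, y8, y9, y10, y11, y12, y13, y14, y15, y16, y17, y18, y19, y20, y21, y22, y23⟩ := id hy
  have n1p := And.intro n1.p1 n1.p2
  have n2p := And.intro n2.p1 n2.p2
  have n3p := And.intro n3.p1 n3.p2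
  by_cases z4 : (2 * Q + k) ≤ (2 * i + l + i2 + 2)
  · by_cases z5 : (2 * i + l + 2) ≤ (k + i2)
    · by_cases v1 : (i + l + 1) ≤ (k)
      · have kk21 : (k + 1) ≤ (l + i2) := by clear * - y12 y14 y22 z4 ev n1p n2p n3p; omega
        have kk22 : (2 * Q + k) ≤ (2 * i + l + i2 + 2) := by clear * - z4; omega
        have kk23 : (i + l + 1) ≤ (k) := by clear * - v1; omega
        have kk24 : (i + i2 + 1) ≤ (Q + k) := by clear * - y18 z4 z5; omega
        have r25 : (2 * i + l + i2 - 2 * n - k + 1) % 2 = 0 := by clear * - ev n1p n2p n3p; omega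
        clear * - al b tt kk21 kk22 kk23 kk24 r25
        obtain ⟨t, ht⟩ : ∃ t, 2 * t = (2 * i + l + i2 - 2 * n - k + 1) := ⟨(2 * i + l + i2 - 2 * n - k + 1) / 2, by omega⟩
        exact al.ninv t (cE (cI (qf b al (-1) t (t + (n + k - i)) (by omega)) (ab tt al 0 (t + (n + k - i)) ((2 * i + l + i2 - n - k + 1) - t) (by omega))) (sh al (-1) ((2 * i + l + i2 - n - k + 1) - t) t (by omega)))
      · have kk26 : (2 * i + l + 3) ≤ (k + i2) := by clear * - z5 ev n1p n2p n3p; omega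
        have kk27 : (2 * Q + k) ≤ (2 * i + l + i2 + 2) := by clear * - z4; omega
        have kk28 : (k) ≤ (i + l + 1) := by clear * - v1; omega
        have kk29 : (i + i2 + 1) ≤ (Q + k) := by clear * - y18 z4 z5; omega
        have r30 : (2 * i + l + i2 - 2 * n - k + 1) % 2 = 0 := by clear * - ev n1p n2p n3p; omega
        clear * - al b tt kk26 kk27 kk28 kk29 r30
        obtain ⟨t, ht⟩ : ∃ t, 2 * t = (2 * i + l + i2 - 2 * n - k + 1) := ⟨(2 * i + l + i2 - 2 * n - k + 1) / 2, by omega⟩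
        exact al.ninv t (cE (cI (qf b al (-1) t (t + (n + k - i)) (by omega)) (ab tt al 0 (t + (n + k - i)) ((2 * i + l + i2 - n - k + 1) - t) (by omega))) (sh al (-1) ((2 * i + l + i2 - n - k + 1) - t) t (by omega)))
    · have kk31 : (i + 1) ≤ (k) := by clear * - b0 b1 b2 y14 y18 y22 z5; linarith
      have kk32 : (3 * k + 2 * l + 2 * l2 + 6) ≤ (2 * n + 2 * Q + i) := by clear * - b0 b1 y18 y22 z5; omega
      have kk33 : (i + k + 2) ≤ (2 * Q) := by clear * - b0 b1 y14 y18 y22 z5; omega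
      have kk34 : (4 * i2 + 2 * l2 + 2 * i3) ≤ (2 * Q + i + 3 * k + 4 * l) := by clear * - b0 y14 y18 z4; omega
      have kk35 : (Q + k + l) ≤ (i2 + l2 + i3) := by clear * - b1 y22 y3 z5; omega
      have kk36 : (Q) ≤ (l2 + i3 + 1) := by clear * - b0 b1 b2 y18 y22 z4 z5; linarith
      have kk37 : (i2) ≤ (k + l + 1) := by clear * - b0 b1 b2 y14 y18 y22 z5; linarith
      have kk38 : (n + i3) ≤ (k + l + l2 + 2) := by clear * - y14; omega
      have kk39 : (2 * i2 + l2 + i3) ≤ (i + 2 * k + 2 * l + 1) := by clear * - b0 b1 b2 y14 y18 z5; omega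
      have kk40 : (Q + i + k + l) ≤ (2 * i2 + l2 + i3) := by clear * - b1 y19 y22 z4; omega
      have r41 : (2 * n + 2 * i2 + l2 + i3 - k - l) % 2 = 0 := by clear * - ev n1p n2p n3p; omega
      have r42 : (k - i) % 2 = 0 := by clear * - ev n1p n2p n3p; omega
      clear * - al b c u2 kk31 kk32 kk33 kk34 kk35 kk36 kk37 kk38 kk39 kk40 r41 r42
      exact midP al (k - i) (2 * n + 2 * i2 + l2 + i3 - k - l) (n + 2 * i2 + l2 + i3 - Q - k - l + 1) (n + i + 1) (n + k + l + 1) (by omega) (fun t h1 h2 => (cE (cI (cE (qf c al 1 t (t + (k + l - n - i2 + 1)) (by omega)) (qf c al 0 (t + (k + l - n - i2 + 1)) (t + (2 * k + 2 * l - n - 2 * i2 + 2)) (by omega))) (ab u2 al 1 (t + (2 * k + 2 * l - n - 2 * i2 + 2)) ((n + 2 * i2 + l2 + i3 - k - l) - t) (by omega))) (sh al 1 ((n + 2 * i2 + l2 + i3 - k - l) - t) ((2 * n + 2 * i2 + l2 + i3 - k - l) - t) (by omega)))) (fun t h1 h2 => (cE (qf b al 1 t (t + (k - n - i))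 (by omega)) (sh al 1 (t + (k - n - i)) (t + (k - i)) (by omega))))
  · by_cases z6 : (2 * k + 2 * l + i3 + 1) ≤ (3 * i2 + l2)
    · by_cases z7 : (i + k + 2 * l + 4) ≤ (n + 2 * i3)
      · by_cases v2 : (k) ≤ (i2)
        · have kk43 : (3 * k + 2 * l + 3) ≤ (n + i + 2 * i2) := by clear * - v2 y23 z7; omega
          have kk44 : (i + 2 * i2 + 2 * l2 + 4) ≤ (n + 2 * Q + k) := by clear * - b0 y18; omega
          have kk45 : (i + k + 2 * l + 4) ≤ (n + 2 * i3) := by clear * - z7; omega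
          have kk46 : (3 * k + 2 * l + 4) ≤ (n + i + 2 * i2) := by clear * - v2 y23 z7; omega
          have kk47 : (i2) ≤ (k + l + 1) := by clear * - b0 b2 v2 y18 y23 z6 z7; linarith
          have kk48 : (k) ≤ (i2) := by clear * - v2; omega
          have kk49 : (2 * i2 + l2) ≤ (2 * k + 2 * l + 1) := by clear * - b0 b2 v2 y18 y23; omega
          have kk50 : (k + l) ≤ (i2 + l2) := by clear * - b2 v2 y23 z4 z7; omega
          have kk51 : (2 * k + l + i3) ≤ (i + 2 * i2 + l2) := by clear * - b2 v2 y23 z4 z7; omega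
          have r52 : (k + l + l2 + i3 - n + 2) % 2 = 0 := by clear * - ev n1p n2p n3p; omega
          have r53 : (n + i + 2 * i2 - 3 * k - 2 * l - 2) % 2 = 0 := by clear * - ev n1p n2p n3p; omega
          clear * - al b c u2 kk43 kk44 kk45 kk46 kk47 kk48 kk49 kk50 kk51 r52 r53
          exact midP al (n + i + 2 * i2 - 3 * k - 2 * l - 2) (k + l + l2 + i3 - n + 2) (k + l + l2 - n + 3) (2 * k + 2 * l - n - i2 + 3) (i + 2 * i2 + l2 - 2 * k - l) (by omega) (fun t h1 h2 => (qa u2 al 0 t ((k + l + l2 + i3 - n + 2) - t) (by omega))) (fun t h1 h2 => (cE (cE (pb c al (-1) t (t + (n + i2 - k - l - 1)) (by omega)) (pb c al 0 (t + (n + i2 - k - l - 1)) (t + (n + 2 * i2 - 2 * k - 2 * l - 2)) (by omega))) (pb b al 0 (t + (n + 2 * i2 - 2 * k - 2 * l - 2)) (t + (n + i + 2 * i2 - 3 * k - 2 * l - 2)) (by omega))))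
        · have kk54 : (3 * k + 2 * l + 3) ≤ (n + i + 2 * i2) := by clear * - y13 y17 y23 z6; omega
          have kk55 : (i + 2 * i2 + 2 * l2 + 4) ≤ (n + 2 * Q + k) := by clear * - b0 y18; omega
          have kk56 : (i + 3 * k + 2 * l + 4) ≤ (n + 2 * i2 + 2 * i3) := by clear * - y13 y17 y22 z6 ev n1p n2p n3p; omega
          have kk57 : (3 * k + 2 * l + 4) ≤ (n + i + 2 * i2) := by clear * - y13 y17 y23 z6 ev n1p n2p n3p; omega
          have kk58 : (i2) ≤ (k + l + 1) := by clear * - b0 v2 y13 y14 y17 z6; omega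
          have kk59 : (i2) ≤ (k) := by clear * - v2; omega
          have kk60 : (2 * i2 + l2) ≤ (2 * k + 2 * l + 1) := by clear * - b0 v2 y13 y14 y17; omega
          have kk61 : (2 * k + l) ≤ (2 * i2 + l2) := by clear * - y13 y14 y17 z6; omega
          have kk62 : (2 * k + l + i3) ≤ (i + 2 * i2 + l2) := by clear * - y13 y14 y17 y23 z6; omega
          have r63 : (k + l + l2 + i3 - n + 2) % 2 = 0 := by clear * - ev n1p n2p n3p; omega
          have r64 : (n + i + 2 * i2 - 3 * k - 2 * l - 2) % 2 = 0 := by clear * - ev n1p n2p n3p; omega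
          clear * - al b c u2 kk54 kk55 kk56 kk57 kk58 kk59 kk60 kk61 kk62 r63 r64
          exact midP al (n + i + 2 * i2 - 3 * k - 2 * l - 2) (k + l + l2 + i3 - n + 2) (k + l + l2 - n + 3) (3 * k + 2 * l - n - 2 * i2 + 3) (i + 2 * i2 + l2 - 2 * k - l) (by omega) (fun t h1 h2 => (qa u2 al 0 t ((k + l + l2 + i3 - n + 2) - t) (by omega))) (fun t h1 h2 => (cE (cE (pb c al (-1) t (t + (n + i2 - k - l - 1)) (by omega)) (pb c al 0 (t + (n + i2 - k - l - 1)) (t + (n + 2 * i2 - 2 * k - 2 * l - 2)) (by omega))) (pb b al 0 (t + (n + 2 * i2 - 2 * k - 2 * l - 2)) (t + (n + i + 2 * i2 - 3 * k - 2 * l - 2)) (by omega))))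
      · have kk65 : (k + l + 2 * i3 + 3) ≤ (2 * Q + i2) := by clear * - y13 y21 z4 z7; omega
        have kk66 : (k + l + i2 + 2 * l2 + 4) ≤ (2 * n + 2 * i3) := by clear * - b0 b2 y13 y17 y23 z4 z6; linarith
        have kk67 : (Q + i2 + l2 + 1) ≤ (n + i3) := by clear * - y17 y3; omega
        have kk68 : (n + i3) ≤ (k + l + l2 + 2) := by clear * - b2 y20 z4 z7; omega
        have r69 : (k + l + i2 + 2 * l2 - 4 * n + 3) % 2 = 0 := by clear * - ev n1p n2p n3p; omega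
        clear * - al u2 D2 kk65 kk66 kk67 kk68 r69
        obtain ⟨t, ht⟩ : ∃ t, 2 * t = (k + l + i2 + 2 * l2 - 4 * n + 3) := ⟨(k + l + i2 + 2 * l2 - 4 * n + 3) / 2, by omega⟩
        exact al.ninv t (cE (cE (ab u2 al (-1) t ((k + l + l2 + i3 - 2 * n + 2) - t) (by omega)) (pb D2 al 0 ((k + l + l2 + i3 - 2 * n + 2) - t) ((k + l + i2 + 2 * l2 - 2 * n + 3) - t) (by omega))) (sh al (-2) ((k + l + i2 + 2 * l2 - 2 * n + 3) - t) t (by omega)))
    · by_cases z8 : (2 * Q + i2 + l2) ≤ (i + k + 2 * l + i3 + 2)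
      · have kk70 : (i + k + 2 * l + i3 + 3) ≤ (3 * i2 + l2) := by clear * - b0 b1 y14 y20 y22; omega
        have kk71 : (2 * Q + i2 + l2) ≤ (i + k + 2 * l + i3 + 2) := by clear * - z8; omega
        have kk72 : (i2) ≤ (i + l + 1) := by clear * - y13 y14 y17 y23; omega
        have kk73 : (2 * i2 + l2 + 1) ≤ (n + i3) := by clear * - y21 z6; omega
        have kk74 : (i + l) ≤ (l2 + i3) := by clear * - y20 z4 z8; omega
        have kk75 : (i3 + 1) ≤ (Q) := by clear * - y12 y14; omega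
        have r76 : (i + k + 2 * l + i2 + l2 - i3 + 3) % 2 = 0 := by clear * - ev n1p n2p n3p; omega
        clear * - al tt c D2 kk70 kk71 kk72 kk73 kk74 kk75 r76
        obtain ⟨t, ht⟩ : ∃ t, 2 * t = (i + k + 2 * l + i2 + l2 - i3 + 3) := ⟨(i + k + 2 * l + i2 + l2 - i3 + 3) / 2, by omega⟩
        exact al.ninv t (cE (cI (pb c al 0 t (t + (i2 - k - l - 1)) (by omega)) (ab tt al 0 (t + (i2 - k - l - 1)) ((i + k + 2 * l + 2) - t) (by omega))) (pb D2 al 0 ((i + k + 2 * l + 2) - t) t (by omega)))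
      · by_cases z9 : (2 * i2 + l2) ≤ (k + 2 * l + i3 + 2)
        · have kk77 : (k + l + i3 + 1) ≤ (2 * i2 + l2) := by clear * - b0 y14 y20; omega
          have kk78 : (i2 + l2 + 2) ≤ (n) := by clear * - b0 b2 y21 y23 z8 z9; omega
          have kk79 : (i3) ≤ (i + l) := by clear * - b0 y14 y20 y23 z9; omega
          have kk80 : (i + k + 2 * l + 3) ≤ (n + i2) := by clear * - b0 b2 y21 z8; omega
          have kk81 : (i3) ≤ (k + l) := by clear * - b0 y14 y20 z6; omega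
          have kk82 : (2 * k + 2 * l + 3) ≤ (n + i2) := by clear * - y21; omega
          have kk83 : (2 * i2 + l2) ≤ (k + 2 * l + i3 + 2) := by clear * - z9; omega
          have kk84 : (k + l) ≤ (i2 + l2) := by clear * - y20; omega
          have kk85 : (n) ≤ (k + l + l2 + 2) := by clear * - y13 y14; omega
          have kk86 : (i3) ≤ (i) := by clear * - y23; omega
          have kk87 : (i3) ≤ (k) := by clear * - b0 b2 y23 z8; omega
          have kk88 : (i + k + 2 * l + 2) ≤ (n + i2) := by clear * - b0 b2 y21 z8; omega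
          have kk89 : (2 * k + 2 * l + 2) ≤ (n + i2) := by clear * - y21; omega
          have r90 : (k - i) % 2 = 0 := by clear * - ev n1p n2p n3p; omega
          have r91 : (2 * i2 + l2 - k - l - i3) % 2 = 0 := by clear * - ev n1p n2p n3p; omega
          clear * - al b c D2 n2 kk77 kk78 kk79 kk80 kk81 kk82 kk83 kk84 kk85 kk86 kk87 kk88 kk89 r90 r91
          exact ivt0 (i3 + 1) (n + i3 - i2 - l2 - 1) (2 * i2 + l2 - k - l - i3) (i + 1) (i + l + 1) (k - i) (i + l + 1) (k + l + 1) 0 (fun t h1 h2 => (qf (show Par W (i3 + 1) (n + i3 - i2 - l2 - 1) (2 * i2 + l2 - k - l - i3) from fun t h1 h2 => (cE (sh al (-1) t (t + (-n)) (by omega)) (cE (pb D2 al (-1) (t + (-n)) (t + (i2 + l2 - i3 + 1)) (by omega)) (pb c al 0 (t + (i2 + l2 - i3 + 1)) (t + (2 * i2 + l2 - k - l - i3)) (by omega))))) al 0 t (t + (2 * i2 + l2 - k - l - i3)) (by omega))) (fun t h1 h2 => (cE (sh al (-1) t (t + (-n)) (by omega)) (qf b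 al (-1) (t + (-n)) (t + (k - i)) (by omega)))) (fun hh => n2.f0 (rEE (sh al 0 (i + l + 1) (i + l + 1) (by omega)) (sh al 0 (k + l + 1) (k + l + 1) (by omega)) (Eq.symm hh))) (by omega) (by omega)
        · by_cases z10 : (Q + i2 + l2) ≤ (k + 2 * l + i3 + 2)
          · have kk92 : (k + l + i3 + 1) ≤ (2 * i2 + l2) := by clear * - y20 y23 z10 z8 z9; omega
            have kk93 : (i2 + l2 + 2) ≤ (n) := by clear * - y21 y23 z10 z6 z8 z9; omega
            have kk94 : (i3) ≤ (i + l) := by clear * - y20 y23 z10 z8; omega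
            have kk95 : (i + k + 2 * l + 3) ≤ (n + i2) := by clear * - y21 z10 z6 z8 z9; omega
            have kk96 : (i3) ≤ (k + l) := by clear * - y20 y23 z10 z6 z8 z9; omega
            have kk97 : (2 * k + 2 * l + 3) ≤ (n + i2) := by clear * - y21; omega
            have kk98 : (Q + i2 + l2) ≤ (k + 2 * l + i3 + 2) := by clear * - z10; omega
            have kk99 : (k + l) ≤ (i2 + l2) := by clear * - y20; omega
            have kk100 : (n) ≤ (k + l + l2 + 2) := by clear * - y13 y14; omega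
            have kk101 : (i3) ≤ (i) := by clear * - y23; omega
            have kk102 : (i3) ≤ (k) := by clear * - y23 z10 z6 z8 z9; omega
            have kk103 : (i) ≤ (k) := by clear * - z10 z6 z8 z9; omega
            have kk104 : (2 * k + 2 * l + 2) ≤ (n + i2) := by clear * - y21; omega
            have kk105 : (i + k + 2 * l + 2) ≤ (n + i3) := by clear * - y21 y22 z6 z9; omega
            have kk106 : (i3) ≤ (i + l + 1) := by clear * - y20 y23 z10 z8; omega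
            have kk107 : (i3 + 1) ≤ (Q) := by clear * - y23 z10 z8; omega
            have r108 : (k - i) % 2 = 0 := by clear * - ev n1p n2p n3p; omega
            have r109 : (2 * i2 + l2 - k - l - i3) % 2 = 0 := by clear * - ev n1p n2p n3p; omega
            have r110 : (i + l + i2 - 2 * n + 1) % 2 = 0 := by clear * - ev n1p n2p n3p; omega
            clear * - al b tt c D2 n2 kk92 kk93 kk94 kk95 kk96 kk97 kk98 kk99 kk100 kk101 kk102 kk103 kk104 kk105 kk106 kk107 r108 r109 r110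
            exact ivt al.ninv (i3 - n + 1) (i3 - i2 - l2 - 1) (2 * i2 + l2 - k - l - i3) (i - n + 1) (i + l - n + 1) (k - i) (i + l - n + 1) (k + l - n + 1) 0 (fun t h1 h2 => (cE (qf (show Par W (i3 + 1) (n + i3 - i2 - l2 - 1) (2 * i2 + l2 - k - l - i3) from fun t h1 h2 => (cE (sh al (-1) t (t + (-n)) (by omega)) (cE (pb D2 al (-1) (t + (-n)) (t + (i2 + l2 - i3 + 1)) (by omega)) (pb c al 0 (t + (i2 + l2 - i3 + 1)) (t + (2 * i2 + l2 - k - l - i3)) (by omega))))) al (-1) t (t + (n + 2 * i2 + l2 - k - l - i3)) (by omega)) (sh al (-1) (t + (n + 2 * i2 + l2 - k - l - i3)) (t + (2 * i2 + l2 - k - l - i3)) (by omega)))) (fun t h1 h2 => (cE (sh al 1 t (t + (n)) (by omega)) (cE (qf b al 0 (t + (n)) (t + (n + k - i)) (by omega)) (sh al (-1) (t + (n + k - i)) (t + (k - i)) (by omega))))) (fun hh => n2.f0 (rEE (sh al (-1) (i + l + 1) (i + l - n + 1) (by omega)) (sh al (-1) (k + l + 1) (k + l - n + 1) (by omega))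 (Eq.symm hh))) (by omega) (i + l - n + 2) (i + l + i2 - n - Q + 2) (i + l + i2 - 2 * n + 1) 0 0 (fun t h1 h2 => (cI (sh al 1 t (t + (n)) (by omega)) (cE (ab tt al 0 (t + (n)) ((i + l + i2 - n + 1) - t) (by omega)) (sh al (-1) ((i + l + i2 - n + 1) - t) ((i + l + i2 - 2 * n + 1) - t) (by omega))))) (by omega)
          · by_cases z11 : (3 * i2 + 3 * l2 + 4) ≤ (2 * n + i3)
            · by_cases z12 : (3 * k + 3 * l + 2 * i3 + 5) ≤ (n + 2 * Q + 3 * i2)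
              · have kk111 : (2 * k + 2 * l + 3 * i3 + 3) ≤ (2 * Q + 3 * i2 + l2) := by clear * - y14 z12; omega
                have kk112 : (3 * i2 + 3 * l2 + 4) ≤ (2 * n + i3) := by clear * - z11; omega
                have kk113 : (k + l) ≤ (i2 + l2) := by clear * - y20; omega
                have kk114 : (n) ≤ (k + l + l2 + 2) := by clear * - y13 y14; omega
                have kk115 : (Q + i2 + l2 + 1) ≤ (n + i3) := by clear * - b0 b2 y21 z6; omega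
                have kk116 : (Q + i2) ≤ (k + l + i3 + 1) := by clear * - b0 b2 y20 z6; omega
                have kk117 : (0) ≤ (i3) := by clear * - y13; omega
                have r118 : (i2 + l2 + i3 - 2 * n + 1) % 2 = 0 := by clear * - ev n1p n2p n3p; omega
                clear * - al c u2 D2 kk111 kk112 kk113 kk114 kk115 kk116 kk117 r118
                obtain ⟨t, ht⟩ : ∃ t, 2 * t = (i2 + l2 + i3 - 2 * n + 1) := ⟨(i2 + l2 + i3 - 2 * n + 1) / 2, by omega⟩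
                exact al.ninv t (cE (cE (cI (pb D2 al (-1) t (t + (n + i2 + l2 - i3 + 1)) (by omega)) (ab u2 al 1 (t + (n + i2 + l2 - i3 + 1)) ((k + l + 2 * i3 - n - i2 + 1) - t) (by omega))) (qf (show Par W (i3 + 1) (n + i3 - i2 - l2 - 1) (2 * i2 + l2 - k - l - i3) from fun t h1 h2 => (cE (sh al (-1) t (t + (-n)) (by omega)) (cE (pb D2 al (-1) (t + (-n)) (t + (i2 + l2 - i3 + 1)) (by omega)) (pb c al 0 (t + (i2 + l2 - i3 + 1)) (t + (2 * i2 + l2 - k - l - i3)) (by omega))))) al 0 ((k + l + 2 * i3 - n - i2 + 1) - t) ((i2 + l2 + i3 - n + 1) - t) (by omega))) (sh al (-1) ((i2 + l2 + i3 - n + 1) - t) t (by omega)))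
              · have kk119 : (k + i2 + l2 + 2) ≤ (n + j + i3) := by clear * - y15; omega
                have kk120 : (j + k + 2 * l + l2 + i3 + 5) ≤ (n + 2 * Q + i2) := by clear * - b0 y2 z10; omega
                have kk121 : (2 * Q + j + i2 + l2 + 1) ≤ (n + k + 3 * i3) := by clear * - b0 b2 y13 y16 y21 z12; omega
                have kk122 : (5 * k + 4 * l + l2 + i3 + 7) ≤ (3 * n + 2 * i + j + 3 * i2) := by clear * - b0 y15 y20 y23; omega
                have kk123 : (i3 + 1) ≤ (Q) := by clear * - b0 y13 y14 y17 z10; omega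
                have kk124 : (k + i2 + l2 + 1) ≤ (n + i3) := by clear * - y17; omega
                have kk125 : (n + i + i2) ≤ (2 * k + l + l2 + 2) := by clear * - b2 y14 z4; omega
                have kk126 : (n + i) ≤ (k + l + l2 + 2) := by clear * - y14 y22; omega
                have kk127 : (k + l) ≤ (i2 + l2) := by clear * - y20; omega
                have kk128 : (Q) ≤ (i + l + 1) := by clear * - y13 y14 y17 y23 y7; omega
                have kk129 : (i3) ≤ (j) := by clear * - y1 y23; omega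
                have kk130 : (n + Q + i + 2 * i2) ≤ (3 * k + 2 * l + i3 + 3) := by clear * - b0 y14 y22 z10 z12; omega
                have r131 : (3 * k + 2 * l + l2 + i3 - 2 * n - i - i2 + 3) % 2 = 0 := by clear * - ev n1p n2p n3p; omega
                have r132 : (n + j + i3 - k - i2 - l2 - 1) % 2 = 0 := by clear * - ev n1p n2p n3p; omega
                clear * - al a2 b c u2 D2 kk119 kk120 kk121 kk122 kk123 kk124 kk125 kk126 kk127 kk128 kk129 kk130 r131 r132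
                exact midP al (n + j + i3 - k - i2 - l2 - 1) (3 * k + 2 * l + l2 + i3 - 2 * n - i - i2 + 3) (3 * k + 2 * l + l2 - 2 * n - i - i2 + 4) (Q + i2 + l2 - n - i3 + 1) (j) (by omega) (fun t h1 h2 => (cI (cE (pb c al (-1) t (t + (n + i2 - k - l - 1)) (by omega)) (pb b al 0 (t + (n + i2 - k - l - 1)) (t + (n + i + i2 - 2 * k - l - 1)) (by omega))) (qa u2 al 0 (t + (n + i + i2 - 2 * k - l - 1)) ((3 * k + 2 * l + l2 + i3 - 2 * n - i - i2 + 3) - t) (by omega)))) (fun t h1 h2 => (cE (qf (show Par W (Q + i2 + l2 - i3 + 1) (k + i2 + l2 - i3 + 1) (n + j + i3 - k - i2 - l2 - 1) from fun t h1 h2 => (cE (sh al (-1) t (t + (-n)) (by omega)) (cE (cE (qf D2 al (-1) (t + (-n)) (t + (i3 - i2 - l2 - 1)) (by omega)) (pb a2 al 0 (t + (i3 - i2 - l2 - 1)) (t + (j + i3 - k - i2 - l2 - 1)) (by omega))) (sh al 1 (t + (j + i3 - k - i2 - l2 - 1)) (t + (n + j + i3 - k - i2 - l2 - 1)) (by omega))))) al (-1) t (t +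 (2 * n + j + i3 - k - i2 - l2 - 1)) (by omega)) (sh al (-1) (t + (2 * n + j + i3 - k - i2 - l2 - 1)) (t + (n + j + i3 - k - i2 - l2 - 1)) (by omega))))
            · by_cases z13 : (i + l + i2 + l2 + 3) ≤ (n + i3)
              · by_cases z14 : (2 * k + l + i3) ≤ (i + 2 * i2 + l2)
                · have kk133 : (i2) ≤ (i + l) := by clear * - z14 z6; omega
                  have kk134 : (i + l + 1) ≤ (i2 + l2) := by clear * - b0 b2 z11 z13 z14 z6 z8; linarith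
                  have kk135 : (3 * i2 + l2) ≤ (2 * k + 2 * l + i3) := by clear * - z6; omega
                  have kk136 : (2 * k + l + i3) ≤ (i + 2 * i2 + l2) := by clear * - z14; omega
                  have kk137 : (i + l + i2 + l2 + 3) ≤ (n + i3) := by clear * - z13; omega
                  have kk138 : (k + l) ≤ (i2 + l2) := by clear * - z11 z13 z14 z6; omega
                  have kk139 : (n) ≤ (k + l + l2 + 2) := by clear * - z11 z6; omega
                  have kk140 : (i) ≤ (i2) := by clear * - b0 y14 y22 z11 z13 z14 z6; linarith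
                  have kk141 : (i + l) ≤ (i2 + l2) := by clear * - b0 b2 z11 z13 z14 z6 z8; linarith
                  have kk142 : (i3) ≤ (i2) := by clear * - b0 y14 z11 z13 z14 z6; omega
                  have kk143 : (n + i3) ≤ (2 * i2 + 2 * l2 + 2) := by clear * - b0 b2 z11 z14 z6 z8; omega
                  have r144 : (i + l - i2 + 1) % 2 = 0 := by clear * - ev n1p n2p n3p; omega
                  have r145 : (2 * k + 2 * l + i3 - 3 * i2 - l2 + 1) % 2 = 0 := by clear * - ev n1p n2p n3p; omega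
                  clear * - al b c D2 n2 kk133 kk134 kk135 kk136 kk137 kk138 kk139 kk140 kk141 kk142 kk143 r144 r145
                  exact n2.f0 (rEE (cE (qf c al 0 (i + l + 1) (i + k + 2 * l - i2 + 2) (by omega)) (sh al (-1) (i + k + 2 * l - i2 + 2) (i + k + 2 * l - n - i2 + 2) (by omega))) (sh al (-1) (k + l + 1) (k + l - n + 1) (by omega)) (Eq.symm (rotR (i + l - i2 + 1) (2 * k + 2 * l + i3 - 3 * i2 - l2 + 1) (k + l - n + 1) (i + k + 2 * l - n - i2 + 2) (by omega) (fun t h1 h2 => (cE (cE (pb b al (-1) t (t + (n + i - k)) (by omega)) (qf c al 0 (t + (n + i - k)) (t + (n + i + l - i2 + 1)) (by omega))) (sh al (-1) (t + (n + i + l - i2 + 1)) (t + (i + l - i2 + 1)) (by omega)))) (fun t h1 h2 => (cE (cE (pb (show Par W (i3 + 1) (n + i3 - i2 - l2 - 1) (2 * i2 + l2 - k - l - i3) from fun t h1 h2 => (cE (sh al (-1) t (t + (-n)) (by omega)) (cE (pb D2 al (-1) (t + (-n)) (t + (i2 + l2 - i3 + 1)) (by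 omega)) (pb c al 0 (t + (i2 + l2 - i3 + 1)) (t + (2 * i2 + l2 - k - l - i3)) (by omega))))) al (-1) t (t + (n + k + l + i3 - 2 * i2 - l2)) (by omega)) (qf c al 0 (t + (n + k + l + i3 - 2 * i2 - l2)) (t + (n + 2 * k + 2 * l + i3 - 3 * i2 - l2 + 1)) (by omega))) (sh al (-1) (t + (n + 2 * k + 2 * l + i3 - 3 * i2 - l2 + 1)) (t + (2 * k + 2 * l + i3 - 3 * i2 - l2 + 1)) (by omega)))))))
                · have kk146 : (i + 2 * i2 + l2 + 1) ≤ (2 * k + l + i3) := by clear * - z14; omega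
                  have kk147 : (2 * k + l + i3 + 1) ≤ (n + i + 2 * i2 + l2) := by clear * - b0 b2 y17 y23 z11 z13 z14 z8; linarith
                  have kk148 : (2 * k + l + i3 + 1) ≤ (Q + 2 * i2 + l2) := by clear * - b0 y14 y17 z10 z11; omega
                  have kk149 : (Q) ≤ (i + l + 1) := by clear * - b0 b2 y17 y23 z11; omega
                  have kk150 : (k + l) ≤ (i2 + l2) := by clear * - y21 z11 z6; omega
                  have kk151 : (n) ≤ (k + l + l2 + 2) := by clear * - z11 z6; omega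
                  have kk152 : (2 * i2 + l2) ≤ (2 * k + l) := by clear * - y23 z14; omega
                  have kk153 : (2 * k + 2 * l + 2) ≤ (n + i2) := by clear * - y21; omega
                  clear * - al b c D2 kk146 kk147 kk148 kk149 kk150 kk151 kk152 kk153
                  exact al.ubQ (2 * k + l + i3 - i - 2 * i2 - l2) (by omega) (by omega) fun t h1 h2 => (cE (sh al 1 t (t + (n)) (by omega)) (cE (qf b al 1 (t + (n)) (t + (k - i)) (by omega)) (pb (show Par W (i3 + 1) (n + i3 - i2 - l2 - 1) (2 * i2 + l2 - k - l - i3) from fun t h1 h2 => (cE (sh al (-1) t (t + (-n)) (by omega)) (cE (pb D2 al (-1) (t + (-n)) (t + (i2 + l2 - i3 + 1)) (by omega)) (pb c al 0 (t + (i2 + l2 - i3 + 1)) (t + (2 * i2 + l2 - k - l - i3)) (by omega))))) al 0 (t + (k - i)) (t + (2 * k + l + i3 - i - 2 * i2 - l2)) (by omega))))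
              · have kk154 : (2 * k + l + i3 + 1) ≤ (i + 2 * i2 + l2) := by clear * - y21 z13; omega
                have kk155 : (i + 2 * i2 + l2 + 1) ≤ (n + 2 * k + l + i3) := by clear * - b0 b2 y21 z11 z13 z6 z8; linarith
                have kk156 : (i + 2 * i2 + l2 + 1) ≤ (Q + 2 * k + l) := by clear * - b0 y14 z4 z6; omega
                have kk157 : (k + l) ≤ (i2 + l2) := by clear * - y21 z11 z6; omega
                have kk158 : (2 * k + l) ≤ (2 * i2 + l2) := by clear * - y21 y22 z13; omega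
                have kk159 : (Q + 2 * i2 + l2) ≤ (2 * k + 2 * l + i3 + 1) := by clear * - b0 b2 z6; omega
                clear * - al b c D1 kk154 kk155 kk156 kk157 kk158 kk159
                exact al.ubQ (i + 2 * i2 + l2 - 2 * k - l - i3) (by omega) (by omega) fun t h1 h2 => (cE (sh al (-1) t (t + (-n)) (by omega)) (cE (cE (qf D1 al (-1) (t + (-n)) (t + (i2 + l2 - i3 + 1)) (by omega)) (pb c al 0 (t + (i2 + l2 - i3 + 1)) (t + (2 * i2 + l2 - k - l - i3)) (by omega))) (pb b al 0 (t + (2 * i2 + l2 - k - l - i3)) (t + (i + 2 * i2 + l2 - 2 * k - l - i3)) (by omega))))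

theorem t6_2 {W : ℤ → G} {n Q i j k l i2 l2 i3 : ℤ} (al : AL W n Q)
    (hy : (0) ≤ (i) ∧ (i) ≤ (j) ∧ (j + 1) ≤ (Q) ∧ (Q) ≤ (k) ∧ (k + 1) ≤ (n) ∧ (Q) ≤ (i + l + 1) ∧ (k + l + 2) ≤ (n) ∧ (Q) ≤ (i2) ∧ (i2) ≤ (i + l + 1) ∧ (Q) ≤ (i2 + l2 + 1) ∧ (i2 + l2 + 2) ≤ (n) ∧ (n) ≤ (k + l + l2 + 2) ∧ (k + l + l2 + 3) ≤ (n + Q) ∧ (0) ≤ (i3) ∧ (n + i3) ≤ (k + l + l2 + 2) ∧ (k + i2 + l2 + 2) ≤ (n + j + i3) ∧ (j + i3 + 1) ≤ (k) ∧ (k + i2 + l2 + 2) ≤ (n + i3) ∧ (i + 2 * i2 + 1) ≤ (2 * Q + k) ∧ (i + l + 1) ≤ (i2 + l2) ∧ (k + l + 1) ≤ (i2 + l2) ∧ (2 * k + 2 * l + 3) ≤ (n + i2) ∧ (i) ≤ (i3) ∧ (i3) ≤ (i))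
    (a1 : Par W (0) (j) (k - j))
    (a2 : Par W (Q + j - k) (j) (k - j))
    (s1 : Ant W (0) (i) (i + j))
    (s2 : Ant W (j + 1) (Q) (i + j))
    (b : Par W (i + 1) (i + l + 1) (k - i))
    (tt : Ant W (Q) (i2) (i + l + i2 + 1))
    (c : Par W (i2 + 1) (i2 + l2 + 1) (k + l - i2 + 1))
    (u1 : Ant W (0) (i3) (k + l + l2 + i3 - n + 2))
    (u2 : Ant W (k + l + l2 - n + 3) (Q) (k + l + l2 + i3 - n + 2))
    (D1 : Par W (i3 + 1) (Q) (i2 + l2 - i3 + 1))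
    (D2 : Par W (i2 + l2 + 2) (n) (i3 - i2 - l2 - 1))
    {L : ℤ} (mx : ∀ a b g, 0 < g → g < n → Par W a b g → b - a ≤ L)
    (hL : L ≤ (n - j - 3) ∧ L ≤ (n + Q - k - 3) ∧ L ≤ (n - l - 3) ∧ L ≤ (n + i - k - 2) ∧ L ≤ (n - l2 - 3) ∧ L ≤ (n + i3 - Q - 2) ∧ L ≤ (i2 + l2 - 1) ∧ L ≤ (n + i2 - k - l - 3))
    (bd0 : Bd W n L (j) (i) (k))
    (bd2 : Bd W n L (k + l + l2 - n + 2) (i3) (i2 + l2 + 1))
    (n1 : Nd W (j) (i) (k))
    (n2 : Nd W (i + l + 1) (i2) (k + l + 1))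
    (n3 : Nd W (k + l + l2 - n + 2) (i3) (i2 + l2 + 1))
    (b0 : (2 * l2 + 3) ≤ (n))
    (b1 : (k + 2 * l + i3 + 2) ≤ (2 * i2 + l2)) : False := by
  have ev := al.ev
  obtain ⟨y0, y1, y2, y3, y4, y5, y6, y7, y8, y9, y10, y11, y12, y13, y14, y15, y16, y17, y18, y19, y20, y21, y22, y23⟩ := id hy
  have n1p := And.intro n1.p1 n1.p2
  have n2p := And.intro n2.p1 n2.p2
  have n3p := And.intro n3.p1 n3.p2
  by_cases z3 : (2 * k + 2 * l + l2 + i3 + 5) ≤ (n + 2 * Q + i2)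
  · have kk13 : (i2 + l2 + 2) ≤ (n + i3) := by clear * - y13 y15 y16; omega
    have kk14 : (2 * k + 2 * l + l2 + i3 + 5) ≤ (n + 2 * Q + i2) := by clear * - z3; omega
    have kk15 : (i2 + l2 + i3 + 3) ≤ (n + 2 * Q) := by clear * - b0 b1 y13 y14 y17 y18 y23; linarith
    have kk16 : (2 * k + 2 * l + i2 + 3 * l2 + i3 + 7) ≤ (3 * n + 2 * Q) := by clear * - y15 y16 z3; omega
    have kk17 : (Q + i2) ≤ (k + l + i3 + 1) := by clear * - y13 y14 y17 y3; omega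
    have kk18 : (Q + i2 + l2 + 1) ≤ (n + i3) := by clear * - y17 y3; omega
    have r19 : (n + k + l + l2 + i3 + 2) % 2 = 0 := by clear * - ev n1p n2p n3p; omega
    have r20 : (n + i3 - i2 - l2 - 1) % 2 = 0 := by clear * - ev n1p n2p n3p; omega
    clear * - al u2 D2 kk13 kk14 kk15 kk16 kk17 kk18 r19 r20
    exact midP al (n + i3 - i2 - l2 - 1) (n + k + l + l2 + i3 + 2) (k + l + l2 + i3 - Q + 3) (i2 + l2 + 2) (2 * n + i3 - i2 - l2 - 1) (by omega) (fun t h1 h2 => (cE (ab u2 al 1 t ((k + l + l2 + i3 + 2) - t) (by omega)) (sh al 1 ((k + l + l2 + i3 + 2) - t) ((n + k + l + l2 + i3 + 2) - t) (by omega)))) (fun t h1 h2 => (cE (qf D2 al 0 t (t + (i3 - i2 - l2 - 1)) (by omega)) (sh al 1 (t + (i3 - i2 - l2 - 1)) (t + (n + i3 - i2 - l2 - 1)) (by omega))))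
  · exact t6_3 al hy a1 a2 s1 s2 b tt c u1 u2 D1 D2 mx hL bd0 bd2 n1 n2 n3 (by clear * - b0; omega) (by clear * - b1; omega) (by clear * - z3; omega)

theorem t6_1 {W : ℤ → G} {n Q i j k l i2 l2 i3 : ℤ} (al : AL W n Q)
    (hy : (0) ≤ (i) ∧ (i) ≤ (j) ∧ (j + 1) ≤ (Q) ∧ (Q) ≤ (k) ∧ (k + 1) ≤ (n) ∧ (Q) ≤ (i + l + 1) ∧ (k + l + 2) ≤ (n) ∧ (Q) ≤ (i2) ∧ (i2) ≤ (i + l + 1) ∧ (Q) ≤ (i2 + l2 + 1) ∧ (i2 + l2 + 2) ≤ (n) ∧ (n) ≤ (k + l + l2 + 2) ∧ (k + l + l2 + 3) ≤ (n + Q) ∧ (0) ≤ (i3) ∧ (n + i3) ≤ (k + l + l2 + 2) ∧ (k + i2 + l2 + 2) ≤ (n + j + i3) ∧ (j + i3 + 1) ≤ (k) ∧ (k + i2 + l2 + 2) ≤ (n + i3) ∧ (i + 2 * i2 + 1) ≤ (2 * Q + k) ∧ (i + l + 1) ≤ (i2 + l2) ∧ (k + l + 1) ≤ (i2 + l2) ∧ (2 * k + 2 * l + 3) ≤ (n + i2) ∧ (i) ≤ (i3) ∧ (i3) ≤ (i))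
    (a1 : Par W (0) (j) (k - j))
    (a2 : Par W (Q + j - k) (j) (k - j))
    (s1 : Ant W (0) (i) (i + j))
    (s2 : Ant W (j + 1) (Q) (i + j))
    (b : Par W (i + 1) (i + l + 1) (k - i))
    (tt : Ant W (Q) (i2) (i + l + i2 + 1))
    (c : Par W (i2 + 1) (i2 + l2 + 1) (k + l - i2 + 1))
    (u1 : Ant W (0) (i3) (k + l + l2 + i3 - n + 2))
    (u2 : Ant W (k + l + l2 - n + 3) (Q) (k + l + l2 + i3 - n + 2))
    (D1 : Par W (i3 + 1) (Q) (i2 + l2 - i3 + 1))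
    (D2 : Par W (i2 + l2 + 2) (n) (i3 - i2 - l2 - 1))
    {L : ℤ} (mx : ∀ a b g, 0 < g → g < n → Par W a b g → b - a ≤ L)
    (hL : L ≤ (n - j - 3) ∧ L ≤ (n + Q - k - 3) ∧ L ≤ (n - l - 3) ∧ L ≤ (n + i - k - 2) ∧ L ≤ (n - l2 - 3) ∧ L ≤ (n + i3 - Q - 2) ∧ L ≤ (i2 + l2 - 1) ∧ L ≤ (n + i2 - k - l - 3))
    (bd0 : Bd W n L (j) (i) (k))
    (bd2 : Bd W n L (k + l + l2 - n + 2) (i3) (i2 + l2 + 1))
    (n1 : Nd W (j) (i) (k))
    (n2 : Nd W (i + l + 1) (i2) (k + l + 1))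
    (n3 : Nd W (k + l + l2 - n + 2) (i3) (i2 + l2 + 1))
    (b0 : (2 * l2 + 3) ≤ (n)) : False := by
  have ev := al.ev
  obtain ⟨y0, y1, y2, y3, y4, y5, y6, y7, y8, y9, y10, y11, y12, y13, y14, y15, y16, y17, y18, y19, y20, y21, y22, y23⟩ := id hy
  have n1p := And.intro n1.p1 n1.p2
  have n2p := And.intro n2.p1 n2.p2
  have n3p := And.intro n3.p1 n3.p2
  by_cases z2 : (2 * i2 + l2) ≤ (k + 2 * l + i3 + 1)
  · have kk4 : (i + 1) ≤ (k) := by clear * - y18 y7; omega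
    have kk5 : (k + l + i3 + 1) ≤ (2 * i2 + l2) := by clear * - b0 y14 y20; omega
    have kk6 : (2 * i2 + l2) ≤ (k + 2 * l + i3 + 1) := by clear * - z2; omega
    have kk7 : (2 * i2 + l2) ≤ (i + k + 2 * l + 1) := by clear * - y23 z2; omega
    have kk8 : (2 * k + 2 * l + 3) ≤ (n + i2) := by clear * - y21; omega
    have kk9 : (k + l) ≤ (i2 + l2) := by clear * - y20; omega
    have kk10 : (n) ≤ (k + l + l2 + 2) := by clear * - y13 y14; omega
    have r11 : (k - i) % 2 = 0 := by clear * - ev n1p n2p n3p; omega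
    have r12 : (2 * i2 + l2 - k - l - i3) % 2 = 0 := by clear * - ev n1p n2p n3p; omega
    clear * - al b c D2 n2 kk4 kk5 kk6 kk7 kk8 kk9 kk10 r11 r12
    exact n2.f0 (rEE (sh al (-1) (i + l + 1) (i + l - n + 1) (by omega)) (sh al (-1) (k + l + 1) (k + l - n + 1) (by omega)) (rotR (k - i) (2 * i2 + l2 - k - l - i3) (i + l - n + 1) (k + l - n + 1) (by omega) (fun t h1 h2 => (cE (qf b al (-1) t (t + (n + k - i)) (by omega)) (sh al (-1) (t + (n + k - i)) (t + (k - i)) (by omega)))) (fun t h1 h2 => (cE (cE (pb D2 al (-1) t (t + (n + i2 + l2 - i3 + 1)) (by omega)) (pb c al 0 (t + (n + i2 + l2 - i3 + 1)) (t + (n + 2 * i2 + l2 - k - l - i3)) (by omega))) (sh al (-1) (t + (n + 2 * i2 + l2 - k - l - i3)) (t + (2 * i2 + l2 - k - l - i3)) (by omega))))))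
  · exact t6_2 al hy a1 a2 s1 s2 b tt c u1 u2 D1 D2 mx hL bd0 bd2 n1 n2 n3 (by clear * - b0; omega) (by clear * - z2; omega)

theorem t6 {W : ℤ → G} {n Q i j k l i2 l2 i3 : ℤ} (al : AL W n Q)
    (hy : (0) ≤ (i) ∧ (i) ≤ (j) ∧ (j + 1) ≤ (Q) ∧ (Q) ≤ (k) ∧ (k + 1) ≤ (n) ∧ (Q) ≤ (i + l + 1) ∧ (k + l + 2) ≤ (n) ∧ (Q) ≤ (i2) ∧ (i2) ≤ (i + l + 1) ∧ (Q) ≤ (i2 + l2 + 1) ∧ (i2 + l2 + 2) ≤ (n) ∧ (n) ≤ (k + l + l2 + 2) ∧ (k + l + l2 + 3) ≤ (n + Q) ∧ (0) ≤ (i3) ∧ (n + i3) ≤ (k + l + l2 + 2) ∧ (k + i2 + l2 + 2) ≤ (n + j + i3) ∧ (j + i3 + 1) ≤ (k) ∧ (k + i2 + l2 + 2) ≤ (n + i3) ∧ (i + 2 * i2 + 1) ≤ (2 * Q + k) ∧ (i + l + 1) ≤ (i2 + l2) ∧ (k + l + 1) ≤ (i2 + l2) ∧ (2 * k + 2 * l + 3) ≤ (n + i2) ∧ (i) ≤ (i3) ∧ (i3) ≤ (i))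
    (a1 : Par W (0) (j) (k - j))
    (a2 : Par W (Q + j - k) (j) (k - j))
    (s1 : Ant W (0) (i) (i + j))
    (s2 : Ant W (j + 1) (Q) (i + j))
    (b : Par W (i + 1) (i + l + 1) (k - i))
    (tt : Ant W (Q) (i2) (i + l + i2 + 1))
    (c : Par W (i2 + 1) (i2 + l2 + 1) (k + l - i2 + 1))
    (u1 : Ant W (0) (i3) (k + l + l2 + i3 - n + 2))
    (u2 : Ant W (k + l + l2 - n + 3) (Q) (k + l + l2 + i3 - n + 2))
    (D1 : Par W (i3 + 1) (Q) (i2 + l2 - i3 + 1))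
    (D2 : Par W (i2 + l2 + 2) (n) (i3 - i2 - l2 - 1))
    {L : ℤ} (mx : ∀ a b g, 0 < g → g < n → Par W a b g → b - a ≤ L)
    (hL : L ≤ (n - j - 3) ∧ L ≤ (n + Q - k - 3) ∧ L ≤ (n - l - 3) ∧ L ≤ (n + i - k - 2) ∧ L ≤ (n - l2 - 3) ∧ L ≤ (n + i3 - Q - 2) ∧ L ≤ (i2 + l2 - 1) ∧ L ≤ (n + i2 - k - l - 3))
    (bd0 : Bd W n L (j) (i) (k))
    (bd2 : Bd W n L (k + l + l2 - n + 2) (i3) (i2 + l2 + 1))
    (n1 : Nd W (j) (i) (k))
    (n2 : Nd W (i + l + 1) (i2) (k + l + 1))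
    (n3 : Nd W (k + l + l2 - n + 2) (i3) (i2 + l2 + 1)) : False := by
  have ev := al.ev
  obtain ⟨y0, y1, y2, y3, y4, y5, y6, y7, y8, y9, y10, y11, y12, y13, y14, y15, y16, y17, y18, y19, y20, y21, y22, y23⟩ := id hy
  have n1p := And.intro n1.p1 n1.p2
  have n2p := And.intro n2.p1 n2.p2
  have n3p := And.intro n3.p1 n3.p2
  by_cases z1 : (n) ≤ (2 * l2 + 2)
  · have kk1 : (i2) ≤ (k + l) := by clear * - y13 y14 y15 y16; omega
    have kk2 : (k + l + 2) ≤ (n + i2) := by clear * - y12 y9; omega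
    have kk3 : (n) ≤ (2 * l2 + 2) := by clear * - z1; omega
    clear * - al c mx hL kk1 kk2 kk3
    exact absurd (mx (i2 - n + 1) (i2 + l2 - n + 1) (k + l - i2 + 1) (by omega) (by omega) fun t h1 h2 => (cE (qf c al (-1) t (t + (n + k + l - i2 + 1)) (by omega)) (sh al (-1) (t + (n + k + l - i2 + 1)) (t + (k + l - i2 + 1)) (by omega)))) (by omega)
  · exact t6_1 al hy a1 a2 s1 s2 b tt c u1 u2 D1 D2 mx hL bd0 bd2 n1 n2 n3 (by clear * - z1; omega)

theorem yh4 {W : ℤ → G} {n Q i j k l i2 l2 i3 : ℤ} (al : AL W n Q)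
    (hy : (0) ≤ (i) ∧ (i) ≤ (j) ∧ (j + 1) ≤ (Q) ∧ (Q) ≤ (k) ∧ (k + 1) ≤ (n) ∧ (Q) ≤ (i + l + 1) ∧ (k + l + 2) ≤ (n) ∧ (Q) ≤ (i2) ∧ (i2) ≤ (i + l + 1) ∧ (Q) ≤ (i2 + l2 + 1) ∧ (i2 + l2 + 2) ≤ (n) ∧ (n) ≤ (k + l + l2 + 2) ∧ (k + l + l2 + 3) ≤ (n + Q) ∧ (0) ≤ (i3) ∧ (n + i3) ≤ (k + l + l2 + 2) ∧ (k + i2 + l2 + 2) ≤ (n + j + i3) ∧ (j + i3 + 1) ≤ (k) ∧ (k + i2 + l2 + 2) ≤ (n + i3) ∧ (i + l + 1) ≤ (i2 + l2) ∧ (i) ≤ (i3) ∧ (i3) ≤ (i) ∧ (k + l + 1) ≤ (i2 + l2) ∧ (n + i2) ≤ (2 * k + 2 * l + 2) ∧ (2 * i2 + l2) ≤ (i + j + k + l))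
    (a1 : Par W (0) (j) (k - j))
    (a2 : Par W (Q + j - k) (j) (k - j))
    (s1 : Ant W (0) (i) (i + j))
    (s2 : Ant W (j + 1) (Q) (i + j))
    (b : Par W (i + 1) (i + l + 1) (k - i))
    (tt : Ant W (Q) (i2) (i + l + i2 + 1))
    (c : Par W (i2 + 1) (i2 + l2 + 1) (k + l - i2 + 1))
    (u1 : Ant W (0) (i3) (k + l + l2 + i3 - n + 2))
    (u2 : Ant W (k + l + l2 - n + 3) (Q) (k + l + l2 + i3 - n + 2))
    (D1 : Par W (i3 + 1) (Q) (i2 + l2 - i3 + 1))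
    (D2 : Par W (i2 + l2 + 2) (n) (i3 - i2 - l2 - 1))
    (GG : Par W (i + 1) (i + 2 * k + 2 * l - 2 * i2 - l2 + 1) (2 * i2 + l2 - i - k - l))
    {L : ℤ} (mx : ∀ a b g, 0 < g → g < n → Par W a b g → b - a ≤ L)
    (hL : L ≤ (n - j - 3) ∧ L ≤ (n + Q - k - 3) ∧ L ≤ (n - l - 3) ∧ L ≤ (n + i - k - 2) ∧ L ≤ (n - l2 - 3) ∧ L ≤ (n + i3 - Q - 2) ∧ L ≤ (i2 + l2 - 1) ∧ L ≤ (n + i2 - k - l - 3))
    (bd0 : Bd W n L (j) (i) (k))
    (bd2 : Bd W n L (k + l + l2 - n + 2) (i3) (i2 + l2 + 1))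
    (n1 : Nd W (j) (i) (k))
    (n2 : Nd W (i + l + 1) (i2) (k + l + 1))
    (n3 : Nd W (k + l + l2 - n + 2) (i3) (i2 + l2 + 1)) : False := by
  have ev := al.ev
  obtain ⟨y0, y1, y2, y3, y4, y5, y6, y7, y8, y9, y10, y11, y12, y13, y14, y15, y16, y17, y18, y19, y20, y21, y22, y23⟩ := id hy
  have n1p := And.intro n1.p1 n1.p2
  have n2p := And.intro n2.p1 n2.p2
  have n3p := And.intro n3.p1 n3.p2
  have kk1 : (j + k + l + 1) ≤ (2 * i2 + l2) := by clear * - y2 y21 y7; omega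
  have kk2 : (j + k + l + 2) ≤ (2 * i2 + l2) := by clear * - y2 y21 y7; omega
  have kk3 : (2 * i + j + 3 * k + 3 * l + 2) ≤ (6 * i2 + 3 * l2) := by clear * - y12 y14 y19 y2 y21 y7; omega
  have kk4 : (2 * i2 + l2) ≤ (2 * k + l) := by clear * - y16 y19 y23; omega
  have kk5 : (2 * i2 + l2) ≤ (i + j + k + l + 1) := by clear * - y23; omega
  have kk6 : (2 * i2 + l2) ≤ (i + k + 2 * l + 1) := by clear * - y17 y20 y22; omega
  have r7 : (i + j - 2 * n) % 2 = 0 := by clear * - ev n1p n2p n3p; omega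
  have r8 : (2 * i2 + l2 - j - k - l) % 2 = 0 := by clear * - y19 y20 ev n1p n2p n3p; omega
  clear * - al a1 s1 b GG kk1 kk2 kk3 kk4 kk5 kk6 r7 r8
  exact midP al (2 * i2 + l2 - j - k - l) (i + j - 2 * n) (i + j + k + l - n - 2 * i2 - l2 + 1) (i + j + k + l - n - 2 * i2 - l2 + 1) (2 * i2 + l2 - n - k - l) (by omega) (fun t h1 h2 => (cE (qa s1 al (-1) t ((i + j - n) - t) (by omega)) (sh al (-1) ((i + j - n) - t) ((i + j - 2 * n) - t) (by omega)))) (fun t h1 h2 => (cE (cE (qf a1 al (-1) t (t + (n + k - j)) (by omega)) (pb (show Par W (i + 1) (i + l + 1) (2 * k + l - 2 * i2 - l2) from fun t h1 h2 => (cE (sh al (-1) t (t + (-n)) (by omega)) (cE (qf b al (-1) (t + (-n)) (t + (k - i)) (by omega)) (pb GG al 0 (t + (k - i)) (t + (2 * k + l - 2 * i2 - l2)) (by omega))))) al 0 (t + (n + k - j)) (t + (n + 2 * i2 + l2 - j - k - l)) (by omega))) (sh al (-1) (t + (n + 2 * i2 + l2 - j - k - l)) (t + (2 * i2 +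 l2 - j - k - l)) (by omega))))

end Pool.Agent.MP_a38735_al.WL
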