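import Pool.Agent.MP_a38735_al.WT

set_option autoImplicit false
set_option linter.unusedVariables false

namespace Pool.Agent.MP_a38735_al.WL

variable {G : Type*} [Group G]

theorem rz5_4 {W : ℤ → G} {n Q i j h de j3 ph : ℤ} (al : AL W n Q)
    (hy : (0) ≤ (i) ∧ (i) ≤ (j) ∧ (j + 1) ≤ (Q) ∧ (i) ≤ (j3) ∧ (j3 + 1) ≤ (Q) ∧ (0) ≤ (de) ∧ (de + 1) ≤ (j3) ∧ (Q + j3) ≤ (i + h + de) ∧ (j + 1) ≤ (h) ∧ (0) ≤ (ph) ∧ (ph + 1) ≤ (h) ∧ (3 * h + j3 + 2 * ph) ≤ (n + i) ∧ (3 * j3 + 1) ≤ (i + h + 2 * de) ∧ (i + 1) ≤ (de) ∧ (j + 1) ≤ (j3) ∧ (de + 1) ≤ (j))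
    (a1 : Par W (0) (j) (i + h - j))
    (a2 : Par W (Q + j - i - h) (j) (i + h - j))
    (s1 : Ant W (0) (i) (i + j))
    (s2 : Ant W (j + 1) (Q) (i + j))
    (u1 : Ant W (0) (i) (i + j3))
    (u2 : Ant W (j3 + 1) (Q) (i + j3))
    (GG : Par W (i + 1) (h + de + ph) (h))
    (AL0 : Par W (i - ph + 1) (de) (ph))
    (AL1 : Par W (i - h - ph + 1) (de) (h + ph))
    (BE : Par W (de + 1) (j3) (i + h - j3))
    (T2 : Ant W (Q) (i + h + de - j3) (i + 2 * h + 2 * de + ph - j3))
    (n1 : Nd W (j) (i) (i + h))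
    (n4 : Nd W (h + de + ph) (i + h + de - j3) (de))
    (n5 : Nd W (j3) (i) (i + h))
    (b0 : (i + 1) ≤ (ph))
    (b1 : (j3 + 1) ≤ (j + ph))
    (b2 : (2 * j + ph + 2) ≤ (2 * Q)) : False := by
  have ev := al.ev
  obtain ⟨y0, y1, y2, y3, y4, y5, y6, y7, y8, y9, y10, y11, y12, y13, y14, y15⟩ := id hy
  have n1p := And.intro n1.p1 n1.p2
  have n4p := And.intro n4.p1 n4.p2
  have n5p := And.intro n5.p1 n5.p2
  by_cases z6 : (2 * j + 2) ≤ (2 * de + ph)
  · by_cases v2 : (de + ph) ≤ (Q)
    · have kk43 : (1) ≤ (ph) := by clear * - y15 z6; omega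
      have kk44 : (2 * j + 2) ≤ (2 * de + ph) := by clear * - z6; omega
      have kk45 : (2 * i + 2) ≤ (2 * de + 3 * ph) := by clear * - y13 y15 z6; omega
      have kk46 : (2 * i + 2 * j + 2) ≤ (4 * de + 3 * ph) := by clear * - y13 y15 z6; omega
      have kk47 : (de) ≤ (j) := by clear * - y15; omega
      have kk48 : (de + ph) ≤ (Q) := by clear * - v2; omega
      have r49 : (2 * n + i + j) % 2 = 0 := by clear * - ev n1p n4p n5p; omega
      have r50 : (ph) % 2 = 0 := by clear * - ev n1p n4p n5p; omega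
      clear * - al s2 AL0 kk43 kk44 kk45 kk46 kk47 kk48 r49 r50
      exact midP al (ph) (2 * n + i + j) (n + i + j - de - ph + 1) (n + i - ph + 1) (n + de + ph) (by omega) (fun t h1 h2 => (cE (ab s2 al 1 t ((n + i + j) - t) (by omega)) (sh al 1 ((n + i + j) - t) ((2 * n + i + j) - t) (by omega)))) (fun t h1 h2 => (cE (qf AL0 al 1 t (t + (ph - n)) (by omega)) (sh al 1 (t + (ph - n)) (t + (ph)) (by omega))))
    · have kk51 : (1) ≤ (ph) := by clear * - y15 z6; omega
      have kk52 : (2 * j + ph + 2) ≤ (2 * Q) := by clear * - b2; omega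
      have kk53 : (2 * i + 2) ≤ (2 * Q + ph) := by clear * - b2 v2 y13 y15; omega
      have kk54 : (2 * i + 2 * j + 2) ≤ (2 * Q + 2 * de + ph) := by clear * - b2 v2 y13 y15; omega
      have kk55 : (de) ≤ (j) := by clear * - y15; omega
      have kk56 : (Q) ≤ (de + ph) := by clear * - v2; omega
      have r57 : (2 * n + i + j) % 2 = 0 := by clear * - ev n1p n4p n5p; omega
      have r58 : (ph) % 2 = 0 := by clear * - ev n1p n4p n5p; omega
      clear * - al s2 AL0 kk51 kk52 kk53 kk54 kk55 kk56 r57 r58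
      exact midP al (ph) (2 * n + i + j) (n + i + j - Q + 1) (n + i - ph + 1) (n + de + ph) (by omega) (fun t h1 h2 => (cE (ab s2 al 1 t ((n + i + j) - t) (by omega)) (sh al 1 ((n + i + j) - t) ((2 * n + i + j) - t) (by omega)))) (fun t h1 h2 => (cE (qf AL0 al 1 t (t + (ph - n)) (by omega)) (sh al 1 (t + (ph - n)) (t + (ph)) (by omega))))
  · by_cases z7 : (j + 2 * de + 2) ≤ (2 * i + j3 + 2 * ph)
    · by_cases z8 : (2 * i + j + 2 * ph + 2) ≤ (3 * j3)
      · by_cases v3 : (j + ph) ≤ (Q)
        · by_cases v4 : (j + de + 1) ≤ (j3)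
          · have kk59 : (j + 1) ≤ (j3) := by clear * - y14; omega
            have kk60 : (j + 2) ≤ (j3) := by clear * - v4 y0 y13; omega
            have kk61 : (0) ≤ (j + j3) := by clear * - b1 v4 y5 z6; omega
            have kk62 : (2 * i + j + 2 * ph + 2) ≤ (3 * j3) := by clear * - z8; omega
            have kk63 : (j + ph) ≤ (Q) := by clear * - v3; omega
            have kk64 : (i) ≤ (de) := by clear * - y13; omega
            have kk65 : (j + de + 1) ≤ (j3) := by clear * - v4; omega
            have kk66 : (0) ≤ (i + 1) := by clear * - y0; omega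
            have kk67 : (j3) ≤ (j + ph) := by clear * - b1; omega
            have r68 : (i + j + ph - 2 * n) % 2 = 0 := by clear * - ev n1p n4p n5p; omega
            have r69 : (j3 - j) % 2 = 0 := by clear * - ev n1p n4p n5p; omega
            clear * - al a1 s2 AL0 BE kk59 kk60 kk61 kk62 kk63 kk64 kk65 kk66 kk67 r68 r69
            exact midP al (j3 - j) (i + j + ph - 2 * n) (i + j + ph - n - j3 + 1) (-n) (j3 - n) (by omega) (fun t h1 h2 => (cE (cI (pb AL0 al (-1) t (t + (n - ph)) (by omega)) (ab s2 al 0 (t + (n - ph)) ((i + j + ph - n) - t) (by omega))) (sh al (-1) ((i + j + ph - n) - t) ((i + j + ph - 2 * n) - t) (by omega)))) (fun t h1 h2 => (cE (cE (qf a1 al (-1) t (t + (n + i + h - j)) (by omega)) (pb BE al 0 (t + (n + i + h - j)) (t + (n + j3 - j)) (by omega))) (sh al (-1) (t + (n + j3 - j)) (t + (j3 - j)) (by omega))))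
          · by_cases v5 : (i + ph) ≤ (de)
            · have kk70 : (j + 1) ≤ (j3) := by clear * - v5 z7; omega
              have kk71 : (j + 2 * de + 2) ≤ (2 * i + j3 + 2 * ph) := by clear * - z7; omega
              have kk72 : (j + 4 * de + 2) ≤ (2 * i + 3 * j3 + 2 * ph) := by clear * - b1 v5 z6 z7; omega
              have kk73 : (j + 2 * de + 2) ≤ (3 * j3) := by clear * - b1 v5 z6 z7; omega
              have kk74 : (j + ph) ≤ (Q) := by clear * - v3; omega
              have kk75 : (i) ≤ (de) := by clear * - b1 v5 z7; omega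
              have kk76 : (j3) ≤ (j + de + 1) := by clear * - v4; omega
              have kk77 : (i + j3) ≤ (j + de) := by clear * - b1 v5; omega
              have kk78 : (i + ph) ≤ (de) := by clear * - v5; omega
              have r79 : (i + j + ph - 2 * n) % 2 = 0 := by clear * - ev n1p n4p n5p; omega
              have r80 : (j3 - j) % 2 = 0 := by clear * - ev n1p n4p n5p; omega
              clear * - al a1 s2 AL0 BE kk70 kk71 kk72 kk73 kk74 kk75 kk76 kk77 kk78 r79 r80
              exact midP al (j3 - j) (i + j + ph - 2 * n) (j + de - n - j3 + 1) (j + de - n - j3 + 1) (j3 - n) (by omega) (fun t h1 h2 => (cE (cI (pb AL0 al (-1) t (t + (n - ph)) (by omega)) (ab s2 al 0 (t + (n - ph)) ((i + j + ph - n) - t) (by omega))) (sh al (-1) ((i + j + ph - n) - t) ((i + j + ph - 2 * n) - t) (by omega)))) (fun t h1 h2 => (cE (cE (qf a1 al (-1) t (t + (n + i + h - j)) (by omega)) (pb BE al 0 (t + (n + i + h - j)) (t + (n + j3 - j)) (by omega))) (sh al (-1) (t + (n + j3 - j)) (t + (j3 - j)) (by omega))))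
            · have kk81 : (j + 1) ≤ (j3) := by clear * - y14; omega
              have kk82 : (j + 2) ≤ (j3) := by clear * - y14 ev n1p n4p n5p; omega
              have kk83 : (j + 2 * de + 2) ≤ (3 * j3) := by clear * - v5 z8; omega
              have kk84 : (2 * i + j + 2 * ph + 2) ≤ (3 * j3) := by clear * - z8; omega
              have kk85 : (j + ph) ≤ (Q) := by clear * - v3; omega
              have kk86 : (i) ≤ (de) := by clear * - y13; omega
              have kk87 : (j3) ≤ (j + de + 1) := by clear * - v4; omega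
              have kk88 : (de) ≤ (i + ph) := by clear * - v5; omega
              have kk89 : (j3) ≤ (j + ph) := by clear * - b1; omega
              have r90 : (i + j + ph - 2 * n) % 2 = 0 := by clear * - ev n1p n4p n5p; omega
              have r91 : (j3 - j) % 2 = 0 := by clear * - ev n1p n4p n5p; omega
              clear * - al a1 s2 AL0 BE kk81 kk82 kk83 kk84 kk85 kk86 kk87 kk88 kk89 r90 r91
              exact midP al (j3 - j) (i + j + ph - 2 * n) (i + j + ph - n - j3 + 1) (j + de - n - j3 + 1) (j3 - n) (by omega) (fun t h1 h2 => (cE (cI (pb AL0 al (-1) t (t + (n - ph)) (by omega)) (ab s2 al 0 (t + (n - ph)) ((i + j + ph - n) - t) (by omega))) (sh al (-1) ((i + j + ph - n) - t) ((i + j + ph - 2 * n) - t) (by omega)))) (fun t h1 h2 => (cE (cE (qf a1 al (-1) t (t + (n + i + h - j)) (by omega)) (pb BE al 0 (t + (n + i + h - j)) (t + (n + j3 - j)) (by omega))) (sh al (-1) (t + (n + j3 - j)) (t + (j3 - j)) (by omega))))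
        · by_cases v6 : (j + de + 1) ≤ (j3)
          · have kk92 : (j + 1) ≤ (j3) := by clear * - y14; omega
            have kk93 : (j + 2) ≤ (j3) := by clear * - v6 y0 y13; omega
            have kk94 : (0) ≤ (j + j3) := by clear * - b2 v3 v6 y5 z6; omega
            have kk95 : (2 * i + j + 2 * ph + 2) ≤ (3 * j3) := by clear * - z8; omega
            have kk96 : (Q) ≤ (j + ph) := by clear * - v3; omega
            have kk97 : (i) ≤ (de) := by clear * - y13; omega
            have kk98 : (j + de + 1) ≤ (j3) := by clear * - v6; omega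
            have kk99 : (j3) ≤ (i + j + ph + 1) := by clear * - b1 y0; omega
            have kk100 : (j3) ≤ (Q) := by clear * - y4; omega
            have r101 : (i + j + ph - 2 * n) % 2 = 0 := by clear * - ev n1p n4p n5p; omega
            have r102 : (j3 - j) % 2 = 0 := by clear * - ev n1p n4p n5p; omega
            clear * - al a1 s2 AL0 BE kk92 kk93 kk94 kk95 kk96 kk97 kk98 kk99 kk100 r101 r102
            exact midP al (j3 - j) (i + j + ph - 2 * n) (i + j + ph - n - j3 + 1) (-n) (j3 - n) (by omega) (fun t h1 h2 => (cE (cI (pb AL0 al (-1) t (t + (n - ph)) (by omega)) (ab s2 al 0 (t + (n - ph)) ((i + j + ph - n) - t) (by omega))) (sh al (-1) ((i + j + ph - n) - t) ((i + j + ph - 2 * n) - t) (by omega)))) (fun t h1 h2 => (cE (cE (qf a1 al (-1) t (t + (n + i + h - j)) (by omega)) (pb BE al 0 (t + (n + i + h - j)) (t + (n + j3 - j)) (by omega))) (sh al (-1) (t + (n + j3 - j)) (t + (j3 - j)) (by omega))))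
          · by_cases v7 : (i + ph) ≤ (de)
            · have kk103 : (j + 1) ≤ (j3) := by clear * - v7 z7; omega
              have kk104 : (j + 2 * de + 2) ≤ (2 * i + j3 + 2 * ph) := by clear * - z7; omega
              have kk105 : (j + 4 * de + 2) ≤ (2 * i + 3 * j3 + 2 * ph) := by clear * - b2 v3 v7 z6 z7; omega
              have kk106 : (j + 2 * de + 2) ≤ (3 * j3) := by clear * - b2 v3 v7 z6 z7; omega
              have kk107 : (Q) ≤ (j + ph) := by clear * - v3; omega
              have kk108 : (i) ≤ (de) := by clear * - b2 v3 v7; omega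
              have kk109 : (j3) ≤ (j + de + 1) := by clear * - v6; omega
              have kk110 : (i + ph) ≤ (de) := by clear * - v7; omega
              have kk111 : (i + j3 + ph) ≤ (Q + de) := by clear * - v7 y4; omega
              have r112 : (i + j + ph - 2 * n) % 2 = 0 := by clear * - ev n1p n4p n5p; omega
              have r113 : (j3 - j) % 2 = 0 := by clear * - ev n1p n4p n5p; omega
              clear * - al a1 s2 AL0 BE kk103 kk104 kk105 kk106 kk107 kk108 kk109 kk110 kk111 r112 r113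
              exact midP al (j3 - j) (i + j + ph - 2 * n) (j + de - n - j3 + 1) (j + de - n - j3 + 1) (j3 - n) (by omega) (fun t h1 h2 => (cE (cI (pb AL0 al (-1) t (t + (n - ph)) (by omega)) (ab s2 al 0 (t + (n - ph)) ((i + j + ph - n) - t) (by omega))) (sh al (-1) ((i + j + ph - n) - t) ((i + j + ph - 2 * n) - t) (by omega)))) (fun t h1 h2 => (cE (cE (qf a1 al (-1) t (t + (n + i + h - j)) (by omega)) (pb BE al 0 (t + (n + i + h - j)) (t + (n + j3 - j)) (by omega))) (sh al (-1) (t + (n + j3 - j)) (t + (j3 - j)) (by omega))))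
            · have kk114 : (j + 1) ≤ (j3) := by clear * - y14; omega
              have kk115 : (j + 2) ≤ (j3) := by clear * - y14 ev n1p n4p n5p; omega
              have kk116 : (j + 2 * de + 2) ≤ (3 * j3) := by clear * - v7 z8; omega
              have kk117 : (2 * i + j + 2 * ph + 2) ≤ (3 * j3) := by clear * - z8; omega
              have kk118 : (Q) ≤ (j + ph) := by clear * - v3; omega
              have kk119 : (i) ≤ (de) := by clear * - y13; omega
              have kk120 : (j3) ≤ (j + de + 1) := by clear * - v6; omega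
              have kk121 : (de) ≤ (i + ph) := by clear * - v7; omega
              have kk122 : (j3) ≤ (Q) := by clear * - y4; omega
              have r123 : (i + j + ph - 2 * n) % 2 = 0 := by clear * - ev n1p n4p n5p; omega
              have r124 : (j3 - j) % 2 = 0 := by clear * - ev n1p n4p n5p; omega
              clear * - al a1 s2 AL0 BE kk114 kk115 kk116 kk117 kk118 kk119 kk120 kk121 kk122 r123 r124
              exact midP al (j3 - j) (i + j + ph - 2 * n) (i + j + ph - n - j3 + 1) (j + de - n - j3 + 1) (j3 - n) (by omega) (fun t h1 h2 => (cE (cI (pb AL0 al (-1) t (t + (n - ph)) (by omega)) (ab s2 al 0 (t + (n - ph)) ((i + j + ph - n) - t) (by omega))) (sh al (-1) ((i + j + ph - n) - t) ((i + j + ph - 2 * n) - t) (by omega)))) (fun t h1 h2 => (cE (cE (qf a1 al (-1) t (t + (n + i + h - j)) (by omega)) (pb BE al 0 (t + (n + i + h - j)) (t + (n + j3 - j)) (by omega))) (sh al (-1) (t + (n + j3 - j)) (t + (j3 - j)) (by omega))))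
      · by_cases v8 : (Q) ≤ (j + ph)
        · have kk125 : (j + 2) ≤ (i + ph) := by clear * - y14 z8 ev n1p n4p n5p; omega
          have kk126 : (i + j + ph + 1) ≤ (2 * Q) := by clear * - b2 v8 y13 z6; omega
          have kk127 : (i) ≤ (de) := by clear * - y13; omega
          have kk128 : (Q) ≤ (j + ph) := by clear * - v8; omega
          have r129 : (i + j + ph) % 2 = 0 := by clear * - ev n1p n4p n5p; omega
          clear * - al s2 AL0 kk125 kk126 kk127 kk128 r129
          obtain ⟨t, ht⟩ : ∃ t, 2 * t = (i + j + ph) := ⟨(i + j + ph) / 2, by omega⟩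
          exact al.ninv t (cE (qa s2 al 0 t ((i + j) - t) (by omega)) (qf AL0 al 0 ((i + j) - t) t (by omega)))
        · have kk130 : (j + 2) ≤ (i + ph) := by clear * - y14 z8 ev n1p n4p n5p; omega
          have kk131 : (i + 1) ≤ (j + ph) := by clear * - y13 z6 z7 z8; omega
          have kk132 : (i) ≤ (de) := by clear * - y13; omega
          have kk133 : (j + ph) ≤ (Q) := by clear * - v8; omega
          have r134 : (i + j + ph) % 2 = 0 := by clear * - ev n1p n4p n5p; omega
          clear * - al s2 AL0 kk130 kk131 kk132 kk133 r134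
          obtain ⟨t, ht⟩ : ∃ t, 2 * t = (i + j + ph) := ⟨(i + j + ph) / 2, by omega⟩
          exact al.ninv t (cE (qa s2 al 0 t ((i + j) - t) (by omega)) (qf AL0 al 0 ((i + j) - t) t (by omega)))
    · by_cases z9 : (de + ph) ≤ (j3 + 1)
      · by_cases v9 : (de + ph) ≤ (j3)
        · have kk135 : (Q + j3) ≤ (i + h + de) := by clear * - y7; omega
          have kk136 : (de + 1) ≤ (j3) := by clear * - b1 v9 y14; omega
          have kk137 : (1) ≤ (ph) := by clear * - b1 y14; omega
          have kk138 : (i + 1) ≤ (de + ph) := by clear * - b1 y14 z7; omega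
          have kk139 : (i + j3 + 1) ≤ (j + de + ph) := by clear * - b1 y14 z7; omega
          have kk140 : (j + 1) ≤ (j3 + ph) := by clear * - b1 y14; omega
          have kk141 : (Q + j3) ≤ (i + h + de + 1) := by clear * - y7; omega
          have kk142 : (i + j3) ≤ (j + de + ph) := by clear * - b1 y14 z7; omega
          have kk143 : (i) ≤ (de + ph) := by clear * - b1 y14 z7; omega
          have kk144 : (j) ≤ (j3) := by clear * - y14; omega
          have kk145 : (de + ph) ≤ (j3) := by clear * - v9; omega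
          have r146 : (j3 - j) % 2 = 0 := by clear * - ev n1p n4p n5p; omega
          have r147 : (ph) % 2 = 0 := by clear * - ev n1p n4p n5p; omega
          clear * - al a2 AL0 BE n4 kk135 kk136 kk137 kk138 kk139 kk140 kk141 kk142 kk143 kk144 kk145 r146 r147
          exact ivt0 (i - n - ph + 1) (de - n) (ph) (j + de - n - j3 + 1) (j + de + ph - n - j3) (j3 - j) (j + de - n - j3) (de - n) 0 (fun t h1 h2 => (cE (qf AL0 al (-1) t (t + (n + ph)) (by omega)) (sh al (-1) (t + (n + ph)) (t + (ph)) (by omega)))) (fun t h1 h2 => (cE (sh al 2 t (t + (2 * n)) (by omega)) (cE (qf (show Par W (n + j + de - j3 + 1) (n + j) (j3 - j) from fun t h1 h2 => (cE (sh al (-2) t (t + (-2 * n)) (by omega)) (cE (cE (qf a2 al (-1) (t + (-2 * n)) (t + (i + h - n - j)) (by omega)) (pb BE al 0 (t + (i + h - n - j)) (t + (j3 - n - j)) (by omega))) (sh al 1 (t + (j3 - n - j)) (t + (j3 - j)) (by omega))))) al 0 (t + (2 * n)) (t + (2 * n + j3 - j)) (by omega)) (sh al (-2) (t + (2 * n + j3 - j)) (t + (j3 - j)) (by omega)))))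 (fun hh => n4.f1 (rEE (cE (pb a2 al 0 (i + h + de - j3) (j + de - j3) (by omega)) (sh al (-1) (j + de - j3) (j + de - n - j3) (by omega))) (sh al (-1) (de) (de - n) (by omega)) (Eq.symm hh))) (by omega) (by omega)
        · have kk148 : (Q + j3) ≤ (i + h + de) := by clear * - y7; omega
          have kk149 : (de + 1) ≤ (j3) := by clear * - v9 y14 z6; omega
          have kk150 : (1) ≤ (ph) := by clear * - v9 y14 z6; omega
          have kk151 : (i + 1) ≤ (de + ph) := by clear * - v9 y14 z6 z7; omega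
          have kk152 : (i + j3 + 1) ≤ (j + de + ph) := by clear * - v9 y14 z6 z7; omega
          have kk153 : (j + 1) ≤ (j3 + ph) := by clear * - v9 y14 z6; omega
          have kk154 : (de + ph) ≤ (j3 + 1) := by clear * - z9; omega
          have kk155 : (Q + j3) ≤ (i + h + de + 1) := by clear * - y7; omega
          have kk156 : (i + j3) ≤ (j + de + ph) := by clear * - v9 y14 z6 z7; omega
          have kk157 : (i) ≤ (de + ph) := by clear * - v9 y14 z6 z7; omega
          have kk158 : (j) ≤ (de + ph) := by clear * - v9 y14; omega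
          have kk159 : (j3) ≤ (de + ph) := by clear * - v9; omega
          have r160 : (j3 - j) % 2 = 0 := by clear * - ev n1p n4p n5p; omega
          have r161 : (ph) % 2 = 0 := by clear * - ev n1p n4p n5p; omega
          clear * - al a2 AL0 BE n4 kk148 kk149 kk150 kk151 kk152 kk153 kk154 kk155 kk156 kk157 kk158 kk159 r160 r161
          exact ivt0 (i - n - ph + 1) (de - n) (ph) (j + de - n - j3 + 1) (j - n) (j3 - j) (j + de - n - j3) (de - n) 0 (fun t h1 h2 => (cE (qf AL0 al (-1) t (t + (n + ph)) (by omega)) (sh al (-1) (t + (n + ph)) (t + (ph)) (by omega)))) (fun t h1 h2 => (cE (sh al 2 t (t + (2 * n)) (by omega)) (cE (qf (show Par W (n + j + de - j3 + 1) (n + j) (j3 - j) from fun t h1 h2 => (cE (sh al (-2) t (t + (-2 * n)) (by omega)) (cE (cE (qf a2 al (-1) (t + (-2 * n)) (t + (i + h - n - j)) (by omega)) (pb BE al 0 (t + (i + h - n - j)) (t + (j3 - n - j)) (by omega))) (sh al 1 (t + (j3 - n - j)) (t + (j3 - j)) (by omega))))) al 0 (t + (2 * n)) (t + (2 * n + j3 - j)) (by omega))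 (sh al (-2) (t + (2 * n + j3 - j)) (t + (j3 - j)) (by omega))))) (fun hh => n4.f1 (rEE (cE (pb a2 al 0 (i + h + de - j3) (j + de - j3) (by omega)) (sh al (-1) (j + de - j3) (j + de - n - j3) (by omega))) (sh al (-1) (de) (de - n) (by omega)) (Eq.symm hh))) (by omega) (by omega)
      · by_cases z10 : (j + 2 * de + 2) ≤ (2 * i + j3 + 4 * ph)
        · by_cases z11 : (2 * i + j + 4 * ph + 2) ≤ (3 * j3)
          · by_cases v10 : (Q) ≤ (j + ph)
            · by_cases v11 : (i + 2 * ph) ≤ (j3)
              · have kk162 : (j + 1) ≤ (j3) := by clear * - y14; omega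
                have kk163 : (j + j3 + 2) ≤ (2 * Q) := by clear * - b2 v10 z6 z9; omega
                have kk164 : (j + 2 * de + 2) ≤ (2 * i + j3 + 4 * ph) := by clear * - z10; omega
                have kk165 : (j + 2) ≤ (j3) := by clear * - y14 ev n1p n4p n5p; omega
                have kk166 : (j3) ≤ (j + de + 1) := by clear * - v11 y0 z10 z6 z9; omega
                have kk167 : (i) ≤ (de) := by clear * - v11 z10 z7 z9; omega
                have kk168 : (i + ph) ≤ (de) := by clear * - v11 z9; omega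
                have kk169 : (Q) ≤ (j + ph) := by clear * - v10; omega
                have kk170 : (Q) ≤ (j + 2 * ph) := by clear * - v10 z10 z7; omega
                have kk171 : (de) ≤ (j3) := by clear * - v11 z10 z6 z9; omega
                have kk172 : (i + 2 * ph) ≤ (j3) := by clear * - v11; omega
                have r173 : (i + j + 2 * ph) % 2 = 0 := by clear * - ev n1p n4p n5p; omega
                have r174 : (j3 - j) % 2 = 0 := by clear * - ev n1p n4p n5p; omega
                clear * - al a1 s2 AL0 BE kk162 kk163 kk164 kk165 kk166 kk167 kk168 kk169 kk170 kk171 kk172 r173 r174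
                exact midP al (j3 - j) (i + j + 2 * ph) (j + 1) (j + de - j3 + 1) (j3) (by omega) (fun t h1 h2 => (cE (cE (qa s2 al 0 t ((i + j) - t) (by omega)) (qf AL0 al 0 ((i + j) - t) ((i + j + ph) - t) (by omega))) (qf AL0 al 0 ((i + j + ph) - t) ((i + j + 2 * ph) - t) (by omega)))) (fun t h1 h2 => (qf (show Par W (j + de - j3 + 1) (j) (j3 - j) from fun t h1 h2 => (cE (sh al (-1) t (t + (-n)) (by omega)) (cE (qf a1 al (-1) (t + (-n)) (t + (i + h - j)) (by omega)) (pb BE al 0 (t + (i + h - j)) (t + (j3 - j)) (by omega))))) al 0 t (t + (j3 - j)) (by omega)))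
              · have kk175 : (j + 1) ≤ (j3) := by clear * - v11 z11; omega
                have kk176 : (2 * i + j + 4 * ph + 2) ≤ (2 * Q + j3) := by clear * - b2 z11 z6 z9; omega
                have kk177 : (j + 2 * de + 2) ≤ (3 * j3) := by clear * - v11 z11 z6 z9; omega
                have kk178 : (2 * i + j + 4 * ph + 2) ≤ (3 * j3) := by clear * - z11; omega
                have kk179 : (j3) ≤ (j + de + 1) := by clear * - v11 y0 z11 z6 z9; omega
                have kk180 : (i) ≤ (de) := by clear * - v11 z10 z11 z7; omega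
                have kk181 : (i + ph) ≤ (de) := by clear * - v11 z11 z7; omega
                have kk182 : (Q) ≤ (j + ph) := by clear * - v10; omega
                have kk183 : (Q) ≤ (j + 2 * ph) := by clear * - v10 z10 z7; omega
                have kk184 : (j3) ≤ (i + 2 * ph) := by clear * - v11; omega
                have kk185 : (de) ≤ (i + 2 * ph) := by clear * - v11 z11 z6 z9; omega
                have r186 : (i + j + 2 * ph) % 2 = 0 := by clear * - ev n1p n4p n5p; omega
                have r187 : (j3 - j) % 2 = 0 := by clear * - ev n1p n4p n5p; omega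
                clear * - al a1 s2 AL0 BE kk175 kk176 kk177 kk178 kk179 kk180 kk181 kk182 kk183 kk184 kk185 r186 r187
                exact midP al (j3 - j) (i + j + 2 * ph) (i + j + 2 * ph - j3 + 1) (j + de - j3 + 1) (j3) (by omega) (fun t h1 h2 => (cE (cE (qa s2 al 0 t ((i + j) - t) (by omega)) (qf AL0 al 0 ((i + j) - t) ((i + j + ph) - t) (by omega))) (qf AL0 al 0 ((i + j + ph) - t) ((i + j + 2 * ph) - t) (by omega)))) (fun t h1 h2 => (qf (show Par W (j + de - j3 + 1) (j) (j3 - j) from fun t h1 h2 => (cE (sh al (-1) t (t + (-n)) (by omega)) (cE (qf a1 al (-1) (t + (-n)) (t + (i + h - j)) (by omega)) (pb BE al 0 (t + (i + h - j)) (t + (j3 - j)) (by omega))))) al 0 t (t + (j3 - j)) (by omega)))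
            · by_cases v12 : (i + 2 * ph) ≤ (j3)
              · have kk188 : (j + 1) ≤ (j3) := by clear * - y14; omega
                have kk189 : (j3 + 2) ≤ (j + 2 * ph) := by clear * - v12 z10 z6 z9; omega
                have kk190 : (j + 2 * de + 2) ≤ (2 * i + j3 + 4 * ph) := by clear * - z10; omega
                have kk191 : (j + 2) ≤ (j3) := by clear * - y14 ev n1p n4p n5p; omega
                have kk192 : (j3) ≤ (j + de + 1) := by clear * - v12 y0 z10 z6 z9; omega
                have kk193 : (i) ≤ (de) := by clear * - v12 z10 z7 z9; omega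
                have kk194 : (i + ph) ≤ (de) := by clear * - v12 z9; omega
                have kk195 : (0) ≤ (ph) := by clear * - z10 z7; omega
                have kk196 : (j + ph) ≤ (Q) := by clear * - v10; omega
                have kk197 : (de) ≤ (j3) := by clear * - v12 z10 z6 z9; omega
                have kk198 : (i + 2 * ph) ≤ (j3) := by clear * - v12; omega
                have r199 : (i + j + 2 * ph) % 2 = 0 := by clear * - ev n1p n4p n5p; omega
                have r200 : (j3 - j) % 2 = 0 := by clear * - ev n1p n4p n5p; omega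
                clear * - al a1 s2 AL0 BE kk188 kk189 kk190 kk191 kk192 kk193 kk194 kk195 kk196 kk197 kk198 r199 r200
                exact midP al (j3 - j) (i + j + 2 * ph) (j + 1) (j + de - j3 + 1) (j3) (by omega) (fun t h1 h2 => (cE (cE (qa s2 al 0 t ((i + j) - t) (by omega)) (qf AL0 al 0 ((i + j) - t) ((i + j + ph) - t) (by omega))) (qf AL0 al 0 ((i + j + ph) - t) ((i + j + 2 * ph) - t) (by omega)))) (fun t h1 h2 => (qf (show Par W (j + de - j3 + 1) (j) (j3 - j) from fun t h1 h2 => (cE (sh al (-1) t (t + (-n)) (by omega)) (cE (qf a1 al (-1) (t + (-n)) (t + (i + h - j)) (by omega)) (pb BE al 0 (t + (i + h - j)) (t + (j3 - j)) (by omega))))) al 0 t (t + (j3 - j)) (by omega)))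
              · have kk201 : (j + 1) ≤ (j3) := by clear * - v12 z11; omega
                have kk202 : (2 * i + 2 * ph + 2) ≤ (j + j3) := by clear * - v12 z11 z6 z9; omega
                have kk203 : (j + 2 * de + 2) ≤ (3 * j3) := by clear * - v12 z11 z6 z9; omega
                have kk204 : (2 * i + j + 4 * ph + 2) ≤ (3 * j3) := by clear * - z11; omega
                have kk205 : (j3) ≤ (j + de + 1) := by clear * - v12 y0 z11 z6 z9; omega
                have kk206 : (i) ≤ (de) := by clear * - v12 z10 z11 z7; omega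
                have kk207 : (i + ph) ≤ (de) := by clear * - v12 z11 z7; omega
                have kk208 : (0) ≤ (ph) := by clear * - z10 z7; omega
                have kk209 : (j + ph) ≤ (Q) := by clear * - v10; omega
                have kk210 : (j3) ≤ (i + 2 * ph) := by clear * - v12; omega
                have kk211 : (de) ≤ (i + 2 * ph) := by clear * - v12 z11 z6 z9; omega
                have r212 : (i + j + 2 * ph) % 2 = 0 := by clear * - ev n1p n4p n5p; omega
                have r213 : (j3 - j) % 2 = 0 := by clear * - ev n1p n4p n5p; omega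
                clear * - al a1 s2 AL0 BE kk201 kk202 kk203 kk204 kk205 kk206 kk207 kk208 kk209 kk210 kk211 r212 r213
                exact midP al (j3 - j) (i + j + 2 * ph) (i + j + 2 * ph - j3 + 1) (j + de - j3 + 1) (j3) (by omega) (fun t h1 h2 => (cE (cE (qa s2 al 0 t ((i + j) - t) (by omega)) (qf AL0 al 0 ((i + j) - t) ((i + j + ph) - t) (by omega))) (qf AL0 al 0 ((i + j + ph) - t) ((i + j + 2 * ph) - t) (by omega)))) (fun t h1 h2 => (qf (show Par W (j + de - j3 + 1) (j) (j3 - j) from fun t h1 h2 => (cE (sh al (-1) t (t + (-n)) (by omega)) (cE (qf a1 al (-1) (t + (-n)) (t + (i + h - j)) (by omega)) (pb BE al 0 (t + (i + h - j)) (t + (j3 - j)) (by omega))))) al 0 t (t + (j3 - j)) (by omega)))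
          · have kk214 : (j3 + 2) ≤ (i + 2 * ph) := by clear * - y14 z11 ev n1p n4p n5p; omega
            have kk215 : (i + j3 + 1) ≤ (2 * de) := by clear * - y14 z7 z9; omega
            have kk216 : (i) ≤ (j3) := by clear * - y14 z11 z6 z7; omega
            have kk217 : (i + ph) ≤ (j3) := by clear * - y14 z11 z6 z7; omega
            have kk218 : (0) ≤ (ph) := by clear * - z10 z7; omega
            have kk219 : (de + ph) ≤ (Q) := by clear * - b2 z6; omega
            have r220 : (2 * n + i + j3 - 2 * ph) % 2 = 0 := by clear * - ev n1p n4p n5p; omega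
            clear * - al u2 AL0 kk214 kk215 kk216 kk217 kk218 kk219 r220
            obtain ⟨t, ht⟩ : ∃ t, 2 * t = (2 * n + i + j3 - 2 * ph) := ⟨(2 * n + i + j3 - 2 * ph) / 2, by omega⟩
            exact al.ninv t (cE (cI (cE (qf AL0 al 1 t (t + (ph - n)) (by omega)) (qf AL0 al 0 (t + (ph - n)) (t + (2 * ph - n)) (by omega))) (qa u2 al 0 (t + (2 * ph - n)) ((n + i + j3 - 2 * ph) - t) (by omega))) (sh al 1 ((n + i + j3 - 2 * ph) - t) t (by omega)))
        · by_cases z12 : (2 * i + 2 * h + ph) ≤ (2 * Q + 2 * j)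
          · by_cases z13 : (2 * i + 2 * h) ≤ (4 * j + ph)
            · by_cases v13 : (2 * j + 1) ≤ (i + h)
              · have kk221 : (1) ≤ (ph) := by clear * - v13 z13; omega
                have kk222 : (2 * i + 2 * h + ph) ≤ (2 * Q + 2 * j) := by clear * - z12; omega
                have kk223 : (2 * i + 2 * h) ≤ (4 * j + ph) := by clear * - z13; omega
                have kk224 : (0) ≤ (2 * de + ph) := by clear * - v13 y12 y14 z13 z6; omega
                have kk225 : (2 * j + 1) ≤ (i + h) := by clear * - v13; omega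
                have kk226 : (Q) ≤ (i + h) := by clear * - v13 y14 y7 z13 z6; omega
                have kk227 : (2 * j + 1) ≤ (h + de + ph) := by clear * - v13 y14 z10 z13; omega
                have kk228 : (i + 1) ≤ (ph) := by clear * - b0; omega
                have r229 : (2 * j - 2 * n - h) % 2 = 0 := by clear * - ev n1p n4p n5p; omega
                have r230 : (ph) % 2 = 0 := by clear * - ev n1p n4p n5p; omega
                clear * - al a1 s2 AL0 kk221 kk222 kk223 kk224 kk225 kk226 kk227 kk228 r229 r230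
                exact midP al (ph) (2 * j - 2 * n - h) (-n) (i - n - ph + 1) (de + ph - n) (by omega) (fun t h1 h2 => (cE (cI (qf a1 al (-1) t (t + (n + i + h - j)) (by omega)) (qa s2 al 0 (t + (n + i + h - j)) ((2 * j - n - h) - t) (by omega))) (sh al (-1) ((2 * j - n - h) - t) ((2 * j - 2 * n - h) - t) (by omega)))) (fun t h1 h2 => (cE (qf AL0 al (-1) t (t + (n + ph)) (by omega)) (sh al (-1) (t + (n + ph)) (t + (ph)) (by omega))))
              · have kk231 : (1) ≤ (ph) := by clear * - y14 z6 z9; omega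
                have kk232 : (2 * j + ph + 2) ≤ (2 * Q) := by clear * - b2; omega
                have kk233 : (2) ≤ (ph) := by clear * - y14 z6 z9; omega
                have kk234 : (4 * j + 2) ≤ (2 * i + 2 * h + 2 * de + ph) := by clear * - y12 y14 z6 z9; omega
                have kk235 : (i + h) ≤ (2 * j + 1) := by clear * - v13; omega
                have kk236 : (Q) ≤ (i + h) := by clear * - y14 y7 z6 z9; omega
                have kk237 : (2 * j) ≤ (i + h + de) := by clear * - y12 y14 z6 z9; omega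
                have kk238 : (2 * i + h) ≤ (2 * j + ph) := by clear * - b0 v13; omega
                have r239 : (2 * j - 2 * n - h) % 2 = 0 := by clear * - ev n1p n4p n5p; omega
                have r240 : (ph) % 2 = 0 := by clear * - ev n1p n4p n5p; omega
                clear * - al a1 s2 AL0 kk231 kk232 kk233 kk234 kk235 kk236 kk237 kk238 r239 r240
                exact midP al (ph) (2 * j - 2 * n - h) (2 * j - n - i - h + 1) (i - n - ph + 1) (de + ph - n) (by omega) (fun t h1 h2 => (cE (cI (qf a1 al (-1) t (t + (n + i + h - j)) (by omega)) (qa s2 al 0 (t + (n + i + h - j)) ((2 * j - n - h) - t) (by omega))) (sh al (-1) ((2 * j - n - h) - t) ((2 * j - 2 * n - h) - t) (by omega)))) (fun t h1 h2 => (cE (qf AL0 al (-1) t (t + (n + ph)) (by omega)) (sh al (-1) (t + (n + ph)) (t + (ph)) (by omega))))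
            · by_cases z14 : (2 * i + 2 * h) ≤ (2 * j + 2 * j3 + ph)
              · by_cases v14 : (j3 + ph) ≤ (Q)
                · have kk241 : (1) ≤ (ph) := by clear * - z13 z14 z6 z9; omega
                  have kk242 : (2 * i + 2 * h) ≤ (2 * j + 2 * j3 + ph) := by clear * - z14; omega
                  have kk243 : (4 * i + 2 * h + 2) ≤ (2 * j + 2 * j3 + 3 * ph) := by clear * - b0 z14; omega
                  have kk244 : (2 * i + 2) ≤ (2 * de + 3 * ph) := by clear * - z10 z13 z14 z6 z9; omega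
                  have kk245 : (Q) ≤ (i + h) := by clear * - y7 z13 z14 z6 z9; omega
                  have kk246 : (j + j3 + 1) ≤ (i + h) := by clear * - z13 z6 z9; omega
                  have kk247 : (j + j3) ≤ (i + h + de) := by clear * - y12 z13 z14 z6 z9; omega
                  have kk248 : (j3 + ph) ≤ (Q) := by clear * - v14; omega
                  have r249 : (2 * n + j + j3 - h) % 2 = 0 := by clear * - ev n1p n4p n5p; omega
                  have r250 : (ph) % 2 = 0 := by clear * - ev n1p n4p n5p; omega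
                  clear * - al a1 u2 AL0 kk241 kk242 kk243 kk244 kk245 kk246 kk247 kk248 r249 r250
                  exact midP al (ph) (2 * n + j + j3 - h) (n + i - ph + 1) (n + i - ph + 1) (n + de + ph) (by omega) (fun t h1 h2 => (cE (cE (ab u2 al 1 t ((n + i + j3) - t) (by omega)) (pb a1 al 0 ((n + i + j3) - t) ((n + j + j3 - h) - t) (by omega))) (sh al 1 ((n + j + j3 - h) - t) ((2 * n + j + j3 - h) - t) (by omega)))) (fun t h1 h2 => (cE (qf AL0 al 1 t (t + (ph - n)) (by omega)) (sh al 1 (t + (ph - n)) (t + (ph)) (by omega))))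
                · have kk251 : (1) ≤ (ph) := by clear * - z13 z14 z6 z9; omega
                  have kk252 : (2 * i + 2 * h + ph) ≤ (2 * Q + 2 * j) := by clear * - z12; omega
                  have kk253 : (4 * i + 2 * h + 2) ≤ (2 * Q + 2 * j + ph) := by clear * - b0 z12; omega
                  have kk254 : (2 * i + 2 * j3 + 2) ≤ (2 * Q + 2 * de + ph) := by clear * - v14 z10 z12 z13 z6 z9; omega
                  have kk255 : (Q) ≤ (i + h) := by clear * - v14 y12 z13 z14 z6; omega
                  have kk256 : (j + j3 + 1) ≤ (i + h) := by clear * - z13 z6 z9; omega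
                  have kk257 : (j + j3) ≤ (i + h + de) := by clear * - y12 z13 z14 z6 z9; omega
                  have kk258 : (Q) ≤ (j3 + ph) := by clear * - v14; omega
                  have r259 : (2 * n + j + j3 - h) % 2 = 0 := by clear * - ev n1p n4p n5p; omega
                  have r260 : (ph) % 2 = 0 := by clear * - ev n1p n4p n5p; omega
                  clear * - al a1 u2 AL0 kk251 kk252 kk253 kk254 kk255 kk256 kk257 kk258 r259 r260
                  exact midP al (ph) (2 * n + j + j3 - h) (n + i + j3 - Q + 1) (n + i - ph + 1) (n + de + ph) (by omega) (fun t h1 h2 => (cE (cE (ab u2 al 1 t ((n + i + j3) - t) (by omega)) (pb a1 al 0 ((n + i + j3) - t) ((n + j + j3 - h) - t) (by omega))) (sh al 1 ((n + j + j3 - h) - t) ((2 * n + j + j3 - h) - t) (by omega)))) (fun t h1 h2 => (cE (qf AL0 al 1 t (t + (ph - n)) (by omega)) (sh al 1 (t + (ph - n)) (t + (ph)) (by omega))))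
              · have kk261 : (j3) ≤ (j + de) := by clear * - y14 y7 z12 z6 z9; omega
                have kk262 : (de + 1) ≤ (j3) := by clear * - y14 z6 z9; omega
                have kk263 : (1) ≤ (ph) := by clear * - y14 z6 z9; omega
                have kk264 : (i + 1) ≤ (de + ph) := by clear * - y14 z10 z6 z9; omega
                have kk265 : (i + j3 + 1) ≤ (j + de + ph) := by clear * - y14 z10 z6 z9; omega
                have kk266 : (j + 1) ≤ (j3 + ph) := by clear * - y14 z6 z9; omega
                have kk267 : (j) ≤ (j3) := by clear * - y14; omega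
                have kk268 : (j3) ≤ (j + de + 1) := by clear * - y14 y7 z12 z6 z9; omega
                have kk269 : (i) ≤ (de + ph) := by clear * - y14 z10 z6 z9; omega
                have kk270 : (i + j3) ≤ (j + de + ph) := by clear * - y14 z10 z6 z9; omega
                have kk271 : (j3) ≤ (de + ph) := by clear * - z9; omega
                have kk272 : (j) ≤ (de + ph) := by clear * - y14 z9; omega
                have kk273 : (i) ≤ (j + ph) := by clear * - y14 z10 z6 z9; omega
                have kk274 : (de) ≤ (j) := by clear * - y15; omega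
                have kk275 : (de + ph) ≤ (Q) := by clear * - b2 z6; omega
                have r276 : (j - j3) % 2 = 0 := by clear * - ev n1p n4p n5p; omega
                have r277 : (ph) % 2 = 0 := by clear * - ev n1p n4p n5p; omega
                have r278 : (i + j - 2 * n) % 2 = 0 := by clear * - ev n1p n4p n5p; omega
                clear * - al a1 s2 AL0 BE n4 kk261 kk262 kk263 kk264 kk265 kk266 kk267 kk268 kk269 kk270 kk271 kk272 kk273 kk274 kk275 r276 r277 r278
                exact ivt al.ninv (i - n - ph + 1) (de - n) (ph) (de - n + 1) (j3 - n) (j - j3) (de - n) (j + de - n - j3) 0 (fun t h1 h2 => (cE (qf AL0 al (-1) t (t + (n + ph)) (by omega)) (sh al (-1) (t + (n + ph)) (t + (ph)) (by omega)))) (fun t h1 h2 => (cE (sh al 1 t (t + (n)) (by omega)) (cE (pb (show Par W (j + de - j3 + 1) (j) (j3 - j) from fun t h1 h2 => (cE (sh al (-1) t (t + (-n)) (by omega)) (cE (qf a1 al (-1) (t + (-n)) (t + (i + h - j)) (by omega)) (pb BE al 0 (t + (i + h - j)) (t + (j3 - j)) (by omega)))))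 al 0 (t + (n)) (t + (n + j - j3)) (by omega)) (sh al (-1) (t + (n + j - j3)) (t + (j - j3)) (by omega))))) (fun hh => n4.f1 (rEE (cE (pb a1 al 0 (i + h + de - j3) (j + de - j3) (by omega)) (sh al (-1) (j + de - j3) (j + de - n - j3) (by omega))) (sh al (-1) (de) (de - n) (by omega)) (Eq.symm (Eq.symm hh)))) (by omega) (j - n + 1) (de + ph - n) (i + j - 2 * n) 0 0 (fun t h1 h2 => (cE (qa s2 al (-1) t ((i + j - n) - t) (by omega)) (sh al (-1) ((i + j - n) - t) ((i + j - 2 * n) - t) (by omega)))) (by omega)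
          · have kk279 : (j3) ≤ (j + de) := by clear * - b0 y0 z10 z6 z9; omega
            have kk280 : (de + 1) ≤ (j3) := by clear * - y14 z6 z9; omega
            have kk281 : (1) ≤ (ph) := by clear * - y14 z6 z9; omega
            have kk282 : (i + 1) ≤ (de + ph) := by clear * - y14 z10 z6 z9; omega
            have kk283 : (i + j3 + 1) ≤ (j + de + ph) := by clear * - y14 z10 z6 z9; omega
            have kk284 : (j + 1) ≤ (j3 + ph) := by clear * - y14 z6 z9; omega
            have kk285 : (j) ≤ (j3) := by clear * - y14; omega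
            have kk286 : (j3) ≤ (j + de + 1) := by clear * - b0 y0 z10 z6 z9; omega
            have kk287 : (i + j3) ≤ (j + de + ph) := by clear * - y14 z10 z6 z9; omega
            have kk288 : (i) ≤ (de + ph) := by clear * - y14 z10 z6 z9; omega
            have kk289 : (j) ≤ (de + ph) := by clear * - y14 z9; omega
            have kk290 : (j3) ≤ (de + ph) := by clear * - z9; omega
            have kk291 : (i) ≤ (j + ph) := by clear * - y14 z10 z6 z9; omega
            have kk292 : (de) ≤ (j) := by clear * - y15; omega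
            have kk293 : (de + ph) ≤ (Q) := by clear * - b2 z6; omega
            have r294 : (j3 - j) % 2 = 0 := by clear * - ev n1p n4p n5p; omega
            have r295 : (ph) % 2 = 0 := by clear * - ev n1p n4p n5p; omega
            have r296 : (i + j - 2 * n) % 2 = 0 := by clear * - ev n1p n4p n5p; omega
            clear * - al a1 s2 AL0 BE n4 kk279 kk280 kk281 kk282 kk283 kk284 kk285 kk286 kk287 kk288 kk289 kk290 kk291 kk292 kk293 r294 r295 r296
            exact ivt al.ninv (i - n - ph + 1) (de - n) (ph) (j + de - n - j3 + 1) (j - n) (j3 - j) (j + de - n - j3) (de - n) 0 (fun t h1 h2 => (cE (qf AL0 al (-1) t (t + (n + ph)) (by omega)) (sh al (-1) (t + (n + ph)) (t + (ph)) (by omega)))) (fun t h1 h2 => (cE (qf (show Par W (j + de - j3 + 1) (j) (j3 - j) from fun t h1 h2 => (cE (sh al (-1) t (t + (-n)) (by omega)) (cE (qf a1 al (-1) (t + (-n)) (t + (i + h - j)) (by omega)) (pb BE al 0 (t + (i + h - j)) (t + (j3 - j)) (by omega))))) al (-1) t (t + (n + j3 - j)) (by omega)) (sh al (-1)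 (t + (n + j3 - j)) (t + (j3 - j)) (by omega)))) (fun hh => n4.f1 (rEE (cE (pb a1 al 0 (i + h + de - j3) (j + de - j3) (by omega)) (sh al (-1) (j + de - j3) (j + de - n - j3) (by omega))) (sh al (-1) (de) (de - n) (by omega)) (Eq.symm hh))) (by omega) (j - n + 1) (de + ph - n) (i + j - 2 * n) 0 0 (fun t h1 h2 => (cI (sh al 1 t (t + (n)) (by omega)) (cE (qa s2 al 0 (t + (n)) ((i + j - n) - t) (by omega)) (sh al (-1) ((i + j - n) - t) ((i + j - 2 * n) - t) (by omega))))) (by omega)

theorem rz5_6 {W : ℤ → G} {n Q i j h de j3 ph : ℤ} (al : AL W n Q)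
    (hy : (0) ≤ (i) ∧ (i) ≤ (j) ∧ (j + 1) ≤ (Q) ∧ (i) ≤ (j3) ∧ (j3 + 1) ≤ (Q) ∧ (0) ≤ (de) ∧ (de + 1) ≤ (j3) ∧ (Q + j3) ≤ (i + h + de) ∧ (j + 1) ≤ (h) ∧ (0) ≤ (ph) ∧ (ph + 1) ≤ (h) ∧ (3 * h + j3 + 2 * ph) ≤ (n + i) ∧ (3 * j3 + 1) ≤ (i + h + 2 * de) ∧ (i + 1) ≤ (de) ∧ (j + 1) ≤ (j3) ∧ (de + 1) ≤ (j))
    (a1 : Par W (0) (j) (i + h - j))
    (a2 : Par W (Q + j - i - h) (j) (i + h - j))
    (s1 : Ant W (0) (i) (i + j))
    (s2 : Ant W (j + 1) (Q) (i + j))
    (u1 : Ant W (0) (i) (i + j3))
    (u2 : Ant W (j3 + 1) (Q) (i + j3))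
    (GG : Par W (i + 1) (h + de + ph) (h))
    (AL0 : Par W (i - ph + 1) (de) (ph))
    (AL1 : Par W (i - h - ph + 1) (de) (h + ph))
    (BE : Par W (de + 1) (j3) (i + h - j3))
    (T2 : Ant W (Q) (i + h + de - j3) (i + 2 * h + 2 * de + ph - j3))
    (n1 : Nd W (j) (i) (i + h))
    (n4 : Nd W (h + de + ph) (i + h + de - j3) (de))
    (n5 : Nd W (j3) (i) (i + h))
    (b0 : (i + 1) ≤ (ph))
    (b1 : (2 * Q) ≤ (2 * j + ph + 1))
    (b2 : (i + j + ph + 1) ≤ (2 * Q)) : False := by
  have ev := al.ev
  obtain ⟨y0, y1, y2, y3, y4, y5, y6, y7, y8, y9, y10, y11, y12, y13, y14, y15⟩ := id hy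
  have n1p := And.intro n1.p1 n1.p2
  have n4p := And.intro n4.p1 n4.p2
  have n5p := And.intro n5.p1 n5.p2
  by_cases z16 : (j3 + ph + 1) ≤ (i + h)
  · have kk297 : (j3 + ph + 2) ≤ (i + h) := by clear * - z16 ev n1p n4p n5p; omega
    have kk298 : (2 * Q + j3) ≤ (i + h + 2 * de + ph + 1) := by clear * - b1 y12 y14; omega
    have kk299 : (i) ≤ (de + ph) := by clear * - y13 y9; omega
    have kk300 : (i + de + 1) ≤ (Q + j3) := by clear * - b1 b2 y14 y15 y9; omega
    have r301 : (2 * n + i + h + 2 * de + ph - j3) % 2 = 0 := by clear * - ev n1p n4p n5p; omega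
    clear * - al GG T2 kk297 kk298 kk299 kk300 r301
    obtain ⟨t, ht⟩ : ∃ t, 2 * t = (2 * n + i + h + 2 * de + ph - j3) := ⟨(2 * n + i + h + 2 * de + ph - j3) / 2, by omega⟩
    exact al.ninv t (cE (cI (qf GG al 1 t (t + (h - n)) (by omega)) (ab T2 al 0 (t + (h - n)) ((n + i + h + 2 * de + ph - j3) - t) (by omega))) (sh al 1 ((n + i + h + 2 * de + ph - j3) - t) t (by omega)))
  · by_cases z17 : (j + j3 + 2) ≤ (2 * i + 2 * ph)
    · by_cases z18 : (2 * i + j + j3 + 2 * ph + 2) ≤ (4 * Q)
      · by_cases v15 : (i + ph) ≤ (Q)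
        · have kk302 : (j + 1) ≤ (j3) := by clear * - y14; omega
          have kk303 : (j + j3 + 2) ≤ (2 * Q) := by clear * - v15 z17; omega
          have kk304 : (j + j3 + 2) ≤ (2 * i + 2 * ph) := by clear * - z17; omega
          have kk305 : (j) ≤ (j3) := by clear * - y14; omega
          have kk306 : (i) ≤ (de) := by clear * - y13; omega
          have kk307 : (Q) ≤ (j + ph) := by clear * - b1 v15 y14 z17; omega
          have kk308 : (i + ph) ≤ (Q) := by clear * - v15; omega
          have r309 : (i + j + ph) % 2 = 0 := by clear * - ev n1p n4p n5p; omega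
          have r310 : (j3 - j) % 2 = 0 := by clear * - ev n1p n4p n5p; omega
          clear * - al s2 u2 AL0 kk302 kk303 kk304 kk305 kk306 kk307 kk308 r309 r310
          exact midP al (j3 - j) (i + j + ph) (j + 1) (j + 1) (Q) (by omega) (fun t h1 h2 => (cE (qa s2 al 0 t ((i + j) - t) (by omega)) (qf AL0 al 0 ((i + j) - t) ((i + j + ph) - t) (by omega)))) (fun t h1 h2 => (qf (show Par W (j + 1) (Q + j - j3) (j3 - j) from fun t h1 h2 => (cE (sh al (-1) t (t + (-n)) (by omega)) (cII (qa s2 al (-1) (t + (-n)) ((i + j) - t) (by omega)) (ab u2 al 0 ((i + j) - t) (t + (j3 - j)) (by omega))))) al 0 t (t + (j3 - j)) (by omega)))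
        · have kk311 : (j + 1) ≤ (j3) := by clear * - y14; omega
          have kk312 : (2 * i + j + j3 + 2 * ph + 2) ≤ (4 * Q) := by clear * - z18; omega
          have kk313 : (j + j3 + 2) ≤ (2 * Q) := by clear * - v15 z18; omega
          have kk314 : (j) ≤ (j3) := by clear * - y14; omega
          have kk315 : (i) ≤ (de) := by clear * - y13; omega
          have kk316 : (Q) ≤ (j + ph) := by clear * - b1 b2 v15; omega
          have kk317 : (Q) ≤ (i + ph) := by clear * - v15; omega
          have r318 : (i + j + ph) % 2 = 0 := by clear * - ev n1p n4p n5p; omega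
          have r319 : (j3 - j) % 2 = 0 := by clear * - ev n1p n4p n5p; omega
          clear * - al s2 u2 AL0 kk311 kk312 kk313 kk314 kk315 kk316 kk317 r318 r319
          exact midP al (j3 - j) (i + j + ph) (i + j + ph - Q + 1) (j + 1) (Q) (by omega) (fun t h1 h2 => (cE (qa s2 al 0 t ((i + j) - t) (by omega)) (qf AL0 al 0 ((i + j) - t) ((i + j + ph) - t) (by omega)))) (fun t h1 h2 => (qf (show Par W (j + 1) (Q + j - j3) (j3 - j) from fun t h1 h2 => (cE (sh al (-1) t (t + (-n)) (by omega)) (cII (qa s2 al (-1) (t + (-n)) ((i + j) - t) (by omega)) (ab u2 al 0 ((i + j) - t) (t + (j3 - j)) (by omega))))) al 0 t (t + (j3 - j)) (by omega)))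
      · have kk320 : (i + j + ph + 2) ≤ (2 * Q) := by clear * - b2 ev n1p n4p n5p; omega
        have kk321 : (j + 1) ≤ (i + ph) := by clear * - b2 z17 z18; omega
        have kk322 : (Q) ≤ (j + ph) := by clear * - b1 b2 z17 z18; omega
        have kk323 : (i) ≤ (de) := by clear * - y13; omega
        have r324 : (i + j + ph - 2 * n) % 2 = 0 := by clear * - ev n1p n4p n5p; omega
        clear * - al s2 AL0 kk320 kk321 kk322 kk323 r324
        obtain ⟨t, ht⟩ : ∃ t, 2 * t = (i + j + ph - 2 * n) := ⟨(i + j + ph - 2 * n) / 2, by omega⟩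
        exact al.ninv t (cE (cI (pb AL0 al (-1) t (t + (n - ph)) (by omega)) (ab s2 al 0 (t + (n - ph)) ((i + j + ph - n) - t) (by omega))) (sh al (-1) ((i + j + ph - n) - t) t (by omega)))
    · by_cases z19 : (Q) ≤ (i + j + 1)
      · have kk325 : (j + 1) ≤ (j3) := by clear * - y14; omega
        have kk326 : (j3 + 1) ≤ (n + j) := by clear * - y11 y12 y14 y15 z16 z17; omega
        have kk327 : (j3 + 1) ≤ (Q) := by clear * - y4; omega
        have kk328 : (Q) ≤ (i + j + 1) := by clear * - z19; omega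
        clear * - al s1 u1 kk325 kk326 kk327 kk328
        exact al.ubQ (j3 - j) (by omega) (by omega) fun t h1 h2 => (cE (sh al (-1) t (t + (-n)) (by omega)) (cII (ab s1 al (-1) (t + (-n)) ((i + j) - t) (by omega)) (qa u1 al 0 ((i + j) - t) (t + (j3 - j)) (by omega))))
      · by_cases z20 : (j + 2 * de + 2) ≤ (2 * i + j3 + 2 * ph)
        · by_cases v16 : (i + ph) ≤ (de)
          · have kk329 : (j + 1) ≤ (j3) := by clear * - v16 z20; omega
            have kk330 : (j + 2 * de + 2) ≤ (2 * i + j3 + 2 * ph) := by clear * - z20; omega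
            have kk331 : (j + 4 * de + 2) ≤ (2 * i + 3 * j3 + 2 * ph) := by clear * - z17 z20; omega
            have kk332 : (j + 2 * de + 2) ≤ (3 * j3) := by clear * - v16 z17 z20; omega
            have kk333 : (j3) ≤ (j + de + 1) := by clear * - v16 y0 y12 y15 z16 z20; omega
            have kk334 : (Q) ≤ (j + ph) := by clear * - b1 y12 z16 z17 z20; omega
            have kk335 : (i) ≤ (de) := by clear * - y13; omega
            have kk336 : (i + ph) ≤ (de) := by clear * - v16; omega
            have kk337 : (i + j3 + ph) ≤ (Q + de) := by clear * - v16 y4; omega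
            have r338 : (i + j + ph - 2 * n) % 2 = 0 := by clear * - ev n1p n4p n5p; omega
            have r339 : (j3 - j) % 2 = 0 := by clear * - ev n1p n4p n5p; omega
            clear * - al a1 s2 AL0 BE kk329 kk330 kk331 kk332 kk333 kk334 kk335 kk336 kk337 r338 r339
            exact midP al (j3 - j) (i + j + ph - 2 * n) (j + de - n - j3 + 1) (j + de - n - j3 + 1) (j3 - n) (by omega) (fun t h1 h2 => (cE (cI (pb AL0 al (-1) t (t + (n - ph)) (by omega)) (ab s2 al 0 (t + (n - ph)) ((i + j + ph - n) - t) (by omega))) (sh al (-1) ((i + j + ph - n) - t) ((i + j + ph - 2 * n) - t) (by omega)))) (fun t h1 h2 => (cE (qf (show Par W (j + de - j3 + 1) (j) (j3 - j) from fun t h1 h2 => (cE (sh al (-1) t (t + (-n)) (by omega)) (cE (qf a1 al (-1) (t + (-n)) (t + (i + h - j)) (by omega)) (pb BE al 0 (t + (i + h - j)) (t + (j3 - j)) (by omega))))) al (-1) t (t + (n + j3 - j)) (by omega)) (sh al (-1) (t + (n + j3 - j)) (t + (j3 - j)) (by omega))))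
          · have kk340 : (j + 1) ≤ (j3) := by clear * - y14; omega
            have kk341 : (j + 2) ≤ (j3) := by clear * - y14 ev n1p n4p n5p; omega
            have kk342 : (j + 2 * de + 2) ≤ (3 * j3) := by clear * - v16 y14 z17; omega
            have kk343 : (2 * i + j + 2 * ph + 2) ≤ (3 * j3) := by clear * - y14 z17 ev n1p n4p n5p; omega
            have kk344 : (j3) ≤ (j + de + 1) := by clear * - v16 y0 y12 z16 z17; omega
            have kk345 : (Q) ≤ (j + ph) := by clear * - b1 v16 y13; omega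
            have kk346 : (i) ≤ (de) := by clear * - y13; omega
            have kk347 : (de) ≤ (i + ph) := by clear * - v16; omega
            have kk348 : (j3) ≤ (Q) := by clear * - y4; omega
            have r349 : (i + j + ph - 2 * n) % 2 = 0 := by clear * - ev n1p n4p n5p; omega
            have r350 : (j3 - j) % 2 = 0 := by clear * - ev n1p n4p n5p; omega
            clear * - al a1 s2 AL0 BE kk340 kk341 kk342 kk343 kk344 kk345 kk346 kk347 kk348 r349 r350
            exact midP al (j3 - j) (i + j + ph - 2 * n) (i + j + ph - n - j3 + 1) (j + de - n - j3 + 1) (j3 - n) (by omega) (fun t h1 h2 => (cE (cI (pb AL0 al (-1) t (t + (n - ph)) (by omega)) (ab s2 al 0 (t + (n - ph)) ((i + j + ph - n) - t) (by omega))) (sh al (-1) ((i + j + ph - n) - t) ((i + j + ph - 2 * n) - t) (by omega)))) (fun t h1 h2 => (cE (qf (show Par W (j + de - j3 + 1) (j) (j3 - j) from fun t h1 h2 => (cE (sh al (-1) t (t + (-n)) (by omega)) (cE (qf a1 al (-1) (t + (-n)) (t + (i + h - j)) (by omega)) (pb BE al 0 (t +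 (i + h - j)) (t + (j3 - j)) (by omega))))) al (-1) t (t + (n + j3 - j)) (by omega)) (sh al (-1) (t + (n + j3 - j)) (t + (j3 - j)) (by omega))))
        · by_cases z21 : (de + ph + 1) ≤ (i + h)
          · by_cases v17 : (2 * de + ph + 1) ≤ (Q + j3)
            · have kk351 : (i + 1) ≤ (de + ph) := by clear * - y12 y14 z16 z20 z21; omega
              have kk352 : (1) ≤ (h) := by clear * - y12 y14 z16 z20 z21; omega
              have kk353 : (j + 1) ≤ (i + h) := by clear * - y12 y14 z16 z21; omega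
              have kk354 : (0) ≤ (j) := by clear * - y15 y5; omega
              have kk355 : (0) ≤ (de) := by clear * - y5; omega
              have kk356 : (de + 1) ≤ (i + h) := by clear * - y12 z16 z21; omega
              have kk357 : (0) ≤ (de + ph) := by clear * - y12 y5 z16 z21; omega
              have kk358 : (de + ph + 1) ≤ (i + h) := by clear * - z21; omega
              have kk359 : (Q + j3) ≤ (j + 2 * de + 2) := by clear * - b1 y0 y12 y14 z16 z20; omega
              have kk360 : (i) ≤ (de + ph) := by clear * - y12 y14 z16 z20 z21; omega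
              have kk361 : (i + de + 1) ≤ (Q + j3) := by clear * - b2 v17 y12 z16 z20 z21; omega
              have kk362 : (0) ≤ (ph) := by clear * - y12 z16 z21; omega
              have kk363 : (i + 1) ≤ (ph) := by clear * - b0; omega
              have kk364 : (de) ≤ (i + h) := by clear * - y12 z16 z21; omega
              have kk365 : (de + ph) ≤ (i + h) := by clear * - z21; omega
              have kk366 : (0) ≤ (de + ph + 1) := by clear * - y12 y5 z16 z21; omega
              have kk367 : (de) ≤ (j3) := by clear * - z16 z21; omega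
              have kk368 : (2 * de + ph + 1) ≤ (Q + j3) := by clear * - v17; omega
              have kk369 : (0) ≤ (Q) := by clear * - v17 y12 y5 z16 z21; omega
              have r370 : (ph) % 2 = 0 := by clear * - ev n1p n4p n5p; omega
              have r371 : (i + h - j) % 2 = 0 := by clear * - ev n1p n4p n5p; omega
              have r372 : (i + h + 2 * de + ph - j3) % 2 = 0 := by clear * - ev n1p n4p n5p; omega
              clear * - al a1 GG AL0 T2 n4 kk351 kk352 kk353 kk354 kk355 kk356 kk357 kk358 kk359 kk360 kk361 kk362 kk363 kk364 kk365 kk366 kk367 kk368 kk369 r370 r371 r372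
              exact ivt al.ninv (0) (j) (i + h - j) (0) (de) (ph) (de) (de + ph) 0 (fun t h1 h2 => (qf a1 al 0 t (t + (i + h - j)) (by omega))) (fun t h1 h2 => (qf AL0 al 0 t (t + (ph)) (by omega))) (fun hh => n4.f0 (rEE (pb GG al 0 (h + de + ph) (de + ph) (by omega)) (sh al 0 (de) (de) (by omega)) (Eq.symm (Eq.symm hh)))) (by omega) (de + ph + 1) (i + h + 2 * de + ph - Q - j3 + 1) (i + h + 2 * de + ph - j3) 1 0 (fun t h1 h2 => (cI (qf GG al 0 t (t + (h)) (by omega)) (ab T2 al 0 (t + (h)) ((i + h + 2 * de + ph - j3) - t) (by omega)))) (by omega)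
            · have kk373 : (i + 1) ≤ (de + ph) := by clear * - b2 v17 y15 z16 z21; omega
              have kk374 : (1) ≤ (h) := by clear * - b2 v17 y15 z16 z21; omega
              have kk375 : (j + 1) ≤ (i + h) := by clear * - y12 y14 z16 z21; omega
              have kk376 : (0) ≤ (j) := by clear * - y15 y5; omega
              have kk377 : (0) ≤ (de) := by clear * - y5; omega
              have kk378 : (de + 1) ≤ (i + h) := by clear * - y12 z16 z21; omega
              have kk379 : (0) ≤ (de + ph) := by clear * - y12 y5 z16 z21; omega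
              have kk380 : (de + ph + 1) ≤ (i + h) := by clear * - z21; omega
              have kk381 : (ph) ≤ (j + 1) := by clear * - y0 y15 z17 z20; omega
              have kk382 : (i) ≤ (de + ph) := by clear * - b2 v17 y15 z16 z21; omega
              have kk383 : (i + de + 1) ≤ (Q + j3) := by clear * - b2 v17 y15 z16 z21; omega
              have kk384 : (0) ≤ (ph) := by clear * - y12 z16 z21; omega
              have kk385 : (i + 1) ≤ (ph) := by clear * - b0; omega
              have kk386 : (de) ≤ (i + h) := by clear * - y12 z16 z21; omega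
              have kk387 : (de + ph) ≤ (i + h) := by clear * - z21; omega
              have kk388 : (0) ≤ (de + ph + 1) := by clear * - y12 y5 z16 z21; omega
              have kk389 : (de) ≤ (j3) := by clear * - z16 z21; omega
              have kk390 : (j3) ≤ (2 * de + ph + 1) := by clear * - y12 y5 z16 z21; omega
              have kk391 : (Q + j3) ≤ (2 * de + ph + 1) := by clear * - v17; omega
              have r392 : (ph) % 2 = 0 := by clear * - ev n1p n4p n5p; omega
              have r393 : (i + h - j) % 2 = 0 := by clear * - ev n1p n4p n5p; omega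
              have r394 : (i + h + 2 * de + ph - j3) % 2 = 0 := by clear * - ev n1p n4p n5p; omega
              clear * - al a1 GG AL0 T2 n4 kk373 kk374 kk375 kk376 kk377 kk378 kk379 kk380 kk381 kk382 kk383 kk384 kk385 kk386 kk387 kk388 kk389 kk390 kk391 r392 r393 r394
              exact ivt al.ninv (0) (j) (i + h - j) (0) (de) (ph) (de) (de + ph) 0 (fun t h1 h2 => (qf a1 al 0 t (t + (i + h - j)) (by omega))) (fun t h1 h2 => (qf AL0 al 0 t (t + (ph)) (by omega))) (fun hh => n4.f0 (rEE (pb GG al 0 (h + de + ph) (de + ph) (by omega)) (sh al 0 (de) (de) (by omega)) (Eq.symm (Eq.symm hh)))) (by omega) (de + ph + 1) (i + h) (i + h + 2 * de + ph - j3) 1 0 (fun t h1 h2 => (cI (qf GG al 0 t (t + (h)) (by omega)) (ab T2 al 0 (t + (h)) ((i + h + 2 * de + ph - j3) - t) (by omega)))) (by omega)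
          · have kk395 : (i + h + 1) ≤ (j + ph) := by clear * - y15 z21; omega
            have kk396 : (j + ph + 1) ≤ (n + i + h) := by clear * - y11 y12 y14 y15 z20 z21; omega
            have kk397 : (ph) ≤ (Q) := by clear * - y0 y15 z17 z19 z20; omega
            have kk398 : (Q + j) ≤ (i + h + de) := by clear * - y14 y7; omega
            have kk399 : (i + 1) ≤ (ph) := by clear * - b0; omega
            have kk400 : (de) ≤ (j) := by clear * - y15; omega
            clear * - al a1 AL0 kk395 kk396 kk397 kk398 kk399 kk400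
            exact al.ubQ (j + ph - i - h) (by omega) (by omega) fun t h1 h2 => (cE (sh al (-1) t (t + (-n)) (by omega)) (cE (pb a1 al (-1) (t + (-n)) (t + (j - i - h)) (by omega)) (qf AL0 al 0 (t + (j - i - h)) (t + (j + ph - i - h)) (by omega))))

theorem rz5_7 {W : ℤ → G} {n Q i j h de j3 ph : ℤ} (al : AL W n Q)
    (hy : (0) ≤ (i) ∧ (i) ≤ (j) ∧ (j + 1) ≤ (Q) ∧ (i) ≤ (j3) ∧ (j3 + 1) ≤ (Q) ∧ (0) ≤ (de) ∧ (de + 1) ≤ (j3) ∧ (Q + j3) ≤ (i + h + de) ∧ (j + 1) ≤ (h) ∧ (0) ≤ (ph) ∧ (ph + 1) ≤ (h) ∧ (3 * h + j3 + 2 * ph) ≤ (n + i) ∧ (3 * j3 + 1) ≤ (i + h + 2 * de) ∧ (i + 1) ≤ (de) ∧ (j + 1) ≤ (j3) ∧ (de + 1) ≤ (j))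
    (a1 : Par W (0) (j) (i + h - j))
    (a2 : Par W (Q + j - i - h) (j) (i + h - j))
    (s1 : Ant W (0) (i) (i + j))
    (s2 : Ant W (j + 1) (Q) (i + j))
    (u1 : Ant W (0) (i) (i + j3))
    (u2 : Ant W (j3 + 1) (Q) (i + j3))
    (GG : Par W (i + 1) (h + de + ph) (h))
    (AL0 : Par W (i - ph + 1) (de) (ph))
    (AL1 : Par W (i - h - ph + 1) (de) (h + ph))
    (BE : Par W (de + 1) (j3) (i + h - j3))
    (T2 : Ant W (Q) (i + h + de - j3) (i + 2 * h + 2 * de + ph - j3))
    (n1 : Nd W (j) (i) (i + h))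
    (n4 : Nd W (h + de + ph) (i + h + de - j3) (de))
    (n5 : Nd W (j3) (i) (i + h))
    (b0 : (i + 1) ≤ (ph))
    (b1 : (2 * Q) ≤ (i + j + ph)) : False := by
  have ev := al.ev
  obtain ⟨y0, y1, y2, y3, y4, y5, y6, y7, y8, y9, y10, y11, y12, y13, y14, y15⟩ := id hy
  have n1p := And.intro n1.p1 n1.p2
  have n4p := And.intro n4.p1 n4.p2
  have n5p := And.intro n5.p1 n5.p2
  by_cases z22 : (h) ≤ (j + j3)
  · by_cases z23 : (j3) ≤ (2 * i + j)
    · by_cases z24 : (Q) ≤ (i + j + 1)
      · have kk401 : (j + 1) ≤ (j3) := by clear * - y14; omega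
        have kk402 : (j3 + 1) ≤ (n + j) := by clear * - b0 y11 y12 y13 y14 y15 z23; linarith
        have kk403 : (j3 + 1) ≤ (Q) := by clear * - y4; omega
        have kk404 : (Q) ≤ (i + j + 1) := by clear * - z24; omega
        clear * - al s1 u1 kk401 kk402 kk403 kk404
        exact al.ubQ (j3 - j) (by omega) (by omega) fun t h1 h2 => (cE (sh al 1 t (t + (n)) (by omega)) (cII (ab s1 al 1 (t + (n)) ((i + j) - t) (by omega)) (qa u1 al 0 ((i + j) - t) (t + (j3 - j)) (by omega))))
      · by_cases z25 : (i + h + 1) ≤ (j + ph)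
        · by_cases v18 : (i + h) ≤ (de + ph)
          · have kk405 : (i + h + 1) ≤ (j + ph) := by clear * - z25; omega
            have kk406 : (j + ph + 1) ≤ (n + i + h) := by clear * - v18 y11 y12 y13 y14 y15; omega
            have kk407 : (ph) ≤ (i + h) := by clear * - y10 y14 z23; omega
            have kk408 : (j + 1) ≤ (h) := by clear * - b1 y10 y14 z23 z24; omega
            have kk409 : (i + h) ≤ (de + ph) := by clear * - v18; omega
            clear * - al a1 AL0 kk405 kk406 kk407 kk408 kk409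
            exact al.ubP (j + ph - i - h) (by omega) (by omega) fun t h1 h2 => (cE (qf AL0 al 0 t (t + (ph)) (by omega)) (pb a1 al 0 (t + (ph)) (t + (j + ph - i - h)) (by omega)))
          · have kk410 : (i + h + 1) ≤ (j + ph) := by clear * - z25; omega
            have kk411 : (j + ph + 1) ≤ (n + i + h) := by clear * - b1 v18 y11 y13 y14 z23 z24 z25; linarith
            have kk412 : (0) ≤ (de) := by clear * - y13 y14 z23; omega
            have kk413 : (j + 1) ≤ (h) := by clear * - b1 v18 y13 y14 z23 z24; omega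
            have kk414 : (de + ph) ≤ (i + h) := by clear * - v18; omega
            clear * - al a1 AL0 kk410 kk411 kk412 kk413 kk414
            exact al.ubP (j + ph - i - h) (by omega) (by omega) fun t h1 h2 => (cE (qf AL0 al 0 t (t + (ph)) (by omega)) (pb a1 al 0 (t + (ph)) (t + (j + ph - i - h)) (by omega)))
        · have kk415 : (h) ≤ (j + j3) := by clear * - z22; omega
          have kk416 : (h) ≤ (j + j3 + 1) := by clear * - z22; omega
          have kk417 : (j + j3 + 1) ≤ (i + h) := by clear * - b1 y4 z24 z25; omega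
          have kk418 : (j3 + 1) ≤ (h) := by clear * - b1 y12 y13 y15 z23 z24 z25; linarith
          have r419 : (j + j3 - h) % 2 = 0 := by clear * - ev n1p n4p n5p; omega
          clear * - al a1 u1 kk415 kk416 kk417 kk418 r419
          obtain ⟨t, ht⟩ : ∃ t, 2 * t = (j + j3 - h) := ⟨(j + j3 - h) / 2, by omega⟩
          exact al.ninv t (cI (qf a1 al 0 t (t + (i + h - j)) (by omega)) (ab u1 al 0 (t + (i + h - j)) t (by omega)))
    · by_cases v19 : (i + h) ≤ (de + ph)
      · have kk420 : (i + h + 1) ≤ (j + ph) := by clear * - v19 y15; omega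
        have kk421 : (j + ph + 1) ≤ (n + i + h) := by clear * - v19 y11 y12 y14 y15 z22 z23; linarith
        have kk422 : (ph) ≤ (i + h) := by clear * - y0 y10; omega
        have kk423 : (j + 1) ≤ (h) := by clear * - y12 y14 y15 z23; omega
        have kk424 : (i + h) ≤ (de + ph) := by clear * - v19; omega
        clear * - al a1 AL0 kk420 kk421 kk422 kk423 kk424
        exact al.ubP (j + ph - i - h) (by omega) (by omega) fun t h1 h2 => (cE (sh al (-1) t (t + (-n)) (by omega)) (cE (qf AL0 al (-1) (t + (-n)) (t + (ph)) (by omega)) (pb a1 al 0 (t + (ph)) (t + (j + ph - i - h)) (by omega))))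
      · have kk425 : (i + h + 1) ≤ (j + ph) := by clear * - b1 y4 z22 z23; omega
        have kk426 : (j + ph + 1) ≤ (n + i + h) := by clear * - b0 v19 y11 y12 y14 z22 z23; linarith
        have kk427 : (0) ≤ (de) := by clear * - b0 v19 y12 y14 z22 z23; omega
        have kk428 : (j + 1) ≤ (h) := by clear * - b0 v19 y12 y14 z23; omega
        have kk429 : (de + ph) ≤ (i + h) := by clear * - v19; omega
        clear * - al a1 AL0 kk425 kk426 kk427 kk428 kk429
        exact al.ubP (j + ph - i - h) (by omega) (by omega) fun t h1 h2 => (cE (sh al (-1) t (t + (-n)) (by omega)) (cE (qf AL0 al (-1) (t + (-n)) (t + (ph)) (by omega)) (pb a1 al 0 (t + (ph)) (t + (j + ph - i - h)) (by omega))))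
  · by_cases z26 : (i + h) ≤ (j + ph)
    · by_cases z27 : (j + ph) ≤ (i + h)
      · have kk430 : (Q) ≤ (de + ph) := by clear * - b1 y12 y13 y14 y15 z26; omega
        have kk431 : (de + ph + 1) ≤ (i + h) := by clear * - y15 z27; omega
        have kk432 : (i + h) ≤ (j + ph) := by clear * - z26; omega
        have kk433 : (j + ph) ≤ (i + h) := by clear * - z27; omega
        have kk434 : (i + 1) ≤ (Q) := by clear * - y13 y14 y15 y4; omega
        have kk435 : (i) ≤ (de + ph) := by clear * - y12 y13 y14 y15 z26; omega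
        clear * - al a2 GG n4 kk430 kk431 kk432 kk433 kk434 kk435
        exact n4.f0 (cE (pb GG al 0 (h + de + ph) (de + ph) (by omega)) (pb a2 al 0 (de + ph) (de) (by omega)))
      · by_cases v20 : (i + h) ≤ (de + ph)
        · have kk436 : (i + h + 1) ≤ (j + ph) := by clear * - z27; omega
          have kk437 : (j + ph + 1) ≤ (n + i + h) := by clear * - v20 y11 y12 y13 y14 y15; omega
          have kk438 : (ph) ≤ (i + h) := by clear * - y0 y10; omega
          have kk439 : (j + 1) ≤ (h) := by clear * - y12 y13 y14 y15 z22; omega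
          have kk440 : (i + h) ≤ (de + ph) := by clear * - v20; omega
          clear * - al a1 AL0 kk436 kk437 kk438 kk439 kk440
          exact al.ubP (j + ph - i - h) (by omega) (by omega) fun t h1 h2 => (cE (sh al (-1) t (t + (-n)) (by omega)) (cE (qf AL0 al (-1) (t + (-n)) (t + (ph)) (by omega)) (pb a1 al 0 (t + (ph)) (t + (j + ph - i - h)) (by omega))))
        · have kk441 : (i + h + 1) ≤ (j + ph) := by clear * - z27; omega
          have kk442 : (j + ph + 1) ≤ (n + i + h) := by clear * - v20 y11 y12 y13 y14 z27; omega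
          have kk443 : (0) ≤ (de) := by clear * - y5; omega
          have kk444 : (j + 1) ≤ (h) := by clear * - v20 y12 y13 y14 z22 z27; omega
          have kk445 : (de + ph) ≤ (i + h) := by clear * - v20; omega
          clear * - al a1 AL0 kk441 kk442 kk443 kk444 kk445
          exact al.ubP (j + ph - i - h) (by omega) (by omega) fun t h1 h2 => (cE (sh al (-1) t (t + (-n)) (by omega)) (cE (qf AL0 al (-1) (t + (-n)) (t + (ph)) (by omega)) (pb a1 al 0 (t + (ph)) (t + (j + ph - i - h)) (by omega))))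
    · by_cases v21 : (Q + j + ph) ≤ (2 * i + h + 1)
      · have kk446 : (j + ph + 1) ≤ (i + h) := by clear * - z26; omega
        have kk447 : (j + ph + 2) ≤ (i + h) := by clear * - v21 y13 y14 y15 y4; omega
        have kk448 : (i + j + 2) ≤ (h + 2 * de + ph) := by clear * - y13 y9 z26; omega
        have kk449 : (3 * j + ph + 2) ≤ (i + h + 2 * j3) := by clear * - y14 z26; omega
        have kk450 : (i + de + 1) ≤ (Q + j3) := by clear * - y13 y14 y15 y4; omega
        have kk451 : (i) ≤ (de + ph) := by clear * - y13 y9; omega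
        have kk452 : (Q + j + ph) ≤ (2 * i + h + 1) := by clear * - v21; omega
        have kk453 : (de) ≤ (j) := by clear * - y15; omega
        have kk454 : (i + j3) ≤ (j + de + ph) := by clear * - b1 y13 y14 y15 y4; omega
        have kk455 : (Q + j3) ≤ (j + de + ph + 1) := by clear * - b1 y13 y4; omega
        have r456 : (i + h + 2 * de + ph - 2 * n - j3) % 2 = 0 := by clear * - ev n1p n4p n5p; omega
        have r457 : (i + h - j - ph) % 2 = 0 := by clear * - ev n1p n4p n5p; omega
        clear * - al a2 GG AL0 T2 kk446 kk447 kk448 kk449 kk450 kk451 kk452 kk453 kk454 kk455 r456 r457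
        exact midP al (i + h - j - ph) (i + h + 2 * de + ph - 2 * n - j3) (j + de + ph - n - j3 + 1) (i - n + 1) (i + h + de - n - j) (by omega) (fun t h1 h2 => (cE (cE (qa T2 al (-1) t ((i + 2 * h + 2 * de + ph - n - j3) - t) (by omega)) (pb GG al 0 ((i + 2 * h + 2 * de + ph - n - j3) - t) ((i + h + 2 * de + ph - n - j3) - t) (by omega))) (sh al (-1) ((i + h + 2 * de + ph - n - j3) - t) ((i + h + 2 * de + ph - 2 * n - j3) - t) (by omega)))) (fun t h1 h2 => (cE (cE (pb AL0 al (-1) t (t + (n - ph)) (by omega)) (qf a2 al 0 (t + (n - ph)) (t + (n + i + h - j - ph)) (by omega))) (sh al (-1) (t + (n + i + h - j - ph)) (t + (i + h - j - ph)) (by omega))))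
      · have kk458 : (j + ph + 1) ≤ (i + h) := by clear * - z26; omega
        have kk459 : (j + ph + 2) ≤ (i + h) := by clear * - z26 ev n1p n4p n5p; omega
        have kk460 : (2 * Q + 3 * j + ph) ≤ (3 * i + 3 * h + 2 * de) := by clear * - b1 v21 y12 y13 y14 z26; omega
        have kk461 : (3 * j + ph + 2) ≤ (i + h + 2 * j3) := by clear * - y14 z26; omega
        have kk462 : (i + de + 1) ≤ (Q + j3) := by clear * - v21 y14 y15 z26; omega
        have kk463 : (i) ≤ (de + ph) := by clear * - b1 v21 y12 y13 y14 z26; omega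
        have kk464 : (2 * i + h + 1) ≤ (Q + j + ph) := by clear * - v21; omega
        have kk465 : (de) ≤ (j) := by clear * - y15; omega
        have kk466 : (Q + j3) ≤ (j + de + ph + 1) := by clear * - b1 v21 y12 y13; omega
        have kk467 : (Q + j3) ≤ (i + h + de + 1) := by clear * - b1 v21 y12 y13 z26; omega
        have r468 : (i + h + 2 * de + ph - 2 * n - j3) % 2 = 0 := by clear * - ev n1p n4p n5p; omega
        have r469 : (i + h - j - ph) % 2 = 0 := by clear * - ev n1p n4p n5p; omega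
        clear * - al a2 GG AL0 T2 kk458 kk459 kk460 kk461 kk462 kk463 kk464 kk465 kk466 kk467 r468 r469
        exact midP al (i + h - j - ph) (i + h + 2 * de + ph - 2 * n - j3) (j + de + ph - n - j3 + 1) (Q + j + ph - n - i - h) (i + h + de - n - j) (by omega) (fun t h1 h2 => (cE (cE (qa T2 al (-1) t ((i + 2 * h + 2 * de + ph - n - j3) - t) (by omega)) (pb GG al 0 ((i + 2 * h + 2 * de + ph - n - j3) - t) ((i + h + 2 * de + ph - n - j3) - t) (by omega))) (sh al (-1) ((i + h + 2 * de + ph - n - j3) - t) ((i + h + 2 * de + ph - 2 * n - j3) - t) (by omega)))) (fun t h1 h2 => (cE (cE (pb AL0 al (-1) t (t + (n - ph)) (by omega)) (qf a2 al 0 (t + (n - ph)) (t + (n + i + h - j - ph)) (by omega))) (sh al (-1) (t + (n + i + h - j - ph)) (t + (i + h - j - ph)) (by omega))))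

theorem rz5_5 {W : ℤ → G} {n Q i j h de j3 ph : ℤ} (al : AL W n Q)
    (hy : (0) ≤ (i) ∧ (i) ≤ (j) ∧ (j + 1) ≤ (Q) ∧ (i) ≤ (j3) ∧ (j3 + 1) ≤ (Q) ∧ (0) ≤ (de) ∧ (de + 1) ≤ (j3) ∧ (Q + j3) ≤ (i + h + de) ∧ (j + 1) ≤ (h) ∧ (0) ≤ (ph) ∧ (ph + 1) ≤ (h) ∧ (3 * h + j3 + 2 * ph) ≤ (n + i) ∧ (3 * j3 + 1) ≤ (i + h + 2 * de) ∧ (i + 1) ≤ (de) ∧ (j + 1) ≤ (j3) ∧ (de + 1) ≤ (j))
    (a1 : Par W (0) (j) (i + h - j))
    (a2 : Par W (Q + j - i - h) (j) (i + h - j))
    (s1 : Ant W (0) (i) (i + j))
    (s2 : Ant W (j + 1) (Q) (i + j))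
    (u1 : Ant W (0) (i) (i + j3))
    (u2 : Ant W (j3 + 1) (Q) (i + j3))
    (GG : Par W (i + 1) (h + de + ph) (h))
    (AL0 : Par W (i - ph + 1) (de) (ph))
    (AL1 : Par W (i - h - ph + 1) (de) (h + ph))
    (BE : Par W (de + 1) (j3) (i + h - j3))
    (T2 : Ant W (Q) (i + h + de - j3) (i + 2 * h + 2 * de + ph - j3))
    (n1 : Nd W (j) (i) (i + h))
    (n4 : Nd W (h + de + ph) (i + h + de - j3) (de))
    (n5 : Nd W (j3) (i) (i + h))
    (b0 : (i + 1) ≤ (ph))
    (b1 : (2 * Q) ≤ (2 * j + ph + 1)) : False := by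
  have ev := al.ev
  obtain ⟨y0, y1, y2, y3, y4, y5, y6, y7, y8, y9, y10, y11, y12, y13, y14, y15⟩ := id hy
  have n1p := And.intro n1.p1 n1.p2
  have n4p := And.intro n4.p1 n4.p2
  have n5p := And.intro n5.p1 n5.p2
  by_cases z15 : (i + j + ph + 1) ≤ (2 * Q)
  · exact rz5_6 al hy a1 a2 s1 s2 u1 u2 GG AL0 AL1 BE T2 n1 n4 n5 (by clear * - b0; omega) (by clear * - b1; omega) (by clear * - z15; omega)
  · exact rz5_7 al hy a1 a2 s1 s2 u1 u2 GG AL0 AL1 BE T2 n1 n4 n5 (by clear * - b0; omega) (by clear * - z15; omega)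

theorem rz5_3 {W : ℤ → G} {n Q i j h de j3 ph : ℤ} (al : AL W n Q)
    (hy : (0) ≤ (i) ∧ (i) ≤ (j) ∧ (j + 1) ≤ (Q) ∧ (i) ≤ (j3) ∧ (j3 + 1) ≤ (Q) ∧ (0) ≤ (de) ∧ (de + 1) ≤ (j3) ∧ (Q + j3) ≤ (i + h + de) ∧ (j + 1) ≤ (h) ∧ (0) ≤ (ph) ∧ (ph + 1) ≤ (h) ∧ (3 * h + j3 + 2 * ph) ≤ (n + i) ∧ (3 * j3 + 1) ≤ (i + h + 2 * de) ∧ (i + 1) ≤ (de) ∧ (j + 1) ≤ (j3) ∧ (de + 1) ≤ (j))
    (a1 : Par W (0) (j) (i + h - j))
    (a2 : Par W (Q + j - i - h) (j) (i + h - j))
    (s1 : Ant W (0) (i) (i + j))
    (s2 : Ant W (j + 1) (Q) (i + j))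
    (u1 : Ant W (0) (i) (i + j3))
    (u2 : Ant W (j3 + 1) (Q) (i + j3))
    (GG : Par W (i + 1) (h + de + ph) (h))
    (AL0 : Par W (i - ph + 1) (de) (ph))
    (AL1 : Par W (i - h - ph + 1) (de) (h + ph))
    (BE : Par W (de + 1) (j3) (i + h - j3))
    (T2 : Ant W (Q) (i + h + de - j3) (i + 2 * h + 2 * de + ph - j3))
    (n1 : Nd W (j) (i) (i + h))
    (n4 : Nd W (h + de + ph) (i + h + de - j3) (de))
    (n5 : Nd W (j3) (i) (i + h))
    (b0 : (i + 1) ≤ (ph))
    (b1 : (j3 + 1) ≤ (j + ph)) : False := by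
  have ev := al.ev
  obtain ⟨y0, y1, y2, y3, y4, y5, y6, y7, y8, y9, y10, y11, y12, y13, y14, y15⟩ := id hy
  have n1p := And.intro n1.p1 n1.p2
  have n4p := And.intro n4.p1 n4.p2
  have n5p := And.intro n5.p1 n5.p2
  by_cases z5 : (2 * j + ph + 2) ≤ (2 * Q)
  · exact rz5_4 al hy a1 a2 s1 s2 u1 u2 GG AL0 AL1 BE T2 n1 n4 n5 (by clear * - b0; omega) (by clear * - b1; omega) (by clear * - z5; omega)
  · exact rz5_5 al hy a1 a2 s1 s2 u1 u2 GG AL0 AL1 BE T2 n1 n4 n5 (by clear * - b0; omega) (by clear * - z5; omega)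

theorem rz5_2 {W : ℤ → G} {n Q i j h de j3 ph : ℤ} (al : AL W n Q)
    (hy : (0) ≤ (i) ∧ (i) ≤ (j) ∧ (j + 1) ≤ (Q) ∧ (i) ≤ (j3) ∧ (j3 + 1) ≤ (Q) ∧ (0) ≤ (de) ∧ (de + 1) ≤ (j3) ∧ (Q + j3) ≤ (i + h + de) ∧ (j + 1) ≤ (h) ∧ (0) ≤ (ph) ∧ (ph + 1) ≤ (h) ∧ (3 * h + j3 + 2 * ph) ≤ (n + i) ∧ (3 * j3 + 1) ≤ (i + h + 2 * de) ∧ (i + 1) ≤ (de) ∧ (j + 1) ≤ (j3) ∧ (de + 1) ≤ (j))
    (a1 : Par W (0) (j) (i + h - j))
    (a2 : Par W (Q + j - i - h) (j) (i + h - j))
    (s1 : Ant W (0) (i) (i + j))
    (s2 : Ant W (j + 1) (Q) (i + j))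
    (u1 : Ant W (0) (i) (i + j3))
    (u2 : Ant W (j3 + 1) (Q) (i + j3))
    (GG : Par W (i + 1) (h + de + ph) (h))
    (AL0 : Par W (i - ph + 1) (de) (ph))
    (AL1 : Par W (i - h - ph + 1) (de) (h + ph))
    (BE : Par W (de + 1) (j3) (i + h - j3))
    (T2 : Ant W (Q) (i + h + de - j3) (i + 2 * h + 2 * de + ph - j3))
    (n1 : Nd W (j) (i) (i + h))
    (n4 : Nd W (h + de + ph) (i + h + de - j3) (de))
    (n5 : Nd W (j3) (i) (i + h))
    (b0 : (i + 1) ≤ (ph))
    (b1 : (j + ph) ≤ (j3)) : False := by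
  have ev := al.ev
  obtain ⟨y0, y1, y2, y3, y4, y5, y6, y7, y8, y9, y10, y11, y12, y13, y14, y15⟩ := id hy
  have n1p := And.intro n1.p1 n1.p2
  have n4p := And.intro n4.p1 n4.p2
  have n5p := And.intro n5.p1 n5.p2
  by_cases z3 : (j3) ≤ (j + de + 1)
  · have kk6 : (i + 1) ≤ (de + ph) := by clear * - b0 y14 z3; omega
    have kk7 : (1) ≤ (h) := by clear * - b0 b1 y12 y14 y15 z3; omega
    have kk8 : (1) ≤ (ph) := by clear * - b0 y0; omega
    have kk9 : (j + 1) ≤ (j3) := by clear * - y14; omega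
    have kk10 : (i + j3) ≤ (j + de + ph) := by clear * - b0 z3; omega
    have kk11 : (de + ph + 1) ≤ (j3) := by clear * - b1 y15; omega
    have kk12 : (j3) ≤ (j + de + 1) := by clear * - z3; omega
    have r13 : (ph) % 2 = 0 := by clear * - ev n1p n4p n5p; omega
    have r14 : (j3 - j) % 2 = 0 := by clear * - ev n1p n4p n5p; omega
    clear * - al a1 GG AL0 BE n4 kk6 kk7 kk8 kk9 kk10 kk11 kk12 r13 r14
    exact n4.f0 (rEE (cE (pb GG al 0 (h + de + ph) (de + ph) (by omega)) (sh al (-1) (de + ph) (de + ph - n) (by omega))) (sh al (-1) (de) (de - n) (by omega)) (Eq.symm (rotR (ph) (j3 - j) (de - n) (de + ph - n) (by omega) (fun t h1 h2 => (cE (qf AL0 al (-1) t (t + (n + ph)) (by omega)) (sh al (-1) (t + (n + ph)) (t + (ph)) (by omega)))) (fun t h1 h2 => (cE (qf (show Par W (j + de - j3 + 1) (j) (j3 - j) from fun t h1 h2 => (cE (sh al (-1) t (t + (-n)) (by omega)) (cE (qf a1 al (-1) (t + (-n)) (t + (i + h - j)) (by omega)) (pb BE al 0 (t + (i + h - j)) (t + (j3 - j)) (by omega))))) al (-1)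 t (t + (n + j3 - j)) (by omega)) (sh al (-1) (t + (n + j3 - j)) (t + (j3 - j)) (by omega)))))))
  · by_cases z4 : (2 * Q + j3) ≤ (i + h + 2 * de + ph)
    · have kk15 : (2 * Q + j3) ≤ (i + h + 2 * de + ph) := by clear * - z4; omega
      have kk16 : (j3 + ph + 1) ≤ (i + h) := by clear * - b1 y12 y14 y15; omega
      have kk17 : (i + 1) ≤ (Q) := by clear * - y13 y14 y15 y4; omega
      have kk18 : (i) ≤ (j3 + ph) := by clear * - b1 y13 y15 y9; omega
      have r19 : (i + 3 * h + 2 * de + ph - j3) % 2 = 0 := by clear * - ev n1p n4p n5p; omega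
      clear * - al GG T2 kk15 kk16 kk17 kk18 r19
      obtain ⟨t, ht⟩ : ∃ t, 2 * t = (i + 3 * h + 2 * de + ph - j3) := ⟨(i + 3 * h + 2 * de + ph - j3) / 2, by omega⟩
      exact al.ninv t (cI (pb GG al 0 t (t + (-h)) (by omega)) (qa T2 al 0 (t + (-h)) t (by omega)))
    · by_cases v1 : (Q + de) ≤ (j + j3 + ph)
      · have kk20 : (j + 1) ≤ (j3) := by clear * - y14; omega
        have kk21 : (j + j3 + 2 * ph + 2) ≤ (2 * Q) := by clear * - b1 y12 z4; omega
        have kk22 : (j + 2) ≤ (j3) := by clear * - y5 z3; omega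
        have kk23 : (j) ≤ (j3) := by clear * - y14; omega
        have kk24 : (0) ≤ (ph) := by clear * - y9; omega
        have kk25 : (i) ≤ (de + ph) := by clear * - y13 y9; omega
        have kk26 : (Q + de) ≤ (j + j3 + ph) := by clear * - v1; omega
        have kk27 : (Q) ≤ (j + h + ph) := by clear * - b1 v1 y12 y13 y14 z4; omega
        have kk28 : (j3) ≤ (Q) := by clear * - y12 y9 z4; omega
        have r29 : (2 * n + j + j3 + ph) % 2 = 0 := by clear * - ev n1p n4p n5p; omega
        have r30 : (j3 - j) % 2 = 0 := by clear * - ev n1p n4p n5p; omega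
        clear * - al s2 u2 AL1 BE kk20 kk21 kk22 kk23 kk24 kk25 kk26 kk27 kk28 r29 r30
        exact midP al (j3 - j) (2 * n + j + j3 + ph) (n + j + ph + 1) (n + j + 1) (n + Q) (by omega) (fun t h1 h2 => (cE (cE (cE (qa s2 al 1 t ((n + i + j) - t) (by omega)) (qf AL1 al 0 ((n + i + j) - t) ((n + i + j + h + ph) - t) (by omega))) (pb BE al 0 ((n + i + j + h + ph) - t) ((n + j + j3 + ph) - t) (by omega))) (sh al 1 ((n + j + j3 + ph) - t) ((2 * n + j + j3 + ph) - t) (by omega)))) (fun t h1 h2 => (cE (qf (show Par W (j + 1) (Q + j - j3) (j3 - j) from fun t h1 h2 => (cE (sh al (-1) t (t + (-n)) (by omega)) (cII (qa s2 al (-1) (t + (-n)) ((i + j) - t) (by omega)) (ab u2 al 0 ((i + j) - t) (t + (j3 - j)) (by omega))))) al 1 t (t + (j3 - n - j)) (by omega)) (sh al 1 (t + (j3 - n - j)) (t + (j3 - j)) (by omega))))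
      · have kk31 : (j + 1) ≤ (j3) := by clear * - y14; omega
        have kk32 : (2 * de + 2) ≤ (j + j3) := by clear * - y14 y15; omega
        have kk33 : (j + 2) ≤ (j3) := by clear * - y5 z3; omega
        have kk34 : (j + j3 + 2 * ph + 2) ≤ (2 * Q) := by clear * - v1 y14 y15; omega
        have kk35 : (j) ≤ (j3) := by clear * - y14; omega
        have kk36 : (0) ≤ (ph) := by clear * - y9; omega
        have kk37 : (i) ≤ (de + ph) := by clear * - y13 y9; omega
        have kk38 : (j3) ≤ (h + de) := by clear * - y12 y13 y14 y15; omega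
        have kk39 : (j + j3 + ph) ≤ (Q + de) := by clear * - v1; omega
        have kk40 : (j3) ≤ (Q) := by clear * - v1 y15 y9; omega
        have r41 : (2 * n + j + j3 + ph) % 2 = 0 := by clear * - ev n1p n4p n5p; omega
        have r42 : (j3 - j) % 2 = 0 := by clear * - ev n1p n4p n5p; omega
        clear * - al s2 u2 AL1 BE kk31 kk32 kk33 kk34 kk35 kk36 kk37 kk38 kk39 kk40 r41 r42
        exact midP al (j3 - j) (2 * n + j + j3 + ph) (n + j + ph + 1) (n + j + 1) (n + Q) (by omega) (fun t h1 h2 => (cE (cE (cE (qa s2 al 1 t ((n + i + j) - t) (by omega)) (qf AL1 al 0 ((n + i + j) - t) ((n + i + j + h + ph) - t) (by omega))) (pb BE al 0 ((n + i + j + h + ph) - t) ((n + j + j3 + ph) - t) (by omega))) (sh al 1 ((n + j + j3 + ph) - t) ((2 * n + j + j3 + ph) - t) (by omega)))) (fun t h1 h2 => (cE (qf (show Par W (j + 1) (Q + j - j3) (j3 - j) from fun t h1 h2 => (cE (sh al (-1) t (t + (-n)) (by omega)) (cII (qa s2 al (-1) (t + (-n)) ((i + j) - t) (by omega)) (ab u2 al 0 ((i + j) - t) (t + (j3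 - j)) (by omega))))) al 1 t (t + (j3 - n - j)) (by omega)) (sh al 1 (t + (j3 - n - j)) (t + (j3 - j)) (by omega))))

theorem rz5_1 {W : ℤ → G} {n Q i j h de j3 ph : ℤ} (al : AL W n Q)
    (hy : (0) ≤ (i) ∧ (i) ≤ (j) ∧ (j + 1) ≤ (Q) ∧ (i) ≤ (j3) ∧ (j3 + 1) ≤ (Q) ∧ (0) ≤ (de) ∧ (de + 1) ≤ (j3) ∧ (Q + j3) ≤ (i + h + de) ∧ (j + 1) ≤ (h) ∧ (0) ≤ (ph) ∧ (ph + 1) ≤ (h) ∧ (3 * h + j3 + 2 * ph) ≤ (n + i) ∧ (3 * j3 + 1) ≤ (i + h + 2 * de) ∧ (i + 1) ≤ (de) ∧ (j + 1) ≤ (j3) ∧ (de + 1) ≤ (j))
    (a1 : Par W (0) (j) (i + h - j))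
    (a2 : Par W (Q + j - i - h) (j) (i + h - j))
    (s1 : Ant W (0) (i) (i + j))
    (s2 : Ant W (j + 1) (Q) (i + j))
    (u1 : Ant W (0) (i) (i + j3))
    (u2 : Ant W (j3 + 1) (Q) (i + j3))
    (GG : Par W (i + 1) (h + de + ph) (h))
    (AL0 : Par W (i - ph + 1) (de) (ph))
    (AL1 : Par W (i - h - ph + 1) (de) (h + ph))
    (BE : Par W (de + 1) (j3) (i + h - j3))
    (T2 : Ant W (Q) (i + h + de - j3) (i + 2 * h + 2 * de + ph - j3))
    (n1 : Nd W (j) (i) (i + h))
    (n4 : Nd W (h + de + ph) (i + h + de - j3) (de))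
    (n5 : Nd W (j3) (i) (i + h))
    (b0 : (i + 1) ≤ (ph)) : False := by
  have ev := al.ev
  obtain ⟨y0, y1, y2, y3, y4, y5, y6, y7, y8, y9, y10, y11, y12, y13, y14, y15⟩ := id hy
  have n1p := And.intro n1.p1 n1.p2
  have n4p := And.intro n4.p1 n4.p2
  have n5p := And.intro n5.p1 n5.p2
  by_cases z2 : (j + ph) ≤ (j3)
  · exact rz5_2 al hy a1 a2 s1 s2 u1 u2 GG AL0 AL1 BE T2 n1 n4 n5 (by clear * - b0; omega) (by clear * - z2; omega)
  · exact rz5_3 al hy a1 a2 s1 s2 u1 u2 GG AL0 AL1 BE T2 n1 n4 n5 (by clear * - b0; omega) (by clear * - z2; omega)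

theorem rz5 {W : ℤ → G} {n Q i j h de j3 ph : ℤ} (al : AL W n Q)
    (hy : (0) ≤ (i) ∧ (i) ≤ (j) ∧ (j + 1) ≤ (Q) ∧ (i) ≤ (j3) ∧ (j3 + 1) ≤ (Q) ∧ (0) ≤ (de) ∧ (de + 1) ≤ (j3) ∧ (Q + j3) ≤ (i + h + de) ∧ (j + 1) ≤ (h) ∧ (0) ≤ (ph) ∧ (ph + 1) ≤ (h) ∧ (3 * h + j3 + 2 * ph) ≤ (n + i) ∧ (3 * j3 + 1) ≤ (i + h + 2 * de) ∧ (i + 1) ≤ (de) ∧ (j + 1) ≤ (j3) ∧ (de + 1) ≤ (j))
    (a1 : Par W (0) (j) (i + h - j))
    (a2 : Par W (Q + j - i - h) (j) (i + h - j))
    (s1 : Ant W (0) (i) (i + j))
    (s2 : Ant W (j + 1) (Q) (i + j))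
    (u1 : Ant W (0) (i) (i + j3))
    (u2 : Ant W (j3 + 1) (Q) (i + j3))
    (GG : Par W (i + 1) (h + de + ph) (h))
    (AL0 : Par W (i - ph + 1) (de) (ph))
    (AL1 : Par W (i - h - ph + 1) (de) (h + ph))
    (BE : Par W (de + 1) (j3) (i + h - j3))
    (T2 : Ant W (Q) (i + h + de - j3) (i + 2 * h + 2 * de + ph - j3))
    (n1 : Nd W (j) (i) (i + h))
    (n4 : Nd W (h + de + ph) (i + h + de - j3) (de))
    (n5 : Nd W (j3) (i) (i + h)) : False := by
  have ev := al.ev
  obtain ⟨y0, y1, y2, y3, y4, y5, y6, y7, y8, y9, y10, y11, y12, y13, y14, y15⟩ := id hy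
  have n1p := And.intro n1.p1 n1.p2
  have n4p := And.intro n4.p1 n4.p2
  have n5p := And.intro n5.p1 n5.p2
  by_cases z1 : (ph) ≤ (i)
  · have kk1 : (i + 1) ≤ (j + ph) := by clear * - y13 y15 y9; omega
    have kk2 : (j + ph + 1) ≤ (n + i) := by clear * - y11 y12 y13 y14 y15 y9; omega
    have kk3 : (ph) ≤ (i) := by clear * - z1; omega
    have kk4 : (j + 1) ≤ (h) := by clear * - y8; omega
    have kk5 : (i) ≤ (de + ph) := by clear * - y13 y9; omega
    clear * - al a1 AL1 kk1 kk2 kk3 kk4 kk5
    exact al.ubP (j + ph - i) (by omega) (by omega) fun t h1 h2 => (cE (qf AL1 al 0 t (t + (h + ph)) (by omega)) (pb a1 al 0 (t + (h + ph)) (t + (j + ph - i)) (by omega)))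
  · exact rz5_1 al hy a1 a2 s1 s2 u1 u2 GG AL0 AL1 BE T2 n1 n4 n5 (by clear * - z1; omega)

theorem rz7_1 {W : ℤ → G} {n Q i j h de j3 ph : ℤ} (al : AL W n Q)
    (hy : (0) ≤ (i) ∧ (i) ≤ (j) ∧ (j + 1) ≤ (Q) ∧ (i) ≤ (j3) ∧ (j3 + 1) ≤ (Q) ∧ (0) ≤ (de) ∧ (de + 1) ≤ (j3) ∧ (Q + j3) ≤ (i + h + de) ∧ (j + 1) ≤ (h) ∧ (0) ≤ (ph) ∧ (ph + 1) ≤ (h) ∧ (3 * h + j3 + 2 * ph) ≤ (n + i) ∧ (3 * j3 + 1) ≤ (i + h + 2 * de) ∧ (i + 1) ≤ (de) ∧ (j + 1) ≤ (j3) ∧ (j + 1) ≤ (de))
    (a1 : Par W (0) (j) (i + h - j))
    (a2 : Par W (Q + j - i - h) (j) (i + h - j))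
    (s1 : Ant W (0) (i) (i + j))
    (s2 : Ant W (j + 1) (Q) (i + j))
    (u1 : Ant W (0) (i) (i + j3))
    (u2 : Ant W (j3 + 1) (Q) (i + j3))
    (GG : Par W (i + 1) (h + de + ph) (h))
    (AL0 : Par W (i - ph + 1) (de) (ph))
    (AL1 : Par W (i - h - ph + 1) (de) (h + ph))
    (BE : Par W (de + 1) (j3) (i + h - j3))
    (T2 : Ant W (Q) (i + h + de - j3) (i + 2 * h + 2 * de + ph - j3))
    (n1 : Nd W (j) (i) (i + h))
    (n4 : Nd W (h + de + ph) (i + h + de - j3) (de))
    (n5 : Nd W (j3) (i) (i + h))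
    (b0 : (j + j3 + 2) ≤ (2 * i + h)) : False := by
  have ev := al.ev
  obtain ⟨y0, y1, y2, y3, y4, y5, y6, y7, y8, y9, y10, y11, y12, y13, y14, y15⟩ := id hy
  have n1p := And.intro n1.p1 n1.p2
  have n4p := And.intro n4.p1 n4.p2
  have n5p := And.intro n5.p1 n5.p2
  by_cases z2 : (j + j3) ≤ (2 * de)
  · have kk1 : (1) ≤ (h) := by clear * - y10 y9; omega
    have kk2 : (j + j3 + 2) ≤ (2 * i + h) := by clear * - b0; omega
    have kk3 : (j3 + 2) ≤ (j + h) := by clear * - b0 y1; omega
    have kk4 : (j + j3 + 2) ≤ (3 * h + 2 * de) := by clear * - y10 y9 z2; omega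
    have kk5 : (j + j3) ≤ (2 * de) := by clear * - z2; omega
    have kk6 : (2 * Q + j3) ≤ (j + 2 * h + 2 * de + 2 * ph) := by clear * - y1 y14 y7 y9; omega
    have kk7 : (2 * Q + j + j3) ≤ (4 * h + 4 * de + 2 * ph) := by clear * - y10 y13 y14 y7 y9; omega
    have kk8 : (i) ≤ (de) := by clear * - y13; omega
    have kk9 : (Q) ≤ (j + h + ph) := by clear * - y1 y6 y7 y9; omega
    have kk10 : (i + 1) ≤ (Q) := by clear * - y13 y4 y6; omega
    have kk11 : (i + de + 1) ≤ (Q + j3) := by clear * - y13 y4 y6; omega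
    have kk12 : (de) ≤ (j3) := by clear * - y6; omega
    have kk13 : (i) ≤ (h + de + ph) := by clear * - y10 y13 y9; omega
    have r14 : (i + 2 * h + 2 * de + ph - 2 * n - j3) % 2 = 0 := by clear * - ev n1p n4p n5p; omega
    have r15 : (h) % 2 = 0 := by clear * - ev n1p n4p n5p; omega
    have r16 : (i + j + h + ph - 2 * n) % 2 = 0 := by clear * - ev n1p n4p n5p; omega
    clear * - al s2 GG AL1 T2 kk1 kk2 kk3 kk4 kk5 kk6 kk7 kk8 kk9 kk10 kk11 kk12 kk13 r14 r15 r16
    exact mid2 al (h) (i + 2 * h + 2 * de + ph - 2 * n - j3) (i + j + h + ph - 2 * n) (Q - n) (i + h + de - n - j3) 0 (i - n + 1) (2 * h + de + ph - n) (by omega) (fun t h1 h2 => ⟨by omega, (cE (qa T2 al (-1) t ((i + 2 * h + 2 * de + ph - n - j3) - t) (by omega)) (sh al (-1) ((i + 2 * h + 2 * de + ph - n - j3) - t) ((i + 2 * h + 2 * de + ph - 2 * n - j3) - t) (by omega)))⟩) (fun t h1 h2 => ⟨by omega, (cE (cE (qa s2 al (-1) t ((i + j - n) - t) (by omega)) (qf AL1 al 0 ((i + j - n) - t) ((i + j + h + ph - n) - t) (by omega)))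 (sh al (-1) ((i + j + h + ph - n) - t) ((i + j + h + ph - 2 * n) - t) (by omega)))⟩) (fun t h1 h2 => (cE (qf GG al (-1) t (t + (n + h)) (by omega)) (sh al (-1) (t + (n + h)) (t + (h)) (by omega))))
  · by_cases z3 : (ph) ≤ (0)
    · have kk17 : (i + 1) ≤ (de + ph) := by clear * - y13 y9; omega
      have kk18 : (1) ≤ (h) := by clear * - b0 y13 z2; omega
      have kk19 : (0) ≤ (ph) := by clear * - y9; omega
      have kk20 : (ph) ≤ (0) := by clear * - z3; omega
      clear * - al GG n4 kk17 kk18 kk19 kk20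
      exact n4.f0 (pb GG al 0 (h + de + ph) (de) (by omega))
    · by_cases z4 : (2 * j + ph + 2) ≤ (2 * Q)
      · have kk21 : (1) ≤ (ph) := by clear * - z3; omega
        have kk22 : (2 * j + ph + 2) ≤ (2 * Q) := by clear * - z4; omega
        have kk23 : (2) ≤ (ph) := by clear * - z3 ev n1p n4p n5p; omega
        have kk24 : (2 * j + 2) ≤ (2 * de + ph) := by clear * - y15 z3; omega
        have kk25 : (i) ≤ (j + ph) := by clear * - y1 z3; omega
        have kk26 : (i) ≤ (de + ph) := by clear * - y13 z3; omega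
        have r27 : (i + j) % 2 = 0 := by clear * - ev n1p n4p n5p; omega
        have r28 : (ph) % 2 = 0 := by clear * - ev n1p n4p n5p; omega
        clear * - al s2 AL0 kk21 kk22 kk23 kk24 kk25 kk26 r27 r28
        exact midP al (ph) (i + j) (j + 1) (i - ph + 1) (de + ph) (by omega) (fun t h1 h2 => (qa s2 al 0 t ((i + j) - t) (by omega))) (fun t h1 h2 => (qf AL0 al 0 t (t + (ph)) (by omega)))
      · by_cases z5 : (h) ≤ (2 * j)
        · have kk29 : (h) ≤ (j + j3) := by clear * - y15 z2 z5; omega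
          have kk30 : (j + j3 + 1) ≤ (2 * i + h) := by clear * - b0; omega
          have kk31 : (i) ≤ (j) := by clear * - y1; omega
          have r32 : (2 * n + 2 * i + h + j3 - j) % 2 = 0 := by clear * - ev n1p n4p n5p; omega
          clear * - al a1 u1 kk29 kk30 kk31 r32
          obtain ⟨t, ht⟩ : ∃ t, 2 * t = (2 * n + 2 * i + h + j3 - j) := ⟨(2 * n + 2 * i + h + j3 - j) / 2, by omega⟩
          exact al.ninv t (cE (cI (pb a1 al 1 t (t + (j - n - i - h)) (by omega)) (qa u1 al 0 (t + (j - n - i - h)) ((n + 2 * i + h + j3 - j) - t) (by omega))) (sh al 1 ((n + 2 * i + h + j3 - j) - t) t (by omega)))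
        · by_cases z6 : (h) ≤ (j + j3)
          · by_cases v1 : (j + j3 + 1) ≤ (i + h)
            · have kk33 : (h) ≤ (j + j3) := by clear * - z6; omega
              have kk34 : (h) ≤ (j + j3 + 1) := by clear * - z6; omega
              have kk35 : (j + j3 + 1) ≤ (i + h) := by clear * - v1; omega
              have kk36 : (j3 + 1) ≤ (h) := by clear * - y10 y4 z4 z5; omega
              have r37 : (j + j3 - h) % 2 = 0 := by clear * - ev n1p n4p n5p; omega
              clear * - al a1 u1 kk33 kk34 kk35 kk36 r37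
              obtain ⟨t, ht⟩ : ∃ t, 2 * t = (j + j3 - h) := ⟨(j + j3 - h) / 2, by omega⟩
              exact al.ninv t (cI (qf a1 al 0 t (t + (i + h - j)) (by omega)) (ab u1 al 0 (t + (i + h - j)) t (by omega)))
            · have kk38 : (j + j3 + 2) ≤ (2 * i + h) := by clear * - b0; omega
              have kk39 : (h) ≤ (j + j3 + 1) := by clear * - z6; omega
              have kk40 : (i + h) ≤ (j + j3 + 1) := by clear * - v1; omega
              have kk41 : (j3 + 1) ≤ (h) := by clear * - v1 y12 z2 z5; omega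
              have r42 : (j + j3 - h) % 2 = 0 := by clear * - ev n1p n4p n5p; omega
              clear * - al a1 u1 kk38 kk39 kk40 kk41 r42
              obtain ⟨t, ht⟩ : ∃ t, 2 * t = (j + j3 - h) := ⟨(j + j3 - h) / 2, by omega⟩
              exact al.ninv t (cI (qf a1 al 0 t (t + (i + h - j)) (by omega)) (ab u1 al 0 (t + (i + h - j)) t (by omega)))
          · by_cases z7 : (j + ph + 1) ≤ (i + h)
            · by_cases z8 : (2 * i + h + 1) ≤ (Q + j + ph)
              · have kk43 : (j + ph + 1) ≤ (i + h) := by clear * - z7; omega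
                have kk44 : (i + h + 1) ≤ (n + j + ph) := by clear * - y11 y15 z2 z3 z4 z7 z8; linarith
                have kk45 : (Q) ≤ (j + ph) := by clear * - z3 z4; omega
                have kk46 : (2 * i + h + 1) ≤ (Q + j + ph) := by clear * - z8; omega
                have kk47 : (j) ≤ (de) := by clear * - y15; omega
                clear * - al a2 AL0 kk43 kk44 kk45 kk46 kk47
                exact al.ubQ (i + h - j - ph) (by omega) (by omega) fun t h1 h2 => (cE (sh al 1 t (t + (n)) (by omega)) (cE (pb AL0 al 1 (t + (n)) (t + (-ph)) (by omega)) (qf a2 al 0 (t + (-ph)) (t + (i + h - j - ph)) (by omega))))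
              · have kk48 : (j3 + ph + 2) ≤ (i + h) := by clear * - y1 y4 z8 ev n1p n4p n5p; omega
                have kk49 : (2 * Q + j3) ≤ (i + h + 2 * de + ph + 1) := by clear * - b0 y13 y15 z4; omega
                have kk50 : (i) ≤ (j3 + ph) := by clear * - y13 y15 z2 z3; omega
                have kk51 : (i + 1) ≤ (Q) := by clear * - y13 y15 y4 z2; omega
                have r52 : (i + 3 * h + 2 * de + ph - 2 * n - j3) % 2 = 0 := by clear * - ev n1p n4p n5p; omega
                clear * - al GG T2 kk48 kk49 kk50 kk51 r52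
                obtain ⟨t, ht⟩ : ∃ t, 2 * t = (i + 3 * h + 2 * de + ph - 2 * n - j3) := ⟨(i + 3 * h + 2 * de + ph - 2 * n - j3) / 2, by omega⟩
                exact al.ninv t (cE (cE (ab T2 al (-1) t ((i + 2 * h + 2 * de + ph - n - j3) - t) (by omega)) (qf GG al 0 ((i + 2 * h + 2 * de + ph - n - j3) - t) ((i + 3 * h + 2 * de + ph - n - j3) - t) (by omega))) (sh al (-1) ((i + 3 * h + 2 * de + ph - n - j3) - t) t (by omega)))
            · have kk53 : (i + 1) ≤ (j) := by clear * - y10 z7; omega
              have kk54 : (j + 1) ≤ (h + de + ph) := by clear * - b0 y13 y15 z2 z7; omega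
              have kk55 : (ph + 1) ≤ (h) := by clear * - y10; omega
              have kk56 : (i + h) ≤ (j + ph) := by clear * - z7; omega
              have kk57 : (j + 1) ≤ (de) := by clear * - y15; omega
              have kk58 : (0) ≤ (ph) := by clear * - z3; omega
              have kk59 : (0) ≤ (h + ph) := by clear * - b0 y13 z2 z3; omega
              have kk60 : (0) ≤ (i + 1) := by clear * - y0; omega
              have kk61 : (j) ≤ (h + de + ph) := by clear * - b0 y13 y15 z2 z7; omega
              have r62 : (j - i) % 2 = 0 := by clear * - ev n1p n4p n5p; omega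
              have r63 : (h - ph) % 2 = 0 := by clear * - ev n1p n4p n5p; omega
              clear * - al a1 GG AL0 n1 kk53 kk54 kk55 kk56 kk57 kk58 kk59 kk60 kk61 r62 r63
              exact n1.f0 (rEE (cE (qf GG al 0 (j) (j + h) (by omega)) (sh al (-1) (j + h) (j + h - n) (by omega))) (sh al (-1) (i + h) (i + h - n) (by omega)) (Eq.symm (rotR (j - i) (h - ph) (i + h - n) (j + h - n) (by omega) (fun t h1 h2 => (cE (cE (pb a1 al (-1) t (t + (n + j - i - h)) (by omega)) (qf GG al 0 (t + (n + j - i - h)) (t + (n + j - i)) (by omega))) (sh al (-1) (t + (n + j - i)) (t + (j - i)) (by omega)))) (fun t h1 h2 => (cE (qf (show Par W (i + ph + 1) (de + ph) (h - ph) from fun t h1 h2 => (cE (sh al (-1) t (t + (-n)) (by omega)) (cE (pb AL0 al (-1) (t + (-n)) (t + (-ph)) (by omega)) (qf GG al 0 (t + (-ph)) (t + (h - ph)) (by omega))))) al (-1) t (t + (n + h - ph)) (by omega)) (sh al (-1) (t + (n + h - ph)) (t + (h - ph)) (by omega)))))))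

theorem rz7_2 {W : ℤ → G} {n Q i j h de j3 ph : ℤ} (al : AL W n Q)
    (hy : (0) ≤ (i) ∧ (i) ≤ (j) ∧ (j + 1) ≤ (Q) ∧ (i) ≤ (j3) ∧ (j3 + 1) ≤ (Q) ∧ (0) ≤ (de) ∧ (de + 1) ≤ (j3) ∧ (Q + j3) ≤ (i + h + de) ∧ (j + 1) ≤ (h) ∧ (0) ≤ (ph) ∧ (ph + 1) ≤ (h) ∧ (3 * h + j3 + 2 * ph) ≤ (n + i) ∧ (3 * j3 + 1) ≤ (i + h + 2 * de) ∧ (i + 1) ≤ (de) ∧ (j + 1) ≤ (j3) ∧ (j + 1) ≤ (de))
    (a1 : Par W (0) (j) (i + h - j))
    (a2 : Par W (Q + j - i - h) (j) (i + h - j))
    (s1 : Ant W (0) (i) (i + j))
    (s2 : Ant W (j + 1) (Q) (i + j))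
    (u1 : Ant W (0) (i) (i + j3))
    (u2 : Ant W (j3 + 1) (Q) (i + j3))
    (GG : Par W (i + 1) (h + de + ph) (h))
    (AL0 : Par W (i - ph + 1) (de) (ph))
    (AL1 : Par W (i - h - ph + 1) (de) (h + ph))
    (BE : Par W (de + 1) (j3) (i + h - j3))
    (T2 : Ant W (Q) (i + h + de - j3) (i + 2 * h + 2 * de + ph - j3))
    (n1 : Nd W (j) (i) (i + h))
    (n4 : Nd W (h + de + ph) (i + h + de - j3) (de))
    (n5 : Nd W (j3) (i) (i + h))
    (b0 : (2 * i + h) ≤ (j + j3 + 1)) : False := by
  have ev := al.ev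
  obtain ⟨y0, y1, y2, y3, y4, y5, y6, y7, y8, y9, y10, y11, y12, y13, y14, y15⟩ := id hy
  have n1p := And.intro n1.p1 n1.p2
  have n4p := And.intro n4.p1 n4.p2
  have n5p := And.intro n5.p1 n5.p2
  by_cases z9 : (ph) ≤ (0)
  · have kk64 : (1) ≤ (h + ph) := by clear * - y10 y9; omega
    have kk65 : (i + 1) ≤ (de) := by clear * - y13; omega
    have kk66 : (0) ≤ (ph) := by clear * - y9; omega
    have kk67 : (ph) ≤ (0) := by clear * - z9; omega
    clear * - al AL1 n5 kk64 kk65 kk66 kk67
    exact n5.f1 (qf AL1 al 0 (i) (i + h) (by omega))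
  · by_cases z10 : (2 * j + ph + 2) ≤ (2 * Q)
    · by_cases v2 : (j + ph) ≤ (Q)
      · have kk68 : (1) ≤ (ph) := by clear * - z9; omega
        have kk69 : (2) ≤ (ph) := by clear * - z9 ev n1p n4p n5p; omega
        have kk70 : (2 * i + 2) ≤ (2 * j + 3 * ph) := by clear * - b0 y12 y6 z9; omega
        have kk71 : (2 * i + 2) ≤ (2 * de + 3 * ph) := by clear * - y13 z9; omega
        have kk72 : (j) ≤ (de) := by clear * - y15; omega
        have kk73 : (j + ph) ≤ (Q) := by clear * - v2; omega
        have r74 : (2 * n + i + j) % 2 = 0 := by clear * - ev n1p n4p n5p; omega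
        have r75 : (ph) % 2 = 0 := by clear * - ev n1p n4p n5p; omega
        clear * - al s2 AL0 kk68 kk69 kk70 kk71 kk72 kk73 r74 r75
        exact midP al (ph) (2 * n + i + j) (n + i - ph + 1) (n + i - ph + 1) (n + de + ph) (by omega) (fun t h1 h2 => (cE (ab s2 al 1 t ((n + i + j) - t) (by omega)) (sh al 1 ((n + i + j) - t) ((2 * n + i + j) - t) (by omega)))) (fun t h1 h2 => (cE (qf AL0 al 1 t (t + (ph - n)) (by omega)) (sh al 1 (t + (ph - n)) (t + (ph)) (by omega))))
      · have kk76 : (1) ≤ (ph) := by clear * - v2 z10; omega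
        have kk77 : (2 * j + ph + 2) ≤ (2 * Q) := by clear * - z10; omega
        have kk78 : (2 * i + 2) ≤ (2 * Q + ph) := by clear * - b0 v2 y12 y6 z10; omega
        have kk79 : (2 * i + 2 * j + 2) ≤ (2 * Q + 2 * de + ph) := by clear * - v2 y13 z10; omega
        have kk80 : (Q) ≤ (j + ph) := by clear * - v2; omega
        have kk81 : (Q) ≤ (de + ph) := by clear * - v2 y15; omega
        have r82 : (2 * n + i + j) % 2 = 0 := by clear * - ev n1p n4p n5p; omega
        have r83 : (ph) % 2 = 0 := by clear * - ev n1p n4p n5p; omega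
        clear * - al s2 AL0 kk76 kk77 kk78 kk79 kk80 kk81 r82 r83
        exact midP al (ph) (2 * n + i + j) (n + i + j - Q + 1) (n + i - ph + 1) (n + de + ph) (by omega) (fun t h1 h2 => (cE (ab s2 al 1 t ((n + i + j) - t) (by omega)) (sh al 1 ((n + i + j) - t) ((2 * n + i + j) - t) (by omega)))) (fun t h1 h2 => (cE (qf AL0 al 1 t (t + (ph - n)) (by omega)) (sh al 1 (t + (ph - n)) (t + (ph)) (by omega))))
    · by_cases z11 : (j + 1) ≤ (i + ph)
      · by_cases z12 : (i + j + ph + 1) ≤ (2 * Q)
        · have kk84 : (i + j + ph + 2) ≤ (2 * Q) := by clear * - z12 ev n1p n4p n5p; omega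
          have kk85 : (j + 1) ≤ (i + ph) := by clear * - z11; omega
          have kk86 : (Q) ≤ (j + ph) := by clear * - z10 z11 z12; omega
          have kk87 : (i) ≤ (de) := by clear * - y15 z10 z12; omega
          have r88 : (i + j + ph - 2 * n) % 2 = 0 := by clear * - ev n1p n4p n5p; omega
          clear * - al s2 AL0 kk84 kk85 kk86 kk87 r88
          obtain ⟨t, ht⟩ : ∃ t, 2 * t = (i + j + ph - 2 * n) := ⟨(i + j + ph - 2 * n) / 2, by omega⟩
          exact al.ninv t (cE (cI (pb AL0 al (-1) t (t + (n - ph)) (by omega)) (ab s2 al 0 (t + (n - ph)) ((i + j + ph - n) - t) (by omega))) (sh al (-1) ((i + j + ph - n) - t) t (by omega)))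
        · have kk89 : (i + h + 1) ≤ (j + ph) := by clear * - b0 y4 z11 z12; omega
          have kk90 : (j + ph + 1) ≤ (n + i + h) := by clear * - b0 y10 y11 z11 z9; omega
          have kk91 : (ph) ≤ (i + h) := by clear * - y0 y10; omega
          have kk92 : (j + 1) ≤ (h) := by clear * - y8; omega
          have kk93 : (i + h) ≤ (de + ph) := by clear * - b0 y15 y4 z11 z12; omega
          clear * - al a1 AL0 kk89 kk90 kk91 kk92 kk93
          exact al.ubP (j + ph - i - h) (by omega) (by omega) fun t h1 h2 => (cE (sh al (-1) t (t + (-n)) (by omega)) (cE (qf AL0 al (-1) (t + (-n)) (t + (ph)) (by omega)) (pb a1 al 0 (t + (ph)) (t + (j + ph - i - h)) (by omega))))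
      · by_cases z13 : (i + h) ≤ (j + ph)
        · have kk94 : (j + 1) ≤ (i + h) := by clear * - y12 y15 y6; omega
          have kk95 : (1) ≤ (ph) := by clear * - z9; omega
          have kk96 : (ph) ≤ (j + 1) := by clear * - y0 z11; omega
          have kk97 : (i) ≤ (j) := by clear * - z11 z9; omega
          have kk98 : (i + h + 1) ≤ (de + ph) := by clear * - y15 z13; omega
          have r99 : (i + h - j) % 2 = 0 := by clear * - ev n1p n4p n5p; omega
          have r100 : (ph) % 2 = 0 := by clear * - ev n1p n4p n5p; omega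
          clear * - al a1 AL0 n1 kk94 kk95 kk96 kk97 kk98 r99 r100
          exact n1.f0 (rEE (sh al 1 (j) (n + j) (by omega)) (sh al 1 (i + h) (n + i + h) (by omega)) (rotR (i + h - j) (ph) (n + j) (n + i + h) (by omega) (fun t h1 h2 => (cE (qf a1 al 1 t (t + (i + h - n - j)) (by omega)) (sh al 1 (t + (i + h - n - j)) (t + (i + h - j)) (by omega)))) (fun t h1 h2 => (cE (qf AL0 al 1 t (t + (ph - n)) (by omega)) (sh al 1 (t + (ph - n)) (t + (ph)) (by omega))))))
        · by_cases v3 : (i + 1) ≤ (ph)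
          · have kk101 : (j + ph + 1) ≤ (i + h) := by clear * - z13; omega
            have kk102 : (i + h + 1) ≤ (n + j + ph) := by clear * - b0 y11 z11 z13 z9; omega
            have kk103 : (i + h) ≤ (Q + j) := by clear * - b0 y0 y4; omega
            have kk104 : (Q) ≤ (j + ph) := by clear * - z10 z9; omega
            have kk105 : (i + 1) ≤ (ph) := by clear * - v3; omega
            have kk106 : (j) ≤ (de) := by clear * - y15; omega
            clear * - al a1 AL0 kk101 kk102 kk103 kk104 kk105 kk106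
            exact al.ubQ (i + h - j - ph) (by omega) (by omega) fun t h1 h2 => (cE (sh al (-1) t (t + (-n)) (by omega)) (cE (pb AL0 al (-1) (t + (-n)) (t + (-ph)) (by omega)) (qf a1 al 0 (t + (-ph)) (t + (i + h - j - ph)) (by omega))))
          · have kk107 : (j + ph + 1) ≤ (i + h) := by clear * - z13; omega
            have kk108 : (i + h + 1) ≤ (n + j + ph) := by clear * - b0 y11 z11 z13 z9; omega
            have kk109 : (2 * i + h + 1) ≤ (Q + j + ph) := by clear * - b0 y4 z9; omega
            have kk110 : (Q) ≤ (j + ph) := by clear * - z10 z9; omega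
            have kk111 : (ph) ≤ (i + 1) := by clear * - v3; omega
            have kk112 : (j) ≤ (de) := by clear * - y15; omega
            clear * - al a1 AL0 kk107 kk108 kk109 kk110 kk111 kk112
            exact al.ubQ (i + h - j - ph) (by omega) (by omega) fun t h1 h2 => (cE (sh al (-1) t (t + (-n)) (by omega)) (cE (pb AL0 al (-1) (t + (-n)) (t + (-ph)) (by omega)) (qf a1 al 0 (t + (-ph)) (t + (i + h - j - ph)) (by omega))))

theorem rz7 {W : ℤ → G} {n Q i j h de j3 ph : ℤ} (al : AL W n Q)
    (hy : (0) ≤ (i) ∧ (i) ≤ (j) ∧ (j + 1) ≤ (Q) ∧ (i) ≤ (j3) ∧ (j3 + 1) ≤ (Q) ∧ (0) ≤ (de) ∧ (de + 1) ≤ (j3) ∧ (Q + j3) ≤ (i + h + de) ∧ (j + 1) ≤ (h) ∧ (0) ≤ (ph) ∧ (ph + 1) ≤ (h) ∧ (3 * h + j3 + 2 * ph) ≤ (n + i) ∧ (3 * j3 + 1) ≤ (i + h + 2 * de) ∧ (i + 1) ≤ (de) ∧ (j + 1) ≤ (j3) ∧ (j + 1) ≤ (de))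
    (a1 : Par W (0) (j) (i + h - j))
    (a2 : Par W (Q + j - i - h) (j) (i + h - j))
    (s1 : Ant W (0) (i) (i + j))
    (s2 : Ant W (j + 1) (Q) (i + j))
    (u1 : Ant W (0) (i) (i + j3))
    (u2 : Ant W (j3 + 1) (Q) (i + j3))
    (GG : Par W (i + 1) (h + de + ph) (h))
    (AL0 : Par W (i - ph + 1) (de) (ph))
    (AL1 : Par W (i - h - ph + 1) (de) (h + ph))
    (BE : Par W (de + 1) (j3) (i + h - j3))
    (T2 : Ant W (Q) (i + h + de - j3) (i + 2 * h + 2 * de + ph - j3))
    (n1 : Nd W (j) (i) (i + h))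
    (n4 : Nd W (h + de + ph) (i + h + de - j3) (de))
    (n5 : Nd W (j3) (i) (i + h)) : False := by
  have ev := al.ev
  obtain ⟨y0, y1, y2, y3, y4, y5, y6, y7, y8, y9, y10, y11, y12, y13, y14, y15⟩ := id hy
  have n1p := And.intro n1.p1 n1.p2
  have n4p := And.intro n4.p1 n4.p2
  have n5p := And.intro n5.p1 n5.p2
  by_cases z1 : (j + j3 + 2) ≤ (2 * i + h)
  · exact rz7_1 al hy a1 a2 s1 s2 u1 u2 GG AL0 AL1 BE T2 n1 n4 n5 (by clear * - z1; omega)
  · exact rz7_2 al hy a1 a2 s1 s2 u1 u2 GG AL0 AL1 BE T2 n1 n4 n5 (by clear * - z1; omega)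

end Pool.Agent.MP_a38735_al.WL
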