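import Pool.Agent.MP_a38735_al.Zw14

set_option autoImplicit false
set_option linter.unusedVariables false

namespace Pool.Agent.MP_a38735_al.WL

variable {G : Type*} [Group G]

theorem rz6_5 {W : ℤ → G} {n Q i j h de j3 ph : ℤ} (al : AL W n Q)
    (hy : (0) ≤ (i) ∧ (i) ≤ (j) ∧ (j + 1) ≤ (Q) ∧ (i) ≤ (j3) ∧ (j3 + 1) ≤ (Q) ∧ (0) ≤ (de) ∧ (de + 1) ≤ (j3) ∧ (Q + j3) ≤ (i + h + de) ∧ (j + 1) ≤ (h) ∧ (0) ≤ (ph) ∧ (ph + 1) ≤ (h) ∧ (3 * h + j3 + 2 * ph) ≤ (n + i) ∧ (3 * j3 + 1) ≤ (i + h + 2 * de) ∧ (i + 1) ≤ (de) ∧ (j + 1) ≤ (j3) ∧ (de) ≤ (j) ∧ (j) ≤ (de))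
    (a1 : Par W (0) (j) (i + h - j))
    (a2 : Par W (Q + j - i - h) (j) (i + h - j))
    (s1 : Ant W (0) (i) (i + j))
    (s2 : Ant W (j + 1) (Q) (i + j))
    (u1 : Ant W (0) (i) (i + j3))
    (u2 : Ant W (j3 + 1) (Q) (i + j3))
    (GG : Par W (i + 1) (h + de + ph) (h))
    (AL0 : Par W (i - ph + 1) (de) (ph))
    (AL1 : Par W (i - h - ph + 1) (de) (h + ph))
    (BE : Par W (de + 1) (j3) (i + h - j3))
    (T2 : Ant W (Q) (i + h + de - j3) (i + 2 * h + 2 * de + ph - j3))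
    (n1 : Nd W (j) (i) (i + h))
    (n4 : Nd W (h + de + ph) (i + h + de - j3) (de))
    (n5 : Nd W (j3) (i) (i + h))
    (b0 : (2 * Q) ≤ (2 * j + ph + 1))
    (b1 : (2 * i + 2 * ph) ≤ (j + j3 + 1))
    (b2 : (2 * i + h) ≤ (2 * j + 1)) : False := by
  have ev := al.ev
  obtain ⟨y0, y1, y2, y3, y4, y5, y6, y7, y8, y9, y10, y11, y12, y13, y14, y15, y16⟩ := id hy
  have n1p := And.intro n1.p1 n1.p2
  have n4p := And.intro n4.p1 n4.p2
  have n5p := And.intro n5.p1 n5.p2
  by_cases z8 : (j + ph + 1) ≤ (i + h)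
  · by_cases v4 : (i + 1) ≤ (ph)
    · have kk88 : (j + ph + 1) ≤ (i + h) := by clear * - z8; omega
      have kk89 : (i + h + 1) ≤ (n + j + ph) := by clear * - b1 b2 y11 y9 z8; omega
      have kk90 : (i + h) ≤ (Q + j) := by clear * - b2 y0 y14 y4; omega
      have kk91 : (Q) ≤ (j + ph) := by clear * - b0 y9; omega
      have kk92 : (i + 1) ≤ (ph) := by clear * - v4; omega
      have kk93 : (j) ≤ (de) := by clear * - y16; omega
      clear * - al a1 AL0 kk88 kk89 kk90 kk91 kk92 kk93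
      exact al.ubQ (i + h - j - ph) (by omega) (by omega) fun t h1 h2 => (cE (sh al (-1) t (t + (-n)) (by omega)) (cE (pb AL0 al (-1) (t + (-n)) (t + (-ph)) (by omega)) (qf a1 al 0 (t + (-ph)) (t + (i + h - j - ph)) (by omega))))
    · have kk94 : (j + ph + 1) ≤ (i + h) := by clear * - z8; omega
      have kk95 : (i + h + 1) ≤ (n + j + ph) := by clear * - b1 b2 y11 y9 z8; omega
      have kk96 : (2 * i + h + 1) ≤ (Q + j + ph) := by clear * - b0 b2 y14 y4; omega
      have kk97 : (Q) ≤ (j + ph) := by clear * - b0 y9; omega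
      have kk98 : (ph) ≤ (i + 1) := by clear * - v4; omega
      have kk99 : (j) ≤ (de) := by clear * - y16; omega
      clear * - al a1 AL0 kk94 kk95 kk96 kk97 kk98 kk99
      exact al.ubQ (i + h - j - ph) (by omega) (by omega) fun t h1 h2 => (cE (sh al (-1) t (t + (-n)) (by omega)) (cE (pb AL0 al (-1) (t + (-n)) (t + (-ph)) (by omega)) (qf a1 al 0 (t + (-ph)) (t + (i + h - j - ph)) (by omega))))
  · exact rz6_6 al hy a1 a2 s1 s2 u1 u2 GG AL0 AL1 BE T2 n1 n4 n5 (by clear * - b0; omega) (by clear * - b1; omega) (by clear * - b2; omega) (by clear * - z8; omega)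

theorem rz6_4 {W : ℤ → G} {n Q i j h de j3 ph : ℤ} (al : AL W n Q)
    (hy : (0) ≤ (i) ∧ (i) ≤ (j) ∧ (j + 1) ≤ (Q) ∧ (i) ≤ (j3) ∧ (j3 + 1) ≤ (Q) ∧ (0) ≤ (de) ∧ (de + 1) ≤ (j3) ∧ (Q + j3) ≤ (i + h + de) ∧ (j + 1) ≤ (h) ∧ (0) ≤ (ph) ∧ (ph + 1) ≤ (h) ∧ (3 * h + j3 + 2 * ph) ≤ (n + i) ∧ (3 * j3 + 1) ≤ (i + h + 2 * de) ∧ (i + 1) ≤ (de) ∧ (j + 1) ≤ (j3) ∧ (de) ≤ (j) ∧ (j) ≤ (de))
    (a1 : Par W (0) (j) (i + h - j))
    (a2 : Par W (Q + j - i - h) (j) (i + h - j))
    (s1 : Ant W (0) (i) (i + j))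
    (s2 : Ant W (j + 1) (Q) (i + j))
    (u1 : Ant W (0) (i) (i + j3))
    (u2 : Ant W (j3 + 1) (Q) (i + j3))
    (GG : Par W (i + 1) (h + de + ph) (h))
    (AL0 : Par W (i - ph + 1) (de) (ph))
    (AL1 : Par W (i - h - ph + 1) (de) (h + ph))
    (BE : Par W (de + 1) (j3) (i + h - j3))
    (T2 : Ant W (Q) (i + h + de - j3) (i + 2 * h + 2 * de + ph - j3))
    (n1 : Nd W (j) (i) (i + h))
    (n4 : Nd W (h + de + ph) (i + h + de - j3) (de))
    (n5 : Nd W (j3) (i) (i + h))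
    (b0 : (2 * Q) ≤ (2 * j + ph + 1))
    (b1 : (2 * i + 2 * ph) ≤ (j + j3 + 1)) : False := by
  have ev := al.ev
  obtain ⟨y0, y1, y2, y3, y4, y5, y6, y7, y8, y9, y10, y11, y12, y13, y14, y15, y16⟩ := id hy
  have n1p := And.intro n1.p1 n1.p2
  have n4p := And.intro n4.p1 n4.p2
  have n5p := And.intro n5.p1 n5.p2
  by_cases z6 : (2 * j + 2) ≤ (2 * i + h)
  · by_cases z7 : (j + ph + 1) ≤ (i + h)
    · have kk70 : (j + ph + 1) ≤ (i + h) := by clear * - z7; omega
      have kk71 : (2 * de + ph + 2) ≤ (i + j + h) := by clear * - y15 z7 ev n1p n4p n5p; omega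
      have kk72 : (2 * Q + j + ph) ≤ (3 * i + 3 * h) := by clear * - b0 y13 y15 z6 z7; omega
      have kk73 : (4 * de + ph + 2) ≤ (i + j + h + 2 * j3) := by clear * - y14 y15 z7; omega
      have kk74 : (2 * i + 1) ≤ (Q + j + ph) := by clear * - b0 b1 y14 y4; omega
      have kk75 : (j) ≤ (de) := by clear * - y16; omega
      have kk76 : (i + 1) ≤ (Q) := by clear * - b0 b1 y14 y4; omega
      have kk77 : (i) ≤ (j3 + ph) := by clear * - b1 y14 y9; omega
      have kk78 : (i) ≤ (de + ph) := by clear * - y13 y9; omega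
      have kk79 : (Q + j3) ≤ (2 * de + ph + 1) := by clear * - b0 y16 y4; omega
      have kk80 : (Q + j + j3) ≤ (i + h + 2 * de + 1) := by clear * - b0 y12 y14 y16 z7; omega
      have r81 : (i + 3 * h + 2 * de + ph - 2 * n - j3) % 2 = 0 := by clear * - y15 y16 ev n1p n4p n5p; omega
      have r82 : (i + h - j - ph) % 2 = 0 := by clear * - y15 y16 ev n1p n4p n5p; omega
      clear * - al a2 GG AL1 T2 kk70 kk71 kk72 kk73 kk74 kk75 kk76 kk77 kk78 kk79 kk80 r81 r82
      exact midP al (i + h - j - ph) (i + 3 * h + 2 * de + ph - 2 * n - j3) (h + 2 * de + ph - n - j3 + 1) (Q + j + ph - n - i) (i + 2 * h - n) (by omega) (fun t h1 h2 => (cE (cI (pb GG al (-1) t (t + (n - h)) (by omega)) (qa T2 al 0 (t + (n - h)) ((i + 3 * h + 2 * de + ph - n - j3) - t) (by omega))) (sh al (-1) ((i + 3 * h + 2 * de + ph - n - j3) - t) ((i + 3 * h + 2 * de + ph - 2 * n - j3) - t) (by omega)))) (fun t h1 h2 => (cE (cE (pb (show Par W (Q) (i + h) (j + ph - i)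 from fun t h1 h2 => (cE (sh al (-1) t (t + (-n)) (by omega)) (cE (pb a2 al (-1) (t + (-n)) (t + (j - i - h)) (by omega)) (qf AL1 al 0 (t + (j - i - h)) (t + (j + ph - i)) (by omega))))) al (-1) t (t + (n + i - j - ph)) (by omega)) (qf GG al 0 (t + (n + i - j - ph)) (t + (n + i + h - j - ph)) (by omega))) (sh al (-1) (t + (n + i + h - j - ph)) (t + (i + h - j - ph)) (by omega))))
    · have kk83 : (j + 2) ≤ (i + ph) := by clear * - z6 z7; omega
      have kk84 : (i + j + ph + 1) ≤ (2 * Q) := by clear * - b1 y4 z6 z7; omega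
      have kk85 : (i) ≤ (de) := by clear * - y13; omega
      have kk86 : (Q) ≤ (j + ph) := by clear * - b0 y13 y15 z6 z7; omega
      have r87 : (i + j + ph - 2 * n) % 2 = 0 := by clear * - y15 y16 ev n1p n4p n5p; omega
      clear * - al s2 AL0 kk83 kk84 kk85 kk86 r87
      obtain ⟨t, ht⟩ : ∃ t, 2 * t = (i + j + ph - 2 * n) := ⟨(i + j + ph - 2 * n) / 2, by omega⟩
      exact al.ninv t (cE (cE (qa s2 al (-1) t ((i + j - n) - t) (by omega)) (qf AL0 al 0 ((i + j - n) - t) ((i + j + ph - n) - t) (by omega))) (sh al (-1) ((i + j + ph - n) - t) t (by omega)))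
  · exact rz6_5 al hy a1 a2 s1 s2 u1 u2 GG AL0 AL1 BE T2 n1 n4 n5 (by clear * - b0; omega) (by clear * - b1; omega) (by clear * - z6; omega)

theorem rz6_3 {W : ℤ → G} {n Q i j h de j3 ph : ℤ} (al : AL W n Q)
    (hy : (0) ≤ (i) ∧ (i) ≤ (j) ∧ (j + 1) ≤ (Q) ∧ (i) ≤ (j3) ∧ (j3 + 1) ≤ (Q) ∧ (0) ≤ (de) ∧ (de + 1) ≤ (j3) ∧ (Q + j3) ≤ (i + h + de) ∧ (j + 1) ≤ (h) ∧ (0) ≤ (ph) ∧ (ph + 1) ≤ (h) ∧ (3 * h + j3 + 2 * ph) ≤ (n + i) ∧ (3 * j3 + 1) ≤ (i + h + 2 * de) ∧ (i + 1) ≤ (de) ∧ (j + 1) ≤ (j3) ∧ (de) ≤ (j) ∧ (j) ≤ (de))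
    (a1 : Par W (0) (j) (i + h - j))
    (a2 : Par W (Q + j - i - h) (j) (i + h - j))
    (s1 : Ant W (0) (i) (i + j))
    (s2 : Ant W (j + 1) (Q) (i + j))
    (u1 : Ant W (0) (i) (i + j3))
    (u2 : Ant W (j3 + 1) (Q) (i + j3))
    (GG : Par W (i + 1) (h + de + ph) (h))
    (AL0 : Par W (i - ph + 1) (de) (ph))
    (AL1 : Par W (i - h - ph + 1) (de) (h + ph))
    (BE : Par W (de + 1) (j3) (i + h - j3))
    (T2 : Ant W (Q) (i + h + de - j3) (i + 2 * h + 2 * de + ph - j3))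
    (n1 : Nd W (j) (i) (i + h))
    (n4 : Nd W (h + de + ph) (i + h + de - j3) (de))
    (n5 : Nd W (j3) (i) (i + h))
    (b0 : (2 * Q) ≤ (2 * j + ph + 1))
    (b1 : (j + 2 * ph) ≤ (2 * Q + j3)) : False := by
  have ev := al.ev
  obtain ⟨y0, y1, y2, y3, y4, y5, y6, y7, y8, y9, y10, y11, y12, y13, y14, y15, y16⟩ := id hy
  have n1p := And.intro n1.p1 n1.p2
  have n4p := And.intro n4.p1 n4.p2
  have n5p := And.intro n5.p1 n5.p2
  by_cases z4 : (j + j3 + 2) ≤ (2 * i + 2 * ph)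
  · by_cases z5 : (j + 2 * ph) ≤ (2 * i + 3 * j3 + 2)
    · by_cases v1 : (ph) ≤ (j3 + 1)
      · by_cases v2 : (i + ph) ≤ (Q)
        · have kk29 : (j + 1) ≤ (j3) := by clear * - y14; omega
          have kk30 : (j + j3 + 2) ≤ (2 * i + 2 * ph) := by clear * - z4; omega
          have kk31 : (j) ≤ (2 * i + j3) := by clear * - v1 z4; omega
          have kk32 : (Q) ≤ (j + ph) := by clear * - b0 v2 y14 z4; omega
          have kk33 : (i) ≤ (de) := by clear * - b0 v2 y14 y16 z4; omega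
          have kk34 : (ph) ≤ (j3 + 1) := by clear * - v1; omega
          have kk35 : (i + ph) ≤ (Q) := by clear * - v2; omega
          have r36 : (i + j + ph - 2 * n) % 2 = 0 := by clear * - y15 y16 ev n1p n4p n5p; omega
          have r37 : (j3 - j) % 2 = 0 := by clear * - y15 y16 ev n1p n4p n5p; omega
          clear * - al s1 s2 u1 AL0 kk29 kk30 kk31 kk32 kk33 kk34 kk35 r36 r37
          exact midP al (j3 - j) (i + j + ph - 2 * n) (j - n + 1) (j - n + 1) (i + j3 - n + 1) (by omega) (fun t h1 h2 => (cE (cI (pb AL0 al (-1) t (t + (n - ph)) (by omega)) (ab s2 al 0 (t + (n - ph)) ((i + j + ph - n) - t) (by omega))) (sh al (-1) ((i + j + ph - n) - t) ((i + j + ph - 2 * n) - t) (by omega)))) (fun t h1 h2 => (cE (qf (show Par W (j + 1) (i + j + 1) (j3 - j) from fun t h1 h2 => (cE (sh al (-1) t (t + (-n)) (by omega)) (cII (ab s1 al (-1) (t + (-n)) ((i + j) - t) (by omega)) (qa u1 al 0 ((i + j) - t) (t + (j3 - j)) (by omega))))) al (-1)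 t (t + (n + j3 - j)) (by omega)) (sh al (-1) (t + (n + j3 - j)) (t + (j3 - j)) (by omega))))
        · have kk38 : (j + 1) ≤ (j3) := by clear * - y14; omega
          have kk39 : (j + j3 + 2) ≤ (2 * Q) := by clear * - y14 y4; omega
          have kk40 : (j + 2 * ph) ≤ (2 * Q + j3) := by clear * - b1; omega
          have kk41 : (Q) ≤ (j + ph) := by clear * - v2 y13 y15; omega
          have kk42 : (i) ≤ (de) := by clear * - y13; omega
          have kk43 : (Q) ≤ (i + ph) := by clear * - v2; omega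
          have kk44 : (Q) ≤ (i + j3 + 1) := by clear * - v1 v2; omega
          have r45 : (i + j + ph - 2 * n) % 2 = 0 := by clear * - y15 y16 ev n1p n4p n5p; omega
          have r46 : (j3 - j) % 2 = 0 := by clear * - y15 y16 ev n1p n4p n5p; omega
          clear * - al s1 s2 u1 AL0 kk38 kk39 kk40 kk41 kk42 kk43 kk44 r45 r46
          exact midP al (j3 - j) (i + j + ph - 2 * n) (i + j + ph - n - Q + 1) (j - n + 1) (i + j3 - n + 1) (by omega) (fun t h1 h2 => (cE (cI (pb AL0 al (-1) t (t + (n - ph)) (by omega)) (ab s2 al 0 (t + (n - ph)) ((i + j + ph - n) - t) (by omega))) (sh al (-1) ((i + j + ph - n) - t) ((i + j + ph - 2 * n) - t) (by omega)))) (fun t h1 h2 => (cE (qf (show Par W (j + 1) (i + j + 1) (j3 - j) from fun t h1 h2 => (cE (sh al (-1) t (t + (-n)) (by omega)) (cII (ab s1 al (-1) (t + (-n)) ((i + j) - t) (by omega)) (qa u1 al 0 ((i + j) - t) (t + (j3 - j)) (by omega))))) al (-1) t (t + (n + j3 - j)) (by omega)) (sh al (-1)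 (t + (n + j3 - j)) (t + (j3 - j)) (by omega))))
      · by_cases v3 : (i + j3 + 1) ≤ (Q)
        · have kk47 : (j + 1) ≤ (j3) := by clear * - y14; omega
          have kk48 : (j) ≤ (2 * i + j3) := by clear * - v1 z5; omega
          have kk49 : (j + 2 * ph) ≤ (2 * i + 3 * j3 + 2) := by clear * - z5; omega
          have kk50 : (Q) ≤ (j + ph) := by clear * - b0 v1 v3 y14 z5; omega
          have kk51 : (i) ≤ (de) := by clear * - b0 v3 y14 y16 z5; omega
          have kk52 : (j3 + 1) ≤ (ph) := by clear * - v1; omega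
          have kk53 : (i + j3 + 1) ≤ (Q) := by clear * - v3; omega
          have r54 : (i + j + ph - 2 * n) % 2 = 0 := by clear * - y15 y16 ev n1p n4p n5p; omega
          have r55 : (j3 - j) % 2 = 0 := by clear * - y15 y16 ev n1p n4p n5p; omega
          clear * - al s1 s2 u1 AL0 kk47 kk48 kk49 kk50 kk51 kk52 kk53 r54 r55
          exact midP al (j3 - j) (i + j + ph - 2 * n) (j + ph - n - j3) (j - n + 1) (i + j3 - n + 1) (by omega) (fun t h1 h2 => (cE (cI (pb AL0 al (-1) t (t + (n - ph)) (by omega)) (ab s2 al 0 (t + (n - ph)) ((i + j + ph - n) - t) (by omega))) (sh al (-1) ((i + j + ph - n) - t) ((i + j + ph - 2 * n) - t) (by omega)))) (fun t h1 h2 => (cE (qf (show Par W (j + 1) (i + j + 1) (j3 - j) from fun t h1 h2 => (cE (sh al (-1) t (t + (-n)) (by omega)) (cII (ab s1 al (-1) (t + (-n)) ((i + j) - t) (by omega)) (qa u1 al 0 ((i + j) - t) (t + (j3 - j)) (by omega))))) al (-1) t (t + (n + j3 - j)) (by omega)) (sh al (-1) (t + (n +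 j3 - j)) (t + (j3 - j)) (by omega))))
        · have kk56 : (j + 1) ≤ (j3) := by clear * - y14; omega
          have kk57 : (j + j3 + 2) ≤ (2 * Q) := by clear * - b1 v1; omega
          have kk58 : (j + 2 * ph) ≤ (2 * Q + j3) := by clear * - b1; omega
          have kk59 : (Q) ≤ (j + ph) := by clear * - b0 b1 v1 y14; omega
          have kk60 : (i) ≤ (de) := by clear * - y13; omega
          have kk61 : (j3 + 1) ≤ (ph) := by clear * - v1; omega
          have kk62 : (Q) ≤ (i + j3 + 1) := by clear * - v3; omega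
          have r63 : (i + j + ph - 2 * n) % 2 = 0 := by clear * - y15 y16 ev n1p n4p n5p; omega
          have r64 : (j3 - j) % 2 = 0 := by clear * - y15 y16 ev n1p n4p n5p; omega
          clear * - al s1 s2 u1 AL0 kk56 kk57 kk58 kk59 kk60 kk61 kk62 r63 r64
          exact midP al (j3 - j) (i + j + ph - 2 * n) (i + j + ph - n - Q + 1) (j - n + 1) (i + j3 - n + 1) (by omega) (fun t h1 h2 => (cE (cI (pb AL0 al (-1) t (t + (n - ph)) (by omega)) (ab s2 al 0 (t + (n - ph)) ((i + j + ph - n) - t) (by omega))) (sh al (-1) ((i + j + ph - n) - t) ((i + j + ph - 2 * n) - t) (by omega)))) (fun t h1 h2 => (cE (qf (show Par W (j + 1) (i + j + 1) (j3 - j) from fun t h1 h2 => (cE (sh al (-1) t (t + (-n)) (by omega)) (cII (ab s1 al (-1) (t + (-n)) ((i + j) - t) (by omega)) (qa u1 al 0 ((i + j) - t) (t + (j3 - j)) (by omega))))) al (-1) t (t + (n + j3 - j)) (by omega)) (sh al (-1) (t + (n + j3 - j)) (t + (j3 - j)) (by omega))))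
    · have kk65 : (j + 2) ≤ (i + ph) := by clear * - y14 z4; omega
      have kk66 : (i + j + ph + 1) ≤ (2 * Q) := by clear * - b1 y14 z5; omega
      have kk67 : (i) ≤ (de) := by clear * - b0 b1 y14 y16 z5; omega
      have kk68 : (Q) ≤ (j + ph) := by clear * - b0 b1 y14 z4 z5; omega
      have r69 : (i + j + ph) % 2 = 0 := by clear * - y15 y16 ev n1p n4p n5p; omega
      clear * - al s2 AL0 kk65 kk66 kk67 kk68 r69
      obtain ⟨t, ht⟩ : ∃ t, 2 * t = (i + j + ph) := ⟨(i + j + ph) / 2, by omega⟩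
      exact al.ninv t (cE (qa s2 al 0 t ((i + j) - t) (by omega)) (qf AL0 al 0 ((i + j) - t) t (by omega)))
  · exact rz6_4 al hy a1 a2 s1 s2 u1 u2 GG AL0 AL1 BE T2 n1 n4 n5 (by clear * - b0; omega) (by clear * - z4; omega)

theorem rz6_31 {W : ℤ → G} {n Q i j h de j3 ph : ℤ} (al : AL W n Q)
    (hy : (0) ≤ (i) ∧ (i) ≤ (j) ∧ (j + 1) ≤ (Q) ∧ (i) ≤ (j3) ∧ (j3 + 1) ≤ (Q) ∧ (0) ≤ (de) ∧ (de + 1) ≤ (j3) ∧ (Q + j3) ≤ (i + h + de) ∧ (j + 1) ≤ (h) ∧ (0) ≤ (ph) ∧ (ph + 1) ≤ (h) ∧ (3 * h + j3 + 2 * ph) ≤ (n + i) ∧ (3 * j3 + 1) ≤ (i + h + 2 * de) ∧ (i + 1) ≤ (de) ∧ (j + 1) ≤ (j3) ∧ (de) ≤ (j) ∧ (j) ≤ (de))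
    (a1 : Par W (0) (j) (i + h - j))
    (a2 : Par W (Q + j - i - h) (j) (i + h - j))
    (s1 : Ant W (0) (i) (i + j))
    (s2 : Ant W (j + 1) (Q) (i + j))
    (u1 : Ant W (0) (i) (i + j3))
    (u2 : Ant W (j3 + 1) (Q) (i + j3))
    (GG : Par W (i + 1) (h + de + ph) (h))
    (AL0 : Par W (i - ph + 1) (de) (ph))
    (AL1 : Par W (i - h - ph + 1) (de) (h + ph))
    (BE : Par W (de + 1) (j3) (i + h - j3))
    (T2 : Ant W (Q) (i + h + de - j3) (i + 2 * h + 2 * de + ph - j3))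
    (n1 : Nd W (j) (i) (i + h))
    (n4 : Nd W (h + de + ph) (i + h + de - j3) (de))
    (n5 : Nd W (j3) (i) (i + h))
    (b0 : (2 * Q) ≤ (2 * j + ph + 1))
    (b1 : (2 * Q + j3 + 1) ≤ (j + 2 * ph)) : False := by
  have ev := al.ev
  obtain ⟨y0, y1, y2, y3, y4, y5, y6, y7, y8, y9, y10, y11, y12, y13, y14, y15, y16⟩ := id hy
  have n1p := And.intro n1.p1 n1.p2
  have n4p := And.intro n4.p1 n4.p2
  have n5p := And.intro n5.p1 n5.p2
  by_cases z49 : (i + h) ≤ (de + ph)
  · by_cases z50 : (j3 + ph) ≤ (h + de + 1)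
    · by_cases z51 : (de + ph) ≤ (i + h)
      · by_cases z52 : (j + de) ≤ (i + j3)
        · have kk560 : (j + de) ≤ (i + j3) := by clear * - z52; omega
          have kk561 : (i + j3) ≤ (j + de + 1) := by clear * - y15 z49 z50; omega
          have kk562 : (de) ≤ (j) := by clear * - y15; omega
          have kk563 : (j) ≤ (de) := by clear * - y16; omega
          have kk564 : (1) ≤ (h) := by clear * - y12 y14 y15 z49 z50; omega
          have kk565 : (i + 1) ≤ (de + ph) := by clear * - y12 y14 y15 z49 z50; omega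
          have kk566 : (de + ph) ≤ (i + h) := by clear * - z51; omega
          have kk567 : (i + h) ≤ (de + ph) := by clear * - z49; omega
          have kk568 : (j3) ≤ (j + de) := by clear * - y0 y15 z49 z50 ev n1p n4p n5p; by_contra hc; (have ee3 : (j - de) = 0 := (by omega)); omega
          have kk569 : (de + 1) ≤ (j3) := by clear * - y14 y15; omega
          have r570 : (i + j + de - 2 * n - j3) % 2 = 0 := by clear * - y15 y16 ev n1p n4p n5p; omega
          clear * - al a1 GG n1 n4 kk560 kk561 kk562 kk563 kk564 kk565 kk566 kk567 kk568 kk569 r570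
          obtain ⟨t, ht⟩ : ∃ t, 2 * t = (i + j + de - 2 * n - j3) := ⟨(i + j + de - 2 * n - j3) / 2, by omega⟩
          exact al.ninv t (cE (cI (qf a1 al (-1) t (t + (n + i + h - j)) (by omega)) (ab (uA (i) (i + h + de - j3) (2 * i + h + de - j3) (by omega) (lat n1.r5 n4.r2 (iNN (sh al 0 (j) (de) (by omega))) (qf GG al 0 (i + h) (h + de + ph) (by omega)))) al 0 (t + (n + i + h - j)) ((i + j + de - n - j3) - t) (by omega))) (sh al (-1) ((i + j + de - n - j3) - t) t (by omega)))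
        · by_cases v9 : (Q + j + j3) ≤ (i + 2 * de + ph + 1)
          · have kk571 : (2 * de + ph + 2) ≤ (j + h + j3) := by clear * - y14 y15 z51 z52; omega
            have kk572 : (j3 + ph + 1) ≤ (j + h) := by clear * - z51 z52; omega
            have kk573 : (j) ≤ (de + ph) := by clear * - y12 y14 y15 z49; omega
            have kk574 : (j) ≤ (h + de + ph) := by clear * - y12 y14 y15 z49 z52; omega
            have kk575 : (Q + j + j3) ≤ (i + 2 * de + ph + 1) := by clear * - v9; omega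
            have kk576 : (i + h) ≤ (de + ph) := by clear * - z49; omega
            have kk577 : (i + 1) ≤ (h) := by clear * - y14 y15 y8 z52; omega
            have kk578 : (h) ≤ (de + ph + 1) := by clear * - y0 z49; omega
            have r579 : (2 * i + h + 2 * de + ph - 2 * n - j - j3) % 2 = 0 := by clear * - y15 y16 ev n1p n4p n5p; omega
            clear * - al a1 GG T2 kk571 kk572 kk573 kk574 kk575 kk576 kk577 kk578 r579
            obtain ⟨t, ht⟩ : ∃ t, 2 * t = (2 * i + h + 2 * de + ph - 2 * n - j - j3) := ⟨(2 * i + h + 2 * de + ph - 2 * n - j - j3) / 2, by omega⟩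
            exact al.ninv t (cE (cE (cE (cE (qa T2 al (-1) t ((i + 2 * h + 2 * de + ph - n - j3) - t) (by omega)) (pb GG al 0 ((i + 2 * h + 2 * de + ph - n - j3) - t) ((i + h + 2 * de + ph - n - j3) - t) (by omega))) (pb GG al 0 ((i + h + 2 * de + ph - n - j3) - t) ((i + 2 * de + ph - n - j3) - t) (by omega))) (qf a1 al 0 ((i + 2 * de + ph - n - j3) - t) ((2 * i + h + 2 * de + ph - n - j - j3) - t) (by omega))) (sh al (-1) ((2 * i + h + 2 * de + ph - n - j - j3) - t) t (by omega)))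
          · have kk580 : (2 * Q + j + j3) ≤ (2 * i + h + 2 * de + ph) := by clear * - b1 v9 y0 y16 z51 z52; omega
            have kk581 : (j3 + ph + 1) ≤ (j + h) := by clear * - z51 z52; omega
            have kk582 : (j) ≤ (de + ph) := by clear * - y12 y14 y15 z49; omega
            have kk583 : (j) ≤ (h + de + ph) := by clear * - y12 y14 y15 z49 z52; omega
            have kk584 : (i + 2 * de + ph + 1) ≤ (Q + j + j3) := by clear * - v9; omega
            have kk585 : (i + h) ≤ (de + ph) := by clear * - z49; omega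
            have kk586 : (i + 1) ≤ (h) := by clear * - b0 b1 v9 y12 y14 z49 z52; linarith
            have kk587 : (h) ≤ (de + ph + 1) := by clear * - y0 z49; omega
            have r588 : (2 * i + h + 2 * de + ph - 2 * n - j - j3) % 2 = 0 := by clear * - y15 y16 ev n1p n4p n5p; omega
            clear * - al a1 GG T2 kk580 kk581 kk582 kk583 kk584 kk585 kk586 kk587 r588
            obtain ⟨t, ht⟩ : ∃ t, 2 * t = (2 * i + h + 2 * de + ph - 2 * n - j - j3) := ⟨(2 * i + h + 2 * de + ph - 2 * n - j - j3) / 2, by omega⟩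
            exact al.ninv t (cE (cE (cE (cE (qa T2 al (-1) t ((i + 2 * h + 2 * de + ph - n - j3) - t) (by omega)) (pb GG al 0 ((i + 2 * h + 2 * de + ph - n - j3) - t) ((i + h + 2 * de + ph - n - j3) - t) (by omega))) (pb GG al 0 ((i + h + 2 * de + ph - n - j3) - t) ((i + 2 * de + ph - n - j3) - t) (by omega))) (qf a1 al 0 ((i + 2 * de + ph - n - j3) - t) ((2 * i + h + 2 * de + ph - n - j - j3) - t) (by omega))) (sh al (-1) ((2 * i + h + 2 * de + ph - n - j - j3) - t) t (by omega)))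
      · have kk589 : (i + h + 1) ≤ (j + ph) := by clear * - y15 z51; omega
        have kk590 : (j + ph + 1) ≤ (n + i + h) := by clear * - y11 y12 y14 y15 z50 z51; omega
        have kk591 : (ph) ≤ (i + h) := by clear * - y0 y14 y15 z50; omega
        have kk592 : (j + 1) ≤ (h) := by clear * - y8; omega
        have kk593 : (i + h) ≤ (de + ph) := by clear * - z51; omega
        clear * - al a1 AL0 kk589 kk590 kk591 kk592 kk593
        exact al.ubP (j + ph - i - h) (by omega) (by omega) fun t h1 h2 => (cE (sh al (-1) t (t + (-n)) (by omega)) (cE (qf AL0 al (-1) (t + (-n)) (t + (ph)) (by omega)) (pb a1 al 0 (t + (ph)) (t + (j + ph - i - h)) (by omega))))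
    · by_cases z53 : (h) ≤ (j + j3)
      · by_cases z54 : (j + j3 + 1) ≤ (2 * i + h)
        · by_cases v10 : (j + j3 + 1) ≤ (i + h)
          · have kk594 : (h) ≤ (j + j3) := by clear * - z53; omega
            have kk595 : (h) ≤ (j + j3 + 1) := by clear * - z53; omega
            have kk596 : (j + j3 + 1) ≤ (i + h) := by clear * - v10; omega
            have kk597 : (j3 + 1) ≤ (h) := by clear * - v10 y13 y15; omega
            have r598 : (j + j3 - 2 * n - h) % 2 = 0 := by clear * - y15 y16 ev n1p n4p n5p; omega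
            clear * - al a1 u1 kk594 kk595 kk596 kk597 r598
            obtain ⟨t, ht⟩ : ∃ t, 2 * t = (j + j3 - 2 * n - h) := ⟨(j + j3 - 2 * n - h) / 2, by omega⟩
            exact al.ninv t (cE (cI (qf a1 al (-1) t (t + (n + i + h - j)) (by omega)) (ab u1 al 0 (t + (n + i + h - j)) ((j + j3 - n - h) - t) (by omega))) (sh al (-1) ((j + j3 - n - h) - t) t (by omega)))
          · have kk599 : (j + j3 + 2) ≤ (2 * i + h) := by clear * - z54 ev n1p n4p n5p; omega
            have kk600 : (h) ≤ (j + j3 + 1) := by clear * - v10 z54; omega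
            have kk601 : (i + h) ≤ (j + j3 + 1) := by clear * - v10; omega
            have kk602 : (j3 + 1) ≤ (h) := by clear * - b1 y10 y16 y4 z50; omega
            have r603 : (j + j3 - 2 * n - h) % 2 = 0 := by clear * - y15 y16 ev n1p n4p n5p; omega
            clear * - al a1 u1 kk599 kk600 kk601 kk602 r603
            obtain ⟨t, ht⟩ : ∃ t, 2 * t = (j + j3 - 2 * n - h) := ⟨(j + j3 - 2 * n - h) / 2, by omega⟩
            exact al.ninv t (cE (cI (qf a1 al (-1) t (t + (n + i + h - j)) (by omega)) (ab u1 al 0 (t + (n + i + h - j)) ((j + j3 - n - h) - t) (by omega))) (sh al (-1) ((j + j3 - n - h) - t) t (by omega)))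
        · have kk604 : (i + h + 1) ≤ (j + ph) := by clear * - y12 y14 y15 z50 z54; omega
          have kk605 : (j + ph + 1) ≤ (n + i + h) := by clear * - y11 y12 y14 y15 z50 z54; omega
          have kk606 : (ph) ≤ (i + h) := by clear * - y0 y10; omega
          have kk607 : (j + 1) ≤ (h) := by clear * - y8; omega
          have kk608 : (i + h) ≤ (de + ph) := by clear * - z49; omega
          clear * - al a1 AL0 kk604 kk605 kk606 kk607 kk608
          exact al.ubP (j + ph - i - h) (by omega) (by omega) fun t h1 h2 => (cE (sh al 1 t (t + (n)) (by omega)) (cE (qf AL0 al 1 (t + (n)) (t + (ph)) (by omega)) (pb a1 al 0 (t + (ph)) (t + (j + ph - i - h)) (by omega))))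
      · by_cases z55 : (i + 2 * j + h + 2) ≤ (2 * Q + j3)
        · have kk609 : (j3 + 1) ≤ (i + h) := by clear * - y12 y14 y15; omega
          have kk610 : (i + 2 * j + h + 2) ≤ (2 * Q + j3) := by clear * - z55; omega
          have kk611 : (h + 2 * de + 2) ≤ (i + j3 + 2 * ph) := by clear * - y12 y14 y15 z50; omega
          have kk612 : (2 * j + 2) ≤ (i + h + j3) := by clear * - y12 y14 y15; omega
          have kk613 : (i) ≤ (de) := by clear * - y13; omega
          have kk614 : (Q) ≤ (j + ph) := by clear * - b0 y12 y14 y15 z55; omega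
          have kk615 : (de) ≤ (j) := by clear * - y15; omega
          have kk616 : (ph) ≤ (h) := by clear * - y10; omega
          have r617 : (i + j + ph - 2 * n) % 2 = 0 := by clear * - y15 y16 ev n1p n4p n5p; omega
          have r618 : (i + h - j3) % 2 = 0 := by clear * - y15 y16 ev n1p n4p n5p; omega
          clear * - al s2 AL0 BE kk609 kk610 kk611 kk612 kk613 kk614 kk615 kk616 r617 r618
          exact midP al (i + h - j3) (i + j + ph - 2 * n) (j - n + 1) (de - n + 1) (i + h - n) (by omega) (fun t h1 h2 => (cE (cE (qa s2 al (-1) t ((i + j - n) - t) (by omega)) (qf AL0 al 0 ((i + j - n) - t) ((i + j + ph - n) - t) (by omega))) (sh al (-1) ((i + j + ph - n) - t) ((i + j + ph - 2 * n) - t) (by omega)))) (fun t h1 h2 => (cE (qf BE al (-1) t (t + (n + i + h - j3)) (by omega)) (sh al (-1) (t + (n + i + h - j3)) (t + (i + h - j3)) (by omega))))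
        · have kk619 : (j + ph + 2) ≤ (h + j3) := by clear * - y10 y16 z50; omega
          have kk620 : (h + 2 * de + 1) ≤ (j + j3 + ph) := by clear * - y15 z50; omega
          have kk621 : (i + h) ≤ (de + ph) := by clear * - z49; omega
          have kk622 : (j3) ≤ (Q) := by clear * - y4; omega
          have kk623 : (j) ≤ (de) := by clear * - y16; omega
          have kk624 : (j3) ≤ (h + de) := by clear * - y12 y13 y14 y15; omega
          have r625 : (2 * i + j + h - 2 * n - j3 - ph) % 2 = 0 := by clear * - y15 y16 ev n1p n4p n5p; omega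
          clear * - al s2 AL0 BE kk619 kk620 kk621 kk622 kk623 kk624 r625
          obtain ⟨t, ht⟩ : ∃ t, 2 * t = (2 * i + j + h - 2 * n - j3 - ph) := ⟨(2 * i + j + h - 2 * n - j3 - ph) / 2, by omega⟩
          exact al.ninv t (cE (cE (cE (ab s2 al (-1) t ((i + j - n) - t) (by omega)) (qf BE al 0 ((i + j - n) - t) ((2 * i + j + h - n - j3) - t) (by omega))) (pb AL0 al 0 ((2 * i + j + h - n - j3) - t) ((2 * i + j + h - n - j3 - ph) - t) (by omega))) (sh al (-1) ((2 * i + j + h - n - j3 - ph) - t) t (by omega)))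
  · have kk626 : (j + ph + 1) ≤ (i + h) := by clear * - y16 z49; omega
    have kk627 : (2 * de + ph + 2) ≤ (i + j + h) := by clear * - y15 z49 ev n1p n4p n5p; omega
    have kk628 : (2 * Q + j + ph) ≤ (3 * i + 3 * h) := by clear * - b0 y12 y14 z49; omega
    have kk629 : (4 * de + ph + 2) ≤ (i + j + h + 2 * j3) := by clear * - y14 y15 z49; omega
    have kk630 : (2 * i + 1) ≤ (Q + j + ph) := by clear * - b0 y13 y14 y15 y4; omega
    have kk631 : (j) ≤ (de) := by clear * - y16; omega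
    have kk632 : (i + 1) ≤ (Q) := by clear * - y13 y14 y15 y4; omega
    have kk633 : (i) ≤ (j3 + ph) := by clear * - y13 y14 y15 y9; omega
    have kk634 : (i) ≤ (de + ph) := by clear * - y13 y9; omega
    have kk635 : (Q + j3) ≤ (2 * de + ph + 1) := by clear * - b0 y16 y4; omega
    have kk636 : (Q + j + j3) ≤ (i + h + 2 * de + 1) := by clear * - b0 y12 y14 y16 z49; omega
    have r637 : (i + 3 * h + 2 * de + ph - 2 * n - j3) % 2 = 0 := by clear * - y15 y16 ev n1p n4p n5p; omega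
    have r638 : (i + h - j - ph) % 2 = 0 := by clear * - y15 y16 ev n1p n4p n5p; omega
    clear * - al a2 GG AL1 T2 kk626 kk627 kk628 kk629 kk630 kk631 kk632 kk633 kk634 kk635 kk636 r637 r638
    exact midP al (i + h - j - ph) (i + 3 * h + 2 * de + ph - 2 * n - j3) (h + 2 * de + ph - n - j3 + 1) (Q + j + ph - n - i) (i + 2 * h - n) (by omega) (fun t h1 h2 => (cE (cI (pb GG al (-1) t (t + (n - h)) (by omega)) (qa T2 al 0 (t + (n - h)) ((i + 3 * h + 2 * de + ph - n - j3) - t) (by omega))) (sh al (-1) ((i + 3 * h + 2 * de + ph - n - j3) - t) ((i + 3 * h + 2 * de + ph - 2 * n - j3) - t) (by omega)))) (fun t h1 h2 => (cE (cE (pb (show Par W (Q) (i + h) (j + ph - i) from fun t h1 h2 => (cE (sh al (-1) t (t + (-n)) (by omega)) (cE (pb a2 al (-1) (t + (-n)) (t + (j - i - h)) (by omega)) (qf AL1 al 0 (t + (j - i - h)) (t + (j + ph - i)) (by omega))))) al (-1) t (t + (n + i - j - ph)) (by omega)) (qf GG al 0 (t + (n + i - j - ph)) (t + (n + i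 + h - j - ph)) (by omega))) (sh al (-1) (t + (n + i + h - j - ph)) (t + (i + h - j - ph)) (by omega))))

theorem rz6_2 {W : ℤ → G} {n Q i j h de j3 ph : ℤ} (al : AL W n Q)
    (hy : (0) ≤ (i) ∧ (i) ≤ (j) ∧ (j + 1) ≤ (Q) ∧ (i) ≤ (j3) ∧ (j3 + 1) ≤ (Q) ∧ (0) ≤ (de) ∧ (de + 1) ≤ (j3) ∧ (Q + j3) ≤ (i + h + de) ∧ (j + 1) ≤ (h) ∧ (0) ≤ (ph) ∧ (ph + 1) ≤ (h) ∧ (3 * h + j3 + 2 * ph) ≤ (n + i) ∧ (3 * j3 + 1) ≤ (i + h + 2 * de) ∧ (i + 1) ≤ (de) ∧ (j + 1) ≤ (j3) ∧ (de) ≤ (j) ∧ (j) ≤ (de))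
    (a1 : Par W (0) (j) (i + h - j))
    (a2 : Par W (Q + j - i - h) (j) (i + h - j))
    (s1 : Ant W (0) (i) (i + j))
    (s2 : Ant W (j + 1) (Q) (i + j))
    (u1 : Ant W (0) (i) (i + j3))
    (u2 : Ant W (j3 + 1) (Q) (i + j3))
    (GG : Par W (i + 1) (h + de + ph) (h))
    (AL0 : Par W (i - ph + 1) (de) (ph))
    (AL1 : Par W (i - h - ph + 1) (de) (h + ph))
    (BE : Par W (de + 1) (j3) (i + h - j3))
    (T2 : Ant W (Q) (i + h + de - j3) (i + 2 * h + 2 * de + ph - j3))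
    (n1 : Nd W (j) (i) (i + h))
    (n4 : Nd W (h + de + ph) (i + h + de - j3) (de))
    (n5 : Nd W (j3) (i) (i + h))
    (b0 : (2 * Q) ≤ (2 * j + ph + 1)) : False := by
  have ev := al.ev
  obtain ⟨y0, y1, y2, y3, y4, y5, y6, y7, y8, y9, y10, y11, y12, y13, y14, y15, y16⟩ := id hy
  have n1p := And.intro n1.p1 n1.p2
  have n4p := And.intro n4.p1 n4.p2
  have n5p := And.intro n5.p1 n5.p2
  by_cases z3 : (j + 2 * ph) ≤ (2 * Q + j3)
  · exact rz6_3 al hy a1 a2 s1 s2 u1 u2 GG AL0 AL1 BE T2 n1 n4 n5 (by clear * - b0; omega) (by clear * - z3; omega)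
  · exact rz6_31 al hy a1 a2 s1 s2 u1 u2 GG AL0 AL1 BE T2 n1 n4 n5 (by clear * - b0; omega) (by clear * - z3; omega)

theorem rz6_1 {W : ℤ → G} {n Q i j h de j3 ph : ℤ} (al : AL W n Q)
    (hy : (0) ≤ (i) ∧ (i) ≤ (j) ∧ (j + 1) ≤ (Q) ∧ (i) ≤ (j3) ∧ (j3 + 1) ≤ (Q) ∧ (0) ≤ (de) ∧ (de + 1) ≤ (j3) ∧ (Q + j3) ≤ (i + h + de) ∧ (j + 1) ≤ (h) ∧ (0) ≤ (ph) ∧ (ph + 1) ≤ (h) ∧ (3 * h + j3 + 2 * ph) ≤ (n + i) ∧ (3 * j3 + 1) ≤ (i + h + 2 * de) ∧ (i + 1) ≤ (de) ∧ (j + 1) ≤ (j3) ∧ (de) ≤ (j) ∧ (j) ≤ (de))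
    (a1 : Par W (0) (j) (i + h - j))
    (a2 : Par W (Q + j - i - h) (j) (i + h - j))
    (s1 : Ant W (0) (i) (i + j))
    (s2 : Ant W (j + 1) (Q) (i + j))
    (u1 : Ant W (0) (i) (i + j3))
    (u2 : Ant W (j3 + 1) (Q) (i + j3))
    (GG : Par W (i + 1) (h + de + ph) (h))
    (AL0 : Par W (i - ph + 1) (de) (ph))
    (AL1 : Par W (i - h - ph + 1) (de) (h + ph))
    (BE : Par W (de + 1) (j3) (i + h - j3))
    (T2 : Ant W (Q) (i + h + de - j3) (i + 2 * h + 2 * de + ph - j3))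
    (n1 : Nd W (j) (i) (i + h))
    (n4 : Nd W (h + de + ph) (i + h + de - j3) (de))
    (n5 : Nd W (j3) (i) (i + h))
    (b0 : (Q + 1) ≤ (j + ph)) : False := by
  have ev := al.ev
  obtain ⟨y0, y1, y2, y3, y4, y5, y6, y7, y8, y9, y10, y11, y12, y13, y14, y15, y16⟩ := id hy
  have n1p := And.intro n1.p1 n1.p2
  have n4p := And.intro n4.p1 n4.p2
  have n5p := And.intro n5.p1 n5.p2
  by_cases z2 : (2 * j + ph + 2) ≤ (2 * Q)
  · have kk21 : (1) ≤ (ph) := by clear * - b0 z2; omega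
    have kk22 : (2 * j + ph + 2) ≤ (2 * Q) := by clear * - z2; omega
    have kk23 : (2) ≤ (ph) := by clear * - b0 z2; omega
    have kk24 : (2 * j + 2) ≤ (2 * de + ph) := by clear * - b0 y16 z2; omega
    have kk25 : (i) ≤ (j + ph) := by clear * - b0 y13 y15 z2; omega
    have kk26 : (i) ≤ (de + ph) := by clear * - b0 y13 z2; omega
    have r27 : (i + j - 2 * n) % 2 = 0 := by clear * - y15 y16 ev n1p n4p n5p; omega
    have r28 : (ph) % 2 = 0 := by clear * - y15 y16 ev n1p n4p n5p; omega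
    clear * - al s2 AL0 kk21 kk22 kk23 kk24 kk25 kk26 r27 r28
    exact midP al (ph) (i + j - 2 * n) (j - n + 1) (i - n - ph + 1) (de + ph - n) (by omega) (fun t h1 h2 => (cE (qa s2 al (-1) t ((i + j - n) - t) (by omega)) (sh al (-1) ((i + j - n) - t) ((i + j - 2 * n) - t) (by omega)))) (fun t h1 h2 => (cE (qf AL0 al (-1) t (t + (n + ph)) (by omega)) (sh al (-1) (t + (n + ph)) (t + (ph)) (by omega))))
  · exact rz6_2 al hy a1 a2 s1 s2 u1 u2 GG AL0 AL1 BE T2 n1 n4 n5 (by clear * - z2; omega)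

theorem rz6 {W : ℤ → G} {n Q i j h de j3 ph : ℤ} (al : AL W n Q)
    (hy : (0) ≤ (i) ∧ (i) ≤ (j) ∧ (j + 1) ≤ (Q) ∧ (i) ≤ (j3) ∧ (j3 + 1) ≤ (Q) ∧ (0) ≤ (de) ∧ (de + 1) ≤ (j3) ∧ (Q + j3) ≤ (i + h + de) ∧ (j + 1) ≤ (h) ∧ (0) ≤ (ph) ∧ (ph + 1) ≤ (h) ∧ (3 * h + j3 + 2 * ph) ≤ (n + i) ∧ (3 * j3 + 1) ≤ (i + h + 2 * de) ∧ (i + 1) ≤ (de) ∧ (j + 1) ≤ (j3) ∧ (de) ≤ (j) ∧ (j) ≤ (de))
    (a1 : Par W (0) (j) (i + h - j))
    (a2 : Par W (Q + j - i - h) (j) (i + h - j))
    (s1 : Ant W (0) (i) (i + j))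
    (s2 : Ant W (j + 1) (Q) (i + j))
    (u1 : Ant W (0) (i) (i + j3))
    (u2 : Ant W (j3 + 1) (Q) (i + j3))
    (GG : Par W (i + 1) (h + de + ph) (h))
    (AL0 : Par W (i - ph + 1) (de) (ph))
    (AL1 : Par W (i - h - ph + 1) (de) (h + ph))
    (BE : Par W (de + 1) (j3) (i + h - j3))
    (T2 : Ant W (Q) (i + h + de - j3) (i + 2 * h + 2 * de + ph - j3))
    (n1 : Nd W (j) (i) (i + h))
    (n4 : Nd W (h + de + ph) (i + h + de - j3) (de))
    (n5 : Nd W (j3) (i) (i + h)) : False := by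
  have ev := al.ev
  obtain ⟨y0, y1, y2, y3, y4, y5, y6, y7, y8, y9, y10, y11, y12, y13, y14, y15, y16⟩ := id hy
  have n1p := And.intro n1.p1 n1.p2
  have n4p := And.intro n4.p1 n4.p2
  have n5p := And.intro n5.p1 n5.p2
  by_cases z1 : (j + ph) ≤ (Q)
  · have kk1 : (1) ≤ (h) := by clear * - y12 y13 y14 y15; omega
    have kk2 : (i + 1) ≤ (de + ph) := by clear * - y13 y9; omega
    have kk3 : (i + 1) ≤ (j + ph) := by clear * - y13 y15 y9; omega
    have kk4 : (0) ≤ (j) := by clear * - y15 y5; omega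
    have kk5 : (0) ≤ (j + ph) := by clear * - y15 y5 y9; omega
    have kk6 : (i + 1) ≤ (j) := by clear * - y13 y15; omega
    have kk7 : (j) ≤ (de) := by clear * - y16; omega
    have kk8 : (j + 1) ≤ (h) := by clear * - y8; omega
    have kk9 : (i) ≤ (de + ph) := by clear * - y13 y9; omega
    have kk10 : (de + ph) ≤ (Q) := by clear * - y15 z1; omega
    have kk11 : (i) ≤ (j) := by clear * - y13 y15; omega
    have kk12 : (0) ≤ (j + ph + 1) := by clear * - y15 y5 y9; omega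
    have kk13 : (0) ≤ (j + 1) := by clear * - y15 y5; omega
    have kk14 : (0) ≤ (ph) := by clear * - y9; omega
    have kk15 : (de) ≤ (j) := by clear * - y15; omega
    have kk16 : (de) ≤ (2 * j + 1) := by clear * - y15 y5; omega
    have kk17 : (i) ≤ (2 * j + 1) := by clear * - y13 y15 y5; omega
    have r18 : (ph) % 2 = 0 := by clear * - y15 y16 ev n1p n4p n5p; omega
    have r19 : (j + ph - i) % 2 = 0 := by clear * - y15 y16 ev n1p n4p n5p; omega
    have r20 : (i + j - 2 * n - ph) % 2 = 0 := by clear * - y15 y16 ev n1p n4p n5p; omega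
    clear * - al a1 s2 AL0 AL1 n1 kk1 kk2 kk3 kk4 kk5 kk6 kk7 kk8 kk9 kk10 kk11 kk12 kk13 kk14 kk15 kk16 kk17 r18 r19 r20
    exact ivt al.ninv (i - n - j - ph) (i - n - ph) (j + ph - i) (i - n - ph + 1) (j - n - ph) (ph) (i - n - ph) (i - n) 0 (fun t h1 h2 => (cE (cE (qf AL1 al (-1) t (t + (n + h + ph)) (by omega)) (pb a1 al 0 (t + (n + h + ph)) (t + (n + j + ph - i)) (by omega))) (sh al (-1) (t + (n + j + ph - i)) (t + (j + ph - i)) (by omega)))) (fun t h1 h2 => (cE (qf AL0 al (-1) t (t + (n + ph)) (by omega)) (sh al (-1) (t + (n + ph)) (t + (ph)) (by omega)))) (fun hh => n1.f1 (rEE (sh al (-1) (i) (i - n) (by omega)) (cE (pb AL1 al 0 (i + h) (i - ph) (by omega)) (sh al (-1) (i - ph) (i - n - ph) (by omega))) (Eq.symm (Eq.symm hh)))) (by omega) (i + j - n - de - ph + 1) (i - n) (i + j - 2 * n - ph) 1 (-1) (fun t h1 h2 => (cE (cE (ab s2 al (-1) t ((i + j - n) - t) (by omega)) (pb AL0 al 0 ((i + j - n) - t) ((i + j - n - ph) - t) (by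 omega))) (sh al (-1) ((i + j - n - ph) - t) ((i + j - 2 * n - ph) - t) (by omega)))) (by omega)
  · exact rz6_1 al hy a1 a2 s1 s2 u1 u2 GG AL0 AL1 BE T2 n1 n4 n5 (by clear * - z1; omega)

end Pool.Agent.MP_a38735_al.WL
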