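import Pool.Agent.MP_a38735_al.Zw15

set_option autoImplicit false
set_option linter.unusedVariables false

namespace Pool.Agent.MP_a38735_al.WL

variable {G : Type*} [Group G]

theorem rz2 {W : ℤ → G} {n Q i j h de j3 ph : ℤ} (al : AL W n Q)
    (hy : (0) ≤ (i) ∧ (i) ≤ (j) ∧ (j + 1) ≤ (Q) ∧ (i) ≤ (j3) ∧ (j3 + 1) ≤ (Q) ∧ (0) ≤ (de) ∧ (de + 1) ≤ (j3) ∧ (Q + j3) ≤ (i + h + de) ∧ (j + 1) ≤ (h) ∧ (0) ≤ (ph) ∧ (ph + 1) ≤ (h) ∧ (3 * h + j3 + 2 * ph) ≤ (n + i) ∧ (3 * j3 + 1) ≤ (i + h + 2 * de) ∧ (i + 1) ≤ (de) ∧ (j3 + 1) ≤ (j))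
    (a1 : Par W (0) (j) (i + h - j))
    (a2 : Par W (Q + j - i - h) (j) (i + h - j))
    (s1 : Ant W (0) (i) (i + j))
    (s2 : Ant W (j + 1) (Q) (i + j))
    (u1 : Ant W (0) (i) (i + j3))
    (u2 : Ant W (j3 + 1) (Q) (i + j3))
    (GG : Par W (i + 1) (h + de + ph) (h))
    (AL0 : Par W (i - ph + 1) (de) (ph))
    (AL1 : Par W (i - h - ph + 1) (de) (h + ph))
    (BE : Par W (de + 1) (j3) (i + h - j3))
    (T2 : Ant W (Q) (i + h + de - j3) (i + 2 * h + 2 * de + ph - j3))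
    (n1 : Nd W (j) (i) (i + h))
    (n4 : Nd W (h + de + ph) (i + h + de - j3) (de))
    (n5 : Nd W (j3) (i) (i + h)) : False := by
  have ev := al.ev
  obtain ⟨y0, y1, y2, y3, y4, y5, y6, y7, y8, y9, y10, y11, y12, y13, y14⟩ := id hy
  have n1p := And.intro n1.p1 n1.p2
  have n4p := And.intro n4.p1 n4.p2
  have n5p := And.intro n5.p1 n5.p2
  by_cases z1 : (ph) ≤ (i)
  · have kk1 : (i + 1) ≤ (j + ph) := by clear * - y13 y14 y6 y9; omega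
    have kk2 : (j + ph + 1) ≤ (n + i) := by clear * - y11 y13 y14 y6 y8 y9 z1; linarith
    have kk3 : (ph) ≤ (i) := by clear * - z1; omega
    have kk4 : (j + 1) ≤ (h) := by clear * - y8; omega
    have kk5 : (i) ≤ (de + ph) := by clear * - y13 y9; omega
    clear * - al a1 AL1 kk1 kk2 kk3 kk4 kk5
    exact al.ubP (j + ph - i) (by omega) (by omega) fun t h1 h2 => (cE (sh al (-1) t (t + (-n)) (by omega)) (cE (qf AL1 al (-1) (t + (-n)) (t + (h + ph)) (by omega)) (pb a1 al 0 (t + (h + ph)) (t + (j + ph - i)) (by omega))))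
  · exact rz2_1 al hy a1 a2 s1 s2 u1 u2 GG AL0 AL1 BE T2 n1 n4 n5 (by clear * - z1; omega)

end Pool.Agent.MP_a38735_al.WL
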