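import Pool.Agent.MP_a38735_al.WT

set_option autoImplicit false
set_option linter.unusedVariables false

namespace Pool.Agent.MP_a38735_al.WL

variable {G : Type*} [Group G]

theorem rz3_5 {W : ℤ → G} {n Q i j h de j3 ph : ℤ} (al : AL W n Q)
    (hy : (0) ≤ (i) ∧ (i) ≤ (j) ∧ (j + 1) ≤ (Q) ∧ (i) ≤ (j3) ∧ (j3 + 1) ≤ (Q) ∧ (0) ≤ (de) ∧ (de + 1) ≤ (j3) ∧ (Q + j3) ≤ (i + h + de) ∧ (j + 1) ≤ (h) ∧ (0) ≤ (ph) ∧ (ph + 1) ≤ (h) ∧ (3 * h + j3 + 2 * ph) ≤ (n + i) ∧ (3 * j3 + 1) ≤ (i + h + 2 * de) ∧ (de) ≤ (i))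
    (a1 : Par W (0) (j) (i + h - j))
    (a2 : Par W (Q + j - i - h) (j) (i + h - j))
    (s1 : Ant W (0) (i) (i + j))
    (s2 : Ant W (j + 1) (Q) (i + j))
    (u1 : Ant W (0) (i) (i + j3))
    (u2 : Ant W (j3 + 1) (Q) (i + j3))
    (GG : Par W (i + 1) (h + de + ph) (h))
    (AL0 : Par W (i - ph + 1) (de) (ph))
    (AL1 : Par W (i - h - ph + 1) (de) (h + ph))
    (BE : Par W (de + 1) (j3) (i + h - j3))
    (T2 : Ant W (Q) (i + h + de - j3) (i + 2 * h + 2 * de + ph - j3))
    (n1 : Nd W (j) (i) (i + h))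
    (n4 : Nd W (h + de + ph) (i + h + de - j3) (de))
    (n5 : Nd W (j3) (i) (i + h))
    (b0 : (j + j3 + 1) ≤ (h))
    (b1 : (j3 + 1) ≤ (j))
    (b2 : (i + 1) ≤ (ph))
    (b3 : (i + h + 2 * de + ph + 2) ≤ (2 * Q + j3))
    (b4 : (2 * Q) ≤ (j + j3 + 2 * ph + 1)) : False := by
  have ev := al.ev
  obtain ⟨y0, y1, y2, y3, y4, y5, y6, y7, y8, y9, y10, y11, y12, y13⟩ := id hy
  have n1p := And.intro n1.p1 n1.p2
  have n4p := And.intro n4.p1 n4.p2
  have n5p := And.intro n5.p1 n5.p2
  by_cases z8 : (2 * j + 1) ≤ (2 * i + h)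
  · by_cases z9 : (h) ≤ (2 * j)
    · by_cases v6 : (2 * j + 1) ≤ (i + h)
      · have kk86 : (h) ≤ (2 * j) := by clear * - z9; omega
        have kk87 : (h) ≤ (2 * j + 1) := by clear * - z9; omega
        have kk88 : (2 * j + 1) ≤ (i + h) := by clear * - v6; omega
        have kk89 : (j + 1) ≤ (h) := by clear * - b2 v6 y10; omega
        have r90 : (2 * j - h) % 2 = 0 := by clear * - ev n1p n4p n5p; omega
        clear * - al a1 s1 kk86 kk87 kk88 kk89 r90
        obtain ⟨t, ht⟩ : ∃ t, 2 * t = (2 * j - h) := ⟨(2 * j - h) / 2, by omega⟩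
        exact al.ninv t (cI (qf a1 al 0 t (t + (i + h - j)) (by omega)) (ab s1 al 0 (t + (i + h - j)) t (by omega)))
      · have kk91 : (2 * j + 2) ≤ (2 * i + h) := by clear * - z8 ev n1p n4p n5p; omega
        have kk92 : (h) ≤ (2 * j + 1) := by clear * - z9; omega
        have kk93 : (i + h) ≤ (2 * j + 1) := by clear * - v6; omega
        have kk94 : (j + 1) ≤ (h) := by clear * - y8; omega
        have r95 : (2 * j - h) % 2 = 0 := by clear * - ev n1p n4p n5p; omega
        clear * - al a1 s1 kk91 kk92 kk93 kk94 r95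
        obtain ⟨t, ht⟩ : ∃ t, 2 * t = (2 * j - h) := ⟨(2 * j - h) / 2, by omega⟩
        exact al.ninv t (cI (qf a1 al 0 t (t + (i + h - j)) (by omega)) (ab s1 al 0 (t + (i + h - j)) t (by omega)))
    · by_cases z10 : (i + j3 + 2) ≤ (2 * de + ph)
      · by_cases v7 : (Q) ≤ (j3 + ph)
        · have kk96 : (i + j3 + 2) ≤ (2 * de + ph) := by clear * - z10; omega
          have kk97 : (i + j3 + ph + 1) ≤ (2 * Q) := by clear * - b3 y10 y12 z10; omega
          have kk98 : (de) ≤ (i) := by clear * - y13; omega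
          have kk99 : (Q) ≤ (j3 + ph) := by clear * - v7; omega
          have r100 : (2 * n + i + j3 + ph) % 2 = 0 := by clear * - ev n1p n4p n5p; omega
          clear * - al u2 AL0 kk96 kk97 kk98 kk99 r100
          obtain ⟨t, ht⟩ : ∃ t, 2 * t = (2 * n + i + j3 + ph) := ⟨(2 * n + i + j3 + ph) / 2, by omega⟩
          exact al.ninv t (cE (cE (qa u2 al 1 t ((n + i + j3) - t) (by omega)) (qf AL0 al 0 ((n + i + j3) - t) ((n + i + j3 + ph) - t) (by omega))) (sh al 1 ((n + i + j3 + ph) - t) t (by omega)))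
        · have kk101 : (i + j3 + 2) ≤ (2 * de + ph) := by clear * - z10; omega
          have kk102 : (i + 1) ≤ (j3 + ph) := by clear * - y6 z10; omega
          have kk103 : (de) ≤ (i) := by clear * - y13; omega
          have kk104 : (j3 + ph) ≤ (Q) := by clear * - v7; omega
          have r105 : (2 * n + i + j3 + ph) % 2 = 0 := by clear * - ev n1p n4p n5p; omega
          clear * - al u2 AL0 kk101 kk102 kk103 kk104 r105
          obtain ⟨t, ht⟩ : ∃ t, 2 * t = (2 * n + i + j3 + ph) := ⟨(2 * n + i + j3 + ph) / 2, by omega⟩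
          exact al.ninv t (cE (cE (qa u2 al 1 t ((n + i + j3) - t) (by omega)) (qf AL0 al 0 ((n + i + j3) - t) ((n + i + j3 + ph) - t) (by omega))) (sh al 1 ((n + i + j3 + ph) - t) t (by omega)))
      · by_cases z11 : (2 * j3 + 1) ≤ (i + j)
        · by_cases z12 : (j + 2 * de + 2) ≤ (i + 2 * j3)
          · by_cases v8 : (i + j3) ≤ (j + de)
            · have kk106 : (2 * j3 + 2) ≤ (i + j) := by clear * - z11 ev n1p n4p n5p; omega
              have kk107 : (j + 2 * de + 1) ≤ (i + 2 * j3) := by clear * - z12; omega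
              have kk108 : (0) ≤ (j3 + 1) := by clear * - v8 y5 z12; omega
              have kk109 : (i) ≤ (j3) := by clear * - y3; omega
              have kk110 : (i + j3) ≤ (j + de) := by clear * - v8; omega
              have kk111 : (0) ≤ (de + 1) := by clear * - y5; omega
              have r112 : (3 * i + 2 * h - j) % 2 = 0 := by clear * - ev n1p n4p n5p; omega
              clear * - al a1 u1 BE kk106 kk107 kk108 kk109 kk110 kk111 r112
              obtain ⟨t, ht⟩ : ∃ t, 2 * t = (3 * i + 2 * h - j) := ⟨(3 * i + 2 * h - j) / 2, by omega⟩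
              exact al.ninv t (cE (cI (pb a1 al 0 t (t + (j - i - h)) (by omega)) (ab u1 al 0 (t + (j - i - h)) ((2 * i + h + j3 - j) - t) (by omega))) (qf BE al 0 ((2 * i + h + j3 - j) - t) t (by omega)))
            · have kk113 : (2 * j3 + 2) ≤ (i + j) := by clear * - z11 ev n1p n4p n5p; omega
              have kk114 : (i + 1) ≤ (j) := by clear * - y3 z11; omega
              have kk115 : (0) ≤ (j3 + 1) := by clear * - b2 y5 z10; omega
              have kk116 : (i) ≤ (j3) := by clear * - y3; omega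
              have kk117 : (j) ≤ (i + j3 + 1) := by clear * - v8 y5; omega
              have kk118 : (j + de) ≤ (i + j3) := by clear * - v8; omega
              have r119 : (3 * i + 2 * h - j) % 2 = 0 := by clear * - ev n1p n4p n5p; omega
              clear * - al a1 u1 BE kk113 kk114 kk115 kk116 kk117 kk118 r119
              obtain ⟨t, ht⟩ : ∃ t, 2 * t = (3 * i + 2 * h - j) := ⟨(3 * i + 2 * h - j) / 2, by omega⟩
              exact al.ninv t (cE (cI (pb a1 al 0 t (t + (j - i - h)) (by omega)) (ab u1 al 0 (t + (j - i - h)) ((2 * i + h + j3 - j) - t) (by omega))) (qf BE al 0 ((2 * i + h + j3 - j) - t) t (by omega)))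
          · by_cases v9 : (i + h + 2 * de + ph + 1) ≤ (Q + j + j3)
            · have kk120 : (j3 + 1) ≤ (j) := by clear * - b4 v9 z12 z8; omega
              have kk121 : (2 * Q + j + j3) ≤ (2 * i + 2 * h + 2 * de) := by clear * - b4 y5 z10 z11 z12 z9 ev n1p n4p n5p; omega
              have kk122 : (j3 + 2) ≤ (j) := by clear * - b4 v9 y5 z11 z9; omega
              have kk123 : (2 * de + 2 * ph + 2) ≤ (j + j3) := by clear * - b4 v9 y5 z10 z11 z12 z9 ev n1p n4p n5p; omega
              have kk124 : (0) ≤ (de + ph + 1) := by clear * - b3 b4 y5 z11 z9; omega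
              have kk125 : (i) ≤ (de + ph) := by clear * - b3 b4 y5 z11 z12 z9; omega
              have kk126 : (i + h + 2 * de + ph + 1) ≤ (Q + j + j3) := by clear * - v9; omega
              have kk127 : (i + de + 1) ≤ (Q + j3) := by clear * - b3 b4 v9 y5 z10 z11 z9; linarith
              have kk128 : (0) ≤ (de + 1) := by clear * - y5; omega
              have kk129 : (j3) ≤ (j) := by clear * - b4 v9 z12 z8; omega
              have kk130 : (0) ≤ (ph) := by clear * - b3 b4 z12 z8; omega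
              have kk131 : (de) ≤ (j3) := by clear * - y6; omega
              have r132 : (2 * i + 2 * h + 2 * de + ph - 2 * n - j - j3) % 2 = 0 := by clear * - ev n1p n4p n5p; omega
              have r133 : (j - j3) % 2 = 0 := by clear * - ev n1p n4p n5p; omega
              clear * - al a1 GG BE T2 kk120 kk121 kk122 kk123 kk124 kk125 kk126 kk127 kk128 kk129 kk130 kk131 r132 r133
              exact midP al (j - j3) (2 * i + 2 * h + 2 * de + ph - 2 * n - j - j3) (i + h + de + ph - n - j + 1) (i + h + de - n - j + 1) (i + h - n) (by omega) (fun t h1 h2 => (cE (cI (cE (pb a1 al (-1) t (t + (n + j - i - h)) (by omega)) (qf GG al 0 (t + (n + j - i - h)) (t + (n + j - i)) (by omega))) (ab T2 al 0 (t + (n + j - i)) ((2 * i + 2 * h + 2 * de + ph - n - j - j3) - t) (by omega))) (sh al (-1) ((2 * i + 2 * h + 2 * de + ph - n - j - j3) - t) ((2 * i + 2 * h + 2 * de + ph - 2 * n - j - j3) - t) (by omega)))) (fun t h1 h2 => (cE (cE (pb a1 al (-1) t (t + (n + j - i - h)) (by omega)) (qf BE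 al 0 (t + (n + j - i - h)) (t + (n + j - j3)) (by omega))) (sh al (-1) (t + (n + j - j3)) (t + (j - j3)) (by omega))))
            · have kk134 : (j3 + 1) ≤ (j) := by clear * - b1; omega
              have kk135 : (2 * de + 2 * ph + 2) ≤ (j + j3) := by clear * - b3 b4 y5 z10 z12 z9 ev n1p n4p n5p; omega
              have kk136 : (j3 + 2) ≤ (j) := by clear * - b3 b4 v9 z10 z12 ev n1p n4p n5p; omega
              have kk137 : (0) ≤ (de + ph + 1) := by clear * - b3 b4 v9 y5 z10 z12; omega
              have kk138 : (i) ≤ (de + ph) := by clear * - b3 b4 y5 z11 z12 z9; omega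
              have kk139 : (j) ≤ (h + de + ph) := by clear * - b3 b4 v9 y10 z12; omega
              have kk140 : (Q + j + j3) ≤ (i + h + 2 * de + ph + 1) := by clear * - v9; omega
              have kk141 : (0) ≤ (de + 1) := by clear * - y5; omega
              have kk142 : (j3) ≤ (j) := by clear * - b1; omega
              have kk143 : (0) ≤ (ph) := by clear * - b3 b4 v9 z10 z12; omega
              have kk144 : (de) ≤ (j3) := by clear * - y6; omega
              have r145 : (2 * i + 2 * h + 2 * de + ph - 2 * n - j - j3) % 2 = 0 := by clear * - ev n1p n4p n5p; omega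
              have r146 : (j - j3) % 2 = 0 := by clear * - ev n1p n4p n5p; omega
              clear * - al a1 GG BE T2 kk134 kk135 kk136 kk137 kk138 kk139 kk140 kk141 kk142 kk143 kk144 r145 r146
              exact midP al (j - j3) (2 * i + 2 * h + 2 * de + ph - 2 * n - j - j3) (i + h + de + ph - n - j + 1) (i + h + de - n - j + 1) (i + h - n) (by omega) (fun t h1 h2 => (cE (cI (cE (pb a1 al (-1) t (t + (n + j - i - h)) (by omega)) (qf GG al 0 (t + (n + j - i - h)) (t + (n + j - i)) (by omega))) (ab T2 al 0 (t + (n + j - i)) ((2 * i + 2 * h + 2 * de + ph - n - j - j3) - t) (by omega))) (sh al (-1) ((2 * i + 2 * h + 2 * de + ph - n - j - j3) - t) ((2 * i + 2 * h + 2 * de + ph - 2 * n - j - j3) - t) (by omega)))) (fun t h1 h2 => (cE (cE (pb a1 al (-1) t (t + (n + j - i - h)) (by omega)) (qf BE al 0 (t + (n + j - i - h)) (t + (n + j - j3)) (by omega))) (sh al (-1) (t + (n + j - j3)) (t + (j - j3)) (by omega))))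
        · by_cases z13 : (2 * de + 2 * ph + 2) ≤ (j + j3)
          · by_cases z14 : (2 * Q + j + j3) ≤ (2 * i + 2 * h + 2 * de)
            · by_cases v10 : (i + h + 2 * de + ph + 1) ≤ (Q + j + j3)
              · have kk147 : (j3 + 1) ≤ (j) := by clear * - b1; omega
                have kk148 : (2 * Q + j + j3) ≤ (2 * i + 2 * h + 2 * de) := by clear * - z14; omega
                have kk149 : (j3 + 2) ≤ (j) := by clear * - b1 ev n1p n4p n5p; omega
                have kk150 : (2 * de + 2 * ph + 2) ≤ (j + j3) := by clear * - v10 z14; omega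
                have kk151 : (0) ≤ (de + 1) := by clear * - y5; omega
                have kk152 : (j3) ≤ (j) := by clear * - b1; omega
                have kk153 : (0) ≤ (de + ph + 1) := by clear * - b2 y13 y5; omega
                have kk154 : (i) ≤ (de + ph) := by clear * - b2 y5; omega
                have kk155 : (i + h + 2 * de + ph + 1) ≤ (Q + j + j3) := by clear * - v10; omega
                have kk156 : (i + de + 1) ≤ (Q + j3) := by clear * - b3 b4 v10 y12 z11 z14; omega
                have kk157 : (0) ≤ (ph) := by clear * - y9; omega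
                have kk158 : (de) ≤ (j3) := by clear * - b3 b4 z14; omega
                have r159 : (2 * i + 2 * h + 2 * de + ph - j - j3) % 2 = 0 := by clear * - ev n1p n4p n5p; omega
                have r160 : (j - j3) % 2 = 0 := by clear * - ev n1p n4p n5p; omega
                clear * - al a1 GG BE T2 kk147 kk148 kk149 kk150 kk151 kk152 kk153 kk154 kk155 kk156 kk157 kk158 r159 r160
                exact midP al (j - j3) (2 * i + 2 * h + 2 * de + ph - j - j3) (i + h + de + ph - j + 1) (i + h + de - j + 1) (i + h) (by omega) (fun t h1 h2 => (cI (cE (pb a1 al 0 t (t + (j - i - h)) (by omega)) (qf GG al 0 (t + (j - i - h)) (t + (j - i)) (by omega))) (ab T2 al 0 (t + (j - i)) ((2 * i + 2 * h + 2 * de + ph - j - j3) - t) (by omega)))) (fun t h1 h2 => (qf (show Par W (i + h + de - j + 1) (i + h + j3 - j) (j - j3) from fun t h1 h2 => (cE (sh al (-1) t (t + (-n)) (by omega)) (cE (pb a1 al (-1) (t + (-n)) (t + (j - i - h)) (by omega)) (qf BE al 0 (t + (j - i - h)) (t + (j - j3))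 (by omega))))) al 0 t (t + (j - j3)) (by omega)))
              · have kk161 : (j3 + 1) ≤ (j) := by clear * - b1; omega
                have kk162 : (2 * de + 2 * ph + 2) ≤ (j + j3) := by clear * - z13; omega
                have kk163 : (j3 + 2) ≤ (j) := by clear * - b1 ev n1p n4p n5p; omega
                have kk164 : (0) ≤ (de + 1) := by clear * - y5; omega
                have kk165 : (j3) ≤ (j) := by clear * - b1; omega
                have kk166 : (0) ≤ (de + ph + 1) := by clear * - b1 b3 b4 v10 y5; omega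
                have kk167 : (i) ≤ (de + ph) := by clear * - b2 y5; omega
                have kk168 : (j) ≤ (h + de + ph) := by clear * - b1 b3 b4 v10 z11 z14; omega
                have kk169 : (Q + j + j3) ≤ (i + h + 2 * de + ph + 1) := by clear * - v10; omega
                have kk170 : (0) ≤ (ph) := by clear * - b1 b3 b4 v10; omega
                have kk171 : (de) ≤ (j3) := by clear * - b3 b4 z14; omega
                have r172 : (2 * i + 2 * h + 2 * de + ph - j - j3) % 2 = 0 := by clear * - ev n1p n4p n5p; omega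
                have r173 : (j - j3) % 2 = 0 := by clear * - ev n1p n4p n5p; omega
                clear * - al a1 GG BE T2 kk161 kk162 kk163 kk164 kk165 kk166 kk167 kk168 kk169 kk170 kk171 r172 r173
                exact midP al (j - j3) (2 * i + 2 * h + 2 * de + ph - j - j3) (i + h + de + ph - j + 1) (i + h + de - j + 1) (i + h) (by omega) (fun t h1 h2 => (cI (cE (pb a1 al 0 t (t + (j - i - h)) (by omega)) (qf GG al 0 (t + (j - i - h)) (t + (j - i)) (by omega))) (ab T2 al 0 (t + (j - i)) ((2 * i + 2 * h + 2 * de + ph - j - j3) - t) (by omega)))) (fun t h1 h2 => (qf (show Par W (i + h + de - j + 1) (i + h + j3 - j) (j - j3) from fun t h1 h2 => (cE (sh al (-1) t (t + (-n)) (by omega)) (cE (pb a1 al (-1) (t + (-n)) (t + (j - i - h)) (by omega)) (qf BE al 0 (t + (j - i - h)) (t + (j - j3)) (by omega))))) al 0 t (t + (j - j3)) (by omega)))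
            · by_cases v11 : (2 * i + h + ph + 1) ≤ (2 * Q)
              · have kk174 : (j3 + 1) ≤ (j) := by clear * - b1; omega
                have kk175 : (2 * Q + 2 * de) ≤ (2 * i + j + j3 + 2 * ph) := by clear * - b4 y13 ev n1p n4p n5p; omega
                have kk176 : (2 * h + 4 * de + 2) ≤ (3 * j + j3 + 2 * ph) := by clear * - b4 v11 y12 y13 z13; omega
                have kk177 : (2 * de + 2) ≤ (j + j3) := by clear * - b1 b4 v11 z13 z8; omega
                have kk178 : (0) ≤ (de + 1) := by clear * - y5; omega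
                have kk179 : (j3) ≤ (j) := by clear * - b1; omega
                have kk180 : (de) ≤ (i) := by clear * - y13; omega
                have kk181 : (de + ph) ≤ (j) := by clear * - b1 z13; omega
                have kk182 : (Q) ≤ (j + ph) := by clear * - b1 b4; omega
                have kk183 : (2 * i + h + ph + 1) ≤ (2 * Q) := by clear * - v11; omega
                have kk184 : (2 * j) ≤ (h + 2 * de) := by clear * - y5 z9; omega
                have r185 : (2 * i + h + ph - 2 * n) % 2 = 0 := by clear * - ev n1p n4p n5p; omega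
                have r186 : (j - j3) % 2 = 0 := by clear * - ev n1p n4p n5p; omega
                clear * - al a1 a2 s2 AL0 BE kk174 kk175 kk176 kk177 kk178 kk179 kk180 kk181 kk182 kk183 kk184 r185 r186
                exact midP al (j - j3) (2 * i + h + ph - 2 * n) (i + h + de - n - j + 1) (i + h + de - n - j + 1) (i + h - n) (by omega) (fun t h1 h2 => (cE (cE (cE (qa s2 al (-1) t ((i + j - n) - t) (by omega)) (qf AL0 al 0 ((i + j - n) - t) ((i + j + ph - n) - t) (by omega))) (qf a2 al 0 ((i + j + ph - n) - t) ((2 * i + h + ph - n) - t) (by omega))) (sh al (-1) ((2 * i + h + ph - n) - t) ((2 * i + h + ph - 2 * n) - t) (by omega)))) (fun t h1 h2 => (cE (qf (show Par W (i + h + de - j + 1) (i + h + j3 - j) (j - j3) from fun t h1 h2 => (cE (sh al (-1) t (t + (-n)) (by omega)) (cE (pb a1 al (-1) (t + (-n)) (t + (j - i - h)) (by omega)) (qf BE al 0 (t + (j - i - h)) (t + (j - j3)) (by omega))))) al (-1) t (t + (n + j - j3)) (by omega)) (sh al (-1) (t + (n + j - j3)) (t + (j - j3))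 (by omega))))
              · have kk187 : (j3 + 1) ≤ (j) := by clear * - b1; omega
                have kk188 : (2 * i + 2 * h + 2 * de + 2) ≤ (2 * Q + j + j3) := by clear * - z14 ev n1p n4p n5p; omega
                have kk189 : (2 * h + 4 * de + 2) ≤ (3 * j + j3 + 2 * ph) := by clear * - b1 v11 z14; omega
                have kk190 : (2 * de + 2) ≤ (j + j3) := by clear * - b1 v11 z11 z13 z14 z8; omega
                have kk191 : (0) ≤ (de + 1) := by clear * - y5; omega
                have kk192 : (j3) ≤ (j) := by clear * - b1; omega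
                have kk193 : (de) ≤ (i) := by clear * - y13; omega
                have kk194 : (de + ph) ≤ (j) := by clear * - b1 z13; omega
                have kk195 : (Q) ≤ (j + ph) := by clear * - b1 b4; omega
                have kk196 : (2 * Q) ≤ (2 * i + h + ph + 1) := by clear * - v11; omega
                have kk197 : (2 * j) ≤ (h + 2 * de) := by clear * - y5 z9; omega
                have r198 : (2 * i + h + ph - 2 * n) % 2 = 0 := by clear * - ev n1p n4p n5p; omega
                have r199 : (j - j3) % 2 = 0 := by clear * - ev n1p n4p n5p; omega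
                clear * - al a1 a2 s2 AL0 BE kk187 kk188 kk189 kk190 kk191 kk192 kk193 kk194 kk195 kk196 kk197 r198 r199
                exact midP al (j - j3) (2 * i + h + ph - 2 * n) (i + h + de - n - j + 1) (i + h + de - n - j + 1) (i + h - n) (by omega) (fun t h1 h2 => (cE (cE (cE (qa s2 al (-1) t ((i + j - n) - t) (by omega)) (qf AL0 al 0 ((i + j - n) - t) ((i + j + ph - n) - t) (by omega))) (qf a2 al 0 ((i + j + ph - n) - t) ((2 * i + h + ph - n) - t) (by omega))) (sh al (-1) ((2 * i + h + ph - n) - t) ((2 * i + h + ph - 2 * n) - t) (by omega)))) (fun t h1 h2 => (cE (qf (show Par W (i + h + de - j + 1) (i + h + j3 - j) (j - j3) from fun t h1 h2 => (cE (sh al (-1) t (t + (-n)) (by omega)) (cE (pb a1 al (-1) (t + (-n)) (t + (j - i - h)) (by omega)) (qf BE al 0 (t + (j - i - h)) (t + (j - j3)) (by omega))))) al (-1) t (t + (n + j - j3)) (by omega)) (sh al (-1) (t + (n + j - j3)) (t + (j - j3)) (by omega))))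
          · by_cases z15 : (i + j3) ≤ (2 * de + ph)
            · by_cases z16 : (Q + j + j3) ≤ (i + h + 2 * de + ph)
              · by_cases v12 : (Q + j) ≤ (i + h)
                · have kk200 : (2 * de + ph) ≤ (i + j3) := by clear * - z10 ev n1p n4p n5p; omega
                  have kk201 : (i + j3) ≤ (2 * de + ph) := by clear * - z15; omega
                  have kk202 : (j3) ≤ (2 * de + ph) := by clear * - b1 y5 z13; omega
                  have kk203 : (j3 + 1) ≤ (j) := by clear * - b1; omega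
                  have kk204 : (j + 1) ≤ (n + j3) := by clear * - b1 y11 z10 z11 z13 z8; omega
                  have kk205 : (i + j + 1) ≤ (Q) := by clear * - b3 v12 z15; omega
                  have kk206 : (de + ph) ≤ (i + j3) := by clear * - y5 z10 ev n1p n4p n5p; omega
                  have kk207 : (j3) ≤ (j) := by clear * - b1; omega
                  have kk208 : (j + de + 1) ≤ (h + j3) := by clear * - b1 z10 z11 z13 z8 z9; omega
                  have kk209 : (Q + j) ≤ (i + h) := by clear * - v12; omega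
                  have kk210 : (j + 2 * de + ph + 1) ≤ (Q + j3) := by clear * - b3 v12; omega
                  have kk211 : (i) ≤ (j3) := by clear * - b1 z11; omega
                  have kk212 : (j3) ≤ (de + ph) := by clear * - b1 z13; omega
                  have kk213 : (de) ≤ (j3) := by clear * - b1 z10 z11 z13; omega
                  clear * - al a1 s2 u2 GG T2 kk200 kk201 kk202 kk203 kk204 kk205 kk206 kk207 kk208 kk209 kk210 kk211 kk212 kk213
                  exact al.ubP (j - j3) (by omega) (by omega) (mgP (b := (i + j3 - j)) (le_refl _) (fun t h1 h2 => (cE (qf (show Par W (n + i + j3 - Q + 1) (n + i + j3 - j) (j - j3) from fun t h1 h2 => (cE (sh al (-2) t (t + (-2 * n)) (by omega)) (cE (cII (ab u2 al (-1) (t + (-2 * n)) ((n + i + j3) - t) (by omega)) (qa s2 al 0 ((n + i + j3) - t) (t + (j - n - j3)) (by omega))) (sh al 1 (t + (j - n - j3)) (t + (j - j3)) (by omega))))) al (-1) t (t + (n + j - j3)) (by omega)) (sh al (-1) (t + (n + j - j3)) (t + (j - j3)) (by omega))))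 (fun t h1 h2 => (cE (sh al (-1) t (t + (-n)) (by omega)) (cE (cII (cE (ab u2 al (-1) (t + (-n)) ((i + j3) - t) (by omega)) (qf GG al 0 ((i + j3) - t) ((i + h + j3) - t) (by omega))) (ab T2 al 0 ((i + h + j3) - t) (t + (h + 2 * de + ph - 2 * j3)) (by omega))) (pb a1 al 0 (t + (h + 2 * de + ph - 2 * j3)) (t + (j - j3)) (by omega))))))
                · have kk214 : (2 * de + ph) ≤ (i + j3) := by clear * - z10 ev n1p n4p n5p; omega
                  have kk215 : (i + j3) ≤ (2 * de + ph) := by clear * - z15; omega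
                  have kk216 : (Q + j + j3) ≤ (i + h + 2 * de + ph) := by clear * - z16; omega
                  have kk217 : (j3 + 1) ≤ (j) := by clear * - b1; omega
                  have kk218 : (j + 1) ≤ (n + j3) := by clear * - b1 v12 y11 z10 z11 z13 z16 z9; linarith
                  have kk219 : (i + j + 1) ≤ (Q) := by clear * - v12 z9; omega
                  have kk220 : (de + ph) ≤ (i + j3) := by clear * - y5 z10 ev n1p n4p n5p; omega
                  have kk221 : (j3) ≤ (j) := by clear * - b1; omega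
                  have kk222 : (j + de + 1) ≤ (h + j3) := by clear * - b1 v12 z10 z11 z13 z16 z9; linarith
                  have kk223 : (i + h) ≤ (Q + j) := by clear * - v12; omega
                  have kk224 : (i + h + 2 * de + ph + 1) ≤ (2 * Q + j3) := by clear * - v12 z10 z9; omega
                  have kk225 : (i) ≤ (j3) := by clear * - b1 z11; omega
                  have kk226 : (j3) ≤ (de + ph) := by clear * - b1 z13; omega
                  have kk227 : (de) ≤ (j3) := by clear * - b1 z10 z11 z13; omega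
                  clear * - al a1 s2 u2 GG T2 kk214 kk215 kk216 kk217 kk218 kk219 kk220 kk221 kk222 kk223 kk224 kk225 kk226 kk227
                  exact al.ubP (j - j3) (by omega) (by omega) (mgP (b := (i + j3 - j)) (le_refl _) (fun t h1 h2 => (cE (qf (show Par W (n + i + j3 - Q + 1) (n + i + j3 - j) (j - j3) from fun t h1 h2 => (cE (sh al (-2) t (t + (-2 * n)) (by omega)) (cE (cII (ab u2 al (-1) (t + (-2 * n)) ((n + i + j3) - t) (by omega)) (qa s2 al 0 ((n + i + j3) - t) (t + (j - n - j3)) (by omega))) (sh al 1 (t + (j - n - j3)) (t + (j - j3)) (by omega))))) al (-1) t (t + (n + j - j3)) (by omega)) (sh al (-1) (t + (n + j - j3)) (t + (j - j3)) (by omega)))) (fun t h1 h2 => (cE (sh al (-1) t (t + (-n)) (by omega)) (cE (cII (cE (ab u2 al (-1) (t + (-n)) ((i + j3) - t) (by omega)) (qf GG al 0 ((i + j3) - t) ((i + h + j3) - t) (by omega))) (ab T2 al 0 ((i + h + j3) - t) (t + (h + 2 * de + ph - 2 * j3)) (by omega))) (pb a1 al 0 (t + (h + 2 * de + ph - 2 * j3)) (t + (j - j3)) (by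 omega))))))
              · have kk228 : (j3 + 1) ≤ (j) := by clear * - b1; omega
                have kk229 : (j) ≤ (2 * i + j3) := by clear * - y5 z10 z13 ev n1p n4p n5p; omega
                have kk230 : (3 * j + j3 + 2) ≤ (4 * i + 2 * h) := by clear * - b1 z8; omega
                have kk231 : (j + j3 + 2) ≤ (2 * Q) := by clear * - b1 z15 z16 z8; omega
                have kk232 : (j3) ≤ (j) := by clear * - b1; omega
                have kk233 : (i) ≤ (j) := by clear * - b1 z11; omega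
                have kk234 : (2 * i + h) ≤ (Q + j) := by clear * - z15 z16; omega
                have r235 : (2 * i + h + j3 - 2 * n - j) % 2 = 0 := by clear * - ev n1p n4p n5p; omega
                have r236 : (j - j3) % 2 = 0 := by clear * - ev n1p n4p n5p; omega
                clear * - al a1 s2 u1 u2 kk228 kk229 kk230 kk231 kk232 kk233 kk234 r235 r236
                exact midP al (j - j3) (2 * i + h + j3 - 2 * n - j) (j3 - n + 1) (j3 - n + 1) (Q - n) (by omega) (fun t h1 h2 => (cE (cE (ab u1 al (-1) t ((i + j3 - n) - t) (by omega)) (qf a1 al 0 ((i + j3 - n) - t) ((2 * i + h + j3 - n - j) - t) (by omega))) (sh al (-1) ((2 * i + h + j3 - n - j) - t) ((2 * i + h + j3 - 2 * n - j) - t) (by omega)))) (fun t h1 h2 => (cE (qf (show Par W (j3 + 1) (Q + j3 - j) (j - j3) from fun t h1 h2 => (cE (sh al (-1) t (t + (-n)) (by omega)) (cII (qa u2 al (-1) (t + (-n)) ((i + j3) - t) (by omega)) (ab s2 al 0 ((i + j3) - t) (t + (j - j3)) (by omega))))) al (-1) t (t + (n + j - j3)) (by omega))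 (sh al (-1) (t + (n + j - j3)) (t + (j - j3)) (by omega))))
            · have kk237 : (j3 + 1) ≤ (j) := by clear * - b1; omega
              have kk238 : (j + j3 + 2) ≤ (2 * Q) := by clear * - b3 b4 y12 z11 z13 z15; omega
              have kk239 : (j + 2 * de + 2) ≤ (2 * i + j3) := by clear * - z13 z15 ev n1p n4p n5p; omega
              have kk240 : (j3 + 2) ≤ (j) := by clear * - b1 ev n1p n4p n5p; omega
              have kk241 : (j3) ≤ (j + de + 1) := by clear * - b1 y5; omega
              have kk242 : (de) ≤ (j3) := by clear * - b1 z11 z13 z15; omega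
              have kk243 : (i) ≤ (j) := by clear * - b1 z11; omega
              have r244 : (i + j3 - 2 * n) % 2 = 0 := by clear * - ev n1p n4p n5p; omega
              have r245 : (j - j3) % 2 = 0 := by clear * - ev n1p n4p n5p; omega
              clear * - al a1 u2 BE kk237 kk238 kk239 kk240 kk241 kk242 kk243 r244 r245
              exact midP al (j - j3) (i + j3 - 2 * n) (j3 - n + 1) (de - n + 1) (j - n) (by omega) (fun t h1 h2 => (cE (qa u2 al (-1) t ((i + j3 - n) - t) (by omega)) (sh al (-1) ((i + j3 - n) - t) ((i + j3 - 2 * n) - t) (by omega)))) (fun t h1 h2 => (cE (qf (show Par W (de + 1) (j3) (j - j3) from fun t h1 h2 => (cE (sh al (-1) t (t + (-n)) (by omega)) (cE (qf BE al (-1) (t + (-n)) (t + (i + h - j3)) (by omega)) (pb a1 al 0 (t + (i + h - j3)) (t + (j - j3)) (by omega))))) al (-1) t (t + (n + j - j3)) (by omega)) (sh al (-1) (t + (n + j - j3)) (t + (j - j3)) (by omega))))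
  · by_cases z17 : (2 * i + j + 2) ≤ (2 * de + j3 + 2 * ph)
    · by_cases z18 : (2 * i + j3 + 2 * ph + 2) ≤ (3 * j)
      · by_cases v13 : (Q) ≤ (j3 + ph)
        · by_cases v14 : (de + ph) ≤ (j)
          · have kk246 : (j3 + 1) ≤ (j) := by clear * - b1; omega
            have kk247 : (2 * i + j + j3 + 2) ≤ (2 * Q + 2 * de) := by clear * - b0 y2 y5 z8; omega
            have kk248 : (j + 2) ≤ (j3 + 2 * ph) := by clear * - y13 z17; omega
            have kk249 : (2 * i + j3 + 2) ≤ (j + 2 * de) := by clear * - b0 y5 z8 ev n1p n4p n5p; omega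
            have kk250 : (de) ≤ (i) := by clear * - y13; omega
            have kk251 : (Q) ≤ (j3 + ph) := by clear * - v13; omega
            have kk252 : (j3) ≤ (j + de + 1) := by clear * - b1 y5; omega
            have kk253 : (2 * de) ≤ (i + j3) := by clear * - b3 v13 y10 y13; omega
            have kk254 : (de + ph) ≤ (j) := by clear * - v14; omega
            have r255 : (i + j3 + ph - 2 * n) % 2 = 0 := by clear * - ev n1p n4p n5p; omega
            have r256 : (j - j3) % 2 = 0 := by clear * - ev n1p n4p n5p; omega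
            clear * - al a1 u2 AL0 BE kk246 kk247 kk248 kk249 kk250 kk251 kk252 kk253 kk254 r255 r256
            exact midP al (j - j3) (i + j3 + ph - 2 * n) (i + j3 - n - de + 1) (de - n + 1) (j - n) (by omega) (fun t h1 h2 => (cE (cE (qa u2 al (-1) t ((i + j3 - n) - t) (by omega)) (qf AL0 al 0 ((i + j3 - n) - t) ((i + j3 + ph - n) - t) (by omega))) (sh al (-1) ((i + j3 + ph - n) - t) ((i + j3 + ph - 2 * n) - t) (by omega)))) (fun t h1 h2 => (cE (cE (qf BE al (-1) t (t + (n + i + h - j3)) (by omega)) (pb a1 al 0 (t + (n + i + h - j3)) (t + (n + j - j3)) (by omega))) (sh al (-1) (t + (n + j - j3)) (t + (j - j3)) (by omega))))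
          · have kk257 : (j3 + 1) ≤ (j) := by clear * - b1; omega
            have kk258 : (2 * i + j3 + 2 * ph + 2) ≤ (2 * Q + j) := by clear * - b3 v14 y7 z18; omega
            have kk259 : (2 * de + 2) ≤ (j + j3) := by clear * - b3 v13 v14 y10 y13 z18; omega
            have kk260 : (2 * i + j3 + 2 * ph + 2) ≤ (3 * j) := by clear * - z18; omega
            have kk261 : (de) ≤ (i) := by clear * - y13; omega
            have kk262 : (Q) ≤ (j3 + ph) := by clear * - v13; omega
            have kk263 : (j3) ≤ (j + de + 1) := by clear * - b1 y5; omega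
            have kk264 : (2 * de) ≤ (i + j3) := by clear * - b3 v13 y10 y13; omega
            have kk265 : (j) ≤ (de + ph) := by clear * - v14; omega
            have r266 : (i + j3 + ph - 2 * n) % 2 = 0 := by clear * - ev n1p n4p n5p; omega
            have r267 : (j - j3) % 2 = 0 := by clear * - ev n1p n4p n5p; omega
            clear * - al a1 u2 AL0 BE kk257 kk258 kk259 kk260 kk261 kk262 kk263 kk264 kk265 r266 r267
            exact midP al (j - j3) (i + j3 + ph - 2 * n) (i + j3 + ph - n - j + 1) (de - n + 1) (j - n) (by omega) (fun t h1 h2 => (cE (cE (qa u2 al (-1) t ((i + j3 - n) - t) (by omega)) (qf AL0 al 0 ((i + j3 - n) - t) ((i + j3 + ph - n) - t) (by omega))) (sh al (-1) ((i + j3 + ph - n) - t) ((i + j3 + ph - 2 * n) - t) (by omega)))) (fun t h1 h2 => (cE (cE (qf BE al (-1) t (t + (n + i + h - j3)) (by omega)) (pb a1 al 0 (t + (n + i + h - j3)) (t + (n + j - j3)) (by omega))) (sh al (-1) (t + (n + j - j3)) (t + (j - j3)) (by omega))))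
        · by_cases v15 : (de + ph) ≤ (j)
          · have kk268 : (j3 + 1) ≤ (j) := by clear * - b4 v13; omega
            have kk269 : (2 * i + j + 2) ≤ (2 * de + j3 + 2 * ph) := by clear * - z17; omega
            have kk270 : (j + 2) ≤ (j3 + 2 * ph) := by clear * - y13 z17; omega
            have kk271 : (2 * i + j3 + 2) ≤ (j + 2 * de) := by clear * - b0 y5 z8 ev n1p n4p n5p; omega
            have kk272 : (de) ≤ (i) := by clear * - y13; omega
            have kk273 : (j3 + ph) ≤ (Q) := by clear * - v13; omega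
            have kk274 : (j3) ≤ (j + de + 1) := by clear * - b4 v13 y5; omega
            have kk275 : (2 * de) ≤ (i + j3) := by clear * - y13 y6; omega
            have kk276 : (de + ph) ≤ (j) := by clear * - v15; omega
            have r277 : (i + j3 + ph - 2 * n) % 2 = 0 := by clear * - ev n1p n4p n5p; omega
            have r278 : (j - j3) % 2 = 0 := by clear * - ev n1p n4p n5p; omega
            clear * - al a1 u2 AL0 BE kk268 kk269 kk270 kk271 kk272 kk273 kk274 kk275 kk276 r277 r278
            exact midP al (j - j3) (i + j3 + ph - 2 * n) (i + j3 - n - de + 1) (de - n + 1) (j - n) (by omega) (fun t h1 h2 => (cE (cE (qa u2 al (-1) t ((i + j3 - n) - t) (by omega)) (qf AL0 al 0 ((i + j3 - n) - t) ((i + j3 + ph - n) - t) (by omega))) (sh al (-1) ((i + j3 + ph - n) - t) ((i + j3 + ph - 2 * n) - t) (by omega)))) (fun t h1 h2 => (cE (cE (qf BE al (-1) t (t + (n + i + h - j3)) (by omega)) (pb a1 al 0 (t + (n + i + h - j3)) (t + (n + j - j3)) (by omega))) (sh al (-1) (t + (n + j -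 j3)) (t + (j - j3)) (by omega))))
          · have kk279 : (j3 + 1) ≤ (j) := by clear * - b4 v13; omega
            have kk280 : (2 * i + 2) ≤ (j + j3) := by clear * - v15 y6 z18; omega
            have kk281 : (2 * de + 2) ≤ (j + j3) := by clear * - b3 b4 v13 y10 y13; omega
            have kk282 : (2 * i + j3 + 2 * ph + 2) ≤ (3 * j) := by clear * - z18; omega
            have kk283 : (de) ≤ (i) := by clear * - y13; omega
            have kk284 : (j3 + ph) ≤ (Q) := by clear * - v13; omega
            have kk285 : (j3) ≤ (j + de + 1) := by clear * - b4 v13 y5; omega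
            have kk286 : (2 * de) ≤ (i + j3) := by clear * - y13 y6; omega
            have kk287 : (j) ≤ (de + ph) := by clear * - v15; omega
            have r288 : (i + j3 + ph - 2 * n) % 2 = 0 := by clear * - ev n1p n4p n5p; omega
            have r289 : (j - j3) % 2 = 0 := by clear * - ev n1p n4p n5p; omega
            clear * - al a1 u2 AL0 BE kk279 kk280 kk281 kk282 kk283 kk284 kk285 kk286 kk287 r288 r289
            exact midP al (j - j3) (i + j3 + ph - 2 * n) (i + j3 + ph - n - j + 1) (de - n + 1) (j - n) (by omega) (fun t h1 h2 => (cE (cE (qa u2 al (-1) t ((i + j3 - n) - t) (by omega)) (qf AL0 al 0 ((i + j3 - n) - t) ((i + j3 + ph - n) - t) (by omega))) (sh al (-1) ((i + j3 + ph - n) - t) ((i + j3 + ph - 2 * n) - t) (by omega)))) (fun t h1 h2 => (cE (cE (qf BE al (-1) t (t + (n + i + h - j3)) (by omega)) (pb a1 al 0 (t + (n + i + h - j3)) (t + (n + j - j3)) (by omega))) (sh al (-1) (t + (n + j - j3)) (t + (j - j3)) (by omega))))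
      · by_cases v16 : (j3 + ph) ≤ (Q)
        · have kk290 : (i + 2) ≤ (j3 + ph) := by clear * - b3 b4 v16 y10 z17 z18; omega
          have kk291 : (i + j3 + 1) ≤ (2 * de + ph) := by clear * - v16 y7 z17 z18 z8; omega
          have kk292 : (j3 + ph) ≤ (Q) := by clear * - v16; omega
          have kk293 : (de) ≤ (i) := by clear * - y13; omega
          have r294 : (i + j3 + ph - 2 * n) % 2 = 0 := by clear * - ev n1p n4p n5p; omega
          clear * - al u2 AL0 kk290 kk291 kk292 kk293 r294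
          obtain ⟨t, ht⟩ : ∃ t, 2 * t = (i + j3 + ph - 2 * n) := ⟨(i + j3 + ph - 2 * n) / 2, by omega⟩
          exact al.ninv t (cE (cI (pb AL0 al (-1) t (t + (n - ph)) (by omega)) (ab u2 al 0 (t + (n - ph)) ((i + j3 + ph - n) - t) (by omega))) (sh al (-1) ((i + j3 + ph - n) - t) t (by omega)))
        · have kk295 : (i + j3 + ph + 2) ≤ (2 * Q) := by clear * - b0 b1 b3 y5; omega
          have kk296 : (i + j3 + 1) ≤ (2 * de + ph) := by clear * - b0 b1 y5 z18 z8; omega
          have kk297 : (Q) ≤ (j3 + ph) := by clear * - v16; omega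
          have kk298 : (de) ≤ (i) := by clear * - y13; omega
          have r299 : (i + j3 + ph - 2 * n) % 2 = 0 := by clear * - ev n1p n4p n5p; omega
          clear * - al u2 AL0 kk295 kk296 kk297 kk298 r299
          obtain ⟨t, ht⟩ : ∃ t, 2 * t = (i + j3 + ph - 2 * n) := ⟨(i + j3 + ph - 2 * n) / 2, by omega⟩
          exact al.ninv t (cE (cI (pb AL0 al (-1) t (t + (n - ph)) (by omega)) (ab u2 al 0 (t + (n - ph)) ((i + j3 + ph - n) - t) (by omega))) (sh al (-1) ((i + j3 + ph - n) - t) t (by omega)))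
    · have kk300 : (2 * i + j3 + 2) ≤ (j + 2 * de + ph) := by clear * - b0 b2 y5 z17 z8; omega
      have kk301 : (j3 + ph + 1) ≤ (j) := by clear * - b0 y5 z17 z8 ev n1p n4p n5p; omega
      have kk302 : (0) ≤ (j3 + 1) := by clear * - y5 y6; omega
      have kk303 : (de) ≤ (i) := by clear * - y13; omega
      have kk304 : (j) ≤ (h + j3 + ph) := by clear * - b2 b3 b4 y13 y5 y8; omega
      have kk305 : (j) ≤ (Q) := by clear * - y2; omega
      have r306 : (2 * i + 2 * h + j3 + ph - j) % 2 = 0 := by clear * - ev n1p n4p n5p; omega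
      clear * - al a1 u2 AL1 kk300 kk301 kk302 kk303 kk304 kk305 r306
      obtain ⟨t, ht⟩ : ∃ t, 2 * t = (2 * i + 2 * h + j3 + ph - j) := ⟨(2 * i + 2 * h + j3 + ph - j) / 2, by omega⟩
      exact al.ninv t (cE (cI (pb a1 al 0 t (t + (j - i - h)) (by omega)) (qa u2 al 0 (t + (j - i - h)) ((2 * i + h + j3 - j) - t) (by omega))) (qf AL1 al 0 ((2 * i + h + j3 - j) - t) t (by omega)))

theorem rz3_4 {W : ℤ → G} {n Q i j h de j3 ph : ℤ} (al : AL W n Q)
    (hy : (0) ≤ (i) ∧ (i) ≤ (j) ∧ (j + 1) ≤ (Q) ∧ (i) ≤ (j3) ∧ (j3 + 1) ≤ (Q) ∧ (0) ≤ (de) ∧ (de + 1) ≤ (j3) ∧ (Q + j3) ≤ (i + h + de) ∧ (j + 1) ≤ (h) ∧ (0) ≤ (ph) ∧ (ph + 1) ≤ (h) ∧ (3 * h + j3 + 2 * ph) ≤ (n + i) ∧ (3 * j3 + 1) ≤ (i + h + 2 * de) ∧ (de) ≤ (i))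
    (a1 : Par W (0) (j) (i + h - j))
    (a2 : Par W (Q + j - i - h) (j) (i + h - j))
    (s1 : Ant W (0) (i) (i + j))
    (s2 : Ant W (j + 1) (Q) (i + j))
    (u1 : Ant W (0) (i) (i + j3))
    (u2 : Ant W (j3 + 1) (Q) (i + j3))
    (GG : Par W (i + 1) (h + de + ph) (h))
    (AL0 : Par W (i - ph + 1) (de) (ph))
    (AL1 : Par W (i - h - ph + 1) (de) (h + ph))
    (BE : Par W (de + 1) (j3) (i + h - j3))
    (T2 : Ant W (Q) (i + h + de - j3) (i + 2 * h + 2 * de + ph - j3))
    (n1 : Nd W (j) (i) (i + h))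
    (n4 : Nd W (h + de + ph) (i + h + de - j3) (de))
    (n5 : Nd W (j3) (i) (i + h))
    (b0 : (j + j3 + 1) ≤ (h))
    (b1 : (j3 + 1) ≤ (j))
    (b2 : (i + 1) ≤ (ph))
    (b3 : (i + h + 2 * de + ph + 2) ≤ (2 * Q + j3)) : False := by
  have ev := al.ev
  obtain ⟨y0, y1, y2, y3, y4, y5, y6, y7, y8, y9, y10, y11, y12, y13⟩ := id hy
  have n1p := And.intro n1.p1 n1.p2
  have n4p := And.intro n4.p1 n4.p2
  have n5p := And.intro n5.p1 n5.p2
  by_cases z7 : (j + j3 + 2 * ph + 2) ≤ (2 * Q)
  · by_cases v4 : (j + j3 + ph + 1) ≤ (Q)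
    · have kk49 : (j3 + 1) ≤ (j) := by clear * - b1; omega
      have kk50 : (j3 + 2) ≤ (j) := by clear * - b1 ev n1p n4p n5p; omega
      have kk51 : (j3 + 2) ≤ (j + 2 * ph) := by clear * - b1 b2 y13 y5; omega
      have kk52 : (j + j3 + 2) ≤ (2 * Q) := by clear * - y9 z7; omega
      have kk53 : (j3) ≤ (j) := by clear * - b1; omega
      have kk54 : (j + 1) ≤ (h) := by clear * - y8; omega
      have kk55 : (j + j3 + ph + 1) ≤ (Q) := by clear * - v4; omega
      have kk56 : (0) ≤ (ph) := by clear * - y9; omega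
      have kk57 : (i) ≤ (de + ph) := by clear * - b2 y5; omega
      have kk58 : (0) ≤ (j3 + 1) := by clear * - y5 y6; omega
      have kk59 : (j + ph) ≤ (Q) := by clear * - v4 y5 y6; omega
      have r60 : (j + j3 + ph - 2 * n) % 2 = 0 := by clear * - ev n1p n4p n5p; omega
      have r61 : (j - j3) % 2 = 0 := by clear * - ev n1p n4p n5p; omega
      clear * - al a1 s2 u2 AL1 kk49 kk50 kk51 kk52 kk53 kk54 kk55 kk56 kk57 kk58 kk59 r60 r61
      exact midP al (j - j3) (j + j3 + ph - 2 * n) (j3 - n + 1) (j3 - n + 1) (Q - n) (by omega) (fun t h1 h2 => (cE (cI (cE (qf a1 al (-1) t (t + (n + i + h - j)) (by omega)) (pb AL1 al 0 (t + (n + i + h - j)) (t + (n + i - j - ph)) (by omega))) (ab u2 al 0 (t + (n + i - j - ph)) ((j + j3 + ph - n) - t) (by omega))) (sh al (-1) ((j + j3 + ph - n) - t) ((j + j3 + ph - 2 * n) - t) (by omega)))) (fun t h1 h2 => (cE (qf (show Par W (j3 + 1) (Q + j3 - j) (j - j3) from fun t h1 h2 => (cE (sh al (-1) t (t + (-n)) (by omega)) (cII (qa u2 al (-1) (t + (-n))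 ((i + j3) - t) (by omega)) (ab s2 al 0 ((i + j3) - t) (t + (j - j3)) (by omega))))) al (-1) t (t + (n + j - j3)) (by omega)) (sh al (-1) (t + (n + j - j3)) (t + (j - j3)) (by omega))))
    · by_cases v5 : (j + ph) ≤ (Q)
      · have kk62 : (j3 + 1) ≤ (j) := by clear * - b1; omega
        have kk63 : (j3 + 2) ≤ (j) := by clear * - b1 ev n1p n4p n5p; omega
        have kk64 : (j3 + 2) ≤ (j + 2 * ph) := by clear * - b1 b2 y13 y5; omega
        have kk65 : (j + j3 + 2) ≤ (2 * Q) := by clear * - y9 z7; omega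
        have kk66 : (j3) ≤ (j) := by clear * - b1; omega
        have kk67 : (Q) ≤ (j + j3 + ph + 1) := by clear * - v4; omega
        have kk68 : (Q) ≤ (h + j3 + ph) := by clear * - b0 v4 v5; omega
        have kk69 : (0) ≤ (ph) := by clear * - y9; omega
        have kk70 : (i) ≤ (de + ph) := by clear * - b2 y5; omega
        have kk71 : (j + ph) ≤ (Q) := by clear * - v5; omega
        have r72 : (j + j3 + ph - 2 * n) % 2 = 0 := by clear * - ev n1p n4p n5p; omega
        have r73 : (j - j3) % 2 = 0 := by clear * - ev n1p n4p n5p; omega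
        clear * - al a1 s2 u2 AL1 kk62 kk63 kk64 kk65 kk66 kk67 kk68 kk69 kk70 kk71 r72 r73
        exact midP al (j - j3) (j + j3 + ph - 2 * n) (j3 - n + 1) (j3 - n + 1) (Q - n) (by omega) (fun t h1 h2 => (cE (cI (cE (qf a1 al (-1) t (t + (n + i + h - j)) (by omega)) (pb AL1 al 0 (t + (n + i + h - j)) (t + (n + i - j - ph)) (by omega))) (ab u2 al 0 (t + (n + i - j - ph)) ((j + j3 + ph - n) - t) (by omega))) (sh al (-1) ((j + j3 + ph - n) - t) ((j + j3 + ph - 2 * n) - t) (by omega)))) (fun t h1 h2 => (cE (qf (show Par W (j3 + 1) (Q + j3 - j) (j - j3) from fun t h1 h2 => (cE (sh al (-1) t (t + (-n)) (by omega)) (cII (qa u2 al (-1) (t + (-n)) ((i + j3) - t) (by omega)) (ab s2 al 0 ((i + j3) - t) (t + (j - j3)) (by omega))))) al (-1) t (t + (n + j - j3)) (by omega)) (sh al (-1) (t + (n + j - j3)) (t + (j - j3)) (by omega))))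
      · have kk74 : (j3 + 1) ≤ (j) := by clear * - v5 z7; omega
        have kk75 : (j + j3 + 2 * ph + 2) ≤ (2 * Q) := by clear * - z7; omega
        have kk76 : (j + j3 + 2) ≤ (2 * Q) := by clear * - y9 z7; omega
        have kk77 : (3 * j + j3 + 2 * ph + 2) ≤ (4 * Q) := by clear * - y2 z7; omega
        have kk78 : (j3) ≤ (j) := by clear * - v5 z7; omega
        have kk79 : (Q) ≤ (j + j3 + ph + 1) := by clear * - v4; omega
        have kk80 : (Q) ≤ (h + j3 + ph) := by clear * - v4 y8; omega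
        have kk81 : (0) ≤ (ph) := by clear * - y9; omega
        have kk82 : (i) ≤ (de + ph) := by clear * - b2 y5; omega
        have kk83 : (Q) ≤ (j + ph) := by clear * - v5; omega
        have r84 : (j + j3 + ph - 2 * n) % 2 = 0 := by clear * - ev n1p n4p n5p; omega
        have r85 : (j - j3) % 2 = 0 := by clear * - ev n1p n4p n5p; omega
        clear * - al a1 s2 u2 AL1 kk74 kk75 kk76 kk77 kk78 kk79 kk80 kk81 kk82 kk83 r84 r85
        exact midP al (j - j3) (j + j3 + ph - 2 * n) (j + j3 + ph - n - Q + 1) (j3 - n + 1) (Q - n) (by omega) (fun t h1 h2 => (cE (cI (cE (qf a1 al (-1) t (t + (n + i + h - j)) (by omega)) (pb AL1 al 0 (t + (n + i + h - j)) (t + (n + i - j - ph)) (by omega))) (ab u2 al 0 (t + (n + i - j - ph)) ((j + j3 + ph - n) - t) (by omega))) (sh al (-1) ((j + j3 + ph - n) - t) ((j + j3 + ph - 2 * n) - t) (by omega)))) (fun t h1 h2 => (cE (qf (show Par W (j3 + 1) (Q + j3 - j) (j - j3) from fun t h1 h2 => (cE (sh al (-1) t (t + (-n)) (by omega)) (cII (qa u2 al (-1)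 (t + (-n)) ((i + j3) - t) (by omega)) (ab s2 al 0 ((i + j3) - t) (t + (j - j3)) (by omega))))) al (-1) t (t + (n + j - j3)) (by omega)) (sh al (-1) (t + (n + j - j3)) (t + (j - j3)) (by omega))))
  · exact rz3_5 al hy a1 a2 s1 s2 u1 u2 GG AL0 AL1 BE T2 n1 n4 n5 (by clear * - b0; omega) (by clear * - b1; omega) (by clear * - b2; omega) (by clear * - b3; omega) (by clear * - z7; omega)

theorem rz3_3 {W : ℤ → G} {n Q i j h de j3 ph : ℤ} (al : AL W n Q)
    (hy : (0) ≤ (i) ∧ (i) ≤ (j) ∧ (j + 1) ≤ (Q) ∧ (i) ≤ (j3) ∧ (j3 + 1) ≤ (Q) ∧ (0) ≤ (de) ∧ (de + 1) ≤ (j3) ∧ (Q + j3) ≤ (i + h + de) ∧ (j + 1) ≤ (h) ∧ (0) ≤ (ph) ∧ (ph + 1) ≤ (h) ∧ (3 * h + j3 + 2 * ph) ≤ (n + i) ∧ (3 * j3 + 1) ≤ (i + h + 2 * de) ∧ (de) ≤ (i))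
    (a1 : Par W (0) (j) (i + h - j))
    (a2 : Par W (Q + j - i - h) (j) (i + h - j))
    (s1 : Ant W (0) (i) (i + j))
    (s2 : Ant W (j + 1) (Q) (i + j))
    (u1 : Ant W (0) (i) (i + j3))
    (u2 : Ant W (j3 + 1) (Q) (i + j3))
    (GG : Par W (i + 1) (h + de + ph) (h))
    (AL0 : Par W (i - ph + 1) (de) (ph))
    (AL1 : Par W (i - h - ph + 1) (de) (h + ph))
    (BE : Par W (de + 1) (j3) (i + h - j3))
    (T2 : Ant W (Q) (i + h + de - j3) (i + 2 * h + 2 * de + ph - j3))
    (n1 : Nd W (j) (i) (i + h))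
    (n4 : Nd W (h + de + ph) (i + h + de - j3) (de))
    (n5 : Nd W (j3) (i) (i + h))
    (b0 : (j + j3 + 1) ≤ (h))
    (b1 : (j3 + 1) ≤ (j))
    (b2 : (i + 1) ≤ (ph)) : False := by
  have ev := al.ev
  obtain ⟨y0, y1, y2, y3, y4, y5, y6, y7, y8, y9, y10, y11, y12, y13⟩ := id hy
  have n1p := And.intro n1.p1 n1.p2
  have n4p := And.intro n4.p1 n4.p2
  have n5p := And.intro n5.p1 n5.p2
  by_cases z5 : (2 * Q + j3) ≤ (i + h + 2 * de + ph + 1)
  · by_cases z6 : (j3 + ph + 1) ≤ (i + h)
    · have kk39 : (j3 + ph + 2) ≤ (i + h) := by clear * - z6 ev n1p n4p n5p; omega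
      have kk40 : (2 * Q + j3) ≤ (i + h + 2 * de + ph + 1) := by clear * - z5; omega
      have kk41 : (i) ≤ (de + ph) := by clear * - b2 y5; omega
      have kk42 : (i + de + 1) ≤ (Q + j3) := by clear * - y13 y3 y4; omega
      have r43 : (2 * n + i + h + 2 * de + ph - j3) % 2 = 0 := by clear * - ev n1p n4p n5p; omega
      clear * - al GG T2 kk39 kk40 kk41 kk42 r43
      obtain ⟨t, ht⟩ : ∃ t, 2 * t = (2 * n + i + h + 2 * de + ph - j3) := ⟨(2 * n + i + h + 2 * de + ph - j3) / 2, by omega⟩
      exact al.ninv t (cE (cI (qf GG al 1 t (t + (h - n)) (by omega)) (ab T2 al 0 (t + (h - n)) ((n + i + h + 2 * de + ph - j3) - t) (by omega))) (sh al 1 ((n + i + h + 2 * de + ph - j3) - t) t (by omega)))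
    · have kk44 : (i + h + 1) ≤ (j + ph) := by clear * - b1 z6; omega
      have kk45 : (j + ph + 1) ≤ (n + i + h) := by clear * - b0 b2 y10 y11 y13 y5 z6; linarith
      have kk46 : (0) ≤ (de) := by clear * - y5; omega
      have kk47 : (j + 1) ≤ (h) := by clear * - y8; omega
      have kk48 : (de + ph) ≤ (i + h) := by clear * - y10 y13; omega
      clear * - al a1 AL0 kk44 kk45 kk46 kk47 kk48
      exact al.ubP (j + ph - i - h) (by omega) (by omega) fun t h1 h2 => (cE (qf AL0 al 0 t (t + (ph)) (by omega)) (pb a1 al 0 (t + (ph)) (t + (j + ph - i - h)) (by omega)))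
  · exact rz3_4 al hy a1 a2 s1 s2 u1 u2 GG AL0 AL1 BE T2 n1 n4 n5 (by clear * - b0; omega) (by clear * - b1; omega) (by clear * - b2; omega) (by clear * - z5; omega)

theorem rz3_2 {W : ℤ → G} {n Q i j h de j3 ph : ℤ} (al : AL W n Q)
    (hy : (0) ≤ (i) ∧ (i) ≤ (j) ∧ (j + 1) ≤ (Q) ∧ (i) ≤ (j3) ∧ (j3 + 1) ≤ (Q) ∧ (0) ≤ (de) ∧ (de + 1) ≤ (j3) ∧ (Q + j3) ≤ (i + h + de) ∧ (j + 1) ≤ (h) ∧ (0) ≤ (ph) ∧ (ph + 1) ≤ (h) ∧ (3 * h + j3 + 2 * ph) ≤ (n + i) ∧ (3 * j3 + 1) ≤ (i + h + 2 * de) ∧ (de) ≤ (i))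
    (a1 : Par W (0) (j) (i + h - j))
    (a2 : Par W (Q + j - i - h) (j) (i + h - j))
    (s1 : Ant W (0) (i) (i + j))
    (s2 : Ant W (j + 1) (Q) (i + j))
    (u1 : Ant W (0) (i) (i + j3))
    (u2 : Ant W (j3 + 1) (Q) (i + j3))
    (GG : Par W (i + 1) (h + de + ph) (h))
    (AL0 : Par W (i - ph + 1) (de) (ph))
    (AL1 : Par W (i - h - ph + 1) (de) (h + ph))
    (BE : Par W (de + 1) (j3) (i + h - j3))
    (T2 : Ant W (Q) (i + h + de - j3) (i + 2 * h + 2 * de + ph - j3))
    (n1 : Nd W (j) (i) (i + h))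
    (n4 : Nd W (h + de + ph) (i + h + de - j3) (de))
    (n5 : Nd W (j3) (i) (i + h))
    (b0 : (j + j3 + 1) ≤ (h))
    (b1 : (j3 + 1) ≤ (j)) : False := by
  have ev := al.ev
  obtain ⟨y0, y1, y2, y3, y4, y5, y6, y7, y8, y9, y10, y11, y12, y13⟩ := id hy
  have n1p := And.intro n1.p1 n1.p2
  have n4p := And.intro n4.p1 n4.p2
  have n5p := And.intro n5.p1 n5.p2
  by_cases z4 : (ph) ≤ (i)
  · by_cases v3 : (i) ≤ (de + ph)
    · have kk29 : (i + 1) ≤ (j + ph) := by clear * - b1 v3 y6; omega
      have kk30 : (j + ph + 1) ≤ (n + i) := by clear * - b0 b1 v3 y11 y13 y6 z4; linarith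
      have kk31 : (ph) ≤ (i) := by clear * - z4; omega
      have kk32 : (j + 1) ≤ (h) := by clear * - y8; omega
      have kk33 : (i) ≤ (de + ph) := by clear * - v3; omega
      clear * - al a1 AL1 kk29 kk30 kk31 kk32 kk33
      exact al.ubP (j + ph - i) (by omega) (by omega) fun t h1 h2 => (cE (qf AL1 al 0 t (t + (h + ph)) (by omega)) (pb a1 al 0 (t + (h + ph)) (t + (j + ph - i)) (by omega)))
    · have kk34 : (i + 1) ≤ (j + ph) := by clear * - b1 y3 y9; omega
      have kk35 : (j + ph + 1) ≤ (n + i) := by clear * - b0 b1 y11 y5 y6 y9; omega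
      have kk36 : (0) ≤ (de) := by clear * - y5; omega
      have kk37 : (j + 1) ≤ (h) := by clear * - y8; omega
      have kk38 : (de + ph) ≤ (i) := by clear * - v3; omega
      clear * - al a1 AL1 kk34 kk35 kk36 kk37 kk38
      exact al.ubP (j + ph - i) (by omega) (by omega) fun t h1 h2 => (cE (qf AL1 al 0 t (t + (h + ph)) (by omega)) (pb a1 al 0 (t + (h + ph)) (t + (j + ph - i)) (by omega)))
  · exact rz3_3 al hy a1 a2 s1 s2 u1 u2 GG AL0 AL1 BE T2 n1 n4 n5 (by clear * - b0; omega) (by clear * - b1; omega) (by clear * - z4; omega)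

theorem rz3_1 {W : ℤ → G} {n Q i j h de j3 ph : ℤ} (al : AL W n Q)
    (hy : (0) ≤ (i) ∧ (i) ≤ (j) ∧ (j + 1) ≤ (Q) ∧ (i) ≤ (j3) ∧ (j3 + 1) ≤ (Q) ∧ (0) ≤ (de) ∧ (de + 1) ≤ (j3) ∧ (Q + j3) ≤ (i + h + de) ∧ (j + 1) ≤ (h) ∧ (0) ≤ (ph) ∧ (ph + 1) ≤ (h) ∧ (3 * h + j3 + 2 * ph) ≤ (n + i) ∧ (3 * j3 + 1) ≤ (i + h + 2 * de) ∧ (de) ≤ (i))
    (a1 : Par W (0) (j) (i + h - j))
    (a2 : Par W (Q + j - i - h) (j) (i + h - j))
    (s1 : Ant W (0) (i) (i + j))
    (s2 : Ant W (j + 1) (Q) (i + j))
    (u1 : Ant W (0) (i) (i + j3))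
    (u2 : Ant W (j3 + 1) (Q) (i + j3))
    (GG : Par W (i + 1) (h + de + ph) (h))
    (AL0 : Par W (i - ph + 1) (de) (ph))
    (AL1 : Par W (i - h - ph + 1) (de) (h + ph))
    (BE : Par W (de + 1) (j3) (i + h - j3))
    (T2 : Ant W (Q) (i + h + de - j3) (i + 2 * h + 2 * de + ph - j3))
    (n1 : Nd W (j) (i) (i + h))
    (n4 : Nd W (h + de + ph) (i + h + de - j3) (de))
    (n5 : Nd W (j3) (i) (i + h))
    (b0 : (j + j3 + 1) ≤ (h)) : False := by
  have ev := al.ev
  obtain ⟨y0, y1, y2, y3, y4, y5, y6, y7, y8, y9, y10, y11, y12, y13⟩ := id hy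
  have n1p := And.intro n1.p1 n1.p2
  have n4p := And.intro n4.p1 n4.p2
  have n5p := And.intro n5.p1 n5.p2
  by_cases z2 : (j) ≤ (j3)
  · by_cases z3 : (j3) ≤ (j)
    · have kk16 : (j3) ≤ (j + de) := by clear * - y5 z3; omega
      have kk17 : (de + 1) ≤ (j3) := by clear * - y6; omega
      have kk18 : (j3) ≤ (j) := by clear * - z3; omega
      have kk19 : (j) ≤ (j3) := by clear * - z2; omega
      clear * - al a1 n4 kk16 kk17 kk18 kk19
      exact n4.f1 (pb a1 al 0 (i + h + de - j3) (de) (by omega))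
    · have kk20 : (j + 1) ≤ (j3) := by clear * - z3; omega
      have kk21 : (j + 2) ≤ (j3) := by clear * - z3 ev n1p n4p n5p; omega
      have kk22 : (j + 2 * de + 2) ≤ (3 * j3) := by clear * - y6 z3; omega
      have kk23 : (2 * i + j + 2) ≤ (3 * j3) := by clear * - y1 z3; omega
      have kk24 : (Q + j3) ≤ (i + h + de + 1) := by clear * - y7; omega
      have kk25 : (de) ≤ (i) := by clear * - y13; omega
      have kk26 : (j3) ≤ (Q) := by clear * - y4; omega
      have r27 : (i + j - 2 * n) % 2 = 0 := by clear * - ev n1p n4p n5p; omega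
      have r28 : (j3 - j) % 2 = 0 := by clear * - ev n1p n4p n5p; omega
      clear * - al a2 s2 BE kk20 kk21 kk22 kk23 kk24 kk25 kk26 r27 r28
      exact midP al (j3 - j) (i + j - 2 * n) (i + j - n - j3 + 1) (j + de - n - j3 + 1) (j3 - n) (by omega) (fun t h1 h2 => (cE (ab s2 al (-1) t ((i + j - n) - t) (by omega)) (sh al (-1) ((i + j - n) - t) ((i + j - 2 * n) - t) (by omega)))) (fun t h1 h2 => (cE (cE (qf a2 al (-1) t (t + (n + i + h - j)) (by omega)) (pb BE al 0 (t + (n + i + h - j)) (t + (n + j3 - j)) (by omega))) (sh al (-1) (t + (n + j3 - j)) (t + (j3 - j)) (by omega))))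
  · exact rz3_2 al hy a1 a2 s1 s2 u1 u2 GG AL0 AL1 BE T2 n1 n4 n5 (by clear * - b0; omega) (by clear * - z2; omega)

theorem rz3 {W : ℤ → G} {n Q i j h de j3 ph : ℤ} (al : AL W n Q)
    (hy : (0) ≤ (i) ∧ (i) ≤ (j) ∧ (j + 1) ≤ (Q) ∧ (i) ≤ (j3) ∧ (j3 + 1) ≤ (Q) ∧ (0) ≤ (de) ∧ (de + 1) ≤ (j3) ∧ (Q + j3) ≤ (i + h + de) ∧ (j + 1) ≤ (h) ∧ (0) ≤ (ph) ∧ (ph + 1) ≤ (h) ∧ (3 * h + j3 + 2 * ph) ≤ (n + i) ∧ (3 * j3 + 1) ≤ (i + h + 2 * de) ∧ (de) ≤ (i))
    (a1 : Par W (0) (j) (i + h - j))
    (a2 : Par W (Q + j - i - h) (j) (i + h - j))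
    (s1 : Ant W (0) (i) (i + j))
    (s2 : Ant W (j + 1) (Q) (i + j))
    (u1 : Ant W (0) (i) (i + j3))
    (u2 : Ant W (j3 + 1) (Q) (i + j3))
    (GG : Par W (i + 1) (h + de + ph) (h))
    (AL0 : Par W (i - ph + 1) (de) (ph))
    (AL1 : Par W (i - h - ph + 1) (de) (h + ph))
    (BE : Par W (de + 1) (j3) (i + h - j3))
    (T2 : Ant W (Q) (i + h + de - j3) (i + 2 * h + 2 * de + ph - j3))
    (n1 : Nd W (j) (i) (i + h))
    (n4 : Nd W (h + de + ph) (i + h + de - j3) (de))
    (n5 : Nd W (j3) (i) (i + h)) : False := by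
  have ev := al.ev
  obtain ⟨y0, y1, y2, y3, y4, y5, y6, y7, y8, y9, y10, y11, y12, y13⟩ := id hy
  have n1p := And.intro n1.p1 n1.p2
  have n4p := And.intro n4.p1 n4.p2
  have n5p := And.intro n5.p1 n5.p2
  by_cases z1 : (h) ≤ (j + j3)
  · by_cases v1 : (j + j3 + 1) ≤ (i + h)
    · have kk1 : (h) ≤ (j + j3) := by clear * - z1; omega
      have kk2 : (h) ≤ (j + j3 + 1) := by clear * - z1; omega
      have kk3 : (j + j3 + 1) ≤ (i + h) := by clear * - v1; omega
      have kk4 : (j3 + 1) ≤ (h) := by clear * - v1 y1; omega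
      have r5 : (j + j3 - 2 * n - h) % 2 = 0 := by clear * - ev n1p n4p n5p; omega
      clear * - al a1 u1 kk1 kk2 kk3 kk4 r5
      obtain ⟨t, ht⟩ : ∃ t, 2 * t = (j + j3 - 2 * n - h) := ⟨(j + j3 - 2 * n - h) / 2, by omega⟩
      exact al.ninv t (cE (cI (qf a1 al (-1) t (t + (n + i + h - j)) (by omega)) (ab u1 al 0 (t + (n + i + h - j)) ((j + j3 - n - h) - t) (by omega))) (sh al (-1) ((j + j3 - n - h) - t) t (by omega)))
    · by_cases v2 : (j3 + 1) ≤ (h)
      · have kk6 : (j + j3 + 2) ≤ (2 * i + h) := by clear * - y13 y2 y7 ev n1p n4p n5p; omega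
        have kk7 : (h) ≤ (j + j3 + 1) := by clear * - z1; omega
        have kk8 : (i + h) ≤ (j + j3 + 1) := by clear * - v1; omega
        have kk9 : (j3 + 1) ≤ (h) := by clear * - v2; omega
        have r10 : (j + j3 - 2 * n - h) % 2 = 0 := by clear * - ev n1p n4p n5p; omega
        clear * - al a1 u1 kk6 kk7 kk8 kk9 r10
        obtain ⟨t, ht⟩ : ∃ t, 2 * t = (j + j3 - 2 * n - h) := ⟨(j + j3 - 2 * n - h) / 2, by omega⟩
        exact al.ninv t (cE (cI (qf a1 al (-1) t (t + (n + i + h - j)) (by omega)) (ab u1 al 0 (t + (n + i + h - j)) ((j + j3 - n - h) - t) (by omega))) (sh al (-1) ((j + j3 - n - h) - t) t (by omega)))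
      · have kk11 : (j + j3 + 2) ≤ (2 * i + h) := by clear * - v1 v2 y12 y13 y8; omega
        have kk12 : (j3 + 1) ≤ (j + h) := by clear * - y1 y10 y12 y13 y9; omega
        have kk13 : (i + h) ≤ (j + j3 + 1) := by clear * - v1; omega
        have kk14 : (h) ≤ (j3 + 1) := by clear * - v2; omega
        have r15 : (j + j3 - 2 * n - h) % 2 = 0 := by clear * - ev n1p n4p n5p; omega
        clear * - al a1 u1 kk11 kk12 kk13 kk14 r15
        obtain ⟨t, ht⟩ : ∃ t, 2 * t = (j + j3 - 2 * n - h) := ⟨(j + j3 - 2 * n - h) / 2, by omega⟩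
        exact al.ninv t (cE (cI (qf a1 al (-1) t (t + (n + i + h - j)) (by omega)) (ab u1 al 0 (t + (n + i + h - j)) ((j + j3 - n - h) - t) (by omega))) (sh al (-1) ((j + j3 - n - h) - t) t (by omega)))
  · exact rz3_1 al hy a1 a2 s1 s2 u1 u2 GG AL0 AL1 BE T2 n1 n4 n5 (by clear * - z1; omega)

theorem rz4 {W : ℤ → G} {n Q i j h de j3 ph : ℤ} (al : AL W n Q)
    (hy : (0) ≤ (i) ∧ (i) ≤ (j) ∧ (j + 1) ≤ (Q) ∧ (i) ≤ (j3) ∧ (j3 + 1) ≤ (Q) ∧ (0) ≤ (de) ∧ (de + 1) ≤ (j3) ∧ (Q + j3) ≤ (i + h + de) ∧ (j + 1) ≤ (h) ∧ (0) ≤ (ph) ∧ (ph + 1) ≤ (h) ∧ (3 * h + j3 + 2 * ph) ≤ (n + i) ∧ (3 * j3 + 1) ≤ (i + h + 2 * de) ∧ (i + 1) ≤ (de) ∧ (j) ≤ (j3) ∧ (j3) ≤ (j))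
    (a1 : Par W (0) (j) (i + h - j))
    (a2 : Par W (Q + j - i - h) (j) (i + h - j))
    (s1 : Ant W (0) (i) (i + j))
    (s2 : Ant W (j + 1) (Q) (i + j))
    (u1 : Ant W (0) (i) (i + j3))
    (u2 : Ant W (j3 + 1) (Q) (i + j3))
    (GG : Par W (i + 1) (h + de + ph) (h))
    (AL0 : Par W (i - ph + 1) (de) (ph))
    (AL1 : Par W (i - h - ph + 1) (de) (h + ph))
    (BE : Par W (de + 1) (j3) (i + h - j3))
    (T2 : Ant W (Q) (i + h + de - j3) (i + 2 * h + 2 * de + ph - j3))
    (n1 : Nd W (j) (i) (i + h))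
    (n4 : Nd W (h + de + ph) (i + h + de - j3) (de))
    (n5 : Nd W (j3) (i) (i + h)) : False := by
  have ev := al.ev
  obtain ⟨y0, y1, y2, y3, y4, y5, y6, y7, y8, y9, y10, y11, y12, y13, y14, y15⟩ := id hy
  have n1p := And.intro n1.p1 n1.p2
  have n4p := And.intro n4.p1 n4.p2
  have n5p := And.intro n5.p1 n5.p2
  have kk1 : (j3) ≤ (j + de) := by clear * - y15 y5; omega
  have kk2 : (de + 1) ≤ (j3) := by clear * - y6; omega
  have kk3 : (j3) ≤ (j) := by clear * - y15; omega
  have kk4 : (j) ≤ (j3) := by clear * - y14; omega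
  clear * - al a1 n4 kk1 kk2 kk3 kk4
  exact n4.f1 (pb a1 al 0 (i + h + de - j3) (de) (by omega))

end Pool.Agent.MP_a38735_al.WL
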