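import Pool.Agent.MP_a38735_al.WT

set_option autoImplicit false
set_option linter.unusedVariables false

namespace Pool.Agent.MP_a38735_al.WL

variable {G : Type*} [Group G]

theorem rg1_5 {W : ℤ → G} {n Q i j h de j3 ph g : ℤ} (al : AL W n Q)
    (hy : (0) ≤ (i) ∧ (i) ≤ (j) ∧ (j + 1) ≤ (Q) ∧ (i) ≤ (j3) ∧ (j3 + 1) ≤ (Q) ∧ (0) ≤ (de) ∧ (de + 1) ≤ (j3) ∧ (Q + j3) ≤ (i + h + de) ∧ (j + 1) ≤ (h) ∧ (0) ≤ (ph) ∧ (ph + 1) ≤ (g) ∧ (2 * g) ≤ (h) ∧ (h + j3 + 2 * ph + 2 * g) ≤ (n + i) ∧ (3 * j3 + 1) ≤ (i + h + 2 * de))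
    (a1 : Par W (0) (j) (i + h - j))
    (a2 : Par W (Q + j - i - g) (j) (i + g - j))
    (s1 : Ant W (0) (i) (i + j))
    (s2 : Ant W (j + 1) (Q) (i + j))
    (u1 : Ant W (0) (i) (i + j3))
    (u2 : Ant W (j3 + 1) (Q) (i + j3))
    (GG : Par W (i + 1) (h + de + ph) (g))
    (HH : Par W (i + 1) (de + ph + g) (h))
    (AL0 : Par W (i - ph + 1) (de) (ph))
    (AL1 : Par W (i - ph - g + 1) (de) (h + ph))
    (BE : Par W (de + 1) (j3) (i + h - j3))
    (T2 : Ant W (Q) (i + h + de - j3) (i + 2 * h + 2 * de + ph - j3))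
    (n1 : Nd W (j) (i) (i + h))
    (n4 : Nd W (h + de + ph) (i + h + de - j3) (de))
    (n5 : Nd W (j3) (i) (i + h))
    (n6 : Nd W (j) (i) (i + g))
    (b0 : (Q) ≤ (i + g))
    (b1 : (2 * i + 2 * h + 2 * de + 1) ≤ (2 * Q + 2 * j3 + g))
    (b2 : (i + 1) ≤ (j + ph))
    (b3 : (i + j + g + 1) ≤ (h))
    (b4 : (j3 + ph + 1) ≤ (i + g)) : False := by
  have ev := al.ev
  obtain ⟨y0, y1, y2, y3, y4, y5, y6, y7, y8, y9, y10, y11, y12, y13⟩ := id hy
  have n1p := And.intro n1.p1 n1.p2
  have n4p := And.intro n4.p1 n4.p2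
  have n5p := And.intro n5.p1 n5.p2
  have n6p := And.intro n6.p1 n6.p2
  by_cases z7 : (2 * j + g + 2) ≤ (2 * i + h + ph)
  · by_cases z8 : (2 * Q + j3 + g) ≤ (i + 2 * h + 2 * de + ph)
    · have kk63 : (2 * Q + j3 + g) ≤ (i + 2 * h + 2 * de + ph) := by clear * - z8; omega
      have kk64 : (j3 + ph + 1) ≤ (i + g) := by clear * - b4; omega
      have kk65 : (i + 1) ≤ (Q) := by clear * - b1 y10 y11 y13 z8; omega
      have kk66 : (i) ≤ (j3 + ph) := by clear * - b1 z8; omega
      have r67 : (2 * n + i + 2 * h + 2 * de + ph + g - j3) % 2 = 0 := by clear * - ev n1p n4p n5p n6p; omega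
      clear * - al GG T2 kk63 kk64 kk65 kk66 r67
      obtain ⟨t, ht⟩ : ∃ t, 2 * t = (2 * n + i + 2 * h + 2 * de + ph + g - j3) := ⟨(2 * n + i + 2 * h + 2 * de + ph + g - j3) / 2, by omega⟩
      exact al.ninv t (cE (cI (pb GG al 1 t (t + (-n - g)) (by omega)) (qa T2 al 0 (t + (-n - g)) ((n + i + 2 * h + 2 * de + ph + g - j3) - t) (by omega))) (sh al 1 ((n + i + 2 * h + 2 * de + ph + g - j3) - t) t (by omega)))
    · have kk68 : (i + 1) ≤ (j + ph) := by clear * - b2; omega
      have kk69 : (j + ph + 1) ≤ (n + i) := by clear * - b0 b2 b3 b4 y11 y12 y5 z7 z8; linarith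
      have kk70 : (0) ≤ (de) := by clear * - y5; omega
      have kk71 : (j + 1) ≤ (g) := by clear * - b0 b2 b3 y13 y5 z7 z8; linarith
      have kk72 : (de + ph) ≤ (i) := by clear * - b0 b4 y11 z8; omega
      clear * - al a1 AL1 kk68 kk69 kk70 kk71 kk72
      exact al.ubP (j + ph - i) (by omega) (by omega) fun t h1 h2 => (cE (sh al (-1) t (t + (-n)) (by omega)) (cE (qf AL1 al (-1) (t + (-n)) (t + (h + ph)) (by omega)) (pb a1 al 0 (t + (h + ph)) (t + (j + ph - i)) (by omega))))
  · have kk73 : (j3 + ph + 2) ≤ (i + g) := by clear * - b4 ev n1p n4p n5p n6p; omega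
    have kk74 : (2 * Q + j3 + g) ≤ (i + 2 * h + 2 * de + ph + 1) := by clear * - b0 b3 y11 y13 y5 y9 z7; linarith
    have kk75 : (i + g) ≤ (h + de + ph) := by clear * - b0 b1 b3 b4 y11 y5 y9 z7; linarith
    have kk76 : (i + h + de + 1) ≤ (Q + j3 + g) := by clear * - b1 y10 y9; omega
    have r77 : (i + 2 * h + 2 * de + ph - 2 * n - j3 - g) % 2 = 0 := by clear * - ev n1p n4p n5p n6p; omega
    clear * - al GG T2 kk73 kk74 kk75 kk76 r77
    obtain ⟨t, ht⟩ : ∃ t, 2 * t = (i + 2 * h + 2 * de + ph - 2 * n - j3 - g) := ⟨(i + 2 * h + 2 * de + ph - 2 * n - j3 - g) / 2, by omega⟩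
    exact al.ninv t (cE (cI (qf GG al (-1) t (t + (n + g)) (by omega)) (ab T2 al 0 (t + (n + g)) ((i + 2 * h + 2 * de + ph - n - j3 - g) - t) (by omega))) (sh al (-1) ((i + 2 * h + 2 * de + ph - n - j3 - g) - t) t (by omega)))

theorem rg1_6 {W : ℤ → G} {n Q i j h de j3 ph g : ℤ} (al : AL W n Q)
    (hy : (0) ≤ (i) ∧ (i) ≤ (j) ∧ (j + 1) ≤ (Q) ∧ (i) ≤ (j3) ∧ (j3 + 1) ≤ (Q) ∧ (0) ≤ (de) ∧ (de + 1) ≤ (j3) ∧ (Q + j3) ≤ (i + h + de) ∧ (j + 1) ≤ (h) ∧ (0) ≤ (ph) ∧ (ph + 1) ≤ (g) ∧ (2 * g) ≤ (h) ∧ (h + j3 + 2 * ph + 2 * g) ≤ (n + i) ∧ (3 * j3 + 1) ≤ (i + h + 2 * de))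
    (a1 : Par W (0) (j) (i + h - j))
    (a2 : Par W (Q + j - i - g) (j) (i + g - j))
    (s1 : Ant W (0) (i) (i + j))
    (s2 : Ant W (j + 1) (Q) (i + j))
    (u1 : Ant W (0) (i) (i + j3))
    (u2 : Ant W (j3 + 1) (Q) (i + j3))
    (GG : Par W (i + 1) (h + de + ph) (g))
    (HH : Par W (i + 1) (de + ph + g) (h))
    (AL0 : Par W (i - ph + 1) (de) (ph))
    (AL1 : Par W (i - ph - g + 1) (de) (h + ph))
    (BE : Par W (de + 1) (j3) (i + h - j3))
    (T2 : Ant W (Q) (i + h + de - j3) (i + 2 * h + 2 * de + ph - j3))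
    (n1 : Nd W (j) (i) (i + h))
    (n4 : Nd W (h + de + ph) (i + h + de - j3) (de))
    (n5 : Nd W (j3) (i) (i + h))
    (n6 : Nd W (j) (i) (i + g))
    (b0 : (Q) ≤ (i + g))
    (b1 : (2 * i + 2 * h + 2 * de + 1) ≤ (2 * Q + 2 * j3 + g))
    (b2 : (i + j + g + 1) ≤ (h))
    (b3 : (i + g) ≤ (j3 + ph)) : False := by
  have ev := al.ev
  obtain ⟨y0, y1, y2, y3, y4, y5, y6, y7, y8, y9, y10, y11, y12, y13⟩ := id hy
  have n1p := And.intro n1.p1 n1.p2
  have n4p := And.intro n4.p1 n4.p2
  have n5p := And.intro n5.p1 n5.p2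
  have n6p := And.intro n6.p1 n6.p2
  by_cases z9 : (2 * i + 2 * j + g + 2) ≤ (2 * Q + 2 * de)
  · by_cases z10 : (j + j3 + g) ≤ (h + 2 * de)
    · by_cases v5 : (i) ≤ (de)
      · have kk78 : (1) ≤ (g) := by clear * - b0 b1 v5 y11 y13; omega
        have kk79 : (j + j3 + 2) ≤ (2 * i + h) := by clear * - b0 b1 y11 y13 z10; omega
        have kk80 : (j + j3 + 2) ≤ (3 * h + 2 * de + 2 * ph) := by clear * - b0 b1 b3 v5 y11 y13 z10; linarith
        have kk81 : (j + 2) ≤ (h + j3 + 2 * ph + 2 * g) := by clear * - b0 b1 b3 v5 y11 y13 z10; linarith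
        have kk82 : (j + j3 + g) ≤ (h + 2 * de) := by clear * - z10; omega
        have kk83 : (2 * i + j + j3 + g + 2) ≤ (2 * Q + h + 2 * de) := by clear * - b0 b1 v5 y11 y13 z10; omega
        have kk84 : (2 * i + j + h + 2) ≤ (2 * Q + j3 + g) := by clear * - b0 b1 v5 y11 y13 z10; omega
        have kk85 : (Q) ≤ (j + ph + g) := by clear * - b0 b1 b3 y1 y11 y13; omega
        have kk86 : (i) ≤ (de) := by clear * - v5; omega
        have kk87 : (Q) ≤ (j + h + ph) := by clear * - b0 b1 b3 v5 y1 y11 y13; linarith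
        have kk88 : (Q) ≤ (h + de + ph + g) := by clear * - b0 b1 b3 v5 y11 y13; omega
        have kk89 : (j) ≤ (de + g) := by clear * - b0 b1 v5 y11 y13 z10; omega
        have kk90 : (i) ≤ (j) := by clear * - y1; omega
        have r91 : (i + j + h + ph) % 2 = 0 := by clear * - ev n1p n4p n5p n6p; omega
        have r92 : (g) % 2 = 0 := by clear * - ev n1p n4p n5p n6p; omega
        have r93 : (i + 2 * h + 2 * de + ph - j3) % 2 = 0 := by clear * - ev n1p n4p n5p n6p; omega
        clear * - al s2 GG AL1 T2 kk78 kk79 kk80 kk81 kk82 kk83 kk84 kk85 kk86 kk87 kk88 kk89 kk90 r91 r92 r93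
        exact mid2 al (g) (i + j + h + ph) (i + 2 * h + 2 * de + ph - j3) (i + j + h + ph - Q + 1) (i + h + ph) 0 (i + 1) (h + de + ph + g) (by omega) (fun t h1 h2 => ⟨by omega, (cI (pb AL1 al 0 t (t + (-h - ph)) (by omega)) (ab s2 al 0 (t + (-h - ph)) ((i + j + h + ph) - t) (by omega)))⟩) (fun t h1 h2 => ⟨by omega, (ab T2 al 0 t ((i + 2 * h + 2 * de + ph - j3) - t) (by omega))⟩) (fun t h1 h2 => (qf GG al 0 t (t + (g)) (by omega)))
      · have kk94 : (1) ≤ (g) := by clear * - b0 b1 b3 v5 y10 y13; omega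
        have kk95 : (j + j3 + 2) ≤ (h + 2 * de) := by clear * - b0 b3 v5 y10 y13 z10 z9; linarith
        have kk96 : (2 * i + j + j3 + 2) ≤ (3 * h + 4 * de + 2 * ph) := by clear * - b0 b1 b3 v5 y10 y13 z10; linarith
        have kk97 : (2 * i + j + 2) ≤ (h + 2 * de + j3 + 2 * ph + 2 * g) := by clear * - b0 b1 b3 v5 y10 y13 z10; linarith
        have kk98 : (j + j3 + g) ≤ (h + 2 * de) := by clear * - z10; omega
        have kk99 : (2 * i + j + j3 + g + 2) ≤ (2 * Q + h + 2 * de) := by clear * - b1 b3 v5 y10 y11 y13 z10; linarith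
        have kk100 : (2 * i + j + h + 2) ≤ (2 * Q + j3 + g) := by clear * - b0 b1 b3 v5 y10 y13 z10; linarith
        have kk101 : (Q) ≤ (j + ph + g) := by clear * - b0 b1 b3 v5 y1 y13 z10; linarith
        have kk102 : (de) ≤ (i) := by clear * - v5; omega
        have kk103 : (Q) ≤ (j + h + ph) := by clear * - b0 b3 v5 y1 z10 z9; omega
        have kk104 : (Q) ≤ (h + de + ph + g) := by clear * - b0 b1 b3 v5 y10 y13; omega
        have kk105 : (0) ≤ (g) := by clear * - b0 b1 b3 v5 y10 y13; omega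
        have kk106 : (de) ≤ (j) := by clear * - v5 y1; omega
        have r107 : (i + j + h + ph) % 2 = 0 := by clear * - ev n1p n4p n5p n6p; omega
        have r108 : (g) % 2 = 0 := by clear * - ev n1p n4p n5p n6p; omega
        have r109 : (i + 2 * h + 2 * de + ph - j3) % 2 = 0 := by clear * - ev n1p n4p n5p n6p; omega
        clear * - al s2 GG AL1 T2 kk94 kk95 kk96 kk97 kk98 kk99 kk100 kk101 kk102 kk103 kk104 kk105 kk106 r107 r108 r109
        exact mid2 al (g) (i + j + h + ph) (i + 2 * h + 2 * de + ph - j3) (i + j + h + ph - Q + 1) (h + de + ph) 0 (i + 1) (h + de + ph + g) (by omega) (fun t h1 h2 => ⟨by omega, (cI (pb AL1 al 0 t (t + (-h - ph)) (by omega)) (ab s2 al 0 (t + (-h - ph)) ((i + j + h + ph) - t) (by omega)))⟩) (fun t h1 h2 => ⟨by omega, (ab T2 al 0 t ((i + 2 * h + 2 * de + ph - j3) - t) (by omega))⟩) (fun t h1 h2 => (qf GG al 0 t (t + (g)) (by omega)))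
    · by_cases z11 : (h) ≤ (i + j3 + g)
      · have kk110 : (j + g + 1) ≤ (i + h) := by clear * - b2 y11 y13 z10 z11; omega
        have kk111 : (j3) ≤ (2 * i + j) := by clear * - y11 y13 z10 z11; omega
        have kk112 : (0) ≤ (2 * i + j + j3 + 2) := by clear * - b2 b3 y10 y11 y13 z10 z11; linarith
        have kk113 : (j3 + 2 * g) ≤ (2 * i + j + 2 * h) := by clear * - b2 b3 y10 y11 y13 z10 z11; linarith
        have kk114 : (h) ≤ (i + j3 + g) := by clear * - z11; omega
        have kk115 : (j3 + g + 2) ≤ (i + h) := by clear * - b2 y11 y13 z10 z11; omega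
        have kk116 : (j + g + 1) ≤ (h) := by clear * - b2 y11 y13 z10 z11; omega
        have kk117 : (i) ≤ (de + ph + g) := by clear * - b0 b2 b3 y10 y13 z10 z11 z9; linarith
        have kk118 : (0) ≤ (j + 1) := by clear * - b2 y11 y13 y5 z10; omega
        have kk119 : (g) ≤ (h) := by clear * - b2 b3 y10 y11 y13 z10 z11; linarith
        have kk120 : (i + j + 1) ≤ (Q) := by clear * - b2 y13 z10 z11 z9; omega
        have r121 : (2 * n + i + j) % 2 = 0 := by clear * - ev n1p n4p n5p n6p; omega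
        have r122 : (i + h - j - g) % 2 = 0 := by clear * - ev n1p n4p n5p n6p; omega
        have r123 : (2 * n + i + j3) % 2 = 0 := by clear * - ev n1p n4p n5p n6p; omega
        clear * - al a1 s2 u1 GG kk110 kk111 kk112 kk113 kk114 kk115 kk116 kk117 kk118 kk119 kk120 r121 r122 r123
        exact mid2 al (i + h - j - g) (2 * n + i + j) (2 * n + i + j3) (n + j + 1) (n + i + j + 1) 0 (n) (n + i + h - g) (by omega) (fun t h1 h2 => ⟨by omega, (cE (qa s2 al 1 t ((n + i + j) - t) (by omega)) (sh al 1 ((n + i + j) - t) ((2 * n + i + j) - t) (by omega)))⟩) (fun t h1 h2 => ⟨by omega, (cE (ab u1 al 1 t ((n + i + j3) - t) (by omega)) (sh al 1 ((n + i + j3) - t) ((2 * n + i + j3) - t) (by omega)))⟩) (fun t h1 h2 => (cE (cE (qf a1 al 1 t (t + (i + h - n - j)) (by omega)) (pb GG al 0 (t + (i + h - n - j)) (t + (i + h - n - j - g)) (by omega))) (sh al 1 (t + (i + h - n - j - g)) (t + (i + h - j - g)) (by omega))))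
      · by_cases z12 : (2 * de + j3 + 2 * ph + 2) ≤ (2 * i + j + 2 * g)
        · by_cases v6 : (i + h + de) ≤ (2 * j3 + g)
          · by_cases v7 : (i) ≤ (de)
            · have kk124 : (j + 1) ≤ (j3) := by clear * - b0 y11 z10 z9; omega
              have kk125 : (3 * j3 + 2 * g + 2) ≤ (2 * i + j + 2 * h) := by clear * - b0 y11 y13 z10 z9; omega
              have kk126 : (2 * de + j3 + 2 * ph + 2) ≤ (2 * i + j + 2 * g) := by clear * - z12; omega
              have kk127 : (0) ≤ (de + 1) := by clear * - y5; omega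
              have kk128 : (j) ≤ (j3) := by clear * - b0 y11 z10 z9; omega
              have kk129 : (i + g) ≤ (h + de + ph) := by clear * - b0 b3 v7 y11 y13 z12 z9; linarith
              have kk130 : (i) ≤ (j3 + ph + g) := by clear * - b0 b3 v6 y13 z12 z9; omega
              have kk131 : (i + h + de) ≤ (2 * j3 + g) := by clear * - v6; omega
              have kk132 : (h + de) ≤ (j3 + 2 * g) := by clear * - b0 b3 v7 y13 z10 z12 z9; linarith
              have kk133 : (i) ≤ (de) := by clear * - v7; omega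
              have kk134 : (Q) ≤ (de + g + 1) := by clear * - b0 v7; omega
              have kk135 : (i + g) ≤ (j3 + ph) := by clear * - b3; omega
              have r136 : (2 * i + 3 * h + 2 * de + ph - 2 * j3 - 2 * g) % 2 = 0 := by clear * - ev n1p n4p n5p n6p; omega
              have r137 : (j3 - j) % 2 = 0 := by clear * - ev n1p n4p n5p n6p; omega
              clear * - al a1 GG BE T2 kk124 kk125 kk126 kk127 kk128 kk129 kk130 kk131 kk132 kk133 kk134 kk135 r136 r137
              exact midP al (j3 - j) (2 * i + 3 * h + 2 * de + ph - 2 * j3 - 2 * g) (h + de + ph - g + 1) (i + h + de - j3 + 1) (i + h) (by omega) (fun t h1 h2 => (cE (cE (cI (qf GG al 0 t (t + (g)) (by omega)) (ab T2 al 0 (t + (g)) ((i + 2 * h + 2 * de + ph - j3 - g) - t) (by omega))) (pb GG al 0 ((i + 2 * h + 2 * de + ph - j3 - g) - t) ((i + 2 * h + 2 * de + ph - j3 - 2 * g) - t) (by omega))) (qf BE al 0 ((i + 2 * h + 2 * de + ph - j3 - 2 * g) - t) ((2 * i + 3 * h + 2 * de + ph - 2 * j3 - 2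 * g) - t) (by omega)))) (fun t h1 h2 => (qf (show Par W (i + h + de - j3 + 1) (i + j + h - j3) (j3 - j) from fun t h1 h2 => (cE (sh al (-1) t (t + (-n)) (by omega)) (cE (pb BE al (-1) (t + (-n)) (t + (j3 - i - h)) (by omega)) (qf a1 al 0 (t + (j3 - i - h)) (t + (j3 - j)) (by omega))))) al 0 t (t + (j3 - j)) (by omega)))
            · have kk138 : (j + 1) ≤ (j3) := by clear * - b0 v6 v7 y11 z9; omega
              have kk139 : (3 * j3 + 2 * g + 2) ≤ (j + 2 * h + 2 * de) := by clear * - y11 y13 y5 z10 z11; omega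
              have kk140 : (3 * j3 + 2 * g + 2) ≤ (2 * i + j + 2 * h) := by clear * - v6 v7 y11 y13 z10; omega
              have kk141 : (2 * de + j3 + 2 * ph + 2) ≤ (2 * i + j + 2 * g) := by clear * - z12; omega
              have kk142 : (0) ≤ (de + 1) := by clear * - y5; omega
              have kk143 : (j) ≤ (j3) := by clear * - b0 v6 v7 y11 z9; omega
              have kk144 : (i + g) ≤ (h + de + ph) := by clear * - b3 v6 v7 y11 y13; omega
              have kk145 : (i) ≤ (j3 + ph + g) := by clear * - b0 b3 v6 y13 z12 z9; omega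
              have kk146 : (i + h + de) ≤ (2 * j3 + g) := by clear * - v6; omega
              have kk147 : (h + de) ≤ (j3 + 2 * g) := by clear * - v6 v7 y13; omega
              have kk148 : (de) ≤ (i) := by clear * - v7; omega
              have kk149 : (Q) ≤ (i + g + 1) := by clear * - b0; omega
              have kk150 : (i + g) ≤ (j3 + ph) := by clear * - b3; omega
              have r151 : (2 * i + 3 * h + 2 * de + ph - 2 * j3 - 2 * g) % 2 = 0 := by clear * - ev n1p n4p n5p n6p; omega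
              have r152 : (j3 - j) % 2 = 0 := by clear * - ev n1p n4p n5p n6p; omega
              clear * - al a1 GG BE T2 kk138 kk139 kk140 kk141 kk142 kk143 kk144 kk145 kk146 kk147 kk148 kk149 kk150 r151 r152
              exact midP al (j3 - j) (2 * i + 3 * h + 2 * de + ph - 2 * j3 - 2 * g) (h + de + ph - g + 1) (i + h + de - j3 + 1) (i + h) (by omega) (fun t h1 h2 => (cE (cE (cI (qf GG al 0 t (t + (g)) (by omega)) (ab T2 al 0 (t + (g)) ((i + 2 * h + 2 * de + ph - j3 - g) - t) (by omega))) (pb GG al 0 ((i + 2 * h + 2 * de + ph - j3 - g) - t) ((i + 2 * h + 2 * de + ph - j3 - 2 * g) - t) (by omega))) (qf BE al 0 ((i + 2 * h + 2 * de + ph - j3 - 2 * g) - t) ((2 * i + 3 * h + 2 * de + ph - 2 * j3 - 2 * g) - t) (by omega)))) (fun t h1 h2 => (qf (show Par W (i + h + de - j3 + 1) (i + j + h - j3) (j3 - j) from fun t h1 h2 => (cE (sh al (-1) t (t + (-n)) (by omega)) (cE (pb BE al (-1) (t + (-n)) (t + (j3 - i - h)) (by omega)) (qf a1 al 0 (t + (j3 - i - h)) (t + (j3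 - j)) (by omega))))) al 0 t (t + (j3 - j)) (by omega)))
          · have kk153 : (j + 1) ≤ (j3) := by clear * - b0 y11 z10 z9; omega
            have kk154 : (2 * i + 2) ≤ (j + j3) := by clear * - b2 y5 z10 z11; omega
            have kk155 : (2 * de + 2) ≤ (j + j3) := by clear * - b3 z12; omega
            have kk156 : (2 * h + 4 * de + 2 * ph + 2) ≤ (j + 3 * j3 + 4 * g) := by clear * - b0 y10 y11 z10 z9; omega
            have kk157 : (0) ≤ (de + 1) := by clear * - y5; omega
            have kk158 : (j) ≤ (j3) := by clear * - b0 y11 z10 z9; omega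
            have kk159 : (2 * j3 + g) ≤ (i + h + de) := by clear * - v6; omega
            have kk160 : (2 * j3 + 2 * g) ≤ (2 * h + 2 * de + ph) := by clear * - b0 b3 v6 y10 z10 z9; omega
            have kk161 : (j3) ≤ (h + de + ph) := by clear * - b0 b3 v6 y10 z10 z9; omega
            have kk162 : (h + de) ≤ (j3 + 2 * g) := by clear * - b0 b3 v6 y10 z10 z9; omega
            have kk163 : (de) ≤ (i) := by clear * - b0 v6 y11 z10 z9; omega
            have kk164 : (Q) ≤ (i + g + 1) := by clear * - b0; omega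
            have kk165 : (j3 + 2 * g) ≤ (h + de + ph) := by clear * - b3 v6; omega
            have r166 : (2 * i + 3 * h + 2 * de + ph - 2 * j3 - 2 * g) % 2 = 0 := by clear * - ev n1p n4p n5p n6p; omega
            have r167 : (j3 - j) % 2 = 0 := by clear * - ev n1p n4p n5p n6p; omega
            clear * - al a1 GG BE T2 kk153 kk154 kk155 kk156 kk157 kk158 kk159 kk160 kk161 kk162 kk163 kk164 kk165 r166 r167
            exact midP al (j3 - j) (2 * i + 3 * h + 2 * de + ph - 2 * j3 - 2 * g) (i + 2 * h + 2 * de + ph - 2 * j3 - 2 * g + 1) (i + h + de - j3 + 1) (i + h) (by omega) (fun t h1 h2 => (cE (cE (cI (qf GG al 0 t (t + (g)) (by omega)) (ab T2 al 0 (t + (g)) ((i + 2 * h + 2 * de + ph - j3 - g) - t) (by omega))) (pb GG al 0 ((i + 2 * h + 2 * de + ph - j3 - g) - t) ((i + 2 * h + 2 * de + ph - j3 - 2 * g) - t) (by omega))) (qf BE al 0 ((i + 2 * h + 2 * de + ph - j3 - 2 * g) - t) ((2 * i + 3 * h + 2 * de + ph - 2 * j3 - 2 * g) - t) (by omega)))) (fun t h1 h2 => (qf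 (show Par W (i + h + de - j3 + 1) (i + j + h - j3) (j3 - j) from fun t h1 h2 => (cE (sh al (-1) t (t + (-n)) (by omega)) (cE (pb BE al (-1) (t + (-n)) (t + (j3 - i - h)) (by omega)) (qf a1 al 0 (t + (j3 - i - h)) (t + (j3 - j)) (by omega))))) al 0 t (t + (j3 - j)) (by omega)))
        · have kk168 : (j3 + ph + 2) ≤ (i + h) := by clear * - b0 y10 y11 y13 z10 z9; omega
          have kk169 : (2 * Q + j3) ≤ (i + h + 2 * de + ph + 1) := by clear * - b0 y10 y11 y13 z10 z12; omega
          have kk170 : (i + h) ≤ (j3 + ph + g) := by clear * - b0 b3 y10 y13 z10 z12 z9; linarith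
          have kk171 : (i + 1) ≤ (Q) := by clear * - b0 y10 y11 y13 z10 z12 z9; linarith
          have r172 : (2 * n + i + 3 * h + 2 * de + ph - j3) % 2 = 0 := by clear * - ev n1p n4p n5p n6p; omega
          clear * - al HH T2 kk168 kk169 kk170 kk171 r172
          obtain ⟨t, ht⟩ : ∃ t, 2 * t = (2 * n + i + 3 * h + 2 * de + ph - j3) := ⟨(2 * n + i + 3 * h + 2 * de + ph - j3) / 2, by omega⟩
          exact al.ninv t (cE (cE (ab T2 al 1 t ((n + i + 2 * h + 2 * de + ph - j3) - t) (by omega)) (qf HH al 0 ((n + i + 2 * h + 2 * de + ph - j3) - t) ((n + i + 3 * h + 2 * de + ph - j3) - t) (by omega))) (sh al 1 ((n + i + 3 * h + 2 * de + ph - j3) - t) t (by omega)))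
  · by_cases z13 : (i + h) ≤ (j + 2 * de + ph + g)
    · by_cases z14 : (i + j3 + g + 2) ≤ (h + 2 * de)
      · by_cases z15 : (3 * i + h + 2) ≤ (j + 2 * de + 2 * ph + g)
        · by_cases z16 : (h + 2 * de + 2 * ph + 2) ≤ (i + j3 + 3 * g)
          · by_cases v8 : (i) ≤ (de)
            · have kk173 : (j3 + g + 1) ≤ (i + h) := by clear * - b0 b1 y11 y13; omega
              have kk174 : (2 * Q + j3) ≤ (i + h + 2 * de + g) := by clear * - b0 z14; omega
              have kk175 : (j3 + g + 2) ≤ (i + h) := by clear * - b0 b1 y11 y13; omega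
              have kk176 : (h + 2 * de + 2 * ph + 2) ≤ (i + j3 + 3 * g) := by clear * - z16; omega
              have kk177 : (i + g) ≤ (h + de + ph) := by clear * - b3 v8 y11 y13 z16; omega
              have kk178 : (i + h + de + 1) ≤ (Q + j3 + g) := by clear * - b1 b3 y13 z16; omega
              have kk179 : (i) ≤ (de) := by clear * - v8; omega
              have kk180 : (j3) ≤ (h + de + ph) := by clear * - b0 b1 b3 v8 y11 y13; omega
              have kk181 : (2 * g) ≤ (h + ph) := by clear * - b0 b1 b3 y11 y13; omega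
              have kk182 : (de) ≤ (j3) := by clear * - b0 b1 v8 y11 y13; omega
              have r183 : (2 * n + i + 2 * h + 2 * de + ph - j3 - g) % 2 = 0 := by clear * - ev n1p n4p n5p n6p; omega
              have r184 : (i + h - j3 - g) % 2 = 0 := by clear * - ev n1p n4p n5p n6p; omega
              clear * - al GG BE T2 kk173 kk174 kk175 kk176 kk177 kk178 kk179 kk180 kk181 kk182 r183 r184
              exact midP al (i + h - j3 - g) (2 * n + i + 2 * h + 2 * de + ph - j3 - g) (n + h + de + ph - g + 1) (n + de + g + 1) (n + i + h) (by omega) (fun t h1 h2 => (cE (cI (qf GG al 1 t (t + (g - n)) (by omega)) (ab T2 al 0 (t + (g - n)) ((n + i + 2 * h + 2 * de + ph - j3 - g) - t) (by omega))) (sh al 1 ((n + i + 2 * h + 2 * de + ph - j3 - g) - t) ((2 * n + i + 2 * h + 2 * de + ph - j3 - g) - t) (by omega)))) (fun t h1 h2 => (cE (cE (pb GG al 1 t (t + (-n - g)) (by omega)) (qf BE al 0 (t + (-n - g)) (t + (i + h - n - j3 - g)) (by omega))) (sh al 1 (t + (i + h - n -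 j3 - g)) (t + (i + h - j3 - g)) (by omega))))
            · have kk185 : (j3 + g + 1) ≤ (i + h) := by clear * - v8 z14; omega
              have kk186 : (2 * Q + j3) ≤ (i + h + 2 * de + g) := by clear * - b0 z14; omega
              have kk187 : (i + j3 + g + 2) ≤ (h + 2 * de) := by clear * - z14; omega
              have kk188 : (h + 2 * de + 2 * ph + 2) ≤ (i + j3 + 3 * g) := by clear * - z16; omega
              have kk189 : (i + g) ≤ (h + de + ph) := by clear * - b2 b3 v8 z13 z14 z16; omega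
              have kk190 : (i + h + de + 1) ≤ (Q + j3 + g) := by clear * - b1 b2 v8 z13 z14 z16; omega
              have kk191 : (de) ≤ (i) := by clear * - v8; omega
              have kk192 : (j3) ≤ (h + de + ph) := by clear * - b2 v8 z13 z14 z16; omega
              have kk193 : (de) ≤ (j3) := by clear * - b3 v8 z14 z16; omega
              have kk194 : (i + 2 * g) ≤ (h + de + ph) := by clear * - b3 v8 z14; omega
              have r195 : (2 * n + i + 2 * h + 2 * de + ph - j3 - g) % 2 = 0 := by clear * - ev n1p n4p n5p n6p; omega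
              have r196 : (i + h - j3 - g) % 2 = 0 := by clear * - ev n1p n4p n5p n6p; omega
              clear * - al GG BE T2 kk185 kk186 kk187 kk188 kk189 kk190 kk191 kk192 kk193 kk194 r195 r196
              exact midP al (i + h - j3 - g) (2 * n + i + 2 * h + 2 * de + ph - j3 - g) (n + h + de + ph - g + 1) (n + i + g + 1) (n + i + h) (by omega) (fun t h1 h2 => (cE (cI (qf GG al 1 t (t + (g - n)) (by omega)) (ab T2 al 0 (t + (g - n)) ((n + i + 2 * h + 2 * de + ph - j3 - g) - t) (by omega))) (sh al 1 ((n + i + 2 * h + 2 * de + ph - j3 - g) - t) ((2 * n + i + 2 * h + 2 * de + ph - j3 - g) - t) (by omega)))) (fun t h1 h2 => (cE (cE (pb GG al 1 t (t + (-n - g)) (by omega)) (qf BE al 0 (t + (-n - g)) (t + (i + h - n - j3 - g)) (by omega))) (sh al 1 (t + (i + h - n - j3 - g)) (t + (i + h - j3 - g)) (by omega))))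
          · have kk197 : (2 * Q + j3) ≤ (i + h + 2 * de + ph) := by clear * - b0 z14 z16; omega
            have kk198 : (j3 + ph + 1) ≤ (i + h) := by clear * - b0 b1 y10 y11 y13; omega
            have kk199 : (i + h + de + 1) ≤ (Q + j3 + g) := by clear * - b0 b1 y11 y13 z14; omega
            have kk200 : (i) ≤ (de + ph) := by clear * - b0 b1 b3 y13 z14; omega
            have r201 : (2 * n + i + h + 2 * de + ph - j3) % 2 = 0 := by clear * - ev n1p n4p n5p n6p; omega
            clear * - al HH T2 kk197 kk198 kk199 kk200 r201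
            obtain ⟨t, ht⟩ : ∃ t, 2 * t = (2 * n + i + h + 2 * de + ph - j3) := ⟨(2 * n + i + h + 2 * de + ph - j3) / 2, by omega⟩
            exact al.ninv t (cE (cE (qa T2 al 1 t ((n + i + 2 * h + 2 * de + ph - j3) - t) (by omega)) (pb HH al 0 ((n + i + 2 * h + 2 * de + ph - j3) - t) ((n + i + h + 2 * de + ph - j3) - t) (by omega))) (sh al 1 ((n + i + h + 2 * de + ph - j3) - t) t (by omega)))
        · by_cases v9 : (i) ≤ (de)
          · have kk202 : (j3 + g + 1) ≤ (i + h) := by clear * - b1 b2 b3 y13 z13 z15 z9; linarith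
            have kk203 : (2 * Q + j3) ≤ (i + h + 2 * de + g) := by clear * - b0 z14; omega
            have kk204 : (j3 + g + 2) ≤ (i + h) := by clear * - b0 b1 b3 v9 y13 z15 z9; linarith
            have kk205 : (2 * de + 2 * ph + g + 2) ≤ (i + h + j3) := by clear * - b1 b2 z13 z14 z15 z9; omega
            have kk206 : (i) ≤ (de + ph) := by clear * - b0 b1 b3 y13 z14; omega
            have kk207 : (i + h + de + 1) ≤ (Q + j3 + g) := by clear * - b0 b1 b3 v9 y13 z15 z9; linarith
            have kk208 : (i + de + 1) ≤ (Q + j3) := by clear * - b0 b1 b3 v9 y13 z15 z9; linarith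
            have kk209 : (i) ≤ (de) := by clear * - v9; omega
            have kk210 : (j3) ≤ (h + de + ph) := by clear * - b0 b1 b3 v9 y13 z15 z9; linarith
            have kk211 : (0) ≤ (ph) := by clear * - b0 b1 b3 v9 y13 z15 z9; linarith
            have kk212 : (de) ≤ (j3) := by clear * - b0 b1 b3 v9 y13 z15 z9; linarith
            have r213 : (i + h + 2 * de + ph + g - 2 * n - j3) % 2 = 0 := by clear * - ev n1p n4p n5p n6p; omega
            have r214 : (i + h - j3 - g) % 2 = 0 := by clear * - ev n1p n4p n5p n6p; omega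
            clear * - al GG HH BE T2 kk202 kk203 kk204 kk205 kk206 kk207 kk208 kk209 kk210 kk211 kk212 r213 r214
            exact midP al (i + h - j3 - g) (i + h + 2 * de + ph + g - 2 * n - j3) (de + ph + g - n + 1) (de + g - n + 1) (i + h - n) (by omega) (fun t h1 h2 => (cE (cI (cE (pb GG al (-1) t (t + (n - g)) (by omega)) (qf HH al 0 (t + (n - g)) (t + (n + h - g)) (by omega))) (ab T2 al 0 (t + (n + h - g)) ((i + h + 2 * de + ph + g - n - j3) - t) (by omega))) (sh al (-1) ((i + h + 2 * de + ph + g - n - j3) - t) ((i + h + 2 * de + ph + g - 2 * n - j3) - t) (by omega)))) (fun t h1 h2 => (cE (cE (pb GG al (-1) t (t + (n - g)) (by omega)) (qf BE al 0 (t + (n - g)) (t + (n + i + h - j3 - g)) (by omega))) (sh al (-1) (t + (n + i + h - j3 - g)) (t + (i + h - j3 - g)) (by omega))))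
          · have kk215 : (j3 + g + 1) ≤ (i + h) := by clear * - v9 z14; omega
            have kk216 : (2 * Q + j3) ≤ (i + h + 2 * de + g) := by clear * - b0 z14; omega
            have kk217 : (i + j3 + g + 2) ≤ (h + 2 * de) := by clear * - z14; omega
            have kk218 : (2 * de + 2 * ph + g + 2) ≤ (i + h + j3) := by clear * - b1 b2 z13 z14 z15 z9; omega
            have kk219 : (i) ≤ (de + ph) := by clear * - b2 v9 z13; omega
            have kk220 : (i + h + de + 1) ≤ (Q + j3 + g) := by clear * - b0 b1 v9 z14; omega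
            have kk221 : (i + de + 1) ≤ (Q + j3) := by clear * - b0 b1 b3 v9 z14 z15 z9; linarith
            have kk222 : (de) ≤ (i) := by clear * - v9; omega
            have kk223 : (j3) ≤ (h + de + ph) := by clear * - b0 b1 b2 v9 z13 z14; omega
            have kk224 : (de) ≤ (j3) := by clear * - b1 b2 v9 z13 z15 z9; omega
            have r225 : (i + h + 2 * de + ph + g - 2 * n - j3) % 2 = 0 := by clear * - ev n1p n4p n5p n6p; omega
            have r226 : (i + h - j3 - g) % 2 = 0 := by clear * - ev n1p n4p n5p n6p; omega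
            clear * - al GG HH BE T2 kk215 kk216 kk217 kk218 kk219 kk220 kk221 kk222 kk223 kk224 r225 r226
            exact midP al (i + h - j3 - g) (i + h + 2 * de + ph + g - 2 * n - j3) (de + ph + g - n + 1) (i + g - n + 1) (i + h - n) (by omega) (fun t h1 h2 => (cE (cI (cE (pb GG al (-1) t (t + (n - g)) (by omega)) (qf HH al 0 (t + (n - g)) (t + (n + h - g)) (by omega))) (ab T2 al 0 (t + (n + h - g)) ((i + h + 2 * de + ph + g - n - j3) - t) (by omega))) (sh al (-1) ((i + h + 2 * de + ph + g - n - j3) - t) ((i + h + 2 * de + ph + g - 2 * n - j3) - t) (by omega)))) (fun t h1 h2 => (cE (cE (pb GG al (-1) t (t + (n - g)) (by omega)) (qf BE al 0 (t + (n - g)) (t + (n + i + h - j3 - g)) (by omega))) (sh al (-1) (t + (n + i + h - j3 - g)) (t + (i + h - j3 - g)) (by omega))))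
      · have kk227 : (j + 1) ≤ (j3) := by clear * - b2 y5 z14 ev n1p n4p n5p n6p; omega
        have kk228 : (j3) ≤ (2 * i + j) := by clear * - y10 y11 y13 z13 z14; omega
        have kk229 : (j + 2) ≤ (j3) := by clear * - b2 y5 z14 ev n1p n4p n5p n6p; omega
        have kk230 : (j + de + 1) ≤ (j3) := by clear * - b2 y5 z14 ev n1p n4p n5p n6p; omega
        have kk231 : (0) ≤ (j + 1) := by clear * - b1 b3 y10 y11 y13 z13 z14 z9; linarith
        have kk232 : (i) ≤ (j3) := by clear * - b3 y10; omega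
        have r233 : (i + j - 2 * n) % 2 = 0 := by clear * - ev n1p n4p n5p n6p; omega
        have r234 : (j3 - j) % 2 = 0 := by clear * - ev n1p n4p n5p n6p; omega
        clear * - al a1 s1 BE kk227 kk228 kk229 kk230 kk231 kk232 r233 r234
        exact midP al (j3 - j) (i + j - 2 * n) (j - n + 1) (-n) (j3 - n) (by omega) (fun t h1 h2 => (cE (ab s1 al (-1) t ((i + j - n) - t) (by omega)) (sh al (-1) ((i + j - n) - t) ((i + j - 2 * n) - t) (by omega)))) (fun t h1 h2 => (cE (qf (show Par W (0) (j) (j3 - j) from fun t h1 h2 => (cE (sh al (-1) t (t + (-n)) (by omega)) (cE (qf a1 al (-1) (t + (-n)) (t + (i + h - j)) (by omega)) (pb BE al 0 (t + (i + h - j)) (t + (j3 - j)) (by omega))))) al (-1) t (t + (n + j3 - j)) (by omega)) (sh al (-1) (t + (n + j3 - j)) (t + (j3 - j)) (by omega))))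
    · by_cases z17 : (2 * j + 2 * j3 + 2 * g + 2) ≤ (2 * i + 2 * h + 2 * de + ph)
      · by_cases z18 : (2 * i + 2 * h + 2 * de + 2) ≤ (2 * j + 2 * j3 + ph + 2 * g)
        · by_cases z19 : (2 * j3 + g + 1) ≤ (2 * i + h)
          · by_cases v10 : (2 * j3 + g) ≤ (i + h + de)
            · have kk235 : (h + 2 * de + 2) ≤ (2 * j3 + g) := by clear * - b0 b1 y11 ev n1p n4p n5p n6p; omega
              have kk236 : (2 * i + h + 1) ≤ (2 * Q + g) := by clear * - b1 b3 y10 y13; omega
              have kk237 : (j3 + g) ≤ (h + de) := by clear * - b3 v10 y10; omega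
              have kk238 : (2 * j3 + g) ≤ (i + h + de) := by clear * - v10; omega
              have kk239 : (Q + g) ≤ (i + h) := by clear * - b0 y11; omega
              have kk240 : (Q) ≤ (h + de + ph) := by clear * - b0 b3 v10 y10 z17 z18; omega
              have r241 : (2 * j3 + g - h) % 2 = 0 := by clear * - ev n1p n4p n5p n6p; omega
              clear * - al u2 GG BE kk235 kk236 kk237 kk238 kk239 kk240 r241
              obtain ⟨t, ht⟩ : ∃ t, 2 * t = (2 * j3 + g - h) := ⟨(2 * j3 + g - h) / 2, by omega⟩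
              exact al.ninv t (cI (cE (qf BE al 0 t (t + (i + h - j3)) (by omega)) (pb GG al 0 (t + (i + h - j3)) (t + (i + h - j3 - g)) (by omega))) (qa u2 al 0 (t + (i + h - j3 - g)) t (by omega)))
            · have kk242 : (2 * j3 + g + 2) ≤ (2 * i + h) := by clear * - z19 ev n1p n4p n5p n6p; omega
              have kk243 : (2 * i + h + 1) ≤ (2 * Q + g) := by clear * - b1 v10 y11 y13; omega
              have kk244 : (i + h + de) ≤ (2 * j3 + g) := by clear * - v10; omega
              have kk245 : (i) ≤ (j3) := by clear * - v10 y11 y13; omega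
              have kk246 : (Q + g) ≤ (i + h) := by clear * - b0 y11; omega
              have kk247 : (Q) ≤ (h + de + ph) := by clear * - b3 v10 y11 y13 z17 z9; omega
              have r248 : (2 * j3 + g - h) % 2 = 0 := by clear * - ev n1p n4p n5p n6p; omega
              clear * - al u2 GG BE kk242 kk243 kk244 kk245 kk246 kk247 r248
              obtain ⟨t, ht⟩ : ∃ t, 2 * t = (2 * j3 + g - h) := ⟨(2 * j3 + g - h) / 2, by omega⟩
              exact al.ninv t (cI (cE (qf BE al 0 t (t + (i + h - j3)) (by omega)) (pb GG al 0 (t + (i + h - j3)) (t + (i + h - j3 - g)) (by omega))) (qa u2 al 0 (t + (i + h - j3 - g)) t (by omega)))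
          · by_cases v11 : (i) ≤ (de)
            · have kk249 : (j3 + g + 1) ≤ (i + h) := by clear * - b0 b1 y11 y13; omega
              have kk250 : (j3 + g + 2) ≤ (i + h) := by clear * - b0 b1 y11 y13; omega
              have kk251 : (j3 + g + 2) ≤ (i + h + 2 * ph) := by clear * - b1 v11 y11 y13 z17 z19 z9; linarith
              have kk252 : (2 * de + g + 2) ≤ (i + h + j3) := by clear * - b0 b1 v11 y11 y13; omega
              have kk253 : (g) ≤ (h) := by clear * - b0 b1 v11 y11 y13; omega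
              have kk254 : (i + h + de + 1) ≤ (Q + j3 + g) := by clear * - b0 b1 v11 y11 y13; omega
              have kk255 : (i) ≤ (de + ph) := by clear * - v11 z17 z18; omega
              have kk256 : (i) ≤ (de) := by clear * - v11; omega
              have kk257 : (j3) ≤ (h + de + ph) := by clear * - b0 b1 v11 y11 y13 z17 z18; linarith
              have kk258 : (de + ph) ≤ (j3) := by clear * - b1 v11 y5 z13 z9; omega
              have kk259 : (Q) ≤ (de + g + 1) := by clear * - b0 v11; omega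
              have r260 : (i + h + 2 * de + ph + g - 2 * n - j3) % 2 = 0 := by clear * - ev n1p n4p n5p n6p; omega
              have r261 : (i + h - j3 - g) % 2 = 0 := by clear * - ev n1p n4p n5p n6p; omega
              clear * - al GG HH BE T2 kk249 kk250 kk251 kk252 kk253 kk254 kk255 kk256 kk257 kk258 kk259 r260 r261
              exact midP al (i + h - j3 - g) (i + h + 2 * de + ph + g - 2 * n - j3) (de + g - n + 1) (de + g - n + 1) (i + h - n) (by omega) (fun t h1 h2 => (cE (cE (qa T2 al (-1) t ((i + 2 * h + 2 * de + ph - n - j3) - t) (by omega)) (pb (show Par W (i + g + 1) (de + ph + 2 * g) (h - g) from fun t h1 h2 => (cE (sh al (-1) t (t + (-n)) (by omega)) (cE (pb GG al (-1) (t + (-n)) (t + (-g)) (by omega)) (qf HH al 0 (t + (-g)) (t + (h - g)) (by omega))))) al 0 ((i + 2 * h + 2 * de + ph - n - j3) - t) ((i + h + 2 * de + ph + g - n - j3) - t) (by omega))) (sh al (-1) ((i + h + 2 * de + ph + g - n - j3) - t) ((i + h + 2 * de + ph + g - 2 * n - j3) - t)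 (by omega)))) (fun t h1 h2 => (cE (cE (pb GG al (-1) t (t + (n - g)) (by omega)) (qf BE al 0 (t + (n - g)) (t + (n + i + h - j3 - g)) (by omega))) (sh al (-1) (t + (n + i + h - j3 - g)) (t + (i + h - j3 - g)) (by omega))))
            · have kk262 : (j3 + g + 1) ≤ (i + h) := by clear * - v11 y11 y13 z19; omega
              have kk263 : (i + j3 + g + 2) ≤ (h + 2 * de) := by clear * - y11 y13 z19 ev n1p n4p n5p n6p; omega
              have kk264 : (3 * i + j3 + g + 2) ≤ (h + 4 * de + 2 * ph) := by clear * - b3 v11 y11 y13 z19; omega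
              have kk265 : (i + g + 2) ≤ (h + j3) := by clear * - v11 y11 y13 z19; omega
              have kk266 : (g) ≤ (h) := by clear * - v11 y11 y13 z19; omega
              have kk267 : (i + h + de + 1) ≤ (Q + j3 + g) := by clear * - b1 v11 y11 y13 z19; omega
              have kk268 : (i) ≤ (de + ph) := by clear * - b3 v11 y13 z19; omega
              have kk269 : (de) ≤ (i) := by clear * - v11; omega
              have kk270 : (j3) ≤ (h + de + ph) := by clear * - v11 y11 y13 z17 z18 z19; omega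
              have kk271 : (2 * de + ph) ≤ (i + j3) := by clear * - b1 y5 z13 z9; omega
              have kk272 : (Q) ≤ (i + g + 1) := by clear * - b0; omega
              have r273 : (i + h + 2 * de + ph + g - 2 * n - j3) % 2 = 0 := by clear * - ev n1p n4p n5p n6p; omega
              have r274 : (i + h - j3 - g) % 2 = 0 := by clear * - ev n1p n4p n5p n6p; omega
              clear * - al GG HH BE T2 kk262 kk263 kk264 kk265 kk266 kk267 kk268 kk269 kk270 kk271 kk272 r273 r274
              exact midP al (i + h - j3 - g) (i + h + 2 * de + ph + g - 2 * n - j3) (i + g - n + 1) (i + g - n + 1) (i + h - n) (by omega) (fun t h1 h2 => (cE (cE (qa T2 al (-1) t ((i + 2 * h + 2 * de + ph - n - j3) - t) (by omega)) (pb (show Par W (i + g + 1) (de + ph + 2 * g) (h - g) from fun t h1 h2 => (cE (sh al (-1) t (t + (-n)) (by omega)) (cE (pb GG al (-1) (t + (-n)) (t + (-g)) (by omega)) (qf HH al 0 (t + (-g)) (t + (h - g)) (by omega))))) al 0 ((i + 2 * h + 2 * de + ph - n - j3)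 - t) ((i + h + 2 * de + ph + g - n - j3) - t) (by omega))) (sh al (-1) ((i + h + 2 * de + ph + g - n - j3) - t) ((i + h + 2 * de + ph + g - 2 * n - j3) - t) (by omega)))) (fun t h1 h2 => (cE (cE (pb GG al (-1) t (t + (n - g)) (by omega)) (qf BE al 0 (t + (n - g)) (t + (n + i + h - j3 - g)) (by omega))) (sh al (-1) (t + (n + i + h - j3 - g)) (t + (i + h - j3 - g)) (by omega))))
        · have kk275 : (j3 + ph + g + 2) ≤ (i + h) := by clear * - b1 y1 z18 z9 ev n1p n4p n5p n6p; omega
          have kk276 : (i + j3 + g + 1) ≤ (h + 2 * de + ph) := by clear * - b3 y10 y13; omega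
          have kk277 : (i) ≤ (j3 + ph + g) := by clear * - b0 b1 b3 y10 y13 z18 z9; linarith
          have kk278 : (i + h) ≤ (j3 + ph + 2 * g) := by clear * - b0 b1 b3 y10 y13; omega
          have kk279 : (Q) ≤ (i + g + 1) := by clear * - b0; omega
          have r280 : (i + 3 * h + 2 * de + ph - j3 - g) % 2 = 0 := by clear * - ev n1p n4p n5p n6p; omega
          clear * - al GG HH T2 kk275 kk276 kk277 kk278 kk279 r280
          obtain ⟨t, ht⟩ : ∃ t, 2 * t = (i + 3 * h + 2 * de + ph - j3 - g) := ⟨(i + 3 * h + 2 * de + ph - j3 - g) / 2, by omega⟩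
          exact al.ninv t (cE (cE (ab T2 al 0 t ((i + 2 * h + 2 * de + ph - j3) - t) (by omega)) (pb GG al 0 ((i + 2 * h + 2 * de + ph - j3) - t) ((i + 2 * h + 2 * de + ph - j3 - g) - t) (by omega))) (qf HH al 0 ((i + 2 * h + 2 * de + ph - j3 - g) - t) t (by omega)))
      · have kk281 : (j + g + 1) ≤ (i + h) := by clear * - b0 b1 b3 y13 y5 z13 z9; linarith
        have kk282 : (2 * Q + 2 * j3) ≤ (i + j + h + 2 * de + g) := by clear * - b0 b3 y13 y5 z13 z17; omega
        have kk283 : (i + 2 * j3 + g + 2) ≤ (j + h + 2 * de) := by clear * - b3 y13 y5 z13 z17; omega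
        have kk284 : (h + 2 * de + 2 * ph + 2) ≤ (i + j + 3 * g) := by clear * - b0 b1 b3 y13 y5 z13 z17 z9; linarith
        have kk285 : (0) ≤ (i + 1) := by clear * - y0; omega
        have kk286 : (j) ≤ (h + de + ph) := by clear * - b0 b1 b3 y13 y5 z13 z17 z9; linarith
        have kk287 : (i + g) ≤ (h + de + ph) := by clear * - b0 b1 b3 y10 y11 y13; omega
        have kk288 : (i + h + de + 1) ≤ (Q + j3 + g) := by clear * - b0 b1 b3 y10 y11 y13; omega
        have kk289 : (de) ≤ (j3) := by clear * - b0 b1 b3 y10 y11 y13; omega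
        have kk290 : (i + 2 * g) ≤ (h + de + ph) := by clear * - b3 y10 y11 y13; omega
        have r291 : (i + 2 * h + 2 * de + ph - 2 * n - j3 - g) % 2 = 0 := by clear * - ev n1p n4p n5p n6p; omega
        have r292 : (i + h - j - g) % 2 = 0 := by clear * - ev n1p n4p n5p n6p; omega
        clear * - al a1 GG T2 kk281 kk282 kk283 kk284 kk285 kk286 kk287 kk288 kk289 kk290 r291 r292
        exact midP al (i + h - j - g) (i + 2 * h + 2 * de + ph - 2 * n - j3 - g) (h + de + ph - n - g + 1) (i + g - n + 1) (i + h - n) (by omega) (fun t h1 h2 => (cE (cI (qf GG al (-1) t (t + (n + g)) (by omega)) (ab T2 al 0 (t + (n + g)) ((i + 2 * h + 2 * de + ph - n - j3 - g) - t) (by omega))) (sh al (-1) ((i + 2 * h + 2 * de + ph - n - j3 - g) - t) ((i + 2 * h + 2 * de + ph - 2 * n - j3 - g) - t) (by omega)))) (fun t h1 h2 => (cE (qf (show Par W (i + g + 1) (j + g) (i + h - j - g) from fun t h1 h2 => (cE (sh al (-1) t (t + (-n)) (by omega)) (cE (pb GG al (-1) (t + (-n)) (t + (-g))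 (by omega)) (qf a1 al 0 (t + (-g)) (t + (i + h - j - g)) (by omega))))) al (-1) t (t + (n + i + h - j - g)) (by omega)) (sh al (-1) (t + (n + i + h - j - g)) (t + (i + h - j - g)) (by omega))))

theorem rg1_4 {W : ℤ → G} {n Q i j h de j3 ph g : ℤ} (al : AL W n Q)
    (hy : (0) ≤ (i) ∧ (i) ≤ (j) ∧ (j + 1) ≤ (Q) ∧ (i) ≤ (j3) ∧ (j3 + 1) ≤ (Q) ∧ (0) ≤ (de) ∧ (de + 1) ≤ (j3) ∧ (Q + j3) ≤ (i + h + de) ∧ (j + 1) ≤ (h) ∧ (0) ≤ (ph) ∧ (ph + 1) ≤ (g) ∧ (2 * g) ≤ (h) ∧ (h + j3 + 2 * ph + 2 * g) ≤ (n + i) ∧ (3 * j3 + 1) ≤ (i + h + 2 * de))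
    (a1 : Par W (0) (j) (i + h - j))
    (a2 : Par W (Q + j - i - g) (j) (i + g - j))
    (s1 : Ant W (0) (i) (i + j))
    (s2 : Ant W (j + 1) (Q) (i + j))
    (u1 : Ant W (0) (i) (i + j3))
    (u2 : Ant W (j3 + 1) (Q) (i + j3))
    (GG : Par W (i + 1) (h + de + ph) (g))
    (HH : Par W (i + 1) (de + ph + g) (h))
    (AL0 : Par W (i - ph + 1) (de) (ph))
    (AL1 : Par W (i - ph - g + 1) (de) (h + ph))
    (BE : Par W (de + 1) (j3) (i + h - j3))
    (T2 : Ant W (Q) (i + h + de - j3) (i + 2 * h + 2 * de + ph - j3))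
    (n1 : Nd W (j) (i) (i + h))
    (n4 : Nd W (h + de + ph) (i + h + de - j3) (de))
    (n5 : Nd W (j3) (i) (i + h))
    (n6 : Nd W (j) (i) (i + g))
    (b0 : (Q) ≤ (i + g))
    (b1 : (2 * i + 2 * h + 2 * de + 1) ≤ (2 * Q + 2 * j3 + g))
    (b2 : (i + 1) ≤ (j + ph))
    (b3 : (i + j + g + 1) ≤ (h)) : False := by
  have ev := al.ev
  obtain ⟨y0, y1, y2, y3, y4, y5, y6, y7, y8, y9, y10, y11, y12, y13⟩ := id hy
  have n1p := And.intro n1.p1 n1.p2
  have n4p := And.intro n4.p1 n4.p2
  have n5p := And.intro n5.p1 n5.p2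
  have n6p := And.intro n6.p1 n6.p2
  by_cases z6 : (j3 + ph + 1) ≤ (i + g)
  · exact rg1_5 al hy a1 a2 s1 s2 u1 u2 GG HH AL0 AL1 BE T2 n1 n4 n5 n6 (by clear * - b0; omega) (by clear * - b1; omega) (by clear * - b2; omega) (by clear * - b3; omega) (by clear * - z6; omega)
  · exact rg1_6 al hy a1 a2 s1 s2 u1 u2 GG HH AL0 AL1 BE T2 n1 n4 n5 n6 (by clear * - b0; omega) (by clear * - b1; omega) (by clear * - b3; omega) (by clear * - z6; omega)

theorem rg1_3 {W : ℤ → G} {n Q i j h de j3 ph g : ℤ} (al : AL W n Q)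
    (hy : (0) ≤ (i) ∧ (i) ≤ (j) ∧ (j + 1) ≤ (Q) ∧ (i) ≤ (j3) ∧ (j3 + 1) ≤ (Q) ∧ (0) ≤ (de) ∧ (de + 1) ≤ (j3) ∧ (Q + j3) ≤ (i + h + de) ∧ (j + 1) ≤ (h) ∧ (0) ≤ (ph) ∧ (ph + 1) ≤ (g) ∧ (2 * g) ≤ (h) ∧ (h + j3 + 2 * ph + 2 * g) ≤ (n + i) ∧ (3 * j3 + 1) ≤ (i + h + 2 * de))
    (a1 : Par W (0) (j) (i + h - j))
    (a2 : Par W (Q + j - i - g) (j) (i + g - j))
    (s1 : Ant W (0) (i) (i + j))
    (s2 : Ant W (j + 1) (Q) (i + j))
    (u1 : Ant W (0) (i) (i + j3))
    (u2 : Ant W (j3 + 1) (Q) (i + j3))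
    (GG : Par W (i + 1) (h + de + ph) (g))
    (HH : Par W (i + 1) (de + ph + g) (h))
    (AL0 : Par W (i - ph + 1) (de) (ph))
    (AL1 : Par W (i - ph - g + 1) (de) (h + ph))
    (BE : Par W (de + 1) (j3) (i + h - j3))
    (T2 : Ant W (Q) (i + h + de - j3) (i + 2 * h + 2 * de + ph - j3))
    (n1 : Nd W (j) (i) (i + h))
    (n4 : Nd W (h + de + ph) (i + h + de - j3) (de))
    (n5 : Nd W (j3) (i) (i + h))
    (n6 : Nd W (j) (i) (i + g))
    (b0 : (Q) ≤ (i + g))
    (b1 : (2 * i + 2 * h + 2 * de + 1) ≤ (2 * Q + 2 * j3 + g))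
    (b2 : (i + 1) ≤ (j + ph)) : False := by
  have ev := al.ev
  obtain ⟨y0, y1, y2, y3, y4, y5, y6, y7, y8, y9, y10, y11, y12, y13⟩ := id hy
  have n1p := And.intro n1.p1 n1.p2
  have n4p := And.intro n4.p1 n4.p2
  have n5p := And.intro n5.p1 n5.p2
  have n6p := And.intro n6.p1 n6.p2
  by_cases z5 : (h) ≤ (i + j + g)
  · by_cases v1 : (j + g + 1) ≤ (h)
    · by_cases v2 : (de + ph + g) ≤ (i)
      · by_cases v3 : (i + j + 1) ≤ (h + de + ph)
        · have kk22 : (j + g + 1) ≤ (i + h) := by clear * - v2 v3 z5; omega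
          have kk23 : (h) ≤ (i + j + g) := by clear * - z5; omega
          have kk24 : (h) ≤ (i + 3 * j + g + 2) := by clear * - b2 y10 y11 z5; omega
          have kk25 : (i) ≤ (j + h + 2 * de + 2 * ph + g) := by clear * - b2 v3 y10 y11 z5; omega
          have kk26 : (j + g + 1) ≤ (h) := by clear * - v2 v3; omega
          have kk27 : (de + ph + g) ≤ (i) := by clear * - v2; omega
          have kk28 : (i + j + 1) ≤ (h + de + ph) := by clear * - v3; omega
          have r29 : (i + j - 2 * n) % 2 = 0 := by clear * - ev n1p n4p n5p n6p; omega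
          have r30 : (i + h - j - g) % 2 = 0 := by clear * - ev n1p n4p n5p n6p; omega
          clear * - al a1 s1 GG kk22 kk23 kk24 kk25 kk26 kk27 kk28 r29 r30
          exact midP al (i + h - j - g) (i + j - 2 * n) (-n) (-n) (h + de + ph - n) (by omega) (fun t h1 h2 => (cE (qa s1 al (-1) t ((i + j - n) - t) (by omega)) (sh al (-1) ((i + j - n) - t) ((i + j - 2 * n) - t) (by omega)))) (fun t h1 h2 => (cE (cE (qf a1 al (-1) t (t + (n + i + h - j)) (by omega)) (pb GG al 0 (t + (n + i + h - j)) (t + (n + i + h - j - g)) (by omega))) (sh al (-1) (t + (n + i + h - j - g)) (t + (i + h - j - g)) (by omega))))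
        · have kk31 : (j + g + 1) ≤ (i + h) := by clear * - v1 z5; omega
          have kk32 : (i + j + 2) ≤ (h + 2 * de + 2 * ph + g) := by clear * - b0 b1 v1 v3 y13 y3 y5 y9; linarith
          have kk33 : (i) ≤ (j + h + 2 * de + 2 * ph + g) := by clear * - b0 b1 b2 v1 v3 y10 y13 y5; linarith
          have kk34 : (3 * i + j + 2) ≤ (3 * h + 4 * de + 4 * ph + g) := by clear * - b0 b1 b2 v1 v3 y10 y13 y5; linarith
          have kk35 : (j + g + 1) ≤ (h) := by clear * - v1; omega
          have kk36 : (de + ph + g) ≤ (i) := by clear * - v2; omega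
          have kk37 : (h + de + ph) ≤ (i + j + 1) := by clear * - v3; omega
          have r38 : (i + j - 2 * n) % 2 = 0 := by clear * - ev n1p n4p n5p n6p; omega
          have r39 : (i + h - j - g) % 2 = 0 := by clear * - ev n1p n4p n5p n6p; omega
          clear * - al a1 s1 GG kk31 kk32 kk33 kk34 kk35 kk36 kk37 r38 r39
          exact midP al (i + h - j - g) (i + j - 2 * n) (i + j - n - h - de - ph + 1) (-n) (h + de + ph - n) (by omega) (fun t h1 h2 => (cE (qa s1 al (-1) t ((i + j - n) - t) (by omega)) (sh al (-1) ((i + j - n) - t) ((i + j - 2 * n) - t) (by omega)))) (fun t h1 h2 => (cE (cE (qf a1 al (-1) t (t + (n + i + h - j)) (by omega)) (pb GG al 0 (t + (n + i + h - j)) (t + (n + i + h - j - g)) (by omega))) (sh al (-1) (t + (n + i + h - j - g)) (t + (i + h - j - g)) (by omega))))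
      · have kk40 : (j + g + 1) ≤ (i + h) := by clear * - v1 z5; omega
        have kk41 : (h) ≤ (i + j + g) := by clear * - z5; omega
        have kk42 : (h) ≤ (i + 3 * j + g + 2) := by clear * - b2 y10 y11 z5; omega
        have kk43 : (g) ≤ (i + j + h) := by clear * - b2 v1 y10 y11 z5; omega
        have kk44 : (j + g + 1) ≤ (h) := by clear * - v1; omega
        have kk45 : (i) ≤ (de + ph + g) := by clear * - v2; omega
        have r46 : (i + j - 2 * n) % 2 = 0 := by clear * - ev n1p n4p n5p n6p; omega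
        have r47 : (i + h - j - g) % 2 = 0 := by clear * - ev n1p n4p n5p n6p; omega
        clear * - al a1 s1 GG kk40 kk41 kk42 kk43 kk44 kk45 r46 r47
        exact midP al (i + h - j - g) (i + j - 2 * n) (-n) (-n) (i + h - n - g) (by omega) (fun t h1 h2 => (cE (qa s1 al (-1) t ((i + j - n) - t) (by omega)) (sh al (-1) ((i + j - n) - t) ((i + j - 2 * n) - t) (by omega)))) (fun t h1 h2 => (cE (cE (qf a1 al (-1) t (t + (n + i + h - j)) (by omega)) (pb GG al 0 (t + (n + i + h - j)) (t + (n + i + h - j - g)) (by omega))) (sh al (-1) (t + (n + i + h - j - g)) (t + (i + h - j - g)) (by omega))))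
    · by_cases v4 : (de + ph + g) ≤ (i)
      · have kk48 : (j + g + 1) ≤ (i + h) := by clear * - v4 y5 y8 y9; omega
        have kk49 : (i + j + 2) ≤ (h + 2 * de + 2 * ph + g) := by clear * - b0 y13 y2 y3 y9; omega
        have kk50 : (i + j + g + 2) ≤ (3 * h + 2 * de + 2 * ph) := by clear * - b2 v4 y5 y8 y9; omega
        have kk51 : (3 * i + j + 2) ≤ (3 * h + 4 * de + 4 * ph + g) := by clear * - y13 y3 y8 y9 z5; omega
        have kk52 : (h) ≤ (j + g + 1) := by clear * - v1; omega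
        have kk53 : (de + ph + g) ≤ (i) := by clear * - v4; omega
        have r54 : (i + j - 2 * n) % 2 = 0 := by clear * - ev n1p n4p n5p n6p; omega
        have r55 : (i + h - j - g) % 2 = 0 := by clear * - ev n1p n4p n5p n6p; omega
        clear * - al a1 s1 GG kk48 kk49 kk50 kk51 kk52 kk53 r54 r55
        exact midP al (i + h - j - g) (i + j - 2 * n) (i + j - n - h - de - ph + 1) (j + g - n - h + 1) (h + de + ph - n) (by omega) (fun t h1 h2 => (cE (qa s1 al (-1) t ((i + j - n) - t) (by omega)) (sh al (-1) ((i + j - n) - t) ((i + j - 2 * n) - t) (by omega)))) (fun t h1 h2 => (cE (cE (qf a1 al (-1) t (t + (n + i + h - j)) (by omega)) (pb GG al 0 (t + (n + i + h - j)) (t + (n + i + h - j - g)) (by omega))) (sh al (-1) (t + (n + i + h - j - g)) (t + (i + h - j - g)) (by omega))))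
      · have kk56 : (j + g + 1) ≤ (i + h) := by clear * - b0 y11 y2; omega
        have kk57 : (j + g + 2) ≤ (i + h) := by clear * - b0 y11 y2 ev n1p n4p n5p n6p; omega
        have kk58 : (j + 3 * g + 2) ≤ (i + 3 * h) := by clear * - y11 y8 z5; omega
        have kk59 : (h) ≤ (j + g + 1) := by clear * - v1; omega
        have kk60 : (i) ≤ (de + ph + g) := by clear * - v4; omega
        have r61 : (i + j - 2 * n) % 2 = 0 := by clear * - ev n1p n4p n5p n6p; omega
        have r62 : (i + h - j - g) % 2 = 0 := by clear * - ev n1p n4p n5p n6p; omega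
        clear * - al a1 s1 GG kk56 kk57 kk58 kk59 kk60 r61 r62
        exact midP al (i + h - j - g) (i + j - 2 * n) (j + g - n - h + 1) (j + g - n - h + 1) (i + h - n - g) (by omega) (fun t h1 h2 => (cE (qa s1 al (-1) t ((i + j - n) - t) (by omega)) (sh al (-1) ((i + j - n) - t) ((i + j - 2 * n) - t) (by omega)))) (fun t h1 h2 => (cE (cE (qf a1 al (-1) t (t + (n + i + h - j)) (by omega)) (pb GG al 0 (t + (n + i + h - j)) (t + (n + i + h - j - g)) (by omega))) (sh al (-1) (t + (n + i + h - j - g)) (t + (i + h - j - g)) (by omega))))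
  · exact rg1_4 al hy a1 a2 s1 s2 u1 u2 GG HH AL0 AL1 BE T2 n1 n4 n5 n6 (by clear * - b0; omega) (by clear * - b1; omega) (by clear * - b2; omega) (by clear * - z5; omega)

theorem rg1_2 {W : ℤ → G} {n Q i j h de j3 ph g : ℤ} (al : AL W n Q)
    (hy : (0) ≤ (i) ∧ (i) ≤ (j) ∧ (j + 1) ≤ (Q) ∧ (i) ≤ (j3) ∧ (j3 + 1) ≤ (Q) ∧ (0) ≤ (de) ∧ (de + 1) ≤ (j3) ∧ (Q + j3) ≤ (i + h + de) ∧ (j + 1) ≤ (h) ∧ (0) ≤ (ph) ∧ (ph + 1) ≤ (g) ∧ (2 * g) ≤ (h) ∧ (h + j3 + 2 * ph + 2 * g) ≤ (n + i) ∧ (3 * j3 + 1) ≤ (i + h + 2 * de))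
    (a1 : Par W (0) (j) (i + h - j))
    (a2 : Par W (Q + j - i - g) (j) (i + g - j))
    (s1 : Ant W (0) (i) (i + j))
    (s2 : Ant W (j + 1) (Q) (i + j))
    (u1 : Ant W (0) (i) (i + j3))
    (u2 : Ant W (j3 + 1) (Q) (i + j3))
    (GG : Par W (i + 1) (h + de + ph) (g))
    (HH : Par W (i + 1) (de + ph + g) (h))
    (AL0 : Par W (i - ph + 1) (de) (ph))
    (AL1 : Par W (i - ph - g + 1) (de) (h + ph))
    (BE : Par W (de + 1) (j3) (i + h - j3))
    (T2 : Ant W (Q) (i + h + de - j3) (i + 2 * h + 2 * de + ph - j3))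
    (n1 : Nd W (j) (i) (i + h))
    (n4 : Nd W (h + de + ph) (i + h + de - j3) (de))
    (n5 : Nd W (j3) (i) (i + h))
    (n6 : Nd W (j) (i) (i + g))
    (b0 : (Q) ≤ (i + g))
    (b1 : (2 * i + 2 * h + 2 * de + 1) ≤ (2 * Q + 2 * j3 + g)) : False := by
  have ev := al.ev
  obtain ⟨y0, y1, y2, y3, y4, y5, y6, y7, y8, y9, y10, y11, y12, y13⟩ := id hy
  have n1p := And.intro n1.p1 n1.p2
  have n4p := And.intro n4.p1 n4.p2
  have n5p := And.intro n5.p1 n5.p2
  have n6p := And.intro n6.p1 n6.p2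
  by_cases z3 : (j + ph) ≤ (i)
  · by_cases z4 : (de + ph + 1) ≤ (i)
    · have kk13 : (i) ≤ (j + de + ph) := by clear * - y1 y5 y9; omega
      have kk14 : (de + ph + 1) ≤ (i) := by clear * - z4; omega
      have kk15 : (i) ≤ (j + ph) := by clear * - y1 y9; omega
      have kk16 : (j + ph) ≤ (i) := by clear * - z3; omega
      clear * - al a1 n4 kk13 kk14 kk15 kk16
      exact n4.f0 (pb a1 al 0 (h + de + ph) (de) (by omega))
    · have kk17 : (j3 + ph + 2) ≤ (i + g) := by clear * - b0 b1 y1 y11 y13 z3; omega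
      have kk18 : (2 * Q + j3 + g) ≤ (i + 2 * h + 2 * de + ph + 1) := by clear * - b0 y10 y11 y13 z4; omega
      have kk19 : (i + g) ≤ (h + de + ph) := by clear * - b0 b1 y10 y11 y13 z4; omega
      have kk20 : (i + h + de + 1) ≤ (Q + j3 + g) := by clear * - b0 b1 y10 y11 y13 z4; omega
      have r21 : (i + 2 * h + 2 * de + ph - 2 * n - j3 - g) % 2 = 0 := by clear * - ev n1p n4p n5p n6p; omega
      clear * - al GG T2 kk17 kk18 kk19 kk20 r21
      obtain ⟨t, ht⟩ : ∃ t, 2 * t = (i + 2 * h + 2 * de + ph - 2 * n - j3 - g) := ⟨(i + 2 * h + 2 * de + ph - 2 * n - j3 - g) / 2, by omega⟩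
      exact al.ninv t (cE (cI (qf GG al (-1) t (t + (n + g)) (by omega)) (ab T2 al 0 (t + (n + g)) ((i + 2 * h + 2 * de + ph - n - j3 - g) - t) (by omega))) (sh al (-1) ((i + 2 * h + 2 * de + ph - n - j3 - g) - t) t (by omega)))
  · exact rg1_3 al hy a1 a2 s1 s2 u1 u2 GG HH AL0 AL1 BE T2 n1 n4 n5 n6 (by clear * - b0; omega) (by clear * - b1; omega) (by clear * - z3; omega)

theorem rg1_1 {W : ℤ → G} {n Q i j h de j3 ph g : ℤ} (al : AL W n Q)
    (hy : (0) ≤ (i) ∧ (i) ≤ (j) ∧ (j + 1) ≤ (Q) ∧ (i) ≤ (j3) ∧ (j3 + 1) ≤ (Q) ∧ (0) ≤ (de) ∧ (de + 1) ≤ (j3) ∧ (Q + j3) ≤ (i + h + de) ∧ (j + 1) ≤ (h) ∧ (0) ≤ (ph) ∧ (ph + 1) ≤ (g) ∧ (2 * g) ≤ (h) ∧ (h + j3 + 2 * ph + 2 * g) ≤ (n + i) ∧ (3 * j3 + 1) ≤ (i + h + 2 * de))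
    (a1 : Par W (0) (j) (i + h - j))
    (a2 : Par W (Q + j - i - g) (j) (i + g - j))
    (s1 : Ant W (0) (i) (i + j))
    (s2 : Ant W (j + 1) (Q) (i + j))
    (u1 : Ant W (0) (i) (i + j3))
    (u2 : Ant W (j3 + 1) (Q) (i + j3))
    (GG : Par W (i + 1) (h + de + ph) (g))
    (HH : Par W (i + 1) (de + ph + g) (h))
    (AL0 : Par W (i - ph + 1) (de) (ph))
    (AL1 : Par W (i - ph - g + 1) (de) (h + ph))
    (BE : Par W (de + 1) (j3) (i + h - j3))
    (T2 : Ant W (Q) (i + h + de - j3) (i + 2 * h + 2 * de + ph - j3))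
    (n1 : Nd W (j) (i) (i + h))
    (n4 : Nd W (h + de + ph) (i + h + de - j3) (de))
    (n5 : Nd W (j3) (i) (i + h))
    (n6 : Nd W (j) (i) (i + g))
    (b0 : (Q) ≤ (i + g)) : False := by
  have ev := al.ev
  obtain ⟨y0, y1, y2, y3, y4, y5, y6, y7, y8, y9, y10, y11, y12, y13⟩ := id hy
  have n1p := And.intro n1.p1 n1.p2
  have n4p := And.intro n4.p1 n4.p2
  have n5p := And.intro n5.p1 n5.p2
  have n6p := And.intro n6.p1 n6.p2
  by_cases z2 : (2 * Q + 2 * j3 + g) ≤ (2 * i + 2 * h + 2 * de)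
  · have kk5 : (1) ≤ (g) := by clear * - y10 y9; omega
    have kk6 : (2 * Q + 2 * j3 + g) ≤ (2 * i + 2 * h + 2 * de) := by clear * - z2; omega
    have kk7 : (2 * j3 + g + 2) ≤ (2 * h + 2 * de) := by clear * - y10 y11 y13 y3 y9; omega
    have kk8 : (2) ≤ (g) := by clear * - y10 y9 ev n1p n4p n5p n6p; omega
    have kk9 : (i) ≤ (h + de + ph) := by clear * - y10 y11 y13 y3 y9; omega
    have kk10 : (i) ≤ (j3 + ph + g) := by clear * - y10 y3 y9; omega
    have r11 : (i + 2 * h + 2 * de + ph - j3) % 2 = 0 := by clear * - ev n1p n4p n5p n6p; omega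
    have r12 : (g) % 2 = 0 := by clear * - ev n1p n4p n5p n6p; omega
    clear * - al GG T2 kk5 kk6 kk7 kk8 kk9 kk10 r11 r12
    exact midP al (g) (i + 2 * h + 2 * de + ph - j3) (h + de + ph + 1) (i + 1) (h + de + ph + g) (by omega) (fun t h1 h2 => (ab T2 al 0 t ((i + 2 * h + 2 * de + ph - j3) - t) (by omega))) (fun t h1 h2 => (qf GG al 0 t (t + (g)) (by omega)))
  · exact rg1_2 al hy a1 a2 s1 s2 u1 u2 GG HH AL0 AL1 BE T2 n1 n4 n5 n6 (by clear * - b0; omega) (by clear * - z2; omega)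

theorem rg1 {W : ℤ → G} {n Q i j h de j3 ph g : ℤ} (al : AL W n Q)
    (hy : (0) ≤ (i) ∧ (i) ≤ (j) ∧ (j + 1) ≤ (Q) ∧ (i) ≤ (j3) ∧ (j3 + 1) ≤ (Q) ∧ (0) ≤ (de) ∧ (de + 1) ≤ (j3) ∧ (Q + j3) ≤ (i + h + de) ∧ (j + 1) ≤ (h) ∧ (0) ≤ (ph) ∧ (ph + 1) ≤ (g) ∧ (2 * g) ≤ (h) ∧ (h + j3 + 2 * ph + 2 * g) ≤ (n + i) ∧ (3 * j3 + 1) ≤ (i + h + 2 * de))
    (a1 : Par W (0) (j) (i + h - j))
    (a2 : Par W (Q + j - i - g) (j) (i + g - j))
    (s1 : Ant W (0) (i) (i + j))
    (s2 : Ant W (j + 1) (Q) (i + j))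
    (u1 : Ant W (0) (i) (i + j3))
    (u2 : Ant W (j3 + 1) (Q) (i + j3))
    (GG : Par W (i + 1) (h + de + ph) (g))
    (HH : Par W (i + 1) (de + ph + g) (h))
    (AL0 : Par W (i - ph + 1) (de) (ph))
    (AL1 : Par W (i - ph - g + 1) (de) (h + ph))
    (BE : Par W (de + 1) (j3) (i + h - j3))
    (T2 : Ant W (Q) (i + h + de - j3) (i + 2 * h + 2 * de + ph - j3))
    (n1 : Nd W (j) (i) (i + h))
    (n4 : Nd W (h + de + ph) (i + h + de - j3) (de))
    (n5 : Nd W (j3) (i) (i + h))
    (n6 : Nd W (j) (i) (i + g)) : False := by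
  have ev := al.ev
  obtain ⟨y0, y1, y2, y3, y4, y5, y6, y7, y8, y9, y10, y11, y12, y13⟩ := id hy
  have n1p := And.intro n1.p1 n1.p2
  have n4p := And.intro n4.p1 n4.p2
  have n5p := And.intro n5.p1 n5.p2
  have n6p := And.intro n6.p1 n6.p2
  by_cases z1 : (i + g + 1) ≤ (Q)
  · have kk1 : (1) ≤ (g) := by clear * - y10 y9; omega
    have kk2 : (g + 1) ≤ (n) := by clear * - y10 y11 y12 y3 y9; omega
    have kk3 : (i + g + 1) ≤ (Q) := by clear * - z1; omega
    have kk4 : (Q) ≤ (h + de + ph) := by clear * - y3 y7 y9; omega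
    clear * - al GG kk1 kk2 kk3 kk4
    exact al.ubQ (g) (by omega) (by omega) fun t h1 h2 => (cE (sh al 1 t (t + (n)) (by omega)) (qf GG al 1 (t + (n)) (t + (g)) (by omega)))
  · exact rg1_1 al hy a1 a2 s1 s2 u1 u2 GG HH AL0 AL1 BE T2 n1 n4 n5 n6 (by clear * - z1; omega)

end Pool.Agent.MP_a38735_al.WL
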