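import Pool.Agent.MP_a38735_al.Zf
import Pool.Agent.MP_a38735_al.Zw24
import Pool.Agent.MP_a38735_al.Zw25
import Pool.Agent.MP_a38735_al.Zw26
import Pool.Agent.MP_a38735_al.Zw27
import Pool.Agent.MP_a38735_al.Zw28
import Pool.Agent.MP_a38735_al.Zw29

set_option autoImplicit false

namespace Pool.Agent.MP_a38735_al.WL

variable {G : Type*} [Group G] {W : ℤ → G}

/-- the system modulo a common period `g` of the long run -/
theorem zmod {n Q i j h de j3 ph g : ℤ} (al : AL W n Q)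
    (hy : 0 ≤ i ∧ i ≤ j ∧ j < Q ∧ i ≤ j3 ∧ j3 < Q ∧ 0 ≤ de ∧ de < j3 ∧ Q + j3 ≤ i + h + de ∧
      j < h ∧ 0 ≤ ph ∧ ph < g ∧ (g = h ∨ 2 * g ≤ h) ∧ h + j3 + 2 * ph + 2 * g ≤ n + i ∧
      3 * j3 + 1 ≤ i + h + 2 * de)
    (a1 : Par W 0 j (i + h - j)) (a2 : Par W (Q + j - i - g) j (i + g - j))
    (s1 : Ant W 0 i (i + j)) (s2 : Ant W (j + 1) Q (i + j)) (u1 : Ant W 0 i (i + j3))
    (u2 : Ant W (j3 + 1) Q (i + j3)) (GG : Par W (i + 1) (h + de + ph) g)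
    (HH : Par W (i + 1) (de + ph + g) h) (AL0 : Par W (i - ph + 1) de ph)
    (AL1 : Par W (i - ph - g + 1) de (h + ph)) (BE : Par W (de + 1) j3 (i + h - j3))
    (T2 : Ant W Q (i + h + de - j3) (i + 2 * h + 2 * de + ph - j3)) (n1 : Nd W j i (i + h))
    (n4 : Nd W (h + de + ph) (i + h + de - j3) de) (n5 : Nd W j3 i (i + h))
    (n6 : Nd W j i (i + g)) : False := by
  by_cases e : 2 * g ≤ h
  · exact rg1 al (by omega) a1 a2 s1 s2 u1 u2 GG HH AL0 AL1 BE T2 n1 n4 n5 n6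
  obtain rfl : g = h := by omega
  replace AL1 := AL1.cq (a' := i - g - ph + 1) (b' := de) (g' := g + ph) (by omega)
  by_cases c1 : de ≤ i
  · exact rz3 al (by omega) a1 a2 s1 s2 u1 u2 GG AL0 AL1 BE T2 n1 n4 n5
  rcases lt_trichotomy j j3 with c2 | c2 | c2
  · rcases lt_trichotomy de j with c3 | c3 | c3
    · exact rz5 al (by omega) a1 a2 s1 s2 u1 u2 GG AL0 AL1 BE T2 n1 n4 n5
    · exact rz6 al (by omega) a1 a2 s1 s2 u1 u2 GG AL0 AL1 BE T2 n1 n4 n5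
    · exact rz7 al (by omega) a1 a2 s1 s2 u1 u2 GG AL0 AL1 BE T2 n1 n4 n5
  · exact rz4 al (by omega) a1 a2 s1 s2 u1 u2 GG AL0 AL1 BE T2 n1 n4 n5
  · exact rz2 al (by omega) a1 a2 s1 s2 u1 u2 GG AL0 AL1 BE T2 n1 n4 n5

/-- both the first and the last strip begin after `i`: the long run has the period `h` -/
theorem zper {n Q i k p q x j3 k3 h : ℤ} (al : AL W n Q)
    (hy : q = p + k - i ∧ j3 + n = k3 + q - x ∧ i < k ∧ 0 ≤ j3 ∧ k + k3 < n + i ∧ i < x ∧ q < k3 ∧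
      h = k3 - q + x - i)
    (b : Par W (i + 1) p (k - i)) (c : Par W (x + 1) k3 (q - x)) (d2 : Par W (k3 + 1) n (i - k3)) :
    ∀ t, i + 1 ≤ t → t + h < q → W (t + h) = W t :=
  per_ext (b := k - i) (m := n - k3 + i) (by omega) (by omega) (by omega)
    (fun t _ _ => (pb c al 0 (t + k3 - i) _ (by omega)).trans (pb d2 al 0 t _ (by omega)))
    fun t _ _ => qf b al 0 t _ (by omega)

theorem zred1 {n Q i j k p q x j3 k3 h de f ph g : ℤ} (al : AL W n Q)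
    (E : p = h + de + f ∧ x = h + de - j3 + i ∧ q = p + k - i ∧ k3 = q + j3 - de ∧
      n = q + q - x - de)
    (hy : 0 ≤ i ∧ i ≤ j ∧ j < Q ∧ Q ≤ x ∧ i ≤ j3 ∧ j3 < Q ∧ 0 ≤ de ∧ de < j3 ∧ j < h ∧ 0 ≤ ph ∧
      ph < g ∧ ph ≤ f ∧ g ≤ k - i ∧ g ≤ h ∧ i < k - j ∧ 2 * (x - Q) < k - i)
    (pd : ∀ (u v w z s t : ℤ), t - s = u * h + v * (k - i) + w * (f - ph) + z * g →
      i < s ∧ s < q ∧ i < t ∧ t < q → W t = W s)
    (a1 : Par W 0 j (k - j)) (a2 : Par W (Q - (k - j)) j (k - j)) (s1 : Ant W 0 i (i + j))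
    (s2 : Ant W (j + 1) Q (i + j)) (tt : Ant W Q x (x + p))
    (c : Par W (x + 1) k3 (q - x)) (u1 : Ant W 0 i (i + j3)) (u2 : Ant W (j3 + 1) Q (i + j3))
    (n1 : Nd W j i k) (n2 : Nd W p x q) (n3 : Nd W j3 i k3) :
    (g = h ∨ 2 * g ≤ h) → 3 * j3 + 1 ≤ i + h + 2 * de → ph % 2 = 0 ∧ h % 2 = 0 ∧ g % 2 = 0 →
      False := by
  have cn : ∀ t, de - (q - x) < t → t < j3 → W (t + n - (q - x)) = W t := fun t _ _ =>
    pb c al (-1) t _ (by omega)
  have A1 : Par W 0 j (i + h - j) := fun t _ _ =>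
    (pd 1 (-1) 0 0 (t + (k - j)) _ (by ring) (by omega)).trans (a1 t ‹_› ‹_›)
  have A2 : Par W (Q + j - i - g) j (i + g - j) := fun t _ _ =>
    (pd 0 (-1) 0 1 (t + (k - j)) _ (by ring) (by omega)).trans (a2 t (by omega) ‹_›)
  have GG : Par W (i + 1) (h + de + ph) g := fun t _ _ => pd 0 0 0 1 t _ (by ring) (by omega)
  have HH : Par W (i + 1) (de + ph + g) h := fun t _ _ => pd 1 0 0 0 t _ (by ring) (by omega)
  have AL0 : Par W (i - ph + 1) de ph := fun t _ _ =>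
    (pd (-1) (-1) (-1) 0 (t + n - (q - x)) _ (by omega) (by omega)).trans
      (cn t (by omega) (by omega))
  have AL1 : Par W (i - ph - g + 1) de (h + ph) := fun t _ _ =>
    (pd 0 (-1) (-1) 0 (t + n - (q - x)) _ (by omega) (by omega)).trans (cn t (by omega) (by omega))
  have BE : Par W (de + 1) j3 (i + h - j3) := fun t _ _ =>
    (pb c al 0 (t + n - (q - x)) _ (by omega)).trans (cn t (by omega) (by omega))
  have T2 : Ant W Q (i + h + de - j3) (i + 2 * h + 2 * de + ph - j3) := fun t _ _ =>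
    (pd 0 0 (-1) 0 (x + p - t) _ (by omega) (by omega)).trans (tt t ‹_› (by omega))
  have e1 : W (i + h) = W k := pd 1 (-1) 0 0 _ _ (by ring) (by omega)
  have e2 : W (i + g) = W k := pd 0 (-1) 0 1 _ _ (by ring) (by omega)
  have e3 : W (i + h) = W k3 := pb c al 0 k3 _ (by omega)
  have e4 : W (h + de + ph) = W p := pd 0 0 (-1) 0 _ _ (by omega) (by omega)
  have e5 : W (i + h + de - j3) = W x := congrArg W (by omega)
  have e6 : W de = W q :=
    (sh al (-1) (q + (q - x)) de (by omega)).trans (c q (by omega) (by omega))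
  have hn : h + j3 + 2 * ph + 2 * g ≤ n + i := by omega
  have hx : Q + j3 ≤ i + h + de := by omega
  clear E
  intro l2 l3 pr
  have p1 := n1.p1
  have p3 := n3.p1
  exact zmod al (by clear pr p1 p3; omega) A1 A2 s1 s2 u1 u2 GG HH AL0 AL1 BE T2
    (n1.tr rfl rfl e1 (by clear * - pr p1; omega)) (n2.tr e4 e5 e6 (by clear * - pr p3; omega))
    (n3.tr rfl rfl e3 (by clear * - pr p3; omega)) (n1.tr rfl rfl e2 (by clear * - pr p1; omega))

theorem zred {n Q i j k p q x j3 k3 L : ℤ} (al : AL W n Q) (lm : Lm W n Q L)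
    (hL : L + k3 - x + 2 ≤ n)
    (hy : 0 ≤ i ∧ i ≤ j ∧ j < Q ∧ Q ≤ k ∧ q = p + k - i ∧ q < n ∧ Q ≤ x ∧ x ≤ p ∧ k3 < n ∧
      j3 + n = k3 + q - x ∧ i ≤ j3 ∧ j3 < Q)
    (hz : k + k3 < n + i ∧ 2 * (x - Q) < k - i ∧ i < k - j ∧ q < k3 ∧ n ≤ q + q - x ∧
      j < k3 - q + x - i)
    (a1 : Par W 0 j (k - j)) (a2 : Par W (Q - (k - j)) j (k - j)) (s1 : Ant W 0 i (i + j))
    (s2 : Ant W (j + 1) Q (i + j)) (b : Par W (i + 1) p (k - i)) (tt : Ant W Q x (x + p))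
    (c : Par W (x + 1) k3 (q - x)) (u1 : Ant W 0 i (i + j3)) (u2 : Ant W (j3 + 1) Q (i + j3))
    (d2 : Par W (k3 + 1) n (i - k3)) (n1 : Nd W j i k) (n2 : Nd W p x q) (n3 : Nd W j3 i k3) :
    False := by
  have mc := lm.mx _ _ _ (by omega) (by omega) c
  obtain ⟨h, hh⟩ : ∃ h, h = k3 - q + x - i := ⟨_, rfl⟩
  obtain ⟨de, hd⟩ : ∃ de, de = q + q - x - n := ⟨_, rfl⟩
  obtain ⟨f, hf⟩ : ∃ f, f = p - x - j3 + i := ⟨_, rfl⟩
  have l3 : 3 * j3 + 1 ≤ i + h + 2 * de := by omega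
  clear mc hL
  have H := zper (h := h) (j3 := j3) al (by omega) b c d2
  obtain ⟨g, g0, ⟨mh, gh⟩, ⟨mb, gb⟩, g2, R⟩ := fwilf (lo := i + 1) (hi := q) (a := h) (b := k - i)
    (by omega) (by omega) (by omega) H fun t _ _ => qf b al 0 t _ (by omega)
  have pr : h % 2 = 0 ∧ (k - i) % 2 = 0 ∧ f % 2 = 0 := by
    have := And.intro (And.intro n1.p1 n1.p2) (And.intro (And.intro n2.p1 n2.p2)
      (And.intro n3.p1 n3.p2))
    clear * - this hh hf
    omega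
  replace g2 := g2 (by omega) (by omega)
  have f0 : 0 ≤ f := by omega
  have f1 := Int.emod_nonneg f g0.ne'
  have f2 := Int.emod_lt_of_pos f g0
  have f3 := Int.emod_add_mul_ediv f g
  have f4 : 0 ≤ g * (f / g) := Int.mul_nonneg g0.le (Int.ediv_nonneg f0 g0.le)
  have f5 : 2 ∣ g * (f / g) := g2.mul_right _
  have h0 : 0 < h := by omega
  have l1 : g ≤ k - i := Int.le_of_dvd (by omega) ⟨mb, gb⟩
  have l2 : g = h ∨ 2 * g ≤ h := by
    clear * - g0 gh h0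
    have : 0 < mh := by nlinarith
    by_cases z : mh = 1
    · left; rw [gh, z, mul_one]
    · right; nlinarith [show 2 ≤ mh by omega]
  generalize f % g = ph at f1 f2 f3
  refine zred1 (h := h) (de := de) (f := f) (ph := ph) (g := g) al (by omega) ?_
    (fun u v w z s t e r => per_dvd g0 R ⟨u * mh + v * mb + w * (f / g) + z, ?_⟩ (by omega))
    a1 a2 s1 s2 tt c u1 u2 n1 n2 n3 l2 l3 (by clear * - pr g2 f3 f5; omega)
  · clear pr g2 f5 gh gb
    omega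
  · rw [e, gh, gb, show f - ph = g * (f / g) by omega]
    ring

end Pool.Agent.MP_a38735_al.WL
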