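import Pool.Agent.MP_a38735_al.R3
import Pool.Agent.MP_a38735_al.XR
import Pool.Agent.MP_a38735_al.Zx
import Pool.Agent.MP_a38735_al.Zw16
import Pool.Agent.MP_a38735_al.Zw17
import Pool.Agent.MP_a38735_al.Zw18
import Pool.Agent.MP_a38735_al.Zw19
import Pool.Agent.MP_a38735_al.Zw20
import Pool.Agent.MP_a38735_al.Zw21
import Pool.Agent.MP_a38735_al.Zw22
import Pool.Agent.MP_a38735_al.Zw23

set_option autoImplicit false

namespace Pool.Agent.MP_a38735_al.WL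

variable {G : Type*} [Group G]

theorem l2w : L2w G := by
  intro W n Q i j k p q i2 i3 j3 k3 L al lm bd1 bd3 hL hA hB hy hz a1 a2 s1 s2 b tt c u1 u2 d1 d2
    n1 n2 n3
  clear hA
  have p1 := n1.p2
  have p3 := n3.p2
  by_cases r : i3 = i ∧ i < k - j ∧ q < k3 ∧ n ≤ q + q - i2
  · obtain ⟨rfl, r⟩ := r
    by_cases r2 : j < k3 - q + i2 - i3
    · exact zred al lm (by omega) (by omega) (by omega) a1 a2 s1 s2 b tt c u1 u2 d2 n1 n2 n3
    have H := zper (h := k3 - q + i2 - i3) (j3 := j3) al (by omega) b c d2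
    obtain ⟨l, rfl⟩ : ∃ l, p = i3 + l + 1 := ⟨p - i3 - 1, by omega⟩
    obtain ⟨l2, rfl⟩ : ∃ l2, k3 = i2 + l2 + 1 := ⟨k3 - i2 - 1, by omega⟩
    obtain rfl : q = k + l + 1 := by omega
    obtain rfl : j3 = k + l + l2 - n + 2 := by omega
    exact yh4 al (by omega) a1 (a2.cq (by omega)) s1 s2 b (tt.cq (by omega)) (c.cq (by omega))
      (u1.cq (by omega)) (u2.cq (by omega)) (d1.cq (by omega)) (d2.cq (by omega))
      (fun t _ _ => (congrArg W (by omega)).trans (H t ‹_› (by omega))) lm.mx (by omega)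
      bd1 bd3 n1 n2 n3
  have B1 := fun h : i < i3 => hB i le_rfl h.le h.ne
  have B2 := fun h : i3 < i => hB i3 h.le le_rfl h.ne'
  clear hB
  obtain ⟨l, rfl⟩ : ∃ l, p = i + l + 1 := ⟨p - i - 1, by omega⟩
  obtain ⟨l2, rfl⟩ : ∃ l2, k3 = i2 + l2 + 1 := ⟨k3 - i2 - 1, by omega⟩
  obtain rfl : q = k + l + 1 := by omega
  obtain rfl : j3 = k + l + l2 - n + 2 := by omega
  replace a2 := a2.cq (a' := Q + j - k) (b' := j) (g' := k - j) (by omega)
  replace tt := tt.cq (a' := Q) (b' := i2) (g' := i + l + i2 + 1) (by omega)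
  replace c := c.cq (a' := i2 + 1) (b' := i2 + l2 + 1) (g' := k + l - i2 + 1) (by omega)
  replace u1 := u1.cq (a' := 0) (b' := i3) (g' := k + l + l2 + i3 - n + 2) (by omega)
  replace u2 := u2.cq (a' := k + l + l2 - n + 3) (b' := Q) (g' := k + l + l2 + i3 - n + 2)
    (by omega)
  replace d1 := d1.cq (a' := i3 + 1) (b' := Q) (g' := i2 + l2 - i3 + 1) (by omega)
  replace d2 := d2.cq (a' := i2 + l2 + 2) (b' := n) (g' := i3 - i2 - l2 - 1) (by omega)
  have mx := lm.mx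
  by_cases e0 : k - j ≤ i3
  · exact xa1 al (by omega) a1 a2 s1 s2 b tt c u1 u2 d1 d2 mx (by omega) bd1 bd3 n1 n2 n3
  by_cases e1 : i2 + l2 ≤ i + l
  · exact ya1 al (by omega) a1 a2 s1 s2 b tt c u1 u2 d1 d2 mx (by omega) bd1 bd3 n1 n2 n3
  rcases lt_trichotomy i i3 with e2 | e2 | e2
  · have := B1 e2
    rcases lt_trichotomy (i2 + l2) (k + l) with e3 | e3 | e3
    · exact t1a al (by omega) a1 a2 s1 s2 b tt c u1 u2 d1 d2 mx (by omega) bd1 bd3 n1 n2 n3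
    · exact t2b al (by omega) a1 a2 s1 s2 b tt c u1 u2 d1 d2 mx (by omega) bd1 bd3 n1 n2 n3
    by_cases e4 : n + i2 ≤ 2 * k + 2 * l + 2
    · exact t2d al (by omega) a1 a2 s1 s2 b tt c u1 u2 d1 d2 mx (by omega) bd1 bd3 n1 n2 n3
    · exact t2c al (by omega) a1 a2 s1 s2 b tt c u1 u2 d1 d2 mx (by omega) bd1 bd3 n1 n2 n3
  · rcases lt_trichotomy (i2 + l2) (k + l) with e3 | e3 | e3
    · exact t4 al (by omega) a1 a2 s1 s2 b tt c u1 u2 d1 d2 mx (by omega) bd1 bd3 n1 n2 n3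
    · exact yf2 al (by omega) a1 a2 s1 s2 b tt c u1 u2 d1 d2 mx (by omega) bd1 bd3 n1 n2 n3
    · exact t6 al (by omega) a1 a2 s1 s2 b tt c u1 u2 d1 d2 mx (by omega) bd1 bd3 n1 n2 n3
  · have := B2 e2
    by_cases e3 : i2 + l2 < k + l
    · exact t1c al (by omega) a1 a2 s1 s2 b tt c u1 u2 d1 d2 mx (by omega) bd1 bd3 n1 n2 n3
    · exact t3c al (by omega) a1 a2 s1 s2 b tt c u1 u2 d1 d2 mx (by omega) bd1 bd3 n1 n2 n3

theorem l2z : L2z G := l2z_of l2w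

theorem l2x : L2x G := l2x_of2 l2z

end Pool.Agent.MP_a38735_al.WL
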