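import Pool.Agent.MP_a38735_al.RuleH3
import Pool.Agent.MP_a38735_al.StL1
import Pool.Agent.MP_a38735_al.StL2a
import Pool.Agent.MP_a38735_al.StL3c
import Pool.Agent.MP_a38735_al.Zy
import Pool.Agent.MP_a38735_al.StA
import Pool.Agent.MP_a38735_al.Final

set_option autoImplicit false

namespace Pool.Agent.MP_a38735_al

open Monoid

/-- the Freiheitssatz for torsion-free factors and `m ≥ 2` -/
theorem tf_all (A B : Type) [Group A] [Group B]
    (tA : ∀ a : A, ∀ n : ℕ, 0 < n → a ^ n = 1 → a = 1)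
    (tB : ∀ b : B, ∀ n : ℕ, 0 < n → b ^ n = 1 → b = 1) (r : Coprod A B)
    (h1 : ∀ g : Coprod A B, ∀ a : A, r ≠ g * Coprod.inl a * g⁻¹)
    (h2 : ∀ g : Coprod A B, ∀ b : B, r ≠ g * Coprod.inr b * g⁻¹)
    (h3 : ∀ s : Coprod A B, ∀ k : ℕ, 2 ≤ k → s ^ k ≠ r) (m : ℕ) (hm : 2 ≤ m) :
    Function.Injective
        ((QuotientGroup.mk' (Subgroup.normalClosure ({r ^ m} : Set (Coprod A B)))).comp
          (Coprod.inl : A →* Coprod A B)) ∧
      Function.Injective
        ((QuotientGroup.mk' (Subgroup.normalClosure ({r ^ m} : Set (Coprod A B)))).comp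
          (Coprod.inr : B →* Coprod A B)) :=
  tf_coprod A B (WL.stA _)
    (ruleH3 fp_coprod (WL.stL1 _) (WL.stL2_of WL.l2x) (WL.stL3z _)) tA tB r h1 h2 h3 m hm

end Pool.Agent.MP_a38735_al
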