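import Pool.Agent.MP_a38735_al.Stack
import Pool.Agent.MP_a38735_al.WL

set_option autoImplicit false
set_option linter.unusedSectionVars false

namespace Pool.Agent.MP_a38735_al

open WL

variable {G : Type*} [Group G] {H : Bool → Subgroup G}

/-- there is no real chain of length one with `i ≤ j` in the first part -/
def NoCh (H : Bool → Subgroup G) (W : ℤ → G) (n Q : ℤ) : Prop :=
  ∀ i j k : ℤ, 0 ≤ i → i ≤ j → j < Q → Q ≤ k → k < n → fac H (W j) = fac H (W i) →
    fac H (W i) = fac H (W k) → W j * W i = W k → Par W 0 j (k - j) →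
    Par W (Q - (k - j)) j (k - j) → Par W (i + 1) Q (k - i) →
    Par W (i + 1) (n - (k - i)) (k - i) → (Ant W 0 i (i + j) ∨ Ant W (j + 1) Q (i + j)) → False

theorem fac_parZ {W : ℤ → G} (hf : ∀ t, fac H (W (t + 1)) ≠ fac H (W t)) (s t : ℤ) :
    fac H (W s) = fac H (W t) ↔ (s - t) % 2 = 0 := by
  have k : ∀ t : ℤ, fac H (W t) = fac H (W 0) ↔ t % 2 = 0 := fun t => by
    induction t using Int.induction_on with
    | zero => simp
    | succ t ih =>
      have := hf t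
      rw [show ((t : ℤ) + 1) % 2 = 0 ↔ ¬ (t : ℤ) % 2 = 0 by omega, ← ih]
      revert this
      cases fac H (W (t + 1)) <;> cases fac H (W t) <;> cases fac H (W 0) <;> simp
    | pred t ih =>
      have := hf (-t - 1)
      rw [sub_add_cancel] at this
      rw [show (-(t : ℤ) - 1) % 2 = 0 ↔ ¬ (-(t : ℤ)) % 2 = 0 by omega, ← ih]
      revert this
      cases fac H (W (-t - 1)) <;> cases fac H (W (-t)) <;> cases fac H (W 0) <;> simp
  rw [show (s - t) % 2 = 0 ↔ (s % 2 = 0 ↔ t % 2 = 0) by omega, ← k, ← k]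
  cases fac H (W s) <;> cases fac H (W t) <;> cases fac H (W 0) <;> simp

/-- a periodic word with a stacking whose minimum is at `0` and whose maximum is at `Q` -/
structure SW (H : Bool → Subgroup G) (W : ℤ → G) (r : ℤ → ℤ) (n Q : ℤ) : Prop where
  per : ∀ t, W (t + n) = W t
  hf : ∀ t, fac H (W (t + 1)) ≠ fac H (W t)
  tf : ∀ t (m : ℕ), 0 < m → W t ^ m ≠ 1
  q0 : 0 < Q
  qn : Q < n
  rper : ∀ t, r (t + n) = r t
  inj : ∀ s t, r s = r t → n ∣ s - t
  mn : ∀ t, r 0 ≤ r t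
  mx : ∀ t, r t ≤ r Q
  par : ∀ p q, W p = W q → (r p < r q ↔ r (p + 1) < r (q + 1))
  ant : ∀ p q, W p = (W q)⁻¹ → (r p < r (q + 1) ↔ r (p + 1) < r q)

variable {W : ℤ → G} {r : ℤ → ℤ} {n Q : ℤ}

theorem SW.ev (h : SW H W r n Q) : n % 2 = 0 := by
  simpa using (fac_parZ h.hf (0 + n) 0).1 (by rw [h.per])

theorem SW.ne (h : SW H W r n Q) {s t : ℤ} (k : (0 < s - t ∧ s - t < n) ∨ (s - t) % 2 = 1) :
    r s ≠ r t := fun e => by
  have d := h.inj s t e
  rcases k with k | k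
  · have := Int.le_of_dvd k.1 d
    omega
  · have := (Int.dvd_of_emod_eq_zero h.ev).trans d
    omega

theorem SW.par_run (h : SW H W r n Q) {a b g : ℤ} (k : Par W a b g) (ab : a ≤ b) :
    (r a < r (a + g) ↔ r b < r (b + g)) ∧ (r (a + g) < r a ↔ r (b + g) < r b) := by
  induction b, ab using Int.leInduction with
  | base => exact ⟨Iff.rfl, Iff.rfl⟩
  | succ b ab ih =>
    have e := k b ab (by omega)
    have ih := ih fun t h1 h2 => k t h1 (by omega)
    rw [ih.1, ih.2, add_right_comm b 1 g]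
    exact ⟨h.par _ _ e.symm, h.par _ _ e⟩

theorem SW.ant_run (h : SW H W r n Q) {a b c : ℤ} (k : Ant W a b c) (ab : a ≤ b) :
    (r a < r (c - a + 1) ↔ r b < r (c - b + 1)) ∧
      (r (c - a + 1) < r a ↔ r (c - b + 1) < r b) := by
  induction b, ab using Int.leInduction with
  | base => exact ⟨Iff.rfl, Iff.rfl⟩
  | succ b ab ih =>
    have e := k b ab (by omega)
    have ih := ih fun t h1 h2 => k t h1 (by omega)
    rw [ih.1, ih.2, show c - (b + 1) + 1 = c - b by ring]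
    exact ⟨h.ant _ _ (by rw [e, inv_inv]), (h.ant _ _ e).symm⟩

theorem SW.ant_par (h : SW H W r n Q) {a b c : ℤ} (k : Ant W a b c) (ab : a < b) : c % 2 = 0 := by
  have := (fac_parZ h.hf (c - a) a).1 (by rw [k a le_rfl ab, fac_inv])
  omega

/-- `p, q, L` is a longest parallel strip -/
structure Lg (W : ℤ → G) (n p q L : ℤ) : Prop where
  h1 : 0 < q - p
  h2 : q - p < n
  h3 : (q - p) % 2 = 0
  h4 : 0 ≤ L
  h5 : Par W p (p + L) (q - p)
  h6 : W (p + L) ≠ W (q + L)
  h7 : W (p - 1) ≠ W (q - 1)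
  h8 : ∀ a g, 0 < g → g < n → ¬ Par W a (a + L + 1) g

theorem SW.al (h : SW H W r n Q) {a b c d : G}
    (lg : 2 < n → ∃ p q L, Lg W n p q L ∧ a = W (p + L) ∧ b = W (q + L) ∧ c = W (p - 1) ∧
      d = W (q - 1))
    (tri : ∀ j i k, fac H (W j) = fac H (W i) → fac H (W i) = fac H (W k) → W j * W i = W k →
      ((W j = a ∧ W k = b) ∨ (W j = b ∧ W k = a) ∨ (W i = c ∧ W k = d) ∨ (W i = d ∧ W k = c)) →
      ¬ (r j < r k ∧ r i < r (j + 1) ∧ r (k + 1) < r (i + 1)) ∧
        ¬ (r k < r j ∧ r (j + 1) < r i ∧ r (i + 1) < r (k + 1))) : AL W n Q := by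
  have q0 := h.q0
  have qn := h.qn
  have rn : r n = r 0 := by simpa using h.rper 0
  refine ⟨h.per, fun t => Stk.TF.ne (h.tf t), q0, qn, h.ev, fun l l0 ln k => ?_,
    fun l l0 ln k => ?_, fun g l0 ln k => ?_, fun g l0 ln k => ?_, fun c k => ?_, fun c k => ?_,
    h.tf, r, h.rper, h.inj, h.mn, h.mx, h.par, h.ant, fun n2 => ?_⟩
  · have := (h.par_run k (by omega)).1.2
      ((h.mn _).lt_of_ne (h.ne (Or.inl (by omega))).symm)
    rw [neg_add_cancel] at this
    exact this.not_ge (h.mn _)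
  · have := (h.par_run k (by omega)).2.2 ((h.mx _).lt_of_ne (h.ne (Or.inl (by omega))))
    rw [sub_add_cancel] at this
    exact this.not_ge (h.mx _)
  · exact ((h.par_run k q0.le).1.1
      ((h.mn _).lt_of_ne (h.ne (Or.inl (by omega))).symm)).not_ge (h.mx _)
  · exact ((h.par_run k qn.le).2.1
      ((h.mx _).lt_of_ne (h.ne (Or.inl (by omega))))).not_ge (rn ▸ h.mn _)
  · have := h.ant_par k q0
    exact ((h.ant_run k q0.le).1.1
      ((h.mn _).lt_of_ne (h.ne (Or.inr (by omega))).symm)).not_ge (h.mx _)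
  · have := h.ant_par k qn
    exact ((h.ant_run k qn.le).2.1
      ((h.mx _).lt_of_ne (h.ne (Or.inr (by omega))))).not_ge (rn ▸ h.mn _)
  · obtain ⟨p, q, L, l, rfl, rfl, rfl, rfl⟩ := lg n2
    refine ⟨p, q - p, L, l.h4, l.h5, ?_⟩
    rw [show p + L + (q - p) = q + L by ring, show p - 1 + (q - p) = q - 1 by ring]
    refine ⟨l.h6, l.h7, fun a b g g0 gn k => ?_, fun j i k p1 p2 =>
      tri j i k ((fac_parZ h.hf _ _).2 p1) ((fac_parZ h.hf _ _).2 (by omega))⟩
    by_contra z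
    exact l.h8 a g g0 gn fun t h1 h2 => k t h1 (by omega)

theorem SW.noch (hA : StA G) (h : SW H W r n Q) (al : AL W n Q) {a b c d : G}
    (lg : 2 < n → ∃ p q L, Lg W n p q L ∧ a = W (p + L) ∧ b = W (q + L) ∧ c = W (p - 1) ∧
      d = W (q - 1))
    (tri : ∀ j i k, fac H (W j) = fac H (W i) → fac H (W i) = fac H (W k) → W j * W i = W k →
      ((W j = a ∧ W k = b) ∨ (W j = b ∧ W k = a) ∨ (W i = c ∧ W k = d) ∨ (W i = d ∧ W k = c)) →
      ¬ (r j < r k ∧ r i < r (j + 1) ∧ r (k + 1) < r (i + 1))) : NoCh H W n Q := by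
  intro i j k i0 ij jQ Qk kn f1 f2 e a1 a2 b1 b2 s
  have p1 := (fac_parZ h.hf _ _).1 f1
  have p2 := (fac_parZ h.hf _ _).1 f2
  have qn := h.qn
  obtain ⟨p, q, L, lg', rfl, rfl, rfl, rfl⟩ := lg (by omega)
  have one : ∀ t, W t ≠ 1 := fun t k => h.tf t 1 one_pos (by simpa using k)
  have nd : Nd W j i k := by
    refine ⟨p1, by omega, fun z => one i ?_, fun z => one j ?_, fun z => one k ?_, fun z => ?_, e⟩
    · simpa [← z] using e
    · simpa [← z] using e
    · simp [← e, z]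
    · refine h.tf j 3 (by norm_num) ?_
      rw [z.1] at e
      rw [pow_three', e, z.2, inv_mul_cancel]
  refine tri j i k f1 f2 e (hA W n Q i j k p q L al i0 ij jQ Qk kn nd a1 a2 b1 b2 lg'.h1 lg'.h2
    lg'.h3 lg'.h4 lg'.h5 lg'.h6 lg'.h7 lg'.h8) ⟨?_, ?_, ?_⟩
  · simpa using (h.par_run a1 (by omega)).1.1
      ((h.mn _).lt_of_ne (h.ne (Or.inl (by omega))).symm)
  · rcases s with s | s
    · simpa using (h.ant_run s i0).1.1 ((h.mn _).lt_of_ne (h.ne (Or.inr (by omega))).symm)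
    · have := (h.ant_run s (by omega)).2.2 ((h.mx _).lt_of_ne (h.ne (Or.inr (by omega))))
      rwa [show i + j - (j + 1) + 1 = i by ring] at this
  · have := (h.par_run b1 (by omega)).2.2 ((h.mx _).lt_of_ne (h.ne (Or.inl (by omega))))
    rwa [show i + 1 + (k - i) = k + 1 by ring] at this

theorem Lg.shift {p q L : ℤ} (h : Lg W n p q L) (s : ℤ) :
    Lg (fun t => W (s + t)) n (p - s) (q - s) L := by
  refine ⟨by have := h.h1; omega, by have := h.h2; omega, by have := h.h3; omega, h.h4,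
    fun t h1 h2 => ?_, ?_, ?_, fun a g g0 gn k => h.h8 (s + a) g g0 gn fun t h1 h2 => ?_⟩
  · have := h.h5 (s + t) (by omega) (by omega)
    rw [← this]
    congr 1
    ring
  · rw [show s + (p - s + L) = p + L by ring, show s + (q - s + L) = q + L by ring]
    exact h.h6
  · rw [show s + (p - s - 1) = p - 1 by ring, show s + (q - s - 1) = q - 1 by ring]
    exact h.h7
  · have := k (t - s) (by omega) (by omega)
    dsimp only at this
    rwa [show s + (t - s + g) = t + g by ring, add_sub_cancel] at this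

theorem exists_lg {n : ℕ} [NeZero n] {x : ZMod n → G} (hc : Cy H x) (h2 : 2 < (n : ℤ)) :
    ∃ p q L, Lg (fun t : ℤ => x t) n p q L := by
  classical
  have hf : ∀ t : ℤ, fac H (x (t + 1 : ℤ)) ≠ fac H (x t) := fun t => by
    simpa using hc.hf t
  have ex : ∃ L : ℕ, ¬ ∃ a g : ℤ, 0 < g ∧ g < n ∧ g % 2 = 0 ∧
      Par (fun t : ℤ => x t) a (a + L) g := by
    refine ⟨n, ?_⟩
    rintro ⟨a, g, g0, gn, -, k⟩
    obtain ⟨i, hi⟩ := hc.prim (g : ZMod n) fun e => by
      have := Int.le_of_dvd g0 ((ZMod.intCast_zmod_eq_zero_iff_dvd g n).1 e)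
      omega
    have := k (a + ((i - a).val : ℕ)) (by omega) (by have := ZMod.val_lt (i - (a : ZMod n)); omega)
    exact hi (by simpa using this)
  obtain ⟨L, hL⟩ : ∃ L, Nat.find ex = L + 1 := Nat.exists_eq_succ_of_ne_zero fun e =>
    Nat.find_spec ex ⟨0, 2, by omega, h2, by omega, fun t h1 h2 => by omega⟩
  have big := Nat.find_spec ex
  obtain ⟨a, g, g0, gn, ge, k⟩ := not_not.1 (Nat.find_min ex (m := L) (by omega))
  rw [hL] at big
  have h8 : ∀ a g : ℤ, 0 < g → g < n → ¬ Par (fun t : ℤ => x t) a (a + L + 1) g :=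
    fun a g g0 gn k => by
    refine big ⟨a, g, g0, gn, ?_, by rwa [Nat.cast_succ, ← add_assoc]⟩
    simpa using (fac_parZ (W := fun t : ℤ => x t) hf (a + g) a).1 (congrArg (fac H) (k a le_rfl (by omega)))
  refine ⟨a, a + g, L, by omega, by omega, by omega, by omega, by simpa using k,
    fun e => h8 a g g0 gn fun t h1 h2 => ?_, fun e => h8 (a - 1) g g0 gn fun t h1 h2 => ?_, h8⟩
  · rcases eq_or_ne t (a + L) with rfl | z
    · rw [add_right_comm]; exact e.symm
    · exact k t h1 (by omega)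
  · rcases eq_or_ne t (a - 1) with rfl | z
    · rw [show a - 1 + g = a + g - 1 by ring]; exact e.symm
    · exact k t (by omega) (by omega)

theorem sw_of {n : ℕ} [NeZero n] {x : ZMod n → G} (hc : Cy H x)
    (htf : ∀ (i : ZMod n) (m : ℕ), 0 < m → x i ^ m ≠ 1) {ρ : ZMod n → ℤ}
    (inj : Function.Injective ρ)
    (par : ∀ p q, x p = x q → (ρ p < ρ q ↔ ρ (p + 1) < ρ (q + 1)))
    (ant : ∀ p q, x p = (x q)⁻¹ → (ρ p < ρ (q + 1) ↔ ρ (p + 1) < ρ q)) {P : ZMod n} {Q : ℤ}
    (q0 : 0 < Q) (qn : Q < n) (mn : ∀ t, ρ P ≤ ρ t) (mx : ∀ t, ρ t ≤ ρ (P + Q)) :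
    SW H (fun t : ℤ => x (P + t)) (fun t : ℤ => ρ (P + t)) n Q :=
  ⟨fun t => by simp, fun t => by simpa [add_assoc] using hc.hf (P + t), fun t => htf _, q0, qn,
    fun t => by simp, fun s t e => by
      have := add_left_cancel (inj e)
      rwa [← ZMod.intCast_zmod_eq_zero_iff_dvd, Int.cast_sub, sub_eq_zero],
    fun t => by simpa using mn _, fun t => mx _,
    fun p q e => by simpa [add_assoc] using par _ _ e,
    fun p q e => by simpa [add_assoc] using ant _ _ e⟩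

/-- a pair of marks without real chains of length one -/
theorem exists_AL {n : ℕ} [NeZero n] {x : ZMod n → G} (hA : StA G) (hc : Cy H x)
    (htf : ∀ (i : ZMod n) (m : ℕ), 0 < m → x i ^ m ≠ 1) : ∃ (P : ZMod n) (Q : ℤ),
    AL (fun t : ℤ => x (P + t)) n Q ∧ NoCh H (fun t : ℤ => x (P + t)) n Q ∧
      AL (fun t : ℤ => x (P + Q + t)) n (n - Q) ∧
      NoCh H (fun t : ℤ => x (P + Q + t)) n (n - Q) := by
  obtain ⟨a, b, c, d, lg⟩ : ∃ a b c d : G, ∀ P : ZMod n, 2 < (n : ℤ) → ∃ p q L,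
      Lg (fun t : ℤ => x (P + t)) n p q L ∧ a = x (P + (p + L : ℤ)) ∧ b = x (P + (q + L : ℤ)) ∧
        c = x (P + (p - 1 : ℤ)) ∧ d = x (P + (q - 1 : ℤ)) := by
    by_cases h2 : 2 < (n : ℤ)
    · obtain ⟨p, q, L, lg⟩ := exists_lg hc h2
      refine ⟨x (p + L : ℤ), x (q + L : ℤ), x (p - 1 : ℤ), x (q - 1 : ℤ), fun P _ =>
        ⟨p - P.val, q - P.val, L, by simpa using lg.shift P.val, ?_, ?_, ?_, ?_⟩⟩ <;>
      · congr 1
        simp
        ring
    · exact ⟨1, 1, 1, 1, fun _ h => absurd h h2⟩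
  obtain ⟨ρ, inj, par, ant, tri⟩ := stack hc htf a b c d
  obtain ⟨P, mn⟩ := Finite.exists_min ρ
  obtain ⟨R, mx⟩ := Finite.exists_max ρ
  have ne : R - P ≠ 0 := fun e => by
    obtain rfl := sub_eq_zero.1 e
    exact hc.hf R (by rw [inj (le_antisymm (mx (R + 1)) (mn _))])
  have q0 : (0 : ℤ) < ((R - P).val : ℕ) := by exact_mod_cast ZMod.val_pos.2 ne
  have qn : (((R - P).val : ℕ) : ℤ) < n := by exact_mod_cast ZMod.val_lt _
  have eR : P + (((R - P).val : ℕ) : ℤ) = R := by simp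
  generalize (((R - P).val : ℕ) : ℤ) = Q at q0 qn eR
  subst eR
  have s1 := sw_of hc htf inj par ant q0 qn mn mx
  have s2 := sw_of (ρ := fun t => -ρ t) hc htf (neg_injective.comp inj)
    (fun p q e => by simpa using par q p e.symm)
    (fun p q e => by simpa using (ant q p (by rw [e, inv_inv])).symm) (P := P + Q) (Q := n - Q)
    (by omega) (by omega) (fun t => neg_le_neg (mx t)) fun t => neg_le_neg (by simpa using mn t)
  have a1 := s1.al (lg P) fun j i k f1 f2 e r => by simpa [add_assoc] using tri _ _ _ f1 f2 e r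
  have a2 := s2.al (lg (P + Q)) fun j i k f1 f2 e r => by
    simpa [add_assoc] using (tri _ _ _ f1 f2 e r).symm
  refine ⟨P, Q, a1, s1.noch hA a1 (lg P) fun j i k f1 f2 e r => ?_, a2,
    s2.noch hA a2 (lg (P + Q)) fun j i k f1 f2 e r => ?_⟩
  · simpa [add_assoc] using (tri _ _ _ f1 f2 e r).1
  · simpa [add_assoc] using (tri _ _ _ f1 f2 e r).2

end Pool.Agent.MP_a38735_al
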