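import Pool.Agent.MP_a38735_al.Charge3
import Pool.Agent.MP_a38735_al.StackA

set_option autoImplicit false
set_option linter.unusedSectionVars false

namespace Pool.Agent.MP_a38735_al

open WL

variable {G : Type*} [Group G] {H : Bool → Subgroup G} {n : ℕ}

/-- the corner lies in the part from `P` to `R` -/
def pt (P R : ZMod n) (a : Bool × ZMod n) : Prop := (a.2 - P).val < (R - P).val

/-- integer coordinates for the corners, starting at one of the marks -/
structure Frm (x : ZMod n → G) (P R : ZMod n) (W : ℤ → G) (Q : ℤ) (f : Bool → ℤ → Bool × ZMod n)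
    (J : ℤ → ZMod n) : Prop where
  al : AL W n Q
  clt : ∀ t, cl x (f true t) = W t
  cie : ∀ b t, ci (f b t) = f (!b) t
  cnt : ∀ t, cn (f true t) = f true (t + 1)
  jnf : ∀ t, jn (f false t) = J t
  jnt : ∀ t, jn (f true t) = J (t + 1)
  inj : ∀ s t, J s = J t ↔ (n : ℤ) ∣ s - t
  mks : (P = J 0 ∧ R = J Q) ∨ (P = J Q ∧ R = J 0)
  per : ∀ b t, f b (t + n) = f b t
  sur : ∀ a t, a.1 = (f true t).1 → ∃ s : ℤ, 0 ≤ s ∧ s < n ∧ a = f true s
  ptf : ∃ β : Prop, ∀ t : ℤ, 0 ≤ t → t < n → (pt P R (f true t) ↔ (t < Q ↔ β))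

/-- `[s, e)` is one of the two parts -/
def Pt (n Q s e : ℤ) : Prop := (s = 0 ∧ e = Q) ∨ (s = Q ∧ e = n)

theorem pt_ex {N Q t : ℤ} (h0 : 0 ≤ t) (h1 : t < N) : ∃ s e, Pt N Q s e ∧ s ≤ t ∧ t < e := by
  by_cases c : t < Q
  · exact ⟨0, Q, Or.inl ⟨rfl, rfl⟩, h0, c⟩
  · exact ⟨Q, N, Or.inr ⟨rfl, rfl⟩, by omega, h1⟩

theorem WL.Par.mono {W : ℤ → G} {a b g a' b' g' : ℤ} (h : Par W a b g) (h1 : a ≤ a') (h2 : b' ≤ b)
    (h3 : g' = g) : Par W a' b' g' := fun t k1 k2 => h3 ▸ h t (by omega) (by omega)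

theorem WL.Ant.mono {W : ℤ → G} {a b g a' b' g' : ℤ} (h : Ant W a b g) (h1 : a ≤ a') (h2 : b' ≤ b)
    (h3 : g' = g) : Ant W a' b' g' := fun t k1 k2 => h3 ▸ h t (by omega) (by omega)

theorem WL.Par.flip {W : ℤ → G} {a b g : ℤ} (h : Par W a b g) : Par W (a + g) (b + g) (-g) :=
  fun t k1 k2 => by
    have := h (t - g) (by omega) (by omega)
    rw [sub_add_cancel] at this
    rw [this, sub_eq_add_neg]

theorem WL.Ant.flip {W : ℤ → G} {a b c : ℤ} (h : Ant W a b c) :
    Ant W (c - b + 1) (c - a + 1) c := fun t k1 k2 => by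
  have := h (c - t) (by omega) (by omega)
  rw [sub_sub_cancel] at this
  rw [this, inv_inv]

theorem WL.AL.pm {W : ℤ → G} {N Q : ℤ} (h : AL W N Q) (t : ℤ) : W (t - N) = W t := by
  rw [← h.per, sub_add_cancel]

/-- no side of a parallel strip contains a part -/
theorem WL.AL.npar {W : ℤ → G} {N Q s e g : ℤ} (h : AL W N Q) (p : Pt N Q s e) (g0 : g ≠ 0)
    (g1 : -N < g) (g2 : g < N) : ¬ Par W e (s + N) g ∧ ¬ Par W (e - N) s g := by
  have k : ∀ a b, Par W a b g → ∃ g', 0 < g' ∧ g' < N ∧ Par W a b g' := fun a b k => by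
    by_cases c : 0 < g
    · exact ⟨g, c, g2, k⟩
    · exact ⟨g + N, by omega, by omega, fun t k1 k2 => by rw [← add_assoc, h.per, k t k1 k2]⟩
  have sh : ∀ a b g, Par W (a + N) (b + N) g ↔ Par W a b g := fun a b g =>
    ⟨fun k t k1 k2 => by
      have := k (t + N) (by omega) (by omega)
      rwa [add_right_comm, h.per, h.per] at this, fun k t k1 k2 => by
      have := k (t - N) (by omega) (by omega)
      rwa [sub_add_eq_add_sub, h.pm, h.pm] at this⟩
  have k1 : ¬ Par W e (s + N) g := fun z => by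
    obtain ⟨g', a1, a2, a3⟩ := k _ _ z
    rcases p with ⟨rfl, rfl⟩ | ⟨rfl, rfl⟩
    · exact h.uqV g' a1 a2 (by simpa using a3)
    · exact h.uqU g' a1 a2 ((sh _ _ _).1 (by simpa using a3))
  exact ⟨k1, fun z => k1 (by simpa using (sh _ _ _).2 z)⟩

/-- no side of an antiparallel strip contains a part -/
theorem WL.AL.nant {W : ℤ → G} {N Q s e c : ℤ} (h : AL W N Q) (p : Pt N Q s e) :
    ¬ Ant W e (s + N) c ∧ ¬ Ant W (e - N) s c := by
  have k1 : ∀ c, ¬ Ant W e (s + N) c := fun c z => by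
    rcases p with ⟨rfl, rfl⟩ | ⟨rfl, rfl⟩
    · exact h.auV c (by simpa using z)
    · refine h.auU (c - e) fun t k1 k2 => ?_
      have := z (t + e) (by omega) (by omega)
      rwa [h.per, show c - (t + e) = c - e - t by ring] at this
  refine ⟨k1 c, fun z => k1 (c + N) fun t k1 k2 => ?_⟩
  have := z (t - N) (by omega) (by omega)
  rwa [h.pm, show c - (t - N) = c + N - t by ring] at this

theorem WL.AL.mid {W : ℤ → G} {N Q a b c : ℤ} (h : AL W N Q) (k : Ant W a b c) (ev : c % 2 = 0) :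
    c < 2 * a ∨ 2 * b ≤ c := by
  by_contra z
  have := k (c / 2) (by omega) (by omega)
  rw [show c - c / 2 = c / 2 by omega] at this
  exact h.ninv _ this

theorem WL.Sk.mirror {W : ℤ → G} {r : ℤ → ℤ} {N Q : ℤ} (h : Sk W r N Q) :
    Sk (fun t => (W (-1 - t))⁻¹) (fun t => r (-t)) N (N - Q) := by
  have e1 : ∀ t : ℤ, -(t + 1) = -1 - t := fun t => by ring
  have e2 : ∀ t : ℤ, -1 - t + 1 = -t := fun t => by ring
  refine ⟨fun t => ?_, fun s t e => ?_, fun t => h.mn _, fun t => ?_, fun p q e => ?_,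
    fun p q e => ?_, fun n2 => ?_⟩
  · rw [← h.rper]; congr 1; ring
  · rw [← Int.dvd_neg]; convert h.inj _ _ e using 1; ring
  · rw [← h.rper (-(N - Q)), show -(N - Q) + N = Q by ring]; exact h.mx _
  · simpa only [e1, e2] using (h.par _ _ (inv_inj.1 e)).symm
  · simpa only [e1, e2] using (h.ant _ _ (inv_inj.1 e)).symm
  obtain ⟨x, d, L, L0, pa, n1, n2, mx, tri⟩ := h.lam n2
  refine ⟨-(x + L), -d, L, L0, fun t k1 k2 => ?_, ?_⟩
  · simp only [inv_inj]
    rw [← pa (-1 - t) (by omega) (by omega)]; congr 1; ring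
  simp only [show -1 - (-(x + L) + L) = x - 1 by ring, ne_eq, inv_inj,
    show -1 - (-(x + L) + L + -d) = x - 1 + d by ring, show -1 - (-(x + L) - 1) = x + L by ring,
    show -1 - (-(x + L) - 1 + -d) = x + L + d by ring]
  refine ⟨n2, n1, fun a b g g0 gn k => ?_, fun j i k p1 p2 e m => ?_⟩
  · have := mx (-b - g) (-a - g) g g0 gn fun t k1 k2 => by
      have := k (-1 - t - g) (by omega) (by omega)
      simp only [inv_inj] at this
      convert this.symm using 2 <;> ring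
    omega
  · have := tri (-1 - i) (-1 - j) (-1 - k) (by omega) (by omega)
      (by rw [← inv_inj, mul_inv_rev, e]) (by tauto)
    simp only [e1, e2] at this ⊢
    tauto

theorem WL.AL.mirror {W : ℤ → G} {N Q : ℤ} (h : AL W N Q) :
    AL (fun t => (W (-1 - t))⁻¹) N (N - Q) := by
  have := h.q0
  have := h.qn
  have pa : ∀ a b g, Par (fun t => (W (-1 - t))⁻¹) a b g → Par W (N - b - g) (N - a - g) g :=
    fun a b g k t k1 k2 => by
      have := k (N - 1 - t - g) (by omega) (by omega)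
      simp only [inv_inj] at this
      rw [← h.pm, ← h.pm t]
      convert this.symm using 2 <;> ring
  have an : ∀ a b c, Ant (fun t => (W (-1 - t))⁻¹) a b c → Ant W (N - b) (N - a) (-2 - c + N) :=
    fun a b c k t k1 k2 => by
      have := k (N - 1 - t) (by omega) (by omega)
      simp only [inv_inj] at this
      rwa [show -1 - (c - (N - 1 - t)) = -2 - c + N - t by ring,
        show -1 - (N - 1 - t) = t - N by ring, h.pm] at this
  refine ⟨fun t => ?_, fun t z => h.ninv (-1 - t) (inv_inj.1 z), by omega, by omega, h.ev,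
    fun l l0 l1 z => h.ubP l l0 l1 fun t k1 k2 => ?_,
    fun l l0 l1 z => h.ubQ l l0 l1 ((pa _ _ _ z).mono (by omega) (by omega) rfl),
    fun g g0 g1 z => h.uqV (N - g) (by omega) (by omega) fun t k1 k2 => ?_,
    fun g g0 g1 z => h.uqU (N - g) (by omega) (by omega) fun t k1 k2 => ?_,
    fun c z => h.auV _ ((an _ _ _ z).mono (by omega) (by omega) rfl),
    fun c z => h.auU _ ((an _ _ _ z).mono (by omega) (by omega) rfl),
    fun t m m0 z => h.tf _ m m0 (by simpa using z), h.stk.elim fun r k => ⟨_, k.mirror⟩⟩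
  · simp only [inv_inj]
    rw [← h.pm (-1 - t)]
    congr 1
    ring
  · have := pa _ _ _ z (t + N) (by omega) (by omega)
    rwa [add_right_comm, h.per, h.per] at this
  all_goals
    have := (pa _ _ _ z).flip t (by omega) (by omega)
    rw [← this, ← h.per (t + -g)]
    congr 1
    ring

theorem mk_of {A B : Prop} {P R u v : ZMod n} {O : ZMod n → Prop}
    (h : ∀ M, M = P ∨ M = R → O M → (A ∧ M = u) ∨ (B ∧ M = v)) (k : O P ∨ O R) : A ∨ B :=
  k.elim (fun k => (h _ (Or.inl rfl) k).imp And.left And.left)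
    fun k => (h _ (Or.inr rfl) k).imp And.left And.left

theorem cr_of {A B : Prop} {P R u v : ZMod n} {O : ZMod n → Prop} (ne : P ≠ R)
    (h : ∀ M, M = P ∨ M = R → O M → (A ∧ M = u) ∨ (B ∧ M = v)) (k : O P ∧ O R) :
    A ∧ B ∧ u ≠ v := by
  rcases h _ (Or.inl rfl) k.1 with ⟨a, rfl⟩ | ⟨a, rfl⟩ <;>
    rcases h _ (Or.inr rfl) k.2 with ⟨b, rfl⟩ | ⟨b, rfl⟩
  exacts [absurd rfl ne, ⟨a, b, ne⟩, ⟨b, a, ne.symm⟩, absurd rfl ne]

namespace Frm

variable {x : ZMod n → G} {P R : ZMod n} {W : ℤ → G} {Q : ℤ} {f : Bool → ℤ → Bool × ZMod n}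
  {J : ℤ → ZMod n} (F : Frm x P R W Q f J)
include F

theorem cit (t : ℤ) : ci (f true t) = f false t := F.cie _ _
theorem cif (t : ℤ) : ci (f false t) = f true t := F.cie _ _

theorem clf (t : ℤ) : cl x (f false t) = (W t)⁻¹ := by rw [← F.cit, cl_ci, F.clt]

theorem cnf (t : ℤ) : cn (f false t) = f false (t - 1) := by
  have := cn_ci_cn (f true (t - 1))
  rwa [F.cnt, F.cit, F.cit, sub_add_cancel] at this

theorem itt (t : ℤ) (s : ℕ) : cn^[s] (f true t) = f true (t + s) := by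
  induction s with
  | zero => simp
  | succ s ih => rw [Function.iterate_succ_apply', ih, F.cnt]; push_cast; rw [add_assoc]

theorem itf (t : ℤ) (s : ℕ) : cn^[s] (f false t) = f false (t - s) := by
  induction s with
  | zero => simp
  | succ s ih => rw [Function.iterate_succ_apply', ih, F.cnf]; push_cast; rw [sub_sub]

theorem mtt {i k : ℤ} {r : ℕ} (h : Mt x (f true i) (f true k) r) :
    Par W (i + 1) (i + 1 + r) (k - i) := fun t k1 k2 => by
  have := h (t - i - 1).toNat (by omega)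
  rw [F.itt, F.itt, F.clt, F.clt] at this
  convert this.symm using 2 <;> omega

theorem mff {i k : ℤ} {r : ℕ} (h : Mt x (f false i) (f false k) r) :
    Par W (i - r) i (k - i) := fun t k1 k2 => by
  have := h (i - t - 1).toNat (by omega)
  rw [F.itf, F.itf, F.clf, F.clf, inv_inj] at this
  convert this.symm using 2 <;> omega

theorem mtf {j i : ℤ} {r : ℕ} (h : Mt x (f true j) (f false i) r) :
    Ant W (j + 1) (j + 1 + r) (i + j) := fun t k1 k2 => by
  have := h (t - j - 1).toNat (by omega)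
  rw [F.itt, F.itf, F.clt, F.clf, ← inv_inj, inv_inv,
    show j + ((t - j - 1).toNat + 1 : ℕ) = t by omega] at this
  convert this.symm using 2
  omega

theorem mft {j i : ℤ} {r : ℕ} (h : Mt x (f true j) (f false i) r) :
    Ant W (i - r) i (i + j) := (F.mtf h).flip.mono (by omega) (by omega) rfl

theorem short_t {s e i k : ℤ} {b : Bool} {r : ℕ} (p : Pt n Q s e) (h1 : s ≤ i) (h2 : i < e)
    (k0 : 0 ≤ k) (k1 : k < n) (ne : f true i ≠ f b k) (h : Mt x (f true i) (f b k) r) :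
    i + 1 + r < s + n := by
  by_contra z
  have := F.al.q0
  have := F.al.qn
  cases b
  · exact (F.al.nant p).1 ((F.mtf h).mono (by omega) (by omega) rfl)
  · have : k - i ≠ 0 := fun z => ne (by rw [show k = i by omega])
    rcases p.imp id id with ⟨_, _⟩ | ⟨_, _⟩ <;>
      exact (F.al.npar p this (by omega) (by omega)).1 ((F.mtt h).mono (by omega) (by omega) rfl)

theorem short_f {s e i k : ℤ} {b : Bool} {r : ℕ} (p : Pt n Q s e) (h1 : s ≤ i) (h2 : i < e)
    (k0 : 0 ≤ k) (k1 : k < n) (ne : f false i ≠ f b k) (h : Mt x (f false i) (f b k) r) :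
    e - n < i - r := by
  by_contra z
  have := F.al.q0
  have := F.al.qn
  cases b
  · have : k - i ≠ 0 := fun z => ne (by rw [show k = i by omega])
    rcases p.imp id id with ⟨_, _⟩ | ⟨_, _⟩ <;>
      exact (F.al.npar p this (by omega) (by omega)).2 ((F.mff h).mono (by omega) (by omega) rfl)
  · exact (F.al.nant p).2 ((F.mft h.symm).mono (by omega) (by omega) rfl)

theorem mark {t : ℤ} (h : J t = P ∨ J t = R) (h1 : -n < t) (h2 : t < n + Q) :
    t = Q - n ∨ t = 0 ∨ t = Q ∨ t = n := by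
  have := F.al.q0
  have := F.al.qn
  have k : J t = J 0 ∨ J t = J Q := by
    rcases F.mks with ⟨a, b⟩ | ⟨a, b⟩ <;> rw [a, b] at h <;> tauto
  rcases k with k | k <;> obtain ⟨c, hc⟩ := (F.inj _ _).1 k
  · have : c < 2 := by nlinarith
    have : -1 < c := by nlinarith
    interval_cases c <;> omega
  · have : c < 1 := by nlinarith
    have : -2 < c := by nlinarith
    interval_cases c <;> omega

theorem ne_marks : P ≠ R := fun z => by
  have := F.al.q0
  have := F.al.qn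
  have k : J Q = J 0 := by
    rcases F.mks with ⟨a, b⟩ | ⟨a, b⟩ <;> rw [← a, ← b, z]
  have := Int.le_of_dvd (by omega) ((F.inj _ _).1 k)
  omega

theorem Jn : J n = J 0 := (F.inj _ _).2 (by simp)

/-- the side of the corner `(b, t)` of the part `[s, e)` is at the mark `M` after `r` steps -/
theorem hit {s e i k : ℤ} {b b' : Bool} {r : ℕ} {M : ZMod n} (hM : M = P ∨ M = R) (p : Pt n Q s e)
    (h1 : s ≤ i) (h2 : i < e) (k0 : 0 ≤ k) (k1 : k < n) (ne : f b i ≠ f b' k)
    (h : Mt x (f b i) (f b' k) r) (j : jn (cn^[r] (f b i)) = M) :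
    (if b then i + 1 + r = e else i - r = s) ∧ M = J (if b then e else s) := by
  have := F.al.q0
  have := F.al.qn
  subst j
  cases b
  · have z := F.short_f p h1 h2 k0 k1 ne h
    rw [F.itf, F.jnf] at hM ⊢
    have : i - r = s := by
      rcases p with ⟨_, _⟩ | ⟨_, _⟩ <;> have := F.mark hM (by omega) (by omega) <;> omega
    simp [this]
  · have z := F.short_t p h1 h2 k0 k1 ne h
    rw [F.itt, F.jnt] at hM ⊢
    have : i + r + 1 = e := by
      rcases p with ⟨_, _⟩ | ⟨_, _⟩ <;> have := F.mark hM (by omega) (by omega) <;> omega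
    simp [this, show i + 1 + r = e by omega]

theorem on_nf {s e s' e' i k : ℤ} {b b' : Bool} {M : ZMod n} (hM : M = P ∨ M = R) (p : Pt n Q s e)
    (h1 : s ≤ i) (h2 : i < e) (p' : Pt n Q s' e') (k1 : s' ≤ k) (k2 : k < e')
    (ne : f b i ≠ f b' k) (h : On x M (f b i) (f b' k)) : ∃ r : ℕ, Mt x (f b i) (f b' k) r ∧
      (((if b then i + 1 + r = e else i - r = s) ∧ M = J (if b then e else s)) ∨
        ((if b' then k + 1 + r = e' else k - r = s') ∧ M = J (if b' then e' else s'))) := by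
  have := F.al.q0
  have := F.al.qn
  obtain ⟨r, m, j⟩ := h
  refine ⟨r, m, j.imp (F.hit hM p h1 h2 ?_ ?_ ne m) (F.hit hM p' k1 k2 ?_ ?_ ne.symm m.symm)⟩ <;>
    rcases p with ⟨_, _⟩ | ⟨_, _⟩ <;> rcases p' with ⟨_, _⟩ | ⟨_, _⟩ <;> omega

section
variable {s e s' e' i k : ℤ} (p : Pt n Q s e) (h1 : s ≤ i) (h2 : i < e) (p' : Pt n Q s' e')
  (k1 : s' ≤ k) (k2 : k < e')
include p h1 h2 p' k1 k2

theorem on_tt (ne : W i ≠ W k) (M : ZMod n) (hM : M = P ∨ M = R)
    (h : On x M (f true i) (f true k)) :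
    (Par W (i + 1) e (k - i) ∧ M = J e) ∨ (Par W (k + 1) e' (i - k) ∧ M = J e') := by
  obtain ⟨r, m, z⟩ := F.on_nf hM p h1 h2 p' k1 k2
    (fun z => ne (by rw [← F.clt, z, F.clt])) h
  simp only [if_true] at z
  rcases z with ⟨z, y⟩ | ⟨z, y⟩
  exacts [Or.inl ⟨z ▸ F.mtt m, y⟩, Or.inr ⟨z ▸ F.mtt m.symm, y⟩]

theorem on_ff (ne : W i ≠ W k) (M : ZMod n) (hM : M = P ∨ M = R)
    (h : On x M (f false i) (f false k)) :
    (Par W s i (k - i) ∧ M = J s) ∨ (Par W s' k (i - k) ∧ M = J s') := by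
  obtain ⟨r, m, z⟩ := F.on_nf hM p h1 h2 p' k1 k2
    (fun z => ne (by rw [← inv_inj, ← F.clf, z, F.clf])) h
  simp only [Bool.false_eq_true, if_false] at z
  rcases z with ⟨z, y⟩ | ⟨z, y⟩
  exacts [Or.inl ⟨z ▸ F.mff m, y⟩, Or.inr ⟨z ▸ F.mff m.symm, y⟩]

theorem on_tf (ne : W i ≠ (W k)⁻¹) (M : ZMod n) (hM : M = P ∨ M = R)
    (h : On x M (f true i) (f false k)) :
    (Ant W (i + 1) e (k + i) ∧ M = J e) ∨ (Ant W s' k (k + i) ∧ M = J s') := by
  obtain ⟨r, m, z⟩ := F.on_nf hM p h1 h2 p' k1 k2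
    (fun z => ne (by rw [← F.clt, z, F.clf])) h
  simp only [Bool.false_eq_true, if_false, if_true] at z
  rcases z with ⟨z, y⟩ | ⟨z, y⟩
  exacts [Or.inl ⟨z ▸ F.mtf m, y⟩, Or.inr ⟨z ▸ F.mft m, y⟩]

theorem mk_tt (ne : W i ≠ W k) (h : Mk x P R (f true i) (f true k)) :
    Par W (i + 1) e (k - i) ∨ Par W (k + 1) e' (i - k) :=
  mk_of (F.on_tt p h1 h2 p' k1 k2 ne) h

theorem mk_ff (ne : W i ≠ W k) (h : Mk x P R (f false i) (f false k)) :
    Par W s i (k - i) ∨ Par W s' k (i - k) :=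
  mk_of (F.on_ff p h1 h2 p' k1 k2 ne) h

theorem mk_tf (ne : W i ≠ (W k)⁻¹) (h : Mk x P R (f true i) (f false k)) :
    Ant W (i + 1) e (k + i) ∨ Ant W s' k (k + i) :=
  mk_of (F.on_tf p h1 h2 p' k1 k2 ne) h

theorem cr_tt (ne : W i ≠ W k) (h : Cr x P R (f true i) (f true k)) :
    Par W (i + 1) e (k - i) ∧ Par W (k + 1) e' (i - k) ∧ e ≠ e' :=
  (cr_of F.ne_marks (F.on_tt p h1 h2 p' k1 k2 ne) h).imp_right
    (And.imp_right fun z c => z (c ▸ rfl))

theorem cr_ff (ne : W i ≠ W k) (h : Cr x P R (f false i) (f false k)) :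
    Par W s i (k - i) ∧ Par W s' k (i - k) ∧ s ≠ s' :=
  (cr_of F.ne_marks (F.on_ff p h1 h2 p' k1 k2 ne) h).imp_right
    (And.imp_right fun z c => z (c ▸ rfl))

theorem cr_tf (ne : W i ≠ (W k)⁻¹) (h : Cr x P R (f true i) (f false k)) :
    Ant W (i + 1) e (k + i) ∧ Ant W s' k (k + i) ∧ s' = s ∧ e' = e := by
  refine (cr_of F.ne_marks (F.on_tf p h1 h2 p' k1 k2 ne) h).imp_right (And.imp_right fun z => ?_)
  rcases p with ⟨rfl, rfl⟩ | ⟨rfl, rfl⟩ <;> rcases p' with ⟨rfl, rfl⟩ | ⟨rfl, rfl⟩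
  exacts [⟨rfl, rfl⟩, absurd rfl z, absurd F.Jn z, ⟨rfl, rfl⟩]

theorem pt_iff : (pt P R (f true i) ↔ pt P R (f true k)) ↔ s = s' := by
  obtain ⟨β, h⟩ := F.ptf
  have := F.al.q0
  have := F.al.qn
  rcases p with ⟨_, _⟩ | ⟨_, _⟩ <;> rcases p' with ⟨_, _⟩ | ⟨_, _⟩ <;>
    rw [h i (by omega) (by omega), h k (by omega) (by omega)]
  · simp [show i < Q by omega, show k < Q by omega, show s = s' by omega]
  · simp [show i < Q by omega, show ¬ k < Q by omega, show s ≠ s' by omega]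
  · simp [show ¬ i < Q by omega, show k < Q by omega, show s ≠ s' by omega]
  · simp [show ¬ i < Q by omega, show ¬ k < Q by omega, show s = s' by omega]

end

theorem on_t {i e : ℤ} {a : Bool × ZMod n} {L : ℕ} (m : Mt x (f true i) a L) (h1 : i < e)
    (h2 : e ≤ i + 1 + L) : On x (J e) (f true i) a :=
  ⟨(e - i - 1).toNat, m.mono (by omega), Or.inl (by rw [F.itt, F.jnt]; congr 1; omega)⟩

/-- every corner of the same sign has coordinates -/
theorem crd {a : Bool × ZMod n} {t : ℤ} (h : a.1 = (f true t).1) :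
    ∃ i s e, a = f true i ∧ Pt n Q s e ∧ s ≤ i ∧ i < e := by
  obtain ⟨i, h0, h1, rfl⟩ := F.sur a t h
  obtain ⟨s, e, p⟩ := pt_ex (Q := Q) h0 h1
  exact ⟨i, s, e, rfl, p⟩

end Frm

theorem val_eq [NeZero n] {a : ZMod n} (z : ℤ) (e : a = z) (h0 : 0 ≤ z) (h1 : z < n) :
    (a.val : ℤ) = z := by
  rw [e, ZMod.val_intCast, Int.emod_eq_of_lt h0 h1]

theorem pt_val [NeZero n] {A P R : ZMod n} {Q : ℤ} (q0 : 0 < Q) (qn : Q < n)
    (m : (P = A ∧ R = A + Q) ∨ (P = A + Q ∧ R = A)) : ∃ β : Prop, ∀ (b : Bool) (t : ℤ), 0 ≤ t →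
      t < n → (pt P R (b, A + t) ↔ (t < Q ↔ β)) := by
  rcases m with ⟨rfl, rfl⟩ | ⟨rfl, rfl⟩
  · refine ⟨True, fun b t h0 h1 => ?_⟩
    have := val_eq (a := (P + t - P : ZMod n)) t (by ring) h0 h1
    have := val_eq (a := (P + Q - P : ZMod n)) Q (by ring) q0.le qn
    simp only [pt, iff_true]
    omega
  · refine ⟨False, fun b t h0 h1 => ?_⟩
    have := val_eq (a := (R - (R + Q) : ZMod n)) (n - Q) (by simp) (by omega) (by omega)
    simp only [pt, iff_false]
    by_cases c : t < Q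
    · have := val_eq (a := (R + t - (R + Q) : ZMod n)) (t - Q + n) (by simp) (by omega) (by omega)
      omega
    · have := val_eq (a := (R + t - (R + Q) : ZMod n)) (t - Q) (by simp) (by omega) (by omega)
      omega

theorem frm_t [NeZero n] {x : ZMod n → G} {A P R : ZMod n} {Q : ℤ}
    (al : AL (fun t : ℤ => x (A + t)) n Q) (m : (P = A ∧ R = A + Q) ∨ (P = A + Q ∧ R = A)) :
    Frm x P R (fun t : ℤ => x (A + t)) Q (fun b t => (b, A + t)) (fun t => A + t) := by
  refine ⟨al, fun t => rfl, fun b t => rfl, fun t => by simp [cn, add_assoc], fun t => rfl,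
    fun t => by simp [jn, add_assoc], fun s t => ?_, by simpa using m, fun b t => by simp,
    fun a t h => ⟨(a.2 - A).val, by omega, by exact_mod_cast ZMod.val_lt _, Prod.ext h (by simp)⟩,
    (pt_val al.q0 al.qn m).imp fun β h => h true⟩
  rw [add_right_inj, ← ZMod.intCast_zmod_eq_zero_iff_dvd, Int.cast_sub, sub_eq_zero]

theorem frm_f [NeZero n] {x : ZMod n → G} {A P R : ZMod n} {Q : ℤ}
    (al : AL (fun t : ℤ => x (A + t)) n Q) (m : (P = A ∧ R = A + Q) ∨ (P = A + Q ∧ R = A)) :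
    Frm x P R (fun t : ℤ => (x (A + (-1 - t : ℤ)))⁻¹) (n - Q) (fun b t => (!b, A + (-1 - t : ℤ)))
      (fun t => A - t) := by
  refine ⟨al.mirror, fun t => rfl, fun b t => rfl, fun t => by simp [cn]; ring,
    fun t => by simp [jn]; ring, fun t => by simp [jn]; ring, fun s t => ?_, by simpa using m,
    fun b t => by simp, fun a t h => ⟨(A - 1 - a.2).val, by omega, by exact_mod_cast ZMod.val_lt _,
      Prod.ext h (by simp; ring)⟩, ?_⟩
  · rw [sub_right_inj, ← ZMod.intCast_zmod_eq_zero_iff_dvd, Int.cast_sub, sub_eq_zero]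
  · obtain ⟨β, h⟩ := pt_val al.q0 al.qn m
    refine ⟨¬ β, fun t h0 h1 => ?_⟩
    have := h false (n - 1 - t) (by omega) (by omega)
    rw [show (n : ℤ) - 1 - t < Q ↔ ¬ t < n - Q by omega] at this
    simp only [Int.cast_sub, Int.cast_natCast, CharP.cast_eq_zero, zero_sub] at this
    simp only [Int.cast_sub, Int.cast_neg, Bool.not_true]
    rw [this]
    tauto

/-- a frame in which a given corner is positive and lies in the first part -/
theorem ex_frm [NeZero n] {x : ZMod n → G} {P : ZMod n} {Q : ℤ}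
    (a1 : AL (fun t : ℤ => x (P + t)) n Q) (n1 : NoCh H (fun t : ℤ => x (P + t)) n Q)
    (a2 : AL (fun t : ℤ => x (P + Q + t)) n (n - Q))
    (n2 : NoCh H (fun t : ℤ => x (P + Q + t)) n (n - Q)) (a : Bool × ZMod n) :
    ∃ W Q' f J t, Frm x P (P + Q) W Q' f J ∧ a = f true t ∧ 0 ≤ t ∧ t < Q' ∧
      (a.1 = true → NoCh H W n Q') := by
  have m1 : (P = P ∧ P + Q = P + Q) ∨ (P = P + Q ∧ P + Q = P) := Or.inl ⟨rfl, rfl⟩
  have m2 : (P = P + Q ∧ P + Q = P + Q + (n - Q : ℤ)) ∨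
    (P = P + Q + (n - Q : ℤ) ∧ P + Q = P + Q) := Or.inr ⟨by simp, rfl⟩
  obtain ⟨b, i⟩ := a
  cases b
  · obtain ⟨t, h0, h1, e⟩ := (frm_f a1 m1).sur (false, i) 0 rfl
    by_cases c : t < n - Q
    · exact ⟨_, _, _, _, t, frm_f a1 m1, e, h0, c, by simp⟩
    · exact ⟨_, _, _, _, t + Q - n, frm_f a2 m2, by rw [e]; simp; ring, by omega, by omega, by simp⟩
  · obtain ⟨t, h0, h1, e⟩ := (frm_t a1 m1).sur (true, i) 0 rfl
    by_cases c : t < Q
    · exact ⟨_, _, _, _, t, frm_t a1 m1, e, h0, c, fun _ => n1⟩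
    · exact ⟨_, _, _, _, t - Q, frm_t a2 m2, by rw [e]; simp, by omega, by omega, fun _ => n2⟩

end Pool.Agent.MP_a38735_al
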