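import Mathlib

set_option autoImplicit false

namespace Pool.Agent.MP_a38735_al

open List

variable {G : Type*} [Group G]

/-- the factor of a letter -/
noncomputable def fac (H : Bool → Subgroup G) (x : G) : Bool := by
  classical exact decide (x ∈ H true)

/-- a letter: a nontrivial element of one of the factors -/
def IsL (H : Bool → Subgroup G) (x : G) : Prop := x ≠ 1 ∧ x ∈ H (fac H x)

/-- reduced lists -/
def Red (H : Bool → Subgroup G) (l : List G) : Prop :=
  (∀ x ∈ l, IsL H x) ∧ l.IsChain (fun x y => fac H x ≠ fac H y)

/-- `G` is the free product of `H true` and `H false` -/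
structure FP (H : Bool → Subgroup G) : Prop where
  disj : ∀ x, x ∈ H true → x ∈ H false → x = 1
  gen : ∀ g, g ∈ Subgroup.closure ((H true : Set G) ∪ H false)
  ntriv : ∀ l, Red H l → l.prod = 1 → l = []

variable {H : Bool → Subgroup G}

theorem fac_inv (x : G) : fac H x⁻¹ = fac H x := by
  unfold fac; simp

theorem FP.fac_eq (h : FP H) {x : G} {b : Bool} (hx : x ∈ H b) (h1 : x ≠ 1) : fac H x = b := by
  unfold fac
  cases b
  · simp only [decide_eq_false_iff_not]
    intro ht; exact h1 (h.disj x ht hx)
  · simpa using hx

theorem FP.isL (h : FP H) {x : G} {b : Bool} (hx : x ∈ H b) (h1 : x ≠ 1) : IsL H x :=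
  ⟨h1, by rw [h.fac_eq hx h1]; exact hx⟩

theorem IsL.inv {x : G} (hx : IsL H x) : IsL H x⁻¹ :=
  ⟨by simpa using hx.1, by rw [fac_inv]; exact inv_mem hx.2⟩

theorem FP.isL_mul (h : FP H) {x y : G} (hx : IsL H x) (hy : IsL H y) (hf : fac H x = fac H y)
    (h1 : x * y ≠ 1) : IsL H (x * y) ∧ fac H (x * y) = fac H x := by
  have : x * y ∈ H (fac H x) := mul_mem hx.2 (hf ▸ hy.2)
  exact ⟨h.isL this h1, h.fac_eq this h1⟩

theorem red_nil : Red H [] := ⟨by simp, by simp⟩

theorem red_single {x : G} (hx : IsL H x) : Red H [x] := ⟨by simpa using hx, by simp⟩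

theorem red_cons {x : G} {l : List G} :
    Red H (x :: l) ↔ IsL H x ∧ Red H l ∧ ∀ y ∈ l.head?, fac H x ≠ fac H y := by
  unfold Red
  rw [isChain_cons]
  simp only [mem_cons, forall_eq_or_imp]
  tauto

theorem red_append {l l' : List G} :
    Red H (l ++ l') ↔ Red H l ∧ Red H l' ∧ ∀ x ∈ l.getLast?, ∀ y ∈ l'.head?, fac H x ≠ fac H y := by
  unfold Red
  rw [isChain_append]
  simp only [mem_append]
  constructor
  · rintro ⟨h1, h2, h3, h4⟩
    exact ⟨⟨fun x hx => h1 x (Or.inl hx), h2⟩, ⟨fun x hx => h1 x (Or.inr hx), h3⟩, h4⟩
  · rintro ⟨⟨h1, h2⟩, ⟨h3, h4⟩, h5⟩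
    exact ⟨fun x hx => hx.elim (h1 x) (h3 x), h2, h4, h5⟩

/-- the formal inverse of a list -/
def linv (l : List G) : List G := (l.map (·⁻¹)).reverse

@[simp] theorem linv_nil : linv ([] : List G) = [] := rfl
@[simp] theorem linv_cons (x : G) (l : List G) : linv (x :: l) = linv l ++ [x⁻¹] := by
  simp [linv]
@[simp] theorem linv_append (l l' : List G) : linv (l ++ l') = linv l' ++ linv l := by
  simp [linv]
@[simp] theorem linv_prod (l : List G) : (linv l).prod = l.prod⁻¹ := by
  induction l with
  | nil => simp
  | cons x l ih => simp [ih]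
@[simp] theorem linv_length (l : List G) : (linv l).length = l.length := by simp [linv]
@[simp] theorem linv_linv (l : List G) : linv (linv l) = l := by
  induction l with
  | nil => simp
  | cons x l ih => simp [ih]

theorem linv_getLast? (l : List G) : (linv l).getLast? = l.head?.map (·⁻¹) := by
  cases l <;> simp

theorem linv_head? (l : List G) : (linv l).head? = l.getLast?.map (·⁻¹) := by
  simp [linv]

theorem Red.linv {l : List G} (h : Red H l) : Red H (linv l) := by
  induction l with
  | nil => simpa using h
  | cons x l ih =>
    rw [red_cons] at h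
    rw [linv_cons, red_append]
    refine ⟨ih h.2.1, red_single h.1.inv, ?_⟩
    intro a ha y hy
    rw [linv_getLast?] at ha
    simp only [Option.mem_def, Option.map_eq_some_iff] at ha
    obtain ⟨z, hz, rfl⟩ := ha
    simp only [head?_cons, Option.mem_def, Option.some.injEq] at hy
    subst hy
    rw [fac_inv, fac_inv]
    exact (h.2.2 z hz).symm

open Classical in
/-- overlap (in half edges) of two lists -/
noncomputable def ov (H : Bool → Subgroup G) : List G → List G → ℕ
  | x :: l, y :: l' => if x = y then ov H l l' + 2 else if fac H x = fac H y then 1 else 0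
  | _, _ => 0

@[simp] theorem ov_nil_left (l : List G) : ov H [] l = 0 := by simp [ov]
@[simp] theorem ov_nil_right (l : List G) : ov H l [] = 0 := by cases l <;> simp [ov]

open Classical in
theorem ov_cons (x y : G) (l l' : List G) :
    ov H (x :: l) (y :: l') =
      if x = y then ov H l l' + 2 else if fac H x = fac H y then 1 else 0 := by
  simp [ov]

theorem ov_comm (l l' : List G) : ov H l l' = ov H l' l := by
  induction l generalizing l' with
  | nil => simp
  | cons x l ih =>
    cases l' with
    | nil => simp
    | cons y l' =>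
      rw [ov_cons, ov_cons, ih]
      by_cases h : x = y
      · subst h; simp
      · have h' : ¬ y = x := fun e => h e.symm
        simp only [h, h', if_false, eq_comm]

theorem ov_ultra (a b c : List G) : min (ov H a b) (ov H b c) ≤ ov H a c := by
  induction a generalizing b c with
  | nil => simp
  | cons x a ih =>
    cases b with
    | nil => simp
    | cons y b =>
      cases c with
      | nil => simp
      | cons z c =>
        have := ih b c
        simp only [ov_cons]
        by_cases h1 : x = y
        · subst h1
          by_cases h2 : x = z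
          · subst h2; simp only [if_true]; omega
          · simp only [h2, if_true, if_false]; omega
        · by_cases h2 : y = z
          · subst h2; simp only [h1, if_true, if_false]; omega
          · by_cases h3 : x = z
            · subst h3; simp only [h1, h2, if_true, if_false]; split_ifs <;> omega
            · simp only [h1, h2, h3, if_false]
              by_cases h4 : fac H x = fac H y
              · by_cases h5 : fac H y = fac H z
                · simp [h4, h5]
                · simp [h5]
              · simp [h4]

theorem ov_self (l : List G) : ov H l l = 2 * l.length := by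
  induction l with
  | nil => simp
  | cons x l ih => simp [ov_cons, ih]; ring

theorem ov_le (l l' : List G) : ov H l l' ≤ 2 * l.length := by
  induction l generalizing l' with
  | nil => simp
  | cons x l ih =>
    cases l' with
    | nil => simp
    | cons y l' =>
      have := ih l'
      rw [ov_cons]; simp only [length_cons]; split_ifs <;> omega

theorem ov_append (p l l' : List G) : ov H (p ++ l) (p ++ l') = 2 * p.length + ov H l l' := by
  induction p with
  | nil => simp
  | cons x p ih => simp [ov_cons, ih]; ring

theorem ov_take {l l' : List G} {j : ℕ} (h : 2 * j ≤ ov H l l') :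
    l.take j = l'.take j ∧ j ≤ l.length := by
  induction j generalizing l l' with
  | zero => simp
  | succ j ih =>
    cases l with
    | nil => simp at h
    | cons x l =>
      cases l' with
      | nil => simp at h
      | cons y l' =>
        rw [ov_cons] at h
        split_ifs at h with h1 h2
        · subst h1
          have := @ih l l' (by omega)
          simp [this.1, this.2]
        · omega
        · omega

theorem FP.key (h : FP H) (l l' : List G) (hl : Red H l) (hl' : Red H l') :
    ∃ m, Red H m ∧ m.prod = l.prod⁻¹ * l'.prod ∧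
      m.length + ov H l l' = l.length + l'.length ∧ (m = [] → l = l') := by
  induction l generalizing l' with
  | nil => exact ⟨l', hl', by simp, by simp, fun e => e.symm⟩
  | cons x l ih =>
    cases l' with
    | nil => exact ⟨linv (x :: l), hl.linv, by simp, by simp, by simp⟩
    | cons y l' =>
      by_cases h1 : x = y
      · subst h1
        obtain ⟨m, h1, h2, h3, h4⟩ := ih l' (red_cons.1 hl).2.1 (red_cons.1 hl').2.1
        refine ⟨m, h1, by simp [h2, mul_assoc], ?_, fun e => by rw [h4 e]⟩
        simp [ov_cons]; omega
      · by_cases h2 : fac H x = fac H y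
        · obtain ⟨hx, hr, hn⟩ := red_cons.1 hl
          obtain ⟨hy, hr', hn'⟩ := red_cons.1 hl'
          have h3 : x⁻¹ * y ≠ 1 := fun e => h1 (inv_mul_eq_one.1 e)
          obtain ⟨h4, h5⟩ := h.isL_mul hx.inv hy (by rw [fac_inv, h2]) h3
          rw [fac_inv] at h5
          refine ⟨linv l ++ (x⁻¹ * y) :: l', ?_, by simp [mul_assoc], ?_, by simp⟩
          · rw [red_append, red_cons]
            refine ⟨hr.linv, ⟨h4, hr', fun z hz => ?_⟩, ?_⟩
            · rw [h5, h2]; exact hn' z hz
            · intro a ha z hz
              rw [linv_getLast?] at ha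
              simp only [Option.mem_def, Option.map_eq_some_iff] at ha
              obtain ⟨w, hw, rfl⟩ := ha
              simp only [head?_cons, Option.mem_def, Option.some.injEq] at hz
              subst hz
              rw [fac_inv, h5]
              exact (hn w hw).symm
          · simp [ov_cons, h1, h2]; omega
        · refine ⟨linv (x :: l) ++ y :: l', ?_, by simp [mul_assoc], ?_, by simp⟩
          · rw [red_append]
            refine ⟨hl.linv, hl', ?_⟩
            intro a ha z hz
            rw [linv_getLast?] at ha
            simp only [head?_cons, Option.map_some, Option.mem_def, Option.some.injEq] at ha hz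
            subst ha hz
            rwa [fac_inv]
          · simp [ov_cons, h1, h2]; omega

theorem FP.uniq (h : FP H) {l l' : List G} (hl : Red H l) (hl' : Red H l')
    (e : l.prod = l'.prod) : l = l' := by
  obtain ⟨m, h1, h2, -, h4⟩ := h.key l l' hl hl'
  exact h4 (h.ntriv m h1 (by rw [h2, e]; simp))

theorem FP.exi (h : FP H) (g : G) : ∃ l, Red H l ∧ l.prod = g := by
  have hg := h.gen g
  induction hg using Subgroup.closure_induction with
  | mem x hx =>
    by_cases h1 : x = 1
    · exact ⟨[], red_nil, by simp [h1]⟩
    · rcases hx with hx | hx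
      · exact ⟨[x], red_single (h.isL hx h1), by simp⟩
      · exact ⟨[x], red_single (h.isL hx h1), by simp⟩
  | one => exact ⟨[], red_nil, rfl⟩
  | mul x y _ _ hx hy =>
    obtain ⟨l, h1, rfl⟩ := hx
    obtain ⟨l', h2, rfl⟩ := hy
    obtain ⟨m, h3, h4, -⟩ := h.key (linv l) l' h1.linv h2
    exact ⟨m, h3, by simp [h4]⟩
  | inv x _ hx =>
    obtain ⟨l, h1, rfl⟩ := hx
    exact ⟨linv l, h1.linv, by simp⟩

/-- normal form -/
noncomputable def FP.nf (h : FP H) (g : G) : List G := (h.exi g).choose

theorem FP.nf_red (h : FP H) (g : G) : Red H (h.nf g) := (h.exi g).choose_spec.1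
@[simp] theorem FP.nf_prod (h : FP H) (g : G) : (h.nf g).prod = g := (h.exi g).choose_spec.2

theorem FP.nf_eq (h : FP H) {l : List G} (hl : Red H l) : h.nf l.prod = l :=
  h.uniq (h.nf_red _) hl (h.nf_prod _)

theorem FP.nf_inv (h : FP H) (g : G) : h.nf g⁻¹ = linv (h.nf g) := by
  have := h.nf_eq (h.nf_red g).linv
  simpa using this

/-- length -/
noncomputable def FP.len (h : FP H) (g : G) : ℕ := (h.nf g).length

/-- overlap of group elements -/
noncomputable def FP.o (h : FP H) (g k : G) : ℕ := ov H (h.nf g) (h.nf k)

@[simp] theorem FP.len_inv (h : FP H) (g : G) : h.len g⁻¹ = h.len g := by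
  simp [FP.len, h.nf_inv]

theorem FP.len_prod (h : FP H) {l : List G} (hl : Red H l) : h.len l.prod = l.length := by
  simp [FP.len, h.nf_eq hl]

theorem FP.o_comm (h : FP H) (g k : G) : h.o g k = h.o k g := ov_comm _ _

theorem FP.o_ultra (h : FP H) (a b c : G) : min (h.o a b) (h.o b c) ≤ h.o a c := ov_ultra _ _ _

theorem FP.o_self (h : FP H) (a : G) : h.o a a = 2 * h.len a := ov_self _

theorem FP.o_le (h : FP H) (a b : G) : h.o a b ≤ 2 * h.len a := ov_le _ _

theorem FP.len_inv_mul (h : FP H) (a b : G) :
    h.len (a⁻¹ * b) + h.o a b = h.len a + h.len b := by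
  obtain ⟨m, h1, h2, h3, -⟩ := h.key _ _ (h.nf_red a) (h.nf_red b)
  simp only [FP.nf_prod] at h2
  rw [← h2, h.len_prod h1]
  exact h3

theorem FP.len_mul (h : FP H) (a b : G) :
    h.len (a * b) + h.o a⁻¹ b = h.len a + h.len b := by
  have := h.len_inv_mul a⁻¹ b
  simpa using this

theorem FP.len_le_one (h : FP H) {x : G} {b : Bool} (hx : x ∈ H b) : h.len x ≤ 1 := by
  by_cases h1 : x = 1
  · have := h.len_prod (l := []) red_nil
    simp at this
    simp [h1, this]
  · have := h.len_prod (red_single (h.isL hx h1))
    simp at this
    omega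

end Pool.Agent.MP_a38735_al
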