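import Pool.Agent.MP_a38735_al.Inst

set_option autoImplicit false

namespace Pool.Agent.MP_a38735_al

open List

variable {G : Type*} [Group G] {H : Bool → Subgroup G} {n : ℕ}

/-- a segment of a cyclic word -/
def seg (x : ZMod n → G) : ZMod n → ℕ → List G
  | _, 0 => []
  | p, t + 1 => x p :: seg x (p + 1) t

omit [Group G] in
@[simp] theorem seg_length (x : ZMod n → G) (p : ZMod n) (t : ℕ) : (seg x p t).length = t := by
  induction t generalizing p with
  | zero => rfl
  | succ t ih => simp [seg, ih]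

omit [Group G] in
theorem seg_add (x : ZMod n → G) (p : ZMod n) (s t : ℕ) :
    seg x p (s + t) = seg x p s ++ seg x (p + s) t := by
  induction s generalizing p with
  | zero => simp [seg]
  | succ s ih =>
    rw [Nat.add_right_comm, seg, seg, ih, cons_append]
    push_cast
    rw [add_assoc, add_comm (1 : ZMod n)]

omit [Group G] in
theorem seg_add' (x : ZMod n → G) (p : ZMod n) {s t : ℕ} (h : s ≤ t) :
    seg x p t = seg x p s ++ seg x (p + s) (t - s) := by
  rw [← seg_add, Nat.add_sub_cancel' h]

theorem seg_prod (x : ZMod n → G) (p : ZMod n) (t : ℕ) :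
    (seg x p t).prod = wd (· + 1) x t p := by
  induction t generalizing p with
  | zero => rfl
  | succ t ih => simp [seg, wd, ih]

theorem PM.seg {x : ZMod n → G} {i k : ZMod n} {t : ℕ} (h : PM x i k t) :
    seg x i t = seg x k t := by
  induction t generalizing i k with
  | zero => rfl
  | succ t ih =>
    have h0 := h 0 (by omega)
    simp only [Nat.cast_zero, add_zero] at h0
    simp only [MP_a38735_al.seg, h0]
    congr 1
    apply ih
    intro s hs
    have := h (s + 1) (by omega)
    push_cast at this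
    convert this using 2 <;> ring

theorem AM.seg {x : ZMod n → G} {i k : ZMod n} {t : ℕ} (h : AM x i k t) :
    seg x i t = linv (seg x (k - t) t) := by
  induction t generalizing i k with
  | zero => rfl
  | succ t ih =>
    have h0 := h 0 (by omega)
    simp only [Nat.cast_zero, add_zero, sub_zero] at h0
    rw [seg_add x (k - (t + 1 : ℕ)) t 1, linv_append]
    have e : k - ((t + 1 : ℕ) : ZMod n) + t = k - 1 := by push_cast; ring
    have e' : k - ((t + 1 : ℕ) : ZMod n) = k - 1 - t := by push_cast; ring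
    rw [e, e', ← ih (i := i + 1)]
    · simp [MP_a38735_al.seg, eq_inv_of_mul_eq_one_left h0]
    · intro s hs
      have := h (s + 1) (by omega)
      push_cast at this
      convert this using 3 <;> ring

theorem PM.mono {x : ZMod n → G} {i k : ZMod n} {t s : ℕ} (h : PM x i k t) (hs : s ≤ t) :
    PM x i k s := fun r hr => h r (by omega)

theorem AM.mono {x : ZMod n → G} {i k : ZMod n} {t s : ℕ} (h : AM x i k t) (hs : s ≤ t) :
    AM x i k s := fun r hr => h r (by omega)

theorem PM.drop {x : ZMod n → G} {i k : ZMod n} {t s : ℕ} (h : PM x i k t) (hs : s ≤ t) :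
    PM x (i + s) (k + s) (t - s) := fun r hr => by
  have := h (s + r) (by omega)
  push_cast at this
  convert this using 2 <;> ring

/-- `Z` and `V` have no overlap and neither is a subword of the other -/
def Unc (Z V : List G) : Prop :=
  ¬ Z <:+: V ∧ ¬ V <:+: Z ∧ (∀ z, z ≠ [] → z <+: Z → ¬ z <:+ V) ∧ (∀ z, z ≠ [] → z <:+ Z → ¬ z <+: V)

omit [Group G] in
theorem Unc.symm {Z V : List G} (h : Unc Z V) : Unc V Z :=
  ⟨h.2.1, h.1, fun z h1 h2 h3 => h.2.2.2 z h1 h3 h2, fun z h1 h2 h3 => h.2.2.1 z h1 h3 h2⟩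

omit [Group G] in
theorem seg_ne_nil (x : ZMod n → G) (p : ZMod n) {t : ℕ} (h : 0 < t) : seg x p t ≠ [] := by
  intro e
  have := congrArg length e
  simp at this; omega

omit [Group G] in
theorem occ [NeZero n] (x : ZMod n → G) (q : ZMod n) {a b : ℕ} (hab : a + b = n) {Z : List G}
    (hZ : Unc Z (seg x (q + a) b)) {p : ZMod n} (hp : p ≠ q) : seg x p a ≠ Z := by
  rintro rfl
  obtain ⟨j, rfl, j0, j1⟩ : ∃ j : ℕ, p = q + j ∧ 0 < j ∧ j < n :=
    ⟨(p - q).val, by simp, ZMod.val_pos.2 (sub_ne_zero.2 hp), ZMod.val_lt _⟩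
  obtain ⟨h1, h2, h3, h4⟩ := hZ
  by_cases c1 : j < a
  · have e : seg x (q + j) a = seg x (q + j) (a - j) ++ seg x (q + a) j := by
      rw [seg_add' x (q + j) (show a - j ≤ a by omega), Nat.cast_sub c1.le,
        show a - (a - j) = j by omega]
      congr 2; ring
    by_cases c2 : j ≤ b
    · exact h4 _ (seg_ne_nil x _ j0) ⟨_, e.symm⟩ ⟨_, (seg_add' x _ c2).symm⟩
    · rw [seg_add' x (q + a) (show b ≤ j by omega)] at e
      exact h2 ⟨_, _, by rw [e, append_assoc]⟩
  · have e : seg x (q + a) b = seg x (q + a) (j - a) ++ seg x (q + j) (b - (j - a)) := by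
      rw [seg_add' x (q + a) (show j - a ≤ b by omega), Nat.cast_sub (by omega)]
      congr 2; ring
    by_cases c2 : a ≤ b - (j - a)
    · rw [seg_add' x (q + j) c2] at e
      exact h1 ⟨_, _, by rw [e, append_assoc]⟩
    · exact h3 _ (seg_ne_nil x _ (by omega)) ⟨_, (seg_add' x _ (by omega)).symm⟩ ⟨_, e.symm⟩

theorem le_of_cast [NeZero n] {q : ZMod n} {t a : ℕ} (ha : a < n) (h : q + t = q + a) : a ≤ t := by
  have h1 : (t : ZMod n) = a := add_left_cancel h
  rw [ZMod.natCast_eq_natCast_iff', Nat.mod_eq_of_lt ha] at h1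
  rw [← h1]; exact Nat.mod_le _ _

theorem par_of_unc [NeZero n] (x : ZMod n → G) (q : ZMod n) {a b : ℕ} (hab : a + b = n)
    (hb : 0 < b) (hU : Unc (seg x q a) (seg x (q + a) b)) (k : ZMod n) (t : ℕ) (hk : k ≠ q)
    (h : PM x q k t) : q + t ≠ q + a ∧ k + t ≠ q := by
  have e0 : q + a + b = q := by rw [add_assoc, ← Nat.cast_add, hab]; simp
  have k1 : ¬ a ≤ t := fun c => occ x q hab hU hk (h.mono c).seg.symm
  refine ⟨fun e => k1 (le_of_cast (by omega) e), fun e => ?_⟩
  have t0 : 0 < t := by
    rcases Nat.eq_zero_or_pos t with rfl | t0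
    · exact (hk (by simpa using e)).elim
    · exact t0
  by_cases c : b ≤ t
  · have h1 := (h.drop (show t - b ≤ t by omega)).seg
    rw [show t - (t - b) = b by omega, Nat.cast_sub c] at h1
    have e1 : k + (t - b) = q + a := by linear_combination e - e0
    rw [e1] at h1
    refine occ x (q + a) (by omega : b + a = n) (by rw [e0]; exact hU.symm) ?_ h1
    intro e2
    exact hk (by linear_combination e1 - e2)
  · refine hU.2.2.1 _ (seg_ne_nil x q t0) ⟨_, (seg_add' x q (by omega)).symm⟩ ⟨seg x (q + a) (b - t), ?_⟩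
    rw [h.seg, seg_add' x (q + a) (show b - t ≤ b by omega), show b - (b - t) = t by omega,
      Nat.cast_sub (by omega)]
    congr 2
    linear_combination e - e0

theorem linv_prefix {z l : List G} (h : z <+: l) : linv z <:+ linv l := by
  obtain ⟨r, rfl⟩ := h; exact ⟨linv r, by simp⟩

theorem linv_suffix {z l : List G} (h : z <:+ l) : linv z <+: linv l := by
  obtain ⟨r, rfl⟩ := h; exact ⟨linv r, by simp⟩

theorem linv_infix {z l : List G} (h : z <:+: l) : linv z <:+: linv l := by
  obtain ⟨r, s, rfl⟩ := h; exact ⟨linv s, linv r, by simp⟩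

theorem Unc.linv {Z V : List G} (h : Unc Z V) : Unc (linv Z) (linv V) := by
  have ne : ∀ z : List G, z ≠ [] → MP_a38735_al.linv z ≠ [] := fun z hz e => hz (by
    have := congrArg MP_a38735_al.linv e; simpa using this)
  refine ⟨fun c => h.1 (by simpa using linv_infix c), fun c => h.2.1 (by simpa using linv_infix c),
    fun z h1 h2 h3 => h.2.2.2 _ (ne z h1) (by simpa using linv_prefix h2)
      (by simpa using linv_suffix h3),
    fun z h1 h2 h3 => h.2.2.1 _ (ne z h1) (by simpa using linv_suffix h2)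
      (by simpa using linv_prefix h3)⟩

theorem anti_of_unc [NeZero n] {x : ZMod n → G} (hf : ∀ i, fac H (x (i + 1)) ≠ fac H (x i))
    (q : ZMod n) {a b : ℕ} (hab : a + b = n) (hpar : fac H (x q) = fac H (x (q + a)))
    (hU : Unc (linv (seg x q a)) (seg x (q + a) b)) (k : ZMod n)
    (hk : fac H (x q) ≠ fac H (x k)) : ¬ AM x q k a := by
  intro h
  have h1 := h.seg
  refine occ x q hab hU (p := k - a) ?_ (by rw [h1]; simp)
  intro e
  apply hk
  rw [hpar, ← e]; simp

theorem fac_ne_shift {x : ZMod n → G} (hf : ∀ i, fac H (x (i + 1)) ≠ fac H (x i)) {i j : ZMod n}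
    (h : fac H (x i) ≠ fac H (x j)) (s : ℕ) : fac H (x (i + s)) ≠ fac H (x (j - s)) := by
  have h1 := fac_add' hf (bool_ne_ne (hf i) h) s
  rw [← h1, add_right_comm]
  exact (hf _).symm

theorem unc_freiheit [NeZero n] (hF : FP H) (x : ZMod n → G) (hL : ∀ i, IsL H (x i))
    (hf : ∀ i, fac H (x (i + 1)) ≠ fac H (x i)) {a b : ℕ} (hab : a + b = n) (ha : 0 < a)
    (hb : 0 < b) (hpar : fac H (x 0) = fac H (x a))
    (h1 : Unc (seg x 0 a) (seg x a b)) (h2 : Unc (linv (seg x 0 a)) (seg x a b))
    (m : ℕ) (hm : 2 ≤ m) {c : Bool} {g : G} (hg : g ∈ H c)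
    (hn : g ∈ Subgroup.normalClosure ({(seg x 0 n).prod ^ m} : Set G)) : g = 1 := by
  have e0 : (a : ZMod n) + b = 0 := by rw [← Nat.cast_add, hab]; simp
  have h3 : Unc (linv (seg x a b)) (seg x 0 a) := by simpa using h2.symm.linv
  have aU : ∀ k, fac H (x 0) ≠ fac H (x k) → ¬ AM x 0 k a :=
    anti_of_unc hf 0 hab (by simpa using hpar) (by simpa using h2)
  have aV : ∀ k, fac H (x a) ≠ fac H (x k) → ¬ AM x a k b :=
    anti_of_unc hf a (by omega : b + a = n) (by rw [e0, hpar]) (by rw [e0]; exact h3)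
  rw [seg_prod] at hn
  refine cyc_freiheit hF x hL hf 0 a ?_ ?_ ?_ ?_ ?_ ?_ m hm hg hn
  · intro e
    have := le_of_cast (q := (0 : ZMod n)) (t := 0) (a := a) (by omega) (by simpa using e)
    omega
  · intro k t hk _ h
    have := par_of_unc x a (by omega : b + a = n) ha (by rw [e0]; exact h1.symm) k t hk h
    rwa [e0] at this
  · intro k t hk _ h
    have := par_of_unc x 0 hab hb (by simpa using h1) k t hk h
    simpa using this
  · intro k t hk h
    have c1 : ¬ b ≤ t := fun c => aV k hk (h.mono c)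
    refine ⟨fun e => c1 (le_of_cast (q := (a : ZMod n)) (by omega) (by rw [e, e0])), fun e => ?_⟩
    have hs := h.symm
    rw [e] at hs
    have t0 : 0 < t := by
      rcases Nat.eq_zero_or_pos t with rfl | t0
      · exact (hk (by rw [← hpar, ← e]; simp)).elim
      · exact t0
    have c2 : ¬ a ≤ t := fun c => aU (a + t) (by
      have := fac_add hf hpar t
      rw [← this, show (0 : ZMod n) + t = k by linear_combination -e, hpar]; exact hk) (hs.mono c)
    have := h.seg
    rw [e] at this
    exact h2.2.2.2 _ (seg_ne_nil x a t0)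
      (by rw [this]; exact linv_prefix ⟨_, (seg_add' x 0 (by omega)).symm⟩)
      ⟨_, (seg_add' x a (by omega)).symm⟩
  · intro k t hk h e
    exact aU k hk (h.mono (le_of_cast (q := (0 : ZMod n)) (by omega) (by simpa using e)))
  · intro k t hk h e
    have t0 : 0 < t := by
      rcases Nat.eq_zero_or_pos t with rfl | t0
      · exact (hk (by rw [← hpar, ← e]; simp)).elim
      · exact t0
    have hs := h.symm
    rw [e] at hs
    have dr : ∀ {i j : ZMod n} {s : ℕ}, AM x i j t → s ≤ t → AM x (i + (t - s : ℕ)) (j - (t - s : ℕ)) s := by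
      intro i j s h0 hs r hr
      have := h0 (t - s + r) (by omega)
      push_cast at this
      convert this using 3 <;> ring
    have c1 : ¬ b ≤ t := fun c => by
      have h4 := dr h c
      have h5 := fac_ne_shift hf hk.symm (t - b)
      rw [Nat.cast_sub c, show k + (t - b) = a by linear_combination e - e0] at h4 h5
      exact aV _ h5 h4
    have c2 : ¬ a ≤ t := fun c => by
      have h4 := dr hs c
      have h5 := fac_ne_shift hf hk.symm t
      rw [e] at h5
      have h6 := fac_ne_shift hf h5.symm (t - a)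
      rw [Nat.cast_sub c, show (a : ZMod n) - t + (t - a) = 0 by ring] at h4 h6
      exact aU _ h6 h4
    refine h2.2.2.1 _ (seg_ne_nil x k t0) ?_ ⟨seg x a (b - t), ?_⟩
    · rw [h.seg]
      refine linv_suffix ⟨seg x 0 (a - t), ?_⟩
      rw [seg_add' x 0 (show a - t ≤ a by omega), show a - (a - t) = t by omega,
        Nat.cast_sub (by omega), zero_add]
    · rw [seg_add' x a (show b - t ≤ b by omega), show b - (b - t) = t by omega,
        Nat.cast_sub (by omega)]
      congr 2
      linear_combination e - e0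

end Pool.Agent.MP_a38735_al
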