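import Pool.Agent.MP_a38735_al.Phi
import Pool.Agent.MP_a38735_al.Uncor

set_option autoImplicit false

namespace Pool.Agent.MP_a38735_al

open List

variable {G : Type*} [Group G] {H : Bool → Subgroup G} {n : ℕ}

/-- the rays after two corners agree for `t` letters -/
def Mt (x : ZMod n → G) (a a' : Bool × ZMod n) (t : ℕ) : Prop :=
  ∀ s, s < t → cl x (cn^[s + 1] a) = cl x (cn^[s + 1] a')

theorem Mt.symm {x : ZMod n → G} {a a' : Bool × ZMod n} {t : ℕ} (h : Mt x a a' t) :
    Mt x a' a t := fun s hs => (h s hs).symm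

theorem Mt.mono {x : ZMod n → G} {a a' : Bool × ZMod n} {t s : ℕ} (h : Mt x a a' t)
    (hs : s ≤ t) : Mt x a a' s := fun r hr => h r (by omega)

theorem mt_zero (x : ZMod n → G) (a a' : Bool × ZMod n) : Mt x a a' 0 := fun _ h => by omega

theorem mt_succ {x : ZMod n → G} {a a' : Bool × ZMod n} {t : ℕ} :
    Mt x a a' (t + 1) ↔ cl x (cn a) = cl x (cn a') ∧ Mt x (cn a) (cn a') t := by
  constructor
  · exact fun h => ⟨h 0 (by omega), fun s hs => h (s + 1) (by omega)⟩
  · rintro ⟨h1, h2⟩ s hs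
    cases s with
    | zero => exact h1
    | succ s => exact h2 s (by omega)

theorem mt_succ' {x : ZMod n → G} {a a' : Bool × ZMod n} {t : ℕ} :
    Mt x a a' (t + 1) ↔ Mt x a a' t ∧ cl x (cn (cn^[t] a)) = cl x (cn (cn^[t] a')) := by
  rw [← Function.iterate_succ_apply' cn, ← Function.iterate_succ_apply' cn]
  constructor
  · exact fun h => ⟨h.mono (by omega), h t (by omega)⟩
  · rintro ⟨h1, h2⟩ s hs
    rcases Nat.lt_succ_iff_lt_or_eq.1 hs with h | rfl
    · exact h1 s h
    · exact h2

theorem jn_t (i : ZMod n) (s : ℕ) : jn (cn^[s] (true, i)) = i + 1 + s := by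
  rw [cn_iter]; simp [jn]; ring
theorem jn_f (i : ZMod n) (s : ℕ) : jn (cn^[s] (false, i)) = i - s := by
  rw [cn_iter]; simp [jn]

theorem mt_tt {x : ZMod n → G} {i k : ZMod n} {t : ℕ} :
    Mt x (true, i) (true, k) t ↔ PM x (i + 1) (k + 1) t := by
  refine forall₂_congr fun s _ => ?_
  simp only [cn_iter, cl, if_true]
  push_cast
  rw [show i + (s + 1) = i + 1 + s by ring, show k + (s + 1) = k + 1 + s by ring]

theorem mt_tf {x : ZMod n → G} {i k : ZMod n} {t : ℕ} :
    Mt x (true, i) (false, k) t ↔ AM x (i + 1) k t := by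
  refine forall₂_congr fun s _ => ?_
  simp only [cn_iter, cl, if_true, Bool.false_eq_true, if_false]
  push_cast
  rw [show i + (s + 1) = i + 1 + s by ring, show k - (s + 1) = k - 1 - s by ring,
    eq_inv_iff_mul_eq_one]

theorem mt_ff {x : ZMod n → G} {i k : ZMod n} {t : ℕ} (h : Mt x (false, i) (false, k) t) :
    PM x (i - t) (k - t) t := by
  intro s hs
  have := h (t - 1 - s) (by omega)
  simp only [cn_iter, cl, Bool.false_eq_true, if_false, inv_inj] at this
  have e : ((t - 1 - s + 1 : ℕ) : ZMod n) = t - s := by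
    rw [show t - 1 - s + 1 = t - s by omega, Nat.cast_sub (by omega)]
  rw [e] at this
  convert this using 2 <;> ring

theorem fac_par {x : ZMod n → G} (hf : ∀ i, fac H (x (i + 1)) ≠ fac H (x i)) (i : ZMod n)
    (l : ℕ) : fac H (x (i + l)) = fac H (x i) ↔ Even l := by
  induction l with
  | zero => simp
  | succ l ih =>
    rw [Nat.even_add_one, ← ih]
    push_cast
    rw [← add_assoc]
    have := hf (i + l)
    revert this
    cases fac H (x (i + l + 1)) <;> cases fac H (x (i + l)) <;> cases fac H (x i) <;> simp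

theorem AM.disj {x : ZMod n → G} (hc : Cy H x) {i k : ZMod n} {t : ℕ} (h : AM x i k t)
    (hp : fac H (x i) ≠ fac H (x k)) {s s' : ℕ} (hs : s ≤ t) (hs' : s' ≤ t) : i + s ≠ k - s' := by
  intro e
  have ek : k = i + ((s + s' : ℕ) : ZMod n) := by push_cast; linear_combination -e
  have ho : ¬ Even (s + s') := fun c => hp (by rw [ek]; exact ((fac_par hc.hf i _).2 c).symm)
  obtain ⟨r, hr⟩ := Nat.not_even_iff_odd.1 ho
  have := h r (by omega)
  rw [ek, hr] at this
  push_cast at this
  rw [show i + (2 * r + 1) - 1 - r = i + r by ring] at this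
  exact hc.h2 _ this

theorem PM.lt [NeZero n] {x : ZMod n → G} (hc : Cy H x) {i k : ZMod n} {t : ℕ} (h : PM x i k t)
    (hik : i ≠ k) : t < n := by
  by_contra c
  obtain ⟨j, hj⟩ := hc.prim (k - i) (sub_ne_zero.2 hik.symm)
  have := h (j - i).val (lt_of_lt_of_le (ZMod.val_lt _) (by omega))
  apply hj
  simp only [ZMod.natCast_val, ZMod.cast_id', id_eq] at this
  convert this.symm using 2 <;> ring

theorem AM.lt [NeZero n] {x : ZMod n → G} (hc : Cy H x) {i k : ZMod n} {t : ℕ} (h : AM x i k t)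
    (hp : fac H (x i) ≠ fac H (x k)) : t < n := by
  by_contra c
  exact h.disj hc hp (s := (k - i).val) (s' := 0) ((ZMod.val_lt _).le.trans (by omega))
    (by omega) (by simp)

theorem fac_tf {x : ZMod n → G} (hf : ∀ i, fac H (x (i + 1)) ≠ fac H (x i)) {i k : ZMod n}
    (h : fac H (cl x (true, i)) = fac H (cl x (false, k))) : fac H (x (i + 1)) ≠ fac H (x k) := by
  simp only [cl, if_true, Bool.false_eq_true, if_false, fac_inv] at h
  rw [← h]; exact hf i

theorem Mt.lt [NeZero n] {x : ZMod n → G} (hc : Cy H x) {a a' : Bool × ZMod n} {t : ℕ}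
    (h : Mt x a a' t) (hp : fac H (cl x a) = fac H (cl x a')) (hne : a ≠ a') : t < n := by
  obtain ⟨b, i⟩ := a
  obtain ⟨b', k⟩ := a'
  cases b <;> cases b'
  · exact (mt_ff h).lt hc fun e => hne (by rw [sub_left_inj.1 e])
  · exact (mt_tf.1 h.symm).lt hc (fac_tf hc.hf hp.symm)
  · exact (mt_tf.1 h).lt hc (fac_tf hc.hf hp)
  · exact (mt_tt.1 h).lt hc fun e => hne (by rw [add_right_cancel e])

/-- the rotation at `P` is unbordered -/
def Unb (x : ZMod n → G) (P : ZMod n) : Prop := ∀ k (t : ℕ), k ≠ P → PM x P k t → k + t ≠ P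

theorem once [NeZero n] {x : ZMod n → G} (hc : Cy H x) {a a' : Bool × ZMod n}
    (hU : Unb x (jn a)) (hp : fac H (cl x a) = fac H (cl x a')) (hne : a ≠ a') {s : ℕ}
    (h : Mt x a a' s) : jn (cn^[s] a') ≠ jn a ∧ (0 < s → jn (cn^[s] a) ≠ jn a) := by
  have hl := h.lt hc hp hne
  have z : 0 < s → (s : ZMod n) ≠ 0 := fun h0 e => by
    rw [ZMod.natCast_eq_zero_iff] at e
    exact absurd (Nat.le_of_dvd h0 e) (by omega)
  obtain ⟨b, i⟩ := a
  obtain ⟨b', k⟩ := a'
  refine ⟨?_, fun h0 e => z h0 ?_⟩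
  · cases b <;> cases b'
    · rw [jn_f]
      intro e
      simp only [jn, Bool.false_eq_true, if_false] at e hU
      have := (mt_ff h).symm
      rw [e] at this
      exact hU _ s (fun c => hne (by rw [show k = i by linear_combination e - c])) this (by ring)
    · rw [jn_t]
      have := (mt_tf.1 h.symm).disj hc (fac_tf hc.hf hp.symm) (s := s) (s' := 0) le_rfl (by omega)
      simpa [jn] using this
    · rw [jn_f]
      have := (mt_tf.1 h).disj hc (fac_tf hc.hf hp) (s := 0) (s' := s) (by omega) le_rfl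
      simpa [jn] using this.symm
    · rw [jn_t]
      exact hU _ s (fun c => hne (by simp [jn] at c; rw [c])) (mt_tt.1 h)
  · cases b
    · rw [jn_f] at e; simpa [jn] using e
    · rw [jn_t] at e; simpa [jn] using e

/-- the junction `P` lies ahead on the strip -/
def On (x : ZMod n → G) (P : ZMod n) (a a' : Bool × ZMod n) : Prop :=
  ∃ s, Mt x a a' s ∧ (jn (cn^[s] a) = P ∨ jn (cn^[s] a') = P)

theorem On.symm {x : ZMod n → G} {P : ZMod n} {a a' : Bool × ZMod n} (h : On x P a a') :
    On x P a' a := by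
  obtain ⟨s, h1, h2⟩ := h
  exact ⟨s, h1.symm, h2.symm⟩

theorem on_iff {x : ZMod n → G} {P : ZMod n} {a a' : Bool × ZMod n} :
    On x P a a' ↔ jn a = P ∨ jn a' = P ∨ (cl x (cn a) = cl x (cn a') ∧ On x P (cn a) (cn a')) := by
  constructor
  · rintro ⟨s, h1, h2⟩
    cases s with
    | zero => simp at h2; tauto
    | succ s => exact Or.inr (Or.inr ⟨(mt_succ.1 h1).1, s, (mt_succ.1 h1).2, h2⟩)
  · rintro (h | h | ⟨h, s, h1, h2⟩)
    · exact ⟨0, mt_zero _ _ _, Or.inl h⟩
    · exact ⟨0, mt_zero _ _ _, Or.inr h⟩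
    · exact ⟨s + 1, mt_succ.2 ⟨h, h1⟩, h2⟩

open Classical in
/-- indicator of `On` -/
noncomputable def ind (x : ZMod n → G) (P : ZMod n) (a a' : Bool × ZMod n) : ℚ :=
  if On x P a a' then 1 else 0

theorem ind_symm (x : ZMod n → G) (P : ZMod n) (a a' : Bool × ZMod n) :
    ind x P a a' = ind x P a' a := by
  unfold ind
  congr 1
  exact propext ⟨On.symm, On.symm⟩

theorem ind_nonneg (x : ZMod n → G) (P : ZMod n) (a a' : Bool × ZMod n) : 0 ≤ ind x P a a' := by
  unfold ind; split_ifs <;> norm_num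

theorem ind_le (x : ZMod n → G) (P : ZMod n) (a a' : Bool × ZMod n) : ind x P a a' ≤ 1 := by
  unfold ind; split_ifs <;> norm_num

open Classical in
theorem ind_rec [NeZero n] {x : ZMod n → G} (hc : Cy H x) {P : ZMod n} (hU : Unb x P)
    {a a' : Bool × ZMod n} (hp : fac H (cl x a) = fac H (cl x a')) (hne : a ≠ a') :
    ind x P a a' = (if P = jn a then 1 else 0) + (if P = jn a' then 1 else 0) +
      (if cl x (cn a) = cl x (cn a') then ind x P (cn a) (cn a') else 0) := by
  have key : ∀ {a a' : Bool × ZMod n}, fac H (cl x a) = fac H (cl x a') → a ≠ a' → P = jn a →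
      P ≠ jn a' ∧ ¬ (cl x (cn a) = cl x (cn a') ∧ On x P (cn a) (cn a')) := by
    intro a a' hp hne e
    subst e
    refine ⟨(once hc hU hp hne (mt_zero _ _ _)).1.symm, ?_⟩
    rintro ⟨h0, s, h1, h2⟩
    have := once hc hU hp hne (mt_succ.2 ⟨h0, h1⟩)
    rcases h2 with h2 | h2
    · exact this.2 (by omega) h2
    · exact this.1 h2
  unfold ind
  rw [on_iff]
  by_cases e1 : P = jn a
  · have := key hp hne e1
    by_cases h0 : cl x (cn a) = cl x (cn a') <;> simp_all
  · by_cases e2 : P = jn a'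
    · have := (key hp.symm hne.symm e2).2
      have h' : ¬ (cl x (cn a) = cl x (cn a') ∧ On x P (cn a) (cn a')) :=
        fun c => this ⟨c.1.symm, c.2.symm⟩
      by_cases h0 : cl x (cn a) = cl x (cn a') <;> simp_all
    · have e1' : jn a ≠ P := Ne.symm e1
      have e2' : jn a' ≠ P := Ne.symm e2
      by_cases h0 : cl x (cn a) = cl x (cn a') <;> simp_all

/-- number of marks ahead on a strip -/
noncomputable def cnt (x : ZMod n → G) (mk : Fin 4 → ZMod n) (a a' : Bool × ZMod n) : ℚ :=
  ∑ t, ind x (mk t) a a'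

theorem cnt_nonneg (x : ZMod n → G) (mk : Fin 4 → ZMod n) (a a' : Bool × ZMod n) :
    0 ≤ cnt x mk a a' := Finset.sum_nonneg fun _ _ => ind_nonneg _ _ _ _

theorem cnt_le (x : ZMod n → G) (mk : Fin 4 → ZMod n) (a a' : Bool × ZMod n) :
    cnt x mk a a' ≤ 4 := by
  have := Finset.sum_le_sum (s := Finset.univ) fun t _ => ind_le x (mk t) a a'
  simpa [cnt] using this

theorem hh [NeZero n] (hF : FP H) {x : ZMod n → G} (hc : Cy H x) (mk : Fin 4 → ZMod n)
    (hU : ∀ t, Unb x (mk t))
    (hT : ∀ c d e, fac H (cl x c) = fac H (cl x d) → fac H (cl x d) = fac H (cl x e) →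
      d ≠ ci c → e ≠ ci d → c ≠ ci e → cl x c * cl x d * cl x e = 1 →
      cnt x mk c (ci d) + cnt x mk d (ci e) + cnt x mk e (ci c) ≤ 8) : Fr H x := by
  classical
  let φ : Bool × ZMod n → Bool × ZMod n → ℚ := fun a a' =>
    (cnt x mk a a' - if cl x a = cl x a' then cnt x mk (ci a) (ci a') else 0) / 4
  have φle : ∀ a a', φ a a' ≤ cnt x mk a a' / 4 := by
    intro a a'
    have := cnt_nonneg x mk (ci a) (ci a')
    simp only [φ]
    split_ifs <;> linarith
  have csym : ∀ a a', cnt x mk a a' = cnt x mk a' a := fun a a' =>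
    Finset.sum_congr rfl fun t _ => ind_symm _ _ _ _
  let μ : ZMod n → ℚ := fun j => ∑ t, if mk t = j then 1 / 2 else 0
  have crec : ∀ a a', fac H (cl x a) = fac H (cl x a') → a ≠ a' → cnt x mk a a' =
      2 * μ (jn a) + 2 * μ (jn a') +
        (if cl x (cn a) = cl x (cn a') then cnt x mk (cn a) (cn a') else 0) := by
    intro a a' hp hne
    simp only [cnt, μ, Finset.mul_sum, ← Finset.sum_add_distrib]
    rw [Finset.sum_congr rfl fun t _ => ind_rec hc (hU t) hp hne]
    split_ifs
    · rw [← Finset.sum_add_distrib]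
      refine Finset.sum_congr rfl fun t _ => ?_
      split_ifs <;> norm_num
    · rw [add_zero]
      refine Finset.sum_congr rfl fun t _ => ?_
      split_ifs <;> norm_num
  refine cyc_phi hF x hc.hL hc.hf μ ?_ φ ?_ ?_ ?_ ?_
  · simp only [μ]
    rw [Finset.sum_comm]
    simp
    norm_num
  · intro a a' hp hne
    have h1 := crec a a' hp hne
    have h2 := crec (ci (cn a')) (ci (cn a))
      (by simpa [fac_inv] using (fac_cn_eq hc.hf hp).symm) (fun e => hne (cn_inj (ci_inj e)).symm)
    simp only [jn_ci_cn, cn_ci_cn, cl_ci, inv_inj] at h2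
    simp only [φ, ci_ci, cl_ci, inv_inj]
    rw [h2, csym (ci a'), csym (cn a'), h1]
    simp only [eq_comm (a := cl x a'), eq_comm (a := cl x (cn a'))]
    linarith
  · intro a a' _ _
    linarith [φle a a', cnt_le x mk a a']
  · intro a a' _ h
    simp only [φ, ci_ci, cl_ci, h, if_true]
    rw [csym (ci a'), csym a']
    linarith
  · intro c d e h1 h2 h3 h4 h5 h6
    linarith [φle c (ci d), φle d (ci e), φle e (ci c), hT c d e h1 h2 h3 h4 h5 h6]

theorem on_le [NeZero n] {x : ZMod n → G} (hc : Cy H x) {P j i : ZMod n}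
    (hp : fac H (x j) = fac H (x i)) (h : On x P (true, j) (false, i)) :
    (i - P).val ≤ (j - P).val := by
  by_contra c
  obtain ⟨s, h1, h2⟩ := h
  have l1 := ZMod.val_lt (i - P)
  have hd := (mt_tf.1 h1).disj hc (hp ▸ hc.hf j) (s := (i - P).val - (j - P).val - 1) (s' := 0)
  have e : (((i - P).val - (j - P).val - 1 : ℕ) : ZMod n) = i - j - 1 := by
    rw [Nat.cast_sub (by omega), Nat.cast_sub (by omega)]; simp
  rw [e] at hd
  refine hd ?_ (by omega) (by simp)
  rw [jn_t, jn_f] at h2
  rcases h2 with h2 | h2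
  · have := le_of_cast (q := j + 1) (t := s) (a := n - 1 - (j - P).val) (by omega) (by
      rw [h2, Nat.cast_sub (by omega), Nat.cast_sub (by omega)]; simp; ring)
    omega
  · have := le_of_cast (q := P) (t := s) (a := (i - P).val) l1 (by simp; linear_combination -h2)
    omega

theorem ppp [NeZero n] {x : ZMod n → G} (hc : Cy H x) (P : ZMod n) {c d e : Bool × ZMod n}
    (h1 : fac H (cl x c) = fac H (cl x d)) (h2 : fac H (cl x d) = fac H (cl x e))
    (s1 : c.1 = d.1) (s2 : d.1 = e.1) (h : cl x c * cl x d * cl x e = 1) :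
    ind x P c (ci d) + ind x P d (ci e) + ind x P e (ci c) ≤ 2 := by
  by_contra con
  have a1 := ind_le x P c (ci d)
  have a2 := ind_le x P d (ci e)
  have a3 := ind_le x P e (ci c)
  have on : ∀ a a', 0 < ind x P a a' → On x P a a' := by
    intro a a' h
    by_contra c
    simp [ind, c] at h
  have o1 := on c (ci d) (by linarith)
  have o2 := on d (ci e) (by linarith)
  have o3 := on e (ci c) (by linarith)
  obtain ⟨b, j⟩ := c
  obtain ⟨b', i⟩ := d
  obtain ⟨b'', k⟩ := e
  simp only at s1 s2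
  subst s1 s2
  have inj : ∀ {i j : ZMod n}, (i - P).val = (j - P).val → i = j := fun h =>
    sub_left_inj.1 (ZMod.val_injective n h)
  cases b
  · simp only [cl, Bool.false_eq_true, if_false, fac_inv] at h1 h2 h
    have l1 := on_le hc h1.symm o1.symm
    have l2 := on_le hc h2.symm o2.symm
    have l3 := on_le hc (h1.trans h2) o3.symm
    obtain rfl : j = i := inj (by omega)
    obtain rfl : j = k := inj (by omega)
    apply hc.h3 j
    rw [← inv_eq_one, ← h]; group
  · simp only [cl, if_true] at h1 h2 h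
    have l1 := on_le hc h1 o1
    have l2 := on_le hc h2 o2
    have l3 := on_le hc (h1.trans h2).symm o3
    obtain rfl : j = i := inj (by omega)
    obtain rfl : j = k := inj (by omega)
    exact hc.h3 j h

theorem hh_par [NeZero n] (hF : FP H) {x : ZMod n → G} (hc : Cy H x) (mk : Fin 4 → ZMod n)
    (hU : ∀ t, Unb x (mk t))
    (hP : ∀ a a', fac H (cl x a) = fac H (cl x a') → a ≠ a' → a.1 = a'.1 → cnt x mk a a' ≤ 2) :
    Fr H x := by
  refine hh hF hc mk hU fun c d e h1 h2 h3 h4 h5 h6 => ?_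
  have P : ∀ c d : Bool × ZMod n, fac H (cl x c) = fac H (cl x d) → d ≠ ci c → c.1 ≠ d.1 →
      cnt x mk c (ci d) ≤ 2 := fun c d h1 h2 h3 =>
    hP c (ci d) (by simpa [fac_inv] using h1) (fun e => h2 (by simp [e]))
      (by revert h3; simp only [ci_fst]; cases c.1 <;> cases d.1 <;> simp)
  by_cases s1 : c.1 = d.1
  · by_cases s2 : d.1 = e.1
    · have := Finset.sum_le_sum (s := Finset.univ) fun t _ => ppp hc (mk t) h1 h2 s1 s2 h6
      simp only [Finset.sum_add_distrib] at this
      simp only [cnt]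
      refine this.trans (by simp; norm_num)
    · linarith [cnt_le x mk c (ci d), P d e h2 h4 s2,
        P e c (h1.trans h2).symm h5 (fun h => s2 (s1.symm.trans h.symm))]
  · by_cases s2 : d.1 = e.1
    · linarith [cnt_le x mk d (ci e), P c d h1 h3 s1,
        P e c (h1.trans h2).symm h5 (fun h => s1 (h.symm.trans s2.symm))]
    · linarith [cnt_le x mk e (ci c), P c d h1 h3 s1, P d e h2 h4 s2]

end Pool.Agent.MP_a38735_al
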