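import Pool.Agent.MP_a38735_al.FreeProd

set_option autoImplicit false

namespace Pool.Agent.MP_a38735_al

open List

variable {G : Type*} [Group G] {H : Bool → Subgroup G}

/-- cyclically reduced lists of length at least two -/
def CR (H : Bool → Subgroup G) (c : List G) : Prop :=
  Red H c ∧ 2 ≤ c.length ∧ ∀ x ∈ c.getLast?, ∀ y ∈ c.head?, fac H x ≠ fac H y

@[simp] theorem last_cons_concat {α : Type*} (x z : α) (l : List α) :
    (x :: (l ++ [z])).getLast? = some z := by
  rw [← cons_append, getLast?_concat]

theorem CR.rot1 {x : G} {l : List G} (h : CR H (x :: l)) : CR H (l ++ [x]) := by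
  obtain ⟨h1, h2, h3⟩ := h
  obtain ⟨hx, hl, hn⟩ := red_cons.1 h1
  cases l with
  | nil => simp at h2
  | cons y l =>
    refine ⟨red_append.2 ⟨hl, red_single hx, ?_⟩, by simpa using h2, ?_⟩
    · intro a ha z hz
      exact h3 a (by simpa using ha) z hz
    · intro a ha z hz
      simp only [cons_append, last_cons_concat,
        Option.mem_def, Option.some.injEq, head?_cons] at ha hz
      subst ha hz
      exact hn _ rfl

theorem isRotated_induction {α : Type*} {P : List α → Prop}
    (h1 : ∀ x l, P (x :: l) → P (l ++ [x])) {c c' : List α} (h : c ~r c') (hc : P c) : P c' := by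
  obtain ⟨n, rfl⟩ := h
  induction n generalizing c with
  | zero => simpa using hc
  | succ n ih =>
    cases c with
    | nil => simpa using hc
    | cons x l => rw [rotate_cons_succ]; exact ih (h1 x l hc)

theorem CR.rot {c c' : List G} (h : c ~r c') (hc : CR H c) : CR H c' :=
  isRotated_induction (P := CR H) (fun _ _ h => h.rot1) h hc

theorem isRotated_cons_append {α : Type*} (x : α) (l : List α) : (x :: l) ~r (l ++ [x]) :=
  ⟨1, by simp⟩

/-- normal forms of conjugates of a cyclically reduced word -/
inductive Hyp (H : Bool → Subgroup G) (c : List G) : List G → ℕ → Prop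
  | base (c' : List G) : c ~r c' → Hyp H c c' 0
  | odd (x : G) (c'' : List G) (y : G) : c ~r (x :: c'') → y ≠ 1 → y ∈ H (fac H x) → y * x ≠ 1 →
      Hyp H c ((y * x) :: c'' ++ [y⁻¹]) 1
  | step (l : List G) (D : ℕ) (z : G) : Hyp H c l (D + 1) → IsL H z →
      (∀ w ∈ l.head?, fac H z ≠ fac H w) → Hyp H c (z :: l ++ [z⁻¹]) (D + 3)

theorem bool_ne_ne {a b c : Bool} (h1 : a ≠ b) (h2 : b ≠ c) : a = c := by
  cases a <;> cases b <;> cases c <;> simp_all

theorem Hyp.props (h : FP H) {c : List G} (hc : CR H c) {l : List G} {D : ℕ} (hl : Hyp H c l D) :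
    Red H l ∧ l.length = D + c.length ∧ ov H l (linv l) = D ∧
      (0 < D → ∀ x ∈ l.getLast?, ∀ y ∈ l.head?, fac H x = fac H y) := by
  induction hl with
  | base c' hr =>
    have h' := hc.rot hr
    refine ⟨h'.1, by simp [hr.perm.length_eq], ?_, by simp⟩
    obtain ⟨h1, h2, h3⟩ := h'
    cases c' with
    | nil => simp
    | cons x l =>
      rcases List.eq_nil_or_concat' l with rfl | ⟨l', z, rfl⟩
      · simp at h2
      · have := h3 z (by simp) x (by simp)
        have h4 : x ≠ z⁻¹ := by
          rintro rfl
          exact this (fac_inv z).symm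
        have h5 : fac H x ≠ fac H z⁻¹ := by rw [fac_inv]; exact this.symm
        simp [ov_cons, h4, h5]
  | odd x c'' y hr hy1 hy2 hy3 =>
    have h' := hc.rot hr
    obtain ⟨h1, h2, h3⟩ := h'
    obtain ⟨hx, hl, hn⟩ := red_cons.1 h1
    have hyf : fac H y = fac H x := h.fac_eq hy2 hy1
    have hyL : IsL H y := h.isL hy2 hy1
    obtain ⟨h4, h5⟩ := h.isL_mul hyL hx hyf hy3
    refine ⟨?_, ?_, ?_, ?_⟩
    · rw [cons_append, red_cons, red_append]
      refine ⟨h4, ⟨hl, red_single hyL.inv, ?_⟩, ?_⟩
      · intro a ha z hz
        simp only [head?_cons, Option.mem_def, Option.some.injEq] at hz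
        subst hz
        rw [fac_inv, hyf]
        refine h3 a ?_ x (by simp)
        cases c'' with
        | nil => simp at ha
        | cons u c'' => simpa using ha
      · intro z hz
        rw [h5, hyf]
        cases c'' with
        | nil => simp at h2
        | cons u c'' => exact hn z (by simpa using hz)
    · simp [hr.perm.length_eq]; omega
    · have h6 : y * x ≠ y := by simpa using hx.1
      simp [ov_cons, h6, h5]
    · intro _ a ha z hz
      simp only [cons_append, last_cons_concat,
        Option.mem_def, Option.some.injEq, head?_cons] at ha hz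
      subst ha hz
      rw [fac_inv, h5]
  | step l D z hl hz hn ih =>
    obtain ⟨h1, h2, h3, h4⟩ := ih
    have hne : l ≠ [] := by
      rintro rfl
      simp at h2; omega
    refine ⟨?_, ?_, ?_, ?_⟩
    · rw [cons_append, red_cons, red_append]
      refine ⟨hz, ⟨h1, red_single hz.inv, ?_⟩, ?_⟩
      · intro a ha w hw
        simp only [head?_cons, Option.mem_def, Option.some.injEq] at hw
        subst hw
        rw [fac_inv]
        obtain ⟨u, l', rfl⟩ := List.exists_cons_of_ne_nil hne
        rw [h4 (by omega) a ha u (by simp)]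
        exact (hn u (by simp)).symm
      · intro w hw
        obtain ⟨u, l', rfl⟩ := List.exists_cons_of_ne_nil hne
        exact hn w (by simpa using hw)
    · simp [h2]; omega
    · simp only [cons_append, linv_cons, linv_append, linv_nil, nil_append, inv_inv, ov_cons,
        if_true]
      obtain ⟨m, hm1, hm2, hm3, -⟩ := h.key l (linv l) h1 h1.linv
      have e1 : ∀ (a b : List G) (u v : G), ov H a b < 2 * a.length → ov H a b < 2 * b.length →
          ov H (a ++ [u]) (b ++ [v]) = ov H a b := by
        intro a
        induction a with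
        | nil => simp
        | cons p a ih =>
          intro b u v h1 h2
          cases b with
          | nil => simp at h2
          | cons q b =>
            simp only [cons_append, ov_cons] at h1 h2 ⊢
            split_ifs with h3 h4
            · simp only [h3, if_true, length_cons] at h1 h2
              rw [ih b u v (by omega) (by omega)]
            · rfl
            · rfl
      have := hc.2.1
      rw [e1 l (linv l) _ _ (by omega) (by simp; omega)]
      omega
    · intro _ a ha w hw
      simp only [cons_append, last_cons_concat,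
        Option.mem_def, Option.some.injEq, head?_cons] at ha hw
      subst ha hw
      rw [fac_inv]

theorem Hyp.conj (h : FP H) {c : List G} (hc : CR H c) {l : List G} {D : ℕ} (hl : Hyp H c l D)
    {y : G} (hy : IsL H y) : ∃ l' D', Hyp H c l' D' ∧ l'.prod = y * l.prod * y⁻¹ := by
  cases hl with
  | base _ hr =>
    obtain ⟨h1, h2, h3⟩ := hc.rot hr
    cases l with
    | nil => simp at h2
    | cons x l =>
      by_cases hf : fac H y = fac H x
      · by_cases h4 : y * x = 1
        · refine ⟨l ++ [x], 0, Hyp.base _ (hr.trans (isRotated_cons_append x l)), ?_⟩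
          have : y = x⁻¹ := eq_inv_of_mul_eq_one_left h4
          subst this
          simp
        · refine ⟨_, 1, Hyp.odd x l y hr hy.1 (hf ▸ hy.2) h4, by simp [mul_assoc]⟩
      · rcases List.eq_nil_or_concat' l with rfl | ⟨l', z, rfl⟩
        · simp at h2
        · have h5 := h3 z (by simp) x (by simp)
          have h6 : fac H y = fac H z := bool_ne_ne hf h5.symm
          have hz : IsL H z := h1.1 z (by simp)
          have hr' : c ~r (z :: x :: l') := by
            refine hr.trans (IsRotated.symm ?_)
            exact isRotated_cons_append z (x :: l')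
          by_cases h4 : y = z
          · subst h4
            exact ⟨_, 0, Hyp.base _ hr', by simp [mul_assoc]⟩
          · have h7 : y * z⁻¹ ≠ 1 := fun e => h4 (mul_inv_eq_one.1 e)
            refine ⟨_, 1, Hyp.odd z (x :: l') (y * z⁻¹) hr' h7
              (mul_mem (h6 ▸ hy.2) (inv_mem hz.2)) (by simpa using hy.1), by simp [mul_assoc]⟩
  | odd x c'' y0 hr hy1 hy2 hy3 =>
    obtain ⟨h1, h2, h3⟩ := hc.rot hr
    have hx : IsL H x := h1.1 x (by simp)
    by_cases hf : fac H y = fac H x
    · by_cases h4 : y * y0 = 1
      · refine ⟨_, 0, Hyp.base _ hr, ?_⟩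
        have : y = y0⁻¹ := eq_inv_of_mul_eq_one_left h4
        subst this
        simp [mul_assoc]
      · by_cases h5 : y * y0 * x = 1
        · refine ⟨_, 0, Hyp.base _ (hr.trans (isRotated_cons_append x c'')), ?_⟩
          have : y = (y0 * x)⁻¹ := eq_inv_of_mul_eq_one_left (by rw [← mul_assoc]; exact h5)
          subst this
          simp [mul_assoc]
        · exact ⟨_, 1, Hyp.odd x c'' (y * y0) hr h4 (mul_mem (hf ▸ hy.2) hy2) h5,
            by simp [mul_assoc]⟩
    · refine ⟨_, 3, Hyp.step _ 0 y (Hyp.odd x c'' y0 hr hy1 hy2 hy3) hy ?_, by simp [mul_assoc]⟩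
      intro w hw
      simp only [cons_append, head?_cons, Option.mem_def, Option.some.injEq] at hw
      subst hw
      have hyf : fac H y0 = fac H x := h.fac_eq hy2 hy1
      rw [(h.isL_mul (h.isL hy2 hy1) hx hyf hy3).2, hyf]
      exact hf
  | step l D z hl hz hn =>
    by_cases hf : fac H y = fac H z
    · by_cases h4 : y * z = 1
      · refine ⟨l, _, hl, ?_⟩
        have : y = z⁻¹ := eq_inv_of_mul_eq_one_left h4
        subst this
        simp [mul_assoc]
      · obtain ⟨h5, h6⟩ := h.isL_mul hy hz hf h4
        refine ⟨_, _, Hyp.step l D (y * z) hl h5 ?_, by simp [mul_assoc]⟩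
        intro w hw
        rw [h6, hf]; exact hn w hw
    · refine ⟨_, _, Hyp.step _ (D + 2) y (Hyp.step l D z hl hz hn) hy ?_, by simp [mul_assoc]⟩
      intro w hw
      simp only [cons_append, head?_cons, Option.mem_def, Option.some.injEq] at hw
      subst hw
      exact hf

theorem FP.hyp (h : FP H) {c : List G} (hc : CR H c) {t : G} (ht : IsConj c.prod t) :
    ∃ D, Hyp H c (h.nf t) D := by
  obtain ⟨g, rfl⟩ := isConj_iff.1 ht
  have : ∀ l : List G, (∀ x ∈ l, IsL H x) →
      ∃ l' D', Hyp H c l' D' ∧ l'.prod = l.prod * c.prod * l.prod⁻¹ := by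
    intro l
    induction l with
    | nil => exact fun _ => ⟨c, 0, Hyp.base c (IsRotated.refl c), by simp⟩
    | cons y l ih =>
      intro hl
      obtain ⟨l', D', h1, h2⟩ := ih (fun x hx => hl x (by simp [hx]))
      obtain ⟨l'', D'', h3, h4⟩ := h1.conj h hc (hl y (by simp))
      exact ⟨l'', D'', h3, by rw [h4, h2]; simp [mul_assoc]⟩
  obtain ⟨l', D', h1, h2⟩ := this (h.nf g) (h.nf_red g).1
  rw [h.nf_prod] at h2
  rw [← h2, h.nf_eq (h1.props h hc).1]
  exact ⟨D', h1⟩

theorem FP.len_conj (h : FP H) {c : List G} (hc : CR H c) {t : G} (ht : IsConj c.prod t) :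
    h.len t = h.o t t⁻¹ + c.length := by
  obtain ⟨D, hD⟩ := h.hyp hc ht
  obtain ⟨-, h2, h3, -⟩ := hD.props h hc
  unfold FP.len FP.o
  rw [h.nf_inv, h3, h2]

theorem FP.rot_of_len (h : FP H) {c : List G} (hc : CR H c) {t : G} (ht : IsConj c.prod t)
    (hl : h.len t ≤ c.length) : c ~r h.nf t := by
  obtain ⟨D, hD⟩ := h.hyp hc ht
  obtain ⟨-, h2, -, -⟩ := hD.props h hc
  unfold FP.len at hl
  have : D = 0 := by omega
  subst this
  generalize h.nf t = l at hD
  cases hD with
  | base _ hr => exact hr

theorem FP.odd_D (h : FP H) {c : List G} (hc : CR H c) {t : G} (ht : IsConj c.prod t) :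
    h.o t t⁻¹ = 0 ∨ h.o t t⁻¹ % 2 = 1 := by
  obtain ⟨D, hD⟩ := h.hyp hc ht
  obtain ⟨-, -, h3, -⟩ := hD.props h hc
  unfold FP.o
  rw [h.nf_inv, h3]
  clear h3
  generalize h.nf t = l at hD
  induction hD with
  | base => simp
  | odd => simp
  | step l D z _ _ _ ih => omega

end Pool.Agent.MP_a38735_al
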