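import Pool.Agent.MP_a38735_al.Cyc

set_option autoImplicit false

namespace Pool.Agent.MP_a38735_al

open List Monoid

variable {A B : Type} [Group A] [Group B]

/-- the two factors of a free product -/
def HH (A B : Type) [Group A] [Group B] : Bool → Subgroup (Coprod A B)
  | true => (Coprod.inl : A →* Coprod A B).range
  | false => (Coprod.inr : B →* Coprod A B).range

/-- the two factors as a family -/
def MM (A B : Type) : Bool → Type
  | true => A
  | false => B

instance instMM : ∀ b, Group (MM A B b)
  | true => inferInstanceAs (Group A)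
  | false => inferInstanceAs (Group B)

/-- projection to a factor -/
def pr : ∀ b, Coprod A B →* MM A B b
  | true => Coprod.fst
  | false => Coprod.snd

/-- comparison map -/
def phi : Coprod A B →* CoprodI (MM A B) :=
  Coprod.lift (CoprodI.of (M := MM A B) (i := true)) (CoprodI.of (M := MM A B) (i := false))

theorem phi_eq {b : Bool} {x : Coprod A B} (hx : x ∈ HH A B b) :
    phi x = CoprodI.of (pr b x) ∧ (pr b x = 1 → x = 1) := by
  cases b
  · obtain ⟨y, rfl⟩ := hx
    exact ⟨rfl, fun h => by rw [show y = 1 from h, map_one]⟩
  · obtain ⟨y, rfl⟩ := hx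
    exact ⟨rfl, fun h => by rw [show y = 1 from h, map_one]⟩

theorem fp_coprod : FP (HH A B) where
  disj := by
    rintro x ⟨a, rfl⟩ ⟨b, hb⟩
    have := congrArg Coprod.fst hb
    simp only [Coprod.fst_apply_inl, Coprod.fst_apply_inr] at this
    rw [← this, map_one]
  gen := by
    intro g
    have : Subgroup.closure ((HH A B true : Set (Coprod A B)) ∪ HH A B false) = ⊤ :=
      Coprod.closure_range_inl_union_inr
    rw [this]; trivial
  ntriv := by
    classical
    intro l hl h1
    let w : CoprodI.Word (MM A B) :=
      { toList := l.map (fun x => ⟨fac (HH A B) x, pr _ x⟩)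
        ne_one := by
          intro p hp
          obtain ⟨x, hx, rfl⟩ := mem_map.1 hp
          exact fun h => (hl.1 x hx).1 ((phi_eq (hl.1 x hx).2).2 h)
        chain_ne := by rw [isChain_map]; exact hl.2 }
    have e : w.prod = phi l.prod := by
      unfold CoprodI.Word.prod
      rw [map_list_prod, map_map]
      congr 1
      exact map_congr_left (fun x hx => (phi_eq (hl.1 x hx).2).1.symm)
    have : w = CoprodI.Word.empty := by
      apply (CoprodI.Word.equiv (M := MM A B)).symm.injective
      change w.prod = CoprodI.Word.empty.prod
      rw [e, h1, map_one, CoprodI.Word.prod_empty]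
    have := congrArg CoprodI.Word.toList this
    simpa [w, CoprodI.Word.empty] using this

theorem inj_of {ρ : Coprod A B}
    (h : ∀ b, ∀ a ∈ HH A B b, a ∈ Subgroup.normalClosure ({ρ} : Set (Coprod A B)) → a = 1) :
    Function.Injective ((QuotientGroup.mk' (Subgroup.normalClosure ({ρ} : Set (Coprod A B)))).comp
      (Coprod.inl : A →* Coprod A B)) ∧
    Function.Injective ((QuotientGroup.mk' (Subgroup.normalClosure ({ρ} : Set (Coprod A B)))).comp
      (Coprod.inr : B →* Coprod A B)) := by
  constructor
  · rw [injective_iff_map_eq_one]
    intro a ha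
    have := h true _ ⟨a, rfl⟩ ((QuotientGroup.eq_one_iff _).1 ha)
    exact Coprod.inl_injective (by simpa using this)
  · rw [injective_iff_map_eq_one]
    intro a ha
    have := h false _ ⟨a, rfl⟩ ((QuotientGroup.eq_one_iff _).1 ha)
    exact Coprod.inr_injective (by simpa using this)

end Pool.Agent.MP_a38735_al
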