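import Pool.Agent.MP_a38735_al.WR
import Pool.Agent.MP_a38735_al.AD3

set_option autoImplicit false
set_option linter.unusedVariables false

namespace Pool.Agent.MP_a38735_al.WL

variable {G : Type*} [Group G]

theorem l2y1 {W : ℤ → G} {n Q i j k l i2 l2 i3 : ℤ} (al : AL W n Q)
    {L : ℤ} (mx : ∀ a b g, 0 < g → g < n → Par W a b g → b - a ≤ L) (hL : L ≤ (n - j - 3) ∧ L ≤ (n + Q - k - 3) ∧ L ≤ (n - l - 3) ∧ L ≤ (n + i - k - 2) ∧ L ≤ (n - l2 - 3) ∧ L ≤ (n + i3 - Q - 2) ∧ L ≤ (i2 + l2 - 1) ∧ L ≤ (n + i2 - k - l - 3))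
    (hy : (0) ≤ (i) ∧ (i) ≤ (j) ∧ (j + 1) ≤ (Q) ∧ (Q) ≤ (k) ∧ (k + 1) ≤ (n) ∧ (Q) ≤ (i + l + 1) ∧ (k + l + 2) ≤ (n) ∧ (Q) ≤ (i2) ∧ (i2) ≤ (i + l + 1) ∧ (Q) ≤ (i2 + l2 + 1) ∧ (i2 + l2 + 2) ≤ (n) ∧ (n) ≤ (k + l + l2 + 2) ∧ (k + l + l2 + 3) ≤ (n + Q) ∧ (0) ≤ (i3) ∧ (n + i3) ≤ (k + l + l2 + 2) ∧ (j + 3) ≤ (n) ∧ (k + 3) ≤ (n + Q) ∧ (l + 3) ≤ (n) ∧ (k + 2) ≤ (n + i) ∧ (l2 + 3) ≤ (n) ∧ (Q + 2) ≤ (n + i3) ∧ (1) ≤ (i2 + l2) ∧ (k + l + 3) ≤ (n + i2) ∧ (n + j + i3) ≤ (k + i2 + l2))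
    (a1 : Par W (0) (j) (k - j))
    (a2 : Par W (Q + j - k) (j) (k - j))
    (s1 : Ant W (0) (i) (i + j))
    (s2 : Ant W (j + 1) (Q) (i + j))
    (b : Par W (i + 1) (i + l + 1) (k - i))
    (tt : Ant W (Q) (i2) (i + l + i2 + 1))
    (c : Par W (i2 + 1) (i2 + l2 + 1) (k + l - i2 + 1))
    (u1 : Ant W (0) (i3) (k + l + l2 + i3 - n + 2))
    (u2 : Ant W (k + l + l2 - n + 3) (Q) (k + l + l2 + i3 - n + 2))
    (d1 : Par W (i3 + 1) (Q) (i2 + l2 - i3 + 1))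
    (d2 : Par W (i2 + l2 + 2) (n) (i3 - i2 - l2 - 1))
    (n1 : Nd W (j) (i) (k))
    (n2 : Nd W (i + l + 1) (i2) (k + l + 1))
    (n3 : Nd W (k + l + l2 - n + 2) (i3) (i2 + l2 + 1)) : False := by
  have ev := al.ev
  obtain ⟨y0, y1, y2, y3, y4, y5, y6, y7, y8, y9, y10, y11, y12, y13, y14, y15, y16, y17, y18, y19, y20, y21, y22, y23⟩ := id hy
  have n1p := And.intro n1.p1 n1.p2
  have n2p := And.intro n2.p1 n2.p2
  have n3p := And.intro n3.p1 n3.p2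
  by_cases z1 : (Q + i2 + l2 + 1) ≤ (n + j + i3)
  · have k1 : (k + i2 + l2 + 2) ≤ (2 * n + j + i3) := by clear * - y16 z1; omega
    have k2 : (k + i2 + l2 + 2) ≤ (n + Q + j) := by clear * - y1 y12 y8; omega
    clear * - al a1 a2 s1 s2 b tt c u1 u2 d1 d2 n1 n2 n3 y23 k1 k2 z1
    exact al.ubQ (k + i2 + l2 - n - j - i3 + 1) (by omega) (by omega) fun t h1 h2 => (cE (sh al 1 t (t + (n)) (by omega)) (cE (qf d1 al 1 (t + (n)) (t + (i2 + l2 - i3 + 1)) (by omega)) (qf a2 al 1 (t + (i2 + l2 - i3 + 1)) (t + (k + i2 + l2 - n - j - i3 + 1)) (by omega))))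
  · by_cases z2 : (i2 + l2 + i3 + 3) ≤ (n + 2 * i)
    · have k3 : (i2 + l2 + 2) ≤ (n + i3) := by clear * - y10 y13; omega
      have k4 : (n + 2 * j + i3 + 1) ≤ (2 * Q + i2 + l2) := by clear * - y10 y13 z1; omega
      have k5 : (n + 2 * i + 2 * j + i3 + 1) ≤ (4 * Q + i2 + l2) := by clear * - y1 y10 y13 z1; omega
      have k6 : (3 * i2 + 3 * l2 + i3 + 5) ≤ (3 * n + 2 * i + 2 * j) := by clear * - y1 y10 y13 z2; omega
      have k7 : (i + j) % 2 = 0 := by clear * - ev n1p n2p n3p; omega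
      have k8 : (n + i3 - i2 - l2 - 1) % 2 = 0 := by clear * - ev n1p n2p n3p; omega
      clear * - al a1 a2 s1 s2 b tt c u1 u2 d1 d2 n1 n2 n3 k3 k4 k5 z2 k6 k7 k8
      exact midP al (n + i3 - i2 - l2 - 1) (i + j) (max (i2 + l2 - n + 2) (i + j - Q + 1)) (i2 + l2 - n + 2) (Q) (by omega) (fun t h1 h2 => (ab s2 al 0 t ((i + j) - t) (by omega))) (fun t h1 h2 => (pb d1 al (-1) t (t + (n + i3 - i2 - l2 - 1)) (by omega)))
    · have k9 : (k + l + i2 + 3) ≤ (2 * n + i + j) := by clear * - y0 y1 y10 y14 y6 z2; omega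
      have k10 : (i + j + k + l + 3) ≤ (2 * Q + i2) := by clear * - y10 y12 y13 z1 z2; omega
      have k11 : (2 * n + i + j) ≤ (k + l + i2 + 2 * l2 + 2) := by clear * - y23 y8 z2 ev n1p n2p n3p; omega
      have k12 : (j + i2) ≤ (i + k + l) := by clear * - y10 y13 y23 y8; omega
      obtain ⟨t, ht⟩ : ∃ t, 2 * t = (4 * n + i + j + k + l - i2 + 1) := ⟨(4 * n + i + j + k + l - i2 + 1) / 2, by clear * - ev n1p n2p n3p; omega⟩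
      clear * - al a1 a2 s1 s2 b tt c u1 u2 d1 d2 n1 n2 n3 k9 k10 k11 k12 ht
      exact al.ninv t (cE (cI (pb c al 1 t (t + (i2 - n - k - l - 1)) (by omega)) (ab s2 al 1 (t + (i2 - n - k - l - 1)) ((2 * n + i + j + k + l - i2 + 1) - t) (by omega))) (sh al 2 ((2 * n + i + j + k + l - i2 + 1) - t) t (by omega)))


theorem l2y2 {W : ℤ → G} {n Q i j k l i2 l2 i3 : ℤ} (al : AL W n Q)
    {L : ℤ} (mx : ∀ a b g, 0 < g → g < n → Par W a b g → b - a ≤ L) (hL : L ≤ (n - j - 3) ∧ L ≤ (n + Q - k - 3) ∧ L ≤ (n - l - 3) ∧ L ≤ (n + i - k - 2) ∧ L ≤ (n - l2 - 3) ∧ L ≤ (n + i3 - Q - 2) ∧ L ≤ (i2 + l2 - 1) ∧ L ≤ (n + i2 - k - l - 3))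
    (hy : (0) ≤ (i) ∧ (i) ≤ (j) ∧ (j + 1) ≤ (Q) ∧ (Q) ≤ (k) ∧ (k + 1) ≤ (n) ∧ (Q) ≤ (i + l + 1) ∧ (k + l + 2) ≤ (n) ∧ (Q) ≤ (i2) ∧ (i2) ≤ (i + l + 1) ∧ (Q) ≤ (i2 + l2 + 1) ∧ (i2 + l2 + 2) ≤ (n) ∧ (n) ≤ (k + l + l2 + 2) ∧ (k + l + l2 + 3) ≤ (n + Q) ∧ (0) ≤ (i3) ∧ (n + i3) ≤ (k + l + l2 + 2) ∧ (j + 3) ≤ (n) ∧ (k + 3) ≤ (n + Q) ∧ (l + 3) ≤ (n) ∧ (k + 2) ≤ (n + i) ∧ (l2 + 3) ≤ (n) ∧ (Q + 2) ≤ (n + i3) ∧ (1) ≤ (i2 + l2) ∧ (k + l + 3) ≤ (n + i2) ∧ (k + i2 + l2 + 2) ≤ (n + j + i3) ∧ (n + i3) ≤ (k + i2 + l2 + 1))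
    (a1 : Par W (0) (j) (k - j))
    (a2 : Par W (Q + j - k) (j) (k - j))
    (s1 : Ant W (0) (i) (i + j))
    (s2 : Ant W (j + 1) (Q) (i + j))
    (b : Par W (i + 1) (i + l + 1) (k - i))
    (tt : Ant W (Q) (i2) (i + l + i2 + 1))
    (c : Par W (i2 + 1) (i2 + l2 + 1) (k + l - i2 + 1))
    (u1 : Ant W (0) (i3) (k + l + l2 + i3 - n + 2))
    (u2 : Ant W (k + l + l2 - n + 3) (Q) (k + l + l2 + i3 - n + 2))
    (d1 : Par W (i3 + 1) (Q) (i2 + l2 - i3 + 1))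
    (d2 : Par W (i2 + l2 + 2) (n) (i3 - i2 - l2 - 1))
    (n1 : Nd W (j) (i) (k))
    (n2 : Nd W (i + l + 1) (i2) (k + l + 1))
    (n3 : Nd W (k + l + l2 - n + 2) (i3) (i2 + l2 + 1)) : False := by
  have ev := al.ev
  obtain ⟨y0, y1, y2, y3, y4, y5, y6, y7, y8, y9, y10, y11, y12, y13, y14, y15, y16, y17, y18, y19, y20, y21, y22, y23, y24⟩ := id hy
  have n1p := And.intro n1.p1 n1.p2
  have n2p := And.intro n2.p1 n2.p2
  have n3p := And.intro n3.p1 n3.p2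
  by_cases z1 : (j + i3 + 1) ≤ (k)
  · have k1 : (j + i3) ≤ (k + i2 + l2) := by clear * - y21 z1; omega
    clear * - al a1 a2 s1 s2 b tt c u1 u2 d1 d2 n1 n2 n3 y23 k1 z1 y24
    exact al.ubP (n + j + i3 - k - i2 - l2 - 1) (by omega) (by omega) fun t h1 h2 => (cE (sh al 2 t (t + (2 * n)) (by omega)) (cE (qf d2 al 1 (t + (2 * n)) (t + (n + i3 - i2 - l2 - 1)) (by omega)) (pb a1 al 0 (t + (n + i3 - i2 - l2 - 1)) (t + (n + j + i3 - k - i2 - l2 - 1)) (by omega))))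
  · by_cases z2 : (k + 2 * l + 2 * l2 + 6) ≤ (2 * n + j)
    · have k2 : (j + 1) ≤ (k) := by clear * - y2 y3; omega
      have k3 : (k) ≤ (j + 2 * i3) := by clear * - y13 z1; omega
      have k4 : (2 * n) ≤ (j + k + 2 * l + 2 * l2 + 2 * i3 + 6) := by clear * - y13 y14 z1; omega
      have k5 : (2 * l + 2 * l2 + 2 * i3 + 6) ≤ (2 * n + j + k) := by clear * - y10 y24 z2; omega
      have k6 : (n + k + l + l2 + i3 + 2) % 2 = 0 := by clear * - ev n1p n2p n3p; omega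
      have k7 : (k - j) % 2 = 0 := by clear * - ev n1p n2p n3p; omega
      clear * - al a1 a2 s1 s2 b tt c u1 u2 d1 d2 n1 n2 n3 k2 k3 z2 k4 k5 k6 k7
      exact midP al (k - j) (n + k + l + l2 + i3 + 2) (max (n) (max (k + l + l2 + 3) (l + l2 + i3 + 3))) (n) (n + k) (by omega) (fun t h1 h2 => (cE (ab u1 al 1 t ((k + l + l2 + i3 + 2) - t) (by omega)) (sh al 1 ((k + l + l2 + i3 + 2) - t) ((n + k + l + l2 + i3 + 2) - t) (by omega)))) (fun t h1 h2 => (cE (qf a1 al 1 t (t + (k - n - j)) (by omega)) (sh al 1 (t + (k - n - j)) (t + (k - j)) (by omega))))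
    · by_cases z3 : (n + i) ≤ (l + l2 + i3)
      · have k8 : (i + l + l2 + 4) ≤ (n + i3) := by clear * - y12 y3 z3; omega
        have k9 : (l2 + i3 + 1) ≤ (n + i + l) := by clear * - y12 y14 y19 y7 y8; omega
        have k10 : (n) ≤ (i + l + l2 + i3 + 3) := by clear * - y0 z3; omega
        obtain ⟨t, ht⟩ : ∃ t, 2 * t = (i + l + l2 + i3 - 3 * n + 2) := ⟨(i + l + l2 + i3 - 3 * n + 2) / 2, by clear * - ev n1p n2p n3p; omega⟩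
        clear * - al a1 a2 s1 s2 b tt c u1 u2 d1 d2 n1 n2 n3 z3 k8 k9 k10 ht
        exact al.ninv t (cE (cI (qf b al (-1) t (t + (n + k - i)) (by omega)) (ab u1 al 0 (t + (n + k - i)) ((i + l + l2 + i3 - 2 * n + 2) - t) (by omega))) (sh al (-1) ((i + l + l2 + i3 - 2 * n + 2) - t) t (by omega)))
      · have k11 : (k) ≤ (2 * i + j) := by clear * - z1 z2 z3 ev n1p n2p n3p; omega
        have k12 : (k) ≤ (2 * i + 3 * j + 2) := by clear * - y23 y24 z1 z2 z3; omega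
        have k13 : (j + 2) ≤ (k) := by clear * - y12 y3 z2 ev n1p n2p n3p; omega
        have k14 : (2 * i + j + 2) ≤ (3 * k) := by clear * - y1 y12 y3 z2; omega
        have k15 : (i + j - 2 * n) % 2 = 0 := by clear * - ev n1p n2p n3p; omega
        have k16 : (k - j) % 2 = 0 := by clear * - ev n1p n2p n3p; omega
        clear * - al a1 a2 s1 s2 b tt c u1 u2 d1 d2 n1 n2 n3 k11 k12 k13 k14 k15 k16
        exact midP al (k - j) (i + j - 2 * n) (max (i + j - n - k + 1) (-n)) (-n) (k - n) (by omega) (fun t h1 h2 => (cE (qa s1 al (-1) t ((i + j - n) - t) (by omega)) (sh al (-1) ((i + j - n) - t) ((i + j - 2 * n) - t) (by omega)))) (fun t h1 h2 => (cE (qf a1 al (-1) t (t + (n + k - j)) (by omega)) (sh al (-1) (t + (n + k - j)) (t + (k - j)) (by omega))))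


theorem l2y3 {W : ℤ → G} {n Q i j k l i2 l2 i3 : ℤ} (al : AL W n Q)
    {L : ℤ} (mx : ∀ a b g, 0 < g → g < n → Par W a b g → b - a ≤ L) (hL : L ≤ (n - j - 3) ∧ L ≤ (n + Q - k - 3) ∧ L ≤ (n - l - 3) ∧ L ≤ (n + i - k - 2) ∧ L ≤ (n - l2 - 3) ∧ L ≤ (n + i3 - Q - 2) ∧ L ≤ (i2 + l2 - 1) ∧ L ≤ (n + i2 - k - l - 3))
    (hy : (0) ≤ (i) ∧ (i) ≤ (j) ∧ (j + 1) ≤ (Q) ∧ (Q) ≤ (k) ∧ (k + 1) ≤ (n) ∧ (Q) ≤ (i + l + 1) ∧ (k + l + 2) ≤ (n) ∧ (Q) ≤ (i2) ∧ (i2) ≤ (i + l + 1) ∧ (Q) ≤ (i2 + l2 + 1) ∧ (i2 + l2 + 2) ≤ (n) ∧ (n) ≤ (k + l + l2 + 2) ∧ (k + l + l2 + 3) ≤ (n + Q) ∧ (0) ≤ (i3) ∧ (n + i3) ≤ (k + l + l2 + 2) ∧ (j + 3) ≤ (n) ∧ (k + 3) ≤ (n + Q) ∧ (l + 3) ≤ (n) ∧ (k + 2) ≤ (n + i) ∧ (l2 + 3) ≤ (n) ∧ (Q + 2) ≤ (n + i3) ∧ (1) ≤ (i2 + l2) ∧ (k + l + 3) ≤ (n + i2) ∧ (2 * Q + k) ≤ (i + 2 * i2))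
    (a1 : Par W (0) (j) (k - j))
    (a2 : Par W (Q + j - k) (j) (k - j))
    (s1 : Ant W (0) (i) (i + j))
    (s2 : Ant W (j + 1) (Q) (i + j))
    (b : Par W (i + 1) (i + l + 1) (k - i))
    (tt : Ant W (Q) (i2) (i + l + i2 + 1))
    (c : Par W (i2 + 1) (i2 + l2 + 1) (k + l - i2 + 1))
    (u1 : Ant W (0) (i3) (k + l + l2 + i3 - n + 2))
    (u2 : Ant W (k + l + l2 - n + 3) (Q) (k + l + l2 + i3 - n + 2))
    (d1 : Par W (i3 + 1) (Q) (i2 + l2 - i3 + 1))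
    (d2 : Par W (i2 + l2 + 2) (n) (i3 - i2 - l2 - 1))
    (n1 : Nd W (j) (i) (k))
    (n2 : Nd W (i + l + 1) (i2) (k + l + 1))
    (n3 : Nd W (k + l + l2 - n + 2) (i3) (i2 + l2 + 1)) : False := by
  have ev := al.ev
  obtain ⟨y0, y1, y2, y3, y4, y5, y6, y7, y8, y9, y10, y11, y12, y13, y14, y15, y16, y17, y18, y19, y20, y21, y22, y23⟩ := id hy
  have n1p := And.intro n1.p1 n1.p2
  have n2p := And.intro n2.p1 n2.p2
  have n3p := And.intro n3.p1 n3.p2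
  have k1 : (2 * Q + k) ≤ (i + 2 * l + 2 * i2 + 2) := by clear * - y1 y10 y13 y14 y2 y23 y8; omega
  have k2 : (2 * Q) ≤ (i + k + 2 * l + 2) := by clear * - y10 y13 y14 y23; omega
  have k3 : (i + k + 2) ≤ (2 * i2) := by clear * - y1 y2 y23; omega
  have k4 : (i + k) ≤ (2 * l + 2 * i2) := by clear * - y1 y10 y13 y14 y2 y23 y8; omega
  have k5 : (i + 2) ≤ (k) := by clear * - y1 y2 y3 ev n1p n2p n3p; omega
  have k6 : (i + 2 * i2) ≤ (3 * k + 2 * l) := by clear * - y1 y10 y13 y14 y2 y3; omega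
  have k7 : (i + l + i2 + 1) % 2 = 0 := by clear * - ev n1p n2p n3p; omega
  have k8 : (k - i) % 2 = 0 := by clear * - ev n1p n2p n3p; omega
  clear * - al a1 a2 s1 s2 b tt c u1 u2 d1 d2 n1 n2 n3 y23 k1 k2 k3 k4 k5 k6 k7 k8
  exact midP al (k - i) (i + l + i2 + 1) (max (Q) (max (i + i2 - k + 1) (i + 1))) (i + 1) (k + l + 1) (by omega) (fun t h1 h2 => (qa tt al 0 t ((i + l + i2 + 1) - t) (by omega))) (fun t h1 h2 => (qf b al 0 t (t + (k - i)) (by omega)))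


/-- the region of `L2x` in which the strip after `i3, k3` reaches beyond `k` -/
def L2z (G : Type*) [Group G] : Prop :=
  ∀ (W : ℤ → G) (n Q i j k p q i2 i3 j3 k3 L : ℤ), AL W n Q → Lm W n Q L →
    Bd W n L j i k → Bd W n L j3 i3 k3 →
    (L + j + 3 ≤ n ∧ L + k - Q + 3 ≤ n ∧ L + p - i + 2 ≤ n ∧ L + k - i + 2 ≤ n ∧
      L + k3 - i2 + 2 ≤ n ∧ L + Q - i3 + 2 ≤ n ∧ L + 2 ≤ k3 - j3) →
    (0 ≤ i ∧ i ≤ j ∧ j < Q ∧ Q ≤ k ∧ q = p + k - i ∧ q < n ∧ Q ≤ i2 ∧ i2 ≤ p ∧ k3 < n ∧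
      j3 + n = k3 + q - i2 ∧ 0 ≤ i3 ∧ i3 ≤ j3 ∧ j3 < Q) →
    (k + k3 < n + i3 ∧ 2 * (i2 - Q) < k - i) →
    Par W 0 j (k - j) → Par W (Q - (k - j)) j (k - j) → Ant W 0 i (i + j) →
    Ant W (j + 1) Q (i + j) → Par W (i + 1) p (k - i) → Ant W Q i2 (i2 + p) →
    Par W (i2 + 1) k3 (q - i2) → Ant W 0 i3 (i3 + j3) → Ant W (j3 + 1) Q (i3 + j3) →
    Par W (i3 + 1) Q (k3 - i3) → Par W (k3 + 1) n (i3 - k3) →
    Nd W j i k → Nd W p i2 q → Nd W j3 i3 k3 → False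

theorem l2x_of2 (hz : L2z G) : L2x G := by
  refine l2x_of fun W n Q i j k p q i2 i3 j3 k3 L al lm bd1 bd3 hL hy a1 a2 s1 s2 b tt c u1 u2 d1
    d2 n1 n2 n3 => ?_
  have l0 := lm.l0
  by_cases z : k + k3 < n + i3 ∧ 2 * (i2 - Q) < k - i
  · exact hz W n Q i j k p q i2 i3 j3 k3 L al lm bd1 bd3 hL hy z a1 a2 s1 s2 b tt c u1 u2 d1 d2 n1
      n2 n3
  by_cases e : k - j + k3 - i3 = n
  · exact ad3 al hy a1 s2 b tt c d2 n1 n2 n3 e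
  by_cases z1 : n < k - j + k3 - i3
  · exact l2y1 (i := i) (j := j) (k := k) (l := p - i - 1) (i2 := i2) (l2 := k3 - i2 - 1) (i3 := i3) al lm.mx (by omega) (by omega) (a1.cq (by omega)) (a2.cq (by omega)) (s1.cq (by omega)) (s2.cq (by omega)) (b.cq (by omega)) (tt.cq (by omega)) (c.cq (by omega)) (u1.cq (by omega)) (u2.cq (by omega)) (d1.cq (by omega)) (d2.cq (by omega)) (n1.cq (by omega)) (n2.cq (by omega)) (n3.cq (by omega))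
  by_cases z2 : n + i3 ≤ k + k3
  · exact l2y2 (i := i) (j := j) (k := k) (l := p - i - 1) (i2 := i2) (l2 := k3 - i2 - 1) (i3 := i3) al lm.mx (by omega) (by omega) (a1.cq (by omega)) (a2.cq (by omega)) (s1.cq (by omega)) (s2.cq (by omega)) (b.cq (by omega)) (tt.cq (by omega)) (c.cq (by omega)) (u1.cq (by omega)) (u2.cq (by omega)) (d1.cq (by omega)) (d2.cq (by omega)) (n1.cq (by omega)) (n2.cq (by omega)) (n3.cq (by omega))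
  · exact l2y3 (i := i) (j := j) (k := k) (l := p - i - 1) (i2 := i2) (l2 := k3 - i2 - 1) (i3 := i3) al lm.mx (by omega) (by omega) (a1.cq (by omega)) (a2.cq (by omega)) (s1.cq (by omega)) (s2.cq (by omega)) (b.cq (by omega)) (tt.cq (by omega)) (c.cq (by omega)) (u1.cq (by omega)) (u2.cq (by omega)) (d1.cq (by omega)) (d2.cq (by omega)) (n1.cq (by omega)) (n2.cq (by omega)) (n3.cq (by omega))

end Pool.Agent.MP_a38735_al.WL
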