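import Pool.Agent.MP_a38735_al.AP

set_option autoImplicit false
set_option linter.unusedVariables false

namespace Pool.Agent.MP_a38735_al.WL.L3c1

variable {G : Type*} [Group G]

structure C (W : ℤ → G) (N Q i a b l m c d : ℤ) : Prop where
  al : AL W (2*N) Q
  a1 : Par W (0) (i + 2*a) (2*b)
  a2 : Par W (Q - 2*b) (i + 2*a) (2*b)
  s1 : Ant W (0) (i) (2*i + 2*a)
  s2 : Ant W (i + 2*a + 1) (Q) (2*i + 2*a)
  bb : Par W (i + 1) (i + l + 1) (2*a + 2*b)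
  c1 : Par W (i + 2*a + 2*b + l + 2*c + 2) (Q) (-2*a - 2*b - 2*c)
  c2 : Par W (i + l + 2) (2*N) (2*a + 2*b + 2*c)
  n1 : Nd W (i + 2*a) (i) (i + 2*a + 2*b)
  n2 : Nd W (i + 2*a + 2*b + l + 1) (i + 2*a + 2*b + l + 2*c + 1) (i + l + 1)

/-- the linear side conditions -/
abbrev B (N Q i a b l m c d : ℤ) : Prop :=
  0 ≤ i ∧ 0 ≤ a ∧ i + 2*a + 1 ≤ Q ∧ Q ≤ i + 2*a + 2*b ∧ i + 2*a + 2*b + 1 ≤ 2*N ∧ 0 ≤ i + 2*a + 2*b + l + 2*c + 1 ∧ i + 2*a + 2*b + l + 2*c + 2 ≤ Q ∧ Q ≤ i + l + 1 ∧ i + 2*a + 2*b + l + 2 ≤ 2*N ∧ 0 ≤ d ∧ d ≤ 0 ∧ m ≤ 0 ∧ 0 ≤ m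

variable {W : ℤ → G} {N Q i a b l m c d U V : ℤ}

theorem T0_0 (X : C W N Q i a b l m c d) (hb : B N Q i a b l m c d)
    (h : b ≤ i) :
    False := by
  obtain ⟨b1, b2, b3, b4, b5, b6, b7, b8, b9, b10, b11, b12, b13⟩ := hb
  have g1 := h
  have k1 : 1 ≤ b := by clear * - b3 b4; omega
  have k2 : 1 ≤ 2*a + 3*b := by clear * - b2 b3 b4; omega
  have k3 : 1 ≤ i + 2*a := by clear * - b2 b4 b6 b7 g1; omega
  clear * - X g1 k1 k2 k3
  obtain ⟨L, hL⟩ : ∃ L : ℤ, -2*i - 2*a ≤ 2*L ∧ -2*a - 4*b + 2 ≤ 2*L ∧ 2*L + 2*(b) - 2 ≤ -2*a - 2 ∧ 2*L + 2*(b) - 2 ≤ 2*i + 2*a ∧ 2*L + 2*(b) - 2 ≤ 2*a + 4*b - 2 := ⟨((max (-2*a - 4*b + 2) (-2*i - 2*a)) + 1) / 2, by omega⟩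
  obtain ⟨R, hR1, hR2, hR⟩ := pw (A := 0) (B := i + 2*a + 2*b) (γ := b) (by omega) (fun t h1 h2 => (fin X.al.per 0 _ (pf X.a1 X.al.per 0 (2*b + t) (rfl : W (t) = W (t)) (by omega)) (by omega))) L
  exact X.al.ninv (i + a + R) (fin X.al.per 0 _ (pp hR X.al.per 0 (i + a + R) (af X.s1 X.al.per 0 (i + a - R) (rfl : W (i + a + R) = W (i + a + R)) (by omega)) (by omega)) (by omega))

theorem T0_1 (X : C W N Q i a b l m c d) (hb : B N Q i a b l m c d)
    (h : 0 ≤ 2*a + 2*b + l + 2*c + 1) :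
    False := by
  obtain ⟨b1, b2, b3, b4, b5, b6, b7, b8, b9, b10, b11, b12, b13⟩ := hb
  have g1 := h
  have k1 : 0 ≤ a + b := by clear * - b4 b7 g1; omega
  have k2 : a + b + c + 1 ≤ 0 := by clear * - b7 b8; omega
  clear * - X g1 k1 b9 k2
  obtain ⟨φ, H, T, ht, h0⟩ := exH X.al (i + 2*a + 2*b + l + 1)
  obtain ⟨Dbb, hbb⟩ := ht.par X.bb (by omega)
  obtain ⟨Dc2, hc2⟩ := ht.par X.c2 (by omega)
  have e1 := hc2 0 0 (i + 2*a + 2*b + l + 2) (i + 4*a + 4*b + l + 2*c + 2) (by omega)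
  have e2 := hbb 0 0 (i + 2*a + 2*b + l + 2*c + 2) (i + 4*a + 4*b + l + 2*c + 2) (by omega)
  have e3 := hbb 0 0 (i + l + 1) (i + 2*a + 2*b + l + 1) (by omega)
  have e4 := hc2 0 0 (i + l + 2) (i + 2*a + 2*b + l + 2*c + 2) (by omega)
  have e5 := ht.lt (i + 2*a + 2*b + l + 1) 0 0 (i + 2*a + 2*b + l + 1) (i + 2*a + 2*b + l + 2) (by omega)
  have e6 := ht.lt (i + l + 1) 0 0 (i + l + 1) (i + l + 2) (by omega)
  have t1 := ht.tri X.n2
  omega

theorem T0_2 (X : C W N Q i a b l m c d) (hb : B N Q i a b l m c d)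
    (h : i + 2*a + l + 2*c + 2 ≤ 0 ∧ 2*N + 2*c ≤ i) :
    False := by
  obtain ⟨b1, b2, b3, b4, b5, b6, b7, b8, b9, b10, b11, b12, b13⟩ := hb
  obtain ⟨g1, g2⟩ := h
  have k1 : 1 ≤ N + a + c := by clear * - b2 b6 b9; omega
  have k2 : a + c + 1 ≤ 0 := by clear * - b6 b7 b8 g1; omega
  clear * - X g1 g2 k1 k2
  exact X.al.ubP (2*N + 2*a + 2*c) (by omega) (by omega) fun t h1 h2 => (fin X.al.per 0 _ (pr X.a1 X.al.per 0 (2*N + 2*a + 2*c + t) (pf X.c2 X.al.per (-1) (2*N + 2*a + 2*b + 2*c + t) (rfl : W (t) = W (t)) (by omega)) (by omega)) (by omega))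

theorem T0_3 (X : C W N Q i a b l m c d) (hb : B N Q i a b l m c d)
    (h : 2*b + c ≤ i ∧ l + c + 2 ≤ 0 ∧ 1 ≤ 2*b + c) :
    False := by
  obtain ⟨b1, b2, b3, b4, b5, b6, b7, b8, b9, b10, b11, b12, b13⟩ := hb
  obtain ⟨g1, g2, g3⟩ := h
  have k1 : 1 ≤ 2*a + 2*b + c := by clear * - b2 g3; omega
  have k2 : i + 1 ≤ 2*N + c := by clear * - b2 b5 g3; omega
  clear * - X g1 g2 g3 k1 k2
  exact X.al.ninv (i - 2*b - c) (fin X.al.per 0 _ (ar X.s1 X.al.per 0 (i - 2*b - c) (pf X.c2 X.al.per 0 (i + 2*a + 2*b + c) (pf X.a1 X.al.per 0 (i - c) (rfl : W (i - 2*b - c) = W (i - 2*b - c)) (by omega)) (by omega)) (by omega)) (by omega))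

theorem T0_4 (X : C W N Q i a b l m c d) (hb : B N Q i a b l m c d)
    (h : 2*b + l + 2*c + 2 ≤ 0 ∧ a + 2*b + c ≤ 0 ∧ 0 ≤ a + 2*b + c) :
    False := by
  obtain ⟨b1, b2, b3, b4, b5, b6, b7, b8, b9, b10, b11, b12, b13⟩ := hb
  obtain ⟨g1, g2, g3⟩ := h
  clear * - X g1 g2 g3 b6
  exact X.n2.xz (fin X.al.per 0 _ (pf X.a1 X.al.per 0 (i + 2*a + 4*b + l + 2*c + 1) (rfl : W (i + 2*a + 2*b + l + 2*c + 1) = W (i + 2*a + 2*b + l + 2*c + 1)) (by omega)) (by omega)).symm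

theorem T0_5 (X : C W N Q i a b l m c d) (hb : B N Q i a b l m c d)
    (h : i + l + 2 ≤ Q + 2*a + 2*b ∧ 2*a + 2*b + c + 1 ≤ 0 ∧ Q ≤ i + 4*a + 4*b + l + 2*c + 1) :
    False := by
  obtain ⟨b1, b2, b3, b4, b5, b6, b7, b8, b9, b10, b11, b12, b13⟩ := hb
  obtain ⟨g1, g2, g3⟩ := h
  have k1 : i + 1 ≤ Q := by clear * - b2 b3; omega
  have k2 : 1 ≤ N + 2*a + 2*b + c := by clear * - b6 b9 g1 g2 g3; omega
  clear * - X g1 g2 g3 k1 k2
  exact X.al.ubQ (-4*a - 4*b - 2*c) (by omega) (by omega) fun t h1 h2 => (fin X.al.per 0 _ (pr X.bb X.al.per 0 (-4*a - 4*b - 2*c + t) (pf X.c1 X.al.per 0 (-2*a - 2*b - 2*c + t) (rfl : W (t) = W (t)) (by omega)) (by omega)) (by omega))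

theorem T0_6 (X : C W N Q i a b l m c d) (hb : B N Q i a b l m c d)
    (h : 2*a + 2*b + l + 2*c + 2 ≤ 0 ∧ 0 ≤ 2*a + 2*b + l + 2*c + 2 ∧ (l) % 2 = 0) :
    False := by
  obtain ⟨b1, b2, b3, b4, b5, b6, b7, b8, b9, b10, b11, b12, b13⟩ := hb
  obtain ⟨g1, g2, g3⟩ := h
  have k1 : 0 ≤ l := by clear * - b2 b3 b8; omega
  have k2 : 0 ≤ a + b := by clear * - b4 b7 g2; omega
  clear * - X g1 g2 g3 k1 k2 b9
  obtain ⟨φ, H, T, ht, h0⟩ := exH X.al (i + 2*a + 2*b + l + 1)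
  obtain ⟨Dbb, hbb⟩ := ht.par X.bb (by omega)
  obtain ⟨Dc2, hc2⟩ := ht.par X.c2 (by omega)
  have e1 := hbb 0 0 (i + 1) (i + 2*a + 2*b + 1) (by omega)
  have e2 := hc2 0 0 (i + 2*a + 2*b + l + 2) (i + 2*a + 2*b) (by omega)
  have e3 := hbb 0 0 (i + l + 1) (i + 2*a + 2*b + l + 1) (by omega)
  have e4 := hc2 0 0 (i + l + 2) (i) (by omega)
  have e5 := ht.lt (i + 2*a + 2*b + l + 1) 0 0 (i + 2*a + 2*b + l + 1) (i + 2*a + 2*b + l + 2) (by omega)
  have e6 := ht.lt (i + l + 1) 0 0 (i + l + 1) (i + l + 2) (by omega)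
  have e7 := ht.ze 0 0 (i) (i + 1) (by omega)
  have e8 := ht.ze 0 0 (i + 2*a + 2*b) (i + 2*a + 2*b + 1) (by omega)
  have t1 := ht.tri X.n2
  omega

theorem T0_7 (X : C W N Q i a b l m c d) (hb : B N Q i a b l m c d)
    (h : 1 ≤ l ∧ 2*a + 2*b + l + 2*c + 3 ≤ 0 ∧ 0 ≤ a + 2*b + l + c + 1) :
    False := by
  obtain ⟨b1, b2, b3, b4, b5, b6, b7, b8, b9, b10, b11, b12, b13⟩ := hb
  obtain ⟨g1, g2, g3⟩ := h
  have k1 : 1 ≤ a + b := by clear * - b2 b3 b4; omega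
  have k2 : 0 ≤ i + 2*a + 2*b + l + 2*c + 2 := by clear * - b6; omega
  have k3 : 2*b + l + 2*c + 1 ≤ 0 := by clear * - b2 g2; omega
  clear * - X g1 g2 g3 k1 b9 k2 k3
  exact rr1a X.al.ninv (a + b) (-a - b - c) (i + a) (i + 2*a + 2*b + l + 2*c + 2) (i) (i) (i + 2*a + 2*b) (by omega) (ne' X.n1.xz X.al.per 0 0 (by omega))
    (fun t h1 h2 => (fin X.al.per 0 _ (pf X.bb X.al.per 0 (2*a + 2*b + t) (rfl : W (t) = W (t)) (by omega)) (by omega)))
    (fun t h1 h2 => (fin X.al.per 0 _ (pr X.c2 X.al.per 0 (-2*a - 2*b - 2*c + t) (rfl : W (t) = W (t)) (by omega)) (by omega)))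
    (fun t h1 h2 => (fin X.al.per 0 _ (af X.s1 X.al.per 0 (2*i + 2*a - t) (rfl : W (t) = W (t)) (by omega)) (by omega)))

theorem T0_8 (X : C W N Q i a b l m c d) (hb : B N Q i a b l m c d)
    (h : 2*a + 2*b + l + 2*c + 2 ≤ 0 ∧ 0 ≤ 2*a + 2*b + c ∧ 2*a + 2*b + c ≤ 0) :
    False := by
  obtain ⟨b1, b2, b3, b4, b5, b6, b7, b8, b9, b10, b11, b12, b13⟩ := hb
  obtain ⟨g1, g2, g3⟩ := h
  have k1 : i + 1 ≤ Q := by clear * - b2 b3; omega
  clear * - X g1 g2 g3 k1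
  exact X.n1.xz (fin X.al.per 0 _ (pf X.c1 X.al.per 0 (i - 2*a - 2*b - 2*c) (rfl : W (i) = W (i)) (by omega)) (by omega)).symm

theorem T0_9 (X : C W N Q i a b l m c d) (hb : B N Q i a b l m c d)
    (h : i + 4*a + 4*b + 2*c + 1 ≤ Q ∧ 1 ≤ 2*a + 2*b + c) :
    False := by
  obtain ⟨b1, b2, b3, b4, b5, b6, b7, b8, b9, b10, b11, b12, b13⟩ := hb
  obtain ⟨g1, g2⟩ := h
  have k1 : Q + 2*a + 2*b ≤ 2*N := by clear * - b8 b9; omega
  have k2 : 2*a + 2*b + c + 1 ≤ N := by clear * - b6 b7 b8 b9; omega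
  clear * - X g1 g2 b8 b7 k1 k2
  exact X.al.ubQ (4*a + 4*b + 2*c) (by omega) (by omega) fun t h1 h2 => (fin X.al.per 0 _ (pf X.c2 X.al.per 0 (4*a + 4*b + 2*c + t) (pf X.bb X.al.per 0 (2*a + 2*b + t) (rfl : W (t) = W (t)) (by omega)) (by omega)) (by omega))

theorem T0_10 (X : C W N Q i a b l m c d) (hb : B N Q i a b l m c d)
    (h : b + l + c + 2 ≤ 0) :
    False := by
  obtain ⟨b1, b2, b3, b4, b5, b6, b7, b8, b9, b10, b11, b12, b13⟩ := hb
  have g1 := h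
  have k1 : 0 ≤ i + 2*a + b + c := by clear * - b6 g1; omega
  have k2 : 2*a + b + c + 1 ≤ 0 := by clear * - b3 b8 g1; omega
  have k3 : i + 2*a + b + c + 1 ≤ Q := by clear * - b2 b3 b8 g1; omega
  clear * - X g1 k1 k2 k3
  exact X.al.ninv (i + 2*a + b + c) (fin X.al.per 0 _ (pr X.c1 X.al.per 0 (i + 2*a + b + c) (af X.s1 X.al.per 0 (i - b - c) (rfl : W (i + 2*a + b + c) = W (i + 2*a + b + c)) (by omega)) (by omega)) (by omega))

theorem main (X : C W N Q i a b l m c d) (hb : B N Q i a b l m c d) : False := by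
  obtain ⟨b1, b2, b3, b4, b5, b6, b7, b8, b9, b10, b11, b12, b13⟩ := id hb
  rcases lt_or_ge (i - b) 0 with h1 | h1
  · rcases lt_or_ge (2*a + 2*b + l + 2*c + 1) 0 with h2 | h2
    · rcases lt_or_ge (-2*N + i - 2*c) 0 with h3 | h3
      · rcases lt_or_ge (2*b + c - 1) 0 with h4 | h4
        · rcases lt_or_ge (a + 2*b + c) 0 with h5 | h5
          · rcases lt_or_ge (Q - i + 2*a + 2*b - l - 2) 0 with h6 | h6
            · rcases lt_or_ge (2*a + 2*b + l + 2*c + 2) 0 with h7 | h7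
              · exact T0_7 X hb ⟨by clear * - b6 h1 h5 h7; omega, by clear * - h7; omega, by clear * - b6 h1 h5 h7; omega⟩
              rcases (Int.emod_two_eq_zero_or_one l).symm with h8 | h8
              · exact by clear * - h2 h7 h8; omega
              exact T0_6 X hb ⟨by clear * - h2; omega, by clear * - h7; omega, by clear * - h8; omega⟩
            rcases lt_or_ge (-2*a - 2*b - c - 1) 0 with h9 | h9
            · rcases lt_or_ge (-2*a - 2*b - c) 0 with h10 | h10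
              · exact T0_9 X hb ⟨by clear * - b3 h5; omega, by clear * - h10; omega⟩
              exact T0_8 X hb ⟨by clear * - h2; omega, by clear * - h9; omega, by clear * - h10; omega⟩
            rcases lt_or_ge (-Q + i + 4*a + 4*b + l + 2*c + 1) 0 with h11 | h11
            · rcases lt_or_ge (2*a + 2*b + l + 2*c + 2) 0 with h12 | h12
              · exact T0_7 X hb ⟨by clear * - b6 h1 h5 h12; omega, by clear * - h12; omega, by clear * - b6 h1 h5 h12; omega⟩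
              rcases (Int.emod_two_eq_zero_or_one l).symm with h13 | h13
              · exact by clear * - h2 h12 h13; omega
              exact T0_6 X hb ⟨by clear * - h2; omega, by clear * - h12; omega, by clear * - h13; omega⟩
            exact T0_5 X hb ⟨by clear * - h6; omega, by clear * - h9; omega, by clear * - h11; omega⟩
          rcases lt_or_ge (-a - 2*b - c) 0 with h14 | h14
          · rcases lt_or_ge (2*a + 2*b + l + 2*c + 2) 0 with h15 | h15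
            · exact T0_7 X hb ⟨by clear * - b3 b8 h4 h14; omega, by clear * - h15; omega, by clear * - b6 b7 b8 h1; omega⟩
            rcases (Int.emod_two_eq_zero_or_one l).symm with h16 | h16
            · exact by clear * - h2 h15 h16; omega
            exact T0_6 X hb ⟨by clear * - h2; omega, by clear * - h15; omega, by clear * - h16; omega⟩
          exact T0_4 X hb ⟨by clear * - h2 h4 h5; omega, by clear * - h14; omega, by clear * - h5; omega⟩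
        rcases lt_or_ge (i - 2*b - c) 0 with h17 | h17
        · rcases lt_or_ge (2*a + 2*b + l + 2*c + 2) 0 with h18 | h18
          · rcases lt_or_ge (l - 1) 0 with h19 | h19
            · exact T0_10 X hb (by clear * - b2 h18 h19; omega)
            exact T0_7 X hb ⟨by clear * - h19; omega, by clear * - h18; omega, by clear * - b6 h1 h18 h19; omega⟩
          rcases (Int.emod_two_eq_zero_or_one l).symm with h20 | h20
          · exact by clear * - h2 h18 h20; omega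
          exact T0_6 X hb ⟨by clear * - h2; omega, by clear * - h18; omega, by clear * - h20; omega⟩
        exact T0_3 X hb ⟨by clear * - h17; omega, by clear * - b2 h2 h4; omega, by clear * - h4; omega⟩
      exact T0_2 X hb ⟨by clear * - b6 h1 h2; omega, by clear * - h3; omega⟩
    exact T0_1 X hb (by clear * - h2; omega)
  exact T0_0 X hb (by clear * - h1; omega)

end Pool.Agent.MP_a38735_al.WL.L3c1
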