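import Pool.Agent.MP_a38735_al.Hyp

set_option autoImplicit false

namespace Pool.Agent.MP_a38735_al

open List

variable {G : Type*} [Group G] {H : Bool → Subgroup G}

theorem FP.conj_len_le (h : FP H) (t s : G) :
    h.len (s⁻¹ * t * s) + h.o t⁻¹ s +
      min (min (h.o t⁻¹ s) (h.o t t⁻¹)) (2 * h.len t - h.o t⁻¹ s) ≤ h.len t + 2 * h.len s := by
  have e1 := h.len_mul t s
  have e2 := h.len_inv_mul s (t * s)
  have e3 := h.len_inv_mul t (t * s)
  have e4 := h.o_ultra s t (t * s)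
  have e5 := h.o_ultra s t⁻¹ t
  rw [h.o_comm s t⁻¹, h.o_comm t⁻¹ t] at e5
  rw [inv_mul_cancel_left] at e3
  rw [← mul_assoc] at e2
  omega

theorem ov_zero_fac {l l' : List G} (h0 : ov H l l' = 0) :
    ∀ x ∈ l.head?, ∀ y ∈ l'.head?, fac H x ≠ fac H y := by
  intro x hx y hy
  cases l with
  | nil => simp at hx
  | cons a l =>
    cases l' with
    | nil => simp at hy
    | cons b l' =>
      simp only [head?_cons, Option.mem_def, Option.some.injEq] at hx hy
      subst hx hy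
      rw [ov_cons] at h0
      intro h2
      by_cases h1 : a = b
      · simp [h1] at h0
      · simp [h1, h2] at h0

theorem ov_pos_fac {l l' : List G} (h0 : 0 < ov H l l') :
    ∀ x ∈ l.head?, ∀ y ∈ l'.head?, fac H x = fac H y := by
  intro x hx y hy
  cases l with
  | nil => simp at hx
  | cons a l =>
    cases l' with
    | nil => simp at hy
    | cons b l' =>
      simp only [head?_cons, Option.mem_def, Option.some.injEq] at hx hy
      subst hx hy
      rw [ov_cons] at h0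
      split_ifs at h0 with h1 h2
      · rw [h1]
      · exact h2
      · omega

/-- conjugating by a suitable prefix of the normal form gives a cyclically reduced word -/
theorem FP.prefix_conj (h : FP H) {s γ : G} {n j : ℕ} (hn : 2 ≤ n)
    (hs : h.len s = h.o s s⁻¹ + n) (hj : h.len γ = j) (ho : h.o γ s = 2 * j)
    (h1 : h.o s s⁻¹ < 2 * j) (h2 : 2 * j ≤ h.len s + 1) :
    h.len (γ⁻¹ * s * γ) = n ∧ h.o γ⁻¹ (γ⁻¹ * s * γ) = 0 := by
  have a1 := h.o_ultra s γ s⁻¹
  have a2 := h.o_ultra γ s s⁻¹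
  rw [h.o_comm s γ] at a1
  have a3 : h.o γ s⁻¹ = h.o s s⁻¹ := by omega
  have a4 := h.len_mul s γ
  rw [h.o_comm s⁻¹ γ, a3] at a4
  have a5 := h.len_inv_mul s (s * γ)
  rw [inv_mul_cancel_left] at a5
  have a6 := h.o_ultra γ s (s * γ)
  have a7 := h.o_le γ (s * γ)
  have a8 := h.len_inv_mul γ (s * γ)
  rw [← mul_assoc] at a8
  have a9 := h.len_mul γ (γ⁻¹ * s * γ)
  have : γ * (γ⁻¹ * s * γ) = s * γ := by group
  rw [this] at a9
  omega

theorem FP.pair (h : FP H) {ct cs : List G} (hct : CR H ct) (hcs : CR H cs) {t s : G}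
    (ht : IsConj ct.prod t) (hs : IsConj cs.prod s) :
    (∃ γ c1 c2, ct ~r c1 ∧ cs ~r c2 ∧ t = γ * c1.prod * γ⁻¹ ∧ s = γ * c2.prod * γ⁻¹ ∧
      ∀ x ∈ c1.getLast?, ∀ y ∈ c2.head?, fac H x = fac H y) ∨
    (h.len (s⁻¹ * t * s) ≤ h.len t ∧ h.len s < h.len t) ∨
    (h.len (t * s * t⁻¹) < h.len s) ∨
    (h.o t⁻¹ s ≤ h.len t ∧ h.o t⁻¹ s < h.len s) := by
  have e1 := h.len_conj hct ht
  have e2 := h.len_conj hcs hs
  have e3 := h.conj_len_le t s
  have e4 := h.conj_len_le s⁻¹ t⁻¹
  rw [inv_inv, inv_inv, h.o_comm s t⁻¹, h.o_comm s⁻¹ s, h.len_inv, h.len_inv] at e4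
  have e5 : h.len (t * s⁻¹ * t⁻¹) = h.len (t * s * t⁻¹) := by
    rw [← h.len_inv]; congr 1; group
  rw [e5] at e4
  have n1 := hct.2.1
  have n2 := hcs.2.1
  have o1 := h.o_le t⁻¹ s
  rw [h.len_inv] at o1
  have o2 := h.o_le s t⁻¹
  rw [h.o_comm s t⁻¹] at o2
  by_cases c1 : h.len (s⁻¹ * t * s) ≤ h.len t ∧ h.len s < h.len t
  · exact Or.inr (Or.inl c1)
  by_cases c2 : h.len (t * s * t⁻¹) < h.len s
  · exact Or.inr (Or.inr (Or.inl c2))
  by_cases c3 : h.o t⁻¹ s ≤ h.len t ∧ h.o t⁻¹ s < h.len s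
  · exact Or.inr (Or.inr (Or.inr c3))
  left
  have k1 : h.o t t⁻¹ < h.o t⁻¹ s := by omega
  have k2 : h.o s s⁻¹ < h.o t⁻¹ s := by omega
  have k3 : h.o t t⁻¹ ≤ h.len s := by omega
  have k4 : h.o s s⁻¹ ≤ h.len t := by omega
  by_cases h0 : h.o t t⁻¹ = 0 ∧ h.o s s⁻¹ = 0
  · refine ⟨1, h.nf t, h.nf s, h.rot_of_len hct ht (by omega), h.rot_of_len hcs hs (by omega),
      by simp, by simp, ?_⟩
    intro x hx y hy
    have := ov_pos_fac (H := H) (l := h.nf t⁻¹) (l' := h.nf s) (by unfold FP.o at k1; omega)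
      x⁻¹ (by rw [h.nf_inv, linv_head?]; simpa using hx) y hy
    rwa [fac_inv] at this
  · have d1 := h.odd_D hct ht
    have d2 := h.odd_D hcs hs
    obtain ⟨j, hj1, hj2, hj3, hj4, hj5, hj6⟩ : ∃ j, 1 ≤ j ∧ 2 * j ≤ h.o t⁻¹ s ∧ h.o t t⁻¹ < 2 * j ∧
        h.o s s⁻¹ < 2 * j ∧ 2 * j ≤ h.len t + 1 ∧ 2 * j ≤ h.len s + 1 :=
      ⟨(max (h.o t t⁻¹) (h.o s s⁻¹) + 1) / 2, by omega, by omega, by omega, by omega, by omega,
        by omega⟩
    obtain ⟨p1, p2⟩ := ov_take (H := H) (l := h.nf t⁻¹) (l' := h.nf s) hj2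
    have p3 : j ≤ (h.nf s).length := by
      have := h.o_le s t⁻¹
      unfold FP.len at hj6 e2; omega
    set p := (h.nf s).take j with hp
    have pr : Red H p := by
      have := h.nf_red s
      rw [← take_append_drop j (h.nf s), red_append] at this
      exact this.1
    have pl : p.length = j := by simp [hp, p3]
    have q1 : h.o p.prod s = 2 * j := by
      unfold FP.o
      rw [h.nf_eq pr]
      conv_lhs => rw [← take_append_drop j (h.nf s), ← hp]
      have := ov_append (H := H) p [] (drop j (h.nf s))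
      simpa [pl] using this
    have q2 : h.o p.prod t⁻¹ = 2 * j := by
      unfold FP.o
      rw [h.nf_eq pr]
      conv_lhs => rw [← take_append_drop j (h.nf t⁻¹), p1]
      have := ov_append (H := H) p [] (drop j (h.nf t⁻¹))
      simpa [pl] using this
    have q3 : h.len p.prod = j := by rw [h.len_prod pr, pl]
    obtain ⟨r1, r2⟩ := h.prefix_conj (s := s) (γ := p.prod) n2 e2 q3 q1 hj4 hj6
    obtain ⟨r3, r4⟩ := h.prefix_conj (s := t⁻¹) (γ := p.prod) (n := ct.length) n1
      (by rw [h.len_inv, inv_inv, h.o_comm]; exact e1) q3 q2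
      (by rw [inv_inv, h.o_comm]; exact hj3) (by rw [h.len_inv]; exact hj5)
    have r5 : p.prod⁻¹ * t⁻¹ * p.prod = (p.prod⁻¹ * t * p.prod)⁻¹ := by group
    rw [r5] at r3 r4
    rw [h.len_inv] at r3
    have cj : ∀ u v : G, IsConj u v → IsConj u (p.prod⁻¹ * v * p.prod) := fun u v huv =>
      huv.trans (isConj_iff.2 ⟨p.prod⁻¹, by simp⟩)
    refine ⟨p.prod, h.nf (p.prod⁻¹ * t * p.prod), h.nf (p.prod⁻¹ * s * p.prod),
      h.rot_of_len hct (cj _ _ ht) r3.le, h.rot_of_len hcs (cj _ _ hs) r1.le,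
      by simp [mul_assoc], by simp [mul_assoc], ?_⟩
    intro x hx y hy
    have hne : h.nf p.prod⁻¹ ≠ [] := by
      intro e
      have := h.len_inv p.prod
      unfold FP.len at this q3
      rw [e] at this
      simp at this; omega
    obtain ⟨u, l', hu⟩ := List.exists_cons_of_ne_nil hne
    have z1 := ov_zero_fac r2 u (by simp [hu]) y hy
    have z2 := ov_zero_fac r4 u (by simp [hu]) x⁻¹ (by rw [h.nf_inv, linv_head?]; simpa using hx)
    rw [fac_inv] at z2
    exact bool_ne_ne z2.symm z1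

theorem FP.progress (h : FP H) (l : List G) :
    ∀ (t p : G), 2 ≤ h.len p → h.len t < h.o p⁻¹ t⁻¹ →
      (t :: l).IsChain (fun t s => h.o t⁻¹ s ≤ h.len t ∧ h.o t⁻¹ s < h.len s) →
      2 ≤ h.len (p * l.prod) := by
  induction l with
  | nil => intro t p h1 _ _; simpa using h1
  | cons s l ih =>
    intro t p h1 h2 h3
    rw [isChain_cons_cons] at h3
    have a1 := h.o_ultra t⁻¹ p⁻¹ s
    rw [h.o_comm t⁻¹ p⁻¹] at a1
    have a2 := h.len_mul p s
    have a3 := h.len_inv_mul (p * s)⁻¹ s⁻¹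
    rw [inv_inv, mul_inv_cancel_right, h.len_inv, h.len_inv] at a3
    have := ih s (p * s) (by omega) (by omega) h3.2
    simpa [mul_assoc] using this

/-- weighted length -/
noncomputable def FP.wt (h : FP H) : List G → ℕ
  | [] => 0
  | x :: l => (l.length + 1) * h.len x + h.wt l

theorem FP.wt_lt (h : FP H) (l1 : List G) {l l' : List G} (e : l.length = l'.length)
    (hl : h.wt l < h.wt l') : h.wt (l1 ++ l) < h.wt (l1 ++ l') := by
  induction l1 with
  | nil => simpa using hl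
  | cons x l1 ih => simp only [cons_append, FP.wt, length_append, e]; omega

theorem FP.merge (h : FP H) {I : Type*} (w : I → List G) (l : List (G × I)) (hl : l ≠ [])
    (hc : ∀ p ∈ l, CR H (w p.2) ∧ IsConj (w p.2).prod p.1) {b : Bool}
    (ha : (l.map Prod.fst).prod ∈ H b) :
    ∃ (l1 l2 : List (G × I)) (t s : G) (i j : I) (γ : G) (c1 c2 : List G),
      ((l1 ++ (t, i) :: (s, j) :: l2).map Prod.snd).Perm (l.map Prod.snd) ∧
      ((l1 ++ (t, i) :: (s, j) :: l2).map Prod.fst).prod = (l.map Prod.fst).prod ∧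
      (∀ p ∈ l1 ++ l2, IsConj (w p.2).prod p.1) ∧
      w i ~r c1 ∧ w j ~r c2 ∧ t = γ * c1.prod * γ⁻¹ ∧ s = γ * c2.prod * γ⁻¹ ∧
      ∀ x ∈ c1.getLast?, ∀ y ∈ c2.head?, fac H x = fac H y := by
  let S : Set (List (G × I)) := {m | (m.map Prod.snd).Perm (l.map Prod.snd) ∧
    (m.map Prod.fst).prod = (l.map Prod.fst).prod ∧
    ∀ p ∈ m, CR H (w p.2) ∧ IsConj (w p.2).prod p.1}
  let f : List (G × I) → ℕ × ℕ := fun m => (((m.map Prod.fst).map h.len).sum, h.wt (m.map Prod.fst))
  have wf : WellFounded (InvImage (Prod.Lex (· < ·) (· < ·)) f) :=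
    InvImage.wf f (WellFounded.prod_lex wellFounded_lt wellFounded_lt)
  obtain ⟨m, hm, hmin⟩ := wf.has_min S ⟨l, Perm.refl _, rfl, hc⟩
  obtain ⟨hm1, hm2, hm3⟩ := hm
  by_contra hcon
  have chain : m.IsChain (fun p q => h.o p.1⁻¹ q.1 ≤ h.len p.1 ∧ h.o p.1⁻¹ q.1 < h.len q.1) := by
    rw [isChain_iff_forall_rel_of_append_cons_cons]
    rintro ⟨t, i⟩ ⟨s, j⟩ l1 l2 rfl
    obtain ⟨u1, u2⟩ := hm3 (t, i) (by simp)
    obtain ⟨v1, v2⟩ := hm3 (s, j) (by simp)
    rcases h.pair u1 v1 u2 v2 with ⟨γ, c1, c2, k⟩ | k | k | k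
    · exact (hcon ⟨l1, l2, t, s, i, j, γ, c1, c2, hm1, hm2,
        fun p hp => (hm3 p (by
          rcases mem_append.1 hp with hp | hp <;> simp [hp])).2, k⟩).elim
    · exfalso
      refine hmin (l1 ++ (s, j) :: (s⁻¹ * t * s, i) :: l2) ⟨?_, ?_, ?_⟩ ?_
      · refine Perm.trans ?_ hm1
        simp only [map_append, map_cons]
        exact Perm.append_left _ (Perm.swap _ _ _)
      · rw [← hm2]; simp [mul_assoc]
      · intro p hp
        simp only [mem_append, mem_cons] at hp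
        rcases hp with hp | rfl | rfl | hp
        · exact hm3 p (by simp [hp])
        · exact ⟨v1, v2⟩
        · exact ⟨u1, u2.trans (isConj_iff.2 ⟨s⁻¹, by simp⟩)⟩
        · exact hm3 p (by simp [hp])
      · simp only [InvImage, f, Prod.lex_def, map_append, map_cons, sum_append, sum_cons]
        dsimp only at k
        rcases k.1.lt_or_eq with k1 | k1
        · left; omega
        · right
          refine ⟨by omega, h.wt_lt _ (by simp) ?_⟩
          simp only [FP.wt, length_cons, k1]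
          nlinarith [k.2]
    · exfalso
      refine hmin (l1 ++ (t * s * t⁻¹, j) :: (t, i) :: l2) ⟨?_, ?_, ?_⟩ ?_
      · refine Perm.trans ?_ hm1
        simp only [map_append, map_cons]
        exact Perm.append_left _ (Perm.swap _ _ _)
      · rw [← hm2]; simp [mul_assoc]
      · intro p hp
        simp only [mem_append, mem_cons] at hp
        rcases hp with hp | rfl | rfl | hp
        · exact hm3 p (by simp [hp])
        · exact ⟨v1, v2.trans (isConj_iff.2 ⟨t, rfl⟩)⟩
        · exact ⟨u1, u2⟩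
        · exact hm3 p (by simp [hp])
      · simp only [InvImage, f, Prod.lex_def, map_append, map_cons, sum_append, sum_cons]
        dsimp only at k
        left; omega
    · exact k
  cases m with
  | nil =>
    have := hm1.length_eq
    simp at this
    exact hl (List.eq_nil_of_length_eq_zero this.symm)
  | cons p m =>
    obtain ⟨u1, u2⟩ := hm3 p (by simp)
    have e1 := h.len_conj u1 u2
    have n1 := u1.2.1
    have := h.progress (m.map Prod.fst) p.1 p.1 (by omega)
      (by rw [h.o_self, h.len_inv]; omega)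
      (by rw [← map_cons, isChain_map]; exact chain)
    have e2 := h.len_le_one ha
    rw [← hm2] at e2
    simp only [map_cons, prod_cons] at e2
    omega

end Pool.Agent.MP_a38735_al
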