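import Pool.Agent.MP_a38735_al.Pure

set_option autoImplicit false

namespace Pool.Agent.MP_a38735_al

variable {G : Type*} [Group G] {H : Bool → Subgroup G} {n : ℕ} [NeZero n]

theorem ex_h (g : ZMod n → ℚ) (hg : ∑ j, g j = 0) :
    ∃ h : ZMod n → ℚ, ∀ j, h (j + 1) = h j + g j := by
  refine ⟨fun j => ∑ s ∈ Finset.range j.val, g s, fun j => ?_⟩
  rcases val_succ j with h | ⟨h1, h2⟩
  · simp only [h, Finset.sum_range_succ]; simp
  · have := sum_shift g id Function.bijective_id
    simp only [id] at this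
    rw [hg] at this
    have e : ∑ s ∈ Finset.range (j.val + 1), g s = 0 := by rw [h2]; exact this
    rw [Finset.sum_range_succ] at e
    simp only [h1]
    simpa using e.symm

/-- sign of a factor -/
def sg (b : Bool) : ℚ := if b then 1 else -1

omit [NeZero n] in
theorem fac_cl (x : ZMod n → G) (c : Bool × ZMod n) : fac H (cl x c) = fac H (x c.2) := by
  obtain ⟨b, i⟩ := c; cases b <;> simp [cl, fac_inv]

omit [NeZero n] in
theorem Kh_cn {x : ZMod n → G} (hc : Cy H x) {g h : ZMod n → ℚ} (hh : ∀ j, h (j + 1) = h j + g j)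
    (t : ℚ) (c : Bool × ZMod n) : Kh H x h t (jn (cn c)) =
      -Kh H x h t (jn c) - sg (fac H (x (cn c).2)) * g (cn c).2 := by
  obtain ⟨b, i⟩ := c
  cases b
  · have h1 := hc.hf (i - 1)
    have h2 := hh (i - 1)
    simp only [sub_add_cancel] at h1 h2
    simp only [Kh, jn, cn, sg, Bool.false_eq_true, if_false, h2]
    revert h1
    cases fac H (x i) <;> cases fac H (x (i - 1)) <;> simp <;> ring
  · have h1 := hc.hf (i + 1)
    simp only [Kh, jn, cn, sg, if_true, hh (i + 1)]
    revert h1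
    cases fac H (x (i + 1)) <;> cases fac H (x (i + 1 + 1)) <;> simp <;> ring

namespace St

variable {x : ZMod n → G} (S : St H x)

/-- tied arcs on marked strips -/
def TM (a : Ar n) : Prop := S.T a ∧ ∃ b, Lk x b a ∧ S.Mk (jn b.1)

omit [NeZero n] in
theorem TM.fw {S : St H x} {a : Ar n} (h : S.TM a) (ho : ok x a) : S.TM (fw a) :=
  ⟨S.T_fw a h.1 ho, h.2.imp fun _ c => ⟨c.1.fw ho, c.2⟩⟩

omit [NeZero n] in
theorem TM.rv {S : St H x} {a : Ar n} (h : S.TM a) : S.TM (rv a) :=
  ⟨S.T_rv a h.1, h.2.imp fun _ c => ⟨c.1.rv, c.2⟩⟩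

omit [NeZero n] in
theorem df_lk (hc : Cy H x) {g h : ZMod n → ℚ} (hh : ∀ j, h (j + 1) = h j + g j)
    (inv : ∀ a, S.TM a → ok x a → g (cn a.1).2 = g (cn a.2).2) (t : ℚ) {b a : Ar n}
    (hl : Lk x b a) (ha : S.T a) (hb : S.Mk (jn b.1)) :
    Kh H x h t (jn a.1) - Kh H x h t (jn a.2) = Kh H x h t (jn b.1) - Kh H x h t (jn b.2) := by
  have k : ∀ (b0 : Ar n) s, S.TM b0 → Mt x b0.1 b0.2 s → S.TM (MP_a38735_al.fw^[s] b0) ∧
      Kh H x h t (jn (MP_a38735_al.fw^[s] b0).1) - Kh H x h t (jn (MP_a38735_al.fw^[s] b0).2) =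
        Kh H x h t (jn b0.1) - Kh H x h t (jn b0.2) := by
    intro b0 s h0
    induction s with
    | zero => exact fun _ => ⟨h0, rfl⟩
    | succ s ih =>
      intro hm
      obtain ⟨c1, c2⟩ := ih (mt_ok.1 hm).1
      have o := (mt_ok.1 hm).2
      rw [Function.iterate_succ_apply']
      refine ⟨c1.fw o, ?_⟩
      have f := congrArg (fac H) o
      rw [fac_cl, fac_cl] at f
      simp only [MP_a38735_al.fw]
      rw [Kh_cn hc hh, Kh_cn hc hh, ← c2, inv _ c1 o, f]
      ring
  have tb : S.TM b := ⟨S.T_back hl ha, b, lk_refl x b, hb⟩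
  rcases hl with ⟨s, c1, rfl | rfl⟩ | ⟨s, c1, rfl | rfl⟩
  · exact (k b s tb c1).2
  · simpa [MP_a38735_al.rv] using (k b s tb c1).2
  · simpa [MP_a38735_al.rv] using (k _ s tb.rv c1).2
  · simpa [MP_a38735_al.rv] using (k _ s tb.rv c1).2

theorem mn_letter (hc : Cy H x) (hm : S.Mn) (g : ZMod n → ℚ) (hg : ∑ j, g j = 0)
    (inv : ∀ a, S.TM a → ok x a → g (cn a.1).2 = g (cn a.2).2) :
    ∃ K : ZMod n → ℚ, (∀ c, K (jn (cn c)) = -K (jn c) - sg (fac H (x (cn c).2)) * g (cn c).2) ∧
      ∀ a, S.TM a → K (jn a.1) = K (jn a.2) := by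
  obtain ⟨h, hh⟩ := ex_h g hg
  obtain ⟨t, c1, c2⟩ := hm h fun t b a h1 h2 h3 _ => S.df_lk hc hh inv t h1 h2 h3
  refine ⟨_, Kh_cn hc hh t, ?_⟩
  rintro a ⟨h1, b, h2, h3⟩
  have := S.df_lk hc hh inv t h2 h1 h3
  have tb := S.T_back h2 h1
  rcases h3 with h3 | h3
  · linarith [c1 _ _ h3 (S.T_p b tb h3)]
  · linarith [c2 _ _ h3 (S.T_q b tb h3)]

/-- tied letters -/
def Rl : Bool × ZMod n → Bool × ZMod n → Prop :=
  Relation.EqvGen fun u u' => ∃ a, S.TM a ∧ ok x a ∧ u = cn a.1 ∧ u' = cn a.2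

omit [NeZero n] in
theorem Rl.ci {S : St H x} {u u' : Bool × ZMod n} (h : S.Rl u u') : S.Rl (ci u) (ci u') := by
  induction h with
  | rel u u' h =>
    obtain ⟨a, h1, h2, rfl, rfl⟩ := h
    exact (Relation.EqvGen.rel _ _ ⟨_, (h1.fw h2).rv, ok_rv_fw h2,
      by simp [MP_a38735_al.rv, MP_a38735_al.fw], by simp [MP_a38735_al.rv, MP_a38735_al.fw]⟩).symm
  | refl => exact Relation.EqvGen.refl _
  | symm _ _ _ ih => exact ih.symm
  | trans _ _ _ _ _ ih1 ih2 => exact Relation.EqvGen.trans _ _ _ ih1 ih2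

omit [NeZero n] in
theorem Rl.cl {S : St H x} {u u' : Bool × ZMod n} (h : S.Rl u u') : cl x u = cl x u' := by
  induction h with
  | rel u u' h => obtain ⟨a, _, h2, rfl, rfl⟩ := h; exact h2
  | refl => rfl
  | symm _ _ _ ih => exact ih.symm
  | trans _ _ _ _ _ ih1 ih2 => exact ih1.trans ih2

omit [NeZero n] in
theorem Rl.K {S : St H x} {K : ZMod n → ℚ} (hK : ∀ a, S.TM a → K (jn a.1) = K (jn a.2))
    {u u' : Bool × ZMod n} (h : S.Rl u u') : K (jn u) = K (jn u') := by
  induction h with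
  | rel u u' h => obtain ⟨a, h1, h2, rfl, rfl⟩ := h; exact (hK _ (h1.fw h2)).symm
  | refl => rfl
  | symm _ _ _ ih => exact ih.symm
  | trans _ _ _ _ _ ih1 ih2 => exact ih1.trans ih2

omit [NeZero n] in
theorem cl_ne_one (hc : Cy H x) (c : Bool × ZMod n) : cl x c ≠ 1 := by
  obtain ⟨b, i⟩ := c
  cases b <;> simpa [cl] using (hc.hL i).1

omit [NeZero n] in
theorem cl_cube (hc : Cy H x) (c : Bool × ZMod n) : cl x c * cl x c * cl x c ≠ 1 := by
  obtain ⟨b, i⟩ := c
  cases b
  · intro h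
    apply hc.h3 i
    simp only [cl, Bool.false_eq_true, if_false] at h
    rw [← inv_eq_one, ← h]; group
  · simpa [cl] using hc.h3 i

theorem two_ends (hc : Cy H x) (hm : S.Mn) {c d e : Bool × ZMod n}
    (f1 : fac H (cl x c) = fac H (cl x d)) (f2 : fac H (cl x d) = fac H (cl x e))
    (h : cl x c * cl x d * cl x e = 1) (t1 : S.TM (c, ci d)) (t2 : S.TM (d, ci e)) : False := by
  classical
  let Y : ZMod n → Prop := fun i => S.Rl (true, i) d ∨ S.Rl (false, i) d
  have Yc : ∀ u : Bool × ZMod n, Y u.2 ↔ S.Rl u d ∨ S.Rl (ci u) d := by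
    rintro ⟨b, i⟩; cases b <;> simp [Y, ci, or_comm]
  let β := fac H (x d.2)
  have Yf : ∀ i, Y i → fac H (x i) = β := by
    rintro i (c | c) <;> simpa [fac_cl] using congrArg (fac H) c.cl
  let m : ℚ := (Finset.univ.filter Y).card
  let N : ℚ := (Finset.univ.filter fun i => fac H (x i) ≠ β).card
  have m0 : 0 < m := by
    simp only [m, Nat.cast_pos, Finset.card_pos]
    exact ⟨d.2, by simpa using (Yc d).2 (Or.inl (Relation.EqvGen.refl _))⟩
  let g : ZMod n → ℚ := fun i =>
    -sg β * ((if Y i then N else 0) - if fac H (x i) ≠ β then m else 0)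
  obtain ⟨K, K1, K2⟩ := S.mn_letter hc hm g (by
    simp only [g]
    rw [← Finset.mul_sum, Finset.sum_sub_distrib, ← Finset.sum_filter, ← Finset.sum_filter]
    simp only [Finset.sum_const, nsmul_eq_mul]
    ring) (by
    intro a h1 h2
    have f := congrArg (fac H) h2
    rw [fac_cl, fac_cl] at f
    have r : S.Rl (cn a.1) (cn a.2) := Relation.EqvGen.rel _ _ ⟨a, h1, h2, rfl, rfl⟩
    have : Y (cn a.1).2 ↔ Y (cn a.2).2 := by
      rw [Yc, Yc]
      exact ⟨Or.imp (Relation.EqvGen.trans _ _ _ r.symm) (Relation.EqvGen.trans _ _ _ r.ci.symm),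
        Or.imp (Relation.EqvGen.trans _ _ _ r) (Relation.EqvGen.trans _ _ _ r.ci)⟩
    simp only [g, this, f])
  obtain ⟨j, -, hj⟩ := ex_max K (fun _ => True) ⟨0, trivial⟩
  have key : ∀ u : Bool × ZMod n, fac H (x u.2) = β → ¬ Y u.2 → K (jn (ci u)) < K j := by
    intro u h1 h2
    have a1 := K1 (ci u)
    have a2 := K1 (ci (cn u))
    have a3 := K1 u
    have h3 : fac H (x (cn u).2) ≠ β := by
      have := fac_cn hc.hf u
      rwa [fac_cl, fac_cl, h1] at this
    have h4 : ¬ Y (cn u).2 := fun c => h3 (Yf _ c)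
    have b1 : K (jn u) = -K (jn (ci u)) := by
      have := K1 (ci (cn (ci u)))
      simp only [cn_ci_cn, ci_ci, jn_ci_cn] at this
      simpa [g, h1, h2] using this
    have b2 : K (jn (cn u)) = -K (jn u) + m := by
      rw [a3]
      simp only [g, h3, h4, if_false, ne_eq, not_false_eq_true, if_true, sg]
      revert h3
      cases fac H (x (cn u).2) <;> cases β <;> simp
    linarith [hj (jn (cn u)) trivial]
  have kc := K2 _ t1
  have ke := K2 _ t2
  simp only at kc ke
  have fc : fac H (x (ci c).2) = β := by rw [fac_cl, fac_cl] at f1; exact f1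
  have fe : fac H (x e.2) = β := by rw [fac_cl, fac_cl] at f2; exact f2.symm
  have yc : Y (ci c).2 → S.Rl c d := by
    intro y
    refine ((Yc c).1 y).resolve_right fun r => cl_ne_one hc e ?_
    rw [← r.cl] at h; simpa using h
  have ye : Y e.2 → S.Rl e d := by
    intro y
    refine ((Yc e).1 y).resolve_right fun r => cl_ne_one hc c ?_
    rw [← r.cl] at h; simpa using h
  have both : K (jn (ci d)) < K j ∧ K (jn d) < K j := by
    by_cases y1 : Y (ci c).2
    · by_cases y2 : Y e.2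
      · exact (cl_cube hc d (by rwa [(yc y1).cl, (ye y2).cl] at h)).elim
      · have := key e fe y2
        have := (yc y1).K K2
        constructor <;> linarith
    · have a1 := key (ci c) fc y1
      rw [ci_ci] at a1
      by_cases y2 : Y e.2
      · have := (ye y2).ci.K K2
        constructor <;> linarith
      · have := key e fe y2
        constructor <;> linarith
  obtain ⟨u, u1, u2⟩ : ∃ u : Bool × ZMod n, fac H (x u.2) = β ∧ jn (ci u) = j := by
    by_cases c : fac H (x j) = β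
    · exact ⟨(true, j), c, by simp [jn, ci]⟩
    · have := hc.hf (j - 1)
      rw [sub_add_cancel] at this
      exact ⟨(false, j - 1), bool_ne_ne this.symm c, by simp [jn, ci]⟩
  by_cases y : Y u.2
  · rcases (Yc u).1 y with r | r
    · have := r.ci.K K2
      rw [u2] at this; linarith [both.1]
    · have := r.K K2
      rw [u2] at this; linarith [both.2]
  · have := key u u1 y
    rw [u2] at this
    exact lt_irrefl _ this

end St

end Pool.Agent.MP_a38735_al
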