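import Pool.Agent.MP_a38735_al.MinB

set_option autoImplicit false

namespace Pool.Agent.MP_a38735_al

variable {G : Type*} [Group G] {H : Bool → Subgroup G} {n : ℕ} [NeZero n]

/-- consecutive elements of a set of junctions -/
def Pc (M : ZMod n → Prop) (j : ZMod n) (l : ℕ) : Prop :=
  M j ∧ M (j + l) ∧ 0 < l ∧ ∀ r : ℕ, 0 < r → r < l → ¬ M (j + r)

omit [NeZero n] in
theorem Pc.uniq {M : ZMod n → Prop} {j : ZMod n} {l l' : ℕ} (h : Pc M j l) (h' : Pc M j l') :
    l = l' := by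
  rcases lt_trichotomy l l' with c | c | c
  · exact (h'.2.2.2 l h.2.2.1 c h.2.1).elim
  · exact c
  · exact (h.2.2.2 l' h'.2.2.1 c h'.2.1).elim

omit [NeZero n] in
theorem pc_prev {M : ZMod n → Prop} {j : ZMod n} {s : ℕ} (h0 : M j) (hs : 0 < s)
    (h1 : M (j + s)) : ∃ r, r < s ∧ Pc M (j + r) (s - r) := by
  classical
  refine ⟨Nat.findGreatest (fun r : ℕ => M (j + r)) (s - 1),
    lt_of_le_of_lt (Nat.findGreatest_le _) (by omega), ?_⟩
  have l := Nat.findGreatest_le (P := fun r : ℕ => M (j + r)) (s - 1)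
  refine ⟨Nat.findGreatest_spec (P := fun r : ℕ => M (j + r)) (Nat.zero_le _) (by simpa using h0),
    by rw [Nat.cast_sub (by omega)]; simpa using h1, by omega, fun r r1 r2 c => ?_⟩
  refine Nat.findGreatest_is_greatest (P := fun r : ℕ => M (j + r))
    (k := Nat.findGreatest (fun r : ℕ => M (j + r)) (s - 1) + r) (n := s - 1) (by omega)
    (by omega) ?_
  simpa [add_assoc] using c

theorem pc_next {M : ZMod n → Prop} {j : ZMod n} (h0 : M j) : ∃ l, Pc M j l := by
  classical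
  have ex : ∃ l : ℕ, 0 < l ∧ M (j + l) := ⟨n, NeZero.pos n, by simpa using h0⟩
  exact ⟨Nat.find ex, h0, (Nat.find_spec ex).2, (Nat.find_spec ex).1,
    fun r r1 r2 c => Nat.find_min ex r2 ⟨r1, c⟩⟩

theorem pc_reach {M P : ZMod n → Prop} {j : ZMod n} (h0 : M j) (p0 : P j)
    (step : ∀ k l, Pc M k l → P k → P (k + l)) (k : ZMod n) (hk : M k) : P k := by
  have : ∀ s : ℕ, M (j + s) → P (j + s) := by
    intro s
    induction s using Nat.strong_induction_on with
    | _ s ih =>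
      intro h
      rcases Nat.eq_zero_or_pos s with rfl | hs
      · simpa using p0
      · obtain ⟨r, r1, r2⟩ := pc_prev h0 hs h
        have := step _ _ r2 (ih r r1 r2.1)
        rw [Nat.cast_sub r1.le] at this
        simpa using this
  simpa using this (k - j).val (by simpa using hk)

omit [NeZero n] in
theorem h_add {g h : ZMod n → ℚ} (hh : ∀ j, h (j + 1) = h j + g j) (j : ZMod n) (l : ℕ) :
    h (j + l) = h j + ∑ r ∈ Finset.range l, g (j + r) := by
  induction l with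
  | zero => simp
  | succ l ih => push_cast; rw [← add_assoc, hh, ih, Finset.sum_range_succ, add_assoc]

namespace St

variable {x : ZMod n → G} (S : St H x)

/-- type of the first end of a piece -/
noncomputable def e1 (j : ZMod n) : Prop × Bool := (S.p j, fac H (x j))
/-- type of the last end of a piece -/
noncomputable def e2 (j : ZMod n) : Prop × Bool := (S.p j, !fac H (x j))

theorem mn_piece (hc : Cy H x) (hm : S.Mn) (γ : Prop × Bool → Prop × Bool → ℚ)
    (sy : ∀ a b, γ a b = γ b a) (g : ZMod n → ℚ) (g0 : ∀ j, ¬ S.Mk j → g j = 0)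
    (g1 : ∀ j l, Pc S.Mk j l → g j = γ (S.e1 j) (S.e2 (j + l))) (hg : ∑ j, g j = 0)
    {k : ZMod n} {s : ℕ} (q1 : S.q k) (q2 : S.q (k + s)) (ev : Even s) :
    ∑ r ∈ Finset.range s, g (k + r) = 0 := by
  obtain ⟨h, hh⟩ := ex_h g hg
  have pc : ∀ j l, Pc S.Mk j l → h (j + l) = h j + γ (S.e1 j) (S.e2 (j + l)) := by
    intro j l c
    rw [h_add hh, ← g1 j l c, Finset.sum_eq_single 0]
    · simp
    · exact fun r r1 r2 => g0 _ (c.2.2.2 r (by omega) (by simpa using r1))
    · exact fun c' => (c' (by simpa using c.2.2.1)).elim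
  have ray : ∀ t (u : Bool × ZMod n) (l : ℕ), S.Mk (jn u) → S.Mk (jn (cn^[l + 1] u)) →
      (∀ r, 0 < r → r < l + 1 → ¬ S.Mk (jn (cn^[r] u))) →
      (-1) ^ (l + 1) * Kh H x h t (jn (cn^[l + 1] u)) = Kh H x h t (jn u) +
        sg (fac H (cl x (cn u))) * γ (S.p (jn u), fac H (cl x (cn u)))
          (S.p (jn (cn^[l + 1] u)), fac H (cl x (cn^[l + 1] u))) := by
    rintro t ⟨b, i⟩ l m1 m2 m3
    cases b
    · simp only [jn_f] at m2 m3 ⊢
      have j0 : jn ((false, i) : Bool × ZMod n) = i := by simp [jn]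
      rw [j0] at m1 ⊢
      have e0 : i - ((l + 1 : ℕ) : ZMod n) + ((l + 1 : ℕ) : ZMod n) = i := by ring
      have := pc (i - (l + 1 : ℕ)) (l + 1) ⟨m2, by rwa [e0], by omega, fun r r1 r2 c =>
        m3 (l + 1 - r) (by omega) (by omega) (by
          rw [Nat.cast_sub r2.le]; convert c using 1; ring)⟩
      rw [e0] at this
      have f1 := fac_par hc.hf (i - (l + 1 : ℕ)) (l + 1)
      rw [e0] at f1
      have f2 := hc.hf (i - 1)
      rw [sub_add_cancel] at f2
      have f3 : fac H (x (i - 1)) = !fac H (x i) := by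
        revert f2; cases fac H (x i) <;> cases fac H (x (i - 1)) <;> simp
      rw [fac_cl, fac_cl, cn_iter, sy]
      simp only [cn, Bool.false_eq_true, if_false, f3, Kh, this, e1, e2, sg]
      rcases Nat.even_or_odd (l + 1) with c | c
      · rw [c.neg_one_pow, f1.2 c]
        cases fac H (x (i - (l + 1 : ℕ))) <;> simp <;> ring
      · have f4 := fun c' => Nat.not_even_iff_odd.2 c (f1.1 c')
        rw [c.neg_one_pow]
        revert f4
        cases fac H (x (i - (l + 1 : ℕ))) <;> cases fac H (x i) <;> simp <;> ring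
    · simp only [jn_t] at m2 m3 ⊢
      have j0 : jn ((true, i) : Bool × ZMod n) = i + 1 := by simp [jn]
      rw [j0] at m1 ⊢
      have := pc (i + 1) (l + 1) ⟨m1, m2, by omega, m3⟩
      have f1 := fac_par hc.hf (i + 1) (l + 1)
      have f2 := hc.hf (i + (l + 1 : ℕ))
      rw [add_right_comm] at f2
      have f3 : fac H (x (i + (l + 1 : ℕ))) = !fac H (x (i + 1 + (l + 1 : ℕ))) := by
        revert f2
        cases fac H (x (i + (l + 1 : ℕ))) <;> cases fac H (x (i + 1 + (l + 1 : ℕ))) <;> simp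
      rw [fac_cl, fac_cl, cn_iter]
      simp only [cn, if_true, f3, Kh, this, e1, e2, sg]
      rcases Nat.even_or_odd (l + 1) with c | c
      · rw [c.neg_one_pow, f1.2 c]
        cases fac H (x (i + 1)) <;> simp <;> ring
      · have f4 := fun c' => Nat.not_even_iff_odd.2 c (f1.1 c')
        rw [c.neg_one_pow]
        revert f4
        cases fac H (x (i + 1 + (l + 1 : ℕ))) <;> cases fac H (x (i + 1)) <;> simp <;> ring
  have lin : ∀ t (b : Ar n) s, S.T b → S.Mk (jn b.1) → Mt x b.1 b.2 s →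
      S.Mk (jn (cn^[s] b.1)) → (-1) ^ s * (Kh H x h t (jn (cn^[s] b.1)) -
        Kh H x h t (jn (cn^[s] b.2))) = Kh H x h t (jn b.1) - Kh H x h t (jn b.2) := by
    intro t b s tb mb
    induction s using Nat.strong_induction_on with
    | _ s ih =>
      intro hm ms
      rcases Nat.eq_zero_or_pos s with rfl | hs
      · simp
      classical
      obtain ⟨r, r1, r2, r4⟩ : ∃ r, r ≤ s - 1 ∧ S.Mk (jn (cn^[r] b.1)) ∧
          ∀ k, r < k → k ≤ s - 1 → ¬ S.Mk (jn (cn^[k] b.1)) :=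
        ⟨Nat.findGreatest (fun r : ℕ => S.Mk (jn (cn^[r] b.1))) (s - 1), Nat.findGreatest_le _,
          Nat.findGreatest_spec (P := fun r : ℕ => S.Mk (jn (cn^[r] b.1))) (Nat.zero_le _) mb,
          fun k => Nat.findGreatest_is_greatest⟩
      obtain ⟨l, rfl⟩ : ∃ l, s = l + 1 + r := ⟨s - 1 - r, by omega⟩
      have r3 : ∀ a, 0 < a → a < l + 1 → ¬ S.Mk (jn (cn^[a + r] b.1)) := fun a a1 a2 =>
        r4 _ (by omega) (by omega)
      have tt := fun a (ha : a ≤ l + 1 + r) => S.T_iter tb (hm.mono ha)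
      have pp : ∀ a, a ≤ l + 1 + r → S.p (jn (cn^[a] b.1)) = S.p (jn (cn^[a] b.2)) := fun a ha =>
        propext ⟨S.T_p _ (tt a ha), S.T_p _ (S.T_swap _ (tt a ha))⟩
      have a1 := ray t (cn^[r] b.1) l r2 (by rwa [← Function.iterate_add_apply])
        (fun a a1 a2 => by rw [← Function.iterate_add_apply]; exact r3 a a1 a2)
      have a2 := ray t (cn^[r] b.2) l (S.T_mk (tt r (by omega)) r2)
        (by rw [← Function.iterate_add_apply]; exact S.T_mk (tt _ le_rfl) ms)
        (fun a a1 a2 c => by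
          rw [← Function.iterate_add_apply] at c
          exact r3 a a1 a2 (S.T_mk (S.T_swap _ (tt _ (by omega))) c))
      rw [← Function.iterate_add_apply] at a1 a2
      have c1 := hm r (by omega)
      have c2 := hm (l + r) (by omega)
      rw [Function.iterate_succ_apply', Function.iterate_succ_apply'] at c1
      rw [show l + r + 1 = l + 1 + r by omega] at c2
      rw [c1, c2, pp r (by omega), pp _ le_rfl] at a1
      rw [← ih r (by omega) (hm.mono (by omega)) r2, pow_add]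
      linear_combination (-1) ^ r * (a1 - a2)
  obtain ⟨t, -, c2⟩ := hm h (by
    intro t b a h1 h2 h3 h4
    have tb := S.T_back h1 h2
    have k : ∀ b0 : Ar n, S.T b0 → S.Mk (jn b0.1) → Ahd x b0 a →
        Kh H x h t (jn a.1) - Kh H x h t (jn a.2) =
          Kh H x h t (jn b0.1) - Kh H x h t (jn b0.2) := by
      rintro b0 t0 m0 ⟨s, c1, c2⟩
      have e : jn a.1 = jn (fw^[s] b0).1 ∧ jn a.2 = jn (fw^[s] b0).2 := by
        rcases c2 with rfl | rfl <;> simp [rv]
      have h5 := S.T_mk h2 h4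
      rw [e.1] at h4
      rw [e.2] at h5
      rw [e.1, e.2, fw_iter] at *
      by_cases c : Even s
      · simp only [c, if_true] at h4 ⊢
        rw [← lin t b0 s t0 m0 c1 h4, c.neg_one_pow, one_mul]
      · simp only [c, if_false] at h5 ⊢
        rw [← lin t b0 s t0 m0 c1 h5, (Nat.not_even_iff_odd.1 c).neg_one_pow]
        ring
    rcases h1 with h1 | h1
    · exact k b tb h3 h1
    · simpa [rv] using k (rv b) (S.T_rv b tb) (by simpa [rv] using h3) h1)
  have := c2 _ _ q1 q2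
  simp only [Kh, (fac_par hc.hf k s).2 ev, h_add hh k s] at this
  split_ifs at this <;> linarith

theorem all_types (hc : Cy H x) (hm : S.Mn) {k : ZMod n} {s : ℕ} (q1 : S.q k) (q2 : S.q (k + s))
    (ev : Even s) (hs : 0 < s) {j : ZMod n} {l : ℕ} (hj : Pc S.Mk j l) :
    ∃ (r l' : ℕ), r < s ∧ Pc S.Mk (k + r) l' ∧
      s(S.e1 (k + r), S.e2 (k + r + l')) = s(S.e1 j, S.e2 (j + l)) := by
  classical
  by_contra con
  push Not at con
  obtain ⟨l1, p1⟩ := pc_next (M := S.Mk) (j := k) (Or.inr q1)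
  let τ0 := s(S.e1 j, S.e2 (j + l))
  let τ1 := s(S.e1 k, S.e2 (k + l1))
  have ne : τ1 ≠ τ0 := by
    have := con 0 l1 hs (by simpa using p1)
    simpa only [Nat.cast_zero, add_zero] using this
  let Ty : Sym2 (Prop × Bool) → ZMod n → Prop := fun τ i =>
    ∃ l, Pc S.Mk i l ∧ s(S.e1 i, S.e2 (i + l)) = τ
  let m0 : ℚ := (Finset.univ.filter (Ty τ0)).card
  let m1 : ℚ := (Finset.univ.filter (Ty τ1)).card
  have m0p : 0 < m0 := by
    simp only [m0, Nat.cast_pos, Finset.card_pos]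
    exact ⟨j, by simpa using ⟨l, hj, rfl⟩⟩
  have := S.mn_piece hc hm
    (fun a b => (if s(a, b) = τ1 then m0 else 0) - if s(a, b) = τ0 then m1 else 0)
    (fun a b => by rw [Sym2.eq_swap])
    (fun i => (if Ty τ1 i then m0 else 0) - if Ty τ0 i then m1 else 0)
    (fun i hi => by
      have : ∀ τ, ¬ Ty τ i := fun τ ⟨_, c, _⟩ => hi c.1
      simp [this])
    (fun i l c => by
      have : ∀ τ, Ty τ i ↔ s(S.e1 i, S.e2 (i + l)) = τ := fun τ =>
        ⟨fun ⟨l', c1, c2⟩ => c.uniq c1 ▸ c2, fun c2 => ⟨l, c, c2⟩⟩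
      simp only [this])
    (by
      rw [Finset.sum_sub_distrib, ← Finset.sum_filter, ← Finset.sum_filter]
      simp only [Finset.sum_const, nsmul_eq_mul]
      ring) q1 q2 ev
  refine absurd this (ne_of_gt (Finset.sum_pos' (fun r hr => ?_) ⟨0, by simpa using hs, ?_⟩))
  · have : ¬ Ty τ0 (k + r) := fun ⟨l', c1, c2⟩ => con r l' (by simpa using hr) c1 c2
    simp only [this, if_false, sub_zero]
    split_ifs <;> linarith
  · have a1 : Ty τ1 k := ⟨l1, p1, rfl⟩
    have a2 : ¬ Ty τ0 k := fun ⟨l', c1, c2⟩ => ne (by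
      obtain rfl := p1.uniq c1
      exact c2)
    simpa [a1, a2] using m0p

/-- all first returns are odd -/
def OddRet (M : ZMod n → Prop) : Prop := ∀ j l, Pc M j l → ¬ Even l

theorem ev_ret (hc : Cy H x) (hm : S.Mn) (hb : S.Bal) (dj : ∀ j, ¬ (S.p j ∧ S.q j))
    (h : ¬ OddRet S.q) : ∃ β τ τ' : Bool, ∀ j l, Pc S.Mk j l →
      (S.q j → S.p (j + l) ∧ (!fac H (x (j + l))) = if fac H (x j) = β then τ else τ') ∧
      (S.q (j + l) → S.p j ∧ fac H (x j) = if fac H (x (j + l)) = β then τ' else τ) := by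
  simp only [OddRet, not_forall, not_not] at h
  obtain ⟨k, s, ⟨q1, q2, hs, q3⟩, ev⟩ := h
  obtain ⟨l1, p1⟩ := pc_next (M := S.Mk) (j := k) (Or.inr q1)
  obtain ⟨r2, r2s, p2⟩ := pc_prev (M := S.Mk) (Or.inr q1) hs (Or.inr q2)
  have fs := (fac_par hc.hf k s).2 ev
  have np : ∀ {j}, S.q j → S.p j = False := fun c => eq_false fun c' => dj _ ⟨c', c⟩
  have ins : ∀ r : ℕ, 0 < r → r < s → S.Mk (k + r) → S.p (k + r) := fun r a b c =>
    c.resolve_right (q3 r a b)
  have le : ∀ r l', r < s → Pc S.Mk (k + r) l' → r + l' ≤ s := by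
    intro r l' a c
    by_contra d
    refine c.2.2.2 (s - r) (by omega) (by omega) (Or.inr ?_)
    rw [Nat.cast_sub a.le]; simpa using q2
  have l1s : l1 < s := by
    have := le 0 l1 hs (by simpa using p1)
    by_contra d
    obtain rfl : l1 = s := by omega
    obtain ⟨j, pj, -⟩ := (hb true).1
    obtain ⟨l, pl⟩ := pc_next (M := S.Mk) (Or.inl pj)
    obtain ⟨r, l', a1, a2, a3⟩ := S.all_types hc hm q1 q2 ev hs pl
    obtain rfl : r = 0 := by
      by_contra d
      exact p1.2.2.2 r (by omega) a1 a2.1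
    simp only [Nat.cast_zero, add_zero] at a2 a3
    obtain rfl := p1.uniq a2
    simp [e1, e2, np q1, np q2, pj] at a3
  have r0 : 0 < r2 := by
    by_contra d
    obtain rfl : r2 = 0 := by omega
    simp only [Nat.cast_zero, add_zero] at p2
    have := p1.uniq p2
    omega
  refine ⟨fac H (x k), !fac H (x (k + l1)), fac H (x (k + r2)), fun j l pl => ?_⟩
  obtain ⟨r, l', a1, a2, a3⟩ := S.all_types hc hm q1 q2 ev hs pl
  have a4 := le r l' a1 a2
  have P1 := ins l1 p1.2.2.1 l1s p1.2.1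
  have P2 := ins r2 r0 r2s p2.1
  rcases Nat.eq_zero_or_pos r with rfl | r1
  · simp only [Nat.cast_zero, add_zero] at a2 a3
    obtain rfl := p1.uniq a2
    simp only [e1, e2, np q1, eq_true P1, Sym2.eq_iff, Prod.mk.injEq] at a3
    rcases a3 with ⟨⟨b1, b2⟩, b3, b4⟩ | ⟨⟨b1, b2⟩, b3, b4⟩
    · exact ⟨fun _ => ⟨b3 ▸ trivial, by rw [if_pos b2.symm, b4]⟩,
        fun c => (dj _ ⟨b3 ▸ trivial, c⟩).elim⟩
    · refine ⟨fun c => (dj _ ⟨b3 ▸ trivial, c⟩).elim, fun _ => ⟨b3 ▸ trivial, ?_⟩⟩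
      rw [if_neg (by rw [b2]; simp), b4]
  · have P3 := ins r r1 a1 a2.1
    rcases Nat.lt_or_ge (r + l') s with d | d
    · have P4 := ins (r + l') (by omega) d (by push_cast; rw [← add_assoc]; exact a2.2.1)
      push_cast at P4
      rw [← add_assoc] at P4
      simp only [e1, e2, eq_true P3, eq_true P4, Sym2.eq_iff, Prod.mk.injEq] at a3
      rcases a3 with ⟨⟨b1, b2⟩, b3, b4⟩ | ⟨⟨b3, b2⟩, b1, b4⟩ <;>
        exact ⟨fun c => (dj _ ⟨b1 ▸ trivial, c⟩).elim, fun c => (dj _ ⟨b3 ▸ trivial, c⟩).elim⟩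
    · obtain rfl : s = r + l' := by omega
      obtain rfl : r2 = r := by
        rcases lt_trichotomy r2 r with c | c | c
        · refine (p2.2.2.2 (r - r2) (by omega) (by omega) ?_).elim
          rw [Nat.cast_sub c.le]; simpa using a2.1
        · exact c
        · refine (a2.2.2.2 (r2 - r) (by omega) (by omega) ?_).elim
          rw [Nat.cast_sub c.le]; simpa using p2.1
      push_cast at q2 fs
      rw [← add_assoc] at q2 fs
      simp only [e1, e2, eq_true P3, np q2, fs, Sym2.eq_iff, Prod.mk.injEq] at a3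
      rcases a3 with ⟨⟨b1, b2⟩, b3, b4⟩ | ⟨⟨b1, b2⟩, b3, b4⟩
      · refine ⟨fun c => (dj _ ⟨b1 ▸ trivial, c⟩).elim, fun _ => ⟨b1 ▸ trivial, ?_⟩⟩
        rw [if_pos (Bool.not_inj b4).symm, b2]
      · refine ⟨fun _ => ⟨b1 ▸ trivial, ?_⟩, fun c => (dj _ ⟨b1 ▸ trivial, c⟩).elim⟩
        rw [if_neg (by rw [← b4]; simp), b2]

omit [NeZero n] in
theorem Mn.flip {S : St H x} (h : S.Mn) : S.flip.Mn := by
  intro K adm
  obtain ⟨t, c1, c2⟩ := h K fun t b a h1 h2 h3 h4 => adm t b a h1 h2 h3.symm h4.symm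
  exact ⟨t, c2, c1⟩

omit [NeZero n] in
theorem Bal.flip {S : St H x} (h : S.Bal) : S.flip.Bal := fun b => (h b).symm

omit [NeZero n] in
theorem mk_flip : S.flip.Mk = S.Mk := by
  funext j; exact propext Or.comm

theorem odd_or (hc : Cy H x) (hm : S.Mn) (hb : S.Bal) (dj : ∀ j, ¬ (S.p j ∧ S.q j)) :
    OddRet S.p ∨ OddRet S.q := by
  by_contra con
  rw [not_or] at con
  obtain ⟨β, τ, τ', h⟩ := S.ev_ret hc hm hb dj con.2
  obtain ⟨_, _, _, h'⟩ := S.flip.ev_ret hc hm.flip hb.flip (fun j c => dj j c.symm) con.1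
  rw [mk_flip] at h'
  obtain ⟨y, y1, y2⟩ := (hb β).2
  obtain ⟨z, z1, z2⟩ := (hb (!β)).2
  have := pc_reach (M := S.Mk)
    (P := fun j => (S.q j ∧ fac H (x j) = β) ∨ (S.p j ∧ (!fac H (x j)) = τ)) (Or.inr y1)
    (Or.inl ⟨y1, y2⟩) (by
      rintro k l c (⟨d1, d2⟩ | ⟨d1, d2⟩)
      · have := (h k l c).1 d1
        rw [if_pos d2] at this
        exact Or.inr this
      · have q1 : S.q (k + l) := ((h' k l c).1 d1).1
        refine Or.inl ⟨q1, ?_⟩
        have := ((h k l c).2 q1).2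
        by_contra d
        rw [if_neg d] at this
        simp [this] at d2) z (Or.inr z1)
  rcases this with c | c
  · simp [z2] at c
  · exact dj z ⟨c.1, z1⟩

theorem odd_q (hc : Cy H x) (hm : S.Mn) (hb : S.Bal) (dj : ∀ j, ¬ (S.p j ∧ S.q j))
    (ho : OddRet S.p) (hu : ∀ j k, S.p j → S.p k → fac H (x j) = fac H (x k) → j = k) :
    OddRet S.q := by
  by_contra con
  obtain ⟨β, τ, τ', h⟩ := S.ev_ret hc hm hb dj con
  obtain ⟨y, y1, y2⟩ := (hb β).2
  obtain ⟨z, z1, z2⟩ := (hb (!β)).2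
  have prev : ∀ y, S.q y → ∃ j l, Pc S.Mk j l ∧ j + l = y := by
    intro y c
    obtain ⟨r, r1, r2⟩ := pc_prev (M := S.Mk) (Or.inr c) (NeZero.pos n) 
      (show S.Mk _ from Or.inr (by simpa using c))
    exact ⟨_, _, r2, by rw [Nat.cast_sub r1.le]; simp⟩
  obtain ⟨j, l, p1, rfl⟩ := prev y y1
  obtain ⟨j', l', p2, rfl⟩ := prev z z1
  obtain ⟨l3, p3⟩ := pc_next (M := S.Mk) (Or.inr y1)
  have a1 := (h _ _ p1).2 y1
  have a2 := (h _ _ p2).2 z1
  have a3 := (h _ _ p3).1 y1
  rw [if_pos y2] at a1 a3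
  rw [if_neg (by simp [z2])] at a2
  have od := ho j (l + l3) ⟨a1.1, by push_cast; rw [← add_assoc]; exact a3.1,
    by have := p1.2.2.1; omega, fun r r1 r2 c => by
      rcases lt_trichotomy r l with d | rfl | d
      · exact p1.2.2.2 r r1 d (Or.inl c)
      · exact dj _ ⟨c, y1⟩
      · refine p3.2.2.2 (r - l) (by omega) (by omega) (Or.inl ?_)
        rw [Nat.cast_sub d.le]; simpa using c⟩
  rw [← fac_par hc.hf j] at od
  push_cast at od
  rw [← add_assoc] at od
  obtain rfl : j = j' := hu _ _ a1.1 a2.1 (by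
    rw [a2.2, ← a3.2]
    revert od
    cases fac H (x (j + l + l3)) <;> cases fac H (x j) <;> simp)
  obtain rfl := p1.uniq p2
  simp [y2] at z2

end St

end Pool.Agent.MP_a38735_al
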