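import Pool.Agent.MP_a38735_al.State

set_option autoImplicit false

namespace Pool.Agent.MP_a38735_al

variable {G : Type*} [Group G] {H : Bool → Subgroup G} {n : ℕ} [NeZero n]

omit [NeZero n] in
theorem even_of {x : ZMod n → G} (hc : Cy H x) {i j : ZMod n} {t : ℕ} (e : i + t = j)
    (h : fac H (x i) = fac H (x j)) : Even t := (fac_par hc.hf i t).1 (by rw [e, h])

omit [NeZero n] in
theorem odd_of {x : ZMod n → G} (hc : Cy H x) {i j : ZMod n} {t : ℕ} (e : i + t = j)
    (h : fac H (x i) ≠ fac H (x j)) : ¬ Even t := fun c =>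
  h (by rw [← e]; exact ((fac_par hc.hf i t).2 c).symm)

namespace St

variable {x : ZMod n → G} (S : St H x)

omit [NeZero n] in
theorem unb (hc : Cy H x) {P : ZMod n} (hP : S.p P)
    (h : (∀ k, S.p k → fac H (x k) = fac H (x P) → k ≠ P → Lx x k P) ∨
      (∀ k, S.p k → fac H (x k) = fac H (x P) → k ≠ P → Lx x P k)) : Unb x P := by
  intro k t hk hm e
  have t0 : 0 < t := by
    rcases Nat.eq_zero_or_pos t with rfl | t0
    · exact (hk (by simpa using e)).elim
    · exact t0
  have hp : fac H (x P) = fac H (x k) := by simpa using congrArg (fac H) (hm 0 t0)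
  have ev := even_of hc e hp.symm
  rcases S.par_cases hc hp hm with c | c | c
  · have p1 : S.p k := by simpa using (c 0 (by omega)).1.1 (by simpa using hP)
    have p2 : S.p (P + t) := (c t le_rfl).1.2 (by simpa [e] using hP)
    have f2 := (fac_par hc.hf P t).2 ev
    have ne : P + t ≠ P := fun c => hk (by linear_combination e - c)
    rcases h with h | h
    · have := (h k p1 hp.symm hk).shift hm.symm
      rw [e] at this
      exact this.asymm (h _ p2 f2 ne)
    · have := (h k p1 hp.symm hk).shift hm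
      rw [e] at this
      exact this.asymm (h _ p2 f2 ne)
  · exact ((c t le_rfl).1 ev).1 (by simpa [e] using hP)
  · exact ((c 0 (by omega)).1 (by simp)).1 (by simpa using hP)

theorem xpair (hF : FP H) (hc : Cy H x) {P Q : ZMod n} (hP : S.p P) (hQ : S.q Q) (hne : P ≠ Q)
    (hpar : fac H (x P) = fac H (x Q))
    (mP : ∀ k, S.p k → fac H (x k) = fac H (x P) → k ≠ P → Lx x k P)
    (mQ : ∀ k, S.q k → fac H (x k) = fac H (x Q) → k ≠ Q → Lx x Q k)
    (a1 : ∀ k (t : ℕ), fac H (x Q) ≠ fac H (x k) → AM x Q k t →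
      S.Al (fun s => Q + s) (fun s => k - s) t → Q + t ≠ P ∧ k - t ≠ P)
    (a2 : ∀ k (t : ℕ), fac H (x P) ≠ fac H (x k) → AM x P k t →
      S.Al (fun s => P + s) (fun s => k - s) t → P + t ≠ Q)
    (a3 : ∀ k (t : ℕ), fac H (x Q) ≠ fac H (x k) → AM x k Q t →
      S.Al (fun s => k + s) (fun s => Q - s) t → k + t ≠ P) : Fr H x := by
  intro m hm b a ha hn
  refine cyc_freiheit hF x hc.hL hc.hf P Q hne ?_ ?_ ?_ ?_ ?_ m hm ha hn
  · intro k t hk hp h
    refine ⟨fun e => ?_, S.flip.unb hc hQ (Or.inr mQ) k t hk h⟩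
    have ev := even_of hc e hpar.symm
    rcases S.par_cases hc hp h with c | c | c
    · have q1 : S.q k := by simpa using (c 0 (by omega)).2.1 (by simpa using hQ)
      have p2 : S.p (k + t) := (c t le_rfl).1.1 (by simpa [e] using hP)
      have := (mQ k q1 hp.symm hk).shift h
      rw [e] at this
      exact this.asymm (mP _ p2 (by rw [← e]; exact (fac_add hc.hf hp t).symm)
        (fun c => hk (by linear_combination c - e)))
    · exact ((c 0 (by omega)).1 (by simp)).2 (by simpa using hQ)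
    · exact ((c t le_rfl).1 ev).1 (by simpa [e] using hP)
  · intro k t hk hp h
    refine ⟨fun e => ?_, S.unb hc hP (Or.inl mP) k t hk h⟩
    have ev := even_of hc e hpar
    rcases S.par_cases hc hp h with c | c | c
    · have p1 : S.p k := by simpa using (c 0 (by omega)).1.1 (by simpa using hP)
      have q2 : S.q (k + t) := (c t le_rfl).2.1 (by simpa [e] using hQ)
      have := (mP k p1 hp.symm hk).shift h.symm
      rw [e] at this
      exact this.asymm (mQ _ q2 (by rw [← e]; exact (fac_add hc.hf hp t).symm)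
        (fun c => hk (by linear_combination c - e)))
    · exact ((c t le_rfl).1 ev).2 (by simpa [e] using hQ)
    · exact ((c 0 (by omega)).1 (by simp)).1 (by simpa using hP)
  · intro k t hp h
    rcases S.anti_cases hc hp h with c | c | c
    · exact a1 k t hp h c
    · exact (((c 0 (by omega)).1 (by simp)).2 (by simpa using hQ)).elim
    · refine ⟨fun e => ((c t le_rfl).1 (even_of hc e hpar.symm)).1 (by simpa [e] using hP),
        fun e => ((c t le_rfl).2 (odd_of hc (i := P) (j := k) (by linear_combination -e)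
          (hpar ▸ hp))).1 (by simpa [e] using hP)⟩
  · intro k t hp h
    rcases S.anti_cases hc hp h with c | c | c
    · exact a2 k t hp h c
    · exact fun e => ((c t le_rfl).1 (even_of hc e hpar)).2 (by simpa [e] using hQ)
    · exact (((c 0 (by omega)).1 (by simp)).1 (by simpa using hP)).elim
  · intro k t hp h
    rcases S.anti_cases hc hp.symm h with c | c | c
    · exact a3 k t hp h c
    · exact fun e => ((c t le_rfl).2 (odd_of hc e (hpar ▸ hp.symm))).1 (by simpa [e] using hP)
    · exact (((c 0 (by omega)).1 (by simp)).2 (by simpa using hQ)).elim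

theorem pure_fr (hF : FP H) (hc : Cy H x) (b : Bool) (hp : ∃ j, S.p j) (hq : ∃ j, S.q j)
    (h : ∀ j, S.Mk j → fac H (x j) = b) : Fr H x := by
  obtain ⟨P, hP, mP⟩ := lx_max hc S.p hp
  obtain ⟨Q, hQ, mQ⟩ := lx_min hc S.q hq
  have fP := h P (Or.inl hP)
  have fQ := h Q (Or.inr hQ)
  refine S.xpair hF hc hP hQ ?_ (fP.trans fQ.symm) (fun k h1 _ h2 => mP k h1 h2)
    (fun k h1 _ h2 => mQ k h1 h2) ?_ ?_ ?_
  · rintro rfl
    rcases S.dj with d | d
    · exact d P ⟨hP, hQ⟩
    · exact hc.hf P ((h _ (Or.inl (d _).1)).trans fP.symm)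
  · intro k t h1 _ c
    exact (h1 (fQ.trans (h k (Or.inr (by
      simpa using (c 0 (by omega)).2.1 (by simpa using hQ)))).symm)).elim
  · intro k t h1 _ c
    exact (h1 (fP.trans (h k (Or.inl (by
      simpa using (c 0 (by omega)).1.1 (by simpa using hP)))).symm)).elim
  · intro k t h1 _ c
    exact (h1 (fQ.trans (h k (Or.inr (by
      simpa using (c 0 (by omega)).2.2 (by simpa using hQ)))).symm)).elim

/-- both classes meet both parities -/
def Bal : Prop := ∀ b : Bool, (∃ j, S.p j ∧ fac H (x j) = b) ∧ ∃ j, S.q j ∧ fac H (x j) = b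

end St

/-- reflected heights -/
noncomputable def Kh (H : Bool → Subgroup G) (x : ZMod n → G) (h : ZMod n → ℚ) (t : ℚ)
    (j : ZMod n) : ℚ := if fac H (x j) then h j + t else -(h j + t)

/-- no admissible height refines the state -/
def St.Mn {x : ZMod n → G} (S : St H x) : Prop := ∀ h : ZMod n → ℚ, (∀ t, S.Adm (Kh H x h t)) →
  ∃ t, (∀ j k, S.p j → S.p k → Kh H x h t j = Kh H x h t k) ∧
    ∀ j k, S.q j → S.q k → Kh H x h t j = Kh H x h t k

theorem ex_max (f : ZMod n → ℚ) (P : ZMod n → Prop) (h : ∃ j, P j) :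
    ∃ j, P j ∧ ∀ k, P k → f k ≤ f j := by
  obtain ⟨j, h1, h2⟩ := Set.exists_max_image {j | P j} f (Set.toFinite _) h
  exact ⟨j, h1, h2⟩

theorem exists_min (hF : FP H) {x : ZMod n → G} (hc : Cy H x) :
    Fr H x ∨ ∃ S : St H x, S.Bal ∧ S.Mn := by
  classical
  by_contra con
  rw [not_or] at con
  obtain ⟨nf, con⟩ := con
  let S0 : St H x :=
    { p := fun _ => True, q := fun _ => True, T := fun _ => True, Ab := fun _ => False
      tri := by simp, T_swap := by simp, T_rv := by simp, T_fw := by simp, Ab_rv := by simp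
      Ab_fw := by simp, Ab_p := by simp, Ab_q := by simp, T_p := by simp, T_q := by simp
      dj := by simp }
  have b0 : S0.Bal := by
    intro b
    have : ∃ j, fac H (x j) = b := by
      by_cases c : fac H (x 0) = b
      · exact ⟨0, c⟩
      · exact ⟨0 + 1, bool_ne_ne (hc.hf 0) c⟩
    obtain ⟨j, hj⟩ := this
    exact ⟨⟨j, trivial, hj⟩, j, trivial, hj⟩
  let w : St H x → ℕ := fun S => (Finset.univ.filter S.p).card + (Finset.univ.filter S.q).card
  obtain ⟨S, hS, mS⟩ := (measure w).wf.has_min {S | S.Bal} ⟨S0, b0⟩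
  refine con ⟨S, hS, fun h adm => ?_⟩
  obtain ⟨pe, ⟨pe1, pe2⟩, pe3⟩ := ex_max h _ (hS true).1
  obtain ⟨po, ⟨po1, po2⟩, po3⟩ := ex_max (fun j => -h j) _ (hS false).1
  obtain ⟨qe, ⟨qe1, qe2⟩, qe3⟩ := ex_max (fun j => -h j) _ (hS true).2
  obtain ⟨qo, ⟨qo1, qo2⟩, qo3⟩ := ex_max h _ (hS false).2
  set t := -(h pe + h po + h qe + h qo) / 4 with ht
  obtain ⟨S', e1, e2⟩ := S.refine _ (adm t)
  have Kt : ∀ j, fac H (x j) = true → Kh H x h t j = h j + t := fun j c => by simp [Kh, c]
  have Kf : ∀ j, fac H (x j) = false → Kh H x h t j = -(h j + t) := fun j c => by simp [Kh, c]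
  have mp : ∀ j, S.p j → Kh H x h t j ≤ max (h pe + t) (-(h po + t)) := by
    intro j hj
    cases c : fac H (x j)
    · rw [Kf j c]; exact le_max_of_le_right (by linarith [po3 j ⟨hj, c⟩])
    · rw [Kt j c]; exact le_max_of_le_left (by linarith [pe3 j ⟨hj, c⟩])
  have mq : ∀ j, S.q j → min (h qe + t) (-(h qo + t)) ≤ Kh H x h t j := by
    intro j hj
    cases c : fac H (x j)
    · rw [Kf j c]; exact min_le_of_right_le (by linarith [qo3 j ⟨hj, c⟩])
    · rw [Kt j c]; exact min_le_of_left_le (by linarith [qe3 j ⟨hj, c⟩])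
  rcases lt_trichotomy (h pe + h po) (h qe + h qo) with c | c | c
  · refine (nf (S'.pure_fr hF hc false ⟨po, (e1 _).2 ⟨po1, fun k hk => ?_⟩⟩
      ⟨qo, (e2 _).2 ⟨qo1, fun k hk => ?_⟩⟩ ?_)).elim
    · rw [Kf po po2]; exact (mp k hk).trans (max_le (by linarith) le_rfl)
    · rw [Kf qo qo2]; exact (le_min (by linarith) le_rfl).trans (mq k hk)
    · rintro j (hj | hj) <;> by_contra d <;> rw [Bool.not_eq_false] at d
      · have := ((e1 j).1 hj).2 po po1
        rw [Kf po po2, Kt j d] at this
        linarith [pe3 j ⟨((e1 j).1 hj).1, d⟩]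
      · have := ((e2 j).1 hj).2 qo qo1
        rw [Kf qo qo2, Kt j d] at this
        linarith [qe3 j ⟨((e2 j).1 hj).1, d⟩]
  · have up : ∀ k, S.p k → Kh H x h t k ≤ h pe + t := fun k hk =>
      (mp k hk).trans (max_le le_rfl (by linarith))
    have lo : ∀ k, S.q k → h qe + t ≤ Kh H x h t k := fun k hk =>
      (le_min le_rfl (by linarith)).trans (mq k hk)
    have bal : S'.Bal := by
      intro b
      cases b
      · refine ⟨⟨po, (e1 _).2 ⟨po1, fun k hk => ?_⟩, po2⟩, qo, (e2 _).2 ⟨qo1, fun k hk => ?_⟩, qo2⟩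
        · rw [Kf po po2]; linarith [up k hk]
        · rw [Kf qo qo2]; linarith [lo k hk]
      · refine ⟨⟨pe, (e1 _).2 ⟨pe1, fun k hk => ?_⟩, pe2⟩, qe, (e2 _).2 ⟨qe1, fun k hk => ?_⟩, qe2⟩
        · rw [Kt pe pe2]; exact up k hk
        · rw [Kt qe qe2]; exact lo k hk
    have s1 : Finset.univ.filter S'.p ⊆ Finset.univ.filter S.p := fun j hj => by
      simp only [Finset.mem_filter, Finset.mem_univ, true_and] at hj ⊢; exact ((e1 j).1 hj).1
    have s2 : Finset.univ.filter S'.q ⊆ Finset.univ.filter S.q := fun j hj => by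
      simp only [Finset.mem_filter, Finset.mem_univ, true_and] at hj ⊢; exact ((e2 j).1 hj).1
    have nl : ¬ w S' < w S := mS S' bal
    have c1 := Finset.card_le_card s1
    have c2 := Finset.card_le_card s2
    simp only [w] at nl
    have f1 := Finset.eq_of_subset_of_card_le s1 (by omega)
    have f2 := Finset.eq_of_subset_of_card_le s2 (by omega)
    have g1 : ∀ j, S.p j → S'.p j := fun j hj => by
      have : j ∈ Finset.univ.filter S'.p := by rw [f1]; simpa using hj
      simpa using this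
    have g2 : ∀ j, S.q j → S'.q j := fun j hj => by
      have : j ∈ Finset.univ.filter S'.q := by rw [f2]; simpa using hj
      simpa using this
    exact ⟨t, fun j k hj hk => le_antisymm (((e1 k).1 (g1 k hk)).2 j hj)
      (((e1 j).1 (g1 j hj)).2 k hk), fun j k hj hk => le_antisymm (((e2 j).1 (g2 j hj)).2 k hk)
      (((e2 k).1 (g2 k hk)).2 j hj)⟩
  · refine (nf (S'.pure_fr hF hc true ⟨pe, (e1 _).2 ⟨pe1, fun k hk => ?_⟩⟩
      ⟨qe, (e2 _).2 ⟨qe1, fun k hk => ?_⟩⟩ ?_)).elim
    · rw [Kt pe pe2]; exact (mp k hk).trans (max_le le_rfl (by linarith))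
    · rw [Kt qe qe2]; exact (le_min le_rfl (by linarith)).trans (mq k hk)
    · rintro j (hj | hj) <;> by_contra d <;> rw [Bool.not_eq_true] at d
      · have := ((e1 j).1 hj).2 pe pe1
        rw [Kt pe pe2, Kf j d] at this
        linarith [po3 j ⟨((e1 j).1 hj).1, d⟩]
      · have := ((e2 j).1 hj).2 qe qe1
        rw [Kt qe qe2, Kf j d] at this
        linarith [qo3 j ⟨((e2 j).1 hj).1, d⟩]

end Pool.Agent.MP_a38735_al
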