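import Pool.Agent.MP_a38735_al.WQ

set_option autoImplicit false
set_option linter.unusedVariables false

namespace Pool.Agent.MP_a38735_al.WL

variable {G : Type*} [Group G]

theorem l1_100L_23 {W : ℤ → G} {n Q i j k l i2 : ℤ} (al : AL W n Q)
    {L : ℤ} (mx : ∀ a b g, 0 < g → g < n → Par W a b g → b - a ≤ L) (hL : L ≤ (n - j - 3) ∧ L ≤ (n + Q - k - 3) ∧ L ≤ (n - l - 3) ∧ L ≤ (k - j - 2))
    (hy : (0) ≤ (i) ∧ (i) ≤ (j) ∧ (j + 1) ≤ (Q) ∧ (Q) ≤ (k) ∧ (k + 1) ≤ (n) ∧ (i + l + 2) ≤ (Q) ∧ (n) ≤ (k + l + 1) ∧ (0) ≤ (i2) ∧ (i2) ≤ (i + l + 1))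
    (a1 : Par W (0) (j) (k - j))
    (a2 : Par W (Q + j - k) (j) (k - j))
    (s1 : Ant W (0) (i) (i + j))
    (s2 : Ant W (j + 1) (Q) (i + j))
    (b : Par W (i + 1) (i + l + 1) (k - i))
    (t1 : Ant W (0) (i2) (i + l + i2 + 1))
    (t2 : Ant W (i + l + 2) (Q) (i + l + i2 + 1))
    (c : Par W (i2 + 1) (Q) (k + l - n - i2 + 1))
    (n1 : Nd W (j) (i) (k))
    (n2 : Nd W (i + l + 1) (i2) (k + l - n + 1))
    (d1 : ℤ) (q1 : d1 % 2 = 0) (x1 : Ant W (i + j - n - Q + 1) (i - n) (d1))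
    (b0 : (2 * k + 3) ≤ (n + 2 * Q))
    (b1 : (i + j + l + i2 + 2) ≤ (k))
    (b2 : (k + 2 * l + 2) ≤ (n + j))
    (b3 : (n + 2 * i) ≤ (k + l + i2 + 2))
    (b4 : (n + j + l + i2 + 1) ≤ (2 * k))
    (b5 : (n + j) ≤ (k + 2 * l + 2))
    (b6 : (2 * Q + k) ≤ (n + 2 * i + l + i2))
    (b7 : (3 * n + 4 * i2) ≤ (i + 3 * k + 4 * l + 3))
    (b8 : (n + d1 + 1) ≤ (i + i2))
    (b9 : (i + k + l + 1) ≤ (2 * n + d1)) : False := by
  have ev := al.ev
  obtain ⟨y0, y1, y2, y3, y4, y5, y6, y7, y8⟩ := id hy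
  have n1p := And.intro n1.p1 n1.p2
  have n2p := And.intro n2.p1 n2.p2
  by_cases z50 : (n + l + d1 + 3) ≤ (j + i2)
  · by_cases z51 : (2 * i + j + l + i2 + 2) ≤ (n + 2 * Q + d1)
    · have k305 : (n + j + d1 + 1) ≤ (2 * i + l + i2) := by clear * - b0 b4 b5 b6 z50; omega
      have k306 : (n + l + d1 + 3) ≤ (j + i2) := by clear * - z50; omega
      have k307 : (2 * i + j + l + i2 + 2) ≤ (n + 2 * Q + d1) := by clear * - z51; omega
      clear * - al a1 a2 s1 s2 b t1 t2 c x1 n1 n2 mx hL ev n1p n2p q1 k305 k306 k307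
      obtain ⟨t, ht⟩ : ∃ t, 2 * t = (n + l + i2 + d1 - j + 1) := ⟨(n + l + i2 + d1 - j + 1) / 2, by omega⟩
      exact al.ninv t (cI (cII (ab x1 al 0 t ((d1) - t) (by omega)) (ab s2 al (-1) ((d1) - t) (t + (i + j - n - d1)) (by omega))) (qa t2 al 0 (t + (i + j - n - d1)) t (by omega)))
    · have k308 : (2 * i + 2 * j + 2) ≤ (n + 2 * Q + d1) := by clear * - b0 b4 b5 b9 z50; omega
      have k309 : (n + d1 + 1) ≤ (2 * i) := by clear * - b0 b4 z51; omega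
      clear * - al a1 a2 s1 s2 b t1 t2 c x1 n1 n2 mx hL ev n1p n2p q1 k308 k309
      obtain ⟨t, ht⟩ : ∃ t, 2 * t = (d1 - 3 * n) := ⟨(d1 - 3 * n) / 2, by omega⟩
      exact al.ninv t (cE (qa x1 al (-1) t ((d1 - n) - t) (by omega)) (sh al (-2) ((d1 - n) - t) t (by omega)))
  · by_cases z52 : (k + l + i2 + 3) ≤ (2 * n + d1)
    · have k310 : (k + l + i2 + 3) ≤ (2 * n + d1) := by clear * - z52; omega
      have k311 : (2 * i + 2 * j + i2 + 1) ≤ (2 * Q + k + l + d1) := by clear * - b0 b3 b4 b5 z52; omega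
      have k312 : (2 * n + i2 + d1) ≤ (2 * Q + k + l) := by clear * - b0 b2 b3 b4 b7 b8 z52; omega
      have k313 : (k + l + d1 + 2) ≤ (2 * i + i2) := by clear * - b8 z52; omega
      clear * - al a1 a2 s1 s2 b t1 t2 c x1 n1 n2 mx hL ev n1p n2p q1 k310 k311 k312 k313
      obtain ⟨t, ht⟩ : ∃ t, 2 * t = (i2 + d1 - k - l - 1) := ⟨(i2 + d1 - k - l - 1) / 2, by omega⟩
      exact al.ninv t (cE (cI (qf c al (-1) t (t + (k + l - i2 + 1)) (by omega)) (qa x1 al 1 (t + (k + l - i2 + 1)) ((n + i2 + d1 - k - l - 1) - t) (by omega))) (sh al (-1) ((n + i2 + d1 - k - l - 1) - t) t (by omega)))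
    · have k314 : (j) ≤ (i + l) := by clear * - b0 b4 b6 z50 z52; omega
      have k315 : (l + 1) ≤ (j) := by clear * - b2 y6; omega
      have k316 : (k + 2 * l + 2) ≤ (n + j) := by clear * - b2; omega
      have k317 : (n + j) ≤ (k + 2 * l + 2) := by clear * - b5; omega
      have k318 : (n + d1 + 1) ≤ (i + i2) := by clear * - b8; omega
      have k319 : (i + j + i2 + 1) ≤ (n + Q + d1) := by clear * - b0 b2 b3 b4 z50 ev n1p n2p q1; omega
      have k320 : (i2) ≤ (n + d1) := by clear * - b2 y6 z50 ev n1p n2p q1; omega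
      have k321 : (n + l + d1 + 1) ≤ (j + i2) := by clear * - b2 z52 ev n1p n2p q1; omega
      have k322 : (j + i2) ≤ (n + l + d1 + 1) := by clear * - z50 ev n1p n2p q1; omega
      clear * - al a1 a2 s1 s2 b t1 t2 c x1 n1 n2 mx hL ev n1p n2p q1 k314 k315 k316 k317 k318 k319 k320 k321 k322
      exact (n2.f3 (ab s1 al 0 (i + l + 1) (k + l - n + 1) (by omega))) (cII (ab x1 al 0 (i2) (d1 - i2) (by omega)) (qa s1 al (-1) (d1 - i2) (i + l + 1) (by omega)))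

theorem l1_100L_22 {W : ℤ → G} {n Q i j k l i2 : ℤ} (al : AL W n Q)
    {L : ℤ} (mx : ∀ a b g, 0 < g → g < n → Par W a b g → b - a ≤ L) (hL : L ≤ (n - j - 3) ∧ L ≤ (n + Q - k - 3) ∧ L ≤ (n - l - 3) ∧ L ≤ (k - j - 2))
    (hy : (0) ≤ (i) ∧ (i) ≤ (j) ∧ (j + 1) ≤ (Q) ∧ (Q) ≤ (k) ∧ (k + 1) ≤ (n) ∧ (i + l + 2) ≤ (Q) ∧ (n) ≤ (k + l + 1) ∧ (0) ≤ (i2) ∧ (i2) ≤ (i + l + 1))
    (a1 : Par W (0) (j) (k - j))
    (a2 : Par W (Q + j - k) (j) (k - j))
    (s1 : Ant W (0) (i) (i + j))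
    (s2 : Ant W (j + 1) (Q) (i + j))
    (b : Par W (i + 1) (i + l + 1) (k - i))
    (t1 : Ant W (0) (i2) (i + l + i2 + 1))
    (t2 : Ant W (i + l + 2) (Q) (i + l + i2 + 1))
    (c : Par W (i2 + 1) (Q) (k + l - n - i2 + 1))
    (n1 : Nd W (j) (i) (k))
    (n2 : Nd W (i + l + 1) (i2) (k + l - n + 1))
    (b0 : (2 * k + 3) ≤ (n + 2 * Q))
    (b1 : (i + j + l + i2 + 2) ≤ (k))
    (b2 : (2 * Q + k) ≤ (n + 2 * i + l + i2 + 2))
    (b3 : (k + 2 * l + 2) ≤ (n + j))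
    (b4 : (n + 2 * i) ≤ (k + l + i2 + 2))
    (b5 : (n + j + l + i2 + 1) ≤ (2 * k))
    (b6 : (2 * n + i + 2 * i2) ≤ (j + 2 * k + 2 * l + 2)) : False := by
  have ev := al.ev
  obtain ⟨y0, y1, y2, y3, y4, y5, y6, y7, y8⟩ := id hy
  have n1p := And.intro n1.p1 n1.p2
  have n2p := And.intro n2.p1 n2.p2
  by_cases z43 : (n + j) ≤ (k + 2 * l + 2)
  · by_cases z44 : (n + 2 * i + l + i2 + 1) ≤ (2 * Q + k)
    · have k248 : (k + l + 2) ≤ (n + i2) := by clear * - b0 b2 b3 b4 b5; omega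
      have k249 : (j) ≤ (i + l) := by clear * - b0 b2 b5 z43; omega
      have k250 : (l + 1) ≤ (j) := by clear * - b3 y6; omega
      have k251 : (k + 2 * l + 2) ≤ (n + j) := by clear * - b3; omega
      have k252 : (n + j) ≤ (k + 2 * l + 2) := by clear * - z43; omega
      have k253 : (k + 1) ≤ (n + i) := by clear * - b0 b2 b3 b4 b5 b6; omega
      have k254 : (i + l + 2) ≤ (Q) := by clear * - b0 b3 b4 b5; omega
      have k255 : (i2 + 1) ≤ (Q) := by clear * - b0 b2 b3 b4 b5 b6; omega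
      have k256 : (k) ≤ (n + i) := by clear * - b0 b2 b3 b4 b5 b6; omega
      have k257 : (i2) ≤ (Q) := by clear * - b0 b2 b3 b4 b5 b6; omega
      have k258 : (n) ≤ (k + l + i2 + 3) := by clear * - b0 b2 b3 b4 b5 y6; omega
      have k259 : (k + l + 1) ≤ (n + i2) := by clear * - b0 b2 b3 b4 b5; omega
      have k260 : (n + 2 * i + l + i2 + 1) ≤ (2 * Q + k) := by clear * - z44; omega
      clear * - al a1 a2 s1 s2 b t1 t2 c n1 n2 mx hL ev n1p n2p k248 k249 k250 k251 k252 k253 k254 k255 k256 k257 k258 k259 k260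
      exact (n2.f3 (ab s1 al 0 (i + l + 1) (k + l - n + 1) (by omega))) (rEE (sh al 0 (i2) (i2) (by omega)) (sh al 0 (i + l + 1) (i + l + 1) (by omega)) (Eq.symm (midL al (n + i2 - k - l - 1) (i + l + i2 + 1) (i + l + 1) (i2) (k + l - n + 2) (Q) (by omega) (fun t h1 h2 => (ab t1 al 0 t ((i + l + i2 + 1) - t) (by omega))) (fun t h1 h2 => (pb c al 0 t (t + (n + i2 - k - l - 1)) (by omega))))))
    · by_cases z45 : (i + 2 * k + 3 * l + 5) ≤ (2 * n + 3 * i2)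
      · have k261 : (i2 + 1) ≤ (i + l) := by clear * - b0 b5 b6 z44 z45; omega
        have k262 : (2 * k + l + 3) ≤ (2 * n + i + i2) := by clear * - b0 b5 b6 z44 z45; omega
        have k263 : (i + 2 * k + 3 * l + 5) ≤ (2 * n + 3 * i2) := by clear * - z45; omega
        have k264 : (i + l + i2 + 2) ≤ (2 * Q) := by clear * - b0 b5 b6 z44 z45; omega
        have k265 : (2 * n + i + 3 * i2) ≤ (2 * Q + 2 * k + l) := by clear * - b0 b5 b6; omega
        clear * - al a1 a2 s1 s2 b t1 t2 c n1 n2 mx hL ev n1p n2p k261 k262 k263 k264 k265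
        obtain ⟨t, ht⟩ : ∃ t, 2 * t = (i + 2 * k + 3 * l - 4 * n - i2 + 3) := ⟨(i + 2 * k + 3 * l - 4 * n - i2 + 3) / 2, by omega⟩
        exact al.ninv t (cE (cI (cE (pb c al (-1) t (t + (2 * n + i2 - k - l - 1)) (by omega)) (pb c al 0 (t + (2 * n + i2 - k - l - 1)) (t + (3 * n + 2 * i2 - 2 * k - 2 * l - 2)) (by omega))) (qa t2 al 0 (t + (3 * n + 2 * i2 - 2 * k - 2 * l - 2)) ((i + 2 * k + 3 * l - 3 * n - i2 + 3) - t) (by omega))) (sh al (-1) ((i + 2 * k + 3 * l - 3 * n - i2 + 3) - t) t (by omega)))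
      · by_cases z46 : (i + 2 * k + 3 * l + 3) ≤ (2 * n + 3 * i2)
        · have k266 : (j) ≤ (i + l) := by clear * - b0 b5 z43 z44; omega
          have k267 : (l + 1) ≤ (j) := by clear * - b3 y6; omega
          have k268 : (k + 2 * l + 2) ≤ (n + j) := by clear * - b3; omega
          have k269 : (n + j) ≤ (k + 2 * l + 2) := by clear * - z43; omega
          have k270 : (k + l + 2) ≤ (n + i2) := by clear * - b0 b5 b6 z44 z46; omega
          have k271 : (n + 2 * i2) ≤ (Q + k + l) := by clear * - b0 b5 b6 z44 z46; omega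
          have k272 : (2 * n + 3 * i2) ≤ (Q + 2 * k + 2 * l + 1) := by clear * - b0 b5 b6 z45; omega
          have k273 : (i + 2 * k + 3 * l + 3) ≤ (2 * n + 3 * i2) := by clear * - z46; omega
          have k274 : (2 * n + 3 * i2) ≤ (i + 2 * k + 3 * l + 3) := by clear * - z45 ev n1p n2p; omega
          clear * - al a1 a2 s1 s2 b t1 t2 c n1 n2 mx hL ev n1p n2p k266 k267 k268 k269 k270 k271 k272 k273 k274
          exact (n2.f3 (ab s1 al 0 (i + l + 1) (k + l - n + 1) (by omega))) (cE (pb c al 0 (i2) (n + 2 * i2 - k - l - 1) (by omega)) (pb c al 0 (n + 2 * i2 - k - l - 1) (i + l + 1) (by omega)))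
        · by_cases z47 : (j + 3 * k + 3 * l + 4) ≤ (3 * n + i + 3 * i2)
          · have k275 : (3 * k + 3 * l + 5) ≤ (3 * n + i + j + i2) := by clear * - b3 b6 z46 z47; omega
            have k276 : (k + l + i2 + 3) ≤ (n + i + j) := by clear * - b3 b6 z46 z47; omega
            have k277 : (n + 3 * i2 + 1) ≤ (i + j + k + l) := by clear * - b3 z46 ev n1p n2p; omega
            have k278 : (3 * n + i + j + 3 * i2) ≤ (2 * Q + 3 * k + 3 * l + 1) := by clear * - b0 b5 b6 z43; omega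
            have k279 : (3 * n + i + j + 3 * i2) ≤ (2 * Q + 3 * k + 3 * l + 2) := by clear * - b0 b5 b6 z43; omega
            have k280 : (n + i + j + i2) ≤ (2 * Q + k + l) := by clear * - b0 b5 b6 z43 z47; omega
            have k281 : (i + j + k + l + 2) ≤ (n + 2 * Q + i2) := by clear * - b0 b5 b6 z43 z47; omega
            have k282 : (j + 3 * k + 3 * l + 4) ≤ (3 * n + i + 3 * i2) := by clear * - z47; omega
            clear * - al a1 a2 s1 s2 b t1 t2 c n1 n2 mx hL ev n1p n2p k275 k276 k277 k278 k279 k280 k281 k282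
            obtain ⟨t, ht⟩ : ∃ t, 2 * t = (5 * n + i + j + 3 * i2 - 3 * k - 3 * l - 3) := ⟨(5 * n + i + j + 3 * i2 - 3 * k - 3 * l - 3) / 2, by omega⟩
            exact al.ninv t (cE (cI (cE (cE (qf c al 1 t (t + (k + l - 2 * n - i2 + 1)) (by omega)) (qf c al 0 (t + (k + l - 2 * n - i2 + 1)) (t + (2 * k + 2 * l - 3 * n - 2 * i2 + 2)) (by omega))) (qf c al 0 (t + (2 * k + 2 * l - 3 * n - 2 * i2 + 2)) (t + (3 * k + 3 * l - 4 * n - 3 * i2 + 3)) (by omega))) (ab s2 al 0 (t + (3 * k + 3 * l - 4 * n - 3 * i2 + 3)) ((4 * n + i + j + 3 * i2 - 3 * k - 3 * l - 3) - t) (by omega))) (sh al 1 ((4 * n + i + j + 3 * i2 - 3 * k - 3 * l - 3) - t) t (by omega)))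
          · by_cases z48 : (i + 3 * k + 4 * l + 6) ≤ (3 * n + 4 * i2)
            · have k283 : (3 * k + 2 * l + 4) ≤ (3 * n + i + 2 * i2) := by clear * - z46 z48; omega
              have k284 : (i + 3 * k + 4 * l + 6) ≤ (3 * n + 4 * i2) := by clear * - z48; omega
              have k285 : (i + k + 2 * l + 4) ≤ (n + 2 * Q) := by clear * - b0 b5 z46 z47 z48; omega
              have k286 : (n + i + 2 * i2 + 2) ≤ (2 * Q + k) := by clear * - b0 b5 z46 z47 z48; omega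
              have k287 : (3 * n + i + 4 * i2) ≤ (2 * Q + 3 * k + 2 * l + 1) := by clear * - b0 b5 z47; omega
              have k288 : (3 * n + 2 * i2) ≤ (i + 3 * k + 4 * l + 5) := by clear * - y6 z46 z48; omega
              have k289 : (n + 2 * i2) ≤ (i + k + 2 * l + 1) := by clear * - z46 z48; omega
              have k290 : (k + 1) ≤ (n + i) := by clear * - z46 z48; omega
              clear * - al a1 a2 s1 s2 b t1 t2 c n1 n2 mx hL ev n1p n2p k283 k284 k285 k286 k287 k288 k289 k290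
              obtain ⟨t, ht⟩ : ∃ t, 2 * t = (n + i + 2 * i2 - k) := ⟨(n + i + 2 * i2 - k) / 2, by omega⟩
              exact al.ninv t (cE (cE (cI (pb c al 0 t (t + (n + i2 - k - l - 1)) (by omega)) (ab t1 al 0 (t + (n + i2 - k - l - 1)) ((i + k + 2 * l - n + 2) - t) (by omega))) (pb c al 0 ((i + k + 2 * l - n + 2) - t) ((i + l + i2 + 1) - t) (by omega))) (pb c al 0 ((i + l + i2 + 1) - t) t (by omega)))
            · by_cases z49 : (i + 3 * k + 4 * l + 4) ≤ (3 * n + 4 * i2)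
              · have k291 : (j) ≤ (i + l) := by clear * - b0 b5 z43 z44; omega
                have k292 : (l + 1) ≤ (j) := by clear * - b3 y6; omega
                have k293 : (k + 2 * l + 2) ≤ (n + j) := by clear * - b3; omega
                have k294 : (n + j) ≤ (k + 2 * l + 2) := by clear * - z43; omega
                have k295 : (k + l + 2) ≤ (n + i2) := by clear * - z46 z49; omega
                have k296 : (n + 2 * i2) ≤ (Q + k + l) := by clear * - b0 b5 z46 z47 z49; omega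
                have k297 : (2 * n + 3 * i2) ≤ (Q + 2 * k + 2 * l + 1) := by clear * - b0 b5 z46 z47 z49; omega
                have k298 : (3 * n + 4 * i2) ≤ (Q + 3 * k + 3 * l + 2) := by clear * - b0 b5 z47 z48; omega
                have k299 : (i + 3 * k + 4 * l + 4) ≤ (3 * n + 4 * i2) := by clear * - z49; omega
                have k300 : (3 * n + 4 * i2) ≤ (i + 3 * k + 4 * l + 4) := by clear * - z48 ev n1p n2p; omega
                clear * - al a1 a2 s1 s2 b t1 t2 c n1 n2 mx hL ev n1p n2p k291 k292 k293 k294 k295 k296 k297 k298 k299 k300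
                exact (n2.f3 (ab s1 al 0 (i + l + 1) (k + l - n + 1) (by omega))) (cE (cE (pb c al 0 (i2) (n + 2 * i2 - k - l - 1) (by omega)) (pb c al 0 (n + 2 * i2 - k - l - 1) (2 * n + 3 * i2 - 2 * k - 2 * l - 2) (by omega))) (pb c al 0 (2 * n + 3 * i2 - 2 * k - 2 * l - 2) (i + l + 1) (by omega)))
              · have k301 : (i2) ≤ (k + l) := by clear * - b0 b3 b4 b5 z44 z49; omega
                have k302 : (k + l + 2) ≤ (n + i2) := by clear * - b0 b3 b4 b5 z44; omega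
                have k303 : (j + 2) ≤ (Q) := by clear * - b0 b4 b5 z44; omega
                have k304 : (i2) ≤ (j) := by clear * - b0 b3 b4 b5 z44 z49; omega
                obtain ⟨d1, p1, x1⟩ : ∃ d1, ((Q - n) + (i + j - n - Q + 1) ≤ d1 ∧ d1 + 1 < (i2 - n + 1) + n + (i - n) ∧ (i2 - n + 1) + (k + l - i2 + 1) + (i - n) ≤ d1 + 1 ∧ d1 < (Q - n) + (k + l - i2 + 1) + (i + j - n - Q + 1) ∧ d1 % 2 = 0) ∧ Ant W (i + j - n - Q + 1) (i - n) d1 := by
                  clear * - al a1 a2 s1 s2 b t1 t2 c n1 n2 mx hL ev n1p n2p k301 k302 k303 k304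
                  exact pushA al (k + l - i2 + 1) (i2 - n + 1) (Q - n) (i2 - n) (i + j - 2 * n) (i + j - n - Q + 1) (i - n) (by omega) (fun t h1 h2 => (qf c al (-1) t (t + (k + l - i2 + 1)) (by omega))) (fun h => n2.f1 (rEE (sh al (-1) (i2) (i2 - n) (by omega)) (sh al 0 (k + l - n + 1) (k + l - n + 1) (by omega)) (cE h (sh al 0 ((i2 - n) + (k + l - i2 + 1)) (k + l - n + 1) (by omega))))) (fun t h1 h2 => (cE (ab s2 al (-1) t ((i + j - n) - t) (by omega)) (sh al (-1) ((i + j - n) - t) ((i + j - 2 * n) - t) (by omega))))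
                exact l1_100L_23 al mx hL hy a1 a2 s1 s2 b t1 t2 c n1 n2 d1 (by clear * - p1; omega) x1 (by clear * - b0; omega) (by clear * - b1; omega) (by clear * - b3; omega) (by clear * - b4; omega) (by clear * - b5; omega) (by clear * - z43; omega) (by clear * - z44; omega) (by clear * - z49; omega) (by clear * - p1; omega) (by clear * - p1; omega)
  · have k323 : (k + l + 2) ≤ (n + i2) := by clear * - b0 b2 b4 b5 z43; omega
    have k324 : (n) ≤ (j + k) := by clear * - y6 z43; omega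
    have k325 : (k) ≤ (n + 2 * i + j) := by clear * - b0 b2 b4 b5 b6 y7 z43; omega
    have k326 : (n + 2 * i2) ≤ (2 * Q + j + k) := by clear * - b0 b2 b4 b5 b6 y7 z43; omega
    have k327 : (k + 2 * l + 4) ≤ (n + j) := by clear * - z43 ev n1p n2p; omega
    have k328 : (3 * k + 2 * l + 4) ≤ (3 * n + 2 * i + j) := by clear * - b0 b2 b4 b5 b6 z43; omega
    have k329 : (k + 2 * l + 2 * i2 + 4) ≤ (n + 2 * Q + j) := by clear * - b0 b2 b4 b5 b6 z43; omega
    have k330 : (n + 2 * i + j + 2) ≤ (2 * Q + k) := by clear * - b0 b4 b5; omega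
    have k331 : (j + k + 2) ≤ (n + 2 * Q) := by clear * - b0 b2 b4 b5 b6 z43; omega
    have k332 : (n + 2 * i + j + 2 * i2 + 2) ≤ (4 * Q + k) := by clear * - b0 b2 b4 b5 b6 z43; omega
    have k333 : (j) ≤ (2 * i + l + i2 + 1) := by clear * - b0 b2 b4 b5 y6 z43; omega
    have k334 : (j + 2 * k + l + 3) ≤ (2 * n + 2 * i + i2) := by clear * - b0 b2 b4 b5 z43; omega
    have k335 : (j + l + i2 + 3) ≤ (2 * Q) := by clear * - b0 b5; omega
    have k336 : (2 * k + l + 1) ≤ (2 * n + 2 * i + j + i2) := by clear * - b0 b2 b4 b5 b6 y7 z43; omega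
    have k337 : (4 * k + 3 * l + 5) ≤ (4 * n + 2 * i + j + i2) := by clear * - b0 b2 b4 b5 b6 z43; omega
    have k338 : (2 * k + 3 * l + i2 + 5) ≤ (2 * n + 2 * Q + j) := by clear * - b0 b2 b4 b5 b6 z43; omega
    have k339 : (j) ≤ (2 * Q + l + i2 + 1) := by clear * - b0 b2 b4 b5 b6 y7 z43; omega
    have k340 : (j + 2 * k + l + 3) ≤ (2 * n + 2 * Q + i2) := by clear * - b0 b2 b4 b5 b6 z43; omega
    have k341 : (2 * i + j + l + i2 + 3) ≤ (4 * Q) := by clear * - b0 b2 b4 b5 b6 z43; omega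
    clear * - al a1 a2 s1 s2 b t1 t2 c n1 n2 mx hL ev n1p n2p k323 k324 k325 k326 k327 k328 k329 k330 k331 k332 k333 k334 k335 k336 k337 k338 k339 k340 k341
    exact mid2 al (n + i2 - k - l - 1) (i + l + i2 + 1) (i + j) (max (k + l - n + 2) (max (i + l + i2 - Q + 2) (0))) (min (n + i + i2 - k) (min (Q) (i2))) (-1) (k + l - n + 2) (Q) (by omega) (fun t h1 h2 => ⟨by omega, (qa t1 al 0 t ((i + l + i2 + 1) - t) (by omega))⟩) (fun t h1 h2 => ⟨by omega, (qa s1 al 0 t ((i + j) - t) (by omega))⟩) (fun t h1 h2 => (pb c al 0 t (t + (n + i2 - k - l - 1)) (by omega)))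

theorem l1_100L_21 {W : ℤ → G} {n Q i j k l i2 : ℤ} (al : AL W n Q)
    {L : ℤ} (mx : ∀ a b g, 0 < g → g < n → Par W a b g → b - a ≤ L) (hL : L ≤ (n - j - 3) ∧ L ≤ (n + Q - k - 3) ∧ L ≤ (n - l - 3) ∧ L ≤ (k - j - 2))
    (hy : (0) ≤ (i) ∧ (i) ≤ (j) ∧ (j + 1) ≤ (Q) ∧ (Q) ≤ (k) ∧ (k + 1) ≤ (n) ∧ (i + l + 2) ≤ (Q) ∧ (n) ≤ (k + l + 1) ∧ (0) ≤ (i2) ∧ (i2) ≤ (i + l + 1))
    (a1 : Par W (0) (j) (k - j))
    (a2 : Par W (Q + j - k) (j) (k - j))
    (s1 : Ant W (0) (i) (i + j))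
    (s2 : Ant W (j + 1) (Q) (i + j))
    (b : Par W (i + 1) (i + l + 1) (k - i))
    (t1 : Ant W (0) (i2) (i + l + i2 + 1))
    (t2 : Ant W (i + l + 2) (Q) (i + l + i2 + 1))
    (c : Par W (i2 + 1) (Q) (k + l - n - i2 + 1))
    (n1 : Nd W (j) (i) (k))
    (n2 : Nd W (i + l + 1) (i2) (k + l - n + 1))
    (b0 : (2 * k + 3) ≤ (n + 2 * Q))
    (b1 : (i + j + l + i2 + 2) ≤ (k))
    (b2 : (2 * Q + k) ≤ (n + 2 * i + l + i2 + 2))
    (b3 : (k + 2 * l + 2) ≤ (n + j))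
    (b4 : (n + 2 * i) ≤ (k + l + i2 + 2))
    (b5 : (n + j + l + i2 + 1) ≤ (2 * k))
    (b6 : (2 * i2 + 2) ≤ (i + j)) : False := by
  have ev := al.ev
  obtain ⟨y0, y1, y2, y3, y4, y5, y6, y7, y8⟩ := id hy
  have n1p := And.intro n1.p1 n1.p2
  have n2p := And.intro n2.p1 n2.p2
  by_cases z41 : (j + 2 * k + 2 * l + 3) ≤ (2 * n + i + 2 * i2)
  · by_cases z42 : (2 * n + i + j + 2 * i2) ≤ (2 * Q + 2 * k + 2 * l + 1)
    · have k238 : (2 * k + 2 * l + 4) ≤ (2 * n + i + j) := by clear * - b4 b6 z41; omega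
      have k239 : (2 * i2 + 2) ≤ (i + j) := by clear * - b6; omega
      have k240 : (2 * n + 2 * i2) ≤ (i + j + 2 * k + 2 * l + 2) := by clear * - b6 y6; omega
      have k241 : (2 * n + i + j + 2 * i2) ≤ (2 * Q + 2 * k + 2 * l + 1) := by clear * - z42; omega
      have k242 : (i + j + 1) ≤ (2 * Q) := by clear * - b4 b6 z41 z42; omega
      have k243 : (j + 2 * k + 2 * l + 3) ≤ (2 * n + i + 2 * i2) := by clear * - z41; omega
      clear * - al a1 a2 s1 s2 b t1 t2 c n1 n2 mx hL ev n1p n2p k238 k239 k240 k241 k242 k243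
      obtain ⟨t, ht⟩ : ∃ t, 2 * t = (2 * n + i + j + 2 * i2 - 2 * k - 2 * l - 2) := ⟨(2 * n + i + j + 2 * i2 - 2 * k - 2 * l - 2) / 2, by omega⟩
      exact al.ninv t (cI (cE (qf c al 0 t (t + (k + l - n - i2 + 1)) (by omega)) (qf c al 0 (t + (k + l - n - i2 + 1)) (t + (2 * k + 2 * l - 2 * n - 2 * i2 + 2)) (by omega))) (qa s1 al 0 (t + (2 * k + 2 * l - 2 * n - 2 * i2 + 2)) t (by omega)))
    · have k244 : (k + 2) ≤ (n + i) := by clear * - b0 b2 b4 b5 b6 z42; omega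
      have k245 : (n) ≤ (i + k + 2 * l + 2) := by clear * - b0 b2 b4 b5 b6 y6 z42; omega
      have k246 : (n + i + 2 * i2 + 1) ≤ (2 * Q + k) := by clear * - b0 b4 b5 b6; omega
      have k247 : (i + k + 2 * l + 3) ≤ (n + 2 * i2) := by clear * - b0 b4 b5 z42; omega
      clear * - al a1 a2 s1 s2 b t1 t2 c n1 n2 mx hL ev n1p n2p k244 k245 k246 k247
      obtain ⟨t, ht⟩ : ∃ t, 2 * t = (i + 2 * i2 - n - k) := ⟨(i + 2 * i2 - n - k) / 2, by omega⟩
      exact al.ninv t (cE (cI (qf c al (-1) t (t + (k + l - i2 + 1)) (by omega)) (qa t1 al 0 (t + (k + l - i2 + 1)) ((i + 2 * i2 - k) - t) (by omega))) (sh al (-1) ((i + 2 * i2 - k) - t) t (by omega)))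
  · exact l1_100L_22 al mx hL hy a1 a2 s1 s2 b t1 t2 c n1 n2 (by clear * - b0; omega) (by clear * - b1; omega) (by clear * - b2; omega) (by clear * - b3; omega) (by clear * - b4; omega) (by clear * - b5; omega) (by clear * - z41; omega)

theorem l1_100L_20 {W : ℤ → G} {n Q i j k l i2 : ℤ} (al : AL W n Q)
    {L : ℤ} (mx : ∀ a b g, 0 < g → g < n → Par W a b g → b - a ≤ L) (hL : L ≤ (n - j - 3) ∧ L ≤ (n + Q - k - 3) ∧ L ≤ (n - l - 3) ∧ L ≤ (k - j - 2))
    (hy : (0) ≤ (i) ∧ (i) ≤ (j) ∧ (j + 1) ≤ (Q) ∧ (Q) ≤ (k) ∧ (k + 1) ≤ (n) ∧ (i + l + 2) ≤ (Q) ∧ (n) ≤ (k + l + 1) ∧ (0) ≤ (i2) ∧ (i2) ≤ (i + l + 1))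
    (a1 : Par W (0) (j) (k - j))
    (a2 : Par W (Q + j - k) (j) (k - j))
    (s1 : Ant W (0) (i) (i + j))
    (s2 : Ant W (j + 1) (Q) (i + j))
    (b : Par W (i + 1) (i + l + 1) (k - i))
    (t1 : Ant W (0) (i2) (i + l + i2 + 1))
    (t2 : Ant W (i + l + 2) (Q) (i + l + i2 + 1))
    (c : Par W (i2 + 1) (Q) (k + l - n - i2 + 1))
    (n1 : Nd W (j) (i) (k))
    (n2 : Nd W (i + l + 1) (i2) (k + l - n + 1))
    (b0 : (2 * k + 3) ≤ (n + 2 * Q))
    (b1 : (i + j + l + i2 + 2) ≤ (k))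
    (b2 : (2 * Q + k) ≤ (n + 2 * i + l + i2 + 2))
    (b3 : (n + i + i2) ≤ (j + k + l + 1))
    (b4 : (k + 2 * l + 2) ≤ (n + j))
    (b5 : (n + 2 * i) ≤ (k + l + i2 + 2))
    (b6 : (n + j + l + i2 + 1) ≤ (2 * k)) : False := by
  have ev := al.ev
  obtain ⟨y0, y1, y2, y3, y4, y5, y6, y7, y8⟩ := id hy
  have n1p := And.intro n1.p1 n1.p2
  have n2p := And.intro n2.p1 n2.p2
  by_cases z40 : (2 * i2 + 2) ≤ (i + j)
  · exact l1_100L_21 al mx hL hy a1 a2 s1 s2 b t1 t2 c n1 n2 (by clear * - b0; omega) (by clear * - b1; omega) (by clear * - b2; omega) (by clear * - b4; omega) (by clear * - b5; omega) (by clear * - b6; omega) (by clear * - z40; omega)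
  · by_cases z53 : (i + k + 2 * l + 3) ≤ (n + 2 * i2)
    · have k342 : (k + 2) ≤ (n + i) := by clear * - b0 b2 b3 b6 z53; omega
      have k343 : (n) ≤ (i + k + 2 * l + 2) := by clear * - b0 b2 b3 b6 y6 z53; omega
      have k344 : (n + i + 2 * i2 + 1) ≤ (2 * Q + k) := by clear * - b0 b3 b6; omega
      have k345 : (i + k + 2 * l + 3) ≤ (n + 2 * i2) := by clear * - z53; omega
      clear * - al a1 a2 s1 s2 b t1 t2 c n1 n2 mx hL ev n1p n2p k342 k343 k344 k345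
      obtain ⟨t, ht⟩ : ∃ t, 2 * t = (i + 2 * i2 - n - k) := ⟨(i + 2 * i2 - n - k) / 2, by omega⟩
      exact al.ninv t (cE (cI (qf c al (-1) t (t + (k + l - i2 + 1)) (by omega)) (qa t1 al 0 (t + (k + l - i2 + 1)) ((i + 2 * i2 - k) - t) (by omega))) (sh al (-1) ((i + 2 * i2 - k) - t) t (by omega)))
    · have k346 : (j) ≤ (i + l) := by clear * - b0 b2 b6 z40 z53; omega
      have k347 : (l + 1) ≤ (j) := by clear * - b4 y6; omega
      have k348 : (k + 2 * l + 2) ≤ (n + j) := by clear * - b4; omega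
      have k349 : (n + j) ≤ (k + 2 * l + 2) := by clear * - z40 z53 ev n1p n2p; omega
      have k350 : (k + l + 2) ≤ (n + i2) := by clear * - b0 b2 b4 b5 b6; omega
      have k351 : (n + 2 * i2) ≤ (Q + k + l) := by clear * - b0 b4 b5 b6 z53; omega
      have k352 : (i + k + 2 * l + 2) ≤ (n + 2 * i2) := by clear * - b4 z40 ev n1p n2p; omega
      have k353 : (n + 2 * i2) ≤ (i + k + 2 * l + 2) := by clear * - z53; omega
      clear * - al a1 a2 s1 s2 b t1 t2 c n1 n2 mx hL ev n1p n2p k346 k347 k348 k349 k350 k351 k352 k353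
      exact (n2.f3 (ab s1 al 0 (i + l + 1) (k + l - n + 1) (by omega))) (pb c al 0 (i2) (i + l + 1) (by omega))

theorem l1_100L_19 {W : ℤ → G} {n Q i j k l i2 : ℤ} (al : AL W n Q)
    {L : ℤ} (mx : ∀ a b g, 0 < g → g < n → Par W a b g → b - a ≤ L) (hL : L ≤ (n - j - 3) ∧ L ≤ (n + Q - k - 3) ∧ L ≤ (n - l - 3) ∧ L ≤ (k - j - 2))
    (hy : (0) ≤ (i) ∧ (i) ≤ (j) ∧ (j + 1) ≤ (Q) ∧ (Q) ≤ (k) ∧ (k + 1) ≤ (n) ∧ (i + l + 2) ≤ (Q) ∧ (n) ≤ (k + l + 1) ∧ (0) ≤ (i2) ∧ (i2) ≤ (i + l + 1))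
    (a1 : Par W (0) (j) (k - j))
    (a2 : Par W (Q + j - k) (j) (k - j))
    (s1 : Ant W (0) (i) (i + j))
    (s2 : Ant W (j + 1) (Q) (i + j))
    (b : Par W (i + 1) (i + l + 1) (k - i))
    (t1 : Ant W (0) (i2) (i + l + i2 + 1))
    (t2 : Ant W (i + l + 2) (Q) (i + l + i2 + 1))
    (c : Par W (i2 + 1) (Q) (k + l - n - i2 + 1))
    (n1 : Nd W (j) (i) (k))
    (n2 : Nd W (i + l + 1) (i2) (k + l - n + 1))
    (b0 : (2 * k + 3) ≤ (n + 2 * Q))
    (b1 : (i + j + l + i2 + 2) ≤ (k))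
    (b2 : (2 * Q + k) ≤ (n + 2 * i + l + i2 + 2))
    (b3 : (n + i + i2) ≤ (j + k + l + 1))
    (b4 : (k + 2 * l + 2) ≤ (n + j))
    (b5 : (n + Q + j) ≤ (2 * k))
    (b6 : (n + 2 * i) ≤ (k + l + i2 + 2)) : False := by
  have ev := al.ev
  obtain ⟨y0, y1, y2, y3, y4, y5, y6, y7, y8⟩ := id hy
  have n1p := And.intro n1.p1 n1.p2
  have n2p := And.intro n2.p1 n2.p2
  by_cases z39 : (2 * k) ≤ (n + j + l + i2)
  · have k232 : (n + 2 * i + j + l + 3) ≤ (2 * k + i2) := by clear * - b0 b4 b5 b6; omega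
    have k233 : (n + j + i2 + 1) ≤ (2 * k + l) := by clear * - b0 b2 b3 b4 b5; omega
    have k234 : (l + i2 + 3) ≤ (n + j) := by clear * - b0 b2 b3 b4 b5 z39; omega
    have k235 : (2 * k) ≤ (n + 2 * i + j + l + i2 + 2) := by clear * - b0 b2 b4 y6; omega
    have k236 : (2 * k) ≤ (n + j + l + i2) := by clear * - z39; omega
    have k237 : (n + 2 * Q + j) ≤ (2 * k + l + i2 + 2) := by clear * - b5 z39; omega
    clear * - al a1 a2 s1 s2 b t1 t2 c n1 n2 mx hL ev n1p n2p k232 k233 k234 k235 k236 k237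
    obtain ⟨t, ht⟩ : ∃ t, 2 * t = (2 * k + l + i2 - n - j + 1) := ⟨(2 * k + l + i2 - n - j + 1) / 2, by omega⟩
    exact al.ninv t (cE (cE (ab t1 al 0 t ((i + l + i2 + 1) - t) (by omega)) (qf b al 0 ((i + l + i2 + 1) - t) ((k + l + i2 + 1) - t) (by omega))) (qf a2 al 1 ((k + l + i2 + 1) - t) t (by omega)))
  · exact l1_100L_20 al mx hL hy a1 a2 s1 s2 b t1 t2 c n1 n2 (by clear * - b0; omega) (by clear * - b1; omega) (by clear * - b2; omega) (by clear * - b3; omega) (by clear * - b4; omega) (by clear * - b6; omega) (by clear * - z39; omega)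

theorem l1_000 {W : ℤ → G} {n Q i j k l i2 : ℤ} (al : AL W n Q)
    (hy : (0) ≤ (i) ∧ (i) ≤ (j) ∧ (j + 1) ≤ (Q) ∧ (Q) ≤ (k) ∧ (k + 1) ≤ (n) ∧ (Q) ≤ (i + l + 1) ∧ (k + l + 2) ≤ (n) ∧ (Q) ≤ (i2) ∧ (i2) ≤ (i + l + 1))
    (a1 : Par W (0) (j) (k - j))
    (a2 : Par W (Q + j - k) (j) (k - j))
    (s1 : Ant W (0) (i) (i + j))
    (s2 : Ant W (j + 1) (Q) (i + j))
    (b : Par W (i + 1) (i + l + 1) (k - i))
    (t1 : Ant W (Q) (i2) (i + l + i2 + 1))
    (t2 : Ant W (i + l + 2) (n) (i + l + i2 + 1))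
    (c : Par W (i2 + 1) (n) (k + l - i2 + 1))
    (n1 : Nd W (j) (i) (k))
    (n2 : Nd W (i + l + 1) (i2) (k + l + 1)) : False := by
  have ev := al.ev
  obtain ⟨y0, y1, y2, y3, y4, y5, y6, y7, y8⟩ := id hy
  have n1p := And.intro n1.p1 n1.p2
  have n2p := And.intro n2.p1 n2.p2
  have k1 : (i2) ≤ (k + l) := by clear * - y1 y2 y3 y8; omega
  have k2 : (k + l + 2) ≤ (n + i2) := by clear * - y0 y1 y2 y6 y7; omega
  have k3 : (k + l + 2) ≤ (n) := by clear * - y6; omega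
  clear * - al a1 a2 s1 s2 b t1 t2 c n1 n2 ev n1p n2p k1 k2 k3
  exact al.ubP (k + l - i2 + 1) (by omega) (by omega) fun t h1 h2 => (cE (sh al 2 t (t + (2 * n)) (by omega)) (cE (qf c al 1 (t + (2 * n)) (t + (n + k + l - i2 + 1)) (by omega)) (sh al (-1) (t + (n + k + l - i2 + 1)) (t + (k + l - i2 + 1)) (by omega))))

theorem l1_001 {W : ℤ → G} {n Q i j k l i2 : ℤ} (al : AL W n Q)
    (hy : (0) ≤ (i) ∧ (i) ≤ (j) ∧ (j + 1) ≤ (Q) ∧ (Q) ≤ (k) ∧ (k + 1) ≤ (n) ∧ (Q) ≤ (i + l + 1) ∧ (k + l + 2) ≤ (n) ∧ (Q) ≤ (i2) ∧ (i2) ≤ (i + l + 1))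
    (a1 : Par W (0) (j) (k - j))
    (a2 : Par W (Q + j - k) (j) (k - j))
    (s1 : Ant W (0) (i) (i + j))
    (s2 : Ant W (j + 1) (Q) (i + j))
    (b : Par W (i + 1) (i + l + 1) (k - i))
    (t1 : Ant W (Q) (i2) (i + l + i2 + 1))
    (t2 : Ant W (i + l + 2) (n) (i + l + i2 + 1))
    (c : Par W (k + l + 2) (n) (i2 - k - l - 1))
    (n1 : Nd W (j) (i) (k))
    (n2 : Nd W (i + l + 1) (i2) (k + l + 1)) : False := by
  have ev := al.ev
  obtain ⟨y0, y1, y2, y3, y4, y5, y6, y7, y8⟩ := id hy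
  have n1p := And.intro n1.p1 n1.p2
  have n2p := And.intro n2.p1 n2.p2
  by_cases z1 : (i + k + 2) ≤ (2 * i2)
  · have k1 : (i + 1) ≤ (k) := by clear * - y1 y2 y3; omega
    have k2 : (i + k + 2 * l + 4) ≤ (2 * n) := by clear * - y1 y2 y3 y6; omega
    have k3 : (i + k + 2) ≤ (2 * n) := by clear * - y1 y2 y3 y6 y8 z1; omega
    have k4 : (i + 2 * i2 + 2) ≤ (2 * n + k) := by clear * - y1 y2 y3 y6 y8; omega
    have k5 : (i + k + 2) ≤ (2 * i2) := by clear * - z1; omega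
    have k6 : (i + k) ≤ (2 * l + 2 * i2) := by clear * - y1 y2 y7 y8 z1; omega
    have k7 : (i) ≤ (k + 2 * l) := by clear * - y1 y2 y3 y8 z1; omega
    have k8 : (i + 2) ≤ (k) := by clear * - y1 y2 y3 ev n1p n2p; omega
    have k9 : (i + 2 * i2) ≤ (3 * k + 2 * l) := by clear * - y1 y2 y3 y8; omega
    clear * - al a1 a2 s1 s2 b t1 t2 c n1 n2 ev n1p n2p k1 k2 k3 k4 k5 k6 k7 k8 k9
    exact midP al (k - i) (i + l + i2 - 2 * n + 1) (max (i + i2 - n - k + 1) (max (i - n + 1) (i + l + i2 - 2 * n + 2))) (i - n + 1) (k + l - n + 1) (by omega) (fun t h1 h2 => (cE (ab t2 al (-1) t ((i + l + i2 - n + 1) - t) (by omega)) (sh al (-1) ((i + l + i2 - n + 1) - t) ((i + l + i2 - 2 * n + 1) - t) (by omega)))) (fun t h1 h2 => (cE (qf b al (-1) t (t + (n + k - i)) (by omega)) (sh al (-1) (t + (n + k - i)) (t + (k - i)) (by omega))))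
  · by_cases z2 : (i + l + i2 + 2) ≤ (n)
    · have k10 : (i + l + i2 + 2) ≤ (n) := by clear * - z2; omega
      have k11 : (Q) ≤ (i2) := by clear * - y7; omega
      clear * - al a1 a2 s1 s2 b t1 t2 c n1 n2 ev n1p n2p k10 k11
      exact al.auU (i + l + i2 + 1) fun t h1 h2 => (ab t2 al 0 t ((i + l + i2 + 1) - t) (by omega))
    · have k12 : (k) ≤ (i + 2 * j) := by clear * - y1 y6 z1 z2; omega
      have k13 : (i + 2) ≤ (k) := by clear * - y1 y2 y7 z1 ev n1p n2p; omega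
      have k14 : (2 * j + 1) ≤ (i + k) := by clear * - y2 y7 z1; omega
      have k15 : (k) ≤ (i + 2 * j + 1) := by clear * - y1 y6 z1 z2; omega
      clear * - al a1 a2 s1 s2 b t1 t2 c n1 n2 ev n1p n2p k12 k13 k14 k15
      obtain ⟨t, ht⟩ : ∃ t, 2 * t = (2 * n + i + 2 * j - k) := ⟨(2 * n + i + 2 * j - k) / 2, by omega⟩
      exact al.ninv t (cE (cE (qa s1 al 1 t ((n + i + j) - t) (by omega)) (pb a1 al 0 ((n + i + j) - t) ((n + i + 2 * j - k) - t) (by omega))) (sh al 1 ((n + i + 2 * j - k) - t) t (by omega)))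

end Pool.Agent.MP_a38735_al.WL
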