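import Pool.Agent.MP_a38735_al.Q1m0

set_option autoImplicit false
set_option linter.unusedVariables false

namespace Pool.Agent.MP_a38735_al.WL

variable {G : Type*} [Group G]

theorem l1_100L_18 {W : ℤ → G} {n Q i j k l i2 : ℤ} (al : AL W n Q)
    {L : ℤ} (mx : ∀ a b g, 0 < g → g < n → Par W a b g → b - a ≤ L) (hL : L ≤ (n - j - 3) ∧ L ≤ (n + Q - k - 3) ∧ L ≤ (n - l - 3) ∧ L ≤ (k - j - 2))
    (hy : (0) ≤ (i) ∧ (i) ≤ (j) ∧ (j + 1) ≤ (Q) ∧ (Q) ≤ (k) ∧ (k + 1) ≤ (n) ∧ (i + l + 2) ≤ (Q) ∧ (n) ≤ (k + l + 1) ∧ (0) ≤ (i2) ∧ (i2) ≤ (i + l + 1))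
    (a1 : Par W (0) (j) (k - j))
    (a2 : Par W (Q + j - k) (j) (k - j))
    (s1 : Ant W (0) (i) (i + j))
    (s2 : Ant W (j + 1) (Q) (i + j))
    (b : Par W (i + 1) (i + l + 1) (k - i))
    (t1 : Ant W (0) (i2) (i + l + i2 + 1))
    (t2 : Ant W (i + l + 2) (Q) (i + l + i2 + 1))
    (c : Par W (i2 + 1) (Q) (k + l - n - i2 + 1))
    (n1 : Nd W (j) (i) (k))
    (n2 : Nd W (i + l + 1) (i2) (k + l - n + 1))
    (b0 : (2 * k + 3) ≤ (n + 2 * Q))
    (b1 : (i + 2 * j + 2) ≤ (k))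
    (b2 : (i + j + l + i2 + 2) ≤ (k))
    (b3 : (2 * Q + k) ≤ (n + 2 * i + l + i2 + 2))
    (b4 : (n + i + i2) ≤ (j + k + l + 1))
    (b5 : (n + Q + j) ≤ (2 * k))
    (b6 : (k + l + i2 + 3) ≤ (n + 2 * i))
    (b7 : (2 * Q + k + l) ≤ (n + 2 * j + i2)) : False := by
  have ev := al.ev
  obtain ⟨y0, y1, y2, y3, y4, y5, y6, y7, y8⟩ := id hy
  have n1p := And.intro n1.p1 n1.p2
  have n2p := And.intro n2.p1 n2.p2
  by_cases z28 : (i + k + 2 * l + 3) ≤ (n + 2 * i2)
  · by_cases z29 : (n + i + 2 * i2 + 1) ≤ (2 * Q + k)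
    · have k120 : (n) ≤ (i + k + 2 * l + 2) := by clear * - b3 y6 z28 z29; omega
      have k121 : (n + i + 2 * i2 + 2) ≤ (2 * Q + k) := by clear * - z29 ev n1p n2p; omega
      have k122 : (i + k + 2 * l + 3) ≤ (n + 2 * i2) := by clear * - z28; omega
      have k123 : (k + 1) ≤ (n + i) := by clear * - b3 z28 z29; omega
      clear * - al a1 a2 s1 s2 b t1 t2 c n1 n2 mx hL ev n1p n2p k120 k121 k122 k123
      obtain ⟨t, ht⟩ : ∃ t, 2 * t = (i + k + 2 * l - n + 2) := ⟨(i + k + 2 * l - n + 2) / 2, by omega⟩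
      exact al.ninv t (cE (qa t1 al 0 t ((i + l + i2 + 1) - t) (by omega)) (qf c al 0 ((i + l + i2 + 1) - t) t (by omega)))
    · have k124 : (2 * k + 1) ≤ (n + j + l + i2) := by clear * - b0 b4 z29; omega
      have k125 : (2 * k) ≤ (n + 2 * i + j + l + i2 + 1) := by clear * - b0 b4 b5 b6 y6 z28 z29; omega
      have k126 : (l + i2 + 3) ≤ (n + j) := by clear * - b0 b4 b5 b6 z28 z29; omega
      have k127 : (n + j + i2) ≤ (2 * k + l) := by clear * - b0 b4 b5 b6 z28 z29; omega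
      have k128 : (n + 2 * i + j + l + 2) ≤ (2 * k + i2) := by clear * - b0 b4 b5 z28; omega
      have k129 : (n + 2 * Q + j) ≤ (2 * k + l + i2 + 2) := by clear * - b0 b4 b5 z29; omega
      clear * - al a1 a2 s1 s2 b t1 t2 c n1 n2 mx hL ev n1p n2p k124 k125 k126 k127 k128 k129
      obtain ⟨t, ht⟩ : ∃ t, 2 * t = (3 * n + j + l + i2 + 1) := ⟨(3 * n + j + l + i2 + 1) / 2, by omega⟩
      exact al.ninv t (cE (cE (cI (pb b al 1 t (t + (i - n - k)) (by omega)) (qa t1 al 0 (t + (i - n - k)) ((n + k + l + i2 + 1) - t) (by omega))) (pb a2 al 0 ((n + k + l + i2 + 1) - t) ((n + j + l + i2 + 1) - t) (by omega))) (sh al 2 ((n + j + l + i2 + 1) - t) t (by omega)))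
  · by_cases z30 : (2 * n + i + j + 2 * i2) ≤ (2 * Q + 2 * k + 2 * l)
    · by_cases z31 : (j + 2 * k + 2 * l + 3) ≤ (2 * n + i + 2 * i2)
      · have k130 : (2 * i2 + 2) ≤ (i + j) := by clear * - b6 b7 z30; omega
        have k131 : (2 * n + i + j + 2 * i2) ≤ (2 * Q + 2 * k + 2 * l) := by clear * - z30; omega
        have k132 : (i + j + 1) ≤ (2 * Q) := by clear * - b7 z30 z31; omega
        have k133 : (j + 2 * k + 2 * l + 3) ≤ (2 * n + i + 2 * i2) := by clear * - z31; omega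
        have k134 : (2 * k + 2 * l + 3) ≤ (2 * n + i + j) := by clear * - b6 b7 z30 z31; omega
        clear * - al a1 a2 s1 s2 b t1 t2 c n1 n2 mx hL ev n1p n2p k130 k131 k132 k133 k134
        obtain ⟨t, ht⟩ : ∃ t, 2 * t = (2 * n + i + j) := ⟨(2 * n + i + j) / 2, by omega⟩
        exact al.ninv t (cE (cE (cI (qf c al 1 t (t + (k + l - 2 * n - i2 + 1)) (by omega)) (ab s2 al 0 (t + (k + l - 2 * n - i2 + 1)) ((2 * n + i + j + i2 - k - l - 1) - t) (by omega))) (qf c al 0 ((2 * n + i + j + i2 - k - l - 1) - t) ((n + i + j) - t) (by omega))) (sh al 1 ((n + i + j) - t) t (by omega)))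
      · by_cases z32 : (j) ≤ (l + i2)
        · by_cases z33 : (2 * n + i + 3 * i2) ≤ (2 * Q + 2 * k + l)
          · by_cases z34 : (l + i2 + 2) ≤ (Q)
            · have k135 : (j) ≤ (l + i2) := by clear * - z32; omega
              have k136 : (l + i2 + 2) ≤ (n + j) := by clear * - b5 b7 z28 z32 z33 z34; omega
              have k137 : (l + i2 + 2) ≤ (Q) := by clear * - z34; omega
              have k138 : (i + l + 2) ≤ (Q) := by clear * - y5; omega
              have k139 : (Q) ≤ (i + j + 1) := by clear * - b6 b7 y6; omega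
              clear * - al a1 a2 s1 s2 b t1 t2 c n1 n2 mx hL ev n1p n2p k135 k136 k137 k138 k139
              exact al.ubQ (l + i2 - j + 1) (by omega) (by omega) fun t h1 h2 => (cE (sh al (-1) t (t + (-n)) (by omega)) (cII (ab s1 al (-1) (t + (-n)) ((i + j) - t) (by omega)) (qa t1 al 0 ((i + j) - t) (t + (l + i2 - j + 1)) (by omega))))
            · by_cases z35 : (k) ≤ (2 * i + j + 2 * l + 3)
              · by_cases z36 : (3 * k + 1) ≤ (2 * n + 2 * i + j)
                · have k140 : (k) ≤ (2 * i + j + 2 * l + 2) := by clear * - y6 z36; omega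
                  have k141 : (2 * i2 + 2) ≤ (j + k) := by clear * - b0 b5 b7 z33 z34 z36; omega
                  have k142 : (2 * n + j + 2 * i2) ≤ (3 * k + 2 * l) := by clear * - b0 b5 b7 z33 z34 z36; omega
                  have k143 : (2 * n + 2 * i + j + 2 * i2 + 2) ≤ (2 * Q + 3 * k) := by clear * - b0 b5 b7 z33 z34; omega
                  have k144 : (2 * i + j + 2 * l + 3) ≤ (k + 2 * i2) := by clear * - b5 y5 z34 z36; omega
                  have k145 : (2 * Q + j) ≤ (k + 2 * i2 + 1) := by clear * - b0 b5 b7 z34; omega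
                  have k146 : (3 * k + 1) ≤ (2 * n + j + 2 * i2) := by clear * - b0 b7 z32; omega
                  have k147 : (3 * k + 1) ≤ (2 * n + 2 * i + j) := by clear * - z36; omega
                  clear * - al a1 a2 s1 s2 b t1 t2 c n1 n2 mx hL ev n1p n2p k140 k141 k142 k143 k144 k145 k146 k147
                  obtain ⟨t, ht⟩ : ∃ t, 2 * t = (2 * i + j + 2 * l - k + 2) := ⟨(2 * i + j + 2 * l - k + 2) / 2, by omega⟩
                  exact al.ninv t (cE (cE (cE (qa t1 al 0 t ((i + l + i2 + 1) - t) (by omega)) (pb a2 al 0 ((i + l + i2 + 1) - t) ((i + j + l + i2 - k + 1) - t) (by omega))) (pb b al (-1) ((i + j + l + i2 - k + 1) - t) ((n + 2 * i + j + l + i2 - 2 * k + 1) - t) (by omega))) (qf c al 0 ((n + 2 * i + j + l + i2 - 2 * k + 1) - t) t (by omega)))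
                · have k148 : (k + l + 2) ≤ (n + i2) := by clear * - b0 b6 b7 z34 z36; omega
                  have k149 : (n + 2 * i + j + 2) ≤ (2 * Q + k) := by clear * - b0 z36; omega
                  have k150 : (k + 2 * l + 4) ≤ (n + j) := by clear * - b0 b6 b7 z36; omega
                  have k151 : (j + k + 2) ≤ (n + 2 * Q) := by clear * - b0 b6 b7 z33 z34 z36; omega
                  have k152 : (3 * k + 2 * l + 4) ≤ (3 * n + 2 * i + j) := by clear * - b0 b6 b7 z33 z34 z36; omega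
                  have k153 : (n + 2 * i + j + 2 * i2 + 2) ≤ (4 * Q + k) := by clear * - b0 b6 b7 z33 z34 z36; omega
                  have k154 : (k + 2 * l + 2 * i2 + 4) ≤ (n + 2 * Q + j) := by clear * - b0 b6 b7 z33 z34 z36; omega
                  have k155 : (j) ≤ (2 * i + l + i2 + 1) := by clear * - b0 b6 b7 z34 z35 z36; omega
                  have k156 : (2 * k + l + 1) ≤ (2 * n + 2 * i + j + i2) := by clear * - b0 b6 b7 z33 z34 z35 z36; omega
                  have k157 : (j) ≤ (2 * Q + l + i2 + 1) := by clear * - b0 b6 b7 z33 z34 z35 z36; omega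
                  have k158 : (j + 2 * k + l + 3) ≤ (2 * n + 2 * i + i2) := by clear * - b0 b6 b7 z34 z36; omega
                  have k159 : (4 * k + 3 * l + 5) ≤ (4 * n + 2 * i + j + i2) := by clear * - b0 b6 b7 z33 z34 z36; omega
                  have k160 : (j + 2 * k + l + 3) ≤ (2 * n + 2 * Q + i2) := by clear * - b0 b6 b7 z33 z34 z36; omega
                  have k161 : (j + l + i2 + 3) ≤ (2 * Q) := by clear * - b0 b6 z36; omega
                  have k162 : (2 * k + 3 * l + i2 + 5) ≤ (2 * n + 2 * Q + j) := by clear * - b0 b6 b7 z33 z34 z36; omega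
                  have k163 : (2 * i + j + l + i2 + 3) ≤ (4 * Q) := by clear * - b0 b6 b7 z33 z34 z36; omega
                  clear * - al a1 a2 s1 s2 b t1 t2 c n1 n2 mx hL ev n1p n2p k148 k149 k150 k151 k152 k153 k154 k155 k156 k157 k158 k159 k160 k161 k162 k163
                  exact mid2 al (n + i2 - k - l - 1) (2 * n + i + j) (2 * n + i + l + i2 + 1) (max (n + i + j - Q + 1) (max (n + j + 1) (k + l + 2))) (min (2 * n + i + j - k - l - 1) (n + Q)) (-1) (k + l + 2) (n + Q) (by omega) (fun t h1 h2 => ⟨by omega, (cE (qa s2 al 1 t ((n + i + j) - t) (by omega)) (sh al 1 ((n + i + j) - t) ((2 * n + i + j) - t) (by omega)))⟩) (fun t h1 h2 => ⟨by omega, (cE (ab t1 al 1 t ((n + i + l + i2 + 1) - t) (by omega)) (sh al 1 ((n + i + l + i2 + 1) - t) ((2 * n + i + l + i2 + 1) - t) (by omega)))⟩) (fun t h1 h2 => (cE (pb c al 1 t (t + (i2 - k - l - 1)) (by omega)) (sh al 1 (t + (i2 - k - l - 1)) (t + (n + i2 - k - l - 1)) (by omega))))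
              · have k164 : (k + l + 2) ≤ (n + i2) := by clear * - b0 b5 b7; omega
                have k165 : (n + 2 * i + j + 2) ≤ (2 * Q + k) := by clear * - b0 y6 z35; omega
                have k166 : (k + 2 * l + 4) ≤ (n + j) := by clear * - b0 b6 b7 y6 z35; omega
                have k167 : (j + k + 2) ≤ (n + 2 * Q) := by clear * - b0 b5 b7 z28 z33 z34; omega
                have k168 : (3 * k + 2 * l + 4) ≤ (3 * n + 2 * i + j) := by clear * - b0 b5 b6 b7 z33 z34; omega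
                have k169 : (n + 2 * i + j + 2 * i2 + 2) ≤ (4 * Q + k) := by clear * - b0 b5 b7 z33 z34; omega
                have k170 : (k + 2 * l + 2 * i2 + 4) ≤ (n + 2 * Q + j) := by clear * - b0 b5 b6 b7 z33 z34; omega
                have k171 : (j) ≤ (2 * i + l + i2 + 1) := by clear * - b0 b6 b7 y6 z34 z35; omega
                have k172 : (2 * k + l + 1) ≤ (2 * n + 2 * i + j + i2) := by clear * - b0 b6 b7 y7 z33 z34 z35; omega
                have k173 : (j) ≤ (2 * Q + l + i2 + 1) := by clear * - b0 b6 y7 z31 z33 z34 z35; omega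
                have k174 : (j + 2 * k + l + 3) ≤ (2 * n + 2 * i + i2) := by clear * - b0 b5 b6 b7 z34; omega
                have k175 : (4 * k + 3 * l + 5) ≤ (4 * n + 2 * i + j + i2) := by clear * - b0 b5 b6 b7 z33 z34; omega
                have k176 : (j + 2 * k + l + 3) ≤ (2 * n + 2 * Q + i2) := by clear * - b0 b5 b7 z28 z33 z34; omega
                have k177 : (j + l + i2 + 3) ≤ (2 * Q) := by clear * - b0 b6 y6 z35; omega
                have k178 : (2 * k + 3 * l + i2 + 5) ≤ (2 * n + 2 * Q + j) := by clear * - b0 b5 b6 b7 z33 z34; omega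
                have k179 : (2 * i + j + l + i2 + 3) ≤ (4 * Q) := by clear * - b0 b5 b7 z33 z34; omega
                clear * - al a1 a2 s1 s2 b t1 t2 c n1 n2 mx hL ev n1p n2p k164 k165 k166 k167 k168 k169 k170 k171 k172 k173 k174 k175 k176 k177 k178 k179
                exact mid2 al (n + i2 - k - l - 1) (2 * n + i + j) (2 * n + i + l + i2 + 1) (max (n + i + j - Q + 1) (max (n + j + 1) (k + l + 2))) (min (2 * n + i + j - k - l - 1) (n + Q)) (-1) (k + l + 2) (n + Q) (by omega) (fun t h1 h2 => ⟨by omega, (cE (qa s2 al 1 t ((n + i + j) - t) (by omega)) (sh al 1 ((n + i + j) - t) ((2 * n + i + j) - t) (by omega)))⟩) (fun t h1 h2 => ⟨by omega, (cE (ab t1 al 1 t ((n + i + l + i2 + 1) - t) (by omega)) (sh al 1 ((n + i + l + i2 + 1) - t) ((2 * n + i + l + i2 + 1) - t) (by omega)))⟩) (fun t h1 h2 => (cE (pb c al 1 t (t + (i2 - k - l - 1)) (by omega)) (sh al 1 (t + (i2 - k - l - 1)) (t + (n + i2 - k - l - 1)) (by omega))))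
          · have k180 : (2 * k + 1) ≤ (n + j + l + i2) := by clear * - b0 z31 z33; omega
            have k181 : (2 * k) ≤ (n + 2 * i + j + l + i2 + 1) := by clear * - b0 b6 b7 y6 z32; omega
            have k182 : (l + i2 + 3) ≤ (n + j) := by clear * - b0 b5 b6 b7 z31 z33; omega
            have k183 : (n + j + i2) ≤ (2 * k + l) := by clear * - b0 b5 b7 z28 z31; omega
            have k184 : (n + 2 * i + j + l + 2) ≤ (2 * k + i2) := by clear * - b5 y5 z31 z32 z33; omega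
            have k185 : (n + 2 * Q + j) ≤ (2 * k + l + i2 + 2) := by clear * - b5 z31 z32 z33; omega
            clear * - al a1 a2 s1 s2 b t1 t2 c n1 n2 mx hL ev n1p n2p k180 k181 k182 k183 k184 k185
            obtain ⟨t, ht⟩ : ∃ t, 2 * t = (3 * n + j + l + i2 + 1) := ⟨(3 * n + j + l + i2 + 1) / 2, by omega⟩
            exact al.ninv t (cE (cE (cI (pb b al 1 t (t + (i - n - k)) (by omega)) (qa t1 al 0 (t + (i - n - k)) ((n + k + l + i2 + 1) - t) (by omega))) (pb a2 al 0 ((n + k + l + i2 + 1) - t) ((n + j + l + i2 + 1) - t) (by omega))) (sh al 2 ((n + j + l + i2 + 1) - t) t (by omega)))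
        · have k186 : (3 * k + l + i2 + 3) ≤ (2 * n + 2 * i + 2 * j) := by clear * - b0 b3 z32; omega
          have k187 : (k + i2) ≤ (2 * i + 2 * j + l + 1) := by clear * - b0 b3 y6 z32; omega
          have k188 : (i2 + 1) ≤ (k + l) := by clear * - b0 b5 b7 z28 z31; omega
          have k189 : (2 * n + 2 * j + i2) ≤ (3 * k + 3 * l + 1) := by clear * - b0 b3 b5 b7 z31; omega
          have k190 : (2 * n + 2 * i + 2 * j + i2) ≤ (2 * Q + 3 * k + l) := by clear * - b0 b5 b7 z31; omega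
          have k191 : (2 * j + l + 2) ≤ (k + i2) := by clear * - b0 b5 b7; omega
          have k192 : (2 * Q + l) ≤ (k + i2) := by clear * - b0 b5 b7; omega
          have k193 : (3 * k + l + 2) ≤ (2 * n + 2 * j + i2) := by clear * - b0 b7; omega
          clear * - al a1 a2 s1 s2 b t1 t2 c n1 n2 mx hL ev n1p n2p k186 k187 k188 k189 k190 k191 k192 k193
          obtain ⟨t, ht⟩ : ∃ t, 2 * t = (2 * i + 2 * j + i2 - 3 * k - l - 1) := ⟨(2 * i + 2 * j + i2 - 3 * k - l - 1) / 2, by omega⟩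
          exact al.ninv t (cE (cE (cE (cI (qf c al (-1) t (t + (k + l - i2 + 1)) (by omega)) (qa s1 al 0 (t + (k + l - i2 + 1)) ((i + j + i2 - k - l - 1) - t) (by omega))) (pb a2 al 0 ((i + j + i2 - k - l - 1) - t) ((i + 2 * j + i2 - 2 * k - l - 1) - t) (by omega))) (pb b al (-1) ((i + 2 * j + i2 - 2 * k - l - 1) - t) ((n + 2 * i + 2 * j + i2 - 3 * k - l - 1) - t) (by omega))) (sh al (-1) ((n + 2 * i + 2 * j + i2 - 3 * k - l - 1) - t) t (by omega)))
    · by_cases z37 : (3 * k + 2) ≤ (2 * n + j + 2 * i2)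
      · have k194 : (3 * k + 2) ≤ (2 * n + 2 * i + j) := by clear * - b0 z28 z30; omega
        have k195 : (3 * k + 2) ≤ (2 * n + j + 2 * i2) := by clear * - z37; omega
        have k196 : (2 * Q + j) ≤ (k + 2 * i2) := by clear * - b5 z37; omega
        have k197 : (2 * i + j + 2 * l + 4) ≤ (k + 2 * i2) := by clear * - b5 y5 z37; omega
        have k198 : (2 * n + 2 * i + j + 2 * i2 + 1) ≤ (2 * Q + 3 * k) := by clear * - b5 y5 z28 z37; omega
        have k199 : (2 * n + j + 2 * i2) ≤ (3 * k + 2 * l + 1) := by clear * - b0 b4 b5 z28 z30; omega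
        have k200 : (2 * i2 + 1) ≤ (j + k) := by clear * - b0 b4 b5 b6 z30 z37; omega
        have k201 : (k) ≤ (2 * i + j + 2 * l + 3) := by clear * - b0 y6 z28 z30; omega
        clear * - al a1 a2 s1 s2 b t1 t2 c n1 n2 mx hL ev n1p n2p k194 k195 k196 k197 k198 k199 k200 k201
        obtain ⟨t, ht⟩ : ∃ t, 2 * t = (2 * i + j + 2 * l - k + 2) := ⟨(2 * i + j + 2 * l - k + 2) / 2, by omega⟩
        exact al.ninv t (cI (cE (cE (pb c al 0 t (t + (n + i2 - k - l - 1)) (by omega)) (qf b al 0 (t + (n + i2 - k - l - 1)) (t + (n + i2 - i - l - 1)) (by omega))) (qf a2 al 1 (t + (n + i2 - i - l - 1)) (t + (k + i2 - i - j - l - 1)) (by omega))) (ab t1 al 0 (t + (k + i2 - i - j - l - 1)) t (by omega)))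
      · by_cases z38 : (i + 2 * k + 3 * l + 5) ≤ (2 * n + 3 * i2)
        · have k202 : (i2 + 1) ≤ (i + l) := by clear * - z28 z38; omega
          have k203 : (2 * k + l + 3) ≤ (2 * n + i + i2) := by clear * - z28 z38; omega
          have k204 : (i + 2 * k + 3 * l + 5) ≤ (2 * n + 3 * i2) := by clear * - z38; omega
          have k205 : (i + l + i2 + 2) ≤ (2 * Q) := by clear * - b0 b4 z28 z37 z38; omega
          have k206 : (2 * n + i + 3 * i2) ≤ (2 * Q + 2 * k + l) := by clear * - b0 b4 z37; omega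
          clear * - al a1 a2 s1 s2 b t1 t2 c n1 n2 mx hL ev n1p n2p k202 k203 k204 k205 k206
          obtain ⟨t, ht⟩ : ∃ t, 2 * t = (i + 2 * k + 3 * l - 4 * n - i2 + 3) := ⟨(i + 2 * k + 3 * l - 4 * n - i2 + 3) / 2, by omega⟩
          exact al.ninv t (cE (cI (cE (pb c al (-1) t (t + (2 * n + i2 - k - l - 1)) (by omega)) (pb c al 0 (t + (2 * n + i2 - k - l - 1)) (t + (3 * n + 2 * i2 - 2 * k - 2 * l - 2)) (by omega))) (qa t2 al 0 (t + (3 * n + 2 * i2 - 2 * k - 2 * l - 2)) ((i + 2 * k + 3 * l - 3 * n - i2 + 3) - t) (by omega))) (sh al (-1) ((i + 2 * k + 3 * l - 3 * n - i2 + 3) - t) t (by omega)))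
        · have k207 : (k + l + 2) ≤ (n + i2) := by clear * - b0 b5 b7; omega
          have k208 : (n + i2) ≤ (2 * i + k + l + 1) := by clear * - b0 y7 z30 z37 z38; omega
          have k209 : (n + 2 * Q + i2) ≤ (2 * i + 2 * j + k + l + 3) := by clear * - b0 b7 y6 z28 z30 z37; omega
          have k210 : (3 * k + i2) ≤ (n + 2 * i + 4 * j + l + 1) := by clear * - b0 b7 y6 z30 z37 z38; omega
          have k211 : (5 * k + l + i2 + 1) ≤ (3 * n + 4 * i + 4 * j) := by clear * - b0 b7 y7 z28 z30 z37 z38; omega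
          have k212 : (n + i2) ≤ (2 * Q + k + l + 1) := by clear * - b0 b4 b5 y7 z30 z37 z38; omega
          have k213 : (n + 2 * j + i2 + 1) ≤ (3 * k + l) := by clear * - b0 b4 b5 z30 z38; omega
          have k214 : (n + 2 * Q + i2) ≤ (3 * k + l + 1) := by clear * - b0 b4 b5 z30 z38; omega
          have k215 : (k + i2 + 1) ≤ (n + 2 * j + l) := by clear * - b0 b4 b5 z30 z38; omega
          have k216 : (3 * k + l + i2 + 3) ≤ (3 * n + 2 * i + 2 * j) := by clear * - b0 b4 b5 z30 z37 z38; omega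
          have k217 : (n + 2 * i + 2 * j + i2 + 1) ≤ (2 * Q + 3 * k + l) := by clear * - b0 b4 b5 z30 z38; omega
          have k218 : (3 * n + 4 * j + i2) ≤ (5 * k + 3 * l + 1) := by clear * - b0 b3 b4 b5; omega
          have k219 : (3 * n + 2 * Q + 2 * j + i2) ≤ (5 * k + 3 * l + 3) := by clear * - b0 b3 b4 b5; omega
          have k220 : (n + i2) ≤ (k + 3 * l + 1) := by clear * - b0 b3 b4 b5; omega
          have k221 : (k + i2 + 1) ≤ (n + 2 * i + l) := by clear * - b0 b5 b7 z38; omega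
          have k222 : (3 * n + 2 * i + 4 * j + i2) ≤ (2 * Q + 5 * k + 3 * l + 1) := by clear * - b0 b3 b4 b5 z30; omega
          have k223 : (k + l + i2 + 3) ≤ (n + 2 * i) := by clear * - b6; omega
          have k224 : (2 * Q + k + l + i2 + 1) ≤ (n + 2 * i + 2 * j) := by clear * - b0 b7 z28 z30 z37; omega
          have k225 : (5 * k + l + i2 + 3) ≤ (3 * n + 2 * i + 4 * j) := by clear * - b0 b7 z30 z37 z38; omega
          have k226 : (7 * k + 3 * l + i2 + 5) ≤ (5 * n + 4 * i + 4 * j) := by clear * - b0 b6 b7 z30 z37 z38; omega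
          have k227 : (k + l + i2 + 3) ≤ (n + 2 * Q) := by clear * - b0 b4 b5 z30 z37 z38; omega
          have k228 : (3 * n + 2 * i + 4 * j + i2 + 1) ≤ (2 * Q + 5 * k + l) := by clear * - b0 b4 b5 z30; omega
          have k229 : (3 * n + 2 * i + 2 * j + i2) ≤ (5 * k + l + 1) := by clear * - b0 b4 b5 z30; omega
          have k230 : (n + 2 * i + i2 + 1) ≤ (2 * Q + k + l) := by clear * - b0 b4 b5 z30; omega
          have k231 : (3 * n + 4 * i + 4 * j + i2 + 1) ≤ (4 * Q + 5 * k + l) := by clear * - b0 b4 b5 z30; omega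
          clear * - al a1 a2 s1 s2 b t1 t2 c n1 n2 mx hL ev n1p n2p k207 k208 k209 k210 k211 k212 k213 k214 k215 k216 k217 k218 k219 k220 k221 k222 k223 k224 k225 k226 k227 k228 k229 k230 k231
          exact midP al (n + i2 - k - l - 1) (n + 2 * i + 2 * j - 2 * k) (max (k + l - n + 2) (max (n + 2 * i + 2 * j - Q - 2 * k + 1) (max (n + i + 2 * j - 2 * k - l) (max (i + j - k + 1) (0))))) (k + l - n + 2) (Q) (by omega) (fun t h1 h2 => (cE (cE (qa s1 al 0 t ((i + j) - t) (by omega)) (pb a2 al 0 ((i + j) - t) ((i + 2 * j - k) - t) (by omega))) (pb b al (-1) ((i + 2 * j - k) - t) ((n + 2 * i + 2 * j - 2 * k) - t) (by omega)))) (fun t h1 h2 => (pb c al 0 t (t + (n + i2 - k - l - 1)) (by omega)))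

theorem l1_100L_17 {W : ℤ → G} {n Q i j k l i2 : ℤ} (al : AL W n Q)
    {L : ℤ} (mx : ∀ a b g, 0 < g → g < n → Par W a b g → b - a ≤ L) (hL : L ≤ (n - j - 3) ∧ L ≤ (n + Q - k - 3) ∧ L ≤ (n - l - 3) ∧ L ≤ (k - j - 2))
    (hy : (0) ≤ (i) ∧ (i) ≤ (j) ∧ (j + 1) ≤ (Q) ∧ (Q) ≤ (k) ∧ (k + 1) ≤ (n) ∧ (i + l + 2) ≤ (Q) ∧ (n) ≤ (k + l + 1) ∧ (0) ≤ (i2) ∧ (i2) ≤ (i + l + 1))
    (a1 : Par W (0) (j) (k - j))
    (a2 : Par W (Q + j - k) (j) (k - j))
    (s1 : Ant W (0) (i) (i + j))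
    (s2 : Ant W (j + 1) (Q) (i + j))
    (b : Par W (i + 1) (i + l + 1) (k - i))
    (t1 : Ant W (0) (i2) (i + l + i2 + 1))
    (t2 : Ant W (i + l + 2) (Q) (i + l + i2 + 1))
    (c : Par W (i2 + 1) (Q) (k + l - n - i2 + 1))
    (n1 : Nd W (j) (i) (k))
    (n2 : Nd W (i + l + 1) (i2) (k + l - n + 1))
    (b0 : (2 * k + 3) ≤ (n + 2 * Q))
    (b1 : (i + 2 * j + 2) ≤ (k))
    (b2 : (i + j + l + i2 + 2) ≤ (k))
    (b3 : (2 * Q + k) ≤ (n + 2 * i + l + i2 + 2))
    (b4 : (n + i + i2) ≤ (j + k + l + 1))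
    (b5 : (k + 2 * l + 2) ≤ (n + j))
    (b6 : (n + Q + j) ≤ (2 * k))
    (b7 : (k + l + i2 + 3) ≤ (n + 2 * i)) : False := by
  have ev := al.ev
  obtain ⟨y0, y1, y2, y3, y4, y5, y6, y7, y8⟩ := id hy
  have n1p := And.intro n1.p1 n1.p2
  have n2p := And.intro n2.p1 n2.p2
  by_cases z27 : (n + 2 * j + i2 + 1) ≤ (2 * Q + k + l)
  · have k111 : (k + l + 2) ≤ (n + i2) := by clear * - b3 y5; omega
    have k112 : (n + i2) ≤ (2 * i + k + l + 1) := by clear * - b7 y6; omega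
    have k113 : (k + l + i2 + 1) ≤ (n + 2 * i + 2 * j) := by clear * - b3 b4 b5 b7 y7 z27; omega
    have k114 : (n + i2) ≤ (2 * Q + k + l + 1) := by clear * - b3 b4 b5 y7 z27; omega
    have k115 : (k + l + i2 + 3) ≤ (n + 2 * i) := by clear * - b7; omega
    have k116 : (3 * k + 3 * l + i2 + 5) ≤ (3 * n + 2 * i + 2 * j) := by clear * - b0 b3 b4 b5 b6 z27; omega
    have k117 : (k + l + i2 + 3) ≤ (n + 2 * Q) := by clear * - b0 b3 b4 b5 b6; omega
    have k118 : (n + 2 * j + i2 + 1) ≤ (2 * Q + k + l) := by clear * - z27; omega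
    have k119 : (n + 2 * i + 2 * j + i2 + 1) ≤ (4 * Q + k + l) := by clear * - b0 b2 b4 y7 z27; omega
    clear * - al a1 a2 s1 s2 b t1 t2 c n1 n2 mx hL ev n1p n2p k111 k112 k113 k114 k115 k116 k117 k118 k119
    exact midP al (n + i2 - k - l - 1) (i + j) (max (k + l - n + 2) (max (i + j - Q + 1) (0))) (k + l - n + 2) (Q) (by omega) (fun t h1 h2 => (qa s1 al 0 t ((i + j) - t) (by omega))) (fun t h1 h2 => (pb c al 0 t (t + (n + i2 - k - l - 1)) (by omega)))
  · exact l1_100L_18 al mx hL hy a1 a2 s1 s2 b t1 t2 c n1 n2 (by clear * - b0; omega) (by clear * - b1; omega) (by clear * - b2; omega) (by clear * - b3; omega) (by clear * - b4; omega) (by clear * - b6; omega) (by clear * - b7; omega) (by clear * - z27; omega)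

theorem l1_100L_16 {W : ℤ → G} {n Q i j k l i2 : ℤ} (al : AL W n Q)
    {L : ℤ} (mx : ∀ a b g, 0 < g → g < n → Par W a b g → b - a ≤ L) (hL : L ≤ (n - j - 3) ∧ L ≤ (n + Q - k - 3) ∧ L ≤ (n - l - 3) ∧ L ≤ (k - j - 2))
    (hy : (0) ≤ (i) ∧ (i) ≤ (j) ∧ (j + 1) ≤ (Q) ∧ (Q) ≤ (k) ∧ (k + 1) ≤ (n) ∧ (i + l + 2) ≤ (Q) ∧ (n) ≤ (k + l + 1) ∧ (0) ≤ (i2) ∧ (i2) ≤ (i + l + 1))
    (a1 : Par W (0) (j) (k - j))
    (a2 : Par W (Q + j - k) (j) (k - j))
    (s1 : Ant W (0) (i) (i + j))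
    (s2 : Ant W (j + 1) (Q) (i + j))
    (b : Par W (i + 1) (i + l + 1) (k - i))
    (t1 : Ant W (0) (i2) (i + l + i2 + 1))
    (t2 : Ant W (i + l + 2) (Q) (i + l + i2 + 1))
    (c : Par W (i2 + 1) (Q) (k + l - n - i2 + 1))
    (n1 : Nd W (j) (i) (k))
    (n2 : Nd W (i + l + 1) (i2) (k + l - n + 1))
    (b0 : (2 * k + 3) ≤ (n + 2 * Q))
    (b1 : (i + 2 * j + 2) ≤ (k))
    (b2 : (i + j + l + i2 + 2) ≤ (k))
    (b3 : (2 * Q + k) ≤ (n + 2 * i + l + i2 + 2))
    (b4 : (n + i + i2) ≤ (j + k + l + 1))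
    (b5 : (k + 2 * l + 2) ≤ (n + j))
    (b6 : (n + Q + j) ≤ (2 * k)) : False := by
  have ev := al.ev
  obtain ⟨y0, y1, y2, y3, y4, y5, y6, y7, y8⟩ := id hy
  have n1p := And.intro n1.p1 n1.p2
  have n2p := And.intro n2.p1 n2.p2
  by_cases z26 : (k + l + i2 + 3) ≤ (n + 2 * i)
  · exact l1_100L_17 al mx hL hy a1 a2 s1 s2 b t1 t2 c n1 n2 (by clear * - b0; omega) (by clear * - b1; omega) (by clear * - b2; omega) (by clear * - b3; omega) (by clear * - b4; omega) (by clear * - b5; omega) (by clear * - b6; omega) (by clear * - z26; omega)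
  · exact l1_100L_19 al mx hL hy a1 a2 s1 s2 b t1 t2 c n1 n2 (by clear * - b0; omega) (by clear * - b2; omega) (by clear * - b3; omega) (by clear * - b4; omega) (by clear * - b5; omega) (by clear * - b6; omega) (by clear * - z26; omega)

theorem l1_100L_15 {W : ℤ → G} {n Q i j k l i2 : ℤ} (al : AL W n Q)
    {L : ℤ} (mx : ∀ a b g, 0 < g → g < n → Par W a b g → b - a ≤ L) (hL : L ≤ (n - j - 3) ∧ L ≤ (n + Q - k - 3) ∧ L ≤ (n - l - 3) ∧ L ≤ (k - j - 2))
    (hy : (0) ≤ (i) ∧ (i) ≤ (j) ∧ (j + 1) ≤ (Q) ∧ (Q) ≤ (k) ∧ (k + 1) ≤ (n) ∧ (i + l + 2) ≤ (Q) ∧ (n) ≤ (k + l + 1) ∧ (0) ≤ (i2) ∧ (i2) ≤ (i + l + 1))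
    (a1 : Par W (0) (j) (k - j))
    (a2 : Par W (Q + j - k) (j) (k - j))
    (s1 : Ant W (0) (i) (i + j))
    (s2 : Ant W (j + 1) (Q) (i + j))
    (b : Par W (i + 1) (i + l + 1) (k - i))
    (t1 : Ant W (0) (i2) (i + l + i2 + 1))
    (t2 : Ant W (i + l + 2) (Q) (i + l + i2 + 1))
    (c : Par W (i2 + 1) (Q) (k + l - n - i2 + 1))
    (n1 : Nd W (j) (i) (k))
    (n2 : Nd W (i + l + 1) (i2) (k + l - n + 1))
    (b0 : (2 * k + 3) ≤ (n + 2 * Q))
    (b1 : (i + 2 * j + 2) ≤ (k))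
    (b2 : (i + j + l + i2 + 2) ≤ (k))
    (b3 : (2 * Q + k) ≤ (n + 2 * i + l + i2 + 2))
    (b4 : (n + i + i2) ≤ (j + k + l + 1))
    (b5 : (k + 2 * l + 2) ≤ (n + j)) : False := by
  have ev := al.ev
  obtain ⟨y0, y1, y2, y3, y4, y5, y6, y7, y8⟩ := id hy
  have n1p := And.intro n1.p1 n1.p2
  have n2p := And.intro n2.p1 n2.p2
  by_cases z24 : (2 * k + 1) ≤ (n + Q + j)
  · by_cases z25 : (3 * k + l + 2) ≤ (2 * n + Q + i + j)
    · have k99 : (2 * n + i + j + i2) ≤ (3 * k + l) := by clear * - b2 y6; omega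
      have k100 : (3 * k + l + 2) ≤ (3 * n + i + j + i2) := by clear * - b2 b3 b4 y7 y8 z25; omega
      have k101 : (3 * k + l + 2) ≤ (2 * n + Q + i + j) := by clear * - z25; omega
      have k102 : (2 * k + 1) ≤ (n + Q + j) := by clear * - z24; omega
      have k103 : (Q + k) ≤ (n + i + i2) := by clear * - b3 y5; omega
      have k104 : (Q + 2 * k + l + 1) ≤ (2 * n + i + j + i2) := by clear * - b2 b3 b4 b5 y7 z24 z25; omega
      clear * - al a1 a2 s1 s2 b t1 t2 c n1 n2 mx hL ev n1p n2p k99 k100 k101 k102 k103 k104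
      exact al.ubQ (3 * k + l - 2 * n - i - j - i2 + 1) (by omega) (by omega) fun t h1 h2 => (cE (sh al (-1) t (t + (-n)) (by omega)) (cE (cE (qf c al (-1) (t + (-n)) (t + (k + l - n - i2 + 1)) (by omega)) (qf b al 0 (t + (k + l - n - i2 + 1)) (t + (2 * k + l - n - i - i2 + 1)) (by omega))) (qf a2 al 1 (t + (2 * k + l - n - i - i2 + 1)) (t + (3 * k + l - 2 * n - i - j - i2 + 1)) (by omega))))
    · have k105 : (n + 2 * i + j + l + 3) ≤ (2 * k + i2) := by clear * - b0 b3 b5 z25; omega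
      have k106 : (n + j + i2 + 1) ≤ (2 * k + l) := by clear * - b0 b3 b5 y8 z25; omega
      have k107 : (l + i2 + 3) ≤ (n + j) := by clear * - b0 b3 b5 y8 z24 z25; omega
      have k108 : (2 * k) ≤ (n + 2 * i + j + l + i2 + 2) := by clear * - b0 b3 b5 y6; omega
      have k109 : (2 * k) ≤ (n + j + l + i2) := by clear * - b0 b3 b5 z24 z25; omega
      have k110 : (n + 2 * Q + j) ≤ (2 * k + l + i2 + 2) := by clear * - b0 b3 b5 z25; omega
      clear * - al a1 a2 s1 s2 b t1 t2 c n1 n2 mx hL ev n1p n2p k105 k106 k107 k108 k109 k110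
      obtain ⟨t, ht⟩ : ∃ t, 2 * t = (2 * k + l + i2 - 3 * n - j + 1) := ⟨(2 * k + l + i2 - 3 * n - j + 1) / 2, by omega⟩
      exact al.ninv t (cE (cE (cE (ab t1 al (-1) t ((i + l + i2 - n + 1) - t) (by omega)) (qf b al 0 ((i + l + i2 - n + 1) - t) ((k + l + i2 - n + 1) - t) (by omega))) (qf a2 al 1 ((k + l + i2 - n + 1) - t) ((2 * k + l + i2 - 2 * n - j + 1) - t) (by omega))) (sh al (-1) ((2 * k + l + i2 - 2 * n - j + 1) - t) t (by omega)))
  · exact l1_100L_16 al mx hL hy a1 a2 s1 s2 b t1 t2 c n1 n2 (by clear * - b0; omega) (by clear * - b1; omega) (by clear * - b2; omega) (by clear * - b3; omega) (by clear * - b4; omega) (by clear * - b5; omega) (by clear * - z24; omega)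

theorem l1_100L_14 {W : ℤ → G} {n Q i j k l i2 : ℤ} (al : AL W n Q)
    {L : ℤ} (mx : ∀ a b g, 0 < g → g < n → Par W a b g → b - a ≤ L) (hL : L ≤ (n - j - 3) ∧ L ≤ (n + Q - k - 3) ∧ L ≤ (n - l - 3) ∧ L ≤ (k - j - 2))
    (hy : (0) ≤ (i) ∧ (i) ≤ (j) ∧ (j + 1) ≤ (Q) ∧ (Q) ≤ (k) ∧ (k + 1) ≤ (n) ∧ (i + l + 2) ≤ (Q) ∧ (n) ≤ (k + l + 1) ∧ (0) ≤ (i2) ∧ (i2) ≤ (i + l + 1))
    (a1 : Par W (0) (j) (k - j))
    (a2 : Par W (Q + j - k) (j) (k - j))
    (s1 : Ant W (0) (i) (i + j))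
    (s2 : Ant W (j + 1) (Q) (i + j))
    (b : Par W (i + 1) (i + l + 1) (k - i))
    (t1 : Ant W (0) (i2) (i + l + i2 + 1))
    (t2 : Ant W (i + l + 2) (Q) (i + l + i2 + 1))
    (c : Par W (i2 + 1) (Q) (k + l - n - i2 + 1))
    (n1 : Nd W (j) (i) (k))
    (n2 : Nd W (i + l + 1) (i2) (k + l - n + 1))
    (b0 : (2 * k + 3) ≤ (n + 2 * Q))
    (b1 : (i + k + 2 * l + 1) ≤ (n + 2 * j))
    (b2 : (i + j + l + i2 + 2) ≤ (k))
    (b3 : (2 * Q + k) ≤ (n + 2 * i + l + i2 + 2))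
    (b4 : (n + i + i2) ≤ (j + k + l + 1))
    (b5 : (n + j) ≤ (k + 2 * l + 1)) : False := by
  have ev := al.ev
  obtain ⟨y0, y1, y2, y3, y4, y5, y6, y7, y8⟩ := id hy
  have n1p := And.intro n1.p1 n1.p2
  have n2p := And.intro n2.p1 n2.p2
  by_cases z21 : (j + k + 2) ≤ (n + 2 * i)
  · have k77 : (j + k + 2) ≤ (n + 2 * i) := by clear * - z21; omega
    have k78 : (n + j) ≤ (k + 2 * l) := by clear * - b5 ev n1p n2p; omega
    have k79 : (n + 2 * i + j + 1) ≤ (2 * Q + k) := by clear * - b5 y5; omega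
    have k80 : (k + 1) ≤ (n + j) := by clear * - b1 b5 z21; omega
    clear * - al a1 a2 s1 s2 b t1 t2 c n1 n2 mx hL ev n1p n2p k77 k78 k79 k80
    obtain ⟨t, ht⟩ : ∃ t, 2 * t = (3 * n + 2 * i + j - k) := ⟨(3 * n + 2 * i + j - k) / 2, by omega⟩
    exact al.ninv t (cE (cE (qa s2 al 1 t ((n + i + j) - t) (by omega)) (pb b al (-1) ((n + i + j) - t) ((2 * n + 2 * i + j - k) - t) (by omega))) (sh al 1 ((2 * n + 2 * i + j - k) - t) t (by omega)))
  · by_cases z22 : (n + 2 * i + j + l + 3) ≤ (2 * k + i2)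
    · by_cases z23 : (n + 2 * Q + j) ≤ (2 * k + l + i2 + 2)
      · have k81 : (2 * k) ≤ (n + 2 * i + j + l + i2 + 1) := by clear * - b0 b3 y0 z21; omega
        have k82 : (l + i2 + 3) ≤ (n + j) := by clear * - b1 b3 y5 y8 z22; omega
        have k83 : (n + j + i2 + 1) ≤ (2 * k + l) := by clear * - y8 z22; omega
        have k84 : (n + 2 * i + j + l + 2) ≤ (2 * k + i2) := by clear * - z22; omega
        have k85 : (n + 2 * Q + j) ≤ (2 * k + l + i2 + 2) := by clear * - z23; omega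
        have k86 : (2 * k) ≤ (n + j + l + i2) := by clear * - b0 b3 z21; omega
        clear * - al a1 a2 s1 s2 b t1 t2 c n1 n2 mx hL ev n1p n2p k81 k82 k83 k84 k85 k86
        obtain ⟨t, ht⟩ : ∃ t, 2 * t = (2 * i + j + l + i2 - n - 2 * k + 1) := ⟨(2 * i + j + l + i2 - n - 2 * k + 1) / 2, by omega⟩
        exact al.ninv t (cE (cE (cE (qa t1 al (-1) t ((i + l + i2 - n + 1) - t) (by omega)) (pb a2 al 0 ((i + l + i2 - n + 1) - t) ((i + j + l + i2 - n - k + 1) - t) (by omega))) (pb b al (-1) ((i + j + l + i2 - n - k + 1) - t) ((2 * i + j + l + i2 - 2 * k + 1) - t) (by omega))) (sh al (-1) ((2 * i + j + l + i2 - 2 * k + 1) - t) t (by omega)))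
      · have k87 : (2 * n + i + j + i2) ≤ (3 * k + l) := by clear * - b2 y6; omega
        have k88 : (3 * k + l + 2) ≤ (3 * n + i + j + i2) := by clear * - b3 y8 z21 z22 z23; omega
        have k89 : (3 * k + l + 2) ≤ (2 * n + Q + i + j) := by clear * - b3 z22 z23; omega
        have k90 : (2 * k + 1) ≤ (n + Q + j) := by clear * - b3 b5 z21 z22 z23; omega
        have k91 : (Q + k) ≤ (n + i + i2) := by clear * - b3 z22 z23; omega
        have k92 : (Q + 2 * k + l + 1) ≤ (2 * n + i + j + i2) := by clear * - b1 b3 y8 z22 z23; omega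
        clear * - al a1 a2 s1 s2 b t1 t2 c n1 n2 mx hL ev n1p n2p k87 k88 k89 k90 k91 k92
        exact al.ubQ (3 * k + l - 2 * n - i - j - i2 + 1) (by omega) (by omega) fun t h1 h2 => (cE (sh al 1 t (t + (n)) (by omega)) (cE (cE (qf c al 1 (t + (n)) (t + (k + l - n - i2 + 1)) (by omega)) (qf b al 0 (t + (k + l - n - i2 + 1)) (t + (2 * k + l - n - i - i2 + 1)) (by omega))) (qf a2 al 1 (t + (2 * k + l - n - i - i2 + 1)) (t + (3 * k + l - 2 * n - i - j - i2 + 1)) (by omega))))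
    · have k93 : (2 * n + i + j + i2) ≤ (3 * k + l) := by clear * - b2 y6; omega
      have k94 : (3 * k + l + 2) ≤ (3 * n + i + j + i2) := by clear * - b0 b1 b2 b3 y7 z21 z22; omega
      have k95 : (3 * k + l + 2) ≤ (2 * n + Q + i + j) := by clear * - b3 y5 z22; omega
      have k96 : (2 * k + 1) ≤ (n + Q + j) := by clear * - b3 b5 y5 z21 z22; omega
      have k97 : (Q + k) ≤ (n + i + i2) := by clear * - b3 y5; omega
      have k98 : (Q + 2 * k + l + 1) ≤ (2 * n + i + j + i2) := by clear * - b1 b3 y5 y8; omega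
      clear * - al a1 a2 s1 s2 b t1 t2 c n1 n2 mx hL ev n1p n2p k93 k94 k95 k96 k97 k98
      exact al.ubQ (3 * k + l - 2 * n - i - j - i2 + 1) (by omega) (by omega) fun t h1 h2 => (cE (sh al 1 t (t + (n)) (by omega)) (cE (cE (qf c al 1 (t + (n)) (t + (k + l - n - i2 + 1)) (by omega)) (qf b al 0 (t + (k + l - n - i2 + 1)) (t + (2 * k + l - n - i - i2 + 1)) (by omega))) (qf a2 al 1 (t + (2 * k + l - n - i - i2 + 1)) (t + (3 * k + l - 2 * n - i - j - i2 + 1)) (by omega))))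

theorem l1_100L_13 {W : ℤ → G} {n Q i j k l i2 : ℤ} (al : AL W n Q)
    {L : ℤ} (mx : ∀ a b g, 0 < g → g < n → Par W a b g → b - a ≤ L) (hL : L ≤ (n - j - 3) ∧ L ≤ (n + Q - k - 3) ∧ L ≤ (n - l - 3) ∧ L ≤ (k - j - 2))
    (hy : (0) ≤ (i) ∧ (i) ≤ (j) ∧ (j + 1) ≤ (Q) ∧ (Q) ≤ (k) ∧ (k + 1) ≤ (n) ∧ (i + l + 2) ≤ (Q) ∧ (n) ≤ (k + l + 1) ∧ (0) ≤ (i2) ∧ (i2) ≤ (i + l + 1))
    (a1 : Par W (0) (j) (k - j))
    (a2 : Par W (Q + j - k) (j) (k - j))
    (s1 : Ant W (0) (i) (i + j))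
    (s2 : Ant W (j + 1) (Q) (i + j))
    (b : Par W (i + 1) (i + l + 1) (k - i))
    (t1 : Ant W (0) (i2) (i + l + i2 + 1))
    (t2 : Ant W (i + l + 2) (Q) (i + l + i2 + 1))
    (c : Par W (i2 + 1) (Q) (k + l - n - i2 + 1))
    (n1 : Nd W (j) (i) (k))
    (n2 : Nd W (i + l + 1) (i2) (k + l - n + 1))
    (b0 : (2 * k + 3) ≤ (n + 2 * Q))
    (b1 : (i + 2 * j + 2) ≤ (k))
    (b2 : (i + k + 2 * l + 1) ≤ (n + 2 * j))
    (b3 : (i + j + l + i2 + 2) ≤ (k))
    (b4 : (2 * Q + k) ≤ (n + 2 * i + l + i2 + 2))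
    (b5 : (n + i + i2) ≤ (j + k + l + 1)) : False := by
  have ev := al.ev
  obtain ⟨y0, y1, y2, y3, y4, y5, y6, y7, y8⟩ := id hy
  have n1p := And.intro n1.p1 n1.p2
  have n2p := And.intro n2.p1 n2.p2
  by_cases z20 : (n + j) ≤ (k + 2 * l + 1)
  · exact l1_100L_14 al mx hL hy a1 a2 s1 s2 b t1 t2 c n1 n2 (by clear * - b0; omega) (by clear * - b2; omega) (by clear * - b3; omega) (by clear * - b4; omega) (by clear * - b5; omega) (by clear * - z20; omega)
  · exact l1_100L_15 al mx hL hy a1 a2 s1 s2 b t1 t2 c n1 n2 (by clear * - b0; omega) (by clear * - b1; omega) (by clear * - b3; omega) (by clear * - b4; omega) (by clear * - b5; omega) (by clear * - z20; omega)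

end Pool.Agent.MP_a38735_al.WL
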