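import Pool.Agent.MP_a38735_al.WQ

set_option autoImplicit false
set_option linter.unusedVariables false

namespace Pool.Agent.MP_a38735_al.WL

variable {G : Type*} [Group G]

theorem l1_010_7 {W : ℤ → G} {n Q i j k l i2 : ℤ} (al : AL W n Q)
    (hy : (0) ≤ (i) ∧ (i) ≤ (j) ∧ (j + 1) ≤ (Q) ∧ (Q) ≤ (k) ∧ (k + 1) ≤ (n) ∧ (Q) ≤ (i + l + 1) ∧ (k + l + 2) ≤ (n) ∧ (Q) ≤ (i2) ∧ (i2) ≤ (k + l + 1))
    (a1 : Par W (0) (j) (k - j))
    (a2 : Par W (Q + j - k) (j) (k - j))
    (s1 : Ant W (0) (i) (i + j))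
    (s2 : Ant W (j + 1) (Q) (i + j))
    (b : Par W (i + 1) (i + l + 1) (k - i))
    (t1 : Ant W (Q) (i2) (k + l + i2 + 1))
    (t2 : Ant W (k + l + 2) (n) (k + l + i2 + 1))
    (c : Par W (i2 + 1) (n) (i + l - i2 + 1))
    (n1 : Nd W (j) (i) (k))
    (n2 : Nd W (k + l + 1) (i2) (i + l + 1))
    (b0 : (k + l + i2 + 3) ≤ (n + 2 * Q))
    (b1 : (2 * i + j + 1) ≤ (k))
    (b2 : (i + l + 2) ≤ (i2))
    (b3 : (l + i2 + 1) ≤ (n + i))
    (b4 : (2 * i2) ≤ (i + k + 2 * l + 3)) : False := by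
  have ev := al.ev
  obtain ⟨y0, y1, y2, y3, y4, y5, y6, y7, y8⟩ := id hy
  have n1p := And.intro n1.p1 n1.p2
  have n2p := And.intro n2.p1 n2.p2
  by_cases z10 : (n + 2 * Q + j) ≤ (2 * k + l + i2 + 1)
  · by_cases z11 : (l + i2 + 2) ≤ (n + j)
    · by_cases z12 : (2 * k + l + 2) ≤ (n + j + i2)
      · have k35 : (n + 2 * Q + j) ≤ (2 * k + l + i2 + 1) := by clear * - z10; omega
        have k36 : (l + i2 + 2) ≤ (n + j) := by clear * - z11; omega
        have k37 : (2 * k + l + 2) ≤ (n + j + i2) := by clear * - z12; omega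
        clear * - al a1 a2 s1 s2 b t1 t2 c n1 n2 ev n1p n2p k35 k36 k37
        obtain ⟨t, ht⟩ : ∃ t, 2 * t = (n + j + l + i2 + 1) := ⟨(n + j + l + i2 + 1) / 2, by omega⟩
        exact al.ninv t (cI (qf a2 al 1 t (t + (k - n - j)) (by omega)) (qa t1 al 0 (t + (k - n - j)) t (by omega)))
      · have k38 : (i + l + 2) ≤ (i2) := by clear * - b2; omega
        have k39 : (k + 1) ≤ (n + j) := by clear * - b0 b2 y1 y5; omega
        have k40 : (j + i2) ≤ (k + 1) := by clear * - y6 z12; omega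
        have k41 : (Q) ≤ (i + l + 1) := by clear * - y5; omega
        have k42 : (i2) ≤ (k + 1) := by clear * - z11 z12; omega
        clear * - al a1 a2 s1 s2 b t1 t2 c n1 n2 ev n1p n2p k38 k39 k40 k41 k42
        exact n2.f1 (rEE (sh al 1 (i2) (n + i2) (by omega)) (sh al 1 (i + l + 1) (n + i + l + 1) (by omega)) (Eq.symm (rotL (i2 - i - l - 1) (n + j - k) (n + i + l + 1) (n + i2) (by omega) (fun t h1 h2 => (cE (pb c al 1 t (t + (i2 - n - i - l - 1)) (by omega)) (sh al 1 (t + (i2 - n - i - l - 1)) (t + (i2 - i - l - 1)) (by omega)))) (fun t h1 h2 => (cE (pb a2 al 1 t (t + (j - n - k)) (by omega)) (sh al 2 (t + (j - n - k)) (t + (n + j - k)) (by omega)))))))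
    · have k43 : (k + l + 2) ≤ (n + j) := by clear * - y0 y1 y6; omega
      have k44 : (n + Q + j) ≤ (k + l + i2 + 1) := by clear * - z10 z11; omega
      have k45 : (n + j) ≤ (l + i2 + 1) := by clear * - z11; omega
      have k46 : (l + i2 + 1) ≤ (n + j) := by clear * - b3 y1; omega
      have k47 : (j) ≤ (i) := by clear * - b3 z11; omega
      have k48 : (i) ≤ (j) := by clear * - y1; omega
      clear * - al a1 a2 s1 s2 b t1 t2 c n1 n2 ev n1p n2p k43 k44 k45 k46 k47 k48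
      exact (n1.f3 (ab t1 al (-1) (j) (k) (by omega))) (sh al 0 (i) (j) (by omega))
  · by_cases z13 : (2 * k + l + i2 + 3) ≤ (2 * n + i)
    · have k49 : (i + l + 2) ≤ (i2) := by clear * - b2; omega
      have k50 : (2 * k + l + i2 + 3) ≤ (2 * n + i) := by clear * - z13; omega
      have k51 : (i + l + 3) ≤ (i2) := by clear * - b2 ev n1p n2p; omega
      have k52 : (i + l + i2 + 3) ≤ (2 * n) := by clear * - b2 b4 z13; omega
      have k53 : (3 * i + l + 3) ≤ (2 * k + i2) := by clear * - b2 b4; omega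
      have k54 : (2 * k + l + 3 * i2 + 3) ≤ (4 * n + i) := by clear * - b2 b4 z13; omega
      clear * - al a1 a2 s1 s2 b t1 t2 c n1 n2 ev n1p n2p k49 k50 k51 k52 k53 k54
      exact midP al (i2 - i - l - 1) (k + l + i2 - 2 * n + 1) (max (i + l - n + 2) (max (k + l - n + 2) (k + l + i2 - 2 * n + 2))) (i + l - n + 2) (0) (by omega) (fun t h1 h2 => (cE (qa t2 al (-1) t ((k + l + i2 - n + 1) - t) (by omega)) (sh al (-1) ((k + l + i2 - n + 1) - t) ((k + l + i2 - 2 * n + 1) - t) (by omega)))) (fun t h1 h2 => (cE (pb c al (-1) t (t + (n + i2 - i - l - 1)) (by omega)) (sh al (-1) (t + (n + i2 - i - l - 1)) (t + (i2 - i - l - 1)) (by omega))))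
    · by_cases z14 : (n + j) ≤ (k + 2 * l + 1)
      · by_cases z15 : (n + 2 * i + l + 1) ≤ (2 * k + i2)
        · have k55 : (2 * k + i2) ≤ (n + 2 * i + j + l) := by clear * - y5 z10; omega
          have k56 : (2 * i + j + l + 2) ≤ (2 * k + i2) := by clear * - b2 b3 b4 z14; omega
          have k57 : (2 * i + j + l + 2) ≤ (2 * k) := by clear * - b1 b2 b3 z14 z15; omega
          have k58 : (i + j + 1) ≤ (k) := by clear * - b1 b2 b3 z14; omega
          have k59 : (n + i) ≤ (k + i2) := by clear * - b2 z13; omega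
          have k60 : (n + 2 * i + l + 1) ≤ (2 * k + i2) := by clear * - z15; omega
          clear * - al a1 a2 s1 s2 b t1 t2 c n1 n2 ev n1p n2p k55 k56 k57 k58 k59 k60
          exact al.ubP (n + 2 * i + j + l - 2 * k - i2 + 1) (by omega) (by omega) fun t h1 h2 => (cE (cE (qf c al (-1) t (t + (n + i + l - i2 + 1)) (by omega)) (pb b al 0 (t + (n + i + l - i2 + 1)) (t + (n + 2 * i + l - k - i2 + 1)) (by omega))) (pb a1 al 0 (t + (n + 2 * i + l - k - i2 + 1)) (t + (n + 2 * i + j + l - 2 * k - i2 + 1)) (by omega)))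
        · by_cases z16 : (n + 2 * i + j + 2) ≤ (2 * Q + k)
          · have k61 : (k + 2) ≤ (n + j) := by clear * - b2 b4 y5 z10; omega
            have k62 : (n + 2 * i + j + 2) ≤ (2 * Q + k) := by clear * - z16; omega
            have k63 : (n + j) ≤ (k + 2 * l + 1) := by clear * - z14; omega
            have k64 : (j + k + 1) ≤ (n + 2 * i) := by clear * - b2 b3 z13 z14 z15; omega
            clear * - al a1 a2 s1 s2 b t1 t2 c n1 n2 ev n1p n2p k61 k62 k63 k64
            obtain ⟨t, ht⟩ : ∃ t, 2 * t = (2 * i + j - n - k) := ⟨(2 * i + j - n - k) / 2, by omega⟩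
            exact al.ninv t (cE (cI (qf b al (-1) t (t + (n + k - i)) (by omega)) (ab s2 al 1 (t + (n + k - i)) ((2 * i + j - k) - t) (by omega))) (sh al (-1) ((2 * i + j - k) - t) t (by omega)))
          · by_cases z17 : (Q + i2) ≤ (2 * i + 2 * l + 2)
            · have k65 : (i + l + 2) ≤ (i2) := by clear * - b2; omega
              have k66 : (i2) ≤ (n + i + l) := by clear * - b2 b3 b4 z13 z15; omega
              have k67 : (i2) ≤ (Q + l) := by clear * - b2 b4 z10 z14; omega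
              have k68 : (i + i2 + 1) ≤ (Q + k) := by clear * - b1 b3 z10 z13 z14 z16; omega
              have k69 : (i + 1) ≤ (Q) := by clear * - b2 b4 z10 z14; omega
              have k70 : (Q) ≤ (i + l + 1) := by clear * - z14 z16; omega
              have k71 : (Q + k + i2) ≤ (n + 2 * i + l + 1) := by clear * - b1 b3 z14 z15 z16 z17; omega
              have k72 : (Q + i2) ≤ (2 * i + 2 * l + 2) := by clear * - z17; omega
              clear * - al a1 a2 s1 s2 b t1 t2 c n1 n2 ev n1p n2p k65 k66 k67 k68 k69 k70 k71 k72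
              exact al.ubQ (i2 - i - l - 1) (by omega) (by omega) fun t h1 h2 => (cE (sh al (-1) t (t + (-n)) (by omega)) (cE (cE (qf b al (-1) (t + (-n)) (t + (k - i)) (by omega)) (pb c al 0 (t + (k - i)) (t + (k + i2 - 2 * i - l - 1)) (by omega))) (pb b al 0 (t + (k + i2 - 2 * i - l - 1)) (t + (i2 - i - l - 1)) (by omega))))
            · by_cases z18 : (2 * j + 2) ≤ (i + k)
              · have k73 : (k) ≤ (i + 2 * j) := by clear * - z10 z13 z16 ev n1p n2p; omega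
                have k74 : (i + 2) ≤ (k) := by clear * - b1 z10 z13 z16 z18; omega
                have k75 : (2 * j + 1) ≤ (i + k) := by clear * - z18; omega
                have k76 : (k) ≤ (i + 2 * j + 1) := by clear * - z10 z13 z16; omega
                clear * - al a1 a2 s1 s2 b t1 t2 c n1 n2 ev n1p n2p k73 k74 k75 k76
                obtain ⟨t, ht⟩ : ∃ t, 2 * t = (i + 2 * j - 2 * n - k) := ⟨(i + 2 * j - 2 * n - k) / 2, by omega⟩
                exact al.ninv t (cE (cE (qa s1 al (-1) t ((i + j - n) - t) (by omega)) (pb a1 al 0 ((i + j - n) - t) ((i + 2 * j - n - k) - t) (by omega))) (sh al (-1) ((i + 2 * j - n - k) - t) t (by omega)))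
              · have k77 : (k + i2 + 1) ≤ (n + i + j + l) := by clear * - b4 z13 z14 z15 z16 z17; omega
                have k78 : (i + l + i2 + 3) ≤ (n + j + k) := by clear * - b3 z14 z16 z17 z18; omega
                have k79 : (n + 3 * i + j + l + 3) ≤ (2 * Q + k + i2) := by clear * - b1 b3 z13 z15 z17; omega
                have k80 : (n + i + j) ≤ (k + l + i2) := by clear * - z14 z16 z17; omega
                have k81 : (j + k + i2) ≤ (n + i + l) := by clear * - b1 b3 z14 z15 z16 z17; omega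
                have k82 : (j + k + i2) ≤ (n + 3 * i + l) := by clear * - b3 z13 z14 z15 z16 z17; omega
                clear * - al a1 a2 s1 s2 b t1 t2 c n1 n2 ev n1p n2p k77 k78 k79 k80 k81 k82
                obtain ⟨t, ht⟩ : ∃ t, 2 * t = (n + 3 * i + j + l - k - i2 + 1) := ⟨(n + 3 * i + j + l - k - i2 + 1) / 2, by omega⟩
                exact al.ninv t (cI (cE (qf b al 0 t (t + (k - i)) (by omega)) (pb c al 0 (t + (k - i)) (t + (k + i2 - 2 * i - l - 1)) (by omega))) (ab s2 al 1 (t + (k + i2 - 2 * i - l - 1)) t (by omega)))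
      · have k83 : (2 * k + i2) ≤ (n + 2 * i + j + l) := by clear * - y5 z10; omega
        have k84 : (2 * i + j + l + 2) ≤ (2 * k + i2) := by clear * - b0 b1 b3 y7 z13; omega
        have k85 : (2 * i + j + l + 2) ≤ (2 * k) := by clear * - b1 b2 b3 z13; omega
        have k86 : (i + j + 1) ≤ (k) := by clear * - b1 b3 y2 y5 z13 z14; omega
        have k87 : (n + i) ≤ (k + i2) := by clear * - b2 z13; omega
        have k88 : (n + 2 * i + l + 1) ≤ (2 * k + i2) := by clear * - b1 b2 b3 z13 z14; omega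
        clear * - al a1 a2 s1 s2 b t1 t2 c n1 n2 ev n1p n2p k83 k84 k85 k86 k87 k88
        exact al.ubP (n + 2 * i + j + l - 2 * k - i2 + 1) (by omega) (by omega) fun t h1 h2 => (cE (sh al 1 t (t + (n)) (by omega)) (cE (cE (qf c al 0 (t + (n)) (t + (n + i + l - i2 + 1)) (by omega)) (pb b al 0 (t + (n + i + l - i2 + 1)) (t + (n + 2 * i + l - k - i2 + 1)) (by omega))) (pb a1 al 0 (t + (n + 2 * i + l - k - i2 + 1)) (t + (n + 2 * i + j + l - 2 * k - i2 + 1)) (by omega))))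

theorem l1_010_6 {W : ℤ → G} {n Q i j k l i2 : ℤ} (al : AL W n Q)
    (hy : (0) ≤ (i) ∧ (i) ≤ (j) ∧ (j + 1) ≤ (Q) ∧ (Q) ≤ (k) ∧ (k + 1) ≤ (n) ∧ (Q) ≤ (i + l + 1) ∧ (k + l + 2) ≤ (n) ∧ (Q) ≤ (i2) ∧ (i2) ≤ (k + l + 1))
    (a1 : Par W (0) (j) (k - j))
    (a2 : Par W (Q + j - k) (j) (k - j))
    (s1 : Ant W (0) (i) (i + j))
    (s2 : Ant W (j + 1) (Q) (i + j))
    (b : Par W (i + 1) (i + l + 1) (k - i))
    (t1 : Ant W (Q) (i2) (k + l + i2 + 1))
    (t2 : Ant W (k + l + 2) (n) (k + l + i2 + 1))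
    (c : Par W (i2 + 1) (n) (i + l - i2 + 1))
    (n1 : Nd W (j) (i) (k))
    (n2 : Nd W (k + l + 1) (i2) (i + l + 1))
    (b0 : (k + l + i2 + 3) ≤ (n + 2 * Q))
    (b1 : (2 * i + j + 1) ≤ (k))
    (b2 : (l + i2 + 1) ≤ (n + i))
    (b3 : (i + k + 2 * l + 4) ≤ (2 * i2)) : False := by
  have ev := al.ev
  obtain ⟨y0, y1, y2, y3, y4, y5, y6, y7, y8⟩ := id hy
  have n1p := And.intro n1.p1 n1.p2
  have n2p := And.intro n2.p1 n2.p2
  by_cases z7 : (k + 2 * i2 + 2) ≤ (2 * n + i)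
  · have k18 : (k + 2 * i2 + 2) ≤ (2 * n + i) := by clear * - z7; omega
    have k19 : (i + k + 2 * l + 3) ≤ (2 * i2) := by clear * - b3; omega
    have k20 : (i + 1) ≤ (k) := by clear * - b3 y8; omega
    clear * - al a1 a2 s1 s2 b t1 t2 c n1 n2 ev n1p n2p k18 k19 k20
    obtain ⟨t, ht⟩ : ∃ t, 2 * t = (2 * n + i + k + 2 * l + 2) := ⟨(2 * n + i + k + 2 * l + 2) / 2, by omega⟩
    exact al.ninv t (cE (cE (ab t2 al 1 t ((n + k + l + i2 + 1) - t) (by omega)) (qf c al 0 ((n + k + l + i2 + 1) - t) ((n + i + k + 2 * l + 2) - t) (by omega))) (sh al 1 ((n + i + k + 2 * l + 2) - t) t (by omega)))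
  · by_cases z8 : (l + i2 + 3) ≤ (n + j)
    · have k21 : (n + 2 * Q + j) ≤ (2 * k + l + i2 + 1) := by clear * - b1 b2 y5 z7; omega
      have k22 : (l + i2 + 3) ≤ (n + j) := by clear * - z8; omega
      have k23 : (2 * k + l + 2) ≤ (n + j + i2) := by clear * - b0 b3 y1 y5; omega
      have k24 : (n) ≤ (j + l + i2 + 2) := by clear * - b0 y1 y5 z7; omega
      clear * - al a1 a2 s1 s2 b t1 t2 c n1 n2 ev n1p n2p k21 k22 k23 k24
      obtain ⟨t, ht⟩ : ∃ t, 2 * t = (n + 2 * k + l + i2 - j + 1) := ⟨(n + 2 * k + l + i2 - j + 1) / 2, by omega⟩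
      exact al.ninv t (cE (cE (qa t1 al 1 t ((n + k + l + i2 + 1) - t) (by omega)) (qf a1 al 1 ((n + k + l + i2 + 1) - t) ((2 * k + l + i2 - j + 1) - t) (by omega))) (sh al 1 ((2 * k + l + i2 - j + 1) - t) t (by omega)))
    · by_cases z9 : (n + i) ≤ (l + i2 + 1)
      · have k25 : (k + l + 2) ≤ (n + j) := by clear * - b0 b2 b3 y1 y5; omega
        have k26 : (n + Q + j) ≤ (k + l + i2 + 1) := by clear * - b1 b2 y5 z7 z8; omega
        have k27 : (n + j) ≤ (l + i2 + 1) := by clear * - z8 ev n1p n2p; omega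
        have k28 : (l + i2 + 1) ≤ (n + j) := by clear * - b2 y1; omega
        have k29 : (j) ≤ (i) := by clear * - b2 z8 ev n1p n2p; omega
        have k30 : (i) ≤ (j) := by clear * - y1; omega
        clear * - al a1 a2 s1 s2 b t1 t2 c n1 n2 ev n1p n2p k25 k26 k27 k28 k29 k30
        exact (n1.f3 (ab t1 al (-1) (j) (k) (by omega))) (sh al 0 (i) (j) (by omega))
      · have k31 : (n) ≤ (j + l + i2 + 1) := by clear * - b0 y1 y5 z7; omega
        have k32 : (n + 2 * Q + j) ≤ (2 * k + l + i2 + 1) := by clear * - b1 y5 z7 z9; omega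
        have k33 : (l + i2 + 2) ≤ (n + j) := by clear * - y1 z9; omega
        have k34 : (2 * k + l + 2) ≤ (n + j + i2) := by clear * - b0 b3 y1 y5; omega
        clear * - al a1 a2 s1 s2 b t1 t2 c n1 n2 ev n1p n2p k31 k32 k33 k34
        obtain ⟨t, ht⟩ : ∃ t, 2 * t = (j + l + i2 - n + 1) := ⟨(j + l + i2 - n + 1) / 2, by omega⟩
        exact al.ninv t (cE (cI (qf a1 al 0 t (t + (k - j)) (by omega)) (qa t1 al 0 (t + (k - j)) ((j + l + i2 + 1) - t) (by omega))) (sh al (-1) ((j + l + i2 + 1) - t) t (by omega)))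

theorem l1_010_5 {W : ℤ → G} {n Q i j k l i2 : ℤ} (al : AL W n Q)
    (hy : (0) ≤ (i) ∧ (i) ≤ (j) ∧ (j + 1) ≤ (Q) ∧ (Q) ≤ (k) ∧ (k + 1) ≤ (n) ∧ (Q) ≤ (i + l + 1) ∧ (k + l + 2) ≤ (n) ∧ (Q) ≤ (i2) ∧ (i2) ≤ (k + l + 1))
    (a1 : Par W (0) (j) (k - j))
    (a2 : Par W (Q + j - k) (j) (k - j))
    (s1 : Ant W (0) (i) (i + j))
    (s2 : Ant W (j + 1) (Q) (i + j))
    (b : Par W (i + 1) (i + l + 1) (k - i))
    (t1 : Ant W (Q) (i2) (k + l + i2 + 1))
    (t2 : Ant W (k + l + 2) (n) (k + l + i2 + 1))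
    (c : Par W (i2 + 1) (n) (i + l - i2 + 1))
    (n1 : Nd W (j) (i) (k))
    (n2 : Nd W (k + l + 1) (i2) (i + l + 1))
    (b0 : (k + l + i2 + 3) ≤ (n + 2 * Q))
    (b1 : (2 * i + j + 1) ≤ (k))
    (b2 : (i + l + 2) ≤ (i2))
    (b3 : (l + i2 + 1) ≤ (n + i)) : False := by
  have ev := al.ev
  obtain ⟨y0, y1, y2, y3, y4, y5, y6, y7, y8⟩ := id hy
  have n1p := And.intro n1.p1 n1.p2
  have n2p := And.intro n2.p1 n2.p2
  by_cases z6 : (i + k + 2 * l + 4) ≤ (2 * i2)
  · exact l1_010_6 al hy a1 a2 s1 s2 b t1 t2 c n1 n2 (by clear * - b0; omega) (by clear * - b1; omega) (by clear * - b3; omega) (by clear * - z6; omega)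
  · exact l1_010_7 al hy a1 a2 s1 s2 b t1 t2 c n1 n2 (by clear * - b0; omega) (by clear * - b1; omega) (by clear * - b2; omega) (by clear * - b3; omega) (by clear * - z6; omega)

theorem l1_010_4 {W : ℤ → G} {n Q i j k l i2 : ℤ} (al : AL W n Q)
    (hy : (0) ≤ (i) ∧ (i) ≤ (j) ∧ (j + 1) ≤ (Q) ∧ (Q) ≤ (k) ∧ (k + 1) ≤ (n) ∧ (Q) ≤ (i + l + 1) ∧ (k + l + 2) ≤ (n) ∧ (Q) ≤ (i2) ∧ (i2) ≤ (k + l + 1))
    (a1 : Par W (0) (j) (k - j))
    (a2 : Par W (Q + j - k) (j) (k - j))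
    (s1 : Ant W (0) (i) (i + j))
    (s2 : Ant W (j + 1) (Q) (i + j))
    (b : Par W (i + 1) (i + l + 1) (k - i))
    (t1 : Ant W (Q) (i2) (k + l + i2 + 1))
    (t2 : Ant W (k + l + 2) (n) (k + l + i2 + 1))
    (c : Par W (i2 + 1) (n) (i + l - i2 + 1))
    (n1 : Nd W (j) (i) (k))
    (n2 : Nd W (k + l + 1) (i2) (i + l + 1))
    (b0 : (k + l + i2 + 3) ≤ (n + 2 * Q))
    (b1 : (2 * i + j + 1) ≤ (k))
    (b2 : (i + l + 2) ≤ (i2)) : False := by
  have ev := al.ev
  obtain ⟨y0, y1, y2, y3, y4, y5, y6, y7, y8⟩ := id hy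
  have n1p := And.intro n1.p1 n1.p2
  have n2p := And.intro n2.p1 n2.p2
  by_cases z5 : (n + i) ≤ (l + i2)
  · have k14 : (2 * k + l + 3) ≤ (n + i + i2) := by clear * - y0 y6 z5; omega
    have k15 : (i2 + 1) ≤ (n + i + l) := by clear * - b0 b2 y5 y8; omega
    have k16 : (n + 2 * Q + i) ≤ (2 * k + l + i2 + 2) := by clear * - y3 z5; omega
    have k17 : (n + i) ≤ (l + i2) := by clear * - z5; omega
    clear * - al a1 a2 s1 s2 b t1 t2 c n1 n2 ev n1p n2p k14 k15 k16 k17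
    obtain ⟨t, ht⟩ : ∃ t, 2 * t = (n + i + l + i2 + 1) := ⟨(n + i + l + i2 + 1) / 2, by omega⟩
    exact al.ninv t (cE (cE (ab t1 al 0 t ((k + l + i2 + 1) - t) (by omega)) (pb b al 0 ((k + l + i2 + 1) - t) ((i + l + i2 + 1) - t) (by omega))) (sh al 1 ((i + l + i2 + 1) - t) t (by omega)))
  · exact l1_010_5 al hy a1 a2 s1 s2 b t1 t2 c n1 n2 (by clear * - b0; omega) (by clear * - b1; omega) (by clear * - b2; omega) (by clear * - z5; omega)

theorem l1_010_3 {W : ℤ → G} {n Q i j k l i2 : ℤ} (al : AL W n Q)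
    (hy : (0) ≤ (i) ∧ (i) ≤ (j) ∧ (j + 1) ≤ (Q) ∧ (Q) ≤ (k) ∧ (k + 1) ≤ (n) ∧ (Q) ≤ (i + l + 1) ∧ (k + l + 2) ≤ (n) ∧ (Q) ≤ (i2) ∧ (i2) ≤ (k + l + 1))
    (a1 : Par W (0) (j) (k - j))
    (a2 : Par W (Q + j - k) (j) (k - j))
    (s1 : Ant W (0) (i) (i + j))
    (s2 : Ant W (j + 1) (Q) (i + j))
    (b : Par W (i + 1) (i + l + 1) (k - i))
    (t1 : Ant W (Q) (i2) (k + l + i2 + 1))
    (t2 : Ant W (k + l + 2) (n) (k + l + i2 + 1))
    (c : Par W (i2 + 1) (n) (i + l - i2 + 1))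
    (n1 : Nd W (j) (i) (k))
    (n2 : Nd W (k + l + 1) (i2) (i + l + 1))
    (b0 : (i + l + 1) ≤ (i2))
    (b1 : (k + l + i2 + 3) ≤ (n + 2 * Q))
    (b2 : (2 * i + j + 1) ≤ (k)) : False := by
  have ev := al.ev
  obtain ⟨y0, y1, y2, y3, y4, y5, y6, y7, y8⟩ := id hy
  have n1p := And.intro n1.p1 n1.p2
  have n2p := And.intro n2.p1 n2.p2
  by_cases z4 : (i2) ≤ (i + l + 1)
  · have k12 : (i + l + 1) ≤ (i2) := by clear * - b0; omega
    have k13 : (i2) ≤ (i + l + 1) := by clear * - z4; omega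
    clear * - al a1 a2 s1 s2 b t1 t2 c n1 n2 ev n1p n2p k12 k13
    exact n2.f1 (sh al 0 (i2) (i + l + 1) (by omega))
  · exact l1_010_4 al hy a1 a2 s1 s2 b t1 t2 c n1 n2 (by clear * - b1; omega) (by clear * - b2; omega) (by clear * - z4; omega)

theorem l1_010_2 {W : ℤ → G} {n Q i j k l i2 : ℤ} (al : AL W n Q)
    (hy : (0) ≤ (i) ∧ (i) ≤ (j) ∧ (j + 1) ≤ (Q) ∧ (Q) ≤ (k) ∧ (k + 1) ≤ (n) ∧ (Q) ≤ (i + l + 1) ∧ (k + l + 2) ≤ (n) ∧ (Q) ≤ (i2) ∧ (i2) ≤ (k + l + 1))
    (a1 : Par W (0) (j) (k - j))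
    (a2 : Par W (Q + j - k) (j) (k - j))
    (s1 : Ant W (0) (i) (i + j))
    (s2 : Ant W (j + 1) (Q) (i + j))
    (b : Par W (i + 1) (i + l + 1) (k - i))
    (t1 : Ant W (Q) (i2) (k + l + i2 + 1))
    (t2 : Ant W (k + l + 2) (n) (k + l + i2 + 1))
    (c : Par W (i2 + 1) (n) (i + l - i2 + 1))
    (n1 : Nd W (j) (i) (k))
    (n2 : Nd W (k + l + 1) (i2) (i + l + 1))
    (b0 : (i + l + 1) ≤ (i2))
    (b1 : (k + l + i2 + 3) ≤ (n + 2 * Q)) : False := by
  have ev := al.ev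
  obtain ⟨y0, y1, y2, y3, y4, y5, y6, y7, y8⟩ := id hy
  have n1p := And.intro n1.p1 n1.p2
  have n2p := And.intro n2.p1 n2.p2
  by_cases z3 : (k) ≤ (2 * i + j)
  · have k6 : (j + 1) ≤ (k) := by clear * - y2 y3; omega
    have k7 : (k) ≤ (2 * i + j) := by clear * - z3; omega
    have k8 : (k) ≤ (2 * i + 3 * j + 2) := by clear * - b0 y1 y8 z3; omega
    have k9 : (0) ≤ (j + k) := by clear * - b0 y8 z3; omega
    have k10 : (j + 2) ≤ (k) := by clear * - y2 y3 ev n1p n2p; omega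
    have k11 : (2 * i + j + 2) ≤ (3 * k) := by clear * - y1 y2 y3; omega
    clear * - al a1 a2 s1 s2 b t1 t2 c n1 n2 ev n1p n2p k6 k7 k8 k9 k10 k11
    exact midP al (k - j) (i + j) (max (i + j - k + 1) (0)) (0) (k) (by omega) (fun t h1 h2 => (qa s1 al 0 t ((i + j) - t) (by omega))) (fun t h1 h2 => (qf a1 al 0 t (t + (k - j)) (by omega)))
  · exact l1_010_3 al hy a1 a2 s1 s2 b t1 t2 c n1 n2 (by clear * - b0; omega) (by clear * - b1; omega) (by clear * - z3; omega)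

theorem l1_010_1 {W : ℤ → G} {n Q i j k l i2 : ℤ} (al : AL W n Q)
    (hy : (0) ≤ (i) ∧ (i) ≤ (j) ∧ (j + 1) ≤ (Q) ∧ (Q) ≤ (k) ∧ (k + 1) ≤ (n) ∧ (Q) ≤ (i + l + 1) ∧ (k + l + 2) ≤ (n) ∧ (Q) ≤ (i2) ∧ (i2) ≤ (k + l + 1))
    (a1 : Par W (0) (j) (k - j))
    (a2 : Par W (Q + j - k) (j) (k - j))
    (s1 : Ant W (0) (i) (i + j))
    (s2 : Ant W (j + 1) (Q) (i + j))
    (b : Par W (i + 1) (i + l + 1) (k - i))
    (t1 : Ant W (Q) (i2) (k + l + i2 + 1))
    (t2 : Ant W (k + l + 2) (n) (k + l + i2 + 1))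
    (c : Par W (i2 + 1) (n) (i + l - i2 + 1))
    (n1 : Nd W (j) (i) (k))
    (n2 : Nd W (k + l + 1) (i2) (i + l + 1))
    (b0 : (i + l + 1) ≤ (i2)) : False := by
  have ev := al.ev
  obtain ⟨y0, y1, y2, y3, y4, y5, y6, y7, y8⟩ := id hy
  have n1p := And.intro n1.p1 n1.p2
  have n2p := And.intro n2.p1 n2.p2
  by_cases z2 : (n + 2 * Q) ≤ (k + l + i2 + 2)
  · have k4 : (k + l + 2) ≤ (n) := by clear * - y6; omega
    have k5 : (n + 2 * Q) ≤ (k + l + i2 + 2) := by clear * - z2; omega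
    clear * - al a1 a2 s1 s2 b t1 t2 c n1 n2 ev n1p n2p k4 k5
    exact al.auU (k + l + i2 - n + 1) fun t h1 h2 => (ab t1 al (-1) t ((k + l + i2 - n + 1) - t) (by omega))
  · exact l1_010_2 al hy a1 a2 s1 s2 b t1 t2 c n1 n2 (by clear * - b0; omega) (by clear * - z2; omega)

theorem l1_010 {W : ℤ → G} {n Q i j k l i2 : ℤ} (al : AL W n Q)
    (hy : (0) ≤ (i) ∧ (i) ≤ (j) ∧ (j + 1) ≤ (Q) ∧ (Q) ≤ (k) ∧ (k + 1) ≤ (n) ∧ (Q) ≤ (i + l + 1) ∧ (k + l + 2) ≤ (n) ∧ (Q) ≤ (i2) ∧ (i2) ≤ (k + l + 1))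
    (a1 : Par W (0) (j) (k - j))
    (a2 : Par W (Q + j - k) (j) (k - j))
    (s1 : Ant W (0) (i) (i + j))
    (s2 : Ant W (j + 1) (Q) (i + j))
    (b : Par W (i + 1) (i + l + 1) (k - i))
    (t1 : Ant W (Q) (i2) (k + l + i2 + 1))
    (t2 : Ant W (k + l + 2) (n) (k + l + i2 + 1))
    (c : Par W (i2 + 1) (n) (i + l - i2 + 1))
    (n1 : Nd W (j) (i) (k))
    (n2 : Nd W (k + l + 1) (i2) (i + l + 1)) : False := by
  have ev := al.ev
  obtain ⟨y0, y1, y2, y3, y4, y5, y6, y7, y8⟩ := id hy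
  have n1p := And.intro n1.p1 n1.p2
  have n2p := And.intro n2.p1 n2.p2
  by_cases z1 : (i2) ≤ (i + l)
  · have k1 : (i2) ≤ (i + l) := by clear * - z1; omega
    have k2 : (i + l + 2) ≤ (n + i2) := by clear * - y0 y1 y2 y3 y6 y7; omega
    have k3 : (i + l + 2) ≤ (n) := by clear * - y1 y2 y3 y6; omega
    clear * - al a1 a2 s1 s2 b t1 t2 c n1 n2 ev n1p n2p k1 k2 k3
    exact al.ubP (i + l - i2 + 1) (by omega) (by omega) fun t h1 h2 => (cE (qf c al (-1) t (t + (n + i + l - i2 + 1)) (by omega)) (sh al (-1) (t + (n + i + l - i2 + 1)) (t + (i + l - i2 + 1)) (by omega)))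
  · exact l1_010_1 al hy a1 a2 s1 s2 b t1 t2 c n1 n2 (by clear * - z1; omega)

theorem l1_011 {W : ℤ → G} {n Q i j k l i2 : ℤ} (al : AL W n Q)
    (hy : (0) ≤ (i) ∧ (i) ≤ (j) ∧ (j + 1) ≤ (Q) ∧ (Q) ≤ (k) ∧ (k + 1) ≤ (n) ∧ (Q) ≤ (i + l + 1) ∧ (k + l + 2) ≤ (n) ∧ (Q) ≤ (i2) ∧ (i2) ≤ (k + l + 1))
    (a1 : Par W (0) (j) (k - j))
    (a2 : Par W (Q + j - k) (j) (k - j))
    (s1 : Ant W (0) (i) (i + j))
    (s2 : Ant W (j + 1) (Q) (i + j))
    (b : Par W (i + 1) (i + l + 1) (k - i))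
    (t1 : Ant W (Q) (i2) (k + l + i2 + 1))
    (t2 : Ant W (k + l + 2) (n) (k + l + i2 + 1))
    (c : Par W (i + l + 2) (n) (i2 - i - l - 1))
    (n1 : Nd W (j) (i) (k))
    (n2 : Nd W (k + l + 1) (i2) (i + l + 1)) : False := by
  have ev := al.ev
  obtain ⟨y0, y1, y2, y3, y4, y5, y6, y7, y8⟩ := id hy
  have n1p := And.intro n1.p1 n1.p2
  have n2p := And.intro n2.p1 n2.p2
  by_cases z1 : (i + l + 2) ≤ (i2)
  · have k1 : (i + l + 2) ≤ (i2) := by clear * - z1; omega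
    have k2 : (i2) ≤ (n + i + l) := by clear * - y0 y4 y8; omega
    have k3 : (i2 + 1) ≤ (n) := by clear * - y6 y8; omega
    clear * - al a1 a2 s1 s2 b t1 t2 c n1 n2 ev n1p n2p k1 k2 k3
    exact al.ubP (i2 - i - l - 1) (by omega) (by omega) fun t h1 h2 => (cE (qf c al (-1) t (t + (n + i2 - i - l - 1)) (by omega)) (sh al (-1) (t + (n + i2 - i - l - 1)) (t + (i2 - i - l - 1)) (by omega)))
  · by_cases z2 : (i2) ≤ (i + l)
    · have k4 : (i2) ≤ (i + l) := by clear * - z2; omega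
      have k5 : (i + 1) ≤ (k) := by clear * - y1 y2 y3; omega
      have k6 : (k + l) ≤ (n) := by clear * - y6; omega
      have k7 : (i + 1) ≤ (i2) := by clear * - y1 y2 y7; omega
      clear * - al a1 a2 s1 s2 b t1 t2 c n1 n2 ev n1p n2p k4 k5 k6 k7
      exact n2.f1 (rEE (sh al 1 (i2) (n + i2) (by omega)) (sh al 1 (i + l + 1) (n + i + l + 1) (by omega)) (rotL (i + l - i2 + 1) (k - i) (n + i2) (n + i + l + 1) (by omega) (fun t h1 h2 => (cE (pb c al 1 t (t + (i + l - n - i2 + 1)) (by omega)) (sh al 1 (t + (i + l - n - i2 + 1)) (t + (i + l - i2 + 1)) (by omega)))) (fun t h1 h2 => (cE (qf b al 1 t (t + (k - n - i)) (by omega)) (sh al 1 (t + (k - n - i)) (t + (k - i)) (by omega))))))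
    · have k8 : (i + l + 1) ≤ (i2) := by clear * - z2; omega
      have k9 : (i2) ≤ (i + l + 1) := by clear * - z1; omega
      clear * - al a1 a2 s1 s2 b t1 t2 c n1 n2 ev n1p n2p k8 k9
      exact n2.f1 (sh al 0 (i2) (i + l + 1) (by omega))

theorem l1_101 {W : ℤ → G} {n Q i j k l i2 : ℤ} (al : AL W n Q)
    (hy : (0) ≤ (i) ∧ (i) ≤ (j) ∧ (j + 1) ≤ (Q) ∧ (Q) ≤ (k) ∧ (k + 1) ≤ (n) ∧ (i + l + 2) ≤ (Q) ∧ (n) ≤ (k + l + 1) ∧ (0) ≤ (i2) ∧ (i2) ≤ (i + l + 1))
    (a1 : Par W (0) (j) (k - j))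
    (a2 : Par W (Q + j - k) (j) (k - j))
    (s1 : Ant W (0) (i) (i + j))
    (s2 : Ant W (j + 1) (Q) (i + j))
    (b : Par W (i + 1) (i + l + 1) (k - i))
    (t1 : Ant W (0) (i2) (i + l + i2 + 1))
    (t2 : Ant W (i + l + 2) (Q) (i + l + i2 + 1))
    (c : Par W (k + l - n + 2) (Q) (n + i2 - k - l - 1))
    (n1 : Nd W (j) (i) (k))
    (n2 : Nd W (i + l + 1) (i2) (k + l - n + 1)) : False := by
  have ev := al.ev
  obtain ⟨y0, y1, y2, y3, y4, y5, y6, y7, y8⟩ := id hy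
  have n1p := And.intro n1.p1 n1.p2
  have n2p := And.intro n2.p1 n2.p2
  by_cases z1 : (n) ≤ (j + l + 3)
  · have k1 : (k + 1) ≤ (n + i) := by clear * - y0 y4; omega
    have k2 : (j + 1) ≤ (k) := by clear * - y2 y3; omega
    have k3 : (k) ≤ (j + l + 2) := by clear * - y4 z1; omega
    have k4 : (n) ≤ (j + l + 3) := by clear * - z1; omega
    have k5 : (i + l + 2) ≤ (k) := by clear * - y3 y5; omega
    clear * - al a1 a2 s1 s2 b t1 t2 c n1 n2 ev n1p n2p k1 k2 k3 k4 k5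
    exact n2.f0 (rEE (sh al 1 (i + l + 1) (n + i + l + 1) (by omega)) (sh al 1 (k + l - n + 1) (k + l + 1) (by omega)) (Eq.symm (rotR (n + i - k) (k - j) (k + l + 1) (n + i + l + 1) (by omega) (fun t h1 h2 => (cE (pb b al 0 t (t + (i - k)) (by omega)) (sh al 1 (t + (i - k)) (t + (n + i - k)) (by omega)))) (fun t h1 h2 => (cE (qf a1 al 1 t (t + (k - n - j)) (by omega)) (sh al 1 (t + (k - n - j)) (t + (k - j)) (by omega)))))))
  · by_cases z2 : (n + i + j + 1) ≤ (2 * Q)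
    · have k6 : (j + 2) ≤ (n + i) := by clear * - y7 y8 z1; omega
      have k7 : (n + i + j + 1) ≤ (2 * Q) := by clear * - z2; omega
      clear * - al a1 a2 s1 s2 b t1 t2 c n1 n2 ev n1p n2p k6 k7
      obtain ⟨t, ht⟩ : ∃ t, 2 * t = (i + j - n) := ⟨(i + j - n) / 2, by omega⟩
      exact al.ninv t (qa s2 al (-1) t t (by omega))
    · by_cases z3 : (k + l + 2) ≤ (n + i2)
      · have k8 : (k + l + 2) ≤ (n + i2) := by clear * - z3; omega
        have k9 : (i2) ≤ (k + l) := by clear * - y3 y4 y5 y6 y8; omega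
        have k10 : (i2 + 1) ≤ (Q) := by clear * - y5 y8; omega
        clear * - al a1 a2 s1 s2 b t1 t2 c n1 n2 ev n1p n2p k8 k9 k10
        exact al.ubQ (n + i2 - k - l - 1) (by omega) (by omega) fun t h1 h2 => (cE (sh al (-1) t (t + (-n)) (by omega)) (qf c al (-1) (t + (-n)) (t + (n + i2 - k - l - 1)) (by omega)))
      · by_cases z4 : (k + l + 1) ≤ (n + i2)
        · have k11 : (k + l + 1) ≤ (n + i2) := by clear * - z4; omega
          have k12 : (n + i2) ≤ (k + l + 1) := by clear * - z3; omega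
          clear * - al a1 a2 s1 s2 b t1 t2 c n1 n2 ev n1p n2p k11 k12
          exact n2.f1 (sh al 0 (i2) (k + l - n + 1) (by omega))
        · have k13 : (n + i2) ≤ (k + l) := by clear * - z4; omega
          have k14 : (k + 1) ≤ (n + i) := by clear * - y0 y4; omega
          have k15 : (i + l) ≤ (Q) := by clear * - y5; omega
          have k16 : (k + 1) ≤ (n + i2) := by clear * - y4 y7; omega
          clear * - al a1 a2 s1 s2 b t1 t2 c n1 n2 ev n1p n2p k13 k14 k15 k16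
          exact n2.f1 (rEE (sh al 1 (i2) (n + i2) (by omega)) (sh al 1 (k + l - n + 1) (k + l + 1) (by omega)) (rotL (k + l - n - i2 + 1) (n + i - k) (n + i2) (k + l + 1) (by omega) (fun t h1 h2 => (cE (pb c al 1 t (t + (k + l - 2 * n - i2 + 1)) (by omega)) (sh al 1 (t + (k + l - 2 * n - i2 + 1)) (t + (k + l - n - i2 + 1)) (by omega)))) (fun t h1 h2 => (cE (pb b al 0 t (t + (i - k)) (by omega)) (sh al 1 (t + (i - k)) (t + (n + i - k)) (by omega))))))

theorem l1_110 {W : ℤ → G} {n Q i j k l i2 : ℤ} (al : AL W n Q)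
    (hy : (0) ≤ (i) ∧ (i) ≤ (j) ∧ (j + 1) ≤ (Q) ∧ (Q) ≤ (k) ∧ (k + 1) ≤ (n) ∧ (i + l + 2) ≤ (Q) ∧ (n) ≤ (k + l + 1) ∧ (0) ≤ (i2) ∧ (n + i2) ≤ (k + l + 1))
    (a1 : Par W (0) (j) (k - j))
    (a2 : Par W (Q + j - k) (j) (k - j))
    (s1 : Ant W (0) (i) (i + j))
    (s2 : Ant W (j + 1) (Q) (i + j))
    (b : Par W (i + 1) (i + l + 1) (k - i))
    (t1 : Ant W (0) (i2) (k + l + i2 - n + 1))
    (t2 : Ant W (k + l - n + 2) (Q) (k + l + i2 - n + 1))
    (c : Par W (i2 + 1) (Q) (i + l - i2 + 1))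
    (n1 : Nd W (j) (i) (k))
    (n2 : Nd W (k + l - n + 1) (i2) (i + l + 1)) : False := by
  have ev := al.ev
  obtain ⟨y0, y1, y2, y3, y4, y5, y6, y7, y8⟩ := id hy
  have n1p := And.intro n1.p1 n1.p2
  have n2p := And.intro n2.p1 n2.p2
  have k1 : (i2) ≤ (i + l) := by clear * - y0 y4 y8; omega
  have k2 : (i + l + 2) ≤ (n + i2) := by clear * - y3 y4 y5 y7; omega
  have k3 : (i + l + 2) ≤ (Q) := by clear * - y5; omega
  clear * - al a1 a2 s1 s2 b t1 t2 c n1 n2 ev n1p n2p k1 k2 k3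
  exact al.ubQ (i + l - i2 + 1) (by omega) (by omega) fun t h1 h2 => (cE (sh al (-1) t (t + (-n)) (by omega)) (qf c al (-1) (t + (-n)) (t + (i + l - i2 + 1)) (by omega)))

theorem l1_111 {W : ℤ → G} {n Q i j k l i2 : ℤ} (al : AL W n Q)
    (hy : (0) ≤ (i) ∧ (i) ≤ (j) ∧ (j + 1) ≤ (Q) ∧ (Q) ≤ (k) ∧ (k + 1) ≤ (n) ∧ (i + l + 2) ≤ (Q) ∧ (n) ≤ (k + l + 1) ∧ (0) ≤ (i2) ∧ (n + i2) ≤ (k + l + 1))
    (a1 : Par W (0) (j) (k - j))
    (a2 : Par W (Q + j - k) (j) (k - j))
    (s1 : Ant W (0) (i) (i + j))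
    (s2 : Ant W (j + 1) (Q) (i + j))
    (b : Par W (i + 1) (i + l + 1) (k - i))
    (t1 : Ant W (0) (i2) (k + l + i2 - n + 1))
    (t2 : Ant W (k + l - n + 2) (Q) (k + l + i2 - n + 1))
    (c : Par W (i + l + 2) (Q) (i2 - i - l - 1))
    (n1 : Nd W (j) (i) (k))
    (n2 : Nd W (k + l - n + 1) (i2) (i + l + 1)) : False := by
  have ev := al.ev
  obtain ⟨y0, y1, y2, y3, y4, y5, y6, y7, y8⟩ := id hy
  have n1p := And.intro n1.p1 n1.p2
  have n2p := And.intro n2.p1 n2.p2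
  by_cases z1 : (k + l + i2 + 2) ≤ (2 * Q)
  · have k1 : (k + l + 3) ≤ (2 * n + i2) := by clear * - y3 y4 y7 z1; omega
    have k2 : (k + l + i2 + 2) ≤ (2 * Q) := by clear * - z1; omega
    clear * - al a1 a2 s1 s2 b t1 t2 c n1 n2 ev n1p n2p k1 k2
    obtain ⟨t, ht⟩ : ∃ t, 2 * t = (k + l + i2 - 2 * n + 1) := ⟨(k + l + i2 - 2 * n + 1) / 2, by omega⟩
    exact al.ninv t (qa t2 al (-1) t t (by omega))
  · by_cases z2 : (i + k + 2) ≤ (n + 2 * i2)
    · have k3 : (k + 1) ≤ (n + i) := by clear * - y0 y4; omega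
      have k4 : (i + k + 2 * l + 4) ≤ (n + 2 * Q) := by clear * - y0 y4 y5; omega
      have k5 : (i + k + 2) ≤ (n + 2 * i2) := by clear * - z2; omega
      have k6 : (k + 2) ≤ (n + i) := by clear * - y0 y4 ev n1p n2p; omega
      have k7 : (i + k + 2) ≤ (n + 2 * Q) := by clear * - y0 y4 y5 y8 z2; omega
      have k8 : (i + k) ≤ (n + 2 * l + 2 * i2) := by clear * - y4 y7 y8 z2; omega
      have k9 : (k) ≤ (n + i + 2 * l) := by clear * - y0 y4 y8 z2; omega
      have k10 : (k + 2 * i2 + 2) ≤ (n + 2 * Q + i) := by clear * - y0 y4 y5 y8; omega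
      have k11 : (k + 2 * i2) ≤ (n + 3 * i + 2 * l) := by clear * - y0 y4 y8; omega
      clear * - al a1 a2 s1 s2 b t1 t2 c n1 n2 ev n1p n2p k3 k4 k5 k6 k7 k8 k9 k10 k11
      exact midP al (n + i - k) (n + k + l + i2 + 1) (max (k + i2 - i + 1) (max (k + l + 2) (k + 1))) (k + 1) (n + i + l + 1) (by omega) (fun t h1 h2 => (cE (qa t2 al 1 t ((k + l + i2 + 1) - t) (by omega)) (sh al 1 ((k + l + i2 + 1) - t) ((n + k + l + i2 + 1) - t) (by omega)))) (fun t h1 h2 => (cE (pb b al 0 t (t + (i - k)) (by omega)) (sh al 1 (t + (i - k)) (t + (n + i - k)) (by omega))))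
    · by_cases z3 : (l + i2 + 2) ≤ (j)
      · have k12 : (2 * Q + j) ≤ (2 * k + l + i2 + 1) := by clear * - y2 z1 z3; omega
        have k13 : (2 * k + l + 3) ≤ (2 * n + j + i2) := by clear * - y4 y7 z3; omega
        have k14 : (l + i2 + 2) ≤ (j) := by clear * - z3; omega
        have k15 : (j + l + i2 + 2) ≤ (2 * Q) := by clear * - y2 z3; omega
        clear * - al a1 a2 s1 s2 b t1 t2 c n1 n2 ev n1p n2p k12 k13 k14 k15
        obtain ⟨t, ht⟩ : ∃ t, 2 * t = (2 * k + l + i2 - 2 * n - j + 1) := ⟨(2 * k + l + i2 - 2 * n - j + 1) / 2, by omega⟩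
        exact al.ninv t (cI (pb a2 al (-1) t (t + (n + j - k)) (by omega)) (qa t2 al 0 (t + (n + j - k)) t (by omega)))
      · by_cases z4 : (k + l + 1) ≤ (n + i2)
        · have k16 : (i + j + 1) ≤ (Q + i2) := by clear * - y5 z3; omega
          have k17 : (i2 + 1) ≤ (i) := by clear * - y4 y7 z2 ev n1p n2p; omega
          have k18 : (l + i2 + 1) ≤ (j) := by clear * - y1 z2 z4 ev n1p n2p; omega
          have k19 : (j) ≤ (l + i2 + 1) := by clear * - z3; omega
          have k20 : (k + l + 1) ≤ (n + i2) := by clear * - z4; omega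
          have k21 : (n + i2) ≤ (k + l + 1) := by clear * - y8; omega
          clear * - al a1 a2 s1 s2 b t1 t2 c n1 n2 ev n1p n2p k16 k17 k18 k19 k20 k21
          exact (n2.f4 (ab s2 al 0 (i2) (i + l + 1) (by omega))) (sh al 0 (i2) (k + l - n + 1) (by omega))
        · by_cases z5 : (n + 2 * j) ≤ (i + k + 2 * l)
          · have k22 : (k + 1) ≤ (n + i) := by clear * - y4 y7 z2; omega
            have k23 : (n) ≤ (i + k) := by clear * - y7 z2 ev n1p n2p; omega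
            have k24 : (k + 2) ≤ (n + i) := by clear * - y4 y7 z2 ev n1p n2p; omega
            have k25 : (n + 2 * j) ≤ (i + k + 2 * l) := by clear * - z5; omega
            have k26 : (k) ≤ (n + i + 2 * j) := by clear * - y1 y4 y7 z2; omega
            have k27 : (3 * k + 2) ≤ (3 * n + i + 2 * j) := by clear * - y1 y4 y7 z2; omega
            have k28 : (k) ≤ (n + i + 2 * l) := by clear * - y4 y7 z2 z4; omega
            have k29 : (n) ≤ (i + k + 2 * l + 2) := by clear * - y4 y7 z2 z4; omega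
            have k30 : (n + 2 * j) ≤ (i + k + 4 * l + 2) := by clear * - y4 y7 z4 z5; omega
            clear * - al a1 a2 s1 s2 b t1 t2 c n1 n2 ev n1p n2p k22 k23 k24 k25 k26 k27 k28 k29 k30
            exact midP al (n + i - k) (2 * n + i + j) (max (n + j - l) (max (n + j + 1) (k + 1))) (k + 1) (n + i + l + 1) (by omega) (fun t h1 h2 => (cE (ab s1 al 1 t ((n + i + j) - t) (by omega)) (sh al 1 ((n + i + j) - t) ((2 * n + i + j) - t) (by omega)))) (fun t h1 h2 => (cE (pb b al 0 t (t + (i - k)) (by omega)) (sh al 1 (t + (i - k)) (t + (n + i - k)) (by omega))))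
          · by_cases z6 : (k) ≤ (j + l + 2)
            · by_cases z7 : (n) ≤ (j + l + 3)
              · have k31 : (k + 1) ≤ (n + i) := by clear * - y4 y7 z2; omega
                have k32 : (j + 1) ≤ (k) := by clear * - y4 y5 y7 z1 z2 z3; omega
                have k33 : (k) ≤ (j + l + 2) := by clear * - z6; omega
                have k34 : (n) ≤ (j + l + 3) := by clear * - z7; omega
                have k35 : (i + l + 2) ≤ (k) := by clear * - y4 y5 y7 z1 z2; omega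
                clear * - al a1 a2 s1 s2 b t1 t2 c n1 n2 ev n1p n2p k31 k32 k33 k34 k35
                exact n2.f0 (rEE (sh al 1 (k + l - n + 1) (k + l + 1) (by omega)) (sh al 1 (i + l + 1) (n + i + l + 1) (by omega)) (rotR (n + i - k) (k - j) (k + l + 1) (n + i + l + 1) (by omega) (fun t h1 h2 => (cE (pb b al 0 t (t + (i - k)) (by omega)) (sh al 1 (t + (i - k)) (t + (n + i - k)) (by omega)))) (fun t h1 h2 => (cE (qf a1 al 1 t (t + (k - n - j)) (by omega)) (sh al 1 (t + (k - n - j)) (t + (k - j)) (by omega))))))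
              · have k36 : (k) ≤ (i + 2 * j) := by clear * - y7 z2 z5 z6 z7 ev n1p n2p; omega
                have k37 : (i + k + 2) ≤ (2 * Q) := by clear * - y5 y7 z2 z3 z6 z7; omega
                have k38 : (i + 1) ≤ (k) := by clear * - y7 z3 z4 z5 z7; omega
                have k39 : (2 * j + 1) ≤ (i + k) := by clear * - y7 z2 z3 z7; omega
                clear * - al a1 a2 s1 s2 b t1 t2 c n1 n2 ev n1p n2p k36 k37 k38 k39
                obtain ⟨t, ht⟩ : ∃ t, 2 * t = (i + k) := ⟨(i + k) / 2, by omega⟩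
                exact al.ninv t (cI (pb a1 al 0 t (t + (j - k)) (by omega)) (ab s2 al 0 (t + (j - k)) t (by omega)))
            · by_cases z8 : (2 * n + i + i2) ≤ (2 * k + l + 1)
              · have k40 : (k + 1) ≤ (n + i) := by clear * - y4 y7 z2; omega
                have k41 : (i + j + 1) ≤ (Q + i2) := by clear * - y5 z3; omega
                have k42 : (i2 + 1) ≤ (i) := by clear * - y4 y7 z2 ev n1p n2p; omega
                have k43 : (l + i2 + 1) ≤ (j) := by clear * - z2 z5 ev n1p n2p; omega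
                have k44 : (j) ≤ (l + i2 + 1) := by clear * - z3; omega
                have k45 : (k + 1) ≤ (n + i2) := by clear * - y4 y7; omega
                have k46 : (0) ≤ (l) := by clear * - y4 y7 z4; omega
                have k47 : (i2) ≤ (i + l) := by clear * - y4 y7 z2 z8; omega
                have k48 : (0) ≤ (l + 1) := by clear * - y4 y7 z4; omega
                have k49 : (i2) ≤ (i + l + 1) := by clear * - y4 y7 z2 z8; omega
                have k50 : (i + k + 2 * l + 2) ≤ (n + 2 * Q) := by clear * - y4 y5 y7 z2; omega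
                have k51 : (i + k) ≤ (n + 2 * i2) := by clear * - z3 z5 ev n1p n2p; omega
                have k52 : (k) ≤ (n + i) := by clear * - y4 y7 z2; omega
                clear * - al a1 a2 s1 s2 b t1 t2 c n1 n2 ev n1p n2p k40 k41 k42 k43 k44 k45 k46 k47 k48 k49 k50 k51 k52
                exact (n2.f4 (ab s2 al 0 (i2) (i + l + 1) (by omega))) (rEE (sh al 1 (i2) (n + i2) (by omega)) (sh al 1 (k + l - n + 1) (k + l + 1) (by omega)) (midU al (n + i - k) (n + k + l + i2 + 1) (n + i2) (k + l + 1) (k + 1) (n + i + l + 1) (by omega) (fun t h1 h2 => (cE (ab t2 al 1 t ((k + l + i2 + 1) - t) (by omega)) (sh al 1 ((k + l + i2 + 1) - t) ((n + k + l + i2 + 1) - t) (by omega)))) (fun t h1 h2 => (cE (pb b al 0 t (t + (i - k)) (by omega)) (sh al 1 (t + (i - k)) (t + (n + i - k)) (by omega))))))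
              · have k53 : (k + 2) ≤ (n + j) := by clear * - z3 z4 z5 z8; omega
                have k54 : (n + 2 * i + j + 2) ≤ (2 * Q + k) := by clear * - y5 z3 z4; omega
                have k55 : (n + j) ≤ (k + 2 * l + 1) := by clear * - z3 z4; omega
                have k56 : (j + k + 1) ≤ (n + 2 * i) := by clear * - z2 z3 z8 ev n1p n2p; omega
                clear * - al a1 a2 s1 s2 b t1 t2 c n1 n2 ev n1p n2p k53 k54 k55 k56
                obtain ⟨t, ht⟩ : ∃ t, 2 * t = (3 * n + 2 * i + j - k) := ⟨(3 * n + 2 * i + j - k) / 2, by omega⟩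
                exact al.ninv t (cE (cI (qf b al 1 t (t + (k - n - i)) (by omega)) (ab s2 al 1 (t + (k - n - i)) ((2 * n + 2 * i + j - k) - t) (by omega))) (sh al 1 ((2 * n + 2 * i + j - k) - t) t (by omega)))

end Pool.Agent.MP_a38735_al.WL
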