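import Pool.Agent.MP_a38735_al.WQ

set_option autoImplicit false
set_option linter.unusedVariables false

namespace Pool.Agent.MP_a38735_al.WL

variable {G : Type*} [Group G]

theorem l2_10110_19 {W : ℤ → G} {n Q i j k l i2 l2 i3 : ℤ} (al : AL W n Q)
    {L : ℤ} (mx : ∀ a b g, 0 < g → g < n → Par W a b g → b - a ≤ L) (hL : L ≤ (n - j - 3) ∧ L ≤ (n + Q - k - 3) ∧ L ≤ (n - l - 3) ∧ L ≤ (k - j - 2) ∧ L ≤ (n - l2 - 3) ∧ L ≤ (n + i3 - Q - 2) ∧ L ≤ (i2 + l2 - 1) ∧ L ≤ (n + i3 - i2 - l2 - 3))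
    (hy : (0) ≤ (i) ∧ (i) ≤ (j) ∧ (j + 1) ≤ (Q) ∧ (Q) ≤ (k) ∧ (k + 1) ≤ (n) ∧ (i + l + 2) ≤ (Q) ∧ (n) ≤ (k + l + 1) ∧ (0) ≤ (i2) ∧ (i2) ≤ (i + l + 1) ∧ (n) ≤ (k + l + l2 + 2) ∧ (k + l + l2 + 3) ≤ (n + Q) ∧ (Q) ≤ (i2 + l2 + 1) ∧ (i2 + l2 + 2) ≤ (n) ∧ (0) ≤ (i3) ∧ (n + i3) ≤ (k + l + l2 + 2) ∧ (j + 3) ≤ (n) ∧ (k + 3) ≤ (n + Q) ∧ (l + 3) ≤ (n) ∧ (j + 2) ≤ (k) ∧ (l2 + 3) ≤ (n) ∧ (Q + 2) ≤ (n + i3) ∧ (1) ≤ (i2 + l2) ∧ (i2 + l2 + 3) ≤ (n + i3))
    (a1 : Par W (0) (j) (k - j))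
    (a2 : Par W (Q + j - k) (j) (k - j))
    (s1 : Ant W (0) (i) (i + j))
    (s2 : Ant W (j + 1) (Q) (i + j))
    (b : Par W (i + 1) (i + l + 1) (k - i))
    (tt : Ant W (i + l + 2) (Q) (i + l + i2 + 1))
    (c : Par W (i2 + 1) (i2 + l2 + 1) (k + l - n - i2 + 1))
    (u1 : Ant W (0) (i3) (k + l + l2 + i3 - n + 2))
    (u2 : Ant W (k + l + l2 - n + 3) (Q) (k + l + l2 + i3 - n + 2))
    (d1 : Par W (i3 + 1) (Q) (i2 + l2 - i3 + 1))
    (d2 : Par W (i2 + l2 + 2) (n) (i3 - i2 - l2 - 1))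
    (n1 : Nd W (j) (i) (k))
    (n2 : Nd W (i + l + 1) (i2) (k + l - n + 1))
    (n3 : Nd W (k + l + l2 - n + 2) (i3) (i2 + l2 + 1))
    (b0 : (j + l + l2 + i3 + 3) ≤ (n))
    (b1 : (2 * Q + i2 + l2) ≤ (n + i + j + i3))
    (b2 : (i + 2 * j + 2) ≤ (k))
    (b3 : (k + l + i2 + 3) ≤ (n + i + j))
    (b4 : (2 * Q + k) ≤ (n + 2 * i + l + i2 + 2))
    (b5 : (n + j) ≤ (k + i2 + l2))
    (b6 : (k + i2 + l2 + 1) ≤ (n + j + i3))
    (b7 : (n + j + i3) ≤ (k + i2 + l2 + 1))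
    (b8 : (k + i3) ≤ (j + i2 + l2))
    (b9 : (n + i + 2 * i2 + l2) ≤ (2 * k + l + i3))
    (b10 : (n + i) ≤ (k + l2)) : False := by
  have ev := al.ev
  obtain ⟨y0, y1, y2, y3, y4, y5, y6, y7, y8, y9, y10, y11, y12, y13, y14, y15, y16, y17, y18, y19, y20, y21, y22⟩ := id hy
  have n1p := And.intro n1.p1 n1.p2
  have n2p := And.intro n2.p1 n2.p2
  have n3p := And.intro n3.p1 n3.p2
  by_cases z21 : (3 * k + l + 1) ≤ (2 * n + i + j + i2)
  · have k57 : (k + 1) ≤ (n + i) := by clear * - b0 b5 b8 b9 y8 z21; omega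
    have k58 : (2 * k) ≤ (n + i + j + i2) := by clear * - y6 z21; omega
    have k59 : (n + i + i2 + 1) ≤ (2 * k) := by clear * - b0 b3 b5 b8 b9 z21; omega
    have k60 : (2 * n + i + j + i2) ≤ (3 * k + l + 1) := by clear * - b7 b9; omega
    clear * - al a1 a2 s1 s2 b tt c u1 u2 d1 d2 n1 n2 n3 k57 k58 b10 k59 z21 k60
    exact n2.f0 (cE (pb c al 0 (i + l + 1) (n + i + i2 - k) (by omega)) (pb a1 al 0 (n + i + i2 - k) (k + l - n + 1) (by omega)))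
  · by_cases z22 : (i + k + 2 * l + 3) ≤ (n + 2 * i2)
    · by_cases z23 : (n + i + 2 * i2 + 2) ≤ (2 * Q + k)
      · have k61 : (k + 2) ≤ (n + i) := by clear * - b4 z22 z23; omega
        have k62 : (n + i) ≤ (k + 2 * l2 + 1) := by clear * - b10 b4 z22 z23; omega
        obtain ⟨t, ht⟩ : ∃ t, 2 * t = (3 * n + i + 2 * i2 - k) := ⟨(3 * n + i + 2 * i2 - k) / 2, by clear * - ev n1p n2p n3p; omega⟩
        clear * - al a1 a2 s1 s2 b tt c u1 u2 d1 d2 n1 n2 n3 k61 z23 k62 z22 ht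
        exact al.ninv t (cE (cI (qf c al 1 t (t + (k + l - 2 * n - i2 + 1)) (by omega)) (ab tt al 0 (t + (k + l - 2 * n - i2 + 1)) ((2 * n + i + 2 * i2 - k) - t) (by omega))) (sh al 1 ((2 * n + i + 2 * i2 - k) - t) t (by omega)))
      · by_cases z24 : (3 * k + l + 2) ≤ (2 * n + Q + i + j)
        · have k63 : (3 * k + l + 2) ≤ (3 * n + i + j + i2) := by clear * - b8 b9 z21 z22 z23 z24; omega
          have k64 : (2 * k + 1) ≤ (n + Q + j) := by clear * - b6 b8 y2; omega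
          have k65 : (Q + k) ≤ (n + i + i2) := by clear * - z21 z23 z24; omega
          have k66 : (Q + 2 * k + l + 1) ≤ (2 * n + i + j + i2) := by clear * - b3 b8 b9 z21 z22 z23 z24; omega
          clear * - al a1 a2 s1 s2 b tt c u1 u2 d1 d2 n1 n2 n3 z21 k63 z24 k64 y11 k65 k66
          exact al.ubQ (3 * k + l - 2 * n - i - j - i2 + 1) (by omega) (by omega) fun t h1 h2 => (cE (sh al (-1) t (t + (-n)) (by omega)) (cE (cE (qf c al (-1) (t + (-n)) (t + (k + l - n - i2 + 1)) (by omega)) (qf b al 0 (t + (k + l - n - i2 + 1)) (t + (2 * k + l - n - i - i2 + 1)) (by omega))) (qf a2 al 1 (t + (2 * k + l - n - i - i2 + 1)) (t + (3 * k + l - 2 * n - i - j - i2 + 1)) (by omega))))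
        · have k67 : (k + l + 2) ≤ (n + i2) := by clear * - b0 b5 b6 b8; omega
          have k68 : (j + i2) ≤ (k + i3 + 1) := by clear * - b2 b3 b5 b6 y8 z21 z22; omega
          have k69 : (n + i3) ≤ (k + l) := by clear * - b8 y10 y8 z24; omega
          have k70 : (n + Q + i3) ≤ (k + l + i2 + l2 + 2) := by clear * - b0 b4 b5 b8 b9; omega
          have k71 : (2 * i2 + l2) ≤ (n + i3) := by clear * - b2 b3 b6 y8 z21 z22; omega
          have k72 : (2 * i2 + l2) ≤ (k + i3) := by clear * - b3 b6 y2 z24; omega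
          have k73 : (n + i2 - k - l - 1) % 2 = 0 := by clear * - ev n1p n2p n3p; omega
          have k74 : (j + i2 + l2 - k - i3 + 1) % 2 = 0 := by clear * - ev n1p n2p n3p; omega
          clear * - al a1 a2 s1 s2 b tt c u1 u2 d1 d2 n1 n2 n3 k67 b8 k68 k69 k70 k71 k72 k73 k74
          exact n2.f1 (rEE (sh al 1 (i2) (n + i2) (by omega)) (sh al 1 (k + l - n + 1) (k + l + 1) (by omega)) (Eq.symm (rotL (n + i2 - k - l - 1) (j + i2 + l2 - k - i3 + 1) (k + l + 1) (n + i2) (by omega) (fun t h1 h2 => (cE (pb c al 1 t (t + (i2 - k - l - 1)) (by omega)) (sh al 1 (t + (i2 - k - l - 1)) (t + (n + i2 - k - l - 1)) (by omega)))) (fun t h1 h2 => (cE (cE (pb d2 al 1 t (t + (i2 + l2 - n - i3 + 1)) (by omega)) (pb a2 al 0 (t + (i2 + l2 - n - i3 + 1)) (t + (j + i2 + l2 - n - k - i3 + 1)) (by omega))) (sh al 1 (t + (j + i2 + l2 - n - k - i3 + 1)) (t + (j + i2 + l2 - k - i3 + 1)) (by omega)))))))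
    · by_cases z25 : (2 * n + i2) ≤ (j + 2 * k + l + 2)
      · by_cases z26 : (j) ≤ (l + i2)
        · by_cases z27 : (j + 2 * k + l + 2) ≤ (2 * n + 2 * i + i2)
          · have k75 : (j + 2 * k + l + 3) ≤ (2 * n + 2 * i + i2) := by clear * - z27 ev n1p n2p n3p; omega
            have k76 : (j + 1) ≤ (l + i2) := by clear * - z26 ev n1p n2p n3p; omega
            have k77 : (2 * n + 2 * i + j) ≤ (2 * k + l + i2 + 2 * l2 + 1) := by clear * - b10 z26; omega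
            have k78 : (i2) ≤ (j + l) := by clear * - b8 b9 z27; omega
            have k79 : (2 * k + l + i2 + 2) ≤ (2 * n + 2 * i + j) := by clear * - b3 z26; omega
            obtain ⟨t, ht⟩ : ∃ t, 2 * t = (4 * n + 2 * i + j + i2 - 2 * k - l - 1) := ⟨(4 * n + 2 * i + j + i2 - 2 * k - l - 1) / 2, by clear * - ev n1p n2p n3p; omega⟩
            clear * - al a1 a2 s1 s2 b tt c u1 u2 d1 d2 n1 n2 n3 k75 k76 k77 z25 k78 k79 ht
            exact al.ninv t (cE (cE (cE (ab s1 al 1 t ((n + i + j) - t) (by omega)) (pb b al (-1) ((n + i + j) - t) ((2 * n + 2 * i + j - k) - t) (by omega))) (pb c al 0 ((2 * n + 2 * i + j - k) - t) ((3 * n + 2 * i + j + i2 - 2 * k - l - 1) - t) (by omega))) (sh al 1 ((3 * n + 2 * i + j + i2 - 2 * k - l - 1) - t) t (by omega)))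
          · have k80 : (k + l + 2) ≤ (n + i2) := by clear * - b0 b5 b6 b8; omega
            have k81 : (n + i2) ≤ (2 * i + k + l + 1) := by clear * - b3 b4 b5 y10 z22 z27; omega
            have k82 : (3 * k + l + i2 + 3) ≤ (3 * n + 4 * i) := by clear * - b2 b3 b4 b5 b6 b8 y10 z22; omega
            have k83 : (n + 2 * j) ≤ (k + l + i2 + 2 * l2 + 1) := by clear * - b2 b3 b5 b6 b8 z22 z26; omega
            have k84 : (3 * n + i2) ≤ (3 * k + 3 * l + 3) := by clear * - b4 b5 y10 z22 z25 z26 z27; omega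
            have k85 : (n + i2) ≤ (k + 3 * l + 1) := by clear * - b3 z22 z26 z27; omega
            have k86 : (3 * n + 2 * i + 2 * j) ≤ (3 * k + 3 * l + i2 + 2 * l2 + 3) := by clear * - b2 b5 b6 b8 z22 z25 z26 z27; omega
            have k87 : (k + l + i2 + 1) ≤ (n + 2 * i + 2 * j) := by clear * - b0 b3 b5 b6 b8 z25 z26; omega
            have k88 : (3 * k + l + i2 + 3) ≤ (3 * n + 2 * i + 2 * j) := by clear * - b0 b3 b5 b6 b8 z26 z27; omega
            have k89 : (5 * k + 3 * l + i2 + 5) ≤ (5 * n + 4 * i + 2 * j) := by clear * - b0 b3 b5 b6 b8 z26; omega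
            have k90 : (3 * n + 2 * i) ≤ (3 * k + l + i2 + 2 * l2 + 3) := by clear * - b0 b5 b6 b8 z22 z27; omega
            have k91 : (n + 2 * i) ≤ (k + l + i2 + 2 * l2 + 1) := by clear * - b0 b10 b5 b6 b8 z22 z26 z27; omega
            have k92 : (3 * n + 4 * i + 2 * j) ≤ (3 * k + l + 3 * i2 + 4 * l2 + 3) := by clear * - b0 b10 b5 b6 b8 z26; omega
            have k93 : (n + 2 * i + j - k) % 2 = 0 := by clear * - ev n1p n2p n3p; omega
            have k94 : (n + i2 - k - l - 1) % 2 = 0 := by clear * - ev n1p n2p n3p; omega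
            clear * - al a1 a2 s1 s2 b tt c u1 u2 d1 d2 n1 n2 n3 k80 k81 k82 k83 k84 k85 k86 k87 k88 k89 k90 k91 k92 k93 k94
            exact midP al (n + i2 - k - l - 1) (n + 2 * i + j - k) (max (k + l - n + 2) (max (n + 2 * i + j - k - i2 - l2) (max (n + i + j - k - l) (j + 1)))) (k + l - n + 2) (i2 + l2 + 1) (by omega) (fun t h1 h2 => (cE (ab s1 al 0 t ((i + j) - t) (by omega)) (pb b al (-1) ((i + j) - t) ((n + 2 * i + j - k) - t) (by omega)))) (fun t h1 h2 => (pb c al 0 t (t + (n + i2 - k - l - 1)) (by omega)))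
        · have k95 : (k + l + 2) ≤ (n + i2) := by clear * - b0 b5 b6 b8; omega
          have k96 : (n + i2) ≤ (2 * i + k + l + 1) := by clear * - b10 b4 b5 y10 z22 z25 z26; omega
          have k97 : (k + l + i2 + 1) ≤ (n + 2 * i + 2 * j) := by clear * - b0 b5 b6 b8 z22 z25 z26; omega
          have k98 : (n) ≤ (k + l + i2 + 2 * l2 + 3) := by clear * - b0 b5 b6 b8 z21 z22; omega
          have k99 : (k + l + i2 + 3) ≤ (n + 2 * i) := by clear * - b2 b4 b5 b6 b8 y10 z22 z26; omega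
          have k100 : (3 * k + 3 * l + i2 + 5) ≤ (3 * n + 2 * i + 2 * j) := by clear * - b0 b5 b6 b8 z22 z26; omega
          have k101 : (n + 2 * j) ≤ (k + l + i2 + 2 * l2 + 1) := by clear * - b0 b2 b5 b6 b8 z22; omega
          have k102 : (n + 2 * i + 2 * j) ≤ (k + l + 3 * i2 + 4 * l2 + 3) := by clear * - b0 b2 b5 b6 b8 z22 z25; omega
          have k103 : (i + j - 2 * n) % 2 = 0 := by clear * - ev n1p n2p n3p; omega
          have k104 : (n + i2 - k - l - 1) % 2 = 0 := by clear * - ev n1p n2p n3p; omega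
          clear * - al a1 a2 s1 s2 b tt c u1 u2 d1 d2 n1 n2 n3 k95 k96 k97 k98 k99 k100 k101 k102 k103 k104
          exact midP al (n + i2 - k - l - 1) (i + j - 2 * n) (max (i + j - n - i2 - l2) (max (-n) (k + l - 2 * n + 2))) (k + l - 2 * n + 2) (i2 + l2 - n + 1) (by omega) (fun t h1 h2 => (cE (qa s1 al (-1) t ((i + j - n) - t) (by omega)) (sh al (-1) ((i + j - n) - t) ((i + j - 2 * n) - t) (by omega)))) (fun t h1 h2 => (cE (pb c al (-1) t (t + (2 * n + i2 - k - l - 1)) (by omega)) (sh al (-1) (t + (2 * n + i2 - k - l - 1)) (t + (n + i2 - k - l - 1)) (by omega))))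
      · by_cases z28 : (n + j) ≤ (k + 2 * l)
        · by_cases z29 : (j + k + 1) ≤ (n + 2 * i)
          · have k105 : (j + k + 2) ≤ (n + 2 * i) := by clear * - z29 ev n1p n2p n3p; omega
            have k106 : (n + 2 * i + j + 1) ≤ (2 * Q + k) := by clear * - b10 y10 z28; omega
            have k107 : (k + 1) ≤ (n + j) := by clear * - b0 b5 b6 b8 z21 z29; omega
            obtain ⟨t, ht⟩ : ∃ t, 2 * t = (3 * n + 2 * i + j - k) := ⟨(3 * n + 2 * i + j - k) / 2, by clear * - ev n1p n2p n3p; omega⟩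
            clear * - al a1 a2 s1 s2 b tt c u1 u2 d1 d2 n1 n2 n3 k105 z28 k106 k107 ht
            exact al.ninv t (cE (cE (qa s2 al 1 t ((n + i + j) - t) (by omega)) (pb b al (-1) ((n + i + j) - t) ((2 * n + 2 * i + j - k) - t) (by omega))) (sh al 1 ((2 * n + 2 * i + j - k) - t) t (by omega)))
          · have k108 : (2 * k + l + i2 + 3) ≤ (2 * n + 2 * i + j) := by clear * - b0 b3 b5 b6 b8 z28; omega
            have k109 : (j + 2 * k + l + 3) ≤ (2 * n + 2 * i + i2) := by clear * - b3 b4 b5 y10 z25 z28; omega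
            have k110 : (j + 1) ≤ (l + i2) := by clear * - b0 b5 b6 b8 z28; omega
            have k111 : (2 * n + 2 * i + j) ≤ (2 * k + l + i2 + 2 * l2 + 2) := by clear * - b5 b8 b9 z25; omega
            have k112 : (2 * n + 2 * i + j + i2) ≤ (2 * Q + 2 * k + l) := by clear * - b5 y10 z22 z25 z29; omega
            have k113 : (i2) ≤ (j + l) := by clear * - b0 b5 b6 b8 z22 z29; omega
            obtain ⟨t, ht⟩ : ∃ t, 2 * t = (2 * n + 2 * i + j + l - i2 + 1) := ⟨(2 * n + 2 * i + j + l - i2 + 1) / 2, by clear * - ev n1p n2p n3p; omega⟩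
            clear * - al a1 a2 s1 s2 b tt c u1 u2 d1 d2 n1 n2 n3 k108 k109 k110 k111 k112 k113 ht
            exact al.ninv t (cE (cE (cI (pb c al 1 t (t + (i2 - k - l - 1)) (by omega)) (qa s2 al 0 (t + (i2 - k - l - 1)) ((i + j + k + l - i2 + 1) - t) (by omega))) (pb b al (-1) ((i + j + k + l - i2 + 1) - t) ((n + 2 * i + j + l - i2 + 1) - t) (by omega))) (sh al 1 ((n + 2 * i + j + l - i2 + 1) - t) t (by omega)))
        · by_cases z30 : (n + i) ≤ (l + i2 + 2 * l2 + 2)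
          · have k114 : (l + i2 + 3) ≤ (n + i) := by clear * - b0 b5 b6 b8 z21 z22 z28; omega
            have k115 : (2 * Q + l + 1) ≤ (n + i + i2) := by clear * - b0 b4 b5 b6 b8 z21 z28; omega
            have k116 : (i + 2 * k + l + 3) ≤ (n + 2 * Q + i2) := by clear * - y10 z30; omega
            have k117 : (n + i + i2) ≤ (2 * k + l) := by clear * - b0 b5 b6 b8 z21 z22; omega
            have k118 : (n + 2 * j + i2) ≤ (i + 2 * k + l) := by clear * - b0 b5 b6 z22; omega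
            obtain ⟨t, ht⟩ : ∃ t, 2 * t = (i + 2 * k + l - 3 * n - i2 + 1) := ⟨(i + 2 * k + l - 3 * n - i2 + 1) / 2, by clear * - ev n1p n2p n3p; omega⟩
            clear * - al a1 a2 s1 s2 b tt c u1 u2 d1 d2 n1 n2 n3 k114 k115 k116 z30 k117 k118 ht
            exact al.ninv t (cE (cI (cE (pb c al (-1) t (t + (2 * n + i2 - k - l - 1)) (by omega)) (pb a2 al 0 (t + (2 * n + i2 - k - l - 1)) (t + (2 * n + j + i2 - 2 * k - l - 1)) (by omega))) (ab s2 al 0 (t + (2 * n + j + i2 - 2 * k - l - 1)) ((i + 2 * k + l - 2 * n - i2 + 1) - t) (by omega))) (sh al (-1) ((i + 2 * k + l - 2 * n - i2 + 1) - t) t (by omega)))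
          · by_cases z31 : (k + l + i2 + 3) ≤ (n + 2 * i)
            · have k119 : (k + l + 2) ≤ (n + i2) := by clear * - b5 b6 b8 z21 z25 z30; omega
              have k120 : (n + i2) ≤ (2 * i + k + l + 1) := by clear * - b5 b6 b8 z22 z30; omega
              have k121 : (k + l + i2 + 1) ≤ (n + 2 * i + 2 * j) := by clear * - b5 b6 b8 z21 z22 z25 z30 z31; omega
              have k122 : (n) ≤ (k + l + i2 + 2 * l2 + 3) := by clear * - b5 b6 b8 z21 z22 z25 z30; omega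
              have k123 : (3 * k + 3 * l + i2 + 5) ≤ (3 * n + 2 * i + 2 * j) := by clear * - b5 b6 b8 z21 z25 z30 z31; omega
              have k124 : (n + 2 * j) ≤ (k + l + i2 + 2 * l2 + 1) := by clear * - b5 b6 b8 z21 z22 z25 z30; omega
              have k125 : (n + 2 * i + 2 * j) ≤ (k + l + 3 * i2 + 4 * l2 + 3) := by clear * - b5 b6 b8 z21 z22 z25 z30; omega
              have k126 : (i + j - 2 * n) % 2 = 0 := by clear * - ev n1p n2p n3p; omega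
              have k127 : (n + i2 - k - l - 1) % 2 = 0 := by clear * - ev n1p n2p n3p; omega
              clear * - al a1 a2 s1 s2 b tt c u1 u2 d1 d2 n1 n2 n3 k119 k120 k121 k122 z31 k123 k124 k125 k126 k127
              exact midP al (n + i2 - k - l - 1) (i + j - 2 * n) (max (i + j - n - i2 - l2) (max (-n) (k + l - 2 * n + 2))) (k + l - 2 * n + 2) (i2 + l2 - n + 1) (by omega) (fun t h1 h2 => (cE (qa s1 al (-1) t ((i + j - n) - t) (by omega)) (sh al (-1) ((i + j - n) - t) ((i + j - 2 * n) - t) (by omega)))) (fun t h1 h2 => (cE (pb c al (-1) t (t + (2 * n + i2 - k - l - 1)) (by omega)) (sh al (-1) (t + (2 * n + i2 - k - l - 1)) (t + (n + i2 - k - l - 1)) (by omega))))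
            · have k128 : (n + i + 2 * i2 + l2 + 1) ≤ (2 * k + l + i3) := by clear * - b6 z21; omega
              have k129 : (2 * k + l + i3 + 1) ≤ (2 * n + i + 2 * i2 + l2) := by clear * - b5 b6 b8 z22 z25 z28 z30 z31; omega
              have k130 : (2 * k + l + i3 + 1) ≤ (n + Q + i + i2 + l2) := by clear * - b5 b6 b8 y10 z22 z25 z28 z30 z31; omega
              have k131 : (k + i3) ≤ (Q + i2 + l2) := by clear * - b5 b8 y10 z22 z25 z28 z31; omega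
              have k132 : (i3 + 1) ≤ (Q) := by clear * - b5 b6 b8 y10 z22 z25 z28 z30 z31; omega
              have k133 : (Q + k) ≤ (n + i + i2) := by clear * - b4 b5 b6 b8 z22 z25 z28 z30 z31; omega
              have k134 : (Q + 2 * k + l + 1) ≤ (2 * n + i + i2) := by clear * - b4 z25 z28; omega
              clear * - al a1 a2 s1 s2 b tt c u1 u2 d1 d2 n1 n2 n3 k128 k129 k130 k131 k132 y11 k133 k134
              exact al.ubQ (2 * k + l + i3 - n - i - 2 * i2 - l2) (by omega) (by omega) fun t h1 h2 => (cE (sh al 1 t (t + (n)) (by omega)) (cE (cE (qf c al 1 (t + (n)) (t + (k + l - n - i2 + 1)) (by omega)) (qf b al 0 (t + (k + l - n - i2 + 1)) (t + (2 * k + l - n - i - i2 + 1)) (by omega))) (qf d2 al 0 (t + (2 * k + l - n - i - i2 + 1)) (t + (2 * k + l + i3 - n - i - 2 * i2 - l2)) (by omega))))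

theorem l2_10110_20 {W : ℤ → G} {n Q i j k l i2 l2 i3 : ℤ} (al : AL W n Q)
    {L : ℤ} (mx : ∀ a b g, 0 < g → g < n → Par W a b g → b - a ≤ L) (hL : L ≤ (n - j - 3) ∧ L ≤ (n + Q - k - 3) ∧ L ≤ (n - l - 3) ∧ L ≤ (k - j - 2) ∧ L ≤ (n - l2 - 3) ∧ L ≤ (n + i3 - Q - 2) ∧ L ≤ (i2 + l2 - 1) ∧ L ≤ (n + i3 - i2 - l2 - 3))
    (hy : (0) ≤ (i) ∧ (i) ≤ (j) ∧ (j + 1) ≤ (Q) ∧ (Q) ≤ (k) ∧ (k + 1) ≤ (n) ∧ (i + l + 2) ≤ (Q) ∧ (n) ≤ (k + l + 1) ∧ (0) ≤ (i2) ∧ (i2) ≤ (i + l + 1) ∧ (n) ≤ (k + l + l2 + 2) ∧ (k + l + l2 + 3) ≤ (n + Q) ∧ (Q) ≤ (i2 + l2 + 1) ∧ (i2 + l2 + 2) ≤ (n) ∧ (0) ≤ (i3) ∧ (n + i3) ≤ (k + l + l2 + 2) ∧ (j + 3) ≤ (n) ∧ (k + 3) ≤ (n + Q) ∧ (l + 3) ≤ (n) ∧ (j + 2) ≤ (k) ∧ (l2 + 3) ≤ (n) ∧ (Q + 2) ≤ (n + i3) ∧ (1) ≤ (i2 + l2) ∧ (i2 + l2 + 3) ≤ (n + i3))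
    (a1 : Par W (0) (j) (k - j))
    (a2 : Par W (Q + j - k) (j) (k - j))
    (s1 : Ant W (0) (i) (i + j))
    (s2 : Ant W (j + 1) (Q) (i + j))
    (b : Par W (i + 1) (i + l + 1) (k - i))
    (tt : Ant W (i + l + 2) (Q) (i + l + i2 + 1))
    (c : Par W (i2 + 1) (i2 + l2 + 1) (k + l - n - i2 + 1))
    (u1 : Ant W (0) (i3) (k + l + l2 + i3 - n + 2))
    (u2 : Ant W (k + l + l2 - n + 3) (Q) (k + l + l2 + i3 - n + 2))
    (d1 : Par W (i3 + 1) (Q) (i2 + l2 - i3 + 1))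
    (d2 : Par W (i2 + l2 + 2) (n) (i3 - i2 - l2 - 1))
    (n1 : Nd W (j) (i) (k))
    (n2 : Nd W (i + l + 1) (i2) (k + l - n + 1))
    (n3 : Nd W (k + l + l2 - n + 2) (i3) (i2 + l2 + 1))
    (b0 : (j + l + l2 + i3 + 3) ≤ (n))
    (b1 : (2 * Q + i2 + l2) ≤ (n + i + j + i3))
    (b2 : (i + 2 * j + 2) ≤ (k))
    (b3 : (k + l + i2 + 3) ≤ (n + i + j))
    (b4 : (2 * Q + k) ≤ (n + 2 * i + l + i2 + 2))
    (b5 : (n + j) ≤ (k + i2 + l2))
    (b6 : (k + i2 + l2 + 1) ≤ (n + j + i3))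
    (b7 : (n + j + i3) ≤ (k + i2 + l2 + 1))
    (b8 : (k + i3) ≤ (j + i2 + l2))
    (b9 : (n + i + 2 * i2 + l2) ≤ (2 * k + l + i3))
    (b10 : (k + l2 + 1) ≤ (n + i)) : False := by
  have ev := al.ev
  obtain ⟨y0, y1, y2, y3, y4, y5, y6, y7, y8, y9, y10, y11, y12, y13, y14, y15, y16, y17, y18, y19, y20, y21, y22⟩ := id hy
  have n1p := And.intro n1.p1 n1.p2
  have n2p := And.intro n2.p1 n2.p2
  have n3p := And.intro n3.p1 n3.p2
  by_cases z32 : (j + k + 1) ≤ (n + 2 * i)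
  · by_cases z33 : (n + j) ≤ (k + 2 * l + 1)
    · have k135 : (j + k + 2) ≤ (n + 2 * i) := by clear * - z32 ev n1p n2p n3p; omega
      have k136 : (n + j) ≤ (k + 2 * l) := by clear * - z33 ev n1p n2p n3p; omega
      have k137 : (n + 2 * i + j + 1) ≤ (2 * Q + k) := by clear * - y5 z33; omega
      have k138 : (k + 1) ≤ (n + j) := by clear * - b0 b5 b6 b8 b9 z32; omega
      obtain ⟨t, ht⟩ : ∃ t, 2 * t = (3 * n + 2 * i + j - k) := ⟨(3 * n + 2 * i + j - k) / 2, by clear * - ev n1p n2p n3p; omega⟩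
      clear * - al a1 a2 s1 s2 b tt c u1 u2 d1 d2 n1 n2 n3 k135 k136 k137 k138 ht
      exact al.ninv t (cE (cE (qa s2 al 1 t ((n + i + j) - t) (by omega)) (pb b al (-1) ((n + i + j) - t) ((2 * n + 2 * i + j - k) - t) (by omega))) (sh al 1 ((2 * n + 2 * i + j - k) - t) t (by omega)))
    · by_cases z34 : (2 * k + l + i3) ≤ (n + i + 2 * i2 + l2)
      · have k139 : (k + l + 2) ≤ (n + i) := by clear * - z32 z33; omega
        have k140 : (k + l + i3 + 2) ≤ (n + i + i2) := by clear * - b10 b2 b5 b8 b9 z32 z33; omega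
        have k141 : (n + i) ≤ (k + l + l2 + 1) := by clear * - b10 b2 b5 b6 b8 b9 z32 z33; omega
        have k142 : (i + 2 * i2 + l2 + 1) ≤ (k + l + i3) := by clear * - b10 b2 b5 b6 b8 b9 z32 z33; omega
        clear * - al a1 a2 s1 s2 b tt c u1 u2 d1 d2 n1 n2 n3 k139 k140 k141 k142 z34 b9
        exact n1.f1 (cE (pb c al 0 (i) (n + i + i2 - k - l - 1) (by omega)) (pb d2 al 0 (n + i + i2 - k - l - 1) (k) (by omega)))
      · have k143 : (2 * k + l + i3 + 1) ≤ (2 * n + i + 2 * i2 + l2) := by clear * - b10 b2 b5 b6 b8 z32 z33 z34; omega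
        have k144 : (2 * k + l + i3 + 2) ≤ (2 * n + i + i2) := by clear * - b10 b2 b5 b6 b8 z32 z33 z34; omega
        have k145 : (2 * k + l + 2) ≤ (2 * n + i) := by clear * - b10 b2 b5 b6 b8 z32 z33 z34; omega
        have k146 : (n + i3) ≤ (2 * i2 + 2 * l2 + 2) := by clear * - b5 b8; omega
        have k147 : (k + i3) ≤ (i + 2 * i2 + l2 + 1) := by clear * - b10 b5 b8; omega
        clear * - al a1 a2 s1 s2 b tt c u1 u2 d1 d2 n1 n2 n3 z34 k143 k144 k145 y4 k146 k147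
        exact al.ubP (2 * k + l + i3 - n - i - 2 * i2 - l2) (by omega) (by omega) fun t h1 h2 => (cE (sh al 2 t (t + (2 * n)) (by omega)) (cE (cE (cE (qf d2 al 1 (t + (2 * n)) (t + (n + i3 - i2 - l2 - 1)) (by omega)) (qf c al 0 (t + (n + i3 - i2 - l2 - 1)) (t + (k + l + i3 - 2 * i2 - l2)) (by omega))) (qf b al 0 (t + (k + l + i3 - 2 * i2 - l2)) (t + (2 * k + l + i3 - i - 2 * i2 - l2)) (by omega))) (sh al (-1) (t + (2 * k + l + i3 - i - 2 * i2 - l2)) (t + (2 * k + l + i3 - n - i - 2 * i2 - l2)) (by omega))))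
  · by_cases z35 : (k + l + 2 * i3 + 2) ≤ (2 * Q + i2)
    · have k148 : (k + l + i2 + 2 * l2 + 5) ≤ (2 * n + 2 * i3) := by clear * - b10 b2 b3 b5 b6 z32; omega
      have k149 : (k + l + 2 * i3 + 3) ≤ (2 * Q + i2) := by clear * - z35 ev n1p n2p n3p; omega
      have k150 : (i2) ≤ (k + l) := by clear * - b10 b2 b3 b5 b6 b8 b9 z32; omega
      obtain ⟨t, ht⟩ : ∃ t, 2 * t = (k + l + 2 * i3 - 2 * n - i2 + 1) := ⟨(k + l + 2 * i3 - 2 * n - i2 + 1) / 2, by clear * - ev n1p n2p n3p; omega⟩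
      clear * - al a1 a2 s1 s2 b tt c u1 u2 d1 d2 n1 n2 n3 k148 k149 k150 ht
      exact al.ninv t (cE (cE (qa u2 al (-1) t ((k + l + l2 + i3 - 2 * n + 2) - t) (by omega)) (pb d1 al (-1) ((k + l + l2 + i3 - 2 * n + 2) - t) ((k + l + 2 * i3 - n - i2 + 1) - t) (by omega))) (sh al (-1) ((k + l + 2 * i3 - n - i2 + 1) - t) t (by omega)))
    · by_cases z36 : (2 * i2 + l2) ≤ (k + i3)
      · have k151 : (k + l + 2) ≤ (n + i2) := by clear * - b10 b2 b3 b5 b6 b8 z32; omega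
        have k152 : (j + i2) ≤ (k + i3 + 1) := by clear * - b10 b2 b5 b6 b8 z36; omega
        have k153 : (n + i3) ≤ (k + l) := by clear * - b10 b7 b8 b9; omega
        have k154 : (n + i3) ≤ (j + l + i2 + l2 + 2) := by clear * - b10 b5 b8 b9; omega
        have k155 : (i2) ≤ (Q + 1) := by clear * - y5 y8; omega
        have k156 : (n + i2 - k - l - 1) % 2 = 0 := by clear * - ev n1p n2p n3p; omega
        have k157 : (j + i2 + l2 - k - i3 + 1) % 2 = 0 := by clear * - ev n1p n2p n3p; omega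
        clear * - al a1 a2 s1 s2 b tt c u1 u2 d1 d2 n1 n2 n3 k151 b8 k152 k153 k154 k155 z36 k156 k157
        exact n2.f1 (rEE (sh al (-1) (i2) (i2 - n) (by omega)) (sh al (-1) (k + l - n + 1) (k + l - 2 * n + 1) (by omega)) (Eq.symm (rotL (n + i2 - k - l - 1) (j + i2 + l2 - k - i3 + 1) (k + l - 2 * n + 1) (i2 - n) (by omega) (fun t h1 h2 => (cE (pb c al (-1) t (t + (2 * n + i2 - k - l - 1)) (by omega)) (sh al (-1) (t + (2 * n + i2 - k - l - 1)) (t + (n + i2 - k - l - 1)) (by omega)))) (fun t h1 h2 => (cE (cE (qf d1 al (-1) t (t + (n + i2 + l2 - i3 + 1)) (by omega)) (pb a1 al 0 (t + (n + i2 + l2 - i3 + 1)) (t + (n + j + i2 + l2 - k - i3 + 1)) (by omega))) (sh al (-1) (t + (n + j + i2 + l2 - k - i3 + 1)) (t + (j + i2 + l2 - k - i3 + 1)) (by omega)))))))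
      · by_cases z37 : (n + i + 2 * i2 + 1) ≤ (2 * Q + k)
        · have k158 : (l + i2 + 3) ≤ (n + i) := by clear * - b10 b2 b3 b5 b9 z32 z35 z36 z37; omega
          have k159 : (2 * k + l + 1) ≤ (n + i + 2 * j + i2) := by clear * - b10 b3 b5 z32 z35 z36 z37; omega
          have k160 : (i + 2 * k + l + 3) ≤ (n + 2 * Q + i2) := by clear * - b10 b2 b3 b5 b6 z32 z36 z37; omega
          have k161 : (n + i) ≤ (l + i2 + 2 * l2 + 2) := by clear * - z35 z36 z37; omega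
          have k162 : (n + i + i2) ≤ (2 * k + l) := by clear * - b10 b2 b3 b5 b9 z32 z35 z36 z37; omega
          have k163 : (n + 2 * j + i2) ≤ (i + 2 * k + l) := by clear * - b10 b7 z35 z37; omega
          obtain ⟨t, ht⟩ : ∃ t, 2 * t = (i + 2 * k + l - n - i2 + 1) := ⟨(i + 2 * k + l - n - i2 + 1) / 2, by clear * - ev n1p n2p n3p; omega⟩
          clear * - al a1 a2 s1 s2 b tt c u1 u2 d1 d2 n1 n2 n3 k158 k159 k160 k161 k162 k163 ht
          exact al.ninv t (cI (cE (pb c al 0 t (t + (n + i2 - k - l - 1)) (by omega)) (pb a1 al 0 (t + (n + i2 - k - l - 1)) (t + (n + j + i2 - 2 * k - l - 1)) (by omega))) (ab s2 al 0 (t + (n + j + i2 - 2 * k - l - 1)) t (by omega)))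
        · by_cases z38 : (2 * k + l + i3) ≤ (n + i + 2 * i2 + l2)
          · have k164 : (i3 + 1) ≤ (i2) := by clear * - b10 b2 b3 b5 b9 z32 z36; omega
            have k165 : (k + i3) ≤ (2 * i2 + l2) := by clear * - z36; omega
            have k166 : (i2 + 1) ≤ (Q) := by clear * - y5 y8; omega
            have k167 : (2 * i2 + l2 + 1) ≤ (k + l + i3) := by clear * - b10 b2 b3 b5 b6 b9 z36; omega
            clear * - al a1 a2 s1 s2 b tt c u1 u2 d1 d2 n1 n2 n3 k164 k165 k166 k167 z38 b9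
            exact n2.f1 (cE (qf d1 al 0 (i2) (2 * i2 + l2 - i3 + 1) (by omega)) (pb b al 0 (2 * i2 + l2 - i3 + 1) (k + l - n + 1) (by omega)))
          · have k168 : (2 * k + l + i3 + 1) ≤ (2 * n + i + 2 * i2 + l2) := by clear * - b10 b2 b3 b5 b6 z32 z36 z38; omega
            have k169 : (2 * k + l + i3 + 2) ≤ (2 * n + i + i2) := by clear * - b10 b2 b3 b5 b6 z32 z36 z38; omega
            have k170 : (2 * k + l + 2) ≤ (2 * n + i) := by clear * - b10 b2 b3 b5 b6 z36 z38; omega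
            have k171 : (n + i3) ≤ (2 * i2 + 2 * l2 + 2) := by clear * - b5 b8; omega
            have k172 : (k + i3) ≤ (i + 2 * i2 + l2 + 1) := by clear * - b10 b5 b8; omega
            clear * - al a1 a2 s1 s2 b tt c u1 u2 d1 d2 n1 n2 n3 z38 k168 k169 k170 y4 k171 k172
            exact al.ubP (2 * k + l + i3 - n - i - 2 * i2 - l2) (by omega) (by omega) fun t h1 h2 => (cE (sh al 2 t (t + (2 * n)) (by omega)) (cE (cE (cE (qf d2 al 1 (t + (2 * n)) (t + (n + i3 - i2 - l2 - 1)) (by omega)) (qf c al 0 (t + (n + i3 - i2 - l2 - 1)) (t + (k + l + i3 - 2 * i2 - l2)) (by omega))) (qf b al 0 (t + (k + l + i3 - 2 * i2 - l2)) (t + (2 * k + l + i3 - i - 2 * i2 - l2)) (by omega))) (sh al (-1) (t + (2 * k + l + i3 - i - 2 * i2 - l2)) (t + (2 * k + l + i3 - n - i - 2 * i2 - l2)) (by omega))))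

theorem l2_10110_18 {W : ℤ → G} {n Q i j k l i2 l2 i3 : ℤ} (al : AL W n Q)
    {L : ℤ} (mx : ∀ a b g, 0 < g → g < n → Par W a b g → b - a ≤ L) (hL : L ≤ (n - j - 3) ∧ L ≤ (n + Q - k - 3) ∧ L ≤ (n - l - 3) ∧ L ≤ (k - j - 2) ∧ L ≤ (n - l2 - 3) ∧ L ≤ (n + i3 - Q - 2) ∧ L ≤ (i2 + l2 - 1) ∧ L ≤ (n + i3 - i2 - l2 - 3))
    (hy : (0) ≤ (i) ∧ (i) ≤ (j) ∧ (j + 1) ≤ (Q) ∧ (Q) ≤ (k) ∧ (k + 1) ≤ (n) ∧ (i + l + 2) ≤ (Q) ∧ (n) ≤ (k + l + 1) ∧ (0) ≤ (i2) ∧ (i2) ≤ (i + l + 1) ∧ (n) ≤ (k + l + l2 + 2) ∧ (k + l + l2 + 3) ≤ (n + Q) ∧ (Q) ≤ (i2 + l2 + 1) ∧ (i2 + l2 + 2) ≤ (n) ∧ (0) ≤ (i3) ∧ (n + i3) ≤ (k + l + l2 + 2) ∧ (j + 3) ≤ (n) ∧ (k + 3) ≤ (n + Q) ∧ (l + 3) ≤ (n) ∧ (j + 2) ≤ (k) ∧ (l2 + 3) ≤ (n) ∧ (Q + 2) ≤ (n + i3) ∧ (1) ≤ (i2 + l2) ∧ (i2 + l2 + 3) ≤ (n + i3))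
    (a1 : Par W (0) (j) (k - j))
    (a2 : Par W (Q + j - k) (j) (k - j))
    (s1 : Ant W (0) (i) (i + j))
    (s2 : Ant W (j + 1) (Q) (i + j))
    (b : Par W (i + 1) (i + l + 1) (k - i))
    (tt : Ant W (i + l + 2) (Q) (i + l + i2 + 1))
    (c : Par W (i2 + 1) (i2 + l2 + 1) (k + l - n - i2 + 1))
    (u1 : Ant W (0) (i3) (k + l + l2 + i3 - n + 2))
    (u2 : Ant W (k + l + l2 - n + 3) (Q) (k + l + l2 + i3 - n + 2))
    (d1 : Par W (i3 + 1) (Q) (i2 + l2 - i3 + 1))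
    (d2 : Par W (i2 + l2 + 2) (n) (i3 - i2 - l2 - 1))
    (n1 : Nd W (j) (i) (k))
    (n2 : Nd W (i + l + 1) (i2) (k + l - n + 1))
    (n3 : Nd W (k + l + l2 - n + 2) (i3) (i2 + l2 + 1))
    (b0 : (j + l + l2 + i3 + 3) ≤ (n))
    (b1 : (2 * Q + i2 + l2) ≤ (n + i + j + i3))
    (b2 : (i + 2 * j + 2) ≤ (k))
    (b3 : (k + l + i2 + 3) ≤ (n + i + j))
    (b4 : (2 * Q + k) ≤ (n + 2 * i + l + i2 + 2))
    (b5 : (n + j) ≤ (k + i2 + l2))
    (b6 : (k + i2 + l2 + 1) ≤ (n + j + i3))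
    (b7 : (n + j + i3) ≤ (k + i2 + l2 + 1))
    (b8 : (k + i3) ≤ (j + i2 + l2))
    (b9 : (n + i + 2 * i2 + l2) ≤ (2 * k + l + i3)) : False := by
  have ev := al.ev
  obtain ⟨y0, y1, y2, y3, y4, y5, y6, y7, y8, y9, y10, y11, y12, y13, y14, y15, y16, y17, y18, y19, y20, y21, y22⟩ := id hy
  have n1p := And.intro n1.p1 n1.p2
  have n2p := And.intro n2.p1 n2.p2
  have n3p := And.intro n3.p1 n3.p2
  by_cases z20 : (n + i) ≤ (k + l2)
  · exact l2_10110_19 al mx hL hy a1 a2 s1 s2 b tt c u1 u2 d1 d2 n1 n2 n3 (by clear * - b0; omega) (by clear * - b1; omega) (by clear * - b2; omega) (by clear * - b3; omega) (by clear * - b4; omega) (by clear * - b5; omega) (by clear * - b6; omega) (by clear * - b7; omega) (by clear * - b8; omega) (by clear * - b9; omega) (by clear * - z20; omega)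
  · exact l2_10110_20 al mx hL hy a1 a2 s1 s2 b tt c u1 u2 d1 d2 n1 n2 n3 (by clear * - b0; omega) (by clear * - b1; omega) (by clear * - b2; omega) (by clear * - b3; omega) (by clear * - b4; omega) (by clear * - b5; omega) (by clear * - b6; omega) (by clear * - b7; omega) (by clear * - b8; omega) (by clear * - b9; omega) (by clear * - z20; omega)

theorem l2_10110_17 {W : ℤ → G} {n Q i j k l i2 l2 i3 : ℤ} (al : AL W n Q)
    {L : ℤ} (mx : ∀ a b g, 0 < g → g < n → Par W a b g → b - a ≤ L) (hL : L ≤ (n - j - 3) ∧ L ≤ (n + Q - k - 3) ∧ L ≤ (n - l - 3) ∧ L ≤ (k - j - 2) ∧ L ≤ (n - l2 - 3) ∧ L ≤ (n + i3 - Q - 2) ∧ L ≤ (i2 + l2 - 1) ∧ L ≤ (n + i3 - i2 - l2 - 3))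
    (hy : (0) ≤ (i) ∧ (i) ≤ (j) ∧ (j + 1) ≤ (Q) ∧ (Q) ≤ (k) ∧ (k + 1) ≤ (n) ∧ (i + l + 2) ≤ (Q) ∧ (n) ≤ (k + l + 1) ∧ (0) ≤ (i2) ∧ (i2) ≤ (i + l + 1) ∧ (n) ≤ (k + l + l2 + 2) ∧ (k + l + l2 + 3) ≤ (n + Q) ∧ (Q) ≤ (i2 + l2 + 1) ∧ (i2 + l2 + 2) ≤ (n) ∧ (0) ≤ (i3) ∧ (n + i3) ≤ (k + l + l2 + 2) ∧ (j + 3) ≤ (n) ∧ (k + 3) ≤ (n + Q) ∧ (l + 3) ≤ (n) ∧ (j + 2) ≤ (k) ∧ (l2 + 3) ≤ (n) ∧ (Q + 2) ≤ (n + i3) ∧ (1) ≤ (i2 + l2) ∧ (i2 + l2 + 3) ≤ (n + i3))
    (a1 : Par W (0) (j) (k - j))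
    (a2 : Par W (Q + j - k) (j) (k - j))
    (s1 : Ant W (0) (i) (i + j))
    (s2 : Ant W (j + 1) (Q) (i + j))
    (b : Par W (i + 1) (i + l + 1) (k - i))
    (tt : Ant W (i + l + 2) (Q) (i + l + i2 + 1))
    (c : Par W (i2 + 1) (i2 + l2 + 1) (k + l - n - i2 + 1))
    (u1 : Ant W (0) (i3) (k + l + l2 + i3 - n + 2))
    (u2 : Ant W (k + l + l2 - n + 3) (Q) (k + l + l2 + i3 - n + 2))
    (d1 : Par W (i3 + 1) (Q) (i2 + l2 - i3 + 1))
    (d2 : Par W (i2 + l2 + 2) (n) (i3 - i2 - l2 - 1))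
    (n1 : Nd W (j) (i) (k))
    (n2 : Nd W (i + l + 1) (i2) (k + l - n + 1))
    (n3 : Nd W (k + l + l2 - n + 2) (i3) (i2 + l2 + 1))
    (b0 : (j + l + l2 + i3 + 3) ≤ (n))
    (b1 : (2 * Q + i2 + l2) ≤ (n + i + j + i3))
    (b2 : (i + 2 * j + 2) ≤ (k))
    (b3 : (k + l + i2 + 3) ≤ (n + i + j))
    (b4 : (n + i + i2) ≤ (j + k + l + 1))
    (b5 : (2 * Q + k) ≤ (n + 2 * i + l + i2 + 2))
    (b6 : (n + j) ≤ (k + i2 + l2))
    (b7 : (k + i2 + l2 + 1) ≤ (n + j + i3))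
    (b8 : (n + j + i3) ≤ (k + i2 + l2 + 1))
    (b9 : (k + i3) ≤ (j + i2 + l2)) : False := by
  have ev := al.ev
  obtain ⟨y0, y1, y2, y3, y4, y5, y6, y7, y8, y9, y10, y11, y12, y13, y14, y15, y16, y17, y18, y19, y20, y21, y22⟩ := id hy
  have n1p := And.intro n1.p1 n1.p2
  have n2p := And.intro n2.p1 n2.p2
  have n3p := And.intro n3.p1 n3.p2
  by_cases z19 : (2 * k + l + i3 + 1) ≤ (n + i + 2 * i2 + l2)
  · have k50 : (3 * k + l + 2) ≤ (2 * n + i + j + i2) := by clear * - b7 z19; omega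
    have k51 : (n + i + j + i2) ≤ (3 * k + l) := by clear * - b4 b8 y22; omega
    have k52 : (n + i + j + i2) ≤ (2 * k + l) := by clear * - b0 b2 b4 b6 b7 y8; omega
    have k53 : (j + i2 + 1) ≤ (k) := by clear * - b0 b2 b3 b4 b6 b7 y8; omega
    have k54 : (Q + j) ≤ (k) := by clear * - b1 b2 b8; omega
    have k55 : (2 * n + i) ≤ (2 * k + l + l2 + 2) := by clear * - b4 b6; omega
    have k56 : (2 * n + i + i2) ≤ (3 * k + l + 1) := by clear * - b1 b2 b4 b6 b8 y10 y8; omega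
    clear * - al a1 a2 s1 s2 b tt c u1 u2 d1 d2 n1 n2 n3 k50 k51 k52 k53 k54 y6 k55 k56
    exact al.ubP (2 * n + i + j + i2 - 3 * k - l - 1) (by omega) (by omega) fun t h1 h2 => (cE (cE (pb b al (-1) t (t + (n + i - k)) (by omega)) (pb c al 0 (t + (n + i - k)) (t + (2 * n + i + i2 - 2 * k - l - 1)) (by omega))) (pb a2 al 0 (t + (2 * n + i + i2 - 2 * k - l - 1)) (t + (2 * n + i + j + i2 - 3 * k - l - 1)) (by omega)))
  · exact l2_10110_18 al mx hL hy a1 a2 s1 s2 b tt c u1 u2 d1 d2 n1 n2 n3 (by clear * - b0; omega) (by clear * - b1; omega) (by clear * - b2; omega) (by clear * - b3; omega) (by clear * - b5; omega) (by clear * - b6; omega) (by clear * - b7; omega) (by clear * - b8; omega) (by clear * - b9; omega) (by clear * - z19; omega)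

theorem l2_10110_16 {W : ℤ → G} {n Q i j k l i2 l2 i3 : ℤ} (al : AL W n Q)
    {L : ℤ} (mx : ∀ a b g, 0 < g → g < n → Par W a b g → b - a ≤ L) (hL : L ≤ (n - j - 3) ∧ L ≤ (n + Q - k - 3) ∧ L ≤ (n - l - 3) ∧ L ≤ (k - j - 2) ∧ L ≤ (n - l2 - 3) ∧ L ≤ (n + i3 - Q - 2) ∧ L ≤ (i2 + l2 - 1) ∧ L ≤ (n + i3 - i2 - l2 - 3))
    (hy : (0) ≤ (i) ∧ (i) ≤ (j) ∧ (j + 1) ≤ (Q) ∧ (Q) ≤ (k) ∧ (k + 1) ≤ (n) ∧ (i + l + 2) ≤ (Q) ∧ (n) ≤ (k + l + 1) ∧ (0) ≤ (i2) ∧ (i2) ≤ (i + l + 1) ∧ (n) ≤ (k + l + l2 + 2) ∧ (k + l + l2 + 3) ≤ (n + Q) ∧ (Q) ≤ (i2 + l2 + 1) ∧ (i2 + l2 + 2) ≤ (n) ∧ (0) ≤ (i3) ∧ (n + i3) ≤ (k + l + l2 + 2) ∧ (j + 3) ≤ (n) ∧ (k + 3) ≤ (n + Q) ∧ (l + 3) ≤ (n) ∧ (j + 2) ≤ (k) ∧ (l2 + 3) ≤ (n) ∧ (Q + 2) ≤ (n + i3) ∧ (1) ≤ (i2 + l2) ∧ (i2 + l2 + 3) ≤ (n + i3))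
    (a1 : Par W (0) (j) (k - j))
    (a2 : Par W (Q + j - k) (j) (k - j))
    (s1 : Ant W (0) (i) (i + j))
    (s2 : Ant W (j + 1) (Q) (i + j))
    (b : Par W (i + 1) (i + l + 1) (k - i))
    (tt : Ant W (i + l + 2) (Q) (i + l + i2 + 1))
    (c : Par W (i2 + 1) (i2 + l2 + 1) (k + l - n - i2 + 1))
    (u1 : Ant W (0) (i3) (k + l + l2 + i3 - n + 2))
    (u2 : Ant W (k + l + l2 - n + 3) (Q) (k + l + l2 + i3 - n + 2))
    (d1 : Par W (i3 + 1) (Q) (i2 + l2 - i3 + 1))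
    (d2 : Par W (i2 + l2 + 2) (n) (i3 - i2 - l2 - 1))
    (n1 : Nd W (j) (i) (k))
    (n2 : Nd W (i + l + 1) (i2) (k + l - n + 1))
    (n3 : Nd W (k + l + l2 - n + 2) (i3) (i2 + l2 + 1))
    (b0 : (2 * k + 3) ≤ (n + 2 * Q))
    (b1 : (j + l + l2 + i3 + 3) ≤ (n))
    (b2 : (2 * Q + i2 + l2) ≤ (n + i + j + i3))
    (b3 : (i + 2 * j + 2) ≤ (k))
    (b4 : (k + l + i2 + 3) ≤ (n + i + j))
    (b5 : (n + i + i2) ≤ (j + k + l + 1))
    (b6 : (2 * Q + k) ≤ (n + 2 * i + l + i2 + 2))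
    (b7 : (n + j) ≤ (k + i2 + l2))
    (b8 : (k + i2 + l2 + 1) ≤ (n + j + i3))
    (b9 : (n + j + i3) ≤ (k + i2 + l2 + 1))
    (b10 : (k + i3) ≤ (j + i2 + l2 + 1)) : False := by
  have ev := al.ev
  obtain ⟨y0, y1, y2, y3, y4, y5, y6, y7, y8, y9, y10, y11, y12, y13, y14, y15, y16, y17, y18, y19, y20, y21, y22⟩ := id hy
  have n1p := And.intro n1.p1 n1.p2
  have n2p := And.intro n2.p1 n2.p2
  have n3p := And.intro n3.p1 n3.p2
  by_cases z18 : (j + i2 + l2 + 1) ≤ (k + i3)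
  · have k48 : (i3 + 1) ≤ (j) := by clear * - b10 b2 b3 b4 b5 b6 b7 b9 y10; omega
    have k49 : (j + i2 + l2 + 2) ≤ (n + i3) := by clear * - b0 b2 b3 z18; omega
    clear * - al a1 a2 s1 s2 b tt c u1 u2 d1 d2 n1 n2 n3 k48 k49 b10 z18
    exact n1.f0 (pb d2 al 0 (j) (k) (by omega))
  · exact l2_10110_17 al mx hL hy a1 a2 s1 s2 b tt c u1 u2 d1 d2 n1 n2 n3 (by clear * - b1; omega) (by clear * - b2; omega) (by clear * - b3; omega) (by clear * - b4; omega) (by clear * - b5; omega) (by clear * - b6; omega) (by clear * - b7; omega) (by clear * - b8; omega) (by clear * - b9; omega) (by clear * - z18; omega)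

end Pool.Agent.MP_a38735_al.WL
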