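import Pool.Agent.MP_a38735_al.WQ

set_option autoImplicit false
set_option linter.unusedVariables false

namespace Pool.Agent.MP_a38735_al.WL

variable {G : Type*} [Group G]

theorem l2_10110_36 {W : ℤ → G} {n Q i j k l i2 l2 i3 : ℤ} (al : AL W n Q)
    {L : ℤ} (mx : ∀ a b g, 0 < g → g < n → Par W a b g → b - a ≤ L) (hL : L ≤ (n - j - 3) ∧ L ≤ (n + Q - k - 3) ∧ L ≤ (n - l - 3) ∧ L ≤ (k - j - 2) ∧ L ≤ (n - l2 - 3) ∧ L ≤ (n + i3 - Q - 2) ∧ L ≤ (i2 + l2 - 1) ∧ L ≤ (n + i3 - i2 - l2 - 3))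
    (hy : (0) ≤ (i) ∧ (i) ≤ (j) ∧ (j + 1) ≤ (Q) ∧ (Q) ≤ (k) ∧ (k + 1) ≤ (n) ∧ (i + l + 2) ≤ (Q) ∧ (n) ≤ (k + l + 1) ∧ (0) ≤ (i2) ∧ (i2) ≤ (i + l + 1) ∧ (n) ≤ (k + l + l2 + 2) ∧ (k + l + l2 + 3) ≤ (n + Q) ∧ (Q) ≤ (i2 + l2 + 1) ∧ (i2 + l2 + 2) ≤ (n) ∧ (0) ≤ (i3) ∧ (n + i3) ≤ (k + l + l2 + 2) ∧ (j + 3) ≤ (n) ∧ (k + 3) ≤ (n + Q) ∧ (l + 3) ≤ (n) ∧ (j + 2) ≤ (k) ∧ (l2 + 3) ≤ (n) ∧ (Q + 2) ≤ (n + i3) ∧ (1) ≤ (i2 + l2) ∧ (i2 + l2 + 3) ≤ (n + i3))
    (a1 : Par W (0) (j) (k - j))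
    (a2 : Par W (Q + j - k) (j) (k - j))
    (s1 : Ant W (0) (i) (i + j))
    (s2 : Ant W (j + 1) (Q) (i + j))
    (b : Par W (i + 1) (i + l + 1) (k - i))
    (tt : Ant W (i + l + 2) (Q) (i + l + i2 + 1))
    (c : Par W (i2 + 1) (i2 + l2 + 1) (k + l - n - i2 + 1))
    (u1 : Ant W (0) (i3) (k + l + l2 + i3 - n + 2))
    (u2 : Ant W (k + l + l2 - n + 3) (Q) (k + l + l2 + i3 - n + 2))
    (d1 : Par W (i3 + 1) (Q) (i2 + l2 - i3 + 1))
    (d2 : Par W (i2 + l2 + 2) (n) (i3 - i2 - l2 - 1))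
    (n1 : Nd W (j) (i) (k))
    (n2 : Nd W (i + l + 1) (i2) (k + l - n + 1))
    (n3 : Nd W (k + l + l2 - n + 2) (i3) (i2 + l2 + 1))
    (b0 : (i + 2 * j + 2) ≤ (k))
    (b1 : (n + i + j) ≤ (k + l + i2 + 2))
    (b2 : (n + j + i3) ≤ (k + i2 + l2 + 1))
    (b3 : (n + j) ≤ (k + 2 * l + 1))
    (b4 : (j + i2 + l2 + i3 + 3) ≤ (2 * i + k))
    (b5 : (k + i2 + l2 + 1) ≤ (n + j + i3))
    (b6 : (k + i3) ≤ (j + i2 + l2))
    (b7 : (n + j) ≤ (k + i2 + l2))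
    (b8 : (2 * Q + i2) ≤ (k + l + 2 * i3 + 1))
    (b9 : (k + l + l2 + i3 + 3) ≤ (n + i + j))
    (b10 : (n + 2 * i + i2 + l2 + 2) ≤ (2 * k + i3))
    (b11 : (j + 2 * k + l + 3) ≤ (2 * n + 2 * i + i2)) : False := by
  have ev := al.ev
  obtain ⟨y0, y1, y2, y3, y4, y5, y6, y7, y8, y9, y10, y11, y12, y13, y14, y15, y16, y17, y18, y19, y20, y21, y22⟩ := id hy
  have n1p := And.intro n1.p1 n1.p2
  have n2p := And.intro n2.p1 n2.p2
  have n3p := And.intro n3.p1 n3.p2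
  by_cases z69 : (2 * k + l + i2 + 3) ≤ (2 * n + 2 * i + j)
  · by_cases z70 : (2 * k + l + 2) ≤ (2 * n + i)
    · by_cases z71 : (k + i3) ≤ (i + 2 * i2 + l2 + 1)
      · have k331 : (n + i + 2 * i2 + l2 + 1) ≤ (2 * k + l + i3) := by clear * - b10 y8; omega
        have k332 : (2 * k + l + i3 + 1) ≤ (2 * n + i + 2 * i2 + l2) := by clear * - b10 b3 b6 b7 b9 z69 z70 z71; omega
        have k333 : (2 * k + l + i3 + 2) ≤ (2 * n + i + i2) := by clear * - b10 b3 b6 b7 b9 z70; omega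
        have k334 : (n + i3) ≤ (2 * i2 + 2 * l2 + 2) := by clear * - b6 b7; omega
        clear * - al a1 a2 s1 s2 b tt c u1 u2 d1 d2 n1 n2 n3 k331 k332 k333 z70 y4 k334 z71
        exact al.ubP (2 * k + l + i3 - n - i - 2 * i2 - l2) (by omega) (by omega) fun t h1 h2 => (cE (sh al 2 t (t + (2 * n)) (by omega)) (cE (cE (cE (qf d2 al 1 (t + (2 * n)) (t + (n + i3 - i2 - l2 - 1)) (by omega)) (qf c al 0 (t + (n + i3 - i2 - l2 - 1)) (t + (k + l + i3 - 2 * i2 - l2)) (by omega))) (qf b al 0 (t + (k + l + i3 - 2 * i2 - l2)) (t + (2 * k + l + i3 - i - 2 * i2 - l2)) (by omega))) (sh al (-1) (t + (2 * k + l + i3 - i - 2 * i2 - l2)) (t + (2 * k + l + i3 - n - i - 2 * i2 - l2)) (by omega))))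
      · by_cases z72 : (i + k + 2 * l + 4) ≤ (n + 2 * i2)
        · by_cases z73 : (2 * i + 2 * l + i2 + l2 + 5) ≤ (j + k + i3)
          · have k335 : (2 * i + j + 2 * l + i2 + l2 + 5) ≤ (2 * Q + k + i3) := by clear * - b6 b7 y10 z71; omega
            have k336 : (j + l2 + i3 + 3) ≤ (k + i2) := by clear * - b3 b6 b7 b9 z70 z73; omega
            have k337 : (k + i3) ≤ (j + 3 * i2 + l2 + 1) := by clear * - b3 b5 b6 b7 b9 z70 z73; omega
            have k338 : (2 * i + k + 2 * l + i2 + l2 + 5) ≤ (2 * n + j + i3) := by clear * - b10 b6 z70; omega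
            have k339 : (j + i2 + l2 + i3 + 3) ≤ (2 * Q + k) := by clear * - b3 b6 b7 b9 y10 z69 z71 z72; omega
            have k340 : (j + l2 + 3 * i3 + 1) ≤ (2 * i + k + 2 * l + i2) := by clear * - b3 b6 b7 b9 z69 z71 z72; omega
            have k341 : (k + i3) ≤ (2 * Q + j + i2 + l2 + 1) := by clear * - b3 b6 b7 y10 z69 z73; omega
            have k342 : (3 * k + 3 * i3) ≤ (2 * i + 3 * j + 2 * l + 5 * i2 + 3 * l2 + 7) := by clear * - b3 b5 b6 b7 b9 z70 z71 z73; omega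
            have k343 : (2 * i + k + 2 * l + 3 * i2 + l2 + 5) ≤ (2 * n + 2 * Q + j + i3) := by clear * - b3 b6 b7 y10 z69 z71 z72; omega
            have k344 : (2 * i + 3 * k + 2 * l + 3 * i2 + l2 + 5) ≤ (4 * n + 3 * j + i3) := by clear * - b3 b6 z69 z71 z72; omega
            have k345 : (2 * i + 2 * l + 3 * i2 + l2 + 5) ≤ (2 * Q + j + k + i3) := by clear * - b4 b5 b6 b7 y10 z71; omega
            have k346 : (2 * i + 2 * l + 3 * i2 + l2 + 5) ≤ (3 * j + k + i3) := by clear * - b5 b6 b7 b9 z71; omega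
            have k347 : (i + l + i2 + 1) % 2 = 0 := by clear * - ev n1p n2p n3p; omega
            have k348 : (j + i2 + l2 - k - i3 + 1) % 2 = 0 := by clear * - ev n1p n2p n3p; omega
            clear * - al a1 a2 s1 s2 b tt c u1 u2 d1 d2 n1 n2 n3 b6 k335 k336 k337 k338 z73 k339 k340 k341 k342 k343 k344 k345 k346 k347 k348
            exact midP al (j + i2 + l2 - k - i3 + 1) (i + l + i2 + 1) (max (i + k + l + i2 - n - j + 2) (max (i + l + i2 - j + 2) (max (i + l + 2) (max (k + i3 - j - i2 - l2 - 1) (i3 + 1))))) (max (k + i3 - j - i2 - l2 - 1) (i3 + 1)) (min (n + j - k) (j)) (by omega) (fun t h1 h2 => (qa tt al 0 t ((i + l + i2 + 1) - t) (by omega))) (fun t h1 h2 => (cE (pb d2 al 0 t (t + (i2 + l2 - i3 + 1)) (by omega)) (pb a1 al 0 (t + (i2 + l2 - i3 + 1)) (t + (j + i2 + l2 - k - i3 + 1)) (by omega))))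
          · by_cases z74 : (n + i + 2 * i2 + 1) ≤ (2 * Q + k)
            · have k349 : (n + i) ≤ (k + 2 * l2) := by clear * - b10 b6 b7 z69 z71 z72 z73; omega
              have k350 : (k + 1) ≤ (n + i) := by clear * - b10 z69 z72 z73; omega
              obtain ⟨t, ht⟩ : ∃ t, 2 * t = (n + i + 2 * i2 - k) := ⟨(n + i + 2 * i2 - k) / 2, by clear * - ev n1p n2p n3p; omega⟩
              clear * - al a1 a2 s1 s2 b tt c u1 u2 d1 d2 n1 n2 n3 z72 k349 z74 k350 ht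
              exact al.ninv t (cE (qa tt al 0 t ((i + l + i2 + 1) - t) (by omega)) (pb c al 0 ((i + l + i2 + 1) - t) t (by omega)))
            · have k351 : (k + l + 2) ≤ (n + i2) := by clear * - b10 z69 z72 z73; omega
              have k352 : (j + i2) ≤ (k + i3 + 1) := by clear * - b10 b7 z69 z71 z72 z73; omega
              have k353 : (n + i3) ≤ (k + l) := by clear * - b10 b6 b7 b9 z71 z73; omega
              have k354 : (n + Q + i3) ≤ (k + l + i2 + l2 + 2) := by clear * - b10 b6 b7 b9 z69 z71 z72 z73 z74; omega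
              have k355 : (2 * i2 + l2) ≤ (n + i3) := by clear * - b10 z69 z71 z72 z73; omega
              have k356 : (2 * i2 + l2) ≤ (k + i3) := by clear * - b5 b6 b7 b9 z71 z73; omega
              have k357 : (n + i2 - k - l - 1) % 2 = 0 := by clear * - ev n1p n2p n3p; omega
              have k358 : (j + i2 + l2 - k - i3 + 1) % 2 = 0 := by clear * - ev n1p n2p n3p; omega
              clear * - al a1 a2 s1 s2 b tt c u1 u2 d1 d2 n1 n2 n3 k351 b6 k352 k353 k354 k355 k356 k357 k358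
              exact n2.f1 (rEE (sh al 1 (i2) (n + i2) (by omega)) (sh al 1 (k + l - n + 1) (k + l + 1) (by omega)) (Eq.symm (rotL (n + i2 - k - l - 1) (j + i2 + l2 - k - i3 + 1) (k + l + 1) (n + i2) (by omega) (fun t h1 h2 => (cE (pb c al 1 t (t + (i2 - k - l - 1)) (by omega)) (sh al 1 (t + (i2 - k - l - 1)) (t + (n + i2 - k - l - 1)) (by omega)))) (fun t h1 h2 => (cE (cE (pb d2 al 1 t (t + (i2 + l2 - n - i3 + 1)) (by omega)) (pb a2 al 0 (t + (i2 + l2 - n - i3 + 1)) (t + (j + i2 + l2 - n - k - i3 + 1)) (by omega))) (sh al 1 (t + (j + i2 + l2 - n - k - i3 + 1)) (t + (j + i2 + l2 - k - i3 + 1)) (by omega)))))))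
        · by_cases z75 : (n + 2 * i + l + i2 + 3) ≤ (2 * Q + k)
          · have k359 : (k + l + 3) ≤ (n + i2) := by clear * - b10 b11 b6; omega
            have k360 : (n + 2 * i + l + 1) ≤ (k + i2 + 2 * l2) := by clear * - b10 b6 b7 z70 z71; omega
            have k361 : (k + l + i2 + 3) ≤ (n + 2 * Q) := by clear * - b10 b11 b6 z72 z75; omega
            have k362 : (3 * k + l + 3) ≤ (3 * n + 2 * i + i2) := by clear * - b10 b11 b6 z72; omega
            have k363 : (n + 2 * i + l + i2 + 1) ≤ (2 * Q + k + 2 * l2) := by clear * - b10 b11 b6 b7 z71 z72 z75; omega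
            have k364 : (n + 2 * i + l) ≤ (k + i2 + 4 * l2 + 1) := by clear * - b10 b11 b6 b7 z71 z72; omega
            have k365 : (i + l + i2 - 2 * n + 1) % 2 = 0 := by clear * - ev n1p n2p n3p; omega
            have k366 : (n + i2 - k - l - 1) % 2 = 0 := by clear * - ev n1p n2p n3p; omega
            clear * - al a1 a2 s1 s2 b tt c u1 u2 d1 d2 n1 n2 n3 z75 k359 k360 k361 k362 k363 k364 k365 k366
            exact midP al (n + i2 - k - l - 1) (i + l + i2 - 2 * n + 1) (max (i + l - n - l2 + 1) (max (i + l - n + 2) (k + l - 2 * n + 2))) (k + l - 2 * n + 2) (i2 + l2 - n + 1) (by omega) (fun t h1 h2 => (cE (qa tt al (-1) t ((i + l + i2 - n + 1) - t) (by omega)) (sh al (-1) ((i + l + i2 - n + 1) - t) ((i + l + i2 - 2 * n + 1) - t) (by omega)))) (fun t h1 h2 => (cE (pb c al (-1) t (t + (2 * n + i2 - k - l - 1)) (by omega)) (sh al (-1) (t + (2 * n + i2 - k - l - 1)) (t + (n + i2 - k - l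 - 1)) (by omega))))
          · have k367 : (k + l + 2) ≤ (n + i2) := by clear * - b10 b11 b6; omega
            have k368 : (n + i2) ≤ (2 * i + k + l + 1) := by clear * - b5 b7 b9 z72; omega
            have k369 : (3 * k + l + i2 + 3) ≤ (3 * n + 4 * i) := by clear * - b5 b7 b9 z70 z72; omega
            have k370 : (n + 2 * j) ≤ (k + l + i2 + 2 * l2 + 1) := by clear * - b3 b6 b7 z70 z71; omega
            have k371 : (3 * n + i2) ≤ (3 * k + 3 * l + 3) := by clear * - b10 b3 b5 b6 b7 b9 z72; omega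
            have k372 : (n + i2) ≤ (k + 3 * l + 1) := by clear * - b10 b3 b6 z69; omega
            have k373 : (3 * n + 2 * i + 2 * j) ≤ (3 * k + 3 * l + i2 + 2 * l2 + 3) := by clear * - b10 b3 b6 b7 z70 z71; omega
            have k374 : (k + l + i2 + 1) ≤ (n + 2 * i + 2 * j) := by clear * - b10 b11 b5 b6 b7 b9 z71 z72; omega
            have k375 : (3 * k + l + i2 + 3) ≤ (3 * n + 2 * i + 2 * j) := by clear * - b10 b11 b6 z69 z72; omega
            have k376 : (5 * k + 3 * l + i2 + 5) ≤ (5 * n + 4 * i + 2 * j) := by clear * - b10 b11 b6 z69; omega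
            have k377 : (3 * n + 2 * i) ≤ (3 * k + l + i2 + 2 * l2 + 3) := by clear * - b10 b11 b6 b7 z72; omega
            have k378 : (n + 2 * i) ≤ (k + l + i2 + 2 * l2 + 1) := by clear * - b10 b3 b6 b7 z69 z70; omega
            have k379 : (3 * n + 4 * i + 2 * j) ≤ (3 * k + l + 3 * i2 + 4 * l2 + 3) := by clear * - b10 b3 b6 b7 z70 z71; omega
            have k380 : (2 * i + j - n - k) % 2 = 0 := by clear * - ev n1p n2p n3p; omega
            have k381 : (n + i2 - k - l - 1) % 2 = 0 := by clear * - ev n1p n2p n3p; omega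
            clear * - al a1 a2 s1 s2 b tt c u1 u2 d1 d2 n1 n2 n3 k367 k368 k369 k370 k371 k372 k373 k374 k375 k376 k377 k378 k379 k380 k381
            exact midP al (n + i2 - k - l - 1) (2 * i + j - n - k) (max (j - n + 1) (max (k + l - 2 * n + 2) (max (2 * i + j - k - i2 - l2) (i + j - k - l)))) (k + l - 2 * n + 2) (i2 + l2 - n + 1) (by omega) (fun t h1 h2 => (cE (cE (ab s1 al (-1) t ((i + j - n) - t) (by omega)) (pb b al (-1) ((i + j - n) - t) ((2 * i + j - k) - t) (by omega))) (sh al (-1) ((2 * i + j - k) - t) ((2 * i + j - n - k) - t) (by omega)))) (fun t h1 h2 => (cE (pb c al (-1) t (t + (2 * n + i2 - k - l - 1)) (by omega)) (sh al (-1) (t + (2 * n + i2 - k - l - 1)) (t + (n + i2 - k - l - 1)) (by omega))))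
    · have k382 : (i2 + 1) ≤ (j + l) := by clear * - b10 b3 b6 z69; omega
      have k383 : (j) ≤ (l + i2) := by clear * - b10 b11 b3 b6; omega
      have k384 : (2 * n + 2 * i + j) ≤ (2 * k + l + i2 + 2 * l2 + 2) := by clear * - b0 b5 b6 b7 z69 z70; omega
      have k385 : (2 * n + i2) ≤ (j + 2 * k + l + 2) := by clear * - z69 z70; omega
      obtain ⟨t, ht⟩ : ∃ t, 2 * t = (j + 2 * k + l - 2 * n - i2 + 1) := ⟨(j + 2 * k + l - 2 * n - i2 + 1) / 2, by clear * - ev n1p n2p n3p; omega⟩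
      clear * - al a1 a2 s1 s2 b tt c u1 u2 d1 d2 n1 n2 n3 k382 z69 b11 k383 k384 k385 ht
      exact al.ninv t (cI (cE (pb b al (-1) t (t + (n + i - k)) (by omega)) (pb c al 0 (t + (n + i - k)) (t + (2 * n + i + i2 - 2 * k - l - 1)) (by omega))) (ab s1 al 0 (t + (2 * n + i + i2 - 2 * k - l - 1)) t (by omega)))
  · have k386 : (k) ≤ (n + l + l2 + i3) := by clear * - b0 b11 b5 b6 b7 y14; omega
    have k387 : (n + 2 * i) ≤ (k + l + l2 + i3) := by clear * - b0 b10 b5 b6 b7 y8; omega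
    have k388 : (n + 2 * i + l + l2 + i3 + 4) ≤ (2 * Q + k) := by clear * - b4 b5 b6 y5 z69; omega
    have k389 : (n + l2 + i3 + 1) ≤ (k + l) := by clear * - b4 b5 b6 z69; omega
    have k390 : (k + l2 + i3 + 1) ≤ (n + 2 * i + l) := by clear * - b10 b11 b3 b4 b5 b6; omega
    have k391 : (3 * k + l + l2 + 3) ≤ (3 * n + 2 * i + i3) := by clear * - b11 b5; omega
    obtain ⟨t, ht⟩ : ∃ t, 2 * t = (3 * n + 2 * i + l + l2 + i3 - k + 2) := ⟨(3 * n + 2 * i + l + l2 + i3 - k + 2) / 2, by clear * - ev n1p n2p n3p; omega⟩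
    clear * - al a1 a2 s1 s2 b tt c u1 u2 d1 d2 n1 n2 n3 k386 k387 k388 k389 k390 k391 ht
    exact al.ninv t (cE (cI (cE (qf b al 1 t (t + (k - n - i)) (by omega)) (qf b al 1 (t + (k - n - i)) (t + (2 * k - 2 * n - 2 * i)) (by omega))) (ab u2 al 1 (t + (2 * k - 2 * n - 2 * i)) ((2 * n + 2 * i + l + l2 + i3 - k + 2) - t) (by omega))) (sh al 1 ((2 * n + 2 * i + l + l2 + i3 - k + 2) - t) t (by omega)))

theorem l2_10110_37 {W : ℤ → G} {n Q i j k l i2 l2 i3 : ℤ} (al : AL W n Q)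
    {L : ℤ} (mx : ∀ a b g, 0 < g → g < n → Par W a b g → b - a ≤ L) (hL : L ≤ (n - j - 3) ∧ L ≤ (n + Q - k - 3) ∧ L ≤ (n - l - 3) ∧ L ≤ (k - j - 2) ∧ L ≤ (n - l2 - 3) ∧ L ≤ (n + i3 - Q - 2) ∧ L ≤ (i2 + l2 - 1) ∧ L ≤ (n + i3 - i2 - l2 - 3))
    (hy : (0) ≤ (i) ∧ (i) ≤ (j) ∧ (j + 1) ≤ (Q) ∧ (Q) ≤ (k) ∧ (k + 1) ≤ (n) ∧ (i + l + 2) ≤ (Q) ∧ (n) ≤ (k + l + 1) ∧ (0) ≤ (i2) ∧ (i2) ≤ (i + l + 1) ∧ (n) ≤ (k + l + l2 + 2) ∧ (k + l + l2 + 3) ≤ (n + Q) ∧ (Q) ≤ (i2 + l2 + 1) ∧ (i2 + l2 + 2) ≤ (n) ∧ (0) ≤ (i3) ∧ (n + i3) ≤ (k + l + l2 + 2) ∧ (j + 3) ≤ (n) ∧ (k + 3) ≤ (n + Q) ∧ (l + 3) ≤ (n) ∧ (j + 2) ≤ (k) ∧ (l2 + 3) ≤ (n) ∧ (Q + 2) ≤ (n + i3) ∧ (1) ≤ (i2 + l2) ∧ (i2 + l2 + 3) ≤ (n + i3))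
    (a1 : Par W (0) (j) (k - j))
    (a2 : Par W (Q + j - k) (j) (k - j))
    (s1 : Ant W (0) (i) (i + j))
    (s2 : Ant W (j + 1) (Q) (i + j))
    (b : Par W (i + 1) (i + l + 1) (k - i))
    (tt : Ant W (i + l + 2) (Q) (i + l + i2 + 1))
    (c : Par W (i2 + 1) (i2 + l2 + 1) (k + l - n - i2 + 1))
    (u1 : Ant W (0) (i3) (k + l + l2 + i3 - n + 2))
    (u2 : Ant W (k + l + l2 - n + 3) (Q) (k + l + l2 + i3 - n + 2))
    (d1 : Par W (i3 + 1) (Q) (i2 + l2 - i3 + 1))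
    (d2 : Par W (i2 + l2 + 2) (n) (i3 - i2 - l2 - 1))
    (n1 : Nd W (j) (i) (k))
    (n2 : Nd W (i + l + 1) (i2) (k + l - n + 1))
    (n3 : Nd W (k + l + l2 - n + 2) (i3) (i2 + l2 + 1))
    (b0 : (i + 2 * j + 2) ≤ (k))
    (b1 : (n + i + j) ≤ (k + l + i2 + 2))
    (b2 : (n + j + i3) ≤ (k + i2 + l2 + 1))
    (b3 : (n + j) ≤ (k + 2 * l + 1))
    (b4 : (j + i2 + l2 + i3 + 3) ≤ (2 * i + k))
    (b5 : (k + i2 + l2 + 1) ≤ (n + j + i3))
    (b6 : (k + i3) ≤ (j + i2 + l2))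
    (b7 : (n + j) ≤ (k + i2 + l2))
    (b8 : (2 * Q + i2) ≤ (k + l + 2 * i3 + 1))
    (b9 : (k + l + l2 + i3 + 3) ≤ (n + i + j))
    (b10 : (2 * n + 2 * i + i2) ≤ (j + 2 * k + l + 2)) : False := by
  have ev := al.ev
  obtain ⟨y0, y1, y2, y3, y4, y5, y6, y7, y8, y9, y10, y11, y12, y13, y14, y15, y16, y17, y18, y19, y20, y21, y22⟩ := id hy
  have n1p := And.intro n1.p1 n1.p2
  have n2p := And.intro n2.p1 n2.p2
  have n3p := And.intro n3.p1 n3.p2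
  by_cases z76 : (n + i + 2 * i2 + 2) ≤ (2 * Q + k)
  · by_cases z77 : (i + k + 2 * l + 4) ≤ (n + 2 * i2)
    · have k392 : (k + 2) ≤ (n + i) := by clear * - b0 b4 b5 b6 b7; omega
      have k393 : (n + i) ≤ (k + 2 * l2 + 1) := by clear * - b0 b5 b6 b7 b8 b9 z76; omega
      have k394 : (n + i + 2 * i2 + 1) ≤ (2 * Q + k) := by clear * - z76; omega
      obtain ⟨t, ht⟩ : ∃ t, 2 * t = (i + k + 2 * l - 3 * n + 2) := ⟨(i + k + 2 * l - 3 * n + 2) / 2, by clear * - ev n1p n2p n3p; omega⟩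
      clear * - al a1 a2 s1 s2 b tt c u1 u2 d1 d2 n1 n2 n3 k392 z77 k393 k394 ht
      exact al.ninv t (cE (cI (pb c al (-1) t (t + (2 * n + i2 - k - l - 1)) (by omega)) (qa tt al 0 (t + (2 * n + i2 - k - l - 1)) ((i + k + 2 * l - 2 * n + 2) - t) (by omega))) (sh al (-1) ((i + k + 2 * l - 2 * n + 2) - t) t (by omega)))
    · by_cases z78 : (j + 2 * k + 1) ≤ (2 * n + 3 * i)
      · by_cases z79 : (2 * n + i + j) ≤ (2 * k + 2 * l + 1)
        · have k395 : (2 * n + i) ≤ (j + 2 * k) := by clear * - b10 b5 b7 b9; omega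
          have k396 : (2 * n + i + j) ≤ (2 * k + 2 * l) := by clear * - z79 ev n1p n2p n3p; omega
          have k397 : (i + 1) ≤ (j) := by clear * - b0 b10 b5 b6 b7 b9 z78; omega
          obtain ⟨t, ht⟩ : ∃ t, 2 * t = (j + 2 * k - i) := ⟨(j + 2 * k - i) / 2, by clear * - ev n1p n2p n3p; omega⟩
          clear * - al a1 a2 s1 s2 b tt c u1 u2 d1 d2 n1 n2 n3 k395 k396 z78 k397 ht
          exact al.ninv t (cE (cE (qa s1 al 1 t ((n + i + j) - t) (by omega)) (qf b al 0 ((n + i + j) - t) ((n + j + k) - t) (by omega))) (qf b al 1 ((n + j + k) - t) t (by omega)))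
        · by_cases z80 : (2 * i2 + l2) ≤ (k + i3)
          · have k398 : (k + l + 2) ≤ (n + i2) := by clear * - b0 b5 b6 b7 b9; omega
            have k399 : (j + i2) ≤ (k + i3 + 1) := by clear * - b1 b2 b8 z76 z78 z79 z80; omega
            have k400 : (n + i3) ≤ (k + l) := by clear * - b10 b2 b3 b9 z79; omega
            have k401 : (n + i3) ≤ (j + l + i2 + l2 + 2) := by clear * - b10 b3 b5 b6 b7 b9 z79; omega
            have k402 : (i2) ≤ (Q + 1) := by clear * - b3 z76 z79; omega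
            have k403 : (n + i2 - k - l - 1) % 2 = 0 := by clear * - ev n1p n2p n3p; omega
            have k404 : (j + i2 + l2 - k - i3 + 1) % 2 = 0 := by clear * - ev n1p n2p n3p; omega
            clear * - al a1 a2 s1 s2 b tt c u1 u2 d1 d2 n1 n2 n3 k398 b6 k399 k400 k401 k402 z80 k403 k404
            exact n2.f1 (rEE (sh al (-1) (i2) (i2 - n) (by omega)) (sh al (-1) (k + l - n + 1) (k + l - 2 * n + 1) (by omega)) (Eq.symm (rotL (n + i2 - k - l - 1) (j + i2 + l2 - k - i3 + 1) (k + l - 2 * n + 1) (i2 - n) (by omega) (fun t h1 h2 => (cE (pb c al (-1) t (t + (2 * n + i2 - k - l - 1)) (by omega)) (sh al (-1) (t + (2 * n + i2 - k - l - 1)) (t + (n + i2 - k - l - 1)) (by omega)))) (fun t h1 h2 => (cE (cE (qf d1 al (-1) t (t + (n + i2 + l2 - i3 + 1)) (by omega)) (pb a1 al 0 (t + (n + i2 + l2 - i3 + 1)) (t + (n + j + i2 + l2 - k - i3 + 1)) (by omega))) (sh al (-1) (t + (n + j + i2 + l2 -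 k - i3 + 1)) (t + (j + i2 + l2 - k - i3 + 1)) (by omega)))))))
          · have k405 : (l + i2 + 3) ≤ (n + i) := by clear * - b1 b10 b4 b8 z76 z78 z79 z80; omega
            have k406 : (2 * k + l + 1) ≤ (n + i + 2 * j + i2) := by clear * - b10 b5 b7 b9 z78 z79 z80; omega
            have k407 : (n + i) ≤ (l + i2 + 2 * l2 + 2) := by clear * - b8 z76 z80; omega
            have k408 : (n + i + i2) ≤ (2 * k + l) := by clear * - b1 b10 b4 b8 z76 z78 z79 z80; omega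
            have k409 : (n + 2 * j + i2) ≤ (i + 2 * k + l) := by clear * - b0 b5 b7 b9 z77; omega
            obtain ⟨t, ht⟩ : ∃ t, 2 * t = (i + 2 * k + l - 3 * n - i2 + 1) := ⟨(i + 2 * k + l - 3 * n - i2 + 1) / 2, by clear * - ev n1p n2p n3p; omega⟩
            clear * - al a1 a2 s1 s2 b tt c u1 u2 d1 d2 n1 n2 n3 k405 k406 k407 k408 k409 ht
            exact al.ninv t (cE (cI (cE (pb c al (-1) t (t + (2 * n + i2 - k - l - 1)) (by omega)) (pb a1 al 0 (t + (2 * n + i2 - k - l - 1)) (t + (2 * n + j + i2 - 2 * k - l - 1)) (by omega))) (qa s1 al 0 (t + (2 * n + j + i2 - 2 * k - l - 1)) ((i + 2 * k + l - 2 * n - i2 + 1) - t) (by omega))) (sh al (-1) ((i + 2 * k + l - 2 * n - i2 + 1) - t) t (by omega)))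
      · by_cases z81 : (n + i) ≤ (l + i2 + 2 * l2 + 2)
        · have k410 : (l + i2 + 3) ≤ (n + i) := by clear * - b0 b5 b7 b8 b9 z76 z77 z81; omega
          have k411 : (2 * k + l + 1) ≤ (n + i + 2 * j + i2) := by clear * - b5 b7 b9 z81; omega
          have k412 : (n + i + i2) ≤ (2 * k + l) := by clear * - b0 b5 b7 b9 z77 z78 z81; omega
          have k413 : (n + 2 * j + i2) ≤ (i + 2 * k + l) := by clear * - b0 b5 b7 b9 z77; omega
          obtain ⟨t, ht⟩ : ∃ t, 2 * t = (i + 2 * k + l - 3 * n - i2 + 1) := ⟨(i + 2 * k + l - 3 * n - i2 + 1) / 2, by clear * - ev n1p n2p n3p; omega⟩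
          clear * - al a1 a2 s1 s2 b tt c u1 u2 d1 d2 n1 n2 n3 k410 k411 z81 k412 k413 ht
          exact al.ninv t (cE (cI (cE (pb c al (-1) t (t + (2 * n + i2 - k - l - 1)) (by omega)) (pb a1 al 0 (t + (2 * n + i2 - k - l - 1)) (t + (2 * n + j + i2 - 2 * k - l - 1)) (by omega))) (qa s1 al 0 (t + (2 * n + j + i2 - 2 * k - l - 1)) ((i + 2 * k + l - 2 * n - i2 + 1) - t) (by omega))) (sh al (-1) ((i + 2 * k + l - 2 * n - i2 + 1) - t) t (by omega)))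
        · have k414 : (k + l + 2) ≤ (n + i2) := by clear * - b0 b5 b6 b7 z81; omega
          have k415 : (j + i2) ≤ (k + i3 + 1) := by clear * - b0 b5 b6 b7 b8 z76 z77 z81; omega
          have k416 : (n + i3) ≤ (k + l) := by clear * - b1 b4 b6 b8 z76 z81; omega
          have k417 : (n + i3) ≤ (j + l + i2 + l2 + 2) := by clear * - b1 b4 b5 b6 b7 b8 z76 z81; omega
          have k418 : (i2) ≤ (Q + 1) := by clear * - b0 b5 b6 b7 z76 z77 z81; omega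
          have k419 : (2 * i2 + l2) ≤ (k + i3) := by clear * - b8 z76 z81; omega
          have k420 : (n + i2 - k - l - 1) % 2 = 0 := by clear * - ev n1p n2p n3p; omega
          have k421 : (j + i2 + l2 - k - i3 + 1) % 2 = 0 := by clear * - ev n1p n2p n3p; omega
          clear * - al a1 a2 s1 s2 b tt c u1 u2 d1 d2 n1 n2 n3 k414 b6 k415 k416 k417 k418 k419 k420 k421
          exact n2.f1 (rEE (sh al (-1) (i2) (i2 - n) (by omega)) (sh al (-1) (k + l - n + 1) (k + l - 2 * n + 1) (by omega)) (Eq.symm (rotL (n + i2 - k - l - 1) (j + i2 + l2 - k - i3 + 1) (k + l - 2 * n + 1) (i2 - n) (by omega) (fun t h1 h2 => (cE (pb c al (-1) t (t + (2 * n + i2 - k - l - 1)) (by omega)) (sh al (-1) (t + (2 * n + i2 - k - l - 1)) (t + (n + i2 - k - l - 1)) (by omega)))) (fun t h1 h2 => (cE (cE (qf d1 al (-1) t (t + (n + i2 + l2 - i3 + 1)) (by omega)) (pb a1 al 0 (t + (n + i2 + l2 - i3 + 1)) (t + (n + j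 + i2 + l2 - k - i3 + 1)) (by omega))) (sh al (-1) (t + (n + j + i2 + l2 - k - i3 + 1)) (t + (j + i2 + l2 - k - i3 + 1)) (by omega)))))))
  · by_cases z82 : (2 * i2 + l2) ≤ (k + i3)
    · have k422 : (k + l + 2) ≤ (n + i2) := by clear * - b0 b5 b6 b7 b9; omega
      have k423 : (j + i2) ≤ (k + i3 + 1) := by clear * - b0 b4 b5 b6 b7 z82; omega
      have k424 : (n + i3) ≤ (k + l) := by clear * - b1 b4 b6 z82; omega
      have k425 : (n + Q + i3) ≤ (k + l + i2 + l2 + 2) := by clear * - b0 b10 b4 b5 b6 b7 z76; omega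
      have k426 : (2 * i2 + l2) ≤ (n + i3) := by clear * - b0 b4 b5 b6 b7 z82; omega
      have k427 : (n + i2 - k - l - 1) % 2 = 0 := by clear * - ev n1p n2p n3p; omega
      have k428 : (j + i2 + l2 - k - i3 + 1) % 2 = 0 := by clear * - ev n1p n2p n3p; omega
      clear * - al a1 a2 s1 s2 b tt c u1 u2 d1 d2 n1 n2 n3 k422 b6 k423 k424 k425 k426 z82 k427 k428
      exact n2.f1 (rEE (sh al 1 (i2) (n + i2) (by omega)) (sh al 1 (k + l - n + 1) (k + l + 1) (by omega)) (Eq.symm (rotL (n + i2 - k - l - 1) (j + i2 + l2 - k - i3 + 1) (k + l + 1) (n + i2) (by omega) (fun t h1 h2 => (cE (pb c al 1 t (t + (i2 - k - l - 1)) (by omega)) (sh al 1 (t + (i2 - k - l - 1)) (t + (n + i2 - k - l - 1)) (by omega)))) (fun t h1 h2 => (cE (cE (pb d2 al 1 t (t + (i2 + l2 - n - i3 + 1)) (by omega)) (pb a2 al 0 (t + (i2 + l2 - n - i3 + 1)) (t + (j + i2 + l2 - n - k - i3 + 1)) (by omega))) (sh al 1 (t + (j + i2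 + l2 - n - k - i3 + 1)) (t + (j + i2 + l2 - k - i3 + 1)) (by omega)))))))
    · have k429 : (j + i2 + l2 + 2) ≤ (n + k + i3) := by clear * - b0 b10 b4 b5 b6 b7 b9; omega
      have k430 : (j + i2 + l2 + 2) ≤ (n + i3) := by clear * - b0 b4 b5 b6 b7; omega
      have k431 : (j + i2 + l2 + 2) ≤ (n + i) := by clear * - b0 b4 b5 b6 b7; omega
      have k432 : (k) ≤ (n + i) := by clear * - b0 b4 b5 b6 b7; omega
      have k433 : (n + i) ≤ (Q + k) := by clear * - b0 b10 b4 b5 b6 b7 y10; omega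
      have k434 : (n + i + i2 + l2 + 1) ≤ (2 * k + i3) := by clear * - b0 b10 b4 b5 b6 b7 b9; omega
      have k435 : (n + j + i2 + l2) ≤ (2 * k + l + i3) := by clear * - b0 b10 b4 b5 b6 b7 z82; omega
      clear * - al a1 a2 s1 s2 b tt c u1 u2 d1 d2 n1 n2 n3 b6 k429 k430 k431 k432 k433 k434 k435
      exact al.ubP (j + i2 + l2 - k - i3 + 1) (by omega) (by omega) fun t h1 h2 => (cE (cE (cE (cE (pb b al (-1) t (t + (n + i - k)) (by omega)) (qf d1 al 0 (t + (n + i - k)) (t + (n + i + i2 + l2 - k - i3 + 1)) (by omega))) (pb a1 al 0 (t + (n + i + i2 + l2 - k - i3 + 1)) (t + (n + i + j + i2 + l2 - 2 * k - i3 + 1)) (by omega))) (qf b al 0 (t + (n + i + j + i2 + l2 - 2 * k - i3 + 1)) (t + (n + j + i2 + l2 - k - i3 + 1)) (by omega))) (sh al (-1) (t + (n + j + i2 + l2 - k - i3 + 1)) (t + (j + i2 + l2 - k - i3 + 1)) (by omega)))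

theorem l2_10110_35 {W : ℤ → G} {n Q i j k l i2 l2 i3 : ℤ} (al : AL W n Q)
    {L : ℤ} (mx : ∀ a b g, 0 < g → g < n → Par W a b g → b - a ≤ L) (hL : L ≤ (n - j - 3) ∧ L ≤ (n + Q - k - 3) ∧ L ≤ (n - l - 3) ∧ L ≤ (k - j - 2) ∧ L ≤ (n - l2 - 3) ∧ L ≤ (n + i3 - Q - 2) ∧ L ≤ (i2 + l2 - 1) ∧ L ≤ (n + i3 - i2 - l2 - 3))
    (hy : (0) ≤ (i) ∧ (i) ≤ (j) ∧ (j + 1) ≤ (Q) ∧ (Q) ≤ (k) ∧ (k + 1) ≤ (n) ∧ (i + l + 2) ≤ (Q) ∧ (n) ≤ (k + l + 1) ∧ (0) ≤ (i2) ∧ (i2) ≤ (i + l + 1) ∧ (n) ≤ (k + l + l2 + 2) ∧ (k + l + l2 + 3) ≤ (n + Q) ∧ (Q) ≤ (i2 + l2 + 1) ∧ (i2 + l2 + 2) ≤ (n) ∧ (0) ≤ (i3) ∧ (n + i3) ≤ (k + l + l2 + 2) ∧ (j + 3) ≤ (n) ∧ (k + 3) ≤ (n + Q) ∧ (l + 3) ≤ (n) ∧ (j + 2) ≤ (k) ∧ (l2 + 3) ≤ (n) ∧ (Q + 2) ≤ (n + i3) ∧ (1) ≤ (i2 + l2) ∧ (i2 + l2 + 3) ≤ (n + i3))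
    (a1 : Par W (0) (j) (k - j))
    (a2 : Par W (Q + j - k) (j) (k - j))
    (s1 : Ant W (0) (i) (i + j))
    (s2 : Ant W (j + 1) (Q) (i + j))
    (b : Par W (i + 1) (i + l + 1) (k - i))
    (tt : Ant W (i + l + 2) (Q) (i + l + i2 + 1))
    (c : Par W (i2 + 1) (i2 + l2 + 1) (k + l - n - i2 + 1))
    (u1 : Ant W (0) (i3) (k + l + l2 + i3 - n + 2))
    (u2 : Ant W (k + l + l2 - n + 3) (Q) (k + l + l2 + i3 - n + 2))
    (d1 : Par W (i3 + 1) (Q) (i2 + l2 - i3 + 1))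
    (d2 : Par W (i2 + l2 + 2) (n) (i3 - i2 - l2 - 1))
    (n1 : Nd W (j) (i) (k))
    (n2 : Nd W (i + l + 1) (i2) (k + l - n + 1))
    (n3 : Nd W (k + l + l2 - n + 2) (i3) (i2 + l2 + 1))
    (b0 : (i + 2 * j + 2) ≤ (k))
    (b1 : (n + i + j) ≤ (k + l + i2 + 2))
    (b2 : (n + j + i3) ≤ (k + i2 + l2 + 1))
    (b3 : (n + j) ≤ (k + 2 * l + 1))
    (b4 : (j + i2 + l2 + i3 + 3) ≤ (2 * i + k))
    (b5 : (k + i2 + l2 + 1) ≤ (n + j + i3))
    (b6 : (k + i3) ≤ (j + i2 + l2))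
    (b7 : (n + j) ≤ (k + i2 + l2))
    (b8 : (2 * Q + i2) ≤ (k + l + 2 * i3 + 1))
    (b9 : (k + l + l2 + i3 + 3) ≤ (n + i + j))
    (b10 : (n + 2 * i + i2 + l2 + 2) ≤ (2 * k + i3)) : False := by
  have ev := al.ev
  obtain ⟨y0, y1, y2, y3, y4, y5, y6, y7, y8, y9, y10, y11, y12, y13, y14, y15, y16, y17, y18, y19, y20, y21, y22⟩ := id hy
  have n1p := And.intro n1.p1 n1.p2
  have n2p := And.intro n2.p1 n2.p2
  have n3p := And.intro n3.p1 n3.p2
  by_cases z68 : (j + 2 * k + l + 3) ≤ (2 * n + 2 * i + i2)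
  · exact l2_10110_36 al mx hL hy a1 a2 s1 s2 b tt c u1 u2 d1 d2 n1 n2 n3 (by clear * - b0; omega) (by clear * - b1; omega) (by clear * - b2; omega) (by clear * - b3; omega) (by clear * - b4; omega) (by clear * - b5; omega) (by clear * - b6; omega) (by clear * - b7; omega) (by clear * - b8; omega) (by clear * - b9; omega) (by clear * - b10; omega) (by clear * - z68; omega)
  · exact l2_10110_37 al mx hL hy a1 a2 s1 s2 b tt c u1 u2 d1 d2 n1 n2 n3 (by clear * - b0; omega) (by clear * - b1; omega) (by clear * - b2; omega) (by clear * - b3; omega) (by clear * - b4; omega) (by clear * - b5; omega) (by clear * - b6; omega) (by clear * - b7; omega) (by clear * - b8; omega) (by clear * - b9; omega) (by clear * - z68; omega)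

theorem l2_10110_34 {W : ℤ → G} {n Q i j k l i2 l2 i3 : ℤ} (al : AL W n Q)
    {L : ℤ} (mx : ∀ a b g, 0 < g → g < n → Par W a b g → b - a ≤ L) (hL : L ≤ (n - j - 3) ∧ L ≤ (n + Q - k - 3) ∧ L ≤ (n - l - 3) ∧ L ≤ (k - j - 2) ∧ L ≤ (n - l2 - 3) ∧ L ≤ (n + i3 - Q - 2) ∧ L ≤ (i2 + l2 - 1) ∧ L ≤ (n + i3 - i2 - l2 - 3))
    (hy : (0) ≤ (i) ∧ (i) ≤ (j) ∧ (j + 1) ≤ (Q) ∧ (Q) ≤ (k) ∧ (k + 1) ≤ (n) ∧ (i + l + 2) ≤ (Q) ∧ (n) ≤ (k + l + 1) ∧ (0) ≤ (i2) ∧ (i2) ≤ (i + l + 1) ∧ (n) ≤ (k + l + l2 + 2) ∧ (k + l + l2 + 3) ≤ (n + Q) ∧ (Q) ≤ (i2 + l2 + 1) ∧ (i2 + l2 + 2) ≤ (n) ∧ (0) ≤ (i3) ∧ (n + i3) ≤ (k + l + l2 + 2) ∧ (j + 3) ≤ (n) ∧ (k + 3) ≤ (n + Q) ∧ (l + 3) ≤ (n) ∧ (j + 2) ≤ (k) ∧ (l2 + 3) ≤ (n) ∧ (Q + 2) ≤ (n + i3) ∧ (1) ≤ (i2 + l2) ∧ (i2 + l2 + 3) ≤ (n + i3))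
    (a1 : Par W (0) (j) (k - j))
    (a2 : Par W (Q + j - k) (j) (k - j))
    (s1 : Ant W (0) (i) (i + j))
    (s2 : Ant W (j + 1) (Q) (i + j))
    (b : Par W (i + 1) (i + l + 1) (k - i))
    (tt : Ant W (i + l + 2) (Q) (i + l + i2 + 1))
    (c : Par W (i2 + 1) (i2 + l2 + 1) (k + l - n - i2 + 1))
    (u1 : Ant W (0) (i3) (k + l + l2 + i3 - n + 2))
    (u2 : Ant W (k + l + l2 - n + 3) (Q) (k + l + l2 + i3 - n + 2))
    (d1 : Par W (i3 + 1) (Q) (i2 + l2 - i3 + 1))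
    (d2 : Par W (i2 + l2 + 2) (n) (i3 - i2 - l2 - 1))
    (n1 : Nd W (j) (i) (k))
    (n2 : Nd W (i + l + 1) (i2) (k + l - n + 1))
    (n3 : Nd W (k + l + l2 - n + 2) (i3) (i2 + l2 + 1))
    (b0 : (i + 2 * j + 2) ≤ (k))
    (b1 : (n + i + j) ≤ (k + l + i2 + 2))
    (b2 : (n + j + i3) ≤ (k + i2 + l2 + 1))
    (b3 : (n + j) ≤ (k + 2 * l + 1))
    (b4 : (j + i2 + l2 + i3 + 3) ≤ (2 * i + k))
    (b5 : (k + i2 + l2 + 1) ≤ (n + j + i3))
    (b6 : (k + i3) ≤ (j + i2 + l2))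
    (b7 : (n + j) ≤ (k + i2 + l2))
    (b8 : (2 * Q + i2) ≤ (k + l + 2 * i3 + 1))
    (b9 : (k + l + l2 + i3 + 3) ≤ (n + i + j))
    (b10 : (n + 2 * i + i2 + l2 + 1) ≤ (2 * k + i3)) : False := by
  have ev := al.ev
  obtain ⟨y0, y1, y2, y3, y4, y5, y6, y7, y8, y9, y10, y11, y12, y13, y14, y15, y16, y17, y18, y19, y20, y21, y22⟩ := id hy
  have n1p := And.intro n1.p1 n1.p2
  have n2p := And.intro n2.p1 n2.p2
  have n3p := And.intro n3.p1 n3.p2
  by_cases z67 : (2 * k + i3) ≤ (n + 2 * i + i2 + l2 + 1)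
  · have k327 : (i3) ≤ (i + l) := by clear * - b0 b10 b3 b4 b5 b6 b7; omega
    have k328 : (k + i3) ≤ (i + l + i2 + l2 + 1) := by clear * - b3 b6 z67; omega
    have k329 : (i + l + i2 + l2 + 3) ≤ (n + i3) := by clear * - b0 b5 b8 b9 y5; omega
    have k330 : (i + i2 + l2 + 2) ≤ (k + i3) := by clear * - b0 b10 b4 b5 b6 b7; omega
    clear * - al a1 a2 s1 s2 b tt c u1 u2 d1 d2 n1 n2 n3 k327 k328 k329 k330 z67 b10
    exact n2.f0 (cE (pb d2 al 0 (i + l + 1) (i + l + i2 + l2 - i3 + 2) (by omega)) (pb b al 0 (i + l + i2 + l2 - i3 + 2) (k + l - n + 1) (by omega)))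
  · exact l2_10110_35 al mx hL hy a1 a2 s1 s2 b tt c u1 u2 d1 d2 n1 n2 n3 (by clear * - b0; omega) (by clear * - b1; omega) (by clear * - b2; omega) (by clear * - b3; omega) (by clear * - b4; omega) (by clear * - b5; omega) (by clear * - b6; omega) (by clear * - b7; omega) (by clear * - b8; omega) (by clear * - b9; omega) (by clear * - z67; omega)

end Pool.Agent.MP_a38735_al.WL
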