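import Pool.Agent.MP_a38735_al.WQ

set_option autoImplicit false
set_option linter.unusedVariables false

namespace Pool.Agent.MP_a38735_al.WL

variable {G : Type*} [Group G]

theorem l2_10110_56 {W : ℤ → G} {n Q i j k l i2 l2 i3 : ℤ} (al : AL W n Q)
    {L : ℤ} (mx : ∀ a b g, 0 < g → g < n → Par W a b g → b - a ≤ L) (hL : L ≤ (n - j - 3) ∧ L ≤ (n + Q - k - 3) ∧ L ≤ (n - l - 3) ∧ L ≤ (k - j - 2) ∧ L ≤ (n - l2 - 3) ∧ L ≤ (n + i3 - Q - 2) ∧ L ≤ (i2 + l2 - 1) ∧ L ≤ (n + i3 - i2 - l2 - 3))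
    (hy : (0) ≤ (i) ∧ (i) ≤ (j) ∧ (j + 1) ≤ (Q) ∧ (Q) ≤ (k) ∧ (k + 1) ≤ (n) ∧ (i + l + 2) ≤ (Q) ∧ (n) ≤ (k + l + 1) ∧ (0) ≤ (i2) ∧ (i2) ≤ (i + l + 1) ∧ (n) ≤ (k + l + l2 + 2) ∧ (k + l + l2 + 3) ≤ (n + Q) ∧ (Q) ≤ (i2 + l2 + 1) ∧ (i2 + l2 + 2) ≤ (n) ∧ (0) ≤ (i3) ∧ (n + i3) ≤ (k + l + l2 + 2) ∧ (j + 3) ≤ (n) ∧ (k + 3) ≤ (n + Q) ∧ (l + 3) ≤ (n) ∧ (j + 2) ≤ (k) ∧ (l2 + 3) ≤ (n) ∧ (Q + 2) ≤ (n + i3) ∧ (1) ≤ (i2 + l2) ∧ (i2 + l2 + 3) ≤ (n + i3))
    (a1 : Par W (0) (j) (k - j))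
    (a2 : Par W (Q + j - k) (j) (k - j))
    (s1 : Ant W (0) (i) (i + j))
    (s2 : Ant W (j + 1) (Q) (i + j))
    (b : Par W (i + 1) (i + l + 1) (k - i))
    (tt : Ant W (i + l + 2) (Q) (i + l + i2 + 1))
    (c : Par W (i2 + 1) (i2 + l2 + 1) (k + l - n - i2 + 1))
    (u1 : Ant W (0) (i3) (k + l + l2 + i3 - n + 2))
    (u2 : Ant W (k + l + l2 - n + 3) (Q) (k + l + l2 + i3 - n + 2))
    (d1 : Par W (i3 + 1) (Q) (i2 + l2 - i3 + 1))
    (d2 : Par W (i2 + l2 + 2) (n) (i3 - i2 - l2 - 1))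
    (n1 : Nd W (j) (i) (k))
    (n2 : Nd W (i + l + 1) (i2) (k + l - n + 1))
    (n3 : Nd W (k + l + l2 - n + 2) (i3) (i2 + l2 + 1))
    (b0 : (j + l + l2 + i3 + 3) ≤ (n))
    (b1 : (2 * Q + i2 + l2) ≤ (n + i + j + i3))
    (b2 : (n + j + i3) ≤ (k + i2 + l2 + 1))
    (b3 : (2 * Q + k) ≤ (n + i + 2 * i2))
    (b4 : (n + j + i3) ≤ (i + k + l + l2 + 1))
    (b5 : (1) ≤ (i3))
    (b6 : (k + i2 + l2 + 1) ≤ (n + j + i3))
    (b7 : (n + i + j) ≤ (k + l + l2 + i3 + 1))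
    (b8 : (2 * n + i) ≤ (2 * k + l + 1))
    (b9 : (i + k + l + i3 + 1) ≤ (j + 2 * i2 + l2))
    (b10 : (2 * n + 2 * i + 2 * i2 + l2) ≤ (3 * k + l + i3))
    (b11 : (n + i) ≤ (k + l2)) : False := by
  have ev := al.ev
  obtain ⟨y0, y1, y2, y3, y4, y5, y6, y7, y8, y9, y10, y11, y12, y13, y14, y15, y16, y17, y18, y19, y20, y21, y22⟩ := id hy
  have n1p := And.intro n1.p1 n1.p2
  have n2p := And.intro n2.p1 n2.p2
  have n3p := And.intro n3.p1 n3.p2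
  by_cases z112 : (4 * k + l + 1) ≤ (3 * n + 2 * i + j + i2)
  · have k562 : (Q + k) ≤ (n + i + i2) := by clear * - b0 b10 b3 b4 b5 b9 z112; omega
    have k563 : (3 * k + 1) ≤ (2 * n + i + j + i2) := by clear * - b0 b10 b11 b4 b7 b8 z112; omega
    have k564 : (n + i + i2 + 1) ≤ (2 * k) := by clear * - b1 b10 b11 b4 b7 b9 y10 z112; omega
    have k565 : (2 * n + i + j + i2) ≤ (3 * k + l) := by clear * - b0 b10 b4 b5 b9 z112; omega
    have k566 : (3 * n + 2 * i + j + i2) ≤ (4 * k + l + 1) := by clear * - b10 b2; omega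
    clear * - al a1 a2 s1 s2 b tt c u1 u2 d1 d2 n1 n2 n3 k562 k563 b11 k564 k565 z112 k566
    exact n2.f0 (cE (cE (pb c al 0 (i + l + 1) (n + i + i2 - k) (by omega)) (pb a2 al 0 (n + i + i2 - k) (n + i + j + i2 - 2 * k) (by omega))) (pb b al (-1) (n + i + j + i2 - 2 * k) (k + l - n + 1) (by omega)))
  · by_cases z113 : (n + 2 * i + l + i3 + 2) ≤ (2 * Q + j + l2)
    · by_cases z114 : (2 * i + 3 * l + l2 + 6) ≤ (n + j + i3)
      · have k567 : (n + 2 * Q + j + i3) ≤ (2 * k + l + 2 * i2 + l2 + 2) := by clear * - b0 b3 b4 b5 b6 z112 z113; omega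
        have k568 : (n + j + l2 + i3 + 2) ≤ (2 * k + l) := by clear * - b0 b4 b5 b6 b8 b9; omega
        have k569 : (j + l + l2 + 4) ≤ (n + i3) := by clear * - b0 b5; omega
        have k570 : (2 * i + 2 * k + 3 * l + i3 + 4) ≤ (n + 2 * Q + j + 2 * i2 + l2) := by clear * - b0 b4 b5 b6 b9 z113; omega
        have k571 : (n + 2 * i + l + i3) ≤ (j + 2 * i2 + 3 * l2) := by clear * - b4 b6 b7 b9 z114; omega
        have k572 : (n + 4 * Q + 3 * j + i3) ≤ (2 * i + 4 * k + 3 * l + 2 * i2 + l2 + 6) := by clear * - b0 b3 b4 b5 b6 z112 z113; omega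
        have k573 : (n + j + 2 * i2 + l2 + i3 + 2) ≤ (2 * Q + 2 * k + l) := by clear * - b0 b4 b5 b6 b8 b9 z113; omega
        have k574 : (n + 3 * j + 2 * i2 + 3 * l2 + i3 + 2) ≤ (2 * i + 4 * k + 3 * l) := by clear * - b0 b4 b5 b6 b8 b9; omega
        have k575 : (j + l + 2 * i2 + l2 + 4) ≤ (n + 2 * Q + i3) := by clear * - b0 b4 b5 b6 z113; omega
        have k576 : (3 * j + l + 2 * i2 + 3 * l2 + 6) ≤ (3 * n + 2 * i + 3 * i3) := by clear * - b0 b4 b5 b6; omega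
        have k577 : (2 * i + 3 * l + 2 * i2 + l2 + 6) ≤ (n + 2 * Q + j + i3) := by clear * - b0 b4 b5 b6 z113 z114; omega
        have k578 : (2 * i + 5 * l + 2 * i2 + 3 * l2 + 10) ≤ (3 * n + j + 3 * i3) := by clear * - b0 b4 b5 b6 z114; omega
        have k579 : (2 * i + 2 * k + 3 * l + i3 + 4) ≤ (n + 4 * Q + j + l2) := by clear * - b0 b4 b5 b6 b9 z113; omega
        have k580 : (2 * i + 4 * k + 5 * l + i3 + 6) ≤ (3 * n + 4 * Q + j + 2 * i2 + l2) := by clear * - b0 b4 b5 b6 b9 z113; omega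
        have k581 : (n + 2 * i + l + i3) ≤ (2 * Q + j + 3 * l2) := by clear * - b0 b11 b4 b5 b6 b9 z113; omega
        have k582 : (n + 2 * i + l + i3) ≤ (j + 2 * i2 + 5 * l2 + 2) := by clear * - b0 b11 b4 b5 b6 b9; omega
        have k583 : (i + l + i2 + 1) % 2 = 0 := by clear * - ev n1p n2p n3p; omega
        have k584 : (n + i3 - j - l - l2 - 2) % 2 = 0 := by clear * - ev n1p n2p n3p; omega
        clear * - al a1 a2 s1 s2 b tt c u1 u2 d1 d2 n1 n2 n3 z113 k567 k568 k569 z114 k570 k571 k572 k573 k574 k575 k576 k577 k578 k579 k580 k581 k582 k583 k584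
        exact midP al (n + i3 - j - l - l2 - 2) (i + l + i2 + 1) (max (i + k + 2 * l - n - Q + 3) (max (i + 2 * l + i2 + l2 - n - i3 + 4) (max (j + l + i2 + l2 - n - i3 + 3) (max (Q + j - k) (max (i + l - l2 + 1) (max (i + l + 2) (j + i2 + l2 - k + 2))))))) (max (j + l + i2 + l2 - n - i3 + 3) (max (Q + j - k) (j + i2 + l2 - k + 2))) (min (n + Q + i2 - k - l - 1) (min (n + i3 - l - l2 - 2) (i2 + l2 + 1))) (by omega) (fun t h1 h2 => (qa tt al 0 t ((i + l + i2 + 1) - t) (by omega))) (fun t h1 h2 => (cE (cE (qf a2 al 0 t (t + (k - j)) (by omega)) (pb d1 al 0 (t + (k - j)) (t + (k + i3 - j - i2 - l2 - 1)) (by omega))) (pb c al 0 (t + (k + i3 - j - i2 - l2 - 1)) (t + (n + i3 - j - l - l2 - 2)) (by omega))))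
      · by_cases z115 : (n + j + 2 * i2) ≤ (i + 2 * k + l)
        · by_cases z116 : (n + 2 * i2) ≤ (2 * k)
          · by_cases z117 : (2 * k) ≤ (n + 2 * i2)
            · have k585 : (k + l + 2) ≤ (n + i2) := by clear * - b0 b5 b6 b9 z115 z117; omega
              have k586 : (Q + k + l + 1) ≤ (n + 2 * i2) := by clear * - b0 b3 b5 z113; omega
              have k587 : (i + 2 * k + l + 2) ≤ (n + Q + 2 * i2) := by clear * - b0 b5 z113 z117; omega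
              have k588 : (n + i2) ≤ (k + l + l2 + 1) := by clear * - b11 b6 b9 z115 z117; omega
              have k589 : (n + 2 * i2) ≤ (2 * k + l) := by clear * - b0 b5 b6 b9 z112 z115 z117; omega
              clear * - al a1 a2 s1 s2 b tt c u1 u2 d1 d2 n1 n2 n3 k585 k586 k587 k588 k589 z115 z116 z117
              exact n2.f2 (cI (cE (pb c al 0 (i2) (n + 2 * i2 - k - l - 1) (by omega)) (pb a2 al 0 (n + 2 * i2 - k - l - 1) (n + j + 2 * i2 - 2 * k - l - 1) (by omega))) (ab s2 al 0 (n + j + 2 * i2 - 2 * k - l - 1) (i + l + 1) (by omega)))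
            · have k590 : (k + i3) ≤ (j + i2 + l2) := by clear * - b4 b6 b9; omega
              have k591 : (j + i2 + l2 + 2) ≤ (n + k + i3) := by clear * - b0 b5 b6 b9 z112 z114 z117; omega
              have k592 : (j + i2 + l2 + 2) ≤ (n + i3) := by clear * - b0 b11 b5 b6 z114; omega
              have k593 : (j + i2 + l2 + 2) ≤ (n + i) := by clear * - b0 b5 b6 b9 z114 z117; omega
              have k594 : (k) ≤ (n + i) := by clear * - b0 b5 b6 b9 z114 z117; omega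
              have k595 : (n + i) ≤ (Q + k) := by clear * - b0 b5 b6 b8 b9 z113 z114 z117; omega
              have k596 : (n + i + i2 + l2 + 1) ≤ (2 * k + i3) := by clear * - b0 b5 b6 b8 b9 z115; omega
              have k597 : (n + j + i2 + l2) ≤ (2 * k + l + i3) := by clear * - b0 b5 b6 b8 b9 z114 z117; omega
              clear * - al a1 a2 s1 s2 b tt c u1 u2 d1 d2 n1 n2 n3 k590 k591 k592 k593 k594 k595 k596 k597
              exact al.ubP (j + i2 + l2 - k - i3 + 1) (by omega) (by omega) fun t h1 h2 => (cE (sh al 1 t (t + (n)) (by omega)) (cE (cE (cE (cE (pb b al 0 (t + (n)) (t + (n + i - k)) (by omega)) (qf d1 al 0 (t + (n + i - k)) (t + (n + i + i2 + l2 - k - i3 + 1)) (by omega))) (pb a1 al 0 (t + (n + i + i2 + l2 - k - i3 + 1)) (t + (n + i + j + i2 + l2 - 2 * k - i3 + 1)) (by omega))) (qf b al 0 (t + (n + i + j + i2 + l2 - 2 * k - i3 + 1)) (t + (n + j + i2 + l2 - k - i3 +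 1)) (by omega))) (sh al (-1) (t + (n + j + i2 + l2 - k - i3 + 1)) (t + (j + i2 + l2 - k - i3 + 1)) (by omega))))
          · have k598 : (k + i3) ≤ (j + i2 + l2) := by clear * - b6 b9 z115 z116; omega
            have k599 : (j + i2 + l2 + 2) ≤ (n + k + i3) := by clear * - b0 b5 b6 b9 z112 z115 z116; omega
            have k600 : (j + i2 + l2 + 2) ≤ (n + i3) := by clear * - b0 b11 b5 b6 z115 z116; omega
            have k601 : (j + i2 + l2 + 2) ≤ (n + i) := by clear * - b0 b5 b6 b9 z115 z116; omega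
            have k602 : (k) ≤ (n + i) := by clear * - b0 b5 b6 b9 z115 z116; omega
            have k603 : (n + i) ≤ (Q + k) := by clear * - b0 b5 b6 b8 b9 z113 z115 z116; omega
            have k604 : (n + i + i2 + l2 + 1) ≤ (2 * k + i3) := by clear * - b0 b5 b6 b8 b9 z115; omega
            have k605 : (n + j + i2 + l2) ≤ (2 * k + l + i3) := by clear * - b0 b5 b6 b8 b9 z115 z116; omega
            clear * - al a1 a2 s1 s2 b tt c u1 u2 d1 d2 n1 n2 n3 k598 k599 k600 k601 k602 k603 k604 k605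
            exact al.ubP (j + i2 + l2 - k - i3 + 1) (by omega) (by omega) fun t h1 h2 => (cE (cE (cE (cE (pb b al (-1) t (t + (n + i - k)) (by omega)) (qf d1 al 0 (t + (n + i - k)) (t + (n + i + i2 + l2 - k - i3 + 1)) (by omega))) (pb a1 al 0 (t + (n + i + i2 + l2 - k - i3 + 1)) (t + (n + i + j + i2 + l2 - 2 * k - i3 + 1)) (by omega))) (qf b al 0 (t + (n + i + j + i2 + l2 - 2 * k - i3 + 1)) (t + (n + j + i2 + l2 - k - i3 + 1)) (by omega))) (sh al (-1) (t + (n + j + i2 + l2 - k - i3 + 1)) (t + (j + i2 + l2 - k - i3 + 1)) (by omega)))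
        · have k606 : (k + i3) ≤ (j + i2 + l2) := by clear * - b4 b6 b9; omega
          have k607 : (j + i2 + l2 + 2) ≤ (n + k + i3) := by clear * - b0 b4 b5 b6 b9 z112; omega
          have k608 : (j + i2 + l2 + 2) ≤ (n + i3) := by clear * - b0 b11 b5 b6 z114; omega
          have k609 : (j + i2 + l2 + 2) ≤ (n + i) := by clear * - b0 b4 b5 b6; omega
          have k610 : (Q + j) ≤ (n + i) := by clear * - b0 b11 b3 b4 b5 b6 z113; omega
          have k611 : (n + i + i2 + l2 + 1) ≤ (2 * k + i3) := by clear * - b0 b1 b5 b8 z113 z114; omega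
          have k612 : (n + j + i2 + l2) ≤ (2 * k + l + i3) := by clear * - b0 b4 b5 b6 b8; omega
          clear * - al a1 a2 s1 s2 b tt c u1 u2 d1 d2 n1 n2 n3 k606 k607 k608 k609 k610 k611 k612
          exact al.ubP (j + i2 + l2 - k - i3 + 1) (by omega) (by omega) fun t h1 h2 => (cE (cE (cE (cE (pb b al (-1) t (t + (n + i - k)) (by omega)) (pb d2 al 0 (t + (n + i - k)) (t + (n + i + i2 + l2 - k - i3 + 1)) (by omega))) (pb a2 al 0 (t + (n + i + i2 + l2 - k - i3 + 1)) (t + (n + i + j + i2 + l2 - 2 * k - i3 + 1)) (by omega))) (qf b al 0 (t + (n + i + j + i2 + l2 - 2 * k - i3 + 1)) (t + (n + j + i2 + l2 - k - i3 + 1)) (by omega))) (sh al (-1) (t + (n + j + i2 + l2 - k - i3 + 1)) (t + (j + i2 + l2 - k - i3 + 1)) (by omega)))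
    · by_cases z118 : (k + i3) ≤ (i + l + i2 + l2 + 1)
      · by_cases z119 : (2 * n + 3 * i + i2 + l2 + 1) ≤ (3 * k + i3)
        · by_cases z120 : (3 * k + i3) ≤ (2 * n + 3 * i + i2 + l2 + 1)
          · have k613 : (k + 1) ≤ (n + i) := by clear * - b0 b10 b5 b9 z120; omega
            have k614 : (2 * k + i3 + 1) ≤ (2 * n + 3 * i) := by clear * - b1 b10 b11 y10 z112 z113 z118 z120; omega
            have k615 : (2 * n + 2 * i) ≤ (2 * k + l) := by clear * - z118 z119; omega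
            have k616 : (2 * n + 3 * i + 1) ≤ (Q + 2 * k) := by clear * - b11 y10 z118 z119; omega
            clear * - al a1 a2 s1 s2 b tt c u1 u2 d1 d2 n1 n2 n3 k613 k614 k615 k616 z120 z119
            exact n1.f1 (cE (cE (pb b al (-1) (i) (n + 2 * i - k) (by omega)) (pb b al (-1) (n + 2 * i - k) (2 * n + 3 * i - 2 * k) (by omega))) (qf d1 al 0 (2 * n + 3 * i - 2 * k) (k) (by omega)))
          · have k617 : (k + i3) ≤ (j + i2 + l2) := by clear * - b4 b6 b9; omega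
            have k618 : (j + i2 + l2 + 2) ≤ (n + k + i3) := by clear * - b0 b4 b5 b6 b9 z120; omega
            have k619 : (j + i2 + l2 + 2) ≤ (n + i3) := by clear * - b0 b4 b5 b6 b7; omega
            have k620 : (j + i2 + l2 + 2) ≤ (n + i) := by clear * - b0 b4 b5 b6; omega
            have k621 : (k) ≤ (n + i) := by clear * - b0 b4 b5 b6 b9; omega
            have k622 : (n + i + i2 + l2 + 1) ≤ (2 * k + i3) := by clear * - b1 b11 b5 y10 z112 z118; omega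
            have k623 : (n + j + i2 + l2) ≤ (2 * k + l + i3) := by clear * - b0 b4 b5 b6 b8; omega
            clear * - al a1 a2 s1 s2 b tt c u1 u2 d1 d2 n1 n2 n3 k617 k618 k619 k620 k621 k622 k623
            exact al.ubP (j + i2 + l2 - k - i3 + 1) (by omega) (by omega) fun t h1 h2 => (cE (sh al 2 t (t + (2 * n)) (by omega)) (cE (cE (cE (cE (pb b al 1 (t + (2 * n)) (t + (n + i - k)) (by omega)) (pb d2 al 0 (t + (n + i - k)) (t + (n + i + i2 + l2 - k - i3 + 1)) (by omega))) (pb a1 al 0 (t + (n + i + i2 + l2 - k - i3 + 1)) (t + (n + i + j + i2 + l2 - 2 * k - i3 + 1)) (by omega))) (qf b al 0 (t + (n + i + j + i2 + l2 - 2 * k - i3 + 1)) (t + (n + j + i2 + l2 - k - i3 + 1)) (by omega))) (sh al (-1) (t + (n + j + i2 + l2 - k - i3 + 1)) (t + (j + i2 + l2 - k - i3 + 1)) (by omega))))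
        · by_cases z121 : (i + l + 2 * i2 + l2 + 3) ≤ (j + k + i3)
          · have k624 : (j + l2 + i3 + 2) ≤ (i + k + l) := by clear * - b0 b5 b8 z118 z121; omega
            have k625 : (i + j + l + 2 * i2 + l2 + 4) ≤ (2 * Q + k + i3) := by clear * - b7 y10 z112 z119 z121; omega
            have k626 : (i + l + 2 * i2 + l2 + 4) ≤ (j + k + i3) := by clear * - z121 ev n1p n2p n3p; omega
            have k627 : (i + k + l + 2 * i2 + l2 + 3) ≤ (2 * n + j + i3) := by clear * - b0 b6 b7 b8 b9 z119 z121; omega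
            have k628 : (k + i3) ≤ (i + j + l + 2 * i2 + l2 + 3) := by clear * - b0 b5 b8 b9 z118 z121; omega
            obtain ⟨t, ht⟩ : ∃ t, 2 * t = (i + k + l + 2 * i2 + l2 - 2 * n - j - i3 + 2) := ⟨(i + k + l + 2 * i2 + l2 - 2 * n - j - i3 + 2) / 2, by clear * - ev n1p n2p n3p; omega⟩
            clear * - al a1 a2 s1 s2 b tt c u1 u2 d1 d2 n1 n2 n3 k624 k625 k626 k627 b9 k628 ht
            exact al.ninv t (cE (cE (cI (qf d2 al (-1) t (t + (n + i3 - i2 - l2 - 1)) (by omega)) (ab tt al 0 (t + (n + i3 - i2 - l2 - 1)) ((i + l + 2 * i2 + l2 - n - i3 + 2) - t) (by omega))) (qf a1 al 0 ((i + l + 2 * i2 + l2 - n - i3 + 2) - t) ((i + k + l + 2 * i2 + l2 - n - j - i3 + 2) - t) (by omega))) (sh al (-1) ((i + k + l + 2 * i2 + l2 - n - j - i3 + 2) - t) t (by omega)))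
          · have k629 : (k + i3) ≤ (j + i2 + l2) := by clear * - b10 b9 z119; omega
            have k630 : (j + i2 + l2 + 2) ≤ (n + k + i3) := by clear * - b0 b10 b5 b9 z112 z119; omega
            have k631 : (j + i2 + l2 + 2) ≤ (n + i3) := by clear * - b0 b5 b6 b7 z112 z119; omega
            have k632 : (j + i2 + l2 + 2) ≤ (n + i) := by clear * - b0 b10 b5 z119; omega
            have k633 : (Q + j) ≤ (n + i) := by clear * - b0 b10 b11 b5 b9 z113 z119; omega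
            have k634 : (n + i + i2 + l2 + 1) ≤ (2 * k + i3) := by clear * - b1 b10 b11 b8 y10 z113 z119; omega
            have k635 : (n + j + i2 + l2) ≤ (2 * k + l + i3) := by clear * - b0 b10 b5 b8 z119; omega
            clear * - al a1 a2 s1 s2 b tt c u1 u2 d1 d2 n1 n2 n3 k629 k630 k631 k632 k633 k634 k635
            exact al.ubP (j + i2 + l2 - k - i3 + 1) (by omega) (by omega) fun t h1 h2 => (cE (cE (cE (cE (pb b al (-1) t (t + (n + i - k)) (by omega)) (pb d2 al 0 (t + (n + i - k)) (t + (n + i + i2 + l2 - k - i3 + 1)) (by omega))) (pb a2 al 0 (t + (n + i + i2 + l2 - k - i3 + 1)) (t + (n + i + j + i2 + l2 - 2 * k - i3 + 1)) (by omega))) (qf b al 0 (t + (n + i + j + i2 + l2 - 2 * k - i3 + 1)) (t + (n + j + i2 + l2 - k - i3 + 1)) (by omega))) (sh al (-1) (t + (n + j + i2 + l2 - k - i3 + 1)) (t + (j + i2 + l2 - k - i3 + 1)) (by omega)))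
      · have k636 : (j + l2 + i3 + 2) ≤ (i + k + l) := by clear * - b0 b4 b5 b6 b8 b9; omega
        have k637 : (i + j + l + 2 * i2 + l2 + 4) ≤ (2 * Q + k + i3) := by clear * - b11 b4 b6 b7 y10 z118; omega
        have k638 : (i + l + 2 * i2 + l2 + 4) ≤ (j + k + i3) := by clear * - b4 b6 b9 z118; omega
        have k639 : (i + k + l + 2 * i2 + l2 + 3) ≤ (2 * n + j + i3) := by clear * - b0 b11 b4 b5 b6 b9; omega
        have k640 : (k + i3) ≤ (i + j + l + 2 * i2 + l2 + 3) := by clear * - b0 b4 b5 b6 b8 b9; omega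
        obtain ⟨t, ht⟩ : ∃ t, 2 * t = (i + k + l + 2 * i2 + l2 - 2 * n - j - i3 + 2) := ⟨(i + k + l + 2 * i2 + l2 - 2 * n - j - i3 + 2) / 2, by clear * - ev n1p n2p n3p; omega⟩
        clear * - al a1 a2 s1 s2 b tt c u1 u2 d1 d2 n1 n2 n3 k636 k637 k638 k639 b9 k640 ht
        exact al.ninv t (cE (cE (cI (qf d2 al (-1) t (t + (n + i3 - i2 - l2 - 1)) (by omega)) (ab tt al 0 (t + (n + i3 - i2 - l2 - 1)) ((i + l + 2 * i2 + l2 - n - i3 + 2) - t) (by omega))) (qf a1 al 0 ((i + l + 2 * i2 + l2 - n - i3 + 2) - t) ((i + k + l + 2 * i2 + l2 - n - j - i3 + 2) - t) (by omega))) (sh al (-1) ((i + k + l + 2 * i2 + l2 - n - j - i3 + 2) - t) t (by omega)))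

theorem l2_10110_55 {W : ℤ → G} {n Q i j k l i2 l2 i3 : ℤ} (al : AL W n Q)
    {L : ℤ} (mx : ∀ a b g, 0 < g → g < n → Par W a b g → b - a ≤ L) (hL : L ≤ (n - j - 3) ∧ L ≤ (n + Q - k - 3) ∧ L ≤ (n - l - 3) ∧ L ≤ (k - j - 2) ∧ L ≤ (n - l2 - 3) ∧ L ≤ (n + i3 - Q - 2) ∧ L ≤ (i2 + l2 - 1) ∧ L ≤ (n + i3 - i2 - l2 - 3))
    (hy : (0) ≤ (i) ∧ (i) ≤ (j) ∧ (j + 1) ≤ (Q) ∧ (Q) ≤ (k) ∧ (k + 1) ≤ (n) ∧ (i + l + 2) ≤ (Q) ∧ (n) ≤ (k + l + 1) ∧ (0) ≤ (i2) ∧ (i2) ≤ (i + l + 1) ∧ (n) ≤ (k + l + l2 + 2) ∧ (k + l + l2 + 3) ≤ (n + Q) ∧ (Q) ≤ (i2 + l2 + 1) ∧ (i2 + l2 + 2) ≤ (n) ∧ (0) ≤ (i3) ∧ (n + i3) ≤ (k + l + l2 + 2) ∧ (j + 3) ≤ (n) ∧ (k + 3) ≤ (n + Q) ∧ (l + 3) ≤ (n) ∧ (j + 2) ≤ (k) ∧ (l2 + 3) ≤ (n) ∧ (Q + 2) ≤ (n + i3) ∧ (1) ≤ (i2 + l2) ∧ (i2 + l2 + 3) ≤ (n + i3))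
    (a1 : Par W (0) (j) (k - j))
    (a2 : Par W (Q + j - k) (j) (k - j))
    (s1 : Ant W (0) (i) (i + j))
    (s2 : Ant W (j + 1) (Q) (i + j))
    (b : Par W (i + 1) (i + l + 1) (k - i))
    (tt : Ant W (i + l + 2) (Q) (i + l + i2 + 1))
    (c : Par W (i2 + 1) (i2 + l2 + 1) (k + l - n - i2 + 1))
    (u1 : Ant W (0) (i3) (k + l + l2 + i3 - n + 2))
    (u2 : Ant W (k + l + l2 - n + 3) (Q) (k + l + l2 + i3 - n + 2))
    (d1 : Par W (i3 + 1) (Q) (i2 + l2 - i3 + 1))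
    (d2 : Par W (i2 + l2 + 2) (n) (i3 - i2 - l2 - 1))
    (n1 : Nd W (j) (i) (k))
    (n2 : Nd W (i + l + 1) (i2) (k + l - n + 1))
    (n3 : Nd W (k + l + l2 - n + 2) (i3) (i2 + l2 + 1))
    (b0 : (j + l + l2 + i3 + 3) ≤ (n))
    (b1 : (2 * Q + i2 + l2) ≤ (n + i + j + i3))
    (b2 : (n + j + i3) ≤ (k + i2 + l2 + 1))
    (b3 : (2 * Q + k) ≤ (n + i + 2 * i2))
    (b4 : (n + j + i3) ≤ (i + k + l + l2 + 1))
    (b5 : (1) ≤ (i3))
    (b6 : (k + i2 + l2 + 1) ≤ (n + j + i3))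
    (b7 : (n + i + j) ≤ (k + l + l2 + i3 + 1))
    (b8 : (2 * n + i) ≤ (2 * k + l + 1))
    (b9 : (i + k + l + i3 + 1) ≤ (j + 2 * i2 + l2))
    (b10 : (2 * n + 2 * i + 2 * i2 + l2) ≤ (3 * k + l + i3)) : False := by
  have ev := al.ev
  obtain ⟨y0, y1, y2, y3, y4, y5, y6, y7, y8, y9, y10, y11, y12, y13, y14, y15, y16, y17, y18, y19, y20, y21, y22⟩ := id hy
  have n1p := And.intro n1.p1 n1.p2
  have n2p := And.intro n2.p1 n2.p2
  have n3p := And.intro n3.p1 n3.p2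
  by_cases z111 : (n + i) ≤ (k + l2)
  · exact l2_10110_56 al mx hL hy a1 a2 s1 s2 b tt c u1 u2 d1 d2 n1 n2 n3 (by clear * - b0; omega) (by clear * - b1; omega) (by clear * - b2; omega) (by clear * - b3; omega) (by clear * - b4; omega) (by clear * - b5; omega) (by clear * - b6; omega) (by clear * - b7; omega) (by clear * - b8; omega) (by clear * - b9; omega) (by clear * - b10; omega) (by clear * - z111; omega)
  · by_cases z122 : (2 * n + 3 * i + i2 + l2 + 1) ≤ (3 * k + i3)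
    · have k641 : (k + i3) ≤ (j + i2 + l2) := by clear * - b4 b6 b9; omega
      have k642 : (j + i2 + l2 + 2) ≤ (n + k + i3) := by clear * - b0 b4 b5 b6 b9 z122; omega
      have k643 : (j + i2 + l2 + 2) ≤ (n + i3) := by clear * - b0 b4 b5 b6 b7; omega
      have k644 : (j + i2 + l2 + 2) ≤ (n + i) := by clear * - b0 b4 b5 b6; omega
      have k645 : (k) ≤ (n + i) := by clear * - b0 b4 b5 b6 b9; omega
      have k646 : (n + i) ≤ (Q + k) := by clear * - b1 b4 b5 b6 b7 b9 y10 z122; omega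
      have k647 : (n + i + i2 + l2 + 1) ≤ (2 * k + i3) := by clear * - b1 b10 b4 b5 b7 b9 y10; omega
      have k648 : (n + j + i2 + l2) ≤ (2 * k + l + i3) := by clear * - b0 b4 b5 b6 b9 z111 z122; omega
      clear * - al a1 a2 s1 s2 b tt c u1 u2 d1 d2 n1 n2 n3 k641 k642 k643 k644 k645 k646 k647 k648
      exact al.ubP (j + i2 + l2 - k - i3 + 1) (by omega) (by omega) fun t h1 h2 => (cE (cE (cE (cE (pb b al (-1) t (t + (n + i - k)) (by omega)) (qf d1 al 0 (t + (n + i - k)) (t + (n + i + i2 + l2 - k - i3 + 1)) (by omega))) (pb a1 al 0 (t + (n + i + i2 + l2 - k - i3 + 1)) (t + (n + i + j + i2 + l2 - 2 * k - i3 + 1)) (by omega))) (qf b al 0 (t + (n + i + j + i2 + l2 - 2 * k - i3 + 1)) (t + (n + j + i2 + l2 - k - i3 + 1)) (by omega))) (sh al (-1) (t + (n + j + i2 + l2 - k - i3 + 1)) (t + (j + i2 + l2 - k - i3 + 1)) (by omega)))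
    · have k649 : (k + i3) ≤ (j + i2 + l2) := by clear * - b10 b9 z122; omega
      have k650 : (j + i2 + l2 + 2) ≤ (n + k + i3) := by clear * - b0 b10 b4 b5 b9 z122; omega
      have k651 : (j + i2 + l2 + 2) ≤ (n + i3) := by clear * - b0 b10 b5 b6 b7 z122; omega
      have k652 : (j + i2 + l2 + 2) ≤ (n + i) := by clear * - b0 b10 b5 z122; omega
      have k653 : (k) ≤ (n + i) := by clear * - b0 b10 b5 b9 z122; omega
      have k654 : (n + i + i2 + l2 + 1) ≤ (2 * k + i3) := by clear * - b1 b10 b4 b5 b7 b9 y10; omega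
      have k655 : (n + j + i2 + l2) ≤ (2 * k + l + i3) := by clear * - b0 b10 b5 b8 z122; omega
      clear * - al a1 a2 s1 s2 b tt c u1 u2 d1 d2 n1 n2 n3 k649 k650 k651 k652 k653 k654 k655
      exact al.ubP (j + i2 + l2 - k - i3 + 1) (by omega) (by omega) fun t h1 h2 => (cE (cE (cE (cE (pb b al (-1) t (t + (n + i - k)) (by omega)) (pb d2 al 0 (t + (n + i - k)) (t + (n + i + i2 + l2 - k - i3 + 1)) (by omega))) (pb a1 al 0 (t + (n + i + i2 + l2 - k - i3 + 1)) (t + (n + i + j + i2 + l2 - 2 * k - i3 + 1)) (by omega))) (qf b al 0 (t + (n + i + j + i2 + l2 - 2 * k - i3 + 1)) (t + (n + j + i2 + l2 - k - i3 + 1)) (by omega))) (sh al (-1) (t + (n + j + i2 + l2 - k - i3 + 1)) (t + (j + i2 + l2 - k - i3 + 1)) (by omega)))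

theorem l2_10110_54 {W : ℤ → G} {n Q i j k l i2 l2 i3 : ℤ} (al : AL W n Q)
    {L : ℤ} (mx : ∀ a b g, 0 < g → g < n → Par W a b g → b - a ≤ L) (hL : L ≤ (n - j - 3) ∧ L ≤ (n + Q - k - 3) ∧ L ≤ (n - l - 3) ∧ L ≤ (k - j - 2) ∧ L ≤ (n - l2 - 3) ∧ L ≤ (n + i3 - Q - 2) ∧ L ≤ (i2 + l2 - 1) ∧ L ≤ (n + i3 - i2 - l2 - 3))
    (hy : (0) ≤ (i) ∧ (i) ≤ (j) ∧ (j + 1) ≤ (Q) ∧ (Q) ≤ (k) ∧ (k + 1) ≤ (n) ∧ (i + l + 2) ≤ (Q) ∧ (n) ≤ (k + l + 1) ∧ (0) ≤ (i2) ∧ (i2) ≤ (i + l + 1) ∧ (n) ≤ (k + l + l2 + 2) ∧ (k + l + l2 + 3) ≤ (n + Q) ∧ (Q) ≤ (i2 + l2 + 1) ∧ (i2 + l2 + 2) ≤ (n) ∧ (0) ≤ (i3) ∧ (n + i3) ≤ (k + l + l2 + 2) ∧ (j + 3) ≤ (n) ∧ (k + 3) ≤ (n + Q) ∧ (l + 3) ≤ (n) ∧ (j + 2) ≤ (k) ∧ (l2 + 3) ≤ (n) ∧ (Q + 2) ≤ (n + i3) ∧ (1) ≤ (i2 + l2) ∧ (i2 + l2 + 3) ≤ (n + i3))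
    (a1 : Par W (0) (j) (k - j))
    (a2 : Par W (Q + j - k) (j) (k - j))
    (s1 : Ant W (0) (i) (i + j))
    (s2 : Ant W (j + 1) (Q) (i + j))
    (b : Par W (i + 1) (i + l + 1) (k - i))
    (tt : Ant W (i + l + 2) (Q) (i + l + i2 + 1))
    (c : Par W (i2 + 1) (i2 + l2 + 1) (k + l - n - i2 + 1))
    (u1 : Ant W (0) (i3) (k + l + l2 + i3 - n + 2))
    (u2 : Ant W (k + l + l2 - n + 3) (Q) (k + l + l2 + i3 - n + 2))
    (d1 : Par W (i3 + 1) (Q) (i2 + l2 - i3 + 1))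
    (d2 : Par W (i2 + l2 + 2) (n) (i3 - i2 - l2 - 1))
    (n1 : Nd W (j) (i) (k))
    (n2 : Nd W (i + l + 1) (i2) (k + l - n + 1))
    (n3 : Nd W (k + l + l2 - n + 2) (i3) (i2 + l2 + 1))
    (b0 : (j + l + l2 + i3 + 3) ≤ (n))
    (b1 : (2 * Q + i2 + l2) ≤ (n + i + j + i3))
    (b2 : (n + j + i3) ≤ (k + i2 + l2 + 1))
    (b3 : (2 * Q + k) ≤ (n + i + 2 * i2))
    (b4 : (n + j + i3) ≤ (i + k + l + l2 + 1))
    (b5 : (1) ≤ (i3))
    (b6 : (k + i2 + l2 + 1) ≤ (n + j + i3))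
    (b7 : (n + i + j) ≤ (k + l + l2 + i3 + 1))
    (b8 : (2 * n + i) ≤ (2 * k + l + 1))
    (b9 : (i + k + l + i3 + 1) ≤ (j + 2 * i2 + l2))
    (b10 : (2 * n + 3 * i) ≤ (j + 2 * k + 1)) : False := by
  have ev := al.ev
  obtain ⟨y0, y1, y2, y3, y4, y5, y6, y7, y8, y9, y10, y11, y12, y13, y14, y15, y16, y17, y18, y19, y20, y21, y22⟩ := id hy
  have n1p := And.intro n1.p1 n1.p2
  have n2p := And.intro n2.p1 n2.p2
  have n3p := And.intro n3.p1 n3.p2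
  by_cases z110 : (2 * n + 2 * i + 2 * i2 + l2) ≤ (3 * k + l + i3)
  · exact l2_10110_55 al mx hL hy a1 a2 s1 s2 b tt c u1 u2 d1 d2 n1 n2 n3 (by clear * - b0; omega) (by clear * - b1; omega) (by clear * - b2; omega) (by clear * - b3; omega) (by clear * - b4; omega) (by clear * - b5; omega) (by clear * - b6; omega) (by clear * - b7; omega) (by clear * - b8; omega) (by clear * - b9; omega) (by clear * - z110; omega)
  · have k656 : (4 * k + l + 2) ≤ (3 * n + 2 * i + j + i2) := by clear * - b6 z110; omega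
    have k657 : (2 * n + 2 * i + j + i2) ≤ (4 * k + l) := by clear * - b0 b10 b4 b5 b6 z110; omega
    have k658 : (2 * n + 2 * i + j + i2) ≤ (3 * k + l) := by clear * - b0 b10 b4 b5 b6 b7; omega
    have k659 : (j + i2 + 1) ≤ (k) := by clear * - b0 b1 b4 b6 b7 y5; omega
    have k660 : (Q + j) ≤ (k) := by clear * - b0 b1 b2 b7; omega
    have k661 : (3 * n + 2 * i) ≤ (3 * k + l + l2 + 2) := by clear * - b10 b4 b5; omega
    have k662 : (3 * n + 2 * i + i2) ≤ (4 * k + l + 1) := by clear * - b1 b10 b4 b5 b6 b7 y10 z110; omega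
    clear * - al a1 a2 s1 s2 b tt c u1 u2 d1 d2 n1 n2 n3 k656 k657 k658 k659 k660 b8 k661 k662
    exact al.ubP (3 * n + 2 * i + j + i2 - 4 * k - l - 1) (by omega) (by omega) fun t h1 h2 => (cE (cE (cE (pb b al (-1) t (t + (n + i - k)) (by omega)) (pb b al (-1) (t + (n + i - k)) (t + (2 * n + 2 * i - 2 * k)) (by omega))) (pb c al 0 (t + (2 * n + 2 * i - 2 * k)) (t + (3 * n + 2 * i + i2 - 3 * k - l - 1)) (by omega))) (pb a2 al 0 (t + (3 * n + 2 * i + i2 - 3 * k - l - 1)) (t + (3 * n + 2 * i + j + i2 - 4 * k - l - 1)) (by omega)))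

theorem l2_10110_53 {W : ℤ → G} {n Q i j k l i2 l2 i3 : ℤ} (al : AL W n Q)
    {L : ℤ} (mx : ∀ a b g, 0 < g → g < n → Par W a b g → b - a ≤ L) (hL : L ≤ (n - j - 3) ∧ L ≤ (n + Q - k - 3) ∧ L ≤ (n - l - 3) ∧ L ≤ (k - j - 2) ∧ L ≤ (n - l2 - 3) ∧ L ≤ (n + i3 - Q - 2) ∧ L ≤ (i2 + l2 - 1) ∧ L ≤ (n + i3 - i2 - l2 - 3))
    (hy : (0) ≤ (i) ∧ (i) ≤ (j) ∧ (j + 1) ≤ (Q) ∧ (Q) ≤ (k) ∧ (k + 1) ≤ (n) ∧ (i + l + 2) ≤ (Q) ∧ (n) ≤ (k + l + 1) ∧ (0) ≤ (i2) ∧ (i2) ≤ (i + l + 1) ∧ (n) ≤ (k + l + l2 + 2) ∧ (k + l + l2 + 3) ≤ (n + Q) ∧ (Q) ≤ (i2 + l2 + 1) ∧ (i2 + l2 + 2) ≤ (n) ∧ (0) ≤ (i3) ∧ (n + i3) ≤ (k + l + l2 + 2) ∧ (j + 3) ≤ (n) ∧ (k + 3) ≤ (n + Q) ∧ (l + 3) ≤ (n) ∧ (j + 2) ≤ (k) ∧ (l2 + 3) ≤ (n) ∧ (Q + 2) ≤ (n + i3) ∧ (1) ≤ (i2 + l2) ∧ (i2 + l2 + 3) ≤ (n + i3))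
    (a1 : Par W (0) (j) (k - j))
    (a2 : Par W (Q + j - k) (j) (k - j))
    (s1 : Ant W (0) (i) (i + j))
    (s2 : Ant W (j + 1) (Q) (i + j))
    (b : Par W (i + 1) (i + l + 1) (k - i))
    (tt : Ant W (i + l + 2) (Q) (i + l + i2 + 1))
    (c : Par W (i2 + 1) (i2 + l2 + 1) (k + l - n - i2 + 1))
    (u1 : Ant W (0) (i3) (k + l + l2 + i3 - n + 2))
    (u2 : Ant W (k + l + l2 - n + 3) (Q) (k + l + l2 + i3 - n + 2))
    (d1 : Par W (i3 + 1) (Q) (i2 + l2 - i3 + 1))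
    (d2 : Par W (i2 + l2 + 2) (n) (i3 - i2 - l2 - 1))
    (n1 : Nd W (j) (i) (k))
    (n2 : Nd W (i + l + 1) (i2) (k + l - n + 1))
    (n3 : Nd W (k + l + l2 - n + 2) (i3) (i2 + l2 + 1))
    (b0 : (j + l + l2 + i3 + 3) ≤ (n))
    (b1 : (2 * Q + i2 + l2) ≤ (n + i + j + i3))
    (b2 : (n + j + i3) ≤ (k + i2 + l2 + 1))
    (b3 : (2 * Q + k) ≤ (n + i + 2 * i2))
    (b4 : (n + j + i3) ≤ (i + k + l + l2 + 1))
    (b5 : (1) ≤ (i3))
    (b6 : (k + i2 + l2 + 1) ≤ (n + j + i3))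
    (b7 : (n + i + j) ≤ (k + l + l2 + i3 + 1))
    (b8 : (2 * n + i) ≤ (2 * k + l + 1))
    (b9 : (i + k + l + i3 + 1) ≤ (j + 2 * i2 + l2))
    (b10 : (j + 2 * k + 2) ≤ (2 * n + 3 * i)) : False := by
  have ev := al.ev
  obtain ⟨y0, y1, y2, y3, y4, y5, y6, y7, y8, y9, y10, y11, y12, y13, y14, y15, y16, y17, y18, y19, y20, y21, y22⟩ := id hy
  have n1p := And.intro n1.p1 n1.p2
  have n2p := And.intro n2.p1 n2.p2
  have n3p := And.intro n3.p1 n3.p2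
  by_cases z108 : (2 * n + i + j) ≤ (2 * k + 2 * l + 1)
  · have k545 : (2 * n + 3 * i + j + 2) ≤ (2 * Q + 2 * k) := by clear * - y5 z108; omega
    have k546 : (2 * n + i + j) ≤ (2 * k + 2 * l) := by clear * - z108 ev n1p n2p n3p; omega
    have k547 : (j + 2 * k + 1) ≤ (2 * n + 3 * i) := by clear * - b10; omega
    have k548 : (i + 1) ≤ (j) := by clear * - b1 b10 b4 b6 b9 y5 z108; omega
    obtain ⟨t, ht⟩ : ∃ t, 2 * t = (j + 2 * k - 4 * n - i) := ⟨(j + 2 * k - 4 * n - i) / 2, by clear * - ev n1p n2p n3p; omega⟩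
    clear * - al a1 a2 s1 s2 b tt c u1 u2 d1 d2 n1 n2 n3 k545 k546 k547 k548 ht
    exact al.ninv t (cE (cE (cE (ab s2 al (-1) t ((i + j - n) - t) (by omega)) (qf b al 0 ((i + j - n) - t) ((j + k - n) - t) (by omega))) (qf b al 1 ((j + k - n) - t) ((j + 2 * k - 2 * n - i) - t) (by omega))) (sh al (-2) ((j + 2 * k - 2 * n - i) - t) t (by omega)))
  · by_cases z109 : (j + 2 * k + l + 3) ≤ (2 * n + 2 * i + i2)
    · have k549 : (i2 + 1) ≤ (j + l) := by clear * - b0 b4 b6 b7 b8 b9 z108 z109; omega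
      have k550 : (2 * k + l + i2 + 3) ≤ (2 * n + 2 * i + j) := by clear * - b4 b6 z108 ev n1p n2p n3p; omega
      have k551 : (j) ≤ (l + i2) := by clear * - b0 b4 b6 b7 b8 b9 z108 z109; omega
      have k552 : (2 * n + 2 * i + j) ≤ (2 * k + l + i2 + 2 * l2 + 2) := by clear * - b0 b4 b6 b7 b8 b9 z108 z109; omega
      have k553 : (2 * n + i2) ≤ (j + 2 * k + l + 2) := by clear * - b4 b6 b8 z108; omega
      obtain ⟨t, ht⟩ : ∃ t, 2 * t = (2 * n + j + 2 * k + l - i2 + 1) := ⟨(2 * n + j + 2 * k + l - i2 + 1) / 2, by clear * - ev n1p n2p n3p; omega⟩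
      clear * - al a1 a2 s1 s2 b tt c u1 u2 d1 d2 n1 n2 n3 k549 k550 z109 k551 k552 k553 ht
      exact al.ninv t (cE (cI (cE (pb b al 1 t (t + (i - n - k)) (by omega)) (pb c al 0 (t + (i - n - k)) (t + (i + i2 - 2 * k - l - 1)) (by omega))) (ab s1 al 0 (t + (i + i2 - 2 * k - l - 1)) ((j + 2 * k + l - i2 + 1) - t) (by omega))) (sh al 2 ((j + 2 * k + l - i2 + 1) - t) t (by omega)))
    · have k554 : (k + i3) ≤ (j + i2 + l2) := by clear * - b10 b9 z109; omega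
      have k555 : (j + i2 + l2 + 2) ≤ (n + k + i3) := by clear * - b0 b10 b6 b7 b8 b9 z108 z109; omega
      have k556 : (j + i2 + l2 + 2) ≤ (n + i3) := by clear * - b0 b10 b6 b7 b8 z108; omega
      have k557 : (j + i2 + l2 + 2) ≤ (n + i) := by clear * - b0 b10 b6 b7 b8 z108 z109; omega
      have k558 : (k) ≤ (n + i) := by clear * - b0 b10 b6 b7 b8 b9 z108 z109; omega
      have k559 : (n + i) ≤ (Q + k) := by clear * - b10 b3 b4 b7 b8 y10 z108 z109; omega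
      have k560 : (n + i + i2 + l2 + 1) ≤ (2 * k + i3) := by clear * - b0 b10 b6 b7 b8 z108; omega
      have k561 : (n + j + i2 + l2) ≤ (2 * k + l + i3) := by clear * - b0 b10 b6 b7 b8 z108; omega
      clear * - al a1 a2 s1 s2 b tt c u1 u2 d1 d2 n1 n2 n3 k554 k555 k556 k557 k558 k559 k560 k561
      exact al.ubP (j + i2 + l2 - k - i3 + 1) (by omega) (by omega) fun t h1 h2 => (cE (sh al 2 t (t + (2 * n)) (by omega)) (cE (cE (cE (cE (pb b al 1 (t + (2 * n)) (t + (n + i - k)) (by omega)) (qf d1 al 0 (t + (n + i - k)) (t + (n + i + i2 + l2 - k - i3 + 1)) (by omega))) (pb a1 al 0 (t + (n + i + i2 + l2 - k - i3 + 1)) (t + (n + i + j + i2 + l2 - 2 * k - i3 + 1)) (by omega))) (qf b al 0 (t + (n + i + j + i2 + l2 - 2 * k - i3 + 1)) (t + (n + j + i2 + l2 - k - i3 + 1)) (by omega))) (sh al (-1) (t + (n + j + i2 + l2 - k - i3 + 1)) (t + (j + i2 + l2 - k - i3 + 1)) (by omega))))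

theorem l2_10110_52 {W : ℤ → G} {n Q i j k l i2 l2 i3 : ℤ} (al : AL W n Q)
    {L : ℤ} (mx : ∀ a b g, 0 < g → g < n → Par W a b g → b - a ≤ L) (hL : L ≤ (n - j - 3) ∧ L ≤ (n + Q - k - 3) ∧ L ≤ (n - l - 3) ∧ L ≤ (k - j - 2) ∧ L ≤ (n - l2 - 3) ∧ L ≤ (n + i3 - Q - 2) ∧ L ≤ (i2 + l2 - 1) ∧ L ≤ (n + i3 - i2 - l2 - 3))
    (hy : (0) ≤ (i) ∧ (i) ≤ (j) ∧ (j + 1) ≤ (Q) ∧ (Q) ≤ (k) ∧ (k + 1) ≤ (n) ∧ (i + l + 2) ≤ (Q) ∧ (n) ≤ (k + l + 1) ∧ (0) ≤ (i2) ∧ (i2) ≤ (i + l + 1) ∧ (n) ≤ (k + l + l2 + 2) ∧ (k + l + l2 + 3) ≤ (n + Q) ∧ (Q) ≤ (i2 + l2 + 1) ∧ (i2 + l2 + 2) ≤ (n) ∧ (0) ≤ (i3) ∧ (n + i3) ≤ (k + l + l2 + 2) ∧ (j + 3) ≤ (n) ∧ (k + 3) ≤ (n + Q) ∧ (l + 3) ≤ (n) ∧ (j + 2) ≤ (k) ∧ (l2 + 3) ≤ (n) ∧ (Q + 2) ≤ (n + i3) ∧ (1) ≤ (i2 + l2) ∧ (i2 + l2 + 3) ≤ (n + i3))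
    (a1 : Par W (0) (j) (k - j))
    (a2 : Par W (Q + j - k) (j) (k - j))
    (s1 : Ant W (0) (i) (i + j))
    (s2 : Ant W (j + 1) (Q) (i + j))
    (b : Par W (i + 1) (i + l + 1) (k - i))
    (tt : Ant W (i + l + 2) (Q) (i + l + i2 + 1))
    (c : Par W (i2 + 1) (i2 + l2 + 1) (k + l - n - i2 + 1))
    (u1 : Ant W (0) (i3) (k + l + l2 + i3 - n + 2))
    (u2 : Ant W (k + l + l2 - n + 3) (Q) (k + l + l2 + i3 - n + 2))
    (d1 : Par W (i3 + 1) (Q) (i2 + l2 - i3 + 1))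
    (d2 : Par W (i2 + l2 + 2) (n) (i3 - i2 - l2 - 1))
    (n1 : Nd W (j) (i) (k))
    (n2 : Nd W (i + l + 1) (i2) (k + l - n + 1))
    (n3 : Nd W (k + l + l2 - n + 2) (i3) (i2 + l2 + 1))
    (b0 : (j + l + l2 + i3 + 3) ≤ (n))
    (b1 : (2 * Q + i2 + l2) ≤ (n + i + j + i3))
    (b2 : (n + j + i3) ≤ (k + i2 + l2 + 1))
    (b3 : (2 * Q + k) ≤ (n + i + 2 * i2))
    (b4 : (n + j + i3) ≤ (i + k + l + l2 + 1))
    (b5 : (1) ≤ (i3))
    (b6 : (k + i2 + l2 + 1) ≤ (n + j + i3))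
    (b7 : (n + i + j) ≤ (k + l + l2 + i3 + 1))
    (b8 : (2 * n + i) ≤ (2 * k + l + 1))
    (b9 : (i + k + l + i3 + 1) ≤ (j + 2 * i2 + l2)) : False := by
  have ev := al.ev
  obtain ⟨y0, y1, y2, y3, y4, y5, y6, y7, y8, y9, y10, y11, y12, y13, y14, y15, y16, y17, y18, y19, y20, y21, y22⟩ := id hy
  have n1p := And.intro n1.p1 n1.p2
  have n2p := And.intro n2.p1 n2.p2
  have n3p := And.intro n3.p1 n3.p2
  by_cases z107 : (j + 2 * k + 2) ≤ (2 * n + 3 * i)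
  · exact l2_10110_53 al mx hL hy a1 a2 s1 s2 b tt c u1 u2 d1 d2 n1 n2 n3 (by clear * - b0; omega) (by clear * - b1; omega) (by clear * - b2; omega) (by clear * - b3; omega) (by clear * - b4; omega) (by clear * - b5; omega) (by clear * - b6; omega) (by clear * - b7; omega) (by clear * - b8; omega) (by clear * - b9; omega) (by clear * - z107; omega)
  · exact l2_10110_54 al mx hL hy a1 a2 s1 s2 b tt c u1 u2 d1 d2 n1 n2 n3 (by clear * - b0; omega) (by clear * - b1; omega) (by clear * - b2; omega) (by clear * - b3; omega) (by clear * - b4; omega) (by clear * - b5; omega) (by clear * - b6; omega) (by clear * - b7; omega) (by clear * - b8; omega) (by clear * - b9; omega) (by clear * - z107; omega)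

end Pool.Agent.MP_a38735_al.WL
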