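import Pool.Agent.MP_a38735_al.Q2b2

set_option autoImplicit false
set_option linter.unusedVariables false

namespace Pool.Agent.MP_a38735_al.WL

variable {G : Type*} [Group G]

theorem l2_10110_51 {W : ℤ → G} {n Q i j k l i2 l2 i3 : ℤ} (al : AL W n Q)
    {L : ℤ} (mx : ∀ a b g, 0 < g → g < n → Par W a b g → b - a ≤ L) (hL : L ≤ (n - j - 3) ∧ L ≤ (n + Q - k - 3) ∧ L ≤ (n - l - 3) ∧ L ≤ (k - j - 2) ∧ L ≤ (n - l2 - 3) ∧ L ≤ (n + i3 - Q - 2) ∧ L ≤ (i2 + l2 - 1) ∧ L ≤ (n + i3 - i2 - l2 - 3))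
    (hy : (0) ≤ (i) ∧ (i) ≤ (j) ∧ (j + 1) ≤ (Q) ∧ (Q) ≤ (k) ∧ (k + 1) ≤ (n) ∧ (i + l + 2) ≤ (Q) ∧ (n) ≤ (k + l + 1) ∧ (0) ≤ (i2) ∧ (i2) ≤ (i + l + 1) ∧ (n) ≤ (k + l + l2 + 2) ∧ (k + l + l2 + 3) ≤ (n + Q) ∧ (Q) ≤ (i2 + l2 + 1) ∧ (i2 + l2 + 2) ≤ (n) ∧ (0) ≤ (i3) ∧ (n + i3) ≤ (k + l + l2 + 2) ∧ (j + 3) ≤ (n) ∧ (k + 3) ≤ (n + Q) ∧ (l + 3) ≤ (n) ∧ (j + 2) ≤ (k) ∧ (l2 + 3) ≤ (n) ∧ (Q + 2) ≤ (n + i3) ∧ (1) ≤ (i2 + l2) ∧ (i2 + l2 + 3) ≤ (n + i3))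
    (a1 : Par W (0) (j) (k - j))
    (a2 : Par W (Q + j - k) (j) (k - j))
    (s1 : Ant W (0) (i) (i + j))
    (s2 : Ant W (j + 1) (Q) (i + j))
    (b : Par W (i + 1) (i + l + 1) (k - i))
    (tt : Ant W (i + l + 2) (Q) (i + l + i2 + 1))
    (c : Par W (i2 + 1) (i2 + l2 + 1) (k + l - n - i2 + 1))
    (u1 : Ant W (0) (i3) (k + l + l2 + i3 - n + 2))
    (u2 : Ant W (k + l + l2 - n + 3) (Q) (k + l + l2 + i3 - n + 2))
    (d1 : Par W (i3 + 1) (Q) (i2 + l2 - i3 + 1))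
    (d2 : Par W (i2 + l2 + 2) (n) (i3 - i2 - l2 - 1))
    (n1 : Nd W (j) (i) (k))
    (n2 : Nd W (i + l + 1) (i2) (k + l - n + 1))
    (n3 : Nd W (k + l + l2 - n + 2) (i3) (i2 + l2 + 1))
    (b0 : (j + l + l2 + i3 + 3) ≤ (n))
    (b1 : (2 * Q + i2 + l2) ≤ (n + i + j + i3))
    (b2 : (n + j + i3) ≤ (k + i2 + l2 + 1))
    (b3 : (2 * i + k) ≤ (j + i2 + l2 + i3 + 2))
    (b4 : (2 * Q + k) ≤ (n + i + 2 * i2))
    (b5 : (k + i3) ≤ (j + i2 + l2))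
    (b6 : (n + j + i3) ≤ (i + k + l + l2 + 1))
    (b7 : (1) ≤ (i3))
    (b8 : (k + i2 + l2 + 1) ≤ (n + j + i3))
    (b9 : (n + i + j) ≤ (k + l + l2 + i3 + 1))
    (b10 : (2 * n + i) ≤ (2 * k + l + 1)) : False := by
  have ev := al.ev
  obtain ⟨y0, y1, y2, y3, y4, y5, y6, y7, y8, y9, y10, y11, y12, y13, y14, y15, y16, y17, y18, y19, y20, y21, y22⟩ := id hy
  have n1p := And.intro n1.p1 n1.p2
  have n2p := And.intro n2.p1 n2.p2
  have n3p := And.intro n3.p1 n3.p2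
  by_cases z105 : (j + 2 * i2 + l2) ≤ (i + k + l + i3)
  · by_cases z106 : (i + k + l + i3) ≤ (j + 2 * i2 + l2)
    · have k533 : (i + 1) ≤ (i2) := by clear * - b0 b10 b6 b7 b8 b9 z106; omega
      have k534 : (n + i + i3 + 1) ≤ (k + i2) := by clear * - b0 b10 b6 b7 b8 z106; omega
      have k535 : (n + Q + i + i3) ≤ (k + 2 * i2 + l2 + 1) := by clear * - b0 b1 b10 b6 b7 b8 b9 z106; omega
      have k536 : (i2) ≤ (i + l) := by clear * - b6 b8; omega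
      have k537 : (k + i2 + 1) ≤ (n + Q + i) := by clear * - b4 b6 b8 y5; omega
      have k538 : (2 * i2 + l2 + 2) ≤ (n + i + i3) := by clear * - b1 b4 b6 b8 y5 z105; omega
      clear * - al a1 a2 s1 s2 b tt c u1 u2 d1 d2 n1 n2 n3 k533 k534 k535 k536 k537 k538 z106 z105
      exact n2.f1 (cE (cE (qf b al 0 (i2) (k + i2 - i) (by omega)) (qf d1 al 1 (k + i2 - i) (k + 2 * i2 + l2 - n - i - i3 + 1) (by omega))) (pb a2 al 0 (k + 2 * i2 + l2 - n - i - i3 + 1) (k + l - n + 1) (by omega)))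
    · have k539 : (n + 2 * j + i2 + 1) ≤ (i + 2 * k + l) := by clear * - b2 z106 ev n1p n2p n3p; omega
      have k540 : (n + i + i2 + 1) ≤ (2 * k + l) := by clear * - b0 b1 b10 b5 b7 b9 y5 z106; omega
      have k541 : (n + i) ≤ (l + i2 + 2 * l2 + 1) := by clear * - b5 b9; omega
      have k542 : (i + 2 * k + l + 2) ≤ (n + 2 * Q + i2) := by clear * - b5 b9 y10; omega
      have k543 : (2 * Q + l) ≤ (n + i + i2) := by clear * - b0 b1 b2 b5 b7; omega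
      have k544 : (l + i2 + 2) ≤ (n + i) := by clear * - b1 b4 b6 b8 y5; omega
      obtain ⟨t, ht⟩ : ∃ t, 2 * t = (i + 2 * k + l - 3 * n - i2 + 1) := ⟨(i + 2 * k + l - 3 * n - i2 + 1) / 2, by clear * - ev n1p n2p n3p; omega⟩
      clear * - al a1 a2 s1 s2 b tt c u1 u2 d1 d2 n1 n2 n3 k539 k540 k541 k542 k543 k544 ht
      exact al.ninv t (cE (cE (cE (qa s2 al (-1) t ((i + j - n) - t) (by omega)) (qf a2 al 0 ((i + j - n) - t) ((i + k - n) - t) (by omega))) (qf c al 0 ((i + k - n) - t) ((i + 2 * k + l - 2 * n - i2 + 1) - t) (by omega))) (sh al (-1) ((i + 2 * k + l - 2 * n - i2 + 1) - t) t (by omega)))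
  · exact l2_10110_52 al mx hL hy a1 a2 s1 s2 b tt c u1 u2 d1 d2 n1 n2 n3 (by clear * - b0; omega) (by clear * - b1; omega) (by clear * - b2; omega) (by clear * - b4; omega) (by clear * - b6; omega) (by clear * - b7; omega) (by clear * - b8; omega) (by clear * - b9; omega) (by clear * - b10; omega) (by clear * - z105; omega)

theorem l2_10110_50 {W : ℤ → G} {n Q i j k l i2 l2 i3 : ℤ} (al : AL W n Q)
    {L : ℤ} (mx : ∀ a b g, 0 < g → g < n → Par W a b g → b - a ≤ L) (hL : L ≤ (n - j - 3) ∧ L ≤ (n + Q - k - 3) ∧ L ≤ (n - l - 3) ∧ L ≤ (k - j - 2) ∧ L ≤ (n - l2 - 3) ∧ L ≤ (n + i3 - Q - 2) ∧ L ≤ (i2 + l2 - 1) ∧ L ≤ (n + i3 - i2 - l2 - 3))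
    (hy : (0) ≤ (i) ∧ (i) ≤ (j) ∧ (j + 1) ≤ (Q) ∧ (Q) ≤ (k) ∧ (k + 1) ≤ (n) ∧ (i + l + 2) ≤ (Q) ∧ (n) ≤ (k + l + 1) ∧ (0) ≤ (i2) ∧ (i2) ≤ (i + l + 1) ∧ (n) ≤ (k + l + l2 + 2) ∧ (k + l + l2 + 3) ≤ (n + Q) ∧ (Q) ≤ (i2 + l2 + 1) ∧ (i2 + l2 + 2) ≤ (n) ∧ (0) ≤ (i3) ∧ (n + i3) ≤ (k + l + l2 + 2) ∧ (j + 3) ≤ (n) ∧ (k + 3) ≤ (n + Q) ∧ (l + 3) ≤ (n) ∧ (j + 2) ≤ (k) ∧ (l2 + 3) ≤ (n) ∧ (Q + 2) ≤ (n + i3) ∧ (1) ≤ (i2 + l2) ∧ (i2 + l2 + 3) ≤ (n + i3))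
    (a1 : Par W (0) (j) (k - j))
    (a2 : Par W (Q + j - k) (j) (k - j))
    (s1 : Ant W (0) (i) (i + j))
    (s2 : Ant W (j + 1) (Q) (i + j))
    (b : Par W (i + 1) (i + l + 1) (k - i))
    (tt : Ant W (i + l + 2) (Q) (i + l + i2 + 1))
    (c : Par W (i2 + 1) (i2 + l2 + 1) (k + l - n - i2 + 1))
    (u1 : Ant W (0) (i3) (k + l + l2 + i3 - n + 2))
    (u2 : Ant W (k + l + l2 - n + 3) (Q) (k + l + l2 + i3 - n + 2))
    (d1 : Par W (i3 + 1) (Q) (i2 + l2 - i3 + 1))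
    (d2 : Par W (i2 + l2 + 2) (n) (i3 - i2 - l2 - 1))
    (n1 : Nd W (j) (i) (k))
    (n2 : Nd W (i + l + 1) (i2) (k + l - n + 1))
    (n3 : Nd W (k + l + l2 - n + 2) (i3) (i2 + l2 + 1))
    (b0 : (j + l + l2 + i3 + 3) ≤ (n))
    (b1 : (2 * Q + i2 + l2) ≤ (n + i + j + i3))
    (b2 : (n + i + j) ≤ (k + l + i2 + 2))
    (b3 : (n + j + i3) ≤ (k + i2 + l2 + 1))
    (b4 : (2 * i + k) ≤ (j + i2 + l2 + i3 + 2))
    (b5 : (2 * Q + k) ≤ (n + i + 2 * i2))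
    (b6 : (k + i3) ≤ (j + i2 + l2))
    (b7 : (n + j + i3) ≤ (i + k + l + l2 + 1))
    (b8 : (1) ≤ (i3))
    (b9 : (k + i2 + l2 + 1) ≤ (n + j + i3))
    (b10 : (n + i + j) ≤ (k + l + l2 + i3 + 1))
    (b11 : (2 * n + Q + i + j) ≤ (3 * k + l + 1)) : False := by
  have ev := al.ev
  obtain ⟨y0, y1, y2, y3, y4, y5, y6, y7, y8, y9, y10, y11, y12, y13, y14, y15, y16, y17, y18, y19, y20, y21, y22⟩ := id hy
  have n1p := And.intro n1.p1 n1.p2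
  have n2p := And.intro n2.p1 n2.p2
  have n3p := And.intro n3.p1 n3.p2
  by_cases z103 : (2 * k + l + 2) ≤ (2 * n + i)
  · by_cases z104 : (k + i3) ≤ (i + 2 * i2 + l2 + 1)
    · have k521 : (n + i + 2 * i2 + l2 + 1) ≤ (2 * k + l + i3) := by clear * - b11 b7 b9 y5; omega
      have k522 : (2 * k + l + i3 + 1) ≤ (2 * n + i + 2 * i2 + l2) := by clear * - b0 b6 b7 b8 y22; omega
      have k523 : (2 * k + l + i3 + 2) ≤ (2 * n + i + i2) := by clear * - b0 b6 b7 b8 b9; omega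
      have k524 : (n + i3) ≤ (2 * i2 + 2 * l2 + 2) := by clear * - b3 b6 b8; omega
      clear * - al a1 a2 s1 s2 b tt c u1 u2 d1 d2 n1 n2 n3 k521 k522 k523 z103 y4 k524 z104
      exact al.ubP (2 * k + l + i3 - n - i - 2 * i2 - l2) (by omega) (by omega) fun t h1 h2 => (cE (sh al 2 t (t + (2 * n)) (by omega)) (cE (cE (cE (qf d2 al 1 (t + (2 * n)) (t + (n + i3 - i2 - l2 - 1)) (by omega)) (qf c al 0 (t + (n + i3 - i2 - l2 - 1)) (t + (k + l + i3 - 2 * i2 - l2)) (by omega))) (qf b al 0 (t + (k + l + i3 - 2 * i2 - l2)) (t + (2 * k + l + i3 - i - 2 * i2 - l2)) (by omega))) (sh al (-1) (t + (2 * k + l + i3 - i - 2 * i2 - l2)) (t + (2 * k + l + i3 - n - i - 2 * i2 - l2)) (by omega))))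
    · have k525 : (k + l + 2) ≤ (n + i2) := by clear * - b0 b6 b8; omega
      have k526 : (j + i2) ≤ (k + i3 + 1) := by clear * - b0 b6 b7 b8 z104; omega
      have k527 : (n + i3) ≤ (k + l) := by clear * - b11 b6 b7 b9 y10; omega
      have k528 : (n + i3) ≤ (j + l + i2 + l2 + 2) := by clear * - b11 b6 b7 b8 b9 y10; omega
      have k529 : (2 * i2 + l2) ≤ (n + i3) := by clear * - b0 b6 b7 b8 b9 z104; omega
      have k530 : (2 * i2 + l2) ≤ (k + i3) := by clear * - y0 z104; omega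
      have k531 : (n + i2 - k - l - 1) % 2 = 0 := by clear * - ev n1p n2p n3p; omega
      have k532 : (j + i2 + l2 - k - i3 + 1) % 2 = 0 := by clear * - ev n1p n2p n3p; omega
      clear * - al a1 a2 s1 s2 b tt c u1 u2 d1 d2 n1 n2 n3 k525 b6 k526 k527 k528 k529 k530 k531 k532
      exact n2.f1 (rEE (sh al 1 (i2) (n + i2) (by omega)) (sh al 1 (k + l - n + 1) (k + l + 1) (by omega)) (Eq.symm (rotL (n + i2 - k - l - 1) (j + i2 + l2 - k - i3 + 1) (k + l + 1) (n + i2) (by omega) (fun t h1 h2 => (cE (pb c al 1 t (t + (i2 - k - l - 1)) (by omega)) (sh al 1 (t + (i2 - k - l - 1)) (t + (n + i2 - k - l - 1)) (by omega)))) (fun t h1 h2 => (cE (cE (pb d2 al 1 t (t + (i2 + l2 - n - i3 + 1)) (by omega)) (pb a1 al 0 (t + (i2 + l2 - n - i3 + 1)) (t + (j + i2 + l2 - n - k - i3 + 1)) (by omega))) (sh al 1 (t + (j + i2 + l2 - n - k - i3 + 1)) (t + (j + i2 + l2 - k - i3 + 1))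 (by omega)))))))
  · exact l2_10110_51 al mx hL hy a1 a2 s1 s2 b tt c u1 u2 d1 d2 n1 n2 n3 (by clear * - b0; omega) (by clear * - b1; omega) (by clear * - b3; omega) (by clear * - b4; omega) (by clear * - b5; omega) (by clear * - b6; omega) (by clear * - b7; omega) (by clear * - b8; omega) (by clear * - b9; omega) (by clear * - b10; omega) (by clear * - z103; omega)

theorem l2_10110_49 {W : ℤ → G} {n Q i j k l i2 l2 i3 : ℤ} (al : AL W n Q)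
    {L : ℤ} (mx : ∀ a b g, 0 < g → g < n → Par W a b g → b - a ≤ L) (hL : L ≤ (n - j - 3) ∧ L ≤ (n + Q - k - 3) ∧ L ≤ (n - l - 3) ∧ L ≤ (k - j - 2) ∧ L ≤ (n - l2 - 3) ∧ L ≤ (n + i3 - Q - 2) ∧ L ≤ (i2 + l2 - 1) ∧ L ≤ (n + i3 - i2 - l2 - 3))
    (hy : (0) ≤ (i) ∧ (i) ≤ (j) ∧ (j + 1) ≤ (Q) ∧ (Q) ≤ (k) ∧ (k + 1) ≤ (n) ∧ (i + l + 2) ≤ (Q) ∧ (n) ≤ (k + l + 1) ∧ (0) ≤ (i2) ∧ (i2) ≤ (i + l + 1) ∧ (n) ≤ (k + l + l2 + 2) ∧ (k + l + l2 + 3) ≤ (n + Q) ∧ (Q) ≤ (i2 + l2 + 1) ∧ (i2 + l2 + 2) ≤ (n) ∧ (0) ≤ (i3) ∧ (n + i3) ≤ (k + l + l2 + 2) ∧ (j + 3) ≤ (n) ∧ (k + 3) ≤ (n + Q) ∧ (l + 3) ≤ (n) ∧ (j + 2) ≤ (k) ∧ (l2 + 3) ≤ (n) ∧ (Q + 2) ≤ (n + i3) ∧ (1) ≤ (i2 + l2) ∧ (i2 + l2 + 3) ≤ (n + i3))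
    (a1 : Par W (0) (j) (k - j))
    (a2 : Par W (Q + j - k) (j) (k - j))
    (s1 : Ant W (0) (i) (i + j))
    (s2 : Ant W (j + 1) (Q) (i + j))
    (b : Par W (i + 1) (i + l + 1) (k - i))
    (tt : Ant W (i + l + 2) (Q) (i + l + i2 + 1))
    (c : Par W (i2 + 1) (i2 + l2 + 1) (k + l - n - i2 + 1))
    (u1 : Ant W (0) (i3) (k + l + l2 + i3 - n + 2))
    (u2 : Ant W (k + l + l2 - n + 3) (Q) (k + l + l2 + i3 - n + 2))
    (d1 : Par W (i3 + 1) (Q) (i2 + l2 - i3 + 1))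
    (d2 : Par W (i2 + l2 + 2) (n) (i3 - i2 - l2 - 1))
    (n1 : Nd W (j) (i) (k))
    (n2 : Nd W (i + l + 1) (i2) (k + l - n + 1))
    (n3 : Nd W (k + l + l2 - n + 2) (i3) (i2 + l2 + 1))
    (b0 : (j + l + l2 + i3 + 3) ≤ (n))
    (b1 : (2 * Q + i2 + l2) ≤ (n + i + j + i3))
    (b2 : (n + i + j) ≤ (k + l + i2 + 2))
    (b3 : (n + j + i3) ≤ (k + i2 + l2 + 1))
    (b4 : (n + 2 * i) ≤ (j + k + 1))
    (b5 : (2 * i + k) ≤ (j + i2 + l2 + i3 + 2))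
    (b6 : (2 * Q + k) ≤ (n + i + 2 * i2))
    (b7 : (k + i3) ≤ (j + i2 + l2))
    (b8 : (n + j + i3) ≤ (i + k + l + l2 + 1))
    (b9 : (1) ≤ (i3))
    (b10 : (k + i2 + l2 + 1) ≤ (n + j + i3))
    (b11 : (n + i + j) ≤ (k + l + l2 + i3 + 1))
    (b12 : (n + i + 2 * i2 + l2 + 1) ≤ (2 * k + l + i3)) : False := by
  have ev := al.ev
  obtain ⟨y0, y1, y2, y3, y4, y5, y6, y7, y8, y9, y10, y11, y12, y13, y14, y15, y16, y17, y18, y19, y20, y21, y22⟩ := id hy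
  have n1p := And.intro n1.p1 n1.p2
  have n2p := And.intro n2.p1 n2.p2
  have n3p := And.intro n3.p1 n3.p2
  by_cases z102 : (3 * k + l + 2) ≤ (2 * n + Q + i + j)
  · have k516 : (2 * n + i + j + i2) ≤ (3 * k + l) := by clear * - b12 b3; omega
    have k517 : (3 * k + l + 2) ≤ (3 * n + i + j + i2) := by clear * - b0 b10 b12 b7 b8 b9; omega
    have k518 : (2 * k + 1) ≤ (n + Q + j) := by clear * - b12 b2 b7 z102; omega
    have k519 : (Q + k) ≤ (n + i + i2) := by clear * - b12 b3 b6 z102; omega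
    have k520 : (Q + 2 * k + l + 1) ≤ (2 * n + i + j + i2) := by clear * - b0 b1 b10 b7 b8 b9; omega
    clear * - al a1 a2 s1 s2 b tt c u1 u2 d1 d2 n1 n2 n3 k516 k517 z102 k518 y11 k519 k520
    exact al.ubQ (3 * k + l - 2 * n - i - j - i2 + 1) (by omega) (by omega) fun t h1 h2 => (cE (sh al 1 t (t + (n)) (by omega)) (cE (cE (qf c al 1 (t + (n)) (t + (k + l - n - i2 + 1)) (by omega)) (qf b al 0 (t + (k + l - n - i2 + 1)) (t + (2 * k + l - n - i - i2 + 1)) (by omega))) (qf a2 al 1 (t + (2 * k + l - n - i - i2 + 1)) (t + (3 * k + l - 2 * n - i - j - i2 + 1)) (by omega))))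
  · exact l2_10110_50 al mx hL hy a1 a2 s1 s2 b tt c u1 u2 d1 d2 n1 n2 n3 (by clear * - b0; omega) (by clear * - b1; omega) (by clear * - b2; omega) (by clear * - b3; omega) (by clear * - b5; omega) (by clear * - b6; omega) (by clear * - b7; omega) (by clear * - b8; omega) (by clear * - b9; omega) (by clear * - b10; omega) (by clear * - b11; omega) (by clear * - z102; omega)

theorem l2_10110_57 {W : ℤ → G} {n Q i j k l i2 l2 i3 : ℤ} (al : AL W n Q)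
    {L : ℤ} (mx : ∀ a b g, 0 < g → g < n → Par W a b g → b - a ≤ L) (hL : L ≤ (n - j - 3) ∧ L ≤ (n + Q - k - 3) ∧ L ≤ (n - l - 3) ∧ L ≤ (k - j - 2) ∧ L ≤ (n - l2 - 3) ∧ L ≤ (n + i3 - Q - 2) ∧ L ≤ (i2 + l2 - 1) ∧ L ≤ (n + i3 - i2 - l2 - 3))
    (hy : (0) ≤ (i) ∧ (i) ≤ (j) ∧ (j + 1) ≤ (Q) ∧ (Q) ≤ (k) ∧ (k + 1) ≤ (n) ∧ (i + l + 2) ≤ (Q) ∧ (n) ≤ (k + l + 1) ∧ (0) ≤ (i2) ∧ (i2) ≤ (i + l + 1) ∧ (n) ≤ (k + l + l2 + 2) ∧ (k + l + l2 + 3) ≤ (n + Q) ∧ (Q) ≤ (i2 + l2 + 1) ∧ (i2 + l2 + 2) ≤ (n) ∧ (0) ≤ (i3) ∧ (n + i3) ≤ (k + l + l2 + 2) ∧ (j + 3) ≤ (n) ∧ (k + 3) ≤ (n + Q) ∧ (l + 3) ≤ (n) ∧ (j + 2) ≤ (k) ∧ (l2 + 3) ≤ (n) ∧ (Q + 2) ≤ (n + i3) ∧ (1) ≤ (i2 + l2) ∧ (i2 + l2 + 3) ≤ (n + i3))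
    (a1 : Par W (0) (j) (k - j))
    (a2 : Par W (Q + j - k) (j) (k - j))
    (s1 : Ant W (0) (i) (i + j))
    (s2 : Ant W (j + 1) (Q) (i + j))
    (b : Par W (i + 1) (i + l + 1) (k - i))
    (tt : Ant W (i + l + 2) (Q) (i + l + i2 + 1))
    (c : Par W (i2 + 1) (i2 + l2 + 1) (k + l - n - i2 + 1))
    (u1 : Ant W (0) (i3) (k + l + l2 + i3 - n + 2))
    (u2 : Ant W (k + l + l2 - n + 3) (Q) (k + l + l2 + i3 - n + 2))
    (d1 : Par W (i3 + 1) (Q) (i2 + l2 - i3 + 1))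
    (d2 : Par W (i2 + l2 + 2) (n) (i3 - i2 - l2 - 1))
    (n1 : Nd W (j) (i) (k))
    (n2 : Nd W (i + l + 1) (i2) (k + l - n + 1))
    (n3 : Nd W (k + l + l2 - n + 2) (i3) (i2 + l2 + 1))
    (b0 : (j + l + l2 + i3 + 3) ≤ (n))
    (b1 : (2 * Q + i2 + l2) ≤ (n + i + j + i3))
    (b2 : (n + i + j) ≤ (k + l + i2 + 2))
    (b3 : (n + j + i3) ≤ (k + i2 + l2 + 1))
    (b4 : (n + 2 * i) ≤ (j + k + 1))
    (b5 : (n + j + i3) ≤ (i + k + l + l2 + 1))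
    (b6 : (1) ≤ (i3))
    (b7 : (k + i2 + l2 + 1) ≤ (n + j + i3))
    (b8 : (n + i + j) ≤ (k + l + l2 + i3 + 1))
    (b9 : (2 * k + l + i3) ≤ (n + i + 2 * i2 + l2)) : False := by
  have ev := al.ev
  obtain ⟨y0, y1, y2, y3, y4, y5, y6, y7, y8, y9, y10, y11, y12, y13, y14, y15, y16, y17, y18, y19, y20, y21, y22⟩ := id hy
  have n1p := And.intro n1.p1 n1.p2
  have n2p := And.intro n2.p1 n2.p2
  have n3p := And.intro n3.p1 n3.p2
  by_cases z123 : (k + i2) ≤ (n + i + 1)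
  · have k663 : (k + l + 2) ≤ (n + i2) := by clear * - b0 b4 b5 b6 b7 b9; omega
    have k664 : (i + i2 + l2 + 2) ≤ (k + i3) := by clear * - b0 b4 b5 b6 b7; omega
    have k665 : (k + i3) ≤ (i + i2 + 2 * l2 + 3) := by clear * - b4 b5 b6 b9 z123; omega
    have k666 : (n + i) ≤ (k + l) := by clear * - b2 b4 b5 b7 ev n1p n2p n3p; omega
    have k667 : (n + i + i2 + l2 + 1) ≤ (2 * k + l) := by clear * - b1 b2 b4 b5 b7 b8 y10; omega
    have k668 : (i2) ≤ (i + l + 2) := by clear * - b5 b7; omega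
    have k669 : (n + i2 - k - l - 1) % 2 = 0 := by clear * - ev n1p n2p n3p; omega
    have k670 : (k + i3 - i - i2 - l2 - 1) % 2 = 0 := by clear * - ev n1p n2p n3p; omega
    clear * - al a1 a2 s1 s2 b tt c u1 u2 d1 d2 n1 n2 n3 k663 k664 k665 k666 k667 k668 z123 k669 k670
    exact n2.f1 (rEE (sh al (-1) (i2) (i2 - n) (by omega)) (sh al (-1) (k + l - n + 1) (k + l - 2 * n + 1) (by omega)) (Eq.symm (rotL (n + i2 - k - l - 1) (k + i3 - i - i2 - l2 - 1) (k + l - 2 * n + 1) (i2 - n) (by omega) (fun t h1 h2 => (cE (pb c al (-1) t (t + (2 * n + i2 - k - l - 1)) (by omega)) (sh al (-1) (t + (2 * n + i2 - k - l - 1)) (t + (n + i2 - k - l - 1)) (by omega)))) (fun t h1 h2 => (cE (cE (qf b al (-1) t (t + (n + k - i)) (by omega)) (qf d2 al 0 (t + (n + k - i)) (t + (n + k + i3 - i - i2 - l2 - 1)) (by omega))) (sh al (-1) (t + (n + k + i3 - i - i2 - l2 - 1)) (t + (k + i3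 - i - i2 - l2 - 1)) (by omega)))))))
  · by_cases z124 : (n + i + 2 * i2 + l2) ≤ (2 * k + l + i3)
    · have k671 : (i3 + 1) ≤ (i2) := by clear * - b0 b4 b5 b6 b7 b9 z123; omega
      have k672 : (k + i3) ≤ (2 * i2 + l2) := by clear * - b2 b4 b5 b7 b9 ev n1p n2p n3p; omega
      have k673 : (2 * i2 + l2 + 2) ≤ (n + i3) := by clear * - b0 b1 b5 b7 b8 y5; omega
      have k674 : (2 * i2 + l2 + 1) ≤ (k + l + i3) := by clear * - b0 b4 b5 b6 b7; omega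
      clear * - al a1 a2 s1 s2 b tt c u1 u2 d1 d2 n1 n2 n3 k671 k672 k673 k674 b9 z124
      exact n2.f1 (cE (pb d2 al 0 (i2) (2 * i2 + l2 - i3 + 1) (by omega)) (pb b al 0 (2 * i2 + l2 - i3 + 1) (k + l - n + 1) (by omega)))
    · have k675 : (i + 2 * i2 + l2 + 1) ≤ (2 * k + l + i3) := by clear * - b0 b4 b5 b6 b7 z124; omega
      have k676 : (n + i + 2 * i2 + l2 + 1) ≤ (Q + 2 * k + l) := by clear * - b1 b4 b5 b7 b8 y10; omega
      have k677 : (n + i + i2) ≤ (Q + k + l) := by clear * - b4 b5 b7 b8 y10; omega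
      have k678 : (i2 + 1) ≤ (Q) := by clear * - b5 b7 y5; omega
      have k679 : (Q + i2 + l2) ≤ (k + l + i3) := by clear * - b0 b1 b5 b7 b8 z123; omega
      have k680 : (n + Q + i + i2) ≤ (2 * k + l + i3 + 1) := by clear * - b0 b1 b4 b5 b6 b7 b8; omega
      clear * - al a1 a2 s1 s2 b tt c u1 u2 d1 d2 n1 n2 n3 z124 k675 k676 k677 k678 k679 k680
      exact al.ubQ (n + i + 2 * i2 + l2 - 2 * k - l - i3) (by omega) (by omega) fun t h1 h2 => (cE (sh al 1 t (t + (n)) (by omega)) (cE (cE (qf d1 al 1 (t + (n)) (t + (i2 + l2 - i3 + 1)) (by omega)) (pb b al 0 (t + (i2 + l2 - i3 + 1)) (t + (i + i2 + l2 - k - i3 + 1)) (by omega))) (pb c al 0 (t + (i + i2 + l2 - k - i3 + 1)) (t + (n + i + 2 * i2 + l2 - 2 * k - l - i3)) (by omega))))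

theorem l2_10110_48 {W : ℤ → G} {n Q i j k l i2 l2 i3 : ℤ} (al : AL W n Q)
    {L : ℤ} (mx : ∀ a b g, 0 < g → g < n → Par W a b g → b - a ≤ L) (hL : L ≤ (n - j - 3) ∧ L ≤ (n + Q - k - 3) ∧ L ≤ (n - l - 3) ∧ L ≤ (k - j - 2) ∧ L ≤ (n - l2 - 3) ∧ L ≤ (n + i3 - Q - 2) ∧ L ≤ (i2 + l2 - 1) ∧ L ≤ (n + i3 - i2 - l2 - 3))
    (hy : (0) ≤ (i) ∧ (i) ≤ (j) ∧ (j + 1) ≤ (Q) ∧ (Q) ≤ (k) ∧ (k + 1) ≤ (n) ∧ (i + l + 2) ≤ (Q) ∧ (n) ≤ (k + l + 1) ∧ (0) ≤ (i2) ∧ (i2) ≤ (i + l + 1) ∧ (n) ≤ (k + l + l2 + 2) ∧ (k + l + l2 + 3) ≤ (n + Q) ∧ (Q) ≤ (i2 + l2 + 1) ∧ (i2 + l2 + 2) ≤ (n) ∧ (0) ≤ (i3) ∧ (n + i3) ≤ (k + l + l2 + 2) ∧ (j + 3) ≤ (n) ∧ (k + 3) ≤ (n + Q) ∧ (l + 3) ≤ (n) ∧ (j + 2) ≤ (k) ∧ (l2 + 3) ≤ (n) ∧ (Q + 2) ≤ (n + i3) ∧ (1) ≤ (i2 + l2) ∧ (i2 + l2 + 3) ≤ (n + i3))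
    (a1 : Par W (0) (j) (k - j))
    (a2 : Par W (Q + j - k) (j) (k - j))
    (s1 : Ant W (0) (i) (i + j))
    (s2 : Ant W (j + 1) (Q) (i + j))
    (b : Par W (i + 1) (i + l + 1) (k - i))
    (tt : Ant W (i + l + 2) (Q) (i + l + i2 + 1))
    (c : Par W (i2 + 1) (i2 + l2 + 1) (k + l - n - i2 + 1))
    (u1 : Ant W (0) (i3) (k + l + l2 + i3 - n + 2))
    (u2 : Ant W (k + l + l2 - n + 3) (Q) (k + l + l2 + i3 - n + 2))
    (d1 : Par W (i3 + 1) (Q) (i2 + l2 - i3 + 1))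
    (d2 : Par W (i2 + l2 + 2) (n) (i3 - i2 - l2 - 1))
    (n1 : Nd W (j) (i) (k))
    (n2 : Nd W (i + l + 1) (i2) (k + l - n + 1))
    (n3 : Nd W (k + l + l2 - n + 2) (i3) (i2 + l2 + 1))
    (b0 : (j + l + l2 + i3 + 3) ≤ (n))
    (b1 : (2 * Q + i2 + l2) ≤ (n + i + j + i3))
    (b2 : (n + i + j) ≤ (k + l + i2 + 2))
    (b3 : (n + j + i3) ≤ (k + i2 + l2 + 1))
    (b4 : (n + 2 * i) ≤ (j + k + 1))
    (b5 : (2 * i + k) ≤ (j + i2 + l2 + i3 + 2))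
    (b6 : (2 * Q + k) ≤ (n + i + 2 * i2))
    (b7 : (k + i3) ≤ (j + i2 + l2))
    (b8 : (n + j + i3) ≤ (i + k + l + l2 + 1))
    (b9 : (1) ≤ (i3))
    (b10 : (k + i2 + l2 + 1) ≤ (n + j + i3))
    (b11 : (n + i + j) ≤ (k + l + l2 + i3 + 1)) : False := by
  have ev := al.ev
  obtain ⟨y0, y1, y2, y3, y4, y5, y6, y7, y8, y9, y10, y11, y12, y13, y14, y15, y16, y17, y18, y19, y20, y21, y22⟩ := id hy
  have n1p := And.intro n1.p1 n1.p2
  have n2p := And.intro n2.p1 n2.p2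
  have n3p := And.intro n3.p1 n3.p2
  by_cases z101 : (n + i + 2 * i2 + l2 + 1) ≤ (2 * k + l + i3)
  · exact l2_10110_49 al mx hL hy a1 a2 s1 s2 b tt c u1 u2 d1 d2 n1 n2 n3 (by clear * - b0; omega) (by clear * - b1; omega) (by clear * - b2; omega) (by clear * - b3; omega) (by clear * - b4; omega) (by clear * - b5; omega) (by clear * - b6; omega) (by clear * - b7; omega) (by clear * - b8; omega) (by clear * - b9; omega) (by clear * - b10; omega) (by clear * - b11; omega) (by clear * - z101; omega)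
  · exact l2_10110_57 al mx hL hy a1 a2 s1 s2 b tt c u1 u2 d1 d2 n1 n2 n3 (by clear * - b0; omega) (by clear * - b1; omega) (by clear * - b2; omega) (by clear * - b3; omega) (by clear * - b4; omega) (by clear * - b8; omega) (by clear * - b9; omega) (by clear * - b10; omega) (by clear * - b11; omega) (by clear * - z101; omega)

theorem l2_10110_47 {W : ℤ → G} {n Q i j k l i2 l2 i3 : ℤ} (al : AL W n Q)
    {L : ℤ} (mx : ∀ a b g, 0 < g → g < n → Par W a b g → b - a ≤ L) (hL : L ≤ (n - j - 3) ∧ L ≤ (n + Q - k - 3) ∧ L ≤ (n - l - 3) ∧ L ≤ (k - j - 2) ∧ L ≤ (n - l2 - 3) ∧ L ≤ (n + i3 - Q - 2) ∧ L ≤ (i2 + l2 - 1) ∧ L ≤ (n + i3 - i2 - l2 - 3))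
    (hy : (0) ≤ (i) ∧ (i) ≤ (j) ∧ (j + 1) ≤ (Q) ∧ (Q) ≤ (k) ∧ (k + 1) ≤ (n) ∧ (i + l + 2) ≤ (Q) ∧ (n) ≤ (k + l + 1) ∧ (0) ≤ (i2) ∧ (i2) ≤ (i + l + 1) ∧ (n) ≤ (k + l + l2 + 2) ∧ (k + l + l2 + 3) ≤ (n + Q) ∧ (Q) ≤ (i2 + l2 + 1) ∧ (i2 + l2 + 2) ≤ (n) ∧ (0) ≤ (i3) ∧ (n + i3) ≤ (k + l + l2 + 2) ∧ (j + 3) ≤ (n) ∧ (k + 3) ≤ (n + Q) ∧ (l + 3) ≤ (n) ∧ (j + 2) ≤ (k) ∧ (l2 + 3) ≤ (n) ∧ (Q + 2) ≤ (n + i3) ∧ (1) ≤ (i2 + l2) ∧ (i2 + l2 + 3) ≤ (n + i3))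
    (a1 : Par W (0) (j) (k - j))
    (a2 : Par W (Q + j - k) (j) (k - j))
    (s1 : Ant W (0) (i) (i + j))
    (s2 : Ant W (j + 1) (Q) (i + j))
    (b : Par W (i + 1) (i + l + 1) (k - i))
    (tt : Ant W (i + l + 2) (Q) (i + l + i2 + 1))
    (c : Par W (i2 + 1) (i2 + l2 + 1) (k + l - n - i2 + 1))
    (u1 : Ant W (0) (i3) (k + l + l2 + i3 - n + 2))
    (u2 : Ant W (k + l + l2 - n + 3) (Q) (k + l + l2 + i3 - n + 2))
    (d1 : Par W (i3 + 1) (Q) (i2 + l2 - i3 + 1))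
    (d2 : Par W (i2 + l2 + 2) (n) (i3 - i2 - l2 - 1))
    (n1 : Nd W (j) (i) (k))
    (n2 : Nd W (i + l + 1) (i2) (k + l - n + 1))
    (n3 : Nd W (k + l + l2 - n + 2) (i3) (i2 + l2 + 1))
    (b0 : (2 * Q + i2 + l2) ≤ (n + i + j + i3))
    (b1 : (i + 2 * j + 2) ≤ (k))
    (b2 : (n + i + j) ≤ (k + l + i2 + 2))
    (b3 : (n + j + i3) ≤ (k + i2 + l2 + 1))
    (b4 : (n + 2 * i) ≤ (j + k + 1))
    (b5 : (2 * i + k) ≤ (j + i2 + l2 + i3 + 2))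
    (b6 : (2 * Q + k) ≤ (n + i + 2 * i2))
    (b7 : (k + i2 + l2 + 3) ≤ (n + Q + i3))
    (b8 : (n + j + i3) ≤ (i + k + l + l2 + 1))
    (b9 : (1) ≤ (i3))
    (b10 : (k + i2 + l2 + 1) ≤ (n + j + i3))
    (b11 : (k + l + l2 + i3 + 2) ≤ (n + i + j)) : False := by
  have ev := al.ev
  obtain ⟨y0, y1, y2, y3, y4, y5, y6, y7, y8, y9, y10, y11, y12, y13, y14, y15, y16, y17, y18, y19, y20, y21, y22⟩ := id hy
  have n1p := And.intro n1.p1 n1.p2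
  have n2p := And.intro n2.p1 n2.p2
  have n3p := And.intro n3.p1 n3.p2
  by_cases z93 : (n + i + j) ≤ (k + l + l2 + i3 + 2)
  · have k472 : (i3 + 1) ≤ (i) := by clear * - b11 b8; omega
    clear * - al a1 a2 s1 s2 b tt c u1 u2 d1 d2 n1 n2 n3 y13 k472 b11 z93
    exact n3.f2 (qa s1 al 0 (i3) (k + l + l2 - n + 2) (by omega))
  · by_cases z94 : (3 * k + l + 2) ≤ (2 * n + i + j + i2)
    · have k473 : (2 * k + l + i3 + 1) ≤ (n + i + 2 * i2 + l2) := by clear * - b3 z94; omega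
      have k474 : (i + 2 * i2 + l2 + 1) ≤ (2 * k + l + i3) := by clear * - b1 b10 b4 b8 b9 z93 z94; omega
      have k475 : (n + i + 2 * i2 + l2 + 1) ≤ (Q + 2 * k + l) := by clear * - b1 b10 b4 b7 b8 b9 z93; omega
      have k476 : (n + i + i2) ≤ (Q + k + l) := by clear * - b4 b7 b8; omega
      have k477 : (i2 + 1) ≤ (Q) := by clear * - b10 b8 y5; omega
      have k478 : (Q + i2 + l2) ≤ (k + l + i3) := by clear * - b0 b2 b3 b4 b7 b8; omega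
      have k479 : (n + Q + i + i2) ≤ (2 * k + l + i3 + 1) := by clear * - b0 b1 b10 b4 b8 b9; omega
      clear * - al a1 a2 s1 s2 b tt c u1 u2 d1 d2 n1 n2 n3 k473 k474 k475 k476 k477 k478 k479
      exact al.ubQ (n + i + 2 * i2 + l2 - 2 * k - l - i3) (by omega) (by omega) fun t h1 h2 => (cE (sh al (-1) t (t + (-n)) (by omega)) (cE (cE (qf d1 al (-1) (t + (-n)) (t + (i2 + l2 - i3 + 1)) (by omega)) (pb b al 0 (t + (i2 + l2 - i3 + 1)) (t + (i + i2 + l2 - k - i3 + 1)) (by omega))) (pb c al 0 (t + (i + i2 + l2 - k - i3 + 1)) (t + (n + i + 2 * i2 + l2 - 2 * k - l - i3)) (by omega))))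
    · by_cases z95 : (k + l + 2 * i3 + 2) ≤ (2 * Q + i2)
      · have k480 : (k + l + i2 + 2 * l2 + 5) ≤ (2 * n + 2 * i3) := by clear * - b1 b10 b9 z93; omega
        have k481 : (k + l + i2 + 2 * l2 + 5) ≤ (2 * n) := by clear * - b1 b10 z93; omega
        have k482 : (i2) ≤ (k + l) := by clear * - b1 b10 b5 b8 b9 z93 z94; omega
        obtain ⟨t, ht⟩ : ∃ t, 2 * t = (k + l + 2 * i3 - 2 * n - i2 + 1) := ⟨(k + l + 2 * i3 - 2 * n - i2 + 1) / 2, by clear * - ev n1p n2p n3p; omega⟩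
        clear * - al a1 a2 s1 s2 b tt c u1 u2 d1 d2 n1 n2 n3 k480 k481 z95 k482 ht
        exact al.ninv t (cE (cE (qa u2 al (-1) t ((k + l + l2 + i3 - 2 * n + 2) - t) (by omega)) (qf d2 al (-1) ((k + l + l2 + i3 - 2 * n + 2) - t) ((k + l + 2 * i3 - n - i2 + 1) - t) (by omega))) (sh al (-1) ((k + l + 2 * i3 - n - i2 + 1) - t) t (by omega)))
      · by_cases z96 : (2 * k + l + i3) ≤ (n + i + 2 * i2 + l2)
        · have k483 : (i3 + 1) ≤ (i2) := by clear * - b5 b6 b7 b8 z93 z94 z95 z96; omega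
          have k484 : (k + i3) ≤ (2 * i2 + l2) := by clear * - b2 b5 b8 z93 z96 ev n1p n2p n3p; omega
          have k485 : (2 * i2 + l2 + 2) ≤ (n + i3) := by clear * - b1 b10 b8 y5 z93 z95; omega
          have k486 : (2 * i2 + l2 + 1) ≤ (k + l + i3) := by clear * - b5 b7 b8 z93 z94 z95 z96; omega
          have k487 : (n + i + 2 * i2 + l2) ≤ (2 * k + l + i3) := by clear * - b10 z94; omega
          clear * - al a1 a2 s1 s2 b tt c u1 u2 d1 d2 n1 n2 n3 k483 k484 k485 k486 z96 k487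
          exact n2.f1 (cE (pb d2 al 0 (i2) (2 * i2 + l2 - i3 + 1) (by omega)) (pb b al 0 (2 * i2 + l2 - i3 + 1) (k + l - n + 1) (by omega)))
        · by_cases z97 : (2 * k + l + 2) ≤ (2 * n + i)
          · by_cases z98 : (k + i3) ≤ (i + 2 * i2 + l2 + 1)
            · have k488 : (2 * k + l + i3 + 1) ≤ (2 * n + i + 2 * i2 + l2) := by clear * - b5 b6 b7 b9 z93 z94 z96 z97 z98; omega
              have k489 : (2 * k + l + i3 + 2) ≤ (2 * n + i + i2) := by clear * - b3 b5 b6 b7 b8 z93 z96 z97 z98; omega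
              have k490 : (n + i3) ≤ (2 * i2 + 2 * l2 + 2) := by clear * - b3 b5 b8 b9 z93; omega
              clear * - al a1 a2 s1 s2 b tt c u1 u2 d1 d2 n1 n2 n3 z96 k488 k489 z97 y4 k490 z98
              exact al.ubP (2 * k + l + i3 - n - i - 2 * i2 - l2) (by omega) (by omega) fun t h1 h2 => (cE (sh al 2 t (t + (2 * n)) (by omega)) (cE (cE (cE (qf d2 al 1 (t + (2 * n)) (t + (n + i3 - i2 - l2 - 1)) (by omega)) (qf c al 0 (t + (n + i3 - i2 - l2 - 1)) (t + (k + l + i3 - 2 * i2 - l2)) (by omega))) (qf b al 0 (t + (k + l + i3 - 2 * i2 - l2)) (t + (2 * k + l + i3 - i - 2 * i2 - l2)) (by omega))) (sh al (-1) (t + (2 * k + l + i3 - i - 2 * i2 - l2)) (t + (2 * k + l + i3 - n - i - 2 * i2 - l2)) (by omega))))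
            · have k491 : (j + l2 + i3 + 2) ≤ (i + k + l) := by clear * - b3 b5 b6 b7 b8 z93 z95 z96; omega
              have k492 : (i + j + l + 2 * i2 + l2 + 4) ≤ (2 * Q + k + i3) := by clear * - b3 b5 b7 b8 b9 z93 z98; omega
              have k493 : (i + l + 2 * i2 + l2 + 4) ≤ (j + k + i3) := by clear * - b3 b5 b8 b9 z93 z98; omega
              have k494 : (i + k + l + 2 * i2 + l2 + 3) ≤ (2 * n + j + i3) := by clear * - b5 z93 z94 z96 z97; omega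
              have k495 : (i + k + l + i3 + 1) ≤ (j + 2 * i2 + l2) := by clear * - b3 b5 z93 ev n1p n2p n3p; omega
              have k496 : (k + i3) ≤ (i + j + l + 2 * i2 + l2 + 3) := by clear * - b3 b5 b6 b7 b8 b9 z93 z96 z98; omega
              obtain ⟨t, ht⟩ : ∃ t, 2 * t = (i + k + l + 2 * i2 + l2 - j - i3 + 2) := ⟨(i + k + l + 2 * i2 + l2 - j - i3 + 2) / 2, by clear * - ev n1p n2p n3p; omega⟩
              clear * - al a1 a2 s1 s2 b tt c u1 u2 d1 d2 n1 n2 n3 k491 k492 k493 k494 k495 k496 ht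
              exact al.ninv t (cE (cI (qf d2 al 0 t (t + (i3 - i2 - l2 - 1)) (by omega)) (ab tt al 0 (t + (i3 - i2 - l2 - 1)) ((i + l + 2 * i2 + l2 - i3 + 2) - t) (by omega))) (qf a1 al 0 ((i + l + 2 * i2 + l2 - i3 + 2) - t) t (by omega)))
          · by_cases z99 : (2 * k + l + i2 + 3) ≤ (2 * n + 2 * i + j)
            · by_cases z100 : (j + 2 * k + l + 2) ≤ (2 * n + 2 * i + i2)
              · have k497 : (2 * n + i2) ≤ (j + 2 * k + l + 1) := by clear * - z97 z99; omega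
                have k498 : (2 * n + 2 * i + j) ≤ (2 * k + l + i2 + 2 * l2 + 1) := by clear * - b3 b5 b8 z100 z93 z96; omega
                have k499 : (j + 1) ≤ (l + i2) := by clear * - b3 b5 b6 b7 b8 z93 z96; omega
                have k500 : (2 * k + l + i2 + 2) ≤ (2 * n + 2 * i + j) := by clear * - z99; omega
                have k501 : (i2) ≤ (j + l) := by clear * - b5 b8 z100 z93 z96; omega
                obtain ⟨t, ht⟩ : ∃ t, 2 * t = (j + 2 * k + l - 2 * n - i2 + 1) := ⟨(j + 2 * k + l - 2 * n - i2 + 1) / 2, by clear * - ev n1p n2p n3p; omega⟩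
                clear * - al a1 a2 s1 s2 b tt c u1 u2 d1 d2 n1 n2 n3 k497 k498 k499 z100 k500 k501 ht
                exact al.ninv t (cE (cE (cE (qa s1 al 0 t ((i + j) - t) (by omega)) (qf c al 0 ((i + j) - t) ((i + j + k + l - n - i2 + 1) - t) (by omega))) (qf b al 0 ((i + j + k + l - n - i2 + 1) - t) ((j + 2 * k + l - n - i2 + 1) - t) (by omega))) (sh al (-1) ((j + 2 * k + l - n - i2 + 1) - t) t (by omega)))
              · have k502 : (k + i3) ≤ (j + i2 + l2) := by clear * - b5 b8 z93; omega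
                have k503 : (j + i2 + l2 + 2) ≤ (n + k + i3) := by clear * - b3 b5 b7 b8 z100 z93 z95; omega
                have k504 : (j + i2 + l2 + 2) ≤ (n + i3) := by clear * - b1 b10 b8 b9 z93; omega
                have k505 : (j + i2 + l2 + 2) ≤ (n + i) := by clear * - b1 b10 b8 b9 z93; omega
                have k506 : (Q + j) ≤ (n + i) := by clear * - b1 b10 b5 b8 b9 z93 z95; omega
                have k507 : (n + i + i2 + l2 + 1) ≤ (2 * k + i3) := by clear * - b1 b9 z100 z93 z97 z99; omega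
                have k508 : (n + j + i2 + l2) ≤ (2 * k + l + i3) := by clear * - b3 b7 z93 z95 z97; omega
                clear * - al a1 a2 s1 s2 b tt c u1 u2 d1 d2 n1 n2 n3 k502 k503 k504 k505 k506 k507 k508
                exact al.ubP (j + i2 + l2 - k - i3 + 1) (by omega) (by omega) fun t h1 h2 => (cE (sh al 1 t (t + (n)) (by omega)) (cE (cE (cE (cE (pb b al 0 (t + (n)) (t + (n + i - k)) (by omega)) (pb d2 al 0 (t + (n + i - k)) (t + (n + i + i2 + l2 - k - i3 + 1)) (by omega))) (pb a2 al 0 (t + (n + i + i2 + l2 - k - i3 + 1)) (t + (n + i + j + i2 + l2 - 2 * k - i3 + 1)) (by omega))) (qf b al 0 (t + (n + i + j + i2 + l2 - 2 * k - i3 + 1)) (t + (n + j + i2 + l2 - k - i3 + 1)) (by omega))) (sh al (-1) (t + (n + j + i2 + l2 - k - i3 + 1)) (t + (j + i2 + l2 - k - i3 + 1)) (by omega))))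
            · have k509 : (k + i3) ≤ (j + i2 + l2) := by clear * - b5 b8 z93; omega
              have k510 : (j + i2 + l2 + 2) ≤ (n + k + i3) := by clear * - b3 b5 b7 b8 z93 z95 z96; omega
              have k511 : (j + i2 + l2 + 2) ≤ (n + i3) := by clear * - b1 b10 b8 b9 z93; omega
              have k512 : (j + i2 + l2 + 2) ≤ (n + i) := by clear * - b1 b10 b8 b9 z93; omega
              have k513 : (Q + j) ≤ (n + i) := by clear * - b1 b10 b5 b8 b9 z93 z95; omega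
              have k514 : (n + i + i2 + l2 + 1) ≤ (2 * k + i3) := by clear * - b9 y5 z93 z94 z95 z96 z99; omega
              have k515 : (n + j + i2 + l2) ≤ (2 * k + l + i3) := by clear * - b3 b7 z93 z95 z97; omega
              clear * - al a1 a2 s1 s2 b tt c u1 u2 d1 d2 n1 n2 n3 k509 k510 k511 k512 k513 k514 k515
              exact al.ubP (j + i2 + l2 - k - i3 + 1) (by omega) (by omega) fun t h1 h2 => (cE (sh al 2 t (t + (2 * n)) (by omega)) (cE (cE (cE (cE (pb b al 1 (t + (2 * n)) (t + (n + i - k)) (by omega)) (pb d2 al 0 (t + (n + i - k)) (t + (n + i + i2 + l2 - k - i3 + 1)) (by omega))) (pb a2 al 0 (t + (n + i + i2 + l2 - k - i3 + 1)) (t + (n + i + j + i2 + l2 - 2 * k - i3 + 1)) (by omega))) (qf b al 0 (t + (n + i + j + i2 + l2 - 2 * k - i3 + 1)) (t + (n + j + i2 + l2 - k - i3 + 1)) (by omega))) (sh al (-1) (t + (n + j + i2 + l2 - k - i3 + 1)) (t + (j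 + i2 + l2 - k - i3 + 1)) (by omega))))

theorem l2_10110_46 {W : ℤ → G} {n Q i j k l i2 l2 i3 : ℤ} (al : AL W n Q)
    {L : ℤ} (mx : ∀ a b g, 0 < g → g < n → Par W a b g → b - a ≤ L) (hL : L ≤ (n - j - 3) ∧ L ≤ (n + Q - k - 3) ∧ L ≤ (n - l - 3) ∧ L ≤ (k - j - 2) ∧ L ≤ (n - l2 - 3) ∧ L ≤ (n + i3 - Q - 2) ∧ L ≤ (i2 + l2 - 1) ∧ L ≤ (n + i3 - i2 - l2 - 3))
    (hy : (0) ≤ (i) ∧ (i) ≤ (j) ∧ (j + 1) ≤ (Q) ∧ (Q) ≤ (k) ∧ (k + 1) ≤ (n) ∧ (i + l + 2) ≤ (Q) ∧ (n) ≤ (k + l + 1) ∧ (0) ≤ (i2) ∧ (i2) ≤ (i + l + 1) ∧ (n) ≤ (k + l + l2 + 2) ∧ (k + l + l2 + 3) ≤ (n + Q) ∧ (Q) ≤ (i2 + l2 + 1) ∧ (i2 + l2 + 2) ≤ (n) ∧ (0) ≤ (i3) ∧ (n + i3) ≤ (k + l + l2 + 2) ∧ (j + 3) ≤ (n) ∧ (k + 3) ≤ (n + Q) ∧ (l + 3) ≤ (n) ∧ (j + 2) ≤ (k) ∧ (l2 + 3) ≤ (n) ∧ (Q + 2) ≤ (n + i3) ∧ (1) ≤ (i2 + l2) ∧ (i2 + l2 + 3) ≤ (n + i3))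
    (a1 : Par W (0) (j) (k - j))
    (a2 : Par W (Q + j - k) (j) (k - j))
    (s1 : Ant W (0) (i) (i + j))
    (s2 : Ant W (j + 1) (Q) (i + j))
    (b : Par W (i + 1) (i + l + 1) (k - i))
    (tt : Ant W (i + l + 2) (Q) (i + l + i2 + 1))
    (c : Par W (i2 + 1) (i2 + l2 + 1) (k + l - n - i2 + 1))
    (u1 : Ant W (0) (i3) (k + l + l2 + i3 - n + 2))
    (u2 : Ant W (k + l + l2 - n + 3) (Q) (k + l + l2 + i3 - n + 2))
    (d1 : Par W (i3 + 1) (Q) (i2 + l2 - i3 + 1))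
    (d2 : Par W (i2 + l2 + 2) (n) (i3 - i2 - l2 - 1))
    (n1 : Nd W (j) (i) (k))
    (n2 : Nd W (i + l + 1) (i2) (k + l - n + 1))
    (n3 : Nd W (k + l + l2 - n + 2) (i3) (i2 + l2 + 1))
    (b0 : (j + l + l2 + i3 + 3) ≤ (n))
    (b1 : (2 * Q + i2 + l2) ≤ (n + i + j + i3))
    (b2 : (i + 2 * j + 2) ≤ (k))
    (b3 : (n + i + j) ≤ (k + l + i2 + 2))
    (b4 : (n + j + i3) ≤ (k + i2 + l2 + 1))
    (b5 : (n + 2 * i) ≤ (j + k + 1))
    (b6 : (2 * i + k) ≤ (j + i2 + l2 + i3 + 2))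
    (b7 : (2 * Q + k) ≤ (n + i + 2 * i2))
    (b8 : (k + i2 + l2 + 3) ≤ (n + Q + i3))
    (b9 : (k + i3) ≤ (j + i2 + l2))
    (b10 : (n + j + i3) ≤ (i + k + l + l2 + 1))
    (b11 : (1) ≤ (i3))
    (b12 : (k + i2 + l2 + 1) ≤ (n + j + i3)) : False := by
  have ev := al.ev
  obtain ⟨y0, y1, y2, y3, y4, y5, y6, y7, y8, y9, y10, y11, y12, y13, y14, y15, y16, y17, y18, y19, y20, y21, y22⟩ := id hy
  have n1p := And.intro n1.p1 n1.p2
  have n2p := And.intro n2.p1 n2.p2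
  have n3p := And.intro n3.p1 n3.p2
  by_cases z92 : (k + l + l2 + i3 + 2) ≤ (n + i + j)
  · exact l2_10110_47 al mx hL hy a1 a2 s1 s2 b tt c u1 u2 d1 d2 n1 n2 n3 (by clear * - b1; omega) (by clear * - b2; omega) (by clear * - b3; omega) (by clear * - b4; omega) (by clear * - b5; omega) (by clear * - b6; omega) (by clear * - b7; omega) (by clear * - b8; omega) (by clear * - b10; omega) (by clear * - b11; omega) (by clear * - b12; omega) (by clear * - z92; omega)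
  · exact l2_10110_48 al mx hL hy a1 a2 s1 s2 b tt c u1 u2 d1 d2 n1 n2 n3 (by clear * - b0; omega) (by clear * - b1; omega) (by clear * - b3; omega) (by clear * - b4; omega) (by clear * - b5; omega) (by clear * - b6; omega) (by clear * - b7; omega) (by clear * - b9; omega) (by clear * - b10; omega) (by clear * - b11; omega) (by clear * - b12; omega) (by clear * - z92; omega)

end Pool.Agent.MP_a38735_al.WL
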