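import Pool.Agent.MP_a38735_al.Q2b3

set_option autoImplicit false
set_option linter.unusedVariables false

namespace Pool.Agent.MP_a38735_al.WL

variable {G : Type*} [Group G]

theorem l2_10110_45 {W : ℤ → G} {n Q i j k l i2 l2 i3 : ℤ} (al : AL W n Q)
    {L : ℤ} (mx : ∀ a b g, 0 < g → g < n → Par W a b g → b - a ≤ L) (hL : L ≤ (n - j - 3) ∧ L ≤ (n + Q - k - 3) ∧ L ≤ (n - l - 3) ∧ L ≤ (k - j - 2) ∧ L ≤ (n - l2 - 3) ∧ L ≤ (n + i3 - Q - 2) ∧ L ≤ (i2 + l2 - 1) ∧ L ≤ (n + i3 - i2 - l2 - 3))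
    (hy : (0) ≤ (i) ∧ (i) ≤ (j) ∧ (j + 1) ≤ (Q) ∧ (Q) ≤ (k) ∧ (k + 1) ≤ (n) ∧ (i + l + 2) ≤ (Q) ∧ (n) ≤ (k + l + 1) ∧ (0) ≤ (i2) ∧ (i2) ≤ (i + l + 1) ∧ (n) ≤ (k + l + l2 + 2) ∧ (k + l + l2 + 3) ≤ (n + Q) ∧ (Q) ≤ (i2 + l2 + 1) ∧ (i2 + l2 + 2) ≤ (n) ∧ (0) ≤ (i3) ∧ (n + i3) ≤ (k + l + l2 + 2) ∧ (j + 3) ≤ (n) ∧ (k + 3) ≤ (n + Q) ∧ (l + 3) ≤ (n) ∧ (j + 2) ≤ (k) ∧ (l2 + 3) ≤ (n) ∧ (Q + 2) ≤ (n + i3) ∧ (1) ≤ (i2 + l2) ∧ (i2 + l2 + 3) ≤ (n + i3))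
    (a1 : Par W (0) (j) (k - j))
    (a2 : Par W (Q + j - k) (j) (k - j))
    (s1 : Ant W (0) (i) (i + j))
    (s2 : Ant W (j + 1) (Q) (i + j))
    (b : Par W (i + 1) (i + l + 1) (k - i))
    (tt : Ant W (i + l + 2) (Q) (i + l + i2 + 1))
    (c : Par W (i2 + 1) (i2 + l2 + 1) (k + l - n - i2 + 1))
    (u1 : Ant W (0) (i3) (k + l + l2 + i3 - n + 2))
    (u2 : Ant W (k + l + l2 - n + 3) (Q) (k + l + l2 + i3 - n + 2))
    (d1 : Par W (i3 + 1) (Q) (i2 + l2 - i3 + 1))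
    (d2 : Par W (i2 + l2 + 2) (n) (i3 - i2 - l2 - 1))
    (n1 : Nd W (j) (i) (k))
    (n2 : Nd W (i + l + 1) (i2) (k + l - n + 1))
    (n3 : Nd W (k + l + l2 - n + 2) (i3) (i2 + l2 + 1))
    (b0 : (j + l + l2 + i3 + 3) ≤ (n))
    (b1 : (2 * Q + i2 + l2) ≤ (n + i + j + i3))
    (b2 : (i + 2 * j + 2) ≤ (k))
    (b3 : (n + i + j) ≤ (k + l + i2 + 2))
    (b4 : (n + j + i3) ≤ (k + i2 + l2 + 1))
    (b5 : (n + j) ≤ (k + 2 * l + 1))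
    (b6 : (n + 2 * i) ≤ (j + k + 1))
    (b7 : (2 * i + k) ≤ (j + i2 + l2 + i3 + 2))
    (b8 : (2 * Q + k) ≤ (n + i + 2 * i2))
    (b9 : (k + i2 + l2 + 3) ≤ (n + Q + i3))
    (b10 : (k + i3) ≤ (j + i2 + l2))
    (b11 : (n + j + i3) ≤ (i + k + l + l2 + 1))
    (b12 : (1) ≤ (i3)) : False := by
  have ev := al.ev
  obtain ⟨y0, y1, y2, y3, y4, y5, y6, y7, y8, y9, y10, y11, y12, y13, y14, y15, y16, y17, y18, y19, y20, y21, y22⟩ := id hy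
  have n1p := And.intro n1.p1 n1.p2
  have n2p := And.intro n2.p1 n2.p2
  have n3p := And.intro n3.p1 n3.p2
  by_cases z91 : (n + j + i3) ≤ (k + i2 + l2)
  · have k469 : (k + i2 + l2 + 2) ≤ (2 * n + j + i3) := by clear * - b1 b10 b6 b9 z91; omega
    have k470 : (k + i2 + l2 + 2) ≤ (n + Q + j) := by clear * - b1 b10 b11 b6 b9 y10 z91; omega
    have k471 : (Q + i2 + l2 + 1) ≤ (n + j + i3) := by clear * - b1 b10 b6 b9 z91; omega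
    clear * - al a1 a2 s1 s2 b tt c u1 u2 d1 d2 n1 n2 n3 z91 k469 k470 k471
    exact al.ubQ (k + i2 + l2 - n - j - i3 + 1) (by omega) (by omega) fun t h1 h2 => (cE (sh al (-1) t (t + (-n)) (by omega)) (cE (qf d1 al (-1) (t + (-n)) (t + (i2 + l2 - i3 + 1)) (by omega)) (qf a2 al 1 (t + (i2 + l2 - i3 + 1)) (t + (k + i2 + l2 - n - j - i3 + 1)) (by omega))))
  · exact l2_10110_46 al mx hL hy a1 a2 s1 s2 b tt c u1 u2 d1 d2 n1 n2 n3 (by clear * - b0; omega) (by clear * - b1; omega) (by clear * - b2; omega) (by clear * - b3; omega) (by clear * - b4; omega) (by clear * - b6; omega) (by clear * - b7; omega) (by clear * - b8; omega) (by clear * - b9; omega) (by clear * - b10; omega) (by clear * - b11; omega) (by clear * - b12; omega) (by clear * - z91; omega)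

theorem l2_10110_44 {W : ℤ → G} {n Q i j k l i2 l2 i3 : ℤ} (al : AL W n Q)
    {L : ℤ} (mx : ∀ a b g, 0 < g → g < n → Par W a b g → b - a ≤ L) (hL : L ≤ (n - j - 3) ∧ L ≤ (n + Q - k - 3) ∧ L ≤ (n - l - 3) ∧ L ≤ (k - j - 2) ∧ L ≤ (n - l2 - 3) ∧ L ≤ (n + i3 - Q - 2) ∧ L ≤ (i2 + l2 - 1) ∧ L ≤ (n + i3 - i2 - l2 - 3))
    (hy : (0) ≤ (i) ∧ (i) ≤ (j) ∧ (j + 1) ≤ (Q) ∧ (Q) ≤ (k) ∧ (k + 1) ≤ (n) ∧ (i + l + 2) ≤ (Q) ∧ (n) ≤ (k + l + 1) ∧ (0) ≤ (i2) ∧ (i2) ≤ (i + l + 1) ∧ (n) ≤ (k + l + l2 + 2) ∧ (k + l + l2 + 3) ≤ (n + Q) ∧ (Q) ≤ (i2 + l2 + 1) ∧ (i2 + l2 + 2) ≤ (n) ∧ (0) ≤ (i3) ∧ (n + i3) ≤ (k + l + l2 + 2) ∧ (j + 3) ≤ (n) ∧ (k + 3) ≤ (n + Q) ∧ (l + 3) ≤ (n) ∧ (j + 2) ≤ (k) ∧ (l2 + 3) ≤ (n) ∧ (Q + 2) ≤ (n + i3) ∧ (1) ≤ (i2 + l2) ∧ (i2 + l2 + 3) ≤ (n + i3))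
    (a1 : Par W (0) (j) (k - j))
    (a2 : Par W (Q + j - k) (j) (k - j))
    (s1 : Ant W (0) (i) (i + j))
    (s2 : Ant W (j + 1) (Q) (i + j))
    (b : Par W (i + 1) (i + l + 1) (k - i))
    (tt : Ant W (i + l + 2) (Q) (i + l + i2 + 1))
    (c : Par W (i2 + 1) (i2 + l2 + 1) (k + l - n - i2 + 1))
    (u1 : Ant W (0) (i3) (k + l + l2 + i3 - n + 2))
    (u2 : Ant W (k + l + l2 - n + 3) (Q) (k + l + l2 + i3 - n + 2))
    (d1 : Par W (i3 + 1) (Q) (i2 + l2 - i3 + 1))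
    (d2 : Par W (i2 + l2 + 2) (n) (i3 - i2 - l2 - 1))
    (n1 : Nd W (j) (i) (k))
    (n2 : Nd W (i + l + 1) (i2) (k + l - n + 1))
    (n3 : Nd W (k + l + l2 - n + 2) (i3) (i2 + l2 + 1))
    (b0 : (j + l + l2 + i3 + 3) ≤ (n))
    (b1 : (2 * Q + i2 + l2) ≤ (n + i + j + i3))
    (b2 : (i + 2 * j + 2) ≤ (k))
    (b3 : (n + i + j) ≤ (k + l + i2 + 2))
    (b4 : (n + j + i3) ≤ (k + i2 + l2 + 1))
    (b5 : (n + j) ≤ (k + 2 * l + 1))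
    (b6 : (n + 2 * i) ≤ (j + k + 1))
    (b7 : (2 * i + k) ≤ (j + i2 + l2 + i3 + 2))
    (b8 : (2 * Q + k) ≤ (n + i + 2 * i2))
    (b9 : (k + i2 + l2 + 3) ≤ (n + Q + i3))
    (b10 : (k + i3) ≤ (j + i2 + l2))
    (b11 : (n + j + i3) ≤ (i + k + l + l2 + 1)) : False := by
  have ev := al.ev
  obtain ⟨y0, y1, y2, y3, y4, y5, y6, y7, y8, y9, y10, y11, y12, y13, y14, y15, y16, y17, y18, y19, y20, y21, y22⟩ := id hy
  have n1p := And.intro n1.p1 n1.p2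
  have n2p := And.intro n2.p1 n2.p2
  have n3p := And.intro n3.p1 n3.p2
  by_cases z90 : (i3) ≤ (0)
  · have k466 : (i3) ≤ (i2 + l2) := by clear * - b1 b10 b4 b6 b9; omega
    have k467 : (i2 + l2 + 2) ≤ (n + i3) := by clear * - b1 b10 b4 b6 b9; omega
    have k468 : L ≤ (n + i3 - i2 - l2 - 3) := by clear * - hL; omega
    clear * - al a1 a2 s1 s2 b tt c u1 u2 d1 d2 n1 n2 n3 mx k466 k467 z90 k468
    exact absurd (mx (n + i3 + 1) (2 * n + i3 - i2 - l2 - 1) (i2 + l2 - i3 + 1) (by omega) (by omega) fun t h1 h2 => (cE (pb d2 al 1 t (t + (i2 + l2 - n - i3 + 1)) (by omega)) (sh al 1 (t + (i2 + l2 - n - i3 + 1)) (t + (i2 + l2 - i3 + 1)) (by omega)))) (by omega)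
  · exact l2_10110_45 al mx hL hy a1 a2 s1 s2 b tt c u1 u2 d1 d2 n1 n2 n3 (by clear * - b0; omega) (by clear * - b1; omega) (by clear * - b2; omega) (by clear * - b3; omega) (by clear * - b4; omega) (by clear * - b5; omega) (by clear * - b6; omega) (by clear * - b7; omega) (by clear * - b8; omega) (by clear * - b9; omega) (by clear * - b10; omega) (by clear * - b11; omega) (by clear * - z90; omega)

theorem l2_10110_43 {W : ℤ → G} {n Q i j k l i2 l2 i3 : ℤ} (al : AL W n Q)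
    {L : ℤ} (mx : ∀ a b g, 0 < g → g < n → Par W a b g → b - a ≤ L) (hL : L ≤ (n - j - 3) ∧ L ≤ (n + Q - k - 3) ∧ L ≤ (n - l - 3) ∧ L ≤ (k - j - 2) ∧ L ≤ (n - l2 - 3) ∧ L ≤ (n + i3 - Q - 2) ∧ L ≤ (i2 + l2 - 1) ∧ L ≤ (n + i3 - i2 - l2 - 3))
    (hy : (0) ≤ (i) ∧ (i) ≤ (j) ∧ (j + 1) ≤ (Q) ∧ (Q) ≤ (k) ∧ (k + 1) ≤ (n) ∧ (i + l + 2) ≤ (Q) ∧ (n) ≤ (k + l + 1) ∧ (0) ≤ (i2) ∧ (i2) ≤ (i + l + 1) ∧ (n) ≤ (k + l + l2 + 2) ∧ (k + l + l2 + 3) ≤ (n + Q) ∧ (Q) ≤ (i2 + l2 + 1) ∧ (i2 + l2 + 2) ≤ (n) ∧ (0) ≤ (i3) ∧ (n + i3) ≤ (k + l + l2 + 2) ∧ (j + 3) ≤ (n) ∧ (k + 3) ≤ (n + Q) ∧ (l + 3) ≤ (n) ∧ (j + 2) ≤ (k) ∧ (l2 + 3) ≤ (n) ∧ (Q + 2) ≤ (n + i3) ∧ (1) ≤ (i2 + l2) ∧ (i2 + l2 + 3) ≤ (n + i3))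
    (a1 : Par W (0) (j) (k - j))
    (a2 : Par W (Q + j - k) (j) (k - j))
    (s1 : Ant W (0) (i) (i + j))
    (s2 : Ant W (j + 1) (Q) (i + j))
    (b : Par W (i + 1) (i + l + 1) (k - i))
    (tt : Ant W (i + l + 2) (Q) (i + l + i2 + 1))
    (c : Par W (i2 + 1) (i2 + l2 + 1) (k + l - n - i2 + 1))
    (u1 : Ant W (0) (i3) (k + l + l2 + i3 - n + 2))
    (u2 : Ant W (k + l + l2 - n + 3) (Q) (k + l + l2 + i3 - n + 2))
    (d1 : Par W (i3 + 1) (Q) (i2 + l2 - i3 + 1))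
    (d2 : Par W (i2 + l2 + 2) (n) (i3 - i2 - l2 - 1))
    (n1 : Nd W (j) (i) (k))
    (n2 : Nd W (i + l + 1) (i2) (k + l - n + 1))
    (n3 : Nd W (k + l + l2 - n + 2) (i3) (i2 + l2 + 1))
    (b0 : (j + l + l2 + i3 + 3) ≤ (n))
    (b1 : (2 * Q + i2 + l2) ≤ (n + i + j + i3))
    (b2 : (i + 2 * j + 2) ≤ (k))
    (b3 : (n + i + j) ≤ (k + l + i2 + 2))
    (b4 : (n + j + i3) ≤ (k + i2 + l2 + 1))
    (b5 : (n + j) ≤ (k + 2 * l + 1))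
    (b6 : (n + 2 * i) ≤ (j + k + 1))
    (b7 : (2 * i + k) ≤ (j + i2 + l2 + i3 + 2))
    (b8 : (2 * Q + k) ≤ (n + i + 2 * i2))
    (b9 : (k + i2 + l2 + 3) ≤ (n + Q + i3))
    (b10 : (k + i3) ≤ (j + i2 + l2)) : False := by
  have ev := al.ev
  obtain ⟨y0, y1, y2, y3, y4, y5, y6, y7, y8, y9, y10, y11, y12, y13, y14, y15, y16, y17, y18, y19, y20, y21, y22⟩ := id hy
  have n1p := And.intro n1.p1 n1.p2
  have n2p := And.intro n2.p1 n2.p2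
  have n3p := And.intro n3.p1 n3.p2
  by_cases z89 : (i + k + l + l2 + 2) ≤ (n + j + i3)
  · have k461 : (j + i2 + 1) ≤ (i + k) := by clear * - b1 b4 b9 y5 y8; omega
    have k462 : (n + j + i2 + i3) ≤ (i + 2 * k + l) := by clear * - b1 b4 b6 b9 y10 y8; omega
    have k463 : (i + k) ≤ (j + i2 + l2) := by clear * - b10 b7 ev n1p n2p n3p; omega
    have k464 : (i + 2 * k + l + l2 + 3) ≤ (2 * n + j + i3) := by clear * - b1 b10 b2 b4 b9 z89; omega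
    have k465 : (n + j + i3) ≤ (i + k + l + l2 + 2) := by clear * - b4 y8; omega
    clear * - al a1 a2 s1 s2 b tt c u1 u2 d1 d2 n1 n2 n3 y0 k461 k462 k463 k464 k465 z89
    exact n1.f1 (cE (cE (qf a1 al 0 (i) (i + k - j) (by omega)) (qf c al 0 (i + k - j) (i + 2 * k + l - n - j - i2 + 1) (by omega))) (pb d2 al 0 (i + 2 * k + l - n - j - i2 + 1) (k) (by omega)))
  · exact l2_10110_44 al mx hL hy a1 a2 s1 s2 b tt c u1 u2 d1 d2 n1 n2 n3 (by clear * - b0; omega) (by clear * - b1; omega) (by clear * - b2; omega) (by clear * - b3; omega) (by clear * - b4; omega) (by clear * - b5; omega) (by clear * - b6; omega) (by clear * - b7; omega) (by clear * - b8; omega) (by clear * - b9; omega) (by clear * - b10; omega) (by clear * - z89; omega)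

theorem l2_10110_42 {W : ℤ → G} {n Q i j k l i2 l2 i3 : ℤ} (al : AL W n Q)
    {L : ℤ} (mx : ∀ a b g, 0 < g → g < n → Par W a b g → b - a ≤ L) (hL : L ≤ (n - j - 3) ∧ L ≤ (n + Q - k - 3) ∧ L ≤ (n - l - 3) ∧ L ≤ (k - j - 2) ∧ L ≤ (n - l2 - 3) ∧ L ≤ (n + i3 - Q - 2) ∧ L ≤ (i2 + l2 - 1) ∧ L ≤ (n + i3 - i2 - l2 - 3))
    (hy : (0) ≤ (i) ∧ (i) ≤ (j) ∧ (j + 1) ≤ (Q) ∧ (Q) ≤ (k) ∧ (k + 1) ≤ (n) ∧ (i + l + 2) ≤ (Q) ∧ (n) ≤ (k + l + 1) ∧ (0) ≤ (i2) ∧ (i2) ≤ (i + l + 1) ∧ (n) ≤ (k + l + l2 + 2) ∧ (k + l + l2 + 3) ≤ (n + Q) ∧ (Q) ≤ (i2 + l2 + 1) ∧ (i2 + l2 + 2) ≤ (n) ∧ (0) ≤ (i3) ∧ (n + i3) ≤ (k + l + l2 + 2) ∧ (j + 3) ≤ (n) ∧ (k + 3) ≤ (n + Q) ∧ (l + 3) ≤ (n) ∧ (j + 2) ≤ (k) ∧ (l2 + 3) ≤ (n) ∧ (Q + 2) ≤ (n + i3) ∧ (1) ≤ (i2 + l2) ∧ (i2 + l2 + 3) ≤ (n + i3))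
    (a1 : Par W (0) (j) (k - j))
    (a2 : Par W (Q + j - k) (j) (k - j))
    (s1 : Ant W (0) (i) (i + j))
    (s2 : Ant W (j + 1) (Q) (i + j))
    (b : Par W (i + 1) (i + l + 1) (k - i))
    (tt : Ant W (i + l + 2) (Q) (i + l + i2 + 1))
    (c : Par W (i2 + 1) (i2 + l2 + 1) (k + l - n - i2 + 1))
    (u1 : Ant W (0) (i3) (k + l + l2 + i3 - n + 2))
    (u2 : Ant W (k + l + l2 - n + 3) (Q) (k + l + l2 + i3 - n + 2))
    (d1 : Par W (i3 + 1) (Q) (i2 + l2 - i3 + 1))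
    (d2 : Par W (i2 + l2 + 2) (n) (i3 - i2 - l2 - 1))
    (n1 : Nd W (j) (i) (k))
    (n2 : Nd W (i + l + 1) (i2) (k + l - n + 1))
    (n3 : Nd W (k + l + l2 - n + 2) (i3) (i2 + l2 + 1))
    (b0 : (j + l + l2 + i3 + 3) ≤ (n))
    (b1 : (2 * Q + i2 + l2) ≤ (n + i + j + i3))
    (b2 : (i + 2 * j + 2) ≤ (k))
    (b3 : (n) ≤ (2 * i2 + 2 * l2 + 1))
    (b4 : (n + i + j) ≤ (k + l + i2 + 2))
    (b5 : (n + j + i3) ≤ (k + i2 + l2 + 1))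
    (b6 : (n + j) ≤ (k + 2 * l + 1))
    (b7 : (n + 2 * i) ≤ (j + k + 1))
    (b8 : (2 * i + k) ≤ (j + i2 + l2 + i3 + 2))
    (b9 : (2 * Q + k) ≤ (n + i + 2 * i2))
    (b10 : (k + i2 + l2 + 3) ≤ (n + Q + i3))
    (b11 : (k + i3) ≤ (j + i2 + l2 + 1)) : False := by
  have ev := al.ev
  obtain ⟨y0, y1, y2, y3, y4, y5, y6, y7, y8, y9, y10, y11, y12, y13, y14, y15, y16, y17, y18, y19, y20, y21, y22⟩ := id hy
  have n1p := And.intro n1.p1 n1.p2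
  have n2p := And.intro n2.p1 n2.p2
  have n3p := And.intro n3.p1 n3.p2
  by_cases z88 : (j + i2 + l2 + 1) ≤ (k + i3)
  · have k459 : (i3 + 1) ≤ (j) := by clear * - b1 b10 b11 b5 b7 y10 y8; omega
    have k460 : (j + i2 + l2 + 2) ≤ (n + i3) := by clear * - b1 b10 b2 b5; omega
    clear * - al a1 a2 s1 s2 b tt c u1 u2 d1 d2 n1 n2 n3 k459 k460 b11 z88
    exact n1.f0 (pb d2 al 0 (j) (k) (by omega))
  · exact l2_10110_43 al mx hL hy a1 a2 s1 s2 b tt c u1 u2 d1 d2 n1 n2 n3 (by clear * - b0; omega) (by clear * - b1; omega) (by clear * - b2; omega) (by clear * - b4; omega) (by clear * - b5; omega) (by clear * - b6; omega) (by clear * - b7; omega) (by clear * - b8; omega) (by clear * - b9; omega) (by clear * - b10; omega) (by clear * - z88; omega)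

theorem l2_10110_58 {W : ℤ → G} {n Q i j k l i2 l2 i3 : ℤ} (al : AL W n Q)
    {L : ℤ} (mx : ∀ a b g, 0 < g → g < n → Par W a b g → b - a ≤ L) (hL : L ≤ (n - j - 3) ∧ L ≤ (n + Q - k - 3) ∧ L ≤ (n - l - 3) ∧ L ≤ (k - j - 2) ∧ L ≤ (n - l2 - 3) ∧ L ≤ (n + i3 - Q - 2) ∧ L ≤ (i2 + l2 - 1) ∧ L ≤ (n + i3 - i2 - l2 - 3))
    (hy : (0) ≤ (i) ∧ (i) ≤ (j) ∧ (j + 1) ≤ (Q) ∧ (Q) ≤ (k) ∧ (k + 1) ≤ (n) ∧ (i + l + 2) ≤ (Q) ∧ (n) ≤ (k + l + 1) ∧ (0) ≤ (i2) ∧ (i2) ≤ (i + l + 1) ∧ (n) ≤ (k + l + l2 + 2) ∧ (k + l + l2 + 3) ≤ (n + Q) ∧ (Q) ≤ (i2 + l2 + 1) ∧ (i2 + l2 + 2) ≤ (n) ∧ (0) ≤ (i3) ∧ (n + i3) ≤ (k + l + l2 + 2) ∧ (j + 3) ≤ (n) ∧ (k + 3) ≤ (n + Q) ∧ (l + 3) ≤ (n) ∧ (j + 2) ≤ (k) ∧ (l2 + 3) ≤ (n) ∧ (Q + 2) ≤ (n + i3) ∧ (1) ≤ (i2 + l2) ∧ (i2 + l2 + 3) ≤ (n + i3))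
    (a1 : Par W (0) (j) (k - j))
    (a2 : Par W (Q + j - k) (j) (k - j))
    (s1 : Ant W (0) (i) (i + j))
    (s2 : Ant W (j + 1) (Q) (i + j))
    (b : Par W (i + 1) (i + l + 1) (k - i))
    (tt : Ant W (i + l + 2) (Q) (i + l + i2 + 1))
    (c : Par W (i2 + 1) (i2 + l2 + 1) (k + l - n - i2 + 1))
    (u1 : Ant W (0) (i3) (k + l + l2 + i3 - n + 2))
    (u2 : Ant W (k + l + l2 - n + 3) (Q) (k + l + l2 + i3 - n + 2))
    (d1 : Par W (i3 + 1) (Q) (i2 + l2 - i3 + 1))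
    (d2 : Par W (i2 + l2 + 2) (n) (i3 - i2 - l2 - 1))
    (n1 : Nd W (j) (i) (k))
    (n2 : Nd W (i + l + 1) (i2) (k + l - n + 1))
    (n3 : Nd W (k + l + l2 - n + 2) (i3) (i2 + l2 + 1))
    (b0 : (2 * k + 3) ≤ (n + 2 * Q))
    (b1 : (i + k + 2 * l + 1) ≤ (n + 2 * j))
    (b2 : (j + l + l2 + i3 + 3) ≤ (n))
    (b3 : (2 * Q + i2 + l2) ≤ (n + i + j + i3))
    (b4 : (n) ≤ (2 * i2 + 2 * l2 + 1))
    (b5 : (n + i + j) ≤ (k + l + i2 + 2))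
    (b6 : (n + j + i3) ≤ (k + i2 + l2 + 1))
    (b7 : (n + j) ≤ (k + 2 * l + 1))
    (b8 : (n + 2 * i) ≤ (j + k + 1))
    (b9 : (2 * i + k) ≤ (j + i2 + l2 + i3 + 2))
    (b10 : (2 * Q + k) ≤ (n + i + 2 * i2))
    (b11 : (j + i2 + l2 + 2) ≤ (k + i3)) : False := by
  have ev := al.ev
  obtain ⟨y0, y1, y2, y3, y4, y5, y6, y7, y8, y9, y10, y11, y12, y13, y14, y15, y16, y17, y18, y19, y20, y21, y22⟩ := id hy
  have n1p := And.intro n1.p1 n1.p2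
  have n2p := And.intro n2.p1 n2.p2
  have n3p := And.intro n3.p1 n3.p2
  by_cases z125 : (n + i) ≤ (l + i2 + 2 * l2 + 1)
  · have k681 : (n + 2 * j + i2 + 1) ≤ (i + 2 * k + l) := by clear * - b11 b6 y8 ev n1p n2p n3p; omega
    have k682 : (n + i + i2 + 1) ≤ (2 * k + l) := by clear * - b0 b11 b3 b6 b8 y14; omega
    have k683 : (i + 2 * k + l + 2) ≤ (n + 2 * Q + i2) := by clear * - y10 z125; omega
    have k684 : (2 * Q + l) ≤ (n + i + i2) := by clear * - b2 b3 b4; omega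
    have k685 : (l + i2 + 2) ≤ (n + i) := by clear * - b1 b11 b2 b4 y8; omega
    obtain ⟨t, ht⟩ : ∃ t, 2 * t = (i + 2 * k + l - n - i2 + 1) := ⟨(i + 2 * k + l - n - i2 + 1) / 2, by clear * - ev n1p n2p n3p; omega⟩
    clear * - al a1 a2 s1 s2 b tt c u1 u2 d1 d2 n1 n2 n3 k681 k682 z125 k683 k684 k685 ht
    exact al.ninv t (cE (cE (qa s2 al 0 t ((i + j) - t) (by omega)) (qf a2 al 0 ((i + j) - t) ((i + k) - t) (by omega))) (qf c al 0 ((i + k) - t) t (by omega)))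
  · by_cases z126 : (3 * n + i + 2 * i2) ≤ (3 * k + 2 * l + 2 * l2 + 2 * i3 + 4)
    · by_cases z127 : (n + i) ≤ (k + 2 * i3)
      · have k686 : (n + i) ≤ (k + 2 * l2) := by clear * - b1 b11 b6 b9 y8 ev n1p n2p n3p; omega
        have k687 : (n + i + 2 * i2) ≤ (k + 2 * l + 2 * l2 + 2 * i3 + 2) := by clear * - b0 b2 b3 b6 b9 y8 z126; omega
        have k688 : (k + 2) ≤ (n + i) := by clear * - b0 b3 b6; omega
        have k689 : (i + k + 2 * l + 4) ≤ (n + 2 * i2) := by clear * - b10 y5; omega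
        have k690 : (i + k + 2) ≤ (n + 2 * i3) := by clear * - b0 b11 b3 b6 b9; omega
        have k691 : (3 * k + 2 * l + 2 * l2 + 6) ≤ (3 * n + i + 2 * i2) := by clear * - b10 y10; omega
        have k692 : (n + i) ≤ (k + 2 * l + 2 * l2 + 2) := by clear * - b0 b11 b3 b6 b9 y14; omega
        have k693 : (3 * n + i + 2 * i2) ≤ (3 * k + 4 * l + 2 * l2 + 2 * i3 + 6) := by clear * - b0 b3 b6 b7 b8 z126; omega
        have k694 : (n + i + 2 * i2) ≤ (k + 4 * l + 2 * l2 + 2 * i3 + 4) := by clear * - b0 b10 b2 b3 b7 b9 y14 z126; omega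
        have k695 : (k + 2 * i3 + 2) ≤ (n + i + 2 * i2) := by clear * - b0 b10 b3 b6 b8 y14 z125; omega
        have k696 : (n) ≤ (i + k + 2 * l + 2) := by clear * - b2 b4 b7 b8 b9 y8 z125; omega
        have k697 : (3 * k + 2 * l2 + 2 * i3 + 4) ≤ (3 * n + 3 * i + 2 * i2) := by clear * - b0 b10 b3 b6 b8 y8 z125; omega
        have k698 : (2 * k + 2 * l + l2 + i3 - 2 * n - i2 + 3) % 2 = 0 := by clear * - ev n1p n2p n3p; omega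
        have k699 : (n + i - k) % 2 = 0 := by clear * - ev n1p n2p n3p; omega
        clear * - al a1 a2 s1 s2 b tt c u1 u2 d1 d2 n1 n2 n3 k686 z126 k687 k688 k689 z127 k690 k691 k692 k693 k694 k695 k696 k697 k698 k699
        exact midP al (n + i - k) (2 * k + 2 * l + l2 + i3 - 2 * n - i2 + 3) (max (k + l - n + 2) (max (k - n + 1) (max (2 * k + l + l2 + i3 - 2 * n - i - i2 + 3) (2 * k + 2 * l + l2 - 2 * n - i2 + 4)))) (k - n + 1) (i + l + 1) (by omega) (fun t h1 h2 => (cI (pb c al 0 t (t + (n + i2 - k - l - 1)) (by omega)) (ab u1 al 0 (t + (n + i2 - k - l - 1)) ((2 * k + 2 * l + l2 + i3 - 2 * n - i2 + 3) - t) (by omega)))) (fun t h1 h2 => (pb b al (-1) t (t + (n + i - k)) (by omega)))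
      · by_cases z128 : (i + k + l + i3 + 1) ≤ (2 * Q + j + l2)
        · have k700 : (i + j + l + l2 + 4) ≤ (k + i3) := by clear * - b11 b6 b9 z125 ev n1p n2p n3p; omega
          have k701 : (i + l + 2 * i2 + l2 + 4) ≤ (j + k + i3) := by clear * - b6 b9 z125 z126 z127 ev n1p n2p n3p; omega
          have k702 : (i + k + l + 2 * i2 + l2 + 4) ≤ (2 * n + j + i3) := by clear * - b11 b3 b9 z127 z128; omega
          have k703 : (2 * Q + j + i3) ≤ (i + k + l + 2 * i2 + l2 + 3) := by clear * - b10 b11 b6 b7 b9 z125 z126 z127 z128; omega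
          have k704 : (j + l2 + i3 + 1) ≤ (i + k + l) := by clear * - b10 b11 b6 b7 b9 z125 z126 z127 z128; omega
          obtain ⟨t, ht⟩ : ∃ t, 2 * t = (i + k + l + i3 - j - l2) := ⟨(i + k + l + i3 - j - l2) / 2, by clear * - ev n1p n2p n3p; omega⟩
          clear * - al a1 a2 s1 s2 b tt c u1 u2 d1 d2 n1 n2 n3 k700 k701 k702 z128 k703 k704 ht
          exact al.ninv t (cE (cE (qa tt al 0 t ((i + l + i2 + 1) - t) (by omega)) (qf a2 al 0 ((i + l + i2 + 1) - t) ((i + k + l + i2 - j + 1) - t) (by omega))) (qf d2 al 0 ((i + k + l + i2 - j + 1) - t) t (by omega)))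
        · have k705 : (2 * k + l + i3 + 1) ≤ (n + j + 2 * i2 + l2) := by clear * - b4 b9 z125 z127 ev n1p n2p n3p; omega
          have k706 : (j + 2 * i2 + l2 + 1) ≤ (2 * k + l + i3) := by clear * - b11 b4 b7 b8 b9 z125 z126 z127; omega
          have k707 : (n + j + 2 * i2 + l2 + 1) ≤ (Q + 2 * k + l) := by clear * - b0 b11 b6 b8 z125 z126 z127 z128; omega
          have k708 : (i2 + 1) ≤ (Q) := by clear * - b0 b6 b9 z125 z126 z127; omega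
          have k709 : (Q + i2 + l2 + 1) ≤ (k + i3) := by clear * - b6 b9 z125 z126 z127 z128 ev n1p n2p n3p; omega
          have k710 : (n + Q + j + i2) ≤ (2 * k + l + i3 + 1) := by clear * - b11 b6 b9 z125 z126 z127 z128; omega
          clear * - al a1 a2 s1 s2 b tt c u1 u2 d1 d2 n1 n2 n3 k705 k706 k707 k708 k709 k710
          exact al.ubQ (n + j + 2 * i2 + l2 - 2 * k - l - i3) (by omega) (by omega) fun t h1 h2 => (cE (cE (qf d1 al 0 t (t + (i2 + l2 - i3 + 1)) (by omega)) (pb a2 al 0 (t + (i2 + l2 - i3 + 1)) (t + (j + i2 + l2 - k - i3 + 1)) (by omega))) (pb c al 0 (t + (j + i2 + l2 - k - i3 + 1)) (t + (n + j + 2 * i2 + l2 - 2 * k - l - i3)) (by omega)))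
    · have k711 : (j + k + i3 + 1) ≤ (2 * Q + i2 + l2) := by clear * - b0 b6; omega
      have k712 : (3 * k + i3 + 1) ≤ (2 * n + 2 * i + j + i2 + l2) := by clear * - b1 b11 b2 b4 b9 y8 z126; omega
      have k713 : (2 * Q + j + k + i3) ≤ (2 * n + 4 * i + i2 + l2 + 1) := by clear * - b0 b3 b6; omega
      have k714 : (j + k + i2 + l2 + i3 + 3) ≤ (2 * n + 4 * i) := by clear * - b1 b11 b4 b6 y8 z126; omega
      have k715 : (j + i2 + l2 + 3) ≤ (k + i3) := by clear * - b11 ev n1p n2p n3p; omega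
      have k716 : (2 * n + 2 * i + j + i3) ≤ (2 * Q + k + 2 * l + i2 + l2 + 1) := by clear * - b0 b6 b7 b8; omega
      have k717 : (k + i3) ≤ (j + 2 * l + i2 + l2 + 1) := by clear * - b11 b2 b4 b8 b9 y8 z126; omega
      have k718 : (2 * Q + j + i3) ≤ (2 * i + k + 2 * l + i2 + l2 + 3) := by clear * - b0 b3 b6 b7 b8; omega
      have k719 : (j + i2 + l2 + i3 + 1) ≤ (2 * i + k + 2 * l) := by clear * - b0 b3 b6 b7 y14 z125; omega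
      have k720 : (2 * n + 2 * i + j + i2 + l2 + 1) ≤ (3 * k + 2 * l + i3) := by clear * - b11 b7 b8 ev n1p n2p n3p; omega
      have k721 : (2 * Q + k + i3) ≤ (2 * n + 2 * i + j + i2 + l2 + 1) := by clear * - b0 b3 b6 b8; omega
      have k722 : (4 * Q + j + i3) ≤ (2 * n + 4 * i + k + i2 + l2 + 3) := by clear * - b0 b11 b3 b6 b8; omega
      have k723 : (k + i2 + l2 + i3 + 3) ≤ (2 * n + 2 * i + j) := by clear * - b0 b3 b6 b8 y14 z125; omega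
      have k724 : (j + 3 * i2 + 3 * l2 + i3 + 5) ≤ (2 * n + 4 * i + k) := by clear * - b0 b11 b3 b6 y14 z125; omega
      have k725 : (2 * i + i2 + l2 + 3) ≤ (j + k + i3) := by clear * - b0 b11 b3 b6 b8; omega
      have k726 : (2 * n + 4 * i + j + 3 * i2 + 3 * l2 + 5) ≤ (5 * k + 3 * i3) := by clear * - b11 b8 ev n1p n2p n3p; omega
      have k727 : (2 * n + 4 * i + j + i3 + 1) ≤ (4 * Q + k + i2 + l2) := by clear * - b0 b11 b6 b8; omega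
      have k728 : (2 * i + k + i3 + 1) ≤ (2 * Q + j + i2 + l2) := by clear * - b0 b3 b6 b8; omega
      have k729 : (n + 2 * i + j - k) % 2 = 0 := by clear * - ev n1p n2p n3p; omega
      have k730 : (k + i3 - j - i2 - l2 - 1) % 2 = 0 := by clear * - ev n1p n2p n3p; omega
      clear * - al a1 a2 s1 s2 b tt c u1 u2 d1 d2 n1 n2 n3 k711 k712 k713 k714 k715 k716 k717 k718 k719 k720 k721 k722 k723 k724 k725 k726 k727 k728 k729 k730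
      exact midP al (k + i3 - j - i2 - l2 - 1) (n + 2 * i + j - k) (max (n + 2 * i + j - Q - k + 1) (max (n + 2 * i + j + i2 + l2 - 2 * k - i3 + 2) (max (n + i + j - k - l) (max (Q + j - k) (max (j + i2 + l2 - k + 2) (j + 1)))))) (max (Q + j - k) (j + i2 + l2 - k + 2)) (min (Q) (k + i3 - i2 - l2 - 1)) (by omega) (fun t h1 h2 => (cE (qa s2 al 0 t ((i + j) - t) (by omega)) (pb b al (-1) ((i + j) - t) ((n + 2 * i + j - k) - t) (by omega)))) (fun t h1 h2 => (cE (qf a2 al 0 t (t + (k - j)) (by omega)) (pb d1 al 0 (t + (k - j)) (t + (k + i3 - j - i2 - l2 - 1)) (by omega))))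

theorem l2_10110_41 {W : ℤ → G} {n Q i j k l i2 l2 i3 : ℤ} (al : AL W n Q)
    {L : ℤ} (mx : ∀ a b g, 0 < g → g < n → Par W a b g → b - a ≤ L) (hL : L ≤ (n - j - 3) ∧ L ≤ (n + Q - k - 3) ∧ L ≤ (n - l - 3) ∧ L ≤ (k - j - 2) ∧ L ≤ (n - l2 - 3) ∧ L ≤ (n + i3 - Q - 2) ∧ L ≤ (i2 + l2 - 1) ∧ L ≤ (n + i3 - i2 - l2 - 3))
    (hy : (0) ≤ (i) ∧ (i) ≤ (j) ∧ (j + 1) ≤ (Q) ∧ (Q) ≤ (k) ∧ (k + 1) ≤ (n) ∧ (i + l + 2) ≤ (Q) ∧ (n) ≤ (k + l + 1) ∧ (0) ≤ (i2) ∧ (i2) ≤ (i + l + 1) ∧ (n) ≤ (k + l + l2 + 2) ∧ (k + l + l2 + 3) ≤ (n + Q) ∧ (Q) ≤ (i2 + l2 + 1) ∧ (i2 + l2 + 2) ≤ (n) ∧ (0) ≤ (i3) ∧ (n + i3) ≤ (k + l + l2 + 2) ∧ (j + 3) ≤ (n) ∧ (k + 3) ≤ (n + Q) ∧ (l + 3) ≤ (n) ∧ (j + 2) ≤ (k) ∧ (l2 + 3) ≤ (n) ∧ (Q + 2) ≤ (n + i3) ∧ (1) ≤ (i2 + l2) ∧ (i2 + l2 + 3) ≤ (n + i3))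
    (a1 : Par W (0) (j) (k - j))
    (a2 : Par W (Q + j - k) (j) (k - j))
    (s1 : Ant W (0) (i) (i + j))
    (s2 : Ant W (j + 1) (Q) (i + j))
    (b : Par W (i + 1) (i + l + 1) (k - i))
    (tt : Ant W (i + l + 2) (Q) (i + l + i2 + 1))
    (c : Par W (i2 + 1) (i2 + l2 + 1) (k + l - n - i2 + 1))
    (u1 : Ant W (0) (i3) (k + l + l2 + i3 - n + 2))
    (u2 : Ant W (k + l + l2 - n + 3) (Q) (k + l + l2 + i3 - n + 2))
    (d1 : Par W (i3 + 1) (Q) (i2 + l2 - i3 + 1))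
    (d2 : Par W (i2 + l2 + 2) (n) (i3 - i2 - l2 - 1))
    (n1 : Nd W (j) (i) (k))
    (n2 : Nd W (i + l + 1) (i2) (k + l - n + 1))
    (n3 : Nd W (k + l + l2 - n + 2) (i3) (i2 + l2 + 1))
    (b0 : (2 * k + 3) ≤ (n + 2 * Q))
    (b1 : (i + k + 2 * l + 1) ≤ (n + 2 * j))
    (b2 : (j + l + l2 + i3 + 3) ≤ (n))
    (b3 : (2 * Q + i2 + l2) ≤ (n + i + j + i3))
    (b4 : (i + 2 * j + 2) ≤ (k))
    (b5 : (n) ≤ (2 * i2 + 2 * l2 + 1))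
    (b6 : (n + i + j) ≤ (k + l + i2 + 2))
    (b7 : (n + j + i3) ≤ (k + i2 + l2 + 1))
    (b8 : (n + j) ≤ (k + 2 * l + 1))
    (b9 : (n + 2 * i) ≤ (j + k + 1))
    (b10 : (2 * i + k) ≤ (j + i2 + l2 + i3 + 2))
    (b11 : (2 * Q + k) ≤ (n + i + 2 * i2))
    (b12 : (k + i2 + l2 + 3) ≤ (n + Q + i3)) : False := by
  have ev := al.ev
  obtain ⟨y0, y1, y2, y3, y4, y5, y6, y7, y8, y9, y10, y11, y12, y13, y14, y15, y16, y17, y18, y19, y20, y21, y22⟩ := id hy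
  have n1p := And.intro n1.p1 n1.p2
  have n2p := And.intro n2.p1 n2.p2
  have n3p := And.intro n3.p1 n3.p2
  by_cases z87 : (k + i3) ≤ (j + i2 + l2 + 1)
  · exact l2_10110_42 al mx hL hy a1 a2 s1 s2 b tt c u1 u2 d1 d2 n1 n2 n3 (by clear * - b2; omega) (by clear * - b3; omega) (by clear * - b4; omega) (by clear * - b5; omega) (by clear * - b6; omega) (by clear * - b7; omega) (by clear * - b8; omega) (by clear * - b9; omega) (by clear * - b10; omega) (by clear * - b11; omega) (by clear * - b12; omega) (by clear * - z87; omega)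
  · exact l2_10110_58 al mx hL hy a1 a2 s1 s2 b tt c u1 u2 d1 d2 n1 n2 n3 (by clear * - b0; omega) (by clear * - b1; omega) (by clear * - b2; omega) (by clear * - b3; omega) (by clear * - b5; omega) (by clear * - b6; omega) (by clear * - b7; omega) (by clear * - b8; omega) (by clear * - b9; omega) (by clear * - b10; omega) (by clear * - b11; omega) (by clear * - z87; omega)

theorem l2_10110_40 {W : ℤ → G} {n Q i j k l i2 l2 i3 : ℤ} (al : AL W n Q)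
    {L : ℤ} (mx : ∀ a b g, 0 < g → g < n → Par W a b g → b - a ≤ L) (hL : L ≤ (n - j - 3) ∧ L ≤ (n + Q - k - 3) ∧ L ≤ (n - l - 3) ∧ L ≤ (k - j - 2) ∧ L ≤ (n - l2 - 3) ∧ L ≤ (n + i3 - Q - 2) ∧ L ≤ (i2 + l2 - 1) ∧ L ≤ (n + i3 - i2 - l2 - 3))
    (hy : (0) ≤ (i) ∧ (i) ≤ (j) ∧ (j + 1) ≤ (Q) ∧ (Q) ≤ (k) ∧ (k + 1) ≤ (n) ∧ (i + l + 2) ≤ (Q) ∧ (n) ≤ (k + l + 1) ∧ (0) ≤ (i2) ∧ (i2) ≤ (i + l + 1) ∧ (n) ≤ (k + l + l2 + 2) ∧ (k + l + l2 + 3) ≤ (n + Q) ∧ (Q) ≤ (i2 + l2 + 1) ∧ (i2 + l2 + 2) ≤ (n) ∧ (0) ≤ (i3) ∧ (n + i3) ≤ (k + l + l2 + 2) ∧ (j + 3) ≤ (n) ∧ (k + 3) ≤ (n + Q) ∧ (l + 3) ≤ (n) ∧ (j + 2) ≤ (k) ∧ (l2 + 3) ≤ (n) ∧ (Q + 2) ≤ (n + i3) ∧ (1) ≤ (i2 + l2) ∧ (i2 + l2 + 3) ≤ (n + i3))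
    (a1 : Par W (0) (j) (k - j))
    (a2 : Par W (Q + j - k) (j) (k - j))
    (s1 : Ant W (0) (i) (i + j))
    (s2 : Ant W (j + 1) (Q) (i + j))
    (b : Par W (i + 1) (i + l + 1) (k - i))
    (tt : Ant W (i + l + 2) (Q) (i + l + i2 + 1))
    (c : Par W (i2 + 1) (i2 + l2 + 1) (k + l - n - i2 + 1))
    (u1 : Ant W (0) (i3) (k + l + l2 + i3 - n + 2))
    (u2 : Ant W (k + l + l2 - n + 3) (Q) (k + l + l2 + i3 - n + 2))
    (d1 : Par W (i3 + 1) (Q) (i2 + l2 - i3 + 1))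
    (d2 : Par W (i2 + l2 + 2) (n) (i3 - i2 - l2 - 1))
    (n1 : Nd W (j) (i) (k))
    (n2 : Nd W (i + l + 1) (i2) (k + l - n + 1))
    (n3 : Nd W (k + l + l2 - n + 2) (i3) (i2 + l2 + 1))
    (b0 : (2 * k + 3) ≤ (n + 2 * Q))
    (b1 : (i + k + 2 * l + 1) ≤ (n + 2 * j))
    (b2 : (j + l + l2 + i3 + 3) ≤ (n))
    (b3 : (2 * Q + i2 + l2) ≤ (n + i + j + i3))
    (b4 : (i + 2 * j + 2) ≤ (k))
    (b5 : (n) ≤ (2 * i2 + 2 * l2 + 1))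
    (b6 : (n + i + j) ≤ (k + l + i2 + 2))
    (b7 : (n + j + i3) ≤ (k + i2 + l2 + 1))
    (b8 : (n + j) ≤ (k + 2 * l + 1))
    (b9 : (n + 2 * i) ≤ (j + k + 1))
    (b10 : (2 * i + k) ≤ (j + i2 + l2 + i3 + 2))
    (b11 : (2 * Q + k) ≤ (n + i + 2 * i2)) : False := by
  have ev := al.ev
  obtain ⟨y0, y1, y2, y3, y4, y5, y6, y7, y8, y9, y10, y11, y12, y13, y14, y15, y16, y17, y18, y19, y20, y21, y22⟩ := id hy
  have n1p := And.intro n1.p1 n1.p2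
  have n2p := And.intro n2.p1 n2.p2
  have n3p := And.intro n3.p1 n3.p2
  by_cases z86 : (n + Q + i3) ≤ (k + i2 + l2 + 2)
  · have k456 : (j + 1) ≤ (k) := by clear * - b7 y22; omega
    have k457 : (k + 1) ≤ (n + j) := by clear * - b0 b3 b7 b9; omega
    have k458 : L ≤ (n + i3 - i2 - l2 - 3) := by clear * - hL; omega
    clear * - al a1 a2 s1 s2 b tt c u1 u2 d1 d2 n1 n2 n3 mx k456 k457 z86 k458
    exact absurd (mx (Q + j - n - k) (j - n) (k - j) (by omega) (by omega) fun t h1 h2 => (cE (qf a2 al (-1) t (t + (n + k - j)) (by omega)) (sh al (-1) (t + (n + k - j)) (t + (k - j)) (by omega)))) (by omega)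
  · exact l2_10110_41 al mx hL hy a1 a2 s1 s2 b tt c u1 u2 d1 d2 n1 n2 n3 (by clear * - b0; omega) (by clear * - b1; omega) (by clear * - b2; omega) (by clear * - b3; omega) (by clear * - b4; omega) (by clear * - b5; omega) (by clear * - b6; omega) (by clear * - b7; omega) (by clear * - b8; omega) (by clear * - b9; omega) (by clear * - b10; omega) (by clear * - b11; omega) (by clear * - z86; omega)

theorem l2_10110_39 {W : ℤ → G} {n Q i j k l i2 l2 i3 : ℤ} (al : AL W n Q)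
    {L : ℤ} (mx : ∀ a b g, 0 < g → g < n → Par W a b g → b - a ≤ L) (hL : L ≤ (n - j - 3) ∧ L ≤ (n + Q - k - 3) ∧ L ≤ (n - l - 3) ∧ L ≤ (k - j - 2) ∧ L ≤ (n - l2 - 3) ∧ L ≤ (n + i3 - Q - 2) ∧ L ≤ (i2 + l2 - 1) ∧ L ≤ (n + i3 - i2 - l2 - 3))
    (hy : (0) ≤ (i) ∧ (i) ≤ (j) ∧ (j + 1) ≤ (Q) ∧ (Q) ≤ (k) ∧ (k + 1) ≤ (n) ∧ (i + l + 2) ≤ (Q) ∧ (n) ≤ (k + l + 1) ∧ (0) ≤ (i2) ∧ (i2) ≤ (i + l + 1) ∧ (n) ≤ (k + l + l2 + 2) ∧ (k + l + l2 + 3) ≤ (n + Q) ∧ (Q) ≤ (i2 + l2 + 1) ∧ (i2 + l2 + 2) ≤ (n) ∧ (0) ≤ (i3) ∧ (n + i3) ≤ (k + l + l2 + 2) ∧ (j + 3) ≤ (n) ∧ (k + 3) ≤ (n + Q) ∧ (l + 3) ≤ (n) ∧ (j + 2) ≤ (k) ∧ (l2 + 3) ≤ (n) ∧ (Q + 2) ≤ (n + i3) ∧ (1) ≤ (i2 + l2) ∧ (i2 + l2 + 3) ≤ (n + i3))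
    (a1 : Par W (0) (j) (k - j))
    (a2 : Par W (Q + j - k) (j) (k - j))
    (s1 : Ant W (0) (i) (i + j))
    (s2 : Ant W (j + 1) (Q) (i + j))
    (b : Par W (i + 1) (i + l + 1) (k - i))
    (tt : Ant W (i + l + 2) (Q) (i + l + i2 + 1))
    (c : Par W (i2 + 1) (i2 + l2 + 1) (k + l - n - i2 + 1))
    (u1 : Ant W (0) (i3) (k + l + l2 + i3 - n + 2))
    (u2 : Ant W (k + l + l2 - n + 3) (Q) (k + l + l2 + i3 - n + 2))
    (d1 : Par W (i3 + 1) (Q) (i2 + l2 - i3 + 1))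
    (d2 : Par W (i2 + l2 + 2) (n) (i3 - i2 - l2 - 1))
    (n1 : Nd W (j) (i) (k))
    (n2 : Nd W (i + l + 1) (i2) (k + l - n + 1))
    (n3 : Nd W (k + l + l2 - n + 2) (i3) (i2 + l2 + 1))
    (b0 : (2 * k + 3) ≤ (n + 2 * Q))
    (b1 : (i + k + 2 * l + 1) ≤ (n + 2 * j))
    (b2 : (j + l + l2 + i3 + 3) ≤ (n))
    (b3 : (2 * Q + i2 + l2) ≤ (n + i + j + i3))
    (b4 : (i + 2 * j + 2) ≤ (k))
    (b5 : (n) ≤ (2 * i2 + 2 * l2 + 1))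
    (b6 : (n + i + j) ≤ (k + l + i2 + 2))
    (b7 : (n + j + i3) ≤ (k + i2 + l2 + 1))
    (b8 : (n + j) ≤ (k + 2 * l + 1))
    (b9 : (n + 2 * i) ≤ (j + k + 1))
    (b10 : (2 * i + k) ≤ (j + i2 + l2 + i3 + 2)) : False := by
  have ev := al.ev
  obtain ⟨y0, y1, y2, y3, y4, y5, y6, y7, y8, y9, y10, y11, y12, y13, y14, y15, y16, y17, y18, y19, y20, y21, y22⟩ := id hy
  have n1p := And.intro n1.p1 n1.p2
  have n2p := And.intro n2.p1 n2.p2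
  have n3p := And.intro n3.p1 n3.p2
  by_cases z85 : (n + i + 2 * i2 + 1) ≤ (2 * Q + k)
  · have k453 : (k + 2) ≤ (n + i) := by clear * - b0 b3 b7; omega
    have k454 : (i + k + 2 * l + 4) ≤ (n + 2 * i2) := by clear * - b10 b3 b7 y10 ev n1p n2p n3p; omega
    have k455 : (n + i) ≤ (k + 2 * l2 + 1) := by clear * - b0 b10 b3 b7 z85; omega
    obtain ⟨t, ht⟩ : ∃ t, 2 * t = (n + i + k + 2 * l + 2) := ⟨(n + i + k + 2 * l + 2) / 2, by clear * - ev n1p n2p n3p; omega⟩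
    clear * - al a1 a2 s1 s2 b tt c u1 u2 d1 d2 n1 n2 n3 k453 k454 k455 z85 ht
    exact al.ninv t (cE (cI (pb c al 1 t (t + (i2 - k - l - 1)) (by omega)) (qa tt al 0 (t + (i2 - k - l - 1)) ((i + k + 2 * l + 2) - t) (by omega))) (sh al 1 ((i + k + 2 * l + 2) - t) t (by omega)))
  · exact l2_10110_40 al mx hL hy a1 a2 s1 s2 b tt c u1 u2 d1 d2 n1 n2 n3 (by clear * - b0; omega) (by clear * - b1; omega) (by clear * - b2; omega) (by clear * - b3; omega) (by clear * - b4; omega) (by clear * - b5; omega) (by clear * - b6; omega) (by clear * - b7; omega) (by clear * - b8; omega) (by clear * - b9; omega) (by clear * - b10; omega) (by clear * - z85; omega)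

end Pool.Agent.MP_a38735_al.WL
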