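import Pool.Agent.MP_a38735_al.Q2b1
import Pool.Agent.MP_a38735_al.Q2b4

set_option autoImplicit false
set_option linter.unusedVariables false

namespace Pool.Agent.MP_a38735_al.WL

variable {G : Type*} [Group G]

theorem l2_10110_38 {W : ℤ → G} {n Q i j k l i2 l2 i3 : ℤ} (al : AL W n Q)
    {L : ℤ} (mx : ∀ a b g, 0 < g → g < n → Par W a b g → b - a ≤ L) (hL : L ≤ (n - j - 3) ∧ L ≤ (n + Q - k - 3) ∧ L ≤ (n - l - 3) ∧ L ≤ (k - j - 2) ∧ L ≤ (n - l2 - 3) ∧ L ≤ (n + i3 - Q - 2) ∧ L ≤ (i2 + l2 - 1) ∧ L ≤ (n + i3 - i2 - l2 - 3))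
    (hy : (0) ≤ (i) ∧ (i) ≤ (j) ∧ (j + 1) ≤ (Q) ∧ (Q) ≤ (k) ∧ (k + 1) ≤ (n) ∧ (i + l + 2) ≤ (Q) ∧ (n) ≤ (k + l + 1) ∧ (0) ≤ (i2) ∧ (i2) ≤ (i + l + 1) ∧ (n) ≤ (k + l + l2 + 2) ∧ (k + l + l2 + 3) ≤ (n + Q) ∧ (Q) ≤ (i2 + l2 + 1) ∧ (i2 + l2 + 2) ≤ (n) ∧ (0) ≤ (i3) ∧ (n + i3) ≤ (k + l + l2 + 2) ∧ (j + 3) ≤ (n) ∧ (k + 3) ≤ (n + Q) ∧ (l + 3) ≤ (n) ∧ (j + 2) ≤ (k) ∧ (l2 + 3) ≤ (n) ∧ (Q + 2) ≤ (n + i3) ∧ (1) ≤ (i2 + l2) ∧ (i2 + l2 + 3) ≤ (n + i3))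
    (a1 : Par W (0) (j) (k - j))
    (a2 : Par W (Q + j - k) (j) (k - j))
    (s1 : Ant W (0) (i) (i + j))
    (s2 : Ant W (j + 1) (Q) (i + j))
    (b : Par W (i + 1) (i + l + 1) (k - i))
    (tt : Ant W (i + l + 2) (Q) (i + l + i2 + 1))
    (c : Par W (i2 + 1) (i2 + l2 + 1) (k + l - n - i2 + 1))
    (u1 : Ant W (0) (i3) (k + l + l2 + i3 - n + 2))
    (u2 : Ant W (k + l + l2 - n + 3) (Q) (k + l + l2 + i3 - n + 2))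
    (d1 : Par W (i3 + 1) (Q) (i2 + l2 - i3 + 1))
    (d2 : Par W (i2 + l2 + 2) (n) (i3 - i2 - l2 - 1))
    (n1 : Nd W (j) (i) (k))
    (n2 : Nd W (i + l + 1) (i2) (k + l - n + 1))
    (n3 : Nd W (k + l + l2 - n + 2) (i3) (i2 + l2 + 1))
    (b0 : (i + 2 * j + 2) ≤ (k))
    (b1 : (n + i + j) ≤ (k + l + i2 + 2))
    (b2 : (n + j + i3) ≤ (k + i2 + l2 + 1))
    (b3 : (n + j) ≤ (k + 2 * l + 1))
    (b4 : (n + 2 * i) ≤ (j + k + 1))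
    (b5 : (j + i2 + l2 + i3 + 3) ≤ (2 * i + k))
    (b6 : (k + i2 + l2 + 1) ≤ (n + j + i3))
    (b7 : (n + j) ≤ (k + i2 + l2))
    (b8 : (2 * Q + i2) ≤ (k + l + 2 * i3 + 1))
    (b9 : (k + l + l2 + i3 + 3) ≤ (n + i + j))
    (b10 : (2 * k + i3) ≤ (n + 2 * i + i2 + l2)) : False := by
  have ev := al.ev
  obtain ⟨y0, y1, y2, y3, y4, y5, y6, y7, y8, y9, y10, y11, y12, y13, y14, y15, y16, y17, y18, y19, y20, y21, y22⟩ := id hy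
  have n1p := And.intro n1.p1 n1.p2
  have n2p := And.intro n2.p1 n2.p2
  have n3p := And.intro n3.p1 n3.p2
  by_cases z83 : (2 * k + l + i3 + 1) ≤ (n + i + 2 * i2 + l2)
  · have k436 : (i + 2 * i2 + l2 + 1) ≤ (2 * k + l + i3) := by clear * - b0 b4 b5 b6 b7 y14 z83; omega
    have k437 : (n + i + 2 * i2 + l2 + 1) ≤ (Q + 2 * k + l) := by clear * - b2 b4 b8 y10 y8; omega
    have k438 : (n + i + i2) ≤ (Q + k + l) := by clear * - b3 b4 y5 y8; omega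
    have k439 : (i2 + 1) ≤ (Q) := by clear * - y5 y8; omega
    have k440 : (Q + i2 + l2 + 1) ≤ (n + i3) := by clear * - b0 b6 b8 b9; omega
    have k441 : (Q + i2 + l2) ≤ (k + l + i3) := by clear * - b0 b10 b3 b4 b5 b6 b7 b8 z83; omega
    have k442 : (n + Q + i + i2) ≤ (2 * k + l + i3 + 1) := by clear * - b0 b4 b6 b7 b8 b9 y8; omega
    clear * - al a1 a2 s1 s2 b tt c u1 u2 d1 d2 n1 n2 n3 z83 k436 k437 k438 k439 k440 k441 k442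
    exact al.ubQ (n + i + 2 * i2 + l2 - 2 * k - l - i3) (by omega) (by omega) fun t h1 h2 => (cE (sh al 1 t (t + (n)) (by omega)) (cE (cE (pb d2 al 1 (t + (n)) (t + (i2 + l2 - i3 + 1)) (by omega)) (pb b al 0 (t + (i2 + l2 - i3 + 1)) (t + (i + i2 + l2 - k - i3 + 1)) (by omega))) (pb c al 0 (t + (i + i2 + l2 - k - i3 + 1)) (t + (n + i + 2 * i2 + l2 - 2 * k - l - i3)) (by omega))))
  · by_cases z84 : (3 * k + l + 1) ≤ (2 * n + i + j + i2)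
    · have k443 : (i3 + 1) ≤ (i2) := by clear * - b0 b10 b3 b4 b7 b9 z83 z84; omega
      have k444 : (k + i3) ≤ (2 * i2 + l2) := by clear * - b2 b3 b4 z84 ev n1p n2p n3p; omega
      have k445 : (2 * i2 + l2 + 2) ≤ (n + i3) := by clear * - b0 b10 b8 b9 y5 z83 z84; omega
      have k446 : (2 * i2 + l2 + 1) ≤ (k + l + i3) := by clear * - b0 b10 b4 b7 b9 z83 z84; omega
      have k447 : (2 * k + l + i3) ≤ (n + i + 2 * i2 + l2) := by clear * - b2 z84; omega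
      clear * - al a1 a2 s1 s2 b tt c u1 u2 d1 d2 n1 n2 n3 k443 k444 k445 k446 k447 z83
      exact n2.f1 (cE (pb d2 al 0 (i2) (2 * i2 + l2 - i3 + 1) (by omega)) (pb b al 0 (2 * i2 + l2 - i3 + 1) (k + l - n + 1) (by omega)))
    · have k448 : (3 * k + l + 2) ≤ (3 * n + i + j + i2) := by clear * - b0 b10 b4 b6 b7 b9 z84; omega
      have k449 : (3 * k + l + 2) ≤ (2 * n + Q + i + j) := by clear * - b10 b6 y5; omega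
      have k450 : (2 * k + 1) ≤ (n + Q + j) := by clear * - b10 b3 b4 b6 y5; omega
      have k451 : (Q + k) ≤ (n + i + i2) := by clear * - b0 b1 b10 b4 b6 b7 b8 b9; omega
      have k452 : (Q + 2 * k + l + 1) ≤ (2 * n + i + j + i2) := by clear * - b0 b10 b4 b6 b7 b8 b9 z84; omega
      clear * - al a1 a2 s1 s2 b tt c u1 u2 d1 d2 n1 n2 n3 z84 k448 k449 k450 y11 k451 k452
      exact al.ubQ (3 * k + l - 2 * n - i - j - i2 + 1) (by omega) (by omega) fun t h1 h2 => (cE (sh al (-1) t (t + (-n)) (by omega)) (cE (cE (qf c al (-1) (t + (-n)) (t + (k + l - n - i2 + 1)) (by omega)) (qf b al 0 (t + (k + l - n - i2 + 1)) (t + (2 * k + l - n - i - i2 + 1)) (by omega))) (qf a2 al 1 (t + (2 * k + l - n - i - i2 + 1)) (t + (3 * k + l - 2 * n - i - j - i2 + 1)) (by omega))))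

theorem l2_10110_33 {W : ℤ → G} {n Q i j k l i2 l2 i3 : ℤ} (al : AL W n Q)
    {L : ℤ} (mx : ∀ a b g, 0 < g → g < n → Par W a b g → b - a ≤ L) (hL : L ≤ (n - j - 3) ∧ L ≤ (n + Q - k - 3) ∧ L ≤ (n - l - 3) ∧ L ≤ (k - j - 2) ∧ L ≤ (n - l2 - 3) ∧ L ≤ (n + i3 - Q - 2) ∧ L ≤ (i2 + l2 - 1) ∧ L ≤ (n + i3 - i2 - l2 - 3))
    (hy : (0) ≤ (i) ∧ (i) ≤ (j) ∧ (j + 1) ≤ (Q) ∧ (Q) ≤ (k) ∧ (k + 1) ≤ (n) ∧ (i + l + 2) ≤ (Q) ∧ (n) ≤ (k + l + 1) ∧ (0) ≤ (i2) ∧ (i2) ≤ (i + l + 1) ∧ (n) ≤ (k + l + l2 + 2) ∧ (k + l + l2 + 3) ≤ (n + Q) ∧ (Q) ≤ (i2 + l2 + 1) ∧ (i2 + l2 + 2) ≤ (n) ∧ (0) ≤ (i3) ∧ (n + i3) ≤ (k + l + l2 + 2) ∧ (j + 3) ≤ (n) ∧ (k + 3) ≤ (n + Q) ∧ (l + 3) ≤ (n) ∧ (j + 2) ≤ (k) ∧ (l2 + 3) ≤ (n) ∧ (Q + 2) ≤ (n + i3) ∧ (1) ≤ (i2 + l2) ∧ (i2 + l2 + 3) ≤ (n + i3))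
    (a1 : Par W (0) (j) (k - j))
    (a2 : Par W (Q + j - k) (j) (k - j))
    (s1 : Ant W (0) (i) (i + j))
    (s2 : Ant W (j + 1) (Q) (i + j))
    (b : Par W (i + 1) (i + l + 1) (k - i))
    (tt : Ant W (i + l + 2) (Q) (i + l + i2 + 1))
    (c : Par W (i2 + 1) (i2 + l2 + 1) (k + l - n - i2 + 1))
    (u1 : Ant W (0) (i3) (k + l + l2 + i3 - n + 2))
    (u2 : Ant W (k + l + l2 - n + 3) (Q) (k + l + l2 + i3 - n + 2))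
    (d1 : Par W (i3 + 1) (Q) (i2 + l2 - i3 + 1))
    (d2 : Par W (i2 + l2 + 2) (n) (i3 - i2 - l2 - 1))
    (n1 : Nd W (j) (i) (k))
    (n2 : Nd W (i + l + 1) (i2) (k + l - n + 1))
    (n3 : Nd W (k + l + l2 - n + 2) (i3) (i2 + l2 + 1))
    (b0 : (i + 2 * j + 2) ≤ (k))
    (b1 : (n + i + j) ≤ (k + l + i2 + 2))
    (b2 : (n + j + i3) ≤ (k + i2 + l2 + 1))
    (b3 : (n + j) ≤ (k + 2 * l + 1))
    (b4 : (n + 2 * i) ≤ (j + k + 1))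
    (b5 : (j + i2 + l2 + i3 + 3) ≤ (2 * i + k))
    (b6 : (k + i2 + l2 + 1) ≤ (n + j + i3))
    (b7 : (k + i3) ≤ (j + i2 + l2))
    (b8 : (n + j) ≤ (k + i2 + l2))
    (b9 : (2 * Q + i2) ≤ (k + l + 2 * i3 + 1))
    (b10 : (k + l + l2 + i3 + 3) ≤ (n + i + j)) : False := by
  have ev := al.ev
  obtain ⟨y0, y1, y2, y3, y4, y5, y6, y7, y8, y9, y10, y11, y12, y13, y14, y15, y16, y17, y18, y19, y20, y21, y22⟩ := id hy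
  have n1p := And.intro n1.p1 n1.p2
  have n2p := And.intro n2.p1 n2.p2
  have n3p := And.intro n3.p1 n3.p2
  by_cases z66 : (n + 2 * i + i2 + l2 + 1) ≤ (2 * k + i3)
  · exact l2_10110_34 al mx hL hy a1 a2 s1 s2 b tt c u1 u2 d1 d2 n1 n2 n3 (by clear * - b0; omega) (by clear * - b1; omega) (by clear * - b2; omega) (by clear * - b3; omega) (by clear * - b5; omega) (by clear * - b6; omega) (by clear * - b7; omega) (by clear * - b8; omega) (by clear * - b9; omega) (by clear * - b10; omega) (by clear * - z66; omega)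
  · exact l2_10110_38 al mx hL hy a1 a2 s1 s2 b tt c u1 u2 d1 d2 n1 n2 n3 (by clear * - b0; omega) (by clear * - b1; omega) (by clear * - b2; omega) (by clear * - b3; omega) (by clear * - b4; omega) (by clear * - b5; omega) (by clear * - b6; omega) (by clear * - b8; omega) (by clear * - b9; omega) (by clear * - b10; omega) (by clear * - z66; omega)

theorem l2_10110_32 {W : ℤ → G} {n Q i j k l i2 l2 i3 : ℤ} (al : AL W n Q)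
    {L : ℤ} (mx : ∀ a b g, 0 < g → g < n → Par W a b g → b - a ≤ L) (hL : L ≤ (n - j - 3) ∧ L ≤ (n + Q - k - 3) ∧ L ≤ (n - l - 3) ∧ L ≤ (k - j - 2) ∧ L ≤ (n - l2 - 3) ∧ L ≤ (n + i3 - Q - 2) ∧ L ≤ (i2 + l2 - 1) ∧ L ≤ (n + i3 - i2 - l2 - 3))
    (hy : (0) ≤ (i) ∧ (i) ≤ (j) ∧ (j + 1) ≤ (Q) ∧ (Q) ≤ (k) ∧ (k + 1) ≤ (n) ∧ (i + l + 2) ≤ (Q) ∧ (n) ≤ (k + l + 1) ∧ (0) ≤ (i2) ∧ (i2) ≤ (i + l + 1) ∧ (n) ≤ (k + l + l2 + 2) ∧ (k + l + l2 + 3) ≤ (n + Q) ∧ (Q) ≤ (i2 + l2 + 1) ∧ (i2 + l2 + 2) ≤ (n) ∧ (0) ≤ (i3) ∧ (n + i3) ≤ (k + l + l2 + 2) ∧ (j + 3) ≤ (n) ∧ (k + 3) ≤ (n + Q) ∧ (l + 3) ≤ (n) ∧ (j + 2) ≤ (k) ∧ (l2 + 3) ≤ (n) ∧ (Q + 2) ≤ (n + i3) ∧ (1) ≤ (i2 + l2) ∧ (i2 + l2 + 3) ≤ (n + i3))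
    (a1 : Par W (0) (j) (k - j))
    (a2 : Par W (Q + j - k) (j) (k - j))
    (s1 : Ant W (0) (i) (i + j))
    (s2 : Ant W (j + 1) (Q) (i + j))
    (b : Par W (i + 1) (i + l + 1) (k - i))
    (tt : Ant W (i + l + 2) (Q) (i + l + i2 + 1))
    (c : Par W (i2 + 1) (i2 + l2 + 1) (k + l - n - i2 + 1))
    (u1 : Ant W (0) (i3) (k + l + l2 + i3 - n + 2))
    (u2 : Ant W (k + l + l2 - n + 3) (Q) (k + l + l2 + i3 - n + 2))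
    (d1 : Par W (i3 + 1) (Q) (i2 + l2 - i3 + 1))
    (d2 : Par W (i2 + l2 + 2) (n) (i3 - i2 - l2 - 1))
    (n1 : Nd W (j) (i) (k))
    (n2 : Nd W (i + l + 1) (i2) (k + l - n + 1))
    (n3 : Nd W (k + l + l2 - n + 2) (i3) (i2 + l2 + 1))
    (b0 : (j + l + l2 + i3 + 3) ≤ (n))
    (b1 : (2 * Q + i2 + l2) ≤ (n + i + j + i3))
    (b2 : (i + 2 * j + 2) ≤ (k))
    (b3 : (n + i + j) ≤ (k + l + i2 + 2))
    (b4 : (n + j + i3) ≤ (k + i2 + l2 + 1))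
    (b5 : (n + j) ≤ (k + 2 * l + 1))
    (b6 : (n + 2 * i) ≤ (j + k + 1))
    (b7 : (j + i2 + l2 + i3 + 3) ≤ (2 * i + k))
    (b8 : (k + i2 + l2 + 1) ≤ (n + j + i3))
    (b9 : (k + i3) ≤ (j + i2 + l2))
    (b10 : (n + j) ≤ (k + i2 + l2))
    (b11 : (2 * Q + i2) ≤ (k + l + 2 * i3 + 1)) : False := by
  have ev := al.ev
  obtain ⟨y0, y1, y2, y3, y4, y5, y6, y7, y8, y9, y10, y11, y12, y13, y14, y15, y16, y17, y18, y19, y20, y21, y22⟩ := id hy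
  have n1p := And.intro n1.p1 n1.p2
  have n2p := And.intro n2.p1 n2.p2
  have n3p := And.intro n3.p1 n3.p2
  by_cases z65 : (n + i + j) ≤ (k + l + l2 + i3 + 2)
  · have k321 : (i + 2 * k + l + 3) ≤ (n + 2 * Q + i2) := by clear * - b9 y10 z65; omega
    have k322 : (n + i) ≤ (l + i2 + 2 * l2 + 1) := by clear * - b9 z65 ev n1p n2p n3p; omega
    have k323 : (n + i + i2 + 1) ≤ (2 * k + l) := by clear * - b10 b2 b6 b7 b8 b9 z65; omega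
    have k324 : (n + 2 * j + i2) ≤ (i + 2 * k + l) := by clear * - b7 z65; omega
    have k325 : (l + i2 + 2) ≤ (n + i) := by clear * - b10 b11 b2 b7 b8 b9 y5; omega
    have k326 : (2 * Q + l) ≤ (n + i + i2) := by clear * - b0 b1 b10 b8 b9; omega
    obtain ⟨t, ht⟩ : ∃ t, 2 * t = (3 * n + i + 2 * j + i2 - 2 * k - l - 1) := ⟨(3 * n + i + 2 * j + i2 - 2 * k - l - 1) / 2, by clear * - ev n1p n2p n3p; omega⟩
    clear * - al a1 a2 s1 s2 b tt c u1 u2 d1 d2 n1 n2 n3 k321 k322 k323 k324 k325 k326 ht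
    exact al.ninv t (cE (cE (cE (ab s2 al 1 t ((n + i + j) - t) (by omega)) (pb c al 0 ((n + i + j) - t) ((2 * n + i + j + i2 - k - l - 1) - t) (by omega))) (pb a2 al 0 ((2 * n + i + j + i2 - k - l - 1) - t) ((2 * n + i + 2 * j + i2 - 2 * k - l - 1) - t) (by omega))) (sh al 1 ((2 * n + i + 2 * j + i2 - 2 * k - l - 1) - t) t (by omega)))
  · exact l2_10110_33 al mx hL hy a1 a2 s1 s2 b tt c u1 u2 d1 d2 n1 n2 n3 (by clear * - b2; omega) (by clear * - b3; omega) (by clear * - b4; omega) (by clear * - b5; omega) (by clear * - b6; omega) (by clear * - b7; omega) (by clear * - b8; omega) (by clear * - b9; omega) (by clear * - b10; omega) (by clear * - b11; omega) (by clear * - z65; omega)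

theorem l2_10110_31 {W : ℤ → G} {n Q i j k l i2 l2 i3 : ℤ} (al : AL W n Q)
    {L : ℤ} (mx : ∀ a b g, 0 < g → g < n → Par W a b g → b - a ≤ L) (hL : L ≤ (n - j - 3) ∧ L ≤ (n + Q - k - 3) ∧ L ≤ (n - l - 3) ∧ L ≤ (k - j - 2) ∧ L ≤ (n - l2 - 3) ∧ L ≤ (n + i3 - Q - 2) ∧ L ≤ (i2 + l2 - 1) ∧ L ≤ (n + i3 - i2 - l2 - 3))
    (hy : (0) ≤ (i) ∧ (i) ≤ (j) ∧ (j + 1) ≤ (Q) ∧ (Q) ≤ (k) ∧ (k + 1) ≤ (n) ∧ (i + l + 2) ≤ (Q) ∧ (n) ≤ (k + l + 1) ∧ (0) ≤ (i2) ∧ (i2) ≤ (i + l + 1) ∧ (n) ≤ (k + l + l2 + 2) ∧ (k + l + l2 + 3) ≤ (n + Q) ∧ (Q) ≤ (i2 + l2 + 1) ∧ (i2 + l2 + 2) ≤ (n) ∧ (0) ≤ (i3) ∧ (n + i3) ≤ (k + l + l2 + 2) ∧ (j + 3) ≤ (n) ∧ (k + 3) ≤ (n + Q) ∧ (l + 3) ≤ (n) ∧ (j + 2) ≤ (k) ∧ (l2 + 3) ≤ (n) ∧ (Q + 2) ≤ (n + i3) ∧ (1) ≤ (i2 + l2) ∧ (i2 + l2 + 3) ≤ (n + i3))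
    (a1 : Par W (0) (j) (k - j))
    (a2 : Par W (Q + j - k) (j) (k - j))
    (s1 : Ant W (0) (i) (i + j))
    (s2 : Ant W (j + 1) (Q) (i + j))
    (b : Par W (i + 1) (i + l + 1) (k - i))
    (tt : Ant W (i + l + 2) (Q) (i + l + i2 + 1))
    (c : Par W (i2 + 1) (i2 + l2 + 1) (k + l - n - i2 + 1))
    (u1 : Ant W (0) (i3) (k + l + l2 + i3 - n + 2))
    (u2 : Ant W (k + l + l2 - n + 3) (Q) (k + l + l2 + i3 - n + 2))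
    (d1 : Par W (i3 + 1) (Q) (i2 + l2 - i3 + 1))
    (d2 : Par W (i2 + l2 + 2) (n) (i3 - i2 - l2 - 1))
    (n1 : Nd W (j) (i) (k))
    (n2 : Nd W (i + l + 1) (i2) (k + l - n + 1))
    (n3 : Nd W (k + l + l2 - n + 2) (i3) (i2 + l2 + 1))
    (b0 : (j + l + l2 + i3 + 3) ≤ (n))
    (b1 : (2 * Q + i2 + l2) ≤ (n + i + j + i3))
    (b2 : (i + 2 * j + 2) ≤ (k))
    (b3 : (n + i + j) ≤ (k + l + i2 + 2))
    (b4 : (n + j + i3) ≤ (k + i2 + l2 + 1))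
    (b5 : (n + j) ≤ (k + 2 * l + 1))
    (b6 : (n + 2 * i) ≤ (j + k + 1))
    (b7 : (j + i2 + l2 + i3 + 3) ≤ (2 * i + k))
    (b8 : (k + i2 + l2 + 1) ≤ (n + j + i3))
    (b9 : (k + i3) ≤ (j + i2 + l2))
    (b10 : (n + j) ≤ (k + i2 + l2)) : False := by
  have ev := al.ev
  obtain ⟨y0, y1, y2, y3, y4, y5, y6, y7, y8, y9, y10, y11, y12, y13, y14, y15, y16, y17, y18, y19, y20, y21, y22⟩ := id hy
  have n1p := And.intro n1.p1 n1.p2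
  have n2p := And.intro n2.p1 n2.p2
  have n3p := And.intro n3.p1 n3.p2
  by_cases z64 : (k + l + 2 * i3 + 2) ≤ (2 * Q + i2)
  · have k318 : (k + l + i2 + 2 * l2 + 5) ≤ (2 * n + 2 * i3) := by clear * - b1 b10 b2 b8 z64; omega
    have k319 : (k + l + 2 * i3 + 3) ≤ (2 * Q + i2) := by clear * - z64 ev n1p n2p n3p; omega
    have k320 : (i2) ≤ (k + l) := by clear * - b10 b2 b6 b7 b8 b9 y14; omega
    obtain ⟨t, ht⟩ : ∃ t, 2 * t = (k + l + 2 * i3 - 2 * n - i2 + 1) := ⟨(k + l + 2 * i3 - 2 * n - i2 + 1) / 2, by clear * - ev n1p n2p n3p; omega⟩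
    clear * - al a1 a2 s1 s2 b tt c u1 u2 d1 d2 n1 n2 n3 k318 k319 k320 ht
    exact al.ninv t (cE (cE (qa u2 al (-1) t ((k + l + l2 + i3 - 2 * n + 2) - t) (by omega)) (pb d1 al (-1) ((k + l + l2 + i3 - 2 * n + 2) - t) ((k + l + 2 * i3 - n - i2 + 1) - t) (by omega))) (sh al (-1) ((k + l + 2 * i3 - n - i2 + 1) - t) t (by omega)))
  · exact l2_10110_32 al mx hL hy a1 a2 s1 s2 b tt c u1 u2 d1 d2 n1 n2 n3 (by clear * - b0; omega) (by clear * - b1; omega) (by clear * - b2; omega) (by clear * - b3; omega) (by clear * - b4; omega) (by clear * - b5; omega) (by clear * - b6; omega) (by clear * - b7; omega) (by clear * - b8; omega) (by clear * - b9; omega) (by clear * - b10; omega) (by clear * - z64; omega)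

theorem l2_10110_30 {W : ℤ → G} {n Q i j k l i2 l2 i3 : ℤ} (al : AL W n Q)
    {L : ℤ} (mx : ∀ a b g, 0 < g → g < n → Par W a b g → b - a ≤ L) (hL : L ≤ (n - j - 3) ∧ L ≤ (n + Q - k - 3) ∧ L ≤ (n - l - 3) ∧ L ≤ (k - j - 2) ∧ L ≤ (n - l2 - 3) ∧ L ≤ (n + i3 - Q - 2) ∧ L ≤ (i2 + l2 - 1) ∧ L ≤ (n + i3 - i2 - l2 - 3))
    (hy : (0) ≤ (i) ∧ (i) ≤ (j) ∧ (j + 1) ≤ (Q) ∧ (Q) ≤ (k) ∧ (k + 1) ≤ (n) ∧ (i + l + 2) ≤ (Q) ∧ (n) ≤ (k + l + 1) ∧ (0) ≤ (i2) ∧ (i2) ≤ (i + l + 1) ∧ (n) ≤ (k + l + l2 + 2) ∧ (k + l + l2 + 3) ≤ (n + Q) ∧ (Q) ≤ (i2 + l2 + 1) ∧ (i2 + l2 + 2) ≤ (n) ∧ (0) ≤ (i3) ∧ (n + i3) ≤ (k + l + l2 + 2) ∧ (j + 3) ≤ (n) ∧ (k + 3) ≤ (n + Q) ∧ (l + 3) ≤ (n) ∧ (j + 2) ≤ (k) ∧ (l2 + 3) ≤ (n) ∧ (Q + 2) ≤ (n + i3) ∧ (1) ≤ (i2 + l2) ∧ (i2 + l2 + 3) ≤ (n + i3))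
    (a1 : Par W (0) (j) (k - j))
    (a2 : Par W (Q + j - k) (j) (k - j))
    (s1 : Ant W (0) (i) (i + j))
    (s2 : Ant W (j + 1) (Q) (i + j))
    (b : Par W (i + 1) (i + l + 1) (k - i))
    (tt : Ant W (i + l + 2) (Q) (i + l + i2 + 1))
    (c : Par W (i2 + 1) (i2 + l2 + 1) (k + l - n - i2 + 1))
    (u1 : Ant W (0) (i3) (k + l + l2 + i3 - n + 2))
    (u2 : Ant W (k + l + l2 - n + 3) (Q) (k + l + l2 + i3 - n + 2))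
    (d1 : Par W (i3 + 1) (Q) (i2 + l2 - i3 + 1))
    (d2 : Par W (i2 + l2 + 2) (n) (i3 - i2 - l2 - 1))
    (n1 : Nd W (j) (i) (k))
    (n2 : Nd W (i + l + 1) (i2) (k + l - n + 1))
    (n3 : Nd W (k + l + l2 - n + 2) (i3) (i2 + l2 + 1))
    (b0 : (j + l + l2 + i3 + 3) ≤ (n))
    (b1 : (2 * Q + i2 + l2) ≤ (n + i + j + i3))
    (b2 : (i + 2 * j + 2) ≤ (k))
    (b3 : (n + i + j) ≤ (k + l + i2 + 2))
    (b4 : (n + j + i3) ≤ (k + i2 + l2 + 1))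
    (b5 : (n + j) ≤ (k + 2 * l + 1))
    (b6 : (n + 2 * i) ≤ (j + k + 1))
    (b7 : (j + i2 + l2 + i3 + 3) ≤ (2 * i + k))
    (b8 : (k + i2 + l2 + 1) ≤ (n + j + i3))
    (b9 : (k + i3) ≤ (j + i2 + l2)) : False := by
  have ev := al.ev
  obtain ⟨y0, y1, y2, y3, y4, y5, y6, y7, y8, y9, y10, y11, y12, y13, y14, y15, y16, y17, y18, y19, y20, y21, y22⟩ := id hy
  have n1p := And.intro n1.p1 n1.p2
  have n2p := And.intro n2.p1 n2.p2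
  have n3p := And.intro n3.p1 n3.p2
  by_cases z63 : (k + i2 + l2 + 1) ≤ (n + j)
  · have k314 : (i3) ≤ (i2 + l2) := by clear * - b4 b9 y22; omega
    have k315 : (i2 + l2 + 2) ≤ (n + i3) := by clear * - y22; omega
    have k316 : (i3) ≤ (0) := by clear * - b4 z63; omega
    have k317 : L ≤ (n + i3 - i2 - l2 - 3) := by clear * - hL; omega
    clear * - al a1 a2 s1 s2 b tt c u1 u2 d1 d2 n1 n2 n3 mx k314 k315 k316 k317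
    exact absurd (mx (n + i3 + 1) (2 * n + i3 - i2 - l2 - 1) (i2 + l2 - i3 + 1) (by omega) (by omega) fun t h1 h2 => (cE (pb d2 al 1 t (t + (i2 + l2 - n - i3 + 1)) (by omega)) (sh al 1 (t + (i2 + l2 - n - i3 + 1)) (t + (i2 + l2 - i3 + 1)) (by omega)))) (by omega)
  · exact l2_10110_31 al mx hL hy a1 a2 s1 s2 b tt c u1 u2 d1 d2 n1 n2 n3 (by clear * - b0; omega) (by clear * - b1; omega) (by clear * - b2; omega) (by clear * - b3; omega) (by clear * - b4; omega) (by clear * - b5; omega) (by clear * - b6; omega) (by clear * - b7; omega) (by clear * - b8; omega) (by clear * - b9; omega) (by clear * - z63; omega)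

theorem l2_10110_29 {W : ℤ → G} {n Q i j k l i2 l2 i3 : ℤ} (al : AL W n Q)
    {L : ℤ} (mx : ∀ a b g, 0 < g → g < n → Par W a b g → b - a ≤ L) (hL : L ≤ (n - j - 3) ∧ L ≤ (n + Q - k - 3) ∧ L ≤ (n - l - 3) ∧ L ≤ (k - j - 2) ∧ L ≤ (n - l2 - 3) ∧ L ≤ (n + i3 - Q - 2) ∧ L ≤ (i2 + l2 - 1) ∧ L ≤ (n + i3 - i2 - l2 - 3))
    (hy : (0) ≤ (i) ∧ (i) ≤ (j) ∧ (j + 1) ≤ (Q) ∧ (Q) ≤ (k) ∧ (k + 1) ≤ (n) ∧ (i + l + 2) ≤ (Q) ∧ (n) ≤ (k + l + 1) ∧ (0) ≤ (i2) ∧ (i2) ≤ (i + l + 1) ∧ (n) ≤ (k + l + l2 + 2) ∧ (k + l + l2 + 3) ≤ (n + Q) ∧ (Q) ≤ (i2 + l2 + 1) ∧ (i2 + l2 + 2) ≤ (n) ∧ (0) ≤ (i3) ∧ (n + i3) ≤ (k + l + l2 + 2) ∧ (j + 3) ≤ (n) ∧ (k + 3) ≤ (n + Q) ∧ (l + 3) ≤ (n) ∧ (j + 2) ≤ (k) ∧ (l2 + 3) ≤ (n) ∧ (Q + 2) ≤ (n + i3) ∧ (1) ≤ (i2 + l2) ∧ (i2 + l2 + 3) ≤ (n + i3))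
    (a1 : Par W (0) (j) (k - j))
    (a2 : Par W (Q + j - k) (j) (k - j))
    (s1 : Ant W (0) (i) (i + j))
    (s2 : Ant W (j + 1) (Q) (i + j))
    (b : Par W (i + 1) (i + l + 1) (k - i))
    (tt : Ant W (i + l + 2) (Q) (i + l + i2 + 1))
    (c : Par W (i2 + 1) (i2 + l2 + 1) (k + l - n - i2 + 1))
    (u1 : Ant W (0) (i3) (k + l + l2 + i3 - n + 2))
    (u2 : Ant W (k + l + l2 - n + 3) (Q) (k + l + l2 + i3 - n + 2))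
    (d1 : Par W (i3 + 1) (Q) (i2 + l2 - i3 + 1))
    (d2 : Par W (i2 + l2 + 2) (n) (i3 - i2 - l2 - 1))
    (n1 : Nd W (j) (i) (k))
    (n2 : Nd W (i + l + 1) (i2) (k + l - n + 1))
    (n3 : Nd W (k + l + l2 - n + 2) (i3) (i2 + l2 + 1))
    (b0 : (2 * k + 3) ≤ (n + 2 * Q))
    (b1 : (j + l + l2 + i3 + 3) ≤ (n))
    (b2 : (2 * Q + i2 + l2) ≤ (n + i + j + i3))
    (b3 : (i + 2 * j + 2) ≤ (k))
    (b4 : (n) ≤ (2 * i2 + 2 * l2 + 1))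
    (b5 : (n + i + j) ≤ (k + l + i2 + 2))
    (b6 : (n + j + i3) ≤ (k + i2 + l2 + 1))
    (b7 : (n + j) ≤ (k + 2 * l + 1))
    (b8 : (n + 2 * i) ≤ (j + k + 1))
    (b9 : (j + i2 + l2 + i3 + 3) ≤ (2 * i + k))
    (b10 : (k + i3) ≤ (j + i2 + l2 + 2))
    (b11 : (k + i2 + l2 + 1) ≤ (n + j + i3)) : False := by
  have ev := al.ev
  obtain ⟨y0, y1, y2, y3, y4, y5, y6, y7, y8, y9, y10, y11, y12, y13, y14, y15, y16, y17, y18, y19, y20, y21, y22⟩ := id hy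
  have n1p := And.intro n1.p1 n1.p2
  have n2p := And.intro n2.p1 n2.p2
  have n3p := And.intro n3.p1 n3.p2
  by_cases z62 : (j + i2 + l2 + 1) ≤ (k + i3)
  · have k311 : (i3 + 1) ≤ (j) := by clear * - b10 b11 b3 b4 b8 b9; omega
    have k312 : (j + i2 + l2 + 2) ≤ (n + i3) := by clear * - b11 b3 b4 b9; omega
    have k313 : (k + i3) ≤ (j + i2 + l2 + 1) := by clear * - b10 ev n1p n2p n3p; omega
    clear * - al a1 a2 s1 s2 b tt c u1 u2 d1 d2 n1 n2 n3 k311 k312 k313 z62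
    exact n1.f0 (pb d2 al 0 (j) (k) (by omega))
  · exact l2_10110_30 al mx hL hy a1 a2 s1 s2 b tt c u1 u2 d1 d2 n1 n2 n3 (by clear * - b1; omega) (by clear * - b2; omega) (by clear * - b3; omega) (by clear * - b5; omega) (by clear * - b6; omega) (by clear * - b7; omega) (by clear * - b8; omega) (by clear * - b9; omega) (by clear * - b11; omega) (by clear * - z62; omega)

theorem l2_10110_28 {W : ℤ → G} {n Q i j k l i2 l2 i3 : ℤ} (al : AL W n Q)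
    {L : ℤ} (mx : ∀ a b g, 0 < g → g < n → Par W a b g → b - a ≤ L) (hL : L ≤ (n - j - 3) ∧ L ≤ (n + Q - k - 3) ∧ L ≤ (n - l - 3) ∧ L ≤ (k - j - 2) ∧ L ≤ (n - l2 - 3) ∧ L ≤ (n + i3 - Q - 2) ∧ L ≤ (i2 + l2 - 1) ∧ L ≤ (n + i3 - i2 - l2 - 3))
    (hy : (0) ≤ (i) ∧ (i) ≤ (j) ∧ (j + 1) ≤ (Q) ∧ (Q) ≤ (k) ∧ (k + 1) ≤ (n) ∧ (i + l + 2) ≤ (Q) ∧ (n) ≤ (k + l + 1) ∧ (0) ≤ (i2) ∧ (i2) ≤ (i + l + 1) ∧ (n) ≤ (k + l + l2 + 2) ∧ (k + l + l2 + 3) ≤ (n + Q) ∧ (Q) ≤ (i2 + l2 + 1) ∧ (i2 + l2 + 2) ≤ (n) ∧ (0) ≤ (i3) ∧ (n + i3) ≤ (k + l + l2 + 2) ∧ (j + 3) ≤ (n) ∧ (k + 3) ≤ (n + Q) ∧ (l + 3) ≤ (n) ∧ (j + 2) ≤ (k) ∧ (l2 + 3) ≤ (n) ∧ (Q + 2) ≤ (n + i3) ∧ (1) ≤ (i2 + l2) ∧ (i2 + l2 + 3) ≤ (n + i3))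
    (a1 : Par W (0) (j) (k - j))
    (a2 : Par W (Q + j - k) (j) (k - j))
    (s1 : Ant W (0) (i) (i + j))
    (s2 : Ant W (j + 1) (Q) (i + j))
    (b : Par W (i + 1) (i + l + 1) (k - i))
    (tt : Ant W (i + l + 2) (Q) (i + l + i2 + 1))
    (c : Par W (i2 + 1) (i2 + l2 + 1) (k + l - n - i2 + 1))
    (u1 : Ant W (0) (i3) (k + l + l2 + i3 - n + 2))
    (u2 : Ant W (k + l + l2 - n + 3) (Q) (k + l + l2 + i3 - n + 2))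
    (d1 : Par W (i3 + 1) (Q) (i2 + l2 - i3 + 1))
    (d2 : Par W (i2 + l2 + 2) (n) (i3 - i2 - l2 - 1))
    (n1 : Nd W (j) (i) (k))
    (n2 : Nd W (i + l + 1) (i2) (k + l - n + 1))
    (n3 : Nd W (k + l + l2 - n + 2) (i3) (i2 + l2 + 1))
    (b0 : (2 * k + 3) ≤ (n + 2 * Q))
    (b1 : (j + l + l2 + i3 + 3) ≤ (n))
    (b2 : (2 * Q + i2 + l2) ≤ (n + i + j + i3))
    (b3 : (i + 2 * j + 2) ≤ (k))
    (b4 : (n) ≤ (2 * i2 + 2 * l2 + 1))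
    (b5 : (n + i + j) ≤ (k + l + i2 + 2))
    (b6 : (n + j + i3) ≤ (k + i2 + l2 + 1))
    (b7 : (n + j) ≤ (k + 2 * l + 1))
    (b8 : (n + 2 * i) ≤ (j + k + 1))
    (b9 : (j + i2 + l2 + i3 + 3) ≤ (2 * i + k))
    (b10 : (k + i3) ≤ (j + i2 + l2 + 2)) : False := by
  have ev := al.ev
  obtain ⟨y0, y1, y2, y3, y4, y5, y6, y7, y8, y9, y10, y11, y12, y13, y14, y15, y16, y17, y18, y19, y20, y21, y22⟩ := id hy
  have n1p := And.intro n1.p1 n1.p2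
  have n2p := And.intro n2.p1 n2.p2
  have n3p := And.intro n3.p1 n3.p2
  by_cases z61 : (n + j + i3) ≤ (k + i2 + l2)
  · have k308 : (k + i2 + l2 + 2) ≤ (2 * n + j + i3) := by clear * - b0 b2 b3 b4 b8 b9 z61; omega
    have k309 : (k + i2 + l2 + 2) ≤ (n + Q + j) := by clear * - b0 b2 b8 b9 z61; omega
    have k310 : (Q + i2 + l2 + 1) ≤ (n + j + i3) := by clear * - b0 b2 b3 b4 b8 b9; omega
    clear * - al a1 a2 s1 s2 b tt c u1 u2 d1 d2 n1 n2 n3 z61 k308 k309 k310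
    exact al.ubQ (k + i2 + l2 - n - j - i3 + 1) (by omega) (by omega) fun t h1 h2 => (cE (sh al (-1) t (t + (-n)) (by omega)) (cE (qf d1 al (-1) (t + (-n)) (t + (i2 + l2 - i3 + 1)) (by omega)) (qf a2 al 1 (t + (i2 + l2 - i3 + 1)) (t + (k + i2 + l2 - n - j - i3 + 1)) (by omega))))
  · exact l2_10110_29 al mx hL hy a1 a2 s1 s2 b tt c u1 u2 d1 d2 n1 n2 n3 (by clear * - b0; omega) (by clear * - b1; omega) (by clear * - b2; omega) (by clear * - b3; omega) (by clear * - b4; omega) (by clear * - b5; omega) (by clear * - b6; omega) (by clear * - b7; omega) (by clear * - b8; omega) (by clear * - b9; omega) (by clear * - b10; omega) (by clear * - z61; omega)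

theorem l2_10110_27 {W : ℤ → G} {n Q i j k l i2 l2 i3 : ℤ} (al : AL W n Q)
    {L : ℤ} (mx : ∀ a b g, 0 < g → g < n → Par W a b g → b - a ≤ L) (hL : L ≤ (n - j - 3) ∧ L ≤ (n + Q - k - 3) ∧ L ≤ (n - l - 3) ∧ L ≤ (k - j - 2) ∧ L ≤ (n - l2 - 3) ∧ L ≤ (n + i3 - Q - 2) ∧ L ≤ (i2 + l2 - 1) ∧ L ≤ (n + i3 - i2 - l2 - 3))
    (hy : (0) ≤ (i) ∧ (i) ≤ (j) ∧ (j + 1) ≤ (Q) ∧ (Q) ≤ (k) ∧ (k + 1) ≤ (n) ∧ (i + l + 2) ≤ (Q) ∧ (n) ≤ (k + l + 1) ∧ (0) ≤ (i2) ∧ (i2) ≤ (i + l + 1) ∧ (n) ≤ (k + l + l2 + 2) ∧ (k + l + l2 + 3) ≤ (n + Q) ∧ (Q) ≤ (i2 + l2 + 1) ∧ (i2 + l2 + 2) ≤ (n) ∧ (0) ≤ (i3) ∧ (n + i3) ≤ (k + l + l2 + 2) ∧ (j + 3) ≤ (n) ∧ (k + 3) ≤ (n + Q) ∧ (l + 3) ≤ (n) ∧ (j + 2) ≤ (k) ∧ (l2 + 3) ≤ (n) ∧ (Q + 2) ≤ (n + i3) ∧ (1) ≤ (i2 + l2) ∧ (i2 + l2 + 3) ≤ (n + i3))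
    (a1 : Par W (0) (j) (k - j))
    (a2 : Par W (Q + j - k) (j) (k - j))
    (s1 : Ant W (0) (i) (i + j))
    (s2 : Ant W (j + 1) (Q) (i + j))
    (b : Par W (i + 1) (i + l + 1) (k - i))
    (tt : Ant W (i + l + 2) (Q) (i + l + i2 + 1))
    (c : Par W (i2 + 1) (i2 + l2 + 1) (k + l - n - i2 + 1))
    (u1 : Ant W (0) (i3) (k + l + l2 + i3 - n + 2))
    (u2 : Ant W (k + l + l2 - n + 3) (Q) (k + l + l2 + i3 - n + 2))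
    (d1 : Par W (i3 + 1) (Q) (i2 + l2 - i3 + 1))
    (d2 : Par W (i2 + l2 + 2) (n) (i3 - i2 - l2 - 1))
    (n1 : Nd W (j) (i) (k))
    (n2 : Nd W (i + l + 1) (i2) (k + l - n + 1))
    (n3 : Nd W (k + l + l2 - n + 2) (i3) (i2 + l2 + 1))
    (b0 : (2 * k + 3) ≤ (n + 2 * Q))
    (b1 : (i + k + 2 * l + 1) ≤ (n + 2 * j))
    (b2 : (j + l + l2 + i3 + 3) ≤ (n))
    (b3 : (2 * Q + i2 + l2) ≤ (n + i + j + i3))
    (b4 : (i + 2 * j + 2) ≤ (k))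
    (b5 : (n) ≤ (2 * i2 + 2 * l2 + 1))
    (b6 : (n + i + j) ≤ (k + l + i2 + 2))
    (b7 : (n + j + i3) ≤ (k + i2 + l2 + 1))
    (b8 : (n + j) ≤ (k + 2 * l + 1))
    (b9 : (n + 2 * i) ≤ (j + k + 1))
    (b10 : (j + i2 + l2 + i3 + 3) ≤ (2 * i + k)) : False := by
  have ev := al.ev
  obtain ⟨y0, y1, y2, y3, y4, y5, y6, y7, y8, y9, y10, y11, y12, y13, y14, y15, y16, y17, y18, y19, y20, y21, y22⟩ := id hy
  have n1p := And.intro n1.p1 n1.p2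
  have n2p := And.intro n2.p1 n2.p2
  have n3p := And.intro n3.p1 n3.p2
  by_cases z60 : (j + i2 + l2 + 3) ≤ (k + i3)
  · have k295 : (j + k + i3 + 1) ≤ (2 * Q + i2 + l2) := by clear * - b0 b7; omega
    have k296 : (2 * Q + j + i3) ≤ (2 * i + k + i2 + l2 + 1) := by clear * - b0 b3 b7; omega
    have k297 : (j + k + i2 + l2 + 3) ≤ (2 * n + i3) := by clear * - b0 b3 b4; omega
    have k298 : (j + i3) ≤ (k + i2 + l2 + 1) := by clear * - b0 b3 b7 b9 z60; omega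
    have k299 : (4 * Q + j + i3) ≤ (2 * i + 3 * k + i2 + l2 + 3) := by clear * - b0 b3 b7 b9 z60; omega
    have k300 : (j + i2 + l2 + i3 + 3) ≤ (2 * Q + k) := by clear * - b0 b10 b3 b7 b9 z60; omega
    have k301 : (j + 3 * i2 + 3 * l2 + i3 + 5) ≤ (2 * i + 3 * k) := by clear * - b1 b10 b8 z60; omega
    have k302 : (2 * i + j + i2 + l2 + 3) ≤ (2 * Q + k + i3) := by clear * - b0 b3 b7 b9 z60; omega
    have k303 : (2 * i + j + 3 * i2 + 3 * l2 + 5) ≤ (3 * k + 3 * i3) := by clear * - b1 b8 z60; omega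
    have k304 : (2 * i + j + k + i2 + l2 + 3) ≤ (2 * n + 2 * Q + i3) := by clear * - b0 b3 b4 b7 b9 z60; omega
    have k305 : (2 * i + j + k + 3 * i2 + 3 * l2 + 5) ≤ (4 * n + 3 * i3) := by clear * - b0 b3 b4 b7 b9 z60; omega
    have k306 : (i + j) % 2 = 0 := by clear * - ev n1p n2p n3p; omega
    have k307 : (k + i3 - j - i2 - l2 - 1) % 2 = 0 := by clear * - ev n1p n2p n3p; omega
    clear * - al a1 a2 s1 s2 b tt c u1 u2 d1 d2 n1 n2 n3 k295 k296 b10 z60 k297 k298 k299 k300 k301 k302 k303 k304 k305 k306 k307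
    exact midP al (k + i3 - j - i2 - l2 - 1) (i + j) (max (i + j + i2 + l2 - n - i3 + 2) (max (Q + j - k) (max (i + j + i2 + l2 - k - i3 + 2) (max (j + i2 + l2 - k + 2) (j + 1))))) (max (Q + j - k) (j + i2 + l2 - k + 2)) (min (n + i3 - i2 - l2 - 1) (k + i3 - i2 - l2 - 1)) (by omega) (fun t h1 h2 => (qa s2 al 0 t ((i + j) - t) (by omega))) (fun t h1 h2 => (cE (qf a2 al 0 t (t + (k - j)) (by omega)) (qf d2 al 0 (t + (k - j)) (t + (k + i3 - j - i2 - l2 - 1)) (by omega))))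
  · exact l2_10110_28 al mx hL hy a1 a2 s1 s2 b tt c u1 u2 d1 d2 n1 n2 n3 (by clear * - b0; omega) (by clear * - b2; omega) (by clear * - b3; omega) (by clear * - b4; omega) (by clear * - b5; omega) (by clear * - b6; omega) (by clear * - b7; omega) (by clear * - b8; omega) (by clear * - b9; omega) (by clear * - b10; omega) (by clear * - z60; omega)

theorem l2_10110_26 {W : ℤ → G} {n Q i j k l i2 l2 i3 : ℤ} (al : AL W n Q)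
    {L : ℤ} (mx : ∀ a b g, 0 < g → g < n → Par W a b g → b - a ≤ L) (hL : L ≤ (n - j - 3) ∧ L ≤ (n + Q - k - 3) ∧ L ≤ (n - l - 3) ∧ L ≤ (k - j - 2) ∧ L ≤ (n - l2 - 3) ∧ L ≤ (n + i3 - Q - 2) ∧ L ≤ (i2 + l2 - 1) ∧ L ≤ (n + i3 - i2 - l2 - 3))
    (hy : (0) ≤ (i) ∧ (i) ≤ (j) ∧ (j + 1) ≤ (Q) ∧ (Q) ≤ (k) ∧ (k + 1) ≤ (n) ∧ (i + l + 2) ≤ (Q) ∧ (n) ≤ (k + l + 1) ∧ (0) ≤ (i2) ∧ (i2) ≤ (i + l + 1) ∧ (n) ≤ (k + l + l2 + 2) ∧ (k + l + l2 + 3) ≤ (n + Q) ∧ (Q) ≤ (i2 + l2 + 1) ∧ (i2 + l2 + 2) ≤ (n) ∧ (0) ≤ (i3) ∧ (n + i3) ≤ (k + l + l2 + 2) ∧ (j + 3) ≤ (n) ∧ (k + 3) ≤ (n + Q) ∧ (l + 3) ≤ (n) ∧ (j + 2) ≤ (k) ∧ (l2 + 3) ≤ (n) ∧ (Q + 2) ≤ (n + i3) ∧ (1) ≤ (i2 + l2) ∧ (i2 + l2 + 3) ≤ (n + i3))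
    (a1 : Par W (0) (j) (k - j))
    (a2 : Par W (Q + j - k) (j) (k - j))
    (s1 : Ant W (0) (i) (i + j))
    (s2 : Ant W (j + 1) (Q) (i + j))
    (b : Par W (i + 1) (i + l + 1) (k - i))
    (tt : Ant W (i + l + 2) (Q) (i + l + i2 + 1))
    (c : Par W (i2 + 1) (i2 + l2 + 1) (k + l - n - i2 + 1))
    (u1 : Ant W (0) (i3) (k + l + l2 + i3 - n + 2))
    (u2 : Ant W (k + l + l2 - n + 3) (Q) (k + l + l2 + i3 - n + 2))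
    (d1 : Par W (i3 + 1) (Q) (i2 + l2 - i3 + 1))
    (d2 : Par W (i2 + l2 + 2) (n) (i3 - i2 - l2 - 1))
    (n1 : Nd W (j) (i) (k))
    (n2 : Nd W (i + l + 1) (i2) (k + l - n + 1))
    (n3 : Nd W (k + l + l2 - n + 2) (i3) (i2 + l2 + 1))
    (b0 : (2 * k + 3) ≤ (n + 2 * Q))
    (b1 : (i + k + 2 * l + 1) ≤ (n + 2 * j))
    (b2 : (j + l + l2 + i3 + 3) ≤ (n))
    (b3 : (2 * Q + i2 + l2) ≤ (n + i + j + i3))
    (b4 : (i + 2 * j + 2) ≤ (k))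
    (b5 : (n) ≤ (2 * i2 + 2 * l2 + 1))
    (b6 : (n + i + j) ≤ (k + l + i2 + 2))
    (b7 : (n + j + i3) ≤ (k + i2 + l2 + 1))
    (b8 : (n + j) ≤ (k + 2 * l + 1))
    (b9 : (n + 2 * i) ≤ (j + k + 1)) : False := by
  have ev := al.ev
  obtain ⟨y0, y1, y2, y3, y4, y5, y6, y7, y8, y9, y10, y11, y12, y13, y14, y15, y16, y17, y18, y19, y20, y21, y22⟩ := id hy
  have n1p := And.intro n1.p1 n1.p2
  have n2p := And.intro n2.p1 n2.p2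
  have n3p := And.intro n3.p1 n3.p2
  by_cases z59 : (j + i2 + l2 + i3 + 3) ≤ (2 * i + k)
  · exact l2_10110_27 al mx hL hy a1 a2 s1 s2 b tt c u1 u2 d1 d2 n1 n2 n3 (by clear * - b0; omega) (by clear * - b1; omega) (by clear * - b2; omega) (by clear * - b3; omega) (by clear * - b4; omega) (by clear * - b5; omega) (by clear * - b6; omega) (by clear * - b7; omega) (by clear * - b8; omega) (by clear * - b9; omega) (by clear * - z59; omega)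
  · exact l2_10110_39 al mx hL hy a1 a2 s1 s2 b tt c u1 u2 d1 d2 n1 n2 n3 (by clear * - b0; omega) (by clear * - b1; omega) (by clear * - b2; omega) (by clear * - b3; omega) (by clear * - b4; omega) (by clear * - b5; omega) (by clear * - b6; omega) (by clear * - b7; omega) (by clear * - b8; omega) (by clear * - b9; omega) (by clear * - z59; omega)

theorem l2_10110_25 {W : ℤ → G} {n Q i j k l i2 l2 i3 : ℤ} (al : AL W n Q)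
    {L : ℤ} (mx : ∀ a b g, 0 < g → g < n → Par W a b g → b - a ≤ L) (hL : L ≤ (n - j - 3) ∧ L ≤ (n + Q - k - 3) ∧ L ≤ (n - l - 3) ∧ L ≤ (k - j - 2) ∧ L ≤ (n - l2 - 3) ∧ L ≤ (n + i3 - Q - 2) ∧ L ≤ (i2 + l2 - 1) ∧ L ≤ (n + i3 - i2 - l2 - 3))
    (hy : (0) ≤ (i) ∧ (i) ≤ (j) ∧ (j + 1) ≤ (Q) ∧ (Q) ≤ (k) ∧ (k + 1) ≤ (n) ∧ (i + l + 2) ≤ (Q) ∧ (n) ≤ (k + l + 1) ∧ (0) ≤ (i2) ∧ (i2) ≤ (i + l + 1) ∧ (n) ≤ (k + l + l2 + 2) ∧ (k + l + l2 + 3) ≤ (n + Q) ∧ (Q) ≤ (i2 + l2 + 1) ∧ (i2 + l2 + 2) ≤ (n) ∧ (0) ≤ (i3) ∧ (n + i3) ≤ (k + l + l2 + 2) ∧ (j + 3) ≤ (n) ∧ (k + 3) ≤ (n + Q) ∧ (l + 3) ≤ (n) ∧ (j + 2) ≤ (k) ∧ (l2 + 3) ≤ (n) ∧ (Q + 2) ≤ (n + i3) ∧ (1) ≤ (i2 + l2) ∧ (i2 + l2 + 3) ≤ (n + i3))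
    (a1 : Par W (0) (j) (k - j))
    (a2 : Par W (Q + j - k) (j) (k - j))
    (s1 : Ant W (0) (i) (i + j))
    (s2 : Ant W (j + 1) (Q) (i + j))
    (b : Par W (i + 1) (i + l + 1) (k - i))
    (tt : Ant W (i + l + 2) (Q) (i + l + i2 + 1))
    (c : Par W (i2 + 1) (i2 + l2 + 1) (k + l - n - i2 + 1))
    (u1 : Ant W (0) (i3) (k + l + l2 + i3 - n + 2))
    (u2 : Ant W (k + l + l2 - n + 3) (Q) (k + l + l2 + i3 - n + 2))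
    (d1 : Par W (i3 + 1) (Q) (i2 + l2 - i3 + 1))
    (d2 : Par W (i2 + l2 + 2) (n) (i3 - i2 - l2 - 1))
    (n1 : Nd W (j) (i) (k))
    (n2 : Nd W (i + l + 1) (i2) (k + l - n + 1))
    (n3 : Nd W (k + l + l2 - n + 2) (i3) (i2 + l2 + 1))
    (b0 : (2 * k + 3) ≤ (n + 2 * Q))
    (b1 : (i + k + 2 * l + 1) ≤ (n + 2 * j))
    (b2 : (j + l + l2 + i3 + 3) ≤ (n))
    (b3 : (2 * Q + i2 + l2) ≤ (n + i + j + i3))
    (b4 : (i + 2 * j + 2) ≤ (k))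
    (b5 : (n) ≤ (2 * i2 + 2 * l2 + 1))
    (b6 : (n + i + j) ≤ (k + l + i2 + 2))
    (b7 : (n + j + i3) ≤ (k + i2 + l2 + 1))
    (b8 : (n + j) ≤ (k + 2 * l + 1)) : False := by
  have ev := al.ev
  obtain ⟨y0, y1, y2, y3, y4, y5, y6, y7, y8, y9, y10, y11, y12, y13, y14, y15, y16, y17, y18, y19, y20, y21, y22⟩ := id hy
  have n1p := And.intro n1.p1 n1.p2
  have n2p := And.intro n2.p1 n2.p2
  have n3p := And.intro n3.p1 n3.p2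
  by_cases z58 : (j + k + 2) ≤ (n + 2 * i)
  · have k292 : (k + 2) ≤ (n + j) := by clear * - b1 b8 z58; omega
    have k293 : (n + 2 * i + j + 2) ≤ (2 * Q + k) := by clear * - b8 y5; omega
    have k294 : (j + k + 1) ≤ (n + 2 * i) := by clear * - z58; omega
    obtain ⟨t, ht⟩ : ∃ t, 2 * t = (n + 2 * i + j - k) := ⟨(n + 2 * i + j - k) / 2, by clear * - ev n1p n2p n3p; omega⟩
    clear * - al a1 a2 s1 s2 b tt c u1 u2 d1 d2 n1 n2 n3 k292 k293 b8 k294 ht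
    exact al.ninv t (cI (qf b al 0 t (t + (k - i)) (by omega)) (ab s2 al 1 (t + (k - i)) t (by omega)))
  · exact l2_10110_26 al mx hL hy a1 a2 s1 s2 b tt c u1 u2 d1 d2 n1 n2 n3 (by clear * - b0; omega) (by clear * - b1; omega) (by clear * - b2; omega) (by clear * - b3; omega) (by clear * - b4; omega) (by clear * - b5; omega) (by clear * - b6; omega) (by clear * - b7; omega) (by clear * - b8; omega) (by clear * - z58; omega)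

end Pool.Agent.MP_a38735_al.WL
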