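import Pool.Agent.MP_a38735_al.Q2b0

set_option autoImplicit false
set_option linter.unusedVariables false

namespace Pool.Agent.MP_a38735_al.WL

variable {G : Type*} [Group G]

theorem l2_10110_21 {W : ℤ → G} {n Q i j k l i2 l2 i3 : ℤ} (al : AL W n Q)
    {L : ℤ} (mx : ∀ a b g, 0 < g → g < n → Par W a b g → b - a ≤ L) (hL : L ≤ (n - j - 3) ∧ L ≤ (n + Q - k - 3) ∧ L ≤ (n - l - 3) ∧ L ≤ (k - j - 2) ∧ L ≤ (n - l2 - 3) ∧ L ≤ (n + i3 - Q - 2) ∧ L ≤ (i2 + l2 - 1) ∧ L ≤ (n + i3 - i2 - l2 - 3))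
    (hy : (0) ≤ (i) ∧ (i) ≤ (j) ∧ (j + 1) ≤ (Q) ∧ (Q) ≤ (k) ∧ (k + 1) ≤ (n) ∧ (i + l + 2) ≤ (Q) ∧ (n) ≤ (k + l + 1) ∧ (0) ≤ (i2) ∧ (i2) ≤ (i + l + 1) ∧ (n) ≤ (k + l + l2 + 2) ∧ (k + l + l2 + 3) ≤ (n + Q) ∧ (Q) ≤ (i2 + l2 + 1) ∧ (i2 + l2 + 2) ≤ (n) ∧ (0) ≤ (i3) ∧ (n + i3) ≤ (k + l + l2 + 2) ∧ (j + 3) ≤ (n) ∧ (k + 3) ≤ (n + Q) ∧ (l + 3) ≤ (n) ∧ (j + 2) ≤ (k) ∧ (l2 + 3) ≤ (n) ∧ (Q + 2) ≤ (n + i3) ∧ (1) ≤ (i2 + l2) ∧ (i2 + l2 + 3) ≤ (n + i3))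
    (a1 : Par W (0) (j) (k - j))
    (a2 : Par W (Q + j - k) (j) (k - j))
    (s1 : Ant W (0) (i) (i + j))
    (s2 : Ant W (j + 1) (Q) (i + j))
    (b : Par W (i + 1) (i + l + 1) (k - i))
    (tt : Ant W (i + l + 2) (Q) (i + l + i2 + 1))
    (c : Par W (i2 + 1) (i2 + l2 + 1) (k + l - n - i2 + 1))
    (u1 : Ant W (0) (i3) (k + l + l2 + i3 - n + 2))
    (u2 : Ant W (k + l + l2 - n + 3) (Q) (k + l + l2 + i3 - n + 2))
    (d1 : Par W (i3 + 1) (Q) (i2 + l2 - i3 + 1))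
    (d2 : Par W (i2 + l2 + 2) (n) (i3 - i2 - l2 - 1))
    (n1 : Nd W (j) (i) (k))
    (n2 : Nd W (i + l + 1) (i2) (k + l - n + 1))
    (n3 : Nd W (k + l + l2 - n + 2) (i3) (i2 + l2 + 1))
    (b0 : (2 * k + 3) ≤ (n + 2 * Q))
    (b1 : (i + k + 2 * l + 1) ≤ (n + 2 * j))
    (b2 : (j + l + l2 + i3 + 3) ≤ (n))
    (b3 : (2 * Q + i2 + l2) ≤ (n + i + j + i3))
    (b4 : (i + 2 * j + 2) ≤ (k))
    (b5 : (n) ≤ (2 * i2 + 2 * l2 + 1))
    (b6 : (k + l + i2 + 3) ≤ (n + i + j))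
    (b7 : (n + i + i2) ≤ (j + k + l + 1))
    (b8 : (2 * Q + k) ≤ (n + 2 * i + l + i2 + 2))
    (b9 : (k + i2 + l2 + 1) ≤ (n + j + i3))
    (b10 : (n + j + i3) ≤ (k + i2 + l2 + 1))
    (b11 : (j + i2 + l2 + 2) ≤ (k + i3)) : False := by
  have ev := al.ev
  obtain ⟨y0, y1, y2, y3, y4, y5, y6, y7, y8, y9, y10, y11, y12, y13, y14, y15, y16, y17, y18, y19, y20, y21, y22⟩ := id hy
  have n1p := And.intro n1.p1 n1.p2
  have n2p := And.intro n2.p1 n2.p2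
  have n3p := And.intro n3.p1 n3.p2
  by_cases z39 : (n + j) ≤ (k + 2 * l)
  · by_cases z40 : (j + k + 2) ≤ (n + 2 * i)
    · have k173 : (n + 2 * i + j + 1) ≤ (2 * Q + k) := by clear * - y5 z39; omega
      have k174 : (k + 1) ≤ (n + j) := by clear * - b2 b5 b7 b9 z40; omega
      obtain ⟨t, ht⟩ : ∃ t, 2 * t = (3 * n + 2 * i + j - k) := ⟨(3 * n + 2 * i + j - k) / 2, by clear * - ev n1p n2p n3p; omega⟩
      clear * - al a1 a2 s1 s2 b tt c u1 u2 d1 d2 n1 n2 n3 z40 z39 k173 k174 ht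
      exact al.ninv t (cE (cE (qa s2 al 1 t ((n + i + j) - t) (by omega)) (pb b al (-1) ((n + i + j) - t) ((2 * n + 2 * i + j - k) - t) (by omega))) (sh al 1 ((2 * n + 2 * i + j - k) - t) t (by omega)))
    · by_cases z41 : (j + i2 + l2 + i3 + 3) ≤ (2 * i + k)
      · have k175 : (j + k + i3 + 1) ≤ (2 * Q + i2 + l2) := by clear * - b0 b10; omega
        have k176 : (2 * i + j + k + i3 + 1) ≤ (4 * Q + i2 + l2) := by clear * - b0 b10 b11 b6 b8 z40; omega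
        have k177 : (2 * Q + j + i3) ≤ (2 * i + k + i2 + l2 + 1) := by clear * - b4 b5 b6 b8 z40 z41; omega
        have k178 : (4 * Q + j + i3) ≤ (2 * i + 3 * k + i2 + l2 + 3) := by clear * - b11 b2 b5 b6 b8 z39 z40; omega
        have k179 : (j + 3 * i2 + 3 * l2 + i3 + 5) ≤ (2 * i + 3 * k) := by clear * - b11 b2 b5 b7 b9 z41; omega
        have k180 : (j + i2 + l2 + 3) ≤ (k + i3) := by clear * - b11 ev n1p n2p n3p; omega
        have k181 : (2 * i + j + 3 * i2 + 3 * l2 + 5) ≤ (3 * k + 3 * i3) := by clear * - b11 b4 b5 b9 z40 z41; omega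
        have k182 : (i + j - 2 * n) % 2 = 0 := by clear * - ev n1p n2p n3p; omega
        have k183 : (k + i3 - j - i2 - l2 - 1) % 2 = 0 := by clear * - ev n1p n2p n3p; omega
        clear * - al a1 a2 s1 s2 b tt c u1 u2 d1 d2 n1 n2 n3 k175 k176 k177 k178 z41 k179 k180 k181 k182 k183
        exact midP al (k + i3 - j - i2 - l2 - 1) (i + j - 2 * n) (max (i + j - n - Q + 1) (max (Q + j - n - k) (max (i + j + i2 + l2 - n - k - i3 + 2) (j + i2 + l2 - n - k + 2)))) (max (Q + j - n - k) (j + i2 + l2 - n - k + 2)) (min (Q - n) (k + i3 - n - i2 - l2 - 1)) (by omega) (fun t h1 h2 => (cE (ab s2 al (-1) t ((i + j - n) - t) (by omega)) (sh al (-1) ((i + j - n) - t) ((i + j - 2 * n) - t) (by omega)))) (fun t h1 h2 => (cE (cE (qf a2 al (-1) t (t + (n + k - j)) (by omega)) (pb d1 al 0 (t + (n + k - j)) (t + (n + k + i3 - j - i2 - l2 - 1)) (by omega))) (sh al (-1) (t + (n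 + k + i3 - j - i2 - l2 - 1)) (t + (k + i3 - j - i2 - l2 - 1)) (by omega))))
      · have k184 : (l + i2 + 3) ≤ (n + i) := by clear * - b11 b2 b5 b6 b9 z39 z40; omega
        have k185 : (2 * Q + l + 1) ≤ (n + i + i2) := by clear * - b11 b2 b5 b6 b8 z40; omega
        have k186 : (i + 2 * k + l + 3) ≤ (n + 2 * Q + i2) := by clear * - b10 b6 y10 z39 z41; omega
        have k187 : (n + i) ≤ (l + i2 + 2 * l2 + 2) := by clear * - b10 b6 z39 z41; omega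
        have k188 : (n + i + i2) ≤ (2 * k + l) := by clear * - b11 b2 b5 b6 b9 z39 z40; omega
        have k189 : (n + 2 * j + i2) ≤ (i + 2 * k + l) := by clear * - b10 b11 b6 z39; omega
        obtain ⟨t, ht⟩ : ∃ t, 2 * t = (n + i + 2 * k + l - i2 + 1) := ⟨(n + i + 2 * k + l - i2 + 1) / 2, by clear * - ev n1p n2p n3p; omega⟩
        clear * - al a1 a2 s1 s2 b tt c u1 u2 d1 d2 n1 n2 n3 k184 k185 k186 k187 k188 k189 ht
        exact al.ninv t (cE (cI (cE (pb c al 1 t (t + (i2 - k - l - 1)) (by omega)) (pb a2 al 0 (t + (i2 - k - l - 1)) (t + (j + i2 - 2 * k - l - 1)) (by omega))) (ab s2 al 0 (t + (j + i2 - 2 * k - l - 1)) ((i + 2 * k + l - i2 + 1) - t) (by omega))) (sh al 1 ((i + 2 * k + l - i2 + 1) - t) t (by omega)))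
  · by_cases z42 : (i + k + 2 * l + 4) ≤ (n + 2 * i2)
    · by_cases z43 : (n + i + 2 * i2 + 2) ≤ (2 * Q + k)
      · have k190 : (n + i) ≤ (k + 2 * l2) := by clear * - b4 b5 b7 b8 z39 z43; omega
        have k191 : (n + i + 2 * i2 + 1) ≤ (2 * Q + k) := by clear * - z43; omega
        have k192 : (k + 1) ≤ (n + i) := by clear * - b8 z42 z43; omega
        obtain ⟨t, ht⟩ : ∃ t, 2 * t = (n + i + 2 * i2 - k) := ⟨(n + i + 2 * i2 - k) / 2, by clear * - ev n1p n2p n3p; omega⟩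
        clear * - al a1 a2 s1 s2 b tt c u1 u2 d1 d2 n1 n2 n3 z42 k190 k191 k192 ht
        exact al.ninv t (cE (qa tt al 0 t ((i + l + i2 + 1) - t) (by omega)) (pb c al 0 ((i + l + i2 + 1) - t) t (by omega)))
      · by_cases z44 : (i + j + l + l2 + 3) ≤ (k + i3)
        · have k193 : (j + l2 + i3 + 2) ≤ (i + k + l) := by clear * - b0 b10 b11 b7 b8 y10 z39; omega
          have k194 : (i + j + l + l2 + 4) ≤ (k + i3) := by clear * - z44 ev n1p n2p n3p; omega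
          have k195 : (i + l + 2 * i2 + l2 + 4) ≤ (j + k + i3) := by clear * - b6 b7 z44; omega
          have k196 : (i + k + l + i3 + 1) ≤ (2 * Q + j + l2) := by clear * - b0 b10 b7 z39; omega
          have k197 : (2 * Q + j + i3) ≤ (i + k + l + 2 * i2 + l2 + 3) := by clear * - b0 b10 b11 b7 b8 z39 z44; omega
          obtain ⟨t, ht⟩ : ∃ t, 2 * t = (i + k + l + 2 * i2 + l2 - j - i3 + 2) := ⟨(i + k + l + 2 * i2 + l2 - j - i3 + 2) / 2, by clear * - ev n1p n2p n3p; omega⟩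
          clear * - al a1 a2 s1 s2 b tt c u1 u2 d1 d2 n1 n2 n3 k193 k194 k195 k196 k197 ht
          exact al.ninv t (cE (cI (pb d1 al 0 t (t + (i3 - i2 - l2 - 1)) (by omega)) (qa tt al 0 (t + (i3 - i2 - l2 - 1)) ((i + l + 2 * i2 + l2 - i3 + 2) - t) (by omega))) (qf a2 al 0 ((i + l + 2 * i2 + l2 - i3 + 2) - t) t (by omega)))
        · by_cases z45 : (2 * k + 1) ≤ (n + Q + j)
          · by_cases z46 : (j + i2 + l2 + i3 + 3) ≤ (2 * i + k)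
            · have k198 : (j + k + i3 + 1) ≤ (2 * Q + i2 + l2) := by clear * - b10 b11 z45; omega
              have k199 : (2 * i + j + k + i3 + 1) ≤ (4 * Q + i2 + l2) := by clear * - b10 b11 b7 z42 z44 z45; omega
              have k200 : (2 * Q + j + i3) ≤ (2 * i + k + i2 + l2 + 1) := by clear * - b10 b11 b7 z39 z43 z44 z45; omega
              have k201 : (4 * Q + j + i3) ≤ (2 * i + 3 * k + i2 + l2 + 3) := by clear * - b10 b11 b7 z39 z43 z44 z45; omega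
              have k202 : (j + 3 * i2 + 3 * l2 + i3 + 5) ≤ (2 * i + 3 * k) := by clear * - b11 b7 z42 z44 z46; omega
              have k203 : (j + i2 + l2 + 3) ≤ (k + i3) := by clear * - b11 ev n1p n2p n3p; omega
              have k204 : (2 * i + j + 3 * i2 + 3 * l2 + 5) ≤ (3 * k + 3 * i3) := by clear * - b11 b7 z42 z44; omega
              have k205 : (2 * n + i + j) % 2 = 0 := by clear * - ev n1p n2p n3p; omega
              have k206 : (k + i3 - j - i2 - l2 - 1) % 2 = 0 := by clear * - ev n1p n2p n3p; omega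
              clear * - al a1 a2 s1 s2 b tt c u1 u2 d1 d2 n1 n2 n3 k198 k199 k200 k201 z46 k202 k203 k204 k205 k206
              exact midP al (k + i3 - j - i2 - l2 - 1) (2 * n + i + j) (max (n + i + j - Q + 1) (max (n + Q + j - k) (max (n + i + j + i2 + l2 - k - i3 + 2) (n + j + i2 + l2 - k + 2)))) (max (n + Q + j - k) (n + j + i2 + l2 - k + 2)) (min (n + Q) (n + k + i3 - i2 - l2 - 1)) (by omega) (fun t h1 h2 => (cE (ab s2 al 1 t ((n + i + j) - t) (by omega)) (sh al 1 ((n + i + j) - t) ((2 * n + i + j) - t) (by omega)))) (fun t h1 h2 => (cE (cE (qf a2 al 1 t (t + (k - n - j)) (by omega)) (pb d1 al 0 (t + (k - n - j)) (t + (k + i3 - n - j - i2 - l2 - 1)) (by omega))) (sh al 1 (t + (k + i3 - n - j - i2 - l2 - 1)) (t + (k + i3 - j - i2 - l2 - 1)) (by omega))))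
            · have k207 : (i + 2 * k + l + 3) ≤ (n + 2 * Q + i2) := by clear * - b10 b11 y10 z45 z46; omega
              have k208 : (n + i) ≤ (l + i2 + 2 * l2 + 1) := by clear * - b10 b11 z44 z46 ev n1p n2p n3p; omega
              have k209 : (n + i + i2 + 1) ≤ (2 * k + l) := by clear * - b10 b11 b7 z42 z44; omega
              have k210 : (n + 2 * j + i2) ≤ (i + 2 * k + l) := by clear * - b10 b11 z44; omega
              have k211 : (l + i2 + 2) ≤ (n + i) := by clear * - b10 b11 b7 z39 z43 z44 z45; omega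
              have k212 : (2 * Q + l) ≤ (n + i + i2) := by clear * - b10 b11 b7 z39 z43 z44 z45; omega
              obtain ⟨t, ht⟩ : ∃ t, 2 * t = (n + i + 2 * j + i2 - 2 * k - l - 1) := ⟨(n + i + 2 * j + i2 - 2 * k - l - 1) / 2, by clear * - ev n1p n2p n3p; omega⟩
              clear * - al a1 a2 s1 s2 b tt c u1 u2 d1 d2 n1 n2 n3 k207 k208 k209 k210 k211 k212 ht
              exact al.ninv t (cE (cE (ab s2 al 0 t ((i + j) - t) (by omega)) (pb c al 0 ((i + j) - t) ((n + i + j + i2 - k - l - 1) - t) (by omega))) (pb a2 al 0 ((n + i + j + i2 - k - l - 1) - t) t (by omega)))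
          · have k213 : (j + k + i3 + 1) ≤ (2 * Q + i2 + l2) := by clear * - b0 b10; omega
            have k214 : (k + i3) ≤ (2 * i + j + i2 + l2 + 1) := by clear * - b5 b9 y10 z44 z45; omega
            have k215 : (j + i2 + l2 + i3 + 3) ≤ (2 * i + k) := by clear * - b11 y10 z44 z45; omega
            have k216 : (j + i2 + l2 + 3) ≤ (k + i3) := by clear * - b0 b9 z45; omega
            have k217 : (k + i3) ≤ (2 * i + 3 * j + i2 + l2 + 3) := by clear * - b11 b5 b7 y10 z39 z42 z43 z44 z45; omega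
            have k218 : (j + 3 * i2 + 3 * l2 + i3 + 5) ≤ (2 * i + 3 * k) := by clear * - b11 b7 y10 z42 z44 z45; omega
            have k219 : (2 * i + j + 3 * i2 + 3 * l2 + 5) ≤ (3 * k + 3 * i3) := by clear * - b11 b7 z42 z44; omega
            have k220 : (2 * i + j + k + i3 + 1) ≤ (4 * Q + i2 + l2) := by clear * - b0 b7 z39 z42 z43 z44 z45; omega
            have k221 : (2 * n + i + j) % 2 = 0 := by clear * - ev n1p n2p n3p; omega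
            have k222 : (k + i3 - j - i2 - l2 - 1) % 2 = 0 := by clear * - ev n1p n2p n3p; omega
            clear * - al a1 a2 s1 s2 b tt c u1 u2 d1 d2 n1 n2 n3 k213 k214 k215 k216 k217 k218 k219 k220 k221 k222
            exact midP al (k + i3 - j - i2 - l2 - 1) (2 * n + i + j) (max (n + i + j - Q + 1) (max (n + i + j + i2 + l2 - k - i3 + 2) (max (n + j + i2 + l2 - k + 2) (max (n + j + 1) (n))))) (max (n + j + i2 + l2 - k + 2) (n)) (min (n + Q) (n + k + i3 - i2 - l2 - 1)) (by omega) (fun t h1 h2 => (cE (qa s2 al 1 t ((n + i + j) - t) (by omega)) (sh al 1 ((n + i + j) - t) ((2 * n + i + j) - t) (by omega)))) (fun t h1 h2 => (cE (cE (qf a1 al 1 t (t + (k - n - j)) (by omega)) (pb d1 al 0 (t + (k - n - j)) (t + (k + i3 - n - j - i2 - l2 - 1)) (by omega))) (sh al 1 (t + (k + i3 - n - j - i2 - l2 - 1)) (t + (k + i3 - j - i2 - l2 - 1)) (by omega))))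
    · by_cases z47 : (k + l + i2 + 3) ≤ (n + 2 * i)
      · have k223 : (k + l + 2) ≤ (n + i2) := by clear * - b2 b5 b9; omega
        have k224 : (n + i2) ≤ (2 * i + k + l + 1) := by clear * - y6 z47; omega
        have k225 : (k + l + i2 + 1) ≤ (n + 2 * i + 2 * j) := by clear * - b10 b11 b5 b6 b7 b8 y10; omega
        have k226 : (n) ≤ (k + l + i2 + 2 * l2 + 3) := by clear * - b11 b2 b5 b7 b9 z42; omega
        have k227 : (3 * k + 3 * l + i2 + 5) ≤ (3 * n + 2 * i + 2 * j) := by clear * - b2 b5 b9 z39 z42; omega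
        have k228 : (n + 2 * j) ≤ (k + l + i2 + 2 * l2 + 1) := by clear * - b2 b4 b5 b9 z42; omega
        have k229 : (n + 2 * i + 2 * j) ≤ (k + l + 3 * i2 + 4 * l2 + 3) := by clear * - b2 b4 b5 b7 b9 z42; omega
        have k230 : (i + j) % 2 = 0 := by clear * - ev n1p n2p n3p; omega
        have k231 : (n + i2 - k - l - 1) % 2 = 0 := by clear * - ev n1p n2p n3p; omega
        clear * - al a1 a2 s1 s2 b tt c u1 u2 d1 d2 n1 n2 n3 k223 k224 k225 k226 z47 k227 k228 k229 k230 k231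
        exact midP al (n + i2 - k - l - 1) (i + j) (max (k + l - n + 2) (max (i + j - i2 - l2) (0))) (k + l - n + 2) (i2 + l2 + 1) (by omega) (fun t h1 h2 => (qa s1 al 0 t ((i + j) - t) (by omega))) (fun t h1 h2 => (pb c al 0 t (t + (n + i2 - k - l - 1)) (by omega)))
      · have k232 : (j + k + i3 + 1) ≤ (2 * Q + i2 + l2) := by clear * - b0 b10; omega
        have k233 : (2 * i + j + k + i3 + 1) ≤ (4 * Q + i2 + l2) := by clear * - b0 b10 b11 b7 b8 z39 z47; omega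
        have k234 : (2 * Q + j + i3) ≤ (2 * i + k + i2 + l2 + 1) := by clear * - b10 b11 b6 b8 z47; omega
        have k235 : (4 * Q + j + i3) ≤ (2 * i + 3 * k + i2 + l2 + 3) := by clear * - b10 b11 b6 b8 z47; omega
        have k236 : (j + i2 + l2 + i3 + 3) ≤ (2 * i + k) := by clear * - b10 b11 b8 y10 z39 z42 z47 ev n1p n2p n3p; omega
        have k237 : (j + 3 * i2 + 3 * l2 + i3 + 5) ≤ (2 * i + 3 * k) := by clear * - b10 b11 b6 b7 b8 y10; omega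
        have k238 : (j + i2 + l2 + 3) ≤ (k + i3) := by clear * - b11 ev n1p n2p n3p; omega
        have k239 : (2 * i + j + 3 * i2 + 3 * l2 + 5) ≤ (3 * k + 3 * i3) := by clear * - b11 b6 z47; omega
        have k240 : (i + j) % 2 = 0 := by clear * - ev n1p n2p n3p; omega
        have k241 : (k + i3 - j - i2 - l2 - 1) % 2 = 0 := by clear * - ev n1p n2p n3p; omega
        clear * - al a1 a2 s1 s2 b tt c u1 u2 d1 d2 n1 n2 n3 k232 k233 k234 k235 k236 k237 k238 k239 k240 k241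
        exact midP al (k + i3 - j - i2 - l2 - 1) (i + j) (max (i + j - Q + 1) (max (Q + j - k) (max (i + j + i2 + l2 - k - i3 + 2) (j + i2 + l2 - k + 2)))) (max (Q + j - k) (j + i2 + l2 - k + 2)) (min (Q) (k + i3 - i2 - l2 - 1)) (by omega) (fun t h1 h2 => (ab s2 al 0 t ((i + j) - t) (by omega))) (fun t h1 h2 => (cE (qf a2 al 0 t (t + (k - j)) (by omega)) (pb d1 al 0 (t + (k - j)) (t + (k + i3 - j - i2 - l2 - 1)) (by omega))))

theorem l2_10110_15 {W : ℤ → G} {n Q i j k l i2 l2 i3 : ℤ} (al : AL W n Q)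
    {L : ℤ} (mx : ∀ a b g, 0 < g → g < n → Par W a b g → b - a ≤ L) (hL : L ≤ (n - j - 3) ∧ L ≤ (n + Q - k - 3) ∧ L ≤ (n - l - 3) ∧ L ≤ (k - j - 2) ∧ L ≤ (n - l2 - 3) ∧ L ≤ (n + i3 - Q - 2) ∧ L ≤ (i2 + l2 - 1) ∧ L ≤ (n + i3 - i2 - l2 - 3))
    (hy : (0) ≤ (i) ∧ (i) ≤ (j) ∧ (j + 1) ≤ (Q) ∧ (Q) ≤ (k) ∧ (k + 1) ≤ (n) ∧ (i + l + 2) ≤ (Q) ∧ (n) ≤ (k + l + 1) ∧ (0) ≤ (i2) ∧ (i2) ≤ (i + l + 1) ∧ (n) ≤ (k + l + l2 + 2) ∧ (k + l + l2 + 3) ≤ (n + Q) ∧ (Q) ≤ (i2 + l2 + 1) ∧ (i2 + l2 + 2) ≤ (n) ∧ (0) ≤ (i3) ∧ (n + i3) ≤ (k + l + l2 + 2) ∧ (j + 3) ≤ (n) ∧ (k + 3) ≤ (n + Q) ∧ (l + 3) ≤ (n) ∧ (j + 2) ≤ (k) ∧ (l2 + 3) ≤ (n) ∧ (Q + 2) ≤ (n + i3) ∧ (1) ≤ (i2 + l2) ∧ (i2 + l2 + 3) ≤ (n + i3))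
    (a1 : Par W (0) (j) (k - j))
    (a2 : Par W (Q + j - k) (j) (k - j))
    (s1 : Ant W (0) (i) (i + j))
    (s2 : Ant W (j + 1) (Q) (i + j))
    (b : Par W (i + 1) (i + l + 1) (k - i))
    (tt : Ant W (i + l + 2) (Q) (i + l + i2 + 1))
    (c : Par W (i2 + 1) (i2 + l2 + 1) (k + l - n - i2 + 1))
    (u1 : Ant W (0) (i3) (k + l + l2 + i3 - n + 2))
    (u2 : Ant W (k + l + l2 - n + 3) (Q) (k + l + l2 + i3 - n + 2))
    (d1 : Par W (i3 + 1) (Q) (i2 + l2 - i3 + 1))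
    (d2 : Par W (i2 + l2 + 2) (n) (i3 - i2 - l2 - 1))
    (n1 : Nd W (j) (i) (k))
    (n2 : Nd W (i + l + 1) (i2) (k + l - n + 1))
    (n3 : Nd W (k + l + l2 - n + 2) (i3) (i2 + l2 + 1))
    (b0 : (2 * k + 3) ≤ (n + 2 * Q))
    (b1 : (i + k + 2 * l + 1) ≤ (n + 2 * j))
    (b2 : (j + l + l2 + i3 + 3) ≤ (n))
    (b3 : (2 * Q + i2 + l2) ≤ (n + i + j + i3))
    (b4 : (i + 2 * j + 2) ≤ (k))
    (b5 : (n) ≤ (2 * i2 + 2 * l2 + 1))
    (b6 : (k + l + i2 + 3) ≤ (n + i + j))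
    (b7 : (n + i + i2) ≤ (j + k + l + 1))
    (b8 : (2 * Q + k) ≤ (n + 2 * i + l + i2 + 2))
    (b9 : (n + j) ≤ (k + i2 + l2))
    (b10 : (k + i2 + l2 + 1) ≤ (n + j + i3))
    (b11 : (n + j + i3) ≤ (k + i2 + l2 + 1)) : False := by
  have ev := al.ev
  obtain ⟨y0, y1, y2, y3, y4, y5, y6, y7, y8, y9, y10, y11, y12, y13, y14, y15, y16, y17, y18, y19, y20, y21, y22⟩ := id hy
  have n1p := And.intro n1.p1 n1.p2
  have n2p := And.intro n2.p1 n2.p2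
  have n3p := And.intro n3.p1 n3.p2
  by_cases z17 : (k + i3) ≤ (j + i2 + l2 + 1)
  · exact l2_10110_16 al mx hL hy a1 a2 s1 s2 b tt c u1 u2 d1 d2 n1 n2 n3 (by clear * - b0; omega) (by clear * - b2; omega) (by clear * - b3; omega) (by clear * - b4; omega) (by clear * - b6; omega) (by clear * - b7; omega) (by clear * - b8; omega) (by clear * - b9; omega) (by clear * - b10; omega) (by clear * - b11; omega) (by clear * - z17; omega)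
  · exact l2_10110_21 al mx hL hy a1 a2 s1 s2 b tt c u1 u2 d1 d2 n1 n2 n3 (by clear * - b0; omega) (by clear * - b1; omega) (by clear * - b2; omega) (by clear * - b3; omega) (by clear * - b4; omega) (by clear * - b5; omega) (by clear * - b6; omega) (by clear * - b7; omega) (by clear * - b8; omega) (by clear * - b10; omega) (by clear * - b11; omega) (by clear * - z17; omega)

theorem l2_10110_14 {W : ℤ → G} {n Q i j k l i2 l2 i3 : ℤ} (al : AL W n Q)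
    {L : ℤ} (mx : ∀ a b g, 0 < g → g < n → Par W a b g → b - a ≤ L) (hL : L ≤ (n - j - 3) ∧ L ≤ (n + Q - k - 3) ∧ L ≤ (n - l - 3) ∧ L ≤ (k - j - 2) ∧ L ≤ (n - l2 - 3) ∧ L ≤ (n + i3 - Q - 2) ∧ L ≤ (i2 + l2 - 1) ∧ L ≤ (n + i3 - i2 - l2 - 3))
    (hy : (0) ≤ (i) ∧ (i) ≤ (j) ∧ (j + 1) ≤ (Q) ∧ (Q) ≤ (k) ∧ (k + 1) ≤ (n) ∧ (i + l + 2) ≤ (Q) ∧ (n) ≤ (k + l + 1) ∧ (0) ≤ (i2) ∧ (i2) ≤ (i + l + 1) ∧ (n) ≤ (k + l + l2 + 2) ∧ (k + l + l2 + 3) ≤ (n + Q) ∧ (Q) ≤ (i2 + l2 + 1) ∧ (i2 + l2 + 2) ≤ (n) ∧ (0) ≤ (i3) ∧ (n + i3) ≤ (k + l + l2 + 2) ∧ (j + 3) ≤ (n) ∧ (k + 3) ≤ (n + Q) ∧ (l + 3) ≤ (n) ∧ (j + 2) ≤ (k) ∧ (l2 + 3) ≤ (n) ∧ (Q + 2) ≤ (n + i3) ∧ (1) ≤ (i2 + l2) ∧ (i2 + l2 + 3) ≤ (n + i3))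
    (a1 : Par W (0) (j) (k - j))
    (a2 : Par W (Q + j - k) (j) (k - j))
    (s1 : Ant W (0) (i) (i + j))
    (s2 : Ant W (j + 1) (Q) (i + j))
    (b : Par W (i + 1) (i + l + 1) (k - i))
    (tt : Ant W (i + l + 2) (Q) (i + l + i2 + 1))
    (c : Par W (i2 + 1) (i2 + l2 + 1) (k + l - n - i2 + 1))
    (u1 : Ant W (0) (i3) (k + l + l2 + i3 - n + 2))
    (u2 : Ant W (k + l + l2 - n + 3) (Q) (k + l + l2 + i3 - n + 2))
    (d1 : Par W (i3 + 1) (Q) (i2 + l2 - i3 + 1))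
    (d2 : Par W (i2 + l2 + 2) (n) (i3 - i2 - l2 - 1))
    (n1 : Nd W (j) (i) (k))
    (n2 : Nd W (i + l + 1) (i2) (k + l - n + 1))
    (n3 : Nd W (k + l + l2 - n + 2) (i3) (i2 + l2 + 1))
    (b0 : (2 * k + 3) ≤ (n + 2 * Q))
    (b1 : (i + k + 2 * l + 1) ≤ (n + 2 * j))
    (b2 : (j + l + l2 + i3 + 3) ≤ (n))
    (b3 : (2 * Q + i2 + l2) ≤ (n + i + j + i3))
    (b4 : (i + 2 * j + 2) ≤ (k))
    (b5 : (n) ≤ (2 * i2 + 2 * l2 + 1))
    (b6 : (k + l + i2 + 3) ≤ (n + i + j))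
    (b7 : (n + i + i2) ≤ (j + k + l + 1))
    (b8 : (2 * Q + k) ≤ (n + 2 * i + l + i2 + 2))
    (b9 : (n + j) ≤ (k + i2 + l2))
    (b10 : (k + i2 + l2 + 1) ≤ (n + j + i3)) : False := by
  have ev := al.ev
  obtain ⟨y0, y1, y2, y3, y4, y5, y6, y7, y8, y9, y10, y11, y12, y13, y14, y15, y16, y17, y18, y19, y20, y21, y22⟩ := id hy
  have n1p := And.intro n1.p1 n1.p2
  have n2p := And.intro n2.p1 n2.p2
  have n3p := And.intro n3.p1 n3.p2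
  by_cases z16 : (k + i2 + l2 + 2) ≤ (n + j + i3)
  · have k45 : (j + i3) ≤ (k + i2 + l2) := by clear * - b0 b2 b5 b6 b7 b8 b9 z16; omega
    have k46 : (j + i3 + 1) ≤ (k) := by clear * - b0 b2 b6 b7 b8 b9 z16; omega
    have k47 : (n + i3) ≤ (k + i2 + l2 + 1) := by clear * - b2 b5 b6 b7 y6; omega
    clear * - al a1 a2 s1 s2 b tt c u1 u2 d1 d2 n1 n2 n3 z16 k45 k46 k47
    exact al.ubP (n + j + i3 - k - i2 - l2 - 1) (by omega) (by omega) fun t h1 h2 => (cE (qf d2 al (-1) t (t + (n + i3 - i2 - l2 - 1)) (by omega)) (pb a1 al 0 (t + (n + i3 - i2 - l2 - 1)) (t + (n + j + i3 - k - i2 - l2 - 1)) (by omega)))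
  · exact l2_10110_15 al mx hL hy a1 a2 s1 s2 b tt c u1 u2 d1 d2 n1 n2 n3 (by clear * - b0; omega) (by clear * - b1; omega) (by clear * - b2; omega) (by clear * - b3; omega) (by clear * - b4; omega) (by clear * - b5; omega) (by clear * - b6; omega) (by clear * - b7; omega) (by clear * - b8; omega) (by clear * - b9; omega) (by clear * - b10; omega) (by clear * - z16; omega)

theorem l2_10110_13 {W : ℤ → G} {n Q i j k l i2 l2 i3 : ℤ} (al : AL W n Q)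
    {L : ℤ} (mx : ∀ a b g, 0 < g → g < n → Par W a b g → b - a ≤ L) (hL : L ≤ (n - j - 3) ∧ L ≤ (n + Q - k - 3) ∧ L ≤ (n - l - 3) ∧ L ≤ (k - j - 2) ∧ L ≤ (n - l2 - 3) ∧ L ≤ (n + i3 - Q - 2) ∧ L ≤ (i2 + l2 - 1) ∧ L ≤ (n + i3 - i2 - l2 - 3))
    (hy : (0) ≤ (i) ∧ (i) ≤ (j) ∧ (j + 1) ≤ (Q) ∧ (Q) ≤ (k) ∧ (k + 1) ≤ (n) ∧ (i + l + 2) ≤ (Q) ∧ (n) ≤ (k + l + 1) ∧ (0) ≤ (i2) ∧ (i2) ≤ (i + l + 1) ∧ (n) ≤ (k + l + l2 + 2) ∧ (k + l + l2 + 3) ≤ (n + Q) ∧ (Q) ≤ (i2 + l2 + 1) ∧ (i2 + l2 + 2) ≤ (n) ∧ (0) ≤ (i3) ∧ (n + i3) ≤ (k + l + l2 + 2) ∧ (j + 3) ≤ (n) ∧ (k + 3) ≤ (n + Q) ∧ (l + 3) ≤ (n) ∧ (j + 2) ≤ (k) ∧ (l2 + 3) ≤ (n) ∧ (Q + 2) ≤ (n + i3) ∧ (1) ≤ (i2 + l2) ∧ (i2 + l2 + 3) ≤ (n + i3))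
    (a1 : Par W (0) (j) (k - j))
    (a2 : Par W (Q + j - k) (j) (k - j))
    (s1 : Ant W (0) (i) (i + j))
    (s2 : Ant W (j + 1) (Q) (i + j))
    (b : Par W (i + 1) (i + l + 1) (k - i))
    (tt : Ant W (i + l + 2) (Q) (i + l + i2 + 1))
    (c : Par W (i2 + 1) (i2 + l2 + 1) (k + l - n - i2 + 1))
    (u1 : Ant W (0) (i3) (k + l + l2 + i3 - n + 2))
    (u2 : Ant W (k + l + l2 - n + 3) (Q) (k + l + l2 + i3 - n + 2))
    (d1 : Par W (i3 + 1) (Q) (i2 + l2 - i3 + 1))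
    (d2 : Par W (i2 + l2 + 2) (n) (i3 - i2 - l2 - 1))
    (n1 : Nd W (j) (i) (k))
    (n2 : Nd W (i + l + 1) (i2) (k + l - n + 1))
    (n3 : Nd W (k + l + l2 - n + 2) (i3) (i2 + l2 + 1))
    (b0 : (2 * k + 3) ≤ (n + 2 * Q))
    (b1 : (i + k + 2 * l + 1) ≤ (n + 2 * j))
    (b2 : (j + l + l2 + i3 + 3) ≤ (n))
    (b3 : (2 * Q + i2 + l2) ≤ (n + i + j + i3))
    (b4 : (i + 2 * j + 2) ≤ (k))
    (b5 : (n) ≤ (2 * i2 + 2 * l2 + 1))
    (b6 : (k + l + i2 + 3) ≤ (n + i + j))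
    (b7 : (n + i + i2) ≤ (j + k + l + 1))
    (b8 : (2 * Q + k) ≤ (n + 2 * i + l + i2 + 2))
    (b9 : (n + j) ≤ (k + i2 + l2)) : False := by
  have ev := al.ev
  obtain ⟨y0, y1, y2, y3, y4, y5, y6, y7, y8, y9, y10, y11, y12, y13, y14, y15, y16, y17, y18, y19, y20, y21, y22⟩ := id hy
  have n1p := And.intro n1.p1 n1.p2
  have n2p := And.intro n2.p1 n2.p2
  have n3p := And.intro n3.p1 n3.p2
  by_cases z15 : (n + j + i3) ≤ (k + i2 + l2)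
  · have k42 : (k + i2 + l2 + 2) ≤ (2 * n + j + i3) := by clear * - b0 b2 b3 b5 b7 y22; omega
    have k43 : (k + i2 + l2 + 2) ≤ (n + Q + j) := by clear * - b0 b4 b6 b7 b8 b9 y10; omega
    have k44 : (Q + i2 + l2 + 1) ≤ (n + j + i3) := by clear * - b0 b2 b3 b5 b7 y13; omega
    clear * - al a1 a2 s1 s2 b tt c u1 u2 d1 d2 n1 n2 n3 z15 k42 k43 k44
    exact al.ubQ (k + i2 + l2 - n - j - i3 + 1) (by omega) (by omega) fun t h1 h2 => (cE (sh al 1 t (t + (n)) (by omega)) (cE (qf d1 al 1 (t + (n)) (t + (i2 + l2 - i3 + 1)) (by omega)) (qf a2 al 1 (t + (i2 + l2 - i3 + 1)) (t + (k + i2 + l2 - n - j - i3 + 1)) (by omega))))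
  · exact l2_10110_14 al mx hL hy a1 a2 s1 s2 b tt c u1 u2 d1 d2 n1 n2 n3 (by clear * - b0; omega) (by clear * - b1; omega) (by clear * - b2; omega) (by clear * - b3; omega) (by clear * - b4; omega) (by clear * - b5; omega) (by clear * - b6; omega) (by clear * - b7; omega) (by clear * - b8; omega) (by clear * - b9; omega) (by clear * - z15; omega)

theorem l2_10110_12 {W : ℤ → G} {n Q i j k l i2 l2 i3 : ℤ} (al : AL W n Q)
    {L : ℤ} (mx : ∀ a b g, 0 < g → g < n → Par W a b g → b - a ≤ L) (hL : L ≤ (n - j - 3) ∧ L ≤ (n + Q - k - 3) ∧ L ≤ (n - l - 3) ∧ L ≤ (k - j - 2) ∧ L ≤ (n - l2 - 3) ∧ L ≤ (n + i3 - Q - 2) ∧ L ≤ (i2 + l2 - 1) ∧ L ≤ (n + i3 - i2 - l2 - 3))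
    (hy : (0) ≤ (i) ∧ (i) ≤ (j) ∧ (j + 1) ≤ (Q) ∧ (Q) ≤ (k) ∧ (k + 1) ≤ (n) ∧ (i + l + 2) ≤ (Q) ∧ (n) ≤ (k + l + 1) ∧ (0) ≤ (i2) ∧ (i2) ≤ (i + l + 1) ∧ (n) ≤ (k + l + l2 + 2) ∧ (k + l + l2 + 3) ≤ (n + Q) ∧ (Q) ≤ (i2 + l2 + 1) ∧ (i2 + l2 + 2) ≤ (n) ∧ (0) ≤ (i3) ∧ (n + i3) ≤ (k + l + l2 + 2) ∧ (j + 3) ≤ (n) ∧ (k + 3) ≤ (n + Q) ∧ (l + 3) ≤ (n) ∧ (j + 2) ≤ (k) ∧ (l2 + 3) ≤ (n) ∧ (Q + 2) ≤ (n + i3) ∧ (1) ≤ (i2 + l2) ∧ (i2 + l2 + 3) ≤ (n + i3))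
    (a1 : Par W (0) (j) (k - j))
    (a2 : Par W (Q + j - k) (j) (k - j))
    (s1 : Ant W (0) (i) (i + j))
    (s2 : Ant W (j + 1) (Q) (i + j))
    (b : Par W (i + 1) (i + l + 1) (k - i))
    (tt : Ant W (i + l + 2) (Q) (i + l + i2 + 1))
    (c : Par W (i2 + 1) (i2 + l2 + 1) (k + l - n - i2 + 1))
    (u1 : Ant W (0) (i3) (k + l + l2 + i3 - n + 2))
    (u2 : Ant W (k + l + l2 - n + 3) (Q) (k + l + l2 + i3 - n + 2))
    (d1 : Par W (i3 + 1) (Q) (i2 + l2 - i3 + 1))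
    (d2 : Par W (i2 + l2 + 2) (n) (i3 - i2 - l2 - 1))
    (n1 : Nd W (j) (i) (k))
    (n2 : Nd W (i + l + 1) (i2) (k + l - n + 1))
    (n3 : Nd W (k + l + l2 - n + 2) (i3) (i2 + l2 + 1))
    (b0 : (Q + j + 1) ≤ (k + i3))
    (b1 : (2 * k + 3) ≤ (n + 2 * Q))
    (b2 : (i + k + 2 * l + 1) ≤ (n + 2 * j))
    (b3 : (j + l + l2 + i3 + 3) ≤ (n))
    (b4 : (2 * Q + i2 + l2) ≤ (n + i + j + i3))
    (b5 : (i + 2 * j + 2) ≤ (k))
    (b6 : (n) ≤ (2 * i2 + 2 * l2 + 1))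
    (b7 : (k + l + i2 + 3) ≤ (n + i + j))
    (b8 : (n + i + i2) ≤ (j + k + l + 1))
    (b9 : (2 * Q + k) ≤ (n + 2 * i + l + i2 + 2)) : False := by
  have ev := al.ev
  obtain ⟨y0, y1, y2, y3, y4, y5, y6, y7, y8, y9, y10, y11, y12, y13, y14, y15, y16, y17, y18, y19, y20, y21, y22⟩ := id hy
  have n1p := And.intro n1.p1 n1.p2
  have n2p := And.intro n2.p1 n2.p2
  have n3p := And.intro n3.p1 n3.p2
  by_cases z14 : (k + i2 + l2 + 1) ≤ (n + j)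
  · have k39 : (i3) ≤ (i2 + l2) := by clear * - b1 b3 b6 b7 b8 b9 y18; omega
    have k40 : (i2 + l2 + 2) ≤ (n + i3) := by clear * - y22; omega
    have k41 : L ≤ (k - j - 2) := by clear * - hL; omega
    clear * - al a1 a2 s1 s2 b tt c u1 u2 d1 d2 n1 n2 n3 mx k39 k40 z14 k41
    exact absurd (mx (n + i3 + 1) (2 * n + i3 - i2 - l2 - 1) (i2 + l2 - i3 + 1) (by omega) (by omega) fun t h1 h2 => (cE (pb d2 al 1 t (t + (i2 + l2 - n - i3 + 1)) (by omega)) (sh al 1 (t + (i2 + l2 - n - i3 + 1)) (t + (i2 + l2 - i3 + 1)) (by omega)))) (by omega)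
  · exact l2_10110_13 al mx hL hy a1 a2 s1 s2 b tt c u1 u2 d1 d2 n1 n2 n3 (by clear * - b1; omega) (by clear * - b2; omega) (by clear * - b3; omega) (by clear * - b4; omega) (by clear * - b5; omega) (by clear * - b6; omega) (by clear * - b7; omega) (by clear * - b8; omega) (by clear * - b9; omega) (by clear * - z14; omega)

theorem l2_10110_11 {W : ℤ → G} {n Q i j k l i2 l2 i3 : ℤ} (al : AL W n Q)
    {L : ℤ} (mx : ∀ a b g, 0 < g → g < n → Par W a b g → b - a ≤ L) (hL : L ≤ (n - j - 3) ∧ L ≤ (n + Q - k - 3) ∧ L ≤ (n - l - 3) ∧ L ≤ (k - j - 2) ∧ L ≤ (n - l2 - 3) ∧ L ≤ (n + i3 - Q - 2) ∧ L ≤ (i2 + l2 - 1) ∧ L ≤ (n + i3 - i2 - l2 - 3))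
    (hy : (0) ≤ (i) ∧ (i) ≤ (j) ∧ (j + 1) ≤ (Q) ∧ (Q) ≤ (k) ∧ (k + 1) ≤ (n) ∧ (i + l + 2) ≤ (Q) ∧ (n) ≤ (k + l + 1) ∧ (0) ≤ (i2) ∧ (i2) ≤ (i + l + 1) ∧ (n) ≤ (k + l + l2 + 2) ∧ (k + l + l2 + 3) ≤ (n + Q) ∧ (Q) ≤ (i2 + l2 + 1) ∧ (i2 + l2 + 2) ≤ (n) ∧ (0) ≤ (i3) ∧ (n + i3) ≤ (k + l + l2 + 2) ∧ (j + 3) ≤ (n) ∧ (k + 3) ≤ (n + Q) ∧ (l + 3) ≤ (n) ∧ (j + 2) ≤ (k) ∧ (l2 + 3) ≤ (n) ∧ (Q + 2) ≤ (n + i3) ∧ (1) ≤ (i2 + l2) ∧ (i2 + l2 + 3) ≤ (n + i3))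
    (a1 : Par W (0) (j) (k - j))
    (a2 : Par W (Q + j - k) (j) (k - j))
    (s1 : Ant W (0) (i) (i + j))
    (s2 : Ant W (j + 1) (Q) (i + j))
    (b : Par W (i + 1) (i + l + 1) (k - i))
    (tt : Ant W (i + l + 2) (Q) (i + l + i2 + 1))
    (c : Par W (i2 + 1) (i2 + l2 + 1) (k + l - n - i2 + 1))
    (u1 : Ant W (0) (i3) (k + l + l2 + i3 - n + 2))
    (u2 : Ant W (k + l + l2 - n + 3) (Q) (k + l + l2 + i3 - n + 2))
    (d1 : Par W (i3 + 1) (Q) (i2 + l2 - i3 + 1))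
    (d2 : Par W (i2 + l2 + 2) (n) (i3 - i2 - l2 - 1))
    (n1 : Nd W (j) (i) (k))
    (n2 : Nd W (i + l + 1) (i2) (k + l - n + 1))
    (n3 : Nd W (k + l + l2 - n + 2) (i3) (i2 + l2 + 1))
    (b0 : (Q + j + 1) ≤ (k + i3))
    (b1 : (2 * k + 3) ≤ (n + 2 * Q))
    (b2 : (i + k + 2 * l + 1) ≤ (n + 2 * j))
    (b3 : (j + l + l2 + i3 + 3) ≤ (n))
    (b4 : (2 * Q + i2 + l2) ≤ (n + i + j + i3))
    (b5 : (i + 2 * j + 2) ≤ (k))
    (b6 : (n) ≤ (2 * i2 + 2 * l2 + 1))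
    (b7 : (k + l + i2 + 3) ≤ (n + i + j))
    (b8 : (n + i + i2) ≤ (j + k + l + 1)) : False := by
  have ev := al.ev
  obtain ⟨y0, y1, y2, y3, y4, y5, y6, y7, y8, y9, y10, y11, y12, y13, y14, y15, y16, y17, y18, y19, y20, y21, y22⟩ := id hy
  have n1p := And.intro n1.p1 n1.p2
  have n2p := And.intro n2.p1 n2.p2
  have n3p := And.intro n3.p1 n3.p2
  by_cases z13 : (n + 2 * i + l + i2 + 3) ≤ (2 * Q + k)
  · have k31 : (k + l + i2 + 3) ≤ (n + 2 * Q) := by clear * - b1 b7 y18 z13; omega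
    have k32 : (n + 2 * i + l + i2 + 1) ≤ (2 * Q + k + 2 * l2) := by clear * - b1 b5 b6 b7 b8 y18 z13; omega
    have k33 : (k + l + 3) ≤ (n + i2) := by clear * - y10 y11 ev n1p n2p n3p; omega
    have k34 : (3 * k + l + 3) ≤ (3 * n + 2 * i + i2) := by clear * - b1 b3 b4 b6 y8; omega
    have k35 : (n + 2 * i + l + 1) ≤ (k + i2 + 2 * l2) := by clear * - y11 z13; omega
    have k36 : (n + 2 * i + l) ≤ (k + i2 + 4 * l2 + 1) := by clear * - b1 b2 b3 b4 b5 b6 b7 b8; omega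
    have k37 : (2 * n + i + l + i2 + 1) % 2 = 0 := by clear * - ev n1p n2p n3p; omega
    have k38 : (n + i2 - k - l - 1) % 2 = 0 := by clear * - ev n1p n2p n3p; omega
    clear * - al a1 a2 s1 s2 b tt c u1 u2 d1 d2 n1 n2 n3 z13 k31 k32 k33 k34 k35 k36 k37 k38
    exact midP al (n + i2 - k - l - 1) (2 * n + i + l + i2 + 1) (max (n + i + l + i2 - Q + 2) (max (n + i + l - l2 + 1) (k + l + 2))) (k + l + 2) (n + i2 + l2 + 1) (by omega) (fun t h1 h2 => (cE (ab tt al 1 t ((n + i + l + i2 + 1) - t) (by omega)) (sh al 1 ((n + i + l + i2 + 1) - t) ((2 * n + i + l + i2 + 1) - t) (by omega)))) (fun t h1 h2 => (cE (pb c al 1 t (t + (i2 - k - l - 1)) (by omega)) (sh al 1 (t + (i2 - k - l - 1)) (t + (n + i2 - k - l - 1)) (by omega))))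
  · exact l2_10110_12 al mx hL hy a1 a2 s1 s2 b tt c u1 u2 d1 d2 n1 n2 n3 (by clear * - b0; omega) (by clear * - b1; omega) (by clear * - b2; omega) (by clear * - b3; omega) (by clear * - b4; omega) (by clear * - b5; omega) (by clear * - b6; omega) (by clear * - b7; omega) (by clear * - b8; omega) (by clear * - z13; omega)

theorem l2_10110_10 {W : ℤ → G} {n Q i j k l i2 l2 i3 : ℤ} (al : AL W n Q)
    {L : ℤ} (mx : ∀ a b g, 0 < g → g < n → Par W a b g → b - a ≤ L) (hL : L ≤ (n - j - 3) ∧ L ≤ (n + Q - k - 3) ∧ L ≤ (n - l - 3) ∧ L ≤ (k - j - 2) ∧ L ≤ (n - l2 - 3) ∧ L ≤ (n + i3 - Q - 2) ∧ L ≤ (i2 + l2 - 1) ∧ L ≤ (n + i3 - i2 - l2 - 3))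
    (hy : (0) ≤ (i) ∧ (i) ≤ (j) ∧ (j + 1) ≤ (Q) ∧ (Q) ≤ (k) ∧ (k + 1) ≤ (n) ∧ (i + l + 2) ≤ (Q) ∧ (n) ≤ (k + l + 1) ∧ (0) ≤ (i2) ∧ (i2) ≤ (i + l + 1) ∧ (n) ≤ (k + l + l2 + 2) ∧ (k + l + l2 + 3) ≤ (n + Q) ∧ (Q) ≤ (i2 + l2 + 1) ∧ (i2 + l2 + 2) ≤ (n) ∧ (0) ≤ (i3) ∧ (n + i3) ≤ (k + l + l2 + 2) ∧ (j + 3) ≤ (n) ∧ (k + 3) ≤ (n + Q) ∧ (l + 3) ≤ (n) ∧ (j + 2) ≤ (k) ∧ (l2 + 3) ≤ (n) ∧ (Q + 2) ≤ (n + i3) ∧ (1) ≤ (i2 + l2) ∧ (i2 + l2 + 3) ≤ (n + i3))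
    (a1 : Par W (0) (j) (k - j))
    (a2 : Par W (Q + j - k) (j) (k - j))
    (s1 : Ant W (0) (i) (i + j))
    (s2 : Ant W (j + 1) (Q) (i + j))
    (b : Par W (i + 1) (i + l + 1) (k - i))
    (tt : Ant W (i + l + 2) (Q) (i + l + i2 + 1))
    (c : Par W (i2 + 1) (i2 + l2 + 1) (k + l - n - i2 + 1))
    (u1 : Ant W (0) (i3) (k + l + l2 + i3 - n + 2))
    (u2 : Ant W (k + l + l2 - n + 3) (Q) (k + l + l2 + i3 - n + 2))
    (d1 : Par W (i3 + 1) (Q) (i2 + l2 - i3 + 1))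
    (d2 : Par W (i2 + l2 + 2) (n) (i3 - i2 - l2 - 1))
    (n1 : Nd W (j) (i) (k))
    (n2 : Nd W (i + l + 1) (i2) (k + l - n + 1))
    (n3 : Nd W (k + l + l2 - n + 2) (i3) (i2 + l2 + 1))
    (b0 : (Q + j + 1) ≤ (k + i3))
    (b1 : (2 * k + 3) ≤ (n + 2 * Q))
    (b2 : (i + k + 2 * l + 1) ≤ (n + 2 * j))
    (b3 : (j + l + l2 + i3 + 3) ≤ (n))
    (b4 : (2 * Q + i2 + l2) ≤ (n + i + j + i3))
    (b5 : (i + 2 * j + 2) ≤ (k))
    (b6 : (n) ≤ (2 * i2 + 2 * l2 + 1))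
    (b7 : (k + l + i2 + 3) ≤ (n + i + j)) : False := by
  have ev := al.ev
  obtain ⟨y0, y1, y2, y3, y4, y5, y6, y7, y8, y9, y10, y11, y12, y13, y14, y15, y16, y17, y18, y19, y20, y21, y22⟩ := id hy
  have n1p := And.intro n1.p1 n1.p2
  have n2p := And.intro n2.p1 n2.p2
  have n3p := And.intro n3.p1 n3.p2
  by_cases z12 : (j + k + l + 2) ≤ (n + i + i2)
  · have k29 : (n + i2) ≤ (i + j + k + l + 1) := by clear * - b7 y6; omega
    have k30 : (n + i + j) ≤ (k + l + i2 + 2 * l2 + 2) := by clear * - b5 b6 y1 y8; omega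
    obtain ⟨t, ht⟩ : ∃ t, 2 * t = (n + i + j + i2 - k - l - 1) := ⟨(n + i + j + i2 - k - l - 1) / 2, by clear * - ev n1p n2p n3p; omega⟩
    clear * - al a1 a2 s1 s2 b tt c u1 u2 d1 d2 n1 n2 n3 b7 k29 k30 z12 ht
    exact al.ninv t (cI (qf c al 0 t (t + (k + l - n - i2 + 1)) (by omega)) (qa s1 al 0 (t + (k + l - n - i2 + 1)) t (by omega)))
  · exact l2_10110_11 al mx hL hy a1 a2 s1 s2 b tt c u1 u2 d1 d2 n1 n2 n3 (by clear * - b0; omega) (by clear * - b1; omega) (by clear * - b2; omega) (by clear * - b3; omega) (by clear * - b4; omega) (by clear * - b5; omega) (by clear * - b6; omega) (by clear * - b7; omega) (by clear * - z12; omega)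

end Pool.Agent.MP_a38735_al.WL
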