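import Pool.Agent.MP_a38735_al.Q2b5
import Pool.Agent.MP_a38735_al.Q2b6

set_option autoImplicit false
set_option linter.unusedVariables false

namespace Pool.Agent.MP_a38735_al.WL

variable {G : Type*} [Group G]

theorem l2_10110_24 {W : ℤ → G} {n Q i j k l i2 l2 i3 : ℤ} (al : AL W n Q)
    {L : ℤ} (mx : ∀ a b g, 0 < g → g < n → Par W a b g → b - a ≤ L) (hL : L ≤ (n - j - 3) ∧ L ≤ (n + Q - k - 3) ∧ L ≤ (n - l - 3) ∧ L ≤ (k - j - 2) ∧ L ≤ (n - l2 - 3) ∧ L ≤ (n + i3 - Q - 2) ∧ L ≤ (i2 + l2 - 1) ∧ L ≤ (n + i3 - i2 - l2 - 3))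
    (hy : (0) ≤ (i) ∧ (i) ≤ (j) ∧ (j + 1) ≤ (Q) ∧ (Q) ≤ (k) ∧ (k + 1) ≤ (n) ∧ (i + l + 2) ≤ (Q) ∧ (n) ≤ (k + l + 1) ∧ (0) ≤ (i2) ∧ (i2) ≤ (i + l + 1) ∧ (n) ≤ (k + l + l2 + 2) ∧ (k + l + l2 + 3) ≤ (n + Q) ∧ (Q) ≤ (i2 + l2 + 1) ∧ (i2 + l2 + 2) ≤ (n) ∧ (0) ≤ (i3) ∧ (n + i3) ≤ (k + l + l2 + 2) ∧ (j + 3) ≤ (n) ∧ (k + 3) ≤ (n + Q) ∧ (l + 3) ≤ (n) ∧ (j + 2) ≤ (k) ∧ (l2 + 3) ≤ (n) ∧ (Q + 2) ≤ (n + i3) ∧ (1) ≤ (i2 + l2) ∧ (i2 + l2 + 3) ≤ (n + i3))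
    (a1 : Par W (0) (j) (k - j))
    (a2 : Par W (Q + j - k) (j) (k - j))
    (s1 : Ant W (0) (i) (i + j))
    (s2 : Ant W (j + 1) (Q) (i + j))
    (b : Par W (i + 1) (i + l + 1) (k - i))
    (tt : Ant W (i + l + 2) (Q) (i + l + i2 + 1))
    (c : Par W (i2 + 1) (i2 + l2 + 1) (k + l - n - i2 + 1))
    (u1 : Ant W (0) (i3) (k + l + l2 + i3 - n + 2))
    (u2 : Ant W (k + l + l2 - n + 3) (Q) (k + l + l2 + i3 - n + 2))
    (d1 : Par W (i3 + 1) (Q) (i2 + l2 - i3 + 1))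
    (d2 : Par W (i2 + l2 + 2) (n) (i3 - i2 - l2 - 1))
    (n1 : Nd W (j) (i) (k))
    (n2 : Nd W (i + l + 1) (i2) (k + l - n + 1))
    (n3 : Nd W (k + l + l2 - n + 2) (i3) (i2 + l2 + 1))
    (b0 : (2 * k + 3) ≤ (n + 2 * Q))
    (b1 : (j + l + l2 + i3 + 3) ≤ (n))
    (b2 : (2 * Q + i2 + l2) ≤ (n + i + j + i3))
    (b3 : (i + 2 * j + 2) ≤ (k))
    (b4 : (n) ≤ (2 * i2 + 2 * l2 + 1))
    (b5 : (n + i + j) ≤ (k + l + i2 + 2))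
    (b6 : (n + j + i3) ≤ (k + i2 + l2 + 1))
    (b7 : (k + 2 * l + 2) ≤ (n + j)) : False := by
  have ev := al.ev
  obtain ⟨y0, y1, y2, y3, y4, y5, y6, y7, y8, y9, y10, y11, y12, y13, y14, y15, y16, y17, y18, y19, y20, y21, y22⟩ := id hy
  have n1p := And.intro n1.p1 n1.p2
  have n2p := And.intro n2.p1 n2.p2
  have n3p := And.intro n3.p1 n3.p2
  by_cases z51 : (j) ≤ (i + l)
  · by_cases z52 : (i + l + 1) ≤ (i2)
    · have k248 : (j + 1) ≤ (i2) := by clear * - z51 z52; omega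
      have k249 : (i2 + 1) ≤ (Q) := by clear * - y5 y8; omega
      have k250 : (k + l + i2 + 1) ≤ (n + i + j) := by clear * - b7 y8; omega
      have k251 : (n + i + j) ≤ (k + l + i2 + 1) := by clear * - b5 ev n1p n2p n3p; omega
      clear * - al a1 a2 s1 s2 b tt c u1 u2 d1 d2 n1 n2 n3 k248 k249 k250 k251 z52 y8
      exact (n2.f4 (qa s2 al 0 (i2) (k + l - n + 1) (by omega))) (sh al 0 (i2) (i + l + 1) (by omega))
    · have k252 : (k + l + l2 + i3 + 3) ≤ (n + i + j) := by clear * - b5 b7 z52 ev n1p n2p n3p; omega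
      have k253 : (i + j) ≤ (k + l + l2 + i3 + 1) := by clear * - b0 b2 b3 b5 b7 y13 y14; omega
      have k254 : (i + j + 1) ≤ (Q) := by clear * - b5 b7 z52 ev n1p n2p n3p; omega
      have k255 : (n + j) ≤ (k + l + l2 + i3 + 2) := by clear * - b5 b7 z52 ev n1p n2p n3p; omega
      clear * - al a1 a2 s1 s2 b tt c u1 u2 d1 d2 n1 n2 n3 k252 k253 k254 y13 k255
      exact al.ubP (n + i + j - k - l - l2 - i3 - 2) (by omega) (by omega) fun t h1 h2 => (cII (ab u2 al 0 t ((k + l + l2 + i3 - n + 2) - t) (by omega)) (ab s1 al 0 ((k + l + l2 + i3 - n + 2) - t) (t + (n + i + j - k - l - l2 - i3 - 2)) (by omega)))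
  · by_cases z53 : (n + i + 2 * i2 + 1) ≤ (2 * Q + k)
    · have k256 : (n + 2 * i + l + i2 + 3) ≤ (2 * Q + k) := by clear * - b5 b7 z53 ev n1p n2p n3p; omega
      have k257 : (k + l + i2 + 3) ≤ (n + 2 * Q) := by clear * - b0 b2 b5 b6 b7 z53; omega
      have k258 : (n + 2 * i + l + i2 + 1) ≤ (2 * Q + k + 2 * l2) := by clear * - b0 b2 b5 b6 b7 y11 z53; omega
      have k259 : (k + l + 3) ≤ (n + i2) := by clear * - b0 b1 b2 b4 b5 b7; omega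
      have k260 : (3 * k + l + 3) ≤ (3 * n + 2 * i + i2) := by clear * - b0 b2 b5 b6 b7; omega
      have k261 : (n + 2 * i + l + 1) ≤ (k + i2 + 2 * l2) := by clear * - b3 b4 y11 z51 z53; omega
      have k262 : (n + 2 * i + l) ≤ (k + i2 + 4 * l2 + 1) := by clear * - b0 b2 b5 b6 b7 y11 z53; omega
      have k263 : (2 * n + i + l + i2 + 1) % 2 = 0 := by clear * - ev n1p n2p n3p; omega
      have k264 : (n + i2 - k - l - 1) % 2 = 0 := by clear * - ev n1p n2p n3p; omega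
      clear * - al a1 a2 s1 s2 b tt c u1 u2 d1 d2 n1 n2 n3 k256 k257 k258 k259 k260 k261 k262 k263 k264
      exact midP al (n + i2 - k - l - 1) (2 * n + i + l + i2 + 1) (max (n + i + l + i2 - Q + 2) (max (n + i + l - l2 + 1) (k + l + 2))) (k + l + 2) (n + i2 + l2 + 1) (by omega) (fun t h1 h2 => (cE (ab tt al 1 t ((n + i + l + i2 + 1) - t) (by omega)) (sh al 1 ((n + i + l + i2 + 1) - t) ((2 * n + i + l + i2 + 1) - t) (by omega)))) (fun t h1 h2 => (cE (pb c al 1 t (t + (i2 - k - l - 1)) (by omega)) (sh al 1 (t + (i2 - k - l - 1)) (t + (n + i2 - k - l - 1)) (by omega))))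
    · by_cases z54 : (n + Q + i3) ≤ (k + i2 + l2 + 2)
      · have k265 : (j + 1) ≤ (k) := by clear * - b6 y22; omega
        have k266 : (k + 1) ≤ (n + j) := by clear * - b0 b2 b5 b7 y14; omega
        have k267 : L ≤ (n + i3 - i2 - l2 - 3) := by clear * - hL; omega
        clear * - al a1 a2 s1 s2 b tt c u1 u2 d1 d2 n1 n2 n3 mx k265 k266 z54 k267
        exact absurd (mx (Q + j - n - k) (j - n) (k - j) (by omega) (by omega) fun t h1 h2 => (cE (qf a2 al (-1) t (t + (n + k - j)) (by omega)) (sh al (-1) (t + (n + k - j)) (t + (k - j)) (by omega)))) (by omega)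
      · by_cases z55 : (j + i2 + l2 + 1) ≤ (k + i3)
        · by_cases z56 : (k + i3) ≤ (j + i2 + l2 + 1)
          · have k268 : (i3 + 1) ≤ (j) := by clear * - b5 b6 y10 y8 z51 z53 z54; omega
            have k269 : (j + i2 + l2 + 2) ≤ (n + i3) := by clear * - b2 b3 b6 z54; omega
            clear * - al a1 a2 s1 s2 b tt c u1 u2 d1 d2 n1 n2 n3 k268 k269 z56 z55
            exact n1.f0 (pb d2 al 0 (j) (k) (by omega))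
          · have k270 : (2 * i + k + 2 * l + i3 + 3) ≤ (2 * Q + j + i2 + l2) := by clear * - b0 b6 z51; omega
            have k271 : (2 * Q + j + i3) ≤ (k + 3 * i2 + l2 + 1) := by clear * - b0 b2 b5 b6 z51; omega
            have k272 : (j + l2 + i3 + 3) ≤ (k + i2) := by clear * - b5 b6 y10 y8 z51 z53 z54 z56; omega
            have k273 : (2 * i + 2 * l + i2 + l2 + 5) ≤ (j + k + i3) := by clear * - z51 z56 ev n1p n2p n3p; omega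
            have k274 : (4 * Q + 3 * j + i3) ≤ (2 * i + 3 * k + 2 * l + 3 * i2 + l2 + 5) := by clear * - b0 b2 b5 b6 y16; omega
            have k275 : (3 * j + i2 + 3 * l2 + i3 + 3) ≤ (2 * i + 3 * k + 2 * l) := by clear * - b5 b6 y10 y8 z51 z53 z54 z56; omega
            have k276 : (2 * i + 2 * l + 5 * i2 + 3 * l2 + 7) ≤ (j + 3 * k + 3 * i3) := by clear * - y8 z51 z56; omega
            have k277 : (2 * i + k + 2 * l + i2 + i3 + 3) ≤ (4 * Q + j + l2) := by clear * - b0 b6 y8 z51 z56; omega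
            have k278 : (i + l + i2 + 1) % 2 = 0 := by clear * - ev n1p n2p n3p; omega
            have k279 : (k + i3 - j - i2 - l2 - 1) % 2 = 0 := by clear * - ev n1p n2p n3p; omega
            clear * - al a1 a2 s1 s2 b tt c u1 u2 d1 d2 n1 n2 n3 z56 k270 k271 k272 k273 k274 k275 k276 k277 k278 k279
            exact midP al (k + i3 - j - i2 - l2 - 1) (i + l + i2 + 1) (max (i + l + i2 - Q + 2) (max (Q + j - k) (max (i + l + 2 * i2 + l2 - k - i3 + 3) (max (i + l + 2) (j + i2 + l2 - k + 2))))) (max (Q + j - k) (j + i2 + l2 - k + 2)) (min (Q) (k + i3 - i2 - l2 - 1)) (by omega) (fun t h1 h2 => (qa tt al 0 t ((i + l + i2 + 1) - t) (by omega))) (fun t h1 h2 => (cE (qf a2 al 0 t (t + (k - j)) (by omega)) (pb d1 al 0 (t + (k - j)) (t + (k + i3 - j - i2 - l2 - 1)) (by omega))))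
        · by_cases z57 : (2 * k + l + i3 + 1) ≤ (n + i + 2 * i2 + l2)
          · have k280 : (i + 2 * i2 + l2 + 1) ≤ (2 * k + l + i3) := by clear * - b2 b5 b6 y14 z51 z54; omega
            have k281 : (n + i + 2 * i2 + l2 + 1) ≤ (Q + 2 * k + l) := by clear * - b2 b5 b6 y10 y8 z51 z54; omega
            have k282 : (n + i + i2) ≤ (Q + k + l) := by clear * - b5 b6 y8 z51 z54; omega
            have k283 : (i2 + 1) ≤ (Q) := by clear * - b6 y8 z51 z54; omega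
            have k284 : (Q + i2 + l2) ≤ (k + l + i3) := by clear * - b2 b5 b6 y8 z51 z54; omega
            have k285 : (n + Q + i + i2) ≤ (2 * k + l + i3 + 1) := by clear * - b2 b3 b5 b6 y13 y8 z51; omega
            clear * - al a1 a2 s1 s2 b tt c u1 u2 d1 d2 n1 n2 n3 z57 k280 k281 k282 k283 k284 k285
            exact al.ubQ (n + i + 2 * i2 + l2 - 2 * k - l - i3) (by omega) (by omega) fun t h1 h2 => (cE (sh al (-1) t (t + (-n)) (by omega)) (cE (cE (qf d1 al (-1) (t + (-n)) (t + (i2 + l2 - i3 + 1)) (by omega)) (pb b al 0 (t + (i2 + l2 - i3 + 1)) (t + (i + i2 + l2 - k - i3 + 1)) (by omega))) (pb c al 0 (t + (i + i2 + l2 - k - i3 + 1)) (t + (n + i + 2 * i2 + l2 - 2 * k - l - i3)) (by omega))))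
          · have k286 : (k + 1) ≤ (n + i) := by clear * - b2 b6 z54 z55; omega
            have k287 : (k + l + i2 + 2) ≤ (n + Q + i) := by clear * - b6 b7 y8 z54; omega
            have k288 : (n + i) ≤ (k + l) := by clear * - b5 z55 z57 ev n1p n2p n3p; omega
            have k289 : (n + 2 * i + 1) ≤ (k + i2) := by clear * - b5 b7 z55 z57 ev n1p n2p n3p; omega
            have k290 : (n + i + j) ≤ (k + l + i2 + 1) := by clear * - b5 ev n1p n2p n3p; omega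
            have k291 : (k + l + i2 + 1) ≤ (n + i + j) := by clear * - b7 y8; omega
            clear * - al a1 a2 s1 s2 b tt c u1 u2 d1 d2 n1 n2 n3 k286 k287 k288 k289 k290 k291
            exact n1.f2 (cI (pb b al (-1) (i) (n + 2 * i - k) (by omega)) (ab tt al 0 (n + 2 * i - k) (j) (by omega)))

theorem l2_10110_23 {W : ℤ → G} {n Q i j k l i2 l2 i3 : ℤ} (al : AL W n Q)
    {L : ℤ} (mx : ∀ a b g, 0 < g → g < n → Par W a b g → b - a ≤ L) (hL : L ≤ (n - j - 3) ∧ L ≤ (n + Q - k - 3) ∧ L ≤ (n - l - 3) ∧ L ≤ (k - j - 2) ∧ L ≤ (n - l2 - 3) ∧ L ≤ (n + i3 - Q - 2) ∧ L ≤ (i2 + l2 - 1) ∧ L ≤ (n + i3 - i2 - l2 - 3))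
    (hy : (0) ≤ (i) ∧ (i) ≤ (j) ∧ (j + 1) ≤ (Q) ∧ (Q) ≤ (k) ∧ (k + 1) ≤ (n) ∧ (i + l + 2) ≤ (Q) ∧ (n) ≤ (k + l + 1) ∧ (0) ≤ (i2) ∧ (i2) ≤ (i + l + 1) ∧ (n) ≤ (k + l + l2 + 2) ∧ (k + l + l2 + 3) ≤ (n + Q) ∧ (Q) ≤ (i2 + l2 + 1) ∧ (i2 + l2 + 2) ≤ (n) ∧ (0) ≤ (i3) ∧ (n + i3) ≤ (k + l + l2 + 2) ∧ (j + 3) ≤ (n) ∧ (k + 3) ≤ (n + Q) ∧ (l + 3) ≤ (n) ∧ (j + 2) ≤ (k) ∧ (l2 + 3) ≤ (n) ∧ (Q + 2) ≤ (n + i3) ∧ (1) ≤ (i2 + l2) ∧ (i2 + l2 + 3) ≤ (n + i3))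
    (a1 : Par W (0) (j) (k - j))
    (a2 : Par W (Q + j - k) (j) (k - j))
    (s1 : Ant W (0) (i) (i + j))
    (s2 : Ant W (j + 1) (Q) (i + j))
    (b : Par W (i + 1) (i + l + 1) (k - i))
    (tt : Ant W (i + l + 2) (Q) (i + l + i2 + 1))
    (c : Par W (i2 + 1) (i2 + l2 + 1) (k + l - n - i2 + 1))
    (u1 : Ant W (0) (i3) (k + l + l2 + i3 - n + 2))
    (u2 : Ant W (k + l + l2 - n + 3) (Q) (k + l + l2 + i3 - n + 2))
    (d1 : Par W (i3 + 1) (Q) (i2 + l2 - i3 + 1))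
    (d2 : Par W (i2 + l2 + 2) (n) (i3 - i2 - l2 - 1))
    (n1 : Nd W (j) (i) (k))
    (n2 : Nd W (i + l + 1) (i2) (k + l - n + 1))
    (n3 : Nd W (k + l + l2 - n + 2) (i3) (i2 + l2 + 1))
    (b0 : (2 * k + 3) ≤ (n + 2 * Q))
    (b1 : (i + k + 2 * l + 1) ≤ (n + 2 * j))
    (b2 : (j + l + l2 + i3 + 3) ≤ (n))
    (b3 : (2 * Q + i2 + l2) ≤ (n + i + j + i3))
    (b4 : (i + 2 * j + 2) ≤ (k))
    (b5 : (n) ≤ (2 * i2 + 2 * l2 + 1))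
    (b6 : (n + i + j) ≤ (k + l + i2 + 2))
    (b7 : (n + j + i3) ≤ (k + i2 + l2 + 1)) : False := by
  have ev := al.ev
  obtain ⟨y0, y1, y2, y3, y4, y5, y6, y7, y8, y9, y10, y11, y12, y13, y14, y15, y16, y17, y18, y19, y20, y21, y22⟩ := id hy
  have n1p := And.intro n1.p1 n1.p2
  have n2p := And.intro n2.p1 n2.p2
  have n3p := And.intro n3.p1 n3.p2
  by_cases z50 : (k + 2 * l + 2) ≤ (n + j)
  · exact l2_10110_24 al mx hL hy a1 a2 s1 s2 b tt c u1 u2 d1 d2 n1 n2 n3 (by clear * - b0; omega) (by clear * - b2; omega) (by clear * - b3; omega) (by clear * - b4; omega) (by clear * - b5; omega) (by clear * - b6; omega) (by clear * - b7; omega) (by clear * - z50; omega)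
  · exact l2_10110_25 al mx hL hy a1 a2 s1 s2 b tt c u1 u2 d1 d2 n1 n2 n3 (by clear * - b0; omega) (by clear * - b1; omega) (by clear * - b2; omega) (by clear * - b3; omega) (by clear * - b4; omega) (by clear * - b5; omega) (by clear * - b6; omega) (by clear * - b7; omega) (by clear * - z50; omega)

theorem l2_10110_22 {W : ℤ → G} {n Q i j k l i2 l2 i3 : ℤ} (al : AL W n Q)
    {L : ℤ} (mx : ∀ a b g, 0 < g → g < n → Par W a b g → b - a ≤ L) (hL : L ≤ (n - j - 3) ∧ L ≤ (n + Q - k - 3) ∧ L ≤ (n - l - 3) ∧ L ≤ (k - j - 2) ∧ L ≤ (n - l2 - 3) ∧ L ≤ (n + i3 - Q - 2) ∧ L ≤ (i2 + l2 - 1) ∧ L ≤ (n + i3 - i2 - l2 - 3))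
    (hy : (0) ≤ (i) ∧ (i) ≤ (j) ∧ (j + 1) ≤ (Q) ∧ (Q) ≤ (k) ∧ (k + 1) ≤ (n) ∧ (i + l + 2) ≤ (Q) ∧ (n) ≤ (k + l + 1) ∧ (0) ≤ (i2) ∧ (i2) ≤ (i + l + 1) ∧ (n) ≤ (k + l + l2 + 2) ∧ (k + l + l2 + 3) ≤ (n + Q) ∧ (Q) ≤ (i2 + l2 + 1) ∧ (i2 + l2 + 2) ≤ (n) ∧ (0) ≤ (i3) ∧ (n + i3) ≤ (k + l + l2 + 2) ∧ (j + 3) ≤ (n) ∧ (k + 3) ≤ (n + Q) ∧ (l + 3) ≤ (n) ∧ (j + 2) ≤ (k) ∧ (l2 + 3) ≤ (n) ∧ (Q + 2) ≤ (n + i3) ∧ (1) ≤ (i2 + l2) ∧ (i2 + l2 + 3) ≤ (n + i3))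
    (a1 : Par W (0) (j) (k - j))
    (a2 : Par W (Q + j - k) (j) (k - j))
    (s1 : Ant W (0) (i) (i + j))
    (s2 : Ant W (j + 1) (Q) (i + j))
    (b : Par W (i + 1) (i + l + 1) (k - i))
    (tt : Ant W (i + l + 2) (Q) (i + l + i2 + 1))
    (c : Par W (i2 + 1) (i2 + l2 + 1) (k + l - n - i2 + 1))
    (u1 : Ant W (0) (i3) (k + l + l2 + i3 - n + 2))
    (u2 : Ant W (k + l + l2 - n + 3) (Q) (k + l + l2 + i3 - n + 2))
    (d1 : Par W (i3 + 1) (Q) (i2 + l2 - i3 + 1))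
    (d2 : Par W (i2 + l2 + 2) (n) (i3 - i2 - l2 - 1))
    (n1 : Nd W (j) (i) (k))
    (n2 : Nd W (i + l + 1) (i2) (k + l - n + 1))
    (n3 : Nd W (k + l + l2 - n + 2) (i3) (i2 + l2 + 1))
    (b0 : (Q + j + 1) ≤ (k + i3))
    (b1 : (2 * k + 3) ≤ (n + 2 * Q))
    (b2 : (i + k + 2 * l + 1) ≤ (n + 2 * j))
    (b3 : (j + l + l2 + i3 + 3) ≤ (n))
    (b4 : (2 * Q + i2 + l2) ≤ (n + i + j + i3))
    (b5 : (i + 2 * j + 2) ≤ (k))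
    (b6 : (n) ≤ (2 * i2 + 2 * l2 + 1))
    (b7 : (n + i + j) ≤ (k + l + i2 + 2)) : False := by
  have ev := al.ev
  obtain ⟨y0, y1, y2, y3, y4, y5, y6, y7, y8, y9, y10, y11, y12, y13, y14, y15, y16, y17, y18, y19, y20, y21, y22⟩ := id hy
  have n1p := And.intro n1.p1 n1.p2
  have n2p := And.intro n2.p1 n2.p2
  have n3p := And.intro n3.p1 n3.p2
  by_cases z48 : (k + i2 + l2 + 2) ≤ (n + j + i3)
  · by_cases z49 : (n + i3) ≤ (k + i2 + l2 + 1)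
    · have k242 : (j + i3) ≤ (k + i2 + l2) := by clear * - b1 b4 b5 z49; omega
      have k243 : (j + i3 + 1) ≤ (k) := by clear * - b3 y14 y18; omega
      clear * - al a1 a2 s1 s2 b tt c u1 u2 d1 d2 n1 n2 n3 z48 k242 k243 z49
      exact al.ubP (n + j + i3 - k - i2 - l2 - 1) (by omega) (by omega) fun t h1 h2 => (cE (qf d2 al (-1) t (t + (n + i3 - i2 - l2 - 1)) (by omega)) (pb a1 al 0 (t + (n + i3 - i2 - l2 - 1)) (t + (n + j + i3 - k - i2 - l2 - 1)) (by omega)))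
    · have k244 : (j + k + 2) ≤ (n + 2 * i) := by clear * - b3 b6 y0 y14 z49; omega
      have k245 : (n + j) ≤ (k + 2 * l) := by clear * - b3 b6 y14 y6 z49; omega
      have k246 : (n + 2 * i + j + 1) ≤ (2 * Q + k) := by clear * - b7 y5 y8; omega
      have k247 : (k + 1) ≤ (n + j) := by clear * - b3 b6 y14 z48; omega
      obtain ⟨t, ht⟩ : ∃ t, 2 * t = (n + 2 * i + j - k) := ⟨(n + 2 * i + j - k) / 2, by clear * - ev n1p n2p n3p; omega⟩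
      clear * - al a1 a2 s1 s2 b tt c u1 u2 d1 d2 n1 n2 n3 k244 k245 k246 k247 ht
      exact al.ninv t (cE (qa s2 al 0 t ((i + j) - t) (by omega)) (pb b al (-1) ((i + j) - t) t (by omega)))
  · exact l2_10110_23 al mx hL hy a1 a2 s1 s2 b tt c u1 u2 d1 d2 n1 n2 n3 (by clear * - b1; omega) (by clear * - b2; omega) (by clear * - b3; omega) (by clear * - b4; omega) (by clear * - b5; omega) (by clear * - b6; omega) (by clear * - b7; omega) (by clear * - z48; omega)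

theorem l2_10110_9 {W : ℤ → G} {n Q i j k l i2 l2 i3 : ℤ} (al : AL W n Q)
    {L : ℤ} (mx : ∀ a b g, 0 < g → g < n → Par W a b g → b - a ≤ L) (hL : L ≤ (n - j - 3) ∧ L ≤ (n + Q - k - 3) ∧ L ≤ (n - l - 3) ∧ L ≤ (k - j - 2) ∧ L ≤ (n - l2 - 3) ∧ L ≤ (n + i3 - Q - 2) ∧ L ≤ (i2 + l2 - 1) ∧ L ≤ (n + i3 - i2 - l2 - 3))
    (hy : (0) ≤ (i) ∧ (i) ≤ (j) ∧ (j + 1) ≤ (Q) ∧ (Q) ≤ (k) ∧ (k + 1) ≤ (n) ∧ (i + l + 2) ≤ (Q) ∧ (n) ≤ (k + l + 1) ∧ (0) ≤ (i2) ∧ (i2) ≤ (i + l + 1) ∧ (n) ≤ (k + l + l2 + 2) ∧ (k + l + l2 + 3) ≤ (n + Q) ∧ (Q) ≤ (i2 + l2 + 1) ∧ (i2 + l2 + 2) ≤ (n) ∧ (0) ≤ (i3) ∧ (n + i3) ≤ (k + l + l2 + 2) ∧ (j + 3) ≤ (n) ∧ (k + 3) ≤ (n + Q) ∧ (l + 3) ≤ (n) ∧ (j + 2) ≤ (k) ∧ (l2 + 3) ≤ (n) ∧ (Q + 2) ≤ (n + i3) ∧ (1) ≤ (i2 + l2) ∧ (i2 + l2 + 3) ≤ (n + i3))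
    (a1 : Par W (0) (j) (k - j))
    (a2 : Par W (Q + j - k) (j) (k - j))
    (s1 : Ant W (0) (i) (i + j))
    (s2 : Ant W (j + 1) (Q) (i + j))
    (b : Par W (i + 1) (i + l + 1) (k - i))
    (tt : Ant W (i + l + 2) (Q) (i + l + i2 + 1))
    (c : Par W (i2 + 1) (i2 + l2 + 1) (k + l - n - i2 + 1))
    (u1 : Ant W (0) (i3) (k + l + l2 + i3 - n + 2))
    (u2 : Ant W (k + l + l2 - n + 3) (Q) (k + l + l2 + i3 - n + 2))
    (d1 : Par W (i3 + 1) (Q) (i2 + l2 - i3 + 1))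
    (d2 : Par W (i2 + l2 + 2) (n) (i3 - i2 - l2 - 1))
    (n1 : Nd W (j) (i) (k))
    (n2 : Nd W (i + l + 1) (i2) (k + l - n + 1))
    (n3 : Nd W (k + l + l2 - n + 2) (i3) (i2 + l2 + 1))
    (b0 : (Q + j + 1) ≤ (k + i3))
    (b1 : (2 * k + 3) ≤ (n + 2 * Q))
    (b2 : (i + k + 2 * l + 1) ≤ (n + 2 * j))
    (b3 : (j + l + l2 + i3 + 3) ≤ (n))
    (b4 : (2 * Q + i2 + l2) ≤ (n + i + j + i3))
    (b5 : (i + 2 * j + 2) ≤ (k))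
    (b6 : (n) ≤ (2 * i2 + 2 * l2 + 1)) : False := by
  have ev := al.ev
  obtain ⟨y0, y1, y2, y3, y4, y5, y6, y7, y8, y9, y10, y11, y12, y13, y14, y15, y16, y17, y18, y19, y20, y21, y22⟩ := id hy
  have n1p := And.intro n1.p1 n1.p2
  have n2p := And.intro n2.p1 n2.p2
  have n3p := And.intro n3.p1 n3.p2
  by_cases z11 : (k + l + i2 + 3) ≤ (n + i + j)
  · exact l2_10110_10 al mx hL hy a1 a2 s1 s2 b tt c u1 u2 d1 d2 n1 n2 n3 (by clear * - b0; omega) (by clear * - b1; omega) (by clear * - b2; omega) (by clear * - b3; omega) (by clear * - b4; omega) (by clear * - b5; omega) (by clear * - b6; omega) (by clear * - z11; omega)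
  · exact l2_10110_22 al mx hL hy a1 a2 s1 s2 b tt c u1 u2 d1 d2 n1 n2 n3 (by clear * - b0; omega) (by clear * - b1; omega) (by clear * - b2; omega) (by clear * - b3; omega) (by clear * - b4; omega) (by clear * - b5; omega) (by clear * - b6; omega) (by clear * - z11; omega)

theorem l2_10110_8 {W : ℤ → G} {n Q i j k l i2 l2 i3 : ℤ} (al : AL W n Q)
    {L : ℤ} (mx : ∀ a b g, 0 < g → g < n → Par W a b g → b - a ≤ L) (hL : L ≤ (n - j - 3) ∧ L ≤ (n + Q - k - 3) ∧ L ≤ (n - l - 3) ∧ L ≤ (k - j - 2) ∧ L ≤ (n - l2 - 3) ∧ L ≤ (n + i3 - Q - 2) ∧ L ≤ (i2 + l2 - 1) ∧ L ≤ (n + i3 - i2 - l2 - 3))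
    (hy : (0) ≤ (i) ∧ (i) ≤ (j) ∧ (j + 1) ≤ (Q) ∧ (Q) ≤ (k) ∧ (k + 1) ≤ (n) ∧ (i + l + 2) ≤ (Q) ∧ (n) ≤ (k + l + 1) ∧ (0) ≤ (i2) ∧ (i2) ≤ (i + l + 1) ∧ (n) ≤ (k + l + l2 + 2) ∧ (k + l + l2 + 3) ≤ (n + Q) ∧ (Q) ≤ (i2 + l2 + 1) ∧ (i2 + l2 + 2) ≤ (n) ∧ (0) ≤ (i3) ∧ (n + i3) ≤ (k + l + l2 + 2) ∧ (j + 3) ≤ (n) ∧ (k + 3) ≤ (n + Q) ∧ (l + 3) ≤ (n) ∧ (j + 2) ≤ (k) ∧ (l2 + 3) ≤ (n) ∧ (Q + 2) ≤ (n + i3) ∧ (1) ≤ (i2 + l2) ∧ (i2 + l2 + 3) ≤ (n + i3))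
    (a1 : Par W (0) (j) (k - j))
    (a2 : Par W (Q + j - k) (j) (k - j))
    (s1 : Ant W (0) (i) (i + j))
    (s2 : Ant W (j + 1) (Q) (i + j))
    (b : Par W (i + 1) (i + l + 1) (k - i))
    (tt : Ant W (i + l + 2) (Q) (i + l + i2 + 1))
    (c : Par W (i2 + 1) (i2 + l2 + 1) (k + l - n - i2 + 1))
    (u1 : Ant W (0) (i3) (k + l + l2 + i3 - n + 2))
    (u2 : Ant W (k + l + l2 - n + 3) (Q) (k + l + l2 + i3 - n + 2))
    (d1 : Par W (i3 + 1) (Q) (i2 + l2 - i3 + 1))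
    (d2 : Par W (i2 + l2 + 2) (n) (i3 - i2 - l2 - 1))
    (n1 : Nd W (j) (i) (k))
    (n2 : Nd W (i + l + 1) (i2) (k + l - n + 1))
    (n3 : Nd W (k + l + l2 - n + 2) (i3) (i2 + l2 + 1))
    (b0 : (Q + j + 1) ≤ (k + i3))
    (b1 : (2 * k + 3) ≤ (n + 2 * Q))
    (b2 : (i + k + 2 * l + 1) ≤ (n + 2 * j))
    (b3 : (j + l + l2 + i3 + 3) ≤ (n))
    (b4 : (2 * Q + i2 + l2) ≤ (n + i + j + i3))
    (b5 : (i + 2 * j + 2) ≤ (k)) : False := by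
  have ev := al.ev
  obtain ⟨y0, y1, y2, y3, y4, y5, y6, y7, y8, y9, y10, y11, y12, y13, y14, y15, y16, y17, y18, y19, y20, y21, y22⟩ := id hy
  have n1p := And.intro n1.p1 n1.p2
  have n2p := And.intro n2.p1 n2.p2
  have n3p := And.intro n3.p1 n3.p2
  by_cases z10 : (2 * i2 + 2 * l2 + 2) ≤ (n)
  · have k26 : (i3) ≤ (i2 + l2) := by clear * - y10 y11 y14; omega
    have k27 : (i2 + l2 + 2) ≤ (n + i3) := by clear * - y22; omega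
    have k28 : L ≤ (i2 + l2 - 1) := by clear * - hL; omega
    clear * - al a1 a2 s1 s2 b tt c u1 u2 d1 d2 n1 n2 n3 mx k26 k27 z10 k28
    exact absurd (mx (n + i3 + 1) (2 * n + i3 - i2 - l2 - 1) (i2 + l2 - i3 + 1) (by omega) (by omega) fun t h1 h2 => (cE (pb d2 al 1 t (t + (i2 + l2 - n - i3 + 1)) (by omega)) (sh al 1 (t + (i2 + l2 - n - i3 + 1)) (t + (i2 + l2 - i3 + 1)) (by omega)))) (by omega)
  · exact l2_10110_9 al mx hL hy a1 a2 s1 s2 b tt c u1 u2 d1 d2 n1 n2 n3 (by clear * - b0; omega) (by clear * - b1; omega) (by clear * - b2; omega) (by clear * - b3; omega) (by clear * - b4; omega) (by clear * - b5; omega) (by clear * - z10; omega)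

theorem l2_10110_7 {W : ℤ → G} {n Q i j k l i2 l2 i3 : ℤ} (al : AL W n Q)
    {L : ℤ} (mx : ∀ a b g, 0 < g → g < n → Par W a b g → b - a ≤ L) (hL : L ≤ (n - j - 3) ∧ L ≤ (n + Q - k - 3) ∧ L ≤ (n - l - 3) ∧ L ≤ (k - j - 2) ∧ L ≤ (n - l2 - 3) ∧ L ≤ (n + i3 - Q - 2) ∧ L ≤ (i2 + l2 - 1) ∧ L ≤ (n + i3 - i2 - l2 - 3))
    (hy : (0) ≤ (i) ∧ (i) ≤ (j) ∧ (j + 1) ≤ (Q) ∧ (Q) ≤ (k) ∧ (k + 1) ≤ (n) ∧ (i + l + 2) ≤ (Q) ∧ (n) ≤ (k + l + 1) ∧ (0) ≤ (i2) ∧ (i2) ≤ (i + l + 1) ∧ (n) ≤ (k + l + l2 + 2) ∧ (k + l + l2 + 3) ≤ (n + Q) ∧ (Q) ≤ (i2 + l2 + 1) ∧ (i2 + l2 + 2) ≤ (n) ∧ (0) ≤ (i3) ∧ (n + i3) ≤ (k + l + l2 + 2) ∧ (j + 3) ≤ (n) ∧ (k + 3) ≤ (n + Q) ∧ (l + 3) ≤ (n) ∧ (j + 2) ≤ (k) ∧ (l2 + 3) ≤ (n) ∧ (Q + 2) ≤ (n + i3) ∧ (1) ≤ (i2 + l2) ∧ (i2 + l2 + 3) ≤ (n + i3))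
    (a1 : Par W (0) (j) (k - j))
    (a2 : Par W (Q + j - k) (j) (k - j))
    (s1 : Ant W (0) (i) (i + j))
    (s2 : Ant W (j + 1) (Q) (i + j))
    (b : Par W (i + 1) (i + l + 1) (k - i))
    (tt : Ant W (i + l + 2) (Q) (i + l + i2 + 1))
    (c : Par W (i2 + 1) (i2 + l2 + 1) (k + l - n - i2 + 1))
    (u1 : Ant W (0) (i3) (k + l + l2 + i3 - n + 2))
    (u2 : Ant W (k + l + l2 - n + 3) (Q) (k + l + l2 + i3 - n + 2))
    (d1 : Par W (i3 + 1) (Q) (i2 + l2 - i3 + 1))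
    (d2 : Par W (i2 + l2 + 2) (n) (i3 - i2 - l2 - 1))
    (n1 : Nd W (j) (i) (k))
    (n2 : Nd W (i + l + 1) (i2) (k + l - n + 1))
    (n3 : Nd W (k + l + l2 - n + 2) (i3) (i2 + l2 + 1))
    (b0 : (Q + j + 1) ≤ (k + i3))
    (b1 : (2 * k + 3) ≤ (n + 2 * Q))
    (b2 : (i + k + 2 * l + 1) ≤ (n + 2 * j))
    (b3 : (j + l + l2 + i3 + 3) ≤ (n))
    (b4 : (2 * Q + i2 + l2) ≤ (n + i + j + i3)) : False := by
  have ev := al.ev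
  obtain ⟨y0, y1, y2, y3, y4, y5, y6, y7, y8, y9, y10, y11, y12, y13, y14, y15, y16, y17, y18, y19, y20, y21, y22⟩ := id hy
  have n1p := And.intro n1.p1 n1.p2
  have n2p := And.intro n2.p1 n2.p2
  have n3p := And.intro n3.p1 n3.p2
  by_cases z8 : (k) ≤ (i + 2 * j + 1)
  · by_cases z9 : (2 * j + 2) ≤ (i + k)
    · have k20 : (k) ≤ (i + 2 * j) := by clear * - z8 ev n1p n2p n3p; omega
      have k21 : (i + 1) ≤ (k) := by clear * - y11 y12 y5 y6; omega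
      obtain ⟨t, ht⟩ : ∃ t, 2 * t = (i + 2 * j - k) := ⟨(i + 2 * j - k) / 2, by clear * - ev n1p n2p n3p; omega⟩
      clear * - al a1 a2 s1 s2 b tt c u1 u2 d1 d2 n1 n2 n3 k20 z9 k21 ht
      exact al.ninv t (cI (qf a1 al 0 t (t + (k - j)) (by omega)) (ab s1 al 0 (t + (k - j)) t (by omega)))
    · have k22 : (i2 + l2 + 2) ≤ (n + i3) := by clear * - y22; omega
      have k23 : (i3) ≤ (i2 + l2) := by clear * - y10 y11 y14; omega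
      have k24 : (k + i2 + l2 + 1) ≤ (n + j) := by clear * - b3 y13 y8 z9; omega
      have k25 : L ≤ (k - j - 2) := by clear * - hL; omega
      clear * - al a1 a2 s1 s2 b tt c u1 u2 d1 d2 n1 n2 n3 mx k22 k23 k24 k25
      exact absurd (mx (i2 + l2 + 2) (n) (n + i3 - i2 - l2 - 1) (by omega) (by omega) fun t h1 h2 => (cE (qf d2 al 0 t (t + (i3 - i2 - l2 - 1)) (by omega)) (sh al 1 (t + (i3 - i2 - l2 - 1)) (t + (n + i3 - i2 - l2 - 1)) (by omega)))) (by omega)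
  · exact l2_10110_8 al mx hL hy a1 a2 s1 s2 b tt c u1 u2 d1 d2 n1 n2 n3 (by clear * - b0; omega) (by clear * - b1; omega) (by clear * - b2; omega) (by clear * - b3; omega) (by clear * - b4; omega) (by clear * - z8; omega)

theorem l2_10110_6 {W : ℤ → G} {n Q i j k l i2 l2 i3 : ℤ} (al : AL W n Q)
    {L : ℤ} (mx : ∀ a b g, 0 < g → g < n → Par W a b g → b - a ≤ L) (hL : L ≤ (n - j - 3) ∧ L ≤ (n + Q - k - 3) ∧ L ≤ (n - l - 3) ∧ L ≤ (k - j - 2) ∧ L ≤ (n - l2 - 3) ∧ L ≤ (n + i3 - Q - 2) ∧ L ≤ (i2 + l2 - 1) ∧ L ≤ (n + i3 - i2 - l2 - 3))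
    (hy : (0) ≤ (i) ∧ (i) ≤ (j) ∧ (j + 1) ≤ (Q) ∧ (Q) ≤ (k) ∧ (k + 1) ≤ (n) ∧ (i + l + 2) ≤ (Q) ∧ (n) ≤ (k + l + 1) ∧ (0) ≤ (i2) ∧ (i2) ≤ (i + l + 1) ∧ (n) ≤ (k + l + l2 + 2) ∧ (k + l + l2 + 3) ≤ (n + Q) ∧ (Q) ≤ (i2 + l2 + 1) ∧ (i2 + l2 + 2) ≤ (n) ∧ (0) ≤ (i3) ∧ (n + i3) ≤ (k + l + l2 + 2) ∧ (j + 3) ≤ (n) ∧ (k + 3) ≤ (n + Q) ∧ (l + 3) ≤ (n) ∧ (j + 2) ≤ (k) ∧ (l2 + 3) ≤ (n) ∧ (Q + 2) ≤ (n + i3) ∧ (1) ≤ (i2 + l2) ∧ (i2 + l2 + 3) ≤ (n + i3))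
    (a1 : Par W (0) (j) (k - j))
    (a2 : Par W (Q + j - k) (j) (k - j))
    (s1 : Ant W (0) (i) (i + j))
    (s2 : Ant W (j + 1) (Q) (i + j))
    (b : Par W (i + 1) (i + l + 1) (k - i))
    (tt : Ant W (i + l + 2) (Q) (i + l + i2 + 1))
    (c : Par W (i2 + 1) (i2 + l2 + 1) (k + l - n - i2 + 1))
    (u1 : Ant W (0) (i3) (k + l + l2 + i3 - n + 2))
    (u2 : Ant W (k + l + l2 - n + 3) (Q) (k + l + l2 + i3 - n + 2))
    (d1 : Par W (i3 + 1) (Q) (i2 + l2 - i3 + 1))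
    (d2 : Par W (i2 + l2 + 2) (n) (i3 - i2 - l2 - 1))
    (n1 : Nd W (j) (i) (k))
    (n2 : Nd W (i + l + 1) (i2) (k + l - n + 1))
    (n3 : Nd W (k + l + l2 - n + 2) (i3) (i2 + l2 + 1))
    (b0 : (Q + j + 1) ≤ (k + i3))
    (b1 : (2 * k + 3) ≤ (n + 2 * Q))
    (b2 : (i + k + 2 * l + 1) ≤ (n + 2 * j))
    (b3 : (j + l + l2 + i3 + 3) ≤ (n)) : False := by
  have ev := al.ev
  obtain ⟨y0, y1, y2, y3, y4, y5, y6, y7, y8, y9, y10, y11, y12, y13, y14, y15, y16, y17, y18, y19, y20, y21, y22⟩ := id hy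
  have n1p := And.intro n1.p1 n1.p2
  have n2p := And.intro n2.p1 n2.p2
  have n3p := And.intro n3.p1 n3.p2
  by_cases z7 : (n + i + j + i3 + 1) ≤ (2 * Q + i2 + l2)
  · have k18 : (j + i2 + l2 + 2) ≤ (n + i + i3) := by clear * - b3 y13 y8; omega
    have k19 : (i2 + l2 + i3 + 2) ≤ (n + i + j) := by clear * - b2 b3 y10 y11 y6 y8; omega
    obtain ⟨t, ht⟩ : ∃ t, 2 * t = (n + i + j + i2 + l2 - i3 + 1) := ⟨(n + i + j + i2 + l2 - i3 + 1) / 2, by clear * - ev n1p n2p n3p; omega⟩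
    clear * - al a1 a2 s1 s2 b tt c u1 u2 d1 d2 n1 n2 n3 z7 k18 k19 ht
    exact al.ninv t (cE (ab s2 al 1 t ((n + i + j) - t) (by omega)) (qf d1 al 0 ((n + i + j) - t) t (by omega)))
  · exact l2_10110_7 al mx hL hy a1 a2 s1 s2 b tt c u1 u2 d1 d2 n1 n2 n3 (by clear * - b0; omega) (by clear * - b1; omega) (by clear * - b2; omega) (by clear * - b3; omega) (by clear * - z7; omega)

theorem l2_10110_5 {W : ℤ → G} {n Q i j k l i2 l2 i3 : ℤ} (al : AL W n Q)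
    {L : ℤ} (mx : ∀ a b g, 0 < g → g < n → Par W a b g → b - a ≤ L) (hL : L ≤ (n - j - 3) ∧ L ≤ (n + Q - k - 3) ∧ L ≤ (n - l - 3) ∧ L ≤ (k - j - 2) ∧ L ≤ (n - l2 - 3) ∧ L ≤ (n + i3 - Q - 2) ∧ L ≤ (i2 + l2 - 1) ∧ L ≤ (n + i3 - i2 - l2 - 3))
    (hy : (0) ≤ (i) ∧ (i) ≤ (j) ∧ (j + 1) ≤ (Q) ∧ (Q) ≤ (k) ∧ (k + 1) ≤ (n) ∧ (i + l + 2) ≤ (Q) ∧ (n) ≤ (k + l + 1) ∧ (0) ≤ (i2) ∧ (i2) ≤ (i + l + 1) ∧ (n) ≤ (k + l + l2 + 2) ∧ (k + l + l2 + 3) ≤ (n + Q) ∧ (Q) ≤ (i2 + l2 + 1) ∧ (i2 + l2 + 2) ≤ (n) ∧ (0) ≤ (i3) ∧ (n + i3) ≤ (k + l + l2 + 2) ∧ (j + 3) ≤ (n) ∧ (k + 3) ≤ (n + Q) ∧ (l + 3) ≤ (n) ∧ (j + 2) ≤ (k) ∧ (l2 + 3) ≤ (n) ∧ (Q + 2) ≤ (n + i3) ∧ (1) ≤ (i2 + l2) ∧ (i2 + l2 + 3) ≤ (n + i3))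
    (a1 : Par W (0) (j) (k - j))
    (a2 : Par W (Q + j - k) (j) (k - j))
    (s1 : Ant W (0) (i) (i + j))
    (s2 : Ant W (j + 1) (Q) (i + j))
    (b : Par W (i + 1) (i + l + 1) (k - i))
    (tt : Ant W (i + l + 2) (Q) (i + l + i2 + 1))
    (c : Par W (i2 + 1) (i2 + l2 + 1) (k + l - n - i2 + 1))
    (u1 : Ant W (0) (i3) (k + l + l2 + i3 - n + 2))
    (u2 : Ant W (k + l + l2 - n + 3) (Q) (k + l + l2 + i3 - n + 2))
    (d1 : Par W (i3 + 1) (Q) (i2 + l2 - i3 + 1))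
    (d2 : Par W (i2 + l2 + 2) (n) (i3 - i2 - l2 - 1))
    (n1 : Nd W (j) (i) (k))
    (n2 : Nd W (i + l + 1) (i2) (k + l - n + 1))
    (n3 : Nd W (k + l + l2 - n + 2) (i3) (i2 + l2 + 1))
    (b0 : (Q + j + 1) ≤ (k + i3))
    (b1 : (k + l + l2 + i3 + 3) ≤ (2 * n))
    (b2 : (2 * k + 3) ≤ (n + 2 * Q))
    (b3 : (i + k + 2 * l + 1) ≤ (n + 2 * j))
    (b4 : (l + l2 + i3 + 4) ≤ (n + j)) : False := by
  have ev := al.ev
  obtain ⟨y0, y1, y2, y3, y4, y5, y6, y7, y8, y9, y10, y11, y12, y13, y14, y15, y16, y17, y18, y19, y20, y21, y22⟩ := id hy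
  have n1p := And.intro n1.p1 n1.p2
  have n2p := And.intro n2.p1 n2.p2
  have n3p := And.intro n3.p1 n3.p2
  by_cases z6 : (n) ≤ (j + l + l2 + i3 + 2)
  · have k16 : (l + l2 + i3 + 3) ≤ (n + j) := by clear * - b4; omega
    have k17 : (j + l + l2 + 3) ≤ (n + i3) := by clear * - b0 y10; omega
    obtain ⟨t, ht⟩ : ∃ t, 2 * t = (2 * k + l + l2 + i3 - 3 * n - j + 2) := ⟨(2 * k + l + l2 + i3 - 3 * n - j + 2) / 2, by clear * - ev n1p n2p n3p; omega⟩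
    clear * - al a1 a2 s1 s2 b tt c u1 u2 d1 d2 n1 n2 n3 z6 k16 k17 ht
    exact al.ninv t (cE (cI (pb a1 al (-1) t (t + (n + j - k)) (by omega)) (qa u1 al 0 (t + (n + j - k)) ((2 * k + l + l2 + i3 - 2 * n - j + 2) - t) (by omega))) (sh al (-1) ((2 * k + l + l2 + i3 - 2 * n - j + 2) - t) t (by omega)))
  · exact l2_10110_6 al mx hL hy a1 a2 s1 s2 b tt c u1 u2 d1 d2 n1 n2 n3 (by clear * - b0; omega) (by clear * - b2; omega) (by clear * - b3; omega) (by clear * - z6; omega)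

theorem l2_10110_4 {W : ℤ → G} {n Q i j k l i2 l2 i3 : ℤ} (al : AL W n Q)
    {L : ℤ} (mx : ∀ a b g, 0 < g → g < n → Par W a b g → b - a ≤ L) (hL : L ≤ (n - j - 3) ∧ L ≤ (n + Q - k - 3) ∧ L ≤ (n - l - 3) ∧ L ≤ (k - j - 2) ∧ L ≤ (n - l2 - 3) ∧ L ≤ (n + i3 - Q - 2) ∧ L ≤ (i2 + l2 - 1) ∧ L ≤ (n + i3 - i2 - l2 - 3))
    (hy : (0) ≤ (i) ∧ (i) ≤ (j) ∧ (j + 1) ≤ (Q) ∧ (Q) ≤ (k) ∧ (k + 1) ≤ (n) ∧ (i + l + 2) ≤ (Q) ∧ (n) ≤ (k + l + 1) ∧ (0) ≤ (i2) ∧ (i2) ≤ (i + l + 1) ∧ (n) ≤ (k + l + l2 + 2) ∧ (k + l + l2 + 3) ≤ (n + Q) ∧ (Q) ≤ (i2 + l2 + 1) ∧ (i2 + l2 + 2) ≤ (n) ∧ (0) ≤ (i3) ∧ (n + i3) ≤ (k + l + l2 + 2) ∧ (j + 3) ≤ (n) ∧ (k + 3) ≤ (n + Q) ∧ (l + 3) ≤ (n) ∧ (j + 2) ≤ (k) ∧ (l2 + 3) ≤ (n) ∧ (Q + 2) ≤ (n + i3) ∧ (1) ≤ (i2 + l2) ∧ (i2 + l2 + 3) ≤ (n + i3))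
    (a1 : Par W (0) (j) (k - j))
    (a2 : Par W (Q + j - k) (j) (k - j))
    (s1 : Ant W (0) (i) (i + j))
    (s2 : Ant W (j + 1) (Q) (i + j))
    (b : Par W (i + 1) (i + l + 1) (k - i))
    (tt : Ant W (i + l + 2) (Q) (i + l + i2 + 1))
    (c : Par W (i2 + 1) (i2 + l2 + 1) (k + l - n - i2 + 1))
    (u1 : Ant W (0) (i3) (k + l + l2 + i3 - n + 2))
    (u2 : Ant W (k + l + l2 - n + 3) (Q) (k + l + l2 + i3 - n + 2))
    (d1 : Par W (i3 + 1) (Q) (i2 + l2 - i3 + 1))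
    (d2 : Par W (i2 + l2 + 2) (n) (i3 - i2 - l2 - 1))
    (n1 : Nd W (j) (i) (k))
    (n2 : Nd W (i + l + 1) (i2) (k + l - n + 1))
    (n3 : Nd W (k + l + l2 - n + 2) (i3) (i2 + l2 + 1))
    (b0 : (Q + j + 1) ≤ (k + i3))
    (b1 : (k + l + l2 + i3 + 3) ≤ (2 * n))
    (b2 : (2 * k + 3) ≤ (n + 2 * Q))
    (b3 : (i + k + 2 * l + 1) ≤ (n + 2 * j)) : False := by
  have ev := al.ev
  obtain ⟨y0, y1, y2, y3, y4, y5, y6, y7, y8, y9, y10, y11, y12, y13, y14, y15, y16, y17, y18, y19, y20, y21, y22⟩ := id hy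
  have n1p := And.intro n1.p1 n1.p2
  have n2p := And.intro n2.p1 n2.p2
  have n3p := And.intro n3.p1 n3.p2
  by_cases z5 : (l + l2 + i3 + 4) ≤ (n + j)
  · exact l2_10110_5 al mx hL hy a1 a2 s1 s2 b tt c u1 u2 d1 d2 n1 n2 n3 (by clear * - b0; omega) (by clear * - b1; omega) (by clear * - b2; omega) (by clear * - b3; omega) (by clear * - z5; omega)
  · have k731 : (n + i2) ≤ (k + l + 2 * i3 + 1) := by clear * - b0 b3 y10 y6 y8 z5; omega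
    have k732 : (n + i2) ≤ (k + l + 2 * l2 + 2 * i3 + 3) := by clear * - b3 y13 y14 y18 y8 z5; omega
    have k733 : (n) ≤ (k + l + i2 + 2 * l2 + 3) := by clear * - y13 y14 y21; omega
    have k734 : (k + l + i2 + 3) ≤ (n + 2 * i3) := by clear * - b0 b3 y10 y8 z5 ev n1p n2p n3p; omega
    have k735 : (k + l + i2 + 1) ≤ (n + 2 * l2 + 2 * i3) := by clear * - b0 b3 y10 y11 y5 y8 z5; omega
    have k736 : (k + l + 3) ≤ (n + i2) := by clear * - y10 y11 ev n1p n2p n3p; omega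
    have k737 : (k + l + 2 * i3 + 1) ≤ (n + 3 * i2 + 2 * l2) := by clear * - y10 y11 y14; omega
    have k738 : (k + l + l2 + i3 - 3 * n + 2) % 2 = 0 := by clear * - ev n1p n2p n3p; omega
    have k739 : (n + i2 - k - l - 1) % 2 = 0 := by clear * - ev n1p n2p n3p; omega
    clear * - al a1 a2 s1 s2 b tt c u1 u2 d1 d2 n1 n2 n3 k731 k732 k733 k734 k735 k736 k737 k738 k739
    exact midP al (n + i2 - k - l - 1) (k + l + l2 + i3 - 3 * n + 2) (max (-n) (max (k + l + i3 - 2 * n - i2 + 2) (k + l - 2 * n + 2))) (k + l - 2 * n + 2) (i2 + l2 - n + 1) (by omega) (fun t h1 h2 => (cE (qa u1 al (-1) t ((k + l + l2 + i3 - 2 * n + 2) - t) (by omega)) (sh al (-1) ((k + l + l2 + i3 - 2 * n + 2) - t) ((k + l + l2 + i3 - 3 * n + 2) - t) (by omega)))) (fun t h1 h2 => (cE (pb c al (-1) t (t + (2 * n + i2 - k - l - 1)) (by omega)) (sh al (-1) (t + (2 *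 n + i2 - k - l - 1)) (t + (n + i2 - k - l - 1)) (by omega))))

theorem l2_10110_3 {W : ℤ → G} {n Q i j k l i2 l2 i3 : ℤ} (al : AL W n Q)
    {L : ℤ} (mx : ∀ a b g, 0 < g → g < n → Par W a b g → b - a ≤ L) (hL : L ≤ (n - j - 3) ∧ L ≤ (n + Q - k - 3) ∧ L ≤ (n - l - 3) ∧ L ≤ (k - j - 2) ∧ L ≤ (n - l2 - 3) ∧ L ≤ (n + i3 - Q - 2) ∧ L ≤ (i2 + l2 - 1) ∧ L ≤ (n + i3 - i2 - l2 - 3))
    (hy : (0) ≤ (i) ∧ (i) ≤ (j) ∧ (j + 1) ≤ (Q) ∧ (Q) ≤ (k) ∧ (k + 1) ≤ (n) ∧ (i + l + 2) ≤ (Q) ∧ (n) ≤ (k + l + 1) ∧ (0) ≤ (i2) ∧ (i2) ≤ (i + l + 1) ∧ (n) ≤ (k + l + l2 + 2) ∧ (k + l + l2 + 3) ≤ (n + Q) ∧ (Q) ≤ (i2 + l2 + 1) ∧ (i2 + l2 + 2) ≤ (n) ∧ (0) ≤ (i3) ∧ (n + i3) ≤ (k + l + l2 + 2) ∧ (j + 3) ≤ (n) ∧ (k + 3) ≤ (n + Q) ∧ (l + 3) ≤ (n) ∧ (j + 2) ≤ (k) ∧ (l2 + 3) ≤ (n) ∧ (Q + 2) ≤ (n + i3) ∧ (1) ≤ (i2 + l2) ∧ (i2 + l2 + 3) ≤ (n + i3))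
    (a1 : Par W (0) (j) (k - j))
    (a2 : Par W (Q + j - k) (j) (k - j))
    (s1 : Ant W (0) (i) (i + j))
    (s2 : Ant W (j + 1) (Q) (i + j))
    (b : Par W (i + 1) (i + l + 1) (k - i))
    (tt : Ant W (i + l + 2) (Q) (i + l + i2 + 1))
    (c : Par W (i2 + 1) (i2 + l2 + 1) (k + l - n - i2 + 1))
    (u1 : Ant W (0) (i3) (k + l + l2 + i3 - n + 2))
    (u2 : Ant W (k + l + l2 - n + 3) (Q) (k + l + l2 + i3 - n + 2))
    (d1 : Par W (i3 + 1) (Q) (i2 + l2 - i3 + 1))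
    (d2 : Par W (i2 + l2 + 2) (n) (i3 - i2 - l2 - 1))
    (n1 : Nd W (j) (i) (k))
    (n2 : Nd W (i + l + 1) (i2) (k + l - n + 1))
    (n3 : Nd W (k + l + l2 - n + 2) (i3) (i2 + l2 + 1))
    (b0 : (Q + j + 1) ≤ (k + i3))
    (b1 : (k + l + l2 + i3 + 3) ≤ (2 * n))
    (b2 : (2 * k + 3) ≤ (n + 2 * Q)) : False := by
  have ev := al.ev
  obtain ⟨y0, y1, y2, y3, y4, y5, y6, y7, y8, y9, y10, y11, y12, y13, y14, y15, y16, y17, y18, y19, y20, y21, y22⟩ := id hy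
  have n1p := And.intro n1.p1 n1.p2
  have n2p := And.intro n2.p1 n2.p2
  have n3p := And.intro n3.p1 n3.p2
  by_cases z4 : (n + 2 * j) ≤ (i + k + 2 * l)
  · have k8 : (n + i + 2 * j + 2) ≤ (2 * Q + k) := by clear * - y5 z4; omega
    have k9 : (k + 2) ≤ (n + i) := by clear * - y10 y11 y8 ev n1p n2p n3p; omega
    have k10 : (i + k + 2) ≤ (n + 2 * Q) := by clear * - b2 y11 y12 y5 y6; omega
    have k11 : (3 * k + 2) ≤ (3 * n + i + 2 * j) := by clear * - y1 y10 y11 y8; omega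
    have k12 : (n + i + 2 * j) ≤ (2 * Q + k + 2 * l) := by clear * - y4 y5 y6 z4; omega
    have k13 : (n + 2 * j) ≤ (i + k + 4 * l + 2) := by clear * - y4 y6 z4; omega
    have k14 : (2 * n + i + j) % 2 = 0 := by clear * - ev n1p n2p n3p; omega
    have k15 : (n + i - k) % 2 = 0 := by clear * - ev n1p n2p n3p; omega
    clear * - al a1 a2 s1 s2 b tt c u1 u2 d1 d2 n1 n2 n3 k8 k9 z4 k10 k11 k12 k13 k14 k15
    exact midP al (n + i - k) (2 * n + i + j) (max (n + j - l) (max (n + j + 1) (k + 1))) (k + 1) (n + i + l + 1) (by omega) (fun t h1 h2 => (cE (qa s2 al 1 t ((n + i + j) - t) (by omega)) (sh al 1 ((n + i + j) - t) ((2 * n + i + j) - t) (by omega)))) (fun t h1 h2 => (cE (pb b al 0 t (t + (i - k)) (by omega)) (sh al 1 (t + (i - k)) (t + (n + i - k)) (by omega))))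
  · exact l2_10110_4 al mx hL hy a1 a2 s1 s2 b tt c u1 u2 d1 d2 n1 n2 n3 (by clear * - b0; omega) (by clear * - b1; omega) (by clear * - b2; omega) (by clear * - z4; omega)

end Pool.Agent.MP_a38735_al.WL
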