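import Pool.Agent.MP_a38735_al.WQ

set_option autoImplicit false
set_option linter.unusedVariables false

namespace Pool.Agent.MP_a38735_al.WL

variable {G : Type*} [Group G]

theorem l2_11001_19 {W : ℤ → G} {n Q i j k l i2 l2 i3 : ℤ} (al : AL W n Q)
    {L : ℤ} (mx : ∀ a b g, 0 < g → g < n → Par W a b g → b - a ≤ L) (hL : L ≤ (n - j - 3) ∧ L ≤ (n + Q - k - 3) ∧ L ≤ (n - l - 3) ∧ L ≤ (k - j - 2) ∧ L ≤ (n - l2 - 3) ∧ L ≤ (i3 - 2) ∧ L ≤ (n + i2 + l2 - Q - 1) ∧ L ≤ (n + i2 - i - l - 3))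
    (hy : (0) ≤ (i) ∧ (i) ≤ (j) ∧ (j + 1) ≤ (Q) ∧ (Q) ≤ (k) ∧ (k + 1) ≤ (n) ∧ (i + l + 2) ≤ (Q) ∧ (n) ≤ (k + l + 1) ∧ (0) ≤ (i2) ∧ (n + i2) ≤ (k + l + 1) ∧ (0) ≤ (i2 + l2 + 1) ∧ (i2 + l2 + 2) ≤ (Q) ∧ (Q) ≤ (i + l + l2 + 2) ∧ (i + l + l2 + 3) ≤ (n) ∧ (Q) ≤ (i3) ∧ (i3) ≤ (i + l + l2 + 2) ∧ (j + 3) ≤ (n) ∧ (k + 3) ≤ (n + Q) ∧ (l + 3) ≤ (n) ∧ (j + 2) ≤ (k) ∧ (l2 + 3) ≤ (n) ∧ (2) ≤ (i3) ∧ (Q + 1) ≤ (n + i2 + l2) ∧ (i + l + 3) ≤ (n + i2))
    (a1 : Par W (0) (j) (k - j))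
    (a2 : Par W (Q + j - k) (j) (k - j))
    (s1 : Ant W (0) (i) (i + j))
    (s2 : Ant W (j + 1) (Q) (i + j))
    (b : Par W (i + 1) (i + l + 1) (k - i))
    (tt : Ant W (0) (i2) (k + l + i2 - n + 1))
    (c : Par W (i2 + 1) (i2 + l2 + 1) (i + l - i2 + 1))
    (u1 : Ant W (Q) (i3) (i + l + l2 + i3 + 2))
    (u2 : Ant W (i + l + l2 + 3) (n) (i + l + l2 + i3 + 2))
    (d1 : Par W (i3 + 1) (n) (i2 + l2 - i3 + 1))
    (d2 : Par W (i2 + l2 + 2) (Q) (i3 - i2 - l2 - 1))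
    (n1 : Nd W (j) (i) (k))
    (n2 : Nd W (k + l - n + 1) (i2) (i + l + 1))
    (n3 : Nd W (i + l + l2 + 2) (i3) (i2 + l2 + 1))
    (b0 : (n + 2 * i) ≤ (j + k))
    (b1 : (2 * n + i2) ≤ (2 * i + 2 * l + l2 + i3 + 4))
    (b2 : (2 * l2 + 3) ≤ (n))
    (b3 : (i + k + 2 * l + 1) ≤ (n + 2 * j))
    (b4 : (i + 2 * j + 2) ≤ (k))
    (b5 : (i + k + l + l2 + i3 + 4) ≤ (n + 2 * Q + j))
    (b6 : (2 * Q + i3) ≤ (n + i + j + i2 + l2 + 2))
    (b7 : (Q + j) ≤ (k + i2))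
    (b8 : (l + i2 + 2 * l2 + 2) ≤ (n + j))
    (b9 : (2 * i3) ≤ (i + l + i2 + 2 * l2 + 3))
    (b10 : (k + 2 * i2 + 1) ≤ (n + i))
    (b11 : (j + i2 + l2 + 2) ≤ (k)) : False := by
  have ev := al.ev
  obtain ⟨y0, y1, y2, y3, y4, y5, y6, y7, y8, y9, y10, y11, y12, y13, y14, y15, y16, y17, y18, y19, y20, y21, y22⟩ := id hy
  have n1p := And.intro n1.p1 n1.p2
  have n2p := And.intro n2.p1 n2.p2
  have n3p := And.intro n3.p1 n3.p2
  by_cases z27 : (n + i2 + l2 + 1) ≤ (k + i3)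
  · have k84 : (k + i3) ≤ (n + j + i2 + l2) := by clear * - b5 b9 y13; omega
    have k85 : (j + i2 + l2 + 2) ≤ (k + i3) := by clear * - b1 b2 b3 b4 b5 b7 b9; omega
    clear * - al a1 a2 s1 s2 b tt c u1 u2 d1 d2 n1 n2 n3 k84 k85 b11 z27
    exact al.ubP (n + j + i2 + l2 - k - i3 + 1) (by omega) (by omega) fun t h1 h2 => (cE (sh al 2 t (t + (2 * n)) (by omega)) (cE (qf d1 al 1 (t + (2 * n)) (t + (n + i2 + l2 - i3 + 1)) (by omega)) (pb a1 al 0 (t + (n + i2 + l2 - i3 + 1)) (t + (n + j + i2 + l2 - k - i3 + 1)) (by omega))))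
  · by_cases z28 : (i + j + l + i3) ≤ (k + 2 * i2 + l2)
    · by_cases z29 : (i2 + l2 + i3 + 3) ≤ (2 * Q)
      · by_cases z30 : (2 * i + 2 * j + i3 + 1) ≤ (2 * Q + i2 + l2)
        · have k86 : (i2 + l2 + 2) ≤ (i3) := by clear * - b1 b2 b3 b4; omega
          have k87 : (2 * j + i3 + 1) ≤ (2 * Q + i2 + l2) := by clear * - b1 b10 b3 b5 b7 z30; omega
          have k88 : (i2 + l2 + i3 + 3) ≤ (2 * n + 2 * i) := by clear * - b1 b11 b2 b3 b6 b7 z27 z29 z30; omega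
          have k89 : (2 * j + i3 + 1) ≤ (2 * n + i2 + l2) := by clear * - b1 b10 b11 b2 b3 b6 b7 z30; omega
          have k90 : (3 * i2 + 3 * l2 + i3 + 5) ≤ (2 * n + 2 * i + 2 * j) := by clear * - b1 b11 b2 b3 b6 z29 z30; omega
          have k91 : (2 * i + 2 * j + i3 + 1) ≤ (2 * n + i2 + l2) := by clear * - b1 b2 b3 b4 b6 z30; omega
          have k92 : (i + j - n) % 2 = 0 := by clear * - ev n1p n2p n3p; omega
          have k93 : (i3 - i2 - l2 - 1) % 2 = 0 := by clear * - ev n1p n2p n3p; omega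
          clear * - al a1 a2 s1 s2 b tt c u1 u2 d1 d2 n1 n2 n3 k86 k87 k88 k89 z29 k90 z30 k91 k92 k93
          exact midP al (i3 - i2 - l2 - 1) (i + j - n) (max (i + j - n + 1) (max (j - n + 1) (i2 + l2 - n + 2))) (i2 + l2 - n + 2) (0) (by omega) (fun t h1 h2 => (qa s2 al (-1) t ((i + j - n) - t) (by omega))) (fun t h1 h2 => (cE (pb d1 al (-1) t (t + (n + i3 - i2 - l2 - 1)) (by omega)) (sh al (-1) (t + (n + i3 - i2 - l2 - 1)) (t + (i3 - i2 - l2 - 1)) (by omega))))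
        · by_cases z31 : (l + i2 + 2) ≤ (j)
          · have k94 : (l + 1) ≤ (j + i2) := by clear * - b1 b3 b5 b7; omega
            have k95 : (j) ≤ (l + i2 + 2 * l2 + 1) := by clear * - b0 b1 b2 b3 b4 z27 z28 z31; omega
            have k96 : (j + i2) ≤ (2 * i + l) := by clear * - b1 b10 b5 b7; omega
            obtain ⟨t, ht⟩ : ∃ t, 2 * t = (j + i2 - l - 1) := ⟨(j + i2 - l - 1) / 2, by clear * - ev n1p n2p n3p; omega⟩
            clear * - al a1 a2 s1 s2 b tt c u1 u2 d1 d2 n1 n2 n3 k94 k95 k96 z31 ht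
            exact al.ninv t (cE (qa s1 al 0 t ((i + j) - t) (by omega)) (pb c al 0 ((i + j) - t) t (by omega)))
          · by_cases z32 : (Q + l + l2 + 2) ≤ (n + j)
            · have k97 : (n + j) ≤ (l + l2 + i3 + 1) := by clear * - b1 b3 b4 z31 ev n1p n2p n3p; omega
              have k98 : (l + l2 + i3 + 3) ≤ (2 * n + j) := by clear * - b1 b3 b4 b9 z28 z29 z31 z32; omega
              have k99 : (l + l2 + i3 + 3) ≤ (n + Q) := by clear * - b1 b10 b5 b7 b8 z28; omega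
              clear * - al a1 a2 s1 s2 b tt c u1 u2 d1 d2 n1 n2 n3 k97 k98 k99 z32
              exact al.ubQ (l + l2 + i3 - n - j + 2) (by omega) (by omega) fun t h1 h2 => (cE (sh al 1 t (t + (n)) (by omega)) (cII (qa s2 al 1 (t + (n)) ((i + j) - t) (by omega)) (ab u1 al (-1) ((i + j) - t) (t + (l + l2 + i3 - n - j + 2)) (by omega))))
            · by_cases z33 : (k + 2 * i2 + l2) ≤ (i + j + l + i3)
              · have k100 : (i2 + 1) ≤ (j) := by clear * - b0 b11 b3 z27 z28 z29 z30 z31 z32; omega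
                have k101 : (2 * i2 + l2 + 1) ≤ (i + j + l) := by clear * - b0 b10 b5 b8 z28 z30 z31 z32; omega
                have k102 : (j) ≤ (i2 + l2) := by clear * - b11 b3 z27 z28 z30 z31 z32; omega
                have k103 : (i + j + l + i3 + 1) ≤ (n + 2 * i2 + l2) := by clear * - b11 b3 z27 z28 z30 z31 z32; omega
                clear * - al a1 a2 s1 s2 b tt c u1 u2 d1 d2 n1 n2 n3 k100 k101 k102 k103 z33 z28
                exact n1.f0 (cE (qf c al 0 (j) (i + j + l - i2 + 1) (by omega)) (pb d1 al 0 (i + j + l - i2 + 1) (k) (by omega)))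
              · by_cases z34 : (2 * k + l + 2) ≤ (2 * n + i + i2)
                · have k104 : (i + 1) ≤ (l + i2) := by clear * - b0 b11 z27 z29 z30 z31 z32 z33 z34; omega
                  have k105 : (2 * n + i) ≤ (2 * k + l + i2 + 1) := by clear * - b0 b11 z29 z30 z31 z32 z33 z34; omega
                  have k106 : (i2) ≤ (i + l) := by clear * - b11 b3 b9 z30 z31 z32; omega
                  obtain ⟨t, ht⟩ : ∃ t, 2 * t = (i + l + i2 - 2 * n + 1) := ⟨(i + l + i2 - 2 * n + 1) / 2, by clear * - ev n1p n2p n3p; omega⟩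
                  clear * - al a1 a2 s1 s2 b tt c u1 u2 d1 d2 n1 n2 n3 k104 k105 k106 z34 ht
                  exact al.ninv t (cE (cI (qf b al (-1) t (t + (n + k - i)) (by omega)) (qa tt al 1 (t + (n + k - i)) ((i + l + i2 - n + 1) - t) (by omega))) (sh al (-1) ((i + l + i2 - n + 1) - t) t (by omega)))
                · have k107 : (j + k + i2 + 1) ≤ (2 * Q + i + l) := by clear * - b11 b3 z27 z29 z30 z31 z32 z33; omega
                  have k108 : (k + i2) ≤ (2 * Q + i + j + l + 1) := by clear * - b11 b3 z27 z29 z30 z31 z32 z33 z34; omega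
                  have k109 : (i + j + l + i2 + 3) ≤ (2 * Q + k) := by clear * - b11 b3 z27 z29 z30 z31 z32 z33 z34; omega
                  have k110 : (3 * i + j + l + 3) ≤ (2 * Q + k + i2) := by clear * - b11 b3 z27 z29 z30 z31 z32 z33 z34; omega
                  have k111 : (i + j + k) ≤ (2 * Q + l + i2 + 2 * l2 + 1) := by clear * - b11 b3 z27 z29 z30 z31 z32 z33 z34; omega
                  have k112 : (k + i2) ≤ (3 * i + j + l + 1) := by clear * - b10 b5 z30 z31 z32 z33; omega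
                  have k113 : (k + i2) ≤ (3 * i + 3 * j + l + 3) := by clear * - b11 b3 z27 z29 z30 z31 z32 z33 z34; omega
                  have k114 : (j + l + i2 + 3) ≤ (i + k) := by clear * - b11 b3 z27 z29 z30 z31 z32 z33; omega
                  have k115 : (i + j + 3 * l + i2 + 5) ≤ (3 * k) := by clear * - b11 b3 z27 z29 z30 z31 z32 z33 z34; omega
                  have k116 : (i + j + l + 3) ≤ (k + i2) := by clear * - b11 b3 z30 z31 z32 z33; omega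
                  have k117 : (5 * i + j + 3 * l + 5) ≤ (3 * k + 3 * i2) := by clear * - b11 b3 z27 z29 z30 z31 z32 z33 z34; omega
                  have k118 : (j + k) ≤ (i + l + i2 + 2 * l2 + 1) := by clear * - b11 b3 z27 z30 z31 z32 z33; omega
                  have k119 : (i + j + k) ≤ (l + 3 * i2 + 4 * l2 + 3) := by clear * - b11 b3 z27 z29 z30 z31 z32 z33 z34; omega
                  have k120 : (2 * n + i + j) % 2 = 0 := by clear * - ev n1p n2p n3p; omega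
                  have k121 : (k + i2 - i - j - l - 1) % 2 = 0 := by clear * - ev n1p n2p n3p; omega
                  clear * - al a1 a2 s1 s2 b tt c u1 u2 d1 d2 n1 n2 n3 k107 k108 k109 k110 k111 k112 k113 k114 k115 k116 k117 k118 k119 k120 k121
                  exact midP al (k + i2 - i - j - l - 1) (2 * n + i + j) (max (n + i + j - Q + 1) (max (n + 2 * i + j + l - k - i2 + 2) (max (n + i + j + l - k + 2) (max (n + i + j - i2 - l2) (n))))) (max (n + i + j + l - k + 2) (n)) (min (n + k + i2 - i - l - 1) (n + i2 + l2 + 1)) (by omega) (fun t h1 h2 => (cE (ab s2 al 1 t ((n + i + j) - t) (by omega)) (sh al 1 ((n + i + j) - t) ((2 * n + i + j) - t) (by omega)))) (fun t h1 h2 => (cE (cE (qf a1 al 1 t (t + (k - n - j)) (by omega)) (pb c al 0 (t + (k - n - j)) (t + (k + i2 - n - i - j - l - 1)) (by omega))) (sh al 1 (t + (k + i2 - n - i - j - l - 1)) (t + (k + i2 - i - j - l - 1)) (by omega))))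
      · by_cases z35 : (2 * k + l + 2) ≤ (2 * n + i + i2)
        · have k122 : (i + 1) ≤ (l + i2) := by clear * - b0 b1 b11 b5 b7 z27 z35; omega
          have k123 : (2 * n + i) ≤ (2 * k + l + i2 + 1) := by clear * - b0 b1 b5 b7; omega
          have k124 : (i2) ≤ (i + l) := by clear * - b1 b11 b5 b9 z29; omega
          obtain ⟨t, ht⟩ : ∃ t, 2 * t = (i + l + i2 - 2 * n + 1) := ⟨(i + l + i2 - 2 * n + 1) / 2, by clear * - ev n1p n2p n3p; omega⟩
          clear * - al a1 a2 s1 s2 b tt c u1 u2 d1 d2 n1 n2 n3 k122 k123 k124 z35 ht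
          exact al.ninv t (cE (cI (qf b al (-1) t (t + (n + k - i)) (by omega)) (qa tt al 1 (t + (n + k - i)) ((i + l + i2 - n + 1) - t) (by omega))) (sh al (-1) ((i + l + i2 - n + 1) - t) t (by omega)))
        · have k125 : (k + i2) ≤ (3 * i + j + l + 1) := by clear * - b1 b11 b5 b8 z27 z28 z29; omega
          have k126 : (j + l + i2 + 3) ≤ (i + k) := by clear * - b1 b10 b11 b5 b8 z28 z29; omega
          have k127 : (i + j + l + 3) ≤ (k + i2) := by clear * - b1 b11 b5 z28 z29; omega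
          have k128 : (j + k) ≤ (i + l + i2 + 2 * l2 + 1) := by clear * - b1 b11 b5 z27 z28 z29; omega
          have k129 : (k + i2) ≤ (3 * i + 3 * j + l + 3) := by clear * - b1 b11 b5 b8 z27 z28 z29 z35; omega
          have k130 : (i + j + 3 * l + i2 + 5) ≤ (3 * k) := by clear * - b1 b10 b11 b5 b8 z27 z28 z29 z35; omega
          have k131 : (5 * i + j + 3 * l + 5) ≤ (3 * k + 3 * i2) := by clear * - b1 b11 b5 b9 z28 z29 z35; omega
          have k132 : (i + j + k) ≤ (l + 3 * i2 + 4 * l2 + 3) := by clear * - b1 b11 b5 b9 z27 z28 z29 z35; omega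
          have k133 : (2 * n + i + j) % 2 = 0 := by clear * - ev n1p n2p n3p; omega
          have k134 : (k + i2 - i - j - l - 1) % 2 = 0 := by clear * - ev n1p n2p n3p; omega
          clear * - al a1 a2 s1 s2 b tt c u1 u2 d1 d2 n1 n2 n3 k125 k126 k127 k128 k129 k130 k131 k132 k133 k134
          exact midP al (k + i2 - i - j - l - 1) (2 * n + i + j) (max (n + 2 * i + j + l - k - i2 + 2) (max (n + i + j + l - k + 2) (max (n + i + j - i2 - l2) (max (n + j + 1) (n))))) (max (n + i + j + l - k + 2) (n)) (min (n + k + i2 - i - l - 1) (n + i2 + l2 + 1)) (by omega) (fun t h1 h2 => (cE (ab s1 al 1 t ((n + i + j) - t) (by omega)) (sh al 1 ((n + i + j) - t) ((2 * n + i + j) - t) (by omega)))) (fun t h1 h2 => (cE (cE (qf a1 al 1 t (t + (k - n - j)) (by omega)) (pb c al 0 (t + (k - n - j)) (t + (k + i2 - n - i - j - l - 1)) (by omega))) (sh al 1 (t + (k + i2 - n - i - j - l - 1)) (t + (k + i2 - i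 - j - l - 1)) (by omega))))
    · have k135 : (j + k + i2 + 1) ≤ (2 * Q + i + l) := by clear * - b1 b11 b3 b4 b5 b7 z27 z28; omega
      have k136 : (k + i2) ≤ (3 * i + j + l + 1) := by clear * - b1 b11 b3 b5 b7 z27 z28; omega
      have k137 : (j + l + i2 + 3) ≤ (i + k) := by clear * - b1 b11 b3 b4 b5 b7 z27 z28; omega
      have k138 : (i + j + l + 3) ≤ (k + i2) := by clear * - b1 b3 b4 b5 b7; omega
      have k139 : (j + k) ≤ (i + l + i2 + 2 * l2 + 1) := by clear * - b1 b3 b4 b5 b7 z27 z28; omega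
      have k140 : (k + i2) ≤ (2 * Q + i + j + l + 1) := by clear * - b0 b1 b11 b3 b4 b5 b7 z27 z28; omega
      have k141 : (k + i2) ≤ (3 * i + 3 * j + l + 3) := by clear * - b1 b3 b4 b5 b7 b9 z28; omega
      have k142 : (i + j + l + i2 + 3) ≤ (2 * Q + k) := by clear * - b1 b3 b4 b5 b7 b9 z28; omega
      have k143 : (i + j + 3 * l + i2 + 5) ≤ (3 * k) := by clear * - b1 b11 b3 b4 b5 b7 b9 z28; omega
      have k144 : (3 * i + j + l + 3) ≤ (2 * Q + k + i2) := by clear * - b0 b1 b11 b3 b4 b5 b7 z27 z28; omega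
      have k145 : (5 * i + j + 3 * l + 5) ≤ (3 * k + 3 * i2) := by clear * - b0 b1 b11 b3 b4 b5 b7 z27 z28; omega
      have k146 : (i + j + k) ≤ (2 * Q + l + i2 + 2 * l2 + 1) := by clear * - b0 b1 b11 b3 b4 b5 b7 z27 z28; omega
      have k147 : (i + j + k) ≤ (l + 3 * i2 + 4 * l2 + 3) := by clear * - b0 b1 b11 b3 b4 b5 b7 z27 z28; omega
      have k148 : (i + j - 2 * n) % 2 = 0 := by clear * - ev n1p n2p n3p; omega
      have k149 : (k + i2 - i - j - l - 1) % 2 = 0 := by clear * - ev n1p n2p n3p; omega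
      clear * - al a1 a2 s1 s2 b tt c u1 u2 d1 d2 n1 n2 n3 k135 k136 k137 k138 k139 k140 k141 k142 k143 k144 k145 k146 k147 k148 k149
      exact midP al (k + i2 - i - j - l - 1) (i + j - 2 * n) (max (2 * i + j + l - n - k - i2 + 2) (max (i + j + l - n - k + 2) (max (i + j - n - i2 - l2) (max (j - n + 1) (-n))))) (max (i + j + l - n - k + 2) (-n)) (min (k + i2 - n - i - l - 1) (i2 + l2 - n + 1)) (by omega) (fun t h1 h2 => (cE (qa s2 al (-1) t ((i + j - n) - t) (by omega)) (sh al (-1) ((i + j - n) - t) ((i + j - 2 * n) - t) (by omega)))) (fun t h1 h2 => (cE (cE (qf a1 al (-1) t (t + (n + k - j)) (by omega)) (pb c al 0 (t + (n + k - j)) (t + (n + k + i2 - i - j - l - 1)) (by omega))) (sh al (-1) (t + (n + k + i2 - i - j - l - 1)) (t + (k + i2 - i - j - l - 1)) (by omega))))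

theorem l2_11001_20 {W : ℤ → G} {n Q i j k l i2 l2 i3 : ℤ} (al : AL W n Q)
    {L : ℤ} (mx : ∀ a b g, 0 < g → g < n → Par W a b g → b - a ≤ L) (hL : L ≤ (n - j - 3) ∧ L ≤ (n + Q - k - 3) ∧ L ≤ (n - l - 3) ∧ L ≤ (k - j - 2) ∧ L ≤ (n - l2 - 3) ∧ L ≤ (i3 - 2) ∧ L ≤ (n + i2 + l2 - Q - 1) ∧ L ≤ (n + i2 - i - l - 3))
    (hy : (0) ≤ (i) ∧ (i) ≤ (j) ∧ (j + 1) ≤ (Q) ∧ (Q) ≤ (k) ∧ (k + 1) ≤ (n) ∧ (i + l + 2) ≤ (Q) ∧ (n) ≤ (k + l + 1) ∧ (0) ≤ (i2) ∧ (n + i2) ≤ (k + l + 1) ∧ (0) ≤ (i2 + l2 + 1) ∧ (i2 + l2 + 2) ≤ (Q) ∧ (Q) ≤ (i + l + l2 + 2) ∧ (i + l + l2 + 3) ≤ (n) ∧ (Q) ≤ (i3) ∧ (i3) ≤ (i + l + l2 + 2) ∧ (j + 3) ≤ (n) ∧ (k + 3) ≤ (n + Q) ∧ (l + 3) ≤ (n) ∧ (j + 2) ≤ (k) ∧ (l2 + 3) ≤ (n) ∧ (2) ≤ (i3) ∧ (Q + 1) ≤ (n + i2 + l2) ∧ (i + l + 3) ≤ (n + i2))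
    (a1 : Par W (0) (j) (k - j))
    (a2 : Par W (Q + j - k) (j) (k - j))
    (s1 : Ant W (0) (i) (i + j))
    (s2 : Ant W (j + 1) (Q) (i + j))
    (b : Par W (i + 1) (i + l + 1) (k - i))
    (tt : Ant W (0) (i2) (k + l + i2 - n + 1))
    (c : Par W (i2 + 1) (i2 + l2 + 1) (i + l - i2 + 1))
    (u1 : Ant W (Q) (i3) (i + l + l2 + i3 + 2))
    (u2 : Ant W (i + l + l2 + 3) (n) (i + l + l2 + i3 + 2))
    (d1 : Par W (i3 + 1) (n) (i2 + l2 - i3 + 1))
    (d2 : Par W (i2 + l2 + 2) (Q) (i3 - i2 - l2 - 1))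
    (n1 : Nd W (j) (i) (k))
    (n2 : Nd W (k + l - n + 1) (i2) (i + l + 1))
    (n3 : Nd W (i + l + l2 + 2) (i3) (i2 + l2 + 1))
    (b0 : (n + 2 * i) ≤ (j + k))
    (b1 : (2 * n + i2) ≤ (2 * i + 2 * l + l2 + i3 + 4))
    (b2 : (2 * l2 + 3) ≤ (n))
    (b3 : (i + k + 2 * l + 1) ≤ (n + 2 * j))
    (b4 : (i + 2 * j + 2) ≤ (k))
    (b5 : (i + k + l + l2 + i3 + 4) ≤ (n + 2 * Q + j))
    (b6 : (2 * Q + i3) ≤ (n + i + j + i2 + l2 + 2))
    (b7 : (Q + j) ≤ (k + i2))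
    (b8 : (l + i2 + 2 * l2 + 2) ≤ (n + j))
    (b9 : (2 * i3) ≤ (i + l + i2 + 2 * l2 + 3))
    (b10 : (k + 2 * i2 + 1) ≤ (n + i))
    (b11 : (k) ≤ (j + i2 + l2 + 1)) : False := by
  have ev := al.ev
  obtain ⟨y0, y1, y2, y3, y4, y5, y6, y7, y8, y9, y10, y11, y12, y13, y14, y15, y16, y17, y18, y19, y20, y21, y22⟩ := id hy
  have n1p := And.intro n1.p1 n1.p2
  have n2p := And.intro n2.p1 n2.p2
  have n3p := And.intro n3.p1 n3.p2
  by_cases z36 : (k + i2) ≤ (3 * i + j + l + 1)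
  · by_cases z37 : (k) ≤ (i + j + l + i2 + 1)
    · have k150 : (2 * n) ≤ (i + j + k + 3 * l + i2 + 5) := by clear * - b0 b1 b11 b4 b5 b7 b8 z36 z37; omega
      have k151 : (i + j + l + 3) ≤ (k + i2) := by clear * - b1 b3 b4 b5 b7; omega
      have k152 : (2 * n + 3 * i + 3 * j + l + 3) ≤ (5 * k + i2) := by clear * - b0 b1 b3 b4 b5 b7 z36; omega
      have k153 : (i + k + 3 * l + 5) ≤ (2 * n + j + i2) := by clear * - b1 b3 b4 b5 b7 z36 z37; omega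
      have k154 : (3 * i + 5 * l + 7) ≤ (2 * n + j + k + i2) := by clear * - b1 b3 b4 b5 b7 b8 b9 z37; omega
      have k155 : (3 * k + l + 1) ≤ (2 * n + i + j + i2 + 2 * l2) := by clear * - b11 b3 b4 z36 z37; omega
      have k156 : (3 * k + l) ≤ (2 * n + i + j + i2 + 4 * l2 + 1) := by clear * - b1 b3 b4 b5 b7 b8 b9 z36 z37; omega
      have k157 : (k + l + i2 - 3 * n + 1) % 2 = 0 := by clear * - ev n1p n2p n3p; omega
      have k158 : (k + i2 - i - j - l - 1) % 2 = 0 := by clear * - ev n1p n2p n3p; omega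
      clear * - al a1 a2 s1 s2 b tt c u1 u2 d1 d2 n1 n2 n3 z37 k150 k151 k152 k153 k154 k155 k156 k157 k158
      exact midP al (k + i2 - i - j - l - 1) (k + l + i2 - 3 * n + 1) (max (i + j + l - n - k + 2) (max (-n) (max (i + 2 * l - 2 * n + 3) (k + l - 2 * n - l2 + 1)))) (max (i + j + l - n - k + 2) (-n)) (min (k + i2 - n - i - l - 1) (i2 + l2 - n + 1)) (by omega) (fun t h1 h2 => (cE (qa tt al (-1) t ((k + l + i2 - 2 * n + 1) - t) (by omega)) (sh al (-1) ((k + l + i2 - 2 * n + 1) - t) ((k + l + i2 - 3 * n + 1) - t) (by omega)))) (fun t h1 h2 => (cE (cE (qf a1 al (-1) t (t + (n + k - j)) (by omega)) (pb c al 0 (t + (n + k - j)) (t + (n + k + i2 - i - j - l - 1)) (by omega))) (sh al (-1) (t + (n + k + i2 - i - j - l - 1)) (t + (k + i2 - i - j - l - 1)) (by omega))))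
    · by_cases z38 : (2 * k + l + 2) ≤ (2 * n + i + i2)
      · have k159 : (i + 1) ≤ (l + i2) := by clear * - b0 b11 b2 b4 z36; omega
        have k160 : (2 * n + i) ≤ (2 * k + l + i2 + 1) := by clear * - b0 b1 b5 b7; omega
        have k161 : (i2) ≤ (i + l) := by clear * - b1 b11 b4 b8 b9; omega
        obtain ⟨t, ht⟩ : ∃ t, 2 * t = (i + l + i2 + 1) := ⟨(i + l + i2 + 1) / 2, by clear * - ev n1p n2p n3p; omega⟩
        clear * - al a1 a2 s1 s2 b tt c u1 u2 d1 d2 n1 n2 n3 k159 k160 k161 z38 ht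
        exact al.ninv t (cI (qf b al 0 t (t + (k - i)) (by omega)) (qa tt al 1 (t + (k - i)) t (by omega)))
      · by_cases z39 : (k + 2 * i2 + l2) ≤ (i + j + l + i3)
        · by_cases z40 : (i + j + l + i3) ≤ (k + 2 * i2 + l2)
          · have k162 : (k) ≤ (j + i3) := by clear * - b1 b11 b5 b7 z37 z39; omega
            have k163 : (k + i2 + 1) ≤ (j + i3) := by clear * - b1 b11 b5 b7 z37 z39; omega
            have k164 : (i3 + 1) ≤ (k) := by clear * - b11 b4 b8 b9 z36 z38 z40; omega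
            have k165 : (j + i3) ≤ (k + i2 + l2) := by clear * - b11 b4 b8 z36 z38 z40; omega
            clear * - al a1 a2 s1 s2 b tt c u1 u2 d1 d2 n1 n2 n3 k162 k163 k164 k165 z39 z40
            exact n3.f1 (cE (pb a1 al 0 (i3) (j + i3 - k) (by omega)) (qf c al 0 (j + i3 - k) (i2 + l2 + 1) (by omega)))
          · by_cases z41 : (Q + l + l2 + 2) ≤ (n + j)
            · have k166 : (n + j) ≤ (l + l2 + i3 + 1) := by clear * - b1 b11 b4 b8; omega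
              have k167 : (l + l2 + i3 + 3) ≤ (2 * n + j) := by clear * - b11 b4 b5 b7 z36 z37 z38 z40; omega
              have k168 : (l + l2 + i3 + 3) ≤ (n + Q) := by clear * - b5 b7 z36 z37; omega
              clear * - al a1 a2 s1 s2 b tt c u1 u2 d1 d2 n1 n2 n3 k166 k167 k168 z41
              exact al.ubQ (l + l2 + i3 - n - j + 2) (by omega) (by omega) fun t h1 h2 => (cE (sh al (-1) t (t + (-n)) (by omega)) (cII (qa s2 al (-1) (t + (-n)) ((i + j) - t) (by omega)) (ab u1 al (-1) ((i + j) - t) (t + (l + l2 + i3 - n - j + 2)) (by omega))))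
            · have k169 : (j + l + i2 + 3) ≤ (i + k) := by clear * - b11 b7 b8 z36 z37 z41; omega
              have k170 : (i + j + l + 3) ≤ (k + i2) := by clear * - b1 b11 b5 b7 z37 z40; omega
              have k171 : (j + k) ≤ (i + l + i2 + 2 * l2 + 1) := by clear * - b10 b11 b7 b8 z41; omega
              have k172 : (k + i2) ≤ (3 * i + 3 * j + l + 3) := by clear * - b10 b11 b7 b8 z36 z37 z38 z41; omega
              have k173 : (i + j + 3 * l + i2 + 5) ≤ (3 * k) := by clear * - b10 b11 b7 b8 z36 z37 z38 z41; omega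
              have k174 : (5 * i + j + 3 * l + 5) ≤ (3 * k + 3 * i2) := by clear * - b11 b5 b7 b8 z36 z37 z38 z40 z41; omega
              have k175 : (i + j + k) ≤ (l + 3 * i2 + 4 * l2 + 3) := by clear * - b10 b11 b5 b7 z36 z37 z38 z40 z41; omega
              have k176 : (i + j) % 2 = 0 := by clear * - ev n1p n2p n3p; omega
              have k177 : (k + i2 - i - j - l - 1) % 2 = 0 := by clear * - ev n1p n2p n3p; omega
              clear * - al a1 a2 s1 s2 b tt c u1 u2 d1 d2 n1 n2 n3 z36 k169 k170 k171 k172 k173 k174 k175 k176 k177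
              exact midP al (k + i2 - i - j - l - 1) (i + j) (max (2 * i + j + l - k - i2 + 2) (max (i + j + l - k + 2) (max (i + j - i2 - l2) (max (j + 1) (0))))) (max (i + j + l - k + 2) (0)) (min (k + i2 - i - l - 1) (i2 + l2 + 1)) (by omega) (fun t h1 h2 => (ab s1 al 0 t ((i + j) - t) (by omega))) (fun t h1 h2 => (cE (qf a1 al 0 t (t + (k - j)) (by omega)) (pb c al 0 (t + (k - j)) (t + (k + i2 - i - j - l - 1)) (by omega))))
        · have k178 : (j + k + i2 + 1) ≤ (2 * Q + i + l) := by clear * - b1 b11 b4 b5 b8 z36; omega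
          have k179 : (j + l + i2 + 3) ≤ (i + k) := by clear * - b1 b10 b11 b5 b7 b8 z37; omega
          have k180 : (i + j + l + 3) ≤ (k + i2) := by clear * - b1 b11 b4 b8 z39; omega
          have k181 : (j + k) ≤ (i + l + i2 + 2 * l2 + 1) := by clear * - b11 b4 z36; omega
          have k182 : (k + i2) ≤ (2 * Q + i + j + l + 1) := by clear * - b1 b11 b4 b5 b8 z36 z38 z39; omega
          have k183 : (k + i2) ≤ (3 * i + 3 * j + l + 3) := by clear * - b1 b11 b4 b8 z36 z38 z39; omega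
          have k184 : (i + j + l + i2 + 3) ≤ (2 * Q + k) := by clear * - b1 b11 b4 b5 b8 z36 z37 z38 z39; omega
          have k185 : (i + j + 3 * l + i2 + 5) ≤ (3 * k) := by clear * - b1 b11 b4 b8 z36 z37 z38 z39; omega
          have k186 : (3 * i + j + l + 3) ≤ (2 * Q + k + i2) := by clear * - b1 b11 b4 b5 b8 z36 z38 z39; omega
          have k187 : (5 * i + j + 3 * l + 5) ≤ (3 * k + 3 * i2) := by clear * - b1 b11 b4 b8 z36 z38 z39; omega
          have k188 : (i + j + k) ≤ (2 * Q + l + i2 + 2 * l2 + 1) := by clear * - b1 b11 b4 b5 b8 z36 z38 z39; omega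
          have k189 : (i + j + k) ≤ (l + 3 * i2 + 4 * l2 + 3) := by clear * - b1 b11 b4 b8 z36 z38 z39; omega
          have k190 : (i + j - 2 * n) % 2 = 0 := by clear * - ev n1p n2p n3p; omega
          have k191 : (k + i2 - i - j - l - 1) % 2 = 0 := by clear * - ev n1p n2p n3p; omega
          clear * - al a1 a2 s1 s2 b tt c u1 u2 d1 d2 n1 n2 n3 k178 z36 k179 k180 k181 k182 k183 k184 k185 k186 k187 k188 k189 k190 k191
          exact midP al (k + i2 - i - j - l - 1) (i + j - 2 * n) (max (2 * i + j + l - n - k - i2 + 2) (max (i + j + l - n - k + 2) (max (i + j - n - i2 - l2) (max (j - n + 1) (-n))))) (max (i + j + l - n - k + 2) (-n)) (min (k + i2 - n - i - l - 1) (i2 + l2 - n + 1)) (by omega) (fun t h1 h2 => (cE (qa s2 al (-1) t ((i + j - n) - t) (by omega)) (sh al (-1) ((i + j - n) - t) ((i + j - 2 * n) - t) (by omega)))) (fun t h1 h2 => (cE (cE (qf a1 al (-1) t (t + (n + k - j)) (by omega))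 (pb c al 0 (t + (n + k - j)) (t + (n + k + i2 - i - j - l - 1)) (by omega))) (sh al (-1) (t + (n + k + i2 - i - j - l - 1)) (t + (k + i2 - i - j - l - 1)) (by omega))))
  · have k192 : (j + l + l2 + i3 + 4) ≤ (2 * n) := by clear * - b10 b5 b7; omega
    have k193 : (j + l2 + i3 + 2) ≤ (2 * k + l) := by clear * - b1 b10 b11 b5 b7 b8 b9 z36; omega
    have k194 : (2 * i + l + l2 + i3 + 4) ≤ (j + 2 * k) := by clear * - b1 b10 b11 b3 b5 b7 b8 b9 z36; omega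
    have k195 : (2 * i + l + l2 + 3) ≤ (j + i3) := by clear * - b1 b10 b11 b5 b7 b8 z36; omega
    have k196 : (2 * k) ≤ (j + l + l2 + i3 + 1) := by clear * - b1 b10 b11 b2 z36; omega
    have k197 : (2 * k) ≤ (2 * i + j + l + l2 + i3 + 3) := by clear * - b1 b10 b11 b5 b7 b8 z36; omega
    obtain ⟨t, ht⟩ : ∃ t, 2 * t = (2 * i + l + l2 + i3 - 2 * n - j + 2) := ⟨(2 * i + l + l2 + i3 - 2 * n - j + 2) / 2, by clear * - ev n1p n2p n3p; omega⟩
    clear * - al a1 a2 s1 s2 b tt c u1 u2 d1 d2 n1 n2 n3 k192 k193 k194 k195 k196 k197 ht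
    exact al.ninv t (cE (cE (cE (ab u2 al (-1) t ((i + l + l2 + i3 - n + 2) - t) (by omega)) (pb b al 0 ((i + l + l2 + i3 - n + 2) - t) ((2 * i + l + l2 + i3 - n - k + 2) - t) (by omega))) (qf a1 al 0 ((2 * i + l + l2 + i3 - n - k + 2) - t) ((2 * i + l + l2 + i3 - n - j + 2) - t) (by omega))) (sh al (-1) ((2 * i + l + l2 + i3 - n - j + 2) - t) t (by omega)))

theorem l2_11001_18 {W : ℤ → G} {n Q i j k l i2 l2 i3 : ℤ} (al : AL W n Q)
    {L : ℤ} (mx : ∀ a b g, 0 < g → g < n → Par W a b g → b - a ≤ L) (hL : L ≤ (n - j - 3) ∧ L ≤ (n + Q - k - 3) ∧ L ≤ (n - l - 3) ∧ L ≤ (k - j - 2) ∧ L ≤ (n - l2 - 3) ∧ L ≤ (i3 - 2) ∧ L ≤ (n + i2 + l2 - Q - 1) ∧ L ≤ (n + i2 - i - l - 3))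
    (hy : (0) ≤ (i) ∧ (i) ≤ (j) ∧ (j + 1) ≤ (Q) ∧ (Q) ≤ (k) ∧ (k + 1) ≤ (n) ∧ (i + l + 2) ≤ (Q) ∧ (n) ≤ (k + l + 1) ∧ (0) ≤ (i2) ∧ (n + i2) ≤ (k + l + 1) ∧ (0) ≤ (i2 + l2 + 1) ∧ (i2 + l2 + 2) ≤ (Q) ∧ (Q) ≤ (i + l + l2 + 2) ∧ (i + l + l2 + 3) ≤ (n) ∧ (Q) ≤ (i3) ∧ (i3) ≤ (i + l + l2 + 2) ∧ (j + 3) ≤ (n) ∧ (k + 3) ≤ (n + Q) ∧ (l + 3) ≤ (n) ∧ (j + 2) ≤ (k) ∧ (l2 + 3) ≤ (n) ∧ (2) ≤ (i3) ∧ (Q + 1) ≤ (n + i2 + l2) ∧ (i + l + 3) ≤ (n + i2))
    (a1 : Par W (0) (j) (k - j))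
    (a2 : Par W (Q + j - k) (j) (k - j))
    (s1 : Ant W (0) (i) (i + j))
    (s2 : Ant W (j + 1) (Q) (i + j))
    (b : Par W (i + 1) (i + l + 1) (k - i))
    (tt : Ant W (0) (i2) (k + l + i2 - n + 1))
    (c : Par W (i2 + 1) (i2 + l2 + 1) (i + l - i2 + 1))
    (u1 : Ant W (Q) (i3) (i + l + l2 + i3 + 2))
    (u2 : Ant W (i + l + l2 + 3) (n) (i + l + l2 + i3 + 2))
    (d1 : Par W (i3 + 1) (n) (i2 + l2 - i3 + 1))
    (d2 : Par W (i2 + l2 + 2) (Q) (i3 - i2 - l2 - 1))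
    (n1 : Nd W (j) (i) (k))
    (n2 : Nd W (k + l - n + 1) (i2) (i + l + 1))
    (n3 : Nd W (i + l + l2 + 2) (i3) (i2 + l2 + 1))
    (b0 : (n + 2 * i) ≤ (j + k))
    (b1 : (2 * n + i2) ≤ (2 * i + 2 * l + l2 + i3 + 4))
    (b2 : (2 * l2 + 3) ≤ (n))
    (b3 : (i + k + 2 * l + 1) ≤ (n + 2 * j))
    (b4 : (i + 2 * j + 2) ≤ (k))
    (b5 : (i + k + l + l2 + i3 + 4) ≤ (n + 2 * Q + j))
    (b6 : (2 * Q + i3) ≤ (n + i + j + i2 + l2 + 2))
    (b7 : (Q + j) ≤ (k + i2))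
    (b8 : (l + i2 + 2 * l2 + 2) ≤ (n + j))
    (b9 : (2 * i3) ≤ (i + l + i2 + 2 * l2 + 3))
    (b10 : (k + 2 * i2 + 1) ≤ (n + i)) : False := by
  have ev := al.ev
  obtain ⟨y0, y1, y2, y3, y4, y5, y6, y7, y8, y9, y10, y11, y12, y13, y14, y15, y16, y17, y18, y19, y20, y21, y22⟩ := id hy
  have n1p := And.intro n1.p1 n1.p2
  have n2p := And.intro n2.p1 n2.p2
  have n3p := And.intro n3.p1 n3.p2
  by_cases z26 : (j + i2 + l2 + 2) ≤ (k)
  · exact l2_11001_19 al mx hL hy a1 a2 s1 s2 b tt c u1 u2 d1 d2 n1 n2 n3 (by clear * - b0; omega) (by clear * - b1; omega) (by clear * - b2; omega) (by clear * - b3; omega) (by clear * - b4; omega) (by clear * - b5; omega) (by clear * - b6; omega) (by clear * - b7; omega) (by clear * - b8; omega) (by clear * - b9; omega) (by clear * - b10; omega) (by clear * - z26; omega)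
  · exact l2_11001_20 al mx hL hy a1 a2 s1 s2 b tt c u1 u2 d1 d2 n1 n2 n3 (by clear * - b0; omega) (by clear * - b1; omega) (by clear * - b2; omega) (by clear * - b3; omega) (by clear * - b4; omega) (by clear * - b5; omega) (by clear * - b6; omega) (by clear * - b7; omega) (by clear * - b8; omega) (by clear * - b9; omega) (by clear * - b10; omega) (by clear * - z26; omega)

theorem l2_11001_17 {W : ℤ → G} {n Q i j k l i2 l2 i3 : ℤ} (al : AL W n Q)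
    {L : ℤ} (mx : ∀ a b g, 0 < g → g < n → Par W a b g → b - a ≤ L) (hL : L ≤ (n - j - 3) ∧ L ≤ (n + Q - k - 3) ∧ L ≤ (n - l - 3) ∧ L ≤ (k - j - 2) ∧ L ≤ (n - l2 - 3) ∧ L ≤ (i3 - 2) ∧ L ≤ (n + i2 + l2 - Q - 1) ∧ L ≤ (n + i2 - i - l - 3))
    (hy : (0) ≤ (i) ∧ (i) ≤ (j) ∧ (j + 1) ≤ (Q) ∧ (Q) ≤ (k) ∧ (k + 1) ≤ (n) ∧ (i + l + 2) ≤ (Q) ∧ (n) ≤ (k + l + 1) ∧ (0) ≤ (i2) ∧ (n + i2) ≤ (k + l + 1) ∧ (0) ≤ (i2 + l2 + 1) ∧ (i2 + l2 + 2) ≤ (Q) ∧ (Q) ≤ (i + l + l2 + 2) ∧ (i + l + l2 + 3) ≤ (n) ∧ (Q) ≤ (i3) ∧ (i3) ≤ (i + l + l2 + 2) ∧ (j + 3) ≤ (n) ∧ (k + 3) ≤ (n + Q) ∧ (l + 3) ≤ (n) ∧ (j + 2) ≤ (k) ∧ (l2 + 3) ≤ (n) ∧ (2) ≤ (i3) ∧ (Q + 1) ≤ (n + i2 + l2) ∧ (i + l + 3) ≤ (n + i2))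
    (a1 : Par W (0) (j) (k - j))
    (a2 : Par W (Q + j - k) (j) (k - j))
    (s1 : Ant W (0) (i) (i + j))
    (s2 : Ant W (j + 1) (Q) (i + j))
    (b : Par W (i + 1) (i + l + 1) (k - i))
    (tt : Ant W (0) (i2) (k + l + i2 - n + 1))
    (c : Par W (i2 + 1) (i2 + l2 + 1) (i + l - i2 + 1))
    (u1 : Ant W (Q) (i3) (i + l + l2 + i3 + 2))
    (u2 : Ant W (i + l + l2 + 3) (n) (i + l + l2 + i3 + 2))
    (d1 : Par W (i3 + 1) (n) (i2 + l2 - i3 + 1))
    (d2 : Par W (i2 + l2 + 2) (Q) (i3 - i2 - l2 - 1))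
    (n1 : Nd W (j) (i) (k))
    (n2 : Nd W (k + l - n + 1) (i2) (i + l + 1))
    (n3 : Nd W (i + l + l2 + 2) (i3) (i2 + l2 + 1))
    (b0 : (n + 2 * i) ≤ (j + k))
    (b1 : (2 * n + i2) ≤ (2 * i + 2 * l + l2 + i3 + 4))
    (b2 : (2 * l2 + 3) ≤ (n))
    (b3 : (i + k + 2 * l + 1) ≤ (n + 2 * j))
    (b4 : (i + 2 * j + 2) ≤ (k))
    (b5 : (i + k + l + l2 + i3 + 4) ≤ (n + 2 * Q + j))
    (b6 : (2 * Q + i3) ≤ (n + i + j + i2 + l2 + 2))
    (b7 : (Q + j) ≤ (k + i2))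
    (b8 : (l + i2 + 2 * l2 + 2) ≤ (n + j))
    (b9 : (2 * i3) ≤ (i + l + i2 + 2 * l2 + 3)) : False := by
  have ev := al.ev
  obtain ⟨y0, y1, y2, y3, y4, y5, y6, y7, y8, y9, y10, y11, y12, y13, y14, y15, y16, y17, y18, y19, y20, y21, y22⟩ := id hy
  have n1p := And.intro n1.p1 n1.p2
  have n2p := And.intro n2.p1 n2.p2
  have n3p := And.intro n3.p1 n3.p2
  by_cases z25 : (n + i) ≤ (k + 2 * i2)
  · have k76 : (i + k + 2) ≤ (n + 2 * i2) := by clear * - y4 z25; omega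
    have k77 : (k + 2) ≤ (n + i) := by clear * - y0 y4 ev n1p n2p n3p; omega
    have k78 : (n + i) ≤ (k + 2 * l + 2 * i2 + 2) := by clear * - b0 b1 b2 b4 b5 b8 b9 y13 z25; omega
    have k79 : (i + k) ≤ (n + 2 * l + 2 * i2) := by clear * - b0 b1 b3 b4 b8 b9 y4 z25; omega
    have k80 : (n) ≤ (i + k + 2 * l + 2) := by clear * - b1 b2 b3 b4 b9 z25; omega
    have k81 : (k + 2 * i2) ≤ (n + 3 * i + 2 * l) := by clear * - b1 b3 b4 b5 b7 b8 b9 y4 z25; omega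
    have k82 : (k + l + i2 - n + 1) % 2 = 0 := by clear * - ev n1p n2p n3p; omega
    have k83 : (n + i - k) % 2 = 0 := by clear * - ev n1p n2p n3p; omega
    clear * - al a1 a2 s1 s2 b tt c u1 u2 d1 d2 n1 n2 n3 z25 k76 k77 k78 k79 k80 k81 k82 k83
    exact midP al (n + i - k) (k + l + i2 - n + 1) (max (k + i2 - n - i + 1) (max (k + l - n + 2) (k - n + 1))) (k - n + 1) (i + l + 1) (by omega) (fun t h1 h2 => (ab tt al 0 t ((k + l + i2 - n + 1) - t) (by omega))) (fun t h1 h2 => (pb b al (-1) t (t + (n + i - k)) (by omega)))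
  · exact l2_11001_18 al mx hL hy a1 a2 s1 s2 b tt c u1 u2 d1 d2 n1 n2 n3 (by clear * - b0; omega) (by clear * - b1; omega) (by clear * - b2; omega) (by clear * - b3; omega) (by clear * - b4; omega) (by clear * - b5; omega) (by clear * - b6; omega) (by clear * - b7; omega) (by clear * - b8; omega) (by clear * - b9; omega) (by clear * - z25; omega)

theorem l2_11001_16 {W : ℤ → G} {n Q i j k l i2 l2 i3 : ℤ} (al : AL W n Q)
    {L : ℤ} (mx : ∀ a b g, 0 < g → g < n → Par W a b g → b - a ≤ L) (hL : L ≤ (n - j - 3) ∧ L ≤ (n + Q - k - 3) ∧ L ≤ (n - l - 3) ∧ L ≤ (k - j - 2) ∧ L ≤ (n - l2 - 3) ∧ L ≤ (i3 - 2) ∧ L ≤ (n + i2 + l2 - Q - 1) ∧ L ≤ (n + i2 - i - l - 3))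
    (hy : (0) ≤ (i) ∧ (i) ≤ (j) ∧ (j + 1) ≤ (Q) ∧ (Q) ≤ (k) ∧ (k + 1) ≤ (n) ∧ (i + l + 2) ≤ (Q) ∧ (n) ≤ (k + l + 1) ∧ (0) ≤ (i2) ∧ (n + i2) ≤ (k + l + 1) ∧ (0) ≤ (i2 + l2 + 1) ∧ (i2 + l2 + 2) ≤ (Q) ∧ (Q) ≤ (i + l + l2 + 2) ∧ (i + l + l2 + 3) ≤ (n) ∧ (Q) ≤ (i3) ∧ (i3) ≤ (i + l + l2 + 2) ∧ (j + 3) ≤ (n) ∧ (k + 3) ≤ (n + Q) ∧ (l + 3) ≤ (n) ∧ (j + 2) ≤ (k) ∧ (l2 + 3) ≤ (n) ∧ (2) ≤ (i3) ∧ (Q + 1) ≤ (n + i2 + l2) ∧ (i + l + 3) ≤ (n + i2))
    (a1 : Par W (0) (j) (k - j))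
    (a2 : Par W (Q + j - k) (j) (k - j))
    (s1 : Ant W (0) (i) (i + j))
    (s2 : Ant W (j + 1) (Q) (i + j))
    (b : Par W (i + 1) (i + l + 1) (k - i))
    (tt : Ant W (0) (i2) (k + l + i2 - n + 1))
    (c : Par W (i2 + 1) (i2 + l2 + 1) (i + l - i2 + 1))
    (u1 : Ant W (Q) (i3) (i + l + l2 + i3 + 2))
    (u2 : Ant W (i + l + l2 + 3) (n) (i + l + l2 + i3 + 2))
    (d1 : Par W (i3 + 1) (n) (i2 + l2 - i3 + 1))
    (d2 : Par W (i2 + l2 + 2) (Q) (i3 - i2 - l2 - 1))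
    (n1 : Nd W (j) (i) (k))
    (n2 : Nd W (k + l - n + 1) (i2) (i + l + 1))
    (n3 : Nd W (i + l + l2 + 2) (i3) (i2 + l2 + 1))
    (b0 : (n + 2 * i) ≤ (j + k))
    (b1 : (2 * n + i2) ≤ (2 * i + 2 * l + l2 + i3 + 4))
    (b2 : (2 * l2 + 3) ≤ (n))
    (b3 : (i + k + 2 * l + 1) ≤ (n + 2 * j))
    (b4 : (i + 2 * j + 2) ≤ (k))
    (b5 : (i + k + l + l2 + i3 + 4) ≤ (n + 2 * Q + j))
    (b6 : (2 * Q + i3) ≤ (n + i + j + i2 + l2 + 2))
    (b7 : (Q + j) ≤ (k + i2))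
    (b8 : (l + i2 + 2 * l2 + 2) ≤ (n + j)) : False := by
  have ev := al.ev
  obtain ⟨y0, y1, y2, y3, y4, y5, y6, y7, y8, y9, y10, y11, y12, y13, y14, y15, y16, y17, y18, y19, y20, y21, y22⟩ := id hy
  have n1p := And.intro n1.p1 n1.p2
  have n2p := And.intro n2.p1 n2.p2
  have n3p := And.intro n3.p1 n3.p2
  by_cases z24 : (i + l + i2 + 2 * l2 + 4) ≤ (2 * i3)
  · have k73 : (i + l + i2 + 2 * l2 + 5) ≤ (2 * i3) := by clear * - z24 ev n1p n2p n3p; omega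
    have k74 : (i + l + 2 * i3 + 3) ≤ (2 * n + i2) := by clear * - b4 b5 b6; omega
    have k75 : (i2) ≤ (i + l) := by clear * - b1 b4 b5 b6 z24; omega
    obtain ⟨t, ht⟩ : ∃ t, 2 * t = (2 * n + i + l + 2 * i3 - i2 + 1) := ⟨(2 * n + i + l + 2 * i3 - i2 + 1) / 2, by clear * - ev n1p n2p n3p; omega⟩
    clear * - al a1 a2 s1 s2 b tt c u1 u2 d1 d2 n1 n2 n3 k73 k74 k75 ht
    exact al.ninv t (cE (cE (qa u2 al 1 t ((n + i + l + l2 + i3 + 2) - t) (by omega)) (pb d1 al 0 ((n + i + l + l2 + i3 + 2) - t) ((n + i + l + 2 * i3 - i2 + 1) - t) (by omega))) (sh al 1 ((n + i + l + 2 * i3 - i2 + 1) - t) t (by omega)))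
  · exact l2_11001_17 al mx hL hy a1 a2 s1 s2 b tt c u1 u2 d1 d2 n1 n2 n3 (by clear * - b0; omega) (by clear * - b1; omega) (by clear * - b2; omega) (by clear * - b3; omega) (by clear * - b4; omega) (by clear * - b5; omega) (by clear * - b6; omega) (by clear * - b7; omega) (by clear * - b8; omega) (by clear * - z24; omega)

end Pool.Agent.MP_a38735_al.WL
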