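import Pool.Agent.MP_a38735_al.Q2c0

set_option autoImplicit false
set_option linter.unusedVariables false

namespace Pool.Agent.MP_a38735_al.WL

variable {G : Type*} [Group G]

theorem l2_11001_15 {W : ℤ → G} {n Q i j k l i2 l2 i3 : ℤ} (al : AL W n Q)
    {L : ℤ} (mx : ∀ a b g, 0 < g → g < n → Par W a b g → b - a ≤ L) (hL : L ≤ (n - j - 3) ∧ L ≤ (n + Q - k - 3) ∧ L ≤ (n - l - 3) ∧ L ≤ (k - j - 2) ∧ L ≤ (n - l2 - 3) ∧ L ≤ (i3 - 2) ∧ L ≤ (n + i2 + l2 - Q - 1) ∧ L ≤ (n + i2 - i - l - 3))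
    (hy : (0) ≤ (i) ∧ (i) ≤ (j) ∧ (j + 1) ≤ (Q) ∧ (Q) ≤ (k) ∧ (k + 1) ≤ (n) ∧ (i + l + 2) ≤ (Q) ∧ (n) ≤ (k + l + 1) ∧ (0) ≤ (i2) ∧ (n + i2) ≤ (k + l + 1) ∧ (0) ≤ (i2 + l2 + 1) ∧ (i2 + l2 + 2) ≤ (Q) ∧ (Q) ≤ (i + l + l2 + 2) ∧ (i + l + l2 + 3) ≤ (n) ∧ (Q) ≤ (i3) ∧ (i3) ≤ (i + l + l2 + 2) ∧ (j + 3) ≤ (n) ∧ (k + 3) ≤ (n + Q) ∧ (l + 3) ≤ (n) ∧ (j + 2) ≤ (k) ∧ (l2 + 3) ≤ (n) ∧ (2) ≤ (i3) ∧ (Q + 1) ≤ (n + i2 + l2) ∧ (i + l + 3) ≤ (n + i2))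
    (a1 : Par W (0) (j) (k - j))
    (a2 : Par W (Q + j - k) (j) (k - j))
    (s1 : Ant W (0) (i) (i + j))
    (s2 : Ant W (j + 1) (Q) (i + j))
    (b : Par W (i + 1) (i + l + 1) (k - i))
    (tt : Ant W (0) (i2) (k + l + i2 - n + 1))
    (c : Par W (i2 + 1) (i2 + l2 + 1) (i + l - i2 + 1))
    (u1 : Ant W (Q) (i3) (i + l + l2 + i3 + 2))
    (u2 : Ant W (i + l + l2 + 3) (n) (i + l + l2 + i3 + 2))
    (d1 : Par W (i3 + 1) (n) (i2 + l2 - i3 + 1))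
    (d2 : Par W (i2 + l2 + 2) (Q) (i3 - i2 - l2 - 1))
    (n1 : Nd W (j) (i) (k))
    (n2 : Nd W (k + l - n + 1) (i2) (i + l + 1))
    (n3 : Nd W (i + l + l2 + 2) (i3) (i2 + l2 + 1))
    (b0 : (n + 2 * i) ≤ (j + k))
    (b1 : (2 * n + i2) ≤ (2 * i + 2 * l + l2 + i3 + 4))
    (b2 : (2 * l2 + 3) ≤ (n))
    (b3 : (i + k + 2 * l + 1) ≤ (n + 2 * j))
    (b4 : (i + 2 * j + 2) ≤ (k))
    (b5 : (i + k + l + l2 + i3 + 4) ≤ (n + 2 * Q + j))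
    (b6 : (2 * Q + i3) ≤ (n + i + j + i2 + l2 + 2))
    (b7 : (Q + j) ≤ (k + i2)) : False := by
  have ev := al.ev
  obtain ⟨y0, y1, y2, y3, y4, y5, y6, y7, y8, y9, y10, y11, y12, y13, y14, y15, y16, y17, y18, y19, y20, y21, y22⟩ := id hy
  have n1p := And.intro n1.p1 n1.p2
  have n2p := And.intro n2.p1 n2.p2
  have n3p := And.intro n3.p1 n3.p2
  by_cases z23 : (n + j) ≤ (l + i2 + 2 * l2 + 1)
  · have k69 : (l + i2 + 3) ≤ (n + j) := by clear * - b1 b2 b3 b4 b5 b6 b7; omega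
    have k70 : (j + l + 3) ≤ (n + i2) := by clear * - b2 b3 b4 y0 z23; omega
    have k71 : (n + j) ≤ (l + i2 + 2 * l2 + 2) := by clear * - z23; omega
    have k72 : (n + j + i2) ≤ (2 * Q + l) := by clear * - b1 b4 b5; omega
    obtain ⟨t, ht⟩ : ∃ t, 2 * t = (2 * i + j + l - n - i2 + 1) := ⟨(2 * i + j + l - n - i2 + 1) / 2, by clear * - ev n1p n2p n3p; omega⟩
    clear * - al a1 a2 s1 s2 b tt c u1 u2 d1 d2 n1 n2 n3 k69 k70 k71 k72 ht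
    exact al.ninv t (cI (pb c al (-1) t (t + (n + i2 - i - l - 1)) (by omega)) (qa s2 al 0 (t + (n + i2 - i - l - 1)) t (by omega)))
  · exact l2_11001_16 al mx hL hy a1 a2 s1 s2 b tt c u1 u2 d1 d2 n1 n2 n3 (by clear * - b0; omega) (by clear * - b1; omega) (by clear * - b2; omega) (by clear * - b3; omega) (by clear * - b4; omega) (by clear * - b5; omega) (by clear * - b6; omega) (by clear * - b7; omega) (by clear * - z23; omega)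

theorem l2_11001_14 {W : ℤ → G} {n Q i j k l i2 l2 i3 : ℤ} (al : AL W n Q)
    {L : ℤ} (mx : ∀ a b g, 0 < g → g < n → Par W a b g → b - a ≤ L) (hL : L ≤ (n - j - 3) ∧ L ≤ (n + Q - k - 3) ∧ L ≤ (n - l - 3) ∧ L ≤ (k - j - 2) ∧ L ≤ (n - l2 - 3) ∧ L ≤ (i3 - 2) ∧ L ≤ (n + i2 + l2 - Q - 1) ∧ L ≤ (n + i2 - i - l - 3))
    (hy : (0) ≤ (i) ∧ (i) ≤ (j) ∧ (j + 1) ≤ (Q) ∧ (Q) ≤ (k) ∧ (k + 1) ≤ (n) ∧ (i + l + 2) ≤ (Q) ∧ (n) ≤ (k + l + 1) ∧ (0) ≤ (i2) ∧ (n + i2) ≤ (k + l + 1) ∧ (0) ≤ (i2 + l2 + 1) ∧ (i2 + l2 + 2) ≤ (Q) ∧ (Q) ≤ (i + l + l2 + 2) ∧ (i + l + l2 + 3) ≤ (n) ∧ (Q) ≤ (i3) ∧ (i3) ≤ (i + l + l2 + 2) ∧ (j + 3) ≤ (n) ∧ (k + 3) ≤ (n + Q) ∧ (l + 3) ≤ (n) ∧ (j + 2) ≤ (k) ∧ (l2 + 3) ≤ (n) ∧ (2) ≤ (i3) ∧ (Q + 1) ≤ (n + i2 + l2) ∧ (i + l + 3) ≤ (n + i2))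
    (a1 : Par W (0) (j) (k - j))
    (a2 : Par W (Q + j - k) (j) (k - j))
    (s1 : Ant W (0) (i) (i + j))
    (s2 : Ant W (j + 1) (Q) (i + j))
    (b : Par W (i + 1) (i + l + 1) (k - i))
    (tt : Ant W (0) (i2) (k + l + i2 - n + 1))
    (c : Par W (i2 + 1) (i2 + l2 + 1) (i + l - i2 + 1))
    (u1 : Ant W (Q) (i3) (i + l + l2 + i3 + 2))
    (u2 : Ant W (i + l + l2 + 3) (n) (i + l + l2 + i3 + 2))
    (d1 : Par W (i3 + 1) (n) (i2 + l2 - i3 + 1))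
    (d2 : Par W (i2 + l2 + 2) (Q) (i3 - i2 - l2 - 1))
    (n1 : Nd W (j) (i) (k))
    (n2 : Nd W (k + l - n + 1) (i2) (i + l + 1))
    (n3 : Nd W (i + l + l2 + 2) (i3) (i2 + l2 + 1))
    (b0 : (n + 2 * i) ≤ (j + k))
    (b1 : (2 * n + i2) ≤ (2 * i + 2 * l + l2 + i3 + 4))
    (b2 : (2 * l2 + 3) ≤ (n))
    (b3 : (i + k + 2 * l + 1) ≤ (n + 2 * j))
    (b4 : (i + 2 * j + 2) ≤ (k))
    (b5 : (i + k + l + l2 + i3 + 4) ≤ (n + 2 * Q + j))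
    (b6 : (2 * Q + i3) ≤ (n + i + j + i2 + l2 + 2))
    (b7 : (i + j + l + 2) ≤ (k + i2)) : False := by
  have ev := al.ev
  obtain ⟨y0, y1, y2, y3, y4, y5, y6, y7, y8, y9, y10, y11, y12, y13, y14, y15, y16, y17, y18, y19, y20, y21, y22⟩ := id hy
  have n1p := And.intro n1.p1 n1.p2
  have n2p := And.intro n2.p1 n2.p2
  have n3p := And.intro n3.p1 n3.p2
  by_cases z21 : (k + i2 + 1) ≤ (Q + j)
  · by_cases z22 : (Q + i2) ≤ (i + j + l + 1)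
    · have k59 : (k + i2) ≤ (n + i + j + l) := by clear * - b1 b2 b4 b6 y22 z21; omega
      clear * - al a1 a2 s1 s2 b tt c u1 u2 d1 d2 n1 n2 n3 b7 k59 z21 y11 z22
      exact al.ubQ (k + i2 - i - j - l - 1) (by omega) (by omega) fun t h1 h2 => (cE (sh al (-1) t (t + (-n)) (by omega)) (cE (pb c al (-1) (t + (-n)) (t + (i2 - i - l - 1)) (by omega)) (qf a2 al 0 (t + (i2 - i - l - 1)) (t + (k + i2 - i - j - l - 1)) (by omega))))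
    · have k60 : (n + i) ≤ (k + 2 * i2) := by clear * - b0 b1 b2 b6 z22; omega
      have k61 : (i + k + 2) ≤ (n + 2 * i2) := by clear * - b0 b1 b2 b6 y4 z22; omega
      have k62 : (k + 2) ≤ (n + i) := by clear * - b1 b2 b3 b4 b6 z21 z22; omega
      have k63 : (n + i) ≤ (k + 2 * l + 2 * i2 + 2) := by clear * - b0 b1 b2 b3 b4 b6 z21 z22; omega
      have k64 : (i + k) ≤ (n + 2 * l + 2 * i2) := by clear * - b0 b1 b2 b4 b6 b7 y13 z21 z22; omega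
      have k65 : (n) ≤ (i + k + 2 * l + 2) := by clear * - b0 b1 b2 b4 b6 b7 z21 z22; omega
      have k66 : (k + 2 * i2) ≤ (n + 3 * i + 2 * l) := by clear * - b1 b2 b3 b4 b6 b7 z21 z22; omega
      have k67 : (n + k + l + i2 + 1) % 2 = 0 := by clear * - ev n1p n2p n3p; omega
      have k68 : (n + i - k) % 2 = 0 := by clear * - ev n1p n2p n3p; omega
      clear * - al a1 a2 s1 s2 b tt c u1 u2 d1 d2 n1 n2 n3 k60 k61 k62 k63 k64 k65 k66 k67 k68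
      exact midP al (n + i - k) (n + k + l + i2 + 1) (max (k + i2 - i + 1) (max (k + l + 2) (k + 1))) (k + 1) (n + i + l + 1) (by omega) (fun t h1 h2 => (cE (ab tt al 1 t ((k + l + i2 + 1) - t) (by omega)) (sh al 1 ((k + l + i2 + 1) - t) ((n + k + l + i2 + 1) - t) (by omega)))) (fun t h1 h2 => (cE (pb b al 0 t (t + (i - k)) (by omega)) (sh al 1 (t + (i - k)) (t + (n + i - k)) (by omega))))
  · exact l2_11001_15 al mx hL hy a1 a2 s1 s2 b tt c u1 u2 d1 d2 n1 n2 n3 (by clear * - b0; omega) (by clear * - b1; omega) (by clear * - b2; omega) (by clear * - b3; omega) (by clear * - b4; omega) (by clear * - b5; omega) (by clear * - b6; omega) (by clear * - z21; omega)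

theorem l2_11001_21 {W : ℤ → G} {n Q i j k l i2 l2 i3 : ℤ} (al : AL W n Q)
    {L : ℤ} (mx : ∀ a b g, 0 < g → g < n → Par W a b g → b - a ≤ L) (hL : L ≤ (n - j - 3) ∧ L ≤ (n + Q - k - 3) ∧ L ≤ (n - l - 3) ∧ L ≤ (k - j - 2) ∧ L ≤ (n - l2 - 3) ∧ L ≤ (i3 - 2) ∧ L ≤ (n + i2 + l2 - Q - 1) ∧ L ≤ (n + i2 - i - l - 3))
    (hy : (0) ≤ (i) ∧ (i) ≤ (j) ∧ (j + 1) ≤ (Q) ∧ (Q) ≤ (k) ∧ (k + 1) ≤ (n) ∧ (i + l + 2) ≤ (Q) ∧ (n) ≤ (k + l + 1) ∧ (0) ≤ (i2) ∧ (n + i2) ≤ (k + l + 1) ∧ (0) ≤ (i2 + l2 + 1) ∧ (i2 + l2 + 2) ≤ (Q) ∧ (Q) ≤ (i + l + l2 + 2) ∧ (i + l + l2 + 3) ≤ (n) ∧ (Q) ≤ (i3) ∧ (i3) ≤ (i + l + l2 + 2) ∧ (j + 3) ≤ (n) ∧ (k + 3) ≤ (n + Q) ∧ (l + 3) ≤ (n) ∧ (j + 2) ≤ (k) ∧ (l2 + 3) ≤ (n) ∧ (2) ≤ (i3) ∧ (Q + 1) ≤ (n + i2 + l2) ∧ (i + l + 3) ≤ (n + i2))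
    (a1 : Par W (0) (j) (k - j))
    (a2 : Par W (Q + j - k) (j) (k - j))
    (s1 : Ant W (0) (i) (i + j))
    (s2 : Ant W (j + 1) (Q) (i + j))
    (b : Par W (i + 1) (i + l + 1) (k - i))
    (tt : Ant W (0) (i2) (k + l + i2 - n + 1))
    (c : Par W (i2 + 1) (i2 + l2 + 1) (i + l - i2 + 1))
    (u1 : Ant W (Q) (i3) (i + l + l2 + i3 + 2))
    (u2 : Ant W (i + l + l2 + 3) (n) (i + l + l2 + i3 + 2))
    (d1 : Par W (i3 + 1) (n) (i2 + l2 - i3 + 1))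
    (d2 : Par W (i2 + l2 + 2) (Q) (i3 - i2 - l2 - 1))
    (n1 : Nd W (j) (i) (k))
    (n2 : Nd W (k + l - n + 1) (i2) (i + l + 1))
    (n3 : Nd W (i + l + l2 + 2) (i3) (i2 + l2 + 1))
    (b0 : (n + 2 * i) ≤ (j + k))
    (b1 : (2 * n + i2) ≤ (2 * i + 2 * l + l2 + i3 + 4))
    (b2 : (2 * l2 + 3) ≤ (n))
    (b3 : (i + k + 2 * l + 1) ≤ (n + 2 * j))
    (b4 : (i + 2 * j + 2) ≤ (k))
    (b5 : (i + k + l + l2 + i3 + 4) ≤ (n + 2 * Q + j))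
    (b6 : (2 * Q + i3) ≤ (n + i + j + i2 + l2 + 2))
    (b7 : (k + i2) ≤ (i + j + l + 1)) : False := by
  have ev := al.ev
  obtain ⟨y0, y1, y2, y3, y4, y5, y6, y7, y8, y9, y10, y11, y12, y13, y14, y15, y16, y17, y18, y19, y20, y21, y22⟩ := id hy
  have n1p := And.intro n1.p1 n1.p2
  have n2p := And.intro n2.p1 n2.p2
  have n3p := And.intro n3.p1 n3.p2
  by_cases z42 : (k) ≤ (j + l + 1)
  · have k198 : (i + 1) ≤ (k) := by clear * - b0 b3 y18 z42; omega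
    have k199 : (k + 1) ≤ (n + i) := by clear * - b3 b4 y0 z42; omega
    have k200 : L ≤ (k - j - 2) := by clear * - hL; omega
    clear * - al a1 a2 s1 s2 b tt c u1 u2 d1 d2 n1 n2 n3 mx k198 k199 z42 k200
    exact absurd (mx (i + 1) (i + l + 1) (k - i) (by omega) (by omega) fun t h1 h2 => (qf b al 0 t (t + (k - i)) (by omega))) (by omega)
  · by_cases z43 : (i + j + l + 1) ≤ (k + i2)
    · have k201 : (i2 + 1) ≤ (j) := by clear * - b0 b1 b2 b3 b4 b5 b6 b7 z42; omega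
      clear * - al a1 a2 s1 s2 b tt c u1 u2 d1 d2 n1 n2 n3 y7 k201 z43 b7
      exact n2.f1 (qf a1 al 0 (i2) (i + l + 1) (by omega))
    · have k202 : (i + j + l + 2) ≤ (n + k + i2) := by clear * - b0 b1 b2 b4 b5 b6 y22 z42 z43; omega
      have k203 : (i + l + 1) ≤ (Q + i2) := by clear * - y5 y7; omega
      have k204 : (Q + j) ≤ (k + i2 + l2 + 1) := by clear * - b0 b1 b3 b4 b6 y7 z42 z43; omega
      clear * - al a1 a2 s1 s2 b tt c u1 u2 d1 d2 n1 n2 n3 z43 k202 k203 y5 y3 k204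
      exact al.ubQ (i + j + l - k - i2 + 1) (by omega) (by omega) fun t h1 h2 => (cE (sh al (-1) t (t + (-n)) (by omega)) (cE (pb a1 al (-1) (t + (-n)) (t + (j - k)) (by omega)) (qf c al 0 (t + (j - k)) (t + (i + j + l - k - i2 + 1)) (by omega))))

theorem l2_11001_13 {W : ℤ → G} {n Q i j k l i2 l2 i3 : ℤ} (al : AL W n Q)
    {L : ℤ} (mx : ∀ a b g, 0 < g → g < n → Par W a b g → b - a ≤ L) (hL : L ≤ (n - j - 3) ∧ L ≤ (n + Q - k - 3) ∧ L ≤ (n - l - 3) ∧ L ≤ (k - j - 2) ∧ L ≤ (n - l2 - 3) ∧ L ≤ (i3 - 2) ∧ L ≤ (n + i2 + l2 - Q - 1) ∧ L ≤ (n + i2 - i - l - 3))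
    (hy : (0) ≤ (i) ∧ (i) ≤ (j) ∧ (j + 1) ≤ (Q) ∧ (Q) ≤ (k) ∧ (k + 1) ≤ (n) ∧ (i + l + 2) ≤ (Q) ∧ (n) ≤ (k + l + 1) ∧ (0) ≤ (i2) ∧ (n + i2) ≤ (k + l + 1) ∧ (0) ≤ (i2 + l2 + 1) ∧ (i2 + l2 + 2) ≤ (Q) ∧ (Q) ≤ (i + l + l2 + 2) ∧ (i + l + l2 + 3) ≤ (n) ∧ (Q) ≤ (i3) ∧ (i3) ≤ (i + l + l2 + 2) ∧ (j + 3) ≤ (n) ∧ (k + 3) ≤ (n + Q) ∧ (l + 3) ≤ (n) ∧ (j + 2) ≤ (k) ∧ (l2 + 3) ≤ (n) ∧ (2) ≤ (i3) ∧ (Q + 1) ≤ (n + i2 + l2) ∧ (i + l + 3) ≤ (n + i2))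
    (a1 : Par W (0) (j) (k - j))
    (a2 : Par W (Q + j - k) (j) (k - j))
    (s1 : Ant W (0) (i) (i + j))
    (s2 : Ant W (j + 1) (Q) (i + j))
    (b : Par W (i + 1) (i + l + 1) (k - i))
    (tt : Ant W (0) (i2) (k + l + i2 - n + 1))
    (c : Par W (i2 + 1) (i2 + l2 + 1) (i + l - i2 + 1))
    (u1 : Ant W (Q) (i3) (i + l + l2 + i3 + 2))
    (u2 : Ant W (i + l + l2 + 3) (n) (i + l + l2 + i3 + 2))
    (d1 : Par W (i3 + 1) (n) (i2 + l2 - i3 + 1))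
    (d2 : Par W (i2 + l2 + 2) (Q) (i3 - i2 - l2 - 1))
    (n1 : Nd W (j) (i) (k))
    (n2 : Nd W (k + l - n + 1) (i2) (i + l + 1))
    (n3 : Nd W (i + l + l2 + 2) (i3) (i2 + l2 + 1))
    (b0 : (n + 2 * i) ≤ (j + k))
    (b1 : (2 * n + i2) ≤ (2 * i + 2 * l + l2 + i3 + 4))
    (b2 : (2 * l2 + 3) ≤ (n))
    (b3 : (i + k + 2 * l + 1) ≤ (n + 2 * j))
    (b4 : (i + 2 * j + 2) ≤ (k))
    (b5 : (i + k + l + l2 + i3 + 4) ≤ (n + 2 * Q + j))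
    (b6 : (2 * Q + i3) ≤ (n + i + j + i2 + l2 + 2)) : False := by
  have ev := al.ev
  obtain ⟨y0, y1, y2, y3, y4, y5, y6, y7, y8, y9, y10, y11, y12, y13, y14, y15, y16, y17, y18, y19, y20, y21, y22⟩ := id hy
  have n1p := And.intro n1.p1 n1.p2
  have n2p := And.intro n2.p1 n2.p2
  have n3p := And.intro n3.p1 n3.p2
  by_cases z20 : (i + j + l + 2) ≤ (k + i2)
  · exact l2_11001_14 al mx hL hy a1 a2 s1 s2 b tt c u1 u2 d1 d2 n1 n2 n3 (by clear * - b0; omega) (by clear * - b1; omega) (by clear * - b2; omega) (by clear * - b3; omega) (by clear * - b4; omega) (by clear * - b5; omega) (by clear * - b6; omega) (by clear * - z20; omega)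
  · exact l2_11001_21 al mx hL hy a1 a2 s1 s2 b tt c u1 u2 d1 d2 n1 n2 n3 (by clear * - b0; omega) (by clear * - b1; omega) (by clear * - b2; omega) (by clear * - b3; omega) (by clear * - b4; omega) (by clear * - b5; omega) (by clear * - b6; omega) (by clear * - z20; omega)

theorem l2_11001_12 {W : ℤ → G} {n Q i j k l i2 l2 i3 : ℤ} (al : AL W n Q)
    {L : ℤ} (mx : ∀ a b g, 0 < g → g < n → Par W a b g → b - a ≤ L) (hL : L ≤ (n - j - 3) ∧ L ≤ (n + Q - k - 3) ∧ L ≤ (n - l - 3) ∧ L ≤ (k - j - 2) ∧ L ≤ (n - l2 - 3) ∧ L ≤ (i3 - 2) ∧ L ≤ (n + i2 + l2 - Q - 1) ∧ L ≤ (n + i2 - i - l - 3))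
    (hy : (0) ≤ (i) ∧ (i) ≤ (j) ∧ (j + 1) ≤ (Q) ∧ (Q) ≤ (k) ∧ (k + 1) ≤ (n) ∧ (i + l + 2) ≤ (Q) ∧ (n) ≤ (k + l + 1) ∧ (0) ≤ (i2) ∧ (n + i2) ≤ (k + l + 1) ∧ (0) ≤ (i2 + l2 + 1) ∧ (i2 + l2 + 2) ≤ (Q) ∧ (Q) ≤ (i + l + l2 + 2) ∧ (i + l + l2 + 3) ≤ (n) ∧ (Q) ≤ (i3) ∧ (i3) ≤ (i + l + l2 + 2) ∧ (j + 3) ≤ (n) ∧ (k + 3) ≤ (n + Q) ∧ (l + 3) ≤ (n) ∧ (j + 2) ≤ (k) ∧ (l2 + 3) ≤ (n) ∧ (2) ≤ (i3) ∧ (Q + 1) ≤ (n + i2 + l2) ∧ (i + l + 3) ≤ (n + i2))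
    (a1 : Par W (0) (j) (k - j))
    (a2 : Par W (Q + j - k) (j) (k - j))
    (s1 : Ant W (0) (i) (i + j))
    (s2 : Ant W (j + 1) (Q) (i + j))
    (b : Par W (i + 1) (i + l + 1) (k - i))
    (tt : Ant W (0) (i2) (k + l + i2 - n + 1))
    (c : Par W (i2 + 1) (i2 + l2 + 1) (i + l - i2 + 1))
    (u1 : Ant W (Q) (i3) (i + l + l2 + i3 + 2))
    (u2 : Ant W (i + l + l2 + 3) (n) (i + l + l2 + i3 + 2))
    (d1 : Par W (i3 + 1) (n) (i2 + l2 - i3 + 1))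
    (d2 : Par W (i2 + l2 + 2) (Q) (i3 - i2 - l2 - 1))
    (n1 : Nd W (j) (i) (k))
    (n2 : Nd W (k + l - n + 1) (i2) (i + l + 1))
    (n3 : Nd W (i + l + l2 + 2) (i3) (i2 + l2 + 1))
    (b0 : (2 * Q) ≤ (n + i + j + 1))
    (b1 : (n + 2 * i) ≤ (j + k))
    (b2 : (2 * n + i2) ≤ (2 * i + 2 * l + l2 + i3 + 4))
    (b3 : (2 * l2 + 3) ≤ (n))
    (b4 : (i + k + 2 * l + 1) ≤ (n + 2 * j))
    (b5 : (i + 2 * j + 2) ≤ (k))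
    (b6 : (i + k + l + l2 + i3 + 4) ≤ (n + 2 * Q + j))
    (b7 : (i2 + l2 + i3 + 2) ≤ (n + i + j)) : False := by
  have ev := al.ev
  obtain ⟨y0, y1, y2, y3, y4, y5, y6, y7, y8, y9, y10, y11, y12, y13, y14, y15, y16, y17, y18, y19, y20, y21, y22⟩ := id hy
  have n1p := And.intro n1.p1 n1.p2
  have n2p := And.intro n2.p1 n2.p2
  have n3p := And.intro n3.p1 n3.p2
  by_cases z19 : (n + i + j + i2 + l2 + 3) ≤ (2 * Q + i3)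
  · have k58 : (j + i3) ≤ (n + i + i2 + l2) := by clear * - b4 b5 y0 y14 y4 y7; omega
    obtain ⟨t, ht⟩ : ∃ t, 2 * t = (n + i + j + i3 - i2 - l2 - 1) := ⟨(n + i + j + i3 - i2 - l2 - 1) / 2, by clear * - ev n1p n2p n3p; omega⟩
    clear * - al a1 a2 s1 s2 b tt c u1 u2 d1 d2 n1 n2 n3 z19 k58 b7 ht
    exact al.ninv t (cE (ab s2 al 1 t ((n + i + j) - t) (by omega)) (qf d2 al 0 ((n + i + j) - t) t (by omega)))
  · exact l2_11001_13 al mx hL hy a1 a2 s1 s2 b tt c u1 u2 d1 d2 n1 n2 n3 (by clear * - b1; omega) (by clear * - b2; omega) (by clear * - b3; omega) (by clear * - b4; omega) (by clear * - b5; omega) (by clear * - b6; omega) (by clear * - z19; omega)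

theorem l2_11001_22 {W : ℤ → G} {n Q i j k l i2 l2 i3 : ℤ} (al : AL W n Q)
    {L : ℤ} (mx : ∀ a b g, 0 < g → g < n → Par W a b g → b - a ≤ L) (hL : L ≤ (n - j - 3) ∧ L ≤ (n + Q - k - 3) ∧ L ≤ (n - l - 3) ∧ L ≤ (k - j - 2) ∧ L ≤ (n - l2 - 3) ∧ L ≤ (i3 - 2) ∧ L ≤ (n + i2 + l2 - Q - 1) ∧ L ≤ (n + i2 - i - l - 3))
    (hy : (0) ≤ (i) ∧ (i) ≤ (j) ∧ (j + 1) ≤ (Q) ∧ (Q) ≤ (k) ∧ (k + 1) ≤ (n) ∧ (i + l + 2) ≤ (Q) ∧ (n) ≤ (k + l + 1) ∧ (0) ≤ (i2) ∧ (n + i2) ≤ (k + l + 1) ∧ (0) ≤ (i2 + l2 + 1) ∧ (i2 + l2 + 2) ≤ (Q) ∧ (Q) ≤ (i + l + l2 + 2) ∧ (i + l + l2 + 3) ≤ (n) ∧ (Q) ≤ (i3) ∧ (i3) ≤ (i + l + l2 + 2) ∧ (j + 3) ≤ (n) ∧ (k + 3) ≤ (n + Q) ∧ (l + 3) ≤ (n) ∧ (j + 2) ≤ (k) ∧ (l2 + 3) ≤ (n) ∧ (2) ≤ (i3) ∧ (Q + 1) ≤ (n + i2 + l2) ∧ (i + l + 3) ≤ (n + i2))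
    (a1 : Par W (0) (j) (k - j))
    (a2 : Par W (Q + j - k) (j) (k - j))
    (s1 : Ant W (0) (i) (i + j))
    (s2 : Ant W (j + 1) (Q) (i + j))
    (b : Par W (i + 1) (i + l + 1) (k - i))
    (tt : Ant W (0) (i2) (k + l + i2 - n + 1))
    (c : Par W (i2 + 1) (i2 + l2 + 1) (i + l - i2 + 1))
    (u1 : Ant W (Q) (i3) (i + l + l2 + i3 + 2))
    (u2 : Ant W (i + l + l2 + 3) (n) (i + l + l2 + i3 + 2))
    (d1 : Par W (i3 + 1) (n) (i2 + l2 - i3 + 1))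
    (d2 : Par W (i2 + l2 + 2) (Q) (i3 - i2 - l2 - 1))
    (n1 : Nd W (j) (i) (k))
    (n2 : Nd W (k + l - n + 1) (i2) (i + l + 1))
    (n3 : Nd W (i + l + l2 + 2) (i3) (i2 + l2 + 1))
    (b0 : (2 * Q) ≤ (n + i + j + 1))
    (b1 : (n + 2 * i) ≤ (j + k))
    (b2 : (2 * n + i2) ≤ (2 * i + 2 * l + l2 + i3 + 4))
    (b3 : (2 * l2 + 3) ≤ (n))
    (b4 : (i + k + 2 * l + 1) ≤ (n + 2 * j))
    (b5 : (i + 2 * j + 2) ≤ (k))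
    (b6 : (i + k + l + l2 + i3 + 4) ≤ (n + 2 * Q + j))
    (b7 : (n + i + j) ≤ (i2 + l2 + i3 + 1)) : False := by
  have ev := al.ev
  obtain ⟨y0, y1, y2, y3, y4, y5, y6, y7, y8, y9, y10, y11, y12, y13, y14, y15, y16, y17, y18, y19, y20, y21, y22⟩ := id hy
  have n1p := And.intro n1.p1 n1.p2
  have n2p := And.intro n2.p1 n2.p2
  have n3p := And.intro n3.p1 n3.p2
  by_cases z44 : (n + i) ≤ (k + 2 * i2)
  · have k205 : (i + k + 2) ≤ (n + 2 * i2) := by clear * - b0 b3 b6 b7 y14; omega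
    have k206 : (k + 2) ≤ (n + i) := by clear * - y0 y4 ev n1p n2p n3p; omega
    have k207 : (n + i) ≤ (k + 2 * l + 2 * i2 + 2) := by clear * - b1 b2 b3 b4 b5 b7 y14 z44; omega
    have k208 : (i + k) ≤ (n + 2 * l + 2 * i2) := by clear * - b1 b2 b3 b4 b5 b7 y14; omega
    have k209 : (n) ≤ (i + k + 2 * l + 2) := by clear * - b0 b2 b5 b6 z44; omega
    have k210 : (k + 2 * i2) ≤ (n + 3 * i + 2 * l) := by clear * - b0 b2 b7 y10 y14 y2 y4; omega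
    have k211 : (n + k + l + i2 + 1) % 2 = 0 := by clear * - ev n1p n2p n3p; omega
    have k212 : (n + i - k) % 2 = 0 := by clear * - ev n1p n2p n3p; omega
    clear * - al a1 a2 s1 s2 b tt c u1 u2 d1 d2 n1 n2 n3 z44 k205 k206 k207 k208 k209 k210 k211 k212
    exact midP al (n + i - k) (n + k + l + i2 + 1) (max (k + i2 - i + 1) (max (k + l + 2) (k + 1))) (k + 1) (n + i + l + 1) (by omega) (fun t h1 h2 => (cE (ab tt al 1 t ((k + l + i2 + 1) - t) (by omega)) (sh al 1 ((k + l + i2 + 1) - t) ((n + k + l + i2 + 1) - t) (by omega)))) (fun t h1 h2 => (cE (pb b al 0 t (t + (i - k)) (by omega)) (sh al 1 (t + (i - k)) (t + (n + i - k)) (by omega))))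
  · by_cases z45 : (i2 + l2 + i3 + 1) ≤ (n + i + j)
    · by_cases z46 : (n + Q) ≤ (l + l2 + i3 + 2)
      · have k213 : (l + l2 + 3) ≤ (n) := by clear * - b3 b4 b5 y0; omega
        have k214 : (i3 + 1) ≤ (n + i) := by clear * - b3 b4 b5 y0 y14; omega
        have k215 : (n + i) ≤ (l2 + i3) := by clear * - b0 b1 b2 b4 b5 b6 b7; omega
        clear * - al a1 a2 s1 s2 b tt c u1 u2 d1 d2 n1 n2 n3 k213 k214 z46 k215 b7 z45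
        exact n1.f2 (cE (ab u1 al (-1) (i) (l + l2 + i3 - n + 2) (by omega)) (pb c al 0 (l + l2 + i3 - n + 2) (j) (by omega)))
      · by_cases z47 : (i + l + l2 + 2) ≤ (i3)
        · have k216 : (n + j) ≤ (Q + l + l2 + 1) := by clear * - b2 b5 b6 b7 y14; omega
          have k217 : (l + l2 + 3) ≤ (n) := by clear * - b0 b2 b5 b6 b7 z46 z47; omega
          have k218 : (l + i2 + 2 * l2 + 3) ≤ (n + j) := by clear * - z45 z47; omega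
          have k219 : (n + j) ≤ (l + i2 + 2 * l2 + 3) := by clear * - b7 y14; omega
          clear * - al a1 a2 s1 s2 b tt c u1 u2 d1 d2 n1 n2 n3 k216 k217 k218 k219 z47 y14
          exact (n3.f3 (ab s2 al 1 (i + l + l2 + 2) (i2 + l2 + 1) (by omega))) (sh al 0 (i3) (i + l + l2 + 2) (by omega))
        · have k220 : (l + i2 + 3) ≤ (n + j) := by clear * - b0 b1 b2 b5 b6 b7 z44 z46; omega
          have k221 : (n + j + i2 + 1) ≤ (2 * Q + l) := by clear * - b2 b5 b6; omega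
          have k222 : (n + j) ≤ (l + i2 + 2 * l2 + 2) := by clear * - b7 z47; omega
          have k223 : (j + l + 2) ≤ (n + i2) := by clear * - b0 b2 b5 b6 b7 z46; omega
          obtain ⟨t, ht⟩ : ∃ t, 2 * t = (3 * n + j + i2 - l - 1) := ⟨(3 * n + j + i2 - l - 1) / 2, by clear * - ev n1p n2p n3p; omega⟩
          clear * - al a1 a2 s1 s2 b tt c u1 u2 d1 d2 n1 n2 n3 k220 k221 k222 k223 ht
          exact al.ninv t (cE (cI (qf c al 1 t (t + (i + l - n - i2 + 1)) (by omega)) (ab s2 al 1 (t + (i + l - n - i2 + 1)) ((2 * n + j + i2 - l - 1) - t) (by omega))) (sh al 1 ((2 * n + j + i2 - l - 1) - t) t (by omega)))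
    · have k224 : (l + i2 + 3) ≤ (n + j) := by clear * - b0 b2 b4 b5 b6 y18; omega
      have k225 : (j + l + 3) ≤ (n + i2) := by clear * - b0 b5 b6 y0 z45; omega
      have k226 : (n + j) ≤ (l + i2 + 2 * l2 + 2) := by clear * - y14 z45; omega
      have k227 : (n + j + i2) ≤ (2 * Q + l) := by clear * - b2 b5 b6; omega
      obtain ⟨t, ht⟩ : ∃ t, 2 * t = (3 * n + 2 * i + j + l - i2 + 1) := ⟨(3 * n + 2 * i + j + l - i2 + 1) / 2, by clear * - ev n1p n2p n3p; omega⟩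
      clear * - al a1 a2 s1 s2 b tt c u1 u2 d1 d2 n1 n2 n3 k224 k225 k226 k227 ht
      exact al.ninv t (cE (cI (pb c al 1 t (t + (i2 - n - i - l - 1)) (by omega)) (qa s2 al 0 (t + (i2 - n - i - l - 1)) ((n + 2 * i + j + l - i2 + 1) - t) (by omega))) (sh al 2 ((n + 2 * i + j + l - i2 + 1) - t) t (by omega)))

theorem l2_11001_11 {W : ℤ → G} {n Q i j k l i2 l2 i3 : ℤ} (al : AL W n Q)
    {L : ℤ} (mx : ∀ a b g, 0 < g → g < n → Par W a b g → b - a ≤ L) (hL : L ≤ (n - j - 3) ∧ L ≤ (n + Q - k - 3) ∧ L ≤ (n - l - 3) ∧ L ≤ (k - j - 2) ∧ L ≤ (n - l2 - 3) ∧ L ≤ (i3 - 2) ∧ L ≤ (n + i2 + l2 - Q - 1) ∧ L ≤ (n + i2 - i - l - 3))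
    (hy : (0) ≤ (i) ∧ (i) ≤ (j) ∧ (j + 1) ≤ (Q) ∧ (Q) ≤ (k) ∧ (k + 1) ≤ (n) ∧ (i + l + 2) ≤ (Q) ∧ (n) ≤ (k + l + 1) ∧ (0) ≤ (i2) ∧ (n + i2) ≤ (k + l + 1) ∧ (0) ≤ (i2 + l2 + 1) ∧ (i2 + l2 + 2) ≤ (Q) ∧ (Q) ≤ (i + l + l2 + 2) ∧ (i + l + l2 + 3) ≤ (n) ∧ (Q) ≤ (i3) ∧ (i3) ≤ (i + l + l2 + 2) ∧ (j + 3) ≤ (n) ∧ (k + 3) ≤ (n + Q) ∧ (l + 3) ≤ (n) ∧ (j + 2) ≤ (k) ∧ (l2 + 3) ≤ (n) ∧ (2) ≤ (i3) ∧ (Q + 1) ≤ (n + i2 + l2) ∧ (i + l + 3) ≤ (n + i2))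
    (a1 : Par W (0) (j) (k - j))
    (a2 : Par W (Q + j - k) (j) (k - j))
    (s1 : Ant W (0) (i) (i + j))
    (s2 : Ant W (j + 1) (Q) (i + j))
    (b : Par W (i + 1) (i + l + 1) (k - i))
    (tt : Ant W (0) (i2) (k + l + i2 - n + 1))
    (c : Par W (i2 + 1) (i2 + l2 + 1) (i + l - i2 + 1))
    (u1 : Ant W (Q) (i3) (i + l + l2 + i3 + 2))
    (u2 : Ant W (i + l + l2 + 3) (n) (i + l + l2 + i3 + 2))
    (d1 : Par W (i3 + 1) (n) (i2 + l2 - i3 + 1))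
    (d2 : Par W (i2 + l2 + 2) (Q) (i3 - i2 - l2 - 1))
    (n1 : Nd W (j) (i) (k))
    (n2 : Nd W (k + l - n + 1) (i2) (i + l + 1))
    (n3 : Nd W (i + l + l2 + 2) (i3) (i2 + l2 + 1))
    (b0 : (2 * Q) ≤ (n + i + j + 1))
    (b1 : (n + 2 * i) ≤ (j + k))
    (b2 : (2 * n + i2) ≤ (2 * i + 2 * l + l2 + i3 + 4))
    (b3 : (2 * l2 + 3) ≤ (n))
    (b4 : (i + k + 2 * l + 1) ≤ (n + 2 * j))
    (b5 : (i + 2 * j + 2) ≤ (k))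
    (b6 : (i + k + l + l2 + i3 + 4) ≤ (n + 2 * Q + j)) : False := by
  have ev := al.ev
  obtain ⟨y0, y1, y2, y3, y4, y5, y6, y7, y8, y9, y10, y11, y12, y13, y14, y15, y16, y17, y18, y19, y20, y21, y22⟩ := id hy
  have n1p := And.intro n1.p1 n1.p2
  have n2p := And.intro n2.p1 n2.p2
  have n3p := And.intro n3.p1 n3.p2
  by_cases z18 : (i2 + l2 + i3 + 2) ≤ (n + i + j)
  · exact l2_11001_12 al mx hL hy a1 a2 s1 s2 b tt c u1 u2 d1 d2 n1 n2 n3 (by clear * - b0; omega) (by clear * - b1; omega) (by clear * - b2; omega) (by clear * - b3; omega) (by clear * - b4; omega) (by clear * - b5; omega) (by clear * - b6; omega) (by clear * - z18; omega)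
  · exact l2_11001_22 al mx hL hy a1 a2 s1 s2 b tt c u1 u2 d1 d2 n1 n2 n3 (by clear * - b0; omega) (by clear * - b1; omega) (by clear * - b2; omega) (by clear * - b3; omega) (by clear * - b4; omega) (by clear * - b5; omega) (by clear * - b6; omega) (by clear * - z18; omega)

theorem l2_11001_10 {W : ℤ → G} {n Q i j k l i2 l2 i3 : ℤ} (al : AL W n Q)
    {L : ℤ} (mx : ∀ a b g, 0 < g → g < n → Par W a b g → b - a ≤ L) (hL : L ≤ (n - j - 3) ∧ L ≤ (n + Q - k - 3) ∧ L ≤ (n - l - 3) ∧ L ≤ (k - j - 2) ∧ L ≤ (n - l2 - 3) ∧ L ≤ (i3 - 2) ∧ L ≤ (n + i2 + l2 - Q - 1) ∧ L ≤ (n + i2 - i - l - 3))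
    (hy : (0) ≤ (i) ∧ (i) ≤ (j) ∧ (j + 1) ≤ (Q) ∧ (Q) ≤ (k) ∧ (k + 1) ≤ (n) ∧ (i + l + 2) ≤ (Q) ∧ (n) ≤ (k + l + 1) ∧ (0) ≤ (i2) ∧ (n + i2) ≤ (k + l + 1) ∧ (0) ≤ (i2 + l2 + 1) ∧ (i2 + l2 + 2) ≤ (Q) ∧ (Q) ≤ (i + l + l2 + 2) ∧ (i + l + l2 + 3) ≤ (n) ∧ (Q) ≤ (i3) ∧ (i3) ≤ (i + l + l2 + 2) ∧ (j + 3) ≤ (n) ∧ (k + 3) ≤ (n + Q) ∧ (l + 3) ≤ (n) ∧ (j + 2) ≤ (k) ∧ (l2 + 3) ≤ (n) ∧ (2) ≤ (i3) ∧ (Q + 1) ≤ (n + i2 + l2) ∧ (i + l + 3) ≤ (n + i2))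
    (a1 : Par W (0) (j) (k - j))
    (a2 : Par W (Q + j - k) (j) (k - j))
    (s1 : Ant W (0) (i) (i + j))
    (s2 : Ant W (j + 1) (Q) (i + j))
    (b : Par W (i + 1) (i + l + 1) (k - i))
    (tt : Ant W (0) (i2) (k + l + i2 - n + 1))
    (c : Par W (i2 + 1) (i2 + l2 + 1) (i + l - i2 + 1))
    (u1 : Ant W (Q) (i3) (i + l + l2 + i3 + 2))
    (u2 : Ant W (i + l + l2 + 3) (n) (i + l + l2 + i3 + 2))
    (d1 : Par W (i3 + 1) (n) (i2 + l2 - i3 + 1))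
    (d2 : Par W (i2 + l2 + 2) (Q) (i3 - i2 - l2 - 1))
    (n1 : Nd W (j) (i) (k))
    (n2 : Nd W (k + l - n + 1) (i2) (i + l + 1))
    (n3 : Nd W (i + l + l2 + 2) (i3) (i2 + l2 + 1))
    (b0 : (2 * Q) ≤ (n + i + j + 1))
    (b1 : (2 * k + 3) ≤ (n + 2 * Q))
    (b2 : (n + 2 * i) ≤ (j + k))
    (b3 : (2 * n + i2) ≤ (2 * i + 2 * l + l2 + i3 + 4))
    (b4 : (2 * l2 + 3) ≤ (n))
    (b5 : (i + k + 2 * l + 1) ≤ (n + 2 * j))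
    (b6 : (i + 2 * j + 2) ≤ (k)) : False := by
  have ev := al.ev
  obtain ⟨y0, y1, y2, y3, y4, y5, y6, y7, y8, y9, y10, y11, y12, y13, y14, y15, y16, y17, y18, y19, y20, y21, y22⟩ := id hy
  have n1p := And.intro n1.p1 n1.p2
  have n2p := And.intro n2.p1 n2.p2
  have n3p := And.intro n3.p1 n3.p2
  by_cases z16 : (n + 2 * Q + j) ≤ (i + k + l + l2 + i3 + 3)
  · by_cases z17 : (i + k + l + l2 + 4) ≤ (n + j + i3)
    · have k53 : (i + l + l2 + i3 + 4) ≤ (n + j + k) := by clear * - b2 b4 b5 b6 y0 y14; omega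
      obtain ⟨t, ht⟩ : ∃ t, 2 * t = (3 * n + i + j + l + l2 + i3 - k + 2) := ⟨(3 * n + i + j + l + l2 + i3 - k + 2) / 2, by clear * - ev n1p n2p n3p; omega⟩
      clear * - al a1 a2 s1 s2 b tt c u1 u2 d1 d2 n1 n2 n3 z17 k53 z16 ht
      exact al.ninv t (cE (cE (ab u1 al 1 t ((n + i + l + l2 + i3 + 2) - t) (by omega)) (pb a2 al 0 ((n + i + l + l2 + i3 + 2) - t) ((n + i + j + l + l2 + i3 - k + 2) - t) (by omega))) (sh al 2 ((n + i + j + l + l2 + i3 - k + 2) - t) t (by omega)))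
    · have k54 : (l + i2 + 3) ≤ (j) := by clear * - b3 b4 b5 b6 z17 ev n1p n2p n3p; omega
      have k55 : (l + 1) ≤ (j + i2) := by clear * - b3 b4 b5 b6 y7 z17 ev n1p n2p n3p; omega
      have k56 : (j) ≤ (l + i2 + 2 * l2 + 2) := by clear * - b1 b2 b4 b5 y22 z16 z17; omega
      have k57 : (j + i2) ≤ (2 * i + l) := by clear * - b1 b3 b4 b5 b6 z16 z17; omega
      obtain ⟨t, ht⟩ : ∃ t, 2 * t = (2 * i + j + l - 2 * n - i2 + 1) := ⟨(2 * i + j + l - 2 * n - i2 + 1) / 2, by clear * - ev n1p n2p n3p; omega⟩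
      clear * - al a1 a2 s1 s2 b tt c u1 u2 d1 d2 n1 n2 n3 k54 k55 k56 k57 ht
      exact al.ninv t (cE (cI (pb c al (-1) t (t + (n + i2 - i - l - 1)) (by omega)) (qa s1 al 0 (t + (n + i2 - i - l - 1)) ((2 * i + j + l - n - i2 + 1) - t) (by omega))) (sh al (-1) ((2 * i + j + l - n - i2 + 1) - t) t (by omega)))
  · exact l2_11001_11 al mx hL hy a1 a2 s1 s2 b tt c u1 u2 d1 d2 n1 n2 n3 (by clear * - b0; omega) (by clear * - b2; omega) (by clear * - b3; omega) (by clear * - b4; omega) (by clear * - b5; omega) (by clear * - b6; omega) (by clear * - z16; omega)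

theorem l2_11001_9 {W : ℤ → G} {n Q i j k l i2 l2 i3 : ℤ} (al : AL W n Q)
    {L : ℤ} (mx : ∀ a b g, 0 < g → g < n → Par W a b g → b - a ≤ L) (hL : L ≤ (n - j - 3) ∧ L ≤ (n + Q - k - 3) ∧ L ≤ (n - l - 3) ∧ L ≤ (k - j - 2) ∧ L ≤ (n - l2 - 3) ∧ L ≤ (i3 - 2) ∧ L ≤ (n + i2 + l2 - Q - 1) ∧ L ≤ (n + i2 - i - l - 3))
    (hy : (0) ≤ (i) ∧ (i) ≤ (j) ∧ (j + 1) ≤ (Q) ∧ (Q) ≤ (k) ∧ (k + 1) ≤ (n) ∧ (i + l + 2) ≤ (Q) ∧ (n) ≤ (k + l + 1) ∧ (0) ≤ (i2) ∧ (n + i2) ≤ (k + l + 1) ∧ (0) ≤ (i2 + l2 + 1) ∧ (i2 + l2 + 2) ≤ (Q) ∧ (Q) ≤ (i + l + l2 + 2) ∧ (i + l + l2 + 3) ≤ (n) ∧ (Q) ≤ (i3) ∧ (i3) ≤ (i + l + l2 + 2) ∧ (j + 3) ≤ (n) ∧ (k + 3) ≤ (n + Q) ∧ (l + 3) ≤ (n) ∧ (j + 2) ≤ (k) ∧ (l2 + 3) ≤ (n) ∧ (2) ≤ (i3) ∧ (Q + 1) ≤ (n + i2 + l2) ∧ (i + l + 3) ≤ (n + i2))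
    (a1 : Par W (0) (j) (k - j))
    (a2 : Par W (Q + j - k) (j) (k - j))
    (s1 : Ant W (0) (i) (i + j))
    (s2 : Ant W (j + 1) (Q) (i + j))
    (b : Par W (i + 1) (i + l + 1) (k - i))
    (tt : Ant W (0) (i2) (k + l + i2 - n + 1))
    (c : Par W (i2 + 1) (i2 + l2 + 1) (i + l - i2 + 1))
    (u1 : Ant W (Q) (i3) (i + l + l2 + i3 + 2))
    (u2 : Ant W (i + l + l2 + 3) (n) (i + l + l2 + i3 + 2))
    (d1 : Par W (i3 + 1) (n) (i2 + l2 - i3 + 1))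
    (d2 : Par W (i2 + l2 + 2) (Q) (i3 - i2 - l2 - 1))
    (n1 : Nd W (j) (i) (k))
    (n2 : Nd W (k + l - n + 1) (i2) (i + l + 1))
    (n3 : Nd W (i + l + l2 + 2) (i3) (i2 + l2 + 1))
    (b0 : (2 * j + 2) ≤ (k))
    (b1 : (2 * Q) ≤ (n + i + j + 1))
    (b2 : (2 * k + 3) ≤ (n + 2 * Q))
    (b3 : (n + 2 * i) ≤ (j + k))
    (b4 : (2 * n + i2) ≤ (2 * i + 2 * l + l2 + i3 + 4))
    (b5 : (2 * l2 + 3) ≤ (n))
    (b6 : (i + k + 2 * l + 1) ≤ (n + 2 * j)) : False := by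
  have ev := al.ev
  obtain ⟨y0, y1, y2, y3, y4, y5, y6, y7, y8, y9, y10, y11, y12, y13, y14, y15, y16, y17, y18, y19, y20, y21, y22⟩ := id hy
  have n1p := And.intro n1.p1 n1.p2
  have n2p := And.intro n2.p1 n2.p2
  have n3p := And.intro n3.p1 n3.p2
  by_cases z15 : (k) ≤ (i + 2 * j + 1)
  · have k50 : (k) ≤ (i + 2 * j) := by clear * - z15 ev n1p n2p n3p; omega
    have k51 : (2 * j + 2) ≤ (i + k) := by clear * - b0 z15; omega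
    have k52 : (i + 1) ≤ (k) := by clear * - b0 b1 b2 b3 z15; omega
    obtain ⟨t, ht⟩ : ∃ t, 2 * t = (i + 2 * j - 2 * n - k) := ⟨(i + 2 * j - 2 * n - k) / 2, by clear * - ev n1p n2p n3p; omega⟩
    clear * - al a1 a2 s1 s2 b tt c u1 u2 d1 d2 n1 n2 n3 k50 k51 k52 ht
    exact al.ninv t (cE (cI (qf a1 al (-1) t (t + (n + k - j)) (by omega)) (ab s1 al 0 (t + (n + k - j)) ((i + 2 * j - n - k) - t) (by omega))) (sh al (-1) ((i + 2 * j - n - k) - t) t (by omega)))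
  · exact l2_11001_10 al mx hL hy a1 a2 s1 s2 b tt c u1 u2 d1 d2 n1 n2 n3 (by clear * - b1; omega) (by clear * - b2; omega) (by clear * - b3; omega) (by clear * - b4; omega) (by clear * - b5; omega) (by clear * - b6; omega) (by clear * - z15; omega)

theorem l2_11001_8 {W : ℤ → G} {n Q i j k l i2 l2 i3 : ℤ} (al : AL W n Q)
    {L : ℤ} (mx : ∀ a b g, 0 < g → g < n → Par W a b g → b - a ≤ L) (hL : L ≤ (n - j - 3) ∧ L ≤ (n + Q - k - 3) ∧ L ≤ (n - l - 3) ∧ L ≤ (k - j - 2) ∧ L ≤ (n - l2 - 3) ∧ L ≤ (i3 - 2) ∧ L ≤ (n + i2 + l2 - Q - 1) ∧ L ≤ (n + i2 - i - l - 3))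
    (hy : (0) ≤ (i) ∧ (i) ≤ (j) ∧ (j + 1) ≤ (Q) ∧ (Q) ≤ (k) ∧ (k + 1) ≤ (n) ∧ (i + l + 2) ≤ (Q) ∧ (n) ≤ (k + l + 1) ∧ (0) ≤ (i2) ∧ (n + i2) ≤ (k + l + 1) ∧ (0) ≤ (i2 + l2 + 1) ∧ (i2 + l2 + 2) ≤ (Q) ∧ (Q) ≤ (i + l + l2 + 2) ∧ (i + l + l2 + 3) ≤ (n) ∧ (Q) ≤ (i3) ∧ (i3) ≤ (i + l + l2 + 2) ∧ (j + 3) ≤ (n) ∧ (k + 3) ≤ (n + Q) ∧ (l + 3) ≤ (n) ∧ (j + 2) ≤ (k) ∧ (l2 + 3) ≤ (n) ∧ (2) ≤ (i3) ∧ (Q + 1) ≤ (n + i2 + l2) ∧ (i + l + 3) ≤ (n + i2))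
    (a1 : Par W (0) (j) (k - j))
    (a2 : Par W (Q + j - k) (j) (k - j))
    (s1 : Ant W (0) (i) (i + j))
    (s2 : Ant W (j + 1) (Q) (i + j))
    (b : Par W (i + 1) (i + l + 1) (k - i))
    (tt : Ant W (0) (i2) (k + l + i2 - n + 1))
    (c : Par W (i2 + 1) (i2 + l2 + 1) (i + l - i2 + 1))
    (u1 : Ant W (Q) (i3) (i + l + l2 + i3 + 2))
    (u2 : Ant W (i + l + l2 + 3) (n) (i + l + l2 + i3 + 2))
    (d1 : Par W (i3 + 1) (n) (i2 + l2 - i3 + 1))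
    (d2 : Par W (i2 + l2 + 2) (Q) (i3 - i2 - l2 - 1))
    (n1 : Nd W (j) (i) (k))
    (n2 : Nd W (k + l - n + 1) (i2) (i + l + 1))
    (n3 : Nd W (i + l + l2 + 2) (i3) (i2 + l2 + 1))
    (b0 : (2 * j + 2) ≤ (k))
    (b1 : (2 * Q) ≤ (n + i + j + 1))
    (b2 : (2 * k + 3) ≤ (n + 2 * Q))
    (b3 : (n + 2 * i) ≤ (j + k))
    (b4 : (2 * n + i2) ≤ (2 * i + 2 * l + l2 + i3 + 4))
    (b5 : (2 * l + 3) ≤ (n))
    (b6 : (2 * l2 + 3) ≤ (n)) : False := by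
  have ev := al.ev
  obtain ⟨y0, y1, y2, y3, y4, y5, y6, y7, y8, y9, y10, y11, y12, y13, y14, y15, y16, y17, y18, y19, y20, y21, y22⟩ := id hy
  have n1p := And.intro n1.p1 n1.p2
  have n2p := And.intro n2.p1 n2.p2
  have n3p := And.intro n3.p1 n3.p2
  by_cases z14 : (n + 2 * j) ≤ (i + k + 2 * l)
  · have k42 : (n + i + 2 * j + 2) ≤ (2 * Q + k) := by clear * - y5 z14; omega
    have k43 : (i + k + 2) ≤ (n + 2 * Q) := by clear * - b1 b2 b3 b5 z14; omega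
    have k44 : (n + i + 2 * j) ≤ (2 * Q + k + 2 * l) := by clear * - b1 b2 b3 b5 z14; omega
    have k45 : (k + 2) ≤ (n + i) := by clear * - y0 y4 ev n1p n2p n3p; omega
    have k46 : (3 * k + 2) ≤ (3 * n + i + 2 * j) := by clear * - b1 b2 b3; omega
    have k47 : (n + 2 * j) ≤ (i + k + 4 * l + 2) := by clear * - b1 b2 b3 z14; omega
    have k48 : (2 * n + i + j) % 2 = 0 := by clear * - ev n1p n2p n3p; omega
    have k49 : (n + i - k) % 2 = 0 := by clear * - ev n1p n2p n3p; omega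
    clear * - al a1 a2 s1 s2 b tt c u1 u2 d1 d2 n1 n2 n3 k42 k43 k44 k45 k46 z14 k47 k48 k49
    exact midP al (n + i - k) (2 * n + i + j) (max (n + i + j - Q + 1) (max (n + j - l) (k + 1))) (k + 1) (n + i + l + 1) (by omega) (fun t h1 h2 => (cE (ab s2 al 1 t ((n + i + j) - t) (by omega)) (sh al 1 ((n + i + j) - t) ((2 * n + i + j) - t) (by omega)))) (fun t h1 h2 => (cE (pb b al 0 t (t + (i - k)) (by omega)) (sh al 1 (t + (i - k)) (t + (n + i - k)) (by omega))))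
  · exact l2_11001_9 al mx hL hy a1 a2 s1 s2 b tt c u1 u2 d1 d2 n1 n2 n3 (by clear * - b0; omega) (by clear * - b1; omega) (by clear * - b2; omega) (by clear * - b3; omega) (by clear * - b4; omega) (by clear * - b6; omega) (by clear * - z14; omega)

end Pool.Agent.MP_a38735_al.WL
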