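import Pool.Agent.MP_a38735_al.WQ

set_option autoImplicit false
set_option linter.unusedVariables false

namespace Pool.Agent.MP_a38735_al.WL

variable {G : Type*} [Group G]

theorem l2_01110_16 {W : ℤ → G} {n Q i j k l i2 l2 i3 : ℤ} (al : AL W n Q)
    {L : ℤ} (mx : ∀ a b g, 0 < g → g < n → Par W a b g → b - a ≤ L) (hL : L ≤ (n - j - 3) ∧ L ≤ (n + Q - k - 3) ∧ L ≤ (n - l - 3) ∧ L ≤ (n + i - k - 2) ∧ L ≤ (n - l2 - 3) ∧ L ≤ (i3 - 2) ∧ L ≤ (i2 + l2 - Q - 1) ∧ L ≤ (n + i3 - i2 - l2 - 3))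
    (hy : (0) ≤ (i) ∧ (i) ≤ (j) ∧ (j + 1) ≤ (Q) ∧ (Q) ≤ (k) ∧ (k + 1) ≤ (n) ∧ (Q) ≤ (i + l + 1) ∧ (k + l + 2) ≤ (n) ∧ (Q) ≤ (i2) ∧ (i2) ≤ (k + l + 1) ∧ (Q) ≤ (i + l + l2 + 2) ∧ (i + l + l2 + 3) ≤ (n) ∧ (n) ≤ (i2 + l2 + 1) ∧ (i2 + l2 + 2) ≤ (n + Q) ∧ (Q) ≤ (i3) ∧ (i3) ≤ (i + l + l2 + 2) ∧ (j + 3) ≤ (n) ∧ (k + 3) ≤ (n + Q) ∧ (l + 3) ≤ (n) ∧ (k + 2) ≤ (n + i) ∧ (l2 + 3) ≤ (n) ∧ (2) ≤ (i3) ∧ (Q + 1) ≤ (i2 + l2) ∧ (i2 + l2 + 3) ≤ (n + i3))
    (a1 : Par W (0) (j) (k - j))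
    (a2 : Par W (Q + j - k) (j) (k - j))
    (s1 : Ant W (0) (i) (i + j))
    (s2 : Ant W (j + 1) (Q) (i + j))
    (b : Par W (i + 1) (i + l + 1) (k - i))
    (tt : Ant W (k + l + 2) (n) (k + l + i2 + 1))
    (c : Par W (i2 + 1) (i2 + l2 + 1) (i + l - i2 + 1))
    (u1 : Ant W (Q) (i3) (i + l + l2 + i3 + 2))
    (u2 : Ant W (i + l + l2 + 3) (n) (i + l + l2 + i3 + 2))
    (d1 : Par W (i3 + 1) (n) (i2 + l2 - n - i3 + 1))
    (d2 : Par W (i2 + l2 - n + 2) (Q) (n + i3 - i2 - l2 - 1))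
    (n1 : Nd W (j) (i) (k))
    (n2 : Nd W (k + l + 1) (i2) (i + l + 1))
    (n3 : Nd W (i + l + l2 + 2) (i3) (i2 + l2 - n + 1))
    (b0 : (l + l2 + i3 + 1) ≤ (n + k))
    (b1 : (n + i2) ≤ (i + l + 2 * i3 + 2))
    (b2 : (2 * i + j + 1) ≤ (k))
    (b3 : (2 * i3) ≤ (i + l + i2 + 2))
    (b4 : (2 * Q + i3) ≤ (i + j + i2 + l2 + 1))
    (b5 : (2 * l + 3) ≤ (n))
    (b6 : (k + l + i2 + l2 + 3) ≤ (n + Q + i3))
    (b7 : (i2 + l2 + 1) ≤ (k + i3))
    (b8 : (n + k) ≤ (j + i2 + l2 + 1))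
    (b9 : (2 * n + 2 * Q + k) ≤ (2 * i + j + 2 * l + 2 * l2 + 2 * i3 + 6)) : False := by
  have ev := al.ev
  obtain ⟨y0, y1, y2, y3, y4, y5, y6, y7, y8, y9, y10, y11, y12, y13, y14, y15, y16, y17, y18, y19, y20, y21, y22⟩ := id hy
  have n1p := And.intro n1.p1 n1.p2
  have n2p := And.intro n2.p1 n2.p2
  have n3p := And.intro n3.p1 n3.p2
  by_cases z27 : (2 * Q) ≤ (j + k)
  · have k83 : (j + 1) ≤ (k) := by clear * - y2 z27; omega
    have k84 : (2 * Q + k) ≤ (j + 2 * i3) := by clear * - b2 b3 b5 b6 b7 b8 b9 z27; omega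
    have k85 : (k) ≤ (j + 2 * i3) := by clear * - b1 b2 b3 b5 b8 y22; omega
    have k86 : (2 * n + k) ≤ (2 * i + j + 2 * l + 2 * l2 + 2 * i3 + 6) := by clear * - b1 b2 b3 b5 b6 b8 y14 z27; omega
    have k87 : (2 * i + 2 * l + 2 * l2 + 6) ≤ (2 * n + j + k) := by clear * - b0 b2 b8 y22; omega
    have k88 : (2 * i + 2 * l + 2 * l2 + 2 * i3 + 6) ≤ (2 * n + j + 3 * k) := by clear * - b2 b3 b5 b6 b7 b8 b9 y14 z27; omega
    have k89 : (i + l + l2 + i3 - 3 * n + 2) % 2 = 0 := by clear * - ev n1p n2p n3p; omega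
    have k90 : (k - j) % 2 = 0 := by clear * - ev n1p n2p n3p; omega
    clear * - al a1 a2 s1 s2 b tt c u1 u2 d1 d2 n1 n2 n3 k83 k84 b9 z27 k85 k86 k87 k88 k89 k90
    exact midP al (k - j) (i + l + l2 + i3 - 3 * n + 2) (max (Q - n) (max (-n) (i + l + l2 + i3 - 2 * n - k + 3))) (-n) (k - n) (by omega) (fun t h1 h2 => (cE (qa u1 al (-1) t ((i + l + l2 + i3 - n + 2) - t) (by omega)) (sh al (-2) ((i + l + l2 + i3 - n + 2) - t) ((i + l + l2 + i3 - 3 * n + 2) - t) (by omega)))) (fun t h1 h2 => (cE (qf a1 al (-1) t (t + (n + k - j)) (by omega)) (sh al (-1) (t + (n + k - j)) (t + (k - j)) (by omega))))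
  · by_cases z28 : (i2) ≤ (l2 + i3)
    · by_cases z29 : (2 * i + 2 * l + l2 + 5) ≤ (i2 + i3)
      · have k91 : (i2 + l2 + i3 + 3) ≤ (2 * n) := by clear * - b2 b3 b4 b6 y8; omega
        have k92 : (i3 + 1) ≤ (i2 + l2) := by clear * - b3 z28 z29; omega
        have k93 : (2 * i + 2 * l + l2 + 4) ≤ (i2 + i3) := by clear * - z29; omega
        obtain ⟨t, ht⟩ : ∃ t, 2 * t = (2 * i + 2 * l + l2 + i3 - 2 * n - i2 + 3) := ⟨(2 * i + 2 * l + l2 + i3 - 2 * n - i2 + 3) / 2, by clear * - ev n1p n2p n3p; omega⟩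
        clear * - al a1 a2 s1 s2 b tt c u1 u2 d1 d2 n1 n2 n3 k91 k92 k93 z28 ht
        exact al.ninv t (cE (cE (ab u2 al (-1) t ((i + l + l2 + i3 - n + 2) - t) (by omega)) (qf c al 0 ((i + l + l2 + i3 - n + 2) - t) ((2 * i + 2 * l + l2 + i3 - n - i2 + 3) - t) (by omega))) (sh al (-1) ((2 * i + 2 * l + l2 + i3 - n - i2 + 3) - t) t (by omega)))
      · have k94 : (n + 2 * Q + i) ≤ (k + i2 + l2 + i3 + 1) := by clear * - b2 b3 b4 b6 b7 b8 b9 z27; omega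
        have k95 : (n + 2 * Q + k) ≤ (i + 2 * l + i2 + 3 * l2 + i3 + 5) := by clear * - b2 b3 b4 b6 b7 b8 b9 z27 z29; omega
        have k96 : (2 * Q + k + i2) ≤ (n + 3 * i + 2 * l + l2 + i3 + 3) := by clear * - b2 b3 b4 b6 b7 b8 b9 z27 z29; omega
        have k97 : (2 * Q + i2 + l2) ≤ (n + i + k + 2 * l + i3 + 1) := by clear * - b2 b3 b4 b6 b7 b8 b9 z27 z29; omega
        have k98 : (2 * Q + i + i3) ≤ (n + k + i2 + l2 + 1) := by clear * - b2 b3 b4 b6 b7 b8 b9 z27 z29; omega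
        have k99 : (n + i + k + 1) ≤ (i2 + l2 + i3) := by clear * - b2 b3 b5 b6 b7 b8 b9 z27; omega
        have k100 : (n + 3 * k) ≤ (i + 2 * l + i2 + 3 * l2 + i3 + 3) := by clear * - b2 b3 b5 b6 b7 b8 b9 z27 z29; omega
        have k101 : (k + i2 + l2 + 3) ≤ (n + i + i3) := by clear * - b2 b3 b4 b6 b7 b9 z27; omega
        have k102 : (3 * k + 3 * i2 + l2 + 1) ≤ (3 * n + 5 * i + 2 * l + i3) := by clear * - b2 b3 b4 b6 b7 b9 z27 z28; omega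
        have k103 : (i + i2 + 3 * l2 + 5) ≤ (n + k + i3) := by clear * - b2 b3 b4 b6 b7 b8 b9 z27; omega
        have k104 : (3 * i2 + 5 * l2 + 5) ≤ (3 * n + i + k + 2 * l + i3) := by clear * - b2 b3 b4 b6 b7 b8 b9 z27 z29; omega
        have k105 : (3 * i + 2 * l + l2 + i3 + 5) ≤ (n + k + i2) := by clear * - b2 b3 b4 b5 b6 b7 b8; omega
        have k106 : (3 * i + 2 * l + l2 + 3 * i3 + 5) ≤ (3 * n + k + i2) := by clear * - b2 b3 b4 b5 b6 b7 b8 z27 z29; omega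
        have k107 : (2 * n + i + l + l2 + i3 + 2) % 2 = 0 := by clear * - ev n1p n2p n3p; omega
        have k108 : (n + i + i3 - k - i2 - l2 - 1) % 2 = 0 := by clear * - ev n1p n2p n3p; omega
        clear * - al a1 a2 s1 s2 b tt c u1 u2 d1 d2 n1 n2 n3 k94 k95 k96 k97 k98 k99 k100 k101 k102 k103 k104 k105 k106 k107 k108
        exact midP al (n + i + i3 - k - i2 - l2 - 1) (2 * n + i + l + l2 + i3 + 2) (max (n + Q) (max (n + k + 1) (max (k + i2 + l2 - i + 2) (max (i + l + l2 + i3 + 3) (i2 + 2 * l2 + 3))))) (max (n + k + 1) (k + i2 + l2 - i + 2)) (min (2 * n + i + l + i3 - i2 - l2) (2 * n)) (by omega) (fun t h1 h2 => (cE (qa u1 al 1 t ((n + i + l + l2 + i3 + 2) - t) (by omega)) (sh al 1 ((n + i + l + l2 + i3 + 2) - t) ((2 * n + i + l + l2 + i3 + 2) - t) (by omega)))) (fun t h1 h2 => (cE (cE (pb b al 1 t (t + (i - n - k)) (by omega)) (pb d1 al 0 (t + (i - n - k)) (t + (i + i3 -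 k - i2 - l2 - 1)) (by omega))) (sh al 1 (t + (i + i3 - k - i2 - l2 - 1)) (t + (n + i + i3 - k - i2 - l2 - 1)) (by omega))))
    · by_cases z30 : (i2) ≤ (l2 + i3 + 1)
      · by_cases z31 : (k + l + 1) ≤ (i2)
        · have k109 : (i + l2 + 2) ≤ (k) := by clear * - b2 b3 b4 b6 b7 b8 z30 z31; omega
          have k110 : (Q + k) ≤ (i + l2 + i3 + 1) := by clear * - b2 b4 b6 b7 b9 z27; omega
          have k111 : (k + l) ≤ (l2 + i3) := by clear * - z30 z31; omega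
          have k112 : (l2 + i3) ≤ (k + l) := by clear * - y8 z28; omega
          clear * - al a1 a2 s1 s2 b tt c u1 u2 d1 d2 n1 n2 n3 k109 k110 k111 k112 z31 y8
          exact (n2.f3 (ab u1 al 0 (k + l + 1) (i + l + 1) (by omega))) (sh al 0 (i2) (k + l + 1) (by omega))
        · have k113 : (k) ≤ (l + l2 + i3) := by clear * - b2 b4 b6 b7 b8 b9 z27 z28 z31; omega
          have k114 : (2 * i + l + l2 + 4) ≤ (k + i3) := by clear * - b2 b5 b6 b8 b9 z27 z28 z31; omega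
          have k115 : (l2 + i3 + 1) ≤ (k + l) := by clear * - z28 z31; omega
          have k116 : (k + l + l2 + i3 + 3) ≤ (2 * n) := by clear * - b2 b4 b6 z27 z28 z31; omega
          obtain ⟨t, ht⟩ : ∃ t, 2 * t = (2 * i + l + l2 + i3 - 2 * n - k + 2) := ⟨(2 * i + l + l2 + i3 - 2 * n - k + 2) / 2, by clear * - ev n1p n2p n3p; omega⟩
          clear * - al a1 a2 s1 s2 b tt c u1 u2 d1 d2 n1 n2 n3 k113 k114 k115 k116 ht
          exact al.ninv t (cE (cI (qf b al (-1) t (t + (n + k - i)) (by omega)) (qa u2 al 0 (t + (n + k - i)) ((2 * i + l + l2 + i3 - n - k + 2) - t) (by omega))) (sh al (-1) ((2 * i + l + l2 + i3 - n - k + 2) - t) t (by omega)))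
      · have k117 : (k) ≤ (l + l2 + i3) := by clear * - b2 b9 y16; omega
        have k118 : (2 * i + l + l2 + 4) ≤ (k + i3) := by clear * - b2 b3 b4 b6 b7 b8 z27; omega
        have k119 : (l2 + i3 + 1) ≤ (k + l) := by clear * - y8 z30; omega
        have k120 : (k + l + l2 + i3 + 3) ≤ (2 * n) := by clear * - b2 b3 b4 b6; omega
        obtain ⟨t, ht⟩ : ∃ t, 2 * t = (2 * i + l + l2 + i3 - 2 * n - k + 2) := ⟨(2 * i + l + l2 + i3 - 2 * n - k + 2) / 2, by clear * - ev n1p n2p n3p; omega⟩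
        clear * - al a1 a2 s1 s2 b tt c u1 u2 d1 d2 n1 n2 n3 k117 k118 k119 k120 ht
        exact al.ninv t (cE (cI (qf b al (-1) t (t + (n + k - i)) (by omega)) (qa u2 al 0 (t + (n + k - i)) ((2 * i + l + l2 + i3 - n - k + 2) - t) (by omega))) (sh al (-1) ((2 * i + l + l2 + i3 - n - k + 2) - t) t (by omega)))

theorem l2_01110_17 {W : ℤ → G} {n Q i j k l i2 l2 i3 : ℤ} (al : AL W n Q)
    {L : ℤ} (mx : ∀ a b g, 0 < g → g < n → Par W a b g → b - a ≤ L) (hL : L ≤ (n - j - 3) ∧ L ≤ (n + Q - k - 3) ∧ L ≤ (n - l - 3) ∧ L ≤ (n + i - k - 2) ∧ L ≤ (n - l2 - 3) ∧ L ≤ (i3 - 2) ∧ L ≤ (i2 + l2 - Q - 1) ∧ L ≤ (n + i3 - i2 - l2 - 3))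
    (hy : (0) ≤ (i) ∧ (i) ≤ (j) ∧ (j + 1) ≤ (Q) ∧ (Q) ≤ (k) ∧ (k + 1) ≤ (n) ∧ (Q) ≤ (i + l + 1) ∧ (k + l + 2) ≤ (n) ∧ (Q) ≤ (i2) ∧ (i2) ≤ (k + l + 1) ∧ (Q) ≤ (i + l + l2 + 2) ∧ (i + l + l2 + 3) ≤ (n) ∧ (n) ≤ (i2 + l2 + 1) ∧ (i2 + l2 + 2) ≤ (n + Q) ∧ (Q) ≤ (i3) ∧ (i3) ≤ (i + l + l2 + 2) ∧ (j + 3) ≤ (n) ∧ (k + 3) ≤ (n + Q) ∧ (l + 3) ≤ (n) ∧ (k + 2) ≤ (n + i) ∧ (l2 + 3) ≤ (n) ∧ (2) ≤ (i3) ∧ (Q + 1) ≤ (i2 + l2) ∧ (i2 + l2 + 3) ≤ (n + i3))
    (a1 : Par W (0) (j) (k - j))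
    (a2 : Par W (Q + j - k) (j) (k - j))
    (s1 : Ant W (0) (i) (i + j))
    (s2 : Ant W (j + 1) (Q) (i + j))
    (b : Par W (i + 1) (i + l + 1) (k - i))
    (tt : Ant W (k + l + 2) (n) (k + l + i2 + 1))
    (c : Par W (i2 + 1) (i2 + l2 + 1) (i + l - i2 + 1))
    (u1 : Ant W (Q) (i3) (i + l + l2 + i3 + 2))
    (u2 : Ant W (i + l + l2 + 3) (n) (i + l + l2 + i3 + 2))
    (d1 : Par W (i3 + 1) (n) (i2 + l2 - n - i3 + 1))
    (d2 : Par W (i2 + l2 - n + 2) (Q) (n + i3 - i2 - l2 - 1))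
    (n1 : Nd W (j) (i) (k))
    (n2 : Nd W (k + l + 1) (i2) (i + l + 1))
    (n3 : Nd W (i + l + l2 + 2) (i3) (i2 + l2 - n + 1))
    (b0 : (n + i2) ≤ (i + l + 2 * i3 + 2))
    (b1 : (2 * i + j + 1) ≤ (k))
    (b2 : (2 * i3) ≤ (i + l + i2 + 2))
    (b3 : (2 * Q + i3) ≤ (i + j + i2 + l2 + 1))
    (b4 : (2 * l + 3) ≤ (n))
    (b5 : (k + l + i2 + l2 + 3) ≤ (n + Q + i3))
    (b6 : (i2 + l2 + 1) ≤ (k + i3))
    (b7 : (n + k) ≤ (j + i2 + l2 + 1))
    (b8 : (2 * i + j + 2 * l + 2 * l2 + 2 * i3 + 7) ≤ (2 * n + 2 * Q + k)) : False := by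
  have ev := al.ev
  obtain ⟨y0, y1, y2, y3, y4, y5, y6, y7, y8, y9, y10, y11, y12, y13, y14, y15, y16, y17, y18, y19, y20, y21, y22⟩ := id hy
  have n1p := And.intro n1.p1 n1.p2
  have n2p := And.intro n2.p1 n2.p2
  have n3p := And.intro n3.p1 n3.p2
  by_cases z32 : (n + j) ≤ (l + l2 + i3 + 1)
  · by_cases z33 : (l + l2 + i3 + 3) ≤ (n + Q)
    · have k121 : (l + l2 + i3 + 3) ≤ (2 * n + j) := by clear * - b1 b2 b3 b5 b6 b7 y14 z32 z33; omega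
      have k122 : (Q + l + l2 + 2) ≤ (n + j) := by clear * - b1 b2 b3 b5 b6 b7 z32 z33; omega
      clear * - al a1 a2 s1 s2 b tt c u1 u2 d1 d2 n1 n2 n3 z32 k121 z33 k122
      exact al.ubQ (l + l2 + i3 - n - j + 2) (by omega) (by omega) fun t h1 h2 => (cE (sh al 1 t (t + (n)) (by omega)) (cII (qa s2 al 1 (t + (n)) ((i + j) - t) (by omega)) (ab u1 al (-1) ((i + j) - t) (t + (l + l2 + i3 - n - j + 2)) (by omega))))
    · by_cases z34 : (l2 + i3 + 1) ≤ (k + l)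
      · have k123 : (k) ≤ (l + l2 + i3) := by clear * - y16 z33; omega
        have k124 : (2 * i + l + l2 + 4) ≤ (k + i3) := by clear * - b4 b5 b7 b8 z32 z33 z34; omega
        have k125 : (k + l + l2 + i3 + 3) ≤ (2 * n) := by clear * - b2 b3 b5 b8 z33; omega
        obtain ⟨t, ht⟩ : ∃ t, 2 * t = (2 * i + l + l2 + i3 - 2 * n - k + 2) := ⟨(2 * i + l + l2 + i3 - 2 * n - k + 2) / 2, by clear * - ev n1p n2p n3p; omega⟩
        clear * - al a1 a2 s1 s2 b tt c u1 u2 d1 d2 n1 n2 n3 k123 k124 z34 k125 ht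
        exact al.ninv t (cE (cI (qf b al (-1) t (t + (n + k - i)) (by omega)) (qa u2 al 0 (t + (n + k - i)) ((2 * i + l + l2 + i3 - n - k + 2) - t) (by omega))) (sh al (-1) ((2 * i + l + l2 + i3 - n - k + 2) - t) t (by omega)))
      · by_cases z35 : (i2 + 1) ≤ (l2 + i3)
        · by_cases z36 : (2 * i + 2 * l + l2 + 4) ≤ (i2 + i3)
          · have k126 : (i2 + l2 + i3 + 3) ≤ (2 * n) := by clear * - b2 b3 b5 b8 y8 z33; omega
            have k127 : (i3) ≤ (i2 + l2) := by clear * - b2 z35 z36; omega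
            obtain ⟨t, ht⟩ : ∃ t, 2 * t = (i2 + l2 + i3 - 2 * n + 1) := ⟨(i2 + l2 + i3 - 2 * n + 1) / 2, by clear * - ev n1p n2p n3p; omega⟩
            clear * - al a1 a2 s1 s2 b tt c u1 u2 d1 d2 n1 n2 n3 z35 k126 k127 z36 ht
            exact al.ninv t (cE (cI (qf c al (-1) t (t + (n + i + l - i2 + 1)) (by omega)) (ab u2 al 0 (t + (n + i + l - i2 + 1)) ((i2 + l2 + i3 - n + 1) - t) (by omega))) (sh al (-1) ((i2 + l2 + i3 - n + 1) - t) t (by omega)))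
          · by_cases z37 : (i + k + 2 * l + 4) ≤ (2 * i2)
            · have k128 : (k) ≤ (i + 2 * l2) := by clear * - z35 z36 z37; omega
              have k129 : (k + 2 * i2 + 1) ≤ (2 * n + i) := by clear * - b3 b5 b8 z33 z36; omega
              have k130 : (i + 1) ≤ (k) := by clear * - b2 b3 b5 b6 b7 b8 z33 z36 z37; omega
              obtain ⟨t, ht⟩ : ∃ t, 2 * t = (k + 2 * i2 - 2 * n - i) := ⟨(k + 2 * i2 - 2 * n - i) / 2, by clear * - ev n1p n2p n3p; omega⟩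
              clear * - al a1 a2 s1 s2 b tt c u1 u2 d1 d2 n1 n2 n3 z37 k128 k129 k130 ht
              exact al.ninv t (cE (cE (qa tt al (-1) t ((k + l + i2 - n + 1) - t) (by omega)) (pb c al 0 ((k + l + i2 - n + 1) - t) ((k + 2 * i2 - n - i) - t) (by omega))) (sh al (-1) ((k + 2 * i2 - n - i) - t) t (by omega)))
            · have k131 : (3 * i + 2 * l + l2 + i3 + 5) ≤ (n + k + i2) := by clear * - b2 b3 b5 b6 b7 b8 z33 z34; omega
              have k132 : (i + k + i3 + 1) ≤ (n + i2 + l2) := by clear * - b2 b3 b5 b6 b7 b8 z33 z34 z37; omega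
              have k133 : (k + i2 + l2 + i3 + 3) ≤ (3 * n + i) := by clear * - b2 b3 b5 b6 b7 b8 z33 z34 z37; omega
              have k134 : (i + i2 + 3 * l2 + i3 + 5) ≤ (3 * n + k) := by clear * - b2 b3 b5 b6 b7 b8 z33 z34 z37; omega
              have k135 : (3 * i + 2 * l + i2 + 3 * l2 + i3 + 7) ≤ (3 * n + 2 * Q + k) := by clear * - b2 b3 b5 b6 b7 b8 z33 z34 z37; omega
              have k136 : (n + i + k + 1) ≤ (i2 + l2 + i3) := by clear * - b2 b4 b5 b6 b7 b8 z33 z34; omega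
              have k137 : (n + 3 * k) ≤ (i + 2 * l + i2 + 3 * l2 + i3 + 3) := by clear * - b2 b4 b5 b6 b7 b8 z33 z34 z37; omega
              have k138 : (k + i2 + l2 + 3) ≤ (n + i + i3) := by clear * - b2 b3 b5 b6 b8 z33 z34; omega
              have k139 : (3 * k + 3 * i2 + l2 + 1) ≤ (3 * n + 5 * i + 2 * l + i3) := by clear * - b2 b3 b5 b6 b8 z33 z34 z35; omega
              have k140 : (i + i2 + 3 * l2 + 5) ≤ (n + k + i3) := by clear * - b2 b3 b5 b6 b7 b8 z33 z34; omega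
              have k141 : (3 * i2 + 5 * l2 + 5) ≤ (3 * n + i + k + 2 * l + i3) := by clear * - b2 b3 b5 b6 b7 b8 z33 z34 z37; omega
              have k142 : (3 * i + 2 * l + i2 + 3 * l2 + 7) ≤ (n + 2 * Q + k + i3) := by clear * - b2 b3 b5 b6 b7 b8 z33 z34; omega
              have k143 : (3 * i + 2 * l + 3 * i2 + 5 * l2 + 9) ≤ (3 * n + 4 * Q + k + i3) := by clear * - b2 b3 b5 b6 b7 b8 z33 z34 z37; omega
              have k144 : (i + l + l2 + i3 + 2) % 2 = 0 := by clear * - ev n1p n2p n3p; omega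
              have k145 : (n + i + i3 - k - i2 - l2 - 1) % 2 = 0 := by clear * - ev n1p n2p n3p; omega
              clear * - al a1 a2 s1 s2 b tt c u1 u2 d1 d2 n1 n2 n3 k131 k132 k133 k134 k135 k136 k137 k138 k139 k140 k141 k142 k143 k144 k145
              exact midP al (n + i + i3 - k - i2 - l2 - 1) (i + l + l2 + i3 + 2) (max (i + l + i2 + 2 * l2 - n - Q + 4) (max (k + i2 + l2 - n - i + 2) (max (i + l + l2 + i3 - n + 3) (max (i2 + 2 * l2 - n + 3) (k + 1))))) (max (k + i2 + l2 - n - i + 2) (k + 1)) (min (n + Q + i3 - i2 - l2 - 1) (n + i + l + i3 - i2 - l2)) (by omega) (fun t h1 h2 => (ab u2 al 0 t ((i + l + l2 + i3 + 2) - t) (by omega))) (fun t h1 h2 => (cE (pb b al 0 t (t + (i - k)) (by omega)) (qf d2 al 0 (t + (i - k)) (t + (n + i + i3 - k - i2 - l2 - 1)) (by omega))))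
        · have k146 : (i + l2 + 2) ≤ (k) := by clear * - b2 b3 b5 b6 b7 b8 z33 z34; omega
          have k147 : (Q + k) ≤ (i + l2 + i3 + 1) := by clear * - b3 b5 z32; omega
          have k148 : (l2 + i3) ≤ (k + l) := by clear * - y8 z35 ev n1p n2p n3p; omega
          have k149 : (k + l + 1) ≤ (i2) := by clear * - z34 z35 ev n1p n2p n3p; omega
          clear * - al a1 a2 s1 s2 b tt c u1 u2 d1 d2 n1 n2 n3 k146 k147 z34 k148 k149 y8
          exact (n2.f3 (ab u1 al 0 (k + l + 1) (i + l + 1) (by omega))) (sh al 0 (i2) (k + l + 1) (by omega))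
  · have k150 : (k) ≤ (l + l2 + i3) := by clear * - b0 b1 b2 b3 b4 b5 b7 y14 z32; omega
    have k151 : (2 * i + l + l2 + 4) ≤ (k + i3) := by clear * - b0 b1 b2 b3 b5 b7 b8; omega
    have k152 : (l2 + i3 + 1) ≤ (k + l) := by clear * - b0 b1 b2 z32 ev n1p n2p n3p; omega
    have k153 : (k + l + l2 + i3 + 3) ≤ (2 * n) := by clear * - b1 b2 b3 b5; omega
    obtain ⟨t, ht⟩ : ∃ t, 2 * t = (2 * i + l + l2 + i3 - 2 * n - k + 2) := ⟨(2 * i + l + l2 + i3 - 2 * n - k + 2) / 2, by clear * - ev n1p n2p n3p; omega⟩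
    clear * - al a1 a2 s1 s2 b tt c u1 u2 d1 d2 n1 n2 n3 k150 k151 k152 k153 ht
    exact al.ninv t (cE (cI (qf b al (-1) t (t + (n + k - i)) (by omega)) (qa u2 al 0 (t + (n + k - i)) ((2 * i + l + l2 + i3 - n - k + 2) - t) (by omega))) (sh al (-1) ((2 * i + l + l2 + i3 - n - k + 2) - t) t (by omega)))

theorem l2_01110_15 {W : ℤ → G} {n Q i j k l i2 l2 i3 : ℤ} (al : AL W n Q)
    {L : ℤ} (mx : ∀ a b g, 0 < g → g < n → Par W a b g → b - a ≤ L) (hL : L ≤ (n - j - 3) ∧ L ≤ (n + Q - k - 3) ∧ L ≤ (n - l - 3) ∧ L ≤ (n + i - k - 2) ∧ L ≤ (n - l2 - 3) ∧ L ≤ (i3 - 2) ∧ L ≤ (i2 + l2 - Q - 1) ∧ L ≤ (n + i3 - i2 - l2 - 3))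
    (hy : (0) ≤ (i) ∧ (i) ≤ (j) ∧ (j + 1) ≤ (Q) ∧ (Q) ≤ (k) ∧ (k + 1) ≤ (n) ∧ (Q) ≤ (i + l + 1) ∧ (k + l + 2) ≤ (n) ∧ (Q) ≤ (i2) ∧ (i2) ≤ (k + l + 1) ∧ (Q) ≤ (i + l + l2 + 2) ∧ (i + l + l2 + 3) ≤ (n) ∧ (n) ≤ (i2 + l2 + 1) ∧ (i2 + l2 + 2) ≤ (n + Q) ∧ (Q) ≤ (i3) ∧ (i3) ≤ (i + l + l2 + 2) ∧ (j + 3) ≤ (n) ∧ (k + 3) ≤ (n + Q) ∧ (l + 3) ≤ (n) ∧ (k + 2) ≤ (n + i) ∧ (l2 + 3) ≤ (n) ∧ (2) ≤ (i3) ∧ (Q + 1) ≤ (i2 + l2) ∧ (i2 + l2 + 3) ≤ (n + i3))
    (a1 : Par W (0) (j) (k - j))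
    (a2 : Par W (Q + j - k) (j) (k - j))
    (s1 : Ant W (0) (i) (i + j))
    (s2 : Ant W (j + 1) (Q) (i + j))
    (b : Par W (i + 1) (i + l + 1) (k - i))
    (tt : Ant W (k + l + 2) (n) (k + l + i2 + 1))
    (c : Par W (i2 + 1) (i2 + l2 + 1) (i + l - i2 + 1))
    (u1 : Ant W (Q) (i3) (i + l + l2 + i3 + 2))
    (u2 : Ant W (i + l + l2 + 3) (n) (i + l + l2 + i3 + 2))
    (d1 : Par W (i3 + 1) (n) (i2 + l2 - n - i3 + 1))
    (d2 : Par W (i2 + l2 - n + 2) (Q) (n + i3 - i2 - l2 - 1))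
    (n1 : Nd W (j) (i) (k))
    (n2 : Nd W (k + l + 1) (i2) (i + l + 1))
    (n3 : Nd W (i + l + l2 + 2) (i3) (i2 + l2 - n + 1))
    (b0 : (l + l2 + i3 + 1) ≤ (n + k))
    (b1 : (n + i2) ≤ (i + l + 2 * i3 + 2))
    (b2 : (2 * i + j + 1) ≤ (k))
    (b3 : (2 * i3) ≤ (i + l + i2 + 2))
    (b4 : (2 * Q + i3) ≤ (i + j + i2 + l2 + 1))
    (b5 : (2 * l + 3) ≤ (n))
    (b6 : (k + l + i2 + l2 + 3) ≤ (n + Q + i3))
    (b7 : (i2 + l2 + 1) ≤ (k + i3))
    (b8 : (n + k) ≤ (j + i2 + l2 + 1)) : False := by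
  have ev := al.ev
  obtain ⟨y0, y1, y2, y3, y4, y5, y6, y7, y8, y9, y10, y11, y12, y13, y14, y15, y16, y17, y18, y19, y20, y21, y22⟩ := id hy
  have n1p := And.intro n1.p1 n1.p2
  have n2p := And.intro n2.p1 n2.p2
  have n3p := And.intro n3.p1 n3.p2
  by_cases z26 : (2 * n + 2 * Q + k) ≤ (2 * i + j + 2 * l + 2 * l2 + 2 * i3 + 6)
  · exact l2_01110_16 al mx hL hy a1 a2 s1 s2 b tt c u1 u2 d1 d2 n1 n2 n3 (by clear * - b0; omega) (by clear * - b1; omega) (by clear * - b2; omega) (by clear * - b3; omega) (by clear * - b4; omega) (by clear * - b5; omega) (by clear * - b6; omega) (by clear * - b7; omega) (by clear * - b8; omega) (by clear * - z26; omega)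
  · exact l2_01110_17 al mx hL hy a1 a2 s1 s2 b tt c u1 u2 d1 d2 n1 n2 n3 (by clear * - b1; omega) (by clear * - b2; omega) (by clear * - b3; omega) (by clear * - b4; omega) (by clear * - b5; omega) (by clear * - b6; omega) (by clear * - b7; omega) (by clear * - b8; omega) (by clear * - z26; omega)

theorem l2_01110_14 {W : ℤ → G} {n Q i j k l i2 l2 i3 : ℤ} (al : AL W n Q)
    {L : ℤ} (mx : ∀ a b g, 0 < g → g < n → Par W a b g → b - a ≤ L) (hL : L ≤ (n - j - 3) ∧ L ≤ (n + Q - k - 3) ∧ L ≤ (n - l - 3) ∧ L ≤ (n + i - k - 2) ∧ L ≤ (n - l2 - 3) ∧ L ≤ (i3 - 2) ∧ L ≤ (i2 + l2 - Q - 1) ∧ L ≤ (n + i3 - i2 - l2 - 3))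
    (hy : (0) ≤ (i) ∧ (i) ≤ (j) ∧ (j + 1) ≤ (Q) ∧ (Q) ≤ (k) ∧ (k + 1) ≤ (n) ∧ (Q) ≤ (i + l + 1) ∧ (k + l + 2) ≤ (n) ∧ (Q) ≤ (i2) ∧ (i2) ≤ (k + l + 1) ∧ (Q) ≤ (i + l + l2 + 2) ∧ (i + l + l2 + 3) ≤ (n) ∧ (n) ≤ (i2 + l2 + 1) ∧ (i2 + l2 + 2) ≤ (n + Q) ∧ (Q) ≤ (i3) ∧ (i3) ≤ (i + l + l2 + 2) ∧ (j + 3) ≤ (n) ∧ (k + 3) ≤ (n + Q) ∧ (l + 3) ≤ (n) ∧ (k + 2) ≤ (n + i) ∧ (l2 + 3) ≤ (n) ∧ (2) ≤ (i3) ∧ (Q + 1) ≤ (i2 + l2) ∧ (i2 + l2 + 3) ≤ (n + i3))
    (a1 : Par W (0) (j) (k - j))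
    (a2 : Par W (Q + j - k) (j) (k - j))
    (s1 : Ant W (0) (i) (i + j))
    (s2 : Ant W (j + 1) (Q) (i + j))
    (b : Par W (i + 1) (i + l + 1) (k - i))
    (tt : Ant W (k + l + 2) (n) (k + l + i2 + 1))
    (c : Par W (i2 + 1) (i2 + l2 + 1) (i + l - i2 + 1))
    (u1 : Ant W (Q) (i3) (i + l + l2 + i3 + 2))
    (u2 : Ant W (i + l + l2 + 3) (n) (i + l + l2 + i3 + 2))
    (d1 : Par W (i3 + 1) (n) (i2 + l2 - n - i3 + 1))
    (d2 : Par W (i2 + l2 - n + 2) (Q) (n + i3 - i2 - l2 - 1))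
    (n1 : Nd W (j) (i) (k))
    (n2 : Nd W (k + l + 1) (i2) (i + l + 1))
    (n3 : Nd W (i + l + l2 + 2) (i3) (i2 + l2 - n + 1))
    (b0 : (l + l2 + i3 + 1) ≤ (n + k))
    (b1 : (n + i2) ≤ (i + l + 2 * i3 + 2))
    (b2 : (2 * i + j + 1) ≤ (k))
    (b3 : (2 * i3) ≤ (i + l + i2 + 2))
    (b4 : (2 * Q + i3) ≤ (i + j + i2 + l2 + 1))
    (b5 : (i + k + l + l2 + i3 + 4) ≤ (n + 2 * Q + j))
    (b6 : (2 * l + 3) ≤ (n))
    (b7 : (k + l + i2 + l2 + 3) ≤ (n + Q + i3))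
    (b8 : (i2 + l2 + 1) ≤ (k + i3)) : False := by
  have ev := al.ev
  obtain ⟨y0, y1, y2, y3, y4, y5, y6, y7, y8, y9, y10, y11, y12, y13, y14, y15, y16, y17, y18, y19, y20, y21, y22⟩ := id hy
  have n1p := And.intro n1.p1 n1.p2
  have n2p := And.intro n2.p1 n2.p2
  have n3p := And.intro n3.p1 n3.p2
  by_cases z24 : (j + i2 + l2 + 2) ≤ (n + k)
  · by_cases z25 : (k + i3) ≤ (j + i2 + l2)
    · have k78 : (j + i2 + l2 + 2) ≤ (n + k + i3) := by clear * - b1 b2 b3 b4 b6 b7 b8 z25; omega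
      clear * - al a1 a2 s1 s2 b tt c u1 u2 d1 d2 n1 n2 n3 z25 k78 z24 b8
      exact al.ubP (j + i2 + l2 - k - i3 + 1) (by omega) (by omega) fun t h1 h2 => (cE (sh al 2 t (t + (2 * n)) (by omega)) (cE (qf d1 al 1 (t + (2 * n)) (t + (i2 + l2 - i3 + 1)) (by omega)) (pb a1 al 0 (t + (i2 + l2 - i3 + 1)) (t + (j + i2 + l2 - k - i3 + 1)) (by omega))))
    · have k79 : (l + l2 + i3 + 3) ≤ (n + j) := by clear * - b4 b5 z25; omega
      have k80 : (j) ≤ (l + l2 + i3 + 1) := by clear * - b1 b2 b3 b4 b5 b7 y11 y14 z25; omega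
      have k81 : (i + j + 1) ≤ (i3) := by clear * - b1 b2 b3 b4 b7 y11; omega
      have k82 : (n + j) ≤ (i + l + l2 + i3 + 2) := by clear * - b1 b2 b3 y11 y14 y6 z25; omega
      clear * - al a1 a2 s1 s2 b tt c u1 u2 d1 d2 n1 n2 n3 k79 k80 k81 k82
      exact al.ubP (n + j - l - l2 - i3 - 2) (by omega) (by omega) fun t h1 h2 => (cII (qa u2 al (-1) t ((i + l + l2 + i3 - n + 2) - t) (by omega)) (ab s1 al 0 ((i + l + l2 + i3 - n + 2) - t) (t + (n + j - l - l2 - i3 - 2)) (by omega)))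
  · exact l2_01110_15 al mx hL hy a1 a2 s1 s2 b tt c u1 u2 d1 d2 n1 n2 n3 (by clear * - b0; omega) (by clear * - b1; omega) (by clear * - b2; omega) (by clear * - b3; omega) (by clear * - b4; omega) (by clear * - b6; omega) (by clear * - b7; omega) (by clear * - b8; omega) (by clear * - z24; omega)

theorem l2_00000 {W : ℤ → G} {n Q i j k l i2 l2 i3 : ℤ} (al : AL W n Q)
    {L : ℤ} (mx : ∀ a b g, 0 < g → g < n → Par W a b g → b - a ≤ L) (hL : L ≤ (n - j - 3) ∧ L ≤ (n + Q - k - 3) ∧ L ≤ (n - l - 3) ∧ L ≤ (n + i - k - 2) ∧ L ≤ (n - l2 - 3) ∧ L ≤ (i3 - 2) ∧ L ≤ (k + l + l2 - Q) ∧ L ≤ (n + i3 - k - l - l2 - 4))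
    (hy : (0) ≤ (i) ∧ (i) ≤ (j) ∧ (j + 1) ≤ (Q) ∧ (Q) ≤ (k) ∧ (k + 1) ≤ (n) ∧ (Q) ≤ (i + l + 1) ∧ (k + l + 2) ≤ (n) ∧ (Q) ≤ (i2) ∧ (i2) ≤ (i + l + 1) ∧ (Q) ≤ (i2 + l2 + 1) ∧ (i2 + l2 + 2) ≤ (n) ∧ (n) ≤ (k + l + l2 + 2) ∧ (k + l + l2 + 3) ≤ (n + Q) ∧ (Q) ≤ (i3) ∧ (i3) ≤ (i2 + l2 + 1) ∧ (j + 3) ≤ (n) ∧ (k + 3) ≤ (n + Q) ∧ (l + 3) ≤ (n) ∧ (k + 2) ≤ (n + i) ∧ (l2 + 3) ≤ (n) ∧ (2) ≤ (i3) ∧ (Q) ≤ (k + l + l2) ∧ (k + l + l2 + 4) ≤ (n + i3))
    (a1 : Par W (0) (j) (k - j))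
    (a2 : Par W (Q + j - k) (j) (k - j))
    (s1 : Ant W (0) (i) (i + j))
    (s2 : Ant W (j + 1) (Q) (i + j))
    (b : Par W (i + 1) (i + l + 1) (k - i))
    (tt : Ant W (Q) (i2) (i + l + i2 + 1))
    (c : Par W (i2 + 1) (i2 + l2 + 1) (k + l - i2 + 1))
    (u1 : Ant W (Q) (i3) (i2 + l2 + i3 + 1))
    (u2 : Ant W (i2 + l2 + 2) (n) (i2 + l2 + i3 + 1))
    (d1 : Par W (i3 + 1) (n) (k + l + l2 - n - i3 + 2))
    (d2 : Par W (k + l + l2 - n + 3) (Q) (n + i3 - k - l - l2 - 2))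
    (n1 : Nd W (j) (i) (k))
    (n2 : Nd W (i + l + 1) (i2) (k + l + 1))
    (n3 : Nd W (i2 + l2 + 1) (i3) (k + l + l2 - n + 2)) : False := by
  have ev := al.ev
  obtain ⟨y0, y1, y2, y3, y4, y5, y6, y7, y8, y9, y10, y11, y12, y13, y14, y15, y16, y17, y18, y19, y20, y21, y22⟩ := id hy
  have n1p := And.intro n1.p1 n1.p2
  have n2p := And.intro n2.p1 n2.p2
  have n3p := And.intro n3.p1 n3.p2
  by_cases z1 : (2 * i3) ≤ (k + l + l2 + 2)
  · have k1 : (i3) ≤ (k + l + l2 + 1) := by clear * - y20 z1; omega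
    have k2 : (k + l + l2 + 3) ≤ (n + i3) := by clear * - y22; omega
    have k3 : L ≤ (n + i3 - k - l - l2 - 4) := by clear * - hL; omega
    clear * - al a1 a2 s1 s2 b tt c u1 u2 d1 d2 n1 n2 n3 mx k1 k2 z1 k3
    exact absurd (mx (i3 + 1) (n) (k + l + l2 - i3 + 2) (by omega) (by omega) fun t h1 h2 => (cE (qf d1 al 0 t (t + (k + l + l2 - n - i3 + 2)) (by omega)) (sh al 1 (t + (k + l + l2 - n - i3 + 2)) (t + (k + l + l2 - i3 + 2)) (by omega)))) (by omega)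
  · by_cases z2 : (k) ≤ (2 * i + j)
    · have k4 : (j + 2) ≤ (k) := by clear * - y2 y3 ev n1p n2p n3p; omega
      have k5 : (k) ≤ (2 * i + 3 * j + 2) := by clear * - y1 y11 y12 y3 z2; omega
      have k6 : (2 * i + j + 2) ≤ (3 * k) := by clear * - y1 y2 y3; omega
      have k7 : (i + j - 2 * n) % 2 = 0 := by clear * - ev n1p n2p n3p; omega
      have k8 : (k - j) % 2 = 0 := by clear * - ev n1p n2p n3p; omega
      clear * - al a1 a2 s1 s2 b tt c u1 u2 d1 d2 n1 n2 n3 z2 k4 k5 k6 k7 k8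
      exact midP al (k - j) (i + j - 2 * n) (max (i + j - n - k + 1) (max (j - n + 1) (-n))) (-n) (k - n) (by omega) (fun t h1 h2 => (cE (ab s1 al (-1) t ((i + j - n) - t) (by omega)) (sh al (-1) ((i + j - n) - t) ((i + j - 2 * n) - t) (by omega)))) (fun t h1 h2 => (cE (qf a1 al (-1) t (t + (n + k - j)) (by omega)) (sh al (-1) (t + (n + k - j)) (t + (k - j)) (by omega))))
    · by_cases z3 : (n + 2 * Q) ≤ (i2 + l2 + i3 + 2)
      · clear * - al a1 a2 s1 s2 b tt c u1 u2 d1 d2 n1 n2 n3 y10 z3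
        exact al.auU (i2 + l2 + i3 - n + 1) fun t h1 h2 => (cI (sh al 1 t (t + (n)) (by omega)) (ab u1 al 0 (t + (n)) ((i2 + l2 + i3 - n + 1) - t) (by omega)))
      · by_cases z4 : (i2 + 2 * i3) ≤ (n + k + l)
        · have k9 : (k + l + 3) ≤ (n + i2) := by clear * - y14 z1 z4; omega
          have k10 : (i2 + 2 * i3 + 1) ≤ (n + k + l) := by clear * - z4 ev n1p n2p n3p; omega
          have k11 : (k + l + i2 + 2 * l2 + 4) ≤ (n + 2 * i3) := by clear * - z1 z4; omega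
          obtain ⟨t, ht⟩ : ∃ t, 2 * t = (3 * n + i2 + 2 * i3 - k - l - 1) := ⟨(3 * n + i2 + 2 * i3 - k - l - 1) / 2, by clear * - ev n1p n2p n3p; omega⟩
          clear * - al a1 a2 s1 s2 b tt c u1 u2 d1 d2 n1 n2 n3 k9 k10 k11 ht
          exact al.ninv t (cE (cI (qf d1 al 1 t (t + (k + l + l2 - 2 * n - i3 + 2)) (by omega)) (ab u2 al 0 (t + (k + l + l2 - 2 * n - i3 + 2)) ((2 * n + i2 + 2 * i3 - k - l - 1) - t) (by omega))) (sh al 1 ((2 * n + i2 + 2 * i3 - k - l - 1) - t) t (by omega)))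
        · by_cases z5 : (n + i + k + 1) ≤ (i2 + l2 + i3)
          · have k12 : (k + i2 + l2 + 3) ≤ (n + i + i3) := by clear * - y22 y8; omega
            have k13 : (i2 + l2 + i3) ≤ (n + i + k + 2 * l) := by clear * - y10 y11 y7 y8 z3; omega
            have k14 : (n + 2 * Q + i) ≤ (k + i2 + l2 + i3 + 2) := by clear * - y3 z5; omega
            obtain ⟨t, ht⟩ : ∃ t, 2 * t = (n + k + i2 + l2 + i3 - i + 1) := ⟨(n + k + i2 + l2 + i3 - i + 1) / 2, by clear * - ev n1p n2p n3p; omega⟩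
            clear * - al a1 a2 s1 s2 b tt c u1 u2 d1 d2 n1 n2 n3 z5 k12 k13 k14 ht
            exact al.ninv t (cE (cI (pb b al 1 t (t + (i - n - k)) (by omega)) (ab u1 al (-1) (t + (i - n - k)) ((k + i2 + l2 + i3 - i + 1) - t) (by omega))) (sh al 1 ((k + i2 + l2 + i3 - i + 1) - t) t (by omega)))
          · by_cases z6 : (n) ≤ (2 * l + 2)
            · have k15 : (i + 1) ≤ (k) := by clear * - y1 y11 y14 z1 z2 z5; omega
              have k16 : (k + 1) ≤ (n + i) := by clear * - y18; omega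
              have k17 : L ≤ (n - l - 3) := by clear * - hL; omega
              clear * - al a1 a2 s1 s2 b tt c u1 u2 d1 d2 n1 n2 n3 mx k15 k16 z6 k17
              exact absurd (mx (n + i + 1) (n + i + l + 1) (k - i) (by omega) (by omega) fun t h1 h2 => (cE (qf b al 1 t (t + (k - n - i)) (by omega)) (sh al 1 (t + (k - n - i)) (t + (k - i)) (by omega)))) (by omega)
            · by_cases z7 : (k + l + 2) ≤ (l2 + i3)
              · have k18 : (2 * i2 + l2 + 2) ≤ (k + l + i3) := by clear * - y1 y8 z2 z4 z5 ev n1p n2p n3p; omega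
                have k19 : (i3) ≤ (k + l + l2 + 1) := by clear * - y10 y11 y14; omega
                have k20 : (2 * Q + k + l) ≤ (2 * i2 + l2 + i3 + 1) := by clear * - y7 z7; omega
                obtain ⟨t, ht⟩ : ∃ t, 2 * t = (2 * i2 + l2 + i3 - 2 * n - k - l) := ⟨(2 * i2 + l2 + i3 - 2 * n - k - l) / 2, by clear * - ev n1p n2p n3p; omega⟩
                clear * - al a1 a2 s1 s2 b tt c u1 u2 d1 d2 n1 n2 n3 z7 k18 k19 k20 ht
                exact al.ninv t (cE (cI (qf c al (-1) t (t + (n + k + l - i2 + 1)) (by omega)) (ab u1 al 0 (t + (n + k + l - i2 + 1)) ((2 * i2 + l2 + i3 - n - k - l) - t) (by omega))) (sh al (-1) ((2 * i2 + l2 + i3 - n - k - l) - t) t (by omega)))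
              · by_cases z8 : (i + j + k + l + l2 + 4) ≤ (2 * Q + i3)
                · have k21 : (k + l + l2 + i3 + 4) ≤ (2 * n + i + j) := by clear * - y1 y14 y6 y8 z4 z6 z7 ev n1p n2p n3p; omega
                  have k22 : (i + j + i3) ≤ (k + l + l2 + 1) := by clear * - y14 y8 z2; omega
                  have k23 : (j + i3) ≤ (i + k + l + l2 + 1) := by clear * - y14 y8 z2 z4 z6 z7; omega
                  obtain ⟨t, ht⟩ : ∃ t, 2 * t = (i + j + k + l + l2 - 2 * n - i3 + 2) := ⟨(i + j + k + l + l2 - 2 * n - i3 + 2) / 2, by clear * - ev n1p n2p n3p; omega⟩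
                  clear * - al a1 a2 s1 s2 b tt c u1 u2 d1 d2 n1 n2 n3 k21 z8 k22 k23 ht
                  exact al.ninv t (cE (cI (pb d1 al (-1) t (t + (2 * n + i3 - k - l - l2 - 2)) (by omega)) (ab s2 al 1 (t + (2 * n + i3 - k - l - l2 - 2)) ((i + j + k + l + l2 - n - i3 + 2) - t) (by omega))) (sh al (-1) ((i + j + k + l + l2 - n - i3 + 2) - t) t (by omega)))
                · by_cases z9 : (n + 2 * Q + j) ≤ (k + i2 + l2 + i3 + 2)
                  · have k24 : (n + 2 * Q + j) ≤ (k + i2 + l2 + i3 + 1) := by clear * - z9 ev n1p n2p n3p; omega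
                    have k25 : (i2 + l2 + i3 + 3) ≤ (n + j + k) := by clear * - y1 y8 z6 z7 ev n1p n2p n3p; omega
                    have k26 : (k + i2 + l2 + 2) ≤ (n + j + i3) := by clear * - y1 y22 y8; omega
                    have k27 : (n + k) ≤ (j + i2 + l2 + i3 + 2) := by clear * - y1 y14 y8 z4; omega
                    obtain ⟨t, ht⟩ : ∃ t, 2 * t = (n + k + i2 + l2 + i3 - j + 1) := ⟨(n + k + i2 + l2 + i3 - j + 1) / 2, by clear * - ev n1p n2p n3p; omega⟩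
                    clear * - al a1 a2 s1 s2 b tt c u1 u2 d1 d2 n1 n2 n3 k24 k25 k26 k27 ht
                    exact al.ninv t (cE (cE (qa u1 al 1 t ((n + i2 + l2 + i3 + 1) - t) (by omega)) (qf a1 al 1 ((n + i2 + l2 + i3 + 1) - t) ((k + i2 + l2 + i3 - j + 1) - t) (by omega))) (sh al 1 ((k + i2 + l2 + i3 - j + 1) - t) t (by omega)))
                  · by_cases z10 : (k + l) ≤ (l2 + i3)
                    · by_cases z11 : (i + l + 1) ≤ (i2)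
                      · have k28 : (l2 + i3 + 2) ≤ (n) := by clear * - y6 z7 ev n1p n2p n3p; omega
                        have k29 : (i2 + 1) ≤ (i3) := by clear * - y8 z2 z4 z6 z8 z9; omega
                        have k30 : (l2 + i3) ≤ (k + l) := by clear * - z7 ev n1p n2p n3p; omega
                        clear * - al a1 a2 s1 s2 b tt c u1 u2 d1 d2 n1 n2 n3 k28 k29 z10 k30 z11 y8
                        exact (n2.f4 (ab u2 al 0 (i2) (k + l + 1) (by omega))) (sh al 0 (i2) (i + l + 1) (by omega))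
                      · have k31 : (i + k + 1) ≤ (i2 + l2 + i3) := by clear * - y14 z1 z11 z2 z4 z8 z9; omega
                        have k32 : (k + i2 + l2 + i3 + 3) ≤ (2 * n + i) := by clear * - y6 z11 z7; omega
                        have k33 : (i2 + l2 + i3) ≤ (i + k + 2 * l) := by clear * - z11 z7 ev n1p n2p n3p; omega
                        have k34 : (i + i2 + l2 + 2) ≤ (k + i3) := by clear * - z11 z2 z4 z6 z7 z8 z9; omega
                        obtain ⟨t, ht⟩ : ∃ t, 2 * t = (k + i2 + l2 + i3 - 2 * n - i + 1) := ⟨(k + i2 + l2 + i3 - 2 * n - i + 1) / 2, by clear * - ev n1p n2p n3p; omega⟩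
                        clear * - al a1 a2 s1 s2 b tt c u1 u2 d1 d2 n1 n2 n3 k31 k32 k33 k34 ht
                        exact al.ninv t (cE (cI (pb b al (-1) t (t + (n + i - k)) (by omega)) (ab u2 al 0 (t + (n + i - k)) ((k + i2 + l2 + i3 - n - i + 1) - t) (by omega))) (sh al (-1) ((k + i2 + l2 + i3 - n - i + 1) - t) t (by omega)))
                    · have k35 : (i + k + 1) ≤ (i2 + l2 + i3) := by clear * - y14 y8 z1 z2 z4 z8 z9; omega
                      have k36 : (k + i2 + l2 + i3 + 3) ≤ (2 * n + i) := by clear * - y6 y8 z10; omega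
                      have k37 : (i2 + l2 + i3) ≤ (i + k + 2 * l) := by clear * - y8 z10; omega
                      have k38 : (i + i2 + l2 + 2) ≤ (k + i3) := by clear * - y8 z10 z2 z4 z6 z8 z9; omega
                      obtain ⟨t, ht⟩ : ∃ t, 2 * t = (k + i2 + l2 + i3 - 2 * n - i + 1) := ⟨(k + i2 + l2 + i3 - 2 * n - i + 1) / 2, by clear * - ev n1p n2p n3p; omega⟩
                      clear * - al a1 a2 s1 s2 b tt c u1 u2 d1 d2 n1 n2 n3 k35 k36 k37 k38 ht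
                      exact al.ninv t (cE (cI (pb b al (-1) t (t + (n + i - k)) (by omega)) (ab u2 al 0 (t + (n + i - k)) ((k + i2 + l2 + i3 - n - i + 1) - t) (by omega))) (sh al (-1) ((k + i2 + l2 + i3 - n - i + 1) - t) t (by omega)))

end Pool.Agent.MP_a38735_al.WL
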