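import Pool.Agent.MP_a38735_al.Q2c2

set_option autoImplicit false
set_option linter.unusedVariables false

namespace Pool.Agent.MP_a38735_al.WL

variable {G : Type*} [Group G]

theorem l2_01110_21 {W : ℤ → G} {n Q i j k l i2 l2 i3 : ℤ} (al : AL W n Q)
    {L : ℤ} (mx : ∀ a b g, 0 < g → g < n → Par W a b g → b - a ≤ L) (hL : L ≤ (n - j - 3) ∧ L ≤ (n + Q - k - 3) ∧ L ≤ (n - l - 3) ∧ L ≤ (n + i - k - 2) ∧ L ≤ (n - l2 - 3) ∧ L ≤ (i3 - 2) ∧ L ≤ (i2 + l2 - Q - 1) ∧ L ≤ (n + i3 - i2 - l2 - 3))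
    (hy : (0) ≤ (i) ∧ (i) ≤ (j) ∧ (j + 1) ≤ (Q) ∧ (Q) ≤ (k) ∧ (k + 1) ≤ (n) ∧ (Q) ≤ (i + l + 1) ∧ (k + l + 2) ≤ (n) ∧ (Q) ≤ (i2) ∧ (i2) ≤ (k + l + 1) ∧ (Q) ≤ (i + l + l2 + 2) ∧ (i + l + l2 + 3) ≤ (n) ∧ (n) ≤ (i2 + l2 + 1) ∧ (i2 + l2 + 2) ≤ (n + Q) ∧ (Q) ≤ (i3) ∧ (i3) ≤ (i + l + l2 + 2) ∧ (j + 3) ≤ (n) ∧ (k + 3) ≤ (n + Q) ∧ (l + 3) ≤ (n) ∧ (k + 2) ≤ (n + i) ∧ (l2 + 3) ≤ (n) ∧ (2) ≤ (i3) ∧ (Q + 1) ≤ (i2 + l2) ∧ (i2 + l2 + 3) ≤ (n + i3))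
    (a1 : Par W (0) (j) (k - j))
    (a2 : Par W (Q + j - k) (j) (k - j))
    (s1 : Ant W (0) (i) (i + j))
    (s2 : Ant W (j + 1) (Q) (i + j))
    (b : Par W (i + 1) (i + l + 1) (k - i))
    (tt : Ant W (k + l + 2) (n) (k + l + i2 + 1))
    (c : Par W (i2 + 1) (i2 + l2 + 1) (i + l - i2 + 1))
    (u1 : Ant W (Q) (i3) (i + l + l2 + i3 + 2))
    (u2 : Ant W (i + l + l2 + 3) (n) (i + l + l2 + i3 + 2))
    (d1 : Par W (i3 + 1) (n) (i2 + l2 - n - i3 + 1))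
    (d2 : Par W (i2 + l2 - n + 2) (Q) (n + i3 - i2 - l2 - 1))
    (n1 : Nd W (j) (i) (k))
    (n2 : Nd W (k + l + 1) (i2) (i + l + 1))
    (n3 : Nd W (i + l + l2 + 2) (i3) (i2 + l2 - n + 1))
    (b0 : (l + l2 + i3 + 1) ≤ (n + k))
    (b1 : (n + i2) ≤ (i + l + 2 * i3 + 2))
    (b2 : (2 * i + j + 1) ≤ (k))
    (b3 : (2 * i3) ≤ (i + l + i2 + 2))
    (b4 : (2 * Q + i3) ≤ (i + j + i2 + l2 + 1))
    (b5 : (i + k + l + l2 + i3 + 4) ≤ (n + 2 * Q + j))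
    (b6 : (2 * l + 3) ≤ (n))
    (b7 : (k + l + i2 + l2 + 3) ≤ (n + Q + i3))
    (b8 : (k + i3) ≤ (i2 + l2))
    (b9 : (2 * n + i) ≤ (2 * k + l + i2 + 2))
    (b10 : (i2 + i3) ≤ (2 * i + 2 * l + l2 + 4)) : False := by
  have ev := al.ev
  obtain ⟨y0, y1, y2, y3, y4, y5, y6, y7, y8, y9, y10, y11, y12, y13, y14, y15, y16, y17, y18, y19, y20, y21, y22⟩ := id hy
  have n1p := And.intro n1.p1 n1.p2
  have n2p := And.intro n2.p1 n2.p2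
  have n3p := And.intro n3.p1 n3.p2
  by_cases z44 : (i + k + 2 * l + 3) ≤ (2 * i2)
  · have k178 : (i + 2) ≤ (k) := by clear * - b10 b2 b4 b7 b9 z44; omega
    have k179 : (i + k + 2 * l + 4) ≤ (2 * i2) := by clear * - z44 ev n1p n2p n3p; omega
    have k180 : (k) ≤ (i + 2 * l2 + 1) := by clear * - b1 b10 b2 b4 b6 b7 b8 b9; omega
    have k181 : (k + 2 * i2 + 1) ≤ (2 * n + i) := by clear * - b10 b2 b4 b7; omega
    obtain ⟨t, ht⟩ : ∃ t, 2 * t = (2 * n + i + k + 2 * l + 2) := ⟨(2 * n + i + k + 2 * l + 2) / 2, by clear * - ev n1p n2p n3p; omega⟩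
    clear * - al a1 a2 s1 s2 b tt c u1 u2 d1 d2 n1 n2 n3 k178 k179 k180 k181 ht
    exact al.ninv t (cE (cI (pb c al 1 t (t + (i2 - n - i - l - 1)) (by omega)) (qa tt al 0 (t + (i2 - n - i - l - 1)) ((n + i + k + 2 * l + 2) - t) (by omega))) (sh al 1 ((n + i + k + 2 * l + 2) - t) t (by omega)))
  · by_cases z45 : (k) ≤ (i + l)
    · by_cases z46 : (i + i3) ≤ (j + k + 1)
      · have k182 : (j + 1) ≤ (k) := by clear * - b0 b1 b2 b4 y2; omega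
        have k183 : (k + i2 + l2 + 2) ≤ (n + i + i3) := by clear * - b1 b2 b3 b4 b7; omega
        have k184 : (n + i + i3) ≤ (j + k + i2 + l2 + 3) := by clear * - b1 b6 b8 b9 z46; omega
        have k185 : (i) ≤ (j + 1) := by clear * - b2 b4 b7 b8 b9 z44; omega
        have k186 : (2 * k + 1) ≤ (n + i) := by clear * - b2 b4 b6 b7 b8 z45; omega
        have k187 : (k - j) % 2 = 0 := by clear * - ev n1p n2p n3p; omega
        have k188 : (n + i + i3 - k - i2 - l2 - 1) % 2 = 0 := by clear * - ev n1p n2p n3p; omega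
        clear * - al a1 a2 s1 s2 b tt c u1 u2 d1 d2 n1 n2 n3 k182 k183 k184 z46 k185 k186 z45 k187 k188
        exact n1.f0 (rEE (sh al 1 (j) (n + j) (by omega)) (sh al 1 (k) (n + k) (by omega)) (rotR (k - j) (n + i + i3 - k - i2 - l2 - 1) (n + j) (n + k) (by omega) (fun t h1 h2 => (cE (qf a1 al 1 t (t + (k - n - j)) (by omega)) (sh al 1 (t + (k - n - j)) (t + (k - j)) (by omega)))) (fun t h1 h2 => (cE (cE (pb d1 al 1 t (t + (i3 - i2 - l2 - 1)) (by omega)) (pb b al 0 (t + (i3 - i2 - l2 - 1)) (t + (i + i3 - k - i2 - l2 - 1)) (by omega))) (sh al 1 (t + (i + i3 - k - i2 - l2 - 1)) (t + (n + i + i3 - k - i2 - l2 - 1)) (by omega))))))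
      · by_cases z47 : (2 * j + 2) ≤ (i + k)
        · have k189 : (k) ≤ (i + 2 * j) := by clear * - b4 b7 b8 b9 z44; omega
          have k190 : (i + 1) ≤ (k) := by clear * - b2 b4 b7 b8 b9 z44 z47; omega
          have k191 : (i + k + 1) ≤ (2 * Q) := by clear * - b2 b4 b7 b8 b9 z44 z47; omega
          obtain ⟨t, ht⟩ : ∃ t, 2 * t = (i + 2 * j - 2 * n - k) := ⟨(i + 2 * j - 2 * n - k) / 2, by clear * - ev n1p n2p n3p; omega⟩
          clear * - al a1 a2 s1 s2 b tt c u1 u2 d1 d2 n1 n2 n3 k189 z47 k190 k191 ht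
          exact al.ninv t (cE (cI (qf a1 al (-1) t (t + (n + k - j)) (by omega)) (qa s2 al 0 (t + (n + k - j)) ((i + 2 * j - n - k) - t) (by omega))) (sh al (-1) ((i + 2 * j - n - k) - t) t (by omega)))
        · by_cases z48 : (l2 + i3) ≤ (k + l)
          · by_cases z49 : (l2 + i3 + 1) ≤ (k + l)
            · have k192 : (2 * Q + k) ≤ (2 * i + l + l2 + i3 + 2) := by clear * - b10 b2 b4 b7 b8 b9 z46 z47; omega
              have k193 : (l2 + i3 + 2) ≤ (k + l) := by clear * - z49 ev n1p n2p n3p; omega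
              have k194 : (2 * i + l + l2 + 3) ≤ (k + i3) := by clear * - b2 b6 b9 z44 z46 z47 z49; omega
              have k195 : (k) ≤ (l + l2 + i3 + 1) := by clear * - b10 b2 b6 b9 z45 z46 z47 z49; omega
              obtain ⟨t, ht⟩ : ∃ t, 2 * t = (2 * i + l + l2 + i3 - 2 * n - k + 2) := ⟨(2 * i + l + l2 + i3 - 2 * n - k + 2) / 2, by clear * - ev n1p n2p n3p; omega⟩
              clear * - al a1 a2 s1 s2 b tt c u1 u2 d1 d2 n1 n2 n3 k192 k193 k194 k195 ht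
              exact al.ninv t (cE (cE (qa u1 al (-1) t ((i + l + l2 + i3 - n + 2) - t) (by omega)) (pb b al 0 ((i + l + l2 + i3 - n + 2) - t) ((2 * i + l + l2 + i3 - n - k + 2) - t) (by omega))) (sh al (-1) ((2 * i + l + l2 + i3 - n - k + 2) - t) t (by omega)))
            · have k196 : (i + 2 * k + l + l2 + 4) ≤ (n + 2 * j + i3) := by clear * - b2 b6 b9 z44 z45 z46 z47 z48; omega
              have k197 : (i + l + l2 + i3 + 4) ≤ (n + 2 * j) := by clear * - b6 z47 z48 ev n1p n2p n3p; omega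
              have k198 : (i + l + l2 + i3 + 4) ≤ (n + 2 * k) := by clear * - b2 b6 b9 z44 z45 z47 z48; omega
              have k199 : (n + 2 * Q + 2 * j) ≤ (i + 2 * k + l + l2 + i3 + 3) := by clear * - b2 b4 b6 b9 z44 z46; omega
              have k200 : (n + 2 * k) ≤ (i + 2 * j + l + l2 + i3 + 3) := by clear * - b10 b6 b9 z46 z47; omega
              obtain ⟨t, ht⟩ : ∃ t, 2 * t = (n + i + 2 * j + l + l2 + i3 - 2 * k + 2) := ⟨(n + i + 2 * j + l + l2 + i3 - 2 * k + 2) / 2, by clear * - ev n1p n2p n3p; omega⟩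
              clear * - al a1 a2 s1 s2 b tt c u1 u2 d1 d2 n1 n2 n3 k196 k197 k198 k199 k200 ht
              exact al.ninv t (cE (cE (cE (ab u1 al 0 t ((i + l + l2 + i3 + 2) - t) (by omega)) (pb a2 al 0 ((i + l + l2 + i3 + 2) - t) ((i + j + l + l2 + i3 - k + 2) - t) (by omega))) (pb a1 al 0 ((i + j + l + l2 + i3 - k + 2) - t) ((i + 2 * j + l + l2 + i3 - 2 * k + 2) - t) (by omega))) (sh al 1 ((i + 2 * j + l + l2 + i3 - 2 * k + 2) - t) t (by omega)))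
          · have k201 : (l2 + i3 + 2) ≤ (n + i + l) := by clear * - b2 b4 b5 b6 b7 b9 z44 z46; omega
            have k202 : (n + i + i3) ≤ (l + 2 * i2 + l2) := by clear * - b2 b6 b8 b9 z44 z45 z47; omega
            have k203 : (i + l + i3 + 2) ≤ (n + l2) := by clear * - b2 b6 b8 b9 z44 z45 z47; omega
            have k204 : (2 * i2 + l2 + 1) ≤ (n + i + l + i3) := by clear * - b2 b4 b6 b7 b9 z44 z45; omega
            have k205 : (2 * k + l + l2 + 3) ≤ (n + i + i3) := by clear * - b0 z46 z47; omega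
            obtain ⟨t, ht⟩ : ∃ t, 2 * t = (i + l + i3 - n - l2) := ⟨(i + l + i3 - n - l2) / 2, by clear * - ev n1p n2p n3p; omega⟩
            clear * - al a1 a2 s1 s2 b tt c u1 u2 d1 d2 n1 n2 n3 k201 k202 k203 k204 k205 ht
            exact al.ninv t (cE (cI (cE (qf d1 al (-1) t (t + (i2 + l2 - i3 + 1)) (by omega)) (qf b al 0 (t + (i2 + l2 - i3 + 1)) (t + (k + i2 + l2 - i - i3 + 1)) (by omega))) (ab tt al 0 (t + (k + i2 + l2 - i - i3 + 1)) ((i + l + i3 - l2) - t) (by omega))) (sh al (-1) ((i + l + i3 - l2) - t) t (by omega)))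
    · by_cases z50 : (2 * j + 2) ≤ (i + k)
      · have k206 : (k) ≤ (i + 2 * j) := by clear * - b4 b7 b8 b9 z44; omega
        have k207 : (i + 1) ≤ (k) := by clear * - b2 b4 b7 b8 b9 z44 z50; omega
        have k208 : (i + k + 1) ≤ (2 * Q) := by clear * - b2 b4 b7 b8 b9 z44 z50; omega
        obtain ⟨t, ht⟩ : ∃ t, 2 * t = (i + 2 * j - 2 * n - k) := ⟨(i + 2 * j - 2 * n - k) / 2, by clear * - ev n1p n2p n3p; omega⟩
        clear * - al a1 a2 s1 s2 b tt c u1 u2 d1 d2 n1 n2 n3 k206 z50 k207 k208 ht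
        exact al.ninv t (cE (cI (qf a1 al (-1) t (t + (n + k - j)) (by omega)) (qa s2 al 0 (t + (n + k - j)) ((i + 2 * j - n - k) - t) (by omega))) (sh al (-1) ((i + 2 * j - n - k) - t) t (by omega)))
      · have k209 : (i + k + 2 * l + i3 + 3) ≤ (n + i2 + l2) := by clear * - b2 b4 b6 b7 b8 z45; omega
        have k210 : (n + i + k + i3 + 1) ≤ (3 * i2 + l2) := by clear * - b1 b2 b3 b4 b7 b8 b9 z45; omega
        have k211 : (k + l2 + i3 + 3) ≤ (n + i + i2) := by clear * - b1 b2 b3 b4 b7 b8 b9 z45; omega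
        have k212 : (k + i2 + l2 + 3) ≤ (n + i + i3) := by clear * - b1 b2 b3 b4 b7 ev n1p n2p n3p; omega
        have k213 : (n + i + k + i3) ≤ (2 * l + 3 * i2 + l2 + 1) := by clear * - b1 b2 b3 b4 b7 b8 b9 z45 z50; omega
        have k214 : (k + i2 + 3 * l2 + i3 + 3) ≤ (3 * n + 3 * i + 2 * l) := by clear * - b1 b2 b3 b4 b7 b8 z45 z50; omega
        have k215 : (k + 5 * i2 + 3 * l2 + 3) ≤ (3 * n + 3 * i + 2 * l + 3 * i3) := by clear * - b1 b10 b2 b3 b4 b7 b9; omega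
        have k216 : (i + k + 2 * l + i2 + i3 + 3) ≤ (3 * n + l2) := by clear * - b10 b2 b4 b6 b7 b8 b9; omega
        have k217 : (2 * n + k + l + i2 + 1) % 2 = 0 := by clear * - ev n1p n2p n3p; omega
        have k218 : (n + i + i3 - k - i2 - l2 - 1) % 2 = 0 := by clear * - ev n1p n2p n3p; omega
        clear * - al a1 a2 s1 s2 b tt c u1 u2 d1 d2 n1 n2 n3 k209 k210 k211 k212 k213 k214 k215 k216 k217 k218
        exact midP al (n + i + i3 - k - i2 - l2 - 1) (2 * n + k + l + i2 + 1) (max (n + k + l + 2) (max (n + k + 1) (max (k + 2 * i2 + l2 - i - i3 + 2) (max (k + i2 + l2 - i + 2) (k + l + i2 + 2))))) (max (n + k + 1) (k + i2 + l2 - i + 2)) (min (2 * n + i + l + i3 - i2 - l2) (2 * n)) (by omega) (fun t h1 h2 => (cE (qa tt al 1 t ((n + k + l + i2 + 1) - t) (by omega)) (sh al 1 ((n + k + l + i2 + 1) - t) ((2 * n + k + l + i2 + 1) - t) (by omega)))) (fun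 t h1 h2 => (cE (cE (pb b al 1 t (t + (i - n - k)) (by omega)) (pb d1 al 0 (t + (i - n - k)) (t + (i + i3 - k - i2 - l2 - 1)) (by omega))) (sh al 1 (t + (i + i3 - k - i2 - l2 - 1)) (t + (n + i + i3 - k - i2 - l2 - 1)) (by omega))))

theorem l2_01110_20 {W : ℤ → G} {n Q i j k l i2 l2 i3 : ℤ} (al : AL W n Q)
    {L : ℤ} (mx : ∀ a b g, 0 < g → g < n → Par W a b g → b - a ≤ L) (hL : L ≤ (n - j - 3) ∧ L ≤ (n + Q - k - 3) ∧ L ≤ (n - l - 3) ∧ L ≤ (n + i - k - 2) ∧ L ≤ (n - l2 - 3) ∧ L ≤ (i3 - 2) ∧ L ≤ (i2 + l2 - Q - 1) ∧ L ≤ (n + i3 - i2 - l2 - 3))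
    (hy : (0) ≤ (i) ∧ (i) ≤ (j) ∧ (j + 1) ≤ (Q) ∧ (Q) ≤ (k) ∧ (k + 1) ≤ (n) ∧ (Q) ≤ (i + l + 1) ∧ (k + l + 2) ≤ (n) ∧ (Q) ≤ (i2) ∧ (i2) ≤ (k + l + 1) ∧ (Q) ≤ (i + l + l2 + 2) ∧ (i + l + l2 + 3) ≤ (n) ∧ (n) ≤ (i2 + l2 + 1) ∧ (i2 + l2 + 2) ≤ (n + Q) ∧ (Q) ≤ (i3) ∧ (i3) ≤ (i + l + l2 + 2) ∧ (j + 3) ≤ (n) ∧ (k + 3) ≤ (n + Q) ∧ (l + 3) ≤ (n) ∧ (k + 2) ≤ (n + i) ∧ (l2 + 3) ≤ (n) ∧ (2) ≤ (i3) ∧ (Q + 1) ≤ (i2 + l2) ∧ (i2 + l2 + 3) ≤ (n + i3))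
    (a1 : Par W (0) (j) (k - j))
    (a2 : Par W (Q + j - k) (j) (k - j))
    (s1 : Ant W (0) (i) (i + j))
    (s2 : Ant W (j + 1) (Q) (i + j))
    (b : Par W (i + 1) (i + l + 1) (k - i))
    (tt : Ant W (k + l + 2) (n) (k + l + i2 + 1))
    (c : Par W (i2 + 1) (i2 + l2 + 1) (i + l - i2 + 1))
    (u1 : Ant W (Q) (i3) (i + l + l2 + i3 + 2))
    (u2 : Ant W (i + l + l2 + 3) (n) (i + l + l2 + i3 + 2))
    (d1 : Par W (i3 + 1) (n) (i2 + l2 - n - i3 + 1))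
    (d2 : Par W (i2 + l2 - n + 2) (Q) (n + i3 - i2 - l2 - 1))
    (n1 : Nd W (j) (i) (k))
    (n2 : Nd W (k + l + 1) (i2) (i + l + 1))
    (n3 : Nd W (i + l + l2 + 2) (i3) (i2 + l2 - n + 1))
    (b0 : (l + l2 + i3 + 1) ≤ (n + k))
    (b1 : (n + i2) ≤ (i + l + 2 * i3 + 2))
    (b2 : (2 * i + j + 1) ≤ (k))
    (b3 : (2 * i3) ≤ (i + l + i2 + 2))
    (b4 : (2 * Q + i3) ≤ (i + j + i2 + l2 + 1))
    (b5 : (i + k + l + l2 + i3 + 4) ≤ (n + 2 * Q + j))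
    (b6 : (2 * l + 3) ≤ (n))
    (b7 : (k + l + i2 + l2 + 3) ≤ (n + Q + i3))
    (b8 : (k + i3) ≤ (i2 + l2))
    (b9 : (2 * n + i) ≤ (2 * k + l + i2 + 2))
    (b10 : (2 * i + 2 * l + l2 + 5) ≤ (i2 + i3)) : False := by
  have ev := al.ev
  obtain ⟨y0, y1, y2, y3, y4, y5, y6, y7, y8, y9, y10, y11, y12, y13, y14, y15, y16, y17, y18, y19, y20, y21, y22⟩ := id hy
  have n1p := And.intro n1.p1 n1.p2
  have n2p := And.intro n2.p1 n2.p2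
  have n3p := And.intro n3.p1 n3.p2
  by_cases z40 : (i2) ≤ (l2 + i3)
  · have k162 : (i2 + 1) ≤ (l2 + i3) := by clear * - z40 ev n1p n2p n3p; omega
    have k163 : (i3) ≤ (i2 + l2) := by clear * - b10 b3 z40; omega
    have k164 : (i2 + l2 + i3 + 2) ≤ (2 * n) := by clear * - b2 b3 b4 b7 y8; omega
    obtain ⟨t, ht⟩ : ∃ t, 2 * t = (2 * i + 2 * l + l2 + i3 - 2 * n - i2 + 3) := ⟨(2 * i + 2 * l + l2 + i3 - 2 * n - i2 + 3) / 2, by clear * - ev n1p n2p n3p; omega⟩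
    clear * - al a1 a2 s1 s2 b tt c u1 u2 d1 d2 n1 n2 n3 k162 b10 k163 k164 ht
    exact al.ninv t (cE (cI (pb c al (-1) t (t + (n + i2 - i - l - 1)) (by omega)) (qa u2 al 0 (t + (n + i2 - i - l - 1)) ((2 * i + 2 * l + l2 + i3 - n - i2 + 3) - t) (by omega))) (sh al (-1) ((2 * i + 2 * l + l2 + i3 - n - i2 + 3) - t) t (by omega)))
  · by_cases z41 : (i2) ≤ (l2 + i3 + 1)
    · by_cases z42 : (2 * j + 2) ≤ (i + k)
      · have k165 : (k) ≤ (i + 2 * j) := by clear * - b1 b4 b5; omega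
        have k166 : (i + 1) ≤ (k) := by clear * - b2 b3 b4 b7 b9 z41; omega
        have k167 : (i + k + 1) ≤ (2 * Q) := by clear * - b1 b2 b4 b5 b8 z42; omega
        obtain ⟨t, ht⟩ : ∃ t, 2 * t = (i + 2 * j - 2 * n - k) := ⟨(i + 2 * j - 2 * n - k) / 2, by clear * - ev n1p n2p n3p; omega⟩
        clear * - al a1 a2 s1 s2 b tt c u1 u2 d1 d2 n1 n2 n3 k165 z42 k166 k167 ht
        exact al.ninv t (cE (cI (qf a1 al (-1) t (t + (n + k - j)) (by omega)) (qa s2 al 0 (t + (n + k - j)) ((i + 2 * j - n - k) - t) (by omega))) (sh al (-1) ((i + 2 * j - n - k) - t) t (by omega)))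
      · by_cases z43 : (k + l + 1) ≤ (i2)
        · have k168 : (i + l + l2 + 3) ≤ (i2) := by clear * - b10 z40; omega
          have k169 : (i2 + 1) ≤ (n) := by clear * - b2 b3 b4 b7 y8 z41; omega
          clear * - al a1 a2 s1 s2 b tt c u1 u2 d1 d2 n1 n2 n3 k168 k169 z41 z40 z43 y8
          exact (n2.f4 (qa u2 al 0 (i2) (i + l + 1) (by omega))) (sh al 0 (i2) (k + l + 1) (by omega))
        · have k170 : (k) ≤ (l + l2 + i3) := by clear * - b1 b2 b4 b6 b7 b8 z40 z42 z43; omega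
          have k171 : (2 * i + l + l2 + 4) ≤ (k + i3) := by clear * - b10 z43; omega
          have k172 : (l2 + i3 + 1) ≤ (k + l) := by clear * - z40 z43; omega
          have k173 : (k + l + l2 + i3 + 3) ≤ (2 * n) := by clear * - b2 b3 b4 b7; omega
          obtain ⟨t, ht⟩ : ∃ t, 2 * t = (2 * i + l + l2 + i3 - 2 * n - k + 2) := ⟨(2 * i + l + l2 + i3 - 2 * n - k + 2) / 2, by clear * - ev n1p n2p n3p; omega⟩
          clear * - al a1 a2 s1 s2 b tt c u1 u2 d1 d2 n1 n2 n3 k170 k171 k172 k173 ht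
          exact al.ninv t (cE (cI (qf b al (-1) t (t + (n + k - i)) (by omega)) (qa u2 al 0 (t + (n + k - i)) ((2 * i + l + l2 + i3 - n - k + 2) - t) (by omega))) (sh al (-1) ((2 * i + l + l2 + i3 - n - k + 2) - t) t (by omega)))
    · have k174 : (2 * Q + k) ≤ (2 * i + l + l2 + i3 + 2) := by clear * - b1 b2 b3 b4 b6 b7 b8; omega
      have k175 : (l2 + i3 + 2) ≤ (k + l) := by clear * - y8 z41 ev n1p n2p n3p; omega
      have k176 : (2 * i + l + l2 + 3) ≤ (k + i3) := by clear * - b2 b4 b7 b9; omega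
      have k177 : (k) ≤ (l + l2 + i3 + 1) := by clear * - b1 b2 b3 b4 b5 b6 b7 b8; omega
      obtain ⟨t, ht⟩ : ∃ t, 2 * t = (2 * i + l + l2 + i3 - 2 * n - k + 2) := ⟨(2 * i + l + l2 + i3 - 2 * n - k + 2) / 2, by clear * - ev n1p n2p n3p; omega⟩
      clear * - al a1 a2 s1 s2 b tt c u1 u2 d1 d2 n1 n2 n3 k174 k175 k176 k177 ht
      exact al.ninv t (cE (cE (qa u1 al (-1) t ((i + l + l2 + i3 - n + 2) - t) (by omega)) (pb b al 0 ((i + l + l2 + i3 - n + 2) - t) ((2 * i + l + l2 + i3 - n - k + 2) - t) (by omega))) (sh al (-1) ((2 * i + l + l2 + i3 - n - k + 2) - t) t (by omega)))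

theorem l2_01110_19 {W : ℤ → G} {n Q i j k l i2 l2 i3 : ℤ} (al : AL W n Q)
    {L : ℤ} (mx : ∀ a b g, 0 < g → g < n → Par W a b g → b - a ≤ L) (hL : L ≤ (n - j - 3) ∧ L ≤ (n + Q - k - 3) ∧ L ≤ (n - l - 3) ∧ L ≤ (n + i - k - 2) ∧ L ≤ (n - l2 - 3) ∧ L ≤ (i3 - 2) ∧ L ≤ (i2 + l2 - Q - 1) ∧ L ≤ (n + i3 - i2 - l2 - 3))
    (hy : (0) ≤ (i) ∧ (i) ≤ (j) ∧ (j + 1) ≤ (Q) ∧ (Q) ≤ (k) ∧ (k + 1) ≤ (n) ∧ (Q) ≤ (i + l + 1) ∧ (k + l + 2) ≤ (n) ∧ (Q) ≤ (i2) ∧ (i2) ≤ (k + l + 1) ∧ (Q) ≤ (i + l + l2 + 2) ∧ (i + l + l2 + 3) ≤ (n) ∧ (n) ≤ (i2 + l2 + 1) ∧ (i2 + l2 + 2) ≤ (n + Q) ∧ (Q) ≤ (i3) ∧ (i3) ≤ (i + l + l2 + 2) ∧ (j + 3) ≤ (n) ∧ (k + 3) ≤ (n + Q) ∧ (l + 3) ≤ (n) ∧ (k + 2) ≤ (n + i) ∧ (l2 + 3) ≤ (n) ∧ (2) ≤ (i3) ∧ (Q + 1) ≤ (i2 + l2) ∧ (i2 + l2 + 3) ≤ (n + i3))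
    (a1 : Par W (0) (j) (k - j))
    (a2 : Par W (Q + j - k) (j) (k - j))
    (s1 : Ant W (0) (i) (i + j))
    (s2 : Ant W (j + 1) (Q) (i + j))
    (b : Par W (i + 1) (i + l + 1) (k - i))
    (tt : Ant W (k + l + 2) (n) (k + l + i2 + 1))
    (c : Par W (i2 + 1) (i2 + l2 + 1) (i + l - i2 + 1))
    (u1 : Ant W (Q) (i3) (i + l + l2 + i3 + 2))
    (u2 : Ant W (i + l + l2 + 3) (n) (i + l + l2 + i3 + 2))
    (d1 : Par W (i3 + 1) (n) (i2 + l2 - n - i3 + 1))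
    (d2 : Par W (i2 + l2 - n + 2) (Q) (n + i3 - i2 - l2 - 1))
    (n1 : Nd W (j) (i) (k))
    (n2 : Nd W (k + l + 1) (i2) (i + l + 1))
    (n3 : Nd W (i + l + l2 + 2) (i3) (i2 + l2 - n + 1))
    (b0 : (l + l2 + i3 + 1) ≤ (n + k))
    (b1 : (n + i2) ≤ (i + l + 2 * i3 + 2))
    (b2 : (2 * i + j + 1) ≤ (k))
    (b3 : (2 * i3) ≤ (i + l + i2 + 2))
    (b4 : (2 * Q + i3) ≤ (i + j + i2 + l2 + 1))
    (b5 : (i + k + l + l2 + i3 + 4) ≤ (n + 2 * Q + j))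
    (b6 : (2 * l + 3) ≤ (n))
    (b7 : (k + l + i2 + l2 + 3) ≤ (n + Q + i3))
    (b8 : (k + i3) ≤ (i2 + l2))
    (b9 : (2 * n + i) ≤ (2 * k + l + i2 + 2)) : False := by
  have ev := al.ev
  obtain ⟨y0, y1, y2, y3, y4, y5, y6, y7, y8, y9, y10, y11, y12, y13, y14, y15, y16, y17, y18, y19, y20, y21, y22⟩ := id hy
  have n1p := And.intro n1.p1 n1.p2
  have n2p := And.intro n2.p1 n2.p2
  have n3p := And.intro n3.p1 n3.p2
  by_cases z39 : (2 * i + 2 * l + l2 + 5) ≤ (i2 + i3)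
  · exact l2_01110_20 al mx hL hy a1 a2 s1 s2 b tt c u1 u2 d1 d2 n1 n2 n3 (by clear * - b0; omega) (by clear * - b1; omega) (by clear * - b2; omega) (by clear * - b3; omega) (by clear * - b4; omega) (by clear * - b5; omega) (by clear * - b6; omega) (by clear * - b7; omega) (by clear * - b8; omega) (by clear * - b9; omega) (by clear * - z39; omega)
  · exact l2_01110_21 al mx hL hy a1 a2 s1 s2 b tt c u1 u2 d1 d2 n1 n2 n3 (by clear * - b0; omega) (by clear * - b1; omega) (by clear * - b2; omega) (by clear * - b3; omega) (by clear * - b4; omega) (by clear * - b5; omega) (by clear * - b6; omega) (by clear * - b7; omega) (by clear * - b8; omega) (by clear * - b9; omega) (by clear * - z39; omega)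

theorem l2_01110_18 {W : ℤ → G} {n Q i j k l i2 l2 i3 : ℤ} (al : AL W n Q)
    {L : ℤ} (mx : ∀ a b g, 0 < g → g < n → Par W a b g → b - a ≤ L) (hL : L ≤ (n - j - 3) ∧ L ≤ (n + Q - k - 3) ∧ L ≤ (n - l - 3) ∧ L ≤ (n + i - k - 2) ∧ L ≤ (n - l2 - 3) ∧ L ≤ (i3 - 2) ∧ L ≤ (i2 + l2 - Q - 1) ∧ L ≤ (n + i3 - i2 - l2 - 3))
    (hy : (0) ≤ (i) ∧ (i) ≤ (j) ∧ (j + 1) ≤ (Q) ∧ (Q) ≤ (k) ∧ (k + 1) ≤ (n) ∧ (Q) ≤ (i + l + 1) ∧ (k + l + 2) ≤ (n) ∧ (Q) ≤ (i2) ∧ (i2) ≤ (k + l + 1) ∧ (Q) ≤ (i + l + l2 + 2) ∧ (i + l + l2 + 3) ≤ (n) ∧ (n) ≤ (i2 + l2 + 1) ∧ (i2 + l2 + 2) ≤ (n + Q) ∧ (Q) ≤ (i3) ∧ (i3) ≤ (i + l + l2 + 2) ∧ (j + 3) ≤ (n) ∧ (k + 3) ≤ (n + Q) ∧ (l + 3) ≤ (n) ∧ (k + 2) ≤ (n + i) ∧ (l2 + 3) ≤ (n) ∧ (2) ≤ (i3) ∧ (Q + 1) ≤ (i2 + l2) ∧ (i2 + l2 + 3) ≤ (n + i3))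
    (a1 : Par W (0) (j) (k - j))
    (a2 : Par W (Q + j - k) (j) (k - j))
    (s1 : Ant W (0) (i) (i + j))
    (s2 : Ant W (j + 1) (Q) (i + j))
    (b : Par W (i + 1) (i + l + 1) (k - i))
    (tt : Ant W (k + l + 2) (n) (k + l + i2 + 1))
    (c : Par W (i2 + 1) (i2 + l2 + 1) (i + l - i2 + 1))
    (u1 : Ant W (Q) (i3) (i + l + l2 + i3 + 2))
    (u2 : Ant W (i + l + l2 + 3) (n) (i + l + l2 + i3 + 2))
    (d1 : Par W (i3 + 1) (n) (i2 + l2 - n - i3 + 1))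
    (d2 : Par W (i2 + l2 - n + 2) (Q) (n + i3 - i2 - l2 - 1))
    (n1 : Nd W (j) (i) (k))
    (n2 : Nd W (k + l + 1) (i2) (i + l + 1))
    (n3 : Nd W (i + l + l2 + 2) (i3) (i2 + l2 - n + 1))
    (b0 : (l + l2 + i3 + 1) ≤ (n + k))
    (b1 : (n + i2) ≤ (i + l + 2 * i3 + 2))
    (b2 : (2 * i + j + 1) ≤ (k))
    (b3 : (2 * i3) ≤ (i + l + i2 + 2))
    (b4 : (2 * Q + i3) ≤ (i + j + i2 + l2 + 1))
    (b5 : (i + k + l + l2 + i3 + 4) ≤ (n + 2 * Q + j))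
    (b6 : (2 * l + 3) ≤ (n))
    (b7 : (k + l + i2 + l2 + 3) ≤ (n + Q + i3))
    (b8 : (k + i3) ≤ (i2 + l2)) : False := by
  have ev := al.ev
  obtain ⟨y0, y1, y2, y3, y4, y5, y6, y7, y8, y9, y10, y11, y12, y13, y14, y15, y16, y17, y18, y19, y20, y21, y22⟩ := id hy
  have n1p := And.intro n1.p1 n1.p2
  have n2p := And.intro n2.p1 n2.p2
  have n3p := And.intro n3.p1 n3.p2
  by_cases z38 : (2 * k + l + i2 + 3) ≤ (2 * n + i)
  · have k154 : (i + l + 3) ≤ (i2) := by clear * - y10 y11 ev n1p n2p n3p; omega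
    have k155 : (2 * k + l + 1) ≤ (i + i2 + 2 * l2) := by clear * - b1 b6 b8; omega
    have k156 : (i + l + i2 + 3) ≤ (2 * n) := by clear * - b1 b2 b3 b4 b5 b6 z38; omega
    have k157 : (3 * i + l + 3) ≤ (2 * k + i2) := by clear * - b0 b1 b2 b3 b4 b5 b7 y11 z38; omega
    have k158 : (2 * k + l + i2 + 1) ≤ (2 * n + i + 2 * l2) := by clear * - b1 b2 b4 b5 b6 b7 b8 y14 z38; omega
    have k159 : (2 * k + l) ≤ (i + i2 + 4 * l2 + 1) := by clear * - b1 b2 b3 b4 b5 b6 b8 y14; omega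
    have k160 : (k + l + i2 - 2 * n + 1) % 2 = 0 := by clear * - ev n1p n2p n3p; omega
    have k161 : (i2 - i - l - 1) % 2 = 0 := by clear * - ev n1p n2p n3p; omega
    clear * - al a1 a2 s1 s2 b tt c u1 u2 d1 d2 n1 n2 n3 z38 k154 k155 k156 k157 k158 k159 k160 k161
    exact midP al (i2 - i - l - 1) (k + l + i2 - 2 * n + 1) (max (i + l - n + 2) (max (k + l - n - l2 + 1) (k + l - n + 2))) (i + l - n + 2) (i2 + l2 - n + 1) (by omega) (fun t h1 h2 => (cE (qa tt al (-1) t ((k + l + i2 - n + 1) - t) (by omega)) (sh al (-1) ((k + l + i2 - n + 1) - t) ((k + l + i2 - 2 * n + 1) - t) (by omega)))) (fun t h1 h2 => (cE (pb c al (-1) t (t + (n + i2 - i - l - 1)) (by omega)) (sh al (-1) (t + (n + i2 - i - l - 1)) (t + (i2 - i - l - 1)) (by omega))))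
  · exact l2_01110_19 al mx hL hy a1 a2 s1 s2 b tt c u1 u2 d1 d2 n1 n2 n3 (by clear * - b0; omega) (by clear * - b1; omega) (by clear * - b2; omega) (by clear * - b3; omega) (by clear * - b4; omega) (by clear * - b5; omega) (by clear * - b6; omega) (by clear * - b7; omega) (by clear * - b8; omega) (by clear * - z38; omega)

theorem l2_01110_13 {W : ℤ → G} {n Q i j k l i2 l2 i3 : ℤ} (al : AL W n Q)
    {L : ℤ} (mx : ∀ a b g, 0 < g → g < n → Par W a b g → b - a ≤ L) (hL : L ≤ (n - j - 3) ∧ L ≤ (n + Q - k - 3) ∧ L ≤ (n - l - 3) ∧ L ≤ (n + i - k - 2) ∧ L ≤ (n - l2 - 3) ∧ L ≤ (i3 - 2) ∧ L ≤ (i2 + l2 - Q - 1) ∧ L ≤ (n + i3 - i2 - l2 - 3))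
    (hy : (0) ≤ (i) ∧ (i) ≤ (j) ∧ (j + 1) ≤ (Q) ∧ (Q) ≤ (k) ∧ (k + 1) ≤ (n) ∧ (Q) ≤ (i + l + 1) ∧ (k + l + 2) ≤ (n) ∧ (Q) ≤ (i2) ∧ (i2) ≤ (k + l + 1) ∧ (Q) ≤ (i + l + l2 + 2) ∧ (i + l + l2 + 3) ≤ (n) ∧ (n) ≤ (i2 + l2 + 1) ∧ (i2 + l2 + 2) ≤ (n + Q) ∧ (Q) ≤ (i3) ∧ (i3) ≤ (i + l + l2 + 2) ∧ (j + 3) ≤ (n) ∧ (k + 3) ≤ (n + Q) ∧ (l + 3) ≤ (n) ∧ (k + 2) ≤ (n + i) ∧ (l2 + 3) ≤ (n) ∧ (2) ≤ (i3) ∧ (Q + 1) ≤ (i2 + l2) ∧ (i2 + l2 + 3) ≤ (n + i3))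
    (a1 : Par W (0) (j) (k - j))
    (a2 : Par W (Q + j - k) (j) (k - j))
    (s1 : Ant W (0) (i) (i + j))
    (s2 : Ant W (j + 1) (Q) (i + j))
    (b : Par W (i + 1) (i + l + 1) (k - i))
    (tt : Ant W (k + l + 2) (n) (k + l + i2 + 1))
    (c : Par W (i2 + 1) (i2 + l2 + 1) (i + l - i2 + 1))
    (u1 : Ant W (Q) (i3) (i + l + l2 + i3 + 2))
    (u2 : Ant W (i + l + l2 + 3) (n) (i + l + l2 + i3 + 2))
    (d1 : Par W (i3 + 1) (n) (i2 + l2 - n - i3 + 1))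
    (d2 : Par W (i2 + l2 - n + 2) (Q) (n + i3 - i2 - l2 - 1))
    (n1 : Nd W (j) (i) (k))
    (n2 : Nd W (k + l + 1) (i2) (i + l + 1))
    (n3 : Nd W (i + l + l2 + 2) (i3) (i2 + l2 - n + 1))
    (b0 : (l + l2 + i3 + 1) ≤ (n + k))
    (b1 : (n + i2) ≤ (i + l + 2 * i3 + 2))
    (b2 : (2 * i + j + 1) ≤ (k))
    (b3 : (2 * i3) ≤ (i + l + i2 + 2))
    (b4 : (2 * Q + i3) ≤ (i + j + i2 + l2 + 1))
    (b5 : (i + k + l + l2 + i3 + 4) ≤ (n + 2 * Q + j))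
    (b6 : (2 * l + 3) ≤ (n))
    (b7 : (k + l + i2 + l2 + 3) ≤ (n + Q + i3)) : False := by
  have ev := al.ev
  obtain ⟨y0, y1, y2, y3, y4, y5, y6, y7, y8, y9, y10, y11, y12, y13, y14, y15, y16, y17, y18, y19, y20, y21, y22⟩ := id hy
  have n1p := And.intro n1.p1 n1.p2
  have n2p := And.intro n2.p1 n2.p2
  have n3p := And.intro n3.p1 n3.p2
  by_cases z23 : (i2 + l2 + 1) ≤ (k + i3)
  · exact l2_01110_14 al mx hL hy a1 a2 s1 s2 b tt c u1 u2 d1 d2 n1 n2 n3 (by clear * - b0; omega) (by clear * - b1; omega) (by clear * - b2; omega) (by clear * - b3; omega) (by clear * - b4; omega) (by clear * - b5; omega) (by clear * - b6; omega) (by clear * - b7; omega) (by clear * - z23; omega)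
  · exact l2_01110_18 al mx hL hy a1 a2 s1 s2 b tt c u1 u2 d1 d2 n1 n2 n3 (by clear * - b0; omega) (by clear * - b1; omega) (by clear * - b2; omega) (by clear * - b3; omega) (by clear * - b4; omega) (by clear * - b5; omega) (by clear * - b6; omega) (by clear * - b7; omega) (by clear * - z23; omega)

end Pool.Agent.MP_a38735_al.WL
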