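import Pool.Agent.MP_a38735_al.Q2c3

set_option autoImplicit false
set_option linter.unusedVariables false

namespace Pool.Agent.MP_a38735_al.WL

variable {G : Type*} [Group G]

theorem l2_01110_12 {W : ℤ → G} {n Q i j k l i2 l2 i3 : ℤ} (al : AL W n Q)
    {L : ℤ} (mx : ∀ a b g, 0 < g → g < n → Par W a b g → b - a ≤ L) (hL : L ≤ (n - j - 3) ∧ L ≤ (n + Q - k - 3) ∧ L ≤ (n - l - 3) ∧ L ≤ (n + i - k - 2) ∧ L ≤ (n - l2 - 3) ∧ L ≤ (i3 - 2) ∧ L ≤ (i2 + l2 - Q - 1) ∧ L ≤ (n + i3 - i2 - l2 - 3))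
    (hy : (0) ≤ (i) ∧ (i) ≤ (j) ∧ (j + 1) ≤ (Q) ∧ (Q) ≤ (k) ∧ (k + 1) ≤ (n) ∧ (Q) ≤ (i + l + 1) ∧ (k + l + 2) ≤ (n) ∧ (Q) ≤ (i2) ∧ (i2) ≤ (k + l + 1) ∧ (Q) ≤ (i + l + l2 + 2) ∧ (i + l + l2 + 3) ≤ (n) ∧ (n) ≤ (i2 + l2 + 1) ∧ (i2 + l2 + 2) ≤ (n + Q) ∧ (Q) ≤ (i3) ∧ (i3) ≤ (i + l + l2 + 2) ∧ (j + 3) ≤ (n) ∧ (k + 3) ≤ (n + Q) ∧ (l + 3) ≤ (n) ∧ (k + 2) ≤ (n + i) ∧ (l2 + 3) ≤ (n) ∧ (2) ≤ (i3) ∧ (Q + 1) ≤ (i2 + l2) ∧ (i2 + l2 + 3) ≤ (n + i3))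
    (a1 : Par W (0) (j) (k - j))
    (a2 : Par W (Q + j - k) (j) (k - j))
    (s1 : Ant W (0) (i) (i + j))
    (s2 : Ant W (j + 1) (Q) (i + j))
    (b : Par W (i + 1) (i + l + 1) (k - i))
    (tt : Ant W (k + l + 2) (n) (k + l + i2 + 1))
    (c : Par W (i2 + 1) (i2 + l2 + 1) (i + l - i2 + 1))
    (u1 : Ant W (Q) (i3) (i + l + l2 + i3 + 2))
    (u2 : Ant W (i + l + l2 + 3) (n) (i + l + l2 + i3 + 2))
    (d1 : Par W (i3 + 1) (n) (i2 + l2 - n - i3 + 1))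
    (d2 : Par W (i2 + l2 - n + 2) (Q) (n + i3 - i2 - l2 - 1))
    (n1 : Nd W (j) (i) (k))
    (n2 : Nd W (k + l + 1) (i2) (i + l + 1))
    (n3 : Nd W (i + l + l2 + 2) (i3) (i2 + l2 - n + 1))
    (b0 : (l + l2 + i3 + 1) ≤ (n + k))
    (b1 : (n + i2) ≤ (i + l + 2 * i3 + 2))
    (b2 : (2 * i + j + 1) ≤ (k))
    (b3 : (2 * i3) ≤ (i + l + i2 + 2))
    (b4 : (2 * Q + i3) ≤ (i + j + i2 + l2 + 1))
    (b5 : (i + k + l + l2 + i3 + 4) ≤ (n + 2 * Q + j))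
    (b6 : (2 * l + 3) ≤ (n))
    (b7 : (k + i2 + l2 + 2) ≤ (n + i + i3))
    (b8 : (n + Q + i3) ≤ (k + l + i2 + l2 + 2)) : False := by
  have ev := al.ev
  obtain ⟨y0, y1, y2, y3, y4, y5, y6, y7, y8, y9, y10, y11, y12, y13, y14, y15, y16, y17, y18, y19, y20, y21, y22⟩ := id hy
  have n1p := And.intro n1.p1 n1.p2
  have n2p := And.intro n2.p1 n2.p2
  have n3p := And.intro n3.p1 n3.p2
  by_cases z15 : (i + i3 + 1) ≤ (Q + k)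
  · have k43 : (i + i3) ≤ (k + i2 + l2) := by clear * - y21 z15; omega
    have k44 : (i + 1) ≤ (Q) := by clear * - b1 b2 b5 b6 b7 b8 y11 y14; omega
    clear * - al a1 a2 s1 s2 b tt c u1 u2 d1 d2 n1 n2 n3 b7 k43 z15 k44 b8
    exact al.ubQ (n + i + i3 - k - i2 - l2 - 1) (by omega) (by omega) fun t h1 h2 => (cE (sh al 1 t (t + (n)) (by omega)) (cE (qf d2 al 1 (t + (n)) (t + (n + i3 - i2 - l2 - 1)) (by omega)) (pb b al 0 (t + (n + i3 - i2 - l2 - 1)) (t + (n + i + i3 - k - i2 - l2 - 1)) (by omega))))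
  · by_cases z16 : (2 * n + 2 * Q + k) ≤ (2 * i + j + 2 * l + 2 * l2 + 2 * i3 + 6)
    · by_cases z17 : (2 * Q) ≤ (j + k)
      · have k45 : (j + 1) ≤ (k) := by clear * - y2 z17; omega
        have k46 : (2 * Q + k) ≤ (j + 2 * i3) := by clear * - b1 b2 b5 b6 b7 b8 z15 z16 z17; omega
        have k47 : (k) ≤ (j + 2 * i3) := by clear * - b1 b2 b3 b5 b6 z15 z16 z17; omega
        have k48 : (2 * n + k) ≤ (2 * i + j + 2 * l + 2 * l2 + 2 * i3 + 6) := by clear * - b1 b2 b3 b5 b6 z16; omega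
        have k49 : (2 * i + 2 * l + 2 * l2 + 6) ≤ (2 * n + j + k) := by clear * - b1 b2 b3 b5 b6 z15 z16 z17; omega
        have k50 : (2 * i + 2 * l + 2 * l2 + 2 * i3 + 6) ≤ (2 * n + j + 3 * k) := by clear * - b1 b2 b3 b5 b6 z17; omega
        have k51 : (n + i + l + l2 + i3 + 2) % 2 = 0 := by clear * - ev n1p n2p n3p; omega
        have k52 : (k - j) % 2 = 0 := by clear * - ev n1p n2p n3p; omega
        clear * - al a1 a2 s1 s2 b tt c u1 u2 d1 d2 n1 n2 n3 k45 k46 z16 z17 k47 k48 k49 k50 k51 k52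
        exact midP al (k - j) (n + i + l + l2 + i3 + 2) (max (n + Q) (max (n) (i + l + l2 + i3 - k + 3))) (n) (n + k) (by omega) (fun t h1 h2 => (qa u1 al 1 t ((n + i + l + l2 + i3 + 2) - t) (by omega))) (fun t h1 h2 => (cE (qf a1 al 1 t (t + (k - n - j)) (by omega)) (sh al 1 (t + (k - n - j)) (t + (k - j)) (by omega))))
      · by_cases z18 : (i2) ≤ (l2 + i3)
        · by_cases z19 : (i + k) ≤ (2 * j)
          · by_cases z20 : (2 * i + 2 * l + l2 + 4) ≤ (i2 + i3)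
            · have k53 : (i2 + 1) ≤ (l2 + i3) := by clear * - z18 ev n1p n2p n3p; omega
              have k54 : (i2 + l2 + i3 + 3) ≤ (2 * n) := by clear * - b2 b3 b5 b6 y8 z15; omega
              have k55 : (i3) ≤ (i2 + l2) := by clear * - b5 b6 b7 b8 z17 z18 z20; omega
              obtain ⟨t, ht⟩ : ∃ t, 2 * t = (i2 + l2 + i3 - 2 * n + 1) := ⟨(i2 + l2 + i3 - 2 * n + 1) / 2, by clear * - ev n1p n2p n3p; omega⟩
              clear * - al a1 a2 s1 s2 b tt c u1 u2 d1 d2 n1 n2 n3 k53 k54 k55 z20 ht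
              exact al.ninv t (cE (cI (qf c al (-1) t (t + (n + i + l - i2 + 1)) (by omega)) (ab u2 al 0 (t + (n + i + l - i2 + 1)) ((i2 + l2 + i3 - n + 1) - t) (by omega))) (sh al (-1) ((i2 + l2 + i3 - n + 1) - t) t (by omega)))
            · have k56 : (i + k + 2 * l + 4) ≤ (2 * i2) := by clear * - b0 b1 b2 b6 b8 z15 z17 z19; omega
              have k57 : (k) ≤ (i + 2 * l2) := by clear * - b6 b7 b8 z15 z17 z18 z19 z20; omega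
              have k58 : (k + 2 * i2 + 1) ≤ (2 * n + i) := by clear * - b0 b2 z15 z17 z18 z19 z20; omega
              have k59 : (i + 1) ≤ (k) := by clear * - b1 b2 b5 b6 b7 b8; omega
              obtain ⟨t, ht⟩ : ∃ t, 2 * t = (k + 2 * i2 - i) := ⟨(k + 2 * i2 - i) / 2, by clear * - ev n1p n2p n3p; omega⟩
              clear * - al a1 a2 s1 s2 b tt c u1 u2 d1 d2 n1 n2 n3 k56 k57 k58 k59 ht
              exact al.ninv t (cE (qa tt al 0 t ((k + l + i2 + 1) - t) (by omega)) (pb c al 0 ((k + l + i2 + 1) - t) t (by omega)))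
          · have k60 : (k) ≤ (i + 2 * j) := by clear * - b1 b4 b5; omega
            have k61 : (2 * j + 2) ≤ (i + k) := by clear * - z19 ev n1p n2p n3p; omega
            have k62 : (i + 1) ≤ (k) := by clear * - b1 b2 b5 b6 b7 b8; omega
            have k63 : (i + k + 1) ≤ (2 * Q) := by clear * - b2 b5 z16 z19; omega
            obtain ⟨t, ht⟩ : ∃ t, 2 * t = (i + 2 * j - 2 * n - k) := ⟨(i + 2 * j - 2 * n - k) / 2, by clear * - ev n1p n2p n3p; omega⟩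
            clear * - al a1 a2 s1 s2 b tt c u1 u2 d1 d2 n1 n2 n3 k60 k61 k62 k63 ht
            exact al.ninv t (cE (cI (qf a1 al (-1) t (t + (n + k - j)) (by omega)) (qa s2 al 0 (t + (n + k - j)) ((i + 2 * j - n - k) - t) (by omega))) (sh al (-1) ((i + 2 * j - n - k) - t) t (by omega)))
        · by_cases z21 : (2 * j + 2) ≤ (i + k)
          · have k64 : (k) ≤ (i + 2 * j) := by clear * - b1 b4 b5; omega
            have k65 : (i + 1) ≤ (k) := by clear * - b1 b2 b5 b6 b7 b8; omega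
            have k66 : (i + k + 1) ≤ (2 * Q) := by clear * - b2 b5 z16 z21; omega
            obtain ⟨t, ht⟩ : ∃ t, 2 * t = (i + 2 * j - 2 * n - k) := ⟨(i + 2 * j - 2 * n - k) / 2, by clear * - ev n1p n2p n3p; omega⟩
            clear * - al a1 a2 s1 s2 b tt c u1 u2 d1 d2 n1 n2 n3 k64 z21 k65 k66 ht
            exact al.ninv t (cE (cI (qf a1 al (-1) t (t + (n + k - j)) (by omega)) (qa s2 al 0 (t + (n + k - j)) ((i + 2 * j - n - k) - t) (by omega))) (sh al (-1) ((i + 2 * j - n - k) - t) t (by omega)))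
          · by_cases z22 : (l2 + i3 + 1) ≤ (k + l)
            · have k67 : (k) ≤ (l + l2 + i3) := by clear * - b2 b6 b7 b8 z16 z17 z21 z22; omega
              have k68 : (2 * i + l + l2 + 4) ≤ (k + i3) := by clear * - b1 b2 b6 z16 z17 z18 z21 z22; omega
              have k69 : (k + l + l2 + i3 + 3) ≤ (2 * n) := by clear * - b2 b6 y14 z15 z17 z21 z22; omega
              obtain ⟨t, ht⟩ : ∃ t, 2 * t = (2 * i + l + l2 + i3 - 2 * n - k + 2) := ⟨(2 * i + l + l2 + i3 - 2 * n - k + 2) / 2, by clear * - ev n1p n2p n3p; omega⟩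
              clear * - al a1 a2 s1 s2 b tt c u1 u2 d1 d2 n1 n2 n3 k67 k68 z22 k69 ht
              exact al.ninv t (cE (cI (qf b al (-1) t (t + (n + k - i)) (by omega)) (qa u2 al 0 (t + (n + k - i)) ((2 * i + l + l2 + i3 - n - k + 2) - t) (by omega))) (sh al (-1) ((2 * i + l + l2 + i3 - n - k + 2) - t) t (by omega)))
            · have k70 : (i + l2 + 2) ≤ (k) := by clear * - b0 b1 b2 b5 b8 z15; omega
              have k71 : (Q + k) ≤ (i + l2 + i3 + 1) := by clear * - b7 b8 z22; omega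
              have k72 : (l2 + i3) ≤ (k + l) := by clear * - y8 z18; omega
              have k73 : (k + l + 1) ≤ (i2) := by clear * - z18 z22; omega
              clear * - al a1 a2 s1 s2 b tt c u1 u2 d1 d2 n1 n2 n3 k70 k71 z22 k72 k73 y8
              exact (n2.f3 (ab u1 al 0 (k + l + 1) (i + l + 1) (by omega))) (sh al 0 (i2) (k + l + 1) (by omega))
    · have k74 : (2 * i + l + l2 + 4) ≤ (k + i3) := by clear * - b1 b2 b4 b5 b6 b8 z15 z16; omega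
      have k75 : (l2 + i3 + 2) ≤ (k + l) := by clear * - b1 b5 b8 y8 z15 z16; omega
      have k76 : (2 * Q + k) ≤ (2 * i + l + l2 + i3 + 3) := by clear * - b1 b2 b5 b6 b7 b8 y14 z15; omega
      have k77 : (k) ≤ (l + l2 + i3 + 1) := by clear * - b1 b2 b5 b6 b7 b8 y14 z15 z16; omega
      obtain ⟨t, ht⟩ : ∃ t, 2 * t = (k + l + l2 + i3 - 2 * n + 2) := ⟨(k + l + l2 + i3 - 2 * n + 2) / 2, by clear * - ev n1p n2p n3p; omega⟩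
      clear * - al a1 a2 s1 s2 b tt c u1 u2 d1 d2 n1 n2 n3 k74 k75 k76 k77 ht
      exact al.ninv t (cE (cE (ab u1 al (-1) t ((i + l + l2 + i3 - n + 2) - t) (by omega)) (qf b al 0 ((i + l + l2 + i3 - n + 2) - t) ((k + l + l2 + i3 - n + 2) - t) (by omega))) (sh al (-1) ((k + l + l2 + i3 - n + 2) - t) t (by omega)))

theorem l2_01110_11 {W : ℤ → G} {n Q i j k l i2 l2 i3 : ℤ} (al : AL W n Q)
    {L : ℤ} (mx : ∀ a b g, 0 < g → g < n → Par W a b g → b - a ≤ L) (hL : L ≤ (n - j - 3) ∧ L ≤ (n + Q - k - 3) ∧ L ≤ (n - l - 3) ∧ L ≤ (n + i - k - 2) ∧ L ≤ (n - l2 - 3) ∧ L ≤ (i3 - 2) ∧ L ≤ (i2 + l2 - Q - 1) ∧ L ≤ (n + i3 - i2 - l2 - 3))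
    (hy : (0) ≤ (i) ∧ (i) ≤ (j) ∧ (j + 1) ≤ (Q) ∧ (Q) ≤ (k) ∧ (k + 1) ≤ (n) ∧ (Q) ≤ (i + l + 1) ∧ (k + l + 2) ≤ (n) ∧ (Q) ≤ (i2) ∧ (i2) ≤ (k + l + 1) ∧ (Q) ≤ (i + l + l2 + 2) ∧ (i + l + l2 + 3) ≤ (n) ∧ (n) ≤ (i2 + l2 + 1) ∧ (i2 + l2 + 2) ≤ (n + Q) ∧ (Q) ≤ (i3) ∧ (i3) ≤ (i + l + l2 + 2) ∧ (j + 3) ≤ (n) ∧ (k + 3) ≤ (n + Q) ∧ (l + 3) ≤ (n) ∧ (k + 2) ≤ (n + i) ∧ (l2 + 3) ≤ (n) ∧ (2) ≤ (i3) ∧ (Q + 1) ≤ (i2 + l2) ∧ (i2 + l2 + 3) ≤ (n + i3))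
    (a1 : Par W (0) (j) (k - j))
    (a2 : Par W (Q + j - k) (j) (k - j))
    (s1 : Ant W (0) (i) (i + j))
    (s2 : Ant W (j + 1) (Q) (i + j))
    (b : Par W (i + 1) (i + l + 1) (k - i))
    (tt : Ant W (k + l + 2) (n) (k + l + i2 + 1))
    (c : Par W (i2 + 1) (i2 + l2 + 1) (i + l - i2 + 1))
    (u1 : Ant W (Q) (i3) (i + l + l2 + i3 + 2))
    (u2 : Ant W (i + l + l2 + 3) (n) (i + l + l2 + i3 + 2))
    (d1 : Par W (i3 + 1) (n) (i2 + l2 - n - i3 + 1))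
    (d2 : Par W (i2 + l2 - n + 2) (Q) (n + i3 - i2 - l2 - 1))
    (n1 : Nd W (j) (i) (k))
    (n2 : Nd W (k + l + 1) (i2) (i + l + 1))
    (n3 : Nd W (i + l + l2 + 2) (i3) (i2 + l2 - n + 1))
    (b0 : (l + l2 + i3 + 1) ≤ (n + k))
    (b1 : (n + i2) ≤ (i + l + 2 * i3 + 2))
    (b2 : (2 * i + j + 1) ≤ (k))
    (b3 : (2 * i3) ≤ (i + l + i2 + 2))
    (b4 : (2 * Q + i3) ≤ (i + j + i2 + l2 + 1))
    (b5 : (i + k + l + l2 + i3 + 4) ≤ (n + 2 * Q + j))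
    (b6 : (2 * l + 3) ≤ (n))
    (b7 : (k + i2 + l2 + 2) ≤ (n + i + i3)) : False := by
  have ev := al.ev
  obtain ⟨y0, y1, y2, y3, y4, y5, y6, y7, y8, y9, y10, y11, y12, y13, y14, y15, y16, y17, y18, y19, y20, y21, y22⟩ := id hy
  have n1p := And.intro n1.p1 n1.p2
  have n2p := And.intro n2.p1 n2.p2
  have n3p := And.intro n3.p1 n3.p2
  by_cases z14 : (n + Q + i3) ≤ (k + l + i2 + l2 + 2)
  · exact l2_01110_12 al mx hL hy a1 a2 s1 s2 b tt c u1 u2 d1 d2 n1 n2 n3 (by clear * - b0; omega) (by clear * - b1; omega) (by clear * - b2; omega) (by clear * - b3; omega) (by clear * - b4; omega) (by clear * - b5; omega) (by clear * - b6; omega) (by clear * - b7; omega) (by clear * - z14; omega)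
  · exact l2_01110_13 al mx hL hy a1 a2 s1 s2 b tt c u1 u2 d1 d2 n1 n2 n3 (by clear * - b0; omega) (by clear * - b1; omega) (by clear * - b2; omega) (by clear * - b3; omega) (by clear * - b4; omega) (by clear * - b5; omega) (by clear * - b6; omega) (by clear * - z14; omega)

theorem l2_01110_22 {W : ℤ → G} {n Q i j k l i2 l2 i3 : ℤ} (al : AL W n Q)
    {L : ℤ} (mx : ∀ a b g, 0 < g → g < n → Par W a b g → b - a ≤ L) (hL : L ≤ (n - j - 3) ∧ L ≤ (n + Q - k - 3) ∧ L ≤ (n - l - 3) ∧ L ≤ (n + i - k - 2) ∧ L ≤ (n - l2 - 3) ∧ L ≤ (i3 - 2) ∧ L ≤ (i2 + l2 - Q - 1) ∧ L ≤ (n + i3 - i2 - l2 - 3))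
    (hy : (0) ≤ (i) ∧ (i) ≤ (j) ∧ (j + 1) ≤ (Q) ∧ (Q) ≤ (k) ∧ (k + 1) ≤ (n) ∧ (Q) ≤ (i + l + 1) ∧ (k + l + 2) ≤ (n) ∧ (Q) ≤ (i2) ∧ (i2) ≤ (k + l + 1) ∧ (Q) ≤ (i + l + l2 + 2) ∧ (i + l + l2 + 3) ≤ (n) ∧ (n) ≤ (i2 + l2 + 1) ∧ (i2 + l2 + 2) ≤ (n + Q) ∧ (Q) ≤ (i3) ∧ (i3) ≤ (i + l + l2 + 2) ∧ (j + 3) ≤ (n) ∧ (k + 3) ≤ (n + Q) ∧ (l + 3) ≤ (n) ∧ (k + 2) ≤ (n + i) ∧ (l2 + 3) ≤ (n) ∧ (2) ≤ (i3) ∧ (Q + 1) ≤ (i2 + l2) ∧ (i2 + l2 + 3) ≤ (n + i3))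
    (a1 : Par W (0) (j) (k - j))
    (a2 : Par W (Q + j - k) (j) (k - j))
    (s1 : Ant W (0) (i) (i + j))
    (s2 : Ant W (j + 1) (Q) (i + j))
    (b : Par W (i + 1) (i + l + 1) (k - i))
    (tt : Ant W (k + l + 2) (n) (k + l + i2 + 1))
    (c : Par W (i2 + 1) (i2 + l2 + 1) (i + l - i2 + 1))
    (u1 : Ant W (Q) (i3) (i + l + l2 + i3 + 2))
    (u2 : Ant W (i + l + l2 + 3) (n) (i + l + l2 + i3 + 2))
    (d1 : Par W (i3 + 1) (n) (i2 + l2 - n - i3 + 1))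
    (d2 : Par W (i2 + l2 - n + 2) (Q) (n + i3 - i2 - l2 - 1))
    (n1 : Nd W (j) (i) (k))
    (n2 : Nd W (k + l + 1) (i2) (i + l + 1))
    (n3 : Nd W (i + l + l2 + 2) (i3) (i2 + l2 - n + 1))
    (b0 : (l + l2 + i3 + 1) ≤ (n + k))
    (b1 : (n + i2) ≤ (i + l + 2 * i3 + 2))
    (b2 : (2 * i + j + 1) ≤ (k))
    (b3 : (2 * i3) ≤ (i + l + i2 + 2))
    (b4 : (2 * Q + i3) ≤ (i + j + i2 + l2 + 1))
    (b5 : (i + k + l + l2 + i3 + 4) ≤ (n + 2 * Q + j))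
    (b6 : (n + i + i3) ≤ (k + i2 + l2 + 1)) : False := by
  have ev := al.ev
  obtain ⟨y0, y1, y2, y3, y4, y5, y6, y7, y8, y9, y10, y11, y12, y13, y14, y15, y16, y17, y18, y19, y20, y21, y22⟩ := id hy
  have n1p := And.intro n1.p1 n1.p2
  have n2p := And.intro n2.p1 n2.p2
  have n3p := And.intro n3.p1 n3.p2
  by_cases z51 : (n + i3) ≤ (l + i2 + l2 + 2)
  · have k219 : (i + 1) ≤ (k) := by clear * - b6 y22; omega
    have k220 : (k + 1) ≤ (n + i) := by clear * - y18; omega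
    have k221 : L ≤ (n + i3 - i2 - l2 - 3) := by clear * - hL; omega
    clear * - al a1 a2 s1 s2 b tt c u1 u2 d1 d2 n1 n2 n3 mx k219 k220 z51 k221
    exact absurd (mx (i - n + 1) (i + l - n + 1) (k - i) (by omega) (by omega) fun t h1 h2 => (cE (qf b al (-1) t (t + (n + k - i)) (by omega)) (sh al (-1) (t + (n + k - i)) (t + (k - i)) (by omega)))) (by omega)
  · by_cases z52 : (k + i2 + l2 + 1) ≤ (n + i + i3)
    · have k222 : (i3) ≤ (k + l) := by clear * - b1 b2 b3 b4 b5 b6 y14 z51; omega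
      clear * - al a1 a2 s1 s2 b tt c u1 u2 d1 d2 n1 n2 n3 k222 y6 b6 z52
      exact n2.f0 (qf d1 al 0 (k + l + 1) (i + l + 1) (by omega))
    · have k223 : (k + i2 + l2 + 2) ≤ (2 * n + i + i3) := by clear * - b1 b2 b3 b4 b5 y18 z51; omega
      have k224 : (k + i2 + l2 + 2) ≤ (n + Q + i3) := by clear * - b1 b2 b3 b4 b5 y6 z51 z52; omega
      have k225 : (Q + k) ≤ (n + i) := by clear * - y5 y6; omega
      clear * - al a1 a2 s1 s2 b tt c u1 u2 d1 d2 n1 n2 n3 z52 k223 k224 y12 y5 k225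
      exact al.ubQ (k + i2 + l2 - n - i - i3 + 1) (by omega) (by omega) fun t h1 h2 => (cE (sh al (-1) t (t + (-n)) (by omega)) (cE (qf b al (-1) (t + (-n)) (t + (k - i)) (by omega)) (qf d1 al 0 (t + (k - i)) (t + (k + i2 + l2 - n - i - i3 + 1)) (by omega))))

theorem l2_01110_10 {W : ℤ → G} {n Q i j k l i2 l2 i3 : ℤ} (al : AL W n Q)
    {L : ℤ} (mx : ∀ a b g, 0 < g → g < n → Par W a b g → b - a ≤ L) (hL : L ≤ (n - j - 3) ∧ L ≤ (n + Q - k - 3) ∧ L ≤ (n - l - 3) ∧ L ≤ (n + i - k - 2) ∧ L ≤ (n - l2 - 3) ∧ L ≤ (i3 - 2) ∧ L ≤ (i2 + l2 - Q - 1) ∧ L ≤ (n + i3 - i2 - l2 - 3))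
    (hy : (0) ≤ (i) ∧ (i) ≤ (j) ∧ (j + 1) ≤ (Q) ∧ (Q) ≤ (k) ∧ (k + 1) ≤ (n) ∧ (Q) ≤ (i + l + 1) ∧ (k + l + 2) ≤ (n) ∧ (Q) ≤ (i2) ∧ (i2) ≤ (k + l + 1) ∧ (Q) ≤ (i + l + l2 + 2) ∧ (i + l + l2 + 3) ≤ (n) ∧ (n) ≤ (i2 + l2 + 1) ∧ (i2 + l2 + 2) ≤ (n + Q) ∧ (Q) ≤ (i3) ∧ (i3) ≤ (i + l + l2 + 2) ∧ (j + 3) ≤ (n) ∧ (k + 3) ≤ (n + Q) ∧ (l + 3) ≤ (n) ∧ (k + 2) ≤ (n + i) ∧ (l2 + 3) ≤ (n) ∧ (2) ≤ (i3) ∧ (Q + 1) ≤ (i2 + l2) ∧ (i2 + l2 + 3) ≤ (n + i3))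
    (a1 : Par W (0) (j) (k - j))
    (a2 : Par W (Q + j - k) (j) (k - j))
    (s1 : Ant W (0) (i) (i + j))
    (s2 : Ant W (j + 1) (Q) (i + j))
    (b : Par W (i + 1) (i + l + 1) (k - i))
    (tt : Ant W (k + l + 2) (n) (k + l + i2 + 1))
    (c : Par W (i2 + 1) (i2 + l2 + 1) (i + l - i2 + 1))
    (u1 : Ant W (Q) (i3) (i + l + l2 + i3 + 2))
    (u2 : Ant W (i + l + l2 + 3) (n) (i + l + l2 + i3 + 2))
    (d1 : Par W (i3 + 1) (n) (i2 + l2 - n - i3 + 1))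
    (d2 : Par W (i2 + l2 - n + 2) (Q) (n + i3 - i2 - l2 - 1))
    (n1 : Nd W (j) (i) (k))
    (n2 : Nd W (k + l + 1) (i2) (i + l + 1))
    (n3 : Nd W (i + l + l2 + 2) (i3) (i2 + l2 - n + 1))
    (b0 : (l + l2 + i3 + 1) ≤ (n + k))
    (b1 : (n + i2) ≤ (i + l + 2 * i3 + 2))
    (b2 : (2 * i + j + 1) ≤ (k))
    (b3 : (2 * i3) ≤ (i + l + i2 + 2))
    (b4 : (2 * Q + i3) ≤ (i + j + i2 + l2 + 1))
    (b5 : (i + k + l + l2 + i3 + 4) ≤ (n + 2 * Q + j))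
    (b6 : (2 * l + 3) ≤ (n)) : False := by
  have ev := al.ev
  obtain ⟨y0, y1, y2, y3, y4, y5, y6, y7, y8, y9, y10, y11, y12, y13, y14, y15, y16, y17, y18, y19, y20, y21, y22⟩ := id hy
  have n1p := And.intro n1.p1 n1.p2
  have n2p := And.intro n2.p1 n2.p2
  have n3p := And.intro n3.p1 n3.p2
  by_cases z13 : (k + i2 + l2 + 2) ≤ (n + i + i3)
  · exact l2_01110_11 al mx hL hy a1 a2 s1 s2 b tt c u1 u2 d1 d2 n1 n2 n3 (by clear * - b0; omega) (by clear * - b1; omega) (by clear * - b2; omega) (by clear * - b3; omega) (by clear * - b4; omega) (by clear * - b5; omega) (by clear * - b6; omega) (by clear * - z13; omega)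
  · exact l2_01110_22 al mx hL hy a1 a2 s1 s2 b tt c u1 u2 d1 d2 n1 n2 n3 (by clear * - b0; omega) (by clear * - b1; omega) (by clear * - b2; omega) (by clear * - b3; omega) (by clear * - b4; omega) (by clear * - b5; omega) (by clear * - z13; omega)

theorem l2_01110_9 {W : ℤ → G} {n Q i j k l i2 l2 i3 : ℤ} (al : AL W n Q)
    {L : ℤ} (mx : ∀ a b g, 0 < g → g < n → Par W a b g → b - a ≤ L) (hL : L ≤ (n - j - 3) ∧ L ≤ (n + Q - k - 3) ∧ L ≤ (n - l - 3) ∧ L ≤ (n + i - k - 2) ∧ L ≤ (n - l2 - 3) ∧ L ≤ (i3 - 2) ∧ L ≤ (i2 + l2 - Q - 1) ∧ L ≤ (n + i3 - i2 - l2 - 3))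
    (hy : (0) ≤ (i) ∧ (i) ≤ (j) ∧ (j + 1) ≤ (Q) ∧ (Q) ≤ (k) ∧ (k + 1) ≤ (n) ∧ (Q) ≤ (i + l + 1) ∧ (k + l + 2) ≤ (n) ∧ (Q) ≤ (i2) ∧ (i2) ≤ (k + l + 1) ∧ (Q) ≤ (i + l + l2 + 2) ∧ (i + l + l2 + 3) ≤ (n) ∧ (n) ≤ (i2 + l2 + 1) ∧ (i2 + l2 + 2) ≤ (n + Q) ∧ (Q) ≤ (i3) ∧ (i3) ≤ (i + l + l2 + 2) ∧ (j + 3) ≤ (n) ∧ (k + 3) ≤ (n + Q) ∧ (l + 3) ≤ (n) ∧ (k + 2) ≤ (n + i) ∧ (l2 + 3) ≤ (n) ∧ (2) ≤ (i3) ∧ (Q + 1) ≤ (i2 + l2) ∧ (i2 + l2 + 3) ≤ (n + i3))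
    (a1 : Par W (0) (j) (k - j))
    (a2 : Par W (Q + j - k) (j) (k - j))
    (s1 : Ant W (0) (i) (i + j))
    (s2 : Ant W (j + 1) (Q) (i + j))
    (b : Par W (i + 1) (i + l + 1) (k - i))
    (tt : Ant W (k + l + 2) (n) (k + l + i2 + 1))
    (c : Par W (i2 + 1) (i2 + l2 + 1) (i + l - i2 + 1))
    (u1 : Ant W (Q) (i3) (i + l + l2 + i3 + 2))
    (u2 : Ant W (i + l + l2 + 3) (n) (i + l + l2 + i3 + 2))
    (d1 : Par W (i3 + 1) (n) (i2 + l2 - n - i3 + 1))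
    (d2 : Par W (i2 + l2 - n + 2) (Q) (n + i3 - i2 - l2 - 1))
    (n1 : Nd W (j) (i) (k))
    (n2 : Nd W (k + l + 1) (i2) (i + l + 1))
    (n3 : Nd W (i + l + l2 + 2) (i3) (i2 + l2 - n + 1))
    (b0 : (l + l2 + i3 + 1) ≤ (n + k))
    (b1 : (n + i2) ≤ (i + l + 2 * i3 + 2))
    (b2 : (2 * i + j + 1) ≤ (k))
    (b3 : (2 * i3) ≤ (i + l + i2 + 2))
    (b4 : (2 * Q + i3) ≤ (i + j + i2 + l2 + 1))
    (b5 : (i + k + l + l2 + i3 + 4) ≤ (n + 2 * Q + j)) : False := by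
  have ev := al.ev
  obtain ⟨y0, y1, y2, y3, y4, y5, y6, y7, y8, y9, y10, y11, y12, y13, y14, y15, y16, y17, y18, y19, y20, y21, y22⟩ := id hy
  have n1p := And.intro n1.p1 n1.p2
  have n2p := And.intro n2.p1 n2.p2
  have n3p := And.intro n3.p1 n3.p2
  by_cases z12 : (n) ≤ (2 * l + 2)
  · have k40 : (k + 1) ≤ (n + i) := by clear * - y18; omega
    have k41 : (i + 1) ≤ (k) := by clear * - b0 b1 b2 b4 b5 y11 y14 y22; omega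
    have k42 : L ≤ (n - l - 3) := by clear * - hL; omega
    clear * - al a1 a2 s1 s2 b tt c u1 u2 d1 d2 n1 n2 n3 mx k40 k41 z12 k42
    exact absurd (mx (k - n + 1) (k + l - n + 1) (n + i - k) (by omega) (by omega) fun t h1 h2 => (pb b al (-1) t (t + (n + i - k)) (by omega))) (by omega)
  · exact l2_01110_10 al mx hL hy a1 a2 s1 s2 b tt c u1 u2 d1 d2 n1 n2 n3 (by clear * - b0; omega) (by clear * - b1; omega) (by clear * - b2; omega) (by clear * - b3; omega) (by clear * - b4; omega) (by clear * - b5; omega) (by clear * - z12; omega)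

theorem l2_01110_8 {W : ℤ → G} {n Q i j k l i2 l2 i3 : ℤ} (al : AL W n Q)
    {L : ℤ} (mx : ∀ a b g, 0 < g → g < n → Par W a b g → b - a ≤ L) (hL : L ≤ (n - j - 3) ∧ L ≤ (n + Q - k - 3) ∧ L ≤ (n - l - 3) ∧ L ≤ (n + i - k - 2) ∧ L ≤ (n - l2 - 3) ∧ L ≤ (i3 - 2) ∧ L ≤ (i2 + l2 - Q - 1) ∧ L ≤ (n + i3 - i2 - l2 - 3))
    (hy : (0) ≤ (i) ∧ (i) ≤ (j) ∧ (j + 1) ≤ (Q) ∧ (Q) ≤ (k) ∧ (k + 1) ≤ (n) ∧ (Q) ≤ (i + l + 1) ∧ (k + l + 2) ≤ (n) ∧ (Q) ≤ (i2) ∧ (i2) ≤ (k + l + 1) ∧ (Q) ≤ (i + l + l2 + 2) ∧ (i + l + l2 + 3) ≤ (n) ∧ (n) ≤ (i2 + l2 + 1) ∧ (i2 + l2 + 2) ≤ (n + Q) ∧ (Q) ≤ (i3) ∧ (i3) ≤ (i + l + l2 + 2) ∧ (j + 3) ≤ (n) ∧ (k + 3) ≤ (n + Q) ∧ (l + 3) ≤ (n) ∧ (k + 2) ≤ (n + i) ∧ (l2 + 3) ≤ (n) ∧ (2) ≤ (i3) ∧ (Q + 1) ≤ (i2 + l2) ∧ (i2 + l2 + 3) ≤ (n + i3))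
    (a1 : Par W (0) (j) (k - j))
    (a2 : Par W (Q + j - k) (j) (k - j))
    (s1 : Ant W (0) (i) (i + j))
    (s2 : Ant W (j + 1) (Q) (i + j))
    (b : Par W (i + 1) (i + l + 1) (k - i))
    (tt : Ant W (k + l + 2) (n) (k + l + i2 + 1))
    (c : Par W (i2 + 1) (i2 + l2 + 1) (i + l - i2 + 1))
    (u1 : Ant W (Q) (i3) (i + l + l2 + i3 + 2))
    (u2 : Ant W (i + l + l2 + 3) (n) (i + l + l2 + i3 + 2))
    (d1 : Par W (i3 + 1) (n) (i2 + l2 - n - i3 + 1))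
    (d2 : Par W (i2 + l2 - n + 2) (Q) (n + i3 - i2 - l2 - 1))
    (n1 : Nd W (j) (i) (k))
    (n2 : Nd W (k + l + 1) (i2) (i + l + 1))
    (n3 : Nd W (i + l + l2 + 2) (i3) (i2 + l2 - n + 1))
    (b0 : (i + l + l2 + i3 + 3) ≤ (n + 2 * Q))
    (b1 : (l + l2 + i3 + 1) ≤ (n + k))
    (b2 : (n + i2) ≤ (i + l + 2 * i3 + 2))
    (b3 : (2 * i + j + 1) ≤ (k))
    (b4 : (2 * i3) ≤ (i + l + i2 + 2))
    (b5 : (2 * Q + i3) ≤ (i + j + i2 + l2 + 1)) : False := by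
  have ev := al.ev
  obtain ⟨y0, y1, y2, y3, y4, y5, y6, y7, y8, y9, y10, y11, y12, y13, y14, y15, y16, y17, y18, y19, y20, y21, y22⟩ := id hy
  have n1p := And.intro n1.p1 n1.p2
  have n2p := And.intro n2.p1 n2.p2
  have n3p := And.intro n3.p1 n3.p2
  by_cases z10 : (n + 2 * Q + j) ≤ (i + k + l + l2 + i3 + 3)
  · by_cases z11 : (i + l + l2 + i3 + 3) ≤ (n + j + k)
    · have k33 : (n + 2 * Q + j) ≤ (i + k + l + l2 + i3 + 2) := by clear * - z10 ev n1p n2p n3p; omega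
      have k34 : (i + k + l + l2 + 3) ≤ (n + j + i3) := by clear * - b2 b4 y1 y10 y11 y6; omega
      obtain ⟨t, ht⟩ : ∃ t, 2 * t = (n + i + j + l + l2 + i3 - k + 2) := ⟨(n + i + j + l + l2 + i3 - k + 2) / 2, by clear * - ev n1p n2p n3p; omega⟩
      clear * - al a1 a2 s1 s2 b tt c u1 u2 d1 d2 n1 n2 n3 k33 z11 k34 ht
      exact al.ninv t (cI (qf a2 al 1 t (t + (k - n - j)) (by omega)) (qa u1 al 0 (t + (k - n - j)) t (by omega)))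
    · have k35 : (l + l2 + 3) ≤ (n) := by clear * - b0 b1 b2 b5 y10 z11; omega
      have k36 : (n + Q) ≤ (l + l2 + i3 + 2) := by clear * - y1 z10 z11; omega
      have k37 : (n + k) ≤ (l + l2 + i3 + 2) := by clear * - y1 z11; omega
      have k38 : (l + l2 + i3 + 2) ≤ (n + k) := by clear * - b1 ev n1p n2p n3p; omega
      have k39 : (j) ≤ (i) := by clear * - b1 z11 ev n1p n2p n3p; omega
      clear * - al a1 a2 s1 s2 b tt c u1 u2 d1 d2 n1 n2 n3 k35 k36 k37 k38 k39 y1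
      exact (n1.f4 (ab u1 al (-1) (i) (k) (by omega))) (sh al 0 (i) (j) (by omega))
  · exact l2_01110_9 al mx hL hy a1 a2 s1 s2 b tt c u1 u2 d1 d2 n1 n2 n3 (by clear * - b1; omega) (by clear * - b2; omega) (by clear * - b3; omega) (by clear * - b4; omega) (by clear * - b5; omega) (by clear * - z10; omega)

theorem l2_01110_7 {W : ℤ → G} {n Q i j k l i2 l2 i3 : ℤ} (al : AL W n Q)
    {L : ℤ} (mx : ∀ a b g, 0 < g → g < n → Par W a b g → b - a ≤ L) (hL : L ≤ (n - j - 3) ∧ L ≤ (n + Q - k - 3) ∧ L ≤ (n - l - 3) ∧ L ≤ (n + i - k - 2) ∧ L ≤ (n - l2 - 3) ∧ L ≤ (i3 - 2) ∧ L ≤ (i2 + l2 - Q - 1) ∧ L ≤ (n + i3 - i2 - l2 - 3))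
    (hy : (0) ≤ (i) ∧ (i) ≤ (j) ∧ (j + 1) ≤ (Q) ∧ (Q) ≤ (k) ∧ (k + 1) ≤ (n) ∧ (Q) ≤ (i + l + 1) ∧ (k + l + 2) ≤ (n) ∧ (Q) ≤ (i2) ∧ (i2) ≤ (k + l + 1) ∧ (Q) ≤ (i + l + l2 + 2) ∧ (i + l + l2 + 3) ≤ (n) ∧ (n) ≤ (i2 + l2 + 1) ∧ (i2 + l2 + 2) ≤ (n + Q) ∧ (Q) ≤ (i3) ∧ (i3) ≤ (i + l + l2 + 2) ∧ (j + 3) ≤ (n) ∧ (k + 3) ≤ (n + Q) ∧ (l + 3) ≤ (n) ∧ (k + 2) ≤ (n + i) ∧ (l2 + 3) ≤ (n) ∧ (2) ≤ (i3) ∧ (Q + 1) ≤ (i2 + l2) ∧ (i2 + l2 + 3) ≤ (n + i3))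
    (a1 : Par W (0) (j) (k - j))
    (a2 : Par W (Q + j - k) (j) (k - j))
    (s1 : Ant W (0) (i) (i + j))
    (s2 : Ant W (j + 1) (Q) (i + j))
    (b : Par W (i + 1) (i + l + 1) (k - i))
    (tt : Ant W (k + l + 2) (n) (k + l + i2 + 1))
    (c : Par W (i2 + 1) (i2 + l2 + 1) (i + l - i2 + 1))
    (u1 : Ant W (Q) (i3) (i + l + l2 + i3 + 2))
    (u2 : Ant W (i + l + l2 + 3) (n) (i + l + l2 + i3 + 2))
    (d1 : Par W (i3 + 1) (n) (i2 + l2 - n - i3 + 1))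
    (d2 : Par W (i2 + l2 - n + 2) (Q) (n + i3 - i2 - l2 - 1))
    (n1 : Nd W (j) (i) (k))
    (n2 : Nd W (k + l + 1) (i2) (i + l + 1))
    (n3 : Nd W (i + l + l2 + 2) (i3) (i2 + l2 - n + 1))
    (b0 : (i + l + l2 + i3 + 3) ≤ (n + 2 * Q))
    (b1 : (n + 2 * Q) ≤ (2 * i2 + 2 * l2 + 1))
    (b2 : (l + l2 + i3 + 1) ≤ (n + k))
    (b3 : (n + i2) ≤ (i + l + 2 * i3 + 2))
    (b4 : (2 * i + j + 1) ≤ (k))
    (b5 : (2 * i3) ≤ (i + l + i2 + 2)) : False := by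
  have ev := al.ev
  obtain ⟨y0, y1, y2, y3, y4, y5, y6, y7, y8, y9, y10, y11, y12, y13, y14, y15, y16, y17, y18, y19, y20, y21, y22⟩ := id hy
  have n1p := And.intro n1.p1 n1.p2
  have n2p := And.intro n2.p1 n2.p2
  have n3p := And.intro n3.p1 n3.p2
  by_cases z8 : (i + j + i2 + l2 + 2) ≤ (2 * Q + i3)
  · by_cases z9 : (j + i3 + 1) ≤ (i + i2 + l2)
    · have k28 : (i2 + l2 + i3 + 3) ≤ (2 * n + i + j) := by clear * - b2 b3 b5 y1 y6 y8 ev n1p n2p n3p; omega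
      obtain ⟨t, ht⟩ : ∃ t, 2 * t = (i + j + i3 - i2 - l2 - 1) := ⟨(i + j + i3 - i2 - l2 - 1) / 2, by clear * - ev n1p n2p n3p; omega⟩
      clear * - al a1 a2 s1 s2 b tt c u1 u2 d1 d2 n1 n2 n3 k28 z9 z8 ht
      exact al.ninv t (cI (pb d2 al (-1) t (t + (i2 + l2 - i3 + 1)) (by omega)) (qa s2 al 0 (t + (i2 + l2 - i3 + 1)) t (by omega)))
    · have k29 : (2 * i + l + l2 + 4) ≤ (k + i3) := by clear * - b1 b2 z8 z9 ev n1p n2p n3p; omega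
      have k30 : (l2 + i3 + 2) ≤ (k + l) := by clear * - b2 b3 b4 b5 z9 ev n1p n2p n3p; omega
      have k31 : (k + l + l2 + i3 + 3) ≤ (2 * n) := by clear * - b2 b4 b5 y5 y6 z8 z9; omega
      have k32 : (k) ≤ (l + l2 + i3 + 1) := by clear * - b1 y14 y18 z8 z9; omega
      obtain ⟨t, ht⟩ : ∃ t, 2 * t = (k + l + l2 + i3 - 2 * n + 2) := ⟨(k + l + l2 + i3 - 2 * n + 2) / 2, by clear * - ev n1p n2p n3p; omega⟩
      clear * - al a1 a2 s1 s2 b tt c u1 u2 d1 d2 n1 n2 n3 k29 k30 k31 k32 ht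
      exact al.ninv t (cE (cE (qa u2 al (-1) t ((i + l + l2 + i3 - n + 2) - t) (by omega)) (qf b al 0 ((i + l + l2 + i3 - n + 2) - t) ((k + l + l2 + i3 - n + 2) - t) (by omega))) (sh al (-1) ((k + l + l2 + i3 - n + 2) - t) t (by omega)))
  · exact l2_01110_8 al mx hL hy a1 a2 s1 s2 b tt c u1 u2 d1 d2 n1 n2 n3 (by clear * - b0; omega) (by clear * - b2; omega) (by clear * - b3; omega) (by clear * - b4; omega) (by clear * - b5; omega) (by clear * - z8; omega)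

theorem l2_01110_6 {W : ℤ → G} {n Q i j k l i2 l2 i3 : ℤ} (al : AL W n Q)
    {L : ℤ} (mx : ∀ a b g, 0 < g → g < n → Par W a b g → b - a ≤ L) (hL : L ≤ (n - j - 3) ∧ L ≤ (n + Q - k - 3) ∧ L ≤ (n - l - 3) ∧ L ≤ (n + i - k - 2) ∧ L ≤ (n - l2 - 3) ∧ L ≤ (i3 - 2) ∧ L ≤ (i2 + l2 - Q - 1) ∧ L ≤ (n + i3 - i2 - l2 - 3))
    (hy : (0) ≤ (i) ∧ (i) ≤ (j) ∧ (j + 1) ≤ (Q) ∧ (Q) ≤ (k) ∧ (k + 1) ≤ (n) ∧ (Q) ≤ (i + l + 1) ∧ (k + l + 2) ≤ (n) ∧ (Q) ≤ (i2) ∧ (i2) ≤ (k + l + 1) ∧ (Q) ≤ (i + l + l2 + 2) ∧ (i + l + l2 + 3) ≤ (n) ∧ (n) ≤ (i2 + l2 + 1) ∧ (i2 + l2 + 2) ≤ (n + Q) ∧ (Q) ≤ (i3) ∧ (i3) ≤ (i + l + l2 + 2) ∧ (j + 3) ≤ (n) ∧ (k + 3) ≤ (n + Q) ∧ (l + 3) ≤ (n) ∧ (k + 2) ≤ (n + i) ∧ (l2 + 3) ≤ (n) ∧ (2) ≤ (i3) ∧ (Q + 1) ≤ (i2 + l2) ∧ (i2 + l2 + 3) ≤ (n + i3))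
    (a1 : Par W (0) (j) (k - j))
    (a2 : Par W (Q + j - k) (j) (k - j))
    (s1 : Ant W (0) (i) (i + j))
    (s2 : Ant W (j + 1) (Q) (i + j))
    (b : Par W (i + 1) (i + l + 1) (k - i))
    (tt : Ant W (k + l + 2) (n) (k + l + i2 + 1))
    (c : Par W (i2 + 1) (i2 + l2 + 1) (i + l - i2 + 1))
    (u1 : Ant W (Q) (i3) (i + l + l2 + i3 + 2))
    (u2 : Ant W (i + l + l2 + 3) (n) (i + l + l2 + i3 + 2))
    (d1 : Par W (i3 + 1) (n) (i2 + l2 - n - i3 + 1))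
    (d2 : Par W (i2 + l2 - n + 2) (Q) (n + i3 - i2 - l2 - 1))
    (n1 : Nd W (j) (i) (k))
    (n2 : Nd W (k + l + 1) (i2) (i + l + 1))
    (n3 : Nd W (i + l + l2 + 2) (i3) (i2 + l2 - n + 1))
    (b0 : (i + l + l2 + i3 + 3) ≤ (n + 2 * Q))
    (b1 : (n + 2 * Q) ≤ (2 * i2 + 2 * l2 + 1))
    (b2 : (l + l2 + i3 + 1) ≤ (n + k))
    (b3 : (n + i2) ≤ (i + l + 2 * i3 + 2))
    (b4 : (2 * i + j + 1) ≤ (k)) : False := by
  have ev := al.ev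
  obtain ⟨y0, y1, y2, y3, y4, y5, y6, y7, y8, y9, y10, y11, y12, y13, y14, y15, y16, y17, y18, y19, y20, y21, y22⟩ := id hy
  have n1p := And.intro n1.p1 n1.p2
  have n2p := And.intro n2.p1 n2.p2
  have n3p := And.intro n3.p1 n3.p2
  by_cases z7 : (i + l + i2 + 3) ≤ (2 * i3)
  · have k20 : (2 * Q + i2) ≤ (i + l + 2 * i3 + 1) := by clear * - y5 z7; omega
    have k21 : (i + l + 3) ≤ (i2) := by clear * - y10 y11 ev n1p n2p n3p; omega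
    have k22 : (2 * Q + i2) ≤ (i + l + 2 * l2 + 2 * i3 + 3) := by clear * - y13 y14 z7; omega
    have k23 : (i + l + i2 + 1) ≤ (2 * l2 + 2 * i3) := by clear * - b0 b1 y14 z7; omega
    have k24 : (2 * Q) ≤ (i + l + i2 + 2 * l2 + 3) := by clear * - b1 y14 y22; omega
    have k25 : (i + l + 2 * i3 + 1) ≤ (3 * i2 + 2 * l2) := by clear * - b0 b1 y14; omega
    have k26 : (2 * n + i + l + l2 + i3 + 2) % 2 = 0 := by clear * - ev n1p n2p n3p; omega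
    have k27 : (i2 - i - l - 1) % 2 = 0 := by clear * - ev n1p n2p n3p; omega
    clear * - al a1 a2 s1 s2 b tt c u1 u2 d1 d2 n1 n2 n3 k20 z7 k21 k22 k23 k24 k25 k26 k27
    exact midP al (i2 - i - l - 1) (2 * n + i + l + l2 + i3 + 2) (max (n + i + l + i3 - i2 + 2) (max (n + i + l + l2 + 3) (n + i + l + 2))) (n + i + l + 2) (n + i2 + l2 + 1) (by omega) (fun t h1 h2 => (cE (ab u1 al 1 t ((n + i + l + l2 + i3 + 2) - t) (by omega)) (sh al 1 ((n + i + l + l2 + i3 + 2) - t) ((2 * n + i + l + l2 + i3 + 2) - t) (by omega)))) (fun t h1 h2 => (cE (pb c al 1 t (t + (i2 - n - i - l - 1)) (by omega)) (sh al 1 (t + (i2 - n - i - l - 1)) (t + (i2 - i - l - 1)) (by omega))))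
  · exact l2_01110_7 al mx hL hy a1 a2 s1 s2 b tt c u1 u2 d1 d2 n1 n2 n3 (by clear * - b0; omega) (by clear * - b1; omega) (by clear * - b2; omega) (by clear * - b3; omega) (by clear * - b4; omega) (by clear * - z7; omega)

theorem l2_01110_5 {W : ℤ → G} {n Q i j k l i2 l2 i3 : ℤ} (al : AL W n Q)
    {L : ℤ} (mx : ∀ a b g, 0 < g → g < n → Par W a b g → b - a ≤ L) (hL : L ≤ (n - j - 3) ∧ L ≤ (n + Q - k - 3) ∧ L ≤ (n - l - 3) ∧ L ≤ (n + i - k - 2) ∧ L ≤ (n - l2 - 3) ∧ L ≤ (i3 - 2) ∧ L ≤ (i2 + l2 - Q - 1) ∧ L ≤ (n + i3 - i2 - l2 - 3))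
    (hy : (0) ≤ (i) ∧ (i) ≤ (j) ∧ (j + 1) ≤ (Q) ∧ (Q) ≤ (k) ∧ (k + 1) ≤ (n) ∧ (Q) ≤ (i + l + 1) ∧ (k + l + 2) ≤ (n) ∧ (Q) ≤ (i2) ∧ (i2) ≤ (k + l + 1) ∧ (Q) ≤ (i + l + l2 + 2) ∧ (i + l + l2 + 3) ≤ (n) ∧ (n) ≤ (i2 + l2 + 1) ∧ (i2 + l2 + 2) ≤ (n + Q) ∧ (Q) ≤ (i3) ∧ (i3) ≤ (i + l + l2 + 2) ∧ (j + 3) ≤ (n) ∧ (k + 3) ≤ (n + Q) ∧ (l + 3) ≤ (n) ∧ (k + 2) ≤ (n + i) ∧ (l2 + 3) ≤ (n) ∧ (2) ≤ (i3) ∧ (Q + 1) ≤ (i2 + l2) ∧ (i2 + l2 + 3) ≤ (n + i3))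
    (a1 : Par W (0) (j) (k - j))
    (a2 : Par W (Q + j - k) (j) (k - j))
    (s1 : Ant W (0) (i) (i + j))
    (s2 : Ant W (j + 1) (Q) (i + j))
    (b : Par W (i + 1) (i + l + 1) (k - i))
    (tt : Ant W (k + l + 2) (n) (k + l + i2 + 1))
    (c : Par W (i2 + 1) (i2 + l2 + 1) (i + l - i2 + 1))
    (u1 : Ant W (Q) (i3) (i + l + l2 + i3 + 2))
    (u2 : Ant W (i + l + l2 + 3) (n) (i + l + l2 + i3 + 2))
    (d1 : Par W (i3 + 1) (n) (i2 + l2 - n - i3 + 1))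
    (d2 : Par W (i2 + l2 - n + 2) (Q) (n + i3 - i2 - l2 - 1))
    (n1 : Nd W (j) (i) (k))
    (n2 : Nd W (k + l + 1) (i2) (i + l + 1))
    (n3 : Nd W (i + l + l2 + 2) (i3) (i2 + l2 - n + 1))
    (b0 : (i + l + l2 + i3 + 3) ≤ (n + 2 * Q))
    (b1 : (n + 2 * Q) ≤ (2 * i2 + 2 * l2 + 1))
    (b2 : (l + l2 + i3 + 1) ≤ (n + k))
    (b3 : (n + i2) ≤ (i + l + 2 * i3 + 2)) : False := by
  have ev := al.ev
  obtain ⟨y0, y1, y2, y3, y4, y5, y6, y7, y8, y9, y10, y11, y12, y13, y14, y15, y16, y17, y18, y19, y20, y21, y22⟩ := id hy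
  have n1p := And.intro n1.p1 n1.p2
  have n2p := And.intro n2.p1 n2.p2
  have n3p := And.intro n3.p1 n3.p2
  by_cases z6 : (k) ≤ (2 * i + j)
  · have k15 : (j + 2) ≤ (k) := by clear * - y2 y3 ev n1p n2p n3p; omega
    have k16 : (k) ≤ (2 * i + 3 * j + 2) := by clear * - b0 b1 b2 b3 y1 y14 z6; omega
    have k17 : (2 * i + j + 2) ≤ (3 * k) := by clear * - y10 y11 y2 y3 y8; omega
    have k18 : (i + j - 2 * n) % 2 = 0 := by clear * - ev n1p n2p n3p; omega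
    have k19 : (k - j) % 2 = 0 := by clear * - ev n1p n2p n3p; omega
    clear * - al a1 a2 s1 s2 b tt c u1 u2 d1 d2 n1 n2 n3 z6 k15 k16 k17 k18 k19
    exact midP al (k - j) (i + j - 2 * n) (max (i + j - n - k + 1) (max (j - n + 1) (-n))) (-n) (k - n) (by omega) (fun t h1 h2 => (cE (ab s1 al (-1) t ((i + j - n) - t) (by omega)) (sh al (-1) ((i + j - n) - t) ((i + j - 2 * n) - t) (by omega)))) (fun t h1 h2 => (cE (qf a1 al (-1) t (t + (n + k - j)) (by omega)) (sh al (-1) (t + (n + k - j)) (t + (k - j)) (by omega))))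
  · exact l2_01110_6 al mx hL hy a1 a2 s1 s2 b tt c u1 u2 d1 d2 n1 n2 n3 (by clear * - b0; omega) (by clear * - b1; omega) (by clear * - b2; omega) (by clear * - b3; omega) (by clear * - z6; omega)

end Pool.Agent.MP_a38735_al.WL
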