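import Pool.Agent.MP_a38735_al.L2y

set_option autoImplicit false

namespace Pool.Agent.MP_a38735_al.WL

open Finset

/-- three bands, the first ending unlike the other two: these two have a long common end -/
theorem endR {α : Type*} {W : ℤ → α} {n : ℤ} (hn : 0 < n) (per : ∀ t, W (t + n) = W t)
    (a l d : Fin 3 → ℤ) (m : ℤ) (hl : ∀ σ, 0 ≤ l σ) (m0 : 0 ≤ m)
    (hp : ∀ σ t, a σ ≤ t → t < a σ + l σ → W (t + d σ) = W t)
    (h1 : Dif (W (a 0 + l 0)) (W (a 0 + l 0 + d 0)) (W (a 1 + l 1)) (W (a 1 + l 1 + d 1)))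
    (h2 : Dif (W (a 0 + l 0)) (W (a 0 + l 0 + d 0)) (W (a 2 + l 2)) (W (a 2 + l 2 + d 2)))
    (hU : ¬ ∀ s, 0 < s → s ≤ m → W (a 1 + l 1 - s) = W (a 2 + l 2 - s)) :
    l 0 + l 1 + l 2 + 4 ≤ n + m := by
  classical
  by_contra con
  let S : Finset ((_ : Fin 3) × ℤ) := univ.sigma fun σ => Ico 0 (![l 0 + 1, l 1 + 1 - m, l 2 + 1] σ)
  let A : (_ : Fin 3) × ℤ → ℤ := fun e => a e.1 + e.2
  let B : (_ : Fin 3) × ℤ → ℤ := fun e => a e.1 + e.2 + d e.1
  let Cyc : ((_ : Fin 3) × ℤ → ℚ) → Prop := fun c => (∀ e, c e ≠ 0 → e ∈ S) ∧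
    ∀ f : ℤ → ℚ, (∀ t, f (t + n) = f t) → ∑ e ∈ S, c e * (f (A e) - f (B e)) = 0
  let Val : ((_ : Fin 3) × ℤ → ℚ) → ℤ → Prop := fun c v => ∀ e, c e ≠ 0 → e.2 + v ≤ l e.1
  have mem : ∀ e, e ∈ S → 0 ≤ e.2 ∧ e.2 < ![l 0 + 1, l 1 + 1 - m, l 2 + 1] e.1 := fun e he => by
    simpa [S] using he
  have eqw : ∀ (e : (_ : Fin 3) × ℤ) s, 0 ≤ e.2 + s → e.2 + s < l e.1 →
      W (B e + s) = W (A e + s) := fun e s h1 h2 => by
    rw [← hp e.1 (A e + s) (by simp only [A]; omega) (by simp only [A]; omega)]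
    congr 1; simp only [A, B]; ring
  have exR : ∀ c v, 0 ≤ v → Cyc c → Val c v → c ⟨1, l 1 - v⟩ = 0 ∨ c ⟨2, l 2 - v⟩ = 0 →
      Val c (v + 1) := by
    intro c v hv hc h z
    have lt : ∀ e, c e ≠ 0 → e ≠ ⟨e.1, l e.1 - v⟩ → e.2 + v < l e.1 := by
      rintro ⟨σ, t⟩ c0 ne
      have := h _ c0
      refine lt_of_le_of_ne this fun z => ne ?_
      simp only at z ⊢
      rw [← z]; simp
    have k : c ⟨0, l 0 - v⟩ = 0 ∧ c ⟨1, l 1 - v⟩ = 0 ∧ c ⟨2, l 2 - v⟩ = 0 := by
      rcases z with z | z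
      · have := two_zero per hc.1 hc.2 v (e1 := ⟨0, l 0 - v⟩) (e2 := ⟨2, l 2 - v⟩) (by simp)
          (fun e c0 n1 n2 => eqw e v (by have := (mem e (hc.1 e c0)).1; omega) (lt e c0 (by
            obtain ⟨σ, t⟩ := e
            fin_cases σ
            · exact n1
            · intro y; exact c0 (y ▸ z)
            · exact n2)))
          (by simp only [A, B]; convert h2 using 2 <;> ring)
        exact ⟨this.1, z, this.2⟩
      · have := two_zero per hc.1 hc.2 v (e1 := ⟨0, l 0 - v⟩) (e2 := ⟨1, l 1 - v⟩) (by simp)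
          (fun e c0 n1 n2 => eqw e v (by have := (mem e (hc.1 e c0)).1; omega) (lt e c0 (by
            obtain ⟨σ, t⟩ := e
            fin_cases σ
            · exact n1
            · exact n2
            · intro y; exact c0 (y ▸ z))))
          (by simp only [A, B]; convert h1 using 2 <;> ring)
        exact ⟨this.1, this.2, z⟩
    intro e c0
    suffices e.2 + v < l e.1 by omega
    refine lt e c0 fun z => c0 ?_
    obtain ⟨σ, t⟩ := e
    rw [z]
    fin_cases σ
    exacts [k.1, k.2.1, k.2.2]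
  have main : ∀ (K : ℕ) c v, 0 ≤ v → l 0 + l 1 + l 2 < v + K → Cyc c → Val c v →
      (∀ e e', c e ≠ 0 → c e' ≠ 0 → ∀ s, 0 ≤ s → s < v → W (A e + s) = W (A e' + s)) →
      ∀ e, c e = 0 := by
    intro K
    induction K with
    | zero =>
      intro c v _ hK hc h _ e
      by_contra c0
      have := h e c0
      have := (mem e (hc.1 e c0)).1
      have h0 := hl 0; have h1 := hl 1; have h2 := hl 2
      obtain ⟨σ, t⟩ := e
      fin_cases σ <;> simp at * <;> omega
    | succ K ih =>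
      intro c v hv hK hc h wi e0
      by_cases z : c ⟨1, l 1 - v⟩ = 0 ∨ c ⟨2, l 2 - v⟩ = 0
      · have v1 := exR c v hv hc h z
        by_contra c0
        let c' : (_ : Fin 3) × ℤ → ℚ := fun e => if W (A e + v) = W (A e0 + v) then c e else 0
        have sub : ∀ e, c' e ≠ 0 → c e ≠ 0 ∧ W (A e + v) = W (A e0 + v) := fun e he => by
          by_cases y : W (A e + v) = W (A e0 + v)
          · exact ⟨by simpa [c', y] using he, y⟩
          · simp [c', y] at he
        refine absurd (ih c' (v + 1) (by omega) (by push_cast at hK; omega)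
          ⟨fun e he => hc.1 e (sub e he).1, fun f hf => ?_⟩ (fun e he => v1 e (sub e he).1)
          (fun e e' k k' s s0 s1 => ?_) e0) (by simpa [c'] using c0)
        · rw [← hc.2 (fun t => if W (t + v) = W (A e0 + v) then f t else 0) fun t => by
            simp only [add_right_comm t n, per, hf]]
          refine sum_congr rfl fun e _ => ?_
          by_cases ce : c e = 0
          · simp [c', ce]
          · have := eqw e v (by have := (mem e (hc.1 e ce)).1; omega) (by have := v1 e ce; omega)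
            simp only [c', this]
            split_ifs <;> simp
        · rcases (show s ≤ v by omega).eq_or_lt with rfl | y
          · rw [(sub e k).2, (sub e' k').2]
          · exact wi e e' (sub e k).1 (sub e' k').1 s s0 y
      · push Not at z
        have := (mem _ (hc.1 _ z.1)).2
        simp only [Matrix.cons_val] at this
        refine (hU fun s s0 s1 => ?_).elim
        have := wi _ _ z.1 z.2 (v - s) (by omega) (by omega)
        simp only [A] at this
        convert this using 2 <;> ring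
  have h0 := hl 0; have h1 := hl 1; have h2 := hl 2
  obtain ⟨c, ⟨e, he⟩, hS, hc⟩ := ex_cyc S A B n hn (by
    simp only [S, card_sigma, Fin.sum_univ_three, Int.card_Ico]
    simp
    omega)
  refine he (main (l 0 + l 1 + l 2 + 1).toNat c 0 le_rfl (by omega) ⟨hS, hc⟩ ?_
    (fun _ _ _ _ _ _ _ => by omega) e)
  rintro ⟨σ, t⟩ c0
  have := mem _ (hS _ c0)
  fin_cases σ <;> simp at this ⊢ <;> omega

theorem endL {α : Type*} {W : ℤ → α} {n : ℤ} (hn : 0 < n) (per : ∀ t, W (t + n) = W t)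
    (a l d : Fin 3 → ℤ) (m : ℤ) (hl : ∀ σ, 0 ≤ l σ) (m0 : 0 ≤ m)
    (hp : ∀ σ t, a σ ≤ t → t < a σ + l σ → W (t + d σ) = W t)
    (h1 : Dif (W (a 0 - 1)) (W (a 0 - 1 + d 0)) (W (a 1 - 1)) (W (a 1 - 1 + d 1)))
    (h2 : Dif (W (a 0 - 1)) (W (a 0 - 1 + d 0)) (W (a 2 - 1)) (W (a 2 - 1 + d 2)))
    (hU : ¬ ∀ s, 0 ≤ s → s < m → W (a 1 + s) = W (a 2 + s)) :
    l 0 + l 1 + l 2 + 4 ≤ n + m := by
  refine endR (W := fun t => W (-1 - t)) hn (fun t => by rw [← per]; congr 1; ring)
    (fun σ => -a σ - l σ) l (fun σ => -d σ) m hl m0 (fun σ t k1 k2 => ?_)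
    (by convert h1 using 2 <;> ring) (by convert h2 using 2 <;> ring) fun c => hU fun s s0 s1 => ?_
  · rw [← hp σ (-1 - t) (by omega) (by omega)]; congr 1; ring
  · convert c (s + 1) (by omega) (by omega) using 2 <;> ring

variable {G : Type*} [Group G]

/-- `L2z` with two more bounds from the longest strip -/
def L2w (G : Type*) [Group G] : Prop :=
  ∀ (W : ℤ → G) (n Q i j k p q i2 i3 j3 k3 L : ℤ), AL W n Q → Lm W n Q L →
    Bd W n L j i k → Bd W n L j3 i3 k3 →
    (L + j + 3 ≤ n ∧ L + k - Q + 3 ≤ n ∧ L + p - i + 2 ≤ n ∧ L + k - i + 2 ≤ n ∧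
      L + k3 - i2 + 2 ≤ n ∧ L + Q - i3 + 2 ≤ n ∧ L + 2 ≤ k3 - j3) →
    (∀ m, j ≤ m → j3 ≤ m → j ≠ j3 →
      L + j + k3 - i2 + 3 ≤ n + m ∧ L + k - Q + k3 - i2 + 3 ≤ n + m) →
    (∀ m, m ≤ i → m ≤ i3 → i ≠ i3 → L + p - i + m + 3 ≤ k3 + Q) →
    (0 ≤ i ∧ i ≤ j ∧ j < Q ∧ Q ≤ k ∧ q = p + k - i ∧ q < n ∧ Q ≤ i2 ∧ i2 ≤ p ∧ k3 < n ∧
      j3 + n = k3 + q - i2 ∧ 0 ≤ i3 ∧ i3 ≤ j3 ∧ j3 < Q) →
    (k + k3 < n + i3 ∧ 2 * (i2 - Q) < k - i) →
    Par W 0 j (k - j) → Par W (Q - (k - j)) j (k - j) → Ant W 0 i (i + j) →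
    Ant W (j + 1) Q (i + j) → Par W (i + 1) p (k - i) → Ant W Q i2 (i2 + p) →
    Par W (i2 + 1) k3 (q - i2) → Ant W 0 i3 (i3 + j3) → Ant W (j3 + 1) Q (i3 + j3) →
    Par W (i3 + 1) Q (k3 - i3) → Par W (k3 + 1) n (i3 - k3) →
    Nd W j i k → Nd W p i2 q → Nd W j3 i3 k3 → False

theorem l2z_of (hw : L2w G) : L2z G := by
  intro W n Q i j k p q i2 i3 j3 k3 L0 al lm bd1 bd3 hL hy hz a1 a2 s1 s2 b tt c u1 u2 d1 d2
    n1 n2 n3
  have p2 := n1.p2
  obtain ⟨r, h⟩ := al.stk
  obtain ⟨x, d, L, l0, pa, e1, e2, mx, tri⟩ := h.lam (by omega)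
  have ev := al.ev
  have le : L ≤ L0 := by
    have k1 := Int.emod_nonneg d (by omega : n ≠ 0)
    have k2 := Int.emod_lt_of_pos d (by omega : 0 < n)
    have k3 := Int.emod_add_mul_ediv d n
    have k4 : ∀ t, W (t + d) = W (t + d % n) := fun t => sh al (d / n) _ _ (by linarith)
    have := lm.mx x (x + L) (d % n) (k1.lt_of_ne fun z => e1 (by rw [k4, ← z, add_zero])) k2
      fun t h1 h2 => by rw [← k4, pa t h1 h2]
    omega
  have no : ∀ j i k, 0 ≤ i → i ≤ j → j < Q → Q ≤ k → k < n → Nd W j i k → Par W 0 j (k - j) →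
      Ant W 0 i (i + j) → Par W (i + 1) Q (k - i) →
      Dif (W (x + L)) (W (x + L + d)) (W j) (W k) ∧ Dif (W (x - 1)) (W (x - 1 + d)) (W i) (W k) := by
    intro j i k i0 ij jQ Qk kn nd A S B
    have p1 := nd.p1
    have p2 := nd.p2
    have no := fun m => (tri j i k p1 p2 nd.rel m).1 ⟨by
      simpa using (h.prun A (by omega)).1.1 ((h.mn _).lt_of_ne (h.ne ev (by omega)).symm), by
      simpa using (h.arun S i0).1.1 ((h.mn _).lt_of_ne (h.ne ev (by omega)).symm), by
      have := (h.prun B (by omega)).2.2 ((h.mx _).lt_of_ne (h.ne ev (by omega)))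
      rwa [show i + 1 + (k - i) = k + 1 by ring] at this⟩
    exact ⟨⟨e1, nd.yz, fun c => no (Or.inl c), fun c => no (Or.inr (Or.inl c))⟩,
      e2, nd.xz, fun c => no (Or.inr (Or.inr (Or.inl c))), fun c => no (Or.inr (Or.inr (Or.inr c)))⟩
  have c' : Par W (q + 1 - n) j3 (k3 - j3) := (c.fl ⟨le_rfl, le_rfl, rfl⟩).sh al 1 1 (by omega)
  have d' : Par W (i3 + 1) (n - k3 + i3) (k3 - i3) := d2.fl (by omega)
  have t1 := no j i k (by omega) (by omega) (by omega) (by omega) (by omega) n1 a1 s1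
    (b.mn le_rfl (by omega))
  have t3 := no j3 i3 k3 (by omega) (by omega) (by omega) (by omega) (by omega) n3
    (c'.mn (by omega) le_rfl) u1 d1
  have mo : ∀ {j i k}, Bd W n L0 j i k → Bd W n L j i k := fun z a b g a' b' g' x1 x2 x3 x4 x5 x6
    x7 => by have := z a b g a' b' g' x1 x2 x3 x4 x5 x6 x7; omega
  refine hw W n Q i j k p q i2 i3 j3 k3 L al ⟨l0, mx, fun j i k s e s' e' x1 x2 x3 x4 x5 x6 x7 x8
    x9 x10 x11 => mo (lm.bd j i k s e s' e' x1 x2 x3 x4 x5 x6 x7 x8 x9 x10 x11)⟩ (mo bd1) (mo bd3)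
    (by omega) (fun m m1 m2 ne => ?_) (fun m m1 m2 ne => ?_) hy hz a1 a2 s1 s2 b tt c u1 u2 d1 d2
    n1 n2 n3
  · have key : ∀ a, a ≤ j → Par W a j (k - j) → L + (j - a) + (j3 - (q + 1 - n)) + 4 ≤ n + m := by
      intro a ha A
      simpa only [Matrix.cons_val] using endR (n := n) (by omega) al.per ![x, a, q + 1 - n]
        ![L, j - a, j3 - (q + 1 - n)] ![d, k - j, k3 - j3] m
        (by intro σ; fin_cases σ <;> simp <;> omega) (by omega)
        (by
          intro σ t h1 h2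
          fin_cases σ <;> simp at h1 h2 ⊢
          exacts [pa t h1 h2, A t h1 h2, c' t (by omega) h2])
        (by simpa using t1.1) (by simpa using t3.1)
        (by
          intro z
          simp only [Matrix.cons_val, add_sub_cancel] at z
          rcases lt_or_gt_of_ne ne with y | y
          · refine al.ubP (j3 - j) (by omega) (by omega) fun t h1 h2 => ?_
            convert (z (j - t) (by omega) (by omega)).symm using 2 <;> ring
          · refine al.ubP (j - j3) (by omega) (by omega) fun t h1 h2 => ?_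
            convert z (j3 - t) (by omega) (by omega) using 2 <;> ring)
    have := key 0 (by omega) a1
    have := key _ (by omega) a2
    omega
  · have := endL (n := n) (by omega) al.per ![x, i + 1, i3 + 1]
      ![L, p - i - 1, n - k3 - 1] ![d, k - i, k3 - i3] (Q - 1 - m)
      (by intro σ; fin_cases σ <;> simp <;> omega) (by omega)
      (by
        intro σ t h1 h2
        fin_cases σ <;> simp at h1 h2 ⊢
        exacts [pa t h1 h2, b t h1 (by omega), d' t h1 (by omega)])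
      (by simpa using t1.2) (by simpa using t3.2)
      (by
        intro z
        simp only [Matrix.cons_val] at z
        rcases lt_or_gt_of_ne ne with y | y
        · refine al.ubQ (i3 - i) (by omega) (by omega) fun t h1 h2 => ?_
          convert (z (t - i - 1) (by omega) (by omega)).symm using 2 <;> ring
        · refine al.ubQ (i - i3) (by omega) (by omega) fun t h1 h2 => ?_
          convert z (t - i3 - 1) (by omega) (by omega) using 2 <;> ring)
    simp only [Matrix.cons_val] at this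
    omega

end Pool.Agent.MP_a38735_al.WL
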