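import Pool.Agent.MP_a38735_al.RuleL
import Pool.Agent.MP_a38735_al.Final

set_option autoImplicit false
set_option linter.unusedSectionVars false

namespace Pool.Agent.MP_a38735_al

open WL

variable {G : Type*} [Group G] {H : Bool → Subgroup G} {n : ℕ}
variable {x : ZMod n → G} {P R : ZMod n}

theorem far_far (c : Bool × ZMod n) (L : ℕ) : cn^[L] (ci (cn^[L] c)) = ci c := by
  rw [ci_iter _ le_rfl]; simp

theorem Wh.cr_far (hc : Cy H x) {a a' : Bool × ZMod n} {L : ℕ} (w : Wh H x a a' L)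
    (h : Cr x P R (ci (cn^[L + 1] a)) (ci (cn^[L + 1] a'))) : Cr x P R a a' := by
  have := And.intro ((w.rev hc).on_rev h.1) ((w.rev hc).on_rev h.2)
  rwa [far_far, far_far, ci_ci, ci_ci] at this

theorem WL.Pts.ar {N Q s e s' e' : ℤ} (p : Pts N Q s e s' e') (q0 : 0 < Q) (qn : Q < N) :
    e' - s' = N - (e - s) ∧ e ≠ e' ∧ s ≠ s' ∧ (s' = e ∨ s' = e - N) ∧ 0 ≤ s ∧ e ≤ N ∧ 0 ≤ s' ∧
      e' ≤ N ∧ Pts N Q s' e' s e := by
  rcases p with ⟨rfl, rfl, rfl, rfl⟩ | ⟨rfl, rfl, rfl, rfl⟩ <;> simp [Pts] <;> omega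

theorem rule2 (hc : Cy H x) (hX : Ex H x P R) (L2 : StL2 G) {c d e : Bool × ZMod n}
    (h : Tr H x c d e) (z : Zt H x P R c e) (z' : Zt H x P R (ci d) (ci e))
    (ms : Mk x P R c (ci d)) : False := by
  obtain ⟨W, Q, f, J, i, j, k, l, p, q, s, e, j2, k2, F, lf, p0, rfl, rfl, jk, a1, a2, a3, a4⟩ :=
    leafZ hc hX z
  obtain ⟨i2, s', e', rfl, p', i0, i1⟩ := F.crd h.s1
  have nd := F.nd hc h
  have q0 := F.al.q0
  have qn := F.al.qn
  obtain rfl := (F.pt_iff p' i0 i1 p0 a3 a4).1 (z'.pt hc hX)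
  obtain rfl : e' = e := by
    rcases p0 with ⟨_, _⟩ | ⟨_, _⟩ <;> rcases p' with ⟨_, _⟩ | ⟨_, _⟩ <;> omega
  rw [F.cit] at ms
  have m := F.mk_tf p0 a1 a2 p0 i0 i1 nd.yx ms
  obtain ⟨s4, e4, ps, p4⟩ := p0.oth
  obtain ⟨r1, r2, -, -, r3, r4, -⟩ := ps.ar q0 qn
  obtain ⟨c', d', g', l2, lf', w, zz⟩ := z'
  have key : ∀ j3 k3 s3 e3 s4 e4, ci d' = f true j3 → ci g' = f true k3 → Pt n Q s3 e3 →
      s3 ≤ j3 → j3 < e3 → Pt n Q s4 e4 → s4 ≤ k3 → k3 < e4 → e3 ≠ e4 ∧ ∃ i3, s3 ≤ i3 ∧ i3 ≤ j3 ∧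
        Nd W j3 i3 k3 ∧ Ant W s3 i3 (i3 + j3) ∧ Ant W (j3 + 1) e3 (i3 + j3) ∧
        Par W (i3 + 1) e3 (k3 - i3) ∧ Par W (k3 + 1) e4 (i3 - k3) := by
    intro j3 k3 s3 e3 s4 e4 y1 y2 p3 b1 b2 p4 b3 b4
    have t := lf'.tr.rev
    have cs := lf'.cs.symm
    have cb := lf'.cb.symm
    rw [y1, y2] at t
    obtain ⟨i3, s5, e5, y3, p5, b5, b6⟩ := F.crd t.s1
    rw [y1, ← ci_ci c', y3, F.cit] at cs
    rw [y2, y3] at cb
    rw [y3] at t
    have nd := F.nd hc t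
    obtain ⟨u1, u2, rfl, rfl⟩ := F.cr_tf p3 b1 b2 p5 b5 b6 nd.yx cs
    obtain ⟨v1, v2, v3⟩ := F.cr_tt p3 b5 b6 p4 b3 b4 nd.xz cb
    exact ⟨v3, i3, b5, F.le_of nd.p1 b1 b6 (Or.inl u1), nd, u2, u1, v1, v2⟩
  have zz' : Mt x (f true i2) (f true k2) l2 ∧
      ((ci d' = f true (i2 + 1 + l2) ∧ ci g' = f true (k2 + 1 + l2)) ∨
        (ci d' = f true (k2 + 1 + l2) ∧ ci g' = f true (i2 + 1 + l2))) := by
    have w' := (w.rev hc).mt
    have u := far_far d' (l2 + 1)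
    have v := far_far g' (l2 + 1)
    have e1 : ∀ t : ℤ, t + (l2 + 1 : ℕ) = t + 1 + l2 := fun t => by omega
    rcases zz with ⟨y1, y2⟩ | ⟨y1, y2⟩
    · rw [← y1, ci_ci] at u w'
      rw [← y2, ci_ci] at v w'
      rw [F.itt, e1] at u v
      exact ⟨w', Or.inl ⟨u.symm, v.symm⟩⟩
    · rw [← y1, ci_ci] at v w'
      rw [← y2, ci_ci] at u w'
      rw [F.itt, e1] at u v
      exact ⟨w'.symm, Or.inr ⟨u.symm, v.symm⟩⟩
  obtain ⟨mt, zz'⟩ := zz'
  have ne : f true i2 ≠ f true k2 := fun z => nd.xz (by rw [← F.clt, z, F.clt])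
  have t1 := F.short_t p0 i0 i1 (by omega) (by omega) ne mt
  have t2 := F.short_t p0 a3 a4 (by omega) (by omega) ne.symm mt.symm
  have fin := fun p3 q3 i3 j3 k3 s3 e3 s5 e5 => L2 W n Q i j k l p q s' e' s4 e4 i2 j2 k2 l2 p3 q3
    i3 j3 k3 s3 e3 s5 e5 F.al lf ps jk i0 (F.le_of nd.p1 a1 i1 m) nd m.symm (F.mtt mt)
  by_cases c1 : i2 + 1 + l2 < e' <;> by_cases c2 : k2 + 1 + l2 < e'
  · rcases zz' with ⟨y1, y2⟩ | ⟨y1, y2⟩ <;>
      exact (key _ _ _ _ _ _ y1 y2 p0 (by omega) (by omega) p0 (by omega) (by omega)).1 rfl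
  · rw [F.shift ps true (k2 + 1 + l2)] at zz'
    rcases zz' with ⟨y1, y2⟩ | ⟨y1, y2⟩
    · obtain ⟨-, i3, b1, b2, b3, b4, b5, b6, b7⟩ :=
        key _ _ _ _ _ _ y1 y2 p0 (by omega) (by omega) p4 (by omega) (by omega)
      exact fin _ _ i3 _ _ _ _ _ _ (Or.inl ⟨rfl, rfl⟩) (by omega) (by omega) (by omega) (by omega)
        (Or.inl ⟨rfl, rfl, rfl, rfl, rfl, rfl⟩) b1 b2 b3 b4 b5 b6 b7
    · obtain ⟨-, i3, b1, b2, b3, b4, b5, b6, b7⟩ :=
        key _ _ _ _ _ _ y1 y2 p4 (by omega) (by omega) p0 (by omega) (by omega)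
      exact fin _ _ i3 _ _ _ _ _ _ (Or.inl ⟨rfl, rfl⟩) (by omega) (by omega) (by omega) (by omega)
        (Or.inr ⟨rfl, rfl, rfl, rfl, rfl, rfl⟩) b1 b2 b3 b4 b5 b6 b7
  · rw [F.shift ps true (i2 + 1 + l2)] at zz'
    rcases zz' with ⟨y1, y2⟩ | ⟨y1, y2⟩
    · obtain ⟨-, i3, b1, b2, b3, b4, b5, b6, b7⟩ :=
        key _ _ _ _ _ _ y1 y2 p4 (by omega) (by omega) p0 (by omega) (by omega)
      exact fin _ _ i3 _ _ _ _ _ _ (Or.inr ⟨rfl, rfl⟩) (by omega) (by omega) (by omega) (by omega)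
        (Or.inr ⟨rfl, rfl, rfl, rfl, rfl, rfl⟩) b1 b2 b3 b4 b5 b6 b7
    · obtain ⟨-, i3, b1, b2, b3, b4, b5, b6, b7⟩ :=
        key _ _ _ _ _ _ y1 y2 p0 (by omega) (by omega) p4 (by omega) (by omega)
      exact fin _ _ i3 _ _ _ _ _ _ (Or.inr ⟨rfl, rfl⟩) (by omega) (by omega) (by omega) (by omega)
        (Or.inl ⟨rfl, rfl, rfl, rfl, rfl, rfl⟩) b1 b2 b3 b4 b5 b6 b7
  · rw [F.shift ps true (i2 + 1 + l2), F.shift ps true (k2 + 1 + l2)] at zz'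
    rcases zz' with ⟨y1, y2⟩ | ⟨y1, y2⟩ <;>
      exact (key _ _ _ _ _ _ y1 y2 p4 (by omega) (by omega) p4 (by omega) (by omega)).1 rfl

theorem z2Z (hc : Cy H x) (hX : Ex H x P R) {a a' : Bool × ZMod n} (h : Z2 H x P R a a') :
    ∃ W Q f J j3 i3 s3 e3 s4 e4, Frm x P R W Q f J ∧ a = f true j3 ∧ a' = f true i3 ∧
      Pt n Q s3 e3 ∧ Pts n Q s3 e3 s4 e4 ∧ s3 ≤ j3 ∧ j3 < e3 ∧ s3 ≤ i3 ∧ i3 < e3 ∧
      (StL3 G → ∀ k3, Nd W j3 i3 k3 →
        ((s3 ≤ k3 ∧ k3 < e3 ∧ (Par W s3 j3 (k3 - j3) ∨ Par W s3 k3 (j3 - k3)) ∧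
          (Par W (i3 + 1) e3 (k3 - i3) ∨ Par W (k3 + 1) e3 (i3 - k3))) ∨
        (s4 ≤ k3 ∧ k3 < e4 ∧ ((Par W s3 j3 (k3 - j3) ∧ Par W s4 k3 (j3 - k3)) ∨
          (Par W (i3 + 1) e3 (k3 - i3) ∧ Par W (k3 + 1) e4 (i3 - k3))))) → False) := by
  obtain ⟨c, d, e, m, h, z, cf, ms, -, w, rfl, rfl⟩ := h
  obtain ⟨W, Q, f, J, i, j, k, l, p, q, s, e, j2, k2, F, lf, p0, rfl, rfl, jk, a1, a2, a3, a4⟩ :=
    leafZ hc hX z
  obtain ⟨i2, s', e', rfl, p', i0, i1⟩ := F.crd h.s1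
  have nd := F.nd hc h
  have q0 := F.al.q0
  have qn := F.al.qn
  have ev := F.al.ev
  have par := nd.p1
  obtain ⟨b1, b2, b3⟩ := F.cr_tt p' i0 i1 p0 a3 a4 nd.xz cf
  have ps := (p0.or p').resolve_left fun z => b3 z.2
  obtain ⟨r1, r2, r3, r4, r5, r6, r7, r8, ps'⟩ := ps.ar q0 qn
  rw [F.cit] at ms w
  rw [F.cit, F.itf, F.cif, F.itt, show i2 - (m + 1 : ℕ) = i2 - m - 1 by omega,
    show j2 + (m + 1 : ℕ) = j2 + m + 1 by omega]
  have ne : f true j2 ≠ f false i2 := fun z => w.ne (by rw [z])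
  have t1 := F.short_t p0 a1 a2 (by omega) (by omega) ne w.mt
  have t2 := F.short_f p' i0 i1 (by omega) (by omega) ne.symm w.mt.symm
  have ob : e ≤ j2 + 1 + m ∨ i2 - m ≤ s' := by
    have : ∀ M, M = P ∨ M = R → On x M (f true j2) (f false i2) →
        e ≤ j2 + 1 + m ∨ i2 - m ≤ s' := fun M hM o => by
      obtain ⟨r, m, y⟩ := F.on_nf hM p0 a1 a2 p' i0 i1 ne o
      have := w.le m
      simp only [if_true, Bool.false_eq_true, if_false] at y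
      omega
    exact ms.elim (this _ (Or.inl rfl)) (this _ (Or.inr rfl))
  have nb : ¬ (e ≤ j2 + 1 + m ∧ i2 - m ≤ s') := fun y => by
    have an : Ant W (j2 + 1) (j2 + 1 + m) (i2 - s' + e + j2) := by
      rcases r4 with r4 | r4
      · exact (F.mtf w.mt).mono le_rfl le_rfl (by omega)
      · intro t k1 k2
        rw [← F.mtf w.mt t k1 k2, ← F.al.per (i2 + j2 - t)]
        congr 1
        omega
    have := F.al.mid an (by omega)
    omega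
  have fin := fun L3 : StL3 G => fun i3 j3 k3 s3 e3 s4 e4 => L3 W n Q i j k l p q s e s' e' i2 j2 k2 m
    i3 j3 k3 s3 e3 s4 e4 F.al lf ps jk i0 i1 nd b1 b2 (F.mft w.mt)
  by_cases y : e ≤ j2 + 1 + m
  · exact ⟨W, Q, f, J, _, _, s', e', s, e, F, rfl, F.shift ps _ _, p', ps', by omega, by omega,
      by omega, by omega, fun L3 k3 => fin L3 _ _ k3 _ _ _ _ (Or.inl ⟨rfl, rfl, rfl, rfl, rfl, rfl⟩)
        (by omega) (by omega) (by omega) (by omega)⟩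
  · exact ⟨W, Q, f, J, i2 - m - 1 - s' + e, _, s, e, s', e', F,
      by rw [F.shift ps _ (i2 - m - 1 - s' + e)]; congr 1; omega, rfl, p0, ps, by omega, by omega,
      by omega, by omega, fun L3 k3 => fin L3 _ _ k3 _ _ _ _ (Or.inr ⟨rfl, rfl, rfl, rfl, rfl, rfl⟩)
        (by omega) (by omega) (by omega) (by omega)⟩

theorem Z2.pt (hc : Cy H x) (hX : Ex H x P R) {a a' : Bool × ZMod n} (h : Z2 H x P R a a') :
    pt P R a ↔ pt P R a' := by
  obtain ⟨W, Q, f, J, j3, i3, s3, e3, s4, e4, F, rfl, rfl, p, -, a1, a2, a3, a4, -⟩ := z2Z hc hX h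
  exact (F.pt_iff p a1 a2 p a3 a4).2 rfl

theorem rule3 (hc : Cy H x) (hX : Ex H x P R) (L3 : StL3 G) {c d e : Bool × ZMod n}
    (h : Tr H x c d e) (z : Z2 H x P R c d) (k : Cr x P R d e ∨ Cr x P R (ci e) (ci c) ∨
      (Mk x P R d e ∧ Mk x P R (ci e) (ci c) ∧ ((pt P R e ↔ pt P R c) ∨ (pt P R e ↔ pt P R d)))) :
    False := by
  obtain ⟨W, Q, f, J, j3, i3, s3, e3, s4, e4, F, rfl, rfl, p, ps, a1, a2, a3, a4, fin⟩ := z2Z hc hX z
  obtain ⟨k3, s, e, rfl, p', b1, b2⟩ := F.crd h.s2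
  have nd := F.nd hc h
  have q0 := F.al.q0
  have qn := F.al.qn
  have pp : (s = s3 ∧ e = e3) ∨ (s = s4 ∧ e = e4 ∧ s ≠ s3 ∧ e ≠ e3) := by
    rcases p' with ⟨_, _⟩ | ⟨_, _⟩ <;> rcases ps with ⟨_, _, _, _⟩ | ⟨_, _, _, _⟩ <;> omega
  rw [F.cit, F.cit] at k
  refine fin L3 k3 nd ?_
  rcases k with k | k | ⟨k1, k2, k⟩
  · obtain ⟨u1, u2, u3⟩ := F.cr_tt p a3 a4 p' b1 b2 nd.xz k
    obtain ⟨rfl, rfl, -⟩ := pp.resolve_left fun z => u3 z.2.symm
    exact Or.inr ⟨b1, b2, Or.inr ⟨u1, u2⟩⟩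
  · obtain ⟨u1, u2, u3⟩ := F.cr_ff p a1 a2 p' b1 b2 nd.yz k.symm
    obtain ⟨rfl, rfl, -⟩ := pp.resolve_left fun z => u3 z.1.symm
    exact Or.inr ⟨b1, b2, Or.inl ⟨u1, u2⟩⟩
  · obtain ⟨rfl, rfl⟩ := pp.resolve_right fun z => z.2.2.1
      (k.elim (F.pt_iff p' b1 b2 p a1 a2).1 (F.pt_iff p' b1 b2 p a3 a4).1)
    exact Or.inl ⟨b1, b2, F.mk_ff p a1 a2 p b1 b2 nd.yz k2.symm, F.mk_tt p a3 a4 p b1 b2 nd.xz k1⟩

theorem Zt.sgn {a a' : Bool × ZMod n} (h : Zt H x P R a a') : a.1 = a'.1 := by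
  obtain ⟨c, ⟨_, _⟩, ⟨_, _⟩, L, lf, -, ⟨rfl, rfl⟩ | ⟨rfl, rfl⟩⟩ := h <;> simp only [cn_iter]
  exacts [lf.tr.s1.trans lf.tr.s2.symm, lf.tr.s2.trans lf.tr.s1.symm]

theorem Z2.sgn {a a' : Bool × ZMod n} (h : Z2 H x P R a a') : a.1 = a'.1 := by
  obtain ⟨⟨_, _⟩, ⟨_, _⟩, e, L, t, -, -, -, -, -, rfl, rfl⟩ := h
  simpa [cn_iter, ci] using t.s1

theorem Zt.symm {a a' : Bool × ZMod n} (h : Zt H x P R a a') : Zt H x P R a' a := by
  obtain ⟨c, d, e, L, lf, w, z⟩ := h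
  exact ⟨c, d, e, L, lf, w, z.symm.imp And.symm And.symm⟩

/-- the ends that take all the marks of their strip -/
def Tk (H : Bool → Subgroup G) (x : ZMod n → G) (P R : ZMod n) (a a' : Bool × ZMod n) : Prop :=
  Zt H x P R (ci a) (ci a') ∨ Z2 H x P R a (ci a') ∨ Z2 H x P R a' (ci a)

theorem Tk.symm {a a' : Bool × ZMod n} (h : Tk H x P R a a') : Tk H x P R a' a :=
  h.imp Zt.symm Or.symm

theorem Tk.par {a a' : Bool × ZMod n} (h : Tk H x P R a a') (s : a.1 = a'.1) :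
    Zt H x P R (ci a) (ci a') := by
  rcases h with h | h | h
  exacts [h, by simpa [s] using h.sgn, by simpa [s] using h.sgn]

theorem Tk.ant {a a' : Bool × ZMod n} (h : Tk H x P R a (ci a')) (s : a.1 = a'.1) :
    Z2 H x P R a a' ∨ Z2 H x P R (ci a') (ci a) := by
  rcases h with h | h | h
  exacts [by simpa [s] using h.sgn, Or.inl (by simpa using h), Or.inr h]

theorem ppp3 (hc : Cy H x) (hX : Ex H x P R) {c d e : Bool × ZMod n}
    (f1 : fac H (cl x c) = fac H (cl x d)) (f2 : fac H (cl x d) = fac H (cl x e))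
    (s1 : d.1 = c.1) (s2 : e.1 = c.1) (h : cl x c * cl x d * cl x e = 1)
    (m1 : Mk x P R c (ci d)) (m2 : Mk x P R d (ci e)) (m3 : Mk x P R e (ci c))
    (k1 : Cr x P R c (ci d) ∨ Tk H x P R c (ci d)) (k2 : Cr x P R d (ci e) ∨ Tk H x P R d (ci e)) :
    False := by
  obtain ⟨W, Q, f, J, i, F, rfl, i0, i1, -⟩ := hX c
  obtain ⟨j, s, e', rfl, p, j0, j1⟩ := F.crd s1
  obtain ⟨k, s', e'', rfl, p', k0, k1'⟩ := F.crd s2
  have p0 : Pt n Q 0 Q := Or.inl ⟨rfl, rfl⟩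
  have q0 := F.al.q0
  have qn := F.al.qn
  have one := fun t => cl_ne hc (f true t)
  simp only [F.clt] at h one
  have n1 : W i ≠ (W j)⁻¹ := fun z => (one k).1 (by simpa [z] using h)
  have n2 : W j ≠ (W k)⁻¹ := fun z => (one i).1 (by simpa [z] using h)
  have n3 : W k ≠ (W i)⁻¹ := fun z => (one j).1 (by simpa [z] using h)
  have same : ∀ {i j s e s' e'}, Pt n Q s e → s ≤ i → i < e → Pt n Q s' e' → s' ≤ j → j < e' →
      W i ≠ (W j)⁻¹ → (f true i).1 = (f true j).1 → Cr x P R (f true i) (ci (f true j)) ∨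
        Tk H x P R (f true i) (ci (f true j)) → s' = s ∧ e' = e := by
    intro i j s e s' e' p a1 a2 p' a3 a4 ne sg k
    rcases k with k | k
    · rw [F.cit] at k
      exact (F.cr_tf p a1 a2 p' a3 a4 ne k).2.2
    · have := (F.pt_iff p a1 a2 p' a3 a4).1
        ((k.ant sg).elim (·.pt hc hX) fun z => (z.pt hc hX).symm)
      rcases p with ⟨_, _⟩ | ⟨_, _⟩ <;> rcases p' with ⟨_, _⟩ | ⟨_, _⟩ <;> omega
  obtain ⟨rfl, rfl⟩ := same p0 i0 i1 p j0 j1 n1 s1.symm k1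
  obtain ⟨rfl, rfl⟩ := same p0 j0 j1 p' k0 k1' n2 (s1.trans s2.symm) k2
  rw [F.cit] at m1 m2 m3
  have l1 := F.le_of (F.par hc f1) i0 j1 (F.mk_tf p0 i0 i1 p0 j0 j1 n1 m1)
  have l2 := F.le_of (F.par hc f2) j0 k1' (F.mk_tf p0 j0 j1 p0 k0 k1' n2 m2)
  have l3 := F.le_of (F.par hc (f1.trans f2).symm) k0 i1 (F.mk_tf p0 k0 k1' p0 i0 i1 n3 m3)
  obtain rfl : j = i := by omega
  obtain rfl : k = j := by omega
  exact (one k).2 h

theorem unb_of [NeZero n] (hc : Cy H x) {Q : ℤ} (al : AL (fun t : ℤ => x (P + t)) n Q) :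
    Unb x P := fun k t ne pm e => by
  have l := pm.lt hc ne.symm
  have t0 : t ≠ 0 := fun z => ne (by simpa [z] using e)
  refine al.ubP t (by omega) (by omega) fun r r0 r1 => ?_
  have := pm (r + t).toNat (by omega)
  have c : (((r + t).toNat : ℕ) : ZMod n) = ((r + t : ℤ) : ZMod n) := by
    rw [← Int.cast_natCast, Int.toNat_of_nonneg (by omega)]
  rw [c] at this
  refine this.trans ?_
  rw [← e]
  congr 1
  push_cast
  ring

theorem tri_rule (hc : Cy H x) (hX : Ex H x P R) (L1 : StL1 G) (L3 : StL3 G)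
    {c d e : Bool × ZMod n} (h : Tr H x c d e) (mf : Mk x P R d e) (mb : Mk x P R (ci e) (ci c))
    (k1 : Cr x P R c (ci d) ∨ Tk H x P R c (ci d))
    (k2 : Cr x P R (ci e) (ci c) ∨ Tk H x P R (ci e) (ci c))
    (k3 : ∀ L, Wh H x d e L → Tk H x P R (ci (cn^[L + 1] e)) (ci (cn^[L + 1] d)) →
      Tk H x P R d e) [NeZero n] : False := by
  have sf : d.1 = e.1 := h.s1.trans h.s2.symm
  have zb : Tk H x P R (ci e) (ci c) → Zt H x P R c e := fun k => by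
    simpa using (k.par (by simp [h.s2])).symm
  rcases k1 with k1 | k1
  · rcases k2 with k2 | k2
    · by_cases cf : Cr x P R d e
      · exact no_chain hc hX h cf k2 (Or.inl k1.1)
      have ne : cl x d ≠ cl x e := fun z => (cl_ne hc c).1 (by simpa [z] using h.rel)
      obtain ⟨L, l1, l2⟩ := ex_len hc h.f2 fun z => ne (by rw [z])
      have w : Wh H x d e L := ⟨h.f2, ne, l1, l2⟩
      have := (k3 L w (Or.inl ⟨c, d, e, L, ⟨h, k1, k2, mf, cf⟩, w, Or.inr (by simp)⟩)).par sf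
      exact rule1 hc hX L1 h.rev this (by simpa using k1.symm) mb.symm
    · exact rule1 hc hX L1 h (zb k2) k1 mf
  · have k : Cr x P R (ci e) (ci c) ∨ (pt P R e ↔ pt P R c) :=
      k2.imp_right fun k => ((zb k).pt hc hX).symm
    rcases k1.ant h.s1.symm with z | z
    · exact rule3 hc hX L3 h z (Or.inr (k.imp_right fun k => ⟨mf, mb, Or.inl k⟩))
    · refine rule3 hc hX L3 h.rev z (k.imp Cr.symm fun k => Or.inr ⟨mb.symm, ?_, Or.inr k⟩)
      simpa using mf.symm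

theorem tri_rule' (hc : Cy H x) (hX : Ex H x P R) (L1 : StL1 G) (L3 : StL3 G)
    {c d e : Bool × ZMod n} (h : Tr H x c d e) (ms : Mk x P R c (ci d))
    (cf : Cr x P R d e) (z : Zt H x P R c e)
    (k3 : ∀ L, Wh H x c (ci d) L → Tk H x P R (ci (cn^[L + 1] (ci d))) (ci (cn^[L + 1] c)) →
      Tk H x P R c (ci d)) [NeZero n] : False := by
  have ne : cl x c ≠ cl x (ci d) := fun z => (cl_ne hc e).1 (by simpa [z] using h.rel.symm)
  have f : fac H (cl x c) = fac H (cl x (ci d)) := by simpa [fac_inv] using h.f1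
  obtain ⟨L, l1, l2⟩ := ex_len hc f fun z => ne (by rw [← z])
  have w : Wh H x c (ci d) L := ⟨f, ne, l1, l2⟩
  have := k3 L w (Or.inr (Or.inl ⟨c, d, e, L, h, z, cf, ms,
    fun cs => rule1 hc hX L1 h z cs (Or.inl cf.1), w, rfl, by simp⟩))
  rcases this.ant h.s1.symm with y | y
  · exact rule3 hc hX L3 h y (Or.inl cf)
  · exact rule3 hc hX L3 h.rev y (Or.inr (Or.inl (by simpa using cf.symm)))

/-- rule H -/
theorem ruleH (hF : FP H) (L1 : StL1 G) (L2 : StL2 G) (L3 : StL3 G) : RuleH H := by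
  intro n _ x P Q hc a1 n1 a2 n2
  have hX : Ex H x P (P + Q) := ex_frm a1 n1 a2 n2
  refine charge3 hF hc (unb_of hc a1) (unb_of hc a2) (Tk H x P (P + Q)) ?_ ?_
  · rintro b b' cr (⟨c, d, e, L, lf, w, z⟩ | ⟨c, d, e, m, -, -, -, -, nc, w, z, z'⟩ |
      ⟨c, d, e, m, -, -, -, -, nc, w, z, z'⟩)
    · refine lf.nf (w.cr_far hc ?_)
      rcases z with ⟨z, z'⟩ | ⟨z, z'⟩ <;> rw [← z, ← z', ci_ci, ci_ci]
      exacts [cr, cr.symm]
    · exact nc (w.cr_far hc (by rw [← z, ← z', ci_ci]; exact cr.symm))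
    · exact nc (w.cr_far hc (by rw [← z, ← z', ci_ci]; exact cr))
  · intro c d e f1 f2 h m1 m2 m3 k1 k2 k3
    have rot : ∀ {c d e : Bool × ZMod n}, cl x c * cl x d * cl x e = 1 →
        cl x d * cl x e * cl x c = 1 := fun h => by
      rw [mul_assoc] at h; exact mul_eq_one_comm.1 h
    have tr : ∀ {c d e : Bool × ZMod n}, fac H (cl x c) = fac H (cl x d) →
        fac H (cl x d) = fac H (cl x e) → cl x c * cl x d * cl x e = 1 → d.1 = c.1 → e.1 ≠ c.1 →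
        Tr H x c d (ci e) := fun f1 f2 h s1 s2 =>
      ⟨s1, by simpa using (Bool.not_eq.2 s2), f1, by simpa [fac_inv] using f2,
        by rw [cl_ci]; exact eq_inv_of_mul_eq_one_left h⟩
    by_cases s1 : d.1 = c.1 <;> by_cases s2 : e.1 = c.1
    · exact ppp3 hc hX f1 f2 s1 s2 h m1 m2 m3 k1 k2
    · refine tri_rule hc hX L1 L3 (tr f1 f2 h s1 s2).rev (by simpa using m3.symm)
        (by simpa using m2.symm) (by simpa using k1.imp Cr.symm Tk.symm)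
        (by simpa using k2.imp Cr.symm Tk.symm) fun L w t => ?_
      rw [ci_ci] at w t ⊢
      exact (k3 L w.symm t.symm).symm
    · have t := tr (f1.trans f2).symm f1 (rot (rot h)) s2.symm (s2 ▸ s1)
      rcases k1 with k1 | k1 <;> rcases k2 with k2 | k2
      · exact no_chain hc hX t k1 (by simpa using k2) m3
      · exact tri_rule' hc hX L1 L3 t m3 k1 (by simpa using (k2.par (by
          simpa [s2] using (Bool.not_eq.2 s1))).symm) k3
      · refine tri_rule' hc hX L1 L3 t.rev (by simpa using m3.symm) (by simpa using k2.symm)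
          (k1.par (t.s1.trans t.s2.symm)) fun L w t => ?_
        rw [ci_ci] at w t ⊢
        exact (k3 L w.symm t.symm).symm
      · exact rule2 hc hX L2 t (by simpa using (k2.par (by
          simpa [s2] using (Bool.not_eq.2 s1))).symm) (k1.par (t.s1.trans t.s2.symm)) m3
    · exact tri_rule hc hX L1 L3 (tr f2 (f1.trans f2).symm (rot h)
        (by revert s1 s2; cases c.1 <;> cases d.1 <;> cases e.1 <;> simp) (Ne.symm s1)) m3
        (by simpa using m1) k2 (by simpa using k1) k3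

end Pool.Agent.MP_a38735_al
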