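import Pool.Agent.MP_a38735_al.WL

set_option autoImplicit false

namespace Pool.Agent.MP_a38735_al.WL

/-- `StL3` with the parity of equal letters and, in its last case, a mark on the third strip -/
def StL3m (G : Type*) [Group G] : Prop :=
  ∀ (W : ℤ → G) (n Q i j k l p q s e s' e' i2 j2 k2 m i3 j3 k3 s3 e3 s4 e4 : ℤ),
    (∀ s t, W s = W t → (s - t) % 2 = 0) →
    AL W n Q → Leaf W n Q i j k l p q s e → Pts n Q s e s' e' →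
    ((j2 = p ∧ k2 = q) ∨ (j2 = q ∧ k2 = p)) → s' ≤ i2 → i2 < e' → Nd W j2 i2 k2 →
    Par W (i2 + 1) e' (k2 - i2) → Par W (k2 + 1) e (i2 - k2) →
    Ant W (i2 - m) i2 (i2 + j2) →
    ((j3 = i2 - m - 1 ∧ i3 = j2 + m + 1 - e + s' ∧ s3 = s' ∧ e3 = e' ∧ s4 = s ∧ e4 = e) ∨
      (j3 = i2 - m - 1 - s' + e ∧ i3 = j2 + m + 1 ∧ s3 = s ∧ e3 = e ∧ s4 = s' ∧ e4 = e')) →
    s3 ≤ j3 → j3 < e3 → s3 ≤ i3 → i3 < e3 → Nd W j3 i3 k3 →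
    ((s3 ≤ k3 ∧ k3 < e3 ∧ (Par W s3 j3 (k3 - j3) ∨ Par W s3 k3 (j3 - k3)) ∧
        (Par W (i3 + 1) e3 (k3 - i3) ∨ Par W (k3 + 1) e3 (i3 - k3))) ∨
      (s4 ≤ k3 ∧ k3 < e4 ∧ ((Par W s3 j3 (k3 - j3) ∧ Par W s4 k3 (j3 - k3)) ∨
        (Par W (i3 + 1) e3 (k3 - i3) ∧ Par W (k3 + 1) e4 (i3 - k3) ∧
          (Par W s3 j3 (k3 - j3) ∨ Par W s4 k3 (j3 - k3)))))) → False

/-- the even case of `StL3x` -/
def StL3ev (G : Type*) [Group G] : Prop :=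
  ∀ (W : ℤ → G) (n Q i j k l p q i2 m i3 j3 k3 : ℤ), AL W n Q → Leaf W n Q i j k l p q Q n →
    0 ≤ i2 → i2 < Q → Nd W p i2 q → Par W (i2 + 1) Q (q - i2) → Par W (q + 1) n (i2 - q) →
    Ant W (i2 - m) i2 (i2 + p) → j3 = i2 - m - 1 + n → i3 = p + m + 1 → Q ≤ j3 → j3 < n →
    Q ≤ i3 → i3 < n → Nd W j3 i3 k3 → Par W (i3 + 1) n (k3 - i3) →
    Q ≤ k3 → k3 < n → Par W Q k3 (j3 - k3) → False

end Pool.Agent.MP_a38735_al.WL
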