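import Pool.Agent.MP_a38735_al.RuleH
import Pool.Agent.MP_a38735_al.StL3d

set_option autoImplicit false
set_option linter.unusedSectionVars false

namespace Pool.Agent.MP_a38735_al

open WL

variable {G : Type*} [Group G] {H : Bool → Subgroup G} {n : ℕ}
variable {x : ZMod n → G} {P R : ZMod n}

theorem z2Zm (hc : Cy H x) (hX : Ex H x P R) {a a' : Bool × ZMod n} (h : Z2 H x P R a a') :
    ∃ W Q f J j3 i3 s3 e3 s4 e4, Frm x P R W Q f J ∧ a = f true j3 ∧ a' = f true i3 ∧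
      Pt n Q s3 e3 ∧ Pts n Q s3 e3 s4 e4 ∧ s3 ≤ j3 ∧ j3 < e3 ∧ s3 ≤ i3 ∧ i3 < e3 ∧
      (StL3m G → ∀ k3, Nd W j3 i3 k3 →
        ((s3 ≤ k3 ∧ k3 < e3 ∧ (Par W s3 j3 (k3 - j3) ∨ Par W s3 k3 (j3 - k3)) ∧
          (Par W (i3 + 1) e3 (k3 - i3) ∨ Par W (k3 + 1) e3 (i3 - k3))) ∨
        (s4 ≤ k3 ∧ k3 < e4 ∧ ((Par W s3 j3 (k3 - j3) ∧ Par W s4 k3 (j3 - k3)) ∨
          (Par W (i3 + 1) e3 (k3 - i3) ∧ Par W (k3 + 1) e4 (i3 - k3) ∧
            (Par W s3 j3 (k3 - j3) ∨ Par W s4 k3 (j3 - k3)))))) → False) := by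
  obtain ⟨c, d, e, m, h, z, cf, ms, -, w, rfl, rfl⟩ := h
  obtain ⟨W, Q, f, J, i, j, k, l, p, q, s, e, j2, k2, F, lf, p0, rfl, rfl, jk, a1, a2, a3, a4⟩ :=
    leafZ hc hX z
  obtain ⟨i2, s', e', rfl, p', i0, i1⟩ := F.crd h.s1
  have nd := F.nd hc h
  have q0 := F.al.q0
  have qn := F.al.qn
  have ev := F.al.ev
  have par := nd.p1
  obtain ⟨b1, b2, b3⟩ := F.cr_tt p' i0 i1 p0 a3 a4 nd.xz cf
  have ps := (p0.or p').resolve_left fun z => b3 z.2
  obtain ⟨r1, r2, r3, r4, r5, r6, r7, r8, ps'⟩ := ps.ar q0 qn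
  rw [F.cit] at ms w
  rw [F.cit, F.itf, F.cif, F.itt, show i2 - (m + 1 : ℕ) = i2 - m - 1 by omega,
    show j2 + (m + 1 : ℕ) = j2 + m + 1 by omega]
  have ne : f true j2 ≠ f false i2 := fun z => w.ne (by rw [z])
  have t1 := F.short_t p0 a1 a2 (by omega) (by omega) ne w.mt
  have t2 := F.short_f p' i0 i1 (by omega) (by omega) ne.symm w.mt.symm
  have ob : e ≤ j2 + 1 + m ∨ i2 - m ≤ s' := by
    have : ∀ M, M = P ∨ M = R → On x M (f true j2) (f false i2) →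
        e ≤ j2 + 1 + m ∨ i2 - m ≤ s' := fun M hM o => by
      obtain ⟨r, m, y⟩ := F.on_nf hM p0 a1 a2 p' i0 i1 ne o
      have := w.le m
      simp only [if_true, Bool.false_eq_true, if_false] at y
      omega
    exact ms.elim (this _ (Or.inl rfl)) (this _ (Or.inr rfl))
  have nb : ¬ (e ≤ j2 + 1 + m ∧ i2 - m ≤ s') := fun y => by
    have an : Ant W (j2 + 1) (j2 + 1 + m) (i2 - s' + e + j2) := by
      rcases r4 with r4 | r4
      · exact (F.mtf w.mt).mono le_rfl le_rfl (by omega)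
      · intro t k1 k2
        rw [← F.mtf w.mt t k1 k2, ← F.al.per (i2 + j2 - t)]
        congr 1
        omega
    have := F.al.mid an (by omega)
    omega
  have fin := fun L3 : StL3m G => fun i3 j3 k3 s3 e3 s4 e4 => L3 W n Q i j k l p q s e s' e' i2 j2 k2 m
    i3 j3 k3 s3 e3 s4 e4 (fun s t z => F.par hc (by rw [F.clt, F.clt, z])) F.al lf ps jk i0 i1 nd b1 b2 (F.mft w.mt)
  by_cases y : e ≤ j2 + 1 + m
  · exact ⟨W, Q, f, J, _, _, s', e', s, e, F, rfl, F.shift ps _ _, p', ps', by omega, by omega,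
      by omega, by omega, fun L3 k3 => fin L3 _ _ k3 _ _ _ _ (Or.inl ⟨rfl, rfl, rfl, rfl, rfl, rfl⟩)
        (by omega) (by omega) (by omega) (by omega)⟩
  · exact ⟨W, Q, f, J, i2 - m - 1 - s' + e, _, s, e, s', e', F,
      by rw [F.shift ps _ (i2 - m - 1 - s' + e)]; congr 1; omega, rfl, p0, ps, by omega, by omega,
      by omega, by omega, fun L3 k3 => fin L3 _ _ k3 _ _ _ _ (Or.inr ⟨rfl, rfl, rfl, rfl, rfl, rfl⟩)
        (by omega) (by omega) (by omega) (by omega)⟩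

theorem rule3m (hc : Cy H x) (hX : Ex H x P R) (L3 : StL3m G) {c d e : Bool × ZMod n}
    (h : Tr H x c d e) (z : Z2 H x P R c d) (k : (Cr x P R d e ∧
      (Mk x P R (ci e) (ci c) ∨ (pt P R e ↔ pt P R c) ∨ (pt P R e ↔ pt P R d))) ∨ Cr x P R (ci e) (ci c) ∨
      (Mk x P R d e ∧ Mk x P R (ci e) (ci c) ∧ ((pt P R e ↔ pt P R c) ∨ (pt P R e ↔ pt P R d)))) :
    False := by
  obtain ⟨W, Q, f, J, j3, i3, s3, e3, s4, e4, F, rfl, rfl, p, ps, a1, a2, a3, a4, fin⟩ := z2Zm hc hX z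
  obtain ⟨k3, s, e, rfl, p', b1, b2⟩ := F.crd h.s2
  have nd := F.nd hc h
  have q0 := F.al.q0
  have qn := F.al.qn
  have pp : (s = s3 ∧ e = e3) ∨ (s = s4 ∧ e = e4 ∧ s ≠ s3 ∧ e ≠ e3) := by
    rcases p' with ⟨_, _⟩ | ⟨_, _⟩ <;> rcases ps with ⟨_, _, _, _⟩ | ⟨_, _, _, _⟩ <;> omega
  rw [F.cit, F.cit] at k
  refine fin L3 k3 nd ?_
  rcases k with ⟨k, k2⟩ | k | ⟨k1, k2, k⟩
  · obtain ⟨u1, u2, u3⟩ := F.cr_tt p a3 a4 p' b1 b2 nd.xz k
    obtain ⟨rfl, rfl, u4, -⟩ := pp.resolve_left fun z => u3 z.2.symm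
    exact Or.inr ⟨b1, b2, Or.inr ⟨u1, u2, F.mk_ff p a1 a2 p' b1 b2 nd.yz (k2.resolve_right fun k =>
      u4 (k.elim (F.pt_iff p' b1 b2 p a1 a2).1 (F.pt_iff p' b1 b2 p a3 a4).1)).symm⟩⟩
  · obtain ⟨u1, u2, u3⟩ := F.cr_ff p a1 a2 p' b1 b2 nd.yz k.symm
    obtain ⟨rfl, rfl, -⟩ := pp.resolve_left fun z => u3 z.1.symm
    exact Or.inr ⟨b1, b2, Or.inl ⟨u1, u2⟩⟩
  · obtain ⟨rfl, rfl⟩ := pp.resolve_right fun z => z.2.2.1
      (k.elim (F.pt_iff p' b1 b2 p a1 a2).1 (F.pt_iff p' b1 b2 p a3 a4).1)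
    exact Or.inl ⟨b1, b2, F.mk_ff p a1 a2 p b1 b2 nd.yz k2.symm, F.mk_tt p a3 a4 p b1 b2 nd.xz k1⟩

theorem tri_rulem (hc : Cy H x) (hX : Ex H x P R) (L1 : StL1 G) (L3 : StL3m G)
    {c d e : Bool × ZMod n} (h : Tr H x c d e) (mf : Mk x P R d e) (mb : Mk x P R (ci e) (ci c))
    (k1 : Cr x P R c (ci d) ∨ Tk H x P R c (ci d))
    (k2 : Cr x P R (ci e) (ci c) ∨ Tk H x P R (ci e) (ci c))
    (k3 : ∀ L, Wh H x d e L → Tk H x P R (ci (cn^[L + 1] e)) (ci (cn^[L + 1] d)) →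
      Tk H x P R d e) [NeZero n] : False := by
  have sf : d.1 = e.1 := h.s1.trans h.s2.symm
  have zb : Tk H x P R (ci e) (ci c) → Zt H x P R c e := fun k => by
    simpa using (k.par (by simp [h.s2])).symm
  rcases k1 with k1 | k1
  · rcases k2 with k2 | k2
    · by_cases cf : Cr x P R d e
      · exact no_chain hc hX h cf k2 (Or.inl k1.1)
      have ne : cl x d ≠ cl x e := fun z => (cl_ne hc c).1 (by simpa [z] using h.rel)
      obtain ⟨L, l1, l2⟩ := ex_len hc h.f2 fun z => ne (by rw [z])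
      have w : Wh H x d e L := ⟨h.f2, ne, l1, l2⟩
      have := (k3 L w (Or.inl ⟨c, d, e, L, ⟨h, k1, k2, mf, cf⟩, w, Or.inr (by simp)⟩)).par sf
      exact rule1 hc hX L1 h.rev this (by simpa using k1.symm) mb.symm
    · exact rule1 hc hX L1 h (zb k2) k1 mf
  · have k : Cr x P R (ci e) (ci c) ∨ (pt P R e ↔ pt P R c) :=
      k2.imp_right fun k => ((zb k).pt hc hX).symm
    rcases k1.ant h.s1.symm with z | z
    · exact rule3m hc hX L3 h z (Or.inr (k.imp_right fun k => ⟨mf, mb, Or.inl k⟩))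
    · have mf' : Mk x P R (ci (ci e)) (ci (ci d)) := by simpa using mf.symm
      exact rule3m hc hX L3 h.rev z
        (k.imp (fun k => ⟨k.symm, Or.inl mf'⟩) fun k => Or.inr ⟨mb.symm, mf', Or.inr k⟩)

theorem tri_rulem' (hc : Cy H x) (hX : Ex H x P R) (L1 : StL1 G) (L3 : StL3m G)
    {c d e : Bool × ZMod n} (h : Tr H x c d e) (ms : Mk x P R c (ci d))
    (cf : Cr x P R d e) (z : Zt H x P R c e)
    (k3 : ∀ L, Wh H x c (ci d) L → Tk H x P R (ci (cn^[L + 1] (ci d))) (ci (cn^[L + 1] c)) →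
      Tk H x P R c (ci d)) [NeZero n] : False := by
  have ne : cl x c ≠ cl x (ci d) := fun z => (cl_ne hc e).1 (by simpa [z] using h.rel.symm)
  have f : fac H (cl x c) = fac H (cl x (ci d)) := by simpa [fac_inv] using h.f1
  obtain ⟨L, l1, l2⟩ := ex_len hc f fun z => ne (by rw [← z])
  have w : Wh H x c (ci d) L := ⟨f, ne, l1, l2⟩
  have := k3 L w (Or.inr (Or.inl ⟨c, d, e, L, h, z, cf, ms,
    fun cs => rule1 hc hX L1 h z cs (Or.inl cf.1), w, rfl, by simp⟩))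
  rcases this.ant h.s1.symm with y | y
  · exact rule3m hc hX L3 h y (Or.inl ⟨cf, Or.inr (Or.inl (z.pt hc hX).symm)⟩)
  · exact rule3m hc hX L3 h.rev y (Or.inr (Or.inl (by simpa using cf.symm)))

/-- rule H -/
theorem ruleH2 (hF : FP H) (L1 : StL1 G) (L2 : StL2 G) (L3 : StL3m G) : RuleH H := by
  intro n _ x P Q hc a1 n1 a2 n2
  have hX : Ex H x P (P + Q) := ex_frm a1 n1 a2 n2
  refine charge3 hF hc (unb_of hc a1) (unb_of hc a2) (Tk H x P (P + Q)) ?_ ?_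
  · rintro b b' cr (⟨c, d, e, L, lf, w, z⟩ | ⟨c, d, e, m, -, -, -, -, nc, w, z, z'⟩ |
      ⟨c, d, e, m, -, -, -, -, nc, w, z, z'⟩)
    · refine lf.nf (w.cr_far hc ?_)
      rcases z with ⟨z, z'⟩ | ⟨z, z'⟩ <;> rw [← z, ← z', ci_ci, ci_ci]
      exacts [cr, cr.symm]
    · exact nc (w.cr_far hc (by rw [← z, ← z', ci_ci]; exact cr.symm))
    · exact nc (w.cr_far hc (by rw [← z, ← z', ci_ci]; exact cr))
  · intro c d e f1 f2 h m1 m2 m3 k1 k2 k3
    have rot : ∀ {c d e : Bool × ZMod n}, cl x c * cl x d * cl x e = 1 →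
        cl x d * cl x e * cl x c = 1 := fun h => by
      rw [mul_assoc] at h; exact mul_eq_one_comm.1 h
    have tr : ∀ {c d e : Bool × ZMod n}, fac H (cl x c) = fac H (cl x d) →
        fac H (cl x d) = fac H (cl x e) → cl x c * cl x d * cl x e = 1 → d.1 = c.1 → e.1 ≠ c.1 →
        Tr H x c d (ci e) := fun f1 f2 h s1 s2 =>
      ⟨s1, by simpa using (Bool.not_eq.2 s2), f1, by simpa [fac_inv] using f2,
        by rw [cl_ci]; exact eq_inv_of_mul_eq_one_left h⟩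
    by_cases s1 : d.1 = c.1 <;> by_cases s2 : e.1 = c.1
    · exact ppp3 hc hX f1 f2 s1 s2 h m1 m2 m3 k1 k2
    · refine tri_rulem hc hX L1 L3 (tr f1 f2 h s1 s2).rev (by simpa using m3.symm)
        (by simpa using m2.symm) (by simpa using k1.imp Cr.symm Tk.symm)
        (by simpa using k2.imp Cr.symm Tk.symm) fun L w t => ?_
      rw [ci_ci] at w t ⊢
      exact (k3 L w.symm t.symm).symm
    · have t := tr (f1.trans f2).symm f1 (rot (rot h)) s2.symm (s2 ▸ s1)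
      rcases k1 with k1 | k1 <;> rcases k2 with k2 | k2
      · exact no_chain hc hX t k1 (by simpa using k2) m3
      · exact tri_rulem' hc hX L1 L3 t m3 k1 (by simpa using (k2.par (by
          simpa [s2] using (Bool.not_eq.2 s1))).symm) k3
      · refine tri_rulem' hc hX L1 L3 t.rev (by simpa using m3.symm) (by simpa using k2.symm)
          (k1.par (t.s1.trans t.s2.symm)) fun L w t => ?_
        rw [ci_ci] at w t ⊢
        exact (k3 L w.symm t.symm).symm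
      · exact rule2 hc hX L2 t (by simpa using (k2.par (by
          simpa [s2] using (Bool.not_eq.2 s1))).symm) (k1.par (t.s1.trans t.s2.symm)) m3
    · exact tri_rulem hc hX L1 L3 (tr f2 (f1.trans f2).symm (rot h)
        (by revert s1 s2; cases c.1 <;> cases d.1 <;> cases e.1 <;> simp) (Ne.symm s1)) m3
        (by simpa using m1) k2 (by simpa using k1) k3

end Pool.Agent.MP_a38735_al
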