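import Pool.Agent.MP_a38735_al.RuleH
import Pool.Agent.MP_a38735_al.StL3e

set_option autoImplicit false
set_option linter.unusedSectionVars false

namespace Pool.Agent.MP_a38735_al

open WL

variable {G : Type*} [Group G] {H : Bool → Subgroup G} {n : ℕ}
variable {x : ZMod n → G} {P R : ZMod n}

namespace Frm

variable {W : ℤ → G} {Q : ℤ} {f : Bool → ℤ → Bool × ZMod n} {J : ℤ → ZMod n}
  (F : Frm x P R W Q f J) (hc : Cy H x)
include F hc

theorem lfz {c : Bool × ZMod n} {i k : ℤ} (lf : Lf H x P R c (f true i) (f true k)) (i0 : 0 ≤ i)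
    (i1 : i < n) (k0 : 0 ≤ k) (k1 : k < n) : ∃ j s e s' e', Glf W n Q j i k s e s' e' ∧
      Par W s j (k - j) ∧ Par W s' k (j - k) := by
  have h := lf.tr
  obtain ⟨j, s, e, rfl, p, j0, j1⟩ := F.crd h.s1.symm
  obtain ⟨s1, e1, p1, a1, a2⟩ := pt_ex (Q := Q) i0 i1
  obtain ⟨s', e', p', a3, a4⟩ := pt_ex (Q := Q) k0 k1
  have nd := F.nd hc h
  have cs := lf.cs
  have cb := lf.cb
  rw [F.cit] at cs
  rw [F.cit, F.cit] at cb
  obtain ⟨u1, u2, u3⟩ := F.cr_ff p j0 j1 p' a3 a4 nd.yz cb.symm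
  obtain ⟨b1, b2, rfl, rfl⟩ := F.cr_tf p j0 j1 p1 a1 a2 nd.yx cs
  exact ⟨j, _, _, s', e', ⟨(p.or p').resolve_left fun z => u3 z.1.symm,
    ⟨a1, F.le_of nd.p1 j0 a2 (Or.inl b1), j1, a3, a4⟩, nd, b2, b1⟩, u1, u2⟩

theorem zf {a b : ℤ} (a0 : Q ≤ a) (a1 : a < n) (b0 : Q ≤ b) (b1 : b < n)
    (z : Zt H x P R (f true a) (f true b)) : ZF W n Q a b := by
  have q0 := F.al.q0
  have p1 : Pt n Q Q n := Or.inr ⟨rfl, rfl⟩
  have key : ∀ {a b : ℤ} {c d e : Bool × ZMod n} {l : ℕ}, Q ≤ a → a < n → Q ≤ b → b < n →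
      Lf H x P R c d e → Wh H x d e l → f true a = cn^[l + 1] d → f true b = cn^[l + 1] e →
      ∃ j s e s' e', Glf W n Q j (a - 1 - l) (b - 1 - l) s e s' e' ∧ Par W s j (b - 1 - l - j) ∧
        Par W s' (b - 1 - l) (j - (b - 1 - l)) ∧
        Par W (a - 1 - l + 1) (a - 1 - l + 1 + l) (b - 1 - l - (a - 1 - l)) := by
    intro a b c d e l a0 a1 b0 b1 lf w y1 y2
    have w' := w.rev hc
    have u := far_far d (l + 1)
    have v := far_far e (l + 1)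
    rw [← y1, F.cit] at u w'
    rw [← y2, F.cit] at v w'
    have e1 : ∀ t : ℤ, t - (l + 1 : ℕ) = t - 1 - l := fun t => by omega
    rw [F.itf, e1] at u v
    obtain rfl : d = f true (a - 1 - l) := by rw [← ci_ci d, ← u, F.cif]
    obtain rfl : e = f true (b - 1 - l) := by rw [← ci_ci e, ← v, F.cif]
    have ne : f false a ≠ f false b := fun z => w'.ne (by rw [z])
    have t1 := F.short_f p1 a0 a1 (by omega) b1 ne w'.mt
    have t2 := F.short_f p1 b0 b1 (by omega) a1 ne.symm w'.mt.symm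
    obtain ⟨j, s, e, s', e', g, u1, u2⟩ := F.lfz hc lf (by omega) (by omega) (by omega) (by omega)
    exact ⟨j, s, e, s', e', g, u1, u2, F.mtt w.mt⟩
  obtain ⟨c, d, e, l, lf, w, ⟨y1, y2⟩ | ⟨y1, y2⟩⟩ := z
  · obtain ⟨j, s, e, s', e', g, u1, u2, u3⟩ := key a0 a1 b0 b1 lf w y1 y2
    exact ⟨j, _, _, l, s, e, s', e', g, u1, u2, by omega, u3, Or.inl (by omega)⟩
  · obtain ⟨j, s, e, s', e', g, u1, u2, u3⟩ := key b0 b1 a0 a1 lf w y2 y1
    exact ⟨j, _, _, l, s, e, s', e', g, u1, u2, by omega, u3, Or.inr (by omega)⟩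

theorem lfb {c d e : Bool × ZMod n} (lf : Lf H x P R c d e) {j k s3 e3 s4 e4 : ℤ}
    (y1 : ci d = f true j) (y2 : ci e = f true k) (p3 : Pt n Q s3 e3) (b1 : s3 ≤ j) (b2 : j < e3)
    (p4 : Pt n Q s4 e4) (b3 : s4 ≤ k) (b4 : k < e4) : e3 ≠ e4 ∧ ∃ i,
      Glf W n Q j i k s3 e3 s4 e4 ∧ Par W (i + 1) e3 (k - i) ∧ Par W (k + 1) e4 (i - k) := by
  have t := lf.tr.rev
  have cs := lf.cs.symm
  have cb := lf.cb.symm
  rw [y1, y2] at t
  obtain ⟨i3, s5, e5, y3, p5, b5, b6⟩ := F.crd t.s1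
  rw [y1, ← ci_ci c, y3, F.cit] at cs
  rw [y2, y3] at cb
  rw [y3] at t
  have nd := F.nd hc t
  obtain ⟨u1, u2, rfl, rfl⟩ := F.cr_tf p3 b1 b2 p5 b5 b6 nd.yx cs
  obtain ⟨v1, v2, v3⟩ := F.cr_tt p3 b5 b6 p4 b3 b4 nd.xz cb
  exact ⟨v3, i3, ⟨(p3.or p4).resolve_left fun z => v3 z.2.symm,
    ⟨b5, F.le_of nd.p1 b1 b6 (Or.inl u1), b2, b3, b4⟩, nd, u2, u1⟩, v1, v2⟩

theorem zb {a b : ℤ} (a0 : Q ≤ a) (a1 : a < n) (b0 : Q ≤ b) (b1 : b < n)
    (z : Zt H x P R (ci (f true a)) (ci (f true b))) : ZB W n Q a b := by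
  have q0 := F.al.q0
  have p0 : Pt n Q 0 Q := Or.inl ⟨rfl, rfl⟩
  have p1 : Pt n Q Q n := Or.inr ⟨rfl, rfl⟩
  obtain ⟨c', d', g', l, lf, w, zz⟩ := z
  have zz' : Wh H x (f true a) (f true b) l ∧
      ((ci d' = f true (a + 1 + l) ∧ ci g' = f true (b + 1 + l)) ∨
        (ci d' = f true (b + 1 + l) ∧ ci g' = f true (a + 1 + l))) := by
    have w' := w.rev hc
    have u := far_far d' (l + 1)
    have v := far_far g' (l + 1)
    have e1 : ∀ t : ℤ, t + (l + 1 : ℕ) = t + 1 + l := fun t => by omega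
    rcases zz with ⟨y1, y2⟩ | ⟨y1, y2⟩
    · rw [← y1, ci_ci] at u w'
      rw [← y2, ci_ci] at v w'
      rw [F.itt, e1] at u v
      exact ⟨w', Or.inl ⟨u.symm, v.symm⟩⟩
    · rw [← y1, ci_ci] at v w'
      rw [← y2, ci_ci] at u w'
      rw [F.itt, e1] at u v
      exact ⟨w'.symm, Or.inr ⟨u.symm, v.symm⟩⟩
  obtain ⟨w', zz'⟩ := zz'
  have ne : f true a ≠ f true b := fun z => w'.ne (by rw [z])
  have t1 := F.short_t p1 a0 a1 (by omega) b1 ne w'.mt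
  have t2 := F.short_t p1 b0 b1 (by omega) a1 ne.symm w'.mt.symm
  have mt := F.mtt w'.mt
  have sh : ∀ t, f true t = f true (t - n) := fun t => by rw [← F.per true (t - n), sub_add_cancel]
  by_cases c1 : a + 1 + l < n <;> by_cases c2 : b + 1 + l < n
  · rcases zz' with ⟨y1, y2⟩ | ⟨y1, y2⟩ <;>
      exact ((F.lfb hc lf y1 y2 p1 (by omega) (by omega) p1 (by omega) (by omega)).1 rfl).elim
  · rw [sh (b + 1 + l)] at zz'
    rcases zz' with ⟨y1, y2⟩ | ⟨y1, y2⟩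
    · obtain ⟨-, i, g, u1, u2⟩ := F.lfb hc lf y1 y2 p1 (by omega) (by omega) p0 (by omega) (by omega)
      exact ⟨_, i, _, l, _, _, _, _, _, _, g, u1, u2, by omega, mt, Or.inl ⟨rfl, rfl⟩,
        Or.inl ⟨rfl, rfl⟩⟩
    · obtain ⟨-, i, g, u1, u2⟩ := F.lfb hc lf y1 y2 p0 (by omega) (by omega) p1 (by omega) (by omega)
      exact ⟨_, i, _, l, _, _, _, _, _, _, g, u1, u2, by omega, mt, Or.inl ⟨rfl, rfl⟩,
        Or.inr ⟨rfl, rfl⟩⟩
  · rw [sh (a + 1 + l)] at zz'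
    rcases zz' with ⟨y1, y2⟩ | ⟨y1, y2⟩
    · obtain ⟨-, i, g, u1, u2⟩ := F.lfb hc lf y1 y2 p0 (by omega) (by omega) p1 (by omega) (by omega)
      exact ⟨_, i, _, l, _, _, _, _, _, _, g, u1, u2, by omega, mt, Or.inr ⟨rfl, rfl⟩,
        Or.inl ⟨rfl, rfl⟩⟩
    · obtain ⟨-, i, g, u1, u2⟩ := F.lfb hc lf y1 y2 p1 (by omega) (by omega) p0 (by omega) (by omega)
      exact ⟨_, i, _, l, _, _, _, _, _, _, g, u1, u2, by omega, mt, Or.inr ⟨rfl, rfl⟩,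
        Or.inr ⟨rfl, rfl⟩⟩
  · rw [sh (a + 1 + l), sh (b + 1 + l)] at zz'
    rcases zz' with ⟨y1, y2⟩ | ⟨y1, y2⟩ <;>
      exact ((F.lfb hc lf y1 y2 p0 (by omega) (by omega) p0 (by omega) (by omega)).1 rfl).elim

end Frm

theorem z2Zz (hc : Cy H x) (hX : Ex H x P R) {a a' : Bool × ZMod n} (h : Z2 H x P R a a') :
    ∃ W Q f J j3 i3 s3 e3 s4 e4, Frm x P R W Q f J ∧ a = f true j3 ∧ a' = f true i3 ∧
      Pt n Q s3 e3 ∧ Pts n Q s3 e3 s4 e4 ∧ s3 ≤ j3 ∧ j3 < e3 ∧ s3 ≤ i3 ∧ i3 < e3 ∧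
      (StL3z G → ∀ k3, Nd W j3 i3 k3 →
        ((s3 ≤ k3 ∧ k3 < e3 ∧ (Par W s3 j3 (k3 - j3) ∨ Par W s3 k3 (j3 - k3)) ∧
          (Par W (i3 + 1) e3 (k3 - i3) ∨ Par W (k3 + 1) e3 (i3 - k3)) ∧
          (s3 = Q → ZF W n Q j3 k3 ∨ ZB W n Q i3 k3)) ∨
        (s4 ≤ k3 ∧ k3 < e4 ∧ ((Par W s3 j3 (k3 - j3) ∧ Par W s4 k3 (j3 - k3)) ∨
          (Par W (i3 + 1) e3 (k3 - i3) ∧ Par W (k3 + 1) e4 (i3 - k3) ∧
            (Par W s3 j3 (k3 - j3) ∨ Par W s4 k3 (j3 - k3)))))) → False) := by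
  obtain ⟨c, d, e, m, h, z, cf, ms, -, w, rfl, rfl⟩ := h
  obtain ⟨W, Q, f, J, i, j, k, l, p, q, s, e, j2, k2, F, lf, p0, rfl, rfl, jk, a1, a2, a3, a4⟩ :=
    leafZ hc hX z
  obtain ⟨i2, s', e', rfl, p', i0, i1⟩ := F.crd h.s1
  have nd := F.nd hc h
  have q0 := F.al.q0
  have qn := F.al.qn
  have ev := F.al.ev
  have par := nd.p1
  obtain ⟨b1, b2, b3⟩ := F.cr_tt p' i0 i1 p0 a3 a4 nd.xz cf
  have ps := (p0.or p').resolve_left fun z => b3 z.2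
  obtain ⟨r1, r2, r3, r4, r5, r6, r7, r8, ps'⟩ := ps.ar q0 qn
  rw [F.cit] at ms w
  rw [F.cit, F.itf, F.cif, F.itt, show i2 - (m + 1 : ℕ) = i2 - m - 1 by omega,
    show j2 + (m + 1 : ℕ) = j2 + m + 1 by omega]
  have ne : f true j2 ≠ f false i2 := fun z => w.ne (by rw [z])
  have t1 := F.short_t p0 a1 a2 (by omega) (by omega) ne w.mt
  have t2 := F.short_f p' i0 i1 (by omega) (by omega) ne.symm w.mt.symm
  have ob : e ≤ j2 + 1 + m ∨ i2 - m ≤ s' := by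
    have : ∀ M, M = P ∨ M = R → On x M (f true j2) (f false i2) →
        e ≤ j2 + 1 + m ∨ i2 - m ≤ s' := fun M hM o => by
      obtain ⟨r, m, y⟩ := F.on_nf hM p0 a1 a2 p' i0 i1 ne o
      have := w.le m
      simp only [if_true, Bool.false_eq_true, if_false] at y
      omega
    exact ms.elim (this _ (Or.inl rfl)) (this _ (Or.inr rfl))
  have nb : ¬ (e ≤ j2 + 1 + m ∧ i2 - m ≤ s') := fun y => by
    have an : Ant W (j2 + 1) (j2 + 1 + m) (i2 - s' + e + j2) := by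
      rcases r4 with r4 | r4
      · exact (F.mtf w.mt).mono le_rfl le_rfl (by omega)
      · intro t k1 k2
        rw [← F.mtf w.mt t k1 k2, ← F.al.per (i2 + j2 - t)]
        congr 1
        omega
    have := F.al.mid an (by omega)
    omega
  have fin := fun L3 : StL3z G => fun i3 j3 k3 s3 e3 s4 e4 => L3 W n Q i j k l p q s e s' e' i2 j2 k2 m
    i3 j3 k3 s3 e3 s4 e4 (fun s t z => F.par hc (by rw [F.clt, F.clt, z])) F.al lf ps jk i0 i1 nd b1 b2 (F.mft w.mt)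
  by_cases y : e ≤ j2 + 1 + m
  · exact ⟨W, Q, f, J, _, _, s', e', s, e, F, rfl, F.shift ps _ _, p', ps', by omega, by omega,
      by omega, by omega, fun L3 k3 => fin L3 _ _ k3 _ _ _ _ (Or.inl ⟨rfl, rfl, rfl, rfl, rfl, rfl⟩)
        (by omega) (by omega) (by omega) (by omega)⟩
  · exact ⟨W, Q, f, J, i2 - m - 1 - s' + e, _, s, e, s', e', F,
      by rw [F.shift ps _ (i2 - m - 1 - s' + e)]; congr 1; omega, rfl, p0, ps, by omega, by omega,
      by omega, by omega, fun L3 k3 => fin L3 _ _ k3 _ _ _ _ (Or.inr ⟨rfl, rfl, rfl, rfl, rfl, rfl⟩)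
        (by omega) (by omega) (by omega) (by omega)⟩

theorem rule3z (hc : Cy H x) (hX : Ex H x P R) (L3 : StL3z G) {c d e : Bool × ZMod n}
    (h : Tr H x c d e) (z : Z2 H x P R c d) (k : (Cr x P R d e ∧
      (Mk x P R (ci e) (ci c) ∨ (pt P R e ↔ pt P R c) ∨ (pt P R e ↔ pt P R d))) ∨ Cr x P R (ci e) (ci c) ∨
      (Mk x P R d e ∧ Mk x P R (ci e) (ci c) ∧ (Zt H x P R c e ∨ Zt H x P R (ci d) (ci e)))) :
    False := by
  obtain ⟨W, Q, f, J, j3, i3, s3, e3, s4, e4, F, rfl, rfl, p, ps, a1, a2, a3, a4, fin⟩ := z2Zz hc hX z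
  obtain ⟨k3, s, e, rfl, p', b1, b2⟩ := F.crd h.s2
  have nd := F.nd hc h
  have q0 := F.al.q0
  have qn := F.al.qn
  have pp : (s = s3 ∧ e = e3) ∨ (s = s4 ∧ e = e4 ∧ s ≠ s3 ∧ e ≠ e3) := by
    rcases p' with ⟨_, _⟩ | ⟨_, _⟩ <;> rcases ps with ⟨_, _, _, _⟩ | ⟨_, _, _, _⟩ <;> omega
  rw [F.cit k3, F.cit j3, F.cit i3] at k
  refine fin L3 k3 nd ?_
  rcases k with ⟨k, k2⟩ | k | ⟨k1, k2, k⟩
  · obtain ⟨u1, u2, u3⟩ := F.cr_tt p a3 a4 p' b1 b2 nd.xz k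
    obtain ⟨rfl, rfl, u4, -⟩ := pp.resolve_left fun z => u3 z.2.symm
    exact Or.inr ⟨b1, b2, Or.inr ⟨u1, u2, F.mk_ff p a1 a2 p' b1 b2 nd.yz (k2.resolve_right fun k =>
      u4 (k.elim (F.pt_iff p' b1 b2 p a1 a2).1 (F.pt_iff p' b1 b2 p a3 a4).1)).symm⟩⟩
  · obtain ⟨u1, u2, u3⟩ := F.cr_ff p a1 a2 p' b1 b2 nd.yz k.symm
    obtain ⟨rfl, rfl, -⟩ := pp.resolve_left fun z => u3 z.1.symm
    exact Or.inr ⟨b1, b2, Or.inl ⟨u1, u2⟩⟩
  · rw [← F.cit k3, ← F.cit i3] at k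
    obtain ⟨rfl, rfl⟩ := pp.resolve_right fun z => z.2.2.1
      (k.elim (fun k => (F.pt_iff p' b1 b2 p a1 a2).1 (k.pt hc hX).symm)
        fun k => (F.pt_iff p' b1 b2 p a3 a4).1 (k.pt hc hX).symm)
    refine Or.inl ⟨b1, b2, F.mk_ff p a1 a2 p b1 b2 nd.yz k2.symm, F.mk_tt p a3 a4 p b1 b2 nd.xz k1,
      fun z => ?_⟩
    obtain rfl : e = n := by rcases p with ⟨_, _⟩ | ⟨_, _⟩ <;> omega
    subst z
    exact k.imp (F.zf hc a1 a2 b1 b2) (F.zb hc a3 a4 b1 b2)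

theorem tri_rulez (hc : Cy H x) (hX : Ex H x P R) (L1 : StL1 G) (L3 : StL3z G)
    {c d e : Bool × ZMod n} (h : Tr H x c d e) (mf : Mk x P R d e) (mb : Mk x P R (ci e) (ci c))
    (k1 : Cr x P R c (ci d) ∨ Tk H x P R c (ci d))
    (k2 : Cr x P R (ci e) (ci c) ∨ Tk H x P R (ci e) (ci c))
    (k3 : ∀ L, Wh H x d e L → Tk H x P R (ci (cn^[L + 1] e)) (ci (cn^[L + 1] d)) →
      Tk H x P R d e) [NeZero n] : False := by
  have sf : d.1 = e.1 := h.s1.trans h.s2.symm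
  have zb : Tk H x P R (ci e) (ci c) → Zt H x P R c e := fun k => by
    simpa using (k.par (by simp [h.s2])).symm
  rcases k1 with k1 | k1
  · rcases k2 with k2 | k2
    · by_cases cf : Cr x P R d e
      · exact no_chain hc hX h cf k2 (Or.inl k1.1)
      have ne : cl x d ≠ cl x e := fun z => (cl_ne hc c).1 (by simpa [z] using h.rel)
      obtain ⟨L, l1, l2⟩ := ex_len hc h.f2 fun z => ne (by rw [z])
      have w : Wh H x d e L := ⟨h.f2, ne, l1, l2⟩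
      have := (k3 L w (Or.inl ⟨c, d, e, L, ⟨h, k1, k2, mf, cf⟩, w, Or.inr (by simp)⟩)).par sf
      exact rule1 hc hX L1 h.rev this (by simpa using k1.symm) mb.symm
    · exact rule1 hc hX L1 h (zb k2) k1 mf
  · have k : Cr x P R (ci e) (ci c) ∨ Zt H x P R c e := k2.imp_right zb
    rcases k1.ant h.s1.symm with z | z
    · exact rule3z hc hX L3 h z (Or.inr (k.imp_right fun k => ⟨mf, mb, Or.inl k⟩))
    · have mf' : Mk x P R (ci (ci e)) (ci (ci d)) := by simpa using mf.symm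
      exact rule3z hc hX L3 h.rev z
        (k.imp (fun k => ⟨k.symm, Or.inl mf'⟩) fun k => Or.inr ⟨mb.symm, mf', Or.inr (by simpa using k)⟩)

theorem tri_rulez' (hc : Cy H x) (hX : Ex H x P R) (L1 : StL1 G) (L3 : StL3z G)
    {c d e : Bool × ZMod n} (h : Tr H x c d e) (ms : Mk x P R c (ci d))
    (cf : Cr x P R d e) (z : Zt H x P R c e)
    (k3 : ∀ L, Wh H x c (ci d) L → Tk H x P R (ci (cn^[L + 1] (ci d))) (ci (cn^[L + 1] c)) →
      Tk H x P R c (ci d)) [NeZero n] : False := by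
  have ne : cl x c ≠ cl x (ci d) := fun z => (cl_ne hc e).1 (by simpa [z] using h.rel.symm)
  have f : fac H (cl x c) = fac H (cl x (ci d)) := by simpa [fac_inv] using h.f1
  obtain ⟨L, l1, l2⟩ := ex_len hc f fun z => ne (by rw [← z])
  have w : Wh H x c (ci d) L := ⟨f, ne, l1, l2⟩
  have := k3 L w (Or.inr (Or.inl ⟨c, d, e, L, h, z, cf, ms,
    fun cs => rule1 hc hX L1 h z cs (Or.inl cf.1), w, rfl, by simp⟩))
  rcases this.ant h.s1.symm with y | y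
  · exact rule3z hc hX L3 h y (Or.inl ⟨cf, Or.inr (Or.inl (z.pt hc hX).symm)⟩)
  · exact rule3z hc hX L3 h.rev y (Or.inr (Or.inl (by simpa using cf.symm)))

/-- rule H -/
theorem ruleH3 (hF : FP H) (L1 : StL1 G) (L2 : StL2 G) (L3 : StL3z G) : RuleH H := by
  intro n _ x P Q hc a1 n1 a2 n2
  have hX : Ex H x P (P + Q) := ex_frm a1 n1 a2 n2
  refine charge3 hF hc (unb_of hc a1) (unb_of hc a2) (Tk H x P (P + Q)) ?_ ?_
  · rintro b b' cr (⟨c, d, e, L, lf, w, z⟩ | ⟨c, d, e, m, -, -, -, -, nc, w, z, z'⟩ |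
      ⟨c, d, e, m, -, -, -, -, nc, w, z, z'⟩)
    · refine lf.nf (w.cr_far hc ?_)
      rcases z with ⟨z, z'⟩ | ⟨z, z'⟩ <;> rw [← z, ← z', ci_ci, ci_ci]
      exacts [cr, cr.symm]
    · exact nc (w.cr_far hc (by rw [← z, ← z', ci_ci]; exact cr.symm))
    · exact nc (w.cr_far hc (by rw [← z, ← z', ci_ci]; exact cr))
  · intro c d e f1 f2 h m1 m2 m3 k1 k2 k3
    have rot : ∀ {c d e : Bool × ZMod n}, cl x c * cl x d * cl x e = 1 →
        cl x d * cl x e * cl x c = 1 := fun h => by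
      rw [mul_assoc] at h; exact mul_eq_one_comm.1 h
    have tr : ∀ {c d e : Bool × ZMod n}, fac H (cl x c) = fac H (cl x d) →
        fac H (cl x d) = fac H (cl x e) → cl x c * cl x d * cl x e = 1 → d.1 = c.1 → e.1 ≠ c.1 →
        Tr H x c d (ci e) := fun f1 f2 h s1 s2 =>
      ⟨s1, by simpa using (Bool.not_eq.2 s2), f1, by simpa [fac_inv] using f2,
        by rw [cl_ci]; exact eq_inv_of_mul_eq_one_left h⟩
    by_cases s1 : d.1 = c.1 <;> by_cases s2 : e.1 = c.1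
    · exact ppp3 hc hX f1 f2 s1 s2 h m1 m2 m3 k1 k2
    · refine tri_rulez hc hX L1 L3 (tr f1 f2 h s1 s2).rev (by simpa using m3.symm)
        (by simpa using m2.symm) (by simpa using k1.imp Cr.symm Tk.symm)
        (by simpa using k2.imp Cr.symm Tk.symm) fun L w t => ?_
      rw [ci_ci] at w t ⊢
      exact (k3 L w.symm t.symm).symm
    · have t := tr (f1.trans f2).symm f1 (rot (rot h)) s2.symm (s2 ▸ s1)
      rcases k1 with k1 | k1 <;> rcases k2 with k2 | k2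
      · exact no_chain hc hX t k1 (by simpa using k2) m3
      · exact tri_rulez' hc hX L1 L3 t m3 k1 (by simpa using (k2.par (by
          simpa [s2] using (Bool.not_eq.2 s1))).symm) k3
      · refine tri_rulez' hc hX L1 L3 t.rev (by simpa using m3.symm) (by simpa using k2.symm)
          (k1.par (t.s1.trans t.s2.symm)) fun L w t => ?_
        rw [ci_ci] at w t ⊢
        exact (k3 L w.symm t.symm).symm
      · exact rule2 hc hX L2 t (by simpa using (k2.par (by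
          simpa [s2] using (Bool.not_eq.2 s1))).symm) (k1.par (t.s1.trans t.s2.symm)) m3
    · exact tri_rulez hc hX L1 L3 (tr f2 (f1.trans f2).symm (rot h)
        (by revert s1 s2; cases c.1 <;> cases d.1 <;> cases e.1 <;> simp) (Ne.symm s1)) m3
        (by simpa using m1) k2 (by simpa using k1) k3

end Pool.Agent.MP_a38735_al
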