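import Pool.Agent.MP_a38735_al.Frame

set_option autoImplicit false
set_option linter.unusedSectionVars false

namespace Pool.Agent.MP_a38735_al

open WL

variable {G : Type*} [Group G] {H : Bool → Subgroup G} {n : ℕ}

/-- a triangle `c * d = e` of corners of one sign -/
structure Tr (H : Bool → Subgroup G) (x : ZMod n → G) (c d e : Bool × ZMod n) : Prop where
  s1 : d.1 = c.1
  s2 : e.1 = c.1
  f1 : fac H (cl x c) = fac H (cl x d)
  f2 : fac H (cl x d) = fac H (cl x e)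
  rel : cl x c * cl x d = cl x e

theorem Tr.rev {x : ZMod n → G} {c d e : Bool × ZMod n} (h : Tr H x c d e) :
    Tr H x (ci d) (ci c) (ci e) :=
  ⟨by simp [h.s1], by simp [h.s1, h.s2], by simp [fac_inv, h.f1],
    by simp [fac_inv, h.f1, h.f2], by simp [← h.rel]⟩

/-- a leaf: the strip after `d, e` has one mark, the other two strips have both -/
structure Lf (H : Bool → Subgroup G) (x : ZMod n → G) (P R : ZMod n) (c d e : Bool × ZMod n) :
    Prop where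
  tr : Tr H x c d e
  cs : Cr x P R c (ci d)
  cb : Cr x P R (ci e) (ci c)
  mf : Mk x P R d e
  nf : ¬ Cr x P R d e

/-- `a, a'` are the letters after the singly marked strip of a leaf -/
def Zt (H : Bool → Subgroup G) (x : ZMod n → G) (P R : ZMod n) (a a' : Bool × ZMod n) : Prop :=
  ∃ c d e L, Lf H x P R c d e ∧ Wh H x d e L ∧
    ((a = cn^[L + 1] d ∧ a' = cn^[L + 1] e) ∨ (a = cn^[L + 1] e ∧ a' = cn^[L + 1] d))

/-- `a, a'` are the letters after the singly marked antiparallel strip of a triangle with a cross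
strip that follows a leaf -/
def Z2 (H : Bool → Subgroup G) (x : ZMod n → G) (P R : ZMod n) (a a' : Bool × ZMod n) : Prop :=
  ∃ c d e m, Tr H x c d e ∧ Zt H x P R c e ∧ Cr x P R d e ∧ Mk x P R c (ci d) ∧
    ¬ Cr x P R c (ci d) ∧ Wh H x c (ci d) m ∧ a = ci (cn^[m + 1] (ci d)) ∧ a' = cn^[m + 1] c

/-- frames exist at all corners -/
def Ex (H : Bool → Subgroup G) (x : ZMod n → G) (P R : ZMod n) : Prop :=
  ∀ a, ∃ W Q f J t, Frm x P R W Q f J ∧ a = f true t ∧ 0 ≤ t ∧ t < Q ∧ (a.1 = true → NoCh H W n Q)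

theorem Pt.or {N Q s e s' e' : ℤ} (p : Pt N Q s e) (p' : Pt N Q s' e') :
    (s' = s ∧ e' = e) ∨ Pts N Q s e s' e' := by
  rcases p with ⟨rfl, rfl⟩ | ⟨rfl, rfl⟩ <;> rcases p' with ⟨rfl, rfl⟩ | ⟨rfl, rfl⟩ <;> simp [Pts]

theorem Pt.oth {N Q s e : ℤ} (p : Pt N Q s e) : ∃ s' e', Pts N Q s e s' e' ∧ Pt N Q s' e' := by
  rcases p with ⟨rfl, rfl⟩ | ⟨rfl, rfl⟩
  · exact ⟨_, _, Or.inl ⟨rfl, rfl, rfl, rfl⟩, Or.inr ⟨rfl, rfl⟩⟩
  · exact ⟨_, _, Or.inr ⟨rfl, rfl, rfl, rfl⟩, Or.inl ⟨rfl, rfl⟩⟩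

theorem cl_ne {x : ZMod n → G} (hc : Cy H x) (c : Bool × ZMod n) :
    cl x c ≠ 1 ∧ cl x c * cl x c * cl x c ≠ 1 := by
  obtain ⟨b, i⟩ := c
  cases b
  · refine ⟨by simpa [cl] using (hc.hL i).1, fun z => hc.h3 i ?_⟩
    simp only [cl, Bool.false_eq_true, if_false] at z
    rw [← inv_eq_one, ← z]; group
  · exact ⟨(hc.hL i).1, hc.h3 i⟩

namespace Frm

variable {x : ZMod n → G} {P R : ZMod n} {W : ℤ → G} {Q : ℤ} {f : Bool → ℤ → Bool × ZMod n}
  {J : ℤ → ZMod n} (F : Frm x P R W Q f J)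
include F

theorem par (hc : Cy H x) {j i : ℤ} (h : fac H (cl x (f true j)) = fac H (cl x (f true i))) :
    (j - i) % 2 = 0 := by
  rw [F.clt, F.clt] at h
  refine (fac_parZ (fun t => ?_) _ _).1 h
  have := fac_cn hc.hf (f true t)
  rwa [F.cnt, F.clt, F.clt] at this

theorem nd (hc : Cy H x) {j i k : ℤ} (h : Tr H x (f true j) (f true i) (f true k)) :
    Nd W j i k := by
  have r := h.rel
  have a := cl_ne hc (f true j)
  have b := (cl_ne hc (f true i)).1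
  have c := (cl_ne hc (f true k)).1
  simp only [F.clt] at r a b c
  refine ⟨F.par hc h.f1, F.par hc (h.f1.trans h.f2).symm, fun z => b (by simpa [z] using r),
    fun z => a.1 (by simpa [z] using r), fun z => c (by simpa [z] using r.symm), fun z => a.2 ?_, r⟩
  rw [z.1, z.2] at r
  rw [r, inv_mul_cancel]

theorem le_of {s e j i : ℤ} (ev : (j - i) % 2 = 0) (h1 : s ≤ j) (h2 : i < e)
    (h : Ant W (j + 1) e (i + j) ∨ Ant W s i (i + j)) : i ≤ j := by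
  rcases h with h | h <;> have := F.al.mid h (by omega) <;> omega

theorem shift {s e s' e' : ℤ} (p : Pts n Q s e s' e') (b : Bool) (t : ℤ) :
    f b t = f b (t - e + s') := by
  rcases p with ⟨_, _, _, _⟩ | ⟨_, _, _, _⟩
  · congr 1; omega
  · rw [← F.per b (t - e + s')]; congr 1; omega

end Frm

variable {x : ZMod n → G} {P R : ZMod n}

theorem no_chain (hc : Cy H x) (hX : Ex H x P R) {c d e : Bool × ZMod n} (h : Tr H x c d e)
    (cf : Cr x P R d e) (cb : Cr x P R (ci e) (ci c)) (ms : Mk x P R c (ci d)) : False := by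
  wlog b : c.1 = true generalizing c d e
  · exact this h.rev cb.symm (by simpa using cf.symm) (by simpa using ms.symm)
      (by simpa [h.s1] using b)
  obtain ⟨W, Q, f, J, j, F, rfl, j0, jQ, nc⟩ := hX c
  obtain ⟨i, s, e', rfl, p, i0, i1⟩ := F.crd h.s1
  obtain ⟨k, s', e'', rfl, p', k0, k1⟩ := F.crd h.s2
  have nd := F.nd hc h
  have p0 : Pt n Q 0 Q := Or.inl ⟨rfl, rfl⟩
  rw [F.cit] at ms
  rw [F.cit, F.cit] at cb
  obtain ⟨a1, a2, a3⟩ := F.cr_ff p0 j0 jQ p' k0 k1 nd.yz cb.symm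
  obtain ⟨rfl, rfl⟩ := p'.resolve_left fun z => a3 z.1.symm
  obtain ⟨b1, b2, b3⟩ := F.cr_tt p i0 i1 (Or.inr ⟨rfl, rfl⟩) k0 k1 nd.xz cf
  obtain ⟨rfl, rfl⟩ := p.resolve_right fun z => b3 z.2
  have m := F.mk_tf p0 j0 jQ p0 i0 i1 nd.yx ms
  have f1 := h.f1
  have f2 := h.f2
  have r := h.rel
  simp only [F.clt] at f1 f2 r
  exact nc b i j k i0 (F.le_of nd.p1 j0 i1 m) jQ k0 k1 f1 f2 r a1
    (a2.flip.mono (by omega) (by omega) (by omega)) b1
    (b2.flip.mono (by omega) (by omega) (by omega)) m.symm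

theorem leafZ (hc : Cy H x) (hX : Ex H x P R) {a a' : Bool × ZMod n} (h : Zt H x P R a a') :
    ∃ W Q f J i j k l p q s e j2 k2, Frm x P R W Q f J ∧ Leaf W n Q i j k l p q s e ∧
      Pt n Q s e ∧ a = f true j2 ∧ a' = f true k2 ∧ ((j2 = p ∧ k2 = q) ∨ (j2 = q ∧ k2 = p)) ∧
      s ≤ j2 ∧ j2 < e ∧ s ≤ k2 ∧ k2 < e := by
  obtain ⟨c, d, e, l, lf, w, z⟩ := h
  have h := lf.tr
  obtain ⟨W, Q, f, J, j, F, rfl, j0, jQ, -⟩ := hX c
  obtain ⟨i, s, e', rfl, p, i0, i1⟩ := F.crd h.s1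
  obtain ⟨k, s', e'', rfl, p', k0, k1⟩ := F.crd h.s2
  have nd := F.nd hc h
  have p0 : Pt n Q 0 Q := Or.inl ⟨rfl, rfl⟩
  have cs := lf.cs
  have cb := lf.cb
  rw [F.cit] at cs
  rw [F.cit, F.cit] at cb
  obtain ⟨a1, a2, a3⟩ := F.cr_ff p0 j0 jQ p' k0 k1 nd.yz cb.symm
  obtain ⟨rfl, rfl⟩ := p'.resolve_left fun z => a3 z.1.symm
  obtain ⟨b1, b2, rfl, rfl⟩ := F.cr_tf p0 j0 jQ p i0 i1 nd.yx cs
  have q0 := F.al.q0
  have qn := F.al.qn
  have p1 : Pt n e' e' n := Or.inr ⟨rfl, rfl⟩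
  have ne : f true i ≠ f true k := fun z => w.ne (by rw [z])
  have t1 := F.short_t p0 i0 i1 (by omega) k1 ne w.mt
  have t2 := F.short_t p1 k0 k1 i0 (by omega) ne.symm w.mt.symm
  have nb : ¬ (e' ≤ i + 1 + l ∧ (n : ℤ) ≤ k + 1 + l) := fun y => lf.nf (by
    have o1 := F.on_t w.mt i1 y.1
    have o2 := (F.on_t w.mt.symm k1 y.2).symm
    rw [F.Jn] at o2
    rcases F.mks with ⟨rfl, rfl⟩ | ⟨rfl, rfl⟩
    exacts [⟨o2, o1⟩, ⟨o1, o2⟩])
  have ob : e' ≤ i + 1 + l ∨ (n : ℤ) ≤ k + 1 + l := by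
    have : ∀ M, M = P ∨ M = R → On x M (f true i) (f true k) →
        e' ≤ i + 1 + l ∨ (n : ℤ) ≤ k + 1 + l := fun M hM o => by
      obtain ⟨r, m, y⟩ := F.on_nf hM p0 i0 i1 p1 k0 k1 ne o
      have := w.le m
      simp only [if_true] at y
      omega
    exact lf.mf.elim (this _ (Or.inl rfl)) (this _ (Or.inr rfl))
  have lv : ∀ p q s e : ℤ, p = i + 1 + l → ((s = e' ∧ e = n ∧ q = k + 1 + l ∧ e' ≤ p ∧ q < n) ∨
      (s = 0 ∧ e = e' ∧ q = k + 1 + l - n ∧ p < e' ∧ 0 ≤ q)) → Leaf W n e' i j k l p q s e :=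
    fun p q s e => Leaf.mk i0 (F.le_of nd.p1 j0 i1 (Or.inl b1)) jQ k0 k1 nd a1
      (a2.flip.mono (by omega) (by omega) (by omega)) b2 b1 (F.mtt w.mt)
  rw [F.itt, F.itt, show i + (l + 1 : ℕ) = i + 1 + l by omega,
    show k + (l + 1 : ℕ) = k + 1 + l by omega] at z
  by_cases y : e' ≤ i + 1 + l
  · have := lv (i + 1 + l) (k + 1 + l) e' n rfl (Or.inl ⟨rfl, rfl, rfl, y, by omega⟩)
    rcases z with ⟨z, z'⟩ | ⟨z, z'⟩
    · exact ⟨_, _, _, _, _, _, _, _, _, _, _, _, _, _, F, this, p1, z, z', Or.inl ⟨rfl, rfl⟩,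
        by omega, by omega, by omega, by omega⟩
    · exact ⟨_, _, _, _, _, _, _, _, _, _, _, _, _, _, F, this, p1, z, z', Or.inr ⟨rfl, rfl⟩,
        by omega, by omega, by omega, by omega⟩
  · have := lv (i + 1 + l) (k + 1 + l - n) 0 e' rfl (Or.inr ⟨rfl, rfl, rfl, by omega, by omega⟩)
    rw [← sub_add_cancel (k + 1 + l) n, F.per] at z
    rcases z with ⟨z, z'⟩ | ⟨z, z'⟩
    · exact ⟨_, _, _, _, _, _, _, _, _, _, _, _, _, _, F, this, p0, z, z', Or.inl ⟨rfl, rfl⟩,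
        by omega, by omega, by omega, by omega⟩
    · exact ⟨_, _, _, _, _, _, _, _, _, _, _, _, _, _, F, this, p0, z, z', Or.inr ⟨rfl, rfl⟩,
        by omega, by omega, by omega, by omega⟩

theorem Zt.pt (hc : Cy H x) (hX : Ex H x P R) {a a' : Bool × ZMod n} (h : Zt H x P R a a') :
    pt P R a ↔ pt P R a' := by
  obtain ⟨W, Q, f, J, i, j, k, l, p, q, s, e, j2, k2, F, -, p0, rfl, rfl, -, a1, a2, a3, a4⟩ :=
    leafZ hc hX h
  exact (F.pt_iff p0 a1 a2 p0 a3 a4).2 rfl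

theorem rule1 (hc : Cy H x) (hX : Ex H x P R) (L1 : StL1 G) {c d e : Bool × ZMod n}
    (h : Tr H x c d e) (z : Zt H x P R c e) (cs : Cr x P R c (ci d)) (mf : Mk x P R d e) :
    False := by
  obtain ⟨W, Q, f, J, i, j, k, l, p, q, s, e, j2, k2, F, lf, p0, rfl, rfl, jk, a1, a2, a3, a4⟩ :=
    leafZ hc hX z
  obtain ⟨i2, s', e', rfl, p', i0, i1⟩ := F.crd h.s1
  have nd := F.nd hc h
  rw [F.cit] at cs
  obtain ⟨b1, b2, rfl, rfl⟩ := F.cr_tf p0 a1 a2 p' i0 i1 nd.yx cs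
  exact L1 W n Q i j k l p q s' e' i2 j2 k2 F.al lf jk i0 (F.le_of nd.p1 a1 i1 (Or.inl b1)) nd b2 b1
    (F.mk_tt p0 i0 i1 p0 a3 a4 nd.xz mf)

end Pool.Agent.MP_a38735_al
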