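import Pool.Agent.MP_a38735_al.WT

set_option autoImplicit false
set_option linter.unusedVariables false

namespace Pool.Agent.MP_a38735_al.WL

variable {G : Type*} [Group G]

theorem sliver_2 {W : ℤ → G} {n Q i j k l i2 m k3 : ℤ} (al : AL W n Q)
    (hy : (0) ≤ (i) ∧ (i) ≤ (j) ∧ (j + 1) ≤ (Q) ∧ (Q) ≤ (k) ∧ (k + 1) ≤ (n) ∧ (Q) ≤ (i + l + 1) ∧ (k + l + 2) ≤ (n) ∧ (0) ≤ (i2) ∧ (i2 + 1) ≤ (Q) ∧ (Q + m + 1) ≤ (n + i2) ∧ (i2) ≤ (m) ∧ (Q) ≤ (i + l + m + 2) ∧ (i + l + m + 3) ≤ (n) ∧ (0) ≤ (k3) ∧ (k3 + 1) ≤ (Q) ∧ (k3) ≤ (i) ∧ (i) ≤ (k3) ∧ (i + k + l + m + 3) ≤ (n + j + k3) ∧ (j + 1) ≤ (i2) ∧ (k + l + m + 3) ≤ (n) ∧ (i + l + 2 * m + 4) ≤ (n) ∧ (Q + m + 1) ≤ (k))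
    (a1 : Par W (0) (j) (k - j))
    (a2 : Par W (Q + j - k) (j) (k - j))
    (s1 : Ant W (0) (i) (i + j))
    (s2 : Ant W (j + 1) (Q) (i + j))
    (b : Par W (i + 1) (i + l + 1) (k - i))
    (c1 : Par W (i2 + 1) (Q) (k + l - i2 + 1))
    (c2 : Par W (k + l + 2) (n) (i2 - k - l - 1))
    (tt : Ant W (i2 - m) (i2) (i + l + i2 + 1))
    (D1 : Par W (i + l + m + 3) (n) (k3 - i - l - m - 2))
    (D2 : Par W (k3 + 1) (Q) (i + l + m - k3 + 2))
    (E0 : Par W (0) (k3) (n + i2 - m - k3 - 1))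
    {L : ℤ} (mx : ∀ a b g, 0 < g → g < n → Par W a b g → b - a ≤ L)
    (hL : L ≤ (n - j - 3) ∧ L ≤ (n + Q - k - 3) ∧ L ≤ (n - l - 3) ∧ L ≤ (n + i - k - 2) ∧ L ≤ (n - k3 - 3) ∧ L ≤ (i + l + m) ∧ L ≤ (n + k3 - Q - 2) ∧ L ≤ (i + l + m - k3))
    (bd0 : Bd W n L (j) (i) (k))
    (bd2 : Bd W n L (n + i2 - m - 1) (i + l + m + 2) (k3))
    (n1 : Nd W (j) (i) (k))
    (n2 : Nd W (i + l + 1) (i2) (k + l + 1))
    (n3 : Nd W (n + i2 - m - 1) (i + l + m + 2) (k3))
    (b0 : (n + k3) ≤ (2 * i + 2 * l + 2 * m + 3))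
    (b1 : (2 * l + 3) ≤ (n)) : False := by
  have ev := al.ev
  obtain ⟨y0, y1, y2, y3, y4, y5, y6, y7, y8, y9, y10, y11, y12, y13, y14, y15, y16, y17, y18, y19, y20, y21⟩ := id hy
  have n1p := And.intro n1.p1 n1.p2
  have n2p := And.intro n2.p1 n2.p2
  have n3p := And.intro n3.p1 n3.p2
  by_cases z3 : (2 * i + l + m + 3) ≤ (Q + k)
  · have kk7 : (k + k3) ≤ (2 * i + l + m + 1) := by clear * - b0 y19; omega
    have kk8 : (2 * i + l + m + 3) ≤ (n + k + k3) := by clear * - b0 b1 y16 y20 y21 z3; omega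
    have kk9 : (2 * i + l + m + 3) ≤ (Q + k) := by clear * - z3; omega
    have kk10 : (Q + i + m + 1) ≤ (k + k3) := by clear * - y16 y21; omega
    have kk11 : (k) ≤ (i + l + m + 2) := by clear * - b0 y16 y19; omega
    have kk12 : (k + l + 1) ≤ (n) := by clear * - y10 y15 y17 y18; omega
    clear * - al b D1 kk7 kk8 kk9 kk10 kk11 kk12
    exact al.ubQ (2 * i + l + m - k - k3 + 2) (by omega) (by omega) fun t h1 h2 => (cE (sh al (-1) t (t + (-n)) (by omega)) (cE (pb D1 al (-1) (t + (-n)) (t + (i + l + m - k3 + 2)) (by omega)) (pb b al 0 (t + (i + l + m - k3 + 2)) (t + (2 * i + l + m - k - k3 + 2)) (by omega))))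
  · by_cases z4 : (2 * i + 2 * l + m + 3) ≤ (n + k3)
    · by_cases v1 : (i + k + 2 * l + 2) ≤ (n + i2)
      · have kk13 : (i + 1) ≤ (i2) := by clear * - y1 y18; omega
        have kk14 : (i2) ≤ (i + l) := by clear * - b0 y16 y20 y21 y8 z3; omega
        have kk15 : (k + k3) ≤ (2 * i + l + m + 1) := by clear * - b0 y19; omega
        have kk16 : (i + i2 + m + 1) ≤ (k + k3) := by clear * - y16 y21 y8; omega
        have kk17 : (k3) ≤ (i) := by clear * - y15; omega
        have kk18 : (2 * i + 2 * l + m + 3) ≤ (n + k3) := by clear * - z4; omega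
        have kk19 : (i) ≤ (i2) := by clear * - y1 y18; omega
        have kk20 : (i + k + 2 * l + 2) ≤ (n + i2) := by clear * - v1; omega
        have r21 : (i + l - i2 + 1) % 2 = 0 := by clear * - ev n1p n2p n3p; omega
        have r22 : (2 * i + l + m - k - k3 + 2) % 2 = 0 := by clear * - ev n1p n2p n3p; omega
        clear * - al b c2 D1 n2 kk13 kk14 kk15 kk16 kk17 kk18 kk19 kk20 r21 r22
        exact n2.f1 (rEE (cE (qf b al 0 (i2) (k + i2 - i) (by omega)) (sh al (-1) (k + i2 - i) (k + i2 - n - i) (by omega))) (sh al (-1) (k + l + 1) (k + l - n + 1) (by omega)) (rotL (i + l - i2 + 1) (2 * i + l + m - k - k3 + 2) (k + i2 - n - i) (k + l - n + 1) (by omega) (fun t h1 h2 => (cE (cE (pb b al (-1) t (t + (n + i - k)) (by omega)) (pb c2 al 0 (t + (n + i - k)) (t + (n + i + l - i2 + 1)) (by omega))) (sh al (-1) (t + (n + i + l - i2 + 1)) (t + (i + l - i2 + 1)) (by omega)))) (fun t h1 h2 => (cE (qf (show Par W (k + 1) (k + l + 1) (2 * i + l + m - k - k3 + 2) from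 fun t h1 h2 => (cE (sh al (-1) t (t + (-n)) (by omega)) (cE (pb b al (-1) (t + (-n)) (t + (i - k)) (by omega)) (pb D1 al 0 (t + (i - k)) (t + (2 * i + l + m - k - k3 + 2)) (by omega))))) al (-1) t (t + (n + 2 * i + l + m - k - k3 + 2)) (by omega)) (sh al (-1) (t + (n + 2 * i + l + m - k - k3 + 2)) (t + (2 * i + l + m - k - k3 + 2)) (by omega))))))
      · have kk23 : (i + 1) ≤ (i2) := by clear * - y1 y18; omega
        have kk24 : (i2) ≤ (i + l) := by clear * - b0 v1 y19 z4; omega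
        have kk25 : (k + k3) ≤ (2 * i + l + m + 1) := by clear * - b0 y19; omega
        have kk26 : (2 * i + 2 * l + m + 3) ≤ (n + k3) := by clear * - z4; omega
        have kk27 : (k3) ≤ (i) := by clear * - y15; omega
        have kk28 : (i) ≤ (i2) := by clear * - y1 y18; omega
        have kk29 : (n + i2) ≤ (i + k + 2 * l + 2) := by clear * - v1; omega
        have r30 : (i + l - i2 + 1) % 2 = 0 := by clear * - ev n1p n2p n3p; omega
        have r31 : (2 * i + l + m - k - k3 + 2) % 2 = 0 := by clear * - ev n1p n2p n3p; omega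
        clear * - al b c2 D1 n2 kk23 kk24 kk25 kk26 kk27 kk28 kk29 r30 r31
        exact n2.f1 (rEE (cE (qf b al 0 (i2) (k + i2 - i) (by omega)) (sh al (-1) (k + i2 - i) (k + i2 - n - i) (by omega))) (sh al (-1) (k + l + 1) (k + l - n + 1) (by omega)) (rotL (i + l - i2 + 1) (2 * i + l + m - k - k3 + 2) (k + i2 - n - i) (k + l - n + 1) (by omega) (fun t h1 h2 => (cE (cE (pb b al (-1) t (t + (n + i - k)) (by omega)) (pb c2 al 0 (t + (n + i - k)) (t + (n + i + l - i2 + 1)) (by omega))) (sh al (-1) (t + (n + i + l - i2 + 1)) (t + (i + l - i2 + 1)) (by omega)))) (fun t h1 h2 => (cE (qf (show Par W (k + 1) (k + l + 1) (2 * i + l + m - k - k3 + 2) from fun t h1 h2 => (cE (sh al (-1) t (t + (-n)) (by omega)) (cE (pb b al (-1) (t + (-n)) (t + (i - k)) (by omega)) (pb D1 al 0 (t + (i - k)) (t + (2 * i + l + m - k - k3 + 2)) (by omega))))) al (-1) t (t + (n + 2 * i + l + m - k - k3 + 2)) (by omega)) (sh al (-1) (t + (n + 2 * i + l + m - k - k3 + 2)) (t + (2 * i + l + m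 - k - k3 + 2)) (by omega))))))
    · by_cases z5 : (2 * k + i2) ≤ (2 * i + j + l + 2 * m + 1)
      · by_cases z6 : (2 * i + l + i2 + 2) ≤ (j + 2 * k)
        · by_cases v2 : (2 * i + l + m + 2) ≤ (2 * k)
          · by_cases v3 : (2 * i + l + 2) ≤ (Q + k)
            · have kk32 : (2 * k + i2) ≤ (2 * i + j + l + 2 * m + 1) := by clear * - z5; omega
              have kk33 : (2 * Q + j) ≤ (2 * i + l + i2 + 2) := by clear * - y18 y21 z5; omega
              have kk34 : (i + m + 1) ≤ (k) := by clear * - v2 y16 y20 z4; omega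
              have kk35 : (2 * i + l + m + 2) ≤ (2 * k) := by clear * - v2; omega
              have kk36 : (2 * i + l + 2) ≤ (Q + k) := by clear * - v3; omega
              have kk37 : (i + 1) ≤ (Q) := by clear * - v3 y16 y19 z4; omega
              have r38 : (2 * i + j + l + i2 - 2 * n - 2 * k + 1) % 2 = 0 := by clear * - ev n1p n2p n3p; omega
              clear * - al a2 b tt kk32 kk33 kk34 kk35 kk36 kk37 r38
              obtain ⟨t, ht⟩ : ∃ t, 2 * t = (2 * i + j + l + i2 - 2 * n - 2 * k + 1) := ⟨(2 * i + j + l + i2 - 2 * n - 2 * k + 1) / 2, by omega⟩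
              exact al.ninv t (cE (cE (cE (qa tt al (-1) t ((i + l + i2 - n + 1) - t) (by omega)) (pb b al 0 ((i + l + i2 - n + 1) - t) ((2 * i + l + i2 - n - k + 1) - t) (by omega))) (pb a2 al 0 ((2 * i + l + i2 - n - k + 1) - t) ((2 * i + j + l + i2 - n - 2 * k + 1) - t) (by omega))) (sh al (-1) ((2 * i + j + l + i2 - n - 2 * k + 1) - t) t (by omega)))
            · have kk39 : (2 * k + i2) ≤ (2 * i + j + l + 2 * m + 1) := by clear * - z5; omega
              have kk40 : (2 * i + j + l + 2) ≤ (2 * k + i2) := by clear * - y18 z6; omega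
              have kk41 : (i + m + 1) ≤ (k) := by clear * - v2 y16 y20 z4; omega
              have kk42 : (2 * i + l + m + 2) ≤ (2 * k) := by clear * - v2; omega
              have kk43 : (k) ≤ (i + l + 1) := by clear * - y16 y19 z4; omega
              have kk44 : (Q + k) ≤ (2 * i + l + 2) := by clear * - v3; omega
              have r45 : (2 * i + j + l + i2 - 2 * n - 2 * k + 1) % 2 = 0 := by clear * - ev n1p n2p n3p; omega
              clear * - al a2 b tt kk39 kk40 kk41 kk42 kk43 kk44 r45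
              obtain ⟨t, ht⟩ : ∃ t, 2 * t = (2 * i + j + l + i2 - 2 * n - 2 * k + 1) := ⟨(2 * i + j + l + i2 - 2 * n - 2 * k + 1) / 2, by omega⟩
              exact al.ninv t (cE (cE (cE (qa tt al (-1) t ((i + l + i2 - n + 1) - t) (by omega)) (pb b al 0 ((i + l + i2 - n + 1) - t) ((2 * i + l + i2 - n - k + 1) - t) (by omega))) (pb a2 al 0 ((2 * i + l + i2 - n - k + 1) - t) ((2 * i + j + l + i2 - n - 2 * k + 1) - t) (by omega))) (sh al (-1) ((2 * i + j + l + i2 - n - 2 * k + 1) - t) t (by omega)))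
          · have kk46 : (2 * i + l + i2 + 3) ≤ (j + 2 * k) := by clear * - z6 ev n1p n2p n3p; omega
            have kk47 : (2 * i + j + l + 2) ≤ (2 * k + i2) := by clear * - y18 z6; omega
            have kk48 : (2 * k) ≤ (2 * i + l + m + 2) := by clear * - v2; omega
            have kk49 : (k) ≤ (i + l + 1) := by clear * - v2 y16 y20 z4; omega
            have kk50 : (Q + k) ≤ (2 * i + l + 2) := by clear * - v2 y21; omega
            have r51 : (2 * i + j + l + i2 - 2 * n - 2 * k + 1) % 2 = 0 := by clear * - ev n1p n2p n3p; omega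
            clear * - al a2 b tt kk46 kk47 kk48 kk49 kk50 r51
            obtain ⟨t, ht⟩ : ∃ t, 2 * t = (2 * i + j + l + i2 - 2 * n - 2 * k + 1) := ⟨(2 * i + j + l + i2 - 2 * n - 2 * k + 1) / 2, by omega⟩
            exact al.ninv t (cE (cE (cE (qa tt al (-1) t ((i + l + i2 - n + 1) - t) (by omega)) (pb b al 0 ((i + l + i2 - n + 1) - t) ((2 * i + l + i2 - n - k + 1) - t) (by omega))) (pb a2 al 0 ((2 * i + l + i2 - n - k + 1) - t) ((2 * i + j + l + i2 - n - 2 * k + 1) - t) (by omega))) (sh al (-1) ((2 * i + j + l + i2 - n - 2 * k + 1) - t) t (by omega)))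
        · by_cases z7 : (3 * i + 2 * l + m + 3) ≤ (n + k + k3)
          · have kk52 : (k3 + 1) ≤ (i2) := by clear * - y1 y15 y18; omega
            have kk53 : (i + l + i2 + m + 3) ≤ (n + k3) := by clear * - y10 y13 y20; omega
            have kk54 : (i + i2 + m + 2) ≤ (k + k3) := by clear * - y16 y21 y8; omega
            have kk55 : (2 * k + k3) ≤ (3 * i + l + m + 1) := by clear * - y15 z5 z6; omega
            have kk56 : (3 * i + 2 * l + m + 3) ≤ (n + k + k3) := by clear * - z7; omega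
            have kk57 : (2 * k + k3) ≤ (2 * i + l + i2 + m + 1) := by clear * - y1 y15 y18 z5 z6; omega
            have kk58 : (k3) ≤ (i2) := by clear * - y1 y15 y18; omega
            have kk59 : (i + i2 + m + 1) ≤ (k + k3) := by clear * - y16 y21 y8; omega
            have kk60 : (k3) ≤ (i) := by clear * - y15; omega
            have kk61 : (n + k3) ≤ (2 * i + 2 * l + m + 3) := by clear * - z4; omega
            have kk62 : (i) ≤ (k) := by clear * - z4 z7; omega
            have r63 : (k + k3 - i - i2 - m - 1) % 2 = 0 := by clear * - ev n1p n2p n3p; omega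
            have r64 : (3 * i + l + m - 2 * k - k3 + 2) % 2 = 0 := by clear * - ev n1p n2p n3p; omega
            clear * - al b c2 D1 n2 kk52 kk53 kk54 kk55 kk56 kk57 kk58 kk59 kk60 kk61 kk62 r63 r64
            exact n2.f1 (rEE (cE (pb D1 al 0 (i2) (i + l + i2 + m - k3 + 2) (by omega)) (sh al (-1) (i + l + i2 + m - k3 + 2) (i + l + i2 + m - n - k3 + 2) (by omega))) (sh al (-1) (k + l + 1) (k + l - n + 1) (by omega)) (rotL (k + k3 - i - i2 - m - 1) (3 * i + l + m - 2 * k - k3 + 2) (i + l + i2 + m - n - k3 + 2) (k + l - n + 1) (by omega) (fun t h1 h2 => (cE (qf (show Par W (i + l + i2 + m - k3 + 3) (n + i + i2 + m - k - k3 + 1) (k + k3 - i - i2 - m - 1) from fun t h1 h2 => (cE (sh al (-1) t (t + (-n)) (by omega)) (cE (qf D1 al (-1) (t + (-n)) (t + (k3 - i - l - m - 2)) (by omega)) (pb c2 al 0 (t + (k3 - i - l - m - 2)) (t + (k + k3 - i - i2 - m - 1)) (by omega))))) al (-1) t (t + (n + k + k3 - i - i2 - m - 1)) (by omega)) (sh al (-1) (t + (n + k + k3 - i - i2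 - m - 1)) (t + (k + k3 - i - i2 - m - 1)) (by omega)))) (fun t h1 h2 => (cE (cE (pb b al (-1) t (t + (n + i - k)) (by omega)) (qf (show Par W (k + 1) (n + k + k3 - 2 * i - l - m - 2) (2 * i + l + m - k - k3 + 2) from fun t h1 h2 => (cE (sh al (-1) t (t + (-n)) (by omega)) (cE (pb b al (-1) (t + (-n)) (t + (i - k)) (by omega)) (pb D1 al 0 (t + (i - k)) (t + (2 * i + l + m - k - k3 + 2)) (by omega))))) al 0 (t + (n + i - k)) (t + (n + 3 * i + l + m - 2 * k - k3 + 2)) (by omega))) (sh al (-1) (t + (n + 3 * i + l + m - 2 * k - k3 + 2)) (t + (3 * i + l + m - 2 * k - k3 + 2)) (by omega))))))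
          · have kk65 : (i + i2 + m + 2) ≤ (k + k3) := by clear * - y16 y21 y8; omega
            have kk66 : (k + k3) ≤ (3 * i + i2 + m + 1) := by clear * - b1 y7 z7; omega
            have kk67 : (k + i2 + k3) ≤ (3 * i + 2 * j + m + 1) := by clear * - b1 y1 y16 y21 y8 z7; omega
            have kk68 : (i + 3 * k + 2 * l + m + 3) ≤ (2 * n + 2 * j + i2 + k3) := by clear * - b1 y1 y17 z6; omega
            have kk69 : (i + m + 1) ≤ (k) := by clear * - y14 y16 y21; omega
            have kk70 : (i) ≤ (j) := by clear * - y1; omega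
            have kk71 : (2 * i + k + l + m + 2) ≤ (n + i2 + k3) := by clear * - y1 y16 y18 y19; omega
            have kk72 : (j + i2 + 1) ≤ (k) := by clear * - y10 y18 y21 y8; omega
            have r73 : (i + k - 2 * n) % 2 = 0 := by clear * - ev n1p n2p n3p; omega
            have r74 : (k + k3 - i - i2 - m - 1) % 2 = 0 := by clear * - ev n1p n2p n3p; omega
            clear * - al a1 s1 c2 D1 kk65 kk66 kk67 kk68 kk69 kk70 kk71 kk72 r73 r74
            exact midP al (k + k3 - i - i2 - m - 1) (i + k - 2 * n) (k - n - j) (i2 - n + 1) (k3 - i - l - m - 2) (by omega) (fun t h1 h2 => (cE (cI (pb a1 al (-1) t (t + (n + j - k)) (by omega)) (qa s1 al 0 (t + (n + j - k)) ((i + k - n) - t) (by omega))) (sh al (-1) ((i + k - n) - t) ((i + k - 2 * n) - t) (by omega)))) (fun t h1 h2 => (cE (qf (show Par W (i2 + 1) (n + i2 - k - l - 1) (k + k3 - i - i2 - m - 1) from fun t h1 h2 => (cE (sh al (-1) t (t + (-n)) (by omega)) (cE (pb c2 al (-1) (t + (-n)) (t + (k + l - i2 +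 1)) (by omega)) (qf D1 al 0 (t + (k + l - i2 + 1)) (t + (k + k3 - i - i2 - m - 1)) (by omega))))) al (-1) t (t + (n + k + k3 - i - i2 - m - 1)) (by omega)) (sh al (-1) (t + (n + k + k3 - i - i2 - m - 1)) (t + (k + k3 - i - i2 - m - 1)) (by omega))))
      · by_cases z8 : (n + 3 * j + k3) ≤ (2 * Q + i + k + l + m)
        · by_cases z9 : (j + 2 * k + k3) ≤ (2 * Q + 2 * i + l + m)
          · have kk75 : (2 * i + j + l + m + 3) ≤ (2 * k + k3) := by clear * - y10 y13 z5 ev n1p n2p n3p; omega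
            have kk76 : (j + 2 * k + k3) ≤ (2 * Q + 2 * i + l + m) := by clear * - z9; omega
            have kk77 : (j + l + m + k3 + 4) ≤ (2 * k) := by clear * - y10 y13 y15 z5 ev n1p n2p n3p; omega
            have kk78 : (2 * i + j + l + m + 4) ≤ (2 * k + k3) := by clear * - y10 y13 z5 ev n1p n2p n3p; omega
            have kk79 : (k) ≤ (i + l + m + 2) := by clear * - b0 y16 y19; omega
            have kk80 : (Q + k) ≤ (2 * i + l + m + 3) := by clear * - z3; omega
            have kk81 : (2 * k) ≤ (n + i) := by clear * - b0 y16 y19; omega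
            have kk82 : (k) ≤ (i + l + 1) := by clear * - y16 y19 z4; omega
            have kk83 : (2 * i + l + m + 2) ≤ (2 * k) := by clear * - y1 y10 y13 y15 z5; omega
            have kk84 : (3 * i + l + m + 2) ≤ (2 * k + k3) := by clear * - y1 y10 y13 z5; omega
            have r85 : (i + j - 2 * n) % 2 = 0 := by clear * - ev n1p n2p n3p; omega
            have r86 : (2 * k + k3 - 2 * i - j - l - m - 2) % 2 = 0 := by clear * - ev n1p n2p n3p; omega
            clear * - al a2 s2 b D1 kk75 kk76 kk77 kk78 kk79 kk80 kk81 kk82 kk83 kk84 r85 r86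
            exact midP al (2 * k + k3 - 2 * i - j - l - m - 2) (i + j - 2 * n) (j - n + 1) (2 * i + j + l + m - n - 2 * k + 3) (2 * k + k3 - n - 2 * i - l - m - 2) (by omega) (fun t h1 h2 => (cE (qa s2 al (-1) t ((i + j - n) - t) (by omega)) (sh al (-1) ((i + j - n) - t) ((i + j - 2 * n) - t) (by omega)))) (fun t h1 h2 => (cE (cE (cE (qf a2 al (-1) t (t + (n + k - j)) (by omega)) (qf b al 0 (t + (n + k - j)) (t + (n + 2 * k - i - j)) (by omega))) (qf D1 al 0 (t + (n + 2 * k - i - j)) (t + (n + 2 * k + k3 - 2 * i - j - l - m - 2)) (by omega))) (sh al (-1) (t + (n + 2 * k + k3 - 2 * i - j - l - m - 2)) (t + (2 * k + k3 - 2 * i - j - l - m - 2)) (by omega))))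
          · have kk87 : (i + k + l + m + 3) ≤ (n + j + k3) := by clear * - y17; omega
            have kk88 : (n + 3 * j + k3) ≤ (2 * Q + i + k + l + m) := by clear * - z8; omega
            have kk89 : (n + j + k + 3 * k3) ≤ (5 * i + 3 * l + 3 * m + 6) := by clear * - b0 y10 y15 y18 y19 z4; omega
            have kk90 : (n + i + j + k3) ≤ (2 * Q + k + l + m) := by clear * - y1 z8; omega
            have kk91 : (k3) ≤ (i) := by clear * - y15; omega
            have kk92 : (n + k3) ≤ (2 * i + 2 * l + m + 3) := by clear * - z4; omega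
            have kk93 : (k3 + 1) ≤ (Q) := by clear * - y14; omega
            have kk94 : (i + k + l + m + 2) ≤ (n + k3) := by clear * - y16 y19; omega
            have kk95 : (Q + i + l + m + 2) ≤ (n + k3) := by clear * - b0 b1 y16 y19 y20 z4 z8 z9; omega
            have kk96 : (Q + 3 * i + 2 * l + 2 * m + 4) ≤ (n + k + 2 * k3) := by clear * - y16 y17 y19 z8 z9; omega
            have kk97 : (k3) ≤ (j) := by clear * - y1 y15; omega
            have kk98 : (k + k3) ≤ (i + j + l + m + 2) := by clear * - b1 y1 y19 z3 z4 z8; omega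
            have kk99 : (Q + 3 * i + 2 * l + 2 * m + 4) ≤ (n + j + k + 2 * k3) := by clear * - y17 z8 z9; omega
            have kk100 : (2 * Q + l + m + 1) ≤ (n + j + k3) := by clear * - b1 y17 y21 z3 z9; omega
            have r101 : (4 * i + j + 2 * l + 2 * m - n - k - 2 * k3 + 4) % 2 = 0 := by clear * - ev n1p n2p n3p; omega
            have r102 : (n + j + k3 - i - k - l - m - 2) % 2 = 0 := by clear * - ev n1p n2p n3p; omega
            clear * - al a2 s2 b D1 kk87 kk88 kk89 kk90 kk91 kk92 kk93 kk94 kk95 kk96 kk97 kk98 kk99 kk100 r101 r102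
            exact midP al (n + j + k3 - i - k - l - m - 2) (4 * i + j + 2 * l + 2 * m - n - k - 2 * k3 + 4) (i + j - Q + 1) (Q + i + l + m - n - k3 + 2) (j) (by omega) (fun t h1 h2 => (cE (cE (cE (ab s2 al 0 t ((i + j) - t) (by omega)) (pb D1 al 0 ((i + j) - t) ((2 * i + j + l + m - k3 + 2) - t) (by omega))) (qf (show Par W (k + 1) (n + k + k3 - 2 * i - l - m - 2) (2 * i + l + m - k - k3 + 2) from fun t h1 h2 => (cE (sh al (-1) t (t + (-n)) (by omega)) (cE (pb b al (-1) (t + (-n)) (t + (i - k)) (by omega)) (pb D1 al 0 (t + (i - k)) (t + (2 * i + l + m - k - k3 + 2)) (by omega))))) al 0 ((2 * i + j + l + m - k3 + 2) - t) ((4 * i + j + 2 * l + 2 * m - k - 2 * k3 + 4) - t) (by omega))) (sh al (-1) ((4 * i + j + 2 * l + 2 * m - k - 2 * k3 + 4) - t) ((4 * i + j + 2 * l + 2 * m - n - k - 2 * k3 + 4) - t) (by omega)))) (fun t h1 h2 => (cE (qf (show Par W (Q + i + l + m - k3 + 2) (i + k + l + m - k3 + 2) (n + j + k3 - i - k - l - m - 2) from fun t h1 h2 => (cE (sh al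 (-1) t (t + (-n)) (by omega)) (cE (cE (qf D1 al (-1) (t + (-n)) (t + (k3 - i - l - m - 2)) (by omega)) (pb a2 al 0 (t + (k3 - i - l - m - 2)) (t + (j + k3 - i - k - l - m - 2)) (by omega))) (sh al 1 (t + (j + k3 - i - k - l - m - 2)) (t + (n + j + k3 - i - k - l - m - 2)) (by omega))))) al (-1) t (t + (2 * n + j + k3 - i - k - l - m - 2)) (by omega)) (sh al (-1) (t + (2 * n + j + k3 - i - k - l - m - 2)) (t + (n + j + k3 - i - k - l - m - 2)) (by omega))))
        · by_cases z10 : (n + 2 * i2 + k3) ≤ (i + j + k + l + 3 * m + 2)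
          · by_cases z11 : (n + 2 * Q + j + k + k3) ≤ (5 * i + 3 * l + 3 * m + 6)
            · have kk103 : (i + k + l + m + 3) ≤ (n + j + k3) := by clear * - y17; omega
              have kk104 : (n + j + k3) ≤ (i + k + l + 3 * m + 2) := by clear * - y18 z10; omega
              have kk105 : (n + 2 * Q + j + k + k3) ≤ (5 * i + 3 * l + 3 * m + 6) := by clear * - z11; omega
              have kk106 : (n + 2 * i2 + k3) ≤ (i + j + k + l + 3 * m + 2) := by clear * - z10; omega
              have kk107 : (k3) ≤ (i) := by clear * - y15; omega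
              have kk108 : (n + k3) ≤ (2 * i + 2 * l + m + 3) := by clear * - z4; omega
              have kk109 : (k3 + 1) ≤ (Q) := by clear * - y14; omega
              have kk110 : (i + k + l + m + 2) ≤ (n + k3) := by clear * - y16 y19; omega
              have kk111 : (3 * i + 2 * l + 2 * m + 4) ≤ (n + k + k3) := by clear * - y16 y17 y19 z10 z5; omega
              have kk112 : (k) ≤ (i + l + 1) := by clear * - y16 y19 z4; omega
              have kk113 : (3 * i + 2 * l + 2 * m + 4) ≤ (n + j + k + k3) := by clear * - y17 z10 z5; omega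
              have kk114 : (Q + i + l + 2 * m + 2) ≤ (n + i2 + k3) := by clear * - y17 z11 z5; omega
              have r115 : (3 * i + 2 * l + i2 + m - n - k - k3 + 3) % 2 = 0 := by clear * - ev n1p n2p n3p; omega
              have r116 : (n + j + k3 - i - k - l - m - 2) % 2 = 0 := by clear * - ev n1p n2p n3p; omega
              clear * - al a2 b tt D1 kk103 kk104 kk105 kk106 kk107 kk108 kk109 kk110 kk111 kk112 kk113 kk114 r115 r116
              exact midP al (n + j + k3 - i - k - l - m - 2) (3 * i + 2 * l + i2 + m - n - k - k3 + 3) (i2 - m) (Q + i + l + m - n - k3 + 2) (j) (by omega) (fun t h1 h2 => (cE (cE (qa tt al 0 t ((i + l + i2 + 1) - t) (by omega)) (qf (show Par W (k + 1) (n + k + k3 - 2 * i - l - m - 2) (2 * i + l + m - k - k3 + 2) from fun t h1 h2 => (cE (sh al (-1) t (t + (-n)) (by omega)) (cE (pb b al (-1) (t + (-n)) (t + (i - k)) (by omega)) (pb D1 al 0 (t + (i - k)) (t + (2 * i + l + m - k - k3 + 2)) (by omega))))) al 0 ((i + l + i2 + 1) -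 t) ((3 * i + 2 * l + i2 + m - k - k3 + 3) - t) (by omega))) (sh al (-1) ((3 * i + 2 * l + i2 + m - k - k3 + 3) - t) ((3 * i + 2 * l + i2 + m - n - k - k3 + 3) - t) (by omega)))) (fun t h1 h2 => (cE (qf (show Par W (Q + i + l + m - k3 + 2) (i + k + l + m - k3 + 2) (n + j + k3 - i - k - l - m - 2) from fun t h1 h2 => (cE (sh al (-1) t (t + (-n)) (by omega)) (cE (cE (qf D1 al (-1) (t + (-n)) (t + (k3 - i - l - m - 2)) (by omega)) (pb a2 al 0 (t + (k3 - i - l - m - 2)) (t + (j + k3 - i - k - l - m - 2)) (by omega))) (sh al 1 (t + (j + k3 - i - k - l - m - 2)) (t + (n + j + k3 - i - k - l - m - 2)) (by omega))))) al (-1) t (t + (2 * n + j + k3 - i - k - l - m - 2)) (by omega)) (sh al (-1) (t + (2 * n + j + k3 - i - k - l - m - 2)) (t + (n + j + k3 - i - k - l - m - 2)) (by omega))))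
            · by_cases z12 : (3 * i + 2 * l + k3 + 3) ≤ (j + 2 * k + i2 + m)
              · have kk117 : (j + k3) ≤ (i + i2 + m) := by clear * - b1 y18 y19 z10 z12 z4; omega
                have kk118 : (i + i2 + 1) ≤ (j + m + k3) := by clear * - y16 z10 z11 z3; omega
                have kk119 : (i + m + 1) ≤ (j + i2 + k3) := by clear * - y13 y18 z11 z4 z8; omega
                have kk120 : (3 * i + 2 * l + k3 + 3) ≤ (j + 2 * k + i2 + m) := by clear * - z12; omega
                have kk121 : (k) ≤ (i + l + 1) := by clear * - y16 y19 z4; omega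
                have kk122 : (i + m + 1) ≤ (k) := by clear * - y16 y20 z10 z11 z3 z4 z5; omega
                have kk123 : (j + k3 + 1) ≤ (k) := by clear * - y16 y18 y19 z10 z4 z5; omega
                have kk124 : (j + k3) ≤ (i + m) := by clear * - y10 y15 y18; omega
                have kk125 : (i + k + l + m + 2) ≤ (n + k3) := by clear * - y16 y19; omega
                have kk126 : (k) ≤ (2 * i + l + 2) := by clear * - y13 y19 z4; omega
                have kk127 : (k3) ≤ (i + m + 1) := by clear * - b1 y18 y19 z10 z12 z4; omega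
                have r128 : (2 * i + l + i2 - 2 * n - k + 1) % 2 = 0 := by clear * - ev n1p n2p n3p; omega
                have r129 : (i + i2 + m - j - k3 + 1) % 2 = 0 := by clear * - ev n1p n2p n3p; omega
                clear * - al a1 b c2 tt D1 kk117 kk118 kk119 kk120 kk121 kk122 kk123 kk124 kk125 kk126 kk127 r128 r129
                exact midP al (i + i2 + m - j - k3 + 1) (2 * i + l + i2 - 2 * n - k + 1) (2 * i + l - n - k + 2) (-n) (i + i2 + m - n - k3 + 1) (by omega) (fun t h1 h2 => (cE (cI (qf b al (-1) t (t + (n + k - i)) (by omega)) (ab tt al 0 (t + (n + k - i)) ((2 * i + l + i2 - n - k + 1) - t) (by omega))) (sh al (-1) ((2 * i + l + i2 - n - k + 1) - t) ((2 * i + l + i2 - 2 * n - k + 1) - t) (by omega)))) (fun t h1 h2 => (cE (cE (cE (qf a1 al (-1) t (t + (n + k - j)) (by omega)) (pb D1 al 0 (t + (n + k - j)) (t + (n + i + k + l + m - j - k3 + 2)) (by omega))) (qf c2 al 0 (t + (n + i + k + l + m - j - k3 + 2)) (t + (n + i + i2 + m - j - k3 + 1))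 (by omega))) (sh al (-1) (t + (n + i + i2 + m - j - k3 + 1)) (t + (i + i2 + m - j - k3 + 1)) (by omega))))
              · by_cases v4 : (i + k + 1) ≤ (2 * Q)
                · have kk130 : (2 * Q + i2 + m + 1) ≤ (2 * k + k3) := by clear * - b1 v4 y18 z10 z12 z5 z8; omega
                  have kk131 : (i2 + k3) ≤ (2 * i + m) := by clear * - y10 y13 y15; omega
                  have kk132 : (k3 + 1) ≤ (Q) := by clear * - b1 v4 y19 z10 z3 z4 z5 z8; omega
                  have kk133 : (i + k + l + m + 2) ≤ (n + k3) := by clear * - y16 y19; omega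
                  have kk134 : (i + k + 1) ≤ (2 * Q) := by clear * - v4; omega
                  have kk135 : (i) ≤ (i2) := by clear * - v4 y18 z10 z3 z5 z8; omega
                  have kk136 : (j) ≤ (i2) := by clear * - y18; omega
                  have r137 : (2 * i + 2 * k + 2 * l + m - 2 * n - i2 - k3 + 3) % 2 = 0 := by clear * - ev n1p n2p n3p; omega
                  clear * - al a2 s2 c1 D1 kk130 kk131 kk132 kk133 kk134 kk135 kk136 r137
                  obtain ⟨t, ht⟩ : ∃ t, 2 * t = (2 * i + 2 * k + 2 * l + m - 2 * n - i2 - k3 + 3) := ⟨(2 * i + 2 * k + 2 * l + m - 2 * n - i2 - k3 + 3) / 2, by omega⟩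
                  exact al.ninv t (cE (cE (cI (qf (show Par W (Q + i + l + m - k3 + 2) (i + k + l + m - k3 + 2) (n + j + k3 - i - k - l - m - 2) from fun t h1 h2 => (cE (sh al (-1) t (t + (-n)) (by omega)) (cE (cE (qf D1 al (-1) (t + (-n)) (t + (k3 - i - l - m - 2)) (by omega)) (pb a2 al 0 (t + (k3 - i - l - m - 2)) (t + (j + k3 - i - k - l - m - 2)) (by omega))) (sh al 1 (t + (j + k3 - i - k - l - m - 2)) (t + (n + j + k3 - i - k - l - m - 2)) (by omega))))) al (-1) t (t + (2 * n + j + k3 - i - k - l - m - 2)) (by omega)) (ab s2 al 1 (t + (2 * n + j + k3 - i - k - l - m - 2)) ((2 * i + k + l + m - n - k3 + 2) - t) (by omega))) (qf c1 al 0 ((2 * i + k + l + m - n - k3 + 2) - t) ((2 * i + 2 * k + 2 * l + m - n - i2 - k3 + 3) - t) (by omega))) (sh al (-1) ((2 * i + 2 * k + 2 * l + m - n - i2 - k3 + 3) - t) t (by omega)))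
                · have kk138 : (2 * i + i2 + m + 3) ≤ (2 * Q + k3) := by clear * - y10 y18 z10 z11 z12 z4 z8; omega
                  have kk139 : (i2 + k3) ≤ (2 * i + m) := by clear * - y10 y13 y15; omega
                  have kk140 : (k3 + 1) ≤ (Q) := by clear * - y18 y19 z10 z11 z4; omega
                  have kk141 : (i + k + l + m + 2) ≤ (n + k3) := by clear * - y16 y19; omega
                  have kk142 : (2 * Q) ≤ (i + k + 1) := by clear * - v4; omega
                  have kk143 : (i) ≤ (i2) := by clear * - y10 y18 z11 z4 z8; omega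
                  have kk144 : (j) ≤ (i2) := by clear * - y18; omega
                  have r145 : (2 * i + 2 * k + 2 * l + m - 2 * n - i2 - k3 + 3) % 2 = 0 := by clear * - ev n1p n2p n3p; omega
                  clear * - al a2 s2 c1 D1 kk138 kk139 kk140 kk141 kk142 kk143 kk144 r145
                  obtain ⟨t, ht⟩ : ∃ t, 2 * t = (2 * i + 2 * k + 2 * l + m - 2 * n - i2 - k3 + 3) := ⟨(2 * i + 2 * k + 2 * l + m - 2 * n - i2 - k3 + 3) / 2, by omega⟩
                  exact al.ninv t (cE (cE (cI (qf (show Par W (Q + i + l + m - k3 + 2) (i + k + l + m - k3 + 2) (n + j + k3 - i - k - l - m - 2) from fun t h1 h2 => (cE (sh al (-1) t (t + (-n)) (by omega)) (cE (cE (qf D1 al (-1) (t + (-n)) (t + (k3 - i - l - m - 2)) (by omega)) (pb a2 al 0 (t + (k3 - i - l - m - 2)) (t + (j + k3 - i - k - l - m - 2)) (by omega))) (sh al 1 (t + (j + k3 - i - k - l - m - 2)) (t + (n + j + k3 - i - k - l - m - 2)) (by omega))))) al (-1) t (t + (2 * n + j + k3 - i - k - l - m - 2)) (by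 omega)) (ab s2 al 1 (t + (2 * n + j + k3 - i - k - l - m - 2)) ((2 * i + k + l + m - n - k3 + 2) - t) (by omega))) (qf c1 al 0 ((2 * i + k + l + m - n - k3 + 2) - t) ((2 * i + 2 * k + 2 * l + m - n - i2 - k3 + 3) - t) (by omega))) (sh al (-1) ((2 * i + 2 * k + 2 * l + m - n - i2 - k3 + 3) - t) t (by omega)))
          · by_cases z13 : (Q + k) ≤ (2 * i + l + 2)
            · have kk146 : (2 * i + m + 2) ≤ (k + k3) := by clear * - y14 y16 y21; omega
              have kk147 : (k + l + 2) ≤ (n) := by clear * - y10 y15 y17 y18; omega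
              have kk148 : (3 * i + l + m + 3) ≤ (2 * k + k3) := by clear * - y1 y10 y13 z5 ev n1p n2p n3p; omega
              have kk149 : (n + j + k3) ≤ (2 * k + l + m + 1) := by clear * - b0 y10 z5; omega
              have kk150 : (2 * i + k + l + 2 * m + 3) ≤ (n + j + 2 * k3) := by clear * - y16 y8 z10 z8; omega
              have kk151 : (Q + k) ≤ (2 * i + l + 2) := by clear * - z13; omega
              have kk152 : (j + k3) ≤ (i + m) := by clear * - y10 y15 y18; omega
              have kk153 : (k3) ≤ (i) := by clear * - y15; omega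
              have kk154 : (n + k3) ≤ (2 * i + 2 * l + m + 3) := by clear * - z4; omega
              have kk155 : (i + k + l + m + 3) ≤ (n + Q + j) := by clear * - y14 y17; omega
              have kk156 : (0) ≤ (j) := by clear * - y1 y13 y15; omega
              have kk157 : (k + k3) ≤ (2 * i + l + m + 2) := by clear * - b0 y19; omega
              have kk158 : (k + l + 1) ≤ (n) := by clear * - y10 y15 y17 y18; omega
              have kk159 : (i + 1) ≤ (Q) := by clear * - y14 y16; omega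
              have kk160 : (k) ≤ (i + j + l + 1) := by clear * - y17 z4; omega
              have r161 : (2 * k + k3 - 3 * i - l - m - 2) % 2 = 0 := by clear * - ev n1p n2p n3p; omega
              have r162 : (2 * k + l + m - n - j - k3 + 2) % 2 = 0 := by clear * - ev n1p n2p n3p; omega
              clear * - al a2 b D1 n2 kk146 kk147 kk148 kk149 kk150 kk151 kk152 kk153 kk154 kk155 kk156 kk157 kk158 kk159 kk160 r161 r162
              exact n2.f0 (rEE (sh al (-1) (i + l + 1) (i + l - n + 1) (by omega)) (cE (pb (show Par W (k + 1) (n + k + k3 - 2 * i - l - m - 2) (2 * i + l + m - k - k3 + 2) from fun t h1 h2 => (cE (sh al (-1) t (t + (-n)) (by omega)) (cE (pb b al (-1) (t + (-n)) (t + (i - k)) (by omega)) (pb D1 al 0 (t + (i - k)) (t + (2 * i + l + m - k - k3 + 2)) (by omega))))) al 0 (k + l + 1) (2 * k + k3 - 2 * i - m - 1) (by omega)) (sh al (-1) (2 * k + k3 - 2 * i - m - 1) (2 * k + k3 - n - 2 * i - m - 1) (by omega))) (rotR (2 * k + k3 - 3 * i - l - m -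 2) (2 * k + l + m - n - j - k3 + 2) (i + l - n + 1) (2 * k + k3 - n - 2 * i - m - 1) (by omega) (fun t h1 h2 => (cE (cE (qf b al (-1) t (t + (n + k - i)) (by omega)) (pb (show Par W (k + 1) (n + k + k3 - 2 * i - l - m - 2) (2 * i + l + m - k - k3 + 2) from fun t h1 h2 => (cE (sh al (-1) t (t + (-n)) (by omega)) (cE (pb b al (-1) (t + (-n)) (t + (i - k)) (by omega)) (pb D1 al 0 (t + (i - k)) (t + (2 * i + l + m - k - k3 + 2)) (by omega))))) al 0 (t + (n + k - i)) (t + (n + 2 * k + k3 - 3 * i - l - m - 2)) (by omega))) (sh al (-1) (t + (n + 2 * k + k3 - 3 * i - l - m - 2)) (t + (2 * k + k3 - 3 * i - l - m - 2)) (by omega)))) (fun t h1 h2 => (cE (cE (pb (show Par W (Q) (k - j) (n + j + k3 - i - k - l - m - 2) from fun t h1 h2 => (cE (sh al (-1) t (t + (-n)) (by omega)) (cE (pb a2 al (-1) (t + (-n)) (t + (j - k)) (by omega)) (qf D1 al (-1) (t + (j - k)) (t + (n + j + k3 - i - k - l - m - 2)) (by omega))))) al (-1) t (t + (i + k + l + m - j - k3 + 2)) (by omega))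 (qf b al 0 (t + (i + k + l + m - j - k3 + 2)) (t + (2 * k + l + m - j - k3 + 2)) (by omega))) (sh al (-1) (t + (2 * k + l + m - j - k3 + 2)) (t + (2 * k + l + m - n - j - k3 + 2)) (by omega))))))
            · have kk163 : (i + j + k + l + m + 4) ≤ (n + k3) := by clear * - y10 z10 ev n1p n2p n3p; omega
              have kk164 : (j + k + l + m + 3) ≤ (n + i + k3) := by clear * - y10 y13 y15 z10; omega
              have kk165 : (Q) ≤ (i + l + 1) := by clear * - y16 y20 y21 z13 z3 z4; omega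
              have kk166 : (n + k3) ≤ (Q + k + l + m + 2) := by clear * - z13 z4; omega
              have kk167 : (i) ≤ (j) := by clear * - y10 z10 z13 z4 z8; omega
              have kk168 : (i + k3) ≤ (j + k) := by clear * - b1 y10 y21 z10 z13 z4 z8; omega
              have r169 : (i + j + k + l + m - n - k3 + 2) % 2 = 0 := by clear * - ev n1p n2p n3p; omega
              clear * - al s2 b D1 kk163 kk164 kk165 kk166 kk167 kk168 r169
              obtain ⟨t, ht⟩ : ∃ t, 2 * t = (i + j + k + l + m - n - k3 + 2) := ⟨(i + j + k + l + m - n - k3 + 2) / 2, by omega⟩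
              exact al.ninv t (cE (cE (cE (ab s2 al 0 t ((i + j) - t) (by omega)) (qf b al 0 ((i + j) - t) ((j + k) - t) (by omega))) (pb D1 al 0 ((j + k) - t) ((i + j + k + l + m - k3 + 2) - t) (by omega))) (sh al (-1) ((i + j + k + l + m - k3 + 2) - t) t (by omega)))

theorem sliver_1 {W : ℤ → G} {n Q i j k l i2 m k3 : ℤ} (al : AL W n Q)
    (hy : (0) ≤ (i) ∧ (i) ≤ (j) ∧ (j + 1) ≤ (Q) ∧ (Q) ≤ (k) ∧ (k + 1) ≤ (n) ∧ (Q) ≤ (i + l + 1) ∧ (k + l + 2) ≤ (n) ∧ (0) ≤ (i2) ∧ (i2 + 1) ≤ (Q) ∧ (Q + m + 1) ≤ (n + i2) ∧ (i2) ≤ (m) ∧ (Q) ≤ (i + l + m + 2) ∧ (i + l + m + 3) ≤ (n) ∧ (0) ≤ (k3) ∧ (k3 + 1) ≤ (Q) ∧ (k3) ≤ (i) ∧ (i) ≤ (k3) ∧ (i + k + l + m + 3) ≤ (n + j + k3) ∧ (j + 1) ≤ (i2) ∧ (k + l + m + 3) ≤ (n) ∧ (i + l + 2 * m + 4) ≤ (n) ∧ (Q + m + 1) ≤ (k))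
    (a1 : Par W (0) (j) (k - j))
    (a2 : Par W (Q + j - k) (j) (k - j))
    (s1 : Ant W (0) (i) (i + j))
    (s2 : Ant W (j + 1) (Q) (i + j))
    (b : Par W (i + 1) (i + l + 1) (k - i))
    (c1 : Par W (i2 + 1) (Q) (k + l - i2 + 1))
    (c2 : Par W (k + l + 2) (n) (i2 - k - l - 1))
    (tt : Ant W (i2 - m) (i2) (i + l + i2 + 1))
    (D1 : Par W (i + l + m + 3) (n) (k3 - i - l - m - 2))
    (D2 : Par W (k3 + 1) (Q) (i + l + m - k3 + 2))
    (E0 : Par W (0) (k3) (n + i2 - m - k3 - 1))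
    {L : ℤ} (mx : ∀ a b g, 0 < g → g < n → Par W a b g → b - a ≤ L)
    (hL : L ≤ (n - j - 3) ∧ L ≤ (n + Q - k - 3) ∧ L ≤ (n - l - 3) ∧ L ≤ (n + i - k - 2) ∧ L ≤ (n - k3 - 3) ∧ L ≤ (i + l + m) ∧ L ≤ (n + k3 - Q - 2) ∧ L ≤ (i + l + m - k3))
    (bd0 : Bd W n L (j) (i) (k))
    (bd2 : Bd W n L (n + i2 - m - 1) (i + l + m + 2) (k3))
    (n1 : Nd W (j) (i) (k))
    (n2 : Nd W (i + l + 1) (i2) (k + l + 1))
    (n3 : Nd W (n + i2 - m - 1) (i + l + m + 2) (k3))
    (b0 : (n + k3) ≤ (2 * i + 2 * l + 2 * m + 3)) : False := by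
  have ev := al.ev
  obtain ⟨y0, y1, y2, y3, y4, y5, y6, y7, y8, y9, y10, y11, y12, y13, y14, y15, y16, y17, y18, y19, y20, y21⟩ := id hy
  have n1p := And.intro n1.p1 n1.p2
  have n2p := And.intro n2.p1 n2.p2
  have n3p := And.intro n3.p1 n3.p2
  by_cases z2 : (n) ≤ (2 * l + 2)
  · have kk4 : (i + 1) ≤ (k) := by clear * - y10 y14 y16 y21 y7; omega
    have kk5 : (k + 1) ≤ (n + i) := by clear * - b0 y12 y13 y19; omega
    have kk6 : (n) ≤ (2 * l + 2) := by clear * - z2; omega
    clear * - al b mx hL kk4 kk5 kk6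
    exact absurd (mx (i - n + 1) (i + l - n + 1) (k - i) (by omega) (by omega) fun t h1 h2 => (cE (qf b al (-1) t (t + (n + k - i)) (by omega)) (sh al (-1) (t + (n + k - i)) (t + (k - i)) (by omega)))) (by omega)
  · exact sliver_2 al hy a1 a2 s1 s2 b c1 c2 tt D1 D2 E0 mx hL bd0 bd2 n1 n2 n3 (by clear * - b0; omega) (by clear * - z2; omega)

theorem sliver {W : ℤ → G} {n Q i j k l i2 m k3 : ℤ} (al : AL W n Q)
    (hy : (0) ≤ (i) ∧ (i) ≤ (j) ∧ (j + 1) ≤ (Q) ∧ (Q) ≤ (k) ∧ (k + 1) ≤ (n) ∧ (Q) ≤ (i + l + 1) ∧ (k + l + 2) ≤ (n) ∧ (0) ≤ (i2) ∧ (i2 + 1) ≤ (Q) ∧ (Q + m + 1) ≤ (n + i2) ∧ (i2) ≤ (m) ∧ (Q) ≤ (i + l + m + 2) ∧ (i + l + m + 3) ≤ (n) ∧ (0) ≤ (k3) ∧ (k3 + 1) ≤ (Q) ∧ (k3) ≤ (i) ∧ (i) ≤ (k3) ∧ (i + k + l + m + 3) ≤ (n + j + k3) ∧ (j + 1) ≤ (i2) ∧ (k + l + m + 3) ≤ (n) ∧ (i + l + 2 * m + 4) ≤ (n) ∧ (Q + m + 1) ≤ (k))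
    (a1 : Par W (0) (j) (k - j))
    (a2 : Par W (Q + j - k) (j) (k - j))
    (s1 : Ant W (0) (i) (i + j))
    (s2 : Ant W (j + 1) (Q) (i + j))
    (b : Par W (i + 1) (i + l + 1) (k - i))
    (c1 : Par W (i2 + 1) (Q) (k + l - i2 + 1))
    (c2 : Par W (k + l + 2) (n) (i2 - k - l - 1))
    (tt : Ant W (i2 - m) (i2) (i + l + i2 + 1))
    (D1 : Par W (i + l + m + 3) (n) (k3 - i - l - m - 2))
    (D2 : Par W (k3 + 1) (Q) (i + l + m - k3 + 2))
    (E0 : Par W (0) (k3) (n + i2 - m - k3 - 1))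
    {L : ℤ} (mx : ∀ a b g, 0 < g → g < n → Par W a b g → b - a ≤ L)
    (hL : L ≤ (n - j - 3) ∧ L ≤ (n + Q - k - 3) ∧ L ≤ (n - l - 3) ∧ L ≤ (n + i - k - 2) ∧ L ≤ (n - k3 - 3) ∧ L ≤ (i + l + m) ∧ L ≤ (n + k3 - Q - 2) ∧ L ≤ (i + l + m - k3))
    (bd0 : Bd W n L (j) (i) (k))
    (bd2 : Bd W n L (n + i2 - m - 1) (i + l + m + 2) (k3))
    (n1 : Nd W (j) (i) (k))
    (n2 : Nd W (i + l + 1) (i2) (k + l + 1))
    (n3 : Nd W (n + i2 - m - 1) (i + l + m + 2) (k3)) : False := by
  have ev := al.ev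
  obtain ⟨y0, y1, y2, y3, y4, y5, y6, y7, y8, y9, y10, y11, y12, y13, y14, y15, y16, y17, y18, y19, y20, y21⟩ := id hy
  have n1p := And.intro n1.p1 n1.p2
  have n2p := And.intro n2.p1 n2.p2
  have n3p := And.intro n3.p1 n3.p2
  by_cases z1 : (2 * i + 2 * l + 2 * m + 4) ≤ (n + k3)
  · have kk1 : (i + l + m + 3) ≤ (n + k3) := by clear * - y12 y13; omega
    have kk2 : (k3) ≤ (i + l + m + 1) := by clear * - y11 y14; omega
    have kk3 : (2 * i + 2 * l + 2 * m + 4) ≤ (n + k3) := by clear * - z1; omega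
    clear * - al D1 mx hL kk1 kk2 kk3
    exact absurd (mx (n + i + l + m + 3) (2 * n) (n + k3 - i - l - m - 2) (by omega) (by omega) fun t h1 h2 => (cE (qf D1 al 1 t (t + (k3 - n - i - l - m - 2)) (by omega)) (sh al 2 (t + (k3 - n - i - l - m - 2)) (t + (n + k3 - i - l - m - 2)) (by omega)))) (by omega)
  · exact sliver_1 al hy a1 a2 s1 s2 b c1 c2 tt D1 D2 E0 mx hL bd0 bd2 n1 n2 n3 (by clear * - z1; omega)

end Pool.Agent.MP_a38735_al.WL
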