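import Pool.Agent.MP_a38735_al.AD

set_option autoImplicit false

namespace Pool.Agent.MP_a38735_al.WL

open Function

/-- a periodic orbit of a map of the junctions along bands `[a t, b t]` with shift `d t`: all its
points see the same window, and the ends of bands next to the window are joined in cycles -/
theorem orbit {β : Type*} {V : ℤ → β} {n : ℤ} (lo t0 : ℤ) (hn : 0 < n) (n2 : n % 2 = 0)
    (per : ∀ t, V (t + n) = V t) (a b d : ℤ → ℤ)
    (h : ∀ t, lo ≤ t → t < lo + n → a t ≤ t ∧ t ≤ b t ∧ d t % 2 = 0 ∧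
      ∀ s, a t ≤ s → s < b t → V (s + d t) = V s) (h0 : lo ≤ t0 ∧ t0 < lo + n) :
    ∃ (u v : ℤ) (P : ℤ → Prop), 0 ≤ u ∧ 0 ≤ v ∧
      (∀ t, P t → lo ≤ t ∧ t < lo + n ∧ (t - t0) % 2 = 0 ∧ a t + u ≤ t ∧ t + v ≤ b t) ∧
      (∀ t t', P t → P t' → ∀ s, -u ≤ s → s < v → V (t + s) = V (t' + s)) ∧
      (∃ t, P t) ∧
      (∀ t, P t → ∃ t', P t' ∧ t' + v = b t' ∧ V (t + d t + v) = V (t' + v)) ∧
      (∀ t, P t → ∃ t', P t' ∧ a t' + u = t' ∧ V (t + d t - u - 1) = V (t' - u - 1)) ∧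
      (∀ t, P t → ∃ t' m, P t' ∧ t + d t = t' + m * n) ∧
      (∀ t, P t → ∃ t' m, P t' ∧ t = t' + d t' + m * n) ∧
      ∀ (C : ℤ → Prop) (y : ℤ), P y → C y →
        (∀ x x' m, P x → P x' → x + d x = x' + m * n → C x' → C x) → ∀ x, P x → C x := by
  classical
  obtain ⟨ψ, hψ⟩ : ∃ ψ : ℤ → ℤ, ∀ t, ψ t = lo + (t + d t - lo) % n := ⟨_, fun _ => rfl⟩
  have p1 : ∀ t, lo ≤ ψ t ∧ ψ t < lo + n ∧ (ψ t - (t + d t)) % 2 = 0 ∧
      (∀ s, V (ψ t + s) = V (t + d t + s)) ∧ ∃ m, t + d t = ψ t + m * n := fun t => by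
    have e := Int.mul_ediv_add_emod (t + d t - lo) n
    have l1 := Int.emod_nonneg (t + d t - lo) hn.ne'
    have l2 := Int.emod_lt_of_pos (t + d t - lo) hn
    rw [hψ]
    generalize (t + d t - lo) % n = r at *
    generalize (t + d t - lo) / n = q at *
    refine ⟨by omega, by omega, ?_, fun s => ?_, q, by linarith⟩
    · obtain ⟨g, rfl⟩ : ∃ g, n = 2 * g := ⟨n / 2, by omega⟩
      have : lo + r - (t + d t) = 2 * -(g * q) := by linarith
      omega
    · rw [← perM per q]; congr 1; linarith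
  have cl : ∀ x ∈ Finset.Ico lo (lo + n), ψ x ∈ Finset.Ico lo (lo + n) := fun x _ =>
    Finset.mem_Ico.2 ⟨(p1 x).1, (p1 x).2.1⟩
  have hy : t0 ∈ Finset.Ico lo (lo + n) := Finset.mem_Ico.2 h0
  obtain ⟨m, N, N0, hN⟩ := im_per cl hy
  let P : ℤ → Prop := fun w => ∃ c : ℕ, w = ψ^[c + m] t0
  have o1 : ∀ w, P w → P (ψ w) := by
    rintro w ⟨c, rfl⟩
    exact ⟨c + 1, by rw [add_right_comm, iterate_succ_apply']⟩
  have o3 : ∀ c : ℕ, lo ≤ ψ^[c] t0 ∧ ψ^[c] t0 < lo + n ∧ (ψ^[c] t0 - t0) % 2 = 0 := fun c => by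
    induction c with
    | zero => exact ⟨h0.1, h0.2, by simp⟩
    | succ c ih =>
      rw [iterate_succ_apply']
      have := p1 (ψ^[c] t0)
      have := h _ ih.1 ih.2.1
      omega
  have o4 : ∀ w, P w → lo ≤ w ∧ w < lo + n ∧ (w - t0) % 2 = 0 := by
    rintro w ⟨c, rfl⟩
    exact o3 _
  have con : ∀ x y, P x → P y → ∃ r : ℕ, ψ^[r] x = y := by
    rintro x y ⟨c, rfl⟩ ⟨c', rfl⟩
    obtain ⟨N, rfl⟩ := Nat.exists_eq_succ_of_ne_zero N0.ne'
    refine ⟨c' + N * c, ?_⟩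
    rw [← iterate_add_apply, show c' + N * c + (c + m) = c' + (N.succ * c + m) by
      rw [Nat.succ_mul]; omega, iterate_add_apply, iterate_add_apply ψ _ m, (hN.mul_const c).eq,
      ← iterate_add_apply]
  have ind : ∀ (C : ℤ → Prop) (y : ℤ), P y → C y → (∀ x, P x → C (ψ x) → C x) →
      ∀ x, P x → C x := by
    intro C y hy cy st x hx
    obtain ⟨r, e⟩ := con x y hx hy
    induction r generalizing x with
    | zero => exact (show x = y from e) ▸ cy
    | succ r ih => exact st x hx (ih _ (o1 x hx) e)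
  have ne : P (ψ^[0 + m] t0) := ⟨0, rfl⟩
  obtain ⟨u, ⟨x, hx, ex⟩, mu⟩ := Int.exists_least_of_bdd (P := fun u => ∃ t, P t ∧ a t + u = t)
    ⟨0, fun z ⟨t, ht, e⟩ => by have := o4 t ht; have := h t this.1 this.2.1; omega⟩
    ⟨_, _, ne, add_sub_cancel _ _⟩
  obtain ⟨v, ⟨y, hy, ey⟩, mv⟩ := Int.exists_least_of_bdd (P := fun v => ∃ t, P t ∧ t + v = b t)
    ⟨0, fun z ⟨t, ht, e⟩ => by have := o4 t ht; have := h t this.1 this.2.1; omega⟩
    ⟨_, _, ne, add_sub_cancel _ _⟩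
  have lu : ∀ t, P t → a t + u ≤ t := fun t ht => by
    have := mu (t - a t) ⟨t, ht, by ring⟩; omega
  have lv : ∀ t, P t → t + v ≤ b t := fun t ht => by
    have := mv (b t - t) ⟨t, ht, by ring⟩; omega
  have mv : ∀ t, P t → ∀ s, a t ≤ t + s → t + s < b t → V (ψ t + s) = V (t + s) :=
    fun t ht s h1 h2 => by
    rw [(p1 t).2.2.2.1, add_right_comm]
    exact (h t (o4 t ht).1 (o4 t ht).2.1).2.2.2 _ h1 h2
  have bx := h x (o4 x hx).1 (o4 x hx).2.1
  have by' := h y (o4 y hy).1 (o4 y hy).2.1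
  refine ⟨u, v, P, by omega, by omega, fun t ht => ⟨(o4 t ht).1, (o4 t ht).2.1, (o4 t ht).2.2,
    lu t ht, lv t ht⟩, fun t t' ht ht' s h1 h2 => ?_, ⟨_, ne⟩, fun t ht => ?_, fun t ht => ?_,
    fun t ht => ?_, fun t ht => ?_, fun C y hy cy st => ind C y hy cy fun x hx e => ?_⟩
  · refine ind (fun t => V (t + s) = V (t' + s)) t' ht' rfl (fun x hx e => ?_) t ht
    have := lu x hx
    have := lv x hx
    rw [← e, mv x hx s (by omega) (by omega)]
  · rw [← (p1 t).2.2.2.1]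
    refine ind (fun x => ∃ t', P t' ∧ t' + v = b t' ∧ V (x + v) = V (t' + v)) y hy ⟨y, hy, ey, rfl⟩
      (fun x hx e => ?_) _ (o1 t ht)
    have := lu x hx
    have := lv x hx
    by_cases z : x + v = b x
    · exact ⟨x, hx, z, rfl⟩
    · rwa [mv x hx v (by omega) (by omega)] at e
  · simp only [sub_sub, sub_eq_add_neg _ (u + 1)]
    rw [← (p1 t).2.2.2.1]
    refine ind (fun x => ∃ t', P t' ∧ a t' + u = t' ∧ V (x + -(u + 1)) = V (t' + -(u + 1))) x hx
      ⟨x, hx, ex, rfl⟩ (fun x hx e => ?_) _ (o1 t ht)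
    have := lu x hx
    have := lv x hx
    by_cases z : a x + u = x
    · exact ⟨x, hx, z, rfl⟩
    · rwa [mv x hx _ (by omega) (by omega)] at e
  · obtain ⟨m, e⟩ := (p1 t).2.2.2.2
    exact ⟨_, m, o1 t ht, e⟩
  · obtain ⟨r, e⟩ := con _ t (o1 t ht) ht
    have z : ∀ r : ℕ, P (ψ^[r] t) := fun r => by
      induction r with
      | zero => exact ht
      | succ r ih => rw [iterate_succ_apply']; exact o1 _ ih
    obtain ⟨m, e'⟩ := (p1 (ψ^[r] t)).2.2.2.2
    rw [← iterate_succ_apply, iterate_succ_apply'] at e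
    exact ⟨_, -m, z r, by linarith⟩
  · obtain ⟨m, e'⟩ := (p1 x).2.2.2.2
    exact st x _ m hx (o1 x hx) e' e

/-- `x < y` are neighbours in the periodic set spanned by `P` -/
def Cs (P : ℤ → Prop) (n x y : ℤ) : Prop :=
  (∃ t m, P t ∧ x = t + m * n) ∧ (∃ t m, P t ∧ y = t + m * n) ∧ x < y ∧
    ∀ t m, P t → t + m * n ≤ x ∨ y ≤ t + m * n

theorem mul_tri {n : ℤ} (hn : 0 < n) (m : ℤ) :
    m * n ≤ -n ∨ (m = 0 ∧ m * n = 0) ∨ (m = 1 ∧ m * n = n) ∨ 2 * n ≤ m * n := by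
  rcases lt_trichotomy m 0 with h | rfl | h
  · exact Or.inl (by nlinarith)
  · simp
  · rcases (show 1 ≤ m from h).eq_or_lt with rfl | h
    · simp
    · exact Or.inr (Or.inr (Or.inr (by nlinarith)))

variable {P : ℤ → Prop} {n x y : ℤ}

theorem Cs.sh (h : Cs P n x y) (c : ℤ) : Cs P n (x + c * n) (y + c * n) := by
  obtain ⟨⟨t, m, h1, e1⟩, ⟨t', m', h2, e2⟩, h3, h4⟩ := h
  refine ⟨⟨t, m + c, h1, by linarith⟩, ⟨t', m' + c, h2, by linarith⟩, by omega, fun s k hs => ?_⟩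
  have := h4 s (k - c) hs
  rw [sub_mul] at this
  omega

/-- a map that keeps the order sends neighbours to neighbours -/
theorem Cs.img {lo R e : ℤ} {d : ℤ → ℤ} (hn : 0 < n) (rp : ∀ t, P t → lo ≤ t ∧ t < lo + n)
    (rg : ∀ t, P t → R ≤ t + d t ∧ t + d t < R + n)
    (mo : ∀ s t, P s → P t → s < t → s + d s < t + d t)
    (cl : ∀ t, P t → ∃ t' m, P t' ∧ t + d t = t' + m * n)
    (sj : ∀ t, P t → ∃ t' m, P t' ∧ t = t' + d t' + m * n) (hx : P x) (hy : P y)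
    (he : e = 0 ∨ e = n) (h : Cs P n x (y + e)) : Cs P n (x + d x) (y + d y + e) := by
  have r1 := rg x hx
  have r2 := rg y hy
  have r3 := rp x hx
  have r4 := rp y hy
  have m1 := mo x y hx hy
  have l := h.2.2.1
  refine ⟨cl x hx, ?_, by omega, fun t m ht => ?_⟩
  · obtain ⟨t, m, ht, z⟩ := cl y hy
    rcases he with rfl | rfl
    exacts [⟨t, m, ht, by omega⟩, ⟨t, m + 1, ht, by linarith⟩]
  · obtain ⟨s, k, hs, z⟩ := sj t ht
    have r5 := rg s hs
    have r6 := rp s hs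
    have m2 := mo s x hs hx
    have m3 := mo y s hy hs
    have c0 := h.2.2.2 s 0 hs
    have c1 := h.2.2.2 s 1 hs
    have tr := mul_tri hn (k + m)
    rw [add_mul] at tr
    have z1 : s = x → d s = d x := fun z => by rw [z]
    have z2 : s = y → d s = d y := fun z => by rw [z]
    omega

/-- two neighbours are carried along, with the letters around them, to the end of a band -/
theorem gap {β : Type*} {V : ℤ → β} {lo R u v : ℤ} {a b d : ℤ → ℤ} (hn : 0 < n)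
    (per : ∀ t, V (t + n) = V t) (rp : ∀ t, P t → lo ≤ t ∧ t < lo + n)
    (rg : ∀ t, P t → R ≤ t + d t ∧ t + d t < R + n)
    (mo : ∀ s t, P s → P t → s < t → s + d s < t + d t)
    (cl : ∀ t, P t → ∃ t' m, P t' ∧ t + d t = t' + m * n)
    (sj : ∀ t, P t → ∃ t' m, P t' ∧ t = t' + d t' + m * n)
    (ind : ∀ (C : ℤ → Prop) (y : ℤ), P y → C y →
      (∀ x x' m, P x → P x' → x + d x = x' + m * n → C x' → C x) → ∀ x, P x → C x)
    (bd : ∀ t, P t → a t + u ≤ t ∧ t + v ≤ b t ∧ ∀ s, a t ≤ s → s < b t → V (s + d t) = V s)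
    (h : Cs P n x y) : ∃ x' y', P x' ∧ Cs P n x' y' ∧ y' - x' = y - x ∧
      (∀ s, -u ≤ s → s < y - x + v → V (x' + s) = V (x + s)) ∧
      ¬ (P y' ∧ b y' = b x' ∧ d y' = d x') := by
  obtain ⟨t, m, ht, rfl⟩ := h.1
  obtain ⟨z, hz, mz⟩ := Int.exists_greatest_of_bdd (P := P) ⟨lo + n, fun z hz => (rp z hz).2.le⟩
    ⟨t, ht⟩
  have key := ind (fun x => ∀ y, Cs P n x y → ∃ x' y', P x' ∧ Cs P n x' y' ∧ y' - x' = y - x ∧
      (∀ s, -u ≤ s → s < y - x + v → V (x' + s) = V (x + s)) ∧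
      ¬ (P y' ∧ b y' = b x' ∧ d y' = d x')) z hz
    (fun y hy => ⟨z, y, hz, hy, rfl, fun _ _ _ => rfl, fun c => by
      have := mz y c.1; have := hy.2.2.1; omega⟩) (fun x x' m hx hx' e ih y hy => by
      by_cases c : P y ∧ b y = b x ∧ d y = d x
      · have := (Cs.img hn rp rg mo cl sj hx c.1 (Or.inl rfl) (by simpa using hy)).sh (-m)
        obtain ⟨x2, y2, h1, h2, h3, h4, h5⟩ := ih (y + d y + 0 + -m * n)
          (by convert this using 1; linarith)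
        have b1 := bd x hx
        have b2 := bd y c.1
        refine ⟨x2, y2, h1, h2, by linarith [c.2.2], fun s k1 k2 => ?_, h5⟩
        rw [h4 s k1 (by linarith [c.2.2]), ← b1.2.2 (x + s) (by omega) (by omega), ← perM per m]
        congr 1; linarith
      · exact ⟨x, y, hx, hy, rfl, fun _ _ _ => rfl, c⟩) t ht (y + -m * n)
    (by convert h.sh (-m) using 1; ring)
  obtain ⟨x', y', h1, h2, h3, h4, h5⟩ := key
  refine ⟨x', y', h1, h2, by linarith, fun s k1 k2 => ?_, h5⟩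
  rw [h4 s k1 (by linarith), ← perM per m]
  congr 1; ring

end Pool.Agent.MP_a38735_al.WL
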