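import Pool.Agent.MP_a38735_al.L3c1
import Pool.Agent.MP_a38735_al.L3c3
import Pool.Agent.MP_a38735_al.L3c4
import Pool.Agent.MP_a38735_al.L3c5
import Pool.Agent.MP_a38735_al.L3c6
import Pool.Agent.MP_a38735_al.L3c8
import Pool.Agent.MP_a38735_al.L3c10
import Pool.Agent.MP_a38735_al.M3c13
import Pool.Agent.MP_a38735_al.IM
import Pool.Agent.MP_a38735_al.Lam

set_option autoImplicit false

namespace Pool.Agent.MP_a38735_al.WL

/-- the two cases of `StL3` with `Q ≤ p`, `j2 = p`, `j3 ≥ Q` and a strip from `i3` to `n` -/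
def StL3x (G : Type*) [Group G] : Prop :=
  ∀ (W : ℤ → G) (n Q i j k l p q i2 m i3 j3 k3 : ℤ), AL W n Q → Leaf W n Q i j k l p q Q n →
    0 ≤ i2 → i2 < Q → Nd W p i2 q → Par W (i2 + 1) Q (q - i2) → Par W (q + 1) n (i2 - q) →
    Ant W (i2 - m) i2 (i2 + p) → j3 = i2 - m - 1 + n → i3 = p + m + 1 → Q ≤ j3 → j3 < n →
    Q ≤ i3 → i3 < n → Nd W j3 i3 k3 → Par W (i3 + 1) n (k3 - i3) →
    ((Q ≤ k3 ∧ k3 < n ∧ Par W Q k3 (j3 - k3)) ∨ (0 ≤ k3 ∧ k3 < Q ∧ Par W (k3 + 1) Q (i3 - k3))) →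
    False

theorem stL3_of {G : Type*} [Group G] (hx : StL3x G) : StL3 G := by
  intro W n Q i j k l p q s e s' e' i2 j2 k2 m i3 j3 k3 s3 e3 s4 e4 al lf ps jk h1 h2 n2 c1 c2 S o
    h3 h4 h5 h6 n3 z
  obtain ⟨i0, ij, jQ, Qk, kn, n1, a1, a2, s1, s2, b, hp, lk⟩ := id lf
  have q0 := al.q0
  have qn := al.qn
  have ev := al.ev
  have p1 := n1.p1
  have p2 := n1.p2
  have p3 := n2.p1
  have p4 := n3.p2
  rcases lk with ⟨hs, he, hq, u1, u2⟩ | ⟨hs, he, hq, u1, u2⟩
  · obtain ⟨rfl, rfl⟩ : 0 = s' ∧ Q = e' := by unfold Pts at ps; omega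
    obtain ⟨rfl, rfl⟩ : Q = s ∧ n = e := ⟨hs.symm, he.symm⟩
    rcases jk with ⟨rfl, rfl⟩ | ⟨rfl, rfl⟩
    · rcases o with ⟨o1, o2, o3, o4, o5, o6⟩ | ⟨o1, o2, o3, o4, o5, o6⟩
      · exact L3c4.main (N := n / 2) (Q := Q) (i := i) (a := (j - i) / 2) (b := (k - j) / 2) (l := l) (m := m)
          (c := (i2 - j2) / 2) (d := 0) ⟨al.cg (by omega), a1.cg (by omega), a2.cg (by omega),
          s1.cg (by omega), s2.cg (by omega), b.cg (by omega), c1.cg (by omega), c2.cg (by omega),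
          S.cg (by omega), n1.cg (by omega), n2.cg (by omega), n3.yx' (by omega)⟩ (by unfold L3c4.B; omega)
      rcases z with ⟨v1, v2, d1 | d1, d2 | d2⟩ | ⟨v1, v2, ⟨d1, d2⟩ | ⟨d1, d2⟩⟩
      · exact L3c8.main (N := n / 2) (Q := Q) (i := i) (a := (j - i) / 2) (b := (k - j) / 2) (l := l) (m := m)
          (c := (i2 - j2) / 2) (d := (k3 - j3) / 2) ⟨al.cg (by omega), a1.cg (by omega), a2.cg (by omega),
          s1.cg (by omega), s2.cg (by omega), b.cg (by omega), c1.cg (by omega), c2.cg (by omega),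
          S.cg (by omega), d1.cg (by omega), d2.cg (by omega), n1.cg (by omega), n2.cg (by omega), n3.cg (by omega)⟩ (by unfold L3c8.B; omega)
      · exact L3c6.main (N := n / 2) (Q := Q) (i := i) (a := (j - i) / 2) (b := (k - j) / 2) (l := l) (m := m)
          (c := (i2 - j2) / 2) (d := (k3 - j3) / 2) ⟨al.cg (by omega), a1.cg (by omega), a2.cg (by omega),
          s1.cg (by omega), s2.cg (by omega), b.cg (by omega), c1.cg (by omega), c2.cg (by omega),
          S.cg (by omega), d1.cg (by omega), d2.cg (by omega), n1.cg (by omega), n2.cg (by omega), n3.cg (by omega)⟩ (by unfold L3c6.B; omega)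
      · exact hx W _ _ i j k l _ _ i2 m i3 j3 k3 al lf h1 h2 n2 c1 c2 S (by omega) o2 (by omega) (by omega)
          (by omega) (by omega) n3 (d2.cg (by omega)) (Or.inl ⟨by omega, by omega, d1.cg (by omega)⟩)
      · exact L3c5.main (N := n / 2) (Q := Q) (i := i) (a := (j - i) / 2) (b := (k - j) / 2) (l := l) (m := m)
          (c := (i2 - j2) / 2) (d := (k3 - j3) / 2) ⟨al.cg (by omega), a1.cg (by omega), a2.cg (by omega),
          s1.cg (by omega), s2.cg (by omega), b.cg (by omega), c1.cg (by omega), c2.cg (by omega),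
          S.cg (by omega), d1.cg (by omega), d2.cg (by omega), n1.cg (by omega), n2.cg (by omega), n3.cg (by omega)⟩ (by unfold L3c5.B; omega)
      · exact L3c10.main (N := n / 2) (Q := Q) (i := i) (a := (j - i) / 2) (b := (k - j) / 2) (l := l) (m := m)
          (c := (i2 - j2) / 2) (d := (k3 - j3) / 2) ⟨al.cg (by omega), a1.cg (by omega), a2.cg (by omega),
          s1.cg (by omega), s2.cg (by omega), b.cg (by omega), c1.cg (by omega), c2.cg (by omega),
          S.cg (by omega), d1.cg (by omega), d2.cg (by omega), n1.cg (by omega), n2.cg (by omega), n3.cg (by omega)⟩ (by unfold L3c10.B; omega)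
      · exact hx W _ _ i j k l _ _ i2 m i3 j3 k3 al lf h1 h2 n2 c1 c2 S (by omega) o2 (by omega) (by omega)
          (by omega) (by omega) n3 (d1.cg (by omega)) (Or.inr ⟨by omega, by omega, d2.cg (by omega)⟩)
    · exact L3c1.main (N := n / 2) (Q := Q) (i := i) (a := (j - i) / 2) (b := (k - j) / 2) (l := l) (m := 0)
          (c := (i2 - j2) / 2) (d := 0) ⟨al.cg (by omega), a1.cg (by omega), a2.cg (by omega),
          s1.cg (by omega), s2.cg (by omega), b.cg (by omega), c1.cg (by omega), c2.cg (by omega),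
          n1.cg (by omega), n2.cg (by omega)⟩ (by unfold L3c1.B; omega)
  · obtain ⟨rfl, rfl⟩ : Q = s' ∧ n = e' := by unfold Pts at ps; omega
    obtain ⟨rfl, rfl⟩ : 0 = s ∧ Q = e := ⟨hs.symm, he.symm⟩
    rcases jk with ⟨rfl, rfl⟩ | ⟨rfl, rfl⟩
    · exact l3_10 al.per (by omega) n1 n2 n1.rel n2.rel a2 (b.cg (by omega)) c2
    rcases o with ⟨o1, o2, o3, o4, o5, o6⟩ | ⟨o1, o2, o3, o4, o5, o6⟩
    · exact L3c3.main (N := n / 2) (Q := Q) (i := i) (a := (j - i) / 2) (b := (k - j) / 2) (l := l) (m := m)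
          (c := (i2 - j2) / 2) (d := 0) ⟨al.cg (by omega), a1.cg (by omega), a2.cg (by omega),
          s1.cg (by omega), s2.cg (by omega), b.cg (by omega), c1.cg (by omega), c2.cg (by omega),
          S.cg (by omega), n1.cg (by omega), n2.cg (by omega), n3.yx' (by omega)⟩ (by unfold L3c3.B; omega)
    obtain ⟨L, hL⟩ := al.lm (by omega)
    obtain ⟨t1, t2, t3, -, t4⟩ := hL.leaf al lf
    have t4 := t4 rfl
    have mx : ∀ U, L ≤ U → ∀ x y g, 0 < g → g < 2 * (n / 2) → Par W x y g → y - x ≤ U :=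
      fun U hU x y g g0 g1 c => (hL.mx x y g g0 (by omega) c).trans hU
    exact M3c13.main (N := n / 2) (Q := Q) (i := i) (a := (j - i) / 2) (b := (k - j) / 2) (l := l) (m := m)
          (c := (i2 - j2) / 2) (d := 0) ⟨al.cg (by omega), a1.cg (by omega), a2.cg (by omega),
          s1.cg (by omega), s2.cg (by omega), b.cg (by omega), c1.cg (by omega), c2.cg (by omega),
          S.cg (by omega), n1.cg (by omega), n2.cg (by omega), n3.yx' (by omega),
          mx _ (by omega), mx _ (by omega), mx _ (by omega), mx _ (by omega)⟩ (by unfold M3c13.B; omega)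

end Pool.Agent.MP_a38735_al.WL
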