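import Pool.Agent.MP_a38735_al.L3c1
import Pool.Agent.MP_a38735_al.L3c3
import Pool.Agent.MP_a38735_al.L3c4
import Pool.Agent.MP_a38735_al.L3c5
import Pool.Agent.MP_a38735_al.L3c6
import Pool.Agent.MP_a38735_al.L3c8
import Pool.Agent.MP_a38735_al.L3c10
import Pool.Agent.MP_a38735_al.M3c13
import Pool.Agent.MP_a38735_al.IM
import Pool.Agent.MP_a38735_al.Lam
import Pool.Agent.MP_a38735_al.StL3d
import Pool.Agent.MP_a38735_al.StL3o

set_option autoImplicit false

namespace Pool.Agent.MP_a38735_al.WL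

theorem stL3m_of {G : Type*} [Group G] (hx : StL3ev G) : StL3m G := by
  intro W n Q i j k l p q s e s' e' i2 j2 k2 m i3 j3 k3 s3 e3 s4 e4 pp al lf ps jk h1 h2 n2 c1 c2 S o
    h3 h4 h5 h6 n3 z
  obtain ⟨i0, ij, jQ, Qk, kn, n1, a1, a2, s1, s2, b, hp, lk⟩ := id lf
  have q0 := al.q0
  have qn := al.qn
  have ev := al.ev
  have p1 := n1.p1
  have p2 := n1.p2
  have p3 := n2.p1
  have p4 := n3.p2
  rcases lk with ⟨hs, he, hq, u1, u2⟩ | ⟨hs, he, hq, u1, u2⟩
  · obtain ⟨rfl, rfl⟩ : 0 = s' ∧ Q = e' := by unfold Pts at ps; omega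
    obtain ⟨rfl, rfl⟩ : Q = s ∧ n = e := ⟨hs.symm, he.symm⟩
    rcases jk with ⟨rfl, rfl⟩ | ⟨rfl, rfl⟩
    · rcases o with ⟨o1, o2, o3, o4, o5, o6⟩ | ⟨o1, o2, o3, o4, o5, o6⟩
      · exact L3c4.main (N := n / 2) (Q := Q) (i := i) (a := (j - i) / 2) (b := (k - j) / 2) (l := l) (m := m)
          (c := (i2 - j2) / 2) (d := 0) ⟨al.cg (by omega), a1.cg (by omega), a2.cg (by omega),
          s1.cg (by omega), s2.cg (by omega), b.cg (by omega), c1.cg (by omega), c2.cg (by omega),
          S.cg (by omega), n1.cg (by omega), n2.cg (by omega), n3.yx' (by omega)⟩ (by unfold L3c4.B; omega)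
      rcases z with ⟨v1, v2, d1 | d1, d2 | d2⟩ | ⟨v1, v2, ⟨d1, d2⟩ | ⟨d1, d2, d3⟩⟩
      · exact L3c8.main (N := n / 2) (Q := Q) (i := i) (a := (j - i) / 2) (b := (k - j) / 2) (l := l) (m := m)
          (c := (i2 - j2) / 2) (d := (k3 - j3) / 2) ⟨al.cg (by omega), a1.cg (by omega), a2.cg (by omega),
          s1.cg (by omega), s2.cg (by omega), b.cg (by omega), c1.cg (by omega), c2.cg (by omega),
          S.cg (by omega), d1.cg (by omega), d2.cg (by omega), n1.cg (by omega), n2.cg (by omega), n3.cg (by omega)⟩ (by unfold L3c8.B; omega)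
      · exact L3c6.main (N := n / 2) (Q := Q) (i := i) (a := (j - i) / 2) (b := (k - j) / 2) (l := l) (m := m)
          (c := (i2 - j2) / 2) (d := (k3 - j3) / 2) ⟨al.cg (by omega), a1.cg (by omega), a2.cg (by omega),
          s1.cg (by omega), s2.cg (by omega), b.cg (by omega), c1.cg (by omega), c2.cg (by omega),
          S.cg (by omega), d1.cg (by omega), d2.cg (by omega), n1.cg (by omega), n2.cg (by omega), n3.cg (by omega)⟩ (by unfold L3c6.B; omega)
      · exact hx W _ _ i j k l _ _ i2 m i3 j3 k3 al lf h1 h2 n2 c1 c2 S (by omega) o2 (by omega) (by omega)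
          (by omega) (by omega) n3 (d2.cg (by omega)) (by omega) (by omega) (d1.cg (by omega))
      · exact L3c5.main (N := n / 2) (Q := Q) (i := i) (a := (j - i) / 2) (b := (k - j) / 2) (l := l) (m := m)
          (c := (i2 - j2) / 2) (d := (k3 - j3) / 2) ⟨al.cg (by omega), a1.cg (by omega), a2.cg (by omega),
          s1.cg (by omega), s2.cg (by omega), b.cg (by omega), c1.cg (by omega), c2.cg (by omega),
          S.cg (by omega), d1.cg (by omega), d2.cg (by omega), n1.cg (by omega), n2.cg (by omega), n3.cg (by omega)⟩ (by unfold L3c5.B; omega)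
      · exact L3c10.main (N := n / 2) (Q := Q) (i := i) (a := (j - i) / 2) (b := (k - j) / 2) (l := l) (m := m)
          (c := (i2 - j2) / 2) (d := (k3 - j3) / 2) ⟨al.cg (by omega), a1.cg (by omega), a2.cg (by omega),
          s1.cg (by omega), s2.cg (by omega), b.cg (by omega), c1.cg (by omega), c2.cg (by omega),
          S.cg (by omega), d1.cg (by omega), d2.cg (by omega), n1.cg (by omega), n2.cg (by omega), n3.cg (by omega)⟩ (by unfold L3c10.B; omega)
      · exact stL3o pp al lf (by omega) n2 c1 c2 S n3 (d1.cg (by omega)) (d2.cg (by omega))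
          (d3.imp (·.cg (by omega)) (·.cg (by omega)))
    · exact L3c1.main (N := n / 2) (Q := Q) (i := i) (a := (j - i) / 2) (b := (k - j) / 2) (l := l) (m := 0)
          (c := (i2 - j2) / 2) (d := 0) ⟨al.cg (by omega), a1.cg (by omega), a2.cg (by omega),
          s1.cg (by omega), s2.cg (by omega), b.cg (by omega), c1.cg (by omega), c2.cg (by omega),
          n1.cg (by omega), n2.cg (by omega)⟩ (by unfold L3c1.B; omega)
  · obtain ⟨rfl, rfl⟩ : Q = s' ∧ n = e' := by unfold Pts at ps; omega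
    obtain ⟨rfl, rfl⟩ : 0 = s ∧ Q = e := ⟨hs.symm, he.symm⟩
    rcases jk with ⟨rfl, rfl⟩ | ⟨rfl, rfl⟩
    · exact l3_10 al.per (by omega) n1 n2 n1.rel n2.rel a2 (b.cg (by omega)) c2
    rcases o with ⟨o1, o2, o3, o4, o5, o6⟩ | ⟨o1, o2, o3, o4, o5, o6⟩
    · exact L3c3.main (N := n / 2) (Q := Q) (i := i) (a := (j - i) / 2) (b := (k - j) / 2) (l := l) (m := m)
          (c := (i2 - j2) / 2) (d := 0) ⟨al.cg (by omega), a1.cg (by omega), a2.cg (by omega),
          s1.cg (by omega), s2.cg (by omega), b.cg (by omega), c1.cg (by omega), c2.cg (by omega),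
          S.cg (by omega), n1.cg (by omega), n2.cg (by omega), n3.yx' (by omega)⟩ (by unfold L3c3.B; omega)
    obtain ⟨L, hL⟩ := al.lm (by omega)
    obtain ⟨t1, t2, t3, -, t4⟩ := hL.leaf al lf
    have t4 := t4 rfl
    have mx : ∀ U, L ≤ U → ∀ x y g, 0 < g → g < 2 * (n / 2) → Par W x y g → y - x ≤ U :=
      fun U hU x y g g0 g1 c => (hL.mx x y g g0 (by omega) c).trans hU
    exact M3c13.main (N := n / 2) (Q := Q) (i := i) (a := (j - i) / 2) (b := (k - j) / 2) (l := l) (m := m)
          (c := (i2 - j2) / 2) (d := 0) ⟨al.cg (by omega), a1.cg (by omega), a2.cg (by omega),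
          s1.cg (by omega), s2.cg (by omega), b.cg (by omega), c1.cg (by omega), c2.cg (by omega),
          S.cg (by omega), n1.cg (by omega), n2.cg (by omega), n3.yx' (by omega),
          mx _ (by omega), mx _ (by omega), mx _ (by omega), mx _ (by omega)⟩ (by unfold M3c13.B; omega)

end Pool.Agent.MP_a38735_al.WL
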