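import Pool.Agent.MP_a38735_al.StackS
import Pool.Agent.MP_a38735_al.Phi

set_option autoImplicit false
set_option linter.unusedSectionVars false

namespace Pool.Agent.MP_a38735_al.Stk

open Finset

variable {G : Type*} [Group G] {n : ℕ} [NeZero n]

/-- an order on the junctions that is kept along strips and around the chosen triangles -/
structure Iv (x : ZMod n → G) (Rt : ZMod n → ZMod n → ZMod n → Prop) {L : Type} [LinearOrder L]
    (κ : ZMod n → L) : Prop where
  par : ∀ p q, x p = x q → (κ p < κ q ↔ κ (p + 1) < κ (q + 1))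
  ant : ∀ p q, x p = (x q)⁻¹ → (κ p < κ (q + 1) ↔ κ (p + 1) < κ q)
  w1 : ∀ j i k, Rt j i k → κ j ≤ κ k → κ (k + 1) ≤ κ (i + 1) → κ i ≤ κ (j + 1) →
    κ j = κ k ∧ κ (k + 1) = κ (i + 1) ∧ κ i = κ (j + 1)
  w2 : ∀ j i k, Rt j i k → κ k ≤ κ j → κ (i + 1) ≤ κ (k + 1) → κ (j + 1) ≤ κ i →
    κ j = κ k ∧ κ (k + 1) = κ (i + 1) ∧ κ i = κ (j + 1)

variable {x : ZMod n → G} {φ : ZMod n → Bool} {Rt : ZMod n → ZMod n → ZMod n → Prop}

theorem exists_pot {δ : ZMod n → ℚ} (h : ∑ p, δ p = 0) :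
    ∃ f : ZMod n → ℚ, ∀ p, δ p = f (p + 1) - f p := by
  have e : ∑ s ∈ range n, δ s = 0 := by
    rw [← h]
    exact sum_nbij' (fun s => (s : ZMod n)) ZMod.val (fun _ _ => mem_univ _)
      (fun p _ => mem_range.2 (ZMod.val_lt p)) (fun s hs => ZMod.val_cast_of_lt (mem_range.1 hs))
      (fun p _ => ZMod.natCast_zmod_val p) fun _ _ => rfl
  have per : Function.Periodic (fun m => ∑ s ∈ range m, δ s) n := fun m => by
    induction m with
    | zero => simpa using e
    | succ m ih =>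
      dsimp only at ih ⊢
      rw [add_right_comm, sum_range_succ, sum_range_succ, ih]
      simp
  refine ⟨fun p => ∑ s ∈ range p.val, δ s, fun p => ?_⟩
  have : p + 1 = ((p.val + 1 : ℕ) : ZMod n) := by simp
  have k := per.map_mod_nat (p.val + 1)
  dsimp only at k ⊢
  rw [this, ZMod.val_natCast, k, sum_range_succ]
  simp

theorem tie_iff {L : Type} [LinearOrder L] {a b c d : L} (h : a < b ↔ c < d) (h' : b < a ↔ d < c) :
    a = b ↔ c = d := by
  rw [le_antisymm_iff, le_antisymm_iff, ← not_lt, ← not_lt, ← not_lt, ← not_lt, h, h']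

theorem lex_iff {L : Type} [LinearOrder L] {a b c d : L} {s t u v : ℚ} (h : a < b ↔ c < d)
    (h' : b < a ↔ d < c) (e : a = b → s - t = u - v) :
    toLex (a, s) < toLex (b, t) ↔ toLex (c, u) < toLex (d, v) := by
  rw [Prod.Lex.toLex_lt_toLex, Prod.Lex.toLex_lt_toLex, h, ← tie_iff h h']
  refine or_congr_right (and_congr_right fun k => ?_)
  have := e k
  dsimp only
  constructor <;> intro <;> linarith

theorem lex_le {L : Type} [LinearOrder L] {a b : L} {s t : ℚ} (h : toLex (a, s) ≤ toLex (b, t)) :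
    a ≤ b ∧ (a = b → s ≤ t) := by
  rcases Prod.Lex.toLex_le_toLex.1 h with k | k
  · exact ⟨k.le, fun e => absurd e k.ne⟩
  · exact ⟨k.1.le, fun _ => k.2⟩

theorem finer (hy : Hy x φ Rt) {L : Type} [LinearOrder L] {κ : ZMod n → L} (iv : Iv x Rt κ)
    (ni : ¬ Function.Injective κ) : ∃ f : ZMod n → ℚ, Iv x Rt (fun p => toLex (κ p, f p)) ∧
      ∃ p q, κ p = κ q ∧ f p ≠ f q := by
  classical
  have eq : ∀ p q, Set.rangeFactorization κ p = Set.rangeFactorization κ q ↔ κ p = κ q :=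
    fun p q => Subtype.ext_iff
  have inv : ∀ p q, x p = (x q)⁻¹ → x q = (x p)⁻¹ := fun p q e => by rw [e, inv_inv]
  have ti : Tie x (Set.rangeFactorization κ) := ⟨Set.rangeFactorization_surjective,
    fun p q e r => (eq _ _).2 ((tie_iff (iv.par p q e) (iv.par q p e.symm)).1 ((eq _ _).1 r)),
    fun p q e r => (eq _ _).2 ((tie_iff (iv.ant p q e) (iv.ant q p (inv p q e)).symm).1
      ((eq _ _).1 r))⟩
  have nt : ¬ Top x Rt (Set.rangeFactorization κ) := fun top =>
    ni fun p q e => top_inj hy ti top ((eq _ _).2 e)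
  simp only [Top, not_forall] at nt
  obtain ⟨δ, c, s, nc⟩ := nt
  obtain ⟨f, hf⟩ := exists_pot s
  refine ⟨f, ⟨fun p q e => lex_iff (iv.par p q e) (iv.par q p e.symm) fun r => ?_,
    fun p q e => lex_iff (iv.ant p q e) (iv.ant q p (inv p q e)).symm fun r => ?_,
    fun j i k e h1 h2 h3 => ?_, fun j i k e h1 h2 h3 => ?_⟩, ?_⟩
  · have := c.par p q trivial e ((eq _ _).2 r)
    rw [hf, hf] at this
    linarith
  · have := c.ant p q trivial e ((eq _ _).2 r)
    rw [hf, hf] at this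
    linarith
  · obtain ⟨a1, a2, a3⟩ := iv.w1 j i k e (lex_le h1).1 (lex_le h2).1 (lex_le h3).1
    have := c.tri j i k trivial e ((eq _ _).2 a1) ((eq _ _).2 a3.symm) ((eq _ _).2 a2)
    rw [hf, hf, hf] at this
    have b1 := (lex_le h1).2 a1
    have b2 := (lex_le h2).2 a2
    have b3 := (lex_le h3).2 a3
    rw [a1, a2, a3, show f j = f k by linarith, show f (k + 1) = f (i + 1) by linarith,
      show f i = f (j + 1) by linarith]
    exact ⟨rfl, rfl, rfl⟩
  · obtain ⟨a1, a2, a3⟩ := iv.w2 j i k e (lex_le h1).1 (lex_le h2).1 (lex_le h3).1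
    have := c.tri j i k trivial e ((eq _ _).2 a1) ((eq _ _).2 a3.symm) ((eq _ _).2 a2)
    rw [hf, hf, hf] at this
    have b1 := (lex_le h1).2 a1.symm
    have b2 := (lex_le h2).2 a2.symm
    have b3 := (lex_le h3).2 a3.symm
    rw [a1, a2, a3, show f j = f k by linarith, show f (k + 1) = f (i + 1) by linarith,
      show f i = f (j + 1) by linarith]
    exact ⟨rfl, rfl, rfl⟩
  · by_contra k
    simp only [not_exists, not_and, not_not] at k
    refine nc ⟨fun t => f (ti.sur t).choose, fun p _ => ?_⟩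
    have z : ∀ q, f (ti.sur (Set.rangeFactorization κ q)).choose = f q := fun q =>
      k _ _ ((eq _ _).1 (ti.sur (Set.rangeFactorization κ q)).choose_spec)
    dsimp only
    rw [z, z, hf]

theorem exists_inj (hy : Hy x φ Rt) : ∃ (L : Type) (_ : LinearOrder L) (κ : ZMod n → L),
    Iv x Rt κ ∧ Function.Injective κ := by
  classical
  have key : ∀ (m : ℕ) (L : Type) [LinearOrder L] (κ : ZMod n → L), Iv x Rt κ →
      (univ.filter fun z : ZMod n × ZMod n => κ z.1 = κ z.2).card < m →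
      ∃ (L : Type) (_ : LinearOrder L) (κ : ZMod n → L), Iv x Rt κ ∧ Function.Injective κ := by
    intro m
    induction m with
    | zero => intro L _ κ _ h; omega
    | succ m ih =>
      intro L _ κ iv h
      by_cases ni : Function.Injective κ
      · exact ⟨L, _, κ, iv, ni⟩
      obtain ⟨f, iv', p, q, e, ne⟩ := finer hy iv ni
      refine ih _ _ iv' (lt_of_lt_of_le (card_lt_card ?_) (Nat.le_of_lt_succ h))
      refine (ssubset_iff_of_subset fun z hz => ?_).2 ⟨(p, q), by simpa using e, by simp [ne]⟩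
      simp only [mem_filter, mem_univ, true_and, toLex_inj, Prod.mk.injEq] at hz ⊢
      exact hz.1
  exact key _ ℚ (fun _ => 0) ⟨by simp, by simp, by simp, by simp⟩ (Nat.lt_succ_self _)

theorem rank {L : Type} [LinearOrder L] (κ : ZMod n → L) :
    ∃ ρ : ZMod n → ℤ, ∀ p q, ρ p < ρ q ↔ κ p < κ q := by
  classical
  refine ⟨fun p => ((univ.filter fun r => κ r < κ p).card : ℕ), fun p q => ?_⟩
  rw [Nat.cast_lt]
  refine ⟨fun h => by_contra fun k => h.not_ge (card_le_card fun r hr => ?_), fun h =>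
    card_lt_card ((ssubset_iff_of_subset fun r hr => ?_).2 ⟨p, by simpa using h, by simp⟩)⟩
  · simp only [mem_filter, mem_univ, true_and] at hr ⊢
    exact hr.trans_le (not_lt.1 k)
  · simp only [mem_filter, mem_univ, true_and] at hr ⊢
    exact hr.trans h

end Pool.Agent.MP_a38735_al.Stk

namespace Pool.Agent.MP_a38735_al

open Stk

variable {G : Type*} [Group G] {H : Bool → Subgroup G} {n : ℕ}

/-- a stacking of the word in which the triangles of two given kinds are not cyclic -/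
theorem stack [NeZero n] {x : ZMod n → G} (hc : Cy H x)
    (htf : ∀ (i : ZMod n) (m : ℕ), 0 < m → x i ^ m ≠ 1) (a b c d : G) :
    ∃ ρ : ZMod n → ℤ, Function.Injective ρ ∧
      (∀ p q, x p = x q → (ρ p < ρ q ↔ ρ (p + 1) < ρ (q + 1))) ∧
      (∀ p q, x p = (x q)⁻¹ → (ρ p < ρ (q + 1) ↔ ρ (p + 1) < ρ q)) ∧
      ∀ j i k, fac H (x j) = fac H (x i) → fac H (x i) = fac H (x k) → x j * x i = x k →
        ((x j = a ∧ x k = b) ∨ (x j = b ∧ x k = a) ∨ (x i = c ∧ x k = d) ∨ (x i = d ∧ x k = c)) →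
        ¬ (ρ j < ρ k ∧ ρ i < ρ (j + 1) ∧ ρ (k + 1) < ρ (i + 1)) ∧
          ¬ (ρ k < ρ j ∧ ρ (j + 1) < ρ i ∧ ρ (i + 1) < ρ (k + 1)) := by
  have tf : ∀ i, TF (x i) := htf
  have hy : Hy x (fun p => fac H (x p)) fun j i k => fac H (x j) = fac H (x i) ∧
      fac H (x i) = fac H (x k) ∧ x j * x i = x k ∧
      ((x j = a ∧ x k = b) ∨ (x j = b ∧ x k = a) ∨ (x i = c ∧ x k = d) ∨ (x i = d ∧ x k = c)) := by
    refine ⟨hc.hf, fun p q e => by rw [e], fun p q e => by rw [e, fac_inv], fun p => (tf p).ne,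
      hc.prim, fun j i k h => h.1.symm, fun j i k h => (h.1.trans h.2.1).symm, fun p => ?_⟩
    obtain ⟨Φ, o, r1, r2, z⟩ := exists_phi (tf p) a (a⁻¹ * b) b⁻¹ (d * c⁻¹) c d⁻¹
    refine ⟨Φ, o, z, ?_⟩
    rintro j i k ⟨-, -, e, ⟨rfl, rfl⟩ | ⟨rfl, rfl⟩ | ⟨rfl, rfl⟩ | ⟨rfl, rfl⟩⟩
    · have e' : (x j)⁻¹ * x k = x i := by rw [← e]; group
      rw [e'] at r1
      have := r1 ⟨by rw [e]; simp, tf j, tf i, (tf k).inv⟩
      rwa [o, mul_inv_eq_one] at this
    · have e' : (x k)⁻¹ * x j = (x i)⁻¹ := by rw [← e]; group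
      rw [e'] at r1
      have := r1 ⟨by rw [← e]; group, tf k, (tf i).inv, (tf j).inv⟩
      rw [o, o, mul_inv_eq_one, mul_inv_eq_iff_eq_mul] at this
      exact this.symm
    · have e' : x k * (x i)⁻¹ = x j := by rw [← e]; group
      rw [e'] at r2
      have := r2 ⟨by rw [e]; simp, tf j, tf i, (tf k).inv⟩
      rwa [o, mul_inv_eq_one] at this
    · have e' : x i * (x k)⁻¹ = (x j)⁻¹ := by rw [← e]; group
      rw [e'] at r2
      have := r2 ⟨by rw [← e]; group, (tf j).inv, tf k, (tf i).inv⟩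
      rw [o, o, mul_inv_eq_one, inv_mul_eq_iff_eq_mul] at this
      exact this.symm
  obtain ⟨L, _, κ, iv, inj⟩ := exists_inj hy
  obtain ⟨ρ, h⟩ := rank κ
  refine ⟨ρ, fun p q e => inj (le_antisymm (not_lt.1 fun k => ((h _ _).2 k).ne' e)
    (not_lt.1 fun k => ((h _ _).2 k).ne e)), fun p q e => ?_, fun p q e => ?_,
    fun j i k f1 f2 e r => ?_⟩
  · rw [h, h, iv.par p q e]
  · rw [h, h, iv.ant p q e]
  · simp only [h]
    exact ⟨fun z => z.1.ne (iv.w1 j i k ⟨f1, f2, e, r⟩ z.1.le z.2.2.le z.2.1.le).1,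
      fun z => z.1.ne' (iv.w2 j i k ⟨f1, f2, e, r⟩ z.1.le z.2.2.le z.2.1.le).1⟩

end Pool.Agent.MP_a38735_al
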