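import Mathlib

set_option autoImplicit false

namespace Pool.Agent.MP_a38735_al.Stk

open Module Finset

variable {T : Type} [Fintype T]

/-- functions constant on the classes -/
def Fc (R : Setoid T) (f : T → ℚ) : Prop := ∀ t t', R t t' → f t = f t'

theorem dim_le [Nonempty T] (R S : Setoid T) (W : Submodule ℚ (T → ℚ))
    (h : ∀ f ∈ W, ∃ g, Fc R (f - g) ∧ Fc S g) :
    finrank ℚ W + 1 ≤ Nat.card (Quotient R) + Nat.card (Quotient S) := by
  classical
  have mem : ∀ (U : Setoid T) (f : T → ℚ), Fc U f →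
      f ∈ LinearMap.range (LinearMap.funLeft ℚ ℚ (Quotient.mk U)) := fun U f hf =>
    ⟨Quotient.lift f hf, rfl⟩
  have rk : ∀ U : Setoid T, finrank ℚ (LinearMap.range (LinearMap.funLeft ℚ ℚ (Quotient.mk U))) ≤
      Nat.card (Quotient U) := fun U => by
    refine (LinearMap.finrank_range_le _).trans_eq ?_
    rw [finrank_fintype_fun_eq_card, Nat.card_eq_fintype_card]
  have h1 := Submodule.finrank_sup_add_finrank_inf_eq
    (LinearMap.range (LinearMap.funLeft ℚ ℚ (Quotient.mk R)))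
    (LinearMap.range (LinearMap.funLeft ℚ ℚ (Quotient.mk S)))
  have h2 : finrank ℚ W ≤ finrank ℚ ↥(LinearMap.range (LinearMap.funLeft ℚ ℚ (Quotient.mk R)) ⊔
      LinearMap.range (LinearMap.funLeft ℚ ℚ (Quotient.mk S))) := by
    refine Submodule.finrank_mono fun f hf => ?_
    obtain ⟨g, a, b⟩ := h f hf
    exact Submodule.mem_sup.2 ⟨_, mem _ _ a, _, mem _ _ b, sub_add_cancel f g⟩
  have h3 : finrank ℚ ↥(LinearMap.range (LinearMap.funLeft ℚ ℚ (Quotient.mk R)) ⊓
      LinearMap.range (LinearMap.funLeft ℚ ℚ (Quotient.mk S))) ≠ 0 := by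
    rw [Ne, Submodule.finrank_eq_zero, Submodule.eq_bot_iff]
    intro h0
    exact one_ne_zero (h0 1 ⟨mem _ _ fun _ _ _ => rfl, mem _ _ fun _ _ _ => rfl⟩)
  have := rk R
  have := rk S
  omega

open Classical in
theorem wt_le (R : Setoid T) (t0 : T) (k : ℕ) (h0 : k ≤ (univ.filter fun t => R t0 t).card)
    (h : ∀ t, ¬ R t t0 → ∃ t', t' ≠ t ∧ R t t') :
    2 * Nat.card (Quotient R) + k ≤ Fintype.card T + 2 := by
  have h1 : Fintype.card T = ∑ c : Quotient R, (univ.filter fun t => Quotient.mk R t = c).card :=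
    card_eq_sum_card_fiberwise fun _ _ => mem_univ _
  have e : ∀ t, (univ.filter fun t' => Quotient.mk R t' = Quotient.mk R t) =
      univ.filter fun t' => R t t' := fun t =>
    filter_congr fun t' _ => Quotient.eq.trans ⟨R.symm, R.symm⟩
  rw [h1, ← add_sum_erase _ _ (mem_univ (Quotient.mk R t0)), e, Nat.card_eq_fintype_card]
  have h2 : (univ.erase (Quotient.mk R t0)).card • 2 ≤ ∑ c ∈ univ.erase (Quotient.mk R t0),
      (univ.filter fun t => Quotient.mk R t = c).card := by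
    refine card_nsmul_le_sum _ _ _ fun c hc => ?_
    obtain ⟨t, rfl⟩ := Quotient.exists_rep c
    obtain ⟨t', a, b⟩ := h t fun r => (mem_erase.1 hc).1 (Quotient.sound r)
    rw [e]
    exact one_lt_card.2 ⟨t', by simpa using b, t, by simp, a⟩
  rw [card_erase_of_mem (mem_univ _), card_univ, smul_eq_mul] at h2
  have : 0 < Fintype.card (Quotient R) := Fintype.card_pos_iff.2 ⟨Quotient.mk R t0⟩
  omega

theorem cnt1 (R : Setoid T) (t0 : T) (h : ∀ t, ¬ R t t0 → ∃ t', t' ≠ t ∧ R t t') :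
    2 * Nat.card (Quotient R) ≤ Fintype.card T + 1 := by
  classical
  have := wt_le R t0 1 (card_pos.2 ⟨t0, by simp⟩) h
  omega

theorem cnt2 [Nonempty T] (R : Setoid T) (h : ∀ t, ∃ t', t' ≠ t ∧ R t t') :
    2 * Nat.card (Quotient R) ≤ Fintype.card T := by
  classical
  obtain ⟨t0⟩ := ‹Nonempty T›
  obtain ⟨t', a, b⟩ := h t0
  have := wt_le R t0 2 (one_lt_card.2 ⟨t', by simpa using b, t0, by simp, a⟩)
    fun t _ => h t
  omega

theorem cnt3 (R : Setoid T) (h : ∀ t, ∃ t', t' ≠ t ∧ R t t') {a b c : T} (h1 : R a b)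
    (h2 : R a c) (n1 : a ≠ b) (n2 : a ≠ c) (n3 : b ≠ c) :
    2 * Nat.card (Quotient R) + 1 ≤ Fintype.card T := by
  classical
  have := wt_le R a 3 (two_lt_card_iff.2 ⟨a, b, c, by simp, by simpa using h1,
    by simpa using h2, n1, n2, n3⟩) fun t _ => h t
  omega

/-- if every function is a sum of two class functions there are two singleton classes -/
theorem graph1 (R S : Setoid T) (t0 : T) (h : ∀ f : T → ℚ, ∃ g, Fc R (f - g) ∧ Fc S g)
    (h1 : ∀ t, ¬ R t t0 → ∃ t', t' ≠ t ∧ R t t') (h2 : ∀ t, ∃ t', t' ≠ t ∧ S t t') : False := by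
  have : Nonempty T := ⟨t0⟩
  have a := dim_le R S ⊤ fun f _ => h f
  rw [finrank_top, finrank_fintype_fun_eq_card] at a
  have := cnt1 R t0 h1
  have := cnt2 S h2
  omega

/-- if this holds on a hyperplane and there are no singletons, all classes have two elements -/
theorem graph2 (R S : Setoid T) (σ : (T → ℚ) →ₗ[ℚ] ℚ)
    (h : ∀ f : T → ℚ, σ f = 0 → ∃ g, Fc R (f - g) ∧ Fc S g)
    (h1 : ∀ t, ∃ t', t' ≠ t ∧ R t t') (h2 : ∀ t, ∃ t', t' ≠ t ∧ S t t') {a b c : T}
    (h3 : (R a b ∧ R a c) ∨ (S a b ∧ S a c)) (n1 : a ≠ b) (n2 : a ≠ c) : b = c := by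
  by_contra n3
  have : Nonempty T := ⟨a⟩
  have e := dim_le R S (LinearMap.ker σ) fun f hf => h f hf
  have e2 := LinearMap.finrank_range_add_finrank_ker σ
  have e3 : finrank ℚ (LinearMap.range σ) ≤ 1 :=
    (Submodule.finrank_le _).trans_eq (finrank_self ℚ)
  rw [finrank_fintype_fun_eq_card] at e2
  have := cnt2 R h1
  have := cnt2 S h2
  rcases h3 with ⟨u, v⟩ | ⟨u, v⟩
  · have := cnt3 R h1 u v n1 n2 n3
    omega
  · have := cnt3 S h2 u v n1 n2 n3
    omega

end Pool.Agent.MP_a38735_al.Stk
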