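import Mathlib

set_option autoImplicit false

namespace Pool.Agent.MP_a38735_al.Stk

/-- the sign of an integer exponent -/
def sg (p : ℤ) : ℤ := (p.negOnePow : ℤˣ)

theorem sg_add (a b : ℤ) : sg (a + b) = sg a * sg b := by simp [sg, Int.negOnePow_add]
theorem sg_neg (a : ℤ) : sg (-a) = sg a := by simp [sg]
theorem sg_zero : sg 0 = 1 := by simp [sg]
theorem sg_one : sg 1 = -1 := by simp [sg]
theorem sg_sq (a : ℤ) : sg a * sg a = 1 := by
  rw [← sg_neg a]; nth_rewrite 2 [sg_neg a]; rw [← sg_add]; simp [sg]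

/-- the group of the Klein bottle -/
@[ext] structure Kb where
  p : ℤ
  s : ℤ

instance : Mul Kb := ⟨fun a b => ⟨a.p + b.p, a.s + sg a.p * b.s⟩⟩
instance : One Kb := ⟨⟨0, 0⟩⟩
instance : Inv Kb := ⟨fun a => ⟨-a.p, -(sg a.p * a.s)⟩⟩

@[simp] theorem mul_p (a b : Kb) : (a * b).p = a.p + b.p := rfl
@[simp] theorem mul_s (a b : Kb) : (a * b).s = a.s + sg a.p * b.s := rfl
@[simp] theorem one_p : (1 : Kb).p = 0 := rfl
@[simp] theorem one_s : (1 : Kb).s = 0 := rfl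
@[simp] theorem inv_p (a : Kb) : a⁻¹.p = -a.p := rfl
@[simp] theorem inv_s (a : Kb) : a⁻¹.s = -(sg a.p * a.s) := rfl

instance : Group Kb := Group.ofLeftAxioms
  (fun a b c => by ext <;> simp [sg_add] <;> ring)
  (fun a => by ext <;> simp [sg_zero])
  (fun a => by ext <;> simp [sg_neg])

variable {G : Type*} [Group G]

/-- infinite order -/
def TF (t : G) : Prop := ∀ m : ℕ, 0 < m → t ^ m ≠ 1

theorem TF.inv {t : G} (h : TF t) : TF t⁻¹ := fun m hm e => h m hm (by simpa using e)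

theorem TF.ne {t : G} (h : TF t) : t ≠ t⁻¹ := fun e =>
  h 2 two_pos (by rw [pow_two]; nth_rewrite 2 [e]; simp)

/-- a triangle relation between elements of infinite order -/
structure Tr (a b c : G) : Prop where
  e : a * b * c = 1
  a : TF a
  b : TF b
  c : TF c

theorem Tr.rot {a b c : G} (h : Tr a b c) : Tr b c a :=
  ⟨by rw [mul_eq_one_comm, ← mul_assoc]; exact h.e, h.b, h.c, h.a⟩

theorem Tr.inv {a b c : G} (h : Tr a b c) : Tr c⁻¹ b⁻¹ a⁻¹ :=
  ⟨by rw [← inv_eq_one]; simpa [mul_assoc] using h.e, h.c.inv, h.b.inv, h.a.inv⟩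

theorem Tr.n12 {a b c : G} (h : Tr a b c) : a ≠ b⁻¹ := fun e =>
  h.c 1 one_pos (by simpa [e] using h.e)

theorem Tr.n21 {a b c : G} (h : Tr a b c) : b ≠ a⁻¹ := fun e => h.n12 (by simp [e])

/-- same class up to inverse -/
def Sm (t u : G) : Prop := t = u ∨ t = u⁻¹

theorem Sm.symm {t u : G} (h : Sm t u) : Sm u t := by
  rcases h with rfl | rfl <;> simp [Sm]

theorem Sm.trans {t u v : G} (h : Sm t u) (h' : Sm u v) : Sm t v := by
  rcases h with rfl | rfl <;> rcases h' with rfl | rfl <;> simp [Sm]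

theorem Sm.inv {t u : G} : Sm t⁻¹ u ↔ Sm t u :=
  ⟨fun h => Sm.trans (Or.inr (inv_inv t).symm) h, fun h => Sm.trans (Or.inr rfl) h⟩

theorem Tr.eq12 {a b c : G} (h : Tr a b c) (s : Sm a b) : a = b := s.resolve_right h.n12

theorem Tr.nall {a b c w : G} (h : Tr a b c) (h1 : Sm a w) (h2 : Sm b w) (h3 : Sm c w) :
    False := by
  have e1 := h.eq12 (h1.trans h2.symm)
  have e2 := h.rot.eq12 (h2.trans h3.symm)
  subst e1 e2
  exact h.a 3 (by norm_num) (by rw [pow_three', h.e])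

open Classical in
/-- the signed indicator of a class -/
noncomputable def io (u t : G) : ℤ := if t = u then 1 else if t = u⁻¹ then -1 else 0

theorem io_self (u : G) : io u u = 1 := by simp [io]

theorem io_zero {u t : G} (h : ¬ Sm t u) : io u t = 0 := by
  rw [Sm, not_or] at h; simp [io, h.1, h.2]

theorem io_odd {u : G} (h : TF u) (t : G) : io u t⁻¹ = -io u t := by
  have h1 := h.ne
  have h2 := h1.symm
  by_cases a : t = u
  · simp [io, a, h2]
  · by_cases b : t = u⁻¹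
    · simp [io, b, h2]
    · simp [io, a, b, inv_eq_iff_eq_inv]

theorem io_sm {u t : G} (h : Sm t u) : io u t = 1 ∨ io u t = -1 := by
  unfold io; split_ifs with a b
  · simp
  · simp
  · exact absurd h (not_or.2 ⟨a, b⟩)

theorem io_nn {u t : G} (h : t ≠ u⁻¹) : io u t = 0 ∨ io u t = 1 := by
  unfold io; split_ifs <;> simp

/-- the coefficient of a class in a relator -/
noncomputable def co (a b c u : G) : ℤ := io u a + io u b + io u c

theorem co_rot (a b c u : G) : co b c a u = co a b c u := by unfold co; ring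

theorem Tr.pos {a b c : G} (h : Tr a b c) : 0 < co a b c c := by
  have := io_nn h.rot.n12
  have := io_nn h.rot.rot.n21
  rw [co, io_self]; omega

theorem co_ne {a b c u : G} (h : co a b c u ≠ 0) : Sm a u ∨ Sm b u ∨ Sm c u := by
  by_contra k
  simp only [not_or] at k
  exact h (by rw [co, io_zero k.1, io_zero k.2.1, io_zero k.2.2]; rfl)

/-- compatible with inverses -/
def Od (Φ : G → Kb) : Prop := ∀ t, Φ t⁻¹ = (Φ t)⁻¹

/-- a map to the Klein bottle group that keeps two relations and does not kill `g` -/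
def Sol (a b c a' b' c' g : G) : Prop :=
  ∃ Φ : G → Kb, Od Φ ∧ Φ a * Φ b * Φ c = 1 ∧ Φ a' * Φ b' * Φ c' = 1 ∧ Φ g ≠ 1

variable {a b c a' b' c' g : G}

theorem Sol.swap (h : Sol a b c a' b' c' g) : Sol a' b' c' a b c g :=
  let ⟨Φ, h1, h2, h3, h4⟩ := h
  ⟨Φ, h1, h3, h2, h4⟩

theorem lin {u w : G} (hg : TF g) (hu : TF u) (hw : TF w) (nu : ¬ Sm u g) (nw : ¬ Sm w g)
    (γ α β : ℤ) (h0 : γ ≠ 0) (h1 : γ * co a b c g + α * co a b c u + β * co a b c w = 0)
    (h2 : γ * co a' b' c' g + α * co a' b' c' u + β * co a' b' c' w = 0) :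
    Sol a b c a' b' c' g := by
  refine ⟨fun t => ⟨γ * io g t + α * io u t + β * io w t, 0⟩, fun t => ?_, ?_, ?_, fun e => ?_⟩
  · ext
    · simp only [inv_p, io_odd hg, io_odd hu, io_odd hw]; ring
    · simp
  · ext
    · simp only [mul_p, one_p]; unfold co at h1; linear_combination h1
    · simp
  · ext
    · simp only [mul_p, one_p]; unfold co at h2; linear_combination h2
    · simp
  · have := congrArg Kb.p e
    simp only [io_self, io_zero fun s => nu (Sm.symm s), io_zero fun s => nw (Sm.symm s),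
      one_p] at this
    exact h0 (by simpa using this)

theorem klein {u v : G} (h : Tr g u v) (n1 : ¬ Sm u g) (n2 : ¬ Sm v g) (n3 : ¬ Sm u v) :
    Sol g u v g u⁻¹ v⁻¹ g := by
  have e1 := io_zero n1
  have e2 := io_zero n2
  have e3 := io_zero n3
  have e4 := io_zero fun s => n1 (Sm.symm s)
  have e5 := io_zero fun s => n2 (Sm.symm s)
  have e6 := io_zero fun s => n3 (Sm.symm s)
  have m1 : sg (-1) = -1 := by rw [sg_neg, sg_one]
  refine ⟨fun t => ⟨io u t - io v t, io g t + io v t ^ 2⟩, fun t => ?_, ?_, ?_, fun e => ?_⟩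
  · ext
    · simp only [inv_p, io_odd h.b, io_odd h.c]; ring
    · simp only [inv_s, io_odd h.a, io_odd h.c]
      by_cases s1 : Sm t g
      · rw [io_zero fun s => n1 (s.symm.trans s1), io_zero fun s => n2 (s.symm.trans s1)]
        simp [sg_zero]
      · rw [io_zero s1]
        by_cases s2 : Sm t v
        · rw [io_zero fun s => n3 (s.symm.trans s2)]
          rcases io_sm s2 with k | k <;> simp [k, m1, sg_one]
        · simp [io_zero s2]
  · ext <;> simp [e1, e2, e3, e4, e5, e6, io_self, sg_zero, sg_one]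
  · ext <;> simp [e1, e2, e3, e4, e5, e6, io_self, sg_zero, m1, io_odd h.a, io_odd h.b, io_odd h.c]
  · simpa [e5, io_self] using congrArg Kb.s e

/-- normal forms of a relator with respect to `g` -/
def Nf (a b c g : G) : Prop :=
  ¬ Sm c g ∧ ((¬ Sm a g ∧ ¬ Sm b g) ∨ (a = g ∧ (b = g ∨ ¬ Sm b g)))

theorem nf (h : Tr a b c) (g : G) : ∃ a₁ b₁ c₁, Tr a₁ b₁ c₁ ∧ Nf a₁ b₁ c₁ g ∧
    ∀ Φ : G → Kb, Od Φ → Φ a₁ * Φ b₁ * Φ c₁ = 1 → Φ a * Φ b * Φ c = 1 := by
  have rot : ∀ x y z : Kb, y * z * x = 1 → x * y * z = 1 := fun x y z e => by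
    rw [mul_eq_one_comm, ← mul_assoc] at e; exact e
  have k1 : ∀ {a b c : G}, Tr a b c → ¬ Sm c g → a = g → ∃ a₁ b₁ c₁, Tr a₁ b₁ c₁ ∧ Nf a₁ b₁ c₁ g ∧
      ∀ Φ : G → Kb, Od Φ → Φ a₁ * Φ b₁ * Φ c₁ = 1 → Φ a * Φ b * Φ c = 1 := by
    intro a b c h n e
    refine ⟨a, b, c, h, ⟨n, Or.inr ⟨e, ?_⟩⟩, fun _ _ e => e⟩
    by_cases s : Sm b g
    · exact Or.inl (s.resolve_right (e ▸ h.n21))
    · exact Or.inr s
  have k2 : ∀ {a b c : G}, Tr a b c → a = g → ∃ a₁ b₁ c₁, Tr a₁ b₁ c₁ ∧ Nf a₁ b₁ c₁ g ∧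
      ∀ Φ : G → Kb, Od Φ → Φ a₁ * Φ b₁ * Φ c₁ = 1 → Φ a * Φ b * Φ c = 1 := by
    intro a b c h e
    by_cases s : Sm c g
    · obtain ⟨a₁, b₁, c₁, t, n, r⟩ := k1 h.rot.rot (fun s' => h.nall (Or.inl e) s' s)
        (s.resolve_right (e ▸ h.rot.rot.n12))
      exact ⟨a₁, b₁, c₁, t, n, fun Φ o e => rot _ _ _ (rot _ _ _ (r Φ o e))⟩
    · exact k1 h s e
  have k3 : ∀ {a b c : G}, Tr a b c → Sm a g → ∃ a₁ b₁ c₁, Tr a₁ b₁ c₁ ∧ Nf a₁ b₁ c₁ g ∧
      ∀ Φ : G → Kb, Od Φ → Φ a₁ * Φ b₁ * Φ c₁ = 1 → Φ a * Φ b * Φ c = 1 := by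
    intro a b c h s
    rcases s with e | e
    · exact k2 h e
    · obtain ⟨a₁, b₁, c₁, t, n, r⟩ := k2 h.inv.rot.rot (by simp [e])
      refine ⟨a₁, b₁, c₁, t, n, fun Φ o e => ?_⟩
      have := rot _ _ _ (rot _ _ _ (r Φ o e))
      rw [o, o, o, ← inv_eq_one] at this
      simpa [mul_assoc] using this
  by_cases s1 : Sm a g
  · exact k3 h s1
  by_cases s2 : Sm b g
  · obtain ⟨a₁, b₁, c₁, t, n, r⟩ := k3 h.rot s2
    exact ⟨a₁, b₁, c₁, t, n, fun Φ o e => rot _ _ _ (r Φ o e)⟩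
  by_cases s3 : Sm c g
  · obtain ⟨a₁, b₁, c₁, t, n, r⟩ := k3 h.rot.rot s3
    exact ⟨a₁, b₁, c₁, t, n, fun Φ o e => rot _ _ _ (rot _ _ _ (r Φ o e))⟩
  · exact ⟨a, b, c, h, ⟨s3, Or.inl ⟨s1, s2⟩⟩, fun _ _ e => e⟩

theorem N1 (hg : TF g) (no : ¬ Sol a b c a' b' c' g) {u w : G} (hu : TF u) (hw : TF w)
    (nu : ¬ Sm u g) (nw : ¬ Sm w g) :
    co a b c u * co a' b' c' w = co a b c w * co a' b' c' u := by
  by_contra k
  exact no (lin hg hu hw nu nw _
    (-(co a b c g * co a' b' c' w - co a b c w * co a' b' c' g))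
    (-(co a b c u * co a' b' c' g - co a b c g * co a' b' c' u)) (sub_ne_zero.2 k)
    (by ring) (by ring))

theorem N2 (hg : TF g) (no : ¬ Sol a b c a' b' c' g) {u : G} (hu : TF u) (nu : ¬ Sm u g)
    (h : co a b c u ≠ 0) : co a b c u * co a' b' c' g ≠ co a b c g * co a' b' c' u := fun k =>
  no (lin hg hu hu nu nu _ (-co a b c g) 0 h (by ring) (by linear_combination k))

theorem N3 (hg : TF g) (no : ¬ Sol a b c a' b' c' g) (h' : Tr a' b' c') (n : ¬ Sm c' g) {u : G}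
    (hu : TF u) (nu : ¬ Sm u g) (h : 0 < co a b c u) : co a' b' c' u ≠ 0 := fun k => by
  have := N1 hg no hu h'.c nu n
  rw [k, mul_zero] at this
  exact (mul_pos h h'.pos).ne' this

theorem caseA (hg : TF g) (h : Tr a b c) (h' : Tr a' b' c') (n1 : ¬ Sm a g) (n2 : ¬ Sm b g)
    (n3 : ¬ Sm c g) (n : Nf a' b' c' g) : Sol a b c a' b' c' g := by
  by_contra no
  have z : co a b c g = 0 := by rw [co, io_zero n1, io_zero n2, io_zero n3]; rfl
  obtain ⟨m3, ⟨m1, m2⟩ | ⟨rfl, m2⟩⟩ := n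
  · refine N2 hg no h.c n3 h.pos.ne' ?_
    rw [z, co, co, io_zero m1, io_zero m2, io_zero m3]; simp
  have k : ∀ u, TF u → ¬ Sm u a' → 0 < co a b c u → Sm u b' ∨ Sm u c' := fun u hu nu p =>
    ((co_ne (N3 hg no h' m3 hu nu p)).resolve_left fun s => nu s.symm).imp Sm.symm Sm.symm
  have k1 := k a h.a n1 (co_rot a b c a ▸ h.rot.pos)
  have k2 := k b h.b n2 (co_rot a b c b ▸ co_rot b c a b ▸ h.rot.rot.pos)
  have k3 := k c h.c n3 h.pos
  by_cases s : Sm b' c'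
  · exact h.nall (k1.elim (·.trans s) id) (k2.elim (·.trans s) id) (k3.elim (·.trans s) id)
  rcases m2 with rfl | m2
  · exact h.nall (k1.resolve_left n1) (k2.resolve_left n2) (k3.resolve_left n3)
  have e := N1 hg no h'.b h'.c m2 m3
  have q : ∀ t, Sm t b' ∨ Sm t c' → (io b' t = 0 ∧ (io c' t = 1 ∨ io c' t = -1)) ∨
      (io c' t = 0 ∧ (io b' t = 1 ∨ io b' t = -1)) := by
    rintro t (r | r)
    · exact Or.inr ⟨io_zero fun r' => s (r.symm.trans r'), io_sm r⟩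
    · exact Or.inl ⟨io_zero fun r' => s (r'.symm.trans r), io_sm r⟩
  have q1 := q a k1
  have q2 := q b k2
  have q3 := q c k3
  simp only [co, io_self, io_zero s, io_zero fun r => s (Sm.symm r), io_zero fun r => m2 (Sm.symm r),
    io_zero fun r => m3 (Sm.symm r)] at e
  omega

theorem caseB (h : Tr g g c) (h' : Tr g b' c') (n3 : ¬ Sm c g) (m3 : ¬ Sm c' g)
    (m2 : b' = g ∨ ¬ Sm b' g) : Sol g g c g b' c' g := by
  by_contra no
  have hg := h.a
  rcases m2 with rfl | m2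
  · obtain rfl : c = c' := mul_left_cancel (h.e.trans h'.e.symm)
    exact N2 hg no h.c n3 h.pos.ne' (mul_comm _ _)
  have k : ∀ u, TF u → ¬ Sm u g → 0 < co g b' c' u → Sm u c := fun u hu nu p =>
    (((co_ne (N3 hg (fun s => no s.swap) h n3 hu nu p)).resolve_left fun s => nu s.symm
      ).resolve_left fun s => nu s.symm).symm
  have k2 := k b' h'.b m2 (co_rot g b' c' b' ▸ co_rot b' c' g b' ▸ h'.rot.rot.pos)
  have k3 := k c' h'.c m3 h'.pos
  obtain rfl := h'.rot.eq12 (k2.trans k3.symm)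
  obtain rfl : c = (g * g)⁻¹ := eq_inv_of_mul_eq_one_right h.e
  have e := h'.e
  rcases k2 with rfl | rfl
  · refine hg 3 (by norm_num) ?_
    rw [← inv_eq_one, ← e]; group
  · refine hg 5 (by norm_num) ?_
    rw [← e]; group

theorem caseC (h : Tr g b c) (h' : Tr g b' c') (n2 : ¬ Sm b g) (n3 : ¬ Sm c g) (m2 : ¬ Sm b' g)
    (m3 : ¬ Sm c' g) : Sol g b c g b' c' g := by
  by_contra no
  have hg := h.a
  have pb : 0 < co g b c b := co_rot g b c b ▸ co_rot b c g b ▸ h.rot.rot.pos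
  have k : ∀ u, TF u → ¬ Sm u g → 0 < co g b' c' u → Sm u b ∨ Sm u c := fun u hu nu p =>
    ((co_ne (N3 hg (fun s => no s.swap) h n3 hu nu p)).resolve_left fun s => nu s.symm
      ).imp Sm.symm Sm.symm
  have k2 := k b' h'.b m2 (co_rot g b' c' b' ▸ co_rot b' c' g b' ▸ h'.rot.rot.pos)
  have k3 := k c' h'.c m3 h'.pos
  have e : b * c = b' * c' := by
    apply mul_left_cancel (a := g)
    rw [← mul_assoc, ← mul_assoc, h.e, h'.e]
  have ne : ¬ (b = b' ∧ c = c') := by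
    rintro ⟨rfl, rfl⟩
    exact N2 hg no h.c n3 h.pos.ne' (mul_comm _ _)
  have ne1 : b' ≠ b := fun r => ne ⟨r.symm, mul_left_cancel (r ▸ e)⟩
  have ne2 : c' ≠ c := fun r => ne ⟨mul_right_cancel (r ▸ e), r.symm⟩
  have sq : ¬ (b' = c⁻¹ ∧ c' = b⁻¹) := by
    rintro ⟨rfl, rfl⟩
    have : g = (b * c)⁻¹ := eq_inv_of_mul_eq_one_left (by rw [← mul_assoc, h.e])
    refine hg.ne ?_
    rw [this, inv_inv]; nth_rewrite 2 [e]; simp
  by_cases s : Sm b c
  · obtain rfl := h.rot.eq12 s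
    exact sq ⟨(k2.elim id id).resolve_left ne1, (k3.elim id id).resolve_left ne2⟩
  have s' : ¬ Sm c b := fun r => s r.symm
  have f1 := N1 hg no h.b h.c n2 n3
  have f2 := N2 hg no h.b n2 pb.ne'
  have f3 := N3 hg no h' m3 h.b n2 pb
  simp only [co, io_self, io_zero s, io_zero s', io_zero n2, io_zero n3, io_zero m2, io_zero m3,
    io_zero fun r => n2 (Sm.symm r), io_zero fun r => n3 (Sm.symm r)] at f1 f2 f3
  rcases k2 with (rfl | rfl) | rfl | rfl <;> rcases k3 with (rfl | rfl) | rfl | rfl <;>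
    first
    | exact ne1 rfl
    | exact ne2 rfl
    | exact sq ⟨rfl, rfl⟩
    | exact no (klein h n2 n3 s)
    | simp [io_self, io_zero s, io_zero s', io_odd h.b, io_odd h.c] at f1 f2 f3

theorem sol (hg : TF g) (h : Tr a b c) (h' : Tr a' b' c') : Sol a b c a' b' c' g := by
  obtain ⟨a₁, b₁, c₁, t, n, r⟩ := nf h g
  obtain ⟨a₂, b₂, c₂, t', n', r'⟩ := nf h' g
  suffices k : Sol a₁ b₁ c₁ a₂ b₂ c₂ g by
    obtain ⟨Φ, o, e, e', z⟩ := k
    exact ⟨Φ, o, r Φ o e, r' Φ o e', z⟩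
  rcases n with ⟨n3, ⟨n1, n2⟩ | ⟨rfl, n2⟩⟩
  · exact caseA hg t t' n1 n2 n3 n'
  rcases n' with ⟨m3, ⟨m1, m2⟩ | ⟨rfl, m2⟩⟩
  · exact (caseA hg t' t m1 m2 m3 ⟨n3, Or.inr ⟨rfl, n2⟩⟩).swap
  rcases n2 with rfl | n2
  · exact caseB t t' n3 m3 m2
  rcases m2 with rfl | m2
  · exact (caseB t' t m3 n3 (Or.inr n2)).swap
  · exact caseC t t' n2 n3 m2 m3

/-- any two possible triangle relations are kept by a map that does not kill `g` -/
theorem exists_phi (hg : TF g) (a b c a' b' c' : G) : ∃ Φ : G → Kb, Od Φ ∧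
    (Tr a b c → Φ a * Φ b * Φ c = 1) ∧ (Tr a' b' c' → Φ a' * Φ b' * Φ c' = 1) ∧ Φ g ≠ 1 := by
  have t : Tr g g (g * g)⁻¹ := ⟨by simp, hg, hg, TF.inv fun m hm e =>
    hg (2 * m) (by omega) (by rw [pow_mul, pow_two, e])⟩
  by_cases h : Tr a b c <;> by_cases h' : Tr a' b' c'
  · obtain ⟨Φ, o, e, e', z⟩ := sol hg h h'
    exact ⟨Φ, o, fun _ => e, fun _ => e', z⟩
  · obtain ⟨Φ, o, e, -, z⟩ := sol hg h t
    exact ⟨Φ, o, fun _ => e, fun k => absurd k h', z⟩
  · obtain ⟨Φ, o, -, e, z⟩ := sol hg t h'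
    exact ⟨Φ, o, fun k => absurd k h, fun _ => e, z⟩
  · obtain ⟨Φ, o, -, -, z⟩ := sol hg t t
    exact ⟨Φ, o, fun k => absurd k h, fun k => absurd k h', z⟩

end Pool.Agent.MP_a38735_al.Stk
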