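import Pool.Agent.MP_a38735_al.StackC
import Pool.Agent.MP_a38735_al.StackK

set_option autoImplicit false
set_option linter.unusedSectionVars false

namespace Pool.Agent.MP_a38735_al.Stk

open Finset

variable {G : Type*} [Group G] {n : ℕ} [NeZero n] {T : Type} [Fintype T]

/-- the word, the factors of its letters and the triangles that have to be kept -/
structure Hy (x : ZMod n → G) (φ : ZMod n → Bool) (Rt : ZMod n → ZMod n → ZMod n → Prop) :
    Prop where
  alt : ∀ p, φ (p + 1) ≠ φ p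
  par : ∀ p q, x p = x q → φ p = φ q
  ant : ∀ p q, x p = (x q)⁻¹ → φ p = φ q
  ni : ∀ p, x p ≠ (x p)⁻¹
  prim : ∀ d : ZMod n, d ≠ 0 → ∃ i, x (i + d) ≠ x i
  t1 : ∀ j i k, Rt j i k → φ i = φ j
  t2 : ∀ j i k, Rt j i k → φ k = φ j
  phi : ∀ p, ∃ Φ : G → Kb, Od Φ ∧ Φ (x p) ≠ 1 ∧ ∀ j i k, Rt j i k → Φ (x j) * Φ (x i) = Φ (x k)

/-- a folded quotient of the set of junctions -/
structure Tie (x : ZMod n → G) (τ : ZMod n → T) : Prop where
  sur : Function.Surjective τ
  par : ∀ p q, x p = x q → τ p = τ q → τ (p + 1) = τ (q + 1)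
  ant : ∀ p q, x p = (x q)⁻¹ → τ p = τ (q + 1) → τ (p + 1) = τ q

/-- cocycles on the letters in `I` -/
structure Coc (x : ZMod n → G) (Rt : ZMod n → ZMod n → ZMod n → Prop) (τ : ZMod n → T)
    (I : ZMod n → Prop) (δ : ZMod n → ℚ) : Prop where
  par : ∀ p q, I p → x p = x q → τ p = τ q → δ p = δ q
  ant : ∀ p q, I p → x p = (x q)⁻¹ → τ p = τ (q + 1) → δ p = -δ q
  tri : ∀ j i k, I j → Rt j i k → τ j = τ k → τ (j + 1) = τ i → τ (k + 1) = τ (i + 1) →
    δ k = δ j + δ i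

/-- coboundaries on the letters in `I` -/
def Cob (τ : ZMod n → T) (I : ZMod n → Prop) (δ : ZMod n → ℚ) : Prop :=
  ∃ γ : T → ℚ, ∀ p, I p → δ p = γ (τ (p + 1)) - γ (τ p)

/-- the components for the letters of one factor -/
def cp (φ : ZMod n → Bool) (τ : ZMod n → T) (b : Bool) : Setoid T :=
  Relation.EqvGen.setoid fun t t' => ∃ p, φ p = b ∧ τ p = t ∧ τ (p + 1) = t'

/-- the letters of a component -/
def In (φ : ZMod n → Bool) (τ : ZMod n → T) (b : Bool) (t : T) (p : ZMod n) : Prop :=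
  φ p = b ∧ cp φ τ b (τ p) t

/-- the component has a cohomology class -/
def Loc (x : ZMod n → G) (φ : ZMod n → Bool) (Rt : ZMod n → ZMod n → ZMod n → Prop)
    (τ : ZMod n → T) (b : Bool) (t : T) : Prop :=
  ∃ δ, Coc x Rt τ (In φ τ b t) δ ∧ ¬ Cob τ (In φ τ b t) δ

/-- the top of the tower -/
def Top (x : ZMod n → G) (Rt : ZMod n → ZMod n → ZMod n → Prop) (τ : ZMod n → T) : Prop :=
  ∀ δ, Coc x Rt τ (fun _ => True) δ → ∑ p, δ p = 0 → Cob τ (fun _ => True) δ

variable {x : ZMod n → G} {φ : ZMod n → Bool} {Rt : ZMod n → ZMod n → ZMod n → Prop}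
  {τ : ZMod n → T} {b : Bool} {t : T}

theorem cp_edge {p : ZMod n} (h : φ p = b) : cp φ τ b (τ p) (τ (p + 1)) :=
  Relation.EqvGen.rel _ _ ⟨p, h, rfl, rfl⟩

theorem in_same {p q : ZMod n} (h : φ p = φ q) (e : τ p = τ q) : In φ τ b t p ↔ In φ τ b t q := by
  rw [In, In, h, e]

theorem in_next {p q : ZMod n} (h : φ p = φ q) (e : τ p = τ (q + 1)) :
    In φ τ b t p ↔ In φ τ b t q := by
  rw [In, In, h, e]
  exact and_congr_right fun k =>
    ⟨(cp φ τ b).trans (cp_edge k), (cp φ τ b).trans ((cp φ τ b).symm (cp_edge k))⟩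

theorem fc_of {f : T → ℚ} (h : ∀ p, φ p = b → f (τ p) = f (τ (p + 1))) : Fc (cp φ τ b) f := by
  intro t t' r
  induction r with
  | rel _ _ r => obtain ⟨p, k, rfl, rfl⟩ := r; exact h p k
  | refl => rfl
  | symm _ _ _ ih => exact ih.symm
  | trans _ _ _ _ _ i1 i2 => exact i1.trans i2

open Classical in
theorem Coc.rs (hy : Hy x φ Rt) {δ : ZMod n → ℚ} (h : Coc x Rt τ (In φ τ b t) δ) :
    Coc x Rt τ (fun _ => True) fun p => if In φ τ b t p then δ p else 0 := by
  refine ⟨fun p q _ e r => ?_, fun p q _ e r => ?_, fun j i k _ e r1 r2 r3 => ?_⟩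
  · rw [← in_same (hy.par p q e) r]
    split_ifs with k
    exacts [h.par p q k e r, rfl]
  · rw [← in_next (hy.ant p q e) r]
    split_ifs with k
    exacts [h.ant p q k e r, neg_zero.symm]
  · rw [in_same (hy.t2 _ _ _ e) r1.symm, in_next (hy.t1 _ _ _ e) r2.symm]
    split_ifs with k'
    exacts [h.tri j i k k' e r1 r2 r3, (add_zero _).symm]

theorem Coc.lin {δ δ' : ZMod n → ℚ} {I : ZMod n → Prop} (h : Coc x Rt τ I δ) (h' : Coc x Rt τ I δ')
    (α β : ℚ) : Coc x Rt τ I fun p => α * δ p + β * δ' p :=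
  ⟨fun p q k e r => by rw [h.par p q k e r, h'.par p q k e r],
    fun p q k e r => by rw [h.ant p q k e r, h'.ant p q k e r]; ring,
    fun j i k z e r1 r2 r3 => by rw [h.tri j i k z e r1 r2 r3, h'.tri j i k z e r1 r2 r3]; ring⟩

theorem comb (hy : Hy x φ Rt) (top : Top x Rt τ) (l : Loc x φ Rt τ b t) {δ : ZMod n → ℚ}
    (h : Coc x Rt τ (fun _ => True) δ) (h0 : Cob τ (In φ τ b t) δ) : Cob τ (fun _ => True) δ := by
  classical
  obtain ⟨μ, c, nc⟩ := l
  obtain ⟨γ0, e0⟩ := h0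
  refine top δ h (by_contra fun s => nc ?_)
  obtain ⟨γ, e⟩ := top _ (h.lin (c.rs hy) (∑ p, if In φ τ b t p then μ p else 0) (-∑ p, δ p))
    (by rw [sum_add_distrib, ← mul_sum, ← mul_sum]; ring)
  refine ⟨fun u => ((∑ p, if In φ τ b t p then μ p else 0) * γ0 u - γ u) / ∑ p, δ p, fun p k => ?_⟩
  have := e p trivial
  dsimp only at this ⊢
  rw [if_pos k, e0 p k] at this
  field_simp
  linear_combination -this

theorem loc_uniq (hy : Hy x φ Rt) (top : Top x Rt τ) (l : Loc x φ Rt τ b t) {b' : Bool} {t' : T}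
    (l' : Loc x φ Rt τ b' t') : b' = b ∧ cp φ τ b t' t := by
  classical
  by_contra k
  obtain ⟨μ, c, nc⟩ := l'
  obtain ⟨γ, e⟩ := comb hy top l (c.rs hy) ⟨0, fun p h => by
    dsimp only
    rw [if_neg]; · simp
    rintro ⟨rfl, r⟩
    obtain ⟨rfl, r'⟩ := h
    exact k ⟨rfl, (cp φ τ _).trans ((cp φ τ _).symm r) r'⟩⟩
  exact nc ⟨γ, fun p h => by simpa [h] using e p trivial⟩

/-- the differential along the letters of the first factor -/
def df (φ : ZMod n → Bool) (τ : ZMod n → T) (f : T → ℚ) (p : ZMod n) : ℚ :=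
  if φ p = true then f (τ (p + 1)) - f (τ p) else 0

theorem df_coc (hy : Hy x φ Rt) (ti : Tie x τ) (f : T → ℚ) :
    Coc x Rt τ (fun _ => True) (df φ τ f) := by
  refine ⟨fun p q _ e r => ?_, fun p q _ e r => ?_, fun j i k _ e r1 r2 r3 => ?_⟩
  · rw [df, df, hy.par p q e, ti.par p q e r, r]
  · rw [df, df, hy.ant p q e, ti.ant p q e r, r]
    split_ifs <;> simp
  · rw [df, df, df, hy.t1 _ _ _ e, hy.t2 _ _ _ e, r3, r2, r1]
    split_ifs <;> simp

theorem df_cob {f : T → ℚ} (h : Cob τ (fun _ => True) (df φ τ f)) :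
    ∃ g, Fc (cp φ τ true) (f - g) ∧ Fc (cp φ τ false) g := by
  obtain ⟨γ, e⟩ := h
  refine ⟨γ, fc_of fun p k => ?_, fc_of fun p k => ?_⟩
  · have := e p trivial
    rw [df, if_pos k] at this
    simp only [Pi.sub_apply]
    linarith
  · have := e p trivial
    rw [df, if_neg (by simp [k])] at this
    linarith

theorem loop (hy : Hy x φ Rt) {p : ZMod n} (h : τ (p + 1) = τ p) : Loc x φ Rt τ (φ p) (τ p) := by
  obtain ⟨Φ, o, z, r⟩ := hy.phi p
  have ip : In φ τ (φ p) (τ p) p := ⟨rfl, (cp φ τ _).refl _⟩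
  by_cases c : Cob τ (In φ τ (φ p) (τ p)) fun q => ((Φ (x q)).p : ℚ)
  swap
  · refine ⟨_, ⟨fun q q' _ e _ => by rw [e], fun q q' _ e _ => by rw [e, o]; simp,
      fun j i k _ e _ _ _ => by rw [← r j i k e]; simp⟩, c⟩
  obtain ⟨γ, e⟩ := c
  dsimp only at e
  have key : ∀ q, In φ τ (φ p) (τ p) q →
      sg ⌊γ (τ (q + 1))⌋ = sg ⌊γ (τ q)⌋ * sg (Φ (x q)).p := fun q k => by
    rw [← sg_add, ← Int.floor_add_intCast, e q k, add_sub_cancel]
  refine ⟨fun q => ((sg ⌊γ (τ q)⌋ * (Φ (x q)).s : ℤ) : ℚ), ⟨fun q q' _ e1 e2 => by rw [e1, e2],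
    fun q q' k e1 e2 => ?_, fun j i k z e0 e1 e2 _ => ?_⟩, ?_⟩
  · rw [e1, e2, o, key q' ((in_next (hy.ant _ _ e1) e2).1 k), ← Int.cast_neg, Int.cast_inj, inv_s]
    linear_combination (-(sg ⌊γ (τ q')⌋ * (Φ (x q')).s)) * sg_sq (Φ (x q')).p
  · rw [← r j i k e0, ← e1, ← e2, key j z, ← Int.cast_add, Int.cast_inj, mul_s]
    ring
  · rintro ⟨γ', e'⟩
    have a1 := e p ip
    have a2 := e' p ip
    rw [h, sub_self, Int.cast_eq_zero] at a1 a2
    refine z (Kb.ext a1 ((mul_eq_zero.1 a2).resolve_left fun k => ?_))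
    simpa [k] using sg_sq ⌊γ (τ p)⌋

theorem single (hy : Hy x φ Rt) (ti : Tie x τ) (h : ¬ Loc x φ Rt τ b t) :
    ∃ t', t' ≠ t ∧ cp φ τ b t t' := by
  obtain ⟨q, rfl⟩ := ti.sur t
  by_cases k : φ q = b
  · exact ⟨_, fun e => h (k ▸ loop hy e), cp_edge k⟩
  · obtain ⟨p, rfl⟩ : ∃ p, q = p + 1 := ⟨q - 1, by ring⟩
    have k' : φ p = b := by
      have := hy.alt p
      revert k this
      cases φ p <;> cases φ (p + 1) <;> cases b <;> simp
    exact ⟨_, fun e => h (k' ▸ e ▸ loop hy e.symm), (cp φ τ b).symm (cp_edge k')⟩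

theorem no_loc (hy : Hy x φ Rt) (ti : Tie x τ) (top : Top x Rt τ) : ¬ Loc x φ Rt τ b t := by
  intro l
  have h : ∀ f : T → ℚ, ∃ g, Fc (cp φ τ true) (f - g) ∧ Fc (cp φ τ false) g := fun f => by
    refine df_cob (comb hy top l (df_coc hy ti f) ?_)
    cases b
    · exact ⟨0, fun p k => by simp [df, k.1]⟩
    · exact ⟨f, fun p k => by simp [df, k.1]⟩
  have h1 : ∀ u, ¬ cp φ τ b u t → ∃ t', t' ≠ u ∧ cp φ τ b u t' := fun u k =>
    single hy ti fun l' => k (loc_uniq hy top l l').2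
  have h2 : ∀ u, ∃ t', t' ≠ u ∧ cp φ τ (!b) u t' := fun u =>
    single hy ti fun l' => by simpa using (loc_uniq hy top l l').1
  cases b
  · refine graph1 (cp φ τ false) (cp φ τ true) t (fun f => ?_) h1 h2
    obtain ⟨g, a, b⟩ := h f
    exact ⟨f - g, by simpa using b, a⟩
  · exact graph1 (cp φ τ true) (cp φ τ false) t h h1 h2

theorem two (hy : Hy x φ Rt) (ti : Tie x τ) (top : Top x Rt τ) {u v w : T} (h1 : cp φ τ b u v)
    (h2 : cp φ τ b u w) (n1 : u ≠ v) (n2 : u ≠ w) : v = w := by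
  let σ : (T → ℚ) →ₗ[ℚ] ℚ :=
    { toFun := fun f => ∑ p, df φ τ f p
      map_add' := fun f g => by
        rw [← sum_add_distrib]
        refine sum_congr rfl fun p _ => ?_
        simp only [df, Pi.add_apply]
        split_ifs <;> ring
      map_smul' := fun c f => by
        simp only [smul_eq_mul, RingHom.id_apply, mul_sum]
        refine sum_congr rfl fun p _ => ?_
        simp only [df, Pi.smul_apply, smul_eq_mul]
        split_ifs <;> ring }
  refine graph2 (cp φ τ true) (cp φ τ false) σ (fun f hf => df_cob (top _ (df_coc hy ti f) hf))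
    (fun u => single hy ti (no_loc hy ti top)) (fun u => single hy ti (no_loc hy ti top)) ?_ n1 n2
  cases b
  exacts [Or.inr ⟨h1, h2⟩, Or.inl ⟨h1, h2⟩]

theorem same (hy : Hy x φ Rt) (ti : Tie x τ) (top : Top x Rt τ) {p q : ZMod n} (h : φ p = φ q)
    (e : τ p = τ q) : x q = x p := by
  classical
  have nl : ∀ r, τ r ≠ τ (r + 1) := fun r k => no_loc hy ti top (loop hy k.symm)
  have c : Coc x Rt τ (In φ τ (φ p) (τ p)) fun r =>
      (if x r = x p ∧ τ r = τ p then 1 else 0) -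
        if x r = (x p)⁻¹ ∧ τ (r + 1) = τ p then 1 else 0 := by
    refine ⟨fun r r' _ e1 e2 => by rw [ti.par r r' e1 e2, e1, e2], fun r r' _ e1 e2 => ?_,
      fun j i k _ e0 e1 e2 e3 => ?_⟩
    · rw [ti.ant r r' e1 e2, e1, e2, neg_sub, inv_inj, inv_eq_iff_eq_inv]
    · refine absurd (two hy ti top (cp_edge (p := j) rfl) (e1 ▸ cp_edge (hy.t2 _ _ _ e0)) (nl j)
        (e1 ▸ nl k)) ?_
      rw [e2, e3]
      exact nl i
  obtain ⟨γ, g⟩ := not_not.1 fun k => no_loc hy ti top ⟨_, c, k⟩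
  have a1 := g p ⟨rfl, (cp φ τ _).refl _⟩
  have a2 := g q ⟨h.symm, e ▸ (cp φ τ _).refl _⟩
  have e' : τ (q + 1) = τ (p + 1) :=
    two hy ti top (e ▸ cp_edge h.symm) (cp_edge rfl) (e ▸ nl q) (nl p)
  rw [e', ← e, ← a1] at a2
  by_contra k
  simp [k, e', (nl p).symm] at a2

theorem top_inj (hy : Hy x φ Rt) (ti : Tie x τ) (top : Top x Rt τ) : Function.Injective τ := by
  intro p q e
  have nl : ∀ r, τ r ≠ τ (r + 1) := fun r k => no_loc hy ti top (loop hy k.symm)
  have al : ∀ r r', φ (r + 1) = φ (r' + 1) ↔ φ r = φ r' := fun r r' => by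
    have h1 := hy.alt r
    have h2 := hy.alt r'
    revert h1 h2
    cases φ r <;> cases φ r' <;> cases φ (r + 1) <;> cases φ (r' + 1) <;> simp
  by_cases h : φ p = φ q
  · have k : ∀ s : ℕ, φ (p + s) = φ (q + s) ∧ τ (p + s) = τ (q + s) := fun s => by
      induction s with
      | zero => simpa using ⟨h, e⟩
      | succ s ih =>
        rw [Nat.cast_succ, ← add_assoc, ← add_assoc]
        exact ⟨(al _ _).2 ih.1, ti.par _ _ (same hy ti top ih.1 ih.2).symm ih.2⟩
    by_contra ne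
    obtain ⟨i, hi⟩ := hy.prim (q - p) (sub_ne_zero.2 (Ne.symm ne))
    have := same hy ti top (k (i - p).val).1 (k (i - p).val).2
    rw [ZMod.natCast_zmod_val, add_sub_cancel] at this
    exact hi (by rw [← this]; congr 1; ring)
  · have k : ∀ s : ℕ, φ (p + s) ≠ φ (q - s) ∧ τ (p + s) = τ (q - s) := fun s => by
      induction s with
      | zero => simpa using ⟨h, e⟩
      | succ s ih =>
        obtain ⟨r, hr⟩ : ∃ r, q - s = r + 1 := ⟨q - s - 1, by ring⟩
        rw [Nat.cast_succ, ← add_assoc, ← sub_sub, hr, add_sub_cancel_right]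
        rw [hr] at ih
        have f : φ r = φ (p + s) := by
          have h1 := hy.alt r
          have h2 := ih.1
          revert h1 h2
          cases φ r <;> cases φ (r + 1) <;> cases φ (p + s) <;> simp
        exact ⟨f ▸ hy.alt _, two hy ti top (cp_edge rfl)
          (ih.2 ▸ (cp φ τ _).symm (cp_edge f)) (nl _) (ih.2 ▸ (nl r).symm)⟩
    exfalso
    obtain ⟨d, hd⟩ : ∃ d : ℕ, q = p + d := ⟨(q - p).val, by simp⟩
    obtain ⟨s, rfl | rfl⟩ := Nat.even_or_odd' d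
    · exact (k s).1 (by rw [hd]; congr 1; push_cast; ring)
    · exact nl (p + s) (by rw [(k s).2, hd]; congr 1; push_cast; ring)

end Pool.Agent.MP_a38735_al.Stk
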