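import Pool.Agent.MP_a38735_al.Lex

set_option autoImplicit false

namespace Pool.Agent.MP_a38735_al

variable {G : Type*} [Group G] {H : Bool → Subgroup G} {n : ℕ}

/-- directed arcs -/
abbrev Ar (n : ℕ) := (Bool × ZMod n) × (Bool × ZMod n)

/-- one step forward on a strip (the sides are swapped) -/
def fw (b : Ar n) : Ar n := (cn b.2, cn b.1)
/-- the same arc in the opposite direction -/
def rv (b : Ar n) : Ar n := (ci (cn b.1), ci (cn b.2))
/-- the strip continues -/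
def ok (x : ZMod n → G) (b : Ar n) : Prop := cl x (cn b.1) = cl x (cn b.2)

@[simp] theorem rv_rv (b : Ar n) : rv (rv b) = b := by simp [rv]
theorem fw_rv_fw (b : Ar n) : fw (rv (fw b)) = rv b := by simp [rv, fw]
theorem ok_rv_fw {x : ZMod n → G} {b : Ar n} (h : ok x b) : ok x (rv (fw b)) := by
  simpa [ok, rv, fw] using Eq.symm h

theorem fw_iter (b : Ar n) (s : ℕ) : fw^[s] b =
    if Even s then (cn^[s] b.1, cn^[s] b.2) else (cn^[s] b.2, cn^[s] b.1) := by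
  induction s with
  | zero => simp
  | succ s ih =>
    rw [Function.iterate_succ_apply', ih]
    by_cases h : Even s <;> simp [h, Nat.even_add_one, fw, Function.iterate_succ_apply']

theorem mt_ok {x : ZMod n → G} {b : Ar n} {t : ℕ} :
    Mt x b.1 b.2 (t + 1) ↔ Mt x b.1 b.2 t ∧ ok x (fw^[t] b) := by
  rw [mt_succ', fw_iter]
  split_ifs <;> simp [ok, eq_comm]

/-- `a` lies ahead of `b` -/
def Ahd (x : ZMod n → G) (b a : Ar n) : Prop :=
  ∃ s, Mt x b.1 b.2 s ∧ (a = fw^[s] b ∨ a = rv (fw^[s] b))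

/-- `a` and `b` lie on one strip -/
def Lk (x : ZMod n → G) (b a : Ar n) : Prop := Ahd x b a ∨ Ahd x (rv b) a

theorem lk_refl (x : ZMod n → G) (a : Ar n) : Lk x a a :=
  Or.inl ⟨0, mt_zero _ _ _, Or.inl rfl⟩

theorem Ahd.rv {x : ZMod n → G} {b a : Ar n} (h : Ahd x b a) : Ahd x b (rv a) := by
  obtain ⟨s, h1, h2 | h2⟩ := h
  · exact ⟨s, h1, Or.inr (by rw [h2])⟩
  · exact ⟨s, h1, Or.inl (by rw [h2, rv_rv])⟩

theorem Lk.rv {x : ZMod n → G} {b a : Ar n} (h : Lk x b a) : Lk x b (rv a) :=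
  h.imp Ahd.rv Ahd.rv

theorem Ahd.fw {x : ZMod n → G} {b a : Ar n} (h : Ahd x b a) (ho : ok x a) : Lk x b (fw a) := by
  obtain ⟨s, h1, rfl | rfl⟩ := h
  · exact Or.inl ⟨s + 1, mt_ok.2 ⟨h1, ho⟩, Or.inl (Function.iterate_succ_apply' _ _ _).symm⟩
  · cases s with
    | zero => exact Or.inr ⟨1, mt_ok.2 ⟨mt_zero _ _ _, ho⟩, Or.inl rfl⟩
    | succ s =>
      refine Or.inl ⟨s, h1.mono (by omega), Or.inr ?_⟩
      rw [Function.iterate_succ_apply', fw_rv_fw]

theorem Lk.fw {x : ZMod n → G} {b a : Ar n} (h : Lk x b a) (ho : ok x a) : Lk x b (fw a) := by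
  rcases h with h | h
  · exact h.fw ho
  · have := h.fw ho
    rw [Lk, rv_rv] at this
    exact this.symm

theorem Lk.bw {x : ZMod n → G} {b a : Ar n} (h : Lk x b (MP_a38735_al.fw a)) (ho : ok x a) :
    Lk x b a := by
  have := (h.rv.fw (ok_rv_fw ho)).rv
  rwa [fw_rv_fw, rv_rv] at this

theorem Lk.swap {x : ZMod n → G} {b a : Ar n} (h : Lk x b a) : Lk x b.swap a.swap := by
  have e : ∀ (b : Ar n) (s : ℕ), MP_a38735_al.fw^[s] b.swap = (MP_a38735_al.fw^[s] b).swap := by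
    intro b s
    rw [fw_iter, fw_iter]; split_ifs <;> rfl
  have k : ∀ {b a : Ar n}, Ahd x b a → Ahd x b.swap a.swap := by
    rintro b a ⟨s, h1, rfl | rfl⟩
    · exact ⟨s, h1.symm, Or.inl (e _ _).symm⟩
    · exact ⟨s, h1.symm, Or.inr (by rw [e]; rfl)⟩
  exact h.imp k k

/-- a property of arcs that moves along strips passes from `a` back to `b` -/
theorem Lk.back {x : ZMod n → G} {Q : Ar n → Prop} (h1 : ∀ a, Q a → Q (MP_a38735_al.rv a))
    (h2 : ∀ a, Q a → ok x a → Q (MP_a38735_al.fw a)) {b a : Ar n} (h : Lk x b a) (ha : Q a) :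
    Q b := by
  have k : ∀ s (b : Ar n), Mt x b.1 b.2 s → Q (MP_a38735_al.fw^[s] b) → Q b := by
    intro s b
    induction s with
    | zero => exact fun _ h => h
    | succ s ih =>
      intro c1 c2
      rw [Function.iterate_succ_apply'] at c2
      have := h1 _ (h2 _ (h1 _ c2) (ok_rv_fw (mt_ok.1 c1).2))
      rw [fw_rv_fw, rv_rv] at this
      exact ih (mt_ok.1 c1).1 this
  have k' : ∀ {b : Ar n}, Ahd x b a → Q b := by
    rintro b ⟨s, c1, rfl | rfl⟩
    · exact k s b c1 ha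
    · exact k s b c1 (by simpa using h1 _ ha)
  rcases h with h | h
  · exact k' h
  · simpa using h1 _ (k' h)

/-- a state of the refinement process -/
structure St (H : Bool → Subgroup G) (x : ZMod n → G) where
  p : ZMod n → Prop
  q : ZMod n → Prop
  T : Ar n → Prop
  Ab : Ar n → Prop
  tri : ∀ a : Ar n, fac H (cl x a.1) = fac H (cl x a.2) → T a ∨ Ab a ∨ Ab a.swap
  T_swap : ∀ a, T a → T a.swap
  T_rv : ∀ a, T a → T (rv a)
  T_fw : ∀ a, T a → ok x a → T (fw a)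
  Ab_rv : ∀ a, Ab a → Ab (rv a)
  Ab_fw : ∀ a, Ab a → ok x a → Ab (fw a)
  Ab_p : ∀ a, Ab a → ¬ p (jn a.2)
  Ab_q : ∀ a, Ab a → ¬ q (jn a.1)
  T_p : ∀ a, T a → p (jn a.1) → p (jn a.2)
  T_q : ∀ a, T a → q (jn a.1) → q (jn a.2)
  dj : (∀ j, ¬ (p j ∧ q j)) ∨ (∀ j, p j ∧ q j)

namespace St

variable {x : ZMod n → G} (S : St H x)

/-- marked junctions -/
def Mk (j : ZMod n) : Prop := S.p j ∨ S.q j

/-- admissible heights -/
def Adm (K : ZMod n → ℚ) : Prop := ∀ b a : Ar n, Lk x b a → S.T a → S.Mk (jn b.1) →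
  S.Mk (jn a.1) → K (jn a.1) - K (jn a.2) = K (jn b.1) - K (jn b.2)

theorem T_mk {a : Ar n} (h : S.T a) (hm : S.Mk (jn a.1)) : S.Mk (jn a.2) :=
  hm.imp (S.T_p a h) (S.T_q a h)

theorem T_back {b a : Ar n} (h : Lk x b a) (ha : S.T a) : S.T b := h.back S.T_rv S.T_fw ha

theorem refine (K : ZMod n → ℚ) (hK : S.Adm K) : ∃ S' : St H x,
    (∀ j, S'.p j ↔ S.p j ∧ ∀ k, S.p k → K k ≤ K j) ∧
    (∀ j, S'.q j ↔ S.q j ∧ ∀ k, S.q k → K j ≤ K k) := by
  refine ⟨{ p := fun j => S.p j ∧ ∀ k, S.p k → K k ≤ K j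
            q := fun j => S.q j ∧ ∀ k, S.q k → K j ≤ K k
            T := fun a => S.T a ∧ ∀ b, Lk x b a → S.Mk (jn b.1) → K (jn b.1) = K (jn b.2)
            Ab := fun a => S.Ab a ∨
              (S.T a ∧ ∃ b, Lk x b a ∧ S.Mk (jn b.1) ∧ K (jn b.2) < K (jn b.1))
            tri := ?_, T_swap := ?_, T_rv := ?_, T_fw := ?_, Ab_rv := ?_, Ab_fw := ?_
            Ab_p := ?_, Ab_q := ?_, T_p := ?_, T_q := ?_, dj := ?_ },
    fun _ => Iff.rfl, fun _ => Iff.rfl⟩
  · intro a h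
    rcases S.tri a h with h | h | h
    · by_cases c : ∀ b, Lk x b a → S.Mk (jn b.1) → K (jn b.1) = K (jn b.2)
      · exact Or.inl ⟨h, c⟩
      · push Not at c
        obtain ⟨b, c1, c2, c3⟩ := c
        rcases lt_or_gt_of_ne c3 with c3 | c3
        · exact Or.inr (Or.inr (Or.inr ⟨S.T_swap a h, b.swap, c1.swap,
            S.T_mk (S.T_back c1 h) c2, c3⟩))
        · exact Or.inr (Or.inl (Or.inr ⟨h, b, c1, c2, c3⟩))
    · exact Or.inr (Or.inl (Or.inl h))
    · exact Or.inr (Or.inr (Or.inl h))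
  · rintro a ⟨h1, h2⟩
    refine ⟨S.T_swap a h1, fun b c1 c2 => (h2 b.swap c1.swap ?_).symm⟩
    exact S.T_mk (S.T_back c1 (S.T_swap a h1)) c2
  · rintro a ⟨h1, h2⟩
    exact ⟨S.T_rv a h1, fun b c1 c2 => h2 b (by simpa using c1.rv) c2⟩
  · rintro a ⟨h1, h2⟩ ho
    exact ⟨S.T_fw a h1 ho, fun b c1 c2 => h2 b (c1.bw ho) c2⟩
  · rintro a (h | ⟨h, b, c1, c2⟩)
    · exact Or.inl (S.Ab_rv a h)
    · exact Or.inr ⟨S.T_rv a h, b, c1.rv, c2⟩
  · rintro a (h | ⟨h, b, c1, c2⟩) ho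
    · exact Or.inl (S.Ab_fw a h ho)
    · exact Or.inr ⟨S.T_fw a h ho, b, c1.fw ho, c2⟩
  · rintro a (h | ⟨h, b, c1, c2, c3⟩) ⟨d1, d2⟩
    · exact S.Ab_p a h d1
    · have d3 := S.T_p _ (S.T_swap a h) d1
      have := hK b a c1 h c2 (Or.inl d3)
      have := d2 _ d3
      simp only [Prod.snd_swap] at this
      linarith
  · rintro a (h | ⟨h, b, c1, c2, c3⟩) ⟨d1, d2⟩
    · exact S.Ab_q a h d1
    · have := hK b a c1 h c2 (Or.inr d1)
      have := d2 _ (S.T_q _ h d1)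
      linarith
  · rintro a ⟨h1, h2⟩ ⟨d1, d2⟩
    exact ⟨S.T_p a h1 d1, fun k hk => h2 a (lk_refl x a) (Or.inl d1) ▸ d2 k hk⟩
  · rintro a ⟨h1, h2⟩ ⟨d1, d2⟩
    exact ⟨S.T_q a h1 d1, fun k hk => h2 a (lk_refl x a) (Or.inr d1) ▸ d2 k hk⟩
  · rcases S.dj with h | h
    · exact Or.inl fun j c => h j ⟨c.1.1, c.2.1⟩
    · by_cases c : ∀ j, ¬ ((S.p j ∧ ∀ k, S.p k → K k ≤ K j) ∧ (S.q j ∧ ∀ k, S.q k → K j ≤ K k))
      · exact Or.inl c
      · push Not at c
        obtain ⟨j, c1, c2⟩ := c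
        refine Or.inr fun i => ⟨⟨(h i).1, fun k hk => ?_⟩, (h i).2, fun k hk => ?_⟩
        · exact (c1.2 k hk).trans (c2.2 i (h i).2)
        · exact (c1.2 i (h i).1).trans (c2.2 k hk)

/-- exchanging the two classes -/
def flip : St H x where
  p := S.q
  q := S.p
  T := S.T
  Ab := fun a => S.Ab a.swap
  tri := fun a h => by
    rcases S.tri a h with h | h | h
    · exact Or.inl h
    · exact Or.inr (Or.inr h)
    · exact Or.inr (Or.inl h)
  T_swap := S.T_swap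
  T_rv := S.T_rv
  T_fw := S.T_fw
  Ab_rv := fun a h => S.Ab_rv a.swap h
  Ab_fw := fun a h ho => S.Ab_fw a.swap h (Eq.symm ho)
  Ab_p := fun a h => S.Ab_q a.swap h
  Ab_q := fun a h => S.Ab_p a.swap h
  T_p := S.T_q
  T_q := S.T_p
  dj := S.dj.imp (fun h j c => h j c.symm) (fun h j => (h j).symm)

theorem T_iter {a : Ar n} (h : S.T a) {s : ℕ} (hm : Mt x a.1 a.2 s) :
    S.T (cn^[s] a.1, cn^[s] a.2) := by
  have : S.T (fw^[s] a) := by
    induction s with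
    | zero => exact h
    | succ s ih =>
      rw [Function.iterate_succ_apply']
      exact S.T_fw _ (ih (mt_ok.1 hm).1) (mt_ok.1 hm).2
  rw [fw_iter] at this
  split_ifs at this
  · exact this
  · exact S.T_swap _ this

theorem Ab_iter {a : Ar n} (h : S.Ab a) {s : ℕ} (hm : Mt x a.1 a.2 s) :
    (Even s → ¬ S.p (jn (cn^[s] a.2)) ∧ ¬ S.q (jn (cn^[s] a.1))) ∧
    (¬ Even s → ¬ S.p (jn (cn^[s] a.1)) ∧ ¬ S.q (jn (cn^[s] a.2))) := by
  have : S.Ab (fw^[s] a) := by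
    induction s with
    | zero => exact h
    | succ s ih =>
      rw [Function.iterate_succ_apply']
      exact S.Ab_fw _ (ih (mt_ok.1 hm).1) (mt_ok.1 hm).2
  rw [fw_iter] at this
  constructor <;> intro c <;> simp only [c, if_true, if_false] at this <;>
    exact ⟨S.Ab_p _ this, S.Ab_q _ this⟩

/-- the marks on a strip whose first side is the upper one -/
def Up (u v : ℕ → ZMod n) (t : ℕ) : Prop := ∀ s, s ≤ t →
  (Even s → ¬ S.p (v s) ∧ ¬ S.q (u s)) ∧ (¬ Even s → ¬ S.p (u s) ∧ ¬ S.q (v s))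

/-- the marks on a strip are aligned -/
def Al (u v : ℕ → ZMod n) (t : ℕ) : Prop := ∀ s, s ≤ t →
  (S.p (u s) ↔ S.p (v s)) ∧ (S.q (u s) ↔ S.q (v s))

theorem cases {a a' : Bool × ZMod n} (hp : fac H (cl x a) = fac H (cl x a')) {t : ℕ}
    (hm : Mt x a a' t) :
    (S.T (a, a') ∧ S.Al (fun s => jn (cn^[s] a)) (fun s => jn (cn^[s] a')) t) ∨
    S.Up (fun s => jn (cn^[s] a)) (fun s => jn (cn^[s] a')) t ∨
    S.Up (fun s => jn (cn^[s] a')) (fun s => jn (cn^[s] a)) t := by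
  rcases S.tri (a, a') hp with h | h | h
  · refine Or.inl ⟨h, fun s hs => ?_⟩
    have h1 := S.T_iter h (hm.mono hs)
    exact ⟨⟨S.T_p _ h1, S.T_p _ (S.T_swap _ h1)⟩, S.T_q _ h1, S.T_q _ (S.T_swap _ h1)⟩
  · exact Or.inr (Or.inl fun s hs => S.Ab_iter h (hm.mono hs))
  · exact Or.inr (Or.inr fun s hs => S.Ab_iter h (hm.mono hs).symm)

theorem par_cases (hc : Cy H x) {i k : ZMod n} {t : ℕ} (hp : fac H (x i) = fac H (x k))
    (hm : PM x i k t) : S.Al (fun s => i + s) (fun s => k + s) t ∨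
    S.Up (fun s => i + s) (fun s => k + s) t ∨ S.Up (fun s => k + s) (fun s => i + s) t := by
  have := S.cases (a := (true, i - 1)) (a' := (true, k - 1)) (t := t) (by
    have h1 := hc.hf (i - 1)
    have h2 := hc.hf (k - 1)
    simp only [sub_add_cancel] at h1 h2
    exact bool_ne_ne h1.symm (hp ▸ h2)) (mt_tt.2 (by simpa using hm))
  simp only [jn_t, sub_add_cancel] at this
  exact this.imp_left And.right

theorem anti_cases (hc : Cy H x) {i k : ZMod n} {t : ℕ} (hp : fac H (x i) ≠ fac H (x k))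
    (hm : AM x i k t) : S.Al (fun s => i + s) (fun s => k - s) t ∨
    S.Up (fun s => i + s) (fun s => k - s) t ∨ S.Up (fun s => k - s) (fun s => i + s) t := by
  have := S.cases (a := (true, i - 1)) (a' := (false, k)) (t := t) (by
    have h1 := hc.hf (i - 1)
    simp only [sub_add_cancel] at h1
    simpa [cl, fac_inv] using bool_ne_ne h1.symm hp) (mt_tf.2 (by simpa using hm))
  simp only [jn_t, jn_f, sub_add_cancel] at this
  exact this.imp_left And.right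

end St

end Pool.Agent.MP_a38735_al
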