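import Pool.Agent.MP_a38735_al.Gauss

set_option autoImplicit false

namespace Pool.Agent.MP_a38735_al

open List

variable {G : Type*} [Group G] {H : Bool → Subgroup G} {Ω : Type*}

/-- A colouring of the corners of the relator `ρ`. -/
structure Col (H : Bool → Subgroup G) (Ω : Type*) (ρ : G) where
  nxt : Ω → Ω
  prv : Ω → Ω
  inv : Ω → Ω
  lab : Ω → G
  sgn : Ω → Bool
  N : ℕ
  col : Ω → ℚ
  hN : 0 < N
  per : ∀ c, nxt^[N] c = c
  prv_nxt : ∀ c, prv (nxt c) = c
  nxt_prv : ∀ c, nxt (prv c) = c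
  labL : ∀ c, IsL H (lab c)
  fac_nxt : ∀ c, fac H (lab (nxt c)) ≠ fac H (lab c)
  sgn_nxt : ∀ c, sgn (nxt c) = sgn c
  sgn_inv : ∀ c, sgn (inv c) ≠ sgn c
  R_inv : ∀ c, wd nxt lab N (inv c) * wd nxt lab N (nxt c) = 1
  inv_nxt : ∀ c c', nxt c = inv c' → nxt c' = inv c
  R_conj : ∀ c, IsConj ρ (wd nxt lab N c) ∨ IsConj ρ⁻¹ (wd nxt lab N c)
  ex_pos : ∃ c, IsConj ρ (wd nxt lab N c)
  ex_neg : ∃ c, IsConj ρ⁻¹ (wd nxt lab N c)
  col0 : ∀ c, 0 ≤ col c
  col1 : ∀ c, col c ≤ 1
  face : ∀ c, 4 ≤ ms nxt (fun c => |col c - col (prv c)|) N c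
  mono : ∀ c d t, fac H (lab c) = fac H (lab d) → d ≠ inv c →
    (∀ s, s < t → lab (nxt^[s + 1] c) * lab (prv^[s + 1] d) = 1) →
    (col (nxt c) < col c ∨ col d < col (prv d)) →
    col (nxt^[t + 1] c) ≤ col (nxt^[t] c) ∧ col (prv^[t] d) ≤ col (prv^[t + 1] d)

namespace Col

variable {ρ : G} (C : Col H Ω ρ)

/-- an increasing mark lies ahead on the strip -/
inductive Ah : Ω → Ω → Prop
  | base (c d : Ω) : (C.col c < C.col (C.nxt c) ∨ C.col (C.prv d) < C.col d) → Ah c d
  | step (c d : Ω) : C.lab (C.nxt c) * C.lab (C.prv d) = 1 → Ah (C.nxt c) (C.prv d) → Ah c d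

theorem Ah.unwind {c d : Ω} (h : C.Ah c d) :
    ∃ t, (∀ s, s < t → C.lab (C.nxt^[s + 1] c) * C.lab (C.prv^[s + 1] d) = 1) ∧
      (C.col (C.nxt^[t] c) < C.col (C.nxt^[t + 1] c) ∨
        C.col (C.prv^[t + 1] d) < C.col (C.prv^[t] d)) := by
  induction h with
  | base c d h => exact ⟨0, by simp, by simpa using h⟩
  | step c d h1 _ ih =>
    obtain ⟨t, h2, h3⟩ := ih
    refine ⟨t + 1, ?_, by simpa only [Function.iterate_succ_apply] using h3⟩
    intro s hs
    cases s with
    | zero => simpa using h1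
    | succ s => simpa only [Function.iterate_succ_apply] using h2 s (by omega)

theorem not_ah {c d : Ω} (h1 : fac H (C.lab c) = fac H (C.lab d)) (h2 : d ≠ C.inv c)
    (h3 : C.col (C.nxt c) < C.col c ∨ C.col d < C.col (C.prv d)) : ¬ C.Ah c d := by
  intro h
  obtain ⟨t, k1, k2⟩ := h.unwind
  have := C.mono c d t h1 h2 k1 h3
  rcases k2 with k2 | k2 <;> linarith [this.1, this.2]

/-- orientation of the strip -/
def Pos (c d : Ω) : Prop := C.Ah c d ∨ (C.lab c * C.lab d = 1 ∧ C.Ah d c)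

theorem pos_star {c c' : Ω} (h : C.Pos c (C.nxt c')) : C.Pos c' (C.nxt c) := by
  rcases h with h | ⟨h1, h2⟩
  · cases h with
    | base _ _ h =>
      rw [C.prv_nxt] at h
      exact Or.inl (Ah.base _ _ (by rw [C.prv_nxt]; exact h.symm))
    | step _ _ h1 h2 =>
      rw [C.prv_nxt] at h1 h2
      exact Or.inr ⟨mul_eq_one_comm.1 h1, h2⟩
  · exact Or.inl (Ah.step _ _ (by rw [C.prv_nxt]; exact mul_eq_one_comm.1 h1)
      (by rw [C.prv_nxt]; exact h2))

theorem pos_swap {c d : Ω} (h1 : C.lab c * C.lab d = 1) (h : C.Pos c d) : C.Pos d c := by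
  rcases h with h | h
  · exact Or.inr ⟨mul_eq_one_comm.1 h1, h⟩
  · exact Or.inl h.2

open Classical in
/-- the share of a junction -/
noncomputable def ψ (c d : Ω) : ℚ := if C.Pos c d then C.col d - C.col c else C.col c - C.col d

theorem ψ_le (c d : Ω) : C.ψ c d ≤ |C.col c - C.col d| := by
  unfold ψ
  split_ifs
  · rw [abs_sub_comm]; exact le_abs_self _
  · exact le_abs_self _

/-- the curvature certificate of a colouring -/
noncomputable def sys : Sys H Ω ρ where
  nxt := C.nxt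
  inv := C.inv
  lab := C.lab
  sgn := C.sgn
  N := C.N
  mark := fun c => |C.col c - C.col (C.prv c)|
  ψ := C.ψ
  hN := C.hN
  per := C.per
  labL := C.labL
  fac_nxt := C.fac_nxt
  sgn_nxt := C.sgn_nxt
  sgn_inv := C.sgn_inv
  R_inv := C.R_inv
  inv_nxt := C.inv_nxt
  R_conj := C.R_conj
  ex_pos := C.ex_pos
  ex_neg := C.ex_neg
  face := C.face
  edge := by
    intro c c' h1 h2 h3
    have f1 : fac H (C.lab c) = fac H (C.lab (C.nxt c')) := bool_ne_ne h1 (C.fac_nxt _).symm
    have f2 : fac H (C.lab c') = fac H (C.lab (C.nxt c)) := bool_ne_ne h1.symm (C.fac_nxt _).symm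
    simp only [C.prv_nxt]
    by_cases hp : C.Pos c (C.nxt c')
    · have hp' := C.pos_star hp
      have key : ¬ (C.col (C.nxt c) < C.col c ∨ C.col (C.nxt c') < C.col c') := by
        intro k
        have k1 := C.not_ah f1 h2 (by rw [C.prv_nxt]; exact k)
        have k2 := C.not_ah f2 h3 (by rw [C.prv_nxt]; exact k.symm)
        rcases hp with hp | ⟨p1, p2⟩
        · exact k1 hp
        · exact k2 (Ah.step _ _ (by rw [C.prv_nxt]; exact mul_eq_one_comm.1 p1)
            (by rw [C.prv_nxt]; exact p2))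
      push Not at key
      simp only [ψ, hp, hp', if_true]
      rw [abs_of_nonneg (by linarith [key.1]), abs_of_nonneg (by linarith [key.2])]
      linarith
    · have hp' : ¬ C.Pos c' (C.nxt c) := fun h => hp (C.pos_star h)
      have key : ¬ (C.col c < C.col (C.nxt c) ∨ C.col c' < C.col (C.nxt c')) := by
        intro k
        exact hp (Or.inl (Ah.base _ _ (by rw [C.prv_nxt]; exact k)))
      push Not at key
      simp only [ψ, hp, hp', if_false]
      rw [abs_of_nonpos (by linarith [key.1]), abs_of_nonpos (by linarith [key.2])]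
      linarith
  le1 := by
    intro c c' _ _
    refine (C.ψ_le c c').trans (abs_le.2 ⟨?_, ?_⟩) <;>
      linarith [C.col0 c, C.col1 c, C.col0 c', C.col1 c']
  v2 := by
    intro c c' _ _ _ h
    by_cases hp : C.Pos c c'
    · simp [ψ, hp, C.pos_swap h hp]
    · have hp' : ¬ C.Pos c' c := fun k => hp (C.pos_swap (mul_eq_one_comm.1 h) k)
      simp [ψ, hp, hp']
  v3 := by
    intro c c' c'' _ _ _ _ _ _
    have a1 := C.ψ_le c c'
    have a2 := C.ψ_le c' c''
    have a3 := C.ψ_le c'' c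
    have := C.col0 c; have := C.col1 c; have := C.col0 c'; have := C.col1 c'
    have := C.col0 c''; have := C.col1 c''
    rcases abs_cases (C.col c - C.col c') with h1 | h1 <;>
      rcases abs_cases (C.col c' - C.col c'') with h2 | h2 <;>
      rcases abs_cases (C.col c'' - C.col c) with h3 | h3 <;> linarith [h1.1, h2.1, h3.1]

theorem freiheit (C : Col H Ω ρ) (hF : FP H) {b : Bool} {a : G} (ha : a ∈ H b)
    (hn : a ∈ Subgroup.normalClosure ({ρ} : Set G)) : a = 1 :=
  C.sys.freiheit hF ha hn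

end Col

end Pool.Agent.MP_a38735_al
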