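import Pool.Agent.MP_a38735_al.TB1

set_option autoImplicit false

namespace Pool.Agent.MP_a38735_al.WL.Tb

open Function

variable {β : Type*} {V : ℤ → β} {n l r k q d1 d2 d3 u v : ℤ} {P : ℤ → Prop} {d : ℤ → ℤ}

/-- equal windows of length `w` -/
def Eqw (V : ℤ → β) (s t w : ℤ) : Prop := ∀ τ, 0 ≤ τ → τ < w → V (s + τ) = V (t + τ)

/-- the structure of the word when the gap over the triangle `J, I` is tight -/
structure Str (V : ℤ → β) (w l r J I Y X : ℤ) : Prop where
  w1 : Eqw V (J - w) (I + 1) w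
  w2 : Eqw V (J - w) (r - w) w
  w3 : Eqw V (J - w) (l + 1 + (Y - X)) w
  w4 : Eqw V (J - w) (X - w) w
  w5 : Eqw V (J - w) (X + 1) w
  ct : ∀ ρ, 0 < ρ → ρ < Y - X → V (l + ρ) = V (X + ρ)
  yy : V J = V r
  pos : X < Y
  o1 : r = J ∨ r + (w + 1 - (J - I)) = J ∨ r + 2 * (w + 1 - (J - I)) ≤ J ∨
    J + (w + 1 - (J - I)) = r ∨ J + 2 * (w + 1 - (J - I)) ≤ r
  o2 : X = r ∨ l + 1 + (Y - X) ≤ X - w ∨ X + 1 ≤ r - w

theorem Str.mk' {Q : ℤ → Prop} {J I Y X g : ℤ}
    (win : ∀ x y, Q x → Q y → ∀ s, -u ≤ s → s < v → V (x + s) = V (y + s))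
    (H : g = u + v + 1 - (J - I) ∧ r - l = J - I + (Y - X) ∧ X < Y) (mg : ∀ x g', Adj Q x g' → g ≤ g')
    (a1 : Adj Q (J - v) g) (a2 : Adj Q (r - v) g) (a3 : Adj Q (X - v) (u + v + 1))
    (ct : ∀ ρ, 0 < ρ → ρ < Y - X → V (l + ρ) = V (X + ρ)) (yy : V J = V r) :
    Str V (u + v) l r J I Y X := by
  have e : ∀ x y s t, Q x → Q y → s = x - u → t = y - u → Eqw V s t (u + v) := by
    rintro x y _ _ hx hy rfl rfl τ h1 h2
    have := win x y hx hy (τ - u) (by omega) (by omega)
    rwa [show x + (τ - u) = x - u + τ by ring, show y + (τ - u) = y - u + τ by ring] at this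
  refine ⟨e _ _ _ _ a1.2.1 a1.2.2.1 (by omega) (by omega), e _ _ _ _ a1.2.1 a2.2.1 (by omega)
    (by omega), e _ _ _ _ a1.2.1 a2.2.2.1 (by omega) (by omega), e _ _ _ _ a1.2.1 a3.2.1 (by omega)
    (by omega), e _ _ _ _ a1.2.1 a3.2.2.1 (by omega) (by omega), ct, yy, H.2.2, ?_, ?_⟩
  · rcases lt_trichotomy r J with z | z | z
    · have := Adj.two mg a2 a1.2.1 (by omega); omega
    · exact Or.inl z
    · have := Adj.two mg a1 a2.2.1 (by omega); omega
  · have := a3.tri a2; omega

namespace Dy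

variable (tb : TB V n l r k q d1 d2 d3) (h : Dy n l r k q d1 d2 d3 u v P d)
include tb h

theorem go {c c' g D g' : ℤ} (hc : P c) (hc' : P c') (e : c' = c + g ∨ c' + n = c + g)
    (a : Adj (Lf n l P) c g) (eD : d c = D) (eg : g' = g + d c' - D) :
    Adj (Lf n l P) (c + D) g' ∧ ∃ e, P e ∧ Sp k q P e ∧
    Fst (fun t => red (l + 1) n (t + d t)) (Sp k q P) (red (l + 1) n (c + d c)) e ∧
    Adj (Lf n l P) e g' ∧ (∀ τ, -u ≤ τ → τ < g' + v → V (e + τ) = V (c + D + τ)) ∧
    ((l + 1 + u ≤ e ∧ e + v ≤ k ∧ d e = d1 ∧ k + 1 + u ≤ e + g') ∨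
      (k + 1 + u ≤ e ∧ e + v ≤ q ∧ d e = d2 ∧ q + 1 + u ≤ e + g') ∨
      (e = n + r - v ∧ n + l + 1 + u ≤ e + g')) := by
  subst eD
  exact ⟨h.stp tb hc hc' e a eg, h.walk tb (h.stp tb hc hc' e a eg)⟩

theorem dd : (P (k - v) → d (k - v) = d1) ∧ (P (q - v) → d (q - v) = d2) ∧ d (n + r - v) = d3 ∧
    (P (k + 1 + u) → d (k + 1 + u) = d2 ∧ k + 1 + u + v ≤ q) ∧
    (P (q + 1 + u) → d (q + 1 + u) = d3) ∧
    (P (l + 1 + u) → d (l + 1 + u) = d1 ∧ l + 1 + u + v ≤ k) := by
  have := tb.ord; have := h.uv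
  refine ⟨fun z => ?_, fun z => ?_, ?_, fun z => ?_, fun z => ?_, fun z => ?_⟩
  · have := h.rg _ z; unfold Rg at this; omega
  · have := h.rg _ z; unfold Rg at this; omega
  · have := h.rg _ h.R; unfold Rg at this; omega
  · have := h.rg _ z; unfold Rg at this; omega
  · have := h.rg _ z; unfold Rg at this; omega
  · have := h.rg _ z; unfold Rg at this; omega

theorem qR : q + 1 + u ≤ n + r - v := by
  have := tb.ord; have := h.uv; have := h.rg _ h.R
  unfold Rg at this; omega

theorem ad0 {c c' g : ℤ} (hc : P c) (hc' : P c')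
    (H : (c = k - v ∧ c' = k + 1 + u ∧ g = u + v + 1) ∨ (c = q - v ∧ c' = q + 1 + u ∧ g = u + v + 1) ∨
      (c = n + r - v ∧ c' = l + 1 + u ∧ g = u + v + 1 - (r - l))) : Adj (Lf n l P) c g := by
  have := tb.ord; have := h.uv
  refine h.adj tb hc hc' (by omega) (by omega) (fun y hy z => ?_) fun y hy => ?_
  · have := h.rg _ hy; unfold Rg at this; omega
  · have := h.rg _ hy; unfold Rg at this; omega

theorem spA (_ : P (k - v)) : Sp k q P (k - v) := fun y hy z => by
  have := tb.ord; have := h.uv; have := h.rg y hy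
  unfold Rg at this
  omega

theorem spB (_ : P (q - v)) : Sp k q P (q - v) := fun y hy z => by
  have := tb.ord; have := h.uv; have := h.rg y hy
  unfold Rg at this
  omega

theorem at' {c g y : ℤ} (hc : P c) (a : Adj (Lf n l P) c g) (e : c + g = y ∨ c + g = y + n)
    (b : l < y ∧ y < n + l + 1 + u) : P y := by
  have := tb.ord; have := h.uv
  obtain ⟨c', pc, ec⟩ := h.nxt tb hc a
  have := h.rg _ pc
  unfold Rg at this
  exact (show c' = y by omega) ▸ pc

theorem no3 (R : P (k - v) ∨ P (q - v)) : ¬ P (l + 1 + u) := fun L3 => by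
  have o := tb.ord; have uv := h.uv; have qR := h.qR tb
  obtain ⟨dA, dB, dC, eB, eC, eA⟩ := h.dd tb
  have eA := eA L3
  have z3 : V (n + r - v + d3 + v) = V (l + d1) := by
    rw [← tb.per (l + d1)]; congr 1; omega
  have a0 := h.ad0 tb h.R L3 (Or.inr (Or.inr ⟨rfl, rfl, rfl⟩))
  obtain ⟨-, e, pe, se, f1, a1, c1, ty⟩ := h.go tb h.R L3 (by omega) a0 dC
    (g' := u + v + 1) (by omega)
  have c1 := (c1 v (by omega) (by omega)).trans z3
  rcases ty with ty | ty | ty
  · obtain rfl : e = k - v := by omega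
    have L1 : P (k + 1 + u) := h.at' tb pe a1 (by omega) (by omega)
    have eB := eB L1
    obtain ⟨cB, pB, sB, b1, b2, b3⟩ := h.spx tb L1
    obtain ⟨-, e, pe', se', f2, a2, c2, ty'⟩ := h.go tb pe L1 (by omega) a1 ty.2.2.1
      (g' := u + v + 1 - (d1 - d2)) (by omega)
    rcases ty' with ty' | ty' | ty'
    · obtain rfl : e = k - v := by omega
      have := h.cl2 pe f2 f2 h.R (h.spR tb)
      omega
    · obtain rfl : e = q - v := by omega
      have L2 : P (q + 1 + u) := h.at' tb pe' a2 (by omega) (by omega)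
      have eC := eC L2
      obtain ⟨-, e, pe'', se'', f3, a3, c3, ty''⟩ := h.go tb pe' L2 (by omega) a2 ty'.2.2.1
        (g' := u + v + 1 - (r - l)) (by omega)
      rcases ty'' with ty'' | ty'' | ty''
      · obtain rfl : e = k - v := by omega
        have := h.cl2 pe f2 f3 h.R (h.spR tb)
        omega
      · obtain rfl : e = q - v := by omega
        have := h.cl2 pe' f3 f3 h.R (h.spR tb)
        omega
      · obtain rfl := ty''.1
        have y1 := c2 v (by omega) (by omega)
        have y2 := c3 v (by omega) (by omega)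
        have x2 := c3 (u + v - (r - l) - u) (by omega) (by omega)
        rw [show q - v + v = q by ring, show k - v + d1 + v = k + d1 by ring] at y1
        rw [show n + r - v + v = r + n by ring, tb.per, show q - v + d2 + v = q + d2 by ring] at y2
        rw [show n + r - v + (u + v - (r - l) - u) = l + n by ring, tb.per,
          show q - v + d2 + (u + v - (r - l) - u) = q + d3 by omega] at x2
        rw [show k - v + v = k by ring] at c1
        exact tb.r1 (by rw [← y1, tb.t2 y2.symm x2.symm, c1])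
    · obtain rfl := ty'.1
      have := h.cl2 h.R f1 f2 pB sB
      omega
  · obtain rfl : e = q - v := by omega
    have L2 : P (q + 1 + u) := h.at' tb pe a1 (by omega) (by omega)
    have eC := eC L2
    obtain ⟨cA, pA, sA, b1, b2, b3⟩ := h.spx tb L3
    obtain ⟨-, e, pe', se', f2, a2, c2, ty'⟩ := h.go tb pe L2 (by omega) a1 ty.2.2.1
      (g' := u + v + 1 - (d2 - d3)) (by omega)
    rcases ty' with ty' | ty' | ty'
    · obtain rfl : e = k - v := by omega
      have L1 : P (k + 1 + u) := h.at' tb pe' a2 (by omega) (by omega)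
      have eB := eB L1
      obtain ⟨-, e, pe'', se'', f3, a3, c3, ty''⟩ := h.go tb pe' L1 (by omega) a2 ty'.2.2.1
        (g' := u + v + 1 - (r - l)) (by omega)
      rcases ty'' with ty'' | ty'' | ty''
      · obtain rfl : e = k - v := by omega
        have := h.cl2 pe' f3 f3 h.R (h.spR tb)
        omega
      · obtain rfl : e = q - v := by omega
        have := h.cl2 pe f2 f3 h.R (h.spR tb)
        omega
      · obtain rfl := ty''.1
        have y2 := c2 v (by omega) (by omega)
        have y1 := c3 v (by omega) (by omega)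
        have x1 := c3 (u + v - (r - l) - u) (by omega) (by omega)
        rw [show k - v + v = k by ring, show q - v + d2 + v = q + d2 by ring] at y2
        rw [show n + r - v + v = r + n by ring, tb.per, show k - v + d1 + v = k + d1 by ring] at y1
        rw [show n + r - v + (u + v - (r - l) - u) = l + n by ring, tb.per,
          show k - v + d1 + (u + v - (r - l) - u) = k + d2 by omega] at x1
        rw [show q - v + v = q by ring] at c1
        exact tb.r2 (by rw [← y2, tb.t1 y1.symm x1.symm, c1])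
    · obtain rfl : e = q - v := by omega
      have := h.cl2 pe f2 f2 h.R (h.spR tb)
      omega
    · obtain rfl := ty'.1
      have := h.cl2 h.R f1 f2 pA sA
      omega
  · obtain rfl := ty.1
    rcases R with R | R
    · have := h.cl2 h.R f1 f1 R (h.spA tb R); omega
    · have := h.cl2 h.R f1 f1 R (h.spB tb R); omega

theorem caseA
    (win : ∀ x y, Lf n l P x → Lf n l P y → ∀ s, -u ≤ s → s < v → V (x + s) = V (y + s))
    (R1 : P (k - v)) (L1 : P (k + 1 + u)) (L2 : P (q + 1 + u)) (L3 : ¬ P (l + 1 + u)) :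
    Str V (u + v) l r (k + d1) (k + d2) (q + d2) (q + d3) ∧ k < q - (u + v) - (d2 - d3) := by
  have o := tb.ord; have uv := h.uv; have qR := h.qR tb
  obtain ⟨dA, dB, dC, eB, eC, -⟩ := h.dd tb
  have dA := dA R1
  have eB := eB L1
  have eC := eC L2
  have a1 := h.ad0 tb R1 L1 (Or.inl ⟨rfl, rfl, rfl⟩)
  obtain ⟨cB, pB, sB, b1, b2, b3⟩ := h.spx tb L1
  obtain ⟨i1, e, pe, se, f1, a2, c1, ty⟩ := h.go tb R1 L1 (by omega) a1 dA
    (g' := u + v + 1 - (d1 - d2)) (by omega)
  rcases ty with ty | ty | ty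
  · obtain rfl : e = k - v := by omega
    have := h.cl2 pe f1 f1 h.R (h.spR tb)
    omega
  · obtain rfl : e = q - v := by omega
    obtain ⟨-, e, pe', se', f2, a3, c2, ty'⟩ := h.go tb pe L2 (by omega) a2 ty.2.2.1
      (g' := u + v + 1 - (r - l)) (by omega)
    rcases ty' with ty' | ty' | ty'
    · obtain rfl : e = k - v := by omega
      have := h.cl2 R1 f1 f2 h.R (h.spR tb)
      omega
    · obtain rfl : e = q - v := by omega
      have := h.cl2 pe f2 f2 h.R (h.spR tb)
      omega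
    · obtain rfl := ty'.1
      exact (L3 (h.at' tb pe' a3 (by omega) (by omega))).elim
  · obtain rfl := ty.1
    have pN : P (l + 1 + u + (d2 - d3)) := h.at' tb pe a2 (by omega) (by omega)
    have rN := h.rg _ pN
    have := a1.2.2.2 _ (h.lf tb pN)
    have : d2 ≠ d3 := fun z => L3 (by rwa [z, sub_self, add_zero] at pN)
    have dN : d (l + 1 + u + (d2 - d3)) = d1 ∧ l + 1 + u + (d2 - d3) + v ≤ k := by
      unfold Rg at rN; omega
    obtain ⟨-, e, pe', se', f2, a3, c2, ty'⟩ := h.go tb pe pN (by omega) a2 dC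
      (g' := u + v + 1 + (d2 - d3)) (by omega)
    rcases ty' with ty' | ty' | ty'
    · have := se' _ R1
      obtain rfl : e = k - v := by omega
      have := h.cl2 R1 f1 f2 pB sB
      omega
    · have := a3.2.2.2 _ (h.lf tb L2) (by omega)
      obtain rfl : e = q - v - (d2 - d3) := by omega
      have i3 := h.stp tb pe' L2 (by omega) a3 (g' := u + v + 1) (by omega)
      refine ⟨Str.mk' win (g := u + v + 1 - (d1 - d2)) (by omega)
        (h.mg tb R1 (h.spA tb R1) a1 pe' se' a3 a2 (by omega))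
        (by rwa [show k + d1 - v = k - v + d1 by ring])
        (by have := a2.mul (-1); rwa [show n + r - v + -1 * n = r - v by ring] at this)
        (by rwa [show q + d3 - v = q - v - (d2 - d3) + d (q - v - (d2 - d3)) by omega])
        (fun ρ h1 h2 => ?_) ?_, by omega⟩
      · have := c2 (v + ρ) (by omega) (by omega)
        rw [← tb.A _ (by omega) (by omega), ← tb.per, show l + ρ + d1 + n = n + r - v + d3 + (v + ρ)
          by omega, ← this, ← tb.B _ (by omega) (by omega)]
        congr 1; ring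
      · have := c1 v (by omega) (by omega)
        rw [show n + r - v + v = r + n by ring, tb.per, show k - v + d1 + v = k + d1 by ring] at this
        exact this.symm
    · obtain rfl := ty'.1
      have := h.cl2 h.R f2 f2 R1 (h.spA tb R1)
      omega

theorem caseG
    (win : ∀ x y, Lf n l P x → Lf n l P y → ∀ s, -u ≤ s → s < v → V (x + s) = V (y + s))
    (R1 : ¬ P (k - v)) (R2 : P (q - v)) (L1 : P (k + 1 + u)) (L2 : P (q + 1 + u)) :
    Str V (u + v) l r (q + d2) (q + d3) (k + d1) (k + d2) ∧ k < q - (u + v) := by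
  have o := tb.ord; have uv := h.uv; have qR := h.qR tb
  obtain ⟨-, dB, dC, eB, eC, -⟩ := h.dd tb
  have dB := dB R2
  have eB := eB L1
  have eC := eC L2
  have a1 := h.ad0 tb R2 L2 (Or.inr (Or.inl ⟨rfl, rfl, rfl⟩))
  obtain ⟨i1, e, pe, se, f1, a2, c1, ty⟩ := h.go tb R2 L2 (by omega) a1 dB
    (g' := u + v + 1 - (d2 - d3)) (by omega)
  rcases ty with ty | ty | ty
  · obtain rfl : e = k - v := by omega
    exact (R1 pe).elim
  · obtain rfl : e = q - v := by omega
    have := h.cl2 pe f1 f1 h.R (h.spR tb)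
    omega
  · obtain rfl := ty.1
    have pN : P (l + 1 + u + (d1 - d2)) := h.at' tb pe a2 (by omega) (by omega)
    have rN := h.rg _ pN
    have dN : d (l + 1 + u + (d1 - d2)) = d1 ∧ l + 1 + u + (d1 - d2) + v ≤ k := by
      unfold Rg at rN; omega
    obtain ⟨cA, pA, sA, b1, b2, b3⟩ := h.spx tb pN
    obtain ⟨-, e, pe', se', f2, a3, c2, ty'⟩ := h.go tb pe pN (by omega) a2 dC
      (g' := u + v + 1 + (d1 - d2)) (by omega)
    rcases ty' with ty' | ty' | ty'
    · have := a3.2.2.2 _ (h.lf tb L1) (by omega)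
      obtain rfl : e = k - v - (d1 - d2) := by omega
      have : d1 ≠ d2 := fun z => R1 (by rwa [z, sub_self, sub_zero] at pe')
      have i3 := h.stp tb pe' L1 (by omega) a3 (g' := u + v + 1) (by omega)
      refine ⟨Str.mk' win (g := u + v + 1 - (d2 - d3)) (by omega)
        (h.mg tb pe' se' a3 R2 (h.spB tb R2) a1 a2 (by omega))
        (by rwa [show q + d2 - v = q - v + d2 by ring])
        (by have := a2.mul (-1); rwa [show n + r - v + -1 * n = r - v by ring] at this)
        (by rwa [show k + d2 - v = k - v - (d1 - d2) + d (k - v - (d1 - d2)) by omega])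
        (fun ρ h1 h2 => ?_) ?_, by omega⟩
      · have := c2 (v + ρ) (by omega) (by omega)
        rw [← tb.A _ (by omega) (by omega), ← tb.per, show l + ρ + d1 + n = n + r - v + d3 + (v + ρ)
          by omega, ← this, ← tb.A _ (by omega) (by omega)]
        congr 1; ring
      · have := c1 v (by omega) (by omega)
        rw [show n + r - v + v = r + n by ring, tb.per, show q - v + d2 + v = q + d2 by ring] at this
        exact this.symm
    · have := se' _ R2
      obtain rfl : e = q - v := by omega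
      have := h.cl2 R2 f1 f2 pA sA
      omega
    · obtain rfl := ty'.1
      have := h.cl2 h.R f2 f2 R2 (h.spB tb R2)
      omega

end Dy

/-- structure theorem for three bands -/
theorem TB.main (tb : TB V n l r k q d1 d2 d3) : (V (q + d2) = V k ∧ V (k + d1) = V q) ∨
    ((V (q + d3) = V k ∧ V (k + d2) = V q) ∧ ∃ w, (w % 2 = 1 ∧ (q - k) % 2 = 0 ∧ r - l < w) ∧
      ((Str V w l r (k + d1) (k + d2) (q + d2) (q + d3) ∧ k < q - w - (d2 - d3)) ∨
        (Str V w l r (q + d2) (q + d3) (k + d1) (k + d2) ∧ k < q - w))) := by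
  have o := tb.ord
  have ev := tb.ev
  obtain ⟨a, ha⟩ : ∃ a : ℤ → ℤ, ∀ t, a t = if t ≤ k then l + 1 else if t ≤ q then k + 1 else q + 1 :=
    ⟨_, fun _ => rfl⟩
  obtain ⟨b, hb⟩ : ∃ b : ℤ → ℤ, ∀ t, b t = if t ≤ k then k else if t ≤ q then q else n + r :=
    ⟨_, fun _ => rfl⟩
  obtain ⟨d, hd⟩ : ∃ d : ℤ → ℤ, ∀ t, d t = if t ≤ k then d1 else if t ≤ q then d2 else d3 :=
    ⟨_, fun _ => rfl⟩
  obtain ⟨u, v, P, u0, v0, rg, win, ⟨t0, p0⟩, hR, hL, cl, con⟩ :=
    orbit2 (l + 1) (by omega) ev.1 tb.per a b d (fun t h1 h2 => by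
      rw [ha, hb, hd]
      split_ifs
      · exact ⟨by omega, by omega, by omega, fun s h3 h4 => tb.A s h3 h4⟩
      · exact ⟨by omega, by omega, by omega, fun s h3 h4 => tb.B s h3 h4⟩
      · exact ⟨by omega, by omega, by omega, fun s h3 h4 => tb.C s h3 h4⟩)
  have ty : ∀ t, P t → (t - (l + 1)) % 2 = 0 ∧
      ((l + 1 + u ≤ t ∧ t + v ≤ k ∧ d t = d1 ∧ a t = l + 1 ∧ b t = k) ∨
      (k + 1 + u ≤ t ∧ t + v ≤ q ∧ d t = d2 ∧ a t = k + 1 ∧ b t = q) ∨
      (q + 1 + u ≤ t ∧ t + v ≤ n + r ∧ t ≤ n + l ∧ d t = d3 ∧ a t = q + 1 ∧ b t = n + r)) :=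
    fun t ht => by
      have := rg t ht
      rw [ha, hb] at this
      rw [ha, hb, hd]
      split_ifs at this ⊢ <;> omega
  have hR' : ∀ t x, P t → t + d t + v = x → (P (k - v) ∧ V x = V k) ∨ (P (q - v) ∧ V x = V q) ∨
      (P (n + r - v) ∧ V x = V r) := by
    rintro t _ ht rfl
    obtain ⟨t', p', e1, e2⟩ := hR t ht
    have := ty t' p'
    have : t' = k - v ∨ t' = q - v ∨ t' = n + r - v := by omega
    rcases this with rfl | rfl | rfl <;> rw [sub_add_cancel] at e2
    · exact Or.inl ⟨p', e2⟩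
    · exact Or.inr (Or.inl ⟨p', e2⟩)
    · exact Or.inr (Or.inr ⟨p', by rw [e2, add_comm, tb.per]⟩)
  have hL' : ∀ t x, P t → t + d t - u - 1 = x → (P (k + 1 + u) ∧ V x = V k) ∨
      (P (q + 1 + u) ∧ V x = V q) ∨ (P (l + 1 + u) ∧ V x = V l) := by
    rintro t _ ht rfl
    obtain ⟨t', p', e1, e2⟩ := hL t ht
    have := ty t' p'
    have : t' = k + 1 + u ∨ t' = q + 1 + u ∨ t' = l + 1 + u := by omega
    rcases this with rfl | rfl | rfl
    · exact Or.inl ⟨p', e2.trans (by congr 1; ring)⟩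
    · exact Or.inr (Or.inl ⟨p', e2.trans (by congr 1; ring)⟩)
    · exact Or.inr (Or.inr ⟨p', e2.trans (by congr 1; ring)⟩)
  by_cases R3 : P (n + r - v)
  · have t3 := ty _ R3
    have h : Dy n l r k q d1 d2 d3 u v P d := ⟨by omega, fun t ht => by
      have := ty t ht; unfold Rg; omega, cl, con, R3⟩
    have R : P (k - v) ∨ P (q - v) := by
      rcases hR' _ (l + d1 + n) R3 (by omega) with z | z | z
      exacts [Or.inl z.1, Or.inr z.1, (tb.r3 (by rw [← z.2, tb.per])).elim]
    have L3 := h.no3 tb R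
    have s1 : P (k + 1 + u) → P (q + 1 + u) ∧ V (k + d2) = V q := fun z => by
      have := ty _ z
      rcases hL' _ (k + d2) z (by omega) with z | z | z
      exacts [(tb.l1 z.2).elim, z, (L3 z.1).elim]
    have s2 : P (q + 1 + u) → P (k + 1 + u) ∧ V (q + d3) = V k := fun z => by
      have := ty _ z
      rcases hL' _ (q + d3) z (by omega) with z | z | z
      exacts [z, (tb.l2 z.2).elim, (L3 z.1).elim]
    have L1 : P (k + 1 + u) := by
      rcases hL' _ _ p0 rfl with z | z | z
      exacts [z.1, (s2 z.1).1, (L3 z.1).elim]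
    have L2 := (s1 L1).1
    have win' : ∀ x y, Lf n l P x → Lf n l P y → ∀ s, -u ≤ s → s < v → V (x + s) = V (y + s) :=
      fun x y hx hy s h1 h2 => by
        obtain ⟨-, -, a, ea⟩ := red_sp (lo := l + 1) (n := n) (by omega) x
        obtain ⟨-, -, b, eb⟩ := red_sp (lo := l + 1) (n := n) (by omega) y
        have := win _ _ hx hy s h1 h2
        rwa [ea, eb, add_right_comm, perM tb.per, add_right_comm, perM tb.per] at this
    have t1 := (ty _ L1).1
    have t2 := (ty _ L2).1
    have par : (u + v) % 2 = 1 := by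
      rcases R with z | z <;> have := (ty _ z).1 <;> omega
    refine Or.inr ⟨⟨(s2 L2).2, (s1 L1).2⟩, u + v, by omega, ?_⟩
    by_cases R1 : P (k - v)
    · exact Or.inl (h.caseA tb win' R1 L1 L2 L3)
    · exact Or.inr (h.caseG tb win' R1 (R.resolve_left R1) L1 L2)
  · have s1 : P (k - v) → P (q - v) ∧ V (k + d1) = V q := fun z => by
      have := ty _ z
      rcases hR' _ (k + d1) z (by omega) with z | z | z
      exacts [(tb.r1 z.2).elim, z, (R3 z.1).elim]
    have s2 : P (q - v) → P (k - v) ∧ V (q + d2) = V k := fun z => by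
      have := ty _ z
      rcases hR' _ (q + d2) z (by omega) with z | z | z
      exacts [z, (tb.r2 z.2).elim, (R3 z.1).elim]
    have R1 : P (k - v) := by
      rcases hR' _ _ p0 rfl with z | z | z
      exacts [z.1, (s2 z.1).1, (R3 z.1).elim]
    exact Or.inl ⟨(s2 (s1 R1).1).2, (s1 R1).2⟩

theorem TB.main' (tb : TB V n l r k q d1 d2 d3) {J I Y X : ℤ}
    (e : J = k + d1 ∧ I = k + d2 ∧ Y = q + d2 ∧ X = q + d3) : (V Y = V k ∧ V J = V q) ∨
    ((V X = V k ∧ V I = V q) ∧ ∃ w, (w % 2 = 1 ∧ (q - k) % 2 = 0 ∧ r - l < w) ∧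
      ((Str V w l r J I Y X ∧ k < q - w - (Y - X)) ∨ (Str V w l r Y X J I ∧ k < q - w))) := by
  obtain ⟨rfl, rfl, rfl, rfl⟩ := e
  simpa only [add_sub_add_left_eq_sub] using tb.main

theorem Eqw.rf (s w : ℤ) : Eqw V s s w := fun _ _ _ => rfl

theorem Eqw.eq {o s t w : ℤ} (h1 : Eqw V o s w) (h2 : Eqw V o t w) (a b : ℤ)
    (e : s ≤ a ∧ a < s + w ∧ b = a + (t - s)) : V b = V a := by
  have e1 := h1 (a - s) (by omega) (by omega)
  have e2 := h2 (a - s) (by omega) (by omega)
  rw [add_sub_cancel] at e1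
  rw [← e1, e2, e.2.2]; congr 1; ring

theorem Eqw.ng {o s t w : ℤ} (h1 : Eqw (fun t => V (-t)) o s w) (h2 : Eqw (fun t => V (-t)) o t w)
    (a b : ℤ) (e : s ≤ -a ∧ -a < s + w ∧ -b = -a + (t - s)) : V b = V a := by
  simpa only [neg_neg] using h1.eq h2 (-a) (-b) e

end Pool.Agent.MP_a38735_al.WL.Tb
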