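import Pool.Agent.MP_a38735_al.WL
import Mathlib.Data.Int.Init
import Mathlib.Data.Nat.Find
import Mathlib.Algebra.Order.Group.Int
import Mathlib.Algebra.Group.Int.Defs

set_option autoImplicit false

namespace Pool.Agent.MP_a38735_al.WL

variable {G : Type*} [Group G] {W : ℤ → G}

theorem perM {α : Type*} {f : ℤ → α} {n : ℤ} (per : ∀ t, f (t + n) = f t) (m x : ℤ) :
    f (x + m * n) = f x := by
  induction m using Int.induction_on with
  | zero => simp
  | succ k ih => rw [show x + ((k : ℤ) + 1) * n = x + k * n + n by ring, per, ih]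
  | pred k ih => rw [← per, show x + (-(k : ℤ) - 1) * n + n = x + -k * n by ring, ih]

theorem pe {n : ℤ} (per : ∀ t, W (t + n) = W t) (m : ℤ) {x y : ℤ} (e : y = x + m * n) :
    W y = W x := e ▸ perM per m x

theorem Par.f {a b g n : ℤ} (h : Par W a b g) (per : ∀ t, W (t + n) = W t) (m x : ℤ)
    (h1 : a + m * n ≤ x) (h2 : x < b + m * n) : W (x + g) = W x := by
  rw [pe per m (x := x - m * n + g) (by ring), h _ (by omega) (by omega)]
  exact (pe per m (by ring)).symm

theorem Par.r {a b g n : ℤ} (h : Par W a b g) (per : ∀ t, W (t + n) = W t) (m x : ℤ)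
    (h1 : a + g + m * n ≤ x) (h2 : x < b + g + m * n) : W (x - g) = W x := by
  rw [← h.f per m (x - g) (by omega) (by omega), sub_add_cancel]

theorem Ant.f {a b c n : ℤ} (h : Ant W a b c) (per : ∀ t, W (t + n) = W t) (m x : ℤ)
    (h1 : a + m * n ≤ x) (h2 : x < b + m * n) : W (c - x + m * n) = (W x)⁻¹ := by
  rw [show c - x + m * n = c - (x - m * n) by ring, h _ (by omega) (by omega)]
  exact congrArg _ (pe per m (by ring)).symm

theorem Ant.r {a b c n : ℤ} (h : Ant W a b c) (per : ∀ t, W (t + n) = W t) (m x : ℤ)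
    (h1 : c - b + 1 + m * n ≤ x) (h2 : x < c - a + 1 + m * n) : W (c - x + m * n) = (W x)⁻¹ := by
  have := h (c - x + m * n) (by omega) (by omega)
  rw [pe per m (x := c - (c - x + m * n)) (y := x) (by ring), this, inv_inv]

theorem ie {x y z : G} (h1 : x = y⁻¹) (h2 : y = z) : x = z⁻¹ := h2 ▸ h1

theorem ii {x y z : G} (h1 : x = y⁻¹) (h2 : y = z⁻¹) : x = z := by rw [h1, h2, inv_inv]

theorem Par.mn {a b g a' b' : ℤ} (h : Par W a b g) (h1 : a ≤ a') (h2 : b' ≤ b) :
    Par W a' b' g := fun t u v => h t (by omega) (by omega)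

theorem Ant.mn {a b g a' b' : ℤ} (h : Ant W a b g) (h1 : a ≤ a') (h2 : b' ≤ b) :
    Ant W a' b' g := fun t u v => h t (by omega) (by omega)

theorem Par.mul {A B g : ℤ} (run : Par W A B g) (hg : 0 < g) (k : ℕ) (x : ℤ) (h1 : A ≤ x)
    (h2 : x + k * g < B + g) : W (x + k * g) = W x := by
  induction k with
  | zero => simp
  | succ k ih =>
    have e : ((k + 1 : ℕ) : ℤ) * g = k * g + g := by push_cast; ring
    have p : 0 ≤ (k : ℤ) * g := by positivity
    rw [e] at h2 ⊢
    rw [← add_assoc, run _ (by omega) (by omega), ih (by omega)]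

theorem Par.eq {A B g : ℤ} (run : Par W A B g) (hg : 0 < g) (m : ℤ) {x y : ℤ} (h1 : A ≤ x)
    (h2 : x < B + g) (h3 : A ≤ y) (h4 : y < B + g) (e : y = x + m * g) : W y = W x := by
  obtain ⟨k, rfl | rfl⟩ := Int.eq_nat_or_neg m
  · subst e; exact run.mul hg k x h1 h4
  · have : x = y + k * g := by rw [e]; ring
    subst this; exact (run.mul hg k y h3 h2).symm

theorem rp (ninv : ∀ t, W t ≠ (W t)⁻¹) (A B g g' lo c : ℤ) (run : Par W A B g)
    (h : g = 2 * g' ∧ 0 < g' ∧ c % 2 = 0 ∧ A ≤ lo ∧ lo + g' ≤ B + g ∧ A ≤ c - lo - g' + 1 ∧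
      c - lo < B + g) (an : Ant W lo (lo + g') c) : False := by
  obtain ⟨rfl, hg, hc, h1, h2, h3, h4⟩ := h
  obtain ⟨c, rfl⟩ : ∃ d, c = 2 * d := ⟨c / 2, by omega⟩
  have e := Int.mul_ediv_add_emod (c - lo) g'
  have l1 := Int.emod_nonneg (c - lo) hg.ne'
  have l2 := Int.emod_lt_of_pos (c - lo) hg
  generalize (c - lo) % g' = r at e l1 l2
  generalize (c - lo) / g' = q at e
  refine ninv (lo + r) ?_
  rw [← an (lo + r) (by omega) (by omega)]
  exact (run.eq (by omega) q (by omega) (by omega) (by omega) (by omega) (by linarith)).symm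

theorem jump (A B g dl : ℤ) (run : Par W A B g) (h : g % 2 = 0 ∧ 0 < g ∧ 0 ≤ dl) :
    ∃ S, dl - g < 2 * S ∧ 2 * S ≤ dl ∧ Par W A (B + g - 2 * S) (2 * S) := by
  obtain ⟨h1, hg, h2⟩ := h
  obtain ⟨g, rfl⟩ : ∃ d, g = 2 * d := ⟨g / 2, by omega⟩
  have e := Int.mul_ediv_add_emod dl (2 * g)
  have l1 := Int.emod_nonneg dl hg.ne'
  have l2 := Int.emod_lt_of_pos dl hg
  have l3 := Int.ediv_nonneg h2 hg.le
  generalize dl % (2 * g) = r at e l1 l2
  generalize dl / (2 * g) = q at e l3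
  have p : 0 ≤ q * g := by have : 0 < g := by omega
                           positivity
  refine ⟨q * g, by linarith, by linarith, fun t u v => ?_⟩
  exact run.eq hg q u (by omega) (by omega) (by omega) (by ring)

/-- a rotation that moves letters to equal letters outside an interval `[b, b + k)` of residues:
two points of the interval lie in one orbit -/
theorem rot_gap {P : ℤ → G} {g b k s x : ℤ} (hg : 0 < g) (per : ∀ t, P (t + g) = P t)
    (rel : ∀ t, k ≤ (t - b) % g → P (t + s) = P t) (ne : P (x + s) ≠ P x) :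
    ∃ (i : ℕ) (d m : ℤ), d ≠ 0 ∧ -k < d ∧ d < k ∧ i * s = d + m * g := by
  have hx : (x - b) % g < k := lt_of_not_ge fun h => ne (rel x h)
  by_contra hn
  have key : ∀ i : ℕ, P (x + (i + 1) * s) = P (x + s) ∨ P (x + s) = P x := by
    intro i
    induction i with
    | zero => simp
    | succ i ih =>
      refine ih.elim (fun ih => ?_) Or.inr
      by_cases h : k ≤ (x + (i + 1) * s - b) % g
      · left
        rw [← ih, ← rel _ h]
        congr 1; push_cast; ring
      · right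
        have e1 := Int.mul_ediv_add_emod (x + (i + 1) * s - b) g
        have e2 := Int.mul_ediv_add_emod (x - b) g
        have l1 := Int.emod_nonneg (x + (i + 1) * s - b) hg.ne'
        have l2 := Int.emod_nonneg (x - b) hg.ne'
        generalize (x + (i + 1) * s - b) % g = r1 at *
        generalize (x - b) % g = r2 at *
        generalize (x + (i + 1) * s - b) / g = q1 at *
        generalize (x - b) / g = q2 at *
        by_cases hd : r1 = r2
        · rw [← ih, show x + (i + 1) * s = x + (q1 - q2) * g by linarith, perM per]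
        · exact absurd ⟨i + 1, r1 - r2, q1 - q2, by omega, by omega, by omega,
            by push_cast; linarith⟩ hn
  obtain ⟨i, hi⟩ : ∃ i : ℕ, (i : ℤ) + 1 = g := ⟨(g - 1).toNat, by omega⟩
  rcases key i with h | h
  · rw [hi, mul_comm, perM per] at h
    exact ne h.symm
  · exact ne h

theorem rot_hit {g b k s d m : ℤ} {i : ℕ} (hg : 0 < g) (hk : k ≤ g) (d0 : d ≠ 0) (d1 : -k < d)
    (d2 : d < k) (e : i * s = d + m * g) (t : ℤ) : ∃ j : ℕ, (t + j * s - b) % g < k := by
  have aux : ∀ (z : ℕ) (r : ℤ), 0 ≤ r → r < k → (∃ u, t + z * d - b = r + u * g) →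
      ∃ j : ℕ, (t + j * s - b) % g < k := by
    rintro z r r0 r1 ⟨u, hu⟩
    refine ⟨z * i, ?_⟩
    have : t + ((z * i : ℕ) : ℤ) * s - b = r + g * (u + z * m) := by
      push_cast; rw [mul_assoc, e]; linarith
    rw [this, Int.add_mul_emod_self_left, Int.emod_eq_of_lt r0 (by omega)]
    exact r1
  have e1 := Int.mul_ediv_add_emod (t - b) g
  have l1 := Int.emod_nonneg (t - b) hg.ne'
  have l2 := Int.emod_lt_of_pos (t - b) hg
  generalize (t - b) % g = r at *
  generalize (t - b) / g = q at *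
  rcases lt_or_gt_of_ne d0 with h | h
  · have e2 := Int.mul_ediv_add_emod r (-d)
    have l3 := Int.emod_nonneg r (by omega : -d ≠ 0)
    have l4 := Int.emod_lt_of_pos r (by omega : 0 < -d)
    obtain ⟨z, hz⟩ := Int.eq_ofNat_of_zero_le (Int.ediv_nonneg l1 (by omega : 0 ≤ -d))
    rw [hz] at e2
    exact aux z (r % -d) l3 (by omega) ⟨q, by linarith⟩
  · have e2 := Int.mul_ediv_add_emod (g - r + d - 1) d
    have l3 := Int.emod_nonneg (g - r + d - 1) h.ne'
    have l4 := Int.emod_lt_of_pos (g - r + d - 1) h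
    obtain ⟨z, hz⟩ := Int.eq_ofNat_of_zero_le
      (Int.ediv_nonneg (by omega : 0 ≤ g - r + d - 1) h.le)
    rw [hz] at e2
    exact aux z (d - 1 - (g - r + d - 1) % d) (by omega) (by omega) ⟨q + 1, by linarith⟩

theorem emod_succ {g : ℤ} (hg : 0 < g) (t : ℤ) :
    (t + 1) % g = t % g + 1 ∨ ((t + 1) % g = 0 ∧ t % g = g - 1) := by
  have e1 := Int.mul_ediv_add_emod t g
  have l1 := Int.emod_nonneg t hg.ne'
  have l2 := Int.emod_lt_of_pos t hg
  by_cases h : t % g = g - 1
  · right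
    refine ⟨?_, h⟩
    rw [show t + 1 = 0 + g * (t / g + 1) by linarith, Int.add_mul_emod_self_left]; simp
  · left
    rw [show t + 1 = (t % g + 1) + g * (t / g) by linarith, Int.add_mul_emod_self_left]
    exact Int.emod_eq_of_lt (by omega) (by omega)

theorem rot_core {P : ℤ → G} {g b k s x c : ℤ} (hg : 0 < g) (hk : k ≤ g) (g2 : g % 2 = 0)
    (s2 : s % 2 = 0) (c2 : c % 2 = 0) (per : ∀ t, P (t + g) = P t)
    (rel : ∀ t, k ≤ (t - b) % g → P (t + s) = P t) (ne : P (x + s) ≠ P x)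
    (ninv : 3 ≤ k → ∀ t, P t ≠ (P t)⁻¹)
    (an : ∀ t, b < t → t < b + k - 1 → P (c - t) = (P t)⁻¹) : False := by
  obtain ⟨i, d, m, d0, d1, d2, e⟩ := rot_gap hg per rel ne
  have k3 : 3 ≤ k := by
    obtain ⟨g, rfl⟩ : ∃ u, g = 2 * u := ⟨g / 2, by omega⟩
    obtain ⟨s, rfl⟩ : ∃ u, s = 2 * u := ⟨s / 2, by omega⟩
    have : d = 2 * (i * s - m * g) := by linarith
    omega
  have hit := rot_hit (b := b) hg hk d0 d1 d2 e
  obtain ⟨f, f1, f2⟩ : ∃ f : ℤ → ℕ, (∀ t, (t + f t * s - b) % g < k) ∧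
      ∀ t, ∀ j < f t, k ≤ (t + j * s - b) % g := by
    classical
    exact ⟨fun t => Nat.find (hit t), fun t => Nat.find_spec (hit t),
      fun t j hj => le_of_not_gt (Nat.find_min (hit t) hj)⟩
  have same : ∀ t, ∀ j ≤ f t, P (t + j * s) = P t := by
    intro t j
    induction j with
    | zero => simp
    | succ j ih =>
      intro hj
      rw [← ih (by omega), ← rel _ (f2 t j (by omega))]
      congr 1; push_cast; ring
  obtain ⟨κ, hκ⟩ : ∃ κ : ℤ → ℤ, ∀ t, κ t = (t + f t * s - b) % g := ⟨_, fun _ => rfl⟩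
  have κ0 : ∀ t, 0 ≤ κ t := fun t => hκ t ▸ Int.emod_nonneg _ hg.ne'
  have κ1 : ∀ t, κ t < k := fun t => hκ t ▸ f1 t
  have κe : ∀ t, P (b + κ t) = P t ∧ (b + κ t - t) % 2 = 0 := by
    intro t
    have e1 := Int.mul_ediv_add_emod (t + f t * s - b) g
    rw [← hκ] at e1
    generalize (t + f t * s - b) / g = q at e1
    constructor
    · rw [← same t _ le_rfl, show t + f t * s = b + κ t + q * g by linarith, perM per]
    · obtain ⟨g, rfl⟩ : ∃ u, g = 2 * u := ⟨g / 2, by omega⟩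
      obtain ⟨s, rfl⟩ : ∃ u, s = 2 * u := ⟨s / 2, by omega⟩
      have : b + κ t - t = 2 * (f t * s - g * q) := by linarith
      omega
  have κm : ∀ t, κ (t + 1) ≤ κ t + 1 := by
    intro t
    have sh : ∀ j : ℕ, t + 1 + j * s - b = t + j * s - b + 1 := fun j => by ring
    have a0 := κ0 t
    have a1 := κ1 t
    have a2 := κ1 (t + 1)
    rcases lt_trichotomy (f t) (f (t + 1)) with h | h | h
    · have u := f2 _ _ h
      rw [sh] at u
      have v := emod_succ hg (t + f t * s - b)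
      rw [← hκ] at v
      omega
    · have v := emod_succ hg (t + f t * s - b)
      rw [← hκ, ← sh, h, ← hκ] at v
      omega
    · have u := f2 _ _ h
      have v := emod_succ hg (t + f (t + 1) * s - b)
      rw [← sh, ← hκ] at v
      omega
  have key : ∀ u : ℕ, (u : ℤ) + 1 < k - 1 → (u : ℤ) + 1 < κ (c - (b + (u + 1))) := by
    intro u
    induction u with
    | zero =>
      intro hu
      have a := κe (c - (b + ((0 : ℕ) + 1)))
      have a0 := κ0 (c - (b + ((0 : ℕ) + 1)))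
      by_contra h
      have e1 : κ (c - (b + ((0 : ℕ) + 1))) = (0 : ℕ) + 1 := by omega
      rw [e1, an _ (by omega) (by omega)] at a
      exact ninv k3 _ a.1
    | succ u ih =>
      intro hu
      have a := κe (c - (b + ((u + 1 : ℕ) + 1)))
      have a0 := κm (c - (b + ((u + 1 : ℕ) + 1)))
      rw [show c - (b + (((u + 1 : ℕ) : ℤ) + 1)) + 1 = c - (b + (u + 1)) by push_cast; ring] at a0
      have a1 := ih (by omega)
      have a2 := (κe (c - (b + (u + 1)))).2
      by_contra h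
      have e1 : κ (c - (b + ((u + 1 : ℕ) + 1))) = (u + 1 : ℕ) + 1 := by omega
      rw [e1, an _ (by omega) (by omega)] at a
      exact ninv k3 _ a.1
  obtain ⟨u, hu⟩ : ∃ u : ℕ, (u : ℤ) + 3 = k := ⟨(k - 3).toNat, by omega⟩
  have a := key u (by omega)
  have a1 := κ1 (c - (b + (u + 1)))
  have a2 := (κe (c - (b + (u + 1)))).2
  omega

theorem ivt_aux (A B g a b s x y m : ℤ) (run : Par W A B g) (rel : Par W a b s)
    (ne : W x ≠ W y)
    (h : g % 2 = 0 ∧ 0 < g ∧ s % 2 = 0 ∧ A ≤ B ∧ A ≤ a ∧ b ≤ B + g ∧ A ≤ a + s ∧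
      b + s ≤ B + g ∧ A ≤ x ∧ x < B + g ∧ A ≤ y ∧ y < B + g ∧ y = x + s + m * g)
    (e f c m' : ℤ) (ninv : 3 ≤ a + g - b → ∀ t, W t ≠ (W t)⁻¹) (c2 : c % 2 = 0)
    (an : ∀ t, b + m' * g < t → t < a + g + m' * g - 1 → A ≤ t ∧ t < B + g ∧ A ≤ c - t ∧
      c - t < B + g ∧ W (c - t) = (W t)⁻¹) : False := by
  obtain ⟨g2, hg, s2, h1, h2, h3, h4, h5, h6, h7, h8, h9, rfl⟩ := h
  obtain ⟨P, hP⟩ : ∃ P : ℤ → G, ∀ t, P t = W (A + (t - A) % g) := ⟨_, fun _ => rfl⟩
  have per : ∀ t, P (t + g) = P t := fun t => by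
    rw [hP, hP, show t + g - A = t - A + g by ring, Int.add_emod_right]
  have PW : ∀ t, A ≤ t → t < B + g → P t = W t := fun t u v => by
    have e1 := Int.mul_ediv_add_emod (t - A) g
    have l1 := Int.emod_nonneg (t - A) hg.ne'
    have l2 := Int.emod_lt_of_pos (t - A) hg
    rw [hP]
    exact (run.eq hg ((t - A) / g) (by omega) (by omega) u v (by linarith)).symm
  have m2 : (m' * g) % 2 = 0 := by
    obtain ⟨g, rfl⟩ : ∃ u, g = 2 * u := ⟨g / 2, by omega⟩
    have : m' * (2 * g) = 2 * (m' * g) := by ring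
    omega
  refine rot_core (P := P) (b := max a b) (k := a + g - max a b) (s := s) (x := x)
    (c := c - m' * g) hg (by omega) g2 s2 (by omega) per (fun t ht => ?_) ?_
    (fun u t => hP t ▸ ninv (by omega) _) (fun t u v => ?_)
  · have e1 := Int.mul_ediv_add_emod (t - max a b) g
    have l2 := Int.emod_lt_of_pos (t - max a b) hg
    generalize (t - max a b) % g = r at *
    generalize (t - max a b) / g = q at *
    rw [show t + s = max a b + r - g + s + (q + 1) * g by linarith,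
      show t = max a b + r - g + (q + 1) * g by linarith, perM per, perM per,
      PW _ (by omega) (by omega), PW _ (by omega) (by omega)]
    exact rel _ (by omega) (by omega)
  · rw [← perM per m, PW _ h8 h9, PW _ h6 h7]
    exact ne.symm
  · obtain ⟨a1, a2, a3, a4, a5⟩ := an (t + m' * g) (by omega) (by omega)
    rw [← perM per m' t, PW _ a1 a2, ← a5, ← PW _ a3 a4]
    congr 1; ring

theorem ivt0 (A B g a b s x y m : ℤ) (run : Par W A B g) (rel : Par W a b s) (ne : W x ≠ W y)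
    (h : g % 2 = 0 ∧ 0 < g ∧ s % 2 = 0 ∧ A ≤ B ∧ A ≤ a ∧ b ≤ B + g ∧ A ≤ a + s ∧
      b + s ≤ B + g ∧ A ≤ x ∧ x < B + g ∧ A ≤ y ∧ y < B + g ∧ y = x + s + m * g)
    (h2 : a + g - b ≤ 2) : False :=
  ivt_aux A B g a b s x y m run rel ne h 0 0 0 0 (fun u => by omega) rfl
    (fun t u v => by omega)

theorem ivt (ninv : ∀ t, W t ≠ (W t)⁻¹) (A B g a b s x y m : ℤ) (run : Par W A B g)
    (rel : Par W a b s) (ne : W x ≠ W y)
    (h : g % 2 = 0 ∧ 0 < g ∧ s % 2 = 0 ∧ A ≤ B ∧ A ≤ a ∧ b ≤ B + g ∧ A ≤ a + s ∧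
      b + s ≤ B + g ∧ A ≤ x ∧ x < B + g ∧ A ≤ y ∧ y < B + g ∧ y = x + s + m * g)
    (e f c τ m' : ℤ) (an : Ant W e f c)
    (h3 : c % 2 = 0 ∧ (τ = 0 ∨ τ = 1) ∧ A ≤ e ∧ f ≤ B + g ∧ A ≤ c - f + 1 ∧ c - e < B + g ∧
      e ≤ b + τ * s + m' * g + 1 ∧ a + g + τ * s + m' * g - 1 ≤ f) : False := by
  obtain ⟨c2, rfl | rfl, k1, k2, k3, k4, k5, k6⟩ := h3
  · exact ivt_aux A B g a b s x y m run rel ne h e f c m' (fun _ => ninv) c2 fun t u v =>
      ⟨by omega, by omega, by omega, by omega, an t (by omega) (by omega)⟩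
  · refine ivt_aux A B g (a + s) (b + s) (-s) y x (-m) run (fun t u v => ?_) ne.symm
      (by have : -m * g = -(m * g) := by ring
          omega) e f c m' (fun _ => ninv) c2 fun t u v =>
      ⟨by omega, by omega, by omega, by omega, an t (by omega) (by omega)⟩
    rw [← rel (t + -s) (by omega) (by omega)]
    congr 1; ring

end Pool.Agent.MP_a38735_al.WL
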