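import Pool.Agent.MP_a38735_al.IM
import Pool.Agent.MP_a38735_al.WP
import Mathlib.Data.Int.LeastGreatest

set_option autoImplicit false

namespace Pool.Agent.MP_a38735_al.WL.Tb

open Function

/-- `c` is reached from `x` before any earlier point of `S` -/
def Fst (ψ : ℤ → ℤ) (S : ℤ → Prop) (x c : ℤ) : Prop :=
  ∃ r : ℕ, ψ^[r] x = c ∧ ∀ l < r, ¬ S (ψ^[l] x)

theorem Fst.ex {ψ : ℤ → ℤ} {S : ℤ → Prop} {x : ℤ} (h : ∃ r : ℕ, S (ψ^[r] x)) :
    ∃ c, S c ∧ Fst ψ S x c := by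
  classical
  exact ⟨_, Nat.find_spec h, Nat.find h, rfl, fun l hl => Nat.find_min h hl⟩

theorem Fst.tr {ψ : ℤ → ℤ} {S : ℤ → Prop} {x c : ℤ} (h : Fst ψ S x c) (C : ℤ → Prop)
    (st : ∀ y, ¬ S y → C y → C (ψ y)) (hx : C x) : C c := by
  obtain ⟨r, rfl, hr⟩ := h
  induction r with
  | zero => exact hx
  | succ r ih =>
    rw [iterate_succ_apply']
    exact st _ (hr r (by omega)) (ih fun l hl => hr l (by omega))

theorem Fst.cl {ψ : ℤ → ℤ} {S : ℤ → Prop} (T : ℤ → Prop)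
    (hT : ∀ c, T c → ∃ c', T c' ∧ Fst ψ S (ψ c) c') {c : ℤ} (hc : T c) (r : ℕ)
    (s : S (ψ^[r] (ψ c))) : T (ψ^[r] (ψ c)) := by
  have key : ∀ r : ℕ, ∃ c', T c' ∧ Fst ψ S (ψ^[r] (ψ c)) c' := fun r => by
    induction r with
    | zero => exact hT c hc
    | succ r ih =>
      obtain ⟨c', h1, m, h2, h3⟩ := ih
      rw [iterate_succ_apply']
      cases m with
      | zero => exact hT _ ((show _ = c' from h2) ▸ h1)
      | succ m => exact ⟨c', h1, m, h2, fun l hl => h3 (l + 1) (by omega)⟩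
  obtain ⟨c', h1, m, h2, h3⟩ := key r
  cases m with
  | zero => exact (show _ = c' from h2) ▸ h1
  | succ m => exact absurd s (h3 0 (by omega))

/-- the representative in `[lo, lo + n)` -/
def red (lo n t : ℤ) : ℤ := lo + (t - lo) % n

theorem red_sp {lo n : ℤ} (hn : 0 < n) (t : ℤ) :
    lo ≤ red lo n t ∧ red lo n t < lo + n ∧ ∃ m, red lo n t = t + m * n := by
  have e := Int.mul_ediv_add_emod (t - lo) n
  have l1 := Int.emod_nonneg (t - lo) hn.ne'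
  have l2 := Int.emod_lt_of_pos (t - lo) hn
  unfold red
  exact ⟨by omega, by omega, -((t - lo) / n), by linarith⟩

theorem red_mul (lo n t m : ℤ) : red lo n (t + m * n) = red lo n t := by
  unfold red
  rw [show t + m * n - lo = t - lo + m * n by ring, Int.add_mul_emod_self_right]

theorem red_id {lo n t : ℤ} (h1 : lo ≤ t) (h2 : t < lo + n) : red lo n t = t := by
  unfold red
  rw [Int.emod_eq_of_lt (by omega) (by omega)]; ring

theorem red_cmp {lo n x y : ℤ} (hn : 0 < n) (h : x < y) :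
    y - red lo n y = x - red lo n x ∨ x - red lo n x + n ≤ y - red lo n y := by
  obtain ⟨a1, a2, a, ha⟩ := red_sp (lo := lo) hn x
  obtain ⟨b1, b2, b, hb⟩ := red_sp (lo := lo) hn y
  rcases lt_trichotomy a b with z | z | z
  · have : (a + 1) * n ≤ b * n := Int.mul_le_mul_of_nonneg_right (by omega) hn.le
    have e : (a + 1) * n = a * n + n := by ring
    omega
  · subst z; omega
  · have : (b + 1) * n ≤ a * n := Int.mul_le_mul_of_nonneg_right (by omega) hn.le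
    have e : (b + 1) * n = b * n + n := by ring
    omega

/-- a periodic orbit of a map of the junctions along bands, with its dynamics -/
theorem orbit2 {β : Type*} {V : ℤ → β} {n : ℤ} (lo : ℤ) (hn : 0 < n) (n2 : n % 2 = 0)
    (per : ∀ t, V (t + n) = V t) (a b d : ℤ → ℤ)
    (h : ∀ t, lo ≤ t → t < lo + n → a t ≤ t ∧ t ≤ b t ∧ d t % 2 = 0 ∧
      ∀ s, a t ≤ s → s < b t → V (s + d t) = V s) :
    ∃ (u v : ℤ) (P : ℤ → Prop), 0 ≤ u ∧ 0 ≤ v ∧
      (∀ t, P t → lo ≤ t ∧ t < lo + n ∧ (t - lo) % 2 = 0 ∧ a t + u ≤ t ∧ t + v ≤ b t) ∧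
      (∀ t t', P t → P t' → ∀ s, -u ≤ s → s < v → V (t + s) = V (t' + s)) ∧
      (∃ t, P t) ∧
      (∀ t, P t → ∃ t', P t' ∧ t' + v = b t' ∧ V (t + d t + v) = V (t' + v)) ∧
      (∀ t, P t → ∃ t', P t' ∧ a t' + u = t' ∧ V (t + d t - u - 1) = V (t' - u - 1)) ∧
      (∀ t, P t → P (red lo n (t + d t))) ∧
      ∀ x y, P x → P y → ∃ r : ℕ, (fun t => red lo n (t + d t))^[r] x = y := by
  classical
  obtain ⟨ψ, hψ⟩ : ∃ ψ : ℤ → ℤ, ψ = fun t => red lo n (t + d t) := ⟨_, rfl⟩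
  have p1 : ∀ t, lo ≤ ψ t ∧ ψ t < lo + n ∧ (ψ t - (t + d t)) % 2 = 0 ∧
      ∀ s, V (ψ t + s) = V (t + d t + s) := fun t => by
    obtain ⟨a1, a2, m, e⟩ := red_sp (lo := lo) hn (t + d t)
    rw [hψ]
    refine ⟨a1, a2, ?_, fun s => ?_⟩
    · obtain ⟨g, rfl⟩ : ∃ g, n = 2 * g := ⟨n / 2, by omega⟩
      have : m * (2 * g) = 2 * (m * g) := by ring
      dsimp only
      omega
    · dsimp only
      rw [e, add_right_comm, perM per]
  have cl : ∀ x ∈ Finset.Ico lo (lo + n), ψ x ∈ Finset.Ico lo (lo + n) := fun x _ =>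
    Finset.mem_Ico.2 ⟨(p1 x).1, (p1 x).2.1⟩
  have hy : lo ∈ Finset.Ico lo (lo + n) := Finset.mem_Ico.2 ⟨le_rfl, by omega⟩
  obtain ⟨m, N, N0, hN⟩ := im_per cl hy
  let P : ℤ → Prop := fun w => ∃ c : ℕ, w = ψ^[c + m] lo
  have o1 : ∀ w, P w → P (ψ w) := by
    rintro w ⟨c, rfl⟩
    exact ⟨c + 1, by rw [add_right_comm, iterate_succ_apply']⟩
  have o3 : ∀ c : ℕ, lo ≤ ψ^[c] lo ∧ ψ^[c] lo < lo + n ∧ (ψ^[c] lo - lo) % 2 = 0 := fun c => by
    induction c with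
    | zero => exact ⟨le_rfl, by simpa using hn, by simp⟩
    | succ c ih =>
      rw [iterate_succ_apply']
      have := p1 (ψ^[c] lo)
      have := h _ ih.1 ih.2.1
      omega
  have o4 : ∀ w, P w → lo ≤ w ∧ w < lo + n ∧ (w - lo) % 2 = 0 := by
    rintro w ⟨c, rfl⟩
    exact o3 _
  have con : ∀ x y, P x → P y → ∃ r : ℕ, ψ^[r] x = y := by
    rintro x y ⟨c, rfl⟩ ⟨c', rfl⟩
    obtain ⟨N, rfl⟩ := Nat.exists_eq_succ_of_ne_zero N0.ne'
    refine ⟨c' + N * c, ?_⟩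
    rw [← iterate_add_apply, show c' + N * c + (c + m) = c' + (N.succ * c + m) by
      rw [Nat.succ_mul]; omega, iterate_add_apply, iterate_add_apply ψ _ m, (hN.mul_const c).eq,
      ← iterate_add_apply]
  have ind : ∀ (C : ℤ → Prop) (y : ℤ), P y → C y → (∀ x, P x → C (ψ x) → C x) →
      ∀ x, P x → C x := by
    intro C y hy cy st x hx
    obtain ⟨r, e⟩ := con x y hx hy
    induction r generalizing x with
    | zero => exact (show x = y from e) ▸ cy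
    | succ r ih => exact st x hx (ih _ (o1 x hx) e)
  have ne : P (ψ^[0 + m] lo) := ⟨0, rfl⟩
  obtain ⟨u, ⟨x, hx, ex⟩, mu⟩ := Int.exists_least_of_bdd (P := fun u => ∃ t, P t ∧ a t + u = t)
    ⟨0, fun z ⟨t, ht, e⟩ => by have := o4 t ht; have := h t this.1 this.2.1; omega⟩
    ⟨_, _, ne, add_sub_cancel _ _⟩
  obtain ⟨v, ⟨y, hy, ey⟩, mv⟩ := Int.exists_least_of_bdd (P := fun v => ∃ t, P t ∧ t + v = b t)
    ⟨0, fun z ⟨t, ht, e⟩ => by have := o4 t ht; have := h t this.1 this.2.1; omega⟩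
    ⟨_, _, ne, add_sub_cancel _ _⟩
  have lu : ∀ t, P t → a t + u ≤ t := fun t ht => by
    have := mu (t - a t) ⟨t, ht, by ring⟩; omega
  have lv : ∀ t, P t → t + v ≤ b t := fun t ht => by
    have := mv (b t - t) ⟨t, ht, by ring⟩; omega
  have mv : ∀ t, P t → ∀ s, a t ≤ t + s → t + s < b t → V (ψ t + s) = V (t + s) :=
    fun t ht s h1 h2 => by
    rw [(p1 t).2.2.2, add_right_comm]
    exact (h t (o4 t ht).1 (o4 t ht).2.1).2.2.2 _ h1 h2
  have bx := h x (o4 x hx).1 (o4 x hx).2.1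
  have by' := h y (o4 y hy).1 (o4 y hy).2.1
  refine ⟨u, v, P, by omega, by omega, fun t ht => ⟨(o4 t ht).1, (o4 t ht).2.1, (o4 t ht).2.2,
    lu t ht, lv t ht⟩, fun t t' ht ht' s h1 h2 => ?_, ⟨_, ne⟩, fun t ht => ?_, fun t ht => ?_,
    fun t ht => by simpa only [hψ] using o1 t ht, hψ ▸ con⟩
  · refine ind (fun t => V (t + s) = V (t' + s)) t' ht' rfl (fun x hx e => ?_) t ht
    have := lu x hx
    have := lv x hx
    rw [← e, mv x hx s (by omega) (by omega)]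
  · rw [← (p1 t).2.2.2]
    refine ind (fun x => ∃ t', P t' ∧ t' + v = b t' ∧ V (x + v) = V (t' + v)) y hy ⟨y, hy, ey, rfl⟩
      (fun x hx e => ?_) _ (o1 t ht)
    have := lu x hx
    have := lv x hx
    by_cases z : x + v = b x
    · exact ⟨x, hx, z, rfl⟩
    · rwa [mv x hx v (by omega) (by omega)] at e
  · simp only [sub_sub, sub_eq_add_neg _ (u + 1)]
    rw [← (p1 t).2.2.2]
    refine ind (fun x => ∃ t', P t' ∧ a t' + u = t' ∧ V (x + -(u + 1)) = V (t' + -(u + 1))) x hx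
      ⟨x, hx, ex, rfl⟩ (fun x hx e => ?_) _ (o1 t ht)
    have := lu x hx
    have := lv x hx
    by_cases z : a x + u = x
    · exact ⟨x, hx, z, rfl⟩
    · rwa [mv x hx _ (by omega) (by omega)] at e

/-- neighbours in a set of integers -/
def Adj (Q : ℤ → Prop) (x g : ℤ) : Prop := 0 < g ∧ Q x ∧ Q (x + g) ∧ ∀ y, Q y → x < y → x + g ≤ y

theorem Adj.uq {Q : ℤ → Prop} {x g g' : ℤ} (h : Adj Q x g) (h' : Adj Q x g') : g = g' := by
  have := h.2.2.2 _ h'.2.2.1 (by have := h'.1; omega)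
  have := h'.2.2.2 _ h.2.2.1 (by have := h.1; omega)
  omega

theorem Adj.ex {Q : ℤ → Prop} {x y : ℤ} (hx : Q x) (hy : Q y) (l : x < y) : ∃ g, Adj Q x g := by
  classical
  obtain ⟨z, ⟨h1, h2⟩, m⟩ := Int.exists_least_of_bdd (P := fun z => Q z ∧ x < z)
    ⟨x, fun z hz => hz.2.le⟩ ⟨y, hy, l⟩
  exact ⟨z - x, by omega, hx, by rwa [add_sub_cancel], fun y h3 h4 => by
    have := m y ⟨h3, h4⟩; omega⟩

theorem Adj.two {Q : ℤ → Prop} {x y g : ℤ} (mg : ∀ x g', Adj Q x g' → g ≤ g') (h : Adj Q x g)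
    (hy : Q y) (l : x < y) : x + g = y ∨ x + 2 * g ≤ y := by
  rcases (h.2.2.2 y hy l).eq_or_lt with z | z
  · exact Or.inl z
  · obtain ⟨g', h'⟩ := Adj.ex h.2.2.1 hy z
    have := mg _ _ h'
    have := h'.2.2.2 y hy z
    omega

theorem Adj.tri {Q : ℤ → Prop} {x y g g' : ℤ} (h : Adj Q x g) (h' : Adj Q y g') :
    x = y ∨ y + g' ≤ x ∨ x + g ≤ y := by
  rcases lt_trichotomy x y with z | z | z
  · exact Or.inr (Or.inr (h.2.2.2 y h'.2.1 z))
  · exact Or.inl z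
  · exact Or.inr (Or.inl (h'.2.2.2 x h.2.1 z))

end Pool.Agent.MP_a38735_al.WL.Tb
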