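import Pool.Agent.MP_a38735_al.TB0

set_option autoImplicit false

namespace Pool.Agent.MP_a38735_al.WL.Tb

open Function

variable {β : Type*} {V : ℤ → β} {n l r k q d1 d2 d3 u v : ℤ} {P : ℤ → Prop} {d : ℤ → ℤ}

/-- three consecutive bands with decreasing shifts; the last and the first overlap -/
structure TB (V : ℤ → β) (n l r k q d1 d2 d3 : ℤ) : Prop where
  per : ∀ t, V (t + n) = V t
  ord : l ≤ r ∧ r < k ∧ k < q ∧ q < n + l ∧ d2 ≤ d1 ∧ d3 ≤ d2 ∧ d1 - d3 = r - l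
  ev : n % 2 = 0 ∧ d1 % 2 = 0 ∧ d2 % 2 = 0 ∧ d3 % 2 = 0
  A : ∀ t, l < t → t < k → V (t + d1) = V t
  B : ∀ t, k < t → t < q → V (t + d2) = V t
  C : ∀ t, q < t → t < n + r → V (t + d3) = V t
  r1 : V (k + d1) ≠ V k
  l1 : V (k + d2) ≠ V k
  r2 : V (q + d2) ≠ V q
  l2 : V (q + d3) ≠ V q
  r3 : V (l + d1) ≠ V r
  l3 : V (l + d1) ≠ V l
  t1 : V (k + d1) = V r → V (k + d2) = V l → V k = V (l + d1)
  t2 : V (q + d2) = V r → V (q + d3) = V l → V q = V (l + d1)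

/-- the place of an orbit point -/
def Rg (n l r k q d1 d2 d3 u v t D : ℤ) : Prop :=
  (l + 1 + u ≤ t ∧ t + v ≤ k ∧ D = d1) ∨ (k + 1 + u ≤ t ∧ t + v ≤ q ∧ D = d2) ∨
    (q + 1 + u ≤ t ∧ t + v ≤ n + r ∧ t ≤ n + l ∧ D = d3)

/-- an orbit with long windows -/
structure Dy (n l r k q d1 d2 d3 u v : ℤ) (P : ℤ → Prop) (d : ℤ → ℤ) : Prop where
  uv : 0 ≤ u ∧ r - l ≤ v
  rg : ∀ t, P t → Rg n l r k q d1 d2 d3 u v t (d t)
  cl : ∀ t, P t → P (red (l + 1) n (t + d t))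
  con : ∀ x y, P x → P y → ∃ m : ℕ, (fun t => red (l + 1) n (t + d t))^[m] x = y
  R : P (n + r - v)

/-- the lifted orbit -/
def Lf (n l : ℤ) (P : ℤ → Prop) (t : ℤ) : Prop := P (red (l + 1) n t)

/-- last point of its band -/
def Sp (k q : ℤ) (P : ℤ → Prop) (c : ℤ) : Prop :=
  ∀ y, P y → c < y → (c ≤ k ∧ k < y) ∨ (c ≤ q ∧ q < y)

theorem Lf.mul (t m : ℤ) : Lf n l P (t + m * n) ↔ Lf n l P t := by unfold Lf; rw [red_mul]

theorem Adj.mul {x g : ℤ} (h : Adj (Lf n l P) x g) (m : ℤ) : Adj (Lf n l P) (x + m * n) g :=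
  ⟨h.1, (Lf.mul _ _).2 h.2.1, by rw [add_right_comm]; exact (Lf.mul _ _).2 h.2.2.1,
    fun y hy z => by
      have := h.2.2.2 (y + -m * n) ((Lf.mul _ _).2 hy) (by linarith)
      linarith⟩

namespace Dy

variable (tb : TB V n l r k q d1 d2 d3) (h : Dy n l r k q d1 d2 d3 u v P d)
include tb h

theorem id {t : ℤ} (ht : P t) : red (l + 1) n t = t := by
  have := tb.ord; have := h.uv; have := h.rg t ht
  unfold Rg at this
  exact red_id (by omega) (by omega)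

theorem lf {t : ℤ} (ht : P t) : Lf n l P t := by unfold Lf; rwa [h.id tb ht]

theorem lf' {t : ℤ} (ht : P t) : Lf n l P (t + n) := by
  rw [← one_mul n, mul_comm 1, mul_one, ← one_mul n]
  simpa using (Lf.mul (n := n) (l := l) (P := P) t 1).2 (h.lf tb ht)

theorem adj {c c' g : ℤ} (hc : P c) (hc' : P c') (e : c' = c + g ∨ c' + n = c + g) (g0 : 0 < g)
    (m1 : ∀ y, P y → c < y → c + g ≤ y) (m2 : ∀ y, P y → c + g ≤ y + n) :
    Adj (Lf n l P) c g := by
  have := tb.ord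
  refine ⟨g0, h.lf tb hc, ?_, fun y hy z => ?_⟩
  · rcases e with e | e <;> rw [← e]
    exacts [h.lf tb hc', h.lf' tb hc']
  · have c1 := red_cmp (lo := l + 1) (n := n) (by omega) z
    rw [h.id tb hc] at c1
    have := m1 _ hy
    have := m2 _ hy
    omega

theorem nxt {c g : ℤ} (hc : P c) (a : Adj (Lf n l P) c g) :
    ∃ c', P c' ∧ (c' = c + g ∨ c' + n = c + g) := by
  have := tb.ord; have := h.uv
  have r1 := h.rg c hc
  unfold Rg at r1
  have := a.2.2.2 _ (h.lf' tb hc) (by omega)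
  have := a.1
  refine ⟨_, a.2.2.1, ?_⟩
  by_cases z : c + g < l + 1 + n
  · exact Or.inl (red_id (by omega) z)
  · refine Or.inr ?_
    rw [show c + g = c + g - n + 1 * n by ring, red_mul, red_id (by omega) (by omega)]
    ring

theorem mono {x y : ℤ} (hx : Lf n l P x) (hy : Lf n l P y) (z : x < y) :
    x + d (red (l + 1) n x) < y + d (red (l + 1) n y) := by
  have := tb.ord; have := h.uv
  have c1 := red_cmp (lo := l + 1) (n := n) (by omega) z
  have r1 := h.rg _ hx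
  have r2 := h.rg _ hy
  unfold Rg at r1 r2
  omega

theorem img {x : ℤ} (hx : Lf n l P x) : Lf n l P (x + d (red (l + 1) n x)) := by
  have := tb.ord
  obtain ⟨-, -, m, e⟩ := red_sp (lo := l + 1) (n := n) (by omega) x
  have := h.cl _ hx
  rw [e, add_right_comm, red_mul, ← e] at this
  exact this

theorem sur {y : ℤ} (hy : Lf n l P y) : ∃ x, Lf n l P x ∧ x + d (red (l + 1) n x) = y := by
  have := tb.ord
  obtain ⟨m, e⟩ := h.con _ _ (h.cl _ hy) hy
  have it : ∀ m : ℕ, P ((fun t => red (l + 1) n (t + d t))^[m] (red (l + 1) n y)) := fun m => by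
    induction m with
    | zero => exact hy
    | succ m ih => rw [iterate_succ_apply']; exact h.cl _ ih
  have e' : (fun t => red (l + 1) n (t + d t))^[m + 1] (red (l + 1) n y) = red (l + 1) n y := e
  rw [iterate_succ_apply'] at e'
  obtain ⟨t, ht, e'⟩ : ∃ t, P t ∧ red (l + 1) n (t + d t) = red (l + 1) n y := ⟨_, it m, e'⟩
  obtain ⟨-, -, a, ea⟩ := red_sp (lo := l + 1) (n := n) (by omega) (t + d t)
  obtain ⟨-, -, b, eb⟩ := red_sp (lo := l + 1) (n := n) (by omega) y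
  refine ⟨t + (a - b) * n, (Lf.mul _ _).2 (h.lf tb ht), ?_⟩
  rw [red_mul, h.id tb ht]
  linarith

theorem stp {c c' g g' : ℤ} (hc : P c) (hc' : P c') (e : c' = c + g ∨ c' + n = c + g)
    (a : Adj (Lf n l P) c g) (eg : g' = g + d c' - d c) : Adj (Lf n l P) (c + d c) g' := by
  have e1 : red (l + 1) n (c + g) = c' := by
    rcases e with e | e <;> rw [← e]
    · exact h.id tb hc'
    · rw [show c' + n = c' + 1 * n by ring, red_mul]; exact h.id tb hc'
  have m := h.mono tb a.2.1 a.2.2.1 (by have := a.1; omega)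
  have i1 := h.img tb a.2.1
  have i2 := h.img tb a.2.2.1
  rw [e1] at m i2
  rw [h.id tb hc] at m i1
  refine ⟨by omega, i1, by rwa [show c + d c + g' = c + g + d c' by omega], fun y hy z => ?_⟩
  obtain ⟨x, hx, rfl⟩ := h.sur tb hy
  rcases lt_trichotomy c x with w | w | w
  · rcases (a.2.2.2 x hx w).eq_or_lt with w' | w'
    · rw [← w', e1]; omega
    · have := h.mono tb a.2.2.1 hx w'
      rw [e1] at this
      omega
  · rw [← w, h.id tb hc] at z; omega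
  · have := h.mono tb hx a.2.1 w
    rw [h.id tb hc] at this
    omega

theorem spR : Sp k q P (n + r - v) := fun y hy z => by
  have := tb.ord; have := h.uv; have := h.rg y hy
  unfold Rg at this
  omega

theorem spx {y : ℤ} (hy : P y) : ∃ c, P c ∧ Sp k q P c ∧ y ≤ c ∧ (y ≤ k → c ≤ k) ∧ (y ≤ q → c ≤ q) := by
  classical
  have := tb.ord; have := h.uv
  obtain ⟨c, ⟨h1, h2, h3⟩, m⟩ := Int.exists_greatest_of_bdd
    (P := fun c => P c ∧ (y ≤ k → c ≤ k) ∧ (y ≤ q → c ≤ q)) ⟨n + r, fun z hz => by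
      have := h.rg z hz.1
      unfold Rg at this
      omega⟩ ⟨y, hy, fun z => z, fun z => z⟩
  have := m y ⟨hy, fun z => z, fun z => z⟩
  refine ⟨c, h1, fun z hz lt => ?_, this, h2, h3⟩
  by_contra no
  have := m z ⟨hz, by omega, by omega⟩
  omega

theorem walk {x g : ℤ} (a : Adj (Lf n l P) x g) : ∃ e, P e ∧ Sp k q P e ∧
    Fst (fun t => red (l + 1) n (t + d t)) (Sp k q P) (red (l + 1) n x) e ∧ Adj (Lf n l P) e g ∧
    (∀ τ, -u ≤ τ → τ < g + v → V (e + τ) = V (x + τ)) ∧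
    ((l + 1 + u ≤ e ∧ e + v ≤ k ∧ d e = d1 ∧ k + 1 + u ≤ e + g) ∨
      (k + 1 + u ≤ e ∧ e + v ≤ q ∧ d e = d2 ∧ q + 1 + u ≤ e + g) ∨
      (e = n + r - v ∧ n + l + 1 + u ≤ e + g)) := by
  have := tb.ord; have := h.uv
  obtain ⟨m, em⟩ := h.con _ _ a.2.1 h.R
  obtain ⟨e, se, fe⟩ := Fst.ex (S := Sp k q P) ⟨m, em ▸ h.spR tb⟩
  obtain ⟨-, -, m0, e0⟩ := red_sp (lo := l + 1) (n := n) (by omega) x
  obtain ⟨pe, ae, ce⟩ := fe.tr (fun y => P y ∧ Adj (Lf n l P) y g ∧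
      ∀ τ, -u ≤ τ → τ < g + v → V (y + τ) = V (x + τ)) (by
    rintro y ny ⟨py, ay, cy⟩
    unfold Sp at ny
    push Not at ny
    obtain ⟨z, pz, yz, n1, n2⟩ := ny
    have := ay.2.2.2 z (h.lf tb pz) yz
    obtain ⟨c', pc, ec⟩ := h.nxt tb py ay
    have r1 := h.rg y py
    have r2 := h.rg z pz
    have r3 := h.rg c' pc
    have := ay.1
    unfold Rg at r1 r2 r3
    obtain ⟨-, -, m1, e1⟩ := red_sp (lo := l + 1) (n := n) (by omega) (y + d y)
    refine ⟨h.cl y py, ?_, fun τ t1 t2 => ?_⟩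
    · show Adj _ (red (l + 1) n (y + d y)) g
      rw [e1]
      exact (h.stp tb py pc ec ay (by omega)).mul m1
    · show V (red (l + 1) n (y + d y) + τ) = _
      rw [e1, add_right_comm, perM tb.per, add_right_comm, ← cy τ t1 t2]
      rcases r1 with ⟨_, _, z⟩ | ⟨_, _, z⟩ | ⟨_, _, _, z⟩ <;> rw [z]
      · exact tb.A _ (by omega) (by omega)
      · exact tb.B _ (by omega) (by omega)
      · exact tb.C _ (by omega) (by omega))
    ⟨a.2.1, e0 ▸ a.mul m0, fun τ _ _ => by rw [e0, add_right_comm, perM tb.per]⟩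
  refine ⟨e, pe, se, fe, ae, ce, ?_⟩
  obtain ⟨c', pc, ec⟩ := h.nxt tb pe ae
  have r1 := h.rg e pe
  have r3 := h.rg c' pc
  have s1 := se c' pc
  have s2 := se _ h.R
  have := ae.1
  unfold Rg at r1 r3
  omega

omit tb in
theorem cl2 {c c' e : ℤ} (hc : P c)
    (f : Fst (fun t => red (l + 1) n (t + d t)) (Sp k q P) (red (l + 1) n (c + d c)) c')
    (f' : Fst (fun t => red (l + 1) n (t + d t)) (Sp k q P) (red (l + 1) n (c' + d c')) c)
    (he : P e) (se : Sp k q P e) : e = c ∨ e = c' := by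
  obtain ⟨m, em⟩ := h.con _ _ (h.cl c hc) he
  have := Fst.cl (ψ := fun t => red (l + 1) n (t + d t)) (S := Sp k q P) (fun x => x = c ∨ x = c')
    (by
      rintro x (rfl | rfl)
      exacts [⟨_, Or.inr rfl, f⟩, ⟨_, Or.inl rfl, f'⟩]) (c := c) (Or.inl rfl) m (em ▸ se)
  exact em ▸ this

theorem mg {g c1 g1 c2 g2 g3 : ℤ} (p1 : P c1) (s1 : Sp k q P c1) (a1 : Adj (Lf n l P) c1 g1)
    (p2 : P c2) (s2 : Sp k q P c2) (a2 : Adj (Lf n l P) c2 g2)
    (a3 : Adj (Lf n l P) (n + r - v) g3) (H : c1 ≤ k ∧ k < c2 ∧ c2 ≤ q ∧ g ≤ g1 ∧ g ≤ g2 ∧ g ≤ g3)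
    (x g' : ℤ) (a : Adj (Lf n l P) x g') : g ≤ g' := by
  have := tb.ord; have := h.uv
  obtain ⟨e, pe, se, -, ae, -, ty⟩ := h.walk tb a
  have := s1 e pe
  have := se c1 p1
  have := s2 e pe
  have := se c2 p2
  have : e = c1 ∨ e = c2 ∨ e = n + r - v := by omega
  rcases this with rfl | rfl | rfl
  · have := ae.uq a1; omega
  · have := ae.uq a2; omega
  · have := ae.uq a3; omega

end Dy

end Pool.Agent.MP_a38735_al.WL.Tb
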