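import Pool.Agent.MP_a38735_al.IM
import Pool.Agent.MP_a38735_al.StA
import Mathlib.Tactic.LinearCombination
import Mathlib.Data.ZMod.Basic

set_option autoImplicit false
set_option linter.unusedSectionVars false

namespace Pool.Agent.MP_a38735_al.WL

open Function

/-- the orbits meet -/
def Sm {X : Type*} (φ : X → X) (x y : X) : Prop := ∃ k k' : ℕ, φ^[k] x = φ^[k'] y

section
variable {X : Type*} {φ : X → X} {x y z : X}

theorem Sm.rf (x : X) : Sm φ x x := ⟨0, 0, rfl⟩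

theorem Sm.sy (h : Sm φ x y) : Sm φ y x := let ⟨k, k', e⟩ := h; ⟨k', k, e.symm⟩

theorem Sm.tr (h : Sm φ x y) (g : Sm φ y z) : Sm φ x z := by
  obtain ⟨a, b, e⟩ := h
  obtain ⟨c, d, f⟩ := g
  exact ⟨c + a, b + d, by
    rw [iterate_add_apply, e, ← iterate_add_apply, add_comm, iterate_add_apply, f,
      iterate_add_apply]⟩

theorem Sm.it {k : ℕ} (h : φ^[k] x = y) : Sm φ x y := ⟨k, 0, h⟩

theorem Sm.lab {β : Type*} {ℓ : X → β} (hl : ∀ x, ℓ (φ x) = ℓ x) (h : Sm φ x y) : ℓ x = ℓ y := by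
  have : ∀ k x, ℓ (φ^[k] x) = ℓ x := fun k => by
    induction k with
    | zero => exact fun _ => rfl
    | succ k ih => exact fun x => (ih _).trans (hl x)
  obtain ⟨a, b, e⟩ := h
  rw [← this a, e, this]

theorem Sm.hit (h : Sm φ x y) (p : y ∈ periodicPts φ) : ∃ k, φ^[k] x = y := by
  obtain ⟨a, b, e⟩ := h
  obtain ⟨K, K0, p⟩ := p
  refine ⟨K * b - b + a, ?_⟩
  rw [iterate_add_apply, e, ← iterate_add_apply, Nat.sub_add_cancel (Nat.le_mul_of_pos_left b K0)]
  exact p.mul_const b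

end

/-- a map that commutes with the successor but at `h` and around the fixed point `q` -/
structure Tw {E : ℕ} {β : Type*} (φ : ZMod E → ZMod E) (ℓ : ZMod E → β) (π : ZMod E →+* ZMod 2)
    (q h o a p : ZMod E) : Prop where
  h0 : φ q = q
  h1 : ∀ x, x ≠ h → x ≠ q → x + 1 ≠ q → φ (x + 1) = φ x + 1
  h2 : φ (q + 1) = a + 1
  h3 : φ (h + 1) = o + 1
  h4 : φ (q - 1) = p - 1
  hl : ∀ x, ℓ (φ x) = ℓ x
  hp : ∀ x, π (φ x) = π x
  n1 : ℓ p ≠ ℓ q
  n2 : ℓ a ≠ ℓ q
  n3 : ℓ o ≠ ℓ h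

namespace Tw

variable {E : ℕ} [NeZero E] {β : Type*} {φ : ZMod E → ZMod E} {ℓ : ZMod E → β}
  {π : ZMod E →+* ZMod 2} {q h o a p : ZMod E} (T : Tw φ ℓ π q h o a p)
include T

theorem par (x : ZMod E) : (∃ k, φ^[k] x = h ∧ φ^[k] (x + 1) = h + 1) ∨
    (∃ k, φ^[k] x = q ∧ φ^[k] (x + 1) = q + 1) ∨ (∃ k, φ^[k] x = q - 1 ∧ φ^[k] (x + 1) = q) ∨
    ∀ k, φ^[k] (x + 1) = φ^[k] x + 1 ∧ φ^[k] x ≠ h ∧ φ^[k] x ≠ q ∧ φ^[k] x + 1 ≠ q := by
  by_contra c
  simp only [not_or] at c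
  obtain ⟨c1, c2, c3, c4⟩ := c
  have k1 : ∀ k, φ^[k] (x + 1) = φ^[k] x + 1 →
      φ^[k] x ≠ h ∧ φ^[k] x ≠ q ∧ φ^[k] x + 1 ≠ q := fun k e =>
    ⟨fun z => c1 ⟨k, z, z ▸ e⟩, fun z => c2 ⟨k, z, z ▸ e⟩,
      fun z => c3 ⟨k, eq_sub_of_add_eq z, e.trans z⟩⟩
  have k2 : ∀ k, φ^[k] (x + 1) = φ^[k] x + 1 := fun k => by
    induction k with
    | zero => rfl
    | succ k ih =>
      have := k1 k ih
      rw [iterate_succ_apply', iterate_succ_apply', ih, T.h1 _ this.1 this.2.1 this.2.2]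
  exact c4 fun k => ⟨k2 k, k1 k (k2 k)⟩

theorem sq {x : ZMod E} (s : Sm φ x q) : ∃ k, φ^[k] x = q := s.hit ⟨1, one_pos, T.h0⟩

theorem nq : ¬ Sm φ (q + 1) q := fun s => by simpa using s.lab T.hp

theorem np : ¬ Sm φ p q := fun s => T.n1 (s.lab T.hl)

theorem exp (x : ZMod E) : ∃ y, Sm φ x y ∧ y ∈ periodicPts φ := by
  obtain ⟨m, hm⟩ := im_per (X := Finset.univ) (ψ := φ) (fun _ _ => Finset.mem_univ _)
    (Finset.mem_univ x)
  exact ⟨_, Sm.it rfl, hm⟩

theorem f0 : q + 1 ∈ periodicPts φ ∧ Sm φ (h + 1) (q + 1) := by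
  have g1 : q + 1 ∈ periodicPts φ → Sm φ (h + 1) (q + 1) := fun pe => by
    have s : Sm φ (a + 1) (q + 1) := (Sm.it (k := 1) T.h2).sy
    rcases T.par a with ⟨k, -, e⟩ | ⟨k, e, -⟩ | ⟨k, -, e⟩ | D
    · exact (Sm.it e).sy.tr s
    · exact (T.n2 ((Sm.it e).lab T.hl)).elim
    · exact (T.nq (s.sy.tr (Sm.it e))).elim
    · obtain ⟨k, e⟩ := s.hit pe
      exact ((D k).2.2.1 (add_right_cancel ((D k).1.symm.trans e))).elim
  have g2 : h + 1 ∈ periodicPts φ → ¬ Sm φ (h + 1) q → q + 1 ∈ periodicPts φ := fun pe n => by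
    have s : Sm φ (o + 1) (h + 1) := (Sm.it (k := 1) T.h3).sy
    rcases T.par o with ⟨k, e, -⟩ | ⟨k, -, e⟩ | ⟨k, -, e⟩ | D
    · exact (T.n3 ((Sm.it e).lab T.hl)).elim
    · obtain ⟨K, K0, pe⟩ := pe
      exact ⟨K, K0, by rw [← e, ← T.h3]; exact pe.apply.apply_iterate k⟩
    · exact (n (s.sy.tr (Sm.it e))).elim
    · obtain ⟨k, e⟩ := s.hit pe
      exact ((D k).2.1 (add_right_cancel ((D k).1.symm.trans e))).elim
  have key : ∀ (s : ℕ) (y : ZMod E), y = q + s → y ∈ periodicPts φ → ¬ Sm φ y q →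
      q + 1 ∈ periodicPts φ := fun s => by
    induction s with
    | zero => exact fun y e _ n => (n (by rw [e]; simpa using Sm.rf q)).elim
    | succ s ih =>
      rintro y e ⟨K, K0, pe⟩ n
      rw [Nat.cast_succ, ← add_assoc] at e
      subst e
      rcases T.par (q + s) with ⟨k, -, e⟩ | ⟨k, -, e⟩ | ⟨k, -, e⟩ | D
      · exact g2 ⟨K, K0, e ▸ pe.apply_iterate k⟩ fun z => n ((Sm.it e).tr z)
      · exact ⟨K, K0, e ▸ pe.apply_iterate k⟩
      · exact (n (Sm.it e)).elim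
      · exact ih _ rfl ⟨K, K0, add_right_cancel ((D K).1.symm.trans pe)⟩ fun z =>
          let ⟨k, e⟩ := T.sq z; (D k).2.2.1 e
  obtain ⟨y, s, pe⟩ := T.exp p
  have := key (y - q).val y (by simp) pe fun z => T.np (s.tr z)
  exact ⟨this, g1 this⟩

theorem dd {x : ZMod E} (n : ¬ Sm φ (x + 1) q) (m : ¬ Sm φ (x + 1) (q + 1)) (k : ℕ) :
    φ^[k] (x + 1) = φ^[k] x + 1 ∧ φ^[k] x ≠ h ∧ φ^[k] x ≠ q ∧ φ^[k] x + 1 ≠ q := by
  rcases T.par x with ⟨k, -, e⟩ | ⟨k, -, e⟩ | ⟨k, -, e⟩ | D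
  exacts [(m ((Sm.it e).tr T.f0.2)).elim, (m (Sm.it e)).elim, (n (Sm.it e)).elim, D k]

theorem f2 {x y : ZMod E} (s : Sm φ (x + 1) (y + 1)) (n : ¬ Sm φ (x + 1) q)
    (m : ¬ Sm φ (x + 1) (q + 1)) : Sm φ x y ∧ ¬ Sm φ x q := by
  have d := T.dd n m
  have d' := T.dd (fun z => n (s.tr z)) fun z => m (s.tr z)
  obtain ⟨k, k', e⟩ := s
  exact ⟨⟨k, k', add_right_cancel (by rw [← (d k).1, e, (d' k').1])⟩,
    fun z => let ⟨k, e⟩ := T.sq z; (d k).2.2.1 e⟩

theorem f3 {x : ZMod E} (s : Sm φ (x + 1) (q + 1)) (n : ¬ Sm φ x q) : Sm φ x h := by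
  rcases T.par x with ⟨k, e, -⟩ | ⟨k, e, -⟩ | ⟨k, -, e⟩ | D
  · exact Sm.it e
  · exact (n (Sm.it e)).elim
  · exact (T.nq (s.sy.tr (Sm.it e))).elim
  · obtain ⟨k, e⟩ := s.hit T.f0.1
    exact ((D k).2.2.1 (add_right_cancel ((D k).1.symm.trans e))).elim

theorem f5 {x : ZMod E} (n : ¬ Sm φ x q) (s : Sm φ (x + 1) q) : Sm φ x (p - 1) := by
  rcases T.par x with ⟨k, -, e⟩ | ⟨k, e, -⟩ | ⟨k, e, -⟩ | D
  · exact (T.nq (((Sm.it e).tr T.f0.2).sy.tr s)).elim
  · exact (n (Sm.it e)).elim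
  · exact (Sm.it e).tr (Sm.it (k := 1) T.h4)
  · obtain ⟨k, e⟩ := T.sq s
    exact ((D k).2.2.2 ((D k).1.symm.trans e)).elim

theorem main : ∃ r c : ℕ, r % 2 = 1 ∧ (c % 2 = 0 ∧ c ≤ r) ∧ (∀ u : ℕ, h - u = q + 1 → r ≤ u) ∧
    (∀ s : ℕ, s ≤ r → a - s ≠ o) ∧ ∀ s s' : ℕ, s ≤ r → s' ≤ r →
      (s + s' = c ∨ s + s' = c + r + 1) → ℓ (p + s) = ℓ (a - s') := by
  classical
  have ex : ∃ u : ℕ, Sm φ (h - u) (q + 1) := ⟨(h - (q + 1)).val, by simpa using Sm.rf _⟩
  obtain ⟨r, hr, mn⟩ : ∃ r : ℕ, Sm φ (h - r) (q + 1) ∧ ∀ u : ℕ, u < r → ¬ Sm φ (h - u) (q + 1) :=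
    ⟨_, Nat.find_spec ex, fun u => Nat.find_min ex⟩
  have e1 : ∀ (x : ZMod E) (u : ℕ), x - (u + 1 : ℕ) + 1 = x - u := fun x u => by push_cast; ring
  have lf : ∀ (x : ZMod E) (u : ℕ), u < r → ¬ Sm φ (x + 1) q → Sm φ (x + 1) (h - u) →
      Sm φ x (h - (u + 1 : ℕ)) ∧ ¬ Sm φ x q := fun x u ur n s =>
    T.f2 (by rwa [e1]) n fun z => mn u ur (s.sy.tr z)
  have dn : ∀ (x : ZMod E) (u v : ℕ), u + v ≤ r → ¬ Sm φ x q → Sm φ x (h - u) →
      Sm φ (x - v) (h - (u + v : ℕ)) ∧ ¬ Sm φ (x - v) q := fun x u v => by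
    induction v with
    | zero => exact fun _ n s => by simpa using ⟨s, n⟩
    | succ v ih =>
      intro hv n s
      have := ih (by omega) n s
      exact lf _ (u + v) (by omega) (by rw [e1]; exact this.2) (by rw [e1]; exact this.1)
  have un : ∀ (x : ZMod E) (u v : ℕ), u ≤ r → v ≤ r → ¬ Sm φ x q → Sm φ x (h - u) →
      Sm φ x (h - v) → u = v := by
    have : ∀ (x : ZMod E) (u v : ℕ), v ≤ r → ¬ Sm φ x q → Sm φ x (h - u) → Sm φ x (h - v) →
        ¬ u < v := fun x u v hv n s s' z => by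
      have k1 := (dn x u (r - v) (by omega) n s).1
      have k2 := (dn x v (r - v) (by omega) n s').1
      rw [Nat.add_sub_cancel' hv] at k2
      exact mn _ (by omega) (k1.sy.tr (k2.tr hr))
    exact fun x u v hu hv n s s' => by
      have k1 := this x u v hv n s s'
      have k2 := this x v u hu n s' s
      omega
  have st : ∀ (x : ZMod E) (u : ℕ), u ≤ r → ¬ Sm φ x q → ¬ Sm φ (x + 1) q → Sm φ (x + 1) (h - u) →
      Sm φ x (h - (if u = r then 0 else u + 1 : ℕ)) := fun x u ur n n' s => by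
    split_ifs with z
    · simpa using T.f3 (s.tr (z ▸ hr)) n
    · exact (lf x u (by omega) n' s).1
  have ty : ∀ x, ¬ Sm φ x q → ∃ u : ℕ, u ≤ r ∧ Sm φ x (h - u) := by
    have key : ∀ (s : ℕ) (y : ZMod E), y + s = q → y ∈ periodicPts φ → ¬ Sm φ y q →
        ∃ u : ℕ, u ≤ r ∧ Sm φ y (h - u) := fun s => by
      induction s with
      | zero => exact fun y e _ n => (n (by rw [← e]; simpa using Sm.rf y)).elim
      | succ s ih =>
        rintro y e ⟨K, K0, pe⟩ n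
        rcases T.par y with ⟨k, e, -⟩ | ⟨k, e, -⟩ | ⟨k, e, -⟩ | D
        · exact ⟨0, by omega, by simpa using Sm.it e⟩
        · exact (n (Sm.it e)).elim
        · have s : Sm φ (p - 1) (q - 1) := (Sm.it (k := 1) T.h4).sy
          have s' := (Sm.it e).tr s.sy
          rcases T.par (p - 1) with ⟨k, e', -⟩ | ⟨k, e', -⟩ | ⟨k, -, e'⟩ | D
          · exact ⟨0, by omega, by simpa using s'.tr (Sm.it e')⟩
          · exact (n (s'.tr (Sm.it e'))).elim
          · exact (T.np (Sm.it (by simpa using e'))).elim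
          · obtain ⟨k', e'⟩ := s.hit ⟨K, K0, e ▸ pe.apply_iterate k⟩
            exact ((D k').2.2.2 (by rw [e', sub_add_cancel])).elim
        · have n' : ¬ Sm φ (y + 1) q := fun z =>
            let ⟨k, e⟩ := T.sq z; (D k).2.2.2 ((D k).1.symm.trans e)
          obtain ⟨u, ur, s⟩ := ih (y + 1) (by rw [← e]; push_cast; ring)
            ⟨K, K0, (D K).1.trans (congrArg (· + 1) pe)⟩ n'
          exact ⟨_, by split_ifs <;> omega, st y u ur n n' s⟩
    intro x n
    obtain ⟨y, s, pe⟩ := T.exp x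
    obtain ⟨u, ur, s'⟩ := key (q - y).val y (by simp) pe fun z => n (s.tr z)
    exact ⟨u, ur, s.tr s'⟩
  have na : ¬ Sm φ a q := fun s => T.n2 (s.lab T.hl)
  have ah : Sm φ a h := T.f3 (Sm.it (k := 1) T.h2).sy na
  have la := fun v hv => dn a 0 v hv na (by simpa using ah)
  simp only [zero_add] at la
  obtain ⟨c, cr, sc⟩ := ty p T.np
  have rp : ∀ s : ℕ, s ≤ r → ¬ Sm φ (p + s) q ∧
      Sm φ (p + s) (h - (if s ≤ c then c - s else c + r + 1 - s : ℕ)) := fun s => by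
    induction s with
    | zero => exact fun _ => by simpa using ⟨T.np, sc⟩
    | succ s ih =>
      intro hs
      obtain ⟨n, k⟩ := ih (by omega)
      rw [Nat.cast_succ, ← add_assoc]
      have n' : ¬ Sm φ (p + s + 1) q := fun z => by
        have k1 := T.f5 n z
        have k2 := st (p - 1) c cr (fun y => n (k1.tr y)) (by simpa using T.np) (by simpa using sc)
        have := un _ _ _ (by split_ifs <;> omega) (by split_ifs <;> omega) n k (k1.tr k2)
        split_ifs at this <;> omega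
      obtain ⟨u, ur, k1⟩ := ty _ n'
      have := un _ _ _ (by split_ifs <;> omega) (by split_ifs <;> omega) n k (st _ u ur n n' k1)
      exact ⟨n', by convert k1 using 3; split_ifs at this ⊢ <;> omega⟩
  have p1 := hr.lab T.hp
  have p2 := T.f0.2.lab T.hp
  have p3 := sc.lab T.hp
  have p4 := T.hp (q - 1)
  rw [T.h4] at p4
  simp only [map_sub, map_add, map_one, map_natCast, add_left_inj, sub_left_inj] at p1 p2 p3 p4
  refine ⟨r, c, ?_, ⟨?_, cr⟩, fun u e => not_lt.1 fun z => mn u z (e ▸ Sm.rf _), fun s hs e => ?_,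
    fun s s' hs hs' e => ((rp s hs).2.tr ?_).lab T.hl⟩
  · rw [← ZMod.natCast_eq_one_iff_odd.trans Nat.odd_iff]
    rw [p2] at p1
    have : (r : ZMod 2) = -1 := by linear_combination -p1
    exact this.trans (by decide)
  · rw [← ZMod.natCast_eq_zero_iff_even.trans Nat.even_iff]
    linear_combination p3 + p2 - p4
  · exact T.n3 ((T.f3 ((Sm.it (k := 1) T.h3).sy.tr T.f0.2) (e ▸ (la s hs).2)).lab T.hl)
  · convert (la s' hs').1.sy using 3
    split_ifs <;> omega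

end Tw

/-- two shifts cover all places but one -/
theorem tl {β : Type*} {V : ℤ → β} {e h o a p : ℤ} (per : ∀ t, V (t + e) = V t)
    (H : e % 2 = 0 ∧ h % 2 = 0 ∧ (a - p) % 2 = 0 ∧ o + 2 ≤ p ∧ p - o < e)
    (B : ∀ t, o < t → t < p → V (t + h) = V t)
    (C : ∀ s, 0 < s → s ≤ e - (p - o) → V (p + h + s) = V (a + s))
    (n1 : V p ≠ V (p + h)) (n2 : V a ≠ V (p + h)) (n3 : V o ≠ V (o + h)) :
    ∃ ρ κ : ℤ, κ < ρ ∧ 0 ≤ κ ∧ 2 * ρ ≤ e - (p - o) ∧ (o ≤ a → 2 * ρ ≤ a - o) ∧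
      ∀ s s', 0 ≤ s → s < 2 * ρ → 0 ≤ s' → s' < 2 * ρ →
        (s + s' = 2 * κ ∨ s + s' = 2 * κ + 2 * ρ) → V (p + s) = V (a - s') := by
  classical
  obtain ⟨E, rfl⟩ := Int.eq_ofNat_of_zero_le (by omega : 0 ≤ e)
  obtain ⟨D, hD⟩ := Int.eq_ofNat_of_zero_le (by omega : 0 ≤ p - o)
  have : NeZero E := ⟨by omega⟩
  let ℓ : ZMod E → β := fun x => V (x.val : ℤ)
  have hl : ∀ t : ℤ, ℓ (t : ZMod E) = V t := fun t => by
    simp only [ℓ]
    rw [ZMod.val_intCast, ← per_mul per (t / E) (t % E)]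
    congr 1
    rw [mul_comm]; exact Int.emod_add_mul_ediv _ _
  let w : ZMod E → ℕ := fun x => (x - ((o + h : ℤ) : ZMod E)).val
  have wx : ∀ x, x = ((o + h + w x : ℤ) : ZMod E) := fun x => by simp [w]
  have wl : ∀ x, w x < E := fun x => ZMod.val_lt _
  have wc : ∀ (v : ℕ), v < E → w ((o + h + v : ℤ) : ZMod E) = v := fun v hv => by
    simp [w, ZMod.val_natCast, Nat.mod_eq_of_lt hv]
  have wi : ∀ x (v : ℕ), w x = v → x = ((o + h + v : ℤ) : ZMod E) := fun x v z => z ▸ wx x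
  let φ : ZMod E → ZMod E := fun x => if w x = D then x else
    if 0 < w x ∧ w x < D then x - (h : ZMod E) else x - ((p + h - a : ℤ) : ZMod E)
  have eq : ((p + h : ℤ) : ZMod E) = ((o + h + D : ℤ) : ZMod E) := by congr 1; omega
  have c2 : ∀ t : ℤ, t % 2 = 0 → ZMod.castHom (show 2 ∣ E by omega) (ZMod 2) (t : ZMod E) = 0 :=
    fun t ht => by rw [map_intCast, ZMod.intCast_zmod_eq_zero_iff_dvd]; omega
  have T : Tw φ ℓ (ZMod.castHom (show 2 ∣ E by omega) (ZMod 2)) ((p + h : ℤ) : ZMod E)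
      ((o + h : ℤ) : ZMod E) (o : ZMod E) (a : ZMod E) (p : ZMod E) := by
    refine ⟨by simp only [φ, eq, wc D (by omega), if_true], fun x x1 x2 x3 => ?_, ?_, ?_, ?_,
      fun x => ?_, fun x => ?_, by rwa [hl, hl], by rwa [hl, hl], by rwa [hl, hl]⟩
    · have a1 : w x ≠ 0 := fun z => x1 (by simpa using wi x 0 z)
      have a2 : w x ≠ D := fun z => x2 (eq ▸ wi x D z)
      have a3 : w (x + 1) ≠ D := fun z => x3 (eq ▸ wi _ D z)
      have a4 := wl x
      have a5 : w (x + 1) = if w x + 1 < E then w x + 1 else 0 := by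
        split_ifs with z
        · rw [← wc _ z]; congr 1; conv_lhs => rw [wx x]
          push_cast; ring
        · rw [← wc 0 (by omega)]; congr 1; conv_lhs => rw [wx x]
          have : ((w x : ℤ) : ZMod E) + 1 = 0 := by
            rw [Int.cast_natCast, ← Nat.cast_succ, show (w x).succ = E by omega, ZMod.natCast_self]
          push_cast at this ⊢
          linear_combination this
      simp only [φ, if_neg a2, if_neg a3]
      by_cases z : 0 < w x ∧ w x < D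
      · rw [if_pos z, if_pos (by split_ifs at a5 <;> omega)]; ring
      · rw [if_neg z, if_neg (by split_ifs at a5 <;> omega)]; ring
    · have : w (((p + h : ℤ) : ZMod E) + 1) = D + 1 ∨ w (((p + h : ℤ) : ZMod E) + 1) = 0 := by
        by_cases z : D + 1 < E
        · left; rw [← wc _ z, eq]; congr 1; push_cast; ring
        · right; rw [← wc 0 (by omega), eq]; congr 1
          have : ((D + 1 : ℕ) : ZMod E) = 0 := by rw [show D + 1 = E by omega, ZMod.natCast_self]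
          push_cast at this ⊢
          linear_combination this
      simp only [φ]
      rw [if_neg (by omega), if_neg (by omega)]; push_cast; ring
    · have : w (((o + h : ℤ) : ZMod E) + 1) = 1 := by
        rw [← wc 1 (by omega)]; congr 1; push_cast; ring
      simp only [φ]
      rw [if_neg (by omega), if_pos (by omega)]; push_cast; ring
    · have : w (((p + h : ℤ) : ZMod E) - 1) = D - 1 := by
        rw [← wc (D - 1) (by omega), eq, Nat.cast_sub (by omega)]; congr 1; push_cast; ring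
      simp only [φ]
      rw [if_neg (by omega), if_pos (by omega)]; push_cast; ring
    · have a4 := wl x
      simp only [φ]
      split_ifs with z z'
      · rfl
      · rw [wx x, ← Int.cast_sub, hl, hl, ← B _ (by omega) (by omega), sub_add_cancel]
      · rw [wx x, ← Int.cast_sub, hl, hl]
        by_cases y : w x = 0
        · have := C (E - D) (by omega) (by omega)
          rw [← per, ← per (o + h + w x)]
          convert this.symm using 2 <;> omega
        · have := C (w x - D) (by omega) (by omega)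
          convert this.symm using 2 <;> omega
    · simp only [φ]
      split_ifs
      · rfl
      · rw [map_sub, c2 h (by omega), sub_zero]
      · rw [map_sub, c2 _ (by omega), sub_zero]
  obtain ⟨r, c, r1, c1, k1, k2, k3⟩ := T.main
  have k1 := k1 (E - D - 1) (by
    rw [eq, Nat.cast_sub (by omega), Nat.cast_sub (by omega), ZMod.natCast_self]; push_cast; ring)
  refine ⟨(r + 1) / 2, c / 2, by omega, by omega, by omega, fun z => ?_,
    fun s s' s0 s1 s2 s3 z => ?_⟩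
  · obtain ⟨u, hu⟩ := Int.eq_ofNat_of_zero_le (by omega : 0 ≤ a - o)
    by_contra y
    exact k2 u (by omega) (by rw [← Int.cast_natCast, ← hu]; push_cast; ring)
  · lift s to ℕ using s0
    lift s' to ℕ using s2
    have := k3 s s' (by omega) (by omega) (by omega)
    rwa [← Int.cast_natCast s, ← Int.cast_natCast s', ← Int.cast_add, ← Int.cast_sub, hl, hl]
      at this

end Pool.Agent.MP_a38735_al.WL
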