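import Pool.Agent.MP_a38735_al.MinP

set_option autoImplicit false

namespace Pool.Agent.MP_a38735_al

variable {G : Type*} [Group G] {H : Bool → Subgroup G} {n : ℕ} [NeZero n]

/-- consecutive marks alternate between the upper and the lower kind -/
def Alt (M p : ZMod n → Prop) : Prop := ∀ j l, Pc M j l → ¬ ((p j ↔ p (j + l)) ↔ Even l)

theorem side_fw {M p : ZMod n → Prop} (h : Alt M p) {i : ZMod n} {β : Prop} {s s' : ℕ}
    (hs : s < s') (c : ∀ r, r ≤ s' → M (i + r) → (p (i + r) ↔ (Even r ↔ β))) (m : M (i + s))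
    (m' : M (i + s')) : False := by
  obtain ⟨l, hl⟩ := pc_next m
  have l1 : s + l ≤ s' := by
    by_contra d
    refine hl.2.2.2 (s' - s) (by omega) (by omega) ?_
    rw [Nat.cast_sub hs.le]; simpa using m'
  have a1 := c s hs.le m
  have a2 := c (s + l) l1 (by push_cast; rw [← add_assoc]; exact hl.2.1)
  push_cast at a2
  rw [← add_assoc, Nat.even_add] at a2
  have := h _ _ hl
  rw [a1, a2] at this
  tauto

omit [NeZero n] in
theorem side_bw {M p : ZMod n → Prop} (h : Alt M p) {i : ZMod n} {β : Prop} {s s' : ℕ}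
    (hs : s < s') (c : ∀ r, r ≤ s' → M (i - r) → (p (i - r) ↔ (Even r ↔ β))) (m : M (i - s))
    (m' : M (i - s')) : False := by
  have e0 : i - s' + ((s' - s : ℕ) : ZMod n) = i - s := by rw [Nat.cast_sub hs.le]; ring
  obtain ⟨r, r1, hl⟩ := pc_prev m' (s := s' - s) (by omega) (by rwa [e0])
  have e1 : i - s' + r = i - ((s' - r : ℕ) : ZMod n) := by rw [Nat.cast_sub (by omega)]; ring
  have e2 : i - s' + r + ((s' - s - r : ℕ) : ZMod n) = i - s := by
    rw [Nat.cast_sub r1.le, Nat.cast_sub hs.le]; ring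
  have a1 := c s hs.le m
  have a2 := c (s' - r) (by omega) (e1 ▸ hl.1)
  have := h _ _ hl
  rw [e2, e1, a1, a2, show s' - r = (s' - s - r) + s by omega, Nat.even_add] at this
  tauto

theorem side_one {M p : ZMod n → Prop} (h : Alt M p) (a : Bool × ZMod n) {β : Prop} {s s' : ℕ}
    (c : ∀ r, r ≤ max s s' → M (jn (cn^[r] a)) → (p (jn (cn^[r] a)) ↔ (Even r ↔ β)))
    (m : M (jn (cn^[s] a))) (m' : M (jn (cn^[s'] a))) : s = s' := by
  wlog hs : s < s' generalizing s s'
  · by_contra d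
    exact d (this (by rwa [max_comm]) m' m (by omega)).symm
  rw [max_eq_right hs.le] at c
  obtain ⟨b, i⟩ := a
  cases b
  · simp only [jn_f] at c m m'
    exact (side_bw h hs c m m').elim
  · simp only [jn_t] at c m m'
    exact (side_fw h hs c m m').elim

theorem cnt_le_two {x : ZMod n → G} {mk : Fin 4 → ZMod n} {a a' : Bool × ZMod n}
    (h1 : ∀ t t' s s', Mt x a a' (max s s') → jn (cn^[s] a) = mk t → jn (cn^[s'] a) = mk t' →
      t = t')
    (h2 : ∀ t t' s s', Mt x a a' (max s s') → jn (cn^[s] a') = mk t → jn (cn^[s'] a') = mk t' →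
      t = t') : cnt x mk a a' ≤ 2 := by
  classical
  have e : cnt x mk a a' = ((Finset.univ.filter fun t => On x (mk t) a a').card : ℚ) := by
    simp [cnt, ind, Finset.sum_ite]
  rw [e]
  have mx : ∀ {s s'}, Mt x a a' s → Mt x a a' s' → Mt x a a' (max s s') := fun {s s'} c c' => by
    rcases max_choice s s' with d | d <;> rw [d] <;> assumption
  have := Finset.card_le_card_of_injOn (s := Finset.univ.filter fun t => On x (mk t) a a')
    (t := (Finset.univ : Finset Prop)) (fun t => ∃ s, Mt x a a' s ∧ jn (cn^[s] a) = mk t)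
    (fun _ _ => Finset.mem_coe.2 (Finset.mem_univ _)) (by
      intro t ht t' ht' c
      simp only [Finset.coe_filter, Finset.mem_univ, true_and, Set.mem_setOf_eq] at ht ht' c
      by_cases d : ∃ s, Mt x a a' s ∧ jn (cn^[s] a) = mk t
      · obtain ⟨s', c1, c2⟩ := c ▸ d
        obtain ⟨s, d1, d2⟩ := d
        exact h1 t t' s s' (mx d1 c1) d2 c2
      · have d' := c ▸ d
        obtain ⟨s, c1, c2⟩ := ht
        obtain ⟨s', c3, c4⟩ := ht'
        exact h2 t t' s s' (mx c1 c3) (c2.resolve_left fun z => d ⟨s, c1, z⟩)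
          (c4.resolve_left fun z => d' ⟨s', c3, z⟩))
  rw [Finset.card_univ, Fintype.card_prop] at this
  exact_mod_cast this

namespace St

variable {x : ZMod n → G} (S : St H x)

omit [NeZero n] in
theorem tm_of {a : Ar n} (h : S.T a) {s : ℕ} (hm : Mt x a.1 a.2 s)
    (m : S.Mk (jn (cn^[s] a.1))) : S.TM a := by
  have t1 := S.T_iter h hm
  have l : Lk x a (fw^[s] a) := Or.inl ⟨s, hm, Or.inl rfl⟩
  have tm : S.TM (fw^[s] a) := by
    rw [fw_iter]
    split_ifs
    · exact ⟨t1, _, lk_refl x _, m⟩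
    · exact ⟨S.T_swap _ t1, _, lk_refl x _, S.T_mk t1 m⟩
  exact l.back (Q := S.TM) (fun _ => TM.rv) (fun _ => TM.fw) tm

theorem cnt_two {M : ZMod n → Prop} (hM : ∀ j, M j → S.Mk j) (h : Alt M S.p)
    {mk : Fin 4 → ZMod n} (inj : Function.Injective mk) (hk : ∀ t, M (mk t))
    {a a' : Bool × ZMod n} (hp : fac H (cl x a) = fac H (cl x a')) (nt : ¬ S.TM (a, a')) :
    cnt x mk a a' ≤ 2 := by
  have up : ∀ {a a' : Bool × ZMod n}, S.Ab (a, a') → ∀ t t' s s', Mt x a a' (max s s') →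
      (jn (cn^[s] a) = mk t → jn (cn^[s'] a) = mk t' → t = t') ∧
      (jn (cn^[s] a') = mk t → jn (cn^[s'] a') = mk t' → t = t') := by
    intro a a' ab t t' s s' hm
    constructor <;> intro c c'
    · have := side_one h a (β := True) (s := s) (s' := s') (fun r hr m => by
        have := S.Ab_iter ab (hm.mono hr)
        have := hM _ m
        simp only [Mk] at this
        tauto) (c ▸ hk t) (c' ▸ hk t')
      exact inj (by rw [← c, ← c', this])
    · have := side_one h a' (β := False) (s := s) (s' := s') (fun r hr m => by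
        have := S.Ab_iter ab (hm.mono hr)
        have := hM _ m
        simp only [Mk] at this
        tauto) (c ▸ hk t) (c' ▸ hk t')
      exact inj (by rw [← c, ← c', this])
  rcases S.tri (a, a') hp with c | c | c
  · refine cnt_le_two (fun t t' s s' c1 c2 _ => (nt ?_).elim) (fun t t' s s' c1 c2 _ => (nt ?_).elim)
    · exact S.tm_of c (c1.mono (le_max_left _ _)) (c2 ▸ hM _ (hk t))
    · have c3 := c1.mono (le_max_left _ _)
      exact S.tm_of c c3 (S.T_mk (S.T_swap _ (S.T_iter c c3)) (c2 ▸ hM _ (hk t)))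
  · exact cnt_le_two (fun t t' s s' c1 => (up c t t' s s' c1).1)
      (fun t t' s s' c1 => (up c t t' s s' c1).2)
  · exact cnt_le_two (fun t t' s s' c1 => (up c t t' s s' c1.symm).2)
      (fun t t' s s' c1 => (up c t t' s s' c1.symm).1)

omit [NeZero n] in
theorem TM.swap {S : St H x} {a : Ar n} (h : S.TM a) : S.TM a.swap := by
  obtain ⟨h1, b, h2, h3⟩ := h
  exact ⟨S.T_swap a h1, b.swap, h2.swap, S.T_mk (S.T_back h2 h1) h3⟩

theorem hh_alt (hF : FP H) (hc : Cy H x) (hm : S.Mn) {M : ZMod n → Prop} (hM : ∀ j, M j → S.Mk j)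
    (h : Alt M S.p) {mk : Fin 4 → ZMod n} (inj : Function.Injective mk) (hk : ∀ t, M (mk t))
    (hU : ∀ t, Unb x (mk t)) : Fr H x := by
  refine hh hF hc mk hU fun c d e f1 f2 _ _ _ h6 => ?_
  have k : ∀ c d : Bool × ZMod n, fac H (cl x c) = fac H (cl x d) → ¬ S.TM (c, ci d) →
      cnt x mk c (ci d) ≤ 2 := fun c d f nt =>
    S.cnt_two hM h inj hk (by rw [cl_ci, fac_inv]; exact f) nt
  have f3 := (f1.trans f2).symm
  have r1 : cl x d * cl x e * cl x c = 1 := by
    rw [mul_assoc] at h6; exact mul_eq_one_comm.1 h6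
  have r2 : cl x e * cl x c * cl x d = 1 := by
    rw [mul_assoc]; exact mul_eq_one_comm.1 h6
  by_cases t1 : S.TM (c, ci d)
  · linarith [cnt_le x mk c (ci d), k d e f2 fun t => S.two_ends hc hm f1 f2 h6 t1 t,
      k e c f3 fun t => S.two_ends hc hm f3 f1 r2 t t1]
  · by_cases t2 : S.TM (d, ci e)
    · linarith [cnt_le x mk d (ci e), k c d f1 t1,
        k e c f3 fun t => S.two_ends hc hm f2 f3 r1 t2 t]
    · linarith [cnt_le x mk e (ci c), k c d f1 t1, k d e f2 t2]

theorem hh_odd (hF : FP H) (hc : Cy H x) (hm : S.Mn) (ho : OddRet S.p) {j k : ZMod n}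
    (hj : S.p j) (hk : S.p k) (hne : j ≠ k) (hp : fac H (x j) = fac H (x k)) : Fr H x := by
  have two : ∀ b, ∃ j k, S.p j ∧ S.p k ∧ j ≠ k ∧ fac H (x j) = b ∧ fac H (x k) = b := by
    intro b
    by_cases c : fac H (x j) = b
    · exact ⟨j, k, hj, hk, hne, c, hp ▸ c⟩
    obtain ⟨l, pl⟩ := pc_next hj
    obtain ⟨l', pl'⟩ := pc_next hk
    have f : ∀ {j l}, Pc S.p j l → fac H (x j) ≠ b → fac H (x (j + l)) = b := fun q d =>
      bool_ne_ne (fun z => ho _ _ q ((fac_par hc.hf _ _).1 z)) d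
    refine ⟨_, _, pl.2.1, pl'.2.1, fun e => ?_, f pl c, f pl' (hp ▸ c)⟩
    rcases lt_trichotomy l l' with d | rfl | d
    · refine pl'.2.2.2 (l' - l) (by have := pl.2.2.1; omega) (by have := pl.2.2.1; omega) ?_
      rw [Nat.cast_sub d.le]; convert hj using 1; linear_combination -e
    · exact hne (add_right_cancel e)
    · refine pl.2.2.2 (l - l') (by have := pl'.2.2.1; omega) (by have := pl'.2.2.1; omega) ?_
      rw [Nat.cast_sub d.le]; convert hk using 1; linear_combination e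
  have ex : ∀ b, ∃ P Q, S.p P ∧ S.p Q ∧ P ≠ Q ∧ fac H (x P) = b ∧ fac H (x Q) = b ∧
      Unb x P ∧ Unb x Q := by
    intro b
    obtain ⟨j, k, h1, h2, h3, h4, h5⟩ := two b
    obtain ⟨P, p1, p2⟩ := lx_max hc (fun j => S.p j ∧ fac H (x j) = b) ⟨j, h1, h4⟩
    obtain ⟨Q, q1, q2⟩ := lx_min hc (fun j => S.p j ∧ fac H (x j) = b) ⟨j, h1, h4⟩
    refine ⟨P, Q, p1.1, q1.1, ?_, p1.2, q1.2,
      S.unb hc p1.1 (Or.inl fun k a1 a2 a3 => p2 k ⟨a1, a2.trans p1.2⟩ a3),
      S.unb hc q1.1 (Or.inr fun k a1 a2 a3 => q2 k ⟨a1, a2.trans q1.2⟩ a3)⟩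
    rintro rfl
    by_cases c : j = P
    · have c' : k ≠ P := fun z => h3 (c.trans z.symm)
      exact (p2 k ⟨h2, h5⟩ c').asymm (q2 k ⟨h2, h5⟩ c')
    · exact (p2 j ⟨h1, h4⟩ c).asymm (q2 j ⟨h1, h4⟩ c)
  obtain ⟨P, Q, a1, a2, a3, a4, a5, a6, a7⟩ := ex true
  obtain ⟨P', Q', b1, b2, b3, b4, b5, b6, b7⟩ := ex false
  have ne : ∀ {u v : ZMod n}, fac H (x u) = true → fac H (x v) = false → u ≠ v := by
    rintro u v c d rfl; simp [c] at d
  refine S.hh_alt hF hc hm (M := S.p) (fun _ => Or.inl) (fun j l c => ?_) (mk := ![P, Q, P', Q'])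
    ?_ ?_ ?_
  · have := ho j l c
    have := c.1
    have := c.2.1
    tauto
  · have := ne a4 b4
    have := ne a4 b5
    have := ne a5 b4
    have := ne a5 b5
    intro t t'
    fin_cases t <;> fin_cases t' <;> simp <;> tauto
  · intro t; fin_cases t <;> assumption
  · intro t; fin_cases t <;> assumption

/-- the residual configuration `E F G F⁻¹` -/
structure T4 (z : ZMod n) (e f : ℕ) : Prop where
  hp : ∀ j, S.p j ↔ j = z ∨ j = z + e
  hq : ∀ j, S.q j ↔ j = z + e + f ∨ j = z - f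
  am : AM x (z + e) z f
  oe : ¬ Even e
  lt : e + 2 * f < n
  mn : S.Mn
  pos : 0 < f

theorem bar (hc : Cy H x) (hm : S.Mn) (dj : ∀ j, ¬ (S.p j ∧ S.q j))
    (up : ∀ j k, S.p j → S.p k → fac H (x j) = fac H (x k) → j = k)
    (uq : ∀ j k, S.q j → S.q k → fac H (x j) = fac H (x k) → j = k)
    {z z' : ZMod n} {t : ℕ} (hp : fac H (x z') ≠ fac H (x z)) (h : AM x z' z t) (p1 : S.p z)
    (p2 : S.p z') (q1 : S.q (z' + t)) (q2 : S.q (z - t)) : S.T4 z (z' - z).val t := by
  have e : z + ((z' - z).val : ZMod n) = z' := by simp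
  have two : ∀ {M : ZMod n → Prop}, (∀ j k, M j → M k → fac H (x j) = fac H (x k) → j = k) →
      ∀ {u v}, M u → M v → fac H (x u) ≠ fac H (x v) → ∀ j, M j ↔ j = u ∨ j = v := by
    intro M hu u v m1 m2 d j
    refine ⟨fun c => ?_, by rintro (rfl | rfl) <;> assumption⟩
    by_cases c' : fac H (x j) = fac H (x u)
    · exact Or.inl (hu _ _ c m1 c')
    · exact Or.inr (hu _ _ c m2 (bool_ne_ne c' d))
  refine ⟨by rw [e]; exact two up p1 p2 hp.symm, ?_, by rwa [e],
    odd_of hc e hp.symm, ?_, hm, Nat.pos_of_ne_zero fun c => dj z' ⟨p2, by simpa [c] using q1⟩⟩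
  · rw [e]
    refine two uq q1 q2 ?_
    have a1 := fac_par hc.hf z' t
    have a2 := fac_par hc.hf (z - t) t
    rw [sub_add_cancel] at a2
    intro c
    rw [c] at a1
    revert a1 a2 hp
    cases fac H (x z) <;> cases fac H (x z') <;> cases fac H (x (z - t)) <;> simp
  · by_contra c
    have l := ZMod.val_lt (z' - z)
    refine h.disj hc hp (s := min t (n - (z' - z).val)) (s' := n - (z' - z).val - min t (n - (z' - z).val))
      (min_le_left _ _) (by omega) ?_
    rw [Nat.cast_sub (min_le_right _ _), Nat.cast_sub l.le]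
    simp only [ZMod.natCast_val, ZMod.cast_id', id_eq, CharP.cast_eq_zero]
    ring

theorem single (hF : FP H) (hc : Cy H x) (hm : S.Mn) (hb : S.Bal) (dj : ∀ j, ¬ (S.p j ∧ S.q j))
    (up : ∀ j k, S.p j → S.p k → fac H (x j) = fac H (x k) → j = k)
    (uq : ∀ j k, S.q j → S.q k → fac H (x j) = fac H (x k) → j = k) :
    Fr H x ∨ (∃ z e f, S.T4 z e f) ∨ ∃ z e f, S.flip.T4 z e f := by
  by_contra con
  simp only [not_or, not_exists] at con
  obtain ⟨nf, c1, c2⟩ := con
  obtain ⟨⟨P, hP, fP⟩, Q, hQ, fQ⟩ := hb true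
  refine nf (S.xpair hF hc hP hQ (fun e => dj P ⟨hP, e ▸ hQ⟩) (fP.trans fQ.symm)
    (fun k a1 a2 a3 => (a3 (up _ _ a1 hP a2)).elim) (fun k a1 a2 a3 => (a3 (uq _ _ a1 hQ a2)).elim)
    ?_ ?_ ?_)
  · intro k t a1 a2 a3
    have q0 : S.q k := by simpa using (a3 0 (by omega)).2.1 (by simpa using hQ)
    have := (a3 t le_rfl).1
    constructor <;> intro e
    · exact c2 _ _ _ (S.flip.bar hc hm.flip (fun j c => dj j c.symm) uq up a1 a2 q0 hQ (e ▸ hP) (this.1 (by simpa [e] using hP)))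
    · exact c2 _ _ _ (S.flip.bar hc hm.flip (fun j c => dj j c.symm) uq up a1 a2 q0 hQ (this.2 (by simpa [e] using hP)) (e ▸ hP))
  · intro k t a1 a2 a3 e
    have p0 : S.p k := by simpa using (a3 0 (by omega)).1.1 (by simpa using hP)
    exact c1 _ _ _ (S.bar hc hm dj up uq a1 a2 p0 hP (e ▸ hQ) ((a3 t le_rfl).2.1 (by simpa [e] using hQ)))
  · intro k t a1 a2 a3 e
    have q0 : S.q k := by simpa using (a3 0 (by omega)).2.2 (by simpa using hQ)
    exact c2 _ _ _ (S.flip.bar hc hm.flip (fun j c => dj j c.symm) uq up a1.symm a2 hQ q0 (e ▸ hP)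
      ((a3 t le_rfl).1.1 (by simpa [e] using hP)))

omit [NeZero n] in
theorem cast_inj (z : ZMod n) {a b : ℕ} (ha : a < n) (hb : b < n) : z + a = z + b ↔ a = b := by
  refine ⟨fun h => ?_, fun h => by rw [h]⟩
  have := (ZMod.natCast_eq_natCast_iff' a b n).1 (add_left_cancel h)
  rwa [Nat.mod_eq_of_lt ha, Nat.mod_eq_of_lt hb] at this

namespace T4

variable {S} {z : ZMod n} {e f : ℕ} (h : S.T4 z e f)
include h

theorem epos : 0 < e := Nat.pos_of_ne_zero fun c => h.oe (by simp [c])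

theorem q2_eq : z - f = z + ((n - f : ℕ) : ZMod n) := by
  rw [Nat.cast_sub (by have := h.lt; omega)]; simp [sub_eq_add_neg]

theorem p_iff {a : ℕ} (ha : a < n) : S.p (z + a) ↔ a = 0 ∨ a = e := by
  have := h.lt
  rw [h.hp, cast_inj z ha (b := e) (by omega), ← cast_inj z ha (b := 0) (by omega)]
  simp

theorem q_iff {a : ℕ} (ha : a < n) : S.q (z + a) ↔ a = e + f ∨ a = n - f := by
  have := h.lt
  have := h.pos
  rw [h.hq, h.q2_eq, cast_inj z ha (b := n - f) (by omega), ← cast_inj z ha (b := e + f) (by omega)]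
  simp [add_assoc]

theorem mk_iff {a : ℕ} (ha : a < n) : S.Mk (z + a) ↔ a = 0 ∨ a = e ∨ a = e + f ∨ a = n - f := by
  rw [Mk, h.p_iff ha, h.q_iff ha, or_assoc]

theorem even_n (hc : Cy H x) : Even n := even_of hc (i := z) (j := z) (by simp) rfl

theorem uniq_p (hc : Cy H x) {j k : ZMod n} (hj : S.p j) (hk : S.p k)
    (c : fac H (x j) = fac H (x k)) : j = k := by
  have := mt (fac_par hc.hf z e).1 h.oe
  rcases (h.hp j).1 hj with rfl | rfl <;> rcases (h.hp k).1 hk with d | d <;> simp_all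

theorem uniq_q (hc : Cy H x) {j k : ZMod n} (hj : S.q j) (hk : S.q k)
    (c : fac H (x j) = fac H (x k)) : j = k := by
  have l := h.lt
  have : fac H (x (z - f)) ≠ fac H (x (z + e + f)) := fun c => h.oe (by
    have := even_of hc (t := e + 2 * f) (by push_cast; ring) c
    simpa [Nat.even_add] using this)
  rcases (h.hq j).1 hj with rfl | rfl <;> rcases (h.hq k).1 hk with d | d
  · exact d.symm
  · exact (this (d ▸ c.symm)).elim
  · exact (this (d ▸ c)).elim
  · exact d.symm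

theorem unb_p (hc : Cy H x) {j : ZMod n} (hj : S.p j) : Unb x j :=
  S.unb hc hj (Or.inl fun _ a1 a2 a3 => (a3 (h.uniq_p hc a1 hj a2)).elim)

theorem unb_q (hc : Cy H x) {j : ZMod n} (hj : S.q j) : Unb x j :=
  S.flip.unb hc hj (Or.inl fun _ a1 a2 a3 => (a3 (h.uniq_q hc a1 hj a2)).elim)

theorem even_fr (hF : FP H) (hc : Cy H x) (ev : Even f) : Fr H x := by
  have l := h.lt
  have l1 := h.pos
  have l2 := h.epos
  have pc : ∀ a b : ℕ, a < b → b ≤ n → S.Mk (z + a) → S.Mk (z + b) →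
      (∀ r, a < r → r < b → ¬ (r = 0 ∨ r = e ∨ r = e + f ∨ r = n - f)) →
      Pc S.Mk (z + a) (b - a) := by
    intro a b a1 a2 a3 a4 a5
    refine ⟨a3, by rw [Nat.cast_sub a1.le]; simpa using a4, by omega, fun r r1 r2 c => ?_⟩
    rw [add_assoc, ← Nat.cast_add, h.mk_iff (by omega)] at c
    exact a5 _ (by omega) (by omega) c
  have m0 : S.Mk (z + (0 : ℕ)) := (h.mk_iff (by omega)).2 (by omega)
  have m1 : S.Mk (z + e) := (h.mk_iff (by omega)).2 (by omega)
  have m2 : S.Mk (z + (e + f : ℕ)) := (h.mk_iff (by omega)).2 (by omega)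
  have m3 : S.Mk (z + (n - f : ℕ)) := (h.mk_iff (by omega)).2 (by omega)
  have en := h.even_n hc
  have oe := h.oe
  refine S.hh_alt hF hc h.mn (M := S.Mk) (fun _ c => c) (fun j l c => ?_)
    (mk := fun t => z + (![0, e, e + f, n - f] t : ℕ)) ?_ ?_ ?_
  · obtain ⟨a, rfl, ha⟩ : ∃ a : ℕ, j = z + a ∧ a < n := ⟨(j - z).val, by simp, ZMod.val_lt _⟩
    rcases (h.mk_iff ha).1 c.1 with rfl | rfl | rfl | rfl
    · obtain rfl := c.uniq (pc 0 e l2 (by omega) m0 m1 (by omega))
      rw [add_assoc, ← Nat.cast_add, h.p_iff ha, h.p_iff (by omega)]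
      simpa using oe
    · obtain rfl := c.uniq (pc a (a + f) (by omega) (by omega) m1 m2 (by omega))
      rw [add_assoc, ← Nat.cast_add, h.p_iff ha, h.p_iff (by omega), Nat.add_sub_cancel_left]
      simp [ev]
      omega
    · obtain rfl := c.uniq (pc (e + f) (n - f) (by omega) (by omega) m2 m3 (by omega))
      rw [add_assoc, ← Nat.cast_add, h.p_iff ha, h.p_iff (by omega)]
      simp only [Nat.even_iff] at *
      omega
    · obtain rfl := c.uniq (pc (n - f) n (by omega) le_rfl m3 (by simpa using m0) (by omega))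
      rw [add_assoc, ← Nat.cast_add, h.p_iff ha, show n - f + (n - (n - f)) = n by omega,
        show z + (n : ZMod n) = z + (0 : ℕ) by simp, h.p_iff (by omega),
        show n - (n - f) = f by omega]
      simp [ev]
      omega
  · intro t t' c
    have lt : ∀ t, (![0, e, e + f, n - f] t : ℕ) < n := by
      intro t; fin_cases t <;> simp <;> omega
    rw [cast_inj z (lt t) (lt t')] at c
    fin_cases t <;> fin_cases t' <;> simp at c ⊢ <;> omega
  · intro t; fin_cases t <;> assumption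
  · intro t
    have : S.Mk (z + (![0, e, e + f, n - f] t : ℕ)) := by fin_cases t <;> assumption
    exact this.elim (h.unb_p hc) (h.unb_q hc)

end T4

end St

theorem reduce (hF : FP H) {x : ZMod n → G} (hc : Cy H x) :
    Fr H x ∨ ∃ (S : St H x) (z : ZMod n) (e f : ℕ), S.T4 z e f ∧ ¬ Even f := by
  by_contra con
  rw [not_or] at con
  obtain ⟨nf, con⟩ := con
  obtain ⟨S, hb, hm⟩ := (exists_min hF hc).resolve_left nf
  have uq : ∀ S : St H x, S.Mn → St.OddRet S.p →
      ∀ j k, S.p j → S.p k → fac H (x j) = fac H (x k) → j = k := by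
    intro S hm ho j k a1 a2 a3
    by_contra c
    exact nf (S.hh_odd hF hc hm ho a1 a2 c a3)
  have fin : ∀ S : St H x, S.Mn → S.Bal → (∀ j, ¬ (S.p j ∧ S.q j)) → St.OddRet S.p → False := by
    intro S hm hb dj ho
    have up := uq S hm ho
    rcases S.single hF hc hm hb dj up (uq S.flip hm.flip (S.odd_q hc hm hb dj ho up)) with
      c | ⟨z, e, f, c⟩ | ⟨z, e, f, c⟩
    · exact nf c
    · exact con ⟨_, z, e, f, c, fun d => nf (c.even_fr hF hc d)⟩
    · exact con ⟨_, z, e, f, c, fun d => nf (c.even_fr hF hc d)⟩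
  rcases S.dj with dj | dj
  · rcases S.odd_or hc hm hb dj with c | c
    · exact fin S hm hb dj c
    · exact fin S.flip hm.flip hb.flip (fun j c => dj j c.symm) c
  · have up := uq S hm (fun j l c => by
      obtain rfl := c.uniq (l' := 1) ⟨(dj _).1, (dj _).1, one_pos, fun r _ _ => by omega⟩
      simp)
    refine nf (hh hF hc (fun _ => 0) (fun _ => S.unb hc (dj 0).1
      (Or.inl fun k a1 a2 a3 => (a3 (up _ _ a1 (dj 0).1 a2)).elim)) ?_)
    rintro ⟨b, i⟩ ⟨b', j⟩ ⟨b'', k⟩ f1 f2 h3 h4 h5 h6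
    rw [fac_cl, fac_cl] at f1 f2
    obtain rfl : i = j := up _ _ (dj _).1 (dj _).1 f1
    obtain rfl : i = k := up _ _ (dj _).1 (dj _).1 f2
    have : b' = b ∧ b'' = b := by
      revert h3 h4 h5
      cases b <;> cases b' <;> cases b'' <;> simp [ci]
    obtain ⟨rfl, rfl⟩ := this
    exact (St.cl_cube hc _ h6).elim

end Pool.Agent.MP_a38735_al
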