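import Pool.Agent.MP_a38735_al.WP

set_option autoImplicit false
set_option linter.unusedSectionVars false

namespace Pool.Agent.MP_a38735_al.WL

variable {G : Type*} [Group G] {W : ℤ → G} {n Q r dN : ℤ} {h : ℤ → ℤ}

theorem exists_sum (f : ℤ → ℤ) : ∃ h : ℤ → ℤ, ∀ t, h (t + 1) = h t + f t := by
  refine ⟨fun t => Int.rec (fun k => Nat.rec 0 (fun k a => a + f k) k)
    (fun k => Nat.rec (-f (-1)) (fun k a => a - f (Int.negSucc (k + 1))) k) t, fun t => ?_⟩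
  rcases t with k | _ | k
  · rfl
  · show (0 : ℤ) = -f (-1) + f (-1)
    ring
  · show _ = _ - _ + _
    rw [sub_add_cancel]; rfl

theorem const_of_step {D : ℤ → ℤ} {a b : ℤ} (k : ∀ t, a ≤ t → t < b → D (t + 1) = D t) (x : ℤ)
    (h1 : a ≤ x) (h2 : x ≤ b) : D x = D a := by
  induction x, h1 using Int.leInduction with
  | base => rfl
  | succ x ax ih => rw [k x ax (by omega), ih (by omega)]

/-- `h` adds up `φ` over the letters in positions congruent to `r` modulo two -/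
structure H0 (W : ℤ → G) (n r : ℤ) (h : ℤ → ℤ) (dN : ℤ) (φ : G → ℤ) : Prop where
  per : ∀ t, W (t + n) = W t
  ev : n % 2 = 0
  on : ∀ t, (t - r) % 2 = 0 → h (t + 1) = h t + φ (W t)
  off : ∀ t, (t - r) % 2 = 1 → h (t + 1) = h t
  hp : ∀ t, h (t + n) = h t + dN
  bd : ∀ x, -1 ≤ φ x ∧ φ x ≤ 1

theorem ex0 (al : AL W n Q) (r : ℤ) (φ : G → ℤ) (bd : ∀ x, -1 ≤ φ x ∧ φ x ≤ 1) :
    ∃ h dN, H0 W n r h dN φ := by
  obtain ⟨h, hh⟩ := exists_sum fun t => if (t - r) % 2 = 0 then φ (W t) else 0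
  have ev := al.ev
  have st : ∀ t, h (t + 1 + n) - h (t + 1) = h (t + n) - h t := fun t => by
    rw [add_right_comm, hh, hh, al.per, show (t + n - r) % 2 = (t - r) % 2 by omega]; ring
  refine ⟨h, h n - h 0, al.per, ev, fun t u => by rw [hh, if_pos u],
    fun t u => by rw [hh, if_neg (by omega), add_zero], fun t => ?_, bd⟩
  have a := const_of_step (D := fun t => h (t + n) - h t) (a := min t 0) (b := max t 0)
    fun t _ _ => st t
  have a1 := a t (by omega) (by omega)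
  have a2 := a 0 (by omega) (by omega)
  simp only [zero_add] at a1 a2
  omega

variable {φ : G → ℤ}

theorem H0.hper (hh : H0 W n r h dN φ) (m x : ℤ) : h (x + m * n) = h x + m * dN := by
  induction m using Int.induction_on with
  | zero => simp
  | succ k ih => rw [show x + ((k : ℤ) + 1) * n = x + k * n + n by ring, hh.hp, ih]; ring
  | pred k ih =>
    have := hh.hp (x + (-(k : ℤ) - 1) * n)
    rw [show x + (-(k : ℤ) - 1) * n + n = x + -k * n by ring, ih] at this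
    linarith

theorem H0.mev (hh : H0 W n r h dN φ) (m : ℤ) : (m * n) % 2 = 0 := by
  obtain ⟨g, e⟩ : ∃ u, n = 2 * u := ⟨n / 2, by have := hh.ev; omega⟩
  have : m * n = 2 * (m * g) := by rw [e]; ring
  omega

theorem ext_const {D : ℤ → ℤ} {a b r : ℤ} (k : ∀ t, a ≤ t → t < b → D (t + 1) = D t)
    (o : ∀ t, (t - r) % 2 = 1 → D (t + 1) = D t) (x : ℤ)
    (h1 : a ≤ x ∨ (a = x + 1 ∧ (x - r) % 2 = 1)) (h2 : x ≤ b ∨ (x = b + 1 ∧ (x - r) % 2 = 0)) :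
    D x = D b := by
  by_cases u : a ≤ x ∧ x ≤ b
  · rw [const_of_step k x u.1 u.2, const_of_step k b (by omega) le_rfl]
  by_cases v : x = b + 1
  · rw [v, o b (by omega)]
  by_cases w : x = b
  · rw [w]
  · rw [← o x (by omega), const_of_step k (x + 1) (by omega) (by omega),
      const_of_step k b (by omega) le_rfl]

theorem H0.par (hh : H0 W n r h dN φ) {a b g : ℤ} (k : Par W a b g) (g2 : g % 2 = 0) :
    ∃ d, ∀ m x y, (a + m * n ≤ x ∨ (a + m * n = x + 1 ∧ (x - r) % 2 = 1)) ∧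
      (x ≤ b + m * n ∨ (x = b + m * n + 1 ∧ (x - r) % 2 = 0)) ∧ y = x + g → h y = h x + d := by
  refine ⟨h (b + g) - h b, ?_⟩
  rintro m x y ⟨h1, h2, rfl⟩
  have m2 := hh.mev m
  have o : ∀ t, (t - r) % 2 = 1 → h (t + 1 + g) - h (t + 1) = h (t + g) - h t := fun t u => by
    rw [add_right_comm, hh.off t u, hh.off _ (by omega)]
  have := ext_const (D := fun t => h (t + g) - h t) (a := a) (b := b) (r := r) (fun t u v => by
    by_cases w : (t - r) % 2 = 0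
    · show h (t + 1 + g) - _ = _
      rw [add_right_comm, hh.on t w, hh.on _ (by omega), k t u v]; ring
    · exact o t (by omega)) o (x - m * n) (by omega) (by omega)
  have a1 := hh.hper m (x - m * n)
  have a2 := hh.hper m (x - m * n + g)
  rw [sub_add_cancel] at a1
  rw [show x - m * n + g + m * n = x + g by ring] at a2
  omega

theorem H0.ant (hh : H0 W n r h dN φ) (as : ∀ x, φ x⁻¹ = -φ x) {a b c : ℤ} (k : Ant W a b c)
    (c2 : c % 2 = 0) :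
    ∃ d, (∀ m x y, (a + m * n ≤ x ∨ (a + m * n = x + 1 ∧ (x - r) % 2 = 1)) ∧
      (x ≤ b + m * n ∨ (x = b + m * n + 1 ∧ (x - r) % 2 = 0)) ∧ y = c + 1 - x + m * n →
        h y = h x + d - m * dN) ∧
      (∀ m x y, (c + 1 - b + m * n ≤ x ∨ (c + 1 - b + m * n = x + 1 ∧ (x - r) % 2 = 1)) ∧
      (x ≤ c + 1 - a + m * n ∨ (x = c + 1 - a + m * n + 1 ∧ (x - r) % 2 = 0)) ∧
        y = c + 1 - x + m * n → h y = h x - d - m * dN) := by
  have o : ∀ t, (t - r) % 2 = 1 → h (c + 1 - (t + 1)) - h (t + 1) = h (c + 1 - t) - h t :=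
    fun t u => by
      rw [show c + 1 - t = c - t + 1 by ring, show c + 1 - (t + 1) = c - t by ring, hh.off t u,
        hh.off _ (by omega)]
  have key := ext_const (D := fun t => h (c + 1 - t) - h t) (a := a) (b := b) (r := r)
    (fun t u v => by
      by_cases w : (t - r) % 2 = 0
      · show h (c + 1 - (t + 1)) - _ = h (c + 1 - t) - _
        rw [show c + 1 - t = c - t + 1 by ring, show c + 1 - (t + 1) = c - t by ring, hh.on t w,
          hh.on _ (by omega), k t u v, as]; ring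
      · exact o t (by omega)) o
  refine ⟨h (c + 1 - b) - h b, ?_, ?_⟩
  · rintro m x y ⟨h1, h2, rfl⟩
    have m2 := hh.mev m
    have := key (x - m * n) (by omega) (by omega)
    have a1 := hh.hper m (x - m * n)
    rw [sub_add_cancel] at a1
    rw [show c + 1 - (x - m * n) = c + 1 - x + m * n by ring] at this
    omega
  · rintro m x y ⟨h1, h2, rfl⟩
    have m2 := hh.mev m
    have := key (c + 1 - x + m * n) (by omega) (by omega)
    have a1 := hh.hper m (x - m * n)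
    rw [sub_add_cancel] at a1
    rw [show c + 1 - (c + 1 - x + m * n) = x - m * n by ring] at this
    omega

theorem H0.one (hh : H0 W n r h dN φ) (t : ℤ) :
    h (t + 1) - h t = φ (W t) ∨ h (t + 1) - h t = 0 := by
  by_cases w : (t - r) % 2 = 0
  · left; rw [hh.on t w]; ring
  · right; rw [hh.off t (by omega)]; ring

theorem H0.lip0 (hh : H0 W n r h dN φ) (x y : ℤ) (u : x ≤ y) :
    2 * (h y - h x) ≤ y - x + (y - r) % 2 - (x - r) % 2 ∧
      2 * (h x - h y) ≤ y - x + (y - r) % 2 - (x - r) % 2 := by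
  induction y, u using Int.leInduction with
  | base => omega
  | succ y u ih =>
    have b := hh.bd (W y)
    by_cases w : (y - r) % 2 = 0
    · have := hh.on y w; omega
    · have := hh.off y (by omega); omega

theorem H0.lip (hh : H0 W n r h dN φ) (m k y x : ℤ)
    (u : (x ≤ y + m * n + 2 * k ∧ y + m * n ≤ x + 2 * k) ∨
      (x = y + m * n + 2 * k + 1 ∧ (x - r) % 2 = 0 ∧ 0 ≤ k) ∨
      (y + m * n = x + 2 * k + 1 ∧ (x - r) % 2 = 1 ∧ 0 ≤ k)) :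
    h x ≤ h y + m * dN + k ∧ h y + m * dN ≤ h x + k := by
  rw [← hh.hper]
  generalize y + m * n = z at *
  rcases le_total x z with v | v
  · have := hh.lip0 x z v; omega
  · have := hh.lip0 z x v; omega

theorem H0.mn (hh : H0 W n r h dN φ) (p : ∀ x, 0 ≤ φ x) (x y : ℤ) (u : x ≤ y) : h x ≤ h y := by
  induction y, u using Int.leInduction with
  | base => rfl
  | succ y u ih => have := hh.one y; have := p (W y); omega

open Classical in
/-- counts one letter -/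
structure HS (W : ℤ → G) (n r : ℤ) (h : ℤ → ℤ) (dN : ℤ) : Prop where
  ex : ∃ X, H0 W n r h dN fun z => if z = X then 1 else 0

open Classical in
/-- counts one letter minus another -/
structure HD (W : ℤ → G) (n r : ℤ) (h : ℤ → ℤ) (dN : ℤ) : Prop where
  ex : ∃ X Y, X ≠ Y ∧ H0 W n r h dN fun z => if z = X then 1 else if z = Y then -1 else 0

open Classical in
/-- counts one letter minus its inverse -/
structure HA (W : ℤ → G) (n r : ℤ) (h : ℤ → ℤ) (dN : ℤ) : Prop where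
  ex : ∃ X, X ≠ X⁻¹ ∧ H0 W n r h dN fun z => if z = X then 1 else if z = X⁻¹ then -1 else 0

theorem exS (al : AL W n Q) (t : ℤ) :
    ∃ h dN, HS W n t h dN ∧ ∀ y, y = t + 1 → h y = h t + 1 := by
  classical
  obtain ⟨h, dN, hh⟩ := ex0 al t (fun z => if z = W t then 1 else 0)
    fun x => by split_ifs <;> simp
  exact ⟨h, dN, ⟨_, by convert hh⟩, fun y e => by rw [e, hh.on t (by simp)]; simp⟩

theorem exD (al : AL W n Q) {s t : ℤ} (ne : W s ≠ W t) (e : (t - s) % 2 = 0) :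
    ∃ h dN, HD W n s h dN ∧ (∀ y, y = s + 1 → h y = h s + 1) ∧
      ∀ y, y = t + 1 → h y = h t - 1 := by
  classical
  obtain ⟨h, dN, hh⟩ := ex0 al s (fun z => if z = W s then 1 else if z = W t then -1 else 0)
    fun x => by split_ifs <;> simp
  exact ⟨h, dN, ⟨_, _, ne, by convert hh⟩, fun y e => by rw [e, hh.on s (by simp)]; simp,
    fun y u => by rw [u, hh.on t e]; simp [ne.symm]; ring⟩

theorem exA (al : AL W n Q) (t : ℤ) :
    ∃ h dN, HA W n t h dN ∧ ∀ y, y = t + 1 → h y = h t + 1 := by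
  classical
  obtain ⟨h, dN, hh⟩ := ex0 al t (fun z => if z = W t then 1 else if z = (W t)⁻¹ then -1 else 0)
    fun x => by split_ifs <;> simp
  exact ⟨h, dN, ⟨_, al.ninv t, by convert hh⟩, fun y e => by rw [e, hh.on t (by simp)]; simp⟩

theorem HA.d (hh : HA W n r h dN) : HD W n r h dN :=
  let ⟨_, a, b⟩ := hh.ex; ⟨_, _, a, b⟩

theorem HS.par (hh : HS W n r h dN) {a b g : ℤ} (k : Par W a b g) (g2 : g % 2 = 0) :
    ∃ d, ∀ m x y, (a + m * n ≤ x ∨ (a + m * n = x + 1 ∧ (x - r) % 2 = 1)) ∧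
      (x ≤ b + m * n ∨ (x = b + m * n + 1 ∧ (x - r) % 2 = 0)) ∧ y = x + g → h y = h x + d :=
  let ⟨_, b⟩ := hh.ex; b.par k g2

theorem HD.par (hh : HD W n r h dN) {a b g : ℤ} (k : Par W a b g) (g2 : g % 2 = 0) :
    ∃ d, ∀ m x y, (a + m * n ≤ x ∨ (a + m * n = x + 1 ∧ (x - r) % 2 = 1)) ∧
      (x ≤ b + m * n ∨ (x = b + m * n + 1 ∧ (x - r) % 2 = 0)) ∧ y = x + g → h y = h x + d :=
  let ⟨_, _, _, b⟩ := hh.ex; b.par k g2

theorem HA.par (hh : HA W n r h dN) {a b g : ℤ} (k : Par W a b g) (g2 : g % 2 = 0) :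
    ∃ d, ∀ m x y, (a + m * n ≤ x ∨ (a + m * n = x + 1 ∧ (x - r) % 2 = 1)) ∧
      (x ≤ b + m * n ∨ (x = b + m * n + 1 ∧ (x - r) % 2 = 0)) ∧ y = x + g → h y = h x + d :=
  hh.d.par k g2

theorem HA.ant (hh : HA W n r h dN) {a b c : ℤ} (k : Ant W a b c) (c2 : c % 2 = 0) :
    ∃ d, (∀ m x y, (a + m * n ≤ x ∨ (a + m * n = x + 1 ∧ (x - r) % 2 = 1)) ∧
      (x ≤ b + m * n ∨ (x = b + m * n + 1 ∧ (x - r) % 2 = 0)) ∧ y = c + 1 - x + m * n →
        h y = h x + d - m * dN) ∧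
      (∀ m x y, (c + 1 - b + m * n ≤ x ∨ (c + 1 - b + m * n = x + 1 ∧ (x - r) % 2 = 1)) ∧
      (x ≤ c + 1 - a + m * n ∨ (x = c + 1 - a + m * n + 1 ∧ (x - r) % 2 = 0)) ∧
        y = c + 1 - x + m * n → h y = h x - d - m * dN) := by
  obtain ⟨X, a, b⟩ := hh.ex
  refine b.ant (fun x => ?_) k c2
  by_cases u : x = X
  · subst u; simp [a.symm]
  by_cases v : x = X⁻¹
  · subst v; simp [a.symm]
  · simp [u, v, inv_eq_iff_eq_inv]

theorem HS.lip (hh : HS W n r h dN) (m k y x : ℤ)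
    (u : (x ≤ y + m * n + 2 * k ∧ y + m * n ≤ x + 2 * k) ∨
      (x = y + m * n + 2 * k + 1 ∧ (x - r) % 2 = 0 ∧ 0 ≤ k) ∨
      (y + m * n = x + 2 * k + 1 ∧ (x - r) % 2 = 1 ∧ 0 ≤ k)) :
    h x ≤ h y + m * dN + k ∧ h y + m * dN ≤ h x + k :=
  let ⟨_, b⟩ := hh.ex; b.lip m k y x u

theorem HD.lip (hh : HD W n r h dN) (m k y x : ℤ)
    (u : (x ≤ y + m * n + 2 * k ∧ y + m * n ≤ x + 2 * k) ∨
      (x = y + m * n + 2 * k + 1 ∧ (x - r) % 2 = 0 ∧ 0 ≤ k) ∨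
      (y + m * n = x + 2 * k + 1 ∧ (x - r) % 2 = 1 ∧ 0 ≤ k)) :
    h x ≤ h y + m * dN + k ∧ h y + m * dN ≤ h x + k :=
  let ⟨_, _, _, b⟩ := hh.ex; b.lip m k y x u

theorem HA.lip (hh : HA W n r h dN) (m k y x : ℤ)
    (u : (x ≤ y + m * n + 2 * k ∧ y + m * n ≤ x + 2 * k) ∨
      (x = y + m * n + 2 * k + 1 ∧ (x - r) % 2 = 0 ∧ 0 ≤ k) ∨
      (y + m * n = x + 2 * k + 1 ∧ (x - r) % 2 = 1 ∧ 0 ≤ k)) :
    h x ≤ h y + m * dN + k ∧ h y + m * dN ≤ h x + k :=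
  hh.d.lip m k y x u

theorem HS.up (hh : HS W n r h dN) (m k y x : ℤ)
    (u : 0 ≤ k ∧ (x ≤ y + m * n + 2 * k ∨ (x = y + m * n + 2 * k + 1 ∧ (x - r) % 2 = 0))) :
    h x ≤ h y + m * dN + k := by
  obtain ⟨X, b⟩ := hh.ex
  by_cases v : x ≤ y + m * n
  · have := b.mn (fun x => by split_ifs <;> simp) _ _ v
    rw [b.hper] at this
    omega
  · exact (b.lip m k y x (by omega)).1

theorem HS.lo (hh : HS W n r h dN) (m k y x : ℤ)
    (u : 0 ≤ k ∧ (y + m * n ≤ x + 2 * k ∨ (y + m * n = x + 2 * k + 1 ∧ (x - r) % 2 = 1))) :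
    h y + m * dN ≤ h x + k := by
  obtain ⟨X, b⟩ := hh.ex
  by_cases v : y + m * n ≤ x
  · have := b.mn (fun x => by split_ifs <;> simp) _ _ v
    rw [b.hper] at this
    omega
  · exact (b.lip m k y x (by omega)).2

theorem HS.el (hh : HS W n r h dN) : ∃ X, ∀ t, (h (t + 1) - h t = 1 ∧ W t = X) ∨
    h (t + 1) - h t = 0 := by
  obtain ⟨X, b⟩ := hh.ex
  refine ⟨X, fun t => ?_⟩
  have := b.one t
  split_ifs at this with u <;> tauto

theorem HD.el (hh : HD W n r h dN) : ∃ X Y, ∀ t, (h (t + 1) - h t = 1 ∧ W t = X) ∨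
    (h (t + 1) - h t = -1 ∧ W t = Y) ∨ h (t + 1) - h t = 0 := by
  obtain ⟨X, Y, -, b⟩ := hh.ex
  refine ⟨X, Y, fun t => ?_⟩
  have := b.one t
  split_ifs at this with u v <;> tauto

theorem HA.el (hh : HA W n r h dN) : ∃ X, ∀ t, (h (t + 1) - h t = 1 ∧ W t = X) ∨
    (h (t + 1) - h t = -1 ∧ W t = X⁻¹) ∨ h (t + 1) - h t = 0 := by
  obtain ⟨X, -, b⟩ := hh.ex
  refine ⟨X, fun t => ?_⟩
  have := b.one t
  split_ifs at this with u v <;> tauto

theorem HS.ne0 (hh : HS W n r h dN) {s t : ℤ} (ne : W s ≠ W t) (s1 t1 : ℤ) (e1 : s1 = s + 1)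
    (e2 : t1 = t + 1) : h s1 - h s + (h t1 - h t) ≤ 1 := by
  obtain ⟨X, b⟩ := hh.el
  subst e1 e2
  rcases b s with ⟨_, u⟩ | _ <;> rcases b t with ⟨_, v⟩ | _
  · exact absurd (u.trans v.symm) ne
  all_goals omega

theorem HD.ne0 (hh : HD W n r h dN) {s t : ℤ} (ne : W s ≠ W t) (s1 t1 : ℤ) (e1 : s1 = s + 1)
    (e2 : t1 = t + 1) : h s1 - h s + (h t1 - h t) ≤ 1 ∧ -1 ≤ h s1 - h s + (h t1 - h t) := by
  obtain ⟨X, Y, b⟩ := hh.el
  subst e1 e2
  rcases b s with ⟨_, u⟩ | ⟨_, u⟩ | _ <;> rcases b t with ⟨_, v⟩ | ⟨_, v⟩ | _ <;>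
    first | omega | exact absurd (u.trans v.symm) ne

theorem HA.ne0 (hh : HA W n r h dN) {s t : ℤ} (ne : W s ≠ W t) (s1 t1 : ℤ) (e1 : s1 = s + 1)
    (e2 : t1 = t + 1) : h s1 - h s + (h t1 - h t) ≤ 1 ∧ -1 ≤ h s1 - h s + (h t1 - h t) :=
  hh.d.ne0 ne s1 t1 e1 e2

theorem HA.ne1 (hh : HA W n r h dN) {s t : ℤ} (ne : W s ≠ (W t)⁻¹) (s1 t1 : ℤ) (e1 : s1 = s + 1)
    (e2 : t1 = t + 1) : h s1 - h s - (h t1 - h t) ≤ 1 ∧ -1 ≤ h s1 - h s - (h t1 - h t) := by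
  obtain ⟨X, b⟩ := hh.el
  subst e1 e2
  rcases b s with ⟨_, u⟩ | ⟨_, u⟩ | _ <;> rcases b t with ⟨_, v⟩ | ⟨_, v⟩ | _ <;>
    first | omega | exact absurd (by rw [u, v]; try rw [inv_inv]) ne

theorem HA.tor (hh : HA W n r h dN) {i j k : ℤ} (ne : ¬ (W i = W j ∧ W k = (W j)⁻¹))
    (i1 j1 k1 : ℤ) (e1 : i1 = i + 1) (e2 : j1 = j + 1) (e3 : k1 = k + 1) :
    h i1 - h i + (h j1 - h j) - (h k1 - h k) ≤ 2 ∧
      -2 ≤ h i1 - h i + (h j1 - h j) - (h k1 - h k) := by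
  obtain ⟨X, b⟩ := hh.el
  subst e1 e2 e3
  rcases b i with ⟨_, u⟩ | ⟨_, u⟩ | _ <;> rcases b j with ⟨_, v⟩ | ⟨_, v⟩ | _ <;>
    rcases b k with ⟨_, w⟩ | ⟨_, w⟩ | _ <;>
    first | omega | exact absurd ⟨u.trans v.symm, by rw [w, v]; try rw [inv_inv]⟩ ne

theorem HS.cj (hh : HS W n r h dN) {a b c d : ℤ} (ne : ¬ (W a = W b ∧ W c = W d))
    (a1 b1 c1 d1 : ℤ) (e1 : a1 = a + 1) (e2 : b1 = b + 1) (e3 : c1 = c + 1) (e4 : d1 = d + 1) :
    h a1 - h a + (h b1 - h b) + (h c1 - h c) + (h d1 - h d) ≤ 3 := by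
  obtain ⟨X, k⟩ := hh.el
  subst e1 e2 e3 e4
  rcases k a with ⟨_, u⟩ | _ <;> rcases k b with ⟨_, v⟩ | _ <;>
    rcases k c with ⟨_, w⟩ | _ <;> rcases k d with ⟨_, z⟩ | _ <;>
    first | omega | exact absurd ⟨u.trans v.symm, w.trans z.symm⟩ ne

theorem HD.cj (hh : HD W n r h dN) {a b c d : ℤ} (ne : ¬ (W a = W b ∧ W c = W d))
    (a1 b1 c1 d1 : ℤ) (e1 : a1 = a + 1) (e2 : b1 = b + 1) (e3 : c1 = c + 1) (e4 : d1 = d + 1) :
    h a1 - h a + (h b1 - h b) - (h c1 - h c) - (h d1 - h d) ≤ 3 ∧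
      -3 ≤ h a1 - h a + (h b1 - h b) - (h c1 - h c) - (h d1 - h d) := by
  obtain ⟨X, Y, k⟩ := hh.el
  subst e1 e2 e3 e4
  rcases k a with ⟨_, u⟩ | ⟨_, u⟩ | _ <;> rcases k b with ⟨_, v⟩ | ⟨_, v⟩ | _ <;>
    rcases k c with ⟨_, w⟩ | ⟨_, w⟩ | _ <;> rcases k d with ⟨_, z⟩ | ⟨_, z⟩ | _ <;>
    first | omega | exact absurd ⟨u.trans v.symm, w.trans z.symm⟩ ne

/-- a stacking of the junctions with least element `0` and greatest element `Q` -/
structure Ord (W : ℤ → G) (n Q : ℤ) (r : ℤ → ℤ) : Prop where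
  ev : n % 2 = 0
  rper : ∀ t, r (t + n) = r t
  inj : ∀ s t, r s = r t → n ∣ s - t
  mn : ∀ t, r 0 ≤ r t
  mx : ∀ t, r t ≤ r Q
  par : ∀ p q, W p = W q → (r p < r q ↔ r (p + 1) < r (q + 1))
  ant : ∀ p q, W p = (W q)⁻¹ → (r p < r (q + 1) ↔ r (p + 1) < r q)

variable {ρ : ℤ → ℤ}

theorem iff_of_step {D : ℤ → Prop} {a b : ℤ} (k : ∀ t, a ≤ t → t < b → (D t ↔ D (t + 1)))
    (x : ℤ) (h1 : a ≤ x) (h2 : x ≤ b) : D a ↔ D x := by
  induction x, h1 using Int.leInduction with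
  | base => rfl
  | succ x ax ih => rw [← k x ax (by omega), ih (by omega)]

theorem Ord.ne (O : Ord W n Q ρ) {s t : ℤ}
    (k : (s - t ≠ 0 ∧ -n < s - t ∧ s - t < n) ∨ (s - t) % 2 = 1) : ρ s ≠ ρ t := fun e => by
  have d := O.inj s t e
  rcases k with k | k
  · rcases lt_or_gt_of_ne k.1 with u | u
    · have := Int.le_of_dvd (by omega : 0 < -(s - t)) ((Int.dvd_neg).2 d)
      omega
    · have := Int.le_of_dvd u d
      omega
  · have := (Int.dvd_of_emod_eq_zero O.ev).trans d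
    omega

theorem Ord.mn' (O : Ord W n Q ρ) (m x y : ℤ) (e : x = m * n) : ρ x ≤ ρ y := by
  rw [e, ← zero_add (m * n), perM O.rper]; exact O.mn y

theorem Ord.mx' (O : Ord W n Q ρ) (m x y : ℤ) (e : x = Q + m * n) : ρ y ≤ ρ x := by
  rw [e, perM O.rper]; exact O.mx y

theorem Ord.parL (O : Ord W n Q ρ) (a b g x0 m : ℤ) (k : Par W a b g)
    (u : a ≤ x0 ∧ x0 ≤ b ∧ (x0 = Q + m * n ∨ x0 + g = m * n) ∧ g ≠ 0 ∧ -n < g ∧ g < n)
    (x y : ℤ) (h1 : a ≤ x) (h2 : x ≤ b) (e : y = x + g) : ρ y < ρ x := by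
  have st := iff_of_step (D := fun t => ρ (t + g) < ρ t) (a := a) (b := b) fun t u v => by
    simp only [add_right_comm t 1 g]; exact O.par _ _ (k t u v)
  subst e
  refine (st x h1 h2).1 ((st x0 u.1 u.2.1).2 (lt_of_le_of_ne ?_ (O.ne (by omega))))
  exact u.2.2.1.elim (O.mx' m _ _) (O.mn' m _ _)

theorem Ord.parG (O : Ord W n Q ρ) (a b g x0 m : ℤ) (k : Par W a b g)
    (u : a ≤ x0 ∧ x0 ≤ b ∧ (x0 = m * n ∨ x0 + g = Q + m * n) ∧ g ≠ 0 ∧ -n < g ∧ g < n)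
    (x y : ℤ) (h1 : a ≤ x) (h2 : x ≤ b) (e : y = x + g) : ρ x < ρ y := by
  have st := iff_of_step (D := fun t => ρ t < ρ (t + g)) (a := a) (b := b) fun t u v => by
    simp only [add_right_comm t 1 g]; exact O.par _ _ (k t u v).symm
  subst e
  refine (st x h1 h2).1 ((st x0 u.1 u.2.1).2 (lt_of_le_of_ne ?_ (O.ne (by omega))))
  exact u.2.2.1.elim (O.mn' m _ _) (O.mx' m _ _)

theorem Ord.antL (O : Ord W n Q ρ) (a b c x0 m : ℤ) (k : Ant W a b c)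
    (u : a ≤ x0 ∧ x0 ≤ b ∧ (x0 = Q + m * n ∨ c + 1 - x0 = m * n) ∧ c % 2 = 0)
    (x y : ℤ) (h1 : a ≤ x) (h2 : x ≤ b) (e : y = c + 1 - x) : ρ y < ρ x := by
  have st := iff_of_step (D := fun t => ρ (c + 1 - t) < ρ t) (a := a) (b := b) fun t u v => by
    simp only [show c + 1 - (t + 1) = c - t by ring, show c + 1 - t = c - t + 1 by ring]
    exact (O.ant _ _ (k t u v)).symm
  subst e
  refine (st x h1 h2).1 ((st x0 u.1 u.2.1).2 (lt_of_le_of_ne ?_ (O.ne (by omega))))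
  exact u.2.2.1.elim (O.mx' m _ _) (O.mn' m _ _)

theorem Ord.antG (O : Ord W n Q ρ) (a b c x0 m : ℤ) (k : Ant W a b c)
    (u : a ≤ x0 ∧ x0 ≤ b ∧ (x0 = m * n ∨ c + 1 - x0 = Q + m * n) ∧ c % 2 = 0)
    (x y : ℤ) (h1 : a ≤ x) (h2 : x ≤ b) (e : y = c + 1 - x) : ρ x < ρ y := by
  have st := iff_of_step (D := fun t => ρ t < ρ (c + 1 - t)) (a := a) (b := b) fun t u v => by
    simp only [show c + 1 - (t + 1) = c - t by ring, show c + 1 - t = c - t + 1 by ring]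
    exact O.ant _ _ (by rw [k t u v, inv_inv])
  subst e
  refine (st x h1 h2).1 ((st x0 u.1 u.2.1).2 (lt_of_le_of_ne ?_ (O.ne (by omega))))
  exact u.2.2.1.elim (O.mn' m _ _) (O.mx' m _ _)

theorem Ord.botL (O : Ord W n Q ρ) (m x y : ℤ) (e : x = m * n) (l : ρ y < ρ x) : False :=
  absurd (O.mn' m x y e) (not_le.2 l)

theorem Ord.botG (O : Ord W n Q ρ) (m x y : ℤ) (e : x = Q + m * n) (l : ρ x < ρ y) : False :=
  absurd (O.mx' m x y e) (not_le.2 l)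

theorem Ord.descL (O : Ord W n Q ρ) (Z : ℤ → Prop) (x0 : ℤ) (h0 : Z x0)
    (st : ∀ x, Z x → ∃ y, Z y ∧ ρ y < ρ x) : False := by
  have : ∀ k : ℕ, ∃ x, Z x ∧ ρ x ≤ ρ x0 - k := fun k => by
    induction k with
    | zero => exact ⟨x0, h0, by simp⟩
    | succ k ih =>
      obtain ⟨x, u, v⟩ := ih
      obtain ⟨y, u', v'⟩ := st x u
      exact ⟨y, u', by omega⟩
  obtain ⟨x, -, v⟩ := this ((ρ x0 - ρ 0).toNat + 1)
  have := O.mn x
  omega

theorem Ord.descG (O : Ord W n Q ρ) (Z : ℤ → Prop) (x0 : ℤ) (h0 : Z x0)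
    (st : ∀ x, Z x → ∃ y, Z y ∧ ρ x < ρ y) : False := by
  have : ∀ k : ℕ, ∃ x, Z x ∧ ρ x0 + k ≤ ρ x := fun k => by
    induction k with
    | zero => exact ⟨x0, h0, by simp⟩
    | succ k ih =>
      obtain ⟨x, u, v⟩ := ih
      obtain ⟨y, u', v'⟩ := st x u
      exact ⟨y, u', by omega⟩
  obtain ⟨x, -, v⟩ := this ((ρ Q - ρ x0).toNat + 1)
  have := O.mx x
  omega

end Pool.Agent.MP_a38735_al.WL
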