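import Pool.Agent.MP_a38735_al.WQ
import Pool.Agent.MP_a38735_al.Lam

set_option autoImplicit false

namespace Pool.Agent.MP_a38735_al.WL

variable {G : Type*} [Group G] {W : ℤ → G}

theorem Bd.cq {n L a b g a' b' g' : ℤ} (s : Bd W n L a b g) (h : a' = a ∧ b' = b ∧ g' = g) :
    Bd W n L a' b' g' := by rwa [h.1, h.2.1, h.2.2]

theorem lat {a1 a2 a3 b1 b2 b3 : G} (h : a1 * a2 * a3 = 1) (h' : b1 * b2 * b3 = 1) (e1 : b1 = a1)
    (e2 : b2 = a2) : b3 = a3 := by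
  rw [e1, e2, ← h] at h'
  exact mul_left_cancel h'

section
variable {j i k : ℤ} (h : Nd W j i k)
include h
theorem Nd.r0 : W j * W i * (W k)⁻¹ = 1 := by simp [← h.rel]
theorem Nd.r1 : W i * (W k)⁻¹ * W j = 1 := by simp [← h.rel]
theorem Nd.r2 : (W k)⁻¹ * W j * W i = 1 := by simp [← h.rel]
theorem Nd.r3 : W k * (W i)⁻¹ * (W j)⁻¹ = 1 := by simp [← h.rel]
theorem Nd.r4 : (W i)⁻¹ * (W j)⁻¹ * W k = 1 := by simp [← h.rel, mul_assoc]
theorem Nd.r5 : (W j)⁻¹ * W k * (W i)⁻¹ = 1 := by simp [← h.rel]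
end

theorem oneP {u v a b c : ℤ} (h : W v = W u) (e : a = u ∧ b = u + 1 ∧ c = v - u) : Par W a b c :=
  fun t h1 h2 => by rw [show t + c = v by omega, show t = u by omega, h]

theorem oneA {u v a b c : ℤ} (h : W v = (W u)⁻¹) (e : a = u ∧ b = u + 1 ∧ c = v + u) :
    Ant W a b c := fun t h1 h2 => by rw [show c - t = v by omega, show t = u by omega, h]

end Pool.Agent.MP_a38735_al.WL
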