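import Pool.Agent.MP_a38735_al.WR

set_option autoImplicit false
set_option linter.unusedSectionVars false

namespace Pool.Agent.MP_a38735_al.WL

variable {G : Type*} [Group G] {W : ℤ → G} {n Q : ℤ}

/-- the inverse word, read from the mark `Q` -/
def Rf (W : ℤ → G) (Q t : ℤ) : G := (W (Q - 1 - t))⁻¹

theorem Par.rf {a b g a' b' g' : ℤ} (h : Par W a b g) (al : AL W n Q) (u v : ℤ)
    (e : a + u * n ≤ Q - b' ∧ Q - a' ≤ b + u * n ∧ g' = -g + v * n) : Par (Rf W Q) a' b' g' :=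
  fun t h1 h2 => inv_inj.2 (cE (qf h al u (Q - 1 - t) (Q - 1 - t - u * n + g) (by omega))
    (WL.sh al (u - v) _ _ (by rw [e.2.2]; ring)))

theorem Par.rg {a b g a' b' g' : ℤ} (h : Par W a b g) (al : AL W n Q) (u v : ℤ)
    (e : a + g + u * n ≤ Q - b' ∧ Q - a' ≤ b + g + u * n ∧ g' = g + v * n) :
    Par (Rf W Q) a' b' g' :=
  fun t h1 h2 => inv_inj.2 (cE (pb h al u (Q - 1 - t) (Q - 1 - t - u * n - g) (by omega))
    (WL.sh al (u - v) _ _ (by rw [e.2.2]; ring)))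

theorem Ant.rf {a b c a' b' c' : ℤ} (h : Ant W a b c) (al : AL W n Q) (u v : ℤ)
    (e : a + u * n ≤ Q - b' ∧ Q - a' ≤ b + u * n ∧ c' = 2 * Q - 2 - c + v * n) :
    Ant (Rf W Q) a' b' c' :=
  fun t h1 h2 => inv_inj.2 (cE (qa h al u (Q - 1 - t) (c - (Q - 1 - t - u * n)) (by omega))
    (WL.sh al (-u - v) _ _ (by rw [e.2.2]; ring)))

theorem Par.fr {a b g : ℤ} (h : Par (Rf W Q) a b g) : Par W (Q - b - g) (Q - a - g) g :=
  fun t h1 h2 => by
    have := inv_inj.1 (h (Q - 1 - t - g) (by omega) (by omega))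
    convert this.symm using 2 <;> ring

theorem Ant.fr {a b c : ℤ} (h : Ant (Rf W Q) a b c) : Ant W (Q - b) (Q - a) (2 * Q - 2 - c) :=
  fun t h1 h2 => by
    have := inv_inj.1 (h (Q - 1 - t) (by omega) (by omega))
    rw [Rf, sub_sub_cancel] at this
    convert this using 2; ring

theorem Nd.rf {j i k j' i' k' : ℤ} (h : Nd W j i k) (al : AL W n Q) (u v w : ℤ)
    (e : j' = Q - 1 - i + u * n ∧ i' = Q - 1 - j + v * n ∧ k' = Q - 1 - k + w * n) :
    Nd (Rf W Q) j' i' k' := by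
  have e1 : Rf W Q j' = (W i)⁻¹ := inv_inj.2 (sh al (-u) _ _ (by rw [e.1]; ring))
  have e2 : Rf W Q i' = (W j)⁻¹ := inv_inj.2 (sh al (-v) _ _ (by rw [e.2.1]; ring))
  have e3 : Rf W Q k' = (W k)⁻¹ := inv_inj.2 (sh al (-w) _ _ (by rw [e.2.2]; ring))
  obtain ⟨m, rfl⟩ : ∃ m, n = 2 * m := ⟨n / 2, by have := al.ev; omega⟩
  have p : ∀ x : ℤ, x * (2 * m) = 2 * (x * m) := fun x => by ring
  have p1 := h.p1
  have p2 := h.p2
  simp only [p] at e
  refine ⟨by omega, by omega, ?_, ?_, ?_, ?_, ?_⟩ <;> simp only [e1, e2, e3, ne_eq, inv_inj]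
  exacts [h.xz, h.yz, fun z => h.yx (by rw [z, inv_inv]), fun z => h.tor ⟨z.1.symm, z.1 ▸ z.2⟩,
    by rw [← h.rel, mul_inv_rev]]

theorem Sk.rf {r : ℤ → ℤ} (h : Sk W r n Q) : Sk (Rf W Q) (fun t => -r (Q - t)) n Q := by
  have e1 : ∀ t : ℤ, Q - (t + 1) = Q - 1 - t := fun t => by ring
  have e2 : ∀ t : ℤ, Q - 1 - t + 1 = Q - t := fun t => by ring
  refine ⟨fun t => ?_, fun s t e => ?_, fun t => by simpa using h.mx _,
    fun t => by simpa using h.mn _, fun p q e => ?_, fun p q e => ?_, fun n2 => ?_⟩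
  · rw [← h.rper]; congr 2; ring
  · rw [← Int.dvd_neg]; convert h.inj _ _ (neg_inj.1 e) using 1; ring
  · simpa only [e1, e2, neg_lt_neg_iff] using (h.par _ _ (inv_inj.1 e).symm).symm
  · have := h.ant (Q - 1 - q) (Q - 1 - p) (by
      rw [show W (Q - 1 - p) = (W (Q - 1 - q))⁻¹ from inv_inj.1 e, inv_inv])
    simpa only [e1, e2, neg_lt_neg_iff] using this
  obtain ⟨x, d, L, L0, pa, n1, n2, mx, tri⟩ := h.lam n2
  refine ⟨Q - (x + L), -d, L, L0, fun t k1 k2 => ?_, ?_⟩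
  · simp only [Rf, inv_inj]
    rw [← pa (Q - 1 - t) (by omega) (by omega)]; congr 1; ring
  simp only [Rf, show Q - 1 - (Q - (x + L) + L) = x - 1 by ring, ne_eq, inv_inj,
    show Q - 1 - (Q - (x + L) + L + -d) = x - 1 + d by ring,
    show Q - 1 - (Q - (x + L) - 1) = x + L by ring,
    show Q - 1 - (Q - (x + L) - 1 + -d) = x + L + d by ring]
  refine ⟨n2, n1, fun a b g g0 gn k => ?_, fun j i k p1 p2 e m => ?_⟩
  · have := mx _ _ g g0 gn k.fr
    omega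
  · have := tri (Q - 1 - i) (Q - 1 - j) (Q - 1 - k) (by omega) (by omega)
      (by rw [← inv_inj, mul_inv_rev, e]) (by tauto)
    simp only [e1, e2, neg_lt_neg_iff] at this ⊢
    tauto

theorem AL.rf (h : AL W n Q) : AL (Rf W Q) n Q := by
  refine ⟨fun t => inv_inj.2 (sh h (-1) _ _ (by ring)), fun t z => h.ninv _ (inv_inj.1 z), h.q0,
    h.qn, h.ev, fun l l0 l1 z => h.ubQ l l0 l1 (z.fr.cq (by omega)),
    fun l l0 l1 z => h.ubP l l0 l1 (z.fr.cq (by omega)),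
    fun g g0 g1 z => h.uqU (n - g) (by omega) (by omega)
      ((z.fr.fl ⟨le_rfl, le_rfl, rfl⟩).sh h 0 1 (by omega)),
    fun g g0 g1 z => h.uqV (n - g) (by omega) (by omega)
      ((z.fr.fl ⟨le_rfl, le_rfl, rfl⟩).sh h (-1) 1 (by omega)),
    fun c z => h.auU _ (z.fr.cq ⟨by omega, by omega, rfl⟩),
    fun c z => h.auV (2 * Q - 2 - c + n) fun t k1 k2 =>
      qa z.fr h 1 t _ (by omega),
    fun t m m0 z => h.tf _ m m0 (by simpa [Rf] using z), h.stk.elim fun r k => ⟨_, k.rf⟩⟩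

theorem mx_rf {L : ℤ} (mx : ∀ a b g, 0 < g → g < n → Par W a b g → b - a ≤ L) :
    ∀ a b g, 0 < g → g < n → Par (Rf W Q) a b g → b - a ≤ L := fun a b g g0 gn k => by
  have := mx _ _ g g0 gn k.fr
  omega

end Pool.Agent.MP_a38735_al.WL
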