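import Pool.Agent.MP_a38735_al.WR
import Pool.Agent.MP_a38735_al.AD

set_option autoImplicit false

namespace Pool.Agent.MP_a38735_al.WL

variable {G : Type*} [Group G] {W : ℤ → G} {n Q : ℤ}

theorem iNP {a b : G} (h : b = a⁻¹) : b⁻¹ = a := by rw [h, inv_inv]
theorem iNN {a b : G} (h : b = a) : b⁻¹ = a⁻¹ := by rw [h]
theorem oNP {a b : G} (h : b⁻¹ = a) : b = a⁻¹ := by rw [← h, inv_inv]
theorem oNN {a b : G} (h : b⁻¹ = a⁻¹) : b = a := inv_injective h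

theorem uP (a b c : ℤ) (h : c = b - a) (e : W b = W a) : Par W a (a + 1) c :=
  oneP e ⟨rfl, rfl, h⟩

theorem uA (a b c : ℤ) (h : c = b + a) (e : W b = (W a)⁻¹) : Ant W a (a + 1) c :=
  oneA e ⟨rfl, rfl, h⟩

/-- the largest multiple of a period below a bound -/
theorem jmp (g lo hi dl : ℤ) (h : 0 < g ∧ g % 2 = 0 ∧ 0 ≤ dl)
    (Y : ∀ t, lo ≤ t → t + g < hi → W (t + g) = W t) :
    ∃ d, (dl - g < d ∧ d ≤ dl ∧ 0 ≤ d ∧ d % 2 = 0) ∧ Par W lo (hi - d) d := by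
  have h1 := Int.emod_nonneg dl h.1.ne'
  have h2 := Int.emod_lt_of_pos dl h.1
  have h3 := Int.emod_add_mul_ediv dl g
  have h4 := Int.mul_nonneg h.1.le (Int.ediv_nonneg h.2.2 h.1.le)
  have h5 : 2 ∣ g * (dl / g) := (Int.dvd_of_emod_eq_zero h.2.1).mul_right _
  exact ⟨g * (dl / g), by omega, fun t k1 k2 => per_dvd h.1 Y (by simp) (by omega)⟩

theorem ad15r (al : AL W n Q) {i j k p i2 q j3 i3 k3 a b c d e f : ℤ} (n1 : Nd W j i k)
    (n2 : Nd W p i2 q) (n3 : Nd W j3 i3 k3) (A : Par W 0 j a) (B : Par W (i + 1) p b)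
    (T : Ant W e i2 c) (D : Par W f n d)
    (h : 0 ≤ i ∧ i ≤ j ∧ j < p ∧ j < k ∧ q < n ∧ q = p + b ∧ a = k - j ∧ b = k - i ∧ c = i2 + p ∧
      c - e < i3 + 1 ∧ i3 ≤ c - e + 1 ∧ p + j < i3 + i ∧ i3 < n ∧ f = i3 + 1 ∧ d = k3 - i3 ∧
      d + n = a) : False := by
  have := n2.p1
  refine ad (p := p) (e := i3) (c := c) al n1 (by omega) (fun t h1 h2 => ?_)
    (fun t h1 h2 => qf B al 0 t _ (by omega)) (fun t h1 h2 => ab T al 0 t _ (by omega))
    (by rw [show p + (k - i) = q by omega]; exact n2.yz.symm)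
    (by rw [show i3 + (k - j) = k3 + n by omega, al.per]; exact n3.xz.symm)
  by_cases z : 0 ≤ t
  · exact qf A al 0 t _ (by omega)
  · exact qf D al (-1) t _ (by omega)

end Pool.Agent.MP_a38735_al.WL
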