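import Pool.Agent.MP_a38735_al.WT

set_option autoImplicit false
set_option linter.unusedVariables false

namespace Pool.Agent.MP_a38735_al.WL

variable {G : Type*} [Group G]

theorem ev7_9p
    (ev7_10 : ∀ {W : ℤ → G} {n Q i j k l i2 m k3 : ℤ} (al : AL W n Q) (hy : (0) ≤ (i) ∧ (i) ≤ (j) ∧ (j + 1) ≤ (Q) ∧ (Q) ≤ (k) ∧ (k + 1) ≤ (n) ∧ (Q) ≤ (i + l + 1) ∧ (k + l + 2) ≤ (n) ∧ (0) ≤ (i2) ∧ (i2 + 1) ≤ (Q) ∧ (Q + m + 1) ≤ (n + i2) ∧ (i2) ≤ (m) ∧ (Q) ≤ (i + l + m + 2) ∧ (i + l + m + 3) ≤ (n) ∧ (Q) ≤ (k3) ∧ (k3 + 1) ≤ (n) ∧ (i + m + 2) ≤ (k) ∧ (i) ≤ (i2) ∧ (i2) ≤ (i) ∧ (k3) ≤ (i + m)) (a1 : Par W (0) (j) (k - j)) (a2 : Par W (Q + j - k) (j) (k - j)) (s1 : Ant W (0) (i) (i + j)) (s2 : Ant W (j + 1) (Q) (i + j)) (b : Par W (i + 1) (i + l + 1) (k - i)) (c1 : Par W (i2 + 1) (Q) (k + l - i2 + 1)) (c2 : Par W (k + l + 2) (n) (i2 - k - l - 1)) (tt : Ant W (i2 - m) (i2) (i + l + i2 + 1)) (D1 : Par W (Q)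 (k3) (n + i2 - m - k3 - 1)) (D2 : Par W (i + l + m + 3) (n) (k3 - i - l - m - 2)) {L : ℤ} (mx : ∀ a b g, 0 < g → g < n → Par W a b g → b - a ≤ L) (hL : L ≤ (n - j - 3) ∧ L ≤ (n + Q - k - 3) ∧ L ≤ (n - l - 3) ∧ L ≤ (n + i - k - 2)) (bd0 : Bd W n L (j) (i) (k)) (n1 : Nd W (j) (i) (k)) (n2 : Nd W (i + l + 1) (i2) (k + l + 1)) (n3 : Nd W (n + i2 - m - 1) (i + l + m + 2) (k3)) (b0 : (i + l + 2 * m + 2) ≤ (n + i2)) (b1 : (2 * i + j + 1) ≤ (k)) (b2 : (i + k + l + m + 3) ≤ (n + j + k3)) (b3 : (2 * l + 3) ≤ (n)) (b4 : (k + i2) ≤ (i + j + l + 1)) (b5 : (n + k3) ≤ (2 * i + 2 * l + i2 + m + 4)) (b6 : (n + k3) ≤ (i + k + l + m + 2)), False)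
    (ev7_11 : ∀ {W : ℤ → G} {n Q i j k l i2 m k3 : ℤ} (al : AL W n Q) (hy : (0) ≤ (i) ∧ (i) ≤ (j) ∧ (j + 1) ≤ (Q) ∧ (Q) ≤ (k) ∧ (k + 1) ≤ (n) ∧ (Q) ≤ (i + l + 1) ∧ (k + l + 2) ≤ (n) ∧ (0) ≤ (i2) ∧ (i2 + 1) ≤ (Q) ∧ (Q + m + 1) ≤ (n + i2) ∧ (i2) ≤ (m) ∧ (Q) ≤ (i + l + m + 2) ∧ (i + l + m + 3) ≤ (n) ∧ (Q) ≤ (k3) ∧ (k3 + 1) ≤ (n) ∧ (i + m + 2) ≤ (k) ∧ (i) ≤ (i2) ∧ (i2) ≤ (i) ∧ (k3) ≤ (i + m)) (a1 : Par W (0) (j) (k - j)) (a2 : Par W (Q + j - k) (j) (k - j)) (s1 : Ant W (0) (i) (i + j)) (s2 : Ant W (j + 1) (Q) (i + j)) (b : Par W (i + 1) (i + l + 1) (k - i)) (c1 : Par W (i2 + 1) (Q) (k + l - i2 + 1)) (c2 : Par W (k + l + 2) (n) (i2 - k - l - 1)) (tt : Ant W (i2 - m) (i2) (i + l + i2 + 1)) (D1 : Par W (Q) (k3) (n + i2 - m - k3 - 1)) (D2 : Par W (i + l + m + 3) (n) (k3 - i - l - m - 2)) {L : ℤ} (mx : ∀ a b g, 0 < g → g < n → Par W a b g → b - a ≤ L) (hL : L ≤ (n - j - 3) ∧ L ≤ (n + Q - k - 3)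 ∧ L ≤ (n - l - 3) ∧ L ≤ (n + i - k - 2)) (bd0 : Bd W n L (j) (i) (k)) (n1 : Nd W (j) (i) (k)) (n2 : Nd W (i + l + 1) (i2) (k + l + 1)) (n3 : Nd W (n + i2 - m - 1) (i + l + m + 2) (k3)) (b0 : (i + l + 2 * m + 2) ≤ (n + i2)) (b1 : (2 * i + j + 1) ≤ (k)) (b2 : (2 * l + 3) ≤ (n)) (b3 : (k + i2) ≤ (i + j + l + 1)) (b4 : (n + k3) ≤ (2 * i + 2 * l + i2 + m + 4)) (b5 : (i + k + l + m + 3) ≤ (n + k3)), False)
    {W : ℤ → G} {n Q i j k l i2 m k3 : ℤ} (al : AL W n Q)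
    (hy : (0) ≤ (i) ∧ (i) ≤ (j) ∧ (j + 1) ≤ (Q) ∧ (Q) ≤ (k) ∧ (k + 1) ≤ (n) ∧ (Q) ≤ (i + l + 1) ∧ (k + l + 2) ≤ (n) ∧ (0) ≤ (i2) ∧ (i2 + 1) ≤ (Q) ∧ (Q + m + 1) ≤ (n + i2) ∧ (i2) ≤ (m) ∧ (Q) ≤ (i + l + m + 2) ∧ (i + l + m + 3) ≤ (n) ∧ (Q) ≤ (k3) ∧ (k3 + 1) ≤ (n) ∧ (i + m + 2) ≤ (k) ∧ (i) ≤ (i2) ∧ (i2) ≤ (i) ∧ (k3) ≤ (i + m))
    (a1 : Par W (0) (j) (k - j))
    (a2 : Par W (Q + j - k) (j) (k - j))
    (s1 : Ant W (0) (i) (i + j))
    (s2 : Ant W (j + 1) (Q) (i + j))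
    (b : Par W (i + 1) (i + l + 1) (k - i))
    (c1 : Par W (i2 + 1) (Q) (k + l - i2 + 1))
    (c2 : Par W (k + l + 2) (n) (i2 - k - l - 1))
    (tt : Ant W (i2 - m) (i2) (i + l + i2 + 1))
    (D1 : Par W (Q) (k3) (n + i2 - m - k3 - 1))
    (D2 : Par W (i + l + m + 3) (n) (k3 - i - l - m - 2))
    {L : ℤ} (mx : ∀ a b g, 0 < g → g < n → Par W a b g → b - a ≤ L)
    (hL : L ≤ (n - j - 3) ∧ L ≤ (n + Q - k - 3) ∧ L ≤ (n - l - 3) ∧ L ≤ (n + i - k - 2))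
    (bd0 : Bd W n L (j) (i) (k))
    (n1 : Nd W (j) (i) (k))
    (n2 : Nd W (i + l + 1) (i2) (k + l + 1))
    (n3 : Nd W (n + i2 - m - 1) (i + l + m + 2) (k3))
    (b0 : (i + l + 2 * m + 2) ≤ (n + i2))
    (b1 : (2 * i + j + 1) ≤ (k))
    (b2 : (i + k + l + m + 3) ≤ (n + j + k3))
    (b3 : (2 * l + 3) ≤ (n))
    (b4 : (k + i2) ≤ (i + j + l + 1))
    (b5 : (n + k3) ≤ (2 * i + 2 * l + i2 + m + 4)) : False := by
  have ev := al.ev
  obtain ⟨y0, y1, y2, y3, y4, y5, y6, y7, y8, y9, y10, y11, y12, y13, y14, y15, y16, y17, y18⟩ := id hy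
  have n1p := And.intro n1.p1 n1.p2
  have n2p := And.intro n2.p1 n2.p2
  have n3p := And.intro n3.p1 n3.p2
  by_cases z18 : (n + k3) ≤ (i + k + l + m + 2)
  · exact ev7_10 al hy a1 a2 s1 s2 b c1 c2 tt D1 D2 mx hL bd0 n1 n2 n3 (by clear * - b0; omega) (by clear * - b1; omega) (by clear * - b2; omega) (by clear * - b3; omega) (by clear * - b4; omega) (by clear * - b5; omega) (by clear * - z18; omega)
  · exact ev7_11 al hy a1 a2 s1 s2 b c1 c2 tt D1 D2 mx hL bd0 n1 n2 n3 (by clear * - b0; omega) (by clear * - b1; omega) (by clear * - b3; omega) (by clear * - b4; omega) (by clear * - b5; omega) (by clear * - z18; omega)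

theorem ev7_1p
    (ev7_2 : ∀ {W : ℤ → G} {n Q i j k l i2 m k3 : ℤ} (al : AL W n Q) (hy : (0) ≤ (i) ∧ (i) ≤ (j) ∧ (j + 1) ≤ (Q) ∧ (Q) ≤ (k) ∧ (k + 1) ≤ (n) ∧ (Q) ≤ (i + l + 1) ∧ (k + l + 2) ≤ (n) ∧ (0) ≤ (i2) ∧ (i2 + 1) ≤ (Q) ∧ (Q + m + 1) ≤ (n + i2) ∧ (i2) ≤ (m) ∧ (Q) ≤ (i + l + m + 2) ∧ (i + l + m + 3) ≤ (n) ∧ (Q) ≤ (k3) ∧ (k3 + 1) ≤ (n) ∧ (i + m + 2) ≤ (k) ∧ (i) ≤ (i2) ∧ (i2) ≤ (i) ∧ (k3) ≤ (i + m)) (a1 : Par W (0) (j) (k - j)) (a2 : Par W (Q + j - k) (j) (k - j)) (s1 : Ant W (0) (i) (i + j)) (s2 : Ant W (j + 1) (Q) (i + j)) (b : Par W (i + 1) (i + l + 1) (k - i)) (c1 : Par W (i2 + 1) (Q) (k + l - i2 + 1)) (c2 : Par W (k + l + 2) (n) (i2 - k - l - 1)) (tt : Ant W (i2 - m) (i2) (i + l + i2 + 1)) (D1 : Par W (Q) (k3) (n + i2 - m - k3 - 1)) (D2 : Par W (i + l + m + 3) (n) (k3 - i - l - m - 2)) {L : ℤ} (mx : ∀ a b g, 0 < g → g < n → Par W a b g → b - a ≤ L) (hL : L ≤ (n - j - 3) ∧ L ≤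 (n + Q - k - 3) ∧ L ≤ (n - l - 3) ∧ L ≤ (n + i - k - 2)) (bd0 : Bd W n L (j) (i) (k)) (n1 : Nd W (j) (i) (k)) (n2 : Nd W (i + l + 1) (i2) (k + l + 1)) (n3 : Nd W (n + i2 - m - 1) (i + l + m + 2) (k3)) (b0 : (i + l + 2 * m + 2) ≤ (n + i2)) (b1 : (2 * i + j + 1) ≤ (k)), False)
    {W : ℤ → G} {n Q i j k l i2 m k3 : ℤ} (al : AL W n Q)
    (hy : (0) ≤ (i) ∧ (i) ≤ (j) ∧ (j + 1) ≤ (Q) ∧ (Q) ≤ (k) ∧ (k + 1) ≤ (n) ∧ (Q) ≤ (i + l + 1) ∧ (k + l + 2) ≤ (n) ∧ (0) ≤ (i2) ∧ (i2 + 1) ≤ (Q) ∧ (Q + m + 1) ≤ (n + i2) ∧ (i2) ≤ (m) ∧ (Q) ≤ (i + l + m + 2) ∧ (i + l + m + 3) ≤ (n) ∧ (Q) ≤ (k3) ∧ (k3 + 1) ≤ (n) ∧ (i + m + 2) ≤ (k) ∧ (i) ≤ (i2) ∧ (i2) ≤ (i) ∧ (k3) ≤ (i + m))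
    (a1 : Par W (0) (j) (k - j))
    (a2 : Par W (Q + j - k) (j) (k - j))
    (s1 : Ant W (0) (i) (i + j))
    (s2 : Ant W (j + 1) (Q) (i + j))
    (b : Par W (i + 1) (i + l + 1) (k - i))
    (c1 : Par W (i2 + 1) (Q) (k + l - i2 + 1))
    (c2 : Par W (k + l + 2) (n) (i2 - k - l - 1))
    (tt : Ant W (i2 - m) (i2) (i + l + i2 + 1))
    (D1 : Par W (Q) (k3) (n + i2 - m - k3 - 1))
    (D2 : Par W (i + l + m + 3) (n) (k3 - i - l - m - 2))
    {L : ℤ} (mx : ∀ a b g, 0 < g → g < n → Par W a b g → b - a ≤ L)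
    (hL : L ≤ (n - j - 3) ∧ L ≤ (n + Q - k - 3) ∧ L ≤ (n - l - 3) ∧ L ≤ (n + i - k - 2))
    (bd0 : Bd W n L (j) (i) (k))
    (n1 : Nd W (j) (i) (k))
    (n2 : Nd W (i + l + 1) (i2) (k + l + 1))
    (n3 : Nd W (n + i2 - m - 1) (i + l + m + 2) (k3))
    (b0 : (i + l + 2 * m + 2) ≤ (n + i2)) : False := by
  have ev := al.ev
  obtain ⟨y0, y1, y2, y3, y4, y5, y6, y7, y8, y9, y10, y11, y12, y13, y14, y15, y16, y17, y18⟩ := id hy
  have n1p := And.intro n1.p1 n1.p2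
  have n2p := And.intro n2.p1 n2.p2
  have n3p := And.intro n3.p1 n3.p2
  by_cases z2 : (k) ≤ (2 * i + j)
  · by_cases v1 : (i + j + 1) ≤ (k)
    · have kk4 : (j + 1) ≤ (k) := by clear * - v1 z2; omega
      have kk5 : (k) ≤ (2 * i + j) := by clear * - z2; omega
      have kk6 : (k) ≤ (2 * i + 3 * j + 2) := by clear * - y10 y15 y16 z2; omega
      have kk7 : (0) ≤ (j + k) := by clear * - v1 y10 y15 y16 z2; omega
      have kk8 : (i + j + 1) ≤ (k) := by clear * - v1; omega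
      have r9 : (i + j - 2 * n) % 2 = 0 := by clear * - ev n1p n2p n3p; omega
      have r10 : (k - j) % 2 = 0 := by clear * - ev n1p n2p n3p; omega
      clear * - al a1 s1 kk4 kk5 kk6 kk7 kk8 r9 r10
      exact midP al (k - j) (i + j - 2 * n) (-n) (-n) (k - n) (by omega) (fun t h1 h2 => (cE (qa s1 al (-1) t ((i + j - n) - t) (by omega)) (sh al (-1) ((i + j - n) - t) ((i + j - 2 * n) - t) (by omega)))) (fun t h1 h2 => (cE (qf a1 al (-1) t (t + (n + k - j)) (by omega)) (sh al (-1) (t + (n + k - j)) (t + (k - j)) (by omega))))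
    · have kk11 : (j + 1) ≤ (k) := by clear * - y13 y15 y18 y2; omega
      have kk12 : (j + 2) ≤ (k) := by clear * - y13 y15 y18 y2; omega
      have kk13 : (0) ≤ (j + k) := by clear * - y13 y15 y16 y18 y8 z2; omega
      have kk14 : (2 * i + j + 2) ≤ (3 * k) := by clear * - v1 y10 y13 y15 y16 y18 y2; omega
      have kk15 : (k) ≤ (i + j + 1) := by clear * - v1; omega
      have r16 : (i + j - 2 * n) % 2 = 0 := by clear * - ev n1p n2p n3p; omega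
      have r17 : (k - j) % 2 = 0 := by clear * - ev n1p n2p n3p; omega
      clear * - al a1 s1 kk11 kk12 kk13 kk14 kk15 r16 r17
      exact midP al (k - j) (i + j - 2 * n) (i + j - n - k + 1) (-n) (k - n) (by omega) (fun t h1 h2 => (cE (qa s1 al (-1) t ((i + j - n) - t) (by omega)) (sh al (-1) ((i + j - n) - t) ((i + j - 2 * n) - t) (by omega)))) (fun t h1 h2 => (cE (qf a1 al (-1) t (t + (n + k - j)) (by omega)) (sh al (-1) (t + (n + k - j)) (t + (k - j)) (by omega))))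
  · exact ev7_2 al hy a1 a2 s1 s2 b c1 c2 tt D1 D2 mx hL bd0 n1 n2 n3 (by clear * - b0; omega) (by clear * - z2; omega)

theorem h8_8p
    {W : ℤ → G} {n Q i j k l i2 m k3 : ℤ} (al : AL W n Q)
    (hy : (0) ≤ (i) ∧ (i) ≤ (j) ∧ (j + 1) ≤ (Q) ∧ (Q) ≤ (k) ∧ (k + 1) ≤ (n) ∧ (Q) ≤ (i + l + 1) ∧ (k + l + 2) ≤ (n) ∧ (0) ≤ (i2) ∧ (i2 + 1) ≤ (Q) ∧ (Q + m + 1) ≤ (n + i2) ∧ (i2) ≤ (m) ∧ (Q) ≤ (i + l + m + 2) ∧ (i + l + m + 3) ≤ (n) ∧ (Q) ≤ (k3) ∧ (k3 + 1) ≤ (n) ∧ (i + m + 2) ≤ (k) ∧ (i) ≤ (i2) ∧ (i2) ≤ (i) ∧ (i + m + 2) ≤ (k3) ∧ (k3) ≤ (i + l + m + 1) ∧ (m + k3 + 2) ≤ (n + i2))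
    (a1 : Par W (0) (j) (k - j))
    (a2 : Par W (Q + j - k) (j) (k - j))
    (s1 : Ant W (0) (i) (i + j))
    (s2 : Ant W (j + 1) (Q) (i + j))
    (b : Par W (i + 1) (i + l + 1) (k - i))
    (c1 : Par W (i2 + 1) (Q) (k + l - i2 + 1))
    (c2 : Par W (k + l + 2) (n) (i2 - k - l - 1))
    (tt : Ant W (i2 - m) (i2) (i + l + i2 + 1))
    (D1 : Par W (Q) (k3) (n + i2 - m - k3 - 1))
    (D2 : Par W (i + l + m + 3) (n) (k3 - i - l - m - 2))
    {L : ℤ} (mx : ∀ a b g, 0 < g → g < n → Par W a b g → b - a ≤ L)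
    (hL : L ≤ (n - j - 3) ∧ L ≤ (n + Q - k - 3) ∧ L ≤ (n - l - 3) ∧ L ≤ (n + i - k - 2))
    (bd0 : Bd W n L (j) (i) (k))
    (n1 : Nd W (j) (i) (k))
    (n2 : Nd W (i + l + 1) (i2) (k + l + 1))
    (n3 : Nd W (n + i2 - m - 1) (i + l + m + 2) (k3))
    (b0 : (n + k3) ≤ (2 * i + 2 * l + i2 + m + 4))
    (b1 : (i + l + 1) ≤ (i2 + 2 * m))
    (b2 : (2 * i + j + 1) ≤ (k))
    (b3 : (i + l + 2 * m + 3) ≤ (n + i2))
    (b4 : (2 * i + k + 2 * l + 3 * m + k3 + 6) ≤ (2 * n + 2 * Q + j + i2))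
    (b5 : (2 * Q + k + l) ≤ (n + 2 * j + i2)) : False := by
  have ev := al.ev
  obtain ⟨y0, y1, y2, y3, y4, y5, y6, y7, y8, y9, y10, y11, y12, y13, y14, y15, y16, y17, y18, y19, y20⟩ := id hy
  have n1p := And.intro n1.p1 n1.p2
  have n2p := And.intro n2.p1 n2.p2
  have n3p := And.intro n3.p1 n3.p2
  by_cases z10 : (2 * k + l + 2) ≤ (n + Q + j)
  · by_cases z11 : (n + j + i2) ≤ (2 * k + l)
    · have kk61 : (n + j + i2) ≤ (2 * k + l) := by clear * - z11; omega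
      have kk62 : (2 * k + l + 2) ≤ (2 * n + j + i2) := by clear * - b0 b1 b2 b3 b5 y17 y18 z10; omega
      have kk63 : (2 * k + l + 2) ≤ (n + Q + j) := by clear * - z10; omega
      have kk64 : (Q + k + l + 1) ≤ (n + j + i2) := by clear * - b0 b1 b3 b5 y17 y18 y6; omega
      clear * - al a2 c1 kk61 kk62 kk63 kk64
      exact al.ubQ (2 * k + l - n - j - i2 + 1) (by omega) (by omega) fun t h1 h2 => (cE (sh al (-1) t (t + (-n)) (by omega)) (cE (qf c1 al (-1) (t + (-n)) (t + (k + l - i2 + 1)) (by omega)) (qf a2 al 1 (t + (k + l - i2 + 1)) (t + (2 * k + l - n - j - i2 + 1)) (by omega))))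
    · by_cases z12 : (2 * i + j + l + 2) ≤ (2 * k + i2)
      · have kk65 : (2 * k) ≤ (2 * i + j + l + i2 + 1) := by clear * - b0 y17 y18 z11; omega
        have kk66 : (2 * i + j + l + 2) ≤ (2 * k + i2) := by clear * - z12; omega
        have kk67 : (i2) ≤ (m) := by clear * - y10; omega
        have kk68 : (i + i2 + 1) ≤ (k) := by clear * - y10 y15; omega
        have kk69 : (i2) ≤ (j) := by clear * - y1 y17; omega
        have kk70 : (k) ≤ (i + l + 1) := by clear * - b0 b2 y17 y18 z11; omega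
        have r71 : (2 * i + l + i2 - 2 * n - j + 1) % 2 = 0 := by clear * - ev n1p n2p n3p; omega
        clear * - al a1 b tt kk65 kk66 kk67 kk68 kk69 kk70 r71
        obtain ⟨t, ht⟩ : ∃ t, 2 * t = (2 * i + l + i2 - 2 * n - j + 1) := ⟨(2 * i + l + i2 - 2 * n - j + 1) / 2, by omega⟩
        exact al.ninv t (cE (cE (cI (pb a1 al (-1) t (t + (n + j - k)) (by omega)) (qa tt al 0 (t + (n + j - k)) ((i + k + l + i2 - n - j + 1) - t) (by omega))) (pb b al 0 ((i + k + l + i2 - n - j + 1) - t) ((2 * i + l + i2 - n - j + 1) - t) (by omega))) (sh al (-1) ((2 * i + l + i2 - n - j + 1) - t) t (by omega)))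
      · have kk72 : (i + 1) ≤ (k) := by clear * - b0 b1 b2 y15 y17 y18 z11; omega
        have kk73 : (k + 2 * i2) ≤ (i + 2 * m) := by clear * - b1 b2 y17 z12; omega
        have kk74 : (3 * i + k + 2 * l + 2 * m + 6) ≤ (2 * n + 2 * k3) := by clear * - b0 b1 b2 b3 b5 y17 y18 z10 z12; omega
        have kk75 : (i + 2 * i2 + 2) ≤ (k) := by clear * - b1 b2 y15 y17 z12; omega
        have kk76 : (0) ≤ (i2) := by clear * - b0 b1 b3 y17 y18; omega
        have kk77 : (i + l + 2 * m + 3) ≤ (n + i2) := by clear * - b3; omega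
        have kk78 : (0) ≤ (l + i2 + 1) := by clear * - b0 b1 b2 b3 b4 b5 y17 y18 z12; omega
        have kk79 : (n + k3) ≤ (i + k + 2 * l + m + 3) := by clear * - b0 b1 b2 y15 y17 y18 z11 z12; omega
        have r80 : (n + i2 + k3 - m - 1) % 2 = 0 := by clear * - ev n1p n2p n3p; omega
        have r81 : (k - i) % 2 = 0 := by clear * - ev n1p n2p n3p; omega
        clear * - al b tt D2 kk72 kk73 kk74 kk75 kk76 kk77 kk78 kk79 r80 r81
        exact midP al (k - i) (n + i2 + k3 - m - 1) (i + l + i2 + 2) (i + 1) (k + l + 1) (by omega) (fun t h1 h2 => (cE (ab tt al 0 t ((i + l + i2 + 1) - t) (by omega)) (qf D2 al (-1) ((i + l + i2 + 1) - t) ((n + i2 + k3 - m - 1) - t) (by omega)))) (fun t h1 h2 => (qf b al 0 t (t + (k - i)) (by omega)))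
  · by_cases z13 : (2 * i + l + m + 3) ≤ (k + k3)
    · by_cases z14 : (2 * i + 2 * j + l + m + k3 + 4) ≤ (3 * k + 2 * i2)
      · by_cases v4 : (k + i2) ≤ (j + k3)
        · have kk82 : (2 * i + l + m + 3) ≤ (k + k3) := by clear * - v4 z14; omega
          have kk83 : (2 * i + 2 * j + l + m + k3 + 4) ≤ (3 * k + 2 * i2) := by clear * - z14; omega
          have kk84 : (4 * i + 2 * j + l + 3 * m + k3 + 6) ≤ (5 * k + 2 * i2) := by clear * - b4 v4 y19 z10 z14; omega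
          have kk85 : (4 * i + l + 3 * m + 6) ≤ (3 * k + k3) := by clear * - b4 v4 y19 z10 z14; omega
          have kk86 : (i2) ≤ (m) := by clear * - y10; omega
          have kk87 : (i2) ≤ (j) := by clear * - y1 y17; omega
          have kk88 : (k) ≤ (i + l + m + 2) := by clear * - b0 b2 v4 y17 y6 z14; omega
          have kk89 : (k + l + 1) ≤ (n) := by clear * - y6; omega
          have kk90 : (2 * k) ≤ (2 * i + j + l + m + 3) := by clear * - b0 v4 y6; omega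
          have kk91 : (k + i2) ≤ (j + k3) := by clear * - v4; omega
          have r92 : (i + k + l + i2 - 2 * n - j + 1) % 2 = 0 := by clear * - ev n1p n2p n3p; omega
          have r93 : (k + k3 - 2 * i - l - m - 2) % 2 = 0 := by clear * - ev n1p n2p n3p; omega
          clear * - al a1 b tt D2 kk82 kk83 kk84 kk85 kk86 kk87 kk88 kk89 kk90 kk91 r92 r93
          exact midP al (k + k3 - 2 * i - l - m - 2) (i + k + l + i2 - 2 * n - j + 1) (2 * i + l + m - n - k + 3) (2 * i + l + m - n - k + 3) (k + k3 - n - i - m - 1) (by omega) (fun t h1 h2 => (cE (cI (pb a1 al (-1) t (t + (n + j - k)) (by omega)) (qa tt al 0 (t + (n + j - k)) ((i + k + l + i2 - n - j + 1) - t) (by omega))) (sh al (-1) ((i + k + l + i2 - n - j + 1) - t) ((i + k + l + i2 - 2 * n - j + 1) - t) (by omega)))) (fun t h1 h2 => (cE (cE (qf b al (-1) t (t + (n + k - i)) (by omega)) (qf D2 al 0 (t + (n + k - i)) (t + (n + k + k3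 - 2 * i - l - m - 2)) (by omega))) (sh al (-1) (t + (n + k + k3 - 2 * i - l - m - 2)) (t + (k + k3 - 2 * i - l - m - 2)) (by omega))))
        · have kk94 : (2 * i + l + m + 3) ≤ (k + k3) := by clear * - z13; omega
          have kk95 : (2 * i + l + m + 4) ≤ (k + k3) := by clear * - z13 ev n1p n2p n3p; omega
          have kk96 : (4 * i + l + 3 * m + 6) ≤ (3 * k + k3) := by clear * - b0 b2 b4 b5 y17 y18 z13; omega
          have kk97 : (4 * i + l + 2 * i2 + 3 * m + 6) ≤ (2 * j + k + 3 * k3) := by clear * - y1 y17 y18 z13; omega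
          have kk98 : (i2) ≤ (m) := by clear * - y10; omega
          have kk99 : (i2) ≤ (j) := by clear * - y1 y17; omega
          have kk100 : (k) ≤ (i + l + m + 2) := by clear * - b0 y10 y18 y6; omega
          have kk101 : (k + l + 1) ≤ (n) := by clear * - y6; omega
          have kk102 : (k + k3) ≤ (2 * i + l + i2 + m + 3) := by clear * - b0 y6; omega
          have kk103 : (j + k3) ≤ (k + i2) := by clear * - v4; omega
          have r104 : (i + k + l + i2 - 2 * n - j + 1) % 2 = 0 := by clear * - ev n1p n2p n3p; omega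
          have r105 : (k + k3 - 2 * i - l - m - 2) % 2 = 0 := by clear * - ev n1p n2p n3p; omega
          clear * - al a1 b tt D2 kk94 kk95 kk96 kk97 kk98 kk99 kk100 kk101 kk102 kk103 r104 r105
          exact midP al (k + k3 - 2 * i - l - m - 2) (i + k + l + i2 - 2 * n - j + 1) (2 * i + l + i2 + m - n - j - k3 + 3) (2 * i + l + m - n - k + 3) (k + k3 - n - i - m - 1) (by omega) (fun t h1 h2 => (cE (cI (pb a1 al (-1) t (t + (n + j - k)) (by omega)) (qa tt al 0 (t + (n + j - k)) ((i + k + l + i2 - n - j + 1) - t) (by omega))) (sh al (-1) ((i + k + l + i2 - n - j + 1) - t) ((i + k + l + i2 - 2 * n - j + 1) - t) (by omega)))) (fun t h1 h2 => (cE (cE (qf b al (-1) t (t + (n + k - i)) (by omega)) (qf D2 al 0 (t + (n + k - i)) (t + (n + k + k3 - 2 * i - l - m - 2)) (by omega))) (sh al (-1) (t + (n + k + k3 - 2 * i - l - m - 2)) (t + (k + k3 - 2 * i - l - m - 2)) (by omega))))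
      · by_cases z15 : (n + 2 * Q) ≤ (2 * i + j + l + m + k3 + 4)
        · by_cases z16 : (2 * Q + k) ≤ (3 * i + j + l + i2 + 3)
          · by_cases v5 : (i + l + 1) ≤ (k)
            · have kk106 : (j + 1) ≤ (k) := by clear * - b0 b1 b2 b3 y17 y18; omega
              have kk107 : (2 * Q + k) ≤ (3 * i + j + l + i2 + 3) := by clear * - z16; omega
              have kk108 : (4 * Q + j) ≤ (3 * i + k + l + i2 + 3) := by clear * - y6 z10 z16; omega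
              have kk109 : (2 * Q + j) ≤ (i + k + l + i2 + 1) := by clear * - b0 b1 b2 b3 y17 y18 z16; omega
              have kk110 : (2 * j + 1) ≤ (i + l + i2) := by clear * - b0 y18 y2 y6 z10; omega
              have kk111 : (2 * Q + 2 * j) ≤ (i + 2 * k + l + i2 + 1) := by clear * - b0 b1 b2 b3 y17 y18 z16; omega
              have kk112 : (i + 2 * j + 1) ≤ (2 * k + l + i2) := by clear * - b0 b1 b2 b3 v5 y17 y18 z14; omega
              have kk113 : (i + l + 1) ≤ (k) := by clear * - v5; omega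
              have kk114 : (i + m + 1) ≤ (k) := by clear * - b4 y19 z10 z13 z14; omega
              have kk115 : (i + l + i2 + 1) ≤ (2 * k) := by clear * - b0 b1 b2 b4 y17 z13 z15; omega
              have kk116 : (Q + j) ≤ (i + k + 1) := by clear * - b0 y17 y6 z10 z13; omega
              have kk117 : (2 * i + l + m + 2) ≤ (2 * k) := by clear * - b4 v5 y19 z10 z13 z14; omega
              have kk118 : (k + i2) ≤ (Q + j + m) := by clear * - b0 b1 b2 b4 v5 y17 y2 z14 z16; omega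
              have r119 : (2 * i + l + i2 - 2 * n - k + 1) % 2 = 0 := by clear * - ev n1p n2p n3p; omega
              have r120 : (k - j) % 2 = 0 := by clear * - ev n1p n2p n3p; omega
              have r121 : (i + j - 2 * n) % 2 = 0 := by clear * - ev n1p n2p n3p; omega
              clear * - al a2 s1 b tt kk106 kk107 kk108 kk109 kk110 kk111 kk112 kk113 kk114 kk115 kk116 kk117 kk118 r119 r120 r121
              exact mid2 al (k - j) (2 * i + l + i2 - 2 * n - k + 1) (i + j - 2 * n) (i - n + 1) (2 * i + l + i2 - n - Q - j + 2) (-2) (Q + j - n - k) (k - n) (by omega) (fun t h1 h2 => ⟨by omega, (cE (cI (qf b al (-1) t (t + (n + k - i)) (by omega)) (ab tt al 0 (t + (n + k - i)) ((2 * i + l + i2 - n - k + 1) - t) (by omega))) (sh al (-1) ((2 * i + l + i2 - n - k + 1) - t) ((2 * i + l + i2 - 2 * n - k + 1) - t) (by omega)))⟩) (fun t h1 h2 => ⟨by omega, (cE (qa s1 al (-1) t ((i + j - n) - t)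 (by omega)) (sh al (-1) ((i + j - n) - t) ((i + j - 2 * n) - t) (by omega)))⟩) (fun t h1 h2 => (cE (qf a2 al (-1) t (t + (n + k - j)) (by omega)) (sh al (-1) (t + (n + k - j)) (t + (k - j)) (by omega))))
            · by_cases v6 : (k + i2) ≤ (Q + j + m)
              · have kk122 : (j + 1) ≤ (k) := by clear * - b1 b4 v5 y17 z10 z13; omega
                have kk123 : (2 * Q + k) ≤ (3 * i + j + l + i2 + 3) := by clear * - z16; omega
                have kk124 : (4 * Q + j) ≤ (3 * i + k + l + i2 + 3) := by clear * - y6 z10 z16; omega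
                have kk125 : (2 * Q + j) ≤ (i + k + l + i2 + 1) := by clear * - b1 b3 b5 v5 v6 y17 z10; omega
                have kk126 : (i + 2 * j + l + 3) ≤ (2 * k + i2) := by clear * - b1 b3 y17 y2 z10; omega
                have kk127 : (2 * Q + i + 2 * j + l + 1) ≤ (4 * k + i2) := by clear * - b1 b3 v5 v6 y17 z10; omega
                have kk128 : (3 * i + 2 * j + l + 3) ≤ (4 * k + i2) := by clear * - b1 b4 v5 y17 z10 z13 z14; omega
                have kk129 : (k) ≤ (i + l + 1) := by clear * - v5; omega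
                have kk130 : (i + m + 1) ≤ (k) := by clear * - b3 v6 z10; omega
                have kk131 : (i2) ≤ (k) := by clear * - b1 b4 v5 y17 z10 z13 z14; omega
                have kk132 : (Q + j) ≤ (2 * i + l + 2) := by clear * - b1 b3 v5 y17 z10; omega
                have kk133 : (2 * i + l + m + 2) ≤ (2 * k) := by clear * - b1 b4 y17 z10 z13 z14; omega
                have kk134 : (k + i2) ≤ (Q + j + m) := by clear * - v6; omega
                have r135 : (2 * i + l + i2 - 2 * n - k + 1) % 2 = 0 := by clear * - ev n1p n2p n3p; omega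
                have r136 : (k - j) % 2 = 0 := by clear * - ev n1p n2p n3p; omega
                have r137 : (i + j - 2 * n) % 2 = 0 := by clear * - ev n1p n2p n3p; omega
                clear * - al a2 s1 b tt kk122 kk123 kk124 kk125 kk126 kk127 kk128 kk129 kk130 kk131 kk132 kk133 kk134 r135 r136 r137
                exact mid2 al (k - j) (2 * i + l + i2 - 2 * n - k + 1) (i + j - 2 * n) (2 * i + l - n - k + 2) (2 * i + l + i2 - n - Q - j + 2) (-2) (Q + j - n - k) (k - n) (by omega) (fun t h1 h2 => ⟨by omega, (cE (cI (qf b al (-1) t (t + (n + k - i)) (by omega)) (ab tt al 0 (t + (n + k - i)) ((2 * i + l + i2 - n - k + 1) - t) (by omega))) (sh al (-1) ((2 * i + l + i2 - n - k + 1) - t) ((2 * i + l + i2 - 2 * n - k + 1) - t) (by omega)))⟩) (fun t h1 h2 => ⟨by omega, (cE (qa s1 al (-1) t ((i + j - n) - t) (by omega)) (sh al (-1) ((i + j - n) - t) ((i + j - 2 * n) - t) (by omega)))⟩) (fun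 t h1 h2 => (cE (qf a2 al (-1) t (t + (n + k - j)) (by omega)) (sh al (-1) (t + (n + k - j)) (t + (k - j)) (by omega))))
              · have kk138 : (j + 1) ≤ (k) := by clear * - b1 b4 v5 y17 z10 z13; omega
                have kk139 : (3 * k + i2) ≤ (3 * i + 3 * j + l + 2 * m + 3) := by clear * - b0 b1 b4 v5 y17 z10 z14 z15; omega
                have kk140 : (2 * Q + k + i2) ≤ (3 * i + j + l + 2 * m + 3) := by clear * - b1 b4 v5 v6 y17 z10 z14; omega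
                have kk141 : (k + i2) ≤ (i + j + l + 2 * m + 1) := by clear * - b1 b4 v5 y17 z10 z13 z14; omega
                have kk142 : (i + 2 * j + l + 3) ≤ (2 * k + i2) := by clear * - b1 v6 y8; omega
                have kk143 : (2 * Q + i + 2 * j + l + 1) ≤ (4 * k + i2) := by clear * - b1 b4 v5 v6 y17 z10 z13 z14; omega
                have kk144 : (3 * i + 2 * j + l + 3) ≤ (4 * k + i2) := by clear * - b1 b4 v5 y17 z10 z13 z14; omega
                have kk145 : (k) ≤ (i + l + 1) := by clear * - v5; omega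
                have kk146 : (i + m + 1) ≤ (k) := by clear * - b4 y19 z10 z13 z14; omega
                have kk147 : (i2) ≤ (k) := by clear * - b1 b4 v5 y17 z10 z13 z14; omega
                have kk148 : (Q + j) ≤ (2 * i + l + 2) := by clear * - b1 b4 v5 v6 y17 z10 z13 z14; omega
                have kk149 : (2 * i + l + m + 2) ≤ (2 * k) := by clear * - b1 b4 y17 z10 z13 z14; omega
                have kk150 : (Q + j + m) ≤ (k + i2) := by clear * - v6; omega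
                have r151 : (2 * i + l + i2 - 2 * n - k + 1) % 2 = 0 := by clear * - ev n1p n2p n3p; omega
                have r152 : (k - j) % 2 = 0 := by clear * - ev n1p n2p n3p; omega
                have r153 : (i + j - 2 * n) % 2 = 0 := by clear * - ev n1p n2p n3p; omega
                clear * - al a2 s1 b tt kk138 kk139 kk140 kk141 kk142 kk143 kk144 kk145 kk146 kk147 kk148 kk149 kk150 r151 r152 r153
                exact mid2 al (k - j) (2 * i + l + i2 - 2 * n - k + 1) (i + j - 2 * n) (2 * i + l - n - k + 2) (2 * i + l + m - n - k + 2) (-2) (Q + j - n - k) (k - n) (by omega) (fun t h1 h2 => ⟨by omega, (cE (cI (qf b al (-1) t (t + (n + k - i)) (by omega)) (ab tt al 0 (t + (n + k - i)) ((2 * i + l + i2 - n - k + 1) - t) (by omega))) (sh al (-1) ((2 * i + l + i2 - n - k + 1) - t) ((2 * i + l + i2 - 2 * n - k + 1) - t) (by omega)))⟩) (fun t h1 h2 => ⟨by omega, (cE (qa s1 al (-1) t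 ((i + j - n) - t) (by omega)) (sh al (-1) ((i + j - n) - t) ((i + j - 2 * n) - t) (by omega)))⟩) (fun t h1 h2 => (cE (qf a2 al (-1) t (t + (n + k - j)) (by omega)) (sh al (-1) (t + (n + k - j)) (t + (k - j)) (by omega))))
          · have kk154 : (n + i + i2) ≤ (k + m + k3) := by clear * - z15 z16; omega
            have kk155 : (k + m + k3 + 2) ≤ (2 * n + i + i2) := by clear * - b0 b1 b2 b3 y17 z14 z15 z16; omega
            have kk156 : (Q + k + m + 1) ≤ (n + i + i2) := by clear * - b0 b3 y6 z10 z14 z15 z16; omega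
            have kk157 : (k + m + k3 + 2) ≤ (n + Q + i2) := by clear * - b0 b3 b4 y6 z10 z14 z15 z16; omega
            have kk158 : (n + i2) ≤ (k + l + m + 2) := by clear * - b0 b2 b5 y17 z13 z14 z15 z16; omega
            clear * - al b D1 kk154 kk155 kk156 kk157 kk158
            exact al.ubQ (k + m + k3 - n - i - i2 + 1) (by omega) (by omega) fun t h1 h2 => (cE (sh al 1 t (t + (n)) (by omega)) (cE (qf b al 1 (t + (n)) (t + (k - i)) (by omega)) (pb D1 al 0 (t + (k - i)) (t + (k + m + k3 - n - i - i2 + 1)) (by omega))))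
        · by_cases z17 : (n + 2 * i + 2 * i2 + 1) ≤ (2 * Q + 2 * k)
          · by_cases v7 : (2 * i + l + 1) ≤ (k + i2)
            · have kk159 : (i2) ≤ (i + l) := by clear * - b0 b1 b3 y17 z10 z13 z14 z15; omega
              have kk160 : (k + l + 2) ≤ (n + i2) := by clear * - b0 y6 z13; omega
              have kk161 : (2 * k + 1) ≤ (n + 2 * i) := by clear * - b0 y17 y18 y6; omega
              have kk162 : (i2 + 1) ≤ (Q) := by clear * - b0 b1 b3 y17 z10 z13 z14 z15; omega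
              have kk163 : (2 * n + 3 * i2) ≤ (3 * i + 3 * l + 4 * m + 5) := by clear * - b0 b1 b3 y17 z10 z13 z14 z15; omega
              have kk164 : (2 * k + 3 * i2) ≤ (5 * i + 3 * l + 2 * m + 3) := by clear * - b0 b1 b3 y17 y18 z10 z14 z15; omega
              have kk165 : (2 * n + 5 * i2) ≤ (2 * Q + i + 2 * k + 3 * l + 2 * m + 3) := by clear * - b0 b1 b3 v7 y17 z10 z13 z14 z15; omega
              have kk166 : (i) ≤ (i2) := by clear * - y16; omega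
              have kk167 : (Q) ≤ (i + l + 1) := by clear * - b0 b1 b3 y17 z10 z14 z15; omega
              have kk168 : (i + i2 + m + 1) ≤ (Q + k) := by clear * - b0 b1 b3 v7 y17 z10 z13 z14 z15; omega
              have kk169 : (k + m + 1) ≤ (n + i) := by clear * - b0 b1 b3 y13 y17 z10 z14 z15; omega
              have kk170 : (2 * i + l + 1) ≤ (k + i2) := by clear * - v7; omega
              have kk171 : (n + 2 * i + i2) ≤ (Q + 2 * k) := by clear * - b0 v7 y17 z10 z13 z14 z15; omega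
              have r172 : (i + l + i2 - n + 1) % 2 = 0 := by clear * - ev n1p n2p n3p; omega
              have r173 : (i + l - i2 + 1) % 2 = 0 := by clear * - ev n1p n2p n3p; omega
              clear * - al b c1 tt kk159 kk160 kk161 kk162 kk163 kk164 kk165 kk166 kk167 kk168 kk169 kk170 kk171 r172 r173
              exact mid2 al (i + l - i2 + 1) (i + l + i2 - n + 1) (i + l + i2 - n + 1) (i2 - m) (2 * i + l - k + 1) (-2) (k + i2 - n - i + 1) (Q + k + l - n - i2 + 1) (by omega) (fun t h1 h2 => ⟨by omega, (cE (qa tt al 0 t ((i + l + i2 + 1) - t) (by omega)) (sh al (-1) ((i + l + i2 + 1) - t) ((i + l + i2 - n + 1) - t) (by omega)))⟩) (fun t h1 h2 => ⟨by omega, (ab tt al (-1) t ((i + l + i2 - n + 1) - t) (by omega))⟩) (fun t h1 h2 => (cE (cE (pb b al (-1) t (t + (n + i - k)) (by omega)) (qf c1 al 0 (t + (n + i - k)) (t + (n + i + l - i2 + 1)) (by omega))) (sh al (-1) (t + (n + i + l - i2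 + 1)) (t + (i + l - i2 + 1)) (by omega))))
            · by_cases v8 : (Q + k + l + 1) ≤ (n + 2 * i2)
              · have kk174 : (i2) ≤ (i + l) := by clear * - b1 b4 v7 v8 z10 z14 z17; omega
                have kk175 : (2 * i + l + 2) ≤ (Q + k) := by clear * - v8 z17; omega
                have kk176 : (i2 + 1) ≤ (Q) := by clear * - v7 v8 z17; omega
                have kk177 : (n + 2 * i + 2 * i2 + 1) ≤ (2 * Q + 2 * k) := by clear * - z17; omega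
                have kk178 : (2 * n + 3 * i2) ≤ (3 * i + 3 * l + 4 * m + 5) := by clear * - b0 b1 b5 v7 v8 z10 z14 z15 z17; omega
                have kk179 : (2 * k + 3 * i2) ≤ (5 * i + 3 * l + 2 * m + 3) := by clear * - b1 b4 v7 v8 z10 z14 z17; omega
                have kk180 : (2 * n + 5 * i2) ≤ (2 * Q + i + 2 * k + 3 * l + 2 * m + 3) := by clear * - b1 b4 v7 v8 z10 z14 z17; omega
                have kk181 : (i) ≤ (i2) := by clear * - y16; omega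
                have kk182 : (Q) ≤ (i + l + 1) := by clear * - b1 b4 v7 v8 z10 z14 z17; omega
                have kk183 : (i + i2 + m + 1) ≤ (Q + k) := by clear * - b4 v7 v8 z10 z14 z17; omega
                have kk184 : (k + m + 1) ≤ (n + i) := by clear * - b4 v7 v8 z10 z14 z17; omega
                have kk185 : (Q + k + l + 1) ≤ (n + 2 * i2) := by clear * - v8; omega
                have kk186 : (Q + 2 * k) ≤ (n + 2 * i + i2) := by clear * - v7 v8; omega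
                have r187 : (i + l + i2 - n + 1) % 2 = 0 := by clear * - ev n1p n2p n3p; omega
                have r188 : (i + l - i2 + 1) % 2 = 0 := by clear * - ev n1p n2p n3p; omega
                clear * - al b c1 tt kk174 kk175 kk176 kk177 kk178 kk179 kk180 kk181 kk182 kk183 kk184 kk185 kk186 r187 r188
                exact mid2 al (i + l - i2 + 1) (i + l + i2 - n + 1) (i + l + i2 - n + 1) (i2 - m) (Q + k + l - n - i2 + 1) (-2) (k + i2 - n - i + 1) (Q + k + l - n - i2 + 1) (by omega) (fun t h1 h2 => ⟨by omega, (cE (qa tt al 0 t ((i + l + i2 + 1) - t) (by omega)) (sh al (-1) ((i + l + i2 + 1) - t) ((i + l + i2 - n + 1) - t) (by omega)))⟩) (fun t h1 h2 => ⟨by omega, (ab tt al (-1) t ((i + l + i2 - n + 1) - t) (by omega))⟩) (fun t h1 h2 => (cE (cE (pb b al (-1) t (t + (n + i - k)) (by omega)) (qf c1 al 0 (t + (n + i - k)) (t + (n + i + l - i2 + 1)) (by omega))) (sh al (-1) (t + (n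 + i + l - i2 + 1)) (t + (i + l - i2 + 1)) (by omega))))
              · have kk189 : (i2) ≤ (i + l) := by clear * - b1 b4 v7 z10 z13 z14; omega
                have kk190 : (2 * i + 2 * l + 3) ≤ (n + 2 * i2) := by clear * - b1 b3; omega
                have kk191 : (k + l + 2) ≤ (n + i2) := by clear * - b1 b3 v7; omega
                have kk192 : (2 * i + l + 2) ≤ (Q + k) := by clear * - b1 b4 v7 v8 z10 z13; omega
                have kk193 : (2 * n + 3 * i2) ≤ (3 * i + 3 * l + 4 * m + 5) := by clear * - b1 b4 v7 v8 z10 z14; omega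
                have kk194 : (2 * k + 3 * i2) ≤ (5 * i + 3 * l + 2 * m + 3) := by clear * - b1 b4 v7 z10 z13 z14; omega
                have kk195 : (2 * n + 5 * i2) ≤ (2 * Q + i + 2 * k + 3 * l + 2 * m + 3) := by clear * - b1 b4 v7 v8 z10 z13 z14; omega
                have kk196 : (i) ≤ (i2) := by clear * - y16; omega
                have kk197 : (Q) ≤ (i + l + 1) := by clear * - b1 b3 b4 v7 z10 z14; omega
                have kk198 : (i + i2 + m + 1) ≤ (Q + k) := by clear * - b1 b4 v7 v8 z10 z13 z14; omega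
                have kk199 : (k + m + 1) ≤ (n + i) := by clear * - b1 b3 b4 v7 v8 z10 z14; omega
                have kk200 : (k + i2) ≤ (2 * i + l + 1) := by clear * - v7; omega
                have kk201 : (n + 2 * i2) ≤ (Q + k + l + 1) := by clear * - v8; omega
                have r202 : (i + l + i2 - n + 1) % 2 = 0 := by clear * - ev n1p n2p n3p; omega
                have r203 : (i + l - i2 + 1) % 2 = 0 := by clear * - ev n1p n2p n3p; omega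
                clear * - al b c1 tt kk189 kk190 kk191 kk192 kk193 kk194 kk195 kk196 kk197 kk198 kk199 kk200 kk201 r202 r203
                exact mid2 al (i + l - i2 + 1) (i + l + i2 - n + 1) (i + l + i2 - n + 1) (i2 - m) (i2) (-2) (k + i2 - n - i + 1) (Q + k + l - n - i2 + 1) (by omega) (fun t h1 h2 => ⟨by omega, (cE (qa tt al 0 t ((i + l + i2 + 1) - t) (by omega)) (sh al (-1) ((i + l + i2 + 1) - t) ((i + l + i2 - n + 1) - t) (by omega)))⟩) (fun t h1 h2 => ⟨by omega, (ab tt al (-1) t ((i + l + i2 - n + 1) - t) (by omega))⟩) (fun t h1 h2 => (cE (cE (pb b al (-1) t (t + (n + i - k)) (by omega)) (qf c1 al 0 (t + (n + i - k)) (t + (n + i + l - i2 + 1)) (by omega))) (sh al (-1) (t + (n + i + l - i2 + 1)) (t + (i + l - i2 + 1)) (by omega))))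
          · have kk204 : (n + k + 2 * i2) ≤ (i + j + l + 3 * m + k3 + 2) := by clear * - b0 b1 b5 y17 z10 z13 z14 z15 z17; omega
            have kk205 : (n + 2 * Q + j) ≤ (i + k + l + m + k3 + 3) := by clear * - b0 b1 y17 z10 z13 z14 z15 z17; omega
            have kk206 : (i + l + 2 * m + 3) ≤ (n + i2) := by clear * - b3; omega
            have kk207 : (i + l + 2 * m + k3 + 3) ≤ (n + k + i2) := by clear * - b0 b2 b5 y17 z13 z15 z17; omega
            have kk208 : (i + l + m + k3 + 3) ≤ (n + Q + i2) := by clear * - b0 b1 b5 y17 z10 z13 z14 z15 z17; omega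
            have r209 : (n + i + j + l + m + k3 - k + 2) % 2 = 0 := by clear * - ev n1p n2p n3p; omega
            clear * - al a2 tt D1 kk204 kk205 kk206 kk207 kk208 r209
            obtain ⟨t, ht⟩ : ∃ t, 2 * t = (n + i + j + l + m + k3 - k + 2) := ⟨(n + i + j + l + m + k3 - k + 2) / 2, by omega⟩
            exact al.ninv t (cE (cE (cE (qa tt al 1 t ((n + i + l + i2 + 1) - t) (by omega)) (pb D1 al 0 ((n + i + l + i2 + 1) - t) ((i + l + m + k3 + 2) - t) (by omega))) (pb a2 al 0 ((i + l + m + k3 + 2) - t) ((i + j + l + m + k3 - k + 2) - t) (by omega))) (sh al 1 ((i + j + l + m + k3 - k + 2) - t) t (by omega)))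
    · by_cases z18 : (2 * i + l + m + 2) ≤ (k + k3)
      · have kk210 : (k3) ≤ (i + l) := by clear * - b0 b2 b4 b5 y17 y18 z13; omega
        have kk211 : (2 * i + 2 * l + m + 4) ≤ (n + k3) := by clear * - y6 z18; omega
        have kk212 : (k + k3) ≤ (2 * i + l + m + 2) := by clear * - z13; omega
        have kk213 : (2 * i + l + m + 2) ≤ (k + k3) := by clear * - z18; omega
        clear * - al D2 n2 kk210 kk211 kk212 kk213
        exact n2.f0 (pb D2 al 0 (i + l + 1) (k + l + 1) (by omega))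
      · by_cases z19 : (n + 2 * Q + j + k + k3) ≤ (5 * i + 3 * l + 3 * m + 6)
        · by_cases v9 : (Q + k) ≤ (2 * i + l + 2)
          · by_cases v10 : (2 * i + l + m + 2) ≤ (2 * k)
            · have kk214 : (i + k + l + m + 3) ≤ (n + j + k3) := by clear * - b1 b4 b5 v10 y17 y18 z18; omega
              have kk215 : (n + j + k3) ≤ (i + k + l + 3 * m + 2) := by clear * - b0 b1 b2 y17; omega
              have kk216 : (i + j + l + m + k3 + 4) ≤ (n + k + 2 * i2) := by clear * - b0 b1 b2 b3 y17; omega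
              have kk217 : (n + 3 * i + j + l + k3 + 2) ≤ (5 * k + m) := by clear * - b0 b1 b2 v10 y17; omega
              have kk218 : (k) ≤ (i + l + 1) := by clear * - y18 z18; omega
              have kk219 : (Q + k) ≤ (2 * i + l + 2) := by clear * - v9; omega
              have kk220 : (2 * i + l + m + 2) ≤ (2 * k) := by clear * - v10; omega
              have kk221 : (i + m + 1) ≤ (k) := by clear * - v10 y18 z18; omega
              have kk222 : (Q) ≤ (k3 + 1) := by clear * - b1 v10 v9 y17 y18 z18; omega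
              have kk223 : (i + k + l + m + 2) ≤ (n + k3) := by clear * - b1 b2 b4 v9 y17 y18; omega
              have kk224 : (i2) ≤ (j) := by clear * - y1 y17; omega
              have kk225 : (2 * k + m + 1) ≤ (n + i + j) := by clear * - b1 b4 v9 y1 y17 y18 z18; omega
              have r226 : (2 * i + j + l + i2 - 2 * k + 1) % 2 = 0 := by clear * - ev n1p n2p n3p; omega
              have r227 : (n + j + k3 - i - k - l - m - 2) % 2 = 0 := by clear * - ev n1p n2p n3p; omega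
              clear * - al a2 b tt D2 kk214 kk215 kk216 kk217 kk218 kk219 kk220 kk221 kk222 kk223 kk224 kk225 r226 r227
              exact midP al (n + j + k3 - i - k - l - m - 2) (2 * i + j + l + i2 - 2 * k + 1) (2 * i + j + l - 2 * k + 2) (i + l + m - n + 3) (j) (by omega) (fun t h1 h2 => (cI (cE (qf a2 al 0 t (t + (k - j)) (by omega)) (qf b al 0 (t + (k - j)) (t + (2 * k - i - j)) (by omega))) (ab tt al 0 (t + (2 * k - i - j)) ((2 * i + j + l + i2 - 2 * k + 1) - t) (by omega)))) (fun t h1 h2 => (cE (qf D2 al (-1) t (t + (n + k3 - i - l - m - 2)) (by omega)) (pb a2 al 0 (t + (n + k3 - i - l - m - 2)) (t + (n + j + k3 - i - k - l - m - 2)) (by omega))))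
            · have kk228 : (i + k + l + m + 3) ≤ (n + j + k3) := by clear * - b0 b1 b2 b4 b5 v10 y17 y18; omega
              have kk229 : (n + 3 * i + j + l + k3 + 2) ≤ (5 * k + m) := by clear * - b1 b4 y1 y17 y8 z10; omega
              have kk230 : (i + j + l + m + k3 + 4) ≤ (n + k + 2 * i2) := by clear * - b0 b1 b2 b3 y17; omega
              have kk231 : (k) ≤ (i + l + 1) := by clear * - y18 z18; omega
              have kk232 : (Q + k) ≤ (2 * i + l + 2) := by clear * - v9; omega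
              have kk233 : (2 * k) ≤ (2 * i + l + m + 2) := by clear * - v10; omega
              have kk234 : (Q) ≤ (k3 + 1) := by clear * - b1 b4 b5 v10 y17 y18 z10 z18; omega
              have kk235 : (i + k + l + m + 2) ≤ (n + k3) := by clear * - b1 b2 b4 v9 y17 y18; omega
              have kk236 : (i2) ≤ (j) := by clear * - y1 y17; omega
              have kk237 : (2 * k + m + 1) ≤ (n + i + j) := by clear * - b4 b5 v10 y17 y18 z18; omega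
              have r238 : (2 * i + j + l + i2 - 2 * k + 1) % 2 = 0 := by clear * - ev n1p n2p n3p; omega
              have r239 : (n + j + k3 - i - k - l - m - 2) % 2 = 0 := by clear * - ev n1p n2p n3p; omega
              clear * - al a2 b tt D2 kk228 kk229 kk230 kk231 kk232 kk233 kk234 kk235 kk236 kk237 r238 r239
              exact midP al (n + j + k3 - i - k - l - m - 2) (2 * i + j + l + i2 - 2 * k + 1) (2 * i + j + l - 2 * k + 2) (i + l + m - n + 3) (j) (by omega) (fun t h1 h2 => (cI (cE (qf a2 al 0 t (t + (k - j)) (by omega)) (qf b al 0 (t + (k - j)) (t + (2 * k - i - j)) (by omega))) (ab tt al 0 (t + (2 * k - i - j)) ((2 * i + j + l + i2 - 2 * k + 1) - t) (by omega)))) (fun t h1 h2 => (cE (qf D2 al (-1) t (t + (n + k3 - i - l - m - 2)) (by omega)) (pb a2 al 0 (t + (n + k3 - i - l - m - 2)) (t + (n + j + k3 - i - k - l - m - 2)) (by omega))))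
          · by_cases v11 : (2 * i + l + m + 2) ≤ (2 * k)
            · have kk240 : (i + k + l + m + 3) ≤ (n + j + k3) := by clear * - b1 b4 b5 v11 y17 y18 z18; omega
              have kk241 : (n + 2 * Q + j + k + k3) ≤ (5 * i + 3 * l + 3 * m + 6) := by clear * - z19; omega
              have kk242 : (2 * Q + j + k + m + k3) ≤ (n + 3 * i + l + 2 * i2) := by clear * - b3 z19; omega
              have kk243 : (n + 2 * Q + j + k3) ≤ (i + 3 * k + l + m + 2) := by clear * - v11 z19; omega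
              have kk244 : (k) ≤ (i + l + 1) := by clear * - y18 z18; omega
              have kk245 : (2 * i + l + 2) ≤ (Q + k) := by clear * - v9; omega
              have kk246 : (2 * i + l + m + 2) ≤ (2 * k) := by clear * - v11; omega
              have kk247 : (i + m + 1) ≤ (k) := by clear * - v11 y18 z18; omega
              have kk248 : (Q) ≤ (k3 + 1) := by clear * - b1 b4 b5 v11 y17 y18 z10 z19; omega
              have kk249 : (i + k + l + m + 2) ≤ (n + k3) := by clear * - y18 y6; omega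
              have kk250 : (2 * i + l + i2 + 2) ≤ (Q + j + k) := by clear * - v9 y1 y17; omega
              have kk251 : (i + k + l + m + 3) ≤ (n + Q + j) := by clear * - b1 b4 y1 y17 y18 z18; omega
              have r252 : (2 * i + j + l + i2 - 2 * k + 1) % 2 = 0 := by clear * - ev n1p n2p n3p; omega
              have r253 : (n + j + k3 - i - k - l - m - 2) % 2 = 0 := by clear * - ev n1p n2p n3p; omega
              clear * - al a2 b tt D2 kk240 kk241 kk242 kk243 kk244 kk245 kk246 kk247 kk248 kk249 kk250 kk251 r252 r253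
              exact midP al (n + j + k3 - i - k - l - m - 2) (2 * i + j + l + i2 - 2 * k + 1) (Q + j - k) (i + l + m - n + 3) (j) (by omega) (fun t h1 h2 => (cI (cE (qf a2 al 0 t (t + (k - j)) (by omega)) (qf b al 0 (t + (k - j)) (t + (2 * k - i - j)) (by omega))) (ab tt al 0 (t + (2 * k - i - j)) ((2 * i + j + l + i2 - 2 * k + 1) - t) (by omega)))) (fun t h1 h2 => (cE (qf D2 al (-1) t (t + (n + k3 - i - l - m - 2)) (by omega)) (pb a2 al 0 (t + (n + k3 - i - l - m - 2)) (t + (n + j + k3 - i - k - l - m - 2)) (by omega))))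
            · have kk254 : (i + k + l + m + 3) ≤ (n + j + k3) := by clear * - b3 b5 v11 v9 y17 y18 z18 z19; omega
              have kk255 : (n + 2 * Q + j + k3) ≤ (i + 3 * k + l + m + 2) := by clear * - b3 b5 v11 v9 y17 z10 z18; omega
              have kk256 : (2 * Q + j + k + m + k3) ≤ (n + 3 * i + l + 2 * i2) := by clear * - b3 z19; omega
              have kk257 : (k) ≤ (i + l + 1) := by clear * - y18 z18; omega
              have kk258 : (2 * i + l + 2) ≤ (Q + k) := by clear * - v9; omega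
              have kk259 : (2 * k) ≤ (2 * i + l + m + 2) := by clear * - v11; omega
              have kk260 : (Q) ≤ (k3 + 1) := by clear * - b3 b5 v11 v9 y17 y18 z10; omega
              have kk261 : (i + k + l + m + 2) ≤ (n + k3) := by clear * - y18 y6; omega
              have kk262 : (2 * i + l + i2 + 2) ≤ (Q + j + k) := by clear * - v9 y1 y17; omega
              have kk263 : (i + k + l + m + 3) ≤ (n + Q + j) := by clear * - b4 b5 v11 v9 y17 y18 z18; omega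
              have r264 : (2 * i + j + l + i2 - 2 * k + 1) % 2 = 0 := by clear * - ev n1p n2p n3p; omega
              have r265 : (n + j + k3 - i - k - l - m - 2) % 2 = 0 := by clear * - ev n1p n2p n3p; omega
              clear * - al a2 b tt D2 kk254 kk255 kk256 kk257 kk258 kk259 kk260 kk261 kk262 kk263 r264 r265
              exact midP al (n + j + k3 - i - k - l - m - 2) (2 * i + j + l + i2 - 2 * k + 1) (Q + j - k) (i + l + m - n + 3) (j) (by omega) (fun t h1 h2 => (cI (cE (qf a2 al 0 t (t + (k - j)) (by omega)) (qf b al 0 (t + (k - j)) (t + (2 * k - i - j)) (by omega))) (ab tt al 0 (t + (2 * k - i - j)) ((2 * i + j + l + i2 - 2 * k + 1) - t) (by omega)))) (fun t h1 h2 => (cE (qf D2 al (-1) t (t + (n + k3 - i - l - m - 2)) (by omega)) (pb a2 al 0 (t + (n + k3 - i - l - m - 2)) (t + (n + j + k3 - i - k - l - m - 2)) (by omega))))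
        · by_cases z20 : (k + i2) ≤ (Q + j + m + 1)
          · by_cases v12 : (Q + j + m) ≤ (k + i2)
            · have kk266 : (j + 1) ≤ (k) := by clear * - b1 b5 v12 y17 y18 z10 z18 z19; omega
              have kk267 : (Q) ≤ (k) := by clear * - b1 b5 v12 y17 y18 z10 z18 z19; omega
              have kk268 : (n + Q + j) ≤ (2 * k + l + 1) := by clear * - z10; omega
              have kk269 : (l + 2) ≤ (n) := by clear * - b1 b5 v12 y17 y18 z10 z18 z19; omega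
              have kk270 : (Q + j) ≤ (k + i2) := by clear * - b1 b5 v12 y17 y18 z10 z18 z19; omega
              have kk271 : (i2 + 1) ≤ (k) := by clear * - b1 b5 v12 y17 y18 z10 z18 z19; omega
              have kk272 : (k + i2) ≤ (Q + j + m + 1) := by clear * - z20; omega
              have kk273 : (i + m + 1) ≤ (k) := by clear * - b3 z10 z20; omega
              have kk274 : (k) ≤ (i + l + 1) := by clear * - y18 z18; omega
              have kk275 : (Q + j) ≤ (k + i2 + 1) := by clear * - b1 b5 v12 y17 y18 z10 z18 z19; omega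
              have kk276 : (n + Q + j) ≤ (2 * k + l + 2) := by clear * - z10; omega
              have kk277 : (Q + l + 1) ≤ (n + i2) := by clear * - b1 b5 v12 y17 y18 z10 z18 z19; omega
              have kk278 : (2 * i + l + m + 2) ≤ (2 * k) := by clear * - b1 b3 b5 y17 z10 z18 z19 z20; omega
              have kk279 : (Q + j + m) ≤ (k + i2) := by clear * - v12; omega
              have kk280 : (i2) ≤ (k) := by clear * - b1 b5 v12 y17 y18 z10 z18 z19; omega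
              have kk281 : (Q + j) ≤ (2 * i + l + 2) := by clear * - b1 b5 v12 y17 y18 z10 z18 z19; omega
              have r282 : (n + i2 - k - l - 1) % 2 = 0 := by clear * - ev n1p n2p n3p; omega
              have r283 : (k - j) % 2 = 0 := by clear * - ev n1p n2p n3p; omega
              have r284 : (2 * i + l + i2 - 2 * n - k + 1) % 2 = 0 := by clear * - ev n1p n2p n3p; omega
              clear * - al a2 b c1 tt n2 kk266 kk267 kk268 kk269 kk270 kk271 kk272 kk273 kk274 kk275 kk276 kk277 kk278 kk279 kk280 kk281 r282 r283 r284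
              exact ivt al.ninv (Q + j - n - k) (j - n) (k - j) (k + l - 2 * n + 2) (Q + k + l - 2 * n - i2 + 1) (n + i2 - k - l - 1) (k + l - 2 * n + 1) (i2 - n) 0 (fun t h1 h2 => (cE (qf a2 al (-1) t (t + (n + k - j)) (by omega)) (sh al (-1) (t + (n + k - j)) (t + (k - j)) (by omega)))) (fun t h1 h2 => (cE (sh al 1 t (t + (n)) (by omega)) (cE (pb c1 al (-1) (t + (n)) (t + (2 * n + i2 - k - l - 1)) (by omega)) (sh al (-1) (t + (2 * n + i2 - k - l - 1)) (t + (n + i2 - k - l - 1)) (by omega))))) (fun hh => n2.f1 (rEE (sh al (-1) (i2) (i2 - n) (by omega)) (sh al (-2) (k + l + 1) (k + l - 2 * n + 1) (by omega)) (Eq.symm (Eq.symm hh)))) (by omega) (i2 - n - m) (i2 - n) (2 * i + l + i2 - 2 * n - k + 1) 1 (-1) (fun t h1 h2 => (cE (cE (qa tt al (-1) t ((i + l + i2 - n + 1) - t) (by omega)) (pb b al 0 ((i + l + i2 - n + 1) - t) ((2 * i + l + i2 - n - k + 1) - t) (by omega))) (sh al (-1) ((2 *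 i + l + i2 - n - k + 1) - t) ((2 * i + l + i2 - 2 * n - k + 1) - t) (by omega)))) (by omega)
            · have kk285 : (j + 1) ≤ (k) := by clear * - b1 b4 y17 y18 z10 z18; omega
              have kk286 : (Q) ≤ (k) := by clear * - b1 b4 b5 v12 y17 y18 z10 z18; omega
              have kk287 : (n + Q + j) ≤ (2 * k + l + 1) := by clear * - z10; omega
              have kk288 : (l + 2) ≤ (n) := by clear * - b1 b4 b5 v12 y17 y18 z10 z18; omega
              have kk289 : (Q + j) ≤ (k + i2) := by clear * - b1 b3 y17 y18 z10 z18; omega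
              have kk290 : (i2 + 1) ≤ (k) := by clear * - b1 b4 b5 v12 y17 y18 z10 z18; omega
              have kk291 : (i + m + 1) ≤ (k) := by clear * - b3 v12 z10; omega
              have kk292 : (k) ≤ (i + l + 1) := by clear * - y18 z18; omega
              have kk293 : (Q + j) ≤ (k + i2 + 1) := by clear * - b1 b3 y17 y18 z10 z18; omega
              have kk294 : (n + Q + j) ≤ (2 * k + l + 2) := by clear * - z10; omega
              have kk295 : (Q + l + 1) ≤ (n + i2) := by clear * - b1 b3 b5 v12 y17 y18 z10 z18; omega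
              have kk296 : (k + i2) ≤ (Q + j + m) := by clear * - v12; omega
              have kk297 : (2 * i + l + i2 + 2) ≤ (Q + j + k) := by clear * - b1 b3 b5 v12 y17 z10 z18 z19; omega
              have kk298 : (i2) ≤ (k) := by clear * - b1 b4 b5 v12 y17 y18 z10 z18; omega
              have kk299 : (Q + j) ≤ (2 * i + l + 2) := by clear * - b1 b3 y17 y18 z10 z18; omega
              have r300 : (n + i2 - k - l - 1) % 2 = 0 := by clear * - ev n1p n2p n3p; omega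
              have r301 : (k - j) % 2 = 0 := by clear * - ev n1p n2p n3p; omega
              have r302 : (2 * i + l + i2 - 2 * n - k + 1) % 2 = 0 := by clear * - ev n1p n2p n3p; omega
              clear * - al a2 b c1 tt n2 kk285 kk286 kk287 kk288 kk289 kk290 kk291 kk292 kk293 kk294 kk295 kk296 kk297 kk298 kk299 r300 r301 r302
              exact ivt al.ninv (Q + j - n - k) (j - n) (k - j) (k + l - 2 * n + 2) (Q + k + l - 2 * n - i2 + 1) (n + i2 - k - l - 1) (k + l - 2 * n + 1) (i2 - n) 0 (fun t h1 h2 => (cE (qf a2 al (-1) t (t + (n + k - j)) (by omega)) (sh al (-1) (t + (n + k - j)) (t + (k - j)) (by omega)))) (fun t h1 h2 => (cE (sh al 1 t (t + (n)) (by omega)) (cE (pb c1 al (-1) (t + (n)) (t + (2 * n + i2 - k - l - 1)) (by omega)) (sh al (-1) (t + (2 * n + i2 - k - l - 1)) (t + (n + i2 - k - l - 1)) (by omega))))) (fun hh => n2.f1 (rEE (sh al (-1) (i2) (i2 - n) (by omega)) (sh al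 (-2) (k + l + 1) (k + l - 2 * n + 1) (by omega)) (Eq.symm (Eq.symm hh)))) (by omega) (Q + j - n - k) (i2 - n) (2 * i + l + i2 - 2 * n - k + 1) 1 (-1) (fun t h1 h2 => (cE (cE (qa tt al (-1) t ((i + l + i2 - n + 1) - t) (by omega)) (pb b al 0 ((i + l + i2 - n + 1) - t) ((2 * i + l + i2 - n - k + 1) - t) (by omega))) (sh al (-1) ((2 * i + l + i2 - n - k + 1) - t) ((2 * i + l + i2 - 2 * n - k + 1) - t) (by omega)))) (by omega)
          · have kk303 : (j + 1) ≤ (k) := by clear * - b1 b5 y17 y18 z10 z18 z19 z20; omega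
            have kk304 : (k) ≤ (j + 2 * m) := by clear * - b1 y1 y17 y18 z18; omega
            have kk305 : (2 * Q + j + k) ≤ (4 * i + 2 * l + 2 * m + 4) := by clear * - b1 b5 y17 y18 z10 z18 z19 z20; omega
            have kk306 : (2 * i2) ≤ (j + k + 2 * m) := by clear * - b1 b5 y17 y18 z10 z18 z19 z20; omega
            have kk307 : (i + m + 1) ≤ (k) := by clear * - b1 b5 y17 y18 z10 z18 z19 z20; omega
            have kk308 : (k) ≤ (i + l + 1) := by clear * - y18 z18; omega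
            have kk309 : (2 * i + l + m + 2) ≤ (2 * k) := by clear * - b0 b1 b2 b5 y17 z10 z19 z20; omega
            have kk310 : (Q + j + m) ≤ (k + i2) := by clear * - z20; omega
            have r311 : (2 * i + l + i2 - k + 1) % 2 = 0 := by clear * - ev n1p n2p n3p; omega
            have r312 : (k - j) % 2 = 0 := by clear * - ev n1p n2p n3p; omega
            clear * - al a2 b tt kk303 kk304 kk305 kk306 kk307 kk308 kk309 kk310 r311 r312
            exact midP al (k - j) (2 * i + l + i2 - k + 1) (i2 - m) (Q + j - k) (k) (by omega) (fun t h1 h2 => (cE (qa tt al 0 t ((i + l + i2 + 1) - t) (by omega)) (pb b al 0 ((i + l + i2 + 1) - t) ((2 * i + l + i2 - k + 1) - t) (by omega)))) (fun t h1 h2 => (qf a2 al 0 t (t + (k - j)) (by omega)))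

theorem h8_9p
    (h8_10 : ∀ {W : ℤ → G} {n Q i j k l i2 m k3 : ℤ} (al : AL W n Q) (hy : (0) ≤ (i) ∧ (i) ≤ (j) ∧ (j + 1) ≤ (Q) ∧ (Q) ≤ (k) ∧ (k + 1) ≤ (n) ∧ (Q) ≤ (i + l + 1) ∧ (k + l + 2) ≤ (n) ∧ (0) ≤ (i2) ∧ (i2 + 1) ≤ (Q) ∧ (Q + m + 1) ≤ (n + i2) ∧ (i2) ≤ (m) ∧ (Q) ≤ (i + l + m + 2) ∧ (i + l + m + 3) ≤ (n) ∧ (Q) ≤ (k3) ∧ (k3 + 1) ≤ (n) ∧ (i + m + 2) ≤ (k) ∧ (i) ≤ (i2) ∧ (i2) ≤ (i) ∧ (i + m + 2) ≤ (k3) ∧ (k3) ≤ (i + l + m + 1) ∧ (m + k3 + 2) ≤ (n + i2)) (a1 : Par W (0) (j) (k - j)) (a2 : Par W (Q + j - k) (j) (k - j)) (s1 : Ant W (0) (i) (i + j)) (s2 : Ant W (j + 1) (Q) (i + j)) (b : Par W (i + 1) (i + l + 1) (k - i)) (c1 : Par W (i2 + 1) (Q) (k + l - i2 + 1)) (c2 : Par W (k + l + 2) (n) (i2 - k - l - 1)) (tt : Ant W (i2 - m) (i2) (i + l + i2 + 1)) (D1 : Par W (Q) (k3) (n + i2 - m - k3 - 1)) (D2 : Par W (i + l + m + 3) (n) (k3 - i - l - m - 2)) {L : ℤ} (mx : ∀ a b g, 0 < g → g < n →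 Par W a b g → b - a ≤ L) (hL : L ≤ (n - j - 3) ∧ L ≤ (n + Q - k - 3) ∧ L ≤ (n - l - 3) ∧ L ≤ (n + i - k - 2)) (bd0 : Bd W n L (j) (i) (k)) (n1 : Nd W (j) (i) (k)) (n2 : Nd W (i + l + 1) (i2) (k + l + 1)) (n3 : Nd W (n + i2 - m - 1) (i + l + m + 2) (k3)) (b0 : (2 * l + 3) ≤ (n)) (b1 : (n + k3) ≤ (2 * i + 2 * l + i2 + m + 4)) (b2 : (i2 + 2 * m) ≤ (i + l)) (b3 : (2 * i + j + 1) ≤ (k)), False)
    {W : ℤ → G} {n Q i j k l i2 m k3 : ℤ} (al : AL W n Q)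
    (hy : (0) ≤ (i) ∧ (i) ≤ (j) ∧ (j + 1) ≤ (Q) ∧ (Q) ≤ (k) ∧ (k + 1) ≤ (n) ∧ (Q) ≤ (i + l + 1) ∧ (k + l + 2) ≤ (n) ∧ (0) ≤ (i2) ∧ (i2 + 1) ≤ (Q) ∧ (Q + m + 1) ≤ (n + i2) ∧ (i2) ≤ (m) ∧ (Q) ≤ (i + l + m + 2) ∧ (i + l + m + 3) ≤ (n) ∧ (Q) ≤ (k3) ∧ (k3 + 1) ≤ (n) ∧ (i + m + 2) ≤ (k) ∧ (i) ≤ (i2) ∧ (i2) ≤ (i) ∧ (i + m + 2) ≤ (k3) ∧ (k3) ≤ (i + l + m + 1) ∧ (m + k3 + 2) ≤ (n + i2))
    (a1 : Par W (0) (j) (k - j))
    (a2 : Par W (Q + j - k) (j) (k - j))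
    (s1 : Ant W (0) (i) (i + j))
    (s2 : Ant W (j + 1) (Q) (i + j))
    (b : Par W (i + 1) (i + l + 1) (k - i))
    (c1 : Par W (i2 + 1) (Q) (k + l - i2 + 1))
    (c2 : Par W (k + l + 2) (n) (i2 - k - l - 1))
    (tt : Ant W (i2 - m) (i2) (i + l + i2 + 1))
    (D1 : Par W (Q) (k3) (n + i2 - m - k3 - 1))
    (D2 : Par W (i + l + m + 3) (n) (k3 - i - l - m - 2))
    {L : ℤ} (mx : ∀ a b g, 0 < g → g < n → Par W a b g → b - a ≤ L)
    (hL : L ≤ (n - j - 3) ∧ L ≤ (n + Q - k - 3) ∧ L ≤ (n - l - 3) ∧ L ≤ (n + i - k - 2))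
    (bd0 : Bd W n L (j) (i) (k))
    (n1 : Nd W (j) (i) (k))
    (n2 : Nd W (i + l + 1) (i2) (k + l + 1))
    (n3 : Nd W (n + i2 - m - 1) (i + l + m + 2) (k3))
    (b0 : (2 * l + 3) ≤ (n))
    (b1 : (n + k3) ≤ (2 * i + 2 * l + i2 + m + 4))
    (b2 : (i2 + 2 * m) ≤ (i + l)) : False := by
  have ev := al.ev
  obtain ⟨y0, y1, y2, y3, y4, y5, y6, y7, y8, y9, y10, y11, y12, y13, y14, y15, y16, y17, y18, y19, y20⟩ := id hy
  have n1p := And.intro n1.p1 n1.p2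
  have n2p := And.intro n2.p1 n2.p2
  have n3p := And.intro n3.p1 n3.p2
  by_cases z21 : (k) ≤ (2 * i + j)
  · have kk313 : (j + 1) ≤ (k) := by clear * - y2 y3; omega
    have kk314 : (k) ≤ (2 * i + j) := by clear * - z21; omega
    have kk315 : (j + 2) ≤ (k) := by clear * - y2 y3 ev n1p n2p n3p; omega
    have kk316 : (0) ≤ (j + 1) := by clear * - y10 y15 y16 z21; omega
    have kk317 : (i) ≤ (k) := by clear * - b0 b1 y10 y15 y16 y18; omega
    have r318 : (i + j) % 2 = 0 := by clear * - ev n1p n2p n3p; omega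
    have r319 : (k - j) % 2 = 0 := by clear * - ev n1p n2p n3p; omega
    clear * - al a1 s1 kk313 kk314 kk315 kk316 kk317 r318 r319
    exact midP al (k - j) (i + j) (j + 1) (0) (k) (by omega) (fun t h1 h2 => (ab s1 al 0 t ((i + j) - t) (by omega))) (fun t h1 h2 => (qf a1 al 0 t (t + (k - j)) (by omega)))
  · exact h8_10 al hy a1 a2 s1 s2 b c1 c2 tt D1 D2 mx hL bd0 n1 n2 n3 (by clear * - b0; omega) (by clear * - b1; omega) (by clear * - b2; omega) (by clear * - z21; omega)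

theorem h8_58p
    (h8_59 : ∀ {W : ℤ → G} {n Q i j k l i2 m k3 : ℤ} (al : AL W n Q) (hy : (0) ≤ (i) ∧ (i) ≤ (j) ∧ (j + 1) ≤ (Q) ∧ (Q) ≤ (k) ∧ (k + 1) ≤ (n) ∧ (Q) ≤ (i + l + 1) ∧ (k + l + 2) ≤ (n) ∧ (0) ≤ (i2) ∧ (i2 + 1) ≤ (Q) ∧ (Q + m + 1) ≤ (n + i2) ∧ (i2) ≤ (m) ∧ (Q) ≤ (i + l + m + 2) ∧ (i + l + m + 3) ≤ (n) ∧ (Q) ≤ (k3) ∧ (k3 + 1) ≤ (n) ∧ (i + m + 2) ≤ (k) ∧ (i) ≤ (i2) ∧ (i2) ≤ (i) ∧ (i + m + 2) ≤ (k3) ∧ (k3) ≤ (i + l + m + 1) ∧ (m + k3 + 2) ≤ (n + i2)) (a1 : Par W (0) (j) (k - j)) (a2 : Par W (Q + j - k) (j) (k - j)) (s1 : Ant W (0) (i) (i + j)) (s2 : Ant W (j + 1) (Q) (i + j)) (b : Par W (i + 1) (i + l + 1) (k - i)) (c1 : Par W (i2 + 1) (Q) (k + l - i2 + 1)) (c2 : Par W (k + l + 2) (n) (i2 - k - l - 1)) (tt : Ant W (i2 - m) (i2) (i + l + i2 + 1)) (D1 : Par W (Q) (k3) (n + i2 - m - k3 - 1)) (D2 : Par W (i + l + m + 3) (n) (k3 - i - l - m - 2)) {L : ℤ} (mx : ∀ a b g, 0 < g → g < n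 → Par W a b g → b - a ≤ L) (hL : L ≤ (n - j - 3) ∧ L ≤ (n + Q - k - 3) ∧ L ≤ (n - l - 3) ∧ L ≤ (n + i - k - 2)) (bd0 : Bd W n L (j) (i) (k)) (n1 : Nd W (j) (i) (k)) (n2 : Nd W (i + l + 1) (i2) (k + l + 1)) (n3 : Nd W (n + i2 - m - 1) (i + l + m + 2) (k3)) (b0 : (2 * l + 3) ≤ (n)) (b1 : (2 * i + j + 1) ≤ (k)) (b2 : (k + i2 + m + 1) ≤ (i + k3)) (b3 : (2 * Q + k + 2 * l + 2 * m + 4) ≤ (n + j + 2 * k3)) (b4 : (i + 2 * l + 2 * m + 4) ≤ (n + j)) (b5 : (3 * k) ≤ (i + 2 * j + k3)) (b6 : (n + 2 * k3) ≤ (i + 2 * k + 2 * l + 2 * m + 3)) (b7 : (3 * k + m + k3) ≤ (4 * i + l + 2 * i2 + 1)), False)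
    {W : ℤ → G} {n Q i j k l i2 m k3 : ℤ} (al : AL W n Q)
    (hy : (0) ≤ (i) ∧ (i) ≤ (j) ∧ (j + 1) ≤ (Q) ∧ (Q) ≤ (k) ∧ (k + 1) ≤ (n) ∧ (Q) ≤ (i + l + 1) ∧ (k + l + 2) ≤ (n) ∧ (0) ≤ (i2) ∧ (i2 + 1) ≤ (Q) ∧ (Q + m + 1) ≤ (n + i2) ∧ (i2) ≤ (m) ∧ (Q) ≤ (i + l + m + 2) ∧ (i + l + m + 3) ≤ (n) ∧ (Q) ≤ (k3) ∧ (k3 + 1) ≤ (n) ∧ (i + m + 2) ≤ (k) ∧ (i) ≤ (i2) ∧ (i2) ≤ (i) ∧ (i + m + 2) ≤ (k3) ∧ (k3) ≤ (i + l + m + 1) ∧ (m + k3 + 2) ≤ (n + i2))
    (a1 : Par W (0) (j) (k - j))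
    (a2 : Par W (Q + j - k) (j) (k - j))
    (s1 : Ant W (0) (i) (i + j))
    (s2 : Ant W (j + 1) (Q) (i + j))
    (b : Par W (i + 1) (i + l + 1) (k - i))
    (c1 : Par W (i2 + 1) (Q) (k + l - i2 + 1))
    (c2 : Par W (k + l + 2) (n) (i2 - k - l - 1))
    (tt : Ant W (i2 - m) (i2) (i + l + i2 + 1))
    (D1 : Par W (Q) (k3) (n + i2 - m - k3 - 1))
    (D2 : Par W (i + l + m + 3) (n) (k3 - i - l - m - 2))
    {L : ℤ} (mx : ∀ a b g, 0 < g → g < n → Par W a b g → b - a ≤ L)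
    (hL : L ≤ (n - j - 3) ∧ L ≤ (n + Q - k - 3) ∧ L ≤ (n - l - 3) ∧ L ≤ (n + i - k - 2))
    (bd0 : Bd W n L (j) (i) (k))
    (n1 : Nd W (j) (i) (k))
    (n2 : Nd W (i + l + 1) (i2) (k + l + 1))
    (n3 : Nd W (n + i2 - m - 1) (i + l + m + 2) (k3))
    (b0 : (2 * l + 3) ≤ (n))
    (b1 : (2 * i + j + 1) ≤ (k))
    (b2 : (k + i2 + m + 1) ≤ (i + k3))
    (b3 : (2 * Q + k + 2 * l + 2 * m + 4) ≤ (n + j + 2 * k3))
    (b4 : (4 * k + l + 2) ≤ (n + 2 * i + i2))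
    (b5 : (i + 2 * l + 2 * m + 4) ≤ (n + j))
    (b6 : (3 * k) ≤ (i + 2 * j + k3))
    (b7 : (n + 2 * k3) ≤ (i + 2 * k + 2 * l + 2 * m + 3)) : False := by
  have ev := al.ev
  obtain ⟨y0, y1, y2, y3, y4, y5, y6, y7, y8, y9, y10, y11, y12, y13, y14, y15, y16, y17, y18, y19, y20⟩ := id hy
  have n1p := And.intro n1.p1 n1.p2
  have n2p := And.intro n2.p1 n2.p2
  have n3p := And.intro n3.p1 n3.p2
  by_cases z113 : (4 * i + l + 2 * i2 + 2) ≤ (3 * k + m + k3)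
  · by_cases v33 : (3 * k + k3) ≤ (4 * i + l + i2 + 1)
    · have kk1318 : (3 * k + k3) ≤ (4 * i + l + m + 1) := by clear * - v33 z113; omega
      have kk1319 : (4 * i + l + 2 * i2 + 2) ≤ (3 * k + m + k3) := by clear * - z113; omega
      have kk1320 : (3 * k + 3 * l + 3 * m + 8) ≤ (2 * n + k3) := by clear * - b0 b1 b2 b5 b6 v33 y18 z113; omega
      have kk1321 : (k + 2 * i2 + k3) ≤ (2 * i + l + m) := by clear * - b1 b2 b5 b6 b7 v33 y20 z113; omega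
      have kk1322 : (i) ≤ (k3) := by clear * - b0 b1 b2 b5 b7 v33 y16 z113; omega
      have kk1323 : (2 * i + 2 * l + m + 3) ≤ (n + k3) := by clear * - b0 b1 b5 b6 b7 y18; omega
      have kk1324 : (0) ≤ (i2) := by clear * - b0 b2 b7 y16; omega
      have kk1325 : (i + l + 2 * m + 3) ≤ (n + i2) := by clear * - b0 b1 b5 b6 b7 v33 y18; omega
      have kk1326 : (3 * i) ≤ (2 * k + k3) := by clear * - b0 b1 b2 b5 b7 v33 y16 z113; omega
      have kk1327 : (2 * i) ≤ (k + k3) := by clear * - b0 b1 b2 b5 b7 v33 y16 z113; omega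
      have kk1328 : (2 * i) ≤ (2 * k) := by clear * - b0 b1 b5 b6 b7 y18; omega
      have kk1329 : (i) ≤ (k) := by clear * - b0 b1 b5 b6 b7 y18; omega
      have kk1330 : (n + 2 * k + 2 * k3) ≤ (5 * i + 3 * l + 2 * m + 5) := by clear * - b2 b7 v33 y16 z113; omega
      have kk1331 : (3 * k + k3) ≤ (4 * i + l + i2 + 1) := by clear * - v33; omega
      have r1332 : (i2 + k3 - n - m - 1) % 2 = 0 := by clear * - ev n1p n2p n3p; omega
      have r1333 : (4 * i + l + m - 3 * k - k3 + 2) % 2 = 0 := by clear * - ev n1p n2p n3p; omega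
      clear * - al b tt D2 kk1318 kk1319 kk1320 kk1321 kk1322 kk1323 kk1324 kk1325 kk1326 kk1327 kk1328 kk1329 kk1330 kk1331 r1332 r1333
      exact midP al (4 * i + l + m - 3 * k - k3 + 2) (i2 + k3 - n - m - 1) (i + l + i2 - n + 2) (3 * k + k3 - n - 3 * i + 1) (4 * i + 2 * l + m - n - 2 * k - k3 + 3) (by omega) (fun t h1 h2 => (cE (cE (ab tt al (-1) t ((i + l + i2 - n + 1) - t) (by omega)) (qf D2 al (-1) ((i + l + i2 - n + 1) - t) ((i2 + k3 - m - 1) - t) (by omega))) (sh al (-1) ((i2 + k3 - m - 1) - t) ((i2 + k3 - n - m - 1) - t) (by omega)))) (fun t h1 h2 => (cE (cE (cE (pb b al (-1) t (t + (n + i - k)) (by omega)) (pb b al 0 (t + (n + i - k)) (t + (n + 2 * i - 2 * k)) (by omega))) (qf (show Par W (k + k3 - i + 1) (k + l + 1) (2 * i + l + m - k - k3 + 2) from fun t h1 h2 => (cE (sh al (-1) t (t + (-n)) (by omega)) (cE (pb b al (-1) (t + (-n)) (t + (i - k)) (by omega)) (pb D2 al 0 (t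 + (i - k)) (t + (2 * i + l + m - k - k3 + 2)) (by omega))))) al 0 (t + (n + 2 * i - 2 * k)) (t + (n + 4 * i + l + m - 3 * k - k3 + 2)) (by omega))) (sh al (-1) (t + (n + 4 * i + l + m - 3 * k - k3 + 2)) (t + (4 * i + l + m - 3 * k - k3 + 2)) (by omega))))
    · have kk1334 : (3 * k + k3) ≤ (4 * i + l + m + 1) := by clear * - b2 b4 b7; omega
      have kk1335 : (3 * k + k3) ≤ (4 * i + l + m) := by clear * - b2 b4 b7; omega
      have kk1336 : (9 * k + l + 3 * m + k3 + 6) ≤ (2 * n + 8 * i + 2 * i2) := by clear * - b0 b1 b2 b4 b5 b7 y16; omega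
      have kk1337 : (7 * k + 3 * k3) ≤ (10 * i + 3 * l + m + 2) := by clear * - b0 b1 b2 b4 b5 b7 v33 y16; omega
      have kk1338 : (i) ≤ (k3) := by clear * - b0 b1 b2 b5 b6 b7 y16; omega
      have kk1339 : (2 * i + 2 * l + m + 3) ≤ (n + k3) := by clear * - b0 b1 b5 b6 b7 y18; omega
      have kk1340 : (0) ≤ (i2) := by clear * - b0 b2 b7 y16; omega
      have kk1341 : (i + l + 2 * m + 3) ≤ (n + i2) := by clear * - b0 b1 b2 b4 b5 b7 v33 y16; omega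
      have kk1342 : (3 * i) ≤ (2 * k + k3) := by clear * - b0 b1 b2 b5 b6 b7 y16; omega
      have kk1343 : (2 * i) ≤ (k + k3) := by clear * - b0 b1 b2 b5 b6 b7 y16; omega
      have kk1344 : (2 * i) ≤ (2 * k) := by clear * - b0 b1 b5 b6 b7 y18; omega
      have kk1345 : (i) ≤ (k) := by clear * - b0 b1 b5 b6 b7 y18; omega
      have kk1346 : (n + 2 * k + 2 * k3) ≤ (5 * i + 3 * l + 2 * m + 5) := by clear * - b2 b4 b7 y16; omega
      have kk1347 : (4 * i + l + i2 + 1) ≤ (3 * k + k3) := by clear * - v33; omega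
      have r1348 : (i2 + k3 - n - m - 1) % 2 = 0 := by clear * - ev n1p n2p n3p; omega
      have r1349 : (4 * i + l + m - 3 * k - k3 + 2) % 2 = 0 := by clear * - ev n1p n2p n3p; omega
      clear * - al b tt D2 kk1334 kk1335 kk1336 kk1337 kk1338 kk1339 kk1340 kk1341 kk1342 kk1343 kk1344 kk1345 kk1346 kk1347 r1348 r1349
      exact midP al (4 * i + l + m - 3 * k - k3 + 2) (i2 + k3 - n - m - 1) (3 * k + k3 - n - 3 * i + 1) (3 * k + k3 - n - 3 * i + 1) (4 * i + 2 * l + m - n - 2 * k - k3 + 3) (by omega) (fun t h1 h2 => (cE (cE (ab tt al (-1) t ((i + l + i2 - n + 1) - t) (by omega)) (qf D2 al (-1) ((i + l + i2 - n + 1) - t) ((i2 + k3 - m - 1) - t) (by omega))) (sh al (-1) ((i2 + k3 - m - 1) - t) ((i2 + k3 - n - m - 1) - t) (by omega)))) (fun t h1 h2 => (cE (cE (cE (pb b al (-1) t (t + (n + i - k)) (by omega)) (pb b al 0 (t + (n + i - k)) (t + (n + 2 * i - 2 * k)) (by omega))) (qf (show Par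 W (k + k3 - i + 1) (k + l + 1) (2 * i + l + m - k - k3 + 2) from fun t h1 h2 => (cE (sh al (-1) t (t + (-n)) (by omega)) (cE (pb b al (-1) (t + (-n)) (t + (i - k)) (by omega)) (pb D2 al 0 (t + (i - k)) (t + (2 * i + l + m - k - k3 + 2)) (by omega))))) al 0 (t + (n + 2 * i - 2 * k)) (t + (n + 4 * i + l + m - 3 * k - k3 + 2)) (by omega))) (sh al (-1) (t + (n + 4 * i + l + m - 3 * k - k3 + 2)) (t + (4 * i + l + m - 3 * k - k3 + 2)) (by omega))))
  · exact h8_59 al hy a1 a2 s1 s2 b c1 c2 tt D1 D2 mx hL bd0 n1 n2 n3 (by clear * - b0; omega) (by clear * - b1; omega) (by clear * - b2; omega) (by clear * - b3; omega) (by clear * - b5; omega) (by clear * - b6; omega) (by clear * - b7; omega) (by clear * - z113; omega)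

theorem h8_36p
    (h8_37 : ∀ {W : ℤ → G} {n Q i j k l i2 m k3 : ℤ} (al : AL W n Q) (hy : (0) ≤ (i) ∧ (i) ≤ (j) ∧ (j + 1) ≤ (Q) ∧ (Q) ≤ (k) ∧ (k + 1) ≤ (n) ∧ (Q) ≤ (i + l + 1) ∧ (k + l + 2) ≤ (n) ∧ (0) ≤ (i2) ∧ (i2 + 1) ≤ (Q) ∧ (Q + m + 1) ≤ (n + i2) ∧ (i2) ≤ (m) ∧ (Q) ≤ (i + l + m + 2) ∧ (i + l + m + 3) ≤ (n) ∧ (Q) ≤ (k3) ∧ (k3 + 1) ≤ (n) ∧ (i + m + 2) ≤ (k) ∧ (i) ≤ (i2) ∧ (i2) ≤ (i) ∧ (i + m + 2) ≤ (k3) ∧ (k3) ≤ (i + l + m + 1) ∧ (m + k3 + 2) ≤ (n + i2)) (a1 : Par W (0) (j) (k - j)) (a2 : Par W (Q + j - k) (j) (k - j)) (s1 : Ant W (0) (i) (i + j)) (s2 : Ant W (j + 1) (Q) (i + j)) (b : Par W (i + 1) (i + l + 1) (k - i)) (c1 : Par W (i2 + 1) (Q) (k + l - i2 + 1)) (c2 : Par W (k + l + 2) (n) (i2 - k - l - 1)) (tt : Ant W (i2 - m) (i2) (i + l + i2 + 1)) (D1 : Par W (Q) (k3) (n + i2 - m - k3 - 1)) (D2 : Par W (i + l + m + 3) (n) (k3 - i - l - m - 2)) {L : ℤ} (mx : ∀ a b g, 0 < g → g < n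 → Par W a b g → b - a ≤ L) (hL : L ≤ (n - j - 3) ∧ L ≤ (n + Q - k - 3) ∧ L ≤ (n - l - 3) ∧ L ≤ (n + i - k - 2)) (bd0 : Bd W n L (j) (i) (k)) (n1 : Nd W (j) (i) (k)) (n2 : Nd W (i + l + 1) (i2) (k + l + 1)) (n3 : Nd W (n + i2 - m - 1) (i + l + m + 2) (k3)) (b0 : (2 * l + 3) ≤ (n)) (b1 : (k + i2 + 1) ≤ (Q + j + m)) (b2 : (2 * i + j + 1) ≤ (k)) (b3 : (n + k3) ≤ (i + k + 2 * l + m + 3)) (b4 : (k + i2 + m + 1) ≤ (i + k3)) (b5 : (2 * i + 2 * l + 3 * m + 6) ≤ (n + i2 + k3)) (b6 : (k + l + m + k3 + 3) ≤ (n + 2 * i2)) (b7 : (k) ≤ (i + 2 * j + 1)) (b8 : (n + i + i2) ≤ (3 * k + l + 1)), False)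
    (h8_38 : ∀ {W : ℤ → G} {n Q i j k l i2 m k3 : ℤ} (al : AL W n Q) (hy : (0) ≤ (i) ∧ (i) ≤ (j) ∧ (j + 1) ≤ (Q) ∧ (Q) ≤ (k) ∧ (k + 1) ≤ (n) ∧ (Q) ≤ (i + l + 1) ∧ (k + l + 2) ≤ (n) ∧ (0) ≤ (i2) ∧ (i2 + 1) ≤ (Q) ∧ (Q + m + 1) ≤ (n + i2) ∧ (i2) ≤ (m) ∧ (Q) ≤ (i + l + m + 2) ∧ (i + l + m + 3) ≤ (n) ∧ (Q) ≤ (k3) ∧ (k3 + 1) ≤ (n) ∧ (i + m + 2) ≤ (k) ∧ (i) ≤ (i2) ∧ (i2) ≤ (i) ∧ (i + m + 2) ≤ (k3) ∧ (k3) ≤ (i + l + m + 1) ∧ (m + k3 + 2) ≤ (n + i2)) (a1 : Par W (0) (j) (k - j)) (a2 : Par W (Q + j - k) (j) (k - j)) (s1 : Ant W (0) (i) (i + j)) (s2 : Ant W (j + 1) (Q) (i + j)) (b : Par W (i + 1) (i + l + 1) (k - i)) (c1 : Par W (i2 + 1) (Q) (k + l - i2 + 1)) (c2 : Par W (k + l + 2) (n) (i2 - k - l - 1)) (tt : Ant W (i2 - m) (i2) (i + l + i2 + 1)) (D1 : Par W (Q) (k3) (n + i2 - m - k3 - 1)) (D2 : Par W (i + l + m + 3) (n) (k3 - i - l - m - 2)) {L : ℤ} (mx : ∀ a b g, 0 < g → g < n → Par W a b g →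 b - a ≤ L) (hL : L ≤ (n - j - 3) ∧ L ≤ (n + Q - k - 3) ∧ L ≤ (n - l - 3) ∧ L ≤ (n + i - k - 2)) (bd0 : Bd W n L (j) (i) (k)) (n1 : Nd W (j) (i) (k)) (n2 : Nd W (i + l + 1) (i2) (k + l + 1)) (n3 : Nd W (n + i2 - m - 1) (i + l + m + 2) (k3)) (b0 : (2 * l + 3) ≤ (n)) (b1 : (k + i2 + 1) ≤ (Q + j + m)) (b2 : (2 * i + j + 1) ≤ (k)) (b3 : (n + k3) ≤ (i + k + 2 * l + m + 3)) (b4 : (k + i2 + m + 1) ≤ (i + k3)) (b5 : (2 * i + 2 * l + 3 * m + 6) ≤ (n + i2 + k3)) (b6 : (k + l + m + k3 + 3) ≤ (n + 2 * i2)) (b7 : (k) ≤ (i + 2 * j + 1)) (b8 : (3 * k + l + 2) ≤ (n + i + i2)), False)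
    {W : ℤ → G} {n Q i j k l i2 m k3 : ℤ} (al : AL W n Q)
    (hy : (0) ≤ (i) ∧ (i) ≤ (j) ∧ (j + 1) ≤ (Q) ∧ (Q) ≤ (k) ∧ (k + 1) ≤ (n) ∧ (Q) ≤ (i + l + 1) ∧ (k + l + 2) ≤ (n) ∧ (0) ≤ (i2) ∧ (i2 + 1) ≤ (Q) ∧ (Q + m + 1) ≤ (n + i2) ∧ (i2) ≤ (m) ∧ (Q) ≤ (i + l + m + 2) ∧ (i + l + m + 3) ≤ (n) ∧ (Q) ≤ (k3) ∧ (k3 + 1) ≤ (n) ∧ (i + m + 2) ≤ (k) ∧ (i) ≤ (i2) ∧ (i2) ≤ (i) ∧ (i + m + 2) ≤ (k3) ∧ (k3) ≤ (i + l + m + 1) ∧ (m + k3 + 2) ≤ (n + i2))
    (a1 : Par W (0) (j) (k - j))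
    (a2 : Par W (Q + j - k) (j) (k - j))
    (s1 : Ant W (0) (i) (i + j))
    (s2 : Ant W (j + 1) (Q) (i + j))
    (b : Par W (i + 1) (i + l + 1) (k - i))
    (c1 : Par W (i2 + 1) (Q) (k + l - i2 + 1))
    (c2 : Par W (k + l + 2) (n) (i2 - k - l - 1))
    (tt : Ant W (i2 - m) (i2) (i + l + i2 + 1))
    (D1 : Par W (Q) (k3) (n + i2 - m - k3 - 1))
    (D2 : Par W (i + l + m + 3) (n) (k3 - i - l - m - 2))
    {L : ℤ} (mx : ∀ a b g, 0 < g → g < n → Par W a b g → b - a ≤ L)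
    (hL : L ≤ (n - j - 3) ∧ L ≤ (n + Q - k - 3) ∧ L ≤ (n - l - 3) ∧ L ≤ (n + i - k - 2))
    (bd0 : Bd W n L (j) (i) (k))
    (n1 : Nd W (j) (i) (k))
    (n2 : Nd W (i + l + 1) (i2) (k + l + 1))
    (n3 : Nd W (n + i2 - m - 1) (i + l + m + 2) (k3))
    (b0 : (2 * l + 3) ≤ (n))
    (b1 : (k + i2 + 1) ≤ (Q + j + m))
    (b2 : (2 * i + j + 1) ≤ (k))
    (b3 : (n + k3) ≤ (i + k + 2 * l + m + 3))
    (b4 : (k + i2 + m + 1) ≤ (i + k3))
    (b5 : (2 * i + 2 * l + 3 * m + 6) ≤ (n + i2 + k3))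
    (b6 : (k + l + m + k3 + 3) ≤ (n + 2 * i2))
    (b7 : (k) ≤ (i + 2 * j + 1)) : False := by
  have ev := al.ev
  obtain ⟨y0, y1, y2, y3, y4, y5, y6, y7, y8, y9, y10, y11, y12, y13, y14, y15, y16, y17, y18, y19, y20⟩ := id hy
  have n1p := And.intro n1.p1 n1.p2
  have n2p := And.intro n2.p1 n2.p2
  have n3p := And.intro n3.p1 n3.p2
  by_cases z70 : (n + i + i2) ≤ (3 * k + l + 1)
  · exact h8_37 al hy a1 a2 s1 s2 b c1 c2 tt D1 D2 mx hL bd0 n1 n2 n3 (by clear * - b0; omega) (by clear * - b1; omega) (by clear * - b2; omega) (by clear * - b3; omega) (by clear * - b4; omega) (by clear * - b5; omega) (by clear * - b6; omega) (by clear * - b7; omega) (by clear * - z70; omega)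
  · exact h8_38 al hy a1 a2 s1 s2 b c1 c2 tt D1 D2 mx hL bd0 n1 n2 n3 (by clear * - b0; omega) (by clear * - b1; omega) (by clear * - b2; omega) (by clear * - b3; omega) (by clear * - b4; omega) (by clear * - b5; omega) (by clear * - b6; omega) (by clear * - b7; omega) (by clear * - z70; omega)

theorem h8_65p
    {W : ℤ → G} {n Q i j k l i2 m k3 : ℤ} (al : AL W n Q)
    (hy : (0) ≤ (i) ∧ (i) ≤ (j) ∧ (j + 1) ≤ (Q) ∧ (Q) ≤ (k) ∧ (k + 1) ≤ (n) ∧ (Q) ≤ (i + l + 1) ∧ (k + l + 2) ≤ (n) ∧ (0) ≤ (i2) ∧ (i2 + 1) ≤ (Q) ∧ (Q + m + 1) ≤ (n + i2) ∧ (i2) ≤ (m) ∧ (Q) ≤ (i + l + m + 2) ∧ (i + l + m + 3) ≤ (n) ∧ (Q) ≤ (k3) ∧ (k3 + 1) ≤ (n) ∧ (i + m + 2) ≤ (k) ∧ (i) ≤ (i2) ∧ (i2) ≤ (i) ∧ (i + m + 2) ≤ (k3) ∧ (k3) ≤ (i + l + m + 1) ∧ (m + k3 + 2) ≤ (n + i2))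
    (a1 : Par W (0) (j) (k - j))
    (a2 : Par W (Q + j - k) (j) (k - j))
    (s1 : Ant W (0) (i) (i + j))
    (s2 : Ant W (j + 1) (Q) (i + j))
    (b : Par W (i + 1) (i + l + 1) (k - i))
    (c1 : Par W (i2 + 1) (Q) (k + l - i2 + 1))
    (c2 : Par W (k + l + 2) (n) (i2 - k - l - 1))
    (tt : Ant W (i2 - m) (i2) (i + l + i2 + 1))
    (D1 : Par W (Q) (k3) (n + i2 - m - k3 - 1))
    (D2 : Par W (i + l + m + 3) (n) (k3 - i - l - m - 2))
    {L : ℤ} (mx : ∀ a b g, 0 < g → g < n → Par W a b g → b - a ≤ L)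
    (hL : L ≤ (n - j - 3) ∧ L ≤ (n + Q - k - 3) ∧ L ≤ (n - l - 3) ∧ L ≤ (n + i - k - 2))
    (bd0 : Bd W n L (j) (i) (k))
    (n1 : Nd W (j) (i) (k))
    (n2 : Nd W (i + l + 1) (i2) (k + l + 1))
    (n3 : Nd W (n + i2 - m - 1) (i + l + m + 2) (k3))
    (b0 : (2 * i + 2 * l + 3 * m + 5) ≤ (n + i2 + k3))
    (b1 : (k + i2 + 1) ≤ (Q + j + m))
    (b2 : (2 * i + j + 1) ≤ (k))
    (b3 : (Q + m + 1) ≤ (k3))
    (b4 : (n + k3) ≤ (i + k + 2 * l + m + 3))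
    (b5 : (k + k3) ≤ (2 * i + l + m + 1))
    (b6 : (k3) ≤ (i2 + 2 * m + 1)) : False := by
  have ev := al.ev
  obtain ⟨y0, y1, y2, y3, y4, y5, y6, y7, y8, y9, y10, y11, y12, y13, y14, y15, y16, y17, y18, y19, y20⟩ := id hy
  have n1p := And.intro n1.p1 n1.p2
  have n2p := And.intro n2.p1 n2.p2
  have n3p := And.intro n3.p1 n3.p2
  by_cases z133 : (k3) ≤ (i + j + i2 + m + 1)
  · by_cases z134 : (n + 2 * i2) ≤ (k + l + m + k3 + 1)
    · by_cases z135 : (2 * i + l + 2 * i2 + 2) ≤ (k + m + k3)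
      · by_cases v35 : (k + k3) ≤ (2 * i + l + i2 + 1)
        · have kk1627 : (k + k3) ≤ (2 * i + l + m + 1) := by clear * - v35 z135; omega
          have kk1628 : (2 * i + l + 2 * i2 + 2) ≤ (k + m + k3) := by clear * - z135; omega
          have kk1629 : (2 * i + k + 3 * l + 3 * m + 8) ≤ (2 * n + k3) := by clear * - b0 v35 z135; omega
          have kk1630 : (2 * i2 + k3) ≤ (k + l + m) := by clear * - b0 b4 v35 z135; omega
          have kk1631 : (i) ≤ (k3) := by clear * - b0 b1 b2 b3 b6 v35 z134 z135; omega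
          have kk1632 : (2 * i + 2 * l + m + 3) ≤ (n + k3) := by clear * - b0 b6 v35 z134 z135; omega
          have kk1633 : (0) ≤ (i2) := by clear * - b0 b6 v35 z134; omega
          have kk1634 : (i + l + 2 * m + 3) ≤ (n + i2) := by clear * - b0 b4 b6 v35 z134 z135; omega
          have kk1635 : (k + k3) ≤ (2 * i + l + i2 + 1) := by clear * - v35; omega
          have kk1636 : (n + 2 * k3) ≤ (3 * i + 3 * l + 2 * m + 5) := by clear * - b4 v35 z135; omega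
          have r1637 : (3 * n + i2 + k3 - m - 1) % 2 = 0 := by clear * - ev n1p n2p n3p; omega
          have r1638 : (2 * i + l + m - k - k3 + 2) % 2 = 0 := by clear * - ev n1p n2p n3p; omega
          clear * - al b tt D2 kk1627 kk1628 kk1629 kk1630 kk1631 kk1632 kk1633 kk1634 kk1635 kk1636 r1637 r1638
          exact midP al (2 * i + l + m - k - k3 + 2) (3 * n + i2 + k3 - m - 1) (n + i + l + i2 + 2) (n + k + k3 - i + 1) (n + 2 * i + 2 * l + m - k3 + 3) (by omega) (fun t h1 h2 => (cE (cE (ab tt al 1 t ((n + i + l + i2 + 1) - t) (by omega)) (qf D2 al (-1) ((n + i + l + i2 + 1) - t) ((2 * n + i2 + k3 - m - 1) - t) (by omega))) (sh al 1 ((2 * n + i2 + k3 - m - 1) - t) ((3 * n + i2 + k3 - m - 1) - t) (by omega)))) (fun t h1 h2 => (cE (qf (show Par W (k + k3 - i + 1) (k + l + 1) (2 * i + l + m - k - k3 + 2) from fun t h1 h2 => (cE (sh al (-1) t (t + (-n)) (by omega)) (cE (pb b al (-1) (t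 + (-n)) (t + (i - k)) (by omega)) (pb D2 al 0 (t + (i - k)) (t + (2 * i + l + m - k - k3 + 2)) (by omega))))) al 1 t (t + (2 * i + l + m - n - k - k3 + 2)) (by omega)) (sh al 1 (t + (2 * i + l + m - n - k - k3 + 2)) (t + (2 * i + l + m - k - k3 + 2)) (by omega))))
        · have kk1639 : (k + k3) ≤ (2 * i + l + m + 1) := by clear * - b5; omega
          have kk1640 : (k + k3) ≤ (2 * i + l + m) := by clear * - b5 ev n1p n2p n3p; omega
          have kk1641 : (3 * k + l + 3 * m + k3 + 6) ≤ (2 * n + 2 * i + 2 * i2) := by clear * - b0 b5; omega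
          have kk1642 : (k + 3 * k3) ≤ (4 * i + 3 * l + m + 2) := by clear * - b0 b4 b5 v35; omega
          have kk1643 : (i) ≤ (k3) := by clear * - b0 b5 b6 y18 z134; omega
          have kk1644 : (2 * i + 2 * l + m + 3) ≤ (n + k3) := by clear * - b0 b5 b6 v35 z134; omega
          have kk1645 : (0) ≤ (i2) := by clear * - y7; omega
          have kk1646 : (i + l + 2 * m + 3) ≤ (n + i2) := by clear * - b0 b4 b5 b6 v35 z134; omega
          have kk1647 : (2 * i + l + i2 + 1) ≤ (k + k3) := by clear * - v35; omega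
          have kk1648 : (n + i2 + k3) ≤ (i + k + 2 * l + 2 * m + 4) := by clear * - b4 b5 v35; omega
          have r1649 : (3 * n + i2 + k3 - m - 1) % 2 = 0 := by clear * - ev n1p n2p n3p; omega
          have r1650 : (2 * i + l + m - k - k3 + 2) % 2 = 0 := by clear * - ev n1p n2p n3p; omega
          clear * - al b tt D2 kk1639 kk1640 kk1641 kk1642 kk1643 kk1644 kk1645 kk1646 kk1647 kk1648 r1649 r1650
          exact midP al (2 * i + l + m - k - k3 + 2) (3 * n + i2 + k3 - m - 1) (n + k + k3 - i + 1) (n + k + k3 - i + 1) (n + 2 * i + 2 * l + m - k3 + 3) (by omega) (fun t h1 h2 => (cE (cE (ab tt al 1 t ((n + i + l + i2 + 1) - t) (by omega)) (qf D2 al (-1) ((n + i + l + i2 + 1) - t) ((2 * n + i2 + k3 - m - 1) - t) (by omega))) (sh al 1 ((2 * n + i2 + k3 - m - 1) - t) ((3 * n + i2 + k3 - m - 1) - t) (by omega)))) (fun t h1 h2 => (cE (qf (show Par W (k + k3 - i + 1) (k + l + 1) (2 * i + l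 + m - k - k3 + 2) from fun t h1 h2 => (cE (sh al (-1) t (t + (-n)) (by omega)) (cE (pb b al (-1) (t + (-n)) (t + (i - k)) (by omega)) (pb D2 al 0 (t + (i - k)) (t + (2 * i + l + m - k - k3 + 2)) (by omega))))) al 1 t (t + (2 * i + l + m - n - k - k3 + 2)) (by omega)) (sh al 1 (t + (2 * i + l + m - n - k - k3 + 2)) (t + (2 * i + l + m - k - k3 + 2)) (by omega))))
      · have kk1651 : (n + 2 * i2) ≤ (k + l + m + k3 + 1) := by clear * - z134; omega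
        have kk1652 : (k + l + m + k3 + 3) ≤ (2 * n + 2 * i2) := by clear * - b0 b2 b5 b6 z133 z134; omega
        have kk1653 : (Q + k + l + m + 2) ≤ (n + 2 * i2) := by clear * - b0 b3 b5 b6; omega
        have kk1654 : (k + l + m + k3 + 3) ≤ (n + Q + i2) := by clear * - b0 b1 b2 b6 y17 z135; omega
        have kk1655 : (i2) ≤ (m + 1) := by clear * - b1 b2 b3 b6 y17; omega
        clear * - al c2 D1 kk1651 kk1652 kk1653 kk1654 kk1655
        exact al.ubQ (k + l + m + k3 - n - 2 * i2 + 2) (by omega) (by omega) fun t h1 h2 => (cE (sh al 1 t (t + (n)) (by omega)) (cE (pb c2 al 1 (t + (n)) (t + (k + l - i2 + 1)) (by omega)) (pb D1 al 0 (t + (k + l - i2 + 1)) (t + (k + l + m + k3 - n - 2 * i2 + 2)) (by omega))))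
    · by_cases z136 : (2 * Q + 2 * j + k3) ≤ (2 * k + 3 * i2 + m + 1)
      · have kk1656 : (i2 + m + 2) ≤ (k3) := by clear * - y17 y18; omega
        have kk1657 : (2 * Q + 2 * j + k3) ≤ (2 * k + 3 * i2 + m + 1) := by clear * - z136; omega
        have kk1658 : (2 * Q + 2 * j + k3) ≤ (4 * i + 2 * l + i2 + m + 3) := by clear * - b5 y17 y18 z136; omega
        have kk1659 : (2 * Q + 2 * k + 2 * l + m + 3) ≤ (2 * n + i2 + k3) := by clear * - b0 b1 b2 b3 b5 y17 z134 z136; omega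
        have kk1660 : (i + m + 1) ≤ (k) := by clear * - b0 b1 b2 b3 b4 y17 z133; omega
        have kk1661 : (k + i2) ≤ (Q + j + m) := by clear * - b1; omega
        have kk1662 : (i + i2 + 1) ≤ (Q + j) := by clear * - b0 b1 b2 b3 b4 y17 z133; omega
        have kk1663 : (i2) ≤ (j) := by clear * - y1 y17; omega
        have kk1664 : (k) ≤ (i + l + 1) := by clear * - b5 y18; omega
        have kk1665 : (i + m + 1) ≤ (k3) := by clear * - y18; omega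
        have kk1666 : (n + k3) ≤ (i + k + 2 * l + m + 3) := by clear * - b4; omega
        have kk1667 : (i2 + 1) ≤ (Q) := by clear * - y8; omega
        have kk1668 : (2 * i + k + 2 * l + i2 + m + 4) ≤ (n + Q + j + k3) := by clear * - b0 b1 b2 b3 b6 y17; omega
        have r1669 : (2 * i + l + i2 - j + 1) % 2 = 0 := by clear * - ev n1p n2p n3p; omega
        have r1670 : (k3 - i2 - m - 1) % 2 = 0 := by clear * - ev n1p n2p n3p; omega
        clear * - al a2 b c2 tt D2 kk1656 kk1657 kk1658 kk1659 kk1660 kk1661 kk1662 kk1663 kk1664 kk1665 kk1666 kk1667 kk1668 r1669 r1670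
        exact midP al (k3 - i2 - m - 1) (2 * i + l + i2 - j + 1) (Q) (i2 + 1) (n + k3 - k - l - m - 2) (by omega) (fun t h1 h2 => (cE (cI (pb a2 al 0 t (t + (j - k)) (by omega)) (qa tt al 0 (t + (j - k)) ((i + k + l + i2 - j + 1) - t) (by omega))) (pb b al 0 ((i + k + l + i2 - j + 1) - t) ((2 * i + l + i2 - j + 1) - t) (by omega)))) (fun t h1 h2 => (cE (qf (show Par W (i2 + 1) (n + i2 - k - l - 1) (k + k3 - i - i2 - m - 1) from fun t h1 h2 => (cE (sh al (-1) t (t + (-n)) (by omega)) (cE (pb c2 al (-1) (t + (-n)) (t + (k + l - i2 + 1)) (by omega)) (qf D2 al 0 (t + (k + l - i2 + 1)) (t + (k + k3 - i - i2 - m - 1)) (by omega))))) al 0 t (t + (k + k3 - i - i2 - m - 1)) (by omega)) (pb b al 0 (t + (k + k3 - i - i2 - m - 1)) (t + (k3 - i2 - m - 1)) (by omega))))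
      · by_cases z137 : (2 * i + 2 * l + 4) ≤ (n)
        · by_cases z138 : (j + 4 * k + 2 * l + m + 5) ≤ (2 * n + i + i2 + k3)
          · by_cases v36 : (j + i2 + m + 2) ≤ (k3)
            · have kk1671 : (j + i2 + m + 2) ≤ (i + k3) := by clear * - v36 z133; omega
              have kk1672 : (k3) ≤ (i + j + i2 + m + 1) := by clear * - z133; omega
              have kk1673 : (k3) ≤ (i + 3 * j + i2 + m + 3) := by clear * - b2 b3 v36 z133 z136; omega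
              have kk1674 : (i2 + m + 1) ≤ (i + j + k3) := by clear * - b2 b3 v36 z133 z136; omega
              have kk1675 : (i + m + 1) ≤ (k) := by clear * - b0 b3 b4 b6 v36 z133 z136 z137; omega
              have kk1676 : (j + i2 + m + 2) ≤ (k3) := by clear * - v36; omega
              have kk1677 : (j + i2 + 1) ≤ (k) := by clear * - b4 v36 z133 z137; omega
              have kk1678 : (i + j + i2 + m + 2) ≤ (k + k3) := by clear * - b2 b3 v36 z133 z136; omega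
              have kk1679 : (k3) ≤ (l + i2 + m + 2) := by clear * - b2 b3 b4 v36 z133 z136 z138; omega
              have kk1680 : (k + k3) ≤ (i + l + i2 + m + 2) := by clear * - b2 b3 b4 b6 v36 z134 z136 z138; omega
              have kk1681 : (2 * k + l + 1) ≤ (n + i2) := by clear * - b2 b3 b6 v36 z134 z136 z138; omega
              have r1682 : (i + j) % 2 = 0 := by clear * - ev n1p n2p n3p; omega
              have r1683 : (i + k3 - j - i2 - m - 1) % 2 = 0 := by clear * - ev n1p n2p n3p; omega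
              clear * - al a1 s1 b c2 D2 kk1671 kk1672 kk1673 kk1674 kk1675 kk1676 kk1677 kk1678 kk1679 kk1680 kk1681 r1682 r1683
              exact midP al (i + k3 - j - i2 - m - 1) (i + j) (0) (0) (i + k3 - i2 - m - 1) (by omega) (fun t h1 h2 => (qa s1 al 0 t ((i + j) - t) (by omega))) (fun t h1 h2 => (cE (cE (cE (qf a1 al 0 t (t + (k - j)) (by omega)) (qf (show Par W (i2 + 1) (n + i2 - k - l - 1) (k + k3 - i - i2 - m - 1) from fun t h1 h2 => (cE (sh al (-1) t (t + (-n)) (by omega)) (cE (pb c2 al (-1) (t + (-n)) (t + (k + l - i2 + 1)) (by omega)) (qf D2 al 0 (t + (k + l - i2 + 1)) (t + (k + k3 - i - i2 - m - 1)) (by omega))))) al 0 (t + (k - j)) (t + (2 * k + k3 - i - j - i2 - m - 1)) (by omega))) (pb b al 0 (t + (2 * k + k3 - i - j - i2 - m - 1)) (t + (k + k3 - j - i2 - m - 1)) (by omega))) (pb b al 0 (t + (k + k3 - j - i2 - m - 1)) (t + (i + k3 - j - i2 - m - 1)) (by omega))))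
            · by_cases v37 : (n + i2) ≤ (2 * k + l + 1)
              · have kk1684 : (j + i2 + m + 2) ≤ (i + k3) := by clear * - v37 z138; omega
                have kk1685 : (j + 4 * k + 2 * l + m + 5) ≤ (2 * n + i + i2 + k3) := by clear * - z138; omega
                have kk1686 : (j + 4 * k + 2 * l + i2 + 3 * m + 7) ≤ (2 * n + i + 3 * k3) := by clear * - b2 b3 v36 v37 z136 z138; omega
                have kk1687 : (j + 8 * k + 4 * l + 3 * m + 9) ≤ (4 * n + i + i2 + 3 * k3) := by clear * - b2 b3 v36 v37 z136 z138; omega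
                have kk1688 : (i + m + 1) ≤ (k) := by clear * - b2 b3 v36 v37 z134 z136 z138; omega
                have kk1689 : (k3) ≤ (j + i2 + m + 2) := by clear * - v36; omega
                have kk1690 : (k3) ≤ (k + m + 1) := by clear * - b4 v36 v37 z137 z138; omega
                have kk1691 : (i) ≤ (k) := by clear * - b2 b3 v36 v37 z136 z138; omega
                have kk1692 : (n + i2) ≤ (2 * k + l + 1) := by clear * - v37; omega
                have kk1693 : (n + k3) ≤ (i + k + 2 * l + m + 3) := by clear * - b4; omega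
                have r1694 : (i + j) % 2 = 0 := by clear * - ev n1p n2p n3p; omega
                have r1695 : (i + k3 - j - i2 - m - 1) % 2 = 0 := by clear * - ev n1p n2p n3p; omega
                clear * - al a1 s1 b c2 D2 kk1684 kk1685 kk1686 kk1687 kk1688 kk1689 kk1690 kk1691 kk1692 kk1693 r1694 r1695
                exact midP al (i + k3 - j - i2 - m - 1) (i + j) (j + 2 * k + l + m - n - k3 + 3) (j + i2 + m - k3 + 2) (n + i + k3 - 2 * k - l - m - 2) (by omega) (fun t h1 h2 => (qa s1 al 0 t ((i + j) - t) (by omega))) (fun t h1 h2 => (cE (cE (cE (qf a1 al 0 t (t + (k - j)) (by omega)) (qf (show Par W (i2 + 1) (n + i2 - k - l - 1) (k + k3 - i - i2 - m - 1) from fun t h1 h2 => (cE (sh al (-1) t (t + (-n)) (by omega)) (cE (pb c2 al (-1) (t + (-n)) (t + (k + l - i2 + 1)) (by omega)) (qf D2 al 0 (t + (k + l - i2 + 1)) (t + (k + k3 - i - i2 - m - 1)) (by omega))))) al 0 (t + (k - j)) (t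 + (2 * k + k3 - i - j - i2 - m - 1)) (by omega))) (pb b al 0 (t + (2 * k + k3 - i - j - i2 - m - 1)) (t + (k + k3 - j - i2 - m - 1)) (by omega))) (pb b al 0 (t + (k + k3 - j - i2 - m - 1)) (t + (i + k3 - j - i2 - m - 1)) (by omega))))
              · have kk1696 : (j + i2 + m + 2) ≤ (i + k3) := by clear * - b3 y17 y2; omega
                have kk1697 : (j + i2 + m + 3) ≤ (i + k3) := by clear * - b3 y17 y2 ev n1p n2p n3p; omega
                have kk1698 : (j + 3 * i2 + 3 * m + 5) ≤ (i + 3 * k3) := by clear * - b3 b4 v36 y17 y2 z136 z137; omega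
                have kk1699 : (i + m + 1) ≤ (k) := by clear * - b0 b1 b2 b3 b4 y17 z133; omega
                have kk1700 : (k3) ≤ (j + i2 + m + 2) := by clear * - v36; omega
                have kk1701 : (k3) ≤ (k + m + 1) := by clear * - b2 y17 z133; omega
                have kk1702 : (i) ≤ (k) := by clear * - b2 y17 y18 z133; omega
                have kk1703 : (k3) ≤ (l + i2 + m + 2) := by clear * - b0 b1 b2 b3 b4 y20 z133 z138; omega
                have kk1704 : (k + k3) ≤ (i + l + i2 + m + 2) := by clear * - b4 v37; omega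
                have kk1705 : (2 * k + l + 1) ≤ (n + i2) := by clear * - v37; omega
                have r1706 : (i + j) % 2 = 0 := by clear * - ev n1p n2p n3p; omega
                have r1707 : (i + k3 - j - i2 - m - 1) % 2 = 0 := by clear * - ev n1p n2p n3p; omega
                clear * - al a1 s1 b c2 D2 kk1696 kk1697 kk1698 kk1699 kk1700 kk1701 kk1702 kk1703 kk1704 kk1705 r1706 r1707
                exact midP al (i + k3 - j - i2 - m - 1) (i + j) (j + i2 + m - k3 + 2) (j + i2 + m - k3 + 2) (i + k3 - i2 - m - 1) (by omega) (fun t h1 h2 => (qa s1 al 0 t ((i + j) - t) (by omega))) (fun t h1 h2 => (cE (cE (cE (qf a1 al 0 t (t + (k - j)) (by omega)) (qf (show Par W (i2 + 1) (n + i2 - k - l - 1) (k + k3 - i - i2 - m - 1) from fun t h1 h2 => (cE (sh al (-1) t (t + (-n)) (by omega)) (cE (pb c2 al (-1) (t + (-n)) (t + (k + l - i2 + 1)) (by omega)) (qf D2 al 0 (t + (k + l - i2 + 1)) (t + (k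 + k3 - i - i2 - m - 1)) (by omega))))) al 0 (t + (k - j)) (t + (2 * k + k3 - i - j - i2 - m - 1)) (by omega))) (pb b al 0 (t + (2 * k + k3 - i - j - i2 - m - 1)) (t + (k + k3 - j - i2 - m - 1)) (by omega))) (pb b al 0 (t + (k + k3 - j - i2 - m - 1)) (t + (i + k3 - j - i2 - m - 1)) (by omega))))
          · have kk1708 : (2 * j + 2) ≤ (i + k) := by clear * - b3 b5 b6 y17 y2 z134 z137 z138; omega
            have kk1709 : (k) ≤ (i + 2 * j + 1) := by clear * - b3 b6 y17 y2 z133 z134 z136 z138; omega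
            have kk1710 : (k) ≤ (2 * j + 1) := by clear * - b3 b6 y17 y2 z134 z136 z138; omega
            have kk1711 : (i + j + 1) ≤ (k) := by clear * - b2 y17 y7; omega
            have r1712 : (i + 2 * j - k) % 2 = 0 := by clear * - ev n1p n2p n3p; omega
            clear * - al a1 s1 kk1708 kk1709 kk1710 kk1711 r1712
            obtain ⟨t, ht⟩ : ∃ t, 2 * t = (i + 2 * j - k) := ⟨(i + 2 * j - k) / 2, by omega⟩
            exact al.ninv t (cI (qf a1 al 0 t (t + (k - j)) (by omega)) (ab s1 al 0 (t + (k - j)) t (by omega)))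
        · have kk1713 : (i2 + m + 2) ≤ (k3) := by clear * - b0 b2 b3 b6 y17 z136 z137; omega
          have kk1714 : (k3) ≤ (2 * i + i2 + m + 1) := by clear * - b0 b6 y17 z137; omega
          have kk1715 : (2 * j + i2 + k3 + 1) ≤ (2 * i + 2 * k + m) := by clear * - b0 b2 b3 b6 y17 z136 z137; omega
          have kk1716 : (2 * j + 2 * k + 2 * l + m + 5) ≤ (2 * n + i2 + k3) := by clear * - b2 b3 b6 y17 y2 z133 z134 z136; omega
          have kk1717 : (i + m + 1) ≤ (k) := by clear * - b0 b2 b3 b4 y17 z133 z136 z137; omega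
          have kk1718 : (i) ≤ (j) := by clear * - y1; omega
          have kk1719 : (i + m + 1) ≤ (k3) := by clear * - y18; omega
          have kk1720 : (n + k3) ≤ (i + k + 2 * l + m + 3) := by clear * - b4; omega
          have kk1721 : (i + 2 * k + l + m + 2) ≤ (n + i2 + k3) := by clear * - b1 b2 b3 b6 y2 z134; omega
          have kk1722 : (i2) ≤ (j) := by clear * - y1 y17; omega
          have r1723 : (i + k - 2 * n) % 2 = 0 := by clear * - ev n1p n2p n3p; omega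
          have r1724 : (k3 - i2 - m - 1) % 2 = 0 := by clear * - ev n1p n2p n3p; omega
          clear * - al a1 s1 b c2 D2 kk1713 kk1714 kk1715 kk1716 kk1717 kk1718 kk1719 kk1720 kk1721 kk1722 r1723 r1724
          exact midP al (k3 - i2 - m - 1) (i + k - 2 * n) (j - n + 1) (i2 - n + 1) (k3 - k - l - m - 2) (by omega) (fun t h1 h2 => (cE (cE (ab s1 al (-1) t ((i + j - n) - t) (by omega)) (qf a1 al 0 ((i + j - n) - t) ((i + k - n) - t) (by omega))) (sh al (-1) ((i + k - n) - t) ((i + k - 2 * n) - t) (by omega)))) (fun t h1 h2 => (cE (cE (qf (show Par W (i2 + 1) (n + i2 - k - l - 1) (k + k3 - i - i2 - m - 1) from fun t h1 h2 => (cE (sh al (-1) t (t + (-n)) (by omega)) (cE (pb c2 al (-1) (t + (-n)) (t + (k + l - i2 + 1)) (by omega)) (qf D2 al 0 (t + (k + l - i2 + 1)) (t + (k + k3 - i - i2 - m - 1)) (by omega))))) al (-1) t (t + (n + k + k3 - i - i2 - m - 1)) (by omega)) (pb b al 0 (t + (n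 + k + k3 - i - i2 - m - 1)) (t + (n + k3 - i2 - m - 1)) (by omega))) (sh al (-1) (t + (n + k3 - i2 - m - 1)) (t + (k3 - i2 - m - 1)) (by omega))))
  · by_cases v38 : (n + i2) ≤ (2 * i + 2 * l + m + 3)
    · have kk1725 : (2 * i + 2 * l + 4) ≤ (n + 2 * i2) := by clear * - b0 b1 b3 b4 b6 v38 y17 z133; omega
      have kk1726 : (2 * i + 2 * l + 3) ≤ (n) := by clear * - b0 b6 y1 y17 z133; omega
      have kk1727 : (i2) ≤ (i) := by clear * - y17; omega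
      have kk1728 : (k) ≤ (i + l + 1) := by clear * - b0 b1 b2 b3 b5 b6 v38; omega
      have kk1729 : (i + m + 1) ≤ (k) := by clear * - b0 b1 b3 b4 b6 y17 z133; omega
      have kk1730 : (n + i2) ≤ (2 * i + 2 * l + m + 3) := by clear * - v38; omega
      have r1731 : (3 * n + 2 * i + 2 * l + 2) % 2 = 0 := by clear * - ev n1p n2p n3p; omega
      clear * - al b c2 tt kk1725 kk1726 kk1727 kk1728 kk1729 kk1730 r1731
      obtain ⟨t, ht⟩ : ∃ t, 2 * t = (3 * n + 2 * i + 2 * l + 2) := ⟨(3 * n + 2 * i + 2 * l + 2) / 2, by omega⟩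
      exact al.ninv t (cE (cI (cE (qf c2 al 1 t (t + (i2 - n - k - l - 1)) (by omega)) (qf b al 0 (t + (i2 - n - k - l - 1)) (t + (i2 - n - i - l - 1)) (by omega))) (ab tt al 0 (t + (i2 - n - i - l - 1)) ((n + 2 * i + 2 * l + 2) - t) (by omega))) (sh al 2 ((n + 2 * i + 2 * l + 2) - t) t (by omega)))
    · have kk1732 : (2 * i + 2 * l + 4) ≤ (n + 2 * i2) := by clear * - b0 b6 y17 y18; omega
      have kk1733 : (n + 2 * i2) ≤ (2 * i + 2 * l + 2 * m + 3) := by clear * - b1 b3 b4 b6 y17 y7 z133; omega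
      have kk1734 : (i2) ≤ (i) := by clear * - y17; omega
      have kk1735 : (k) ≤ (i + l + 1) := by clear * - b5 y18; omega
      have kk1736 : (i + m + 1) ≤ (k) := by clear * - b0 b1 b3 b4 b6 y17 z133; omega
      have kk1737 : (2 * i + 2 * l + m + 3) ≤ (n + i2) := by clear * - v38; omega
      have r1738 : (3 * n + 2 * i + 2 * l + 2) % 2 = 0 := by clear * - ev n1p n2p n3p; omega
      clear * - al b c2 tt kk1732 kk1733 kk1734 kk1735 kk1736 kk1737 r1738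
      obtain ⟨t, ht⟩ : ∃ t, 2 * t = (3 * n + 2 * i + 2 * l + 2) := ⟨(3 * n + 2 * i + 2 * l + 2) / 2, by omega⟩
      exact al.ninv t (cE (cI (cE (qf c2 al 1 t (t + (i2 - n - k - l - 1)) (by omega)) (qf b al 0 (t + (i2 - n - k - l - 1)) (t + (i2 - n - i - l - 1)) (by omega))) (ab tt al 0 (t + (i2 - n - i - l - 1)) ((n + 2 * i + 2 * l + 2) - t) (by omega))) (sh al 2 ((n + 2 * i + 2 * l + 2) - t) t (by omega)))

theorem h8_72p
    {W : ℤ → G} {n Q i j k l i2 m k3 : ℤ} (al : AL W n Q)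
    (hy : (0) ≤ (i) ∧ (i) ≤ (j) ∧ (j + 1) ≤ (Q) ∧ (Q) ≤ (k) ∧ (k + 1) ≤ (n) ∧ (Q) ≤ (i + l + 1) ∧ (k + l + 2) ≤ (n) ∧ (0) ≤ (i2) ∧ (i2 + 1) ≤ (Q) ∧ (Q + m + 1) ≤ (n + i2) ∧ (i2) ≤ (m) ∧ (Q) ≤ (i + l + m + 2) ∧ (i + l + m + 3) ≤ (n) ∧ (Q) ≤ (k3) ∧ (k3 + 1) ≤ (n) ∧ (i + m + 2) ≤ (k) ∧ (i) ≤ (i2) ∧ (i2) ≤ (i) ∧ (i + m + 2) ≤ (k3) ∧ (k3) ≤ (i + l + m + 1) ∧ (m + k3 + 2) ≤ (n + i2))
    (a1 : Par W (0) (j) (k - j))
    (a2 : Par W (Q + j - k) (j) (k - j))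
    (s1 : Ant W (0) (i) (i + j))
    (s2 : Ant W (j + 1) (Q) (i + j))
    (b : Par W (i + 1) (i + l + 1) (k - i))
    (c1 : Par W (i2 + 1) (Q) (k + l - i2 + 1))
    (c2 : Par W (k + l + 2) (n) (i2 - k - l - 1))
    (tt : Ant W (i2 - m) (i2) (i + l + i2 + 1))
    (D1 : Par W (Q) (k3) (n + i2 - m - k3 - 1))
    (D2 : Par W (i + l + m + 3) (n) (k3 - i - l - m - 2))
    {L : ℤ} (mx : ∀ a b g, 0 < g → g < n → Par W a b g → b - a ≤ L)
    (hL : L ≤ (n - j - 3) ∧ L ≤ (n + Q - k - 3) ∧ L ≤ (n - l - 3) ∧ L ≤ (n + i - k - 2))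
    (bd0 : Bd W n L (j) (i) (k))
    (n1 : Nd W (j) (i) (k))
    (n2 : Nd W (i + l + 1) (i2) (k + l + 1))
    (n3 : Nd W (n + i2 - m - 1) (i + l + m + 2) (k3))
    (b0 : (k + i2 + 1) ≤ (Q + j + m))
    (b1 : (2 * i + j + 1) ≤ (k))
    (b2 : (m + k3) ≤ (i + l + 2 * i2 + 1))
    (b3 : (1) ≤ (m))
    (b4 : (Q + k3) ≤ (i + l + i2 + m + 2))
    (b5 : (Q + k + l + 1) ≤ (n + i2))
    (b6 : (Q + m + 1) ≤ (k3))
    (b7 : (i + l + i2 + m + 3) ≤ (k + k3))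
    (b8 : (2 * i + 2 * l + 2 * m + 3) ≤ (n + 2 * i2))
    (b9 : (k) ≤ (i + 2 * j)) : False := by
  have ev := al.ev
  obtain ⟨y0, y1, y2, y3, y4, y5, y6, y7, y8, y9, y10, y11, y12, y13, y14, y15, y16, y17, y18, y19, y20⟩ := id hy
  have n1p := And.intro n1.p1 n1.p2
  have n2p := And.intro n2.p1 n2.p2
  have n3p := And.intro n3.p1 n3.p2
  by_cases z159 : (2 * j + 1) ≤ (i + k)
  · have kk1962 : (k) ≤ (i + 2 * j) := by clear * - b9; omega
    have kk1963 : (2 * j + 1) ≤ (i + k) := by clear * - z159; omega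
    have kk1964 : (i) ≤ (j) := by clear * - b1 b9; omega
    have r1965 : (i + k - 2 * n) % 2 = 0 := by clear * - ev n1p n2p n3p; omega
    clear * - al a1 s1 kk1962 kk1963 kk1964 r1965
    obtain ⟨t, ht⟩ : ∃ t, 2 * t = (i + k - 2 * n) := ⟨(i + k - 2 * n) / 2, by omega⟩
    exact al.ninv t (cE (cI (pb a1 al (-1) t (t + (n + j - k)) (by omega)) (qa s1 al 0 (t + (n + j - k)) ((i + k - n) - t) (by omega))) (sh al (-1) ((i + k - n) - t) t (by omega)))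
  · by_cases z160 : (n + 2 * i2) ≤ (k + l + m + k3 + 1)
    · by_cases z161 : (Q + k + l + m + 2) ≤ (n + 2 * i2)
      · have kk1966 : (n + 2 * i2) ≤ (k + l + m + k3 + 1) := by clear * - z160; omega
        have kk1967 : (k + l + m + k3 + 3) ≤ (2 * n + 2 * i2) := by clear * - b0 b1 b2 b3 b8 y17 z160 z161; omega
        have kk1968 : (k + l + m + k3 + 3) ≤ (n + Q + i2) := by clear * - b4 b8 y17 y2 z159; omega
        have kk1969 : (Q + k + l + m + 2) ≤ (n + 2 * i2) := by clear * - z161; omega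
        clear * - al c1 D1 kk1966 kk1967 kk1968 kk1969
        exact al.ubQ (k + l + m + k3 - n - 2 * i2 + 2) (by omega) (by omega) fun t h1 h2 => (cE (sh al 1 t (t + (n)) (by omega)) (cE (qf c1 al 1 (t + (n)) (t + (k + l - i2 + 1)) (by omega)) (pb D1 al 0 (t + (k + l - i2 + 1)) (t + (k + l + m + k3 - n - 2 * i2 + 2)) (by omega))))
      · have kk1970 : (2 * k + l + 2) ≤ (n + j + i2) := by clear * - b5 b9 y2 z159; omega
        have kk1971 : (j + i2) ≤ (2 * k + l) := by clear * - b0 b1 b2 b3 b6 b8 y17 z161; omega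
        have kk1972 : (j + i2 + 1) ≤ (k) := by clear * - b1 y17 y7; omega
        have kk1973 : (n + i2) ≤ (2 * k + l + 1) := by clear * - b4 b6 b8 y17 y7 z161; omega
        clear * - al a1 c2 kk1970 kk1971 kk1972 kk1973
        exact al.ubP (n + j + i2 - 2 * k - l - 1) (by omega) (by omega) fun t h1 h2 => (cE (sh al 2 t (t + (2 * n)) (by omega)) (cE (qf c2 al 1 (t + (2 * n)) (t + (n + i2 - k - l - 1)) (by omega)) (pb a1 al 0 (t + (n + i2 - k - l - 1)) (t + (n + j + i2 - 2 * k - l - 1)) (by omega))))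
    · by_cases z162 : (n + 2 * i2) ≤ (k + l + m + k3 + 2)
      · have kk1974 : (k + l + m + 3) ≤ (n + i2) := by clear * - b3 y17 y18 z160; omega
        have kk1975 : (i2) ≤ (m) := by clear * - y10; omega
        have kk1976 : (k + l + m + k3 + 2) ≤ (n + 2 * i2) := by clear * - z160; omega
        have kk1977 : (n + 2 * i2) ≤ (k + l + m + k3 + 2) := by clear * - z162; omega
        clear * - al c2 n3 kk1974 kk1975 kk1976 kk1977
        exact n3.f0 (qf c2 al 0 (n + i2 - m - 1) (k3) (by omega))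
      · by_cases z163 : (2 * i + k + 3 * l + 2 * m + 6) ≤ (n + 2 * k3)
        · by_cases v48 : (2 * i + l + 2 * m + 3) ≤ (k + k3)
          · have kk1978 : (i + 1) ≤ (k) := by clear * - b0 b1 b2 b3 b4 b7; omega
            have kk1979 : (2 * i + l + i2 + 2 * m + 4) ≤ (k + 2 * k3) := by clear * - b7 y18; omega
            have kk1980 : (k + 2 * k3) ≤ (2 * i + 2 * l + i2 + 2 * m + 4) := by clear * - b4 y17 y2 z159; omega
            have kk1981 : (k + 2 * k3) ≤ (3 * i + 2 * l + 2 * m + 4) := by clear * - b4 y17 y2 z159; omega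
            have kk1982 : (2 * i + k + 3 * l + 2 * m + 6) ≤ (n + 2 * k3) := by clear * - z163; omega
            have kk1983 : (i + m + 1) ≤ (k) := by clear * - v48 y19; omega
            have kk1984 : (2 * i + l + 2 * m + 3) ≤ (k + k3) := by clear * - v48; omega
            have kk1985 : (k3) ≤ (i + l + m + 2) := by clear * - y19; omega
            have r1986 : (k - i) % 2 = 0 := by clear * - ev n1p n2p n3p; omega
            have r1987 : (k + 2 * k3 - 2 * i - l - i2 - 2 * m - 3) % 2 = 0 := by clear * - ev n1p n2p n3p; omega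
            clear * - al b c2 D2 n2 kk1978 kk1979 kk1980 kk1981 kk1982 kk1983 kk1984 kk1985 r1986 r1987
            exact n2.f0 (rEE (sh al 1 (i + l + 1) (n + i + l + 1) (by omega)) (sh al 1 (k + l + 1) (n + k + l + 1) (by omega)) (rotR (k - i) (k + 2 * k3 - 2 * i - l - i2 - 2 * m - 3) (n + i + l + 1) (n + k + l + 1) (by omega) (fun t h1 h2 => (cE (qf b al 1 t (t + (k - n - i)) (by omega)) (sh al 1 (t + (k - n - i)) (t + (k - i)) (by omega)))) (fun t h1 h2 => (cE (cE (qf (show Par W (i2 + 1) (n + i2 - k - l - 1) (k + k3 - i - i2 - m - 1) from fun t h1 h2 => (cE (sh al (-1) t (t + (-n)) (by omega)) (cE (pb c2 al (-1) (t + (-n)) (t + (k + l - i2 + 1)) (by omega)) (qf D2 al 0 (t + (k + l - i2 + 1)) (t + (k + k3 - i - i2 - m - 1)) (by omega))))) al 1 t (t + (k + k3 - n - i - i2 - m - 1)) (by omega)) (qf D2 al 0 (t + (k + k3 - n - i - i2 - m - 1)) (t + (k + 2 * k3 - n - 2 * i - l - i2 - 2 *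 m - 3)) (by omega))) (sh al 1 (t + (k + 2 * k3 - n - 2 * i - l - i2 - 2 * m - 3)) (t + (k + 2 * k3 - 2 * i - l - i2 - 2 * m - 3)) (by omega))))))
          · have kk1988 : (i + 1) ≤ (k) := by clear * - b1 b2 b3 b7 v48 z159; omega
            have kk1989 : (2 * i + l + i2 + 2 * m + 4) ≤ (k + 2 * k3) := by clear * - b7 y18; omega
            have kk1990 : (k + 2 * k3) ≤ (2 * i + 2 * l + i2 + 2 * m + 4) := by clear * - b1 b2 v48 y17 z159; omega
            have kk1991 : (k3) ≤ (i + l + 1) := by clear * - b1 b2 v48 y17 z159; omega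
            have kk1992 : (2 * i + k + 3 * l + 2 * m + 6) ≤ (n + 2 * k3) := by clear * - z163; omega
            have kk1993 : (i + m + 1) ≤ (k) := by clear * - b1 b2 b7 v48 y17 z159; omega
            have kk1994 : (k + k3) ≤ (2 * i + l + 2 * m + 3) := by clear * - v48; omega
            have kk1995 : (k3) ≤ (i + l + m + 2) := by clear * - y19; omega
            have r1996 : (k - i) % 2 = 0 := by clear * - ev n1p n2p n3p; omega
            have r1997 : (k + 2 * k3 - 2 * i - l - i2 - 2 * m - 3) % 2 = 0 := by clear * - ev n1p n2p n3p; omega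
            clear * - al b c2 D2 n2 kk1988 kk1989 kk1990 kk1991 kk1992 kk1993 kk1994 kk1995 r1996 r1997
            exact n2.f0 (rEE (sh al 1 (i + l + 1) (n + i + l + 1) (by omega)) (sh al 1 (k + l + 1) (n + k + l + 1) (by omega)) (rotR (k - i) (k + 2 * k3 - 2 * i - l - i2 - 2 * m - 3) (n + i + l + 1) (n + k + l + 1) (by omega) (fun t h1 h2 => (cE (qf b al 1 t (t + (k - n - i)) (by omega)) (sh al 1 (t + (k - n - i)) (t + (k - i)) (by omega)))) (fun t h1 h2 => (cE (cE (qf (show Par W (i2 + 1) (n + i2 - k - l - 1) (k + k3 - i - i2 - m - 1) from fun t h1 h2 => (cE (sh al (-1) t (t + (-n)) (by omega)) (cE (pb c2 al (-1) (t + (-n)) (t + (k + l - i2 + 1)) (by omega)) (qf D2 al 0 (t + (k + l - i2 + 1)) (t + (k + k3 - i - i2 - m - 1)) (by omega))))) al 1 t (t + (k + k3 - n - i - i2 - m - 1)) (by omega)) (qf D2 al 0 (t + (k + k3 - n - i - i2 - m - 1)) (t + (k + 2 * k3 - n - 2 * i - l - i2 - 2 *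 m - 3)) (by omega))) (sh al 1 (t + (k + 2 * k3 - n - 2 * i - l - i2 - 2 * m - 3)) (t + (k + 2 * k3 - 2 * i - l - i2 - 2 * m - 3)) (by omega))))))
        · by_cases z164 : (Q + k) ≤ (2 * i + l + m + 3)
          · by_cases z165 : (i + 2 * k + 2 * l + m + 4) ≤ (n + j + i2 + k3)
            · have kk1998 : (i + 2 * k + 2 * l + m + 4) ≤ (n + j + i2 + k3) := by clear * - z165; omega
              have kk1999 : (j + i2 + k3) ≤ (i + 2 * k + 2 * l + m + 2) := by clear * - b0 b1 b2 b3 b7 y17 z163 z164 z165; omega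
              have kk2000 : (k3) ≤ (k + l + 1) := by clear * - b0 b1 b2 b6 b7 z162 z163 z164; omega
              have kk2001 : (j + i2 + 1) ≤ (k) := by clear * - b1 y17 y7; omega
              have kk2002 : (k3) ≤ (i + l + m + 2) := by clear * - y19; omega
              have kk2003 : (n + i2 + k3) ≤ (i + 2 * k + 2 * l + m + 3) := by clear * - b7 z163; omega
              clear * - al a1 c2 D2 kk1998 kk1999 kk2000 kk2001 kk2002 kk2003
              exact al.ubP (n + j + i2 + k3 - i - 2 * k - 2 * l - m - 3) (by omega) (by omega) fun t h1 h2 => (cE (cE (qf D2 al (-1) t (t + (n + k3 - i - l - m - 2)) (by omega)) (qf c2 al 0 (t + (n + k3 - i - l - m - 2)) (t + (n + i2 + k3 - i - k - 2 * l - m - 3)) (by omega))) (pb a1 al 0 (t + (n + i2 + k3 - i - k - 2 * l - m - 3)) (t + (n + j + i2 + k3 - i - 2 * k - 2 * l - m - 3)) (by omega)))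
            · have kk2004 : (k + l + m + 3) ≤ (n + i2) := by clear * - b3 y17 y18 z162; omega
              have kk2005 : (i2) ≤ (m) := by clear * - y10; omega
              have kk2006 : (k + l + m + k3 + 3) ≤ (n + 2 * i2) := by clear * - z162; omega
              have kk2007 : (2 * i + l + m + 3) ≤ (k + k3) := by clear * - b7 y16; omega
              have kk2008 : (Q + k) ≤ (2 * i + l + m + 3) := by clear * - z164; omega
              have kk2009 : (n + i + 2 * i2) ≤ (2 * k + l + k3) := by clear * - b0 b6 b7 y16 z165; omega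
              have kk2010 : (k + l + m + k3 + 3) ≤ (n + Q + i2) := by clear * - y8 z162; omega
              have kk2011 : (i2) ≤ (m + 1) := by clear * - y10; omega
              have kk2012 : (k) ≤ (i + l + m + 2) := by clear * - y16 y8 z164; omega
              have kk2013 : (k + l + 1) ≤ (n) := by clear * - b0 b1 b3 b8 y17 y18 z162 z164; omega
              have r2014 : (n + 2 * i2 - k - l - m - k3 - 2) % 2 = 0 := by clear * - ev n1p n2p n3p; omega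
              have r2015 : (k + k3 - 2 * i - l - m - 2) % 2 = 0 := by clear * - ev n1p n2p n3p; omega
              clear * - al b c2 D1 D2 n3 kk2004 kk2005 kk2006 kk2007 kk2008 kk2009 kk2010 kk2011 kk2012 kk2013 r2014 r2015
              exact n3.f0 (rEE (qf c2 al 0 (n + i2 - m - 1) (n + 2 * i2 - k - l - m - 2) (by omega)) (sh al 0 (k3) (k3) (by omega)) (Eq.symm (rotR (n + 2 * i2 - k - l - m - k3 - 2) (k + k3 - 2 * i - l - m - 2) (k3) (n + 2 * i2 - k - l - m - 2) (by omega) (fun t h1 h2 => (qf (show Par W (Q) (k3) (n + 2 * i2 - k - l - m - k3 - 2) from fun t h1 h2 => (cE (sh al (-1) t (t + (-n)) (by omega)) (cE (qf D1 al (-1) (t + (-n)) (t + (n + i2 - m - k3 - 1)) (by omega)) (qf c2 al 0 (t + (n + i2 - m - k3 - 1)) (t + (n + 2 * i2 - k - l - m - k3 - 2)) (by omega))))) al 0 t (t + (n + 2 * i2 - k - l - m - k3 - 2)) (by omega))) (fun t h1 h2 => (qf (show Par W (2 * i + l + m - k + 3) (i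 + l + 1) (k + k3 - 2 * i - l - m - 2) from fun t h1 h2 => (cE (sh al (-1) t (t + (-n)) (by omega)) (cE (qf b al (-1) (t + (-n)) (t + (k - i)) (by omega)) (qf D2 al 0 (t + (k - i)) (t + (k + k3 - 2 * i - l - m - 2)) (by omega))))) al 0 t (t + (k + k3 - 2 * i - l - m - 2)) (by omega))))))
          · have kk2016 : (i + 1) ≤ (j) := by clear * - b1 b9; omega
            have kk2017 : (j) ≤ (i + l) := by clear * - b6 y19 y2; omega
            have kk2018 : (2 * i + l + m + 3) ≤ (k + k3) := by clear * - b3 b6 z164; omega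
            have kk2019 : (k + k3) ≤ (i + j + l + m + 2) := by clear * - b4 y17 y2 z159; omega
            have kk2020 : (k3) ≤ (k) := by clear * - b4 y17 z164; omega
            have kk2021 : (j + m + 2) ≤ (k3) := by clear * - b6 y2; omega
            have kk2022 : (k) ≤ (i + l + m + 2) := by clear * - b0 b4 b6 y2; omega
            have kk2023 : (k + l + 1) ≤ (n) := by clear * - b0 b1 b3 b6 y17 y18 z162; omega
            have kk2024 : (0) ≤ (i + 1) := by clear * - y17 y7; omega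
            have kk2025 : (j) ≤ (i + l + 1) := by clear * - b6 y19 y2; omega
            have r2026 : (j - i) % 2 = 0 := by clear * - ev n1p n2p n3p; omega
            have r2027 : (k + k3 - 2 * i - l - m - 2) % 2 = 0 := by clear * - ev n1p n2p n3p; omega
            clear * - al a1 b D2 n1 kk2016 kk2017 kk2018 kk2019 kk2020 kk2021 kk2022 kk2023 kk2024 kk2025 r2026 r2027
            exact n1.f0 (rEE (cE (qf b al 0 (j) (j + k - i) (by omega)) (sh al 1 (j + k - i) (n + j + k - i) (by omega))) (sh al 1 (k) (n + k) (by omega)) (Eq.symm (rotR (j - i) (k + k3 - 2 * i - l - m - 2) (n + k) (n + j + k - i) (by omega) (fun t h1 h2 => (cE (cE (pb a1 al 1 t (t + (j - n - k)) (by omega)) (qf b al 0 (t + (j - n - k)) (t + (j - n - i)) (by omega))) (sh al 1 (t + (j - n - i)) (t + (j - i)) (by omega)))) (fun t h1 h2 => (cE (qf (show Par W (2 * i + l + m - k + 3) (i + l + 1) (k + k3 - 2 * i - l - m - 2)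 from fun t h1 h2 => (cE (sh al (-1) t (t + (-n)) (by omega)) (cE (qf b al (-1) (t + (-n)) (t + (k - i)) (by omega)) (qf D2 al 0 (t + (k - i)) (t + (k + k3 - 2 * i - l - m - 2)) (by omega))))) al 1 t (t + (k + k3 - n - 2 * i - l - m - 2)) (by omega)) (sh al 1 (t + (k + k3 - n - 2 * i - l - m - 2)) (t + (k + k3 - 2 * i - l - m - 2)) (by omega)))))))

theorem h8_80p
    (h8_81 : ∀ {W : ℤ → G} {n Q i j k l i2 m k3 : ℤ} (al : AL W n Q) (hy : (0) ≤ (i) ∧ (i) ≤ (j) ∧ (j + 1) ≤ (Q) ∧ (Q) ≤ (k) ∧ (k + 1) ≤ (n) ∧ (Q) ≤ (i + l + 1) ∧ (k + l + 2) ≤ (n) ∧ (0) ≤ (i2) ∧ (i2 + 1) ≤ (Q) ∧ (Q + m + 1) ≤ (n + i2) ∧ (i2) ≤ (m) ∧ (Q) ≤ (i + l + m + 2) ∧ (i + l + m + 3) ≤ (n) ∧ (Q) ≤ (k3) ∧ (k3 + 1) ≤ (n) ∧ (i + m + 2) ≤ (k) ∧ (i) ≤ (i2) ∧ (i2) ≤ (i) ∧ (i + m + 2) ≤ (k3) ∧ (k3) ≤ (i + l + m + 1) ∧ (m + k3 + 2) ≤ (n + i2)) (a1 : Par W (0) (j) (k - j)) (a2 : Par W (Q + j - k) (j) (k - j)) (s1 : Ant W (0) (i)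 (i + j)) (s2 : Ant W (j + 1) (Q) (i + j)) (b : Par W (i + 1) (i + l + 1) (k - i)) (c1 : Par W (i2 + 1) (Q) (k + l - i2 + 1)) (c2 : Par W (k + l + 2) (n) (i2 - k - l - 1)) (tt : Ant W (i2 - m) (i2) (i + l + i2 + 1)) (D1 : Par W (Q) (k3) (n + i2 - m - k3 - 1)) (D2 : Par W (i + l + m + 3) (n) (k3 - i - l - m - 2)) {L : ℤ} (mx : ∀ a b g, 0 < g → g < n → Par W a b g → b - a ≤ L) (hL : L ≤ (n - j - 3) ∧ L ≤ (n + Q - k - 3) ∧ L ≤ (n - l - 3) ∧ L ≤ (n + i - k - 2)) (bd0 : Bd W n L (j) (i) (k)) (n1 : Nd W (j) (i) (k)) (n2 : Nd W (i + l + 1) (i2) (k + l + 1)) (n3 : Nd W (n + i2 - m - 1) (i + l + m + 2) (k3)) (b0 : (2 * l + 3) ≤ (n)) (b1 : (2 * i + 2 * l + 3 * m + 5) ≤ (n + i2 + k3)) (b2 : (k + i2 + 1) ≤ (Q + j + m)) (b3 : (2 * i + j + 1) ≤ (k)) (b4 : (2 * Q + k + l) ≤ (n + 2 * j + i2)) (b5 : (m + k3) ≤ (i + l + 2 * i2 + 1)) (b6 : (1) ≤ (m)) (b7 : (i + l + i2 + m + 3) ≤ (Q + k3)) (b8 : (2 * k + l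 + 1) ≤ (n + j + i2)) (b9 : (n + i2) ≤ (i + k + 2 * l + m + 2)) (b10 : (2 * j + 2) ≤ (i + k)), False)
    (h8_96 : ∀ {W : ℤ → G} {n Q i j k l i2 m k3 : ℤ} (al : AL W n Q) (hy : (0) ≤ (i) ∧ (i) ≤ (j) ∧ (j + 1) ≤ (Q) ∧ (Q) ≤ (k) ∧ (k + 1) ≤ (n) ∧ (Q) ≤ (i + l + 1) ∧ (k + l + 2) ≤ (n) ∧ (0) ≤ (i2) ∧ (i2 + 1) ≤ (Q) ∧ (Q + m + 1) ≤ (n + i2) ∧ (i2) ≤ (m) ∧ (Q) ≤ (i + l + m + 2) ∧ (i + l + m + 3) ≤ (n) ∧ (Q) ≤ (k3) ∧ (k3 + 1) ≤ (n) ∧ (i + m + 2) ≤ (k) ∧ (i) ≤ (i2) ∧ (i2) ≤ (i) ∧ (i + m + 2) ≤ (k3) ∧ (k3) ≤ (i + l + m + 1) ∧ (m + k3 + 2) ≤ (n + i2)) (a1 : Par W (0) (j) (k - j)) (a2 : Par W (Q + j - k) (j) (k - j)) (s1 : Ant W (0) (i) (i + j)) (s2 : Ant W (j + 1) (Q) (i + j)) (b : Par W (i + 1) (i + l + 1) (k - i)) (c1 : Par W (i2 + 1) (Q) (k + l - i2 + 1)) (c2 : Par W (k + l + 2) (n) (i2 - k - l - 1)) (tt : Ant W (i2 - m) (i2) (i + l + i2 + 1)) (D1 : Par W (Q) (k3) (n + i2 - m - k3 - 1)) (D2 :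 Par W (i + l + m + 3) (n) (k3 - i - l - m - 2)) {L : ℤ} (mx : ∀ a b g, 0 < g → g < n → Par W a b g → b - a ≤ L) (hL : L ≤ (n - j - 3) ∧ L ≤ (n + Q - k - 3) ∧ L ≤ (n - l - 3) ∧ L ≤ (n + i - k - 2)) (bd0 : Bd W n L (j) (i) (k)) (n1 : Nd W (j) (i) (k)) (n2 : Nd W (i + l + 1) (i2) (k + l + 1)) (n3 : Nd W (n + i2 - m - 1) (i + l + m + 2) (k3)) (b0 : (2 * l + 3) ≤ (n)) (b1 : (2 * i + 2 * l + 3 * m + 5) ≤ (n + i2 + k3)) (b2 : (2 * i + j + 1) ≤ (k)) (b3 : (2 * Q + k + l) ≤ (n + 2 * j + i2)) (b4 : (m + k3) ≤ (i + l + 2 * i2 + 1)) (b5 : (1) ≤ (m)) (b6 : (i + l + i2 + m + 3) ≤ (Q + k3)) (b7 : (2 * k + l + 1) ≤ (n + j + i2)) (b8 : (n + i2) ≤ (i + k + 2 * l + m + 2)) (b9 : (i + k) ≤ (2 * j + 1)), False)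
    {W : ℤ → G} {n Q i j k l i2 m k3 : ℤ} (al : AL W n Q)
    (hy : (0) ≤ (i) ∧ (i) ≤ (j) ∧ (j + 1) ≤ (Q) ∧ (Q) ≤ (k) ∧ (k + 1) ≤ (n) ∧ (Q) ≤ (i + l + 1) ∧ (k + l + 2) ≤ (n) ∧ (0) ≤ (i2) ∧ (i2 + 1) ≤ (Q) ∧ (Q + m + 1) ≤ (n + i2) ∧ (i2) ≤ (m) ∧ (Q) ≤ (i + l + m + 2) ∧ (i + l + m + 3) ≤ (n) ∧ (Q) ≤ (k3) ∧ (k3 + 1) ≤ (n) ∧ (i + m + 2) ≤ (k) ∧ (i) ≤ (i2) ∧ (i2) ≤ (i) ∧ (i + m + 2) ≤ (k3) ∧ (k3) ≤ (i + l + m + 1) ∧ (m + k3 + 2) ≤ (n + i2))
    (a1 : Par W (0) (j) (k - j))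
    (a2 : Par W (Q + j - k) (j) (k - j))
    (s1 : Ant W (0) (i) (i + j))
    (s2 : Ant W (j + 1) (Q) (i + j))
    (b : Par W (i + 1) (i + l + 1) (k - i))
    (c1 : Par W (i2 + 1) (Q) (k + l - i2 + 1))
    (c2 : Par W (k + l + 2) (n) (i2 - k - l - 1))
    (tt : Ant W (i2 - m) (i2) (i + l + i2 + 1))
    (D1 : Par W (Q) (k3) (n + i2 - m - k3 - 1))
    (D2 : Par W (i + l + m + 3) (n) (k3 - i - l - m - 2))
    {L : ℤ} (mx : ∀ a b g, 0 < g → g < n → Par W a b g → b - a ≤ L)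
    (hL : L ≤ (n - j - 3) ∧ L ≤ (n + Q - k - 3) ∧ L ≤ (n - l - 3) ∧ L ≤ (n + i - k - 2))
    (bd0 : Bd W n L (j) (i) (k))
    (n1 : Nd W (j) (i) (k))
    (n2 : Nd W (i + l + 1) (i2) (k + l + 1))
    (n3 : Nd W (n + i2 - m - 1) (i + l + m + 2) (k3))
    (b0 : (2 * l + 3) ≤ (n))
    (b1 : (2 * i + 2 * l + 3 * m + 5) ≤ (n + i2 + k3))
    (b2 : (k + i2 + 1) ≤ (Q + j + m))
    (b3 : (2 * i + j + 1) ≤ (k))
    (b4 : (2 * Q + k + l) ≤ (n + 2 * j + i2))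
    (b5 : (m + k3) ≤ (i + l + 2 * i2 + 1))
    (b6 : (1) ≤ (m))
    (b7 : (i + l + i2 + m + 3) ≤ (Q + k3))
    (b8 : (2 * k + l + 1) ≤ (n + j + i2))
    (b9 : (n + i2) ≤ (i + k + 2 * l + m + 2)) : False := by
  have ev := al.ev
  obtain ⟨y0, y1, y2, y3, y4, y5, y6, y7, y8, y9, y10, y11, y12, y13, y14, y15, y16, y17, y18, y19, y20⟩ := id hy
  have n1p := And.intro n1.p1 n1.p2
  have n2p := And.intro n2.p1 n2.p2
  have n3p := And.intro n3.p1 n3.p2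
  by_cases z193 : (2 * j + 2) ≤ (i + k)
  · exact h8_81 al hy a1 a2 s1 s2 b c1 c2 tt D1 D2 mx hL bd0 n1 n2 n3 (by clear * - b0; omega) (by clear * - b1; omega) (by clear * - b2; omega) (by clear * - b3; omega) (by clear * - b4; omega) (by clear * - b5; omega) (by clear * - b6; omega) (by clear * - b7; omega) (by clear * - b8; omega) (by clear * - b9; omega) (by clear * - z193; omega)
  · exact h8_96 al hy a1 a2 s1 s2 b c1 c2 tt D1 D2 mx hL bd0 n1 n2 n3 (by clear * - b0; omega) (by clear * - b1; omega) (by clear * - b3; omega) (by clear * - b4; omega) (by clear * - b5; omega) (by clear * - b6; omega) (by clear * - b7; omega) (by clear * - b8; omega) (by clear * - b9; omega) (by clear * - z193; omega)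

theorem h9_5p
    (h9_6 : ∀ {W : ℤ → G} {n Q i j k l i2 m k3 : ℤ} (al : AL W n Q) (hy : (0) ≤ (i) ∧ (i) ≤ (j) ∧ (j + 1) ≤ (Q) ∧ (Q) ≤ (k) ∧ (k + 1) ≤ (n) ∧ (Q) ≤ (i + l + 1) ∧ (k + l + 2) ≤ (n) ∧ (0) ≤ (i2) ∧ (i2 + 1) ≤ (Q) ∧ (Q + m + 1) ≤ (n + i2) ∧ (i2) ≤ (m) ∧ (Q) ≤ (i + l + m + 2) ∧ (i + l + m + 3) ≤ (n) ∧ (Q) ≤ (k3) ∧ (k3 + 1) ≤ (n) ∧ (i + m + 2) ≤ (k) ∧ (i) ≤ (i2) ∧ (i2) ≤ (i) ∧ (i + m + 1) ≤ (k3) ∧ (k3) ≤ (i + m + 1) ∧ (k3) ≤ (i + l + m + 1) ∧ (m + k3 + 2) ≤ (n + i2)) (a1 : Par W (0) (j) (k - j)) (a2 : Par W (Q + j - k) (j) (k - j)) (s1 : Ant W (0) (i) (i + j)) (s2 : Ant W (j + 1) (Q) (i + j)) (b : Par W (i + 1) (i + l + 1) (k - i)) (c1 : Par W (i2 + 1) (Q) (k + l - i2 + 1)) (c2 : Par W (k + l + 2) (n) (i2 - k - l - 1)) (tt : Ant W (i2 - m) (i2) (i + l + i2 + 1)) (D1 : Par W (Q) (k3) (n + i2 - m - k3 - 1)) (D2 : Par W (i + l + m + 3) (n) (k3 - i - l - m - 2)) {L : ℤ} (mx : ∀ a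 b g, 0 < g → g < n → Par W a b g → b - a ≤ L) (hL : L ≤ (n - j - 3) ∧ L ≤ (n + Q - k - 3) ∧ L ≤ (n - l - 3) ∧ L ≤ (n + i - k - 2)) (bd0 : Bd W n L (j) (i) (k)) (n1 : Nd W (j) (i) (k)) (n2 : Nd W (i + l + 1) (i2) (k + l + 1)) (n3 : Nd W (n + i2 - m - 1) (i + l + m + 2) (k3)) (d1 : ℤ) (q1 : d1 % 2 = 0) (x1 : Par W (i + 1) (k + l - d1 + 1) d1) (b0 : (0) ≤ (d1)) (b1 : (n + i + d1) ≤ (k + 2 * l + 2)) (b2 : (d1) ≤ (0)) (b3 : (2 * k + 2) ≤ (n + Q + i)) (b4 : (2 * Q + k + l) ≤ (n + 2 * j + i2)) (b5 : (2 * i + l + m + 3) ≤ (k + k3)), False)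
    {W : ℤ → G} {n Q i j k l i2 m k3 : ℤ} (al : AL W n Q)
    (hy : (0) ≤ (i) ∧ (i) ≤ (j) ∧ (j + 1) ≤ (Q) ∧ (Q) ≤ (k) ∧ (k + 1) ≤ (n) ∧ (Q) ≤ (i + l + 1) ∧ (k + l + 2) ≤ (n) ∧ (0) ≤ (i2) ∧ (i2 + 1) ≤ (Q) ∧ (Q + m + 1) ≤ (n + i2) ∧ (i2) ≤ (m) ∧ (Q) ≤ (i + l + m + 2) ∧ (i + l + m + 3) ≤ (n) ∧ (Q) ≤ (k3) ∧ (k3 + 1) ≤ (n) ∧ (i + m + 2) ≤ (k) ∧ (i) ≤ (i2) ∧ (i2) ≤ (i) ∧ (i + m + 1) ≤ (k3) ∧ (k3) ≤ (i + m + 1) ∧ (k3) ≤ (i + l + m + 1) ∧ (m + k3 + 2) ≤ (n + i2))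
    (a1 : Par W (0) (j) (k - j))
    (a2 : Par W (Q + j - k) (j) (k - j))
    (s1 : Ant W (0) (i) (i + j))
    (s2 : Ant W (j + 1) (Q) (i + j))
    (b : Par W (i + 1) (i + l + 1) (k - i))
    (c1 : Par W (i2 + 1) (Q) (k + l - i2 + 1))
    (c2 : Par W (k + l + 2) (n) (i2 - k - l - 1))
    (tt : Ant W (i2 - m) (i2) (i + l + i2 + 1))
    (D1 : Par W (Q) (k3) (n + i2 - m - k3 - 1))
    (D2 : Par W (i + l + m + 3) (n) (k3 - i - l - m - 2))
    {L : ℤ} (mx : ∀ a b g, 0 < g → g < n → Par W a b g → b - a ≤ L)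
    (hL : L ≤ (n - j - 3) ∧ L ≤ (n + Q - k - 3) ∧ L ≤ (n - l - 3) ∧ L ≤ (n + i - k - 2))
    (bd0 : Bd W n L (j) (i) (k))
    (n1 : Nd W (j) (i) (k))
    (n2 : Nd W (i + l + 1) (i2) (k + l + 1))
    (n3 : Nd W (n + i2 - m - 1) (i + l + m + 2) (k3))
    (d1 : ℤ) (q1 : d1 % 2 = 0) (x1 : Par W (i + 1) (k + l - d1 + 1) d1)
    (b0 : (i + l + 1) ≤ (k + d1))
    (b1 : (0) ≤ (d1))
    (b2 : (n + i + d1) ≤ (k + 2 * l + 2))
    (b3 : (d1) ≤ (0))
    (b4 : (2 * k + 2) ≤ (n + Q + i))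
    (b5 : (2 * Q + k + l) ≤ (n + 2 * j + i2)) : False := by
  have ev := al.ev
  obtain ⟨y0, y1, y2, y3, y4, y5, y6, y7, y8, y9, y10, y11, y12, y13, y14, y15, y16, y17, y18, y19, y20, y21⟩ := id hy
  have n1p := And.intro n1.p1 n1.p2
  have n2p := And.intro n2.p1 n2.p2
  have n3p := And.intro n3.p1 n3.p2
  by_cases z5 : (k + k3) ≤ (2 * i + l + m + 2)
  · have kk24 : (k3) ≤ (i + l) := by clear * - y15 z5; omega
    have kk25 : (2 * i + 2 * l + m + 4) ≤ (n + k3) := by clear * - b0 b3 y18 y6; omega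
    have kk26 : (k + k3) ≤ (2 * i + l + m + 2) := by clear * - z5; omega
    have kk27 : (2 * i + l + m + 2) ≤ (k + k3) := by clear * - b0 b3 y18; omega
    clear * - al D2 n2 kk24 kk25 kk26 kk27
    exact n2.f0 (pb D2 al 0 (i + l + 1) (k + l + 1) (by omega))
  · exact h9_6 al hy a1 a2 s1 s2 b c1 c2 tt D1 D2 mx hL bd0 n1 n2 n3 d1 q1 x1 (by clear * - b1; omega) (by clear * - b2; omega) (by clear * - b3; omega) (by clear * - b4; omega) (by clear * - b5; omega) (by clear * - z5; omega)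

theorem h9_29p
    (h9_30 : ∀ {W : ℤ → G} {n Q i j k l i2 m k3 : ℤ} (al : AL W n Q) (hy : (0) ≤ (i) ∧ (i) ≤ (j) ∧ (j + 1) ≤ (Q) ∧ (Q) ≤ (k) ∧ (k + 1) ≤ (n) ∧ (Q) ≤ (i + l + 1) ∧ (k + l + 2) ≤ (n) ∧ (0) ≤ (i2) ∧ (i2 + 1) ≤ (Q) ∧ (Q + m + 1) ≤ (n + i2) ∧ (i2) ≤ (m) ∧ (Q) ≤ (i + l + m + 2) ∧ (i + l + m + 3) ≤ (n) ∧ (Q) ≤ (k3) ∧ (k3 + 1) ≤ (n) ∧ (i + m + 2) ≤ (k) ∧ (i) ≤ (i2) ∧ (i2) ≤ (i) ∧ (i + m + 1) ≤ (k3) ∧ (k3) ≤ (i + m + 1) ∧ (k3) ≤ (i + l + m + 1) ∧ (m + k3 + 2) ≤ (n + i2)) (a1 : Par W (0) (j) (k - j)) (a2 : Par W (Q + j - k) (j) (k - j)) (s1 : Ant W (0) (i) (i + j)) (s2 : Ant W (j + 1) (Q) (i + j)) (b : Par W (i + 1) (i + l + 1) (k - i)) (c1 : Par W (i2 + 1) (Q) (k + l - i2 + 1)) (c2 : Par W (k + l + 2) (n) (i2 - k - l - 1)) (tt : Ant W (i2 - m) (i2) (i + l + i2 + 1)) (D1 : Par W (Q) (k3) (n + i2 - m - k3 - 1)) (D2 : Par W (i + l + m + 3) (n) (k3 - i - l - m - 2)) {L : ℤ} (mx : ∀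 a b g, 0 < g → g < n → Par W a b g → b - a ≤ L) (hL : L ≤ (n - j - 3) ∧ L ≤ (n + Q - k - 3) ∧ L ≤ (n - l - 3) ∧ L ≤ (n + i - k - 2)) (bd0 : Bd W n L (j) (i) (k)) (n1 : Nd W (j) (i) (k)) (n2 : Nd W (i + l + 1) (i2) (k + l + 1)) (n3 : Nd W (n + i2 - m - 1) (i + l + m + 2) (k3)) (d1 : ℤ) (q1 : d1 % 2 = 0) (x1 : Par W (i + 1) (k + l - d1 + 1) d1) (b0 : (n + k3) ≤ (2 * i + 2 * l + i2 + m + 4)) (b1 : (2 * k + l + 2) ≤ (n + i2)) (b2 : (3 * i + 2 * l + 3 * m + 5) ≤ (n + k + i2 + k3)) (b3 : (2 * i + l + m + 3) ≤ (k + k3 + d1)) (b4 : (j + i2 + d1) ≤ (l)) (b5 : (2 * k + i2 + d1) ≤ (i + 2 * j + l + 2)), False)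
    {W : ℤ → G} {n Q i j k l i2 m k3 : ℤ} (al : AL W n Q)
    (hy : (0) ≤ (i) ∧ (i) ≤ (j) ∧ (j + 1) ≤ (Q) ∧ (Q) ≤ (k) ∧ (k + 1) ≤ (n) ∧ (Q) ≤ (i + l + 1) ∧ (k + l + 2) ≤ (n) ∧ (0) ≤ (i2) ∧ (i2 + 1) ≤ (Q) ∧ (Q + m + 1) ≤ (n + i2) ∧ (i2) ≤ (m) ∧ (Q) ≤ (i + l + m + 2) ∧ (i + l + m + 3) ≤ (n) ∧ (Q) ≤ (k3) ∧ (k3 + 1) ≤ (n) ∧ (i + m + 2) ≤ (k) ∧ (i) ≤ (i2) ∧ (i2) ≤ (i) ∧ (i + m + 1) ≤ (k3) ∧ (k3) ≤ (i + m + 1) ∧ (k3) ≤ (i + l + m + 1) ∧ (m + k3 + 2) ≤ (n + i2))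
    (a1 : Par W (0) (j) (k - j))
    (a2 : Par W (Q + j - k) (j) (k - j))
    (s1 : Ant W (0) (i) (i + j))
    (s2 : Ant W (j + 1) (Q) (i + j))
    (b : Par W (i + 1) (i + l + 1) (k - i))
    (c1 : Par W (i2 + 1) (Q) (k + l - i2 + 1))
    (c2 : Par W (k + l + 2) (n) (i2 - k - l - 1))
    (tt : Ant W (i2 - m) (i2) (i + l + i2 + 1))
    (D1 : Par W (Q) (k3) (n + i2 - m - k3 - 1))
    (D2 : Par W (i + l + m + 3) (n) (k3 - i - l - m - 2))
    {L : ℤ} (mx : ∀ a b g, 0 < g → g < n → Par W a b g → b - a ≤ L)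
    (hL : L ≤ (n - j - 3) ∧ L ≤ (n + Q - k - 3) ∧ L ≤ (n - l - 3) ∧ L ≤ (n + i - k - 2))
    (bd0 : Bd W n L (j) (i) (k))
    (n1 : Nd W (j) (i) (k))
    (n2 : Nd W (i + l + 1) (i2) (k + l + 1))
    (n3 : Nd W (n + i2 - m - 1) (i + l + m + 2) (k3))
    (d1 : ℤ) (q1 : d1 % 2 = 0) (x1 : Par W (i + 1) (k + l - d1 + 1) d1)
    (b0 : (n + k3) ≤ (2 * i + 2 * l + i2 + m + 4))
    (b1 : (i + k) ≤ (2 * j + 1))
    (b2 : (2 * k + l + 2) ≤ (n + i2))
    (b3 : (3 * i + 2 * l + 3 * m + 5) ≤ (n + k + i2 + k3))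
    (b4 : (3 * i + 3 * l + 3 * m + d1 + 5) ≤ (2 * n + 2 * i2 + k3))
    (b5 : (2 * i + l + m + 3) ≤ (k + k3 + d1))
    (b6 : (k + d1) ≤ (2 * i + l + i2 + 1))
    (b7 : (j + i2 + d1) ≤ (l)) : False := by
  have ev := al.ev
  obtain ⟨y0, y1, y2, y3, y4, y5, y6, y7, y8, y9, y10, y11, y12, y13, y14, y15, y16, y17, y18, y19, y20, y21⟩ := id hy
  have n1p := And.intro n1.p1 n1.p2
  have n2p := And.intro n2.p1 n2.p2
  have n3p := And.intro n3.p1 n3.p2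
  by_cases z40 : (i + 2 * j + l + 3) ≤ (2 * k + i2 + d1)
  · by_cases v15 : (i + 2 * j + l + 2) ≤ (2 * k + d1)
    · have kk445 : (2 * k + d1) ≤ (i + 2 * j + l + i2 + 1) := by clear * - b1 b6 ev n1p n2p n3p q1; omega
      have kk446 : (i + l + i2 + 2) ≤ (2 * j + d1) := by clear * - b1 y17 z40 ev n1p n2p n3p q1; omega
      have kk447 : (j) ≤ (k) := by clear * - b5 b6 b7 y19; omega
      have kk448 : (i + 2 * j + 1) ≤ (2 * k) := by clear * - b1 b5 b6 b7 v15 y19; omega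
      have kk449 : (i + 2 * j + l + 2) ≤ (2 * k + d1) := by clear * - v15; omega
      have kk450 : (d1) ≤ (l + 1) := by clear * - b1 b5 b6 b7 y19; omega
      have kk451 : (k + d1) ≤ (i + l + m + 2) := by clear * - b1 b5 b6 b7 y13 y19 y2; omega
      have r452 : (i + 2 * j + l + i2 - 2 * n - 2 * k - d1 + 1) % 2 = 0 := by clear * - ev n1p n2p n3p q1; omega
      clear * - al a1 tt x1 kk445 kk446 kk447 kk448 kk449 kk450 kk451 r452
      obtain ⟨t, ht⟩ : ∃ t, 2 * t = (i + 2 * j + l + i2 - 2 * n - 2 * k - d1 + 1) := ⟨(i + 2 * j + l + i2 - 2 * n - 2 * k - d1 + 1) / 2, by omega⟩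
      exact al.ninv t (cE (cI (cE (cE (qf a1 al (-1) t (t + (n + k - j)) (by omega)) (qf a1 al 0 (t + (n + k - j)) (t + (n + 2 * k - 2 * j)) (by omega))) (qf x1 al 0 (t + (n + 2 * k - 2 * j)) (t + (n + 2 * k + d1 - 2 * j)) (by omega))) (ab tt al 0 (t + (n + 2 * k + d1 - 2 * j)) ((i + 2 * j + l + i2 - n - 2 * k - d1 + 1) - t) (by omega))) (sh al (-1) ((i + 2 * j + l + i2 - n - 2 * k - d1 + 1) - t) t (by omega)))
    · have kk453 : (i + 2 * j + l + 3) ≤ (2 * k + i2 + d1) := by clear * - z40; omega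
      have kk454 : (i + l + i2 + 2) ≤ (2 * j + d1) := by clear * - b1 y17 z40 ev n1p n2p n3p q1; omega
      have kk455 : (2 * k + d1) ≤ (i + 2 * j + l + 2) := by clear * - v15; omega
      have kk456 : (k + d1) ≤ (i + j + l + 2) := by clear * - b5 b6 b7 v15 y19; omega
      have kk457 : (d1) ≤ (l + 1) := by clear * - b5 b6 b7 v15 y19 z40; omega
      have kk458 : (j) ≤ (k) := by clear * - b5 b6 b7 y19; omega
      have kk459 : (k + d1) ≤ (i + l + m + 2) := by clear * - b5 b7 v15 y13 y19 y2 z40; omega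
      have r460 : (i + 2 * j + l + i2 - 2 * n - 2 * k - d1 + 1) % 2 = 0 := by clear * - ev n1p n2p n3p q1; omega
      clear * - al a1 tt x1 kk453 kk454 kk455 kk456 kk457 kk458 kk459 r460
      obtain ⟨t, ht⟩ : ∃ t, 2 * t = (i + 2 * j + l + i2 - 2 * n - 2 * k - d1 + 1) := ⟨(i + 2 * j + l + i2 - 2 * n - 2 * k - d1 + 1) / 2, by omega⟩
      exact al.ninv t (cE (cI (cE (cE (qf a1 al (-1) t (t + (n + k - j)) (by omega)) (qf a1 al 0 (t + (n + k - j)) (t + (n + 2 * k - 2 * j)) (by omega))) (qf x1 al 0 (t + (n + 2 * k - 2 * j)) (t + (n + 2 * k + d1 - 2 * j)) (by omega))) (ab tt al 0 (t + (n + 2 * k + d1 - 2 * j)) ((i + 2 * j + l + i2 - n - 2 * k - d1 + 1) - t) (by omega))) (sh al (-1) ((i + 2 * j + l + i2 - n - 2 * k - d1 + 1) - t) t (by omega)))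
  · exact h9_30 al hy a1 a2 s1 s2 b c1 c2 tt D1 D2 mx hL bd0 n1 n2 n3 d1 q1 x1 (by clear * - b0; omega) (by clear * - b2; omega) (by clear * - b3; omega) (by clear * - b5; omega) (by clear * - b7; omega) (by clear * - z40; omega)

theorem h9_26p
    (h9_27 : ∀ {W : ℤ → G} {n Q i j k l i2 m k3 : ℤ} (al : AL W n Q) (hy : (0) ≤ (i) ∧ (i) ≤ (j) ∧ (j + 1) ≤ (Q) ∧ (Q) ≤ (k) ∧ (k + 1) ≤ (n) ∧ (Q) ≤ (i + l + 1) ∧ (k + l + 2) ≤ (n) ∧ (0) ≤ (i2) ∧ (i2 + 1) ≤ (Q) ∧ (Q + m + 1) ≤ (n + i2) ∧ (i2) ≤ (m) ∧ (Q) ≤ (i + l + m + 2) ∧ (i + l + m + 3) ≤ (n) ∧ (Q) ≤ (k3) ∧ (k3 + 1) ≤ (n) ∧ (i + m + 2) ≤ (k) ∧ (i) ≤ (i2) ∧ (i2) ≤ (i) ∧ (i + m + 1) ≤ (k3) ∧ (k3) ≤ (i + m + 1) ∧ (k3) ≤ (i + l + m + 1) ∧ (m + k3 + 2) ≤ (n + i2)) (a1 : Par W (0) (j) (k - j)) (a2 : Par W (Q + j - k) (j) (k - j)) (s1 : Ant W (0) (i) (i + j)) (s2 : Ant W (j + 1) (Q) (i + j)) (b : Par W (i + 1) (i + l + 1) (k - i)) (c1 : Par W (i2 +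 1) (Q) (k + l - i2 + 1)) (c2 : Par W (k + l + 2) (n) (i2 - k - l - 1)) (tt : Ant W (i2 - m) (i2) (i + l + i2 + 1)) (D1 : Par W (Q) (k3) (n + i2 - m - k3 - 1)) (D2 : Par W (i + l + m + 3) (n) (k3 - i - l - m - 2)) {L : ℤ} (mx : ∀ a b g, 0 < g → g < n → Par W a b g → b - a ≤ L) (hL : L ≤ (n - j - 3) ∧ L ≤ (n + Q - k - 3) ∧ L ≤ (n - l - 3) ∧ L ≤ (n + i - k - 2)) (bd0 : Bd W n L (j) (i) (k)) (n1 : Nd W (j) (i) (k)) (n2 : Nd W (i + l + 1) (i2) (k + l + 1)) (n3 : Nd W (n + i2 - m - 1) (i + l + m + 2) (k3)) (d1 : ℤ) (q1 : d1 % 2 = 0) (x1 : Par W (i + 1) (k + l - d1 + 1) d1) (b0 : (2 * i + j + 1) ≤ (k)) (b1 : (n + k3) ≤ (2 * i + 2 * l + i2 + m + 4)) (b2 : (i + k) ≤ (2 * j + 1)) (b3 : (2 * k + l + 2) ≤ (n + i2)) (b4 : (3 * i + 2 * l + 3 * m + 5) ≤ (n + k + i2 + k3)) (b5 : (3 * i + 3 * l + 3 * m + d1 + 5) ≤ (2 * n + 2 * i2 + k3)) (b6 : (2 * i + l + m + 3) ≤ (k + k3 + d1)), False)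
    {W : ℤ → G} {n Q i j k l i2 m k3 : ℤ} (al : AL W n Q)
    (hy : (0) ≤ (i) ∧ (i) ≤ (j) ∧ (j + 1) ≤ (Q) ∧ (Q) ≤ (k) ∧ (k + 1) ≤ (n) ∧ (Q) ≤ (i + l + 1) ∧ (k + l + 2) ≤ (n) ∧ (0) ≤ (i2) ∧ (i2 + 1) ≤ (Q) ∧ (Q + m + 1) ≤ (n + i2) ∧ (i2) ≤ (m) ∧ (Q) ≤ (i + l + m + 2) ∧ (i + l + m + 3) ≤ (n) ∧ (Q) ≤ (k3) ∧ (k3 + 1) ≤ (n) ∧ (i + m + 2) ≤ (k) ∧ (i) ≤ (i2) ∧ (i2) ≤ (i) ∧ (i + m + 1) ≤ (k3) ∧ (k3) ≤ (i + m + 1) ∧ (k3) ≤ (i + l + m + 1) ∧ (m + k3 + 2) ≤ (n + i2))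
    (a1 : Par W (0) (j) (k - j))
    (a2 : Par W (Q + j - k) (j) (k - j))
    (s1 : Ant W (0) (i) (i + j))
    (s2 : Ant W (j + 1) (Q) (i + j))
    (b : Par W (i + 1) (i + l + 1) (k - i))
    (c1 : Par W (i2 + 1) (Q) (k + l - i2 + 1))
    (c2 : Par W (k + l + 2) (n) (i2 - k - l - 1))
    (tt : Ant W (i2 - m) (i2) (i + l + i2 + 1))
    (D1 : Par W (Q) (k3) (n + i2 - m - k3 - 1))
    (D2 : Par W (i + l + m + 3) (n) (k3 - i - l - m - 2))
    {L : ℤ} (mx : ∀ a b g, 0 < g → g < n → Par W a b g → b - a ≤ L)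
    (hL : L ≤ (n - j - 3) ∧ L ≤ (n + Q - k - 3) ∧ L ≤ (n - l - 3) ∧ L ≤ (n + i - k - 2))
    (bd0 : Bd W n L (j) (i) (k))
    (n1 : Nd W (j) (i) (k))
    (n2 : Nd W (i + l + 1) (i2) (k + l + 1))
    (n3 : Nd W (n + i2 - m - 1) (i + l + m + 2) (k3))
    (d1 : ℤ) (q1 : d1 % 2 = 0) (x1 : Par W (i + 1) (k + l - d1 + 1) d1)
    (b0 : (i + l + 1) ≤ (k + d1))
    (b1 : (2 * i + j + 1) ≤ (k))
    (b2 : (n + k3) ≤ (2 * i + 2 * l + i2 + m + 4))
    (b3 : (i + k) ≤ (2 * j + 1))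
    (b4 : (2 * k + l + 2) ≤ (n + i2))
    (b5 : (3 * i + 2 * l + 3 * m + 5) ≤ (n + k + i2 + k3))
    (b6 : (3 * i + 3 * l + 3 * m + d1 + 5) ≤ (2 * n + 2 * i2 + k3)) : False := by
  have ev := al.ev
  obtain ⟨y0, y1, y2, y3, y4, y5, y6, y7, y8, y9, y10, y11, y12, y13, y14, y15, y16, y17, y18, y19, y20, y21⟩ := id hy
  have n1p := And.intro n1.p1 n1.p2
  have n2p := And.intro n2.p1 n2.p2
  have n3p := And.intro n3.p1 n3.p2
  by_cases z37 : (k + k3 + d1) ≤ (2 * i + l + m + 2)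
  · have kk409 : (k3 + d1) ≤ (i + l) := by clear * - y15 z37; omega
    have kk410 : (i + 1) ≤ (k) := by clear * - b2 b5 y10; omega
    have kk411 : (k + k3 + d1) ≤ (2 * i + l + m + 2) := by clear * - z37; omega
    have kk412 : (2 * i + l + m + 2) ≤ (k + k3 + d1) := by clear * - b0 y18; omega
    have kk413 : (i) ≤ (k3) := by clear * - y13 y16 y8; omega
    have kk414 : (i + k + 2 * l + m + 3) ≤ (n + k3 + d1) := by clear * - b0 b4 y17 y18; omega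
    clear * - al D2 x1 n2 kk409 kk410 kk411 kk412 kk413 kk414
    exact n2.f0 (cE (pb x1 al 0 (i + l + 1) (i + l - d1 + 1) (by omega)) (pb D2 al 0 (i + l - d1 + 1) (k + l + 1) (by omega)))
  · exact h9_27 al hy a1 a2 s1 s2 b c1 c2 tt D1 D2 mx hL bd0 n1 n2 n3 d1 q1 x1 (by clear * - b1; omega) (by clear * - b2; omega) (by clear * - b3; omega) (by clear * - b4; omega) (by clear * - b5; omega) (by clear * - b6; omega) (by clear * - z37; omega)

theorem h9_24p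
    (h9_25 : ∀ {W : ℤ → G} {n Q i j k l i2 m k3 : ℤ} (al : AL W n Q) (hy : (0) ≤ (i) ∧ (i) ≤ (j) ∧ (j + 1) ≤ (Q) ∧ (Q) ≤ (k) ∧ (k + 1) ≤ (n) ∧ (Q) ≤ (i + l + 1) ∧ (k + l + 2) ≤ (n) ∧ (0) ≤ (i2) ∧ (i2 + 1) ≤ (Q) ∧ (Q + m + 1) ≤ (n + i2) ∧ (i2) ≤ (m) ∧ (Q) ≤ (i + l + m + 2) ∧ (i + l + m + 3) ≤ (n) ∧ (Q) ≤ (k3) ∧ (k3 + 1) ≤ (n) ∧ (i + m + 2) ≤ (k) ∧ (i) ≤ (i2) ∧ (i2) ≤ (i) ∧ (i + m + 1) ≤ (k3) ∧ (k3) ≤ (i + m + 1) ∧ (k3) ≤ (i + l + m + 1) ∧ (m + k3 + 2) ≤ (n + i2)) (a1 : Par W (0) (j) (k - j)) (a2 : Par W (Q + j - k) (j) (k - j)) (s1 : Ant W (0) (i) (i + j)) (s2 : Ant W (j + 1) (Q) (i + j)) (b : Par W (i + 1) (i + l + 1) (k - i)) (c1 : Par W (i2 + 1) (Q) (k + l - i2 + 1)) (c2 : Par W (k + l + 2) (n) (i2 - k - l - 1)) (tt : Ant W (i2 - m) (i2) (i + l + i2 + 1)) (D1 : Par W (Q) (k3) (n + i2 - m - k3 - 1)) (D2 : Par W (i + l + m + 3) (n) (k3 - i - l - m - 2)) {L : ℤ} (mx : ∀ a b g, 0 < g → g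 < n → Par W a b g → b - a ≤ L) (hL : L ≤ (n - j - 3) ∧ L ≤ (n + Q - k - 3) ∧ L ≤ (n - l - 3) ∧ L ≤ (n + i - k - 2)) (bd0 : Bd W n L (j) (i) (k)) (n1 : Nd W (j) (i) (k)) (n2 : Nd W (i + l + 1) (i2) (k + l + 1)) (n3 : Nd W (n + i2 - m - 1) (i + l + m + 2) (k3)) (d1 : ℤ) (q1 : d1 % 2 = 0) (x1 : Par W (i + 1) (k + l - d1 + 1) d1) (b0 : (i + l + 1) ≤ (k + d1)) (b1 : (d1) ≤ (l)) (b2 : (2 * i + j + 1) ≤ (k)) (b3 : (n + k3) ≤ (2 * i + 2 * l + i2 + m + 4)) (b4 : (i + k) ≤ (2 * j + 1)) (b5 : (2 * k + l + 2) ≤ (n + i2)) (b6 : (3 * i + 2 * l + 3 * m + 5) ≤ (n + k + i2 + k3)), False)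
    {W : ℤ → G} {n Q i j k l i2 m k3 : ℤ} (al : AL W n Q)
    (hy : (0) ≤ (i) ∧ (i) ≤ (j) ∧ (j + 1) ≤ (Q) ∧ (Q) ≤ (k) ∧ (k + 1) ≤ (n) ∧ (Q) ≤ (i + l + 1) ∧ (k + l + 2) ≤ (n) ∧ (0) ≤ (i2) ∧ (i2 + 1) ≤ (Q) ∧ (Q + m + 1) ≤ (n + i2) ∧ (i2) ≤ (m) ∧ (Q) ≤ (i + l + m + 2) ∧ (i + l + m + 3) ≤ (n) ∧ (Q) ≤ (k3) ∧ (k3 + 1) ≤ (n) ∧ (i + m + 2) ≤ (k) ∧ (i) ≤ (i2) ∧ (i2) ≤ (i) ∧ (i + m + 1) ≤ (k3) ∧ (k3) ≤ (i + m + 1) ∧ (k3) ≤ (i + l + m + 1) ∧ (m + k3 + 2) ≤ (n + i2))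
    (a1 : Par W (0) (j) (k - j))
    (a2 : Par W (Q + j - k) (j) (k - j))
    (s1 : Ant W (0) (i) (i + j))
    (s2 : Ant W (j + 1) (Q) (i + j))
    (b : Par W (i + 1) (i + l + 1) (k - i))
    (c1 : Par W (i2 + 1) (Q) (k + l - i2 + 1))
    (c2 : Par W (k + l + 2) (n) (i2 - k - l - 1))
    (tt : Ant W (i2 - m) (i2) (i + l + i2 + 1))
    (D1 : Par W (Q) (k3) (n + i2 - m - k3 - 1))
    (D2 : Par W (i + l + m + 3) (n) (k3 - i - l - m - 2))
    {L : ℤ} (mx : ∀ a b g, 0 < g → g < n → Par W a b g → b - a ≤ L)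
    (hL : L ≤ (n - j - 3) ∧ L ≤ (n + Q - k - 3) ∧ L ≤ (n - l - 3) ∧ L ≤ (n + i - k - 2))
    (bd0 : Bd W n L (j) (i) (k))
    (n1 : Nd W (j) (i) (k))
    (n2 : Nd W (i + l + 1) (i2) (k + l + 1))
    (n3 : Nd W (n + i2 - m - 1) (i + l + m + 2) (k3))
    (d1 : ℤ) (q1 : d1 % 2 = 0) (x1 : Par W (i + 1) (k + l - d1 + 1) d1)
    (b0 : (i + l + 1) ≤ (k + d1))
    (b1 : (d1) ≤ (l))
    (b2 : (2 * i + j + 1) ≤ (k))
    (b3 : (2 * l + 3) ≤ (n))
    (b4 : (n + k3) ≤ (2 * i + 2 * l + i2 + m + 4))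
    (b5 : (i + k) ≤ (2 * j + 1))
    (b6 : (2 * k + l + 2) ≤ (n + i2)) : False := by
  have ev := al.ev
  obtain ⟨y0, y1, y2, y3, y4, y5, y6, y7, y8, y9, y10, y11, y12, y13, y14, y15, y16, y17, y18, y19, y20, y21⟩ := id hy
  have n1p := And.intro n1.p1 n1.p2
  have n2p := And.intro n2.p1 n2.p2
  have n3p := And.intro n3.p1 n3.p2
  by_cases z34 : (n + k + i2 + k3) ≤ (3 * i + 2 * l + 3 * m + 4)
  · have kk340 : (3 * i + 2 * l + i2 + m + 5) ≤ (n + k + k3) := by clear * - b2 b3 b4 b5 y17 y18; omega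
    have kk341 : (n + k + i2 + k3) ≤ (3 * i + 2 * l + 3 * m + 4) := by clear * - z34; omega
    have kk342 : (k) ≤ (i + l + 1) := by clear * - b2 b3 b4 b5 b6 y17 y18; omega
    have kk343 : (0) ≤ (i2) := by clear * - b3 b4 y16 y18; omega
    have kk344 : (i + m + 1) ≤ (k) := by clear * - y15; omega
    have kk345 : (i + l + 2 * m + 3) ≤ (n + i2) := by clear * - b3 b4 b6 y15 y17 y18; omega
    have r346 : (3 * n + i + i2 + k3 - k - m - 1) % 2 = 0 := by clear * - ev n1p n2p n3p q1; omega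
    clear * - al b tt D2 kk340 kk341 kk342 kk343 kk344 kk345 r346
    obtain ⟨t, ht⟩ : ∃ t, 2 * t = (3 * n + i + i2 + k3 - k - m - 1) := ⟨(3 * n + i + i2 + k3 - k - m - 1) / 2, by omega⟩
    exact al.ninv t (cE (cE (cI (qf b al 1 t (t + (k - n - i)) (by omega)) (ab tt al 0 (t + (k - n - i)) ((n + 2 * i + l + i2 - k + 1) - t) (by omega))) (qf D2 al (-1) ((n + 2 * i + l + i2 - k + 1) - t) ((2 * n + i + i2 + k3 - k - m - 1) - t) (by omega))) (sh al 1 ((2 * n + i + i2 + k3 - k - m - 1) - t) t (by omega)))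
  · exact h9_25 al hy a1 a2 s1 s2 b c1 c2 tt D1 D2 mx hL bd0 n1 n2 n3 d1 q1 x1 (by clear * - b0; omega) (by clear * - b1; omega) (by clear * - b2; omega) (by clear * - b4; omega) (by clear * - b5; omega) (by clear * - b6; omega) (by clear * - z34; omega)

theorem h9_21p
    (h9_22 : ∀ {W : ℤ → G} {n Q i j k l i2 m k3 : ℤ} (al : AL W n Q) (hy : (0) ≤ (i) ∧ (i) ≤ (j) ∧ (j + 1) ≤ (Q) ∧ (Q) ≤ (k) ∧ (k + 1) ≤ (n) ∧ (Q) ≤ (i + l + 1) ∧ (k + l + 2) ≤ (n) ∧ (0) ≤ (i2) ∧ (i2 + 1) ≤ (Q) ∧ (Q + m + 1) ≤ (n + i2) ∧ (i2) ≤ (m) ∧ (Q) ≤ (i + l + m + 2) ∧ (i + l + m + 3) ≤ (n) ∧ (Q) ≤ (k3) ∧ (k3 + 1) ≤ (n) ∧ (i + m + 2) ≤ (k) ∧ (i) ≤ (i2) ∧ (i2) ≤ (i) ∧ (i + m + 1) ≤ (k3) ∧ (k3) ≤ (i + m + 1) ∧ (k3) ≤ (i + l + m + 1) ∧ (m + k3 + 2) ≤ (n + i2)) (a1 : Par W (0) (j) (k - j)) (a2 : Par W (Q + j - k) (j) (k - j)) (s1 : Ant W (0) (i) (i + j)) (s2 : Ant W (j + 1) (Q) (i + j)) (b : Par W (i + 1) (i + l + 1) (k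 - i)) (c1 : Par W (i2 + 1) (Q) (k + l - i2 + 1)) (c2 : Par W (k + l + 2) (n) (i2 - k - l - 1)) (tt : Ant W (i2 - m) (i2) (i + l + i2 + 1)) (D1 : Par W (Q) (k3) (n + i2 - m - k3 - 1)) (D2 : Par W (i + l + m + 3) (n) (k3 - i - l - m - 2)) {L : ℤ} (mx : ∀ a b g, 0 < g → g < n → Par W a b g → b - a ≤ L) (hL : L ≤ (n - j - 3) ∧ L ≤ (n + Q - k - 3) ∧ L ≤ (n - l - 3) ∧ L ≤ (n + i - k - 2)) (bd0 : Bd W n L (j) (i) (k)) (n1 : Nd W (j) (i) (k)) (n2 : Nd W (i + l + 1) (i2) (k + l + 1)) (n3 : Nd W (n + i2 - m - 1) (i + l + m + 2) (k3)) (d1 : ℤ) (q1 : d1 % 2 = 0) (x1 : Par W (i + 1) (k + l - d1 + 1) d1) (b0 : (i + l + 1) ≤ (k + d1)) (b1 : (d1) ≤ (l)) (b2 : (k + 2 * l + 3) ≤ (n + i + d1)) (b3 : (2 * i + j + 1) ≤ (k)) (b4 : (2 * l + 3) ≤ (n)) (b5 : (i + l + 2 * m + 2) ≤ (n + i2)) (b6 : (n + k3) ≤ (2 * i + 2 * l + i2 + m + 4)) (b7 : (i + k) ≤ (2 * j + 1)), False)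
    {W : ℤ → G} {n Q i j k l i2 m k3 : ℤ} (al : AL W n Q)
    (hy : (0) ≤ (i) ∧ (i) ≤ (j) ∧ (j + 1) ≤ (Q) ∧ (Q) ≤ (k) ∧ (k + 1) ≤ (n) ∧ (Q) ≤ (i + l + 1) ∧ (k + l + 2) ≤ (n) ∧ (0) ≤ (i2) ∧ (i2 + 1) ≤ (Q) ∧ (Q + m + 1) ≤ (n + i2) ∧ (i2) ≤ (m) ∧ (Q) ≤ (i + l + m + 2) ∧ (i + l + m + 3) ≤ (n) ∧ (Q) ≤ (k3) ∧ (k3 + 1) ≤ (n) ∧ (i + m + 2) ≤ (k) ∧ (i) ≤ (i2) ∧ (i2) ≤ (i) ∧ (i + m + 1) ≤ (k3) ∧ (k3) ≤ (i + m + 1) ∧ (k3) ≤ (i + l + m + 1) ∧ (m + k3 + 2) ≤ (n + i2))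
    (a1 : Par W (0) (j) (k - j))
    (a2 : Par W (Q + j - k) (j) (k - j))
    (s1 : Ant W (0) (i) (i + j))
    (s2 : Ant W (j + 1) (Q) (i + j))
    (b : Par W (i + 1) (i + l + 1) (k - i))
    (c1 : Par W (i2 + 1) (Q) (k + l - i2 + 1))
    (c2 : Par W (k + l + 2) (n) (i2 - k - l - 1))
    (tt : Ant W (i2 - m) (i2) (i + l + i2 + 1))
    (D1 : Par W (Q) (k3) (n + i2 - m - k3 - 1))
    (D2 : Par W (i + l + m + 3) (n) (k3 - i - l - m - 2))
    {L : ℤ} (mx : ∀ a b g, 0 < g → g < n → Par W a b g → b - a ≤ L)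
    (hL : L ≤ (n - j - 3) ∧ L ≤ (n + Q - k - 3) ∧ L ≤ (n - l - 3) ∧ L ≤ (n + i - k - 2))
    (bd0 : Bd W n L (j) (i) (k))
    (n1 : Nd W (j) (i) (k))
    (n2 : Nd W (i + l + 1) (i2) (k + l + 1))
    (n3 : Nd W (n + i2 - m - 1) (i + l + m + 2) (k3))
    (d1 : ℤ) (q1 : d1 % 2 = 0) (x1 : Par W (i + 1) (k + l - d1 + 1) d1)
    (b0 : (i + l + 1) ≤ (k + d1))
    (b1 : (d1) ≤ (l))
    (b2 : (k + 2 * l + 3) ≤ (n + i + d1))
    (b3 : (2 * i + j + 1) ≤ (k))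
    (b4 : (2 * l + 3) ≤ (n))
    (b5 : (k + 2 * m + 1) ≤ (n + j))
    (b6 : (i + l + 2 * m + 2) ≤ (n + i2))
    (b7 : (n + k3) ≤ (2 * i + 2 * l + i2 + m + 4))
    (b8 : (k) ≤ (i + 2 * j)) : False := by
  have ev := al.ev
  obtain ⟨y0, y1, y2, y3, y4, y5, y6, y7, y8, y9, y10, y11, y12, y13, y14, y15, y16, y17, y18, y19, y20, y21⟩ := id hy
  have n1p := And.intro n1.p1 n1.p2
  have n2p := And.intro n2.p1 n2.p2
  have n3p := And.intro n3.p1 n3.p2
  by_cases z31 : (2 * j + 2) ≤ (i + k)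
  · by_cases v8 : (2 * j + 1) ≤ (k)
    · have kk305 : (k) ≤ (i + 2 * j) := by clear * - b8; omega
      have kk306 : (k) ≤ (i + 2 * j + 1) := by clear * - b8; omega
      have kk307 : (2 * j + 1) ≤ (k) := by clear * - v8; omega
      have kk308 : (i + j + 1) ≤ (k) := by clear * - b3 b8 v8; omega
      have r309 : (i + 2 * j - 2 * n - k) % 2 = 0 := by clear * - ev n1p n2p n3p q1; omega
      clear * - al a1 s1 kk305 kk306 kk307 kk308 r309
      obtain ⟨t, ht⟩ : ∃ t, 2 * t = (i + 2 * j - 2 * n - k) := ⟨(i + 2 * j - 2 * n - k) / 2, by omega⟩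
      exact al.ninv t (cE (cI (qf a1 al (-1) t (t + (n + k - j)) (by omega)) (ab s1 al 0 (t + (n + k - j)) ((i + 2 * j - n - k) - t) (by omega))) (sh al (-1) ((i + 2 * j - n - k) - t) t (by omega)))
    · have kk310 : (2 * j + 2) ≤ (i + k) := by clear * - z31; omega
      have kk311 : (k) ≤ (i + 2 * j + 1) := by clear * - v8 z31; omega
      have kk312 : (k) ≤ (2 * j + 1) := by clear * - v8; omega
      have kk313 : (i + j + 1) ≤ (k) := by clear * - b3 v8 z31; omega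
      have r314 : (i + 2 * j - 2 * n - k) % 2 = 0 := by clear * - ev n1p n2p n3p q1; omega
      clear * - al a1 s1 kk310 kk311 kk312 kk313 r314
      obtain ⟨t, ht⟩ : ∃ t, 2 * t = (i + 2 * j - 2 * n - k) := ⟨(i + 2 * j - 2 * n - k) / 2, by omega⟩
      exact al.ninv t (cE (cI (qf a1 al (-1) t (t + (n + k - j)) (by omega)) (ab s1 al 0 (t + (n + k - j)) ((i + 2 * j - n - k) - t) (by omega))) (sh al (-1) ((i + 2 * j - n - k) - t) t (by omega)))
  · exact h9_22 al hy a1 a2 s1 s2 b c1 c2 tt D1 D2 mx hL bd0 n1 n2 n3 d1 q1 x1 (by clear * - b0; omega) (by clear * - b1; omega) (by clear * - b2; omega) (by clear * - b3; omega) (by clear * - b4; omega) (by clear * - b6; omega) (by clear * - b7; omega) (by clear * - z31; omega)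

theorem h9_38p
    {W : ℤ → G} {n Q i j k l i2 m k3 : ℤ} (al : AL W n Q)
    (hy : (0) ≤ (i) ∧ (i) ≤ (j) ∧ (j + 1) ≤ (Q) ∧ (Q) ≤ (k) ∧ (k + 1) ≤ (n) ∧ (Q) ≤ (i + l + 1) ∧ (k + l + 2) ≤ (n) ∧ (0) ≤ (i2) ∧ (i2 + 1) ≤ (Q) ∧ (Q + m + 1) ≤ (n + i2) ∧ (i2) ≤ (m) ∧ (Q) ≤ (i + l + m + 2) ∧ (i + l + m + 3) ≤ (n) ∧ (Q) ≤ (k3) ∧ (k3 + 1) ≤ (n) ∧ (i + m + 2) ≤ (k) ∧ (i) ≤ (i2) ∧ (i2) ≤ (i) ∧ (i + m + 1) ≤ (k3) ∧ (k3) ≤ (i + m + 1) ∧ (k3) ≤ (i + l + m + 1) ∧ (m + k3 + 2) ≤ (n + i2))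
    (a1 : Par W (0) (j) (k - j))
    (a2 : Par W (Q + j - k) (j) (k - j))
    (s1 : Ant W (0) (i) (i + j))
    (s2 : Ant W (j + 1) (Q) (i + j))
    (b : Par W (i + 1) (i + l + 1) (k - i))
    (c1 : Par W (i2 + 1) (Q) (k + l - i2 + 1))
    (c2 : Par W (k + l + 2) (n) (i2 - k - l - 1))
    (tt : Ant W (i2 - m) (i2) (i + l + i2 + 1))
    (D1 : Par W (Q) (k3) (n + i2 - m - k3 - 1))
    (D2 : Par W (i + l + m + 3) (n) (k3 - i - l - m - 2))
    {L : ℤ} (mx : ∀ a b g, 0 < g → g < n → Par W a b g → b - a ≤ L)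
    (hL : L ≤ (n - j - 3) ∧ L ≤ (n + Q - k - 3) ∧ L ≤ (n - l - 3) ∧ L ≤ (n + i - k - 2))
    (bd0 : Bd W n L (j) (i) (k))
    (n1 : Nd W (j) (i) (k))
    (n2 : Nd W (i + l + 1) (i2) (k + l + 1))
    (n3 : Nd W (n + i2 - m - 1) (i + l + m + 2) (k3))
    (d1 : ℤ) (q1 : d1 % 2 = 0) (x1 : Par W (i + 1) (k + l - d1 + 1) d1)
    (b0 : (i + l + 1) ≤ (k + d1))
    (b1 : (d1) ≤ (l))
    (b2 : (0) ≤ (d1))
    (b3 : (k + 2 * l + 3) ≤ (n + i + d1))
    (b4 : (2 * i + j + 1) ≤ (k))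
    (b5 : (n + i2) ≤ (i + k + 2 * l + 2))
    (b6 : (2 * i + 2 * l + 3 * m + 4) ≤ (n + i2 + k3))
    (b7 : (k + i2) ≤ (i + j + l + 1))
    (b8 : (k) ≤ (i + 2 * j)) : False := by
  have ev := al.ev
  obtain ⟨y0, y1, y2, y3, y4, y5, y6, y7, y8, y9, y10, y11, y12, y13, y14, y15, y16, y17, y18, y19, y20, y21⟩ := id hy
  have n1p := And.intro n1.p1 n1.p2
  have n2p := And.intro n2.p1 n2.p2
  have n3p := And.intro n3.p1 n3.p2
  by_cases z71 : (2 * j + 2) ≤ (i + k)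
  · by_cases v25 : (2 * j + 1) ≤ (k)
    · have kk823 : (k) ≤ (i + 2 * j) := by clear * - b8; omega
      have kk824 : (k) ≤ (i + 2 * j + 1) := by clear * - b8; omega
      have kk825 : (2 * j + 1) ≤ (k) := by clear * - v25; omega
      have kk826 : (i + j + 1) ≤ (k) := by clear * - b4 b8 v25; omega
      have r827 : (i + 2 * j - k) % 2 = 0 := by clear * - ev n1p n2p n3p q1; omega
      clear * - al a1 s1 kk823 kk824 kk825 kk826 r827
      obtain ⟨t, ht⟩ : ∃ t, 2 * t = (i + 2 * j - k) := ⟨(i + 2 * j - k) / 2, by omega⟩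
      exact al.ninv t (cI (qf a1 al 0 t (t + (k - j)) (by omega)) (ab s1 al 0 (t + (k - j)) t (by omega)))
    · have kk828 : (2 * j + 2) ≤ (i + k) := by clear * - z71; omega
      have kk829 : (k) ≤ (i + 2 * j + 1) := by clear * - v25 z71; omega
      have kk830 : (k) ≤ (2 * j + 1) := by clear * - v25; omega
      have kk831 : (i + j + 1) ≤ (k) := by clear * - b4 v25 z71; omega
      have r832 : (i + 2 * j - k) % 2 = 0 := by clear * - ev n1p n2p n3p q1; omega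
      clear * - al a1 s1 kk828 kk829 kk830 kk831 r832
      obtain ⟨t, ht⟩ : ∃ t, 2 * t = (i + 2 * j - k) := ⟨(i + 2 * j - k) / 2, by omega⟩
      exact al.ninv t (cI (qf a1 al 0 t (t + (k - j)) (by omega)) (ab s1 al 0 (t + (k - j)) t (by omega)))
  · by_cases z72 : (n + i2) ≤ (2 * k + l + 1)
    · have kk833 : (2 * k + l + 2) ≤ (n + j + i2) := by clear * - b6 b7 y13 y16 y19 y2 z71 ev n1p n2p n3p q1; omega
      have kk834 : (j + i2) ≤ (2 * k + l) := by clear * - b1 b3 b4 b5 y16 z72; omega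
      have kk835 : (j + i2 + 1) ≤ (k) := by clear * - b4 y17 y7; omega
      have kk836 : (n + i2) ≤ (2 * k + l + 1) := by clear * - z72; omega
      clear * - al a1 c2 kk833 kk834 kk835 kk836
      exact al.ubP (n + j + i2 - 2 * k - l - 1) (by omega) (by omega) fun t h1 h2 => (cE (sh al 2 t (t + (2 * n)) (by omega)) (cE (qf c2 al 1 (t + (2 * n)) (t + (n + i2 - k - l - 1)) (by omega)) (pb a1 al 0 (t + (n + i2 - k - l - 1)) (t + (n + j + i2 - 2 * k - l - 1)) (by omega))))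
    · by_cases z73 : (4 * i + 3 * l + i2 + 2 * m + 6) ≤ (n + k + 2 * k3)
      · by_cases z74 : (2 * i + l + 2 * i2 + 2) ≤ (k + m + k3)
        · have kk837 : (k + k3) ≤ (2 * i + l + m + 1) := by clear * - b5 y19 z72; omega
          have kk838 : (2 * i + l + 2 * i2 + 2) ≤ (k + m + k3) := by clear * - z74; omega
          have kk839 : (k + k3) ≤ (2 * i + l + m) := by clear * - b5 y19 z72 ev n1p n2p n3p q1; omega
          have kk840 : (2 * n + 2 * i2 + 3 * k3) ≤ (4 * i + k + 5 * l + 5 * m + 8) := by clear * - b5 y16 y19 z72 z74; omega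
          have kk841 : (i) ≤ (k3) := by clear * - y13 y16 y8; omega
          have kk842 : (2 * i + 2 * l + m + 3) ≤ (n + k3) := by clear * - b1 b3 y16 z73; omega
          have kk843 : (i + l + 2 * m + 3) ≤ (n + i2) := by clear * - b6 y21; omega
          have kk844 : (0) ≤ (i2) := by clear * - y7; omega
          have kk845 : (k + l + 2 * m + 3) ≤ (n + i2) := by clear * - b5 b6 y19 z72; omega
          have kk846 : (k3) ≤ (i + l + 1) := by clear * - b1 b2 b4 b5 b6 y19 z71 z72; omega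
          have r847 : (n + i2 + k3 - m - 1) % 2 = 0 := by clear * - ev n1p n2p n3p q1; omega
          have r848 : (2 * i + l + m - k - k3 + 2) % 2 = 0 := by clear * - ev n1p n2p n3p q1; omega
          clear * - al b tt D2 kk837 kk838 kk839 kk840 kk841 kk842 kk843 kk844 kk845 kk846 r847 r848
          exact midP al (2 * i + l + m - k - k3 + 2) (n + i2 + k3 - m - 1) (n + i2 + k3 - i - l - 2 * m - 2) (k + k3 - i + 1) (2 * i + 2 * l + m - k3 + 3) (by omega) (fun t h1 h2 => (cI (pb D2 al 0 t (t + (i + l + m - k3 + 2)) (by omega)) (qa tt al 1 (t + (i + l + m - k3 + 2)) ((n + i2 + k3 - m - 1) - t) (by omega)))) (fun t h1 h2 => (qf (show Par W (k + k3 - i + 1) (k + l + 1) (2 * i + l + m - k - k3 + 2) from fun t h1 h2 => (cE (sh al (-1) t (t + (-n)) (by omega)) (cE (pb b al (-1) (t + (-n)) (t + (i - k)) (by omega)) (pb D2 al 0 (t + (i - k)) (t + (2 * i + l + m - k - k3 + 2)) (by omega))))) al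 0 t (t + (2 * i + l + m - k - k3 + 2)) (by omega)))
        · have kk849 : (3 * k + l + 2) ≤ (n + i + j + i2) := by clear * - b4 y13 y17 y19 y2 z71 z73 z74; omega
          have kk850 : (i + j + i2) ≤ (3 * k + l) := by clear * - b0 b1 b4 b5 y13 y19 y8 z72 z73 z74; omega
          have kk851 : (i2) ≤ (k) := by clear * - b0 b1 b3 b5 y19 z73; omega
          have kk852 : (i + j + 1) ≤ (k) := by clear * - b4 y17 y7; omega
          have kk853 : (k) ≤ (i + l + 1) := by clear * - b5 z72; omega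
          have kk854 : (n + i + i2) ≤ (3 * k + l + 1) := by clear * - b5 y16 y19 y7 z73; omega
          clear * - al a1 b c2 kk849 kk850 kk851 kk852 kk853 kk854
          exact al.ubP (n + i + j + i2 - 3 * k - l - 1) (by omega) (by omega) fun t h1 h2 => (cE (sh al 2 t (t + (2 * n)) (by omega)) (cE (cE (qf c2 al 1 (t + (2 * n)) (t + (n + i2 - k - l - 1)) (by omega)) (pb b al 0 (t + (n + i2 - k - l - 1)) (t + (n + i + i2 - 2 * k - l - 1)) (by omega))) (pb a1 al 0 (t + (n + i + i2 - 2 * k - l - 1)) (t + (n + i + j + i2 - 3 * k - l - 1)) (by omega))))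
      · by_cases z75 : (k3 + d1) ≤ (i + l)
        · by_cases z76 : (k + 1) ≤ (i + d1)
          · have kk855 : (2 * k + l + d1 + 2) ≤ (n + j + i2) := by clear * - b6 y13 y19 y2 z71 z75; omega
            have kk856 : (j + i2) ≤ (2 * k + l + d1) := by clear * - b0 b1 b3 b4 b5 y18 z73; omega
            have kk857 : (j + i2 + 1) ≤ (k + d1) := by clear * - b3 b4 b5; omega
            have kk858 : (i + j + 1) ≤ (k) := by clear * - b4 y17 y7; omega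
            have kk859 : (n + i2) ≤ (2 * k + l + d1 + 1) := by clear * - b0 b5; omega
            have kk860 : (n + i2) ≤ (2 * k + 2 * l + 2) := by clear * - b0 b1 b5; omega
            clear * - al a1 c2 x1 kk855 kk856 kk857 kk858 kk859 kk860
            exact al.ubP (n + j + i2 - 2 * k - l - d1 - 1) (by omega) (by omega) fun t h1 h2 => (cE (sh al 2 t (t + (2 * n)) (by omega)) (cE (cE (qf c2 al 1 (t + (2 * n)) (t + (n + i2 - k - l - 1)) (by omega)) (pb x1 al 0 (t + (n + i2 - k - l - 1)) (t + (n + i2 - k - l - d1 - 1)) (by omega))) (pb a1 al 0 (t + (n + i2 - k - l - d1 - 1)) (t + (n + j + i2 - 2 * k - l - d1 - 1)) (by omega))))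
          · have kk861 : (3 * k + l + 2) ≤ (n + i + j + i2) := by clear * - b4 b6 y13 y17 y19 y2 z71 z73 ev n1p n2p n3p q1; omega
            have kk862 : (i + j + i2) ≤ (3 * k + l) := by clear * - b3 b4 b5 b8 y18 z73 z76; omega
            have kk863 : (i2) ≤ (k) := by clear * - b3 b4 b5 y17 z71 z76; omega
            have kk864 : (i + j + 1) ≤ (k) := by clear * - b4 y17 y7; omega
            have kk865 : (n + i2) ≤ (2 * k + 2 * l + 2) := by clear * - b2 b5 z76; omega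
            have kk866 : (n + i + i2) ≤ (3 * k + l + 1) := by clear * - b0 b5 z76; omega
            clear * - al a1 b c2 kk861 kk862 kk863 kk864 kk865 kk866
            exact al.ubP (n + i + j + i2 - 3 * k - l - 1) (by omega) (by omega) fun t h1 h2 => (cE (cE (qf c2 al (-1) t (t + (n + i2 - k - l - 1)) (by omega)) (pb b al 0 (t + (n + i2 - k - l - 1)) (t + (n + i + i2 - 2 * k - l - 1)) (by omega))) (pb a1 al 0 (t + (n + i + i2 - 2 * k - l - 1)) (t + (n + i + j + i2 - 3 * k - l - 1)) (by omega)))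
        · have kk867 : (k3 + d1) ≤ (i + l + m + 1) := by clear * - b1 y19; omega
          have kk868 : (i + l + 2 * i2 + 2) ≤ (m + k3 + d1) := by clear * - b4 y13 y17 y19 y2 z71 z75 ev n1p n2p n3p q1; omega
          have kk869 : (k3 + d1) ≤ (i + l + m) := by clear * - b1 y19 ev n1p n2p n3p q1; omega
          have kk870 : (2 * n + 2 * i2 + 3 * k3 + d1) ≤ (3 * i + 2 * k + 5 * l + 5 * m + 8) := by clear * - b1 b5 y10 y16 y19; omega
          have kk871 : (i) ≤ (k3) := by clear * - b1 z75; omega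
          have kk872 : (i + k + 2 * l + m + 3) ≤ (n + k3 + d1) := by clear * - b3 b4 b6 b7 y17 z72 z75; omega
          have kk873 : (i + l + 2 * m + 3) ≤ (n + i2) := by clear * - b6 y21; omega
          have kk874 : (0) ≤ (i2) := by clear * - y7; omega
          have kk875 : (i + l + 2 * m + d1 + 3) ≤ (n + i2) := by clear * - b1 b6 y19; omega
          have kk876 : (k3 + d1) ≤ (k + l + 1) := by clear * - b1 b4 b5 b6 y19 z71 z75; omega
          have r877 : (3 * n + i2 + k3 - m - 1) % 2 = 0 := by clear * - ev n1p n2p n3p q1; omega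
          have r878 : (i + l + m - k3 - d1 + 2) % 2 = 0 := by clear * - ev n1p n2p n3p q1; omega
          clear * - al tt D2 x1 kk867 kk868 kk869 kk870 kk871 kk872 kk873 kk874 kk875 kk876 r877 r878
          exact midP al (i + l + m - k3 - d1 + 2) (3 * n + i2 + k3 - m - 1) (2 * n + i2 + k3 - i - l - 2 * m - 2) (n + k3 + d1 + 1) (n + i + k + 2 * l + m - k3 - d1 + 3) (by omega) (fun t h1 h2 => (cE (cI (pb D2 al 1 t (t + (i + l + m - n - k3 + 2)) (by omega)) (qa tt al 1 (t + (i + l + m - n - k3 + 2)) ((2 * n + i2 + k3 - m - 1) - t) (by omega))) (sh al 1 ((2 * n + i2 + k3 - m - 1) - t) ((3 * n + i2 + k3 - m - 1) - t) (by omega)))) (fun t h1 h2 => (cE (qf (show Par W (k3 + d1 + 1) (k + l + 1) (i + l + m - k3 - d1 + 2) from fun t h1 h2 => (cE (sh al (-1) t (t + (-n)) (by omega)) (cE (pb x1 al (-1) (t + (-n)) (t + (-d1)) (by omega)) (pb D2 al 0 (t + (-d1)) (t + (i + l + m - k3 - d1 + 2)) (by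 omega))))) al 1 t (t + (i + l + m - n - k3 - d1 + 2)) (by omega)) (sh al 1 (t + (i + l + m - n - k3 - d1 + 2)) (t + (i + l + m - k3 - d1 + 2)) (by omega))))

theorem h9_36p
    (h9_37 : ∀ {W : ℤ → G} {n Q i j k l i2 m k3 : ℤ} (al : AL W n Q) (hy : (0) ≤ (i) ∧ (i) ≤ (j) ∧ (j + 1) ≤ (Q) ∧ (Q) ≤ (k) ∧ (k + 1) ≤ (n) ∧ (Q) ≤ (i + l + 1) ∧ (k + l + 2) ≤ (n) ∧ (0) ≤ (i2) ∧ (i2 + 1) ≤ (Q) ∧ (Q + m + 1) ≤ (n + i2) ∧ (i2) ≤ (m) ∧ (Q) ≤ (i + l + m + 2) ∧ (i + l + m + 3) ≤ (n) ∧ (Q) ≤ (k3) ∧ (k3 + 1) ≤ (n) ∧ (i + m + 2) ≤ (k) ∧ (i) ≤ (i2) ∧ (i2) ≤ (i) ∧ (i + m + 1) ≤ (k3) ∧ (k3) ≤ (i + m + 1) ∧ (k3) ≤ (i + l + m + 1) ∧ (m + k3 + 2) ≤ (n + i2)) (a1 : Par W (0) (j) (k - j)) (a2 : Par W (Q + j - k) (j) (k - j)) (s1 : Ant W (0) (i) (i + j)) (s2 : Ant W (j + 1) (Q) (i + j)) (b : Par W (i + 1) (i + l + 1) (k - i)) (c1 : Par W (i2 + 1) (Q) (k + l - i2 + 1)) (c2 : Par W (k + l + 2) (n) (i2 - k - l - 1)) (tt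 : Ant W (i2 - m) (i2) (i + l + i2 + 1)) (D1 : Par W (Q) (k3) (n + i2 - m - k3 - 1)) (D2 : Par W (i + l + m + 3) (n) (k3 - i - l - m - 2)) {L : ℤ} (mx : ∀ a b g, 0 < g → g < n → Par W a b g → b - a ≤ L) (hL : L ≤ (n - j - 3) ∧ L ≤ (n + Q - k - 3) ∧ L ≤ (n - l - 3) ∧ L ≤ (n + i - k - 2)) (bd0 : Bd W n L (j) (i) (k)) (n1 : Nd W (j) (i) (k)) (n2 : Nd W (i + l + 1) (i2) (k + l + 1)) (n3 : Nd W (n + i2 - m - 1) (i + l + m + 2) (k3)) (d1 : ℤ) (q1 : d1 % 2 = 0) (x1 : Par W (i + 1) (k + l - d1 + 1) d1) (b0 : (i + l + 1) ≤ (k + d1)) (b1 : (d1) ≤ (l)) (b2 : (0) ≤ (d1)) (b3 : (k + 2 * l + 3) ≤ (n + i + d1)) (b4 : (2 * i + j + 1) ≤ (k)) (b5 : (n + i2) ≤ (i + k + 2 * l + 2)) (b6 : (i + k + 2 * m) ≤ (2 * j + 2 * k3)) (b7 : (i + i2 + m + 2) ≤ (j + k3)) (b8 : (2 * i + 2 * l + 3 * m + 4) ≤ (n + i2 + k3)) (b9 : (k + i2) ≤ (i + j + l + 1)), False)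
    {W : ℤ → G} {n Q i j k l i2 m k3 : ℤ} (al : AL W n Q)
    (hy : (0) ≤ (i) ∧ (i) ≤ (j) ∧ (j + 1) ≤ (Q) ∧ (Q) ≤ (k) ∧ (k + 1) ≤ (n) ∧ (Q) ≤ (i + l + 1) ∧ (k + l + 2) ≤ (n) ∧ (0) ≤ (i2) ∧ (i2 + 1) ≤ (Q) ∧ (Q + m + 1) ≤ (n + i2) ∧ (i2) ≤ (m) ∧ (Q) ≤ (i + l + m + 2) ∧ (i + l + m + 3) ≤ (n) ∧ (Q) ≤ (k3) ∧ (k3 + 1) ≤ (n) ∧ (i + m + 2) ≤ (k) ∧ (i) ≤ (i2) ∧ (i2) ≤ (i) ∧ (i + m + 1) ≤ (k3) ∧ (k3) ≤ (i + m + 1) ∧ (k3) ≤ (i + l + m + 1) ∧ (m + k3 + 2) ≤ (n + i2))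
    (a1 : Par W (0) (j) (k - j))
    (a2 : Par W (Q + j - k) (j) (k - j))
    (s1 : Ant W (0) (i) (i + j))
    (s2 : Ant W (j + 1) (Q) (i + j))
    (b : Par W (i + 1) (i + l + 1) (k - i))
    (c1 : Par W (i2 + 1) (Q) (k + l - i2 + 1))
    (c2 : Par W (k + l + 2) (n) (i2 - k - l - 1))
    (tt : Ant W (i2 - m) (i2) (i + l + i2 + 1))
    (D1 : Par W (Q) (k3) (n + i2 - m - k3 - 1))
    (D2 : Par W (i + l + m + 3) (n) (k3 - i - l - m - 2))
    {L : ℤ} (mx : ∀ a b g, 0 < g → g < n → Par W a b g → b - a ≤ L)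
    (hL : L ≤ (n - j - 3) ∧ L ≤ (n + Q - k - 3) ∧ L ≤ (n - l - 3) ∧ L ≤ (n + i - k - 2))
    (bd0 : Bd W n L (j) (i) (k))
    (n1 : Nd W (j) (i) (k))
    (n2 : Nd W (i + l + 1) (i2) (k + l + 1))
    (n3 : Nd W (n + i2 - m - 1) (i + l + m + 2) (k3))
    (d1 : ℤ) (q1 : d1 % 2 = 0) (x1 : Par W (i + 1) (k + l - d1 + 1) d1)
    (b0 : (i + l + 1) ≤ (k + d1))
    (b1 : (d1) ≤ (l))
    (b2 : (0) ≤ (d1))
    (b3 : (k + 2 * l + 3) ≤ (n + i + d1))
    (b4 : (2 * i + j + 1) ≤ (k))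
    (b5 : (n + i2) ≤ (i + k + 2 * l + 2))
    (b6 : (k + 2 * m + 1) ≤ (n + j))
    (b7 : (i + k + 2 * m) ≤ (2 * j + 2 * k3))
    (b8 : (i + i2 + m + 2) ≤ (j + k3))
    (b9 : (2 * i + 2 * l + 3 * m + 4) ≤ (n + i2 + k3)) : False := by
  have ev := al.ev
  obtain ⟨y0, y1, y2, y3, y4, y5, y6, y7, y8, y9, y10, y11, y12, y13, y14, y15, y16, y17, y18, y19, y20, y21⟩ := id hy
  have n1p := And.intro n1.p1 n1.p2
  have n2p := And.intro n2.p1 n2.p2
  have n3p := And.intro n3.p1 n3.p2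
  by_cases z69 : (i + j + l + 2) ≤ (k + i2)
  · by_cases v22 : (i + j + l + 2) ≤ (k)
    · by_cases v23 : (i + l + m + 2) ≤ (k)
      · have kk803 : (k) ≤ (i + j + l + i2 + 1) := by clear * - b7 y16 y19 y2 y5 ev n1p n2p n3p q1; omega
        have kk804 : (k + i2) ≤ (i + j + l + 2 * m + 2) := by clear * - b7 y10 y16 y19 y2 y5; omega
        have kk805 : (i + j + l + 2) ≤ (k) := by clear * - v22; omega
        have kk806 : (i + l + m + 2) ≤ (k) := by clear * - v23; omega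
        have r807 : (2 * n + i + j + l + i2 - k + 1) % 2 = 0 := by clear * - ev n1p n2p n3p q1; omega
        clear * - al a1 tt kk803 kk804 kk805 kk806 r807
        obtain ⟨t, ht⟩ : ∃ t, 2 * t = (2 * n + i + j + l + i2 - k + 1) := ⟨(2 * n + i + j + l + i2 - k + 1) / 2, by omega⟩
        exact al.ninv t (cE (cI (qf a1 al 1 t (t + (k - n - j)) (by omega)) (ab tt al 0 (t + (k - n - j)) ((n + i + j + l + i2 - k + 1) - t) (by omega))) (sh al 1 ((n + i + j + l + i2 - k + 1) - t) t (by omega)))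
      · have kk808 : (k) ≤ (i + j + l + i2 + 1) := by clear * - b5 b7 b9 v22 v23 y16 y19; omega
        have kk809 : (i + l + i2 + 2) ≤ (j + k) := by clear * - b8 y19 z69; omega
        have kk810 : (i + j + l + 2) ≤ (k) := by clear * - v22; omega
        have kk811 : (k) ≤ (i + l + m + 2) := by clear * - v23; omega
        have r812 : (2 * n + i + j + l + i2 - k + 1) % 2 = 0 := by clear * - ev n1p n2p n3p q1; omega
        clear * - al a1 tt kk808 kk809 kk810 kk811 r812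
        obtain ⟨t, ht⟩ : ∃ t, 2 * t = (2 * n + i + j + l + i2 - k + 1) := ⟨(2 * n + i + j + l + i2 - k + 1) / 2, by omega⟩
        exact al.ninv t (cE (cI (qf a1 al 1 t (t + (k - n - j)) (by omega)) (ab tt al 0 (t + (k - n - j)) ((n + i + j + l + i2 - k + 1) - t) (by omega))) (sh al 1 ((n + i + j + l + i2 - k + 1) - t) t (by omega)))
    · by_cases v24 : (i + l + m + 2) ≤ (k)
      · have kk813 : (i + j + l + 3) ≤ (k + i2) := by clear * - z69 ev n1p n2p n3p q1; omega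
        have kk814 : (k + i2) ≤ (i + j + l + 2 * m + 2) := by clear * - v22 y10 z69; omega
        have kk815 : (k) ≤ (i + j + l + 2) := by clear * - v22; omega
        have kk816 : (i + l + m + 2) ≤ (k) := by clear * - v24; omega
        have r817 : (2 * n + i + j + l + i2 - k + 1) % 2 = 0 := by clear * - ev n1p n2p n3p q1; omega
        clear * - al a1 tt kk813 kk814 kk815 kk816 r817
        obtain ⟨t, ht⟩ : ∃ t, 2 * t = (2 * n + i + j + l + i2 - k + 1) := ⟨(2 * n + i + j + l + i2 - k + 1) / 2, by omega⟩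
        exact al.ninv t (cE (cI (qf a1 al 1 t (t + (k - n - j)) (by omega)) (ab tt al 0 (t + (k - n - j)) ((n + i + j + l + i2 - k + 1) - t) (by omega))) (sh al 1 ((n + i + j + l + i2 - k + 1) - t) t (by omega)))
      · have kk818 : (i + j + l + 3) ≤ (k + i2) := by clear * - z69 ev n1p n2p n3p q1; omega
        have kk819 : (i + l + i2 + 2) ≤ (j + k) := by clear * - b8 y19 z69; omega
        have kk820 : (k) ≤ (i + j + l + 2) := by clear * - v22; omega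
        have kk821 : (k) ≤ (i + l + m + 2) := by clear * - v24; omega
        have r822 : (2 * n + i + j + l + i2 - k + 1) % 2 = 0 := by clear * - ev n1p n2p n3p q1; omega
        clear * - al a1 tt kk818 kk819 kk820 kk821 r822
        obtain ⟨t, ht⟩ : ∃ t, 2 * t = (2 * n + i + j + l + i2 - k + 1) := ⟨(2 * n + i + j + l + i2 - k + 1) / 2, by omega⟩
        exact al.ninv t (cE (cI (qf a1 al 1 t (t + (k - n - j)) (by omega)) (ab tt al 0 (t + (k - n - j)) ((n + i + j + l + i2 - k + 1) - t) (by omega))) (sh al 1 ((n + i + j + l + i2 - k + 1) - t) t (by omega)))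
  · exact h9_37 al hy a1 a2 s1 s2 b c1 c2 tt D1 D2 mx hL bd0 n1 n2 n3 d1 q1 x1 (by clear * - b0; omega) (by clear * - b1; omega) (by clear * - b2; omega) (by clear * - b3; omega) (by clear * - b4; omega) (by clear * - b5; omega) (by clear * - b7; omega) (by clear * - b8; omega) (by clear * - b9; omega) (by clear * - z69; omega)

theorem h9_16p
    (h9_17 : ∀ {W : ℤ → G} {n Q i j k l i2 m k3 : ℤ} (al : AL W n Q) (hy : (0) ≤ (i) ∧ (i) ≤ (j) ∧ (j + 1) ≤ (Q) ∧ (Q) ≤ (k) ∧ (k + 1) ≤ (n) ∧ (Q) ≤ (i + l + 1) ∧ (k + l + 2) ≤ (n) ∧ (0) ≤ (i2) ∧ (i2 + 1) ≤ (Q) ∧ (Q + m + 1) ≤ (n + i2) ∧ (i2) ≤ (m) ∧ (Q) ≤ (i + l + m + 2) ∧ (i + l + m + 3) ≤ (n) ∧ (Q) ≤ (k3) ∧ (k3 + 1) ≤ (n) ∧ (i + m + 2) ≤ (k) ∧ (i) ≤ (i2) ∧ (i2) ≤ (i) ∧ (i + m + 1) ≤ (k3) ∧ (k3) ≤ (i + m + 1) ∧ (k3) ≤ (i + l + m + 1) ∧ (m + k3 + 2) ≤ (n + i2)) (a1 : Par W (0) (j) (k - j)) (a2 : Par W (Q + j - k) (j) (k - j)) (s1 : Ant W (0) (i)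 (i + j)) (s2 : Ant W (j + 1) (Q) (i + j)) (b : Par W (i + 1) (i + l + 1) (k - i)) (c1 : Par W (i2 + 1) (Q) (k + l - i2 + 1)) (c2 : Par W (k + l + 2) (n) (i2 - k - l - 1)) (tt : Ant W (i2 - m) (i2) (i + l + i2 + 1)) (D1 : Par W (Q) (k3) (n + i2 - m - k3 - 1)) (D2 : Par W (i + l + m + 3) (n) (k3 - i - l - m - 2)) {L : ℤ} (mx : ∀ a b g, 0 < g → g < n → Par W a b g → b - a ≤ L) (hL : L ≤ (n - j - 3) ∧ L ≤ (n + Q - k - 3) ∧ L ≤ (n - l - 3) ∧ L ≤ (n + i - k - 2)) (bd0 : Bd W n L (j) (i) (k)) (n1 : Nd W (j) (i) (k)) (n2 : Nd W (i + l + 1) (i2) (k + l + 1)) (n3 : Nd W (n + i2 - m - 1) (i + l + m + 2) (k3)) (d1 : ℤ) (q1 : d1 % 2 = 0) (x1 : Par W (i + 1) (k + l - d1 + 1) d1) (b0 : (i + l + 1) ≤ (k + d1)) (b1 : (d1) ≤ (l)) (b2 : (0) ≤ (d1)) (b3 : (k + 2 * l + 3) ≤ (n + i + d1)) (b4 : (2 * i + j + 1) ≤ (k)) (b5 : (n + i2) ≤ (i + k + 2 * l + 2)) (b6 : (2 * l + 3) ≤ (n)) (b7 : (k + 2 * m + 1) ≤ (n +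 j)) (b8 : (i + k + 2 * m) ≤ (2 * j + 2 * k3)) (b9 : (i + i2 + m + 2) ≤ (j + k3)), False)
    {W : ℤ → G} {n Q i j k l i2 m k3 : ℤ} (al : AL W n Q)
    (hy : (0) ≤ (i) ∧ (i) ≤ (j) ∧ (j + 1) ≤ (Q) ∧ (Q) ≤ (k) ∧ (k + 1) ≤ (n) ∧ (Q) ≤ (i + l + 1) ∧ (k + l + 2) ≤ (n) ∧ (0) ≤ (i2) ∧ (i2 + 1) ≤ (Q) ∧ (Q + m + 1) ≤ (n + i2) ∧ (i2) ≤ (m) ∧ (Q) ≤ (i + l + m + 2) ∧ (i + l + m + 3) ≤ (n) ∧ (Q) ≤ (k3) ∧ (k3 + 1) ≤ (n) ∧ (i + m + 2) ≤ (k) ∧ (i) ≤ (i2) ∧ (i2) ≤ (i) ∧ (i + m + 1) ≤ (k3) ∧ (k3) ≤ (i + m + 1) ∧ (k3) ≤ (i + l + m + 1) ∧ (m + k3 + 2) ≤ (n + i2))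
    (a1 : Par W (0) (j) (k - j))
    (a2 : Par W (Q + j - k) (j) (k - j))
    (s1 : Ant W (0) (i) (i + j))
    (s2 : Ant W (j + 1) (Q) (i + j))
    (b : Par W (i + 1) (i + l + 1) (k - i))
    (c1 : Par W (i2 + 1) (Q) (k + l - i2 + 1))
    (c2 : Par W (k + l + 2) (n) (i2 - k - l - 1))
    (tt : Ant W (i2 - m) (i2) (i + l + i2 + 1))
    (D1 : Par W (Q) (k3) (n + i2 - m - k3 - 1))
    (D2 : Par W (i + l + m + 3) (n) (k3 - i - l - m - 2))
    {L : ℤ} (mx : ∀ a b g, 0 < g → g < n → Par W a b g → b - a ≤ L)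
    (hL : L ≤ (n - j - 3) ∧ L ≤ (n + Q - k - 3) ∧ L ≤ (n - l - 3) ∧ L ≤ (n + i - k - 2))
    (bd0 : Bd W n L (j) (i) (k))
    (n1 : Nd W (j) (i) (k))
    (n2 : Nd W (i + l + 1) (i2) (k + l + 1))
    (n3 : Nd W (n + i2 - m - 1) (i + l + m + 2) (k3))
    (d1 : ℤ) (q1 : d1 % 2 = 0) (x1 : Par W (i + 1) (k + l - d1 + 1) d1)
    (b0 : (i + l + 1) ≤ (k + d1))
    (b1 : (d1) ≤ (l))
    (b2 : (0) ≤ (d1))
    (b3 : (k + 2 * l + 3) ≤ (n + i + d1))
    (b4 : (2 * i + j + 1) ≤ (k))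
    (b5 : (n + i2) ≤ (i + k + 2 * l + 2))
    (b6 : (2 * l + 3) ≤ (n))
    (b7 : (k + 2 * m + 1) ≤ (n + j))
    (b8 : (i + k + 2 * m) ≤ (2 * j + 2 * k3)) : False := by
  have ev := al.ev
  obtain ⟨y0, y1, y2, y3, y4, y5, y6, y7, y8, y9, y10, y11, y12, y13, y14, y15, y16, y17, y18, y19, y20, y21⟩ := id hy
  have n1p := And.intro n1.p1 n1.p2
  have n2p := And.intro n2.p1 n2.p2
  have n3p := And.intro n3.p1 n3.p2
  by_cases z26 : (j + k3) ≤ (i + i2 + m + 1)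
  · have kk280 : (i + 1) ≤ (k) := by clear * - b0 b1; omega
    have kk281 : (i + m + 2) ≤ (k) := by clear * - y15; omega
    have kk282 : (k + l + 2) ≤ (n) := by clear * - y6; omega
    have kk283 : (i + i2 + m + 1) ≤ (j + k3) := by clear * - b4 b8 y1 y17; omega
    have kk284 : (j + k3) ≤ (i + i2 + m + 1) := by clear * - z26; omega
    have kk285 : (2 * i + m + 2) ≤ (k + k3) := by clear * - b0 b1 b4 b5 b6 b8 z26; omega
    have kk286 : (0) ≤ (l) := by clear * - b1 b2; omega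
    have kk287 : (k3) ≤ (i + l + m + 1) := by clear * - y20; omega
    have kk288 : (i + k + 2 * m) ≤ (2 * j + 2 * k3) := by clear * - b8; omega
    have kk289 : (i2) ≤ (m) := by clear * - y10; omega
    have kk290 : (i2) ≤ (j) := by clear * - y1 y17; omega
    have kk291 : (i + j + 1) ≤ (k) := by clear * - b4 b5 b6 y18 z26; omega
    have kk292 : (i + i2 + 1) ≤ (k) := by clear * - b4 b5 b6 b8 y17 y19; omega
    have kk293 : (i2) ≤ (j + l + 1) := by clear * - b1 b2 b4 b8 y17 y19; omega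
    have kk294 : (0) ≤ (l + 1) := by clear * - b1 b2; omega
    have r295 : (i + k + l + i2 - j + 1) % 2 = 0 := by clear * - ev n1p n2p n3p q1; omega
    have r296 : (k - i) % 2 = 0 := by clear * - ev n1p n2p n3p q1; omega
    clear * - al a1 b tt D2 n2 kk280 kk281 kk282 kk283 kk284 kk285 kk286 kk287 kk288 kk289 kk290 kk291 kk292 kk293 kk294 r295 r296
    exact n2.f0 (rEE (sh al 0 (i + l + 1) (i + l + 1) (by omega)) (qf D2 al 0 (k + l + 1) (k + k3 - i - m - 1) (by omega)) (Eq.symm (midU al (k - i) (i + k + l + i2 - j + 1) (k + k3 - i - m - 1) (i + l + 1) (i + 1) (k + l + 1) (by omega) (fun t h1 h2 => (cI (pb a1 al 0 t (t + (j - k)) (by omega)) (qa tt al 0 (t + (j - k)) ((i + k + l + i2 - j + 1) - t) (by omega)))) (fun t h1 h2 => (qf b al 0 t (t + (k - i)) (by omega))))))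
  · exact h9_17 al hy a1 a2 s1 s2 b c1 c2 tt D1 D2 mx hL bd0 n1 n2 n3 d1 q1 x1 (by clear * - b0; omega) (by clear * - b1; omega) (by clear * - b2; omega) (by clear * - b3; omega) (by clear * - b4; omega) (by clear * - b5; omega) (by clear * - b6; omega) (by clear * - b7; omega) (by clear * - b8; omega) (by clear * - z26; omega)

theorem h9_48p
    (h9_49 : ∀ {W : ℤ → G} {n Q i j k l i2 m k3 : ℤ} (al : AL W n Q) (hy : (0) ≤ (i) ∧ (i) ≤ (j) ∧ (j + 1) ≤ (Q) ∧ (Q) ≤ (k) ∧ (k + 1) ≤ (n) ∧ (Q) ≤ (i + l + 1) ∧ (k + l + 2) ≤ (n) ∧ (0) ≤ (i2) ∧ (i2 + 1) ≤ (Q) ∧ (Q + m + 1) ≤ (n + i2) ∧ (i2) ≤ (m) ∧ (Q) ≤ (i + l + m + 2) ∧ (i + l + m + 3) ≤ (n) ∧ (Q) ≤ (k3) ∧ (k3 + 1) ≤ (n) ∧ (i + m + 2) ≤ (k) ∧ (i) ≤ (i2) ∧ (i2) ≤ (i) ∧ (i + m + 1) ≤ (k3) ∧ (k3) ≤ (i + m + 1) ∧ (k3) ≤ (i + l + m + 1) ∧ (m + k3 + 2) ≤ (n + i2)) (a1 : Par W (0) (j) (k - j)) (a2 : Par W (Q + j - k) (j) (k - j)) (s1 : Ant W (0) (i)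 (i + j)) (s2 : Ant W (j + 1) (Q) (i + j)) (b : Par W (i + 1) (i + l + 1) (k - i)) (c1 : Par W (i2 + 1) (Q) (k + l - i2 + 1)) (c2 : Par W (k + l + 2) (n) (i2 - k - l - 1)) (tt : Ant W (i2 - m) (i2) (i + l + i2 + 1)) (D1 : Par W (Q) (k3) (n + i2 - m - k3 - 1)) (D2 : Par W (i + l + m + 3) (n) (k3 - i - l - m - 2)) {L : ℤ} (mx : ∀ a b g, 0 < g → g < n → Par W a b g → b - a ≤ L) (hL : L ≤ (n - j - 3) ∧ L ≤ (n + Q - k - 3) ∧ L ≤ (n - l - 3) ∧ L ≤ (n + i - k - 2)) (bd0 : Bd W n L (j) (i) (k)) (n1 : Nd W (j) (i) (k)) (n2 : Nd W (i + l + 1) (i2) (k + l + 1)) (n3 : Nd W (n + i2 - m - 1) (i + l + m + 2) (k3)) (d1 : ℤ) (q1 : d1 % 2 = 0) (x1 : Par W (i + 1) (k + l - d1 + 1) d1) (b0 : (d1) ≤ (l)) (b1 : (k + 2 * l + 3) ≤ (n + i + d1)) (b2 : (2 * l + 3) ≤ (n)) (b3 : (k + 2 * m + 1) ≤ (n + j)) (b4 : (2 * j + 2 * k3 + 1) ≤ (i + k + 2 * m)) (b5 : (n + k3) ≤ (2 * i + 2 * l + i2 + m + 4)) (b6 : (2 * Q + k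 + l + 1) ≤ (n + i + j + i2)) (b7 : (i + l + 2 * m + 3) ≤ (n + i2)) (b8 : (i + l + m + 2) ≤ (2 * j + k3 + d1)) (b9 : (k + i2 + d1) ≤ (i + j + l + 2 * m + 2)) (b10 : (2 * Q + j + d1) ≤ (i + k + l + i2 + 1)), False)
    (h9_50 : ∀ {W : ℤ → G} {n Q i j k l i2 m k3 : ℤ} (al : AL W n Q) (hy : (0) ≤ (i) ∧ (i) ≤ (j) ∧ (j + 1) ≤ (Q) ∧ (Q) ≤ (k) ∧ (k + 1) ≤ (n) ∧ (Q) ≤ (i + l + 1) ∧ (k + l + 2) ≤ (n) ∧ (0) ≤ (i2) ∧ (i2 + 1) ≤ (Q) ∧ (Q + m + 1) ≤ (n + i2) ∧ (i2) ≤ (m) ∧ (Q) ≤ (i + l + m + 2) ∧ (i + l + m + 3) ≤ (n) ∧ (Q) ≤ (k3) ∧ (k3 + 1) ≤ (n) ∧ (i + m + 2) ≤ (k) ∧ (i) ≤ (i2) ∧ (i2) ≤ (i) ∧ (i + m + 1) ≤ (k3) ∧ (k3) ≤ (i + m + 1) ∧ (k3) ≤ (i + l + m + 1) ∧ (m + k3 + 2) ≤ (n + i2)) (a1 : Par W (0) (j) (k - j)) (a2 : Par W (Q + j - k) (j) (k - j)) (s1 : Ant W (0) (i) (i + j)) (s2 : Ant W (j + 1) (Q) (i + j)) (b : Par W (i + 1) (i + l + 1) (k - i)) (c1 : Par W (i2 + 1) (Q) (k + l - i2 + 1)) (c2 : Par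 W (k + l + 2) (n) (i2 - k - l - 1)) (tt : Ant W (i2 - m) (i2) (i + l + i2 + 1)) (D1 : Par W (Q) (k3) (n + i2 - m - k3 - 1)) (D2 : Par W (i + l + m + 3) (n) (k3 - i - l - m - 2)) {L : ℤ} (mx : ∀ a b g, 0 < g → g < n → Par W a b g → b - a ≤ L) (hL : L ≤ (n - j - 3) ∧ L ≤ (n + Q - k - 3) ∧ L ≤ (n - l - 3) ∧ L ≤ (n + i - k - 2)) (bd0 : Bd W n L (j) (i) (k)) (n1 : Nd W (j) (i) (k)) (n2 : Nd W (i + l + 1) (i2) (k + l + 1)) (n3 : Nd W (n + i2 - m - 1) (i + l + m + 2) (k3)) (d1 : ℤ) (q1 : d1 % 2 = 0) (x1 : Par W (i + 1) (k + l - d1 + 1) d1) (b0 : (d1) ≤ (l)) (b1 : (2 * l + 3) ≤ (n)) (b2 : (2 * j + 2 * k3 + 1) ≤ (i + k + 2 * m)) (b3 : (n + k3) ≤ (2 * i + 2 * l + i2 + m + 4)) (b4 : (2 * Q + k + l + 1) ≤ (n + i + j + i2)) (b5 : (i + l + 2 * m + 3) ≤ (n + i2)) (b6 : (i + l + m + 2) ≤ (2 * j + k3 + d1)) (b7 : (i + k + l + i2 + 2) ≤ (2 * Q + j + d1)), False)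
    {W : ℤ → G} {n Q i j k l i2 m k3 : ℤ} (al : AL W n Q)
    (hy : (0) ≤ (i) ∧ (i) ≤ (j) ∧ (j + 1) ≤ (Q) ∧ (Q) ≤ (k) ∧ (k + 1) ≤ (n) ∧ (Q) ≤ (i + l + 1) ∧ (k + l + 2) ≤ (n) ∧ (0) ≤ (i2) ∧ (i2 + 1) ≤ (Q) ∧ (Q + m + 1) ≤ (n + i2) ∧ (i2) ≤ (m) ∧ (Q) ≤ (i + l + m + 2) ∧ (i + l + m + 3) ≤ (n) ∧ (Q) ≤ (k3) ∧ (k3 + 1) ≤ (n) ∧ (i + m + 2) ≤ (k) ∧ (i) ≤ (i2) ∧ (i2) ≤ (i) ∧ (i + m + 1) ≤ (k3) ∧ (k3) ≤ (i + m + 1) ∧ (k3) ≤ (i + l + m + 1) ∧ (m + k3 + 2) ≤ (n + i2))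
    (a1 : Par W (0) (j) (k - j))
    (a2 : Par W (Q + j - k) (j) (k - j))
    (s1 : Ant W (0) (i) (i + j))
    (s2 : Ant W (j + 1) (Q) (i + j))
    (b : Par W (i + 1) (i + l + 1) (k - i))
    (c1 : Par W (i2 + 1) (Q) (k + l - i2 + 1))
    (c2 : Par W (k + l + 2) (n) (i2 - k - l - 1))
    (tt : Ant W (i2 - m) (i2) (i + l + i2 + 1))
    (D1 : Par W (Q) (k3) (n + i2 - m - k3 - 1))
    (D2 : Par W (i + l + m + 3) (n) (k3 - i - l - m - 2))
    {L : ℤ} (mx : ∀ a b g, 0 < g → g < n → Par W a b g → b - a ≤ L)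
    (hL : L ≤ (n - j - 3) ∧ L ≤ (n + Q - k - 3) ∧ L ≤ (n - l - 3) ∧ L ≤ (n + i - k - 2))
    (bd0 : Bd W n L (j) (i) (k))
    (n1 : Nd W (j) (i) (k))
    (n2 : Nd W (i + l + 1) (i2) (k + l + 1))
    (n3 : Nd W (n + i2 - m - 1) (i + l + m + 2) (k3))
    (d1 : ℤ) (q1 : d1 % 2 = 0) (x1 : Par W (i + 1) (k + l - d1 + 1) d1)
    (b0 : (d1) ≤ (l))
    (b1 : (k + 2 * l + 3) ≤ (n + i + d1))
    (b2 : (2 * l + 3) ≤ (n))
    (b3 : (k + 2 * m + 1) ≤ (n + j))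
    (b4 : (2 * j + 2 * k3 + 1) ≤ (i + k + 2 * m))
    (b5 : (n + k3) ≤ (2 * i + 2 * l + i2 + m + 4))
    (b6 : (2 * Q + k + l + 1) ≤ (n + i + j + i2))
    (b7 : (i + l + 2 * m + 3) ≤ (n + i2))
    (b8 : (i + l + m + 2) ≤ (2 * j + k3 + d1))
    (b9 : (k + i2 + d1) ≤ (i + j + l + 2 * m + 2)) : False := by
  have ev := al.ev
  obtain ⟨y0, y1, y2, y3, y4, y5, y6, y7, y8, y9, y10, y11, y12, y13, y14, y15, y16, y17, y18, y19, y20, y21⟩ := id hy
  have n1p := And.intro n1.p1 n1.p2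
  have n2p := And.intro n2.p1 n2.p2
  have n3p := And.intro n3.p1 n3.p2
  by_cases z94 : (2 * Q + j + d1) ≤ (i + k + l + i2 + 1)
  · exact h9_49 al hy a1 a2 s1 s2 b c1 c2 tt D1 D2 mx hL bd0 n1 n2 n3 d1 q1 x1 (by clear * - b0; omega) (by clear * - b1; omega) (by clear * - b2; omega) (by clear * - b3; omega) (by clear * - b4; omega) (by clear * - b5; omega) (by clear * - b6; omega) (by clear * - b7; omega) (by clear * - b8; omega) (by clear * - b9; omega) (by clear * - z94; omega)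
  · exact h9_50 al hy a1 a2 s1 s2 b c1 c2 tt D1 D2 mx hL bd0 n1 n2 n3 d1 q1 x1 (by clear * - b0; omega) (by clear * - b2; omega) (by clear * - b4; omega) (by clear * - b5; omega) (by clear * - b6; omega) (by clear * - b7; omega) (by clear * - b8; omega) (by clear * - z94; omega)

end Pool.Agent.MP_a38735_al.WL
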