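import Pool.Agent.MP_a38735_al.WT

set_option autoImplicit false
set_option linter.unusedVariables false

namespace Pool.Agent.MP_a38735_al.WL

variable {G : Type*} [Group G]

theorem ev7_2p
    (ev7_3 : ∀ {W : ℤ → G} {n Q i j k l i2 m k3 : ℤ} (al : AL W n Q) (hy : (0) ≤ (i) ∧ (i) ≤ (j) ∧ (j + 1) ≤ (Q) ∧ (Q) ≤ (k) ∧ (k + 1) ≤ (n) ∧ (Q) ≤ (i + l + 1) ∧ (k + l + 2) ≤ (n) ∧ (0) ≤ (i2) ∧ (i2 + 1) ≤ (Q) ∧ (Q + m + 1) ≤ (n + i2) ∧ (i2) ≤ (m) ∧ (Q) ≤ (i + l + m + 2) ∧ (i + l + m + 3) ≤ (n) ∧ (Q) ≤ (k3) ∧ (k3 + 1) ≤ (n) ∧ (i + m + 2) ≤ (k) ∧ (i) ≤ (i2) ∧ (i2) ≤ (i) ∧ (k3) ≤ (i + m)) (a1 : Par W (0) (j) (k - j)) (a2 : Par W (Q + j - k) (j) (k - j)) (s1 : Ant W (0) (i) (i + j)) (s2 : Ant W (j + 1) (Q) (i + j)) (b : Par W (i + 1) (i + l + 1) (k - i)) (c1 : Par W (i2 + 1) (Q) (k + l - i2 + 1)) (c2 : Par W (k + l + 2) (n) (i2 - k - l - 1)) (tt : Ant W (i2 - m) (i2) (i + l + i2 + 1)) (D1 : Par W (Q)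 (k3) (n + i2 - m - k3 - 1)) (D2 : Par W (i + l + m + 3) (n) (k3 - i - l - m - 2)) {L : ℤ} (mx : ∀ a b g, 0 < g → g < n → Par W a b g → b - a ≤ L) (hL : L ≤ (n - j - 3) ∧ L ≤ (n + Q - k - 3) ∧ L ≤ (n - l - 3) ∧ L ≤ (n + i - k - 2)) (bd0 : Bd W n L (j) (i) (k)) (n1 : Nd W (j) (i) (k)) (n2 : Nd W (i + l + 1) (i2) (k + l + 1)) (n3 : Nd W (n + i2 - m - 1) (i + l + m + 2) (k3)) (b0 : (i + l + 2 * m + 2) ≤ (n + i2)) (b1 : (2 * i + j + 1) ≤ (k)) (b2 : (i + k + l + m + 3) ≤ (n + j + k3)), False)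
    {W : ℤ → G} {n Q i j k l i2 m k3 : ℤ} (al : AL W n Q)
    (hy : (0) ≤ (i) ∧ (i) ≤ (j) ∧ (j + 1) ≤ (Q) ∧ (Q) ≤ (k) ∧ (k + 1) ≤ (n) ∧ (Q) ≤ (i + l + 1) ∧ (k + l + 2) ≤ (n) ∧ (0) ≤ (i2) ∧ (i2 + 1) ≤ (Q) ∧ (Q + m + 1) ≤ (n + i2) ∧ (i2) ≤ (m) ∧ (Q) ≤ (i + l + m + 2) ∧ (i + l + m + 3) ≤ (n) ∧ (Q) ≤ (k3) ∧ (k3 + 1) ≤ (n) ∧ (i + m + 2) ≤ (k) ∧ (i) ≤ (i2) ∧ (i2) ≤ (i) ∧ (k3) ≤ (i + m))
    (a1 : Par W (0) (j) (k - j))
    (a2 : Par W (Q + j - k) (j) (k - j))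
    (s1 : Ant W (0) (i) (i + j))
    (s2 : Ant W (j + 1) (Q) (i + j))
    (b : Par W (i + 1) (i + l + 1) (k - i))
    (c1 : Par W (i2 + 1) (Q) (k + l - i2 + 1))
    (c2 : Par W (k + l + 2) (n) (i2 - k - l - 1))
    (tt : Ant W (i2 - m) (i2) (i + l + i2 + 1))
    (D1 : Par W (Q) (k3) (n + i2 - m - k3 - 1))
    (D2 : Par W (i + l + m + 3) (n) (k3 - i - l - m - 2))
    {L : ℤ} (mx : ∀ a b g, 0 < g → g < n → Par W a b g → b - a ≤ L)
    (hL : L ≤ (n - j - 3) ∧ L ≤ (n + Q - k - 3) ∧ L ≤ (n - l - 3) ∧ L ≤ (n + i - k - 2))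
    (bd0 : Bd W n L (j) (i) (k))
    (n1 : Nd W (j) (i) (k))
    (n2 : Nd W (i + l + 1) (i2) (k + l + 1))
    (n3 : Nd W (n + i2 - m - 1) (i + l + m + 2) (k3))
    (b0 : (i + l + 2 * m + 2) ≤ (n + i2))
    (b1 : (2 * i + j + 1) ≤ (k)) : False := by
  have ev := al.ev
  obtain ⟨y0, y1, y2, y3, y4, y5, y6, y7, y8, y9, y10, y11, y12, y13, y14, y15, y16, y17, y18⟩ := id hy
  have n1p := And.intro n1.p1 n1.p2
  have n2p := And.intro n2.p1 n2.p2
  have n3p := And.intro n3.p1 n3.p2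
  by_cases z3 : (n + j + k3) ≤ (i + k + l + m + 2)
  · have kk18 : (k + 1) ≤ (n + j) := by clear * - y1 y5 y6 y7 y8; omega
    have kk19 : (Q) ≤ (k) := by clear * - y13 y15 y18; omega
    have kk20 : (Q) ≤ (i + l + 1) := by clear * - y5; omega
    have kk21 : (i + l + 2) ≤ (n + j) := by clear * - b0 y1 y13 y16 y18 y8; omega
    have kk22 : (Q) ≤ (k + l + 1) := by clear * - y11 y15; omega
    have kk23 : (k + l + 2) ≤ (n + j) := by clear * - y1 y17 y6 y7; omega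
    have kk24 : (n + Q + j) ≤ (i + k + l + m + 3) := by clear * - y13 z3; omega
    have kk25 : (i + 1) ≤ (Q) := by clear * - y16 y8; omega
    have kk26 : (i) ≤ (k) := by clear * - y13 y15 y16 y18 y8; omega
    have kk27 : (k + l + 1) ≤ (n + j) := by clear * - y1 y17 y6 y7; omega
    have kk28 : (i2) ≤ (j) := by clear * - y1 y17; omega
    have kk29 : (Q) ≤ (i + l + 2) := by clear * - y5; omega
    have kk30 : (i + l + m + 2) ≤ (n + j) := by clear * - b0 y1 y13 y18 y8; omega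
    have kk31 : (Q + m) ≤ (n + i2) := by clear * - b0 y11; omega
    have r32 : (k - i) % 2 = 0 := by clear * - ev n1p n2p n3p; omega
    have r33 : (n + j - k) % 2 = 0 := by clear * - ev n1p n2p n3p; omega
    have r34 : (i + l + i2 - n + 1) % 2 = 0 := by clear * - ev n1p n2p n3p; omega
    clear * - al a2 b tt n2 kk18 kk19 kk20 kk21 kk22 kk23 kk24 kk25 kk26 kk27 kk28 kk29 kk30 kk31 r32 r33 r34
    exact ivt al.ninv (Q - n) (k - n) (n + j - k) (Q - n) (i + l - n + 1) (k - i) (i + l - n + 1) (k + l - n + 1) 0 (fun t h1 h2 => (pb a2 al (-1) t (t + (n + j - k)) (by omega))) (fun t h1 h2 => (cE (qf b al (-1) t (t + (n + k - i)) (by omega)) (sh al (-1) (t + (n + k - i)) (t + (k - i)) (by omega)))) (fun hh => n2.f0 (rEE (sh al (-1) (i + l + 1) (i + l - n + 1) (by omega)) (sh al (-1) (k + l + 1) (k + l - n + 1) (by omega)) (Eq.symm hh))) (by omega) (i + l - n + 2) (i + l + m - n + 2) (i +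 l + i2 - n + 1) 0 0 (fun t h1 h2 => (ab tt al (-1) t ((i + l + i2 - n + 1) - t) (by omega))) (by omega)
  · exact ev7_3 al hy a1 a2 s1 s2 b c1 c2 tt D1 D2 mx hL bd0 n1 n2 n3 (by clear * - b0; omega) (by clear * - b1; omega) (by clear * - z3; omega)

theorem ev7p
    (ev7_1 : ∀ {W : ℤ → G} {n Q i j k l i2 m k3 : ℤ} (al : AL W n Q) (hy : (0) ≤ (i) ∧ (i) ≤ (j) ∧ (j + 1) ≤ (Q) ∧ (Q) ≤ (k) ∧ (k + 1) ≤ (n) ∧ (Q) ≤ (i + l + 1) ∧ (k + l + 2) ≤ (n) ∧ (0) ≤ (i2) ∧ (i2 + 1) ≤ (Q) ∧ (Q + m + 1) ≤ (n + i2) ∧ (i2) ≤ (m) ∧ (Q) ≤ (i + l + m + 2) ∧ (i + l + m + 3) ≤ (n) ∧ (Q) ≤ (k3) ∧ (k3 + 1) ≤ (n) ∧ (i + m + 2) ≤ (k) ∧ (i) ≤ (i2) ∧ (i2) ≤ (i) ∧ (k3) ≤ (i + m)) (a1 : Par W (0) (j) (k - j)) (a2 : Par W (Q + j - k) (j) (k - j)) (s1 : Ant W (0) (i) (i + j)) (s2 : Ant W (j + 1) (Q) (i + j)) (b : Par W (i + 1) (i + l + 1) (k - i)) (c1 : Par W (i2 + 1) (Q) (k + l - i2 + 1)) (c2 : Par W (k + l + 2) (n) (i2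 - k - l - 1)) (tt : Ant W (i2 - m) (i2) (i + l + i2 + 1)) (D1 : Par W (Q) (k3) (n + i2 - m - k3 - 1)) (D2 : Par W (i + l + m + 3) (n) (k3 - i - l - m - 2)) {L : ℤ} (mx : ∀ a b g, 0 < g → g < n → Par W a b g → b - a ≤ L) (hL : L ≤ (n - j - 3) ∧ L ≤ (n + Q - k - 3) ∧ L ≤ (n - l - 3) ∧ L ≤ (n + i - k - 2)) (bd0 : Bd W n L (j) (i) (k)) (n1 : Nd W (j) (i) (k)) (n2 : Nd W (i + l + 1) (i2) (k + l + 1)) (n3 : Nd W (n + i2 - m - 1) (i + l + m + 2) (k3)) (b0 : (i + l + 2 * m + 2) ≤ (n + i2)), False)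
    {W : ℤ → G} {n Q i j k l i2 m k3 : ℤ} (al : AL W n Q)
    (hy : (0) ≤ (i) ∧ (i) ≤ (j) ∧ (j + 1) ≤ (Q) ∧ (Q) ≤ (k) ∧ (k + 1) ≤ (n) ∧ (Q) ≤ (i + l + 1) ∧ (k + l + 2) ≤ (n) ∧ (0) ≤ (i2) ∧ (i2 + 1) ≤ (Q) ∧ (Q + m + 1) ≤ (n + i2) ∧ (i2) ≤ (m) ∧ (Q) ≤ (i + l + m + 2) ∧ (i + l + m + 3) ≤ (n) ∧ (Q) ≤ (k3) ∧ (k3 + 1) ≤ (n) ∧ (i + m + 2) ≤ (k) ∧ (i) ≤ (i2) ∧ (i2) ≤ (i) ∧ (k3) ≤ (i + m))
    (a1 : Par W (0) (j) (k - j))
    (a2 : Par W (Q + j - k) (j) (k - j))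
    (s1 : Ant W (0) (i) (i + j))
    (s2 : Ant W (j + 1) (Q) (i + j))
    (b : Par W (i + 1) (i + l + 1) (k - i))
    (c1 : Par W (i2 + 1) (Q) (k + l - i2 + 1))
    (c2 : Par W (k + l + 2) (n) (i2 - k - l - 1))
    (tt : Ant W (i2 - m) (i2) (i + l + i2 + 1))
    (D1 : Par W (Q) (k3) (n + i2 - m - k3 - 1))
    (D2 : Par W (i + l + m + 3) (n) (k3 - i - l - m - 2))
    {L : ℤ} (mx : ∀ a b g, 0 < g → g < n → Par W a b g → b - a ≤ L)
    (hL : L ≤ (n - j - 3) ∧ L ≤ (n + Q - k - 3) ∧ L ≤ (n - l - 3) ∧ L ≤ (n + i - k - 2))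
    (bd0 : Bd W n L (j) (i) (k))
    (n1 : Nd W (j) (i) (k))
    (n2 : Nd W (i + l + 1) (i2) (k + l + 1))
    (n3 : Nd W (n + i2 - m - 1) (i + l + m + 2) (k3)) : False := by
  have ev := al.ev
  obtain ⟨y0, y1, y2, y3, y4, y5, y6, y7, y8, y9, y10, y11, y12, y13, y14, y15, y16, y17, y18⟩ := id hy
  have n1p := And.intro n1.p1 n1.p2
  have n2p := And.intro n2.p1 n2.p2
  have n3p := And.intro n3.p1 n3.p2
  by_cases z1 : (n + i2) ≤ (i + l + 2 * m + 1)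
  · have kk1 : (i + l + 3) ≤ (n + i2) := by clear * - y12 y7 z1; omega
    have kk2 : (n + i2) ≤ (i + l + 2 * m + 2) := by clear * - z1; omega
    have r3 : (3 * n + i + l + i2 + 1) % 2 = 0 := by clear * - ev n1p n2p n3p; omega
    clear * - al tt kk1 kk2 r3
    obtain ⟨t, ht⟩ : ∃ t, 2 * t = (3 * n + i + l + i2 + 1) := ⟨(3 * n + i + l + i2 + 1) / 2, by omega⟩
    exact al.ninv t (cE (ab tt al 1 t ((n + i + l + i2 + 1) - t) (by omega)) (sh al 2 ((n + i + l + i2 + 1) - t) t (by omega)))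
  · exact ev7_1 al hy a1 a2 s1 s2 b c1 c2 tt D1 D2 mx hL bd0 n1 n2 n3 (by clear * - z1; omega)

theorem h8_4p
    (h8_5 : ∀ {W : ℤ → G} {n Q i j k l i2 m k3 : ℤ} (al : AL W n Q) (hy : (0) ≤ (i) ∧ (i) ≤ (j) ∧ (j + 1) ≤ (Q) ∧ (Q) ≤ (k) ∧ (k + 1) ≤ (n) ∧ (Q) ≤ (i + l + 1) ∧ (k + l + 2) ≤ (n) ∧ (0) ≤ (i2) ∧ (i2 + 1) ≤ (Q) ∧ (Q + m + 1) ≤ (n + i2) ∧ (i2) ≤ (m) ∧ (Q) ≤ (i + l + m + 2) ∧ (i + l + m + 3) ≤ (n) ∧ (Q) ≤ (k3) ∧ (k3 + 1) ≤ (n) ∧ (i + m + 2) ≤ (k) ∧ (i) ≤ (i2) ∧ (i2) ≤ (i) ∧ (i + m + 2) ≤ (k3) ∧ (k3) ≤ (i + l + m + 1) ∧ (m + k3 + 2) ≤ (n + i2)) (a1 : Par W (0) (j) (k - j)) (a2 : Par W (Q + j - k) (j) (k - j)) (s1 : Ant W (0) (i) (i + j)) (s2 : Ant W (j + 1) (Q) (i + j)) (b : Par W (i + 1) (i + l + 1) (k - i)) (c1 : Par W (i2 + 1) (Q) (k + l - i2 + 1)) (c2 : Par W (k + l + 2) (n) (i2 - k - l - 1)) (tt : Ant W (i2 - m) (i2) (i + l + i2 + 1)) (D1 : Par W (Q) (k3) (n + i2 - m - k3 -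 1)) (D2 : Par W (i + l + m + 3) (n) (k3 - i - l - m - 2)) {L : ℤ} (mx : ∀ a b g, 0 < g → g < n → Par W a b g → b - a ≤ L) (hL : L ≤ (n - j - 3) ∧ L ≤ (n + Q - k - 3) ∧ L ≤ (n - l - 3) ∧ L ≤ (n + i - k - 2)) (bd0 : Bd W n L (j) (i) (k)) (n1 : Nd W (j) (i) (k)) (n2 : Nd W (i + l + 1) (i2) (k + l + 1)) (n3 : Nd W (n + i2 - m - 1) (i + l + m + 2) (k3)) (b0 : (2 * l + 3) ≤ (n)) (b1 : (n + k3) ≤ (2 * i + 2 * l + i2 + m + 4)) (b2 : (i + l + 1) ≤ (i2 + 2 * m)) (b3 : (2 * i + j + 1) ≤ (k)), False)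
    {W : ℤ → G} {n Q i j k l i2 m k3 : ℤ} (al : AL W n Q)
    (hy : (0) ≤ (i) ∧ (i) ≤ (j) ∧ (j + 1) ≤ (Q) ∧ (Q) ≤ (k) ∧ (k + 1) ≤ (n) ∧ (Q) ≤ (i + l + 1) ∧ (k + l + 2) ≤ (n) ∧ (0) ≤ (i2) ∧ (i2 + 1) ≤ (Q) ∧ (Q + m + 1) ≤ (n + i2) ∧ (i2) ≤ (m) ∧ (Q) ≤ (i + l + m + 2) ∧ (i + l + m + 3) ≤ (n) ∧ (Q) ≤ (k3) ∧ (k3 + 1) ≤ (n) ∧ (i + m + 2) ≤ (k) ∧ (i) ≤ (i2) ∧ (i2) ≤ (i) ∧ (i + m + 2) ≤ (k3) ∧ (k3) ≤ (i + l + m + 1) ∧ (m + k3 + 2) ≤ (n + i2))
    (a1 : Par W (0) (j) (k - j))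
    (a2 : Par W (Q + j - k) (j) (k - j))
    (s1 : Ant W (0) (i) (i + j))
    (s2 : Ant W (j + 1) (Q) (i + j))
    (b : Par W (i + 1) (i + l + 1) (k - i))
    (c1 : Par W (i2 + 1) (Q) (k + l - i2 + 1))
    (c2 : Par W (k + l + 2) (n) (i2 - k - l - 1))
    (tt : Ant W (i2 - m) (i2) (i + l + i2 + 1))
    (D1 : Par W (Q) (k3) (n + i2 - m - k3 - 1))
    (D2 : Par W (i + l + m + 3) (n) (k3 - i - l - m - 2))
    {L : ℤ} (mx : ∀ a b g, 0 < g → g < n → Par W a b g → b - a ≤ L)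
    (hL : L ≤ (n - j - 3) ∧ L ≤ (n + Q - k - 3) ∧ L ≤ (n - l - 3) ∧ L ≤ (n + i - k - 2))
    (bd0 : Bd W n L (j) (i) (k))
    (n1 : Nd W (j) (i) (k))
    (n2 : Nd W (i + l + 1) (i2) (k + l + 1))
    (n3 : Nd W (n + i2 - m - 1) (i + l + m + 2) (k3))
    (b0 : (2 * l + 3) ≤ (n))
    (b1 : (n + k3) ≤ (2 * i + 2 * l + i2 + m + 4))
    (b2 : (i + l + 1) ≤ (i2 + 2 * m)) : False := by
  have ev := al.ev
  obtain ⟨y0, y1, y2, y3, y4, y5, y6, y7, y8, y9, y10, y11, y12, y13, y14, y15, y16, y17, y18, y19, y20⟩ := id hy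
  have n1p := And.intro n1.p1 n1.p2
  have n2p := And.intro n2.p1 n2.p2
  have n3p := And.intro n3.p1 n3.p2
  by_cases z5 : (k) ≤ (2 * i + j)
  · by_cases v2 : (i + j + 1) ≤ (k)
    · have kk14 : (j + 1) ≤ (k) := by clear * - v2 z5; omega
      have kk15 : (k) ≤ (2 * i + j) := by clear * - z5; omega
      have kk16 : (k) ≤ (2 * i + 3 * j + 2) := by clear * - y10 y15 y16 z5; omega
      have kk17 : (0) ≤ (j + k) := by clear * - b2 y15 y17 y18 y19 z5; omega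
      have kk18 : (i + j + 1) ≤ (k) := by clear * - v2; omega
      have r19 : (i + j) % 2 = 0 := by clear * - ev n1p n2p n3p; omega
      have r20 : (k - j) % 2 = 0 := by clear * - ev n1p n2p n3p; omega
      clear * - al a1 s1 kk14 kk15 kk16 kk17 kk18 r19 r20
      exact midP al (k - j) (i + j) (0) (0) (k) (by omega) (fun t h1 h2 => (qa s1 al 0 t ((i + j) - t) (by omega))) (fun t h1 h2 => (qf a1 al 0 t (t + (k - j)) (by omega)))
    · have kk21 : (j + 1) ≤ (k) := by clear * - y2 y3; omega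
      have kk22 : (j + 2) ≤ (k) := by clear * - y2 y3 ev n1p n2p n3p; omega
      have kk23 : (0) ≤ (j + k) := by clear * - b2 y15 y17 y18 y19 z5; omega
      have kk24 : (2 * i + j + 2) ≤ (3 * k) := by clear * - b2 y13 y15 y17 y19 y2; omega
      have kk25 : (k) ≤ (i + j + 1) := by clear * - v2; omega
      have r26 : (i + j) % 2 = 0 := by clear * - ev n1p n2p n3p; omega
      have r27 : (k - j) % 2 = 0 := by clear * - ev n1p n2p n3p; omega
      clear * - al a1 s1 kk21 kk22 kk23 kk24 kk25 r26 r27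
      exact midP al (k - j) (i + j) (i + j - k + 1) (0) (k) (by omega) (fun t h1 h2 => (qa s1 al 0 t ((i + j) - t) (by omega))) (fun t h1 h2 => (qf a1 al 0 t (t + (k - j)) (by omega)))
  · exact h8_5 al hy a1 a2 s1 s2 b c1 c2 tt D1 D2 mx hL bd0 n1 n2 n3 (by clear * - b0; omega) (by clear * - b1; omega) (by clear * - b2; omega) (by clear * - z5; omega)

theorem h8_15p
    {W : ℤ → G} {n Q i j k l i2 m k3 : ℤ} (al : AL W n Q)
    (hy : (0) ≤ (i) ∧ (i) ≤ (j) ∧ (j + 1) ≤ (Q) ∧ (Q) ≤ (k) ∧ (k + 1) ≤ (n) ∧ (Q) ≤ (i + l + 1) ∧ (k + l + 2) ≤ (n) ∧ (0) ≤ (i2) ∧ (i2 + 1) ≤ (Q) ∧ (Q + m + 1) ≤ (n + i2) ∧ (i2) ≤ (m) ∧ (Q) ≤ (i + l + m + 2) ∧ (i + l + m + 3) ≤ (n) ∧ (Q) ≤ (k3) ∧ (k3 + 1) ≤ (n) ∧ (i + m + 2) ≤ (k) ∧ (i) ≤ (i2) ∧ (i2) ≤ (i) ∧ (i + m + 2) ≤ (k3) ∧ (k3) ≤ (i + l + m + 1) ∧ (m + k3 + 2) ≤ (n + i2))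
    (a1 : Par W (0) (j) (k - j))
    (a2 : Par W (Q + j - k) (j) (k - j))
    (s1 : Ant W (0) (i) (i + j))
    (s2 : Ant W (j + 1) (Q) (i + j))
    (b : Par W (i + 1) (i + l + 1) (k - i))
    (c1 : Par W (i2 + 1) (Q) (k + l - i2 + 1))
    (c2 : Par W (k + l + 2) (n) (i2 - k - l - 1))
    (tt : Ant W (i2 - m) (i2) (i + l + i2 + 1))
    (D1 : Par W (Q) (k3) (n + i2 - m - k3 - 1))
    (D2 : Par W (i + l + m + 3) (n) (k3 - i - l - m - 2))
    {L : ℤ} (mx : ∀ a b g, 0 < g → g < n → Par W a b g → b - a ≤ L)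
    (hL : L ≤ (n - j - 3) ∧ L ≤ (n + Q - k - 3) ∧ L ≤ (n - l - 3) ∧ L ≤ (n + i - k - 2))
    (bd0 : Bd W n L (j) (i) (k))
    (n1 : Nd W (j) (i) (k))
    (n2 : Nd W (i + l + 1) (i2) (k + l + 1))
    (n3 : Nd W (n + i2 - m - 1) (i + l + m + 2) (k3))
    (b0 : (2 * l + 3) ≤ (n))
    (b1 : (n + k3) ≤ (2 * i + 2 * l + i2 + m + 4))
    (b2 : (i2 + 2 * m) ≤ (i + l))
    (b3 : (2 * i + j + 1) ≤ (k))
    (b4 : (2 * Q + k + l) ≤ (n + 2 * j + i2))
    (b5 : (k + k3) ≤ (2 * i + l + m + 1))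
    (b6 : (k + i2 + 1) ≤ (i + k3)) : False := by
  have ev := al.ev
  obtain ⟨y0, y1, y2, y3, y4, y5, y6, y7, y8, y9, y10, y11, y12, y13, y14, y15, y16, y17, y18, y19, y20⟩ := id hy
  have n1p := And.intro n1.p1 n1.p2
  have n2p := And.intro n2.p1 n2.p2
  have n3p := And.intro n3.p1 n3.p2
  by_cases z37 : (4 * k + 2 * l + m + 3) ≤ (2 * n + 2 * j + i2 + k3)
  · by_cases z38 : (2 * j + 2 * k + 2 * l + m + 5) ≤ (2 * n + i2 + k3)
    · by_cases z39 : (2 * i + 6 * k + 4 * l + 3 * m + 9) ≤ (4 * n + i2 + 3 * k3)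
      · by_cases v16 : (n + k3) ≤ (i + j + k + l + m + 3)
        · have kk471 : (i2 + m + 2) ≤ (k3) := by clear * - b0 b2 b3 b6 v16 y18; omega
          have kk472 : (2 * j + 2 * k + 2 * l + m + 5) ≤ (2 * n + i2 + k3) := by clear * - z38; omega
          have kk473 : (2 * k + 2 * l + i2 + m + 5) ≤ (2 * n + k3) := by clear * - b0 b2 b3 b6 v16 z38 z39; omega
          have kk474 : (2 * i + 6 * k + 4 * l + 3 * m + 9) ≤ (4 * n + i2 + 3 * k3) := by clear * - z39; omega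
          have kk475 : (i + m + 1) ≤ (k) := by clear * - b0 b2 b3 b6 v16 y16; omega
          have kk476 : (i) ≤ (j) := by clear * - b0 b2 b3 b6 v16 y18 z39; omega
          have kk477 : (i + m + 1) ≤ (k3) := by clear * - y18; omega
          have kk478 : (n + k3) ≤ (i + k + 2 * l + m + 3) := by clear * - b1 b3 b6 v16 y20; omega
          have kk479 : (n + i2 + k3) ≤ (i + 2 * k + l + m + 2) := by clear * - b0 b2 b3 b6 v16 z38; omega
          have kk480 : (n + k3) ≤ (i + j + k + l + m + 3) := by clear * - v16; omega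
          have r481 : (i + k - 2 * n) % 2 = 0 := by clear * - ev n1p n2p n3p; omega
          have r482 : (k3 - i2 - m - 1) % 2 = 0 := by clear * - ev n1p n2p n3p; omega
          clear * - al a1 s1 b c2 D2 kk471 kk472 kk473 kk474 kk475 kk476 kk477 kk478 kk479 kk480 r481 r482
          exact midP al (k3 - i2 - m - 1) (i + k - 2 * n) (i + 2 * k + l + m - 2 * n - k3 + 3) (i2 - n + 1) (k3 - k - l - m - 2) (by omega) (fun t h1 h2 => (cE (cI (pb a1 al (-1) t (t + (n + j - k)) (by omega)) (qa s1 al 0 (t + (n + j - k)) ((i + k - n) - t) (by omega))) (sh al (-1) ((i + k - n) - t) ((i + k - 2 * n) - t) (by omega)))) (fun t h1 h2 => (cE (cE (qf (show Par W (i2 + 1) (n + i2 - k - l - 1) (k + k3 - i - i2 - m - 1) from fun t h1 h2 => (cE (sh al (-1) t (t + (-n)) (by omega)) (cE (pb c2 al (-1) (t + (-n)) (t + (k + l - i2 + 1)) (by omega)) (qf D2 al 0 (t + (k + l - i2 + 1)) (t + (k + k3 - i - i2 -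 m - 1)) (by omega))))) al (-1) t (t + (n + k + k3 - i - i2 - m - 1)) (by omega)) (pb b al 0 (t + (n + k + k3 - i - i2 - m - 1)) (t + (n + k3 - i2 - m - 1)) (by omega))) (sh al (-1) (t + (n + k3 - i2 - m - 1)) (t + (k3 - i2 - m - 1)) (by omega))))
        · have kk483 : (i2 + m + 2) ≤ (k3) := by clear * - y17 y18; omega
          have kk484 : (k3) ≤ (2 * i + i2 + m + 1) := by clear * - b0 b1; omega
          have kk485 : (i2 + k3) ≤ (2 * i + 2 * j + m + 1) := by clear * - b0 b1 y1 y17; omega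
          have kk486 : (4 * k + 2 * l + m + 3) ≤ (2 * n + 2 * j + i2 + k3) := by clear * - z37; omega
          have kk487 : (i + m + 1) ≤ (k) := by clear * - y15; omega
          have kk488 : (i) ≤ (j) := by clear * - y1; omega
          have kk489 : (i + m + 1) ≤ (k3) := by clear * - y18; omega
          have kk490 : (n + k3) ≤ (i + k + 2 * l + m + 3) := by clear * - b1 y10 y15; omega
          have kk491 : (i + j + k + l + m + 3) ≤ (n + k3) := by clear * - v16; omega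
          have kk492 : (j + i2 + 1) ≤ (k) := by clear * - b0 b1 b3 y17 y18; omega
          have r493 : (i + k - 2 * n) % 2 = 0 := by clear * - ev n1p n2p n3p; omega
          have r494 : (k3 - i2 - m - 1) % 2 = 0 := by clear * - ev n1p n2p n3p; omega
          clear * - al a1 s1 b c2 D2 kk483 kk484 kk485 kk486 kk487 kk488 kk489 kk490 kk491 kk492 r493 r494
          exact midP al (k3 - i2 - m - 1) (i + k - 2 * n) (k - n - j) (i2 - n + 1) (k3 - k - l - m - 2) (by omega) (fun t h1 h2 => (cE (cI (pb a1 al (-1) t (t + (n + j - k)) (by omega)) (qa s1 al 0 (t + (n + j - k)) ((i + k - n) - t) (by omega))) (sh al (-1) ((i + k - n) - t) ((i + k - 2 * n) - t) (by omega)))) (fun t h1 h2 => (cE (cE (qf (show Par W (i2 + 1) (n + i2 - k - l - 1) (k + k3 - i - i2 - m - 1) from fun t h1 h2 => (cE (sh al (-1) t (t + (-n)) (by omega)) (cE (pb c2 al (-1) (t + (-n)) (t + (k + l - i2 + 1)) (by omega)) (qf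 D2 al 0 (t + (k + l - i2 + 1)) (t + (k + k3 - i - i2 - m - 1)) (by omega))))) al (-1) t (t + (n + k + k3 - i - i2 - m - 1)) (by omega)) (pb b al 0 (t + (n + k + k3 - i - i2 - m - 1)) (t + (n + k3 - i2 - m - 1)) (by omega))) (sh al (-1) (t + (n + k3 - i2 - m - 1)) (t + (k3 - i2 - m - 1)) (by omega))))
      · by_cases v17 : (2 * j + 1) ≤ (k)
        · have kk495 : (k) ≤ (i + 2 * j) := by clear * - b0 b2 b3 b6 y18 z37 z39; omega
          have kk496 : (k) ≤ (i + 2 * j + 1) := by clear * - b0 b2 b3 b6 y18 z37 z39; omega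
          have kk497 : (2 * j + 1) ≤ (k) := by clear * - v17; omega
          have kk498 : (i + j + 1) ≤ (k) := by clear * - b0 b3 b5 y18 z38 z39; omega
          have r499 : (i + 2 * j - k) % 2 = 0 := by clear * - ev n1p n2p n3p; omega
          clear * - al a1 s1 kk495 kk496 kk497 kk498 r499
          obtain ⟨t, ht⟩ : ∃ t, 2 * t = (i + 2 * j - k) := ⟨(i + 2 * j - k) / 2, by omega⟩
          exact al.ninv t (cI (qf a1 al 0 t (t + (k - j)) (by omega)) (ab s1 al 0 (t + (k - j)) t (by omega)))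
        · have kk500 : (2 * j + 2) ≤ (i + k) := by clear * - b0 b2 b3 b6 v17 y18 z38 z39; omega
          have kk501 : (k) ≤ (i + 2 * j + 1) := by clear * - b0 b2 b5 b6 v17 y18 z38 z39; omega
          have kk502 : (k) ≤ (2 * j + 1) := by clear * - v17; omega
          have kk503 : (i + j + 1) ≤ (k) := by clear * - b0 b3 b5 y18 z38 z39; omega
          have r504 : (i + 2 * j - k) % 2 = 0 := by clear * - ev n1p n2p n3p; omega
          clear * - al a1 s1 kk500 kk501 kk502 kk503 r504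
          obtain ⟨t, ht⟩ : ∃ t, 2 * t = (i + 2 * j - k) := ⟨(i + 2 * j - k) / 2, by omega⟩
          exact al.ninv t (cI (qf a1 al 0 t (t + (k - j)) (by omega)) (ab s1 al 0 (t + (k - j)) t (by omega)))
    · have kk505 : (2 * k + l + m + 3) ≤ (n + j + k3) := by clear * - b0 b2 b3 b5 b6 y18 z37 z38; omega
      have kk506 : (j + k3) ≤ (2 * k + l + m + 1) := by clear * - b0 b1 b2 b3 b6 y18 z37 z38; omega
      have kk507 : (i + j + k3 + 1) ≤ (2 * k) := by clear * - b0 b1 b2 b3 z38; omega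
      have kk508 : (i + j + 1) ≤ (k) := by clear * - b0 b1 b2 b3 b6 y18 z38; omega
      have kk509 : (n + k3) ≤ (2 * k + l + m + 2) := by clear * - b0 b1 b2 b3 b6 y18 z38; omega
      have kk510 : (n + k3) ≤ (i + k + 2 * l + m + 3) := by clear * - b0 b1 b3 b6 y20 z38; omega
      clear * - al a1 b D2 kk505 kk506 kk507 kk508 kk509 kk510
      exact al.ubP (n + j + k3 - 2 * k - l - m - 2) (by omega) (by omega) fun t h1 h2 => (cE (cE (qf D2 al (-1) t (t + (n + k3 - i - l - m - 2)) (by omega)) (pb b al 0 (t + (n + k3 - i - l - m - 2)) (t + (n + k3 - k - l - m - 2)) (by omega))) (pb a1 al 0 (t + (n + k3 - k - l - m - 2)) (t + (n + j + k3 - 2 * k - l - m - 2)) (by omega)))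
  · by_cases z40 : (n + 4 * i + l + i2 + 3) ≤ (5 * k)
    · by_cases z41 : (2 * k) ≤ (2 * i + j + l + i2 + 2)
      · have kk511 : (2 * k) ≤ (2 * i + j + l + i2 + 1) := by clear * - z41 ev n1p n2p n3p; omega
        have kk512 : (2 * i + j + l + 2) ≤ (2 * k + i2) := by clear * - b0 b2 b5 b6 y16 z37 z40; omega
        have kk513 : (i + j + 1) ≤ (k) := by clear * - b0 b3 b5 y18 z37 z41; omega
        have kk514 : (i2) ≤ (m) := by clear * - y10; omega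
        have kk515 : (k) ≤ (i + l + 1) := by clear * - b0 b2 b3 b5 b6 z40 z41; omega
        have kk516 : (i2) ≤ (j) := by clear * - y1 y17; omega
        have r517 : (2 * k + l + i2 - j + 1) % 2 = 0 := by clear * - ev n1p n2p n3p; omega
        clear * - al a1 b tt kk511 kk512 kk513 kk514 kk515 kk516 r517
        obtain ⟨t, ht⟩ : ∃ t, 2 * t = (2 * k + l + i2 - j + 1) := ⟨(2 * k + l + i2 - j + 1) / 2, by omega⟩
        exact al.ninv t (cI (cE (pb b al 0 t (t + (i - k)) (by omega)) (pb a1 al 0 (t + (i - k)) (t + (i + j - 2 * k)) (by omega))) (qa tt al 0 (t + (i + j - 2 * k)) t (by omega)))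
      · by_cases v18 : (Q + k) ≤ (2 * i + l + 2)
        · have kk518 : (2 * k + 1) ≤ (n + i + j) := by clear * - b0 b4 v18 y16 y8; omega
          have kk519 : (n + i + j) ≤ (2 * k + 2 * m) := by clear * - b0 b1 b6 y1 y16 z41; omega
          have kk520 : (2 * Q + j) ≤ (n + i + 2 * i2) := by clear * - b0 b1 b3 b4 b5 v18 y18 z41; omega
          have kk521 : (3 * i + 2 * l + 4) ≤ (n + j + 2 * k) := by clear * - b0 b4 v18 y16 y8 z40; omega
          have kk522 : (i + 1) ≤ (Q) := by clear * - y16 y8; omega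
          have kk523 : (k) ≤ (i + l + 1) := by clear * - b5 y18; omega
          have kk524 : (i2) ≤ (j) := by clear * - y1 y17; omega
          have kk525 : (Q + k) ≤ (2 * i + l + 2) := by clear * - v18; omega
          have r526 : (3 * n + i + l + i2 + 1) % 2 = 0 := by clear * - ev n1p n2p n3p; omega
          have r527 : (n + i + j - 2 * k) % 2 = 0 := by clear * - ev n1p n2p n3p; omega
          clear * - al a2 b tt kk518 kk519 kk520 kk521 kk522 kk523 kk524 kk525 r526 r527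
          exact midP al (n + i + j - 2 * k) (3 * n + i + l + i2 + 1) (n + i + l + 2) (n + Q + k - i) (2 * n + j) (by omega) (fun t h1 h2 => (cE (ab tt al 1 t ((n + i + l + i2 + 1) - t) (by omega)) (sh al 2 ((n + i + l + i2 + 1) - t) ((3 * n + i + l + i2 + 1) - t) (by omega)))) (fun t h1 h2 => (cE (cE (pb b al 1 t (t + (i - n - k)) (by omega)) (pb a2 al 0 (t + (i - n - k)) (t + (i + j - n - 2 * k)) (by omega))) (sh al 2 (t + (i + j - n - 2 * k)) (t + (n + i + j - 2 * k)) (by omega))))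
        · have kk528 : (2 * k + 1) ≤ (n + i + j) := by clear * - b0 b2 b4 b5 b6 v18 y18 z40; omega
          have kk529 : (n + 2 * Q + j) ≤ (3 * i + 2 * l + 2 * m + 4) := by clear * - b0 b1 b2 b4 b5 b6 y16 z41; omega
          have kk530 : (4 * Q + j + 2 * k) ≤ (n + 5 * i + 2 * l + 2 * i2 + 4) := by clear * - b0 b2 b4 b5 b6 v18 y16 z37; omega
          have kk531 : (2 * Q) ≤ (n + i + j) := by clear * - b0 b1 b2 b3 b4 b5 b6 v18; omega
          have kk532 : (i + 1) ≤ (Q) := by clear * - b5 v18 y18; omega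
          have kk533 : (k) ≤ (i + l + 1) := by clear * - b5 y18; omega
          have kk534 : (2 * i + l + 2) ≤ (Q + k) := by clear * - v18; omega
          have kk535 : (2 * i + l + i2 + 2) ≤ (Q + j + k) := by clear * - b1 b2 b4 b5 b6 v18 y16 z41; omega
          have r536 : (3 * n + i + l + i2 + 1) % 2 = 0 := by clear * - ev n1p n2p n3p; omega
          have r537 : (n + i + j - 2 * k) % 2 = 0 := by clear * - ev n1p n2p n3p; omega
          clear * - al a2 b tt kk528 kk529 kk530 kk531 kk532 kk533 kk534 kk535 r536 r537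
          exact midP al (n + i + j - 2 * k) (3 * n + i + l + i2 + 1) (n + Q + k - i) (n + Q + k - i) (2 * n + j) (by omega) (fun t h1 h2 => (cE (ab tt al 1 t ((n + i + l + i2 + 1) - t) (by omega)) (sh al 2 ((n + i + l + i2 + 1) - t) ((3 * n + i + l + i2 + 1) - t) (by omega)))) (fun t h1 h2 => (cE (cE (pb b al 1 t (t + (i - n - k)) (by omega)) (pb a2 al 0 (t + (i - n - k)) (t + (i + j - n - 2 * k)) (by omega))) (sh al 2 (t + (i + j - n - 2 * k)) (t + (n + i + j - 2 * k)) (by omega))))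
    · by_cases v19 : (Q + j + m) ≤ (k + i2)
      · have kk538 : (2 * k + i2) ≤ (2 * i + j + l + 2 * m + 1) := by clear * - b1 b4 b6 y10 y16 y8 z40; omega
        have kk539 : (2 * i + j + l + 2) ≤ (2 * k + i2) := by clear * - b0 y16 y18 z37; omega
        have kk540 : (i + m + 1) ≤ (k) := by clear * - y15; omega
        have kk541 : (Q + j + m) ≤ (k + i2) := by clear * - v19; omega
        have kk542 : (i2) ≤ (j) := by clear * - y1 y17; omega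
        have kk543 : (k) ≤ (i + l + 1) := by clear * - b5 y18; omega
        have r544 : (2 * i + l + i2 - 2 * n - j + 1) % 2 = 0 := by clear * - ev n1p n2p n3p; omega
        clear * - al a2 b tt kk538 kk539 kk540 kk541 kk542 kk543 r544
        obtain ⟨t, ht⟩ : ∃ t, 2 * t = (2 * i + l + i2 - 2 * n - j + 1) := ⟨(2 * i + l + i2 - 2 * n - j + 1) / 2, by omega⟩
        exact al.ninv t (cE (cE (cI (pb a2 al (-1) t (t + (n + j - k)) (by omega)) (qa tt al 0 (t + (n + j - k)) ((i + k + l + i2 - n - j + 1) - t) (by omega))) (pb b al 0 ((i + k + l + i2 - n - j + 1) - t) ((2 * i + l + i2 - n - j + 1) - t) (by omega))) (sh al (-1) ((2 * i + l + i2 - n - j + 1) - t) t (by omega)))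
      · have kk545 : (2 * Q + j) ≤ (2 * i + l + i2 + 1) := by clear * - b0 b2 b4 b6 v19 y16 z37 z40; omega
        have kk546 : (2 * i + j + l + 2) ≤ (2 * k + i2) := by clear * - b0 y16 y18 z37; omega
        have kk547 : (k + i2) ≤ (Q + j + m) := by clear * - v19; omega
        have kk548 : (i + i2 + 1) ≤ (Q + j) := by clear * - v19 y15; omega
        have kk549 : (i2) ≤ (j) := by clear * - y1 y17; omega
        have kk550 : (k) ≤ (i + l + 1) := by clear * - b5 y18; omega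
        have r551 : (2 * i + l + i2 - 2 * n - j + 1) % 2 = 0 := by clear * - ev n1p n2p n3p; omega
        clear * - al a2 b tt kk545 kk546 kk547 kk548 kk549 kk550 r551
        obtain ⟨t, ht⟩ : ∃ t, 2 * t = (2 * i + l + i2 - 2 * n - j + 1) := ⟨(2 * i + l + i2 - 2 * n - j + 1) / 2, by omega⟩
        exact al.ninv t (cE (cE (cI (pb a2 al (-1) t (t + (n + j - k)) (by omega)) (qa tt al 0 (t + (n + j - k)) ((i + k + l + i2 - n - j + 1) - t) (by omega))) (pb b al 0 ((i + k + l + i2 - n - j + 1) - t) ((2 * i + l + i2 - n - j + 1) - t) (by omega))) (sh al (-1) ((2 * i + l + i2 - n - j + 1) - t) t (by omega)))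

theorem h8_32p
    {W : ℤ → G} {n Q i j k l i2 m k3 : ℤ} (al : AL W n Q)
    (hy : (0) ≤ (i) ∧ (i) ≤ (j) ∧ (j + 1) ≤ (Q) ∧ (Q) ≤ (k) ∧ (k + 1) ≤ (n) ∧ (Q) ≤ (i + l + 1) ∧ (k + l + 2) ≤ (n) ∧ (0) ≤ (i2) ∧ (i2 + 1) ≤ (Q) ∧ (Q + m + 1) ≤ (n + i2) ∧ (i2) ≤ (m) ∧ (Q) ≤ (i + l + m + 2) ∧ (i + l + m + 3) ≤ (n) ∧ (Q) ≤ (k3) ∧ (k3 + 1) ≤ (n) ∧ (i + m + 2) ≤ (k) ∧ (i) ≤ (i2) ∧ (i2) ≤ (i) ∧ (i + m + 2) ≤ (k3) ∧ (k3) ≤ (i + l + m + 1) ∧ (m + k3 + 2) ≤ (n + i2))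
    (a1 : Par W (0) (j) (k - j))
    (a2 : Par W (Q + j - k) (j) (k - j))
    (s1 : Ant W (0) (i) (i + j))
    (s2 : Ant W (j + 1) (Q) (i + j))
    (b : Par W (i + 1) (i + l + 1) (k - i))
    (c1 : Par W (i2 + 1) (Q) (k + l - i2 + 1))
    (c2 : Par W (k + l + 2) (n) (i2 - k - l - 1))
    (tt : Ant W (i2 - m) (i2) (i + l + i2 + 1))
    (D1 : Par W (Q) (k3) (n + i2 - m - k3 - 1))
    (D2 : Par W (i + l + m + 3) (n) (k3 - i - l - m - 2))
    {L : ℤ} (mx : ∀ a b g, 0 < g → g < n → Par W a b g → b - a ≤ L)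
    (hL : L ≤ (n - j - 3) ∧ L ≤ (n + Q - k - 3) ∧ L ≤ (n - l - 3) ∧ L ≤ (n + i - k - 2))
    (bd0 : Bd W n L (j) (i) (k))
    (n1 : Nd W (j) (i) (k))
    (n2 : Nd W (i + l + 1) (i2) (k + l + 1))
    (n3 : Nd W (n + i2 - m - 1) (i + l + m + 2) (k3))
    (b0 : (2 * l + 3) ≤ (n))
    (b1 : (k + i2 + 1) ≤ (Q + j + m))
    (b2 : (2 * i + j + 1) ≤ (k))
    (b3 : (2 * Q + k + l) ≤ (n + 2 * j + i2))
    (b4 : (Q + k + l + 1) ≤ (n + i2))
    (b5 : (n + k3) ≤ (i + k + 2 * l + m + 3))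
    (b6 : (k + k3) ≤ (2 * i + l + m + 1))
    (b7 : (k + i2 + m + 1) ≤ (i + k3))
    (b8 : (2 * i + 2 * l + 3 * m + 6) ≤ (n + i2 + k3))
    (b9 : (n + 2 * i2) ≤ (k + l + m + k3 + 1)) : False := by
  have ev := al.ev
  obtain ⟨y0, y1, y2, y3, y4, y5, y6, y7, y8, y9, y10, y11, y12, y13, y14, y15, y16, y17, y18, y19, y20⟩ := id hy
  have n1p := And.intro n1.p1 n1.p2
  have n2p := And.intro n2.p1 n2.p2
  have n3p := And.intro n3.p1 n3.p2
  by_cases z62 : (k + l + m + k3 + 3) ≤ (n + Q + i2)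
  · by_cases z63 : (Q + k + l + m + 2) ≤ (n + 2 * i2)
    · have kk785 : (n + 2 * i2) ≤ (k + l + m + k3 + 1) := by clear * - b9; omega
      have kk786 : (k + l + m + k3 + 3) ≤ (2 * n + 2 * i2) := by clear * - b0 b1 b2 b5 b7 b8 b9 z62 z63; omega
      have kk787 : (k + l + m + k3 + 3) ≤ (n + Q + i2) := by clear * - z62; omega
      have kk788 : (Q + k + l + m + 2) ≤ (n + 2 * i2) := by clear * - z63; omega
      clear * - al c1 D1 kk785 kk786 kk787 kk788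
      exact al.ubQ (k + l + m + k3 - n - 2 * i2 + 2) (by omega) (by omega) fun t h1 h2 => (cE (sh al 1 t (t + (n)) (by omega)) (cE (qf c1 al 1 (t + (n)) (t + (k + l - i2 + 1)) (by omega)) (pb D1 al 0 (t + (k + l - i2 + 1)) (t + (k + l + m + k3 - n - 2 * i2 + 2)) (by omega))))
    · by_cases z64 : (n + i + j + i2 + 1) ≤ (2 * Q + k + l)
      · have kk789 : (j + k + l + 3) ≤ (n + i + i2) := by clear * - b0 b4 b5 b7 y16 z64; omega
        have kk790 : (n + i + j + i2) ≤ (2 * Q + k + l) := by clear * - z64; omega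
        have kk791 : (i2) ≤ (j) := by clear * - b3 b6 b8 z63; omega
        have r792 : (3 * n + i + j + k + l - i2 + 1) % 2 = 0 := by clear * - ev n1p n2p n3p; omega
        clear * - al s2 c1 kk789 kk790 kk791 r792
        obtain ⟨t, ht⟩ : ∃ t, 2 * t = (3 * n + i + j + k + l - i2 + 1) := ⟨(3 * n + i + j + k + l - i2 + 1) / 2, by omega⟩
        exact al.ninv t (cE (cI (pb c1 al 1 t (t + (i2 - n - k - l - 1)) (by omega)) (qa s2 al 0 (t + (i2 - n - k - l - 1)) ((n + i + j + k + l - i2 + 1) - t) (by omega))) (sh al 2 ((n + i + j + k + l - i2 + 1) - t) t (by omega)))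
      · have kk793 : (k + k3) ≤ (2 * i + l + m + 1) := by clear * - b6; omega
        have kk794 : (2 * i + l + 2 * i2 + 2) ≤ (k + m + k3) := by clear * - b0 b2 b7 y16 z63 z64; omega
        have kk795 : (k + k3) ≤ (2 * i + l + m) := by clear * - b6 ev n1p n2p n3p; omega
        have kk796 : (2 * n + 2 * i2 + 3 * k3) ≤ (4 * i + k + 5 * l + 5 * m + 8) := by clear * - b4 b5 b6 z63; omega
        have kk797 : (i) ≤ (k3) := by clear * - b0 b6 b8 b9 y16; omega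
        have kk798 : (2 * i + 2 * l + m + 3) ≤ (n + k3) := by clear * - b0 b4 b8 b9 y16 z62 z63; omega
        have kk799 : (i + l + 2 * m + 3) ≤ (n + i2) := by clear * - b4 b5 b8 b9 z62; omega
        have kk800 : (0) ≤ (i2) := by clear * - b0 b5 b7 y16; omega
        have kk801 : (k + l + 2 * m + 3) ≤ (n + i2) := by clear * - b6 b8; omega
        have kk802 : (k3) ≤ (i + l + 1) := by clear * - b4 b5 b7 b8 z62 z63; omega
        have r803 : (3 * n + i2 + k3 - m - 1) % 2 = 0 := by clear * - ev n1p n2p n3p; omega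
        have r804 : (2 * i + l + m - k - k3 + 2) % 2 = 0 := by clear * - ev n1p n2p n3p; omega
        clear * - al b tt D2 kk793 kk794 kk795 kk796 kk797 kk798 kk799 kk800 kk801 kk802 r803 r804
        exact midP al (2 * i + l + m - k - k3 + 2) (3 * n + i2 + k3 - m - 1) (2 * n + i2 + k3 - i - l - 2 * m - 2) (n + k + k3 - i + 1) (n + 2 * i + 2 * l + m - k3 + 3) (by omega) (fun t h1 h2 => (cE (cI (pb D2 al 1 t (t + (i + l + m - n - k3 + 2)) (by omega)) (qa tt al 1 (t + (i + l + m - n - k3 + 2)) ((2 * n + i2 + k3 - m - 1) - t) (by omega))) (sh al 1 ((2 * n + i2 + k3 - m - 1) - t) ((3 * n + i2 + k3 - m - 1) - t) (by omega)))) (fun t h1 h2 => (cE (qf (show Par W (k + k3 - i + 1) (k + l + 1) (2 * i + l + m - k - k3 + 2) from fun t h1 h2 => (cE (sh al (-1) t (t + (-n)) (by omega)) (cE (pb b al (-1) (t + (-n)) (t + (i - k)) (by omega)) (pb D2 al 0 (t + (i - k)) (t + (2 * i + l + m - k - k3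 + 2)) (by omega))))) al 1 t (t + (2 * i + l + m - n - k - k3 + 2)) (by omega)) (sh al 1 (t + (2 * i + l + m - n - k - k3 + 2)) (t + (2 * i + l + m - k - k3 + 2)) (by omega))))
  · by_cases z65 : (2 * i + l + 2 * i2 + 2) ≤ (k + m + k3)
    · by_cases v27 : (k + k3) ≤ (2 * i + l + i2 + 1)
      · have kk805 : (k + k3) ≤ (2 * i + l + m + 1) := by clear * - v27 z65; omega
        have kk806 : (2 * i + l + 2 * i2 + 2) ≤ (k + m + k3) := by clear * - z65; omega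
        have kk807 : (2 * i + k + 3 * l + 3 * m + 8) ≤ (2 * n + k3) := by clear * - b8 v27 z65; omega
        have kk808 : (2 * i2 + k3) ≤ (k + l + m) := by clear * - b5 b8 v27 z65; omega
        have kk809 : (i) ≤ (k3) := by clear * - b0 b8 b9 v27 y16 z65; omega
        have kk810 : (2 * i + 2 * l + m + 3) ≤ (n + k3) := by clear * - b0 b1 b2 b8 v27 z62; omega
        have kk811 : (0) ≤ (i2) := by clear * - b0 b5 b7 y16; omega
        have kk812 : (i + l + 2 * m + 3) ≤ (n + i2) := by clear * - b0 b1 b2 b5 b8 v27 z62 z65; omega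
        have kk813 : (n + 2 * k3) ≤ (3 * i + 3 * l + 2 * m + 5) := by clear * - b5 v27 z65; omega
        have kk814 : (k + k3) ≤ (2 * i + l + i2 + 1) := by clear * - v27; omega
        have r815 : (i2 + k3 - n - m - 1) % 2 = 0 := by clear * - ev n1p n2p n3p; omega
        have r816 : (2 * i + l + m - k - k3 + 2) % 2 = 0 := by clear * - ev n1p n2p n3p; omega
        clear * - al b tt D2 kk805 kk806 kk807 kk808 kk809 kk810 kk811 kk812 kk813 kk814 r815 r816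
        exact midP al (2 * i + l + m - k - k3 + 2) (i2 + k3 - n - m - 1) (i + l + i2 - n + 2) (k + k3 - n - i + 1) (2 * i + 2 * l + m - n - k3 + 3) (by omega) (fun t h1 h2 => (cE (cE (ab tt al (-1) t ((i + l + i2 - n + 1) - t) (by omega)) (qf D2 al (-1) ((i + l + i2 - n + 1) - t) ((i2 + k3 - m - 1) - t) (by omega))) (sh al (-1) ((i2 + k3 - m - 1) - t) ((i2 + k3 - n - m - 1) - t) (by omega)))) (fun t h1 h2 => (cE (qf (show Par W (k + k3 - i + 1) (k + l + 1) (2 * i + l + m - k - k3 + 2) from fun t h1 h2 => (cE (sh al (-1) t (t + (-n)) (by omega)) (cE (pb b al (-1) (t + (-n)) (t + (i - k)) (by omega)) (pb D2 al 0 (t + (i - k)) (t + (2 * i + l + m - k - k3 + 2)) (by omega))))) al (-1) t (t + (n + 2 * i + l + m - k - k3 + 2)) (by omega)) (sh al (-1) (t + (n + 2 * i + l + m - k - k3 + 2)) (t + (2 * i + l + m - k - k3 + 2)) (by omega))))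
      · have kk817 : (k + k3) ≤ (2 * i + l + m + 1) := by clear * - b6; omega
        have kk818 : (k + k3) ≤ (2 * i + l + m) := by clear * - b6 ev n1p n2p n3p; omega
        have kk819 : (3 * k + l + 3 * m + k3 + 6) ≤ (2 * n + 2 * i + 2 * i2) := by clear * - b6 b8; omega
        have kk820 : (k + 3 * k3) ≤ (4 * i + 3 * l + m + 2) := by clear * - b5 b6 b8 v27; omega
        have kk821 : (i) ≤ (k3) := by clear * - b0 b6 b8 b9 y16; omega
        have kk822 : (2 * i + 2 * l + m + 3) ≤ (n + k3) := by clear * - b0 b1 b2 b4 b8 v27 y18; omega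
        have kk823 : (0) ≤ (i2) := by clear * - b0 b5 b7 y16; omega
        have kk824 : (i + l + 2 * m + 3) ≤ (n + i2) := by clear * - b8 y20; omega
        have kk825 : (n + 2 * k3) ≤ (3 * i + 3 * l + 2 * m + 5) := by clear * - b5 b6; omega
        have kk826 : (2 * i + l + i2 + 1) ≤ (k + k3) := by clear * - v27; omega
        have r827 : (i2 + k3 - n - m - 1) % 2 = 0 := by clear * - ev n1p n2p n3p; omega
        have r828 : (2 * i + l + m - k - k3 + 2) % 2 = 0 := by clear * - ev n1p n2p n3p; omega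
        clear * - al b tt D2 kk817 kk818 kk819 kk820 kk821 kk822 kk823 kk824 kk825 kk826 r827 r828
        exact midP al (2 * i + l + m - k - k3 + 2) (i2 + k3 - n - m - 1) (k + k3 - n - i + 1) (k + k3 - n - i + 1) (2 * i + 2 * l + m - n - k3 + 3) (by omega) (fun t h1 h2 => (cE (cE (ab tt al (-1) t ((i + l + i2 - n + 1) - t) (by omega)) (qf D2 al (-1) ((i + l + i2 - n + 1) - t) ((i2 + k3 - m - 1) - t) (by omega))) (sh al (-1) ((i2 + k3 - m - 1) - t) ((i2 + k3 - n - m - 1) - t) (by omega)))) (fun t h1 h2 => (cE (qf (show Par W (k + k3 - i + 1) (k + l + 1) (2 * i + l + m - k - k3 + 2) from fun t h1 h2 => (cE (sh al (-1) t (t + (-n)) (by omega)) (cE (pb b al (-1) (t + (-n)) (t + (i - k)) (by omega)) (pb D2 al 0 (t + (i - k)) (t + (2 * i + l + m - k - k3 + 2)) (by omega))))) al (-1) t (t + (n + 2 * i + l + m - k - k3 + 2)) (by omega)) (sh al (-1) (t + (n + 2 * i + l + m - k - k3 + 2)) (t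 + (2 * i + l + m - k - k3 + 2)) (by omega))))
    · have kk829 : (n + 2 * i2) ≤ (k + l + m + k3 + 1) := by clear * - b9; omega
      have kk830 : (k + l + m + k3 + 2) ≤ (n + 2 * i + 2 * i2) := by clear * - b0 z65; omega
      have kk831 : (k + l + m + k3 + 2) ≤ (n + 2 * i + 2 * j) := by clear * - b0 y1 y17 z65; omega
      have kk832 : (3 * k + l + m + 2) ≤ (n + 2 * j + 2 * i2 + k3) := by clear * - b0 b1 b6 b8 y16 z62 z65; omega
      have kk833 : (n + Q + i2) ≤ (k + l + m + k3 + 3) := by clear * - z62; omega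
      have kk834 : (i2) ≤ (m + 1) := by clear * - y10; omega
      have kk835 : (i) ≤ (j) := by clear * - y1; omega
      have kk836 : (j + i2 + 1) ≤ (k) := by clear * - b0 b2 b5 b7; omega
      have kk837 : (i + j + 1) ≤ (k3) := by clear * - b0 b2 b6 b7 b9 y16 z65; omega
      have r838 : (i + k) % 2 = 0 := by clear * - ev n1p n2p n3p; omega
      have r839 : (k + l + m + k3 - n - 2 * i2 + 2) % 2 = 0 := by clear * - ev n1p n2p n3p; omega
      clear * - al a1 s1 c2 D1 kk829 kk830 kk831 kk832 kk833 kk834 kk835 kk836 kk837 r838 r839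
      exact midP al (k + l + m + k3 - n - 2 * i2 + 2) (i + k) (k - j) (i2 + 1) (k3) (by omega) (fun t h1 h2 => (cI (pb a1 al 0 t (t + (j - k)) (by omega)) (qa s1 al 0 (t + (j - k)) ((i + k) - t) (by omega)))) (fun t h1 h2 => (qf (show Par W (i2 + 1) (n + 2 * i2 - k - l - m - 2) (k + l + m + k3 - n - 2 * i2 + 2) from fun t h1 h2 => (cE (sh al (-1) t (t + (-n)) (by omega)) (cE (pb c2 al (-1) (t + (-n)) (t + (k + l - i2 + 1)) (by omega)) (pb D1 al 0 (t + (k + l - i2 + 1)) (t + (k + l + m + k3 - n - 2 * i2 + 2)) (by omega))))) al 0 t (t + (k + l + m + k3 - n - 2 * i2 + 2)) (by omega)))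

theorem h8_52p
    {W : ℤ → G} {n Q i j k l i2 m k3 : ℤ} (al : AL W n Q)
    (hy : (0) ≤ (i) ∧ (i) ≤ (j) ∧ (j + 1) ≤ (Q) ∧ (Q) ≤ (k) ∧ (k + 1) ≤ (n) ∧ (Q) ≤ (i + l + 1) ∧ (k + l + 2) ≤ (n) ∧ (0) ≤ (i2) ∧ (i2 + 1) ≤ (Q) ∧ (Q + m + 1) ≤ (n + i2) ∧ (i2) ≤ (m) ∧ (Q) ≤ (i + l + m + 2) ∧ (i + l + m + 3) ≤ (n) ∧ (Q) ≤ (k3) ∧ (k3 + 1) ≤ (n) ∧ (i + m + 2) ≤ (k) ∧ (i) ≤ (i2) ∧ (i2) ≤ (i) ∧ (i + m + 2) ≤ (k3) ∧ (k3) ≤ (i + l + m + 1) ∧ (m + k3 + 2) ≤ (n + i2))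
    (a1 : Par W (0) (j) (k - j))
    (a2 : Par W (Q + j - k) (j) (k - j))
    (s1 : Ant W (0) (i) (i + j))
    (s2 : Ant W (j + 1) (Q) (i + j))
    (b : Par W (i + 1) (i + l + 1) (k - i))
    (c1 : Par W (i2 + 1) (Q) (k + l - i2 + 1))
    (c2 : Par W (k + l + 2) (n) (i2 - k - l - 1))
    (tt : Ant W (i2 - m) (i2) (i + l + i2 + 1))
    (D1 : Par W (Q) (k3) (n + i2 - m - k3 - 1))
    (D2 : Par W (i + l + m + 3) (n) (k3 - i - l - m - 2))
    {L : ℤ} (mx : ∀ a b g, 0 < g → g < n → Par W a b g → b - a ≤ L)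
    (hL : L ≤ (n - j - 3) ∧ L ≤ (n + Q - k - 3) ∧ L ≤ (n - l - 3) ∧ L ≤ (n + i - k - 2))
    (bd0 : Bd W n L (j) (i) (k))
    (n1 : Nd W (j) (i) (k))
    (n2 : Nd W (i + l + 1) (i2) (k + l + 1))
    (n3 : Nd W (n + i2 - m - 1) (i + l + m + 2) (k3))
    (d1 : ℤ) (q1 : d1 % 2 = 0) (x1 : Par W (i - n + 1) (k + l - n - d1 + 1) d1)
    (b0 : (2 * i + j + 1) ≤ (k))
    (b1 : (k + i2 + m + 1) ≤ (i + k3))
    (b2 : (i + m + k3 + 3) ≤ (Q + k + i2))
    (b3 : (2 * Q + k + 2 * l + 2 * m + 4) ≤ (n + j + 2 * k3))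
    (b4 : (n + Q) ≤ (i + 2 * l + 2 * m + 4))
    (b5 : (3 * k + l + m + k3 + 2) ≤ (n + 2 * i + 2 * i2))
    (b6 : (3 * k) ≤ (i + 2 * j + k3))
    (b7 : (i + 4 * j + 2) ≤ (3 * k))
    (b8 : (i + k3) ≤ (k + i2 + m + 1))
    (b9 : (i + l + m + 3) ≤ (k + d1))
    (b10 : (d1) ≤ (l + m + 2)) : False := by
  have ev := al.ev
  obtain ⟨y0, y1, y2, y3, y4, y5, y6, y7, y8, y9, y10, y11, y12, y13, y14, y15, y16, y17, y18, y19, y20⟩ := id hy
  have n1p := And.intro n1.p1 n1.p2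
  have n2p := And.intro n2.p1 n2.p2
  have n3p := And.intro n3.p1 n3.p2
  by_cases z103 : (n + k3) ≤ (i + k + l + m + d1 + 2)
  · have kk1161 : (i + k + l + m + d1 + 3) ≤ (n + j + k3) := by clear * - b0 b10 b2 b3 b6 b7 b8 y17 z103; omega
    have kk1162 : (j + k3) ≤ (i + k + l + m + d1 + 1) := by clear * - b0 b10 b5 b6 b7 b9 y17 z103; omega
    have kk1163 : (j + k3 + 1) ≤ (k + d1) := by clear * - b0 b10 b5 b6 b7 b9 y17 z103; omega
    have kk1164 : (i + j + 1) ≤ (k) := by clear * - b0 b10 b7 b9; omega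
    have kk1165 : (n + k3) ≤ (i + k + l + m + d1 + 2) := by clear * - z103; omega
    have kk1166 : (n + k3) ≤ (i + k + 2 * l + m + 3) := by clear * - b2 b4 y17; omega
    clear * - al a1 D2 x1 kk1161 kk1162 kk1163 kk1164 kk1165 kk1166
    exact al.ubP (n + j + k3 - i - k - l - m - d1 - 2) (by omega) (by omega) fun t h1 h2 => (cE (sh al 2 t (t + (2 * n)) (by omega)) (cE (cE (qf D2 al 1 (t + (2 * n)) (t + (n + k3 - i - l - m - 2)) (by omega)) (pb x1 al 1 (t + (n + k3 - i - l - m - 2)) (t + (k3 - i - l - m - d1 - 2)) (by omega))) (pb a1 al (-1) (t + (k3 - i - l - m - d1 - 2)) (t + (n + j + k3 - i - k - l - m - d1 - 2)) (by omega))))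
  · by_cases v31 : (k3 + d1) ≤ (k + l + i2 + 1)
    · have kk1167 : (k3 + d1) ≤ (k + l + m + 1) := by clear * - b2 b4 b8 y17 z103; omega
      have kk1168 : (k + l + 2 * i2 + 2) ≤ (m + k3 + d1) := by clear * - b0 b6 b7 b8 b9 v31 y17; omega
      have kk1169 : (4 * i + 3 * l + 3 * m + d1 + 8) ≤ (2 * n + k + k3) := by clear * - b2 b4 b8 b9 y17 z103; omega
      have kk1170 : (2 * i + 2 * i2 + k3 + d1) ≤ (3 * k + l + m) := by clear * - b0 b10 b6 b8 b9 v31 y17; omega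
      have kk1171 : (0) ≤ (i2) := by clear * - b6 b7 b8 b9 v31 y17; omega
      have kk1172 : (i + l + 2 * m + 3) ≤ (n + i2) := by clear * - b1 b10 b5 b9; omega
      have kk1173 : (k) ≤ (k3) := by clear * - b10 b6 b7 b9; omega
      have kk1174 : (k) ≤ (i + d1) := by clear * - b0 b2 b4 b5 b6 b7 b8 b9 v31 y17; omega
      have kk1175 : (2 * k + 2 * l + m + 3) ≤ (n + k3 + d1) := by clear * - b0 b5 b6 b7 b8 b9 v31 y17; omega
      have kk1176 : (k3 + d1) ≤ (k + l + i2 + 1) := by clear * - v31; omega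
      have kk1177 : (n + 2 * k3 + d1) ≤ (i + 2 * k + 3 * l + 2 * m + 5) := by clear * - b2 b4 b8 y17 z103; omega
      have r1178 : (n + i2 + k3 - m - 1) % 2 = 0 := by clear * - ev n1p n2p n3p q1; omega
      have r1179 : (k + l + m - k3 - d1 + 2) % 2 = 0 := by clear * - ev n1p n2p n3p q1; omega
      clear * - al b tt D2 x1 kk1167 kk1168 kk1169 kk1170 kk1171 kk1172 kk1173 kk1174 kk1175 kk1176 kk1177 r1178 r1179
      exact midP al (k + l + m - k3 - d1 + 2) (n + i2 + k3 - m - 1) (i + l + i2 + 2) (i + k3 + d1 - k + 1) (2 * k + 2 * l + m - k3 - d1 + 3) (by omega) (fun t h1 h2 => (cE (ab tt al 0 t ((i + l + i2 + 1) - t) (by omega)) (qf D2 al (-1) ((i + l + i2 + 1) - t) ((n + i2 + k3 - m - 1) - t) (by omega)))) (fun t h1 h2 => (cE (cE (pb x1 al 1 t (t + (-n - d1)) (by omega)) (qf b al (-1) (t + (-n - d1)) (t + (k - i - d1)) (by omega))) (pb D2 al 0 (t + (k - i - d1)) (t + (k + l + m - k3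 - d1 + 2)) (by omega))))
    · have kk1180 : (k3 + d1) ≤ (k + l + m + 1) := by clear * - b2 b4 b8 y17 z103; omega
      have kk1181 : (k3 + d1) ≤ (k + l + m) := by clear * - b2 b4 b8 y17 z103; omega
      have kk1182 : (4 * i + l + 3 * m + k3 + 3 * d1 + 6) ≤ (2 * n + 3 * k + 2 * i2) := by clear * - b0 b2 b3 b4 b7 b8 v31 y17 z103; omega
      have kk1183 : (2 * i + 3 * k3 + 3 * d1) ≤ (5 * k + 3 * l + m + 2) := by clear * - b2 b4 b8 b9 y17 z103; omega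
      have kk1184 : (0) ≤ (i2) := by clear * - b2 b3 b4 b6 b7 b8 v31 y17 z103; omega
      have kk1185 : (i + l + 2 * m + 3) ≤ (n + i2) := by clear * - b1 b10 b5 b9; omega
      have kk1186 : (k) ≤ (k3) := by clear * - b10 b6 b7 b9; omega
      have kk1187 : (k) ≤ (i + d1) := by clear * - b10 b2 b4 b5 b6 b7 b9 v31 y17; omega
      have kk1188 : (2 * k + 2 * l + m + 3) ≤ (n + k3 + d1) := by clear * - b10 b5 b6 b7 b9 v31 y17; omega
      have kk1189 : (k + l + i2 + 1) ≤ (k3 + d1) := by clear * - v31; omega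
      have kk1190 : (n + i2 + k3) ≤ (i + k + 2 * l + 2 * m + 4) := by clear * - b2 b4 b8 v31 y17 z103; omega
      have r1191 : (n + i2 + k3 - m - 1) % 2 = 0 := by clear * - ev n1p n2p n3p q1; omega
      have r1192 : (k + l + m - k3 - d1 + 2) % 2 = 0 := by clear * - ev n1p n2p n3p q1; omega
      clear * - al b tt D2 x1 kk1180 kk1181 kk1182 kk1183 kk1184 kk1185 kk1186 kk1187 kk1188 kk1189 kk1190 r1191 r1192
      exact midP al (k + l + m - k3 - d1 + 2) (n + i2 + k3 - m - 1) (i + k3 + d1 - k + 1) (i + k3 + d1 - k + 1) (2 * k + 2 * l + m - k3 - d1 + 3) (by omega) (fun t h1 h2 => (cE (ab tt al 0 t ((i + l + i2 + 1) - t) (by omega)) (qf D2 al (-1) ((i + l + i2 + 1) - t) ((n + i2 + k3 - m - 1) - t) (by omega)))) (fun t h1 h2 => (cE (cE (pb x1 al 1 t (t + (-n - d1)) (by omega)) (qf b al (-1) (t + (-n - d1)) (t + (k - i - d1)) (by omega))) (pb D2 al 0 (t + (k - i - d1)) (t + (k + l + m -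 k3 - d1 + 2)) (by omega))))

theorem h8_53p
    {W : ℤ → G} {n Q i j k l i2 m k3 : ℤ} (al : AL W n Q)
    (hy : (0) ≤ (i) ∧ (i) ≤ (j) ∧ (j + 1) ≤ (Q) ∧ (Q) ≤ (k) ∧ (k + 1) ≤ (n) ∧ (Q) ≤ (i + l + 1) ∧ (k + l + 2) ≤ (n) ∧ (0) ≤ (i2) ∧ (i2 + 1) ≤ (Q) ∧ (Q + m + 1) ≤ (n + i2) ∧ (i2) ≤ (m) ∧ (Q) ≤ (i + l + m + 2) ∧ (i + l + m + 3) ≤ (n) ∧ (Q) ≤ (k3) ∧ (k3 + 1) ≤ (n) ∧ (i + m + 2) ≤ (k) ∧ (i) ≤ (i2) ∧ (i2) ≤ (i) ∧ (i + m + 2) ≤ (k3) ∧ (k3) ≤ (i + l + m + 1) ∧ (m + k3 + 2) ≤ (n + i2))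
    (a1 : Par W (0) (j) (k - j))
    (a2 : Par W (Q + j - k) (j) (k - j))
    (s1 : Ant W (0) (i) (i + j))
    (s2 : Ant W (j + 1) (Q) (i + j))
    (b : Par W (i + 1) (i + l + 1) (k - i))
    (c1 : Par W (i2 + 1) (Q) (k + l - i2 + 1))
    (c2 : Par W (k + l + 2) (n) (i2 - k - l - 1))
    (tt : Ant W (i2 - m) (i2) (i + l + i2 + 1))
    (D1 : Par W (Q) (k3) (n + i2 - m - k3 - 1))
    (D2 : Par W (i + l + m + 3) (n) (k3 - i - l - m - 2))
    {L : ℤ} (mx : ∀ a b g, 0 < g → g < n → Par W a b g → b - a ≤ L)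
    (hL : L ≤ (n - j - 3) ∧ L ≤ (n + Q - k - 3) ∧ L ≤ (n - l - 3) ∧ L ≤ (n + i - k - 2))
    (bd0 : Bd W n L (j) (i) (k))
    (n1 : Nd W (j) (i) (k))
    (n2 : Nd W (i + l + 1) (i2) (k + l + 1))
    (n3 : Nd W (n + i2 - m - 1) (i + l + m + 2) (k3))
    (d1 : ℤ) (q1 : d1 % 2 = 0) (x1 : Par W (n + i + 1) (n + k + l - d1 + 1) d1)
    (b0 : (2 * l + 3) ≤ (n))
    (b1 : (2 * i + j + 1) ≤ (k))
    (b2 : (k + i2 + m + 1) ≤ (i + k3))
    (b3 : (i + m + k3 + 3) ≤ (Q + k + i2))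
    (b4 : (2 * Q + k + 2 * l + 2 * m + 4) ≤ (n + j + 2 * k3))
    (b5 : (n + Q) ≤ (i + 2 * l + 2 * m + 4))
    (b6 : (3 * k + l + m + k3 + 2) ≤ (n + 2 * i + 2 * i2))
    (b7 : (n + 2 * k3) ≤ (i + 2 * k + 2 * l + 2 * m + 4))
    (b8 : (3 * k) ≤ (i + 2 * j + k3))
    (b9 : (i + 3 * k) ≤ (4 * j))
    (b10 : (i + l + m + 3) ≤ (k + d1))
    (b11 : (d1) ≤ (l + m + 2)) : False := by
  have ev := al.ev
  obtain ⟨y0, y1, y2, y3, y4, y5, y6, y7, y8, y9, y10, y11, y12, y13, y14, y15, y16, y17, y18, y19, y20⟩ := id hy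
  have n1p := And.intro n1.p1 n1.p2
  have n2p := And.intro n2.p1 n2.p2
  have n3p := And.intro n3.p1 n3.p2
  by_cases z104 : (n + k3) ≤ (i + k + l + m + d1 + 2)
  · have kk1196 : (i + k + l + m + d1 + 3) ≤ (n + j + k3) := by clear * - b0 b1 b11 b2 b3 b4 b8 b9 z104; omega
    have kk1197 : (j + k3) ≤ (i + k + l + m + d1 + 1) := by clear * - b0 b1 b10 b11 b2 b3 b5 b6 b8 z104; omega
    have kk1198 : (j + k3 + 1) ≤ (k + d1) := by clear * - b0 b1 b10 b11 b2 b6 b9 z104; omega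
    have kk1199 : (i + j + 1) ≤ (k) := by clear * - b0 b1 b2 b3 b5; omega
    have kk1200 : (n + k3) ≤ (i + k + l + m + d1 + 2) := by clear * - z104; omega
    have kk1201 : (n + k3) ≤ (i + k + 2 * l + m + 3) := by clear * - b2 b3 b5 b7; omega
    clear * - al a1 D2 x1 kk1196 kk1197 kk1198 kk1199 kk1200 kk1201
    exact al.ubP (n + j + k3 - i - k - l - m - d1 - 2) (by omega) (by omega) fun t h1 h2 => (cE (sh al 1 t (t + (n)) (by omega)) (cE (cE (qf D2 al 0 (t + (n)) (t + (n + k3 - i - l - m - 2)) (by omega)) (pb x1 al (-1) (t + (n + k3 - i - l - m - 2)) (t + (2 * n + k3 - i - l - m - d1 - 2)) (by omega))) (pb a1 al 1 (t + (2 * n + k3 - i - l - m - d1 - 2)) (t + (n + j + k3 - i - k - l - m - d1 - 2)) (by omega))))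
  · by_cases z105 : (k + l + 2 * i2 + 2) ≤ (m + k3 + d1)
    · by_cases v32 : (k3 + d1) ≤ (k + l + i2 + 1)
      · have kk1202 : (k3 + d1) ≤ (k + l + m + 1) := by clear * - v32 z105; omega
        have kk1203 : (k + l + 2 * i2 + 2) ≤ (m + k3 + d1) := by clear * - z105; omega
        have kk1204 : (4 * i + 3 * l + 3 * m + d1 + 8) ≤ (2 * n + k + k3) := by clear * - b10 v32 z104 z105; omega
        have kk1205 : (2 * i + 2 * i2 + k3 + d1) ≤ (3 * k + l + m) := by clear * - b10 b2 b3 b5 v32 z104 z105; omega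
        have kk1206 : (0) ≤ (i2) := by clear * - b0 b2 b7 y16; omega
        have kk1207 : (i + l + 2 * m + 3) ≤ (n + i2) := by clear * - b10 b11 b2 b6; omega
        have kk1208 : (k) ≤ (k3) := by clear * - b0 b1 b2 b3 b5 b8; omega
        have kk1209 : (k) ≤ (i + d1) := by clear * - b0 b10 b2 b3 b5 b6 v32 z104 z105; omega
        have kk1210 : (2 * k + 2 * l + m + 3) ≤ (n + k3 + d1) := by clear * - b0 b10 b2 b3 b5 b6 v32 z104 z105; omega
        have kk1211 : (k3 + d1) ≤ (k + l + i2 + 1) := by clear * - v32; omega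
        have kk1212 : (n + 2 * k3 + d1) ≤ (i + 2 * k + 3 * l + 2 * m + 5) := by clear * - b2 b3 b5 b7 v32 z105; omega
        have r1213 : (3 * n + i2 + k3 - m - 1) % 2 = 0 := by clear * - ev n1p n2p n3p q1; omega
        have r1214 : (k + l + m - k3 - d1 + 2) % 2 = 0 := by clear * - ev n1p n2p n3p q1; omega
        clear * - al b tt D2 x1 kk1202 kk1203 kk1204 kk1205 kk1206 kk1207 kk1208 kk1209 kk1210 kk1211 kk1212 r1213 r1214
        exact midP al (k + l + m - k3 - d1 + 2) (3 * n + i2 + k3 - m - 1) (n + i + l + i2 + 2) (n + i + k3 + d1 - k + 1) (n + 2 * k + 2 * l + m - k3 - d1 + 3) (by omega) (fun t h1 h2 => (cE (cE (ab tt al 1 t ((n + i + l + i2 + 1) - t) (by omega)) (qf D2 al (-1) ((n + i + l + i2 + 1) - t) ((2 * n + i2 + k3 - m - 1) - t) (by omega))) (sh al 1 ((2 * n + i2 + k3 - m - 1) - t) ((3 * n + i2 + k3 - m - 1) - t) (by omega)))) (fun t h1 h2 => (cE (cE (cE (pb x1 al 0 t (t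 + (-d1)) (by omega)) (qf b al 1 (t + (-d1)) (t + (k - n - i - d1)) (by omega))) (pb D2 al 0 (t + (k - n - i - d1)) (t + (k + l + m - n - k3 - d1 + 2)) (by omega))) (sh al 1 (t + (k + l + m - n - k3 - d1 + 2)) (t + (k + l + m - k3 - d1 + 2)) (by omega))))
      · have kk1215 : (k3 + d1) ≤ (k + l + m + 1) := by clear * - b7 z104; omega
        have kk1216 : (k3 + d1) ≤ (k + l + m) := by clear * - b7 z104 ev n1p n2p n3p q1; omega
        have kk1217 : (4 * i + l + 3 * m + k3 + 3 * d1 + 6) ≤ (2 * n + 3 * k + 2 * i2) := by clear * - b0 b1 b2 b3 b4 b5 b7 z104; omega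
        have kk1218 : (2 * i + 3 * k3 + 3 * d1) ≤ (5 * k + 3 * l + m + 2) := by clear * - b10 b2 b3 b5 b7 z104; omega
        have kk1219 : (0) ≤ (i2) := by clear * - b0 b2 b7 y16; omega
        have kk1220 : (i + l + 2 * m + 3) ≤ (n + i2) := by clear * - b10 b11 b2 b6; omega
        have kk1221 : (k) ≤ (k3) := by clear * - b0 b2 b3 b5 v32 z104; omega
        have kk1222 : (k) ≤ (i + d1) := by clear * - b0 b10 b11 b2 b3 b5 b6 z105; omega
        have kk1223 : (2 * k + 2 * l + m + 3) ≤ (n + k3 + d1) := by clear * - b0 b10 b11 b2 b3 b5 b6 v32; omega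
        have kk1224 : (k + l + i2 + 1) ≤ (k3 + d1) := by clear * - v32; omega
        have kk1225 : (n + i2 + k3) ≤ (i + k + 2 * l + 2 * m + 4) := by clear * - b2 b3 b5 b7 v32 z104; omega
        have r1226 : (3 * n + i2 + k3 - m - 1) % 2 = 0 := by clear * - ev n1p n2p n3p q1; omega
        have r1227 : (k + l + m - k3 - d1 + 2) % 2 = 0 := by clear * - ev n1p n2p n3p q1; omega
        clear * - al b tt D2 x1 kk1215 kk1216 kk1217 kk1218 kk1219 kk1220 kk1221 kk1222 kk1223 kk1224 kk1225 r1226 r1227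
        exact midP al (k + l + m - k3 - d1 + 2) (3 * n + i2 + k3 - m - 1) (n + i + k3 + d1 - k + 1) (n + i + k3 + d1 - k + 1) (n + 2 * k + 2 * l + m - k3 - d1 + 3) (by omega) (fun t h1 h2 => (cE (cE (ab tt al 1 t ((n + i + l + i2 + 1) - t) (by omega)) (qf D2 al (-1) ((n + i + l + i2 + 1) - t) ((2 * n + i2 + k3 - m - 1) - t) (by omega))) (sh al 1 ((2 * n + i2 + k3 - m - 1) - t) ((3 * n + i2 + k3 - m - 1) - t) (by omega)))) (fun t h1 h2 => (cE (cE (cE (pb x1 al 0 t (t + (-d1)) (by omega)) (qf b al 1 (t + (-d1)) (t + (k - n - i - d1)) (by omega))) (pb D2 al 0 (t + (k - n - i - d1)) (t + (k + l + m - n - k3 - d1 + 2)) (by omega))) (sh al 1 (t + (k + l + m - n - k3 - d1 + 2)) (t + (k + l + m - k3 - d1 + 2)) (by omega))))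
    · have kk1228 : (n + i2) ≤ (i + l + 2 * m + d1 + 2) := by clear * - b0 b1 b10 b2 b5 b7 b9 y2 z105; omega
      have kk1229 : (i + l + 2 * m + d1 + 4) ≤ (2 * n + i2) := by clear * - b0 b1 b10 b2 b3 b5 b6 b7 b8 z105; omega
      have kk1230 : (Q + i + l + 2 * m + d1 + 3) ≤ (n + i2 + k3) := by clear * - b0 b1 b10 b2 b5 b8 b9 z104 z105; omega
      have kk1231 : (k3) ≤ (i + d1) := by clear * - b0 b1 b10 b2 b3 b5 b6 b7 b8 z105; omega
      have kk1232 : (2 * i + l + 2 * m + d1 + 4) ≤ (n + Q + i2) := by clear * - b3 z104; omega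
      have kk1233 : (n + k3) ≤ (i + k + 2 * l + m + 3) := by clear * - b2 b3 b5 b7; omega
      have kk1234 : (i2) ≤ (m + 1) := by clear * - b0 b1 b2 b3 b5 b7 b8; omega
      clear * - al D1 D2 x1 kk1228 kk1229 kk1230 kk1231 kk1232 kk1233 kk1234
      exact al.ubQ (i + l + 2 * m + d1 - n - i2 + 3) (by omega) (by omega) fun t h1 h2 => (cE (sh al 2 t (t + (2 * n)) (by omega)) (cE (cE (qf x1 al 1 (t + (2 * n)) (t + (n + d1)) (by omega)) (pb D2 al 1 (t + (n + d1)) (t + (i + l + m + d1 - k3 + 2)) (by omega))) (pb D1 al 0 (t + (i + l + m + d1 - k3 + 2)) (t + (i + l + 2 * m + d1 - n - i2 + 3)) (by omega))))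

theorem h8_64p
    {W : ℤ → G} {n Q i j k l i2 m k3 : ℤ} (al : AL W n Q)
    (hy : (0) ≤ (i) ∧ (i) ≤ (j) ∧ (j + 1) ≤ (Q) ∧ (Q) ≤ (k) ∧ (k + 1) ≤ (n) ∧ (Q) ≤ (i + l + 1) ∧ (k + l + 2) ≤ (n) ∧ (0) ≤ (i2) ∧ (i2 + 1) ≤ (Q) ∧ (Q + m + 1) ≤ (n + i2) ∧ (i2) ≤ (m) ∧ (Q) ≤ (i + l + m + 2) ∧ (i + l + m + 3) ≤ (n) ∧ (Q) ≤ (k3) ∧ (k3 + 1) ≤ (n) ∧ (i + m + 2) ≤ (k) ∧ (i) ≤ (i2) ∧ (i2) ≤ (i) ∧ (i + m + 2) ≤ (k3) ∧ (k3) ≤ (i + l + m + 1) ∧ (m + k3 + 2) ≤ (n + i2))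
    (a1 : Par W (0) (j) (k - j))
    (a2 : Par W (Q + j - k) (j) (k - j))
    (s1 : Ant W (0) (i) (i + j))
    (s2 : Ant W (j + 1) (Q) (i + j))
    (b : Par W (i + 1) (i + l + 1) (k - i))
    (c1 : Par W (i2 + 1) (Q) (k + l - i2 + 1))
    (c2 : Par W (k + l + 2) (n) (i2 - k - l - 1))
    (tt : Ant W (i2 - m) (i2) (i + l + i2 + 1))
    (D1 : Par W (Q) (k3) (n + i2 - m - k3 - 1))
    (D2 : Par W (i + l + m + 3) (n) (k3 - i - l - m - 2))
    {L : ℤ} (mx : ∀ a b g, 0 < g → g < n → Par W a b g → b - a ≤ L)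
    (hL : L ≤ (n - j - 3) ∧ L ≤ (n + Q - k - 3) ∧ L ≤ (n - l - 3) ∧ L ≤ (n + i - k - 2))
    (bd0 : Bd W n L (j) (i) (k))
    (n1 : Nd W (j) (i) (k))
    (n2 : Nd W (i + l + 1) (i2) (k + l + 1))
    (n3 : Nd W (n + i2 - m - 1) (i + l + m + 2) (k3))
    (b0 : (2 * l + 3) ≤ (n))
    (b1 : (k + i2 + 1) ≤ (Q + j + m))
    (b2 : (2 * Q + k + l) ≤ (n + 2 * j + i2))
    (b3 : (n + k3) ≤ (i + k + 2 * l + m + 3))
    (b4 : (k + i2 + m + 1) ≤ (i + k3))
    (b5 : (2 * i + 2 * l + 3 * m + 6) ≤ (n + i2 + k3))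
    (b6 : (k + i2 + m + 2) ≤ (j + k3))
    (b7 : (k + l + m + k3 + 3) ≤ (n + 2 * i2))
    (b8 : (i + 2 * j + 2) ≤ (k)) : False := by
  have ev := al.ev
  obtain ⟨y0, y1, y2, y3, y4, y5, y6, y7, y8, y9, y10, y11, y12, y13, y14, y15, y16, y17, y18, y19, y20⟩ := id hy
  have n1p := And.intro n1.p1 n1.p2
  have n2p := And.intro n2.p1 n2.p2
  have n3p := And.intro n3.p1 n3.p2
  by_cases z125 : (n + 2 * i + j + i2) ≤ (2 * Q + 2 * k + l)
  · by_cases z126 : (i + j + k3 + 1) ≤ (2 * k)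
    · by_cases z127 : (n + 2 * k3) ≤ (i + 2 * k + 2 * l + 2 * m + 4)
      · have kk1509 : (i + 2 * k + 2 * l + 2 * m + 5) ≤ (n + j + 2 * k3) := by clear * - b0 b4 b6 y16; omega
        have kk1510 : (j + 2 * k3) ≤ (i + 2 * k + 2 * l + 2 * m + 3) := by clear * - b0 b3 b8 y18 y19 z127; omega
        have kk1511 : (j + 2 * k3) ≤ (2 * k + l + m + 1) := by clear * - b0 b1 b2 b3 b5 b6 b7 b8; omega
        have kk1512 : (i + j + k3 + 1) ≤ (2 * k) := by clear * - z126; omega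
        have kk1513 : (i + j + 1) ≤ (k) := by clear * - b0 b2 b8 y18 z125 z127; omega
        have kk1514 : (k3) ≤ (i + l + m + 2) := by clear * - y19; omega
        have kk1515 : (n + 2 * k3) ≤ (i + 2 * k + 2 * l + 2 * m + 4) := by clear * - z127; omega
        have kk1516 : (n + 2 * k3) ≤ (2 * i + k + 3 * l + 2 * m + 5) := by clear * - b3 y19; omega
        clear * - al a1 b D2 kk1509 kk1510 kk1511 kk1512 kk1513 kk1514 kk1515 kk1516
        exact al.ubP (n + j + 2 * k3 - i - 2 * k - 2 * l - 2 * m - 4) (by omega) (by omega) fun t h1 h2 => (cE (cE (cE (qf D2 al (-1) t (t + (n + k3 - i - l - m - 2)) (by omega)) (qf D2 al 0 (t + (n + k3 - i - l - m - 2)) (t + (n + 2 * k3 - 2 * i - 2 * l - 2 * m - 4)) (by omega))) (pb b al 0 (t + (n + 2 * k3 - 2 * i - 2 * l - 2 * m - 4)) (t + (n + 2 * k3 - i - k - 2 * l - 2 * m - 4)) (by omega))) (pb a1 al 0 (t + (n + 2 * k3 - i - k - 2 * l - 2 * m - 4))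 (t + (n + j + 2 * k3 - i - 2 * k - 2 * l - 2 * m - 4)) (by omega)))
      · have kk1517 : (k + i2 + m + 2) ≤ (i + k3) := by clear * - b3 y17 z127; omega
        have kk1518 : (k3) ≤ (i + k + i2 + m + 1) := by clear * - b0 b3 y16 z127; omega
        have kk1519 : (i2 + k3) ≤ (i + 2 * j + k + m + 1) := by clear * - b0 b3 b6 y1; omega
        have kk1520 : (5 * k + 2 * l + m + 3) ≤ (2 * n + i + 2 * j + i2 + k3) := by clear * - b0 b1 b2 b3 b7 b8 z127; omega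
        have kk1521 : (i + m + 1) ≤ (k) := by clear * - b2 b3 b4 b5 z125 z126; omega
        have kk1522 : (i) ≤ (j) := by clear * - y1; omega
        have kk1523 : (k + m + 1) ≤ (k3) := by clear * - b3 z127; omega
        have kk1524 : (i + m + 1) ≤ (k3) := by clear * - b0 b2 b3 b8 z125 z127; omega
        have kk1525 : (n + k3) ≤ (2 * k + 2 * l + m + 3) := by clear * - b0 b2 b3 b8 z125 z127; omega
        have kk1526 : (n + k3) ≤ (i + k + 2 * l + m + 3) := by clear * - b3; omega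
        have kk1527 : (3 * k + l + m + 2) ≤ (n + i2 + k3) := by clear * - b0 b3 b7 y10 y16 z127; omega
        have kk1528 : (j + i2 + 1) ≤ (k) := by clear * - b0 b3 b6 b8; omega
        have r1529 : (i + k - 2 * n) % 2 = 0 := by clear * - ev n1p n2p n3p; omega
        have r1530 : (i + k3 - k - i2 - m - 1) % 2 = 0 := by clear * - ev n1p n2p n3p; omega
        clear * - al a1 s1 b c2 D2 kk1517 kk1518 kk1519 kk1520 kk1521 kk1522 kk1523 kk1524 kk1525 kk1526 kk1527 kk1528 r1529 r1530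
        exact midP al (i + k3 - k - i2 - m - 1) (i + k - 2 * n) (k - n - j) (i2 - n + 1) (i + k3 - 2 * k - l - m - 2) (by omega) (fun t h1 h2 => (cE (cI (pb a1 al (-1) t (t + (n + j - k)) (by omega)) (qa s1 al 0 (t + (n + j - k)) ((i + k - n) - t) (by omega))) (sh al (-1) ((i + k - n) - t) ((i + k - 2 * n) - t) (by omega)))) (fun t h1 h2 => (cE (cE (cE (qf (show Par W (i2 + 1) (n + i2 - k - l - 1) (k + k3 - i - i2 - m - 1) from fun t h1 h2 => (cE (sh al (-1) t (t + (-n)) (by omega)) (cE (pb c2 al (-1) (t + (-n)) (t + (k + l - i2 + 1)) (by omega)) (qf D2 al 0 (t + (k + l - i2 + 1)) (t + (k + k3 - i - i2 - m - 1)) (by omega))))) al (-1) t (t + (n + k + k3 - i - i2 - m - 1)) (by omega)) (pb b al 0 (t + (n + k + k3 - i - i2 - m - 1)) (t + (n + k3 - i2 - m - 1)) (by omega))) (pb b al 0 (t + (n + k3 - i2 - m - 1)) (t + (n + i + k3 - k - i2 - m - 1)) (by omega))) (sh al (-1) (t + (n + i +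 k3 - k - i2 - m - 1)) (t + (i + k3 - k - i2 - m - 1)) (by omega))))
    · have kk1531 : (j + 2 * k + l + 3) ≤ (n + i2) := by clear * - b7 b8 y10 z126; omega
      have kk1532 : (n + 2 * i + j + i2) ≤ (2 * Q + 2 * k + l) := by clear * - z125; omega
      have kk1533 : (0) ≤ (j) := by clear * - b0 b3 b6 y16; omega
      have kk1534 : (0) ≤ (i) := by clear * - b0 b3 b4 b5 b8 z126; omega
      have kk1535 : (Q + k + l + 1) ≤ (n + i + j) := by clear * - b0 b1 b2 b3 b6 b7 b8 z125 z126; omega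
      have kk1536 : (Q) ≤ (i + l + 1) := by clear * - b0 b2 b3 b5 b6 b7 b8 z125 z126; omega
      have r1537 : (j + i2 - n - l - 1) % 2 = 0 := by clear * - ev n1p n2p n3p; omega
      clear * - al s2 b c2 kk1531 kk1532 kk1533 kk1534 kk1535 kk1536 r1537
      obtain ⟨t, ht⟩ : ∃ t, 2 * t = (j + i2 - n - l - 1) := ⟨(j + i2 - n - l - 1) / 2, by omega⟩
      exact al.ninv t (cE (cE (cI (pb b al (-1) t (t + (n + i - k)) (by omega)) (qa s2 al 0 (t + (n + i - k)) ((j + k - n) - t) (by omega))) (qf c2 al (-1) ((j + k - n) - t) ((j + i2 - l - 1) - t) (by omega))) (sh al (-1) ((j + i2 - l - 1) - t) t (by omega)))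
  · by_cases z128 : (m) ≤ (i2)
    · have kk1538 : (i + m + 2) ≤ (k) := by clear * - y15; omega
      have kk1539 : (k + l + 2) ≤ (n) := by clear * - b0 b1 b2 b3 b4 b8 z128; omega
      have kk1540 : (i + 1) ≤ (k) := by clear * - b0 b3 b6 b8 y16; omega
      have kk1541 : (0) ≤ (l) := by clear * - b0 b1 b3 b6 b7 b8 y18 z125; omega
      have kk1542 : (2 * i + m + 2) ≤ (k + k3) := by clear * - b0 b3 b4 b6 b8 y16; omega
      have kk1543 : (k3) ≤ (i + l + m + 1) := by clear * - b0 b1 b2 b3 b4 b8 z128; omega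
      have kk1544 : (m) ≤ (i2) := by clear * - z128; omega
      have kk1545 : (i2) ≤ (j) := by clear * - y1 y17; omega
      have kk1546 : (i2) ≤ (m) := by clear * - y10; omega
      have kk1547 : (0) ≤ (l + m + 2) := by clear * - b0 b1 b2 b3 b8 y18 z125 z128; omega
      have kk1548 : (i) ≤ (k3) := by clear * - b0 b1 b3 b6 b8 y13 y16 z128; omega
      have kk1549 : (k + l + 1) ≤ (n) := by clear * - b0 b1 b2 b3 b4 b8 z128; omega
      have kk1550 : (k3) ≤ (i + l + m + 2) := by clear * - b0 b1 b2 b3 b4 b8 z128; omega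
      have kk1551 : (0) ≤ (l + 1) := by clear * - b0 b1 b3 b6 b7 b8 y18 z125; omega
      have kk1552 : (i2) ≤ (j + l + 1) := by clear * - b0 b1 b2 b3 b6 b8 y18 z125 z128; omega
      have kk1553 : (i + j + 1) ≤ (k) := by clear * - b0 b3 b6 b8 y16; omega
      have r1554 : (k3 - i - l - m - 2) % 2 = 0 := by clear * - ev n1p n2p n3p; omega
      have r1555 : (k - i) % 2 = 0 := by clear * - ev n1p n2p n3p; omega
      have r1556 : (i + k + l + i2 - 2 * n - j + 1) % 2 = 0 := by clear * - ev n1p n2p n3p; omega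
      clear * - al a1 b tt D2 n2 kk1538 kk1539 kk1540 kk1541 kk1542 kk1543 kk1544 kk1545 kk1546 kk1547 kk1548 kk1549 kk1550 kk1551 kk1552 kk1553 r1554 r1555 r1556
      exact ivt al.ninv (i - n + 1) (i + l - n + 1) (k - i) (i + l + m - n + 3) (k + l - n + 1) (k3 - i - l - m - 2) (i + l - n + 1) (k + k3 - n - i - m - 1) 1 (fun t h1 h2 => (cE (qf b al (-1) t (t + (n + k - i)) (by omega)) (sh al (-1) (t + (n + k - i)) (t + (k - i)) (by omega)))) (fun t h1 h2 => (cE (qf D2 al (-1) t (t + (n + k3 - i - l - m - 2)) (by omega)) (sh al (-1) (t + (n + k3 - i - l - m - 2)) (t + (k3 - i - l - m - 2)) (by omega)))) (fun hh => n2.f0 (rEE (sh al (-1) (i + l + 1) (i + l - n + 1) (by omega)) (cE (qf D2 al 0 (k + l + 1) (k + k3 - i - m - 1) (by omega)) (sh al (-1) (k + k3 - i - m - 1) (k + k3 - n - i - m - 1) (by omega))) (Eq.symm hh))) (by omega) (i + l - n + 2) (i + l + i2 - n + 2) (i + k + l + i2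 - 2 * n - j + 1) 0 (-1) (fun t h1 h2 => (cE (cE (ab tt al (-1) t ((i + l + i2 - n + 1) - t) (by omega)) (qf a1 al 0 ((i + l + i2 - n + 1) - t) ((i + k + l + i2 - n - j + 1) - t) (by omega))) (sh al (-1) ((i + k + l + i2 - n - j + 1) - t) ((i + k + l + i2 - 2 * n - j + 1) - t) (by omega)))) (by omega)
    · by_cases z129 : (n + 2 * j + 2 * k3) ≤ (2 * Q + i + k + 2 * l + 2 * m + 2)
      · have kk1557 : (2 * i + 2 * l + m + 4) ≤ (n + i2 + k3) := by clear * - b0 b3 b4 b6 b8 y16; omega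
        have kk1558 : (n + 2 * j + i2 + k3) ≤ (2 * Q + 2 * i + 2 * l + m + 1) := by clear * - b4 z129; omega
        have kk1559 : (2 * l + i2 + 3 * m + 7) ≤ (n + k3) := by clear * - b5 y17 ev n1p n2p n3p; omega
        have kk1560 : (2 * i + 2 * j + 2 * l + m + 5) ≤ (n + i2 + k3) := by clear * - b0 b4 b8 y16; omega
        have kk1561 : (i) ≤ (k3) := by clear * - b0 b3 b4 b6 b8 y16 z128; omega
        have kk1562 : (2 * i + 2 * l + m + 3) ≤ (n + k3) := by clear * - b0 b3 b6 b8 y16; omega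
        have kk1563 : (k3) ≤ (i + l + 1) := by clear * - b2 b3 b4 b5 z128 z129; omega
        have kk1564 : (0) ≤ (m + 1) := by clear * - b0 b3 b4 y16 z128; omega
        have kk1565 : (i) ≤ (k) := by clear * - b0 b3 b6 b8 y16; omega
        have kk1566 : (n + 2 * k3) ≤ (3 * i + 3 * l + 2 * m + 5) := by clear * - b2 b3 b4 z129; omega
        have kk1567 : (k + k3) ≤ (2 * i + l + m + 2) := by clear * - b2 b4 z129; omega
        have kk1568 : (2 * i + 2 * l + 2 * m + 4) ≤ (n + j + k3) := by clear * - b0 b3 b5 b6 y16 z128; omega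
        have kk1569 : (3 * i + 2 * l + m + 3) ≤ (n + i2 + k3) := by clear * - b0 b3 b6 b8 y16; omega
        have r1570 : (2 * n + i + j) % 2 = 0 := by clear * - ev n1p n2p n3p; omega
        have r1571 : (n + i2 + k3 - 2 * i - 2 * l - m - 3) % 2 = 0 := by clear * - ev n1p n2p n3p; omega
        clear * - al s2 b c2 D2 kk1557 kk1558 kk1559 kk1560 kk1561 kk1562 kk1563 kk1564 kk1565 kk1566 kk1567 kk1568 kk1569 r1570 r1571
        exact midP al (n + i2 + k3 - 2 * i - 2 * l - m - 3) (2 * n + i + j) (n + j + 1) (2 * i + 2 * l + 2 * m - k3 + 5) (2 * n + i2 + k3 - 2 * i - 2 * l - m - 3) (by omega) (fun t h1 h2 => (cE (qa s2 al 1 t ((n + i + j) - t) (by omega)) (sh al 1 ((n + i + j) - t) ((2 * n + i + j) - t) (by omega)))) (fun t h1 h2 => (cE (cE (cE (cE (qf D2 al 0 t (t + (k3 - i - l - m - 2)) (by omega)) (pb (show Par W (k + k3 - i + 1) (k + l + 1) (2 * i + l + m - k - k3 + 2) from fun t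 h1 h2 => (cE (sh al (-1) t (t + (-n)) (by omega)) (cE (pb b al (-1) (t + (-n)) (t + (i - k)) (by omega)) (pb D2 al 0 (t + (i - k)) (t + (2 * i + l + m - k - k3 + 2)) (by omega))))) al 0 (t + (k3 - i - l - m - 2)) (t + (k + 2 * k3 - 3 * i - 2 * l - 2 * m - 4)) (by omega))) (pb D2 al 0 (t + (k + 2 * k3 - 3 * i - 2 * l - 2 * m - 4)) (t + (k + k3 - 2 * i - l - m - 2)) (by omega))) (qf c2 al 0 (t + (k + k3 - 2 * i - l - m - 2)) (t + (i2 + k3 - 2 * i - 2 * l - m - 3)) (by omega))) (sh al 1 (t + (i2 + k3 - 2 * i - 2 * l - m - 3)) (t + (n + i2 + k3 - 2 * i - 2 * l - m - 3)) (by omega))))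
      · by_cases z130 : (j + k) ≤ (k3)
        · have kk1572 : (k + l + m + 3) ≤ (n + i2) := by clear * - b0 b1 b3 b5 b8 z125 z130; omega
          have kk1573 : (i2) ≤ (m) := by clear * - z128; omega
          have kk1574 : (i + 1) ≤ (k) := by clear * - b0 b3 b6 b8 y16; omega
          have kk1575 : (0) ≤ (l) := by clear * - b0 b1 b3 b5 b8 z125 z128 z129 z130; omega
          have kk1576 : (i + k + l + m + 3) ≤ (n + 2 * i2) := by clear * - b0 b3 b6 b7 b8 y16 z130; omega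
          have kk1577 : (n + 2 * i2) ≤ (2 * k + 2 * l + m + 2) := by clear * - b0 b1 b3 b5 b6 z128 z129 z130; omega
          have kk1578 : (i + 1) ≤ (k3) := by clear * - b0 b3 b6 b8 y16 z130; omega
          have kk1579 : (k3) ≤ (k + l) := by clear * - b0 b1 b3 b5 b8 z125 z128 z130; omega
          have kk1580 : (j + k) ≤ (k3) := by clear * - z130; omega
          have kk1581 : (k + l + m + k3 + 3) ≤ (n + Q + i2) := by clear * - b0 b1 b3 b4 b5 b7 b8; omega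
          have kk1582 : (i2) ≤ (m + 1) := by clear * - z128; omega
          have kk1583 : (0) ≤ (i) := by clear * - b0 b3 b4 y16; omega
          have kk1584 : (Q + k + l + 1) ≤ (n + i + j) := by clear * - b0 b2 b3 b5 b6 b7 z128 z130; omega
          have kk1585 : (i + 1) ≤ (Q) := by clear * - b0 b1 b3 b5 b8 y16 z130; omega
          have kk1586 : (i + k + l + m + k3 + 3) ≤ (n + Q + 2 * i2) := by clear * - b0 b1 b3 b5 b7 b8 y16 z130; omega
          have kk1587 : (k3) ≤ (k + l + 1) := by clear * - b0 b1 b3 b5 b8 z125 z128 z130; omega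
          have kk1588 : (n + 2 * i2) ≤ (2 * k + 2 * l + m + 3) := by clear * - b0 b1 b3 b5 b6 z128 z129 z130; omega
          have kk1589 : (n + j + i2) ≤ (2 * k + 2 * l + 2) := by clear * - b0 b3 b5 b6 z128 z130; omega
          have kk1590 : (0) ≤ (j) := by clear * - b0 b3 b6 y16; omega
          have kk1591 : (Q + k + l + 1) ≤ (n + j + i2) := by clear * - b0 b1 b2 b3 b5 b7 z128 z130; omega
          have kk1592 : (Q) ≤ (k + l + 1) := by clear * - b0 b1 b3 b5 b8 z125 z128 z129 z130; omega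
          have r1593 : (k + l + m + k3 - n - 2 * i2 + 2) % 2 = 0 := by clear * - ev n1p n2p n3p; omega
          have r1594 : (k - i) % 2 = 0 := by clear * - ev n1p n2p n3p; omega
          have r1595 : (i + j + i2 - n - k - l - 1) % 2 = 0 := by clear * - ev n1p n2p n3p; omega
          clear * - al s2 b c2 D1 n3 kk1572 kk1573 kk1574 kk1575 kk1576 kk1577 kk1578 kk1579 kk1580 kk1581 kk1582 kk1583 kk1584 kk1585 kk1586 kk1587 kk1588 kk1589 kk1590 kk1591 kk1592 r1593 r1594 r1595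
          exact ivt al.ninv (i - n + 1) (i + l - n + 1) (k - i) (Q + 2 * i2 - k - l - m - k3 - 2) (2 * i2 - k - l - m - 2) (k + l + m + k3 - n - 2 * i2 + 2) (2 * i2 - k - l - m - 2) (k3 - n) 0 (fun t h1 h2 => (cE (qf b al (-1) t (t + (n + k - i)) (by omega)) (sh al (-1) (t + (n + k - i)) (t + (k - i)) (by omega)))) (fun t h1 h2 => (cE (sh al 1 t (t + (n)) (by omega)) (cE (cE (pb c2 al 0 (t + (n)) (t + (n + k + l - i2 + 1)) (by omega)) (pb D1 al 0 (t + (n + k + l - i2 + 1)) (t + (k + l + m + k3 - 2 * i2 + 2)) (by omega))) (sh al (-1) (t + (k + l + m + k3 - 2 * i2 + 2)) (t + (k + l + m + k3 - n - 2 * i2 + 2)) (by omega))))) (fun hh => n3.f0 (rEE (cE (qf c2 al 0 (n + i2 - m - 1) (n + 2 * i2 - k - l - m - 2) (by omega)) (sh al (-1) (n + 2 * i2 - k - l - m - 2) (2 * i2 - k - l - m - 2) (by omega))) (sh al (-1) (k3) (k3 - n) (by omega)) (Eq.symm hh))) (by omega) (i + j - n + 1) (Q - n) (i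 + j + i2 - n - k - l - 1) 1 (-1) (fun t h1 h2 => (cE (cE (qa s2 al (-1) t ((i + j - n) - t) (by omega)) (qf c2 al (-1) ((i + j - n) - t) ((i + j + i2 - k - l - 1) - t) (by omega))) (sh al (-1) ((i + j + i2 - k - l - 1) - t) ((i + j + i2 - n - k - l - 1) - t) (by omega)))) (by omega)
        · by_cases z131 : (2 * i + l + i2 + 2 * m + 4) ≤ (k + 2 * k3)
          · have kk1596 : (i2 + 1) ≤ (k3) := by clear * - b0 b3 b4 b8 y16 z128 z130; omega
            have kk1597 : (k + l + k3 + 2) ≤ (n + i2) := by clear * - b7 z128; omega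
            have kk1598 : (k + l + m + k3 + 3) ≤ (n + 2 * i2) := by clear * - b7; omega
            have kk1599 : (2 * i + l + i2 + 2 * m + 4) ≤ (k + 2 * k3) := by clear * - z131; omega
            have kk1600 : (Q + k + k3) ≤ (2 * i + l + i2 + 2 * m + 4) := by clear * - b0 b1 b3 b4 b8 y16 z125; omega
            have kk1601 : (i2) ≤ (m) := by clear * - z128; omega
            have kk1602 : (i2 + 1) ≤ (Q) := by clear * - b0 b1 b3 b4 b7 b8 z131; omega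
            have kk1603 : (k + l + k3 + 1) ≤ (n + i2) := by clear * - b7 z128; omega
            have kk1604 : (k3) ≤ (i + l + m + 2) := by clear * - y19; omega
            have kk1605 : (i2) ≤ (k3) := by clear * - b0 b3 b4 b8 y16 z128 z130; omega
            have kk1606 : (2 * i + l + i2 + 2 * m + 3) ≤ (k + 2 * k3) := by clear * - z131; omega
            have kk1607 : (i + i2 + m + 1) ≤ (k + k3) := by clear * - y19 z131; omega
            have r1608 : (n + 2 * i2 - k - l - m - k3 - 2) % 2 = 0 := by clear * - ev n1p n2p n3p; omega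
            have r1609 : (k + 2 * k3 - 2 * i - l - i2 - 2 * m - 3) % 2 = 0 := by clear * - ev n1p n2p n3p; omega
            clear * - al c2 D1 D2 n3 kk1596 kk1597 kk1598 kk1599 kk1600 kk1601 kk1602 kk1603 kk1604 kk1605 kk1606 kk1607 r1608 r1609
            exact n3.f0 (rEE (sh al 1 (n + i2 - m - 1) (2 * n + i2 - m - 1) (by omega)) (cE (pb c2 al 0 (k3) (k + l + k3 - i2 + 1) (by omega)) (sh al 1 (k + l + k3 - i2 + 1) (n + k + l + k3 - i2 + 1) (by omega))) (Eq.symm (rotR (n + 2 * i2 - k - l - m - k3 - 2) (k + 2 * k3 - 2 * i - l - i2 - 2 * m - 3) (n + k + l + k3 - i2 + 1) (2 * n + i2 - m - 1) (by omega) (fun t h1 h2 => (cE (qf (show Par W (Q + k + l - i2 + 1) (k + l + k3 - i2 + 1) (n + 2 * i2 - k - l - m - k3 - 2) from fun t h1 h2 => (cE (sh al (-1) t (t + (-n)) (by omega)) (cE (qf c2 al (-1) (t + (-n)) (t + (i2 - k - l - 1)) (by omega)) (qf D1 al 0 (t + (i2 - k - l - 1)) (t + (n + 2 *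 i2 - k - l - m - k3 - 2)) (by omega))))) al 1 t (t + (2 * i2 - k - l - m - k3 - 2)) (by omega)) (sh al 1 (t + (2 * i2 - k - l - m - k3 - 2)) (t + (n + 2 * i2 - k - l - m - k3 - 2)) (by omega)))) (fun t h1 h2 => (cE (cE (cE (qf D2 al 1 t (t + (k3 - n - i - l - m - 2)) (by omega)) (qf D2 al 0 (t + (k3 - n - i - l - m - 2)) (t + (2 * k3 - n - 2 * i - 2 * l - 2 * m - 4)) (by omega))) (pb c2 al 0 (t + (2 * k3 - n - 2 * i - 2 * l - 2 * m - 4)) (t + (k + 2 * k3 - n - 2 * i - l - i2 - 2 * m - 3)) (by omega))) (sh al 1 (t + (k + 2 * k3 - n - 2 * i - l - i2 - 2 * m - 3)) (t + (k + 2 * k3 - 2 * i - l - i2 - 2 * m - 3)) (by omega)))))))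
          · by_cases z132 : (n + 2 * k3) ≤ (i + 2 * k + 2 * l + 2 * m + 4)
            · have kk1610 : (i + 2 * k + 2 * l + 2 * m + 5) ≤ (n + j + 2 * k3) := by clear * - b0 b4 y16 z128 z130; omega
              have kk1611 : (j + 2 * k3) ≤ (i + 2 * k + 2 * l + 2 * m + 3) := by clear * - b0 b4 b8 y18 z128 z130 z131 z132; omega
              have kk1612 : (j + 2 * k3) ≤ (2 * k + l + m + 1) := by clear * - b0 b1 b3 b5 b8 z125 z128; omega
              have kk1613 : (i + j + k3 + 1) ≤ (2 * k) := by clear * - b8 z130; omega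
              have kk1614 : (i + j + 1) ≤ (k) := by clear * - b0 b4 b8 y16 z128 z130 z132; omega
              have kk1615 : (n + 2 * k3) ≤ (i + 2 * k + 2 * l + 2 * m + 4) := by clear * - z132; omega
              have kk1616 : (n + 2 * k3) ≤ (2 * i + k + 3 * l + 2 * m + 5) := by clear * - b3 y19; omega
              have kk1617 : (k3) ≤ (i + l + m + 2) := by clear * - y19; omega
              clear * - al a1 b D2 kk1610 kk1611 kk1612 kk1613 kk1614 kk1615 kk1616 kk1617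
              exact al.ubP (n + j + 2 * k3 - i - 2 * k - 2 * l - 2 * m - 4) (by omega) (by omega) fun t h1 h2 => (cE (sh al 1 t (t + (n)) (by omega)) (cE (cE (cE (qf D2 al 0 (t + (n)) (t + (n + k3 - i - l - m - 2)) (by omega)) (qf D2 al 0 (t + (n + k3 - i - l - m - 2)) (t + (n + 2 * k3 - 2 * i - 2 * l - 2 * m - 4)) (by omega))) (pb b al 0 (t + (n + 2 * k3 - 2 * i - 2 * l - 2 * m - 4)) (t + (n + 2 * k3 - i - k - 2 * l - 2 * m - 4)) (by omega))) (pb a1 al 0 (t + (n + 2 * k3 - i - k - 2 * l - 2 * m - 4)) (t + (n + j + 2 * k3 - i - 2 * k - 2 * l - 2 * m - 4)) (by omega))))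
            · have kk1618 : (k + i2 + m + 2) ≤ (i + k3) := by clear * - b3 y17 z132; omega
              have kk1619 : (i + k3) ≤ (n + k + i2 + m) := by clear * - b0 b1 b3 b8 y18 z129 z130 z131; omega
              have kk1620 : (i + k3) ≤ (Q + k + m) := by clear * - b0 b1 b3 b8 y16 z130 z132; omega
              have kk1621 : (Q + k + l + 1) ≤ (n + i2) := by clear * - b0 b8 y18 z129 z131; omega
              have kk1622 : (i + m + 1) ≤ (k) := by clear * - b3 b5 z128; omega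
              have kk1623 : (k + m + 1) ≤ (k3) := by clear * - b3 z132; omega
              have kk1624 : (i + m + 1) ≤ (k3) := by clear * - y18; omega
              have kk1625 : (n + k3) ≤ (2 * k + 2 * l + m + 3) := by clear * - b0 b3 b8 y16 z128 z130 z132; omega
              have kk1626 : (n + k3) ≤ (i + k + 2 * l + m + 3) := by clear * - b3; omega
              clear * - al b c2 D2 kk1618 kk1619 kk1620 kk1621 kk1622 kk1623 kk1624 kk1625 kk1626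
              exact al.ubQ (i + k3 - k - i2 - m - 1) (by omega) (by omega) fun t h1 h2 => (cE (sh al (-1) t (t + (-n)) (by omega)) (cE (cE (qf (show Par W (i2 + 1) (n + i2 - k - l - 1) (k + k3 - i - i2 - m - 1) from fun t h1 h2 => (cE (sh al (-1) t (t + (-n)) (by omega)) (cE (pb c2 al (-1) (t + (-n)) (t + (k + l - i2 + 1)) (by omega)) (qf D2 al 0 (t + (k + l - i2 + 1)) (t + (k + k3 - i - i2 - m - 1)) (by omega))))) al (-1) (t + (-n)) (t + (k + k3 - i - i2 - m - 1)) (by omega)) (pb b al 0 (t + (k + k3 - i - i2 - m - 1)) (t + (k3 - i2 - m - 1)) (by omega))) (pb b al 0 (t + (k3 - i2 - m - 1)) (t + (i + k3 - k - i2 - m - 1)) (by omega))))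

theorem h8_30p
    (h8_31 : ∀ {W : ℤ → G} {n Q i j k l i2 m k3 : ℤ} (al : AL W n Q) (hy : (0) ≤ (i) ∧ (i) ≤ (j) ∧ (j + 1) ≤ (Q) ∧ (Q) ≤ (k) ∧ (k + 1) ≤ (n) ∧ (Q) ≤ (i + l + 1) ∧ (k + l + 2) ≤ (n) ∧ (0) ≤ (i2) ∧ (i2 + 1) ≤ (Q) ∧ (Q + m + 1) ≤ (n + i2) ∧ (i2) ≤ (m) ∧ (Q) ≤ (i + l + m + 2) ∧ (i + l + m + 3) ≤ (n) ∧ (Q) ≤ (k3) ∧ (k3 + 1) ≤ (n) ∧ (i + m + 2) ≤ (k) ∧ (i) ≤ (i2) ∧ (i2) ≤ (i) ∧ (i + m + 2) ≤ (k3) ∧ (k3) ≤ (i + l + m + 1) ∧ (m + k3 + 2) ≤ (n + i2)) (a1 : Par W (0) (j) (k - j)) (a2 : Par W (Q + j - k) (j) (k - j)) (s1 : Ant W (0) (i) (i + j)) (s2 : Ant W (j + 1) (Q) (i + j)) (b : Par W (i + 1) (i + l + 1) (k - i)) (c1 : Par W (i2 + 1) (Q) (k + l - i2 + 1)) (c2 : Par W (k + l + 2) (n) (i2 - k - l - 1)) (tt : Ant W (i2 - m) (i2) (i + l + i2 + 1)) (D1 : Par W (Q) (k3) (n + i2 - m - k3 - 1)) (D2 : Par W (i + l + m + 3) (n) (k3 - i - l - m - 2)) {L : ℤ} (mx : ∀ a b g, 0 < g → g <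 n → Par W a b g → b - a ≤ L) (hL : L ≤ (n - j - 3) ∧ L ≤ (n + Q - k - 3) ∧ L ≤ (n - l - 3) ∧ L ≤ (n + i - k - 2)) (bd0 : Bd W n L (j) (i) (k)) (n1 : Nd W (j) (i) (k)) (n2 : Nd W (i + l + 1) (i2) (k + l + 1)) (n3 : Nd W (n + i2 - m - 1) (i + l + m + 2) (k3)) (b0 : (2 * l + 3) ≤ (n)) (b1 : (k + i2 + 1) ≤ (Q + j + m)) (b2 : (2 * i + j + 1) ≤ (k)) (b3 : (2 * Q + k + l) ≤ (n + 2 * j + i2)) (b4 : (Q + k + l + 1) ≤ (n + i2)) (b5 : (n + k3) ≤ (i + k + 2 * l + m + 3)) (b6 : (k + k3) ≤ (2 * i + l + m + 1)) (b7 : (k + i2 + m + 1) ≤ (i + k3)) (b8 : (2 * i + 2 * l + 3 * m + 6) ≤ (n + i2 + k3)), False)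
    {W : ℤ → G} {n Q i j k l i2 m k3 : ℤ} (al : AL W n Q)
    (hy : (0) ≤ (i) ∧ (i) ≤ (j) ∧ (j + 1) ≤ (Q) ∧ (Q) ≤ (k) ∧ (k + 1) ≤ (n) ∧ (Q) ≤ (i + l + 1) ∧ (k + l + 2) ≤ (n) ∧ (0) ≤ (i2) ∧ (i2 + 1) ≤ (Q) ∧ (Q + m + 1) ≤ (n + i2) ∧ (i2) ≤ (m) ∧ (Q) ≤ (i + l + m + 2) ∧ (i + l + m + 3) ≤ (n) ∧ (Q) ≤ (k3) ∧ (k3 + 1) ≤ (n) ∧ (i + m + 2) ≤ (k) ∧ (i) ≤ (i2) ∧ (i2) ≤ (i) ∧ (i + m + 2) ≤ (k3) ∧ (k3) ≤ (i + l + m + 1) ∧ (m + k3 + 2) ≤ (n + i2))
    (a1 : Par W (0) (j) (k - j))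
    (a2 : Par W (Q + j - k) (j) (k - j))
    (s1 : Ant W (0) (i) (i + j))
    (s2 : Ant W (j + 1) (Q) (i + j))
    (b : Par W (i + 1) (i + l + 1) (k - i))
    (c1 : Par W (i2 + 1) (Q) (k + l - i2 + 1))
    (c2 : Par W (k + l + 2) (n) (i2 - k - l - 1))
    (tt : Ant W (i2 - m) (i2) (i + l + i2 + 1))
    (D1 : Par W (Q) (k3) (n + i2 - m - k3 - 1))
    (D2 : Par W (i + l + m + 3) (n) (k3 - i - l - m - 2))
    {L : ℤ} (mx : ∀ a b g, 0 < g → g < n → Par W a b g → b - a ≤ L)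
    (hL : L ≤ (n - j - 3) ∧ L ≤ (n + Q - k - 3) ∧ L ≤ (n - l - 3) ∧ L ≤ (n + i - k - 2))
    (bd0 : Bd W n L (j) (i) (k))
    (n1 : Nd W (j) (i) (k))
    (n2 : Nd W (i + l + 1) (i2) (k + l + 1))
    (n3 : Nd W (n + i2 - m - 1) (i + l + m + 2) (k3))
    (b0 : (2 * l + 3) ≤ (n))
    (b1 : (2 * i + 2 * l + 3 * m + 5) ≤ (n + i2 + k3))
    (b2 : (k + i2 + 1) ≤ (Q + j + m))
    (b3 : (2 * i + j + 1) ≤ (k))
    (b4 : (2 * Q + k + l) ≤ (n + 2 * j + i2))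
    (b5 : (Q + k + l + 1) ≤ (n + i2))
    (b6 : (n + k3) ≤ (i + k + 2 * l + m + 3))
    (b7 : (k + k3) ≤ (2 * i + l + m + 1))
    (b8 : (k + i2 + m + 1) ≤ (i + k3)) : False := by
  have ev := al.ev
  obtain ⟨y0, y1, y2, y3, y4, y5, y6, y7, y8, y9, y10, y11, y12, y13, y14, y15, y16, y17, y18, y19, y20⟩ := id hy
  have n1p := And.intro n1.p1 n1.p2
  have n2p := And.intro n2.p1 n2.p2
  have n3p := And.intro n3.p1 n3.p2
  by_cases z60 : (n + i2 + k3) ≤ (2 * i + 2 * l + 3 * m + 5)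
  · by_cases v26 : (Q + k) ≤ (i + k3 + 1)
    · have kk761 : (n + i2 + k3) ≤ (2 * i + 2 * l + 3 * m + 5) := by clear * - z60; omega
      have kk762 : (2 * i + 2 * l + 3 * m + 5) ≤ (n + i2 + k3) := by clear * - b1; omega
      have kk763 : (i + m + 2) ≤ (k) := by clear * - y15; omega
      have kk764 : (k + 1) ≤ (n + i) := by clear * - b0 b1 b2 b3 b6 b7 v26 y18; omega
      have kk765 : (i + 1) ≤ (k) := by clear * - b0 b1 b2 b3 b6 v26; omega
      have kk766 : (n) ≤ (2 * l + m + 3) := by clear * - b2 b3 b6 b8 v26 y16; omega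
      have kk767 : (k + l + 2 * m + 3) ≤ (n + i2) := by clear * - b1 b7; omega
      have kk768 : (k) ≤ (k3) := by clear * - b0 b2 b3 b6 b8 v26 y16; omega
      have kk769 : (Q + k) ≤ (i + k3 + 1) := by clear * - v26; omega
      have kk770 : (k + l + m + 2) ≤ (n) := by clear * - b1 b2 b3 b5 b7 y17; omega
      have kk771 : (i2) ≤ (m + 1) := by clear * - y10; omega
      have kk772 : (k3) ≤ (i + l + 1) := by clear * - b1 b2 b3 b5 b6 b7 y17; omega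
      clear * - al b D1 D2 mx hL kk761 kk762 kk763 kk764 kk765 kk766 kk767 kk768 kk769 kk770 kk771 kk772
      have := mx (k - n + 1) ((k - n + 1) + (n - l - 2)) (n + i - k) (by omega) (by omega) (mgP (b := (k + l - n + 1)) (le_refl _) (fun t h1 h2 => (pb b al (-1) t (t + (n + i - k)) (by omega))) (fun t h1 h2 => (cE (cE (cE (qf D2 al (-1) t (t + (n + k3 - i - l - m - 2)) (by omega)) (pb b al 0 (t + (n + k3 - i - l - m - 2)) (t + (n + k3 - k - l - m - 2)) (by omega))) (qf D1 al 0 (t + (n + k3 - k - l - m - 2)) (t + (2 * n + i2 - k - l - 2 * m - 3)) (by omega))) (qf D2 al 0 (t + (2 * n + i2 - k - l - 2 * m - 3)) (t + (n + i - k)) (by omega)))))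
      omega
    · have kk773 : (n + i2 + k3) ≤ (2 * i + 2 * l + 3 * m + 5) := by clear * - z60; omega
      have kk774 : (2 * i + 2 * l + 3 * m + 5) ≤ (n + i2 + k3) := by clear * - b1; omega
      have kk775 : (Q + m + 1) ≤ (k3) := by clear * - b8 y16 y3; omega
      have kk776 : (k + 1) ≤ (n + i) := by clear * - b0 b5 b6 b7 b8 v26 y18 z60; omega
      have kk777 : (i + 1) ≤ (k) := by clear * - b0 b8 y15 y16 z60; omega
      have kk778 : (n) ≤ (2 * l + m + 3) := by clear * - b8 y15 y16 z60; omega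
      have kk779 : (k + l + 2 * m + 3) ≤ (n + i2) := by clear * - b1 b7; omega
      have kk780 : (i + k3 + 1) ≤ (Q + k) := by clear * - v26; omega
      have kk781 : (i + 1) ≤ (Q) := by clear * - b0 b2 b3 b6 b8 v26 y16; omega
      have kk782 : (k + l + m + 2) ≤ (n) := by clear * - b5 b8 v26; omega
      have kk783 : (i2) ≤ (m + 1) := by clear * - y10; omega
      have kk784 : (k3) ≤ (i + l + 1) := by clear * - b5 b6 b8 v26; omega
      clear * - al b D1 D2 mx hL kk773 kk774 kk775 kk776 kk777 kk778 kk779 kk780 kk781 kk782 kk783 kk784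
      have := mx (k - n + 1) ((k - n + 1) + (n - l - 2)) (n + i - k) (by omega) (by omega) (mgP (b := (k + l - n + 1)) (le_refl _) (fun t h1 h2 => (pb b al (-1) t (t + (n + i - k)) (by omega))) (fun t h1 h2 => (cE (cE (cE (qf D2 al (-1) t (t + (n + k3 - i - l - m - 2)) (by omega)) (pb b al 0 (t + (n + k3 - i - l - m - 2)) (t + (n + k3 - k - l - m - 2)) (by omega))) (qf D1 al 0 (t + (n + k3 - k - l - m - 2)) (t + (2 * n + i2 - k - l - 2 * m - 3)) (by omega))) (qf D2 al 0 (t + (2 * n + i2 - k - l - 2 * m - 3)) (t + (n + i - k)) (by omega)))))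
      omega
  · exact h8_31 al hy a1 a2 s1 s2 b c1 c2 tt D1 D2 mx hL bd0 n1 n2 n3 (by clear * - b0; omega) (by clear * - b2; omega) (by clear * - b3; omega) (by clear * - b4; omega) (by clear * - b5; omega) (by clear * - b6; omega) (by clear * - b7; omega) (by clear * - b8; omega) (by clear * - z60; omega)

theorem h8_28p
    (h8_29 : ∀ {W : ℤ → G} {n Q i j k l i2 m k3 : ℤ} (al : AL W n Q) (hy : (0) ≤ (i) ∧ (i) ≤ (j) ∧ (j + 1) ≤ (Q) ∧ (Q) ≤ (k) ∧ (k + 1) ≤ (n) ∧ (Q) ≤ (i + l + 1) ∧ (k + l + 2) ≤ (n) ∧ (0) ≤ (i2) ∧ (i2 + 1) ≤ (Q) ∧ (Q + m + 1) ≤ (n + i2) ∧ (i2) ≤ (m) ∧ (Q) ≤ (i + l + m + 2) ∧ (i + l + m + 3) ≤ (n) ∧ (Q) ≤ (k3) ∧ (k3 + 1) ≤ (n) ∧ (i + m + 2) ≤ (k) ∧ (i) ≤ (i2) ∧ (i2) ≤ (i) ∧ (i + m + 2) ≤ (k3) ∧ (k3) ≤ (i + l + m + 1) ∧ (m + k3 + 2) ≤ (n + i2)) (a1 : Par W (0) (j) (k - j)) (a2 : Par W (Q + j - k) (j) (k - j)) (s1 : Ant W (0) (i) (i + j)) (s2 : Ant W (j + 1) (Q) (i + j))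 (b : Par W (i + 1) (i + l + 1) (k - i)) (c1 : Par W (i2 + 1) (Q) (k + l - i2 + 1)) (c2 : Par W (k + l + 2) (n) (i2 - k - l - 1)) (tt : Ant W (i2 - m) (i2) (i + l + i2 + 1)) (D1 : Par W (Q) (k3) (n + i2 - m - k3 - 1)) (D2 : Par W (i + l + m + 3) (n) (k3 - i - l - m - 2)) {L : ℤ} (mx : ∀ a b g, 0 < g → g < n → Par W a b g → b - a ≤ L) (hL : L ≤ (n - j - 3) ∧ L ≤ (n + Q - k - 3) ∧ L ≤ (n - l - 3) ∧ L ≤ (n + i - k - 2)) (bd0 : Bd W n L (j) (i) (k)) (n1 : Nd W (j) (i) (k)) (n2 : Nd W (i + l + 1) (i2) (k + l + 1)) (n3 : Nd W (n + i2 - m - 1) (i + l + m + 2) (k3)) (b0 : (2 * l + 3) ≤ (n)) (b1 : (2 * i + 2 * l + 3 * m + 5) ≤ (n + i2 + k3)) (b2 : (k + i2 + 1) ≤ (Q + j + m)) (b3 : (2 * i + j + 1) ≤ (k)) (b4 : (2 * Q + k + l) ≤ (n + 2 * j + i2)) (b5 : (1) ≤ (m)) (b6 : (Q + k + l + 1) ≤ (n + i2)) (b7 : (Q + m + 1) ≤ (k3)) (b8 : (n + k3) ≤ (i + k + 2 * l + m + 3)) (b9 : (k + k3) ≤ (2 * i + l + m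 + 1)) (b10 : (i2 + 2 * m + 2) ≤ (k3)), False)
    (h8_65 : ∀ {W : ℤ → G} {n Q i j k l i2 m k3 : ℤ} (al : AL W n Q) (hy : (0) ≤ (i) ∧ (i) ≤ (j) ∧ (j + 1) ≤ (Q) ∧ (Q) ≤ (k) ∧ (k + 1) ≤ (n) ∧ (Q) ≤ (i + l + 1) ∧ (k + l + 2) ≤ (n) ∧ (0) ≤ (i2) ∧ (i2 + 1) ≤ (Q) ∧ (Q + m + 1) ≤ (n + i2) ∧ (i2) ≤ (m) ∧ (Q) ≤ (i + l + m + 2) ∧ (i + l + m + 3) ≤ (n) ∧ (Q) ≤ (k3) ∧ (k3 + 1) ≤ (n) ∧ (i + m + 2) ≤ (k) ∧ (i) ≤ (i2) ∧ (i2) ≤ (i) ∧ (i + m + 2) ≤ (k3) ∧ (k3) ≤ (i + l + m + 1) ∧ (m + k3 + 2) ≤ (n + i2)) (a1 : Par W (0) (j) (k - j)) (a2 : Par W (Q + j - k) (j) (k - j)) (s1 : Ant W (0) (i) (i + j)) (s2 : Ant W (j + 1) (Q) (i + j)) (b : Par W (i + 1) (i + l + 1) (k - i)) (c1 : Par W (i2 + 1) (Q) (k + l - i2 + 1)) (c2 : Par W (k + l + 2) (n) (i2 - k - l - 1)) (tt : Ant W (i2 - m) (i2) (i + l + i2 + 1)) (D1 : Par W (Q) (k3) (n + i2 - m - k3 - 1)) (D2 : Par W (i + l + m + 3) (n) (k3 - i - l - m - 2)) {L :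 ℤ} (mx : ∀ a b g, 0 < g → g < n → Par W a b g → b - a ≤ L) (hL : L ≤ (n - j - 3) ∧ L ≤ (n + Q - k - 3) ∧ L ≤ (n - l - 3) ∧ L ≤ (n + i - k - 2)) (bd0 : Bd W n L (j) (i) (k)) (n1 : Nd W (j) (i) (k)) (n2 : Nd W (i + l + 1) (i2) (k + l + 1)) (n3 : Nd W (n + i2 - m - 1) (i + l + m + 2) (k3)) (b0 : (2 * i + 2 * l + 3 * m + 5) ≤ (n + i2 + k3)) (b1 : (k + i2 + 1) ≤ (Q + j + m)) (b2 : (2 * i + j + 1) ≤ (k)) (b3 : (Q + m + 1) ≤ (k3)) (b4 : (n + k3) ≤ (i + k + 2 * l + m + 3)) (b5 : (k + k3) ≤ (2 * i + l + m + 1)) (b6 : (k3) ≤ (i2 + 2 * m + 1)), False)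
    {W : ℤ → G} {n Q i j k l i2 m k3 : ℤ} (al : AL W n Q)
    (hy : (0) ≤ (i) ∧ (i) ≤ (j) ∧ (j + 1) ≤ (Q) ∧ (Q) ≤ (k) ∧ (k + 1) ≤ (n) ∧ (Q) ≤ (i + l + 1) ∧ (k + l + 2) ≤ (n) ∧ (0) ≤ (i2) ∧ (i2 + 1) ≤ (Q) ∧ (Q + m + 1) ≤ (n + i2) ∧ (i2) ≤ (m) ∧ (Q) ≤ (i + l + m + 2) ∧ (i + l + m + 3) ≤ (n) ∧ (Q) ≤ (k3) ∧ (k3 + 1) ≤ (n) ∧ (i + m + 2) ≤ (k) ∧ (i) ≤ (i2) ∧ (i2) ≤ (i) ∧ (i + m + 2) ≤ (k3) ∧ (k3) ≤ (i + l + m + 1) ∧ (m + k3 + 2) ≤ (n + i2))
    (a1 : Par W (0) (j) (k - j))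
    (a2 : Par W (Q + j - k) (j) (k - j))
    (s1 : Ant W (0) (i) (i + j))
    (s2 : Ant W (j + 1) (Q) (i + j))
    (b : Par W (i + 1) (i + l + 1) (k - i))
    (c1 : Par W (i2 + 1) (Q) (k + l - i2 + 1))
    (c2 : Par W (k + l + 2) (n) (i2 - k - l - 1))
    (tt : Ant W (i2 - m) (i2) (i + l + i2 + 1))
    (D1 : Par W (Q) (k3) (n + i2 - m - k3 - 1))
    (D2 : Par W (i + l + m + 3) (n) (k3 - i - l - m - 2))
    {L : ℤ} (mx : ∀ a b g, 0 < g → g < n → Par W a b g → b - a ≤ L)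
    (hL : L ≤ (n - j - 3) ∧ L ≤ (n + Q - k - 3) ∧ L ≤ (n - l - 3) ∧ L ≤ (n + i - k - 2))
    (bd0 : Bd W n L (j) (i) (k))
    (n1 : Nd W (j) (i) (k))
    (n2 : Nd W (i + l + 1) (i2) (k + l + 1))
    (n3 : Nd W (n + i2 - m - 1) (i + l + m + 2) (k3))
    (b0 : (2 * l + 3) ≤ (n))
    (b1 : (2 * i + 2 * l + 3 * m + 5) ≤ (n + i2 + k3))
    (b2 : (k + i2 + 1) ≤ (Q + j + m))
    (b3 : (2 * i + j + 1) ≤ (k))
    (b4 : (2 * Q + k + l) ≤ (n + 2 * j + i2))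
    (b5 : (1) ≤ (m))
    (b6 : (Q + k + l + 1) ≤ (n + i2))
    (b7 : (Q + m + 1) ≤ (k3))
    (b8 : (n + k3) ≤ (i + k + 2 * l + m + 3))
    (b9 : (k + k3) ≤ (2 * i + l + m + 1)) : False := by
  have ev := al.ev
  obtain ⟨y0, y1, y2, y3, y4, y5, y6, y7, y8, y9, y10, y11, y12, y13, y14, y15, y16, y17, y18, y19, y20⟩ := id hy
  have n1p := And.intro n1.p1 n1.p2
  have n2p := And.intro n2.p1 n2.p2
  have n3p := And.intro n3.p1 n3.p2
  by_cases z58 : (i2 + 2 * m + 2) ≤ (k3)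
  · exact h8_29 al hy a1 a2 s1 s2 b c1 c2 tt D1 D2 mx hL bd0 n1 n2 n3 (by clear * - b0; omega) (by clear * - b1; omega) (by clear * - b2; omega) (by clear * - b3; omega) (by clear * - b4; omega) (by clear * - b5; omega) (by clear * - b6; omega) (by clear * - b7; omega) (by clear * - b8; omega) (by clear * - b9; omega) (by clear * - z58; omega)
  · exact h8_65 al hy a1 a2 s1 s2 b c1 c2 tt D1 D2 mx hL bd0 n1 n2 n3 (by clear * - b1; omega) (by clear * - b2; omega) (by clear * - b3; omega) (by clear * - b7; omega) (by clear * - b8; omega) (by clear * - b9; omega) (by clear * - z58; omega)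

theorem h8_24p
    (h8_25 : ∀ {W : ℤ → G} {n Q i j k l i2 m k3 : ℤ} (al : AL W n Q) (hy : (0) ≤ (i) ∧ (i) ≤ (j) ∧ (j + 1) ≤ (Q) ∧ (Q) ≤ (k) ∧ (k + 1) ≤ (n) ∧ (Q) ≤ (i + l + 1) ∧ (k + l + 2) ≤ (n) ∧ (0) ≤ (i2) ∧ (i2 + 1) ≤ (Q) ∧ (Q + m + 1) ≤ (n + i2) ∧ (i2) ≤ (m) ∧ (Q) ≤ (i + l + m + 2) ∧ (i + l + m + 3) ≤ (n) ∧ (Q) ≤ (k3) ∧ (k3 + 1) ≤ (n) ∧ (i + m + 2) ≤ (k) ∧ (i) ≤ (i2) ∧ (i2) ≤ (i) ∧ (i + m + 2) ≤ (k3) ∧ (k3) ≤ (i + l + m + 1) ∧ (m + k3 + 2) ≤ (n + i2)) (a1 : Par W (0) (j) (k - j)) (a2 : Par W (Q + j - k) (j) (k - j)) (s1 : Ant W (0) (i) (i + j)) (s2 : Ant W (j + 1) (Q) (i + j)) (b : Par W (i + 1) (i + l + 1) (k - i)) (c1 : Par W (i2 + 1) (Q) (k + l - i2 + 1)) (c2 : Par W (k + l + 2) (n) (i2 - k - l - 1)) (tt : Ant W (i2 - m) (i2) (i + l + i2 + 1)) (D1 : Par W (Q) (k3) (n + i2 - m - k3 - 1)) (D2 : Par W (i + l + m + 3) (n) (k3 - i - l - m - 2)) {L : ℤ} (mx : ∀ a b g, 0 < g → g <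 n → Par W a b g → b - a ≤ L) (hL : L ≤ (n - j - 3) ∧ L ≤ (n + Q - k - 3) ∧ L ≤ (n - l - 3) ∧ L ≤ (n + i - k - 2)) (bd0 : Bd W n L (j) (i) (k)) (n1 : Nd W (j) (i) (k)) (n2 : Nd W (i + l + 1) (i2) (k + l + 1)) (n3 : Nd W (n + i2 - m - 1) (i + l + m + 2) (k3)) (b0 : (2 * l + 3) ≤ (n)) (b1 : (2 * i + 2 * l + 3 * m + 5) ≤ (n + i2 + k3)) (b2 : (k + i2 + 1) ≤ (Q + j + m)) (b3 : (2 * i + j + 1) ≤ (k)) (b4 : (2 * Q + k + l) ≤ (n + 2 * j + i2)) (b5 : (m + k3) ≤ (i + l + 2 * i2 + 1)) (b6 : (1) ≤ (m)) (b7 : (Q + k3) ≤ (i + l + i2 + m + 2)) (b8 : (Q + k + l + 1) ≤ (n + i2)) (b9 : (Q + m + 1) ≤ (k3)), False)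
    {W : ℤ → G} {n Q i j k l i2 m k3 : ℤ} (al : AL W n Q)
    (hy : (0) ≤ (i) ∧ (i) ≤ (j) ∧ (j + 1) ≤ (Q) ∧ (Q) ≤ (k) ∧ (k + 1) ≤ (n) ∧ (Q) ≤ (i + l + 1) ∧ (k + l + 2) ≤ (n) ∧ (0) ≤ (i2) ∧ (i2 + 1) ≤ (Q) ∧ (Q + m + 1) ≤ (n + i2) ∧ (i2) ≤ (m) ∧ (Q) ≤ (i + l + m + 2) ∧ (i + l + m + 3) ≤ (n) ∧ (Q) ≤ (k3) ∧ (k3 + 1) ≤ (n) ∧ (i + m + 2) ≤ (k) ∧ (i) ≤ (i2) ∧ (i2) ≤ (i) ∧ (i + m + 2) ≤ (k3) ∧ (k3) ≤ (i + l + m + 1) ∧ (m + k3 + 2) ≤ (n + i2))
    (a1 : Par W (0) (j) (k - j))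
    (a2 : Par W (Q + j - k) (j) (k - j))
    (s1 : Ant W (0) (i) (i + j))
    (s2 : Ant W (j + 1) (Q) (i + j))
    (b : Par W (i + 1) (i + l + 1) (k - i))
    (c1 : Par W (i2 + 1) (Q) (k + l - i2 + 1))
    (c2 : Par W (k + l + 2) (n) (i2 - k - l - 1))
    (tt : Ant W (i2 - m) (i2) (i + l + i2 + 1))
    (D1 : Par W (Q) (k3) (n + i2 - m - k3 - 1))
    (D2 : Par W (i + l + m + 3) (n) (k3 - i - l - m - 2))
    {L : ℤ} (mx : ∀ a b g, 0 < g → g < n → Par W a b g → b - a ≤ L)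
    (hL : L ≤ (n - j - 3) ∧ L ≤ (n + Q - k - 3) ∧ L ≤ (n - l - 3) ∧ L ≤ (n + i - k - 2))
    (bd0 : Bd W n L (j) (i) (k))
    (n1 : Nd W (j) (i) (k))
    (n2 : Nd W (i + l + 1) (i2) (k + l + 1))
    (n3 : Nd W (n + i2 - m - 1) (i + l + m + 2) (k3))
    (b0 : (2 * l + 3) ≤ (n))
    (b1 : (2 * i + 2 * l + 3 * m + 5) ≤ (n + i2 + k3))
    (b2 : (k + i2 + 1) ≤ (Q + j + m))
    (b3 : (2 * i + j + 1) ≤ (k))
    (b4 : (2 * Q + k + l) ≤ (n + 2 * j + i2))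
    (b5 : (m + k3) ≤ (i + l + 2 * i2 + 1))
    (b6 : (1) ≤ (m))
    (b7 : (Q + k3) ≤ (i + l + i2 + m + 2))
    (b8 : (Q + k + l + 1) ≤ (n + i2)) : False := by
  have ev := al.ev
  obtain ⟨y0, y1, y2, y3, y4, y5, y6, y7, y8, y9, y10, y11, y12, y13, y14, y15, y16, y17, y18, y19, y20⟩ := id hy
  have n1p := And.intro n1.p1 n1.p2
  have n2p := And.intro n2.p1 n2.p2
  have n3p := And.intro n3.p1 n3.p2
  by_cases z54 : (k3) ≤ (Q + m)
  · by_cases v24 : (i + k + 2 * l + m + 3) ≤ (n + k3)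
    · have kk703 : (i2 + m + 2) ≤ (k3) := by clear * - y17 y18; omega
      have kk704 : (k3) ≤ (n + i2 + m) := by clear * - b6 y20; omega
      have kk705 : (k3) ≤ (Q + m) := by clear * - z54; omega
      have kk706 : (Q + k3) ≤ (i + l + i2 + m + 2) := by clear * - b7; omega
      have kk707 : (i + m + 1) ≤ (k) := by clear * - y15; omega
      have kk708 : (i + m + 1) ≤ (k3) := by clear * - y18; omega
      have kk709 : (i + k + 2 * l + m + 3) ≤ (n + k3) := by clear * - v24; omega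
      clear * - al b c2 D2 kk703 kk704 kk705 kk706 kk707 kk708 kk709
      exact al.ubQ (k3 - i2 - m - 1) (by omega) (by omega) fun t h1 h2 => (cE (sh al (-1) t (t + (-n)) (by omega)) (cE (qf (show Par W (i2 + 1) (n + i2 - k - l - 1) (k + k3 - i - i2 - m - 1) from fun t h1 h2 => (cE (sh al (-1) t (t + (-n)) (by omega)) (cE (pb c2 al (-1) (t + (-n)) (t + (k + l - i2 + 1)) (by omega)) (qf D2 al 0 (t + (k + l - i2 + 1)) (t + (k + k3 - i - i2 - m - 1)) (by omega))))) al (-1) (t + (-n)) (t + (k + k3 - i - i2 - m - 1)) (by omega)) (pb b al 0 (t + (k + k3 - i - i2 - m - 1)) (t + (k3 - i2 - m - 1)) (by omega))))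
    · have kk710 : (i2 + m + 2) ≤ (k3) := by clear * - y17 y18; omega
      have kk711 : (k3) ≤ (n + i2 + m) := by clear * - b6 y20; omega
      have kk712 : (k3) ≤ (Q + m) := by clear * - z54; omega
      have kk713 : (Q + k + l + 1) ≤ (n + i2) := by clear * - b8; omega
      have kk714 : (i + m + 1) ≤ (k) := by clear * - y15; omega
      have kk715 : (i + m + 1) ≤ (k3) := by clear * - y18; omega
      have kk716 : (n + k3) ≤ (i + k + 2 * l + m + 3) := by clear * - v24; omega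
      clear * - al b c2 D2 kk710 kk711 kk712 kk713 kk714 kk715 kk716
      exact al.ubQ (k3 - i2 - m - 1) (by omega) (by omega) fun t h1 h2 => (cE (sh al (-1) t (t + (-n)) (by omega)) (cE (qf (show Par W (i2 + 1) (n + i2 - k - l - 1) (k + k3 - i - i2 - m - 1) from fun t h1 h2 => (cE (sh al (-1) t (t + (-n)) (by omega)) (cE (pb c2 al (-1) (t + (-n)) (t + (k + l - i2 + 1)) (by omega)) (qf D2 al 0 (t + (k + l - i2 + 1)) (t + (k + k3 - i - i2 - m - 1)) (by omega))))) al (-1) (t + (-n)) (t + (k + k3 - i - i2 - m - 1)) (by omega)) (pb b al 0 (t + (k + k3 - i - i2 - m - 1)) (t + (k3 - i2 - m - 1)) (by omega))))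
  · exact h8_25 al hy a1 a2 s1 s2 b c1 c2 tt D1 D2 mx hL bd0 n1 n2 n3 (by clear * - b0; omega) (by clear * - b1; omega) (by clear * - b2; omega) (by clear * - b3; omega) (by clear * - b4; omega) (by clear * - b5; omega) (by clear * - b6; omega) (by clear * - b7; omega) (by clear * - b8; omega) (by clear * - z54; omega)

theorem h8_23p
    (h8_24 : ∀ {W : ℤ → G} {n Q i j k l i2 m k3 : ℤ} (al : AL W n Q) (hy : (0) ≤ (i) ∧ (i) ≤ (j) ∧ (j + 1) ≤ (Q) ∧ (Q) ≤ (k) ∧ (k + 1) ≤ (n) ∧ (Q) ≤ (i + l + 1) ∧ (k + l + 2) ≤ (n) ∧ (0) ≤ (i2) ∧ (i2 + 1) ≤ (Q) ∧ (Q + m + 1) ≤ (n + i2) ∧ (i2) ≤ (m) ∧ (Q) ≤ (i + l + m + 2) ∧ (i + l + m + 3) ≤ (n) ∧ (Q) ≤ (k3) ∧ (k3 + 1) ≤ (n) ∧ (i + m + 2) ≤ (k) ∧ (i) ≤ (i2) ∧ (i2) ≤ (i) ∧ (i + m + 2) ≤ (k3) ∧ (k3) ≤ (i + l + m + 1) ∧ (m + k3 + 2) ≤ (n + i2)) (a1 : Par W (0) (j) (k - j)) (a2 : Par W (Q + j - k) (j) (k - j)) (s1 : Ant W (0) (i) (i + j)) (s2 : Ant W (j +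 1) (Q) (i + j)) (b : Par W (i + 1) (i + l + 1) (k - i)) (c1 : Par W (i2 + 1) (Q) (k + l - i2 + 1)) (c2 : Par W (k + l + 2) (n) (i2 - k - l - 1)) (tt : Ant W (i2 - m) (i2) (i + l + i2 + 1)) (D1 : Par W (Q) (k3) (n + i2 - m - k3 - 1)) (D2 : Par W (i + l + m + 3) (n) (k3 - i - l - m - 2)) {L : ℤ} (mx : ∀ a b g, 0 < g → g < n → Par W a b g → b - a ≤ L) (hL : L ≤ (n - j - 3) ∧ L ≤ (n + Q - k - 3) ∧ L ≤ (n - l - 3) ∧ L ≤ (n + i - k - 2)) (bd0 : Bd W n L (j) (i) (k)) (n1 : Nd W (j) (i) (k)) (n2 : Nd W (i + l + 1) (i2) (k + l + 1)) (n3 : Nd W (n + i2 - m - 1) (i + l + m + 2) (k3)) (b0 : (2 * l + 3) ≤ (n)) (b1 : (2 * i + 2 * l + 3 * m + 5) ≤ (n + i2 + k3)) (b2 : (k + i2 + 1) ≤ (Q + j + m)) (b3 : (2 * i + j + 1) ≤ (k)) (b4 : (2 * Q + k + l) ≤ (n + 2 * j + i2)) (b5 : (m + k3) ≤ (i + l + 2 * i2 + 1)) (b6 : (1) ≤ (m)) (b7 : (Q + k3) ≤ (i + l + i2 + m + 2)) (b8 : (Q + k + l + 1) ≤ (n + i2)), False)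
    (h8_74 : ∀ {W : ℤ → G} {n Q i j k l i2 m k3 : ℤ} (al : AL W n Q) (hy : (0) ≤ (i) ∧ (i) ≤ (j) ∧ (j + 1) ≤ (Q) ∧ (Q) ≤ (k) ∧ (k + 1) ≤ (n) ∧ (Q) ≤ (i + l + 1) ∧ (k + l + 2) ≤ (n) ∧ (0) ≤ (i2) ∧ (i2 + 1) ≤ (Q) ∧ (Q + m + 1) ≤ (n + i2) ∧ (i2) ≤ (m) ∧ (Q) ≤ (i + l + m + 2) ∧ (i + l + m + 3) ≤ (n) ∧ (Q) ≤ (k3) ∧ (k3 + 1) ≤ (n) ∧ (i + m + 2) ≤ (k) ∧ (i) ≤ (i2) ∧ (i2) ≤ (i) ∧ (i + m + 2) ≤ (k3) ∧ (k3) ≤ (i + l + m + 1) ∧ (m + k3 + 2) ≤ (n + i2)) (a1 : Par W (0) (j) (k - j)) (a2 : Par W (Q + j - k) (j) (k - j)) (s1 : Ant W (0) (i) (i + j)) (s2 : Ant W (j + 1) (Q) (i + j)) (b : Par W (i + 1) (i + l + 1) (k - i)) (c1 : Par W (i2 + 1) (Q) (k + l - i2 + 1)) (c2 : Par W (k + l + 2) (n) (i2 - k - l - 1)) (tt : Ant W (i2 - m) (i2) (i + l + i2 + 1)) (D1 : Par W (Q) (k3) (n + i2 - m - k3 - 1)) (D2 : Par W (i + l + m + 3) (n) (k3 - i - l - m - 2)) {L : ℤ} (mx : ∀ a b g, 0 < g → g < n → Par W a b g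 → b - a ≤ L) (hL : L ≤ (n - j - 3) ∧ L ≤ (n + Q - k - 3) ∧ L ≤ (n - l - 3) ∧ L ≤ (n + i - k - 2)) (bd0 : Bd W n L (j) (i) (k)) (n1 : Nd W (j) (i) (k)) (n2 : Nd W (i + l + 1) (i2) (k + l + 1)) (n3 : Nd W (n + i2 - m - 1) (i + l + m + 2) (k3)) (b0 : (2 * l + 3) ≤ (n)) (b1 : (2 * i + 2 * l + 3 * m + 5) ≤ (n + i2 + k3)) (b2 : (k + i2 + 1) ≤ (Q + j + m)) (b3 : (2 * i + j + 1) ≤ (k)) (b4 : (2 * Q + k + l) ≤ (n + 2 * j + i2)) (b5 : (m + k3) ≤ (i + l + 2 * i2 + 1)) (b6 : (1) ≤ (m)) (b7 : (Q + k3) ≤ (i + l + i2 + m + 2)) (b8 : (n + i2) ≤ (Q + k + l)), False)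
    {W : ℤ → G} {n Q i j k l i2 m k3 : ℤ} (al : AL W n Q)
    (hy : (0) ≤ (i) ∧ (i) ≤ (j) ∧ (j + 1) ≤ (Q) ∧ (Q) ≤ (k) ∧ (k + 1) ≤ (n) ∧ (Q) ≤ (i + l + 1) ∧ (k + l + 2) ≤ (n) ∧ (0) ≤ (i2) ∧ (i2 + 1) ≤ (Q) ∧ (Q + m + 1) ≤ (n + i2) ∧ (i2) ≤ (m) ∧ (Q) ≤ (i + l + m + 2) ∧ (i + l + m + 3) ≤ (n) ∧ (Q) ≤ (k3) ∧ (k3 + 1) ≤ (n) ∧ (i + m + 2) ≤ (k) ∧ (i) ≤ (i2) ∧ (i2) ≤ (i) ∧ (i + m + 2) ≤ (k3) ∧ (k3) ≤ (i + l + m + 1) ∧ (m + k3 + 2) ≤ (n + i2))
    (a1 : Par W (0) (j) (k - j))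
    (a2 : Par W (Q + j - k) (j) (k - j))
    (s1 : Ant W (0) (i) (i + j))
    (s2 : Ant W (j + 1) (Q) (i + j))
    (b : Par W (i + 1) (i + l + 1) (k - i))
    (c1 : Par W (i2 + 1) (Q) (k + l - i2 + 1))
    (c2 : Par W (k + l + 2) (n) (i2 - k - l - 1))
    (tt : Ant W (i2 - m) (i2) (i + l + i2 + 1))
    (D1 : Par W (Q) (k3) (n + i2 - m - k3 - 1))
    (D2 : Par W (i + l + m + 3) (n) (k3 - i - l - m - 2))
    {L : ℤ} (mx : ∀ a b g, 0 < g → g < n → Par W a b g → b - a ≤ L)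
    (hL : L ≤ (n - j - 3) ∧ L ≤ (n + Q - k - 3) ∧ L ≤ (n - l - 3) ∧ L ≤ (n + i - k - 2))
    (bd0 : Bd W n L (j) (i) (k))
    (n1 : Nd W (j) (i) (k))
    (n2 : Nd W (i + l + 1) (i2) (k + l + 1))
    (n3 : Nd W (n + i2 - m - 1) (i + l + m + 2) (k3))
    (b0 : (2 * l + 3) ≤ (n))
    (b1 : (2 * i + 2 * l + 3 * m + 5) ≤ (n + i2 + k3))
    (b2 : (k + i2 + 1) ≤ (Q + j + m))
    (b3 : (2 * i + j + 1) ≤ (k))
    (b4 : (2 * Q + k + l) ≤ (n + 2 * j + i2))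
    (b5 : (m + k3) ≤ (i + l + 2 * i2 + 1))
    (b6 : (1) ≤ (m))
    (b7 : (Q + k3) ≤ (i + l + i2 + m + 2)) : False := by
  have ev := al.ev
  obtain ⟨y0, y1, y2, y3, y4, y5, y6, y7, y8, y9, y10, y11, y12, y13, y14, y15, y16, y17, y18, y19, y20⟩ := id hy
  have n1p := And.intro n1.p1 n1.p2
  have n2p := And.intro n2.p1 n2.p2
  have n3p := And.intro n3.p1 n3.p2
  by_cases z53 : (Q + k + l + 1) ≤ (n + i2)
  · exact h8_24 al hy a1 a2 s1 s2 b c1 c2 tt D1 D2 mx hL bd0 n1 n2 n3 (by clear * - b0; omega) (by clear * - b1; omega) (by clear * - b2; omega) (by clear * - b3; omega) (by clear * - b4; omega) (by clear * - b5; omega) (by clear * - b6; omega) (by clear * - b7; omega) (by clear * - z53; omega)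
  · exact h8_74 al hy a1 a2 s1 s2 b c1 c2 tt D1 D2 mx hL bd0 n1 n2 n3 (by clear * - b0; omega) (by clear * - b1; omega) (by clear * - b2; omega) (by clear * - b3; omega) (by clear * - b4; omega) (by clear * - b5; omega) (by clear * - b6; omega) (by clear * - b7; omega) (by clear * - z53; omega)

theorem h8_104p
    {W : ℤ → G} {n Q i j k l i2 m k3 : ℤ} (al : AL W n Q)
    (hy : (0) ≤ (i) ∧ (i) ≤ (j) ∧ (j + 1) ≤ (Q) ∧ (Q) ≤ (k) ∧ (k + 1) ≤ (n) ∧ (Q) ≤ (i + l + 1) ∧ (k + l + 2) ≤ (n) ∧ (0) ≤ (i2) ∧ (i2 + 1) ≤ (Q) ∧ (Q + m + 1) ≤ (n + i2) ∧ (i2) ≤ (m) ∧ (Q) ≤ (i + l + m + 2) ∧ (i + l + m + 3) ≤ (n) ∧ (Q) ≤ (k3) ∧ (k3 + 1) ≤ (n) ∧ (i + m + 2) ≤ (k) ∧ (i) ≤ (i2) ∧ (i2) ≤ (i) ∧ (i + m + 2) ≤ (k3) ∧ (k3) ≤ (i + l + m + 1) ∧ (m + k3 + 2) ≤ (n + i2))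
    (a1 : Par W (0) (j) (k - j))
    (a2 : Par W (Q + j - k) (j) (k - j))
    (s1 : Ant W (0) (i) (i + j))
    (s2 : Ant W (j + 1) (Q) (i + j))
    (b : Par W (i + 1) (i + l + 1) (k - i))
    (c1 : Par W (i2 + 1) (Q) (k + l - i2 + 1))
    (c2 : Par W (k + l + 2) (n) (i2 - k - l - 1))
    (tt : Ant W (i2 - m) (i2) (i + l + i2 + 1))
    (D1 : Par W (Q) (k3) (n + i2 - m - k3 - 1))
    (D2 : Par W (i + l + m + 3) (n) (k3 - i - l - m - 2))
    {L : ℤ} (mx : ∀ a b g, 0 < g → g < n → Par W a b g → b - a ≤ L)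
    (hL : L ≤ (n - j - 3) ∧ L ≤ (n + Q - k - 3) ∧ L ≤ (n - l - 3) ∧ L ≤ (n + i - k - 2))
    (bd0 : Bd W n L (j) (i) (k))
    (n1 : Nd W (j) (i) (k))
    (n2 : Nd W (i + l + 1) (i2) (k + l + 1))
    (n3 : Nd W (n + i2 - m - 1) (i + l + m + 2) (k3))
    (b0 : (2 * l + 3) ≤ (n))
    (b1 : (m + k3) ≤ (i + l + 2 * i2 + 1))
    (b2 : (1) ≤ (m))
    (b3 : (i + l + i2 + m + 3) ≤ (Q + k3))
    (b4 : (i + k) ≤ (2 * j + 1))
    (b5 : (2 * k + l + 2) ≤ (n + i2))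
    (b6 : (n + i2 + k3) ≤ (2 * k + 2 * l + 2))
    (b7 : (n + j + i2 + k3) ≤ (i + 2 * k + 2 * l + m + 2))
    (b8 : (2 * Q + k + l) ≤ (n + i + j + i2))
    (b9 : (i + 4 * j + 2 * l + m + 5) ≤ (n + k + i2 + k3)) : False := by
  have ev := al.ev
  obtain ⟨y0, y1, y2, y3, y4, y5, y6, y7, y8, y9, y10, y11, y12, y13, y14, y15, y16, y17, y18, y19, y20⟩ := id hy
  have n1p := And.intro n1.p1 n1.p2
  have n2p := And.intro n2.p1 n2.p2
  have n3p := And.intro n3.p1 n3.p2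
  by_cases z240 : (2 * i + l + m + 3) ≤ (Q + k)
  · by_cases z241 : (i + 2 * l + m + k3 + 4) ≤ (n + j + i2)
    · by_cases v93 : (n + 2 * i + i2 + m + 1) ≤ (Q + 2 * k + k3)
      · by_cases v94 : (j + k) ≤ (2 * i + l + m + 2)
        · have kk3091 : (j + 2 * k + k3 + 1) ≤ (n + i + i2 + m) := by clear * - b5 b7; omega
          have kk3092 : (i + 2 * l + m + k3 + 4) ≤ (n + j + i2) := by clear * - z241; omega
          have kk3093 : (k) ≤ (i + l + m + 2) := by clear * - b4 b7 b8 b9 v93 v94 z241; omega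
          have kk3094 : (k + l + 1) ≤ (n) := by clear * - b3 b4 b7 b8 b9 v93 v94 z241; omega
          have kk3095 : (n + i + i2 + m) ≤ (2 * k + l + k3) := by clear * - b5 b6 b8 v93 v94; omega
          have kk3096 : (n + 2 * i + i2 + m + 1) ≤ (Q + 2 * k + k3) := by clear * - v93; omega
          have kk3097 : (j + k) ≤ (2 * i + l + m + 2) := by clear * - v94; omega
          have kk3098 : (i2) ≤ (k3) := by clear * - b3 b4 b7 b8 b9 v93 v94 z241; omega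
          have r3099 : (n + j + 2 * k + k3 - i - i2 - m - 1) % 2 = 0 := by clear * - ev n1p n2p n3p; omega
          clear * - al s2 b c2 D2 kk3091 kk3092 kk3093 kk3094 kk3095 kk3096 kk3097 kk3098 r3099
          obtain ⟨t, ht⟩ : ∃ t, 2 * t = (n + j + 2 * k + k3 - i - i2 - m - 1) := ⟨(n + j + 2 * k + k3 - i - i2 - m - 1) / 2, by omega⟩
          exact al.ninv t (cE (cE (ab s2 al 1 t ((n + i + j) - t) (by omega)) (qf (show Par W (2 * i + l + m - k + 3) (i + l + 1) (k + k3 - 2 * i - l - m - 2) from fun t h1 h2 => (cE (sh al (-1) t (t + (-n)) (by omega)) (cE (qf b al (-1) (t + (-n)) (t + (k - i)) (by omega)) (qf D2 al 0 (t + (k - i)) (t + (k + k3 - 2 * i - l - m - 2)) (by omega))))) al 0 ((n + i + j) - t) ((n + j + k + k3 - i - l - m - 2) - t) (by omega))) (pb c2 al 0 ((n + j + k + k3 - i - l - m - 2) - t) t (by omega)))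
        · have kk3100 : (j + 2 * k + k3 + 1) ≤ (n + i + i2 + m) := by clear * - b5 b7; omega
          have kk3101 : (j + 2 * k + k3) ≤ (n + 3 * i + i2 + m) := by clear * - b5 b7 y17 y7; omega
          have kk3102 : (k) ≤ (i + l + m + 2) := by clear * - b4 b5 b7 v93 y13 y17 y7; omega
          have kk3103 : (k + l + 1) ≤ (n) := by clear * - b1 b2 b3 b5 b6 b7 b8 v93; omega
          have kk3104 : (n + i + i2 + m) ≤ (2 * k + l + k3) := by clear * - b1 b3 b4 b7 y13 z240; omega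
          have kk3105 : (n + 2 * i + i2 + m + 1) ≤ (Q + 2 * k + k3) := by clear * - v93; omega
          have kk3106 : (2 * i + l + m + 2) ≤ (j + k) := by clear * - v94; omega
          have kk3107 : (2 * i + l + i2 + m + 2) ≤ (j + k + k3) := by clear * - b2 b3 b5 b6 b8 v93; omega
          have r3108 : (n + j + 2 * k + k3 - i - i2 - m - 1) % 2 = 0 := by clear * - ev n1p n2p n3p; omega
          clear * - al s2 b c2 D2 kk3100 kk3101 kk3102 kk3103 kk3104 kk3105 kk3106 kk3107 r3108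
          obtain ⟨t, ht⟩ : ∃ t, 2 * t = (n + j + 2 * k + k3 - i - i2 - m - 1) := ⟨(n + j + 2 * k + k3 - i - i2 - m - 1) / 2, by omega⟩
          exact al.ninv t (cE (cE (ab s2 al 1 t ((n + i + j) - t) (by omega)) (qf (show Par W (2 * i + l + m - k + 3) (i + l + 1) (k + k3 - 2 * i - l - m - 2) from fun t h1 h2 => (cE (sh al (-1) t (t + (-n)) (by omega)) (cE (qf b al (-1) (t + (-n)) (t + (k - i)) (by omega)) (qf D2 al 0 (t + (k - i)) (t + (k + k3 - 2 * i - l - m - 2)) (by omega))))) al 0 ((n + i + j) - t) ((n + j + k + k3 - i - l - m - 2) - t) (by omega))) (pb c2 al 0 ((n + j + k + k3 - i - l - m - 2) - t) t (by omega)))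
      · by_cases v95 : (j + k) ≤ (2 * i + l + m + 2)
        · have kk3109 : (n + 3 * i + j + i2 + m + 3) ≤ (2 * Q + 2 * k + k3) := by clear * - b3 b7 y16; omega
          have kk3110 : (i + 2 * l + m + k3 + 4) ≤ (n + j + i2) := by clear * - z241; omega
          have kk3111 : (k) ≤ (i + l + m + 2) := by clear * - b1 b2 b3 b4 b7 b8 b9 v95; omega
          have kk3112 : (k + l + 1) ≤ (n) := by clear * - b3 b4 b7 b8 b9 v93 v95 z240; omega
          have kk3113 : (Q + 2 * k + k3) ≤ (n + 2 * i + i2 + m + 1) := by clear * - v93; omega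
          have kk3114 : (Q) ≤ (i + l + 1) := by clear * - b6 b8 v95 y18; omega
          have kk3115 : (j + k) ≤ (2 * i + l + m + 2) := by clear * - v95; omega
          have kk3116 : (i2) ≤ (k3) := by clear * - b2 b3 b6 b8 v95 y18; omega
          have r3117 : (n + j + 2 * k + k3 - i - i2 - m - 1) % 2 = 0 := by clear * - ev n1p n2p n3p; omega
          clear * - al s2 b c2 D2 kk3109 kk3110 kk3111 kk3112 kk3113 kk3114 kk3115 kk3116 r3117
          obtain ⟨t, ht⟩ : ∃ t, 2 * t = (n + j + 2 * k + k3 - i - i2 - m - 1) := ⟨(n + j + 2 * k + k3 - i - i2 - m - 1) / 2, by omega⟩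
          exact al.ninv t (cE (cE (ab s2 al 1 t ((n + i + j) - t) (by omega)) (qf (show Par W (2 * i + l + m - k + 3) (i + l + 1) (k + k3 - 2 * i - l - m - 2) from fun t h1 h2 => (cE (sh al (-1) t (t + (-n)) (by omega)) (cE (qf b al (-1) (t + (-n)) (t + (k - i)) (by omega)) (qf D2 al 0 (t + (k - i)) (t + (k + k3 - 2 * i - l - m - 2)) (by omega))))) al 0 ((n + i + j) - t) ((n + j + k + k3 - i - l - m - 2) - t) (by omega))) (pb c2 al 0 ((n + j + k + k3 - i - l - m - 2) - t) t (by omega)))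
        · have kk3118 : (n + 3 * i + j + i2 + m + 3) ≤ (2 * Q + 2 * k + k3) := by clear * - b3 b7 y16; omega
          have kk3119 : (j + 2 * k + k3) ≤ (n + 3 * i + i2 + m) := by clear * - b3 b7 v93 y7; omega
          have kk3120 : (k) ≤ (i + l + m + 2) := by clear * - b3 b4 b5 b7 v93 y13 y7; omega
          have kk3121 : (k + l + 1) ≤ (n) := by clear * - b1 b2 b3 b5 b6 b8 b9 v93; omega
          have kk3122 : (Q + 2 * k + k3) ≤ (n + 2 * i + i2 + m + 1) := by clear * - v93; omega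
          have kk3123 : (Q) ≤ (i + l + 1) := by clear * - b1 b3 b4 b7 v93 y13 z240; omega
          have kk3124 : (2 * i + l + m + 2) ≤ (j + k) := by clear * - v95; omega
          have kk3125 : (2 * i + l + i2 + m + 2) ≤ (j + k + k3) := by clear * - b2 b3 b6 b8 v95 y18; omega
          have r3126 : (n + j + 2 * k + k3 - i - i2 - m - 1) % 2 = 0 := by clear * - ev n1p n2p n3p; omega
          clear * - al s2 b c2 D2 kk3118 kk3119 kk3120 kk3121 kk3122 kk3123 kk3124 kk3125 r3126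
          obtain ⟨t, ht⟩ : ∃ t, 2 * t = (n + j + 2 * k + k3 - i - i2 - m - 1) := ⟨(n + j + 2 * k + k3 - i - i2 - m - 1) / 2, by omega⟩
          exact al.ninv t (cE (cE (ab s2 al 1 t ((n + i + j) - t) (by omega)) (qf (show Par W (2 * i + l + m - k + 3) (i + l + 1) (k + k3 - 2 * i - l - m - 2) from fun t h1 h2 => (cE (sh al (-1) t (t + (-n)) (by omega)) (cE (qf b al (-1) (t + (-n)) (t + (k - i)) (by omega)) (qf D2 al 0 (t + (k - i)) (t + (k + k3 - 2 * i - l - m - 2)) (by omega))))) al 0 ((n + i + j) - t) ((n + j + k + k3 - i - l - m - 2) - t) (by omega))) (pb c2 al 0 ((n + j + k + k3 - i - l - m - 2) - t) t (by omega)))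
    · by_cases z242 : (3 * i + 3 * j + l + m + 4) ≤ (2 * Q + k + k3)
      · by_cases v96 : (k) ≤ (k3)
        · by_cases v97 : (k3) ≤ (j + m + 1)
          · have kk3127 : (k + k3) ≤ (i + j + l + m + 1) := by clear * - b1 b3 b5 b6 b7 b8 v96 v97; omega
            have kk3128 : (3 * i + 3 * j + l + m + 4) ≤ (2 * Q + k + k3) := by clear * - z242; omega
            have kk3129 : (3 * i + l + m + k3 + 4) ≤ (2 * Q + j + k) := by clear * - b1 b3 b6 b8 v96 v97 z242; omega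
            have kk3130 : (2 * n + i + 3 * j + 2 * i2 + m) ≤ (2 * Q + 3 * k + 3 * l + k3) := by clear * - b1 b3 b6 b9 v96 v97 z241; omega
            have kk3131 : (k) ≤ (i + l + m + 2) := by clear * - b1 b3 b5 b7 b8 v96 v97 z240; omega
            have kk3132 : (k + l + 1) ≤ (n) := by clear * - b1 b3 b5 b7 b8 v96 v97 z240; omega
            have kk3133 : (Q + k + l + 1) ≤ (n + i + j) := by clear * - b1 b3 b5 b7 b8 v96 v97 z240; omega
            have kk3134 : (0) ≤ (i) := by clear * - y17 y7; omega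
            have kk3135 : (k) ≤ (i + k3 + 1) := by clear * - v96 y17 y7; omega
            have kk3136 : (k) ≤ (k3) := by clear * - v96; omega
            have kk3137 : (k3) ≤ (j + m + 1) := by clear * - v97; omega
            have kk3138 : (k3) ≤ (i + l + m + 2) := by clear * - b1 b3 b5 b7 b8 v96 v97 z240; omega
            have kk3139 : (Q) ≤ (i + l + 1) := by clear * - b1 b3 b5 b6 b8 b9 v96 v97 z241; omega
            have kk3140 : (Q + k + l + k3 + 1) ≤ (n + 2 * j + i2) := by clear * - b1 b3 b5 b6 b8 v96 v97 z241 z242; linarith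
            have r3141 : (i + j + i2 - n - k - l - 1) % 2 = 0 := by clear * - ev n1p n2p n3p; omega
            have r3142 : (i + j + l + m - k - k3 + 2) % 2 = 0 := by clear * - ev n1p n2p n3p; omega
            clear * - al a1 s2 b c2 D2 kk3127 kk3128 kk3129 kk3130 kk3131 kk3132 kk3133 kk3134 kk3135 kk3136 kk3137 kk3138 kk3139 kk3140 r3141 r3142
            exact midP al (i + j + l + m - k - k3 + 2) (i + j + i2 - n - k - l - 1) (i + j + i2 - Q - k - l) (i + k3 - n - j + 1) (i + l - n + 1) (by omega) (fun t h1 h2 => (cE (cI (pb c2 al (-1) t (t + (n + k + l - i2 + 1)) (by omega)) (ab s2 al 1 (t + (n + k + l - i2 + 1)) ((i + j + i2 - k - l - 1) - t) (by omega))) (sh al (-1) ((i + j + i2 - k - l - 1) - t) ((i + j + i2 - n - k - l - 1) - t) (by omega)))) (fun t h1 h2 => (cE (cE (cE (pb a1 al (-1) t (t + (n + j - k)) (by omega)) (qf b al 0 (t + (n + j - k)) (t + (n + j - i)) (by omega)))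 (pb (show Par W (2 * i + l + m - k + 3) (i + l + 1) (k + k3 - 2 * i - l - m - 2) from fun t h1 h2 => (cE (sh al (-1) t (t + (-n)) (by omega)) (cE (qf b al (-1) (t + (-n)) (t + (k - i)) (by omega)) (qf D2 al 0 (t + (k - i)) (t + (k + k3 - 2 * i - l - m - 2)) (by omega))))) al 0 (t + (n + j - i)) (t + (n + i + j + l + m - k - k3 + 2)) (by omega))) (sh al (-1) (t + (n + i + j + l + m - k - k3 + 2)) (t + (i + j + l + m - k - k3 + 2)) (by omega))))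
          · have kk3143 : (k + k3) ≤ (i + j + l + m + 1) := by clear * - b4 b5 b7 y17 y7; omega
            have kk3144 : (3 * i + 3 * j + l + m + 4) ≤ (2 * Q + k + k3) := by clear * - z242; omega
            have kk3145 : (3 * i + l + m + k3 + 4) ≤ (2 * Q + j + k) := by clear * - b4 b5 b7 y17 y7 z240; omega
            have kk3146 : (2 * n + i + j + 2 * i2 + k3) ≤ (2 * Q + 3 * k + 3 * l + m + 2) := by clear * - b3 b4 b5 b7 y7 z242; omega
            have kk3147 : (k) ≤ (i + l + m + 2) := by clear * - b1 b2 b3 b4 b5 b7 b8 v96; omega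
            have kk3148 : (k + l + 1) ≤ (n) := by clear * - b1 b2 b3 b5 b6 b7 b8 z242; omega
            have kk3149 : (Q + k + l + 1) ≤ (n + i + j) := by clear * - b1 b2 b3 b4 b5 b7 b8; omega
            have kk3150 : (0) ≤ (i) := by clear * - y17 y7; omega
            have kk3151 : (k) ≤ (i + k3 + 1) := by clear * - v96 y17 y7; omega
            have kk3152 : (k) ≤ (k3) := by clear * - v96; omega
            have kk3153 : (j + m + 1) ≤ (k3) := by clear * - v97; omega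
            have kk3154 : (j) ≤ (i + l + 1) := by clear * - b1 b2 b3 b5 b6 b7 b8 v96 v97; omega
            have kk3155 : (Q + k3) ≤ (i + j + l + m + 2) := by clear * - b1 b2 b3 b4 b5 b7 b8; omega
            have kk3156 : (Q + k + l + k3 + 1) ≤ (n + 2 * j + i2) := by clear * - b4 b5 b7 b8 y17 y7 z240; omega
            have r3157 : (i + j + i2 - n - k - l - 1) % 2 = 0 := by clear * - ev n1p n2p n3p; omega
            have r3158 : (i + j + l + m - k - k3 + 2) % 2 = 0 := by clear * - ev n1p n2p n3p; omega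
            clear * - al a1 s2 b c2 D2 kk3143 kk3144 kk3145 kk3146 kk3147 kk3148 kk3149 kk3150 kk3151 kk3152 kk3153 kk3154 kk3155 kk3156 r3157 r3158
            exact midP al (i + j + l + m - k - k3 + 2) (i + j + i2 - n - k - l - 1) (i + j + i2 - Q - k - l) (i + k3 - n - j + 1) (i + j + l + m - n - k3 + 2) (by omega) (fun t h1 h2 => (cE (cI (pb c2 al (-1) t (t + (n + k + l - i2 + 1)) (by omega)) (ab s2 al 1 (t + (n + k + l - i2 + 1)) ((i + j + i2 - k - l - 1) - t) (by omega))) (sh al (-1) ((i + j + i2 - k - l - 1) - t) ((i + j + i2 - n - k - l - 1) - t) (by omega)))) (fun t h1 h2 => (cE (cE (cE (pb a1 al (-1) t (t + (n + j - k)) (by omega)) (qf b al 0 (t + (n + j - k)) (t + (n + j - i)) (by omega))) (pb (show Par W (2 * i + l + m - k + 3) (i + l + 1) (k + k3 - 2 * i - l - m - 2) from fun t h1 h2 => (cE (sh al (-1) t (t + (-n)) (by omega)) (cE (qf b al (-1) (t + (-n)) (t + (k - i)) (by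 omega)) (qf D2 al 0 (t + (k - i)) (t + (k + k3 - 2 * i - l - m - 2)) (by omega))))) al 0 (t + (n + j - i)) (t + (n + i + j + l + m - k - k3 + 2)) (by omega))) (sh al (-1) (t + (n + i + j + l + m - k - k3 + 2)) (t + (i + j + l + m - k - k3 + 2)) (by omega))))
        · by_cases v98 : (k3) ≤ (j + m + 1)
          · have kk3159 : (k + k3) ≤ (i + j + l + m + 1) := by clear * - b1 b3 b5 b6 b8 v96 v98 z241; omega
            have kk3160 : (3 * i + 3 * j + l + m + 4) ≤ (2 * Q + k + k3) := by clear * - z242; omega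
            have kk3161 : (3 * i + k + l + m + 4) ≤ (2 * Q + j + k3) := by clear * - b1 b3 b4 b5 b8 v98 z240 z241; omega
            have kk3162 : (2 * n + i + 3 * j + 2 * i2 + m) ≤ (2 * Q + 3 * k + 3 * l + k3) := by clear * - b1 b3 b6 b8 v96 v98 z241 z242; omega
            have kk3163 : (k) ≤ (i + l + m + 2) := by clear * - b1 b3 b5 b8 v96 v98 z240 z241; omega
            have kk3164 : (k + l + 1) ≤ (n) := by clear * - b1 b3 b5 b8 v96 v98 z240 z241; omega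
            have kk3165 : (Q + k + l + 1) ≤ (n + i + j) := by clear * - b1 b3 b5 b8 v96 v98 z240 z241; omega
            have kk3166 : (0) ≤ (i) := by clear * - y17 y7; omega
            have kk3167 : (0) ≤ (i + 1) := by clear * - y17 y7; omega
            have kk3168 : (k3) ≤ (k) := by clear * - v96; omega
            have kk3169 : (k3) ≤ (j + m + 1) := by clear * - v98; omega
            have kk3170 : (k3) ≤ (i + l + m + 2) := by clear * - b1 b3 b5 b8 v96 v98 z240 z241; omega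
            have kk3171 : (Q) ≤ (i + l + 1) := by clear * - b1 b3 b5 b6 b8 v96 v98 z241 z242; omega
            have kk3172 : (Q + 2 * k + l + 1) ≤ (n + 2 * j + i2) := by clear * - b1 b3 b4 b5 b8 v96 v98 z241 z242; omega
            have r3173 : (i + j + i2 - n - k - l - 1) % 2 = 0 := by clear * - ev n1p n2p n3p; omega
            have r3174 : (i + j + l + m - k - k3 + 2) % 2 = 0 := by clear * - ev n1p n2p n3p; omega
            clear * - al a1 s2 b c2 D2 kk3159 kk3160 kk3161 kk3162 kk3163 kk3164 kk3165 kk3166 kk3167 kk3168 kk3169 kk3170 kk3171 kk3172 r3173 r3174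
            exact midP al (i + j + l + m - k - k3 + 2) (i + j + i2 - n - k - l - 1) (i + j + i2 - Q - k - l) (i + k - n - j + 1) (i + l - n + 1) (by omega) (fun t h1 h2 => (cE (cI (pb c2 al (-1) t (t + (n + k + l - i2 + 1)) (by omega)) (ab s2 al 1 (t + (n + k + l - i2 + 1)) ((i + j + i2 - k - l - 1) - t) (by omega))) (sh al (-1) ((i + j + i2 - k - l - 1) - t) ((i + j + i2 - n - k - l - 1) - t) (by omega)))) (fun t h1 h2 => (cE (cE (cE (pb a1 al (-1) t (t + (n + j - k)) (by omega)) (qf b al 0 (t + (n + j - k)) (t + (n + j - i)) (by omega))) (pb (show Par W (2 * i + l + m - k + 3) (i + l + 1) (k + k3 - 2 * i - l - m - 2) from fun t h1 h2 => (cE (sh al (-1) t (t + (-n)) (by omega)) (cE (qf b al (-1) (t + (-n)) (t + (k - i)) (by omega)) (qf D2 al 0 (t + (k - i)) (t + (k + k3 - 2 * i - l - m - 2)) (by omega))))) al 0 (t + (n + j - i)) (t + (n + i + j + l + m - k - k3 + 2)) (by omega))) (sh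 al (-1) (t + (n + i + j + l + m - k - k3 + 2)) (t + (i + j + l + m - k - k3 + 2)) (by omega))))
          · have kk3175 : (k + k3) ≤ (i + j + l + m + 1) := by clear * - b4 b5 v96 y17 y7 z241; omega
            have kk3176 : (3 * i + 3 * j + l + m + 4) ≤ (2 * Q + k + k3) := by clear * - z242; omega
            have kk3177 : (3 * i + k + l + m + 4) ≤ (2 * Q + j + k3) := by clear * - b3 b4 b5 v96 y7 z241 z242; omega
            have kk3178 : (2 * n + i + j + 2 * i2 + k3) ≤ (2 * Q + 3 * k + 3 * l + m + 2) := by clear * - b3 b4 b5 v96 y7 z241 z242; omega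
            have kk3179 : (k) ≤ (i + l + m + 2) := by clear * - b1 b2 b3 b4 b5 b8 v96 z241; omega
            have kk3180 : (k + l + 1) ≤ (n) := by clear * - b1 b2 b3 b5 b6 b8 v96 v98 z241; omega
            have kk3181 : (Q + k + l + 1) ≤ (n + i + j) := by clear * - b1 b2 b3 b4 b5 b8 v96 z241; omega
            have kk3182 : (0) ≤ (i) := by clear * - y17 y7; omega
            have kk3183 : (0) ≤ (i + 1) := by clear * - y17 y7; omega
            have kk3184 : (k3) ≤ (k) := by clear * - v96; omega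
            have kk3185 : (j + m + 1) ≤ (k3) := by clear * - v98; omega
            have kk3186 : (j) ≤ (i + l + 1) := by clear * - b1 b2 b3 b5 b6 b8 v96 v98 z241; omega
            have kk3187 : (Q + k3) ≤ (i + j + l + m + 2) := by clear * - b1 b2 b3 b4 b5 b8 v96 z241; omega
            have kk3188 : (Q + 2 * k + l + 1) ≤ (n + 2 * j + i2) := by clear * - b1 b2 b3 b4 b5 b8 v96 z241; omega
            have r3189 : (i + j + i2 - n - k - l - 1) % 2 = 0 := by clear * - ev n1p n2p n3p; omega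
            have r3190 : (i + j + l + m - k - k3 + 2) % 2 = 0 := by clear * - ev n1p n2p n3p; omega
            clear * - al a1 s2 b c2 D2 kk3175 kk3176 kk3177 kk3178 kk3179 kk3180 kk3181 kk3182 kk3183 kk3184 kk3185 kk3186 kk3187 kk3188 r3189 r3190
            exact midP al (i + j + l + m - k - k3 + 2) (i + j + i2 - n - k - l - 1) (i + j + i2 - Q - k - l) (i + k - n - j + 1) (i + j + l + m - n - k3 + 2) (by omega) (fun t h1 h2 => (cE (cI (pb c2 al (-1) t (t + (n + k + l - i2 + 1)) (by omega)) (ab s2 al 1 (t + (n + k + l - i2 + 1)) ((i + j + i2 - k - l - 1) - t) (by omega))) (sh al (-1) ((i + j + i2 - k - l - 1) - t) ((i + j + i2 - n - k - l - 1) - t) (by omega)))) (fun t h1 h2 => (cE (cE (cE (pb a1 al (-1) t (t + (n + j - k)) (by omega)) (qf b al 0 (t + (n + j - k)) (t + (n + j - i)) (by omega))) (pb (show Par W (2 * i + l + m - k + 3) (i + l + 1) (k + k3 - 2 * i - l - m - 2) from fun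 t h1 h2 => (cE (sh al (-1) t (t + (-n)) (by omega)) (cE (qf b al (-1) (t + (-n)) (t + (k - i)) (by omega)) (qf D2 al 0 (t + (k - i)) (t + (k + k3 - 2 * i - l - m - 2)) (by omega))))) al 0 (t + (n + j - i)) (t + (n + i + j + l + m - k - k3 + 2)) (by omega))) (sh al (-1) (t + (n + i + j + l + m - k - k3 + 2)) (t + (i + j + l + m - k - k3 + 2)) (by omega))))
      · by_cases z243 : (Q + j + m + 1) ≤ (k + k3)
        · by_cases v99 : (k) ≤ (k3)
          · by_cases v100 : (k3) ≤ (j + m + 1)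
            · have kk3191 : (k + k3) ≤ (i + j + l + m + 1) := by clear * - b5 b7 v99 z240 z242; omega
              have kk3192 : (i + j + l + m + 3) ≤ (n + k + k3) := by clear * - b3 b5 b7 b9 v100 v99 z240 z242 z243; omega
              have kk3193 : (2 * i + l + m + 3) ≤ (Q + k) := by clear * - z240; omega
              have kk3194 : (Q + j + m + 1) ≤ (k + k3) := by clear * - z243; omega
              have kk3195 : (k) ≤ (i + l + m + 2) := by clear * - b5 b7 b9 v99 z240 z242; omega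
              have kk3196 : (k + l + 1) ≤ (n) := by clear * - b3 b5 b7 b9 v100 v99 z240 z242 z243; omega
              have kk3197 : (k) ≤ (i + k3 + 1) := by clear * - b1 b3 b9 v100 v99 z241 z242; omega
              have kk3198 : (k) ≤ (k3) := by clear * - v99; omega
              have kk3199 : (k3) ≤ (j + m + 1) := by clear * - v100; omega
              have kk3200 : (k3) ≤ (i + l + m + 2) := by clear * - b5 b7 b9 v99 z240 z242; omega
              clear * - al a1 b D2 kk3191 kk3192 kk3193 kk3194 kk3195 kk3196 kk3197 kk3198 kk3199 kk3200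
              exact al.ubQ (i + j + l + m - k - k3 + 2) (by omega) (by omega) fun t h1 h2 => (cE (cE (pb a1 al 0 t (t + (j - k)) (by omega)) (qf b al 0 (t + (j - k)) (t + (j - i)) (by omega))) (pb (show Par W (2 * i + l + m - k + 3) (i + l + 1) (k + k3 - 2 * i - l - m - 2) from fun t h1 h2 => (cE (sh al (-1) t (t + (-n)) (by omega)) (cE (qf b al (-1) (t + (-n)) (t + (k - i)) (by omega)) (qf D2 al 0 (t + (k - i)) (t + (k + k3 - 2 * i - l - m - 2)) (by omega))))) al 0 (t + (j - i)) (t + (i + j + l + m - k - k3 + 2)) (by omega)))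
            · have kk3201 : (k + k3) ≤ (i + j + l + m + 1) := by clear * - b5 b7 v99 z240 z242; omega
              have kk3202 : (i + j + l + m + 3) ≤ (n + k + k3) := by clear * - b3 b5 b7 b8 b9 v100 v99 z240 z242; omega
              have kk3203 : (2 * i + l + m + 3) ≤ (Q + k) := by clear * - z240; omega
              have kk3204 : (Q) ≤ (k) := by clear * - b7 b8 v99 z240; omega
              have kk3205 : (k) ≤ (i + l + m + 2) := by clear * - b5 b7 b9 v99 z240 z242; omega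
              have kk3206 : (k + l + 1) ≤ (n) := by clear * - b3 b5 b7 b8 b9 v99 z240 z242; omega
              have kk3207 : (k) ≤ (i + k3 + 1) := by clear * - v99 y17 y7; omega
              have kk3208 : (k) ≤ (k3) := by clear * - v99; omega
              have kk3209 : (j + m + 1) ≤ (k3) := by clear * - v100; omega
              have kk3210 : (j) ≤ (i + l + 1) := by clear * - b5 b7 b9 v100 v99 z240 z242; omega
              clear * - al a1 b D2 kk3201 kk3202 kk3203 kk3204 kk3205 kk3206 kk3207 kk3208 kk3209 kk3210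
              exact al.ubQ (i + j + l + m - k - k3 + 2) (by omega) (by omega) fun t h1 h2 => (cE (cE (pb a1 al 0 t (t + (j - k)) (by omega)) (qf b al 0 (t + (j - k)) (t + (j - i)) (by omega))) (pb (show Par W (2 * i + l + m - k + 3) (i + l + 1) (k + k3 - 2 * i - l - m - 2) from fun t h1 h2 => (cE (sh al (-1) t (t + (-n)) (by omega)) (cE (qf b al (-1) (t + (-n)) (t + (k - i)) (by omega)) (qf D2 al 0 (t + (k - i)) (t + (k + k3 - 2 * i - l - m - 2)) (by omega))))) al 0 (t + (j - i)) (t + (i + j + l + m - k - k3 + 2)) (by omega)))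
          · by_cases v101 : (k3) ≤ (j + m + 1)
            · have kk3211 : (k + k3) ≤ (i + j + l + m + 1) := by clear * - b5 v99 z240 z241 z242; omega
              have kk3212 : (i + j + l + m + 3) ≤ (n + k + k3) := by clear * - b3 b5 b9 v101 v99 z240 z241 z242 z243; omega
              have kk3213 : (2 * i + l + m + 3) ≤ (Q + k3) := by clear * - b3 y16; omega
              have kk3214 : (Q + j + m + 1) ≤ (k + k3) := by clear * - z243; omega
              have kk3215 : (k) ≤ (i + l + m + 2) := by clear * - b5 b9 v99 z240 z241 z242; omega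
              have kk3216 : (k + l + 1) ≤ (n) := by clear * - b3 b5 b9 v101 v99 z240 z241 z242 z243; omega
              have kk3217 : (0) ≤ (i + 1) := by clear * - b1 b3 b9 v101 z241 z242; omega
              have kk3218 : (k3) ≤ (k) := by clear * - v99; omega
              have kk3219 : (k3) ≤ (j + m + 1) := by clear * - v101; omega
              have kk3220 : (k3) ≤ (i + l + m + 2) := by clear * - b5 b9 v99 z240 z241 z242; omega
              clear * - al a1 b D2 kk3211 kk3212 kk3213 kk3214 kk3215 kk3216 kk3217 kk3218 kk3219 kk3220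
              exact al.ubQ (i + j + l + m - k - k3 + 2) (by omega) (by omega) fun t h1 h2 => (cE (cE (pb a1 al 0 t (t + (j - k)) (by omega)) (qf b al 0 (t + (j - k)) (t + (j - i)) (by omega))) (pb (show Par W (2 * i + l + m - k + 3) (i + l + 1) (k + k3 - 2 * i - l - m - 2) from fun t h1 h2 => (cE (sh al (-1) t (t + (-n)) (by omega)) (cE (qf b al (-1) (t + (-n)) (t + (k - i)) (by omega)) (qf D2 al 0 (t + (k - i)) (t + (k + k3 - 2 * i - l - m - 2)) (by omega))))) al 0 (t + (j - i)) (t + (i + j + l + m - k - k3 + 2)) (by omega)))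
            · have kk3221 : (k + k3) ≤ (i + j + l + m + 1) := by clear * - b5 v99 z240 z241 z242; omega
              have kk3222 : (i + j + l + m + 3) ≤ (n + k + k3) := by clear * - b3 b5 b8 b9 v101 v99 z240 z241 z242; omega
              have kk3223 : (2 * i + l + m + 3) ≤ (Q + k3) := by clear * - b3 y16; omega
              have kk3224 : (Q) ≤ (k) := by clear * - b8 v99 z240 z241; omega
              have kk3225 : (k) ≤ (i + l + m + 2) := by clear * - b5 b9 v99 z240 z241 z242; omega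
              have kk3226 : (k + l + 1) ≤ (n) := by clear * - b3 b5 b8 b9 v99 z240 z241 z242; omega
              have kk3227 : (0) ≤ (i + 1) := by clear * - y17 y7; omega
              have kk3228 : (k3) ≤ (k) := by clear * - v99; omega
              have kk3229 : (j + m + 1) ≤ (k3) := by clear * - v101; omega
              have kk3230 : (j) ≤ (i + l + 1) := by clear * - b5 b9 v101 v99 z240 z241 z242; omega
              clear * - al a1 b D2 kk3221 kk3222 kk3223 kk3224 kk3225 kk3226 kk3227 kk3228 kk3229 kk3230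
              exact al.ubQ (i + j + l + m - k - k3 + 2) (by omega) (by omega) fun t h1 h2 => (cE (cE (pb a1 al 0 t (t + (j - k)) (by omega)) (qf b al 0 (t + (j - k)) (t + (j - i)) (by omega))) (pb (show Par W (2 * i + l + m - k + 3) (i + l + 1) (k + k3 - 2 * i - l - m - 2) from fun t h1 h2 => (cE (sh al (-1) t (t + (-n)) (by omega)) (cE (qf b al (-1) (t + (-n)) (t + (k - i)) (by omega)) (qf D2 al 0 (t + (k - i)) (t + (k + k3 - 2 * i - l - m - 2)) (by omega))))) al 0 (t + (j - i)) (t + (i + j + l + m - k - k3 + 2)) (by omega)))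
        · have kk3231 : (2 * i + 2 * l + 4) ≤ (n) := by clear * - b3 b5 b7 b8 z240 z241 z243; omega
          have kk3232 : (n + 2 * i2) ≤ (2 * i + 2 * l + 2 * m + 3) := by clear * - b3 b7 b8 z241 z243; omega
          have kk3233 : (0) ≤ (i2) := by clear * - b1 b8 b9 z240 z241 z242 z243; omega
          have kk3234 : (n + i2) ≤ (i + k + 2 * l + 2) := by clear * - b1 b3 b6 b8 b9 z240 z241 z242 z243; omega
          have kk3235 : (i + k + l + m + 2) ≤ (n + 2 * i2) := by clear * - b1 b5 b7 b8 b9 z240 z241 z242; omega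
          have kk3236 : (k + l + m + 2) ≤ (n + i2) := by clear * - b1 b3 b6 b8 b9 z240 z241 z243; omega
          have r3237 : (3 * n + 2 * i2) % 2 = 0 := by clear * - ev n1p n2p n3p; omega
          clear * - al b c2 tt kk3231 kk3232 kk3233 kk3234 kk3235 kk3236 r3237
          obtain ⟨t, ht⟩ : ∃ t, 2 * t = (3 * n + 2 * i2) := ⟨(3 * n + 2 * i2) / 2, by omega⟩
          exact al.ninv t (cE (cE (cE (ab tt al 1 t ((n + i + l + i2 + 1) - t) (by omega)) (qf c2 al (-1) ((n + i + l + i2 + 1) - t) ((2 * n + i + 2 * i2 - k) - t) (by omega))) (qf b al 0 ((2 * n + i + 2 * i2 - k) - t) ((2 * n + 2 * i2) - t) (by omega))) (sh al 1 ((2 * n + 2 * i2) - t) t (by omega)))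
  · by_cases z244 : (2 * i + 2 * l + m + 3) ≤ (n + i2)
    · have kk3238 : (k3) ≤ (i + l + m + 1) := by clear * - b1 b2 b3 b4 b5 b7 b8; omega
      have kk3239 : (i2) ≤ (i + l) := by clear * - b1 b2 b3 b5 b6 b7 b8 z240 z244; omega
      have kk3240 : (2 * i + 2 * l + m + 3) ≤ (n + i2) := by clear * - z244; omega
      have kk3241 : (k + i2 + 1) ≤ (i + k3) := by clear * - b3 z240; omega
      have kk3242 : (i) ≤ (i2) := by clear * - y16; omega
      have kk3243 : (n + i2) ≤ (i + k + 2 * l + 2) := by clear * - b1 b3 b4 b7 b8 y16 z240; omega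
      have r3244 : (i + l + m - k3 + 2) % 2 = 0 := by clear * - ev n1p n2p n3p; omega
      have r3245 : (i + l - i2 + 1) % 2 = 0 := by clear * - ev n1p n2p n3p; omega
      clear * - al b c2 D2 n3 kk3238 kk3239 kk3240 kk3241 kk3242 kk3243 r3244 r3245
      exact n3.f1 (rEE (sh al 1 (i + l + m + 2) (n + i + l + m + 2) (by omega)) (sh al 1 (k3) (n + k3) (by omega)) (Eq.symm (rotL (i + l + m - k3 + 2) (i + l - i2 + 1) (n + k3) (n + i + l + m + 2) (by omega) (fun t h1 h2 => (cE (pb D2 al 1 t (t + (i + l + m - n - k3 + 2)) (by omega)) (sh al 1 (t + (i + l + m - n - k3 + 2)) (t + (i + l + m - k3 + 2)) (by omega)))) (fun t h1 h2 => (cE (cE (pb b al 1 t (t + (i - n - k)) (by omega)) (pb c2 al 0 (t + (i - n - k)) (t + (i + l - n - i2 + 1)) (by omega))) (sh al 1 (t + (i + l - n - i2 + 1)) (t + (i + l - i2 + 1)) (by omega)))))))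
    · by_cases z245 : (i + l + m + k3 + 3) ≤ (n + 2 * i2)
      · by_cases z246 : (2 * i + 2 * l + 4) ≤ (n)
        · have kk3246 : (2 * i + 2 * l + 4) ≤ (n) := by clear * - z246; omega
          have kk3247 : (n + 2 * i2) ≤ (2 * i + 2 * l + 2 * m + 3) := by clear * - z244 z246; omega
          have kk3248 : (k) ≤ (i + l + 1) := by clear * - b3 b4 b5 b6 b9 z240 z244 z245; omega
          have kk3249 : (0) ≤ (i2) := by clear * - y7; omega
          have kk3250 : (2 * k + l + 1) ≤ (n + i + i2) := by clear * - b5 y17 y7; omega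
          have kk3251 : (i + m + 1) ≤ (k) := by clear * - b1 b2 b3 b4 b7 b8 b9; omega
          have r3252 : (2 * i + 2 * i2 - n - 2 * k) % 2 = 0 := by clear * - ev n1p n2p n3p; omega
          clear * - al b c2 tt kk3246 kk3247 kk3248 kk3249 kk3250 kk3251 r3252
          obtain ⟨t, ht⟩ : ∃ t, 2 * t = (2 * i + 2 * i2 - n - 2 * k) := ⟨(2 * i + 2 * i2 - n - 2 * k) / 2, by omega⟩
          exact al.ninv t (cE (cE (cI (qf b al (-1) t (t + (n + k - i)) (by omega)) (ab tt al 0 (t + (n + k - i)) ((2 * i + l + i2 - n - k + 1) - t) (by omega))) (qf c2 al (-1) ((2 * i + l + i2 - n - k + 1) - t) ((2 * i + 2 * i2 - 2 * k) - t) (by omega))) (sh al (-1) ((2 * i + 2 * i2 - 2 * k) - t) t (by omega)))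
        · by_cases z247 : (n + 2 * i2) ≤ (k + l + k3 + 1)
          · by_cases v102 : (n + Q + 2 * i2) ≤ (i + k + l + m + k3 + 3)
            · have kk3253 : (k) ≤ (i + l + m + 1) := by clear * - b2 b5 z244 z245 z247; omega
              have kk3254 : (i + m + 2) ≤ (k) := by clear * - z245 z247; omega
              have kk3255 : (2 * i + l + m + 3) ≤ (k + k3) := by clear * - b3 v102 y16 z245; omega
              have kk3256 : (i + l + m + k3 + 3) ≤ (n + 2 * i2) := by clear * - z245; omega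
              have kk3257 : (n + 2 * i2) ≤ (k + l + k3 + 1) := by clear * - z247; omega
              have kk3258 : (2 * k + k3 + 1) ≤ (n + i + 2 * i2) := by clear * - b5 z244 z245; omega
              have kk3259 : (k) ≤ (i + l + m + 2) := by clear * - b2 b5 z244 z245 z247; omega
              have kk3260 : (k + l + 1) ≤ (n) := by clear * - b2 b3 b5 b6 b7 b8 v102 z245 z246; omega
              have kk3261 : (i2) ≤ (i) := by clear * - y17; omega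
              have kk3262 : (n + Q + 2 * i2) ≤ (i + k + l + m + k3 + 3) := by clear * - v102; omega
              have kk3263 : (n + 2 * i2) ≤ (i + k + 2 * l + m + 3) := by clear * - b2 b3 b6 z240; omega
              have kk3264 : (i2) ≤ (m + 1) := by clear * - b0 b3 b4 b5 b7 v102 y16; omega
              have r3265 : (k + k3 - 2 * i - l - m - 2) % 2 = 0 := by clear * - ev n1p n2p n3p; omega
              have r3266 : (n + 2 * i2 - i - l - m - k3 - 2) % 2 = 0 := by clear * - ev n1p n2p n3p; omega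
              clear * - al b c2 D1 D2 n3 kk3253 kk3254 kk3255 kk3256 kk3257 kk3258 kk3259 kk3260 kk3261 kk3262 kk3263 kk3264 r3265 r3266
              exact n3.f1 (rEE (cE (pb b al 0 (i + l + m + 2) (2 * i + l + m - k + 2) (by omega)) (sh al (-1) (2 * i + l + m - k + 2) (2 * i + l + m - n - k + 2) (by omega))) (sh al (-1) (k3) (k3 - n) (by omega)) (rotL (k + k3 - 2 * i - l - m - 2) (n + 2 * i2 - i - l - m - k3 - 2) (2 * i + l + m - n - k + 2) (k3 - n) (by omega) (fun t h1 h2 => (cE (qf (show Par W (2 * i + l + m - k + 3) (i + l + 1) (k + k3 - 2 * i - l - m - 2) from fun t h1 h2 => (cE (sh al (-1) t (t + (-n)) (by omega)) (cE (qf b al (-1) (t + (-n)) (t + (k - i)) (by omega)) (qf D2 al 0 (t + (k - i)) (t + (k + k3 - 2 * i - l - m - 2)) (by omega))))) al (-1) t (t + (n + k + k3 - 2 * i - l - m - 2)) (by omega)) (sh al (-1) (t + (n + k + k3 - 2 * i - l - m - 2)) (t + (k + k3 - 2 * i -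 l - m - 2)) (by omega)))) (fun t h1 h2 => (cE (cE (cE (qf D1 al (-1) t (t + (2 * n + i2 - m - k3 - 1)) (by omega)) (qf c2 al 0 (t + (2 * n + i2 - m - k3 - 1)) (t + (2 * n + 2 * i2 - k - l - m - k3 - 2)) (by omega))) (qf b al 0 (t + (2 * n + 2 * i2 - k - l - m - k3 - 2)) (t + (2 * n + 2 * i2 - i - l - m - k3 - 2)) (by omega))) (sh al (-1) (t + (2 * n + 2 * i2 - i - l - m - k3 - 2)) (t + (n + 2 * i2 - i - l - m - k3 - 2)) (by omega))))))
            · have kk3267 : (k) ≤ (i + l + m + 1) := by clear * - b2 v102 z240 z247; omega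
              have kk3268 : (i + m + 2) ≤ (k) := by clear * - z245 z247; omega
              have kk3269 : (2 * i + l + m + 3) ≤ (k + k3) := by clear * - b3 b7 b8 y16; omega
              have kk3270 : (i + l + m + k3 + 3) ≤ (n + 2 * i2) := by clear * - z245; omega
              have kk3271 : (n + 2 * i2) ≤ (k + l + k3 + 1) := by clear * - z247; omega
              have kk3272 : (Q + k) ≤ (2 * i + l + m + 2) := by clear * - z240; omega
              have kk3273 : (k) ≤ (i + l + m + 2) := by clear * - b2 v102 z240 z247; omega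
              have kk3274 : (k + l + 1) ≤ (n) := by clear * - b2 b3 b5 b7 b8 v102 z247; omega
              have kk3275 : (i2) ≤ (i) := by clear * - y17; omega
              have kk3276 : (i + k + l + m + k3 + 3) ≤ (n + Q + 2 * i2) := by clear * - v102; omega
              have kk3277 : (n + 2 * i2) ≤ (i + k + 2 * l + m + 3) := by clear * - b2 b3 b6 z240; omega
              have kk3278 : (i2) ≤ (m + 1) := by clear * - y10; omega
              have r3279 : (k + k3 - 2 * i - l - m - 2) % 2 = 0 := by clear * - ev n1p n2p n3p; omega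
              have r3280 : (n + 2 * i2 - i - l - m - k3 - 2) % 2 = 0 := by clear * - ev n1p n2p n3p; omega
              clear * - al b c2 D1 D2 n3 kk3267 kk3268 kk3269 kk3270 kk3271 kk3272 kk3273 kk3274 kk3275 kk3276 kk3277 kk3278 r3279 r3280
              exact n3.f1 (rEE (cE (pb b al 0 (i + l + m + 2) (2 * i + l + m - k + 2) (by omega)) (sh al (-1) (2 * i + l + m - k + 2) (2 * i + l + m - n - k + 2) (by omega))) (sh al (-1) (k3) (k3 - n) (by omega)) (rotL (k + k3 - 2 * i - l - m - 2) (n + 2 * i2 - i - l - m - k3 - 2) (2 * i + l + m - n - k + 2) (k3 - n) (by omega) (fun t h1 h2 => (cE (qf (show Par W (2 * i + l + m - k + 3) (i + l + 1) (k + k3 - 2 * i - l - m - 2) from fun t h1 h2 => (cE (sh al (-1) t (t + (-n)) (by omega)) (cE (qf b al (-1) (t + (-n)) (t + (k - i)) (by omega)) (qf D2 al 0 (t + (k - i)) (t + (k + k3 - 2 * i - l - m - 2)) (by omega))))) al (-1) t (t + (n + k + k3 -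 2 * i - l - m - 2)) (by omega)) (sh al (-1) (t + (n + k + k3 - 2 * i - l - m - 2)) (t + (k + k3 - 2 * i - l - m - 2)) (by omega)))) (fun t h1 h2 => (cE (cE (cE (qf D1 al (-1) t (t + (2 * n + i2 - m - k3 - 1)) (by omega)) (qf c2 al 0 (t + (2 * n + i2 - m - k3 - 1)) (t + (2 * n + 2 * i2 - k - l - m - k3 - 2)) (by omega))) (qf b al 0 (t + (2 * n + 2 * i2 - k - l - m - k3 - 2)) (t + (2 * n + 2 * i2 - i - l - m - k3 - 2)) (by omega))) (sh al (-1) (t + (2 * n + 2 * i2 - i - l - m - k3 - 2)) (t + (n + 2 * i2 - i - l - m - k3 - 2)) (by omega))))))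
          · have kk3281 : (n + 2 * i2) ≤ (k + l + m + k3 + 1) := by clear * - b3 b7 b8 y10 y16 z246; omega
            have kk3282 : (k + l + m + k3 + 3) ≤ (2 * n + 2 * i2) := by clear * - b2 b3 b6 z240 z245; omega
            have kk3283 : (k + l + m + k3 + 3) ≤ (n + Q + i2) := by clear * - b3 b6 z240 z247; omega
            have kk3284 : (Q + k + l + m + 2) ≤ (n + 2 * i2) := by clear * - b3 b4 b7 b8 b9 z246 z247; omega
            clear * - al c1 D1 kk3281 kk3282 kk3283 kk3284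
            exact al.ubQ (k + l + m + k3 - n - 2 * i2 + 2) (by omega) (by omega) fun t h1 h2 => (cE (sh al (-1) t (t + (-n)) (by omega)) (cE (qf c1 al (-1) (t + (-n)) (t + (k + l - i2 + 1)) (by omega)) (pb D1 al 0 (t + (k + l - i2 + 1)) (t + (k + l + m + k3 - n - 2 * i2 + 2)) (by omega))))
      · have kk3285 : (n + i + 2 * i2 + 1) ≤ (k + 2 * k3) := by clear * - b3 b7 b8 y16 z245; omega
        have kk3286 : (k + 2 * k3 + 1) ≤ (2 * n + i + 2 * i2) := by clear * - b1 b2 b3 b5 b6 b7 b8 b9; omega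
        have kk3287 : (Q + k + l + 1) ≤ (n + i2) := by clear * - b2 b4 b5 b6 b8 b9; omega
        have kk3288 : (k + 2 * k3 + 1) ≤ (n + Q + i + i2) := by clear * - b0 b1 b3 b4 b5 b7; omega
        have kk3289 : (m + 2 * k3 + 2) ≤ (n + Q + i2) := by clear * - b0 b1 b3 b4 b5 b7 b8 b9 z245; omega
        have kk3290 : (k3) ≤ (i + l + i2 + 1) := by clear * - b1 b2 b3 b4 b5 b7 b8; omega
        clear * - al c2 D1 D2 kk3285 kk3286 kk3287 kk3288 kk3289 kk3290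
        exact al.ubQ (k + 2 * k3 - n - i - 2 * i2) (by omega) (by omega) fun t h1 h2 => (cE (sh al 1 t (t + (n)) (by omega)) (cE (cE (pb c2 al 1 (t + (n)) (t + (k + l - i2 + 1)) (by omega)) (qf D2 al 0 (t + (k + l - i2 + 1)) (t + (k + k3 - i - i2 - m - 1)) (by omega))) (pb D1 al 0 (t + (k + k3 - i - i2 - m - 1)) (t + (k + 2 * k3 - n - i - 2 * i2)) (by omega))))

theorem h8_96p
    (h8_97 : ∀ {W : ℤ → G} {n Q i j k l i2 m k3 : ℤ} (al : AL W n Q) (hy : (0) ≤ (i) ∧ (i) ≤ (j) ∧ (j + 1) ≤ (Q) ∧ (Q) ≤ (k) ∧ (k + 1) ≤ (n) ∧ (Q) ≤ (i + l + 1) ∧ (k + l + 2) ≤ (n) ∧ (0) ≤ (i2) ∧ (i2 + 1) ≤ (Q) ∧ (Q + m + 1) ≤ (n + i2) ∧ (i2) ≤ (m) ∧ (Q) ≤ (i + l + m + 2) ∧ (i + l + m + 3) ≤ (n) ∧ (Q) ≤ (k3) ∧ (k3 + 1) ≤ (n) ∧ (i + m + 2) ≤ (k) ∧ (i) ≤ (i2) ∧ (i2) ≤ (i) ∧ (i + m + 2) ≤ (k3) ∧ (k3) ≤ (i + l + m + 1) ∧ (m + k3 + 2) ≤ (n + i2)) (a1 : Par W (0) (j) (k - j)) (a2 : Par W (Q + j - k) (j) (k - j)) (s1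 : Ant W (0) (i) (i + j)) (s2 : Ant W (j + 1) (Q) (i + j)) (b : Par W (i + 1) (i + l + 1) (k - i)) (c1 : Par W (i2 + 1) (Q) (k + l - i2 + 1)) (c2 : Par W (k + l + 2) (n) (i2 - k - l - 1)) (tt : Ant W (i2 - m) (i2) (i + l + i2 + 1)) (D1 : Par W (Q) (k3) (n + i2 - m - k3 - 1)) (D2 : Par W (i + l + m + 3) (n) (k3 - i - l - m - 2)) {L : ℤ} (mx : ∀ a b g, 0 < g → g < n → Par W a b g → b - a ≤ L) (hL : L ≤ (n - j - 3) ∧ L ≤ (n + Q - k - 3) ∧ L ≤ (n - l - 3) ∧ L ≤ (n + i - k - 2)) (bd0 : Bd W n L (j) (i) (k)) (n1 : Nd W (j) (i) (k)) (n2 : Nd W (i + l + 1) (i2) (k + l + 1)) (n3 : Nd W (n + i2 - m - 1) (i + l + m + 2) (k3)) (b0 : (2 * l + 3) ≤ (n)) (b1 : (2 * i + 2 * l + 3 * m + 5) ≤ (n + i2 + k3)) (b2 : (2 * i + j + 1) ≤ (k)) (b3 : (2 * Q + k + l) ≤ (n + 2 * j + i2)) (b4 : (m + k3) ≤ (i + l + 2 * i2 + 1)) (b5 : (1) ≤ (m)) (b6 : (i + l + i2 + m + 3) ≤ (Q + k3)) (b7 : (n + i2) ≤ (i + k + 2 * l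 + m + 2)) (b8 : (i + k) ≤ (2 * j + 1)) (b9 : (2 * k + l + 2) ≤ (n + j + i2)), False)
    (h8_106 : ∀ {W : ℤ → G} {n Q i j k l i2 m k3 : ℤ} (al : AL W n Q) (hy : (0) ≤ (i) ∧ (i) ≤ (j) ∧ (j + 1) ≤ (Q) ∧ (Q) ≤ (k) ∧ (k + 1) ≤ (n) ∧ (Q) ≤ (i + l + 1) ∧ (k + l + 2) ≤ (n) ∧ (0) ≤ (i2) ∧ (i2 + 1) ≤ (Q) ∧ (Q + m + 1) ≤ (n + i2) ∧ (i2) ≤ (m) ∧ (Q) ≤ (i + l + m + 2) ∧ (i + l + m + 3) ≤ (n) ∧ (Q) ≤ (k3) ∧ (k3 + 1) ≤ (n) ∧ (i + m + 2) ≤ (k) ∧ (i) ≤ (i2) ∧ (i2) ≤ (i) ∧ (i + m + 2) ≤ (k3) ∧ (k3) ≤ (i + l + m + 1) ∧ (m + k3 + 2) ≤ (n + i2)) (a1 : Par W (0) (j) (k - j)) (a2 : Par W (Q + j - k) (j) (k - j)) (s1 : Ant W (0) (i) (i + j)) (s2 : Ant W (j + 1) (Q) (i + j)) (b : Par W (i + 1) (i + l + 1) (k - i)) (c1 : Par W (i2 + 1) (Q) (k + l - i2 + 1)) (c2 : Par W (k + l + 2) (n) (i2 - k - l - 1)) (tt : Ant W (i2 - m) (i2) (i + l + i2 + 1)) (D1 : Par W (Q) (k3) (n + i2 - m - k3 - 1)) (D2 : Par W (i + l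 + m + 3) (n) (k3 - i - l - m - 2)) {L : ℤ} (mx : ∀ a b g, 0 < g → g < n → Par W a b g → b - a ≤ L) (hL : L ≤ (n - j - 3) ∧ L ≤ (n + Q - k - 3) ∧ L ≤ (n - l - 3) ∧ L ≤ (n + i - k - 2)) (bd0 : Bd W n L (j) (i) (k)) (n1 : Nd W (j) (i) (k)) (n2 : Nd W (i + l + 1) (i2) (k + l + 1)) (n3 : Nd W (n + i2 - m - 1) (i + l + m + 2) (k3)) (b0 : (2 * l + 3) ≤ (n)) (b1 : (2 * i + 2 * l + 3 * m + 5) ≤ (n + i2 + k3)) (b2 : (2 * i + j + 1) ≤ (k)) (b3 : (2 * Q + k + l) ≤ (n + 2 * j + i2)) (b4 : (m + k3) ≤ (i + l + 2 * i2 + 1)) (b5 : (1) ≤ (m)) (b6 : (i + l + i2 + m + 3) ≤ (Q + k3)) (b7 : (2 * k + l + 1) ≤ (n + j + i2)) (b8 : (i + k) ≤ (2 * j + 1)) (b9 : (n + j + i2) ≤ (2 * k + l + 1)), False)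
    {W : ℤ → G} {n Q i j k l i2 m k3 : ℤ} (al : AL W n Q)
    (hy : (0) ≤ (i) ∧ (i) ≤ (j) ∧ (j + 1) ≤ (Q) ∧ (Q) ≤ (k) ∧ (k + 1) ≤ (n) ∧ (Q) ≤ (i + l + 1) ∧ (k + l + 2) ≤ (n) ∧ (0) ≤ (i2) ∧ (i2 + 1) ≤ (Q) ∧ (Q + m + 1) ≤ (n + i2) ∧ (i2) ≤ (m) ∧ (Q) ≤ (i + l + m + 2) ∧ (i + l + m + 3) ≤ (n) ∧ (Q) ≤ (k3) ∧ (k3 + 1) ≤ (n) ∧ (i + m + 2) ≤ (k) ∧ (i) ≤ (i2) ∧ (i2) ≤ (i) ∧ (i + m + 2) ≤ (k3) ∧ (k3) ≤ (i + l + m + 1) ∧ (m + k3 + 2) ≤ (n + i2))
    (a1 : Par W (0) (j) (k - j))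
    (a2 : Par W (Q + j - k) (j) (k - j))
    (s1 : Ant W (0) (i) (i + j))
    (s2 : Ant W (j + 1) (Q) (i + j))
    (b : Par W (i + 1) (i + l + 1) (k - i))
    (c1 : Par W (i2 + 1) (Q) (k + l - i2 + 1))
    (c2 : Par W (k + l + 2) (n) (i2 - k - l - 1))
    (tt : Ant W (i2 - m) (i2) (i + l + i2 + 1))
    (D1 : Par W (Q) (k3) (n + i2 - m - k3 - 1))
    (D2 : Par W (i + l + m + 3) (n) (k3 - i - l - m - 2))
    {L : ℤ} (mx : ∀ a b g, 0 < g → g < n → Par W a b g → b - a ≤ L)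
    (hL : L ≤ (n - j - 3) ∧ L ≤ (n + Q - k - 3) ∧ L ≤ (n - l - 3) ∧ L ≤ (n + i - k - 2))
    (bd0 : Bd W n L (j) (i) (k))
    (n1 : Nd W (j) (i) (k))
    (n2 : Nd W (i + l + 1) (i2) (k + l + 1))
    (n3 : Nd W (n + i2 - m - 1) (i + l + m + 2) (k3))
    (b0 : (2 * l + 3) ≤ (n))
    (b1 : (2 * i + 2 * l + 3 * m + 5) ≤ (n + i2 + k3))
    (b2 : (2 * i + j + 1) ≤ (k))
    (b3 : (2 * Q + k + l) ≤ (n + 2 * j + i2))
    (b4 : (m + k3) ≤ (i + l + 2 * i2 + 1))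
    (b5 : (1) ≤ (m))
    (b6 : (i + l + i2 + m + 3) ≤ (Q + k3))
    (b7 : (2 * k + l + 1) ≤ (n + j + i2))
    (b8 : (n + i2) ≤ (i + k + 2 * l + m + 2))
    (b9 : (i + k) ≤ (2 * j + 1)) : False := by
  have ev := al.ev
  obtain ⟨y0, y1, y2, y3, y4, y5, y6, y7, y8, y9, y10, y11, y12, y13, y14, y15, y16, y17, y18, y19, y20⟩ := id hy
  have n1p := And.intro n1.p1 n1.p2
  have n2p := And.intro n2.p1 n2.p2
  have n3p := And.intro n3.p1 n3.p2
  by_cases z232 : (2 * k + l + 2) ≤ (n + j + i2)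
  · exact h8_97 al hy a1 a2 s1 s2 b c1 c2 tt D1 D2 mx hL bd0 n1 n2 n3 (by clear * - b0; omega) (by clear * - b1; omega) (by clear * - b2; omega) (by clear * - b3; omega) (by clear * - b4; omega) (by clear * - b5; omega) (by clear * - b6; omega) (by clear * - b8; omega) (by clear * - b9; omega) (by clear * - z232; omega)
  · exact h8_106 al hy a1 a2 s1 s2 b c1 c2 tt D1 D2 mx hL bd0 n1 n2 n3 (by clear * - b0; omega) (by clear * - b1; omega) (by clear * - b2; omega) (by clear * - b3; omega) (by clear * - b4; omega) (by clear * - b5; omega) (by clear * - b6; omega) (by clear * - b7; omega) (by clear * - b9; omega) (by clear * - z232; omega)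

theorem h8_20p
    (h8_21 : ∀ {W : ℤ → G} {n Q i j k l i2 m k3 : ℤ} (al : AL W n Q) (hy : (0) ≤ (i) ∧ (i) ≤ (j) ∧ (j + 1) ≤ (Q) ∧ (Q) ≤ (k) ∧ (k + 1) ≤ (n) ∧ (Q) ≤ (i + l + 1) ∧ (k + l + 2) ≤ (n) ∧ (0) ≤ (i2) ∧ (i2 + 1) ≤ (Q) ∧ (Q + m + 1) ≤ (n + i2) ∧ (i2) ≤ (m) ∧ (Q) ≤ (i + l + m + 2) ∧ (i + l + m + 3) ≤ (n) ∧ (Q) ≤ (k3) ∧ (k3 + 1) ≤ (n) ∧ (i + m + 2) ≤ (k) ∧ (i) ≤ (i2) ∧ (i2) ≤ (i) ∧ (i + m + 2) ≤ (k3) ∧ (k3) ≤ (i + l + m + 1) ∧ (m + k3 + 2) ≤ (n + i2)) (a1 : Par W (0) (j) (k - j)) (a2 : Par W (Q + j - k) (j) (k - j)) (s1 : Ant W (0) (i) (i + j)) (s2 : Ant W (j + 1) (Q) (i + j)) (b : Par W (i + 1) (i + l + 1) (k - i)) (c1 : Par W (i2 + 1) (Q) (k + l - i2 + 1)) (c2 : Par W (k + l + 2) (n) (i2 - k - l - 1)) (tt : Ant W (i2 - m) (i2) (i + l + i2 + 1)) (D1 : Par W (Q) (k3) (n + i2 - m - k3 - 1)) (D2 : Par W (i + l + m + 3) (n) (k3 - i - l - m - 2)) {L : ℤ} (mx : ∀ a b g, 0 < g → g <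 n → Par W a b g → b - a ≤ L) (hL : L ≤ (n - j - 3) ∧ L ≤ (n + Q - k - 3) ∧ L ≤ (n - l - 3) ∧ L ≤ (n + i - k - 2)) (bd0 : Bd W n L (j) (i) (k)) (n1 : Nd W (j) (i) (k)) (n2 : Nd W (i + l + 1) (i2) (k + l + 1)) (n3 : Nd W (n + i2 - m - 1) (i + l + m + 2) (k3)) (b0 : (2 * l + 3) ≤ (n)) (b1 : (2 * i + 2 * l + 3 * m + 5) ≤ (n + i2 + k3)) (b2 : (k + i2 + 1) ≤ (Q + j + m)) (b3 : (2 * i + j + 1) ≤ (k)) (b4 : (2 * Q + k + l) ≤ (n + 2 * j + i2)) (b5 : (m + k3) ≤ (i + l + 2 * i2 + 1)), False)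
    {W : ℤ → G} {n Q i j k l i2 m k3 : ℤ} (al : AL W n Q)
    (hy : (0) ≤ (i) ∧ (i) ≤ (j) ∧ (j + 1) ≤ (Q) ∧ (Q) ≤ (k) ∧ (k + 1) ≤ (n) ∧ (Q) ≤ (i + l + 1) ∧ (k + l + 2) ≤ (n) ∧ (0) ≤ (i2) ∧ (i2 + 1) ≤ (Q) ∧ (Q + m + 1) ≤ (n + i2) ∧ (i2) ≤ (m) ∧ (Q) ≤ (i + l + m + 2) ∧ (i + l + m + 3) ≤ (n) ∧ (Q) ≤ (k3) ∧ (k3 + 1) ≤ (n) ∧ (i + m + 2) ≤ (k) ∧ (i) ≤ (i2) ∧ (i2) ≤ (i) ∧ (i + m + 2) ≤ (k3) ∧ (k3) ≤ (i + l + m + 1) ∧ (m + k3 + 2) ≤ (n + i2))
    (a1 : Par W (0) (j) (k - j))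
    (a2 : Par W (Q + j - k) (j) (k - j))
    (s1 : Ant W (0) (i) (i + j))
    (s2 : Ant W (j + 1) (Q) (i + j))
    (b : Par W (i + 1) (i + l + 1) (k - i))
    (c1 : Par W (i2 + 1) (Q) (k + l - i2 + 1))
    (c2 : Par W (k + l + 2) (n) (i2 - k - l - 1))
    (tt : Ant W (i2 - m) (i2) (i + l + i2 + 1))
    (D1 : Par W (Q) (k3) (n + i2 - m - k3 - 1))
    (D2 : Par W (i + l + m + 3) (n) (k3 - i - l - m - 2))
    {L : ℤ} (mx : ∀ a b g, 0 < g → g < n → Par W a b g → b - a ≤ L)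
    (hL : L ≤ (n - j - 3) ∧ L ≤ (n + Q - k - 3) ∧ L ≤ (n - l - 3) ∧ L ≤ (n + i - k - 2))
    (bd0 : Bd W n L (j) (i) (k))
    (n1 : Nd W (j) (i) (k))
    (n2 : Nd W (i + l + 1) (i2) (k + l + 1))
    (n3 : Nd W (n + i2 - m - 1) (i + l + m + 2) (k3))
    (b0 : (2 * l + 3) ≤ (n))
    (b1 : (2 * i + 2 * l + 3 * m + 5) ≤ (n + i2 + k3))
    (b2 : (k + i2 + 1) ≤ (Q + j + m))
    (b3 : (2 * i + j + 1) ≤ (k))
    (b4 : (2 * Q + k + l) ≤ (n + 2 * j + i2)) : False := by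
  have ev := al.ev
  obtain ⟨y0, y1, y2, y3, y4, y5, y6, y7, y8, y9, y10, y11, y12, y13, y14, y15, y16, y17, y18, y19, y20⟩ := id hy
  have n1p := And.intro n1.p1 n1.p2
  have n2p := And.intro n2.p1 n2.p2
  have n3p := And.intro n3.p1 n3.p2
  by_cases z50 : (i + l + 2 * i2 + 2) ≤ (m + k3)
  · have kk683 : (k3) ≤ (i + l + m + 1) := by clear * - y19; omega
    have kk684 : (i + l + 2) ≤ (m + k3) := by clear * - y7 z50; omega
    have kk685 : (k3) ≤ (i + l + m) := by clear * - y19 ev n1p n2p n3p; omega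
    have kk686 : (i + l + 2 * i2 + 2) ≤ (m + k3) := by clear * - z50; omega
    have kk687 : (m + k3 + 1) ≤ (n + i2) := by clear * - y20; omega
    have kk688 : (i + l + m + 2) ≤ (n) := by clear * - b1 y20 z50; omega
    have r689 : (i + l + i2 - n + 1) % 2 = 0 := by clear * - ev n1p n2p n3p; omega
    have r690 : (i + l + m - k3 + 2) % 2 = 0 := by clear * - ev n1p n2p n3p; omega
    clear * - al tt D2 kk683 kk684 kk685 kk686 kk687 kk688 r689 r690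
    exact midP al (i + l + m - k3 + 2) (i + l + i2 - n + 1) (i2 - m) (k3 - n + 1) (0) (by omega) (fun t h1 h2 => (cE (qa tt al 0 t ((i + l + i2 + 1) - t) (by omega)) (sh al (-1) ((i + l + i2 + 1) - t) ((i + l + i2 - n + 1) - t) (by omega)))) (fun t h1 h2 => (cE (pb D2 al (-1) t (t + (n + i + l + m - k3 + 2)) (by omega)) (sh al (-1) (t + (n + i + l + m - k3 + 2)) (t + (i + l + m - k3 + 2)) (by omega))))
  · exact h8_21 al hy a1 a2 s1 s2 b c1 c2 tt D1 D2 mx hL bd0 n1 n2 n3 (by clear * - b0; omega) (by clear * - b1; omega) (by clear * - b2; omega) (by clear * - b3; omega) (by clear * - b4; omega) (by clear * - z50; omega)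

theorem h9_37p
    (h9_38 : ∀ {W : ℤ → G} {n Q i j k l i2 m k3 : ℤ} (al : AL W n Q) (hy : (0) ≤ (i) ∧ (i) ≤ (j) ∧ (j + 1) ≤ (Q) ∧ (Q) ≤ (k) ∧ (k + 1) ≤ (n) ∧ (Q) ≤ (i + l + 1) ∧ (k + l + 2) ≤ (n) ∧ (0) ≤ (i2) ∧ (i2 + 1) ≤ (Q) ∧ (Q + m + 1) ≤ (n + i2) ∧ (i2) ≤ (m) ∧ (Q) ≤ (i + l + m + 2) ∧ (i + l + m + 3) ≤ (n) ∧ (Q) ≤ (k3) ∧ (k3 + 1) ≤ (n) ∧ (i + m + 2) ≤ (k) ∧ (i) ≤ (i2) ∧ (i2) ≤ (i) ∧ (i + m + 1) ≤ (k3) ∧ (k3) ≤ (i + m + 1) ∧ (k3) ≤ (i + l + m + 1) ∧ (m + k3 + 2) ≤ (n + i2)) (a1 : Par W (0) (j) (k - j)) (a2 : Par W (Q + j - k) (j) (k - j)) (s1 : Ant W (0) (i) (i + j)) (s2 : Ant W (j + 1) (Q) (i + j)) (b : Par W (i + 1) (i + l + 1) (k - i)) (c1 : Par W (i2 + 1) (Q) (k + l - i2 + 1)) (c2 : Par W (k + l + 2) (n) (i2 - k - l - 1)) (tt : Ant W (i2 - m) (i2) (i + l + i2 + 1)) (D1 : Par W (Q) (k3) (n + i2 - m - k3 - 1)) (D2 : Par W (i + l + m + 3) (n) (k3 - i - l - m - 2)) {L : ℤ} (mx :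 ∀ a b g, 0 < g → g < n → Par W a b g → b - a ≤ L) (hL : L ≤ (n - j - 3) ∧ L ≤ (n + Q - k - 3) ∧ L ≤ (n - l - 3) ∧ L ≤ (n + i - k - 2)) (bd0 : Bd W n L (j) (i) (k)) (n1 : Nd W (j) (i) (k)) (n2 : Nd W (i + l + 1) (i2) (k + l + 1)) (n3 : Nd W (n + i2 - m - 1) (i + l + m + 2) (k3)) (d1 : ℤ) (q1 : d1 % 2 = 0) (x1 : Par W (i + 1) (k + l - d1 + 1) d1) (b0 : (i + l + 1) ≤ (k + d1)) (b1 : (d1) ≤ (l)) (b2 : (0) ≤ (d1)) (b3 : (k + 2 * l + 3) ≤ (n + i + d1)) (b4 : (2 * i + j + 1) ≤ (k)) (b5 : (n + i2) ≤ (i + k + 2 * l + 2)) (b6 : (2 * i + 2 * l + 3 * m + 4) ≤ (n + i2 + k3)) (b7 : (k + i2) ≤ (i + j + l + 1)) (b8 : (k) ≤ (i + 2 * j)), False)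
    (h9_39 : ∀ {W : ℤ → G} {n Q i j k l i2 m k3 : ℤ} (al : AL W n Q) (hy : (0) ≤ (i) ∧ (i) ≤ (j) ∧ (j + 1) ≤ (Q) ∧ (Q) ≤ (k) ∧ (k + 1) ≤ (n) ∧ (Q) ≤ (i + l + 1) ∧ (k + l + 2) ≤ (n) ∧ (0) ≤ (i2) ∧ (i2 + 1) ≤ (Q) ∧ (Q + m + 1) ≤ (n + i2) ∧ (i2) ≤ (m) ∧ (Q) ≤ (i + l + m + 2) ∧ (i + l + m + 3) ≤ (n) ∧ (Q) ≤ (k3) ∧ (k3 + 1) ≤ (n) ∧ (i + m + 2) ≤ (k) ∧ (i) ≤ (i2) ∧ (i2) ≤ (i) ∧ (i + m + 1) ≤ (k3) ∧ (k3) ≤ (i + m + 1) ∧ (k3) ≤ (i + l + m + 1) ∧ (m + k3 + 2) ≤ (n + i2)) (a1 : Par W (0) (j) (k - j)) (a2 : Par W (Q + j - k) (j) (k - j)) (s1 : Ant W (0) (i) (i + j)) (s2 : Ant W (j + 1) (Q) (i + j)) (b : Par W (i + 1) (i + l + 1) (k - i)) (c1 : Par W (i2 + 1) (Q) (k + l - i2 + 1)) (c2 : Par W (k + l + 2) (n) (i2 - k - l - 1)) (tt : Ant W (i2 - m) (i2) (i + l + i2 + 1)) (D1 : Par W (Q) (k3) (n + i2 - m - k3 - 1)) (D2 : Par W (i + l + m + 3) (n) (k3 - i - l - m - 2)) {L : ℤ} (mx : ∀ a b g, 0 < g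 → g < n → Par W a b g → b - a ≤ L) (hL : L ≤ (n - j - 3) ∧ L ≤ (n + Q - k - 3) ∧ L ≤ (n - l - 3) ∧ L ≤ (n + i - k - 2)) (bd0 : Bd W n L (j) (i) (k)) (n1 : Nd W (j) (i) (k)) (n2 : Nd W (i + l + 1) (i2) (k + l + 1)) (n3 : Nd W (n + i2 - m - 1) (i + l + m + 2) (k3)) (d1 : ℤ) (q1 : d1 % 2 = 0) (x1 : Par W (i + 1) (k + l - d1 + 1) d1) (b0 : (i + l + 1) ≤ (k + d1)) (b1 : (d1) ≤ (l)) (b2 : (0) ≤ (d1)) (b3 : (k + 2 * l + 3) ≤ (n + i + d1)) (b4 : (n + i2) ≤ (i + k + 2 * l + 2)) (b5 : (i + k + 2 * m) ≤ (2 * j + 2 * k3)) (b6 : (i + i2 + m + 2) ≤ (j + k3)) (b7 : (2 * i + 2 * l + 3 * m + 4) ≤ (n + i2 + k3)) (b8 : (k + i2) ≤ (i + j + l + 1)) (b9 : (i + 2 * j + 1) ≤ (k)), False)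
    {W : ℤ → G} {n Q i j k l i2 m k3 : ℤ} (al : AL W n Q)
    (hy : (0) ≤ (i) ∧ (i) ≤ (j) ∧ (j + 1) ≤ (Q) ∧ (Q) ≤ (k) ∧ (k + 1) ≤ (n) ∧ (Q) ≤ (i + l + 1) ∧ (k + l + 2) ≤ (n) ∧ (0) ≤ (i2) ∧ (i2 + 1) ≤ (Q) ∧ (Q + m + 1) ≤ (n + i2) ∧ (i2) ≤ (m) ∧ (Q) ≤ (i + l + m + 2) ∧ (i + l + m + 3) ≤ (n) ∧ (Q) ≤ (k3) ∧ (k3 + 1) ≤ (n) ∧ (i + m + 2) ≤ (k) ∧ (i) ≤ (i2) ∧ (i2) ≤ (i) ∧ (i + m + 1) ≤ (k3) ∧ (k3) ≤ (i + m + 1) ∧ (k3) ≤ (i + l + m + 1) ∧ (m + k3 + 2) ≤ (n + i2))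
    (a1 : Par W (0) (j) (k - j))
    (a2 : Par W (Q + j - k) (j) (k - j))
    (s1 : Ant W (0) (i) (i + j))
    (s2 : Ant W (j + 1) (Q) (i + j))
    (b : Par W (i + 1) (i + l + 1) (k - i))
    (c1 : Par W (i2 + 1) (Q) (k + l - i2 + 1))
    (c2 : Par W (k + l + 2) (n) (i2 - k - l - 1))
    (tt : Ant W (i2 - m) (i2) (i + l + i2 + 1))
    (D1 : Par W (Q) (k3) (n + i2 - m - k3 - 1))
    (D2 : Par W (i + l + m + 3) (n) (k3 - i - l - m - 2))
    {L : ℤ} (mx : ∀ a b g, 0 < g → g < n → Par W a b g → b - a ≤ L)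
    (hL : L ≤ (n - j - 3) ∧ L ≤ (n + Q - k - 3) ∧ L ≤ (n - l - 3) ∧ L ≤ (n + i - k - 2))
    (bd0 : Bd W n L (j) (i) (k))
    (n1 : Nd W (j) (i) (k))
    (n2 : Nd W (i + l + 1) (i2) (k + l + 1))
    (n3 : Nd W (n + i2 - m - 1) (i + l + m + 2) (k3))
    (d1 : ℤ) (q1 : d1 % 2 = 0) (x1 : Par W (i + 1) (k + l - d1 + 1) d1)
    (b0 : (i + l + 1) ≤ (k + d1))
    (b1 : (d1) ≤ (l))
    (b2 : (0) ≤ (d1))
    (b3 : (k + 2 * l + 3) ≤ (n + i + d1))
    (b4 : (2 * i + j + 1) ≤ (k))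
    (b5 : (n + i2) ≤ (i + k + 2 * l + 2))
    (b6 : (i + k + 2 * m) ≤ (2 * j + 2 * k3))
    (b7 : (i + i2 + m + 2) ≤ (j + k3))
    (b8 : (2 * i + 2 * l + 3 * m + 4) ≤ (n + i2 + k3))
    (b9 : (k + i2) ≤ (i + j + l + 1)) : False := by
  have ev := al.ev
  obtain ⟨y0, y1, y2, y3, y4, y5, y6, y7, y8, y9, y10, y11, y12, y13, y14, y15, y16, y17, y18, y19, y20, y21⟩ := id hy
  have n1p := And.intro n1.p1 n1.p2
  have n2p := And.intro n2.p1 n2.p2
  have n3p := And.intro n3.p1 n3.p2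
  by_cases z70 : (k) ≤ (i + 2 * j)
  · exact h9_38 al hy a1 a2 s1 s2 b c1 c2 tt D1 D2 mx hL bd0 n1 n2 n3 d1 q1 x1 (by clear * - b0; omega) (by clear * - b1; omega) (by clear * - b2; omega) (by clear * - b3; omega) (by clear * - b4; omega) (by clear * - b5; omega) (by clear * - b8; omega) (by clear * - b9; omega) (by clear * - z70; omega)
  · exact h9_39 al hy a1 a2 s1 s2 b c1 c2 tt D1 D2 mx hL bd0 n1 n2 n3 d1 q1 x1 (by clear * - b0; omega) (by clear * - b1; omega) (by clear * - b2; omega) (by clear * - b3; omega) (by clear * - b5; omega) (by clear * - b6; omega) (by clear * - b7; omega) (by clear * - b8; omega) (by clear * - b9; omega) (by clear * - z70; omega)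

theorem h9_45p
    (h9_46 : ∀ {W : ℤ → G} {n Q i j k l i2 m k3 : ℤ} (al : AL W n Q) (hy : (0) ≤ (i) ∧ (i) ≤ (j) ∧ (j + 1) ≤ (Q) ∧ (Q) ≤ (k) ∧ (k + 1) ≤ (n) ∧ (Q) ≤ (i + l + 1) ∧ (k + l + 2) ≤ (n) ∧ (0) ≤ (i2) ∧ (i2 + 1) ≤ (Q) ∧ (Q + m + 1) ≤ (n + i2) ∧ (i2) ≤ (m) ∧ (Q) ≤ (i + l + m + 2) ∧ (i + l + m + 3) ≤ (n) ∧ (Q) ≤ (k3) ∧ (k3 + 1) ≤ (n) ∧ (i + m + 2) ≤ (k) ∧ (i) ≤ (i2) ∧ (i2) ≤ (i) ∧ (i + m + 1) ≤ (k3) ∧ (k3) ≤ (i + m + 1) ∧ (k3) ≤ (i + l + m + 1) ∧ (m + k3 + 2) ≤ (n + i2)) (a1 : Par W (0) (j) (k - j)) (a2 : Par W (Q + j - k) (j) (k - j)) (s1 : Ant W (0) (i) (i + j)) (s2 : Ant W (j + 1) (Q) (i + j)) (b : Par W (i + 1) (i + l + 1) (k - i)) (c1 : Par W (i2 + 1) (Q) (k + l - i2 + 1)) (c2 : Par W (k + l + 2) (n) (i2 - k - l - 1)) (tt : Ant W (i2 - m) (i2) (i + l + i2 + 1)) (D1 : Par W (Q) (k3) (n + i2 - m - k3 - 1)) (D2 : Par W (i + l + m + 3) (n) (k3 - i - l - m - 2)) {L : ℤ} (mx :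 ∀ a b g, 0 < g → g < n → Par W a b g → b - a ≤ L) (hL : L ≤ (n - j - 3) ∧ L ≤ (n + Q - k - 3) ∧ L ≤ (n - l - 3) ∧ L ≤ (n + i - k - 2)) (bd0 : Bd W n L (j) (i) (k)) (n1 : Nd W (j) (i) (k)) (n2 : Nd W (i + l + 1) (i2) (k + l + 1)) (n3 : Nd W (n + i2 - m - 1) (i + l + m + 2) (k3)) (d1 : ℤ) (q1 : d1 % 2 = 0) (x1 : Par W (i + 1) (k + l - d1 + 1) d1) (b0 : (i + l + 1) ≤ (k + d1)) (b1 : (d1) ≤ (l)) (b2 : (k + 2 * l + 3) ≤ (n + i + d1)) (b3 : (2 * l + 3) ≤ (n)) (b4 : (k + 2 * m + 1) ≤ (n + j)) (b5 : (2 * j + 2 * k3 + 1) ≤ (i + k + 2 * m)) (b6 : (n + k3) ≤ (2 * i + 2 * l + i2 + m + 4)) (b7 : (2 * Q + k + l + 1) ≤ (n + i + j + i2)) (b8 : (i + l + 2 * m + 3) ≤ (n + i2)), False)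
    {W : ℤ → G} {n Q i j k l i2 m k3 : ℤ} (al : AL W n Q)
    (hy : (0) ≤ (i) ∧ (i) ≤ (j) ∧ (j + 1) ≤ (Q) ∧ (Q) ≤ (k) ∧ (k + 1) ≤ (n) ∧ (Q) ≤ (i + l + 1) ∧ (k + l + 2) ≤ (n) ∧ (0) ≤ (i2) ∧ (i2 + 1) ≤ (Q) ∧ (Q + m + 1) ≤ (n + i2) ∧ (i2) ≤ (m) ∧ (Q) ≤ (i + l + m + 2) ∧ (i + l + m + 3) ≤ (n) ∧ (Q) ≤ (k3) ∧ (k3 + 1) ≤ (n) ∧ (i + m + 2) ≤ (k) ∧ (i) ≤ (i2) ∧ (i2) ≤ (i) ∧ (i + m + 1) ≤ (k3) ∧ (k3) ≤ (i + m + 1) ∧ (k3) ≤ (i + l + m + 1) ∧ (m + k3 + 2) ≤ (n + i2))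
    (a1 : Par W (0) (j) (k - j))
    (a2 : Par W (Q + j - k) (j) (k - j))
    (s1 : Ant W (0) (i) (i + j))
    (s2 : Ant W (j + 1) (Q) (i + j))
    (b : Par W (i + 1) (i + l + 1) (k - i))
    (c1 : Par W (i2 + 1) (Q) (k + l - i2 + 1))
    (c2 : Par W (k + l + 2) (n) (i2 - k - l - 1))
    (tt : Ant W (i2 - m) (i2) (i + l + i2 + 1))
    (D1 : Par W (Q) (k3) (n + i2 - m - k3 - 1))
    (D2 : Par W (i + l + m + 3) (n) (k3 - i - l - m - 2))
    {L : ℤ} (mx : ∀ a b g, 0 < g → g < n → Par W a b g → b - a ≤ L)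
    (hL : L ≤ (n - j - 3) ∧ L ≤ (n + Q - k - 3) ∧ L ≤ (n - l - 3) ∧ L ≤ (n + i - k - 2))
    (bd0 : Bd W n L (j) (i) (k))
    (n1 : Nd W (j) (i) (k))
    (n2 : Nd W (i + l + 1) (i2) (k + l + 1))
    (n3 : Nd W (n + i2 - m - 1) (i + l + m + 2) (k3))
    (d1 : ℤ) (q1 : d1 % 2 = 0) (x1 : Par W (i + 1) (k + l - d1 + 1) d1)
    (b0 : (i + l + 1) ≤ (k + d1))
    (b1 : (d1) ≤ (l))
    (b2 : (k + 2 * l + 3) ≤ (n + i + d1))
    (b3 : (2 * l + 3) ≤ (n))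
    (b4 : (k + 2 * m + 1) ≤ (n + j))
    (b5 : (2 * j + 2 * k3 + 1) ≤ (i + k + 2 * m))
    (b6 : (n + k3) ≤ (2 * i + 2 * l + i2 + m + 4))
    (b7 : (2 * Q + k + l + 1) ≤ (n + i + j + i2)) : False := by
  have ev := al.ev
  obtain ⟨y0, y1, y2, y3, y4, y5, y6, y7, y8, y9, y10, y11, y12, y13, y14, y15, y16, y17, y18, y19, y20, y21⟩ := id hy
  have n1p := And.intro n1.p1 n1.p2
  have n2p := And.intro n2.p1 n2.p2
  have n3p := And.intro n3.p1 n3.p2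
  by_cases z91 : (n + i2) ≤ (i + l + 2 * m + 2)
  · have kk1001 : (i + l + 3) ≤ (n + i2) := by clear * - b0 b1 b2 y16; omega
    have kk1002 : (n + i2) ≤ (i + l + 2 * m + 2) := by clear * - z91; omega
    have r1003 : (3 * n + i + l + i2 + 1) % 2 = 0 := by clear * - ev n1p n2p n3p q1; omega
    clear * - al tt kk1001 kk1002 r1003
    obtain ⟨t, ht⟩ : ∃ t, 2 * t = (3 * n + i + l + i2 + 1) := ⟨(3 * n + i + l + i2 + 1) / 2, by omega⟩
    exact al.ninv t (cE (ab tt al 1 t ((n + i + l + i2 + 1) - t) (by omega)) (sh al 2 ((n + i + l + i2 + 1) - t) t (by omega)))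
  · exact h9_46 al hy a1 a2 s1 s2 b c1 c2 tt D1 D2 mx hL bd0 n1 n2 n3 d1 q1 x1 (by clear * - b0; omega) (by clear * - b1; omega) (by clear * - b2; omega) (by clear * - b3; omega) (by clear * - b4; omega) (by clear * - b5; omega) (by clear * - b6; omega) (by clear * - b7; omega) (by clear * - z91; omega)

theorem h9_42p
    (h9_43 : ∀ {W : ℤ → G} {n Q i j k l i2 m k3 : ℤ} (al : AL W n Q) (hy : (0) ≤ (i) ∧ (i) ≤ (j) ∧ (j + 1) ≤ (Q) ∧ (Q) ≤ (k) ∧ (k + 1) ≤ (n) ∧ (Q) ≤ (i + l + 1) ∧ (k + l + 2) ≤ (n) ∧ (0) ≤ (i2) ∧ (i2 + 1) ≤ (Q) ∧ (Q + m + 1) ≤ (n + i2) ∧ (i2) ≤ (m) ∧ (Q) ≤ (i + l + m + 2) ∧ (i + l + m + 3) ≤ (n) ∧ (Q) ≤ (k3) ∧ (k3 + 1) ≤ (n) ∧ (i + m + 2) ≤ (k) ∧ (i) ≤ (i2) ∧ (i2) ≤ (i) ∧ (i + m + 1) ≤ (k3) ∧ (k3) ≤ (i + m + 1) ∧ (k3) ≤ (i + l + m + 1) ∧ (m + k3 + 2) ≤ (n + i2)) (a1 : Par W (0) (j) (k - j)) (a2 : Par W (Q + j - k) (j) (k - j)) (s1 : Ant W (0) (i) (i + j)) (s2 : Ant W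 (j + 1) (Q) (i + j)) (b : Par W (i + 1) (i + l + 1) (k - i)) (c1 : Par W (i2 + 1) (Q) (k + l - i2 + 1)) (c2 : Par W (k + l + 2) (n) (i2 - k - l - 1)) (tt : Ant W (i2 - m) (i2) (i + l + i2 + 1)) (D1 : Par W (Q) (k3) (n + i2 - m - k3 - 1)) (D2 : Par W (i + l + m + 3) (n) (k3 - i - l - m - 2)) {L : ℤ} (mx : ∀ a b g, 0 < g → g < n → Par W a b g → b - a ≤ L) (hL : L ≤ (n - j - 3) ∧ L ≤ (n + Q - k - 3) ∧ L ≤ (n - l - 3) ∧ L ≤ (n + i - k - 2)) (bd0 : Bd W n L (j) (i) (k)) (n1 : Nd W (j) (i) (k)) (n2 : Nd W (i + l + 1) (i2) (k + l + 1)) (n3 : Nd W (n + i2 - m - 1) (i + l + m + 2) (k3)) (d1 : ℤ) (q1 : d1 % 2 = 0) (x1 : Par W (i + 1) (k + l - d1 + 1) d1) (b0 : (i + l + 1) ≤ (k + d1)) (b1 : (d1) ≤ (l)) (b2 : (k + 2 * l + 3) ≤ (n + i + d1)) (b3 : (2 * l + 3) ≤ (n)) (b4 : (k + 2 * m + 1) ≤ (n + j)) (b5 : (2 * j + 2 * k3 + 1) ≤ (i + k + 2 * m)) (b6 : (n + k3) ≤ (2 * i + 2 * l + i2 + m + 4)), False)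
    {W : ℤ → G} {n Q i j k l i2 m k3 : ℤ} (al : AL W n Q)
    (hy : (0) ≤ (i) ∧ (i) ≤ (j) ∧ (j + 1) ≤ (Q) ∧ (Q) ≤ (k) ∧ (k + 1) ≤ (n) ∧ (Q) ≤ (i + l + 1) ∧ (k + l + 2) ≤ (n) ∧ (0) ≤ (i2) ∧ (i2 + 1) ≤ (Q) ∧ (Q + m + 1) ≤ (n + i2) ∧ (i2) ≤ (m) ∧ (Q) ≤ (i + l + m + 2) ∧ (i + l + m + 3) ≤ (n) ∧ (Q) ≤ (k3) ∧ (k3 + 1) ≤ (n) ∧ (i + m + 2) ≤ (k) ∧ (i) ≤ (i2) ∧ (i2) ≤ (i) ∧ (i + m + 1) ≤ (k3) ∧ (k3) ≤ (i + m + 1) ∧ (k3) ≤ (i + l + m + 1) ∧ (m + k3 + 2) ≤ (n + i2))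
    (a1 : Par W (0) (j) (k - j))
    (a2 : Par W (Q + j - k) (j) (k - j))
    (s1 : Ant W (0) (i) (i + j))
    (s2 : Ant W (j + 1) (Q) (i + j))
    (b : Par W (i + 1) (i + l + 1) (k - i))
    (c1 : Par W (i2 + 1) (Q) (k + l - i2 + 1))
    (c2 : Par W (k + l + 2) (n) (i2 - k - l - 1))
    (tt : Ant W (i2 - m) (i2) (i + l + i2 + 1))
    (D1 : Par W (Q) (k3) (n + i2 - m - k3 - 1))
    (D2 : Par W (i + l + m + 3) (n) (k3 - i - l - m - 2))
    {L : ℤ} (mx : ∀ a b g, 0 < g → g < n → Par W a b g → b - a ≤ L)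
    (hL : L ≤ (n - j - 3) ∧ L ≤ (n + Q - k - 3) ∧ L ≤ (n - l - 3) ∧ L ≤ (n + i - k - 2))
    (bd0 : Bd W n L (j) (i) (k))
    (n1 : Nd W (j) (i) (k))
    (n2 : Nd W (i + l + 1) (i2) (k + l + 1))
    (n3 : Nd W (n + i2 - m - 1) (i + l + m + 2) (k3))
    (d1 : ℤ) (q1 : d1 % 2 = 0) (x1 : Par W (i + 1) (k + l - d1 + 1) d1)
    (b0 : (i + l + 1) ≤ (k + d1))
    (b1 : (d1) ≤ (l))
    (b2 : (0) ≤ (d1))
    (b3 : (k + 2 * l + 3) ≤ (n + i + d1))
    (b4 : (n + i2) ≤ (i + k + 2 * l + 2))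
    (b5 : (2 * l + 3) ≤ (n))
    (b6 : (k + 2 * m + 1) ≤ (n + j))
    (b7 : (2 * j + 2 * k3 + 1) ≤ (i + k + 2 * m))
    (b8 : (2 * k + 3) ≤ (n + 2 * Q))
    (b9 : (n + i2 + k3) ≤ (2 * i + 2 * l + 3 * m + 4)) : False := by
  have ev := al.ev
  obtain ⟨y0, y1, y2, y3, y4, y5, y6, y7, y8, y9, y10, y11, y12, y13, y14, y15, y16, y17, y18, y19, y20, y21⟩ := id hy
  have n1p := And.intro n1.p1 n1.p2
  have n2p := And.intro n2.p1 n2.p2
  have n3p := And.intro n3.p1 n3.p2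
  by_cases z87 : (2 * i + 2 * l + i2 + m + 5) ≤ (n + k3)
  · by_cases v26 : (n + i2) ≤ (i + l + 2 * m + 3)
    · have kk970 : (2 * i + 2 * l + i2 + m + 5) ≤ (n + k3) := by clear * - z87; omega
      have kk971 : (m + k3 + 2) ≤ (n + i2) := by clear * - y21; omega
      have kk972 : (0) ≤ (i2) := by clear * - y7; omega
      have kk973 : (n + i2) ≤ (i + l + 2 * m + 3) := by clear * - v26; omega
      have r974 : (3 * n + i2 + k3 - m - 1) % 2 = 0 := by clear * - ev n1p n2p n3p q1; omega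
      clear * - al tt D2 kk970 kk971 kk972 kk973 r974
      obtain ⟨t, ht⟩ : ∃ t, 2 * t = (3 * n + i2 + k3 - m - 1) := ⟨(3 * n + i2 + k3 - m - 1) / 2, by omega⟩
      exact al.ninv t (cE (cE (ab tt al 1 t ((n + i + l + i2 + 1) - t) (by omega)) (qf D2 al (-1) ((n + i + l + i2 + 1) - t) ((2 * n + i2 + k3 - m - 1) - t) (by omega))) (sh al 1 ((2 * n + i2 + k3 - m - 1) - t) t (by omega)))
    · have kk975 : (2 * i + 2 * l + i2 + m + 5) ≤ (n + k3) := by clear * - z87; omega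
      have kk976 : (n + i2 + k3) ≤ (2 * i + 2 * l + 3 * m + 4) := by clear * - b9; omega
      have kk977 : (0) ≤ (i2) := by clear * - y7; omega
      have kk978 : (i + l + 2 * m + 3) ≤ (n + i2) := by clear * - v26; omega
      have r979 : (3 * n + i2 + k3 - m - 1) % 2 = 0 := by clear * - ev n1p n2p n3p q1; omega
      clear * - al tt D2 kk975 kk976 kk977 kk978 r979
      obtain ⟨t, ht⟩ : ∃ t, 2 * t = (3 * n + i2 + k3 - m - 1) := ⟨(3 * n + i2 + k3 - m - 1) / 2, by omega⟩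
      exact al.ninv t (cE (cE (ab tt al 1 t ((n + i + l + i2 + 1) - t) (by omega)) (qf D2 al (-1) ((n + i + l + i2 + 1) - t) ((2 * n + i2 + k3 - m - 1) - t) (by omega))) (sh al 1 ((2 * n + i2 + k3 - m - 1) - t) t (by omega)))
  · exact h9_43 al hy a1 a2 s1 s2 b c1 c2 tt D1 D2 mx hL bd0 n1 n2 n3 d1 q1 x1 (by clear * - b0; omega) (by clear * - b1; omega) (by clear * - b3; omega) (by clear * - b5; omega) (by clear * - b6; omega) (by clear * - b7; omega) (by clear * - z87; omega)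

end Pool.Agent.MP_a38735_al.WL
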