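import Pool.Agent.MP_a38735_al.WT

set_option autoImplicit false
set_option linter.unusedVariables false

namespace Pool.Agent.MP_a38735_al.WL

variable {G : Type*} [Group G]

theorem ev7_12p
    {W : ℤ → G} {n Q i j k l i2 m k3 : ℤ} (al : AL W n Q)
    (hy : (0) ≤ (i) ∧ (i) ≤ (j) ∧ (j + 1) ≤ (Q) ∧ (Q) ≤ (k) ∧ (k + 1) ≤ (n) ∧ (Q) ≤ (i + l + 1) ∧ (k + l + 2) ≤ (n) ∧ (0) ≤ (i2) ∧ (i2 + 1) ≤ (Q) ∧ (Q + m + 1) ≤ (n + i2) ∧ (i2) ≤ (m) ∧ (Q) ≤ (i + l + m + 2) ∧ (i + l + m + 3) ≤ (n) ∧ (Q) ≤ (k3) ∧ (k3 + 1) ≤ (n) ∧ (i + m + 2) ≤ (k) ∧ (i) ≤ (i2) ∧ (i2) ≤ (i) ∧ (k3) ≤ (i + m))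
    (a1 : Par W (0) (j) (k - j))
    (a2 : Par W (Q + j - k) (j) (k - j))
    (s1 : Ant W (0) (i) (i + j))
    (s2 : Ant W (j + 1) (Q) (i + j))
    (b : Par W (i + 1) (i + l + 1) (k - i))
    (c1 : Par W (i2 + 1) (Q) (k + l - i2 + 1))
    (c2 : Par W (k + l + 2) (n) (i2 - k - l - 1))
    (tt : Ant W (i2 - m) (i2) (i + l + i2 + 1))
    (D1 : Par W (Q) (k3) (n + i2 - m - k3 - 1))
    (D2 : Par W (i + l + m + 3) (n) (k3 - i - l - m - 2))
    {L : ℤ} (mx : ∀ a b g, 0 < g → g < n → Par W a b g → b - a ≤ L)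
    (hL : L ≤ (n - j - 3) ∧ L ≤ (n + Q - k - 3) ∧ L ≤ (n - l - 3) ∧ L ≤ (n + i - k - 2))
    (bd0 : Bd W n L (j) (i) (k))
    (n1 : Nd W (j) (i) (k))
    (n2 : Nd W (i + l + 1) (i2) (k + l + 1))
    (n3 : Nd W (n + i2 - m - 1) (i + l + m + 2) (k3))
    (b0 : (i + l + 2 * m + 2) ≤ (n + i2))
    (b1 : (2 * i + j + 1) ≤ (k))
    (b2 : (2 * l + 3) ≤ (n))
    (b3 : (k + i2) ≤ (i + j + l + 1))
    (b4 : (n + k3) ≤ (2 * i + 2 * l + i2 + m + 4))
    (b5 : (i + k + l + m + 3) ≤ (n + k3))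
    (b6 : (2 * Q + k + l + 1) ≤ (n + i + j + i2)) : False := by
  have ev := al.ev
  obtain ⟨y0, y1, y2, y3, y4, y5, y6, y7, y8, y9, y10, y11, y12, y13, y14, y15, y16, y17, y18⟩ := id hy
  have n1p := And.intro n1.p1 n1.p2
  have n2p := And.intro n2.p1 n2.p2
  have n3p := And.intro n3.p1 n3.p2
  by_cases z29 : (2 * i + 2 * l + 3) ≤ (n)
  · by_cases z30 : (n + 2 * i2) ≤ (2 * i + 2 * l + 2 * m + 2)
    · by_cases v27 : (k + l + m + 2) ≤ (n + i2)
      · by_cases v28 : (i + k + 2 * l + 2) ≤ (n + i2)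
        · have kk480 : (n + 2 * i2) ≤ (2 * i + 2 * l + 2 * m + 2) := by clear * - z30; omega
          have kk481 : (n + 2 * i2) ≤ (2 * k + 2 * l + 1) := by clear * - y15 z30; omega
          have kk482 : (i + k + l + m + 2) ≤ (n + 2 * i2) := by clear * - v27 y16; omega
          have kk483 : (k + l + m + 2) ≤ (n + i2) := by clear * - v27; omega
          have kk484 : (i + k + 2 * l + 2) ≤ (n + i2) := by clear * - v28; omega
          have kk485 : (i + k + 2 * l + 2) ≤ (n + 2 * i2) := by clear * - b4 v28 y13 y15 y8; omega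
          have r486 : (2 * i2 - n) % 2 = 0 := by clear * - ev n1p n2p n3p; omega
          clear * - al b c2 tt kk480 kk481 kk482 kk483 kk484 kk485 r486
          obtain ⟨t, ht⟩ : ∃ t, 2 * t = (2 * i2 - n) := ⟨(2 * i2 - n) / 2, by omega⟩
          exact al.ninv t (cE (cI (cE (pb b al (-1) t (t + (n + i - k)) (by omega)) (pb c2 al 0 (t + (n + i - k)) (t + (n + i + l - i2 + 1)) (by omega))) (qa tt al 1 (t + (n + i + l - i2 + 1)) ((2 * i2) - t) (by omega))) (sh al (-1) ((2 * i2) - t) t (by omega)))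
        · have kk487 : (n + 2 * i2) ≤ (2 * i + 2 * l + 2 * m + 2) := by clear * - z30; omega
          have kk488 : (2 * i + 2 * l + 3) ≤ (n) := by clear * - z29; omega
          have kk489 : (i + k + l + m + 2) ≤ (n + 2 * i2) := by clear * - v27 y16; omega
          have kk490 : (k + l + m + 2) ≤ (n + i2) := by clear * - v27; omega
          have kk491 : (0) ≤ (i2) := by clear * - y7; omega
          have kk492 : (n + i2) ≤ (i + k + 2 * l + 2) := by clear * - v28; omega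
          have r493 : (2 * i2 - n) % 2 = 0 := by clear * - ev n1p n2p n3p; omega
          clear * - al b c2 tt kk487 kk488 kk489 kk490 kk491 kk492 r493
          obtain ⟨t, ht⟩ : ∃ t, 2 * t = (2 * i2 - n) := ⟨(2 * i2 - n) / 2, by omega⟩
          exact al.ninv t (cE (cI (cE (pb b al (-1) t (t + (n + i - k)) (by omega)) (pb c2 al 0 (t + (n + i - k)) (t + (n + i + l - i2 + 1)) (by omega))) (qa tt al 1 (t + (n + i + l - i2 + 1)) ((2 * i2) - t) (by omega))) (sh al (-1) ((2 * i2) - t) t (by omega)))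
      · have kk494 : (2 * k + 2) ≤ (n + 2 * i) := by clear * - b4 b5 y17 y18; omega
        have kk495 : (2 * i + 2 * l + 3) ≤ (n) := by clear * - z29; omega
        have kk496 : (n + 2 * i2) ≤ (i + k + l + m + 2) := by clear * - v27 y17; omega
        have kk497 : (i) ≤ (i2) := by clear * - y16; omega
        have kk498 : (0) ≤ (i2) := by clear * - y7; omega
        have kk499 : (n + i2) ≤ (i + k + 2 * l + 2) := by clear * - b0 b4 b5 v27 y17; omega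
        have r500 : (2 * i2 - n) % 2 = 0 := by clear * - ev n1p n2p n3p; omega
        clear * - al b c2 tt kk494 kk495 kk496 kk497 kk498 kk499 r500
        obtain ⟨t, ht⟩ : ∃ t, 2 * t = (2 * i2 - n) := ⟨(2 * i2 - n) / 2, by omega⟩
        exact al.ninv t (cE (cI (cE (pb b al (-1) t (t + (n + i - k)) (by omega)) (pb c2 al 0 (t + (n + i - k)) (t + (n + i + l - i2 + 1)) (by omega))) (qa tt al 1 (t + (n + i + l - i2 + 1)) ((2 * i2) - t) (by omega))) (sh al (-1) ((2 * i2) - t) t (by omega)))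
    · have kk501 : (i + m + 2) ≤ (k) := by clear * - y15; omega
      have kk502 : (k + l + 2) ≤ (n) := by clear * - b5 y18; omega
      have kk503 : (i + 1) ≤ (k) := by clear * - b4 y13 y15 y8 z29; omega
      have kk504 : (0) ≤ (l) := by clear * - b4 b5 y10 y15; omega
      have kk505 : (2 * i + m + 2) ≤ (k + k3) := by clear * - y13 y15 y16 y8; omega
      have kk506 : (k3) ≤ (i + l + m + 1) := by clear * - b1 b2 b3 b4; omega
      have kk507 : (i2) ≤ (j) := by clear * - y1 y17; omega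
      have kk508 : (Q + j + m) ≤ (k + i2) := by clear * - b1 b4 y13 y17 z30; omega
      have kk509 : (0) ≤ (l + m + 2) := by clear * - b1 b3 b4 b6 y13 y8 z29 z30; omega
      have kk510 : (i) ≤ (k3) := by clear * - y13 y16 y8; omega
      have kk511 : (k + l + 1) ≤ (n) := by clear * - b5 y18; omega
      have kk512 : (k3) ≤ (i + l + m + 2) := by clear * - b1 b2 b3 b4; omega
      have kk513 : (0) ≤ (l + 1) := by clear * - b4 b5 y10 y15; omega
      have kk514 : (i2) ≤ (j + l + 1) := by clear * - b3 b4 y13 y15 y8 z29; omega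
      have kk515 : (i + j + m + 1) ≤ (k + i2) := by clear * - b1 b4 y13 y17 y8 z30; omega
      have r516 : (k3 - i - l - m - 2) % 2 = 0 := by clear * - ev n1p n2p n3p; omega
      have r517 : (k - i) % 2 = 0 := by clear * - ev n1p n2p n3p; omega
      have r518 : (i + k + l + i2 - 2 * n - j + 1) % 2 = 0 := by clear * - ev n1p n2p n3p; omega
      clear * - al a2 b tt D2 n2 kk501 kk502 kk503 kk504 kk505 kk506 kk507 kk508 kk509 kk510 kk511 kk512 kk513 kk514 kk515 r516 r517 r518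
      exact ivt al.ninv (i - n + 1) (i + l - n + 1) (k - i) (i + l + m - n + 3) (k + l - n + 1) (k3 - i - l - m - 2) (i + l - n + 1) (k + k3 - n - i - m - 1) 1 (fun t h1 h2 => (cE (qf b al (-1) t (t + (n + k - i)) (by omega)) (sh al (-1) (t + (n + k - i)) (t + (k - i)) (by omega)))) (fun t h1 h2 => (cE (qf D2 al (-1) t (t + (n + k3 - i - l - m - 2)) (by omega)) (sh al (-1) (t + (n + k3 - i - l - m - 2)) (t + (k3 - i - l - m - 2)) (by omega)))) (fun hh => n2.f0 (rEE (sh al (-1) (i + l + 1) (i + l - n + 1) (by omega)) (cE (qf D2 al 0 (k + l + 1) (k + k3 - i - m - 1) (by omega)) (sh al (-1) (k + k3 - i - m - 1) (k + k3 - n - i - m - 1) (by omega))) (Eq.symm hh))) (by omega) (i + l - n + 2) (i + l + m - n + 2) (i + k + l + i2 - 2 * n - j + 1) 0 (-1) (fun t h1 h2 => (cE (cE (ab tt al (-1) t ((i + l + i2 - n + 1) - t) (by omega)) (qf a2 al 0 ((i + l + i2 - n + 1) - t) ((i + k + l + i2 - n -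 j + 1) - t) (by omega))) (sh al (-1) ((i + k + l + i2 - n - j + 1) - t) ((i + k + l + i2 - 2 * n - j + 1) - t) (by omega)))) (by omega)
  · by_cases z31 : (n + k + i2 + k3) ≤ (3 * i + 2 * l + 3 * m + 3)
    · by_cases z32 : (3 * i + 2 * l + i2 + m + 4) ≤ (n + k + k3)
      · have kk519 : (3 * i + 2 * l + i2 + m + 5) ≤ (n + k + k3) := by clear * - z32 ev n1p n2p n3p; omega
        have kk520 : (n + k + i2 + k3) ≤ (3 * i + 2 * l + 3 * m + 4) := by clear * - z31; omega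
        have kk521 : (k) ≤ (i + l + i2 + 1) := by clear * - b4 b5; omega
        have kk522 : (0) ≤ (i2) := by clear * - b2 y16 z29; omega
        have kk523 : (i + m + 1) ≤ (k) := by clear * - y15; omega
        have kk524 : (i + l + 2 * m + 3) ≤ (n + i2) := by clear * - b0 ev n1p n2p n3p; omega
        have r525 : (n + i + i2 + k3 - k - m - 1) % 2 = 0 := by clear * - ev n1p n2p n3p; omega
        clear * - al b tt D2 kk519 kk520 kk521 kk522 kk523 kk524 r525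
        obtain ⟨t, ht⟩ : ∃ t, 2 * t = (n + i + i2 + k3 - k - m - 1) := ⟨(n + i + i2 + k3 - k - m - 1) / 2, by omega⟩
        exact al.ninv t (cE (cI (qf b al 0 t (t + (k - i)) (by omega)) (ab tt al 0 (t + (k - i)) ((2 * i + l + i2 - k + 1) - t) (by omega))) (qf D2 al (-1) ((2 * i + l + i2 - k + 1) - t) t (by omega)))
      · have kk526 : (i + i2 + m + 2) ≤ (k + k3) := by clear * - y13 y15 y8; omega
        have kk527 : (k + k3) ≤ (3 * i + i2 + m + 1) := by clear * - b2 z32; omega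
        have kk528 : (k + i2 + k3) ≤ (3 * i + 2 * j + m + 1) := by clear * - b2 y1 y17 z32; omega
        have kk529 : (i + 3 * k + 2 * l + m + 3) ≤ (2 * n + 2 * j + i2 + k3) := by clear * - b2 b5 y1 z32; omega
        have kk530 : (i + m + 1) ≤ (k) := by clear * - y15; omega
        have kk531 : (i) ≤ (j) := by clear * - y1; omega
        have kk532 : (2 * i + k + l + m + 2) ≤ (n + i2 + k3) := by clear * - b5 y16; omega
        have kk533 : (j + i2 + 1) ≤ (k) := by clear * - b1 b2 y17 z29; omega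
        have r534 : (i + k - 2 * n) % 2 = 0 := by clear * - ev n1p n2p n3p; omega
        have r535 : (k + k3 - i - i2 - m - 1) % 2 = 0 := by clear * - ev n1p n2p n3p; omega
        clear * - al a1 s1 c2 D2 kk526 kk527 kk528 kk529 kk530 kk531 kk532 kk533 r534 r535
        exact midP al (k + k3 - i - i2 - m - 1) (i + k - 2 * n) (k - n - j) (i2 - n + 1) (k3 - i - l - m - 2) (by omega) (fun t h1 h2 => (cE (cI (pb a1 al (-1) t (t + (n + j - k)) (by omega)) (qa s1 al 0 (t + (n + j - k)) ((i + k - n) - t) (by omega))) (sh al (-1) ((i + k - n) - t) ((i + k - 2 * n) - t) (by omega)))) (fun t h1 h2 => (cE (qf (show Par W (i2 + 1) (n + i2 - k - l - 1) (k + k3 - i - i2 - m - 1) from fun t h1 h2 => (cE (sh al (-1) t (t + (-n)) (by omega)) (cE (pb c2 al (-1) (t + (-n)) (t + (k + l - i2 + 1)) (by omega)) (qf D2 al 0 (t + (k + l - i2 + 1)) (t + (k + k3 - i - i2 - m - 1)) (by omega))))) al (-1) t (t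 + (n + k + k3 - i - i2 - m - 1)) (by omega)) (sh al (-1) (t + (n + k + k3 - i - i2 - m - 1)) (t + (k + k3 - i - i2 - m - 1)) (by omega))))
    · by_cases z33 : (Q + j + m) ≤ (k + i2)
      · have kk536 : (i + m + 2) ≤ (k) := by clear * - y15; omega
        have kk537 : (k + l + 2) ≤ (n) := by clear * - b5 y18; omega
        have kk538 : (i + 1) ≤ (k) := by clear * - y10 y16 y18 z29 z31; omega
        have kk539 : (0) ≤ (l) := by clear * - b1 b2 b3 y16 z29; omega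
        have kk540 : (2 * i + m + 2) ≤ (k + k3) := by clear * - y10 y16 z29 z31; omega
        have kk541 : (k3) ≤ (i + l + m + 1) := by clear * - b1 b2 b3 b4; omega
        have kk542 : (i2) ≤ (j) := by clear * - y1 y17; omega
        have kk543 : (Q + j + m) ≤ (k + i2) := by clear * - z33; omega
        have kk544 : (0) ≤ (l + m + 2) := by clear * - b4 b5 y10 z31; omega
        have kk545 : (i) ≤ (k3) := by clear * - y13 y16 y8; omega
        have kk546 : (k + l + 1) ≤ (n) := by clear * - b5 y18; omega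
        have kk547 : (k3) ≤ (i + l + m + 2) := by clear * - b1 b2 b3 b4; omega
        have kk548 : (0) ≤ (l + 1) := by clear * - b1 b2 b3 y16 z29; omega
        have kk549 : (i2) ≤ (j + l + 1) := by clear * - b3 b4 y10 z31; omega
        have kk550 : (i + j + m + 1) ≤ (k + i2) := by clear * - y16 y8 z33; omega
        have r551 : (k3 - i - l - m - 2) % 2 = 0 := by clear * - ev n1p n2p n3p; omega
        have r552 : (k - i) % 2 = 0 := by clear * - ev n1p n2p n3p; omega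
        have r553 : (i + k + l + i2 - 2 * n - j + 1) % 2 = 0 := by clear * - ev n1p n2p n3p; omega
        clear * - al a2 b tt D2 n2 kk536 kk537 kk538 kk539 kk540 kk541 kk542 kk543 kk544 kk545 kk546 kk547 kk548 kk549 kk550 r551 r552 r553
        exact ivt al.ninv (i - n + 1) (i + l - n + 1) (k - i) (i + l + m - n + 3) (k + l - n + 1) (k3 - i - l - m - 2) (i + l - n + 1) (k + k3 - n - i - m - 1) 1 (fun t h1 h2 => (cE (qf b al (-1) t (t + (n + k - i)) (by omega)) (sh al (-1) (t + (n + k - i)) (t + (k - i)) (by omega)))) (fun t h1 h2 => (cE (qf D2 al (-1) t (t + (n + k3 - i - l - m - 2)) (by omega)) (sh al (-1) (t + (n + k3 - i - l - m - 2)) (t + (k3 - i - l - m - 2)) (by omega)))) (fun hh => n2.f0 (rEE (sh al (-1) (i + l + 1) (i + l - n + 1) (by omega)) (cE (qf D2 al 0 (k + l + 1) (k + k3 - i - m - 1) (by omega)) (sh al (-1) (k + k3 - i - m - 1) (k + k3 - n - i - m - 1) (by omega))) (Eq.symm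 hh))) (by omega) (i + l - n + 2) (i + l + m - n + 2) (i + k + l + i2 - 2 * n - j + 1) 0 (-1) (fun t h1 h2 => (cE (cE (ab tt al (-1) t ((i + l + i2 - n + 1) - t) (by omega)) (qf a2 al 0 ((i + l + i2 - n + 1) - t) ((i + k + l + i2 - n - j + 1) - t) (by omega))) (sh al (-1) ((i + k + l + i2 - n - j + 1) - t) ((i + k + l + i2 - 2 * n - j + 1) - t) (by omega)))) (by omega)
      · by_cases z34 : (k) ≤ (i + 2 * j)
        · by_cases z35 : (2 * j + 2) ≤ (i + k)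
          · by_cases v29 : (2 * j + 1) ≤ (k)
            · have kk554 : (k) ≤ (i + 2 * j) := by clear * - z34; omega
              have kk555 : (k) ≤ (i + 2 * j + 1) := by clear * - z34; omega
              have kk556 : (2 * j + 1) ≤ (k) := by clear * - v29; omega
              have kk557 : (i + j + 1) ≤ (k) := by clear * - b1 v29 z34; omega
              have r558 : (i + 2 * j - k) % 2 = 0 := by clear * - ev n1p n2p n3p; omega
              clear * - al a1 s1 kk554 kk555 kk556 kk557 r558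
              obtain ⟨t, ht⟩ : ∃ t, 2 * t = (i + 2 * j - k) := ⟨(i + 2 * j - k) / 2, by omega⟩
              exact al.ninv t (cI (qf a1 al 0 t (t + (k - j)) (by omega)) (ab s1 al 0 (t + (k - j)) t (by omega)))
            · have kk559 : (2 * j + 2) ≤ (i + k) := by clear * - z35; omega
              have kk560 : (k) ≤ (i + 2 * j + 1) := by clear * - v29 z35; omega
              have kk561 : (k) ≤ (2 * j + 1) := by clear * - v29; omega
              have kk562 : (i + j + 1) ≤ (k) := by clear * - b1 v29 z35; omega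
              have r563 : (i + 2 * j - k) % 2 = 0 := by clear * - ev n1p n2p n3p; omega
              clear * - al a1 s1 kk559 kk560 kk561 kk562 r563
              obtain ⟨t, ht⟩ : ∃ t, 2 * t = (i + 2 * j - k) := ⟨(i + 2 * j - k) / 2, by omega⟩
              exact al.ninv t (cI (qf a1 al 0 t (t + (k - j)) (by omega)) (ab s1 al 0 (t + (k - j)) t (by omega)))
          · by_cases z36 : (n + i2) ≤ (2 * k + l + 1)
            · have kk564 : (2 * k + l + 2) ≤ (n + j + i2) := by clear * - b6 y2 z35; omega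
              have kk565 : (j + i2) ≤ (2 * k + l) := by clear * - b1 b2 b3 z29 z35; omega
              have kk566 : (j + i2 + 1) ≤ (k) := by clear * - b1 b2 y17 z29; omega
              have kk567 : (n + i2) ≤ (2 * k + l + 1) := by clear * - z36; omega
              clear * - al a1 c2 kk564 kk565 kk566 kk567
              exact al.ubP (n + j + i2 - 2 * k - l - 1) (by omega) (by omega) fun t h1 h2 => (cE (qf c2 al (-1) t (t + (n + i2 - k - l - 1)) (by omega)) (pb a1 al 0 (t + (n + i2 - k - l - 1)) (t + (n + j + i2 - 2 * k - l - 1)) (by omega)))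
            · have kk568 : (k3) ≤ (i2 + m) := by clear * - y16 y18; omega
              have kk569 : (i2 + m + 2) ≤ (n + k3) := by clear * - b1 b2 b3 b5 z29 z35; omega
              have kk570 : (i + i2 + m + 2) ≤ (Q + k3) := by clear * - b1 y13 y17 y2 z29 z31 z34 z35; omega
              have kk571 : (Q + k + l + m + 2) ≤ (n + k3) := by clear * - b1 b6 y13 y17 z29 z31 z33 z35 z36; omega
              have kk572 : (i + m + 1) ≤ (k) := by clear * - b1 b4 y17 z31 z34; omega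
              have kk573 : (k3) ≤ (i + m + 1) := by clear * - y18; omega
              have kk574 : (n + k3) ≤ (i + k + 2 * l + m + 3) := by clear * - b1 b2 y18 z29 z35; omega
              clear * - al b c2 D2 kk568 kk569 kk570 kk571 kk572 kk573 kk574
              exact al.ubQ (i2 + m - k3 + 1) (by omega) (by omega) fun t h1 h2 => (cE (qf b al 0 t (t + (k - i)) (by omega)) (pb (show Par W (i2 + 1) (n + i2 - k - l - 1) (k + k3 - i - i2 - m - 1) from fun t h1 h2 => (cE (sh al (-1) t (t + (-n)) (by omega)) (cE (pb c2 al (-1) (t + (-n)) (t + (k + l - i2 + 1)) (by omega)) (qf D2 al 0 (t + (k + l - i2 + 1)) (t + (k + k3 - i - i2 - m - 1)) (by omega))))) al 0 (t + (k - i)) (t + (i2 + m - k3 + 1)) (by omega)))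
        · by_cases z37 : (2 * i + l + i2 + 2) ≤ (j + 2 * k)
          · by_cases z38 : (2 * i + j + l + 2) ≤ (2 * k + i2)
            · by_cases v30 : (i + l + 1) ≤ (k)
              · have kk575 : (j + 1) ≤ (l + i2) := by clear * - b4 b6 z29 z31 z33 z34; omega
                have kk576 : (2 * Q + j) ≤ (2 * i + l + i2 + 2) := by clear * - b6 z29 z34; omega
                have kk577 : (i + l + 1) ≤ (k) := by clear * - v30; omega
                have kk578 : (i + l + i2 + 1) ≤ (j + k) := by clear * - b3 v30; omega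
                have kk579 : (i + m + 1) ≤ (k) := by clear * - b3 b4 v30 z31 z34; omega
                have kk580 : (k + i2) ≤ (Q + j + m) := by clear * - z33; omega
                have r581 : (2 * i + l + i2 - 2 * n - j + 1) % 2 = 0 := by clear * - ev n1p n2p n3p; omega
                clear * - al a2 b tt kk575 kk576 kk577 kk578 kk579 kk580 r581
                obtain ⟨t, ht⟩ : ∃ t, 2 * t = (2 * i + l + i2 - 2 * n - j + 1) := ⟨(2 * i + l + i2 - 2 * n - j + 1) / 2, by omega⟩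
                exact al.ninv t (cE (cE (cI (qf b al (-1) t (t + (n + k - i)) (by omega)) (ab tt al 0 (t + (n + k - i)) ((2 * i + l + i2 - n - k + 1) - t) (by omega))) (qf a2 al 0 ((2 * i + l + i2 - n - k + 1) - t) ((2 * i + l + i2 - n - j + 1) - t) (by omega))) (sh al (-1) ((2 * i + l + i2 - n - j + 1) - t) t (by omega)))
              · have kk582 : (2 * i + j + l + 3) ≤ (2 * k + i2) := by clear * - z38 ev n1p n2p n3p; omega
                have kk583 : (2 * Q + j) ≤ (2 * i + l + i2 + 2) := by clear * - b6 z29 z34; omega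
                have kk584 : (k) ≤ (i + l + 1) := by clear * - v30; omega
                have kk585 : (i2) ≤ (j) := by clear * - y1 y17; omega
                have kk586 : (i + m + 1) ≤ (k) := by clear * - y15; omega
                have kk587 : (k + i2) ≤ (Q + j + m) := by clear * - z33; omega
                have r588 : (2 * i + l + i2 - 2 * n - j + 1) % 2 = 0 := by clear * - ev n1p n2p n3p; omega
                clear * - al a2 b tt kk582 kk583 kk584 kk585 kk586 kk587 r588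
                obtain ⟨t, ht⟩ : ∃ t, 2 * t = (2 * i + l + i2 - 2 * n - j + 1) := ⟨(2 * i + l + i2 - 2 * n - j + 1) / 2, by omega⟩
                exact al.ninv t (cE (cE (cI (qf b al (-1) t (t + (n + k - i)) (by omega)) (ab tt al 0 (t + (n + k - i)) ((2 * i + l + i2 - n - k + 1) - t) (by omega))) (qf a2 al 0 ((2 * i + l + i2 - n - k + 1) - t) ((2 * i + l + i2 - n - j + 1) - t) (by omega))) (sh al (-1) ((2 * i + l + i2 - n - j + 1) - t) t (by omega)))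
            · have kk589 : (k3) ≤ (i2 + m) := by clear * - y16 y18; omega
              have kk590 : (3 * i2 + 1) ≤ (m + k3) := by clear * - y13 y17 z33 z34 z37 z38; omega
              have kk591 : (4 * k + i2 + k3) ≤ (6 * i + 2 * l + 3 * m + 3) := by clear * - y13 y16 y18 y2 z38; omega
              have kk592 : (i2 + k3) ≤ (3 * m + 1) := by clear * - b1 y13 y18 z33; omega
              have kk593 : (i + m + 1) ≤ (k) := by clear * - b4 z31 z34 z37 z38; omega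
              have kk594 : (i + l + 2 * m + 3) ≤ (n + i2) := by clear * - b1 b2 b4 z31 z38; omega
              have kk595 : (k) ≤ (i + l + i2 + 1) := by clear * - b4 b5; omega
              have kk596 : (0) ≤ (i2) := by clear * - b2 y16 z29; omega
              have kk597 : (i) ≤ (i2) := by clear * - y16; omega
              have kk598 : (n + i2) ≤ (i + k + 2 * l + 2) := by clear * - b4 b6 z29 z31 z33 z34 z37 z38; omega
              have kk599 : (3 * i + 2 * l + m + 3) ≤ (n + k + i2) := by clear * - b6 y16 y18 z31 z33 z34 z37; omega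
              have kk600 : (k + l + m + 2) ≤ (n + i2) := by clear * - b2 b4 y16 z31 z34 z38; omega
              have r601 : (i + i2 + k3 - n - k - m - 1) % 2 = 0 := by clear * - ev n1p n2p n3p; omega
              have r602 : (i2 + m - k3 + 1) % 2 = 0 := by clear * - ev n1p n2p n3p; omega
              clear * - al b c2 tt D2 kk589 kk590 kk591 kk592 kk593 kk594 kk595 kk596 kk597 kk598 kk599 kk600 r601 r602
              exact midP al (i2 + m - k3 + 1) (i + i2 + k3 - n - k - m - 1) (i2 + k3 - i - l - 2 * m - 2) (k + k3 - n - i - m) (i2 - i - l - 1) (by omega) (fun t h1 h2 => (cE (cE (cI (pb D2 al (-1) t (t + (n + i + l + m - k3 + 2)) (by omega)) (qa tt al 1 (t + (n + i + l + m - k3 + 2)) ((i2 + k3 - m - 1) - t) (by omega))) (pb b al 0 ((i2 + k3 - m - 1) - t) ((i + i2 + k3 - k - m - 1) - t) (by omega))) (sh al (-1) ((i + i2 + k3 - k - m - 1) - t) ((i + i2 + k3 - n - k - m - 1) - t) (by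 omega)))) (fun t h1 h2 => (cE (cE (pb (show Par W (i2 + 1) (n + i2 - k - l - 1) (k + k3 - i - i2 - m - 1) from fun t h1 h2 => (cE (sh al (-1) t (t + (-n)) (by omega)) (cE (pb c2 al (-1) (t + (-n)) (t + (k + l - i2 + 1)) (by omega)) (qf D2 al 0 (t + (k + l - i2 + 1)) (t + (k + k3 - i - i2 - m - 1)) (by omega))))) al (-1) t (t + (n + i + i2 + m - k - k3 + 1)) (by omega)) (qf b al 0 (t + (n + i + i2 + m - k - k3 + 1)) (t + (n + i2 + m - k3 + 1)) (by omega))) (sh al (-1) (t + (n + i2 + m - k3 + 1)) (t + (i2 + m - k3 + 1)) (by omega))))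
          · have kk603 : (k3) ≤ (i2 + m) := by clear * - y16 y18; omega
            have kk604 : (3 * i2 + 1) ≤ (m + k3) := by clear * - b1 y13 y17 z33; omega
            have kk605 : (2 * k + 2 * l + i2 + m + 5) ≤ (2 * n + k3) := by clear * - b4 b6 y17 z29 z31 z33 z34 z37; omega
            have kk606 : (6 * i + 4 * l + i2 + m + 7) ≤ (2 * n + 2 * k + k3) := by clear * - b1 y13 y17 y18 z31 z33; omega
            have kk607 : (i + m + 1) ≤ (k) := by clear * - y15; omega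
            have kk608 : (k) ≤ (i + l + 1) := by clear * - b3 b4 b6 z29 z31 z33 z34 z37; omega
            have kk609 : (0) ≤ (i2) := by clear * - b2 y16 z29; omega
            have kk610 : (i + l + 2 * m + 3) ≤ (n + i2) := by clear * - b3 b4 b6 y18 z29 z31 z33 z34 z37; omega
            have kk611 : (i) ≤ (i2) := by clear * - y16; omega
            have kk612 : (n + i2) ≤ (i + k + 2 * l + 2) := by clear * - b1 b4 y13 y15 y17 z29 z33; omega
            have kk613 : (k3) ≤ (i2 + m + 1) := by clear * - y16 y18; omega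
            have kk614 : (2 * k + k3) ≤ (3 * i + l + i2 + m + 2) := by clear * - b4 b6 y18 z29 z31 z33 z37; omega
            have r615 : (3 * n + i + i2 + k3 - k - m - 1) % 2 = 0 := by clear * - ev n1p n2p n3p; omega
            have r616 : (i2 + m - k3 + 1) % 2 = 0 := by clear * - ev n1p n2p n3p; omega
            clear * - al b c2 tt D2 kk603 kk604 kk605 kk606 kk607 kk608 kk609 kk610 kk611 kk612 kk613 kk614 r615 r616
            exact midP al (i2 + m - k3 + 1) (3 * n + i + i2 + k3 - k - m - 1) (n + 2 * i + l + i2 - k + 2) (n + k + k3 - i - m) (2 * n + i2 - i - l - 1) (by omega) (fun t h1 h2 => (cE (cE (cI (qf b al 1 t (t + (k - n - i)) (by omega)) (ab tt al 0 (t + (k - n - i)) ((n + 2 * i + l + i2 - k + 1) - t) (by omega))) (qf D2 al (-1) ((n + 2 * i + l + i2 - k + 1) - t) ((2 * n + i + i2 + k3 - k - m - 1) - t) (by omega))) (sh al 1 ((2 * n + i + i2 + k3 - k - m - 1) - t) ((3 * n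 + i + i2 + k3 - k - m - 1) - t) (by omega)))) (fun t h1 h2 => (cE (cE (pb (show Par W (i2 + 1) (n + i2 - k - l - 1) (k + k3 - i - i2 - m - 1) from fun t h1 h2 => (cE (sh al (-1) t (t + (-n)) (by omega)) (cE (pb c2 al (-1) (t + (-n)) (t + (k + l - i2 + 1)) (by omega)) (qf D2 al 0 (t + (k + l - i2 + 1)) (t + (k + k3 - i - i2 - m - 1)) (by omega))))) al 1 t (t + (i + i2 + m - n - k - k3 + 1)) (by omega)) (qf b al 0 (t + (i + i2 + m - n - k - k3 + 1)) (t + (i2 + m - n - k3 + 1)) (by omega))) (sh al 1 (t + (i2 + m - n - k3 + 1)) (t + (i2 + m - k3 + 1)) (by omega))))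

theorem ev7_4p
    (ev7_5 : ∀ {W : ℤ → G} {n Q i j k l i2 m k3 : ℤ} (al : AL W n Q) (hy : (0) ≤ (i) ∧ (i) ≤ (j) ∧ (j + 1) ≤ (Q) ∧ (Q) ≤ (k) ∧ (k + 1) ≤ (n) ∧ (Q) ≤ (i + l + 1) ∧ (k + l + 2) ≤ (n) ∧ (0) ≤ (i2) ∧ (i2 + 1) ≤ (Q) ∧ (Q + m + 1) ≤ (n + i2) ∧ (i2) ≤ (m) ∧ (Q) ≤ (i + l + m + 2) ∧ (i + l + m + 3) ≤ (n) ∧ (Q) ≤ (k3) ∧ (k3 + 1) ≤ (n) ∧ (i + m + 2) ≤ (k) ∧ (i) ≤ (i2) ∧ (i2) ≤ (i) ∧ (k3) ≤ (i + m)) (a1 : Par W (0) (j) (k - j)) (a2 : Par W (Q + j - k) (j) (k - j)) (s1 : Ant W (0) (i) (i + j)) (s2 : Ant W (j + 1) (Q) (i + j)) (b : Par W (i + 1) (i + l + 1) (k - i)) (c1 : Par W (i2 + 1) (Q) (k + l - i2 + 1)) (c2 : Par W (k + l + 2) (n) (i2 - k - l - 1)) (tt : Ant W (i2 - m) (i2) (i + l + i2 + 1)) (D1 : Par W (Q) (k3) (n + i2 - m - k3 - 1)) (D2 : Par W (i + l + m + 3) (n) (k3 - i - l - m - 2)) {L : ℤ} (mx : ∀ a b g, 0 < g → g < n → Par W a b g → b - a ≤ L) (hL : L ≤ (n - j - 3) ∧ L ≤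 (n + Q - k - 3) ∧ L ≤ (n - l - 3) ∧ L ≤ (n + i - k - 2)) (bd0 : Bd W n L (j) (i) (k)) (n1 : Nd W (j) (i) (k)) (n2 : Nd W (i + l + 1) (i2) (k + l + 1)) (n3 : Nd W (n + i2 - m - 1) (i + l + m + 2) (k3)) (b0 : (i + l + 2 * m + 2) ≤ (n + i2)) (b1 : (2 * i + j + 1) ≤ (k)) (b2 : (i + k + l + m + 3) ≤ (n + j + k3)) (b3 : (n + i2) ≤ (i + k + 2 * l + m + 2)) (b4 : (2 * k + 3) ≤ (n + 2 * Q)), False)
    {W : ℤ → G} {n Q i j k l i2 m k3 : ℤ} (al : AL W n Q)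
    (hy : (0) ≤ (i) ∧ (i) ≤ (j) ∧ (j + 1) ≤ (Q) ∧ (Q) ≤ (k) ∧ (k + 1) ≤ (n) ∧ (Q) ≤ (i + l + 1) ∧ (k + l + 2) ≤ (n) ∧ (0) ≤ (i2) ∧ (i2 + 1) ≤ (Q) ∧ (Q + m + 1) ≤ (n + i2) ∧ (i2) ≤ (m) ∧ (Q) ≤ (i + l + m + 2) ∧ (i + l + m + 3) ≤ (n) ∧ (Q) ≤ (k3) ∧ (k3 + 1) ≤ (n) ∧ (i + m + 2) ≤ (k) ∧ (i) ≤ (i2) ∧ (i2) ≤ (i) ∧ (k3) ≤ (i + m))
    (a1 : Par W (0) (j) (k - j))
    (a2 : Par W (Q + j - k) (j) (k - j))
    (s1 : Ant W (0) (i) (i + j))
    (s2 : Ant W (j + 1) (Q) (i + j))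
    (b : Par W (i + 1) (i + l + 1) (k - i))
    (c1 : Par W (i2 + 1) (Q) (k + l - i2 + 1))
    (c2 : Par W (k + l + 2) (n) (i2 - k - l - 1))
    (tt : Ant W (i2 - m) (i2) (i + l + i2 + 1))
    (D1 : Par W (Q) (k3) (n + i2 - m - k3 - 1))
    (D2 : Par W (i + l + m + 3) (n) (k3 - i - l - m - 2))
    {L : ℤ} (mx : ∀ a b g, 0 < g → g < n → Par W a b g → b - a ≤ L)
    (hL : L ≤ (n - j - 3) ∧ L ≤ (n + Q - k - 3) ∧ L ≤ (n - l - 3) ∧ L ≤ (n + i - k - 2))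
    (bd0 : Bd W n L (j) (i) (k))
    (n1 : Nd W (j) (i) (k))
    (n2 : Nd W (i + l + 1) (i2) (k + l + 1))
    (n3 : Nd W (n + i2 - m - 1) (i + l + m + 2) (k3))
    (b0 : (i + l + 2 * m + 2) ≤ (n + i2))
    (b1 : (2 * i + j + 1) ≤ (k))
    (b2 : (i + k + l + m + 3) ≤ (n + j + k3))
    (b3 : (n + i2) ≤ (i + k + 2 * l + m + 2)) : False := by
  have ev := al.ev
  obtain ⟨y0, y1, y2, y3, y4, y5, y6, y7, y8, y9, y10, y11, y12, y13, y14, y15, y16, y17, y18⟩ := id hy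
  have n1p := And.intro n1.p1 n1.p2
  have n2p := And.intro n2.p1 n2.p2
  have n3p := And.intro n3.p1 n3.p2
  by_cases z5 : (n + 2 * Q) ≤ (2 * k + 2)
  · have kk41 : (k + 1) ≤ (n + j) := by clear * - b2 y16 y18 y5 y8; omega
    have kk42 : (j + 1) ≤ (k) := by clear * - b1 y17 y7; omega
    have kk43 : (n + Q + i) ≤ (2 * k + 1) := by clear * - y16 y8 z5; omega
    clear * - al a2 mx hL kk41 kk42 kk43
    exact absurd (mx (Q) (k) (n + j - k) (by omega) (by omega) fun t h1 h2 => (cE (pb a2 al 0 t (t + (j - k)) (by omega)) (sh al 1 (t + (j - k)) (t + (n + j - k)) (by omega)))) (by omega)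
  · exact ev7_5 al hy a1 a2 s1 s2 b c1 c2 tt D1 D2 mx hL bd0 n1 n2 n3 (by clear * - b0; omega) (by clear * - b1; omega) (by clear * - b2; omega) (by clear * - b3; omega) (by clear * - z5; omega)

theorem h8_55p
    {W : ℤ → G} {n Q i j k l i2 m k3 : ℤ} (al : AL W n Q)
    (hy : (0) ≤ (i) ∧ (i) ≤ (j) ∧ (j + 1) ≤ (Q) ∧ (Q) ≤ (k) ∧ (k + 1) ≤ (n) ∧ (Q) ≤ (i + l + 1) ∧ (k + l + 2) ≤ (n) ∧ (0) ≤ (i2) ∧ (i2 + 1) ≤ (Q) ∧ (Q + m + 1) ≤ (n + i2) ∧ (i2) ≤ (m) ∧ (Q) ≤ (i + l + m + 2) ∧ (i + l + m + 3) ≤ (n) ∧ (Q) ≤ (k3) ∧ (k3 + 1) ≤ (n) ∧ (i + m + 2) ≤ (k) ∧ (i) ≤ (i2) ∧ (i2) ≤ (i) ∧ (i + m + 2) ≤ (k3) ∧ (k3) ≤ (i + l + m + 1) ∧ (m + k3 + 2) ≤ (n + i2))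
    (a1 : Par W (0) (j) (k - j))
    (a2 : Par W (Q + j - k) (j) (k - j))
    (s1 : Ant W (0) (i) (i + j))
    (s2 : Ant W (j + 1) (Q) (i + j))
    (b : Par W (i + 1) (i + l + 1) (k - i))
    (c1 : Par W (i2 + 1) (Q) (k + l - i2 + 1))
    (c2 : Par W (k + l + 2) (n) (i2 - k - l - 1))
    (tt : Ant W (i2 - m) (i2) (i + l + i2 + 1))
    (D1 : Par W (Q) (k3) (n + i2 - m - k3 - 1))
    (D2 : Par W (i + l + m + 3) (n) (k3 - i - l - m - 2))
    {L : ℤ} (mx : ∀ a b g, 0 < g → g < n → Par W a b g → b - a ≤ L)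
    (hL : L ≤ (n - j - 3) ∧ L ≤ (n + Q - k - 3) ∧ L ≤ (n - l - 3) ∧ L ≤ (n + i - k - 2))
    (bd0 : Bd W n L (j) (i) (k))
    (n1 : Nd W (j) (i) (k))
    (n2 : Nd W (i + l + 1) (i2) (k + l + 1))
    (n3 : Nd W (n + i2 - m - 1) (i + l + m + 2) (k3))
    (b0 : (2 * l + 3) ≤ (n))
    (b1 : (2 * i + j + 1) ≤ (k))
    (b2 : (n + k3) ≤ (i + k + 2 * l + m + 3))
    (b3 : (k + i2 + m + 1) ≤ (i + k3))
    (b4 : (i + m + k3 + 3) ≤ (Q + k + i2))
    (b5 : (2 * Q + k + 2 * l + 2 * m + 4) ≤ (n + j + 2 * k3))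
    (b6 : (n + i2 + k3) ≤ (i + j + 2 * l + 3 * m + 4))
    (b7 : (4 * k + l + 2) ≤ (n + 2 * i + i2))
    (b8 : (i + 2 * l + 2 * m + 4) ≤ (n + j))
    (b9 : (3 * j + 1) ≤ (i + 2 * k)) : False := by
  have ev := al.ev
  obtain ⟨y0, y1, y2, y3, y4, y5, y6, y7, y8, y9, y10, y11, y12, y13, y14, y15, y16, y17, y18, y19, y20⟩ := id hy
  have n1p := And.intro n1.p1 n1.p2
  have n2p := And.intro n2.p1 n2.p2
  have n3p := And.intro n3.p1 n3.p2
  by_cases z107 : (2 * k) ≤ (i + 3 * j + 1)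
  · have kk1244 : (3 * j + 2) ≤ (i + 2 * k) := by clear * - b9 ev n1p n2p n3p; omega
    have kk1245 : (2 * k) ≤ (i + 3 * j + 1) := by clear * - z107; omega
    have kk1246 : (k) ≤ (2 * j + 1) := by clear * - b1 b9 z107; omega
    have kk1247 : (i) ≤ (j) := by clear * - b1 b9 z107; omega
    have kk1248 : (i + j + 1) ≤ (k) := by clear * - b1 b9 z107; omega
    have r1249 : (i + j - 2 * n) % 2 = 0 := by clear * - ev n1p n2p n3p; omega
    clear * - al a1 s1 kk1244 kk1245 kk1246 kk1247 kk1248 r1249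
    obtain ⟨t, ht⟩ : ∃ t, 2 * t = (i + j - 2 * n) := ⟨(i + j - 2 * n) / 2, by omega⟩
    exact al.ninv t (cE (cE (cI (qf a1 al (-1) t (t + (n + k - j)) (by omega)) (ab s1 al 0 (t + (n + k - j)) ((i + 2 * j - n - k) - t) (by omega))) (qf a1 al 0 ((i + 2 * j - n - k) - t) ((i + j - n) - t) (by omega))) (sh al (-1) ((i + j - n) - t) t (by omega)))
  · by_cases z108 : (n + 2 * k3) ≤ (i + 2 * k + 2 * l + 2 * m + 4)
    · have kk1250 : (i + 3 * k + 2 * l + 2 * m + 5) ≤ (n + 2 * j + 2 * k3) := by clear * - b0 b3 b6 b8 y16; omega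
      have kk1251 : (2 * j + 2 * k3) ≤ (i + 3 * k + 2 * l + 2 * m + 3) := by clear * - b0 b6 b7 b8 b9 y18 z107 z108; omega
      have kk1252 : (2 * j + 2 * k3) ≤ (3 * k + l + m + 1) := by clear * - b6 b8 b9 y20 z107 z108; omega
      have kk1253 : (j) ≤ (k) := by clear * - b0 b9 y18 z107 z108; omega
      have kk1254 : (i + 2 * j + k3 + 1) ≤ (3 * k) := by clear * - b4 b5 b6 b8 b9 z107 z108; omega
      have kk1255 : (i + 2 * j + 1) ≤ (2 * k) := by clear * - b0 y18 z107 z108; omega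
      have kk1256 : (k3) ≤ (i + l + m + 2) := by clear * - b3 b6 b7 b9 y20 z108; omega
      have kk1257 : (n + 2 * k3) ≤ (i + 2 * k + 2 * l + 2 * m + 4) := by clear * - z108; omega
      have kk1258 : (n + j + 2 * k3) ≤ (i + 3 * k + 2 * l + 2 * m + 4) := by clear * - b4 b5 b6 b9 z107 z108; omega
      have kk1259 : (n + 2 * k3) ≤ (2 * i + k + 3 * l + 2 * m + 5) := by clear * - b2 b3 b6 b7 b9 y20 z108; omega
      clear * - al a1 b D2 kk1250 kk1251 kk1252 kk1253 kk1254 kk1255 kk1256 kk1257 kk1258 kk1259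
      exact al.ubP (n + 2 * j + 2 * k3 - i - 3 * k - 2 * l - 2 * m - 4) (by omega) (by omega) fun t h1 h2 => (cE (cE (cE (cE (qf D2 al (-1) t (t + (n + k3 - i - l - m - 2)) (by omega)) (qf D2 al 0 (t + (n + k3 - i - l - m - 2)) (t + (n + 2 * k3 - 2 * i - 2 * l - 2 * m - 4)) (by omega))) (pb b al 0 (t + (n + 2 * k3 - 2 * i - 2 * l - 2 * m - 4)) (t + (n + 2 * k3 - i - k - 2 * l - 2 * m - 4)) (by omega))) (pb a1 al 0 (t + (n + 2 * k3 - i - k - 2 * l - 2 * m - 4)) (t + (n + j + 2 * k3 - i - 2 * k - 2 * l - 2 * m - 4)) (by omega))) (pb a1 al 0 (t + (n + j + 2 * k3 - i - 2 * k - 2 * l - 2 * m - 4)) (t + (n + 2 * j + 2 * k3 - i - 3 * k - 2 * l - 2 * m - 4)) (by omega)))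
    · have kk1260 : (k + i2 + m + 2) ≤ (i + k3) := by clear * - b2 y17 z108; omega
      have kk1261 : (i + k3) ≤ (n + k + i2 + m) := by clear * - b3 b4 b5 b6 b7 b9 z107 z108; omega
      have kk1262 : (i + k3) ≤ (Q + k + m) := by clear * - b0 b4 b5 b6 b9 z107 z108; omega
      have kk1263 : (Q + k + l + 1) ≤ (n + i2) := by clear * - b4 b5 b6 b7 b9 z107 z108; omega
      have kk1264 : (i + m + 1) ≤ (k) := by clear * - b3 b4 b5 b6 z107 z108; omega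
      have kk1265 : (k + m + 1) ≤ (k3) := by clear * - b2 z108; omega
      have kk1266 : (i + m + 1) ≤ (k3) := by clear * - b2 b4 b5 b6 b9 z107 z108; omega
      have kk1267 : (i) ≤ (k) := by clear * - b4 b5 b6 b9 z107 z108; omega
      have kk1268 : (n + k3) ≤ (i + k + 2 * l + m + 3) := by clear * - b2; omega
      clear * - al b c2 D2 kk1260 kk1261 kk1262 kk1263 kk1264 kk1265 kk1266 kk1267 kk1268
      exact al.ubQ (i + k3 - k - i2 - m - 1) (by omega) (by omega) fun t h1 h2 => (cE (sh al 1 t (t + (n)) (by omega)) (cE (cE (qf (show Par W (i2 + 1) (n + i2 - k - l - 1) (k + k3 - i - i2 - m - 1) from fun t h1 h2 => (cE (sh al (-1) t (t + (-n)) (by omega)) (cE (pb c2 al (-1) (t + (-n)) (t + (k + l - i2 + 1)) (by omega)) (qf D2 al 0 (t + (k + l - i2 + 1)) (t + (k + k3 - i - i2 - m - 1)) (by omega))))) al 1 (t + (n)) (t + (k + k3 - i - i2 - m - 1)) (by omega)) (pb b al 0 (t + (k + k3 - i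 - i2 - m - 1)) (t + (k3 - i2 - m - 1)) (by omega))) (pb b al 0 (t + (k3 - i2 - m - 1)) (t + (i + k3 - k - i2 - m - 1)) (by omega))))

theorem h8_61p
    (h8_62 : ∀ {W : ℤ → G} {n Q i j k l i2 m k3 : ℤ} (al : AL W n Q) (hy : (0) ≤ (i) ∧ (i) ≤ (j) ∧ (j + 1) ≤ (Q) ∧ (Q) ≤ (k) ∧ (k + 1) ≤ (n) ∧ (Q) ≤ (i + l + 1) ∧ (k + l + 2) ≤ (n) ∧ (0) ≤ (i2) ∧ (i2 + 1) ≤ (Q) ∧ (Q + m + 1) ≤ (n + i2) ∧ (i2) ≤ (m) ∧ (Q) ≤ (i + l + m + 2) ∧ (i + l + m + 3) ≤ (n) ∧ (Q) ≤ (k3) ∧ (k3 + 1) ≤ (n) ∧ (i + m + 2) ≤ (k) ∧ (i) ≤ (i2) ∧ (i2) ≤ (i) ∧ (i + m + 2) ≤ (k3) ∧ (k3) ≤ (i + l + m + 1) ∧ (m + k3 + 2) ≤ (n + i2)) (a1 : Par W (0) (j) (k - j)) (a2 : Par W (Q + j - k) (j) (k - j)) (s1 : Ant W (0) (i) (i + j)) (s2 : Ant W (j + 1) (Q) (i + j)) (b : Par W (i + 1) (i + l + 1) (k - i)) (c1 : Par W (i2 + 1) (Q) (k + l - i2 + 1)) (c2 : Par W (k + l + 2) (n) (i2 - k - l - 1)) (tt : Ant W (i2 - m) (i2) (i + l + i2 + 1)) (D1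 : Par W (Q) (k3) (n + i2 - m - k3 - 1)) (D2 : Par W (i + l + m + 3) (n) (k3 - i - l - m - 2)) {L : ℤ} (mx : ∀ a b g, 0 < g → g < n → Par W a b g → b - a ≤ L) (hL : L ≤ (n - j - 3) ∧ L ≤ (n + Q - k - 3) ∧ L ≤ (n - l - 3) ∧ L ≤ (n + i - k - 2)) (bd0 : Bd W n L (j) (i) (k)) (n1 : Nd W (j) (i) (k)) (n2 : Nd W (i + l + 1) (i2) (k + l + 1)) (n3 : Nd W (n + i2 - m - 1) (i + l + m + 2) (k3)) (d1 : ℤ) (q1 : d1 % 2 = 0) (x1 : Par W (n + i + 1) (n + k + l - d1 + 1) d1) (b0 : (2 * l + 3) ≤ (n)) (b1 : (2 * i + j + 1) ≤ (k)) (b2 : (k + i2 + m + 1) ≤ (i + k3)) (b3 : (2 * Q + k + 2 * l + 2 * m + 4) ≤ (n + j + 2 * k3)) (b4 : (i + 2 * l + 2 * m + 4) ≤ (n + j)) (b5 : (3 * k) ≤ (i + 2 * j + k3)) (b6 : (n + 2 * k3) ≤ (i + 2 * k + 2 * l + 2 * m + 3)) (b7 : (2 * i + k + 2 * l + 3 * m + 6) ≤ (n + j + i2 + k3)) (b8 : (4 * k + l + k3 + 1) ≤ (n + 2 * i + 2 * i2 + m)) (b9 : (i + 5 * j + 1) ≤ (4 * k)) (b10 : (i +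 l + m + 3) ≤ (k + d1)) (b11 : (d1) ≤ (l + m + 2)), False)
    (h8_63 : ∀ {W : ℤ → G} {n Q i j k l i2 m k3 : ℤ} (al : AL W n Q) (hy : (0) ≤ (i) ∧ (i) ≤ (j) ∧ (j + 1) ≤ (Q) ∧ (Q) ≤ (k) ∧ (k + 1) ≤ (n) ∧ (Q) ≤ (i + l + 1) ∧ (k + l + 2) ≤ (n) ∧ (0) ≤ (i2) ∧ (i2 + 1) ≤ (Q) ∧ (Q + m + 1) ≤ (n + i2) ∧ (i2) ≤ (m) ∧ (Q) ≤ (i + l + m + 2) ∧ (i + l + m + 3) ≤ (n) ∧ (Q) ≤ (k3) ∧ (k3 + 1) ≤ (n) ∧ (i + m + 2) ≤ (k) ∧ (i) ≤ (i2) ∧ (i2) ≤ (i) ∧ (i + m + 2) ≤ (k3) ∧ (k3) ≤ (i + l + m + 1) ∧ (m + k3 + 2) ≤ (n + i2)) (a1 : Par W (0) (j) (k - j)) (a2 : Par W (Q + j - k) (j) (k - j)) (s1 : Ant W (0) (i) (i + j)) (s2 : Ant W (j + 1) (Q) (i + j)) (b : Par W (i + 1) (i + l + 1) (k - i)) (c1 : Par W (i2 + 1) (Q) (k + l - i2 + 1)) (c2 : Par W (k + l + 2) (n) (i2 - k - l - 1)) (tt : Ant W (i2 - m) (i2) (i + l + i2 + 1)) (D1 : Par W (Q) (k3) (n + i2 - m - k3 - 1)) (D2 : Par W (i + l + m + 3) (n) (k3 - i - l - m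 - 2)) {L : ℤ} (mx : ∀ a b g, 0 < g → g < n → Par W a b g → b - a ≤ L) (hL : L ≤ (n - j - 3) ∧ L ≤ (n + Q - k - 3) ∧ L ≤ (n - l - 3) ∧ L ≤ (n + i - k - 2)) (bd0 : Bd W n L (j) (i) (k)) (n1 : Nd W (j) (i) (k)) (n2 : Nd W (i + l + 1) (i2) (k + l + 1)) (n3 : Nd W (n + i2 - m - 1) (i + l + m + 2) (k3)) (d1 : ℤ) (q1 : d1 % 2 = 0) (x1 : Par W (i + 1) (k + l - d1 + 1) d1) (b0 : (2 * l + 3) ≤ (n)) (b1 : (2 * i + j + 1) ≤ (k)) (b2 : (k + i2 + m + 1) ≤ (i + k3)) (b3 : (2 * Q + k + 2 * l + 2 * m + 4) ≤ (n + j + 2 * k3)) (b4 : (i + 2 * l + 2 * m + 4) ≤ (n + j)) (b5 : (3 * k) ≤ (i + 2 * j + k3)) (b6 : (n + 2 * k3) ≤ (i + 2 * k + 2 * l + 2 * m + 3)) (b7 : (2 * i + k + 2 * l + 3 * m + 6) ≤ (n + j + i2 + k3)) (b8 : (4 * k + l + k3 + 1) ≤ (n + 2 * i + 2 * i2 + m)) (b9 : (i + 4 * k) ≤ (5 * j + 1)) (b10 : (i + k + l + 1) ≤ (Q + j + d1)) (b11 : (Q + j + d1) ≤ (2 * k + l)), False)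
    {W : ℤ → G} {n Q i j k l i2 m k3 : ℤ} (al : AL W n Q)
    (hy : (0) ≤ (i) ∧ (i) ≤ (j) ∧ (j + 1) ≤ (Q) ∧ (Q) ≤ (k) ∧ (k + 1) ≤ (n) ∧ (Q) ≤ (i + l + 1) ∧ (k + l + 2) ≤ (n) ∧ (0) ≤ (i2) ∧ (i2 + 1) ≤ (Q) ∧ (Q + m + 1) ≤ (n + i2) ∧ (i2) ≤ (m) ∧ (Q) ≤ (i + l + m + 2) ∧ (i + l + m + 3) ≤ (n) ∧ (Q) ≤ (k3) ∧ (k3 + 1) ≤ (n) ∧ (i + m + 2) ≤ (k) ∧ (i) ≤ (i2) ∧ (i2) ≤ (i) ∧ (i + m + 2) ≤ (k3) ∧ (k3) ≤ (i + l + m + 1) ∧ (m + k3 + 2) ≤ (n + i2))
    (a1 : Par W (0) (j) (k - j))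
    (a2 : Par W (Q + j - k) (j) (k - j))
    (s1 : Ant W (0) (i) (i + j))
    (s2 : Ant W (j + 1) (Q) (i + j))
    (b : Par W (i + 1) (i + l + 1) (k - i))
    (c1 : Par W (i2 + 1) (Q) (k + l - i2 + 1))
    (c2 : Par W (k + l + 2) (n) (i2 - k - l - 1))
    (tt : Ant W (i2 - m) (i2) (i + l + i2 + 1))
    (D1 : Par W (Q) (k3) (n + i2 - m - k3 - 1))
    (D2 : Par W (i + l + m + 3) (n) (k3 - i - l - m - 2))
    {L : ℤ} (mx : ∀ a b g, 0 < g → g < n → Par W a b g → b - a ≤ L)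
    (hL : L ≤ (n - j - 3) ∧ L ≤ (n + Q - k - 3) ∧ L ≤ (n - l - 3) ∧ L ≤ (n + i - k - 2))
    (bd0 : Bd W n L (j) (i) (k))
    (n1 : Nd W (j) (i) (k))
    (n2 : Nd W (i + l + 1) (i2) (k + l + 1))
    (n3 : Nd W (n + i2 - m - 1) (i + l + m + 2) (k3))
    (b0 : (2 * l + 3) ≤ (n))
    (b1 : (2 * i + j + 1) ≤ (k))
    (b2 : (k + i2 + m + 1) ≤ (i + k3))
    (b3 : (2 * Q + k + 2 * l + 2 * m + 4) ≤ (n + j + 2 * k3))
    (b4 : (i + 2 * l + 2 * m + 4) ≤ (n + j))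
    (b5 : (3 * k) ≤ (i + 2 * j + k3))
    (b6 : (n + 2 * k3) ≤ (i + 2 * k + 2 * l + 2 * m + 3))
    (b7 : (2 * i + k + 2 * l + 3 * m + 6) ≤ (n + j + i2 + k3))
    (b8 : (4 * k + l + k3 + 1) ≤ (n + 2 * i + 2 * i2 + m)) : False := by
  have ev := al.ev
  obtain ⟨y0, y1, y2, y3, y4, y5, y6, y7, y8, y9, y10, y11, y12, y13, y14, y15, y16, y17, y18, y19, y20⟩ := id hy
  have n1p := And.intro n1.p1 n1.p2
  have n2p := And.intro n2.p1 n2.p2
  have n3p := And.intro n3.p1 n3.p2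
  by_cases z116 : (5 * j + 2) ≤ (i + 4 * k)
  · by_cases z117 : (4 * k) ≤ (i + 5 * j)
    · have kk1371 : (4 * k) ≤ (i + 5 * j) := by clear * - z117; omega
      have kk1372 : (5 * j + 1) ≤ (i + 4 * k) := by clear * - z116; omega
      have kk1373 : (j) ≤ (k) := by clear * - b1 z116 z117; omega
      have kk1374 : (i + 2 * j + 1) ≤ (2 * k) := by clear * - b1 z116 z117; omega
      have kk1375 : (i + j + 1) ≤ (k) := by clear * - b1 z116 z117; omega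
      have kk1376 : (2 * k) ≤ (3 * j + 1) := by clear * - b1 z116 z117; omega
      have r1377 : (i + j - 2 * n) % 2 = 0 := by clear * - ev n1p n2p n3p; omega
      clear * - al a1 s1 kk1371 kk1372 kk1373 kk1374 kk1375 kk1376 r1377
      obtain ⟨t, ht⟩ : ∃ t, 2 * t = (i + j - 2 * n) := ⟨(i + j - 2 * n) / 2, by omega⟩
      exact al.ninv t (cE (cE (cE (cI (cE (pb a1 al (-1) t (t + (n + j - k)) (by omega)) (pb a1 al 0 (t + (n + j - k)) (t + (n + 2 * j - 2 * k)) (by omega))) (qa s1 al 0 (t + (n + 2 * j - 2 * k)) ((i + 2 * k - n - j) - t) (by omega))) (pb a1 al 0 ((i + 2 * k - n - j) - t) ((i + k - n) - t) (by omega))) (pb a1 al 0 ((i + k - n) - t) ((i + j - n) - t) (by omega))) (sh al (-1) ((i + j - n) - t) t (by omega)))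
    · have kk1378 : (i + 1) ≤ (k) := by clear * - b1 b4 b5 b6 z117; omega
      have kk1379 : (0) ≤ (l + m + 2) := by clear * - b1 b2 b4 b5 b6 b8 z117; omega
      have r1380 : (k - i) % 2 = 0 := by clear * - ev n1p n2p n3p; omega
      obtain ⟨d1, p1, x1⟩ : ∃ d1, ((l + m + 2) - (k - i) < d1 ∧ d1 ≤ (l + m + 2) ∧ 0 ≤ d1 ∧ d1 % 2 = 0) ∧ Par W (n + i + 1) ((n + k + l + 1) - d1) d1 := by
        clear * - al b kk1378 kk1379 r1380
        exact jmp (k - i) (n + i + 1) (n + k + l + 1) (l + m + 2) (by omega) (fun t h1 h2 => (cE (qf b al 1 t (t + (k - n - i)) (by omega)) (sh al 1 (t + (k - n - i)) (t + (k - i)) (by omega))))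
      replace x1 : Par W (n + i + 1) (n + k + l - d1 + 1) d1 := x1.cq (by clear * -; omega)
      exact h8_62 al hy a1 a2 s1 s2 b c1 c2 tt D1 D2 mx hL bd0 n1 n2 n3 d1 (by clear * - p1; omega) x1 (by clear * - b0; omega) (by clear * - b1; omega) (by clear * - b2; omega) (by clear * - b3; omega) (by clear * - b4; omega) (by clear * - b5; omega) (by clear * - b6; omega) (by clear * - b7; omega) (by clear * - b8; omega) (by clear * - z117; omega) (by clear * - p1; omega) (by clear * - p1; omega)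
  · have kk1431 : (i + 1) ≤ (k) := by clear * - b0 b1 b6 y18 z116; omega
    have kk1432 : (Q + j) ≤ (2 * k + l) := by clear * - b0 b1 b2 b3 b6 b8 y16 z116; omega
    have r1433 : (k - i) % 2 = 0 := by clear * - ev n1p n2p n3p; omega
    obtain ⟨d1, p1, x1⟩ : ∃ d1, ((2 * k + l - Q - j) - (k - i) < d1 ∧ d1 ≤ (2 * k + l - Q - j) ∧ 0 ≤ d1 ∧ d1 % 2 = 0) ∧ Par W (i + 1) ((k + l + 1) - d1) d1 := by
      clear * - al b kk1431 kk1432 r1433
      exact jmp (k - i) (i + 1) (k + l + 1) (2 * k + l - Q - j) (by omega) (fun t h1 h2 => (qf b al 0 t (t + (k - i)) (by omega)))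
    replace x1 : Par W (i + 1) (k + l - d1 + 1) d1 := x1.cq (by clear * -; omega)
    exact h8_63 al hy a1 a2 s1 s2 b c1 c2 tt D1 D2 mx hL bd0 n1 n2 n3 d1 (by clear * - p1; omega) x1 (by clear * - b0; omega) (by clear * - b1; omega) (by clear * - b2; omega) (by clear * - b3; omega) (by clear * - b4; omega) (by clear * - b5; omega) (by clear * - b6; omega) (by clear * - b7; omega) (by clear * - b8; omega) (by clear * - z116; omega) (by clear * - p1; omega) (by clear * - p1; omega)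

theorem h8_60p
    (h8_61 : ∀ {W : ℤ → G} {n Q i j k l i2 m k3 : ℤ} (al : AL W n Q) (hy : (0) ≤ (i) ∧ (i) ≤ (j) ∧ (j + 1) ≤ (Q) ∧ (Q) ≤ (k) ∧ (k + 1) ≤ (n) ∧ (Q) ≤ (i + l + 1) ∧ (k + l + 2) ≤ (n) ∧ (0) ≤ (i2) ∧ (i2 + 1) ≤ (Q) ∧ (Q + m + 1) ≤ (n + i2) ∧ (i2) ≤ (m) ∧ (Q) ≤ (i + l + m + 2) ∧ (i + l + m + 3) ≤ (n) ∧ (Q) ≤ (k3) ∧ (k3 + 1) ≤ (n) ∧ (i + m + 2) ≤ (k) ∧ (i) ≤ (i2) ∧ (i2) ≤ (i) ∧ (i + m + 2) ≤ (k3) ∧ (k3) ≤ (i + l + m + 1) ∧ (m + k3 + 2) ≤ (n + i2)) (a1 : Par W (0) (j) (k - j)) (a2 : Par W (Q + j - k) (j) (k - j)) (s1 : Ant W (0) (i) (i + j)) (s2 : Ant W (j + 1) (Q) (i + j)) (b : Par W (i + 1) (i + l + 1) (k - i)) (c1 : Par W (i2 + 1) (Q) (k + l - i2 + 1)) (c2 : Par W (k + l + 2) (n) (i2 - k - l - 1)) (tt : Ant W (i2 - m) (i2) (i + l + i2 + 1)) (D1 : Par W (Q) (k3) (n + i2 - m - k3 - 1)) (D2 : Par W (i + l + m + 3) (n) (k3 - i - l - m - 2)) {L : ℤ} (mx : ∀ a b g, 0 < g → g < n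 → Par W a b g → b - a ≤ L) (hL : L ≤ (n - j - 3) ∧ L ≤ (n + Q - k - 3) ∧ L ≤ (n - l - 3) ∧ L ≤ (n + i - k - 2)) (bd0 : Bd W n L (j) (i) (k)) (n1 : Nd W (j) (i) (k)) (n2 : Nd W (i + l + 1) (i2) (k + l + 1)) (n3 : Nd W (n + i2 - m - 1) (i + l + m + 2) (k3)) (b0 : (2 * l + 3) ≤ (n)) (b1 : (2 * i + j + 1) ≤ (k)) (b2 : (k + i2 + m + 1) ≤ (i + k3)) (b3 : (2 * Q + k + 2 * l + 2 * m + 4) ≤ (n + j + 2 * k3)) (b4 : (i + 2 * l + 2 * m + 4) ≤ (n + j)) (b5 : (3 * k) ≤ (i + 2 * j + k3)) (b6 : (n + 2 * k3) ≤ (i + 2 * k + 2 * l + 2 * m + 3)) (b7 : (2 * i + k + 2 * l + 3 * m + 6) ≤ (n + j + i2 + k3)) (b8 : (4 * k + l + k3 + 1) ≤ (n + 2 * i + 2 * i2 + m)), False)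
    {W : ℤ → G} {n Q i j k l i2 m k3 : ℤ} (al : AL W n Q)
    (hy : (0) ≤ (i) ∧ (i) ≤ (j) ∧ (j + 1) ≤ (Q) ∧ (Q) ≤ (k) ∧ (k + 1) ≤ (n) ∧ (Q) ≤ (i + l + 1) ∧ (k + l + 2) ≤ (n) ∧ (0) ≤ (i2) ∧ (i2 + 1) ≤ (Q) ∧ (Q + m + 1) ≤ (n + i2) ∧ (i2) ≤ (m) ∧ (Q) ≤ (i + l + m + 2) ∧ (i + l + m + 3) ≤ (n) ∧ (Q) ≤ (k3) ∧ (k3 + 1) ≤ (n) ∧ (i + m + 2) ≤ (k) ∧ (i) ≤ (i2) ∧ (i2) ≤ (i) ∧ (i + m + 2) ≤ (k3) ∧ (k3) ≤ (i + l + m + 1) ∧ (m + k3 + 2) ≤ (n + i2))
    (a1 : Par W (0) (j) (k - j))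
    (a2 : Par W (Q + j - k) (j) (k - j))
    (s1 : Ant W (0) (i) (i + j))
    (s2 : Ant W (j + 1) (Q) (i + j))
    (b : Par W (i + 1) (i + l + 1) (k - i))
    (c1 : Par W (i2 + 1) (Q) (k + l - i2 + 1))
    (c2 : Par W (k + l + 2) (n) (i2 - k - l - 1))
    (tt : Ant W (i2 - m) (i2) (i + l + i2 + 1))
    (D1 : Par W (Q) (k3) (n + i2 - m - k3 - 1))
    (D2 : Par W (i + l + m + 3) (n) (k3 - i - l - m - 2))
    {L : ℤ} (mx : ∀ a b g, 0 < g → g < n → Par W a b g → b - a ≤ L)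
    (hL : L ≤ (n - j - 3) ∧ L ≤ (n + Q - k - 3) ∧ L ≤ (n - l - 3) ∧ L ≤ (n + i - k - 2))
    (bd0 : Bd W n L (j) (i) (k))
    (n1 : Nd W (j) (i) (k))
    (n2 : Nd W (i + l + 1) (i2) (k + l + 1))
    (n3 : Nd W (n + i2 - m - 1) (i + l + m + 2) (k3))
    (b0 : (2 * l + 3) ≤ (n))
    (b1 : (2 * i + j + 1) ≤ (k))
    (b2 : (k + i2 + m + 1) ≤ (i + k3))
    (b3 : (2 * Q + k + 2 * l + 2 * m + 4) ≤ (n + j + 2 * k3))
    (b4 : (i + 2 * l + 2 * m + 4) ≤ (n + j))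
    (b5 : (3 * k) ≤ (i + 2 * j + k3))
    (b6 : (n + 2 * k3) ≤ (i + 2 * k + 2 * l + 2 * m + 3))
    (b7 : (3 * k + m + k3) ≤ (4 * i + l + 2 * i2 + 1))
    (b8 : (2 * i + k + 2 * l + 3 * m + 6) ≤ (n + j + i2 + k3)) : False := by
  have ev := al.ev
  obtain ⟨y0, y1, y2, y3, y4, y5, y6, y7, y8, y9, y10, y11, y12, y13, y14, y15, y16, y17, y18, y19, y20⟩ := id hy
  have n1p := And.intro n1.p1 n1.p2
  have n2p := And.intro n2.p1 n2.p2
  have n3p := And.intro n3.p1 n3.p2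
  by_cases z115 : (n + 2 * i + 2 * i2 + m) ≤ (4 * k + l + k3)
  · have kk1362 : (4 * k + l + k3 + 1) ≤ (n + 2 * i + j + 2 * i2 + m) := by clear * - b0 b1 b2 b5 b6 b7 y16; omega
    have kk1363 : (2 * i + j + 2 * i2 + m + 1) ≤ (4 * k + l + k3) := by clear * - b0 b1 b2 b5 b6 b7 y18; omega
    have kk1364 : (i) ≤ (k3) := by clear * - b0 b1 b2 b5 b6 b8 y16; omega
    have kk1365 : (2 * i + 2 * l + m + 3) ≤ (n + k3) := by clear * - b0 b1 b5 b6 b7 y18 z115; omega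
    have kk1366 : (2 * i + i2 + m + 1) ≤ (2 * k + k3) := by clear * - b0 b1 b2 b5 b6 b8 y18; omega
    have kk1367 : (j + i2 + 1) ≤ (k) := by clear * - b0 b1 b2 b6 y16; omega
    have kk1368 : (i + j + i2 + m + 2) ≤ (2 * k) := by clear * - b0 b1 b2 b5 b6 b7 z115; omega
    have kk1369 : (n + i2) ≤ (2 * k + 2 * l + 2) := by clear * - b0 b1 b2 b5 b6 b8 y18; omega
    have kk1370 : (n + 2 * i + 2 * i2 + m) ≤ (4 * k + l + k3) := by clear * - z115; omega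
    clear * - al a1 b c2 D2 kk1362 kk1363 kk1364 kk1365 kk1366 kk1367 kk1368 kk1369 kk1370
    exact al.ubP (n + 2 * i + j + 2 * i2 + m - 4 * k - l - k3) (by omega) (by omega) fun t h1 h2 => (cE (cE (cE (qf c2 al (-1) t (t + (n + i2 - k - l - 1)) (by omega)) (qf (show Par W (k + k3 - i + 1) (k + l + 1) (2 * i + l + m - k - k3 + 2) from fun t h1 h2 => (cE (sh al (-1) t (t + (-n)) (by omega)) (cE (pb b al (-1) (t + (-n)) (t + (i - k)) (by omega)) (pb D2 al 0 (t + (i - k)) (t + (2 * i + l + m - k - k3 + 2)) (by omega))))) al 0 (t + (n + i2 - k - l - 1)) (t + (n + 2 * i + i2 + m - 2 * k - k3 + 1)) (by omega))) (qf c2 al 0 (t + (n + 2 * i + i2 + m - 2 * k - k3 + 1)) (t + (n + 2 * i + 2 * i2 + m - 3 * k - l - k3)) (by omega))) (pb a1 al 0 (t + (n + 2 * i + 2 * i2 + m - 3 * k - l - k3)) (t + (n + 2 * i + j + 2 * i2 + m - 4 * k - l - k3)) (by omega)))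
  · exact h8_61 al hy a1 a2 s1 s2 b c1 c2 tt D1 D2 mx hL bd0 n1 n2 n3 (by clear * - b0; omega) (by clear * - b1; omega) (by clear * - b2; omega) (by clear * - b3; omega) (by clear * - b4; omega) (by clear * - b5; omega) (by clear * - b6; omega) (by clear * - b8; omega) (by clear * - z115; omega)

theorem h8_38p
    (h8_39 : ∀ {W : ℤ → G} {n Q i j k l i2 m k3 : ℤ} (al : AL W n Q) (hy : (0) ≤ (i) ∧ (i) ≤ (j) ∧ (j + 1) ≤ (Q) ∧ (Q) ≤ (k) ∧ (k + 1) ≤ (n) ∧ (Q) ≤ (i + l + 1) ∧ (k + l + 2) ≤ (n) ∧ (0) ≤ (i2) ∧ (i2 + 1) ≤ (Q) ∧ (Q + m + 1) ≤ (n + i2) ∧ (i2) ≤ (m) ∧ (Q) ≤ (i + l + m + 2) ∧ (i + l + m + 3) ≤ (n) ∧ (Q) ≤ (k3) ∧ (k3 + 1) ≤ (n) ∧ (i + m + 2) ≤ (k) ∧ (i) ≤ (i2) ∧ (i2) ≤ (i) ∧ (i + m + 2) ≤ (k3) ∧ (k3) ≤ (i + l + m + 1) ∧ (m + k3 + 2) ≤ (n + i2)) (a1 : Par W (0) (j) (k - j)) (a2 : Par W (Q + j - k) (j) (k - j)) (s1 : Ant W (0) (i) (i + j)) (s2 : Ant W (j + 1) (Q) (i + j)) (b : Par W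 (i + 1) (i + l + 1) (k - i)) (c1 : Par W (i2 + 1) (Q) (k + l - i2 + 1)) (c2 : Par W (k + l + 2) (n) (i2 - k - l - 1)) (tt : Ant W (i2 - m) (i2) (i + l + i2 + 1)) (D1 : Par W (Q) (k3) (n + i2 - m - k3 - 1)) (D2 : Par W (i + l + m + 3) (n) (k3 - i - l - m - 2)) {L : ℤ} (mx : ∀ a b g, 0 < g → g < n → Par W a b g → b - a ≤ L) (hL : L ≤ (n - j - 3) ∧ L ≤ (n + Q - k - 3) ∧ L ≤ (n - l - 3) ∧ L ≤ (n + i - k - 2)) (bd0 : Bd W n L (j) (i) (k)) (n1 : Nd W (j) (i) (k)) (n2 : Nd W (i + l + 1) (i2) (k + l + 1)) (n3 : Nd W (n + i2 - m - 1) (i + l + m + 2) (k3)) (b0 : (2 * l + 3) ≤ (n)) (b1 : (2 * i + j + 1) ≤ (k)) (b2 : (n + k3) ≤ (i + k + 2 * l + m + 3)) (b3 : (k + i2 + m + 1) ≤ (i + k3)) (b4 : (2 * i + 2 * l + 3 * m + 6) ≤ (n + i2 + k3)) (b5 : (k + l + m + k3 + 3) ≤ (n + 2 * i2)) (b6 : (3 * k + l + 2) ≤ (n + i + i2)) (b7 : (i + k) ≤ (2 * j + 1)), False)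
    {W : ℤ → G} {n Q i j k l i2 m k3 : ℤ} (al : AL W n Q)
    (hy : (0) ≤ (i) ∧ (i) ≤ (j) ∧ (j + 1) ≤ (Q) ∧ (Q) ≤ (k) ∧ (k + 1) ≤ (n) ∧ (Q) ≤ (i + l + 1) ∧ (k + l + 2) ≤ (n) ∧ (0) ≤ (i2) ∧ (i2 + 1) ≤ (Q) ∧ (Q + m + 1) ≤ (n + i2) ∧ (i2) ≤ (m) ∧ (Q) ≤ (i + l + m + 2) ∧ (i + l + m + 3) ≤ (n) ∧ (Q) ≤ (k3) ∧ (k3 + 1) ≤ (n) ∧ (i + m + 2) ≤ (k) ∧ (i) ≤ (i2) ∧ (i2) ≤ (i) ∧ (i + m + 2) ≤ (k3) ∧ (k3) ≤ (i + l + m + 1) ∧ (m + k3 + 2) ≤ (n + i2))
    (a1 : Par W (0) (j) (k - j))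
    (a2 : Par W (Q + j - k) (j) (k - j))
    (s1 : Ant W (0) (i) (i + j))
    (s2 : Ant W (j + 1) (Q) (i + j))
    (b : Par W (i + 1) (i + l + 1) (k - i))
    (c1 : Par W (i2 + 1) (Q) (k + l - i2 + 1))
    (c2 : Par W (k + l + 2) (n) (i2 - k - l - 1))
    (tt : Ant W (i2 - m) (i2) (i + l + i2 + 1))
    (D1 : Par W (Q) (k3) (n + i2 - m - k3 - 1))
    (D2 : Par W (i + l + m + 3) (n) (k3 - i - l - m - 2))
    {L : ℤ} (mx : ∀ a b g, 0 < g → g < n → Par W a b g → b - a ≤ L)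
    (hL : L ≤ (n - j - 3) ∧ L ≤ (n + Q - k - 3) ∧ L ≤ (n - l - 3) ∧ L ≤ (n + i - k - 2))
    (bd0 : Bd W n L (j) (i) (k))
    (n1 : Nd W (j) (i) (k))
    (n2 : Nd W (i + l + 1) (i2) (k + l + 1))
    (n3 : Nd W (n + i2 - m - 1) (i + l + m + 2) (k3))
    (b0 : (2 * l + 3) ≤ (n))
    (b1 : (k + i2 + 1) ≤ (Q + j + m))
    (b2 : (2 * i + j + 1) ≤ (k))
    (b3 : (n + k3) ≤ (i + k + 2 * l + m + 3))
    (b4 : (k + i2 + m + 1) ≤ (i + k3))
    (b5 : (2 * i + 2 * l + 3 * m + 6) ≤ (n + i2 + k3))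
    (b6 : (k + l + m + k3 + 3) ≤ (n + 2 * i2))
    (b7 : (k) ≤ (i + 2 * j + 1))
    (b8 : (3 * k + l + 2) ≤ (n + i + i2)) : False := by
  have ev := al.ev
  obtain ⟨y0, y1, y2, y3, y4, y5, y6, y7, y8, y9, y10, y11, y12, y13, y14, y15, y16, y17, y18, y19, y20⟩ := id hy
  have n1p := And.intro n1.p1 n1.p2
  have n2p := And.intro n2.p1 n2.p2
  have n3p := And.intro n3.p1 n3.p2
  by_cases z74 : (2 * j + 2) ≤ (i + k)
  · by_cases v28 : (2 * j + 1) ≤ (k)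
    · have kk890 : (k) ≤ (i + 2 * j) := by clear * - b7 ev n1p n2p n3p; omega
      have kk891 : (k) ≤ (i + 2 * j + 1) := by clear * - b7; omega
      have kk892 : (2 * j + 1) ≤ (k) := by clear * - v28; omega
      have kk893 : (i + j + 1) ≤ (k) := by clear * - b2 b7 v28; omega
      have r894 : (i + 2 * j - k) % 2 = 0 := by clear * - ev n1p n2p n3p; omega
      clear * - al a1 s1 kk890 kk891 kk892 kk893 r894
      obtain ⟨t, ht⟩ : ∃ t, 2 * t = (i + 2 * j - k) := ⟨(i + 2 * j - k) / 2, by omega⟩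
      exact al.ninv t (cI (qf a1 al 0 t (t + (k - j)) (by omega)) (ab s1 al 0 (t + (k - j)) t (by omega)))
    · have kk895 : (2 * j + 2) ≤ (i + k) := by clear * - z74; omega
      have kk896 : (k) ≤ (i + 2 * j + 1) := by clear * - v28 z74; omega
      have kk897 : (k) ≤ (2 * j + 1) := by clear * - v28; omega
      have kk898 : (i + j + 1) ≤ (k) := by clear * - b2 v28 z74; omega
      have r899 : (i + 2 * j - k) % 2 = 0 := by clear * - ev n1p n2p n3p; omega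
      clear * - al a1 s1 kk895 kk896 kk897 kk898 r899
      obtain ⟨t, ht⟩ : ∃ t, 2 * t = (i + 2 * j - k) := ⟨(i + 2 * j - k) / 2, by omega⟩
      exact al.ninv t (cI (qf a1 al 0 t (t + (k - j)) (by omega)) (ab s1 al 0 (t + (k - j)) t (by omega)))
  · exact h8_39 al hy a1 a2 s1 s2 b c1 c2 tt D1 D2 mx hL bd0 n1 n2 n3 (by clear * - b0; omega) (by clear * - b2; omega) (by clear * - b3; omega) (by clear * - b4; omega) (by clear * - b5; omega) (by clear * - b6; omega) (by clear * - b8; omega) (by clear * - z74; omega)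

theorem h8_27p
    (h8_28 : ∀ {W : ℤ → G} {n Q i j k l i2 m k3 : ℤ} (al : AL W n Q) (hy : (0) ≤ (i) ∧ (i) ≤ (j) ∧ (j + 1) ≤ (Q) ∧ (Q) ≤ (k) ∧ (k + 1) ≤ (n) ∧ (Q) ≤ (i + l + 1) ∧ (k + l + 2) ≤ (n) ∧ (0) ≤ (i2) ∧ (i2 + 1) ≤ (Q) ∧ (Q + m + 1) ≤ (n + i2) ∧ (i2) ≤ (m) ∧ (Q) ≤ (i + l + m + 2) ∧ (i + l + m + 3) ≤ (n) ∧ (Q) ≤ (k3) ∧ (k3 + 1) ≤ (n) ∧ (i + m + 2) ≤ (k) ∧ (i) ≤ (i2) ∧ (i2) ≤ (i) ∧ (i + m + 2) ≤ (k3) ∧ (k3) ≤ (i + l + m + 1) ∧ (m + k3 + 2) ≤ (n + i2)) (a1 : Par W (0) (j) (k - j)) (a2 : Par W (Q + j - k) (j) (k - j)) (s1 : Ant W (0) (i) (i + j)) (s2 : Ant W (j + 1) (Q) (i + j)) (b : Par W (i + 1) (i + l + 1) (k - i)) (c1 : Par W (i2 + 1) (Q) (k + l - i2 + 1)) (c2 : Par W (k + l + 2) (n) (i2 - k - l - 1)) (tt : Ant W (i2 - m) (i2) (i + l + i2 + 1)) (D1 : Par W (Q) (k3) (n + i2 - m - k3 - 1)) (D2 : Par W (i + l + m + 3) (n) (k3 - i - l - m - 2)) {L : ℤ} (mx : ∀ a b g, 0 < g → g < n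 → Par W a b g → b - a ≤ L) (hL : L ≤ (n - j - 3) ∧ L ≤ (n + Q - k - 3) ∧ L ≤ (n - l - 3) ∧ L ≤ (n + i - k - 2)) (bd0 : Bd W n L (j) (i) (k)) (n1 : Nd W (j) (i) (k)) (n2 : Nd W (i + l + 1) (i2) (k + l + 1)) (n3 : Nd W (n + i2 - m - 1) (i + l + m + 2) (k3)) (b0 : (2 * l + 3) ≤ (n)) (b1 : (2 * i + 2 * l + 3 * m + 5) ≤ (n + i2 + k3)) (b2 : (k + i2 + 1) ≤ (Q + j + m)) (b3 : (2 * i + j + 1) ≤ (k)) (b4 : (2 * Q + k + l) ≤ (n + 2 * j + i2)) (b5 : (1) ≤ (m)) (b6 : (Q + k + l + 1) ≤ (n + i2)) (b7 : (Q + m + 1) ≤ (k3)) (b8 : (n + k3) ≤ (i + k + 2 * l + m + 3)) (b9 : (k + k3) ≤ (2 * i + l + m + 1)), False)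
    {W : ℤ → G} {n Q i j k l i2 m k3 : ℤ} (al : AL W n Q)
    (hy : (0) ≤ (i) ∧ (i) ≤ (j) ∧ (j + 1) ≤ (Q) ∧ (Q) ≤ (k) ∧ (k + 1) ≤ (n) ∧ (Q) ≤ (i + l + 1) ∧ (k + l + 2) ≤ (n) ∧ (0) ≤ (i2) ∧ (i2 + 1) ≤ (Q) ∧ (Q + m + 1) ≤ (n + i2) ∧ (i2) ≤ (m) ∧ (Q) ≤ (i + l + m + 2) ∧ (i + l + m + 3) ≤ (n) ∧ (Q) ≤ (k3) ∧ (k3 + 1) ≤ (n) ∧ (i + m + 2) ≤ (k) ∧ (i) ≤ (i2) ∧ (i2) ≤ (i) ∧ (i + m + 2) ≤ (k3) ∧ (k3) ≤ (i + l + m + 1) ∧ (m + k3 + 2) ≤ (n + i2))
    (a1 : Par W (0) (j) (k - j))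
    (a2 : Par W (Q + j - k) (j) (k - j))
    (s1 : Ant W (0) (i) (i + j))
    (s2 : Ant W (j + 1) (Q) (i + j))
    (b : Par W (i + 1) (i + l + 1) (k - i))
    (c1 : Par W (i2 + 1) (Q) (k + l - i2 + 1))
    (c2 : Par W (k + l + 2) (n) (i2 - k - l - 1))
    (tt : Ant W (i2 - m) (i2) (i + l + i2 + 1))
    (D1 : Par W (Q) (k3) (n + i2 - m - k3 - 1))
    (D2 : Par W (i + l + m + 3) (n) (k3 - i - l - m - 2))
    {L : ℤ} (mx : ∀ a b g, 0 < g → g < n → Par W a b g → b - a ≤ L)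
    (hL : L ≤ (n - j - 3) ∧ L ≤ (n + Q - k - 3) ∧ L ≤ (n - l - 3) ∧ L ≤ (n + i - k - 2))
    (bd0 : Bd W n L (j) (i) (k))
    (n1 : Nd W (j) (i) (k))
    (n2 : Nd W (i + l + 1) (i2) (k + l + 1))
    (n3 : Nd W (n + i2 - m - 1) (i + l + m + 2) (k3))
    (b0 : (2 * l + 3) ≤ (n))
    (b1 : (2 * i + 2 * l + 3 * m + 5) ≤ (n + i2 + k3))
    (b2 : (k + i2 + 1) ≤ (Q + j + m))
    (b3 : (2 * i + j + 1) ≤ (k))
    (b4 : (2 * Q + k + l) ≤ (n + 2 * j + i2))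
    (b5 : (1) ≤ (m))
    (b6 : (Q + k + l + 1) ≤ (n + i2))
    (b7 : (Q + m + 1) ≤ (k3))
    (b8 : (k + k3) ≤ (i + l + i2 + m + 2))
    (b9 : (n + k3) ≤ (i + k + 2 * l + m + 3)) : False := by
  have ev := al.ev
  obtain ⟨y0, y1, y2, y3, y4, y5, y6, y7, y8, y9, y10, y11, y12, y13, y14, y15, y16, y17, y18, y19, y20⟩ := id hy
  have n1p := And.intro n1.p1 n1.p2
  have n2p := And.intro n2.p1 n2.p2
  have n3p := And.intro n3.p1 n3.p2
  by_cases z57 : (2 * i + l + m + 2) ≤ (k + k3)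
  · have kk725 : (k) ≤ (i + l + m + 1) := by clear * - b5 b8 y17 y18; omega
    have kk726 : (i + m + 2) ≤ (k) := by clear * - b1 b2 b3 b6 b9 y17 z57; omega
    have kk727 : (k + k3) ≤ (2 * i + l + m + 2) := by clear * - b8 y17; omega
    have kk728 : (2 * i + l + m + 2) ≤ (k + k3) := by clear * - z57; omega
    clear * - al b n3 kk725 kk726 kk727 kk728
    exact n3.f1 (pb b al 0 (i + l + m + 2) (k3) (by omega))
  · exact h8_28 al hy a1 a2 s1 s2 b c1 c2 tt D1 D2 mx hL bd0 n1 n2 n3 (by clear * - b0; omega) (by clear * - b1; omega) (by clear * - b2; omega) (by clear * - b3; omega) (by clear * - b4; omega) (by clear * - b5; omega) (by clear * - b6; omega) (by clear * - b7; omega) (by clear * - b9; omega) (by clear * - z57; omega)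

theorem h8_26p
    (h8_27 : ∀ {W : ℤ → G} {n Q i j k l i2 m k3 : ℤ} (al : AL W n Q) (hy : (0) ≤ (i) ∧ (i) ≤ (j) ∧ (j + 1) ≤ (Q) ∧ (Q) ≤ (k) ∧ (k + 1) ≤ (n) ∧ (Q) ≤ (i + l + 1) ∧ (k + l + 2) ≤ (n) ∧ (0) ≤ (i2) ∧ (i2 + 1) ≤ (Q) ∧ (Q + m + 1) ≤ (n + i2) ∧ (i2) ≤ (m) ∧ (Q) ≤ (i + l + m + 2) ∧ (i + l + m + 3) ≤ (n) ∧ (Q) ≤ (k3) ∧ (k3 + 1) ≤ (n) ∧ (i + m + 2) ≤ (k) ∧ (i) ≤ (i2) ∧ (i2) ≤ (i) ∧ (i + m + 2) ≤ (k3) ∧ (k3) ≤ (i + l + m + 1) ∧ (m + k3 + 2) ≤ (n + i2)) (a1 : Par W (0) (j) (k - j)) (a2 : Par W (Q + j - k) (j) (k - j)) (s1 : Ant W (0) (i) (i + j)) (s2 : Ant W (j + 1) (Q) (i + j)) (b : Par W (i + 1) (i + l + 1) (k - i)) (c1 : Par W (i2 + 1) (Q) (k + l - i2 + 1)) (c2 : Par W (k + l + 2) (n) (i2 - k - l - 1)) (tt : Ant W (i2 - m) (i2) (i + l + i2 + 1)) (D1 : Par W (Q) (k3) (n + i2 - m - k3 - 1)) (D2 : Par W (i + l + m + 3) (n) (k3 - i - l - m - 2)) {L : ℤ} (mx : ∀ a b g, 0 < g → g < n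 → Par W a b g → b - a ≤ L) (hL : L ≤ (n - j - 3) ∧ L ≤ (n + Q - k - 3) ∧ L ≤ (n - l - 3) ∧ L ≤ (n + i - k - 2)) (bd0 : Bd W n L (j) (i) (k)) (n1 : Nd W (j) (i) (k)) (n2 : Nd W (i + l + 1) (i2) (k + l + 1)) (n3 : Nd W (n + i2 - m - 1) (i + l + m + 2) (k3)) (b0 : (2 * l + 3) ≤ (n)) (b1 : (2 * i + 2 * l + 3 * m + 5) ≤ (n + i2 + k3)) (b2 : (k + i2 + 1) ≤ (Q + j + m)) (b3 : (2 * i + j + 1) ≤ (k)) (b4 : (2 * Q + k + l) ≤ (n + 2 * j + i2)) (b5 : (1) ≤ (m)) (b6 : (Q + k + l + 1) ≤ (n + i2)) (b7 : (Q + m + 1) ≤ (k3)) (b8 : (k + k3) ≤ (i + l + i2 + m + 2)) (b9 : (n + k3) ≤ (i + k + 2 * l + m + 3)), False)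
    {W : ℤ → G} {n Q i j k l i2 m k3 : ℤ} (al : AL W n Q)
    (hy : (0) ≤ (i) ∧ (i) ≤ (j) ∧ (j + 1) ≤ (Q) ∧ (Q) ≤ (k) ∧ (k + 1) ≤ (n) ∧ (Q) ≤ (i + l + 1) ∧ (k + l + 2) ≤ (n) ∧ (0) ≤ (i2) ∧ (i2 + 1) ≤ (Q) ∧ (Q + m + 1) ≤ (n + i2) ∧ (i2) ≤ (m) ∧ (Q) ≤ (i + l + m + 2) ∧ (i + l + m + 3) ≤ (n) ∧ (Q) ≤ (k3) ∧ (k3 + 1) ≤ (n) ∧ (i + m + 2) ≤ (k) ∧ (i) ≤ (i2) ∧ (i2) ≤ (i) ∧ (i + m + 2) ≤ (k3) ∧ (k3) ≤ (i + l + m + 1) ∧ (m + k3 + 2) ≤ (n + i2))
    (a1 : Par W (0) (j) (k - j))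
    (a2 : Par W (Q + j - k) (j) (k - j))
    (s1 : Ant W (0) (i) (i + j))
    (s2 : Ant W (j + 1) (Q) (i + j))
    (b : Par W (i + 1) (i + l + 1) (k - i))
    (c1 : Par W (i2 + 1) (Q) (k + l - i2 + 1))
    (c2 : Par W (k + l + 2) (n) (i2 - k - l - 1))
    (tt : Ant W (i2 - m) (i2) (i + l + i2 + 1))
    (D1 : Par W (Q) (k3) (n + i2 - m - k3 - 1))
    (D2 : Par W (i + l + m + 3) (n) (k3 - i - l - m - 2))
    {L : ℤ} (mx : ∀ a b g, 0 < g → g < n → Par W a b g → b - a ≤ L)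
    (hL : L ≤ (n - j - 3) ∧ L ≤ (n + Q - k - 3) ∧ L ≤ (n - l - 3) ∧ L ≤ (n + i - k - 2))
    (bd0 : Bd W n L (j) (i) (k))
    (n1 : Nd W (j) (i) (k))
    (n2 : Nd W (i + l + 1) (i2) (k + l + 1))
    (n3 : Nd W (n + i2 - m - 1) (i + l + m + 2) (k3))
    (b0 : (2 * l + 3) ≤ (n))
    (b1 : (2 * i + 2 * l + 3 * m + 5) ≤ (n + i2 + k3))
    (b2 : (k + i2 + 1) ≤ (Q + j + m))
    (b3 : (2 * i + j + 1) ≤ (k))
    (b4 : (2 * Q + k + l) ≤ (n + 2 * j + i2))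
    (b5 : (m + k3) ≤ (i + l + 2 * i2 + 1))
    (b6 : (1) ≤ (m))
    (b7 : (Q + k + l + 1) ≤ (n + i2))
    (b8 : (Q + m + 1) ≤ (k3))
    (b9 : (k + k3) ≤ (i + l + i2 + m + 2)) : False := by
  have ev := al.ev
  obtain ⟨y0, y1, y2, y3, y4, y5, y6, y7, y8, y9, y10, y11, y12, y13, y14, y15, y16, y17, y18, y19, y20⟩ := id hy
  have n1p := And.intro n1.p1 n1.p2
  have n2p := And.intro n2.p1 n2.p2
  have n3p := And.intro n3.p1 n3.p2
  by_cases z56 : (i + k + 2 * l + m + 4) ≤ (n + k3)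
  · have kk717 : (i + 1) ≤ (k) := by clear * - b6 y15; omega
    have kk718 : (i + i2 + m + 2) ≤ (k + k3) := by clear * - b6 y15 y17 y18; omega
    have kk719 : (k + k3) ≤ (i + l + i2 + m + 2) := by clear * - b9; omega
    have kk720 : (k + k3) ≤ (2 * i + l + m + 2) := by clear * - b9 y17; omega
    have kk721 : (i + k + 2 * l + m + 4) ≤ (n + k3) := by clear * - z56; omega
    have kk722 : (i + m + 1) ≤ (k) := by clear * - y15; omega
    have r723 : (k - i) % 2 = 0 := by clear * - ev n1p n2p n3p; omega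
    have r724 : (k + k3 - i - i2 - m - 1) % 2 = 0 := by clear * - ev n1p n2p n3p; omega
    clear * - al b c2 D2 n2 kk717 kk718 kk719 kk720 kk721 kk722 r723 r724
    exact n2.f0 (rEE (sh al 1 (i + l + 1) (n + i + l + 1) (by omega)) (sh al 1 (k + l + 1) (n + k + l + 1) (by omega)) (rotR (k - i) (k + k3 - i - i2 - m - 1) (n + i + l + 1) (n + k + l + 1) (by omega) (fun t h1 h2 => (cE (qf b al 1 t (t + (k - n - i)) (by omega)) (sh al 1 (t + (k - n - i)) (t + (k - i)) (by omega)))) (fun t h1 h2 => (cE (qf (show Par W (i2 + 1) (n + i2 - k - l - 1) (k + k3 - i - i2 - m - 1) from fun t h1 h2 => (cE (sh al (-1) t (t + (-n)) (by omega)) (cE (pb c2 al (-1) (t + (-n)) (t + (k + l - i2 + 1)) (by omega)) (qf D2 al 0 (t + (k + l - i2 + 1)) (t + (k + k3 - i - i2 - m - 1)) (by omega))))) al 1 t (t + (k + k3 - n - i - i2 - m - 1)) (by omega)) (sh al 1 (t + (k + k3 - n - i - i2 - m - 1)) (t + (k + k3 -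 i - i2 - m - 1)) (by omega))))))
  · exact h8_27 al hy a1 a2 s1 s2 b c1 c2 tt D1 D2 mx hL bd0 n1 n2 n3 (by clear * - b0; omega) (by clear * - b1; omega) (by clear * - b2; omega) (by clear * - b3; omega) (by clear * - b4; omega) (by clear * - b6; omega) (by clear * - b7; omega) (by clear * - b8; omega) (by clear * - b9; omega) (by clear * - z56; omega)

theorem h8_74p
    (h8_75 : ∀ {W : ℤ → G} {n Q i j k l i2 m k3 : ℤ} (al : AL W n Q) (hy : (0) ≤ (i) ∧ (i) ≤ (j) ∧ (j + 1) ≤ (Q) ∧ (Q) ≤ (k) ∧ (k + 1) ≤ (n) ∧ (Q) ≤ (i + l + 1) ∧ (k + l + 2) ≤ (n) ∧ (0) ≤ (i2) ∧ (i2 + 1) ≤ (Q) ∧ (Q + m + 1) ≤ (n + i2) ∧ (i2) ≤ (m) ∧ (Q) ≤ (i + l + m + 2) ∧ (i + l + m + 3) ≤ (n) ∧ (Q) ≤ (k3) ∧ (k3 + 1) ≤ (n) ∧ (i + m + 2) ≤ (k) ∧ (i) ≤ (i2) ∧ (i2) ≤ (i) ∧ (i + m + 2) ≤ (k3) ∧ (k3) ≤ (i + l + m + 1) ∧ (m + k3 + 2) ≤ (n + i2)) (a1 : Par W (0) (j) (k - j)) (a2 : Par W (Q + j - k) (j) (k - j)) (s1 : Ant W (0)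 (i) (i + j)) (s2 : Ant W (j + 1) (Q) (i + j)) (b : Par W (i + 1) (i + l + 1) (k - i)) (c1 : Par W (i2 + 1) (Q) (k + l - i2 + 1)) (c2 : Par W (k + l + 2) (n) (i2 - k - l - 1)) (tt : Ant W (i2 - m) (i2) (i + l + i2 + 1)) (D1 : Par W (Q) (k3) (n + i2 - m - k3 - 1)) (D2 : Par W (i + l + m + 3) (n) (k3 - i - l - m - 2)) {L : ℤ} (mx : ∀ a b g, 0 < g → g < n → Par W a b g → b - a ≤ L) (hL : L ≤ (n - j - 3) ∧ L ≤ (n + Q - k - 3) ∧ L ≤ (n - l - 3) ∧ L ≤ (n + i - k - 2)) (bd0 : Bd W n L (j) (i) (k)) (n1 : Nd W (j) (i) (k)) (n2 : Nd W (i + l + 1) (i2) (k + l + 1)) (n3 : Nd W (n + i2 - m - 1) (i + l + m + 2) (k3)) (b0 : (2 * l + 3) ≤ (n)) (b1 : (2 * i + 2 * l + 3 * m + 5) ≤ (n + i2 + k3)) (b2 : (k + i2 + 1) ≤ (Q + j + m)) (b3 : (2 * i + j + 1) ≤ (k)) (b4 : (2 * Q + k + l) ≤ (n + 2 * j + i2)) (b5 : (m + k3) ≤ (i + l + 2 * i2 + 1)) (b6 : (1) ≤ (m)) (b7 : (Q + k3) ≤ (i + l + i2 + m + 2)) (b8 : (n +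 i2) ≤ (Q + k + l)) (b9 : (n + j + i2) ≤ (2 * k + l)), False)
    (h8_76 : ∀ {W : ℤ → G} {n Q i j k l i2 m k3 : ℤ} (al : AL W n Q) (hy : (0) ≤ (i) ∧ (i) ≤ (j) ∧ (j + 1) ≤ (Q) ∧ (Q) ≤ (k) ∧ (k + 1) ≤ (n) ∧ (Q) ≤ (i + l + 1) ∧ (k + l + 2) ≤ (n) ∧ (0) ≤ (i2) ∧ (i2 + 1) ≤ (Q) ∧ (Q + m + 1) ≤ (n + i2) ∧ (i2) ≤ (m) ∧ (Q) ≤ (i + l + m + 2) ∧ (i + l + m + 3) ≤ (n) ∧ (Q) ≤ (k3) ∧ (k3 + 1) ≤ (n) ∧ (i + m + 2) ≤ (k) ∧ (i) ≤ (i2) ∧ (i2) ≤ (i) ∧ (i + m + 2) ≤ (k3) ∧ (k3) ≤ (i + l + m + 1) ∧ (m + k3 + 2) ≤ (n + i2)) (a1 : Par W (0) (j) (k - j)) (a2 : Par W (Q + j - k) (j) (k - j)) (s1 : Ant W (0) (i) (i + j)) (s2 : Ant W (j + 1) (Q) (i + j)) (b : Par W (i + 1) (i + l + 1) (k - i)) (c1 : Par W (i2 + 1) (Q) (k + l - i2 + 1)) (c2 : Par W (k + l + 2) (n) (i2 - k - l - 1)) (tt : Ant W (i2 - m) (i2) (i + l + i2 + 1)) (D1 : Par W (Q) (k3) (n + i2 - m - k3 - 1)) (D2 : Par W (i + l + m + 3) (n) (k3 - i - l -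 m - 2)) {L : ℤ} (mx : ∀ a b g, 0 < g → g < n → Par W a b g → b - a ≤ L) (hL : L ≤ (n - j - 3) ∧ L ≤ (n + Q - k - 3) ∧ L ≤ (n - l - 3) ∧ L ≤ (n + i - k - 2)) (bd0 : Bd W n L (j) (i) (k)) (n1 : Nd W (j) (i) (k)) (n2 : Nd W (i + l + 1) (i2) (k + l + 1)) (n3 : Nd W (n + i2 - m - 1) (i + l + m + 2) (k3)) (b0 : (2 * l + 3) ≤ (n)) (b1 : (2 * i + 2 * l + 3 * m + 5) ≤ (n + i2 + k3)) (b2 : (2 * i + j + 1) ≤ (k)) (b3 : (2 * Q + k + l) ≤ (n + 2 * j + i2)) (b4 : (m + k3) ≤ (i + l + 2 * i2 + 1)) (b5 : (1) ≤ (m)) (b6 : (Q + k3) ≤ (i + l + i2 + m + 2)) (b7 : (n + i2) ≤ (Q + k + l)) (b8 : (2 * k + l + 1) ≤ (n + j + i2)), False)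
    {W : ℤ → G} {n Q i j k l i2 m k3 : ℤ} (al : AL W n Q)
    (hy : (0) ≤ (i) ∧ (i) ≤ (j) ∧ (j + 1) ≤ (Q) ∧ (Q) ≤ (k) ∧ (k + 1) ≤ (n) ∧ (Q) ≤ (i + l + 1) ∧ (k + l + 2) ≤ (n) ∧ (0) ≤ (i2) ∧ (i2 + 1) ≤ (Q) ∧ (Q + m + 1) ≤ (n + i2) ∧ (i2) ≤ (m) ∧ (Q) ≤ (i + l + m + 2) ∧ (i + l + m + 3) ≤ (n) ∧ (Q) ≤ (k3) ∧ (k3 + 1) ≤ (n) ∧ (i + m + 2) ≤ (k) ∧ (i) ≤ (i2) ∧ (i2) ≤ (i) ∧ (i + m + 2) ≤ (k3) ∧ (k3) ≤ (i + l + m + 1) ∧ (m + k3 + 2) ≤ (n + i2))
    (a1 : Par W (0) (j) (k - j))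
    (a2 : Par W (Q + j - k) (j) (k - j))
    (s1 : Ant W (0) (i) (i + j))
    (s2 : Ant W (j + 1) (Q) (i + j))
    (b : Par W (i + 1) (i + l + 1) (k - i))
    (c1 : Par W (i2 + 1) (Q) (k + l - i2 + 1))
    (c2 : Par W (k + l + 2) (n) (i2 - k - l - 1))
    (tt : Ant W (i2 - m) (i2) (i + l + i2 + 1))
    (D1 : Par W (Q) (k3) (n + i2 - m - k3 - 1))
    (D2 : Par W (i + l + m + 3) (n) (k3 - i - l - m - 2))
    {L : ℤ} (mx : ∀ a b g, 0 < g → g < n → Par W a b g → b - a ≤ L)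
    (hL : L ≤ (n - j - 3) ∧ L ≤ (n + Q - k - 3) ∧ L ≤ (n - l - 3) ∧ L ≤ (n + i - k - 2))
    (bd0 : Bd W n L (j) (i) (k))
    (n1 : Nd W (j) (i) (k))
    (n2 : Nd W (i + l + 1) (i2) (k + l + 1))
    (n3 : Nd W (n + i2 - m - 1) (i + l + m + 2) (k3))
    (b0 : (2 * l + 3) ≤ (n))
    (b1 : (2 * i + 2 * l + 3 * m + 5) ≤ (n + i2 + k3))
    (b2 : (k + i2 + 1) ≤ (Q + j + m))
    (b3 : (2 * i + j + 1) ≤ (k))
    (b4 : (2 * Q + k + l) ≤ (n + 2 * j + i2))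
    (b5 : (m + k3) ≤ (i + l + 2 * i2 + 1))
    (b6 : (1) ≤ (m))
    (b7 : (Q + k3) ≤ (i + l + i2 + m + 2))
    (b8 : (n + i2) ≤ (Q + k + l)) : False := by
  have ev := al.ev
  obtain ⟨y0, y1, y2, y3, y4, y5, y6, y7, y8, y9, y10, y11, y12, y13, y14, y15, y16, y17, y18, y19, y20⟩ := id hy
  have n1p := And.intro n1.p1 n1.p2
  have n2p := And.intro n2.p1 n2.p2
  have n3p := And.intro n3.p1 n3.p2
  by_cases z171 : (n + j + i2) ≤ (2 * k + l)
  · exact h8_75 al hy a1 a2 s1 s2 b c1 c2 tt D1 D2 mx hL bd0 n1 n2 n3 (by clear * - b0; omega) (by clear * - b1; omega) (by clear * - b2; omega) (by clear * - b3; omega) (by clear * - b4; omega) (by clear * - b5; omega) (by clear * - b6; omega) (by clear * - b7; omega) (by clear * - b8; omega) (by clear * - z171; omega)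
  · exact h8_76 al hy a1 a2 s1 s2 b c1 c2 tt D1 D2 mx hL bd0 n1 n2 n3 (by clear * - b0; omega) (by clear * - b1; omega) (by clear * - b3; omega) (by clear * - b4; omega) (by clear * - b5; omega) (by clear * - b6; omega) (by clear * - b7; omega) (by clear * - b8; omega) (by clear * - z171; omega)

theorem h8_95p
    {W : ℤ → G} {n Q i j k l i2 m k3 : ℤ} (al : AL W n Q)
    (hy : (0) ≤ (i) ∧ (i) ≤ (j) ∧ (j + 1) ≤ (Q) ∧ (Q) ≤ (k) ∧ (k + 1) ≤ (n) ∧ (Q) ≤ (i + l + 1) ∧ (k + l + 2) ≤ (n) ∧ (0) ≤ (i2) ∧ (i2 + 1) ≤ (Q) ∧ (Q + m + 1) ≤ (n + i2) ∧ (i2) ≤ (m) ∧ (Q) ≤ (i + l + m + 2) ∧ (i + l + m + 3) ≤ (n) ∧ (Q) ≤ (k3) ∧ (k3 + 1) ≤ (n) ∧ (i + m + 2) ≤ (k) ∧ (i) ≤ (i2) ∧ (i2) ≤ (i) ∧ (i + m + 2) ≤ (k3) ∧ (k3) ≤ (i + l + m + 1) ∧ (m + k3 + 2) ≤ (n + i2))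
    (a1 : Par W (0) (j) (k - j))
    (a2 : Par W (Q + j - k) (j) (k - j))
    (s1 : Ant W (0) (i) (i + j))
    (s2 : Ant W (j + 1) (Q) (i + j))
    (b : Par W (i + 1) (i + l + 1) (k - i))
    (c1 : Par W (i2 + 1) (Q) (k + l - i2 + 1))
    (c2 : Par W (k + l + 2) (n) (i2 - k - l - 1))
    (tt : Ant W (i2 - m) (i2) (i + l + i2 + 1))
    (D1 : Par W (Q) (k3) (n + i2 - m - k3 - 1))
    (D2 : Par W (i + l + m + 3) (n) (k3 - i - l - m - 2))
    {L : ℤ} (mx : ∀ a b g, 0 < g → g < n → Par W a b g → b - a ≤ L)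
    (hL : L ≤ (n - j - 3) ∧ L ≤ (n + Q - k - 3) ∧ L ≤ (n - l - 3) ∧ L ≤ (n + i - k - 2))
    (bd0 : Bd W n L (j) (i) (k))
    (n1 : Nd W (j) (i) (k))
    (n2 : Nd W (i + l + 1) (i2) (k + l + 1))
    (n3 : Nd W (n + i2 - m - 1) (i + l + m + 2) (k3))
    (b0 : (k + i2 + 1) ≤ (Q + j + m))
    (b1 : (1) ≤ (m))
    (b2 : (i + l + i2 + m + 3) ≤ (Q + k3))
    (b3 : (2 * k + l + 1) ≤ (n + j + i2))
    (b4 : (i + 2 * j + 1) ≤ (k))
    (b5 : (2 * n + 2 * j + m + k3) ≤ (i + 4 * k + 3 * l + 3))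
    (b6 : (2 * Q + k + l) ≤ (n + i + j + i2))
    (b7 : (k + i2) ≤ (i + j + l + 2))
    (b8 : (2 * i + l + i2 + 2) ≤ (2 * Q + j)) : False := by
  have ev := al.ev
  obtain ⟨y0, y1, y2, y3, y4, y5, y6, y7, y8, y9, y10, y11, y12, y13, y14, y15, y16, y17, y18, y19, y20⟩ := id hy
  have n1p := And.intro n1.p1 n1.p2
  have n2p := And.intro n2.p1 n2.p2
  have n3p := And.intro n3.p1 n3.p2
  by_cases z221 : (2 * i + l + m + 2) ≤ (k)
  · have kk2867 : (i + l + m + 3) ≤ (n + k3) := by clear * - b1 b2 b3 b4 b5 b6 b7 z221; omega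
    have kk2868 : (k3) ≤ (i + l + m + 1) := by clear * - b0 b3 b4 b5 b6; omega
    have kk2869 : (2 * i + l + m + 2) ≤ (k) := by clear * - z221; omega
    clear * - al D2 mx hL kk2867 kk2868 kk2869
    exact absurd (mx (i + l + m - n + 3) (0) (n + k3 - i - l - m - 2) (by omega) (by omega) fun t h1 h2 => (qf D2 al (-1) t (t + (n + k3 - i - l - m - 2)) (by omega))) (by omega)
  · by_cases z222 : (Q + m + 1) ≤ (k3)
    · by_cases z223 : (2 * i + 2 * l + m + 4) ≤ (n + i2)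
      · by_cases z224 : (k) ≤ (i + l + m + 2)
        · by_cases v86 : (k3) ≤ (k)
          · have kk2870 : (2 * i + k + 2 * l + m + 4) ≤ (n + i2 + k3) := by clear * - b2 b3 b4 b6 y16; omega
            have kk2871 : (k3) ≤ (i + l + m + 1) := by clear * - b0 b3 b4 b5 b6; omega
            have kk2872 : (i + l + m + 3) ≤ (n + k3) := by clear * - b4 b5 b6 b8 v86 z221 z222 z223 z224; omega
            have kk2873 : (i + l + i2 + m + 3) ≤ (Q + k3) := by clear * - b2; omega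
            have kk2874 : (Q + m + 1) ≤ (k3) := by clear * - z222; omega
            have kk2875 : (k) ≤ (i + l + m + 2) := by clear * - z224; omega
            have kk2876 : (k + l + 1) ≤ (n) := by clear * - b2 b3 b4 b6 v86 z224; omega
            have kk2877 : (k3) ≤ (k + l + 1) := by clear * - b5 b8 v86 z222 z223 z224; omega
            have kk2878 : (k3) ≤ (i + l + m + 2) := by clear * - v86 z224; omega
            have kk2879 : (n + i2 + k3) ≤ (Q + i + k + 2 * l + m + 3) := by clear * - b0 b5 v86 z224; omega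
            have kk2880 : (k3) ≤ (k) := by clear * - v86; omega
            clear * - al b c1 c2 D2 kk2870 kk2871 kk2872 kk2873 kk2874 kk2875 kk2876 kk2877 kk2878 kk2879 kk2880
            exact al.ubQ (i + l + m - k3 + 2) (by omega) (by omega) (mgP (b := (n + i2 + k3 - i - k - 2 * l - m - 3)) (le_refl _) (fun t h1 h2 => (cE (sh al (-1) t (t + (-n)) (by omega)) (cE (cE (qf c1 al (-1) (t + (-n)) (t + (k + l - i2 + 1)) (by omega)) (pb D2 al 0 (t + (k + l - i2 + 1)) (t + (i + k + 2 * l + m - i2 - k3 + 3)) (by omega))) (qf c2 al 0 (t + (i + k + 2 * l + m - i2 - k3 + 3)) (t + (i + l + m - k3 + 2)) (by omega))))) (fun t h1 h2 => (cE (sh al (-1) t (t + (-n)) (by omega)) (cE (qf b al (-1) (t + (-n)) (t + (k - i)) (by omega)) (pb (show Par W (2 * i + l + m - k + 3) (i + l + 1) (k + k3 - 2 * i - l - m - 2) from fun t h1 h2 => (cE (sh al (-1) t (t + (-n)) (by omega)) (cE (qf b al (-1) (t + (-n))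 (t + (k - i)) (by omega)) (qf D2 al 0 (t + (k - i)) (t + (k + k3 - 2 * i - l - m - 2)) (by omega))))) al 0 (t + (k - i)) (t + (i + l + m - k3 + 2)) (by omega))))))
          · have kk2881 : (2 * i + 2 * l + m + 4) ≤ (n + i2) := by clear * - z223; omega
            have kk2882 : (k3) ≤ (i + l + m + 1) := by clear * - b0 b3 b4 b5 b6; omega
            have kk2883 : (i + l + m + 3) ≤ (n + k3) := by clear * - b4 b5 b6 b7 b8 v86 z221 z222 z223; omega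
            have kk2884 : (i + l + i2 + m + 3) ≤ (Q + k3) := by clear * - b2; omega
            have kk2885 : (Q + m + 1) ≤ (k3) := by clear * - z222; omega
            have kk2886 : (k) ≤ (i + l + m + 2) := by clear * - z224; omega
            have kk2887 : (k + l + 1) ≤ (n) := by clear * - b0 b2 b3 b4 b5 b6; omega
            have kk2888 : (k3) ≤ (k + l + 1) := by clear * - b3 b4 b5 b6 b7 b8 z224; omega
            have kk2889 : (k3) ≤ (i + l + m + 2) := by clear * - b0 b3 b4 b5 b6; omega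
            have kk2890 : (n + i2 + k3) ≤ (Q + i + k + 2 * l + m + 3) := by clear * - b0 b3 b4 b5 b6; omega
            have kk2891 : (k) ≤ (k3) := by clear * - v86; omega
            clear * - al b c1 c2 D2 kk2881 kk2882 kk2883 kk2884 kk2885 kk2886 kk2887 kk2888 kk2889 kk2890 kk2891
            exact al.ubQ (i + l + m - k3 + 2) (by omega) (by omega) (mgP (b := (n + i2 + k3 - i - k - 2 * l - m - 3)) (le_refl _) (fun t h1 h2 => (cE (sh al (-1) t (t + (-n)) (by omega)) (cE (cE (qf c1 al (-1) (t + (-n)) (t + (k + l - i2 + 1)) (by omega)) (pb D2 al 0 (t + (k + l - i2 + 1)) (t + (i + k + 2 * l + m - i2 - k3 + 3)) (by omega))) (qf c2 al 0 (t + (i + k + 2 * l + m - i2 - k3 + 3)) (t + (i + l + m - k3 + 2)) (by omega))))) (fun t h1 h2 => (cE (sh al (-1) t (t + (-n)) (by omega)) (cE (qf b al (-1) (t + (-n)) (t + (k - i)) (by omega)) (pb (show Par W (2 * i + l + m - k + 3) (i + l + 1) (k + k3 -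 2 * i - l - m - 2) from fun t h1 h2 => (cE (sh al (-1) t (t + (-n)) (by omega)) (cE (qf b al (-1) (t + (-n)) (t + (k - i)) (by omega)) (qf D2 al 0 (t + (k - i)) (t + (k + k3 - 2 * i - l - m - 2)) (by omega))))) al 0 (t + (k - i)) (t + (i + l + m - k3 + 2)) (by omega))))))
        · have kk2892 : (k3) ≤ (i + l + m + 1) := by clear * - b0 b3 b4 b5 b6; omega
          have kk2893 : (i + l + m + 3) ≤ (n + k3) := by clear * - b3 b4 b5 b6 b8 z221 z222; omega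
          have kk2894 : (2 * i + l + m + 3) ≤ (Q + k3) := by clear * - b2 y16; omega
          have kk2895 : (Q + m + 1) ≤ (k3) := by clear * - z222; omega
          have kk2896 : (k3) ≤ (i + l + m + 2) := by clear * - b0 b3 b4 b5 b6; omega
          have kk2897 : (k3) ≤ (k) := by clear * - b0 b3 b4 b5 b6 z224; omega
          have kk2898 : (k + l + 1) ≤ (n) := by clear * - b3 b4 b6 b7 b8 z221 z224; omega
          clear * - al b D2 kk2892 kk2893 kk2894 kk2895 kk2896 kk2897 kk2898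
          exact al.ubQ (i + l + m - k3 + 2) (by omega) (by omega) fun t h1 h2 => (cE (sh al (-1) t (t + (-n)) (by omega)) (cE (cE (qf b al (-1) (t + (-n)) (t + (k - i)) (by omega)) (pb D2 al 0 (t + (k - i)) (t + (k + l + m - k3 + 2)) (by omega))) (pb b al 0 (t + (k + l + m - k3 + 2)) (t + (i + l + m - k3 + 2)) (by omega))))
      · by_cases v87 : (i + l + 1) ≤ (k)
        · have kk2899 : (2 * k + 2) ≤ (n + 2 * i2) := by clear * - b3 b4 b5 b6 b8 v87 z222 z223; omega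
          have kk2900 : (2 * i + 2 * l + 3) ≤ (n) := by clear * - b4 b6 b8; omega
          have kk2901 : (i2) ≤ (i) := by clear * - y17; omega
          have kk2902 : (i + l + 1) ≤ (k) := by clear * - v87; omega
          have kk2903 : (i + m + 1) ≤ (k) := by clear * - b3 b4 b5 b7 b8 v87 z222 z223; omega
          have kk2904 : (n + i2) ≤ (2 * i + 2 * l + m + 3) := by clear * - z223; omega
          have r2905 : (n + 2 * i + 2 * l + 2) % 2 = 0 := by clear * - ev n1p n2p n3p; omega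
          clear * - al b c2 tt kk2899 kk2900 kk2901 kk2902 kk2903 kk2904 r2905
          obtain ⟨t, ht⟩ : ∃ t, 2 * t = (n + 2 * i + 2 * l + 2) := ⟨(n + 2 * i + 2 * l + 2) / 2, by omega⟩
          exact al.ninv t (cE (cI (cE (qf c2 al 0 t (t + (i2 - k - l - 1)) (by omega)) (qf b al 0 (t + (i2 - k - l - 1)) (t + (i2 - i - l - 1)) (by omega))) (ab tt al 0 (t + (i2 - i - l - 1)) ((2 * i + 2 * l + 2) - t) (by omega))) (sh al 1 ((2 * i + 2 * l + 2) - t) t (by omega)))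
        · have kk2906 : (2 * i + 2 * l + 4) ≤ (n + 2 * i2) := by clear * - b4 b6 b8 y7 ev n1p n2p n3p; omega
          have kk2907 : (2 * i + 2 * l + 3) ≤ (n) := by clear * - b4 b6 b8; omega
          have kk2908 : (i2) ≤ (i) := by clear * - y17; omega
          have kk2909 : (k) ≤ (i + l + 1) := by clear * - v87; omega
          have kk2910 : (i + m + 1) ≤ (k) := by clear * - b3 b4 b5 b6 b8 z222 z223; omega
          have kk2911 : (n + i2) ≤ (2 * i + 2 * l + m + 3) := by clear * - z223; omega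
          have r2912 : (n + 2 * i + 2 * l + 2) % 2 = 0 := by clear * - ev n1p n2p n3p; omega
          clear * - al b c2 tt kk2906 kk2907 kk2908 kk2909 kk2910 kk2911 r2912
          obtain ⟨t, ht⟩ : ∃ t, 2 * t = (n + 2 * i + 2 * l + 2) := ⟨(n + 2 * i + 2 * l + 2) / 2, by omega⟩
          exact al.ninv t (cE (cI (cE (qf c2 al 0 t (t + (i2 - k - l - 1)) (by omega)) (qf b al 0 (t + (i2 - k - l - 1)) (t + (i2 - i - l - 1)) (by omega))) (ab tt al 0 (t + (i2 - i - l - 1)) ((2 * i + 2 * l + 2) - t) (by omega))) (sh al 1 ((2 * i + 2 * l + 2) - t) t (by omega)))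
    · by_cases z225 : (2 * k + l + 2) ≤ (n + j + i2)
      · have kk2913 : (2 * k + l + 2) ≤ (n + j + i2) := by clear * - z225; omega
        have kk2914 : (j + i2) ≤ (2 * k + l) := by clear * - b1 b2 b4 b5 b6 b7 b8 z225; omega
        have kk2915 : (j + i2 + 1) ≤ (k) := by clear * - b0 b2 b4 b5 b6 z225; omega
        have kk2916 : (n + i2) ≤ (2 * k + l + 1) := by clear * - b0 b2 b5 b6 y10 y16; omega
        clear * - al a1 c2 kk2913 kk2914 kk2915 kk2916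
        exact al.ubP (n + j + i2 - 2 * k - l - 1) (by omega) (by omega) fun t h1 h2 => (cE (qf c2 al (-1) t (t + (n + i2 - k - l - 1)) (by omega)) (pb a1 al 0 (t + (n + i2 - k - l - 1)) (t + (n + j + i2 - 2 * k - l - 1)) (by omega)))
      · by_cases z226 : (3 * i + 2 * j + 2 * l + 2 * m + 6) ≤ (3 * k + 2 * i2)
        · by_cases z227 : (k + 2 * k3) ≤ (3 * i + 2 * l + 4 * m + 4)
          · by_cases z228 : (2 * Q + 2 * j + 2 * k3) ≤ (3 * i + k + 2 * l + 2 * i2 + 2 * m + 4)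
            · have kk2917 : (3 * i + 2 * l + 2 * m + 5) ≤ (k + 2 * k3) := by clear * - b2 b6 y16 z225; omega
              have kk2918 : (2 * Q + 2 * j + 2 * k3) ≤ (3 * i + k + 2 * l + 2 * i2 + 2 * m + 4) := by clear * - z228; omega
              have kk2919 : (3 * i + 2 * j + 2 * l + 2 * m + 6) ≤ (3 * k + 2 * i2) := by clear * - z226; omega
              have kk2920 : (3 * i + 2 * l + 2 * m + 6) ≤ (k + 2 * k3) := by clear * - b2 b6 y16 z225 ev n1p n2p n3p; omega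
              have kk2921 : (i2) ≤ (j) := by clear * - b6 b7 b8 z225; omega
              have kk2922 : (k + i2) ≤ (Q + j + m) := by clear * - b0; omega
              have kk2923 : (k + k3) ≤ (2 * i + 2 * l + 2 * m + 4) := by clear * - b4 b7 y16 z221 z226 z227; omega
              have kk2924 : (k3) ≤ (i + l + m + 2) := by clear * - b7 z226 z227; omega
              have kk2925 : (k + l + 1) ≤ (n) := by clear * - b2 b3 b4 b6 b7 z226 z227; omega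
              have kk2926 : (k + k3) ≤ (n + i + m + 1) := by clear * - b4 b6 b7 b8 z221 z222 z226; omega
              have kk2927 : (2 * i + l + 2 * m + 3) ≤ (k + k3) := by clear * - b2 b6 b7 y16 z225 z226; omega
              have kk2928 : (2 * i + l + i2 + 2 * m + 3) ≤ (j + 2 * k3) := by clear * - b2 b6 b7 y16 z225; omega
              have r2929 : (i + k + l + i2 - 2 * n - j + 1) % 2 = 0 := by clear * - ev n1p n2p n3p; omega
              have r2930 : (k + 2 * k3 - 3 * i - 2 * l - 2 * m - 4) % 2 = 0 := by clear * - ev n1p n2p n3p; omega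
              clear * - al a2 b tt D2 kk2917 kk2918 kk2919 kk2920 kk2921 kk2922 kk2923 kk2924 kk2925 kk2926 kk2927 kk2928 r2929 r2930
              exact midP al (k + 2 * k3 - 3 * i - 2 * l - 2 * m - 4) (i + k + l + i2 - 2 * n - j + 1) (i + l - n + 2) (3 * i + 2 * l + 2 * m - n - k - k3 + 5) (k + 2 * k3 - n - 2 * i - l - 2 * m - 3) (by omega) (fun t h1 h2 => (cE (cE (ab tt al (-1) t ((i + l + i2 - n + 1) - t) (by omega)) (qf a2 al 0 ((i + l + i2 - n + 1) - t) ((i + k + l + i2 - n - j + 1) - t) (by omega))) (sh al (-1) ((i + k + l + i2 - n - j + 1) - t) ((i + k + l + i2 - 2 * n - j + 1) - t) (by omega)))) (fun t h1 h2 => (cE (cE (cE (qf b al (-1) t (t + (n + k - i)) (by omega)) (qf D2 al 0 (t + (n + k - i)) (t + (n + k + k3 - 2 * i - l - m - 2)) (by omega))) (qf D2 al 0 (t + (n + k + k3 - 2 * i - l - m - 2)) (t + (n + k + 2 * k3 - 3 * i - 2 * l - 2 * m - 4)) (by omega))) (sh al (-1) (t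 + (n + k + 2 * k3 - 3 * i - 2 * l - 2 * m - 4)) (t + (k + 2 * k3 - 3 * i - 2 * l - 2 * m - 4)) (by omega))))
            · by_cases z229 : (i + k) ≤ (j + k3)
              · have kk2931 : (i + 1) ≤ (j) := by clear * - b6 b7 z222 z225 z226 z229; omega
                have kk2932 : (j) ≤ (i + l) := by clear * - b4 b7 z221 z226; omega
                have kk2933 : (k3) ≤ (i + l + m + 1) := by clear * - b7 z226 z227; omega
                have kk2934 : (i + l + m + 3) ≤ (n) := by clear * - b4 b6 b7 z221 z226 z227 z228; omega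
                have kk2935 : (k3 + 1) ≤ (k) := by clear * - b6 b7 z222 z225 z226; omega
                have kk2936 : (k + 1) ≤ (n) := by clear * - b4 b6 b7 z221 z222 z226 z227 z228 z229; omega
                have kk2937 : (i + k3 + 1) ≤ (j + k) := by clear * - b6 b7 z222 z225 z226 z229; omega
                have kk2938 : (j + k + 1) ≤ (n + i) := by clear * - b4 b6 b7 z221 z222 z226 z228; omega
                have kk2939 : (i + l + i2 + 1) ≤ (k) := by clear * - b4 b6 z222 z225 z228; omega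
                have kk2940 : (0) ≤ (i + 1) := by clear * - y17 y7; omega
                have kk2941 : (j) ≤ (i + l + 1) := by clear * - b4 b7 z221 z226; omega
                have kk2942 : (i) ≤ (j) := by clear * - b6 b7 z222 z225 z226 z229; omega
                have kk2943 : (i + k) ≤ (j + k3) := by clear * - z229; omega
                have kk2944 : (j + k) ≤ (n + i) := by clear * - b4 b6 b7 z221 z222 z226 z228; omega
                have kk2945 : (k3) ≤ (i + l + i2 + 1) := by clear * - b3 b5 b7 z226 z227; omega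
                have kk2946 : (0) ≤ (i2) := by clear * - y7; omega
                have kk2947 : (i + l + m + 2) ≤ (n) := by clear * - b4 b6 b7 z221 z226 z227 z228; omega
                have kk2948 : (m + k3 + 1) ≤ (n + i2) := by clear * - b4 b6 b7 z221 z222 z226 z227 z228 z229; omega
                have r2949 : (j - i) % 2 = 0 := by clear * - ev n1p n2p n3p; omega
                have r2950 : (i + l + m - k3 + 2) % 2 = 0 := by clear * - ev n1p n2p n3p; omega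
                have r2951 : (i + l + i2 - n + 1) % 2 = 0 := by clear * - ev n1p n2p n3p; omega
                clear * - al a1 b tt D2 n1 kk2931 kk2932 kk2933 kk2934 kk2935 kk2936 kk2937 kk2938 kk2939 kk2940 kk2941 kk2942 kk2943 kk2944 kk2945 kk2946 kk2947 kk2948 r2949 r2950 r2951
                exact ivt al.ninv (k3 - n + 1) (k3 - i - l - m - 2) (i + l + m - k3 + 2) (k3 - n + 1) (k - n) (j - i) (k - n) (j + k - n - i) 0 (fun t h1 h2 => (cE (pb D2 al (-1) t (t + (n + i + l + m - k3 + 2)) (by omega)) (sh al (-1) (t + (n + i + l + m - k3 + 2)) (t + (i + l + m - k3 + 2)) (by omega)))) (fun t h1 h2 => (cE (cE (pb a1 al (-1) t (t + (n + j - k)) (by omega)) (qf b al 0 (t + (n + j - k)) (t + (n + j - i)) (by omega))) (sh al (-1) (t + (n + j - i)) (t + (j - i)) (by omega)))) (fun hh => n1.f0 (rEE (cE (qf b al 0 (j) (j + k - i) (by omega)) (sh al (-1) (j + k - i) (j + k - n - i) (by omega)))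 (sh al (-1) (k) (k - n) (by omega)) (Eq.symm (Eq.symm hh)))) (by omega) (i + l + i2 - n + 2) (i + l + m - n + 2) (i + l + i2 - n + 1) 0 0 (fun t h1 h2 => (ab tt al (-1) t ((i + l + i2 - n + 1) - t) (by omega))) (by omega)
              · have kk2952 : (i + 1) ≤ (j) := by clear * - b6 b7 y16 z225 z226 z227 z228; omega
                have kk2953 : (j) ≤ (i + l) := by clear * - b4 b7 z221 z226; omega
                have kk2954 : (k3) ≤ (i + l + m + 1) := by clear * - b7 z226 z227; omega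
                have kk2955 : (i + l + m + 3) ≤ (n) := by clear * - b4 b6 b7 z221 z226 z227 z228; omega
                have kk2956 : (k3 + 1) ≤ (k) := by clear * - b6 b7 z222 z225 z226; omega
                have kk2957 : (k + 1) ≤ (n) := by clear * - b1 b3 b4 b6 b7 z221 z226 z228 z229; omega
                have kk2958 : (i + k3 + 1) ≤ (j + k) := by clear * - b6 b7 y16 z225 z226 z227 z228 z229; omega
                have kk2959 : (j + k + 1) ≤ (n + i) := by clear * - b4 b6 b7 z221 z222 z226 z228; omega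
                have kk2960 : (2 * i + l + m + 1) ≤ (j + k3) := by clear * - b6 y16 z225 z228; omega
                have kk2961 : (0) ≤ (i + 1) := by clear * - b6 y16 z221 z225 z228 z229; omega
                have kk2962 : (j) ≤ (i + l + 1) := by clear * - b4 b7 z221 z226; omega
                have kk2963 : (j + k3) ≤ (i + k) := by clear * - z229; omega
                have kk2964 : (k3) ≤ (k) := by clear * - b6 b7 z222 z225 z226; omega
                have kk2965 : (i) ≤ (j) := by clear * - b6 b7 y16 z225 z226 z227 z228; omega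
                have kk2966 : (j + k) ≤ (n + i) := by clear * - b4 b6 b7 z221 z222 z226 z228; omega
                have r2967 : (j - i) % 2 = 0 := by clear * - ev n1p n2p n3p; omega
                have r2968 : (i + l + m - k3 + 2) % 2 = 0 := by clear * - ev n1p n2p n3p; omega
                clear * - al a1 b D2 n1 kk2952 kk2953 kk2954 kk2955 kk2956 kk2957 kk2958 kk2959 kk2960 kk2961 kk2962 kk2963 kk2964 kk2965 kk2966 r2967 r2968
                exact ivt0 (k3 - n + 1) (k3 - i - l - m - 2) (i + l + m - k3 + 2) (i + k - n - j + 1) (k - n) (j - i) (k - n) (j + k - n - i) 0 (fun t h1 h2 => (cE (pb D2 al (-1) t (t + (n + i + l + m - k3 + 2)) (by omega)) (sh al (-1) (t + (n + i + l + m - k3 + 2)) (t + (i + l + m - k3 + 2)) (by omega)))) (fun t h1 h2 => (cE (sh al 1 t (t + (n)) (by omega)) (cE (cE (pb a1 al 0 (t + (n)) (t + (n + j - k)) (by omega)) (qf b al 0 (t + (n + j - k)) (t + (n + j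 - i)) (by omega))) (sh al (-1) (t + (n + j - i)) (t + (j - i)) (by omega))))) (fun hh => n1.f0 (rEE (cE (qf b al 0 (j) (j + k - i) (by omega)) (sh al (-1) (j + k - i) (j + k - n - i) (by omega))) (sh al (-1) (k) (k - n) (by omega)) (Eq.symm (Eq.symm hh)))) (by omega) (by omega)
          · by_cases v88 : (j + k3) ≤ (i + k)
            · have kk2969 : (i + 1) ≤ (j) := by clear * - b1 b6 b7 y16 z222 z225 z227; omega
              have kk2970 : (j) ≤ (i + l) := by clear * - b4 b7 z221 z226; omega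
              have kk2971 : (k3) ≤ (i + l + m + 1) := by clear * - b1 b3 b4 b5 b6 b7 z222; omega
              have kk2972 : (i + l + m + 3) ≤ (n) := by clear * - b4 b6 b7 b8 z221 z226; omega
              have kk2973 : (i + k3 + 1) ≤ (j + k) := by clear * - b4 b6 b7 b8 y16 z221 z222 z225 z227; omega
              have kk2974 : (j + k + 1) ≤ (n + i) := by clear * - b4 b6 b7 b8 z221 z222 z226 z227; omega
              have kk2975 : (k3 + 1) ≤ (k) := by clear * - b6 b7 z222 z225 z226; omega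
              have kk2976 : (k + 1) ≤ (n) := by clear * - b1 b3 b4 b7 v88 z221 z226 z227; omega
              have kk2977 : (2 * i + l + m + 1) ≤ (j + k3) := by clear * - b0 b6 y16 z225 z227; omega
              have kk2978 : (0) ≤ (i + 1) := by clear * - b6 z221 z222 z225 z227; omega
              have kk2979 : (j) ≤ (i + l + 1) := by clear * - b4 b7 z221 z226; omega
              have kk2980 : (k3) ≤ (k) := by clear * - b6 b7 z222 z225 z226; omega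
              have kk2981 : (j + k3) ≤ (i + k) := by clear * - v88; omega
              have kk2982 : (j + k) ≤ (n + i) := by clear * - b4 b6 b7 b8 z221 z222 z226 z227; omega
              have kk2983 : (k) ≤ (n) := by clear * - b1 b3 b4 b7 v88 z221 z226 z227; omega
              have r2984 : (i - j) % 2 = 0 := by clear * - ev n1p n2p n3p; omega
              have r2985 : (i + l + m - k3 + 2) % 2 = 0 := by clear * - ev n1p n2p n3p; omega
              clear * - al a1 b D2 n1 kk2969 kk2970 kk2971 kk2972 kk2973 kk2974 kk2975 kk2976 kk2977 kk2978 kk2979 kk2980 kk2981 kk2982 kk2983 r2984 r2985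
              exact ivt0 (k3 - n + 1) (k3 - i - l - m - 2) (i + l + m - k3 + 2) (k - n + 1) (j + k - n - i) (i - j) (j + k - n - i) (k - n) 0 (fun t h1 h2 => (cE (pb D2 al (-1) t (t + (n + i + l + m - k3 + 2)) (by omega)) (sh al (-1) (t + (n + i + l + m - k3 + 2)) (t + (i + l + m - k3 + 2)) (by omega)))) (fun t h1 h2 => (cE (sh al 1 t (t + (n)) (by omega)) (cE (cE (pb b al 0 (t + (n)) (t + (n + i - k)) (by omega)) (qf a1 al 0 (t + (n + i - k)) (t + (n + i - j)) (by omega))) (sh al (-1) (t + (n + i - j)) (t + (i - j)) (by omega))))) (fun hh => n1.f0 (rEE (cE (qf b al 0 (j) (j + k - i) (by omega)) (sh al (-1) (j + k - i) (j + k - n - i) (by omega))) (sh al (-1) (k) (k - n) (by omega)) (Eq.symm hh))) (by omega) (by omega)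
            · have kk2986 : (i + 1) ≤ (j) := by clear * - b6 b7 v88 z222 z225 z226; omega
              have kk2987 : (j) ≤ (i + l) := by clear * - b4 b7 z221 z226; omega
              have kk2988 : (k3) ≤ (i + l + m + 1) := by clear * - b4 b5 b6 b7 v88 z221 z222 z225 z227; omega
              have kk2989 : (i + l + m + 3) ≤ (n) := by clear * - b4 b6 b7 v88 z221 z222 z225 z226 z227; omega
              have kk2990 : (i + k3 + 1) ≤ (j + k) := by clear * - b6 b7 v88 z222 z225 z226; omega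
              have kk2991 : (j + k + 1) ≤ (n + i) := by clear * - b4 b6 b7 v88 z221 z222 z225 z226 z227; omega
              have kk2992 : (k3 + 1) ≤ (k) := by clear * - b6 b7 z222 z225 z226; omega
              have kk2993 : (k + 1) ≤ (n) := by clear * - b4 b6 b7 v88 z221 z222 z225 z226 z227; omega
              have kk2994 : (i + l + m + 1) ≤ (k) := by clear * - b6 z222 z225 z227; omega
              have kk2995 : (0) ≤ (i + 1) := by clear * - b6 z221 z222 z225 z227; omega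
              have kk2996 : (j) ≤ (i + l + 1) := by clear * - b4 b7 z221 z226; omega
              have kk2997 : (k3) ≤ (k) := by clear * - b6 b7 z222 z225 z226; omega
              have kk2998 : (i + k) ≤ (j + k3) := by clear * - v88; omega
              have kk2999 : (j + k) ≤ (n + i) := by clear * - b4 b6 b7 v88 z221 z222 z225 z226 z227; omega
              have kk3000 : (k) ≤ (n) := by clear * - b4 b6 b7 v88 z221 z222 z225 z226 z227; omega
              have r3001 : (i - j) % 2 = 0 := by clear * - ev n1p n2p n3p; omega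
              have r3002 : (i + l + m - k3 + 2) % 2 = 0 := by clear * - ev n1p n2p n3p; omega
              clear * - al a1 b D2 n1 kk2986 kk2987 kk2988 kk2989 kk2990 kk2991 kk2992 kk2993 kk2994 kk2995 kk2996 kk2997 kk2998 kk2999 kk3000 r3001 r3002
              exact ivt0 (k3 - n + 1) (k3 - i - l - m - 2) (i + l + m - k3 + 2) (j + k3 - n - i + 1) (j + k - n - i) (i - j) (j + k - n - i) (k - n) 0 (fun t h1 h2 => (cE (pb D2 al (-1) t (t + (n + i + l + m - k3 + 2)) (by omega)) (sh al (-1) (t + (n + i + l + m - k3 + 2)) (t + (i + l + m - k3 + 2)) (by omega)))) (fun t h1 h2 => (cE (sh al 1 t (t + (n)) (by omega)) (cE (cE (pb b al 0 (t + (n)) (t + (n + i - k)) (by omega)) (qf a1 al 0 (t + (n + i - k)) (t + (n + i - j)) (by omega))) (sh al (-1) (t + (n + i - j)) (t + (i - j)) (by omega))))) (fun hh => n1.f0 (rEE (cE (qf b al 0 (j) (j + k - i) (by omega)) (sh al (-1) (j + k - i) (j + k - n -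 i) (by omega))) (sh al (-1) (k) (k - n) (by omega)) (Eq.symm hh))) (by omega) (by omega)
        · by_cases z230 : (2 * i + l + m + 2) ≤ (j + k3)
          · have kk3003 : (n + 2 * i2 + k3) ≤ (3 * i + 3 * l + 3 * m + 4) := by clear * - b4 b6 y16 z221 z222 z225 z226 ev n1p n2p n3p; omega
            have kk3004 : (3 * i + 3 * l + m + 5) ≤ (n + k3) := by clear * - b2 b4 b6 z222 z230; omega
            have kk3005 : (k) ≤ (i + l + m + 2) := by clear * - b4 y16 z221 z226; omega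
            have kk3006 : (k + l + 1) ≤ (n) := by clear * - b2 b3 b4 b5 b6 z221 z222 z226 z230; omega
            have kk3007 : (2 * i + 2 * l + 2 * m + 4) ≤ (n + 2 * i2) := by clear * - b2 b3 b4 b5 b6 z222 z230; omega
            have kk3008 : (k + l + m + 2) ≤ (n + i2) := by clear * - b2 b3 b4 b5 b6 z221 z222 z226 z230; omega
            have kk3009 : (n + i2) ≤ (i + k + 2 * l + 2) := by clear * - b4 b5 b6 b7 z221 z222 z225 z230; omega
            have kk3010 : (0) ≤ (i2) := by clear * - y7; omega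
            have r3011 : (3 * n + 2 * i2 + k3 - i - l - m - 2) % 2 = 0 := by clear * - ev n1p n2p n3p; omega
            clear * - al b c2 tt D2 kk3003 kk3004 kk3005 kk3006 kk3007 kk3008 kk3009 kk3010 r3011
            obtain ⟨t, ht⟩ : ∃ t, 2 * t = (3 * n + 2 * i2 + k3 - i - l - m - 2) := ⟨(3 * n + 2 * i2 + k3 - i - l - m - 2) / 2, by omega⟩
            exact al.ninv t (cE (cI (cE (pb (show Par W (2 * i + l + m - k + 3) (i + l + 1) (k + k3 - 2 * i - l - m - 2) from fun t h1 h2 => (cE (sh al (-1) t (t + (-n)) (by omega)) (cE (qf b al (-1) (t + (-n)) (t + (k - i)) (by omega)) (qf D2 al 0 (t + (k - i)) (t + (k + k3 - 2 * i - l - m - 2)) (by omega))))) al 1 t (t + (2 * i + l + m - n - k - k3 + 2)) (by omega)) (pb c2 al 0 (t + (2 * i + l + m - n - k - k3 + 2)) (t + (2 * i + 2 * l + m - n - i2 - k3 + 3)) (by omega))) (qa tt al 1 (t + (2 * i + 2 * l + m - n - i2 - k3 + 3)) ((2 * n + 2 * i2 +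 k3 - i - l - m - 2) - t) (by omega))) (sh al 1 ((2 * n + 2 * i2 + k3 - i - l - m - 2) - t) t (by omega)))
          · by_cases z231 : (2 * Q + j + k3) ≤ (3 * i + 2 * l + i2 + m + 3)
            · by_cases v89 : (Q + k) ≤ (2 * i + l + m + 3)
              · have kk3012 : (i + j + m + k3 + 3) ≤ (2 * k + i2) := by clear * - b3 b4 b5 b6 b8 ev n1p n2p n3p; omega
                have kk3013 : (i + i2 + m + 2) ≤ (j + k3) := by clear * - b6 b7 b8 y18 z225; omega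
                have kk3014 : (k) ≤ (i + l + m + 2) := by clear * - v89 y18 z222; omega
                have kk3015 : (k + l + 1) ≤ (n) := by clear * - b2 b3 b4 b6 b8 z231; omega
                have kk3016 : (i + l + 1) ≤ (k3) := by clear * - b2 b6 v89 y16 z222 z225; omega
                have kk3017 : (Q + k) ≤ (2 * i + l + m + 3) := by clear * - v89; omega
                have kk3018 : (i + l + 1) ≤ (k) := by clear * - b2 b6 y16 z222 z225; omega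
                have kk3019 : (k + k3) ≤ (2 * i + l + 2 * m + 3) := by clear * - v89 z222; omega
                have r3020 : (3 * i + j + 2 * l + i2 + m - 2 * n - 2 * k - k3 + 3) % 2 = 0 := by clear * - ev n1p n2p n3p; omega
                clear * - al a2 b tt D2 kk3012 kk3013 kk3014 kk3015 kk3016 kk3017 kk3018 kk3019 r3020
                obtain ⟨t, ht⟩ : ∃ t, 2 * t = (3 * i + j + 2 * l + i2 + m - 2 * n - 2 * k - k3 + 3) := ⟨(3 * i + j + 2 * l + i2 + m - 2 * n - 2 * k - k3 + 3) / 2, by omega⟩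
                exact al.ninv t (cE (cI (cE (qf a2 al (-1) t (t + (n + k - j)) (by omega)) (qf (show Par W (2 * i + l + m - k + 3) (i + l + 1) (k + k3 - 2 * i - l - m - 2) from fun t h1 h2 => (cE (sh al (-1) t (t + (-n)) (by omega)) (cE (qf b al (-1) (t + (-n)) (t + (k - i)) (by omega)) (qf D2 al 0 (t + (k - i)) (t + (k + k3 - 2 * i - l - m - 2)) (by omega))))) al 0 (t + (n + k - j)) (t + (n + 2 * k + k3 - 2 * i - j - l - m - 2)) (by omega))) (ab tt al 0 (t + (n + 2 * k + k3 - 2 * i - j - l - m - 2)) ((3 * i + j + 2 * l + i2 + m - n - 2 * k - k3 + 3) - t) (by omega))) (sh al (-1) ((3 * i + j + 2 * l + i2 + m - n - 2 * k - k3 + 3) - t) t (by omega)))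
              · by_cases v90 : (2 * i + l + 2 * m + 3) ≤ (k + k3)
                · have kk3021 : (2 * Q + j + k3) ≤ (3 * i + 2 * l + i2 + m + 3) := by clear * - z231; omega
                  have kk3022 : (2 * k + i2 + k3) ≤ (3 * i + j + 2 * l + 3 * m + 4) := by clear * - b1 z222 z226 z231; omega
                  have kk3023 : (k) ≤ (i + l + m + 2) := by clear * - b4 y16 z221 z226; omega
                  have kk3024 : (k + l + 1) ≤ (n) := by clear * - b2 b3 b4 b6 v89 z221 z226 z230; omega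
                  have kk3025 : (2 * i + l + m + 3) ≤ (Q + k) := by clear * - v89; omega
                  have kk3026 : (3 * i + 2 * l + m + 4) ≤ (Q + k + k3) := by clear * - b2 b6 y16 z222 z225; omega
                  have kk3027 : (i + l + 1) ≤ (k) := by clear * - b2 b6 y16 z222 z225; omega
                  have kk3028 : (2 * i + l + 2 * m + 3) ≤ (k + k3) := by clear * - v90; omega
                  have r3029 : (3 * i + j + 2 * l + i2 + m - 2 * n - 2 * k - k3 + 3) % 2 = 0 := by clear * - ev n1p n2p n3p; omega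
                  clear * - al a2 b tt D2 kk3021 kk3022 kk3023 kk3024 kk3025 kk3026 kk3027 kk3028 r3029
                  obtain ⟨t, ht⟩ : ∃ t, 2 * t = (3 * i + j + 2 * l + i2 + m - 2 * n - 2 * k - k3 + 3) := ⟨(3 * i + j + 2 * l + i2 + m - 2 * n - 2 * k - k3 + 3) / 2, by omega⟩
                  exact al.ninv t (cE (cI (cE (qf a2 al (-1) t (t + (n + k - j)) (by omega)) (qf (show Par W (2 * i + l + m - k + 3) (i + l + 1) (k + k3 - 2 * i - l - m - 2) from fun t h1 h2 => (cE (sh al (-1) t (t + (-n)) (by omega)) (cE (qf b al (-1) (t + (-n)) (t + (k - i)) (by omega)) (qf D2 al 0 (t + (k - i)) (t + (k + k3 - 2 * i - l - m - 2)) (by omega))))) al 0 (t + (n + k - j)) (t + (n + 2 * k + k3 - 2 * i - j - l - m - 2)) (by omega))) (ab tt al 0 (t + (n + 2 * k + k3 - 2 * i - j - l - m - 2)) ((3 * i + j + 2 * l + i2 + m - n - 2 * k - k3 + 3) - t) (by omega))) (sh al (-1) ((3 * i + j + 2 * l + i2 + m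 - n - 2 * k - k3 + 3) - t) t (by omega)))
                · have kk3030 : (2 * Q + j + k3) ≤ (3 * i + 2 * l + i2 + m + 3) := by clear * - z231; omega
                  have kk3031 : (i + i2 + m + 2) ≤ (j + k3) := by clear * - b6 v89 y18 z225 z226; omega
                  have kk3032 : (k) ≤ (i + l + m + 2) := by clear * - v90 y18; omega
                  have kk3033 : (k + l + 1) ≤ (n) := by clear * - b2 b3 b4 b6 v89 v90 z221 z226 z231; omega
                  have kk3034 : (2 * i + l + m + 3) ≤ (Q + k) := by clear * - v89; omega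
                  have kk3035 : (3 * i + 2 * l + m + 4) ≤ (Q + k + k3) := by clear * - b2 b6 v89 v90 y16 z225; omega
                  have kk3036 : (i + l + 1) ≤ (k) := by clear * - b2 b6 v89 v90 y16 z225; omega
                  have kk3037 : (k + k3) ≤ (2 * i + l + 2 * m + 3) := by clear * - v90; omega
                  have r3038 : (3 * i + j + 2 * l + i2 + m - 2 * n - 2 * k - k3 + 3) % 2 = 0 := by clear * - ev n1p n2p n3p; omega
                  clear * - al a2 b tt D2 kk3030 kk3031 kk3032 kk3033 kk3034 kk3035 kk3036 kk3037 r3038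
                  obtain ⟨t, ht⟩ : ∃ t, 2 * t = (3 * i + j + 2 * l + i2 + m - 2 * n - 2 * k - k3 + 3) := ⟨(3 * i + j + 2 * l + i2 + m - 2 * n - 2 * k - k3 + 3) / 2, by omega⟩
                  exact al.ninv t (cE (cI (cE (qf a2 al (-1) t (t + (n + k - j)) (by omega)) (qf (show Par W (2 * i + l + m - k + 3) (i + l + 1) (k + k3 - 2 * i - l - m - 2) from fun t h1 h2 => (cE (sh al (-1) t (t + (-n)) (by omega)) (cE (qf b al (-1) (t + (-n)) (t + (k - i)) (by omega)) (qf D2 al 0 (t + (k - i)) (t + (k + k3 - 2 * i - l - m - 2)) (by omega))))) al 0 (t + (n + k - j)) (t + (n + 2 * k + k3 - 2 * i - j - l - m - 2)) (by omega))) (ab tt al 0 (t + (n + 2 * k + k3 - 2 * i - j - l - m - 2)) ((3 * i + j + 2 * l + i2 + m - n - 2 * k - k3 + 3) - t) (by omega))) (sh al (-1) ((3 * i + j + 2 * l + i2 + m - n - 2 * k - k3 + 3) - t) t (by omega)))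
            · by_cases v91 : (3 * i + 3 * l + 2 * m + 5) ≤ (n + i2 + k3)
              · have kk3039 : (n + 2 * i2 + k3) ≤ (3 * i + 3 * l + 3 * m + 4) := by clear * - b0 b6 y16 z225 z226 z230; omega
                have kk3040 : (3 * i + 3 * l + m + 5) ≤ (n + 2 * i2 + k3) := by clear * - b6 v91 y16 z221 z225 z230 z231; omega
                have kk3041 : (k) ≤ (i + l + m + 2) := by clear * - v91 y16 z221 z225 z226 z230; omega
                have kk3042 : (k + l + 1) ≤ (n) := by clear * - b4 b6 b7 v91 z221 z222 z225; omega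
                have kk3043 : (2 * i + l + 2 * m + 3) ≤ (k + k3) := by clear * - b1 b5 v91 z226; omega
                have kk3044 : (3 * i + 3 * l + 2 * m + 5) ≤ (n + i2 + k3) := by clear * - v91; omega
                have kk3045 : (k3) ≤ (i + l + 1) := by clear * - b3 b4 b5 b6 v91 z222 z226 ev n1p n2p n3p; omega
                have kk3046 : (k + i2 + k3) ≤ (3 * i + 2 * l + m + 3) := by clear * - b7 z230; omega
                have r3047 : (3 * i + 3 * l + m - n - k3 + 4) % 2 = 0 := by clear * - ev n1p n2p n3p; omega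
                clear * - al b c2 tt D2 kk3039 kk3040 kk3041 kk3042 kk3043 kk3044 kk3045 kk3046 r3047
                obtain ⟨t, ht⟩ : ∃ t, 2 * t = (3 * i + 3 * l + m - n - k3 + 4) := ⟨(3 * i + 3 * l + m - n - k3 + 4) / 2, by omega⟩
                exact al.ninv t (cE (cE (cE (qa tt al 0 t ((i + l + i2 + 1) - t) (by omega)) (pb (show Par W (2 * i + l + m - k + 3) (i + l + 1) (k + k3 - 2 * i - l - m - 2) from fun t h1 h2 => (cE (sh al (-1) t (t + (-n)) (by omega)) (cE (qf b al (-1) (t + (-n)) (t + (k - i)) (by omega)) (qf D2 al 0 (t + (k - i)) (t + (k + k3 - 2 * i - l - m - 2)) (by omega))))) al 0 ((i + l + i2 + 1) - t) ((3 * i + 2 * l + i2 + m - k - k3 + 3) - t) (by omega))) (pb c2 al 0 ((3 * i + 2 * l + i2 + m - k - k3 + 3) - t) ((3 * i + 3 * l + m - k3 + 4) - t) (by omega))) (sh al (-1) ((3 * i + 3 * l + m - k3 + 4) - t) t (by omega)))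
              · by_cases v92 : (i + l + 1) ≤ (k3)
                · have kk3048 : (3 * i + 3 * l + m + 6) ≤ (n + k3) := by clear * - b4 b6 z231 ev n1p n2p n3p; omega
                  have kk3049 : (i + l + m + k3 + 3) ≤ (n + 2 * i2) := by clear * - b3 b4 b5 b6 v91 z231; omega
                  have kk3050 : (k) ≤ (i + l + m + 2) := by clear * - b3 b4 b5 b6 v91 v92 z226 z231; omega
                  have kk3051 : (k + l + 1) ≤ (n) := by clear * - b3 b4 b5 b6 v91 v92 z226 z230 z231; omega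
                  have kk3052 : (n + i2 + k3) ≤ (3 * i + 3 * l + 2 * m + 5) := by clear * - v91; omega
                  have kk3053 : (n + i2) ≤ (i + k + 2 * l + 2) := by clear * - b3 b4 b5 b6 v91 v92 z226 z231; omega
                  have kk3054 : (i + l + 1) ≤ (k3) := by clear * - v92; omega
                  have kk3055 : (k + i2) ≤ (2 * i + l + m + 2) := by clear * - b7 v92 z230; omega
                  have r3056 : (3 * i + 3 * l + m - n - k3 + 4) % 2 = 0 := by clear * - ev n1p n2p n3p; omega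
                  clear * - al b c2 tt D2 kk3048 kk3049 kk3050 kk3051 kk3052 kk3053 kk3054 kk3055 r3056
                  obtain ⟨t, ht⟩ : ∃ t, 2 * t = (3 * i + 3 * l + m - n - k3 + 4) := ⟨(3 * i + 3 * l + m - n - k3 + 4) / 2, by omega⟩
                  exact al.ninv t (cE (cE (cE (qa tt al 0 t ((i + l + i2 + 1) - t) (by omega)) (pb (show Par W (2 * i + l + m - k + 3) (i + l + 1) (k + k3 - 2 * i - l - m - 2) from fun t h1 h2 => (cE (sh al (-1) t (t + (-n)) (by omega)) (cE (qf b al (-1) (t + (-n)) (t + (k - i)) (by omega)) (qf D2 al 0 (t + (k - i)) (t + (k + k3 - 2 * i - l - m - 2)) (by omega))))) al 0 ((i + l + i2 + 1) - t) ((3 * i + 2 * l + i2 + m - k - k3 + 3) - t) (by omega))) (pb c2 al 0 ((3 * i + 2 * l + i2 + m - k - k3 + 3) - t) ((3 * i + 3 * l + m - k3 + 4) - t) (by omega))) (sh al (-1) ((3 * i + 3 * l + m - k3 + 4) - t) t (by omega)))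
                · have kk3057 : (3 * i + 3 * l + m + 6) ≤ (n + k3) := by clear * - b4 b6 z231 ev n1p n2p n3p; omega
                  have kk3058 : (3 * i + 3 * l + m + 5) ≤ (n + 2 * i2 + k3) := by clear * - b2 b6 y16 z225 z230 z231; omega
                  have kk3059 : (k) ≤ (i + l + m + 2) := by clear * - b4 y16 z221 z226; omega
                  have kk3060 : (k + l + 1) ≤ (n) := by clear * - b4 b6 v92 z221 z231; omega
                  have kk3061 : (n + i2 + k3) ≤ (3 * i + 3 * l + 2 * m + 5) := by clear * - v91; omega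
                  have kk3062 : (n + i2) ≤ (i + k + 2 * l + 2) := by clear * - b5 b6 v91 v92 y18 z225 z226 z231; omega
                  have kk3063 : (k3) ≤ (i + l + 1) := by clear * - v92; omega
                  have kk3064 : (k + i2 + k3) ≤ (3 * i + 2 * l + m + 3) := by clear * - b7 z230; omega
                  have r3065 : (3 * i + 3 * l + m - n - k3 + 4) % 2 = 0 := by clear * - ev n1p n2p n3p; omega
                  clear * - al b c2 tt D2 kk3057 kk3058 kk3059 kk3060 kk3061 kk3062 kk3063 kk3064 r3065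
                  obtain ⟨t, ht⟩ : ∃ t, 2 * t = (3 * i + 3 * l + m - n - k3 + 4) := ⟨(3 * i + 3 * l + m - n - k3 + 4) / 2, by omega⟩
                  exact al.ninv t (cE (cE (cE (qa tt al 0 t ((i + l + i2 + 1) - t) (by omega)) (pb (show Par W (2 * i + l + m - k + 3) (i + l + 1) (k + k3 - 2 * i - l - m - 2) from fun t h1 h2 => (cE (sh al (-1) t (t + (-n)) (by omega)) (cE (qf b al (-1) (t + (-n)) (t + (k - i)) (by omega)) (qf D2 al 0 (t + (k - i)) (t + (k + k3 - 2 * i - l - m - 2)) (by omega))))) al 0 ((i + l + i2 + 1) - t) ((3 * i + 2 * l + i2 + m - k - k3 + 3) - t) (by omega))) (pb c2 al 0 ((3 * i + 2 * l + i2 + m - k - k3 + 3) - t) ((3 * i + 3 * l + m - k3 + 4) - t) (by omega))) (sh al (-1) ((3 * i + 3 * l + m - k3 + 4) - t) t (by omega)))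

theorem h8_94p
    (h8_95 : ∀ {W : ℤ → G} {n Q i j k l i2 m k3 : ℤ} (al : AL W n Q) (hy : (0) ≤ (i) ∧ (i) ≤ (j) ∧ (j + 1) ≤ (Q) ∧ (Q) ≤ (k) ∧ (k + 1) ≤ (n) ∧ (Q) ≤ (i + l + 1) ∧ (k + l + 2) ≤ (n) ∧ (0) ≤ (i2) ∧ (i2 + 1) ≤ (Q) ∧ (Q + m + 1) ≤ (n + i2) ∧ (i2) ≤ (m) ∧ (Q) ≤ (i + l + m + 2) ∧ (i + l + m + 3) ≤ (n) ∧ (Q) ≤ (k3) ∧ (k3 + 1) ≤ (n) ∧ (i + m + 2) ≤ (k) ∧ (i) ≤ (i2) ∧ (i2) ≤ (i) ∧ (i + m + 2) ≤ (k3) ∧ (k3) ≤ (i + l + m + 1) ∧ (m + k3 + 2) ≤ (n + i2)) (a1 : Par W (0) (j) (k - j)) (a2 : Par W (Q + j - k) (j) (k - j)) (s1 : Ant W (0) (i) (i + j)) (s2 : Ant W (j + 1) (Q) (i + j)) (b : Par W (i + 1) (i + l + 1) (k - i)) (c1 : Par W (i2 + 1) (Q) (k + l - i2 + 1)) (c2 : Par W (k + l + 2) (n) (i2 - k - l - 1)) (tt : Ant W (i2 - m) (i2) (i + l + i2 + 1)) (D1 : Par W (Q) (k3) (n + i2 - m - k3 - 1)) (D2 : Par W (i + l + m + 3) (n) (k3 - i - l - m - 2)) {L : ℤ} (mx : ∀ a b g, 0 < g → g < n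 → Par W a b g → b - a ≤ L) (hL : L ≤ (n - j - 3) ∧ L ≤ (n + Q - k - 3) ∧ L ≤ (n - l - 3) ∧ L ≤ (n + i - k - 2)) (bd0 : Bd W n L (j) (i) (k)) (n1 : Nd W (j) (i) (k)) (n2 : Nd W (i + l + 1) (i2) (k + l + 1)) (n3 : Nd W (n + i2 - m - 1) (i + l + m + 2) (k3)) (b0 : (k + i2 + 1) ≤ (Q + j + m)) (b1 : (1) ≤ (m)) (b2 : (i + l + i2 + m + 3) ≤ (Q + k3)) (b3 : (2 * k + l + 1) ≤ (n + j + i2)) (b4 : (i + 2 * j + 1) ≤ (k)) (b5 : (2 * n + 2 * j + m + k3) ≤ (i + 4 * k + 3 * l + 3)) (b6 : (2 * Q + k + l) ≤ (n + i + j + i2)) (b7 : (k + i2) ≤ (i + j + l + 2)) (b8 : (2 * i + l + i2 + 2) ≤ (2 * Q + j)), False)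
    {W : ℤ → G} {n Q i j k l i2 m k3 : ℤ} (al : AL W n Q)
    (hy : (0) ≤ (i) ∧ (i) ≤ (j) ∧ (j + 1) ≤ (Q) ∧ (Q) ≤ (k) ∧ (k + 1) ≤ (n) ∧ (Q) ≤ (i + l + 1) ∧ (k + l + 2) ≤ (n) ∧ (0) ≤ (i2) ∧ (i2 + 1) ≤ (Q) ∧ (Q + m + 1) ≤ (n + i2) ∧ (i2) ≤ (m) ∧ (Q) ≤ (i + l + m + 2) ∧ (i + l + m + 3) ≤ (n) ∧ (Q) ≤ (k3) ∧ (k3 + 1) ≤ (n) ∧ (i + m + 2) ≤ (k) ∧ (i) ≤ (i2) ∧ (i2) ≤ (i) ∧ (i + m + 2) ≤ (k3) ∧ (k3) ≤ (i + l + m + 1) ∧ (m + k3 + 2) ≤ (n + i2))
    (a1 : Par W (0) (j) (k - j))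
    (a2 : Par W (Q + j - k) (j) (k - j))
    (s1 : Ant W (0) (i) (i + j))
    (s2 : Ant W (j + 1) (Q) (i + j))
    (b : Par W (i + 1) (i + l + 1) (k - i))
    (c1 : Par W (i2 + 1) (Q) (k + l - i2 + 1))
    (c2 : Par W (k + l + 2) (n) (i2 - k - l - 1))
    (tt : Ant W (i2 - m) (i2) (i + l + i2 + 1))
    (D1 : Par W (Q) (k3) (n + i2 - m - k3 - 1))
    (D2 : Par W (i + l + m + 3) (n) (k3 - i - l - m - 2))
    {L : ℤ} (mx : ∀ a b g, 0 < g → g < n → Par W a b g → b - a ≤ L)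
    (hL : L ≤ (n - j - 3) ∧ L ≤ (n + Q - k - 3) ∧ L ≤ (n - l - 3) ∧ L ≤ (n + i - k - 2))
    (bd0 : Bd W n L (j) (i) (k))
    (n1 : Nd W (j) (i) (k))
    (n2 : Nd W (i + l + 1) (i2) (k + l + 1))
    (n3 : Nd W (n + i2 - m - 1) (i + l + m + 2) (k3))
    (b0 : (2 * l + 3) ≤ (n))
    (b1 : (k + i2 + 1) ≤ (Q + j + m))
    (b2 : (1) ≤ (m))
    (b3 : (i + l + i2 + m + 3) ≤ (Q + k3))
    (b4 : (2 * k + l + 1) ≤ (n + j + i2))
    (b5 : (i + 2 * j + 1) ≤ (k))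
    (b6 : (2 * n + 2 * j + m + k3) ≤ (i + 4 * k + 3 * l + 3))
    (b7 : (2 * Q + k + l) ≤ (n + i + j + i2))
    (b8 : (k + i2) ≤ (i + j + l + 2)) : False := by
  have ev := al.ev
  obtain ⟨y0, y1, y2, y3, y4, y5, y6, y7, y8, y9, y10, y11, y12, y13, y14, y15, y16, y17, y18, y19, y20⟩ := id hy
  have n1p := And.intro n1.p1 n1.p2
  have n2p := And.intro n2.p1 n2.p2
  have n3p := And.intro n3.p1 n3.p2
  by_cases z219 : (2 * Q + j) ≤ (2 * i + l + i2 + 1)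
  · by_cases z220 : (2 * i + j + l + 2) ≤ (2 * k + i2)
    · by_cases v83 : (Q + k) ≤ (2 * i + l + 2)
      · by_cases v84 : (2 * i + l + m + 2) ≤ (2 * k)
        · have kk2837 : (2 * i + j + l + 3) ≤ (2 * k + i2) := by clear * - z220 ev n1p n2p n3p; omega
          have kk2838 : (2 * k + i2) ≤ (2 * i + j + l + 2 * m + 2) := by clear * - b1 v83 z220; omega
          have kk2839 : (k) ≤ (i + l + 1) := by clear * - b1 b4 b5 b6 v83 y18; omega
          have kk2840 : (Q + k) ≤ (2 * i + l + 2) := by clear * - v83; omega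
          have kk2841 : (2 * i + l + m + 2) ≤ (2 * k) := by clear * - v84; omega
          have kk2842 : (i + m + 1) ≤ (k) := by clear * - b4 b5 b6 b8 v84 y18; omega
          have r2843 : (2 * n + 2 * i + j + l + i2 - 2 * k + 1) % 2 = 0 := by clear * - ev n1p n2p n3p; omega
          clear * - al a2 b tt kk2837 kk2838 kk2839 kk2840 kk2841 kk2842 r2843
          obtain ⟨t, ht⟩ : ∃ t, 2 * t = (2 * n + 2 * i + j + l + i2 - 2 * k + 1) := ⟨(2 * n + 2 * i + j + l + i2 - 2 * k + 1) / 2, by omega⟩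
          exact al.ninv t (cE (cI (cE (qf a2 al 1 t (t + (k - n - j)) (by omega)) (qf b al 0 (t + (k - n - j)) (t + (2 * k - n - i - j)) (by omega))) (ab tt al 0 (t + (2 * k - n - i - j)) ((n + 2 * i + j + l + i2 - 2 * k + 1) - t) (by omega))) (sh al 1 ((n + 2 * i + j + l + i2 - 2 * k + 1) - t) t (by omega)))
        · have kk2844 : (2 * i + j + l + 3) ≤ (2 * k + i2) := by clear * - z220 ev n1p n2p n3p; omega
          have kk2845 : (2 * i + l + i2 + 2) ≤ (j + 2 * k) := by clear * - y1 y17 z220; omega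
          have kk2846 : (k) ≤ (i + l + 1) := by clear * - b4 b5 b6 b8 v84 y18; omega
          have kk2847 : (Q + k) ≤ (2 * i + l + 2) := by clear * - v83; omega
          have kk2848 : (2 * k) ≤ (2 * i + l + m + 2) := by clear * - v84; omega
          have r2849 : (2 * n + 2 * i + j + l + i2 - 2 * k + 1) % 2 = 0 := by clear * - ev n1p n2p n3p; omega
          clear * - al a2 b tt kk2844 kk2845 kk2846 kk2847 kk2848 r2849
          obtain ⟨t, ht⟩ : ∃ t, 2 * t = (2 * n + 2 * i + j + l + i2 - 2 * k + 1) := ⟨(2 * n + 2 * i + j + l + i2 - 2 * k + 1) / 2, by omega⟩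
          exact al.ninv t (cE (cI (cE (qf a2 al 1 t (t + (k - n - j)) (by omega)) (qf b al 0 (t + (k - n - j)) (t + (2 * k - n - i - j)) (by omega))) (ab tt al 0 (t + (2 * k - n - i - j)) ((n + 2 * i + j + l + i2 - 2 * k + 1) - t) (by omega))) (sh al 1 ((n + 2 * i + j + l + i2 - 2 * k + 1) - t) t (by omega)))
      · by_cases v85 : (2 * i + l + m + 2) ≤ (2 * k)
        · have kk2850 : (2 * Q + j) ≤ (2 * i + l + i2 + 1) := by clear * - z219; omega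
          have kk2851 : (2 * k + i2) ≤ (2 * i + j + l + 2 * m + 2) := by clear * - b1 z219; omega
          have kk2852 : (i + 1) ≤ (Q) := by clear * - b1 b4 b5 b6 v83 y18; omega
          have kk2853 : (2 * i + l + 2) ≤ (Q + k) := by clear * - v83; omega
          have kk2854 : (2 * i + l + m + 2) ≤ (2 * k) := by clear * - v85; omega
          have kk2855 : (i + m + 1) ≤ (k) := by clear * - b4 b5 b6 b8 v85 y18; omega
          have r2856 : (2 * n + 2 * i + j + l + i2 - 2 * k + 1) % 2 = 0 := by clear * - ev n1p n2p n3p; omega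
          clear * - al a2 b tt kk2850 kk2851 kk2852 kk2853 kk2854 kk2855 r2856
          obtain ⟨t, ht⟩ : ∃ t, 2 * t = (2 * n + 2 * i + j + l + i2 - 2 * k + 1) := ⟨(2 * n + 2 * i + j + l + i2 - 2 * k + 1) / 2, by omega⟩
          exact al.ninv t (cE (cI (cE (qf a2 al 1 t (t + (k - n - j)) (by omega)) (qf b al 0 (t + (k - n - j)) (t + (2 * k - n - i - j)) (by omega))) (ab tt al 0 (t + (2 * k - n - i - j)) ((n + 2 * i + j + l + i2 - 2 * k + 1) - t) (by omega))) (sh al 1 ((n + 2 * i + j + l + i2 - 2 * k + 1) - t) t (by omega)))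
        · have kk2857 : (2 * Q + j) ≤ (2 * i + l + i2 + 1) := by clear * - z219; omega
          have kk2858 : (2 * i + l + i2 + 2) ≤ (j + 2 * k) := by clear * - b1 b3 b5 b6 b7 v83 y1; omega
          have kk2859 : (k) ≤ (i + l + 1) := by clear * - b4 b5 b6 b8 v85 y18; omega
          have kk2860 : (2 * i + l + 2) ≤ (Q + k) := by clear * - v83; omega
          have kk2861 : (2 * k) ≤ (2 * i + l + m + 2) := by clear * - v85; omega
          have r2862 : (2 * n + 2 * i + j + l + i2 - 2 * k + 1) % 2 = 0 := by clear * - ev n1p n2p n3p; omega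
          clear * - al a2 b tt kk2857 kk2858 kk2859 kk2860 kk2861 r2862
          obtain ⟨t, ht⟩ : ∃ t, 2 * t = (2 * n + 2 * i + j + l + i2 - 2 * k + 1) := ⟨(2 * n + 2 * i + j + l + i2 - 2 * k + 1) / 2, by omega⟩
          exact al.ninv t (cE (cI (cE (qf a2 al 1 t (t + (k - n - j)) (by omega)) (qf b al 0 (t + (k - n - j)) (t + (2 * k - n - i - j)) (by omega))) (ab tt al 0 (t + (2 * k - n - i - j)) ((n + 2 * i + j + l + i2 - 2 * k + 1) - t) (by omega))) (sh al 1 ((n + 2 * i + j + l + i2 - 2 * k + 1) - t) t (by omega)))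
    · have kk2863 : (2 * k + l + 2) ≤ (n + j + i2) := by clear * - b0 y16 z220; omega
      have kk2864 : (j + i2) ≤ (2 * k + l) := by clear * - b0 b1 b4 b5 b6 b7 y18; omega
      have kk2865 : (j + i2 + 1) ≤ (k) := by clear * - b1 b3 b4 b5 b6 b7; omega
      have kk2866 : (n + i2) ≤ (2 * k + l + 1) := by clear * - b1 b3 b6 b7 y10 y16; omega
      clear * - al a1 c2 kk2863 kk2864 kk2865 kk2866
      exact al.ubP (n + j + i2 - 2 * k - l - 1) (by omega) (by omega) fun t h1 h2 => (cE (qf c2 al (-1) t (t + (n + i2 - k - l - 1)) (by omega)) (pb a1 al 0 (t + (n + i2 - k - l - 1)) (t + (n + j + i2 - 2 * k - l - 1)) (by omega)))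
  · exact h8_95 al hy a1 a2 s1 s2 b c1 c2 tt D1 D2 mx hL bd0 n1 n2 n3 (by clear * - b1; omega) (by clear * - b2; omega) (by clear * - b3; omega) (by clear * - b4; omega) (by clear * - b5; omega) (by clear * - b6; omega) (by clear * - b7; omega) (by clear * - b8; omega) (by clear * - z219; omega)

theorem h8_1p
    (h8_2 : ∀ {W : ℤ → G} {n Q i j k l i2 m k3 : ℤ} (al : AL W n Q) (hy : (0) ≤ (i) ∧ (i) ≤ (j) ∧ (j + 1) ≤ (Q) ∧ (Q) ≤ (k) ∧ (k + 1) ≤ (n) ∧ (Q) ≤ (i + l + 1) ∧ (k + l + 2) ≤ (n) ∧ (0) ≤ (i2) ∧ (i2 + 1) ≤ (Q) ∧ (Q + m + 1) ≤ (n + i2) ∧ (i2) ≤ (m) ∧ (Q) ≤ (i + l + m + 2) ∧ (i + l + m + 3) ≤ (n) ∧ (Q) ≤ (k3) ∧ (k3 + 1) ≤ (n) ∧ (i + m + 2) ≤ (k) ∧ (i) ≤ (i2) ∧ (i2) ≤ (i) ∧ (i + m + 2) ≤ (k3) ∧ (k3) ≤ (i + l + m + 1) ∧ (m + k3 + 2) ≤ (n + i2)) (a1 : Par W (0) (j) (k - j)) (a2 : Par W (Q + j - k) (j) (k - j)) (s1 : Ant W (0) (i) (i + j)) (s2 : Ant W (j + 1) (Q) (i + j)) (b : Par W (i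 + 1) (i + l + 1) (k - i)) (c1 : Par W (i2 + 1) (Q) (k + l - i2 + 1)) (c2 : Par W (k + l + 2) (n) (i2 - k - l - 1)) (tt : Ant W (i2 - m) (i2) (i + l + i2 + 1)) (D1 : Par W (Q) (k3) (n + i2 - m - k3 - 1)) (D2 : Par W (i + l + m + 3) (n) (k3 - i - l - m - 2)) {L : ℤ} (mx : ∀ a b g, 0 < g → g < n → Par W a b g → b - a ≤ L) (hL : L ≤ (n - j - 3) ∧ L ≤ (n + Q - k - 3) ∧ L ≤ (n - l - 3) ∧ L ≤ (n + i - k - 2)) (bd0 : Bd W n L (j) (i) (k)) (n1 : Nd W (j) (i) (k)) (n2 : Nd W (i + l + 1) (i2) (k + l + 1)) (n3 : Nd W (n + i2 - m - 1) (i + l + m + 2) (k3)) (b0 : (2 * l + 3) ≤ (n)) (b1 : (n + i2 + k3) ≤ (2 * i + 2 * l + 3 * m + 4)), False)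
    (h8_17 : ∀ {W : ℤ → G} {n Q i j k l i2 m k3 : ℤ} (al : AL W n Q) (hy : (0) ≤ (i) ∧ (i) ≤ (j) ∧ (j + 1) ≤ (Q) ∧ (Q) ≤ (k) ∧ (k + 1) ≤ (n) ∧ (Q) ≤ (i + l + 1) ∧ (k + l + 2) ≤ (n) ∧ (0) ≤ (i2) ∧ (i2 + 1) ≤ (Q) ∧ (Q + m + 1) ≤ (n + i2) ∧ (i2) ≤ (m) ∧ (Q) ≤ (i + l + m + 2) ∧ (i + l + m + 3) ≤ (n) ∧ (Q) ≤ (k3) ∧ (k3 + 1) ≤ (n) ∧ (i + m + 2) ≤ (k) ∧ (i) ≤ (i2) ∧ (i2) ≤ (i) ∧ (i + m + 2) ≤ (k3) ∧ (k3) ≤ (i + l + m + 1) ∧ (m + k3 + 2) ≤ (n + i2)) (a1 : Par W (0) (j) (k - j)) (a2 : Par W (Q + j - k) (j) (k - j)) (s1 : Ant W (0) (i) (i + j)) (s2 : Ant W (j + 1) (Q) (i + j)) (b : Par W (i + 1) (i + l + 1) (k - i)) (c1 : Par W (i2 + 1) (Q) (k + l - i2 + 1)) (c2 : Par W (k + l + 2) (n) (i2 - k - l - 1)) (tt : Ant W (i2 - m) (i2) (i + l + i2 + 1)) (D1 : Par W (Q) (k3) (n + i2 - m - k3 - 1)) (D2 : Par W (i + l + m + 3) (n) (k3 - i - l - m - 2)) {L : ℤ} (mx : ∀ a b g, 0 < g → g < n → Par W a b g →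 b - a ≤ L) (hL : L ≤ (n - j - 3) ∧ L ≤ (n + Q - k - 3) ∧ L ≤ (n - l - 3) ∧ L ≤ (n + i - k - 2)) (bd0 : Bd W n L (j) (i) (k)) (n1 : Nd W (j) (i) (k)) (n2 : Nd W (i + l + 1) (i2) (k + l + 1)) (n3 : Nd W (n + i2 - m - 1) (i + l + m + 2) (k3)) (b0 : (2 * l + 3) ≤ (n)) (b1 : (2 * i + 2 * l + 3 * m + 5) ≤ (n + i2 + k3)), False)
    {W : ℤ → G} {n Q i j k l i2 m k3 : ℤ} (al : AL W n Q)
    (hy : (0) ≤ (i) ∧ (i) ≤ (j) ∧ (j + 1) ≤ (Q) ∧ (Q) ≤ (k) ∧ (k + 1) ≤ (n) ∧ (Q) ≤ (i + l + 1) ∧ (k + l + 2) ≤ (n) ∧ (0) ≤ (i2) ∧ (i2 + 1) ≤ (Q) ∧ (Q + m + 1) ≤ (n + i2) ∧ (i2) ≤ (m) ∧ (Q) ≤ (i + l + m + 2) ∧ (i + l + m + 3) ≤ (n) ∧ (Q) ≤ (k3) ∧ (k3 + 1) ≤ (n) ∧ (i + m + 2) ≤ (k) ∧ (i) ≤ (i2) ∧ (i2) ≤ (i) ∧ (i + m + 2) ≤ (k3) ∧ (k3) ≤ (i + l + m + 1) ∧ (m + k3 + 2) ≤ (n + i2))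
    (a1 : Par W (0) (j) (k - j))
    (a2 : Par W (Q + j - k) (j) (k - j))
    (s1 : Ant W (0) (i) (i + j))
    (s2 : Ant W (j + 1) (Q) (i + j))
    (b : Par W (i + 1) (i + l + 1) (k - i))
    (c1 : Par W (i2 + 1) (Q) (k + l - i2 + 1))
    (c2 : Par W (k + l + 2) (n) (i2 - k - l - 1))
    (tt : Ant W (i2 - m) (i2) (i + l + i2 + 1))
    (D1 : Par W (Q) (k3) (n + i2 - m - k3 - 1))
    (D2 : Par W (i + l + m + 3) (n) (k3 - i - l - m - 2))
    {L : ℤ} (mx : ∀ a b g, 0 < g → g < n → Par W a b g → b - a ≤ L)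
    (hL : L ≤ (n - j - 3) ∧ L ≤ (n + Q - k - 3) ∧ L ≤ (n - l - 3) ∧ L ≤ (n + i - k - 2))
    (bd0 : Bd W n L (j) (i) (k))
    (n1 : Nd W (j) (i) (k))
    (n2 : Nd W (i + l + 1) (i2) (k + l + 1))
    (n3 : Nd W (n + i2 - m - 1) (i + l + m + 2) (k3))
    (b0 : (2 * l + 3) ≤ (n)) : False := by
  have ev := al.ev
  obtain ⟨y0, y1, y2, y3, y4, y5, y6, y7, y8, y9, y10, y11, y12, y13, y14, y15, y16, y17, y18, y19, y20⟩ := id hy
  have n1p := And.intro n1.p1 n1.p2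
  have n2p := And.intro n2.p1 n2.p2
  have n3p := And.intro n3.p1 n3.p2
  by_cases z2 : (n + i2 + k3) ≤ (2 * i + 2 * l + 3 * m + 4)
  · exact h8_2 al hy a1 a2 s1 s2 b c1 c2 tt D1 D2 mx hL bd0 n1 n2 n3 (by clear * - b0; omega) (by clear * - z2; omega)
  · exact h8_17 al hy a1 a2 s1 s2 b c1 c2 tt D1 D2 mx hL bd0 n1 n2 n3 (by clear * - b0; omega) (by clear * - z2; omega)

theorem h9_3p
    (h9_4 : ∀ {W : ℤ → G} {n Q i j k l i2 m k3 : ℤ} (al : AL W n Q) (hy : (0) ≤ (i) ∧ (i) ≤ (j) ∧ (j + 1) ≤ (Q) ∧ (Q) ≤ (k) ∧ (k + 1) ≤ (n) ∧ (Q) ≤ (i + l + 1) ∧ (k + l + 2) ≤ (n) ∧ (0) ≤ (i2) ∧ (i2 + 1) ≤ (Q) ∧ (Q + m + 1) ≤ (n + i2) ∧ (i2) ≤ (m) ∧ (Q) ≤ (i + l + m + 2) ∧ (i + l + m + 3) ≤ (n) ∧ (Q) ≤ (k3) ∧ (k3 + 1) ≤ (n) ∧ (i + m + 2) ≤ (k) ∧ (i) ≤ (i2) ∧ (i2) ≤ (i) ∧ (i + m + 1) ≤ (k3) ∧ (k3) ≤ (i + m + 1) ∧ (k3) ≤ (i + l + m + 1) ∧ (m + k3 + 2) ≤ (n + i2)) (a1 : Par W (0) (j) (k - j)) (a2 : Par W (Q +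 j - k) (j) (k - j)) (s1 : Ant W (0) (i) (i + j)) (s2 : Ant W (j + 1) (Q) (i + j)) (b : Par W (i + 1) (i + l + 1) (k - i)) (c1 : Par W (i2 + 1) (Q) (k + l - i2 + 1)) (c2 : Par W (k + l + 2) (n) (i2 - k - l - 1)) (tt : Ant W (i2 - m) (i2) (i + l + i2 + 1)) (D1 : Par W (Q) (k3) (n + i2 - m - k3 - 1)) (D2 : Par W (i + l + m + 3) (n) (k3 - i - l - m - 2)) {L : ℤ} (mx : ∀ a b g, 0 < g → g < n → Par W a b g → b - a ≤ L) (hL : L ≤ (n - j - 3) ∧ L ≤ (n + Q - k - 3) ∧ L ≤ (n - l - 3) ∧ L ≤ (n + i - k - 2)) (bd0 : Bd W n L (j) (i) (k)) (n1 : Nd W (j) (i) (k)) (n2 : Nd W (i + l + 1) (i2) (k + l + 1)) (n3 : Nd W (n + i2 - m - 1) (i + l + m + 2) (k3)) (d1 : ℤ) (q1 : d1 % 2 = 0) (x1 : Par W (i + 1) (k + l - d1 + 1) d1) (b0 : (i + l + 1) ≤ (k + d1)) (b1 : (0) ≤ (d1)) (b2 : (n + i + d1) ≤ (k + 2 * l + 2)) (b3 : (d1) ≤ (0)) (b4 : (2 * k + 2) ≤ (n + Q + i)), False)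
    {W : ℤ → G} {n Q i j k l i2 m k3 : ℤ} (al : AL W n Q)
    (hy : (0) ≤ (i) ∧ (i) ≤ (j) ∧ (j + 1) ≤ (Q) ∧ (Q) ≤ (k) ∧ (k + 1) ≤ (n) ∧ (Q) ≤ (i + l + 1) ∧ (k + l + 2) ≤ (n) ∧ (0) ≤ (i2) ∧ (i2 + 1) ≤ (Q) ∧ (Q + m + 1) ≤ (n + i2) ∧ (i2) ≤ (m) ∧ (Q) ≤ (i + l + m + 2) ∧ (i + l + m + 3) ≤ (n) ∧ (Q) ≤ (k3) ∧ (k3 + 1) ≤ (n) ∧ (i + m + 2) ≤ (k) ∧ (i) ≤ (i2) ∧ (i2) ≤ (i) ∧ (i + m + 1) ≤ (k3) ∧ (k3) ≤ (i + m + 1) ∧ (k3) ≤ (i + l + m + 1) ∧ (m + k3 + 2) ≤ (n + i2))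
    (a1 : Par W (0) (j) (k - j))
    (a2 : Par W (Q + j - k) (j) (k - j))
    (s1 : Ant W (0) (i) (i + j))
    (s2 : Ant W (j + 1) (Q) (i + j))
    (b : Par W (i + 1) (i + l + 1) (k - i))
    (c1 : Par W (i2 + 1) (Q) (k + l - i2 + 1))
    (c2 : Par W (k + l + 2) (n) (i2 - k - l - 1))
    (tt : Ant W (i2 - m) (i2) (i + l + i2 + 1))
    (D1 : Par W (Q) (k3) (n + i2 - m - k3 - 1))
    (D2 : Par W (i + l + m + 3) (n) (k3 - i - l - m - 2))
    {L : ℤ} (mx : ∀ a b g, 0 < g → g < n → Par W a b g → b - a ≤ L)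
    (hL : L ≤ (n - j - 3) ∧ L ≤ (n + Q - k - 3) ∧ L ≤ (n - l - 3) ∧ L ≤ (n + i - k - 2))
    (bd0 : Bd W n L (j) (i) (k))
    (n1 : Nd W (j) (i) (k))
    (n2 : Nd W (i + l + 1) (i2) (k + l + 1))
    (n3 : Nd W (n + i2 - m - 1) (i + l + m + 2) (k3))
    (d1 : ℤ) (q1 : d1 % 2 = 0) (x1 : Par W (i + 1) (k + l - d1 + 1) d1)
    (b0 : (i + l + 1) ≤ (k + d1))
    (b1 : (0) ≤ (d1))
    (b2 : (n + i + d1) ≤ (k + 2 * l + 2))
    (b3 : (d1) ≤ (0)) : False := by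
  have ev := al.ev
  obtain ⟨y0, y1, y2, y3, y4, y5, y6, y7, y8, y9, y10, y11, y12, y13, y14, y15, y16, y17, y18, y19, y20, y21⟩ := id hy
  have n1p := And.intro n1.p1 n1.p2
  have n2p := And.intro n2.p1 n2.p2
  have n3p := And.intro n3.p1 n3.p2
  by_cases z3 : (n + Q + i) ≤ (2 * k + 1)
  · have kk7 : (k + 1) ≤ (n + j) := by clear * - b1 b2 y1 y17 y6 y7; omega
    have kk8 : (j + 1) ≤ (k) := by clear * - b0 b3 y13 y17 y2 y20 y21 z3; omega
    have kk9 : (n + Q + i) ≤ (2 * k + 1) := by clear * - z3; omega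
    clear * - al a2 mx hL kk7 kk8 kk9
    exact absurd (mx (n + Q) (n + k) (n + j - k) (by omega) (by omega) fun t h1 h2 => (cE (pb a2 al 1 t (t + (j - n - k)) (by omega)) (sh al 2 (t + (j - n - k)) (t + (n + j - k)) (by omega)))) (by omega)
  · exact h9_4 al hy a1 a2 s1 s2 b c1 c2 tt D1 D2 mx hL bd0 n1 n2 n3 d1 q1 x1 (by clear * - b0; omega) (by clear * - b1; omega) (by clear * - b2; omega) (by clear * - b3; omega) (by clear * - z3; omega)

theorem h9_51p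
    {W : ℤ → G} {n Q i j k l i2 m k3 : ℤ} (al : AL W n Q)
    (hy : (0) ≤ (i) ∧ (i) ≤ (j) ∧ (j + 1) ≤ (Q) ∧ (Q) ≤ (k) ∧ (k + 1) ≤ (n) ∧ (Q) ≤ (i + l + 1) ∧ (k + l + 2) ≤ (n) ∧ (0) ≤ (i2) ∧ (i2 + 1) ≤ (Q) ∧ (Q + m + 1) ≤ (n + i2) ∧ (i2) ≤ (m) ∧ (Q) ≤ (i + l + m + 2) ∧ (i + l + m + 3) ≤ (n) ∧ (Q) ≤ (k3) ∧ (k3 + 1) ≤ (n) ∧ (i + m + 2) ≤ (k) ∧ (i) ≤ (i2) ∧ (i2) ≤ (i) ∧ (i + m + 1) ≤ (k3) ∧ (k3) ≤ (i + m + 1) ∧ (k3) ≤ (i + l + m + 1) ∧ (m + k3 + 2) ≤ (n + i2))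
    (a1 : Par W (0) (j) (k - j))
    (a2 : Par W (Q + j - k) (j) (k - j))
    (s1 : Ant W (0) (i) (i + j))
    (s2 : Ant W (j + 1) (Q) (i + j))
    (b : Par W (i + 1) (i + l + 1) (k - i))
    (c1 : Par W (i2 + 1) (Q) (k + l - i2 + 1))
    (c2 : Par W (k + l + 2) (n) (i2 - k - l - 1))
    (tt : Ant W (i2 - m) (i2) (i + l + i2 + 1))
    (D1 : Par W (Q) (k3) (n + i2 - m - k3 - 1))
    (D2 : Par W (i + l + m + 3) (n) (k3 - i - l - m - 2))
    {L : ℤ} (mx : ∀ a b g, 0 < g → g < n → Par W a b g → b - a ≤ L)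
    (hL : L ≤ (n - j - 3) ∧ L ≤ (n + Q - k - 3) ∧ L ≤ (n - l - 3) ∧ L ≤ (n + i - k - 2))
    (bd0 : Bd W n L (j) (i) (k))
    (n1 : Nd W (j) (i) (k))
    (n2 : Nd W (i + l + 1) (i2) (k + l + 1))
    (n3 : Nd W (n + i2 - m - 1) (i + l + m + 2) (k3))
    (d1 : ℤ) (q1 : d1 % 2 = 0) (x1 : Par W (i + 1) (k + l - d1 + 1) d1)
    (b0 : (d1) ≤ (l))
    (b1 : (k + 2 * l + 3) ≤ (n + i + d1))
    (b2 : (2 * l + 3) ≤ (n))
    (b3 : (2 * j + 2 * k3 + 1) ≤ (i + k + 2 * m))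
    (b4 : (n + k3) ≤ (2 * i + 2 * l + i2 + m + 4))
    (b5 : (2 * Q + k + l + 1) ≤ (n + i + j + i2))
    (b6 : (i + l + m + 2) ≤ (2 * j + k3 + d1))
    (b7 : (i + j + l + 2 * m + 3) ≤ (k + i2 + d1)) : False := by
  have ev := al.ev
  obtain ⟨y0, y1, y2, y3, y4, y5, y6, y7, y8, y9, y10, y11, y12, y13, y14, y15, y16, y17, y18, y19, y20, y21⟩ := id hy
  have n1p := And.intro n1.p1 n1.p2
  have n2p := And.intro n2.p1 n2.p2
  have n3p := And.intro n3.p1 n3.p2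
  by_cases z106 : (i + k + 2 * l + m + 3) ≤ (n + k3 + d1)
  · by_cases z107 : (i + l + 2) ≤ (m + k3 + d1)
    · by_cases v33 : (i + l + 1) ≤ (k3 + d1)
      · have kk1196 : (k3 + d1) ≤ (i + l + m + 1) := by clear * - b0 y19; omega
        have kk1197 : (k3 + d1) ≤ (i + l + m) := by clear * - b0 y19 ev n1p n2p n3p q1; omega
        have kk1198 : (2 * j + m + 3 * k3 + d1 + 2) ≤ (i + 2 * k + l + 2 * i2) := by clear * - b0 b7 y19; omega
        have kk1199 : (3 * k3 + 3 * d1) ≤ (i + 2 * k + 3 * l + m + 2) := by clear * - b0 y15 y19; omega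
        have kk1200 : (i) ≤ (k3) := by clear * - b0 v33; omega
        have kk1201 : (i + k + 2 * l + m + 3) ≤ (n + k3 + d1) := by clear * - z106; omega
        have kk1202 : (i2 + d1) ≤ (j + l + 1) := by clear * - b0 y1 y17; omega
        have kk1203 : (i2) ≤ (j) := by clear * - y1 y17; omega
        have kk1204 : (i + j + m + 1) ≤ (k + i2) := by clear * - b0 b7 v33 y19; omega
        have kk1205 : (Q + j + m) ≤ (k + i2) := by clear * - b0 b7 y13 y19; omega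
        have kk1206 : (i2 + d1) ≤ (j + l + m + 2) := by clear * - b0 b6 y10 y19; omega
        have kk1207 : (i + l + 1) ≤ (k3 + d1) := by clear * - v33; omega
        have r1208 : (i + k + l + i2 + d1 - 2 * n - j + 1) % 2 = 0 := by clear * - ev n1p n2p n3p q1; omega
        have r1209 : (i + l + m - k3 - d1 + 2) % 2 = 0 := by clear * - ev n1p n2p n3p q1; omega
        clear * - al a2 tt D2 x1 kk1196 kk1197 kk1198 kk1199 kk1200 kk1201 kk1202 kk1203 kk1204 kk1205 kk1206 kk1207 r1208 r1209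
        exact midP al (i + l + m - k3 - d1 + 2) (i + k + l + i2 + d1 - 2 * n - j + 1) (k3 + d1 - n + 1) (k3 + d1 - n + 1) (i + k + 2 * l + m - n - k3 - d1 + 3) (by omega) (fun t h1 h2 => (cE (cE (cE (ab tt al (-1) t ((i + l + i2 - n + 1) - t) (by omega)) (qf a2 al 0 ((i + l + i2 - n + 1) - t) ((i + k + l + i2 - n - j + 1) - t) (by omega))) (qf x1 al 0 ((i + k + l + i2 - n - j + 1) - t) ((i + k + l + i2 + d1 - n - j + 1) - t) (by omega))) (sh al (-1) ((i + k + l + i2 + d1 - n - j + 1) - t) ((i + k + l + i2 + d1 - 2 * n - j + 1) - t) (by omega)))) (fun t h1 h2 => (cE (qf (show Par W (k3 + d1 + 1) (k + l + 1) (i + l + m - k3 - d1 + 2) from fun t h1 h2 => (cE (sh al (-1) t (t + (-n)) (by omega)) (cE (pb x1 al (-1) (t + (-n)) (t + (-d1)) (by omega)) (pb D2 al 0 (t + (-d1)) (t + (i + l + m - k3 - d1 + 2)) (by omega))))) al (-1) t (t + (n + i + l + m - k3 - d1 + 2)) (by omega)) (sh al (-1) (t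 + (n + i + l + m - k3 - d1 + 2)) (t + (i + l + m - k3 - d1 + 2)) (by omega))))
      · have kk1210 : (k3 + d1) ≤ (i + l + m + 1) := by clear * - v33 z107; omega
        have kk1211 : (i + l + 2) ≤ (m + k3 + d1) := by clear * - z107; omega
        have kk1212 : (i + 2 * j + l + m + k3 + 4) ≤ (2 * k + 2 * i2 + d1) := by clear * - b7 v33 z107; omega
        have kk1213 : (i + k3 + d1) ≤ (2 * k + l + m) := by clear * - b3 b6 v33 y18 z107; omega
        have kk1214 : (i) ≤ (k3) := by clear * - v33 y18 z107; omega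
        have kk1215 : (i + k + 2 * l + m + 3) ≤ (n + k3 + d1) := by clear * - z106; omega
        have kk1216 : (i2 + d1) ≤ (j + l + 1) := by clear * - b6 v33 y10 y18 z107; omega
        have kk1217 : (i2) ≤ (j) := by clear * - y1 y17; omega
        have kk1218 : (i + j + m + 1) ≤ (k + i2) := by clear * - b0 b7 v33 z107; omega
        have kk1219 : (Q + j + m) ≤ (k + i2) := by clear * - b7 v33 y13 z107; omega
        have kk1220 : (k3 + d1) ≤ (i + l + 1) := by clear * - v33; omega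
        have kk1221 : (i2 + k3 + 2 * d1) ≤ (i + j + 2 * l + m + 3) := by clear * - b0 b6 v33 y10 z107; omega
        have r1222 : (i + k + l + i2 + d1 - 2 * n - j + 1) % 2 = 0 := by clear * - ev n1p n2p n3p q1; omega
        have r1223 : (i + l + m - k3 - d1 + 2) % 2 = 0 := by clear * - ev n1p n2p n3p q1; omega
        clear * - al a2 tt D2 x1 kk1210 kk1211 kk1212 kk1213 kk1214 kk1215 kk1216 kk1217 kk1218 kk1219 kk1220 kk1221 r1222 r1223
        exact midP al (i + l + m - k3 - d1 + 2) (i + k + l + i2 + d1 - 2 * n - j + 1) (i + l - n + 2) (k3 + d1 - n + 1) (i + k + 2 * l + m - n - k3 - d1 + 3) (by omega) (fun t h1 h2 => (cE (cE (cE (ab tt al (-1) t ((i + l + i2 - n + 1) - t) (by omega)) (qf a2 al 0 ((i + l + i2 - n + 1) - t) ((i + k + l + i2 - n - j + 1) - t) (by omega))) (qf x1 al 0 ((i + k + l + i2 - n - j + 1) - t) ((i + k + l + i2 + d1 - n - j + 1) - t) (by omega))) (sh al (-1) ((i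 + k + l + i2 + d1 - n - j + 1) - t) ((i + k + l + i2 + d1 - 2 * n - j + 1) - t) (by omega)))) (fun t h1 h2 => (cE (qf (show Par W (k3 + d1 + 1) (k + l + 1) (i + l + m - k3 - d1 + 2) from fun t h1 h2 => (cE (sh al (-1) t (t + (-n)) (by omega)) (cE (pb x1 al (-1) (t + (-n)) (t + (-d1)) (by omega)) (pb D2 al 0 (t + (-d1)) (t + (i + l + m - k3 - d1 + 2)) (by omega))))) al (-1) t (t + (n + i + l + m - k3 - d1 + 2)) (by omega)) (sh al (-1) (t + (n + i + l + m - k3 - d1 + 2)) (t + (i + l + m - k3 - d1 + 2)) (by omega))))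
    · have kk1224 : (i + m + 2) ≤ (k) := by clear * - b0 b3 b6 y18 z107; omega
      have kk1225 : (k + l + 2) ≤ (n) := by clear * - b0 y19 z106; omega
      have kk1226 : (i + 1) ≤ (k) := by clear * - b0 b3 b6 y18; omega
      have kk1227 : (0) ≤ (l) := by clear * - y18 y20; omega
      have kk1228 : (2 * i + m + 2) ≤ (k + k3) := by clear * - b0 b3 b6 y18; omega
      have kk1229 : (k3) ≤ (i + l + m + 1) := by clear * - y20; omega
      have kk1230 : (i2) ≤ (j) := by clear * - b6 y10 z107; omega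
      have kk1231 : (Q + j + m) ≤ (k + i2) := by clear * - b0 b7 y13 y19; omega
      have kk1232 : (0) ≤ (l + m + 2) := by clear * - b0 b3 b4 b6 y10 y18 z106; omega
      have kk1233 : (i) ≤ (k3) := by clear * - b2 b4 y10 y16 y18; omega
      have kk1234 : (k + l + 1) ≤ (n) := by clear * - b0 y19 z106; omega
      have kk1235 : (k3) ≤ (i + l + m + 2) := by clear * - y20; omega
      have kk1236 : (0) ≤ (l + 1) := by clear * - y18 y20; omega
      have kk1237 : (i2) ≤ (j + l + 1) := by clear * - b0 b3 b4 b6 b7 y10 z106 z107; omega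
      have kk1238 : (i + j + m + 1) ≤ (k + i2) := by clear * - b2 b3 b4 b6 y16 y18 z107; omega
      have r1239 : (k3 - i - l - m - 2) % 2 = 0 := by clear * - ev n1p n2p n3p q1; omega
      have r1240 : (k - i) % 2 = 0 := by clear * - ev n1p n2p n3p q1; omega
      have r1241 : (i + k + l + i2 - 2 * n - j + 1) % 2 = 0 := by clear * - ev n1p n2p n3p q1; omega
      clear * - al a2 b tt D2 n2 kk1224 kk1225 kk1226 kk1227 kk1228 kk1229 kk1230 kk1231 kk1232 kk1233 kk1234 kk1235 kk1236 kk1237 kk1238 r1239 r1240 r1241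
      exact ivt al.ninv (i - n + 1) (i + l - n + 1) (k - i) (i + l + m - n + 3) (k + l - n + 1) (k3 - i - l - m - 2) (i + l - n + 1) (k + k3 - n - i - m - 1) 1 (fun t h1 h2 => (cE (qf b al (-1) t (t + (n + k - i)) (by omega)) (sh al (-1) (t + (n + k - i)) (t + (k - i)) (by omega)))) (fun t h1 h2 => (cE (sh al 2 t (t + (2 * n)) (by omega)) (cE (qf D2 al 1 (t + (2 * n)) (t + (n + k3 - i - l - m - 2)) (by omega)) (sh al (-1) (t + (n + k3 - i - l - m - 2)) (t + (k3 - i - l - m - 2)) (by omega))))) (fun hh => n2.f0 (rEE (sh al (-1) (i + l + 1) (i + l - n + 1) (by omega)) (cE (qf D2 al 0 (k + l + 1) (k + k3 - i - m - 1) (by omega)) (sh al (-1) (k + k3 - i - m - 1) (k + k3 - n - i - m - 1) (by omega))) (Eq.symm hh))) (by omega) (i + l - n + 2) (i + l + m - n + 2) (i + k + l + i2 - 2 * n - j + 1) 0 (-1) (fun t h1 h2 => (cE (cE (ab tt al (-1) t ((i + l + i2 - n + 1) - t) (by omega)) (qf a2 al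 0 ((i + l + i2 - n + 1) - t) ((i + k + l + i2 - n - j + 1) - t) (by omega))) (sh al (-1) ((i + k + l + i2 - n - j + 1) - t) ((i + k + l + i2 - 2 * n - j + 1) - t) (by omega)))) (by omega)
  · have kk1242 : (Q) ≤ (k3) := by clear * - y13; omega
    have kk1243 : (k3 + 1) ≤ (k) := by clear * - y15 y19; omega
    have kk1244 : (i + k + l + m + 3) ≤ (n + j + k3) := by clear * - b5 y16 y18 y8; omega
    have kk1245 : (k3 + d1) ≤ (i + l + m + 1) := by clear * - b0 y19; omega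
    have kk1246 : (i + l + m + 2) ≤ (k + d1) := by clear * - b0 b6 b7 y10 y19; omega
    have kk1247 : (i + j + l + m + 2) ≤ (k + d1) := by clear * - b7 y10; omega
    have kk1248 : (Q) ≤ (k3 + 1) := by clear * - y13; omega
    have kk1249 : (i + k + l + m + 2) ≤ (n + k3) := by clear * - y18 y6; omega
    have kk1250 : (i) ≤ (k3) := by clear * - b2 b4 y10 y16 y18; omega
    have kk1251 : (n + k3 + d1) ≤ (i + k + 2 * l + m + 3) := by clear * - z106; omega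
    have r1252 : (n + j + k3 - i - k - l - m - 2) % 2 = 0 := by clear * - ev n1p n2p n3p q1; omega
    have r1253 : (i + l + m - k3 - d1 + 2) % 2 = 0 := by clear * - ev n1p n2p n3p q1; omega
    clear * - al a2 D2 x1 n3 kk1242 kk1243 kk1244 kk1245 kk1246 kk1247 kk1248 kk1249 kk1250 kk1251 r1252 r1253
    exact n3.f1 (rEE (sh al (-1) (i + l + m + 2) (i + l + m - n + 2) (by omega)) (pb a2 al 0 (k3) (j + k3 - k) (by omega)) (rotL (n + j + k3 - i - k - l - m - 2) (i + l + m - k3 - d1 + 2) (i + l + m - n + 2) (j + k3 - k) (by omega) (fun t h1 h2 => (cE (qf D2 al (-1) t (t + (n + k3 - i - l - m - 2)) (by omega)) (pb a2 al 0 (t + (n + k3 - i - l - m - 2)) (t + (n + j + k3 - i - k - l - m - 2)) (by omega)))) (fun t h1 h2 => (cE (cE (pb x1 al (-1) t (t + (n - d1)) (by omega)) (pb D2 al 0 (t + (n - d1)) (t + (n + i + l + m - k3 - d1 + 2)) (by omega))) (sh al (-1) (t + (n + i + l + m - k3 - d1 +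 2)) (t + (i + l + m - k3 - d1 + 2)) (by omega))))))

theorem h9_47p
    (h9_48 : ∀ {W : ℤ → G} {n Q i j k l i2 m k3 : ℤ} (al : AL W n Q) (hy : (0) ≤ (i) ∧ (i) ≤ (j) ∧ (j + 1) ≤ (Q) ∧ (Q) ≤ (k) ∧ (k + 1) ≤ (n) ∧ (Q) ≤ (i + l + 1) ∧ (k + l + 2) ≤ (n) ∧ (0) ≤ (i2) ∧ (i2 + 1) ≤ (Q) ∧ (Q + m + 1) ≤ (n + i2) ∧ (i2) ≤ (m) ∧ (Q) ≤ (i + l + m + 2) ∧ (i + l + m + 3) ≤ (n) ∧ (Q) ≤ (k3) ∧ (k3 + 1) ≤ (n) ∧ (i + m + 2) ≤ (k) ∧ (i) ≤ (i2) ∧ (i2) ≤ (i) ∧ (i + m + 1) ≤ (k3) ∧ (k3) ≤ (i + m + 1) ∧ (k3) ≤ (i + l + m + 1) ∧ (m + k3 + 2) ≤ (n + i2)) (a1 : Par W (0) (j) (k - j)) (a2 : Par W (Q + j - k) (j) (k - j)) (s1 : Ant W (0) (i) (i + j)) (s2 : Ant W (j + 1) (Q) (i + j)) (b : Par W (i + 1) (i + l + 1) (k - i)) (c1 : Par W (i2 + 1) (Q) (k + l - i2 + 1)) (c2 : Par W (k + l + 2) (n) (i2 - k - l - 1)) (tt : Ant W (i2 - m) (i2) (i + l + i2 + 1)) (D1 : Par W (Q) (k3) (n + i2 - m - k3 - 1)) (D2 : Par W (i +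 l + m + 3) (n) (k3 - i - l - m - 2)) {L : ℤ} (mx : ∀ a b g, 0 < g → g < n → Par W a b g → b - a ≤ L) (hL : L ≤ (n - j - 3) ∧ L ≤ (n + Q - k - 3) ∧ L ≤ (n - l - 3) ∧ L ≤ (n + i - k - 2)) (bd0 : Bd W n L (j) (i) (k)) (n1 : Nd W (j) (i) (k)) (n2 : Nd W (i + l + 1) (i2) (k + l + 1)) (n3 : Nd W (n + i2 - m - 1) (i + l + m + 2) (k3)) (d1 : ℤ) (q1 : d1 % 2 = 0) (x1 : Par W (i + 1) (k + l - d1 + 1) d1) (b0 : (d1) ≤ (l)) (b1 : (k + 2 * l + 3) ≤ (n + i + d1)) (b2 : (2 * l + 3) ≤ (n)) (b3 : (k + 2 * m + 1) ≤ (n + j)) (b4 : (2 * j + 2 * k3 + 1) ≤ (i + k + 2 * m)) (b5 : (n + k3) ≤ (2 * i + 2 * l + i2 + m + 4)) (b6 : (2 * Q + k + l + 1) ≤ (n + i + j + i2)) (b7 : (i + l + 2 * m + 3) ≤ (n + i2)) (b8 : (i + l + m + 2) ≤ (2 * j + k3 + d1)) (b9 : (k + i2 + d1) ≤ (i + j + l + 2 * m + 2)), False)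
    (h9_51 : ∀ {W : ℤ → G} {n Q i j k l i2 m k3 : ℤ} (al : AL W n Q) (hy : (0) ≤ (i) ∧ (i) ≤ (j) ∧ (j + 1) ≤ (Q) ∧ (Q) ≤ (k) ∧ (k + 1) ≤ (n) ∧ (Q) ≤ (i + l + 1) ∧ (k + l + 2) ≤ (n) ∧ (0) ≤ (i2) ∧ (i2 + 1) ≤ (Q) ∧ (Q + m + 1) ≤ (n + i2) ∧ (i2) ≤ (m) ∧ (Q) ≤ (i + l + m + 2) ∧ (i + l + m + 3) ≤ (n) ∧ (Q) ≤ (k3) ∧ (k3 + 1) ≤ (n) ∧ (i + m + 2) ≤ (k) ∧ (i) ≤ (i2) ∧ (i2) ≤ (i) ∧ (i + m + 1) ≤ (k3) ∧ (k3) ≤ (i + m + 1) ∧ (k3) ≤ (i + l + m + 1) ∧ (m + k3 + 2) ≤ (n + i2)) (a1 : Par W (0) (j) (k - j)) (a2 : Par W (Q + j - k) (j) (k - j)) (s1 : Ant W (0) (i) (i + j)) (s2 : Ant W (j + 1) (Q) (i + j)) (b : Par W (i + 1) (i + l + 1) (k - i)) (c1 : Par W (i2 + 1) (Q) (k + l - i2 + 1)) (c2 : Par W (k + l + 2) (n) (i2 - k - l - 1)) (tt : Ant W (i2 - m) (i2) (i + l + i2 + 1)) (D1 : Par W (Q) (k3) (n + i2 - m - k3 - 1)) (D2 : Par W (i + l + m + 3) (n) (k3 - i - l - m - 2)) {L : ℤ} (mx : ∀ a b g, 0 < g →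 g < n → Par W a b g → b - a ≤ L) (hL : L ≤ (n - j - 3) ∧ L ≤ (n + Q - k - 3) ∧ L ≤ (n - l - 3) ∧ L ≤ (n + i - k - 2)) (bd0 : Bd W n L (j) (i) (k)) (n1 : Nd W (j) (i) (k)) (n2 : Nd W (i + l + 1) (i2) (k + l + 1)) (n3 : Nd W (n + i2 - m - 1) (i + l + m + 2) (k3)) (d1 : ℤ) (q1 : d1 % 2 = 0) (x1 : Par W (i + 1) (k + l - d1 + 1) d1) (b0 : (d1) ≤ (l)) (b1 : (k + 2 * l + 3) ≤ (n + i + d1)) (b2 : (2 * l + 3) ≤ (n)) (b3 : (2 * j + 2 * k3 + 1) ≤ (i + k + 2 * m)) (b4 : (n + k3) ≤ (2 * i + 2 * l + i2 + m + 4)) (b5 : (2 * Q + k + l + 1) ≤ (n + i + j + i2)) (b6 : (i + l + m + 2) ≤ (2 * j + k3 + d1)) (b7 : (i + j + l + 2 * m + 3) ≤ (k + i2 + d1)), False)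
    {W : ℤ → G} {n Q i j k l i2 m k3 : ℤ} (al : AL W n Q)
    (hy : (0) ≤ (i) ∧ (i) ≤ (j) ∧ (j + 1) ≤ (Q) ∧ (Q) ≤ (k) ∧ (k + 1) ≤ (n) ∧ (Q) ≤ (i + l + 1) ∧ (k + l + 2) ≤ (n) ∧ (0) ≤ (i2) ∧ (i2 + 1) ≤ (Q) ∧ (Q + m + 1) ≤ (n + i2) ∧ (i2) ≤ (m) ∧ (Q) ≤ (i + l + m + 2) ∧ (i + l + m + 3) ≤ (n) ∧ (Q) ≤ (k3) ∧ (k3 + 1) ≤ (n) ∧ (i + m + 2) ≤ (k) ∧ (i) ≤ (i2) ∧ (i2) ≤ (i) ∧ (i + m + 1) ≤ (k3) ∧ (k3) ≤ (i + m + 1) ∧ (k3) ≤ (i + l + m + 1) ∧ (m + k3 + 2) ≤ (n + i2))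
    (a1 : Par W (0) (j) (k - j))
    (a2 : Par W (Q + j - k) (j) (k - j))
    (s1 : Ant W (0) (i) (i + j))
    (s2 : Ant W (j + 1) (Q) (i + j))
    (b : Par W (i + 1) (i + l + 1) (k - i))
    (c1 : Par W (i2 + 1) (Q) (k + l - i2 + 1))
    (c2 : Par W (k + l + 2) (n) (i2 - k - l - 1))
    (tt : Ant W (i2 - m) (i2) (i + l + i2 + 1))
    (D1 : Par W (Q) (k3) (n + i2 - m - k3 - 1))
    (D2 : Par W (i + l + m + 3) (n) (k3 - i - l - m - 2))
    {L : ℤ} (mx : ∀ a b g, 0 < g → g < n → Par W a b g → b - a ≤ L)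
    (hL : L ≤ (n - j - 3) ∧ L ≤ (n + Q - k - 3) ∧ L ≤ (n - l - 3) ∧ L ≤ (n + i - k - 2))
    (bd0 : Bd W n L (j) (i) (k))
    (n1 : Nd W (j) (i) (k))
    (n2 : Nd W (i + l + 1) (i2) (k + l + 1))
    (n3 : Nd W (n + i2 - m - 1) (i + l + m + 2) (k3))
    (d1 : ℤ) (q1 : d1 % 2 = 0) (x1 : Par W (i + 1) (k + l - d1 + 1) d1)
    (b0 : (d1) ≤ (l))
    (b1 : (k + 2 * l + 3) ≤ (n + i + d1))
    (b2 : (2 * l + 3) ≤ (n))
    (b3 : (k + 2 * m + 1) ≤ (n + j))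
    (b4 : (2 * j + 2 * k3 + 1) ≤ (i + k + 2 * m))
    (b5 : (n + k3) ≤ (2 * i + 2 * l + i2 + m + 4))
    (b6 : (2 * Q + k + l + 1) ≤ (n + i + j + i2))
    (b7 : (i + l + 2 * m + 3) ≤ (n + i2))
    (b8 : (i + l + m + 2) ≤ (2 * j + k3 + d1)) : False := by
  have ev := al.ev
  obtain ⟨y0, y1, y2, y3, y4, y5, y6, y7, y8, y9, y10, y11, y12, y13, y14, y15, y16, y17, y18, y19, y20, y21⟩ := id hy
  have n1p := And.intro n1.p1 n1.p2
  have n2p := And.intro n2.p1 n2.p2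
  have n3p := And.intro n3.p1 n3.p2
  by_cases z93 : (k + i2 + d1) ≤ (i + j + l + 2 * m + 2)
  · exact h9_48 al hy a1 a2 s1 s2 b c1 c2 tt D1 D2 mx hL bd0 n1 n2 n3 d1 q1 x1 (by clear * - b0; omega) (by clear * - b1; omega) (by clear * - b2; omega) (by clear * - b3; omega) (by clear * - b4; omega) (by clear * - b5; omega) (by clear * - b6; omega) (by clear * - b7; omega) (by clear * - b8; omega) (by clear * - z93; omega)
  · exact h9_51 al hy a1 a2 s1 s2 b c1 c2 tt D1 D2 mx hL bd0 n1 n2 n3 d1 q1 x1 (by clear * - b0; omega) (by clear * - b1; omega) (by clear * - b2; omega) (by clear * - b4; omega) (by clear * - b5; omega) (by clear * - b6; omega) (by clear * - b8; omega) (by clear * - z93; omega)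

theorem h9_60p
    {W : ℤ → G} {n Q i j k l i2 m k3 : ℤ} (al : AL W n Q)
    (hy : (0) ≤ (i) ∧ (i) ≤ (j) ∧ (j + 1) ≤ (Q) ∧ (Q) ≤ (k) ∧ (k + 1) ≤ (n) ∧ (Q) ≤ (i + l + 1) ∧ (k + l + 2) ≤ (n) ∧ (0) ≤ (i2) ∧ (i2 + 1) ≤ (Q) ∧ (Q + m + 1) ≤ (n + i2) ∧ (i2) ≤ (m) ∧ (Q) ≤ (i + l + m + 2) ∧ (i + l + m + 3) ≤ (n) ∧ (Q) ≤ (k3) ∧ (k3 + 1) ≤ (n) ∧ (i + m + 2) ≤ (k) ∧ (i) ≤ (i2) ∧ (i2) ≤ (i) ∧ (i + m + 1) ≤ (k3) ∧ (k3) ≤ (i + m + 1) ∧ (k3) ≤ (i + l + m + 1) ∧ (m + k3 + 2) ≤ (n + i2))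
    (a1 : Par W (0) (j) (k - j))
    (a2 : Par W (Q + j - k) (j) (k - j))
    (s1 : Ant W (0) (i) (i + j))
    (s2 : Ant W (j + 1) (Q) (i + j))
    (b : Par W (i + 1) (i + l + 1) (k - i))
    (c1 : Par W (i2 + 1) (Q) (k + l - i2 + 1))
    (c2 : Par W (k + l + 2) (n) (i2 - k - l - 1))
    (tt : Ant W (i2 - m) (i2) (i + l + i2 + 1))
    (D1 : Par W (Q) (k3) (n + i2 - m - k3 - 1))
    (D2 : Par W (i + l + m + 3) (n) (k3 - i - l - m - 2))
    {L : ℤ} (mx : ∀ a b g, 0 < g → g < n → Par W a b g → b - a ≤ L)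
    (hL : L ≤ (n - j - 3) ∧ L ≤ (n + Q - k - 3) ∧ L ≤ (n - l - 3) ∧ L ≤ (n + i - k - 2))
    (bd0 : Bd W n L (j) (i) (k))
    (n1 : Nd W (j) (i) (k))
    (n2 : Nd W (i + l + 1) (i2) (k + l + 1))
    (n3 : Nd W (n + i2 - m - 1) (i + l + m + 2) (k3))
    (d1 : ℤ) (q1 : d1 % 2 = 0) (x1 : Par W (i + 1) (k + l - d1 + 1) d1)
    (b0 : (i + l + 1) ≤ (k + d1))
    (b1 : (n + i2) ≤ (i + k + 2 * l + 2))
    (b2 : (2 * j + 2 * k3 + 1) ≤ (i + k + 2 * m))
    (b3 : (2 * i + 2 * l + 3 * m + 5) ≤ (n + i2 + k3))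
    (b4 : (k) ≤ (i + m + d1))
    (b5 : (j + 2) ≤ (Q))
    (b6 : (2 * j + m + k3 + d1) ≤ (i + l + 2 * i2 + 1)) : False := by
  have ev := al.ev
  obtain ⟨y0, y1, y2, y3, y4, y5, y6, y7, y8, y9, y10, y11, y12, y13, y14, y15, y16, y17, y18, y19, y20, y21⟩ := id hy
  have n1p := And.intro n1.p1 n1.p2
  have n2p := And.intro n2.p1 n2.p2
  have n3p := And.intro n3.p1 n3.p2
  by_cases z141 : (k3) ≤ (Q)
  · by_cases z142 : (j + m + 1) ≤ (k3)
    · have kk1733 : (i + 1) ≤ (k) := by clear * - y13 y15 y16 y19 y8; omega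
      have kk1734 : (0) ≤ (l) := by clear * - y18 y20; omega
      have kk1735 : (k3) ≤ (i + m + 1) := by clear * - y19; omega
      have kk1736 : (i + m + 1) ≤ (k3) := by clear * - y18; omega
      have kk1737 : (k3) ≤ (Q) := by clear * - z141; omega
      have kk1738 : (i2) ≤ (i) := by clear * - y17; omega
      have kk1739 : (i) ≤ (i2) := by clear * - y16; omega
      have kk1740 : (k3 + 1) ≤ (k) := by clear * - y15 y19; omega
      have kk1741 : (i + k + l + m + 3) ≤ (n + k3) := by clear * - y18 y6; omega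
      have kk1742 : (j) ≤ (i) := by clear * - y19 z142; omega
      have kk1743 : (2 * Q) ≤ (i + k + 1) := by clear * - b0 b6 y1 y13 y17 y19; omega
      have kk1744 : (0) ≤ (l + m + 2) := by clear * - y13 y16 y20 y8; omega
      have kk1745 : (i) ≤ (k3) := by clear * - y13 y16 y8; omega
      have kk1746 : (k + l + 1) ≤ (n) := by clear * - y6; omega
      have kk1747 : (k3) ≤ (i + l + m + 2) := by clear * - y20; omega
      have kk1748 : (0) ≤ (l + 1) := by clear * - y18 y20; omega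
      have kk1749 : (Q) ≤ (k) := by clear * - y13 y15 y19; omega
      have kk1750 : (Q) ≤ (k + l + 1) := by clear * - y13 y15 y20; omega
      have r1751 : (k3 - i - l - m - 2) % 2 = 0 := by clear * - ev n1p n2p n3p q1; omega
      have r1752 : (k - i) % 2 = 0 := by clear * - ev n1p n2p n3p q1; omega
      have r1753 : (i + k - 2 * n) % 2 = 0 := by clear * - ev n1p n2p n3p q1; omega
      clear * - al a2 s2 b D2 n1 n2 kk1733 kk1734 kk1735 kk1736 kk1737 kk1738 kk1739 kk1740 kk1741 kk1742 kk1743 kk1744 kk1745 kk1746 kk1747 kk1748 kk1749 kk1750 r1751 r1752 r1753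
      exact ivt al.ninv (i - n + 1) (i + l - n + 1) (k - i) (i + l + m - n + 3) (k + l - n + 1) (k3 - i - l - m - 2) (i + l - n + 1) (k - n) 1 (fun t h1 h2 => (cE (qf b al (-1) t (t + (n + k - i)) (by omega)) (sh al (-1) (t + (n + k - i)) (t + (k - i)) (by omega)))) (fun t h1 h2 => (cE (qf D2 al (-1) t (t + (n + k3 - i - l - m - 2)) (by omega)) (sh al (-1) (t + (n + k3 - i - l - m - 2)) (t + (k3 - i - l - m - 2)) (by omega)))) (fun hh => n1.f0 (rEE (cE (qf (uP (j) (i + l + 1) (i + l - j + 1) (by omega) (lat n1.r1 n2.r1 (sh al 0 (i) (i2) (by omega)) (iNN (pb D2 al 0 (k) (k + l + 1) (by omega))))) al 0 (j) (i + l + 1) (by omega)) (sh al (-1) (i + l + 1) (i + l - n + 1) (by omega))) (sh al (-1) (k) (k - n) (by omega)) (Eq.symm hh))) (by omega) (i - n + 1) (Q - n) (i + k - 2 * n) 1 (-1) (fun t h1 h2 => (cE (cE (qa s2 al (-1) t ((i + j - n) - t) (by omega)) (qf a2 al 0 ((i + j - n) - t) ((i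 + k - n) - t) (by omega))) (sh al (-1) ((i + k - n) - t) ((i + k - 2 * n) - t) (by omega)))) (by omega)
    · by_cases z143 : (i + d1 + 1) ≤ (k)
      · have kk1754 : (i + d1 + 1) ≤ (k) := by clear * - z143; omega
        have kk1755 : (k + 1) ≤ (n + i + d1) := by clear * - b1 b2 b3 b4 b6 y17 y18 z142 z143; omega
        have kk1756 : (k + 1) ≤ (Q + d1) := by clear * - b4 y18 z141; omega
        have kk1757 : (Q) ≤ (i + l + 1) := by clear * - b1 b2 b3 b4 b6 y13 y17 y18 z142 z143; omega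
        have kk1758 : (i + d1) ≤ (k) := by clear * - z143; omega
        clear * - al b x1 kk1754 kk1755 kk1756 kk1757 kk1758
        exact al.ubQ (k - i - d1) (by omega) (by omega) fun t h1 h2 => (cE (sh al (-1) t (t + (-n)) (by omega)) (cE (qf b al (-1) (t + (-n)) (t + (k - i)) (by omega)) (pb x1 al 0 (t + (k - i)) (t + (k - i - d1)) (by omega))))
      · have kk1759 : (k3) ≤ (i + l + m + 1) := by clear * - y20; omega
        have kk1760 : (i + l + m + 3) ≤ (n) := by clear * - b1 b2 b3 b5 b6 y13 y17 y18 z142 z143; omega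
        have kk1761 : (k3) ≤ (k + l) := by clear * - y15 y20; omega
        have kk1762 : (k + l + 2) ≤ (n) := by clear * - b3 b5 b6 y10 y13 y17 y18 z142 z143; omega
        have kk1763 : (k3) ≤ (i + l) := by clear * - b1 b2 b4 b6 y17 y18 y21 z142; omega
        have kk1764 : (i + l + 2) ≤ (n) := by clear * - b1 b2 b3 b5 b6 y13 y17 y18 z142 z143; omega
        have kk1765 : (i2) ≤ (j) := by clear * - y17 y18 z142; omega
        have kk1766 : (Q + j + m) ≤ (k + i2) := by clear * - b0 b6 y13 y17 y18 z142; omega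
        have kk1767 : (k3) ≤ (k) := by clear * - y15 y19; omega
        have kk1768 : (i) ≤ (k3) := by clear * - b5 y13 y18 z142; omega
        have kk1769 : (k + l + 1) ≤ (n) := by clear * - b3 b5 b6 y10 y13 y17 y18 z142 z143; omega
        have kk1770 : (i + l + 1) ≤ (n) := by clear * - b1 b2 b3 b5 b6 y13 y17 y18 z142 z143; omega
        have kk1771 : (i + k + l + i2 + 1) ≤ (n + j + k3) := by clear * - b3 b5 b6 y10 y13 y17 y18 z142 z143; omega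
        have kk1772 : (k3) ≤ (i + l + 1) := by clear * - b1 b2 b4 b6 y17 y18 y21 z142; omega
        have kk1773 : (i + l + m + 2) ≤ (n) := by clear * - b1 b2 b3 b5 b6 y13 y17 y18 z142 z143; omega
        have kk1774 : (j + m + k3 + 1) ≤ (k + i2) := by clear * - b0 b6 y17 y18 z142; omega
        have r1775 : (i - k) % 2 = 0 := by clear * - ev n1p n2p n3p q1; omega
        have r1776 : (i + l + m - k3 + 2) % 2 = 0 := by clear * - ev n1p n2p n3p q1; omega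
        have r1777 : (i + k + l + i2 - 2 * n - j + 1) % 2 = 0 := by clear * - ev n1p n2p n3p q1; omega
        clear * - al a2 b tt D2 n2 kk1759 kk1760 kk1761 kk1762 kk1763 kk1764 kk1765 kk1766 kk1767 kk1768 kk1769 kk1770 kk1771 kk1772 kk1773 kk1774 r1775 r1776 r1777
        exact ivt al.ninv (k3 - n + 1) (k3 - i - l - m - 2) (i + l + m - k3 + 2) (k + k3 - n - i + 1) (k + l - n + 1) (i - k) (k + l - n + 1) (i + l - n + 1) 0 (fun t h1 h2 => (cE (pb D2 al (-1) t (t + (n + i + l + m - k3 + 2)) (by omega)) (sh al (-1) (t + (n + i + l + m - k3 + 2)) (t + (i + l + m - k3 + 2)) (by omega)))) (fun t h1 h2 => (cE (pb b al (-1) t (t + (n + i - k)) (by omega)) (sh al (-1) (t + (n + i - k)) (t + (i - k)) (by omega)))) (fun hh => n2.f0 (rEE (sh al (-1) (i + l + 1) (i + l - n + 1) (by omega)) (sh al (-1) (k + l + 1) (k + l - n + 1) (by omega)) (Eq.symm (Eq.symm hh)))) (by omega) (i + l - n + 2) (i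 + l + m - n + 2) (i + k + l + i2 - 2 * n - j + 1) 1 0 (fun t h1 h2 => (cI (sh al 1 t (t + (n)) (by omega)) (cE (cE (ab tt al 0 (t + (n)) ((i + l + i2 - n + 1) - t) (by omega)) (qf a2 al 0 ((i + l + i2 - n + 1) - t) ((i + k + l + i2 - n - j + 1) - t) (by omega))) (sh al (-1) ((i + k + l + i2 - n - j + 1) - t) ((i + k + l + i2 - 2 * n - j + 1) - t) (by omega))))) (by omega)
  · by_cases z144 : (i + l) ≤ (m + k3 + d1)
    · have kk1778 : (k3 + d1) ≤ (i + l + m + 1) := by clear * - b5 b6 y1 y17 y19 z141; omega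
      have kk1779 : (i + i2 + m + 1) ≤ (j + k3) := by clear * - y1 y17 y18; omega
      have kk1780 : (j + k3) ≤ (i + i2 + m + 1) := by clear * - b6 y19 z144; omega
      have kk1781 : (k3 + d1) ≤ (i + l) := by clear * - b5 b6 y1 y17 y19 z141; omega
      have kk1782 : (k3 + d1) ≤ (k + l) := by clear * - b1 b2 b3 b5 b6 y1 y17 y19 z141; omega
      have kk1783 : (k3 + d1) ≤ (k + l + m + 1) := by clear * - b1 b2 b3 b5 b6 y1 y17 y19 z141; omega
      have kk1784 : (i2) ≤ (j) := by clear * - y1 y17; omega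
      have kk1785 : (i + l) ≤ (m + k3 + d1) := by clear * - z144; omega
      have kk1786 : (j) ≤ (i2) := by clear * - b6 z144; omega
      have kk1787 : (i + k + l + m + 2) ≤ (n + k3) := by clear * - y18 y6; omega
      have kk1788 : (j + m + k3 + 1) ≤ (k + i2) := by clear * - b0 b6 y1 y17 ev n1p n2p n3p q1; omega
      have kk1789 : (Q + j + m) ≤ (k + i2) := by clear * - b0 b6 y1 y17 z141; omega
      have kk1790 : (i) ≤ (k3) := by clear * - y16 y8 z141; omega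
      have kk1791 : (i + k + 2 * l + m + 3) ≤ (n + k3 + d1) := by clear * - b3 b4 y10; omega
      have kk1792 : (j + k3 + d1) ≤ (i + l + i2 + 1) := by clear * - b5 b6 y1 y17 y19 z141; omega
      have kk1793 : (d1) ≤ (l + 1) := by clear * - b5 b6 y1 y17 y19 z141; omega
      have kk1794 : (k3 + d1) ≤ (k + l + 1) := by clear * - b1 b2 b3 b5 b6 y1 y17 y19 z141; omega
      have kk1795 : (j + 2 * k3 + d1) ≤ (i + k + l + i2 + 1) := by clear * - b1 b2 b3 b5 b6 y1 y17 y19 z141; omega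
      have r1796 : (2 * i + k + 2 * l + i2 + m - j - k3 + 3) % 2 = 0 := by clear * - ev n1p n2p n3p q1; omega
      have r1797 : (i + l + m - k3 - d1 + 2) % 2 = 0 := by clear * - ev n1p n2p n3p q1; omega
      clear * - al a2 tt D2 x1 n2 kk1778 kk1779 kk1780 kk1781 kk1782 kk1783 kk1784 kk1785 kk1786 kk1787 kk1788 kk1789 kk1790 kk1791 kk1792 kk1793 kk1794 kk1795 r1796 r1797
      exact n2.f0 (rEE (sh al 0 (i + l + 1) (i + l + 1) (by omega)) (sh al 0 (k + l + 1) (k + l + 1) (by omega)) (midL al (i + l + m - k3 - d1 + 2) (2 * i + k + 2 * l + i2 + m - j - k3 + 3) (i + l + 1) (k + l + 1) (k3 + d1 + 1) (i + k + 2 * l + m - k3 - d1 + 3) (by omega) (fun t h1 h2 => (cE (cE (ab tt al 0 t ((i + l + i2 + 1) - t) (by omega)) (qf a2 al 0 ((i + l + i2 + 1) - t) ((i + k + l + i2 - j + 1) - t) (by omega))) (pb D2 al 0 ((i + k + l + i2 - j + 1) - t) ((2 * i + k + 2 * l + i2 + m - j - k3 + 3) - t) (by omega))))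 (fun t h1 h2 => (cE (pb x1 al 0 t (t + (-d1)) (by omega)) (pb D2 al 0 (t + (-d1)) (t + (i + l + m - k3 - d1 + 2)) (by omega))))))
    · by_cases z145 : (k + k3 + d1) ≤ (2 * i + l + m + 2)
      · have kk1798 : (k + d1) ≤ (i + l + m + 1) := by clear * - y16 y8 z141 z145; omega
        have kk1799 : (i + m + 2) ≤ (k) := by clear * - y15; omega
        have kk1800 : (k + k3 + d1) ≤ (2 * i + l + m + 2) := by clear * - z145; omega
        have kk1801 : (2 * i + l + m + 2) ≤ (k + k3 + d1) := by clear * - b0 y18; omega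
        have kk1802 : (0) ≤ (d1) := by clear * - b0 b4 y18 y20 z144; omega
        have kk1803 : (i) ≤ (k) := by clear * - b0 y16 y8 z141 z144 z145; omega
        clear * - al b x1 n3 kk1798 kk1799 kk1800 kk1801 kk1802 kk1803
        exact n3.f1 (cE (pb b al 0 (i + l + m + 2) (2 * i + l + m - k + 2) (by omega)) (pb x1 al 0 (2 * i + l + m - k + 2) (k3) (by omega)))
      · have kk1804 : (i + 1) ≤ (k) := by clear * - y16 y19 y8 z141 z144 z145; omega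
        have kk1805 : (0) ≤ (l) := by clear * - y18 y20; omega
        have kk1806 : (i + m + 1) ≤ (k3) := by clear * - y18; omega
        have kk1807 : (k3) ≤ (i + m + 1) := by clear * - y19; omega
        have kk1808 : (i2) ≤ (i) := by clear * - y17; omega
        have kk1809 : (i) ≤ (i2) := by clear * - y16; omega
        have kk1810 : (k3 + 1) ≤ (k) := by clear * - y15 y19; omega
        have kk1811 : (i + k + l + m + 3) ≤ (n + k3) := by clear * - b3 b4 y10 y16 y19 y8 z141 z144; omega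
        have kk1812 : (i2) ≤ (j) := by clear * - y1 y17; omega
        have kk1813 : (Q + j + m) ≤ (k + i2) := by clear * - b0 b6 z141 z144; omega
        have kk1814 : (0) ≤ (l + m + 2) := by clear * - y16 y20 y8 z141; omega
        have kk1815 : (i) ≤ (k3) := by clear * - y16 y8 z141; omega
        have kk1816 : (k + l + 1) ≤ (n) := by clear * - b3 b4 y10 y16 y19 y8 z141 z144; omega
        have kk1817 : (k3) ≤ (i + l + m + 2) := by clear * - y20; omega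
        have kk1818 : (0) ≤ (l + 1) := by clear * - y18 y20; omega
        have kk1819 : (i2) ≤ (j + l + 1) := by clear * - b1 b2 b4 b5 y1 y17 y21 z141 z144; omega
        have kk1820 : (i + j + m + 1) ≤ (k + i2) := by clear * - b0 b5 y16 z141 z144; omega
        have r1821 : (i + l + m - k3 + 2) % 2 = 0 := by clear * - ev n1p n2p n3p q1; omega
        have r1822 : (k - i) % 2 = 0 := by clear * - ev n1p n2p n3p q1; omega
        have r1823 : (i + k + l + i2 - 2 * n - j + 1) % 2 = 0 := by clear * - ev n1p n2p n3p q1; omega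
        clear * - al a2 b tt D2 n1 n2 kk1804 kk1805 kk1806 kk1807 kk1808 kk1809 kk1810 kk1811 kk1812 kk1813 kk1814 kk1815 kk1816 kk1817 kk1818 kk1819 kk1820 r1821 r1822 r1823
        exact ivt al.ninv (i - n + 1) (i + l - n + 1) (k - i) (k3 - n + 1) (k + k3 - n - i - m - 1) (i + l + m - k3 + 2) (k - n) (i + l - n + 1) (-1) (fun t h1 h2 => (cE (qf b al (-1) t (t + (n + k - i)) (by omega)) (sh al (-1) (t + (n + k - i)) (t + (k - i)) (by omega)))) (fun t h1 h2 => (cE (sh al 1 t (t + (n)) (by omega)) (cE (pb D2 al 0 (t + (n)) (t + (n + i + l + m - k3 + 2)) (by omega)) (sh al (-1) (t + (n + i + l + m - k3 + 2)) (t + (i + l + m - k3 + 2)) (by omega))))) (fun hh => n1.f0 (rEE (cE (qf (uP (j) (i + l + 1) (i + l - j + 1) (by omega) (lat n1.r1 n2.r1 (sh al 0 (i) (i2) (by omega)) (iNN (pb D2 al 0 (k) (k + l + 1) (by omega))))) al 0 (j) (i + l + 1) (by omega)) (sh al (-1) (i + l + 1) (i + l - n +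 1) (by omega))) (sh al (-1) (k) (k - n) (by omega)) (Eq.symm (Eq.symm hh)))) (by omega) (i + l - n + 2) (i + l + m - n + 2) (i + k + l + i2 - 2 * n - j + 1) 1 (-1) (fun t h1 h2 => (cE (cE (ab tt al (-1) t ((i + l + i2 - n + 1) - t) (by omega)) (qf a2 al 0 ((i + l + i2 - n + 1) - t) ((i + k + l + i2 - n - j + 1) - t) (by omega))) (sh al (-1) ((i + k + l + i2 - n - j + 1) - t) ((i + k + l + i2 - 2 * n - j + 1) - t) (by omega)))) (by omega)

theorem h9_14p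
    (h9_15 : ∀ {W : ℤ → G} {n Q i j k l i2 m k3 : ℤ} (al : AL W n Q) (hy : (0) ≤ (i) ∧ (i) ≤ (j) ∧ (j + 1) ≤ (Q) ∧ (Q) ≤ (k) ∧ (k + 1) ≤ (n) ∧ (Q) ≤ (i + l + 1) ∧ (k + l + 2) ≤ (n) ∧ (0) ≤ (i2) ∧ (i2 + 1) ≤ (Q) ∧ (Q + m + 1) ≤ (n + i2) ∧ (i2) ≤ (m) ∧ (Q) ≤ (i + l + m + 2) ∧ (i + l + m + 3) ≤ (n) ∧ (Q) ≤ (k3) ∧ (k3 + 1) ≤ (n) ∧ (i + m + 2) ≤ (k) ∧ (i) ≤ (i2) ∧ (i2) ≤ (i) ∧ (i + m + 1) ≤ (k3) ∧ (k3) ≤ (i + m + 1) ∧ (k3) ≤ (i + l + m + 1) ∧ (m + k3 + 2) ≤ (n + i2)) (a1 : Par W (0) (j) (k - j)) (a2 : Par W (Q + j - k) (j) (k - j)) (s1 : Ant W (0) (i) (i + j)) (s2 : Ant W (j + 1) (Q) (i + j)) (b : Par W (i + 1) (i + l + 1) (k - i)) (c1 : Par W (i2 + 1) (Q) (k + l - i2 + 1)) (c2 : Par W (k + l + 2) (n) (i2 - k - l - 1)) (tt : Ant W (i2 - m) (i2) (i + l + i2 + 1)) (D1 : Par W (Q) (k3) (n + i2 - m - k3 - 1)) (D2 : Par W (i + l + m + 3) (n) (k3 - i - l - m - 2)) {L : ℤ} (mx : ∀ a b g, 0 < g →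 g < n → Par W a b g → b - a ≤ L) (hL : L ≤ (n - j - 3) ∧ L ≤ (n + Q - k - 3) ∧ L ≤ (n - l - 3) ∧ L ≤ (n + i - k - 2)) (bd0 : Bd W n L (j) (i) (k)) (n1 : Nd W (j) (i) (k)) (n2 : Nd W (i + l + 1) (i2) (k + l + 1)) (n3 : Nd W (n + i2 - m - 1) (i + l + m + 2) (k3)) (d1 : ℤ) (q1 : d1 % 2 = 0) (x1 : Par W (i + 1) (k + l - d1 + 1) d1) (b0 : (i + l + 1) ≤ (k + d1)) (b1 : (d1) ≤ (l)) (b2 : (0) ≤ (d1)) (b3 : (k + 2 * l + 3) ≤ (n + i + d1)) (b4 : (2 * i + j + 1) ≤ (k)) (b5 : (n + i2) ≤ (i + k + 2 * l + 2)) (b6 : (2 * l + 3) ≤ (n)) (b7 : (k + 2 * m + 1) ≤ (n + j)), False)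
    {W : ℤ → G} {n Q i j k l i2 m k3 : ℤ} (al : AL W n Q)
    (hy : (0) ≤ (i) ∧ (i) ≤ (j) ∧ (j + 1) ≤ (Q) ∧ (Q) ≤ (k) ∧ (k + 1) ≤ (n) ∧ (Q) ≤ (i + l + 1) ∧ (k + l + 2) ≤ (n) ∧ (0) ≤ (i2) ∧ (i2 + 1) ≤ (Q) ∧ (Q + m + 1) ≤ (n + i2) ∧ (i2) ≤ (m) ∧ (Q) ≤ (i + l + m + 2) ∧ (i + l + m + 3) ≤ (n) ∧ (Q) ≤ (k3) ∧ (k3 + 1) ≤ (n) ∧ (i + m + 2) ≤ (k) ∧ (i) ≤ (i2) ∧ (i2) ≤ (i) ∧ (i + m + 1) ≤ (k3) ∧ (k3) ≤ (i + m + 1) ∧ (k3) ≤ (i + l + m + 1) ∧ (m + k3 + 2) ≤ (n + i2))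
    (a1 : Par W (0) (j) (k - j))
    (a2 : Par W (Q + j - k) (j) (k - j))
    (s1 : Ant W (0) (i) (i + j))
    (s2 : Ant W (j + 1) (Q) (i + j))
    (b : Par W (i + 1) (i + l + 1) (k - i))
    (c1 : Par W (i2 + 1) (Q) (k + l - i2 + 1))
    (c2 : Par W (k + l + 2) (n) (i2 - k - l - 1))
    (tt : Ant W (i2 - m) (i2) (i + l + i2 + 1))
    (D1 : Par W (Q) (k3) (n + i2 - m - k3 - 1))
    (D2 : Par W (i + l + m + 3) (n) (k3 - i - l - m - 2))
    {L : ℤ} (mx : ∀ a b g, 0 < g → g < n → Par W a b g → b - a ≤ L)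
    (hL : L ≤ (n - j - 3) ∧ L ≤ (n + Q - k - 3) ∧ L ≤ (n - l - 3) ∧ L ≤ (n + i - k - 2))
    (bd0 : Bd W n L (j) (i) (k))
    (n1 : Nd W (j) (i) (k))
    (n2 : Nd W (i + l + 1) (i2) (k + l + 1))
    (n3 : Nd W (n + i2 - m - 1) (i + l + m + 2) (k3))
    (d1 : ℤ) (q1 : d1 % 2 = 0) (x1 : Par W (i + 1) (k + l - d1 + 1) d1)
    (b0 : (i + l + 1) ≤ (k + d1))
    (b1 : (d1) ≤ (l))
    (b2 : (0) ≤ (d1))
    (b3 : (k + 2 * l + 3) ≤ (n + i + d1))
    (b4 : (2 * i + j + 1) ≤ (k))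
    (b5 : (n + i2) ≤ (i + k + 2 * l + 2))
    (b6 : (2 * l + 3) ≤ (n)) : False := by
  have ev := al.ev
  obtain ⟨y0, y1, y2, y3, y4, y5, y6, y7, y8, y9, y10, y11, y12, y13, y14, y15, y16, y17, y18, y19, y20, y21⟩ := id hy
  have n1p := And.intro n1.p1 n1.p2
  have n2p := And.intro n2.p1 n2.p2
  have n3p := And.intro n3.p1 n3.p2
  by_cases z24 : (n + j) ≤ (k + 2 * m)
  · have kk272 : (k + 1) ≤ (n + j) := by clear * - b1 b2 b3 y1; omega
    have kk273 : (n + j) ≤ (k + 2 * m) := by clear * - z24; omega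
    have kk274 : (2 * Q + j) ≤ (n + k + 2 * i2) := by clear * - y13 y21 z24; omega
    have kk275 : (2 * i + 2 * l + 4) ≤ (n + j + k) := by clear * - b0 b1 b6 y1; omega
    have kk276 : (i2) ≤ (j) := by clear * - y1 y17; omega
    have kk277 : (Q) ≤ (i + l + 2) := by clear * - y5; omega
    have r278 : (3 * n + i + l + i2 + 1) % 2 = 0 := by clear * - ev n1p n2p n3p q1; omega
    have r279 : (n + j - k) % 2 = 0 := by clear * - ev n1p n2p n3p q1; omega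
    clear * - al a2 tt kk272 kk273 kk274 kk275 kk276 kk277 r278 r279
    exact midP al (n + j - k) (3 * n + i + l + i2 + 1) (n + i + l + 2) (n + Q) (2 * n + j) (by omega) (fun t h1 h2 => (cE (ab tt al 1 t ((n + i + l + i2 + 1) - t) (by omega)) (sh al 2 ((n + i + l + i2 + 1) - t) ((3 * n + i + l + i2 + 1) - t) (by omega)))) (fun t h1 h2 => (cE (pb a2 al 1 t (t + (j - n - k)) (by omega)) (sh al 2 (t + (j - n - k)) (t + (n + j - k)) (by omega))))
  · exact h9_15 al hy a1 a2 s1 s2 b c1 c2 tt D1 D2 mx hL bd0 n1 n2 n3 d1 q1 x1 (by clear * - b0; omega) (by clear * - b1; omega) (by clear * - b2; omega) (by clear * - b3; omega) (by clear * - b4; omega) (by clear * - b5; omega) (by clear * - b6; omega) (by clear * - z24; omega)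

theorem h9_12p
    (h9_13 : ∀ {W : ℤ → G} {n Q i j k l i2 m k3 : ℤ} (al : AL W n Q) (hy : (0) ≤ (i) ∧ (i) ≤ (j) ∧ (j + 1) ≤ (Q) ∧ (Q) ≤ (k) ∧ (k + 1) ≤ (n) ∧ (Q) ≤ (i + l + 1) ∧ (k + l + 2) ≤ (n) ∧ (0) ≤ (i2) ∧ (i2 + 1) ≤ (Q) ∧ (Q + m + 1) ≤ (n + i2) ∧ (i2) ≤ (m) ∧ (Q) ≤ (i + l + m + 2) ∧ (i + l + m + 3) ≤ (n) ∧ (Q) ≤ (k3) ∧ (k3 + 1) ≤ (n) ∧ (i + m + 2) ≤ (k) ∧ (i) ≤ (i2) ∧ (i2) ≤ (i) ∧ (i + m + 1) ≤ (k3) ∧ (k3) ≤ (i + m + 1) ∧ (k3) ≤ (i + l + m + 1) ∧ (m + k3 + 2) ≤ (n + i2)) (a1 : Par W (0) (j) (k - j)) (a2 : Par W (Q + j - k) (j) (k - j)) (s1 : Ant W (0) (i) (i + j)) (s2 : Ant W (j + 1) (Q) (i + j)) (b : Par W (i + 1) (i + l + 1) (k - i)) (c1 : Par W (i2 + 1) (Q) (k + l - i2 + 1)) (c2 : Par W (k + l + 2) (n) (i2 - k - l - 1)) (tt : Ant W (i2 - m) (i2) (i + l + i2 + 1)) (D1 : Par W (Q) (k3) (n + i2 - m - k3 - 1)) (D2 : Par W (i + l + m + 3) (n) (k3 - i - l - m - 2)) {L : ℤ} (mx : ∀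 a b g, 0 < g → g < n → Par W a b g → b - a ≤ L) (hL : L ≤ (n - j - 3) ∧ L ≤ (n + Q - k - 3) ∧ L ≤ (n - l - 3) ∧ L ≤ (n + i - k - 2)) (bd0 : Bd W n L (j) (i) (k)) (n1 : Nd W (j) (i) (k)) (n2 : Nd W (i + l + 1) (i2) (k + l + 1)) (n3 : Nd W (n + i2 - m - 1) (i + l + m + 2) (k3)) (d1 : ℤ) (q1 : d1 % 2 = 0) (x1 : Par W (i + 1) (k + l - d1 + 1) d1) (b0 : (i + l + 1) ≤ (k + d1)) (b1 : (d1) ≤ (l)) (b2 : (0) ≤ (d1)) (b3 : (k + 2 * l + 3) ≤ (n + i + d1)) (b4 : (2 * i + j + 1) ≤ (k)) (b5 : (n + i2) ≤ (i + k + 2 * l + 2)), False)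
    {W : ℤ → G} {n Q i j k l i2 m k3 : ℤ} (al : AL W n Q)
    (hy : (0) ≤ (i) ∧ (i) ≤ (j) ∧ (j + 1) ≤ (Q) ∧ (Q) ≤ (k) ∧ (k + 1) ≤ (n) ∧ (Q) ≤ (i + l + 1) ∧ (k + l + 2) ≤ (n) ∧ (0) ≤ (i2) ∧ (i2 + 1) ≤ (Q) ∧ (Q + m + 1) ≤ (n + i2) ∧ (i2) ≤ (m) ∧ (Q) ≤ (i + l + m + 2) ∧ (i + l + m + 3) ≤ (n) ∧ (Q) ≤ (k3) ∧ (k3 + 1) ≤ (n) ∧ (i + m + 2) ≤ (k) ∧ (i) ≤ (i2) ∧ (i2) ≤ (i) ∧ (i + m + 1) ≤ (k3) ∧ (k3) ≤ (i + m + 1) ∧ (k3) ≤ (i + l + m + 1) ∧ (m + k3 + 2) ≤ (n + i2))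
    (a1 : Par W (0) (j) (k - j))
    (a2 : Par W (Q + j - k) (j) (k - j))
    (s1 : Ant W (0) (i) (i + j))
    (s2 : Ant W (j + 1) (Q) (i + j))
    (b : Par W (i + 1) (i + l + 1) (k - i))
    (c1 : Par W (i2 + 1) (Q) (k + l - i2 + 1))
    (c2 : Par W (k + l + 2) (n) (i2 - k - l - 1))
    (tt : Ant W (i2 - m) (i2) (i + l + i2 + 1))
    (D1 : Par W (Q) (k3) (n + i2 - m - k3 - 1))
    (D2 : Par W (i + l + m + 3) (n) (k3 - i - l - m - 2))
    {L : ℤ} (mx : ∀ a b g, 0 < g → g < n → Par W a b g → b - a ≤ L)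
    (hL : L ≤ (n - j - 3) ∧ L ≤ (n + Q - k - 3) ∧ L ≤ (n - l - 3) ∧ L ≤ (n + i - k - 2))
    (bd0 : Bd W n L (j) (i) (k))
    (n1 : Nd W (j) (i) (k))
    (n2 : Nd W (i + l + 1) (i2) (k + l + 1))
    (n3 : Nd W (n + i2 - m - 1) (i + l + m + 2) (k3))
    (d1 : ℤ) (q1 : d1 % 2 = 0) (x1 : Par W (i + 1) (k + l - d1 + 1) d1)
    (b0 : (i + l + 1) ≤ (k + d1))
    (b1 : (d1) ≤ (l))
    (b2 : (0) ≤ (d1))
    (b3 : (k + 2 * l + 3) ≤ (n + i + d1))
    (b4 : (2 * i + j + 1) ≤ (k)) : False := by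
  have ev := al.ev
  obtain ⟨y0, y1, y2, y3, y4, y5, y6, y7, y8, y9, y10, y11, y12, y13, y14, y15, y16, y17, y18, y19, y20, y21⟩ := id hy
  have n1p := And.intro n1.p1 n1.p2
  have n2p := And.intro n2.p1 n2.p2
  have n3p := And.intro n3.p1 n3.p2
  by_cases z22 : (i + k + 2 * l + 3) ≤ (n + i2)
  · have kk264 : (i2) ≤ (i + l) := by clear * - b1 b2 y17; omega
    have kk265 : (i + k + 2 * l + 3) ≤ (n + i2) := by clear * - z22; omega
    have kk266 : (i2 + m + 1) ≤ (k3) := by clear * - y17 y18; omega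
    have kk267 : (k3) ≤ (i2 + m + 1) := by clear * - y16 y19; omega
    have kk268 : (i + m + 1) ≤ (k) := by clear * - y15; omega
    clear * - al c2 D2 n2 kk264 kk265 kk266 kk267 kk268
    exact n2.f0 (cE (pb c2 al 0 (i + l + 1) (i + k + 2 * l - i2 + 2) (by omega)) (qf D2 al 0 (i + k + 2 * l - i2 + 2) (k + l + 1) (by omega)))
  · exact h9_13 al hy a1 a2 s1 s2 b c1 c2 tt D1 D2 mx hL bd0 n1 n2 n3 d1 q1 x1 (by clear * - b0; omega) (by clear * - b1; omega) (by clear * - b2; omega) (by clear * - b3; omega) (by clear * - b4; omega) (by clear * - z22; omega)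

theorem h9_11p
    (h9_12 : ∀ {W : ℤ → G} {n Q i j k l i2 m k3 : ℤ} (al : AL W n Q) (hy : (0) ≤ (i) ∧ (i) ≤ (j) ∧ (j + 1) ≤ (Q) ∧ (Q) ≤ (k) ∧ (k + 1) ≤ (n) ∧ (Q) ≤ (i + l + 1) ∧ (k + l + 2) ≤ (n) ∧ (0) ≤ (i2) ∧ (i2 + 1) ≤ (Q) ∧ (Q + m + 1) ≤ (n + i2) ∧ (i2) ≤ (m) ∧ (Q) ≤ (i + l + m + 2) ∧ (i + l + m + 3) ≤ (n) ∧ (Q) ≤ (k3) ∧ (k3 + 1) ≤ (n) ∧ (i + m + 2) ≤ (k) ∧ (i) ≤ (i2) ∧ (i2) ≤ (i) ∧ (i + m + 1) ≤ (k3) ∧ (k3) ≤ (i + m + 1) ∧ (k3) ≤ (i + l + m + 1) ∧ (m + k3 + 2) ≤ (n + i2)) (a1 : Par W (0) (j) (k - j)) (a2 : Par W (Q + j - k) (j) (k - j)) (s1 : Ant W (0) (i) (i + j)) (s2 : Ant W (j + 1) (Q) (i + j)) (b : Par W (i + 1) (i + l + 1) (k - i)) (c1 : Par W (i2 + 1) (Q) (k + l - i2 + 1)) (c2 : Par W (k + l + 2) (n) (i2 - k - l - 1)) (tt : Ant W (i2 - m) (i2) (i + l + i2 + 1)) (D1 : Par W (Q) (k3) (n + i2 - m - k3 - 1)) (D2 : Par W (i + l + m + 3) (n) (k3 - i - l - m - 2)) {L : ℤ} (mx : ∀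 a b g, 0 < g → g < n → Par W a b g → b - a ≤ L) (hL : L ≤ (n - j - 3) ∧ L ≤ (n + Q - k - 3) ∧ L ≤ (n - l - 3) ∧ L ≤ (n + i - k - 2)) (bd0 : Bd W n L (j) (i) (k)) (n1 : Nd W (j) (i) (k)) (n2 : Nd W (i + l + 1) (i2) (k + l + 1)) (n3 : Nd W (n + i2 - m - 1) (i + l + m + 2) (k3)) (d1 : ℤ) (q1 : d1 % 2 = 0) (x1 : Par W (i + 1) (k + l - d1 + 1) d1) (b0 : (i + l + 1) ≤ (k + d1)) (b1 : (d1) ≤ (l)) (b2 : (0) ≤ (d1)) (b3 : (k + 2 * l + 3) ≤ (n + i + d1)) (b4 : (2 * i + j + 1) ≤ (k)), False)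
    {W : ℤ → G} {n Q i j k l i2 m k3 : ℤ} (al : AL W n Q)
    (hy : (0) ≤ (i) ∧ (i) ≤ (j) ∧ (j + 1) ≤ (Q) ∧ (Q) ≤ (k) ∧ (k + 1) ≤ (n) ∧ (Q) ≤ (i + l + 1) ∧ (k + l + 2) ≤ (n) ∧ (0) ≤ (i2) ∧ (i2 + 1) ≤ (Q) ∧ (Q + m + 1) ≤ (n + i2) ∧ (i2) ≤ (m) ∧ (Q) ≤ (i + l + m + 2) ∧ (i + l + m + 3) ≤ (n) ∧ (Q) ≤ (k3) ∧ (k3 + 1) ≤ (n) ∧ (i + m + 2) ≤ (k) ∧ (i) ≤ (i2) ∧ (i2) ≤ (i) ∧ (i + m + 1) ≤ (k3) ∧ (k3) ≤ (i + m + 1) ∧ (k3) ≤ (i + l + m + 1) ∧ (m + k3 + 2) ≤ (n + i2))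
    (a1 : Par W (0) (j) (k - j))
    (a2 : Par W (Q + j - k) (j) (k - j))
    (s1 : Ant W (0) (i) (i + j))
    (s2 : Ant W (j + 1) (Q) (i + j))
    (b : Par W (i + 1) (i + l + 1) (k - i))
    (c1 : Par W (i2 + 1) (Q) (k + l - i2 + 1))
    (c2 : Par W (k + l + 2) (n) (i2 - k - l - 1))
    (tt : Ant W (i2 - m) (i2) (i + l + i2 + 1))
    (D1 : Par W (Q) (k3) (n + i2 - m - k3 - 1))
    (D2 : Par W (i + l + m + 3) (n) (k3 - i - l - m - 2))
    {L : ℤ} (mx : ∀ a b g, 0 < g → g < n → Par W a b g → b - a ≤ L)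
    (hL : L ≤ (n - j - 3) ∧ L ≤ (n + Q - k - 3) ∧ L ≤ (n - l - 3) ∧ L ≤ (n + i - k - 2))
    (bd0 : Bd W n L (j) (i) (k))
    (n1 : Nd W (j) (i) (k))
    (n2 : Nd W (i + l + 1) (i2) (k + l + 1))
    (n3 : Nd W (n + i2 - m - 1) (i + l + m + 2) (k3))
    (d1 : ℤ) (q1 : d1 % 2 = 0) (x1 : Par W (i + 1) (k + l - d1 + 1) d1)
    (b0 : (i + l + 1) ≤ (k + d1))
    (b1 : (d1) ≤ (l))
    (b2 : (0) ≤ (d1))
    (b3 : (k + 2 * l + 3) ≤ (n + i + d1)) : False := by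
  have ev := al.ev
  obtain ⟨y0, y1, y2, y3, y4, y5, y6, y7, y8, y9, y10, y11, y12, y13, y14, y15, y16, y17, y18, y19, y20, y21⟩ := id hy
  have n1p := And.intro n1.p1 n1.p2
  have n2p := And.intro n2.p1 n2.p2
  have n3p := And.intro n3.p1 n3.p2
  by_cases z21 : (k) ≤ (2 * i + j)
  · have kk257 : (j + 1) ≤ (k) := by clear * - y13 y15 y19 y2; omega
    have kk258 : (k) ≤ (2 * i + j) := by clear * - z21; omega
    have kk259 : (j + 2) ≤ (k) := by clear * - y13 y15 y19 y2; omega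
    have kk260 : (0) ≤ (j + 1) := by clear * - y10 y15 y16 z21; omega
    have kk261 : (i) ≤ (k) := by clear * - b0 b1; omega
    have r262 : (2 * n + i + j) % 2 = 0 := by clear * - ev n1p n2p n3p q1; omega
    have r263 : (k - j) % 2 = 0 := by clear * - ev n1p n2p n3p q1; omega
    clear * - al a1 s1 kk257 kk258 kk259 kk260 kk261 r262 r263
    exact midP al (k - j) (2 * n + i + j) (n + j + 1) (n) (n + k) (by omega) (fun t h1 h2 => (cE (ab s1 al 1 t ((n + i + j) - t) (by omega)) (sh al 1 ((n + i + j) - t) ((2 * n + i + j) - t) (by omega)))) (fun t h1 h2 => (cE (qf a1 al 1 t (t + (k - n - j)) (by omega)) (sh al 1 (t + (k - n - j)) (t + (k - j)) (by omega))))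
  · exact h9_12 al hy a1 a2 s1 s2 b c1 c2 tt D1 D2 mx hL bd0 n1 n2 n3 d1 q1 x1 (by clear * - b0; omega) (by clear * - b1; omega) (by clear * - b2; omega) (by clear * - b3; omega) (by clear * - z21; omega)

end Pool.Agent.MP_a38735_al.WL
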