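import Pool.Agent.MP_a38735_al.WT

set_option autoImplicit false
set_option linter.unusedVariables false

namespace Pool.Agent.MP_a38735_al.WL

variable {G : Type*} [Group G]

theorem ev7_7p
    (ev7_8 : ∀ {W : ℤ → G} {n Q i j k l i2 m k3 : ℤ} (al : AL W n Q) (hy : (0) ≤ (i) ∧ (i) ≤ (j) ∧ (j + 1) ≤ (Q) ∧ (Q) ≤ (k) ∧ (k + 1) ≤ (n) ∧ (Q) ≤ (i + l + 1) ∧ (k + l + 2) ≤ (n) ∧ (0) ≤ (i2) ∧ (i2 + 1) ≤ (Q) ∧ (Q + m + 1) ≤ (n + i2) ∧ (i2) ≤ (m) ∧ (Q) ≤ (i + l + m + 2) ∧ (i + l + m + 3) ≤ (n) ∧ (Q) ≤ (k3) ∧ (k3 + 1) ≤ (n) ∧ (i + m + 2) ≤ (k) ∧ (i) ≤ (i2) ∧ (i2) ≤ (i) ∧ (k3) ≤ (i + m)) (a1 : Par W (0) (j) (k - j)) (a2 : Par W (Q + j - k) (j) (k - j)) (s1 : Ant W (0) (i) (i + j)) (s2 : Ant W (j + 1) (Q) (i + j)) (b : Par W (i + 1) (i + l + 1) (k - i)) (c1 : Par W (i2 + 1) (Q) (k + l - i2 + 1)) (c2 : Par W (k + l + 2) (n) (i2 - k - l - 1)) (tt : Ant W (i2 - m) (i2) (i + l + i2 + 1)) (D1 :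 Par W (Q) (k3) (n + i2 - m - k3 - 1)) (D2 : Par W (i + l + m + 3) (n) (k3 - i - l - m - 2)) {L : ℤ} (mx : ∀ a b g, 0 < g → g < n → Par W a b g → b - a ≤ L) (hL : L ≤ (n - j - 3) ∧ L ≤ (n + Q - k - 3) ∧ L ≤ (n - l - 3) ∧ L ≤ (n + i - k - 2)) (bd0 : Bd W n L (j) (i) (k)) (n1 : Nd W (j) (i) (k)) (n2 : Nd W (i + l + 1) (i2) (k + l + 1)) (n3 : Nd W (n + i2 - m - 1) (i + l + m + 2) (k3)) (b0 : (i + l + 2 * m + 2) ≤ (n + i2)) (b1 : (2 * i + j + 1) ≤ (k)) (b2 : (n + i2) ≤ (i + k + 2 * l + m + 2)) (b3 : (k + i2) ≤ (i + j + l + 1)) (b4 : (2 * i + 2 * l + i2 + m + 5) ≤ (n + k3)), False)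
    (ev7_9 : ∀ {W : ℤ → G} {n Q i j k l i2 m k3 : ℤ} (al : AL W n Q) (hy : (0) ≤ (i) ∧ (i) ≤ (j) ∧ (j + 1) ≤ (Q) ∧ (Q) ≤ (k) ∧ (k + 1) ≤ (n) ∧ (Q) ≤ (i + l + 1) ∧ (k + l + 2) ≤ (n) ∧ (0) ≤ (i2) ∧ (i2 + 1) ≤ (Q) ∧ (Q + m + 1) ≤ (n + i2) ∧ (i2) ≤ (m) ∧ (Q) ≤ (i + l + m + 2) ∧ (i + l + m + 3) ≤ (n) ∧ (Q) ≤ (k3) ∧ (k3 + 1) ≤ (n) ∧ (i + m + 2) ≤ (k) ∧ (i) ≤ (i2) ∧ (i2) ≤ (i) ∧ (k3) ≤ (i + m)) (a1 : Par W (0) (j) (k - j)) (a2 : Par W (Q + j - k) (j) (k - j)) (s1 : Ant W (0) (i) (i + j)) (s2 : Ant W (j + 1) (Q) (i + j)) (b : Par W (i + 1) (i + l + 1) (k - i)) (c1 : Par W (i2 + 1) (Q) (k + l - i2 + 1)) (c2 : Par W (k + l + 2) (n) (i2 - k - l - 1)) (tt : Ant W (i2 - m) (i2) (i + l + i2 + 1)) (D1 : Par W (Q) (k3) (n + i2 - m - k3 - 1)) (D2 : Par W (i + l + m + 3) (n) (k3 - i - l - m - 2)) {L : ℤ} (mx : ∀ a b g, 0 < g → g < n → Par W a b g → b - a ≤ L) (hL : L ≤ (n - j - 3) ∧ L ≤ (n +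 Q - k - 3) ∧ L ≤ (n - l - 3) ∧ L ≤ (n + i - k - 2)) (bd0 : Bd W n L (j) (i) (k)) (n1 : Nd W (j) (i) (k)) (n2 : Nd W (i + l + 1) (i2) (k + l + 1)) (n3 : Nd W (n + i2 - m - 1) (i + l + m + 2) (k3)) (b0 : (i + l + 2 * m + 2) ≤ (n + i2)) (b1 : (2 * i + j + 1) ≤ (k)) (b2 : (i + k + l + m + 3) ≤ (n + j + k3)) (b3 : (2 * l + 3) ≤ (n)) (b4 : (k + i2) ≤ (i + j + l + 1)) (b5 : (n + k3) ≤ (2 * i + 2 * l + i2 + m + 4)), False)
    {W : ℤ → G} {n Q i j k l i2 m k3 : ℤ} (al : AL W n Q)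
    (hy : (0) ≤ (i) ∧ (i) ≤ (j) ∧ (j + 1) ≤ (Q) ∧ (Q) ≤ (k) ∧ (k + 1) ≤ (n) ∧ (Q) ≤ (i + l + 1) ∧ (k + l + 2) ≤ (n) ∧ (0) ≤ (i2) ∧ (i2 + 1) ≤ (Q) ∧ (Q + m + 1) ≤ (n + i2) ∧ (i2) ≤ (m) ∧ (Q) ≤ (i + l + m + 2) ∧ (i + l + m + 3) ≤ (n) ∧ (Q) ≤ (k3) ∧ (k3 + 1) ≤ (n) ∧ (i + m + 2) ≤ (k) ∧ (i) ≤ (i2) ∧ (i2) ≤ (i) ∧ (k3) ≤ (i + m))
    (a1 : Par W (0) (j) (k - j))
    (a2 : Par W (Q + j - k) (j) (k - j))
    (s1 : Ant W (0) (i) (i + j))
    (s2 : Ant W (j + 1) (Q) (i + j))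
    (b : Par W (i + 1) (i + l + 1) (k - i))
    (c1 : Par W (i2 + 1) (Q) (k + l - i2 + 1))
    (c2 : Par W (k + l + 2) (n) (i2 - k - l - 1))
    (tt : Ant W (i2 - m) (i2) (i + l + i2 + 1))
    (D1 : Par W (Q) (k3) (n + i2 - m - k3 - 1))
    (D2 : Par W (i + l + m + 3) (n) (k3 - i - l - m - 2))
    {L : ℤ} (mx : ∀ a b g, 0 < g → g < n → Par W a b g → b - a ≤ L)
    (hL : L ≤ (n - j - 3) ∧ L ≤ (n + Q - k - 3) ∧ L ≤ (n - l - 3) ∧ L ≤ (n + i - k - 2))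
    (bd0 : Bd W n L (j) (i) (k))
    (n1 : Nd W (j) (i) (k))
    (n2 : Nd W (i + l + 1) (i2) (k + l + 1))
    (n3 : Nd W (n + i2 - m - 1) (i + l + m + 2) (k3))
    (b0 : (i + l + 2 * m + 2) ≤ (n + i2))
    (b1 : (2 * i + j + 1) ≤ (k))
    (b2 : (i + k + l + m + 3) ≤ (n + j + k3))
    (b3 : (n + i2) ≤ (i + k + 2 * l + m + 2))
    (b4 : (2 * l + 3) ≤ (n))
    (b5 : (k + i2) ≤ (i + j + l + 1)) : False := by
  have ev := al.ev
  obtain ⟨y0, y1, y2, y3, y4, y5, y6, y7, y8, y9, y10, y11, y12, y13, y14, y15, y16, y17, y18⟩ := id hy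
  have n1p := And.intro n1.p1 n1.p2
  have n2p := And.intro n2.p1 n2.p2
  have n3p := And.intro n3.p1 n3.p2
  by_cases z9 : (2 * i + 2 * l + i2 + m + 5) ≤ (n + k3)
  · exact ev7_8 al hy a1 a2 s1 s2 b c1 c2 tt D1 D2 mx hL bd0 n1 n2 n3 (by clear * - b0; omega) (by clear * - b1; omega) (by clear * - b3; omega) (by clear * - b5; omega) (by clear * - z9; omega)
  · exact ev7_9 al hy a1 a2 s1 s2 b c1 c2 tt D1 D2 mx hL bd0 n1 n2 n3 (by clear * - b0; omega) (by clear * - b1; omega) (by clear * - b2; omega) (by clear * - b4; omega) (by clear * - b5; omega) (by clear * - z9; omega)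

theorem h8_5p
    (h8_6 : ∀ {W : ℤ → G} {n Q i j k l i2 m k3 : ℤ} (al : AL W n Q) (hy : (0) ≤ (i) ∧ (i) ≤ (j) ∧ (j + 1) ≤ (Q) ∧ (Q) ≤ (k) ∧ (k + 1) ≤ (n) ∧ (Q) ≤ (i + l + 1) ∧ (k + l + 2) ≤ (n) ∧ (0) ≤ (i2) ∧ (i2 + 1) ≤ (Q) ∧ (Q + m + 1) ≤ (n + i2) ∧ (i2) ≤ (m) ∧ (Q) ≤ (i + l + m + 2) ∧ (i + l + m + 3) ≤ (n) ∧ (Q) ≤ (k3) ∧ (k3 + 1) ≤ (n) ∧ (i + m + 2) ≤ (k) ∧ (i) ≤ (i2) ∧ (i2) ≤ (i) ∧ (i + m + 2) ≤ (k3) ∧ (k3) ≤ (i + l + m + 1) ∧ (m + k3 + 2) ≤ (n + i2)) (a1 : Par W (0) (j) (k - j)) (a2 : Par W (Q + j - k) (j) (k - j)) (s1 : Ant W (0) (i) (i + j)) (s2 : Ant W (j + 1) (Q) (i + j)) (b : Par W (i + 1) (i + l + 1) (k - i)) (c1 : Par W (i2 + 1) (Q) (k + l - i2 + 1)) (c2 : Par W (k + l + 2) (n) (i2 - k - l - 1)) (tt : Ant W (i2 - m) (i2) (i + l + i2 + 1)) (D1 : Par W (Q) (k3) (n + i2 - m - k3 - 1)) (D2 : Par W (i + l + m + 3) (n) (k3 - i - l - m - 2)) {L : ℤ} (mx : ∀ a b g, 0 < g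 → g < n → Par W a b g → b - a ≤ L) (hL : L ≤ (n - j - 3) ∧ L ≤ (n + Q - k - 3) ∧ L ≤ (n - l - 3) ∧ L ≤ (n + i - k - 2)) (bd0 : Bd W n L (j) (i) (k)) (n1 : Nd W (j) (i) (k)) (n2 : Nd W (i + l + 1) (i2) (k + l + 1)) (n3 : Nd W (n + i2 - m - 1) (i + l + m + 2) (k3)) (b0 : (n + k3) ≤ (2 * i + 2 * l + i2 + m + 4)) (b1 : (i + l + 1) ≤ (i2 + 2 * m)) (b2 : (2 * i + j + 1) ≤ (k)) (b3 : (i + l + 2 * m + 3) ≤ (n + i2)), False)
    {W : ℤ → G} {n Q i j k l i2 m k3 : ℤ} (al : AL W n Q)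
    (hy : (0) ≤ (i) ∧ (i) ≤ (j) ∧ (j + 1) ≤ (Q) ∧ (Q) ≤ (k) ∧ (k + 1) ≤ (n) ∧ (Q) ≤ (i + l + 1) ∧ (k + l + 2) ≤ (n) ∧ (0) ≤ (i2) ∧ (i2 + 1) ≤ (Q) ∧ (Q + m + 1) ≤ (n + i2) ∧ (i2) ≤ (m) ∧ (Q) ≤ (i + l + m + 2) ∧ (i + l + m + 3) ≤ (n) ∧ (Q) ≤ (k3) ∧ (k3 + 1) ≤ (n) ∧ (i + m + 2) ≤ (k) ∧ (i) ≤ (i2) ∧ (i2) ≤ (i) ∧ (i + m + 2) ≤ (k3) ∧ (k3) ≤ (i + l + m + 1) ∧ (m + k3 + 2) ≤ (n + i2))
    (a1 : Par W (0) (j) (k - j))
    (a2 : Par W (Q + j - k) (j) (k - j))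
    (s1 : Ant W (0) (i) (i + j))
    (s2 : Ant W (j + 1) (Q) (i + j))
    (b : Par W (i + 1) (i + l + 1) (k - i))
    (c1 : Par W (i2 + 1) (Q) (k + l - i2 + 1))
    (c2 : Par W (k + l + 2) (n) (i2 - k - l - 1))
    (tt : Ant W (i2 - m) (i2) (i + l + i2 + 1))
    (D1 : Par W (Q) (k3) (n + i2 - m - k3 - 1))
    (D2 : Par W (i + l + m + 3) (n) (k3 - i - l - m - 2))
    {L : ℤ} (mx : ∀ a b g, 0 < g → g < n → Par W a b g → b - a ≤ L)
    (hL : L ≤ (n - j - 3) ∧ L ≤ (n + Q - k - 3) ∧ L ≤ (n - l - 3) ∧ L ≤ (n + i - k - 2))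
    (bd0 : Bd W n L (j) (i) (k))
    (n1 : Nd W (j) (i) (k))
    (n2 : Nd W (i + l + 1) (i2) (k + l + 1))
    (n3 : Nd W (n + i2 - m - 1) (i + l + m + 2) (k3))
    (b0 : (2 * l + 3) ≤ (n))
    (b1 : (n + k3) ≤ (2 * i + 2 * l + i2 + m + 4))
    (b2 : (i + l + 1) ≤ (i2 + 2 * m))
    (b3 : (2 * i + j + 1) ≤ (k)) : False := by
  have ev := al.ev
  obtain ⟨y0, y1, y2, y3, y4, y5, y6, y7, y8, y9, y10, y11, y12, y13, y14, y15, y16, y17, y18, y19, y20⟩ := id hy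
  have n1p := And.intro n1.p1 n1.p2
  have n2p := And.intro n2.p1 n2.p2
  have n3p := And.intro n3.p1 n3.p2
  by_cases z6 : (n + i2) ≤ (i + l + 2 * m + 2)
  · have kk28 : (n + i2) ≤ (i + l + 2 * m + 1) := by clear * - z6 ev n1p n2p n3p; omega
    have kk29 : (i + l + 2) ≤ (n + i2) := by clear * - b0 b2 y18 y20 z6; omega
    have r30 : (i + l + i2 - 3 * n + 1) % 2 = 0 := by clear * - ev n1p n2p n3p; omega
    clear * - al tt kk28 kk29 r30
    obtain ⟨t, ht⟩ : ∃ t, 2 * t = (i + l + i2 - 3 * n + 1) := ⟨(i + l + i2 - 3 * n + 1) / 2, by omega⟩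
    exact al.ninv t (cE (qa tt al (-1) t ((i + l + i2 - n + 1) - t) (by omega)) (sh al (-2) ((i + l + i2 - n + 1) - t) t (by omega)))
  · exact h8_6 al hy a1 a2 s1 s2 b c1 c2 tt D1 D2 mx hL bd0 n1 n2 n3 (by clear * - b1; omega) (by clear * - b2; omega) (by clear * - b3; omega) (by clear * - z6; omega)

theorem h8_14p
    {W : ℤ → G} {n Q i j k l i2 m k3 : ℤ} (al : AL W n Q)
    (hy : (0) ≤ (i) ∧ (i) ≤ (j) ∧ (j + 1) ≤ (Q) ∧ (Q) ≤ (k) ∧ (k + 1) ≤ (n) ∧ (Q) ≤ (i + l + 1) ∧ (k + l + 2) ≤ (n) ∧ (0) ≤ (i2) ∧ (i2 + 1) ≤ (Q) ∧ (Q + m + 1) ≤ (n + i2) ∧ (i2) ≤ (m) ∧ (Q) ≤ (i + l + m + 2) ∧ (i + l + m + 3) ≤ (n) ∧ (Q) ≤ (k3) ∧ (k3 + 1) ≤ (n) ∧ (i + m + 2) ≤ (k) ∧ (i) ≤ (i2) ∧ (i2) ≤ (i) ∧ (i + m + 2) ≤ (k3) ∧ (k3) ≤ (i + l + m + 1) ∧ (m + k3 + 2) ≤ (n + i2))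
    (a1 : Par W (0) (j) (k - j))
    (a2 : Par W (Q + j - k) (j) (k - j))
    (s1 : Ant W (0) (i) (i + j))
    (s2 : Ant W (j + 1) (Q) (i + j))
    (b : Par W (i + 1) (i + l + 1) (k - i))
    (c1 : Par W (i2 + 1) (Q) (k + l - i2 + 1))
    (c2 : Par W (k + l + 2) (n) (i2 - k - l - 1))
    (tt : Ant W (i2 - m) (i2) (i + l + i2 + 1))
    (D1 : Par W (Q) (k3) (n + i2 - m - k3 - 1))
    (D2 : Par W (i + l + m + 3) (n) (k3 - i - l - m - 2))
    {L : ℤ} (mx : ∀ a b g, 0 < g → g < n → Par W a b g → b - a ≤ L)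
    (hL : L ≤ (n - j - 3) ∧ L ≤ (n + Q - k - 3) ∧ L ≤ (n - l - 3) ∧ L ≤ (n + i - k - 2))
    (bd0 : Bd W n L (j) (i) (k))
    (n1 : Nd W (j) (i) (k))
    (n2 : Nd W (i + l + 1) (i2) (k + l + 1))
    (n3 : Nd W (n + i2 - m - 1) (i + l + m + 2) (k3))
    (b0 : (2 * l + 3) ≤ (n))
    (b1 : (n + k3) ≤ (2 * i + 2 * l + i2 + m + 4))
    (b2 : (i2 + 2 * m) ≤ (i + l))
    (b3 : (2 * i + j + 1) ≤ (k))
    (b4 : (2 * Q + k + l) ≤ (n + 2 * j + i2))
    (b5 : (k + k3) ≤ (2 * i + l + m + 1))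
    (b6 : (i + k3) ≤ (k + i2)) : False := by
  have ev := al.ev
  obtain ⟨y0, y1, y2, y3, y4, y5, y6, y7, y8, y9, y10, y11, y12, y13, y14, y15, y16, y17, y18, y19, y20⟩ := id hy
  have n1p := And.intro n1.p1 n1.p2
  have n2p := And.intro n2.p1 n2.p2
  have n3p := And.intro n3.p1 n3.p2
  by_cases z26 : (2 * i + 2 * l + m + 4) ≤ (n + k3)
  · have kk331 : (i + m + 2) ≤ (k) := by clear * - b6 y17 y18; omega
    have kk332 : (k + l + 2) ≤ (n) := by clear * - b5 z26; omega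
    have kk333 : (k + k3) ≤ (2 * i + l + m + 1) := by clear * - b5; omega
    have kk334 : (i2 + m + 2) ≤ (k3) := by clear * - y17 y18; omega
    have kk335 : (i + k3) ≤ (k + i2) := by clear * - b6; omega
    have kk336 : (2 * i + 2 * l + m + 4) ≤ (n + k3) := by clear * - z26; omega
    have kk337 : (k) ≤ (i + l + m + 2) := by clear * - b1 b5 y10 y18 z26; omega
    have kk338 : (k + l + 1) ≤ (n) := by clear * - b5 z26; omega
    have kk339 : (i2 + m + 1) ≤ (k) := by clear * - b6 y17 y18; omega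
    have kk340 : (i) ≤ (i2) := by clear * - y16; omega
    have kk341 : (n + i2) ≤ (i + k + 2 * l + 2) := by clear * - b1 b6 y10 y17 y18; omega
    have r342 : (2 * i + l + m - k - k3 + 2) % 2 = 0 := by clear * - ev n1p n2p n3p; omega
    have r343 : (k3 - i2 - m - 1) % 2 = 0 := by clear * - ev n1p n2p n3p; omega
    clear * - al b c2 D2 n2 kk331 kk332 kk333 kk334 kk335 kk336 kk337 kk338 kk339 kk340 kk341 r342 r343
    exact n2.f0 (rEE (sh al (-1) (i + l + 1) (i + l - n + 1) (by omega)) (cE (qf D2 al 0 (k + l + 1) (k + k3 - i - m - 1) (by omega)) (sh al (-1) (k + k3 - i - m - 1) (k + k3 - n - i - m - 1) (by omega))) (Eq.symm (rotR (2 * i + l + m - k - k3 + 2) (k3 - i2 - m - 1) (k + k3 - n - i - m - 1) (i + l - n + 1) (by omega) (fun t h1 h2 => (cE (qf (show Par W (k3 + 1) (k + k3 - i - m - 1) (2 * i + l + m - k - k3 + 2) from fun t h1 h2 => (cE (sh al (-1) t (t + (-n)) (by omega))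 (cE (pb D2 al (-1) (t + (-n)) (t + (i + l + m - k3 + 2)) (by omega)) (pb b al 0 (t + (i + l + m - k3 + 2)) (t + (2 * i + l + m - k - k3 + 2)) (by omega))))) al (-1) t (t + (n + 2 * i + l + m - k - k3 + 2)) (by omega)) (sh al (-1) (t + (n + 2 * i + l + m - k - k3 + 2)) (t + (2 * i + l + m - k - k3 + 2)) (by omega)))) (fun t h1 h2 => (cE (cE (cE (pb b al (-1) t (t + (n + i - k)) (by omega)) (pb c2 al 0 (t + (n + i - k)) (t + (n + i + l - i2 + 1)) (by omega))) (qf D2 al 0 (t + (n + i + l - i2 + 1)) (t + (n + k3 - i2 - m - 1)) (by omega))) (sh al (-1) (t + (n + k3 - i2 - m - 1)) (t + (k3 - i2 - m - 1)) (by omega)))))))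
  · by_cases z27 : (Q + j + m) ≤ (k + i2)
    · have kk344 : (i + m + 2) ≤ (k) := by clear * - b6 y17 y18; omega
      have kk345 : (k + l + 2) ≤ (n) := by clear * - y6; omega
      have kk346 : (i + 1) ≤ (k) := by clear * - b0 b6 y10 y18 z26; omega
      have kk347 : (0) ≤ (l) := by clear * - y18 y19; omega
      have kk348 : (2 * i + m + 2) ≤ (k + k3) := by clear * - b0 b6 y10 y18 z26; omega
      have kk349 : (k3) ≤ (i + l + m + 1) := by clear * - y19; omega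
      have kk350 : (i2) ≤ (j) := by clear * - y1 y17; omega
      have kk351 : (Q + j + m) ≤ (k + i2) := by clear * - z27; omega
      have kk352 : (0) ≤ (l + m + 2) := by clear * - b0 b1 b5 b6 y10 y18; omega
      have kk353 : (i) ≤ (k3) := by clear * - b0 y10 y16 y18 z26; omega
      have kk354 : (k + l + 1) ≤ (n) := by clear * - y6; omega
      have kk355 : (k3) ≤ (i + l + m + 2) := by clear * - y19; omega
      have kk356 : (0) ≤ (l + 1) := by clear * - y18 y19; omega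
      have kk357 : (i2) ≤ (j + l + 1) := by clear * - b0 b3 b4 y18 y8 z26; omega
      have kk358 : (i + j + m + 1) ≤ (k + i2) := by clear * - y16 y8 z27; omega
      have r359 : (k3 - i - l - m - 2) % 2 = 0 := by clear * - ev n1p n2p n3p; omega
      have r360 : (k - i) % 2 = 0 := by clear * - ev n1p n2p n3p; omega
      have r361 : (i + k + l + i2 - 2 * n - j + 1) % 2 = 0 := by clear * - ev n1p n2p n3p; omega
      clear * - al a2 b tt D2 n2 kk344 kk345 kk346 kk347 kk348 kk349 kk350 kk351 kk352 kk353 kk354 kk355 kk356 kk357 kk358 r359 r360 r361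
      exact ivt al.ninv (i - n + 1) (i + l - n + 1) (k - i) (i + l + m - n + 3) (k + l - n + 1) (k3 - i - l - m - 2) (i + l - n + 1) (k + k3 - n - i - m - 1) 1 (fun t h1 h2 => (cE (qf b al (-1) t (t + (n + k - i)) (by omega)) (sh al (-1) (t + (n + k - i)) (t + (k - i)) (by omega)))) (fun t h1 h2 => (cE (qf D2 al (-1) t (t + (n + k3 - i - l - m - 2)) (by omega)) (sh al (-1) (t + (n + k3 - i - l - m - 2)) (t + (k3 - i - l - m - 2)) (by omega)))) (fun hh => n2.f0 (rEE (sh al (-1) (i + l + 1) (i + l - n + 1) (by omega)) (cE (qf D2 al 0 (k + l + 1) (k + k3 - i - m - 1) (by omega)) (sh al (-1) (k + k3 - i - m - 1) (k + k3 - n - i - m - 1) (by omega))) (Eq.symm hh))) (by omega) (i + l - n + 2) (i + l + m - n + 2) (i + k + l + i2 - 2 * n - j + 1) 0 (-1) (fun t h1 h2 => (cE (cE (ab tt al (-1) t ((i + l + i2 - n + 1) - t) (by omega)) (qf a2 al 0 ((i + l + i2 - n + 1) - t) ((i + k + l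 + i2 - n - j + 1) - t) (by omega))) (sh al (-1) ((i + k + l + i2 - n - j + 1) - t) ((i + k + l + i2 - 2 * n - j + 1) - t) (by omega)))) (by omega)
    · by_cases z28 : (n + j + i2) ≤ (2 * k + l)
      · by_cases z29 : (2 * k + l + 2) ≤ (n + Q + j)
        · have kk362 : (n + j + i2) ≤ (2 * k + l) := by clear * - z28; omega
          have kk363 : (2 * k + l + 2) ≤ (2 * n + j + i2) := by clear * - b0 b3 b4 y18 z26 z29; omega
          have kk364 : (2 * k + l + 2) ≤ (n + Q + j) := by clear * - z29; omega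
          have kk365 : (Q + k + l + 1) ≤ (n + j + i2) := by clear * - b0 b4 b5 y16 y18; omega
          clear * - al a2 c1 kk362 kk363 kk364 kk365
          exact al.ubQ (2 * k + l - n - j - i2 + 1) (by omega) (by omega) fun t h1 h2 => (cE (sh al (-1) t (t + (-n)) (by omega)) (cE (qf c1 al (-1) (t + (-n)) (t + (k + l - i2 + 1)) (by omega)) (qf a2 al 1 (t + (k + l - i2 + 1)) (t + (2 * k + l - n - j - i2 + 1)) (by omega))))
        · by_cases z30 : (2 * i + l + i2 + 1) ≤ (Q + j + k)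
          · by_cases v13 : (Q + j + k) ≤ (2 * i + l + i2 + 2)
            · have kk366 : (j + 1) ≤ (k) := by clear * - b0 b6 v13 y18 z27 z28; omega
              have kk367 : (Q) ≤ (k) := by clear * - b0 b4 b6 v13 y18 z27 z28; omega
              have kk368 : (n + Q + j) ≤ (2 * k + l + 1) := by clear * - z29; omega
              have kk369 : (l + 2) ≤ (n) := by clear * - b0 b5 b6 y18 z27 z29; omega
              have kk370 : (Q + j) ≤ (k + i2) := by clear * - b0 b6 v13 y18 z27 z29; omega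
              have kk371 : (i2 + 1) ≤ (k) := by clear * - b0 b5 y18 z29 z30; omega
              have kk372 : (2 * i + l + i2 + 1) ≤ (Q + j + k) := by clear * - z30; omega
              have kk373 : (i + m + 1) ≤ (k) := by clear * - b0 b2 b6 y18 z27 z29; omega
              have kk374 : (k) ≤ (i + l + 1) := by clear * - b5 y18; omega
              have kk375 : (Q + j) ≤ (k + i2 + 1) := by clear * - b0 b6 v13 y18 z27 z29; omega
              have kk376 : (n + Q + j) ≤ (2 * k + l + 2) := by clear * - z29; omega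
              have kk377 : (Q + l + 1) ≤ (n + i2) := by clear * - b0 b4 b6 v13 y18 z27 z28; omega
              have kk378 : (2 * k) ≤ (2 * i + l + m + 2) := by clear * - v13 z27; omega
              have kk379 : (Q + j + k) ≤ (2 * i + l + i2 + 2) := by clear * - v13; omega
              have kk380 : (i2) ≤ (k) := by clear * - b0 b5 y18 z29 z30; omega
              have kk381 : (Q + j) ≤ (2 * i + l + 2) := by clear * - b0 b5 y18 z29; omega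
              have r382 : (n + i2 - k - l - 1) % 2 = 0 := by clear * - ev n1p n2p n3p; omega
              have r383 : (k - j) % 2 = 0 := by clear * - ev n1p n2p n3p; omega
              have r384 : (2 * i + l + i2 - 2 * n - k + 1) % 2 = 0 := by clear * - ev n1p n2p n3p; omega
              clear * - al a2 b c1 tt n2 kk366 kk367 kk368 kk369 kk370 kk371 kk372 kk373 kk374 kk375 kk376 kk377 kk378 kk379 kk380 kk381 r382 r383 r384
              exact ivt al.ninv (Q + j - n - k) (j - n) (k - j) (k + l - 2 * n + 2) (Q + k + l - 2 * n - i2 + 1) (n + i2 - k - l - 1) (k + l - 2 * n + 1) (i2 - n) 0 (fun t h1 h2 => (cE (qf a2 al (-1) t (t + (n + k - j)) (by omega)) (sh al (-1) (t + (n + k - j)) (t + (k - j)) (by omega)))) (fun t h1 h2 => (cE (sh al 1 t (t + (n)) (by omega)) (cE (pb c1 al (-1) (t + (n)) (t + (2 * n + i2 - k - l - 1)) (by omega)) (sh al (-1) (t + (2 * n + i2 - k - l - 1))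 (t + (n + i2 - k - l - 1)) (by omega))))) (fun hh => n2.f1 (rEE (sh al (-1) (i2) (i2 - n) (by omega)) (sh al (-2) (k + l + 1) (k + l - 2 * n + 1) (by omega)) (Eq.symm (Eq.symm hh)))) (by omega) (2 * i + l + i2 - n - 2 * k + 2) (i2 - n) (2 * i + l + i2 - 2 * n - k + 1) 1 (-1) (fun t h1 h2 => (cE (cE (qa tt al (-1) t ((i + l + i2 - n + 1) - t) (by omega)) (pb b al 0 ((i + l + i2 - n + 1) - t) ((2 * i + l + i2 - n - k + 1) - t) (by omega))) (sh al (-1) ((2 * i + l + i2 - n - k + 1) - t) ((2 * i + l + i2 - 2 * n - k + 1) - t) (by omega)))) (by omega)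
            · have kk385 : (j + 1) ≤ (k) := by clear * - b0 b3 y18 z26; omega
              have kk386 : (Q) ≤ (k) := by clear * - b0 b4 b5 b6 v13 y18 z27 z29; omega
              have kk387 : (n + Q + j) ≤ (2 * k + l + 1) := by clear * - z29; omega
              have kk388 : (l + 2) ≤ (n) := by clear * - b0 b5 b6 y18 z27 z29; omega
              have kk389 : (Q + j) ≤ (k + i2) := by clear * - b0 b5 y16 y18 z29; omega
              have kk390 : (i2 + 1) ≤ (k) := by clear * - b0 b5 v13 y18 z29; omega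
              have kk391 : (i + m + 1) ≤ (k) := by clear * - b0 b2 b6 y18 z27 z29; omega
              have kk392 : (k) ≤ (i + l + 1) := by clear * - b5 y18; omega
              have kk393 : (Q + j) ≤ (k + i2 + 1) := by clear * - b0 b5 y16 y18 z29; omega
              have kk394 : (n + Q + j) ≤ (2 * k + l + 2) := by clear * - z29; omega
              have kk395 : (Q + l + 1) ≤ (n + i2) := by clear * - b0 b1 b3 b4 b5 v13 y18 z29; omega
              have kk396 : (k + i2) ≤ (Q + j + m) := by clear * - z27; omega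
              have kk397 : (2 * i + l + i2 + 2) ≤ (Q + j + k) := by clear * - v13; omega
              have kk398 : (i2) ≤ (k) := by clear * - b0 b5 v13 y18 z29; omega
              have kk399 : (Q + j) ≤ (2 * i + l + 2) := by clear * - b0 b5 y18 z29; omega
              have r400 : (n + i2 - k - l - 1) % 2 = 0 := by clear * - ev n1p n2p n3p; omega
              have r401 : (k - j) % 2 = 0 := by clear * - ev n1p n2p n3p; omega
              have r402 : (2 * i + l + i2 - 2 * n - k + 1) % 2 = 0 := by clear * - ev n1p n2p n3p; omega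
              clear * - al a2 b c1 tt n2 kk385 kk386 kk387 kk388 kk389 kk390 kk391 kk392 kk393 kk394 kk395 kk396 kk397 kk398 kk399 r400 r401 r402
              exact ivt al.ninv (Q + j - n - k) (j - n) (k - j) (k + l - 2 * n + 2) (Q + k + l - 2 * n - i2 + 1) (n + i2 - k - l - 1) (k + l - 2 * n + 1) (i2 - n) 0 (fun t h1 h2 => (cE (qf a2 al (-1) t (t + (n + k - j)) (by omega)) (sh al (-1) (t + (n + k - j)) (t + (k - j)) (by omega)))) (fun t h1 h2 => (cE (sh al 1 t (t + (n)) (by omega)) (cE (pb c1 al (-1) (t + (n)) (t + (2 * n + i2 - k - l - 1)) (by omega)) (sh al (-1) (t + (2 * n + i2 - k - l - 1)) (t + (n + i2 - k - l - 1)) (by omega))))) (fun hh => n2.f1 (rEE (sh al (-1) (i2) (i2 - n) (by omega)) (sh al (-2) (k + l + 1) (k + l - 2 * n + 1) (by omega)) (Eq.symm (Eq.symm hh)))) (by omega) (Q + j - n - k) (i2 - n) (2 * i + l + i2 - 2 * n - k + 1) 1 (-1) (fun t h1 h2 => (cE (cE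 (qa tt al (-1) t ((i + l + i2 - n + 1) - t) (by omega)) (pb b al 0 ((i + l + i2 - n + 1) - t) ((2 * i + l + i2 - n - k + 1) - t) (by omega))) (sh al (-1) ((2 * i + l + i2 - n - k + 1) - t) ((2 * i + l + i2 - 2 * n - k + 1) - t) (by omega)))) (by omega)
          · have kk403 : (2 * Q + j) ≤ (2 * i + l + i2 + 1) := by clear * - b0 b4 b6 y18 z27 z28 z30; omega
            have kk404 : (2 * i + j + l + 2) ≤ (2 * k + i2) := by clear * - b0 y16 z28; omega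
            have kk405 : (k + i2) ≤ (Q + j + m) := by clear * - z27; omega
            have kk406 : (i + i2 + 1) ≤ (Q + j) := by clear * - b0 b2 b6 y18 z27 z29; omega
            have kk407 : (i2) ≤ (j) := by clear * - y1 y17; omega
            have kk408 : (k) ≤ (i + l + 1) := by clear * - b5 y18; omega
            have r409 : (2 * i + l + i2 - j + 1) % 2 = 0 := by clear * - ev n1p n2p n3p; omega
            clear * - al a2 b tt kk403 kk404 kk405 kk406 kk407 kk408 r409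
            obtain ⟨t, ht⟩ : ∃ t, 2 * t = (2 * i + l + i2 - j + 1) := ⟨(2 * i + l + i2 - j + 1) / 2, by omega⟩
            exact al.ninv t (cE (cI (pb a2 al 0 t (t + (j - k)) (by omega)) (qa tt al 0 (t + (j - k)) ((i + k + l + i2 - j + 1) - t) (by omega))) (pb b al 0 ((i + k + l + i2 - j + 1) - t) t (by omega)))
      · by_cases z31 : (2 * i + 6 * k + 4 * l + 3 * m + 9) ≤ (4 * n + i2 + 3 * k3)
        · by_cases z32 : (2 * j + 2 * k + 2 * l + m + 5) ≤ (2 * n + i2 + k3)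
          · by_cases v14 : (n + k3) ≤ (i + j + k + l + m + 3)
            · have kk410 : (i2 + m + 2) ≤ (k3) := by clear * - y17 y18; omega
              have kk411 : (2 * j + 2 * k + 2 * l + m + 5) ≤ (2 * n + i2 + k3) := by clear * - z32; omega
              have kk412 : (2 * k + 2 * l + i2 + m + 5) ≤ (2 * n + k3) := by clear * - b3 v14 y17 y18 z31 z32; omega
              have kk413 : (2 * i + 6 * k + 4 * l + 3 * m + 9) ≤ (4 * n + i2 + 3 * k3) := by clear * - z31; omega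
              have kk414 : (i + m + 1) ≤ (k) := by clear * - b0 b2 b3 b6 v14 y18; omega
              have kk415 : (i) ≤ (j) := by clear * - b3 v14 y17 y18 z31; omega
              have kk416 : (i + m + 1) ≤ (k3) := by clear * - y18; omega
              have kk417 : (n + k3) ≤ (i + k + 2 * l + m + 3) := by clear * - b0 b3 b5 v14 y18 z26; omega
              have kk418 : (n + i2 + k3) ≤ (i + 2 * k + l + m + 2) := by clear * - b3 v14 y17 y18 z32; omega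
              have kk419 : (n + k3) ≤ (i + j + k + l + m + 3) := by clear * - v14; omega
              have r420 : (i + k - 2 * n) % 2 = 0 := by clear * - ev n1p n2p n3p; omega
              have r421 : (k3 - i2 - m - 1) % 2 = 0 := by clear * - ev n1p n2p n3p; omega
              clear * - al a1 s1 b c2 D2 kk410 kk411 kk412 kk413 kk414 kk415 kk416 kk417 kk418 kk419 r420 r421
              exact midP al (k3 - i2 - m - 1) (i + k - 2 * n) (i + 2 * k + l + m - 2 * n - k3 + 3) (i2 - n + 1) (k3 - k - l - m - 2) (by omega) (fun t h1 h2 => (cE (cI (pb a1 al (-1) t (t + (n + j - k)) (by omega)) (qa s1 al 0 (t + (n + j - k)) ((i + k - n) - t) (by omega))) (sh al (-1) ((i + k - n) - t) ((i + k - 2 * n) - t) (by omega)))) (fun t h1 h2 => (cE (cE (qf (show Par W (i2 + 1) (n + i2 - k - l - 1) (k + k3 - i - i2 - m - 1) from fun t h1 h2 => (cE (sh al (-1) t (t + (-n)) (by omega)) (cE (pb c2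 al (-1) (t + (-n)) (t + (k + l - i2 + 1)) (by omega)) (qf D2 al 0 (t + (k + l - i2 + 1)) (t + (k + k3 - i - i2 - m - 1)) (by omega))))) al (-1) t (t + (n + k + k3 - i - i2 - m - 1)) (by omega)) (pb b al 0 (t + (n + k + k3 - i - i2 - m - 1)) (t + (n + k3 - i2 - m - 1)) (by omega))) (sh al (-1) (t + (n + k3 - i2 - m - 1)) (t + (k3 - i2 - m - 1)) (by omega))))
            · have kk422 : (i2 + m + 2) ≤ (k3) := by clear * - y17 y18; omega
              have kk423 : (k3) ≤ (2 * i + i2 + m + 1) := by clear * - b0 b1; omega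
              have kk424 : (i2 + k3) ≤ (2 * i + 2 * j + m + 1) := by clear * - b0 b1 y1 y17; omega
              have kk425 : (4 * k + 2 * l + m + 3) ≤ (2 * n + 2 * j + i2 + k3) := by clear * - y17 y18 z28; omega
              have kk426 : (i + m + 1) ≤ (k) := by clear * - b6 y17 y18; omega
              have kk427 : (i) ≤ (j) := by clear * - y1; omega
              have kk428 : (i + m + 1) ≤ (k3) := by clear * - y18; omega
              have kk429 : (n + k3) ≤ (i + k + 2 * l + m + 3) := by clear * - b1 b3 b6 y13 y17 y18 z27; omega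
              have kk430 : (i + j + k + l + m + 3) ≤ (n + k3) := by clear * - v14; omega
              have kk431 : (j + i2 + 1) ≤ (k) := by clear * - b0 b3 y17 y18 z26; omega
              have r432 : (i + k - 2 * n) % 2 = 0 := by clear * - ev n1p n2p n3p; omega
              have r433 : (k3 - i2 - m - 1) % 2 = 0 := by clear * - ev n1p n2p n3p; omega
              clear * - al a1 s1 b c2 D2 kk422 kk423 kk424 kk425 kk426 kk427 kk428 kk429 kk430 kk431 r432 r433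
              exact midP al (k3 - i2 - m - 1) (i + k - 2 * n) (k - n - j) (i2 - n + 1) (k3 - k - l - m - 2) (by omega) (fun t h1 h2 => (cE (cI (pb a1 al (-1) t (t + (n + j - k)) (by omega)) (qa s1 al 0 (t + (n + j - k)) ((i + k - n) - t) (by omega))) (sh al (-1) ((i + k - n) - t) ((i + k - 2 * n) - t) (by omega)))) (fun t h1 h2 => (cE (cE (qf (show Par W (i2 + 1) (n + i2 - k - l - 1) (k + k3 - i - i2 - m - 1) from fun t h1 h2 => (cE (sh al (-1) t (t + (-n)) (by omega)) (cE (pb c2 al (-1) (t + (-n)) (t + (k + l - i2 + 1)) (by omega)) (qf D2 al 0 (t + (k + l - i2 + 1)) (t + (k + k3 - i - i2 - m - 1)) (by omega))))) al (-1) t (t + (n + k + k3 - i - i2 - m - 1)) (by omega)) (pb b al 0 (t + (n + k + k3 - i - i2 - m - 1)) (t + (n + k3 - i2 - m - 1)) (by omega))) (sh al (-1) (t + (n + k3 - i2 - m - 1)) (t + (k3 - i2 - m - 1)) (by omega))))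
          · have kk434 : (2 * k + l + 2) ≤ (n + j + i2) := by clear * - b0 y16 z26 z31 z32; omega
            have kk435 : (j + i2) ≤ (2 * k + l) := by clear * - b0 b3 y18 z26 z31 z32; omega
            have kk436 : (n + i2) ≤ (Q + k + l + 1) := by clear * - y17 y18 y2 z32; omega
            have kk437 : (j + i2 + 1) ≤ (k) := by clear * - b0 b3 y17 y18 z26; omega
            have kk438 : (Q) ≤ (k) := by clear * - b6 y13 y17; omega
            clear * - al a1 c1 kk434 kk435 kk436 kk437 kk438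
            exact al.ubP (n + j + i2 - 2 * k - l - 1) (by omega) (by omega) fun t h1 h2 => (cE (sh al 1 t (t + (n)) (by omega)) (cE (pb c1 al 0 (t + (n)) (t + (n + i2 - k - l - 1)) (by omega)) (pb a1 al 0 (t + (n + i2 - k - l - 1)) (t + (n + j + i2 - 2 * k - l - 1)) (by omega))))
        · by_cases z33 : (n + i2) ≤ (k + l + 2 * m + 1)
          · by_cases z34 : (2 * i + j + l + 2) ≤ (2 * k + i2)
            · have kk439 : (2 * k) ≤ (2 * i + j + l + i2 + 1) := by clear * - b0 y18 z26 z28; omega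
              have kk440 : (2 * i + j + l + 2) ≤ (2 * k + i2) := by clear * - z34; omega
              have kk441 : (i2) ≤ (m) := by clear * - b3 y17 z28 z33; omega
              have kk442 : (i + i2 + 1) ≤ (k) := by clear * - b0 b2 b3 b4 y18 z27 z31 z33 z34; omega
              have kk443 : (i2) ≤ (j) := by clear * - b3 y17 y18 z28 z31; omega
              have kk444 : (k) ≤ (i + l + 1) := by clear * - b5 y18; omega
              have r445 : (2 * i + l + i2 - j + 1) % 2 = 0 := by clear * - ev n1p n2p n3p; omega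
              clear * - al a1 b tt kk439 kk440 kk441 kk442 kk443 kk444 r445
              obtain ⟨t, ht⟩ : ∃ t, 2 * t = (2 * i + l + i2 - j + 1) := ⟨(2 * i + l + i2 - j + 1) / 2, by omega⟩
              exact al.ninv t (cE (cI (pb a1 al 0 t (t + (j - k)) (by omega)) (qa tt al 0 (t + (j - k)) ((i + k + l + i2 - j + 1) - t) (by omega))) (pb b al 0 ((i + k + l + i2 - j + 1) - t) t (by omega)))
            · have kk446 : (2 * k + l + 2) ≤ (n + j + i2) := by clear * - b0 y16 z34; omega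
              have kk447 : (j + i2) ≤ (2 * k + l) := by clear * - b0 b3 y18 z26 z28 z31 z34; omega
              have kk448 : (j + i2 + 1) ≤ (k) := by clear * - b0 b3 y17 y18 z26; omega
              have kk449 : (n + i2) ≤ (2 * k + l + 1) := by clear * - b0 b3 y18 z26 z28 z31 z34; omega
              clear * - al a1 c2 kk446 kk447 kk448 kk449
              exact al.ubP (n + j + i2 - 2 * k - l - 1) (by omega) (by omega) fun t h1 h2 => (cE (sh al 1 t (t + (n)) (by omega)) (cE (qf c2 al 0 (t + (n)) (t + (n + i2 - k - l - 1)) (by omega)) (pb a1 al 0 (t + (n + i2 - k - l - 1)) (t + (n + j + i2 - 2 * k - l - 1)) (by omega))))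
          · by_cases z35 : (n + i2) ≤ (k + l + 2 * m + 3)
            · have kk450 : (i + k + l + 2 * m + 4) ≤ (n + i2 + k3) := by clear * - b0 b3 y18 z26 z28 z33; omega
              have kk451 : (i2) ≤ (m) := by clear * - b3 y17 z28 z35; omega
              have kk452 : (k + l + 2 * m + 3) ≤ (n + i2) := by clear * - z33 ev n1p n2p n3p; omega
              have kk453 : (n + i2) ≤ (k + l + 2 * m + 3) := by clear * - z35; omega
              have kk454 : (k3) ≤ (k) := by clear * - b0 b2 b3 z26 z28 z31 z33; omega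
              have kk455 : (n + k3) ≤ (i + k + 2 * l + m + 3) := by clear * - b1 b2 b6 y20 z35; omega
              clear * - al b D2 n3 kk450 kk451 kk452 kk453 kk454 kk455
              exact n3.f0 (cE (qf D2 al 0 (n + i2 - m - 1) (n + i2 + k3 - i - l - 2 * m - 3) (by omega)) (pb b al 0 (n + i2 + k3 - i - l - 2 * m - 3) (k3) (by omega)))
            · by_cases z36 : (2 * j + 2) ≤ (i + k)
              · by_cases v15 : (2 * j + 1) ≤ (k)
                · have kk456 : (k) ≤ (i + 2 * j) := by clear * - y17 y18 z28 z31; omega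
                  have kk457 : (k) ≤ (i + 2 * j + 1) := by clear * - y17 y18 z28 z31; omega
                  have kk458 : (2 * j + 1) ≤ (k) := by clear * - v15; omega
                  have kk459 : (i + j + 1) ≤ (k) := by clear * - b3 b4 v15 y18 z27 z28 z31 z35; omega
                  have r460 : (i + 2 * j - k) % 2 = 0 := by clear * - ev n1p n2p n3p; omega
                  clear * - al a1 s1 kk456 kk457 kk458 kk459 r460
                  obtain ⟨t, ht⟩ : ∃ t, 2 * t = (i + 2 * j - k) := ⟨(i + 2 * j - k) / 2, by omega⟩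
                  exact al.ninv t (cI (qf a1 al 0 t (t + (k - j)) (by omega)) (ab s1 al 0 (t + (k - j)) t (by omega)))
                · have kk461 : (2 * j + 2) ≤ (i + k) := by clear * - z36; omega
                  have kk462 : (k) ≤ (i + 2 * j + 1) := by clear * - v15 z36; omega
                  have kk463 : (k) ≤ (2 * j + 1) := by clear * - v15; omega
                  have kk464 : (i + j + 1) ≤ (k) := by clear * - b3 v15 z36; omega
                  have r465 : (i + 2 * j - k) % 2 = 0 := by clear * - ev n1p n2p n3p; omega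
                  clear * - al a1 s1 kk461 kk462 kk463 kk464 r465
                  obtain ⟨t, ht⟩ : ∃ t, 2 * t = (i + 2 * j - k) := ⟨(i + 2 * j - k) / 2, by omega⟩
                  exact al.ninv t (cI (qf a1 al 0 t (t + (k - j)) (by omega)) (ab s1 al 0 (t + (k - j)) t (by omega)))
              · have kk466 : (2 * k + l + 2) ≤ (n + j + i2) := by clear * - b0 b3 y13 y2 z26 z35 z36; omega
                have kk467 : (j + i2) ≤ (2 * k + l) := by clear * - b0 b2 b3 b4 y18 z26 z27 z36; omega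
                have kk468 : (n + i2) ≤ (Q + k + l + 1) := by clear * - y17 y18 y2 z31 z36; omega
                have kk469 : (j + i2 + 1) ≤ (k) := by clear * - b0 b3 y17 y18 z26; omega
                have kk470 : (Q) ≤ (k) := by clear * - b0 b3 y13 z26 z27 z31 z35; omega
                clear * - al a1 c1 kk466 kk467 kk468 kk469 kk470
                exact al.ubP (n + j + i2 - 2 * k - l - 1) (by omega) (by omega) fun t h1 h2 => (cE (pb c1 al (-1) t (t + (n + i2 - k - l - 1)) (by omega)) (pb a1 al 0 (t + (n + i2 - k - l - 1)) (t + (n + j + i2 - 2 * k - l - 1)) (by omega)))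

theorem h8_51p
    (h8_52 : ∀ {W : ℤ → G} {n Q i j k l i2 m k3 : ℤ} (al : AL W n Q) (hy : (0) ≤ (i) ∧ (i) ≤ (j) ∧ (j + 1) ≤ (Q) ∧ (Q) ≤ (k) ∧ (k + 1) ≤ (n) ∧ (Q) ≤ (i + l + 1) ∧ (k + l + 2) ≤ (n) ∧ (0) ≤ (i2) ∧ (i2 + 1) ≤ (Q) ∧ (Q + m + 1) ≤ (n + i2) ∧ (i2) ≤ (m) ∧ (Q) ≤ (i + l + m + 2) ∧ (i + l + m + 3) ≤ (n) ∧ (Q) ≤ (k3) ∧ (k3 + 1) ≤ (n) ∧ (i + m + 2) ≤ (k) ∧ (i) ≤ (i2) ∧ (i2) ≤ (i) ∧ (i + m + 2) ≤ (k3) ∧ (k3) ≤ (i + l + m + 1) ∧ (m + k3 + 2) ≤ (n + i2)) (a1 : Par W (0) (j) (k - j)) (a2 : Par W (Q + j - k) (j) (k - j)) (s1 : Ant W (0) (i) (i + j)) (s2 : Ant W (j + 1) (Q) (i + j)) (b : Par W (i + 1) (i + l + 1) (k - i)) (c1 : Par W (i2 + 1) (Q) (k + l - i2 + 1)) (c2 : Par W (k + l + 2) (n) (i2 - k - l - 1)) (tt : Ant W (i2 - m) (i2) (i + l + i2 + 1)) (D1 : Par W (Q) (k3) (n + i2 - m - k3 - 1)) (D2 : Par W (i + l + m + 3) (n) (k3 - i - l - m - 2)) {L : ℤ} (mx : ∀ a b g, 0 <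 g → g < n → Par W a b g → b - a ≤ L) (hL : L ≤ (n - j - 3) ∧ L ≤ (n + Q - k - 3) ∧ L ≤ (n - l - 3) ∧ L ≤ (n + i - k - 2)) (bd0 : Bd W n L (j) (i) (k)) (n1 : Nd W (j) (i) (k)) (n2 : Nd W (i + l + 1) (i2) (k + l + 1)) (n3 : Nd W (n + i2 - m - 1) (i + l + m + 2) (k3)) (d1 : ℤ) (q1 : d1 % 2 = 0) (x1 : Par W (i - n + 1) (k + l - n - d1 + 1) d1) (b0 : (2 * i + j + 1) ≤ (k)) (b1 : (k + i2 + m + 1) ≤ (i + k3)) (b2 : (i + m + k3 + 3) ≤ (Q + k + i2)) (b3 : (2 * Q + k + 2 * l + 2 * m + 4) ≤ (n + j + 2 * k3)) (b4 : (n + Q) ≤ (i + 2 * l + 2 * m + 4)) (b5 : (3 * k + l + m + k3 + 2) ≤ (n + 2 * i + 2 * i2)) (b6 : (3 * k) ≤ (i + 2 * j + k3)) (b7 : (i + 4 * j + 2) ≤ (3 * k)) (b8 : (i + k3) ≤ (k + i2 + m + 1)) (b9 : (i + l + m + 3) ≤ (k + d1)) (b10 : (d1) ≤ (l + m + 2)), False)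
    (h8_53 : ∀ {W : ℤ → G} {n Q i j k l i2 m k3 : ℤ} (al : AL W n Q) (hy : (0) ≤ (i) ∧ (i) ≤ (j) ∧ (j + 1) ≤ (Q) ∧ (Q) ≤ (k) ∧ (k + 1) ≤ (n) ∧ (Q) ≤ (i + l + 1) ∧ (k + l + 2) ≤ (n) ∧ (0) ≤ (i2) ∧ (i2 + 1) ≤ (Q) ∧ (Q + m + 1) ≤ (n + i2) ∧ (i2) ≤ (m) ∧ (Q) ≤ (i + l + m + 2) ∧ (i + l + m + 3) ≤ (n) ∧ (Q) ≤ (k3) ∧ (k3 + 1) ≤ (n) ∧ (i + m + 2) ≤ (k) ∧ (i) ≤ (i2) ∧ (i2) ≤ (i) ∧ (i + m + 2) ≤ (k3) ∧ (k3) ≤ (i + l + m + 1) ∧ (m + k3 + 2) ≤ (n + i2)) (a1 : Par W (0) (j) (k - j)) (a2 : Par W (Q + j - k) (j) (k - j)) (s1 : Ant W (0) (i) (i + j)) (s2 : Ant W (j + 1) (Q) (i + j)) (b : Par W (i + 1) (i + l + 1) (k - i)) (c1 : Par W (i2 + 1) (Q) (k + l - i2 + 1)) (c2 : Par W (k + l + 2) (n) (i2 - k - l - 1)) (tt : Ant W (i2 - m) (i2) (i + l + i2 + 1)) (D1 : Par W (Q) (k3) (n + i2 - m - k3 - 1)) (D2 : Par W (i + l + m + 3) (n) (k3 - i - l - m - 2)) {L : ℤ} (mx : ∀ a b g, 0 < g → g < n → Par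 W a b g → b - a ≤ L) (hL : L ≤ (n - j - 3) ∧ L ≤ (n + Q - k - 3) ∧ L ≤ (n - l - 3) ∧ L ≤ (n + i - k - 2)) (bd0 : Bd W n L (j) (i) (k)) (n1 : Nd W (j) (i) (k)) (n2 : Nd W (i + l + 1) (i2) (k + l + 1)) (n3 : Nd W (n + i2 - m - 1) (i + l + m + 2) (k3)) (d1 : ℤ) (q1 : d1 % 2 = 0) (x1 : Par W (n + i + 1) (n + k + l - d1 + 1) d1) (b0 : (2 * l + 3) ≤ (n)) (b1 : (2 * i + j + 1) ≤ (k)) (b2 : (k + i2 + m + 1) ≤ (i + k3)) (b3 : (i + m + k3 + 3) ≤ (Q + k + i2)) (b4 : (2 * Q + k + 2 * l + 2 * m + 4) ≤ (n + j + 2 * k3)) (b5 : (n + Q) ≤ (i + 2 * l + 2 * m + 4)) (b6 : (3 * k + l + m + k3 + 2) ≤ (n + 2 * i + 2 * i2)) (b7 : (n + 2 * k3) ≤ (i + 2 * k + 2 * l + 2 * m + 4)) (b8 : (3 * k) ≤ (i + 2 * j + k3)) (b9 : (i + 3 * k) ≤ (4 * j)) (b10 : (i + l + m + 3) ≤ (k + d1)) (b11 : (d1) ≤ (l + m + 2)), False)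
    {W : ℤ → G} {n Q i j k l i2 m k3 : ℤ} (al : AL W n Q)
    (hy : (0) ≤ (i) ∧ (i) ≤ (j) ∧ (j + 1) ≤ (Q) ∧ (Q) ≤ (k) ∧ (k + 1) ≤ (n) ∧ (Q) ≤ (i + l + 1) ∧ (k + l + 2) ≤ (n) ∧ (0) ≤ (i2) ∧ (i2 + 1) ≤ (Q) ∧ (Q + m + 1) ≤ (n + i2) ∧ (i2) ≤ (m) ∧ (Q) ≤ (i + l + m + 2) ∧ (i + l + m + 3) ≤ (n) ∧ (Q) ≤ (k3) ∧ (k3 + 1) ≤ (n) ∧ (i + m + 2) ≤ (k) ∧ (i) ≤ (i2) ∧ (i2) ≤ (i) ∧ (i + m + 2) ≤ (k3) ∧ (k3) ≤ (i + l + m + 1) ∧ (m + k3 + 2) ≤ (n + i2))
    (a1 : Par W (0) (j) (k - j))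
    (a2 : Par W (Q + j - k) (j) (k - j))
    (s1 : Ant W (0) (i) (i + j))
    (s2 : Ant W (j + 1) (Q) (i + j))
    (b : Par W (i + 1) (i + l + 1) (k - i))
    (c1 : Par W (i2 + 1) (Q) (k + l - i2 + 1))
    (c2 : Par W (k + l + 2) (n) (i2 - k - l - 1))
    (tt : Ant W (i2 - m) (i2) (i + l + i2 + 1))
    (D1 : Par W (Q) (k3) (n + i2 - m - k3 - 1))
    (D2 : Par W (i + l + m + 3) (n) (k3 - i - l - m - 2))
    {L : ℤ} (mx : ∀ a b g, 0 < g → g < n → Par W a b g → b - a ≤ L)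
    (hL : L ≤ (n - j - 3) ∧ L ≤ (n + Q - k - 3) ∧ L ≤ (n - l - 3) ∧ L ≤ (n + i - k - 2))
    (bd0 : Bd W n L (j) (i) (k))
    (n1 : Nd W (j) (i) (k))
    (n2 : Nd W (i + l + 1) (i2) (k + l + 1))
    (n3 : Nd W (n + i2 - m - 1) (i + l + m + 2) (k3))
    (b0 : (2 * l + 3) ≤ (n))
    (b1 : (2 * i + j + 1) ≤ (k))
    (b2 : (k + i2 + m + 1) ≤ (i + k3))
    (b3 : (i + k) ≤ (2 * j + 1))
    (b4 : (i + m + k3 + 3) ≤ (Q + k + i2))
    (b5 : (2 * Q + k + 2 * l + 2 * m + 4) ≤ (n + j + 2 * k3))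
    (b6 : (n + i2 + k3) ≤ (i + j + 2 * l + 3 * m + 4))
    (b7 : (n + Q) ≤ (i + 2 * l + 2 * m + 4))
    (b8 : (3 * k + l + m + k3 + 2) ≤ (n + 2 * i + 2 * i2)) : False := by
  have ev := al.ev
  obtain ⟨y0, y1, y2, y3, y4, y5, y6, y7, y8, y9, y10, y11, y12, y13, y14, y15, y16, y17, y18, y19, y20⟩ := id hy
  have n1p := And.intro n1.p1 n1.p2
  have n2p := And.intro n2.p1 n2.p2
  have n3p := And.intro n3.p1 n3.p2
  by_cases z98 : (n + 2 * k3) ≤ (i + 2 * k + 2 * l + 2 * m + 4)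
  · by_cases z99 : (i + 2 * j + k3 + 1) ≤ (3 * k)
    · have kk1124 : (i + 3 * k + 2 * l + 2 * m + 5) ≤ (n + 2 * j + 2 * k3) := by clear * - b0 b2 b3 y16 ev n1p n2p n3p; omega
      have kk1125 : (2 * j + 2 * k3) ≤ (i + 3 * k + 2 * l + 2 * m + 3) := by clear * - b0 b1 b2 b3 b4 b6 b7 b8; omega
      have kk1126 : (2 * j + 2 * k3) ≤ (3 * k + l + m + 1) := by clear * - b0 b1 b2 b3 b4 b6 b7 b8 z99; omega
      have kk1127 : (j) ≤ (k) := by clear * - b0 b1 b2 b4 b7; omega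
      have kk1128 : (i + 2 * j + k3 + 1) ≤ (3 * k) := by clear * - z99; omega
      have kk1129 : (i + 2 * j + 1) ≤ (2 * k) := by clear * - b0 b1 b2 b4 b7; omega
      have kk1130 : (n + 2 * k3) ≤ (i + 2 * k + 2 * l + 2 * m + 4) := by clear * - z98; omega
      have kk1131 : (n + j + 2 * k3) ≤ (i + 3 * k + 2 * l + 2 * m + 4) := by clear * - b0 b2 b4 b6 b7 z98 z99; omega
      have kk1132 : (n + 2 * k3) ≤ (2 * i + k + 3 * l + 2 * m + 5) := by clear * - b0 b1 b2 b3 b4 b6 b7 b8 z99; omega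
      have kk1133 : (k3) ≤ (i + l + m + 2) := by clear * - b0 b1 b2 b3 b4 b6 b7 b8; omega
      clear * - al a1 b D2 kk1124 kk1125 kk1126 kk1127 kk1128 kk1129 kk1130 kk1131 kk1132 kk1133
      exact al.ubP (n + 2 * j + 2 * k3 - i - 3 * k - 2 * l - 2 * m - 4) (by omega) (by omega) fun t h1 h2 => (cE (sh al 1 t (t + (n)) (by omega)) (cE (cE (cE (cE (qf D2 al 0 (t + (n)) (t + (n + k3 - i - l - m - 2)) (by omega)) (qf D2 al 0 (t + (n + k3 - i - l - m - 2)) (t + (n + 2 * k3 - 2 * i - 2 * l - 2 * m - 4)) (by omega))) (pb b al 0 (t + (n + 2 * k3 - 2 * i - 2 * l - 2 * m - 4)) (t + (n + 2 * k3 - i - k - 2 * l - 2 * m - 4)) (by omega))) (pb a1 al 0 (t + (n + 2 * k3 - i - k - 2 * l - 2 * m - 4)) (t + (n + j + 2 * k3 - i - 2 * k - 2 * l - 2 * m - 4)) (by omega))) (pb a1 al 0 (t + (n + j + 2 * k3 - i - 2 * k - 2 * l - 2 * m - 4)) (t + (n + 2 * j + 2 * k3 - i - 3 * k - 2 * l - 2 * m - 4))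 (by omega))))
    · by_cases z100 : (4 * j + 1) ≤ (i + 3 * k)
      · by_cases z101 : (3 * k) ≤ (i + 4 * j + 1)
        · by_cases v30 : (4 * j + 1) ≤ (3 * k)
          · have kk1134 : (3 * k) ≤ (i + 4 * j) := by clear * - z101 ev n1p n2p n3p; omega
            have kk1135 : (3 * k) ≤ (i + 4 * j + 1) := by clear * - z101; omega
            have kk1136 : (j) ≤ (k) := by clear * - b3 v30 z101; omega
            have kk1137 : (2 * j) ≤ (2 * k) := by clear * - b3 v30 z101; omega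
            have kk1138 : (4 * j + 1) ≤ (3 * k) := by clear * - v30; omega
            have kk1139 : (i + j + 1) ≤ (k) := by clear * - b1 v30 z101; omega
            have r1140 : (i + 4 * j - 2 * n - 3 * k) % 2 = 0 := by clear * - ev n1p n2p n3p; omega
            clear * - al a1 s1 kk1134 kk1135 kk1136 kk1137 kk1138 kk1139 r1140
            obtain ⟨t, ht⟩ : ∃ t, 2 * t = (i + 4 * j - 2 * n - 3 * k) := ⟨(i + 4 * j - 2 * n - 3 * k) / 2, by omega⟩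
            exact al.ninv t (cE (cI (cE (cE (qf a1 al (-1) t (t + (n + k - j)) (by omega)) (qf a1 al 0 (t + (n + k - j)) (t + (n + 2 * k - 2 * j)) (by omega))) (qf a1 al 0 (t + (n + 2 * k - 2 * j)) (t + (n + 3 * k - 3 * j)) (by omega))) (ab s1 al 0 (t + (n + 3 * k - 3 * j)) ((i + 4 * j - n - 3 * k) - t) (by omega))) (sh al (-1) ((i + 4 * j - n - 3 * k) - t) t (by omega)))
          · have kk1141 : (4 * j + 2) ≤ (i + 3 * k) := by clear * - z100 ev n1p n2p n3p; omega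
            have kk1142 : (3 * k) ≤ (i + 4 * j + 1) := by clear * - z101; omega
            have kk1143 : (3 * k) ≤ (4 * j + 1) := by clear * - v30; omega
            have kk1144 : (2 * k) ≤ (3 * j + 1) := by clear * - b3 z101; omega
            have kk1145 : (k) ≤ (2 * j + 1) := by clear * - b3 v30 z100; omega
            have kk1146 : (j) ≤ (k) := by clear * - b3 z100; omega
            have kk1147 : (i + j + 1) ≤ (k) := by clear * - b1 v30 z100; omega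
            have r1148 : (i + 4 * j - 2 * n - 3 * k) % 2 = 0 := by clear * - ev n1p n2p n3p; omega
            clear * - al a1 s1 kk1141 kk1142 kk1143 kk1144 kk1145 kk1146 kk1147 r1148
            obtain ⟨t, ht⟩ : ∃ t, 2 * t = (i + 4 * j - 2 * n - 3 * k) := ⟨(i + 4 * j - 2 * n - 3 * k) / 2, by omega⟩
            exact al.ninv t (cE (cI (cE (cE (qf a1 al (-1) t (t + (n + k - j)) (by omega)) (qf a1 al 0 (t + (n + k - j)) (t + (n + 2 * k - 2 * j)) (by omega))) (qf a1 al 0 (t + (n + 2 * k - 2 * j)) (t + (n + 3 * k - 3 * j)) (by omega))) (ab s1 al 0 (t + (n + 3 * k - 3 * j)) ((i + 4 * j - n - 3 * k) - t) (by omega))) (sh al (-1) ((i + 4 * j - n - 3 * k) - t) t (by omega)))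
        · by_cases z102 : (k + i2 + m + 2) ≤ (i + k3)
          · have kk1149 : (k + i2 + m + 2) ≤ (i + k3) := by clear * - z102; omega
            have kk1150 : (i + k3) ≤ (n + k + i2 + m) := by clear * - b0 b3 b8 z100 z101 z102 z98 z99; omega
            have kk1151 : (i + k3) ≤ (Q + k + m) := by clear * - b0 b3 b4 b6 z100 z101 z102 z99; omega
            have kk1152 : (Q + k + l + 1) ≤ (n + i2) := by clear * - b0 b3 b7 b8 z100 z101 z102; omega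
            have kk1153 : (i + m + 1) ≤ (k) := by clear * - b3 b4 b5 z100 z101 z102 z98; omega
            have kk1154 : (k + m + 1) ≤ (k3) := by clear * - y16 z102; omega
            have kk1155 : (i + m + 1) ≤ (k3) := by clear * - b3 b4 b5 z100 z101 z102 z98 z99; omega
            have kk1156 : (i) ≤ (k) := by clear * - b0 b3 b4 b7 z101 z102; omega
            have kk1157 : (n + k3) ≤ (i + k + 2 * l + m + 3) := by clear * - b4 b7 z102 z98; omega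
            clear * - al b c2 D2 kk1149 kk1150 kk1151 kk1152 kk1153 kk1154 kk1155 kk1156 kk1157
            exact al.ubQ (i + k3 - k - i2 - m - 1) (by omega) (by omega) fun t h1 h2 => (cE (sh al 1 t (t + (n)) (by omega)) (cE (cE (qf (show Par W (i2 + 1) (n + i2 - k - l - 1) (k + k3 - i - i2 - m - 1) from fun t h1 h2 => (cE (sh al (-1) t (t + (-n)) (by omega)) (cE (pb c2 al (-1) (t + (-n)) (t + (k + l - i2 + 1)) (by omega)) (qf D2 al 0 (t + (k + l - i2 + 1)) (t + (k + k3 - i - i2 - m - 1)) (by omega))))) al 1 (t + (n)) (t + (k + k3 - i - i2 - m - 1)) (by omega)) (pb b al 0 (t + (k + k3 - i - i2 - m - 1)) (t + (k3 - i2 - m - 1)) (by omega))) (pb b al 0 (t + (k3 - i2 - m - 1)) (t + (i + k3 - k - i2 - m - 1)) (by omega))))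
          · have kk1158 : (i + 1) ≤ (k) := by clear * - b0 b2 b3 b4 b7 z101; omega
            have kk1159 : (0) ≤ (l + m + 2) := by clear * - b0 b2 b3 b8 z100 z101 z98 z99; omega
            have r1160 : (k - i) % 2 = 0 := by clear * - ev n1p n2p n3p; omega
            obtain ⟨d1, p1, x1⟩ : ∃ d1, ((l + m + 2) - (k - i) < d1 ∧ d1 ≤ (l + m + 2) ∧ 0 ≤ d1 ∧ d1 % 2 = 0) ∧ Par W (i - n + 1) ((k + l - n + 1) - d1) d1 := by
              clear * - al b kk1158 kk1159 r1160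
              exact jmp (k - i) (i - n + 1) (k + l - n + 1) (l + m + 2) (by omega) (fun t h1 h2 => (cE (qf b al (-1) t (t + (n + k - i)) (by omega)) (sh al (-1) (t + (n + k - i)) (t + (k - i)) (by omega))))
            replace x1 : Par W (i - n + 1) (k + l - n - d1 + 1) d1 := x1.cq (by clear * -; omega)
            exact h8_52 al hy a1 a2 s1 s2 b c1 c2 tt D1 D2 mx hL bd0 n1 n2 n3 d1 (by clear * - p1; omega) x1 (by clear * - b1; omega) (by clear * - b2; omega) (by clear * - b4; omega) (by clear * - b5; omega) (by clear * - b7; omega) (by clear * - b8; omega) (by clear * - z99; omega) (by clear * - z101; omega) (by clear * - z102; omega) (by clear * - p1; omega) (by clear * - p1; omega)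
      · have kk1193 : (i + 1) ≤ (k) := by clear * - b0 b1 b2 b4 b7 z100; omega
        have kk1194 : (0) ≤ (l + m + 2) := by clear * - b0 b1 b2 b4 b7 b8 z100 z98 z99; omega
        have r1195 : (k - i) % 2 = 0 := by clear * - ev n1p n2p n3p; omega
        obtain ⟨d1, p1, x1⟩ : ∃ d1, ((l + m + 2) - (k - i) < d1 ∧ d1 ≤ (l + m + 2) ∧ 0 ≤ d1 ∧ d1 % 2 = 0) ∧ Par W (n + i + 1) ((n + k + l + 1) - d1) d1 := by
          clear * - al b kk1193 kk1194 r1195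
          exact jmp (k - i) (n + i + 1) (n + k + l + 1) (l + m + 2) (by omega) (fun t h1 h2 => (cE (qf b al 1 t (t + (k - n - i)) (by omega)) (sh al 1 (t + (k - n - i)) (t + (k - i)) (by omega))))
        replace x1 : Par W (n + i + 1) (n + k + l - d1 + 1) d1 := x1.cq (by clear * -; omega)
        exact h8_53 al hy a1 a2 s1 s2 b c1 c2 tt D1 D2 mx hL bd0 n1 n2 n3 d1 (by clear * - p1; omega) x1 (by clear * - b0; omega) (by clear * - b1; omega) (by clear * - b2; omega) (by clear * - b4; omega) (by clear * - b5; omega) (by clear * - b7; omega) (by clear * - b8; omega) (by clear * - z98; omega) (by clear * - z99; omega) (by clear * - z100; omega) (by clear * - p1; omega) (by clear * - p1; omega)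
  · have kk1235 : (k + i2 + m + 2) ≤ (i + k3) := by clear * - b4 b7 y17 z98; omega
    have kk1236 : (i + k3) ≤ (n + k + i2 + m) := by clear * - b0 b1 b2 b4 b5 b6 b7 b8 z98; omega
    have kk1237 : (i + k3) ≤ (Q + k + m) := by clear * - b0 b1 b2 b4 b6 b7 z98; omega
    have kk1238 : (Q + k + l + 1) ≤ (n + i2) := by clear * - b0 b1 b2 b4 b5 b6 b7 b8 z98; omega
    have kk1239 : (i + m + 1) ≤ (k) := by clear * - b0 b1 b2 b4 b5 b6 b7; omega
    have kk1240 : (k + m + 1) ≤ (k3) := by clear * - b2 b4 b7 z98; omega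
    have kk1241 : (i + m + 1) ≤ (k3) := by clear * - b0 b1 b2 b4 b5 b6 b7 z98; omega
    have kk1242 : (i) ≤ (k) := by clear * - b0 b1 b2 b4 b5 b6 b7 z98; omega
    have kk1243 : (n + k3) ≤ (i + k + 2 * l + m + 3) := by clear * - b4 b7 y17; omega
    clear * - al b c2 D2 kk1235 kk1236 kk1237 kk1238 kk1239 kk1240 kk1241 kk1242 kk1243
    exact al.ubQ (i + k3 - k - i2 - m - 1) (by omega) (by omega) fun t h1 h2 => (cE (sh al 1 t (t + (n)) (by omega)) (cE (cE (qf (show Par W (i2 + 1) (n + i2 - k - l - 1) (k + k3 - i - i2 - m - 1) from fun t h1 h2 => (cE (sh al (-1) t (t + (-n)) (by omega)) (cE (pb c2 al (-1) (t + (-n)) (t + (k + l - i2 + 1)) (by omega)) (qf D2 al 0 (t + (k + l - i2 + 1)) (t + (k + k3 - i - i2 - m - 1)) (by omega))))) al 1 (t + (n)) (t + (k + k3 - i - i2 - m - 1)) (by omega)) (pb b al 0 (t + (k + k3 - i - i2 - m - 1)) (t + (k3 - i2 - m - 1)) (by omega))) (pb b al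 0 (t + (k3 - i2 - m - 1)) (t + (i + k3 - k - i2 - m - 1)) (by omega))))

theorem h8_47p
    (h8_48 : ∀ {W : ℤ → G} {n Q i j k l i2 m k3 : ℤ} (al : AL W n Q) (hy : (0) ≤ (i) ∧ (i) ≤ (j) ∧ (j + 1) ≤ (Q) ∧ (Q) ≤ (k) ∧ (k + 1) ≤ (n) ∧ (Q) ≤ (i + l + 1) ∧ (k + l + 2) ≤ (n) ∧ (0) ≤ (i2) ∧ (i2 + 1) ≤ (Q) ∧ (Q + m + 1) ≤ (n + i2) ∧ (i2) ≤ (m) ∧ (Q) ≤ (i + l + m + 2) ∧ (i + l + m + 3) ≤ (n) ∧ (Q) ≤ (k3) ∧ (k3 + 1) ≤ (n) ∧ (i + m + 2) ≤ (k) ∧ (i) ≤ (i2) ∧ (i2) ≤ (i) ∧ (i + m + 2) ≤ (k3) ∧ (k3) ≤ (i + l + m + 1) ∧ (m + k3 + 2) ≤ (n + i2)) (a1 : Par W (0) (j) (k - j)) (a2 : Par W (Q + j - k) (j) (k - j)) (s1 : Ant W (0) (i) (i + j)) (s2 : Ant W (j + 1) (Q) (i + j)) (b : Par W (i + 1) (i + l + 1) (k - i)) (c1 : Par W (i2 + 1) (Q) (k + l - i2 + 1)) (c2 : Par W (k + l + 2) (n) (i2 - k - l - 1)) (tt : Ant W (i2 - m) (i2) (i + l + i2 + 1)) (D1 : Par W (Q) (k3) (n + i2 - m - k3 - 1)) (D2 : Par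 W (i + l + m + 3) (n) (k3 - i - l - m - 2)) {L : ℤ} (mx : ∀ a b g, 0 < g → g < n → Par W a b g → b - a ≤ L) (hL : L ≤ (n - j - 3) ∧ L ≤ (n + Q - k - 3) ∧ L ≤ (n - l - 3) ∧ L ≤ (n + i - k - 2)) (bd0 : Bd W n L (j) (i) (k)) (n1 : Nd W (j) (i) (k)) (n2 : Nd W (i + l + 1) (i2) (k + l + 1)) (n3 : Nd W (n + i2 - m - 1) (i + l + m + 2) (k3)) (b0 : (2 * l + 3) ≤ (n)) (b1 : (2 * i + j + 1) ≤ (k)) (b2 : (n + k3) ≤ (i + k + 2 * l + m + 3)) (b3 : (k + i2 + m + 1) ≤ (i + k3)) (b4 : (i + k) ≤ (2 * j + 1)) (b5 : (i + m + k3 + 3) ≤ (Q + k + i2)) (b6 : (2 * Q + k + 2 * l + 2 * m + 4) ≤ (n + j + 2 * k3)) (b7 : (n + i2 + k3) ≤ (i + j + 2 * l + 3 * m + 4)) (b8 : (4 * k + l + 2) ≤ (n + 2 * i + i2)), False)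
    {W : ℤ → G} {n Q i j k l i2 m k3 : ℤ} (al : AL W n Q)
    (hy : (0) ≤ (i) ∧ (i) ≤ (j) ∧ (j + 1) ≤ (Q) ∧ (Q) ≤ (k) ∧ (k + 1) ≤ (n) ∧ (Q) ≤ (i + l + 1) ∧ (k + l + 2) ≤ (n) ∧ (0) ≤ (i2) ∧ (i2 + 1) ≤ (Q) ∧ (Q + m + 1) ≤ (n + i2) ∧ (i2) ≤ (m) ∧ (Q) ≤ (i + l + m + 2) ∧ (i + l + m + 3) ≤ (n) ∧ (Q) ≤ (k3) ∧ (k3 + 1) ≤ (n) ∧ (i + m + 2) ≤ (k) ∧ (i) ≤ (i2) ∧ (i2) ≤ (i) ∧ (i + m + 2) ≤ (k3) ∧ (k3) ≤ (i + l + m + 1) ∧ (m + k3 + 2) ≤ (n + i2))
    (a1 : Par W (0) (j) (k - j))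
    (a2 : Par W (Q + j - k) (j) (k - j))
    (s1 : Ant W (0) (i) (i + j))
    (s2 : Ant W (j + 1) (Q) (i + j))
    (b : Par W (i + 1) (i + l + 1) (k - i))
    (c1 : Par W (i2 + 1) (Q) (k + l - i2 + 1))
    (c2 : Par W (k + l + 2) (n) (i2 - k - l - 1))
    (tt : Ant W (i2 - m) (i2) (i + l + i2 + 1))
    (D1 : Par W (Q) (k3) (n + i2 - m - k3 - 1))
    (D2 : Par W (i + l + m + 3) (n) (k3 - i - l - m - 2))
    {L : ℤ} (mx : ∀ a b g, 0 < g → g < n → Par W a b g → b - a ≤ L)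
    (hL : L ≤ (n - j - 3) ∧ L ≤ (n + Q - k - 3) ∧ L ≤ (n - l - 3) ∧ L ≤ (n + i - k - 2))
    (bd0 : Bd W n L (j) (i) (k))
    (n1 : Nd W (j) (i) (k))
    (n2 : Nd W (i + l + 1) (i2) (k + l + 1))
    (n3 : Nd W (n + i2 - m - 1) (i + l + m + 2) (k3))
    (b0 : (2 * l + 3) ≤ (n))
    (b1 : (2 * i + j + 1) ≤ (k))
    (b2 : (n + k3) ≤ (i + k + 2 * l + m + 3))
    (b3 : (k + i2 + m + 1) ≤ (i + k3))
    (b4 : (i + k) ≤ (2 * j + 1))
    (b5 : (i + m + k3 + 3) ≤ (Q + k + i2))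
    (b6 : (2 * k + l + m + k3 + 2) ≤ (n + i + 2 * i2))
    (b7 : (2 * Q + k + 2 * l + 2 * m + 4) ≤ (n + j + 2 * k3))
    (b8 : (n + i2 + k3) ≤ (i + j + 2 * l + 3 * m + 4)) : False := by
  have ev := al.ev
  obtain ⟨y0, y1, y2, y3, y4, y5, y6, y7, y8, y9, y10, y11, y12, y13, y14, y15, y16, y17, y18, y19, y20⟩ := id hy
  have n1p := And.intro n1.p1 n1.p2
  have n2p := And.intro n2.p1 n2.p2
  have n3p := And.intro n3.p1 n3.p2
  by_cases z92 : (n + 2 * i + i2) ≤ (4 * k + l + 1)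
  · have kk1074 : (4 * k + l + 2) ≤ (n + 2 * i + j + i2) := by clear * - b0 b3 b6 b8 y16; omega
    have kk1075 : (2 * i + j + i2) ≤ (4 * k + l) := by clear * - b0 b1 b2 b3 b6 b8 y18 z92; omega
    have kk1076 : (i2) ≤ (k) := by clear * - b0 b1 b2 b3 b6 b8 y20 z92; omega
    have kk1077 : (2 * i + j + 1) ≤ (2 * k) := by clear * - b0 b1 b2 y18; omega
    have kk1078 : (i + j + 1) ≤ (k) := by clear * - b0 b1 b2 b3 y16; omega
    have kk1079 : (n + i2) ≤ (2 * k + 2 * l + 2) := by clear * - b0 b1 b2 b3 b6 b8 y18 z92; omega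
    have kk1080 : (n + 2 * i + i2) ≤ (4 * k + l + 1) := by clear * - z92; omega
    have kk1081 : (n + i + i2) ≤ (3 * k + 2 * l + 2) := by clear * - b0 b1 b2 b3 b6 b8 y18 z92; omega
    clear * - al a1 b c2 kk1074 kk1075 kk1076 kk1077 kk1078 kk1079 kk1080 kk1081
    exact al.ubP (n + 2 * i + j + i2 - 4 * k - l - 1) (by omega) (by omega) fun t h1 h2 => (cE (cE (cE (qf c2 al (-1) t (t + (n + i2 - k - l - 1)) (by omega)) (pb b al 0 (t + (n + i2 - k - l - 1)) (t + (n + i + i2 - 2 * k - l - 1)) (by omega))) (pb b al 0 (t + (n + i + i2 - 2 * k - l - 1)) (t + (n + 2 * i + i2 - 3 * k - l - 1)) (by omega))) (pb a1 al 0 (t + (n + 2 * i + i2 - 3 * k - l - 1)) (t + (n + 2 * i + j + i2 - 4 * k - l - 1)) (by omega)))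
  · exact h8_48 al hy a1 a2 s1 s2 b c1 c2 tt D1 D2 mx hL bd0 n1 n2 n3 (by clear * - b0; omega) (by clear * - b1; omega) (by clear * - b2; omega) (by clear * - b3; omega) (by clear * - b4; omega) (by clear * - b5; omega) (by clear * - b7; omega) (by clear * - b8; omega) (by clear * - z92; omega)

theorem h8_41p
    (h8_42 : ∀ {W : ℤ → G} {n Q i j k l i2 m k3 : ℤ} (al : AL W n Q) (hy : (0) ≤ (i) ∧ (i) ≤ (j) ∧ (j + 1) ≤ (Q) ∧ (Q) ≤ (k) ∧ (k + 1) ≤ (n) ∧ (Q) ≤ (i + l + 1) ∧ (k + l + 2) ≤ (n) ∧ (0) ≤ (i2) ∧ (i2 + 1) ≤ (Q) ∧ (Q + m + 1) ≤ (n + i2) ∧ (i2) ≤ (m) ∧ (Q) ≤ (i + l + m + 2) ∧ (i + l + m + 3) ≤ (n) ∧ (Q) ≤ (k3) ∧ (k3 + 1) ≤ (n) ∧ (i + m + 2) ≤ (k) ∧ (i) ≤ (i2) ∧ (i2) ≤ (i) ∧ (i + m + 2) ≤ (k3) ∧ (k3) ≤ (i + l + m + 1) ∧ (m + k3 + 2) ≤ (n + i2)) (a1 : Par W (0) (j) (k - j)) (a2 : Par W (Q + j - k) (j) (k - j)) (s1 : Ant W (0) (i) (i + j)) (s2 : Ant W (j + 1) (Q) (i + j)) (b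 : Par W (i + 1) (i + l + 1) (k - i)) (c1 : Par W (i2 + 1) (Q) (k + l - i2 + 1)) (c2 : Par W (k + l + 2) (n) (i2 - k - l - 1)) (tt : Ant W (i2 - m) (i2) (i + l + i2 + 1)) (D1 : Par W (Q) (k3) (n + i2 - m - k3 - 1)) (D2 : Par W (i + l + m + 3) (n) (k3 - i - l - m - 2)) {L : ℤ} (mx : ∀ a b g, 0 < g → g < n → Par W a b g → b - a ≤ L) (hL : L ≤ (n - j - 3) ∧ L ≤ (n + Q - k - 3) ∧ L ≤ (n - l - 3) ∧ L ≤ (n + i - k - 2)) (bd0 : Bd W n L (j) (i) (k)) (n1 : Nd W (j) (i) (k)) (n2 : Nd W (i + l + 1) (i2) (k + l + 1)) (n3 : Nd W (n + i2 - m - 1) (i + l + m + 2) (k3)) (b0 : (2 * l + 3) ≤ (n)) (b1 : (2 * i + j + 1) ≤ (k)) (b2 : (n + k3) ≤ (i + k + 2 * l + m + 3)) (b3 : (k + i2 + m + 1) ≤ (i + k3)) (b4 : (2 * i + 2 * l + 3 * m + 6) ≤ (n + i2 + k3)) (b5 : (3 * k + l + 2) ≤ (n + i + i2)) (b6 : (i + k) ≤ (2 * j + 1)) (b7 : (2 * Q + 2 * k + l) ≤ (n + 2 * i + j + i2)) (b8 : (i + m + k3 + 3) ≤ (Q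 + k + i2)) (b9 : (i2 + 1) ≤ (m)), False)
    {W : ℤ → G} {n Q i j k l i2 m k3 : ℤ} (al : AL W n Q)
    (hy : (0) ≤ (i) ∧ (i) ≤ (j) ∧ (j + 1) ≤ (Q) ∧ (Q) ≤ (k) ∧ (k + 1) ≤ (n) ∧ (Q) ≤ (i + l + 1) ∧ (k + l + 2) ≤ (n) ∧ (0) ≤ (i2) ∧ (i2 + 1) ≤ (Q) ∧ (Q + m + 1) ≤ (n + i2) ∧ (i2) ≤ (m) ∧ (Q) ≤ (i + l + m + 2) ∧ (i + l + m + 3) ≤ (n) ∧ (Q) ≤ (k3) ∧ (k3 + 1) ≤ (n) ∧ (i + m + 2) ≤ (k) ∧ (i) ≤ (i2) ∧ (i2) ≤ (i) ∧ (i + m + 2) ≤ (k3) ∧ (k3) ≤ (i + l + m + 1) ∧ (m + k3 + 2) ≤ (n + i2))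
    (a1 : Par W (0) (j) (k - j))
    (a2 : Par W (Q + j - k) (j) (k - j))
    (s1 : Ant W (0) (i) (i + j))
    (s2 : Ant W (j + 1) (Q) (i + j))
    (b : Par W (i + 1) (i + l + 1) (k - i))
    (c1 : Par W (i2 + 1) (Q) (k + l - i2 + 1))
    (c2 : Par W (k + l + 2) (n) (i2 - k - l - 1))
    (tt : Ant W (i2 - m) (i2) (i + l + i2 + 1))
    (D1 : Par W (Q) (k3) (n + i2 - m - k3 - 1))
    (D2 : Par W (i + l + m + 3) (n) (k3 - i - l - m - 2))
    {L : ℤ} (mx : ∀ a b g, 0 < g → g < n → Par W a b g → b - a ≤ L)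
    (hL : L ≤ (n - j - 3) ∧ L ≤ (n + Q - k - 3) ∧ L ≤ (n - l - 3) ∧ L ≤ (n + i - k - 2))
    (bd0 : Bd W n L (j) (i) (k))
    (n1 : Nd W (j) (i) (k))
    (n2 : Nd W (i + l + 1) (i2) (k + l + 1))
    (n3 : Nd W (n + i2 - m - 1) (i + l + m + 2) (k3))
    (b0 : (2 * l + 3) ≤ (n))
    (b1 : (2 * i + j + 1) ≤ (k))
    (b2 : (n + k3) ≤ (i + k + 2 * l + m + 3))
    (b3 : (k + i2 + m + 1) ≤ (i + k3))
    (b4 : (2 * i + 2 * l + 3 * m + 6) ≤ (n + i2 + k3))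
    (b5 : (3 * k + l + 2) ≤ (n + i + i2))
    (b6 : (i + k) ≤ (2 * j + 1))
    (b7 : (2 * Q + 2 * k + l) ≤ (n + 2 * i + j + i2))
    (b8 : (i + m + k3 + 3) ≤ (Q + k + i2)) : False := by
  have ev := al.ev
  obtain ⟨y0, y1, y2, y3, y4, y5, y6, y7, y8, y9, y10, y11, y12, y13, y14, y15, y16, y17, y18, y19, y20⟩ := id hy
  have n1p := And.intro n1.p1 n1.p2
  have n2p := And.intro n2.p1 n2.p2
  have n3p := And.intro n3.p1 n3.p2
  by_cases z77 : (m) ≤ (i2)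
  · have kk931 : (i + 1) ≤ (k) := by clear * - b0 b1 b2 b6 y18; omega
    have kk932 : (0) ≤ (l) := by clear * - b0 b1 b2 b3 b5 b6 y18; omega
    have kk933 : (0) ≤ (l + m + 1) := by clear * - b0 b1 b2 b5 b6 y10 y18; omega
    have kk934 : (i + m + 2) ≤ (k) := by clear * - b0 b1 b2 b3 b6 y18 z77; omega
    have kk935 : (i + 1) ≤ (k3) := by clear * - b0 b2 b3 b4 y10 y16; omega
    have kk936 : (k3) ≤ (k + l) := by clear * - b0 b1 b2 b3 b5 b6 y18 z77; omega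
    have kk937 : (m) ≤ (i2) := by clear * - z77; omega
    have kk938 : (i2) ≤ (j) := by clear * - b0 b1 b2 b3 b6 y18; omega
    have kk939 : (i2) ≤ (m) := by clear * - y10; omega
    have kk940 : (0) ≤ (l + m + 2) := by clear * - b0 b1 b2 b5 b6 y10 y18; omega
    have kk941 : (i) ≤ (k3) := by clear * - b0 b2 b3 b4 y10 y16; omega
    have kk942 : (k + l + 1) ≤ (n) := by clear * - b0 b1 b2 b3 b5 b6 y18; omega
    have kk943 : (k3) ≤ (i + l + m + 2) := by clear * - y19; omega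
    have kk944 : (0) ≤ (l + 1) := by clear * - b0 b1 b2 b3 b5 b6 y18; omega
    have kk945 : (i2) ≤ (j + l + 1) := by clear * - b0 b1 b2 b3 b5 b6 y18; omega
    have kk946 : (i + j + 1) ≤ (k) := by clear * - b0 b1 b2 b3 y16; omega
    have r947 : (k3 - i - l - m - 2) % 2 = 0 := by clear * - ev n1p n2p n3p; omega
    have r948 : (k - i) % 2 = 0 := by clear * - ev n1p n2p n3p; omega
    have r949 : (i + k + l + i2 - 2 * n - j + 1) % 2 = 0 := by clear * - ev n1p n2p n3p; omega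
    clear * - al a1 b tt D2 n3 kk931 kk932 kk933 kk934 kk935 kk936 kk937 kk938 kk939 kk940 kk941 kk942 kk943 kk944 kk945 kk946 r947 r948 r949
    exact ivt al.ninv (i - n + 1) (i + l - n + 1) (k - i) (i + l + m - n + 3) (k + l - n + 1) (k3 - i - l - m - 2) (i + l + m - n + 2) (k3 - n) 0 (fun t h1 h2 => (cE (qf b al (-1) t (t + (n + k - i)) (by omega)) (sh al (-1) (t + (n + k - i)) (t + (k - i)) (by omega)))) (fun t h1 h2 => (cE (qf D2 al (-1) t (t + (n + k3 - i - l - m - 2)) (by omega)) (sh al (-1) (t + (n + k3 - i - l - m - 2)) (t + (k3 - i - l - m - 2)) (by omega)))) (fun hh => n3.f1 (rEE (sh al (-1) (i + l + m + 2) (i + l + m - n + 2) (by omega)) (sh al (-1) (k3) (k3 - n) (by omega)) (Eq.symm hh))) (by omega) (i + l - n + 2) (i + l + i2 - n + 2) (i + k + l + i2 - 2 * n - j + 1) 0 (-1) (fun t h1 h2 => (cI (sh al 1 t (t + (n)) (by omega)) (cE (cE (ab tt al 0 (t + (n)) ((i +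 l + i2 - n + 1) - t) (by omega)) (qf a1 al 0 ((i + l + i2 - n + 1) - t) ((i + k + l + i2 - n - j + 1) - t) (by omega))) (sh al (-1) ((i + k + l + i2 - n - j + 1) - t) ((i + k + l + i2 - 2 * n - j + 1) - t) (by omega))))) (by omega)
  · exact h8_42 al hy a1 a2 s1 s2 b c1 c2 tt D1 D2 mx hL bd0 n1 n2 n3 (by clear * - b0; omega) (by clear * - b1; omega) (by clear * - b2; omega) (by clear * - b3; omega) (by clear * - b4; omega) (by clear * - b5; omega) (by clear * - b6; omega) (by clear * - b7; omega) (by clear * - b8; omega) (by clear * - z77; omega)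

theorem h8_40p
    (h8_41 : ∀ {W : ℤ → G} {n Q i j k l i2 m k3 : ℤ} (al : AL W n Q) (hy : (0) ≤ (i) ∧ (i) ≤ (j) ∧ (j + 1) ≤ (Q) ∧ (Q) ≤ (k) ∧ (k + 1) ≤ (n) ∧ (Q) ≤ (i + l + 1) ∧ (k + l + 2) ≤ (n) ∧ (0) ≤ (i2) ∧ (i2 + 1) ≤ (Q) ∧ (Q + m + 1) ≤ (n + i2) ∧ (i2) ≤ (m) ∧ (Q) ≤ (i + l + m + 2) ∧ (i + l + m + 3) ≤ (n) ∧ (Q) ≤ (k3) ∧ (k3 + 1) ≤ (n) ∧ (i + m + 2) ≤ (k) ∧ (i) ≤ (i2) ∧ (i2) ≤ (i) ∧ (i + m + 2) ≤ (k3) ∧ (k3) ≤ (i + l + m + 1) ∧ (m + k3 + 2) ≤ (n + i2)) (a1 : Par W (0) (j) (k - j)) (a2 : Par W (Q + j - k) (j) (k - j)) (s1 : Ant W (0) (i) (i + j)) (s2 : Ant W (j + 1) (Q) (i + j)) (b : Par W (i + 1) (i + l + 1) (k - i)) (c1 : Par W (i2 + 1) (Q) (k + l - i2 + 1)) (c2 : Par W (k + l + 2) (n) (i2 - k - l - 1)) (tt : Ant W (i2 - m) (i2) (i + l + i2 + 1)) (D1 : Par W (Q) (k3) (n + i2 - m - k3 - 1)) (D2 : Par W (i + l + m + 3) (n) (k3 - i - l - m - 2)) {L : ℤ} (mx : ∀ a b g, 0 <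 g → g < n → Par W a b g → b - a ≤ L) (hL : L ≤ (n - j - 3) ∧ L ≤ (n + Q - k - 3) ∧ L ≤ (n - l - 3) ∧ L ≤ (n + i - k - 2)) (bd0 : Bd W n L (j) (i) (k)) (n1 : Nd W (j) (i) (k)) (n2 : Nd W (i + l + 1) (i2) (k + l + 1)) (n3 : Nd W (n + i2 - m - 1) (i + l + m + 2) (k3)) (b0 : (2 * l + 3) ≤ (n)) (b1 : (2 * i + j + 1) ≤ (k)) (b2 : (n + k3) ≤ (i + k + 2 * l + m + 3)) (b3 : (k + i2 + m + 1) ≤ (i + k3)) (b4 : (2 * i + 2 * l + 3 * m + 6) ≤ (n + i2 + k3)) (b5 : (3 * k + l + 2) ≤ (n + i + i2)) (b6 : (i + k) ≤ (2 * j + 1)) (b7 : (2 * Q + 2 * k + l) ≤ (n + 2 * i + j + i2)) (b8 : (i + m + k3 + 3) ≤ (Q + k + i2)), False)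
    {W : ℤ → G} {n Q i j k l i2 m k3 : ℤ} (al : AL W n Q)
    (hy : (0) ≤ (i) ∧ (i) ≤ (j) ∧ (j + 1) ≤ (Q) ∧ (Q) ≤ (k) ∧ (k + 1) ≤ (n) ∧ (Q) ≤ (i + l + 1) ∧ (k + l + 2) ≤ (n) ∧ (0) ≤ (i2) ∧ (i2 + 1) ≤ (Q) ∧ (Q + m + 1) ≤ (n + i2) ∧ (i2) ≤ (m) ∧ (Q) ≤ (i + l + m + 2) ∧ (i + l + m + 3) ≤ (n) ∧ (Q) ≤ (k3) ∧ (k3 + 1) ≤ (n) ∧ (i + m + 2) ≤ (k) ∧ (i) ≤ (i2) ∧ (i2) ≤ (i) ∧ (i + m + 2) ≤ (k3) ∧ (k3) ≤ (i + l + m + 1) ∧ (m + k3 + 2) ≤ (n + i2))
    (a1 : Par W (0) (j) (k - j))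
    (a2 : Par W (Q + j - k) (j) (k - j))
    (s1 : Ant W (0) (i) (i + j))
    (s2 : Ant W (j + 1) (Q) (i + j))
    (b : Par W (i + 1) (i + l + 1) (k - i))
    (c1 : Par W (i2 + 1) (Q) (k + l - i2 + 1))
    (c2 : Par W (k + l + 2) (n) (i2 - k - l - 1))
    (tt : Ant W (i2 - m) (i2) (i + l + i2 + 1))
    (D1 : Par W (Q) (k3) (n + i2 - m - k3 - 1))
    (D2 : Par W (i + l + m + 3) (n) (k3 - i - l - m - 2))
    {L : ℤ} (mx : ∀ a b g, 0 < g → g < n → Par W a b g → b - a ≤ L)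
    (hL : L ≤ (n - j - 3) ∧ L ≤ (n + Q - k - 3) ∧ L ≤ (n - l - 3) ∧ L ≤ (n + i - k - 2))
    (bd0 : Bd W n L (j) (i) (k))
    (n1 : Nd W (j) (i) (k))
    (n2 : Nd W (i + l + 1) (i2) (k + l + 1))
    (n3 : Nd W (n + i2 - m - 1) (i + l + m + 2) (k3))
    (b0 : (2 * l + 3) ≤ (n))
    (b1 : (2 * i + j + 1) ≤ (k))
    (b2 : (n + k3) ≤ (i + k + 2 * l + m + 3))
    (b3 : (k + i2 + m + 1) ≤ (i + k3))
    (b4 : (2 * i + 2 * l + 3 * m + 6) ≤ (n + i2 + k3))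
    (b5 : (k + l + m + k3 + 3) ≤ (n + 2 * i2))
    (b6 : (3 * k + l + 2) ≤ (n + i + i2))
    (b7 : (i + k) ≤ (2 * j + 1))
    (b8 : (2 * Q + 2 * k + l) ≤ (n + 2 * i + j + i2)) : False := by
  have ev := al.ev
  obtain ⟨y0, y1, y2, y3, y4, y5, y6, y7, y8, y9, y10, y11, y12, y13, y14, y15, y16, y17, y18, y19, y20⟩ := id hy
  have n1p := And.intro n1.p1 n1.p2
  have n2p := And.intro n2.p1 n2.p2
  have n3p := And.intro n3.p1 n3.p2
  by_cases z76 : (Q + k + i2) ≤ (i + m + k3 + 2)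
  · have kk907 : (k + l + m + 3) ≤ (n + i2) := by clear * - b0 b1 b2 b3 b5 b6 b7 y18; omega
    have kk908 : (i2) ≤ (m) := by clear * - y10; omega
    have kk909 : (i + 1) ≤ (k) := by clear * - b0 b1 b2 b7 y18; omega
    have kk910 : (0) ≤ (l) := by clear * - b0 b1 b2 b3 b6 b7 y18; omega
    have kk911 : (i + 1) ≤ (k3) := by clear * - b0 b2 b3 b4 y10 y16; omega
    have kk912 : (k3) ≤ (k + l) := by clear * - b0 b1 b2 b3 b5 b6 b7 y18; omega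
    have kk913 : (i + k + l + m + 3) ≤ (n + 2 * i2) := by clear * - b0 b1 b2 b3 b5 b6 b7 y16; omega
    have kk914 : (n + 2 * i2) ≤ (2 * k + 2 * l + m + 2) := by clear * - b0 b2 b3 b4 y10 y18; omega
    have kk915 : (Q + k + i2) ≤ (i + m + k3 + 2) := by clear * - z76; omega
    have kk916 : (k + l + m + k3 + 3) ≤ (n + Q + i2) := by clear * - b5 y8; omega
    have kk917 : (i2) ≤ (m + 1) := by clear * - y10; omega
    have kk918 : (k + l + m + 2) ≤ (n + i2) := by clear * - b0 b1 b2 b3 b5 b6 b7 y18; omega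
    have kk919 : (0) ≤ (i2) := by clear * - b0 b2 b3 y16; omega
    have kk920 : (k + l + m + k3 + 2) ≤ (n + 2 * i2) := by clear * - b5; omega
    have kk921 : (i + 1) ≤ (Q) := by clear * - y16 y8; omega
    have kk922 : (n + 2 * i2) ≤ (2 * k + 2 * l + m + 3) := by clear * - b0 b2 b3 b4 y10 y18; omega
    have kk923 : (k3) ≤ (k + l + 1) := by clear * - b0 b1 b2 b3 b5 b6 b7 y18; omega
    have kk924 : (i + m + 1) ≤ (k) := by clear * - b0 b1 b2 b3 b4 b7 y18; omega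
    have kk925 : (i + k + l + m + 2) ≤ (n + 2 * i2) := by clear * - b0 b1 b2 b3 b5 b6 b7 y16; omega
    have kk926 : (0) ≤ (l + i2 + 1) := by clear * - b0 b1 b2 b6 b7 y18; omega
    have kk927 : (n + i2) ≤ (2 * k + 2 * l + 2) := by clear * - b0 b1 b2 b3 b7 y18; omega
    have r928 : (n + 2 * i2 - k - l - m - k3 - 2) % 2 = 0 := by clear * - ev n1p n2p n3p; omega
    have r929 : (k - i) % 2 = 0 := by clear * - ev n1p n2p n3p; omega
    have r930 : (i + 2 * i2 - n - k) % 2 = 0 := by clear * - ev n1p n2p n3p; omega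
    clear * - al b c2 tt D1 n3 kk907 kk908 kk909 kk910 kk911 kk912 kk913 kk914 kk915 kk916 kk917 kk918 kk919 kk920 kk921 kk922 kk923 kk924 kk925 kk926 kk927 r928 r929 r930
    exact ivt al.ninv (i - n + 1) (i + l - n + 1) (k - i) (Q - n) (k3 - n) (n + 2 * i2 - k - l - m - k3 - 2) (k3 - n) (2 * i2 - k - l - m - 2) 0 (fun t h1 h2 => (cE (qf b al (-1) t (t + (n + k - i)) (by omega)) (sh al (-1) (t + (n + k - i)) (t + (k - i)) (by omega)))) (fun t h1 h2 => (cE (qf (show Par W (Q) (k3) (n + 2 * i2 - k - l - m - k3 - 2) from fun t h1 h2 => (cE (sh al (-1) t (t + (-n)) (by omega)) (cE (qf D1 al (-1) (t + (-n)) (t + (n + i2 - m - k3 - 1)) (by omega)) (qf c2 al 0 (t + (n + i2 - m - k3 - 1)) (t + (n + 2 * i2 - k - l - m - k3 - 2)) (by omega))))) al (-1) t (t + (2 * n + 2 * i2 - k - l - m - k3 - 2)) (by omega)) (sh al (-1) (t + (2 * n + 2 * i2 - k - l - m - k3 - 2)) (t + (n + 2 * i2 -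 k - l - m - k3 - 2)) (by omega)))) (fun hh => n3.f0 (rEE (cE (qf c2 al 0 (n + i2 - m - 1) (n + 2 * i2 - k - l - m - 2) (by omega)) (sh al (-1) (n + 2 * i2 - k - l - m - 2) (2 * i2 - k - l - m - 2) (by omega))) (sh al (-1) (k3) (k3 - n) (by omega)) (Eq.symm (Eq.symm hh)))) (by omega) (2 * i2 - k - l - m - 1) (i2 - k - l - 1) (i + 2 * i2 - n - k) 1 0 (fun t h1 h2 => (cE (cI (pb c2 al (-1) t (t + (n + k + l - i2 + 1)) (by omega)) (qa tt al 1 (t + (n + k + l - i2 + 1)) ((i + 2 * i2 - k) - t) (by omega))) (sh al (-1) ((i + 2 * i2 - k) - t) ((i + 2 * i2 - n - k) - t) (by omega)))) (by omega)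
  · exact h8_41 al hy a1 a2 s1 s2 b c1 c2 tt D1 D2 mx hL bd0 n1 n2 n3 (by clear * - b0; omega) (by clear * - b1; omega) (by clear * - b2; omega) (by clear * - b3; omega) (by clear * - b4; omega) (by clear * - b6; omega) (by clear * - b7; omega) (by clear * - b8; omega) (by clear * - z76; omega)

theorem h8_68p
    (h8_69 : ∀ {W : ℤ → G} {n Q i j k l i2 m k3 : ℤ} (al : AL W n Q) (hy : (0) ≤ (i) ∧ (i) ≤ (j) ∧ (j + 1) ≤ (Q) ∧ (Q) ≤ (k) ∧ (k + 1) ≤ (n) ∧ (Q) ≤ (i + l + 1) ∧ (k + l + 2) ≤ (n) ∧ (0) ≤ (i2) ∧ (i2 + 1) ≤ (Q) ∧ (Q + m + 1) ≤ (n + i2) ∧ (i2) ≤ (m) ∧ (Q) ≤ (i + l + m + 2) ∧ (i + l + m + 3) ≤ (n) ∧ (Q) ≤ (k3) ∧ (k3 + 1) ≤ (n) ∧ (i + m + 2) ≤ (k) ∧ (i) ≤ (i2) ∧ (i2) ≤ (i) ∧ (i + m + 2) ≤ (k3) ∧ (k3) ≤ (i + l + m + 1) ∧ (m + k3 + 2) ≤ (n + i2)) (a1 : Par W (0) (j) (k - j)) (a2 : Par W (Q + j - k) (j) (k - j)) (s1 : Ant W (0) (i) (i + j)) (s2 : Ant W (j + 1) (Q) (i + j)) (b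 : Par W (i + 1) (i + l + 1) (k - i)) (c1 : Par W (i2 + 1) (Q) (k + l - i2 + 1)) (c2 : Par W (k + l + 2) (n) (i2 - k - l - 1)) (tt : Ant W (i2 - m) (i2) (i + l + i2 + 1)) (D1 : Par W (Q) (k3) (n + i2 - m - k3 - 1)) (D2 : Par W (i + l + m + 3) (n) (k3 - i - l - m - 2)) {L : ℤ} (mx : ∀ a b g, 0 < g → g < n → Par W a b g → b - a ≤ L) (hL : L ≤ (n - j - 3) ∧ L ≤ (n + Q - k - 3) ∧ L ≤ (n - l - 3) ∧ L ≤ (n + i - k - 2)) (bd0 : Bd W n L (j) (i) (k)) (n1 : Nd W (j) (i) (k)) (n2 : Nd W (i + l + 1) (i2) (k + l + 1)) (n3 : Nd W (n + i2 - m - 1) (i + l + m + 2) (k3)) (b0 : (2 * l + 3) ≤ (n)) (b1 : (2 * i + 2 * l + 3 * m + 5) ≤ (n + i2 + k3)) (b2 : (k + i2 + 1) ≤ (Q + j + m)) (b3 : (2 * i + j + 1) ≤ (k)) (b4 : (2 * Q + k + l) ≤ (n + 2 * j + i2)) (b5 : (m + k3) ≤ (i + l + 2 * i2 + 1)) (b6 : (Q + k3) ≤ (i + l + i2 + m + 2)) (b7 : (Q + k + l + 1) ≤ (n + i2)) (b8 : (Q + m + 1) ≤ (k3)) (b9 : (i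 + l + i2 + m + 3) ≤ (k + k3)) (b10 : (n) ≤ (2 * i + 2 * l + 2)) (b11 : (k) ≤ (i + 2 * j)), False)
    (h8_70 : ∀ {W : ℤ → G} {n Q i j k l i2 m k3 : ℤ} (al : AL W n Q) (hy : (0) ≤ (i) ∧ (i) ≤ (j) ∧ (j + 1) ≤ (Q) ∧ (Q) ≤ (k) ∧ (k + 1) ≤ (n) ∧ (Q) ≤ (i + l + 1) ∧ (k + l + 2) ≤ (n) ∧ (0) ≤ (i2) ∧ (i2 + 1) ≤ (Q) ∧ (Q + m + 1) ≤ (n + i2) ∧ (i2) ≤ (m) ∧ (Q) ≤ (i + l + m + 2) ∧ (i + l + m + 3) ≤ (n) ∧ (Q) ≤ (k3) ∧ (k3 + 1) ≤ (n) ∧ (i + m + 2) ≤ (k) ∧ (i) ≤ (i2) ∧ (i2) ≤ (i) ∧ (i + m + 2) ≤ (k3) ∧ (k3) ≤ (i + l + m + 1) ∧ (m + k3 + 2) ≤ (n + i2)) (a1 : Par W (0) (j) (k - j)) (a2 : Par W (Q + j - k) (j) (k - j)) (s1 : Ant W (0) (i) (i + j)) (s2 : Ant W (j + 1) (Q) (i + j)) (b : Par W (i + 1) (i + l + 1) (k - i)) (c1 : Par W (i2 + 1) (Q) (k + l - i2 + 1)) (c2 : Par W (k + l + 2) (n) (i2 - k - l - 1)) (tt : Ant W (i2 - m) (i2) (i + l + i2 + 1)) (D1 : Par W (Q) (k3) (n + i2 - m - k3 - 1))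 (D2 : Par W (i + l + m + 3) (n) (k3 - i - l - m - 2)) {L : ℤ} (mx : ∀ a b g, 0 < g → g < n → Par W a b g → b - a ≤ L) (hL : L ≤ (n - j - 3) ∧ L ≤ (n + Q - k - 3) ∧ L ≤ (n - l - 3) ∧ L ≤ (n + i - k - 2)) (bd0 : Bd W n L (j) (i) (k)) (n1 : Nd W (j) (i) (k)) (n2 : Nd W (i + l + 1) (i2) (k + l + 1)) (n3 : Nd W (n + i2 - m - 1) (i + l + m + 2) (k3)) (b0 : (2 * l + 3) ≤ (n)) (b1 : (2 * i + 2 * l + 3 * m + 5) ≤ (n + i2 + k3)) (b2 : (k + i2 + 1) ≤ (Q + j + m)) (b3 : (2 * Q + k + l) ≤ (n + 2 * j + i2)) (b4 : (m + k3) ≤ (i + l + 2 * i2 + 1)) (b5 : (Q + k3) ≤ (i + l + i2 + m + 2)) (b6 : (Q + k + l + 1) ≤ (n + i2)) (b7 : (Q + m + 1) ≤ (k3)) (b8 : (i + l + i2 + m + 3) ≤ (k + k3)) (b9 : (n) ≤ (2 * i + 2 * l + 2)) (b10 : (i + 2 * j + 1) ≤ (k)), False)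
    {W : ℤ → G} {n Q i j k l i2 m k3 : ℤ} (al : AL W n Q)
    (hy : (0) ≤ (i) ∧ (i) ≤ (j) ∧ (j + 1) ≤ (Q) ∧ (Q) ≤ (k) ∧ (k + 1) ≤ (n) ∧ (Q) ≤ (i + l + 1) ∧ (k + l + 2) ≤ (n) ∧ (0) ≤ (i2) ∧ (i2 + 1) ≤ (Q) ∧ (Q + m + 1) ≤ (n + i2) ∧ (i2) ≤ (m) ∧ (Q) ≤ (i + l + m + 2) ∧ (i + l + m + 3) ≤ (n) ∧ (Q) ≤ (k3) ∧ (k3 + 1) ≤ (n) ∧ (i + m + 2) ≤ (k) ∧ (i) ≤ (i2) ∧ (i2) ≤ (i) ∧ (i + m + 2) ≤ (k3) ∧ (k3) ≤ (i + l + m + 1) ∧ (m + k3 + 2) ≤ (n + i2))
    (a1 : Par W (0) (j) (k - j))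
    (a2 : Par W (Q + j - k) (j) (k - j))
    (s1 : Ant W (0) (i) (i + j))
    (s2 : Ant W (j + 1) (Q) (i + j))
    (b : Par W (i + 1) (i + l + 1) (k - i))
    (c1 : Par W (i2 + 1) (Q) (k + l - i2 + 1))
    (c2 : Par W (k + l + 2) (n) (i2 - k - l - 1))
    (tt : Ant W (i2 - m) (i2) (i + l + i2 + 1))
    (D1 : Par W (Q) (k3) (n + i2 - m - k3 - 1))
    (D2 : Par W (i + l + m + 3) (n) (k3 - i - l - m - 2))
    {L : ℤ} (mx : ∀ a b g, 0 < g → g < n → Par W a b g → b - a ≤ L)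
    (hL : L ≤ (n - j - 3) ∧ L ≤ (n + Q - k - 3) ∧ L ≤ (n - l - 3) ∧ L ≤ (n + i - k - 2))
    (bd0 : Bd W n L (j) (i) (k))
    (n1 : Nd W (j) (i) (k))
    (n2 : Nd W (i + l + 1) (i2) (k + l + 1))
    (n3 : Nd W (n + i2 - m - 1) (i + l + m + 2) (k3))
    (b0 : (2 * l + 3) ≤ (n))
    (b1 : (2 * i + 2 * l + 3 * m + 5) ≤ (n + i2 + k3))
    (b2 : (k + i2 + 1) ≤ (Q + j + m))
    (b3 : (2 * i + j + 1) ≤ (k))
    (b4 : (2 * Q + k + l) ≤ (n + 2 * j + i2))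
    (b5 : (m + k3) ≤ (i + l + 2 * i2 + 1))
    (b6 : (Q + k3) ≤ (i + l + i2 + m + 2))
    (b7 : (Q + k + l + 1) ≤ (n + i2))
    (b8 : (Q + m + 1) ≤ (k3))
    (b9 : (i + l + i2 + m + 3) ≤ (k + k3))
    (b10 : (n) ≤ (2 * i + 2 * l + 2)) : False := by
  have ev := al.ev
  obtain ⟨y0, y1, y2, y3, y4, y5, y6, y7, y8, y9, y10, y11, y12, y13, y14, y15, y16, y17, y18, y19, y20⟩ := id hy
  have n1p := And.intro n1.p1 n1.p2
  have n2p := And.intro n2.p1 n2.p2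
  have n3p := And.intro n3.p1 n3.p2
  by_cases z141 : (k) ≤ (i + 2 * j)
  · exact h8_69 al hy a1 a2 s1 s2 b c1 c2 tt D1 D2 mx hL bd0 n1 n2 n3 (by clear * - b0; omega) (by clear * - b1; omega) (by clear * - b2; omega) (by clear * - b3; omega) (by clear * - b4; omega) (by clear * - b5; omega) (by clear * - b6; omega) (by clear * - b7; omega) (by clear * - b8; omega) (by clear * - b9; omega) (by clear * - b10; omega) (by clear * - z141; omega)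
  · exact h8_70 al hy a1 a2 s1 s2 b c1 c2 tt D1 D2 mx hL bd0 n1 n2 n3 (by clear * - b0; omega) (by clear * - b1; omega) (by clear * - b2; omega) (by clear * - b4; omega) (by clear * - b5; omega) (by clear * - b6; omega) (by clear * - b7; omega) (by clear * - b8; omega) (by clear * - b9; omega) (by clear * - b10; omega) (by clear * - z141; omega)

theorem h8_91p
    {W : ℤ → G} {n Q i j k l i2 m k3 : ℤ} (al : AL W n Q)
    (hy : (0) ≤ (i) ∧ (i) ≤ (j) ∧ (j + 1) ≤ (Q) ∧ (Q) ≤ (k) ∧ (k + 1) ≤ (n) ∧ (Q) ≤ (i + l + 1) ∧ (k + l + 2) ≤ (n) ∧ (0) ≤ (i2) ∧ (i2 + 1) ≤ (Q) ∧ (Q + m + 1) ≤ (n + i2) ∧ (i2) ≤ (m) ∧ (Q) ≤ (i + l + m + 2) ∧ (i + l + m + 3) ≤ (n) ∧ (Q) ≤ (k3) ∧ (k3 + 1) ≤ (n) ∧ (i + m + 2) ≤ (k) ∧ (i) ≤ (i2) ∧ (i2) ≤ (i) ∧ (i + m + 2) ≤ (k3) ∧ (k3) ≤ (i + l + m + 1) ∧ (m + k3 + 2) ≤ (n + i2))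
    (a1 : Par W (0) (j) (k - j))
    (a2 : Par W (Q + j - k) (j) (k - j))
    (s1 : Ant W (0) (i) (i + j))
    (s2 : Ant W (j + 1) (Q) (i + j))
    (b : Par W (i + 1) (i + l + 1) (k - i))
    (c1 : Par W (i2 + 1) (Q) (k + l - i2 + 1))
    (c2 : Par W (k + l + 2) (n) (i2 - k - l - 1))
    (tt : Ant W (i2 - m) (i2) (i + l + i2 + 1))
    (D1 : Par W (Q) (k3) (n + i2 - m - k3 - 1))
    (D2 : Par W (i + l + m + 3) (n) (k3 - i - l - m - 2))
    {L : ℤ} (mx : ∀ a b g, 0 < g → g < n → Par W a b g → b - a ≤ L)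
    (hL : L ≤ (n - j - 3) ∧ L ≤ (n + Q - k - 3) ∧ L ≤ (n - l - 3) ∧ L ≤ (n + i - k - 2))
    (bd0 : Bd W n L (j) (i) (k))
    (n1 : Nd W (j) (i) (k))
    (n2 : Nd W (i + l + 1) (i2) (k + l + 1))
    (n3 : Nd W (n + i2 - m - 1) (i + l + m + 2) (k3))
    (b0 : (2 * Q + k + l) ≤ (n + 2 * j + i2))
    (b1 : (1) ≤ (m))
    (b2 : (i + l + i2 + m + 3) ≤ (Q + k3))
    (b3 : (i + 2 * j + 1) ≤ (k))
    (b4 : (2 * i2 + k3) ≤ (i + l + m + 1))
    (b5 : (2 * k + l + 2) ≤ (n + i2))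
    (b6 : (2 * Q + k3) ≤ (3 * i + 2 * j + l + m + 3))
    (b7 : (n + i2 + k3) ≤ (2 * i + j + k + 2 * l + m + 4))
    (b8 : (n + j + i2) ≤ (i + 2 * l + m + k3 + 3))
    (b9 : (k + l + m + k3 + 2) ≤ (n + 2 * i2)) : False := by
  have ev := al.ev
  obtain ⟨y0, y1, y2, y3, y4, y5, y6, y7, y8, y9, y10, y11, y12, y13, y14, y15, y16, y17, y18, y19, y20⟩ := id hy
  have n1p := And.intro n1.p1 n1.p2
  have n2p := And.intro n2.p1 n2.p2
  have n3p := And.intro n3.p1 n3.p2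
  by_cases z209 : (n + 2 * i2) ≤ (k + l + m + k3 + 2)
  · have kk2651 : (k + l + m + 3) ≤ (n + i2) := by clear * - b0 b1 b2 b3 b7 b8 b9; omega
    have kk2652 : (i2) ≤ (m) := by clear * - y10; omega
    have kk2653 : (k + l + m + k3 + 2) ≤ (n + 2 * i2) := by clear * - b9; omega
    have kk2654 : (n + 2 * i2) ≤ (k + l + m + k3 + 2) := by clear * - z209; omega
    clear * - al c2 n3 kk2651 kk2652 kk2653 kk2654
    exact n3.f0 (qf c2 al 0 (n + i2 - m - 1) (k3) (by omega))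
  · by_cases z210 : (2 * Q + 2 * i + 3 * l + m + 4) ≤ (n + 2 * j + k + k3)
    · by_cases z211 : (2 * j + k + 3 * k3) ≤ (2 * i + 3 * l + 2 * i2 + 3 * m + 4)
      · by_cases v77 : (n + i2) ≤ (i + k + 2 * l + 2)
        · have kk2655 : (2 * i + l + m + 3) ≤ (k + k3) := by clear * - b2 b3 b7 b8 y16 z209 z210; omega
          have kk2656 : (2 * j + k + 3 * k3) ≤ (2 * i + 3 * l + 2 * i2 + 3 * m + 4) := by clear * - z211; omega
          have kk2657 : (m + k3 + 2) ≤ (k + l) := by clear * - b2 v77 z209 z210 z211; omega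
          have kk2658 : (2 * n + 2 * j + 3 * k3) ≤ (4 * i + k + 7 * l + 3 * m + 8) := by clear * - v77 z211; omega
          have kk2659 : (i + m + 1) ≤ (k) := by clear * - b2 b3 b7 b8 v77 y16 z209 z210 z211; omega
          have kk2660 : (i) ≤ (k3) := by clear * - b1 y18; omega
          have kk2661 : (2 * i + 2 * l + m + 3) ≤ (n + k3) := by clear * - b1 b2 b8 v77 z209 z210 z211; omega
          have kk2662 : (0) ≤ (j) := by clear * - b2 b6 b7 b8 y16 z209 z210 z211; omega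
          have kk2663 : (Q + k + l + 1) ≤ (n + i2) := by clear * - b3 b5 b7 b8 z209 z210; omega
          have kk2664 : (Q + k + l + 1) ≤ (n + i + j) := by clear * - b2 b6 b8 z209 z210 z211; omega
          have kk2665 : (n + i2) ≤ (i + k + 2 * l + 2) := by clear * - v77; omega
          have kk2666 : (0) ≤ (i) := by clear * - y17 y7; omega
          have kk2667 : (i2) ≤ (i + j) := by clear * - b2 b6 b7 b8 z209 z210 z211; omega
          have kk2668 : (2 * i + 3 * l + 2 * m + 5) ≤ (n + j + k3) := by clear * - b2 z209 z210; omega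
          have kk2669 : (i + l + i2 + m + 2) ≤ (Q + k3) := by clear * - b2; omega
          have r2670 : (3 * n + j + k + k3 - i - l - m - 2) % 2 = 0 := by clear * - ev n1p n2p n3p; omega
          have r2671 : (k + k3 - 2 * i - l - m - 2) % 2 = 0 := by clear * - ev n1p n2p n3p; omega
          clear * - al s2 b c2 D2 kk2655 kk2656 kk2657 kk2658 kk2659 kk2660 kk2661 kk2662 kk2663 kk2664 kk2665 kk2666 kk2667 kk2668 kk2669 r2670 r2671
          exact midP al (k + k3 - 2 * i - l - m - 2) (3 * n + j + k + k3 - i - l - m - 2) (2 * n + j + k3 - i - 2 * l - m - 2) (n + i + l + m + 3) (n + k + l + 1) (by omega) (fun t h1 h2 => (cE (cE (cI (cE (pb b al 1 t (t + (i - n - k)) (by omega)) (pb c2 al 0 (t + (i - n - k)) (t + (i + l - n - i2 + 1)) (by omega))) (ab s2 al 1 (t + (i + l - n - i2 + 1)) ((2 * n + j + i2 - l - 1) - t) (by omega))) (qf (show Par W (i2 + 1) (n + i2 - k - l - 1) (k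 + k3 - i - i2 - m - 1) from fun t h1 h2 => (cE (sh al (-1) t (t + (-n)) (by omega)) (cE (pb c2 al (-1) (t + (-n)) (t + (k + l - i2 + 1)) (by omega)) (qf D2 al 0 (t + (k + l - i2 + 1)) (t + (k + k3 - i - i2 - m - 1)) (by omega))))) al 0 ((2 * n + j + i2 - l - 1) - t) ((2 * n + j + k + k3 - i - l - m - 2) - t) (by omega))) (sh al 1 ((2 * n + j + k + k3 - i - l - m - 2) - t) ((3 * n + j + k + k3 - i - l - m - 2) - t) (by omega)))) (fun t h1 h2 => (cE (qf (show Par W (i + l + m + 3) (2 * i + 2 * l + m - k3 + 3) (k + k3 - 2 * i - l - m - 2) from fun t h1 h2 => (cE (sh al (-1) t (t + (-n)) (by omega)) (cE (qf D2 al (-1) (t + (-n)) (t + (k3 - i - l - m - 2)) (by omega)) (qf b al 0 (t + (k3 - i - l - m - 2)) (t + (k + k3 - 2 * i - l - m - 2)) (by omega))))) al 1 t (t + (k + k3 - n - 2 * i - l - m - 2)) (by omega)) (sh al 1 (t + (k + k3 - n - 2 * i - l - m - 2)) (t + (k + k3 - 2 * i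 - l - m - 2)) (by omega))))
        · have kk2672 : (2 * i + l + m + 3) ≤ (k + k3) := by clear * - b2 b3 b7 b8 y16 z209 z210; omega
          have kk2673 : (2 * n + 2 * j + 3 * k3) ≤ (4 * i + k + 7 * l + 3 * m + 8) := by clear * - b3 b4 b7 b8 y16 z209; omega
          have kk2674 : (m + k3 + 2) ≤ (k + l) := by clear * - b2 b3 b4 b7 b8 y16 z209 z210; omega
          have kk2675 : (i + m + 1) ≤ (k) := by clear * - b2 b3 b4 b7 b8 y16 z209 z210; omega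
          have kk2676 : (i) ≤ (k3) := by clear * - b3 b7 b8 v77 y18; omega
          have kk2677 : (2 * i + 2 * l + m + 3) ≤ (n + k3) := by clear * - b2 b3 b7 b8 v77 y18 z209 z210 z211; omega
          have kk2678 : (0) ≤ (j) := by clear * - b7 v77 y18; omega
          have kk2679 : (Q + k + l + 1) ≤ (n + i2) := by clear * - b3 b5 b7 b8 z209 z210; omega
          have kk2680 : (Q + k + l + 1) ≤ (n + i + j) := by clear * - b2 b6 b8 z209 z210 z211; omega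
          have kk2681 : (k + 2 * l + 2) ≤ (n + i2) := by clear * - b2 b3 b7 b8 v77 z209 z210; omega
          have kk2682 : (k + 2 * l + 2) ≤ (n + j) := by clear * - b2 b6 b7 b8 v77 z209 z210 z211; omega
          have kk2683 : (i + k + 2 * l + 2) ≤ (n + i2) := by clear * - v77; omega
          have kk2684 : (2 * i + 3 * l + 2 * m + 5) ≤ (n + j + k3) := by clear * - b2 z209 z210; omega
          have kk2685 : (i + l + i2 + m + 2) ≤ (Q + k3) := by clear * - b2; omega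
          have r2686 : (3 * n + j + k + k3 - i - l - m - 2) % 2 = 0 := by clear * - ev n1p n2p n3p; omega
          have r2687 : (k + k3 - 2 * i - l - m - 2) % 2 = 0 := by clear * - ev n1p n2p n3p; omega
          clear * - al s2 b c2 D2 kk2672 kk2673 kk2674 kk2675 kk2676 kk2677 kk2678 kk2679 kk2680 kk2681 kk2682 kk2683 kk2684 kk2685 r2686 r2687
          exact midP al (k + k3 - 2 * i - l - m - 2) (3 * n + j + k + k3 - i - l - m - 2) (2 * n + j + k3 - i - 2 * l - m - 2) (n + i + l + m + 3) (n + k + l + 1) (by omega) (fun t h1 h2 => (cE (cE (cI (cE (pb b al 1 t (t + (i - n - k)) (by omega)) (pb c2 al 0 (t + (i - n - k)) (t + (i + l - n - i2 + 1)) (by omega))) (ab s2 al 1 (t + (i + l - n - i2 + 1)) ((2 * n + j + i2 - l - 1) - t) (by omega))) (qf (show Par W (i2 + 1) (n + i2 - k - l - 1) (k + k3 - i - i2 - m - 1) from fun t h1 h2 => (cE (sh al (-1) t (t + (-n)) (by omega)) (cE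 (pb c2 al (-1) (t + (-n)) (t + (k + l - i2 + 1)) (by omega)) (qf D2 al 0 (t + (k + l - i2 + 1)) (t + (k + k3 - i - i2 - m - 1)) (by omega))))) al 0 ((2 * n + j + i2 - l - 1) - t) ((2 * n + j + k + k3 - i - l - m - 2) - t) (by omega))) (sh al 1 ((2 * n + j + k + k3 - i - l - m - 2) - t) ((3 * n + j + k + k3 - i - l - m - 2) - t) (by omega)))) (fun t h1 h2 => (cE (qf (show Par W (i + l + m + 3) (2 * i + 2 * l + m - k3 + 3) (k + k3 - 2 * i - l - m - 2) from fun t h1 h2 => (cE (sh al (-1) t (t + (-n)) (by omega)) (cE (qf D2 al (-1) (t + (-n)) (t + (k3 - i - l - m - 2)) (by omega)) (qf b al 0 (t + (k3 - i - l - m - 2)) (t + (k + k3 - 2 * i - l - m - 2)) (by omega))))) al 1 t (t + (k + k3 - n - 2 * i - l - m - 2)) (by omega)) (sh al 1 (t + (k + k3 - n - 2 * i - l - m - 2)) (t + (k + k3 - 2 * i - l - m - 2)) (by omega))))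
      · by_cases z212 : (n + 4 * i + l + 2 * i2 + m + 4) ≤ (2 * Q + 3 * k + k3)
        · by_cases v78 : (n + 2 * i + 2 * i2) ≤ (Q + 2 * k + k3)
          · have kk2688 : (k + l + m + k3 + 3) ≤ (n + 2 * i2) := by clear * - z209; omega
            have kk2689 : (k + l + m + k3 + 4) ≤ (n + 2 * i2) := by clear * - z209 ev n1p n2p n3p; omega
            have kk2690 : (2 * Q + k + l + m + 2) ≤ (n + 2 * i2 + k3) := by clear * - b8 z209 z210; omega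
            have kk2691 : (2 * j + 3 * k + m + k3 + 2) ≤ (n + 2 * i + l + 4 * i2) := by clear * - b8 z209; omega
            have kk2692 : (k) ≤ (i + l + m + 2) := by clear * - b3 b5 b7 b8 v78 z209 z210; omega
            have kk2693 : (k + l + 1) ≤ (n) := by clear * - b3 b5 b7 b8 v78 z209 z210 z211; omega
            have kk2694 : (k + l + m + k3 + 3) ≤ (n + Q + i2) := by clear * - b3 b5 b7 b8 v78 z209 z210 z211; omega
            have kk2695 : (i2) ≤ (m + 1) := by clear * - y10; omega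
            have kk2696 : (Q + k + l + 1) ≤ (n + i + j) := by clear * - b3 b5 b7 b8 v78 z209 z210 z211; omega
            have kk2697 : (Q) ≤ (i + l + 1) := by clear * - b4 b7 b8 v78 z209 z210; omega
            have kk2698 : (j + k) ≤ (i + l + m + 2) := by clear * - b3 b5 b7 b8; omega
            have kk2699 : (j + k) ≤ (2 * i + l + m + 2) := by clear * - b1 b8 y17 z209; omega
            have kk2700 : (Q + i + l + i2) ≤ (j + k + k3) := by clear * - b3 b6 y10 y16 z211; omega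
            have kk2701 : (n + 2 * i + 2 * i2) ≤ (Q + 2 * k + k3) := by clear * - v78; omega
            have r2702 : (n + j + i2 + k3 - i - 2 * l - m - 3) % 2 = 0 := by clear * - ev n1p n2p n3p; omega
            have r2703 : (n + 2 * i2 - k - l - m - k3 - 2) % 2 = 0 := by clear * - ev n1p n2p n3p; omega
            clear * - al s2 b c2 D1 D2 kk2688 kk2689 kk2690 kk2691 kk2692 kk2693 kk2694 kk2695 kk2696 kk2697 kk2698 kk2699 kk2700 kk2701 r2702 r2703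
            exact midP al (n + 2 * i2 - k - l - m - k3 - 2) (n + j + i2 + k3 - i - 2 * l - m - 3) (j + k + k3 - i - l - i2) (Q) (n + 2 * i2 - k - l - m - 2) (by omega) (fun t h1 h2 => (cE (cI (pb c2 al 0 t (t + (k + l - i2 + 1)) (by omega)) (ab s2 al 1 (t + (k + l - i2 + 1)) ((n + i + j + i2 - k - l - 1) - t) (by omega))) (qf (show Par W (2 * i + l + m - k + 3) (i + l + 1) (k + k3 - 2 * i - l - m - 2) from fun t h1 h2 => (cE (sh al (-1) t (t + (-n)) (by omega)) (cE (qf b al (-1) (t + (-n)) (t + (k - i)) (by omega)) (qf D2 al 0 (t + (k - i)) (t + (k + k3 - 2 * i - l - m - 2)) (by omega))))) al 0 ((n + i + j + i2 - k - l - 1) - t) ((n + j + i2 + k3 - i - 2 * l - m - 3) - t) (by omega)))) (fun t h1 h2 => (qf (show Par W (Q) (k3) (n + 2 * i2 - k - l - m - k3 - 2) from fun t h1 h2 => (cE (sh al (-1) t (t + (-n)) (by omega)) (cE (qf D1 al (-1) (t + (-n)) (t + (n + i2 - m - k3 - 1))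 (by omega)) (qf c2 al 0 (t + (n + i2 - m - k3 - 1)) (t + (n + 2 * i2 - k - l - m - k3 - 2)) (by omega))))) al 0 t (t + (n + 2 * i2 - k - l - m - k3 - 2)) (by omega)))
          · have kk2704 : (k + l + m + k3 + 3) ≤ (n + 2 * i2) := by clear * - v78 z212; omega
            have kk2705 : (n + 4 * i + l + 2 * i2 + m + 4) ≤ (2 * Q + 3 * k + k3) := by clear * - z212; omega
            have kk2706 : (n + 4 * i + l + 2 * i2 + m + 2) ≤ (3 * k + 3 * k3) := by clear * - b8 v78 z210 z212; omega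
            have kk2707 : (n + 2 * i + 2 * j + m + 2) ≤ (2 * Q + k + l + k3) := by clear * - b8 v78 z212; omega
            have kk2708 : (k) ≤ (i + l + m + 2) := by clear * - b3 b5 b7 b8 v78 z210 z212; omega
            have kk2709 : (k + l + 1) ≤ (n) := by clear * - b3 b5 b7 b8 v78 z210 z211 z212; omega
            have kk2710 : (k + l + m + k3 + 3) ≤ (n + Q + i2) := by clear * - b3 b5 b7 b8 v78 z210 z211 z212; omega
            have kk2711 : (i2) ≤ (m + 1) := by clear * - y10; omega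
            have kk2712 : (Q + k + l + 1) ≤ (n + i + j) := by clear * - b3 b5 b7 b8 v78 z210 z211 z212; omega
            have kk2713 : (Q) ≤ (i + l + 1) := by clear * - b4 b7 b8 v78 z210 z212; omega
            have kk2714 : (j + k) ≤ (i + l + m + 2) := by clear * - b3 b5 b7 b8; omega
            have kk2715 : (j + k) ≤ (2 * i + l + m + 2) := by clear * - b1 b2 b3 b7 b8 v78; omega
            have kk2716 : (Q + 2 * k + k3) ≤ (n + 2 * i + 2 * i2) := by clear * - v78; omega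
            have kk2717 : (2 * Q + k + l) ≤ (n + i + j + i2) := by clear * - b3 b7 v78 y10 y16 z211; omega
            have r2718 : (n + j + i2 + k3 - i - 2 * l - m - 3) % 2 = 0 := by clear * - ev n1p n2p n3p; omega
            have r2719 : (n + 2 * i2 - k - l - m - k3 - 2) % 2 = 0 := by clear * - ev n1p n2p n3p; omega
            clear * - al s2 b c2 D1 D2 kk2704 kk2705 kk2706 kk2707 kk2708 kk2709 kk2710 kk2711 kk2712 kk2713 kk2714 kk2715 kk2716 kk2717 r2718 r2719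
            exact midP al (n + 2 * i2 - k - l - m - k3 - 2) (n + j + i2 + k3 - i - 2 * l - m - 3) (n + i + j + i2 - Q - k - l) (Q) (n + 2 * i2 - k - l - m - 2) (by omega) (fun t h1 h2 => (cE (cI (pb c2 al 0 t (t + (k + l - i2 + 1)) (by omega)) (ab s2 al 1 (t + (k + l - i2 + 1)) ((n + i + j + i2 - k - l - 1) - t) (by omega))) (qf (show Par W (2 * i + l + m - k + 3) (i + l + 1) (k + k3 - 2 * i - l - m - 2) from fun t h1 h2 => (cE (sh al (-1) t (t + (-n)) (by omega)) (cE (qf b al (-1) (t + (-n)) (t + (k - i)) (by omega)) (qf D2 al 0 (t + (k - i)) (t + (k + k3 - 2 * i - l - m - 2)) (by omega))))) al 0 ((n + i + j + i2 - k - l - 1) - t) ((n + j + i2 + k3 - i - 2 * l - m - 3) - t) (by omega)))) (fun t h1 h2 => (qf (show Par W (Q) (k3) (n + 2 * i2 - k - l - m - k3 - 2) from fun t h1 h2 => (cE (sh al (-1) t (t + (-n)) (by omega)) (cE (qf D1 al (-1) (t + (-n)) (t + (n + i2 - m - k3 -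 1)) (by omega)) (qf c2 al 0 (t + (n + i2 - m - k3 - 1)) (t + (n + 2 * i2 - k - l - m - k3 - 2)) (by omega))))) al 0 t (t + (n + 2 * i2 - k - l - m - k3 - 2)) (by omega)))
        · by_cases z213 : (i + l + i2 + 2 * m + 4) ≤ (2 * k3)
          · by_cases v79 : (2 * i + l + 2 * m + 3) ≤ (k + k3)
            · have kk2720 : (j + 1) ≤ (k) := by clear * - b1 b3 b7 z209 z213; omega
              have kk2721 : (i + l + i2 + 2 * m + 4) ≤ (2 * k3) := by clear * - z213; omega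
              have kk2722 : (2 * k3) ≤ (i + j + l + i2 + 2 * m + 4) := by clear * - b1 b7 y10 y16 z209; omega
              have kk2723 : (2 * k3) ≤ (i + j + l + 2 * m + 3) := by clear * - b7 y10 y16 z209; omega
              have kk2724 : (i + 2 * k + 2 * l + 2 * m + 5) ≤ (n + 2 * k3) := by clear * - b5 z213; omega
              have kk2725 : (i + m + 1) ≤ (k) := by clear * - b1 b4 b7 b8 v79 z209; omega
              have kk2726 : (2 * i + l + 2 * m + 3) ≤ (2 * k3) := by clear * - y16 z213; omega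
              have kk2727 : (2 * i + l + 2 * m + 3) ≤ (k + k3) := by clear * - v79; omega
              have kk2728 : (k3) ≤ (i + l + m + 2) := by clear * - b1 b4 b7 b8 v79 z209; omega
              have kk2729 : (n + 2 * k3) ≤ (2 * i + k + 3 * l + 2 * m + 5) := by clear * - b3 b5 b7 y16; omega
              have r2730 : (k - j) % 2 = 0 := by clear * - ev n1p n2p n3p; omega
              have r2731 : (2 * k3 - i - l - i2 - 2 * m - 3) % 2 = 0 := by clear * - ev n1p n2p n3p; omega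
              clear * - al a1 b c2 D2 n1 kk2720 kk2721 kk2722 kk2723 kk2724 kk2725 kk2726 kk2727 kk2728 kk2729 r2730 r2731
              exact n1.f0 (rEE (sh al (-1) (j) (j - n) (by omega)) (sh al (-1) (k) (k - n) (by omega)) (rotR (k - j) (2 * k3 - i - l - i2 - 2 * m - 3) (j - n) (k - n) (by omega) (fun t h1 h2 => (cE (qf a1 al (-1) t (t + (n + k - j)) (by omega)) (sh al (-1) (t + (n + k - j)) (t + (k - j)) (by omega)))) (fun t h1 h2 => (cE (cE (cE (cE (pb c2 al (-1) t (t + (n + k + l - i2 + 1)) (by omega)) (qf D2 al 0 (t + (n + k + l - i2 + 1)) (t + (n + k + k3 - i - i2 - m - 1)) (by omega))) (qf D2 al 0 (t + (n + k + k3 - i - i2 - m - 1)) (t + (n + k + 2 * k3 - 2 * i - l - i2 - 2 * m - 3)) (by omega))) (pb b al 0 (t + (n + k + 2 * k3 - 2 * i - l - i2 - 2 * m - 3)) (t + (n + 2 * k3 - i - l - i2 - 2 * m - 3)) (by omega))) (sh al (-1) (t + (n + 2 * k3 - i - l - i2 - 2 * m -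 3)) (t + (2 * k3 - i - l - i2 - 2 * m - 3)) (by omega))))))
            · have kk2732 : (j + 1) ≤ (k) := by clear * - b1 b3 b7 z209 z213; omega
              have kk2733 : (i + l + i2 + 2 * m + 4) ≤ (2 * k3) := by clear * - z213; omega
              have kk2734 : (2 * k3) ≤ (i + j + l + i2 + 2 * m + 4) := by clear * - b3 b4 b7 v79 y16 z209 z211 z213; omega
              have kk2735 : (i + k3) ≤ (j + k) := by clear * - b3 b4 b7 v79 y16 z209 z211; omega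
              have kk2736 : (i + 2 * k + 2 * l + 2 * m + 5) ≤ (n + 2 * k3) := by clear * - b5 z213; omega
              have kk2737 : (k + k3) ≤ (2 * i + l + 2 * m + 3) := by clear * - v79; omega
              have kk2738 : (2 * k3) ≤ (i + k + l + m + 2) := by clear * - b3 b4 b7 v79 y16 z209 z211 z213; omega
              have kk2739 : (k) ≤ (k3) := by clear * - v79 y16 z213; omega
              have kk2740 : (k3) ≤ (i + l + m + 2) := by clear * - y19; omega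
              have kk2741 : (n + 2 * k3) ≤ (2 * i + k + 3 * l + 2 * m + 5) := by clear * - b3 b5 b7 y16; omega
              have r2742 : (k - j) % 2 = 0 := by clear * - ev n1p n2p n3p; omega
              have r2743 : (2 * k3 - i - l - i2 - 2 * m - 3) % 2 = 0 := by clear * - ev n1p n2p n3p; omega
              clear * - al a1 b c2 D2 n1 kk2732 kk2733 kk2734 kk2735 kk2736 kk2737 kk2738 kk2739 kk2740 kk2741 r2742 r2743
              exact n1.f0 (rEE (sh al (-1) (j) (j - n) (by omega)) (sh al (-1) (k) (k - n) (by omega)) (rotR (k - j) (2 * k3 - i - l - i2 - 2 * m - 3) (j - n) (k - n) (by omega) (fun t h1 h2 => (cE (qf a1 al (-1) t (t + (n + k - j)) (by omega)) (sh al (-1) (t + (n + k - j)) (t + (k - j)) (by omega)))) (fun t h1 h2 => (cE (cE (cE (cE (pb c2 al (-1) t (t + (n + k + l - i2 + 1)) (by omega)) (qf D2 al 0 (t + (n + k + l - i2 + 1)) (t + (n + k + k3 - i - i2 - m - 1))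 (by omega))) (qf D2 al 0 (t + (n + k + k3 - i - i2 - m - 1)) (t + (n + k + 2 * k3 - 2 * i - l - i2 - 2 * m - 3)) (by omega))) (pb b al 0 (t + (n + k + 2 * k3 - 2 * i - l - i2 - 2 * m - 3)) (t + (n + 2 * k3 - i - l - i2 - 2 * m - 3)) (by omega))) (sh al (-1) (t + (n + 2 * k3 - i - l - i2 - 2 * m - 3)) (t + (2 * k3 - i - l - i2 - 2 * m - 3)) (by omega))))))
          · have kk2744 : (2 * k) ≤ (2 * i + j + l + i2 + 1) := by clear * - b2 b7 y16 z212; omega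
            have kk2745 : (2 * i + j + l + 2) ≤ (2 * k + i2) := by clear * - b3 b5 b7 b8 y16 z209 z211 z213; omega
            have kk2746 : (i2) ≤ (m) := by clear * - y10; omega
            have kk2747 : (i + i2 + 1) ≤ (k) := by clear * - b3 b4 y18 z211 z213; omega
            have kk2748 : (i2) ≤ (j) := by clear * - b4 b8 y16 z209 z211 z213; omega
            have kk2749 : (k) ≤ (i + l + 1) := by clear * - b4 b8 y16 z209 z211 z213; omega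
            have r2750 : (2 * i + l + i2 - j + 1) % 2 = 0 := by clear * - ev n1p n2p n3p; omega
            clear * - al a1 b tt kk2744 kk2745 kk2746 kk2747 kk2748 kk2749 r2750
            obtain ⟨t, ht⟩ : ∃ t, 2 * t = (2 * i + l + i2 - j + 1) := ⟨(2 * i + l + i2 - j + 1) / 2, by omega⟩
            exact al.ninv t (cE (cI (pb a1 al 0 t (t + (j - k)) (by omega)) (qa tt al 0 (t + (j - k)) ((i + k + l + i2 - j + 1) - t) (by omega))) (pb b al 0 ((i + k + l + i2 - j + 1) - t) t (by omega)))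
    · by_cases z214 : (n + i + j + i2 + 1) ≤ (2 * Q + k + l)
      · have kk2751 : (n + i + j + i2 + 1) ≤ (2 * Q + k + l) := by clear * - z214; omega
        have kk2752 : (n + i + j + i2) ≤ (2 * Q + k + l) := by clear * - z214; omega
        have kk2753 : (Q + k + l + 1) ≤ (n + i + i2) := by clear * - b1 y13 y17 z209; omega
        have kk2754 : (Q + k + l + 1) ≤ (n + i + j) := by clear * - b0 b1 b2 b3 b6 z209 z210; omega
        have r2755 : (i + j + i2 - n - k - l - 1) % 2 = 0 := by clear * - ev n1p n2p n3p; omega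
        clear * - al s2 c1 kk2751 kk2752 kk2753 kk2754 r2755
        obtain ⟨t, ht⟩ : ∃ t, 2 * t = (i + j + i2 - n - k - l - 1) := ⟨(i + j + i2 - n - k - l - 1) / 2, by omega⟩
        exact al.ninv t (cE (cE (qa s2 al (-1) t ((i + j - n) - t) (by omega)) (pb c1 al (-1) ((i + j - n) - t) ((i + j + i2 - k - l - 1) - t) (by omega))) (sh al (-1) ((i + j + i2 - k - l - 1) - t) t (by omega)))
      · by_cases z215 : (Q + k) ≤ (2 * i + l + m + 3)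
        · have kk2756 : (k + l + m + 3) ≤ (n + i2) := by clear * - b0 b1 b2 b3 b7 b8 z209; omega
          have kk2757 : (i2) ≤ (m) := by clear * - y10; omega
          have kk2758 : (k + l + m + k3 + 3) ≤ (n + 2 * i2) := by clear * - z209; omega
          have kk2759 : (2 * i + l + m + 3) ≤ (k + k3) := by clear * - b2 b3 b7 y16 z214; omega
          have kk2760 : (Q + k) ≤ (2 * i + l + m + 3) := by clear * - z215; omega
          have kk2761 : (n + i + 2 * i2) ≤ (2 * k + l + k3) := by clear * - b2 b3 b4 b7 y16 z214 z215; omega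
          have kk2762 : (k + l + m + k3 + 3) ≤ (n + Q + i2) := by clear * - b0 b1 b2 b3 b7 z209 z210; omega
          have kk2763 : (i2) ≤ (m + 1) := by clear * - y10; omega
          have kk2764 : (k) ≤ (i + l + m + 2) := by clear * - b0 b1 b2 b3 b7 b8 z209 z210; omega
          have kk2765 : (k + l + 1) ≤ (n) := by clear * - b0 b1 b2 b3 b7 z209 z210 z215; omega
          have r2766 : (n + 2 * i2 - k - l - m - k3 - 2) % 2 = 0 := by clear * - ev n1p n2p n3p; omega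
          have r2767 : (k + k3 - 2 * i - l - m - 2) % 2 = 0 := by clear * - ev n1p n2p n3p; omega
          clear * - al b c2 D1 D2 n3 kk2756 kk2757 kk2758 kk2759 kk2760 kk2761 kk2762 kk2763 kk2764 kk2765 r2766 r2767
          exact n3.f0 (rEE (cE (qf c2 al 0 (n + i2 - m - 1) (n + 2 * i2 - k - l - m - 2) (by omega)) (sh al 1 (n + 2 * i2 - k - l - m - 2) (2 * n + 2 * i2 - k - l - m - 2) (by omega))) (sh al 1 (k3) (n + k3) (by omega)) (Eq.symm (rotR (n + 2 * i2 - k - l - m - k3 - 2) (k + k3 - 2 * i - l - m - 2) (n + k3) (2 * n + 2 * i2 - k - l - m - 2) (by omega) (fun t h1 h2 => (cE (qf (show Par W (Q) (k3) (n + 2 * i2 - k - l - m - k3 - 2) from fun t h1 h2 => (cE (sh al (-1) t (t + (-n)) (by omega)) (cE (qf D1 al (-1) (t + (-n)) (t + (n + i2 - m - k3 - 1)) (by omega)) (qf c2 al 0 (t + (n + i2 - m - k3 - 1)) (t + (n + 2 * i2 - k - l - m - k3 - 2)) (by omega))))) al 1 t (t + (2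 * i2 - k - l - m - k3 - 2)) (by omega)) (sh al 1 (t + (2 * i2 - k - l - m - k3 - 2)) (t + (n + 2 * i2 - k - l - m - k3 - 2)) (by omega)))) (fun t h1 h2 => (cE (qf (show Par W (2 * i + l + m - k + 3) (i + l + 1) (k + k3 - 2 * i - l - m - 2) from fun t h1 h2 => (cE (sh al (-1) t (t + (-n)) (by omega)) (cE (qf b al (-1) (t + (-n)) (t + (k - i)) (by omega)) (qf D2 al 0 (t + (k - i)) (t + (k + k3 - 2 * i - l - m - 2)) (by omega))))) al 1 t (t + (k + k3 - n - 2 * i - l - m - 2)) (by omega)) (sh al 1 (t + (k + k3 - n - 2 * i - l - m - 2)) (t + (k + k3 - 2 * i - l - m - 2)) (by omega)))))))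
        · by_cases z216 : (k + k3) ≤ (i + j + l + m + 2)
          · by_cases v80 : (j + k + k3) ≤ (i + l + i2 + 2 * m + 3)
            · have kk2768 : (2 * i + l + m + 3) ≤ (k + k3) := by clear * - b8 z214 z215; omega
              have kk2769 : (2 * i + l + 2 * i2 + 3 * m + 6) ≤ (2 * Q + k + k3) := by clear * - b2 b4 b7 b8 z210 z214 z215; omega
              have kk2770 : (4 * i + 5 * l + 5 * m + 12) ≤ (2 * n + 2 * j + k + k3) := by clear * - b2 b4 b7 b8 z210 z214 z215; omega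
              have kk2771 : (m + k3 + 2) ≤ (k + l) := by clear * - b4 b7 b8 z210 z214 z215; omega
              have kk2772 : (i + m + 1) ≤ (k) := by clear * - b4 b7 b8 z210 z214 z215; omega
              have kk2773 : (k) ≤ (i + l + m + 2) := by clear * - b3 b5 b7 b8 z214 z215; omega
              have kk2774 : (k + l + 1) ≤ (n) := by clear * - b2 b4 b7 b8 v80 z210 z214 z215; omega
              have kk2775 : (k + k3) ≤ (2 * i + l + 2 * m + 3) := by clear * - b2 b4 b7 b8 v80 z210 z214 z215; omega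
              have kk2776 : (j + k + k3) ≤ (2 * i + l + i2 + 2 * m + 3) := by clear * - b2 b3 b7 b8 v80 z210 z214 z215; omega
              have kk2777 : (j + k + k3) ≤ (i + l + i2 + 2 * m + 3) := by clear * - v80; omega
              have kk2778 : (Q + k + l + 1) ≤ (n + i2) := by clear * - b3 b5 b7 b8 z214 z215; omega
              have kk2779 : (j + k3) ≤ (l + i2 + m + 2) := by clear * - b4 b7 b8 v80 z210 z214 z215; omega
              have kk2780 : (Q + k + l + 1) ≤ (n + i + j) := by clear * - b2 b4 b7 b8 v80 z210 z214 z215; omega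
              have kk2781 : (n + j) ≤ (k + 2 * l + m + 3) := by clear * - b3 b7 b8 y16; omega
              have kk2782 : (2 * i + l + m + 2) ≤ (k + k3) := by clear * - b8 z214 z215; omega
              have r2783 : (j + 2 * k3 - n - i - 2 * l - 2 * m - 4) % 2 = 0 := by clear * - ev n1p n2p n3p; omega
              have r2784 : (k + k3 - 2 * i - l - m - 2) % 2 = 0 := by clear * - ev n1p n2p n3p; omega
              clear * - al s2 b c2 D2 kk2768 kk2769 kk2770 kk2771 kk2772 kk2773 kk2774 kk2775 kk2776 kk2777 kk2778 kk2779 kk2780 kk2781 kk2782 r2783 r2784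
              exact midP al (k + k3 - 2 * i - l - m - 2) (j + 2 * k3 - n - i - 2 * l - 2 * m - 4) (k3 - n + 1) (2 * i + l + m - n - k + 3) (k + k3 - n - i - m - 1) (by omega) (fun t h1 h2 => (cE (cE (cI (cE (pb D2 al (-1) t (t + (n + i + l + m - k3 + 2)) (by omega)) (pb (show Par W (i2 + 1) (n + i2 - k - l - 1) (k + k3 - i - i2 - m - 1) from fun t h1 h2 => (cE (sh al (-1) t (t + (-n)) (by omega)) (cE (pb c2 al (-1) (t + (-n)) (t + (k + l - i2 + 1)) (by omega)) (qf D2 al 0 (t + (k + l - i2 + 1)) (t + (k + k3 - i - i2 - m - 1)) (by omega))))) al 0 (t + (n + i + l + m - k3 + 2)) (t + (n + 2 * i + l + i2 + 2 * m - k - 2 * k3 + 3)) (by omega))) (qa s2 al 0 (t + (n + 2 * i + l + i2 + 2 * m - k - 2 * k3 + 3)) ((j + k + 2 * k3 - n - i - l - i2 - 2 * m - 3) - t) (by omega))) (qf c2 al (-1) ((j + k + 2 * k3 - n - i - l - i2 - 2 * m - 3) - t) ((j + 2 * k3 - i - 2 * l - 2 * m - 4) - t)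 (by omega))) (sh al (-1) ((j + 2 * k3 - i - 2 * l - 2 * m - 4) - t) ((j + 2 * k3 - n - i - 2 * l - 2 * m - 4) - t) (by omega)))) (fun t h1 h2 => (cE (qf (show Par W (2 * i + l + m - k + 3) (i + l + 1) (k + k3 - 2 * i - l - m - 2) from fun t h1 h2 => (cE (sh al (-1) t (t + (-n)) (by omega)) (cE (qf b al (-1) (t + (-n)) (t + (k - i)) (by omega)) (qf D2 al 0 (t + (k - i)) (t + (k + k3 - 2 * i - l - m - 2)) (by omega))))) al (-1) t (t + (n + k + k3 - 2 * i - l - m - 2)) (by omega)) (sh al (-1) (t + (n + k + k3 - 2 * i - l - m - 2)) (t + (k + k3 - 2 * i - l - m - 2)) (by omega))))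
            · have kk2785 : (2 * i + l + m + 3) ≤ (k + k3) := by clear * - b8 z214 z215; omega
              have kk2786 : (2 * j + k + k3) ≤ (2 * Q + l + m) := by clear * - b1 b3 b4 b5 z210 z215; omega
              have kk2787 : (2 * i + k + 3 * l + m + k3 + 6) ≤ (2 * n + 2 * i2) := by clear * - b3 b5 b7 z214 z215; omega
              have kk2788 : (2 * j + k + 3 * k3) ≤ (2 * i + 3 * l + 2 * i2 + 3 * m + 4) := by clear * - b3 b7 y10 y16 z210 z214 z215; omega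
              have kk2789 : (i + m + 1) ≤ (k) := by clear * - b4 b7 b8 z210 z214 z215; omega
              have kk2790 : (k) ≤ (i + l + m + 2) := by clear * - b3 b5 b7 b8 z214 z215; omega
              have kk2791 : (k + l + 1) ≤ (n) := by clear * - b2 b3 b5 b7 b8 z214 z215; omega
              have kk2792 : (i + l + i2 + 2 * m + 3) ≤ (j + k + k3) := by clear * - v80; omega
              have kk2793 : (i2) ≤ (j) := by clear * - b2 b4 b7 b8 z214 z215 z216; omega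
              have kk2794 : (0) ≤ (i) := by clear * - y17 y7; omega
              have kk2795 : (Q + k + l + 1) ≤ (n + i2) := by clear * - b3 b5 b7 b8 z214 z215; omega
              have kk2796 : (j + k3) ≤ (l + i2 + m + 2) := by clear * - b3 b5 b7 y16; omega
              have kk2797 : (Q + k + l + 1) ≤ (n + i + j) := by clear * - b2 b3 b5 b7 b8 z214 z215; omega
              have kk2798 : (n + i + i2 + m) ≤ (2 * k + l + k3) := by clear * - b3 b7 b8 v80 y16; omega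
              have kk2799 : (3 * i + 2 * l + i2 + 3 * m + 5) ≤ (j + 2 * k + 2 * k3) := by clear * - b8 v80 z214 z215; omega
              have r2800 : (j + 2 * k3 - n - i - 2 * l - 2 * m - 4) % 2 = 0 := by clear * - ev n1p n2p n3p; omega
              have r2801 : (k + k3 - 2 * i - l - m - 2) % 2 = 0 := by clear * - ev n1p n2p n3p; omega
              clear * - al s2 b c2 D2 kk2785 kk2786 kk2787 kk2788 kk2789 kk2790 kk2791 kk2792 kk2793 kk2794 kk2795 kk2796 kk2797 kk2798 kk2799 r2800 r2801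
              exact midP al (k + k3 - 2 * i - l - m - 2) (j + 2 * k3 - n - i - 2 * l - 2 * m - 4) (j + k + 2 * k3 - n - i - l - i2 - 2 * m - 2) (2 * i + l + m - n - k + 3) (k + k3 - n - i - m - 1) (by omega) (fun t h1 h2 => (cE (cE (cI (cE (pb D2 al (-1) t (t + (n + i + l + m - k3 + 2)) (by omega)) (pb (show Par W (i2 + 1) (n + i2 - k - l - 1) (k + k3 - i - i2 - m - 1) from fun t h1 h2 => (cE (sh al (-1) t (t + (-n)) (by omega)) (cE (pb c2 al (-1) (t + (-n)) (t + (k + l - i2 + 1)) (by omega)) (qf D2 al 0 (t + (k + l - i2 + 1)) (t + (k + k3 - i - i2 - m - 1)) (by omega))))) al 0 (t + (n + i + l + m - k3 + 2)) (t + (n + 2 * i + l + i2 + 2 * m - k - 2 * k3 + 3)) (by omega))) (qa s2 al 0 (t + (n + 2 * i + l + i2 + 2 * m - k - 2 * k3 + 3)) ((j + k + 2 * k3 - n - i - l - i2 - 2 * m - 3) - t) (by omega))) (qf c2 al (-1) ((j + k + 2 * k3 - n - i - l - i2 - 2 * m - 3) - t) ((j + 2 *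 k3 - i - 2 * l - 2 * m - 4) - t) (by omega))) (sh al (-1) ((j + 2 * k3 - i - 2 * l - 2 * m - 4) - t) ((j + 2 * k3 - n - i - 2 * l - 2 * m - 4) - t) (by omega)))) (fun t h1 h2 => (cE (qf (show Par W (2 * i + l + m - k + 3) (i + l + 1) (k + k3 - 2 * i - l - m - 2) from fun t h1 h2 => (cE (sh al (-1) t (t + (-n)) (by omega)) (cE (qf b al (-1) (t + (-n)) (t + (k - i)) (by omega)) (qf D2 al 0 (t + (k - i)) (t + (k + k3 - 2 * i - l - m - 2)) (by omega))))) al (-1) t (t + (n + k + k3 - 2 * i - l - m - 2)) (by omega)) (sh al (-1) (t + (n + k + k3 - 2 * i - l - m - 2)) (t + (k + k3 - 2 * i - l - m - 2)) (by omega))))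
          · by_cases v81 : (2 * i + j + l + 2) ≤ (2 * k)
            · have kk2802 : (2 * k) ≤ (2 * i + j + l + i2 + 1) := by clear * - b2 b7 y16 z210 z214; omega
              have kk2803 : (2 * k + i2) ≤ (2 * i + j + l + 2 * m + 2) := by clear * - b2 b7 y10 y16 z210 z214; omega
              have kk2804 : (i + j + 1) ≤ (k) := by clear * - b4 b5 b7 b8 v81 z210 z214 z215; omega
              have kk2805 : (2 * i + j + l + 2) ≤ (2 * k) := by clear * - v81; omega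
              have kk2806 : (2 * i + l + m + 2) ≤ (2 * k) := by clear * - b3 b7 b8 z214 z215; omega
              have kk2807 : (i + m + 1) ≤ (k) := by clear * - b4 b7 b8 z210 z214 z215; omega
              have r2808 : (2 * i + j + l + i2 - 2 * k + 1) % 2 = 0 := by clear * - ev n1p n2p n3p; omega
              clear * - al a1 b tt kk2802 kk2803 kk2804 kk2805 kk2806 kk2807 r2808
              obtain ⟨t, ht⟩ : ∃ t, 2 * t = (2 * i + j + l + i2 - 2 * k + 1) := ⟨(2 * i + j + l + i2 - 2 * k + 1) / 2, by omega⟩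
              exact al.ninv t (cI (cE (qf a1 al 0 t (t + (k - j)) (by omega)) (qf b al 0 (t + (k - j)) (t + (2 * k - i - j)) (by omega))) (ab tt al 0 (t + (2 * k - i - j)) t (by omega)))
            · have kk2809 : (2 * i + j + l + 3) ≤ (2 * k + i2) := by clear * - b7 y10 y16 z210 z214 z215 z216; omega
              have kk2810 : (2 * k + i2) ≤ (2 * i + j + l + 2 * m + 2) := by clear * - b1 v81 y10; omega
              have kk2811 : (2 * k) ≤ (2 * i + j + l + 2) := by clear * - v81; omega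
              have kk2812 : (k) ≤ (i + l + 1) := by clear * - b4 b5 b7 b8 v81 z210 z214 z215; omega
              have kk2813 : (2 * i + l + m + 2) ≤ (2 * k) := by clear * - b3 b7 b8 z214 z215; omega
              have kk2814 : (i + m + 1) ≤ (k) := by clear * - b4 b7 b8 z210 z214 z215; omega
              have r2815 : (2 * i + j + l + i2 - 2 * k + 1) % 2 = 0 := by clear * - ev n1p n2p n3p; omega
              clear * - al a1 b tt kk2809 kk2810 kk2811 kk2812 kk2813 kk2814 r2815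
              obtain ⟨t, ht⟩ : ∃ t, 2 * t = (2 * i + j + l + i2 - 2 * k + 1) := ⟨(2 * i + j + l + i2 - 2 * k + 1) / 2, by omega⟩
              exact al.ninv t (cI (cE (qf a1 al 0 t (t + (k - j)) (by omega)) (qf b al 0 (t + (k - j)) (t + (2 * k - i - j)) (by omega))) (ab tt al 0 (t + (2 * k - i - j)) t (by omega)))

theorem h8_81p
    (h8_82 : ∀ {W : ℤ → G} {n Q i j k l i2 m k3 : ℤ} (al : AL W n Q) (hy : (0) ≤ (i) ∧ (i) ≤ (j) ∧ (j + 1) ≤ (Q) ∧ (Q) ≤ (k) ∧ (k + 1) ≤ (n) ∧ (Q) ≤ (i + l + 1) ∧ (k + l + 2) ≤ (n) ∧ (0) ≤ (i2) ∧ (i2 + 1) ≤ (Q) ∧ (Q + m + 1) ≤ (n + i2) ∧ (i2) ≤ (m) ∧ (Q) ≤ (i + l + m + 2) ∧ (i + l + m + 3) ≤ (n) ∧ (Q) ≤ (k3) ∧ (k3 + 1) ≤ (n) ∧ (i + m + 2) ≤ (k) ∧ (i) ≤ (i2) ∧ (i2) ≤ (i) ∧ (i + m + 2) ≤ (k3) ∧ (k3) ≤ (i + l + m + 1) ∧ (m + k3 + 2) ≤ (n + i2)) (a1 : Par W (0) (j) (k - j)) (a2 : Par W (Q + j - k) (j) (k - j)) (s1 : Ant W (0) (i) (i + j)) (s2 : Ant W (j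 + 1) (Q) (i + j)) (b : Par W (i + 1) (i + l + 1) (k - i)) (c1 : Par W (i2 + 1) (Q) (k + l - i2 + 1)) (c2 : Par W (k + l + 2) (n) (i2 - k - l - 1)) (tt : Ant W (i2 - m) (i2) (i + l + i2 + 1)) (D1 : Par W (Q) (k3) (n + i2 - m - k3 - 1)) (D2 : Par W (i + l + m + 3) (n) (k3 - i - l - m - 2)) {L : ℤ} (mx : ∀ a b g, 0 < g → g < n → Par W a b g → b - a ≤ L) (hL : L ≤ (n - j - 3) ∧ L ≤ (n + Q - k - 3) ∧ L ≤ (n - l - 3) ∧ L ≤ (n + i - k - 2)) (bd0 : Bd W n L (j) (i) (k)) (n1 : Nd W (j) (i) (k)) (n2 : Nd W (i + l + 1) (i2) (k + l + 1)) (n3 : Nd W (n + i2 - m - 1) (i + l + m + 2) (k3)) (b0 : (2 * l + 3) ≤ (n)) (b1 : (k + i2 + 1) ≤ (Q + j + m)) (b2 : (2 * Q + k + l) ≤ (n + 2 * j + i2)) (b3 : (m + k3) ≤ (i + l + 2 * i2 + 1)) (b4 : (1) ≤ (m)) (b5 : (i + l + i2 + m + 3) ≤ (Q + k3)) (b6 : (2 * k + l + 1) ≤ (n + j + i2)) (b7 : (n + i2) ≤ (i + k + 2 * l + m + 2)) (b8 : (i + 2 * j + 1) ≤ (k)),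 False)
    {W : ℤ → G} {n Q i j k l i2 m k3 : ℤ} (al : AL W n Q)
    (hy : (0) ≤ (i) ∧ (i) ≤ (j) ∧ (j + 1) ≤ (Q) ∧ (Q) ≤ (k) ∧ (k + 1) ≤ (n) ∧ (Q) ≤ (i + l + 1) ∧ (k + l + 2) ≤ (n) ∧ (0) ≤ (i2) ∧ (i2 + 1) ≤ (Q) ∧ (Q + m + 1) ≤ (n + i2) ∧ (i2) ≤ (m) ∧ (Q) ≤ (i + l + m + 2) ∧ (i + l + m + 3) ≤ (n) ∧ (Q) ≤ (k3) ∧ (k3 + 1) ≤ (n) ∧ (i + m + 2) ≤ (k) ∧ (i) ≤ (i2) ∧ (i2) ≤ (i) ∧ (i + m + 2) ≤ (k3) ∧ (k3) ≤ (i + l + m + 1) ∧ (m + k3 + 2) ≤ (n + i2))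
    (a1 : Par W (0) (j) (k - j))
    (a2 : Par W (Q + j - k) (j) (k - j))
    (s1 : Ant W (0) (i) (i + j))
    (s2 : Ant W (j + 1) (Q) (i + j))
    (b : Par W (i + 1) (i + l + 1) (k - i))
    (c1 : Par W (i2 + 1) (Q) (k + l - i2 + 1))
    (c2 : Par W (k + l + 2) (n) (i2 - k - l - 1))
    (tt : Ant W (i2 - m) (i2) (i + l + i2 + 1))
    (D1 : Par W (Q) (k3) (n + i2 - m - k3 - 1))
    (D2 : Par W (i + l + m + 3) (n) (k3 - i - l - m - 2))
    {L : ℤ} (mx : ∀ a b g, 0 < g → g < n → Par W a b g → b - a ≤ L)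
    (hL : L ≤ (n - j - 3) ∧ L ≤ (n + Q - k - 3) ∧ L ≤ (n - l - 3) ∧ L ≤ (n + i - k - 2))
    (bd0 : Bd W n L (j) (i) (k))
    (n1 : Nd W (j) (i) (k))
    (n2 : Nd W (i + l + 1) (i2) (k + l + 1))
    (n3 : Nd W (n + i2 - m - 1) (i + l + m + 2) (k3))
    (b0 : (2 * l + 3) ≤ (n))
    (b1 : (2 * i + 2 * l + 3 * m + 5) ≤ (n + i2 + k3))
    (b2 : (k + i2 + 1) ≤ (Q + j + m))
    (b3 : (2 * i + j + 1) ≤ (k))
    (b4 : (2 * Q + k + l) ≤ (n + 2 * j + i2))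
    (b5 : (m + k3) ≤ (i + l + 2 * i2 + 1))
    (b6 : (1) ≤ (m))
    (b7 : (i + l + i2 + m + 3) ≤ (Q + k3))
    (b8 : (2 * k + l + 1) ≤ (n + j + i2))
    (b9 : (n + i2) ≤ (i + k + 2 * l + m + 2))
    (b10 : (2 * j + 2) ≤ (i + k)) : False := by
  have ev := al.ev
  obtain ⟨y0, y1, y2, y3, y4, y5, y6, y7, y8, y9, y10, y11, y12, y13, y14, y15, y16, y17, y18, y19, y20⟩ := id hy
  have n1p := And.intro n1.p1 n1.p2
  have n2p := And.intro n2.p1 n2.p2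
  have n3p := And.intro n3.p1 n3.p2
  by_cases z194 : (k) ≤ (i + 2 * j)
  · by_cases v68 : (2 * j + 1) ≤ (k)
    · have kk2447 : (k) ≤ (i + 2 * j) := by clear * - z194; omega
      have kk2448 : (k) ≤ (i + 2 * j + 1) := by clear * - z194; omega
      have kk2449 : (2 * j + 1) ≤ (k) := by clear * - v68; omega
      have kk2450 : (i + j + 1) ≤ (k) := by clear * - b3 v68 z194; omega
      have r2451 : (i + 2 * j - 2 * n - k) % 2 = 0 := by clear * - ev n1p n2p n3p; omega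
      clear * - al a1 s1 kk2447 kk2448 kk2449 kk2450 r2451
      obtain ⟨t, ht⟩ : ∃ t, 2 * t = (i + 2 * j - 2 * n - k) := ⟨(i + 2 * j - 2 * n - k) / 2, by omega⟩
      exact al.ninv t (cE (cI (qf a1 al (-1) t (t + (n + k - j)) (by omega)) (ab s1 al 0 (t + (n + k - j)) ((i + 2 * j - n - k) - t) (by omega))) (sh al (-1) ((i + 2 * j - n - k) - t) t (by omega)))
    · have kk2452 : (2 * j + 2) ≤ (i + k) := by clear * - b10; omega
      have kk2453 : (k) ≤ (i + 2 * j + 1) := by clear * - z194; omega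
      have kk2454 : (k) ≤ (2 * j + 1) := by clear * - v68; omega
      have kk2455 : (i + j + 1) ≤ (k) := by clear * - b10 b3 v68; omega
      have r2456 : (i + 2 * j - 2 * n - k) % 2 = 0 := by clear * - ev n1p n2p n3p; omega
      clear * - al a1 s1 kk2452 kk2453 kk2454 kk2455 r2456
      obtain ⟨t, ht⟩ : ∃ t, 2 * t = (i + 2 * j - 2 * n - k) := ⟨(i + 2 * j - 2 * n - k) / 2, by omega⟩
      exact al.ninv t (cE (cI (qf a1 al (-1) t (t + (n + k - j)) (by omega)) (ab s1 al 0 (t + (n + k - j)) ((i + 2 * j - n - k) - t) (by omega))) (sh al (-1) ((i + 2 * j - n - k) - t) t (by omega)))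
  · exact h8_82 al hy a1 a2 s1 s2 b c1 c2 tt D1 D2 mx hL bd0 n1 n2 n3 (by clear * - b0; omega) (by clear * - b2; omega) (by clear * - b4; omega) (by clear * - b5; omega) (by clear * - b6; omega) (by clear * - b7; omega) (by clear * - b8; omega) (by clear * - b9; omega) (by clear * - z194; omega)

theorem h8_100p
    (h8_101 : ∀ {W : ℤ → G} {n Q i j k l i2 m k3 : ℤ} (al : AL W n Q) (hy : (0) ≤ (i) ∧ (i) ≤ (j) ∧ (j + 1) ≤ (Q) ∧ (Q) ≤ (k) ∧ (k + 1) ≤ (n) ∧ (Q) ≤ (i + l + 1) ∧ (k + l + 2) ≤ (n) ∧ (0) ≤ (i2) ∧ (i2 + 1) ≤ (Q) ∧ (Q + m + 1) ≤ (n + i2) ∧ (i2) ≤ (m) ∧ (Q) ≤ (i + l + m + 2) ∧ (i + l + m + 3) ≤ (n) ∧ (Q) ≤ (k3) ∧ (k3 + 1) ≤ (n) ∧ (i + m + 2) ≤ (k) ∧ (i) ≤ (i2) ∧ (i2) ≤ (i) ∧ (i + m + 2) ≤ (k3) ∧ (k3) ≤ (i + l + m + 1) ∧ (m + k3 + 2) ≤ (n + i2)) (a1 : Par W (0) (j) (k - j)) (a2 : Par W (Q + j - k) (j) (k - j)) (s1 : Ant W (0) (i) (i + j)) (s2 : Ant W (j + 1) (Q) (i + j))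 (b : Par W (i + 1) (i + l + 1) (k - i)) (c1 : Par W (i2 + 1) (Q) (k + l - i2 + 1)) (c2 : Par W (k + l + 2) (n) (i2 - k - l - 1)) (tt : Ant W (i2 - m) (i2) (i + l + i2 + 1)) (D1 : Par W (Q) (k3) (n + i2 - m - k3 - 1)) (D2 : Par W (i + l + m + 3) (n) (k3 - i - l - m - 2)) {L : ℤ} (mx : ∀ a b g, 0 < g → g < n → Par W a b g → b - a ≤ L) (hL : L ≤ (n - j - 3) ∧ L ≤ (n + Q - k - 3) ∧ L ≤ (n - l - 3) ∧ L ≤ (n + i - k - 2)) (bd0 : Bd W n L (j) (i) (k)) (n1 : Nd W (j) (i) (k)) (n2 : Nd W (i + l + 1) (i2) (k + l + 1)) (n3 : Nd W (n + i2 - m - 1) (i + l + m + 2) (k3)) (b0 : (2 * l + 3) ≤ (n)) (b1 : (2 * i + 2 * l + 3 * m + 5) ≤ (n + i2 + k3)) (b2 : (2 * i + j + 1) ≤ (k)) (b3 : (m + k3) ≤ (i + l + 2 * i2 + 1)) (b4 : (1) ≤ (m)) (b5 : (i + l + i2 + m + 3) ≤ (Q + k3)) (b6 : (i + k) ≤ (2 * j + 1)) (b7 : (2 * k + l + 2) ≤ (n + i2)) (b8 : (n + j + i2 + k3) ≤ (i + 2 * k + 2 * l + m + 3)) (b9 :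 (n + i2 + k3) ≤ (2 * k + 2 * l + 2)), False)
    {W : ℤ → G} {n Q i j k l i2 m k3 : ℤ} (al : AL W n Q)
    (hy : (0) ≤ (i) ∧ (i) ≤ (j) ∧ (j + 1) ≤ (Q) ∧ (Q) ≤ (k) ∧ (k + 1) ≤ (n) ∧ (Q) ≤ (i + l + 1) ∧ (k + l + 2) ≤ (n) ∧ (0) ≤ (i2) ∧ (i2 + 1) ≤ (Q) ∧ (Q + m + 1) ≤ (n + i2) ∧ (i2) ≤ (m) ∧ (Q) ≤ (i + l + m + 2) ∧ (i + l + m + 3) ≤ (n) ∧ (Q) ≤ (k3) ∧ (k3 + 1) ≤ (n) ∧ (i + m + 2) ≤ (k) ∧ (i) ≤ (i2) ∧ (i2) ≤ (i) ∧ (i + m + 2) ≤ (k3) ∧ (k3) ≤ (i + l + m + 1) ∧ (m + k3 + 2) ≤ (n + i2))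
    (a1 : Par W (0) (j) (k - j))
    (a2 : Par W (Q + j - k) (j) (k - j))
    (s1 : Ant W (0) (i) (i + j))
    (s2 : Ant W (j + 1) (Q) (i + j))
    (b : Par W (i + 1) (i + l + 1) (k - i))
    (c1 : Par W (i2 + 1) (Q) (k + l - i2 + 1))
    (c2 : Par W (k + l + 2) (n) (i2 - k - l - 1))
    (tt : Ant W (i2 - m) (i2) (i + l + i2 + 1))
    (D1 : Par W (Q) (k3) (n + i2 - m - k3 - 1))
    (D2 : Par W (i + l + m + 3) (n) (k3 - i - l - m - 2))
    {L : ℤ} (mx : ∀ a b g, 0 < g → g < n → Par W a b g → b - a ≤ L)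
    (hL : L ≤ (n - j - 3) ∧ L ≤ (n + Q - k - 3) ∧ L ≤ (n - l - 3) ∧ L ≤ (n + i - k - 2))
    (bd0 : Bd W n L (j) (i) (k))
    (n1 : Nd W (j) (i) (k))
    (n2 : Nd W (i + l + 1) (i2) (k + l + 1))
    (n3 : Nd W (n + i2 - m - 1) (i + l + m + 2) (k3))
    (b0 : (2 * l + 3) ≤ (n))
    (b1 : (2 * i + 2 * l + 3 * m + 5) ≤ (n + i2 + k3))
    (b2 : (2 * i + j + 1) ≤ (k))
    (b3 : (m + k3) ≤ (i + l + 2 * i2 + 1))
    (b4 : (1) ≤ (m))
    (b5 : (i + l + i2 + m + 3) ≤ (Q + k3))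
    (b6 : (i + k) ≤ (2 * j + 1))
    (b7 : (2 * k + l + 2) ≤ (n + i2))
    (b8 : (n + j + i2 + k3) ≤ (i + 2 * k + 2 * l + m + 3)) : False := by
  have ev := al.ev
  obtain ⟨y0, y1, y2, y3, y4, y5, y6, y7, y8, y9, y10, y11, y12, y13, y14, y15, y16, y17, y18, y19, y20⟩ := id hy
  have n1p := And.intro n1.p1 n1.p2
  have n2p := And.intro n2.p1 n2.p2
  have n3p := And.intro n3.p1 n3.p2
  by_cases z236 : (n + i2 + k3) ≤ (2 * k + 2 * l + 2)
  · exact h8_101 al hy a1 a2 s1 s2 b c1 c2 tt D1 D2 mx hL bd0 n1 n2 n3 (by clear * - b0; omega) (by clear * - b1; omega) (by clear * - b2; omega) (by clear * - b3; omega) (by clear * - b4; omega) (by clear * - b5; omega) (by clear * - b6; omega) (by clear * - b7; omega) (by clear * - b8; omega) (by clear * - z236; omega)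
  · by_cases z255 : (j + k + k3) ≤ (i + l + 3 * m + 2)
    · have kk3426 : (k3) ≤ (i + l + m + 1) := by clear * - y19; omega
      have kk3427 : (j + k + k3) ≤ (i + l + 3 * m + 2) := by clear * - z255; omega
      have kk3428 : (j + k + 3 * k3) ≤ (2 * n + i + l + 2 * i2 + m) := by clear * - y20 z255; omega
      have kk3429 : (i + j + k + l + k3 + 2) ≤ (2 * n + m) := by clear * - b2 b3 b4 b6 y17 z236; omega
      have kk3430 : (4 * i + j + 2 * l + 2 * m + 6) ≤ (2 * Q + k + 2 * k3) := by clear * - b1 b5 b6 b8 y16 z236; omega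
      have kk3431 : (2 * i + j + 2 * m + 4) ≤ (2 * Q + k) := by clear * - b1 b3 b5 b6 b8 z236 z255; omega
      have kk3432 : (4 * i + j + 2 * l + 2 * i2 + 2 * m + 6) ≤ (2 * Q + k + 2 * k3) := by clear * - b2 b5; omega
      have kk3433 : (i2) ≤ (j) := by clear * - b1 b6 b8 y17 z236; omega
      have kk3434 : (Q + k3) ≤ (n + i + j) := by clear * - b0 b2 b3 b5 b6 b8 y13 y17 z255; omega
      have kk3435 : (Q + k + l + 1) ≤ (n + i2) := by clear * - b7 y3; omega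
      have kk3436 : (0) ≤ (i) := by clear * - y17 y7; omega
      have kk3437 : (i2 + k3) ≤ (i + j + k + l + 1) := by clear * - b1 b3 b6 b8 y17 z236 z255; omega
      have r3438 : (i + j + k + l - n - i2 + 1) % 2 = 0 := by clear * - ev n1p n2p n3p; omega
      have r3439 : (i + l + m - k3 + 2) % 2 = 0 := by clear * - ev n1p n2p n3p; omega
      have r3440 : (i + l + i2 - n + 1) % 2 = 0 := by clear * - ev n1p n2p n3p; omega
      clear * - al s2 c1 tt D2 kk3426 kk3427 kk3428 kk3429 kk3430 kk3431 kk3432 kk3433 kk3434 kk3435 kk3436 kk3437 r3438 r3439 r3440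
      exact mid2 al (i + l + m - k3 + 2) (i + j + k + l - n - i2 + 1) (i + l + i2 - n + 1) (i + j - Q + 1) (0) 1 (k3 - n + 1) (0) (by omega) (fun t h1 h2 => ⟨by omega, (cE (cE (ab s2 al 0 t ((i + j) - t) (by omega)) (qf c1 al 0 ((i + j) - t) ((i + j + k + l - i2 + 1) - t) (by omega))) (sh al (-1) ((i + j + k + l - i2 + 1) - t) ((i + j + k + l - n - i2 + 1) - t) (by omega)))⟩) (fun t h1 h2 => ⟨by omega, (cE (qa tt al 0 t ((i + l + i2 + 1) - t) (by omega)) (sh al (-1) ((i + l + i2 + 1) - t) ((i + l + i2 - n + 1) - t) (by omega)))⟩) (fun t h1 h2 => (cE (pb D2 al (-1) t (t + (n + i + l + m - k3 + 2)) (by omega)) (sh al (-1) (t + (n + i + l + m - k3 + 2)) (t + (i + l + m - k3 + 2)) (by omega))))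
    · by_cases v109 : (n + 2 * k3) ≤ (3 * i + 3 * l + 3 * m + 6)
      · have kk3441 : (3 * i + 3 * l + i2 + 2 * m + 7) ≤ (n + 2 * k3) := by clear * - b2 b6 b8 y17 z236 z255; omega
        have kk3442 : (3 * i + 3 * l + 2 * m + 6) ≤ (n + i2 + 2 * k3) := by clear * - b2 b6 b7 b8 z236 z255; omega
        have kk3443 : (k3) ≤ (i + l + m + 2) := by clear * - b4 b6 b7 b8 z236 z255; omega
        have kk3444 : (n + 2 * k3) ≤ (3 * i + 3 * l + 3 * m + 6) := by clear * - v109; omega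
        have kk3445 : (k3) ≤ (i + l + 1) := by clear * - b6 b7 b8 z236 z255; omega
        have kk3446 : (2 * k3) ≤ (2 * i + 2 * l + m + 3) := by clear * - b4 b6 b7 b8 z236 z255; omega
        have r3447 : (3 * i + 3 * l + i2 + 2 * m - 3 * n - 2 * k3 + 5) % 2 = 0 := by clear * - ev n1p n2p n3p; omega
        clear * - al tt D2 kk3441 kk3442 kk3443 kk3444 kk3445 kk3446 r3447
        obtain ⟨t, ht⟩ : ∃ t, 2 * t = (3 * i + 3 * l + i2 + 2 * m - 3 * n - 2 * k3 + 5) := ⟨(3 * i + 3 * l + i2 + 2 * m - 3 * n - 2 * k3 + 5) / 2, by omega⟩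
        exact al.ninv t (cE (cE (cE (qa tt al (-1) t ((i + l + i2 - n + 1) - t) (by omega)) (pb D2 al 0 ((i + l + i2 - n + 1) - t) ((2 * i + 2 * l + i2 + m - n - k3 + 3) - t) (by omega))) (pb D2 al 0 ((2 * i + 2 * l + i2 + m - n - k3 + 3) - t) ((3 * i + 3 * l + i2 + 2 * m - n - 2 * k3 + 5) - t) (by omega))) (sh al (-2) ((3 * i + 3 * l + i2 + 2 * m - n - 2 * k3 + 5) - t) t (by omega)))
      · have kk3448 : (n + i2 + 2 * k3) ≤ (3 * i + 3 * l + 4 * m + 5) := by clear * - b6 b7 b8 z236 z255; omega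
        have kk3449 : (3 * i + 3 * l + 2 * m + 6) ≤ (n + i2 + 2 * k3) := by clear * - b3 b6 b7 b8 v109 z236 z255; omega
        have kk3450 : (k3) ≤ (i + l + m + 2) := by clear * - b4 b6 b7 b8 z236 z255; omega
        have kk3451 : (3 * i + 3 * l + 3 * m + 6) ≤ (n + 2 * k3) := by clear * - v109; omega
        have kk3452 : (k3) ≤ (i + l + 1) := by clear * - b6 b7 b8 z236 z255; omega
        have kk3453 : (2 * k3) ≤ (2 * i + 2 * l + m + 3) := by clear * - b4 b6 b7 b8 z236 z255; omega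
        have r3454 : (3 * i + 3 * l + i2 + 2 * m - 3 * n - 2 * k3 + 5) % 2 = 0 := by clear * - ev n1p n2p n3p; omega
        clear * - al tt D2 kk3448 kk3449 kk3450 kk3451 kk3452 kk3453 r3454
        obtain ⟨t, ht⟩ : ∃ t, 2 * t = (3 * i + 3 * l + i2 + 2 * m - 3 * n - 2 * k3 + 5) := ⟨(3 * i + 3 * l + i2 + 2 * m - 3 * n - 2 * k3 + 5) / 2, by omega⟩
        exact al.ninv t (cE (cE (cE (qa tt al (-1) t ((i + l + i2 - n + 1) - t) (by omega)) (pb D2 al 0 ((i + l + i2 - n + 1) - t) ((2 * i + 2 * l + i2 + m - n - k3 + 3) - t) (by omega))) (pb D2 al 0 ((2 * i + 2 * l + i2 + m - n - k3 + 3) - t) ((3 * i + 3 * l + i2 + 2 * m - n - 2 * k3 + 5) - t) (by omega))) (sh al (-2) ((3 * i + 3 * l + i2 + 2 * m - n - 2 * k3 + 5) - t) t (by omega)))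

theorem h9_6p
    (h9_7 : ∀ {W : ℤ → G} {n Q i j k l i2 m k3 : ℤ} (al : AL W n Q) (hy : (0) ≤ (i) ∧ (i) ≤ (j) ∧ (j + 1) ≤ (Q) ∧ (Q) ≤ (k) ∧ (k + 1) ≤ (n) ∧ (Q) ≤ (i + l + 1) ∧ (k + l + 2) ≤ (n) ∧ (0) ≤ (i2) ∧ (i2 + 1) ≤ (Q) ∧ (Q + m + 1) ≤ (n + i2) ∧ (i2) ≤ (m) ∧ (Q) ≤ (i + l + m + 2) ∧ (i + l + m + 3) ≤ (n) ∧ (Q) ≤ (k3) ∧ (k3 + 1) ≤ (n) ∧ (i + m + 2) ≤ (k) ∧ (i) ≤ (i2) ∧ (i2) ≤ (i) ∧ (i + m + 1) ≤ (k3) ∧ (k3) ≤ (i + m + 1) ∧ (k3) ≤ (i + l + m + 1) ∧ (m + k3 + 2) ≤ (n + i2)) (a1 : Par W (0) (j) (k - j)) (a2 : Par W (Q + j - k) (j) (k - j)) (s1 : Ant W (0) (i) (i + j)) (s2 : Ant W (j + 1) (Q) (i + j)) (b : Par W (i + 1) (i + l + 1) (k - i)) (c1 : Par W (i2 + 1) (Q) (k + l - i2 + 1)) (c2 : Par W (k + l + 2) (n) (i2 - k - l - 1)) (tt : Ant W (i2 - m) (i2) (i + l + i2 + 1)) (D1 : Par W (Q) (k3) (n + i2 - m - k3 - 1)) (D2 : Par W (i + l + m + 3) (n) (k3 - i - l - m - 2)) {L : ℤ}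 (mx : ∀ a b g, 0 < g → g < n → Par W a b g → b - a ≤ L) (hL : L ≤ (n - j - 3) ∧ L ≤ (n + Q - k - 3) ∧ L ≤ (n - l - 3) ∧ L ≤ (n + i - k - 2)) (bd0 : Bd W n L (j) (i) (k)) (n1 : Nd W (j) (i) (k)) (n2 : Nd W (i + l + 1) (i2) (k + l + 1)) (n3 : Nd W (n + i2 - m - 1) (i + l + m + 2) (k3)) (d1 : ℤ) (q1 : d1 % 2 = 0) (x1 : Par W (i + 1) (k + l - d1 + 1) d1) (b0 : (0) ≤ (d1)) (b1 : (n + i + d1) ≤ (k + 2 * l + 2)) (b2 : (d1) ≤ (0)) (b3 : (2 * k + 2) ≤ (n + Q + i)) (b4 : (2 * Q + k + l) ≤ (n + 2 * j + i2)) (b5 : (2 * i + l + m + 3) ≤ (k + k3)) (b6 : (i + l + 2 * m + 3) ≤ (n + i2)), False)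
    {W : ℤ → G} {n Q i j k l i2 m k3 : ℤ} (al : AL W n Q)
    (hy : (0) ≤ (i) ∧ (i) ≤ (j) ∧ (j + 1) ≤ (Q) ∧ (Q) ≤ (k) ∧ (k + 1) ≤ (n) ∧ (Q) ≤ (i + l + 1) ∧ (k + l + 2) ≤ (n) ∧ (0) ≤ (i2) ∧ (i2 + 1) ≤ (Q) ∧ (Q + m + 1) ≤ (n + i2) ∧ (i2) ≤ (m) ∧ (Q) ≤ (i + l + m + 2) ∧ (i + l + m + 3) ≤ (n) ∧ (Q) ≤ (k3) ∧ (k3 + 1) ≤ (n) ∧ (i + m + 2) ≤ (k) ∧ (i) ≤ (i2) ∧ (i2) ≤ (i) ∧ (i + m + 1) ≤ (k3) ∧ (k3) ≤ (i + m + 1) ∧ (k3) ≤ (i + l + m + 1) ∧ (m + k3 + 2) ≤ (n + i2))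
    (a1 : Par W (0) (j) (k - j))
    (a2 : Par W (Q + j - k) (j) (k - j))
    (s1 : Ant W (0) (i) (i + j))
    (s2 : Ant W (j + 1) (Q) (i + j))
    (b : Par W (i + 1) (i + l + 1) (k - i))
    (c1 : Par W (i2 + 1) (Q) (k + l - i2 + 1))
    (c2 : Par W (k + l + 2) (n) (i2 - k - l - 1))
    (tt : Ant W (i2 - m) (i2) (i + l + i2 + 1))
    (D1 : Par W (Q) (k3) (n + i2 - m - k3 - 1))
    (D2 : Par W (i + l + m + 3) (n) (k3 - i - l - m - 2))
    {L : ℤ} (mx : ∀ a b g, 0 < g → g < n → Par W a b g → b - a ≤ L)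
    (hL : L ≤ (n - j - 3) ∧ L ≤ (n + Q - k - 3) ∧ L ≤ (n - l - 3) ∧ L ≤ (n + i - k - 2))
    (bd0 : Bd W n L (j) (i) (k))
    (n1 : Nd W (j) (i) (k))
    (n2 : Nd W (i + l + 1) (i2) (k + l + 1))
    (n3 : Nd W (n + i2 - m - 1) (i + l + m + 2) (k3))
    (d1 : ℤ) (q1 : d1 % 2 = 0) (x1 : Par W (i + 1) (k + l - d1 + 1) d1)
    (b0 : (0) ≤ (d1))
    (b1 : (n + i + d1) ≤ (k + 2 * l + 2))
    (b2 : (d1) ≤ (0))
    (b3 : (2 * k + 2) ≤ (n + Q + i))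
    (b4 : (2 * Q + k + l) ≤ (n + 2 * j + i2))
    (b5 : (2 * i + l + m + 3) ≤ (k + k3)) : False := by
  have ev := al.ev
  obtain ⟨y0, y1, y2, y3, y4, y5, y6, y7, y8, y9, y10, y11, y12, y13, y14, y15, y16, y17, y18, y19, y20, y21⟩ := id hy
  have n1p := And.intro n1.p1 n1.p2
  have n2p := And.intro n2.p1 n2.p2
  have n3p := And.intro n3.p1 n3.p2
  by_cases z6 : (n + i2) ≤ (i + l + 2 * m + 2)
  · have kk28 : (i + l + 3) ≤ (n + i2) := by clear * - b3 b5 y13 y16 y19 y21 z6; omega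
    have kk29 : (n + i2) ≤ (i + l + 2 * m + 2) := by clear * - z6; omega
    have r30 : (n + i + l + i2 + 1) % 2 = 0 := by clear * - ev n1p n2p n3p q1; omega
    clear * - al tt kk28 kk29 r30
    obtain ⟨t, ht⟩ : ∃ t, 2 * t = (n + i + l + i2 + 1) := ⟨(n + i + l + i2 + 1) / 2, by omega⟩
    exact al.ninv t (cE (ab tt al 0 t ((i + l + i2 + 1) - t) (by omega)) (sh al 1 ((i + l + i2 + 1) - t) t (by omega)))
  · exact h9_7 al hy a1 a2 s1 s2 b c1 c2 tt D1 D2 mx hL bd0 n1 n2 n3 d1 q1 x1 (by clear * - b0; omega) (by clear * - b1; omega) (by clear * - b2; omega) (by clear * - b3; omega) (by clear * - b4; omega) (by clear * - b5; omega) (by clear * - z6; omega)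

theorem h9_4p
    (h9_5 : ∀ {W : ℤ → G} {n Q i j k l i2 m k3 : ℤ} (al : AL W n Q) (hy : (0) ≤ (i) ∧ (i) ≤ (j) ∧ (j + 1) ≤ (Q) ∧ (Q) ≤ (k) ∧ (k + 1) ≤ (n) ∧ (Q) ≤ (i + l + 1) ∧ (k + l + 2) ≤ (n) ∧ (0) ≤ (i2) ∧ (i2 + 1) ≤ (Q) ∧ (Q + m + 1) ≤ (n + i2) ∧ (i2) ≤ (m) ∧ (Q) ≤ (i + l + m + 2) ∧ (i + l + m + 3) ≤ (n) ∧ (Q) ≤ (k3) ∧ (k3 + 1) ≤ (n) ∧ (i + m + 2) ≤ (k) ∧ (i) ≤ (i2) ∧ (i2) ≤ (i) ∧ (i + m + 1) ≤ (k3) ∧ (k3) ≤ (i + m + 1) ∧ (k3) ≤ (i + l + m + 1) ∧ (m + k3 + 2) ≤ (n + i2)) (a1 : Par W (0) (j) (k - j)) (a2 : Par W (Q + j - k) (j) (k - j)) (s1 : Ant W (0) (i) (i + j)) (s2 : Ant W (j + 1) (Q) (i + j)) (b : Par W (i + 1) (i + l + 1) (k - i)) (c1 : Par W (i2 + 1) (Q) (k + l - i2 + 1)) (c2 : Par W (k + l + 2) (n) (i2 - k - l - 1)) (tt : Ant W (i2 - m) (i2) (i + l + i2 + 1)) (D1 : Par W (Q) (k3) (n + i2 - m - k3 - 1)) (D2 : Par W (i + l + m + 3) (n) (k3 - i - l - m - 2)) {L : ℤ}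 (mx : ∀ a b g, 0 < g → g < n → Par W a b g → b - a ≤ L) (hL : L ≤ (n - j - 3) ∧ L ≤ (n + Q - k - 3) ∧ L ≤ (n - l - 3) ∧ L ≤ (n + i - k - 2)) (bd0 : Bd W n L (j) (i) (k)) (n1 : Nd W (j) (i) (k)) (n2 : Nd W (i + l + 1) (i2) (k + l + 1)) (n3 : Nd W (n + i2 - m - 1) (i + l + m + 2) (k3)) (d1 : ℤ) (q1 : d1 % 2 = 0) (x1 : Par W (i + 1) (k + l - d1 + 1) d1) (b0 : (i + l + 1) ≤ (k + d1)) (b1 : (0) ≤ (d1)) (b2 : (n + i + d1) ≤ (k + 2 * l + 2)) (b3 : (d1) ≤ (0)) (b4 : (2 * k + 2) ≤ (n + Q + i)) (b5 : (2 * Q + k + l) ≤ (n + 2 * j + i2)), False)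
    {W : ℤ → G} {n Q i j k l i2 m k3 : ℤ} (al : AL W n Q)
    (hy : (0) ≤ (i) ∧ (i) ≤ (j) ∧ (j + 1) ≤ (Q) ∧ (Q) ≤ (k) ∧ (k + 1) ≤ (n) ∧ (Q) ≤ (i + l + 1) ∧ (k + l + 2) ≤ (n) ∧ (0) ≤ (i2) ∧ (i2 + 1) ≤ (Q) ∧ (Q + m + 1) ≤ (n + i2) ∧ (i2) ≤ (m) ∧ (Q) ≤ (i + l + m + 2) ∧ (i + l + m + 3) ≤ (n) ∧ (Q) ≤ (k3) ∧ (k3 + 1) ≤ (n) ∧ (i + m + 2) ≤ (k) ∧ (i) ≤ (i2) ∧ (i2) ≤ (i) ∧ (i + m + 1) ≤ (k3) ∧ (k3) ≤ (i + m + 1) ∧ (k3) ≤ (i + l + m + 1) ∧ (m + k3 + 2) ≤ (n + i2))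
    (a1 : Par W (0) (j) (k - j))
    (a2 : Par W (Q + j - k) (j) (k - j))
    (s1 : Ant W (0) (i) (i + j))
    (s2 : Ant W (j + 1) (Q) (i + j))
    (b : Par W (i + 1) (i + l + 1) (k - i))
    (c1 : Par W (i2 + 1) (Q) (k + l - i2 + 1))
    (c2 : Par W (k + l + 2) (n) (i2 - k - l - 1))
    (tt : Ant W (i2 - m) (i2) (i + l + i2 + 1))
    (D1 : Par W (Q) (k3) (n + i2 - m - k3 - 1))
    (D2 : Par W (i + l + m + 3) (n) (k3 - i - l - m - 2))
    {L : ℤ} (mx : ∀ a b g, 0 < g → g < n → Par W a b g → b - a ≤ L)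
    (hL : L ≤ (n - j - 3) ∧ L ≤ (n + Q - k - 3) ∧ L ≤ (n - l - 3) ∧ L ≤ (n + i - k - 2))
    (bd0 : Bd W n L (j) (i) (k))
    (n1 : Nd W (j) (i) (k))
    (n2 : Nd W (i + l + 1) (i2) (k + l + 1))
    (n3 : Nd W (n + i2 - m - 1) (i + l + m + 2) (k3))
    (d1 : ℤ) (q1 : d1 % 2 = 0) (x1 : Par W (i + 1) (k + l - d1 + 1) d1)
    (b0 : (i + l + 1) ≤ (k + d1))
    (b1 : (0) ≤ (d1))
    (b2 : (n + i + d1) ≤ (k + 2 * l + 2))
    (b3 : (d1) ≤ (0))
    (b4 : (2 * k + 2) ≤ (n + Q + i)) : False := by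
  have ev := al.ev
  obtain ⟨y0, y1, y2, y3, y4, y5, y6, y7, y8, y9, y10, y11, y12, y13, y14, y15, y16, y17, y18, y19, y20, y21⟩ := id hy
  have n1p := And.intro n1.p1 n1.p2
  have n2p := And.intro n2.p1 n2.p2
  have n3p := And.intro n3.p1 n3.p2
  by_cases z4 : (n + 2 * j + i2 + 1) ≤ (2 * Q + k + l)
  · by_cases v1 : (n + i + j) ≤ (Q + k + l + 1)
    · have kk10 : (k + l + 2) ≤ (n + i2) := by clear * - y6 y7; omega
      have kk11 : (k + l + i2 + 3) ≤ (n + 2 * i) := by clear * - y17 y6 y7 ev n1p n2p n3p q1; omega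
      have kk12 : (3 * k + 3 * l + i2 + 5) ≤ (3 * n + 2 * i + 2 * j) := by clear * - y1 y17 y6 y7; omega
      have kk13 : (k + l + i2 + 3) ≤ (n + 2 * Q) := by clear * - b0 b3 b4 y8; omega
      have kk14 : (n + i + j) ≤ (Q + k + l + 1) := by clear * - v1; omega
      have r15 : (2 * n + i + j) % 2 = 0 := by clear * - ev n1p n2p n3p q1; omega
      have r16 : (n + i2 - k - l - 1) % 2 = 0 := by clear * - ev n1p n2p n3p q1; omega
      clear * - al s2 c1 kk10 kk11 kk12 kk13 kk14 r15 r16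
      exact midP al (n + i2 - k - l - 1) (2 * n + i + j) (k + l + 2) (k + l + 2) (n + Q) (by omega) (fun t h1 h2 => (cE (ab s2 al 1 t ((n + i + j) - t) (by omega)) (sh al 1 ((n + i + j) - t) ((2 * n + i + j) - t) (by omega)))) (fun t h1 h2 => (cE (pb c1 al 0 t (t + (i2 - k - l - 1)) (by omega)) (sh al 1 (t + (i2 - k - l - 1)) (t + (n + i2 - k - l - 1)) (by omega))))
    · have kk17 : (k + l + 2) ≤ (n + i2) := by clear * - v1 y16 z4; omega
      have kk18 : (n + 2 * j + i2 + 1) ≤ (2 * Q + k + l) := by clear * - z4; omega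
      have kk19 : (k + l + i2 + 3) ≤ (n + 2 * Q) := by clear * - b0 b3 b4 y8; omega
      have kk20 : (n + 2 * i + 2 * j + i2 + 1) ≤ (4 * Q + k + l) := by clear * - y16 y8 z4; omega
      have kk21 : (Q + k + l + 1) ≤ (n + i + j) := by clear * - v1; omega
      have r22 : (2 * n + i + j) % 2 = 0 := by clear * - ev n1p n2p n3p q1; omega
      have r23 : (n + i2 - k - l - 1) % 2 = 0 := by clear * - ev n1p n2p n3p q1; omega
      clear * - al s2 c1 kk17 kk18 kk19 kk20 kk21 r22 r23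
      exact midP al (n + i2 - k - l - 1) (2 * n + i + j) (n + i + j - Q + 1) (k + l + 2) (n + Q) (by omega) (fun t h1 h2 => (cE (ab s2 al 1 t ((n + i + j) - t) (by omega)) (sh al 1 ((n + i + j) - t) ((2 * n + i + j) - t) (by omega)))) (fun t h1 h2 => (cE (pb c1 al 0 t (t + (i2 - k - l - 1)) (by omega)) (sh al 1 (t + (i2 - k - l - 1)) (t + (n + i2 - k - l - 1)) (by omega))))
  · exact h9_5 al hy a1 a2 s1 s2 b c1 c2 tt D1 D2 mx hL bd0 n1 n2 n3 d1 q1 x1 (by clear * - b0; omega) (by clear * - b1; omega) (by clear * - b2; omega) (by clear * - b3; omega) (by clear * - b4; omega) (by clear * - z4; omega)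

theorem h9_23p
    (h9_24 : ∀ {W : ℤ → G} {n Q i j k l i2 m k3 : ℤ} (al : AL W n Q) (hy : (0) ≤ (i) ∧ (i) ≤ (j) ∧ (j + 1) ≤ (Q) ∧ (Q) ≤ (k) ∧ (k + 1) ≤ (n) ∧ (Q) ≤ (i + l + 1) ∧ (k + l + 2) ≤ (n) ∧ (0) ≤ (i2) ∧ (i2 + 1) ≤ (Q) ∧ (Q + m + 1) ≤ (n + i2) ∧ (i2) ≤ (m) ∧ (Q) ≤ (i + l + m + 2) ∧ (i + l + m + 3) ≤ (n) ∧ (Q) ≤ (k3) ∧ (k3 + 1) ≤ (n) ∧ (i + m + 2) ≤ (k) ∧ (i) ≤ (i2) ∧ (i2) ≤ (i) ∧ (i + m + 1) ≤ (k3) ∧ (k3) ≤ (i + m + 1) ∧ (k3) ≤ (i + l + m + 1) ∧ (m + k3 + 2) ≤ (n + i2)) (a1 : Par W (0) (j) (k - j)) (a2 : Par W (Q + j - k) (j) (k - j)) (s1 : Ant W (0) (i) (i + j)) (s2 : Ant W (j + 1) (Q) (i + j)) (b : Par W (i + 1) (i + l + 1) (k - i)) (c1 : Par W (i2 + 1) (Q) (k + l - i2 + 1)) (c2 : Par W (k + l + 2) (n) (i2 - k - l - 1)) (tt : Ant W (i2 - m) (i2) (i + l + i2 + 1)) (D1 : Par W (Q) (k3) (n + i2 - m - k3 - 1)) (D2 : Par W (i + l + m + 3) (n) (k3 - i - l - m - 2)) {L :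 ℤ} (mx : ∀ a b g, 0 < g → g < n → Par W a b g → b - a ≤ L) (hL : L ≤ (n - j - 3) ∧ L ≤ (n + Q - k - 3) ∧ L ≤ (n - l - 3) ∧ L ≤ (n + i - k - 2)) (bd0 : Bd W n L (j) (i) (k)) (n1 : Nd W (j) (i) (k)) (n2 : Nd W (i + l + 1) (i2) (k + l + 1)) (n3 : Nd W (n + i2 - m - 1) (i + l + m + 2) (k3)) (d1 : ℤ) (q1 : d1 % 2 = 0) (x1 : Par W (i + 1) (k + l - d1 + 1) d1) (b0 : (i + l + 1) ≤ (k + d1)) (b1 : (d1) ≤ (l)) (b2 : (2 * i + j + 1) ≤ (k)) (b3 : (2 * l + 3) ≤ (n)) (b4 : (n + k3) ≤ (2 * i + 2 * l + i2 + m + 4)) (b5 : (i + k) ≤ (2 * j + 1)) (b6 : (2 * k + l + 2) ≤ (n + i2)), False)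
    {W : ℤ → G} {n Q i j k l i2 m k3 : ℤ} (al : AL W n Q)
    (hy : (0) ≤ (i) ∧ (i) ≤ (j) ∧ (j + 1) ≤ (Q) ∧ (Q) ≤ (k) ∧ (k + 1) ≤ (n) ∧ (Q) ≤ (i + l + 1) ∧ (k + l + 2) ≤ (n) ∧ (0) ≤ (i2) ∧ (i2 + 1) ≤ (Q) ∧ (Q + m + 1) ≤ (n + i2) ∧ (i2) ≤ (m) ∧ (Q) ≤ (i + l + m + 2) ∧ (i + l + m + 3) ≤ (n) ∧ (Q) ≤ (k3) ∧ (k3 + 1) ≤ (n) ∧ (i + m + 2) ≤ (k) ∧ (i) ≤ (i2) ∧ (i2) ≤ (i) ∧ (i + m + 1) ≤ (k3) ∧ (k3) ≤ (i + m + 1) ∧ (k3) ≤ (i + l + m + 1) ∧ (m + k3 + 2) ≤ (n + i2))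
    (a1 : Par W (0) (j) (k - j))
    (a2 : Par W (Q + j - k) (j) (k - j))
    (s1 : Ant W (0) (i) (i + j))
    (s2 : Ant W (j + 1) (Q) (i + j))
    (b : Par W (i + 1) (i + l + 1) (k - i))
    (c1 : Par W (i2 + 1) (Q) (k + l - i2 + 1))
    (c2 : Par W (k + l + 2) (n) (i2 - k - l - 1))
    (tt : Ant W (i2 - m) (i2) (i + l + i2 + 1))
    (D1 : Par W (Q) (k3) (n + i2 - m - k3 - 1))
    (D2 : Par W (i + l + m + 3) (n) (k3 - i - l - m - 2))
    {L : ℤ} (mx : ∀ a b g, 0 < g → g < n → Par W a b g → b - a ≤ L)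
    (hL : L ≤ (n - j - 3) ∧ L ≤ (n + Q - k - 3) ∧ L ≤ (n - l - 3) ∧ L ≤ (n + i - k - 2))
    (bd0 : Bd W n L (j) (i) (k))
    (n1 : Nd W (j) (i) (k))
    (n2 : Nd W (i + l + 1) (i2) (k + l + 1))
    (n3 : Nd W (n + i2 - m - 1) (i + l + m + 2) (k3))
    (d1 : ℤ) (q1 : d1 % 2 = 0) (x1 : Par W (i + 1) (k + l - d1 + 1) d1)
    (b0 : (i + l + 1) ≤ (k + d1))
    (b1 : (d1) ≤ (l))
    (b2 : (k + 2 * l + 3) ≤ (n + i + d1))
    (b3 : (2 * i + j + 1) ≤ (k))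
    (b4 : (2 * l + 3) ≤ (n))
    (b5 : (i + l + 2 * m + 2) ≤ (n + i2))
    (b6 : (n + k3) ≤ (2 * i + 2 * l + i2 + m + 4))
    (b7 : (i + k) ≤ (2 * j + 1))
    (b8 : (2 * Q + 2 * k) ≤ (n + 2 * i + 2 * i2)) : False := by
  have ev := al.ev
  obtain ⟨y0, y1, y2, y3, y4, y5, y6, y7, y8, y9, y10, y11, y12, y13, y14, y15, y16, y17, y18, y19, y20, y21⟩ := id hy
  have n1p := And.intro n1.p1 n1.p2
  have n2p := And.intro n2.p1 n2.p2
  have n3p := And.intro n3.p1 n3.p2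
  by_cases z33 : (n + i2) ≤ (2 * k + l + 1)
  · have kk336 : (2 * k + l + 2) ≤ (n + j + i2) := by clear * - b4 b7 b8 y2; omega
    have kk337 : (j + i2) ≤ (2 * k + l) := by clear * - b1 b2 b3 b6 y18 y20 z33; omega
    have kk338 : (j + i2 + 1) ≤ (k) := by clear * - b3 b4 b6 y17 y18; omega
    have kk339 : (n + i2) ≤ (2 * k + l + 1) := by clear * - z33; omega
    clear * - al a1 c2 kk336 kk337 kk338 kk339
    exact al.ubP (n + j + i2 - 2 * k - l - 1) (by omega) (by omega) fun t h1 h2 => (cE (qf c2 al (-1) t (t + (n + i2 - k - l - 1)) (by omega)) (pb a1 al 0 (t + (n + i2 - k - l - 1)) (t + (n + j + i2 - 2 * k - l - 1)) (by omega)))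
  · exact h9_24 al hy a1 a2 s1 s2 b c1 c2 tt D1 D2 mx hL bd0 n1 n2 n3 d1 q1 x1 (by clear * - b0; omega) (by clear * - b1; omega) (by clear * - b3; omega) (by clear * - b4; omega) (by clear * - b6; omega) (by clear * - b7; omega) (by clear * - z33; omega)

theorem h9_35p
    {W : ℤ → G} {n Q i j k l i2 m k3 : ℤ} (al : AL W n Q)
    (hy : (0) ≤ (i) ∧ (i) ≤ (j) ∧ (j + 1) ≤ (Q) ∧ (Q) ≤ (k) ∧ (k + 1) ≤ (n) ∧ (Q) ≤ (i + l + 1) ∧ (k + l + 2) ≤ (n) ∧ (0) ≤ (i2) ∧ (i2 + 1) ≤ (Q) ∧ (Q + m + 1) ≤ (n + i2) ∧ (i2) ≤ (m) ∧ (Q) ≤ (i + l + m + 2) ∧ (i + l + m + 3) ≤ (n) ∧ (Q) ≤ (k3) ∧ (k3 + 1) ≤ (n) ∧ (i + m + 2) ≤ (k) ∧ (i) ≤ (i2) ∧ (i2) ≤ (i) ∧ (i + m + 1) ≤ (k3) ∧ (k3) ≤ (i + m + 1) ∧ (k3) ≤ (i + l + m + 1) ∧ (m + k3 + 2) ≤ (n + i2))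
    (a1 : Par W (0) (j) (k - j))
    (a2 : Par W (Q + j - k) (j) (k - j))
    (s1 : Ant W (0) (i) (i + j))
    (s2 : Ant W (j + 1) (Q) (i + j))
    (b : Par W (i + 1) (i + l + 1) (k - i))
    (c1 : Par W (i2 + 1) (Q) (k + l - i2 + 1))
    (c2 : Par W (k + l + 2) (n) (i2 - k - l - 1))
    (tt : Ant W (i2 - m) (i2) (i + l + i2 + 1))
    (D1 : Par W (Q) (k3) (n + i2 - m - k3 - 1))
    (D2 : Par W (i + l + m + 3) (n) (k3 - i - l - m - 2))
    {L : ℤ} (mx : ∀ a b g, 0 < g → g < n → Par W a b g → b - a ≤ L)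
    (hL : L ≤ (n - j - 3) ∧ L ≤ (n + Q - k - 3) ∧ L ≤ (n - l - 3) ∧ L ≤ (n + i - k - 2))
    (bd0 : Bd W n L (j) (i) (k))
    (n1 : Nd W (j) (i) (k))
    (n2 : Nd W (i + l + 1) (i2) (k + l + 1))
    (n3 : Nd W (n + i2 - m - 1) (i + l + m + 2) (k3))
    (d1 : ℤ) (q1 : d1 % 2 = 0) (x1 : Par W (i + 1) (k + l - d1 + 1) d1)
    (b0 : (i + l + 1) ≤ (k + d1))
    (b1 : (d1) ≤ (l))
    (b2 : (k + 2 * l + 3) ≤ (n + i + d1))
    (b3 : (2 * l + 3) ≤ (n))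
    (b4 : (i + k + 2 * m) ≤ (2 * j + 2 * k3))
    (b5 : (i + i2 + m + 2) ≤ (j + k3))
    (b6 : (n + k3) ≤ (2 * i + 2 * l + i2 + m + 4))
    (b7 : (i + 2 * j + 1) ≤ (k))
    (b8 : (i + 2 * k + 3 * l + 3 * m + 5) ≤ (2 * n + 2 * i2 + k3 + d1)) : False := by
  have ev := al.ev
  obtain ⟨y0, y1, y2, y3, y4, y5, y6, y7, y8, y9, y10, y11, y12, y13, y14, y15, y16, y17, y18, y19, y20, y21⟩ := id hy
  have n1p := And.intro n1.p1 n1.p2
  have n2p := And.intro n2.p1 n2.p2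
  have n3p := And.intro n3.p1 n3.p2
  by_cases z61 : (2 * k + l + 2) ≤ (n + j + i2)
  · by_cases z62 : (n + i2) ≤ (2 * k + l + 1)
    · have kk726 : (2 * k + l + 2) ≤ (n + j + i2) := by clear * - z61; omega
      have kk727 : (j + i2) ≤ (2 * k + l) := by clear * - b3 b5 b6 b7 y20; omega
      have kk728 : (j + i2 + 1) ≤ (k) := by clear * - b7 y17 z61 z62; omega
      have kk729 : (n + i2) ≤ (2 * k + l + 1) := by clear * - z62; omega
      clear * - al a1 c2 kk726 kk727 kk728 kk729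
      exact al.ubP (n + j + i2 - 2 * k - l - 1) (by omega) (by omega) fun t h1 h2 => (cE (sh al 1 t (t + (n)) (by omega)) (cE (qf c2 al 0 (t + (n)) (t + (n + i2 - k - l - 1)) (by omega)) (pb a1 al 0 (t + (n + i2 - k - l - 1)) (t + (n + j + i2 - 2 * k - l - 1)) (by omega))))
    · by_cases z63 : (n + k + i2 + k3) ≤ (3 * i + 2 * l + 3 * m + 4)
      · have kk730 : (3 * i + 2 * l + i2 + m + 5) ≤ (n + k + k3) := by clear * - b3 b5 b7 y16 y19; omega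
        have kk731 : (n + k + i2 + k3) ≤ (3 * i + 2 * l + 3 * m + 4) := by clear * - z63; omega
        have kk732 : (k) ≤ (i + l + 1) := by clear * - b1 b5 b6 b7 b8 y19 z63; omega
        have kk733 : (0) ≤ (i2) := by clear * - b3 b4 b6 b7 y16; omega
        have kk734 : (k + l + m + 2) ≤ (n + i2) := by clear * - b1 b8 y19; omega
        have kk735 : (i + m + 1) ≤ (k) := by clear * - y15; omega
        have r736 : (i + i2 + k3 - n - k - m - 1) % 2 = 0 := by clear * - ev n1p n2p n3p q1; omega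
        clear * - al b tt D2 kk730 kk731 kk732 kk733 kk734 kk735 r736
        obtain ⟨t, ht⟩ : ∃ t, 2 * t = (i + i2 + k3 - n - k - m - 1) := ⟨(i + i2 + k3 - n - k - m - 1) / 2, by omega⟩
        exact al.ninv t (cE (cE (cI (qf b al (-1) t (t + (n + k - i)) (by omega)) (ab tt al 0 (t + (n + k - i)) ((2 * i + l + i2 - n - k + 1) - t) (by omega))) (qf D2 al (-1) ((2 * i + l + i2 - n - k + 1) - t) ((i + i2 + k3 - k - m - 1) - t) (by omega))) (sh al (-1) ((i + i2 + k3 - k - m - 1) - t) t (by omega)))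
      · by_cases z64 : (2 * i + l + m + 2) ≤ (j + k3 + d1)
        · have kk737 : (0) ≤ (i) := by clear * - b3 b4 b6 b7 y17; omega
          have kk738 : (i + 1) ≤ (j) := by clear * - b1 y19 z64; omega
          have kk739 : (k3 + d1) ≤ (i + l + m + 1) := by clear * - b1 y19; omega
          have kk740 : (2 * i + l + m + 2) ≤ (j + k3 + d1) := by clear * - z64; omega
          have kk741 : (j + k3 + 1) ≤ (i + k) := by clear * - b6 b7 y17 y19 z63 ev n1p n2p n3p q1; omega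
          have kk742 : (i + m + 1) ≤ (k3) := by clear * - b4 b7; omega
          have kk743 : (d1) ≤ (l + m + 2) := by clear * - b1 b3 b4 b6 b7 y10 y16; omega
          have kk744 : (k + l + 1) ≤ (n) := by clear * - b3 b5 b6 b7 y19 z62; omega
          have kk745 : (0) ≤ (i + 1) := by clear * - b3 b4 b6 b7 y17; omega
          have kk746 : (j) ≤ (i + l + 1) := by clear * - b1 b2 b5 b6 b7; omega
          have r747 : (j - i) % 2 = 0 := by clear * - ev n1p n2p n3p q1; omega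
          have r748 : (i + l + m - k3 - d1 + 2) % 2 = 0 := by clear * - ev n1p n2p n3p q1; omega
          clear * - al a1 b D2 x1 n1 kk737 kk738 kk739 kk740 kk741 kk742 kk743 kk744 kk745 kk746 r747 r748
          exact n1.f1 (rEE (cE (qf a1 al 0 (i) (i + k - j) (by omega)) (sh al (-1) (i + k - j) (i + k - n - j) (by omega))) (sh al (-1) (k) (k - n) (by omega)) (rotL (j - i) (i + l + m - k3 - d1 + 2) (i + k - n - j) (k - n) (by omega) (fun t h1 h2 => (cE (cE (pb a1 al (-1) t (t + (n + j - k)) (by omega)) (qf b al 0 (t + (n + j - k)) (t + (n + j - i)) (by omega))) (sh al (-1) (t + (n + j - i)) (t + (j - i)) (by omega)))) (fun t h1 h2 => (cE (qf (show Par W (k3 + 1) (k + k3 - i - m - 1) (i + l + m - k3 - d1 + 2) from fun t h1 h2 => (cE (sh al (-1) t (t + (-n)) (by omega)) (cE (pb D2 al (-1) (t + (-n)) (t + (i + l + m - k3 + 2)) (by omega)) (pb x1 al 0 (t + (i + l + m - k3 + 2))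 (t + (i + l + m - k3 - d1 + 2)) (by omega))))) al (-1) t (t + (n + i + l + m - k3 - d1 + 2)) (by omega)) (sh al (-1) (t + (n + i + l + m - k3 - d1 + 2)) (t + (i + l + m - k3 - d1 + 2)) (by omega))))))
        · by_cases z65 : (i + j + l + 3) ≤ (k + i2 + d1)
          · have kk749 : (k + d1) ≤ (i + j + l + i2 + 1) := by clear * - b4 y16 y19 z64 ev n1p n2p n3p q1; omega
            have kk750 : (i + j + l + 2) ≤ (k + i2 + d1) := by clear * - z65; omega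
            have kk751 : (i2) ≤ (m) := by clear * - y10; omega
            have kk752 : (i + i2 + 1) ≤ (k) := by clear * - b1 b5 b7 y19 z65; omega
            have kk753 : (i2) ≤ (j) := by clear * - b5 y19; omega
            have kk754 : (d1) ≤ (l + 1) := by clear * - b1; omega
            have r755 : (i + k + l + i2 - 2 * n - j - d1 + 1) % 2 = 0 := by clear * - ev n1p n2p n3p q1; omega
            clear * - al a1 tt x1 kk749 kk750 kk751 kk752 kk753 kk754 r755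
            obtain ⟨t, ht⟩ : ∃ t, 2 * t = (i + k + l + i2 - 2 * n - j - d1 + 1) := ⟨(i + k + l + i2 - 2 * n - j - d1 + 1) / 2, by omega⟩
            exact al.ninv t (cE (cE (cI (pb a1 al (-1) t (t + (n + j - k)) (by omega)) (qa tt al 0 (t + (n + j - k)) ((i + k + l + i2 - n - j + 1) - t) (by omega))) (pb x1 al 0 ((i + k + l + i2 - n - j + 1) - t) ((i + k + l + i2 - n - j - d1 + 1) - t) (by omega))) (sh al (-1) ((i + k + l + i2 - n - j - d1 + 1) - t) t (by omega)))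
          · by_cases z66 : (k + k3 + d1) ≤ (2 * i + l + m + 2)
            · have kk756 : (k + d1) ≤ (i + l + m + 1) := by clear * - b3 b4 b6 b7 y10 y16 z66; omega
              have kk757 : (i + m + 2) ≤ (k) := by clear * - b0 b5 b6 b7 z63 z66; omega
              have kk758 : (k + k3 + d1) ≤ (2 * i + l + m + 2) := by clear * - z66; omega
              have kk759 : (2 * i + l + m + 2) ≤ (k + k3 + d1) := by clear * - b0 b4 b7; omega
              have kk760 : (0) ≤ (d1) := by clear * - b0 b2 b5 b6 b7 z62 z64 z66; omega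
              have kk761 : (i) ≤ (k) := by clear * - b0 b1; omega
              clear * - al b x1 n3 kk756 kk757 kk758 kk759 kk760 kk761
              exact n3.f1 (cE (pb b al 0 (i + l + m + 2) (2 * i + l + m - k + 2) (by omega)) (pb x1 al 0 (2 * i + l + m - k + 2) (k3) (by omega)))
            · by_cases z67 : (k + k3 + d1) ≤ (2 * i + l + 2 * i2 + m + 2)
              · have kk762 : (2 * i + l + m + 3) ≤ (k + k3 + d1) := by clear * - z66; omega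
                have kk763 : (k + k3 + d1) ≤ (2 * i + l + 2 * i2 + m + 2) := by clear * - z67; omega
                have kk764 : (2 * i + 2 * j + l + m + k3 + 4) ≤ (3 * k + 2 * i2 + d1) := by clear * - b6 b7 y19 z63 z66 ev n1p n2p n3p q1; omega
                have kk765 : (2 * i + l + m + 4) ≤ (k + k3 + d1) := by clear * - z66 ev n1p n2p n3p q1; omega
                have kk766 : (i) ≤ (k3) := by clear * - b4 b7 y10 z66 z67; omega
                have kk767 : (i + k + 2 * l + m + 3) ≤ (n + k3 + d1) := by clear * - y17 z62 z66; omega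
                have kk768 : (i2 + d1) ≤ (j + l + 1) := by clear * - b0 b5 b7 z65 z67; omega
                have kk769 : (i2) ≤ (j) := by clear * - y19 z65 z66; omega
                have kk770 : (i + j + m + 1) ≤ (k + i2) := by clear * - b6 b7 z63; omega
                have kk771 : (i2) ≤ (m) := by clear * - y10; omega
                have kk772 : (k) ≤ (i + l + m + 2) := by clear * - b6 y10 z62 z64 z65 z66; omega
                have kk773 : (k3 + d1) ≤ (i + l + m + 2) := by clear * - b7 y19 z65 z66 z67; omega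
                have kk774 : (i + m + 1) ≤ (k) := by clear * - b6 b7 y19 z63 z65 z66; omega
                have kk775 : (i + i2 + m + 1) ≤ (j + k3) := by clear * - z65 z66; omega
                have r776 : (i + k + l + i2 + d1 - 2 * n - j + 1) % 2 = 0 := by clear * - ev n1p n2p n3p q1; omega
                have r777 : (k + k3 + d1 - 2 * i - l - m - 2) % 2 = 0 := by clear * - ev n1p n2p n3p q1; omega
                clear * - al a1 b tt D2 x1 kk762 kk763 kk764 kk765 kk766 kk767 kk768 kk769 kk770 kk771 kk772 kk773 kk774 kk775 r776 r777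
                exact midP al (k + k3 + d1 - 2 * i - l - m - 2) (i + k + l + i2 + d1 - 2 * n - j + 1) (i + l - n + 2) (2 * i + l + m - n - k + 3) (k + k3 + d1 - n - i - m - 1) (by omega) (fun t h1 h2 => (cE (cE (cE (ab tt al (-1) t ((i + l + i2 - n + 1) - t) (by omega)) (qf a1 al 0 ((i + l + i2 - n + 1) - t) ((i + k + l + i2 - n - j + 1) - t) (by omega))) (qf x1 al 0 ((i + k + l + i2 - n - j + 1) - t) ((i + k + l + i2 + d1 - n - j + 1) - t) (by omega))) (sh al (-1) ((i + k + l + i2 + d1 - n - j + 1) - t) ((i + k + l + i2 + d1 - 2 * n - j + 1) - t) (by omega)))) (fun t h1 h2 => (cE (cE (qf b al (-1) t (t + (n + k - i)) (by omega)) (pb (show Par W (k3 + d1 + 1) (k + l + 1) (i + l + m - k3 - d1 + 2) from fun t h1 h2 => (cE (sh al (-1) t (t + (-n)) (by omega)) (cE (pb x1 al (-1) (t + (-n)) (t + (-d1)) (by omega)) (pb D2 al 0 (t + (-d1)) (t + (i + l + m - k3 - d1 + 2)) (by omega)))))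 al 0 (t + (n + k - i)) (t + (n + k + k3 + d1 - 2 * i - l - m - 2)) (by omega))) (sh al (-1) (t + (n + k + k3 + d1 - 2 * i - l - m - 2)) (t + (k + k3 + d1 - 2 * i - l - m - 2)) (by omega))))
              · have kk778 : (i + k + l + m + d1 + 3) ≤ (n + j + k3) := by clear * - b3 b4 b7 y16 z65 ev n1p n2p n3p q1; omega
                have kk779 : (j + k3) ≤ (i + k + l + m + d1 + 1) := by clear * - b1 b3 b6 b7 z61 z65 z66 z67; omega
                have kk780 : (j + k3 + 1) ≤ (k + d1) := by clear * - b0 b6 b7 z62 z63 z64 z65 z67; omega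
                have kk781 : (i + j + 1) ≤ (k) := by clear * - b0 b1 b7; omega
                have kk782 : (n + k3) ≤ (i + k + l + m + d1 + 2) := by clear * - b6 y19 z66 z67; omega
                have kk783 : (n + k3) ≤ (i + k + 2 * l + m + 3) := by clear * - b1 b6 y19 z66 z67; omega
                clear * - al a1 D2 x1 kk778 kk779 kk780 kk781 kk782 kk783
                exact al.ubP (n + j + k3 - i - k - l - m - d1 - 2) (by omega) (by omega) fun t h1 h2 => (cE (sh al 2 t (t + (2 * n)) (by omega)) (cE (cE (qf D2 al 1 (t + (2 * n)) (t + (n + k3 - i - l - m - 2)) (by omega)) (pb x1 al 0 (t + (n + k3 - i - l - m - 2)) (t + (n + k3 - i - l - m - d1 - 2)) (by omega))) (pb a1 al 0 (t + (n + k3 - i - l - m - d1 - 2)) (t + (n + j + k3 - i - k - l - m - d1 - 2)) (by omega))))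
  · by_cases z68 : (2 * i + l + m + 2) ≤ (j + k3 + d1)
    · have kk784 : (0) ≤ (i) := by clear * - b3 b4 b6 b7 y17; omega
      have kk785 : (i + 1) ≤ (j) := by clear * - b1 y19 z68; omega
      have kk786 : (k3 + d1) ≤ (i + l + m + 1) := by clear * - b1 y19; omega
      have kk787 : (2 * i + l + m + 2) ≤ (j + k3 + d1) := by clear * - z68; omega
      have kk788 : (j + k3 + 1) ≤ (i + k) := by clear * - b1 b8 y19 z61 ev n1p n2p n3p q1; omega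
      have kk789 : (i + m + 1) ≤ (k3) := by clear * - b4 b7; omega
      have kk790 : (d1) ≤ (l + m + 2) := by clear * - b1 b3 b4 b6 b7 y10 y16; omega
      have kk791 : (k + l + 1) ≤ (n) := by clear * - b1 b8 y10 y19; omega
      have kk792 : (0) ≤ (i + 1) := by clear * - b3 b4 b6 b7 y17; omega
      have kk793 : (j) ≤ (i + l + 1) := by clear * - b1 b2 b5 b6 b7; omega
      have r794 : (j - i) % 2 = 0 := by clear * - ev n1p n2p n3p q1; omega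
      have r795 : (i + l + m - k3 - d1 + 2) % 2 = 0 := by clear * - ev n1p n2p n3p q1; omega
      clear * - al a1 b D2 x1 n1 kk784 kk785 kk786 kk787 kk788 kk789 kk790 kk791 kk792 kk793 r794 r795
      exact n1.f1 (rEE (cE (qf a1 al 0 (i) (i + k - j) (by omega)) (sh al 1 (i + k - j) (n + i + k - j) (by omega))) (sh al 1 (k) (n + k) (by omega)) (rotL (j - i) (i + l + m - k3 - d1 + 2) (n + i + k - j) (n + k) (by omega) (fun t h1 h2 => (cE (cE (pb a1 al 1 t (t + (j - n - k)) (by omega)) (qf b al 0 (t + (j - n - k)) (t + (j - n - i)) (by omega))) (sh al 1 (t + (j - n - i)) (t + (j - i)) (by omega)))) (fun t h1 h2 => (cE (qf (show Par W (k3 + 1) (k + k3 - i - m - 1) (i + l + m - k3 - d1 + 2) from fun t h1 h2 => (cE (sh al (-1) t (t + (-n)) (by omega)) (cE (pb D2 al (-1) (t + (-n)) (t + (i + l + m - k3 + 2)) (by omega)) (pb x1 al 0 (t + (i + l + m - k3 + 2)) (t + (i + l + m - k3 -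 d1 + 2)) (by omega))))) al 1 t (t + (i + l + m - n - k3 - d1 + 2)) (by omega)) (sh al 1 (t + (i + l + m - n - k3 - d1 + 2)) (t + (i + l + m - k3 - d1 + 2)) (by omega))))))
    · have kk796 : (k + d1) ≤ (i + j + l + i2 + 1) := by clear * - b4 y16 y19 z68 ev n1p n2p n3p q1; omega
      have kk797 : (i + j + l + 2) ≤ (k + i2 + d1) := by clear * - b2 y16 z61; omega
      have kk798 : (i2) ≤ (m) := by clear * - y10; omega
      have kk799 : (i + i2 + 1) ≤ (k) := by clear * - b0 b1 b5 b7 y19; omega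
      have kk800 : (i2) ≤ (j) := by clear * - b5 y19; omega
      have kk801 : (d1) ≤ (l + 1) := by clear * - b1; omega
      have r802 : (i + k + l + i2 - 2 * n - j - d1 + 1) % 2 = 0 := by clear * - ev n1p n2p n3p q1; omega
      clear * - al a1 tt x1 kk796 kk797 kk798 kk799 kk800 kk801 r802
      obtain ⟨t, ht⟩ : ∃ t, 2 * t = (i + k + l + i2 - 2 * n - j - d1 + 1) := ⟨(i + k + l + i2 - 2 * n - j - d1 + 1) / 2, by omega⟩
      exact al.ninv t (cE (cE (cI (pb a1 al (-1) t (t + (n + j - k)) (by omega)) (qa tt al 0 (t + (n + j - k)) ((i + k + l + i2 - n - j + 1) - t) (by omega))) (pb x1 al 0 ((i + k + l + i2 - n - j + 1) - t) ((i + k + l + i2 - n - j - d1 + 1) - t) (by omega))) (sh al (-1) ((i + k + l + i2 - n - j - d1 + 1) - t) t (by omega)))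

theorem h9_19p
    (h9_20 : ∀ {W : ℤ → G} {n Q i j k l i2 m k3 : ℤ} (al : AL W n Q) (hy : (0) ≤ (i) ∧ (i) ≤ (j) ∧ (j + 1) ≤ (Q) ∧ (Q) ≤ (k) ∧ (k + 1) ≤ (n) ∧ (Q) ≤ (i + l + 1) ∧ (k + l + 2) ≤ (n) ∧ (0) ≤ (i2) ∧ (i2 + 1) ≤ (Q) ∧ (Q + m + 1) ≤ (n + i2) ∧ (i2) ≤ (m) ∧ (Q) ≤ (i + l + m + 2) ∧ (i + l + m + 3) ≤ (n) ∧ (Q) ≤ (k3) ∧ (k3 + 1) ≤ (n) ∧ (i + m + 2) ≤ (k) ∧ (i) ≤ (i2) ∧ (i2) ≤ (i) ∧ (i + m + 1) ≤ (k3) ∧ (k3) ≤ (i + m + 1) ∧ (k3) ≤ (i + l + m + 1) ∧ (m + k3 + 2) ≤ (n + i2)) (a1 : Par W (0) (j) (k - j)) (a2 : Par W (Q + j - k) (j) (k - j)) (s1 : Ant W (0) (i) (i + j)) (s2 : Ant W (j + 1) (Q) (i + j)) (b : Par W (i + 1) (i + l + 1) (k - i)) (c1 : Par W (i2 + 1) (Q) (k + l - i2 + 1)) (c2 : Par W (k + l + 2) (n) (i2 - k - l - 1)) (tt : Ant W (i2 - m) (i2) (i + l + i2 + 1)) (D1 : Par W (Q) (k3) (n + i2 - m - k3 - 1)) (D2 : Par W (i + l + m + 3) (n) (k3 - i - l - m - 2)) {L :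 ℤ} (mx : ∀ a b g, 0 < g → g < n → Par W a b g → b - a ≤ L) (hL : L ≤ (n - j - 3) ∧ L ≤ (n + Q - k - 3) ∧ L ≤ (n - l - 3) ∧ L ≤ (n + i - k - 2)) (bd0 : Bd W n L (j) (i) (k)) (n1 : Nd W (j) (i) (k)) (n2 : Nd W (i + l + 1) (i2) (k + l + 1)) (n3 : Nd W (n + i2 - m - 1) (i + l + m + 2) (k3)) (d1 : ℤ) (q1 : d1 % 2 = 0) (x1 : Par W (i + 1) (k + l - d1 + 1) d1) (b0 : (i + l + 1) ≤ (k + d1)) (b1 : (d1) ≤ (l)) (b2 : (k + 2 * l + 3) ≤ (n + i + d1)) (b3 : (2 * i + j + 1) ≤ (k)) (b4 : (2 * l + 3) ≤ (n)) (b5 : (k + 2 * m + 1) ≤ (n + j)) (b6 : (i + k + 2 * m) ≤ (2 * j + 2 * k3)) (b7 : (i + i2 + m + 2) ≤ (j + k3)) (b8 : (i + l + 2 * m + 2) ≤ (n + i2)) (b9 : (n + k3) ≤ (2 * i + 2 * l + i2 + m + 4)), False)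
    {W : ℤ → G} {n Q i j k l i2 m k3 : ℤ} (al : AL W n Q)
    (hy : (0) ≤ (i) ∧ (i) ≤ (j) ∧ (j + 1) ≤ (Q) ∧ (Q) ≤ (k) ∧ (k + 1) ≤ (n) ∧ (Q) ≤ (i + l + 1) ∧ (k + l + 2) ≤ (n) ∧ (0) ≤ (i2) ∧ (i2 + 1) ≤ (Q) ∧ (Q + m + 1) ≤ (n + i2) ∧ (i2) ≤ (m) ∧ (Q) ≤ (i + l + m + 2) ∧ (i + l + m + 3) ≤ (n) ∧ (Q) ≤ (k3) ∧ (k3 + 1) ≤ (n) ∧ (i + m + 2) ≤ (k) ∧ (i) ≤ (i2) ∧ (i2) ≤ (i) ∧ (i + m + 1) ≤ (k3) ∧ (k3) ≤ (i + m + 1) ∧ (k3) ≤ (i + l + m + 1) ∧ (m + k3 + 2) ≤ (n + i2))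
    (a1 : Par W (0) (j) (k - j))
    (a2 : Par W (Q + j - k) (j) (k - j))
    (s1 : Ant W (0) (i) (i + j))
    (s2 : Ant W (j + 1) (Q) (i + j))
    (b : Par W (i + 1) (i + l + 1) (k - i))
    (c1 : Par W (i2 + 1) (Q) (k + l - i2 + 1))
    (c2 : Par W (k + l + 2) (n) (i2 - k - l - 1))
    (tt : Ant W (i2 - m) (i2) (i + l + i2 + 1))
    (D1 : Par W (Q) (k3) (n + i2 - m - k3 - 1))
    (D2 : Par W (i + l + m + 3) (n) (k3 - i - l - m - 2))
    {L : ℤ} (mx : ∀ a b g, 0 < g → g < n → Par W a b g → b - a ≤ L)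
    (hL : L ≤ (n - j - 3) ∧ L ≤ (n + Q - k - 3) ∧ L ≤ (n - l - 3) ∧ L ≤ (n + i - k - 2))
    (bd0 : Bd W n L (j) (i) (k))
    (n1 : Nd W (j) (i) (k))
    (n2 : Nd W (i + l + 1) (i2) (k + l + 1))
    (n3 : Nd W (n + i2 - m - 1) (i + l + m + 2) (k3))
    (d1 : ℤ) (q1 : d1 % 2 = 0) (x1 : Par W (i + 1) (k + l - d1 + 1) d1)
    (b0 : (i + l + 1) ≤ (k + d1))
    (b1 : (d1) ≤ (l))
    (b2 : (0) ≤ (d1))
    (b3 : (k + 2 * l + 3) ≤ (n + i + d1))
    (b4 : (2 * i + j + 1) ≤ (k))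
    (b5 : (n + i2) ≤ (i + k + 2 * l + 2))
    (b6 : (2 * l + 3) ≤ (n))
    (b7 : (k + 2 * m + 1) ≤ (n + j))
    (b8 : (i + k + 2 * m) ≤ (2 * j + 2 * k3))
    (b9 : (i + i2 + m + 2) ≤ (j + k3))
    (b10 : (i + l + 2 * m + 2) ≤ (n + i2))
    (b11 : (n + i2 + k3) ≤ (2 * i + 2 * l + 3 * m + 3)) : False := by
  have ev := al.ev
  obtain ⟨y0, y1, y2, y3, y4, y5, y6, y7, y8, y9, y10, y11, y12, y13, y14, y15, y16, y17, y18, y19, y20, y21⟩ := id hy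
  have n1p := And.intro n1.p1 n1.p2
  have n2p := And.intro n2.p1 n2.p2
  have n3p := And.intro n3.p1 n3.p2
  by_cases z29 : (2 * i + 2 * l + i2 + m + 5) ≤ (n + k3)
  · have kk300 : (2 * i + 2 * l + i2 + m + 5) ≤ (n + k3) := by clear * - z29; omega
    have kk301 : (n + i2 + k3) ≤ (2 * i + 2 * l + 3 * m + 4) := by clear * - b11; omega
    have kk302 : (0) ≤ (i2) := by clear * - y7; omega
    have kk303 : (i + l + 2 * m + 3) ≤ (n + i2) := by clear * - b10 ev n1p n2p n3p q1; omega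
    have r304 : (i2 + k3 - n - m - 1) % 2 = 0 := by clear * - ev n1p n2p n3p q1; omega
    clear * - al tt D2 kk300 kk301 kk302 kk303 r304
    obtain ⟨t, ht⟩ : ∃ t, 2 * t = (i2 + k3 - n - m - 1) := ⟨(i2 + k3 - n - m - 1) / 2, by omega⟩
    exact al.ninv t (cE (cE (ab tt al (-1) t ((i + l + i2 - n + 1) - t) (by omega)) (qf D2 al (-1) ((i + l + i2 - n + 1) - t) ((i2 + k3 - m - 1) - t) (by omega))) (sh al (-1) ((i2 + k3 - m - 1) - t) t (by omega)))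
  · exact h9_20 al hy a1 a2 s1 s2 b c1 c2 tt D1 D2 mx hL bd0 n1 n2 n3 d1 q1 x1 (by clear * - b0; omega) (by clear * - b1; omega) (by clear * - b3; omega) (by clear * - b4; omega) (by clear * - b6; omega) (by clear * - b7; omega) (by clear * - b8; omega) (by clear * - b9; omega) (by clear * - b10; omega) (by clear * - z29; omega)

theorem h9_58p
    (h9_59 : ∀ {W : ℤ → G} {n Q i j k l i2 m k3 : ℤ} (al : AL W n Q) (hy : (0) ≤ (i) ∧ (i) ≤ (j) ∧ (j + 1) ≤ (Q) ∧ (Q) ≤ (k) ∧ (k + 1) ≤ (n) ∧ (Q) ≤ (i + l + 1) ∧ (k + l + 2) ≤ (n) ∧ (0) ≤ (i2) ∧ (i2 + 1) ≤ (Q) ∧ (Q + m + 1) ≤ (n + i2) ∧ (i2) ≤ (m) ∧ (Q) ≤ (i + l + m + 2) ∧ (i + l + m + 3) ≤ (n) ∧ (Q) ≤ (k3) ∧ (k3 + 1) ≤ (n) ∧ (i + m + 2) ≤ (k) ∧ (i) ≤ (i2) ∧ (i2) ≤ (i) ∧ (i + m + 1) ≤ (k3) ∧ (k3) ≤ (i + m + 1) ∧ (k3) ≤ (i + l + m + 1) ∧ (m + k3 + 2) ≤ (n + i2)) (a1 : Par W (0) (j) (k - j)) (a2 : Par W (Q + j - k) (j) (k - j)) (s1 : Ant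 W (0) (i) (i + j)) (s2 : Ant W (j + 1) (Q) (i + j)) (b : Par W (i + 1) (i + l + 1) (k - i)) (c1 : Par W (i2 + 1) (Q) (k + l - i2 + 1)) (c2 : Par W (k + l + 2) (n) (i2 - k - l - 1)) (tt : Ant W (i2 - m) (i2) (i + l + i2 + 1)) (D1 : Par W (Q) (k3) (n + i2 - m - k3 - 1)) (D2 : Par W (i + l + m + 3) (n) (k3 - i - l - m - 2)) {L : ℤ} (mx : ∀ a b g, 0 < g → g < n → Par W a b g → b - a ≤ L) (hL : L ≤ (n - j - 3) ∧ L ≤ (n + Q - k - 3) ∧ L ≤ (n - l - 3) ∧ L ≤ (n + i - k - 2)) (bd0 : Bd W n L (j) (i) (k)) (n1 : Nd W (j) (i) (k)) (n2 : Nd W (i + l + 1) (i2) (k + l + 1)) (n3 : Nd W (n + i2 - m - 1) (i + l + m + 2) (k3)) (d1 : ℤ) (q1 : d1 % 2 = 0) (x1 : Par W (i + 1) (k + l - d1 + 1) d1) (b0 : (i + l + 1) ≤ (k + d1)) (b1 : (n + i2) ≤ (i + k + 2 * l + 2)) (b2 : (2 * j + 2 * k3 + 1) ≤ (i + k + 2 * m)) (b3 : (2 * i + 2 * l + 3 * m + 5) ≤ (n + i2 + k3)) (b4 : (k) ≤ (i + m + d1)) (b5 : (j + 2)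 ≤ (Q)) (b6 : (m + k3 + d1) ≤ (i + l + 2 * i2 + 1)) (b7 : (i + l + 2 * i2 + 2) ≤ (2 * j + m + k3 + d1)), False)
    (h9_60 : ∀ {W : ℤ → G} {n Q i j k l i2 m k3 : ℤ} (al : AL W n Q) (hy : (0) ≤ (i) ∧ (i) ≤ (j) ∧ (j + 1) ≤ (Q) ∧ (Q) ≤ (k) ∧ (k + 1) ≤ (n) ∧ (Q) ≤ (i + l + 1) ∧ (k + l + 2) ≤ (n) ∧ (0) ≤ (i2) ∧ (i2 + 1) ≤ (Q) ∧ (Q + m + 1) ≤ (n + i2) ∧ (i2) ≤ (m) ∧ (Q) ≤ (i + l + m + 2) ∧ (i + l + m + 3) ≤ (n) ∧ (Q) ≤ (k3) ∧ (k3 + 1) ≤ (n) ∧ (i + m + 2) ≤ (k) ∧ (i) ≤ (i2) ∧ (i2) ≤ (i) ∧ (i + m + 1) ≤ (k3) ∧ (k3) ≤ (i + m + 1) ∧ (k3) ≤ (i + l + m + 1) ∧ (m + k3 + 2) ≤ (n + i2)) (a1 : Par W (0) (j) (k - j)) (a2 : Par W (Q + j - k) (j) (k - j)) (s1 : Ant W (0) (i) (i + j)) (s2 : Ant W (j + 1) (Q) (i + j)) (b : Par W (i + 1) (i + l + 1) (k - i)) (c1 : Par W (i2 + 1) (Q) (k + l - i2 + 1)) (c2 : Par W (k + l + 2) (n) (i2 - k - l - 1)) (tt : Ant W (i2 - m) (i2) (i + l + i2 + 1)) (D1 : Par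 W (Q) (k3) (n + i2 - m - k3 - 1)) (D2 : Par W (i + l + m + 3) (n) (k3 - i - l - m - 2)) {L : ℤ} (mx : ∀ a b g, 0 < g → g < n → Par W a b g → b - a ≤ L) (hL : L ≤ (n - j - 3) ∧ L ≤ (n + Q - k - 3) ∧ L ≤ (n - l - 3) ∧ L ≤ (n + i - k - 2)) (bd0 : Bd W n L (j) (i) (k)) (n1 : Nd W (j) (i) (k)) (n2 : Nd W (i + l + 1) (i2) (k + l + 1)) (n3 : Nd W (n + i2 - m - 1) (i + l + m + 2) (k3)) (d1 : ℤ) (q1 : d1 % 2 = 0) (x1 : Par W (i + 1) (k + l - d1 + 1) d1) (b0 : (i + l + 1) ≤ (k + d1)) (b1 : (n + i2) ≤ (i + k + 2 * l + 2)) (b2 : (2 * j + 2 * k3 + 1) ≤ (i + k + 2 * m)) (b3 : (2 * i + 2 * l + 3 * m + 5) ≤ (n + i2 + k3)) (b4 : (k) ≤ (i + m + d1)) (b5 : (j + 2) ≤ (Q)) (b6 : (2 * j + m + k3 + d1) ≤ (i + l + 2 * i2 + 1)), False)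
    {W : ℤ → G} {n Q i j k l i2 m k3 : ℤ} (al : AL W n Q)
    (hy : (0) ≤ (i) ∧ (i) ≤ (j) ∧ (j + 1) ≤ (Q) ∧ (Q) ≤ (k) ∧ (k + 1) ≤ (n) ∧ (Q) ≤ (i + l + 1) ∧ (k + l + 2) ≤ (n) ∧ (0) ≤ (i2) ∧ (i2 + 1) ≤ (Q) ∧ (Q + m + 1) ≤ (n + i2) ∧ (i2) ≤ (m) ∧ (Q) ≤ (i + l + m + 2) ∧ (i + l + m + 3) ≤ (n) ∧ (Q) ≤ (k3) ∧ (k3 + 1) ≤ (n) ∧ (i + m + 2) ≤ (k) ∧ (i) ≤ (i2) ∧ (i2) ≤ (i) ∧ (i + m + 1) ≤ (k3) ∧ (k3) ≤ (i + m + 1) ∧ (k3) ≤ (i + l + m + 1) ∧ (m + k3 + 2) ≤ (n + i2))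
    (a1 : Par W (0) (j) (k - j))
    (a2 : Par W (Q + j - k) (j) (k - j))
    (s1 : Ant W (0) (i) (i + j))
    (s2 : Ant W (j + 1) (Q) (i + j))
    (b : Par W (i + 1) (i + l + 1) (k - i))
    (c1 : Par W (i2 + 1) (Q) (k + l - i2 + 1))
    (c2 : Par W (k + l + 2) (n) (i2 - k - l - 1))
    (tt : Ant W (i2 - m) (i2) (i + l + i2 + 1))
    (D1 : Par W (Q) (k3) (n + i2 - m - k3 - 1))
    (D2 : Par W (i + l + m + 3) (n) (k3 - i - l - m - 2))
    {L : ℤ} (mx : ∀ a b g, 0 < g → g < n → Par W a b g → b - a ≤ L)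
    (hL : L ≤ (n - j - 3) ∧ L ≤ (n + Q - k - 3) ∧ L ≤ (n - l - 3) ∧ L ≤ (n + i - k - 2))
    (bd0 : Bd W n L (j) (i) (k))
    (n1 : Nd W (j) (i) (k))
    (n2 : Nd W (i + l + 1) (i2) (k + l + 1))
    (n3 : Nd W (n + i2 - m - 1) (i + l + m + 2) (k3))
    (d1 : ℤ) (q1 : d1 % 2 = 0) (x1 : Par W (i + 1) (k + l - d1 + 1) d1)
    (b0 : (i + l + 1) ≤ (k + d1))
    (b1 : (n + i2) ≤ (i + k + 2 * l + 2))
    (b2 : (2 * j + 2 * k3 + 1) ≤ (i + k + 2 * m))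
    (b3 : (2 * i + 2 * l + 3 * m + 5) ≤ (n + i2 + k3))
    (b4 : (k) ≤ (i + m + d1))
    (b5 : (j + 2) ≤ (Q))
    (b6 : (m + k3 + d1) ≤ (i + l + 2 * i2 + 1)) : False := by
  have ev := al.ev
  obtain ⟨y0, y1, y2, y3, y4, y5, y6, y7, y8, y9, y10, y11, y12, y13, y14, y15, y16, y17, y18, y19, y20, y21⟩ := id hy
  have n1p := And.intro n1.p1 n1.p2
  have n2p := And.intro n2.p1 n2.p2
  have n3p := And.intro n3.p1 n3.p2
  by_cases z129 : (i + l + 2 * i2 + 2) ≤ (2 * j + m + k3 + d1)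
  · exact h9_59 al hy a1 a2 s1 s2 b c1 c2 tt D1 D2 mx hL bd0 n1 n2 n3 d1 q1 x1 (by clear * - b0; omega) (by clear * - b1; omega) (by clear * - b2; omega) (by clear * - b3; omega) (by clear * - b4; omega) (by clear * - b5; omega) (by clear * - b6; omega) (by clear * - z129; omega)
  · exact h9_60 al hy a1 a2 s1 s2 b c1 c2 tt D1 D2 mx hL bd0 n1 n2 n3 d1 q1 x1 (by clear * - b0; omega) (by clear * - b1; omega) (by clear * - b2; omega) (by clear * - b3; omega) (by clear * - b4; omega) (by clear * - b5; omega) (by clear * - z129; omega)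

theorem h9_53p
    (h9_54 : ∀ {W : ℤ → G} {n Q i j k l i2 m k3 : ℤ} (al : AL W n Q) (hy : (0) ≤ (i) ∧ (i) ≤ (j) ∧ (j + 1) ≤ (Q) ∧ (Q) ≤ (k) ∧ (k + 1) ≤ (n) ∧ (Q) ≤ (i + l + 1) ∧ (k + l + 2) ≤ (n) ∧ (0) ≤ (i2) ∧ (i2 + 1) ≤ (Q) ∧ (Q + m + 1) ≤ (n + i2) ∧ (i2) ≤ (m) ∧ (Q) ≤ (i + l + m + 2) ∧ (i + l + m + 3) ≤ (n) ∧ (Q) ≤ (k3) ∧ (k3 + 1) ≤ (n) ∧ (i + m + 2) ≤ (k) ∧ (i) ≤ (i2) ∧ (i2) ≤ (i) ∧ (i + m + 1) ≤ (k3) ∧ (k3) ≤ (i + m + 1) ∧ (k3) ≤ (i + l + m + 1) ∧ (m + k3 + 2) ≤ (n + i2)) (a1 : Par W (0) (j) (k - j)) (a2 : Par W (Q + j - k) (j) (k - j)) (s1 : Ant W (0) (i) (i + j)) (s2 : Ant W (j + 1) (Q) (i + j)) (b : Par W (i + 1) (i + l + 1) (k - i)) (c1 : Par W (i2 + 1) (Q) (k + l - i2 + 1)) (c2 : Par W (k + l + 2) (n) (i2 - k - l - 1)) (tt : Ant W (i2 - m) (i2) (i + l + i2 + 1)) (D1 : Par W (Q) (k3) (n + i2 - m - k3 - 1)) (D2 : Par W (i + l + m + 3) (n) (k3 - i - l - m - 2)) {L :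 ℤ} (mx : ∀ a b g, 0 < g → g < n → Par W a b g → b - a ≤ L) (hL : L ≤ (n - j - 3) ∧ L ≤ (n + Q - k - 3) ∧ L ≤ (n - l - 3) ∧ L ≤ (n + i - k - 2)) (bd0 : Bd W n L (j) (i) (k)) (n1 : Nd W (j) (i) (k)) (n2 : Nd W (i + l + 1) (i2) (k + l + 1)) (n3 : Nd W (n + i2 - m - 1) (i + l + m + 2) (k3)) (d1 : ℤ) (q1 : d1 % 2 = 0) (x1 : Par W (i + 1) (k + l - d1 + 1) d1) (b0 : (i + l + 1) ≤ (k + d1)) (b1 : (d1) ≤ (l)) (b2 : (0) ≤ (d1)) (b3 : (k + 2 * l + 3) ≤ (n + i + d1)) (b4 : (n + i2) ≤ (i + k + 2 * l + 2)) (b5 : (k + 2 * m + 1) ≤ (n + j)) (b6 : (2 * j + 2 * k3 + 1) ≤ (i + k + 2 * m)) (b7 : (2 * k + 3) ≤ (n + 2 * Q)) (b8 : (2 * i + 2 * l + 3 * m + 5) ≤ (n + i2 + k3)) (b9 : (i + m + d1 + 1) ≤ (k)), False)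
    (h9_55 : ∀ {W : ℤ → G} {n Q i j k l i2 m k3 : ℤ} (al : AL W n Q) (hy : (0) ≤ (i) ∧ (i) ≤ (j) ∧ (j + 1) ≤ (Q) ∧ (Q) ≤ (k) ∧ (k + 1) ≤ (n) ∧ (Q) ≤ (i + l + 1) ∧ (k + l + 2) ≤ (n) ∧ (0) ≤ (i2) ∧ (i2 + 1) ≤ (Q) ∧ (Q + m + 1) ≤ (n + i2) ∧ (i2) ≤ (m) ∧ (Q) ≤ (i + l + m + 2) ∧ (i + l + m + 3) ≤ (n) ∧ (Q) ≤ (k3) ∧ (k3 + 1) ≤ (n) ∧ (i + m + 2) ≤ (k) ∧ (i) ≤ (i2) ∧ (i2) ≤ (i) ∧ (i + m + 1) ≤ (k3) ∧ (k3) ≤ (i + m + 1) ∧ (k3) ≤ (i + l + m + 1) ∧ (m + k3 + 2) ≤ (n + i2)) (a1 : Par W (0) (j) (k - j)) (a2 : Par W (Q + j - k) (j) (k - j)) (s1 : Ant W (0) (i) (i + j)) (s2 : Ant W (j + 1) (Q) (i + j)) (b : Par W (i + 1) (i + l + 1) (k - i)) (c1 : Par W (i2 + 1) (Q) (k + l - i2 + 1)) (c2 : Par W (k + l + 2) (n) (i2 - k - l - 1)) (tt : Ant W (i2 - m) (i2) (i + l + i2 + 1)) (D1 : Par W (Q) (k3) (n + i2 - m - k3 - 1)) (D2 : Par W (i + l + m + 3) (n) (k3 - i - l - m - 2)) {L : ℤ} (mx : ∀ a b g,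 0 < g → g < n → Par W a b g → b - a ≤ L) (hL : L ≤ (n - j - 3) ∧ L ≤ (n + Q - k - 3) ∧ L ≤ (n - l - 3) ∧ L ≤ (n + i - k - 2)) (bd0 : Bd W n L (j) (i) (k)) (n1 : Nd W (j) (i) (k)) (n2 : Nd W (i + l + 1) (i2) (k + l + 1)) (n3 : Nd W (n + i2 - m - 1) (i + l + m + 2) (k3)) (d1 : ℤ) (q1 : d1 % 2 = 0) (x1 : Par W (i + 1) (k + l - d1 + 1) d1) (b0 : (i + l + 1) ≤ (k + d1)) (b1 : (d1) ≤ (l)) (b2 : (n + i2) ≤ (i + k + 2 * l + 2)) (b3 : (k + 2 * m + 1) ≤ (n + j)) (b4 : (2 * j + 2 * k3 + 1) ≤ (i + k + 2 * m)) (b5 : (2 * i + 2 * l + 3 * m + 5) ≤ (n + i2 + k3)) (b6 : (k) ≤ (i + m + d1)), False)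
    {W : ℤ → G} {n Q i j k l i2 m k3 : ℤ} (al : AL W n Q)
    (hy : (0) ≤ (i) ∧ (i) ≤ (j) ∧ (j + 1) ≤ (Q) ∧ (Q) ≤ (k) ∧ (k + 1) ≤ (n) ∧ (Q) ≤ (i + l + 1) ∧ (k + l + 2) ≤ (n) ∧ (0) ≤ (i2) ∧ (i2 + 1) ≤ (Q) ∧ (Q + m + 1) ≤ (n + i2) ∧ (i2) ≤ (m) ∧ (Q) ≤ (i + l + m + 2) ∧ (i + l + m + 3) ≤ (n) ∧ (Q) ≤ (k3) ∧ (k3 + 1) ≤ (n) ∧ (i + m + 2) ≤ (k) ∧ (i) ≤ (i2) ∧ (i2) ≤ (i) ∧ (i + m + 1) ≤ (k3) ∧ (k3) ≤ (i + m + 1) ∧ (k3) ≤ (i + l + m + 1) ∧ (m + k3 + 2) ≤ (n + i2))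
    (a1 : Par W (0) (j) (k - j))
    (a2 : Par W (Q + j - k) (j) (k - j))
    (s1 : Ant W (0) (i) (i + j))
    (s2 : Ant W (j + 1) (Q) (i + j))
    (b : Par W (i + 1) (i + l + 1) (k - i))
    (c1 : Par W (i2 + 1) (Q) (k + l - i2 + 1))
    (c2 : Par W (k + l + 2) (n) (i2 - k - l - 1))
    (tt : Ant W (i2 - m) (i2) (i + l + i2 + 1))
    (D1 : Par W (Q) (k3) (n + i2 - m - k3 - 1))
    (D2 : Par W (i + l + m + 3) (n) (k3 - i - l - m - 2))
    {L : ℤ} (mx : ∀ a b g, 0 < g → g < n → Par W a b g → b - a ≤ L)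
    (hL : L ≤ (n - j - 3) ∧ L ≤ (n + Q - k - 3) ∧ L ≤ (n - l - 3) ∧ L ≤ (n + i - k - 2))
    (bd0 : Bd W n L (j) (i) (k))
    (n1 : Nd W (j) (i) (k))
    (n2 : Nd W (i + l + 1) (i2) (k + l + 1))
    (n3 : Nd W (n + i2 - m - 1) (i + l + m + 2) (k3))
    (d1 : ℤ) (q1 : d1 % 2 = 0) (x1 : Par W (i + 1) (k + l - d1 + 1) d1)
    (b0 : (i + l + 1) ≤ (k + d1))
    (b1 : (d1) ≤ (l))
    (b2 : (0) ≤ (d1))
    (b3 : (k + 2 * l + 3) ≤ (n + i + d1))
    (b4 : (n + i2) ≤ (i + k + 2 * l + 2))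
    (b5 : (k + 2 * m + 1) ≤ (n + j))
    (b6 : (2 * j + 2 * k3 + 1) ≤ (i + k + 2 * m))
    (b7 : (2 * k + 3) ≤ (n + 2 * Q))
    (b8 : (2 * i + 2 * l + 3 * m + 5) ≤ (n + i2 + k3)) : False := by
  have ev := al.ev
  obtain ⟨y0, y1, y2, y3, y4, y5, y6, y7, y8, y9, y10, y11, y12, y13, y14, y15, y16, y17, y18, y19, y20, y21⟩ := id hy
  have n1p := And.intro n1.p1 n1.p2
  have n2p := And.intro n2.p1 n2.p2
  have n3p := And.intro n3.p1 n3.p2
  by_cases z116 : (i + m + d1 + 1) ≤ (k)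
  · exact h9_54 al hy a1 a2 s1 s2 b c1 c2 tt D1 D2 mx hL bd0 n1 n2 n3 d1 q1 x1 (by clear * - b0; omega) (by clear * - b1; omega) (by clear * - b2; omega) (by clear * - b3; omega) (by clear * - b4; omega) (by clear * - b5; omega) (by clear * - b6; omega) (by clear * - b7; omega) (by clear * - b8; omega) (by clear * - z116; omega)
  · exact h9_55 al hy a1 a2 s1 s2 b c1 c2 tt D1 D2 mx hL bd0 n1 n2 n3 d1 q1 x1 (by clear * - b0; omega) (by clear * - b1; omega) (by clear * - b4; omega) (by clear * - b5; omega) (by clear * - b6; omega) (by clear * - b8; omega) (by clear * - z116; omega)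

end Pool.Agent.MP_a38735_al.WL
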