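import Pool.Agent.MP_a38735_al.WT

set_option autoImplicit false
set_option linter.unusedVariables false

namespace Pool.Agent.MP_a38735_al.WL

variable {G : Type*} [Group G]

theorem h8_13p
    (h8_14 : ∀ {W : ℤ → G} {n Q i j k l i2 m k3 : ℤ} (al : AL W n Q) (hy : (0) ≤ (i) ∧ (i) ≤ (j) ∧ (j + 1) ≤ (Q) ∧ (Q) ≤ (k) ∧ (k + 1) ≤ (n) ∧ (Q) ≤ (i + l + 1) ∧ (k + l + 2) ≤ (n) ∧ (0) ≤ (i2) ∧ (i2 + 1) ≤ (Q) ∧ (Q + m + 1) ≤ (n + i2) ∧ (i2) ≤ (m) ∧ (Q) ≤ (i + l + m + 2) ∧ (i + l + m + 3) ≤ (n) ∧ (Q) ≤ (k3) ∧ (k3 + 1) ≤ (n) ∧ (i + m + 2) ≤ (k) ∧ (i) ≤ (i2) ∧ (i2) ≤ (i) ∧ (i + m + 2) ≤ (k3) ∧ (k3) ≤ (i + l + m + 1) ∧ (m + k3 + 2) ≤ (n + i2)) (a1 : Par W (0) (j) (k - j)) (a2 : Par W (Q + j - k) (j) (k - j)) (s1 : Ant W (0) (i) (i + j)) (s2 : Ant W (j + 1) (Q) (i + j)) (b : Par W (i + 1) (i + l + 1) (k - i)) (c1 : Par W (i2 + 1) (Q) (k + l - i2 + 1)) (c2 : Par W (k + l + 2) (n) (i2 - k - l - 1)) (tt :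 Ant W (i2 - m) (i2) (i + l + i2 + 1)) (D1 : Par W (Q) (k3) (n + i2 - m - k3 - 1)) (D2 : Par W (i + l + m + 3) (n) (k3 - i - l - m - 2)) {L : ℤ} (mx : ∀ a b g, 0 < g → g < n → Par W a b g → b - a ≤ L) (hL : L ≤ (n - j - 3) ∧ L ≤ (n + Q - k - 3) ∧ L ≤ (n - l - 3) ∧ L ≤ (n + i - k - 2)) (bd0 : Bd W n L (j) (i) (k)) (n1 : Nd W (j) (i) (k)) (n2 : Nd W (i + l + 1) (i2) (k + l + 1)) (n3 : Nd W (n + i2 - m - 1) (i + l + m + 2) (k3)) (b0 : (2 * l + 3) ≤ (n)) (b1 : (n + k3) ≤ (2 * i + 2 * l + i2 + m + 4)) (b2 : (i2 + 2 * m) ≤ (i + l)) (b3 : (2 * i + j + 1) ≤ (k)) (b4 : (2 * Q + k + l) ≤ (n + 2 * j + i2)) (b5 : (k + k3) ≤ (2 * i + l + m + 1)) (b6 : (i + k3) ≤ (k + i2)), False)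
    (h8_15 : ∀ {W : ℤ → G} {n Q i j k l i2 m k3 : ℤ} (al : AL W n Q) (hy : (0) ≤ (i) ∧ (i) ≤ (j) ∧ (j + 1) ≤ (Q) ∧ (Q) ≤ (k) ∧ (k + 1) ≤ (n) ∧ (Q) ≤ (i + l + 1) ∧ (k + l + 2) ≤ (n) ∧ (0) ≤ (i2) ∧ (i2 + 1) ≤ (Q) ∧ (Q + m + 1) ≤ (n + i2) ∧ (i2) ≤ (m) ∧ (Q) ≤ (i + l + m + 2) ∧ (i + l + m + 3) ≤ (n) ∧ (Q) ≤ (k3) ∧ (k3 + 1) ≤ (n) ∧ (i + m + 2) ≤ (k) ∧ (i) ≤ (i2) ∧ (i2) ≤ (i) ∧ (i + m + 2) ≤ (k3) ∧ (k3) ≤ (i + l + m + 1) ∧ (m + k3 + 2) ≤ (n + i2)) (a1 : Par W (0) (j) (k - j)) (a2 : Par W (Q + j - k) (j) (k - j)) (s1 : Ant W (0) (i) (i + j)) (s2 : Ant W (j + 1) (Q) (i + j)) (b : Par W (i + 1) (i + l + 1) (k - i)) (c1 : Par W (i2 + 1) (Q) (k + l - i2 + 1)) (c2 : Par W (k + l + 2) (n) (i2 - k - l - 1)) (tt : Ant W (i2 - m) (i2) (i + l + i2 + 1)) (D1 : Par W (Q) (k3) (n + i2 - m - k3 - 1)) (D2 : Par W (i + l + m + 3) (n) (k3 - i - l - m - 2)) {L : ℤ} (mx : ∀ a b g, 0 < g → g < n → Par W a b g → b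 - a ≤ L) (hL : L ≤ (n - j - 3) ∧ L ≤ (n + Q - k - 3) ∧ L ≤ (n - l - 3) ∧ L ≤ (n + i - k - 2)) (bd0 : Bd W n L (j) (i) (k)) (n1 : Nd W (j) (i) (k)) (n2 : Nd W (i + l + 1) (i2) (k + l + 1)) (n3 : Nd W (n + i2 - m - 1) (i + l + m + 2) (k3)) (b0 : (2 * l + 3) ≤ (n)) (b1 : (n + k3) ≤ (2 * i + 2 * l + i2 + m + 4)) (b2 : (i2 + 2 * m) ≤ (i + l)) (b3 : (2 * i + j + 1) ≤ (k)) (b4 : (2 * Q + k + l) ≤ (n + 2 * j + i2)) (b5 : (k + k3) ≤ (2 * i + l + m + 1)) (b6 : (k + i2 + 1) ≤ (i + k3)), False)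
    {W : ℤ → G} {n Q i j k l i2 m k3 : ℤ} (al : AL W n Q)
    (hy : (0) ≤ (i) ∧ (i) ≤ (j) ∧ (j + 1) ≤ (Q) ∧ (Q) ≤ (k) ∧ (k + 1) ≤ (n) ∧ (Q) ≤ (i + l + 1) ∧ (k + l + 2) ≤ (n) ∧ (0) ≤ (i2) ∧ (i2 + 1) ≤ (Q) ∧ (Q + m + 1) ≤ (n + i2) ∧ (i2) ≤ (m) ∧ (Q) ≤ (i + l + m + 2) ∧ (i + l + m + 3) ≤ (n) ∧ (Q) ≤ (k3) ∧ (k3 + 1) ≤ (n) ∧ (i + m + 2) ≤ (k) ∧ (i) ≤ (i2) ∧ (i2) ≤ (i) ∧ (i + m + 2) ≤ (k3) ∧ (k3) ≤ (i + l + m + 1) ∧ (m + k3 + 2) ≤ (n + i2))
    (a1 : Par W (0) (j) (k - j))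
    (a2 : Par W (Q + j - k) (j) (k - j))
    (s1 : Ant W (0) (i) (i + j))
    (s2 : Ant W (j + 1) (Q) (i + j))
    (b : Par W (i + 1) (i + l + 1) (k - i))
    (c1 : Par W (i2 + 1) (Q) (k + l - i2 + 1))
    (c2 : Par W (k + l + 2) (n) (i2 - k - l - 1))
    (tt : Ant W (i2 - m) (i2) (i + l + i2 + 1))
    (D1 : Par W (Q) (k3) (n + i2 - m - k3 - 1))
    (D2 : Par W (i + l + m + 3) (n) (k3 - i - l - m - 2))
    {L : ℤ} (mx : ∀ a b g, 0 < g → g < n → Par W a b g → b - a ≤ L)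
    (hL : L ≤ (n - j - 3) ∧ L ≤ (n + Q - k - 3) ∧ L ≤ (n - l - 3) ∧ L ≤ (n + i - k - 2))
    (bd0 : Bd W n L (j) (i) (k))
    (n1 : Nd W (j) (i) (k))
    (n2 : Nd W (i + l + 1) (i2) (k + l + 1))
    (n3 : Nd W (n + i2 - m - 1) (i + l + m + 2) (k3))
    (b0 : (2 * l + 3) ≤ (n))
    (b1 : (n + k3) ≤ (2 * i + 2 * l + i2 + m + 4))
    (b2 : (i2 + 2 * m) ≤ (i + l))
    (b3 : (2 * i + j + 1) ≤ (k))
    (b4 : (2 * Q + k + l) ≤ (n + 2 * j + i2))
    (b5 : (k + k3) ≤ (2 * i + l + m + 1)) : False := by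
  have ev := al.ev
  obtain ⟨y0, y1, y2, y3, y4, y5, y6, y7, y8, y9, y10, y11, y12, y13, y14, y15, y16, y17, y18, y19, y20⟩ := id hy
  have n1p := And.intro n1.p1 n1.p2
  have n2p := And.intro n2.p1 n2.p2
  have n3p := And.intro n3.p1 n3.p2
  by_cases z25 : (i + k3) ≤ (k + i2)
  · exact h8_14 al hy a1 a2 s1 s2 b c1 c2 tt D1 D2 mx hL bd0 n1 n2 n3 (by clear * - b0; omega) (by clear * - b1; omega) (by clear * - b2; omega) (by clear * - b3; omega) (by clear * - b4; omega) (by clear * - b5; omega) (by clear * - z25; omega)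
  · exact h8_15 al hy a1 a2 s1 s2 b c1 c2 tt D1 D2 mx hL bd0 n1 n2 n3 (by clear * - b0; omega) (by clear * - b1; omega) (by clear * - b2; omega) (by clear * - b3; omega) (by clear * - b4; omega) (by clear * - b5; omega) (by clear * - z25; omega)

theorem h8_10p
    (h8_11 : ∀ {W : ℤ → G} {n Q i j k l i2 m k3 : ℤ} (al : AL W n Q) (hy : (0) ≤ (i) ∧ (i) ≤ (j) ∧ (j + 1) ≤ (Q) ∧ (Q) ≤ (k) ∧ (k + 1) ≤ (n) ∧ (Q) ≤ (i + l + 1) ∧ (k + l + 2) ≤ (n) ∧ (0) ≤ (i2) ∧ (i2 + 1) ≤ (Q) ∧ (Q + m + 1) ≤ (n + i2) ∧ (i2) ≤ (m) ∧ (Q) ≤ (i + l + m + 2) ∧ (i + l + m + 3) ≤ (n) ∧ (Q) ≤ (k3) ∧ (k3 + 1) ≤ (n) ∧ (i + m + 2) ≤ (k) ∧ (i) ≤ (i2) ∧ (i2) ≤ (i) ∧ (i + m + 2) ≤ (k3) ∧ (k3) ≤ (i + l + m + 1) ∧ (m + k3 + 2) ≤ (n + i2)) (a1 : Par W (0) (j) (k - j)) (a2 : Par W (Q + j - k) (j) (k - j)) (s1 : Ant W (0) (i) (i + j)) (s2 : Ant W (j + 1) (Q) (i + j)) (b : Par W (i + 1) (i + l + 1) (k - i)) (c1 : Par W (i2 + 1) (Q)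 (k + l - i2 + 1)) (c2 : Par W (k + l + 2) (n) (i2 - k - l - 1)) (tt : Ant W (i2 - m) (i2) (i + l + i2 + 1)) (D1 : Par W (Q) (k3) (n + i2 - m - k3 - 1)) (D2 : Par W (i + l + m + 3) (n) (k3 - i - l - m - 2)) {L : ℤ} (mx : ∀ a b g, 0 < g → g < n → Par W a b g → b - a ≤ L) (hL : L ≤ (n - j - 3) ∧ L ≤ (n + Q - k - 3) ∧ L ≤ (n - l - 3) ∧ L ≤ (n + i - k - 2)) (bd0 : Bd W n L (j) (i) (k)) (n1 : Nd W (j) (i) (k)) (n2 : Nd W (i + l + 1) (i2) (k + l + 1)) (n3 : Nd W (n + i2 - m - 1) (i + l + m + 2) (k3)) (b0 : (2 * l + 3) ≤ (n)) (b1 : (n + k3) ≤ (2 * i + 2 * l + i2 + m + 4)) (b2 : (i2 + 2 * m) ≤ (i + l)) (b3 : (2 * i + j + 1) ≤ (k)) (b4 : (2 * Q + k + l) ≤ (n + 2 * j + i2)), False)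
    {W : ℤ → G} {n Q i j k l i2 m k3 : ℤ} (al : AL W n Q)
    (hy : (0) ≤ (i) ∧ (i) ≤ (j) ∧ (j + 1) ≤ (Q) ∧ (Q) ≤ (k) ∧ (k + 1) ≤ (n) ∧ (Q) ≤ (i + l + 1) ∧ (k + l + 2) ≤ (n) ∧ (0) ≤ (i2) ∧ (i2 + 1) ≤ (Q) ∧ (Q + m + 1) ≤ (n + i2) ∧ (i2) ≤ (m) ∧ (Q) ≤ (i + l + m + 2) ∧ (i + l + m + 3) ≤ (n) ∧ (Q) ≤ (k3) ∧ (k3 + 1) ≤ (n) ∧ (i + m + 2) ≤ (k) ∧ (i) ≤ (i2) ∧ (i2) ≤ (i) ∧ (i + m + 2) ≤ (k3) ∧ (k3) ≤ (i + l + m + 1) ∧ (m + k3 + 2) ≤ (n + i2))
    (a1 : Par W (0) (j) (k - j))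
    (a2 : Par W (Q + j - k) (j) (k - j))
    (s1 : Ant W (0) (i) (i + j))
    (s2 : Ant W (j + 1) (Q) (i + j))
    (b : Par W (i + 1) (i + l + 1) (k - i))
    (c1 : Par W (i2 + 1) (Q) (k + l - i2 + 1))
    (c2 : Par W (k + l + 2) (n) (i2 - k - l - 1))
    (tt : Ant W (i2 - m) (i2) (i + l + i2 + 1))
    (D1 : Par W (Q) (k3) (n + i2 - m - k3 - 1))
    (D2 : Par W (i + l + m + 3) (n) (k3 - i - l - m - 2))
    {L : ℤ} (mx : ∀ a b g, 0 < g → g < n → Par W a b g → b - a ≤ L)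
    (hL : L ≤ (n - j - 3) ∧ L ≤ (n + Q - k - 3) ∧ L ≤ (n - l - 3) ∧ L ≤ (n + i - k - 2))
    (bd0 : Bd W n L (j) (i) (k))
    (n1 : Nd W (j) (i) (k))
    (n2 : Nd W (i + l + 1) (i2) (k + l + 1))
    (n3 : Nd W (n + i2 - m - 1) (i + l + m + 2) (k3))
    (b0 : (2 * l + 3) ≤ (n))
    (b1 : (n + k3) ≤ (2 * i + 2 * l + i2 + m + 4))
    (b2 : (i2 + 2 * m) ≤ (i + l))
    (b3 : (2 * i + j + 1) ≤ (k)) : False := by
  have ev := al.ev
  obtain ⟨y0, y1, y2, y3, y4, y5, y6, y7, y8, y9, y10, y11, y12, y13, y14, y15, y16, y17, y18, y19, y20⟩ := id hy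
  have n1p := And.intro n1.p1 n1.p2
  have n2p := And.intro n2.p1 n2.p2
  have n3p := And.intro n3.p1 n3.p2
  by_cases z22 : (n + 2 * j + i2 + 1) ≤ (2 * Q + k + l)
  · have kk320 : (k + l + 2) ≤ (n + i2) := by clear * - b0 b1 y16 y18 y6; omega
    have kk321 : (n + 2 * j + i2 + 1) ≤ (2 * Q + k + l) := by clear * - z22; omega
    have kk322 : (k + l + i2 + 3) ≤ (n + 2 * i) := by clear * - b0 b1 y17 y18 y6; omega
    have kk323 : (i) ≤ (Q) := by clear * - y16 y8; omega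
    have kk324 : (k + l + 1) ≤ (n + j) := by clear * - b0 b1 y1 y17 y18 y6; omega
    have r325 : (i + j) % 2 = 0 := by clear * - ev n1p n2p n3p; omega
    have r326 : (n + i2 - k - l - 1) % 2 = 0 := by clear * - ev n1p n2p n3p; omega
    clear * - al s2 c1 kk320 kk321 kk322 kk323 kk324 r325 r326
    exact midP al (n + i2 - k - l - 1) (i + j) (j + 1) (k + l - n + 2) (Q) (by omega) (fun t h1 h2 => (qa s2 al 0 t ((i + j) - t) (by omega))) (fun t h1 h2 => (pb c1 al (-1) t (t + (n + i2 - k - l - 1)) (by omega)))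
  · exact h8_11 al hy a1 a2 s1 s2 b c1 c2 tt D1 D2 mx hL bd0 n1 n2 n3 (by clear * - b0; omega) (by clear * - b1; omega) (by clear * - b2; omega) (by clear * - b3; omega) (by clear * - z22; omega)

theorem h8_57p
    (h8_58 : ∀ {W : ℤ → G} {n Q i j k l i2 m k3 : ℤ} (al : AL W n Q) (hy : (0) ≤ (i) ∧ (i) ≤ (j) ∧ (j + 1) ≤ (Q) ∧ (Q) ≤ (k) ∧ (k + 1) ≤ (n) ∧ (Q) ≤ (i + l + 1) ∧ (k + l + 2) ≤ (n) ∧ (0) ≤ (i2) ∧ (i2 + 1) ≤ (Q) ∧ (Q + m + 1) ≤ (n + i2) ∧ (i2) ≤ (m) ∧ (Q) ≤ (i + l + m + 2) ∧ (i + l + m + 3) ≤ (n) ∧ (Q) ≤ (k3) ∧ (k3 + 1) ≤ (n) ∧ (i + m + 2) ≤ (k) ∧ (i) ≤ (i2) ∧ (i2) ≤ (i) ∧ (i + m + 2) ≤ (k3) ∧ (k3) ≤ (i + l + m + 1) ∧ (m + k3 + 2) ≤ (n + i2)) (a1 : Par W (0) (j) (k - j)) (a2 : Par W (Q + j - k) (j) (k - j)) (s1 : Ant W (0) (i) (i + j)) (s2 : Ant W (j + 1) (Q) (i + j)) (b : Par W (i + 1) (i + l + 1) (k - i)) (c1 : Par W (i2 + 1) (Q) (k + l - i2 + 1)) (c2 : Par W (k + l + 2) (n) (i2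 - k - l - 1)) (tt : Ant W (i2 - m) (i2) (i + l + i2 + 1)) (D1 : Par W (Q) (k3) (n + i2 - m - k3 - 1)) (D2 : Par W (i + l + m + 3) (n) (k3 - i - l - m - 2)) {L : ℤ} (mx : ∀ a b g, 0 < g → g < n → Par W a b g → b - a ≤ L) (hL : L ≤ (n - j - 3) ∧ L ≤ (n + Q - k - 3) ∧ L ≤ (n - l - 3) ∧ L ≤ (n + i - k - 2)) (bd0 : Bd W n L (j) (i) (k)) (n1 : Nd W (j) (i) (k)) (n2 : Nd W (i + l + 1) (i2) (k + l + 1)) (n3 : Nd W (n + i2 - m - 1) (i + l + m + 2) (k3)) (b0 : (2 * l + 3) ≤ (n)) (b1 : (2 * i + j + 1) ≤ (k)) (b2 : (k + i2 + m + 1) ≤ (i + k3)) (b3 : (2 * Q + k + 2 * l + 2 * m + 4) ≤ (n + j + 2 * k3)) (b4 : (4 * k + l + 2) ≤ (n + 2 * i + i2)) (b5 : (i + 2 * l + 2 * m + 4) ≤ (n + j)) (b6 : (3 * k) ≤ (i + 2 * j + k3)) (b7 : (n + 2 * k3) ≤ (i + 2 * k + 2 * l + 2 * m + 3)), False)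
    {W : ℤ → G} {n Q i j k l i2 m k3 : ℤ} (al : AL W n Q)
    (hy : (0) ≤ (i) ∧ (i) ≤ (j) ∧ (j + 1) ≤ (Q) ∧ (Q) ≤ (k) ∧ (k + 1) ≤ (n) ∧ (Q) ≤ (i + l + 1) ∧ (k + l + 2) ≤ (n) ∧ (0) ≤ (i2) ∧ (i2 + 1) ≤ (Q) ∧ (Q + m + 1) ≤ (n + i2) ∧ (i2) ≤ (m) ∧ (Q) ≤ (i + l + m + 2) ∧ (i + l + m + 3) ≤ (n) ∧ (Q) ≤ (k3) ∧ (k3 + 1) ≤ (n) ∧ (i + m + 2) ≤ (k) ∧ (i) ≤ (i2) ∧ (i2) ≤ (i) ∧ (i + m + 2) ≤ (k3) ∧ (k3) ≤ (i + l + m + 1) ∧ (m + k3 + 2) ≤ (n + i2))
    (a1 : Par W (0) (j) (k - j))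
    (a2 : Par W (Q + j - k) (j) (k - j))
    (s1 : Ant W (0) (i) (i + j))
    (s2 : Ant W (j + 1) (Q) (i + j))
    (b : Par W (i + 1) (i + l + 1) (k - i))
    (c1 : Par W (i2 + 1) (Q) (k + l - i2 + 1))
    (c2 : Par W (k + l + 2) (n) (i2 - k - l - 1))
    (tt : Ant W (i2 - m) (i2) (i + l + i2 + 1))
    (D1 : Par W (Q) (k3) (n + i2 - m - k3 - 1))
    (D2 : Par W (i + l + m + 3) (n) (k3 - i - l - m - 2))
    {L : ℤ} (mx : ∀ a b g, 0 < g → g < n → Par W a b g → b - a ≤ L)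
    (hL : L ≤ (n - j - 3) ∧ L ≤ (n + Q - k - 3) ∧ L ≤ (n - l - 3) ∧ L ≤ (n + i - k - 2))
    (bd0 : Bd W n L (j) (i) (k))
    (n1 : Nd W (j) (i) (k))
    (n2 : Nd W (i + l + 1) (i2) (k + l + 1))
    (n3 : Nd W (n + i2 - m - 1) (i + l + m + 2) (k3))
    (b0 : (2 * l + 3) ≤ (n))
    (b1 : (2 * i + j + 1) ≤ (k))
    (b2 : (n + k3) ≤ (i + k + 2 * l + m + 3))
    (b3 : (k + i2 + m + 1) ≤ (i + k3))
    (b4 : (i + m + k3 + 3) ≤ (Q + k + i2))
    (b5 : (2 * Q + k + 2 * l + 2 * m + 4) ≤ (n + j + 2 * k3))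
    (b6 : (4 * k + l + 2) ≤ (n + 2 * i + i2))
    (b7 : (i + 2 * l + 2 * m + 4) ≤ (n + j))
    (b8 : (3 * k) ≤ (i + 2 * j + k3)) : False := by
  have ev := al.ev
  obtain ⟨y0, y1, y2, y3, y4, y5, y6, y7, y8, y9, y10, y11, y12, y13, y14, y15, y16, y17, y18, y19, y20⟩ := id hy
  have n1p := And.intro n1.p1 n1.p2
  have n2p := And.intro n2.p1 n2.p2
  have n3p := And.intro n3.p1 n3.p2
  by_cases z111 : (i + 2 * k + 2 * l + 2 * m + 4) ≤ (n + 2 * k3)
  · by_cases z112 : (n + i2 + 2 * k3) ≤ (i + j + k + 2 * l + 3 * m + 5)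
    · have kk1288 : (i + 1) ≤ (k) := by clear * - b0 b1 b2 b7 b8 z111; omega
      have kk1289 : (0) ≤ (l) := by clear * - b0 b1 b2 b6 b7 b8 z111 z112; omega
      have kk1290 : (i + 1) ≤ (j) := by clear * - b0 b1 b2 b7 b8 z111; omega
      have kk1291 : (j) ≤ (k + l) := by clear * - b0 b1 b2 b6 b7 b8 z111 z112; omega
      have kk1292 : (n + i2 + 2 * k3) ≤ (i + j + k + 2 * l + 3 * m + 5) := by clear * - z112; omega
      have kk1293 : (i + 2 * k + 2 * l + 2 * m + 4) ≤ (n + 2 * k3) := by clear * - z111; omega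
      have kk1294 : (2 * i + 2 * l + 3 * m + 5) ≤ (n + i2 + k3) := by clear * - b0 b1 b2 b4 b5 z111; omega
      have kk1295 : (i + l + 2 * m + 3) ≤ (n + i2) := by clear * - b0 b1 b2 b6 b7 b8 z111; omega
      have kk1296 : (0) ≤ (i2) := by clear * - b0 b2 y16 z111; omega
      have kk1297 : (k3) ≤ (i + l + m + 2) := by clear * - b0 b1 b2 b6 b7 b8 z111 z112; omega
      have kk1298 : (0) ≤ (i + 1) := by clear * - b0 b2 z111; omega
      have kk1299 : (j) ≤ (k) := by clear * - b0 b1 b2 z111; omega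
      have kk1300 : (j) ≤ (k + l + 1) := by clear * - b0 b1 b2 b6 b7 b8 z111 z112; omega
      have kk1301 : (0) ≤ (l + 1) := by clear * - b0 b1 b2 b6 b7 b8 z111 z112; omega
      have kk1302 : (i + m + 1) ≤ (k) := by clear * - b0 b1 b2 b7 b8 z111; omega
      have kk1303 : (3 * i + 2 * l + 3 * m + 5) ≤ (n + i2 + 2 * k3) := by clear * - b0 b1 b2 b4 b5 b8 z111 z112; omega
      have kk1304 : (0) ≤ (l + i2 + 1) := by clear * - b0 b1 b2 b6 b7 b8 z111; omega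
      have kk1305 : (n + 2 * k3) ≤ (2 * i + k + 3 * l + 2 * m + 5) := by clear * - b0 b1 b2 b6 b7 b8 z111 z112; omega
      have r1306 : (k - j) % 2 = 0 := by clear * - ev n1p n2p n3p; omega
      have r1307 : (k - i) % 2 = 0 := by clear * - ev n1p n2p n3p; omega
      have r1308 : (i2 + 2 * k3 - n - i - l - 2 * m - 3) % 2 = 0 := by clear * - ev n1p n2p n3p; omega
      clear * - al a1 b tt D2 n1 kk1288 kk1289 kk1290 kk1291 kk1292 kk1293 kk1294 kk1295 kk1296 kk1297 kk1298 kk1299 kk1300 kk1301 kk1302 kk1303 kk1304 kk1305 r1306 r1307 r1308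
      exact ivt al.ninv (i - n + 1) (i + l - n + 1) (k - i) (i - n + 1) (j - n) (k - j) (j - n) (k - n) 0 (fun t h1 h2 => (cE (qf b al (-1) t (t + (n + k - i)) (by omega)) (sh al (-1) (t + (n + k - i)) (t + (k - i)) (by omega)))) (fun t h1 h2 => (cE (sh al 1 t (t + (n)) (by omega)) (cE (qf a1 al 0 (t + (n)) (t + (n + k - j)) (by omega)) (sh al (-1) (t + (n + k - j)) (t + (k - j)) (by omega))))) (fun hh => n1.f0 (rEE (sh al (-1) (j) (j - n) (by omega)) (sh al (-1) (k) (k - n) (by omega)) (Eq.symm hh))) (by omega) (i2 + 2 * k3 - 2 * i - 2 * l - 3 * m - 4) (2 * k3 - 2 * i - 2 * l - 2 * m - 4) (i2 + 2 * k3 - n - i - l - 2 * m - 3) 0 1 (fun t h1 h2 => (cE (cI (cE (pb D2 al (-1) t (t + (n + i + l + m - k3 + 2)) (by omega)) (pb D2 al 0 (t + (n + i + l + m - k3 + 2)) (t + (n + 2 * i + 2 * l + 2 * m - 2 * k3 + 4)) (by omega))) (qa tt al 1 (t + (n + 2 * i + 2 * l + 2 * m - 2 * k3 + 4)) ((i2 + 2 *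 k3 - i - l - 2 * m - 3) - t) (by omega))) (sh al (-1) ((i2 + 2 * k3 - i - l - 2 * m - 3) - t) ((i2 + 2 * k3 - n - i - l - 2 * m - 3) - t) (by omega)))) (by omega)
    · have kk1309 : (k + i2 + m + 2) ≤ (i + k3) := by clear * - b1 b2 b8 y17 z112; omega
      have kk1310 : (i + k3) ≤ (n + k + i2 + m) := by clear * - b0 b1 b2 b3 b6 b7 b8 z112; omega
      have kk1311 : (i + k3) ≤ (Q + k + m) := by clear * - b0 b1 b2 b3 b4 b8 z112; omega
      have kk1312 : (Q + k + l + 1) ≤ (n + i2) := by clear * - b0 b1 b2 b5 b6 b7 b8 z111; omega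
      have kk1313 : (i + m + 1) ≤ (k) := by clear * - b0 b1 b2 b7 b8 z111; omega
      have kk1314 : (k + m + 1) ≤ (k3) := by clear * - b2 z111; omega
      have kk1315 : (i + m + 1) ≤ (k3) := by clear * - b0 b1 b2 b7 b8 z111; omega
      have kk1316 : (n + k3) ≤ (2 * k + 2 * l + m + 3) := by clear * - b0 b1 b2 b7 b8 z111; omega
      have kk1317 : (n + k3) ≤ (i + k + 2 * l + m + 3) := by clear * - b2; omega
      clear * - al b c2 D2 kk1309 kk1310 kk1311 kk1312 kk1313 kk1314 kk1315 kk1316 kk1317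
      exact al.ubQ (i + k3 - k - i2 - m - 1) (by omega) (by omega) fun t h1 h2 => (cE (sh al (-1) t (t + (-n)) (by omega)) (cE (cE (qf (show Par W (i2 + 1) (n + i2 - k - l - 1) (k + k3 - i - i2 - m - 1) from fun t h1 h2 => (cE (sh al (-1) t (t + (-n)) (by omega)) (cE (pb c2 al (-1) (t + (-n)) (t + (k + l - i2 + 1)) (by omega)) (qf D2 al 0 (t + (k + l - i2 + 1)) (t + (k + k3 - i - i2 - m - 1)) (by omega))))) al (-1) (t + (-n)) (t + (k + k3 - i - i2 - m - 1)) (by omega)) (pb b al 0 (t + (k + k3 - i - i2 - m - 1)) (t + (k3 - i2 - m - 1)) (by omega))) (pb b al 0 (t + (k3 - i2 - m - 1)) (t + (i + k3 - k - i2 - m - 1)) (by omega))))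
  · exact h8_58 al hy a1 a2 s1 s2 b c1 c2 tt D1 D2 mx hL bd0 n1 n2 n3 (by clear * - b0; omega) (by clear * - b1; omega) (by clear * - b3; omega) (by clear * - b5; omega) (by clear * - b6; omega) (by clear * - b7; omega) (by clear * - b8; omega) (by clear * - z111; omega)

theorem h8_34p
    (h8_35 : ∀ {W : ℤ → G} {n Q i j k l i2 m k3 : ℤ} (al : AL W n Q) (hy : (0) ≤ (i) ∧ (i) ≤ (j) ∧ (j + 1) ≤ (Q) ∧ (Q) ≤ (k) ∧ (k + 1) ≤ (n) ∧ (Q) ≤ (i + l + 1) ∧ (k + l + 2) ≤ (n) ∧ (0) ≤ (i2) ∧ (i2 + 1) ≤ (Q) ∧ (Q + m + 1) ≤ (n + i2) ∧ (i2) ≤ (m) ∧ (Q) ≤ (i + l + m + 2) ∧ (i + l + m + 3) ≤ (n) ∧ (Q) ≤ (k3) ∧ (k3 + 1) ≤ (n) ∧ (i + m + 2) ≤ (k) ∧ (i) ≤ (i2) ∧ (i2) ≤ (i) ∧ (i + m + 2) ≤ (k3) ∧ (k3) ≤ (i + l + m + 1) ∧ (m + k3 + 2) ≤ (n + i2)) (a1 : Par W (0) (j) (k - j)) (a2 : Par W (Q + j - k) (j) (k - j)) (s1 : Ant W (0) (i) (i + j)) (s2 : Ant W (j + 1) (Q) (i + j)) (b : Par W (i + 1) (i + l + 1) (k - i))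 (c1 : Par W (i2 + 1) (Q) (k + l - i2 + 1)) (c2 : Par W (k + l + 2) (n) (i2 - k - l - 1)) (tt : Ant W (i2 - m) (i2) (i + l + i2 + 1)) (D1 : Par W (Q) (k3) (n + i2 - m - k3 - 1)) (D2 : Par W (i + l + m + 3) (n) (k3 - i - l - m - 2)) {L : ℤ} (mx : ∀ a b g, 0 < g → g < n → Par W a b g → b - a ≤ L) (hL : L ≤ (n - j - 3) ∧ L ≤ (n + Q - k - 3) ∧ L ≤ (n - l - 3) ∧ L ≤ (n + i - k - 2)) (bd0 : Bd W n L (j) (i) (k)) (n1 : Nd W (j) (i) (k)) (n2 : Nd W (i + l + 1) (i2) (k + l + 1)) (n3 : Nd W (n + i2 - m - 1) (i + l + m + 2) (k3)) (b0 : (2 * l + 3) ≤ (n)) (b1 : (k + i2 + 1) ≤ (Q + j + m)) (b2 : (2 * i + j + 1) ≤ (k)) (b3 : (2 * Q + k + l) ≤ (n + 2 * j + i2)) (b4 : (n + k3) ≤ (i + k + 2 * l + m + 3)) (b5 : (k + i2 + m + 1) ≤ (i + k3)) (b6 : (2 * i + 2 * l + 3 * m + 6) ≤ (n + i2 + k3)) (b7 : (k + i2 + m + 2) ≤ (j + k3)) (b8 : (k + l + m + k3 + 3) ≤ (n + 2 * i2)), False)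
    {W : ℤ → G} {n Q i j k l i2 m k3 : ℤ} (al : AL W n Q)
    (hy : (0) ≤ (i) ∧ (i) ≤ (j) ∧ (j + 1) ≤ (Q) ∧ (Q) ≤ (k) ∧ (k + 1) ≤ (n) ∧ (Q) ≤ (i + l + 1) ∧ (k + l + 2) ≤ (n) ∧ (0) ≤ (i2) ∧ (i2 + 1) ≤ (Q) ∧ (Q + m + 1) ≤ (n + i2) ∧ (i2) ≤ (m) ∧ (Q) ≤ (i + l + m + 2) ∧ (i + l + m + 3) ≤ (n) ∧ (Q) ≤ (k3) ∧ (k3 + 1) ≤ (n) ∧ (i + m + 2) ≤ (k) ∧ (i) ≤ (i2) ∧ (i2) ≤ (i) ∧ (i + m + 2) ≤ (k3) ∧ (k3) ≤ (i + l + m + 1) ∧ (m + k3 + 2) ≤ (n + i2))
    (a1 : Par W (0) (j) (k - j))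
    (a2 : Par W (Q + j - k) (j) (k - j))
    (s1 : Ant W (0) (i) (i + j))
    (s2 : Ant W (j + 1) (Q) (i + j))
    (b : Par W (i + 1) (i + l + 1) (k - i))
    (c1 : Par W (i2 + 1) (Q) (k + l - i2 + 1))
    (c2 : Par W (k + l + 2) (n) (i2 - k - l - 1))
    (tt : Ant W (i2 - m) (i2) (i + l + i2 + 1))
    (D1 : Par W (Q) (k3) (n + i2 - m - k3 - 1))
    (D2 : Par W (i + l + m + 3) (n) (k3 - i - l - m - 2))
    {L : ℤ} (mx : ∀ a b g, 0 < g → g < n → Par W a b g → b - a ≤ L)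
    (hL : L ≤ (n - j - 3) ∧ L ≤ (n + Q - k - 3) ∧ L ≤ (n - l - 3) ∧ L ≤ (n + i - k - 2))
    (bd0 : Bd W n L (j) (i) (k))
    (n1 : Nd W (j) (i) (k))
    (n2 : Nd W (i + l + 1) (i2) (k + l + 1))
    (n3 : Nd W (n + i2 - m - 1) (i + l + m + 2) (k3))
    (b0 : (2 * l + 3) ≤ (n))
    (b1 : (k + i2 + 1) ≤ (Q + j + m))
    (b2 : (2 * i + j + 1) ≤ (k))
    (b3 : (2 * Q + k + l) ≤ (n + 2 * j + i2))
    (b4 : (n + k3) ≤ (i + k + 2 * l + m + 3))
    (b5 : (k + i2 + m + 1) ≤ (i + k3))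
    (b6 : (2 * i + 2 * l + 3 * m + 6) ≤ (n + i2 + k3))
    (b7 : (k + l + m + k3 + 2) ≤ (n + 2 * i2))
    (b8 : (k + i2 + m + 2) ≤ (j + k3)) : False := by
  have ev := al.ev
  obtain ⟨y0, y1, y2, y3, y4, y5, y6, y7, y8, y9, y10, y11, y12, y13, y14, y15, y16, y17, y18, y19, y20⟩ := id hy
  have n1p := And.intro n1.p1 n1.p2
  have n2p := And.intro n2.p1 n2.p2
  have n3p := And.intro n3.p1 n3.p2
  by_cases z68 : (n + 2 * i2) ≤ (k + l + m + k3 + 2)
  · have kk859 : (k + l + m + 3) ≤ (n + i2) := by clear * - b0 b1 b2 b3 b4 b5 b7 b8 y16; omega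
    have kk860 : (i2) ≤ (m) := by clear * - y10; omega
    have kk861 : (k + l + m + k3 + 2) ≤ (n + 2 * i2) := by clear * - b7; omega
    have kk862 : (n + 2 * i2) ≤ (k + l + m + k3 + 2) := by clear * - z68; omega
    clear * - al c2 n3 kk859 kk860 kk861 kk862
    exact n3.f0 (qf c2 al 0 (n + i2 - m - 1) (k3) (by omega))
  · exact h8_35 al hy a1 a2 s1 s2 b c1 c2 tt D1 D2 mx hL bd0 n1 n2 n3 (by clear * - b0; omega) (by clear * - b1; omega) (by clear * - b2; omega) (by clear * - b3; omega) (by clear * - b4; omega) (by clear * - b5; omega) (by clear * - b6; omega) (by clear * - b8; omega) (by clear * - z68; omega)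

theorem h8_67p
    (h8_68 : ∀ {W : ℤ → G} {n Q i j k l i2 m k3 : ℤ} (al : AL W n Q) (hy : (0) ≤ (i) ∧ (i) ≤ (j) ∧ (j + 1) ≤ (Q) ∧ (Q) ≤ (k) ∧ (k + 1) ≤ (n) ∧ (Q) ≤ (i + l + 1) ∧ (k + l + 2) ≤ (n) ∧ (0) ≤ (i2) ∧ (i2 + 1) ≤ (Q) ∧ (Q + m + 1) ≤ (n + i2) ∧ (i2) ≤ (m) ∧ (Q) ≤ (i + l + m + 2) ∧ (i + l + m + 3) ≤ (n) ∧ (Q) ≤ (k3) ∧ (k3 + 1) ≤ (n) ∧ (i + m + 2) ≤ (k) ∧ (i) ≤ (i2) ∧ (i2) ≤ (i) ∧ (i + m + 2) ≤ (k3) ∧ (k3) ≤ (i + l + m + 1) ∧ (m + k3 + 2) ≤ (n + i2)) (a1 : Par W (0) (j) (k - j)) (a2 : Par W (Q + j - k) (j) (k - j)) (s1 : Ant W (0) (i) (i + j)) (s2 : Ant W (j + 1) (Q) (i + j)) (b : Par W (i + 1) (i + l + 1) (k - i)) (c1 : Par W (i2 + 1) (Q) (k + l - i2 + 1)) (c2 : Par W (k + l + 2) (n) (i2 - k - l - 1)) (tt : Ant W (i2 - m) (i2) (i + l + i2 + 1)) (D1 : Par W (Q) (k3) (n + i2 - m - k3 - 1)) (D2 : Par W (i + l + m + 3) (n) (k3 - i - l - m - 2)) {L : ℤ} (mx : ∀ a b g, 0 < g → g < n →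 Par W a b g → b - a ≤ L) (hL : L ≤ (n - j - 3) ∧ L ≤ (n + Q - k - 3) ∧ L ≤ (n - l - 3) ∧ L ≤ (n + i - k - 2)) (bd0 : Bd W n L (j) (i) (k)) (n1 : Nd W (j) (i) (k)) (n2 : Nd W (i + l + 1) (i2) (k + l + 1)) (n3 : Nd W (n + i2 - m - 1) (i + l + m + 2) (k3)) (b0 : (2 * l + 3) ≤ (n)) (b1 : (2 * i + 2 * l + 3 * m + 5) ≤ (n + i2 + k3)) (b2 : (k + i2 + 1) ≤ (Q + j + m)) (b3 : (2 * i + j + 1) ≤ (k)) (b4 : (2 * Q + k + l) ≤ (n + 2 * j + i2)) (b5 : (m + k3) ≤ (i + l + 2 * i2 + 1)) (b6 : (Q + k3) ≤ (i + l + i2 + m + 2)) (b7 : (Q + k + l + 1) ≤ (n + i2)) (b8 : (Q + m + 1) ≤ (k3)) (b9 : (i + l + i2 + m + 3) ≤ (k + k3)) (b10 : (n) ≤ (2 * i + 2 * l + 2)), False)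
    {W : ℤ → G} {n Q i j k l i2 m k3 : ℤ} (al : AL W n Q)
    (hy : (0) ≤ (i) ∧ (i) ≤ (j) ∧ (j + 1) ≤ (Q) ∧ (Q) ≤ (k) ∧ (k + 1) ≤ (n) ∧ (Q) ≤ (i + l + 1) ∧ (k + l + 2) ≤ (n) ∧ (0) ≤ (i2) ∧ (i2 + 1) ≤ (Q) ∧ (Q + m + 1) ≤ (n + i2) ∧ (i2) ≤ (m) ∧ (Q) ≤ (i + l + m + 2) ∧ (i + l + m + 3) ≤ (n) ∧ (Q) ≤ (k3) ∧ (k3 + 1) ≤ (n) ∧ (i + m + 2) ≤ (k) ∧ (i) ≤ (i2) ∧ (i2) ≤ (i) ∧ (i + m + 2) ≤ (k3) ∧ (k3) ≤ (i + l + m + 1) ∧ (m + k3 + 2) ≤ (n + i2))
    (a1 : Par W (0) (j) (k - j))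
    (a2 : Par W (Q + j - k) (j) (k - j))
    (s1 : Ant W (0) (i) (i + j))
    (s2 : Ant W (j + 1) (Q) (i + j))
    (b : Par W (i + 1) (i + l + 1) (k - i))
    (c1 : Par W (i2 + 1) (Q) (k + l - i2 + 1))
    (c2 : Par W (k + l + 2) (n) (i2 - k - l - 1))
    (tt : Ant W (i2 - m) (i2) (i + l + i2 + 1))
    (D1 : Par W (Q) (k3) (n + i2 - m - k3 - 1))
    (D2 : Par W (i + l + m + 3) (n) (k3 - i - l - m - 2))
    {L : ℤ} (mx : ∀ a b g, 0 < g → g < n → Par W a b g → b - a ≤ L)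
    (hL : L ≤ (n - j - 3) ∧ L ≤ (n + Q - k - 3) ∧ L ≤ (n - l - 3) ∧ L ≤ (n + i - k - 2))
    (bd0 : Bd W n L (j) (i) (k))
    (n1 : Nd W (j) (i) (k))
    (n2 : Nd W (i + l + 1) (i2) (k + l + 1))
    (n3 : Nd W (n + i2 - m - 1) (i + l + m + 2) (k3))
    (b0 : (2 * l + 3) ≤ (n))
    (b1 : (2 * i + 2 * l + 3 * m + 5) ≤ (n + i2 + k3))
    (b2 : (k + i2 + 1) ≤ (Q + j + m))
    (b3 : (2 * i + j + 1) ≤ (k))
    (b4 : (2 * Q + k + l) ≤ (n + 2 * j + i2))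
    (b5 : (m + k3) ≤ (i + l + 2 * i2 + 1))
    (b6 : (Q + k3) ≤ (i + l + i2 + m + 2))
    (b7 : (Q + k + l + 1) ≤ (n + i2))
    (b8 : (Q + m + 1) ≤ (k3))
    (b9 : (i + l + i2 + m + 3) ≤ (k + k3))
    (b10 : (n + 2 * i2) ≤ (2 * i + 2 * l + 2 * m + 2)) : False := by
  have ev := al.ev
  obtain ⟨y0, y1, y2, y3, y4, y5, y6, y7, y8, y9, y10, y11, y12, y13, y14, y15, y16, y17, y18, y19, y20⟩ := id hy
  have n1p := And.intro n1.p1 n1.p2
  have n2p := And.intro n2.p1 n2.p2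
  have n3p := And.intro n3.p1 n3.p2
  by_cases z140 : (2 * i + 2 * l + 3) ≤ (n)
  · by_cases v39 : (n + i2) ≤ (i + k + 2 * l + 2)
    · have kk1739 : (n + 2 * i2) ≤ (2 * i + 2 * l + 2 * m + 2) := by clear * - b10; omega
      have kk1740 : (2 * i + 2 * l + 3) ≤ (n) := by clear * - z140; omega
      have kk1741 : (i) ≤ (i2) := by clear * - y16; omega
      have kk1742 : (k + l + m + 2) ≤ (n + i2) := by clear * - b1 b2 b5 b7 y17 y2; omega
      have kk1743 : (n + i2) ≤ (i + k + 2 * l + 2) := by clear * - v39; omega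
      have kk1744 : (0) ≤ (i2) := by clear * - y7; omega
      have r1745 : (3 * n + 2 * i2) % 2 = 0 := by clear * - ev n1p n2p n3p; omega
      clear * - al b c2 tt kk1739 kk1740 kk1741 kk1742 kk1743 kk1744 r1745
      obtain ⟨t, ht⟩ : ∃ t, 2 * t = (3 * n + 2 * i2) := ⟨(3 * n + 2 * i2) / 2, by omega⟩
      exact al.ninv t (cE (cI (cE (pb b al 1 t (t + (i - n - k)) (by omega)) (pb c2 al 0 (t + (i - n - k)) (t + (i + l - n - i2 + 1)) (by omega))) (qa tt al 1 (t + (i + l - n - i2 + 1)) ((2 * n + 2 * i2) - t) (by omega))) (sh al 1 ((2 * n + 2 * i2) - t) t (by omega)))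
    · have kk1746 : (n + 2 * i2) ≤ (2 * i + 2 * l + 2 * m + 2) := by clear * - b10; omega
      have kk1747 : (n + 2 * i2) ≤ (2 * k + 2 * l + 1) := by clear * - b10 y15; omega
      have kk1748 : (i) ≤ (i2) := by clear * - y16; omega
      have kk1749 : (k + l + m + 2) ≤ (n + i2) := by clear * - b1 b10 b5 v39 z140; omega
      have kk1750 : (i + k + 2 * l + 2) ≤ (n + i2) := by clear * - v39; omega
      have kk1751 : (i + k + 2 * l + 2) ≤ (n + 2 * i2) := by clear * - b10 b5 b9 v39 y16; omega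
      have r1752 : (3 * n + 2 * i2) % 2 = 0 := by clear * - ev n1p n2p n3p; omega
      clear * - al b c2 tt kk1746 kk1747 kk1748 kk1749 kk1750 kk1751 r1752
      obtain ⟨t, ht⟩ : ∃ t, 2 * t = (3 * n + 2 * i2) := ⟨(3 * n + 2 * i2) / 2, by omega⟩
      exact al.ninv t (cE (cI (cE (pb b al 1 t (t + (i - n - k)) (by omega)) (pb c2 al 0 (t + (i - n - k)) (t + (i + l - n - i2 + 1)) (by omega))) (qa tt al 1 (t + (i + l - n - i2 + 1)) ((2 * n + 2 * i2) - t) (by omega))) (sh al 1 ((2 * n + 2 * i2) - t) t (by omega)))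
  · exact h8_68 al hy a1 a2 s1 s2 b c1 c2 tt D1 D2 mx hL bd0 n1 n2 n3 (by clear * - b0; omega) (by clear * - b1; omega) (by clear * - b2; omega) (by clear * - b3; omega) (by clear * - b4; omega) (by clear * - b5; omega) (by clear * - b6; omega) (by clear * - b7; omega) (by clear * - b8; omega) (by clear * - b9; omega) (by clear * - z140; omega)

theorem h8_25p
    (h8_26 : ∀ {W : ℤ → G} {n Q i j k l i2 m k3 : ℤ} (al : AL W n Q) (hy : (0) ≤ (i) ∧ (i) ≤ (j) ∧ (j + 1) ≤ (Q) ∧ (Q) ≤ (k) ∧ (k + 1) ≤ (n) ∧ (Q) ≤ (i + l + 1) ∧ (k + l + 2) ≤ (n) ∧ (0) ≤ (i2) ∧ (i2 + 1) ≤ (Q) ∧ (Q + m + 1) ≤ (n + i2) ∧ (i2) ≤ (m) ∧ (Q) ≤ (i + l + m + 2) ∧ (i + l + m + 3) ≤ (n) ∧ (Q) ≤ (k3) ∧ (k3 + 1) ≤ (n) ∧ (i + m + 2) ≤ (k) ∧ (i) ≤ (i2) ∧ (i2) ≤ (i) ∧ (i + m + 2) ≤ (k3) ∧ (k3) ≤ (i + l + m + 1) ∧ (m + k3 + 2) ≤ (n + i2)) (a1 : Par W (0) (j) (k - j)) (a2 : Par W (Q + j - k) (j) (k - j)) (s1 : Ant W (0) (i) (i +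 j)) (s2 : Ant W (j + 1) (Q) (i + j)) (b : Par W (i + 1) (i + l + 1) (k - i)) (c1 : Par W (i2 + 1) (Q) (k + l - i2 + 1)) (c2 : Par W (k + l + 2) (n) (i2 - k - l - 1)) (tt : Ant W (i2 - m) (i2) (i + l + i2 + 1)) (D1 : Par W (Q) (k3) (n + i2 - m - k3 - 1)) (D2 : Par W (i + l + m + 3) (n) (k3 - i - l - m - 2)) {L : ℤ} (mx : ∀ a b g, 0 < g → g < n → Par W a b g → b - a ≤ L) (hL : L ≤ (n - j - 3) ∧ L ≤ (n + Q - k - 3) ∧ L ≤ (n - l - 3) ∧ L ≤ (n + i - k - 2)) (bd0 : Bd W n L (j) (i) (k)) (n1 : Nd W (j) (i) (k)) (n2 : Nd W (i + l + 1) (i2) (k + l + 1)) (n3 : Nd W (n + i2 - m - 1) (i + l + m + 2) (k3)) (b0 : (2 * l + 3) ≤ (n)) (b1 : (2 * i + 2 * l + 3 * m + 5) ≤ (n + i2 + k3)) (b2 : (k + i2 + 1) ≤ (Q + j + m)) (b3 : (2 * i + j + 1) ≤ (k)) (b4 : (2 * Q + k + l) ≤ (n + 2 * j + i2)) (b5 : (m + k3) ≤ (i + l + 2 * i2 + 1)) (b6 : (1) ≤ (m)) (b7 : (Q + k + l + 1) ≤ (n + i2)) (b8 : (Q + m + 1) ≤ (k3)) (b9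 : (k + k3) ≤ (i + l + i2 + m + 2)), False)
    (h8_66 : ∀ {W : ℤ → G} {n Q i j k l i2 m k3 : ℤ} (al : AL W n Q) (hy : (0) ≤ (i) ∧ (i) ≤ (j) ∧ (j + 1) ≤ (Q) ∧ (Q) ≤ (k) ∧ (k + 1) ≤ (n) ∧ (Q) ≤ (i + l + 1) ∧ (k + l + 2) ≤ (n) ∧ (0) ≤ (i2) ∧ (i2 + 1) ≤ (Q) ∧ (Q + m + 1) ≤ (n + i2) ∧ (i2) ≤ (m) ∧ (Q) ≤ (i + l + m + 2) ∧ (i + l + m + 3) ≤ (n) ∧ (Q) ≤ (k3) ∧ (k3 + 1) ≤ (n) ∧ (i + m + 2) ≤ (k) ∧ (i) ≤ (i2) ∧ (i2) ≤ (i) ∧ (i + m + 2) ≤ (k3) ∧ (k3) ≤ (i + l + m + 1) ∧ (m + k3 + 2) ≤ (n + i2)) (a1 : Par W (0) (j) (k - j)) (a2 : Par W (Q + j - k) (j) (k - j)) (s1 : Ant W (0) (i) (i + j)) (s2 : Ant W (j + 1) (Q) (i + j)) (b : Par W (i + 1) (i + l + 1) (k - i)) (c1 : Par W (i2 + 1) (Q) (k + l - i2 + 1)) (c2 : Par W (k + l + 2) (n) (i2 - k - l - 1)) (tt : Ant W (i2 - m) (i2) (i + l + i2 + 1)) (D1 : Par W (Q) (k3) (n + i2 - m - k3 - 1)) (D2 : Par W (i + l + m + 3) (n) (k3 - i - l - m - 2)) {L : ℤ} (mx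 : ∀ a b g, 0 < g → g < n → Par W a b g → b - a ≤ L) (hL : L ≤ (n - j - 3) ∧ L ≤ (n + Q - k - 3) ∧ L ≤ (n - l - 3) ∧ L ≤ (n + i - k - 2)) (bd0 : Bd W n L (j) (i) (k)) (n1 : Nd W (j) (i) (k)) (n2 : Nd W (i + l + 1) (i2) (k + l + 1)) (n3 : Nd W (n + i2 - m - 1) (i + l + m + 2) (k3)) (b0 : (2 * l + 3) ≤ (n)) (b1 : (2 * i + 2 * l + 3 * m + 5) ≤ (n + i2 + k3)) (b2 : (k + i2 + 1) ≤ (Q + j + m)) (b3 : (2 * i + j + 1) ≤ (k)) (b4 : (2 * Q + k + l) ≤ (n + 2 * j + i2)) (b5 : (m + k3) ≤ (i + l + 2 * i2 + 1)) (b6 : (1) ≤ (m)) (b7 : (Q + k3) ≤ (i + l + i2 + m + 2)) (b8 : (Q + k + l + 1) ≤ (n + i2)) (b9 : (Q + m + 1) ≤ (k3)) (b10 : (i + l + i2 + m + 3) ≤ (k + k3)), False)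
    {W : ℤ → G} {n Q i j k l i2 m k3 : ℤ} (al : AL W n Q)
    (hy : (0) ≤ (i) ∧ (i) ≤ (j) ∧ (j + 1) ≤ (Q) ∧ (Q) ≤ (k) ∧ (k + 1) ≤ (n) ∧ (Q) ≤ (i + l + 1) ∧ (k + l + 2) ≤ (n) ∧ (0) ≤ (i2) ∧ (i2 + 1) ≤ (Q) ∧ (Q + m + 1) ≤ (n + i2) ∧ (i2) ≤ (m) ∧ (Q) ≤ (i + l + m + 2) ∧ (i + l + m + 3) ≤ (n) ∧ (Q) ≤ (k3) ∧ (k3 + 1) ≤ (n) ∧ (i + m + 2) ≤ (k) ∧ (i) ≤ (i2) ∧ (i2) ≤ (i) ∧ (i + m + 2) ≤ (k3) ∧ (k3) ≤ (i + l + m + 1) ∧ (m + k3 + 2) ≤ (n + i2))
    (a1 : Par W (0) (j) (k - j))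
    (a2 : Par W (Q + j - k) (j) (k - j))
    (s1 : Ant W (0) (i) (i + j))
    (s2 : Ant W (j + 1) (Q) (i + j))
    (b : Par W (i + 1) (i + l + 1) (k - i))
    (c1 : Par W (i2 + 1) (Q) (k + l - i2 + 1))
    (c2 : Par W (k + l + 2) (n) (i2 - k - l - 1))
    (tt : Ant W (i2 - m) (i2) (i + l + i2 + 1))
    (D1 : Par W (Q) (k3) (n + i2 - m - k3 - 1))
    (D2 : Par W (i + l + m + 3) (n) (k3 - i - l - m - 2))
    {L : ℤ} (mx : ∀ a b g, 0 < g → g < n → Par W a b g → b - a ≤ L)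
    (hL : L ≤ (n - j - 3) ∧ L ≤ (n + Q - k - 3) ∧ L ≤ (n - l - 3) ∧ L ≤ (n + i - k - 2))
    (bd0 : Bd W n L (j) (i) (k))
    (n1 : Nd W (j) (i) (k))
    (n2 : Nd W (i + l + 1) (i2) (k + l + 1))
    (n3 : Nd W (n + i2 - m - 1) (i + l + m + 2) (k3))
    (b0 : (2 * l + 3) ≤ (n))
    (b1 : (2 * i + 2 * l + 3 * m + 5) ≤ (n + i2 + k3))
    (b2 : (k + i2 + 1) ≤ (Q + j + m))
    (b3 : (2 * i + j + 1) ≤ (k))
    (b4 : (2 * Q + k + l) ≤ (n + 2 * j + i2))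
    (b5 : (m + k3) ≤ (i + l + 2 * i2 + 1))
    (b6 : (1) ≤ (m))
    (b7 : (Q + k3) ≤ (i + l + i2 + m + 2))
    (b8 : (Q + k + l + 1) ≤ (n + i2))
    (b9 : (Q + m + 1) ≤ (k3)) : False := by
  have ev := al.ev
  obtain ⟨y0, y1, y2, y3, y4, y5, y6, y7, y8, y9, y10, y11, y12, y13, y14, y15, y16, y17, y18, y19, y20⟩ := id hy
  have n1p := And.intro n1.p1 n1.p2
  have n2p := And.intro n2.p1 n2.p2
  have n3p := And.intro n3.p1 n3.p2
  by_cases z55 : (k + k3) ≤ (i + l + i2 + m + 2)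
  · exact h8_26 al hy a1 a2 s1 s2 b c1 c2 tt D1 D2 mx hL bd0 n1 n2 n3 (by clear * - b0; omega) (by clear * - b1; omega) (by clear * - b2; omega) (by clear * - b3; omega) (by clear * - b4; omega) (by clear * - b5; omega) (by clear * - b6; omega) (by clear * - b8; omega) (by clear * - b9; omega) (by clear * - z55; omega)
  · exact h8_66 al hy a1 a2 s1 s2 b c1 c2 tt D1 D2 mx hL bd0 n1 n2 n3 (by clear * - b0; omega) (by clear * - b1; omega) (by clear * - b2; omega) (by clear * - b3; omega) (by clear * - b4; omega) (by clear * - b5; omega) (by clear * - b6; omega) (by clear * - b7; omega) (by clear * - b8; omega) (by clear * - b9; omega) (by clear * - z55; omega)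

theorem h8_86p
    (h8_87 : ∀ {W : ℤ → G} {n Q i j k l i2 m k3 : ℤ} (al : AL W n Q) (hy : (0) ≤ (i) ∧ (i) ≤ (j) ∧ (j + 1) ≤ (Q) ∧ (Q) ≤ (k) ∧ (k + 1) ≤ (n) ∧ (Q) ≤ (i + l + 1) ∧ (k + l + 2) ≤ (n) ∧ (0) ≤ (i2) ∧ (i2 + 1) ≤ (Q) ∧ (Q + m + 1) ≤ (n + i2) ∧ (i2) ≤ (m) ∧ (Q) ≤ (i + l + m + 2) ∧ (i + l + m + 3) ≤ (n) ∧ (Q) ≤ (k3) ∧ (k3 + 1) ≤ (n) ∧ (i + m + 2) ≤ (k) ∧ (i) ≤ (i2) ∧ (i2) ≤ (i) ∧ (i + m + 2) ≤ (k3) ∧ (k3) ≤ (i + l + m + 1) ∧ (m + k3 + 2) ≤ (n + i2)) (a1 : Par W (0) (j) (k - j)) (a2 : Par W (Q + j - k) (j) (k - j)) (s1 : Ant W (0) (i) (i + j)) (s2 : Ant W (j + 1) (Q) (i + j)) (b : Par W (i + 1) (i + l + 1) (k - i)) (c1 : Par W (i2 + 1) (Q) (k + l - i2 + 1)) (c2 : Par W (k + l + 2) (n) (i2 - k - l - 1)) (tt : Ant W (i2 - m) (i2) (i + l + i2 + 1)) (D1 : Par W (Q) (k3) (n + i2 - m - k3 - 1)) (D2 : Par W (i + l + m + 3) (n) (k3 - i - l - m - 2)) {L : ℤ} (mx : ∀ a b g, 0 < g → g < n →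 Par W a b g → b - a ≤ L) (hL : L ≤ (n - j - 3) ∧ L ≤ (n + Q - k - 3) ∧ L ≤ (n - l - 3) ∧ L ≤ (n + i - k - 2)) (bd0 : Bd W n L (j) (i) (k)) (n1 : Nd W (j) (i) (k)) (n2 : Nd W (i + l + 1) (i2) (k + l + 1)) (n3 : Nd W (n + i2 - m - 1) (i + l + m + 2) (k3)) (b0 : (2 * l + 3) ≤ (n)) (b1 : (k + i2 + 1) ≤ (Q + j + m)) (b2 : (2 * Q + k + l) ≤ (n + 2 * j + i2)) (b3 : (m + k3) ≤ (i + l + 2 * i2 + 1)) (b4 : (1) ≤ (m)) (b5 : (i + l + i2 + m + 3) ≤ (Q + k3)) (b6 : (n + i2) ≤ (i + k + 2 * l + m + 2)) (b7 : (i + 2 * j + 1) ≤ (k)) (b8 : (2 * i2 + k3) ≤ (i + l + m + 1)) (b9 : (2 * k + l + 2) ≤ (n + i2)) (b10 : (2 * Q + k3) ≤ (3 * i + 2 * j + l + m + 3)) (b11 : (n + j + i2 + k3) ≤ (2 * Q + k + 2 * l + m + 2)), False)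
    {W : ℤ → G} {n Q i j k l i2 m k3 : ℤ} (al : AL W n Q)
    (hy : (0) ≤ (i) ∧ (i) ≤ (j) ∧ (j + 1) ≤ (Q) ∧ (Q) ≤ (k) ∧ (k + 1) ≤ (n) ∧ (Q) ≤ (i + l + 1) ∧ (k + l + 2) ≤ (n) ∧ (0) ≤ (i2) ∧ (i2 + 1) ≤ (Q) ∧ (Q + m + 1) ≤ (n + i2) ∧ (i2) ≤ (m) ∧ (Q) ≤ (i + l + m + 2) ∧ (i + l + m + 3) ≤ (n) ∧ (Q) ≤ (k3) ∧ (k3 + 1) ≤ (n) ∧ (i + m + 2) ≤ (k) ∧ (i) ≤ (i2) ∧ (i2) ≤ (i) ∧ (i + m + 2) ≤ (k3) ∧ (k3) ≤ (i + l + m + 1) ∧ (m + k3 + 2) ≤ (n + i2))
    (a1 : Par W (0) (j) (k - j))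
    (a2 : Par W (Q + j - k) (j) (k - j))
    (s1 : Ant W (0) (i) (i + j))
    (s2 : Ant W (j + 1) (Q) (i + j))
    (b : Par W (i + 1) (i + l + 1) (k - i))
    (c1 : Par W (i2 + 1) (Q) (k + l - i2 + 1))
    (c2 : Par W (k + l + 2) (n) (i2 - k - l - 1))
    (tt : Ant W (i2 - m) (i2) (i + l + i2 + 1))
    (D1 : Par W (Q) (k3) (n + i2 - m - k3 - 1))
    (D2 : Par W (i + l + m + 3) (n) (k3 - i - l - m - 2))
    {L : ℤ} (mx : ∀ a b g, 0 < g → g < n → Par W a b g → b - a ≤ L)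
    (hL : L ≤ (n - j - 3) ∧ L ≤ (n + Q - k - 3) ∧ L ≤ (n - l - 3) ∧ L ≤ (n + i - k - 2))
    (bd0 : Bd W n L (j) (i) (k))
    (n1 : Nd W (j) (i) (k))
    (n2 : Nd W (i + l + 1) (i2) (k + l + 1))
    (n3 : Nd W (n + i2 - m - 1) (i + l + m + 2) (k3))
    (b0 : (2 * l + 3) ≤ (n))
    (b1 : (k + i2 + 1) ≤ (Q + j + m))
    (b2 : (2 * Q + k + l) ≤ (n + 2 * j + i2))
    (b3 : (m + k3) ≤ (i + l + 2 * i2 + 1))
    (b4 : (1) ≤ (m))
    (b5 : (i + l + i2 + m + 3) ≤ (Q + k3))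
    (b6 : (n + i2) ≤ (i + k + 2 * l + m + 2))
    (b7 : (i + 2 * j + 1) ≤ (k))
    (b8 : (2 * i2 + k3) ≤ (i + l + m + 1))
    (b9 : (2 * k + l + 2) ≤ (n + i2))
    (b10 : (2 * Q + k3) ≤ (3 * i + 2 * j + l + m + 3)) : False := by
  have ev := al.ev
  obtain ⟨y0, y1, y2, y3, y4, y5, y6, y7, y8, y9, y10, y11, y12, y13, y14, y15, y16, y17, y18, y19, y20⟩ := id hy
  have n1p := And.intro n1.p1 n1.p2
  have n2p := And.intro n2.p1 n2.p2
  have n3p := And.intro n3.p1 n3.p2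
  by_cases z200 : (n + j + i2 + k3) ≤ (2 * Q + k + 2 * l + m + 2)
  · exact h8_87 al hy a1 a2 s1 s2 b c1 c2 tt D1 D2 mx hL bd0 n1 n2 n3 (by clear * - b0; omega) (by clear * - b1; omega) (by clear * - b2; omega) (by clear * - b3; omega) (by clear * - b4; omega) (by clear * - b5; omega) (by clear * - b6; omega) (by clear * - b7; omega) (by clear * - b8; omega) (by clear * - b9; omega) (by clear * - b10; omega) (by clear * - z200; omega)
  · have kk2816 : (k3) ≤ (i + l + m + 1) := by clear * - b3 b4 b8; omega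
    have kk2817 : (i + l + m + 3) ≤ (n + k3) := by clear * - b2 b3 b4 b5 b6 b7 b8 b9 z200; omega
    have kk2818 : (i + l + i2 + m + 3) ≤ (Q + k3) := by clear * - b5; omega
    have kk2819 : (Q + i + k + 2 * l + m + 3) ≤ (n + i2 + k3) := by clear * - b5 b7 b9 y16 z200; omega
    have kk2820 : (k3) ≤ (k + l + 1) := by clear * - b10 b3 b4 b5 b7 b8 y16; omega
    have kk2821 : (k3) ≤ (i + l + m + 2) := by clear * - b3 b4 b8; omega
    clear * - al c2 D2 kk2816 kk2817 kk2818 kk2819 kk2820 kk2821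
    exact al.ubQ (i + l + m - k3 + 2) (by omega) (by omega) fun t h1 h2 => (cE (sh al (-1) t (t + (-n)) (by omega)) (cE (cE (pb c2 al (-1) (t + (-n)) (t + (k + l - i2 + 1)) (by omega)) (pb D2 al 0 (t + (k + l - i2 + 1)) (t + (i + k + 2 * l + m - i2 - k3 + 3)) (by omega))) (qf c2 al 0 (t + (i + k + 2 * l + m - i2 - k3 + 3)) (t + (i + l + m - k3 + 2)) (by omega))))

theorem h8_85p
    (h8_86 : ∀ {W : ℤ → G} {n Q i j k l i2 m k3 : ℤ} (al : AL W n Q) (hy : (0) ≤ (i) ∧ (i) ≤ (j) ∧ (j + 1) ≤ (Q) ∧ (Q) ≤ (k) ∧ (k + 1) ≤ (n) ∧ (Q) ≤ (i + l + 1) ∧ (k + l + 2) ≤ (n) ∧ (0) ≤ (i2) ∧ (i2 + 1) ≤ (Q) ∧ (Q + m + 1) ≤ (n + i2) ∧ (i2) ≤ (m) ∧ (Q) ≤ (i + l + m + 2) ∧ (i + l + m + 3) ≤ (n) ∧ (Q) ≤ (k3) ∧ (k3 + 1) ≤ (n) ∧ (i + m + 2) ≤ (k) ∧ (i) ≤ (i2) ∧ (i2) ≤ (i) ∧ (i + m + 2) ≤ (k3) ∧ (k3) ≤ (i + l + m + 1) ∧ (m + k3 + 2) ≤ (n + i2)) (a1 : Par W (0) (j) (k - j)) (a2 : Par W (Q + j - k) (j) (k - j)) (s1 :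 Ant W (0) (i) (i + j)) (s2 : Ant W (j + 1) (Q) (i + j)) (b : Par W (i + 1) (i + l + 1) (k - i)) (c1 : Par W (i2 + 1) (Q) (k + l - i2 + 1)) (c2 : Par W (k + l + 2) (n) (i2 - k - l - 1)) (tt : Ant W (i2 - m) (i2) (i + l + i2 + 1)) (D1 : Par W (Q) (k3) (n + i2 - m - k3 - 1)) (D2 : Par W (i + l + m + 3) (n) (k3 - i - l - m - 2)) {L : ℤ} (mx : ∀ a b g, 0 < g → g < n → Par W a b g → b - a ≤ L) (hL : L ≤ (n - j - 3) ∧ L ≤ (n + Q - k - 3) ∧ L ≤ (n - l - 3) ∧ L ≤ (n + i - k - 2)) (bd0 : Bd W n L (j) (i) (k)) (n1 : Nd W (j) (i) (k)) (n2 : Nd W (i + l + 1) (i2) (k + l + 1)) (n3 : Nd W (n + i2 - m - 1) (i + l + m + 2) (k3)) (b0 : (2 * l + 3) ≤ (n)) (b1 : (k + i2 + 1) ≤ (Q + j + m)) (b2 : (2 * Q + k + l) ≤ (n + 2 * j + i2)) (b3 : (m + k3) ≤ (i + l + 2 * i2 + 1)) (b4 : (1) ≤ (m)) (b5 : (i + l + i2 + m + 3) ≤ (Q + k3)) (b6 : (n + i2) ≤ (i + k + 2 * l + m + 2)) (b7 : (i + 2 * j + 1) ≤ (k)) (b8 : (2 * i2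 + k3) ≤ (i + l + m + 1)) (b9 : (2 * k + l + 2) ≤ (n + i2)) (b10 : (2 * Q + k3) ≤ (3 * i + 2 * j + l + m + 3)), False)
    {W : ℤ → G} {n Q i j k l i2 m k3 : ℤ} (al : AL W n Q)
    (hy : (0) ≤ (i) ∧ (i) ≤ (j) ∧ (j + 1) ≤ (Q) ∧ (Q) ≤ (k) ∧ (k + 1) ≤ (n) ∧ (Q) ≤ (i + l + 1) ∧ (k + l + 2) ≤ (n) ∧ (0) ≤ (i2) ∧ (i2 + 1) ≤ (Q) ∧ (Q + m + 1) ≤ (n + i2) ∧ (i2) ≤ (m) ∧ (Q) ≤ (i + l + m + 2) ∧ (i + l + m + 3) ≤ (n) ∧ (Q) ≤ (k3) ∧ (k3 + 1) ≤ (n) ∧ (i + m + 2) ≤ (k) ∧ (i) ≤ (i2) ∧ (i2) ≤ (i) ∧ (i + m + 2) ≤ (k3) ∧ (k3) ≤ (i + l + m + 1) ∧ (m + k3 + 2) ≤ (n + i2))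
    (a1 : Par W (0) (j) (k - j))
    (a2 : Par W (Q + j - k) (j) (k - j))
    (s1 : Ant W (0) (i) (i + j))
    (s2 : Ant W (j + 1) (Q) (i + j))
    (b : Par W (i + 1) (i + l + 1) (k - i))
    (c1 : Par W (i2 + 1) (Q) (k + l - i2 + 1))
    (c2 : Par W (k + l + 2) (n) (i2 - k - l - 1))
    (tt : Ant W (i2 - m) (i2) (i + l + i2 + 1))
    (D1 : Par W (Q) (k3) (n + i2 - m - k3 - 1))
    (D2 : Par W (i + l + m + 3) (n) (k3 - i - l - m - 2))
    {L : ℤ} (mx : ∀ a b g, 0 < g → g < n → Par W a b g → b - a ≤ L)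
    (hL : L ≤ (n - j - 3) ∧ L ≤ (n + Q - k - 3) ∧ L ≤ (n - l - 3) ∧ L ≤ (n + i - k - 2))
    (bd0 : Bd W n L (j) (i) (k))
    (n1 : Nd W (j) (i) (k))
    (n2 : Nd W (i + l + 1) (i2) (k + l + 1))
    (n3 : Nd W (n + i2 - m - 1) (i + l + m + 2) (k3))
    (b0 : (2 * l + 3) ≤ (n))
    (b1 : (k + i2 + 1) ≤ (Q + j + m))
    (b2 : (2 * Q + k + l) ≤ (n + 2 * j + i2))
    (b3 : (m + k3) ≤ (i + l + 2 * i2 + 1))
    (b4 : (1) ≤ (m))
    (b5 : (i + l + i2 + m + 3) ≤ (Q + k3))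
    (b6 : (n + i2) ≤ (i + k + 2 * l + m + 2))
    (b7 : (i + 2 * j + 1) ≤ (k))
    (b8 : (i + 4 * k + 3 * l + 4) ≤ (2 * n + 2 * j + m + k3))
    (b9 : (2 * i2 + k3) ≤ (i + l + m + 1))
    (b10 : (2 * k + l + 2) ≤ (n + i2)) : False := by
  have ev := al.ev
  obtain ⟨y0, y1, y2, y3, y4, y5, y6, y7, y8, y9, y10, y11, y12, y13, y14, y15, y16, y17, y18, y19, y20⟩ := id hy
  have n1p := And.intro n1.p1 n1.p2
  have n2p := And.intro n2.p1 n2.p2
  have n3p := And.intro n3.p1 n3.p2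
  by_cases z199 : (3 * i + 2 * j + l + m + 4) ≤ (2 * Q + k3)
  · have kk2510 : (k3) ≤ (i + l + m + 1) := by clear * - b3 b4 b9; omega
    have kk2511 : (3 * i + 2 * j + l + m + 4) ≤ (2 * Q + k3) := by clear * - z199; omega
    have kk2512 : (i + l + m + k3 + 4) ≤ (2 * n) := by clear * - b2 b3 b4 b5 b7 b9; omega
    have kk2513 : (3 * i + 2 * j + 2 * k + 3 * l + m + 6) ≤ (2 * n + 2 * i2 + k3) := by clear * - b10 b2 b5 b7 y7 z199; omega
    have kk2514 : (i2) ≤ (j) := by clear * - y1 y17; omega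
    have kk2515 : (i2 + k3) ≤ (j + k + l + 1) := by clear * - b1 b3 b5 b9 y16 y3; omega
    have kk2516 : (0) ≤ (i) := by clear * - y17 y7; omega
    have r2517 : (3 * n + i + j + k + l - i2 + 1) % 2 = 0 := by clear * - ev n1p n2p n3p; omega
    have r2518 : (i + l + m - k3 + 2) % 2 = 0 := by clear * - ev n1p n2p n3p; omega
    clear * - al s2 c1 D2 kk2510 kk2511 kk2512 kk2513 kk2514 kk2515 kk2516 r2517 r2518
    exact midP al (i + l + m - k3 + 2) (3 * n + i + j + k + l - i2 + 1) (n + i + j + k + l - i2 + 2) (n + k3 + 1) (2 * n) (by omega) (fun t h1 h2 => (cE (cI (pb c1 al 1 t (t + (i2 - n - k - l - 1)) (by omega)) (qa s2 al 0 (t + (i2 - n - k - l - 1)) ((n + i + j + k + l - i2 + 1) - t) (by omega))) (sh al 2 ((n + i + j + k + l - i2 + 1) - t) ((3 * n + i + j + k + l - i2 + 1) - t) (by omega)))) (fun t h1 h2 => (cE (pb D2 al 1 t (t + (i + l + m - n - k3 + 2)) (by omega)) (sh al 1 (t + (i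 + l + m - n - k3 + 2)) (t + (i + l + m - k3 + 2)) (by omega))))
  · exact h8_86 al hy a1 a2 s1 s2 b c1 c2 tt D1 D2 mx hL bd0 n1 n2 n3 (by clear * - b0; omega) (by clear * - b1; omega) (by clear * - b2; omega) (by clear * - b3; omega) (by clear * - b4; omega) (by clear * - b5; omega) (by clear * - b6; omega) (by clear * - b7; omega) (by clear * - b9; omega) (by clear * - b10; omega) (by clear * - z199; omega)

theorem h8_93p
    (h8_94 : ∀ {W : ℤ → G} {n Q i j k l i2 m k3 : ℤ} (al : AL W n Q) (hy : (0) ≤ (i) ∧ (i) ≤ (j) ∧ (j + 1) ≤ (Q) ∧ (Q) ≤ (k) ∧ (k + 1) ≤ (n) ∧ (Q) ≤ (i + l + 1) ∧ (k + l + 2) ≤ (n) ∧ (0) ≤ (i2) ∧ (i2 + 1) ≤ (Q) ∧ (Q + m + 1) ≤ (n + i2) ∧ (i2) ≤ (m) ∧ (Q) ≤ (i + l + m + 2) ∧ (i + l + m + 3) ≤ (n) ∧ (Q) ≤ (k3) ∧ (k3 + 1) ≤ (n) ∧ (i + m + 2) ≤ (k) ∧ (i) ≤ (i2) ∧ (i2) ≤ (i) ∧ (i + m + 2) ≤ (k3) ∧ (k3) ≤ (i + l + m + 1) ∧ (m + k3 + 2) ≤ (n + i2)) (a1 : Par W (0) (j) (k -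 j)) (a2 : Par W (Q + j - k) (j) (k - j)) (s1 : Ant W (0) (i) (i + j)) (s2 : Ant W (j + 1) (Q) (i + j)) (b : Par W (i + 1) (i + l + 1) (k - i)) (c1 : Par W (i2 + 1) (Q) (k + l - i2 + 1)) (c2 : Par W (k + l + 2) (n) (i2 - k - l - 1)) (tt : Ant W (i2 - m) (i2) (i + l + i2 + 1)) (D1 : Par W (Q) (k3) (n + i2 - m - k3 - 1)) (D2 : Par W (i + l + m + 3) (n) (k3 - i - l - m - 2)) {L : ℤ} (mx : ∀ a b g, 0 < g → g < n → Par W a b g → b - a ≤ L) (hL : L ≤ (n - j - 3) ∧ L ≤ (n + Q - k - 3) ∧ L ≤ (n - l - 3) ∧ L ≤ (n + i - k - 2)) (bd0 : Bd W n L (j) (i) (k)) (n1 : Nd W (j) (i) (k)) (n2 : Nd W (i + l + 1) (i2) (k + l + 1)) (n3 : Nd W (n + i2 - m - 1) (i + l + m + 2) (k3)) (b0 : (2 * l + 3) ≤ (n)) (b1 : (k + i2 + 1) ≤ (Q + j + m)) (b2 : (1) ≤ (m)) (b3 : (i + l + i2 + m + 3) ≤ (Q + k3)) (b4 : (2 * k + l + 1) ≤ (n + j + i2)) (b5 : (i + 2 * j + 1) ≤ (k)) (b6 : (2 * n + 2 * j + m + k3) ≤ (i + 4 * k + 3 *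 l + 3)) (b7 : (2 * Q + k + l) ≤ (n + i + j + i2)) (b8 : (k + i2) ≤ (i + j + l + 2)), False)
    {W : ℤ → G} {n Q i j k l i2 m k3 : ℤ} (al : AL W n Q)
    (hy : (0) ≤ (i) ∧ (i) ≤ (j) ∧ (j + 1) ≤ (Q) ∧ (Q) ≤ (k) ∧ (k + 1) ≤ (n) ∧ (Q) ≤ (i + l + 1) ∧ (k + l + 2) ≤ (n) ∧ (0) ≤ (i2) ∧ (i2 + 1) ≤ (Q) ∧ (Q + m + 1) ≤ (n + i2) ∧ (i2) ≤ (m) ∧ (Q) ≤ (i + l + m + 2) ∧ (i + l + m + 3) ≤ (n) ∧ (Q) ≤ (k3) ∧ (k3 + 1) ≤ (n) ∧ (i + m + 2) ≤ (k) ∧ (i) ≤ (i2) ∧ (i2) ≤ (i) ∧ (i + m + 2) ≤ (k3) ∧ (k3) ≤ (i + l + m + 1) ∧ (m + k3 + 2) ≤ (n + i2))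
    (a1 : Par W (0) (j) (k - j))
    (a2 : Par W (Q + j - k) (j) (k - j))
    (s1 : Ant W (0) (i) (i + j))
    (s2 : Ant W (j + 1) (Q) (i + j))
    (b : Par W (i + 1) (i + l + 1) (k - i))
    (c1 : Par W (i2 + 1) (Q) (k + l - i2 + 1))
    (c2 : Par W (k + l + 2) (n) (i2 - k - l - 1))
    (tt : Ant W (i2 - m) (i2) (i + l + i2 + 1))
    (D1 : Par W (Q) (k3) (n + i2 - m - k3 - 1))
    (D2 : Par W (i + l + m + 3) (n) (k3 - i - l - m - 2))
    {L : ℤ} (mx : ∀ a b g, 0 < g → g < n → Par W a b g → b - a ≤ L)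
    (hL : L ≤ (n - j - 3) ∧ L ≤ (n + Q - k - 3) ∧ L ≤ (n - l - 3) ∧ L ≤ (n + i - k - 2))
    (bd0 : Bd W n L (j) (i) (k))
    (n1 : Nd W (j) (i) (k))
    (n2 : Nd W (i + l + 1) (i2) (k + l + 1))
    (n3 : Nd W (n + i2 - m - 1) (i + l + m + 2) (k3))
    (b0 : (2 * l + 3) ≤ (n))
    (b1 : (k + i2 + 1) ≤ (Q + j + m))
    (b2 : (1) ≤ (m))
    (b3 : (i + l + i2 + m + 3) ≤ (Q + k3))
    (b4 : (2 * k + l + 1) ≤ (n + j + i2))
    (b5 : (i + 2 * j + 1) ≤ (k))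
    (b6 : (2 * n + 2 * j + m + k3) ≤ (i + 4 * k + 3 * l + 3))
    (b7 : (2 * Q + k + l) ≤ (n + i + j + i2)) : False := by
  have ev := al.ev
  obtain ⟨y0, y1, y2, y3, y4, y5, y6, y7, y8, y9, y10, y11, y12, y13, y14, y15, y16, y17, y18, y19, y20⟩ := id hy
  have n1p := And.intro n1.p1 n1.p2
  have n2p := And.intro n2.p1 n2.p2
  have n3p := And.intro n3.p1 n3.p2
  by_cases z218 : (i + j + l + 3) ≤ (k + i2)
  · have kk2832 : (k) ≤ (i + j + l + i2 + 1) := by clear * - b1 b4 b6 y13; omega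
    have kk2833 : (i + j + l + 2) ≤ (k + i2) := by clear * - z218; omega
    have kk2834 : (i2) ≤ (m) := by clear * - y10; omega
    have kk2835 : (i2) ≤ (j) := by clear * - y1 y17; omega
    have r2836 : (2 * n + i + k + l + i2 - j + 1) % 2 = 0 := by clear * - ev n1p n2p n3p; omega
    clear * - al a1 tt kk2832 kk2833 kk2834 kk2835 r2836
    obtain ⟨t, ht⟩ : ∃ t, 2 * t = (2 * n + i + k + l + i2 - j + 1) := ⟨(2 * n + i + k + l + i2 - j + 1) / 2, by omega⟩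
    exact al.ninv t (cE (cI (pb a1 al 1 t (t + (j - n - k)) (by omega)) (qa tt al 0 (t + (j - n - k)) ((n + i + k + l + i2 - j + 1) - t) (by omega))) (sh al 1 ((n + i + k + l + i2 - j + 1) - t) t (by omega)))
  · exact h8_94 al hy a1 a2 s1 s2 b c1 c2 tt D1 D2 mx hL bd0 n1 n2 n3 (by clear * - b0; omega) (by clear * - b1; omega) (by clear * - b2; omega) (by clear * - b3; omega) (by clear * - b4; omega) (by clear * - b5; omega) (by clear * - b6; omega) (by clear * - b7; omega) (by clear * - z218; omega)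

theorem h8_106p
    {W : ℤ → G} {n Q i j k l i2 m k3 : ℤ} (al : AL W n Q)
    (hy : (0) ≤ (i) ∧ (i) ≤ (j) ∧ (j + 1) ≤ (Q) ∧ (Q) ≤ (k) ∧ (k + 1) ≤ (n) ∧ (Q) ≤ (i + l + 1) ∧ (k + l + 2) ≤ (n) ∧ (0) ≤ (i2) ∧ (i2 + 1) ≤ (Q) ∧ (Q + m + 1) ≤ (n + i2) ∧ (i2) ≤ (m) ∧ (Q) ≤ (i + l + m + 2) ∧ (i + l + m + 3) ≤ (n) ∧ (Q) ≤ (k3) ∧ (k3 + 1) ≤ (n) ∧ (i + m + 2) ≤ (k) ∧ (i) ≤ (i2) ∧ (i2) ≤ (i) ∧ (i + m + 2) ≤ (k3) ∧ (k3) ≤ (i + l + m + 1) ∧ (m + k3 + 2) ≤ (n + i2))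
    (a1 : Par W (0) (j) (k - j))
    (a2 : Par W (Q + j - k) (j) (k - j))
    (s1 : Ant W (0) (i) (i + j))
    (s2 : Ant W (j + 1) (Q) (i + j))
    (b : Par W (i + 1) (i + l + 1) (k - i))
    (c1 : Par W (i2 + 1) (Q) (k + l - i2 + 1))
    (c2 : Par W (k + l + 2) (n) (i2 - k - l - 1))
    (tt : Ant W (i2 - m) (i2) (i + l + i2 + 1))
    (D1 : Par W (Q) (k3) (n + i2 - m - k3 - 1))
    (D2 : Par W (i + l + m + 3) (n) (k3 - i - l - m - 2))
    {L : ℤ} (mx : ∀ a b g, 0 < g → g < n → Par W a b g → b - a ≤ L)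
    (hL : L ≤ (n - j - 3) ∧ L ≤ (n + Q - k - 3) ∧ L ≤ (n - l - 3) ∧ L ≤ (n + i - k - 2))
    (bd0 : Bd W n L (j) (i) (k))
    (n1 : Nd W (j) (i) (k))
    (n2 : Nd W (i + l + 1) (i2) (k + l + 1))
    (n3 : Nd W (n + i2 - m - 1) (i + l + m + 2) (k3))
    (b0 : (2 * l + 3) ≤ (n))
    (b1 : (2 * i + 2 * l + 3 * m + 5) ≤ (n + i2 + k3))
    (b2 : (2 * i + j + 1) ≤ (k))
    (b3 : (2 * Q + k + l) ≤ (n + 2 * j + i2))
    (b4 : (m + k3) ≤ (i + l + 2 * i2 + 1))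
    (b5 : (1) ≤ (m))
    (b6 : (i + l + i2 + m + 3) ≤ (Q + k3))
    (b7 : (2 * k + l + 1) ≤ (n + j + i2))
    (b8 : (i + k) ≤ (2 * j + 1))
    (b9 : (n + j + i2) ≤ (2 * k + l + 1)) : False := by
  have ev := al.ev
  obtain ⟨y0, y1, y2, y3, y4, y5, y6, y7, y8, y9, y10, y11, y12, y13, y14, y15, y16, y17, y18, y19, y20⟩ := id hy
  have n1p := And.intro n1.p1 n1.p2
  have n2p := And.intro n2.p1 n2.p2
  have n3p := And.intro n3.p1 n3.p2
  by_cases z257 : (n + 2 * i2) ≤ (2 * i + 2 * l + 2 * m + 3)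
  · by_cases v110 : (n + i2) ≤ (k + l + m + 2)
    · have kk3467 : (2 * k + 2) ≤ (n + 2 * i) := by clear * - b2 b4 b7 v110 y13 y17 y2 ev n1p n2p n3p; omega
      have kk3468 : (2 * i + 2 * l + 3) ≤ (n + 2 * i2) := by clear * - b0 y16; omega
      have kk3469 : (i) ≤ (i2) := by clear * - y16; omega
      have kk3470 : (n + i2) ≤ (k + l + m + 2) := by clear * - v110; omega
      have kk3471 : (Q) ≤ (i + l + 1) := by clear * - b2 b4 b7 v110 y13 y17; omega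
      have kk3472 : (n + 2 * i2) ≤ (Q + k + l + 1) := by clear * - b2 b4 b6 b7 v110 y17; omega
      have r3473 : (n + 2 * i2) % 2 = 0 := by clear * - ev n1p n2p n3p; omega
      clear * - al b c1 tt kk3467 kk3468 kk3469 kk3470 kk3471 kk3472 r3473
      obtain ⟨t, ht⟩ : ∃ t, 2 * t = (n + 2 * i2) := ⟨(n + 2 * i2) / 2, by omega⟩
      exact al.ninv t (cI (cE (pb b al 0 t (t + (i - k)) (by omega)) (qf c1 al 0 (t + (i - k)) (t + (i + l - i2 + 1)) (by omega))) (qa tt al 1 (t + (i + l - i2 + 1)) t (by omega)))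
    · have kk3474 : (n + 2 * i2) ≤ (2 * i + 2 * l + 2 * m + 2) := by clear * - z257 ev n1p n2p n3p; omega
      have kk3475 : (2 * i + 2 * l + 3) ≤ (n + 2 * i2) := by clear * - b0 y16; omega
      have kk3476 : (i) ≤ (i2) := by clear * - y16; omega
      have kk3477 : (k + l + m + 2) ≤ (n + i2) := by clear * - v110; omega
      have kk3478 : (Q) ≤ (i + l + 1) := by clear * - y5; omega
      have kk3479 : (n + 2 * i2) ≤ (Q + k + l + 1) := by clear * - b8 b9 y17 y2; omega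
      have r3480 : (n + 2 * i2) % 2 = 0 := by clear * - ev n1p n2p n3p; omega
      clear * - al b c1 tt kk3474 kk3475 kk3476 kk3477 kk3478 kk3479 r3480
      obtain ⟨t, ht⟩ : ∃ t, 2 * t = (n + 2 * i2) := ⟨(n + 2 * i2) / 2, by omega⟩
      exact al.ninv t (cI (cE (pb b al 0 t (t + (i - k)) (by omega)) (qf c1 al 0 (t + (i - k)) (t + (i + l - i2 + 1)) (by omega))) (qa tt al 1 (t + (i + l - i2 + 1)) t (by omega)))
  · by_cases z258 : (i + l + 2) ≤ (m + k3)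
    · by_cases v111 : (i + l + 1) ≤ (k3)
      · have kk3481 : (k3) ≤ (i + l + m + 1) := by clear * - y19; omega
        have kk3482 : (k3) ≤ (i + l + m) := by clear * - y19 ev n1p n2p n3p; omega
        have kk3483 : (i + l + m + 3 * k3 + 4) ≤ (2 * n + 4 * i2) := by clear * - y19 z257; omega
        have kk3484 : (i + l + m + k3 + 4) ≤ (2 * n) := by clear * - b2 b4 b7 b8 y17 z258; omega
        have kk3485 : (n + 2 * i2) ≤ (i + k + 2 * l + 2) := by clear * - b8 b9 y17 y2 y5; omega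
        have kk3486 : (n + 2 * i2) ≤ (Q + k + l + 1) := by clear * - b8 b9 y17 y2; omega
        have kk3487 : (i + k + l + m + 2) ≤ (n + 2 * i2) := by clear * - b2 b4 b7 v111 y17; omega
        have kk3488 : (k + l + m + 2) ≤ (n + i2) := by clear * - b2 b4 b7 v111 y17; omega
        have kk3489 : (2 * i2) ≤ (k3) := by clear * - y10 y17 y18; omega
        have kk3490 : (i + l + 1) ≤ (k3) := by clear * - v111; omega
        have r3491 : (n + 2 * i2) % 2 = 0 := by clear * - ev n1p n2p n3p; omega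
        have r3492 : (i + l + m - k3 + 2) % 2 = 0 := by clear * - ev n1p n2p n3p; omega
        clear * - al b c1 tt D2 kk3481 kk3482 kk3483 kk3484 kk3485 kk3486 kk3487 kk3488 kk3489 kk3490 r3491 r3492
        exact midP al (i + l + m - k3 + 2) (n + 2 * i2) (k3 + 1) (k3 + 1) (n) (by omega) (fun t h1 h2 => (cE (cE (ab tt al 0 t ((i + l + i2 + 1) - t) (by omega)) (pb c1 al (-1) ((i + l + i2 + 1) - t) ((n + i + 2 * i2 - k) - t) (by omega))) (qf b al 0 ((n + i + 2 * i2 - k) - t) ((n + 2 * i2) - t) (by omega)))) (fun t h1 h2 => (pb D2 al 0 t (t + (i + l + m - k3 + 2)) (by omega)))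
      · have kk3493 : (k3) ≤ (i + l + m + 1) := by clear * - v111 z258; omega
        have kk3494 : (i + l + 2) ≤ (m + k3) := by clear * - z258; omega
        have kk3495 : (3 * i + 3 * l + m + k3 + 6) ≤ (2 * n + 4 * i2) := by clear * - v111 z257 z258; omega
        have kk3496 : (3 * i + 3 * l + m + 6) ≤ (2 * n + k3) := by clear * - b0 b2 b3 b6 b7 v111 y18 z258; omega
        have kk3497 : (n + 2 * i2) ≤ (i + k + 2 * l + 2) := by clear * - b8 b9 v111 y13 y17 y2; omega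
        have kk3498 : (n + 2 * i2) ≤ (Q + k + l + 1) := by clear * - b8 b9 y17 y2; omega
        have kk3499 : (i + k + l + m + 2) ≤ (n + 2 * i2) := by clear * - b2 b4 b7 y13 y2 z257; omega
        have kk3500 : (k + l + m + 2) ≤ (n + i2) := by clear * - b7 v111 y13 y17 y2 z257; omega
        have kk3501 : (k3) ≤ (i + l + 1) := by clear * - v111; omega
        have kk3502 : (2 * i2) ≤ (i + l + 1) := by clear * - v111 y10 y17 y18; omega
        have r3503 : (n + 2 * i2) % 2 = 0 := by clear * - ev n1p n2p n3p; omega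
        have r3504 : (i + l + m - k3 + 2) % 2 = 0 := by clear * - ev n1p n2p n3p; omega
        clear * - al b c1 tt D2 kk3493 kk3494 kk3495 kk3496 kk3497 kk3498 kk3499 kk3500 kk3501 kk3502 r3503 r3504
        exact midP al (i + l + m - k3 + 2) (n + 2 * i2) (i + l + 2) (k3 + 1) (n) (by omega) (fun t h1 h2 => (cE (cE (ab tt al 0 t ((i + l + i2 + 1) - t) (by omega)) (pb c1 al (-1) ((i + l + i2 + 1) - t) ((n + i + 2 * i2 - k) - t) (by omega))) (qf b al 0 ((n + i + 2 * i2 - k) - t) ((n + 2 * i2) - t) (by omega)))) (fun t h1 h2 => (pb D2 al 0 t (t + (i + l + m - k3 + 2)) (by omega)))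
    · by_cases z259 : (k + k3) ≤ (i + j + l + m + 2)
      · by_cases z260 : (i + j + l + m + 2) ≤ (k + k3)
        · have kk3505 : (i + 1) ≤ (k) := by clear * - b5 b8 z258 z260; omega
          have kk3506 : (0) ≤ (l) := by clear * - b5 y18 z258; omega
          have kk3507 : (i + 1) ≤ (j) := by clear * - b5 b8 z258 z260; omega
          have kk3508 : (j) ≤ (k + l) := by clear * - b5 y18 z258 z260; omega
          have kk3509 : (k + k3) ≤ (i + j + l + m + 2) := by clear * - z259; omega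
          have kk3510 : (i + j + l + m + 2) ≤ (k + k3) := by clear * - z260; omega
          have kk3511 : (n + 2 * i2) ≤ (Q + k + l + 1) := by clear * - b6 b9 z259; omega
          have kk3512 : (k + l + m + 2) ≤ (n + i2) := by clear * - b5 b7 z258 z260; omega
          have kk3513 : (0) ≤ (l + m + 2) := by clear * - b5 y18 z258; omega
          have kk3514 : (i) ≤ (k3) := by clear * - b5 y18; omega
          have kk3515 : (k3) ≤ (i + l + m + 2) := by clear * - b5 z258; omega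
          have kk3516 : (k + l + 1) ≤ (n) := by clear * - b2 b5 b7 y17 z258 z260; omega
          have kk3517 : (0) ≤ (l + 1) := by clear * - b5 y18 z258; omega
          have kk3518 : (n + 2 * i2) ≤ (2 * k + 2 * l + 2) := by clear * - b3 b5 b6 b9 y18 z258 z259; omega
          have kk3519 : (i + m + 1) ≤ (k) := by clear * - b5 b8 z258 z260; omega
          have kk3520 : (i + k + l + m + 2) ≤ (n + 2 * i2) := by clear * - b2 b4 b7 z260; omega
          have r3521 : (k3 - i - l - m - 2) % 2 = 0 := by clear * - ev n1p n2p n3p; omega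
          have r3522 : (k - i) % 2 = 0 := by clear * - ev n1p n2p n3p; omega
          have r3523 : (n + i + 2 * i2 - k) % 2 = 0 := by clear * - ev n1p n2p n3p; omega
          clear * - al b c1 tt D2 n1 kk3505 kk3506 kk3507 kk3508 kk3509 kk3510 kk3511 kk3512 kk3513 kk3514 kk3515 kk3516 kk3517 kk3518 kk3519 kk3520 r3521 r3522 r3523
          exact ivt al.ninv (i + 1) (i + l + 1) (k - i) (i + l + m + 3) (k + l + 1) (k3 - i - l - m - 2) (k) (j) 0 (fun t h1 h2 => (qf b al 0 t (t + (k - i)) (by omega))) (fun t h1 h2 => (qf D2 al 0 t (t + (k3 - i - l - m - 2)) (by omega))) (fun hh => n1.f0 (rEE (sh al 0 (j) (j) (by omega)) (sh al 0 (k) (k) (by omega)) (Eq.symm (Eq.symm hh)))) (by omega) (i + l + 2) (i + l + m + 2) (n + i + 2 * i2 - k) 0 (-1) (fun t h1 h2 => (cI (sh al (-1) t (t + (-n)) (by omega)) (cE (ab tt al (-1) (t + (-n)) ((i + l + i2 + 1) - t) (by omega)) (pb c1 al (-1) ((i + l + i2 +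 1) - t) ((n + i + 2 * i2 - k) - t) (by omega))))) (by omega)
        · by_cases v112 : (k3) ≤ (j + m + 1)
          · have kk3524 : (k + k3) ≤ (i + j + l + m + 1) := by clear * - z260; omega
            have kk3525 : (i + j + l + m + 3) ≤ (n + k + k3) := by clear * - b2 b4 b5 y17 y18 z257; omega
            have kk3526 : (2 * i + l + m + 3) ≤ (Q + k3) := by clear * - b6 y16; omega
            have kk3527 : (Q + j + m + 1) ≤ (k + k3) := by clear * - b0 b9 y13 y2 z257 z258; omega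
            have kk3528 : (k) ≤ (i + l + m + 2) := by clear * - y13 y2 z260; omega
            have kk3529 : (k + l + 1) ≤ (n) := by clear * - b2 b7 y17 y7; omega
            have kk3530 : (0) ≤ (i + 1) := by clear * - y17 y7; omega
            have kk3531 : (k3) ≤ (k) := by clear * - b0 b9 z257 z260; omega
            have kk3532 : (k3) ≤ (j + m + 1) := by clear * - v112; omega
            have kk3533 : (k3) ≤ (i + l + m + 2) := by clear * - b5 z258; omega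
            clear * - al a1 b D2 kk3524 kk3525 kk3526 kk3527 kk3528 kk3529 kk3530 kk3531 kk3532 kk3533
            exact al.ubQ (i + j + l + m - k - k3 + 2) (by omega) (by omega) fun t h1 h2 => (cE (sh al (-1) t (t + (-n)) (by omega)) (cE (cE (pb a1 al (-1) (t + (-n)) (t + (j - k)) (by omega)) (qf b al 0 (t + (j - k)) (t + (j - i)) (by omega))) (pb (show Par W (2 * i + l + m - k + 3) (i + l + 1) (k + k3 - 2 * i - l - m - 2) from fun t h1 h2 => (cE (sh al (-1) t (t + (-n)) (by omega)) (cE (qf b al (-1) (t + (-n)) (t + (k - i)) (by omega)) (qf D2 al 0 (t + (k - i)) (t + (k + k3 - 2 * i - l - m - 2)) (by omega))))) al 0 (t + (j - i)) (t + (i + j + l + m - k - k3 + 2)) (by omega))))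
          · have kk3534 : (k + k3) ≤ (i + j + l + m + 1) := by clear * - z260; omega
            have kk3535 : (i + j + l + m + 3) ≤ (n + k + k3) := by clear * - b3 b5 b6 b9 v112 z257 z258; omega
            have kk3536 : (2 * i + l + m + 3) ≤ (Q + k3) := by clear * - b6 y16; omega
            have kk3537 : (Q) ≤ (k) := by clear * - b0 b3 b5 b9 v112 z257 z260; omega
            have kk3538 : (k) ≤ (i + l + m + 2) := by clear * - b5 v112 z260; omega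
            have kk3539 : (k + l + 1) ≤ (n) := by clear * - b2 b5 b7 v112 y17 z257 z260; omega
            have kk3540 : (0) ≤ (i + 1) := by clear * - y17 y7; omega
            have kk3541 : (k3) ≤ (k) := by clear * - b0 b9 z257 z260; omega
            have kk3542 : (j + m + 1) ≤ (k3) := by clear * - v112; omega
            have kk3543 : (j) ≤ (i + l + 1) := by clear * - b5 v112 z258; omega
            clear * - al a1 b D2 kk3534 kk3535 kk3536 kk3537 kk3538 kk3539 kk3540 kk3541 kk3542 kk3543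
            exact al.ubQ (i + j + l + m - k - k3 + 2) (by omega) (by omega) fun t h1 h2 => (cE (sh al (-1) t (t + (-n)) (by omega)) (cE (cE (pb a1 al (-1) (t + (-n)) (t + (j - k)) (by omega)) (qf b al 0 (t + (j - k)) (t + (j - i)) (by omega))) (pb (show Par W (2 * i + l + m - k + 3) (i + l + 1) (k + k3 - 2 * i - l - m - 2) from fun t h1 h2 => (cE (sh al (-1) t (t + (-n)) (by omega)) (cE (qf b al (-1) (t + (-n)) (t + (k - i)) (by omega)) (qf D2 al 0 (t + (k - i)) (t + (k + k3 - 2 * i - l - m - 2)) (by omega))))) al 0 (t + (j - i)) (t + (i + j + l + m - k - k3 + 2)) (by omega))))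
      · have kk3544 : (i + 1) ≤ (k) := by clear * - b5 b8 z258 z259; omega
        have kk3545 : (0) ≤ (l) := by clear * - b5 y18 z258; omega
        have kk3546 : (0) ≤ (l + m + 1) := by clear * - b5 y18 z258; omega
        have kk3547 : (i + m + 2) ≤ (k) := by clear * - b5 b8 z258 z259; omega
        have kk3548 : (i + 1) ≤ (k3) := by clear * - b5 y18; omega
        have kk3549 : (k3) ≤ (k + l) := by clear * - b5 b8 z258 z259; omega
        have kk3550 : (n + 2 * i2) ≤ (Q + k + l + 1) := by clear * - b8 b9 y17 y2; omega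
        have kk3551 : (k + l + m + 2) ≤ (n + i2) := by clear * - b5 b7 z258 z259; omega
        have kk3552 : (0) ≤ (l + m + 2) := by clear * - b5 y18 z258; omega
        have kk3553 : (i) ≤ (k3) := by clear * - b5 y18; omega
        have kk3554 : (k + l + 1) ≤ (n) := by clear * - b2 b5 b7 y17 z258 z259; omega
        have kk3555 : (k3) ≤ (i + l + m + 2) := by clear * - b5 z258; omega
        have kk3556 : (n + 2 * i2) ≤ (2 * k + l + 1) := by clear * - b5 b8 b9 y17 z258 z259; omega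
        have kk3557 : (0) ≤ (l + 1) := by clear * - b5 y18 z258; omega
        have kk3558 : (i + k + l + m + 2) ≤ (n + 2 * i2) := by clear * - b2 b4 b7 z259; omega
        have kk3559 : (i + m + 1) ≤ (k) := by clear * - b5 b8 z258 z259; omega
        have r3560 : (k3 - i - l - m - 2) % 2 = 0 := by clear * - ev n1p n2p n3p; omega
        have r3561 : (k - i) % 2 = 0 := by clear * - ev n1p n2p n3p; omega
        have r3562 : (i + 2 * i2 - n - k) % 2 = 0 := by clear * - ev n1p n2p n3p; omega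
        clear * - al b c1 tt D2 n3 kk3544 kk3545 kk3546 kk3547 kk3548 kk3549 kk3550 kk3551 kk3552 kk3553 kk3554 kk3555 kk3556 kk3557 kk3558 kk3559 r3560 r3561 r3562
        exact ivt al.ninv (i - n + 1) (i + l - n + 1) (k - i) (i + l + m - n + 3) (k + l - n + 1) (k3 - i - l - m - 2) (i + l + m - n + 2) (k3 - n) 0 (fun t h1 h2 => (cE (qf b al (-1) t (t + (n + k - i)) (by omega)) (sh al (-1) (t + (n + k - i)) (t + (k - i)) (by omega)))) (fun t h1 h2 => (cE (qf D2 al (-1) t (t + (n + k3 - i - l - m - 2)) (by omega)) (sh al (-1) (t + (n + k3 - i - l - m - 2)) (t + (k3 - i - l - m - 2)) (by omega)))) (fun hh => n3.f1 (rEE (sh al (-1) (i + l + m + 2) (i + l + m - n + 2) (by omega)) (sh al (-1) (k3) (k3 - n) (by omega)) (Eq.symm hh))) (by omega) (i + l - n + 2) (i + l + m - n + 2) (i + 2 * i2 - n - k) 0 (-1) (fun t h1 h2 => (cE (cE (ab tt al (-1) t ((i + l + i2 - n + 1) - t) (by omega)) (pb c1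 al (-1) ((i + l + i2 - n + 1) - t) ((i + 2 * i2 - k) - t) (by omega))) (sh al (-1) ((i + 2 * i2 - k) - t) ((i + 2 * i2 - n - k) - t) (by omega)))) (by omega)

theorem h8_21p
    (h8_22 : ∀ {W : ℤ → G} {n Q i j k l i2 m k3 : ℤ} (al : AL W n Q) (hy : (0) ≤ (i) ∧ (i) ≤ (j) ∧ (j + 1) ≤ (Q) ∧ (Q) ≤ (k) ∧ (k + 1) ≤ (n) ∧ (Q) ≤ (i + l + 1) ∧ (k + l + 2) ≤ (n) ∧ (0) ≤ (i2) ∧ (i2 + 1) ≤ (Q) ∧ (Q + m + 1) ≤ (n + i2) ∧ (i2) ≤ (m) ∧ (Q) ≤ (i + l + m + 2) ∧ (i + l + m + 3) ≤ (n) ∧ (Q) ≤ (k3) ∧ (k3 + 1) ≤ (n) ∧ (i + m + 2) ≤ (k) ∧ (i) ≤ (i2) ∧ (i2) ≤ (i) ∧ (i + m + 2) ≤ (k3) ∧ (k3) ≤ (i + l + m + 1) ∧ (m + k3 + 2) ≤ (n + i2)) (a1 : Par W (0) (j) (k - j)) (a2 : Par W (Q + j - k) (j) (k - j)) (s1 : Ant W (0) (i) (i + j)) (s2 : Ant W (j + 1) (Q) (i + j)) (b : Par W (i + 1) (i + l + 1) (k - i)) (c1 : Par W (i2 + 1) (Q) (k + l - i2 + 1)) (c2 : Par W (k + l + 2) (n) (i2 - k - l - 1)) (tt : Ant W (i2 - m) (i2)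 (i + l + i2 + 1)) (D1 : Par W (Q) (k3) (n + i2 - m - k3 - 1)) (D2 : Par W (i + l + m + 3) (n) (k3 - i - l - m - 2)) {L : ℤ} (mx : ∀ a b g, 0 < g → g < n → Par W a b g → b - a ≤ L) (hL : L ≤ (n - j - 3) ∧ L ≤ (n + Q - k - 3) ∧ L ≤ (n - l - 3) ∧ L ≤ (n + i - k - 2)) (bd0 : Bd W n L (j) (i) (k)) (n1 : Nd W (j) (i) (k)) (n2 : Nd W (i + l + 1) (i2) (k + l + 1)) (n3 : Nd W (n + i2 - m - 1) (i + l + m + 2) (k3)) (b0 : (2 * l + 3) ≤ (n)) (b1 : (2 * i + 2 * l + 3 * m + 5) ≤ (n + i2 + k3)) (b2 : (k + i2 + 1) ≤ (Q + j + m)) (b3 : (2 * i + j + 1) ≤ (k)) (b4 : (2 * Q + k + l) ≤ (n + 2 * j + i2)) (b5 : (m + k3) ≤ (i + l + 2 * i2 + 1)) (b6 : (1) ≤ (m)), False)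
    {W : ℤ → G} {n Q i j k l i2 m k3 : ℤ} (al : AL W n Q)
    (hy : (0) ≤ (i) ∧ (i) ≤ (j) ∧ (j + 1) ≤ (Q) ∧ (Q) ≤ (k) ∧ (k + 1) ≤ (n) ∧ (Q) ≤ (i + l + 1) ∧ (k + l + 2) ≤ (n) ∧ (0) ≤ (i2) ∧ (i2 + 1) ≤ (Q) ∧ (Q + m + 1) ≤ (n + i2) ∧ (i2) ≤ (m) ∧ (Q) ≤ (i + l + m + 2) ∧ (i + l + m + 3) ≤ (n) ∧ (Q) ≤ (k3) ∧ (k3 + 1) ≤ (n) ∧ (i + m + 2) ≤ (k) ∧ (i) ≤ (i2) ∧ (i2) ≤ (i) ∧ (i + m + 2) ≤ (k3) ∧ (k3) ≤ (i + l + m + 1) ∧ (m + k3 + 2) ≤ (n + i2))
    (a1 : Par W (0) (j) (k - j))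
    (a2 : Par W (Q + j - k) (j) (k - j))
    (s1 : Ant W (0) (i) (i + j))
    (s2 : Ant W (j + 1) (Q) (i + j))
    (b : Par W (i + 1) (i + l + 1) (k - i))
    (c1 : Par W (i2 + 1) (Q) (k + l - i2 + 1))
    (c2 : Par W (k + l + 2) (n) (i2 - k - l - 1))
    (tt : Ant W (i2 - m) (i2) (i + l + i2 + 1))
    (D1 : Par W (Q) (k3) (n + i2 - m - k3 - 1))
    (D2 : Par W (i + l + m + 3) (n) (k3 - i - l - m - 2))
    {L : ℤ} (mx : ∀ a b g, 0 < g → g < n → Par W a b g → b - a ≤ L)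
    (hL : L ≤ (n - j - 3) ∧ L ≤ (n + Q - k - 3) ∧ L ≤ (n - l - 3) ∧ L ≤ (n + i - k - 2))
    (bd0 : Bd W n L (j) (i) (k))
    (n1 : Nd W (j) (i) (k))
    (n2 : Nd W (i + l + 1) (i2) (k + l + 1))
    (n3 : Nd W (n + i2 - m - 1) (i + l + m + 2) (k3))
    (b0 : (2 * l + 3) ≤ (n))
    (b1 : (2 * i + 2 * l + 3 * m + 5) ≤ (n + i2 + k3))
    (b2 : (k + i2 + 1) ≤ (Q + j + m))
    (b3 : (2 * i + j + 1) ≤ (k))
    (b4 : (2 * Q + k + l) ≤ (n + 2 * j + i2))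
    (b5 : (m + k3) ≤ (i + l + 2 * i2 + 1)) : False := by
  have ev := al.ev
  obtain ⟨y0, y1, y2, y3, y4, y5, y6, y7, y8, y9, y10, y11, y12, y13, y14, y15, y16, y17, y18, y19, y20⟩ := id hy
  have n1p := And.intro n1.p1 n1.p2
  have n2p := And.intro n2.p1 n2.p2
  have n3p := And.intro n3.p1 n3.p2
  by_cases z51 : (m) ≤ (0)
  · have kk691 : (k3) ≤ (i + l + m + 1) := by clear * - y19; omega
    have kk692 : (i + l + m + 3) ≤ (n) := by clear * - b0 b2 b3 y13 y20 z51; omega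
    have kk693 : (k3) ≤ (i + l) := by clear * - y19 z51 ev n1p n2p n3p; omega
    have kk694 : (i + l + 2) ≤ (n) := by clear * - b0 b2 b3 y13 y20; omega
    have kk695 : (k3) ≤ (k + l) := by clear * - y15 y19; omega
    have kk696 : (k + l + 2) ≤ (n) := by clear * - y6; omega
    have kk697 : (m) ≤ (0) := by clear * - z51; omega
    have kk698 : (i) ≤ (k3) := by clear * - y13 y16 y8; omega
    have kk699 : (i) ≤ (k) := by clear * - y10 y15 y7; omega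
    have kk700 : (k + l + 1) ≤ (n) := by clear * - y6; omega
    have r701 : (k - i) % 2 = 0 := by clear * - ev n1p n2p n3p; omega
    have r702 : (i + l + m - k3 + 2) % 2 = 0 := by clear * - ev n1p n2p n3p; omega
    clear * - al b D2 n2 kk691 kk692 kk693 kk694 kk695 kk696 kk697 kk698 kk699 kk700 r701 r702
    exact ivt0 (k3 - n + 1) (k3 - i - l - m - 2) (i + l + m - k3 + 2) (k3 - n + 1) (i + l - n + 1) (k - i) (i + l - n + 1) (k + l - n + 1) 0 (fun t h1 h2 => (cE (pb D2 al (-1) t (t + (n + i + l + m - k3 + 2)) (by omega)) (sh al (-1) (t + (n + i + l + m - k3 + 2)) (t + (i + l + m - k3 + 2)) (by omega)))) (fun t h1 h2 => (cE (qf b al (-1) t (t + (n + k - i)) (by omega)) (sh al (-1) (t + (n + k - i)) (t + (k - i)) (by omega)))) (fun hh => n2.f0 (rEE (sh al (-1) (i + l + 1) (i + l - n + 1) (by omega)) (sh al (-1) (k + l + 1) (k + l - n + 1) (by omega)) (Eq.symm hh))) (by omega) (by omega)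
  · exact h8_22 al hy a1 a2 s1 s2 b c1 c2 tt D1 D2 mx hL bd0 n1 n2 n3 (by clear * - b0; omega) (by clear * - b1; omega) (by clear * - b2; omega) (by clear * - b3; omega) (by clear * - b4; omega) (by clear * - b5; omega) (by clear * - z51; omega)

theorem h9_9p
    {W : ℤ → G} {n Q i j k l i2 m k3 : ℤ} (al : AL W n Q)
    (hy : (0) ≤ (i) ∧ (i) ≤ (j) ∧ (j + 1) ≤ (Q) ∧ (Q) ≤ (k) ∧ (k + 1) ≤ (n) ∧ (Q) ≤ (i + l + 1) ∧ (k + l + 2) ≤ (n) ∧ (0) ≤ (i2) ∧ (i2 + 1) ≤ (Q) ∧ (Q + m + 1) ≤ (n + i2) ∧ (i2) ≤ (m) ∧ (Q) ≤ (i + l + m + 2) ∧ (i + l + m + 3) ≤ (n) ∧ (Q) ≤ (k3) ∧ (k3 + 1) ≤ (n) ∧ (i + m + 2) ≤ (k) ∧ (i) ≤ (i2) ∧ (i2) ≤ (i) ∧ (i + m + 1) ≤ (k3) ∧ (k3) ≤ (i + m + 1) ∧ (k3) ≤ (i + l + m + 1) ∧ (m + k3 + 2) ≤ (n + i2))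
    (a1 : Par W (0) (j) (k - j))
    (a2 : Par W (Q + j - k) (j) (k - j))
    (s1 : Ant W (0) (i) (i + j))
    (s2 : Ant W (j + 1) (Q) (i + j))
    (b : Par W (i + 1) (i + l + 1) (k - i))
    (c1 : Par W (i2 + 1) (Q) (k + l - i2 + 1))
    (c2 : Par W (k + l + 2) (n) (i2 - k - l - 1))
    (tt : Ant W (i2 - m) (i2) (i + l + i2 + 1))
    (D1 : Par W (Q) (k3) (n + i2 - m - k3 - 1))
    (D2 : Par W (i + l + m + 3) (n) (k3 - i - l - m - 2))
    {L : ℤ} (mx : ∀ a b g, 0 < g → g < n → Par W a b g → b - a ≤ L)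
    (hL : L ≤ (n - j - 3) ∧ L ≤ (n + Q - k - 3) ∧ L ≤ (n - l - 3) ∧ L ≤ (n + i - k - 2))
    (bd0 : Bd W n L (j) (i) (k))
    (n1 : Nd W (j) (i) (k))
    (n2 : Nd W (i + l + 1) (i2) (k + l + 1))
    (n3 : Nd W (n + i2 - m - 1) (i + l + m + 2) (k3))
    (d1 : ℤ) (q1 : d1 % 2 = 0) (x1 : Par W (i + 1) (k + l - d1 + 1) d1)
    (b0 : (0) ≤ (d1))
    (b1 : (n + i + d1) ≤ (k + 2 * l + 2))
    (b2 : (d1) ≤ (0))
    (b3 : (2 * k + 2) ≤ (n + Q + i))
    (b4 : (2 * Q + k + l) ≤ (n + 2 * j + i2))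
    (b5 : (2 * i + l + m + 3) ≤ (k + k3))
    (b6 : (i + l + 2 * m + 3) ≤ (n + i2))
    (b7 : (2 * i + j + 1) ≤ (k))
    (b8 : (n + i2 + k3) ≤ (2 * i + 2 * l + 3 * m + 4)) : False := by
  have ev := al.ev
  obtain ⟨y0, y1, y2, y3, y4, y5, y6, y7, y8, y9, y10, y11, y12, y13, y14, y15, y16, y17, y18, y19, y20, y21⟩ := id hy
  have n1p := And.intro n1.p1 n1.p2
  have n2p := And.intro n2.p1 n2.p2
  have n3p := And.intro n3.p1 n3.p2
  by_cases z9 : (2 * i + 2 * l + i2 + m + 5) ≤ (n + k3)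
  · have kk45 : (2 * i + 2 * l + i2 + m + 5) ≤ (n + k3) := by clear * - z9; omega
    have kk46 : (n + i2 + k3) ≤ (2 * i + 2 * l + 3 * m + 4) := by clear * - b8; omega
    have kk47 : (0) ≤ (i2) := by clear * - y7; omega
    have kk48 : (i + l + 2 * m + 3) ≤ (n + i2) := by clear * - b6; omega
    have r49 : (3 * n + i2 + k3 - m - 1) % 2 = 0 := by clear * - ev n1p n2p n3p q1; omega
    clear * - al tt D2 kk45 kk46 kk47 kk48 r49
    obtain ⟨t, ht⟩ : ∃ t, 2 * t = (3 * n + i2 + k3 - m - 1) := ⟨(3 * n + i2 + k3 - m - 1) / 2, by omega⟩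
    exact al.ninv t (cE (cE (ab tt al 1 t ((n + i + l + i2 + 1) - t) (by omega)) (qf D2 al (-1) ((n + i + l + i2 + 1) - t) ((2 * n + i2 + k3 - m - 1) - t) (by omega))) (sh al 1 ((2 * n + i2 + k3 - m - 1) - t) t (by omega)))
  · by_cases z10 : (2 * i + 2 * j + l + m + k3 + 4) ≤ (3 * k + 2 * i2)
    · by_cases v3 : (k + i2) ≤ (j + k3)
      · have kk50 : (2 * i + l + m + 3) ≤ (k + k3) := by clear * - v3 z10; omega
        have kk51 : (2 * i + 2 * j + l + m + k3 + 4) ≤ (3 * k + 2 * i2) := by clear * - z10; omega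
        have kk52 : (4 * i + 2 * j + l + 3 * m + k3 + 6) ≤ (5 * k + 2 * i2) := by clear * - b6 b7 v3 y17 y19 z10 z9; omega
        have kk53 : (4 * i + l + 3 * m + 6) ≤ (3 * k + k3) := by clear * - b6 b7 v3 y17 y19 z10 z9; omega
        have kk54 : (k) ≤ (i + l + m + 2) := by clear * - b3 b7 v3 y13 y19 z9; omega
        have kk55 : (k + l + 1) ≤ (n) := by clear * - y6; omega
        have kk56 : (i2) ≤ (m) := by clear * - b3 b7 v3 y13 y17 y19 z10 z9; omega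
        have kk57 : (i2) ≤ (j) := by clear * - b6 b7 v3 y17 y19 z10 z9; omega
        have kk58 : (2 * k) ≤ (2 * i + j + l + m + 3) := by clear * - v3 y6 z9; omega
        have kk59 : (k + i2) ≤ (j + k3) := by clear * - v3; omega
        have r60 : (2 * n + i + k + l + i2 - j + 1) % 2 = 0 := by clear * - ev n1p n2p n3p q1; omega
        have r61 : (k + k3 - 2 * i - l - m - 2) % 2 = 0 := by clear * - ev n1p n2p n3p q1; omega
        clear * - al a1 b tt D2 kk50 kk51 kk52 kk53 kk54 kk55 kk56 kk57 kk58 kk59 r60 r61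
        exact midP al (k + k3 - 2 * i - l - m - 2) (2 * n + i + k + l + i2 - j + 1) (n + 2 * i + l + m - k + 3) (n + 2 * i + l + m - k + 3) (n + k + k3 - i - m - 1) (by omega) (fun t h1 h2 => (cE (cI (pb a1 al 1 t (t + (j - n - k)) (by omega)) (qa tt al 0 (t + (j - n - k)) ((n + i + k + l + i2 - j + 1) - t) (by omega))) (sh al 1 ((n + i + k + l + i2 - j + 1) - t) ((2 * n + i + k + l + i2 - j + 1) - t) (by omega)))) (fun t h1 h2 => (cE (qf (show Par W (2 * i + l + m - k + 3) (i + l + 1) (k + k3 - 2 * i - l - m - 2) from fun t h1 h2 => (cE (sh al (-1) t (t + (-n)) (by omega)) (cE (qf b al (-1) (t + (-n)) (t + (k - i)) (by omega)) (qf D2 al 0 (t + (k - i)) (t + (k + k3 - 2 * i - l - m - 2)) (by omega))))) al 1 t (t + (k + k3 - n - 2 * i - l - m - 2)) (by omega)) (sh al 1 (t + (k + k3 - n - 2 * i - l - m - 2)) (t + (k + k3 - 2 * i - l - m - 2)) (by omega))))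
      · have kk62 : (2 * i + l + m + 3) ≤ (k + k3) := by clear * - b5; omega
        have kk63 : (2 * i + l + m + 4) ≤ (k + k3) := by clear * - b5 ev n1p n2p n3p q1; omega
        have kk64 : (4 * i + l + 3 * m + 6) ≤ (3 * k + k3) := by clear * - b0 b1 b5 b6 y17 y19; omega
        have kk65 : (4 * i + l + 2 * i2 + 3 * m + 6) ≤ (2 * j + k + 3 * k3) := by clear * - b5 y1 y17 y18 ev n1p n2p n3p q1; omega
        have kk66 : (k) ≤ (i + l + m + 2) := by clear * - b8 y18 y6 z9; omega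
        have kk67 : (k + l + 1) ≤ (n) := by clear * - y6; omega
        have kk68 : (i2) ≤ (m) := by clear * - y10; omega
        have kk69 : (i2) ≤ (j) := by clear * - y1 y17; omega
        have kk70 : (k + k3) ≤ (2 * i + l + i2 + m + 3) := by clear * - y6 z9; omega
        have kk71 : (j + k3) ≤ (k + i2) := by clear * - v3; omega
        have r72 : (2 * n + i + k + l + i2 - j + 1) % 2 = 0 := by clear * - ev n1p n2p n3p q1; omega
        have r73 : (k + k3 - 2 * i - l - m - 2) % 2 = 0 := by clear * - ev n1p n2p n3p q1; omega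
        clear * - al a1 b tt D2 kk62 kk63 kk64 kk65 kk66 kk67 kk68 kk69 kk70 kk71 r72 r73
        exact midP al (k + k3 - 2 * i - l - m - 2) (2 * n + i + k + l + i2 - j + 1) (n + 2 * i + l + i2 + m - j - k3 + 3) (n + 2 * i + l + m - k + 3) (n + k + k3 - i - m - 1) (by omega) (fun t h1 h2 => (cE (cI (pb a1 al 1 t (t + (j - n - k)) (by omega)) (qa tt al 0 (t + (j - n - k)) ((n + i + k + l + i2 - j + 1) - t) (by omega))) (sh al 1 ((n + i + k + l + i2 - j + 1) - t) ((2 * n + i + k + l + i2 - j + 1) - t) (by omega)))) (fun t h1 h2 => (cE (qf (show Par W (2 * i + l + m - k + 3) (i + l + 1) (k + k3 - 2 * i - l - m - 2) from fun t h1 h2 => (cE (sh al (-1) t (t + (-n)) (by omega)) (cE (qf b al (-1) (t + (-n)) (t + (k - i)) (by omega)) (qf D2 al 0 (t + (k - i)) (t + (k + k3 - 2 * i - l - m - 2)) (by omega))))) al 1 t (t + (k + k3 - n - 2 * i - l - m - 2)) (by omega)) (sh al 1 (t + (k + k3 - n - 2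 * i - l - m - 2)) (t + (k + k3 - 2 * i - l - m - 2)) (by omega))))
    · have kk74 : (n + j + i2) ≤ (2 * k + l) := by clear * - b5 b7 y17 z9; omega
      have kk75 : (2 * k + l + 2) ≤ (2 * n + j + i2) := by clear * - b3 b4 b5 b7 y17 y19 z9; omega
      have kk76 : (2 * k + l + 2) ≤ (n + Q + j) := by clear * - b5 b6 y16 y19 y2 z10; omega
      have kk77 : (Q + k + l + 1) ≤ (n + j + i2) := by clear * - b5 b6 y13 y16 y19 z10; omega
      clear * - al a2 c1 kk74 kk75 kk76 kk77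
      exact al.ubQ (2 * k + l - n - j - i2 + 1) (by omega) (by omega) fun t h1 h2 => (cE (sh al (-1) t (t + (-n)) (by omega)) (cE (qf c1 al (-1) (t + (-n)) (t + (k + l - i2 + 1)) (by omega)) (qf a2 al 1 (t + (k + l - i2 + 1)) (t + (2 * k + l - n - j - i2 + 1)) (by omega))))

theorem h9_10p
    {W : ℤ → G} {n Q i j k l i2 m k3 : ℤ} (al : AL W n Q)
    (hy : (0) ≤ (i) ∧ (i) ≤ (j) ∧ (j + 1) ≤ (Q) ∧ (Q) ≤ (k) ∧ (k + 1) ≤ (n) ∧ (Q) ≤ (i + l + 1) ∧ (k + l + 2) ≤ (n) ∧ (0) ≤ (i2) ∧ (i2 + 1) ≤ (Q) ∧ (Q + m + 1) ≤ (n + i2) ∧ (i2) ≤ (m) ∧ (Q) ≤ (i + l + m + 2) ∧ (i + l + m + 3) ≤ (n) ∧ (Q) ≤ (k3) ∧ (k3 + 1) ≤ (n) ∧ (i + m + 2) ≤ (k) ∧ (i) ≤ (i2) ∧ (i2) ≤ (i) ∧ (i + m + 1) ≤ (k3) ∧ (k3) ≤ (i + m + 1) ∧ (k3) ≤ (i + l + m + 1) ∧ (m + k3 + 2) ≤ (n + i2))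
    (a1 : Par W (0) (j) (k - j))
    (a2 : Par W (Q + j - k) (j) (k - j))
    (s1 : Ant W (0) (i) (i + j))
    (s2 : Ant W (j + 1) (Q) (i + j))
    (b : Par W (i + 1) (i + l + 1) (k - i))
    (c1 : Par W (i2 + 1) (Q) (k + l - i2 + 1))
    (c2 : Par W (k + l + 2) (n) (i2 - k - l - 1))
    (tt : Ant W (i2 - m) (i2) (i + l + i2 + 1))
    (D1 : Par W (Q) (k3) (n + i2 - m - k3 - 1))
    (D2 : Par W (i + l + m + 3) (n) (k3 - i - l - m - 2))
    {L : ℤ} (mx : ∀ a b g, 0 < g → g < n → Par W a b g → b - a ≤ L)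
    (hL : L ≤ (n - j - 3) ∧ L ≤ (n + Q - k - 3) ∧ L ≤ (n - l - 3) ∧ L ≤ (n + i - k - 2))
    (bd0 : Bd W n L (j) (i) (k))
    (n1 : Nd W (j) (i) (k))
    (n2 : Nd W (i + l + 1) (i2) (k + l + 1))
    (n3 : Nd W (n + i2 - m - 1) (i + l + m + 2) (k3))
    (d1 : ℤ) (q1 : d1 % 2 = 0) (x1 : Par W (i + 1) (k + l - d1 + 1) d1)
    (b0 : (0) ≤ (d1))
    (b1 : (n + i + d1) ≤ (k + 2 * l + 2))
    (b2 : (d1) ≤ (0))
    (b3 : (2 * k + 2) ≤ (n + Q + i))
    (b4 : (2 * Q + k + l) ≤ (n + 2 * j + i2))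
    (b5 : (2 * i + l + m + 3) ≤ (k + k3))
    (b6 : (2 * i + j + 1) ≤ (k))
    (b7 : (2 * i + 2 * l + 3 * m + 5) ≤ (n + i2 + k3)) : False := by
  have ev := al.ev
  obtain ⟨y0, y1, y2, y3, y4, y5, y6, y7, y8, y9, y10, y11, y12, y13, y14, y15, y16, y17, y18, y19, y20, y21⟩ := id hy
  have n1p := And.intro n1.p1 n1.p2
  have n2p := And.intro n2.p1 n2.p2
  have n3p := And.intro n3.p1 n3.p2
  by_cases z11 : (k + i2) ≤ (i + j + l + 2 * m + 2)
  · by_cases z12 : (2 * Q + 2 * j + k3) ≤ (2 * i + k + l + 2 * i2 + m + 2)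
    · by_cases z13 : (i + j + l + 3) ≤ (k + i2)
      · by_cases v4 : (k + i2) ≤ (Q + j + m)
        · have kk78 : (i + j + l + 3) ≤ (k + i2) := by clear * - z13; omega
          have kk79 : (2 * Q + j) ≤ (i + k + l + i2 + 2) := by clear * - b0 b1 b4 b7 v4 y17 y18 z12 z13; omega
          have kk80 : (i2) ≤ (j) := by clear * - b0 b1 b4 b7 v4 y17 y19 z13; omega
          have kk81 : (k + i2) ≤ (Q + j + m) := by clear * - v4; omega
          have r82 : (i + k + l + i2 - 2 * n - j + 1) % 2 = 0 := by clear * - ev n1p n2p n3p q1; omega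
          clear * - al a2 tt kk78 kk79 kk80 kk81 r82
          obtain ⟨t, ht⟩ : ∃ t, 2 * t = (i + k + l + i2 - 2 * n - j + 1) := ⟨(i + k + l + i2 - 2 * n - j + 1) / 2, by omega⟩
          exact al.ninv t (cE (cE (ab tt al (-1) t ((i + l + i2 - n + 1) - t) (by omega)) (qf a2 al 0 ((i + l + i2 - n + 1) - t) ((i + k + l + i2 - n - j + 1) - t) (by omega))) (sh al (-1) ((i + k + l + i2 - n - j + 1) - t) t (by omega)))
        · have kk83 : (i + j + l + 3) ≤ (k + i2) := by clear * - z13; omega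
          have kk84 : (k + i2) ≤ (i + j + l + 2 * m + 2) := by clear * - z11; omega
          have kk85 : (i2) ≤ (j) := by clear * - y1 y17; omega
          have kk86 : (Q + j + m) ≤ (k + i2) := by clear * - v4; omega
          have r87 : (i + k + l + i2 - 2 * n - j + 1) % 2 = 0 := by clear * - ev n1p n2p n3p q1; omega
          clear * - al a2 tt kk83 kk84 kk85 kk86 r87
          obtain ⟨t, ht⟩ : ∃ t, 2 * t = (i + k + l + i2 - 2 * n - j + 1) := ⟨(i + k + l + i2 - 2 * n - j + 1) / 2, by omega⟩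
          exact al.ninv t (cE (cE (ab tt al (-1) t ((i + l + i2 - n + 1) - t) (by omega)) (qf a2 al 0 ((i + l + i2 - n + 1) - t) ((i + k + l + i2 - n - j + 1) - t) (by omega))) (sh al (-1) ((i + k + l + i2 - n - j + 1) - t) t (by omega)))
      · by_cases v5 : (k + i2) ≤ (Q + j + m)
        · have kk88 : (2 * i + l + m + 3) ≤ (k + k3) := by clear * - b5; omega
          have kk89 : (2 * Q + 2 * j + k3) ≤ (2 * i + k + l + 2 * i2 + m + 2) := by clear * - z12; omega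
          have kk90 : (2 * i + 2 * j + l + m + k3 + 4) ≤ (3 * k + 2 * i2) := by clear * - b0 b1 b5 b7 y19 y2 z12; omega
          have kk91 : (2 * i + l + m + 4) ≤ (k + k3) := by clear * - b5 ev n1p n2p n3p q1; omega
          have kk92 : (k) ≤ (i + l + m + 2) := by clear * - y13 y16 y19 y2 z13; omega
          have kk93 : (k + l + 1) ≤ (n) := by clear * - y6; omega
          have kk94 : (i2) ≤ (j) := by clear * - b5 y19 z13; omega
          have kk95 : (k + i2) ≤ (Q + j + m) := by clear * - v5; omega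
          have kk96 : (i + m + 1) ≤ (k) := by clear * - b0 b1 b5 b7 v5 y17 y19 z12; omega
          have kk97 : (i + i2 + m + 1) ≤ (j + k3) := by clear * - b5 z13; omega
          have r98 : (i + k + l + i2 - 2 * n - j + 1) % 2 = 0 := by clear * - ev n1p n2p n3p q1; omega
          have r99 : (k + k3 - 2 * i - l - m - 2) % 2 = 0 := by clear * - ev n1p n2p n3p q1; omega
          clear * - al a2 b tt D2 kk88 kk89 kk90 kk91 kk92 kk93 kk94 kk95 kk96 kk97 r98 r99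
          exact midP al (k + k3 - 2 * i - l - m - 2) (i + k + l + i2 - 2 * n - j + 1) (i + l - n + 2) (2 * i + l + m - n - k + 3) (k + k3 - n - i - m - 1) (by omega) (fun t h1 h2 => (cE (cE (ab tt al (-1) t ((i + l + i2 - n + 1) - t) (by omega)) (qf a2 al 0 ((i + l + i2 - n + 1) - t) ((i + k + l + i2 - n - j + 1) - t) (by omega))) (sh al (-1) ((i + k + l + i2 - n - j + 1) - t) ((i + k + l + i2 - 2 * n - j + 1) - t) (by omega)))) (fun t h1 h2 => (cE (qf (show Par W (2 * i + l + m - k + 3) (i + l + 1) (k + k3 - 2 * i - l - m - 2) from fun t h1 h2 => (cE (sh al (-1) t (t + (-n)) (by omega)) (cE (qf b al (-1) (t + (-n)) (t + (k - i)) (by omega)) (qf D2 al 0 (t + (k - i)) (t + (k + k3 - 2 * i - l - m - 2)) (by omega))))) al (-1) t (t + (n + k + k3 - 2 * i - l - m - 2)) (by omega)) (sh al (-1) (t + (n + k + k3 - 2 * i - l - m - 2)) (t + (k + k3 - 2 * i - l - m - 2)) (by omega))))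
        · have kk100 : (2 * i + l + m + 3) ≤ (k + k3) := by clear * - b5; omega
          have kk101 : (k + k3) ≤ (2 * i + l + 3 * m + 2) := by clear * - y13 y16 y19 y2 z11 z13 ev n1p n2p n3p q1; omega
          have kk102 : (2 * i + 2 * j + l + m + k3 + 4) ≤ (3 * k + 2 * i2) := by clear * - b5 v5 y16 y19 y8; omega
          have kk103 : (2 * i + l + m + 4) ≤ (k + k3) := by clear * - b5 ev n1p n2p n3p q1; omega
          have kk104 : (k) ≤ (i + l + m + 2) := by clear * - y13 y16 y19 y2 z13; omega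
          have kk105 : (k + l + 1) ≤ (n) := by clear * - y6; omega
          have kk106 : (i2) ≤ (j) := by clear * - b5 y19 z13; omega
          have kk107 : (Q + j + m) ≤ (k + i2) := by clear * - v5; omega
          have kk108 : (i + m + 1) ≤ (k) := by clear * - b0 b1 b3 b5 b7 v5 y17 y19 z13; omega
          have kk109 : (i + i2 + m + 1) ≤ (j + k3) := by clear * - b5 z13; omega
          have r110 : (i + k + l + i2 - 2 * n - j + 1) % 2 = 0 := by clear * - ev n1p n2p n3p q1; omega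
          have r111 : (k + k3 - 2 * i - l - m - 2) % 2 = 0 := by clear * - ev n1p n2p n3p q1; omega
          clear * - al a2 b tt D2 kk100 kk101 kk102 kk103 kk104 kk105 kk106 kk107 kk108 kk109 r110 r111
          exact midP al (k + k3 - 2 * i - l - m - 2) (i + k + l + i2 - 2 * n - j + 1) (i + l - n + 2) (2 * i + l + m - n - k + 3) (k + k3 - n - i - m - 1) (by omega) (fun t h1 h2 => (cE (cE (ab tt al (-1) t ((i + l + i2 - n + 1) - t) (by omega)) (qf a2 al 0 ((i + l + i2 - n + 1) - t) ((i + k + l + i2 - n - j + 1) - t) (by omega))) (sh al (-1) ((i + k + l + i2 - n - j + 1) - t) ((i + k + l + i2 - 2 * n - j + 1) - t) (by omega)))) (fun t h1 h2 => (cE (qf (show Par W (2 * i + l + m - k + 3) (i + l + 1) (k + k3 - 2 * i - l - m - 2) from fun t h1 h2 => (cE (sh al (-1) t (t + (-n)) (by omega)) (cE (qf b al (-1) (t + (-n)) (t + (k - i)) (by omega)) (qf D2 al 0 (t + (k - i)) (t + (k + k3 - 2 *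 i - l - m - 2)) (by omega))))) al (-1) t (t + (n + k + k3 - 2 * i - l - m - 2)) (by omega)) (sh al (-1) (t + (n + k + k3 - 2 * i - l - m - 2)) (t + (k + k3 - 2 * i - l - m - 2)) (by omega))))
    · by_cases z14 : (i + j + l + 2) ≤ (k + i2)
      · have kk112 : (i + j + l + 3) ≤ (k + i2) := by clear * - z14 ev n1p n2p n3p q1; omega
        have kk113 : (2 * Q + j) ≤ (i + k + l + i2 + 2) := by clear * - y5 z14; omega
        have kk114 : (i2) ≤ (j) := by clear * - b0 b1 b4 y17 y20 z12 z14; omega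
        have kk115 : (k + i2) ≤ (Q + j + m) := by clear * - b0 b1 b3 y13 y16 y19 y2 z12; omega
        have r116 : (i + k + l + i2 - 2 * n - j + 1) % 2 = 0 := by clear * - ev n1p n2p n3p q1; omega
        clear * - al a2 tt kk112 kk113 kk114 kk115 r116
        obtain ⟨t, ht⟩ : ∃ t, 2 * t = (i + k + l + i2 - 2 * n - j + 1) := ⟨(i + k + l + i2 - 2 * n - j + 1) / 2, by omega⟩
        exact al.ninv t (cE (cE (ab tt al (-1) t ((i + l + i2 - n + 1) - t) (by omega)) (qf a2 al 0 ((i + l + i2 - n + 1) - t) ((i + k + l + i2 - n - j + 1) - t) (by omega))) (sh al (-1) ((i + k + l + i2 - n - j + 1) - t) t (by omega)))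
      · by_cases z15 : (n + 2 * i2) ≤ (2 * i + 2 * l + 2 * m + 4)
        · by_cases z16 : (k3) ≤ (Q)
          · have kk117 : (k + l + m + 3) ≤ (n + i2) := by clear * - b7 y13 y16 y19 y2 z14; omega
            have kk118 : (n + 2 * i2) ≤ (Q + k + l + m + 1) := by clear * - b5 z15 z16; omega
            have kk119 : (j + 1) ≤ (k) := by clear * - b6 b7 y19 y7 z15; omega
            have kk120 : (0) ≤ (j) := by clear * - b4 b5 b7 y7 z15 z16; omega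
            have kk121 : (k + l + m + 2) ≤ (n + 2 * i2) := by clear * - b7 y13 y16 y19 y2 y7 z14; omega
            have kk122 : (n + 2 * i2) ≤ (2 * k + l + m + 1) := by clear * - b0 b1 b5 b7 y19 y21 z15; omega
            have kk123 : (0) ≤ (k3) := by clear * - b3 b6 b7 y13 y19 y7 z12 z15; omega
            have kk124 : (k3 + 1) ≤ (k) := by clear * - b0 b1 b5 b7 y19 y21 z15; omega
            have kk125 : (n + 2 * i2) ≤ (2 * i + 2 * l + 2 * m + 4) := by clear * - z15; omega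
            have kk126 : (2 * i + 2 * l + 2 * m + 4) ≤ (n + 2 * i2) := by clear * - b7 y16 y19; omega
            have kk127 : (k3) ≤ (Q) := by clear * - z16; omega
            have kk128 : (k) ≤ (i + l + m + 2) := by clear * - y13 y16 y19 y2 z14; omega
            have kk129 : (k + l + 1) ≤ (n) := by clear * - y6; omega
            have kk130 : (i) ≤ (j) := by clear * - b4 b5 y16 z14 z15 z16; omega
            have kk131 : (2 * Q) ≤ (i + k + 1) := by clear * - b0 b1 b7 y13 y19 z15; omega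
            have kk132 : (k) ≤ (2 * i + l + m + 3) := by clear * - y13 y19 y2 y7 z14; omega
            have kk133 : (0) ≤ (k3 + 1) := by clear * - b3 b6 b7 y13 y19 y7 z12 z15; omega
            have kk134 : (i + l + 1) ≤ (k) := by clear * - b5 y19; omega
            have kk135 : (i + m + 1) ≤ (k3) := by clear * - y18; omega
            have kk136 : (0) ≤ (j + 1) := by clear * - b4 b5 b7 y7 z15 z16; omega
            have kk137 : (Q) ≤ (k) := by clear * - b0 b1 b3 b5 b7 y13 y19 z15; omega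
            have kk138 : (Q) ≤ (i + k + 1) := by clear * - b0 b1 b6 b7 y13 y19 y7 z12 z14 z15; omega
            have r139 : (k + k3 - 2 * i - l - m - 2) % 2 = 0 := by clear * - ev n1p n2p n3p q1; omega
            have r140 : (k - j) % 2 = 0 := by clear * - ev n1p n2p n3p q1; omega
            have r141 : (i + k - 2 * n) % 2 = 0 := by clear * - ev n1p n2p n3p q1; omega
            clear * - al a1 a2 s2 b c1 D2 n3 kk117 kk118 kk119 kk120 kk121 kk122 kk123 kk124 kk125 kk126 kk127 kk128 kk129 kk130 kk131 kk132 kk133 kk134 kk135 kk136 kk137 kk138 r139 r140 r141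
            exact ivt al.ninv (-n) (j - n) (k - j) (2 * i + l + m - n - k + 3) (2 * i + l + m - n - k3 + 2) (k + k3 - 2 * i - l - m - 2) (2 * i2 - k - l - m - 2) (k3 - n) 0 (fun t h1 h2 => (cE (qf a1 al (-1) t (t + (n + k - j)) (by omega)) (sh al (-1) (t + (n + k - j)) (t + (k - j)) (by omega)))) (fun t h1 h2 => (cE (qf (show Par W (2 * i + l + m - k + 3) (i + l + 1) (k + k3 - 2 * i - l - m - 2) from fun t h1 h2 => (cE (sh al (-1) t (t + (-n)) (by omega)) (cE (qf b al (-1) (t + (-n)) (t + (k - i)) (by omega)) (qf D2 al 0 (t + (k - i)) (t + (k + k3 - 2 * i - l - m - 2)) (by omega))))) al (-1) t (t + (n + k + k3 - 2 * i - l - m - 2)) (by omega)) (sh al (-1) (t + (n + k + k3 - 2 * i - l - m - 2)) (t + (k + k3 - 2 * i - l - m - 2)) (by omega)))) (fun hh => n3.f0 (rEE (cE (pb c1 al 0 (n + i2 - m - 1) (n + 2 * i2 - k - l - m - 2) (by omega)) (sh al (-1) (n + 2 * i2 - k - l - m - 2) (2 * i2 -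 k - l - m - 2) (by omega))) (sh al (-1) (k3) (k3 - n) (by omega)) (Eq.symm hh))) (by omega) (j - n + 1) (Q - n) (i + k - 2 * n) 1 (-1) (fun t h1 h2 => (cE (cE (qa s2 al (-1) t ((i + j - n) - t) (by omega)) (qf a2 al 0 ((i + j - n) - t) ((i + k - n) - t) (by omega))) (sh al (-1) ((i + k - n) - t) ((i + k - 2 * n) - t) (by omega)))) (by omega)
          · by_cases z17 : (k) ≤ (i + 2 * j)
            · by_cases v6 : (2 * j + 1) ≤ (k)
              · have kk142 : (k) ≤ (i + 2 * j) := by clear * - z17; omega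
                have kk143 : (k) ≤ (i + 2 * j + 1) := by clear * - z17; omega
                have kk144 : (2 * j + 1) ≤ (k) := by clear * - v6; omega
                have kk145 : (i + j + 1) ≤ (k) := by clear * - b6 v6 z17; omega
                have r146 : (i + 2 * j - k) % 2 = 0 := by clear * - ev n1p n2p n3p q1; omega
                clear * - al a1 s1 kk142 kk143 kk144 kk145 r146
                obtain ⟨t, ht⟩ : ∃ t, 2 * t = (i + 2 * j - k) := ⟨(i + 2 * j - k) / 2, by omega⟩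
                exact al.ninv t (cI (qf a1 al 0 t (t + (k - j)) (by omega)) (ab s1 al 0 (t + (k - j)) t (by omega)))
              · have kk147 : (2 * j + 2) ≤ (i + k) := by clear * - b0 b1 b7 y19 y2 z15 z16; omega
                have kk148 : (k) ≤ (i + 2 * j + 1) := by clear * - z17; omega
                have kk149 : (k) ≤ (2 * j + 1) := by clear * - v6; omega
                have kk150 : (i + j + 1) ≤ (k) := by clear * - b6 b7 y19 y7 z15; omega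
                have r151 : (i + 2 * j - k) % 2 = 0 := by clear * - ev n1p n2p n3p q1; omega
                clear * - al a1 s1 kk147 kk148 kk149 kk150 r151
                obtain ⟨t, ht⟩ : ∃ t, 2 * t = (i + 2 * j - k) := ⟨(i + 2 * j - k) / 2, by omega⟩
                exact al.ninv t (cI (qf a1 al 0 t (t + (k - j)) (by omega)) (ab s1 al 0 (t + (k - j)) t (by omega)))
            · have kk152 : (k3) ≤ (i + l + m + 1) := by clear * - y20; omega
              have kk153 : (i + l + 2) ≤ (m + k3) := by clear * - y19 y7 z12 z16 z17; omega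
              have kk154 : (k3) ≤ (i + l + m) := by clear * - b0 b1 b3 b5 b7 y19 z15 z16; omega
              have kk155 : (i + l + 2 * i2 + 2) ≤ (m + k3) := by clear * - y19 z12 z16 z17; omega
              have kk156 : (m + k3 + 1) ≤ (n + i2) := by clear * - y21; omega
              have kk157 : (i + l + m + 2) ≤ (n) := by clear * - b0 b1 b7 y19 z11 z15 z17; omega
              have r158 : (i + l + i2 - n + 1) % 2 = 0 := by clear * - ev n1p n2p n3p q1; omega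
              have r159 : (i + l + m - k3 + 2) % 2 = 0 := by clear * - ev n1p n2p n3p q1; omega
              clear * - al tt D2 kk152 kk153 kk154 kk155 kk156 kk157 r158 r159
              exact midP al (i + l + m - k3 + 2) (i + l + i2 - n + 1) (i2 - m) (k3 - n + 1) (0) (by omega) (fun t h1 h2 => (cE (qa tt al 0 t ((i + l + i2 + 1) - t) (by omega)) (sh al (-1) ((i + l + i2 + 1) - t) ((i + l + i2 - n + 1) - t) (by omega)))) (fun t h1 h2 => (cE (pb D2 al (-1) t (t + (n + i + l + m - k3 + 2)) (by omega)) (sh al (-1) (t + (n + i + l + m - k3 + 2)) (t + (i + l + m - k3 + 2)) (by omega))))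
        · by_cases z18 : (Q) ≤ (j + 1)
          · have kk160 : (k3) ≤ (i + m + 1) := by clear * - y19; omega
            have kk161 : (i + m + 1) ≤ (k3) := by clear * - y18; omega
            have kk162 : (j + k3) ≤ (2 * i + l + m + 1) := by clear * - b0 b1 b7 y13 y19 y2 z14; omega
            have kk163 : (2 * i + l + m + 3) ≤ (n + j + k3) := by clear * - b5 b7 y21 z11; omega
            have kk164 : (2 * i + l + m + 3) ≤ (Q + k) := by clear * - b0 b1 b5 b7 y19 y2 z12; omega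
            have kk165 : (Q) ≤ (j + 1) := by clear * - z18; omega
            have kk166 : (k) ≤ (i + l + m + 2) := by clear * - y13 y16 y19 y2 z14; omega
            have kk167 : (k + l + 1) ≤ (n) := by clear * - y6; omega
            have kk168 : (i2) ≤ (i) := by clear * - y17; omega
            have kk169 : (i) ≤ (i2) := by clear * - y16; omega
            have kk170 : (k3 + 1) ≤ (k) := by clear * - b0 b1 b5 y17 y19 y21 z15; omega
            have kk171 : (i + k + l + m + 3) ≤ (n + k3) := by clear * - y18 y6; omega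
            have kk172 : (Q) ≤ (k3 + 1) := by clear * - y13; omega
            clear * - al a2 b D2 n1 n2 kk160 kk161 kk162 kk163 kk164 kk165 kk166 kk167 kk168 kk169 kk170 kk171 kk172
            exact al.ubQ (2 * i + l + m - j - k3 + 2) (by omega) (by omega) (mgP (b := (j + k3 - i - m - 1)) (le_refl _) (fun t h1 h2 => (cE (sh al (-1) t (t + (-n)) (by omega)) (cE (qf a2 al (-1) (t + (-n)) (t + (k - j)) (by omega)) (pb (show Par W (2 * i + l + m - k + 3) (i + l + 1) (k + k3 - 2 * i - l - m - 2) from fun t h1 h2 => (cE (sh al (-1) t (t + (-n)) (by omega)) (cE (qf b al (-1) (t + (-n)) (t + (k - i)) (by omega)) (qf D2 al 0 (t + (k - i)) (t + (k + k3 - 2 * i - l - m - 2)) (by omega))))) al 0 (t + (k - j)) (t + (2 * i + l + m - j - k3 + 2)) (by omega))))) (fun t h1 h2 => (cE (sh al (-1) t (t + (-n)) (by omega)) (qf (uP (j) (i + l + 1) (i + l - j + 1) (by omega) (lat n1.r1 n2.r1 (sh al 0 (i) (i2)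 (by omega)) (iNN (pb D2 al 0 (k) (k + l + 1) (by omega))))) al (-1) (t + (-n)) (t + (2 * i + l + m - j - k3 + 2)) (by omega)))))
          · by_cases z19 : (k3) ≤ (Q)
            · have kk173 : (k) ≤ (i + l + m + 1) := by clear * - y13 y16 y19 z14 z18; omega
              have kk174 : (i + m + 2) ≤ (k) := by clear * - b0 b1 b5 y17 y20 z15; omega
              have kk175 : (j + 1) ≤ (k) := by clear * - b0 b1 b7 y13 y19 z12 z14 z18; omega
              have kk176 : (0) ≤ (j) := by clear * - b5 y19 y7 z14; omega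
              have kk177 : (0) ≤ (k3) := by clear * - b5 y13 y19 y7 z14 z18; omega
              have kk178 : (k3 + 1) ≤ (k) := by clear * - b0 b1 b4 b5 y17 y19 z15 z18; omega
              have kk179 : (k) ≤ (2 * i + l + m + 2) := by clear * - y13 y19 y7 z14 z18; omega
              have kk180 : (2 * i + l + m + 3) ≤ (2 * k) := by clear * - b0 b1 b4 b5 y17 y19 z15 z18; omega
              have kk181 : (i + m + 1) ≤ (k3) := by clear * - y18; omega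
              have kk182 : (k3) ≤ (Q) := by clear * - z19; omega
              have kk183 : (k) ≤ (i + l + m + 2) := by clear * - y13 y16 y19 z14 z18; omega
              have kk184 : (k + l + 1) ≤ (n) := by clear * - b6 b7 y13 y19 z11 z12 z14 z15 z18; omega
              have kk185 : (i) ≤ (j) := by clear * - b0 b1 b4 b5 y19 z12 z18; omega
              have kk186 : (2 * Q) ≤ (i + k + 1) := by clear * - b0 b1 y13 y17 y19 z15; omega
              have kk187 : (0) ≤ (k3 + 1) := by clear * - b5 y13 y19 y7 z14 z18; omega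
              have kk188 : (k) ≤ (2 * i + l + m + 3) := by clear * - y13 y19 y7 z14 z18; omega
              have kk189 : (k3) ≤ (i + m + 1) := by clear * - y19; omega
              have kk190 : (i + l + 1) ≤ (k) := by clear * - b5 y19; omega
              have kk191 : (0) ≤ (j + 1) := by clear * - b5 y19 y7 z14; omega
              have kk192 : (Q) ≤ (k) := by clear * - b0 b1 b7 y13 y19 z12 z14 z18; omega
              have kk193 : (Q) ≤ (i + k + 1) := by clear * - b0 b1 y13 y17 y19 y7 z12 z14 z15 z18; omega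
              have r194 : (2 * i + l + m - k - k3 + 2) % 2 = 0 := by clear * - ev n1p n2p n3p q1; omega
              have r195 : (k - j) % 2 = 0 := by clear * - ev n1p n2p n3p q1; omega
              have r196 : (i + k - 2 * n) % 2 = 0 := by clear * - ev n1p n2p n3p q1; omega
              clear * - al a1 a2 s2 b D2 n3 kk173 kk174 kk175 kk176 kk177 kk178 kk179 kk180 kk181 kk182 kk183 kk184 kk185 kk186 kk187 kk188 kk189 kk190 kk191 kk192 kk193 r194 r195 r196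
              exact ivt al.ninv (-n) (j - n) (k - j) (k3 - n + 1) (k + k3 - n - i - m - 1) (2 * i + l + m - k - k3 + 2) (k3 - n) (2 * i + l + m - n - k + 2) 0 (fun t h1 h2 => (cE (qf a1 al (-1) t (t + (n + k - j)) (by omega)) (sh al (-1) (t + (n + k - j)) (t + (k - j)) (by omega)))) (fun t h1 h2 => (cE (sh al 2 t (t + (2 * n)) (by omega)) (cE (pb (show Par W (2 * i + l + m - k + 3) (i + l + 1) (k + k3 - 2 * i - l - m - 2) from fun t h1 h2 => (cE (sh al (-1) t (t + (-n)) (by omega)) (cE (qf b al (-1) (t + (-n)) (t + (k - i)) (by omega)) (qf D2 al 0 (t + (k - i)) (t + (k + k3 - 2 * i - l - m - 2)) (by omega))))) al 1 (t + (2 * n)) (t + (n + 2 * i + l + m - k - k3 + 2)) (by omega)) (sh al (-1) (t + (n + 2 * i + l + m - k - k3 + 2)) (t + (2 * i + l + m - k - k3 + 2)) (by omega))))) (fun hh => n3.f1 (rEE (cE (pb b al 0 (i + l + m + 2) (2 * i + l + m - k + 2) (by omega)) (sh al (-1) (2 * i +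 l + m - k + 2) (2 * i + l + m - n - k + 2) (by omega))) (sh al (-1) (k3) (k3 - n) (by omega)) (Eq.symm (Eq.symm hh)))) (by omega) (j - n + 1) (Q - n) (i + k - 2 * n) 0 (-1) (fun t h1 h2 => (cE (cE (qa s2 al (-1) t ((i + j - n) - t) (by omega)) (qf a2 al 0 ((i + j - n) - t) ((i + k - n) - t) (by omega))) (sh al (-1) ((i + k - n) - t) ((i + k - 2 * n) - t) (by omega)))) (by omega)
            · by_cases z20 : (Q + i + m) ≤ (j + i2 + k3 + 1)
              · by_cases v7 : (j + k3 + 1) ≤ (k)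
                · have kk197 : (k) ≤ (i + l + m + 1) := by clear * - y16 y19 z14 z18 z19; omega
                  have kk198 : (i + m + 2) ≤ (k) := by clear * - v7 y19 z12 z14 z18 z19 z20; omega
                  have kk199 : (j + 1) ≤ (k) := by clear * - v7 y19 z12 z14 z18 z19 z20; omega
                  have kk200 : (0) ≤ (j) := by clear * - v7 y19 z12 z14 z18 z19 z20; omega
                  have kk201 : (0) ≤ (k3) := by clear * - v7 y19 z12 z14 z18 z19 z20; omega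
                  have kk202 : (k3 + 1) ≤ (k) := by clear * - v7 y19 z12 z14 z18 z19 z20; omega
                  have kk203 : (k) ≤ (2 * i + l + m + 2) := by clear * - y19 z14 z18 z19 z20; omega
                  have kk204 : (2 * i + l + m + 3) ≤ (2 * k) := by clear * - v7 y19 z12 z14 z18 z19 z20; omega
                  have kk205 : (Q + i + m) ≤ (j + i2 + k3 + 1) := by clear * - z20; omega
                  have kk206 : (k) ≤ (i + l + m + 2) := by clear * - y16 y19 z14 z18 z19; omega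
                  have kk207 : (k + l + 1) ≤ (n) := by clear * - b6 v7 y19 z12 z14 z15 z18 z19 z20; omega
                  have kk208 : (Q) ≤ (k3 + 1) := by clear * - z19; omega
                  have kk209 : (k3) ≤ (i + m + 1) := by clear * - y19; omega
                  have kk210 : (i2) ≤ (j) := by clear * - v7 y19 z12 z14 z18 z19 z20; omega
                  have kk211 : (k + i2) ≤ (Q + j + m) := by clear * - b0 b1 y19 z12 z14 z15 z18 z19; omega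
                  have kk212 : (j + k3 + 1) ≤ (k) := by clear * - v7; omega
                  have kk213 : (j + k3) ≤ (2 * i + l + m + 2) := by clear * - v7 y19 z14 z18 z19 z20; omega
                  have kk214 : (i + l + 1) ≤ (k) := by clear * - v7 y19 z12 z18 z19 z20; omega
                  have kk215 : (0) ≤ (i + l + 2) := by clear * - v7 y19 z12 z14 z18 z19 z20; omega
                  have kk216 : (i + l + i2 + 2) ≤ (Q + j) := by clear * - v7 y19 z12 z18 z19 z20; omega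
                  have kk217 : (0) ≤ (Q) := by clear * - v7 y19 z12 z14 z18 z19 z20; omega
                  have r218 : (2 * i + l + m - j - k3 + 2) % 2 = 0 := by clear * - ev n1p n2p n3p q1; omega
                  have r219 : (k - j) % 2 = 0 := by clear * - ev n1p n2p n3p q1; omega
                  have r220 : (i + k + l + i2 - 2 * n - j + 1) % 2 = 0 := by clear * - ev n1p n2p n3p q1; omega
                  clear * - al a1 a2 b tt D2 n3 kk197 kk198 kk199 kk200 kk201 kk202 kk203 kk204 kk205 kk206 kk207 kk208 kk209 kk210 kk211 kk212 kk213 kk214 kk215 kk216 kk217 r218 r219 r220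
                  exact ivt al.ninv (-n) (j - n) (k - j) (-n) (j + k3 - n - i - m - 1) (2 * i + l + m - j - k3 + 2) (k3 - n) (2 * i + l + m - n - k + 2) (-1) (fun t h1 h2 => (cE (qf a1 al (-1) t (t + (n + k - j)) (by omega)) (sh al (-1) (t + (n + k - j)) (t + (k - j)) (by omega)))) (fun t h1 h2 => (cE (cE (qf a2 al (-1) t (t + (n + k - j)) (by omega)) (pb (show Par W (2 * i + l + m - k + 3) (i + l + 1) (k + k3 - 2 * i - l - m - 2) from fun t h1 h2 => (cE (sh al (-1) t (t + (-n)) (by omega)) (cE (qf b al (-1) (t + (-n)) (t + (k - i)) (by omega)) (qf D2 al 0 (t + (k - i)) (t + (k + k3 - 2 * i - l - m - 2)) (by omega))))) al 0 (t + (n + k - j)) (t + (n + 2 * i + l + m - j - k3 + 2)) (by omega))) (sh al (-1) (t + (n + 2 * i + l + m - j - k3 + 2)) (t + (2 * i + l + m - j - k3 + 2)) (by omega)))) (fun hh => n3.f1 (rEE (cE (pb b al 0 (i + l + m + 2) (2 * i + l + m - k + 2) (by omega)) (sh al (-1)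 (2 * i + l + m - k + 2) (2 * i + l + m - n - k + 2) (by omega))) (sh al (-1) (k3) (k3 - n) (by omega)) (Eq.symm (Eq.symm hh)))) (by omega) (i + l - n + 2) (i + k + l + i2 - n - Q - j + 2) (i + k + l + i2 - 2 * n - j + 1) 1 0 (fun t h1 h2 => (cE (cE (ab tt al (-1) t ((i + l + i2 - n + 1) - t) (by omega)) (qf a2 al 0 ((i + l + i2 - n + 1) - t) ((i + k + l + i2 - n - j + 1) - t) (by omega))) (sh al (-1) ((i + k + l + i2 - n - j + 1) - t) ((i + k + l + i2 - 2 * n - j + 1) - t) (by omega)))) (by omega)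
                · have kk221 : (k) ≤ (i + l + m + 1) := by clear * - y16 y19 z14 z18 z19; omega
                  have kk222 : (i + m + 2) ≤ (k) := by clear * - b0 b1 b7 y19 z12 z14 z18 z19; omega
                  have kk223 : (j + 1) ≤ (k) := by clear * - b0 b1 b7 y19 z12 z14 z18 z19; omega
                  have kk224 : (0) ≤ (j) := by clear * - b5 y19 z14 z18 z20; omega
                  have kk225 : (0) ≤ (k3) := by clear * - b5 y19 z14 z18 z19 z20; omega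
                  have kk226 : (k3 + 1) ≤ (k) := by clear * - b0 b1 b7 y19 z12 z14 z18 z19; omega
                  have kk227 : (k) ≤ (2 * i + l + m + 2) := by clear * - y19 z14 z18 z19 z20; omega
                  have kk228 : (2 * i + l + m + 3) ≤ (2 * k) := by clear * - b0 b1 b7 y19 z12 z14 z18 z19; omega
                  have kk229 : (Q + i + m) ≤ (k + i2) := by clear * - b0 b1 b7 y19 z19; omega
                  have kk230 : (k) ≤ (i + l + m + 2) := by clear * - y16 y19 z14 z18 z19; omega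
                  have kk231 : (k + l + 1) ≤ (n) := by clear * - b6 b7 v7 y19 z14 z18 z19; omega
                  have kk232 : (Q) ≤ (k3 + 1) := by clear * - z19; omega
                  have kk233 : (k3) ≤ (i + m + 1) := by clear * - y19; omega
                  have kk234 : (i2) ≤ (j) := by clear * - b5 y19 z14; omega
                  have kk235 : (k + i2) ≤ (Q + j + m) := by clear * - b6 v7 y19 z12 z14 z18 z19 z20; omega
                  have kk236 : (k) ≤ (j + k3 + 1) := by clear * - v7; omega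
                  have kk237 : (k) ≤ (2 * i + l + m + 3) := by clear * - y19 z14 z18 z19 z20; omega
                  have kk238 : (j + k3) ≤ (2 * i + l + m + 2) := by clear * - b0 b1 b7 y19 z14 z18 z19; omega
                  have kk239 : (i + l + 1) ≤ (k) := by clear * - b5 y19; omega
                  have kk240 : (0) ≤ (i + l + 2) := by clear * - b0 b1 b7 v7 y19 z12 z14 z18 z19; omega
                  have kk241 : (i + l + i2 + 2) ≤ (Q + j) := by clear * - b5 y19 z12; omega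
                  have kk242 : (0) ≤ (Q) := by clear * - b5 y19 z14 z18 z20; omega
                  have r243 : (2 * i + l + m - j - k3 + 2) % 2 = 0 := by clear * - ev n1p n2p n3p q1; omega
                  have r244 : (k - j) % 2 = 0 := by clear * - ev n1p n2p n3p q1; omega
                  have r245 : (i + k + l + i2 - 2 * n - j + 1) % 2 = 0 := by clear * - ev n1p n2p n3p q1; omega
                  clear * - al a1 a2 b tt D2 n3 kk221 kk222 kk223 kk224 kk225 kk226 kk227 kk228 kk229 kk230 kk231 kk232 kk233 kk234 kk235 kk236 kk237 kk238 kk239 kk240 kk241 kk242 r243 r244 r245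
                  exact ivt al.ninv (-n) (j - n) (k - j) (j + k3 - n - k + 1) (j + k3 - n - i - m - 1) (2 * i + l + m - j - k3 + 2) (k3 - n) (2 * i + l + m - n - k + 2) (-1) (fun t h1 h2 => (cE (qf a1 al (-1) t (t + (n + k - j)) (by omega)) (sh al (-1) (t + (n + k - j)) (t + (k - j)) (by omega)))) (fun t h1 h2 => (cE (cE (qf a2 al (-1) t (t + (n + k - j)) (by omega)) (pb (show Par W (2 * i + l + m - k + 3) (i + l + 1) (k + k3 - 2 * i - l - m - 2) from fun t h1 h2 => (cE (sh al (-1) t (t + (-n)) (by omega)) (cE (qf b al (-1) (t + (-n)) (t + (k - i)) (by omega)) (qf D2 al 0 (t + (k - i)) (t + (k + k3 - 2 * i - l - m - 2)) (by omega))))) al 0 (t + (n + k - j)) (t + (n + 2 * i + l + m - j - k3 + 2)) (by omega))) (sh al (-1) (t + (n + 2 * i + l + m - j - k3 + 2)) (t + (2 * i + l + m - j - k3 + 2)) (by omega)))) (fun hh => n3.f1 (rEE (cE (pb b al 0 (i + l + m + 2) (2 * i + l + m - k + 2) (by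 omega)) (sh al (-1) (2 * i + l + m - k + 2) (2 * i + l + m - n - k + 2) (by omega))) (sh al (-1) (k3) (k3 - n) (by omega)) (Eq.symm (Eq.symm hh)))) (by omega) (i + l - n + 2) (i + k + l + i2 - n - Q - j + 2) (i + k + l + i2 - 2 * n - j + 1) 1 0 (fun t h1 h2 => (cE (cE (ab tt al (-1) t ((i + l + i2 - n + 1) - t) (by omega)) (qf a2 al 0 ((i + l + i2 - n + 1) - t) ((i + k + l + i2 - n - j + 1) - t) (by omega))) (sh al (-1) ((i + k + l + i2 - n - j + 1) - t) ((i + k + l + i2 - 2 * n - j + 1) - t) (by omega)))) (by omega)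
              · have kk246 : (k3) ≤ (i + l + m + 1) := by clear * - y20; omega
                have kk247 : (i + l + 2) ≤ (m + k3) := by clear * - b0 b1 y19 z12 z15 z18 z19; omega
                have kk248 : (k3) ≤ (i + l + m) := by clear * - b0 b1 b7 y19 z12 z14 z15 z18 z19; omega
                have kk249 : (i + l + 2 * i2 + 2) ≤ (m + k3) := by clear * - b0 b1 y19 z12 z15 z19 z20; omega
                have kk250 : (m + k3 + 1) ≤ (n + i2) := by clear * - y21; omega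
                have kk251 : (i + l + m + 2) ≤ (n) := by clear * - b4 b5 b6 y21 z14 z15 z18 z19 z20; omega
                have r252 : (i + l + i2 - n + 1) % 2 = 0 := by clear * - ev n1p n2p n3p q1; omega
                have r253 : (i + l + m - k3 + 2) % 2 = 0 := by clear * - ev n1p n2p n3p q1; omega
                clear * - al tt D2 kk246 kk247 kk248 kk249 kk250 kk251 r252 r253
                exact midP al (i + l + m - k3 + 2) (i + l + i2 - n + 1) (i2 - m) (k3 - n + 1) (0) (by omega) (fun t h1 h2 => (cE (qa tt al 0 t ((i + l + i2 + 1) - t) (by omega)) (sh al (-1) ((i + l + i2 + 1) - t) ((i + l + i2 - n + 1) - t) (by omega)))) (fun t h1 h2 => (cE (pb D2 al (-1) t (t + (n + i + l + m - k3 + 2)) (by omega)) (sh al (-1) (t + (n + i + l + m - k3 + 2)) (t + (i + l + m - k3 + 2)) (by omega))))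
  · have kk254 : (i + l + m + 3) ≤ (n + k3) := by clear * - b0 b1 b3 b5 b7 y13 y17 y19; omega
    have kk255 : (k3) ≤ (i + l + m + 1) := by clear * - y20; omega
    have kk256 : (2 * i + l + m + 2) ≤ (k) := by clear * - y1 y10 z11; omega
    clear * - al D2 mx hL kk254 kk255 kk256
    exact absurd (mx (i + l + m - n + 3) (0) (n + k3 - i - l - m - 2) (by omega) (by omega) fun t h1 h2 => (qf D2 al (-1) t (t + (n + k3 - i - l - m - 2)) (by omega))) (by omega)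

theorem h9_8p
    (h9_9 : ∀ {W : ℤ → G} {n Q i j k l i2 m k3 : ℤ} (al : AL W n Q) (hy : (0) ≤ (i) ∧ (i) ≤ (j) ∧ (j + 1) ≤ (Q) ∧ (Q) ≤ (k) ∧ (k + 1) ≤ (n) ∧ (Q) ≤ (i + l + 1) ∧ (k + l + 2) ≤ (n) ∧ (0) ≤ (i2) ∧ (i2 + 1) ≤ (Q) ∧ (Q + m + 1) ≤ (n + i2) ∧ (i2) ≤ (m) ∧ (Q) ≤ (i + l + m + 2) ∧ (i + l + m + 3) ≤ (n) ∧ (Q) ≤ (k3) ∧ (k3 + 1) ≤ (n) ∧ (i + m + 2) ≤ (k) ∧ (i) ≤ (i2) ∧ (i2) ≤ (i) ∧ (i + m + 1) ≤ (k3) ∧ (k3) ≤ (i + m + 1) ∧ (k3) ≤ (i + l + m + 1) ∧ (m + k3 + 2) ≤ (n + i2)) (a1 : Par W (0) (j) (k - j)) (a2 : Par W (Q + j - k) (j) (k - j)) (s1 : Ant W (0) (i) (i + j)) (s2 : Ant W (j + 1) (Q) (i + j)) (b : Par W (i + 1) (i + l + 1) (k - i)) (c1 : Par W (i2 + 1) (Q) (k + l - i2 + 1)) (c2 : Par W (k + l + 2) (n) (i2 - k - l - 1)) (tt : Ant W (i2 - m) (i2) (i + l + i2 + 1)) (D1 : Par W (Q) (k3) (n + i2 - m - k3 - 1)) (D2 : Par W (i + l + m + 3) (n) (k3 - i - l - m - 2)) {L : ℤ} (mx : ∀ a b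 g, 0 < g → g < n → Par W a b g → b - a ≤ L) (hL : L ≤ (n - j - 3) ∧ L ≤ (n + Q - k - 3) ∧ L ≤ (n - l - 3) ∧ L ≤ (n + i - k - 2)) (bd0 : Bd W n L (j) (i) (k)) (n1 : Nd W (j) (i) (k)) (n2 : Nd W (i + l + 1) (i2) (k + l + 1)) (n3 : Nd W (n + i2 - m - 1) (i + l + m + 2) (k3)) (d1 : ℤ) (q1 : d1 % 2 = 0) (x1 : Par W (i + 1) (k + l - d1 + 1) d1) (b0 : (0) ≤ (d1)) (b1 : (n + i + d1) ≤ (k + 2 * l + 2)) (b2 : (d1) ≤ (0)) (b3 : (2 * k + 2) ≤ (n + Q + i)) (b4 : (2 * Q + k + l) ≤ (n + 2 * j + i2)) (b5 : (2 * i + l + m + 3) ≤ (k + k3)) (b6 : (i + l + 2 * m + 3) ≤ (n + i2)) (b7 : (2 * i + j + 1) ≤ (k)) (b8 : (n + i2 + k3) ≤ (2 * i + 2 * l + 3 * m + 4)), False)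
    (h9_10 : ∀ {W : ℤ → G} {n Q i j k l i2 m k3 : ℤ} (al : AL W n Q) (hy : (0) ≤ (i) ∧ (i) ≤ (j) ∧ (j + 1) ≤ (Q) ∧ (Q) ≤ (k) ∧ (k + 1) ≤ (n) ∧ (Q) ≤ (i + l + 1) ∧ (k + l + 2) ≤ (n) ∧ (0) ≤ (i2) ∧ (i2 + 1) ≤ (Q) ∧ (Q + m + 1) ≤ (n + i2) ∧ (i2) ≤ (m) ∧ (Q) ≤ (i + l + m + 2) ∧ (i + l + m + 3) ≤ (n) ∧ (Q) ≤ (k3) ∧ (k3 + 1) ≤ (n) ∧ (i + m + 2) ≤ (k) ∧ (i) ≤ (i2) ∧ (i2) ≤ (i) ∧ (i + m + 1) ≤ (k3) ∧ (k3) ≤ (i + m + 1) ∧ (k3) ≤ (i + l + m + 1) ∧ (m + k3 + 2) ≤ (n + i2)) (a1 : Par W (0) (j) (k - j)) (a2 : Par W (Q + j - k) (j) (k - j)) (s1 : Ant W (0) (i) (i + j)) (s2 : Ant W (j + 1) (Q) (i + j)) (b : Par W (i + 1) (i + l + 1) (k - i)) (c1 : Par W (i2 + 1) (Q) (k + l - i2 + 1)) (c2 : Par W (k + l + 2) (n) (i2 - k - l - 1)) (tt : Ant W (i2 - m) (i2) (i + l + i2 + 1)) (D1 : Par W (Q) (k3) (n + i2 - m - k3 - 1)) (D2 : Par W (i + l + m + 3) (n) (k3 - i - l - m - 2)) {L : ℤ} (mx : ∀ a b g, 0 < g → g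 < n → Par W a b g → b - a ≤ L) (hL : L ≤ (n - j - 3) ∧ L ≤ (n + Q - k - 3) ∧ L ≤ (n - l - 3) ∧ L ≤ (n + i - k - 2)) (bd0 : Bd W n L (j) (i) (k)) (n1 : Nd W (j) (i) (k)) (n2 : Nd W (i + l + 1) (i2) (k + l + 1)) (n3 : Nd W (n + i2 - m - 1) (i + l + m + 2) (k3)) (d1 : ℤ) (q1 : d1 % 2 = 0) (x1 : Par W (i + 1) (k + l - d1 + 1) d1) (b0 : (0) ≤ (d1)) (b1 : (n + i + d1) ≤ (k + 2 * l + 2)) (b2 : (d1) ≤ (0)) (b3 : (2 * k + 2) ≤ (n + Q + i)) (b4 : (2 * Q + k + l) ≤ (n + 2 * j + i2)) (b5 : (2 * i + l + m + 3) ≤ (k + k3)) (b6 : (2 * i + j + 1) ≤ (k)) (b7 : (2 * i + 2 * l + 3 * m + 5) ≤ (n + i2 + k3)), False)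
    {W : ℤ → G} {n Q i j k l i2 m k3 : ℤ} (al : AL W n Q)
    (hy : (0) ≤ (i) ∧ (i) ≤ (j) ∧ (j + 1) ≤ (Q) ∧ (Q) ≤ (k) ∧ (k + 1) ≤ (n) ∧ (Q) ≤ (i + l + 1) ∧ (k + l + 2) ≤ (n) ∧ (0) ≤ (i2) ∧ (i2 + 1) ≤ (Q) ∧ (Q + m + 1) ≤ (n + i2) ∧ (i2) ≤ (m) ∧ (Q) ≤ (i + l + m + 2) ∧ (i + l + m + 3) ≤ (n) ∧ (Q) ≤ (k3) ∧ (k3 + 1) ≤ (n) ∧ (i + m + 2) ≤ (k) ∧ (i) ≤ (i2) ∧ (i2) ≤ (i) ∧ (i + m + 1) ≤ (k3) ∧ (k3) ≤ (i + m + 1) ∧ (k3) ≤ (i + l + m + 1) ∧ (m + k3 + 2) ≤ (n + i2))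
    (a1 : Par W (0) (j) (k - j))
    (a2 : Par W (Q + j - k) (j) (k - j))
    (s1 : Ant W (0) (i) (i + j))
    (s2 : Ant W (j + 1) (Q) (i + j))
    (b : Par W (i + 1) (i + l + 1) (k - i))
    (c1 : Par W (i2 + 1) (Q) (k + l - i2 + 1))
    (c2 : Par W (k + l + 2) (n) (i2 - k - l - 1))
    (tt : Ant W (i2 - m) (i2) (i + l + i2 + 1))
    (D1 : Par W (Q) (k3) (n + i2 - m - k3 - 1))
    (D2 : Par W (i + l + m + 3) (n) (k3 - i - l - m - 2))
    {L : ℤ} (mx : ∀ a b g, 0 < g → g < n → Par W a b g → b - a ≤ L)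
    (hL : L ≤ (n - j - 3) ∧ L ≤ (n + Q - k - 3) ∧ L ≤ (n - l - 3) ∧ L ≤ (n + i - k - 2))
    (bd0 : Bd W n L (j) (i) (k))
    (n1 : Nd W (j) (i) (k))
    (n2 : Nd W (i + l + 1) (i2) (k + l + 1))
    (n3 : Nd W (n + i2 - m - 1) (i + l + m + 2) (k3))
    (d1 : ℤ) (q1 : d1 % 2 = 0) (x1 : Par W (i + 1) (k + l - d1 + 1) d1)
    (b0 : (0) ≤ (d1))
    (b1 : (n + i + d1) ≤ (k + 2 * l + 2))
    (b2 : (d1) ≤ (0))
    (b3 : (2 * k + 2) ≤ (n + Q + i))
    (b4 : (2 * Q + k + l) ≤ (n + 2 * j + i2))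
    (b5 : (2 * i + l + m + 3) ≤ (k + k3))
    (b6 : (i + l + 2 * m + 3) ≤ (n + i2))
    (b7 : (2 * i + j + 1) ≤ (k)) : False := by
  have ev := al.ev
  obtain ⟨y0, y1, y2, y3, y4, y5, y6, y7, y8, y9, y10, y11, y12, y13, y14, y15, y16, y17, y18, y19, y20, y21⟩ := id hy
  have n1p := And.intro n1.p1 n1.p2
  have n2p := And.intro n2.p1 n2.p2
  have n3p := And.intro n3.p1 n3.p2
  by_cases z8 : (n + i2 + k3) ≤ (2 * i + 2 * l + 3 * m + 4)
  · exact h9_9 al hy a1 a2 s1 s2 b c1 c2 tt D1 D2 mx hL bd0 n1 n2 n3 d1 q1 x1 (by clear * - b0; omega) (by clear * - b1; omega) (by clear * - b2; omega) (by clear * - b3; omega) (by clear * - b4; omega) (by clear * - b5; omega) (by clear * - b6; omega) (by clear * - b7; omega) (by clear * - z8; omega)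
  · exact h9_10 al hy a1 a2 s1 s2 b c1 c2 tt D1 D2 mx hL bd0 n1 n2 n3 d1 q1 x1 (by clear * - b0; omega) (by clear * - b1; omega) (by clear * - b2; omega) (by clear * - b3; omega) (by clear * - b4; omega) (by clear * - b5; omega) (by clear * - b7; omega) (by clear * - z8; omega)

theorem h9_25p
    (h9_26 : ∀ {W : ℤ → G} {n Q i j k l i2 m k3 : ℤ} (al : AL W n Q) (hy : (0) ≤ (i) ∧ (i) ≤ (j) ∧ (j + 1) ≤ (Q) ∧ (Q) ≤ (k) ∧ (k + 1) ≤ (n) ∧ (Q) ≤ (i + l + 1) ∧ (k + l + 2) ≤ (n) ∧ (0) ≤ (i2) ∧ (i2 + 1) ≤ (Q) ∧ (Q + m + 1) ≤ (n + i2) ∧ (i2) ≤ (m) ∧ (Q) ≤ (i + l + m + 2) ∧ (i + l + m + 3) ≤ (n) ∧ (Q) ≤ (k3) ∧ (k3 + 1) ≤ (n) ∧ (i + m + 2) ≤ (k) ∧ (i) ≤ (i2) ∧ (i2) ≤ (i) ∧ (i + m + 1) ≤ (k3) ∧ (k3) ≤ (i + m + 1) ∧ (k3) ≤ (i + l + m + 1) ∧ (m + k3 + 2) ≤ (n + i2)) (a1 : Par W (0) (j) (k - j)) (a2 : Par W (Q + j - k) (j) (k - j)) (s1 : Ant W (0) (i) (i + j)) (s2 : Ant W (j + 1) (Q) (i + j)) (b : Par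 W (i + 1) (i + l + 1) (k - i)) (c1 : Par W (i2 + 1) (Q) (k + l - i2 + 1)) (c2 : Par W (k + l + 2) (n) (i2 - k - l - 1)) (tt : Ant W (i2 - m) (i2) (i + l + i2 + 1)) (D1 : Par W (Q) (k3) (n + i2 - m - k3 - 1)) (D2 : Par W (i + l + m + 3) (n) (k3 - i - l - m - 2)) {L : ℤ} (mx : ∀ a b g, 0 < g → g < n → Par W a b g → b - a ≤ L) (hL : L ≤ (n - j - 3) ∧ L ≤ (n + Q - k - 3) ∧ L ≤ (n - l - 3) ∧ L ≤ (n + i - k - 2)) (bd0 : Bd W n L (j) (i) (k)) (n1 : Nd W (j) (i) (k)) (n2 : Nd W (i + l + 1) (i2) (k + l + 1)) (n3 : Nd W (n + i2 - m - 1) (i + l + m + 2) (k3)) (d1 : ℤ) (q1 : d1 % 2 = 0) (x1 : Par W (i + 1) (k + l - d1 + 1) d1) (b0 : (i + l + 1) ≤ (k + d1)) (b1 : (2 * i + j + 1) ≤ (k)) (b2 : (n + k3) ≤ (2 * i + 2 * l + i2 + m + 4)) (b3 : (i + k) ≤ (2 * j + 1)) (b4 : (2 * k + l + 2) ≤ (n + i2)) (b5 : (3 * i + 2 * l + 3 * m + 5) ≤ (n + k + i2 + k3)) (b6 : (3 * i + 3 * l + 3 * m + d1 + 5) ≤ (2 * n + 2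 * i2 + k3)), False)
    {W : ℤ → G} {n Q i j k l i2 m k3 : ℤ} (al : AL W n Q)
    (hy : (0) ≤ (i) ∧ (i) ≤ (j) ∧ (j + 1) ≤ (Q) ∧ (Q) ≤ (k) ∧ (k + 1) ≤ (n) ∧ (Q) ≤ (i + l + 1) ∧ (k + l + 2) ≤ (n) ∧ (0) ≤ (i2) ∧ (i2 + 1) ≤ (Q) ∧ (Q + m + 1) ≤ (n + i2) ∧ (i2) ≤ (m) ∧ (Q) ≤ (i + l + m + 2) ∧ (i + l + m + 3) ≤ (n) ∧ (Q) ≤ (k3) ∧ (k3 + 1) ≤ (n) ∧ (i + m + 2) ≤ (k) ∧ (i) ≤ (i2) ∧ (i2) ≤ (i) ∧ (i + m + 1) ≤ (k3) ∧ (k3) ≤ (i + m + 1) ∧ (k3) ≤ (i + l + m + 1) ∧ (m + k3 + 2) ≤ (n + i2))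
    (a1 : Par W (0) (j) (k - j))
    (a2 : Par W (Q + j - k) (j) (k - j))
    (s1 : Ant W (0) (i) (i + j))
    (s2 : Ant W (j + 1) (Q) (i + j))
    (b : Par W (i + 1) (i + l + 1) (k - i))
    (c1 : Par W (i2 + 1) (Q) (k + l - i2 + 1))
    (c2 : Par W (k + l + 2) (n) (i2 - k - l - 1))
    (tt : Ant W (i2 - m) (i2) (i + l + i2 + 1))
    (D1 : Par W (Q) (k3) (n + i2 - m - k3 - 1))
    (D2 : Par W (i + l + m + 3) (n) (k3 - i - l - m - 2))
    {L : ℤ} (mx : ∀ a b g, 0 < g → g < n → Par W a b g → b - a ≤ L)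
    (hL : L ≤ (n - j - 3) ∧ L ≤ (n + Q - k - 3) ∧ L ≤ (n - l - 3) ∧ L ≤ (n + i - k - 2))
    (bd0 : Bd W n L (j) (i) (k))
    (n1 : Nd W (j) (i) (k))
    (n2 : Nd W (i + l + 1) (i2) (k + l + 1))
    (n3 : Nd W (n + i2 - m - 1) (i + l + m + 2) (k3))
    (d1 : ℤ) (q1 : d1 % 2 = 0) (x1 : Par W (i + 1) (k + l - d1 + 1) d1)
    (b0 : (i + l + 1) ≤ (k + d1))
    (b1 : (d1) ≤ (l))
    (b2 : (2 * i + j + 1) ≤ (k))
    (b3 : (n + k3) ≤ (2 * i + 2 * l + i2 + m + 4))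
    (b4 : (i + k) ≤ (2 * j + 1))
    (b5 : (2 * k + l + 2) ≤ (n + i2))
    (b6 : (3 * i + 2 * l + 3 * m + 5) ≤ (n + k + i2 + k3)) : False := by
  have ev := al.ev
  obtain ⟨y0, y1, y2, y3, y4, y5, y6, y7, y8, y9, y10, y11, y12, y13, y14, y15, y16, y17, y18, y19, y20, y21⟩ := id hy
  have n1p := And.intro n1.p1 n1.p2
  have n2p := And.intro n2.p1 n2.p2
  have n3p := And.intro n3.p1 n3.p2
  by_cases z35 : (2 * n + 2 * i2 + k3) ≤ (3 * i + 3 * l + 3 * m + d1 + 4)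
  · by_cases z36 : (i + l + 2 * i2 + 2) ≤ (m + k3 + d1)
    · by_cases v11 : (n + k3) ≤ (2 * i + 2 * l + m + 3)
      · by_cases v12 : (i + l + i2 + 1) ≤ (k3 + d1)
        · have kk347 : (k3 + d1) ≤ (i + l + m + 1) := by clear * - b1 y19; omega
          have kk348 : (k3 + d1) ≤ (i + l + m) := by clear * - b1 y19 ev n1p n2p n3p q1; omega
          have kk349 : (3 * i + l + 3 * m + k3 + 3 * d1 + 6) ≤ (2 * n + 2 * k + 2 * i2) := by clear * - b1 b6 y19; omega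
          have kk350 : (3 * k3 + 3 * d1) ≤ (i + 2 * k + 3 * l + m + 2) := by clear * - b1 b6 v11 v12 y19; omega
          have kk351 : (i) ≤ (k3) := by clear * - y13 y16 y8; omega
          have kk352 : (i + k + 2 * l + m + 3) ≤ (n + k3 + d1) := by clear * - b3 b5 b6 y17 z36; omega
          have kk353 : (0) ≤ (i2) := by clear * - y7; omega
          have kk354 : (n + k3) ≤ (2 * i + 2 * l + m + 3) := by clear * - v11; omega
          have kk355 : (i + l + 2 * m + 3) ≤ (n + i2) := by clear * - b0 b1 b5 b6 v11 y17; omega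
          have kk356 : (2 * i + l + 2 * m + 3) ≤ (n + i2 + k3) := by clear * - b0 b1 b3 b5 b6 v12 y17; omega
          have kk357 : (i + l + i2 + 1) ≤ (k3 + d1) := by clear * - v12; omega
          have kk358 : (n + i2 + k3) ≤ (2 * i + 2 * l + 2 * m + 4) := by clear * - b1 v11 v12 y19; omega
          have r359 : (n + k + i2 + k3 - i - m - 1) % 2 = 0 := by clear * - ev n1p n2p n3p q1; omega
          have r360 : (i + l + m - k3 - d1 + 2) % 2 = 0 := by clear * - ev n1p n2p n3p q1; omega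
          clear * - al b tt D2 x1 kk347 kk348 kk349 kk350 kk351 kk352 kk353 kk354 kk355 kk356 kk357 kk358 r359 r360
          exact midP al (i + l + m - k3 - d1 + 2) (n + k + i2 + k3 - i - m - 1) (k3 + d1 + 1) (k3 + d1 + 1) (i + k + 2 * l + m - k3 - d1 + 3) (by omega) (fun t h1 h2 => (cE (cE (ab tt al 0 t ((i + l + i2 + 1) - t) (by omega)) (qf D2 al (-1) ((i + l + i2 + 1) - t) ((n + i2 + k3 - m - 1) - t) (by omega))) (qf b al 0 ((n + i2 + k3 - m - 1) - t) ((n + k + i2 + k3 - i - m - 1) - t) (by omega)))) (fun t h1 h2 => (qf (show Par W (k3 + d1 + 1) (k + l + 1) (i + l + m - k3 - d1 + 2) from fun t h1 h2 => (cE (sh al (-1) t (t + (-n)) (by omega)) (cE (pb x1 al (-1) (t + (-n)) (t + (-d1)) (by omega)) (pb D2 al 0 (t + (-d1)) (t + (i + l + m - k3 - d1 + 2)) (by omega))))) al 0 t (t + (i + l + m - k3 - d1 + 2)) (by omega)))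
        · have kk361 : (k3 + d1) ≤ (i + l + m + 1) := by clear * - v12 z36; omega
          have kk362 : (i + l + 2 * i2 + 2) ≤ (m + k3 + d1) := by clear * - z36; omega
          have kk363 : (5 * i + 3 * l + 3 * m + d1 + 8) ≤ (2 * n + 2 * k + k3) := by clear * - b6 v12 z36; omega
          have kk364 : (i + 2 * i2 + k3 + d1) ≤ (2 * k + l + m) := by clear * - b6 v11 v12 z36; omega
          have kk365 : (i) ≤ (k3) := by clear * - y13 y16 y8; omega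
          have kk366 : (i + k + 2 * l + m + 3) ≤ (n + k3 + d1) := by clear * - b3 b5 b6 y17 z36; omega
          have kk367 : (0) ≤ (i2) := by clear * - y7; omega
          have kk368 : (n + k3) ≤ (2 * i + 2 * l + m + 3) := by clear * - v11; omega
          have kk369 : (i + l + 2 * m + 3) ≤ (n + i2) := by clear * - b3 b5 b6 v11 v12 y17 z36; omega
          have kk370 : (2 * i + l + 2 * m + 3) ≤ (n + i2 + k3) := by clear * - b1 b3 b5 b6 v12 y17 z36; omega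
          have kk371 : (k3 + d1) ≤ (i + l + i2 + 1) := by clear * - v12; omega
          have kk372 : (n + 2 * k3 + d1) ≤ (3 * i + 3 * l + 2 * m + 5) := by clear * - v11 v12 z36; omega
          have r373 : (n + k + i2 + k3 - i - m - 1) % 2 = 0 := by clear * - ev n1p n2p n3p q1; omega
          have r374 : (i + l + m - k3 - d1 + 2) % 2 = 0 := by clear * - ev n1p n2p n3p q1; omega
          clear * - al b tt D2 x1 kk361 kk362 kk363 kk364 kk365 kk366 kk367 kk368 kk369 kk370 kk371 kk372 r373 r374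
          exact midP al (i + l + m - k3 - d1 + 2) (n + k + i2 + k3 - i - m - 1) (i + l + i2 + 2) (k3 + d1 + 1) (i + k + 2 * l + m - k3 - d1 + 3) (by omega) (fun t h1 h2 => (cE (cE (ab tt al 0 t ((i + l + i2 + 1) - t) (by omega)) (qf D2 al (-1) ((i + l + i2 + 1) - t) ((n + i2 + k3 - m - 1) - t) (by omega))) (qf b al 0 ((n + i2 + k3 - m - 1) - t) ((n + k + i2 + k3 - i - m - 1) - t) (by omega)))) (fun t h1 h2 => (qf (show Par W (k3 + d1 + 1) (k + l + 1) (i + l + m - k3 - d1 + 2) from fun t h1 h2 => (cE (sh al (-1) t (t + (-n)) (by omega)) (cE (pb x1 al (-1) (t + (-n)) (t + (-d1)) (by omega)) (pb D2 al 0 (t + (-d1)) (t + (i + l + m - k3 - d1 + 2)) (by omega))))) al 0 t (t + (i + l + m - k3 - d1 + 2)) (by omega)))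
      · by_cases v13 : (n + i2) ≤ (i + l + m + d1 + 2)
        · have kk375 : (k3 + d1) ≤ (i + l + m + 1) := by clear * - b1 y19; omega
          have kk376 : (k3 + d1) ≤ (i + l + m) := by clear * - b1 y19 ev n1p n2p n3p q1; omega
          have kk377 : (3 * i + l + 3 * m + k3 + 3 * d1 + 6) ≤ (2 * n + 2 * k + 2 * i2) := by clear * - b1 b6 y19; omega
          have kk378 : (3 * k3 + 3 * d1) ≤ (i + 2 * k + 3 * l + m + 2) := by clear * - b1 b6 v13 y19; omega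
          have kk379 : (i) ≤ (k3) := by clear * - b1 b3 v11 v13; omega
          have kk380 : (i + k + 2 * l + m + 3) ≤ (n + k3 + d1) := by clear * - b3 b5 b6 y17 z36; omega
          have kk381 : (0) ≤ (i2) := by clear * - b3 v11; omega
          have kk382 : (2 * i + 2 * l + m + 3) ≤ (n + k3) := by clear * - v11; omega
          have kk383 : (i + l + 2 * m + 3) ≤ (n + i2) := by clear * - b2 b3 b4 b5 b6 v11 y17; omega
          have kk384 : (2 * i + l + 2 * m + 3) ≤ (n + i2 + k3) := by clear * - b3 v11 y18 y21; omega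
          have kk385 : (n + i2 + k3) ≤ (2 * i + 2 * l + 2 * m + 4) := by clear * - b1 v13 y19; omega
          have kk386 : (n + i2) ≤ (i + l + m + d1 + 2) := by clear * - v13; omega
          have r387 : (n + k + i2 + k3 - i - m - 1) % 2 = 0 := by clear * - ev n1p n2p n3p q1; omega
          have r388 : (i + l + m - k3 - d1 + 2) % 2 = 0 := by clear * - ev n1p n2p n3p q1; omega
          clear * - al b tt D2 x1 kk375 kk376 kk377 kk378 kk379 kk380 kk381 kk382 kk383 kk384 kk385 kk386 r387 r388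
          exact midP al (i + l + m - k3 - d1 + 2) (n + k + i2 + k3 - i - m - 1) (k3 + d1 + 1) (k3 + d1 + 1) (i + k + 2 * l + m - k3 - d1 + 3) (by omega) (fun t h1 h2 => (cE (cE (ab tt al 0 t ((i + l + i2 + 1) - t) (by omega)) (qf D2 al (-1) ((i + l + i2 + 1) - t) ((n + i2 + k3 - m - 1) - t) (by omega))) (qf b al 0 ((n + i2 + k3 - m - 1) - t) ((n + k + i2 + k3 - i - m - 1) - t) (by omega)))) (fun t h1 h2 => (qf (show Par W (k3 + d1 + 1) (k + l + 1) (i + l + m - k3 - d1 + 2) from fun t h1 h2 => (cE (sh al (-1) t (t + (-n)) (by omega)) (cE (pb x1 al (-1) (t + (-n)) (t + (-d1)) (by omega)) (pb D2 al 0 (t + (-d1)) (t + (i + l + m - k3 - d1 + 2)) (by omega))))) al 0 t (t + (i + l + m - k3 - d1 + 2)) (by omega)))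
        · have kk389 : (k3 + d1) ≤ (i + l + m + 1) := by clear * - v13 z35; omega
          have kk390 : (2 * n + 2 * i2 + k3) ≤ (3 * i + 3 * l + 3 * m + d1 + 4) := by clear * - z35; omega
          have kk391 : (i + m + k3 + d1 + 2) ≤ (2 * k + l) := by clear * - b6 v13 z35; omega
          have kk392 : (2 * n + 2 * i2 + 3 * k3 + d1) ≤ (3 * i + 2 * k + 5 * l + 3 * m + 6) := by clear * - b6 v13 z35; omega
          have kk393 : (i) ≤ (k3) := by clear * - b3 v13 y18 z36; omega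
          have kk394 : (i + k + 2 * l + m + 3) ≤ (n + k3 + d1) := by clear * - b3 b5 b6 y17 z36; omega
          have kk395 : (0) ≤ (i2) := by clear * - b3 v11; omega
          have kk396 : (2 * i + 2 * l + m + 3) ≤ (n + k3) := by clear * - v11; omega
          have kk397 : (i + l + 2 * m + 3) ≤ (n + i2) := by clear * - b3 b5 b6 v11 v13 y17 z35; omega
          have kk398 : (2 * i + l + 2 * m + 3) ≤ (n + i2 + k3) := by clear * - b3 v11 y18 y21; omega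
          have kk399 : (i + l + m + d1 + 2) ≤ (n + i2) := by clear * - v13; omega
          have kk400 : (k3 + d1) ≤ (i + l + m + 2) := by clear * - v13 z35; omega
          have r401 : (n + k + i2 + k3 - i - m - 1) % 2 = 0 := by clear * - ev n1p n2p n3p q1; omega
          have r402 : (i + l + m - k3 - d1 + 2) % 2 = 0 := by clear * - ev n1p n2p n3p q1; omega
          clear * - al b tt D2 x1 kk389 kk390 kk391 kk392 kk393 kk394 kk395 kk396 kk397 kk398 kk399 kk400 r401 r402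
          exact midP al (i + l + m - k3 - d1 + 2) (n + k + i2 + k3 - i - m - 1) (n + i2 + k3 - i - l - m - 1) (k3 + d1 + 1) (i + k + 2 * l + m - k3 - d1 + 3) (by omega) (fun t h1 h2 => (cE (cE (ab tt al 0 t ((i + l + i2 + 1) - t) (by omega)) (qf D2 al (-1) ((i + l + i2 + 1) - t) ((n + i2 + k3 - m - 1) - t) (by omega))) (qf b al 0 ((n + i2 + k3 - m - 1) - t) ((n + k + i2 + k3 - i - m - 1) - t) (by omega)))) (fun t h1 h2 => (qf (show Par W (k3 + d1 + 1) (k + l + 1) (i + l + m - k3 - d1 + 2) from fun t h1 h2 => (cE (sh al (-1) t (t + (-n)) (by omega)) (cE (pb x1 al (-1) (t + (-n)) (t + (-d1)) (by omega)) (pb D2 al 0 (t + (-d1)) (t + (i + l + m - k3 - d1 + 2)) (by omega))))) al 0 t (t + (i + l + m - k3 - d1 + 2)) (by omega)))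
    · have kk403 : (i + k + l + m + d1 + 3) ≤ (n + j + k3) := by clear * - b2 b4 b6 y13 y17 y19 y2 z36; omega
      have kk404 : (j + k3) ≤ (i + k + l + m + d1 + 1) := by clear * - b0 b1 b2 b3 b5 y17 y18; omega
      have kk405 : (j + k3 + 1) ≤ (k + d1) := by clear * - b0 b1 b2 b3 b5 b6 y17 z35 z36; omega
      have kk406 : (i + j + 1) ≤ (k) := by clear * - b2 y17 y7; omega
      have kk407 : (n + k3) ≤ (i + k + l + m + d1 + 2) := by clear * - b0 z35 z36; omega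
      have kk408 : (n + k3) ≤ (i + k + 2 * l + m + 3) := by clear * - b0 b1 z35 z36; omega
      clear * - al a1 D2 x1 kk403 kk404 kk405 kk406 kk407 kk408
      exact al.ubP (n + j + k3 - i - k - l - m - d1 - 2) (by omega) (by omega) fun t h1 h2 => (cE (cE (qf D2 al (-1) t (t + (n + k3 - i - l - m - 2)) (by omega)) (pb x1 al 0 (t + (n + k3 - i - l - m - 2)) (t + (n + k3 - i - l - m - d1 - 2)) (by omega))) (pb a1 al 0 (t + (n + k3 - i - l - m - d1 - 2)) (t + (n + j + k3 - i - k - l - m - d1 - 2)) (by omega)))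
  · exact h9_26 al hy a1 a2 s1 s2 b c1 c2 tt D1 D2 mx hL bd0 n1 n2 n3 d1 q1 x1 (by clear * - b0; omega) (by clear * - b2; omega) (by clear * - b3; omega) (by clear * - b4; omega) (by clear * - b5; omega) (by clear * - b6; omega) (by clear * - z35; omega)

theorem h9_22p
    (h9_23 : ∀ {W : ℤ → G} {n Q i j k l i2 m k3 : ℤ} (al : AL W n Q) (hy : (0) ≤ (i) ∧ (i) ≤ (j) ∧ (j + 1) ≤ (Q) ∧ (Q) ≤ (k) ∧ (k + 1) ≤ (n) ∧ (Q) ≤ (i + l + 1) ∧ (k + l + 2) ≤ (n) ∧ (0) ≤ (i2) ∧ (i2 + 1) ≤ (Q) ∧ (Q + m + 1) ≤ (n + i2) ∧ (i2) ≤ (m) ∧ (Q) ≤ (i + l + m + 2) ∧ (i + l + m + 3) ≤ (n) ∧ (Q) ≤ (k3) ∧ (k3 + 1) ≤ (n) ∧ (i + m + 2) ≤ (k) ∧ (i) ≤ (i2) ∧ (i2) ≤ (i) ∧ (i + m + 1) ≤ (k3) ∧ (k3) ≤ (i + m + 1) ∧ (k3) ≤ (i + l + m + 1) ∧ (m + k3 + 2) ≤ (n + i2)) (a1 : Par W (0) (j) (k - j)) (a2 : Par W (Q + j - k) (j) (k - j)) (s1 : Ant W (0) (i) (i + j)) (s2 : Ant W (j + 1) (Q) (i + j)) (b : Par W (i + 1) (i + l + 1) (k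 - i)) (c1 : Par W (i2 + 1) (Q) (k + l - i2 + 1)) (c2 : Par W (k + l + 2) (n) (i2 - k - l - 1)) (tt : Ant W (i2 - m) (i2) (i + l + i2 + 1)) (D1 : Par W (Q) (k3) (n + i2 - m - k3 - 1)) (D2 : Par W (i + l + m + 3) (n) (k3 - i - l - m - 2)) {L : ℤ} (mx : ∀ a b g, 0 < g → g < n → Par W a b g → b - a ≤ L) (hL : L ≤ (n - j - 3) ∧ L ≤ (n + Q - k - 3) ∧ L ≤ (n - l - 3) ∧ L ≤ (n + i - k - 2)) (bd0 : Bd W n L (j) (i) (k)) (n1 : Nd W (j) (i) (k)) (n2 : Nd W (i + l + 1) (i2) (k + l + 1)) (n3 : Nd W (n + i2 - m - 1) (i + l + m + 2) (k3)) (d1 : ℤ) (q1 : d1 % 2 = 0) (x1 : Par W (i + 1) (k + l - d1 + 1) d1) (b0 : (i + l + 1) ≤ (k + d1)) (b1 : (d1) ≤ (l)) (b2 : (k + 2 * l + 3) ≤ (n + i + d1)) (b3 : (2 * i + j + 1) ≤ (k)) (b4 : (2 * l + 3) ≤ (n)) (b5 : (i + l + 2 * m + 2) ≤ (n + i2)) (b6 : (n + k3) ≤ (2 * i + 2 * l + i2 + m + 4)) (b7 : (i + k) ≤ (2 * j + 1)) (b8 : (2 * Q + 2 * k) ≤ (n + 2 * i + 2 * i2)),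 False)
    {W : ℤ → G} {n Q i j k l i2 m k3 : ℤ} (al : AL W n Q)
    (hy : (0) ≤ (i) ∧ (i) ≤ (j) ∧ (j + 1) ≤ (Q) ∧ (Q) ≤ (k) ∧ (k + 1) ≤ (n) ∧ (Q) ≤ (i + l + 1) ∧ (k + l + 2) ≤ (n) ∧ (0) ≤ (i2) ∧ (i2 + 1) ≤ (Q) ∧ (Q + m + 1) ≤ (n + i2) ∧ (i2) ≤ (m) ∧ (Q) ≤ (i + l + m + 2) ∧ (i + l + m + 3) ≤ (n) ∧ (Q) ≤ (k3) ∧ (k3 + 1) ≤ (n) ∧ (i + m + 2) ≤ (k) ∧ (i) ≤ (i2) ∧ (i2) ≤ (i) ∧ (i + m + 1) ≤ (k3) ∧ (k3) ≤ (i + m + 1) ∧ (k3) ≤ (i + l + m + 1) ∧ (m + k3 + 2) ≤ (n + i2))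
    (a1 : Par W (0) (j) (k - j))
    (a2 : Par W (Q + j - k) (j) (k - j))
    (s1 : Ant W (0) (i) (i + j))
    (s2 : Ant W (j + 1) (Q) (i + j))
    (b : Par W (i + 1) (i + l + 1) (k - i))
    (c1 : Par W (i2 + 1) (Q) (k + l - i2 + 1))
    (c2 : Par W (k + l + 2) (n) (i2 - k - l - 1))
    (tt : Ant W (i2 - m) (i2) (i + l + i2 + 1))
    (D1 : Par W (Q) (k3) (n + i2 - m - k3 - 1))
    (D2 : Par W (i + l + m + 3) (n) (k3 - i - l - m - 2))
    {L : ℤ} (mx : ∀ a b g, 0 < g → g < n → Par W a b g → b - a ≤ L)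
    (hL : L ≤ (n - j - 3) ∧ L ≤ (n + Q - k - 3) ∧ L ≤ (n - l - 3) ∧ L ≤ (n + i - k - 2))
    (bd0 : Bd W n L (j) (i) (k))
    (n1 : Nd W (j) (i) (k))
    (n2 : Nd W (i + l + 1) (i2) (k + l + 1))
    (n3 : Nd W (n + i2 - m - 1) (i + l + m + 2) (k3))
    (d1 : ℤ) (q1 : d1 % 2 = 0) (x1 : Par W (i + 1) (k + l - d1 + 1) d1)
    (b0 : (i + l + 1) ≤ (k + d1))
    (b1 : (d1) ≤ (l))
    (b2 : (k + 2 * l + 3) ≤ (n + i + d1))
    (b3 : (2 * i + j + 1) ≤ (k))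
    (b4 : (2 * l + 3) ≤ (n))
    (b5 : (i + l + 2 * m + 2) ≤ (n + i2))
    (b6 : (n + k3) ≤ (2 * i + 2 * l + i2 + m + 4))
    (b7 : (i + k) ≤ (2 * j + 1)) : False := by
  have ev := al.ev
  obtain ⟨y0, y1, y2, y3, y4, y5, y6, y7, y8, y9, y10, y11, y12, y13, y14, y15, y16, y17, y18, y19, y20, y21⟩ := id hy
  have n1p := And.intro n1.p1 n1.p2
  have n2p := And.intro n2.p1 n2.p2
  have n3p := And.intro n3.p1 n3.p2
  by_cases z32 : (n + 2 * i + 2 * i2 + 1) ≤ (2 * Q + 2 * k)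
  · by_cases v9 : (Q + k + l + 1) ≤ (n + 2 * i2)
    · by_cases v10 : (k + l + m + 2) ≤ (n + i2)
      · have kk315 : (n + 2 * i + 2 * i2 + 2) ≤ (2 * Q + 2 * k) := by clear * - z32 ev n1p n2p n3p q1; omega
        have kk316 : (n + 2 * i2) ≤ (2 * i + 2 * l + 2 * m + 3) := by clear * - b6 y10 y17 y18; omega
        have kk317 : (Q) ≤ (i + l + 1) := by clear * - b3 b6 b7 v9 y17 y18 z32; omega
        have kk318 : (Q + k + l + 1) ≤ (n + 2 * i2) := by clear * - v9; omega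
        have kk319 : (i) ≤ (i2) := by clear * - y16; omega
        have kk320 : (k + l + m + 2) ≤ (n + i2) := by clear * - v10; omega
        have r321 : (2 * i2 - n) % 2 = 0 := by clear * - ev n1p n2p n3p q1; omega
        clear * - al b c1 tt kk315 kk316 kk317 kk318 kk319 kk320 r321
        obtain ⟨t, ht⟩ : ∃ t, 2 * t = (2 * i2 - n) := ⟨(2 * i2 - n) / 2, by omega⟩
        exact al.ninv t (cE (cE (cE (ab tt al (-1) t ((i + l + i2 - n + 1) - t) (by omega)) (pb c1 al (-1) ((i + l + i2 - n + 1) - t) ((i + 2 * i2 - k) - t) (by omega))) (qf b al 0 ((i + 2 * i2 - k) - t) ((2 * i2) - t) (by omega))) (sh al (-1) ((2 * i2) - t) t (by omega)))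
      · have kk322 : (n + 2 * i + 2 * i2 + 2) ≤ (2 * Q + 2 * k) := by clear * - z32 ev n1p n2p n3p q1; omega
        have kk323 : (2 * k + 1) ≤ (n + 2 * i) := by clear * - b6 y17 y18 y6; omega
        have kk324 : (Q) ≤ (i + l + 1) := by clear * - b3 b6 b7 v9 y17 y18 z32; omega
        have kk325 : (Q + k + l + 1) ≤ (n + 2 * i2) := by clear * - v9; omega
        have kk326 : (i) ≤ (i2) := by clear * - y16; omega
        have kk327 : (n + i2) ≤ (k + l + m + 2) := by clear * - v10; omega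
        have r328 : (2 * i2 - n) % 2 = 0 := by clear * - ev n1p n2p n3p q1; omega
        clear * - al b c1 tt kk322 kk323 kk324 kk325 kk326 kk327 r328
        obtain ⟨t, ht⟩ : ∃ t, 2 * t = (2 * i2 - n) := ⟨(2 * i2 - n) / 2, by omega⟩
        exact al.ninv t (cE (cE (cE (ab tt al (-1) t ((i + l + i2 - n + 1) - t) (by omega)) (pb c1 al (-1) ((i + l + i2 - n + 1) - t) ((i + 2 * i2 - k) - t) (by omega))) (qf b al 0 ((i + 2 * i2 - k) - t) ((2 * i2) - t) (by omega))) (sh al (-1) ((2 * i2) - t) t (by omega)))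
    · have kk329 : (2 * i + 2 * l + 4) ≤ (n + 2 * i2) := by clear * - b4 y16 ev n1p n2p n3p q1; omega
      have kk330 : (2 * k + 1) ≤ (n + 2 * i) := by clear * - b6 y17 y18 y6; omega
      have kk331 : (Q) ≤ (i + l + 1) := by clear * - b1 b2 b3 b5 b6 b7 y13 y17; omega
      have kk332 : (n + 2 * i2) ≤ (Q + k + l + 1) := by clear * - v9; omega
      have kk333 : (i) ≤ (i2) := by clear * - y16; omega
      have kk334 : (n + i2) ≤ (k + l + m + 2) := by clear * - v9 y13 y16 y19; omega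
      have r335 : (2 * i2 - n) % 2 = 0 := by clear * - ev n1p n2p n3p q1; omega
      clear * - al b c1 tt kk329 kk330 kk331 kk332 kk333 kk334 r335
      obtain ⟨t, ht⟩ : ∃ t, 2 * t = (2 * i2 - n) := ⟨(2 * i2 - n) / 2, by omega⟩
      exact al.ninv t (cE (cE (cE (ab tt al (-1) t ((i + l + i2 - n + 1) - t) (by omega)) (pb c1 al (-1) ((i + l + i2 - n + 1) - t) ((i + 2 * i2 - k) - t) (by omega))) (qf b al 0 ((i + 2 * i2 - k) - t) ((2 * i2) - t) (by omega))) (sh al (-1) ((2 * i2) - t) t (by omega)))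
  · exact h9_23 al hy a1 a2 s1 s2 b c1 c2 tt D1 D2 mx hL bd0 n1 n2 n3 d1 q1 x1 (by clear * - b0; omega) (by clear * - b1; omega) (by clear * - b2; omega) (by clear * - b3; omega) (by clear * - b4; omega) (by clear * - b5; omega) (by clear * - b6; omega) (by clear * - b7; omega) (by clear * - z32; omega)

theorem h9_52p
    {W : ℤ → G} {n Q i j k l i2 m k3 : ℤ} (al : AL W n Q)
    (hy : (0) ≤ (i) ∧ (i) ≤ (j) ∧ (j + 1) ≤ (Q) ∧ (Q) ≤ (k) ∧ (k + 1) ≤ (n) ∧ (Q) ≤ (i + l + 1) ∧ (k + l + 2) ≤ (n) ∧ (0) ≤ (i2) ∧ (i2 + 1) ≤ (Q) ∧ (Q + m + 1) ≤ (n + i2) ∧ (i2) ≤ (m) ∧ (Q) ≤ (i + l + m + 2) ∧ (i + l + m + 3) ≤ (n) ∧ (Q) ≤ (k3) ∧ (k3 + 1) ≤ (n) ∧ (i + m + 2) ≤ (k) ∧ (i) ≤ (i2) ∧ (i2) ≤ (i) ∧ (i + m + 1) ≤ (k3) ∧ (k3) ≤ (i + m + 1) ∧ (k3) ≤ (i + l + m + 1) ∧ (m + k3 + 2) ≤ (n + i2))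
    (a1 : Par W (0) (j) (k - j))
    (a2 : Par W (Q + j - k) (j) (k - j))
    (s1 : Ant W (0) (i) (i + j))
    (s2 : Ant W (j + 1) (Q) (i + j))
    (b : Par W (i + 1) (i + l + 1) (k - i))
    (c1 : Par W (i2 + 1) (Q) (k + l - i2 + 1))
    (c2 : Par W (k + l + 2) (n) (i2 - k - l - 1))
    (tt : Ant W (i2 - m) (i2) (i + l + i2 + 1))
    (D1 : Par W (Q) (k3) (n + i2 - m - k3 - 1))
    (D2 : Par W (i + l + m + 3) (n) (k3 - i - l - m - 2))
    {L : ℤ} (mx : ∀ a b g, 0 < g → g < n → Par W a b g → b - a ≤ L)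
    (hL : L ≤ (n - j - 3) ∧ L ≤ (n + Q - k - 3) ∧ L ≤ (n - l - 3) ∧ L ≤ (n + i - k - 2))
    (bd0 : Bd W n L (j) (i) (k))
    (n1 : Nd W (j) (i) (k))
    (n2 : Nd W (i + l + 1) (i2) (k + l + 1))
    (n3 : Nd W (n + i2 - m - 1) (i + l + m + 2) (k3))
    (d1 : ℤ) (q1 : d1 % 2 = 0) (x1 : Par W (i + 1) (k + l - d1 + 1) d1)
    (b0 : (i + l + 1) ≤ (k + d1))
    (b1 : (k + 2 * l + 3) ≤ (n + i + d1))
    (b2 : (2 * l + 3) ≤ (n))
    (b3 : (2 * j + 2 * k3 + 1) ≤ (i + k + 2 * m))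
    (b4 : (n + k3) ≤ (2 * i + 2 * l + i2 + m + 4))
    (b5 : (2 * Q + k + l + 1) ≤ (n + i + j + i2))
    (b6 : (i + l + 2 * m + 3) ≤ (n + i2))
    (b7 : (2 * j + k3 + d1) ≤ (i + l + m + 1)) : False := by
  have ev := al.ev
  obtain ⟨y0, y1, y2, y3, y4, y5, y6, y7, y8, y9, y10, y11, y12, y13, y14, y15, y16, y17, y18, y19, y20, y21⟩ := id hy
  have n1p := And.intro n1.p1 n1.p2
  have n2p := And.intro n2.p1 n2.p2
  have n3p := And.intro n3.p1 n3.p2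
  by_cases z108 : (n + k + i2 + k3) ≤ (3 * i + 2 * l + 3 * m + 4)
  · have kk1254 : (3 * i + 2 * l + i2 + m + 5) ≤ (n + k + k3) := by clear * - b2 b3 y1 y17 y18; omega
    have kk1255 : (n + k + i2 + k3) ≤ (3 * i + 2 * l + 3 * m + 4) := by clear * - z108; omega
    have kk1256 : (k) ≤ (i + l + 1) := by clear * - b6 y18 z108; omega
    have kk1257 : (0) ≤ (i2) := by clear * - b2 b4 y16 y18; omega
    have kk1258 : (i + l + 2 * m + 3) ≤ (n + i2) := by clear * - b6; omega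
    have kk1259 : (i + m + 1) ≤ (k) := by clear * - y15; omega
    have r1260 : (i + i2 + k3 - n - k - m - 1) % 2 = 0 := by clear * - ev n1p n2p n3p q1; omega
    clear * - al b tt D2 kk1254 kk1255 kk1256 kk1257 kk1258 kk1259 r1260
    obtain ⟨t, ht⟩ : ∃ t, 2 * t = (i + i2 + k3 - n - k - m - 1) := ⟨(i + i2 + k3 - n - k - m - 1) / 2, by omega⟩
    exact al.ninv t (cE (cE (cI (qf b al (-1) t (t + (n + k - i)) (by omega)) (ab tt al 0 (t + (n + k - i)) ((2 * i + l + i2 - n - k + 1) - t) (by omega))) (qf D2 al (-1) ((2 * i + l + i2 - n - k + 1) - t) ((i + i2 + k3 - k - m - 1) - t) (by omega))) (sh al (-1) ((i + i2 + k3 - k - m - 1) - t) t (by omega)))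
  · by_cases z109 : (i + j + l + 3) ≤ (k + i2 + d1)
    · by_cases z110 : (k + i2 + d1) ≤ (i + j + l + 2 * m + 2)
      · by_cases v34 : (k + i2) ≤ (Q + j + m)
        · have kk1261 : (i + j + l + 3) ≤ (k + i2 + d1) := by clear * - z109; omega
          have kk1262 : (2 * Q + j + d1) ≤ (i + k + l + i2 + 2) := by clear * - b4 b7 y1 y13 y17 y19 z108; omega
          have kk1263 : (i2 + d1) ≤ (j + l + 1) := by clear * - b4 b7 y1 y17 y18 z108 z110; omega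
          have kk1264 : (i2) ≤ (j) := by clear * - y1 y17; omega
          have kk1265 : (i + j + m + 1) ≤ (k + i2) := by clear * - b3 b4 y18 z108; omega
          have kk1266 : (k + i2) ≤ (Q + j + m) := by clear * - v34; omega
          have r1267 : (i + k + l + i2 + d1 - 2 * n - j + 1) % 2 = 0 := by clear * - ev n1p n2p n3p q1; omega
          clear * - al a2 tt x1 kk1261 kk1262 kk1263 kk1264 kk1265 kk1266 r1267
          obtain ⟨t, ht⟩ : ∃ t, 2 * t = (i + k + l + i2 + d1 - 2 * n - j + 1) := ⟨(i + k + l + i2 + d1 - 2 * n - j + 1) / 2, by omega⟩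
          exact al.ninv t (cE (cE (cE (ab tt al (-1) t ((i + l + i2 - n + 1) - t) (by omega)) (qf a2 al 0 ((i + l + i2 - n + 1) - t) ((i + k + l + i2 - n - j + 1) - t) (by omega))) (qf x1 al 0 ((i + k + l + i2 - n - j + 1) - t) ((i + k + l + i2 + d1 - n - j + 1) - t) (by omega))) (sh al (-1) ((i + k + l + i2 + d1 - n - j + 1) - t) t (by omega)))
        · have kk1268 : (i + j + l + 3) ≤ (k + i2 + d1) := by clear * - z109; omega
          have kk1269 : (k + i2 + d1) ≤ (i + j + l + 2 * m + 2) := by clear * - z110; omega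
          have kk1270 : (i2 + d1) ≤ (j + l + 1) := by clear * - b4 b7 y1 y17 y18 z108 z110; omega
          have kk1271 : (i2) ≤ (j) := by clear * - y1 y17; omega
          have kk1272 : (i + j + m + 1) ≤ (k + i2) := by clear * - b3 b4 y18 z108; omega
          have kk1273 : (Q + j + m) ≤ (k + i2) := by clear * - v34; omega
          have r1274 : (i + k + l + i2 + d1 - 2 * n - j + 1) % 2 = 0 := by clear * - ev n1p n2p n3p q1; omega
          clear * - al a2 tt x1 kk1268 kk1269 kk1270 kk1271 kk1272 kk1273 r1274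
          obtain ⟨t, ht⟩ : ∃ t, 2 * t = (i + k + l + i2 + d1 - 2 * n - j + 1) := ⟨(i + k + l + i2 + d1 - 2 * n - j + 1) / 2, by omega⟩
          exact al.ninv t (cE (cE (cE (ab tt al (-1) t ((i + l + i2 - n + 1) - t) (by omega)) (qf a2 al 0 ((i + l + i2 - n + 1) - t) ((i + k + l + i2 - n - j + 1) - t) (by omega))) (qf x1 al 0 ((i + k + l + i2 - n - j + 1) - t) ((i + k + l + i2 + d1 - n - j + 1) - t) (by omega))) (sh al (-1) ((i + k + l + i2 + d1 - n - j + 1) - t) t (by omega)))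
      · by_cases z111 : (i + k + l + m + 3) ≤ (n + Q + j)
        · have kk1275 : (i + 1) ≤ (k) := by clear * - b4 y10 z108; omega
          have kk1276 : (0) ≤ (l) := by clear * - y18 y20; omega
          have kk1277 : (k3) ≤ (i + m + 1) := by clear * - y19; omega
          have kk1278 : (i + m + 1) ≤ (k3) := by clear * - y18; omega
          have kk1279 : (i2) ≤ (i) := by clear * - y17; omega
          have kk1280 : (i) ≤ (i2) := by clear * - y16; omega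
          have kk1281 : (k3 + 1) ≤ (k) := by clear * - y15 y19; omega
          have kk1282 : (i + k + l + m + 3) ≤ (n + k3) := by clear * - b1 b2 b4 b5 b7 y10 y16 y18 z111; omega
          have kk1283 : (i2) ≤ (j) := by clear * - y1 y17; omega
          have kk1284 : (Q + j + m) ≤ (k + i2) := by clear * - b2 b4 b7 y1 y13 y17 z108 z110; omega
          have kk1285 : (0) ≤ (l + m + 2) := by clear * - b2 b4 b5 b7 y10 y18 z108 z109 z110 z111; omega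
          have kk1286 : (i) ≤ (k3) := by clear * - b2 b4 y10 y16 y18; omega
          have kk1287 : (k + l + 1) ≤ (n) := by clear * - b1 b2 b4 b5 b7 y10 y16 y18 z111; omega
          have kk1288 : (k3) ≤ (i + l + m + 2) := by clear * - y20; omega
          have kk1289 : (0) ≤ (l + 1) := by clear * - y18 y20; omega
          have kk1290 : (i2) ≤ (j + l + 1) := by clear * - b1 b2 b4 b7 y1 y17 y18 z109; omega
          have kk1291 : (i + j + m + 1) ≤ (k + i2) := by clear * - b3 b4 y18 z108; omega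
          have r1292 : (k3 - i - l - m - 2) % 2 = 0 := by clear * - ev n1p n2p n3p q1; omega
          have r1293 : (k - i) % 2 = 0 := by clear * - ev n1p n2p n3p q1; omega
          have r1294 : (i + k + l + i2 - 2 * n - j + 1) % 2 = 0 := by clear * - ev n1p n2p n3p q1; omega
          clear * - al a2 b tt D2 n1 n2 kk1275 kk1276 kk1277 kk1278 kk1279 kk1280 kk1281 kk1282 kk1283 kk1284 kk1285 kk1286 kk1287 kk1288 kk1289 kk1290 kk1291 r1292 r1293 r1294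
          exact ivt al.ninv (i - n + 1) (i + l - n + 1) (k - i) (i + l + m - n + 3) (k + l - n + 1) (k3 - i - l - m - 2) (i + l - n + 1) (k - n) 1 (fun t h1 h2 => (cE (qf b al (-1) t (t + (n + k - i)) (by omega)) (sh al (-1) (t + (n + k - i)) (t + (k - i)) (by omega)))) (fun t h1 h2 => (cE (qf D2 al (-1) t (t + (n + k3 - i - l - m - 2)) (by omega)) (sh al (-1) (t + (n + k3 - i - l - m - 2)) (t + (k3 - i - l - m - 2)) (by omega)))) (fun hh => n1.f0 (rEE (cE (qf (uP (j) (i + l + 1) (i + l - j + 1) (by omega) (lat n1.r1 n2.r1 (sh al 0 (i) (i2) (by omega)) (iNN (pb D2 al 0 (k) (k + l + 1) (by omega))))) al 0 (j) (i + l + 1) (by omega)) (sh al (-1) (i + l + 1) (i + l - n + 1) (by omega))) (sh al (-1) (k) (k - n) (by omega)) (Eq.symm hh))) (by omega) (i + l - n + 2) (i + l + m - n + 2) (i + k + l + i2 - 2 * n - j + 1) 0 (-1) (fun t h1 h2 => (cE (cE (ab tt al (-1) t ((i + l + i2 - n + 1) - t)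 (by omega)) (qf a2 al 0 ((i + l + i2 - n + 1) - t) ((i + k + l + i2 - n - j + 1) - t) (by omega))) (sh al (-1) ((i + k + l + i2 - n - j + 1) - t) ((i + k + l + i2 - 2 * n - j + 1) - t) (by omega)))) (by omega)
        · by_cases v35 : (Q + k) ≤ (2 * i + l + 2)
          · have kk1295 : (2 * k + 1) ≤ (n + i + j) := by clear * - b5 v35 y16 y8; omega
            have kk1296 : (n + i + j) ≤ (2 * k + 2 * m) := by clear * - b2 y1 y16 y8 z111; omega
            have kk1297 : (2 * Q + j) ≤ (n + i + 2 * i2) := by clear * - b2 b4 b5 b7 v35 y18 y20 z108 z109 z111; omega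
            have kk1298 : (3 * i + 2 * l + 4) ≤ (n + j + 2 * k) := by clear * - b2 b4 b7 y1 y17 y18 z109; omega
            have kk1299 : (i + 1) ≤ (Q) := by clear * - y16 y8; omega
            have kk1300 : (k) ≤ (i + l + 1) := by clear * - v35 y16 y8; omega
            have kk1301 : (i2) ≤ (j) := by clear * - y1 y17; omega
            have kk1302 : (Q + k) ≤ (2 * i + l + 2) := by clear * - v35; omega
            have r1303 : (i + l + i2 - n + 1) % 2 = 0 := by clear * - ev n1p n2p n3p q1; omega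
            have r1304 : (n + i + j - 2 * k) % 2 = 0 := by clear * - ev n1p n2p n3p q1; omega
            clear * - al a2 b tt kk1295 kk1296 kk1297 kk1298 kk1299 kk1300 kk1301 kk1302 r1303 r1304
            exact midP al (n + i + j - 2 * k) (i + l + i2 - n + 1) (i + l - n + 2) (Q + k - n - i) (j) (by omega) (fun t h1 h2 => (ab tt al (-1) t ((i + l + i2 - n + 1) - t) (by omega))) (fun t h1 h2 => (cE (pb b al (-1) t (t + (n + i - k)) (by omega)) (pb a2 al 0 (t + (n + i - k)) (t + (n + i + j - 2 * k)) (by omega))))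
          · have kk1305 : (2 * k + 1) ≤ (n + i + j) := by clear * - b1 b4 b5 b7 v35 y1 y17 y18; omega
            have kk1306 : (n + 2 * Q + j) ≤ (3 * i + 2 * l + 2 * m + 4) := by clear * - b1 b4 b5 b7 v35 y1 y17 y18 z111; omega
            have kk1307 : (4 * Q + j + 2 * k) ≤ (n + 5 * i + 2 * l + 2 * i2 + 4) := by clear * - b1 b4 b5 b6 b7 v35 y10 y17 y18 z110; omega
            have kk1308 : (2 * Q) ≤ (n + i + j) := by clear * - b5 v35 y15 y17 y18 y20 z111; omega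
            have kk1309 : (i + 1) ≤ (Q) := by clear * - y16 y8; omega
            have kk1310 : (k) ≤ (i + l + 1) := by clear * - b1 b4 b7 y1 y17 y18; omega
            have kk1311 : (2 * i + l + 2) ≤ (Q + k) := by clear * - v35; omega
            have kk1312 : (2 * i + l + i2 + 2) ≤ (Q + j + k) := by clear * - v35 y1 y17; omega
            have r1313 : (i + l + i2 - n + 1) % 2 = 0 := by clear * - ev n1p n2p n3p q1; omega
            have r1314 : (n + i + j - 2 * k) % 2 = 0 := by clear * - ev n1p n2p n3p q1; omega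
            clear * - al a2 b tt kk1305 kk1306 kk1307 kk1308 kk1309 kk1310 kk1311 kk1312 r1313 r1314
            exact midP al (n + i + j - 2 * k) (i + l + i2 - n + 1) (Q + k - n - i) (Q + k - n - i) (j) (by omega) (fun t h1 h2 => (ab tt al (-1) t ((i + l + i2 - n + 1) - t) (by omega))) (fun t h1 h2 => (cE (pb b al (-1) t (t + (n + i - k)) (by omega)) (pb a2 al 0 (t + (n + i - k)) (t + (n + i + j - 2 * k)) (by omega))))
    · by_cases z112 : (k + k3 + d1) ≤ (2 * i + l + m + 2)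
      · have kk1315 : (k + d1) ≤ (i + l + m + 1) := by clear * - b2 b4 y10 y16 y18 z112; omega
        have kk1316 : (i + m + 2) ≤ (k) := by clear * - y15; omega
        have kk1317 : (k + k3 + d1) ≤ (2 * i + l + m + 2) := by clear * - z112; omega
        have kk1318 : (2 * i + l + m + 2) ≤ (k + k3 + d1) := by clear * - b0 y18; omega
        have kk1319 : (0) ≤ (d1) := by clear * - b0 b1 b3 b4 y16 y18 z109; omega
        have kk1320 : (i) ≤ (k) := by clear * - b0 b2 b3 b4 y16 y18 z109; omega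
        clear * - al b x1 n3 kk1315 kk1316 kk1317 kk1318 kk1319 kk1320
        exact n3.f1 (cE (pb b al 0 (i + l + m + 2) (2 * i + l + m - k + 2) (by omega)) (pb x1 al 0 (2 * i + l + m - k + 2) (k3) (by omega)))
      · by_cases z113 : (n + i2) ≤ (2 * k + l + 1)
        · have kk1321 : (2 * k + l + 2) ≤ (n + j + i2) := by clear * - b1 y16 z109 ev n1p n2p n3p q1; omega
          have kk1322 : (j + i2) ≤ (2 * k + l) := by clear * - b2 b4 b7 y20 z109 z112; omega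
          have kk1323 : (j + i2 + 1) ≤ (k) := by clear * - b1 b2 b3 b4 b7 z109 z112 z113; omega
          have kk1324 : (n + i2) ≤ (2 * k + l + 1) := by clear * - z113; omega
          clear * - al a1 c2 kk1321 kk1322 kk1323 kk1324
          exact al.ubP (n + j + i2 - 2 * k - l - 1) (by omega) (by omega) fun t h1 h2 => (cE (sh al 1 t (t + (n)) (by omega)) (cE (qf c2 al 0 (t + (n)) (t + (n + i2 - k - l - 1)) (by omega)) (pb a1 al 0 (t + (n + i2 - k - l - 1)) (t + (n + j + i2 - 2 * k - l - 1)) (by omega))))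
        · by_cases z114 : (n + k3) ≤ (i + k + l + m + d1 + 2)
          · have kk1325 : (i + k + l + m + d1 + 3) ≤ (n + j + k3) := by clear * - b2 y16 y18 z109 ev n1p n2p n3p q1; omega
            have kk1326 : (j + k3) ≤ (i + k + l + m + d1 + 1) := by clear * - b2 b3 b4 b7 z109 z112 z113; omega
            have kk1327 : (j + k3 + 1) ≤ (k + d1) := by clear * - b2 b6 b7 z109 z112 z113 z114; omega
            have kk1328 : (i + j + 1) ≤ (k) := by clear * - b2 b4 b7 y16 z109 z112 z114; omega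
            have kk1329 : (n + k3) ≤ (i + k + l + m + d1 + 2) := by clear * - z114; omega
            have kk1330 : (n + k3) ≤ (i + k + 2 * l + m + 3) := by clear * - b2 b4 b7 y16 z109 z112 z114; omega
            clear * - al a1 D2 x1 kk1325 kk1326 kk1327 kk1328 kk1329 kk1330
            exact al.ubP (n + j + k3 - i - k - l - m - d1 - 2) (by omega) (by omega) fun t h1 h2 => (cE (cE (qf D2 al (-1) t (t + (n + k3 - i - l - m - 2)) (by omega)) (pb x1 al 0 (t + (n + k3 - i - l - m - 2)) (t + (n + k3 - i - l - m - d1 - 2)) (by omega))) (pb a1 al 0 (t + (n + k3 - i - l - m - d1 - 2)) (t + (n + j + k3 - i - k - l - m - d1 - 2)) (by omega)))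
          · by_cases z115 : (k + 1) ≤ (i + d1)
            · by_cases v36 : (Q + j + m) ≤ (k + i2)
              · have kk1331 : (2 * i + l + m + 3) ≤ (k + k3 + d1) := by clear * - z112; omega
                have kk1332 : (2 * i + l + m + 4) ≤ (k + k3 + d1) := by clear * - z112 ev n1p n2p n3p q1; omega
                have kk1333 : (4 * i + l + 3 * m + 6) ≤ (3 * k + k3 + d1) := by clear * - b3 b4 z108 z109 z112; omega
                have kk1334 : (4 * i + l + 2 * i2 + 3 * m + 6) ≤ (2 * j + k + 3 * k3 + d1) := by clear * - z109 z112 ev n1p n2p n3p q1; omega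
                have kk1335 : (i) ≤ (k3) := by clear * - b4 y10 z112 z114; omega
                have kk1336 : (i + k + 2 * l + m + 3) ≤ (n + k3 + d1) := by clear * - b0 z114 z115; omega
                have kk1337 : (i + j + m + 1) ≤ (k + i2) := by clear * - b4 b7 z108 z112; omega
                have kk1338 : (Q + j + m) ≤ (k + i2) := by clear * - v36; omega
                have kk1339 : (i2) ≤ (j) := by clear * - y19 z109 z112; omega
                have kk1340 : (i2 + d1) ≤ (j + l + 1) := by clear * - b0 b3 b4 z109 z112 z114; omega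
                have kk1341 : (k) ≤ (i + l + m + 2) := by clear * - b4 y10 z108 z114 z115; omega
                have kk1342 : (k3 + d1) ≤ (i + l + m + 2) := by clear * - b0 b3 b4 z109 z112 z114; omega
                have kk1343 : (k + k3 + d1) ≤ (2 * i + l + 2 * m + 3) := by clear * - b4 y10 y19 z114; omega
                have kk1344 : (j + k3) ≤ (k + i2) := by clear * - b3 b4 z108; omega
                have r1345 : (i + k + l + i2 + d1 - 2 * n - j + 1) % 2 = 0 := by clear * - ev n1p n2p n3p q1; omega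
                have r1346 : (k + k3 + d1 - 2 * i - l - m - 2) % 2 = 0 := by clear * - ev n1p n2p n3p q1; omega
                clear * - al a2 b tt D2 x1 kk1331 kk1332 kk1333 kk1334 kk1335 kk1336 kk1337 kk1338 kk1339 kk1340 kk1341 kk1342 kk1343 kk1344 r1345 r1346
                exact midP al (k + k3 + d1 - 2 * i - l - m - 2) (i + k + l + i2 + d1 - 2 * n - j + 1) (2 * i + l + i2 + m - n - j - k3 + 3) (2 * i + l + m - n - k + 3) (k + k3 + d1 - n - i - m - 1) (by omega) (fun t h1 h2 => (cE (cI (cE (pb x1 al (-1) t (t + (n - d1)) (by omega)) (pb a2 al 0 (t + (n - d1)) (t + (n + j - k - d1)) (by omega))) (qa tt al 0 (t + (n + j - k - d1)) ((i + k + l + i2 + d1 - n - j + 1) - t) (by omega))) (sh al (-1) ((i + k + l + i2 + d1 - n - j + 1) - t) ((i + k + l + i2 + d1 - 2 * n - j + 1) - t) (by omega)))) (fun t h1 h2 => (cE (cE (qf b al (-1) t (t + (n + k - i)) (by omega)) (pb (show Par W (k3 +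 d1 + 1) (k + l + 1) (i + l + m - k3 - d1 + 2) from fun t h1 h2 => (cE (sh al (-1) t (t + (-n)) (by omega)) (cE (pb x1 al (-1) (t + (-n)) (t + (-d1)) (by omega)) (pb D2 al 0 (t + (-d1)) (t + (i + l + m - k3 - d1 + 2)) (by omega))))) al 0 (t + (n + k - i)) (t + (n + k + k3 + d1 - 2 * i - l - m - 2)) (by omega))) (sh al (-1) (t + (n + k + k3 + d1 - 2 * i - l - m - 2)) (t + (k + k3 + d1 - 2 * i - l - m - 2)) (by omega))))
              · by_cases v37 : (Q + j + k3 + d1) ≤ (2 * i + l + i2 + m + 3)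
                · have kk1347 : (2 * i + l + m + 3) ≤ (k + k3 + d1) := by clear * - z112; omega
                  have kk1348 : (2 * i + l + m + 4) ≤ (k + k3 + d1) := by clear * - z112 ev n1p n2p n3p q1; omega
                  have kk1349 : (4 * i + l + 3 * m + 6) ≤ (3 * k + k3 + d1) := by clear * - b3 b4 z108 z109 z112; omega
                  have kk1350 : (4 * i + l + 2 * i2 + 3 * m + 6) ≤ (2 * j + k + 3 * k3 + d1) := by clear * - z109 z112 ev n1p n2p n3p q1; omega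
                  have kk1351 : (i) ≤ (k3) := by clear * - v36 v37 y18 z112; omega
                  have kk1352 : (i + k + 2 * l + m + 3) ≤ (n + k3 + d1) := by clear * - b0 z114 z115; omega
                  have kk1353 : (k + i2) ≤ (Q + j + m) := by clear * - v36; omega
                  have kk1354 : (i + 1) ≤ (Q) := by clear * - b4 b7 v36 z108 z112; omega
                  have kk1355 : (i2) ≤ (j) := by clear * - y19 z109 z112; omega
                  have kk1356 : (i2 + d1) ≤ (j + l + 1) := by clear * - b3 b4 v36 v37 z108 z109 z112; omega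
                  have kk1357 : (k) ≤ (i + l + m + 2) := by clear * - b4 b7 v36 v37 z108 z109 z112 z115; omega
                  have kk1358 : (k3 + d1) ≤ (i + l + m + 2) := by clear * - b3 b4 v36 v37 z108 z109 z112; omega
                  have kk1359 : (j + k3) ≤ (k + i2) := by clear * - b3 b4 z108; omega
                  have kk1360 : (Q + j + k3 + d1) ≤ (2 * i + l + i2 + m + 3) := by clear * - v37; omega
                  have r1361 : (i + k + l + i2 + d1 - 2 * n - j + 1) % 2 = 0 := by clear * - ev n1p n2p n3p q1; omega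
                  have r1362 : (k + k3 + d1 - 2 * i - l - m - 2) % 2 = 0 := by clear * - ev n1p n2p n3p q1; omega
                  clear * - al a2 b tt D2 x1 kk1347 kk1348 kk1349 kk1350 kk1351 kk1352 kk1353 kk1354 kk1355 kk1356 kk1357 kk1358 kk1359 kk1360 r1361 r1362
                  exact midP al (k + k3 + d1 - 2 * i - l - m - 2) (i + k + l + i2 + d1 - 2 * n - j + 1) (2 * i + l + i2 + m - n - j - k3 + 3) (2 * i + l + m - n - k + 3) (k + k3 + d1 - n - i - m - 1) (by omega) (fun t h1 h2 => (cE (cI (cE (pb x1 al (-1) t (t + (n - d1)) (by omega)) (pb a2 al 0 (t + (n - d1)) (t + (n + j - k - d1)) (by omega))) (qa tt al 0 (t + (n + j - k - d1)) ((i + k + l + i2 + d1 - n - j + 1) - t) (by omega))) (sh al (-1) ((i + k + l + i2 + d1 - n - j + 1) - t) ((i + k + l + i2 + d1 - 2 * n - j + 1) - t) (by omega)))) (fun t h1 h2 => (cE (cE (qf b al (-1) t (t + (n + k - i)) (by omega)) (pb (show Par W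 (k3 + d1 + 1) (k + l + 1) (i + l + m - k3 - d1 + 2) from fun t h1 h2 => (cE (sh al (-1) t (t + (-n)) (by omega)) (cE (pb x1 al (-1) (t + (-n)) (t + (-d1)) (by omega)) (pb D2 al 0 (t + (-d1)) (t + (i + l + m - k3 - d1 + 2)) (by omega))))) al 0 (t + (n + k - i)) (t + (n + k + k3 + d1 - 2 * i - l - m - 2)) (by omega))) (sh al (-1) (t + (n + k + k3 + d1 - 2 * i - l - m - 2)) (t + (k + k3 + d1 - 2 * i - l - m - 2)) (by omega))))
                · have kk1363 : (2 * i + l + m + 3) ≤ (k + k3 + d1) := by clear * - z112; omega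
                  have kk1364 : (2 * Q + 2 * j + k3 + d1) ≤ (2 * i + k + l + 2 * i2 + m + 2) := by clear * - b4 b7 y13 y19 z108; omega
                  have kk1365 : (2 * Q + 2 * j + m + k3 + d1) ≤ (3 * k + l + 2 * i2) := by clear * - b3 b4 v37 y13 z108 z109; omega
                  have kk1366 : (2 * Q + m + d1) ≤ (k + l + k3) := by clear * - b3 b4 v37 y13 z108 z109; omega
                  have kk1367 : (i) ≤ (k3) := by clear * - b4 b7 v36 y13 z108 z112; omega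
                  have kk1368 : (i + k + 2 * l + m + 3) ≤ (n + k3 + d1) := by clear * - b0 z114 z115; omega
                  have kk1369 : (k + i2) ≤ (Q + j + m) := by clear * - v36; omega
                  have kk1370 : (i + 1) ≤ (Q) := by clear * - b4 b7 v36 z108 z112; omega
                  have kk1371 : (i2) ≤ (j) := by clear * - y19 z109 z112; omega
                  have kk1372 : (i2 + d1) ≤ (j + l + 1) := by clear * - b0 b3 b4 z109 z112 z114; omega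
                  have kk1373 : (k) ≤ (i + l + m + 2) := by clear * - b2 b4 b5 b7 v36 v37 z109 z112 z114 z115; omega
                  have kk1374 : (k3 + d1) ≤ (i + l + m + 2) := by clear * - b0 b3 b4 z109 z112 z114; omega
                  have kk1375 : (j + k3) ≤ (k + i2) := by clear * - b3 b4 z108; omega
                  have kk1376 : (2 * i + l + i2 + m + 3) ≤ (Q + j + k3 + d1) := by clear * - v37; omega
                  have r1377 : (i + k + l + i2 + d1 - 2 * n - j + 1) % 2 = 0 := by clear * - ev n1p n2p n3p q1; omega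
                  have r1378 : (k + k3 + d1 - 2 * i - l - m - 2) % 2 = 0 := by clear * - ev n1p n2p n3p q1; omega
                  clear * - al a2 b tt D2 x1 kk1363 kk1364 kk1365 kk1366 kk1367 kk1368 kk1369 kk1370 kk1371 kk1372 kk1373 kk1374 kk1375 kk1376 r1377 r1378
                  exact midP al (k + k3 + d1 - 2 * i - l - m - 2) (i + k + l + i2 + d1 - 2 * n - j + 1) (Q + d1 - n) (2 * i + l + m - n - k + 3) (k + k3 + d1 - n - i - m - 1) (by omega) (fun t h1 h2 => (cE (cI (cE (pb x1 al (-1) t (t + (n - d1)) (by omega)) (pb a2 al 0 (t + (n - d1)) (t + (n + j - k - d1)) (by omega))) (qa tt al 0 (t + (n + j - k - d1)) ((i + k + l + i2 + d1 - n - j + 1) - t) (by omega))) (sh al (-1) ((i + k + l + i2 + d1 - n - j + 1) - t) ((i + k + l + i2 + d1 - 2 * n - j + 1) - t) (by omega)))) (fun t h1 h2 => (cE (cE (qf b al (-1) t (t + (n + k - i)) (by omega)) (pb (show Par W (k3 + d1 + 1) (k + l + 1)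 (i + l + m - k3 - d1 + 2) from fun t h1 h2 => (cE (sh al (-1) t (t + (-n)) (by omega)) (cE (pb x1 al (-1) (t + (-n)) (t + (-d1)) (by omega)) (pb D2 al 0 (t + (-d1)) (t + (i + l + m - k3 - d1 + 2)) (by omega))))) al 0 (t + (n + k - i)) (t + (n + k + k3 + d1 - 2 * i - l - m - 2)) (by omega))) (sh al (-1) (t + (n + k + k3 + d1 - 2 * i - l - m - 2)) (t + (k + k3 + d1 - 2 * i - l - m - 2)) (by omega))))
            · have kk1379 : (3 * i + l + m + 3) ≤ (2 * k + k3) := by clear * - z112 z115; omega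
              have kk1380 : (2 * k + k3) ≤ (3 * i + l + 2 * i2 + m + 2) := by clear * - b1 b4 z113 z114; omega
              have kk1381 : (3 * i + 2 * j + l + m + k3 + 4) ≤ (4 * k + 2 * i2) := by clear * - b3 b4 z108 z112 z115; omega
              have kk1382 : (3 * i + l + m + 4) ≤ (2 * k + k3) := by clear * - z112 z115 ev n1p n2p n3p q1; omega
              have kk1383 : (i) ≤ (k3) := by clear * - b4 y10 z112 z114; omega
              have kk1384 : (2 * i + 2 * l + m + 3) ≤ (n + k3) := by clear * - b0 z114; omega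
              have kk1385 : (k + i2) ≤ (i + j + l + 1) := by clear * - b1 b3 b4 z109 z112 z113 z114; omega
              have kk1386 : (i2) ≤ (j) := by clear * - y19 z109 z112; omega
              have kk1387 : (i + j + m + 1) ≤ (k + i2) := by clear * - b4 b7 z108 z112; omega
              have kk1388 : (i2) ≤ (m) := by clear * - y10; omega
              have kk1389 : (k) ≤ (i + l + m + 2) := by clear * - b2 b4 b7 y10 z109 z112 z113; omega
              have kk1390 : (k + k3) ≤ (2 * i + l + m + 2) := by clear * - b1 b3 b4 z109 z112 z113 z114; omega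
              have kk1391 : (i + m + 1) ≤ (k) := by clear * - b3 b4 z108 z109 z112; omega
              have kk1392 : (i + i2 + m + 1) ≤ (j + k3) := by clear * - z109 z112; omega
              have r1393 : (2 * k + l + i2 - 2 * n - j + 1) % 2 = 0 := by clear * - ev n1p n2p n3p q1; omega
              have r1394 : (2 * k + k3 - 3 * i - l - m - 2) % 2 = 0 := by clear * - ev n1p n2p n3p q1; omega
              clear * - al a1 b tt D2 kk1379 kk1380 kk1381 kk1382 kk1383 kk1384 kk1385 kk1386 kk1387 kk1388 kk1389 kk1390 kk1391 kk1392 r1393 r1394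
              exact midP al (2 * k + k3 - 3 * i - l - m - 2) (2 * k + l + i2 - 2 * n - j + 1) (i + l - n + 2) (2 * i + l + m - n - k + 3) (2 * k + k3 - n - 2 * i - m - 1) (by omega) (fun t h1 h2 => (cE (cE (cE (ab tt al (-1) t ((i + l + i2 - n + 1) - t) (by omega)) (qf a1 al 0 ((i + l + i2 - n + 1) - t) ((i + k + l + i2 - n - j + 1) - t) (by omega))) (qf b al 0 ((i + k + l + i2 - n - j + 1) - t) ((2 * k + l + i2 - n - j + 1) - t) (by omega))) (sh al (-1) ((2 * k + l + i2 - n - j + 1) - t) ((2 * k + l + i2 - 2 * n - j + 1) - t) (by omega)))) (fun t h1 h2 => (cE (cE (qf b al (-1) t (t + (n + k - i)) (by omega)) (pb (show Par W (k + k3 - i + 1) (k + l + 1) (2 * i + l + m - k - k3 + 2) from fun t h1 h2 => (cE (sh al (-1) t (t + (-n)) (by omega)) (cE (pb b al (-1) (t + (-n)) (t + (i - k)) (by omega)) (pb D2 al 0 (t + (i - k)) (t + (2 * i + l + m - k - k3 + 2)) (by omega))))) al 0 (t + (n + k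 - i)) (t + (n + 2 * k + k3 - 3 * i - l - m - 2)) (by omega))) (sh al (-1) (t + (n + 2 * k + k3 - 3 * i - l - m - 2)) (t + (2 * k + k3 - 3 * i - l - m - 2)) (by omega))))

theorem h9_55p
    (h9_56 : ∀ {W : ℤ → G} {n Q i j k l i2 m k3 : ℤ} (al : AL W n Q) (hy : (0) ≤ (i) ∧ (i) ≤ (j) ∧ (j + 1) ≤ (Q) ∧ (Q) ≤ (k) ∧ (k + 1) ≤ (n) ∧ (Q) ≤ (i + l + 1) ∧ (k + l + 2) ≤ (n) ∧ (0) ≤ (i2) ∧ (i2 + 1) ≤ (Q) ∧ (Q + m + 1) ≤ (n + i2) ∧ (i2) ≤ (m) ∧ (Q) ≤ (i + l + m + 2) ∧ (i + l + m + 3) ≤ (n) ∧ (Q) ≤ (k3) ∧ (k3 + 1) ≤ (n) ∧ (i + m + 2) ≤ (k) ∧ (i) ≤ (i2) ∧ (i2) ≤ (i) ∧ (i + m + 1) ≤ (k3) ∧ (k3) ≤ (i + m + 1) ∧ (k3) ≤ (i + l + m + 1) ∧ (m + k3 + 2) ≤ (n + i2)) (a1 : Par W (0) (j) (k - j)) (a2 : Par W (Q + j - k) (j) (k - j)) (s1 : Ant W (0) (i) (i + j)) (s2 : Ant W (j + 1) (Q) (i + j)) (b : Par W (i + 1) (i + l + 1) (k - i)) (c1 : Par W (i2 + 1) (Q) (k + l - i2 + 1)) (c2 : Par W (k + l + 2) (n) (i2 - k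 - l - 1)) (tt : Ant W (i2 - m) (i2) (i + l + i2 + 1)) (D1 : Par W (Q) (k3) (n + i2 - m - k3 - 1)) (D2 : Par W (i + l + m + 3) (n) (k3 - i - l - m - 2)) {L : ℤ} (mx : ∀ a b g, 0 < g → g < n → Par W a b g → b - a ≤ L) (hL : L ≤ (n - j - 3) ∧ L ≤ (n + Q - k - 3) ∧ L ≤ (n - l - 3) ∧ L ≤ (n + i - k - 2)) (bd0 : Bd W n L (j) (i) (k)) (n1 : Nd W (j) (i) (k)) (n2 : Nd W (i + l + 1) (i2) (k + l + 1)) (n3 : Nd W (n + i2 - m - 1) (i + l + m + 2) (k3)) (d1 : ℤ) (q1 : d1 % 2 = 0) (x1 : Par W (i + 1) (k + l - d1 + 1) d1) (b0 : (i + l + 1) ≤ (k + d1)) (b1 : (d1) ≤ (l)) (b2 : (n + i2) ≤ (i + k + 2 * l + 2)) (b3 : (k + 2 * m + 1) ≤ (n + j)) (b4 : (2 * j + 2 * k3 + 1) ≤ (i + k + 2 * m)) (b5 : (2 * i + 2 * l + 3 * m + 5) ≤ (n + i2 + k3)) (b6 : (k) ≤ (i + m + d1)) (b7 : (Q) ≤ (j + 1)), False)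
    (h9_57 : ∀ {W : ℤ → G} {n Q i j k l i2 m k3 : ℤ} (al : AL W n Q) (hy : (0) ≤ (i) ∧ (i) ≤ (j) ∧ (j + 1) ≤ (Q) ∧ (Q) ≤ (k) ∧ (k + 1) ≤ (n) ∧ (Q) ≤ (i + l + 1) ∧ (k + l + 2) ≤ (n) ∧ (0) ≤ (i2) ∧ (i2 + 1) ≤ (Q) ∧ (Q + m + 1) ≤ (n + i2) ∧ (i2) ≤ (m) ∧ (Q) ≤ (i + l + m + 2) ∧ (i + l + m + 3) ≤ (n) ∧ (Q) ≤ (k3) ∧ (k3 + 1) ≤ (n) ∧ (i + m + 2) ≤ (k) ∧ (i) ≤ (i2) ∧ (i2) ≤ (i) ∧ (i + m + 1) ≤ (k3) ∧ (k3) ≤ (i + m + 1) ∧ (k3) ≤ (i + l + m + 1) ∧ (m + k3 + 2) ≤ (n + i2)) (a1 : Par W (0) (j) (k - j)) (a2 : Par W (Q + j - k) (j) (k - j)) (s1 : Ant W (0) (i) (i + j)) (s2 : Ant W (j + 1) (Q) (i + j)) (b : Par W (i + 1) (i + l + 1) (k - i)) (c1 : Par W (i2 + 1) (Q) (k + l - i2 + 1)) (c2 : Par W (k + l + 2) (n) (i2 - k - l - 1)) (tt : Ant W (i2 - m) (i2) (i + l + i2 + 1)) (D1 : Par W (Q) (k3) (n + i2 - m - k3 - 1)) (D2 : Par W (i + l + m + 3) (n) (k3 - i - l - m - 2)) {L : ℤ} (mx : ∀ a b g, 0 < g → g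 < n → Par W a b g → b - a ≤ L) (hL : L ≤ (n - j - 3) ∧ L ≤ (n + Q - k - 3) ∧ L ≤ (n - l - 3) ∧ L ≤ (n + i - k - 2)) (bd0 : Bd W n L (j) (i) (k)) (n1 : Nd W (j) (i) (k)) (n2 : Nd W (i + l + 1) (i2) (k + l + 1)) (n3 : Nd W (n + i2 - m - 1) (i + l + m + 2) (k3)) (d1 : ℤ) (q1 : d1 % 2 = 0) (x1 : Par W (i + 1) (k + l - d1 + 1) d1) (b0 : (i + l + 1) ≤ (k + d1)) (b1 : (d1) ≤ (l)) (b2 : (n + i2) ≤ (i + k + 2 * l + 2)) (b3 : (k + 2 * m + 1) ≤ (n + j)) (b4 : (2 * j + 2 * k3 + 1) ≤ (i + k + 2 * m)) (b5 : (2 * i + 2 * l + 3 * m + 5) ≤ (n + i2 + k3)) (b6 : (k) ≤ (i + m + d1)) (b7 : (j + 2) ≤ (Q)), False)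
    {W : ℤ → G} {n Q i j k l i2 m k3 : ℤ} (al : AL W n Q)
    (hy : (0) ≤ (i) ∧ (i) ≤ (j) ∧ (j + 1) ≤ (Q) ∧ (Q) ≤ (k) ∧ (k + 1) ≤ (n) ∧ (Q) ≤ (i + l + 1) ∧ (k + l + 2) ≤ (n) ∧ (0) ≤ (i2) ∧ (i2 + 1) ≤ (Q) ∧ (Q + m + 1) ≤ (n + i2) ∧ (i2) ≤ (m) ∧ (Q) ≤ (i + l + m + 2) ∧ (i + l + m + 3) ≤ (n) ∧ (Q) ≤ (k3) ∧ (k3 + 1) ≤ (n) ∧ (i + m + 2) ≤ (k) ∧ (i) ≤ (i2) ∧ (i2) ≤ (i) ∧ (i + m + 1) ≤ (k3) ∧ (k3) ≤ (i + m + 1) ∧ (k3) ≤ (i + l + m + 1) ∧ (m + k3 + 2) ≤ (n + i2))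
    (a1 : Par W (0) (j) (k - j))
    (a2 : Par W (Q + j - k) (j) (k - j))
    (s1 : Ant W (0) (i) (i + j))
    (s2 : Ant W (j + 1) (Q) (i + j))
    (b : Par W (i + 1) (i + l + 1) (k - i))
    (c1 : Par W (i2 + 1) (Q) (k + l - i2 + 1))
    (c2 : Par W (k + l + 2) (n) (i2 - k - l - 1))
    (tt : Ant W (i2 - m) (i2) (i + l + i2 + 1))
    (D1 : Par W (Q) (k3) (n + i2 - m - k3 - 1))
    (D2 : Par W (i + l + m + 3) (n) (k3 - i - l - m - 2))
    {L : ℤ} (mx : ∀ a b g, 0 < g → g < n → Par W a b g → b - a ≤ L)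
    (hL : L ≤ (n - j - 3) ∧ L ≤ (n + Q - k - 3) ∧ L ≤ (n - l - 3) ∧ L ≤ (n + i - k - 2))
    (bd0 : Bd W n L (j) (i) (k))
    (n1 : Nd W (j) (i) (k))
    (n2 : Nd W (i + l + 1) (i2) (k + l + 1))
    (n3 : Nd W (n + i2 - m - 1) (i + l + m + 2) (k3))
    (d1 : ℤ) (q1 : d1 % 2 = 0) (x1 : Par W (i + 1) (k + l - d1 + 1) d1)
    (b0 : (i + l + 1) ≤ (k + d1))
    (b1 : (d1) ≤ (l))
    (b2 : (n + i2) ≤ (i + k + 2 * l + 2))
    (b3 : (k + 2 * m + 1) ≤ (n + j))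
    (b4 : (2 * j + 2 * k3 + 1) ≤ (i + k + 2 * m))
    (b5 : (2 * i + 2 * l + 3 * m + 5) ≤ (n + i2 + k3))
    (b6 : (k) ≤ (i + m + d1)) : False := by
  have ev := al.ev
  obtain ⟨y0, y1, y2, y3, y4, y5, y6, y7, y8, y9, y10, y11, y12, y13, y14, y15, y16, y17, y18, y19, y20, y21⟩ := id hy
  have n1p := And.intro n1.p1 n1.p2
  have n2p := And.intro n2.p1 n2.p2
  have n3p := And.intro n3.p1 n3.p2
  by_cases z122 : (Q) ≤ (j + 1)
  · exact h9_56 al hy a1 a2 s1 s2 b c1 c2 tt D1 D2 mx hL bd0 n1 n2 n3 d1 q1 x1 (by clear * - b0; omega) (by clear * - b1; omega) (by clear * - b2; omega) (by clear * - b3; omega) (by clear * - b4; omega) (by clear * - b5; omega) (by clear * - b6; omega) (by clear * - z122; omega)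
  · exact h9_57 al hy a1 a2 s1 s2 b c1 c2 tt D1 D2 mx hL bd0 n1 n2 n3 d1 q1 x1 (by clear * - b0; omega) (by clear * - b1; omega) (by clear * - b2; omega) (by clear * - b3; omega) (by clear * - b4; omega) (by clear * - b5; omega) (by clear * - b6; omega) (by clear * - z122; omega)

end Pool.Agent.MP_a38735_al.WL
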