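import Pool.Agent.MP_a38735_al.WT

set_option autoImplicit false
set_option linter.unusedVariables false

namespace Pool.Agent.MP_a38735_al.WL

variable {G : Type*} [Group G]

theorem ev7_10p
    {W : ℤ → G} {n Q i j k l i2 m k3 : ℤ} (al : AL W n Q)
    (hy : (0) ≤ (i) ∧ (i) ≤ (j) ∧ (j + 1) ≤ (Q) ∧ (Q) ≤ (k) ∧ (k + 1) ≤ (n) ∧ (Q) ≤ (i + l + 1) ∧ (k + l + 2) ≤ (n) ∧ (0) ≤ (i2) ∧ (i2 + 1) ≤ (Q) ∧ (Q + m + 1) ≤ (n + i2) ∧ (i2) ≤ (m) ∧ (Q) ≤ (i + l + m + 2) ∧ (i + l + m + 3) ≤ (n) ∧ (Q) ≤ (k3) ∧ (k3 + 1) ≤ (n) ∧ (i + m + 2) ≤ (k) ∧ (i) ≤ (i2) ∧ (i2) ≤ (i) ∧ (k3) ≤ (i + m))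
    (a1 : Par W (0) (j) (k - j))
    (a2 : Par W (Q + j - k) (j) (k - j))
    (s1 : Ant W (0) (i) (i + j))
    (s2 : Ant W (j + 1) (Q) (i + j))
    (b : Par W (i + 1) (i + l + 1) (k - i))
    (c1 : Par W (i2 + 1) (Q) (k + l - i2 + 1))
    (c2 : Par W (k + l + 2) (n) (i2 - k - l - 1))
    (tt : Ant W (i2 - m) (i2) (i + l + i2 + 1))
    (D1 : Par W (Q) (k3) (n + i2 - m - k3 - 1))
    (D2 : Par W (i + l + m + 3) (n) (k3 - i - l - m - 2))
    {L : ℤ} (mx : ∀ a b g, 0 < g → g < n → Par W a b g → b - a ≤ L)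
    (hL : L ≤ (n - j - 3) ∧ L ≤ (n + Q - k - 3) ∧ L ≤ (n - l - 3) ∧ L ≤ (n + i - k - 2))
    (bd0 : Bd W n L (j) (i) (k))
    (n1 : Nd W (j) (i) (k))
    (n2 : Nd W (i + l + 1) (i2) (k + l + 1))
    (n3 : Nd W (n + i2 - m - 1) (i + l + m + 2) (k3))
    (b0 : (i + l + 2 * m + 2) ≤ (n + i2))
    (b1 : (2 * i + j + 1) ≤ (k))
    (b2 : (i + k + l + m + 3) ≤ (n + j + k3))
    (b3 : (2 * l + 3) ≤ (n))
    (b4 : (k + i2) ≤ (i + j + l + 1))
    (b5 : (n + k3) ≤ (2 * i + 2 * l + i2 + m + 4))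
    (b6 : (n + k3) ≤ (i + k + l + m + 2)) : False := by
  have ev := al.ev
  obtain ⟨y0, y1, y2, y3, y4, y5, y6, y7, y8, y9, y10, y11, y12, y13, y14, y15, y16, y17, y18⟩ := id hy
  have n1p := And.intro n1.p1 n1.p2
  have n2p := And.intro n2.p1 n2.p2
  have n3p := And.intro n3.p1 n3.p2
  by_cases z19 : (j + k3 + 1) ≤ (k)
  · have kk317 : (i + k + l + m + 3) ≤ (n + j + k3) := by clear * - b2; omega
    have kk318 : (j + k3) ≤ (i + k + l + m + 1) := by clear * - b1 b2 b3 b5 y17; omega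
    have kk319 : (j + k3 + 1) ≤ (k) := by clear * - z19; omega
    have kk320 : (n + k3) ≤ (i + k + l + m + 2) := by clear * - b6; omega
    clear * - al a1 D2 kk317 kk318 kk319 kk320
    exact al.ubP (n + j + k3 - i - k - l - m - 2) (by omega) (by omega) fun t h1 h2 => (cE (sh al 1 t (t + (n)) (by omega)) (cE (qf D2 al 0 (t + (n)) (t + (n + k3 - i - l - m - 2)) (by omega)) (pb a1 al 0 (t + (n + k3 - i - l - m - 2)) (t + (n + j + k3 - i - k - l - m - 2)) (by omega))))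
  · by_cases z20 : (k) ≤ (i + 2 * j)
    · by_cases z21 : (n + i2) ≤ (2 * i + k + l + 1)
      · by_cases z22 : (2 * j + 1) ≤ (i + k)
        · by_cases v17 : (2 * j + 1) ≤ (k)
          · have kk321 : (k) ≤ (i + 2 * j) := by clear * - z20; omega
            have kk322 : (k) ≤ (i + 2 * j + 1) := by clear * - z20; omega
            have kk323 : (2 * j + 1) ≤ (k) := by clear * - v17; omega
            have kk324 : (i + j + 1) ≤ (k) := by clear * - b1 v17 z20; omega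
            have r325 : (i + 2 * j - k) % 2 = 0 := by clear * - ev n1p n2p n3p; omega
            clear * - al a1 s1 kk321 kk322 kk323 kk324 r325
            obtain ⟨t, ht⟩ : ∃ t, 2 * t = (i + 2 * j - k) := ⟨(i + 2 * j - k) / 2, by omega⟩
            exact al.ninv t (cI (qf a1 al 0 t (t + (k - j)) (by omega)) (ab s1 al 0 (t + (k - j)) t (by omega)))
          · have kk326 : (2 * j + 2) ≤ (i + k) := by clear * - z22 ev n1p n2p n3p; omega
            have kk327 : (k) ≤ (i + 2 * j + 1) := by clear * - v17 z22; omega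
            have kk328 : (k) ≤ (2 * j + 1) := by clear * - v17; omega
            have kk329 : (i + j + 1) ≤ (k) := by clear * - b1 v17 z22; omega
            have r330 : (i + 2 * j - k) % 2 = 0 := by clear * - ev n1p n2p n3p; omega
            clear * - al a1 s1 kk326 kk327 kk328 kk329 r330
            obtain ⟨t, ht⟩ : ∃ t, 2 * t = (i + 2 * j - k) := ⟨(i + 2 * j - k) / 2, by omega⟩
            exact al.ninv t (cI (qf a1 al 0 t (t + (k - j)) (by omega)) (ab s1 al 0 (t + (k - j)) t (by omega)))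
        · have kk331 : (n + j + i2) ≤ (2 * k + l) := by clear * - b1 z21; omega
          have kk332 : (2 * k + l + 2) ≤ (2 * n + j + i2) := by clear * - b1 b2 b3 b5 y6 z21 z22; omega
          have kk333 : (k) ≤ (Q + j) := by clear * - y2 z20 z22; omega
          have kk334 : (k + l + 2) ≤ (n) := by clear * - y6; omega
          have kk335 : (Q + k + l + 1) ≤ (n + j + i2) := by clear * - b0 b6 y13 y16 y6 z21 z22; omega
          clear * - al a1 c1 kk331 kk332 kk333 kk334 kk335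
          exact al.ubQ (2 * k + l - n - j - i2 + 1) (by omega) (by omega) fun t h1 h2 => (cE (sh al (-1) t (t + (-n)) (by omega)) (cE (qf c1 al (-1) (t + (-n)) (t + (k + l - i2 + 1)) (by omega)) (qf a1 al 1 (t + (k + l - i2 + 1)) (t + (2 * k + l - n - j - i2 + 1)) (by omega))))
      · by_cases v18 : (2 * j + 1) ≤ (k)
        · have kk336 : (k) ≤ (i + 2 * j) := by clear * - z20; omega
          have kk337 : (k) ≤ (i + 2 * j + 1) := by clear * - z20; omega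
          have kk338 : (2 * j + 1) ≤ (k) := by clear * - v18; omega
          have kk339 : (i + j + 1) ≤ (k) := by clear * - b1 v18 z20; omega
          have r340 : (i + 2 * j - k) % 2 = 0 := by clear * - ev n1p n2p n3p; omega
          clear * - al a1 s1 kk336 kk337 kk338 kk339 r340
          obtain ⟨t, ht⟩ : ∃ t, 2 * t = (i + 2 * j - k) := ⟨(i + 2 * j - k) / 2, by omega⟩
          exact al.ninv t (cI (qf a1 al 0 t (t + (k - j)) (by omega)) (ab s1 al 0 (t + (k - j)) t (by omega)))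
        · have kk341 : (2 * j + 2) ≤ (i + k) := by clear * - b0 b6 y13 y17 y2 z21; omega
          have kk342 : (k) ≤ (i + 2 * j + 1) := by clear * - z20; omega
          have kk343 : (k) ≤ (2 * j + 1) := by clear * - v18; omega
          have kk344 : (i + j + 1) ≤ (k) := by clear * - b1 y17 y7; omega
          have r345 : (i + 2 * j - k) % 2 = 0 := by clear * - ev n1p n2p n3p; omega
          clear * - al a1 s1 kk341 kk342 kk343 kk344 r345
          obtain ⟨t, ht⟩ : ∃ t, 2 * t = (i + 2 * j - k) := ⟨(i + 2 * j - k) / 2, by omega⟩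
          exact al.ninv t (cI (qf a1 al 0 t (t + (k - j)) (by omega)) (ab s1 al 0 (t + (k - j)) t (by omega)))
    · by_cases z23 : (2 * Q + j) ≤ (2 * i + l + i2 + 2)
      · by_cases v19 : (i + l + 1) ≤ (k)
        · by_cases v20 : (k + i2) ≤ (Q + j + m)
          · have kk346 : (j + 1) ≤ (l + i2) := by clear * - b0 b4 b6 y18 z19 z20; omega
            have kk347 : (2 * Q + j) ≤ (2 * i + l + i2 + 2) := by clear * - z23; omega
            have kk348 : (i + l + 1) ≤ (k) := by clear * - v19; omega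
            have kk349 : (i + l + i2 + 1) ≤ (j + k) := by clear * - b4 v19; omega
            have kk350 : (i + m + 1) ≤ (k) := by clear * - b0 b4 b6 v19 z19 z20; omega
            have kk351 : (k + i2) ≤ (Q + j + m) := by clear * - v20; omega
            have r352 : (2 * n + 2 * i + l + i2 - j + 1) % 2 = 0 := by clear * - ev n1p n2p n3p; omega
            clear * - al a2 b tt kk346 kk347 kk348 kk349 kk350 kk351 r352
            obtain ⟨t, ht⟩ : ∃ t, 2 * t = (2 * n + 2 * i + l + i2 - j + 1) := ⟨(2 * n + 2 * i + l + i2 - j + 1) / 2, by omega⟩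
            exact al.ninv t (cE (cE (cI (qf b al 1 t (t + (k - n - i)) (by omega)) (ab tt al 0 (t + (k - n - i)) ((n + 2 * i + l + i2 - k + 1) - t) (by omega))) (qf a2 al 0 ((n + 2 * i + l + i2 - k + 1) - t) ((n + 2 * i + l + i2 - j + 1) - t) (by omega))) (sh al 1 ((n + 2 * i + l + i2 - j + 1) - t) t (by omega)))
          · have kk353 : (j + 1) ≤ (l + i2) := by clear * - b0 b4 b6 y18 z19 z20; omega
            have kk354 : (2 * k + i2) ≤ (2 * i + j + l + 2 * m + 2) := by clear * - b4 y18 z19 z20; omega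
            have kk355 : (i + l + 1) ≤ (k) := by clear * - v19; omega
            have kk356 : (i + l + i2 + 1) ≤ (j + k) := by clear * - b4 v19; omega
            have kk357 : (i + m + 1) ≤ (k) := by clear * - b0 b4 b6 v19 z19 z20; omega
            have kk358 : (Q + j + m) ≤ (k + i2) := by clear * - v20; omega
            have r359 : (2 * n + 2 * i + l + i2 - j + 1) % 2 = 0 := by clear * - ev n1p n2p n3p; omega
            clear * - al a2 b tt kk353 kk354 kk355 kk356 kk357 kk358 r359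
            obtain ⟨t, ht⟩ : ∃ t, 2 * t = (2 * n + 2 * i + l + i2 - j + 1) := ⟨(2 * n + 2 * i + l + i2 - j + 1) / 2, by omega⟩
            exact al.ninv t (cE (cE (cI (qf b al 1 t (t + (k - n - i)) (by omega)) (ab tt al 0 (t + (k - n - i)) ((n + 2 * i + l + i2 - k + 1) - t) (by omega))) (qf a2 al 0 ((n + 2 * i + l + i2 - k + 1) - t) ((n + 2 * i + l + i2 - j + 1) - t) (by omega))) (sh al 1 ((n + 2 * i + l + i2 - j + 1) - t) t (by omega)))
        · by_cases v21 : (k + i2) ≤ (Q + j + m)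
          · have kk360 : (2 * i + j + l + 3) ≤ (2 * k + i2) := by clear * - b0 b1 b3 b6 z19 z20; omega
            have kk361 : (2 * Q + j) ≤ (2 * i + l + i2 + 2) := by clear * - z23; omega
            have kk362 : (k) ≤ (i + l + 1) := by clear * - v19; omega
            have kk363 : (i2) ≤ (j) := by clear * - y1 y17; omega
            have kk364 : (i + m + 1) ≤ (k) := by clear * - b0 b1 b6 y17 z19; omega
            have kk365 : (k + i2) ≤ (Q + j + m) := by clear * - v21; omega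
            have r366 : (2 * n + 2 * i + l + i2 - j + 1) % 2 = 0 := by clear * - ev n1p n2p n3p; omega
            clear * - al a2 b tt kk360 kk361 kk362 kk363 kk364 kk365 r366
            obtain ⟨t, ht⟩ : ∃ t, 2 * t = (2 * n + 2 * i + l + i2 - j + 1) := ⟨(2 * n + 2 * i + l + i2 - j + 1) / 2, by omega⟩
            exact al.ninv t (cE (cE (cI (qf b al 1 t (t + (k - n - i)) (by omega)) (ab tt al 0 (t + (k - n - i)) ((n + 2 * i + l + i2 - k + 1) - t) (by omega))) (qf a2 al 0 ((n + 2 * i + l + i2 - k + 1) - t) ((n + 2 * i + l + i2 - j + 1) - t) (by omega))) (sh al 1 ((n + 2 * i + l + i2 - j + 1) - t) t (by omega)))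
          · have kk367 : (2 * i + j + l + 3) ≤ (2 * k + i2) := by clear * - b0 b1 b3 b6 z19 z20; omega
            have kk368 : (2 * k + i2) ≤ (2 * i + j + l + 2 * m + 2) := by clear * - b4 y18 z19 z20; omega
            have kk369 : (k) ≤ (i + l + 1) := by clear * - v19; omega
            have kk370 : (i2) ≤ (j) := by clear * - y1 y17; omega
            have kk371 : (i + m + 1) ≤ (k) := by clear * - b0 b1 b6 y17 z19; omega
            have kk372 : (Q + j + m) ≤ (k + i2) := by clear * - v21; omega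
            have r373 : (2 * n + 2 * i + l + i2 - j + 1) % 2 = 0 := by clear * - ev n1p n2p n3p; omega
            clear * - al a2 b tt kk367 kk368 kk369 kk370 kk371 kk372 r373
            obtain ⟨t, ht⟩ : ∃ t, 2 * t = (2 * n + 2 * i + l + i2 - j + 1) := ⟨(2 * n + 2 * i + l + i2 - j + 1) / 2, by omega⟩
            exact al.ninv t (cE (cE (cI (qf b al 1 t (t + (k - n - i)) (by omega)) (ab tt al 0 (t + (k - n - i)) ((n + 2 * i + l + i2 - k + 1) - t) (by omega))) (qf a2 al 0 ((n + 2 * i + l + i2 - k + 1) - t) ((n + 2 * i + l + i2 - j + 1) - t) (by omega))) (sh al 1 ((n + 2 * i + l + i2 - j + 1) - t) t (by omega)))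
      · by_cases z24 : (n + 3 * i + j + l + k3 + 2) ≤ (2 * Q + 3 * k + m)
        · by_cases z25 : (5 * i + k + 5 * l + m + 8) ≤ (3 * n + j + 2 * i2 + k3)
          · by_cases z26 : (7 * i + 3 * k + 7 * l + 3 * m + 12) ≤ (5 * n + 3 * j + 3 * k3)
            · by_cases v22 : (i + l + 1) ≤ (k)
              · by_cases v23 : (Q + k) ≤ (2 * i + l + m + 2)
                · by_cases v24 : (n + j + k3) ≤ (2 * i + 2 * l + i2 + m + 3)
                  · have kk374 : (i + k + l + m + 3) ≤ (n + j + k3) := by clear * - b2; omega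
                    have kk375 : (5 * i + 3 * l + 2 * i2 + m + 6) ≤ (n + 2 * Q + j + k + k3) := by clear * - b2 b4 v22 z20 z23; omega
                    have kk376 : (3 * i + k + 3 * l + 3 * m + 8) ≤ (3 * n + j + k3) := by clear * - b0 b4 v22 v23 z19 z20 z23; omega
                    have kk377 : (7 * i + 3 * k + 7 * l + 3 * m + 12) ≤ (5 * n + 3 * j + 3 * k3) := by clear * - z26; omega
                    have kk378 : (i2) ≤ (i) := by clear * - y17; omega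
                    have kk379 : (i + l + 1) ≤ (k) := by clear * - v22; omega
                    have kk380 : (i + m + 1) ≤ (k) := by clear * - b0 b4 v22 v24 z19 z20; omega
                    have kk381 : (Q + k) ≤ (2 * i + l + m + 2) := by clear * - v23; omega
                    have kk382 : (k) ≤ (j + k3 + 1) := by clear * - z19; omega
                    have kk383 : (n + k3) ≤ (i + k + l + m + 2) := by clear * - b6; omega
                    have kk384 : (n + j + k3) ≤ (2 * i + k + 2 * l + 2) := by clear * - b0 b4 v22 v24 y17 z19 z20; omega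
                    have kk385 : (n + j + k3) ≤ (2 * i + 2 * l + i2 + m + 3) := by clear * - v24; omega
                    have r386 : (2 * i + 2 * l - n + 2) % 2 = 0 := by clear * - ev n1p n2p n3p; omega
                    have r387 : (n + j + k3 - i - k - l - m - 2) % 2 = 0 := by clear * - ev n1p n2p n3p; omega
                    clear * - al a1 b c1 tt D2 kk374 kk375 kk376 kk377 kk378 kk379 kk380 kk381 kk382 kk383 kk384 kk385 r386 r387
                    exact midP al (n + j + k3 - i - k - l - m - 2) (2 * i + 2 * l - n + 2) (3 * i + k + 3 * l + m - 2 * n - j - k3 + 5) (i + l + m - n + 3) (n + j + k3 - i - k - l - m - 2) (by omega) (fun t h1 h2 => (cI (cE (pb c1 al (-1) t (t + (n + i2 - k - l - 1)) (by omega)) (qf b al 0 (t + (n + i2 - k - l - 1)) (t + (n + i2 - i - l - 1)) (by omega))) (ab tt al 0 (t + (n + i2 - i - l - 1)) ((2 * i + 2 * l - n + 2) - t) (by omega)))) (fun t h1 h2 => (cE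 (qf D2 al (-1) t (t + (n + k3 - i - l - m - 2)) (by omega)) (pb a1 al 0 (t + (n + k3 - i - l - m - 2)) (t + (n + j + k3 - i - k - l - m - 2)) (by omega))))
                  · have kk388 : (i + k + l + m + 3) ≤ (n + j + k3) := by clear * - b2; omega
                    have kk389 : (n + i + j + k3) ≤ (2 * Q + k + l + m) := by clear * - b5 z20 z23; omega
                    have kk390 : (j + k + m + k3 + 2) ≤ (n + i + l + 2 * i2) := by clear * - b0 b5 v23 z20 z23 ev n1p n2p n3p; omega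
                    have kk391 : (3 * i + 3 * k + 3 * l + m + 6) ≤ (3 * n + j + 2 * i2 + k3) := by clear * - b2 y16 y6; omega
                    have kk392 : (i2) ≤ (i) := by clear * - y17; omega
                    have kk393 : (i + l + 1) ≤ (k) := by clear * - v22; omega
                    have kk394 : (i + m + 1) ≤ (k) := by clear * - b0 b4 b6 v24 z19 z20; omega
                    have kk395 : (Q + k) ≤ (2 * i + l + m + 2) := by clear * - v23; omega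
                    have kk396 : (k) ≤ (j + k3 + 1) := by clear * - z19; omega
                    have kk397 : (n + k3) ≤ (i + k + l + m + 2) := by clear * - b6; omega
                    have kk398 : (2 * i + 2 * l + i2 + m + 3) ≤ (n + j + k3) := by clear * - v24; omega
                    have kk399 : (i2 + m + 1) ≤ (k) := by clear * - b0 b4 b6 v24 y17 z19 z20; omega
                    have r400 : (2 * i + 2 * l - n + 2) % 2 = 0 := by clear * - ev n1p n2p n3p; omega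
                    have r401 : (n + j + k3 - i - k - l - m - 2) % 2 = 0 := by clear * - ev n1p n2p n3p; omega
                    clear * - al a1 b c1 tt D2 kk388 kk389 kk390 kk391 kk392 kk393 kk394 kk395 kk396 kk397 kk398 kk399 r400 r401
                    exact midP al (n + j + k3 - i - k - l - m - 2) (2 * i + 2 * l - n + 2) (i + k + l - n - i2 + 2) (i + l + m - n + 3) (n + j + k3 - i - k - l - m - 2) (by omega) (fun t h1 h2 => (cI (cE (pb c1 al (-1) t (t + (n + i2 - k - l - 1)) (by omega)) (qf b al 0 (t + (n + i2 - k - l - 1)) (t + (n + i2 - i - l - 1)) (by omega))) (ab tt al 0 (t + (n + i2 - i - l - 1)) ((2 * i + 2 * l - n + 2) - t) (by omega)))) (fun t h1 h2 => (cE (qf D2 al (-1) t (t + (n + k3 - i - l - m - 2)) (by omega)) (pb a1 al 0 (t + (n + k3 - i - l - m - 2)) (t + (n + j + k3 - i - k - l - m - 2)) (by omega))))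
                · have kk402 : (i + k + l + m + 3) ≤ (n + j + k3) := by clear * - b2; omega
                  have kk403 : (n + j + k + k3) ≤ (3 * i + 3 * l + 3 * m + 4) := by clear * - b4 b5 y18 z19 z20; omega
                  have kk404 : (j + k + m + k3 + 2) ≤ (n + i + l + 2 * i2) := by clear * - b0 b4 b5 y18 z19 z20 ev n1p n2p n3p; omega
                  have kk405 : (3 * i + 3 * k + 3 * l + m + 6) ≤ (3 * n + j + 2 * i2 + k3) := by clear * - b2 y16 y6; omega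
                  have kk406 : (i2) ≤ (i) := by clear * - y17; omega
                  have kk407 : (i + l + 1) ≤ (k) := by clear * - v22; omega
                  have kk408 : (i + m + 1) ≤ (k) := by clear * - b0 b4 b6 v22 z19 z20; omega
                  have kk409 : (2 * i + l + m + 2) ≤ (Q + k) := by clear * - v23; omega
                  have kk410 : (k) ≤ (j + k3 + 1) := by clear * - z19; omega
                  have kk411 : (n + k3) ≤ (i + k + l + m + 2) := by clear * - b6; omega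
                  have kk412 : (2 * i + 2 * l + i2 + m + 3) ≤ (n + j + k3) := by clear * - b4 v22 v23 y13 y6; omega
                  have kk413 : (i2 + m + 1) ≤ (k) := by clear * - b0 b4 b6 v22 y17 z19 z20; omega
                  have r414 : (2 * i + 2 * l - n + 2) % 2 = 0 := by clear * - ev n1p n2p n3p; omega
                  have r415 : (n + j + k3 - i - k - l - m - 2) % 2 = 0 := by clear * - ev n1p n2p n3p; omega
                  clear * - al a1 b c1 tt D2 kk402 kk403 kk404 kk405 kk406 kk407 kk408 kk409 kk410 kk411 kk412 kk413 r414 r415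
                  exact midP al (n + j + k3 - i - k - l - m - 2) (2 * i + 2 * l - n + 2) (i + k + l - n - i2 + 2) (i + l + m - n + 3) (n + j + k3 - i - k - l - m - 2) (by omega) (fun t h1 h2 => (cI (cE (pb c1 al (-1) t (t + (n + i2 - k - l - 1)) (by omega)) (qf b al 0 (t + (n + i2 - k - l - 1)) (t + (n + i2 - i - l - 1)) (by omega))) (ab tt al 0 (t + (n + i2 - i - l - 1)) ((2 * i + 2 * l - n + 2) - t) (by omega)))) (fun t h1 h2 => (cE (qf D2 al (-1) t (t + (n + k3 - i - l - m - 2)) (by omega)) (pb a1 al 0 (t + (n + k3 - i - l - m - 2)) (t + (n + j + k3 - i - k - l - m - 2)) (by omega))))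
              · by_cases v25 : (n + j + k3) ≤ (i + k + l + i2 + m + 2)
                · have kk416 : (i + k + l + m + 3) ≤ (n + j + k3) := by clear * - b2; omega
                  have kk417 : (5 * i + 3 * l + 2 * i2 + m + 6) ≤ (n + 2 * Q + j + k + k3) := by clear * - b0 b4 b6 y13 y17 z20 z23 z26; omega
                  have kk418 : (3 * i + k + 3 * l + 3 * m + 8) ≤ (3 * n + j + k3) := by clear * - b0 b3 b4 b6 z19 z20 z26; omega
                  have kk419 : (7 * i + 3 * k + 7 * l + 3 * m + 12) ≤ (5 * n + 3 * j + 3 * k3) := by clear * - z26; omega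
                  have kk420 : (i2) ≤ (i) := by clear * - y17; omega
                  have kk421 : (k) ≤ (i + l + 1) := by clear * - v22; omega
                  have kk422 : (i + m + 1) ≤ (k) := by clear * - b0 b1 b6 y17 z19; omega
                  have kk423 : (Q + k) ≤ (2 * i + l + m + 2) := by clear * - v22 y13 y18; omega
                  have kk424 : (k) ≤ (j + k3 + 1) := by clear * - z19; omega
                  have kk425 : (n + k3) ≤ (i + k + l + m + 2) := by clear * - b6; omega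
                  have kk426 : (n + j + k3) ≤ (2 * i + k + 2 * l + 2) := by clear * - b0 b6 v22 y17 z19 z20; omega
                  have kk427 : (n + j + k3) ≤ (i + k + l + i2 + m + 2) := by clear * - v25; omega
                  have r428 : (2 * i + 2 * l - n + 2) % 2 = 0 := by clear * - ev n1p n2p n3p; omega
                  have r429 : (n + j + k3 - i - k - l - m - 2) % 2 = 0 := by clear * - ev n1p n2p n3p; omega
                  clear * - al a1 b c1 tt D2 kk416 kk417 kk418 kk419 kk420 kk421 kk422 kk423 kk424 kk425 kk426 kk427 r428 r429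
                  exact midP al (n + j + k3 - i - k - l - m - 2) (2 * i + 2 * l - n + 2) (3 * i + k + 3 * l + m - 2 * n - j - k3 + 5) (i + l + m - n + 3) (n + j + k3 - i - k - l - m - 2) (by omega) (fun t h1 h2 => (cI (cE (pb c1 al (-1) t (t + (n + i2 - k - l - 1)) (by omega)) (qf b al 0 (t + (n + i2 - k - l - 1)) (t + (n + i2 - i - l - 1)) (by omega))) (ab tt al 0 (t + (n + i2 - i - l - 1)) ((2 * i + 2 * l - n + 2) - t) (by omega)))) (fun t h1 h2 => (cE (qf D2 al (-1) t (t + (n + k3 - i - l - m - 2)) (by omega)) (pb a1 al 0 (t + (n + k3 - i - l - m - 2)) (t + (n + j + k3 - i - k - l - m - 2)) (by omega))))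
                · have kk430 : (i + k + l + m + 3) ≤ (n + j + k3) := by clear * - b2; omega
                  have kk431 : (n + 3 * i + j + l + k3 + 2) ≤ (2 * Q + 3 * k + m) := by clear * - z24; omega
                  have kk432 : (i + j + l + m + k3 + 4) ≤ (n + k + 2 * i2) := by clear * - b0 b3 b6 v22 v25 z19 z20 z25; omega
                  have kk433 : (5 * i + k + 5 * l + m + 8) ≤ (3 * n + j + 2 * i2 + k3) := by clear * - z25; omega
                  have kk434 : (i2) ≤ (i) := by clear * - y17; omega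
                  have kk435 : (k) ≤ (i + l + 1) := by clear * - v22; omega
                  have kk436 : (i + m + 1) ≤ (k) := by clear * - b0 b6 v25 z19 z20; omega
                  have kk437 : (Q + k) ≤ (2 * i + l + m + 2) := by clear * - v22 y13 y18; omega
                  have kk438 : (k) ≤ (j + k3 + 1) := by clear * - z19; omega
                  have kk439 : (n + k3) ≤ (i + k + l + m + 2) := by clear * - b6; omega
                  have kk440 : (i + k + l + i2 + m + 2) ≤ (n + j + k3) := by clear * - v25; omega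
                  have kk441 : (i2 + m) ≤ (i + l) := by clear * - b0 b6 v22 v25 y17 z19 z20; omega
                  have r442 : (2 * i + 2 * l - n + 2) % 2 = 0 := by clear * - ev n1p n2p n3p; omega
                  have r443 : (n + j + k3 - i - k - l - m - 2) % 2 = 0 := by clear * - ev n1p n2p n3p; omega
                  clear * - al a1 b c1 tt D2 kk430 kk431 kk432 kk433 kk434 kk435 kk436 kk437 kk438 kk439 kk440 kk441 r442 r443
                  exact midP al (n + j + k3 - i - k - l - m - 2) (2 * i + 2 * l - n + 2) (2 * i + 2 * l - n - i2 + 3) (i + l + m - n + 3) (n + j + k3 - i - k - l - m - 2) (by omega) (fun t h1 h2 => (cI (cE (pb c1 al (-1) t (t + (n + i2 - k - l - 1)) (by omega)) (qf b al 0 (t + (n + i2 - k - l - 1)) (t + (n + i2 - i - l - 1)) (by omega))) (ab tt al 0 (t + (n + i2 - i - l - 1)) ((2 * i + 2 * l - n + 2) - t) (by omega)))) (fun t h1 h2 => (cE (qf D2 al (-1) t (t + (n + k3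 - i - l - m - 2)) (by omega)) (pb a1 al 0 (t + (n + k3 - i - l - m - 2)) (t + (n + j + k3 - i - k - l - m - 2)) (by omega))))
            · have kk444 : (j + k + l + 3) ≤ (n + i + i2) := by clear * - b0 b3 b6 y6 z19 z20 z25 z26; omega
              have kk445 : (n + i + j + i2) ≤ (2 * Q + k + l) := by clear * - b2 z20 z23 z26; omega
              have kk446 : (i2) ≤ (j) := by clear * - y1 y17; omega
              have r447 : (n + i + j + k + l - i2 + 1) % 2 = 0 := by clear * - ev n1p n2p n3p; omega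
              clear * - al s2 c1 kk444 kk445 kk446 r447
              obtain ⟨t, ht⟩ : ∃ t, 2 * t = (n + i + j + k + l - i2 + 1) := ⟨(n + i + j + k + l - i2 + 1) / 2, by omega⟩
              exact al.ninv t (cE (cI (pb c1 al 0 t (t + (i2 - k - l - 1)) (by omega)) (qa s2 al 0 (t + (i2 - k - l - 1)) ((i + j + k + l - i2 + 1) - t) (by omega))) (sh al 1 ((i + j + k + l - i2 + 1) - t) t (by omega)))
          · by_cases v26 : (n + i + j) ≤ (Q + k + l + 1)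
            · have kk448 : (k + l + 2) ≤ (n + i2) := by clear * - b0 y18 z19 z20; omega
              have kk449 : (k + l + i2 + 3) ≤ (n + 2 * i) := by clear * - b0 y17 y18 z19 z20; omega
              have kk450 : (3 * k + 3 * l + i2 + 5) ≤ (3 * n + 2 * i + 2 * j) := by clear * - b0 b3 b4 y18 z19 z20; omega
              have kk451 : (k + l + i2 + 3) ≤ (n + 2 * Q) := by clear * - b0 b3 b4 v26 y18 z19 z20; omega
              have kk452 : (n + i + j) ≤ (Q + k + l + 1) := by clear * - v26; omega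
              have r453 : (2 * n + i + j) % 2 = 0 := by clear * - ev n1p n2p n3p; omega
              have r454 : (n + i2 - k - l - 1) % 2 = 0 := by clear * - ev n1p n2p n3p; omega
              clear * - al s2 c1 kk448 kk449 kk450 kk451 kk452 r453 r454
              exact midP al (n + i2 - k - l - 1) (2 * n + i + j) (k + l + 2) (k + l + 2) (n + Q) (by omega) (fun t h1 h2 => (cE (ab s2 al 1 t ((n + i + j) - t) (by omega)) (sh al 1 ((n + i + j) - t) ((2 * n + i + j) - t) (by omega)))) (fun t h1 h2 => (cE (pb c1 al 0 t (t + (i2 - k - l - 1)) (by omega)) (sh al 1 (t + (i2 - k - l - 1)) (t + (n + i2 - k - l - 1)) (by omega))))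
            · have kk455 : (k + l + 2) ≤ (n + i2) := by clear * - b0 y18 z19 z20; omega
              have kk456 : (n + 2 * j + i2 + 1) ≤ (2 * Q + k + l) := by clear * - b0 b3 v26 y16 z19 z20 z23 z25; omega
              have kk457 : (k + l + i2 + 3) ≤ (n + 2 * Q) := by clear * - b0 b3 b5 v26 z19 z20 z23 z24 z25; omega
              have kk458 : (n + 2 * i + 2 * j + i2 + 1) ≤ (4 * Q + k + l) := by clear * - b0 b3 b5 v26 z19 z20 z23 z24 z25; omega
              have kk459 : (Q + k + l + 1) ≤ (n + i + j) := by clear * - v26; omega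
              have r460 : (2 * n + i + j) % 2 = 0 := by clear * - ev n1p n2p n3p; omega
              have r461 : (n + i2 - k - l - 1) % 2 = 0 := by clear * - ev n1p n2p n3p; omega
              clear * - al s2 c1 kk455 kk456 kk457 kk458 kk459 r460 r461
              exact midP al (n + i2 - k - l - 1) (2 * n + i + j) (n + i + j - Q + 1) (k + l + 2) (n + Q) (by omega) (fun t h1 h2 => (cE (ab s2 al 1 t ((n + i + j) - t) (by omega)) (sh al 1 ((n + i + j) - t) ((2 * n + i + j) - t) (by omega)))) (fun t h1 h2 => (cE (pb c1 al 0 t (t + (i2 - k - l - 1)) (by omega)) (sh al 1 (t + (i2 - k - l - 1)) (t + (n + i2 - k - l - 1)) (by omega))))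
        · have kk462 : (i + i2 + m + 2) ≤ (j + k3) := by clear * - b0 b6 y13 z20 z23 z24; omega
          have kk463 : (j + k3) ≤ (n + i + i2 + m) := by clear * - b1 b2 b3 b5 b6 z20 z23 z24; omega
          have kk464 : (k + l + 2) ≤ (n) := by clear * - b3 b6 y16 z20 z23 z24; omega
          have kk465 : (j + k3) ≤ (k + i2) := by clear * - b0 b6 y18 z19 z20; omega
          have kk466 : (Q + j) ≤ (k + i2 + 1) := by clear * - b0 b6 y13 y18 z19 z20; omega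
          have kk467 : (n + k3) ≤ (i + k + l + m + 2) := by clear * - b6; omega
          have kk468 : (n + j + k3) ≤ (Q + i + k + l + m + 2) := by clear * - b6 y2; omega
          clear * - al a2 c1 D2 kk462 kk463 kk464 kk465 kk466 kk467 kk468
          exact al.ubP (j + k3 - i - i2 - m - 1) (by omega) (by omega) fun t h1 h2 => (cE (cE (cE (qf D2 al (-1) t (t + (n + k3 - i - l - m - 2)) (by omega)) (pb a2 al 0 (t + (n + k3 - i - l - m - 2)) (t + (n + j + k3 - i - k - l - m - 2)) (by omega))) (qf c1 al 0 (t + (n + j + k3 - i - k - l - m - 2)) (t + (n + j + k3 - i - i2 - m - 1)) (by omega))) (sh al (-1) (t + (n + j + k3 - i - i2 - m - 1)) (t + (j + k3 - i - i2 - m - 1)) (by omega)))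

theorem ev7_11p
    (ev7_12 : ∀ {W : ℤ → G} {n Q i j k l i2 m k3 : ℤ} (al : AL W n Q) (hy : (0) ≤ (i) ∧ (i) ≤ (j) ∧ (j + 1) ≤ (Q) ∧ (Q) ≤ (k) ∧ (k + 1) ≤ (n) ∧ (Q) ≤ (i + l + 1) ∧ (k + l + 2) ≤ (n) ∧ (0) ≤ (i2) ∧ (i2 + 1) ≤ (Q) ∧ (Q + m + 1) ≤ (n + i2) ∧ (i2) ≤ (m) ∧ (Q) ≤ (i + l + m + 2) ∧ (i + l + m + 3) ≤ (n) ∧ (Q) ≤ (k3) ∧ (k3 + 1) ≤ (n) ∧ (i + m + 2) ≤ (k) ∧ (i) ≤ (i2) ∧ (i2) ≤ (i) ∧ (k3) ≤ (i + m)) (a1 : Par W (0) (j) (k - j)) (a2 : Par W (Q + j - k) (j) (k - j)) (s1 : Ant W (0) (i) (i + j)) (s2 : Ant W (j + 1) (Q) (i + j)) (b : Par W (i + 1) (i + l + 1) (k - i)) (c1 : Par W (i2 + 1) (Q) (k + l - i2 + 1)) (c2 : Par W (k + l + 2) (n) (i2 - k - l - 1)) (tt : Ant W (i2 - m) (i2) (i + l + i2 + 1)) (D1 : Par W (Q) (k3) (n + i2 - m - k3 - 1)) (D2 : Par W (i + l + m + 3) (n) (k3 - i - l - m - 2)) {L : ℤ} (mx : ∀ a b g, 0 < g → g < n → Par W a b g → b - a ≤ L) (hL : L ≤ (n - j - 3) ∧ L ≤ (n + Q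 - k - 3) ∧ L ≤ (n - l - 3) ∧ L ≤ (n + i - k - 2)) (bd0 : Bd W n L (j) (i) (k)) (n1 : Nd W (j) (i) (k)) (n2 : Nd W (i + l + 1) (i2) (k + l + 1)) (n3 : Nd W (n + i2 - m - 1) (i + l + m + 2) (k3)) (b0 : (i + l + 2 * m + 2) ≤ (n + i2)) (b1 : (2 * i + j + 1) ≤ (k)) (b2 : (2 * l + 3) ≤ (n)) (b3 : (k + i2) ≤ (i + j + l + 1)) (b4 : (n + k3) ≤ (2 * i + 2 * l + i2 + m + 4)) (b5 : (i + k + l + m + 3) ≤ (n + k3)) (b6 : (2 * Q + k + l + 1) ≤ (n + i + j + i2)), False)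
    {W : ℤ → G} {n Q i j k l i2 m k3 : ℤ} (al : AL W n Q)
    (hy : (0) ≤ (i) ∧ (i) ≤ (j) ∧ (j + 1) ≤ (Q) ∧ (Q) ≤ (k) ∧ (k + 1) ≤ (n) ∧ (Q) ≤ (i + l + 1) ∧ (k + l + 2) ≤ (n) ∧ (0) ≤ (i2) ∧ (i2 + 1) ≤ (Q) ∧ (Q + m + 1) ≤ (n + i2) ∧ (i2) ≤ (m) ∧ (Q) ≤ (i + l + m + 2) ∧ (i + l + m + 3) ≤ (n) ∧ (Q) ≤ (k3) ∧ (k3 + 1) ≤ (n) ∧ (i + m + 2) ≤ (k) ∧ (i) ≤ (i2) ∧ (i2) ≤ (i) ∧ (k3) ≤ (i + m))
    (a1 : Par W (0) (j) (k - j))
    (a2 : Par W (Q + j - k) (j) (k - j))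
    (s1 : Ant W (0) (i) (i + j))
    (s2 : Ant W (j + 1) (Q) (i + j))
    (b : Par W (i + 1) (i + l + 1) (k - i))
    (c1 : Par W (i2 + 1) (Q) (k + l - i2 + 1))
    (c2 : Par W (k + l + 2) (n) (i2 - k - l - 1))
    (tt : Ant W (i2 - m) (i2) (i + l + i2 + 1))
    (D1 : Par W (Q) (k3) (n + i2 - m - k3 - 1))
    (D2 : Par W (i + l + m + 3) (n) (k3 - i - l - m - 2))
    {L : ℤ} (mx : ∀ a b g, 0 < g → g < n → Par W a b g → b - a ≤ L)
    (hL : L ≤ (n - j - 3) ∧ L ≤ (n + Q - k - 3) ∧ L ≤ (n - l - 3) ∧ L ≤ (n + i - k - 2))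
    (bd0 : Bd W n L (j) (i) (k))
    (n1 : Nd W (j) (i) (k))
    (n2 : Nd W (i + l + 1) (i2) (k + l + 1))
    (n3 : Nd W (n + i2 - m - 1) (i + l + m + 2) (k3))
    (b0 : (i + l + 2 * m + 2) ≤ (n + i2))
    (b1 : (2 * i + j + 1) ≤ (k))
    (b2 : (2 * l + 3) ≤ (n))
    (b3 : (k + i2) ≤ (i + j + l + 1))
    (b4 : (n + k3) ≤ (2 * i + 2 * l + i2 + m + 4))
    (b5 : (i + k + l + m + 3) ≤ (n + k3)) : False := by
  have ev := al.ev
  obtain ⟨y0, y1, y2, y3, y4, y5, y6, y7, y8, y9, y10, y11, y12, y13, y14, y15, y16, y17, y18⟩ := id hy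
  have n1p := And.intro n1.p1 n1.p2
  have n2p := And.intro n2.p1 n2.p2
  have n3p := And.intro n3.p1 n3.p2
  by_cases z27 : (n + i + j + i2) ≤ (2 * Q + k + l)
  · by_cases z28 : (j + k + l + 3) ≤ (n + i + i2)
    · have kk469 : (j + k + l + 3) ≤ (n + i + i2) := by clear * - z28; omega
      have kk470 : (n + i + j + i2) ≤ (2 * Q + k + l) := by clear * - z27; omega
      have kk471 : (i2) ≤ (j) := by clear * - y1 y17; omega
      have r472 : (i + j + k + l - n - i2 + 1) % 2 = 0 := by clear * - ev n1p n2p n3p; omega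
      clear * - al s2 c1 kk469 kk470 kk471 r472
      obtain ⟨t, ht⟩ : ∃ t, 2 * t = (i + j + k + l - n - i2 + 1) := ⟨(i + j + k + l - n - i2 + 1) / 2, by omega⟩
      exact al.ninv t (cI (pb c1 al (-1) t (t + (n + i2 - k - l - 1)) (by omega)) (qa s2 al 0 (t + (n + i2 - k - l - 1)) t (by omega)))
    · have kk473 : (2 * k + 2) ≤ (n + 2 * i) := by clear * - b4 b5 y17 y18; omega
      have kk474 : (2 * i + 2 * l + 3) ≤ (n + 2 * i2) := by clear * - b2 y16; omega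
      have kk475 : (i) ≤ (i2) := by clear * - y16; omega
      have kk476 : (n + i2) ≤ (k + l + m + 2) := by clear * - y13 y18 z27 z28; omega
      have kk477 : (Q) ≤ (i + l + 1) := by clear * - b0 b1 b4 b5 y13 y17 y18 z28; omega
      have kk478 : (n + 2 * i2) ≤ (Q + k + l + 1) := by clear * - y17 z27 z28; omega
      have r479 : (n + 2 * i2) % 2 = 0 := by clear * - ev n1p n2p n3p; omega
      clear * - al b c1 tt kk473 kk474 kk475 kk476 kk477 kk478 r479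
      obtain ⟨t, ht⟩ : ∃ t, 2 * t = (n + 2 * i2) := ⟨(n + 2 * i2) / 2, by omega⟩
      exact al.ninv t (cI (cE (pb b al 0 t (t + (i - k)) (by omega)) (qf c1 al 0 (t + (i - k)) (t + (i + l - i2 + 1)) (by omega))) (qa tt al 1 (t + (i + l - i2 + 1)) t (by omega)))
  · exact ev7_12 al hy a1 a2 s1 s2 b c1 c2 tt D1 D2 mx hL bd0 n1 n2 n3 (by clear * - b0; omega) (by clear * - b1; omega) (by clear * - b2; omega) (by clear * - b3; omega) (by clear * - b4; omega) (by clear * - b5; omega) (by clear * - z27; omega)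

theorem h8_7p
    (h8_8 : ∀ {W : ℤ → G} {n Q i j k l i2 m k3 : ℤ} (al : AL W n Q) (hy : (0) ≤ (i) ∧ (i) ≤ (j) ∧ (j + 1) ≤ (Q) ∧ (Q) ≤ (k) ∧ (k + 1) ≤ (n) ∧ (Q) ≤ (i + l + 1) ∧ (k + l + 2) ≤ (n) ∧ (0) ≤ (i2) ∧ (i2 + 1) ≤ (Q) ∧ (Q + m + 1) ≤ (n + i2) ∧ (i2) ≤ (m) ∧ (Q) ≤ (i + l + m + 2) ∧ (i + l + m + 3) ≤ (n) ∧ (Q) ≤ (k3) ∧ (k3 + 1) ≤ (n) ∧ (i + m + 2) ≤ (k) ∧ (i) ≤ (i2) ∧ (i2) ≤ (i) ∧ (i + m + 2) ≤ (k3) ∧ (k3) ≤ (i + l + m + 1) ∧ (m + k3 + 2) ≤ (n + i2)) (a1 : Par W (0) (j) (k - j)) (a2 : Par W (Q + j - k) (j) (k - j)) (s1 : Ant W (0) (i) (i + j)) (s2 : Ant W (j + 1) (Q) (i + j)) (b : Par W (i + 1) (i + l + 1) (k - i)) (c1 : Par W (i2 + 1) (Q) (k + l - i2 + 1)) (c2 : Par W (k + l + 2) (n) (i2 - k - l - 1)) (tt : Ant W (i2 - m) (i2) (i + l + i2 + 1)) (D1 : Par W (Q) (k3) (n + i2 - m - k3 - 1)) (D2 : Par W (i + l + m + 3) (n) (k3 - i - l - m - 2)) {L : ℤ} (mx : ∀ a b g, 0 < g → g < n → Par W a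 b g → b - a ≤ L) (hL : L ≤ (n - j - 3) ∧ L ≤ (n + Q - k - 3) ∧ L ≤ (n - l - 3) ∧ L ≤ (n + i - k - 2)) (bd0 : Bd W n L (j) (i) (k)) (n1 : Nd W (j) (i) (k)) (n2 : Nd W (i + l + 1) (i2) (k + l + 1)) (n3 : Nd W (n + i2 - m - 1) (i + l + m + 2) (k3)) (b0 : (n + k3) ≤ (2 * i + 2 * l + i2 + m + 4)) (b1 : (i + l + 1) ≤ (i2 + 2 * m)) (b2 : (2 * i + j + 1) ≤ (k)) (b3 : (i + l + 2 * m + 3) ≤ (n + i2)) (b4 : (2 * i + k + 2 * l + 3 * m + k3 + 6) ≤ (2 * n + 2 * Q + j + i2)) (b5 : (2 * Q + k + l) ≤ (n + 2 * j + i2)), False)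
    {W : ℤ → G} {n Q i j k l i2 m k3 : ℤ} (al : AL W n Q)
    (hy : (0) ≤ (i) ∧ (i) ≤ (j) ∧ (j + 1) ≤ (Q) ∧ (Q) ≤ (k) ∧ (k + 1) ≤ (n) ∧ (Q) ≤ (i + l + 1) ∧ (k + l + 2) ≤ (n) ∧ (0) ≤ (i2) ∧ (i2 + 1) ≤ (Q) ∧ (Q + m + 1) ≤ (n + i2) ∧ (i2) ≤ (m) ∧ (Q) ≤ (i + l + m + 2) ∧ (i + l + m + 3) ≤ (n) ∧ (Q) ≤ (k3) ∧ (k3 + 1) ≤ (n) ∧ (i + m + 2) ≤ (k) ∧ (i) ≤ (i2) ∧ (i2) ≤ (i) ∧ (i + m + 2) ≤ (k3) ∧ (k3) ≤ (i + l + m + 1) ∧ (m + k3 + 2) ≤ (n + i2))
    (a1 : Par W (0) (j) (k - j))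
    (a2 : Par W (Q + j - k) (j) (k - j))
    (s1 : Ant W (0) (i) (i + j))
    (s2 : Ant W (j + 1) (Q) (i + j))
    (b : Par W (i + 1) (i + l + 1) (k - i))
    (c1 : Par W (i2 + 1) (Q) (k + l - i2 + 1))
    (c2 : Par W (k + l + 2) (n) (i2 - k - l - 1))
    (tt : Ant W (i2 - m) (i2) (i + l + i2 + 1))
    (D1 : Par W (Q) (k3) (n + i2 - m - k3 - 1))
    (D2 : Par W (i + l + m + 3) (n) (k3 - i - l - m - 2))
    {L : ℤ} (mx : ∀ a b g, 0 < g → g < n → Par W a b g → b - a ≤ L)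
    (hL : L ≤ (n - j - 3) ∧ L ≤ (n + Q - k - 3) ∧ L ≤ (n - l - 3) ∧ L ≤ (n + i - k - 2))
    (bd0 : Bd W n L (j) (i) (k))
    (n1 : Nd W (j) (i) (k))
    (n2 : Nd W (i + l + 1) (i2) (k + l + 1))
    (n3 : Nd W (n + i2 - m - 1) (i + l + m + 2) (k3))
    (b0 : (n + k3) ≤ (2 * i + 2 * l + i2 + m + 4))
    (b1 : (i + l + 1) ≤ (i2 + 2 * m))
    (b2 : (2 * i + j + 1) ≤ (k))
    (b3 : (i + l + 2 * m + 3) ≤ (n + i2))
    (b4 : (2 * i + k + 2 * l + 3 * m + k3 + 6) ≤ (2 * n + 2 * Q + j + i2)) : False := by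
  have ev := al.ev
  obtain ⟨y0, y1, y2, y3, y4, y5, y6, y7, y8, y9, y10, y11, y12, y13, y14, y15, y16, y17, y18, y19, y20⟩ := id hy
  have n1p := And.intro n1.p1 n1.p2
  have n2p := And.intro n2.p1 n2.p2
  have n3p := And.intro n3.p1 n3.p2
  by_cases z9 : (n + 2 * j + i2 + 1) ≤ (2 * Q + k + l)
  · have kk54 : (k + l + 2) ≤ (n + i2) := by clear * - b0 b1 b3 y17 y18 y6; omega
    have kk55 : (n + 2 * j + i2 + 1) ≤ (2 * Q + k + l) := by clear * - z9; omega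
    have kk56 : (k + l + i2 + 3) ≤ (n + 2 * i) := by clear * - b0 b1 b3 y17 y18 y6; omega
    have kk57 : (i) ≤ (Q) := by clear * - y16 y8; omega
    have kk58 : (k + l + 1) ≤ (n + j) := by clear * - b0 b1 b3 y1 y17 y18 y6; omega
    have r59 : (i + j) % 2 = 0 := by clear * - ev n1p n2p n3p; omega
    have r60 : (n + i2 - k - l - 1) % 2 = 0 := by clear * - ev n1p n2p n3p; omega
    clear * - al s2 c1 kk54 kk55 kk56 kk57 kk58 r59 r60
    exact midP al (n + i2 - k - l - 1) (i + j) (j + 1) (k + l - n + 2) (Q) (by omega) (fun t h1 h2 => (qa s2 al 0 t ((i + j) - t) (by omega))) (fun t h1 h2 => (pb c1 al (-1) t (t + (n + i2 - k - l - 1)) (by omega)))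
  · exact h8_8 al hy a1 a2 s1 s2 b c1 c2 tt D1 D2 mx hL bd0 n1 n2 n3 (by clear * - b0; omega) (by clear * - b1; omega) (by clear * - b2; omega) (by clear * - b3; omega) (by clear * - b4; omega) (by clear * - z9; omega)

theorem h8_49p
    (h8_50 : ∀ {W : ℤ → G} {n Q i j k l i2 m k3 : ℤ} (al : AL W n Q) (hy : (0) ≤ (i) ∧ (i) ≤ (j) ∧ (j + 1) ≤ (Q) ∧ (Q) ≤ (k) ∧ (k + 1) ≤ (n) ∧ (Q) ≤ (i + l + 1) ∧ (k + l + 2) ≤ (n) ∧ (0) ≤ (i2) ∧ (i2 + 1) ≤ (Q) ∧ (Q + m + 1) ≤ (n + i2) ∧ (i2) ≤ (m) ∧ (Q) ≤ (i + l + m + 2) ∧ (i + l + m + 3) ≤ (n) ∧ (Q) ≤ (k3) ∧ (k3 + 1) ≤ (n) ∧ (i + m + 2) ≤ (k) ∧ (i) ≤ (i2) ∧ (i2) ≤ (i) ∧ (i + m + 2) ≤ (k3) ∧ (k3) ≤ (i + l + m + 1) ∧ (m + k3 + 2) ≤ (n + i2)) (a1 : Par W (0) (j) (k - j)) (a2 : Par W (Q + j - k) (j) (k - j)) (s1 : Ant W (0) (i) (i + j)) (s2 : Ant W (j + 1) (Q) (i + j)) (b : Par W (i + 1) (i + l + 1) (k - i)) (c1 : Par W (i2 + 1) (Q) (k + l - i2 + 1)) (c2 : Par W (k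 + l + 2) (n) (i2 - k - l - 1)) (tt : Ant W (i2 - m) (i2) (i + l + i2 + 1)) (D1 : Par W (Q) (k3) (n + i2 - m - k3 - 1)) (D2 : Par W (i + l + m + 3) (n) (k3 - i - l - m - 2)) {L : ℤ} (mx : ∀ a b g, 0 < g → g < n → Par W a b g → b - a ≤ L) (hL : L ≤ (n - j - 3) ∧ L ≤ (n + Q - k - 3) ∧ L ≤ (n - l - 3) ∧ L ≤ (n + i - k - 2)) (bd0 : Bd W n L (j) (i) (k)) (n1 : Nd W (j) (i) (k)) (n2 : Nd W (i + l + 1) (i2) (k + l + 1)) (n3 : Nd W (n + i2 - m - 1) (i + l + m + 2) (k3)) (b0 : (2 * l + 3) ≤ (n)) (b1 : (2 * i + j + 1) ≤ (k)) (b2 : (k + i2 + m + 1) ≤ (i + k3)) (b3 : (i + k) ≤ (2 * j + 1)) (b4 : (i + m + k3 + 3) ≤ (Q + k + i2)) (b5 : (2 * Q + k + 2 * l + 2 * m + 4) ≤ (n + j + 2 * k3)) (b6 : (n + i2 + k3) ≤ (i + j + 2 * l + 3 * m + 4)) (b7 : (4 * k + l + 2) ≤ (n + 2 * i + i2)) (b8 : (n + Q) ≤ (i + 2 * l + 2 * m + 4)), False)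
    {W : ℤ → G} {n Q i j k l i2 m k3 : ℤ} (al : AL W n Q)
    (hy : (0) ≤ (i) ∧ (i) ≤ (j) ∧ (j + 1) ≤ (Q) ∧ (Q) ≤ (k) ∧ (k + 1) ≤ (n) ∧ (Q) ≤ (i + l + 1) ∧ (k + l + 2) ≤ (n) ∧ (0) ≤ (i2) ∧ (i2 + 1) ≤ (Q) ∧ (Q + m + 1) ≤ (n + i2) ∧ (i2) ≤ (m) ∧ (Q) ≤ (i + l + m + 2) ∧ (i + l + m + 3) ≤ (n) ∧ (Q) ≤ (k3) ∧ (k3 + 1) ≤ (n) ∧ (i + m + 2) ≤ (k) ∧ (i) ≤ (i2) ∧ (i2) ≤ (i) ∧ (i + m + 2) ≤ (k3) ∧ (k3) ≤ (i + l + m + 1) ∧ (m + k3 + 2) ≤ (n + i2))
    (a1 : Par W (0) (j) (k - j))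
    (a2 : Par W (Q + j - k) (j) (k - j))
    (s1 : Ant W (0) (i) (i + j))
    (s2 : Ant W (j + 1) (Q) (i + j))
    (b : Par W (i + 1) (i + l + 1) (k - i))
    (c1 : Par W (i2 + 1) (Q) (k + l - i2 + 1))
    (c2 : Par W (k + l + 2) (n) (i2 - k - l - 1))
    (tt : Ant W (i2 - m) (i2) (i + l + i2 + 1))
    (D1 : Par W (Q) (k3) (n + i2 - m - k3 - 1))
    (D2 : Par W (i + l + m + 3) (n) (k3 - i - l - m - 2))
    {L : ℤ} (mx : ∀ a b g, 0 < g → g < n → Par W a b g → b - a ≤ L)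
    (hL : L ≤ (n - j - 3) ∧ L ≤ (n + Q - k - 3) ∧ L ≤ (n - l - 3) ∧ L ≤ (n + i - k - 2))
    (bd0 : Bd W n L (j) (i) (k))
    (n1 : Nd W (j) (i) (k))
    (n2 : Nd W (i + l + 1) (i2) (k + l + 1))
    (n3 : Nd W (n + i2 - m - 1) (i + l + m + 2) (k3))
    (b0 : (2 * l + 3) ≤ (n))
    (b1 : (2 * i + j + 1) ≤ (k))
    (b2 : (n + k3) ≤ (i + k + 2 * l + m + 3))
    (b3 : (k + i2 + m + 1) ≤ (i + k3))
    (b4 : (i + k) ≤ (2 * j + 1))
    (b5 : (i + m + k3 + 3) ≤ (Q + k + i2))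
    (b6 : (2 * Q + k + 2 * l + 2 * m + 4) ≤ (n + j + 2 * k3))
    (b7 : (n + i2 + k3) ≤ (i + j + 2 * l + 3 * m + 4))
    (b8 : (4 * k + l + 2) ≤ (n + 2 * i + i2))
    (b9 : (n + j) ≤ (i + 2 * l + 2 * m + 3)) : False := by
  have ev := al.ev
  obtain ⟨y0, y1, y2, y3, y4, y5, y6, y7, y8, y9, y10, y11, y12, y13, y14, y15, y16, y17, y18, y19, y20⟩ := id hy
  have n1p := And.intro n1.p1 n1.p2
  have n2p := And.intro n2.p1 n2.p2
  have n3p := And.intro n3.p1 n3.p2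
  by_cases z94 : (i + 2 * l + 2 * m + 5) ≤ (n + Q)
  · by_cases z95 : (Q + i2) ≤ (i + j + m + 1)
    · have kk1082 : (n + j) ≤ (i + 2 * l + 2 * m + 3) := by clear * - b9; omega
      have kk1083 : (i + 2 * l + 2 * m + 5) ≤ (2 * n + j) := by clear * - b1 b3 b5 b6 b7 b8 b9 z94 z95; omega
      have kk1084 : (i2) ≤ (i) := by clear * - y17; omega
      have kk1085 : (k3) ≤ (i + l + 1) := by clear * - b1 b3 b5 b6 b7 b8 b9 z94 z95; omega
      have kk1086 : (2 * i + 2 * l + 2 * m + 5) ≤ (n + Q + i2) := by clear * - y16 z94; omega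
      have kk1087 : (Q + i2) ≤ (i + j + m + 1) := by clear * - z95; omega
      have kk1088 : (Q + i + 2 * l + 2 * m + 4) ≤ (n + j + k3) := by clear * - b1 b5 b6 b7 b9 z94 z95; omega
      have kk1089 : (Q + i + 2 * l + i2 + m + 3) ≤ (n + j + k3) := by clear * - b1 b5 b6 b7 b9 z94 z95; omega
      clear * - al s2 tt D1 D2 kk1082 kk1083 kk1084 kk1085 kk1086 kk1087 kk1088 kk1089
      exact al.ubQ (i + 2 * l + 2 * m - n - j + 4) (by omega) (by omega) fun t h1 h2 => (cE (cE (cII (qa s2 al 0 t ((i + j) - t) (by omega)) (qa tt al 0 ((i + j) - t) (t + (l + i2 - j + 1)) (by omega))) (pb D2 al 0 (t + (l + i2 - j + 1)) (t + (i + 2 * l + i2 + m - j - k3 + 3)) (by omega))) (pb D1 al 0 (t + (i + 2 * l + i2 + m - j - k3 + 3)) (t + (i + 2 * l + 2 * m - n - j + 4)) (by omega)))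
    · have kk1090 : (k + i2 + m + 2) ≤ (i + k3) := by clear * - b6 b7 y17 z95; omega
      have kk1091 : (i + k3) ≤ (n + k + i2 + m) := by clear * - b0 b1 b2 b6 b7 b8 b9 z94 z95; omega
      have kk1092 : (i + k3) ≤ (Q + k + m) := by clear * - b0 b1 b5 b6 b7 b9 z94; omega
      have kk1093 : (Q + k + l + 1) ≤ (n + i2) := by clear * - b0 b1 b2 b6 b7 b8 b9 z94 z95; omega
      have kk1094 : (i + m + 1) ≤ (k) := by clear * - b1 b2 b5 b6 b7 b9 z94 z95; omega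
      have kk1095 : (k + m + 1) ≤ (k3) := by clear * - b3 b6 b7 z95; omega
      have kk1096 : (i + m + 1) ≤ (k3) := by clear * - b1 b3 b5 b6 b7 b9 z94 z95; omega
      have kk1097 : (n + k3) ≤ (2 * k + 2 * l + m + 3) := by clear * - b0 b1 b2 b6 b7 b9 z94 z95; omega
      have kk1098 : (n + k3) ≤ (i + k + 2 * l + m + 3) := by clear * - b2; omega
      clear * - al b c2 D2 kk1090 kk1091 kk1092 kk1093 kk1094 kk1095 kk1096 kk1097 kk1098
      exact al.ubQ (i + k3 - k - i2 - m - 1) (by omega) (by omega) fun t h1 h2 => (cE (sh al (-1) t (t + (-n)) (by omega)) (cE (cE (qf (show Par W (i2 + 1) (n + i2 - k - l - 1) (k + k3 - i - i2 - m - 1) from fun t h1 h2 => (cE (sh al (-1) t (t + (-n)) (by omega)) (cE (pb c2 al (-1) (t + (-n)) (t + (k + l - i2 + 1)) (by omega)) (qf D2 al 0 (t + (k + l - i2 + 1)) (t + (k + k3 - i - i2 - m - 1)) (by omega))))) al (-1) (t + (-n)) (t + (k + k3 - i - i2 - m - 1)) (by omega))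 (pb b al 0 (t + (k + k3 - i - i2 - m - 1)) (t + (k3 - i2 - m - 1)) (by omega))) (pb b al 0 (t + (k3 - i2 - m - 1)) (t + (i + k3 - k - i2 - m - 1)) (by omega))))
  · exact h8_50 al hy a1 a2 s1 s2 b c1 c2 tt D1 D2 mx hL bd0 n1 n2 n3 (by clear * - b0; omega) (by clear * - b1; omega) (by clear * - b3; omega) (by clear * - b4; omega) (by clear * - b5; omega) (by clear * - b6; omega) (by clear * - b7; omega) (by clear * - b8; omega) (by clear * - z94; omega)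

theorem h8_45p
    (h8_46 : ∀ {W : ℤ → G} {n Q i j k l i2 m k3 : ℤ} (al : AL W n Q) (hy : (0) ≤ (i) ∧ (i) ≤ (j) ∧ (j + 1) ≤ (Q) ∧ (Q) ≤ (k) ∧ (k + 1) ≤ (n) ∧ (Q) ≤ (i + l + 1) ∧ (k + l + 2) ≤ (n) ∧ (0) ≤ (i2) ∧ (i2 + 1) ≤ (Q) ∧ (Q + m + 1) ≤ (n + i2) ∧ (i2) ≤ (m) ∧ (Q) ≤ (i + l + m + 2) ∧ (i + l + m + 3) ≤ (n) ∧ (Q) ≤ (k3) ∧ (k3 + 1) ≤ (n) ∧ (i + m + 2) ≤ (k) ∧ (i) ≤ (i2) ∧ (i2) ≤ (i) ∧ (i + m + 2) ≤ (k3) ∧ (k3) ≤ (i + l + m + 1) ∧ (m + k3 + 2) ≤ (n + i2)) (a1 : Par W (0) (j) (k - j)) (a2 : Par W (Q + j - k) (j) (k - j)) (s1 : Ant W (0) (i) (i + j)) (s2 : Ant W (j + 1) (Q) (i + j)) (b : Par W (i + 1) (i + l + 1) (k - i)) (c1 : Par W (i2 + 1) (Q) (k + l - i2 + 1)) (c2 : Par W (k + l + 2) (n) (i2 - k - l - 1)) (tt : Ant W (i2 - m) (i2) (i + l + i2 + 1)) (D1 : Par W (Q) (k3) (n + i2 - m - k3 - 1)) (D2 : Par W (i + l + m + 3) (n) (k3 - i - l - m - 2)) {L : ℤ} (mx : ∀ a b g, 0 < g → g < n → Par W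 a b g → b - a ≤ L) (hL : L ≤ (n - j - 3) ∧ L ≤ (n + Q - k - 3) ∧ L ≤ (n - l - 3) ∧ L ≤ (n + i - k - 2)) (bd0 : Bd W n L (j) (i) (k)) (n1 : Nd W (j) (i) (k)) (n2 : Nd W (i + l + 1) (i2) (k + l + 1)) (n3 : Nd W (n + i2 - m - 1) (i + l + m + 2) (k3)) (b0 : (2 * l + 3) ≤ (n)) (b1 : (2 * i + j + 1) ≤ (k)) (b2 : (n + k3) ≤ (i + k + 2 * l + m + 3)) (b3 : (k + i2 + m + 1) ≤ (i + k3)) (b4 : (i + k) ≤ (2 * j + 1)) (b5 : (i + m + k3 + 3) ≤ (Q + k + i2)) (b6 : (i2 + 1) ≤ (m)) (b7 : (2 * k + l + m + k3 + 2) ≤ (n + i + 2 * i2)) (b8 : (2 * Q + k + 2 * l + 2 * m + 4) ≤ (n + j + 2 * k3)) (b9 : (i + j + 2 * l + 3 * m + 5) ≤ (n + i2 + k3)), False)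
    (h8_47 : ∀ {W : ℤ → G} {n Q i j k l i2 m k3 : ℤ} (al : AL W n Q) (hy : (0) ≤ (i) ∧ (i) ≤ (j) ∧ (j + 1) ≤ (Q) ∧ (Q) ≤ (k) ∧ (k + 1) ≤ (n) ∧ (Q) ≤ (i + l + 1) ∧ (k + l + 2) ≤ (n) ∧ (0) ≤ (i2) ∧ (i2 + 1) ≤ (Q) ∧ (Q + m + 1) ≤ (n + i2) ∧ (i2) ≤ (m) ∧ (Q) ≤ (i + l + m + 2) ∧ (i + l + m + 3) ≤ (n) ∧ (Q) ≤ (k3) ∧ (k3 + 1) ≤ (n) ∧ (i + m + 2) ≤ (k) ∧ (i) ≤ (i2) ∧ (i2) ≤ (i) ∧ (i + m + 2) ≤ (k3) ∧ (k3) ≤ (i + l + m + 1) ∧ (m + k3 + 2) ≤ (n + i2)) (a1 : Par W (0) (j) (k - j)) (a2 : Par W (Q + j - k) (j) (k - j)) (s1 : Ant W (0) (i) (i + j)) (s2 : Ant W (j + 1) (Q) (i + j)) (b : Par W (i + 1) (i + l + 1) (k - i)) (c1 : Par W (i2 + 1) (Q) (k + l - i2 + 1)) (c2 : Par W (k + l + 2) (n) (i2 - k - l - 1)) (tt : Ant W (i2 - m) (i2) (i + l + i2 + 1)) (D1 : Par W (Q) (k3) (n + i2 - m - k3 - 1)) (D2 : Par W (i + l + m + 3) (n) (k3 - i - l - m - 2)) {L : ℤ} (mx : ∀ a b g, 0 < g → g < n → Par W a b g → b - a ≤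 L) (hL : L ≤ (n - j - 3) ∧ L ≤ (n + Q - k - 3) ∧ L ≤ (n - l - 3) ∧ L ≤ (n + i - k - 2)) (bd0 : Bd W n L (j) (i) (k)) (n1 : Nd W (j) (i) (k)) (n2 : Nd W (i + l + 1) (i2) (k + l + 1)) (n3 : Nd W (n + i2 - m - 1) (i + l + m + 2) (k3)) (b0 : (2 * l + 3) ≤ (n)) (b1 : (2 * i + j + 1) ≤ (k)) (b2 : (n + k3) ≤ (i + k + 2 * l + m + 3)) (b3 : (k + i2 + m + 1) ≤ (i + k3)) (b4 : (i + k) ≤ (2 * j + 1)) (b5 : (i + m + k3 + 3) ≤ (Q + k + i2)) (b6 : (2 * k + l + m + k3 + 2) ≤ (n + i + 2 * i2)) (b7 : (2 * Q + k + 2 * l + 2 * m + 4) ≤ (n + j + 2 * k3)) (b8 : (n + i2 + k3) ≤ (i + j + 2 * l + 3 * m + 4)), False)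
    {W : ℤ → G} {n Q i j k l i2 m k3 : ℤ} (al : AL W n Q)
    (hy : (0) ≤ (i) ∧ (i) ≤ (j) ∧ (j + 1) ≤ (Q) ∧ (Q) ≤ (k) ∧ (k + 1) ≤ (n) ∧ (Q) ≤ (i + l + 1) ∧ (k + l + 2) ≤ (n) ∧ (0) ≤ (i2) ∧ (i2 + 1) ≤ (Q) ∧ (Q + m + 1) ≤ (n + i2) ∧ (i2) ≤ (m) ∧ (Q) ≤ (i + l + m + 2) ∧ (i + l + m + 3) ≤ (n) ∧ (Q) ≤ (k3) ∧ (k3 + 1) ≤ (n) ∧ (i + m + 2) ≤ (k) ∧ (i) ≤ (i2) ∧ (i2) ≤ (i) ∧ (i + m + 2) ≤ (k3) ∧ (k3) ≤ (i + l + m + 1) ∧ (m + k3 + 2) ≤ (n + i2))
    (a1 : Par W (0) (j) (k - j))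
    (a2 : Par W (Q + j - k) (j) (k - j))
    (s1 : Ant W (0) (i) (i + j))
    (s2 : Ant W (j + 1) (Q) (i + j))
    (b : Par W (i + 1) (i + l + 1) (k - i))
    (c1 : Par W (i2 + 1) (Q) (k + l - i2 + 1))
    (c2 : Par W (k + l + 2) (n) (i2 - k - l - 1))
    (tt : Ant W (i2 - m) (i2) (i + l + i2 + 1))
    (D1 : Par W (Q) (k3) (n + i2 - m - k3 - 1))
    (D2 : Par W (i + l + m + 3) (n) (k3 - i - l - m - 2))
    {L : ℤ} (mx : ∀ a b g, 0 < g → g < n → Par W a b g → b - a ≤ L)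
    (hL : L ≤ (n - j - 3) ∧ L ≤ (n + Q - k - 3) ∧ L ≤ (n - l - 3) ∧ L ≤ (n + i - k - 2))
    (bd0 : Bd W n L (j) (i) (k))
    (n1 : Nd W (j) (i) (k))
    (n2 : Nd W (i + l + 1) (i2) (k + l + 1))
    (n3 : Nd W (n + i2 - m - 1) (i + l + m + 2) (k3))
    (b0 : (2 * l + 3) ≤ (n))
    (b1 : (2 * i + j + 1) ≤ (k))
    (b2 : (n + k3) ≤ (i + k + 2 * l + m + 3))
    (b3 : (k + i2 + m + 1) ≤ (i + k3))
    (b4 : (i + k) ≤ (2 * j + 1))
    (b5 : (i + m + k3 + 3) ≤ (Q + k + i2))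
    (b6 : (i2 + 1) ≤ (m))
    (b7 : (2 * k + l + m + k3 + 2) ≤ (n + i + 2 * i2))
    (b8 : (2 * Q + k + 2 * l + 2 * m + 4) ≤ (n + j + 2 * k3)) : False := by
  have ev := al.ev
  obtain ⟨y0, y1, y2, y3, y4, y5, y6, y7, y8, y9, y10, y11, y12, y13, y14, y15, y16, y17, y18, y19, y20⟩ := id hy
  have n1p := And.intro n1.p1 n1.p2
  have n2p := And.intro n2.p1 n2.p2
  have n3p := And.intro n3.p1 n3.p2
  by_cases z81 : (i + j + 2 * l + 3 * m + 5) ≤ (n + i2 + k3)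
  · exact h8_46 al hy a1 a2 s1 s2 b c1 c2 tt D1 D2 mx hL bd0 n1 n2 n3 (by clear * - b0; omega) (by clear * - b1; omega) (by clear * - b2; omega) (by clear * - b3; omega) (by clear * - b4; omega) (by clear * - b5; omega) (by clear * - b6; omega) (by clear * - b7; omega) (by clear * - b8; omega) (by clear * - z81; omega)
  · exact h8_47 al hy a1 a2 s1 s2 b c1 c2 tt D1 D2 mx hL bd0 n1 n2 n3 (by clear * - b0; omega) (by clear * - b1; omega) (by clear * - b2; omega) (by clear * - b3; omega) (by clear * - b4; omega) (by clear * - b5; omega) (by clear * - b7; omega) (by clear * - b8; omega) (by clear * - z81; omega)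

theorem h8_39p
    (h8_40 : ∀ {W : ℤ → G} {n Q i j k l i2 m k3 : ℤ} (al : AL W n Q) (hy : (0) ≤ (i) ∧ (i) ≤ (j) ∧ (j + 1) ≤ (Q) ∧ (Q) ≤ (k) ∧ (k + 1) ≤ (n) ∧ (Q) ≤ (i + l + 1) ∧ (k + l + 2) ≤ (n) ∧ (0) ≤ (i2) ∧ (i2 + 1) ≤ (Q) ∧ (Q + m + 1) ≤ (n + i2) ∧ (i2) ≤ (m) ∧ (Q) ≤ (i + l + m + 2) ∧ (i + l + m + 3) ≤ (n) ∧ (Q) ≤ (k3) ∧ (k3 + 1) ≤ (n) ∧ (i + m + 2) ≤ (k) ∧ (i) ≤ (i2) ∧ (i2) ≤ (i) ∧ (i + m + 2) ≤ (k3) ∧ (k3) ≤ (i + l + m + 1) ∧ (m + k3 + 2) ≤ (n + i2)) (a1 : Par W (0) (j) (k - j)) (a2 : Par W (Q + j - k) (j) (k - j)) (s1 : Ant W (0) (i) (i + j)) (s2 : Ant W (j + 1) (Q) (i + j)) (b : Par W (i + 1) (i + l + 1) (k - i)) (c1 : Par W (i2 + 1) (Q) (k + l - i2 + 1)) (c2 : Par W (k + l + 2) (n) (i2 - k - l - 1)) (tt : Ant W (i2 - m) (i2) (i + l + i2 + 1)) (D1 : Par W (Q) (k3) (n + i2 - m - k3 - 1)) (D2 : Par W (i + l + m + 3) (n) (k3 - i - l - m - 2)) {L : ℤ} (mx : ∀ a b g, 0 < g → g < n → Par W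 a b g → b - a ≤ L) (hL : L ≤ (n - j - 3) ∧ L ≤ (n + Q - k - 3) ∧ L ≤ (n - l - 3) ∧ L ≤ (n + i - k - 2)) (bd0 : Bd W n L (j) (i) (k)) (n1 : Nd W (j) (i) (k)) (n2 : Nd W (i + l + 1) (i2) (k + l + 1)) (n3 : Nd W (n + i2 - m - 1) (i + l + m + 2) (k3)) (b0 : (2 * l + 3) ≤ (n)) (b1 : (2 * i + j + 1) ≤ (k)) (b2 : (n + k3) ≤ (i + k + 2 * l + m + 3)) (b3 : (k + i2 + m + 1) ≤ (i + k3)) (b4 : (2 * i + 2 * l + 3 * m + 6) ≤ (n + i2 + k3)) (b5 : (k + l + m + k3 + 3) ≤ (n + 2 * i2)) (b6 : (3 * k + l + 2) ≤ (n + i + i2)) (b7 : (i + k) ≤ (2 * j + 1)) (b8 : (2 * Q + 2 * k + l) ≤ (n + 2 * i + j + i2)), False)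
    {W : ℤ → G} {n Q i j k l i2 m k3 : ℤ} (al : AL W n Q)
    (hy : (0) ≤ (i) ∧ (i) ≤ (j) ∧ (j + 1) ≤ (Q) ∧ (Q) ≤ (k) ∧ (k + 1) ≤ (n) ∧ (Q) ≤ (i + l + 1) ∧ (k + l + 2) ≤ (n) ∧ (0) ≤ (i2) ∧ (i2 + 1) ≤ (Q) ∧ (Q + m + 1) ≤ (n + i2) ∧ (i2) ≤ (m) ∧ (Q) ≤ (i + l + m + 2) ∧ (i + l + m + 3) ≤ (n) ∧ (Q) ≤ (k3) ∧ (k3 + 1) ≤ (n) ∧ (i + m + 2) ≤ (k) ∧ (i) ≤ (i2) ∧ (i2) ≤ (i) ∧ (i + m + 2) ≤ (k3) ∧ (k3) ≤ (i + l + m + 1) ∧ (m + k3 + 2) ≤ (n + i2))
    (a1 : Par W (0) (j) (k - j))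
    (a2 : Par W (Q + j - k) (j) (k - j))
    (s1 : Ant W (0) (i) (i + j))
    (s2 : Ant W (j + 1) (Q) (i + j))
    (b : Par W (i + 1) (i + l + 1) (k - i))
    (c1 : Par W (i2 + 1) (Q) (k + l - i2 + 1))
    (c2 : Par W (k + l + 2) (n) (i2 - k - l - 1))
    (tt : Ant W (i2 - m) (i2) (i + l + i2 + 1))
    (D1 : Par W (Q) (k3) (n + i2 - m - k3 - 1))
    (D2 : Par W (i + l + m + 3) (n) (k3 - i - l - m - 2))
    {L : ℤ} (mx : ∀ a b g, 0 < g → g < n → Par W a b g → b - a ≤ L)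
    (hL : L ≤ (n - j - 3) ∧ L ≤ (n + Q - k - 3) ∧ L ≤ (n - l - 3) ∧ L ≤ (n + i - k - 2))
    (bd0 : Bd W n L (j) (i) (k))
    (n1 : Nd W (j) (i) (k))
    (n2 : Nd W (i + l + 1) (i2) (k + l + 1))
    (n3 : Nd W (n + i2 - m - 1) (i + l + m + 2) (k3))
    (b0 : (2 * l + 3) ≤ (n))
    (b1 : (2 * i + j + 1) ≤ (k))
    (b2 : (n + k3) ≤ (i + k + 2 * l + m + 3))
    (b3 : (k + i2 + m + 1) ≤ (i + k3))
    (b4 : (2 * i + 2 * l + 3 * m + 6) ≤ (n + i2 + k3))
    (b5 : (k + l + m + k3 + 3) ≤ (n + 2 * i2))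
    (b6 : (3 * k + l + 2) ≤ (n + i + i2))
    (b7 : (i + k) ≤ (2 * j + 1)) : False := by
  have ev := al.ev
  obtain ⟨y0, y1, y2, y3, y4, y5, y6, y7, y8, y9, y10, y11, y12, y13, y14, y15, y16, y17, y18, y19, y20⟩ := id hy
  have n1p := And.intro n1.p1 n1.p2
  have n2p := And.intro n2.p1 n2.p2
  have n3p := And.intro n3.p1 n3.p2
  by_cases z75 : (n + 2 * i + j + i2 + 1) ≤ (2 * Q + 2 * k + l)
  · have kk900 : (j + 2 * k + l + 3) ≤ (n + 2 * i + i2) := by clear * - b0 b1 b2 b3 b6 y16; omega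
    have kk901 : (n + 2 * i + j + i2) ≤ (2 * Q + 2 * k + l) := by clear * - z75; omega
    have kk902 : (i2) ≤ (k) := by clear * - b0 b1 b2 b3 b7 y18; omega
    have kk903 : (i) ≤ (j) := by clear * - b0 b1 b2 b7 y18; omega
    have kk904 : (Q) ≤ (i + l + 1) := by clear * - b0 b1 b2 b3 b5 b6 b7 y13 z75; omega
    have kk905 : (Q + 2 * k + l + 1) ≤ (n + i + i2) := by clear * - b6 y3; omega
    have r906 : (n + j + 2 * k + l - i2 + 1) % 2 = 0 := by clear * - ev n1p n2p n3p; omega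
    clear * - al s2 b c2 kk900 kk901 kk902 kk903 kk904 kk905 r906
    obtain ⟨t, ht⟩ : ∃ t, 2 * t = (n + j + 2 * k + l - i2 + 1) := ⟨(n + j + 2 * k + l - i2 + 1) / 2, by omega⟩
    exact al.ninv t (cE (cI (cE (qf c2 al 0 t (t + (i2 - k - l - 1)) (by omega)) (pb b al 0 (t + (i2 - k - l - 1)) (t + (i + i2 - 2 * k - l - 1)) (by omega))) (qa s2 al 0 (t + (i + i2 - 2 * k - l - 1)) ((j + 2 * k + l - i2 + 1) - t) (by omega))) (sh al 1 ((j + 2 * k + l - i2 + 1) - t) t (by omega)))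
  · exact h8_40 al hy a1 a2 s1 s2 b c1 c2 tt D1 D2 mx hL bd0 n1 n2 n3 (by clear * - b0; omega) (by clear * - b1; omega) (by clear * - b2; omega) (by clear * - b3; omega) (by clear * - b4; omega) (by clear * - b5; omega) (by clear * - b6; omega) (by clear * - b7; omega) (by clear * - z75; omega)

theorem h8_75p
    {W : ℤ → G} {n Q i j k l i2 m k3 : ℤ} (al : AL W n Q)
    (hy : (0) ≤ (i) ∧ (i) ≤ (j) ∧ (j + 1) ≤ (Q) ∧ (Q) ≤ (k) ∧ (k + 1) ≤ (n) ∧ (Q) ≤ (i + l + 1) ∧ (k + l + 2) ≤ (n) ∧ (0) ≤ (i2) ∧ (i2 + 1) ≤ (Q) ∧ (Q + m + 1) ≤ (n + i2) ∧ (i2) ≤ (m) ∧ (Q) ≤ (i + l + m + 2) ∧ (i + l + m + 3) ≤ (n) ∧ (Q) ≤ (k3) ∧ (k3 + 1) ≤ (n) ∧ (i + m + 2) ≤ (k) ∧ (i) ≤ (i2) ∧ (i2) ≤ (i) ∧ (i + m + 2) ≤ (k3) ∧ (k3) ≤ (i + l + m + 1) ∧ (m + k3 + 2) ≤ (n + i2))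
    (a1 : Par W (0) (j) (k - j))
    (a2 : Par W (Q + j - k) (j) (k - j))
    (s1 : Ant W (0) (i) (i + j))
    (s2 : Ant W (j + 1) (Q) (i + j))
    (b : Par W (i + 1) (i + l + 1) (k - i))
    (c1 : Par W (i2 + 1) (Q) (k + l - i2 + 1))
    (c2 : Par W (k + l + 2) (n) (i2 - k - l - 1))
    (tt : Ant W (i2 - m) (i2) (i + l + i2 + 1))
    (D1 : Par W (Q) (k3) (n + i2 - m - k3 - 1))
    (D2 : Par W (i + l + m + 3) (n) (k3 - i - l - m - 2))
    {L : ℤ} (mx : ∀ a b g, 0 < g → g < n → Par W a b g → b - a ≤ L)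
    (hL : L ≤ (n - j - 3) ∧ L ≤ (n + Q - k - 3) ∧ L ≤ (n - l - 3) ∧ L ≤ (n + i - k - 2))
    (bd0 : Bd W n L (j) (i) (k))
    (n1 : Nd W (j) (i) (k))
    (n2 : Nd W (i + l + 1) (i2) (k + l + 1))
    (n3 : Nd W (n + i2 - m - 1) (i + l + m + 2) (k3))
    (b0 : (2 * l + 3) ≤ (n))
    (b1 : (2 * i + 2 * l + 3 * m + 5) ≤ (n + i2 + k3))
    (b2 : (k + i2 + 1) ≤ (Q + j + m))
    (b3 : (2 * i + j + 1) ≤ (k))
    (b4 : (2 * Q + k + l) ≤ (n + 2 * j + i2))
    (b5 : (m + k3) ≤ (i + l + 2 * i2 + 1))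
    (b6 : (1) ≤ (m))
    (b7 : (Q + k3) ≤ (i + l + i2 + m + 2))
    (b8 : (n + i2) ≤ (Q + k + l))
    (b9 : (n + j + i2) ≤ (2 * k + l)) : False := by
  have ev := al.ev
  obtain ⟨y0, y1, y2, y3, y4, y5, y6, y7, y8, y9, y10, y11, y12, y13, y14, y15, y16, y17, y18, y19, y20⟩ := id hy
  have n1p := And.intro n1.p1 n1.p2
  have n2p := And.intro n2.p1 n2.p2
  have n3p := And.intro n3.p1 n3.p2
  by_cases z172 : (2 * k + l + 2) ≤ (n + Q + j)
  · have kk2176 : (n + j + i2) ≤ (2 * k + l) := by clear * - b9; omega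
    have kk2177 : (2 * k + l + 2) ≤ (2 * n + j + i2) := by clear * - b0 b7 b9 y18 z172; omega
    have kk2178 : (2 * k + l + 2) ≤ (n + Q + j) := by clear * - z172; omega
    have kk2179 : (Q + k + l + 1) ≤ (n + j + i2) := by clear * - b4 y6 y7; omega
    clear * - al a2 c1 kk2176 kk2177 kk2178 kk2179
    exact al.ubQ (2 * k + l - n - j - i2 + 1) (by omega) (by omega) fun t h1 h2 => (cE (sh al (-1) t (t + (-n)) (by omega)) (cE (qf c1 al (-1) (t + (-n)) (t + (k + l - i2 + 1)) (by omega)) (qf a2 al 1 (t + (k + l - i2 + 1)) (t + (2 * k + l - n - j - i2 + 1)) (by omega))))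
  · by_cases z173 : (k) ≤ (i + 2 * j)
    · have kk2180 : (k) ≤ (i + 2 * j) := by clear * - z173; omega
      have kk2181 : (2 * Q) ≤ (i + k + 1) := by clear * - y6 z172 z173; omega
      have kk2182 : (i + j + 1) ≤ (k) := by clear * - b3 y17 y7; omega
      have kk2183 : (j + 1) ≤ (Q) := by clear * - y2; omega
      have r2184 : (i + 2 * j - k) % 2 = 0 := by clear * - ev n1p n2p n3p; omega
      clear * - al a2 s1 kk2180 kk2181 kk2182 kk2183 r2184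
      obtain ⟨t, ht⟩ : ∃ t, 2 * t = (i + 2 * j - k) := ⟨(i + 2 * j - k) / 2, by omega⟩
      exact al.ninv t (cE (qa s1 al 0 t ((i + j) - t) (by omega)) (pb a2 al 0 ((i + j) - t) t (by omega)))
    · by_cases z174 : (n + k3) ≤ (Q + k + l + m + 2)
      · have kk2185 : (i2 + m + 2) ≤ (k3) := by clear * - y17 y18; omega
        have kk2186 : (k3) ≤ (n + i2 + m) := by clear * - b6 y20; omega
        have kk2187 : (i + k + l + 2) ≤ (n + i2) := by clear * - y16 y6; omega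
        have kk2188 : (i2) ≤ (i) := by clear * - y17; omega
        have kk2189 : (k3) ≤ (k) := by clear * - b1 b2 b4 b6 b7 y17 z172 z173 z174; omega
        have kk2190 : (n + k3) ≤ (i + k + 2 * l + m + 3) := by clear * - b7 b8; omega
        have kk2191 : (n + k3) ≤ (Q + k + l + m + 2) := by clear * - z174; omega
        clear * - al b c1 D2 kk2185 kk2186 kk2187 kk2188 kk2189 kk2190 kk2191
        exact al.ubP (k3 - i2 - m - 1) (by omega) (by omega) fun t h1 h2 => (cE (cE (cE (qf D2 al (-1) t (t + (n + k3 - i - l - m - 2)) (by omega)) (pb b al 0 (t + (n + k3 - i - l - m - 2)) (t + (n + k3 - k - l - m - 2)) (by omega))) (qf c1 al 0 (t + (n + k3 - k - l - m - 2)) (t + (n + k3 - i2 - m - 1)) (by omega))) (sh al (-1) (t + (n + k3 - i2 - m - 1)) (t + (k3 - i2 - m - 1)) (by omega)))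
      · by_cases z175 : (3 * i + j + 2 * l + m + 5) ≤ (2 * k + i2 + k3)
        · by_cases z176 : (2 * Q + j + k3) ≤ (3 * i + 2 * l + i2 + m + 4)
          · by_cases z177 : (i + j + m + k3 + 3) ≤ (2 * k + i2)
            · by_cases z178 : (k) ≤ (i + l + m + 2)
              · by_cases v56 : (3 * i + 2 * l + 2 * m + 4) ≤ (2 * k + k3)
                · by_cases v57 : (i + l + 1) ≤ (k3)
                  · by_cases v58 : (2 * i + l + m + 3) ≤ (Q + k)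
                    · have kk2192 : (2 * k + i2 + k3) ≤ (3 * i + j + 2 * l + 3 * m + 3) := by clear * - b2 z176; omega
                      have kk2193 : (2 * Q + j + k3) ≤ (3 * i + 2 * l + i2 + m + 4) := by clear * - z176; omega
                      have kk2194 : (k) ≤ (i + l + m + 2) := by clear * - z178; omega
                      have kk2195 : (k + l + 1) ≤ (n) := by clear * - y6; omega
                      have kk2196 : (2 * i + l + 2 * m + 3) ≤ (k + k3) := by clear * - b1 b2 z172; omega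
                      have kk2197 : (3 * i + 2 * l + 2 * m + 4) ≤ (2 * k + k3) := by clear * - v56; omega
                      have kk2198 : (i + l + 1) ≤ (k3) := by clear * - v57; omega
                      have kk2199 : (2 * i + l + m + 3) ≤ (Q + k) := by clear * - v58; omega
                      have r2200 : (3 * i + j + 2 * l + i2 + m - 2 * n - 2 * k - k3 + 3) % 2 = 0 := by clear * - ev n1p n2p n3p; omega
                      clear * - al a2 b tt D2 kk2192 kk2193 kk2194 kk2195 kk2196 kk2197 kk2198 kk2199 r2200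
                      obtain ⟨t, ht⟩ : ∃ t, 2 * t = (3 * i + j + 2 * l + i2 + m - 2 * n - 2 * k - k3 + 3) := ⟨(3 * i + j + 2 * l + i2 + m - 2 * n - 2 * k - k3 + 3) / 2, by omega⟩
                      exact al.ninv t (cE (cE (cE (qa tt al (-1) t ((i + l + i2 - n + 1) - t) (by omega)) (pb (show Par W (2 * i + l + m - k + 3) (i + l + 1) (k + k3 - 2 * i - l - m - 2) from fun t h1 h2 => (cE (sh al (-1) t (t + (-n)) (by omega)) (cE (qf b al (-1) (t + (-n)) (t + (k - i)) (by omega)) (qf D2 al 0 (t + (k - i)) (t + (k + k3 - 2 * i - l - m - 2)) (by omega))))) al 0 ((i + l + i2 - n + 1) - t) ((3 * i + 2 * l + i2 + m - n - k - k3 + 3) - t) (by omega))) (pb a2 al 0 ((3 * i + 2 * l + i2 + m - n - k - k3 + 3) - t) ((3 * i + j + 2 * l + i2 + m - n - 2 * k - k3 + 3) - t) (by omega))) (sh al (-1) ((3 * i + j + 2 * l + i2 + m - n - 2 * k - k3 + 3) - t) t (by omega)))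
                    · have kk2201 : (2 * k + i2 + k3) ≤ (3 * i + j + 2 * l + 3 * m + 3) := by clear * - b2 v58 z177; omega
                      have kk2202 : (i + j + m + k3 + 2) ≤ (2 * k + i2) := by clear * - z177; omega
                      have kk2203 : (k) ≤ (i + l + m + 2) := by clear * - z178; omega
                      have kk2204 : (k + l + 1) ≤ (n) := by clear * - y6; omega
                      have kk2205 : (2 * i + l + 2 * m + 3) ≤ (k + k3) := by clear * - b1 b2 z172; omega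
                      have kk2206 : (3 * i + 2 * l + 2 * m + 4) ≤ (2 * k + k3) := by clear * - v56; omega
                      have kk2207 : (i + l + 1) ≤ (k3) := by clear * - v57; omega
                      have kk2208 : (Q + k) ≤ (2 * i + l + m + 3) := by clear * - v58; omega
                      have r2209 : (3 * i + j + 2 * l + i2 + m - 2 * n - 2 * k - k3 + 3) % 2 = 0 := by clear * - ev n1p n2p n3p; omega
                      clear * - al a2 b tt D2 kk2201 kk2202 kk2203 kk2204 kk2205 kk2206 kk2207 kk2208 r2209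
                      obtain ⟨t, ht⟩ : ∃ t, 2 * t = (3 * i + j + 2 * l + i2 + m - 2 * n - 2 * k - k3 + 3) := ⟨(3 * i + j + 2 * l + i2 + m - 2 * n - 2 * k - k3 + 3) / 2, by omega⟩
                      exact al.ninv t (cE (cE (cE (qa tt al (-1) t ((i + l + i2 - n + 1) - t) (by omega)) (pb (show Par W (2 * i + l + m - k + 3) (i + l + 1) (k + k3 - 2 * i - l - m - 2) from fun t h1 h2 => (cE (sh al (-1) t (t + (-n)) (by omega)) (cE (qf b al (-1) (t + (-n)) (t + (k - i)) (by omega)) (qf D2 al 0 (t + (k - i)) (t + (k + k3 - 2 * i - l - m - 2)) (by omega))))) al 0 ((i + l + i2 - n + 1) - t) ((3 * i + 2 * l + i2 + m - n - k - k3 + 3) - t) (by omega))) (pb a2 al 0 ((3 * i + 2 * l + i2 + m - n - k - k3 + 3) - t) ((3 * i + j + 2 * l + i2 + m - n - 2 * k - k3 + 3) - t) (by omega))) (sh al (-1) ((3 * i + j + 2 * l + i2 + m - n - 2 * k - k3 + 3) - t) t (by omega)))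
                  · by_cases v59 : (3 * i + 2 * l + m + 4) ≤ (Q + k + k3)
                    · have kk2210 : (2 * k + i2 + k3) ≤ (3 * i + j + 2 * l + 3 * m + 3) := by clear * - b2 z176; omega
                      have kk2211 : (2 * Q + j + k3) ≤ (3 * i + 2 * l + i2 + m + 4) := by clear * - z176; omega
                      have kk2212 : (k) ≤ (i + l + m + 2) := by clear * - z178; omega
                      have kk2213 : (k + l + 1) ≤ (n) := by clear * - y6; omega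
                      have kk2214 : (2 * i + l + 2 * m + 3) ≤ (k + k3) := by clear * - b1 b2 z172; omega
                      have kk2215 : (3 * i + 2 * l + 2 * m + 4) ≤ (2 * k + k3) := by clear * - v56; omega
                      have kk2216 : (3 * i + 2 * l + m + 4) ≤ (Q + k + k3) := by clear * - v59; omega
                      have kk2217 : (2 * i + l + m + 3) ≤ (Q + k) := by clear * - v57 v59; omega
                      have r2218 : (3 * i + j + 2 * l + i2 + m - 2 * n - 2 * k - k3 + 3) % 2 = 0 := by clear * - ev n1p n2p n3p; omega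
                      clear * - al a2 b tt D2 kk2210 kk2211 kk2212 kk2213 kk2214 kk2215 kk2216 kk2217 r2218
                      obtain ⟨t, ht⟩ : ∃ t, 2 * t = (3 * i + j + 2 * l + i2 + m - 2 * n - 2 * k - k3 + 3) := ⟨(3 * i + j + 2 * l + i2 + m - 2 * n - 2 * k - k3 + 3) / 2, by omega⟩
                      exact al.ninv t (cE (cE (cE (qa tt al (-1) t ((i + l + i2 - n + 1) - t) (by omega)) (pb (show Par W (2 * i + l + m - k + 3) (i + l + 1) (k + k3 - 2 * i - l - m - 2) from fun t h1 h2 => (cE (sh al (-1) t (t + (-n)) (by omega)) (cE (qf b al (-1) (t + (-n)) (t + (k - i)) (by omega)) (qf D2 al 0 (t + (k - i)) (t + (k + k3 - 2 * i - l - m - 2)) (by omega))))) al 0 ((i + l + i2 - n + 1) - t) ((3 * i + 2 * l + i2 + m - n - k - k3 + 3) - t) (by omega))) (pb a2 al 0 ((3 * i + 2 * l + i2 + m - n - k - k3 + 3) - t) ((3 * i + j + 2 * l + i2 + m - n - 2 * k - k3 + 3) - t) (by omega))) (sh al (-1) ((3 *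 i + j + 2 * l + i2 + m - n - 2 * k - k3 + 3) - t) t (by omega)))
                    · have kk2219 : (2 * k + i2 + k3) ≤ (3 * i + j + 2 * l + 3 * m + 3) := by clear * - b2 z176; omega
                      have kk2220 : (3 * i + j + 2 * l + m + 4) ≤ (2 * k + i2 + k3) := by clear * - z175; omega
                      have kk2221 : (k) ≤ (i + l + m + 2) := by clear * - z178; omega
                      have kk2222 : (k + l + 1) ≤ (n) := by clear * - y6; omega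
                      have kk2223 : (2 * i + l + 2 * m + 3) ≤ (k + k3) := by clear * - b1 b2 z172; omega
                      have kk2224 : (3 * i + 2 * l + 2 * m + 4) ≤ (2 * k + k3) := by clear * - v56; omega
                      have kk2225 : (k3) ≤ (i + l + 1) := by clear * - v57; omega
                      have kk2226 : (Q + k + k3) ≤ (3 * i + 2 * l + m + 4) := by clear * - v59; omega
                      have r2227 : (3 * i + j + 2 * l + i2 + m - 2 * n - 2 * k - k3 + 3) % 2 = 0 := by clear * - ev n1p n2p n3p; omega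
                      clear * - al a2 b tt D2 kk2219 kk2220 kk2221 kk2222 kk2223 kk2224 kk2225 kk2226 r2227
                      obtain ⟨t, ht⟩ : ∃ t, 2 * t = (3 * i + j + 2 * l + i2 + m - 2 * n - 2 * k - k3 + 3) := ⟨(3 * i + j + 2 * l + i2 + m - 2 * n - 2 * k - k3 + 3) / 2, by omega⟩
                      exact al.ninv t (cE (cE (cE (qa tt al (-1) t ((i + l + i2 - n + 1) - t) (by omega)) (pb (show Par W (2 * i + l + m - k + 3) (i + l + 1) (k + k3 - 2 * i - l - m - 2) from fun t h1 h2 => (cE (sh al (-1) t (t + (-n)) (by omega)) (cE (qf b al (-1) (t + (-n)) (t + (k - i)) (by omega)) (qf D2 al 0 (t + (k - i)) (t + (k + k3 - 2 * i - l - m - 2)) (by omega))))) al 0 ((i + l + i2 - n + 1) - t) ((3 * i + 2 * l + i2 + m - n - k - k3 + 3) - t) (by omega))) (pb a2 al 0 ((3 * i + 2 * l + i2 + m - n - k - k3 + 3) - t) ((3 * i + j + 2 * l + i2 + m - n - 2 * k - k3 + 3) - t) (by omega))) (sh al (-1) ((3 *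 i + j + 2 * l + i2 + m - n - 2 * k - k3 + 3) - t) t (by omega)))
                · by_cases v60 : (i + l + 1) ≤ (k3)
                  · have kk2228 : (3 * i + 2 * l + i2 + m + 5) ≤ (j + 2 * k + k3) := by clear * - b0 b1 b2 b7 z172; omega
                    have kk2229 : (i + j + m + k3 + 2) ≤ (2 * k + i2) := by clear * - z177; omega
                    have kk2230 : (k) ≤ (i + l + m + 2) := by clear * - z178; omega
                    have kk2231 : (k + l + 1) ≤ (n) := by clear * - y6; omega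
                    have kk2232 : (2 * k + k3) ≤ (3 * i + 2 * l + 2 * m + 4) := by clear * - v56; omega
                    have kk2233 : (k) ≤ (i + l + 1) := by clear * - b1 b2 v56 z172; omega
                    have kk2234 : (i + l + 1) ≤ (k3) := by clear * - v60; omega
                    have kk2235 : (Q + k) ≤ (2 * i + l + m + 3) := by clear * - b4 b5 b8 v56 v60 y17 z172 z174; omega
                    have r2236 : (3 * i + j + 2 * l + i2 + m - 2 * n - 2 * k - k3 + 3) % 2 = 0 := by clear * - ev n1p n2p n3p; omega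
                    clear * - al a2 b tt D2 kk2228 kk2229 kk2230 kk2231 kk2232 kk2233 kk2234 kk2235 r2236
                    obtain ⟨t, ht⟩ : ∃ t, 2 * t = (3 * i + j + 2 * l + i2 + m - 2 * n - 2 * k - k3 + 3) := ⟨(3 * i + j + 2 * l + i2 + m - 2 * n - 2 * k - k3 + 3) / 2, by omega⟩
                    exact al.ninv t (cE (cE (cE (qa tt al (-1) t ((i + l + i2 - n + 1) - t) (by omega)) (pb (show Par W (2 * i + l + m - k + 3) (i + l + 1) (k + k3 - 2 * i - l - m - 2) from fun t h1 h2 => (cE (sh al (-1) t (t + (-n)) (by omega)) (cE (qf b al (-1) (t + (-n)) (t + (k - i)) (by omega)) (qf D2 al 0 (t + (k - i)) (t + (k + k3 - 2 * i - l - m - 2)) (by omega))))) al 0 ((i + l + i2 - n + 1) - t) ((3 * i + 2 * l + i2 + m - n - k - k3 + 3) - t) (by omega))) (pb a2 al 0 ((3 * i + 2 * l + i2 + m - n - k - k3 + 3) - t) ((3 * i + j + 2 * l + i2 + m - n - 2 * k - k3 + 3) - t) (by omega))) (sh al (-1) ((3 * i + j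 + 2 * l + i2 + m - n - 2 * k - k3 + 3) - t) t (by omega)))
                  · have kk2237 : (3 * i + 2 * l + i2 + m + 5) ≤ (j + 2 * k + k3) := by clear * - b0 b1 b2 b7 z172; omega
                    have kk2238 : (3 * i + j + 2 * l + m + 4) ≤ (2 * k + i2 + k3) := by clear * - z175; omega
                    have kk2239 : (k) ≤ (i + l + m + 2) := by clear * - z178; omega
                    have kk2240 : (k + l + 1) ≤ (n) := by clear * - y6; omega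
                    have kk2241 : (2 * k + k3) ≤ (3 * i + 2 * l + 2 * m + 4) := by clear * - v56; omega
                    have kk2242 : (k) ≤ (i + l + 1) := by clear * - b1 b2 v56 z172; omega
                    have kk2243 : (k3) ≤ (i + l + 1) := by clear * - v60; omega
                    have kk2244 : (Q + k + k3) ≤ (3 * i + 2 * l + m + 4) := by clear * - b4 b5 b8 v56 v60 y17 z172 z174; omega
                    have r2245 : (3 * i + j + 2 * l + i2 + m - 2 * n - 2 * k - k3 + 3) % 2 = 0 := by clear * - ev n1p n2p n3p; omega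
                    clear * - al a2 b tt D2 kk2237 kk2238 kk2239 kk2240 kk2241 kk2242 kk2243 kk2244 r2245
                    obtain ⟨t, ht⟩ : ∃ t, 2 * t = (3 * i + j + 2 * l + i2 + m - 2 * n - 2 * k - k3 + 3) := ⟨(3 * i + j + 2 * l + i2 + m - 2 * n - 2 * k - k3 + 3) / 2, by omega⟩
                    exact al.ninv t (cE (cE (cE (qa tt al (-1) t ((i + l + i2 - n + 1) - t) (by omega)) (pb (show Par W (2 * i + l + m - k + 3) (i + l + 1) (k + k3 - 2 * i - l - m - 2) from fun t h1 h2 => (cE (sh al (-1) t (t + (-n)) (by omega)) (cE (qf b al (-1) (t + (-n)) (t + (k - i)) (by omega)) (qf D2 al 0 (t + (k - i)) (t + (k + k3 - 2 * i - l - m - 2)) (by omega))))) al 0 ((i + l + i2 - n + 1) - t) ((3 * i + 2 * l + i2 + m - n - k - k3 + 3) - t) (by omega))) (pb a2 al 0 ((3 * i + 2 * l + i2 + m - n - k - k3 + 3) - t) ((3 * i + j + 2 * l + i2 + m - n - 2 * k - k3 + 3) - t) (by omega))) (sh al (-1) ((3 * i + j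 + 2 * l + i2 + m - n - 2 * k - k3 + 3) - t) t (by omega)))
              · have kk2246 : (n + i2 + 2 * k3) ≤ (3 * i + 3 * l + 4 * m + 5) := by clear * - b2 b7 y2 z172 z176 z178; omega
                have kk2247 : (3 * i + 3 * l + i2 + 2 * m + 6) ≤ (n + 2 * k3) := by clear * - b2 y16 y2 z172 z174 z178; omega
                have kk2248 : (i + l + 2 * m + 3) ≤ (n + i2) := by clear * - b2 b5 z172 z173 z174 z175 z177 z178; omega
                have kk2249 : (2 * i + 2 * l + 2 * m + 4) ≤ (n + k3) := by clear * - b2 b5 z172 z173 z174 z175 z178; omega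
                have kk2250 : (k3) ≤ (i + l + i2 + 1) := by clear * - b2 b5 z176 z177; omega
                have kk2251 : (0) ≤ (i2) := by clear * - y7; omega
                have r2252 : (i + l + i2 - n + 1) % 2 = 0 := by clear * - ev n1p n2p n3p; omega
                clear * - al tt D2 kk2246 kk2247 kk2248 kk2249 kk2250 kk2251 r2252
                obtain ⟨t, ht⟩ : ∃ t, 2 * t = (i + l + i2 - n + 1) := ⟨(i + l + i2 - n + 1) / 2, by omega⟩
                exact al.ninv t (cE (cE (cI (pb D2 al (-1) t (t + (n + i + l + m - k3 + 2)) (by omega)) (qa tt al 1 (t + (n + i + l + m - k3 + 2)) ((i2 + k3 - m - 1) - t) (by omega))) (pb D2 al 0 ((i2 + k3 - m - 1) - t) ((i + l + i2 + 1) - t) (by omega))) (sh al (-1) ((i + l + i2 + 1) - t) t (by omega)))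
            · have kk2253 : (n + i + i2) ≤ (k + m + k3) := by clear * - b2 z172 z175 z177; omega
              have kk2254 : (k + m + k3 + 2) ≤ (2 * n + i + i2) := by clear * - b0 b2 b4 b5 b9 z173 z174; omega
              have kk2255 : (Q + k + m + 1) ≤ (n + i + i2) := by clear * - b1 b2 z176; omega
              have kk2256 : (k + m + k3 + 2) ≤ (n + Q + i2) := by clear * - b1 b2 b5 b7 y17 z173; omega
              have kk2257 : (n + i2) ≤ (k + l + m + 2) := by clear * - b2 z172; omega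
              clear * - al b D1 kk2253 kk2254 kk2255 kk2256 kk2257
              exact al.ubQ (k + m + k3 - n - i - i2 + 1) (by omega) (by omega) fun t h1 h2 => (cE (sh al 1 t (t + (n)) (by omega)) (cE (qf b al 1 (t + (n)) (t + (k - i)) (by omega)) (pb D1 al 0 (t + (k - i)) (t + (k + m + k3 - n - i - i2 + 1)) (by omega))))
          · have kk2258 : (j + 1) ≤ (k) := by clear * - b0 b5 b6 b8 b9 z173 z174; omega
            have kk2259 : (Q) ≤ (k) := by clear * - b0 b7 b8 z172 z174 z176; omega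
            have kk2260 : (Q + j) ≤ (k + i2) := by clear * - b0 b7 y7 z172 z173 z174; omega
            have kk2261 : (i2 + 1) ≤ (k) := by clear * - b0 b2 b5 b7 b9 z174 z176; omega
            have kk2262 : (n + Q + j) ≤ (2 * k + l + 1) := by clear * - z172; omega
            have kk2263 : (l + 2) ≤ (n) := by clear * - b0 b2 b5 b7 z172 z173 z174 z176; omega
            have kk2264 : (n + Q + j) ≤ (2 * k + l + 2) := by clear * - z172; omega
            have kk2265 : (Q + j) ≤ (k + i2 + 1) := by clear * - b0 b7 y7 z172 z173 z174; omega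
            have kk2266 : (k + l + 1) ≤ (n + i2) := by clear * - y6 y7; omega
            have kk2267 : (k + i2) ≤ (Q + j + m) := by clear * - b2; omega
            have kk2268 : (i + l + i2 + 2) ≤ (Q + j) := by clear * - b7 y17 z176; omega
            have kk2269 : (i2) ≤ (k) := by clear * - b0 b2 b5 b7 b9 z174 z176; omega
            have kk2270 : (Q + j) ≤ (i + k + l + 2) := by clear * - b0 b5 b6 b7 b8 z172 z173 z174; omega
            have r2271 : (k + l - n - i2 + 1) % 2 = 0 := by clear * - ev n1p n2p n3p; omega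
            have r2272 : (k - j) % 2 = 0 := by clear * - ev n1p n2p n3p; omega
            have r2273 : (i + l + i2 - 2 * n + 1) % 2 = 0 := by clear * - ev n1p n2p n3p; omega
            clear * - al a2 c1 tt n2 kk2258 kk2259 kk2260 kk2261 kk2262 kk2263 kk2264 kk2265 kk2266 kk2267 kk2268 kk2269 kk2270 r2271 r2272 r2273
            exact ivt al.ninv (Q + j - n - k) (j - n) (k - j) (i2 - n + 1) (Q - n) (k + l - n - i2 + 1) (i2 - n) (k + l - 2 * n + 1) 0 (fun t h1 h2 => (cE (qf a2 al (-1) t (t + (n + k - j)) (by omega)) (sh al (-1) (t + (n + k - j)) (t + (k - j)) (by omega)))) (fun t h1 h2 => (cE (sh al 2 t (t + (2 * n)) (by omega)) (cE (qf c1 al 1 (t + (2 * n)) (t + (n + k + l - i2 + 1)) (by omega)) (sh al (-2) (t + (n + k + l - i2 + 1)) (t + (k + l - n - i2 + 1)) (by omega))))) (fun hh => n2.f1 (rEE (sh al (-1) (i2) (i2 - n) (by omega)) (sh al (-2) (k + l + 1) (k + l - 2 * n + 1) (by omega)) (Eq.symm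 hh))) (by omega) (Q + j - n - k) (i2 - n) (i + l + i2 - 2 * n + 1) 0 (-1) (fun t h1 h2 => (cE (qa tt al (-1) t ((i + l + i2 - n + 1) - t) (by omega)) (sh al (-1) ((i + l + i2 - n + 1) - t) ((i + l + i2 - 2 * n + 1) - t) (by omega)))) (by omega)
        · by_cases z179 : (2 * i + l + i2 + 1) ≤ (Q + j + k)
          · by_cases z180 : (n + 2 * i + 2 * i2 + 1) ≤ (2 * Q + 2 * k)
            · by_cases v61 : (2 * i + l + m + 2) ≤ (Q + k)
              · by_cases v62 : (2 * i + l + 1) ≤ (k + i2)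
                · have kk2274 : (n + 2 * i2) ≤ (2 * i + 2 * l + 2 * m + 2) := by clear * - b2 y17 y7 z172 z173 z174 z175; omega
                  have kk2275 : (2 * k + 1) ≤ (n + 2 * i) := by clear * - b0 y2 y7 z174 z175; omega
                  have kk2276 : (i + m + 1) ≤ (k) := by clear * - b7 b8 v61 z174; omega
                  have kk2277 : (2 * i + l + m + 2) ≤ (Q + k) := by clear * - v61; omega
                  have kk2278 : (i + l + 1) ≤ (k) := by clear * - v62 y17; omega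
                  have kk2279 : (i) ≤ (i2) := by clear * - y16; omega
                  have r2280 : (2 * i + 2 * l - 3 * n + 2) % 2 = 0 := by clear * - ev n1p n2p n3p; omega
                  clear * - al b c1 tt kk2274 kk2275 kk2276 kk2277 kk2278 kk2279 r2280
                  obtain ⟨t, ht⟩ : ∃ t, 2 * t = (2 * i + 2 * l - 3 * n + 2) := ⟨(2 * i + 2 * l - 3 * n + 2) / 2, by omega⟩
                  exact al.ninv t (cE (cE (cE (qa tt al (-1) t ((i + l + i2 - n + 1) - t) (by omega)) (pb b al 0 ((i + l + i2 - n + 1) - t) ((2 * i + l + i2 - n - k + 1) - t) (by omega))) (qf c1 al 0 ((2 * i + l + i2 - n - k + 1) - t) ((2 * i + 2 * l - n + 2) - t) (by omega))) (sh al (-2) ((2 * i + 2 * l - n + 2) - t) t (by omega)))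
                · have kk2281 : (n + 2 * i2) ≤ (2 * i + 2 * l + 2 * m + 2) := by clear * - b2 b6 v62 z172; omega
                  have kk2282 : (2 * i + 2 * l + 3) ≤ (n + 2 * i2) := by clear * - b0 y16; omega
                  have kk2283 : (i + m + 1) ≤ (k) := by clear * - b7 b8 v61 z174; omega
                  have kk2284 : (2 * i + l + m + 2) ≤ (Q + k) := by clear * - v61; omega
                  have kk2285 : (k) ≤ (i + l + 1) := by clear * - v62 y16; omega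
                  have kk2286 : (k + i2) ≤ (2 * i + l + 1) := by clear * - v62; omega
                  have r2287 : (2 * i + 2 * l - 3 * n + 2) % 2 = 0 := by clear * - ev n1p n2p n3p; omega
                  clear * - al b c1 tt kk2281 kk2282 kk2283 kk2284 kk2285 kk2286 r2287
                  obtain ⟨t, ht⟩ : ∃ t, 2 * t = (2 * i + 2 * l - 3 * n + 2) := ⟨(2 * i + 2 * l - 3 * n + 2) / 2, by omega⟩
                  exact al.ninv t (cE (cE (cE (qa tt al (-1) t ((i + l + i2 - n + 1) - t) (by omega)) (pb b al 0 ((i + l + i2 - n + 1) - t) ((2 * i + l + i2 - n - k + 1) - t) (by omega))) (qf c1 al 0 ((2 * i + l + i2 - n - k + 1) - t) ((2 * i + 2 * l - n + 2) - t) (by omega))) (sh al (-2) ((2 * i + 2 * l - n + 2) - t) t (by omega)))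
              · have kk2288 : (n + 2 * i + 2 * i2 + 2) ≤ (2 * Q + 2 * k) := by clear * - z180 ev n1p n2p n3p; omega
                have kk2289 : (2 * i + 2 * l + 3) ≤ (n + 2 * i2) := by clear * - b0 y16; omega
                have kk2290 : (Q + k) ≤ (2 * i + l + m + 2) := by clear * - v61; omega
                have kk2291 : (Q) ≤ (i + l + 1) := by clear * - b7 b8 z174; omega
                have kk2292 : (k) ≤ (i + l + 1) := by clear * - b1 b2 v61 y16 y2 z172 z175; omega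
                have kk2293 : (k + i2) ≤ (2 * i + l + 1) := by clear * - b1 b2 v61 y17 y2 z172 z175; omega
                have r2294 : (2 * i + 2 * l - 3 * n + 2) % 2 = 0 := by clear * - ev n1p n2p n3p; omega
                clear * - al b c1 tt kk2288 kk2289 kk2290 kk2291 kk2292 kk2293 r2294
                obtain ⟨t, ht⟩ : ∃ t, 2 * t = (2 * i + 2 * l - 3 * n + 2) := ⟨(2 * i + 2 * l - 3 * n + 2) / 2, by omega⟩
                exact al.ninv t (cE (cE (cE (qa tt al (-1) t ((i + l + i2 - n + 1) - t) (by omega)) (pb b al 0 ((i + l + i2 - n + 1) - t) ((2 * i + l + i2 - n - k + 1) - t) (by omega))) (qf c1 al 0 ((2 * i + l + i2 - n - k + 1) - t) ((2 * i + 2 * l - n + 2) - t) (by omega))) (sh al (-2) ((2 * i + 2 * l - n + 2) - t) t (by omega)))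
            · by_cases v63 : (n + k + i2) ≤ (i + l + 2 * m + k3 + 3)
              · have kk2295 : (i + l + m + k3 + 4) ≤ (n + j + k) := by clear * - b0 b1 b7 b8 v63 z172 z173 z175 z179; omega
                have kk2296 : (i + j + l + m + k3 + 3) ≤ (n + k + 2 * i2) := by clear * - b0 b5 z173 z179 z180; omega
                have kk2297 : (k) ≤ (k3) := by clear * - b1 b5 b6 v63 z173 z174 z175 z179; omega
                have kk2298 : (n + k + i2) ≤ (i + l + 2 * m + k3 + 3) := by clear * - v63; omega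
                have kk2299 : (n + Q + i2) ≤ (i + l + m + k3 + 3) := by clear * - b0 b1 v63 z172 z175 z179 z180; omega
                have r2300 : (n + i + j + l + m + k3 - k + 2) % 2 = 0 := by clear * - ev n1p n2p n3p; omega
                clear * - al a2 tt D1 kk2295 kk2296 kk2297 kk2298 kk2299 r2300
                obtain ⟨t, ht⟩ : ∃ t, 2 * t = (n + i + j + l + m + k3 - k + 2) := ⟨(n + i + j + l + m + k3 - k + 2) / 2, by omega⟩
                exact al.ninv t (cE (cE (cE (qa tt al 1 t ((n + i + l + i2 + 1) - t) (by omega)) (pb D1 al 0 ((n + i + l + i2 + 1) - t) ((i + l + m + k3 + 2) - t) (by omega))) (pb a2 al 0 ((i + l + m + k3 + 2) - t) ((i + j + l + m + k3 - k + 2) - t) (by omega))) (sh al 1 ((i + j + l + m + k3 - k + 2) - t) t (by omega)))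
              · by_cases v64 : (n + Q + i2) ≤ (i + l + m + k3 + 3)
                · have kk2301 : (n + k + 2 * i2) ≤ (i + j + l + 3 * m + k3 + 2) := by clear * - b2 b6 v64; omega
                  have kk2302 : (i + j + l + m + k3 + 3) ≤ (n + k + 2 * i2) := by clear * - b0 b5 z173 z179 z180; omega
                  have kk2303 : (k) ≤ (k3) := by clear * - b0 b1 b2 b5 v64 z173 z179 z180; omega
                  have kk2304 : (i + l + 2 * m + k3 + 3) ≤ (n + k + i2) := by clear * - v63; omega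
                  have kk2305 : (n + Q + i2) ≤ (i + l + m + k3 + 3) := by clear * - v64; omega
                  have r2306 : (n + i + j + l + m + k3 - k + 2) % 2 = 0 := by clear * - ev n1p n2p n3p; omega
                  clear * - al a2 tt D1 kk2301 kk2302 kk2303 kk2304 kk2305 r2306
                  obtain ⟨t, ht⟩ : ∃ t, 2 * t = (n + i + j + l + m + k3 - k + 2) := ⟨(n + i + j + l + m + k3 - k + 2) / 2, by omega⟩
                  exact al.ninv t (cE (cE (cE (qa tt al 1 t ((n + i + l + i2 + 1) - t) (by omega)) (pb D1 al 0 ((n + i + l + i2 + 1) - t) ((i + l + m + k3 + 2) - t) (by omega))) (pb a2 al 0 ((i + l + m + k3 + 2) - t) ((i + j + l + m + k3 - k + 2) - t) (by omega))) (sh al 1 ((i + j + l + m + k3 - k + 2) - t) t (by omega)))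
                · have kk2307 : (n + k + 2 * i2) ≤ (i + j + l + 3 * m + k3 + 2) := by clear * - b0 b1 b2 y2 z172 z180; omega
                  have kk2308 : (n + 2 * Q + j) ≤ (i + k + l + m + k3 + 3) := by clear * - b0 b1 b2 y2 z172 z180; omega
                  have kk2309 : (k) ≤ (k3) := by clear * - b1 b2 y2 z172 z180; omega
                  have kk2310 : (i + l + 2 * m + k3 + 3) ≤ (n + k + i2) := by clear * - v63; omega
                  have kk2311 : (i + l + m + k3 + 3) ≤ (n + Q + i2) := by clear * - v64; omega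
                  have r2312 : (n + i + j + l + m + k3 - k + 2) % 2 = 0 := by clear * - ev n1p n2p n3p; omega
                  clear * - al a2 tt D1 kk2307 kk2308 kk2309 kk2310 kk2311 r2312
                  obtain ⟨t, ht⟩ : ∃ t, 2 * t = (n + i + j + l + m + k3 - k + 2) := ⟨(n + i + j + l + m + k3 - k + 2) / 2, by omega⟩
                  exact al.ninv t (cE (cE (cE (qa tt al 1 t ((n + i + l + i2 + 1) - t) (by omega)) (pb D1 al 0 ((n + i + l + i2 + 1) - t) ((i + l + m + k3 + 2) - t) (by omega))) (pb a2 al 0 ((i + l + m + k3 + 2) - t) ((i + j + l + m + k3 - k + 2) - t) (by omega))) (sh al 1 ((i + j + l + m + k3 - k + 2) - t) t (by omega)))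
          · have kk2313 : (n + i + i2) ≤ (k + m + k3) := by clear * - b0 b1 b2 y16 z172 z179; omega
            have kk2314 : (k + m + k3 + 2) ≤ (2 * n + i + i2) := by clear * - b0 b2 b4 b5 b9 z173 z174; omega
            have kk2315 : (Q + k + m + 1) ≤ (n + i + i2) := by clear * - b0 b3 b5 b6 b7 b8 z174 z175; omega
            have kk2316 : (k + m + k3 + 2) ≤ (n + Q + i2) := by clear * - b0 b1 b2 b5 b7 z172 z173 z175; omega
            have kk2317 : (n + i2) ≤ (k + l + m + 2) := by clear * - b2 z172; omega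
            clear * - al b D1 kk2313 kk2314 kk2315 kk2316 kk2317
            exact al.ubQ (k + m + k3 - n - i - i2 + 1) (by omega) (by omega) fun t h1 h2 => (cE (sh al 1 t (t + (n)) (by omega)) (cE (qf b al 1 (t + (n)) (t + (k - i)) (by omega)) (pb D1 al 0 (t + (k - i)) (t + (k + m + k3 - n - i - i2 + 1)) (by omega))))

theorem h8_83p
    (h8_84 : ∀ {W : ℤ → G} {n Q i j k l i2 m k3 : ℤ} (al : AL W n Q) (hy : (0) ≤ (i) ∧ (i) ≤ (j) ∧ (j + 1) ≤ (Q) ∧ (Q) ≤ (k) ∧ (k + 1) ≤ (n) ∧ (Q) ≤ (i + l + 1) ∧ (k + l + 2) ≤ (n) ∧ (0) ≤ (i2) ∧ (i2 + 1) ≤ (Q) ∧ (Q + m + 1) ≤ (n + i2) ∧ (i2) ≤ (m) ∧ (Q) ≤ (i + l + m + 2) ∧ (i + l + m + 3) ≤ (n) ∧ (Q) ≤ (k3) ∧ (k3 + 1) ≤ (n) ∧ (i + m + 2) ≤ (k) ∧ (i) ≤ (i2) ∧ (i2) ≤ (i) ∧ (i + m + 2) ≤ (k3) ∧ (k3) ≤ (i + l + m + 1) ∧ (m + k3 + 2) ≤ (n + i2)) (a1 : Par W (0) (j) (k - j)) (a2 : Par W (Q + j - k) (j) (k - j)) (s1 : Ant W (0) (i) (i + j)) (s2 : Ant W (j + 1) (Q) (i +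 j)) (b : Par W (i + 1) (i + l + 1) (k - i)) (c1 : Par W (i2 + 1) (Q) (k + l - i2 + 1)) (c2 : Par W (k + l + 2) (n) (i2 - k - l - 1)) (tt : Ant W (i2 - m) (i2) (i + l + i2 + 1)) (D1 : Par W (Q) (k3) (n + i2 - m - k3 - 1)) (D2 : Par W (i + l + m + 3) (n) (k3 - i - l - m - 2)) {L : ℤ} (mx : ∀ a b g, 0 < g → g < n → Par W a b g → b - a ≤ L) (hL : L ≤ (n - j - 3) ∧ L ≤ (n + Q - k - 3) ∧ L ≤ (n - l - 3) ∧ L ≤ (n + i - k - 2)) (bd0 : Bd W n L (j) (i) (k)) (n1 : Nd W (j) (i) (k)) (n2 : Nd W (i + l + 1) (i2) (k + l + 1)) (n3 : Nd W (n + i2 - m - 1) (i + l + m + 2) (k3)) (b0 : (2 * l + 3) ≤ (n)) (b1 : (k + i2 + 1) ≤ (Q + j + m)) (b2 : (2 * Q + k + l) ≤ (n + 2 * j + i2)) (b3 : (m + k3) ≤ (i + l + 2 * i2 + 1)) (b4 : (1) ≤ (m)) (b5 : (i + l + i2 + m + 3) ≤ (Q + k3)) (b6 : (n + i2) ≤ (i + k + 2 * l + m + 2)) (b7 : (i + 2 * j + 1) ≤ (k)) (b8 : (i + 4 * k + 3 * l + 4) ≤ (2 * n + 2 * j + m + k3)) (b9 : (2 * i2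 + k3) ≤ (i + l + m + 1)), False)
    {W : ℤ → G} {n Q i j k l i2 m k3 : ℤ} (al : AL W n Q)
    (hy : (0) ≤ (i) ∧ (i) ≤ (j) ∧ (j + 1) ≤ (Q) ∧ (Q) ≤ (k) ∧ (k + 1) ≤ (n) ∧ (Q) ≤ (i + l + 1) ∧ (k + l + 2) ≤ (n) ∧ (0) ≤ (i2) ∧ (i2 + 1) ≤ (Q) ∧ (Q + m + 1) ≤ (n + i2) ∧ (i2) ≤ (m) ∧ (Q) ≤ (i + l + m + 2) ∧ (i + l + m + 3) ≤ (n) ∧ (Q) ≤ (k3) ∧ (k3 + 1) ≤ (n) ∧ (i + m + 2) ≤ (k) ∧ (i) ≤ (i2) ∧ (i2) ≤ (i) ∧ (i + m + 2) ≤ (k3) ∧ (k3) ≤ (i + l + m + 1) ∧ (m + k3 + 2) ≤ (n + i2))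
    (a1 : Par W (0) (j) (k - j))
    (a2 : Par W (Q + j - k) (j) (k - j))
    (s1 : Ant W (0) (i) (i + j))
    (s2 : Ant W (j + 1) (Q) (i + j))
    (b : Par W (i + 1) (i + l + 1) (k - i))
    (c1 : Par W (i2 + 1) (Q) (k + l - i2 + 1))
    (c2 : Par W (k + l + 2) (n) (i2 - k - l - 1))
    (tt : Ant W (i2 - m) (i2) (i + l + i2 + 1))
    (D1 : Par W (Q) (k3) (n + i2 - m - k3 - 1))
    (D2 : Par W (i + l + m + 3) (n) (k3 - i - l - m - 2))
    {L : ℤ} (mx : ∀ a b g, 0 < g → g < n → Par W a b g → b - a ≤ L)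
    (hL : L ≤ (n - j - 3) ∧ L ≤ (n + Q - k - 3) ∧ L ≤ (n - l - 3) ∧ L ≤ (n + i - k - 2))
    (bd0 : Bd W n L (j) (i) (k))
    (n1 : Nd W (j) (i) (k))
    (n2 : Nd W (i + l + 1) (i2) (k + l + 1))
    (n3 : Nd W (n + i2 - m - 1) (i + l + m + 2) (k3))
    (b0 : (2 * l + 3) ≤ (n))
    (b1 : (k + i2 + 1) ≤ (Q + j + m))
    (b2 : (2 * Q + k + l) ≤ (n + 2 * j + i2))
    (b3 : (m + k3) ≤ (i + l + 2 * i2 + 1))
    (b4 : (1) ≤ (m))
    (b5 : (i + l + i2 + m + 3) ≤ (Q + k3))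
    (b6 : (n + i2) ≤ (i + k + 2 * l + m + 2))
    (b7 : (i + 2 * j + 1) ≤ (k))
    (b8 : (i + 4 * k + 3 * l + 4) ≤ (2 * n + 2 * j + m + k3)) : False := by
  have ev := al.ev
  obtain ⟨y0, y1, y2, y3, y4, y5, y6, y7, y8, y9, y10, y11, y12, y13, y14, y15, y16, y17, y18, y19, y20⟩ := id hy
  have n1p := And.intro n1.p1 n1.p2
  have n2p := And.intro n2.p1 n2.p2
  have n3p := And.intro n3.p1 n3.p2
  by_cases z196 : (i + l + m + 2) ≤ (2 * i2 + k3)
  · by_cases z197 : (i + 4 * k + 3 * l + m + 4) ≤ (2 * n + 2 * j + 2 * i2 + k3)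
    · by_cases v69 : (n + j) ≤ (2 * k + l + 1)
      · by_cases v70 : (n + j + k3) ≤ (i + 2 * k + 2 * l + 2)
        · have kk2457 : (k3) ≤ (i + l + m + 1) := by clear * - b8 v70; omega
          have kk2458 : (i + 4 * k + 3 * l + m + 4) ≤ (2 * n + 2 * j + 2 * i2 + k3) := by clear * - z197; omega
          have kk2459 : (i + l + m + k3 + 4) ≤ (2 * n) := by clear * - b2 b5 b7 b8 v70 z197; omega
          have kk2460 : (3 * i + 4 * k + 5 * l + m + 8) ≤ (4 * n + 2 * j + k3) := by clear * - b2 b5 b7 b8 v70 z197; omega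
          have kk2461 : (n + j) ≤ (2 * k + l + 1) := by clear * - v69; omega
          have kk2462 : (n + i2) ≤ (2 * k + l + 1) := by clear * - v69 y1 y17; omega
          have kk2463 : (i2) ≤ (m) := by clear * - y10; omega
          have kk2464 : (j + i2 + 1) ≤ (k) := by clear * - b2 b5 b7 b8 v69 v70 y17; omega
          have kk2465 : (n + j + k3) ≤ (i + 2 * k + 2 * l + 2) := by clear * - v70; omega
          have r2466 : (i + 2 * k + 2 * l - 2 * n - j + 2) % 2 = 0 := by clear * - ev n1p n2p n3p; omega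
          have r2467 : (i + l + m - k3 + 2) % 2 = 0 := by clear * - ev n1p n2p n3p; omega
          clear * - al a1 c2 tt D2 kk2457 kk2458 kk2459 kk2460 kk2461 kk2462 kk2463 kk2464 kk2465 r2466 r2467
          exact midP al (i + l + m - k3 + 2) (i + 2 * k + 2 * l - 2 * n - j + 2) (i + 2 * k + 2 * l - 2 * n - j + 3) (k3 - n + 1) (0) (by omega) (fun t h1 h2 => (cE (cE (cE (ab tt al (-1) t ((i + l + i2 - n + 1) - t) (by omega)) (qf a1 al 0 ((i + l + i2 - n + 1) - t) ((i + k + l + i2 - n - j + 1) - t) (by omega))) (pb c2 al 0 ((i + k + l + i2 - n - j + 1) - t) ((i + 2 * k + 2 * l - n - j + 2) - t) (by omega))) (sh al (-1) ((i + 2 * k + 2 * l - n - j + 2) - t) ((i + 2 * k + 2 * l - 2 * n - j + 2) - t) (by omega)))) (fun t h1 h2 => (cE (pb D2 al (-1) t (t + (n + i + l + m - k3 + 2)) (by omega)) (sh al (-1) (t + (n + i + l + m - k3 + 2)) (t + (i + l + m - k3 + 2)) (by omega))))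
        · have kk2468 : (k3) ≤ (i + l + m + 1) := by clear * - y19; omega
          have kk2469 : (m + k3) ≤ (i + l + 2 * i2) := by clear * - b3 ev n1p n2p n3p; omega
          have kk2470 : (2 * j + m + 3 * k3) ≤ (i + 4 * k + 3 * l) := by clear * - b1 b2 b3 b7 v69 y15 y17; omega
          have kk2471 : (i + l + m + k3 + 4) ≤ (2 * n) := by clear * - b2 b3 b5 b7 y19; omega
          have kk2472 : (n + j) ≤ (2 * k + l + 1) := by clear * - v69; omega
          have kk2473 : (n + i2) ≤ (2 * k + l + 1) := by clear * - v69 y1 y17; omega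
          have kk2474 : (i2) ≤ (m) := by clear * - y10; omega
          have kk2475 : (j + i2 + 1) ≤ (k) := by clear * - b1 b2 b3 b5 b7 v69 y17; omega
          have kk2476 : (i + 2 * k + 2 * l + 2) ≤ (n + j + k3) := by clear * - v70; omega
          have r2477 : (i + 2 * k + 2 * l - 2 * n - j + 2) % 2 = 0 := by clear * - ev n1p n2p n3p; omega
          have r2478 : (i + l + m - k3 + 2) % 2 = 0 := by clear * - ev n1p n2p n3p; omega
          clear * - al a1 c2 tt D2 kk2468 kk2469 kk2470 kk2471 kk2472 kk2473 kk2474 kk2475 kk2476 r2477 r2478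
          exact midP al (i + l + m - k3 + 2) (i + 2 * k + 2 * l - 2 * n - j + 2) (k3 - n + 1) (k3 - n + 1) (0) (by omega) (fun t h1 h2 => (cE (cE (cE (ab tt al (-1) t ((i + l + i2 - n + 1) - t) (by omega)) (qf a1 al 0 ((i + l + i2 - n + 1) - t) ((i + k + l + i2 - n - j + 1) - t) (by omega))) (pb c2 al 0 ((i + k + l + i2 - n - j + 1) - t) ((i + 2 * k + 2 * l - n - j + 2) - t) (by omega))) (sh al (-1) ((i + 2 * k + 2 * l - n - j + 2) - t) ((i + 2 * k + 2 * l - 2 * n - j + 2) - t) (by omega)))) (fun t h1 h2 => (cE (pb D2 al (-1) t (t + (n + i + l + m - k3 + 2)) (by omega)) (sh al (-1) (t + (n + i + l + m - k3 + 2)) (t + (i + l + m - k3 + 2)) (by omega))))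
      · by_cases v71 : (i + l + 1) ≤ (k3)
        · have kk2479 : (k3) ≤ (i + l + m + 1) := by clear * - y19; omega
          have kk2480 : (m + k3) ≤ (i + l + 2 * i2) := by clear * - b3 ev n1p n2p n3p; omega
          have kk2481 : (2 * j + m + 3 * k3) ≤ (i + 4 * k + 3 * l) := by clear * - b3 b7 v71 y15 y17 y19; omega
          have kk2482 : (i + l + m + k3 + 4) ≤ (2 * n) := by clear * - b2 b3 b5 b7 y19; omega
          have kk2483 : (2 * k + l + 1) ≤ (n + j) := by clear * - v69; omega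
          have kk2484 : (i2) ≤ (j) := by clear * - y1 y17; omega
          have kk2485 : (i2) ≤ (m) := by clear * - y10; omega
          have kk2486 : (j + i2 + 1) ≤ (k) := by clear * - b4 b7 y15 y17; omega
          have kk2487 : (i + 2 * k + 2 * l + 2) ≤ (n + j + k3) := by clear * - v69 v71; omega
          have kk2488 : (i + l + 1) ≤ (k3) := by clear * - v71; omega
          have r2489 : (i + 2 * k + 2 * l - 2 * n - j + 2) % 2 = 0 := by clear * - ev n1p n2p n3p; omega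
          have r2490 : (i + l + m - k3 + 2) % 2 = 0 := by clear * - ev n1p n2p n3p; omega
          clear * - al a1 c2 tt D2 kk2479 kk2480 kk2481 kk2482 kk2483 kk2484 kk2485 kk2486 kk2487 kk2488 r2489 r2490
          exact midP al (i + l + m - k3 + 2) (i + 2 * k + 2 * l - 2 * n - j + 2) (k3 - n + 1) (k3 - n + 1) (0) (by omega) (fun t h1 h2 => (cE (cE (cE (ab tt al (-1) t ((i + l + i2 - n + 1) - t) (by omega)) (qf a1 al 0 ((i + l + i2 - n + 1) - t) ((i + k + l + i2 - n - j + 1) - t) (by omega))) (pb c2 al 0 ((i + k + l + i2 - n - j + 1) - t) ((i + 2 * k + 2 * l - n - j + 2) - t) (by omega))) (sh al (-1) ((i + 2 * k + 2 * l - n - j + 2) - t) ((i + 2 * k + 2 * l - 2 * n - j + 2) - t) (by omega)))) (fun t h1 h2 => (cE (pb D2 al (-1) t (t + (n + i + l + m - k3 + 2)) (by omega)) (sh al (-1) (t + (n + i + l + m - k3 + 2)) (t + (i + l + m - k3 + 2)) (by omega))))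
        · have kk2491 : (k3) ≤ (i + l + m + 1) := by clear * - b4 v71; omega
          have kk2492 : (i + l + m + 2) ≤ (2 * i2 + k3) := by clear * - z196; omega
          have kk2493 : (i + 2 * j + m + k3 + 2) ≤ (4 * k + l) := by clear * - b0 b4 b6 b7 v71 y15 z196; omega
          have kk2494 : (3 * i + 3 * l + m + 6) ≤ (2 * n + k3) := by clear * - b2 b4 b5 b7 v71 z196; omega
          have kk2495 : (2 * k + l + 1) ≤ (n + j) := by clear * - v69; omega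
          have kk2496 : (i2) ≤ (j) := by clear * - y1 y17; omega
          have kk2497 : (i2) ≤ (m) := by clear * - y10; omega
          have kk2498 : (j + i2 + 1) ≤ (k) := by clear * - b4 b7 y15 y17; omega
          have kk2499 : (k3) ≤ (i + l + 1) := by clear * - v71; omega
          have r2500 : (i + 2 * k + 2 * l - 2 * n - j + 2) % 2 = 0 := by clear * - ev n1p n2p n3p; omega
          have r2501 : (i + l + m - k3 + 2) % 2 = 0 := by clear * - ev n1p n2p n3p; omega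
          clear * - al a1 c2 tt D2 kk2491 kk2492 kk2493 kk2494 kk2495 kk2496 kk2497 kk2498 kk2499 r2500 r2501
          exact midP al (i + l + m - k3 + 2) (i + 2 * k + 2 * l - 2 * n - j + 2) (i + l - n + 2) (k3 - n + 1) (0) (by omega) (fun t h1 h2 => (cE (cE (cE (ab tt al (-1) t ((i + l + i2 - n + 1) - t) (by omega)) (qf a1 al 0 ((i + l + i2 - n + 1) - t) ((i + k + l + i2 - n - j + 1) - t) (by omega))) (pb c2 al 0 ((i + k + l + i2 - n - j + 1) - t) ((i + 2 * k + 2 * l - n - j + 2) - t) (by omega))) (sh al (-1) ((i + 2 * k + 2 * l - n - j + 2) - t) ((i + 2 * k + 2 * l - 2 * n - j + 2) - t) (by omega)))) (fun t h1 h2 => (cE (pb D2 al (-1) t (t + (n + i + l + m - k3 + 2)) (by omega)) (sh al (-1) (t + (n + i + l + m - k3 + 2)) (t + (i + l + m - k3 + 2)) (by omega))))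
    · have kk2502 : (2 * k + l + 2) ≤ (n + j + i2) := by clear * - b3 b8; omega
      have kk2503 : (j + i2) ≤ (2 * k + l) := by clear * - b0 b2 b3 b5 b6 b7 b8 z197; omega
      have kk2504 : (j + i2 + 1) ≤ (k) := by clear * - b2 b3 b5 b7 b8 y17 z196 z197; omega
      have kk2505 : (n + i2) ≤ (2 * k + l + 1) := by clear * - y1 y17 z196 z197; omega
      clear * - al a1 c2 kk2502 kk2503 kk2504 kk2505
      exact al.ubP (n + j + i2 - 2 * k - l - 1) (by omega) (by omega) fun t h1 h2 => (cE (sh al 1 t (t + (n)) (by omega)) (cE (qf c2 al 0 (t + (n)) (t + (n + i2 - k - l - 1)) (by omega)) (pb a1 al 0 (t + (n + i2 - k - l - 1)) (t + (n + j + i2 - 2 * k - l - 1)) (by omega))))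
  · exact h8_84 al hy a1 a2 s1 s2 b c1 c2 tt D1 D2 mx hL bd0 n1 n2 n3 (by clear * - b0; omega) (by clear * - b1; omega) (by clear * - b2; omega) (by clear * - b3; omega) (by clear * - b4; omega) (by clear * - b5; omega) (by clear * - b6; omega) (by clear * - b7; omega) (by clear * - b8; omega) (by clear * - z196; omega)

theorem h8_19p
    (h8_20 : ∀ {W : ℤ → G} {n Q i j k l i2 m k3 : ℤ} (al : AL W n Q) (hy : (0) ≤ (i) ∧ (i) ≤ (j) ∧ (j + 1) ≤ (Q) ∧ (Q) ≤ (k) ∧ (k + 1) ≤ (n) ∧ (Q) ≤ (i + l + 1) ∧ (k + l + 2) ≤ (n) ∧ (0) ≤ (i2) ∧ (i2 + 1) ≤ (Q) ∧ (Q + m + 1) ≤ (n + i2) ∧ (i2) ≤ (m) ∧ (Q) ≤ (i + l + m + 2) ∧ (i + l + m + 3) ≤ (n) ∧ (Q) ≤ (k3) ∧ (k3 + 1) ≤ (n) ∧ (i + m + 2) ≤ (k) ∧ (i) ≤ (i2) ∧ (i2) ≤ (i) ∧ (i + m + 2) ≤ (k3) ∧ (k3) ≤ (i + l + m + 1) ∧ (m + k3 + 2) ≤ (n + i2)) (a1 : Par W (0) (j) (k - j)) (a2 : Par W (Q + j - k) (j) (k - j)) (s1 : Ant W (0) (i) (i + j)) (s2 : Ant W (j + 1) (Q) (i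 + j)) (b : Par W (i + 1) (i + l + 1) (k - i)) (c1 : Par W (i2 + 1) (Q) (k + l - i2 + 1)) (c2 : Par W (k + l + 2) (n) (i2 - k - l - 1)) (tt : Ant W (i2 - m) (i2) (i + l + i2 + 1)) (D1 : Par W (Q) (k3) (n + i2 - m - k3 - 1)) (D2 : Par W (i + l + m + 3) (n) (k3 - i - l - m - 2)) {L : ℤ} (mx : ∀ a b g, 0 < g → g < n → Par W a b g → b - a ≤ L) (hL : L ≤ (n - j - 3) ∧ L ≤ (n + Q - k - 3) ∧ L ≤ (n - l - 3) ∧ L ≤ (n + i - k - 2)) (bd0 : Bd W n L (j) (i) (k)) (n1 : Nd W (j) (i) (k)) (n2 : Nd W (i + l + 1) (i2) (k + l + 1)) (n3 : Nd W (n + i2 - m - 1) (i + l + m + 2) (k3)) (b0 : (2 * l + 3) ≤ (n)) (b1 : (2 * i + 2 * l + 3 * m + 5) ≤ (n + i2 + k3)) (b2 : (k + i2 + 1) ≤ (Q + j + m)) (b3 : (2 * i + j + 1) ≤ (k)) (b4 : (2 * Q + k + l) ≤ (n + 2 * j + i2)), False)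
    {W : ℤ → G} {n Q i j k l i2 m k3 : ℤ} (al : AL W n Q)
    (hy : (0) ≤ (i) ∧ (i) ≤ (j) ∧ (j + 1) ≤ (Q) ∧ (Q) ≤ (k) ∧ (k + 1) ≤ (n) ∧ (Q) ≤ (i + l + 1) ∧ (k + l + 2) ≤ (n) ∧ (0) ≤ (i2) ∧ (i2 + 1) ≤ (Q) ∧ (Q + m + 1) ≤ (n + i2) ∧ (i2) ≤ (m) ∧ (Q) ≤ (i + l + m + 2) ∧ (i + l + m + 3) ≤ (n) ∧ (Q) ≤ (k3) ∧ (k3 + 1) ≤ (n) ∧ (i + m + 2) ≤ (k) ∧ (i) ≤ (i2) ∧ (i2) ≤ (i) ∧ (i + m + 2) ≤ (k3) ∧ (k3) ≤ (i + l + m + 1) ∧ (m + k3 + 2) ≤ (n + i2))
    (a1 : Par W (0) (j) (k - j))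
    (a2 : Par W (Q + j - k) (j) (k - j))
    (s1 : Ant W (0) (i) (i + j))
    (s2 : Ant W (j + 1) (Q) (i + j))
    (b : Par W (i + 1) (i + l + 1) (k - i))
    (c1 : Par W (i2 + 1) (Q) (k + l - i2 + 1))
    (c2 : Par W (k + l + 2) (n) (i2 - k - l - 1))
    (tt : Ant W (i2 - m) (i2) (i + l + i2 + 1))
    (D1 : Par W (Q) (k3) (n + i2 - m - k3 - 1))
    (D2 : Par W (i + l + m + 3) (n) (k3 - i - l - m - 2))
    {L : ℤ} (mx : ∀ a b g, 0 < g → g < n → Par W a b g → b - a ≤ L)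
    (hL : L ≤ (n - j - 3) ∧ L ≤ (n + Q - k - 3) ∧ L ≤ (n - l - 3) ∧ L ≤ (n + i - k - 2))
    (bd0 : Bd W n L (j) (i) (k))
    (n1 : Nd W (j) (i) (k))
    (n2 : Nd W (i + l + 1) (i2) (k + l + 1))
    (n3 : Nd W (n + i2 - m - 1) (i + l + m + 2) (k3))
    (b0 : (2 * l + 3) ≤ (n))
    (b1 : (2 * i + 2 * l + 3 * m + 5) ≤ (n + i2 + k3))
    (b2 : (k + i2 + 1) ≤ (Q + j + m))
    (b3 : (2 * i + j + 1) ≤ (k)) : False := by
  have ev := al.ev
  obtain ⟨y0, y1, y2, y3, y4, y5, y6, y7, y8, y9, y10, y11, y12, y13, y14, y15, y16, y17, y18, y19, y20⟩ := id hy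
  have n1p := And.intro n1.p1 n1.p2
  have n2p := And.intro n2.p1 n2.p2
  have n3p := And.intro n3.p1 n3.p2
  by_cases z49 : (n + 2 * j + i2 + 1) ≤ (2 * Q + k + l)
  · by_cases v23 : (Q + k + l + 1) ≤ (n + i + j)
    · have kk669 : (k + l + 2) ≤ (n + i2) := by clear * - v23 y16 z49; omega
      have kk670 : (n + 2 * j + i2 + 1) ≤ (2 * Q + k + l) := by clear * - z49; omega
      have kk671 : (k + l + i2 + 3) ≤ (n + 2 * Q) := by clear * - b0 b2 v23 y16 y18 y20 z49; omega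
      have kk672 : (n + 2 * i + 2 * j + i2 + 1) ≤ (4 * Q + k + l) := by clear * - b2 v23 y15 y16 z49; omega
      have kk673 : (Q + k + l + 1) ≤ (n + i + j) := by clear * - v23; omega
      have r674 : (i + j) % 2 = 0 := by clear * - ev n1p n2p n3p; omega
      have r675 : (n + i2 - k - l - 1) % 2 = 0 := by clear * - ev n1p n2p n3p; omega
      clear * - al s2 c1 kk669 kk670 kk671 kk672 kk673 r674 r675
      exact midP al (n + i2 - k - l - 1) (i + j) (i + j - Q + 1) (k + l - n + 2) (Q) (by omega) (fun t h1 h2 => (ab s2 al 0 t ((i + j) - t) (by omega))) (fun t h1 h2 => (pb c1 al (-1) t (t + (n + i2 - k - l - 1)) (by omega)))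
    · have kk676 : (k + l + 2) ≤ (n + i2) := by clear * - y6 y7; omega
      have kk677 : (k + l + i2 + 3) ≤ (n + 2 * i) := by clear * - y17 y6 y7 ev n1p n2p n3p; omega
      have kk678 : (3 * k + 3 * l + i2 + 5) ≤ (3 * n + 2 * i + 2 * j) := by clear * - y1 y17 y6 y7; omega
      have kk679 : (k + l + i2 + 3) ≤ (n + 2 * Q) := by clear * - b1 b2 b3 v23 y17 y20 y6 y7; omega
      have kk680 : (n + i + j) ≤ (Q + k + l + 1) := by clear * - v23; omega
      have r681 : (i + j) % 2 = 0 := by clear * - ev n1p n2p n3p; omega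
      have r682 : (n + i2 - k - l - 1) % 2 = 0 := by clear * - ev n1p n2p n3p; omega
      clear * - al s2 c1 kk676 kk677 kk678 kk679 kk680 r681 r682
      exact midP al (n + i2 - k - l - 1) (i + j) (k + l - n + 2) (k + l - n + 2) (Q) (by omega) (fun t h1 h2 => (ab s2 al 0 t ((i + j) - t) (by omega))) (fun t h1 h2 => (pb c1 al (-1) t (t + (n + i2 - k - l - 1)) (by omega)))
  · exact h8_20 al hy a1 a2 s1 s2 b c1 c2 tt D1 D2 mx hL bd0 n1 n2 n3 (by clear * - b0; omega) (by clear * - b1; omega) (by clear * - b2; omega) (by clear * - b3; omega) (by clear * - z49; omega)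

theorem h8p
    (h8_1 : ∀ {W : ℤ → G} {n Q i j k l i2 m k3 : ℤ} (al : AL W n Q) (hy : (0) ≤ (i) ∧ (i) ≤ (j) ∧ (j + 1) ≤ (Q) ∧ (Q) ≤ (k) ∧ (k + 1) ≤ (n) ∧ (Q) ≤ (i + l + 1) ∧ (k + l + 2) ≤ (n) ∧ (0) ≤ (i2) ∧ (i2 + 1) ≤ (Q) ∧ (Q + m + 1) ≤ (n + i2) ∧ (i2) ≤ (m) ∧ (Q) ≤ (i + l + m + 2) ∧ (i + l + m + 3) ≤ (n) ∧ (Q) ≤ (k3) ∧ (k3 + 1) ≤ (n) ∧ (i + m + 2) ≤ (k) ∧ (i) ≤ (i2) ∧ (i2) ≤ (i) ∧ (i + m + 2) ≤ (k3) ∧ (k3) ≤ (i + l + m + 1) ∧ (m + k3 + 2) ≤ (n + i2)) (a1 : Par W (0) (j) (k - j)) (a2 : Par W (Q + j - k) (j) (k - j)) (s1 : Ant W (0) (i) (i + j)) (s2 : Ant W (j + 1) (Q) (i + j)) (b : Par W (i + 1) (i + l + 1) (k - i)) (c1 : Par W (i2 + 1) (Q) (k + l - i2 + 1)) (c2 : Par W (k + l + 2) (n) (i2 - k - l - 1)) (tt : Ant W (i2 - m) (i2) (i + l + i2 + 1)) (D1 : Par W (Q) (k3) (n + i2 - m - k3 - 1)) (D2 : Par W (i + l + m + 3) (n) (k3 - i - l - m - 2)) {L : ℤ} (mx : ∀ a b g, 0 < g → g < n → Par W a b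 g → b - a ≤ L) (hL : L ≤ (n - j - 3) ∧ L ≤ (n + Q - k - 3) ∧ L ≤ (n - l - 3) ∧ L ≤ (n + i - k - 2)) (bd0 : Bd W n L (j) (i) (k)) (n1 : Nd W (j) (i) (k)) (n2 : Nd W (i + l + 1) (i2) (k + l + 1)) (n3 : Nd W (n + i2 - m - 1) (i + l + m + 2) (k3)) (b0 : (2 * l + 3) ≤ (n)), False)
    {W : ℤ → G} {n Q i j k l i2 m k3 : ℤ} (al : AL W n Q)
    (hy : (0) ≤ (i) ∧ (i) ≤ (j) ∧ (j + 1) ≤ (Q) ∧ (Q) ≤ (k) ∧ (k + 1) ≤ (n) ∧ (Q) ≤ (i + l + 1) ∧ (k + l + 2) ≤ (n) ∧ (0) ≤ (i2) ∧ (i2 + 1) ≤ (Q) ∧ (Q + m + 1) ≤ (n + i2) ∧ (i2) ≤ (m) ∧ (Q) ≤ (i + l + m + 2) ∧ (i + l + m + 3) ≤ (n) ∧ (Q) ≤ (k3) ∧ (k3 + 1) ≤ (n) ∧ (i + m + 2) ≤ (k) ∧ (i) ≤ (i2) ∧ (i2) ≤ (i) ∧ (i + m + 2) ≤ (k3) ∧ (k3) ≤ (i + l + m + 1) ∧ (m + k3 + 2) ≤ (n + i2))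
    (a1 : Par W (0) (j) (k - j))
    (a2 : Par W (Q + j - k) (j) (k - j))
    (s1 : Ant W (0) (i) (i + j))
    (s2 : Ant W (j + 1) (Q) (i + j))
    (b : Par W (i + 1) (i + l + 1) (k - i))
    (c1 : Par W (i2 + 1) (Q) (k + l - i2 + 1))
    (c2 : Par W (k + l + 2) (n) (i2 - k - l - 1))
    (tt : Ant W (i2 - m) (i2) (i + l + i2 + 1))
    (D1 : Par W (Q) (k3) (n + i2 - m - k3 - 1))
    (D2 : Par W (i + l + m + 3) (n) (k3 - i - l - m - 2))
    {L : ℤ} (mx : ∀ a b g, 0 < g → g < n → Par W a b g → b - a ≤ L)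
    (hL : L ≤ (n - j - 3) ∧ L ≤ (n + Q - k - 3) ∧ L ≤ (n - l - 3) ∧ L ≤ (n + i - k - 2))
    (bd0 : Bd W n L (j) (i) (k))
    (n1 : Nd W (j) (i) (k))
    (n2 : Nd W (i + l + 1) (i2) (k + l + 1))
    (n3 : Nd W (n + i2 - m - 1) (i + l + m + 2) (k3)) : False := by
  have ev := al.ev
  obtain ⟨y0, y1, y2, y3, y4, y5, y6, y7, y8, y9, y10, y11, y12, y13, y14, y15, y16, y17, y18, y19, y20⟩ := id hy
  have n1p := And.intro n1.p1 n1.p2
  have n2p := And.intro n2.p1 n2.p2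
  have n3p := And.intro n3.p1 n3.p2
  by_cases z1 : (n) ≤ (2 * l + 2)
  · have kk1 : (k + 1) ≤ (n + i) := by clear * - y17 y18 y19 y6 y7; omega
    have kk2 : (i + 1) ≤ (k) := by clear * - y10 y15 y7; omega
    have kk3 : (n) ≤ (2 * l + 2) := by clear * - z1; omega
    clear * - al b mx hL kk1 kk2 kk3
    exact absurd (mx (k - n + 1) (k + l - n + 1) (n + i - k) (by omega) (by omega) fun t h1 h2 => (pb b al (-1) t (t + (n + i - k)) (by omega))) (by omega)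
  · exact h8_1 al hy a1 a2 s1 s2 b c1 c2 tt D1 D2 mx hL bd0 n1 n2 n3 (by clear * - z1; omega)

theorem h9_7p
    (h9_8 : ∀ {W : ℤ → G} {n Q i j k l i2 m k3 : ℤ} (al : AL W n Q) (hy : (0) ≤ (i) ∧ (i) ≤ (j) ∧ (j + 1) ≤ (Q) ∧ (Q) ≤ (k) ∧ (k + 1) ≤ (n) ∧ (Q) ≤ (i + l + 1) ∧ (k + l + 2) ≤ (n) ∧ (0) ≤ (i2) ∧ (i2 + 1) ≤ (Q) ∧ (Q + m + 1) ≤ (n + i2) ∧ (i2) ≤ (m) ∧ (Q) ≤ (i + l + m + 2) ∧ (i + l + m + 3) ≤ (n) ∧ (Q) ≤ (k3) ∧ (k3 + 1) ≤ (n) ∧ (i + m + 2) ≤ (k) ∧ (i) ≤ (i2) ∧ (i2) ≤ (i) ∧ (i + m + 1) ≤ (k3) ∧ (k3) ≤ (i + m + 1) ∧ (k3) ≤ (i + l + m + 1) ∧ (m + k3 + 2) ≤ (n + i2)) (a1 : Par W (0) (j) (k - j)) (a2 : Par W (Q + j - k) (j) (k - j)) (s1 : Ant W (0) (i) (i + j)) (s2 : Ant W (j + 1) (Q) (i + j)) (b : Par W (i + 1) (i + l + 1) (k - i)) (c1 : Par W (i2 + 1) (Q) (k + l - i2 + 1)) (c2 : Par W (k + l + 2) (n) (i2 - k - l - 1)) (tt : Ant W (i2 - m) (i2) (i + l + i2 + 1)) (D1 : Par W (Q) (k3) (n + i2 -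 m - k3 - 1)) (D2 : Par W (i + l + m + 3) (n) (k3 - i - l - m - 2)) {L : ℤ} (mx : ∀ a b g, 0 < g → g < n → Par W a b g → b - a ≤ L) (hL : L ≤ (n - j - 3) ∧ L ≤ (n + Q - k - 3) ∧ L ≤ (n - l - 3) ∧ L ≤ (n + i - k - 2)) (bd0 : Bd W n L (j) (i) (k)) (n1 : Nd W (j) (i) (k)) (n2 : Nd W (i + l + 1) (i2) (k + l + 1)) (n3 : Nd W (n + i2 - m - 1) (i + l + m + 2) (k3)) (d1 : ℤ) (q1 : d1 % 2 = 0) (x1 : Par W (i + 1) (k + l - d1 + 1) d1) (b0 : (0) ≤ (d1)) (b1 : (n + i + d1) ≤ (k + 2 * l + 2)) (b2 : (d1) ≤ (0)) (b3 : (2 * k + 2) ≤ (n + Q + i)) (b4 : (2 * Q + k + l) ≤ (n + 2 * j + i2)) (b5 : (2 * i + l + m + 3) ≤ (k + k3)) (b6 : (i + l + 2 * m + 3) ≤ (n + i2)) (b7 : (2 * i + j + 1) ≤ (k)), False)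
    {W : ℤ → G} {n Q i j k l i2 m k3 : ℤ} (al : AL W n Q)
    (hy : (0) ≤ (i) ∧ (i) ≤ (j) ∧ (j + 1) ≤ (Q) ∧ (Q) ≤ (k) ∧ (k + 1) ≤ (n) ∧ (Q) ≤ (i + l + 1) ∧ (k + l + 2) ≤ (n) ∧ (0) ≤ (i2) ∧ (i2 + 1) ≤ (Q) ∧ (Q + m + 1) ≤ (n + i2) ∧ (i2) ≤ (m) ∧ (Q) ≤ (i + l + m + 2) ∧ (i + l + m + 3) ≤ (n) ∧ (Q) ≤ (k3) ∧ (k3 + 1) ≤ (n) ∧ (i + m + 2) ≤ (k) ∧ (i) ≤ (i2) ∧ (i2) ≤ (i) ∧ (i + m + 1) ≤ (k3) ∧ (k3) ≤ (i + m + 1) ∧ (k3) ≤ (i + l + m + 1) ∧ (m + k3 + 2) ≤ (n + i2))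
    (a1 : Par W (0) (j) (k - j))
    (a2 : Par W (Q + j - k) (j) (k - j))
    (s1 : Ant W (0) (i) (i + j))
    (s2 : Ant W (j + 1) (Q) (i + j))
    (b : Par W (i + 1) (i + l + 1) (k - i))
    (c1 : Par W (i2 + 1) (Q) (k + l - i2 + 1))
    (c2 : Par W (k + l + 2) (n) (i2 - k - l - 1))
    (tt : Ant W (i2 - m) (i2) (i + l + i2 + 1))
    (D1 : Par W (Q) (k3) (n + i2 - m - k3 - 1))
    (D2 : Par W (i + l + m + 3) (n) (k3 - i - l - m - 2))
    {L : ℤ} (mx : ∀ a b g, 0 < g → g < n → Par W a b g → b - a ≤ L)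
    (hL : L ≤ (n - j - 3) ∧ L ≤ (n + Q - k - 3) ∧ L ≤ (n - l - 3) ∧ L ≤ (n + i - k - 2))
    (bd0 : Bd W n L (j) (i) (k))
    (n1 : Nd W (j) (i) (k))
    (n2 : Nd W (i + l + 1) (i2) (k + l + 1))
    (n3 : Nd W (n + i2 - m - 1) (i + l + m + 2) (k3))
    (d1 : ℤ) (q1 : d1 % 2 = 0) (x1 : Par W (i + 1) (k + l - d1 + 1) d1)
    (b0 : (0) ≤ (d1))
    (b1 : (n + i + d1) ≤ (k + 2 * l + 2))
    (b2 : (d1) ≤ (0))
    (b3 : (2 * k + 2) ≤ (n + Q + i))
    (b4 : (2 * Q + k + l) ≤ (n + 2 * j + i2))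
    (b5 : (2 * i + l + m + 3) ≤ (k + k3))
    (b6 : (i + l + 2 * m + 3) ≤ (n + i2)) : False := by
  have ev := al.ev
  obtain ⟨y0, y1, y2, y3, y4, y5, y6, y7, y8, y9, y10, y11, y12, y13, y14, y15, y16, y17, y18, y19, y20, y21⟩ := id hy
  have n1p := And.intro n1.p1 n1.p2
  have n2p := And.intro n2.p1 n2.p2
  have n3p := And.intro n3.p1 n3.p2
  by_cases z7 : (k) ≤ (2 * i + j)
  · by_cases v2 : (i + j + 1) ≤ (k)
    · have kk31 : (j + 1) ≤ (k) := by clear * - v2 z7; omega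
      have kk32 : (k) ≤ (2 * i + j) := by clear * - z7; omega
      have kk33 : (k) ≤ (2 * i + 3 * j + 2) := by clear * - b0 b1 b5 b6 y10 y16 y19 z7; omega
      have kk34 : (0) ≤ (j + k) := by clear * - b5 y20 z7; omega
      have kk35 : (i + j + 1) ≤ (k) := by clear * - v2; omega
      have r36 : (i + j - 2 * n) % 2 = 0 := by clear * - ev n1p n2p n3p q1; omega
      have r37 : (k - j) % 2 = 0 := by clear * - ev n1p n2p n3p q1; omega
      clear * - al a1 s1 kk31 kk32 kk33 kk34 kk35 r36 r37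
      exact midP al (k - j) (i + j - 2 * n) (-n) (-n) (k - n) (by omega) (fun t h1 h2 => (cE (qa s1 al (-1) t ((i + j - n) - t) (by omega)) (sh al (-1) ((i + j - n) - t) ((i + j - 2 * n) - t) (by omega)))) (fun t h1 h2 => (cE (qf a1 al (-1) t (t + (n + k - j)) (by omega)) (sh al (-1) (t + (n + k - j)) (t + (k - j)) (by omega))))
    · have kk38 : (j + 1) ≤ (k) := by clear * - b0 b1 b5 b6 y13 y17 y19 y2; omega
      have kk39 : (j + 2) ≤ (k) := by clear * - b0 b1 b5 b6 y13 y17 y19 y2; omega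
      have kk40 : (0) ≤ (j + k) := by clear * - b5 y20 z7; omega
      have kk41 : (2 * i + j + 2) ≤ (3 * k) := by clear * - b0 b1 b4 b5 b6 y13 y17 y19 y2; omega
      have kk42 : (k) ≤ (i + j + 1) := by clear * - v2; omega
      have r43 : (i + j - 2 * n) % 2 = 0 := by clear * - ev n1p n2p n3p q1; omega
      have r44 : (k - j) % 2 = 0 := by clear * - ev n1p n2p n3p q1; omega
      clear * - al a1 s1 kk38 kk39 kk40 kk41 kk42 r43 r44
      exact midP al (k - j) (i + j - 2 * n) (i + j - n - k + 1) (-n) (k - n) (by omega) (fun t h1 h2 => (cE (qa s1 al (-1) t ((i + j - n) - t) (by omega)) (sh al (-1) ((i + j - n) - t) ((i + j - 2 * n) - t) (by omega)))) (fun t h1 h2 => (cE (qf a1 al (-1) t (t + (n + k - j)) (by omega)) (sh al (-1) (t + (n + k - j)) (t + (k - j)) (by omega))))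
  · exact h9_8 al hy a1 a2 s1 s2 b c1 c2 tt D1 D2 mx hL bd0 n1 n2 n3 d1 q1 x1 (by clear * - b0; omega) (by clear * - b1; omega) (by clear * - b2; omega) (by clear * - b3; omega) (by clear * - b4; omega) (by clear * - b5; omega) (by clear * - b6; omega) (by clear * - z7; omega)

theorem h9_2p
    (h9_3 : ∀ {W : ℤ → G} {n Q i j k l i2 m k3 : ℤ} (al : AL W n Q) (hy : (0) ≤ (i) ∧ (i) ≤ (j) ∧ (j + 1) ≤ (Q) ∧ (Q) ≤ (k) ∧ (k + 1) ≤ (n) ∧ (Q) ≤ (i + l + 1) ∧ (k + l + 2) ≤ (n) ∧ (0) ≤ (i2) ∧ (i2 + 1) ≤ (Q) ∧ (Q + m + 1) ≤ (n + i2) ∧ (i2) ≤ (m) ∧ (Q) ≤ (i + l + m + 2) ∧ (i + l + m + 3) ≤ (n) ∧ (Q) ≤ (k3) ∧ (k3 + 1) ≤ (n) ∧ (i + m + 2) ≤ (k) ∧ (i) ≤ (i2) ∧ (i2) ≤ (i) ∧ (i + m + 1) ≤ (k3) ∧ (k3) ≤ (i + m + 1) ∧ (k3) ≤ (i + l + m + 1) ∧ (m + k3 + 2) ≤ (n + i2)) (a1 : Par W (0) (j) (k - j)) (a2 : Par W (Q + j - k) (j) (k - j)) (s1 : Ant W (0) (i) (i + j)) (s2 : Ant W (j + 1) (Q) (i + j)) (b : Par W (i + 1)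 (i + l + 1) (k - i)) (c1 : Par W (i2 + 1) (Q) (k + l - i2 + 1)) (c2 : Par W (k + l + 2) (n) (i2 - k - l - 1)) (tt : Ant W (i2 - m) (i2) (i + l + i2 + 1)) (D1 : Par W (Q) (k3) (n + i2 - m - k3 - 1)) (D2 : Par W (i + l + m + 3) (n) (k3 - i - l - m - 2)) {L : ℤ} (mx : ∀ a b g, 0 < g → g < n → Par W a b g → b - a ≤ L) (hL : L ≤ (n - j - 3) ∧ L ≤ (n + Q - k - 3) ∧ L ≤ (n - l - 3) ∧ L ≤ (n + i - k - 2)) (bd0 : Bd W n L (j) (i) (k)) (n1 : Nd W (j) (i) (k)) (n2 : Nd W (i + l + 1) (i2) (k + l + 1)) (n3 : Nd W (n + i2 - m - 1) (i + l + m + 2) (k3)) (d1 : ℤ) (q1 : d1 % 2 = 0) (x1 : Par W (i + 1) (k + l - d1 + 1) d1) (b0 : (i + l + 1) ≤ (k + d1)) (b1 : (0) ≤ (d1)) (b2 : (n + i + d1) ≤ (k + 2 * l + 2)) (b3 : (d1) ≤ (0)), False)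
    {W : ℤ → G} {n Q i j k l i2 m k3 : ℤ} (al : AL W n Q)
    (hy : (0) ≤ (i) ∧ (i) ≤ (j) ∧ (j + 1) ≤ (Q) ∧ (Q) ≤ (k) ∧ (k + 1) ≤ (n) ∧ (Q) ≤ (i + l + 1) ∧ (k + l + 2) ≤ (n) ∧ (0) ≤ (i2) ∧ (i2 + 1) ≤ (Q) ∧ (Q + m + 1) ≤ (n + i2) ∧ (i2) ≤ (m) ∧ (Q) ≤ (i + l + m + 2) ∧ (i + l + m + 3) ≤ (n) ∧ (Q) ≤ (k3) ∧ (k3 + 1) ≤ (n) ∧ (i + m + 2) ≤ (k) ∧ (i) ≤ (i2) ∧ (i2) ≤ (i) ∧ (i + m + 1) ≤ (k3) ∧ (k3) ≤ (i + m + 1) ∧ (k3) ≤ (i + l + m + 1) ∧ (m + k3 + 2) ≤ (n + i2))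
    (a1 : Par W (0) (j) (k - j))
    (a2 : Par W (Q + j - k) (j) (k - j))
    (s1 : Ant W (0) (i) (i + j))
    (s2 : Ant W (j + 1) (Q) (i + j))
    (b : Par W (i + 1) (i + l + 1) (k - i))
    (c1 : Par W (i2 + 1) (Q) (k + l - i2 + 1))
    (c2 : Par W (k + l + 2) (n) (i2 - k - l - 1))
    (tt : Ant W (i2 - m) (i2) (i + l + i2 + 1))
    (D1 : Par W (Q) (k3) (n + i2 - m - k3 - 1))
    (D2 : Par W (i + l + m + 3) (n) (k3 - i - l - m - 2))
    {L : ℤ} (mx : ∀ a b g, 0 < g → g < n → Par W a b g → b - a ≤ L)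
    (hL : L ≤ (n - j - 3) ∧ L ≤ (n + Q - k - 3) ∧ L ≤ (n - l - 3) ∧ L ≤ (n + i - k - 2))
    (bd0 : Bd W n L (j) (i) (k))
    (n1 : Nd W (j) (i) (k))
    (n2 : Nd W (i + l + 1) (i2) (k + l + 1))
    (n3 : Nd W (n + i2 - m - 1) (i + l + m + 2) (k3))
    (d1 : ℤ) (q1 : d1 % 2 = 0) (x1 : Par W (i + 1) (k + l - d1 + 1) d1)
    (b0 : (i + l + 1) ≤ (k + d1))
    (b1 : (0) ≤ (d1))
    (b2 : (n + i + d1) ≤ (k + 2 * l + 2)) : False := by
  have ev := al.ev
  obtain ⟨y0, y1, y2, y3, y4, y5, y6, y7, y8, y9, y10, y11, y12, y13, y14, y15, y16, y17, y18, y19, y20, y21⟩ := id hy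
  have n1p := And.intro n1.p1 n1.p2
  have n2p := And.intro n2.p1 n2.p2
  have n3p := And.intro n3.p1 n3.p2
  by_cases z2 : (1) ≤ (d1)
  · have kk4 : (d1 + 1) ≤ (n) := by clear * - b0 b2 y17 y6 y7; omega
    have kk5 : (1) ≤ (d1) := by clear * - z2; omega
    have kk6 : (n + i + d1) ≤ (k + 2 * l + 2) := by clear * - b2; omega
    clear * - al x1 mx hL kk4 kk5 kk6
    exact absurd (mx (n + i + d1 + 1) (n + k + l + 1) (n - d1) (by omega) (by omega) fun t h1 h2 => (cE (pb x1 al 1 t (t + (-n - d1)) (by omega)) (sh al 2 (t + (-n - d1)) (t + (n - d1)) (by omega)))) (by omega)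
  · exact h9_3 al hy a1 a2 s1 s2 b c1 c2 tt D1 D2 mx hL bd0 n1 n2 n3 d1 q1 x1 (by clear * - b0; omega) (by clear * - b1; omega) (by clear * - b2; omega) (by clear * - z2; omega)

theorem h9_33p
    (h9_34 : ∀ {W : ℤ → G} {n Q i j k l i2 m k3 : ℤ} (al : AL W n Q) (hy : (0) ≤ (i) ∧ (i) ≤ (j) ∧ (j + 1) ≤ (Q) ∧ (Q) ≤ (k) ∧ (k + 1) ≤ (n) ∧ (Q) ≤ (i + l + 1) ∧ (k + l + 2) ≤ (n) ∧ (0) ≤ (i2) ∧ (i2 + 1) ≤ (Q) ∧ (Q + m + 1) ≤ (n + i2) ∧ (i2) ≤ (m) ∧ (Q) ≤ (i + l + m + 2) ∧ (i + l + m + 3) ≤ (n) ∧ (Q) ≤ (k3) ∧ (k3 + 1) ≤ (n) ∧ (i + m + 2) ≤ (k) ∧ (i) ≤ (i2) ∧ (i2) ≤ (i) ∧ (i + m + 1) ≤ (k3) ∧ (k3) ≤ (i + m + 1) ∧ (k3) ≤ (i + l + m + 1) ∧ (m + k3 + 2) ≤ (n + i2)) (a1 : Par W (0) (j) (k - j)) (a2 : Par W (Q + j - k) (j) (k - j)) (s1 : Ant W (0) (i) (i + j)) (s2 : Ant W (j + 1) (Q) (i + j)) (b : Par W (i + 1) (i + l + 1) (k - i)) (c1 : Par W (i2 + 1) (Q) (k + l - i2 + 1)) (c2 : Par W (k + l + 2) (n) (i2 -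 k - l - 1)) (tt : Ant W (i2 - m) (i2) (i + l + i2 + 1)) (D1 : Par W (Q) (k3) (n + i2 - m - k3 - 1)) (D2 : Par W (i + l + m + 3) (n) (k3 - i - l - m - 2)) {L : ℤ} (mx : ∀ a b g, 0 < g → g < n → Par W a b g → b - a ≤ L) (hL : L ≤ (n - j - 3) ∧ L ≤ (n + Q - k - 3) ∧ L ≤ (n - l - 3) ∧ L ≤ (n + i - k - 2)) (bd0 : Bd W n L (j) (i) (k)) (n1 : Nd W (j) (i) (k)) (n2 : Nd W (i + l + 1) (i2) (k + l + 1)) (n3 : Nd W (n + i2 - m - 1) (i + l + m + 2) (k3)) (d1 : ℤ) (q1 : d1 % 2 = 0) (x1 : Par W (i + 1) (k + l - d1 + 1) d1) (b0 : (i + l + 1) ≤ (k + d1)) (b1 : (d1) ≤ (l)) (b2 : (k + 2 * l + 3) ≤ (n + i + d1)) (b3 : (2 * l + 3) ≤ (n)) (b4 : (k + 2 * m + 1) ≤ (n + j)) (b5 : (i + k + 2 * m) ≤ (2 * j + 2 * k3)) (b6 : (i + i2 + m + 2) ≤ (j + k3)) (b7 : (i + l + 2 * m + 2) ≤ (n + i2)) (b8 : (n + k3) ≤ (2 * i + 2 * l + i2 + m + 4)) (b9 : (i + 2 * j + 1) ≤ (k)) (b10 : (2 * n + 2 * i2 + k3 + d1) ≤ (i + 2 * k + 3 * l +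 3 * m + 4)), False)
    (h9_35 : ∀ {W : ℤ → G} {n Q i j k l i2 m k3 : ℤ} (al : AL W n Q) (hy : (0) ≤ (i) ∧ (i) ≤ (j) ∧ (j + 1) ≤ (Q) ∧ (Q) ≤ (k) ∧ (k + 1) ≤ (n) ∧ (Q) ≤ (i + l + 1) ∧ (k + l + 2) ≤ (n) ∧ (0) ≤ (i2) ∧ (i2 + 1) ≤ (Q) ∧ (Q + m + 1) ≤ (n + i2) ∧ (i2) ≤ (m) ∧ (Q) ≤ (i + l + m + 2) ∧ (i + l + m + 3) ≤ (n) ∧ (Q) ≤ (k3) ∧ (k3 + 1) ≤ (n) ∧ (i + m + 2) ≤ (k) ∧ (i) ≤ (i2) ∧ (i2) ≤ (i) ∧ (i + m + 1) ≤ (k3) ∧ (k3) ≤ (i + m + 1) ∧ (k3) ≤ (i + l + m + 1) ∧ (m + k3 + 2) ≤ (n + i2)) (a1 : Par W (0) (j) (k - j)) (a2 : Par W (Q + j - k) (j) (k - j)) (s1 : Ant W (0) (i) (i + j)) (s2 : Ant W (j + 1) (Q) (i + j)) (b : Par W (i + 1) (i + l + 1) (k - i)) (c1 : Par W (i2 + 1) (Q) (k + l - i2 + 1)) (c2 : Par W (k + l + 2) (n) (i2 - k - l - 1)) (tt : Ant W (i2 - m) (i2) (i + l + i2 + 1)) (D1 : Par W (Q) (k3) (n + i2 - m - k3 - 1)) (D2 : Par W (i + l + m + 3) (n) (k3 - i - l - m - 2)) {L : ℤ} (mx : ∀ a b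 g, 0 < g → g < n → Par W a b g → b - a ≤ L) (hL : L ≤ (n - j - 3) ∧ L ≤ (n + Q - k - 3) ∧ L ≤ (n - l - 3) ∧ L ≤ (n + i - k - 2)) (bd0 : Bd W n L (j) (i) (k)) (n1 : Nd W (j) (i) (k)) (n2 : Nd W (i + l + 1) (i2) (k + l + 1)) (n3 : Nd W (n + i2 - m - 1) (i + l + m + 2) (k3)) (d1 : ℤ) (q1 : d1 % 2 = 0) (x1 : Par W (i + 1) (k + l - d1 + 1) d1) (b0 : (i + l + 1) ≤ (k + d1)) (b1 : (d1) ≤ (l)) (b2 : (k + 2 * l + 3) ≤ (n + i + d1)) (b3 : (2 * l + 3) ≤ (n)) (b4 : (i + k + 2 * m) ≤ (2 * j + 2 * k3)) (b5 : (i + i2 + m + 2) ≤ (j + k3)) (b6 : (n + k3) ≤ (2 * i + 2 * l + i2 + m + 4)) (b7 : (i + 2 * j + 1) ≤ (k)) (b8 : (i + 2 * k + 3 * l + 3 * m + 5) ≤ (2 * n + 2 * i2 + k3 + d1)), False)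
    {W : ℤ → G} {n Q i j k l i2 m k3 : ℤ} (al : AL W n Q)
    (hy : (0) ≤ (i) ∧ (i) ≤ (j) ∧ (j + 1) ≤ (Q) ∧ (Q) ≤ (k) ∧ (k + 1) ≤ (n) ∧ (Q) ≤ (i + l + 1) ∧ (k + l + 2) ≤ (n) ∧ (0) ≤ (i2) ∧ (i2 + 1) ≤ (Q) ∧ (Q + m + 1) ≤ (n + i2) ∧ (i2) ≤ (m) ∧ (Q) ≤ (i + l + m + 2) ∧ (i + l + m + 3) ≤ (n) ∧ (Q) ≤ (k3) ∧ (k3 + 1) ≤ (n) ∧ (i + m + 2) ≤ (k) ∧ (i) ≤ (i2) ∧ (i2) ≤ (i) ∧ (i + m + 1) ≤ (k3) ∧ (k3) ≤ (i + m + 1) ∧ (k3) ≤ (i + l + m + 1) ∧ (m + k3 + 2) ≤ (n + i2))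
    (a1 : Par W (0) (j) (k - j))
    (a2 : Par W (Q + j - k) (j) (k - j))
    (s1 : Ant W (0) (i) (i + j))
    (s2 : Ant W (j + 1) (Q) (i + j))
    (b : Par W (i + 1) (i + l + 1) (k - i))
    (c1 : Par W (i2 + 1) (Q) (k + l - i2 + 1))
    (c2 : Par W (k + l + 2) (n) (i2 - k - l - 1))
    (tt : Ant W (i2 - m) (i2) (i + l + i2 + 1))
    (D1 : Par W (Q) (k3) (n + i2 - m - k3 - 1))
    (D2 : Par W (i + l + m + 3) (n) (k3 - i - l - m - 2))
    {L : ℤ} (mx : ∀ a b g, 0 < g → g < n → Par W a b g → b - a ≤ L)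
    (hL : L ≤ (n - j - 3) ∧ L ≤ (n + Q - k - 3) ∧ L ≤ (n - l - 3) ∧ L ≤ (n + i - k - 2))
    (bd0 : Bd W n L (j) (i) (k))
    (n1 : Nd W (j) (i) (k))
    (n2 : Nd W (i + l + 1) (i2) (k + l + 1))
    (n3 : Nd W (n + i2 - m - 1) (i + l + m + 2) (k3))
    (d1 : ℤ) (q1 : d1 % 2 = 0) (x1 : Par W (i + 1) (k + l - d1 + 1) d1)
    (b0 : (i + l + 1) ≤ (k + d1))
    (b1 : (d1) ≤ (l))
    (b2 : (k + 2 * l + 3) ≤ (n + i + d1))
    (b3 : (2 * l + 3) ≤ (n))
    (b4 : (k + 2 * m + 1) ≤ (n + j))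
    (b5 : (i + k + 2 * m) ≤ (2 * j + 2 * k3))
    (b6 : (i + i2 + m + 2) ≤ (j + k3))
    (b7 : (i + l + 2 * m + 2) ≤ (n + i2))
    (b8 : (n + k3) ≤ (2 * i + 2 * l + i2 + m + 4))
    (b9 : (i + 2 * j + 1) ≤ (k)) : False := by
  have ev := al.ev
  obtain ⟨y0, y1, y2, y3, y4, y5, y6, y7, y8, y9, y10, y11, y12, y13, y14, y15, y16, y17, y18, y19, y20, y21⟩ := id hy
  have n1p := And.intro n1.p1 n1.p2
  have n2p := And.intro n2.p1 n2.p2
  have n3p := And.intro n3.p1 n3.p2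
  by_cases z54 : (2 * n + 2 * i2 + k3 + d1) ≤ (i + 2 * k + 3 * l + 3 * m + 4)
  · exact h9_34 al hy a1 a2 s1 s2 b c1 c2 tt D1 D2 mx hL bd0 n1 n2 n3 d1 q1 x1 (by clear * - b0; omega) (by clear * - b1; omega) (by clear * - b2; omega) (by clear * - b3; omega) (by clear * - b4; omega) (by clear * - b5; omega) (by clear * - b6; omega) (by clear * - b7; omega) (by clear * - b8; omega) (by clear * - b9; omega) (by clear * - z54; omega)
  · exact h9_35 al hy a1 a2 s1 s2 b c1 c2 tt D1 D2 mx hL bd0 n1 n2 n3 d1 q1 x1 (by clear * - b0; omega) (by clear * - b1; omega) (by clear * - b2; omega) (by clear * - b3; omega) (by clear * - b5; omega) (by clear * - b6; omega) (by clear * - b8; omega) (by clear * - b9; omega) (by clear * - z54; omega)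

theorem h9_39p
    {W : ℤ → G} {n Q i j k l i2 m k3 : ℤ} (al : AL W n Q)
    (hy : (0) ≤ (i) ∧ (i) ≤ (j) ∧ (j + 1) ≤ (Q) ∧ (Q) ≤ (k) ∧ (k + 1) ≤ (n) ∧ (Q) ≤ (i + l + 1) ∧ (k + l + 2) ≤ (n) ∧ (0) ≤ (i2) ∧ (i2 + 1) ≤ (Q) ∧ (Q + m + 1) ≤ (n + i2) ∧ (i2) ≤ (m) ∧ (Q) ≤ (i + l + m + 2) ∧ (i + l + m + 3) ≤ (n) ∧ (Q) ≤ (k3) ∧ (k3 + 1) ≤ (n) ∧ (i + m + 2) ≤ (k) ∧ (i) ≤ (i2) ∧ (i2) ≤ (i) ∧ (i + m + 1) ≤ (k3) ∧ (k3) ≤ (i + m + 1) ∧ (k3) ≤ (i + l + m + 1) ∧ (m + k3 + 2) ≤ (n + i2))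
    (a1 : Par W (0) (j) (k - j))
    (a2 : Par W (Q + j - k) (j) (k - j))
    (s1 : Ant W (0) (i) (i + j))
    (s2 : Ant W (j + 1) (Q) (i + j))
    (b : Par W (i + 1) (i + l + 1) (k - i))
    (c1 : Par W (i2 + 1) (Q) (k + l - i2 + 1))
    (c2 : Par W (k + l + 2) (n) (i2 - k - l - 1))
    (tt : Ant W (i2 - m) (i2) (i + l + i2 + 1))
    (D1 : Par W (Q) (k3) (n + i2 - m - k3 - 1))
    (D2 : Par W (i + l + m + 3) (n) (k3 - i - l - m - 2))
    {L : ℤ} (mx : ∀ a b g, 0 < g → g < n → Par W a b g → b - a ≤ L)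
    (hL : L ≤ (n - j - 3) ∧ L ≤ (n + Q - k - 3) ∧ L ≤ (n - l - 3) ∧ L ≤ (n + i - k - 2))
    (bd0 : Bd W n L (j) (i) (k))
    (n1 : Nd W (j) (i) (k))
    (n2 : Nd W (i + l + 1) (i2) (k + l + 1))
    (n3 : Nd W (n + i2 - m - 1) (i + l + m + 2) (k3))
    (d1 : ℤ) (q1 : d1 % 2 = 0) (x1 : Par W (i + 1) (k + l - d1 + 1) d1)
    (b0 : (i + l + 1) ≤ (k + d1))
    (b1 : (d1) ≤ (l))
    (b2 : (0) ≤ (d1))
    (b3 : (k + 2 * l + 3) ≤ (n + i + d1))
    (b4 : (n + i2) ≤ (i + k + 2 * l + 2))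
    (b5 : (i + k + 2 * m) ≤ (2 * j + 2 * k3))
    (b6 : (i + i2 + m + 2) ≤ (j + k3))
    (b7 : (2 * i + 2 * l + 3 * m + 4) ≤ (n + i2 + k3))
    (b8 : (k + i2) ≤ (i + j + l + 1))
    (b9 : (i + 2 * j + 1) ≤ (k)) : False := by
  have ev := al.ev
  obtain ⟨y0, y1, y2, y3, y4, y5, y6, y7, y8, y9, y10, y11, y12, y13, y14, y15, y16, y17, y18, y19, y20, y21⟩ := id hy
  have n1p := And.intro n1.p1 n1.p2
  have n2p := And.intro n2.p1 n2.p2
  have n3p := And.intro n3.p1 n3.p2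
  by_cases z77 : (2 * i + l + m + 2) ≤ (j + k3 + d1)
  · have kk879 : (0) ≤ (i) := by clear * - y17 y7; omega
    have kk880 : (i + 1) ≤ (j) := by clear * - b1 y19 z77; omega
    have kk881 : (k3 + d1) ≤ (i + l + m + 1) := by clear * - b1 y19; omega
    have kk882 : (2 * i + l + m + 2) ≤ (j + k3 + d1) := by clear * - z77; omega
    have kk883 : (j + k3 + 1) ≤ (i + k) := by clear * - b4 b7 b9 y17 y19 y7 ev n1p n2p n3p q1; omega
    have kk884 : (i + m + 1) ≤ (k3) := by clear * - b5 b9; omega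
    have kk885 : (0) ≤ (i + 1) := by clear * - y17 y7; omega
    have kk886 : (j) ≤ (i + l + 1) := by clear * - b8 b9 y17 y7; omega
    have kk887 : (d1) ≤ (l + m + 2) := by clear * - b1 y13 y16 y19 y8; omega
    have kk888 : (k + l + 1) ≤ (n) := by clear * - y6; omega
    have r889 : (j - i) % 2 = 0 := by clear * - ev n1p n2p n3p q1; omega
    have r890 : (i + l + m - k3 - d1 + 2) % 2 = 0 := by clear * - ev n1p n2p n3p q1; omega
    clear * - al a1 b D2 x1 n1 kk879 kk880 kk881 kk882 kk883 kk884 kk885 kk886 kk887 kk888 r889 r890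
    exact n1.f1 (rEE (cE (qf a1 al 0 (i) (i + k - j) (by omega)) (sh al (-1) (i + k - j) (i + k - n - j) (by omega))) (sh al (-1) (k) (k - n) (by omega)) (rotL (j - i) (i + l + m - k3 - d1 + 2) (i + k - n - j) (k - n) (by omega) (fun t h1 h2 => (cE (cE (pb a1 al (-1) t (t + (n + j - k)) (by omega)) (qf b al 0 (t + (n + j - k)) (t + (n + j - i)) (by omega))) (sh al (-1) (t + (n + j - i)) (t + (j - i)) (by omega)))) (fun t h1 h2 => (cE (cE (pb D2 al (-1) t (t + (n + i + l + m - k3 + 2)) (by omega)) (pb x1 al 0 (t + (n + i + l + m - k3 + 2)) (t + (n + i + l + m - k3 - d1 + 2)) (by omega))) (sh al (-1) (t + (n + i + l + m - k3 - d1 + 2)) (t + (i + l + m - k3 - d1 + 2)) (by omega))))))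
  · by_cases z78 : (1) ≤ (d1)
    · by_cases z79 : (i + m + d1 + 1) ≤ (k)
      · have kk891 : (k3) ≤ (i + l + m + 1) := by clear * - y20; omega
        have kk892 : (1) ≤ (d1) := by clear * - z78; omega
        have kk893 : (i + l + m + d1 + 2) ≤ (n) := by clear * - b1 b7 y10 y19; omega
        have kk894 : (i + 1) ≤ (k3) := by clear * - y13 y16 y8; omega
        have kk895 : (i + m + d1 + 1) ≤ (k) := by clear * - z79; omega
        have r896 : (i + l + m - k3 + 2) % 2 = 0 := by clear * - ev n1p n2p n3p q1; omega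
        have r897 : (d1) % 2 = 0 := by clear * - ev n1p n2p n3p q1; omega
        clear * - al D2 x1 n3 kk891 kk892 kk893 kk894 kk895 r896 r897
        exact n3.f1 (rEE (sh al 1 (i + l + m + 2) (n + i + l + m + 2) (by omega)) (sh al 1 (k3) (n + k3) (by omega)) (Eq.symm (rotL (i + l + m - k3 + 2) (d1) (n + k3) (n + i + l + m + 2) (by omega) (fun t h1 h2 => (cE (pb D2 al 1 t (t + (i + l + m - n - k3 + 2)) (by omega)) (sh al 1 (t + (i + l + m - n - k3 + 2)) (t + (i + l + m - k3 + 2)) (by omega)))) (fun t h1 h2 => (cE (qf x1 al 1 t (t + (d1 - n)) (by omega)) (sh al 1 (t + (d1 - n)) (t + (d1)) (by omega)))))))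
      · by_cases z80 : (i + d1 + 1) ≤ (k)
        · by_cases z81 : (k) ≤ (i + j + d1 + 1)
          · have kk898 : (1) ≤ (d1) := by clear * - z78; omega
            have kk899 : (d1) ≤ (l) := by clear * - b1; omega
            have kk900 : (j + 1) ≤ (k) := by clear * - b0 b5 b9 z77; omega
            have kk901 : (0) ≤ (j) := by clear * - z80 z81; omega
            have kk902 : (0) ≤ (i + d1) := by clear * - b0 b5 b9 z77 z81; omega
            have kk903 : (i + d1 + 1) ≤ (k) := by clear * - z80; omega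
            have kk904 : (k) ≤ (i + 2 * j + 2) := by clear * - b5 y19; omega
            have kk905 : (i + d1) ≤ (k) := by clear * - z80; omega
            have kk906 : (j + 1) ≤ (d1) := by clear * - b9 z81 ev n1p n2p n3p q1; omega
            have kk907 : (d1) ≤ (l + 1) := by clear * - b1; omega
            have kk908 : (j) ≤ (i + d1) := by clear * - b9 y17 y7 z81; omega
            have kk909 : (j) ≤ (k) := by clear * - b0 b5 b9 z77; omega
            have kk910 : (0) ≤ (j + 1) := by clear * - z80 z81; omega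
            have kk911 : (i) ≤ (k) := by clear * - z78 z80; omega
            have kk912 : (i + j + 1) ≤ (k) := by clear * - b9 z80 z81; omega
            have r913 : (i + d1 - j) % 2 = 0 := by clear * - ev n1p n2p n3p q1; omega
            have r914 : (k - j) % 2 = 0 := by clear * - ev n1p n2p n3p q1; omega
            have r915 : (i + j - 2 * n) % 2 = 0 := by clear * - ev n1p n2p n3p q1; omega
            clear * - al a1 s1 b x1 n1 kk898 kk899 kk900 kk901 kk902 kk903 kk904 kk905 kk906 kk907 kk908 kk909 kk910 kk911 kk912 r913 r914 r915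
            exact ivt al.ninv (-n) (j - n) (k - j) (-n) (j - n) (i + d1 - j) (j - n) (i + d1 - n) 0 (fun t h1 h2 => (cE (qf a1 al (-1) t (t + (n + k - j)) (by omega)) (sh al (-1) (t + (n + k - j)) (t + (k - j)) (by omega)))) (fun t h1 h2 => (cE (cE (qf a1 al (-1) t (t + (n + k - j)) (by omega)) (pb (show Par W (i + 1) (i + l + 1) (k - i - d1) from fun t h1 h2 => (cE (sh al (-1) t (t + (-n)) (by omega)) (cE (qf b al (-1) (t + (-n)) (t + (k - i)) (by omega)) (pb x1 al 0 (t + (k - i)) (t + (k - i - d1)) (by omega))))) al 0 (t + (n + k - j)) (t + (n + i + d1 - j)) (by omega))) (sh al (-1) (t + (n + i + d1 - j)) (t + (i + d1 - j)) (by omega)))) (fun hh => n1.f0 (rEE (sh al (-1) (j) (j - n) (by omega)) (cE (pb (show Par W (i + 1) (i + l + 1) (k - i - d1) from fun t h1 h2 => (cE (sh al (-1) t (t + (-n)) (by omega)) (cE (qf b al (-1) (t + (-n)) (t + (k - i)) (by omega)) (pb x1 al 0 (t + (k - i)) (t +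 (k - i - d1)) (by omega))))) al 0 (k) (i + d1) (by omega)) (sh al (-1) (i + d1) (i + d1 - n) (by omega))) (Eq.symm hh))) (by omega) (j - n + 1) (i + j - n + 1) (i + j - 2 * n) 0 0 (fun t h1 h2 => (cE (ab s1 al (-1) t ((i + j - n) - t) (by omega)) (sh al (-1) ((i + j - n) - t) ((i + j - 2 * n) - t) (by omega)))) (by omega)
          · have kk916 : (j + d1 + 1) ≤ (k) := by clear * - b4 b5 b7 y19 z79 z81; omega
            have kk917 : (k) ≤ (2 * i + j + d1) := by clear * - b4 b5 b7 y19 z79 z81; omega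
            have kk918 : (j + d1 + 2) ≤ (k) := by clear * - b4 b5 b7 y19 z79 z81; omega
            have kk919 : (i + j + d1 + 1) ≤ (k) := by clear * - z81; omega
            have kk920 : (0) ≤ (l + 1) := by clear * - b1 z78; omega
            have kk921 : (0) ≤ (j + 1) := by clear * - b5 y19 z78 z81; omega
            have kk922 : (i + d1) ≤ (k) := by clear * - z80; omega
            have r923 : (i + j) % 2 = 0 := by clear * - ev n1p n2p n3p q1; omega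
            have r924 : (k - j - d1) % 2 = 0 := by clear * - ev n1p n2p n3p q1; omega
            clear * - al a1 s1 x1 kk916 kk917 kk918 kk919 kk920 kk921 kk922 r923 r924
            exact midP al (k - j - d1) (i + j) (j + 1) (0) (k - d1) (by omega) (fun t h1 h2 => (ab s1 al 0 t ((i + j) - t) (by omega))) (fun t h1 h2 => (cE (qf a1 al 0 t (t + (k - j)) (by omega)) (pb x1 al 0 (t + (k - j)) (t + (k - j - d1)) (by omega))))
        · by_cases z82 : (i + j + l + 2) ≤ (k + i2 + d1)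
          · have kk925 : (k + d1) ≤ (i + j + l + i2 + 1) := by clear * - b5 y16 y19 z77 ev n1p n2p n3p q1; omega
            have kk926 : (i + j + l + 2) ≤ (k + i2 + d1) := by clear * - z82; omega
            have kk927 : (i2) ≤ (m) := by clear * - y10; omega
            have kk928 : (i + i2 + 1) ≤ (k) := by clear * - b1 b6 b9 y19 z82; omega
            have kk929 : (i2) ≤ (j) := by clear * - b6 y19; omega
            have kk930 : (d1) ≤ (l + 1) := by clear * - b1; omega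
            have r931 : (i + k + l + i2 - 2 * n - j - d1 + 1) % 2 = 0 := by clear * - ev n1p n2p n3p q1; omega
            clear * - al a1 tt x1 kk925 kk926 kk927 kk928 kk929 kk930 r931
            obtain ⟨t, ht⟩ : ∃ t, 2 * t = (i + k + l + i2 - 2 * n - j - d1 + 1) := ⟨(i + k + l + i2 - 2 * n - j - d1 + 1) / 2, by omega⟩
            exact al.ninv t (cE (cE (cI (pb a1 al (-1) t (t + (n + j - k)) (by omega)) (qa tt al 0 (t + (n + j - k)) ((i + k + l + i2 - n - j + 1) - t) (by omega))) (pb x1 al 0 ((i + k + l + i2 - n - j + 1) - t) ((i + k + l + i2 - n - j - d1 + 1) - t) (by omega))) (sh al (-1) ((i + k + l + i2 - n - j - d1 + 1) - t) t (by omega)))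
          · by_cases z83 : (2 * i + k + 2 * l + 2 * m + 5) ≤ (n + j + 2 * k3)
            · by_cases z84 : (j + k3 + 1) ≤ (k)
              · have kk932 : (2 * i + k + 2 * l + 2 * m + 5) ≤ (n + j + 2 * k3) := by clear * - z83; omega
                have kk933 : (j + 2 * k3) ≤ (2 * i + k + 2 * l + 2 * m + 3) := by clear * - b0 b5 b9 y20 z77; omega
                have kk934 : (j + k3 + 1) ≤ (k) := by clear * - z84; omega
                have kk935 : (k3) ≤ (i + l + m + 2) := by clear * - y20; omega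
                have kk936 : (Q) ≤ (k3 + 1) := by clear * - y13; omega
                have kk937 : (n + 2 * k3) ≤ (2 * i + k + 2 * l + 2 * m + 4) := by clear * - b4 y16 y19; omega
                clear * - al a2 D2 kk932 kk933 kk934 kk935 kk936 kk937
                exact al.ubP (n + j + 2 * k3 - 2 * i - k - 2 * l - 2 * m - 4) (by omega) (by omega) fun t h1 h2 => (cE (cE (qf D2 al (-1) t (t + (n + k3 - i - l - m - 2)) (by omega)) (qf D2 al 0 (t + (n + k3 - i - l - m - 2)) (t + (n + 2 * k3 - 2 * i - 2 * l - 2 * m - 4)) (by omega))) (pb a2 al 0 (t + (n + 2 * k3 - 2 * i - 2 * l - 2 * m - 4)) (t + (n + j + 2 * k3 - 2 * i - k - 2 * l - 2 * m - 4)) (by omega)))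
              · have kk938 : (2 * k + l + d1 + 2) ≤ (n + j + i2) := by clear * - b7 b9 y16 y19 z82 z84 ev n1p n2p n3p q1; omega
                have kk939 : (j + i2) ≤ (2 * k + l + d1) := by clear * - b0 b1 b5 b9 z77 z80 z82; omega
                have kk940 : (j + i2 + 1) ≤ (k + d1) := by clear * - b0 b6 b9 z77 z78 z80; omega
                have kk941 : (i + j + 1) ≤ (k) := by clear * - b0 b1 b9; omega
                have kk942 : (n + i2) ≤ (2 * k + l + d1 + 1) := by clear * - b0 b4; omega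
                have kk943 : (n + i2) ≤ (2 * k + 2 * l + 2) := by clear * - b0 b1 b4; omega
                clear * - al a1 c2 x1 kk938 kk939 kk940 kk941 kk942 kk943
                exact al.ubP (n + j + i2 - 2 * k - l - d1 - 1) (by omega) (by omega) fun t h1 h2 => (cE (cE (qf c2 al (-1) t (t + (n + i2 - k - l - 1)) (by omega)) (pb x1 al 0 (t + (n + i2 - k - l - 1)) (t + (n + i2 - k - l - d1 - 1)) (by omega))) (pb a1 al 0 (t + (n + i2 - k - l - d1 - 1)) (t + (n + j + i2 - 2 * k - l - d1 - 1)) (by omega)))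
            · have kk944 : (k3) ≤ (i + l + m + 1) := by clear * - y20; omega
              have kk945 : (i + l + m + 3) ≤ (n) := by clear * - b0 b1 b7 b9 y19 z79 z82; omega
              have kk946 : (k3) ≤ (i + l) := by clear * - b0 b1 b7 z79 z82 z83; omega
              have kk947 : (i + l + 2) ≤ (n) := by clear * - b0 b3 b6 b9 y16 z77 z82; omega
              have kk948 : (k3) ≤ (k + l) := by clear * - b0 b1 b7 z79 z82 z83; omega
              have kk949 : (k + l + 2) ≤ (n) := by clear * - b0 b3 b6 b9 y16 z77 z82; omega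
              have kk950 : (i2) ≤ (j) := by clear * - b0 z82; omega
              have kk951 : (Q + j + m) ≤ (k + i2) := by clear * - b7 y13 z83; omega
              have kk952 : (i) ≤ (k3) := by clear * - y13 y16 y8; omega
              have kk953 : (i) ≤ (k) := by clear * - b0 b1; omega
              have kk954 : (i + l + 1) ≤ (n) := by clear * - b0 b3 b6 b9 y16 z77 z82; omega
              have kk955 : (k + l + 1) ≤ (n) := by clear * - b0 b3 b6 b9 y16 z77 z82; omega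
              have kk956 : (k3) ≤ (i + l + 1) := by clear * - b0 b1 b7 z79 z82 z83; omega
              have kk957 : (k + i2) ≤ (n + j) := by clear * - b0 b1 b7 b9 y19 z79 z82; omega
              have kk958 : (j + m + k3 + 1) ≤ (k + i2) := by clear * - b7 z83 ev n1p n2p n3p q1; omega
              have kk959 : (i + l + m + 2) ≤ (n) := by clear * - b0 b1 b7 b9 y19 z79 z82; omega
              have r960 : (k - i) % 2 = 0 := by clear * - ev n1p n2p n3p q1; omega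
              have r961 : (i + l + m - k3 + 2) % 2 = 0 := by clear * - ev n1p n2p n3p q1; omega
              have r962 : (i + k + l + i2 - j + 1) % 2 = 0 := by clear * - ev n1p n2p n3p q1; omega
              clear * - al a2 b tt D2 n2 kk944 kk945 kk946 kk947 kk948 kk949 kk950 kk951 kk952 kk953 kk954 kk955 kk956 kk957 kk958 kk959 r960 r961 r962
              exact ivt al.ninv (k3 + 1) (n + k3 - i - l - m - 2) (i + l + m - k3 + 2) (k3 + 1) (i + l + 1) (k - i) (i + l + 1) (k + l + 1) 0 (fun t h1 h2 => (pb D2 al 0 t (t + (i + l + m - k3 + 2)) (by omega))) (fun t h1 h2 => (cE (sh al (-1) t (t + (-n)) (by omega)) (qf b al (-1) (t + (-n)) (t + (k - i)) (by omega)))) (fun hh => n2.f0 (rEE (sh al 0 (i + l + 1) (i + l + 1) (by omega)) (sh al 0 (k + l + 1) (k + l + 1) (by omega)) (Eq.symm hh))) (by omega) (i + l + 2) (i + l + m + 2) (i + k + l + i2 - j + 1) 0 0 (fun t h1 h2 => (cI (sh al (-1) t (t + (-n))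 (by omega)) (cE (ab tt al (-1) (t + (-n)) ((i + l + i2 + 1) - t) (by omega)) (qf a2 al 0 ((i + l + i2 + 1) - t) ((i + k + l + i2 - j + 1) - t) (by omega))))) (by omega)
    · have kk963 : (2 * k + l + 2) ≤ (n + j + i2) := by clear * - b3 b8 y16 z78; omega
      have kk964 : (j + i2) ≤ (2 * k + l) := by clear * - b0 b1 b5 b8 b9 z77; omega
      have kk965 : (j + i2 + 1) ≤ (k) := by clear * - b0 b3 b4 b6 b8 b9 z77 z78; omega
      have kk966 : (n + i2) ≤ (2 * k + l + 1) := by clear * - b0 b4 z78; omega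
      clear * - al a1 c2 kk963 kk964 kk965 kk966
      exact al.ubP (n + j + i2 - 2 * k - l - 1) (by omega) (by omega) fun t h1 h2 => (cE (qf c2 al (-1) t (t + (n + i2 - k - l - 1)) (by omega)) (pb a1 al 0 (t + (n + i2 - k - l - 1)) (t + (n + j + i2 - 2 * k - l - 1)) (by omega)))

theorem h9_43p
    (h9_44 : ∀ {W : ℤ → G} {n Q i j k l i2 m k3 : ℤ} (al : AL W n Q) (hy : (0) ≤ (i) ∧ (i) ≤ (j) ∧ (j + 1) ≤ (Q) ∧ (Q) ≤ (k) ∧ (k + 1) ≤ (n) ∧ (Q) ≤ (i + l + 1) ∧ (k + l + 2) ≤ (n) ∧ (0) ≤ (i2) ∧ (i2 + 1) ≤ (Q) ∧ (Q + m + 1) ≤ (n + i2) ∧ (i2) ≤ (m) ∧ (Q) ≤ (i + l + m + 2) ∧ (i + l + m + 3) ≤ (n) ∧ (Q) ≤ (k3) ∧ (k3 + 1) ≤ (n) ∧ (i + m + 2) ≤ (k) ∧ (i) ≤ (i2) ∧ (i2) ≤ (i) ∧ (i + m + 1) ≤ (k3) ∧ (k3) ≤ (i + m + 1) ∧ (k3) ≤ (i + l + m + 1) ∧ (m + k3 + 2) ≤ (n + i2)) (a1 : Par W (0) (j) (k - j)) (a2 : Par W (Q + j - k) (j) (k - j)) (s1 : Ant W (0) (i) (i + j)) (s2 : Ant W (j + 1) (Q) (i + j)) (b : Par W (i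 + 1) (i + l + 1) (k - i)) (c1 : Par W (i2 + 1) (Q) (k + l - i2 + 1)) (c2 : Par W (k + l + 2) (n) (i2 - k - l - 1)) (tt : Ant W (i2 - m) (i2) (i + l + i2 + 1)) (D1 : Par W (Q) (k3) (n + i2 - m - k3 - 1)) (D2 : Par W (i + l + m + 3) (n) (k3 - i - l - m - 2)) {L : ℤ} (mx : ∀ a b g, 0 < g → g < n → Par W a b g → b - a ≤ L) (hL : L ≤ (n - j - 3) ∧ L ≤ (n + Q - k - 3) ∧ L ≤ (n - l - 3) ∧ L ≤ (n + i - k - 2)) (bd0 : Bd W n L (j) (i) (k)) (n1 : Nd W (j) (i) (k)) (n2 : Nd W (i + l + 1) (i2) (k + l + 1)) (n3 : Nd W (n + i2 - m - 1) (i + l + m + 2) (k3)) (d1 : ℤ) (q1 : d1 % 2 = 0) (x1 : Par W (i + 1) (k + l - d1 + 1) d1) (b0 : (i + l + 1) ≤ (k + d1)) (b1 : (d1) ≤ (l)) (b2 : (k + 2 * l + 3) ≤ (n + i + d1)) (b3 : (2 * l + 3) ≤ (n)) (b4 : (k + 2 * m + 1) ≤ (n + j)) (b5 : (2 * j + 2 * k3 + 1) ≤ (i + k + 2 * m)) (b6 : (n + k3) ≤ (2 * i + 2 * l + i2 + m + 4)) (b7 : (n + i + j + i2) ≤ (2 * Q + k + l)), False)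
    (h9_45 : ∀ {W : ℤ → G} {n Q i j k l i2 m k3 : ℤ} (al : AL W n Q) (hy : (0) ≤ (i) ∧ (i) ≤ (j) ∧ (j + 1) ≤ (Q) ∧ (Q) ≤ (k) ∧ (k + 1) ≤ (n) ∧ (Q) ≤ (i + l + 1) ∧ (k + l + 2) ≤ (n) ∧ (0) ≤ (i2) ∧ (i2 + 1) ≤ (Q) ∧ (Q + m + 1) ≤ (n + i2) ∧ (i2) ≤ (m) ∧ (Q) ≤ (i + l + m + 2) ∧ (i + l + m + 3) ≤ (n) ∧ (Q) ≤ (k3) ∧ (k3 + 1) ≤ (n) ∧ (i + m + 2) ≤ (k) ∧ (i) ≤ (i2) ∧ (i2) ≤ (i) ∧ (i + m + 1) ≤ (k3) ∧ (k3) ≤ (i + m + 1) ∧ (k3) ≤ (i + l + m + 1) ∧ (m + k3 + 2) ≤ (n + i2)) (a1 : Par W (0) (j) (k - j)) (a2 : Par W (Q + j - k) (j) (k - j)) (s1 : Ant W (0) (i) (i + j)) (s2 : Ant W (j + 1) (Q) (i + j)) (b : Par W (i + 1) (i + l + 1) (k - i)) (c1 : Par W (i2 + 1) (Q) (k + l - i2 + 1)) (c2 : Par W (k + l + 2) (n) (i2 - k - l - 1)) (tt : Ant W (i2 - m) (i2) (i + l + i2 + 1)) (D1 : Par W (Q) (k3) (n + i2 - m - k3 - 1)) (D2 : Par W (i + l + m + 3) (n) (k3 - i - l - m - 2)) {L : ℤ} (mx : ∀ a b g, 0 < g → g < n → Par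 W a b g → b - a ≤ L) (hL : L ≤ (n - j - 3) ∧ L ≤ (n + Q - k - 3) ∧ L ≤ (n - l - 3) ∧ L ≤ (n + i - k - 2)) (bd0 : Bd W n L (j) (i) (k)) (n1 : Nd W (j) (i) (k)) (n2 : Nd W (i + l + 1) (i2) (k + l + 1)) (n3 : Nd W (n + i2 - m - 1) (i + l + m + 2) (k3)) (d1 : ℤ) (q1 : d1 % 2 = 0) (x1 : Par W (i + 1) (k + l - d1 + 1) d1) (b0 : (i + l + 1) ≤ (k + d1)) (b1 : (d1) ≤ (l)) (b2 : (k + 2 * l + 3) ≤ (n + i + d1)) (b3 : (2 * l + 3) ≤ (n)) (b4 : (k + 2 * m + 1) ≤ (n + j)) (b5 : (2 * j + 2 * k3 + 1) ≤ (i + k + 2 * m)) (b6 : (n + k3) ≤ (2 * i + 2 * l + i2 + m + 4)) (b7 : (2 * Q + k + l + 1) ≤ (n + i + j + i2)), False)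
    {W : ℤ → G} {n Q i j k l i2 m k3 : ℤ} (al : AL W n Q)
    (hy : (0) ≤ (i) ∧ (i) ≤ (j) ∧ (j + 1) ≤ (Q) ∧ (Q) ≤ (k) ∧ (k + 1) ≤ (n) ∧ (Q) ≤ (i + l + 1) ∧ (k + l + 2) ≤ (n) ∧ (0) ≤ (i2) ∧ (i2 + 1) ≤ (Q) ∧ (Q + m + 1) ≤ (n + i2) ∧ (i2) ≤ (m) ∧ (Q) ≤ (i + l + m + 2) ∧ (i + l + m + 3) ≤ (n) ∧ (Q) ≤ (k3) ∧ (k3 + 1) ≤ (n) ∧ (i + m + 2) ≤ (k) ∧ (i) ≤ (i2) ∧ (i2) ≤ (i) ∧ (i + m + 1) ≤ (k3) ∧ (k3) ≤ (i + m + 1) ∧ (k3) ≤ (i + l + m + 1) ∧ (m + k3 + 2) ≤ (n + i2))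
    (a1 : Par W (0) (j) (k - j))
    (a2 : Par W (Q + j - k) (j) (k - j))
    (s1 : Ant W (0) (i) (i + j))
    (s2 : Ant W (j + 1) (Q) (i + j))
    (b : Par W (i + 1) (i + l + 1) (k - i))
    (c1 : Par W (i2 + 1) (Q) (k + l - i2 + 1))
    (c2 : Par W (k + l + 2) (n) (i2 - k - l - 1))
    (tt : Ant W (i2 - m) (i2) (i + l + i2 + 1))
    (D1 : Par W (Q) (k3) (n + i2 - m - k3 - 1))
    (D2 : Par W (i + l + m + 3) (n) (k3 - i - l - m - 2))
    {L : ℤ} (mx : ∀ a b g, 0 < g → g < n → Par W a b g → b - a ≤ L)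
    (hL : L ≤ (n - j - 3) ∧ L ≤ (n + Q - k - 3) ∧ L ≤ (n - l - 3) ∧ L ≤ (n + i - k - 2))
    (bd0 : Bd W n L (j) (i) (k))
    (n1 : Nd W (j) (i) (k))
    (n2 : Nd W (i + l + 1) (i2) (k + l + 1))
    (n3 : Nd W (n + i2 - m - 1) (i + l + m + 2) (k3))
    (d1 : ℤ) (q1 : d1 % 2 = 0) (x1 : Par W (i + 1) (k + l - d1 + 1) d1)
    (b0 : (i + l + 1) ≤ (k + d1))
    (b1 : (d1) ≤ (l))
    (b2 : (k + 2 * l + 3) ≤ (n + i + d1))
    (b3 : (2 * l + 3) ≤ (n))
    (b4 : (k + 2 * m + 1) ≤ (n + j))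
    (b5 : (2 * j + 2 * k3 + 1) ≤ (i + k + 2 * m))
    (b6 : (n + k3) ≤ (2 * i + 2 * l + i2 + m + 4)) : False := by
  have ev := al.ev
  obtain ⟨y0, y1, y2, y3, y4, y5, y6, y7, y8, y9, y10, y11, y12, y13, y14, y15, y16, y17, y18, y19, y20, y21⟩ := id hy
  have n1p := And.intro n1.p1 n1.p2
  have n2p := And.intro n2.p1 n2.p2
  have n3p := And.intro n3.p1 n3.p2
  by_cases z88 : (n + i + j + i2) ≤ (2 * Q + k + l)
  · exact h9_44 al hy a1 a2 s1 s2 b c1 c2 tt D1 D2 mx hL bd0 n1 n2 n3 d1 q1 x1 (by clear * - b0; omega) (by clear * - b1; omega) (by clear * - b2; omega) (by clear * - b3; omega) (by clear * - b4; omega) (by clear * - b5; omega) (by clear * - b6; omega) (by clear * - z88; omega)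
  · exact h9_45 al hy a1 a2 s1 s2 b c1 c2 tt D1 D2 mx hL bd0 n1 n2 n3 d1 q1 x1 (by clear * - b0; omega) (by clear * - b1; omega) (by clear * - b2; omega) (by clear * - b3; omega) (by clear * - b4; omega) (by clear * - b5; omega) (by clear * - b6; omega) (by clear * - z88; omega)

theorem h9_56p
    {W : ℤ → G} {n Q i j k l i2 m k3 : ℤ} (al : AL W n Q)
    (hy : (0) ≤ (i) ∧ (i) ≤ (j) ∧ (j + 1) ≤ (Q) ∧ (Q) ≤ (k) ∧ (k + 1) ≤ (n) ∧ (Q) ≤ (i + l + 1) ∧ (k + l + 2) ≤ (n) ∧ (0) ≤ (i2) ∧ (i2 + 1) ≤ (Q) ∧ (Q + m + 1) ≤ (n + i2) ∧ (i2) ≤ (m) ∧ (Q) ≤ (i + l + m + 2) ∧ (i + l + m + 3) ≤ (n) ∧ (Q) ≤ (k3) ∧ (k3 + 1) ≤ (n) ∧ (i + m + 2) ≤ (k) ∧ (i) ≤ (i2) ∧ (i2) ≤ (i) ∧ (i + m + 1) ≤ (k3) ∧ (k3) ≤ (i + m + 1) ∧ (k3) ≤ (i + l + m + 1) ∧ (m + k3 + 2) ≤ (n + i2))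
    (a1 : Par W (0) (j) (k - j))
    (a2 : Par W (Q + j - k) (j) (k - j))
    (s1 : Ant W (0) (i) (i + j))
    (s2 : Ant W (j + 1) (Q) (i + j))
    (b : Par W (i + 1) (i + l + 1) (k - i))
    (c1 : Par W (i2 + 1) (Q) (k + l - i2 + 1))
    (c2 : Par W (k + l + 2) (n) (i2 - k - l - 1))
    (tt : Ant W (i2 - m) (i2) (i + l + i2 + 1))
    (D1 : Par W (Q) (k3) (n + i2 - m - k3 - 1))
    (D2 : Par W (i + l + m + 3) (n) (k3 - i - l - m - 2))
    {L : ℤ} (mx : ∀ a b g, 0 < g → g < n → Par W a b g → b - a ≤ L)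
    (hL : L ≤ (n - j - 3) ∧ L ≤ (n + Q - k - 3) ∧ L ≤ (n - l - 3) ∧ L ≤ (n + i - k - 2))
    (bd0 : Bd W n L (j) (i) (k))
    (n1 : Nd W (j) (i) (k))
    (n2 : Nd W (i + l + 1) (i2) (k + l + 1))
    (n3 : Nd W (n + i2 - m - 1) (i + l + m + 2) (k3))
    (d1 : ℤ) (q1 : d1 % 2 = 0) (x1 : Par W (i + 1) (k + l - d1 + 1) d1)
    (b0 : (i + l + 1) ≤ (k + d1))
    (b1 : (d1) ≤ (l))
    (b2 : (n + i2) ≤ (i + k + 2 * l + 2))
    (b3 : (k + 2 * m + 1) ≤ (n + j))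
    (b4 : (2 * j + 2 * k3 + 1) ≤ (i + k + 2 * m))
    (b5 : (2 * i + 2 * l + 3 * m + 5) ≤ (n + i2 + k3))
    (b6 : (k) ≤ (i + m + d1))
    (b7 : (Q) ≤ (j + 1)) : False := by
  have ev := al.ev
  obtain ⟨y0, y1, y2, y3, y4, y5, y6, y7, y8, y9, y10, y11, y12, y13, y14, y15, y16, y17, y18, y19, y20, y21⟩ := id hy
  have n1p := And.intro n1.p1 n1.p2
  have n2p := And.intro n2.p1 n2.p2
  have n3p := And.intro n3.p1 n3.p2
  by_cases z123 : (j + k3 + 1) ≤ (k)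
  · have kk1492 : (k3) ≤ (i + m + 1) := by clear * - y19; omega
    have kk1493 : (i + m + 1) ≤ (k3) := by clear * - y18; omega
    have kk1494 : (j + k3) ≤ (2 * i + l + m + 1) := by clear * - b1 b6 y17 y7 z123; omega
    have kk1495 : (2 * i + l + m + 3) ≤ (n + j + k3) := by clear * - b2 b3 b5 b7 y13 y16 y19 y8 z123; omega
    have kk1496 : (j + k3 + 1) ≤ (k) := by clear * - z123; omega
    have kk1497 : (Q) ≤ (j + 1) := by clear * - b7; omega
    have kk1498 : (k) ≤ (i + l + m + 2) := by clear * - b1 b6; omega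
    have kk1499 : (k + l + 1) ≤ (n) := by clear * - b1 b5 b6 y10 y19; omega
    have kk1500 : (i2) ≤ (i) := by clear * - y17; omega
    have kk1501 : (i) ≤ (i2) := by clear * - y16; omega
    have kk1502 : (k3 + 1) ≤ (k) := by clear * - y15 y19; omega
    have kk1503 : (i + k + l + m + 3) ≤ (n + k3) := by clear * - b1 b5 b6 y10; omega
    have kk1504 : (Q) ≤ (k3 + 1) := by clear * - y13; omega
    clear * - al a2 b D2 n1 n2 kk1492 kk1493 kk1494 kk1495 kk1496 kk1497 kk1498 kk1499 kk1500 kk1501 kk1502 kk1503 kk1504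
    exact al.uqU (2 * i + l + m - j - k3 + 2) (by omega) (by omega) (mgP (b := (j + k3 - i - m - 1)) (le_refl _) (fun t h1 h2 => (cE (sh al (-1) t (t + (-n)) (by omega)) (cE (qf a2 al (-1) (t + (-n)) (t + (k - j)) (by omega)) (qf (show Par W (k3 + 1) (k + k3 - i - m - 1) (2 * i + l + m - k - k3 + 2) from fun t h1 h2 => (cE (sh al (-1) t (t + (-n)) (by omega)) (cE (pb D2 al (-1) (t + (-n)) (t + (i + l + m - k3 + 2)) (by omega)) (pb b al 0 (t + (i + l + m - k3 + 2)) (t + (2 * i + l + m - k - k3 + 2)) (by omega))))) al 0 (t + (k - j)) (t + (2 * i + l + m - j - k3 + 2)) (by omega))))) (fun t h1 h2 => (cE (sh al (-1) t (t + (-n)) (by omega)) (qf (uP (j) (i + l + 1) (i + l - j + 1) (by omega) (lat n1.r1 n2.r1 (sh al 0 (i) (i2) (by omega)) (iNN (pb D2 al 0 (k) (k + l + 1) (by omega))))) al (-1) (t + (-n)) (t + (2 * i + l + m - j - k3 + 2)) (by omega)))))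
  · by_cases z124 : (2 * Q + 2 * j) ≤ (i + k + 2 * i2)
    · by_cases v45 : (k + i2) ≤ (Q + j + m)
      · have kk1505 : (i + 1) ≤ (k) := by clear * - b0 b1; omega
        have kk1506 : (2 * Q + 2 * j) ≤ (i + k + 2 * i2) := by clear * - z124; omega
        have kk1507 : (i + 2 * j + 2) ≤ (k + 2 * i2) := by clear * - b2 b4 b5 v45 y16 z124; omega
        have kk1508 : (i + 2) ≤ (k) := by clear * - b2 b4 b5 b7 v45 y16 z124; omega
        have kk1509 : (i2) ≤ (j) := by clear * - b2 b4 b5 b7 v45 z124; omega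
        have kk1510 : (k + i2) ≤ (Q + j + m) := by clear * - v45; omega
        have kk1511 : (0) ≤ (l + 1) := by clear * - y18 y20; omega
        have kk1512 : (i2) ≤ (j + l + 1) := by clear * - b0 b1 b2 b4 b5 b6 b7 v45; omega
        have r1513 : (2 * n + i + k + l + i2 - j + 1) % 2 = 0 := by clear * - ev n1p n2p n3p q1; omega
        have r1514 : (k - i) % 2 = 0 := by clear * - ev n1p n2p n3p q1; omega
        clear * - al a2 b tt kk1505 kk1506 kk1507 kk1508 kk1509 kk1510 kk1511 kk1512 r1513 r1514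
        exact midP al (k - i) (2 * n + i + k + l + i2 - j + 1) (n + i + l + 2) (n + i + 1) (n + k + l + 1) (by omega) (fun t h1 h2 => (cE (cE (ab tt al 1 t ((n + i + l + i2 + 1) - t) (by omega)) (qf a2 al 0 ((n + i + l + i2 + 1) - t) ((n + i + k + l + i2 - j + 1) - t) (by omega))) (sh al 1 ((n + i + k + l + i2 - j + 1) - t) ((2 * n + i + k + l + i2 - j + 1) - t) (by omega)))) (fun t h1 h2 => (cE (qf b al 1 t (t + (k - n - i)) (by omega)) (sh al 1 (t + (k - n - i)) (t + (k - i)) (by omega))))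
      · have kk1515 : (i + 1) ≤ (k) := by clear * - b0 b1; omega
        have kk1516 : (k) ≤ (i + 2 * m) := by clear * - b4 z123; omega
        have kk1517 : (i + 2 * j + 2) ≤ (k + 2 * i2) := by clear * - b2 b4 b5 y16 z123; omega
        have kk1518 : (i + 2) ≤ (k) := by clear * - b4 y15 z123; omega
        have kk1519 : (i2) ≤ (j) := by clear * - b7 y8; omega
        have kk1520 : (Q + j + m) ≤ (k + i2) := by clear * - v45; omega
        have kk1521 : (0) ≤ (l + 1) := by clear * - y18 y20; omega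
        have kk1522 : (i2) ≤ (j + l + 1) := by clear * - b2 b3 b5 y10 y16 y19 z123; omega
        have r1523 : (2 * n + i + k + l + i2 - j + 1) % 2 = 0 := by clear * - ev n1p n2p n3p q1; omega
        have r1524 : (k - i) % 2 = 0 := by clear * - ev n1p n2p n3p q1; omega
        clear * - al a2 b tt kk1515 kk1516 kk1517 kk1518 kk1519 kk1520 kk1521 kk1522 r1523 r1524
        exact midP al (k - i) (2 * n + i + k + l + i2 - j + 1) (n + i + l + 2) (n + i + 1) (n + k + l + 1) (by omega) (fun t h1 h2 => (cE (cE (ab tt al 1 t ((n + i + l + i2 + 1) - t) (by omega)) (qf a2 al 0 ((n + i + l + i2 + 1) - t) ((n + i + k + l + i2 - j + 1) - t) (by omega))) (sh al 1 ((n + i + k + l + i2 - j + 1) - t) ((2 * n + i + k + l + i2 - j + 1) - t) (by omega)))) (fun t h1 h2 => (cE (qf b al 1 t (t + (k - n - i)) (by omega)) (sh al 1 (t + (k - n - i)) (t + (k - i)) (by omega))))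
    · by_cases z125 : (i + l + 2 * i2 + 2) ≤ (m + k3 + d1)
      · have kk1525 : (k3 + d1) ≤ (i + l + m + 1) := by clear * - b1 y19; omega
        have kk1526 : (i + l + 2 * i2 + 2) ≤ (m + k3 + d1) := by clear * - z125; omega
        have kk1527 : (k3 + d1) ≤ (i + l + m) := by clear * - b1 y19 ev n1p n2p n3p q1; omega
        have kk1528 : (2 * n + 2 * i2 + 3 * k3 + d1) ≤ (3 * i + 2 * k + 5 * l + 5 * m + 8) := by clear * - b1 b2 y16 y19 z125; omega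
        have kk1529 : (i) ≤ (k3) := by clear * - b0 b1 b4 y18 z123; omega
        have kk1530 : (i + k + 2 * l + m + 3) ≤ (n + k3 + d1) := by clear * - b3 b4 b5 b6 z123 z125; omega
        have kk1531 : (i + l + 2 * m + 3) ≤ (n + i2) := by clear * - b5 y21; omega
        have kk1532 : (0) ≤ (i2) := by clear * - b2 b4 b5 y16 y19 z123; omega
        have kk1533 : (i + l + 2 * m + d1 + 3) ≤ (n + i2) := by clear * - b1 b5 y19; omega
        have kk1534 : (k3 + d1) ≤ (k + l + 1) := by clear * - b1 b2 b5 y16 y19 z125; omega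
        have r1535 : (3 * n + i2 + k3 - m - 1) % 2 = 0 := by clear * - ev n1p n2p n3p q1; omega
        have r1536 : (i + l + m - k3 - d1 + 2) % 2 = 0 := by clear * - ev n1p n2p n3p q1; omega
        clear * - al tt D2 x1 kk1525 kk1526 kk1527 kk1528 kk1529 kk1530 kk1531 kk1532 kk1533 kk1534 r1535 r1536
        exact midP al (i + l + m - k3 - d1 + 2) (3 * n + i2 + k3 - m - 1) (2 * n + i2 + k3 - i - l - 2 * m - 2) (n + k3 + d1 + 1) (n + i + k + 2 * l + m - k3 - d1 + 3) (by omega) (fun t h1 h2 => (cE (cI (pb D2 al 1 t (t + (i + l + m - n - k3 + 2)) (by omega)) (qa tt al 1 (t + (i + l + m - n - k3 + 2)) ((2 * n + i2 + k3 - m - 1) - t) (by omega))) (sh al 1 ((2 * n + i2 + k3 - m - 1) - t) ((3 * n + i2 + k3 - m - 1) - t) (by omega)))) (fun t h1 h2 => (cE (qf (show Par W (k3 + d1 + 1) (k + l + 1) (i + l + m - k3 - d1 + 2) from fun t h1 h2 => (cE (sh al (-1) t (t + (-n)) (by omega)) (cE (pb x1 al (-1)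 (t + (-n)) (t + (-d1)) (by omega)) (pb D2 al 0 (t + (-d1)) (t + (i + l + m - k3 - d1 + 2)) (by omega))))) al 1 t (t + (i + l + m - n - k3 - d1 + 2)) (by omega)) (sh al 1 (t + (i + l + m - n - k3 - d1 + 2)) (t + (i + l + m - k3 - d1 + 2)) (by omega))))
      · by_cases z126 : (2 * n + 2 * Q + j + i2 + k3) ≤ (4 * i + k + 4 * l + 5 * m + 9)
        · have kk1537 : (k + i2) ≤ (j + m + k3) := by clear * - b4 b5 z123 z124 z126; omega
          have kk1538 : (j + k3 + 1) ≤ (k + i2 + m) := by clear * - b0 b4 b5 y18 z123 z124 z125 z126; omega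
          have kk1539 : (2 * n + 2 * Q + j + i2 + k3) ≤ (4 * i + k + 4 * l + 5 * m + 9) := by clear * - z126; omega
          have kk1540 : (k + i2 + 1) ≤ (j + m + k3) := by clear * - b4 b5 z123 z124 z126; omega
          have kk1541 : (2 * i + 2 * l + 2 * m + 4) ≤ (n + k3) := by clear * - b4 b5 z123 z124 z126; omega
          have kk1542 : (k3) ≤ (i + l + 1) := by clear * - b4 b5 b6 z124 z125 z126; omega
          have kk1543 : (k3) ≤ (k) := by clear * - b0 b2 b4 b5 b7 z123 z124 z125 z126; omega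
          have kk1544 : (Q) ≤ (k3 + 1) := by clear * - b4 b5 z123 z124 z126; omega
          have kk1545 : (2 * i + k + 2 * l + 2 * m + 4) ≤ (n + j + 2 * k3) := by clear * - b4 b5 z123 z124 z126; omega
          have r1546 : (2 * i + 2 * l + i2 + m - n - k3 + 3) % 2 = 0 := by clear * - ev n1p n2p n3p q1; omega
          have r1547 : (j + m + k3 - k - i2 + 1) % 2 = 0 := by clear * - ev n1p n2p n3p q1; omega
          clear * - al a2 tt D1 D2 kk1537 kk1538 kk1539 kk1540 kk1541 kk1542 kk1543 kk1544 kk1545 r1546 r1547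
          exact midP al (j + m + k3 - k - i2 + 1) (2 * i + 2 * l + i2 + m - n - k3 + 3) (i2 - m) (Q + i2 - m - k3 - 1) (j + k3 - k) (by omega) (fun t h1 h2 => (cE (cE (qa tt al 0 t ((i + l + i2 + 1) - t) (by omega)) (pb D2 al 0 ((i + l + i2 + 1) - t) ((2 * i + 2 * l + i2 + m - k3 + 3) - t) (by omega))) (sh al (-1) ((2 * i + 2 * l + i2 + m - k3 + 3) - t) ((2 * i + 2 * l + i2 + m - n - k3 + 3) - t) (by omega)))) (fun t h1 h2 => (cE (pb D1 al (-1) t (t + (m + k3 - i2 + 1)) (by omega)) (pb a2 al 0 (t + (m + k3 - i2 + 1)) (t + (j + m + k3 - k - i2 + 1)) (by omega))))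
        · by_cases z127 : (2 * k + l + d1 + 2) ≤ (n + j + i2)
          · have kk1548 : (2 * k + l + d1 + 2) ≤ (n + j + i2) := by clear * - z127; omega
            have kk1549 : (j + i2) ≤ (2 * k + l + d1) := by clear * - b0 b1 b2 b4 b5 b6 b7 z123 z124; omega
            have kk1550 : (Q + j) ≤ (k) := by clear * - b2 b4 b5 b7 y18 z123; omega
            have kk1551 : (i2) ≤ (i + d1) := by clear * - b2 b4 b5 b6 b7 z123 z124; omega
            have kk1552 : (i + 1) ≤ (Q) := by clear * - b0 b4 y18 z123 z124 z125; omega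
            have kk1553 : (n + i2) ≤ (2 * k + l + d1 + 1) := by clear * - b0 b2; omega
            have kk1554 : (n + i2) ≤ (2 * k + 2 * l + 2) := by clear * - b0 b1 b2; omega
            clear * - al a2 c2 x1 kk1548 kk1549 kk1550 kk1551 kk1552 kk1553 kk1554
            exact al.ubP (n + j + i2 - 2 * k - l - d1 - 1) (by omega) (by omega) fun t h1 h2 => (cE (sh al 1 t (t + (n)) (by omega)) (cE (cE (qf c2 al 0 (t + (n)) (t + (n + i2 - k - l - 1)) (by omega)) (pb x1 al 0 (t + (n + i2 - k - l - 1)) (t + (n + i2 - k - l - d1 - 1)) (by omega))) (pb a2 al 0 (t + (n + i2 - k - l - d1 - 1)) (t + (n + j + i2 - 2 * k - l - d1 - 1)) (by omega))))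
          · have kk1555 : (i + j + l + 3) ≤ (k + i2 + d1) := by clear * - b4 b7 y18 z123 z125 z126 z127; omega
            have kk1556 : (i + l + i2 + 2) ≤ (j + k + d1) := by clear * - b1 b2 b4 b7 z123 z125 z126 z127; omega
            have kk1557 : (k + d1) ≤ (i + j + l + 2) := by clear * - b4 b7 y17 y18 z123 z124 z125; omega
            have kk1558 : (d1) ≤ (l + 1) := by clear * - b1; omega
            have kk1559 : (k + d1) ≤ (i + l + m + 2) := by clear * - b4 b7 y17 y18 z123 z124 z125; omega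
            have r1560 : (i + j + l + i2 - 2 * n - k - d1 + 1) % 2 = 0 := by clear * - ev n1p n2p n3p q1; omega
            clear * - al a1 tt x1 kk1555 kk1556 kk1557 kk1558 kk1559 r1560
            obtain ⟨t, ht⟩ : ∃ t, 2 * t = (i + j + l + i2 - 2 * n - k - d1 + 1) := ⟨(i + j + l + i2 - 2 * n - k - d1 + 1) / 2, by omega⟩
            exact al.ninv t (cE (cI (cE (qf a1 al (-1) t (t + (n + k - j)) (by omega)) (qf x1 al 0 (t + (n + k - j)) (t + (n + k + d1 - j)) (by omega))) (ab tt al 0 (t + (n + k + d1 - j)) ((i + j + l + i2 - n - k - d1 + 1) - t) (by omega))) (sh al (-1) ((i + j + l + i2 - n - k - d1 + 1) - t) t (by omega)))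

theorem h9_57p
    (h9_58 : ∀ {W : ℤ → G} {n Q i j k l i2 m k3 : ℤ} (al : AL W n Q) (hy : (0) ≤ (i) ∧ (i) ≤ (j) ∧ (j + 1) ≤ (Q) ∧ (Q) ≤ (k) ∧ (k + 1) ≤ (n) ∧ (Q) ≤ (i + l + 1) ∧ (k + l + 2) ≤ (n) ∧ (0) ≤ (i2) ∧ (i2 + 1) ≤ (Q) ∧ (Q + m + 1) ≤ (n + i2) ∧ (i2) ≤ (m) ∧ (Q) ≤ (i + l + m + 2) ∧ (i + l + m + 3) ≤ (n) ∧ (Q) ≤ (k3) ∧ (k3 + 1) ≤ (n) ∧ (i + m + 2) ≤ (k) ∧ (i) ≤ (i2) ∧ (i2) ≤ (i) ∧ (i + m + 1) ≤ (k3) ∧ (k3) ≤ (i + m + 1) ∧ (k3) ≤ (i + l + m + 1) ∧ (m + k3 + 2) ≤ (n + i2)) (a1 : Par W (0) (j) (k - j)) (a2 : Par W (Q + j - k) (j) (k - j)) (s1 : Ant W (0) (i) (i + j)) (s2 : Ant W (j + 1) (Q) (i + j)) (b : Par W (i + 1) (i + l + 1) (k - i)) (c1 : Par W (i2 + 1) (Q) (k + l - i2 + 1)) (c2 : Par W (k + l + 2) (n) (i2 - k - l - 1)) (tt : Ant W (i2 - m) (i2) (i + l + i2 + 1)) (D1 : Par W (Q) (k3) (n + i2 - m - k3 - 1)) (D2 : Par W (i + l + m + 3) (n) (k3 - i - l - m - 2)) {L : ℤ} (mx : ∀ a b g, 0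 < g → g < n → Par W a b g → b - a ≤ L) (hL : L ≤ (n - j - 3) ∧ L ≤ (n + Q - k - 3) ∧ L ≤ (n - l - 3) ∧ L ≤ (n + i - k - 2)) (bd0 : Bd W n L (j) (i) (k)) (n1 : Nd W (j) (i) (k)) (n2 : Nd W (i + l + 1) (i2) (k + l + 1)) (n3 : Nd W (n + i2 - m - 1) (i + l + m + 2) (k3)) (d1 : ℤ) (q1 : d1 % 2 = 0) (x1 : Par W (i + 1) (k + l - d1 + 1) d1) (b0 : (i + l + 1) ≤ (k + d1)) (b1 : (n + i2) ≤ (i + k + 2 * l + 2)) (b2 : (2 * j + 2 * k3 + 1) ≤ (i + k + 2 * m)) (b3 : (2 * i + 2 * l + 3 * m + 5) ≤ (n + i2 + k3)) (b4 : (k) ≤ (i + m + d1)) (b5 : (j + 2) ≤ (Q)) (b6 : (m + k3 + d1) ≤ (i + l + 2 * i2 + 1)), False)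
    {W : ℤ → G} {n Q i j k l i2 m k3 : ℤ} (al : AL W n Q)
    (hy : (0) ≤ (i) ∧ (i) ≤ (j) ∧ (j + 1) ≤ (Q) ∧ (Q) ≤ (k) ∧ (k + 1) ≤ (n) ∧ (Q) ≤ (i + l + 1) ∧ (k + l + 2) ≤ (n) ∧ (0) ≤ (i2) ∧ (i2 + 1) ≤ (Q) ∧ (Q + m + 1) ≤ (n + i2) ∧ (i2) ≤ (m) ∧ (Q) ≤ (i + l + m + 2) ∧ (i + l + m + 3) ≤ (n) ∧ (Q) ≤ (k3) ∧ (k3 + 1) ≤ (n) ∧ (i + m + 2) ≤ (k) ∧ (i) ≤ (i2) ∧ (i2) ≤ (i) ∧ (i + m + 1) ≤ (k3) ∧ (k3) ≤ (i + m + 1) ∧ (k3) ≤ (i + l + m + 1) ∧ (m + k3 + 2) ≤ (n + i2))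
    (a1 : Par W (0) (j) (k - j))
    (a2 : Par W (Q + j - k) (j) (k - j))
    (s1 : Ant W (0) (i) (i + j))
    (s2 : Ant W (j + 1) (Q) (i + j))
    (b : Par W (i + 1) (i + l + 1) (k - i))
    (c1 : Par W (i2 + 1) (Q) (k + l - i2 + 1))
    (c2 : Par W (k + l + 2) (n) (i2 - k - l - 1))
    (tt : Ant W (i2 - m) (i2) (i + l + i2 + 1))
    (D1 : Par W (Q) (k3) (n + i2 - m - k3 - 1))
    (D2 : Par W (i + l + m + 3) (n) (k3 - i - l - m - 2))
    {L : ℤ} (mx : ∀ a b g, 0 < g → g < n → Par W a b g → b - a ≤ L)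
    (hL : L ≤ (n - j - 3) ∧ L ≤ (n + Q - k - 3) ∧ L ≤ (n - l - 3) ∧ L ≤ (n + i - k - 2))
    (bd0 : Bd W n L (j) (i) (k))
    (n1 : Nd W (j) (i) (k))
    (n2 : Nd W (i + l + 1) (i2) (k + l + 1))
    (n3 : Nd W (n + i2 - m - 1) (i + l + m + 2) (k3))
    (d1 : ℤ) (q1 : d1 % 2 = 0) (x1 : Par W (i + 1) (k + l - d1 + 1) d1)
    (b0 : (i + l + 1) ≤ (k + d1))
    (b1 : (d1) ≤ (l))
    (b2 : (n + i2) ≤ (i + k + 2 * l + 2))
    (b3 : (k + 2 * m + 1) ≤ (n + j))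
    (b4 : (2 * j + 2 * k3 + 1) ≤ (i + k + 2 * m))
    (b5 : (2 * i + 2 * l + 3 * m + 5) ≤ (n + i2 + k3))
    (b6 : (k) ≤ (i + m + d1))
    (b7 : (j + 2) ≤ (Q)) : False := by
  have ev := al.ev
  obtain ⟨y0, y1, y2, y3, y4, y5, y6, y7, y8, y9, y10, y11, y12, y13, y14, y15, y16, y17, y18, y19, y20, y21⟩ := id hy
  have n1p := And.intro n1.p1 n1.p2
  have n2p := And.intro n2.p1 n2.p2
  have n3p := And.intro n3.p1 n3.p2
  by_cases z128 : (i + l + 2 * i2 + 2) ≤ (m + k3 + d1)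
  · by_cases v46 : (i + l + i2 + 1) ≤ (k3 + d1)
    · have kk1561 : (k3 + d1) ≤ (i + l + m + 1) := by clear * - b1 y19; omega
      have kk1562 : (k3 + d1) ≤ (i + l + m) := by clear * - b1 y19 ev n1p n2p n3p q1; omega
      have kk1563 : (i + l + 3 * m + k3 + 3 * d1 + 6) ≤ (2 * n + 2 * i2) := by clear * - b1 b5 y19; omega
      have kk1564 : (3 * k3 + 3 * d1) ≤ (i + 2 * k + 3 * l + m + 2) := by clear * - b1 b2 b5 v46 y16 y19; omega
      have kk1565 : (i) ≤ (k3) := by clear * - y13 y16 y8; omega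
      have kk1566 : (i + k + 2 * l + m + 3) ≤ (n + k3 + d1) := by clear * - b1 b5 b6 v46 y19; omega
      have kk1567 : (0) ≤ (i2) := by clear * - y7; omega
      have kk1568 : (i + l + 2 * m + 3) ≤ (n + i2) := by clear * - b5 y21; omega
      have kk1569 : (i + l + i2 + 1) ≤ (k3 + d1) := by clear * - v46; omega
      have kk1570 : (n + i2 + k3) ≤ (i + k + 2 * l + 2 * m + 4) := by clear * - b1 b2 v46 y16 y19; omega
      have r1571 : (n + i2 + k3 - m - 1) % 2 = 0 := by clear * - ev n1p n2p n3p q1; omega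
      have r1572 : (i + l + m - k3 - d1 + 2) % 2 = 0 := by clear * - ev n1p n2p n3p q1; omega
      clear * - al tt D2 x1 kk1561 kk1562 kk1563 kk1564 kk1565 kk1566 kk1567 kk1568 kk1569 kk1570 r1571 r1572
      exact midP al (i + l + m - k3 - d1 + 2) (n + i2 + k3 - m - 1) (k3 + d1 + 1) (k3 + d1 + 1) (i + k + 2 * l + m - k3 - d1 + 3) (by omega) (fun t h1 h2 => (cE (ab tt al 0 t ((i + l + i2 + 1) - t) (by omega)) (qf D2 al (-1) ((i + l + i2 + 1) - t) ((n + i2 + k3 - m - 1) - t) (by omega)))) (fun t h1 h2 => (qf (show Par W (k3 + d1 + 1) (k + l + 1) (i + l + m - k3 - d1 + 2) from fun t h1 h2 => (cE (sh al (-1) t (t + (-n)) (by omega)) (cE (pb x1 al (-1) (t + (-n)) (t + (-d1)) (by omega)) (pb D2 al 0 (t + (-d1)) (t + (i + l + m - k3 - d1 + 2)) (by omega))))) al 0 t (t + (i + l + m - k3 - d1 + 2)) (by omega)))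
    · have kk1573 : (k3 + d1) ≤ (i + l + m + 1) := by clear * - v46 z128; omega
      have kk1574 : (i + l + 2 * i2 + 2) ≤ (m + k3 + d1) := by clear * - z128; omega
      have kk1575 : (3 * i + 3 * l + 3 * m + d1 + 8) ≤ (2 * n + k3) := by clear * - b5 v46 z128; omega
      have kk1576 : (i + 2 * i2 + k3 + d1) ≤ (2 * k + l + m) := by clear * - b2 b5 v46 y16 y19 z128; omega
      have kk1577 : (i) ≤ (k3) := by clear * - y13 y16 y8; omega
      have kk1578 : (i + k + 2 * l + m + 3) ≤ (n + k3 + d1) := by clear * - b5 b6 v46 z128; omega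
      have kk1579 : (0) ≤ (i2) := by clear * - y7; omega
      have kk1580 : (i + l + 2 * m + 3) ≤ (n + i2) := by clear * - b0 b1 b3 b4 b5 b6 v46; omega
      have kk1581 : (k3 + d1) ≤ (i + l + i2 + 1) := by clear * - v46; omega
      have kk1582 : (n + 2 * k3 + d1) ≤ (2 * i + k + 3 * l + 2 * m + 5) := by clear * - b2 v46 y16 y19 z128; omega
      have r1583 : (n + i2 + k3 - m - 1) % 2 = 0 := by clear * - ev n1p n2p n3p q1; omega
      have r1584 : (i + l + m - k3 - d1 + 2) % 2 = 0 := by clear * - ev n1p n2p n3p q1; omega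
      clear * - al tt D2 x1 kk1573 kk1574 kk1575 kk1576 kk1577 kk1578 kk1579 kk1580 kk1581 kk1582 r1583 r1584
      exact midP al (i + l + m - k3 - d1 + 2) (n + i2 + k3 - m - 1) (i + l + i2 + 2) (k3 + d1 + 1) (i + k + 2 * l + m - k3 - d1 + 3) (by omega) (fun t h1 h2 => (cE (ab tt al 0 t ((i + l + i2 + 1) - t) (by omega)) (qf D2 al (-1) ((i + l + i2 + 1) - t) ((n + i2 + k3 - m - 1) - t) (by omega)))) (fun t h1 h2 => (qf (show Par W (k3 + d1 + 1) (k + l + 1) (i + l + m - k3 - d1 + 2) from fun t h1 h2 => (cE (sh al (-1) t (t + (-n)) (by omega)) (cE (pb x1 al (-1) (t + (-n)) (t + (-d1)) (by omega)) (pb D2 al 0 (t + (-d1)) (t + (i + l + m - k3 - d1 + 2)) (by omega))))) al 0 t (t + (i + l + m - k3 - d1 + 2)) (by omega)))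
  · exact h9_58 al hy a1 a2 s1 s2 b c1 c2 tt D1 D2 mx hL bd0 n1 n2 n3 d1 q1 x1 (by clear * - b0; omega) (by clear * - b2; omega) (by clear * - b4; omega) (by clear * - b5; omega) (by clear * - b6; omega) (by clear * - b7; omega) (by clear * - z128; omega)

theorem h9_41p
    (h9_42 : ∀ {W : ℤ → G} {n Q i j k l i2 m k3 : ℤ} (al : AL W n Q) (hy : (0) ≤ (i) ∧ (i) ≤ (j) ∧ (j + 1) ≤ (Q) ∧ (Q) ≤ (k) ∧ (k + 1) ≤ (n) ∧ (Q) ≤ (i + l + 1) ∧ (k + l + 2) ≤ (n) ∧ (0) ≤ (i2) ∧ (i2 + 1) ≤ (Q) ∧ (Q + m + 1) ≤ (n + i2) ∧ (i2) ≤ (m) ∧ (Q) ≤ (i + l + m + 2) ∧ (i + l + m + 3) ≤ (n) ∧ (Q) ≤ (k3) ∧ (k3 + 1) ≤ (n) ∧ (i + m + 2) ≤ (k) ∧ (i) ≤ (i2) ∧ (i2) ≤ (i) ∧ (i + m + 1) ≤ (k3) ∧ (k3) ≤ (i + m + 1) ∧ (k3) ≤ (i + l + m + 1) ∧ (m + k3 + 2) ≤ (n + i2)) (a1 : Par W (0) (j) (k - j)) (a2 : Par W (Q + j - k) (j) (k - j)) (s1 : Ant W (0) (i) (i + j)) (s2 : Ant W (j + 1) (Q) (i + j)) (b : Par W (i + 1) (i + l + 1) (k - i))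 (c1 : Par W (i2 + 1) (Q) (k + l - i2 + 1)) (c2 : Par W (k + l + 2) (n) (i2 - k - l - 1)) (tt : Ant W (i2 - m) (i2) (i + l + i2 + 1)) (D1 : Par W (Q) (k3) (n + i2 - m - k3 - 1)) (D2 : Par W (i + l + m + 3) (n) (k3 - i - l - m - 2)) {L : ℤ} (mx : ∀ a b g, 0 < g → g < n → Par W a b g → b - a ≤ L) (hL : L ≤ (n - j - 3) ∧ L ≤ (n + Q - k - 3) ∧ L ≤ (n - l - 3) ∧ L ≤ (n + i - k - 2)) (bd0 : Bd W n L (j) (i) (k)) (n1 : Nd W (j) (i) (k)) (n2 : Nd W (i + l + 1) (i2) (k + l + 1)) (n3 : Nd W (n + i2 - m - 1) (i + l + m + 2) (k3)) (d1 : ℤ) (q1 : d1 % 2 = 0) (x1 : Par W (i + 1) (k + l - d1 + 1) d1) (b0 : (i + l + 1) ≤ (k + d1)) (b1 : (d1) ≤ (l)) (b2 : (0) ≤ (d1)) (b3 : (k + 2 * l + 3) ≤ (n + i + d1)) (b4 : (n + i2) ≤ (i + k + 2 * l + 2)) (b5 : (2 * l + 3) ≤ (n)) (b6 : (k + 2 * m + 1) ≤ (n + j)) (b7 : (2 * j + 2 * k3 + 1) ≤ (i + k + 2 * m)) (b8 : (2 * k + 3) ≤ (n + 2 * Q)) (b9 : (n + i2 + k3) ≤ (2 * i + 2 *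 l + 3 * m + 4)), False)
    (h9_53 : ∀ {W : ℤ → G} {n Q i j k l i2 m k3 : ℤ} (al : AL W n Q) (hy : (0) ≤ (i) ∧ (i) ≤ (j) ∧ (j + 1) ≤ (Q) ∧ (Q) ≤ (k) ∧ (k + 1) ≤ (n) ∧ (Q) ≤ (i + l + 1) ∧ (k + l + 2) ≤ (n) ∧ (0) ≤ (i2) ∧ (i2 + 1) ≤ (Q) ∧ (Q + m + 1) ≤ (n + i2) ∧ (i2) ≤ (m) ∧ (Q) ≤ (i + l + m + 2) ∧ (i + l + m + 3) ≤ (n) ∧ (Q) ≤ (k3) ∧ (k3 + 1) ≤ (n) ∧ (i + m + 2) ≤ (k) ∧ (i) ≤ (i2) ∧ (i2) ≤ (i) ∧ (i + m + 1) ≤ (k3) ∧ (k3) ≤ (i + m + 1) ∧ (k3) ≤ (i + l + m + 1) ∧ (m + k3 + 2) ≤ (n + i2)) (a1 : Par W (0) (j) (k - j)) (a2 : Par W (Q + j - k) (j) (k - j)) (s1 : Ant W (0) (i) (i + j)) (s2 : Ant W (j + 1) (Q) (i + j)) (b : Par W (i + 1) (i + l + 1) (k - i)) (c1 : Par W (i2 + 1) (Q) (k + l - i2 + 1)) (c2 : Par W (k + l + 2) (n) (i2 - k - l - 1)) (tt : Ant W (i2 - m) (i2) (i + l + i2 + 1)) (D1 : Par W (Q) (k3) (n + i2 - m - k3 - 1)) (D2 : Par W (i + l + m + 3) (n) (k3 - i - l - m - 2)) {L : ℤ} (mx : ∀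 a b g, 0 < g → g < n → Par W a b g → b - a ≤ L) (hL : L ≤ (n - j - 3) ∧ L ≤ (n + Q - k - 3) ∧ L ≤ (n - l - 3) ∧ L ≤ (n + i - k - 2)) (bd0 : Bd W n L (j) (i) (k)) (n1 : Nd W (j) (i) (k)) (n2 : Nd W (i + l + 1) (i2) (k + l + 1)) (n3 : Nd W (n + i2 - m - 1) (i + l + m + 2) (k3)) (d1 : ℤ) (q1 : d1 % 2 = 0) (x1 : Par W (i + 1) (k + l - d1 + 1) d1) (b0 : (i + l + 1) ≤ (k + d1)) (b1 : (d1) ≤ (l)) (b2 : (0) ≤ (d1)) (b3 : (k + 2 * l + 3) ≤ (n + i + d1)) (b4 : (n + i2) ≤ (i + k + 2 * l + 2)) (b5 : (k + 2 * m + 1) ≤ (n + j)) (b6 : (2 * j + 2 * k3 + 1) ≤ (i + k + 2 * m)) (b7 : (2 * k + 3) ≤ (n + 2 * Q)) (b8 : (2 * i + 2 * l + 3 * m + 5) ≤ (n + i2 + k3)), False)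
    {W : ℤ → G} {n Q i j k l i2 m k3 : ℤ} (al : AL W n Q)
    (hy : (0) ≤ (i) ∧ (i) ≤ (j) ∧ (j + 1) ≤ (Q) ∧ (Q) ≤ (k) ∧ (k + 1) ≤ (n) ∧ (Q) ≤ (i + l + 1) ∧ (k + l + 2) ≤ (n) ∧ (0) ≤ (i2) ∧ (i2 + 1) ≤ (Q) ∧ (Q + m + 1) ≤ (n + i2) ∧ (i2) ≤ (m) ∧ (Q) ≤ (i + l + m + 2) ∧ (i + l + m + 3) ≤ (n) ∧ (Q) ≤ (k3) ∧ (k3 + 1) ≤ (n) ∧ (i + m + 2) ≤ (k) ∧ (i) ≤ (i2) ∧ (i2) ≤ (i) ∧ (i + m + 1) ≤ (k3) ∧ (k3) ≤ (i + m + 1) ∧ (k3) ≤ (i + l + m + 1) ∧ (m + k3 + 2) ≤ (n + i2))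
    (a1 : Par W (0) (j) (k - j))
    (a2 : Par W (Q + j - k) (j) (k - j))
    (s1 : Ant W (0) (i) (i + j))
    (s2 : Ant W (j + 1) (Q) (i + j))
    (b : Par W (i + 1) (i + l + 1) (k - i))
    (c1 : Par W (i2 + 1) (Q) (k + l - i2 + 1))
    (c2 : Par W (k + l + 2) (n) (i2 - k - l - 1))
    (tt : Ant W (i2 - m) (i2) (i + l + i2 + 1))
    (D1 : Par W (Q) (k3) (n + i2 - m - k3 - 1))
    (D2 : Par W (i + l + m + 3) (n) (k3 - i - l - m - 2))
    {L : ℤ} (mx : ∀ a b g, 0 < g → g < n → Par W a b g → b - a ≤ L)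
    (hL : L ≤ (n - j - 3) ∧ L ≤ (n + Q - k - 3) ∧ L ≤ (n - l - 3) ∧ L ≤ (n + i - k - 2))
    (bd0 : Bd W n L (j) (i) (k))
    (n1 : Nd W (j) (i) (k))
    (n2 : Nd W (i + l + 1) (i2) (k + l + 1))
    (n3 : Nd W (n + i2 - m - 1) (i + l + m + 2) (k3))
    (d1 : ℤ) (q1 : d1 % 2 = 0) (x1 : Par W (i + 1) (k + l - d1 + 1) d1)
    (b0 : (i + l + 1) ≤ (k + d1))
    (b1 : (d1) ≤ (l))
    (b2 : (0) ≤ (d1))
    (b3 : (k + 2 * l + 3) ≤ (n + i + d1))
    (b4 : (n + i2) ≤ (i + k + 2 * l + 2))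
    (b5 : (2 * l + 3) ≤ (n))
    (b6 : (k + 2 * m + 1) ≤ (n + j))
    (b7 : (2 * j + 2 * k3 + 1) ≤ (i + k + 2 * m))
    (b8 : (2 * k + 3) ≤ (n + 2 * Q)) : False := by
  have ev := al.ev
  obtain ⟨y0, y1, y2, y3, y4, y5, y6, y7, y8, y9, y10, y11, y12, y13, y14, y15, y16, y17, y18, y19, y20, y21⟩ := id hy
  have n1p := And.intro n1.p1 n1.p2
  have n2p := And.intro n2.p1 n2.p2
  have n3p := And.intro n3.p1 n3.p2
  by_cases z86 : (n + i2 + k3) ≤ (2 * i + 2 * l + 3 * m + 4)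
  · exact h9_42 al hy a1 a2 s1 s2 b c1 c2 tt D1 D2 mx hL bd0 n1 n2 n3 d1 q1 x1 (by clear * - b0; omega) (by clear * - b1; omega) (by clear * - b2; omega) (by clear * - b3; omega) (by clear * - b4; omega) (by clear * - b5; omega) (by clear * - b6; omega) (by clear * - b7; omega) (by clear * - b8; omega) (by clear * - z86; omega)
  · exact h9_53 al hy a1 a2 s1 s2 b c1 c2 tt D1 D2 mx hL bd0 n1 n2 n3 d1 q1 x1 (by clear * - b0; omega) (by clear * - b1; omega) (by clear * - b2; omega) (by clear * - b3; omega) (by clear * - b4; omega) (by clear * - b6; omega) (by clear * - b7; omega) (by clear * - b8; omega) (by clear * - z86; omega)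

end Pool.Agent.MP_a38735_al.WL
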