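import Pool.Agent.MP_a38735_al.WT

set_option autoImplicit false
set_option linter.unusedVariables false

namespace Pool.Agent.MP_a38735_al.WL

variable {G : Type*} [Group G]

theorem ev7_6p
    (ev7_7 : ∀ {W : ℤ → G} {n Q i j k l i2 m k3 : ℤ} (al : AL W n Q) (hy : (0) ≤ (i) ∧ (i) ≤ (j) ∧ (j + 1) ≤ (Q) ∧ (Q) ≤ (k) ∧ (k + 1) ≤ (n) ∧ (Q) ≤ (i + l + 1) ∧ (k + l + 2) ≤ (n) ∧ (0) ≤ (i2) ∧ (i2 + 1) ≤ (Q) ∧ (Q + m + 1) ≤ (n + i2) ∧ (i2) ≤ (m) ∧ (Q) ≤ (i + l + m + 2) ∧ (i + l + m + 3) ≤ (n) ∧ (Q) ≤ (k3) ∧ (k3 + 1) ≤ (n) ∧ (i + m + 2) ≤ (k) ∧ (i) ≤ (i2) ∧ (i2) ≤ (i) ∧ (k3) ≤ (i + m)) (a1 : Par W (0) (j) (k - j)) (a2 : Par W (Q + j - k) (j) (k - j)) (s1 : Ant W (0) (i) (i + j)) (s2 : Ant W (j + 1) (Q) (i + j)) (b : Par W (i + 1) (i + l + 1) (k - i)) (c1 : Par W (i2 + 1) (Q) (k + l - i2 + 1)) (c2 : Par W (k + l + 2) (n) (i2 - k - l - 1)) (tt : Ant W (i2 - m) (i2) (i + l + i2 + 1)) (D1 : Par W (Q)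 (k3) (n + i2 - m - k3 - 1)) (D2 : Par W (i + l + m + 3) (n) (k3 - i - l - m - 2)) {L : ℤ} (mx : ∀ a b g, 0 < g → g < n → Par W a b g → b - a ≤ L) (hL : L ≤ (n - j - 3) ∧ L ≤ (n + Q - k - 3) ∧ L ≤ (n - l - 3) ∧ L ≤ (n + i - k - 2)) (bd0 : Bd W n L (j) (i) (k)) (n1 : Nd W (j) (i) (k)) (n2 : Nd W (i + l + 1) (i2) (k + l + 1)) (n3 : Nd W (n + i2 - m - 1) (i + l + m + 2) (k3)) (b0 : (i + l + 2 * m + 2) ≤ (n + i2)) (b1 : (2 * i + j + 1) ≤ (k)) (b2 : (i + k + l + m + 3) ≤ (n + j + k3)) (b3 : (n + i2) ≤ (i + k + 2 * l + m + 2)) (b4 : (2 * l + 3) ≤ (n)) (b5 : (k + i2) ≤ (i + j + l + 1)), False)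
    {W : ℤ → G} {n Q i j k l i2 m k3 : ℤ} (al : AL W n Q)
    (hy : (0) ≤ (i) ∧ (i) ≤ (j) ∧ (j + 1) ≤ (Q) ∧ (Q) ≤ (k) ∧ (k + 1) ≤ (n) ∧ (Q) ≤ (i + l + 1) ∧ (k + l + 2) ≤ (n) ∧ (0) ≤ (i2) ∧ (i2 + 1) ≤ (Q) ∧ (Q + m + 1) ≤ (n + i2) ∧ (i2) ≤ (m) ∧ (Q) ≤ (i + l + m + 2) ∧ (i + l + m + 3) ≤ (n) ∧ (Q) ≤ (k3) ∧ (k3 + 1) ≤ (n) ∧ (i + m + 2) ≤ (k) ∧ (i) ≤ (i2) ∧ (i2) ≤ (i) ∧ (k3) ≤ (i + m))
    (a1 : Par W (0) (j) (k - j))
    (a2 : Par W (Q + j - k) (j) (k - j))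
    (s1 : Ant W (0) (i) (i + j))
    (s2 : Ant W (j + 1) (Q) (i + j))
    (b : Par W (i + 1) (i + l + 1) (k - i))
    (c1 : Par W (i2 + 1) (Q) (k + l - i2 + 1))
    (c2 : Par W (k + l + 2) (n) (i2 - k - l - 1))
    (tt : Ant W (i2 - m) (i2) (i + l + i2 + 1))
    (D1 : Par W (Q) (k3) (n + i2 - m - k3 - 1))
    (D2 : Par W (i + l + m + 3) (n) (k3 - i - l - m - 2))
    {L : ℤ} (mx : ∀ a b g, 0 < g → g < n → Par W a b g → b - a ≤ L)
    (hL : L ≤ (n - j - 3) ∧ L ≤ (n + Q - k - 3) ∧ L ≤ (n - l - 3) ∧ L ≤ (n + i - k - 2))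
    (bd0 : Bd W n L (j) (i) (k))
    (n1 : Nd W (j) (i) (k))
    (n2 : Nd W (i + l + 1) (i2) (k + l + 1))
    (n3 : Nd W (n + i2 - m - 1) (i + l + m + 2) (k3))
    (b0 : (i + l + 2 * m + 2) ≤ (n + i2))
    (b1 : (2 * i + j + 1) ≤ (k))
    (b2 : (i + k + l + m + 3) ≤ (n + j + k3))
    (b3 : (n + i2) ≤ (i + k + 2 * l + m + 2))
    (b4 : (2 * k + 3) ≤ (n + 2 * Q))
    (b5 : (2 * l + 3) ≤ (n)) : False := by
  have ev := al.ev
  obtain ⟨y0, y1, y2, y3, y4, y5, y6, y7, y8, y9, y10, y11, y12, y13, y14, y15, y16, y17, y18⟩ := id hy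
  have n1p := And.intro n1.p1 n1.p2
  have n2p := And.intro n2.p1 n2.p2
  have n3p := And.intro n3.p1 n3.p2
  by_cases z7 : (i + j + l + 2) ≤ (k + i2)
  · by_cases z8 : (k + i2) ≤ (i + j + l + 2 * m + 2)
    · by_cases v2 : (k + i2) ≤ (Q + j + m)
      · have kk47 : (i + j + l + 3) ≤ (k + i2) := by clear * - z7 ev n1p n2p n3p; omega
        have kk48 : (2 * Q + j) ≤ (i + k + l + i2 + 2) := by clear * - y5 z7; omega
        have kk49 : (i2) ≤ (j) := by clear * - y1 y17; omega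
        have kk50 : (k + i2) ≤ (Q + j + m) := by clear * - v2; omega
        have r51 : (i + k + l + i2 - 2 * n - j + 1) % 2 = 0 := by clear * - ev n1p n2p n3p; omega
        clear * - al a2 tt kk47 kk48 kk49 kk50 r51
        obtain ⟨t, ht⟩ : ∃ t, 2 * t = (i + k + l + i2 - 2 * n - j + 1) := ⟨(i + k + l + i2 - 2 * n - j + 1) / 2, by omega⟩
        exact al.ninv t (cE (cE (ab tt al (-1) t ((i + l + i2 - n + 1) - t) (by omega)) (qf a2 al 0 ((i + l + i2 - n + 1) - t) ((i + k + l + i2 - n - j + 1) - t) (by omega))) (sh al (-1) ((i + k + l + i2 - n - j + 1) - t) t (by omega)))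
      · have kk52 : (i + j + l + 3) ≤ (k + i2) := by clear * - z7 ev n1p n2p n3p; omega
        have kk53 : (k + i2) ≤ (i + j + l + 2 * m + 2) := by clear * - z8; omega
        have kk54 : (i2) ≤ (j) := by clear * - y1 y17; omega
        have kk55 : (Q + j + m) ≤ (k + i2) := by clear * - v2; omega
        have r56 : (i + k + l + i2 - 2 * n - j + 1) % 2 = 0 := by clear * - ev n1p n2p n3p; omega
        clear * - al a2 tt kk52 kk53 kk54 kk55 r56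
        obtain ⟨t, ht⟩ : ∃ t, 2 * t = (i + k + l + i2 - 2 * n - j + 1) := ⟨(i + k + l + i2 - 2 * n - j + 1) / 2, by omega⟩
        exact al.ninv t (cE (cE (ab tt al (-1) t ((i + l + i2 - n + 1) - t) (by omega)) (qf a2 al 0 ((i + l + i2 - n + 1) - t) ((i + k + l + i2 - n - j + 1) - t) (by omega))) (sh al (-1) ((i + k + l + i2 - n - j + 1) - t) t (by omega)))
    · have kk57 : (k3) ≤ (i + l + m + 1) := by clear * - y16 y18 y5 y8; omega
      have kk58 : (i + l + m + 3) ≤ (n + k3) := by clear * - b0 b1 b2 b3 b4 b5 y13 z8; omega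
      have kk59 : (2 * i + l + m + 2) ≤ (k) := by clear * - y1 y10 z8; omega
      clear * - al D2 mx hL kk57 kk58 kk59
      exact absurd (mx (k3 - n + 1) (k3 - i - l - m - 2) (i + l + m - k3 + 2) (by omega) (by omega) fun t h1 h2 => (cE (pb D2 al (-1) t (t + (n + i + l + m - k3 + 2)) (by omega)) (sh al (-1) (t + (n + i + l + m - k3 + 2)) (t + (i + l + m - k3 + 2)) (by omega)))) (by omega)
  · exact ev7_7 al hy a1 a2 s1 s2 b c1 c2 tt D1 D2 mx hL bd0 n1 n2 n3 (by clear * - b0; omega) (by clear * - b1; omega) (by clear * - b2; omega) (by clear * - b3; omega) (by clear * - b5; omega) (by clear * - z7; omega)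

theorem h8_12p
    (h8_13 : ∀ {W : ℤ → G} {n Q i j k l i2 m k3 : ℤ} (al : AL W n Q) (hy : (0) ≤ (i) ∧ (i) ≤ (j) ∧ (j + 1) ≤ (Q) ∧ (Q) ≤ (k) ∧ (k + 1) ≤ (n) ∧ (Q) ≤ (i + l + 1) ∧ (k + l + 2) ≤ (n) ∧ (0) ≤ (i2) ∧ (i2 + 1) ≤ (Q) ∧ (Q + m + 1) ≤ (n + i2) ∧ (i2) ≤ (m) ∧ (Q) ≤ (i + l + m + 2) ∧ (i + l + m + 3) ≤ (n) ∧ (Q) ≤ (k3) ∧ (k3 + 1) ≤ (n) ∧ (i + m + 2) ≤ (k) ∧ (i) ≤ (i2) ∧ (i2) ≤ (i) ∧ (i + m + 2) ≤ (k3) ∧ (k3) ≤ (i + l + m + 1) ∧ (m + k3 + 2) ≤ (n + i2)) (a1 : Par W (0) (j) (k - j)) (a2 : Par W (Q + j - k) (j) (k - j)) (s1 : Ant W (0) (i) (i + j)) (s2 : Ant W (j + 1) (Q) (i + j)) (b : Par W (i + 1) (i + l + 1) (k - i)) (c1 : Par W (i2 + 1) (Q) (k + l - i2 + 1)) (c2 : Par W (k + l + 2) (n) (i2 - k - l - 1)) (tt : Ant W (i2 - m) (i2) (i + l + i2 + 1)) (D1 : Par W (Q) (k3) (n + i2 - m - k3 - 1)) (D2 : Par W (i + l + m + 3) (n) (k3 - i - l - m - 2)) {L : ℤ} (mx : ∀ a b g, 0 < g → g <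 n → Par W a b g → b - a ≤ L) (hL : L ≤ (n - j - 3) ∧ L ≤ (n + Q - k - 3) ∧ L ≤ (n - l - 3) ∧ L ≤ (n + i - k - 2)) (bd0 : Bd W n L (j) (i) (k)) (n1 : Nd W (j) (i) (k)) (n2 : Nd W (i + l + 1) (i2) (k + l + 1)) (n3 : Nd W (n + i2 - m - 1) (i + l + m + 2) (k3)) (b0 : (2 * l + 3) ≤ (n)) (b1 : (n + k3) ≤ (2 * i + 2 * l + i2 + m + 4)) (b2 : (i2 + 2 * m) ≤ (i + l)) (b3 : (2 * i + j + 1) ≤ (k)) (b4 : (2 * Q + k + l) ≤ (n + 2 * j + i2)) (b5 : (k + k3) ≤ (2 * i + l + m + 1)), False)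
    {W : ℤ → G} {n Q i j k l i2 m k3 : ℤ} (al : AL W n Q)
    (hy : (0) ≤ (i) ∧ (i) ≤ (j) ∧ (j + 1) ≤ (Q) ∧ (Q) ≤ (k) ∧ (k + 1) ≤ (n) ∧ (Q) ≤ (i + l + 1) ∧ (k + l + 2) ≤ (n) ∧ (0) ≤ (i2) ∧ (i2 + 1) ≤ (Q) ∧ (Q + m + 1) ≤ (n + i2) ∧ (i2) ≤ (m) ∧ (Q) ≤ (i + l + m + 2) ∧ (i + l + m + 3) ≤ (n) ∧ (Q) ≤ (k3) ∧ (k3 + 1) ≤ (n) ∧ (i + m + 2) ≤ (k) ∧ (i) ≤ (i2) ∧ (i2) ≤ (i) ∧ (i + m + 2) ≤ (k3) ∧ (k3) ≤ (i + l + m + 1) ∧ (m + k3 + 2) ≤ (n + i2))
    (a1 : Par W (0) (j) (k - j))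
    (a2 : Par W (Q + j - k) (j) (k - j))
    (s1 : Ant W (0) (i) (i + j))
    (s2 : Ant W (j + 1) (Q) (i + j))
    (b : Par W (i + 1) (i + l + 1) (k - i))
    (c1 : Par W (i2 + 1) (Q) (k + l - i2 + 1))
    (c2 : Par W (k + l + 2) (n) (i2 - k - l - 1))
    (tt : Ant W (i2 - m) (i2) (i + l + i2 + 1))
    (D1 : Par W (Q) (k3) (n + i2 - m - k3 - 1))
    (D2 : Par W (i + l + m + 3) (n) (k3 - i - l - m - 2))
    {L : ℤ} (mx : ∀ a b g, 0 < g → g < n → Par W a b g → b - a ≤ L)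
    (hL : L ≤ (n - j - 3) ∧ L ≤ (n + Q - k - 3) ∧ L ≤ (n - l - 3) ∧ L ≤ (n + i - k - 2))
    (bd0 : Bd W n L (j) (i) (k))
    (n1 : Nd W (j) (i) (k))
    (n2 : Nd W (i + l + 1) (i2) (k + l + 1))
    (n3 : Nd W (n + i2 - m - 1) (i + l + m + 2) (k3))
    (b0 : (2 * l + 3) ≤ (n))
    (b1 : (n + k3) ≤ (2 * i + 2 * l + i2 + m + 4))
    (b2 : (i2 + 2 * m) ≤ (i + l))
    (b3 : (2 * i + j + 1) ≤ (k))
    (b4 : (2 * Q + k + l) ≤ (n + 2 * j + i2))
    (b5 : (k + k3) ≤ (2 * i + l + m + 2)) : False := by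
  have ev := al.ev
  obtain ⟨y0, y1, y2, y3, y4, y5, y6, y7, y8, y9, y10, y11, y12, y13, y14, y15, y16, y17, y18, y19, y20⟩ := id hy
  have n1p := And.intro n1.p1 n1.p2
  have n2p := And.intro n2.p1 n2.p2
  have n3p := And.intro n3.p1 n3.p2
  by_cases z24 : (2 * i + l + m + 2) ≤ (k + k3)
  · have kk327 : (k3) ≤ (i + l) := by clear * - b5 y15; omega
    have kk328 : (2 * i + 2 * l + m + 4) ≤ (n + k3) := by clear * - y6 z24; omega
    have kk329 : (k + k3) ≤ (2 * i + l + m + 2) := by clear * - b5; omega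
    have kk330 : (2 * i + l + m + 2) ≤ (k + k3) := by clear * - z24; omega
    clear * - al D2 n2 kk327 kk328 kk329 kk330
    exact n2.f0 (pb D2 al 0 (i + l + 1) (k + l + 1) (by omega))
  · exact h8_13 al hy a1 a2 s1 s2 b c1 c2 tt D1 D2 mx hL bd0 n1 n2 n3 (by clear * - b0; omega) (by clear * - b1; omega) (by clear * - b2; omega) (by clear * - b3; omega) (by clear * - b4; omega) (by clear * - z24; omega)

theorem h8_50p
    (h8_51 : ∀ {W : ℤ → G} {n Q i j k l i2 m k3 : ℤ} (al : AL W n Q) (hy : (0) ≤ (i) ∧ (i) ≤ (j) ∧ (j + 1) ≤ (Q) ∧ (Q) ≤ (k) ∧ (k + 1) ≤ (n) ∧ (Q) ≤ (i + l + 1) ∧ (k + l + 2) ≤ (n) ∧ (0) ≤ (i2) ∧ (i2 + 1) ≤ (Q) ∧ (Q + m + 1) ≤ (n + i2) ∧ (i2) ≤ (m) ∧ (Q) ≤ (i + l + m + 2) ∧ (i + l + m + 3) ≤ (n) ∧ (Q) ≤ (k3) ∧ (k3 + 1) ≤ (n) ∧ (i + m + 2) ≤ (k) ∧ (i) ≤ (i2) ∧ (i2) ≤ (i) ∧ (i + m + 2) ≤ (k3) ∧ (k3) ≤ (i + l + m + 1) ∧ (m + k3 + 2) ≤ (n + i2)) (a1 : Par W (0) (j) (k - j))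 (a2 : Par W (Q + j - k) (j) (k - j)) (s1 : Ant W (0) (i) (i + j)) (s2 : Ant W (j + 1) (Q) (i + j)) (b : Par W (i + 1) (i + l + 1) (k - i)) (c1 : Par W (i2 + 1) (Q) (k + l - i2 + 1)) (c2 : Par W (k + l + 2) (n) (i2 - k - l - 1)) (tt : Ant W (i2 - m) (i2) (i + l + i2 + 1)) (D1 : Par W (Q) (k3) (n + i2 - m - k3 - 1)) (D2 : Par W (i + l + m + 3) (n) (k3 - i - l - m - 2)) {L : ℤ} (mx : ∀ a b g, 0 < g → g < n → Par W a b g → b - a ≤ L) (hL : L ≤ (n - j - 3) ∧ L ≤ (n + Q - k - 3) ∧ L ≤ (n - l - 3) ∧ L ≤ (n + i - k - 2)) (bd0 : Bd W n L (j) (i) (k)) (n1 : Nd W (j) (i) (k)) (n2 : Nd W (i + l + 1) (i2) (k + l + 1)) (n3 : Nd W (n + i2 - m - 1) (i + l + m + 2) (k3)) (b0 : (2 * l + 3) ≤ (n)) (b1 : (2 * i + j + 1) ≤ (k)) (b2 : (k + i2 + m + 1) ≤ (i + k3)) (b3 : (i + k) ≤ (2 * j + 1)) (b4 : (i + m + k3 + 3) ≤ (Q + k + i2)) (b5 : (2 * Q + k + 2 * l + 2 * m + 4) ≤ (n + j + 2 * k3)) (b6 : (n + i2 + k3)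 ≤ (i + j + 2 * l + 3 * m + 4)) (b7 : (n + Q) ≤ (i + 2 * l + 2 * m + 4)) (b8 : (3 * k + l + m + k3 + 2) ≤ (n + 2 * i + 2 * i2)), False)
    {W : ℤ → G} {n Q i j k l i2 m k3 : ℤ} (al : AL W n Q)
    (hy : (0) ≤ (i) ∧ (i) ≤ (j) ∧ (j + 1) ≤ (Q) ∧ (Q) ≤ (k) ∧ (k + 1) ≤ (n) ∧ (Q) ≤ (i + l + 1) ∧ (k + l + 2) ≤ (n) ∧ (0) ≤ (i2) ∧ (i2 + 1) ≤ (Q) ∧ (Q + m + 1) ≤ (n + i2) ∧ (i2) ≤ (m) ∧ (Q) ≤ (i + l + m + 2) ∧ (i + l + m + 3) ≤ (n) ∧ (Q) ≤ (k3) ∧ (k3 + 1) ≤ (n) ∧ (i + m + 2) ≤ (k) ∧ (i) ≤ (i2) ∧ (i2) ≤ (i) ∧ (i + m + 2) ≤ (k3) ∧ (k3) ≤ (i + l + m + 1) ∧ (m + k3 + 2) ≤ (n + i2))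
    (a1 : Par W (0) (j) (k - j))
    (a2 : Par W (Q + j - k) (j) (k - j))
    (s1 : Ant W (0) (i) (i + j))
    (s2 : Ant W (j + 1) (Q) (i + j))
    (b : Par W (i + 1) (i + l + 1) (k - i))
    (c1 : Par W (i2 + 1) (Q) (k + l - i2 + 1))
    (c2 : Par W (k + l + 2) (n) (i2 - k - l - 1))
    (tt : Ant W (i2 - m) (i2) (i + l + i2 + 1))
    (D1 : Par W (Q) (k3) (n + i2 - m - k3 - 1))
    (D2 : Par W (i + l + m + 3) (n) (k3 - i - l - m - 2))
    {L : ℤ} (mx : ∀ a b g, 0 < g → g < n → Par W a b g → b - a ≤ L)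
    (hL : L ≤ (n - j - 3) ∧ L ≤ (n + Q - k - 3) ∧ L ≤ (n - l - 3) ∧ L ≤ (n + i - k - 2))
    (bd0 : Bd W n L (j) (i) (k))
    (n1 : Nd W (j) (i) (k))
    (n2 : Nd W (i + l + 1) (i2) (k + l + 1))
    (n3 : Nd W (n + i2 - m - 1) (i + l + m + 2) (k3))
    (b0 : (2 * l + 3) ≤ (n))
    (b1 : (2 * i + j + 1) ≤ (k))
    (b2 : (k + i2 + m + 1) ≤ (i + k3))
    (b3 : (i + k) ≤ (2 * j + 1))
    (b4 : (i + m + k3 + 3) ≤ (Q + k + i2))
    (b5 : (2 * Q + k + 2 * l + 2 * m + 4) ≤ (n + j + 2 * k3))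
    (b6 : (n + i2 + k3) ≤ (i + j + 2 * l + 3 * m + 4))
    (b7 : (4 * k + l + 2) ≤ (n + 2 * i + i2))
    (b8 : (n + Q) ≤ (i + 2 * l + 2 * m + 4)) : False := by
  have ev := al.ev
  obtain ⟨y0, y1, y2, y3, y4, y5, y6, y7, y8, y9, y10, y11, y12, y13, y14, y15, y16, y17, y18, y19, y20⟩ := id hy
  have n1p := And.intro n1.p1 n1.p2
  have n2p := And.intro n2.p1 n2.p2
  have n3p := And.intro n3.p1 n3.p2
  by_cases z96 : (n + 2 * i + 2 * i2) ≤ (3 * k + l + m + k3 + 1)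
  · by_cases z97 : (Q + 3 * k + l + m + 2) ≤ (n + 2 * i + 2 * i2)
    · have kk1099 : (n + 2 * i + 2 * i2) ≤ (3 * k + l + m + k3 + 1) := by clear * - z96; omega
      have kk1100 : (3 * k + l + m + k3 + 3) ≤ (2 * n + 2 * i + 2 * i2) := by clear * - b0 b1 b2 b4 b6 b7 b8 z96 z97; omega
      have kk1101 : (Q + 3 * k + l + m + 2) ≤ (n + 2 * i + 2 * i2) := by clear * - z97; omega
      have kk1102 : (3 * k + l + m + k3 + 3) ≤ (n + Q + i + 2 * i2) := by clear * - b4 b7; omega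
      have kk1103 : (k + l + m + k3 + 3) ≤ (n + Q + i2) := by clear * - b0 b1 b2 b4 b6 b7 b8 z96 z97; omega
      have kk1104 : (2 * k + l + m + k3 + 3) ≤ (n + Q + 2 * i2) := by clear * - b0 b1 b2 b4 b6 b7 z96 z97; omega
      have kk1105 : (i2) ≤ (m + 1) := by clear * - b0 b1 b2 b6; omega
      have kk1106 : (n + i + 2 * i2) ≤ (3 * k + 2 * l + m + 3) := by clear * - b0 b1 b2 b4 b5 b6 b8 z96 z97; omega
      have kk1107 : (n + 2 * i2) ≤ (2 * k + 2 * l + m + 3) := by clear * - b0 b1 b2 b4 b5 b6 b8 z96 z97; omega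
      clear * - al b c2 D1 kk1099 kk1100 kk1101 kk1102 kk1103 kk1104 kk1105 kk1106 kk1107
      exact al.ubQ (3 * k + l + m + k3 - n - 2 * i - 2 * i2 + 2) (by omega) (by omega) fun t h1 h2 => (cE (sh al (-1) t (t + (-n)) (by omega)) (cE (cE (cE (qf b al (-1) (t + (-n)) (t + (k - i)) (by omega)) (qf b al 0 (t + (k - i)) (t + (2 * k - 2 * i)) (by omega))) (pb c2 al 0 (t + (2 * k - 2 * i)) (t + (3 * k + l - 2 * i - i2 + 1)) (by omega))) (pb D1 al 0 (t + (3 * k + l - 2 * i - i2 + 1)) (t + (3 * k + l + m + k3 - n - 2 * i - 2 * i2 + 2)) (by omega))))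
    · have kk1108 : (3 * k + k3) ≤ (4 * i + l + m + 1) := by clear * - b4 b7 b8 y17; omega
      have kk1109 : (3 * k + k3) ≤ (4 * i + l + m) := by clear * - b4 b7 b8 y17; omega
      have kk1110 : (9 * k + l + 3 * m + k3 + 6) ≤ (2 * n + 8 * i + 2 * i2) := by clear * - b0 b1 b2 b4 b5 b7 b8 y17; omega
      have kk1111 : (7 * k + 3 * k3) ≤ (10 * i + 3 * l + m + 2) := by clear * - b1 b4 b5 b7 b8 y17 z96; omega
      have kk1112 : (i) ≤ (k3) := by clear * - b0 b1 b2 b4 b5 b7 b8 z97; omega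
      have kk1113 : (2 * i + 2 * l + m + 3) ≤ (n + k3) := by clear * - b0 b1 b4 b5 b7 z96; omega
      have kk1114 : (0) ≤ (i2) := by clear * - b0 b2 b4 b8 y16; omega
      have kk1115 : (i + l + 2 * m + 3) ≤ (n + i2) := by clear * - b0 b1 b2 b4 b5 b6 b7 b8 z97; omega
      have kk1116 : (3 * i) ≤ (2 * k + k3) := by clear * - b0 b1 b2 b4 b5 b6 b7 b8 z97; omega
      have kk1117 : (2 * i) ≤ (k + k3) := by clear * - b0 b1 b2 b4 b5 b6 b7 b8 z97; omega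
      have kk1118 : (2 * i) ≤ (2 * k) := by clear * - b0 b1 b2 b4 b5 b6 b7 b8 z97; omega
      have kk1119 : (i) ≤ (k) := by clear * - b0 b1 b2 b4 b5 b6 b7 b8 z97; omega
      have kk1120 : (4 * i + l + i2 + 1) ≤ (3 * k + k3) := by clear * - b0 b1 b5 y16 z97; omega
      have kk1121 : (n + i2 + k3) ≤ (i + k + 2 * l + 2 * m + 4) := by clear * - b0 b1 b4 b6 b7 b8 y17 z96; omega
      have r1122 : (n + i2 + k3 - m - 1) % 2 = 0 := by clear * - ev n1p n2p n3p; omega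
      have r1123 : (4 * i + l + m - 3 * k - k3 + 2) % 2 = 0 := by clear * - ev n1p n2p n3p; omega
      clear * - al b tt D2 kk1108 kk1109 kk1110 kk1111 kk1112 kk1113 kk1114 kk1115 kk1116 kk1117 kk1118 kk1119 kk1120 kk1121 r1122 r1123
      exact midP al (4 * i + l + m - 3 * k - k3 + 2) (n + i2 + k3 - m - 1) (3 * k + k3 - 3 * i + 1) (3 * k + k3 - 3 * i + 1) (4 * i + 2 * l + m - 2 * k - k3 + 3) (by omega) (fun t h1 h2 => (cE (ab tt al 0 t ((i + l + i2 + 1) - t) (by omega)) (qf D2 al (-1) ((i + l + i2 + 1) - t) ((n + i2 + k3 - m - 1) - t) (by omega)))) (fun t h1 h2 => (cE (cE (pb b al 0 t (t + (i - k)) (by omega)) (pb b al 0 (t + (i - k)) (t + (2 * i - 2 * k)) (by omega))) (qf (show Par W (k + k3 - i + 1) (k + l + 1) (2 * i + l + m - k - k3 + 2) from fun t h1 h2 => (cE (sh al (-1) t (t + (-n)) (by omega)) (cE (pb b al (-1) (t + (-n)) (t + (i - k)) (by omega)) (pb D2 al 0 (t + (i - k))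 (t + (2 * i + l + m - k - k3 + 2)) (by omega))))) al 0 (t + (2 * i - 2 * k)) (t + (4 * i + l + m - 3 * k - k3 + 2)) (by omega))))
  · exact h8_51 al hy a1 a2 s1 s2 b c1 c2 tt D1 D2 mx hL bd0 n1 n2 n3 (by clear * - b0; omega) (by clear * - b1; omega) (by clear * - b2; omega) (by clear * - b3; omega) (by clear * - b4; omega) (by clear * - b5; omega) (by clear * - b6; omega) (by clear * - b8; omega) (by clear * - z96; omega)

theorem h8_62p
    {W : ℤ → G} {n Q i j k l i2 m k3 : ℤ} (al : AL W n Q)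
    (hy : (0) ≤ (i) ∧ (i) ≤ (j) ∧ (j + 1) ≤ (Q) ∧ (Q) ≤ (k) ∧ (k + 1) ≤ (n) ∧ (Q) ≤ (i + l + 1) ∧ (k + l + 2) ≤ (n) ∧ (0) ≤ (i2) ∧ (i2 + 1) ≤ (Q) ∧ (Q + m + 1) ≤ (n + i2) ∧ (i2) ≤ (m) ∧ (Q) ≤ (i + l + m + 2) ∧ (i + l + m + 3) ≤ (n) ∧ (Q) ≤ (k3) ∧ (k3 + 1) ≤ (n) ∧ (i + m + 2) ≤ (k) ∧ (i) ≤ (i2) ∧ (i2) ≤ (i) ∧ (i + m + 2) ≤ (k3) ∧ (k3) ≤ (i + l + m + 1) ∧ (m + k3 + 2) ≤ (n + i2))
    (a1 : Par W (0) (j) (k - j))
    (a2 : Par W (Q + j - k) (j) (k - j))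
    (s1 : Ant W (0) (i) (i + j))
    (s2 : Ant W (j + 1) (Q) (i + j))
    (b : Par W (i + 1) (i + l + 1) (k - i))
    (c1 : Par W (i2 + 1) (Q) (k + l - i2 + 1))
    (c2 : Par W (k + l + 2) (n) (i2 - k - l - 1))
    (tt : Ant W (i2 - m) (i2) (i + l + i2 + 1))
    (D1 : Par W (Q) (k3) (n + i2 - m - k3 - 1))
    (D2 : Par W (i + l + m + 3) (n) (k3 - i - l - m - 2))
    {L : ℤ} (mx : ∀ a b g, 0 < g → g < n → Par W a b g → b - a ≤ L)
    (hL : L ≤ (n - j - 3) ∧ L ≤ (n + Q - k - 3) ∧ L ≤ (n - l - 3) ∧ L ≤ (n + i - k - 2))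
    (bd0 : Bd W n L (j) (i) (k))
    (n1 : Nd W (j) (i) (k))
    (n2 : Nd W (i + l + 1) (i2) (k + l + 1))
    (n3 : Nd W (n + i2 - m - 1) (i + l + m + 2) (k3))
    (d1 : ℤ) (q1 : d1 % 2 = 0) (x1 : Par W (n + i + 1) (n + k + l - d1 + 1) d1)
    (b0 : (2 * l + 3) ≤ (n))
    (b1 : (2 * i + j + 1) ≤ (k))
    (b2 : (k + i2 + m + 1) ≤ (i + k3))
    (b3 : (2 * Q + k + 2 * l + 2 * m + 4) ≤ (n + j + 2 * k3))
    (b4 : (i + 2 * l + 2 * m + 4) ≤ (n + j))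
    (b5 : (3 * k) ≤ (i + 2 * j + k3))
    (b6 : (n + 2 * k3) ≤ (i + 2 * k + 2 * l + 2 * m + 3))
    (b7 : (2 * i + k + 2 * l + 3 * m + 6) ≤ (n + j + i2 + k3))
    (b8 : (4 * k + l + k3 + 1) ≤ (n + 2 * i + 2 * i2 + m))
    (b9 : (i + 5 * j + 1) ≤ (4 * k))
    (b10 : (i + l + m + 3) ≤ (k + d1))
    (b11 : (d1) ≤ (l + m + 2)) : False := by
  have ev := al.ev
  obtain ⟨y0, y1, y2, y3, y4, y5, y6, y7, y8, y9, y10, y11, y12, y13, y14, y15, y16, y17, y18, y19, y20⟩ := id hy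
  have n1p := And.intro n1.p1 n1.p2
  have n2p := And.intro n2.p1 n2.p2
  have n3p := And.intro n3.p1 n3.p2
  by_cases z118 : (4 * i + l + 3 * i2 + 3) ≤ (3 * k + 2 * k3)
  · have kk1381 : (3 * k + 2 * k3) ≤ (4 * i + l + i2 + 2 * m + 2) := by clear * - b2 b6 b8; omega
    have kk1382 : (4 * i + l + 3 * i2 + 3) ≤ (3 * k + 2 * k3) := by clear * - z118; omega
    have kk1383 : (3 * k + 2 * k3) ≤ (4 * i + l + i2 + 2 * m + 1) := by clear * - b2 b6 b8; omega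
    have kk1384 : (2 * n + k + i2 + 4 * k3) ≤ (6 * i + 5 * l + 6 * m + 9) := by clear * - b1 b10 b11 b2 b5 b6 b8 b9 z118; omega
    have kk1385 : (i) ≤ (k3) := by clear * - b10 b11 b2 b5 b6 b7 b8 b9 z118; omega
    have kk1386 : (2 * i + 2 * l + m + 3) ≤ (n + k3) := by clear * - b10 b11 b4 b5 b6 b7 b8 b9 z118; omega
    have kk1387 : (i2) ≤ (k3) := by clear * - b10 b11 b2 b4 b5 b6 b8 b9 z118; omega
    have kk1388 : (i + i2 + m + 1) ≤ (k + k3) := by clear * - b10 b11 b2; omega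
    have kk1389 : (i + l + 2 * m + 3) ≤ (n + i2) := by clear * - b2 b4 b5 b6 b7 b8 b9 z118; omega
    have kk1390 : (0) ≤ (i2) := by clear * - b4 b5 b6 b9 y16; omega
    have kk1391 : (3 * i + i2 + m + 1) ≤ (2 * k + 2 * k3) := by clear * - b10 b11 b2 b5 b6 b7 b8 b9 z118; omega
    have kk1392 : (i) ≤ (k) := by clear * - b10 b11; omega
    have kk1393 : (3 * i + 2 * l + m + 3) ≤ (n + k + k3) := by clear * - b10 b11 b4 b5 b6 b7 b8 b9 z118; omega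
    have kk1394 : (3 * k + l + m + k3 + 2) ≤ (n + 2 * i + 2 * i2) := by clear * - b2 b4 b5 b6 b7 b8 b9 z118; omega
    have kk1395 : (2 * k + 2 * k3) ≤ (3 * i + l + i2 + m + 2) := by clear * - b2 b5 b6 b7 b8 b9 z118; omega
    have r1396 : (n + i2 + k3 - m - 1) % 2 = 0 := by clear * - ev n1p n2p n3p q1; omega
    have r1397 : (4 * i + l + i2 + 2 * m - 3 * k - 2 * k3 + 3) % 2 = 0 := by clear * - ev n1p n2p n3p q1; omega
    clear * - al b c2 tt D2 kk1381 kk1382 kk1383 kk1384 kk1385 kk1386 kk1387 kk1388 kk1389 kk1390 kk1391 kk1392 kk1393 kk1394 kk1395 r1396 r1397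
    exact midP al (4 * i + l + i2 + 2 * m - 3 * k - 2 * k3 + 3) (n + i2 + k3 - m - 1) (n + i2 + k3 - i - l - 2 * m - 2) (3 * k + 2 * k3 - 3 * i - i2 - m) (4 * i + 2 * l + i2 + 2 * m - 2 * k - 2 * k3 + 4) (by omega) (fun t h1 h2 => (cI (pb D2 al 0 t (t + (i + l + m - k3 + 2)) (by omega)) (qa tt al 1 (t + (i + l + m - k3 + 2)) ((n + i2 + k3 - m - 1) - t) (by omega)))) (fun t h1 h2 => (cE (cE (pb b al 0 t (t + (i - k)) (by omega)) (qf (show Par W (k + k3 - i + 1) (k + l + 1) (2 * i + l + m - k - k3 + 2) from fun t h1 h2 => (cE (sh al (-1) t (t + (-n)) (by omega)) (cE (pb b al (-1) (t + (-n)) (t + (i - k)) (by omega)) (pb D2 al 0 (t + (i - k)) (t + (2 * i + l + m - k - k3 + 2)) (by omega))))) al 0 (t + (i - k)) (t + (3 * i + l + m - 2 * k - k3 + 2)) (by omega))) (pb (show Par W (i + l + m + 3) (n + i + i2 + m - k - k3 + 1) (k + k3 - i - i2 - m - 1) from fun t h1 h2 => (cE (sh al (-1) t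 (t + (-n)) (by omega)) (cE (qf D2 al (-1) (t + (-n)) (t + (k3 - i - l - m - 2)) (by omega)) (pb c2 al 0 (t + (k3 - i - l - m - 2)) (t + (k + k3 - i - i2 - m - 1)) (by omega))))) al 0 (t + (3 * i + l + m - 2 * k - k3 + 2)) (t + (4 * i + l + i2 + 2 * m - 3 * k - 2 * k3 + 3)) (by omega))))
  · by_cases z119 : (n + k3) ≤ (i + k + l + m + d1 + 2)
    · have kk1398 : (i + k + l + m + d1 + 3) ≤ (n + j + k3) := by clear * - b1 b11 b4 b5 b9 z119; omega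
      have kk1399 : (j + k3) ≤ (i + k + l + m + d1 + 1) := by clear * - b10 b11 b2 b4 b6 b8 b9 z119; omega
      have kk1400 : (j + k3 + 1) ≤ (k + d1) := by clear * - b1 b10 b11 b2 b6 b8 b9; omega
      have kk1401 : (i + j + 1) ≤ (k) := by clear * - b1 b10 b11 b9; omega
      have kk1402 : (n + k3) ≤ (i + k + l + m + d1 + 2) := by clear * - z119; omega
      have kk1403 : (n + k3) ≤ (i + k + 2 * l + m + 3) := by clear * - b2 b6 y16; omega
      clear * - al a1 D2 x1 kk1398 kk1399 kk1400 kk1401 kk1402 kk1403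
      exact al.ubP (n + j + k3 - i - k - l - m - d1 - 2) (by omega) (by omega) fun t h1 h2 => (cE (sh al 2 t (t + (2 * n)) (by omega)) (cE (cE (qf D2 al 1 (t + (2 * n)) (t + (n + k3 - i - l - m - 2)) (by omega)) (pb x1 al (-1) (t + (n + k3 - i - l - m - 2)) (t + (2 * n + k3 - i - l - m - d1 - 2)) (by omega))) (pb a1 al 1 (t + (2 * n + k3 - i - l - m - d1 - 2)) (t + (n + j + k3 - i - k - l - m - d1 - 2)) (by omega))))
    · by_cases z120 : (k + l + 2 * i2 + 2) ≤ (m + k3 + d1)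
      · have kk1404 : (k3 + d1) ≤ (k + l + m + 1) := by clear * - b6 z119; omega
        have kk1405 : (k + l + 2 * i2 + 2) ≤ (m + k3 + d1) := by clear * - z120; omega
        have kk1406 : (k3 + d1) ≤ (k + l + m) := by clear * - b6 z119; omega
        have kk1407 : (2 * n + 2 * i2 + 3 * k3 + d1) ≤ (2 * i + 3 * k + 5 * l + 5 * m + 8) := by clear * - b1 b11 b2 b5 b6 z119 z120; omega
        have kk1408 : (i + l + 2 * m + 3) ≤ (n + i2) := by clear * - b10 b11 b2 b6 z118 z119 z120; omega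
        have kk1409 : (0) ≤ (i2) := by clear * - b4 b5 b6 b9 y16; omega
        have kk1410 : (k) ≤ (k3) := by clear * - b5 b6 b7 b9 z119 z120; omega
        have kk1411 : (k) ≤ (i + d1) := by clear * - b10 b11 b2 z118 z120; omega
        have kk1412 : (2 * k + 2 * l + m + 3) ≤ (n + k3 + d1) := by clear * - b10 b11 b2 b5 b6 b9 z118 z119 z120; omega
        have kk1413 : (2 * i + l + 2 * m + d1 + 3) ≤ (n + k + i2) := by clear * - b4 b5 b6 b7 b9 z119 z120; omega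
        have kk1414 : (i + k3 + d1) ≤ (2 * k + l + 1) := by clear * - b11 b2 b6 b7 b9 z119 z120; omega
        have r1415 : (n + i2 + k3 - m - 1) % 2 = 0 := by clear * - ev n1p n2p n3p q1; omega
        have r1416 : (k + l + m - k3 - d1 + 2) % 2 = 0 := by clear * - ev n1p n2p n3p q1; omega
        clear * - al b tt D2 x1 kk1404 kk1405 kk1406 kk1407 kk1408 kk1409 kk1410 kk1411 kk1412 kk1413 kk1414 r1415 r1416
        exact midP al (k + l + m - k3 - d1 + 2) (n + i2 + k3 - m - 1) (n + i2 + k3 - i - l - 2 * m - 2) (i + k3 + d1 - k + 1) (2 * k + 2 * l + m - k3 - d1 + 3) (by omega) (fun t h1 h2 => (cI (pb D2 al 0 t (t + (i + l + m - k3 + 2)) (by omega)) (qa tt al 1 (t + (i + l + m - k3 + 2)) ((n + i2 + k3 - m - 1) - t) (by omega)))) (fun t h1 h2 => (cE (cE (pb x1 al (-1) t (t + (n - d1)) (by omega)) (qf b al 1 (t + (n - d1)) (t + (k - i - d1)) (by omega))) (pb D2 al 0 (t + (k - i - d1)) (t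 + (k + l + m - k3 - d1 + 2)) (by omega))))
      · by_cases z121 : (n + i2) ≤ (i + l + 2 * m + d1 + 2)
        · have kk1417 : (n + i2) ≤ (i + l + 2 * m + d1 + 2) := by clear * - z121; omega
          have kk1418 : (i + l + 2 * m + d1 + 4) ≤ (2 * n + i2) := by clear * - b10 b2 b5 b6 b9 z118 z119 z120 z121; omega
          have kk1419 : (Q + i + l + 2 * m + d1 + 3) ≤ (n + i2 + k3) := by clear * - b1 b10 b11 b3 b9 z119 z120; omega
          have kk1420 : (k3) ≤ (i + d1) := by clear * - b10 b2 b6 z118 z119 z120 z121; omega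
          have kk1421 : (2 * i + l + 2 * m + d1 + 4) ≤ (n + Q + i2) := by clear * - b6 b7 y2 z119; omega
          have kk1422 : (n + k3) ≤ (i + k + 2 * l + m + 3) := by clear * - b2 b6 y16; omega
          have kk1423 : (i2) ≤ (m + 1) := by clear * - b0 b1 b2 b5 b6 z120 z121; omega
          clear * - al D1 D2 x1 kk1417 kk1418 kk1419 kk1420 kk1421 kk1422 kk1423
          exact al.ubQ (i + l + 2 * m + d1 - n - i2 + 3) (by omega) (by omega) fun t h1 h2 => (cE (sh al 2 t (t + (2 * n)) (by omega)) (cE (cE (qf x1 al 1 (t + (2 * n)) (t + (n + d1)) (by omega)) (pb D2 al 1 (t + (n + d1)) (t + (i + l + m + d1 - k3 + 2)) (by omega))) (pb D1 al 0 (t + (i + l + m + d1 - k3 + 2)) (t + (i + l + 2 * m + d1 - n - i2 + 3)) (by omega))))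
        · have kk1424 : (l + i2 + 2) ≤ (j + d1) := by clear * - b0 b1 b10 b2 b5 b6; omega
          have kk1425 : (j + d1) ≤ (n + l + i2) := by clear * - b10 b11 b2 b5 b6 b8 b9 z121; omega
          have kk1426 : (j + d1) ≤ (i + l + i2 + 1) := by clear * - b5 b6 b9 z121; omega
          have kk1427 : (j + d1) ≤ (l + m + 1) := by clear * - b0 b1 b2 b5 b6 b9 z121; omega
          have kk1428 : (i + j + d1) ≤ (k + l) := by clear * - b1 b10 b11 b2 b6 b9 z120 z121; omega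
          have kk1429 : (i + l + 1) ≤ (j + d1) := by clear * - b0 b1 b10 b5 b6 b9 z119; omega
          have kk1430 : (i) ≤ (j) := by clear * - b1 b10 b11 b5 b6 z119; omega
          clear * - al s1 tt x1 kk1424 kk1425 kk1426 kk1427 kk1428 kk1429 kk1430
          exact al.ubP (j + d1 - l - i2 - 1) (by omega) (by omega) fun t h1 h2 => (cE (sh al (-1) t (t + (-n)) (by omega)) (cII (cE (qa tt al (-1) (t + (-n)) ((i + l + i2 + 1) - t) (by omega)) (pb x1 al (-1) ((i + l + i2 + 1) - t) ((n + i + l + i2 - d1 + 1) - t) (by omega))) (ab s1 al 1 ((n + i + l + i2 - d1 + 1) - t) (t + (j + d1 - l - i2 - 1)) (by omega))))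

theorem h8_44p
    (h8_45 : ∀ {W : ℤ → G} {n Q i j k l i2 m k3 : ℤ} (al : AL W n Q) (hy : (0) ≤ (i) ∧ (i) ≤ (j) ∧ (j + 1) ≤ (Q) ∧ (Q) ≤ (k) ∧ (k + 1) ≤ (n) ∧ (Q) ≤ (i + l + 1) ∧ (k + l + 2) ≤ (n) ∧ (0) ≤ (i2) ∧ (i2 + 1) ≤ (Q) ∧ (Q + m + 1) ≤ (n + i2) ∧ (i2) ≤ (m) ∧ (Q) ≤ (i + l + m + 2) ∧ (i + l + m + 3) ≤ (n) ∧ (Q) ≤ (k3) ∧ (k3 + 1) ≤ (n) ∧ (i + m + 2) ≤ (k) ∧ (i) ≤ (i2) ∧ (i2) ≤ (i) ∧ (i + m + 2) ≤ (k3) ∧ (k3) ≤ (i + l + m + 1) ∧ (m + k3 + 2) ≤ (n + i2)) (a1 : Par W (0) (j) (k - j)) (a2 : Par W (Q + j - k) (j) (k - j)) (s1 : Ant W (0) (i) (i + j)) (s2 : Ant W (j + 1) (Q) (i + j)) (b : Par W (i + 1) (i + l + 1) (k - i)) (c1 : Par W (i2 + 1) (Q) (k + l - i2 + 1)) (c2 : Par W (k + l + 2) (n) (i2 - k - l - 1)) (tt : Ant W (i2 - m) (i2) (i + l + i2 + 1)) (D1 : Par W (Q) (k3) (n + i2 - m - k3 - 1)) (D2 : Par W (i + l + m + 3) (n) (k3 - i - l - m - 2)) {L : ℤ} (mx : ∀ a b g, 0 < g → g <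 n → Par W a b g → b - a ≤ L) (hL : L ≤ (n - j - 3) ∧ L ≤ (n + Q - k - 3) ∧ L ≤ (n - l - 3) ∧ L ≤ (n + i - k - 2)) (bd0 : Bd W n L (j) (i) (k)) (n1 : Nd W (j) (i) (k)) (n2 : Nd W (i + l + 1) (i2) (k + l + 1)) (n3 : Nd W (n + i2 - m - 1) (i + l + m + 2) (k3)) (b0 : (2 * l + 3) ≤ (n)) (b1 : (2 * i + j + 1) ≤ (k)) (b2 : (n + k3) ≤ (i + k + 2 * l + m + 3)) (b3 : (k + i2 + m + 1) ≤ (i + k3)) (b4 : (i + k) ≤ (2 * j + 1)) (b5 : (i + m + k3 + 3) ≤ (Q + k + i2)) (b6 : (i2 + 1) ≤ (m)) (b7 : (2 * k + l + m + k3 + 2) ≤ (n + i + 2 * i2)) (b8 : (2 * Q + k + 2 * l + 2 * m + 4) ≤ (n + j + 2 * k3)), False)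
    {W : ℤ → G} {n Q i j k l i2 m k3 : ℤ} (al : AL W n Q)
    (hy : (0) ≤ (i) ∧ (i) ≤ (j) ∧ (j + 1) ≤ (Q) ∧ (Q) ≤ (k) ∧ (k + 1) ≤ (n) ∧ (Q) ≤ (i + l + 1) ∧ (k + l + 2) ≤ (n) ∧ (0) ≤ (i2) ∧ (i2 + 1) ≤ (Q) ∧ (Q + m + 1) ≤ (n + i2) ∧ (i2) ≤ (m) ∧ (Q) ≤ (i + l + m + 2) ∧ (i + l + m + 3) ≤ (n) ∧ (Q) ≤ (k3) ∧ (k3 + 1) ≤ (n) ∧ (i + m + 2) ≤ (k) ∧ (i) ≤ (i2) ∧ (i2) ≤ (i) ∧ (i + m + 2) ≤ (k3) ∧ (k3) ≤ (i + l + m + 1) ∧ (m + k3 + 2) ≤ (n + i2))
    (a1 : Par W (0) (j) (k - j))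
    (a2 : Par W (Q + j - k) (j) (k - j))
    (s1 : Ant W (0) (i) (i + j))
    (s2 : Ant W (j + 1) (Q) (i + j))
    (b : Par W (i + 1) (i + l + 1) (k - i))
    (c1 : Par W (i2 + 1) (Q) (k + l - i2 + 1))
    (c2 : Par W (k + l + 2) (n) (i2 - k - l - 1))
    (tt : Ant W (i2 - m) (i2) (i + l + i2 + 1))
    (D1 : Par W (Q) (k3) (n + i2 - m - k3 - 1))
    (D2 : Par W (i + l + m + 3) (n) (k3 - i - l - m - 2))
    {L : ℤ} (mx : ∀ a b g, 0 < g → g < n → Par W a b g → b - a ≤ L)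
    (hL : L ≤ (n - j - 3) ∧ L ≤ (n + Q - k - 3) ∧ L ≤ (n - l - 3) ∧ L ≤ (n + i - k - 2))
    (bd0 : Bd W n L (j) (i) (k))
    (n1 : Nd W (j) (i) (k))
    (n2 : Nd W (i + l + 1) (i2) (k + l + 1))
    (n3 : Nd W (n + i2 - m - 1) (i + l + m + 2) (k3))
    (b0 : (2 * l + 3) ≤ (n))
    (b1 : (2 * i + j + 1) ≤ (k))
    (b2 : (n + k3) ≤ (i + k + 2 * l + m + 3))
    (b3 : (k + i2 + m + 1) ≤ (i + k3))
    (b4 : (2 * i + 2 * l + 3 * m + 6) ≤ (n + i2 + k3))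
    (b5 : (i + k) ≤ (2 * j + 1))
    (b6 : (2 * Q + 2 * k + l) ≤ (n + 2 * i + j + i2))
    (b7 : (i + m + k3 + 3) ≤ (Q + k + i2))
    (b8 : (i2 + 1) ≤ (m))
    (b9 : (2 * k + l + m + k3 + 2) ≤ (n + i + 2 * i2)) : False := by
  have ev := al.ev
  obtain ⟨y0, y1, y2, y3, y4, y5, y6, y7, y8, y9, y10, y11, y12, y13, y14, y15, y16, y17, y18, y19, y20⟩ := id hy
  have n1p := And.intro n1.p1 n1.p2
  have n2p := And.intro n2.p1 n2.p2
  have n3p := And.intro n3.p1 n3.p2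
  by_cases z80 : (n + j + 2 * k3) ≤ (2 * Q + k + 2 * l + 2 * m + 3)
  · have kk957 : (2 * i + j + k + 2 * l + 2 * m + 6) ≤ (n + 2 * k3) := by clear * - b0 b1 b3 y16; omega
    have kk958 : (n + j + 2 * k3) ≤ (2 * Q + k + 2 * l + 2 * m + 3) := by clear * - z80; omega
    have kk959 : (0) ≤ (i) := by clear * - b0 b2 b3 y16; omega
    have kk960 : (k3) ≤ (i + l + m + 2) := by clear * - y19; omega
    have kk961 : (n + 2 * k3) ≤ (2 * i + k + 3 * l + 2 * m + 5) := by clear * - b2 y19; omega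
    have kk962 : (Q + l + m + 2) ≤ (n + j) := by clear * - b0 b2 b3 b4 b6 b7 b8 y18; omega
    have kk963 : (Q + i + 2 * l + 2 * m + 4) ≤ (n + j + k3) := by clear * - b0 b3 b4 b5 y3; omega
    have kk964 : (Q + i + k + 2 * l + 2 * m + 4) ≤ (n + j + 2 * k3) := by clear * - b0 b3 b4 b5 y13; omega
    have r965 : (3 * n + j + 2 * k3 - k - 2 * l - 2 * m - 4) % 2 = 0 := by clear * - ev n1p n2p n3p; omega
    clear * - al s2 b D2 kk957 kk958 kk959 kk960 kk961 kk962 kk963 kk964 r965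
    obtain ⟨t, ht⟩ : ∃ t, 2 * t = (3 * n + j + 2 * k3 - k - 2 * l - 2 * m - 4) := ⟨(3 * n + j + 2 * k3 - k - 2 * l - 2 * m - 4) / 2, by omega⟩
    exact al.ninv t (cE (cE (cE (cE (qa s2 al 1 t ((n + i + j) - t) (by omega)) (qf D2 al (-1) ((n + i + j) - t) ((2 * n + j + k3 - l - m - 2) - t) (by omega))) (qf D2 al 0 ((2 * n + j + k3 - l - m - 2) - t) ((2 * n + j + 2 * k3 - i - 2 * l - 2 * m - 4) - t) (by omega))) (pb b al 0 ((2 * n + j + 2 * k3 - i - 2 * l - 2 * m - 4) - t) ((2 * n + j + 2 * k3 - k - 2 * l - 2 * m - 4) - t) (by omega))) (sh al 1 ((2 * n + j + 2 * k3 - k - 2 * l - 2 * m - 4) - t) t (by omega)))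
  · exact h8_45 al hy a1 a2 s1 s2 b c1 c2 tt D1 D2 mx hL bd0 n1 n2 n3 (by clear * - b0; omega) (by clear * - b1; omega) (by clear * - b2; omega) (by clear * - b3; omega) (by clear * - b5; omega) (by clear * - b7; omega) (by clear * - b8; omega) (by clear * - b9; omega) (by clear * - z80; omega)

theorem h8_33p
    (h8_34 : ∀ {W : ℤ → G} {n Q i j k l i2 m k3 : ℤ} (al : AL W n Q) (hy : (0) ≤ (i) ∧ (i) ≤ (j) ∧ (j + 1) ≤ (Q) ∧ (Q) ≤ (k) ∧ (k + 1) ≤ (n) ∧ (Q) ≤ (i + l + 1) ∧ (k + l + 2) ≤ (n) ∧ (0) ≤ (i2) ∧ (i2 + 1) ≤ (Q) ∧ (Q + m + 1) ≤ (n + i2) ∧ (i2) ≤ (m) ∧ (Q) ≤ (i + l + m + 2) ∧ (i + l + m + 3) ≤ (n) ∧ (Q) ≤ (k3) ∧ (k3 + 1) ≤ (n) ∧ (i + m + 2) ≤ (k) ∧ (i) ≤ (i2) ∧ (i2) ≤ (i) ∧ (i + m + 2) ≤ (k3) ∧ (k3) ≤ (i + l + m + 1) ∧ (m + k3 + 2) ≤ (n + i2)) (a1 : Par W (0) (j) (k - j)) (a2 : Par W (Q + j - k) (j) (k - j)) (s1 : Ant W (0) (i) (i + j)) (s2 : Ant W (j + 1) (Q) (i + j)) (b : Par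 W (i + 1) (i + l + 1) (k - i)) (c1 : Par W (i2 + 1) (Q) (k + l - i2 + 1)) (c2 : Par W (k + l + 2) (n) (i2 - k - l - 1)) (tt : Ant W (i2 - m) (i2) (i + l + i2 + 1)) (D1 : Par W (Q) (k3) (n + i2 - m - k3 - 1)) (D2 : Par W (i + l + m + 3) (n) (k3 - i - l - m - 2)) {L : ℤ} (mx : ∀ a b g, 0 < g → g < n → Par W a b g → b - a ≤ L) (hL : L ≤ (n - j - 3) ∧ L ≤ (n + Q - k - 3) ∧ L ≤ (n - l - 3) ∧ L ≤ (n + i - k - 2)) (bd0 : Bd W n L (j) (i) (k)) (n1 : Nd W (j) (i) (k)) (n2 : Nd W (i + l + 1) (i2) (k + l + 1)) (n3 : Nd W (n + i2 - m - 1) (i + l + m + 2) (k3)) (b0 : (2 * l + 3) ≤ (n)) (b1 : (k + i2 + 1) ≤ (Q + j + m)) (b2 : (2 * i + j + 1) ≤ (k)) (b3 : (2 * Q + k + l) ≤ (n + 2 * j + i2)) (b4 : (n + k3) ≤ (i + k + 2 * l + m + 3)) (b5 : (k + i2 + m + 1) ≤ (i + k3)) (b6 : (2 * i + 2 * l + 3 * m + 6) ≤ (n + i2 + k3)) (b7 : (k + l + m + k3 + 2) ≤ (n + 2 * i2)) (b8 : (k + i2 + m + 2) ≤ (j + k3)), False)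
    {W : ℤ → G} {n Q i j k l i2 m k3 : ℤ} (al : AL W n Q)
    (hy : (0) ≤ (i) ∧ (i) ≤ (j) ∧ (j + 1) ≤ (Q) ∧ (Q) ≤ (k) ∧ (k + 1) ≤ (n) ∧ (Q) ≤ (i + l + 1) ∧ (k + l + 2) ≤ (n) ∧ (0) ≤ (i2) ∧ (i2 + 1) ≤ (Q) ∧ (Q + m + 1) ≤ (n + i2) ∧ (i2) ≤ (m) ∧ (Q) ≤ (i + l + m + 2) ∧ (i + l + m + 3) ≤ (n) ∧ (Q) ≤ (k3) ∧ (k3 + 1) ≤ (n) ∧ (i + m + 2) ≤ (k) ∧ (i) ≤ (i2) ∧ (i2) ≤ (i) ∧ (i + m + 2) ≤ (k3) ∧ (k3) ≤ (i + l + m + 1) ∧ (m + k3 + 2) ≤ (n + i2))
    (a1 : Par W (0) (j) (k - j))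
    (a2 : Par W (Q + j - k) (j) (k - j))
    (s1 : Ant W (0) (i) (i + j))
    (s2 : Ant W (j + 1) (Q) (i + j))
    (b : Par W (i + 1) (i + l + 1) (k - i))
    (c1 : Par W (i2 + 1) (Q) (k + l - i2 + 1))
    (c2 : Par W (k + l + 2) (n) (i2 - k - l - 1))
    (tt : Ant W (i2 - m) (i2) (i + l + i2 + 1))
    (D1 : Par W (Q) (k3) (n + i2 - m - k3 - 1))
    (D2 : Par W (i + l + m + 3) (n) (k3 - i - l - m - 2))
    {L : ℤ} (mx : ∀ a b g, 0 < g → g < n → Par W a b g → b - a ≤ L)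
    (hL : L ≤ (n - j - 3) ∧ L ≤ (n + Q - k - 3) ∧ L ≤ (n - l - 3) ∧ L ≤ (n + i - k - 2))
    (bd0 : Bd W n L (j) (i) (k))
    (n1 : Nd W (j) (i) (k))
    (n2 : Nd W (i + l + 1) (i2) (k + l + 1))
    (n3 : Nd W (n + i2 - m - 1) (i + l + m + 2) (k3))
    (b0 : (2 * l + 3) ≤ (n))
    (b1 : (k + i2 + 1) ≤ (Q + j + m))
    (b2 : (2 * i + j + 1) ≤ (k))
    (b3 : (2 * Q + k + l) ≤ (n + 2 * j + i2))
    (b4 : (n + k3) ≤ (i + k + 2 * l + m + 3))
    (b5 : (k + i2 + m + 1) ≤ (i + k3))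
    (b6 : (2 * i + 2 * l + 3 * m + 6) ≤ (n + i2 + k3))
    (b7 : (k + l + m + k3 + 2) ≤ (n + 2 * i2)) : False := by
  have ev := al.ev
  obtain ⟨y0, y1, y2, y3, y4, y5, y6, y7, y8, y9, y10, y11, y12, y13, y14, y15, y16, y17, y18, y19, y20⟩ := id hy
  have n1p := And.intro n1.p1 n1.p2
  have n2p := And.intro n2.p1 n2.p2
  have n3p := And.intro n3.p1 n3.p2
  by_cases z66 : (j + k3) ≤ (k + i2 + m + 1)
  · by_cases z67 : (n + 2 * j + 2 * k3) ≤ (2 * Q + i + k + 2 * l + 2 * m + 2)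
    · have kk840 : (i + k + 2 * l + 2 * m + 5) ≤ (n + 2 * k3) := by clear * - b0 b5 y16 y18; omega
      have kk841 : (n + 2 * j + 2 * k3) ≤ (2 * Q + i + k + 2 * l + 2 * m + 2) := by clear * - z67; omega
      have kk842 : (i + 2 * l + 2 * m + 6) ≤ (n + k) := by clear * - b6 y1 y17 z66 ev n1p n2p n3p; omega
      have kk843 : (i + 2 * j + k + 2 * l + 2 * m + 6) ≤ (n + 2 * k3) := by clear * - b0 b2 b5 y16 z66; omega
      have kk844 : (k3) ≤ (i + l + m + 2) := by clear * - b1 b2 b3 b4 b5 b6 z66; omega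
      have kk845 : (k) ≤ (k3) := by clear * - b1 b5 y13 y16 z66; omega
      have kk846 : (n + 2 * k3) ≤ (2 * i + k + 3 * l + 2 * m + 5) := by clear * - b1 b2 b3 b4 b5 b6 z66; omega
      have kk847 : (2 * i + 2 * l + 2 * m + 4) ≤ (n + j + k3) := by clear * - b1 b6 y3; omega
      have kk848 : (2 * i + k + 2 * l + 2 * m + 4) ≤ (n + 2 * k3) := by clear * - b0 b1 b2 b5 b6 y13 y16; omega
      have r849 : (i + j) % 2 = 0 := by clear * - ev n1p n2p n3p; omega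
      have r850 : (n + 2 * k3 - i - k - 2 * l - 2 * m - 4) % 2 = 0 := by clear * - ev n1p n2p n3p; omega
      clear * - al s2 b D2 kk840 kk841 kk842 kk843 kk844 kk845 kk846 kk847 kk848 r849 r850
      exact midP al (n + 2 * k3 - i - k - 2 * l - 2 * m - 4) (i + j) (j + 1) (2 * i + 2 * l + 2 * m - n - k3 + 5) (n + 2 * k3 - i - k - 2 * l - 2 * m - 4) (by omega) (fun t h1 h2 => (qa s2 al 0 t ((i + j) - t) (by omega))) (fun t h1 h2 => (cE (cE (qf D2 al (-1) t (t + (n + k3 - i - l - m - 2)) (by omega)) (qf D2 al 0 (t + (n + k3 - i - l - m - 2)) (t + (n + 2 * k3 - 2 * i - 2 * l - 2 * m - 4)) (by omega))) (pb b al 0 (t + (n + 2 * k3 - 2 * i - 2 * l - 2 * m - 4)) (t + (n + 2 * k3 - i - k - 2 * l - 2 * m - 4)) (by omega))))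
    · have kk851 : (n + 2 * Q + j) ≤ (2 * i + k + 2 * l + 2 * m + 4) := by clear * - b4 b5 y10 y16 z66 z67; omega
      have kk852 : (2 * i + j + 2 * l + 2 * m + 5) ≤ (n + k + 2 * i2) := by clear * - b6 z66; omega
      have kk853 : (k + i2) ≤ (Q + j + m) := by clear * - b1; omega
      have kk854 : (i + l + 2 * m + k3 + 4) ≤ (n + Q + i2) := by clear * - b0 b1 b2 b4 b5 b6 b7; omega
      have kk855 : (i2) ≤ (m + 1) := by clear * - y10; omega
      have kk856 : (k) ≤ (k3) := by clear * - b1 b2 b4 b5 b6 y16 z66 z67; omega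
      have kk857 : (i2) ≤ (j) := by clear * - y1 y17; omega
      have r858 : (k + 2 * i2 - n - j - 2 * m - 2) % 2 = 0 := by clear * - ev n1p n2p n3p; omega
      clear * - al a2 tt D1 D2 kk851 kk852 kk853 kk854 kk855 kk856 kk857 r858
      obtain ⟨t, ht⟩ : ∃ t, 2 * t = (k + 2 * i2 - n - j - 2 * m - 2) := ⟨(k + 2 * i2 - n - j - 2 * m - 2) / 2, by omega⟩
      exact al.ninv t (cE (cI (cE (cE (pb D2 al (-1) t (t + (n + i + l + m - k3 + 2)) (by omega)) (pb D1 al 0 (t + (n + i + l + m - k3 + 2)) (t + (i + l + 2 * m - i2 + 3)) (by omega))) (pb a2 al 0 (t + (i + l + 2 * m - i2 + 3)) (t + (i + j + l + 2 * m - k - i2 + 3)) (by omega))) (qa tt al 0 (t + (i + j + l + 2 * m - k - i2 + 3)) ((k + 2 * i2 - j - 2 * m - 2) - t) (by omega))) (sh al (-1) ((k + 2 * i2 - j - 2 * m - 2) - t) t (by omega)))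
  · exact h8_34 al hy a1 a2 s1 s2 b c1 c2 tt D1 D2 mx hL bd0 n1 n2 n3 (by clear * - b0; omega) (by clear * - b1; omega) (by clear * - b2; omega) (by clear * - b3; omega) (by clear * - b4; omega) (by clear * - b5; omega) (by clear * - b6; omega) (by clear * - b7; omega) (by clear * - z66; omega)

theorem h8_73p
    {W : ℤ → G} {n Q i j k l i2 m k3 : ℤ} (al : AL W n Q)
    (hy : (0) ≤ (i) ∧ (i) ≤ (j) ∧ (j + 1) ≤ (Q) ∧ (Q) ≤ (k) ∧ (k + 1) ≤ (n) ∧ (Q) ≤ (i + l + 1) ∧ (k + l + 2) ≤ (n) ∧ (0) ≤ (i2) ∧ (i2 + 1) ≤ (Q) ∧ (Q + m + 1) ≤ (n + i2) ∧ (i2) ≤ (m) ∧ (Q) ≤ (i + l + m + 2) ∧ (i + l + m + 3) ≤ (n) ∧ (Q) ≤ (k3) ∧ (k3 + 1) ≤ (n) ∧ (i + m + 2) ≤ (k) ∧ (i) ≤ (i2) ∧ (i2) ≤ (i) ∧ (i + m + 2) ≤ (k3) ∧ (k3) ≤ (i + l + m + 1) ∧ (m + k3 + 2) ≤ (n + i2))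
    (a1 : Par W (0) (j) (k - j))
    (a2 : Par W (Q + j - k) (j) (k - j))
    (s1 : Ant W (0) (i) (i + j))
    (s2 : Ant W (j + 1) (Q) (i + j))
    (b : Par W (i + 1) (i + l + 1) (k - i))
    (c1 : Par W (i2 + 1) (Q) (k + l - i2 + 1))
    (c2 : Par W (k + l + 2) (n) (i2 - k - l - 1))
    (tt : Ant W (i2 - m) (i2) (i + l + i2 + 1))
    (D1 : Par W (Q) (k3) (n + i2 - m - k3 - 1))
    (D2 : Par W (i + l + m + 3) (n) (k3 - i - l - m - 2))
    {L : ℤ} (mx : ∀ a b g, 0 < g → g < n → Par W a b g → b - a ≤ L)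
    (hL : L ≤ (n - j - 3) ∧ L ≤ (n + Q - k - 3) ∧ L ≤ (n - l - 3) ∧ L ≤ (n + i - k - 2))
    (bd0 : Bd W n L (j) (i) (k))
    (n1 : Nd W (j) (i) (k))
    (n2 : Nd W (i + l + 1) (i2) (k + l + 1))
    (n3 : Nd W (n + i2 - m - 1) (i + l + m + 2) (k3))
    (b0 : (k + i2 + 1) ≤ (Q + j + m))
    (b1 : (2 * Q + k + l) ≤ (n + 2 * j + i2))
    (b2 : (m + k3) ≤ (i + l + 2 * i2 + 1))
    (b3 : (1) ≤ (m))
    (b4 : (Q + k3) ≤ (i + l + i2 + m + 2))
    (b5 : (Q + k + l + 1) ≤ (n + i2))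
    (b6 : (Q + m + 1) ≤ (k3))
    (b7 : (i + l + i2 + m + 3) ≤ (k + k3))
    (b8 : (2 * i + 2 * l + 2 * m + 3) ≤ (n + 2 * i2))
    (b9 : (i + 2 * j + 1) ≤ (k)) : False := by
  have ev := al.ev
  obtain ⟨y0, y1, y2, y3, y4, y5, y6, y7, y8, y9, y10, y11, y12, y13, y14, y15, y16, y17, y18, y19, y20⟩ := id hy
  have n1p := And.intro n1.p1 n1.p2
  have n2p := And.intro n2.p1 n2.p2
  have n3p := And.intro n3.p1 n3.p2
  by_cases z166 : (k + 1) ≤ (k3)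
  · by_cases v49 : (i + k + 2 * l + 2) ≤ (n + i2)
    · have kk2028 : (k3) ≤ (i + l + m + 1) := by clear * - y19; omega
      have kk2029 : (i2) ≤ (i + l) := by clear * - b0 b2 b4 b6 b7 b9 y17; omega
      have kk2030 : (2 * i + 2 * l + m + 3) ≤ (n + i2) := by clear * - v49 y15; omega
      have kk2031 : (k + i2 + 1) ≤ (i + k3) := by clear * - y17 z166; omega
      have kk2032 : (i + m + 1) ≤ (k) := by clear * - y15; omega
      have kk2033 : (i) ≤ (i2) := by clear * - y16; omega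
      have kk2034 : (i + k + 2 * l + 2) ≤ (n + i2) := by clear * - v49; omega
      have r2035 : (i + l + m - k3 + 2) % 2 = 0 := by clear * - ev n1p n2p n3p; omega
      have r2036 : (i + l - i2 + 1) % 2 = 0 := by clear * - ev n1p n2p n3p; omega
      clear * - al b c2 D2 n3 kk2028 kk2029 kk2030 kk2031 kk2032 kk2033 kk2034 r2035 r2036
      exact n3.f1 (rEE (sh al (-1) (i + l + m + 2) (i + l + m - n + 2) (by omega)) (sh al (-1) (k3) (k3 - n) (by omega)) (Eq.symm (rotL (i + l + m - k3 + 2) (i + l - i2 + 1) (k3 - n) (i + l + m - n + 2) (by omega) (fun t h1 h2 => (cE (pb D2 al (-1) t (t + (n + i + l + m - k3 + 2)) (by omega)) (sh al (-1) (t + (n + i + l + m - k3 + 2)) (t + (i + l + m - k3 + 2)) (by omega)))) (fun t h1 h2 => (cE (cE (pb b al (-1) t (t + (n + i - k)) (by omega)) (pb c2 al 0 (t + (n + i - k)) (t + (n + i + l - i2 + 1)) (by omega))) (sh al (-1) (t + (n + i + l - i2 + 1)) (t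 + (i + l - i2 + 1)) (by omega)))))))
    · have kk2037 : (k3) ≤ (i + l + m + 1) := by clear * - y19; omega
      have kk2038 : (i2) ≤ (i + l) := by clear * - b0 b3 b4 b7 b8 b9 v49 y17 z166; omega
      have kk2039 : (2 * i + 2 * l + m + 3) ≤ (n + i2) := by clear * - b8 y10; omega
      have kk2040 : (k + i2 + 1) ≤ (i + k3) := by clear * - y17 z166; omega
      have kk2041 : (i) ≤ (i2) := by clear * - y16; omega
      have kk2042 : (n + i2) ≤ (i + k + 2 * l + 2) := by clear * - v49; omega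
      have r2043 : (i + l + m - k3 + 2) % 2 = 0 := by clear * - ev n1p n2p n3p; omega
      have r2044 : (i + l - i2 + 1) % 2 = 0 := by clear * - ev n1p n2p n3p; omega
      clear * - al b c2 D2 n3 kk2037 kk2038 kk2039 kk2040 kk2041 kk2042 r2043 r2044
      exact n3.f1 (rEE (sh al (-1) (i + l + m + 2) (i + l + m - n + 2) (by omega)) (sh al (-1) (k3) (k3 - n) (by omega)) (Eq.symm (rotL (i + l + m - k3 + 2) (i + l - i2 + 1) (k3 - n) (i + l + m - n + 2) (by omega) (fun t h1 h2 => (cE (pb D2 al (-1) t (t + (n + i + l + m - k3 + 2)) (by omega)) (sh al (-1) (t + (n + i + l + m - k3 + 2)) (t + (i + l + m - k3 + 2)) (by omega)))) (fun t h1 h2 => (cE (cE (pb b al (-1) t (t + (n + i - k)) (by omega)) (pb c2 al 0 (t + (n + i - k)) (t + (n + i + l - i2 + 1)) (by omega))) (sh al (-1) (t + (n + i + l - i2 + 1)) (t + (i + l - i2 + 1)) (by omega)))))))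
  · by_cases z167 : (k + k3) ≤ (i + j + l + m + 2)
    · have kk2045 : (i + 1) ≤ (j) := by clear * - b7 y16 z167; omega
      have kk2046 : (j) ≤ (i + l) := by clear * - b0 b2 b3 b6 b9 y17; omega
      have kk2047 : (2 * i + l + m + 3) ≤ (k + k3) := by clear * - b7 y16; omega
      have kk2048 : (k + k3) ≤ (i + j + l + m + 2) := by clear * - z167; omega
      have kk2049 : (k3) ≤ (k) := by clear * - z166; omega
      have kk2050 : (j + m + 2) ≤ (k3) := by clear * - b6 y2; omega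
      have kk2051 : (0) ≤ (i + 1) := by clear * - y17 y7; omega
      have kk2052 : (j) ≤ (i + l + 1) := by clear * - b0 b2 b3 b6 b9 y17; omega
      have kk2053 : (k) ≤ (i + l + m + 2) := by clear * - b0 b6 b9 y17 y7 z167; omega
      have kk2054 : (k + l + 1) ≤ (n) := by clear * - b0 b2 b5 b7 b9 y17; omega
      have r2055 : (j - i) % 2 = 0 := by clear * - ev n1p n2p n3p; omega
      have r2056 : (k + k3 - 2 * i - l - m - 2) % 2 = 0 := by clear * - ev n1p n2p n3p; omega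
      clear * - al a1 b D2 n1 kk2045 kk2046 kk2047 kk2048 kk2049 kk2050 kk2051 kk2052 kk2053 kk2054 r2055 r2056
      exact n1.f0 (rEE (qf b al 0 (j) (j + k - i) (by omega)) (sh al 0 (k) (k) (by omega)) (Eq.symm (rotR (j - i) (k + k3 - 2 * i - l - m - 2) (k) (j + k - i) (by omega) (fun t h1 h2 => (cE (pb a1 al 0 t (t + (j - k)) (by omega)) (qf b al 0 (t + (j - k)) (t + (j - i)) (by omega)))) (fun t h1 h2 => (cE (qf b al 0 t (t + (k - i)) (by omega)) (qf D2 al 0 (t + (k - i)) (t + (k + k3 - 2 * i - l - m - 2)) (by omega)))))))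
    · by_cases z168 : (j + k + k3) ≤ (2 * Q + i + l + m)
      · by_cases v50 : (i + l + 1) ≤ (k)
        · have kk2057 : (i + j + l + m + 3) ≤ (k + k3) := by clear * - z167; omega
          have kk2058 : (j + k + k3) ≤ (2 * Q + i + l + m) := by clear * - z168; omega
          have kk2059 : (3 * i + j + l + m + 4) ≤ (2 * Q + k + k3) := by clear * - b0 b2 b6 b9 v50 z168; omega
          have kk2060 : (i + j + k + m + 2) ≤ (2 * Q + l + k3) := by clear * - b0 b2 b6 b9 v50 z168; omega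
          have kk2061 : (k) ≤ (i + l + m + 2) := by clear * - b0 b4 b6 v50 z168; omega
          have kk2062 : (k + l + 1) ≤ (n) := by clear * - b0 b5 b6 v50 z166 z168; omega
          have kk2063 : (k3) ≤ (k) := by clear * - z166; omega
          have kk2064 : (Q + k3) ≤ (2 * i + l + m + 3) := by clear * - b4 y17; omega
          have kk2065 : (i + l + 1) ≤ (k) := by clear * - v50; omega
          have kk2066 : (k3) ≤ (i + l + m + 2) := by clear * - b0 b4 b6 v50 z166 z168; omega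
          have kk2067 : (Q + m + 1) ≤ (k3) := by clear * - b6; omega
          have kk2068 : (Q + i + l + m + 2) ≤ (k + k3) := by clear * - b6 v50; omega
          have r2069 : (i + j - 2 * n) % 2 = 0 := by clear * - ev n1p n2p n3p; omega
          have r2070 : (k + k3 - i - j - l - m - 2) % 2 = 0 := by clear * - ev n1p n2p n3p; omega
          clear * - al a2 s2 b D2 kk2057 kk2058 kk2059 kk2060 kk2061 kk2062 kk2063 kk2064 kk2065 kk2066 kk2067 kk2068 r2069 r2070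
          exact midP al (k + k3 - i - j - l - m - 2) (i + j - 2 * n) (i + j - n - Q + 1) (2 * i + j + l + m - n - k - k3 + 3) (k3 - n - m - 1) (by omega) (fun t h1 h2 => (cE (ab s2 al (-1) t ((i + j - n) - t) (by omega)) (sh al (-1) ((i + j - n) - t) ((i + j - 2 * n) - t) (by omega)))) (fun t h1 h2 => (cE (cE (cE (qf a2 al (-1) t (t + (n + k - j)) (by omega)) (qf (show Par W (2 * i + l + m - k + 3) (i + l + 1) (k + k3 - 2 * i - l - m - 2) from fun t h1 h2 => (cE (sh al (-1) t (t + (-n)) (by omega)) (cE (qf b al (-1) (t + (-n)) (t + (k - i)) (by omega)) (qf D2 al 0 (t + (k - i)) (t + (k + k3 - 2 * i - l - m - 2)) (by omega))))) al 0 (t + (n + k - j)) (t + (n + 2 * k + k3 - 2 * i - j - l - m - 2)) (by omega))) (pb b al 0 (t + (n + 2 * k + k3 - 2 * i - j - l - m - 2)) (t + (n + k + k3 - i - j - l - m - 2)) (by omega))) (sh al (-1) (t + (n + k + k3 - i - j - l - m - 2)) (t + (k + k3 - i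 - j - l - m - 2)) (by omega))))
        · by_cases v51 : (k + k3) ≤ (Q + i + l + m + 2)
          · have kk2071 : (i + j + l + m + 3) ≤ (k + k3) := by clear * - z167; omega
            have kk2072 : (i + j + l + m + 4) ≤ (k + k3) := by clear * - z167 ev n1p n2p n3p; omega
            have kk2073 : (5 * i + j + 3 * l + 3 * m + 8) ≤ (3 * k + 3 * k3) := by clear * - b7 y16 z167; omega
            have kk2074 : (k) ≤ (i + l + m + 2) := by clear * - b3 v50; omega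
            have kk2075 : (k + l + 1) ≤ (n) := by clear * - b5 b7 v51; omega
            have kk2076 : (k3) ≤ (k) := by clear * - z166; omega
            have kk2077 : (Q + k3) ≤ (2 * i + l + m + 3) := by clear * - b4 y17; omega
            have kk2078 : (k) ≤ (i + l + 1) := by clear * - v50; omega
            have kk2079 : (k + k3) ≤ (2 * i + 2 * l + m + 3) := by clear * - b4 b7 v50 v51; omega
            have kk2080 : (k + k3) ≤ (Q + i + l + m + 2) := by clear * - v51; omega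
            have r2081 : (i + j - 2 * n) % 2 = 0 := by clear * - ev n1p n2p n3p; omega
            have r2082 : (k + k3 - i - j - l - m - 2) % 2 = 0 := by clear * - ev n1p n2p n3p; omega
            clear * - al a2 s2 b D2 kk2071 kk2072 kk2073 kk2074 kk2075 kk2076 kk2077 kk2078 kk2079 kk2080 r2081 r2082
            exact midP al (k + k3 - i - j - l - m - 2) (i + j - 2 * n) (2 * i + j + l + m - n - k - k3 + 3) (2 * i + j + l + m - n - k - k3 + 3) (k + k3 - n - i - l - m - 2) (by omega) (fun t h1 h2 => (cE (ab s2 al (-1) t ((i + j - n) - t) (by omega)) (sh al (-1) ((i + j - n) - t) ((i + j - 2 * n) - t) (by omega)))) (fun t h1 h2 => (cE (cE (cE (qf a2 al (-1) t (t + (n + k - j)) (by omega)) (qf (show Par W (2 * i + l + m - k + 3) (i + l + 1) (k + k3 - 2 * i - l - m - 2) from fun t h1 h2 => (cE (sh al (-1) t (t + (-n)) (by omega)) (cE (qf b al (-1) (t + (-n)) (t + (k - i)) (by omega))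 (qf D2 al 0 (t + (k - i)) (t + (k + k3 - 2 * i - l - m - 2)) (by omega))))) al 0 (t + (n + k - j)) (t + (n + 2 * k + k3 - 2 * i - j - l - m - 2)) (by omega))) (pb b al 0 (t + (n + 2 * k + k3 - 2 * i - j - l - m - 2)) (t + (n + k + k3 - i - j - l - m - 2)) (by omega))) (sh al (-1) (t + (n + k + k3 - i - j - l - m - 2)) (t + (k + k3 - i - j - l - m - 2)) (by omega))))
          · have kk2083 : (i + j + l + m + 3) ≤ (k + k3) := by clear * - v51 z168; omega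
            have kk2084 : (j + k + k3) ≤ (2 * Q + i + l + m) := by clear * - z168; omega
            have kk2085 : (3 * i + j + l + m + 4) ≤ (2 * Q + k + k3) := by clear * - b0 b2 b9 v51 z168; omega
            have kk2086 : (k) ≤ (i + l + m + 2) := by clear * - b3 v50; omega
            have kk2087 : (k + l + 1) ≤ (n) := by clear * - b0 b5 v50 v51 z166 z168; omega
            have kk2088 : (k3) ≤ (k) := by clear * - z166; omega
            have kk2089 : (Q + k3) ≤ (2 * i + l + m + 3) := by clear * - b4 y17; omega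
            have kk2090 : (k) ≤ (i + l + 1) := by clear * - v50; omega
            have kk2091 : (k + k3) ≤ (2 * i + 2 * l + m + 3) := by clear * - b3 v50 z166; omega
            have kk2092 : (Q + i + l + m + 2) ≤ (k + k3) := by clear * - v51; omega
            have r2093 : (i + j - 2 * n) % 2 = 0 := by clear * - ev n1p n2p n3p; omega
            have r2094 : (k + k3 - i - j - l - m - 2) % 2 = 0 := by clear * - ev n1p n2p n3p; omega
            clear * - al a2 s2 b D2 kk2083 kk2084 kk2085 kk2086 kk2087 kk2088 kk2089 kk2090 kk2091 kk2092 r2093 r2094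
            exact midP al (k + k3 - i - j - l - m - 2) (i + j - 2 * n) (i + j - n - Q + 1) (2 * i + j + l + m - n - k - k3 + 3) (k + k3 - n - i - l - m - 2) (by omega) (fun t h1 h2 => (cE (ab s2 al (-1) t ((i + j - n) - t) (by omega)) (sh al (-1) ((i + j - n) - t) ((i + j - 2 * n) - t) (by omega)))) (fun t h1 h2 => (cE (cE (cE (qf a2 al (-1) t (t + (n + k - j)) (by omega)) (qf (show Par W (2 * i + l + m - k + 3) (i + l + 1) (k + k3 - 2 * i - l - m - 2) from fun t h1 h2 => (cE (sh al (-1) t (t + (-n)) (by omega)) (cE (qf b al (-1) (t + (-n)) (t + (k - i)) (by omega)) (qf D2 al 0 (t + (k - i)) (t + (k + k3 - 2 * i - l - m - 2)) (by omega))))) al 0 (t + (n + k - j)) (t + (n + 2 * k + k3 - 2 * i - j - l - m - 2)) (by omega))) (pb b al 0 (t + (n + 2 * k + k3 - 2 * i - j - l - m - 2)) (t + (n + k + k3 - i - j - l - m - 2)) (by omega))) (sh al (-1) (t + (n + k + k3 - i - j - l - m - 2)) (t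 + (k + k3 - i - j - l - m - 2)) (by omega))))
      · by_cases z169 : (k3 + 1) ≤ (k)
        · by_cases z170 : (3 * i + j + 2 * l + m + 4) ≤ (2 * k + i2 + k3)
          · by_cases v52 : (Q + j + k3) ≤ (2 * i + l + i2 + m + 3)
            · by_cases v53 : (i + l + 1) ≤ (k3)
              · have kk2095 : (i + i2 + m + 3) ≤ (j + k3) := by clear * - b0 b2 b6 b9 v53 z169; omega
                have kk2096 : (i + j + m + k3 + 2) ≤ (2 * k + i2) := by clear * - b0 b2 b9 z167 z168 z169; omega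
                have kk2097 : (k) ≤ (i + l + m + 2) := by clear * - b0 b2 b6 b9 v52 v53 z169; omega
                have kk2098 : (k + l + 1) ≤ (n) := by clear * - b0 b2 b6 b8 b9 v52 v53 y17 z169; omega
                have kk2099 : (k + k3) ≤ (2 * i + l + 2 * m + 3) := by clear * - b0 v52; omega
                have kk2100 : (Q + j + k3) ≤ (2 * i + l + i2 + m + 3) := by clear * - v52; omega
                have kk2101 : (i2) ≤ (j) := by clear * - b0 b6 z169; omega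
                have kk2102 : (i + l + 1) ≤ (k3) := by clear * - v53; omega
                have r2103 : (2 * n + 3 * i + 2 * l + i2 + m - j - k3 + 3) % 2 = 0 := by clear * - ev n1p n2p n3p; omega
                clear * - al a2 b tt D2 kk2095 kk2096 kk2097 kk2098 kk2099 kk2100 kk2101 kk2102 r2103
                obtain ⟨t, ht⟩ : ∃ t, 2 * t = (2 * n + 3 * i + 2 * l + i2 + m - j - k3 + 3) := ⟨(2 * n + 3 * i + 2 * l + i2 + m - j - k3 + 3) / 2, by omega⟩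
                exact al.ninv t (cE (cE (cI (pb a2 al 1 t (t + (j - n - k)) (by omega)) (qa tt al 0 (t + (j - n - k)) ((n + i + k + l + i2 - j + 1) - t) (by omega))) (pb (show Par W (2 * i + l + m - k + 3) (i + l + 1) (k + k3 - 2 * i - l - m - 2) from fun t h1 h2 => (cE (sh al (-1) t (t + (-n)) (by omega)) (cE (qf b al (-1) (t + (-n)) (t + (k - i)) (by omega)) (qf D2 al 0 (t + (k - i)) (t + (k + k3 - 2 * i - l - m - 2)) (by omega))))) al 0 ((n + i + k + l + i2 - j + 1) - t) ((n + 3 * i + 2 * l + i2 + m - j - k3 + 3) - t) (by omega))) (sh al 1 ((n + 3 * i + 2 * l + i2 + m - j - k3 + 3) - t) t (by omega)))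
              · have kk2104 : (i + i2 + m + 3) ≤ (j + k3) := by clear * - b0 b6 v53 z170; omega
                have kk2105 : (3 * i + j + 2 * l + m + 4) ≤ (2 * k + i2 + k3) := by clear * - z170; omega
                have kk2106 : (k) ≤ (i + l + m + 2) := by clear * - b0 b2 b6 b9 v52 v53 z170; omega
                have kk2107 : (k + l + 1) ≤ (n) := by clear * - b0 b6 b8 b9 v52 v53 z167 z169; omega
                have kk2108 : (k + k3) ≤ (2 * i + l + 2 * m + 3) := by clear * - b0 v52; omega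
                have kk2109 : (Q + j + k3) ≤ (2 * i + l + i2 + m + 3) := by clear * - v52; omega
                have kk2110 : (i2) ≤ (j) := by clear * - b0 v53 z167 z168; omega
                have kk2111 : (k3) ≤ (i + l + 1) := by clear * - v53; omega
                have r2112 : (2 * n + 3 * i + 2 * l + i2 + m - j - k3 + 3) % 2 = 0 := by clear * - ev n1p n2p n3p; omega
                clear * - al a2 b tt D2 kk2104 kk2105 kk2106 kk2107 kk2108 kk2109 kk2110 kk2111 r2112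
                obtain ⟨t, ht⟩ : ∃ t, 2 * t = (2 * n + 3 * i + 2 * l + i2 + m - j - k3 + 3) := ⟨(2 * n + 3 * i + 2 * l + i2 + m - j - k3 + 3) / 2, by omega⟩
                exact al.ninv t (cE (cE (cI (pb a2 al 1 t (t + (j - n - k)) (by omega)) (qa tt al 0 (t + (j - n - k)) ((n + i + k + l + i2 - j + 1) - t) (by omega))) (pb (show Par W (2 * i + l + m - k + 3) (i + l + 1) (k + k3 - 2 * i - l - m - 2) from fun t h1 h2 => (cE (sh al (-1) t (t + (-n)) (by omega)) (cE (qf b al (-1) (t + (-n)) (t + (k - i)) (by omega)) (qf D2 al 0 (t + (k - i)) (t + (k + k3 - 2 * i - l - m - 2)) (by omega))))) al 0 ((n + i + k + l + i2 - j + 1) - t) ((n + 3 * i + 2 * l + i2 + m - j - k3 + 3) - t) (by omega))) (sh al 1 ((n + 3 * i + 2 * l + i2 + m - j - k3 + 3) - t) t (by omega)))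
            · by_cases v54 : (i + l + 1) ≤ (k3)
              · have kk2113 : (2 * Q + j + k3) ≤ (3 * i + 2 * l + i2 + m + 3) := by clear * - b0 b2 b4 b6 b9 v54 y17; omega
                have kk2114 : (i + j + m + k3 + 2) ≤ (2 * k + i2) := by clear * - b2 b4 b9 v52 z167 z169; omega
                have kk2115 : (k) ≤ (i + l + m + 2) := by clear * - b0 b2 b4 b6 b9 v54 y17; omega
                have kk2116 : (k + l + 1) ≤ (n) := by clear * - b0 b2 b5 b9 v54 y17 z168; omega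
                have kk2117 : (k + i2) ≤ (Q + j + m) := by clear * - b0; omega
                have kk2118 : (2 * i + l + i2 + m + 3) ≤ (Q + j + k3) := by clear * - v52; omega
                have kk2119 : (i2) ≤ (j) := by clear * - b0 b6 z169; omega
                have kk2120 : (i + l + 1) ≤ (k3) := by clear * - v54; omega
                have r2121 : (2 * n + 3 * i + 2 * l + i2 + m - j - k3 + 3) % 2 = 0 := by clear * - ev n1p n2p n3p; omega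
                clear * - al a2 b tt D2 kk2113 kk2114 kk2115 kk2116 kk2117 kk2118 kk2119 kk2120 r2121
                obtain ⟨t, ht⟩ : ∃ t, 2 * t = (2 * n + 3 * i + 2 * l + i2 + m - j - k3 + 3) := ⟨(2 * n + 3 * i + 2 * l + i2 + m - j - k3 + 3) / 2, by omega⟩
                exact al.ninv t (cE (cE (cI (pb a2 al 1 t (t + (j - n - k)) (by omega)) (qa tt al 0 (t + (j - n - k)) ((n + i + k + l + i2 - j + 1) - t) (by omega))) (pb (show Par W (2 * i + l + m - k + 3) (i + l + 1) (k + k3 - 2 * i - l - m - 2) from fun t h1 h2 => (cE (sh al (-1) t (t + (-n)) (by omega)) (cE (qf b al (-1) (t + (-n)) (t + (k - i)) (by omega)) (qf D2 al 0 (t + (k - i)) (t + (k + k3 - 2 * i - l - m - 2)) (by omega))))) al 0 ((n + i + k + l + i2 - j + 1) - t) ((n + 3 * i + 2 * l + i2 + m - j - k3 + 3) - t) (by omega))) (sh al 1 ((n + 3 * i + 2 * l + i2 + m - j - k3 + 3) - t) t (by omega)))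
              · have kk2122 : (2 * Q + j + k3) ≤ (3 * i + 2 * l + i2 + m + 3) := by clear * - b4 b6 y17 y2; omega
                have kk2123 : (3 * i + j + 2 * l + m + 4) ≤ (2 * k + i2 + k3) := by clear * - z170; omega
                have kk2124 : (k) ≤ (i + l + m + 2) := by clear * - b0 b4 b6 y2; omega
                have kk2125 : (k + l + 1) ≤ (n) := by clear * - b0 b5 v54 z167; omega
                have kk2126 : (k + i2) ≤ (Q + j + m) := by clear * - b0; omega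
                have kk2127 : (2 * i + l + i2 + m + 3) ≤ (Q + j + k3) := by clear * - v52; omega
                have kk2128 : (i2) ≤ (j) := by clear * - b0 v54 z167 z168; omega
                have kk2129 : (k3) ≤ (i + l + 1) := by clear * - v54; omega
                have r2130 : (2 * n + 3 * i + 2 * l + i2 + m - j - k3 + 3) % 2 = 0 := by clear * - ev n1p n2p n3p; omega
                clear * - al a2 b tt D2 kk2122 kk2123 kk2124 kk2125 kk2126 kk2127 kk2128 kk2129 r2130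
                obtain ⟨t, ht⟩ : ∃ t, 2 * t = (2 * n + 3 * i + 2 * l + i2 + m - j - k3 + 3) := ⟨(2 * n + 3 * i + 2 * l + i2 + m - j - k3 + 3) / 2, by omega⟩
                exact al.ninv t (cE (cE (cI (pb a2 al 1 t (t + (j - n - k)) (by omega)) (qa tt al 0 (t + (j - n - k)) ((n + i + k + l + i2 - j + 1) - t) (by omega))) (pb (show Par W (2 * i + l + m - k + 3) (i + l + 1) (k + k3 - 2 * i - l - m - 2) from fun t h1 h2 => (cE (sh al (-1) t (t + (-n)) (by omega)) (cE (qf b al (-1) (t + (-n)) (t + (k - i)) (by omega)) (qf D2 al 0 (t + (k - i)) (t + (k + k3 - 2 * i - l - m - 2)) (by omega))))) al 0 ((n + i + k + l + i2 - j + 1) - t) ((n + 3 * i + 2 * l + i2 + m - j - k3 + 3) - t) (by omega))) (sh al 1 ((n + 3 * i + 2 * l + i2 + m - j - k3 + 3) - t) t (by omega)))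
          · have kk2131 : (i + j + l + m + 3) ≤ (k + k3) := by clear * - z167; omega
            have kk2132 : (k + k3) ≤ (i + j + l + 3 * m + 2) := by clear * - b0 b4 z167; omega
            have kk2133 : (3 * i + j + l + m + 4) ≤ (k + 2 * i2 + k3) := by clear * - y16 z167 ev n1p n2p n3p; omega
            have kk2134 : (5 * i + 3 * l + m + 6) ≤ (j + 3 * k + k3) := by clear * - b0 y16 z167 z168 z169; omega
            have kk2135 : (k) ≤ (i + l + m + 2) := by clear * - b3 y16 z167 z170; omega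
            have kk2136 : (k + l + 1) ≤ (n) := by clear * - b0 b4 b5 b8 b9 z167 z168 z169 z170; omega
            have kk2137 : (k) ≤ (i + l + 1) := by clear * - y16 z167 z170; omega
            have kk2138 : (i + m + 1) ≤ (k) := by clear * - b0 b2 b9 z167 z168 z169 z170; omega
            have kk2139 : (k3) ≤ (k) := by clear * - z169; omega
            have kk2140 : (Q + k3) ≤ (2 * i + l + m + 3) := by clear * - b4 y17; omega
            have kk2141 : (k + k3) ≤ (2 * i + 2 * l + m + 3) := by clear * - b0 b2 b4 b9 z167 z168 z170; omega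
            have kk2142 : (j + m + 1) ≤ (k3) := by clear * - y16 z167 z170; omega
            have kk2143 : (i + l + i2 + m + 2) ≤ (k + k3) := by clear * - b7; omega
            have r2144 : (2 * i + l + i2 - 2 * n - k + 1) % 2 = 0 := by clear * - ev n1p n2p n3p; omega
            have r2145 : (k + k3 - i - j - l - m - 2) % 2 = 0 := by clear * - ev n1p n2p n3p; omega
            clear * - al a2 b tt D2 kk2131 kk2132 kk2133 kk2134 kk2135 kk2136 kk2137 kk2138 kk2139 kk2140 kk2141 kk2142 kk2143 r2144 r2145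
            exact midP al (k + k3 - i - j - l - m - 2) (2 * i + l + i2 - 2 * n - k + 1) (2 * i + l - n - k + 2) (2 * i + j + l + m - n - k - k3 + 3) (k + k3 - n - i - l - m - 2) (by omega) (fun t h1 h2 => (cE (cI (qf b al (-1) t (t + (n + k - i)) (by omega)) (ab tt al 0 (t + (n + k - i)) ((2 * i + l + i2 - n - k + 1) - t) (by omega))) (sh al (-1) ((2 * i + l + i2 - n - k + 1) - t) ((2 * i + l + i2 - 2 * n - k + 1) - t) (by omega)))) (fun t h1 h2 => (cE (cE (cE (qf a2 al (-1) t (t + (n + k - j)) (by omega)) (qf (show Par W (2 * i + l + m - k + 3) (i + l + 1) (k + k3 - 2 * i - l - m - 2) from fun t h1 h2 => (cE (sh al (-1) t (t + (-n)) (by omega)) (cE (qf b al (-1) (t + (-n)) (t + (k - i)) (by omega)) (qf D2 al 0 (t + (k - i)) (t + (k + k3 - 2 * i - l - m - 2)) (by omega))))) al 0 (t + (n + k - j)) (t + (n + 2 * k + k3 - 2 * i - j - l - m - 2)) (by omega))) (pb b al 0 (t + (n + 2 * k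 + k3 - 2 * i - j - l - m - 2)) (t + (n + k + k3 - i - j - l - m - 2)) (by omega))) (sh al (-1) (t + (n + k + k3 - i - j - l - m - 2)) (t + (k + k3 - i - j - l - m - 2)) (by omega))))
        · by_cases v55 : (i + l + 1) ≤ (k)
          · have kk2146 : (i + j + l + m + 3) ≤ (k + k3) := by clear * - z167; omega
            have kk2147 : (3 * k + k3) ≤ (3 * i + j + 3 * l + 3 * m + 4) := by clear * - b0 b2 b4 b9 y17 z168 z169; omega
            have kk2148 : (i + j + k + m + 2) ≤ (l + 2 * i2 + k3) := by clear * - b0 b2 b9 z168 z169; omega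
            have kk2149 : (i + k + m + 2) ≤ (j + l + k3) := by clear * - b0 b2 b6 b9 z168; omega
            have kk2150 : (k) ≤ (i + l + m + 2) := by clear * - y19 z169; omega
            have kk2151 : (k + l + 1) ≤ (n) := by clear * - b0 b2 b5 b9 v55 y17 z168 z169; omega
            have kk2152 : (i + l + 1) ≤ (k) := by clear * - v55; omega
            have kk2153 : (i + m + 1) ≤ (k) := by clear * - b0 b2 b6 b9 v55 z166; omega
            have kk2154 : (k3) ≤ (k) := by clear * - z166; omega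
            have kk2155 : (Q + k3) ≤ (2 * i + l + m + 3) := by clear * - b4 y17; omega
            have kk2156 : (k3) ≤ (i + l + m + 2) := by clear * - y19; omega
            have kk2157 : (i + l + i2 + m + 2) ≤ (k + k3) := by clear * - b7; omega
            have kk2158 : (i + j + l + m + 2) ≤ (k + k3) := by clear * - z167; omega
            have r2159 : (2 * n + 2 * i + l + i2 - k + 1) % 2 = 0 := by clear * - ev n1p n2p n3p; omega
            have r2160 : (k + k3 - i - j - l - m - 2) % 2 = 0 := by clear * - ev n1p n2p n3p; omega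
            clear * - al a2 b tt D2 kk2146 kk2147 kk2148 kk2149 kk2150 kk2151 kk2152 kk2153 kk2154 kk2155 kk2156 kk2157 kk2158 r2159 r2160
            exact midP al (k + k3 - i - j - l - m - 2) (2 * n + 2 * i + l + i2 - k + 1) (n + i + 1) (n + 2 * i + j + l + m - k - k3 + 3) (n + k3 - m - 1) (by omega) (fun t h1 h2 => (cE (cI (qf b al 1 t (t + (k - n - i)) (by omega)) (ab tt al 0 (t + (k - n - i)) ((n + 2 * i + l + i2 - k + 1) - t) (by omega))) (sh al 1 ((n + 2 * i + l + i2 - k + 1) - t) ((2 * n + 2 * i + l + i2 - k + 1) - t) (by omega)))) (fun t h1 h2 => (cE (cE (cE (qf a2 al 1 t (t + (k - n - j)) (by omega)) (qf (show Par W (2 * i + l + m - k + 3) (i + l + 1) (k + k3 - 2 * i - l - m - 2) from fun t h1 h2 => (cE (sh al (-1) t (t + (-n)) (by omega)) (cE (qf b al (-1) (t + (-n)) (t + (k - i)) (by omega)) (qf D2 al 0 (t + (k - i)) (t + (k + k3 - 2 * i - l - m - 2)) (by omega))))) al 0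 (t + (k - n - j)) (t + (2 * k + k3 - n - 2 * i - j - l - m - 2)) (by omega))) (pb b al 0 (t + (2 * k + k3 - n - 2 * i - j - l - m - 2)) (t + (k + k3 - n - i - j - l - m - 2)) (by omega))) (sh al 1 (t + (k + k3 - n - i - j - l - m - 2)) (t + (k + k3 - i - j - l - m - 2)) (by omega))))
          · have kk2161 : (i + j + l + m + 3) ≤ (k + k3) := by clear * - z167; omega
            have kk2162 : (k + k3) ≤ (i + j + l + 3 * m + 2) := by clear * - b0 b4 z167; omega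
            have kk2163 : (3 * i + j + l + m + 4) ≤ (k + 2 * i2 + k3) := by clear * - y16 z167 ev n1p n2p n3p; omega
            have kk2164 : (5 * i + 3 * l + m + 6) ≤ (j + 3 * k + k3) := by clear * - b0 y16 z166 z167 z168; omega
            have kk2165 : (k) ≤ (i + l + m + 2) := by clear * - b3 v55; omega
            have kk2166 : (k + l + 1) ≤ (n) := by clear * - b0 b5 v55 z166 z167; omega
            have kk2167 : (k) ≤ (i + l + 1) := by clear * - v55; omega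
            have kk2168 : (i + m + 1) ≤ (k) := by clear * - b0 b2 b9 v55 z166 z167 z168; omega
            have kk2169 : (k3) ≤ (k) := by clear * - z166; omega
            have kk2170 : (Q + k3) ≤ (2 * i + l + m + 3) := by clear * - b4 y17; omega
            have kk2171 : (k + k3) ≤ (2 * i + 2 * l + m + 3) := by clear * - b3 v55 z166; omega
            have kk2172 : (j + m + 1) ≤ (k3) := by clear * - v55 z167; omega
            have kk2173 : (i + l + i2 + m + 2) ≤ (k + k3) := by clear * - b7; omega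
            have r2174 : (2 * n + 2 * i + l + i2 - k + 1) % 2 = 0 := by clear * - ev n1p n2p n3p; omega
            have r2175 : (k + k3 - i - j - l - m - 2) % 2 = 0 := by clear * - ev n1p n2p n3p; omega
            clear * - al a2 b tt D2 kk2161 kk2162 kk2163 kk2164 kk2165 kk2166 kk2167 kk2168 kk2169 kk2170 kk2171 kk2172 kk2173 r2174 r2175
            exact midP al (k + k3 - i - j - l - m - 2) (2 * n + 2 * i + l + i2 - k + 1) (n + 2 * i + l - k + 2) (n + 2 * i + j + l + m - k - k3 + 3) (n + k + k3 - i - l - m - 2) (by omega) (fun t h1 h2 => (cE (cI (qf b al 1 t (t + (k - n - i)) (by omega)) (ab tt al 0 (t + (k - n - i)) ((n + 2 * i + l + i2 - k + 1) - t) (by omega))) (sh al 1 ((n + 2 * i + l + i2 - k + 1) - t) ((2 * n + 2 * i + l + i2 - k + 1) - t) (by omega)))) (fun t h1 h2 => (cE (cE (cE (qf a2 al 1 t (t + (k - n - j)) (by omega)) (qf (show Par W (2 * i + l + m - k + 3) (i + l +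 1) (k + k3 - 2 * i - l - m - 2) from fun t h1 h2 => (cE (sh al (-1) t (t + (-n)) (by omega)) (cE (qf b al (-1) (t + (-n)) (t + (k - i)) (by omega)) (qf D2 al 0 (t + (k - i)) (t + (k + k3 - 2 * i - l - m - 2)) (by omega))))) al 0 (t + (k - n - j)) (t + (2 * k + k3 - n - 2 * i - j - l - m - 2)) (by omega))) (pb b al 0 (t + (2 * k + k3 - n - 2 * i - j - l - m - 2)) (t + (k + k3 - n - i - j - l - m - 2)) (by omega))) (sh al 1 (t + (k + k3 - n - i - j - l - m - 2)) (t + (k + k3 - i - j - l - m - 2)) (by omega))))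

theorem h8_71p
    (h8_72 : ∀ {W : ℤ → G} {n Q i j k l i2 m k3 : ℤ} (al : AL W n Q) (hy : (0) ≤ (i) ∧ (i) ≤ (j) ∧ (j + 1) ≤ (Q) ∧ (Q) ≤ (k) ∧ (k + 1) ≤ (n) ∧ (Q) ≤ (i + l + 1) ∧ (k + l + 2) ≤ (n) ∧ (0) ≤ (i2) ∧ (i2 + 1) ≤ (Q) ∧ (Q + m + 1) ≤ (n + i2) ∧ (i2) ≤ (m) ∧ (Q) ≤ (i + l + m + 2) ∧ (i + l + m + 3) ≤ (n) ∧ (Q) ≤ (k3) ∧ (k3 + 1) ≤ (n) ∧ (i + m + 2) ≤ (k) ∧ (i) ≤ (i2) ∧ (i2) ≤ (i) ∧ (i + m + 2) ≤ (k3) ∧ (k3) ≤ (i + l + m + 1) ∧ (m + k3 + 2) ≤ (n + i2)) (a1 : Par W (0) (j) (k - j)) (a2 : Par W (Q + j - k) (j) (k - j)) (s1 : Ant W (0) (i) (i + j)) (s2 : Ant W (j + 1) (Q) (i + j)) (b : Par W (i + 1) (i + l + 1) (k - i)) (c1 : Par W (i2 + 1) (Q) (k + l - i2 + 1)) (c2 : Par W (k + l + 2) (n) (i2 - k - l - 1)) (tt : Ant W (i2 - m) (i2) (i + l + i2 + 1)) (D1 : Par W (Q) (k3) (n + i2 - m - k3 - 1)) (D2 : Par W (i + l + m + 3) (n) (k3 - i - l - m - 2)) {L : ℤ} (mx : ∀ a b g, 0 < g → g <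 n → Par W a b g → b - a ≤ L) (hL : L ≤ (n - j - 3) ∧ L ≤ (n + Q - k - 3) ∧ L ≤ (n - l - 3) ∧ L ≤ (n + i - k - 2)) (bd0 : Bd W n L (j) (i) (k)) (n1 : Nd W (j) (i) (k)) (n2 : Nd W (i + l + 1) (i2) (k + l + 1)) (n3 : Nd W (n + i2 - m - 1) (i + l + m + 2) (k3)) (b0 : (k + i2 + 1) ≤ (Q + j + m)) (b1 : (2 * i + j + 1) ≤ (k)) (b2 : (m + k3) ≤ (i + l + 2 * i2 + 1)) (b3 : (1) ≤ (m)) (b4 : (Q + k3) ≤ (i + l + i2 + m + 2)) (b5 : (Q + k + l + 1) ≤ (n + i2)) (b6 : (Q + m + 1) ≤ (k3)) (b7 : (i + l + i2 + m + 3) ≤ (k + k3)) (b8 : (2 * i + 2 * l + 2 * m + 3) ≤ (n + 2 * i2)) (b9 : (k) ≤ (i + 2 * j)), False)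
    (h8_73 : ∀ {W : ℤ → G} {n Q i j k l i2 m k3 : ℤ} (al : AL W n Q) (hy : (0) ≤ (i) ∧ (i) ≤ (j) ∧ (j + 1) ≤ (Q) ∧ (Q) ≤ (k) ∧ (k + 1) ≤ (n) ∧ (Q) ≤ (i + l + 1) ∧ (k + l + 2) ≤ (n) ∧ (0) ≤ (i2) ∧ (i2 + 1) ≤ (Q) ∧ (Q + m + 1) ≤ (n + i2) ∧ (i2) ≤ (m) ∧ (Q) ≤ (i + l + m + 2) ∧ (i + l + m + 3) ≤ (n) ∧ (Q) ≤ (k3) ∧ (k3 + 1) ≤ (n) ∧ (i + m + 2) ≤ (k) ∧ (i) ≤ (i2) ∧ (i2) ≤ (i) ∧ (i + m + 2) ≤ (k3) ∧ (k3) ≤ (i + l + m + 1) ∧ (m + k3 + 2) ≤ (n + i2)) (a1 : Par W (0) (j) (k - j)) (a2 : Par W (Q + j - k) (j) (k - j)) (s1 : Ant W (0) (i) (i + j)) (s2 : Ant W (j + 1) (Q) (i + j)) (b : Par W (i + 1) (i + l + 1) (k - i)) (c1 : Par W (i2 + 1) (Q) (k + l - i2 + 1)) (c2 : Par W (k + l + 2) (n) (i2 - k - l - 1)) (tt : Ant W (i2 - m) (i2) (i + l + i2 + 1)) (D1 : Par W (Q) (k3) (n + i2 - m - k3 - 1)) (D2 : Par W (i + l + m + 3) (n) (k3 - i - l - m - 2)) {L : ℤ} (mx : ∀ a b g, 0 < g → g < n → Par W a b g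 → b - a ≤ L) (hL : L ≤ (n - j - 3) ∧ L ≤ (n + Q - k - 3) ∧ L ≤ (n - l - 3) ∧ L ≤ (n + i - k - 2)) (bd0 : Bd W n L (j) (i) (k)) (n1 : Nd W (j) (i) (k)) (n2 : Nd W (i + l + 1) (i2) (k + l + 1)) (n3 : Nd W (n + i2 - m - 1) (i + l + m + 2) (k3)) (b0 : (k + i2 + 1) ≤ (Q + j + m)) (b1 : (2 * Q + k + l) ≤ (n + 2 * j + i2)) (b2 : (m + k3) ≤ (i + l + 2 * i2 + 1)) (b3 : (1) ≤ (m)) (b4 : (Q + k3) ≤ (i + l + i2 + m + 2)) (b5 : (Q + k + l + 1) ≤ (n + i2)) (b6 : (Q + m + 1) ≤ (k3)) (b7 : (i + l + i2 + m + 3) ≤ (k + k3)) (b8 : (2 * i + 2 * l + 2 * m + 3) ≤ (n + 2 * i2)) (b9 : (i + 2 * j + 1) ≤ (k)), False)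
    {W : ℤ → G} {n Q i j k l i2 m k3 : ℤ} (al : AL W n Q)
    (hy : (0) ≤ (i) ∧ (i) ≤ (j) ∧ (j + 1) ≤ (Q) ∧ (Q) ≤ (k) ∧ (k + 1) ≤ (n) ∧ (Q) ≤ (i + l + 1) ∧ (k + l + 2) ≤ (n) ∧ (0) ≤ (i2) ∧ (i2 + 1) ≤ (Q) ∧ (Q + m + 1) ≤ (n + i2) ∧ (i2) ≤ (m) ∧ (Q) ≤ (i + l + m + 2) ∧ (i + l + m + 3) ≤ (n) ∧ (Q) ≤ (k3) ∧ (k3 + 1) ≤ (n) ∧ (i + m + 2) ≤ (k) ∧ (i) ≤ (i2) ∧ (i2) ≤ (i) ∧ (i + m + 2) ≤ (k3) ∧ (k3) ≤ (i + l + m + 1) ∧ (m + k3 + 2) ≤ (n + i2))
    (a1 : Par W (0) (j) (k - j))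
    (a2 : Par W (Q + j - k) (j) (k - j))
    (s1 : Ant W (0) (i) (i + j))
    (s2 : Ant W (j + 1) (Q) (i + j))
    (b : Par W (i + 1) (i + l + 1) (k - i))
    (c1 : Par W (i2 + 1) (Q) (k + l - i2 + 1))
    (c2 : Par W (k + l + 2) (n) (i2 - k - l - 1))
    (tt : Ant W (i2 - m) (i2) (i + l + i2 + 1))
    (D1 : Par W (Q) (k3) (n + i2 - m - k3 - 1))
    (D2 : Par W (i + l + m + 3) (n) (k3 - i - l - m - 2))
    {L : ℤ} (mx : ∀ a b g, 0 < g → g < n → Par W a b g → b - a ≤ L)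
    (hL : L ≤ (n - j - 3) ∧ L ≤ (n + Q - k - 3) ∧ L ≤ (n - l - 3) ∧ L ≤ (n + i - k - 2))
    (bd0 : Bd W n L (j) (i) (k))
    (n1 : Nd W (j) (i) (k))
    (n2 : Nd W (i + l + 1) (i2) (k + l + 1))
    (n3 : Nd W (n + i2 - m - 1) (i + l + m + 2) (k3))
    (b0 : (k + i2 + 1) ≤ (Q + j + m))
    (b1 : (2 * i + j + 1) ≤ (k))
    (b2 : (2 * Q + k + l) ≤ (n + 2 * j + i2))
    (b3 : (m + k3) ≤ (i + l + 2 * i2 + 1))
    (b4 : (1) ≤ (m))
    (b5 : (Q + k3) ≤ (i + l + i2 + m + 2))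
    (b6 : (Q + k + l + 1) ≤ (n + i2))
    (b7 : (Q + m + 1) ≤ (k3))
    (b8 : (i + l + i2 + m + 3) ≤ (k + k3))
    (b9 : (2 * i + 2 * l + 2 * m + 3) ≤ (n + 2 * i2)) : False := by
  have ev := al.ev
  obtain ⟨y0, y1, y2, y3, y4, y5, y6, y7, y8, y9, y10, y11, y12, y13, y14, y15, y16, y17, y18, y19, y20⟩ := id hy
  have n1p := And.intro n1.p1 n1.p2
  have n2p := And.intro n2.p1 n2.p2
  have n3p := And.intro n3.p1 n3.p2
  by_cases z158 : (k) ≤ (i + 2 * j)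
  · exact h8_72 al hy a1 a2 s1 s2 b c1 c2 tt D1 D2 mx hL bd0 n1 n2 n3 (by clear * - b0; omega) (by clear * - b1; omega) (by clear * - b3; omega) (by clear * - b4; omega) (by clear * - b5; omega) (by clear * - b6; omega) (by clear * - b7; omega) (by clear * - b8; omega) (by clear * - b9; omega) (by clear * - z158; omega)
  · exact h8_73 al hy a1 a2 s1 s2 b c1 c2 tt D1 D2 mx hL bd0 n1 n2 n3 (by clear * - b0; omega) (by clear * - b2; omega) (by clear * - b3; omega) (by clear * - b4; omega) (by clear * - b5; omega) (by clear * - b6; omega) (by clear * - b7; omega) (by clear * - b8; omega) (by clear * - b9; omega) (by clear * - z158; omega)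

theorem h8_78p
    {W : ℤ → G} {n Q i j k l i2 m k3 : ℤ} (al : AL W n Q)
    (hy : (0) ≤ (i) ∧ (i) ≤ (j) ∧ (j + 1) ≤ (Q) ∧ (Q) ≤ (k) ∧ (k + 1) ≤ (n) ∧ (Q) ≤ (i + l + 1) ∧ (k + l + 2) ≤ (n) ∧ (0) ≤ (i2) ∧ (i2 + 1) ≤ (Q) ∧ (Q + m + 1) ≤ (n + i2) ∧ (i2) ≤ (m) ∧ (Q) ≤ (i + l + m + 2) ∧ (i + l + m + 3) ≤ (n) ∧ (Q) ≤ (k3) ∧ (k3 + 1) ≤ (n) ∧ (i + m + 2) ≤ (k) ∧ (i) ≤ (i2) ∧ (i2) ≤ (i) ∧ (i + m + 2) ≤ (k3) ∧ (k3) ≤ (i + l + m + 1) ∧ (m + k3 + 2) ≤ (n + i2))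
    (a1 : Par W (0) (j) (k - j))
    (a2 : Par W (Q + j - k) (j) (k - j))
    (s1 : Ant W (0) (i) (i + j))
    (s2 : Ant W (j + 1) (Q) (i + j))
    (b : Par W (i + 1) (i + l + 1) (k - i))
    (c1 : Par W (i2 + 1) (Q) (k + l - i2 + 1))
    (c2 : Par W (k + l + 2) (n) (i2 - k - l - 1))
    (tt : Ant W (i2 - m) (i2) (i + l + i2 + 1))
    (D1 : Par W (Q) (k3) (n + i2 - m - k3 - 1))
    (D2 : Par W (i + l + m + 3) (n) (k3 - i - l - m - 2))
    {L : ℤ} (mx : ∀ a b g, 0 < g → g < n → Par W a b g → b - a ≤ L)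
    (hL : L ≤ (n - j - 3) ∧ L ≤ (n + Q - k - 3) ∧ L ≤ (n - l - 3) ∧ L ≤ (n + i - k - 2))
    (bd0 : Bd W n L (j) (i) (k))
    (n1 : Nd W (j) (i) (k))
    (n2 : Nd W (i + l + 1) (i2) (k + l + 1))
    (n3 : Nd W (n + i2 - m - 1) (i + l + m + 2) (k3))
    (b0 : (2 * l + 3) ≤ (n))
    (b1 : (2 * i + 2 * l + 3 * m + 5) ≤ (n + i2 + k3))
    (b2 : (k + i2 + 1) ≤ (Q + j + m))
    (b3 : (2 * i + j + 1) ≤ (k))
    (b4 : (2 * Q + k + l) ≤ (n + 2 * j + i2))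
    (b5 : (m + k3) ≤ (i + l + 2 * i2 + 1))
    (b6 : (1) ≤ (m))
    (b7 : (i + l + i2 + m + 3) ≤ (Q + k3))
    (b8 : (n + j + i2) ≤ (2 * k + l)) : False := by
  have ev := al.ev
  obtain ⟨y0, y1, y2, y3, y4, y5, y6, y7, y8, y9, y10, y11, y12, y13, y14, y15, y16, y17, y18, y19, y20⟩ := id hy
  have n1p := And.intro n1.p1 n1.p2
  have n2p := And.intro n2.p1 n2.p2
  have n3p := And.intro n3.p1 n3.p2
  by_cases z187 : (2 * k + l + 2) ≤ (n + Q + j)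
  · have kk2369 : (n + j + i2) ≤ (2 * k + l) := by clear * - b8; omega
    have kk2370 : (2 * k + l + 2) ≤ (2 * n + j + i2) := by clear * - b6 y13 y20 z187; omega
    have kk2371 : (2 * k + l + 2) ≤ (n + Q + j) := by clear * - z187; omega
    have kk2372 : (Q + k + l + 1) ≤ (n + j + i2) := by clear * - b4 y6 y7; omega
    clear * - al a2 c1 kk2369 kk2370 kk2371 kk2372
    exact al.ubQ (2 * k + l - n - j - i2 + 1) (by omega) (by omega) fun t h1 h2 => (cE (sh al (-1) t (t + (-n)) (by omega)) (cE (qf c1 al (-1) (t + (-n)) (t + (k + l - i2 + 1)) (by omega)) (qf a2 al 1 (t + (k + l - i2 + 1)) (t + (2 * k + l - n - j - i2 + 1)) (by omega))))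
  · by_cases z188 : (k) ≤ (i + 2 * j)
    · have kk2373 : (2 * j + 2) ≤ (i + k) := by clear * - b4 y17 y2 z187; omega
      have kk2374 : (k) ≤ (i + 2 * j + 1) := by clear * - z188; omega
      have kk2375 : (i) ≤ (j) := by clear * - b3 z188; omega
      have kk2376 : (Q + j) ≤ (k) := by clear * - y6 z187; omega
      have r2377 : (i + k - 2 * n) % 2 = 0 := by clear * - ev n1p n2p n3p; omega
      clear * - al a2 s1 kk2373 kk2374 kk2375 kk2376 r2377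
      obtain ⟨t, ht⟩ : ∃ t, 2 * t = (i + k - 2 * n) := ⟨(i + k - 2 * n) / 2, by omega⟩
      exact al.ninv t (cE (cE (ab s1 al (-1) t ((i + j - n) - t) (by omega)) (qf a2 al 0 ((i + j - n) - t) ((i + k - n) - t) (by omega))) (sh al (-1) ((i + k - n) - t) t (by omega)))
    · by_cases z189 : (i + l + i2 + 1) ≤ (Q + j)
      · by_cases v66 : (Q + j) ≤ (i + l + i2 + 2)
        · have kk2378 : (j + 1) ≤ (k) := by clear * - b0 b2 b4 b5 b7 b8 v66 z187 z188; omega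
          have kk2379 : (Q) ≤ (k) := by clear * - b0 b2 b4 b5 b7 b8 v66 z187 z188; omega
          have kk2380 : (Q + j) ≤ (k + i2) := by clear * - b0 v66 y16 z187; omega
          have kk2381 : (i2 + 1) ≤ (k) := by clear * - b0 b2 b4 b7 b8 v66 y20; omega
          have kk2382 : (n + Q + j) ≤ (2 * k + l + 1) := by clear * - z187; omega
          have kk2383 : (l + 2) ≤ (n) := by clear * - b0 b2 b4 b5 b7 b8 v66 z188; omega
          have kk2384 : (i + l + i2 + 1) ≤ (Q + j) := by clear * - z189; omega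
          have kk2385 : (n + Q + j) ≤ (2 * k + l + 2) := by clear * - z187; omega
          have kk2386 : (Q + j) ≤ (k + i2 + 1) := by clear * - b0 v66 y16 z187; omega
          have kk2387 : (k + l + 1) ≤ (n + i2) := by clear * - y6 y7; omega
          have kk2388 : (k) ≤ (i + l + m + 2) := by clear * - b2 v66; omega
          have kk2389 : (Q + j) ≤ (i + l + i2 + 2) := by clear * - v66; omega
          have kk2390 : (i2) ≤ (k) := by clear * - b0 b2 b4 b7 b8 v66 y20; omega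
          have kk2391 : (Q + j) ≤ (i + k + l + 2) := by clear * - b0 b2 b4 b7 b8 v66 y20; omega
          have r2392 : (k + l - n - i2 + 1) % 2 = 0 := by clear * - ev n1p n2p n3p; omega
          have r2393 : (k - j) % 2 = 0 := by clear * - ev n1p n2p n3p; omega
          have r2394 : (i + l + i2 - 2 * n + 1) % 2 = 0 := by clear * - ev n1p n2p n3p; omega
          clear * - al a2 c1 tt n2 kk2378 kk2379 kk2380 kk2381 kk2382 kk2383 kk2384 kk2385 kk2386 kk2387 kk2388 kk2389 kk2390 kk2391 r2392 r2393 r2394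
          exact ivt al.ninv (Q + j - n - k) (j - n) (k - j) (i2 - n + 1) (Q - n) (k + l - n - i2 + 1) (i2 - n) (k + l - 2 * n + 1) 0 (fun t h1 h2 => (cE (qf a2 al (-1) t (t + (n + k - j)) (by omega)) (sh al (-1) (t + (n + k - j)) (t + (k - j)) (by omega)))) (fun t h1 h2 => (cE (qf c1 al (-1) t (t + (n + k + l - i2 + 1)) (by omega)) (sh al (-2) (t + (n + k + l - i2 + 1)) (t + (k + l - n - i2 + 1)) (by omega)))) (fun hh => n2.f1 (rEE (sh al (-1) (i2) (i2 - n) (by omega)) (sh al (-2) (k + l + 1) (k + l - 2 * n + 1) (by omega)) (Eq.symm hh))) (by omega) (i + l + i2 - n - k + 2) (i2 - n) (i + l + i2 - 2 * n + 1) 0 (-1) (fun t h1 h2 => (cE (qa tt al (-1) t ((i + l + i2 - n + 1) - t) (by omega)) (sh al (-1) ((i + l + i2 - n + 1) - t) ((i + l + i2 - 2 * n + 1) - t) (by omega)))) (by omega)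
        · have kk2395 : (j + 1) ≤ (k) := by clear * - b4 b5 b6 b7 b8 y17 z188; omega
          have kk2396 : (Q) ≤ (k) := by clear * - b0 b4 b8 y18 y19 z187; omega
          have kk2397 : (Q + j) ≤ (k + i2) := by clear * - b4 y17 y7 z187 z188; omega
          have kk2398 : (i2 + 1) ≤ (k) := by clear * - b0 b4 b7 y18 y19 z187; omega
          have kk2399 : (n + Q + j) ≤ (2 * k + l + 1) := by clear * - z187; omega
          have kk2400 : (l + 2) ≤ (n) := by clear * - b0 y18 y19; omega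
          have kk2401 : (n + Q + j) ≤ (2 * k + l + 2) := by clear * - z187; omega
          have kk2402 : (Q + j) ≤ (k + i2 + 1) := by clear * - b4 y17 y7 z187 z188; omega
          have kk2403 : (k + l + 1) ≤ (n + i2) := by clear * - y6 y7; omega
          have kk2404 : (k + i2) ≤ (Q + j + m) := by clear * - b2; omega
          have kk2405 : (i + l + i2 + 2) ≤ (Q + j) := by clear * - v66; omega
          have kk2406 : (i2) ≤ (k) := by clear * - b0 b4 b7 y18 y19 z187; omega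
          have kk2407 : (Q + j) ≤ (i + k + l + 2) := by clear * - b2 b4 b5 b6 y17 y18 z187 z188; omega
          have r2408 : (k + l - n - i2 + 1) % 2 = 0 := by clear * - ev n1p n2p n3p; omega
          have r2409 : (k - j) % 2 = 0 := by clear * - ev n1p n2p n3p; omega
          have r2410 : (i + l + i2 - 2 * n + 1) % 2 = 0 := by clear * - ev n1p n2p n3p; omega
          clear * - al a2 c1 tt n2 kk2395 kk2396 kk2397 kk2398 kk2399 kk2400 kk2401 kk2402 kk2403 kk2404 kk2405 kk2406 kk2407 r2408 r2409 r2410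
          exact ivt al.ninv (Q + j - n - k) (j - n) (k - j) (i2 - n + 1) (Q - n) (k + l - n - i2 + 1) (i2 - n) (k + l - 2 * n + 1) 0 (fun t h1 h2 => (cE (qf a2 al (-1) t (t + (n + k - j)) (by omega)) (sh al (-1) (t + (n + k - j)) (t + (k - j)) (by omega)))) (fun t h1 h2 => (cE (qf c1 al (-1) t (t + (n + k + l - i2 + 1)) (by omega)) (sh al (-2) (t + (n + k + l - i2 + 1)) (t + (k + l - n - i2 + 1)) (by omega)))) (fun hh => n2.f1 (rEE (sh al (-1) (i2) (i2 - n) (by omega)) (sh al (-2) (k + l + 1) (k + l - 2 * n + 1) (by omega)) (Eq.symm hh))) (by omega) (Q + j - n - k) (i2 - n) (i + l + i2 - 2 * n + 1) 0 (-1) (fun t h1 h2 => (cE (qa tt al (-1) t ((i + l + i2 - n + 1) - t) (by omega)) (sh al (-1) ((i + l + i2 - n + 1) - t) ((i + l + i2 - 2 * n + 1) - t) (by omega)))) (by omega)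
      · by_cases z190 : (n + i2 + k3) ≤ (i + k + 2 * l + m + 2)
        · by_cases z191 : (2 * i + l + m + 3) ≤ (Q + k)
          · by_cases v67 : (k) ≤ (k3)
            · have kk2411 : (n + i2 + k3) ≤ (i + k + 2 * l + m + 2) := by clear * - z190; omega
              have kk2412 : (i + k + 2 * l + m + 4) ≤ (2 * n + i2 + k3) := by clear * - b0 b2 b4 b5 b7 v67 z188 z190 z191; omega
              have kk2413 : (2 * i + l + m + 3) ≤ (Q + k) := by clear * - z191; omega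
              have kk2414 : (k) ≤ (i + l + m + 2) := by clear * - b2 z189; omega
              have kk2415 : (k + l + 1) ≤ (n) := by clear * - y6; omega
              have kk2416 : (k) ≤ (k3) := by clear * - v67; omega
              have kk2417 : (2 * k + l + 1) ≤ (n + i + k3) := by clear * - b0 b2 b4 b5 v67 y17 z188; omega
              have kk2418 : (Q + k + l + m + 2) ≤ (n + i2 + k3) := by clear * - b0 b4 b5 b7 v67 z188 z190; omega
              have kk2419 : (Q + k) ≤ (n + i + i2) := by clear * - b0 b2 b4 b5 b7 v67 z188 z190; omega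
              clear * - al b c1 D2 kk2411 kk2412 kk2413 kk2414 kk2415 kk2416 kk2417 kk2418 kk2419
              exact al.ubQ (i + k + 2 * l + m - n - i2 - k3 + 3) (by omega) (by omega) fun t h1 h2 => (cE (sh al (-1) t (t + (-n)) (by omega)) (cE (cE (qf c1 al (-1) (t + (-n)) (t + (k + l - i2 + 1)) (by omega)) (qf b al 1 (t + (k + l - i2 + 1)) (t + (2 * k + l - n - i - i2 + 1)) (by omega))) (pb (show Par W (2 * i + l + m - k + 3) (i + l + 1) (k + k3 - 2 * i - l - m - 2) from fun t h1 h2 => (cE (sh al (-1) t (t + (-n)) (by omega)) (cE (qf b al (-1) (t + (-n)) (t + (k - i)) (by omega)) (qf D2 al 0 (t + (k - i)) (t + (k + k3 - 2 * i - l - m - 2)) (by omega))))) al 0 (t + (2 * k + l - n - i - i2 + 1)) (t + (i + k + 2 * l + m - n - i2 - k3 + 3)) (by omega))))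
            · have kk2420 : (n + i2 + k3) ≤ (i + k + 2 * l + m + 2) := by clear * - z190; omega
              have kk2421 : (i + k + 2 * l + m + 4) ≤ (2 * n + i2 + k3) := by clear * - b0 b2 b4 b7 v67 z189 z191; omega
              have kk2422 : (2 * i + l + m + 3) ≤ (Q + k3) := by clear * - b7 y16; omega
              have kk2423 : (k) ≤ (i + l + m + 2) := by clear * - b2 z189; omega
              have kk2424 : (k + l + 1) ≤ (n) := by clear * - y6; omega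
              have kk2425 : (k3) ≤ (k) := by clear * - v67; omega
              have kk2426 : (k + l + 1) ≤ (n + i) := by clear * - y17 y6 y7; omega
              have kk2427 : (Q + k + l + m + 2) ≤ (n + i2 + k3) := by clear * - b4 b7 y6 y7 z189; omega
              have kk2428 : (Q + k) ≤ (n + i + i2) := by clear * - b0 b2 b4 b5 b7 v67 z188 z189; omega
              clear * - al b c1 D2 kk2420 kk2421 kk2422 kk2423 kk2424 kk2425 kk2426 kk2427 kk2428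
              exact al.ubQ (i + k + 2 * l + m - n - i2 - k3 + 3) (by omega) (by omega) fun t h1 h2 => (cE (sh al (-1) t (t + (-n)) (by omega)) (cE (cE (qf c1 al (-1) (t + (-n)) (t + (k + l - i2 + 1)) (by omega)) (qf b al 1 (t + (k + l - i2 + 1)) (t + (2 * k + l - n - i - i2 + 1)) (by omega))) (pb (show Par W (2 * i + l + m - k + 3) (i + l + 1) (k + k3 - 2 * i - l - m - 2) from fun t h1 h2 => (cE (sh al (-1) t (t + (-n)) (by omega)) (cE (qf b al (-1) (t + (-n)) (t + (k - i)) (by omega)) (qf D2 al 0 (t + (k - i)) (t + (k + k3 - 2 * i - l - m - 2)) (by omega))))) al 0 (t + (2 * k + l - n - i - i2 + 1)) (t + (i + k + 2 * l + m - n - i2 - k3 + 3)) (by omega))))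
          · have kk2429 : (2 * i + 2 * l + 4) ≤ (n + 2 * i2) := by clear * - b0 y16 ev n1p n2p n3p; omega
            have kk2430 : (2 * k + 1) ≤ (n + 2 * i) := by clear * - b0 b2 b4 b5 b7 y17 z188 z191; omega
            have kk2431 : (n + 2 * i2) ≤ (i + k + 2 * l + 2) := by clear * - b4 b5 b6 b7 z188 z190 z191; omega
            have kk2432 : (n + 2 * i2) ≤ (Q + k + l + 1) := by clear * - b7 z190; omega
            have kk2433 : (n + 2 * i2) ≤ (i + k + l + m + 2) := by clear * - b2 y17 z187; omega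
            have kk2434 : (i) ≤ (i2) := by clear * - y16; omega
            have r2435 : (n + 2 * i2) % 2 = 0 := by clear * - ev n1p n2p n3p; omega
            clear * - al b c1 tt kk2429 kk2430 kk2431 kk2432 kk2433 kk2434 r2435
            obtain ⟨t, ht⟩ : ∃ t, 2 * t = (n + 2 * i2) := ⟨(n + 2 * i2) / 2, by omega⟩
            exact al.ninv t (cE (cE (ab tt al 0 t ((i + l + i2 + 1) - t) (by omega)) (pb c1 al (-1) ((i + l + i2 + 1) - t) ((n + i + 2 * i2 - k) - t) (by omega))) (qf b al 0 ((n + i + 2 * i2 - k) - t) t (by omega)))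
        · have kk2436 : (n + i + i2) ≤ (k + m + k3) := by clear * - b2 z187 z190; omega
          have kk2437 : (k + m + k3 + 2) ≤ (2 * n + i + i2) := by clear * - b4 b5 b7 y19 z188 z189 z190; omega
          have kk2438 : (Q + k + m + 1) ≤ (n + i + i2) := by clear * - b2 b4 b5 b7 y17 z188 z189; omega
          have kk2439 : (k + m + k3 + 2) ≤ (n + Q + i2) := by clear * - b2 b4 b5 b7 y17 z188; omega
          have kk2440 : (n + i2) ≤ (k + l + m + 2) := by clear * - b2 z187; omega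
          clear * - al b D1 kk2436 kk2437 kk2438 kk2439 kk2440
          exact al.ubQ (k + m + k3 - n - i - i2 + 1) (by omega) (by omega) fun t h1 h2 => (cE (sh al 1 t (t + (n)) (by omega)) (cE (qf b al 1 (t + (n)) (t + (k - i)) (by omega)) (pb D1 al 0 (t + (k - i)) (t + (k + m + k3 - n - i - i2 + 1)) (by omega))))

theorem h8_90p
    {W : ℤ → G} {n Q i j k l i2 m k3 : ℤ} (al : AL W n Q)
    (hy : (0) ≤ (i) ∧ (i) ≤ (j) ∧ (j + 1) ≤ (Q) ∧ (Q) ≤ (k) ∧ (k + 1) ≤ (n) ∧ (Q) ≤ (i + l + 1) ∧ (k + l + 2) ≤ (n) ∧ (0) ≤ (i2) ∧ (i2 + 1) ≤ (Q) ∧ (Q + m + 1) ≤ (n + i2) ∧ (i2) ≤ (m) ∧ (Q) ≤ (i + l + m + 2) ∧ (i + l + m + 3) ≤ (n) ∧ (Q) ≤ (k3) ∧ (k3 + 1) ≤ (n) ∧ (i + m + 2) ≤ (k) ∧ (i) ≤ (i2) ∧ (i2) ≤ (i) ∧ (i + m + 2) ≤ (k3) ∧ (k3) ≤ (i + l + m + 1) ∧ (m + k3 + 2) ≤ (n + i2))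
    (a1 : Par W (0) (j) (k - j))
    (a2 : Par W (Q + j - k) (j) (k - j))
    (s1 : Ant W (0) (i) (i + j))
    (s2 : Ant W (j + 1) (Q) (i + j))
    (b : Par W (i + 1) (i + l + 1) (k - i))
    (c1 : Par W (i2 + 1) (Q) (k + l - i2 + 1))
    (c2 : Par W (k + l + 2) (n) (i2 - k - l - 1))
    (tt : Ant W (i2 - m) (i2) (i + l + i2 + 1))
    (D1 : Par W (Q) (k3) (n + i2 - m - k3 - 1))
    (D2 : Par W (i + l + m + 3) (n) (k3 - i - l - m - 2))
    {L : ℤ} (mx : ∀ a b g, 0 < g → g < n → Par W a b g → b - a ≤ L)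
    (hL : L ≤ (n - j - 3) ∧ L ≤ (n + Q - k - 3) ∧ L ≤ (n - l - 3) ∧ L ≤ (n + i - k - 2))
    (bd0 : Bd W n L (j) (i) (k))
    (n1 : Nd W (j) (i) (k))
    (n2 : Nd W (i + l + 1) (i2) (k + l + 1))
    (n3 : Nd W (n + i2 - m - 1) (i + l + m + 2) (k3))
    (b0 : (2 * l + 3) ≤ (n))
    (b1 : (2 * Q + k + l) ≤ (n + 2 * j + i2))
    (b2 : (m + k3) ≤ (i + l + 2 * i2 + 1))
    (b3 : (1) ≤ (m))
    (b4 : (i + l + i2 + m + 3) ≤ (Q + k3))
    (b5 : (i + 2 * j + 1) ≤ (k))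
    (b6 : (2 * i2 + k3) ≤ (i + l + m + 1))
    (b7 : (2 * k + l + 2) ≤ (n + i2))
    (b8 : (2 * Q + k3) ≤ (3 * i + 2 * j + l + m + 3))
    (b9 : (n + i2 + k3) ≤ (2 * i + j + k + 2 * l + m + 4))
    (b10 : (n + j + i2) ≤ (i + 2 * l + m + k3 + 3))
    (b11 : (n + 2 * i2) ≤ (k + l + m + k3 + 1)) : False := by
  have ev := al.ev
  obtain ⟨y0, y1, y2, y3, y4, y5, y6, y7, y8, y9, y10, y11, y12, y13, y14, y15, y16, y17, y18, y19, y20⟩ := id hy
  have n1p := And.intro n1.p1 n1.p2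
  have n2p := And.intro n2.p1 n2.p2
  have n3p := And.intro n3.p1 n3.p2
  by_cases z204 : (k + l + m + k3 + 3) ≤ (n + Q + i2)
  · by_cases z205 : (Q + k + l + m + 2) ≤ (n + 2 * i2)
    · have kk2567 : (n + 2 * i2) ≤ (k + l + m + k3 + 1) := by clear * - b11; omega
      have kk2568 : (k + l + m + k3 + 3) ≤ (2 * n + 2 * i2) := by clear * - b1 b11 b2 b3 b5 z204 z205; omega
      have kk2569 : (k + l + m + k3 + 3) ≤ (n + Q + i2) := by clear * - z204; omega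
      have kk2570 : (Q + k + l + m + 2) ≤ (n + 2 * i2) := by clear * - z205; omega
      clear * - al c1 D1 kk2567 kk2568 kk2569 kk2570
      exact al.ubQ (k + l + m + k3 - n - 2 * i2 + 2) (by omega) (by omega) fun t h1 h2 => (cE (sh al 1 t (t + (n)) (by omega)) (cE (qf c1 al 1 (t + (n)) (t + (k + l - i2 + 1)) (by omega)) (pb D1 al 0 (t + (k + l - i2 + 1)) (t + (k + l + m + k3 - n - 2 * i2 + 2)) (by omega))))
    · by_cases z206 : (n + i2 + 2 * k3) ≤ (3 * i + 3 * l + 4 * m + 6)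
      · have kk2571 : (3 * i + 3 * l + i2 + 2 * m + 7) ≤ (n + 2 * k3) := by clear * - b1 b4 b5; omega
        have kk2572 : (n + i2 + 2 * k3) ≤ (3 * i + 3 * l + 4 * m + 6) := by clear * - z206; omega
        have kk2573 : (k3) ≤ (i + l + 1) := by clear * - b2 b6; omega
        have kk2574 : (0) ≤ (i2) := by clear * - y7; omega
        have kk2575 : (2 * i + 2 * l + 2 * m + 4) ≤ (n + k3) := by clear * - b1 b2 b4 b5 z206; omega
        have kk2576 : (i + l + 2 * m + 3) ≤ (n + i2) := by clear * - b1 b2 b4 b5 z206; omega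
        have r2577 : (3 * n + i + l + i2 + 1) % 2 = 0 := by clear * - ev n1p n2p n3p; omega
        clear * - al tt D2 kk2571 kk2572 kk2573 kk2574 kk2575 kk2576 r2577
        obtain ⟨t, ht⟩ : ∃ t, 2 * t = (3 * n + i + l + i2 + 1) := ⟨(3 * n + i + l + i2 + 1) / 2, by omega⟩
        exact al.ninv t (cE (cE (cI (qf D2 al 1 t (t + (k3 - n - i - l - m - 2)) (by omega)) (ab tt al 0 (t + (k3 - n - i - l - m - 2)) ((n + 2 * i + 2 * l + i2 + m - k3 + 3) - t) (by omega))) (qf D2 al (-1) ((n + 2 * i + 2 * l + i2 + m - k3 + 3) - t) ((2 * n + i + l + i2 + 1) - t) (by omega))) (sh al 1 ((2 * n + i + l + i2 + 1) - t) t (by omega)))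
      · by_cases z207 : (n + i + j + i2) ≤ (2 * Q + k + l)
        · have kk2578 : (n + i + j + i2 + 1) ≤ (2 * Q + k + l) := by clear * - z207 ev n1p n2p n3p; omega
          have kk2579 : (n + i + j + i2) ≤ (2 * Q + k + l) := by clear * - z207; omega
          have kk2580 : (Q + k + l + 1) ≤ (n + i + i2) := by clear * - b4 b5 b7 b8 y7; omega
          have kk2581 : (Q + k + l + 1) ≤ (n + i + j) := by clear * - b3 b5 b7 b8 z205 z206 z207; omega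
          have r2582 : (i + j + i2 - n - k - l - 1) % 2 = 0 := by clear * - ev n1p n2p n3p; omega
          clear * - al s2 c1 kk2578 kk2579 kk2580 kk2581 r2582
          obtain ⟨t, ht⟩ : ∃ t, 2 * t = (i + j + i2 - n - k - l - 1) := ⟨(i + j + i2 - n - k - l - 1) / 2, by omega⟩
          exact al.ninv t (cE (cE (qa s2 al (-1) t ((i + j - n) - t) (by omega)) (pb c1 al (-1) ((i + j - n) - t) ((i + j + i2 - k - l - 1) - t) (by omega))) (sh al (-1) ((i + j + i2 - k - l - 1) - t) t (by omega)))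
        · by_cases z208 : (2 * i + l + 2 * i2 + m + 4) ≤ (k + k3)
          · by_cases v76 : (k + k3) ≤ (2 * i + l + 2 * m + 3)
            · have kk2583 : (2 * i + l + m + 3) ≤ (k + k3) := by clear * - b5 b9 v76 y16 z205 z206 z207; omega
              have kk2584 : (2 * i + l + 2 * i2 + m + 4) ≤ (k + k3) := by clear * - z208; omega
              have kk2585 : (4 * i + l + 3 * m + 6) ≤ (3 * k + k3) := by clear * - b1 b2 b3 b5 v76 z205 z206; omega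
              have kk2586 : (2 * n + 2 * i + 2 * i2 + k3) ≤ (5 * k + 3 * l + m + 2) := by clear * - b5 b9 v76 y16 z205 z206 z207 z208; omega
              have kk2587 : (k) ≤ (i + l + m + 2) := by clear * - b11 b2 b3 b7 v76 z208; omega
              have kk2588 : (k + l + 1) ≤ (n) := by clear * - b10 b3 z204 z207 z208; omega
              have kk2589 : (2 * k3) ≤ (i + k + l + m + 2) := by clear * - b5 b9 y16 z204 z205 z207; omega
              have kk2590 : (2 * i + k + 2 * l + 3 * m + 5) ≤ (n + i2 + 2 * k3) := by clear * - b11 b2 b3 b7 v76 z206 z208; omega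
              have kk2591 : (2 * i + 2 * l + 3 * m + 5) ≤ (n + i2 + k3) := by clear * - b2 b3 v76 z206 z208; omega
              have kk2592 : (n + 2 * k3) ≤ (2 * i + k + 3 * l + 2 * m + 5) := by clear * - b5 b7 b9 y16; omega
              have kk2593 : (k3) ≤ (i + l + m + 2) := by clear * - b2 b3 v76 z208; omega
              have kk2594 : (0) ≤ (i2) := by clear * - y7; omega
              have kk2595 : (i + k + 2 * l + 2 * m + 4) ≤ (n + i2 + k3) := by clear * - v76 z206; omega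
              have kk2596 : (k + k3) ≤ (2 * i + l + 2 * m + 3) := by clear * - v76; omega
              have r2597 : (n + i2 + 2 * k3 - k - l - 2 * m - 3) % 2 = 0 := by clear * - ev n1p n2p n3p; omega
              have r2598 : (k + k3 - 2 * i - l - m - 2) % 2 = 0 := by clear * - ev n1p n2p n3p; omega
              clear * - al b tt D2 kk2583 kk2584 kk2585 kk2586 kk2587 kk2588 kk2589 kk2590 kk2591 kk2592 kk2593 kk2594 kk2595 kk2596 r2597 r2598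
              exact midP al (k + k3 - 2 * i - l - m - 2) (n + i2 + 2 * k3 - k - l - 2 * m - 3) (n + i + i2 + k3 - 2 * k - l - m - 1) (2 * i + l + m - k + 3) (k + k3 - i - m - 1) (by omega) (fun t h1 h2 => (cI (cE (cE (qf b al 0 t (t + (k - i)) (by omega)) (pb D2 al 0 (t + (k - i)) (t + (k + l + m - k3 + 2)) (by omega))) (pb D2 al 0 (t + (k + l + m - k3 + 2)) (t + (i + k + 2 * l + 2 * m - 2 * k3 + 4)) (by omega))) (qa tt al 1 (t + (i + k + 2 * l + 2 * m - 2 * k3 + 4)) ((n + i2 + 2 * k3 - k - l - 2 * m - 3) - t) (by omega)))) (fun t h1 h2 => (qf (show Par W (2 * i + l + m - k + 3) (i + l + 1) (k + k3 - 2 * i - l - m - 2) from fun t h1 h2 => (cE (sh al (-1) t (t + (-n)) (by omega)) (cE (qf b al (-1) (t + (-n)) (t + (k - i)) (by omega)) (qf D2 al 0 (t + (k - i)) (t + (k + k3 - 2 * i - l - m - 2)) (by omega))))) al 0 t (t + (k + k3 - 2 * i - l - m - 2)) (by omega)))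
            · have kk2599 : (2 * i + l + m + 3) ≤ (k + k3) := by clear * - b3 v76; omega
              have kk2600 : (k + 2 * i2 + k3) ≤ (2 * i + l + 3 * m + 2) := by clear * - b5 b7 b9 z205 z207; omega
              have kk2601 : (k3) ≤ (k + l + m) := by clear * - b3 b5 b7 b9 v76; omega
              have kk2602 : (2 * n + 2 * i2 + 3 * k3) ≤ (2 * i + 3 * k + 5 * l + 5 * m + 8) := by clear * - b10 b5 b9 y16 z204 z205 z207; omega
              have kk2603 : (k) ≤ (i + l + m + 2) := by clear * - b10 b3 b5 b7 b9 v76; omega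
              have kk2604 : (k + l + 1) ≤ (n) := by clear * - b10 b3 z204 z207 z208; omega
              have kk2605 : (2 * k3) ≤ (i + k + l + m + 2) := by clear * - b5 b9 y16 z204 z205 z207; omega
              have kk2606 : (2 * i + k + 2 * l + 3 * m + 5) ≤ (n + i2 + 2 * k3) := by clear * - b10 b3 b7 b9 v76 z204 z206 z207; omega
              have kk2607 : (2 * i + 2 * l + 3 * m + 5) ≤ (n + i2 + k3) := by clear * - b10 b3 v76 z204 z207; omega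
              have kk2608 : (n + 2 * k3) ≤ (2 * i + k + 3 * l + 2 * m + 5) := by clear * - b5 b7 b9 y16; omega
              have kk2609 : (k3) ≤ (i + l + m + 2) := by clear * - b3 b5 b7 b9 v76; omega
              have kk2610 : (0) ≤ (i2) := by clear * - y7; omega
              have kk2611 : (i + k + 2 * l + 2 * m + 4) ≤ (n + i2 + k3) := by clear * - b7 v76 y17 y7; omega
              have kk2612 : (2 * i + l + 2 * m + 3) ≤ (k + k3) := by clear * - v76; omega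
              have r2613 : (n + i2 + 2 * k3 - k - l - 2 * m - 3) % 2 = 0 := by clear * - ev n1p n2p n3p; omega
              have r2614 : (k + k3 - 2 * i - l - m - 2) % 2 = 0 := by clear * - ev n1p n2p n3p; omega
              clear * - al b tt D2 kk2599 kk2600 kk2601 kk2602 kk2603 kk2604 kk2605 kk2606 kk2607 kk2608 kk2609 kk2610 kk2611 kk2612 r2613 r2614
              exact midP al (k + k3 - 2 * i - l - m - 2) (n + i2 + 2 * k3 - k - l - 2 * m - 3) (n + i2 + 2 * k3 - i - k - 2 * l - 3 * m - 4) (2 * i + l + m - k + 3) (k + k3 - i - m - 1) (by omega) (fun t h1 h2 => (cI (cE (cE (qf b al 0 t (t + (k - i)) (by omega)) (pb D2 al 0 (t + (k - i)) (t + (k + l + m - k3 + 2)) (by omega))) (pb D2 al 0 (t + (k + l + m - k3 + 2)) (t + (i + k + 2 * l + 2 * m - 2 * k3 + 4)) (by omega))) (qa tt al 1 (t + (i + k + 2 * l + 2 * m - 2 * k3 + 4)) ((n + i2 + 2 * k3 - k - l - 2 * m - 3) - t) (by omega))))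 (fun t h1 h2 => (qf (show Par W (2 * i + l + m - k + 3) (i + l + 1) (k + k3 - 2 * i - l - m - 2) from fun t h1 h2 => (cE (sh al (-1) t (t + (-n)) (by omega)) (cE (qf b al (-1) (t + (-n)) (t + (k - i)) (by omega)) (qf D2 al 0 (t + (k - i)) (t + (k + k3 - 2 * i - l - m - 2)) (by omega))))) al 0 t (t + (k + k3 - 2 * i - l - m - 2)) (by omega)))
          · have kk2615 : (i + j + l + m + 3) ≤ (k + k3) := by clear * - b5 z205 z206 z207 z208; omega
            have kk2616 : (i + j + l + m + 4) ≤ (k + k3) := by clear * - b5 z205 z206 z207 z208; omega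
            have kk2617 : (3 * i + j + 3 * l + 2 * i2 + 3 * m + 8) ≤ (3 * k + 3 * k3) := by clear * - b11 b3 b5 b9 z204 z205 z206 z207 z208; omega
            have kk2618 : (5 * i + j + 3 * l + 3 * m + 8) ≤ (3 * k + 3 * k3) := by clear * - b1 b5 z205 z206 z207 z208; omega
            have kk2619 : (k + k3) ≤ (i + j + l + i2 + m + 3) := by clear * - b7 b9 y16; omega
            have kk2620 : (k3) ≤ (i + l + m + 2) := by clear * - b2 b3 b6; omega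
            have kk2621 : (k3) ≤ (k + l + 1) := by clear * - b1 b11 b2 b5 z204 z205; omega
            have kk2622 : (2 * k + l + 1) ≤ (n + i2) := by clear * - b7; omega
            have kk2623 : (k + k3) ≤ (Q + i + l + m + 2) := by clear * - b2 b3 b6 b7 z205; omega
            have kk2624 : (i2) ≤ (i) := by clear * - y17; omega
            have r2625 : (i + j - 2 * n) % 2 = 0 := by clear * - ev n1p n2p n3p; omega
            have r2626 : (k + k3 - i - j - l - m - 2) % 2 = 0 := by clear * - ev n1p n2p n3p; omega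
            clear * - al a1 s1 c1 c2 D2 kk2615 kk2616 kk2617 kk2618 kk2619 kk2620 kk2621 kk2622 kk2623 kk2624 r2625 r2626
            exact midP al (k + k3 - i - j - l - m - 2) (i + j - 2 * n) (2 * i + j + l + m - n - k - k3 + 3) (i + j + l + i2 + m - n - k - k3 + 3) (k + k3 - n - i - l - m - 2) (by omega) (fun t h1 h2 => (cE (qa s1 al (-1) t ((i + j - n) - t) (by omega)) (sh al (-1) ((i + j - n) - t) ((i + j - 2 * n) - t) (by omega)))) (fun t h1 h2 => (cE (cE (cE (cE (qf a1 al (-1) t (t + (n + k - j)) (by omega)) (pb c2 al 0 (t + (n + k - j)) (t + (n + 2 * k + l - j - i2 + 1)) (by omega))) (qf D2 al 0 (t + (n + 2 * k + l - j - i2 + 1)) (t + (n + 2 * k + k3 - i - j - i2 - m - 1)) (by omega))) (pb c1 al 0 (t + (n + 2 * k + k3 - i - j - i2 - m - 1)) (t + (n + k + k3 - i - j - l - m - 2)) (by omega))) (sh al (-1) (t + (n + k + k3 - i - j - l - m - 2)) (t + (k + k3 - i - j - l - m - 2))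 (by omega))))
  · have kk2627 : (k + l + m + 3) ≤ (n + i2) := by clear * - b1 b2 b3 b4 b5 b7 b8 b9; omega
    have kk2628 : (i2) ≤ (m) := by clear * - y10; omega
    have kk2629 : (i + 1) ≤ (k) := by clear * - b4 b5 b7 b8 b9 y16; omega
    have kk2630 : (0) ≤ (l) := by clear * - b2 b3 b6 y18; omega
    have kk2631 : (i + k + l + m + 3) ≤ (n + 2 * i2) := by clear * - b2 b4 b5 b7 b8 b9 y16; omega
    have kk2632 : (n + 2 * i2) ≤ (2 * k + 2 * l + m + 2) := by clear * - b10 b4 b5 b6 b7 b8 b9 y16; omega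
    have kk2633 : (i + 1) ≤ (k3) := by clear * - b3 y18; omega
    have kk2634 : (k3) ≤ (k + l) := by clear * - b2 b4 b5 b6 b7 b8 b9 y16; omega
    have kk2635 : (2 * k + l + 1) ≤ (n + i2) := by clear * - b7; omega
    have kk2636 : (n + Q + i2) ≤ (k + l + m + k3 + 3) := by clear * - z204; omega
    have kk2637 : (i2) ≤ (m + 1) := by clear * - y10; omega
    have kk2638 : (k + l + m + 2) ≤ (n + i2) := by clear * - b1 b2 b3 b4 b5 b7 b8 b9; omega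
    have kk2639 : (0) ≤ (i2) := by clear * - y7; omega
    have kk2640 : (n + i + i2) ≤ (k + l + m + k3 + 2) := by clear * - b11 y16; omega
    have kk2641 : (i2) ≤ (i) := by clear * - y17; omega
    have kk2642 : (k3) ≤ (k + l + 1) := by clear * - b2 b4 b5 b6 b7 b8 b9 y16; omega
    have kk2643 : (n + 2 * i2) ≤ (2 * k + 2 * l + m + 3) := by clear * - b10 b4 b5 b6 b7 b8 b9 y16; omega
    have kk2644 : (i + m + 1) ≤ (k) := by clear * - b2 b4 b5 b6 b8 y16; omega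
    have kk2645 : (i + k + l + m + 2) ≤ (n + 2 * i2) := by clear * - b2 b4 b5 b7 b8 b9 y16; omega
    have kk2646 : (0) ≤ (l + i2 + 1) := by clear * - b2 b3 b6 y18; omega
    have kk2647 : (n + i2) ≤ (2 * k + 2 * l + 2) := by clear * - b2 b4 b5 b6 b7 b8 b9 y16 z204; omega
    have r2648 : (k + l + m + k3 - n - 2 * i2 + 2) % 2 = 0 := by clear * - ev n1p n2p n3p; omega
    have r2649 : (k - i) % 2 = 0 := by clear * - ev n1p n2p n3p; omega
    have r2650 : (i + 2 * i2 - n - k) % 2 = 0 := by clear * - ev n1p n2p n3p; omega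
    clear * - al b c2 tt D1 n3 kk2627 kk2628 kk2629 kk2630 kk2631 kk2632 kk2633 kk2634 kk2635 kk2636 kk2637 kk2638 kk2639 kk2640 kk2641 kk2642 kk2643 kk2644 kk2645 kk2646 kk2647 r2648 r2649 r2650
    exact ivt al.ninv (i - n + 1) (i + l - n + 1) (k - i) (i - n + 1) (2 * i2 - k - l - m - 2) (k + l + m + k3 - n - 2 * i2 + 2) (2 * i2 - k - l - m - 2) (k3 - n) 0 (fun t h1 h2 => (cE (qf b al (-1) t (t + (n + k - i)) (by omega)) (sh al (-1) (t + (n + k - i)) (t + (k - i)) (by omega)))) (fun t h1 h2 => (cE (cE (pb c2 al (-1) t (t + (n + k + l - i2 + 1)) (by omega)) (pb D1 al 0 (t + (n + k + l - i2 + 1)) (t + (k + l + m + k3 - 2 * i2 + 2)) (by omega))) (sh al (-1) (t + (k + l + m + k3 - 2 * i2 + 2)) (t + (k + l + m + k3 - n - 2 * i2 + 2)) (by omega)))) (fun hh => n3.f0 (rEE (cE (qf c2 al 0 (n + i2 - m - 1) (n + 2 * i2 - k - l - m - 2) (by omega)) (sh al (-1) (n + 2 * i2 - k - l - m - 2) (2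 * i2 - k - l - m - 2) (by omega))) (sh al (-1) (k3) (k3 - n) (by omega)) (Eq.symm hh))) (by omega) (2 * i2 - k - l - m - 1) (i2 - k - l - 1) (i + 2 * i2 - n - k) 0 0 (fun t h1 h2 => (cE (cI (pb c2 al (-1) t (t + (n + k + l - i2 + 1)) (by omega)) (qa tt al 1 (t + (n + k + l - i2 + 1)) ((i + 2 * i2 - k) - t) (by omega))) (sh al (-1) ((i + 2 * i2 - k) - t) ((i + 2 * i2 - n - k) - t) (by omega)))) (by omega)

theorem h8_89p
    (h8_90 : ∀ {W : ℤ → G} {n Q i j k l i2 m k3 : ℤ} (al : AL W n Q) (hy : (0) ≤ (i) ∧ (i) ≤ (j) ∧ (j + 1) ≤ (Q) ∧ (Q) ≤ (k) ∧ (k + 1) ≤ (n) ∧ (Q) ≤ (i + l + 1) ∧ (k + l + 2) ≤ (n) ∧ (0) ≤ (i2) ∧ (i2 + 1) ≤ (Q) ∧ (Q + m + 1) ≤ (n + i2) ∧ (i2) ≤ (m) ∧ (Q) ≤ (i + l + m + 2) ∧ (i + l + m + 3) ≤ (n) ∧ (Q) ≤ (k3) ∧ (k3 + 1) ≤ (n) ∧ (i + m + 2) ≤ (k) ∧ (i) ≤ (i2) ∧ (i2) ≤ (i) ∧ (i + m + 2) ≤ (k3) ∧ (k3) ≤ (i + l + m + 1) ∧ (m + k3 + 2) ≤ (n + i2)) (a1 : Par W (0) (j) (k -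 j)) (a2 : Par W (Q + j - k) (j) (k - j)) (s1 : Ant W (0) (i) (i + j)) (s2 : Ant W (j + 1) (Q) (i + j)) (b : Par W (i + 1) (i + l + 1) (k - i)) (c1 : Par W (i2 + 1) (Q) (k + l - i2 + 1)) (c2 : Par W (k + l + 2) (n) (i2 - k - l - 1)) (tt : Ant W (i2 - m) (i2) (i + l + i2 + 1)) (D1 : Par W (Q) (k3) (n + i2 - m - k3 - 1)) (D2 : Par W (i + l + m + 3) (n) (k3 - i - l - m - 2)) {L : ℤ} (mx : ∀ a b g, 0 < g → g < n → Par W a b g → b - a ≤ L) (hL : L ≤ (n - j - 3) ∧ L ≤ (n + Q - k - 3) ∧ L ≤ (n - l - 3) ∧ L ≤ (n + i - k - 2)) (bd0 : Bd W n L (j) (i) (k)) (n1 : Nd W (j) (i) (k)) (n2 : Nd W (i + l + 1) (i2) (k + l + 1)) (n3 : Nd W (n + i2 - m - 1) (i + l + m + 2) (k3)) (b0 : (2 * l + 3) ≤ (n)) (b1 : (2 * Q + k + l) ≤ (n + 2 * j + i2)) (b2 : (m + k3) ≤ (i + l + 2 * i2 + 1)) (b3 : (1) ≤ (m)) (b4 : (i + l + i2 + m + 3) ≤ (Q + k3)) (b5 : (i + 2 * j + 1) ≤ (k)) (b6 : (2 * i2 + k3) ≤ (i + l + m + 1))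 (b7 : (2 * k + l + 2) ≤ (n + i2)) (b8 : (2 * Q + k3) ≤ (3 * i + 2 * j + l + m + 3)) (b9 : (n + i2 + k3) ≤ (2 * i + j + k + 2 * l + m + 4)) (b10 : (n + j + i2) ≤ (i + 2 * l + m + k3 + 3)) (b11 : (n + 2 * i2) ≤ (k + l + m + k3 + 1)), False)
    (h8_91 : ∀ {W : ℤ → G} {n Q i j k l i2 m k3 : ℤ} (al : AL W n Q) (hy : (0) ≤ (i) ∧ (i) ≤ (j) ∧ (j + 1) ≤ (Q) ∧ (Q) ≤ (k) ∧ (k + 1) ≤ (n) ∧ (Q) ≤ (i + l + 1) ∧ (k + l + 2) ≤ (n) ∧ (0) ≤ (i2) ∧ (i2 + 1) ≤ (Q) ∧ (Q + m + 1) ≤ (n + i2) ∧ (i2) ≤ (m) ∧ (Q) ≤ (i + l + m + 2) ∧ (i + l + m + 3) ≤ (n) ∧ (Q) ≤ (k3) ∧ (k3 + 1) ≤ (n) ∧ (i + m + 2) ≤ (k) ∧ (i) ≤ (i2) ∧ (i2) ≤ (i) ∧ (i + m + 2) ≤ (k3) ∧ (k3) ≤ (i + l + m + 1) ∧ (m + k3 + 2) ≤ (n + i2)) (a1 : Par W (0) (j) (k - j)) (a2 : Par W (Q + j - k) (j) (k - j)) (s1 : Ant W (0) (i) (i + j)) (s2 : Ant W (j + 1) (Q) (i + j)) (b : Par W (i + 1) (i + l + 1) (k - i)) (c1 : Par W (i2 + 1) (Q) (k + l - i2 + 1))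 (c2 : Par W (k + l + 2) (n) (i2 - k - l - 1)) (tt : Ant W (i2 - m) (i2) (i + l + i2 + 1)) (D1 : Par W (Q) (k3) (n + i2 - m - k3 - 1)) (D2 : Par W (i + l + m + 3) (n) (k3 - i - l - m - 2)) {L : ℤ} (mx : ∀ a b g, 0 < g → g < n → Par W a b g → b - a ≤ L) (hL : L ≤ (n - j - 3) ∧ L ≤ (n + Q - k - 3) ∧ L ≤ (n - l - 3) ∧ L ≤ (n + i - k - 2)) (bd0 : Bd W n L (j) (i) (k)) (n1 : Nd W (j) (i) (k)) (n2 : Nd W (i + l + 1) (i2) (k + l + 1)) (n3 : Nd W (n + i2 - m - 1) (i + l + m + 2) (k3)) (b0 : (2 * Q + k + l) ≤ (n + 2 * j + i2)) (b1 : (1) ≤ (m)) (b2 : (i + l + i2 + m + 3) ≤ (Q + k3)) (b3 : (i + 2 * j + 1) ≤ (k)) (b4 : (2 * i2 + k3) ≤ (i + l + m + 1)) (b5 : (2 * k + l + 2) ≤ (n + i2)) (b6 : (2 * Q + k3) ≤ (3 * i + 2 * j + l + m + 3)) (b7 : (n + i2 + k3) ≤ (2 * i + j + k + 2 * l + m + 4)) (b8 : (n + j + i2) ≤ (i + 2 * l + m + k3 + 3)) (b9 : (k + l + m + k3 + 2) ≤ (n + 2 * i2)), False)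
    {W : ℤ → G} {n Q i j k l i2 m k3 : ℤ} (al : AL W n Q)
    (hy : (0) ≤ (i) ∧ (i) ≤ (j) ∧ (j + 1) ≤ (Q) ∧ (Q) ≤ (k) ∧ (k + 1) ≤ (n) ∧ (Q) ≤ (i + l + 1) ∧ (k + l + 2) ≤ (n) ∧ (0) ≤ (i2) ∧ (i2 + 1) ≤ (Q) ∧ (Q + m + 1) ≤ (n + i2) ∧ (i2) ≤ (m) ∧ (Q) ≤ (i + l + m + 2) ∧ (i + l + m + 3) ≤ (n) ∧ (Q) ≤ (k3) ∧ (k3 + 1) ≤ (n) ∧ (i + m + 2) ≤ (k) ∧ (i) ≤ (i2) ∧ (i2) ≤ (i) ∧ (i + m + 2) ≤ (k3) ∧ (k3) ≤ (i + l + m + 1) ∧ (m + k3 + 2) ≤ (n + i2))
    (a1 : Par W (0) (j) (k - j))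
    (a2 : Par W (Q + j - k) (j) (k - j))
    (s1 : Ant W (0) (i) (i + j))
    (s2 : Ant W (j + 1) (Q) (i + j))
    (b : Par W (i + 1) (i + l + 1) (k - i))
    (c1 : Par W (i2 + 1) (Q) (k + l - i2 + 1))
    (c2 : Par W (k + l + 2) (n) (i2 - k - l - 1))
    (tt : Ant W (i2 - m) (i2) (i + l + i2 + 1))
    (D1 : Par W (Q) (k3) (n + i2 - m - k3 - 1))
    (D2 : Par W (i + l + m + 3) (n) (k3 - i - l - m - 2))
    {L : ℤ} (mx : ∀ a b g, 0 < g → g < n → Par W a b g → b - a ≤ L)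
    (hL : L ≤ (n - j - 3) ∧ L ≤ (n + Q - k - 3) ∧ L ≤ (n - l - 3) ∧ L ≤ (n + i - k - 2))
    (bd0 : Bd W n L (j) (i) (k))
    (n1 : Nd W (j) (i) (k))
    (n2 : Nd W (i + l + 1) (i2) (k + l + 1))
    (n3 : Nd W (n + i2 - m - 1) (i + l + m + 2) (k3))
    (b0 : (2 * l + 3) ≤ (n))
    (b1 : (2 * Q + k + l) ≤ (n + 2 * j + i2))
    (b2 : (m + k3) ≤ (i + l + 2 * i2 + 1))
    (b3 : (1) ≤ (m))
    (b4 : (i + l + i2 + m + 3) ≤ (Q + k3))
    (b5 : (i + 2 * j + 1) ≤ (k))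
    (b6 : (2 * i2 + k3) ≤ (i + l + m + 1))
    (b7 : (2 * k + l + 2) ≤ (n + i2))
    (b8 : (2 * Q + k3) ≤ (3 * i + 2 * j + l + m + 3))
    (b9 : (n + i2 + k3) ≤ (2 * i + j + k + 2 * l + m + 4))
    (b10 : (n + j + i2) ≤ (i + 2 * l + m + k3 + 3)) : False := by
  have ev := al.ev
  obtain ⟨y0, y1, y2, y3, y4, y5, y6, y7, y8, y9, y10, y11, y12, y13, y14, y15, y16, y17, y18, y19, y20⟩ := id hy
  have n1p := And.intro n1.p1 n1.p2
  have n2p := And.intro n2.p1 n2.p2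
  have n3p := And.intro n3.p1 n3.p2
  by_cases z203 : (n + 2 * i2) ≤ (k + l + m + k3 + 1)
  · exact h8_90 al hy a1 a2 s1 s2 b c1 c2 tt D1 D2 mx hL bd0 n1 n2 n3 (by clear * - b0; omega) (by clear * - b1; omega) (by clear * - b2; omega) (by clear * - b3; omega) (by clear * - b4; omega) (by clear * - b5; omega) (by clear * - b6; omega) (by clear * - b7; omega) (by clear * - b8; omega) (by clear * - b9; omega) (by clear * - b10; omega) (by clear * - z203; omega)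
  · exact h8_91 al hy a1 a2 s1 s2 b c1 c2 tt D1 D2 mx hL bd0 n1 n2 n3 (by clear * - b1; omega) (by clear * - b3; omega) (by clear * - b4; omega) (by clear * - b5; omega) (by clear * - b6; omega) (by clear * - b7; omega) (by clear * - b8; omega) (by clear * - b9; omega) (by clear * - b10; omega) (by clear * - z203; omega)

theorem h8_105p
    {W : ℤ → G} {n Q i j k l i2 m k3 : ℤ} (al : AL W n Q)
    (hy : (0) ≤ (i) ∧ (i) ≤ (j) ∧ (j + 1) ≤ (Q) ∧ (Q) ≤ (k) ∧ (k + 1) ≤ (n) ∧ (Q) ≤ (i + l + 1) ∧ (k + l + 2) ≤ (n) ∧ (0) ≤ (i2) ∧ (i2 + 1) ≤ (Q) ∧ (Q + m + 1) ≤ (n + i2) ∧ (i2) ≤ (m) ∧ (Q) ≤ (i + l + m + 2) ∧ (i + l + m + 3) ≤ (n) ∧ (Q) ≤ (k3) ∧ (k3 + 1) ≤ (n) ∧ (i + m + 2) ≤ (k) ∧ (i) ≤ (i2) ∧ (i2) ≤ (i) ∧ (i + m + 2) ≤ (k3) ∧ (k3) ≤ (i + l + m + 1) ∧ (m + k3 + 2) ≤ (n + i2))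
    (a1 : Par W (0) (j) (k - j))
    (a2 : Par W (Q + j - k) (j) (k - j))
    (s1 : Ant W (0) (i) (i + j))
    (s2 : Ant W (j + 1) (Q) (i + j))
    (b : Par W (i + 1) (i + l + 1) (k - i))
    (c1 : Par W (i2 + 1) (Q) (k + l - i2 + 1))
    (c2 : Par W (k + l + 2) (n) (i2 - k - l - 1))
    (tt : Ant W (i2 - m) (i2) (i + l + i2 + 1))
    (D1 : Par W (Q) (k3) (n + i2 - m - k3 - 1))
    (D2 : Par W (i + l + m + 3) (n) (k3 - i - l - m - 2))
    {L : ℤ} (mx : ∀ a b g, 0 < g → g < n → Par W a b g → b - a ≤ L)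
    (hL : L ≤ (n - j - 3) ∧ L ≤ (n + Q - k - 3) ∧ L ≤ (n - l - 3) ∧ L ≤ (n + i - k - 2))
    (bd0 : Bd W n L (j) (i) (k))
    (n1 : Nd W (j) (i) (k))
    (n2 : Nd W (i + l + 1) (i2) (k + l + 1))
    (n3 : Nd W (n + i2 - m - 1) (i + l + m + 2) (k3))
    (b0 : (2 * l + 3) ≤ (n))
    (b1 : (2 * i + j + 1) ≤ (k))
    (b2 : (m + k3) ≤ (i + l + 2 * i2 + 1))
    (b3 : (1) ≤ (m))
    (b4 : (i + l + i2 + m + 3) ≤ (Q + k3))
    (b5 : (i + k) ≤ (2 * j + 1))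
    (b6 : (2 * k + l + 2) ≤ (n + i2))
    (b7 : (n + i2 + k3) ≤ (2 * k + 2 * l + 2))
    (b8 : (n + j + i2 + k3) ≤ (i + 2 * k + 2 * l + m + 2))
    (b9 : (2 * Q + k + l) ≤ (n + i + j + i2))
    (b10 : (n + k + i2 + k3) ≤ (i + 4 * j + 2 * l + m + 4)) : False := by
  have ev := al.ev
  obtain ⟨y0, y1, y2, y3, y4, y5, y6, y7, y8, y9, y10, y11, y12, y13, y14, y15, y16, y17, y18, y19, y20⟩ := id hy
  have n1p := And.intro n1.p1 n1.p2
  have n2p := And.intro n2.p1 n2.p2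
  have n3p := And.intro n3.p1 n3.p2
  by_cases z248 : (2 * i + l + m + 3) ≤ (Q + k)
  · by_cases z249 : (4 * j + m + 2) ≤ (k + l + k3)
    · by_cases z250 : (Q + j + m + 1) ≤ (k + k3)
      · by_cases v103 : (k) ≤ (k3)
        · by_cases v104 : (k3) ≤ (j + m + 1)
          · have kk3291 : (k + k3) ≤ (i + j + l + m + 1) := by clear * - b10 b2 b4 b6 b8 v103 v104 z250; omega
            have kk3292 : (i + j + l + m + 3) ≤ (n + k + k3) := by clear * - b10 b2 b3 b4 b9 v103 v104 z249 z250; omega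
            have kk3293 : (2 * i + l + m + 3) ≤ (Q + k) := by clear * - z248; omega
            have kk3294 : (Q + j + m + 1) ≤ (k + k3) := by clear * - z250; omega
            have kk3295 : (k) ≤ (i + l + m + 2) := by clear * - b2 b4 b8 b9 v103 v104 z249; omega
            have kk3296 : (k + l + 1) ≤ (n) := by clear * - b2 b4 b8 b9 v103 v104 z249; omega
            have kk3297 : (k) ≤ (i + k3 + 1) := by clear * - v103 y17 y7; omega
            have kk3298 : (k) ≤ (k3) := by clear * - v103; omega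
            have kk3299 : (k3) ≤ (j + m + 1) := by clear * - v104; omega
            have kk3300 : (k3) ≤ (i + l + m + 2) := by clear * - b2 b4 b8 b9 v103 v104 z249; omega
            clear * - al a1 b D2 kk3291 kk3292 kk3293 kk3294 kk3295 kk3296 kk3297 kk3298 kk3299 kk3300
            exact al.ubQ (i + j + l + m - k - k3 + 2) (by omega) (by omega) fun t h1 h2 => (cE (sh al 1 t (t + (n)) (by omega)) (cE (cE (pb a1 al 1 (t + (n)) (t + (j - k)) (by omega)) (qf b al 0 (t + (j - k)) (t + (j - i)) (by omega))) (pb (show Par W (2 * i + l + m - k + 3) (i + l + 1) (k + k3 - 2 * i - l - m - 2) from fun t h1 h2 => (cE (sh al (-1) t (t + (-n)) (by omega)) (cE (qf b al (-1) (t + (-n)) (t + (k - i)) (by omega)) (qf D2 al 0 (t + (k - i)) (t + (k + k3 - 2 * i - l - m - 2)) (by omega))))) al 0 (t + (j - i)) (t + (i + j + l + m - k - k3 + 2)) (by omega))))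
          · have kk3301 : (k + k3) ≤ (i + j + l + m + 1) := by clear * - b10 b2 b3 b4 b6 b8 b9 v104 z248; omega
            have kk3302 : (i + j + l + m + 3) ≤ (n + k + k3) := by clear * - b10 b2 b3 b4 b6 b8 b9 v104 z248; omega
            have kk3303 : (2 * i + l + m + 3) ≤ (Q + k) := by clear * - z248; omega
            have kk3304 : (Q) ≤ (k) := by clear * - b8 b9 v103 z248; omega
            have kk3305 : (k) ≤ (i + l + m + 2) := by clear * - b10 b2 b3 b4 b6 b8 v104 z250; omega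
            have kk3306 : (k + l + 1) ≤ (n) := by clear * - b10 b2 b3 b4 b6 b8 b9 v104 z248; omega
            have kk3307 : (k) ≤ (i + k3 + 1) := by clear * - v103 y17 y7; omega
            have kk3308 : (k) ≤ (k3) := by clear * - v103; omega
            have kk3309 : (j + m + 1) ≤ (k3) := by clear * - v104; omega
            have kk3310 : (j) ≤ (i + l + 1) := by clear * - b10 b2 b3 b4 b6 b8 v104 z250; omega
            clear * - al a1 b D2 kk3301 kk3302 kk3303 kk3304 kk3305 kk3306 kk3307 kk3308 kk3309 kk3310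
            exact al.ubQ (i + j + l + m - k - k3 + 2) (by omega) (by omega) fun t h1 h2 => (cE (sh al 1 t (t + (n)) (by omega)) (cE (cE (pb a1 al 1 (t + (n)) (t + (j - k)) (by omega)) (qf b al 0 (t + (j - k)) (t + (j - i)) (by omega))) (pb (show Par W (2 * i + l + m - k + 3) (i + l + 1) (k + k3 - 2 * i - l - m - 2) from fun t h1 h2 => (cE (sh al (-1) t (t + (-n)) (by omega)) (cE (qf b al (-1) (t + (-n)) (t + (k - i)) (by omega)) (qf D2 al 0 (t + (k - i)) (t + (k + k3 - 2 * i - l - m - 2)) (by omega))))) al 0 (t + (j - i)) (t + (i + j + l + m - k - k3 + 2)) (by omega))))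
        · by_cases v105 : (k3) ≤ (j + m + 1)
          · have kk3311 : (k + k3) ≤ (i + j + l + m + 1) := by clear * - b10 b2 b3 b4 b6 b8 v105 z250; omega
            have kk3312 : (i + j + l + m + 3) ≤ (n + k + k3) := by clear * - b10 b2 b3 b4 b9 v103 v105 z248 z249; omega
            have kk3313 : (2 * i + l + m + 3) ≤ (Q + k3) := by clear * - b4 y16; omega
            have kk3314 : (Q + j + m + 1) ≤ (k + k3) := by clear * - z250; omega
            have kk3315 : (k) ≤ (i + l + m + 2) := by clear * - b10 b3 b6 y17 y7 z249; omega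
            have kk3316 : (k + l + 1) ≤ (n) := by clear * - b10 b2 b3 b4 b6 b8 v105 z250; omega
            have kk3317 : (0) ≤ (i + 1) := by clear * - y17 y7; omega
            have kk3318 : (k3) ≤ (k) := by clear * - v103; omega
            have kk3319 : (k3) ≤ (j + m + 1) := by clear * - v105; omega
            have kk3320 : (k3) ≤ (i + l + m + 2) := by clear * - b10 b2 b3 b4 b6 b8 v105 z250; omega
            clear * - al a1 b D2 kk3311 kk3312 kk3313 kk3314 kk3315 kk3316 kk3317 kk3318 kk3319 kk3320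
            exact al.ubQ (i + j + l + m - k - k3 + 2) (by omega) (by omega) fun t h1 h2 => (cE (sh al 1 t (t + (n)) (by omega)) (cE (cE (pb a1 al 1 (t + (n)) (t + (j - k)) (by omega)) (qf b al 0 (t + (j - k)) (t + (j - i)) (by omega))) (pb (show Par W (2 * i + l + m - k + 3) (i + l + 1) (k + k3 - 2 * i - l - m - 2) from fun t h1 h2 => (cE (sh al (-1) t (t + (-n)) (by omega)) (cE (qf b al (-1) (t + (-n)) (t + (k - i)) (by omega)) (qf D2 al 0 (t + (k - i)) (t + (k + k3 - 2 * i - l - m - 2)) (by omega))))) al 0 (t + (j - i)) (t + (i + j + l + m - k - k3 + 2)) (by omega))))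
          · have kk3321 : (k + k3) ≤ (i + j + l + m + 1) := by clear * - b10 b3 b6 b8 v103 v105; omega
            have kk3322 : (i + j + l + m + 3) ≤ (n + k + k3) := by clear * - b10 b3 b4 b6 v103 v105 z248 z249 z250; omega
            have kk3323 : (2 * i + l + m + 3) ≤ (Q + k3) := by clear * - b4 y16; omega
            have kk3324 : (Q) ≤ (k) := by clear * - b4 b8 b9 y16; omega
            have kk3325 : (k) ≤ (i + l + m + 2) := by clear * - b10 b3 b6 b8 v103 v105; omega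
            have kk3326 : (k + l + 1) ≤ (n) := by clear * - b10 b3 b4 b6 b9 v103 v105 z249; omega
            have kk3327 : (0) ≤ (i + 1) := by clear * - y17 y7; omega
            have kk3328 : (k3) ≤ (k) := by clear * - v103; omega
            have kk3329 : (j + m + 1) ≤ (k3) := by clear * - v105; omega
            have kk3330 : (j) ≤ (i + l + 1) := by clear * - b10 b3 b6 b8 v103 v105; omega
            clear * - al a1 b D2 kk3321 kk3322 kk3323 kk3324 kk3325 kk3326 kk3327 kk3328 kk3329 kk3330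
            exact al.ubQ (i + j + l + m - k - k3 + 2) (by omega) (by omega) fun t h1 h2 => (cE (sh al 1 t (t + (n)) (by omega)) (cE (cE (pb a1 al 1 (t + (n)) (t + (j - k)) (by omega)) (qf b al 0 (t + (j - k)) (t + (j - i)) (by omega))) (pb (show Par W (2 * i + l + m - k + 3) (i + l + 1) (k + k3 - 2 * i - l - m - 2) from fun t h1 h2 => (cE (sh al (-1) t (t + (-n)) (by omega)) (cE (qf b al (-1) (t + (-n)) (t + (k - i)) (by omega)) (qf D2 al 0 (t + (k - i)) (t + (k + k3 - 2 * i - l - m - 2)) (by omega))))) al 0 (t + (j - i)) (t + (i + j + l + m - k - k3 + 2)) (by omega))))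
      · by_cases v106 : (n + 2 * k3) ≤ (3 * i + 3 * l + 3 * m + 6)
        · have kk3331 : (3 * i + 3 * l + i2 + 2 * m + 7) ≤ (n + 2 * k3) := by clear * - b1 b4 b9; omega
          have kk3332 : (3 * i + 3 * l + 2 * m + 6) ≤ (n + i2 + 2 * k3) := by clear * - b4 b8 b9 v106 y16 z248 z249; omega
          have kk3333 : (k3) ≤ (i + l + m + 2) := by clear * - b4 b5 b9 v106 z248 z249; omega
          have kk3334 : (n + 2 * k3) ≤ (3 * i + 3 * l + 3 * m + 6) := by clear * - v106; omega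
          have kk3335 : (k3) ≤ (i + l + 1) := by clear * - b10 b2 b4 b8 b9 z248 z249 z250; omega
          have kk3336 : (2 * k3) ≤ (2 * i + 2 * l + m + 3) := by clear * - b10 b4 b9 v106 z248 z249 z250; omega
          have r3337 : (3 * i + 3 * l + i2 + 2 * m - 3 * n - 2 * k3 + 5) % 2 = 0 := by clear * - ev n1p n2p n3p; omega
          clear * - al tt D2 kk3331 kk3332 kk3333 kk3334 kk3335 kk3336 r3337
          obtain ⟨t, ht⟩ : ∃ t, 2 * t = (3 * i + 3 * l + i2 + 2 * m - 3 * n - 2 * k3 + 5) := ⟨(3 * i + 3 * l + i2 + 2 * m - 3 * n - 2 * k3 + 5) / 2, by omega⟩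
          exact al.ninv t (cE (cE (cE (qa tt al (-1) t ((i + l + i2 - n + 1) - t) (by omega)) (pb D2 al 0 ((i + l + i2 - n + 1) - t) ((2 * i + 2 * l + i2 + m - n - k3 + 3) - t) (by omega))) (pb D2 al 0 ((2 * i + 2 * l + i2 + m - n - k3 + 3) - t) ((3 * i + 3 * l + i2 + 2 * m - n - 2 * k3 + 5) - t) (by omega))) (sh al (-2) ((3 * i + 3 * l + i2 + 2 * m - n - 2 * k3 + 5) - t) t (by omega)))
        · have kk3338 : (n + i2 + 2 * k3) ≤ (3 * i + 3 * l + 4 * m + 5) := by clear * - b8 b9 y13 y17 y7 z249 z250; omega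
          have kk3339 : (3 * i + 3 * l + 2 * m + 6) ≤ (n + i2 + 2 * k3) := by clear * - b3 v106 y7; omega
          have kk3340 : (k3) ≤ (i + l + m + 2) := by clear * - b10 b2 b3 b4 b8 b9 v106 z249 z250; omega
          have kk3341 : (3 * i + 3 * l + 3 * m + 6) ≤ (n + 2 * k3) := by clear * - v106; omega
          have kk3342 : (k3) ≤ (i + l + 1) := by clear * - b10 b2 b4 b8 b9 z248 z249 z250; omega
          have kk3343 : (2 * k3) ≤ (2 * i + 2 * l + m + 3) := by clear * - b10 b2 b3 b4 b8 b9 v106 z249 z250; omega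
          have r3344 : (3 * i + 3 * l + i2 + 2 * m - 3 * n - 2 * k3 + 5) % 2 = 0 := by clear * - ev n1p n2p n3p; omega
          clear * - al tt D2 kk3338 kk3339 kk3340 kk3341 kk3342 kk3343 r3344
          obtain ⟨t, ht⟩ : ∃ t, 2 * t = (3 * i + 3 * l + i2 + 2 * m - 3 * n - 2 * k3 + 5) := ⟨(3 * i + 3 * l + i2 + 2 * m - 3 * n - 2 * k3 + 5) / 2, by omega⟩
          exact al.ninv t (cE (cE (cE (qa tt al (-1) t ((i + l + i2 - n + 1) - t) (by omega)) (pb D2 al 0 ((i + l + i2 - n + 1) - t) ((2 * i + 2 * l + i2 + m - n - k3 + 3) - t) (by omega))) (pb D2 al 0 ((2 * i + 2 * l + i2 + m - n - k3 + 3) - t) ((3 * i + 3 * l + i2 + 2 * m - n - 2 * k3 + 5) - t) (by omega))) (sh al (-2) ((3 * i + 3 * l + i2 + 2 * m - n - 2 * k3 + 5) - t) t (by omega)))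
    · by_cases z251 : (i + 2 * l + m + k3 + 4) ≤ (n + j + i2)
      · by_cases v107 : (n + i + j + i2) ≤ (Q + k + l + k3 + 1)
        · have kk3345 : (j + 2 * k + k3 + 1) ≤ (n + i + i2 + m) := by clear * - b6 b8; omega
          have kk3346 : (i + 2 * l + m + k3 + 4) ≤ (n + j + i2) := by clear * - z251; omega
          have kk3347 : (k) ≤ (i + l + m + 2) := by clear * - b2 b4 b6 b8 b9 v107 z249 z251; omega
          have kk3348 : (k + l + 1) ≤ (n) := by clear * - b2 b4 b6 b8 b9 v107 z249 z251; omega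
          have kk3349 : (0) ≤ (i) := by clear * - y17 y7; omega
          have kk3350 : (n + i + i2 + m) ≤ (2 * k + l + k3) := by clear * - b2 b4 b6 b7 b8 b9 v107 z249 z251; omega
          have kk3351 : (n + i + j + i2) ≤ (Q + k + l + k3 + 1) := by clear * - v107; omega
          have kk3352 : (i2) ≤ (k3) := by clear * - b2 b4 b6 b8 b9 v107 z249 z251; omega
          have r3353 : (3 * n + 3 * i + j + i2 + m - 2 * k - k3 + 1) % 2 = 0 := by clear * - ev n1p n2p n3p; omega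
          clear * - al s2 b c2 D2 kk3345 kk3346 kk3347 kk3348 kk3349 kk3350 kk3351 kk3352 r3353
          obtain ⟨t, ht⟩ : ∃ t, 2 * t = (3 * n + 3 * i + j + i2 + m - 2 * k - k3 + 1) := ⟨(3 * n + 3 * i + j + i2 + m - 2 * k - k3 + 1) / 2, by omega⟩
          exact al.ninv t (cE (cE (cE (qa s2 al 1 t ((n + i + j) - t) (by omega)) (qf c2 al (-1) ((n + i + j) - t) ((2 * n + i + j + i2 - k - l - 1) - t) (by omega))) (pb (show Par W (2 * i + l + m - k + 3) (i + l + 1) (k + k3 - 2 * i - l - m - 2) from fun t h1 h2 => (cE (sh al (-1) t (t + (-n)) (by omega)) (cE (qf b al (-1) (t + (-n)) (t + (k - i)) (by omega)) (qf D2 al 0 (t + (k - i)) (t + (k + k3 - 2 * i - l - m - 2)) (by omega))))) al 0 ((2 * n + i + j + i2 - k - l - 1) - t) ((2 * n + 3 * i + j + i2 + m - 2 * k - k3 + 1) - t) (by omega))) (sh al 1 ((2 * n + 3 * i + j + i2 + m - 2 * k - k3 + 1) - t) t (by omega)))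
        · have kk3354 : (j + 2 * k + k3 + 1) ≤ (n + i + i2 + m) := by clear * - b6 b8; omega
          have kk3355 : (n + 3 * i + j + i2 + m + 2) ≤ (2 * Q + 2 * k + k3) := by clear * - b4 b8 y16; omega
          have kk3356 : (k) ≤ (i + l + m + 2) := by clear * - b2 b4 b6 b8 y13 y16 z249; omega
          have kk3357 : (k + l + 1) ≤ (n) := by clear * - b1 b10 b2 b3 b4 b6 b8 b9; omega
          have kk3358 : (0) ≤ (i) := by clear * - y17 y7; omega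
          have kk3359 : (n + i + i2 + m) ≤ (2 * k + l + k3) := by clear * - b2 b4 b5 b8 y13 z248; omega
          have kk3360 : (Q + k + l + 1) ≤ (n + i + j) := by clear * - b10 b2 b3 b4 b6 b7 b8 b9; omega
          have kk3361 : (Q + k + l + k3 + 1) ≤ (n + i + j + i2) := by clear * - v107; omega
          have r3362 : (3 * n + 3 * i + j + i2 + m - 2 * k - k3 + 1) % 2 = 0 := by clear * - ev n1p n2p n3p; omega
          clear * - al s2 b c2 D2 kk3354 kk3355 kk3356 kk3357 kk3358 kk3359 kk3360 kk3361 r3362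
          obtain ⟨t, ht⟩ : ∃ t, 2 * t = (3 * n + 3 * i + j + i2 + m - 2 * k - k3 + 1) := ⟨(3 * n + 3 * i + j + i2 + m - 2 * k - k3 + 1) / 2, by omega⟩
          exact al.ninv t (cE (cE (cE (qa s2 al 1 t ((n + i + j) - t) (by omega)) (qf c2 al (-1) ((n + i + j) - t) ((2 * n + i + j + i2 - k - l - 1) - t) (by omega))) (pb (show Par W (2 * i + l + m - k + 3) (i + l + 1) (k + k3 - 2 * i - l - m - 2) from fun t h1 h2 => (cE (sh al (-1) t (t + (-n)) (by omega)) (cE (qf b al (-1) (t + (-n)) (t + (k - i)) (by omega)) (qf D2 al 0 (t + (k - i)) (t + (k + k3 - 2 * i - l - m - 2)) (by omega))))) al 0 ((2 * n + i + j + i2 - k - l - 1) - t) ((2 * n + 3 * i + j + i2 + m - 2 * k - k3 + 1) - t) (by omega))) (sh al 1 ((2 * n + 3 * i + j + i2 + m - 2 * k - k3 + 1) - t) t (by omega)))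
      · have kk3363 : (3 * i + 3 * l + i2 + 2 * m + 7) ≤ (n + 2 * k3) := by clear * - b1 b4 b9; omega
        have kk3364 : (n + i2 + 2 * k3) ≤ (3 * i + 3 * l + 4 * m + 6) := by clear * - b4 b6 b8 b9 y7 z248 z249 z251; omega
        have kk3365 : (k3) ≤ (i + l + 1) := by clear * - b2 b4 b6 b7 b8 b9 z248 z249 z251; omega
        have kk3366 : (0) ≤ (i2) := by clear * - y7; omega
        have kk3367 : (2 * i + 2 * l + 2 * m + 4) ≤ (n + k3) := by clear * - b2 b4 b6 b7 b8 b9 z248 z249 z251; omega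
        have kk3368 : (i + l + 2 * m + 3) ≤ (n + i2) := by clear * - b10 b2 b4 b6 b8 b9 z248 z249 z251; omega
        have r3369 : (n + i + l + i2 + 1) % 2 = 0 := by clear * - ev n1p n2p n3p; omega
        clear * - al tt D2 kk3363 kk3364 kk3365 kk3366 kk3367 kk3368 r3369
        obtain ⟨t, ht⟩ : ∃ t, 2 * t = (n + i + l + i2 + 1) := ⟨(n + i + l + i2 + 1) / 2, by omega⟩
        exact al.ninv t (cE (cI (qf D2 al 0 t (t + (k3 - i - l - m - 2)) (by omega)) (ab tt al 0 (t + (k3 - i - l - m - 2)) ((2 * i + 2 * l + i2 + m - k3 + 3) - t) (by omega))) (qf D2 al (-1) ((2 * i + 2 * l + i2 + m - k3 + 3) - t) t (by omega)))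
  · by_cases z252 : (2 * i + 2 * l + m + 3) ≤ (n + i2)
    · have kk3370 : (k3) ≤ (i + l + m + 1) := by clear * - b10 b2 b3 b4 b6 b8 z248 z252; omega
      have kk3371 : (i2) ≤ (i + l) := by clear * - b10 b2 b3 b4 b6 b7 b8 z248 z252; omega
      have kk3372 : (2 * i + 2 * l + m + 3) ≤ (n + i2) := by clear * - z252; omega
      have kk3373 : (k + i2 + 1) ≤ (i + k3) := by clear * - b4 z248; omega
      have kk3374 : (i) ≤ (i2) := by clear * - y16; omega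
      have kk3375 : (n + i2) ≤ (i + k + 2 * l + 2) := by clear * - b10 b2 b4 b7 b8 b9 y16 z248 z252; omega
      have r3376 : (i + l + m - k3 + 2) % 2 = 0 := by clear * - ev n1p n2p n3p; omega
      have r3377 : (i + l - i2 + 1) % 2 = 0 := by clear * - ev n1p n2p n3p; omega
      clear * - al b c2 D2 n3 kk3370 kk3371 kk3372 kk3373 kk3374 kk3375 r3376 r3377
      exact n3.f1 (rEE (sh al (-1) (i + l + m + 2) (i + l + m - n + 2) (by omega)) (sh al (-1) (k3) (k3 - n) (by omega)) (Eq.symm (rotL (i + l + m - k3 + 2) (i + l - i2 + 1) (k3 - n) (i + l + m - n + 2) (by omega) (fun t h1 h2 => (cE (pb D2 al (-1) t (t + (n + i + l + m - k3 + 2)) (by omega)) (sh al (-1) (t + (n + i + l + m - k3 + 2)) (t + (i + l + m - k3 + 2)) (by omega)))) (fun t h1 h2 => (cE (cE (pb b al (-1) t (t + (n + i - k)) (by omega)) (pb c2 al 0 (t + (n + i - k)) (t + (n + i + l - i2 + 1)) (by omega))) (sh al (-1) (t + (n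 + i + l - i2 + 1)) (t + (i + l - i2 + 1)) (by omega)))))))
    · by_cases z253 : (i + l + m + k3 + 3) ≤ (n + 2 * i2)
      · by_cases z254 : (n + 2 * i2) ≤ (k + l + k3 + 1)
        · by_cases v108 : (n + Q + 2 * i2) ≤ (i + k + l + m + k3 + 3)
          · have kk3378 : (k) ≤ (i + l + m + 1) := by clear * - b3 b6 z252 z253 z254; omega
            have kk3379 : (i + m + 2) ≤ (k) := by clear * - z253 z254; omega
            have kk3380 : (2 * i + l + m + 3) ≤ (k + k3) := by clear * - b4 v108 y16 z253; omega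
            have kk3381 : (i + l + m + k3 + 3) ≤ (n + 2 * i2) := by clear * - z253; omega
            have kk3382 : (n + 2 * i2) ≤ (k + l + k3 + 1) := by clear * - z254; omega
            have kk3383 : (2 * k + k3 + 1) ≤ (n + i + 2 * i2) := by clear * - b6 z252 z253; omega
            have kk3384 : (k) ≤ (i + l + m + 2) := by clear * - b3 b6 z252 z253 z254; omega
            have kk3385 : (k + l + 1) ≤ (n) := by clear * - b10 b3 b4 b6 b8 v108 z252 z253; omega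
            have kk3386 : (i2) ≤ (i) := by clear * - y17; omega
            have kk3387 : (n + Q + 2 * i2) ≤ (i + k + l + m + k3 + 3) := by clear * - v108; omega
            have kk3388 : (n + 2 * i2) ≤ (i + k + 2 * l + m + 3) := by clear * - b3 b4 b7 z248; omega
            have kk3389 : (i2) ≤ (m + 1) := by clear * - b0 b4 b5 b6 b8 v108 y16; omega
            have r3390 : (k + k3 - 2 * i - l - m - 2) % 2 = 0 := by clear * - ev n1p n2p n3p; omega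
            have r3391 : (n + 2 * i2 - i - l - m - k3 - 2) % 2 = 0 := by clear * - ev n1p n2p n3p; omega
            clear * - al b c2 D1 D2 n3 kk3378 kk3379 kk3380 kk3381 kk3382 kk3383 kk3384 kk3385 kk3386 kk3387 kk3388 kk3389 r3390 r3391
            exact n3.f1 (rEE (cE (pb b al 0 (i + l + m + 2) (2 * i + l + m - k + 2) (by omega)) (sh al (-1) (2 * i + l + m - k + 2) (2 * i + l + m - n - k + 2) (by omega))) (sh al (-1) (k3) (k3 - n) (by omega)) (rotL (k + k3 - 2 * i - l - m - 2) (n + 2 * i2 - i - l - m - k3 - 2) (2 * i + l + m - n - k + 2) (k3 - n) (by omega) (fun t h1 h2 => (cE (qf (show Par W (2 * i + l + m - k + 3) (i + l + 1) (k + k3 - 2 * i - l - m - 2) from fun t h1 h2 => (cE (sh al (-1) t (t + (-n)) (by omega)) (cE (qf b al (-1) (t + (-n)) (t + (k - i)) (by omega)) (qf D2 al 0 (t + (k - i)) (t + (k + k3 - 2 * i - l - m - 2)) (by omega))))) al (-1) t (t + (n + k + k3 - 2 * i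 - l - m - 2)) (by omega)) (sh al (-1) (t + (n + k + k3 - 2 * i - l - m - 2)) (t + (k + k3 - 2 * i - l - m - 2)) (by omega)))) (fun t h1 h2 => (cE (cE (cE (qf D1 al (-1) t (t + (2 * n + i2 - m - k3 - 1)) (by omega)) (qf c2 al 0 (t + (2 * n + i2 - m - k3 - 1)) (t + (2 * n + 2 * i2 - k - l - m - k3 - 2)) (by omega))) (qf b al 0 (t + (2 * n + 2 * i2 - k - l - m - k3 - 2)) (t + (2 * n + 2 * i2 - i - l - m - k3 - 2)) (by omega))) (sh al (-1) (t + (2 * n + 2 * i2 - i - l - m - k3 - 2)) (t + (n + 2 * i2 - i - l - m - k3 - 2)) (by omega))))))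
          · have kk3392 : (k) ≤ (i + l + m + 1) := by clear * - b3 v108 z248 z254; omega
            have kk3393 : (i + m + 2) ≤ (k) := by clear * - z253 z254; omega
            have kk3394 : (2 * i + l + m + 3) ≤ (k + k3) := by clear * - b4 b8 b9 y16; omega
            have kk3395 : (i + l + m + k3 + 3) ≤ (n + 2 * i2) := by clear * - z253; omega
            have kk3396 : (n + 2 * i2) ≤ (k + l + k3 + 1) := by clear * - z254; omega
            have kk3397 : (Q + k) ≤ (2 * i + l + m + 2) := by clear * - z248; omega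
            have kk3398 : (k) ≤ (i + l + m + 2) := by clear * - b3 v108 z248 z254; omega
            have kk3399 : (k + l + 1) ≤ (n) := by clear * - b3 b4 b6 b8 b9 v108 z254; omega
            have kk3400 : (i2) ≤ (i) := by clear * - y17; omega
            have kk3401 : (i + k + l + m + k3 + 3) ≤ (n + Q + 2 * i2) := by clear * - v108; omega
            have kk3402 : (n + 2 * i2) ≤ (i + k + 2 * l + m + 3) := by clear * - b3 b4 b7 z248; omega
            have kk3403 : (i2) ≤ (m + 1) := by clear * - y10; omega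
            have r3404 : (k + k3 - 2 * i - l - m - 2) % 2 = 0 := by clear * - ev n1p n2p n3p; omega
            have r3405 : (n + 2 * i2 - i - l - m - k3 - 2) % 2 = 0 := by clear * - ev n1p n2p n3p; omega
            clear * - al b c2 D1 D2 n3 kk3392 kk3393 kk3394 kk3395 kk3396 kk3397 kk3398 kk3399 kk3400 kk3401 kk3402 kk3403 r3404 r3405
            exact n3.f1 (rEE (cE (pb b al 0 (i + l + m + 2) (2 * i + l + m - k + 2) (by omega)) (sh al (-1) (2 * i + l + m - k + 2) (2 * i + l + m - n - k + 2) (by omega))) (sh al (-1) (k3) (k3 - n) (by omega)) (rotL (k + k3 - 2 * i - l - m - 2) (n + 2 * i2 - i - l - m - k3 - 2) (2 * i + l + m - n - k + 2) (k3 - n) (by omega) (fun t h1 h2 => (cE (qf (show Par W (2 * i + l + m - k + 3) (i + l + 1) (k + k3 - 2 * i - l - m - 2) from fun t h1 h2 => (cE (sh al (-1) t (t + (-n)) (by omega)) (cE (qf b al (-1) (t + (-n)) (t + (k - i)) (by omega)) (qf D2 al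 0 (t + (k - i)) (t + (k + k3 - 2 * i - l - m - 2)) (by omega))))) al (-1) t (t + (n + k + k3 - 2 * i - l - m - 2)) (by omega)) (sh al (-1) (t + (n + k + k3 - 2 * i - l - m - 2)) (t + (k + k3 - 2 * i - l - m - 2)) (by omega)))) (fun t h1 h2 => (cE (cE (cE (qf D1 al (-1) t (t + (2 * n + i2 - m - k3 - 1)) (by omega)) (qf c2 al 0 (t + (2 * n + i2 - m - k3 - 1)) (t + (2 * n + 2 * i2 - k - l - m - k3 - 2)) (by omega))) (qf b al 0 (t + (2 * n + 2 * i2 - k - l - m - k3 - 2)) (t + (2 * n + 2 * i2 - i - l - m - k3 - 2)) (by omega))) (sh al (-1) (t + (2 * n + 2 * i2 - i - l - m - k3 - 2)) (t + (n + 2 * i2 - i - l - m - k3 - 2)) (by omega))))))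
        · have kk3406 : (2 * i + l + m + 3) ≤ (k + k3) := by clear * - b4 b8 b9 y16; omega
          have kk3407 : (2 * i + l + m + 4) ≤ (k + k3) := by clear * - b4 b8 b9 y16; omega
          have kk3408 : (4 * i + l + 3 * m + 6) ≤ (3 * k + k3) := by clear * - b4 b7 b8 b9 y16 z248 z254; omega
          have kk3409 : (2 * i + k + l + 2 * i2 + 3 * m + 6) ≤ (2 * j + 3 * k3) := by clear * - b1 b2 b4 b5 b9 z252; omega
          have kk3410 : (k) ≤ (i + l + m + 2) := by clear * - b1 b3 b4 b5 z248 z252 z253 z254; omega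
          have kk3411 : (k + l + 1) ≤ (n) := by clear * - b3 b4 b6 b7 b8 b9 z248 z253; omega
          have kk3412 : (i + j + 1) ≤ (k) := by clear * - b4 b6 b8 b9 y16; omega
          have kk3413 : (i2) ≤ (m) := by clear * - y10; omega
          have kk3414 : (k) ≤ (i + l + 1) := by clear * - b1 b10 b2 b4 b8 z248 z254; omega
          have kk3415 : (i2) ≤ (j) := by clear * - b10 b3 b4 b6 b7 b8 b9 z252 z254; omega
          have kk3416 : (i + j + k3) ≤ (2 * k + i2) := by clear * - b4 b8 b9 y16 z254; omega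
          have kk3417 : (k + k3) ≤ (2 * i + l + i2 + m + 3) := by clear * - z252 z254; omega
          have r3418 : (2 * k + l + i2 - 2 * n - j + 1) % 2 = 0 := by clear * - ev n1p n2p n3p; omega
          have r3419 : (k + k3 - 2 * i - l - m - 2) % 2 = 0 := by clear * - ev n1p n2p n3p; omega
          clear * - al a1 b tt D2 kk3406 kk3407 kk3408 kk3409 kk3410 kk3411 kk3412 kk3413 kk3414 kk3415 kk3416 kk3417 r3418 r3419
          exact midP al (k + k3 - 2 * i - l - m - 2) (2 * k + l + i2 - 2 * n - j + 1) (i + k + l + i2 + m - n - j - k3 + 3) (2 * i + l + m - n - k + 3) (k + k3 - n - i - m - 1) (by omega) (fun t h1 h2 => (cE (cI (cE (pb b al (-1) t (t + (n + i - k)) (by omega)) (pb a1 al 0 (t + (n + i - k)) (t + (n + i + j - 2 * k)) (by omega))) (qa tt al 0 (t + (n + i + j - 2 * k)) ((2 * k + l + i2 - n - j + 1) - t) (by omega))) (sh al (-1) ((2 * k + l + i2 - n - j + 1) - t) ((2 * k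 + l + i2 - 2 * n - j + 1) - t) (by omega)))) (fun t h1 h2 => (cE (qf (show Par W (2 * i + l + m - k + 3) (i + l + 1) (k + k3 - 2 * i - l - m - 2) from fun t h1 h2 => (cE (sh al (-1) t (t + (-n)) (by omega)) (cE (qf b al (-1) (t + (-n)) (t + (k - i)) (by omega)) (qf D2 al 0 (t + (k - i)) (t + (k + k3 - 2 * i - l - m - 2)) (by omega))))) al (-1) t (t + (n + k + k3 - 2 * i - l - m - 2)) (by omega)) (sh al (-1) (t + (n + k + k3 - 2 * i - l - m - 2)) (t + (k + k3 - 2 * i - l - m - 2)) (by omega))))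
      · have kk3420 : (n + i + 2 * i2 + 1) ≤ (k + 2 * k3) := by clear * - b4 b8 b9 y16 z253; omega
        have kk3421 : (k + 2 * k3 + 1) ≤ (2 * n + i + 2 * i2) := by clear * - b1 b10 b2 b3 b4 b6 b8 b9; omega
        have kk3422 : (Q + k + l + 1) ≤ (n + i2) := by clear * - b0 b1 b2 b6 b9 z253; omega
        have kk3423 : (k + 2 * k3 + 1) ≤ (n + Q + i + i2) := by clear * - b0 b2 b4 b5 b6 b8; omega
        have kk3424 : (m + 2 * k3 + 2) ≤ (n + Q + i2) := by clear * - b0 b2 b3 b4 b6 b7; omega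
        have kk3425 : (k3) ≤ (i + l + i2 + 1) := by clear * - b10 b2 b3 b4 b6 b7 b8 b9; omega
        clear * - al c2 D1 D2 kk3420 kk3421 kk3422 kk3423 kk3424 kk3425
        exact al.ubQ (k + 2 * k3 - n - i - 2 * i2) (by omega) (by omega) fun t h1 h2 => (cE (sh al 1 t (t + (n)) (by omega)) (cE (cE (pb c2 al 1 (t + (n)) (t + (k + l - i2 + 1)) (by omega)) (qf D2 al 0 (t + (k + l - i2 + 1)) (t + (k + k3 - i - i2 - m - 1)) (by omega))) (pb D1 al 0 (t + (k + k3 - i - i2 - m - 1)) (t + (k + 2 * k3 - n - i - 2 * i2)) (by omega))))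

theorem h8_79p
    (h8_80 : ∀ {W : ℤ → G} {n Q i j k l i2 m k3 : ℤ} (al : AL W n Q) (hy : (0) ≤ (i) ∧ (i) ≤ (j) ∧ (j + 1) ≤ (Q) ∧ (Q) ≤ (k) ∧ (k + 1) ≤ (n) ∧ (Q) ≤ (i + l + 1) ∧ (k + l + 2) ≤ (n) ∧ (0) ≤ (i2) ∧ (i2 + 1) ≤ (Q) ∧ (Q + m + 1) ≤ (n + i2) ∧ (i2) ≤ (m) ∧ (Q) ≤ (i + l + m + 2) ∧ (i + l + m + 3) ≤ (n) ∧ (Q) ≤ (k3) ∧ (k3 + 1) ≤ (n) ∧ (i + m + 2) ≤ (k) ∧ (i) ≤ (i2) ∧ (i2) ≤ (i) ∧ (i + m + 2) ≤ (k3) ∧ (k3) ≤ (i + l + m + 1) ∧ (m + k3 + 2) ≤ (n + i2)) (a1 : Par W (0) (j) (k - j)) (a2 : Par W (Q + j - k) (j) (k - j)) (s1 : Ant W (0) (i) (i + j)) (s2 : Ant W (j + 1) (Q) (i + j)) (b : Par W (i + 1) (i + l + 1) (k - i)) (c1 : Par W (i2 + 1) (Q) (k + l - i2 + 1)) (c2 : Par W (k + l + 2) (n) (i2 - k - l - 1)) (tt : Ant W (i2 - m) (i2) (i + l + i2 + 1)) (D1 : Par W (Q) (k3) (n + i2 - m - k3 - 1)) (D2 : Par W (i + l + m + 3) (n) (k3 - i - l - m - 2)) {L : ℤ} (mx : ∀ a b g, 0 < g → g <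 n → Par W a b g → b - a ≤ L) (hL : L ≤ (n - j - 3) ∧ L ≤ (n + Q - k - 3) ∧ L ≤ (n - l - 3) ∧ L ≤ (n + i - k - 2)) (bd0 : Bd W n L (j) (i) (k)) (n1 : Nd W (j) (i) (k)) (n2 : Nd W (i + l + 1) (i2) (k + l + 1)) (n3 : Nd W (n + i2 - m - 1) (i + l + m + 2) (k3)) (b0 : (2 * l + 3) ≤ (n)) (b1 : (2 * i + 2 * l + 3 * m + 5) ≤ (n + i2 + k3)) (b2 : (k + i2 + 1) ≤ (Q + j + m)) (b3 : (2 * i + j + 1) ≤ (k)) (b4 : (2 * Q + k + l) ≤ (n + 2 * j + i2)) (b5 : (m + k3) ≤ (i + l + 2 * i2 + 1)) (b6 : (1) ≤ (m)) (b7 : (i + l + i2 + m + 3) ≤ (Q + k3)) (b8 : (2 * k + l + 1) ≤ (n + j + i2)) (b9 : (n + i2) ≤ (i + k + 2 * l + m + 2)), False)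
    {W : ℤ → G} {n Q i j k l i2 m k3 : ℤ} (al : AL W n Q)
    (hy : (0) ≤ (i) ∧ (i) ≤ (j) ∧ (j + 1) ≤ (Q) ∧ (Q) ≤ (k) ∧ (k + 1) ≤ (n) ∧ (Q) ≤ (i + l + 1) ∧ (k + l + 2) ≤ (n) ∧ (0) ≤ (i2) ∧ (i2 + 1) ≤ (Q) ∧ (Q + m + 1) ≤ (n + i2) ∧ (i2) ≤ (m) ∧ (Q) ≤ (i + l + m + 2) ∧ (i + l + m + 3) ≤ (n) ∧ (Q) ≤ (k3) ∧ (k3 + 1) ≤ (n) ∧ (i + m + 2) ≤ (k) ∧ (i) ≤ (i2) ∧ (i2) ≤ (i) ∧ (i + m + 2) ≤ (k3) ∧ (k3) ≤ (i + l + m + 1) ∧ (m + k3 + 2) ≤ (n + i2))
    (a1 : Par W (0) (j) (k - j))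
    (a2 : Par W (Q + j - k) (j) (k - j))
    (s1 : Ant W (0) (i) (i + j))
    (s2 : Ant W (j + 1) (Q) (i + j))
    (b : Par W (i + 1) (i + l + 1) (k - i))
    (c1 : Par W (i2 + 1) (Q) (k + l - i2 + 1))
    (c2 : Par W (k + l + 2) (n) (i2 - k - l - 1))
    (tt : Ant W (i2 - m) (i2) (i + l + i2 + 1))
    (D1 : Par W (Q) (k3) (n + i2 - m - k3 - 1))
    (D2 : Par W (i + l + m + 3) (n) (k3 - i - l - m - 2))
    {L : ℤ} (mx : ∀ a b g, 0 < g → g < n → Par W a b g → b - a ≤ L)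
    (hL : L ≤ (n - j - 3) ∧ L ≤ (n + Q - k - 3) ∧ L ≤ (n - l - 3) ∧ L ≤ (n + i - k - 2))
    (bd0 : Bd W n L (j) (i) (k))
    (n1 : Nd W (j) (i) (k))
    (n2 : Nd W (i + l + 1) (i2) (k + l + 1))
    (n3 : Nd W (n + i2 - m - 1) (i + l + m + 2) (k3))
    (b0 : (2 * l + 3) ≤ (n))
    (b1 : (2 * i + 2 * l + 3 * m + 5) ≤ (n + i2 + k3))
    (b2 : (k + i2 + 1) ≤ (Q + j + m))
    (b3 : (2 * i + j + 1) ≤ (k))
    (b4 : (2 * Q + k + l) ≤ (n + 2 * j + i2))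
    (b5 : (m + k3) ≤ (i + l + 2 * i2 + 1))
    (b6 : (1) ≤ (m))
    (b7 : (i + l + i2 + m + 3) ≤ (Q + k3))
    (b8 : (2 * k + l + 1) ≤ (n + j + i2)) : False := by
  have ev := al.ev
  obtain ⟨y0, y1, y2, y3, y4, y5, y6, y7, y8, y9, y10, y11, y12, y13, y14, y15, y16, y17, y18, y19, y20⟩ := id hy
  have n1p := And.intro n1.p1 n1.p2
  have n2p := And.intro n2.p1 n2.p2
  have n3p := And.intro n3.p1 n3.p2
  by_cases z192 : (i + k + 2 * l + m + 3) ≤ (n + i2)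
  · have kk2441 : (k3) ≤ (i + l + m + 1) := by clear * - y19; omega
    have kk2442 : (i2) ≤ (k + l) := by clear * - b6 y15 y17 y18 y19; omega
    have kk2443 : (i + k + 2 * l + m + 3) ≤ (n + i2) := by clear * - z192; omega
    have kk2444 : (i2 + 1) ≤ (k3) := by clear * - b6 y17 y18; omega
    have r2445 : (i + l + m - k3 + 2) % 2 = 0 := by clear * - ev n1p n2p n3p; omega
    have r2446 : (k + l - i2 + 1) % 2 = 0 := by clear * - ev n1p n2p n3p; omega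
    clear * - al c2 D2 n3 kk2441 kk2442 kk2443 kk2444 r2445 r2446
    exact n3.f1 (rEE (sh al 1 (i + l + m + 2) (n + i + l + m + 2) (by omega)) (sh al 1 (k3) (n + k3) (by omega)) (Eq.symm (rotL (i + l + m - k3 + 2) (k + l - i2 + 1) (n + k3) (n + i + l + m + 2) (by omega) (fun t h1 h2 => (cE (pb D2 al 1 t (t + (i + l + m - n - k3 + 2)) (by omega)) (sh al 1 (t + (i + l + m - n - k3 + 2)) (t + (i + l + m - k3 + 2)) (by omega)))) (fun t h1 h2 => (cE (pb c2 al 1 t (t + (k + l - n - i2 + 1)) (by omega)) (sh al 1 (t + (k + l - n - i2 + 1)) (t + (k + l - i2 + 1)) (by omega)))))))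
  · exact h8_80 al hy a1 a2 s1 s2 b c1 c2 tt D1 D2 mx hL bd0 n1 n2 n3 (by clear * - b0; omega) (by clear * - b1; omega) (by clear * - b2; omega) (by clear * - b3; omega) (by clear * - b4; omega) (by clear * - b5; omega) (by clear * - b6; omega) (by clear * - b7; omega) (by clear * - b8; omega) (by clear * - z192; omega)

theorem h9_27p
    (h9_28 : ∀ {W : ℤ → G} {n Q i j k l i2 m k3 : ℤ} (al : AL W n Q) (hy : (0) ≤ (i) ∧ (i) ≤ (j) ∧ (j + 1) ≤ (Q) ∧ (Q) ≤ (k) ∧ (k + 1) ≤ (n) ∧ (Q) ≤ (i + l + 1) ∧ (k + l + 2) ≤ (n) ∧ (0) ≤ (i2) ∧ (i2 + 1) ≤ (Q) ∧ (Q + m + 1) ≤ (n + i2) ∧ (i2) ≤ (m) ∧ (Q) ≤ (i + l + m + 2) ∧ (i + l + m + 3) ≤ (n) ∧ (Q) ≤ (k3) ∧ (k3 + 1) ≤ (n) ∧ (i + m + 2) ≤ (k) ∧ (i) ≤ (i2) ∧ (i2) ≤ (i) ∧ (i + m + 1) ≤ (k3) ∧ (k3) ≤ (i + m + 1) ∧ (k3) ≤ (i + l + m + 1) ∧ (m + k3 + 2) ≤ (n + i2)) (a1 : Par W (0) (j) (k - j)) (a2 : Par W (Q + j - k) (j) (k - j)) (s1 : Ant W (0) (i) (i +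 j)) (s2 : Ant W (j + 1) (Q) (i + j)) (b : Par W (i + 1) (i + l + 1) (k - i)) (c1 : Par W (i2 + 1) (Q) (k + l - i2 + 1)) (c2 : Par W (k + l + 2) (n) (i2 - k - l - 1)) (tt : Ant W (i2 - m) (i2) (i + l + i2 + 1)) (D1 : Par W (Q) (k3) (n + i2 - m - k3 - 1)) (D2 : Par W (i + l + m + 3) (n) (k3 - i - l - m - 2)) {L : ℤ} (mx : ∀ a b g, 0 < g → g < n → Par W a b g → b - a ≤ L) (hL : L ≤ (n - j - 3) ∧ L ≤ (n + Q - k - 3) ∧ L ≤ (n - l - 3) ∧ L ≤ (n + i - k - 2)) (bd0 : Bd W n L (j) (i) (k)) (n1 : Nd W (j) (i) (k)) (n2 : Nd W (i + l + 1) (i2) (k + l + 1)) (n3 : Nd W (n + i2 - m - 1) (i + l + m + 2) (k3)) (d1 : ℤ) (q1 : d1 % 2 = 0) (x1 : Par W (i + 1) (k + l - d1 + 1) d1) (b0 : (2 * i + j + 1) ≤ (k)) (b1 : (n + k3) ≤ (2 * i + 2 * l + i2 + m + 4)) (b2 : (i + k) ≤ (2 * j + 1)) (b3 : (2 * k + l + 2) ≤ (n + i2)) (b4 : (3 * i + 2 * l + 3 * m + 5) ≤ (n + k + i2 + k3)) (b5 : (3 * i + 3 * l + 3 * m + d1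 + 5) ≤ (2 * n + 2 * i2 + k3)) (b6 : (2 * i + l + m + 3) ≤ (k + k3 + d1)) (b7 : (k + d1) ≤ (2 * i + l + i2 + 1)), False)
    {W : ℤ → G} {n Q i j k l i2 m k3 : ℤ} (al : AL W n Q)
    (hy : (0) ≤ (i) ∧ (i) ≤ (j) ∧ (j + 1) ≤ (Q) ∧ (Q) ≤ (k) ∧ (k + 1) ≤ (n) ∧ (Q) ≤ (i + l + 1) ∧ (k + l + 2) ≤ (n) ∧ (0) ≤ (i2) ∧ (i2 + 1) ≤ (Q) ∧ (Q + m + 1) ≤ (n + i2) ∧ (i2) ≤ (m) ∧ (Q) ≤ (i + l + m + 2) ∧ (i + l + m + 3) ≤ (n) ∧ (Q) ≤ (k3) ∧ (k3 + 1) ≤ (n) ∧ (i + m + 2) ≤ (k) ∧ (i) ≤ (i2) ∧ (i2) ≤ (i) ∧ (i + m + 1) ≤ (k3) ∧ (k3) ≤ (i + m + 1) ∧ (k3) ≤ (i + l + m + 1) ∧ (m + k3 + 2) ≤ (n + i2))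
    (a1 : Par W (0) (j) (k - j))
    (a2 : Par W (Q + j - k) (j) (k - j))
    (s1 : Ant W (0) (i) (i + j))
    (s2 : Ant W (j + 1) (Q) (i + j))
    (b : Par W (i + 1) (i + l + 1) (k - i))
    (c1 : Par W (i2 + 1) (Q) (k + l - i2 + 1))
    (c2 : Par W (k + l + 2) (n) (i2 - k - l - 1))
    (tt : Ant W (i2 - m) (i2) (i + l + i2 + 1))
    (D1 : Par W (Q) (k3) (n + i2 - m - k3 - 1))
    (D2 : Par W (i + l + m + 3) (n) (k3 - i - l - m - 2))
    {L : ℤ} (mx : ∀ a b g, 0 < g → g < n → Par W a b g → b - a ≤ L)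
    (hL : L ≤ (n - j - 3) ∧ L ≤ (n + Q - k - 3) ∧ L ≤ (n - l - 3) ∧ L ≤ (n + i - k - 2))
    (bd0 : Bd W n L (j) (i) (k))
    (n1 : Nd W (j) (i) (k))
    (n2 : Nd W (i + l + 1) (i2) (k + l + 1))
    (n3 : Nd W (n + i2 - m - 1) (i + l + m + 2) (k3))
    (d1 : ℤ) (q1 : d1 % 2 = 0) (x1 : Par W (i + 1) (k + l - d1 + 1) d1)
    (b0 : (2 * i + j + 1) ≤ (k))
    (b1 : (n + k3) ≤ (2 * i + 2 * l + i2 + m + 4))
    (b2 : (i + k) ≤ (2 * j + 1))
    (b3 : (2 * k + l + 2) ≤ (n + i2))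
    (b4 : (3 * i + 2 * l + 3 * m + 5) ≤ (n + k + i2 + k3))
    (b5 : (3 * i + 3 * l + 3 * m + d1 + 5) ≤ (2 * n + 2 * i2 + k3))
    (b6 : (2 * i + l + m + 3) ≤ (k + k3 + d1)) : False := by
  have ev := al.ev
  obtain ⟨y0, y1, y2, y3, y4, y5, y6, y7, y8, y9, y10, y11, y12, y13, y14, y15, y16, y17, y18, y19, y20, y21⟩ := id hy
  have n1p := And.intro n1.p1 n1.p2
  have n2p := And.intro n2.p1 n2.p2
  have n3p := And.intro n3.p1 n3.p2
  by_cases z38 : (k + d1) ≤ (2 * i + l + i2 + 1)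
  · exact h9_28 al hy a1 a2 s1 s2 b c1 c2 tt D1 D2 mx hL bd0 n1 n2 n3 d1 q1 x1 (by clear * - b0; omega) (by clear * - b1; omega) (by clear * - b2; omega) (by clear * - b3; omega) (by clear * - b4; omega) (by clear * - b5; omega) (by clear * - b6; omega) (by clear * - z38; omega)
  · have kk628 : (i + k + l + d1 + 2) ≤ (n + j + i2) := by clear * - b0 b1 b2 b5 y13 y17 y19 y2 ev n1p n2p n3p q1; omega
    have kk629 : (j + i2) ≤ (i + k + l + d1) := by clear * - b0 b1 b3 b5 b6 y10 y17 y18 z38; omega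
    have kk630 : (k) ≤ (i + d1) := by clear * - b1 b3 b6 y17 y18 z38; omega
    have kk631 : (j + i2 + 1) ≤ (i + d1) := by clear * - b0 b1 b3 b6 y17; omega
    have kk632 : (i + j + 1) ≤ (k) := by clear * - b0 y17 y7; omega
    have kk633 : (n + i2) ≤ (i + k + l + d1 + 1) := by clear * - b1 b6 y17 y18 z38; omega
    have kk634 : (n + i2) ≤ (i + k + 2 * l + 2) := by clear * - b0 b1 b2 b5 y10 y17 y18 z38; omega
    clear * - al a1 b c2 x1 kk628 kk629 kk630 kk631 kk632 kk633 kk634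
    exact al.ubP (n + j + i2 - i - k - l - d1 - 1) (by omega) (by omega) fun t h1 h2 => (cE (sh al 2 t (t + (2 * n)) (by omega)) (cE (cE (qf c2 al 1 (t + (2 * n)) (t + (n + i2 - k - l - 1)) (by omega)) (pb (show Par W (i + 1) (k + l - d1 + 1) (i + d1 - k) from fun t h1 h2 => (cE (sh al (-1) t (t + (-n)) (by omega)) (cE (qf x1 al (-1) (t + (-n)) (t + (d1)) (by omega)) (pb b al 0 (t + (d1)) (t + (i + d1 - k)) (by omega))))) al 0 (t + (n + i2 - k - l - 1)) (t + (n + i2 - i - l - d1 - 1)) (by omega))) (pb a1 al 0 (t + (n + i2 - i - l - d1 - 1)) (t + (n + j + i2 - i - k - l - d1 - 1)) (by omega))))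

theorem h9_17p
    (h9_18 : ∀ {W : ℤ → G} {n Q i j k l i2 m k3 : ℤ} (al : AL W n Q) (hy : (0) ≤ (i) ∧ (i) ≤ (j) ∧ (j + 1) ≤ (Q) ∧ (Q) ≤ (k) ∧ (k + 1) ≤ (n) ∧ (Q) ≤ (i + l + 1) ∧ (k + l + 2) ≤ (n) ∧ (0) ≤ (i2) ∧ (i2 + 1) ≤ (Q) ∧ (Q + m + 1) ≤ (n + i2) ∧ (i2) ≤ (m) ∧ (Q) ≤ (i + l + m + 2) ∧ (i + l + m + 3) ≤ (n) ∧ (Q) ≤ (k3) ∧ (k3 + 1) ≤ (n) ∧ (i + m + 2) ≤ (k) ∧ (i) ≤ (i2) ∧ (i2) ≤ (i) ∧ (i + m + 1) ≤ (k3) ∧ (k3) ≤ (i + m + 1) ∧ (k3) ≤ (i + l + m + 1) ∧ (m + k3 + 2) ≤ (n + i2)) (a1 : Par W (0) (j) (k - j)) (a2 : Par W (Q + j - k) (j) (k - j)) (s1 : Ant W (0) (i) (i + j)) (s2 : Ant W (j + 1) (Q) (i + j)) (b : Par W (i + 1) (i + l + 1) (k - i)) (c1 : Par W (i2 + 1) (Q) (k + l - i2 + 1)) (c2 : Par W (k + l + 2) (n) (i2 - k - l - 1)) (tt : Ant W (i2 - m) (i2) (i + l + i2 + 1)) (D1 : Par W (Q) (k3) (n + i2 - m - k3 - 1)) (D2 : Par W (i + l + m + 3) (n) (k3 - i - l - m - 2)) {L : ℤ} (mx :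 ∀ a b g, 0 < g → g < n → Par W a b g → b - a ≤ L) (hL : L ≤ (n - j - 3) ∧ L ≤ (n + Q - k - 3) ∧ L ≤ (n - l - 3) ∧ L ≤ (n + i - k - 2)) (bd0 : Bd W n L (j) (i) (k)) (n1 : Nd W (j) (i) (k)) (n2 : Nd W (i + l + 1) (i2) (k + l + 1)) (n3 : Nd W (n + i2 - m - 1) (i + l + m + 2) (k3)) (d1 : ℤ) (q1 : d1 % 2 = 0) (x1 : Par W (i + 1) (k + l - d1 + 1) d1) (b0 : (i + l + 1) ≤ (k + d1)) (b1 : (d1) ≤ (l)) (b2 : (0) ≤ (d1)) (b3 : (k + 2 * l + 3) ≤ (n + i + d1)) (b4 : (2 * i + j + 1) ≤ (k)) (b5 : (n + i2) ≤ (i + k + 2 * l + 2)) (b6 : (2 * l + 3) ≤ (n)) (b7 : (k + 2 * m + 1) ≤ (n + j)) (b8 : (i + k + 2 * m) ≤ (2 * j + 2 * k3)) (b9 : (i + i2 + m + 2) ≤ (j + k3)) (b10 : (i + l + 2 * m + 2) ≤ (n + i2)), False)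
    {W : ℤ → G} {n Q i j k l i2 m k3 : ℤ} (al : AL W n Q)
    (hy : (0) ≤ (i) ∧ (i) ≤ (j) ∧ (j + 1) ≤ (Q) ∧ (Q) ≤ (k) ∧ (k + 1) ≤ (n) ∧ (Q) ≤ (i + l + 1) ∧ (k + l + 2) ≤ (n) ∧ (0) ≤ (i2) ∧ (i2 + 1) ≤ (Q) ∧ (Q + m + 1) ≤ (n + i2) ∧ (i2) ≤ (m) ∧ (Q) ≤ (i + l + m + 2) ∧ (i + l + m + 3) ≤ (n) ∧ (Q) ≤ (k3) ∧ (k3 + 1) ≤ (n) ∧ (i + m + 2) ≤ (k) ∧ (i) ≤ (i2) ∧ (i2) ≤ (i) ∧ (i + m + 1) ≤ (k3) ∧ (k3) ≤ (i + m + 1) ∧ (k3) ≤ (i + l + m + 1) ∧ (m + k3 + 2) ≤ (n + i2))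
    (a1 : Par W (0) (j) (k - j))
    (a2 : Par W (Q + j - k) (j) (k - j))
    (s1 : Ant W (0) (i) (i + j))
    (s2 : Ant W (j + 1) (Q) (i + j))
    (b : Par W (i + 1) (i + l + 1) (k - i))
    (c1 : Par W (i2 + 1) (Q) (k + l - i2 + 1))
    (c2 : Par W (k + l + 2) (n) (i2 - k - l - 1))
    (tt : Ant W (i2 - m) (i2) (i + l + i2 + 1))
    (D1 : Par W (Q) (k3) (n + i2 - m - k3 - 1))
    (D2 : Par W (i + l + m + 3) (n) (k3 - i - l - m - 2))
    {L : ℤ} (mx : ∀ a b g, 0 < g → g < n → Par W a b g → b - a ≤ L)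
    (hL : L ≤ (n - j - 3) ∧ L ≤ (n + Q - k - 3) ∧ L ≤ (n - l - 3) ∧ L ≤ (n + i - k - 2))
    (bd0 : Bd W n L (j) (i) (k))
    (n1 : Nd W (j) (i) (k))
    (n2 : Nd W (i + l + 1) (i2) (k + l + 1))
    (n3 : Nd W (n + i2 - m - 1) (i + l + m + 2) (k3))
    (d1 : ℤ) (q1 : d1 % 2 = 0) (x1 : Par W (i + 1) (k + l - d1 + 1) d1)
    (b0 : (i + l + 1) ≤ (k + d1))
    (b1 : (d1) ≤ (l))
    (b2 : (0) ≤ (d1))
    (b3 : (k + 2 * l + 3) ≤ (n + i + d1))
    (b4 : (2 * i + j + 1) ≤ (k))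
    (b5 : (n + i2) ≤ (i + k + 2 * l + 2))
    (b6 : (2 * l + 3) ≤ (n))
    (b7 : (k + 2 * m + 1) ≤ (n + j))
    (b8 : (i + k + 2 * m) ≤ (2 * j + 2 * k3))
    (b9 : (i + i2 + m + 2) ≤ (j + k3)) : False := by
  have ev := al.ev
  obtain ⟨y0, y1, y2, y3, y4, y5, y6, y7, y8, y9, y10, y11, y12, y13, y14, y15, y16, y17, y18, y19, y20, y21⟩ := id hy
  have n1p := And.intro n1.p1 n1.p2
  have n2p := And.intro n2.p1 n2.p2
  have n3p := And.intro n3.p1 n3.p2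
  by_cases z27 : (n + i2) ≤ (i + l + 2 * m + 1)
  · have kk297 : (i + l + 3) ≤ (n + i2) := by clear * - b1 b3 b4 b5 b6 b7 y16 z27; omega
    have kk298 : (n + i2) ≤ (i + l + 2 * m + 2) := by clear * - z27; omega
    have r299 : (3 * n + i + l + i2 + 1) % 2 = 0 := by clear * - ev n1p n2p n3p q1; omega
    clear * - al tt kk297 kk298 r299
    obtain ⟨t, ht⟩ : ∃ t, 2 * t = (3 * n + i + l + i2 + 1) := ⟨(3 * n + i + l + i2 + 1) / 2, by omega⟩
    exact al.ninv t (cE (ab tt al 1 t ((n + i + l + i2 + 1) - t) (by omega)) (sh al 2 ((n + i + l + i2 + 1) - t) t (by omega)))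
  · exact h9_18 al hy a1 a2 s1 s2 b c1 c2 tt D1 D2 mx hL bd0 n1 n2 n3 d1 q1 x1 (by clear * - b0; omega) (by clear * - b1; omega) (by clear * - b2; omega) (by clear * - b3; omega) (by clear * - b4; omega) (by clear * - b5; omega) (by clear * - b6; omega) (by clear * - b7; omega) (by clear * - b8; omega) (by clear * - b9; omega) (by clear * - z27; omega)

theorem h9_40p
    (h9_41 : ∀ {W : ℤ → G} {n Q i j k l i2 m k3 : ℤ} (al : AL W n Q) (hy : (0) ≤ (i) ∧ (i) ≤ (j) ∧ (j + 1) ≤ (Q) ∧ (Q) ≤ (k) ∧ (k + 1) ≤ (n) ∧ (Q) ≤ (i + l + 1) ∧ (k + l + 2) ≤ (n) ∧ (0) ≤ (i2) ∧ (i2 + 1) ≤ (Q) ∧ (Q + m + 1) ≤ (n + i2) ∧ (i2) ≤ (m) ∧ (Q) ≤ (i + l + m + 2) ∧ (i + l + m + 3) ≤ (n) ∧ (Q) ≤ (k3) ∧ (k3 + 1) ≤ (n) ∧ (i + m + 2) ≤ (k) ∧ (i) ≤ (i2) ∧ (i2) ≤ (i) ∧ (i + m + 1) ≤ (k3) ∧ (k3) ≤ (i + m + 1) ∧ (k3) ≤ (i + l + m + 1) ∧ (m + k3 + 2) ≤ (n + i2)) (a1 : Par W (0) (j) (k - j)) (a2 : Par W (Q + j - k) (j)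 (k - j)) (s1 : Ant W (0) (i) (i + j)) (s2 : Ant W (j + 1) (Q) (i + j)) (b : Par W (i + 1) (i + l + 1) (k - i)) (c1 : Par W (i2 + 1) (Q) (k + l - i2 + 1)) (c2 : Par W (k + l + 2) (n) (i2 - k - l - 1)) (tt : Ant W (i2 - m) (i2) (i + l + i2 + 1)) (D1 : Par W (Q) (k3) (n + i2 - m - k3 - 1)) (D2 : Par W (i + l + m + 3) (n) (k3 - i - l - m - 2)) {L : ℤ} (mx : ∀ a b g, 0 < g → g < n → Par W a b g → b - a ≤ L) (hL : L ≤ (n - j - 3) ∧ L ≤ (n + Q - k - 3) ∧ L ≤ (n - l - 3) ∧ L ≤ (n + i - k - 2)) (bd0 : Bd W n L (j) (i) (k)) (n1 : Nd W (j) (i) (k)) (n2 : Nd W (i + l + 1) (i2) (k + l + 1)) (n3 : Nd W (n + i2 - m - 1) (i + l + m + 2) (k3)) (d1 : ℤ) (q1 : d1 % 2 = 0) (x1 : Par W (i + 1) (k + l - d1 + 1) d1) (b0 : (i + l + 1) ≤ (k + d1)) (b1 : (d1) ≤ (l)) (b2 : (0) ≤ (d1)) (b3 : (k + 2 * l + 3) ≤ (n + i + d1)) (b4 : (n + i2) ≤ (i + k + 2 * l + 2)) (b5 : (2 * l + 3) ≤ (n)) (b6 : (k + 2 * m + 1) ≤ (n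 + j)) (b7 : (2 * j + 2 * k3 + 1) ≤ (i + k + 2 * m)) (b8 : (2 * k + 3) ≤ (n + 2 * Q)), False)
    {W : ℤ → G} {n Q i j k l i2 m k3 : ℤ} (al : AL W n Q)
    (hy : (0) ≤ (i) ∧ (i) ≤ (j) ∧ (j + 1) ≤ (Q) ∧ (Q) ≤ (k) ∧ (k + 1) ≤ (n) ∧ (Q) ≤ (i + l + 1) ∧ (k + l + 2) ≤ (n) ∧ (0) ≤ (i2) ∧ (i2 + 1) ≤ (Q) ∧ (Q + m + 1) ≤ (n + i2) ∧ (i2) ≤ (m) ∧ (Q) ≤ (i + l + m + 2) ∧ (i + l + m + 3) ≤ (n) ∧ (Q) ≤ (k3) ∧ (k3 + 1) ≤ (n) ∧ (i + m + 2) ≤ (k) ∧ (i) ≤ (i2) ∧ (i2) ≤ (i) ∧ (i + m + 1) ≤ (k3) ∧ (k3) ≤ (i + m + 1) ∧ (k3) ≤ (i + l + m + 1) ∧ (m + k3 + 2) ≤ (n + i2))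
    (a1 : Par W (0) (j) (k - j))
    (a2 : Par W (Q + j - k) (j) (k - j))
    (s1 : Ant W (0) (i) (i + j))
    (s2 : Ant W (j + 1) (Q) (i + j))
    (b : Par W (i + 1) (i + l + 1) (k - i))
    (c1 : Par W (i2 + 1) (Q) (k + l - i2 + 1))
    (c2 : Par W (k + l + 2) (n) (i2 - k - l - 1))
    (tt : Ant W (i2 - m) (i2) (i + l + i2 + 1))
    (D1 : Par W (Q) (k3) (n + i2 - m - k3 - 1))
    (D2 : Par W (i + l + m + 3) (n) (k3 - i - l - m - 2))
    {L : ℤ} (mx : ∀ a b g, 0 < g → g < n → Par W a b g → b - a ≤ L)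
    (hL : L ≤ (n - j - 3) ∧ L ≤ (n + Q - k - 3) ∧ L ≤ (n - l - 3) ∧ L ≤ (n + i - k - 2))
    (bd0 : Bd W n L (j) (i) (k))
    (n1 : Nd W (j) (i) (k))
    (n2 : Nd W (i + l + 1) (i2) (k + l + 1))
    (n3 : Nd W (n + i2 - m - 1) (i + l + m + 2) (k3))
    (d1 : ℤ) (q1 : d1 % 2 = 0) (x1 : Par W (i + 1) (k + l - d1 + 1) d1)
    (b0 : (i + l + 1) ≤ (k + d1))
    (b1 : (d1) ≤ (l))
    (b2 : (0) ≤ (d1))
    (b3 : (k + 2 * l + 3) ≤ (n + i + d1))
    (b4 : (n + i2) ≤ (i + k + 2 * l + 2))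
    (b5 : (2 * l + 3) ≤ (n))
    (b6 : (k + 2 * m + 1) ≤ (n + j))
    (b7 : (2 * j + 2 * k3 + 1) ≤ (i + k + 2 * m)) : False := by
  have ev := al.ev
  obtain ⟨y0, y1, y2, y3, y4, y5, y6, y7, y8, y9, y10, y11, y12, y13, y14, y15, y16, y17, y18, y19, y20, y21⟩ := id hy
  have n1p := And.intro n1.p1 n1.p2
  have n2p := And.intro n2.p1 n2.p2
  have n3p := And.intro n3.p1 n3.p2
  by_cases z85 : (n + 2 * Q) ≤ (2 * k + 2)
  · have kk967 : (j + 1) ≤ (k) := by clear * - b4 b5 b7 y18 y7; omega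
    have kk968 : (k + 1) ≤ (n + j) := by clear * - b6 y13 y16 y19 y8; omega
    have kk969 : (n + Q + i) ≤ (2 * k + 1) := by clear * - y16 y8 z85; omega
    clear * - al a2 mx hL kk967 kk968 kk969
    exact absurd (mx (Q + j - k) (j) (k - j) (by omega) (by omega) fun t h1 h2 => (qf a2 al 0 t (t + (k - j)) (by omega))) (by omega)
  · exact h9_41 al hy a1 a2 s1 s2 b c1 c2 tt D1 D2 mx hL bd0 n1 n2 n3 d1 q1 x1 (by clear * - b0; omega) (by clear * - b1; omega) (by clear * - b2; omega) (by clear * - b3; omega) (by clear * - b4; omega) (by clear * - b5; omega) (by clear * - b6; omega) (by clear * - b7; omega) (by clear * - z85; omega)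

theorem h9_15p
    (h9_16 : ∀ {W : ℤ → G} {n Q i j k l i2 m k3 : ℤ} (al : AL W n Q) (hy : (0) ≤ (i) ∧ (i) ≤ (j) ∧ (j + 1) ≤ (Q) ∧ (Q) ≤ (k) ∧ (k + 1) ≤ (n) ∧ (Q) ≤ (i + l + 1) ∧ (k + l + 2) ≤ (n) ∧ (0) ≤ (i2) ∧ (i2 + 1) ≤ (Q) ∧ (Q + m + 1) ≤ (n + i2) ∧ (i2) ≤ (m) ∧ (Q) ≤ (i + l + m + 2) ∧ (i + l + m + 3) ≤ (n) ∧ (Q) ≤ (k3) ∧ (k3 + 1) ≤ (n) ∧ (i + m + 2) ≤ (k) ∧ (i) ≤ (i2) ∧ (i2) ≤ (i) ∧ (i + m + 1) ≤ (k3) ∧ (k3) ≤ (i + m + 1) ∧ (k3) ≤ (i + l + m + 1) ∧ (m + k3 + 2) ≤ (n + i2)) (a1 : Par W (0) (j) (k - j)) (a2 : Par W (Q + j - k) (j) (k - j)) (s1 : Ant W (0) (i) (i + j)) (s2 : Ant W (j + 1) (Q) (i + j)) (b : Par W (i + 1) (i + l + 1) (k - i)) (c1 : Par W (i2 + 1) (Q) (k + l - i2 + 1)) (c2 : Par W (k + l + 2) (n) (i2 - k - l - 1)) (tt : Ant W (i2 - m) (i2) (i + l + i2 + 1)) (D1 : Par W (Q) (k3) (n + i2 - m - k3 - 1)) (D2 : Par W (i + l + m + 3) (n) (k3 - i - l - m - 2)) {L : ℤ} (mx :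 ∀ a b g, 0 < g → g < n → Par W a b g → b - a ≤ L) (hL : L ≤ (n - j - 3) ∧ L ≤ (n + Q - k - 3) ∧ L ≤ (n - l - 3) ∧ L ≤ (n + i - k - 2)) (bd0 : Bd W n L (j) (i) (k)) (n1 : Nd W (j) (i) (k)) (n2 : Nd W (i + l + 1) (i2) (k + l + 1)) (n3 : Nd W (n + i2 - m - 1) (i + l + m + 2) (k3)) (d1 : ℤ) (q1 : d1 % 2 = 0) (x1 : Par W (i + 1) (k + l - d1 + 1) d1) (b0 : (i + l + 1) ≤ (k + d1)) (b1 : (d1) ≤ (l)) (b2 : (0) ≤ (d1)) (b3 : (k + 2 * l + 3) ≤ (n + i + d1)) (b4 : (2 * i + j + 1) ≤ (k)) (b5 : (n + i2) ≤ (i + k + 2 * l + 2)) (b6 : (2 * l + 3) ≤ (n)) (b7 : (k + 2 * m + 1) ≤ (n + j)) (b8 : (i + k + 2 * m) ≤ (2 * j + 2 * k3)), False)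
    (h9_40 : ∀ {W : ℤ → G} {n Q i j k l i2 m k3 : ℤ} (al : AL W n Q) (hy : (0) ≤ (i) ∧ (i) ≤ (j) ∧ (j + 1) ≤ (Q) ∧ (Q) ≤ (k) ∧ (k + 1) ≤ (n) ∧ (Q) ≤ (i + l + 1) ∧ (k + l + 2) ≤ (n) ∧ (0) ≤ (i2) ∧ (i2 + 1) ≤ (Q) ∧ (Q + m + 1) ≤ (n + i2) ∧ (i2) ≤ (m) ∧ (Q) ≤ (i + l + m + 2) ∧ (i + l + m + 3) ≤ (n) ∧ (Q) ≤ (k3) ∧ (k3 + 1) ≤ (n) ∧ (i + m + 2) ≤ (k) ∧ (i) ≤ (i2) ∧ (i2) ≤ (i) ∧ (i + m + 1) ≤ (k3) ∧ (k3) ≤ (i + m + 1) ∧ (k3) ≤ (i + l + m + 1) ∧ (m + k3 + 2) ≤ (n + i2)) (a1 : Par W (0) (j) (k - j)) (a2 : Par W (Q + j - k) (j) (k - j)) (s1 : Ant W (0) (i) (i + j)) (s2 : Ant W (j + 1) (Q) (i + j)) (b : Par W (i + 1) (i + l + 1) (k - i)) (c1 : Par W (i2 + 1) (Q) (k + l - i2 + 1)) (c2 : Par W (k + l + 2) (n) (i2 - k - l - 1)) (tt : Ant W (i2 - m) (i2) (i + l + i2 + 1)) (D1 : Par W (Q) (k3) (n + i2 - m - k3 - 1)) (D2 : Par W (i + l + m + 3) (n) (k3 - i - l - m - 2)) {L : ℤ} (mx : ∀ a b g, 0 < g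 → g < n → Par W a b g → b - a ≤ L) (hL : L ≤ (n - j - 3) ∧ L ≤ (n + Q - k - 3) ∧ L ≤ (n - l - 3) ∧ L ≤ (n + i - k - 2)) (bd0 : Bd W n L (j) (i) (k)) (n1 : Nd W (j) (i) (k)) (n2 : Nd W (i + l + 1) (i2) (k + l + 1)) (n3 : Nd W (n + i2 - m - 1) (i + l + m + 2) (k3)) (d1 : ℤ) (q1 : d1 % 2 = 0) (x1 : Par W (i + 1) (k + l - d1 + 1) d1) (b0 : (i + l + 1) ≤ (k + d1)) (b1 : (d1) ≤ (l)) (b2 : (0) ≤ (d1)) (b3 : (k + 2 * l + 3) ≤ (n + i + d1)) (b4 : (n + i2) ≤ (i + k + 2 * l + 2)) (b5 : (2 * l + 3) ≤ (n)) (b6 : (k + 2 * m + 1) ≤ (n + j)) (b7 : (2 * j + 2 * k3 + 1) ≤ (i + k + 2 * m)), False)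
    {W : ℤ → G} {n Q i j k l i2 m k3 : ℤ} (al : AL W n Q)
    (hy : (0) ≤ (i) ∧ (i) ≤ (j) ∧ (j + 1) ≤ (Q) ∧ (Q) ≤ (k) ∧ (k + 1) ≤ (n) ∧ (Q) ≤ (i + l + 1) ∧ (k + l + 2) ≤ (n) ∧ (0) ≤ (i2) ∧ (i2 + 1) ≤ (Q) ∧ (Q + m + 1) ≤ (n + i2) ∧ (i2) ≤ (m) ∧ (Q) ≤ (i + l + m + 2) ∧ (i + l + m + 3) ≤ (n) ∧ (Q) ≤ (k3) ∧ (k3 + 1) ≤ (n) ∧ (i + m + 2) ≤ (k) ∧ (i) ≤ (i2) ∧ (i2) ≤ (i) ∧ (i + m + 1) ≤ (k3) ∧ (k3) ≤ (i + m + 1) ∧ (k3) ≤ (i + l + m + 1) ∧ (m + k3 + 2) ≤ (n + i2))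
    (a1 : Par W (0) (j) (k - j))
    (a2 : Par W (Q + j - k) (j) (k - j))
    (s1 : Ant W (0) (i) (i + j))
    (s2 : Ant W (j + 1) (Q) (i + j))
    (b : Par W (i + 1) (i + l + 1) (k - i))
    (c1 : Par W (i2 + 1) (Q) (k + l - i2 + 1))
    (c2 : Par W (k + l + 2) (n) (i2 - k - l - 1))
    (tt : Ant W (i2 - m) (i2) (i + l + i2 + 1))
    (D1 : Par W (Q) (k3) (n + i2 - m - k3 - 1))
    (D2 : Par W (i + l + m + 3) (n) (k3 - i - l - m - 2))
    {L : ℤ} (mx : ∀ a b g, 0 < g → g < n → Par W a b g → b - a ≤ L)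
    (hL : L ≤ (n - j - 3) ∧ L ≤ (n + Q - k - 3) ∧ L ≤ (n - l - 3) ∧ L ≤ (n + i - k - 2))
    (bd0 : Bd W n L (j) (i) (k))
    (n1 : Nd W (j) (i) (k))
    (n2 : Nd W (i + l + 1) (i2) (k + l + 1))
    (n3 : Nd W (n + i2 - m - 1) (i + l + m + 2) (k3))
    (d1 : ℤ) (q1 : d1 % 2 = 0) (x1 : Par W (i + 1) (k + l - d1 + 1) d1)
    (b0 : (i + l + 1) ≤ (k + d1))
    (b1 : (d1) ≤ (l))
    (b2 : (0) ≤ (d1))
    (b3 : (k + 2 * l + 3) ≤ (n + i + d1))
    (b4 : (2 * i + j + 1) ≤ (k))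
    (b5 : (n + i2) ≤ (i + k + 2 * l + 2))
    (b6 : (2 * l + 3) ≤ (n))
    (b7 : (k + 2 * m + 1) ≤ (n + j)) : False := by
  have ev := al.ev
  obtain ⟨y0, y1, y2, y3, y4, y5, y6, y7, y8, y9, y10, y11, y12, y13, y14, y15, y16, y17, y18, y19, y20, y21⟩ := id hy
  have n1p := And.intro n1.p1 n1.p2
  have n2p := And.intro n2.p1 n2.p2
  have n3p := And.intro n3.p1 n3.p2
  by_cases z25 : (i + k + 2 * m) ≤ (2 * j + 2 * k3)
  · exact h9_16 al hy a1 a2 s1 s2 b c1 c2 tt D1 D2 mx hL bd0 n1 n2 n3 d1 q1 x1 (by clear * - b0; omega) (by clear * - b1; omega) (by clear * - b2; omega) (by clear * - b3; omega) (by clear * - b4; omega) (by clear * - b5; omega) (by clear * - b6; omega) (by clear * - b7; omega) (by clear * - z25; omega)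
  · exact h9_40 al hy a1 a2 s1 s2 b c1 c2 tt D1 D2 mx hL bd0 n1 n2 n3 d1 q1 x1 (by clear * - b0; omega) (by clear * - b1; omega) (by clear * - b2; omega) (by clear * - b3; omega) (by clear * - b5; omega) (by clear * - b6; omega) (by clear * - b7; omega) (by clear * - z25; omega)

theorem h9p
    (h9_1 : ∀ {W : ℤ → G} {n Q i j k l i2 m k3 : ℤ} (al : AL W n Q) (hy : (0) ≤ (i) ∧ (i) ≤ (j) ∧ (j + 1) ≤ (Q) ∧ (Q) ≤ (k) ∧ (k + 1) ≤ (n) ∧ (Q) ≤ (i + l + 1) ∧ (k + l + 2) ≤ (n) ∧ (0) ≤ (i2) ∧ (i2 + 1) ≤ (Q) ∧ (Q + m + 1) ≤ (n + i2) ∧ (i2) ≤ (m) ∧ (Q) ≤ (i + l + m + 2) ∧ (i + l + m + 3) ≤ (n) ∧ (Q) ≤ (k3) ∧ (k3 + 1) ≤ (n) ∧ (i + m + 2) ≤ (k) ∧ (i) ≤ (i2) ∧ (i2) ≤ (i) ∧ (i + m + 1) ≤ (k3) ∧ (k3) ≤ (i + m + 1) ∧ (k3) ≤ (i + l + m + 1) ∧ (m + k3 + 2) ≤ (n + i2)) (a1 : Par W (0) (j) (k - j)) (a2 : Par W (Q + j - k) (j) (k - j)) (s1 : Ant W (0) (i) (i + j)) (s2 : Ant W (j + 1) (Q) (i + j)) (b : Par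 W (i + 1) (i + l + 1) (k - i)) (c1 : Par W (i2 + 1) (Q) (k + l - i2 + 1)) (c2 : Par W (k + l + 2) (n) (i2 - k - l - 1)) (tt : Ant W (i2 - m) (i2) (i + l + i2 + 1)) (D1 : Par W (Q) (k3) (n + i2 - m - k3 - 1)) (D2 : Par W (i + l + m + 3) (n) (k3 - i - l - m - 2)) {L : ℤ} (mx : ∀ a b g, 0 < g → g < n → Par W a b g → b - a ≤ L) (hL : L ≤ (n - j - 3) ∧ L ≤ (n + Q - k - 3) ∧ L ≤ (n - l - 3) ∧ L ≤ (n + i - k - 2)) (bd0 : Bd W n L (j) (i) (k)) (n1 : Nd W (j) (i) (k)) (n2 : Nd W (i + l + 1) (i2) (k + l + 1)) (n3 : Nd W (n + i2 - m - 1) (i + l + m + 2) (k3)) (d1 : ℤ) (q1 : d1 % 2 = 0) (x1 : Par W (i + 1) (k + l - d1 + 1) d1) (b0 : (i + l + 1) ≤ (k + d1)) (b1 : (d1) ≤ (l)) (b2 : (0) ≤ (d1)), False)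
    {W : ℤ → G} {n Q i j k l i2 m k3 : ℤ} (al : AL W n Q)
    (hy : (0) ≤ (i) ∧ (i) ≤ (j) ∧ (j + 1) ≤ (Q) ∧ (Q) ≤ (k) ∧ (k + 1) ≤ (n) ∧ (Q) ≤ (i + l + 1) ∧ (k + l + 2) ≤ (n) ∧ (0) ≤ (i2) ∧ (i2 + 1) ≤ (Q) ∧ (Q + m + 1) ≤ (n + i2) ∧ (i2) ≤ (m) ∧ (Q) ≤ (i + l + m + 2) ∧ (i + l + m + 3) ≤ (n) ∧ (Q) ≤ (k3) ∧ (k3 + 1) ≤ (n) ∧ (i + m + 2) ≤ (k) ∧ (i) ≤ (i2) ∧ (i2) ≤ (i) ∧ (i + m + 1) ≤ (k3) ∧ (k3) ≤ (i + m + 1) ∧ (k3) ≤ (i + l + m + 1) ∧ (m + k3 + 2) ≤ (n + i2))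
    (a1 : Par W (0) (j) (k - j))
    (a2 : Par W (Q + j - k) (j) (k - j))
    (s1 : Ant W (0) (i) (i + j))
    (s2 : Ant W (j + 1) (Q) (i + j))
    (b : Par W (i + 1) (i + l + 1) (k - i))
    (c1 : Par W (i2 + 1) (Q) (k + l - i2 + 1))
    (c2 : Par W (k + l + 2) (n) (i2 - k - l - 1))
    (tt : Ant W (i2 - m) (i2) (i + l + i2 + 1))
    (D1 : Par W (Q) (k3) (n + i2 - m - k3 - 1))
    (D2 : Par W (i + l + m + 3) (n) (k3 - i - l - m - 2))
    {L : ℤ} (mx : ∀ a b g, 0 < g → g < n → Par W a b g → b - a ≤ L)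
    (hL : L ≤ (n - j - 3) ∧ L ≤ (n + Q - k - 3) ∧ L ≤ (n - l - 3) ∧ L ≤ (n + i - k - 2))
    (bd0 : Bd W n L (j) (i) (k))
    (n1 : Nd W (j) (i) (k))
    (n2 : Nd W (i + l + 1) (i2) (k + l + 1))
    (n3 : Nd W (n + i2 - m - 1) (i + l + m + 2) (k3)) : False := by
  have ev := al.ev
  obtain ⟨y0, y1, y2, y3, y4, y5, y6, y7, y8, y9, y10, y11, y12, y13, y14, y15, y16, y17, y18, y19, y20, y21⟩ := id hy
  have n1p := And.intro n1.p1 n1.p2
  have n2p := And.intro n2.p1 n2.p2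
  have n3p := And.intro n3.p1 n3.p2
  have kk1 : (i + 1) ≤ (k) := by clear * - y13 y15 y16 y19 y8; omega
  have kk2 : (0) ≤ (l) := by clear * - y18 y20; omega
  have r3 : (k - i) % 2 = 0 := by clear * - ev n1p n2p n3p; omega
  obtain ⟨d1, p1, x1⟩ : ∃ d1, ((l) - (k - i) < d1 ∧ d1 ≤ (l) ∧ 0 ≤ d1 ∧ d1 % 2 = 0) ∧ Par W (i + 1) ((k + l + 1) - d1) d1 := by
    clear * - al b kk1 kk2 r3
    exact jmp (k - i) (i + 1) (k + l + 1) (l) (by omega) (fun t h1 h2 => (qf b al 0 t (t + (k - i)) (by omega)))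
  replace x1 : Par W (i + 1) (k + l - d1 + 1) d1 := x1.cq (by clear * -; omega)
  exact h9_1 al hy a1 a2 s1 s2 b c1 c2 tt D1 D2 mx hL bd0 n1 n2 n3 d1 (by clear * - p1; omega) x1 (by clear * - p1; omega) (by clear * - p1; omega) (by clear * - p1; omega)

end Pool.Agent.MP_a38735_al.WL
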