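import Pool.Agent.MP_a38735_al.WT

set_option autoImplicit false
set_option linter.unusedVariables false

namespace Pool.Agent.MP_a38735_al.WL

variable {G : Type*} [Group G]

theorem ev7_5p
    (ev7_6 : ∀ {W : ℤ → G} {n Q i j k l i2 m k3 : ℤ} (al : AL W n Q) (hy : (0) ≤ (i) ∧ (i) ≤ (j) ∧ (j + 1) ≤ (Q) ∧ (Q) ≤ (k) ∧ (k + 1) ≤ (n) ∧ (Q) ≤ (i + l + 1) ∧ (k + l + 2) ≤ (n) ∧ (0) ≤ (i2) ∧ (i2 + 1) ≤ (Q) ∧ (Q + m + 1) ≤ (n + i2) ∧ (i2) ≤ (m) ∧ (Q) ≤ (i + l + m + 2) ∧ (i + l + m + 3) ≤ (n) ∧ (Q) ≤ (k3) ∧ (k3 + 1) ≤ (n) ∧ (i + m + 2) ≤ (k) ∧ (i) ≤ (i2) ∧ (i2) ≤ (i) ∧ (k3) ≤ (i + m)) (a1 : Par W (0) (j) (k - j)) (a2 : Par W (Q + j - k) (j) (k - j)) (s1 : Ant W (0) (i) (i + j)) (s2 : Ant W (j + 1) (Q) (i + j)) (b : Par W (i + 1) (i + l + 1) (k - i)) (c1 : Par W (i2 + 1) (Q) (k + l - i2 + 1)) (c2 : Par W (k + l + 2) (n) (i2 - k - l - 1)) (tt : Ant W (i2 - m) (i2) (i + l + i2 + 1)) (D1 : Par W (Q) (k3)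 (n + i2 - m - k3 - 1)) (D2 : Par W (i + l + m + 3) (n) (k3 - i - l - m - 2)) {L : ℤ} (mx : ∀ a b g, 0 < g → g < n → Par W a b g → b - a ≤ L) (hL : L ≤ (n - j - 3) ∧ L ≤ (n + Q - k - 3) ∧ L ≤ (n - l - 3) ∧ L ≤ (n + i - k - 2)) (bd0 : Bd W n L (j) (i) (k)) (n1 : Nd W (j) (i) (k)) (n2 : Nd W (i + l + 1) (i2) (k + l + 1)) (n3 : Nd W (n + i2 - m - 1) (i + l + m + 2) (k3)) (b0 : (i + l + 2 * m + 2) ≤ (n + i2)) (b1 : (2 * i + j + 1) ≤ (k)) (b2 : (i + k + l + m + 3) ≤ (n + j + k3)) (b3 : (n + i2) ≤ (i + k + 2 * l + m + 2)) (b4 : (2 * k + 3) ≤ (n + 2 * Q)) (b5 : (2 * l + 3) ≤ (n)), False)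
    {W : ℤ → G} {n Q i j k l i2 m k3 : ℤ} (al : AL W n Q)
    (hy : (0) ≤ (i) ∧ (i) ≤ (j) ∧ (j + 1) ≤ (Q) ∧ (Q) ≤ (k) ∧ (k + 1) ≤ (n) ∧ (Q) ≤ (i + l + 1) ∧ (k + l + 2) ≤ (n) ∧ (0) ≤ (i2) ∧ (i2 + 1) ≤ (Q) ∧ (Q + m + 1) ≤ (n + i2) ∧ (i2) ≤ (m) ∧ (Q) ≤ (i + l + m + 2) ∧ (i + l + m + 3) ≤ (n) ∧ (Q) ≤ (k3) ∧ (k3 + 1) ≤ (n) ∧ (i + m + 2) ≤ (k) ∧ (i) ≤ (i2) ∧ (i2) ≤ (i) ∧ (k3) ≤ (i + m))
    (a1 : Par W (0) (j) (k - j))
    (a2 : Par W (Q + j - k) (j) (k - j))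
    (s1 : Ant W (0) (i) (i + j))
    (s2 : Ant W (j + 1) (Q) (i + j))
    (b : Par W (i + 1) (i + l + 1) (k - i))
    (c1 : Par W (i2 + 1) (Q) (k + l - i2 + 1))
    (c2 : Par W (k + l + 2) (n) (i2 - k - l - 1))
    (tt : Ant W (i2 - m) (i2) (i + l + i2 + 1))
    (D1 : Par W (Q) (k3) (n + i2 - m - k3 - 1))
    (D2 : Par W (i + l + m + 3) (n) (k3 - i - l - m - 2))
    {L : ℤ} (mx : ∀ a b g, 0 < g → g < n → Par W a b g → b - a ≤ L)
    (hL : L ≤ (n - j - 3) ∧ L ≤ (n + Q - k - 3) ∧ L ≤ (n - l - 3) ∧ L ≤ (n + i - k - 2))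
    (bd0 : Bd W n L (j) (i) (k))
    (n1 : Nd W (j) (i) (k))
    (n2 : Nd W (i + l + 1) (i2) (k + l + 1))
    (n3 : Nd W (n + i2 - m - 1) (i + l + m + 2) (k3))
    (b0 : (i + l + 2 * m + 2) ≤ (n + i2))
    (b1 : (2 * i + j + 1) ≤ (k))
    (b2 : (i + k + l + m + 3) ≤ (n + j + k3))
    (b3 : (n + i2) ≤ (i + k + 2 * l + m + 2))
    (b4 : (2 * k + 3) ≤ (n + 2 * Q)) : False := by
  have ev := al.ev
  obtain ⟨y0, y1, y2, y3, y4, y5, y6, y7, y8, y9, y10, y11, y12, y13, y14, y15, y16, y17, y18⟩ := id hy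
  have n1p := And.intro n1.p1 n1.p2
  have n2p := And.intro n2.p1 n2.p2
  have n3p := And.intro n3.p1 n3.p2
  by_cases z6 : (n) ≤ (2 * l + 2)
  · have kk44 : (i + 1) ≤ (k) := by clear * - y13 y15 y16 y18 y8; omega
    have kk45 : (k + 1) ≤ (n + i) := by clear * - b0 b1 b2 b3 b4 y13 y17 y18 z6; omega
    have kk46 : (n) ≤ (2 * l + 2) := by clear * - z6; omega
    clear * - al b mx hL kk44 kk45 kk46
    exact absurd (mx (i - n + 1) (i + l - n + 1) (k - i) (by omega) (by omega) fun t h1 h2 => (cE (qf b al (-1) t (t + (n + k - i)) (by omega)) (sh al (-1) (t + (n + k - i)) (t + (k - i)) (by omega)))) (by omega)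
  · exact ev7_6 al hy a1 a2 s1 s2 b c1 c2 tt D1 D2 mx hL bd0 n1 n2 n3 (by clear * - b0; omega) (by clear * - b1; omega) (by clear * - b2; omega) (by clear * - b3; omega) (by clear * - b4; omega) (by clear * - z6; omega)

theorem h8_6p
    (h8_7 : ∀ {W : ℤ → G} {n Q i j k l i2 m k3 : ℤ} (al : AL W n Q) (hy : (0) ≤ (i) ∧ (i) ≤ (j) ∧ (j + 1) ≤ (Q) ∧ (Q) ≤ (k) ∧ (k + 1) ≤ (n) ∧ (Q) ≤ (i + l + 1) ∧ (k + l + 2) ≤ (n) ∧ (0) ≤ (i2) ∧ (i2 + 1) ≤ (Q) ∧ (Q + m + 1) ≤ (n + i2) ∧ (i2) ≤ (m) ∧ (Q) ≤ (i + l + m + 2) ∧ (i + l + m + 3) ≤ (n) ∧ (Q) ≤ (k3) ∧ (k3 + 1) ≤ (n) ∧ (i + m + 2) ≤ (k) ∧ (i) ≤ (i2) ∧ (i2) ≤ (i) ∧ (i + m + 2) ≤ (k3) ∧ (k3) ≤ (i + l + m + 1) ∧ (m + k3 + 2) ≤ (n + i2)) (a1 : Par W (0) (j) (k - j)) (a2 : Par W (Q + j - k) (j) (k - j)) (s1 : Ant W (0) (i) (i + j)) (s2 : Ant W (j + 1) (Q) (i + j)) (b : Par W (i + 1) (i + l + 1) (k - i)) (c1 : Par W (i2 + 1) (Q) (k + l - i2 + 1)) (c2 : Par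 W (k + l + 2) (n) (i2 - k - l - 1)) (tt : Ant W (i2 - m) (i2) (i + l + i2 + 1)) (D1 : Par W (Q) (k3) (n + i2 - m - k3 - 1)) (D2 : Par W (i + l + m + 3) (n) (k3 - i - l - m - 2)) {L : ℤ} (mx : ∀ a b g, 0 < g → g < n → Par W a b g → b - a ≤ L) (hL : L ≤ (n - j - 3) ∧ L ≤ (n + Q - k - 3) ∧ L ≤ (n - l - 3) ∧ L ≤ (n + i - k - 2)) (bd0 : Bd W n L (j) (i) (k)) (n1 : Nd W (j) (i) (k)) (n2 : Nd W (i + l + 1) (i2) (k + l + 1)) (n3 : Nd W (n + i2 - m - 1) (i + l + m + 2) (k3)) (b0 : (n + k3) ≤ (2 * i + 2 * l + i2 + m + 4)) (b1 : (i + l + 1) ≤ (i2 + 2 * m)) (b2 : (2 * i + j + 1) ≤ (k)) (b3 : (i + l + 2 * m + 3) ≤ (n + i2)) (b4 : (2 * i + k + 2 * l + 3 * m + k3 + 6) ≤ (2 * n + 2 * Q + j + i2)), False)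
    {W : ℤ → G} {n Q i j k l i2 m k3 : ℤ} (al : AL W n Q)
    (hy : (0) ≤ (i) ∧ (i) ≤ (j) ∧ (j + 1) ≤ (Q) ∧ (Q) ≤ (k) ∧ (k + 1) ≤ (n) ∧ (Q) ≤ (i + l + 1) ∧ (k + l + 2) ≤ (n) ∧ (0) ≤ (i2) ∧ (i2 + 1) ≤ (Q) ∧ (Q + m + 1) ≤ (n + i2) ∧ (i2) ≤ (m) ∧ (Q) ≤ (i + l + m + 2) ∧ (i + l + m + 3) ≤ (n) ∧ (Q) ≤ (k3) ∧ (k3 + 1) ≤ (n) ∧ (i + m + 2) ≤ (k) ∧ (i) ≤ (i2) ∧ (i2) ≤ (i) ∧ (i + m + 2) ≤ (k3) ∧ (k3) ≤ (i + l + m + 1) ∧ (m + k3 + 2) ≤ (n + i2))
    (a1 : Par W (0) (j) (k - j))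
    (a2 : Par W (Q + j - k) (j) (k - j))
    (s1 : Ant W (0) (i) (i + j))
    (s2 : Ant W (j + 1) (Q) (i + j))
    (b : Par W (i + 1) (i + l + 1) (k - i))
    (c1 : Par W (i2 + 1) (Q) (k + l - i2 + 1))
    (c2 : Par W (k + l + 2) (n) (i2 - k - l - 1))
    (tt : Ant W (i2 - m) (i2) (i + l + i2 + 1))
    (D1 : Par W (Q) (k3) (n + i2 - m - k3 - 1))
    (D2 : Par W (i + l + m + 3) (n) (k3 - i - l - m - 2))
    {L : ℤ} (mx : ∀ a b g, 0 < g → g < n → Par W a b g → b - a ≤ L)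
    (hL : L ≤ (n - j - 3) ∧ L ≤ (n + Q - k - 3) ∧ L ≤ (n - l - 3) ∧ L ≤ (n + i - k - 2))
    (bd0 : Bd W n L (j) (i) (k))
    (n1 : Nd W (j) (i) (k))
    (n2 : Nd W (i + l + 1) (i2) (k + l + 1))
    (n3 : Nd W (n + i2 - m - 1) (i + l + m + 2) (k3))
    (b0 : (n + k3) ≤ (2 * i + 2 * l + i2 + m + 4))
    (b1 : (i + l + 1) ≤ (i2 + 2 * m))
    (b2 : (2 * i + j + 1) ≤ (k))
    (b3 : (i + l + 2 * m + 3) ≤ (n + i2)) : False := by
  have ev := al.ev
  obtain ⟨y0, y1, y2, y3, y4, y5, y6, y7, y8, y9, y10, y11, y12, y13, y14, y15, y16, y17, y18, y19, y20⟩ := id hy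
  have n1p := And.intro n1.p1 n1.p2
  have n2p := And.intro n2.p1 n2.p2
  have n3p := And.intro n3.p1 n3.p2
  by_cases z7 : (2 * n + 2 * Q + j + i2) ≤ (2 * i + k + 2 * l + 3 * m + k3 + 5)
  · by_cases z8 : (k + i2) ≤ (j + m + k3)
    · by_cases v3 : (k) ≤ (k3)
      · have kk31 : (k + i2) ≤ (j + m + k3) := by clear * - z8; omega
        have kk32 : (j + k3 + 1) ≤ (k + i2 + m) := by clear * - b0 b1 b2 b3 y17; omega
        have kk33 : (2 * n + 2 * Q + j + i2) ≤ (2 * i + k + 2 * l + 3 * m + k3 + 5) := by clear * - z7; omega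
        have kk34 : (i2 + k3 + 1) ≤ (j + k + m) := by clear * - b0 b1 b2 b3 y1 y17; omega
        have kk35 : (k) ≤ (k3) := by clear * - v3; omega
        have kk36 : (Q) ≤ (k3 + 1) := by clear * - b3 z7 z8; omega
        have kk37 : (i + l + m + 2) ≤ (n + j) := by clear * - b0 b1 b2 b3 v3 y1 y17; omega
        have r38 : (i + l + i2 - n + 1) % 2 = 0 := by clear * - ev n1p n2p n3p; omega
        have r39 : (j + m + k3 - k - i2 + 1) % 2 = 0 := by clear * - ev n1p n2p n3p; omega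
        clear * - al a2 tt D1 kk31 kk32 kk33 kk34 kk35 kk36 kk37 r38 r39
        exact midP al (j + m + k3 - k - i2 + 1) (i + l + i2 - n + 1) (i2 - m) (Q + i2 - m - k3 - 1) (j) (by omega) (fun t h1 h2 => (cE (qa tt al 0 t ((i + l + i2 + 1) - t) (by omega)) (sh al (-1) ((i + l + i2 + 1) - t) ((i + l + i2 - n + 1) - t) (by omega)))) (fun t h1 h2 => (cE (pb D1 al (-1) t (t + (m + k3 - i2 + 1)) (by omega)) (pb a2 al 0 (t + (m + k3 - i2 + 1)) (t + (j + m + k3 - k - i2 + 1)) (by omega))))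
      · have kk40 : (k + i2) ≤ (j + m + k3) := by clear * - z8; omega
        have kk41 : (j + k3 + 1) ≤ (k + i2 + m) := by clear * - b0 b1 b2 b3 y17; omega
        have kk42 : (2 * n + 2 * Q + j + i2) ≤ (2 * i + k + 2 * l + 3 * m + k3 + 5) := by clear * - z7; omega
        have kk43 : (k + i2 + 1) ≤ (j + m + k3) := by clear * - z8 ev n1p n2p n3p; omega
        have kk44 : (k3) ≤ (k) := by clear * - v3; omega
        have kk45 : (Q) ≤ (k3 + 1) := by clear * - b3 z7 z8; omega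
        have kk46 : (i + k + l + m + 2) ≤ (n + j + k3) := by clear * - b3 z8; omega
        have r47 : (i + l + i2 - n + 1) % 2 = 0 := by clear * - ev n1p n2p n3p; omega
        have r48 : (j + m + k3 - k - i2 + 1) % 2 = 0 := by clear * - ev n1p n2p n3p; omega
        clear * - al a2 tt D1 kk40 kk41 kk42 kk43 kk44 kk45 kk46 r47 r48
        exact midP al (j + m + k3 - k - i2 + 1) (i + l + i2 - n + 1) (i2 - m) (Q + i2 - m - k3 - 1) (j + k3 - k) (by omega) (fun t h1 h2 => (cE (qa tt al 0 t ((i + l + i2 + 1) - t) (by omega)) (sh al (-1) ((i + l + i2 + 1) - t) ((i + l + i2 - n + 1) - t) (by omega)))) (fun t h1 h2 => (cE (pb D1 al (-1) t (t + (m + k3 - i2 + 1)) (by omega)) (pb a2 al 0 (t + (m + k3 - i2 + 1)) (t + (j + m + k3 - k - i2 + 1)) (by omega))))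
    · have kk49 : (i + j + l + 3) ≤ (k + i2) := by clear * - b1 y17 y18 z8; omega
      have kk50 : (i + l + i2 + 2) ≤ (j + k) := by clear * - b1 y1 y17 y18 z8; omega
      have kk51 : (k) ≤ (i + j + l + 2) := by clear * - b0 y1 y17 y18 y6; omega
      have kk52 : (k) ≤ (i + l + m + 2) := by clear * - b0 y10 y18 y6; omega
      have r53 : (i + j + l + i2 - k + 1) % 2 = 0 := by clear * - ev n1p n2p n3p; omega
      clear * - al a1 tt kk49 kk50 kk51 kk52 r53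
      obtain ⟨t, ht⟩ : ∃ t, 2 * t = (i + j + l + i2 - k + 1) := ⟨(i + j + l + i2 - k + 1) / 2, by omega⟩
      exact al.ninv t (cI (qf a1 al 0 t (t + (k - j)) (by omega)) (ab tt al 0 (t + (k - j)) t (by omega)))
  · exact h8_7 al hy a1 a2 s1 s2 b c1 c2 tt D1 D2 mx hL bd0 n1 n2 n3 (by clear * - b0; omega) (by clear * - b1; omega) (by clear * - b2; omega) (by clear * - b3; omega) (by clear * - z7; omega)

theorem h8_2p
    (h8_3 : ∀ {W : ℤ → G} {n Q i j k l i2 m k3 : ℤ} (al : AL W n Q) (hy : (0) ≤ (i) ∧ (i) ≤ (j) ∧ (j + 1) ≤ (Q) ∧ (Q) ≤ (k) ∧ (k + 1) ≤ (n) ∧ (Q) ≤ (i + l + 1) ∧ (k + l + 2) ≤ (n) ∧ (0) ≤ (i2) ∧ (i2 + 1) ≤ (Q) ∧ (Q + m + 1) ≤ (n + i2) ∧ (i2) ≤ (m) ∧ (Q) ≤ (i + l + m + 2) ∧ (i + l + m + 3) ≤ (n) ∧ (Q) ≤ (k3) ∧ (k3 + 1) ≤ (n) ∧ (i + m + 2) ≤ (k) ∧ (i) ≤ (i2) ∧ (i2) ≤ (i) ∧ (i + m + 2) ≤ (k3) ∧ (k3) ≤ (i + l + m + 1) ∧ (m + k3 + 2) ≤ (n + i2)) (a1 : Par W (0) (j) (k - j)) (a2 :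 Par W (Q + j - k) (j) (k - j)) (s1 : Ant W (0) (i) (i + j)) (s2 : Ant W (j + 1) (Q) (i + j)) (b : Par W (i + 1) (i + l + 1) (k - i)) (c1 : Par W (i2 + 1) (Q) (k + l - i2 + 1)) (c2 : Par W (k + l + 2) (n) (i2 - k - l - 1)) (tt : Ant W (i2 - m) (i2) (i + l + i2 + 1)) (D1 : Par W (Q) (k3) (n + i2 - m - k3 - 1)) (D2 : Par W (i + l + m + 3) (n) (k3 - i - l - m - 2)) {L : ℤ} (mx : ∀ a b g, 0 < g → g < n → Par W a b g → b - a ≤ L) (hL : L ≤ (n - j - 3) ∧ L ≤ (n + Q - k - 3) ∧ L ≤ (n - l - 3) ∧ L ≤ (n + i - k - 2)) (bd0 : Bd W n L (j) (i) (k)) (n1 : Nd W (j) (i) (k)) (n2 : Nd W (i + l + 1) (i2) (k + l + 1)) (n3 : Nd W (n + i2 - m - 1) (i + l + m + 2) (k3)) (b0 : (2 * l + 3) ≤ (n)) (b1 : (n + k3) ≤ (2 * i + 2 * l + i2 + m + 4)), False)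
    {W : ℤ → G} {n Q i j k l i2 m k3 : ℤ} (al : AL W n Q)
    (hy : (0) ≤ (i) ∧ (i) ≤ (j) ∧ (j + 1) ≤ (Q) ∧ (Q) ≤ (k) ∧ (k + 1) ≤ (n) ∧ (Q) ≤ (i + l + 1) ∧ (k + l + 2) ≤ (n) ∧ (0) ≤ (i2) ∧ (i2 + 1) ≤ (Q) ∧ (Q + m + 1) ≤ (n + i2) ∧ (i2) ≤ (m) ∧ (Q) ≤ (i + l + m + 2) ∧ (i + l + m + 3) ≤ (n) ∧ (Q) ≤ (k3) ∧ (k3 + 1) ≤ (n) ∧ (i + m + 2) ≤ (k) ∧ (i) ≤ (i2) ∧ (i2) ≤ (i) ∧ (i + m + 2) ≤ (k3) ∧ (k3) ≤ (i + l + m + 1) ∧ (m + k3 + 2) ≤ (n + i2))
    (a1 : Par W (0) (j) (k - j))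
    (a2 : Par W (Q + j - k) (j) (k - j))
    (s1 : Ant W (0) (i) (i + j))
    (s2 : Ant W (j + 1) (Q) (i + j))
    (b : Par W (i + 1) (i + l + 1) (k - i))
    (c1 : Par W (i2 + 1) (Q) (k + l - i2 + 1))
    (c2 : Par W (k + l + 2) (n) (i2 - k - l - 1))
    (tt : Ant W (i2 - m) (i2) (i + l + i2 + 1))
    (D1 : Par W (Q) (k3) (n + i2 - m - k3 - 1))
    (D2 : Par W (i + l + m + 3) (n) (k3 - i - l - m - 2))
    {L : ℤ} (mx : ∀ a b g, 0 < g → g < n → Par W a b g → b - a ≤ L)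
    (hL : L ≤ (n - j - 3) ∧ L ≤ (n + Q - k - 3) ∧ L ≤ (n - l - 3) ∧ L ≤ (n + i - k - 2))
    (bd0 : Bd W n L (j) (i) (k))
    (n1 : Nd W (j) (i) (k))
    (n2 : Nd W (i + l + 1) (i2) (k + l + 1))
    (n3 : Nd W (n + i2 - m - 1) (i + l + m + 2) (k3))
    (b0 : (2 * l + 3) ≤ (n))
    (b1 : (n + i2 + k3) ≤ (2 * i + 2 * l + 3 * m + 4)) : False := by
  have ev := al.ev
  obtain ⟨y0, y1, y2, y3, y4, y5, y6, y7, y8, y9, y10, y11, y12, y13, y14, y15, y16, y17, y18, y19, y20⟩ := id hy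
  have n1p := And.intro n1.p1 n1.p2
  have n2p := And.intro n2.p1 n2.p2
  have n3p := And.intro n3.p1 n3.p2
  by_cases z3 : (2 * i + 2 * l + i2 + m + 5) ≤ (n + k3)
  · by_cases v1 : (n + i2) ≤ (i + l + 2 * m + 3)
    · have kk4 : (2 * i + 2 * l + i2 + m + 5) ≤ (n + k3) := by clear * - z3; omega
      have kk5 : (m + k3 + 2) ≤ (n + i2) := by clear * - y20; omega
      have kk6 : (0) ≤ (i2) := by clear * - y7; omega
      have kk7 : (n + i2) ≤ (i + l + 2 * m + 3) := by clear * - v1; omega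
      have r8 : (3 * n + i2 + k3 - m - 1) % 2 = 0 := by clear * - ev n1p n2p n3p; omega
      clear * - al tt D2 kk4 kk5 kk6 kk7 r8
      obtain ⟨t, ht⟩ : ∃ t, 2 * t = (3 * n + i2 + k3 - m - 1) := ⟨(3 * n + i2 + k3 - m - 1) / 2, by omega⟩
      exact al.ninv t (cE (cE (ab tt al 1 t ((n + i + l + i2 + 1) - t) (by omega)) (qf D2 al (-1) ((n + i + l + i2 + 1) - t) ((2 * n + i2 + k3 - m - 1) - t) (by omega))) (sh al 1 ((2 * n + i2 + k3 - m - 1) - t) t (by omega)))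
    · have kk9 : (2 * i + 2 * l + i2 + m + 5) ≤ (n + k3) := by clear * - z3; omega
      have kk10 : (n + i2 + k3) ≤ (2 * i + 2 * l + 3 * m + 4) := by clear * - b1; omega
      have kk11 : (0) ≤ (i2) := by clear * - y7; omega
      have kk12 : (i + l + 2 * m + 3) ≤ (n + i2) := by clear * - v1; omega
      have r13 : (3 * n + i2 + k3 - m - 1) % 2 = 0 := by clear * - ev n1p n2p n3p; omega
      clear * - al tt D2 kk9 kk10 kk11 kk12 r13
      obtain ⟨t, ht⟩ : ∃ t, 2 * t = (3 * n + i2 + k3 - m - 1) := ⟨(3 * n + i2 + k3 - m - 1) / 2, by omega⟩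
      exact al.ninv t (cE (cE (ab tt al 1 t ((n + i + l + i2 + 1) - t) (by omega)) (qf D2 al (-1) ((n + i + l + i2 + 1) - t) ((2 * n + i2 + k3 - m - 1) - t) (by omega))) (sh al 1 ((2 * n + i2 + k3 - m - 1) - t) t (by omega)))
  · exact h8_3 al hy a1 a2 s1 s2 b c1 c2 tt D1 D2 mx hL bd0 n1 n2 n3 (by clear * - b0; omega) (by clear * - z3; omega)

theorem h8_48p
    (h8_49 : ∀ {W : ℤ → G} {n Q i j k l i2 m k3 : ℤ} (al : AL W n Q) (hy : (0) ≤ (i) ∧ (i) ≤ (j) ∧ (j + 1) ≤ (Q) ∧ (Q) ≤ (k) ∧ (k + 1) ≤ (n) ∧ (Q) ≤ (i + l + 1) ∧ (k + l + 2) ≤ (n) ∧ (0) ≤ (i2) ∧ (i2 + 1) ≤ (Q) ∧ (Q + m + 1) ≤ (n + i2) ∧ (i2) ≤ (m) ∧ (Q) ≤ (i + l + m + 2) ∧ (i + l + m + 3) ≤ (n) ∧ (Q) ≤ (k3) ∧ (k3 + 1) ≤ (n) ∧ (i + m + 2) ≤ (k) ∧ (i) ≤ (i2) ∧ (i2) ≤ (i) ∧ (i + m + 2) ≤ (k3) ∧ (k3) ≤ (i + l + m + 1) ∧ (m + k3 + 2) ≤ (n + i2)) (a1 : Par W (0) (j) (k - j)) (a2 : Par W (Q + j - k) (j) (k - j)) (s1 : Ant W (0) (i) (i + j))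 (s2 : Ant W (j + 1) (Q) (i + j)) (b : Par W (i + 1) (i + l + 1) (k - i)) (c1 : Par W (i2 + 1) (Q) (k + l - i2 + 1)) (c2 : Par W (k + l + 2) (n) (i2 - k - l - 1)) (tt : Ant W (i2 - m) (i2) (i + l + i2 + 1)) (D1 : Par W (Q) (k3) (n + i2 - m - k3 - 1)) (D2 : Par W (i + l + m + 3) (n) (k3 - i - l - m - 2)) {L : ℤ} (mx : ∀ a b g, 0 < g → g < n → Par W a b g → b - a ≤ L) (hL : L ≤ (n - j - 3) ∧ L ≤ (n + Q - k - 3) ∧ L ≤ (n - l - 3) ∧ L ≤ (n + i - k - 2)) (bd0 : Bd W n L (j) (i) (k)) (n1 : Nd W (j) (i) (k)) (n2 : Nd W (i + l + 1) (i2) (k + l + 1)) (n3 : Nd W (n + i2 - m - 1) (i + l + m + 2) (k3)) (b0 : (2 * l + 3) ≤ (n)) (b1 : (2 * i + j + 1) ≤ (k)) (b2 : (n + k3) ≤ (i + k + 2 * l + m + 3)) (b3 : (k + i2 + m + 1) ≤ (i + k3)) (b4 : (i + k) ≤ (2 * j + 1)) (b5 : (i + m + k3 + 3) ≤ (Q + k + i2)) (b6 : (2 * Q + k + 2 * l + 2 * m + 4) ≤ (n + j + 2 * k3)) (b7 : (n + i2 + k3) ≤ (i + j + 2 * l + 3 * m +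 4)) (b8 : (4 * k + l + 2) ≤ (n + 2 * i + i2)) (b9 : (n + j) ≤ (i + 2 * l + 2 * m + 3)), False)
    (h8_54 : ∀ {W : ℤ → G} {n Q i j k l i2 m k3 : ℤ} (al : AL W n Q) (hy : (0) ≤ (i) ∧ (i) ≤ (j) ∧ (j + 1) ≤ (Q) ∧ (Q) ≤ (k) ∧ (k + 1) ≤ (n) ∧ (Q) ≤ (i + l + 1) ∧ (k + l + 2) ≤ (n) ∧ (0) ≤ (i2) ∧ (i2 + 1) ≤ (Q) ∧ (Q + m + 1) ≤ (n + i2) ∧ (i2) ≤ (m) ∧ (Q) ≤ (i + l + m + 2) ∧ (i + l + m + 3) ≤ (n) ∧ (Q) ≤ (k3) ∧ (k3 + 1) ≤ (n) ∧ (i + m + 2) ≤ (k) ∧ (i) ≤ (i2) ∧ (i2) ≤ (i) ∧ (i + m + 2) ≤ (k3) ∧ (k3) ≤ (i + l + m + 1) ∧ (m + k3 + 2) ≤ (n + i2)) (a1 : Par W (0) (j) (k - j)) (a2 : Par W (Q + j - k) (j) (k - j)) (s1 : Ant W (0) (i) (i + j)) (s2 : Ant W (j + 1) (Q) (i + j)) (b : Par W (i + 1) (i + l + 1) (k - i)) (c1 : Par W (i2 + 1) (Q) (k + l - i2 + 1)) (c2 : Par W (k + l + 2) (n) (i2 - k - l - 1)) (tt : Ant W (i2 - m) (i2) (i + l + i2 + 1)) (D1 : Par W (Q) (k3) (n + i2 - m - k3 - 1)) (D2 : Par W (i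 + l + m + 3) (n) (k3 - i - l - m - 2)) {L : ℤ} (mx : ∀ a b g, 0 < g → g < n → Par W a b g → b - a ≤ L) (hL : L ≤ (n - j - 3) ∧ L ≤ (n + Q - k - 3) ∧ L ≤ (n - l - 3) ∧ L ≤ (n + i - k - 2)) (bd0 : Bd W n L (j) (i) (k)) (n1 : Nd W (j) (i) (k)) (n2 : Nd W (i + l + 1) (i2) (k + l + 1)) (n3 : Nd W (n + i2 - m - 1) (i + l + m + 2) (k3)) (b0 : (2 * l + 3) ≤ (n)) (b1 : (2 * i + j + 1) ≤ (k)) (b2 : (n + k3) ≤ (i + k + 2 * l + m + 3)) (b3 : (k + i2 + m + 1) ≤ (i + k3)) (b4 : (i + m + k3 + 3) ≤ (Q + k + i2)) (b5 : (2 * Q + k + 2 * l + 2 * m + 4) ≤ (n + j + 2 * k3)) (b6 : (n + i2 + k3) ≤ (i + j + 2 * l + 3 * m + 4)) (b7 : (4 * k + l + 2) ≤ (n + 2 * i + i2)) (b8 : (i + 2 * l + 2 * m + 4) ≤ (n + j)), False)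
    {W : ℤ → G} {n Q i j k l i2 m k3 : ℤ} (al : AL W n Q)
    (hy : (0) ≤ (i) ∧ (i) ≤ (j) ∧ (j + 1) ≤ (Q) ∧ (Q) ≤ (k) ∧ (k + 1) ≤ (n) ∧ (Q) ≤ (i + l + 1) ∧ (k + l + 2) ≤ (n) ∧ (0) ≤ (i2) ∧ (i2 + 1) ≤ (Q) ∧ (Q + m + 1) ≤ (n + i2) ∧ (i2) ≤ (m) ∧ (Q) ≤ (i + l + m + 2) ∧ (i + l + m + 3) ≤ (n) ∧ (Q) ≤ (k3) ∧ (k3 + 1) ≤ (n) ∧ (i + m + 2) ≤ (k) ∧ (i) ≤ (i2) ∧ (i2) ≤ (i) ∧ (i + m + 2) ≤ (k3) ∧ (k3) ≤ (i + l + m + 1) ∧ (m + k3 + 2) ≤ (n + i2))
    (a1 : Par W (0) (j) (k - j))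
    (a2 : Par W (Q + j - k) (j) (k - j))
    (s1 : Ant W (0) (i) (i + j))
    (s2 : Ant W (j + 1) (Q) (i + j))
    (b : Par W (i + 1) (i + l + 1) (k - i))
    (c1 : Par W (i2 + 1) (Q) (k + l - i2 + 1))
    (c2 : Par W (k + l + 2) (n) (i2 - k - l - 1))
    (tt : Ant W (i2 - m) (i2) (i + l + i2 + 1))
    (D1 : Par W (Q) (k3) (n + i2 - m - k3 - 1))
    (D2 : Par W (i + l + m + 3) (n) (k3 - i - l - m - 2))
    {L : ℤ} (mx : ∀ a b g, 0 < g → g < n → Par W a b g → b - a ≤ L)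
    (hL : L ≤ (n - j - 3) ∧ L ≤ (n + Q - k - 3) ∧ L ≤ (n - l - 3) ∧ L ≤ (n + i - k - 2))
    (bd0 : Bd W n L (j) (i) (k))
    (n1 : Nd W (j) (i) (k))
    (n2 : Nd W (i + l + 1) (i2) (k + l + 1))
    (n3 : Nd W (n + i2 - m - 1) (i + l + m + 2) (k3))
    (b0 : (2 * l + 3) ≤ (n))
    (b1 : (2 * i + j + 1) ≤ (k))
    (b2 : (n + k3) ≤ (i + k + 2 * l + m + 3))
    (b3 : (k + i2 + m + 1) ≤ (i + k3))
    (b4 : (i + k) ≤ (2 * j + 1))
    (b5 : (i + m + k3 + 3) ≤ (Q + k + i2))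
    (b6 : (2 * Q + k + 2 * l + 2 * m + 4) ≤ (n + j + 2 * k3))
    (b7 : (n + i2 + k3) ≤ (i + j + 2 * l + 3 * m + 4))
    (b8 : (4 * k + l + 2) ≤ (n + 2 * i + i2)) : False := by
  have ev := al.ev
  obtain ⟨y0, y1, y2, y3, y4, y5, y6, y7, y8, y9, y10, y11, y12, y13, y14, y15, y16, y17, y18, y19, y20⟩ := id hy
  have n1p := And.intro n1.p1 n1.p2
  have n2p := And.intro n2.p1 n2.p2
  have n3p := And.intro n3.p1 n3.p2
  by_cases z93 : (n + j) ≤ (i + 2 * l + 2 * m + 3)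
  · exact h8_49 al hy a1 a2 s1 s2 b c1 c2 tt D1 D2 mx hL bd0 n1 n2 n3 (by clear * - b0; omega) (by clear * - b1; omega) (by clear * - b2; omega) (by clear * - b3; omega) (by clear * - b4; omega) (by clear * - b5; omega) (by clear * - b6; omega) (by clear * - b7; omega) (by clear * - b8; omega) (by clear * - z93; omega)
  · exact h8_54 al hy a1 a2 s1 s2 b c1 c2 tt D1 D2 mx hL bd0 n1 n2 n3 (by clear * - b0; omega) (by clear * - b1; omega) (by clear * - b2; omega) (by clear * - b3; omega) (by clear * - b5; omega) (by clear * - b6; omega) (by clear * - b7; omega) (by clear * - b8; omega) (by clear * - z93; omega)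

theorem h8_69p
    {W : ℤ → G} {n Q i j k l i2 m k3 : ℤ} (al : AL W n Q)
    (hy : (0) ≤ (i) ∧ (i) ≤ (j) ∧ (j + 1) ≤ (Q) ∧ (Q) ≤ (k) ∧ (k + 1) ≤ (n) ∧ (Q) ≤ (i + l + 1) ∧ (k + l + 2) ≤ (n) ∧ (0) ≤ (i2) ∧ (i2 + 1) ≤ (Q) ∧ (Q + m + 1) ≤ (n + i2) ∧ (i2) ≤ (m) ∧ (Q) ≤ (i + l + m + 2) ∧ (i + l + m + 3) ≤ (n) ∧ (Q) ≤ (k3) ∧ (k3 + 1) ≤ (n) ∧ (i + m + 2) ≤ (k) ∧ (i) ≤ (i2) ∧ (i2) ≤ (i) ∧ (i + m + 2) ≤ (k3) ∧ (k3) ≤ (i + l + m + 1) ∧ (m + k3 + 2) ≤ (n + i2))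
    (a1 : Par W (0) (j) (k - j))
    (a2 : Par W (Q + j - k) (j) (k - j))
    (s1 : Ant W (0) (i) (i + j))
    (s2 : Ant W (j + 1) (Q) (i + j))
    (b : Par W (i + 1) (i + l + 1) (k - i))
    (c1 : Par W (i2 + 1) (Q) (k + l - i2 + 1))
    (c2 : Par W (k + l + 2) (n) (i2 - k - l - 1))
    (tt : Ant W (i2 - m) (i2) (i + l + i2 + 1))
    (D1 : Par W (Q) (k3) (n + i2 - m - k3 - 1))
    (D2 : Par W (i + l + m + 3) (n) (k3 - i - l - m - 2))
    {L : ℤ} (mx : ∀ a b g, 0 < g → g < n → Par W a b g → b - a ≤ L)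
    (hL : L ≤ (n - j - 3) ∧ L ≤ (n + Q - k - 3) ∧ L ≤ (n - l - 3) ∧ L ≤ (n + i - k - 2))
    (bd0 : Bd W n L (j) (i) (k))
    (n1 : Nd W (j) (i) (k))
    (n2 : Nd W (i + l + 1) (i2) (k + l + 1))
    (n3 : Nd W (n + i2 - m - 1) (i + l + m + 2) (k3))
    (b0 : (2 * l + 3) ≤ (n))
    (b1 : (2 * i + 2 * l + 3 * m + 5) ≤ (n + i2 + k3))
    (b2 : (k + i2 + 1) ≤ (Q + j + m))
    (b3 : (2 * i + j + 1) ≤ (k))
    (b4 : (2 * Q + k + l) ≤ (n + 2 * j + i2))
    (b5 : (m + k3) ≤ (i + l + 2 * i2 + 1))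
    (b6 : (Q + k3) ≤ (i + l + i2 + m + 2))
    (b7 : (Q + k + l + 1) ≤ (n + i2))
    (b8 : (Q + m + 1) ≤ (k3))
    (b9 : (i + l + i2 + m + 3) ≤ (k + k3))
    (b10 : (n) ≤ (2 * i + 2 * l + 2))
    (b11 : (k) ≤ (i + 2 * j)) : False := by
  have ev := al.ev
  obtain ⟨y0, y1, y2, y3, y4, y5, y6, y7, y8, y9, y10, y11, y12, y13, y14, y15, y16, y17, y18, y19, y20⟩ := id hy
  have n1p := And.intro n1.p1 n1.p2
  have n2p := And.intro n2.p1 n2.p2
  have n3p := And.intro n3.p1 n3.p2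
  by_cases z142 : (2 * j + 2) ≤ (i + k)
  · by_cases v40 : (2 * j + 1) ≤ (k)
    · have kk1753 : (k) ≤ (i + 2 * j) := by clear * - b11; omega
      have kk1754 : (k) ≤ (i + 2 * j + 1) := by clear * - b11; omega
      have kk1755 : (2 * j + 1) ≤ (k) := by clear * - v40; omega
      have kk1756 : (i + j + 1) ≤ (k) := by clear * - b11 b3 v40; omega
      have r1757 : (i + 2 * j - 2 * n - k) % 2 = 0 := by clear * - ev n1p n2p n3p; omega
      clear * - al a1 s1 kk1753 kk1754 kk1755 kk1756 r1757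
      obtain ⟨t, ht⟩ : ∃ t, 2 * t = (i + 2 * j - 2 * n - k) := ⟨(i + 2 * j - 2 * n - k) / 2, by omega⟩
      exact al.ninv t (cE (cI (qf a1 al (-1) t (t + (n + k - j)) (by omega)) (ab s1 al 0 (t + (n + k - j)) ((i + 2 * j - n - k) - t) (by omega))) (sh al (-1) ((i + 2 * j - n - k) - t) t (by omega)))
    · have kk1758 : (2 * j + 2) ≤ (i + k) := by clear * - z142; omega
      have kk1759 : (k) ≤ (i + 2 * j + 1) := by clear * - v40 z142; omega
      have kk1760 : (k) ≤ (2 * j + 1) := by clear * - v40; omega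
      have kk1761 : (i + j + 1) ≤ (k) := by clear * - b3 v40 z142; omega
      have r1762 : (i + 2 * j - 2 * n - k) % 2 = 0 := by clear * - ev n1p n2p n3p; omega
      clear * - al a1 s1 kk1758 kk1759 kk1760 kk1761 r1762
      obtain ⟨t, ht⟩ : ∃ t, 2 * t = (i + 2 * j - 2 * n - k) := ⟨(i + 2 * j - 2 * n - k) / 2, by omega⟩
      exact al.ninv t (cE (cI (qf a1 al (-1) t (t + (n + k - j)) (by omega)) (ab s1 al 0 (t + (n + k - j)) ((i + 2 * j - n - k) - t) (by omega))) (sh al (-1) ((i + 2 * j - n - k) - t) t (by omega)))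
  · by_cases z143 : (n + i2) ≤ (2 * k + l + 1)
    · have kk1763 : (2 * k + l + 2) ≤ (n + j + i2) := by clear * - b11 b7 y2 z142; omega
      have kk1764 : (j + i2) ≤ (2 * k + l) := by clear * - b0 b10 b2 b3 b5 b8 b9 y19; omega
      have kk1765 : (j + i2 + 1) ≤ (k) := by clear * - b0 b10 b3 y17; omega
      have kk1766 : (n + i2) ≤ (2 * k + l + 1) := by clear * - z143; omega
      clear * - al a1 c2 kk1763 kk1764 kk1765 kk1766
      exact al.ubP (n + j + i2 - 2 * k - l - 1) (by omega) (by omega) fun t h1 h2 => (cE (sh al 2 t (t + (2 * n)) (by omega)) (cE (qf c2 al 1 (t + (2 * n)) (t + (n + i2 - k - l - 1)) (by omega)) (pb a1 al 0 (t + (n + i2 - k - l - 1)) (t + (n + j + i2 - 2 * k - l - 1)) (by omega))))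
    · by_cases z144 : (Q + i + l + m + 1) ≤ (2 * k3)
      · have kk1767 : (i + 1) ≤ (k3) := by clear * - b0 b10 b2 b3 z142 z143 z144; omega
        have kk1768 : (k3) ≤ (i + l) := by clear * - b3 b5 b6 y17 y2 z142 ev n1p n2p n3p; omega
        have kk1769 : (k + m + k3 + 2) ≤ (n + i + i2) := by clear * - b2 b3 b5 b7 b9 y17 z142 z143; omega
        have kk1770 : (k3) ≤ (i + l + m + 1) := by clear * - y19; omega
        have kk1771 : (Q + i + l + m + 1) ≤ (2 * k3) := by clear * - z144; omega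
        have kk1772 : (2 * i + l + m + 2) ≤ (k + k3) := by clear * - b9 y16; omega
        have kk1773 : (i2) ≤ (m) := by clear * - y10; omega
        have kk1774 : (i + 1) ≤ (Q) := by clear * - y16 y8; omega
        have kk1775 : (k3) ≤ (i + l + 1) := by clear * - b3 b5 b6 y17 y2 z142; omega
        have r1776 : (n + i + i2 - k - m - k3 - 1) % 2 = 0 := by clear * - ev n1p n2p n3p; omega
        have r1777 : (i + l + m - k3 + 2) % 2 = 0 := by clear * - ev n1p n2p n3p; omega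
        clear * - al b D1 D2 n3 kk1767 kk1768 kk1769 kk1770 kk1771 kk1772 kk1773 kk1774 kk1775 r1776 r1777
        exact n3.f0 (rEE (sh al 0 (n + i2 - m - 1) (n + i2 - m - 1) (by omega)) (qf b al 0 (k3) (k + k3 - i) (by omega)) (Eq.symm (rotR (n + i + i2 - k - m - k3 - 1) (i + l + m - k3 + 2) (k + k3 - i) (n + i2 - m - 1) (by omega) (fun t h1 h2 => (qf (show Par W (Q + k - i) (k + k3 - i) (n + i + i2 - k - m - k3 - 1) from fun t h1 h2 => (cE (sh al (-1) t (t + (-n)) (by omega)) (cE (pb b al (-1) (t + (-n)) (t + (i - k)) (by omega)) (qf D1 al 0 (t + (i - k)) (t + (n + i + i2 - k - m - k3 - 1)) (by omega))))) al 0 t (t + (n + i + i2 - k - m - k3 - 1)) (by omega))) (fun t h1 h2 => (pb D2 al 0 t (t + (i + l + m - k3 + 2)) (by omega))))))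
      · by_cases z145 : (i + m + 1) ≤ (j)
        · by_cases z146 : (Q + k) ≤ (2 * i + l + 1)
          · have kk1778 : (2 * i + l + m + 3) ≤ (k + k3) := by clear * - b9 y16; omega
            have kk1779 : (k + k3) ≤ (n + 2 * i + l + m + 1) := by clear * - b0 b10 b2 b3 z142 z143 z144 z145 z146; omega
            have kk1780 : (i + k3 + 1) ≤ (Q + k) := by clear * - b9 y16 z144; omega
            have kk1781 : (Q + k) ≤ (2 * i + l + 1) := by clear * - z146; omega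
            have kk1782 : (k) ≤ (i + l + m + 2) := by clear * - b0 b10 b2 b3 b7; omega
            have kk1783 : (k + l + 1) ≤ (n) := by clear * - b0 b10 b2 b3 z143 z145 z146; omega
            have kk1784 : (2 * k) ≤ (2 * i + l + m + 2) := by clear * - b10 y10 z143; omega
            have kk1785 : (k) ≤ (k3) := by clear * - b10 b9 y10 y16 z143; omega
            have kk1786 : (i) ≤ (k) := by clear * - b0 b10 b3 z142; omega
            have kk1787 : (k3) ≤ (i + l + m + 2) := by clear * - b0 b10 b2 b3 b6 z144 z145 z146; omega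
            clear * - al b D2 kk1778 kk1779 kk1780 kk1781 kk1782 kk1783 kk1784 kk1785 kk1786 kk1787
            exact al.ubQ (k + k3 - 2 * i - l - m - 2) (by omega) (by omega) fun t h1 h2 => (cE (sh al (-1) t (t + (-n)) (by omega)) (cE (cE (qf b al (-1) (t + (-n)) (t + (k - i)) (by omega)) (qf (show Par W (2 * i + l + m - k + 3) (i + l + 1) (k + k3 - 2 * i - l - m - 2) from fun t h1 h2 => (cE (sh al (-1) t (t + (-n)) (by omega)) (cE (qf b al (-1) (t + (-n)) (t + (k - i)) (by omega)) (qf D2 al 0 (t + (k - i)) (t + (k + k3 - 2 * i - l - m - 2)) (by omega))))) al 0 (t + (k - i)) (t + (2 * k + k3 - 3 * i - l - m - 2)) (by omega))) (pb b al 0 (t + (2 * k + k3 - 3 * i - l - m - 2)) (t + (k + k3 - 2 * i - l - m - 2)) (by omega))))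
          · have kk1788 : (k) ≤ (i + l + m + 1) := by clear * - b0 b10 b2 b3 b7; omega
            have kk1789 : (i + m + 2) ≤ (k) := by clear * - b8 z144 z146; omega
            have kk1790 : (2 * i + l + m + 3) ≤ (k + k3) := by clear * - b8 z146; omega
            have kk1791 : (j + 1) ≤ (k) := by clear * - b0 b10 b3; omega
            have kk1792 : (i + m + 1) ≤ (j) := by clear * - z145; omega
            have kk1793 : (2 * k) ≤ (2 * i + l + m + 1) := by clear * - b10 y10 z143; omega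
            have kk1794 : (i + k3) ≤ (j + k) := by clear * - b6 y17 z145 z146; omega
            have kk1795 : (k) ≤ (i + l + m + 2) := by clear * - b0 b10 b2 b3 b7; omega
            have kk1796 : (k + l + 1) ≤ (n) := by clear * - b0 b10 b2 b3 b8 z143 z144; omega
            have kk1797 : (j) ≤ (k) := by clear * - b0 b10 b3; omega
            have kk1798 : (0) ≤ (i + 1) := by clear * - b0 b10; omega
            have kk1799 : (k) ≤ (i + l + 1) := by clear * - b10 b2 b3 b7 b8 b9 z143 z144; omega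
            have r1800 : (k + k3 - 2 * i - l - m - 2) % 2 = 0 := by clear * - ev n1p n2p n3p; omega
            have r1801 : (k - j) % 2 = 0 := by clear * - ev n1p n2p n3p; omega
            clear * - al a1 b D2 n3 kk1788 kk1789 kk1790 kk1791 kk1792 kk1793 kk1794 kk1795 kk1796 kk1797 kk1798 kk1799 r1800 r1801
            exact n3.f1 (rEE (pb b al 0 (i + l + m + 2) (2 * i + l + m - k + 2) (by omega)) (sh al 0 (k3) (k3) (by omega)) (rotL (k + k3 - 2 * i - l - m - 2) (k - j) (2 * i + l + m - k + 2) (k3) (by omega) (fun t h1 h2 => (qf (show Par W (2 * i + l + m - k + 3) (i + l + 1) (k + k3 - 2 * i - l - m - 2) from fun t h1 h2 => (cE (sh al (-1) t (t + (-n)) (by omega)) (cE (qf b al (-1) (t + (-n)) (t + (k - i)) (by omega)) (qf D2 al 0 (t + (k - i)) (t + (k + k3 - 2 * i - l - m - 2)) (by omega))))) al 0 t (t + (k + k3 - 2 * i - l - m - 2)) (by omega))) (fun t h1 h2 => (cE (cE (pb b al 0 t (t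 + (i - k)) (by omega)) (qf a1 al 0 (t + (i - k)) (t + (i - j)) (by omega))) (qf b al 0 (t + (i - j)) (t + (k - j)) (by omega))))))
        · by_cases z147 : (Q + k) ≤ (2 * i + l + 1)
          · have kk1802 : (2 * i + l + m + 3) ≤ (k + k3) := by clear * - b9 y16; omega
            have kk1803 : (k + k3) ≤ (n + 2 * i + l + m + 1) := by clear * - b10 b11 b3 b7 b9 z143 z144 z145 z147; omega
            have kk1804 : (i + k3 + 1) ≤ (Q + k) := by clear * - b9 y16 z144; omega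
            have kk1805 : (Q + k) ≤ (2 * i + l + 1) := by clear * - z147; omega
            have kk1806 : (k) ≤ (i + l + m + 2) := by clear * - b10 b11 b3 b9 z143 z144 z145 z147; omega
            have kk1807 : (k + l + 1) ≤ (n) := by clear * - b11 b3 b8 b9 z143 z144 z145; omega
            have kk1808 : (2 * k) ≤ (2 * i + l + m + 2) := by clear * - b10 b3 b9 z142 z143 z144 z145 z147; omega
            have kk1809 : (k) ≤ (k3) := by clear * - b10 b11 b3 b9 z142 z143 z145; omega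
            have kk1810 : (i) ≤ (k) := by clear * - b3 b5 b9 z142 z144 z145 z147; omega
            have kk1811 : (k3) ≤ (i + l + m + 2) := by clear * - b11 b3 b8 z144 z145; omega
            clear * - al b D2 kk1802 kk1803 kk1804 kk1805 kk1806 kk1807 kk1808 kk1809 kk1810 kk1811
            exact al.ubQ (k + k3 - 2 * i - l - m - 2) (by omega) (by omega) fun t h1 h2 => (cE (sh al 1 t (t + (n)) (by omega)) (cE (cE (qf b al 1 (t + (n)) (t + (k - i)) (by omega)) (qf (show Par W (2 * i + l + m - k + 3) (i + l + 1) (k + k3 - 2 * i - l - m - 2) from fun t h1 h2 => (cE (sh al (-1) t (t + (-n)) (by omega)) (cE (qf b al (-1) (t + (-n)) (t + (k - i)) (by omega)) (qf D2 al 0 (t + (k - i)) (t + (k + k3 - 2 * i - l - m - 2)) (by omega))))) al 0 (t + (k - i)) (t + (2 * k + k3 - 3 * i - l - m - 2)) (by omega))) (pb b al 0 (t + (2 * k + k3 - 3 * i - l - m - 2)) (t + (k + k3 - 2 * i - l - m - 2)) (by omega))))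
          · have kk1812 : (j + k) ≤ (i + l + i2) := by clear * - b10 b3 b8 z143 z144 z145 z147; omega
            have kk1813 : (i + l + i2 + 2) ≤ (n + j + k) := by clear * - b11 b8 b9 z142 z143 z144 z145 z147; omega
            have kk1814 : (2 * i + l + 2) ≤ (Q + k) := by clear * - z147; omega
            have kk1815 : (i2) ≤ (i) := by clear * - y17; omega
            have kk1816 : (k) ≤ (i + l + 1) := by clear * - b10 b3 b8 b9 z142 z143 z144 z145 z147; omega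
            have kk1817 : (i + m + 1) ≤ (k) := by clear * - b8 z144 z147; omega
            have kk1818 : (Q + i2) ≤ (i + j + m + 1) := by clear * - b6 b9 y17 z142 z145; omega
            clear * - al s2 b tt kk1812 kk1813 kk1814 kk1815 kk1816 kk1817 kk1818
            exact al.ubQ (i + l + i2 - j - k + 1) (by omega) (by omega) fun t h1 h2 => (cE (sh al (-1) t (t + (-n)) (by omega)) (cE (cII (qa s2 al (-1) (t + (-n)) ((i + j) - t) (by omega)) (qa tt al 0 ((i + j) - t) (t + (l + i2 - j + 1)) (by omega))) (pb b al 0 (t + (l + i2 - j + 1)) (t + (i + l + i2 - j - k + 1)) (by omega))))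

theorem h8_70p
    {W : ℤ → G} {n Q i j k l i2 m k3 : ℤ} (al : AL W n Q)
    (hy : (0) ≤ (i) ∧ (i) ≤ (j) ∧ (j + 1) ≤ (Q) ∧ (Q) ≤ (k) ∧ (k + 1) ≤ (n) ∧ (Q) ≤ (i + l + 1) ∧ (k + l + 2) ≤ (n) ∧ (0) ≤ (i2) ∧ (i2 + 1) ≤ (Q) ∧ (Q + m + 1) ≤ (n + i2) ∧ (i2) ≤ (m) ∧ (Q) ≤ (i + l + m + 2) ∧ (i + l + m + 3) ≤ (n) ∧ (Q) ≤ (k3) ∧ (k3 + 1) ≤ (n) ∧ (i + m + 2) ≤ (k) ∧ (i) ≤ (i2) ∧ (i2) ≤ (i) ∧ (i + m + 2) ≤ (k3) ∧ (k3) ≤ (i + l + m + 1) ∧ (m + k3 + 2) ≤ (n + i2))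
    (a1 : Par W (0) (j) (k - j))
    (a2 : Par W (Q + j - k) (j) (k - j))
    (s1 : Ant W (0) (i) (i + j))
    (s2 : Ant W (j + 1) (Q) (i + j))
    (b : Par W (i + 1) (i + l + 1) (k - i))
    (c1 : Par W (i2 + 1) (Q) (k + l - i2 + 1))
    (c2 : Par W (k + l + 2) (n) (i2 - k - l - 1))
    (tt : Ant W (i2 - m) (i2) (i + l + i2 + 1))
    (D1 : Par W (Q) (k3) (n + i2 - m - k3 - 1))
    (D2 : Par W (i + l + m + 3) (n) (k3 - i - l - m - 2))
    {L : ℤ} (mx : ∀ a b g, 0 < g → g < n → Par W a b g → b - a ≤ L)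
    (hL : L ≤ (n - j - 3) ∧ L ≤ (n + Q - k - 3) ∧ L ≤ (n - l - 3) ∧ L ≤ (n + i - k - 2))
    (bd0 : Bd W n L (j) (i) (k))
    (n1 : Nd W (j) (i) (k))
    (n2 : Nd W (i + l + 1) (i2) (k + l + 1))
    (n3 : Nd W (n + i2 - m - 1) (i + l + m + 2) (k3))
    (b0 : (2 * l + 3) ≤ (n))
    (b1 : (2 * i + 2 * l + 3 * m + 5) ≤ (n + i2 + k3))
    (b2 : (k + i2 + 1) ≤ (Q + j + m))
    (b3 : (2 * Q + k + l) ≤ (n + 2 * j + i2))
    (b4 : (m + k3) ≤ (i + l + 2 * i2 + 1))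
    (b5 : (Q + k3) ≤ (i + l + i2 + m + 2))
    (b6 : (Q + k + l + 1) ≤ (n + i2))
    (b7 : (Q + m + 1) ≤ (k3))
    (b8 : (i + l + i2 + m + 3) ≤ (k + k3))
    (b9 : (n) ≤ (2 * i + 2 * l + 2))
    (b10 : (i + 2 * j + 1) ≤ (k)) : False := by
  have ev := al.ev
  obtain ⟨y0, y1, y2, y3, y4, y5, y6, y7, y8, y9, y10, y11, y12, y13, y14, y15, y16, y17, y18, y19, y20⟩ := id hy
  have n1p := And.intro n1.p1 n1.p2
  have n2p := And.intro n2.p1 n2.p2
  have n3p := And.intro n3.p1 n3.p2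
  by_cases z148 : (n + 2 * Q + j) ≤ (i + k + l + m + k3 + 2)
  · by_cases v41 : (n + k + i2) ≤ (i + l + 2 * m + k3 + 3)
    · by_cases v42 : (n + Q + i2) ≤ (i + l + m + k3 + 3)
      · have kk1819 : (i + l + m + k3 + 4) ≤ (n + j + k) := by clear * - b0 b10 b4 y1 y17 ev n1p n2p n3p; omega
        have kk1820 : (i + j + l + m + k3 + 3) ≤ (n + k + 2 * i2) := by clear * - b0 b10 b4 y1; omega
        have kk1821 : (k) ≤ (k3) := by clear * - b1 b10 b2 b4 b6 b9 v41 z148; omega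
        have kk1822 : (n + k + i2) ≤ (i + l + 2 * m + k3 + 3) := by clear * - v41; omega
        have kk1823 : (n + Q + i2) ≤ (i + l + m + k3 + 3) := by clear * - v42; omega
        have r1824 : (i + j + l + m + k3 - 3 * n - k + 2) % 2 = 0 := by clear * - ev n1p n2p n3p; omega
        clear * - al a2 tt D1 kk1819 kk1820 kk1821 kk1822 kk1823 r1824
        obtain ⟨t, ht⟩ : ∃ t, 2 * t = (i + j + l + m + k3 - 3 * n - k + 2) := ⟨(i + j + l + m + k3 - 3 * n - k + 2) / 2, by omega⟩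
        exact al.ninv t (cE (cE (cE (qa tt al (-1) t ((i + l + i2 - n + 1) - t) (by omega)) (pb D1 al 0 ((i + l + i2 - n + 1) - t) ((i + l + m + k3 - 2 * n + 2) - t) (by omega))) (pb a2 al 0 ((i + l + m + k3 - 2 * n + 2) - t) ((i + j + l + m + k3 - 2 * n - k + 2) - t) (by omega))) (sh al (-1) ((i + j + l + m + k3 - 2 * n - k + 2) - t) t (by omega)))
      · have kk1825 : (i + l + m + k3 + 4) ≤ (n + j + k) := by clear * - v42 y1 y17 z148; omega
        have kk1826 : (n + 2 * Q + j) ≤ (i + k + l + m + k3 + 3) := by clear * - z148; omega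
        have kk1827 : (k) ≤ (k3) := by clear * - b7 v41 v42; omega
        have kk1828 : (n + k + i2) ≤ (i + l + 2 * m + k3 + 3) := by clear * - v41; omega
        have kk1829 : (i + l + m + k3 + 3) ≤ (n + Q + i2) := by clear * - v42; omega
        have r1830 : (i + j + l + m + k3 - 3 * n - k + 2) % 2 = 0 := by clear * - ev n1p n2p n3p; omega
        clear * - al a2 tt D1 kk1825 kk1826 kk1827 kk1828 kk1829 r1830
        obtain ⟨t, ht⟩ : ∃ t, 2 * t = (i + j + l + m + k3 - 3 * n - k + 2) := ⟨(i + j + l + m + k3 - 3 * n - k + 2) / 2, by omega⟩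
        exact al.ninv t (cE (cE (cE (qa tt al (-1) t ((i + l + i2 - n + 1) - t) (by omega)) (pb D1 al 0 ((i + l + i2 - n + 1) - t) ((i + l + m + k3 - 2 * n + 2) - t) (by omega))) (pb a2 al 0 ((i + l + m + k3 - 2 * n + 2) - t) ((i + j + l + m + k3 - 2 * n - k + 2) - t) (by omega))) (sh al (-1) ((i + j + l + m + k3 - 2 * n - k + 2) - t) t (by omega)))
    · by_cases v43 : (n + Q + i2) ≤ (i + l + m + k3 + 3)
      · have kk1831 : (n + k + 2 * i2) ≤ (i + j + l + 3 * m + k3 + 2) := by clear * - b2 z148; omega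
        have kk1832 : (i + j + l + m + k3 + 3) ≤ (n + k + 2 * i2) := by clear * - b0 b10 b2 b4 v41 v43 y16; omega
        have kk1833 : (k) ≤ (k3) := by clear * - b0 b1 b10 b2 b4 b6 v41 v43 z148; omega
        have kk1834 : (i + l + 2 * m + k3 + 3) ≤ (n + k + i2) := by clear * - v41; omega
        have kk1835 : (n + Q + i2) ≤ (i + l + m + k3 + 3) := by clear * - v43; omega
        have r1836 : (i + j + l + m + k3 - 3 * n - k + 2) % 2 = 0 := by clear * - ev n1p n2p n3p; omega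
        clear * - al a2 tt D1 kk1831 kk1832 kk1833 kk1834 kk1835 r1836
        obtain ⟨t, ht⟩ : ∃ t, 2 * t = (i + j + l + m + k3 - 3 * n - k + 2) := ⟨(i + j + l + m + k3 - 3 * n - k + 2) / 2, by omega⟩
        exact al.ninv t (cE (cE (cE (qa tt al (-1) t ((i + l + i2 - n + 1) - t) (by omega)) (pb D1 al 0 ((i + l + i2 - n + 1) - t) ((i + l + m + k3 - 2 * n + 2) - t) (by omega))) (pb a2 al 0 ((i + l + m + k3 - 2 * n + 2) - t) ((i + j + l + m + k3 - 2 * n - k + 2) - t) (by omega))) (sh al (-1) ((i + j + l + m + k3 - 2 * n - k + 2) - t) t (by omega)))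
      · have kk1837 : (n + k + 2 * i2) ≤ (i + j + l + 3 * m + k3 + 2) := by clear * - b2 z148; omega
        have kk1838 : (n + 2 * Q + j) ≤ (i + k + l + m + k3 + 3) := by clear * - z148; omega
        have kk1839 : (i + l + 2 * m + 3) ≤ (n + i2) := by clear * - b7 v43; omega
        have kk1840 : (i + l + 2 * m + k3 + 3) ≤ (n + k + i2) := by clear * - v41; omega
        have kk1841 : (i + l + m + k3 + 3) ≤ (n + Q + i2) := by clear * - v43; omega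
        have r1842 : (i + j + l + m + k3 - 3 * n - k + 2) % 2 = 0 := by clear * - ev n1p n2p n3p; omega
        clear * - al a2 tt D1 kk1837 kk1838 kk1839 kk1840 kk1841 r1842
        obtain ⟨t, ht⟩ : ∃ t, 2 * t = (i + j + l + m + k3 - 3 * n - k + 2) := ⟨(i + j + l + m + k3 - 3 * n - k + 2) / 2, by omega⟩
        exact al.ninv t (cE (cE (cE (qa tt al (-1) t ((i + l + i2 - n + 1) - t) (by omega)) (pb D1 al 0 ((i + l + i2 - n + 1) - t) ((i + l + m + k3 - 2 * n + 2) - t) (by omega))) (pb a2 al 0 ((i + l + m + k3 - 2 * n + 2) - t) ((i + j + l + m + k3 - 2 * n - k + 2) - t) (by omega))) (sh al (-1) ((i + j + l + m + k3 - 2 * n - k + 2) - t) t (by omega)))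
  · by_cases z149 : (2 * i + j + l + 3) ≤ (2 * k + i2)
    · by_cases z150 : (2 * Q + j) ≤ (2 * i + l + i2 + 1)
      · by_cases v44 : (Q + k) ≤ (2 * i + l + 2)
        · by_cases v45 : (2 * i + l + m + 2) ≤ (2 * k)
          · have kk1843 : (2 * i + j + l + 3) ≤ (2 * k + i2) := by clear * - z149; omega
            have kk1844 : (2 * k + i2) ≤ (2 * i + j + l + 2 * m + 2) := by clear * - b2 z150; omega
            have kk1845 : (k) ≤ (i + l + 1) := by clear * - b10 b2 b4 b7 v44; omega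
            have kk1846 : (Q + k) ≤ (2 * i + l + 2) := by clear * - v44; omega
            have kk1847 : (2 * i + l + m + 2) ≤ (2 * k) := by clear * - v45; omega
            have kk1848 : (i + m + 1) ≤ (k) := by clear * - b10 b2 b5 b7 b9 v45 z148; omega
            have r1849 : (2 * i + j + l + i2 - 2 * k + 1) % 2 = 0 := by clear * - ev n1p n2p n3p; omega
            clear * - al a2 b tt kk1843 kk1844 kk1845 kk1846 kk1847 kk1848 r1849
            obtain ⟨t, ht⟩ : ∃ t, 2 * t = (2 * i + j + l + i2 - 2 * k + 1) := ⟨(2 * i + j + l + i2 - 2 * k + 1) / 2, by omega⟩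
            exact al.ninv t (cI (cE (qf a2 al 0 t (t + (k - j)) (by omega)) (qf b al 0 (t + (k - j)) (t + (2 * k - i - j)) (by omega))) (ab tt al 0 (t + (2 * k - i - j)) t (by omega)))
          · have kk1850 : (2 * i + j + l + 3) ≤ (2 * k + i2) := by clear * - z149; omega
            have kk1851 : (2 * i + l + i2 + 2) ≤ (j + 2 * k) := by clear * - y1 y17 z149; omega
            have kk1852 : (k) ≤ (i + l + 1) := by clear * - b10 b2 b5 b7 b9 v45 z148; omega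
            have kk1853 : (Q + k) ≤ (2 * i + l + 2) := by clear * - v44; omega
            have kk1854 : (2 * k) ≤ (2 * i + l + m + 2) := by clear * - v45; omega
            have r1855 : (2 * i + j + l + i2 - 2 * k + 1) % 2 = 0 := by clear * - ev n1p n2p n3p; omega
            clear * - al a2 b tt kk1850 kk1851 kk1852 kk1853 kk1854 r1855
            obtain ⟨t, ht⟩ : ∃ t, 2 * t = (2 * i + j + l + i2 - 2 * k + 1) := ⟨(2 * i + j + l + i2 - 2 * k + 1) / 2, by omega⟩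
            exact al.ninv t (cI (cE (qf a2 al 0 t (t + (k - j)) (by omega)) (qf b al 0 (t + (k - j)) (t + (2 * k - i - j)) (by omega))) (ab tt al 0 (t + (2 * k - i - j)) t (by omega)))
        · by_cases v46 : (2 * i + l + m + 2) ≤ (2 * k)
          · have kk1856 : (2 * Q + j) ≤ (2 * i + l + i2 + 1) := by clear * - z150; omega
            have kk1857 : (2 * k + i2) ≤ (2 * i + j + l + 2 * m + 2) := by clear * - b2 z150; omega
            have kk1858 : (i + 1) ≤ (Q) := by clear * - b10 b2 b4 b7 v44; omega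
            have kk1859 : (2 * i + l + 2) ≤ (Q + k) := by clear * - v44; omega
            have kk1860 : (2 * i + l + m + 2) ≤ (2 * k) := by clear * - v46; omega
            have kk1861 : (i + m + 1) ≤ (k) := by clear * - b10 b2 b5 b7 b9 v46 z148; omega
            have r1862 : (2 * i + j + l + i2 - 2 * k + 1) % 2 = 0 := by clear * - ev n1p n2p n3p; omega
            clear * - al a2 b tt kk1856 kk1857 kk1858 kk1859 kk1860 kk1861 r1862
            obtain ⟨t, ht⟩ : ∃ t, 2 * t = (2 * i + j + l + i2 - 2 * k + 1) := ⟨(2 * i + j + l + i2 - 2 * k + 1) / 2, by omega⟩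
            exact al.ninv t (cI (cE (qf a2 al 0 t (t + (k - j)) (by omega)) (qf b al 0 (t + (k - j)) (t + (2 * k - i - j)) (by omega))) (ab tt al 0 (t + (2 * k - i - j)) t (by omega)))
          · have kk1863 : (2 * Q + j) ≤ (2 * i + l + i2 + 1) := by clear * - z150; omega
            have kk1864 : (2 * i + l + i2 + 2) ≤ (j + 2 * k) := by clear * - v44 y1 y17 z150; omega
            have kk1865 : (k) ≤ (i + l + 1) := by clear * - b10 b2 b5 b7 b9 v46 z148; omega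
            have kk1866 : (2 * i + l + 2) ≤ (Q + k) := by clear * - v44; omega
            have kk1867 : (2 * k) ≤ (2 * i + l + m + 2) := by clear * - v46; omega
            have r1868 : (2 * i + j + l + i2 - 2 * k + 1) % 2 = 0 := by clear * - ev n1p n2p n3p; omega
            clear * - al a2 b tt kk1863 kk1864 kk1865 kk1866 kk1867 r1868
            obtain ⟨t, ht⟩ : ∃ t, 2 * t = (2 * i + j + l + i2 - 2 * k + 1) := ⟨(2 * i + j + l + i2 - 2 * k + 1) / 2, by omega⟩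
            exact al.ninv t (cI (cE (qf a2 al 0 t (t + (k - j)) (by omega)) (qf b al 0 (t + (k - j)) (t + (2 * k - i - j)) (by omega))) (ab tt al 0 (t + (2 * k - i - j)) t (by omega)))
      · have kk1869 : (i + j + k + l + 3) ≤ (n + i2) := by clear * - b10 b6 b9 z150; omega
        have kk1870 : (n + i + j + i2) ≤ (2 * Q + k + l) := by clear * - b10 b9 z150; omega
        have kk1871 : (0) ≤ (i) := by clear * - b0 b9; omega
        have kk1872 : (Q + k + l + 1) ≤ (n + i + j) := by clear * - b5 b6 b8 b9 y17 z150; omega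
        have r1873 : (i + j + i2 - n - k - l - 1) % 2 = 0 := by clear * - ev n1p n2p n3p; omega
        clear * - al s2 c2 kk1869 kk1870 kk1871 kk1872 r1873
        obtain ⟨t, ht⟩ : ∃ t, 2 * t = (i + j + i2 - n - k - l - 1) := ⟨(i + j + i2 - n - k - l - 1) / 2, by omega⟩
        exact al.ninv t (cE (cE (qa s2 al (-1) t ((i + j - n) - t) (by omega)) (qf c2 al (-1) ((i + j - n) - t) ((i + j + i2 - k - l - 1) - t) (by omega))) (sh al (-1) ((i + j + i2 - k - l - 1) - t) t (by omega)))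
    · by_cases z151 : (n + i + 2 * i2 + 1) ≤ (k + 2 * k3)
      · by_cases z152 : (Q + k) ≤ (i + k3)
        · by_cases z153 : (k3) ≤ (i + l + 1)
          · have kk1874 : (k3) ≤ (i + l + m + 1) := by clear * - b0 b10 b2 b5 b9 z148 z151 z153; omega
            have kk1875 : (k + m + k3 + 2) ≤ (n + i + i2) := by clear * - b0 b10 b4 b6 z148 z151 z152 z153; omega
            have kk1876 : (2 * i + l + i2 + 1) ≤ (k + k3) := by clear * - b8 y10 y16; omega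
            have kk1877 : (Q + k) ≤ (i + k3) := by clear * - z152; omega
            have kk1878 : (2 * i + l + m + 2) ≤ (k + k3) := by clear * - b8 y16; omega
            have kk1879 : (i + 1) ≤ (Q) := by clear * - b10 b2 b4 b8 y16; omega
            have kk1880 : (k3) ≤ (i + l + 1) := by clear * - z153; omega
            have r1881 : (i + l + m - k3 + 2) % 2 = 0 := by clear * - ev n1p n2p n3p; omega
            have r1882 : (n + i + i2 - k - m - k3 - 1) % 2 = 0 := by clear * - ev n1p n2p n3p; omega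
            clear * - al b D1 D2 n3 kk1874 kk1875 kk1876 kk1877 kk1878 kk1879 kk1880 r1881 r1882
            exact n3.f1 (rEE (sh al 0 (i + l + m + 2) (i + l + m + 2) (by omega)) (sh al 0 (k3) (k3) (by omega)) (Eq.symm (rotL (i + l + m - k3 + 2) (n + i + i2 - k - m - k3 - 1) (k3) (i + l + m + 2) (by omega) (fun t h1 h2 => (pb D2 al 0 t (t + (i + l + m - k3 + 2)) (by omega))) (fun t h1 h2 => (qf (show Par W (Q + k - i) (k + k3 - i) (n + i + i2 - k - m - k3 - 1) from fun t h1 h2 => (cE (sh al (-1) t (t + (-n)) (by omega)) (cE (pb b al (-1) (t + (-n)) (t + (i - k)) (by omega)) (qf D1 al 0 (t + (i - k)) (t + (n + i + i2 - k - m - k3 - 1)) (by omega))))) al 0 t (t + (n + i + i2 - k - m - k3 - 1)) (by omega))))))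
          · have kk1883 : (k + m + k3 + 2) ≤ (n + i + i2) := by clear * - b0 b10 b4 b5 b8 z148 z149 z153; omega
            have kk1884 : (Q) ≤ (i + l + 1) := by clear * - b10 b5 b8 b9 z148 z151 z152; omega
            have kk1885 : (Q + k) ≤ (i + k3) := by clear * - z152; omega
            have kk1886 : (m + 2 * k3 + 1) ≤ (n + i + l + i2) := by clear * - b10 b5 b8 b9 z148 z152; omega
            have kk1887 : (Q + k) ≤ (2 * i + l + m + 2) := by clear * - b0 b10 b5 b9 z148 z149 z151 z152 z153; omega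
            have kk1888 : (2 * m + k3 + 3) ≤ (n + i2) := by clear * - b10 b4 b5 b8 z148 z149 z153; omega
            have kk1889 : (i + m) ≤ (k) := by clear * - y15; omega
            have kk1890 : (i + 1) ≤ (Q) := by clear * - b10 b5 b9 z148 z151 z153; omega
            have kk1891 : (i + l + 1) ≤ (k3) := by clear * - z153; omega
            have kk1892 : (Q + k) ≤ (2 * i + l + m + 3) := by clear * - b0 b10 b5 b9 z148 z149 z151 z152 z153; omega
            have kk1893 : (Q + k) ≤ (i + k3 + 1) := by clear * - z152; omega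
            have kk1894 : (k3) ≤ (i + l + m + 2) := by clear * - y19; omega
            have kk1895 : (i + l + i2) ≤ (m + k3) := by clear * - y10 z153; omega
            have r1896 : (i + l + m - k3 + 2) % 2 = 0 := by clear * - ev n1p n2p n3p; omega
            have r1897 : (n + i + i2 - k - m - k3 - 1) % 2 = 0 := by clear * - ev n1p n2p n3p; omega
            clear * - al b D1 D2 n3 kk1883 kk1884 kk1885 kk1886 kk1887 kk1888 kk1889 kk1890 kk1891 kk1892 kk1893 kk1894 kk1895 r1896 r1897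
            exact ivt0 (n + Q + k - i) (n + k + l + 1) (n + i + i2 - k - m - k3 - 1) (n + k3 + 1) (2 * n + i2 - 2 * m - 2) (i + l + m - k3 + 2) (n + k3) (n + i + l + m + 2) 0 (fun t h1 h2 => (cE (qf (show Par W (Q + k - i) (k + l + 1) (n + i + i2 - k - m - k3 - 1) from fun t h1 h2 => (cE (sh al (-1) t (t + (-n)) (by omega)) (cE (pb b al (-1) (t + (-n)) (t + (i - k)) (by omega)) (qf D1 al 0 (t + (i - k)) (t + (n + i + i2 - k - m - k3 - 1)) (by omega))))) al 1 t (t + (i + i2 - k - m - k3 - 1)) (by omega)) (sh al 1 (t + (i + i2 - k - m - k3 - 1)) (t + (n + i + i2 - k - m - k3 - 1)) (by omega)))) (fun t h1 h2 => (cE (pb D2 al 1 t (t + (i + l + m - n - k3 + 2)) (by omega)) (sh al 1 (t + (i + l + m - n - k3 + 2)) (t + (i + l + m - k3 + 2)) (by omega)))) (fun hh => n3.f1 (rEE (sh al 1 (i + l + m + 2) (n + i + l + m + 2) (by omega)) (sh al 1 (k3) (n + k3) (by omega)) (Eq.symm (Eq.symm hh)))) (by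 omega) (by omega)
        · by_cases z154 : (n + i2) ≤ (2 * k + l + 1)
          · have kk1898 : (2 * k + l + 2) ≤ (n + j + i2) := by clear * - b0 y16 z149 ev n1p n2p n3p; omega
            have kk1899 : (j + i2) ≤ (2 * k + l) := by clear * - b10 b2 b6 b8 b9 z151 z152 z154; omega
            have kk1900 : (j + i2 + 1) ≤ (k) := by clear * - b0 b10 b6 b9 z149 z151 z152 z154; omega
            have kk1901 : (n + i2) ≤ (2 * k + l + 1) := by clear * - z154; omega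
            clear * - al a1 c2 kk1898 kk1899 kk1900 kk1901
            exact al.ubP (n + j + i2 - 2 * k - l - 1) (by omega) (by omega) fun t h1 h2 => (cE (sh al 1 t (t + (n)) (by omega)) (cE (qf c2 al 0 (t + (n)) (t + (n + i2 - k - l - 1)) (by omega)) (pb a1 al 0 (t + (n + i2 - k - l - 1)) (t + (n + j + i2 - 2 * k - l - 1)) (by omega))))
          · have kk1902 : (n + i + 2 * i2 + 1) ≤ (k + 2 * k3) := by clear * - z151; omega
            have kk1903 : (k + 2 * k3 + 1) ≤ (2 * n + i + 2 * i2) := by clear * - b10 b2 b6 b8 b9 z152; omega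
            have kk1904 : (Q + k + l + 1) ≤ (n + i2) := by clear * - b6; omega
            have kk1905 : (k + 2 * k3 + 1) ≤ (n + Q + i + i2) := by clear * - b0 b10 b4 b5 b9 z149 z152 z154; omega
            have kk1906 : (m + 2 * k3 + 2) ≤ (n + Q + i2) := by clear * - b0 b10 b4 b6 z149 z151 z152; omega
            have kk1907 : (k3) ≤ (i + l + i2 + 1) := by clear * - b6 b9 z152; omega
            clear * - al c2 D1 D2 kk1902 kk1903 kk1904 kk1905 kk1906 kk1907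
            exact al.ubQ (k + 2 * k3 - n - i - 2 * i2) (by omega) (by omega) fun t h1 h2 => (cE (sh al 1 t (t + (n)) (by omega)) (cE (cE (pb c2 al 1 (t + (n)) (t + (k + l - i2 + 1)) (by omega)) (qf D2 al 0 (t + (k + l - i2 + 1)) (t + (k + k3 - i - i2 - m - 1)) (by omega))) (pb D1 al 0 (t + (k + k3 - i - i2 - m - 1)) (t + (k + 2 * k3 - n - i - 2 * i2)) (by omega))))
      · by_cases z155 : (n + 2 * i2) ≤ (k + l + k3 + 1)
        · by_cases v47 : (n + Q + 2 * i2) ≤ (i + k + l + m + k3 + 3)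
          · have kk1908 : (k) ≤ (i + l + m + 1) := by clear * - b0 b10 b2 b5 b6 b9 y18; omega
            have kk1909 : (i + m + 2) ≤ (k) := by clear * - b8 y16 z151 z155; omega
            have kk1910 : (2 * i + l + m + 3) ≤ (k + k3) := by clear * - b8 y16; omega
            have kk1911 : (i + l + m + k3 + 3) ≤ (n + 2 * i2) := by clear * - b8 y16 z151; omega
            have kk1912 : (n + 2 * i2) ≤ (k + l + k3 + 1) := by clear * - z155; omega
            have kk1913 : (2 * k + k3 + 1) ≤ (n + i + 2 * i2) := by clear * - b0 b10 b9 y16 z149 z151; omega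
            have kk1914 : (k) ≤ (i + l + m + 2) := by clear * - b0 b10 b2 b5 b6 b9 y18; omega
            have kk1915 : (k + l + 1) ≤ (n) := by clear * - b10 b2 b6 b8 b9 z151; omega
            have kk1916 : (i2) ≤ (i) := by clear * - y17; omega
            have kk1917 : (n + Q + 2 * i2) ≤ (i + k + l + m + k3 + 3) := by clear * - v47; omega
            have kk1918 : (n + 2 * i2) ≤ (i + k + 2 * l + m + 3) := by clear * - b10 b2 b5 b8 b9 z151 z155; omega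
            have kk1919 : (i2) ≤ (m + 1) := by clear * - y10; omega
            have r1920 : (k + k3 - 2 * i - l - m - 2) % 2 = 0 := by clear * - ev n1p n2p n3p; omega
            have r1921 : (n + 2 * i2 - i - l - m - k3 - 2) % 2 = 0 := by clear * - ev n1p n2p n3p; omega
            clear * - al b c2 D1 D2 n3 kk1908 kk1909 kk1910 kk1911 kk1912 kk1913 kk1914 kk1915 kk1916 kk1917 kk1918 kk1919 r1920 r1921
            exact n3.f1 (rEE (cE (pb b al 0 (i + l + m + 2) (2 * i + l + m - k + 2) (by omega)) (sh al (-1) (2 * i + l + m - k + 2) (2 * i + l + m - n - k + 2) (by omega))) (sh al (-1) (k3) (k3 - n) (by omega)) (rotL (k + k3 - 2 * i - l - m - 2) (n + 2 * i2 - i - l - m - k3 - 2) (2 * i + l + m - n - k + 2) (k3 - n) (by omega) (fun t h1 h2 => (cE (qf (show Par W (2 * i + l + m - k + 3) (i + l + 1) (k + k3 - 2 * i - l - m - 2) from fun t h1 h2 => (cE (sh al (-1) t (t + (-n)) (by omega)) (cE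 (qf b al (-1) (t + (-n)) (t + (k - i)) (by omega)) (qf D2 al 0 (t + (k - i)) (t + (k + k3 - 2 * i - l - m - 2)) (by omega))))) al (-1) t (t + (n + k + k3 - 2 * i - l - m - 2)) (by omega)) (sh al (-1) (t + (n + k + k3 - 2 * i - l - m - 2)) (t + (k + k3 - 2 * i - l - m - 2)) (by omega)))) (fun t h1 h2 => (cE (cE (cE (qf D1 al (-1) t (t + (2 * n + i2 - m - k3 - 1)) (by omega)) (qf c2 al 0 (t + (2 * n + i2 - m - k3 - 1)) (t + (2 * n + 2 * i2 - k - l - m - k3 - 2)) (by omega))) (qf b al 0 (t + (2 * n + 2 * i2 - k - l - m - k3 - 2)) (t + (2 * n + 2 * i2 - i - l - m - k3 - 2)) (by omega))) (sh al (-1) (t + (2 * n + 2 * i2 - i - l - m - k3 - 2)) (t + (n + 2 * i2 - i - l - m - k3 - 2)) (by omega))))))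
          · have kk1922 : (k) ≤ (i + l + m + 1) := by clear * - b0 b10 b2 b5 b6 b9 y18; omega
            have kk1923 : (i + m + 2) ≤ (k) := by clear * - b5 b8 v47 z155; omega
            have kk1924 : (2 * i + l + m + 3) ≤ (k + k3) := by clear * - b8 y16; omega
            have kk1925 : (i + l + m + k3 + 3) ≤ (n + 2 * i2) := by clear * - b5 b8 v47; omega
            have kk1926 : (n + 2 * i2) ≤ (k + l + k3 + 1) := by clear * - z155; omega
            have kk1927 : (Q + k) ≤ (2 * i + l + m + 2) := by clear * - b6 b9 y10; omega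
            have kk1928 : (k) ≤ (i + l + m + 2) := by clear * - b0 b10 b2 b5 b6 b9 y18; omega
            have kk1929 : (k + l + 1) ≤ (n) := by clear * - b10 b2 b6 b8 b9 z151; omega
            have kk1930 : (i2) ≤ (i) := by clear * - y17; omega
            have kk1931 : (i + k + l + m + k3 + 3) ≤ (n + Q + 2 * i2) := by clear * - v47; omega
            have kk1932 : (n + 2 * i2) ≤ (i + k + 2 * l + m + 3) := by clear * - b10 b2 b5 b8 b9 z151 z155; omega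
            have kk1933 : (i2) ≤ (m + 1) := by clear * - y10; omega
            have r1934 : (k + k3 - 2 * i - l - m - 2) % 2 = 0 := by clear * - ev n1p n2p n3p; omega
            have r1935 : (n + 2 * i2 - i - l - m - k3 - 2) % 2 = 0 := by clear * - ev n1p n2p n3p; omega
            clear * - al b c2 D1 D2 n3 kk1922 kk1923 kk1924 kk1925 kk1926 kk1927 kk1928 kk1929 kk1930 kk1931 kk1932 kk1933 r1934 r1935
            exact n3.f1 (rEE (cE (pb b al 0 (i + l + m + 2) (2 * i + l + m - k + 2) (by omega)) (sh al (-1) (2 * i + l + m - k + 2) (2 * i + l + m - n - k + 2) (by omega))) (sh al (-1) (k3) (k3 - n) (by omega)) (rotL (k + k3 - 2 * i - l - m - 2) (n + 2 * i2 - i - l - m - k3 - 2) (2 * i + l + m - n - k + 2) (k3 - n) (by omega) (fun t h1 h2 => (cE (qf (show Par W (2 * i + l + m - k + 3) (i + l + 1) (k + k3 - 2 * i - l - m - 2) from fun t h1 h2 => (cE (sh al (-1) t (t + (-n)) (by omega)) (cE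 (qf b al (-1) (t + (-n)) (t + (k - i)) (by omega)) (qf D2 al 0 (t + (k - i)) (t + (k + k3 - 2 * i - l - m - 2)) (by omega))))) al (-1) t (t + (n + k + k3 - 2 * i - l - m - 2)) (by omega)) (sh al (-1) (t + (n + k + k3 - 2 * i - l - m - 2)) (t + (k + k3 - 2 * i - l - m - 2)) (by omega)))) (fun t h1 h2 => (cE (cE (cE (qf D1 al (-1) t (t + (2 * n + i2 - m - k3 - 1)) (by omega)) (qf c2 al 0 (t + (2 * n + i2 - m - k3 - 1)) (t + (2 * n + 2 * i2 - k - l - m - k3 - 2)) (by omega))) (qf b al 0 (t + (2 * n + 2 * i2 - k - l - m - k3 - 2)) (t + (2 * n + 2 * i2 - i - l - m - k3 - 2)) (by omega))) (sh al (-1) (t + (2 * n + 2 * i2 - i - l - m - k3 - 2)) (t + (n + 2 * i2 - i - l - m - k3 - 2)) (by omega))))))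
        · by_cases z156 : (Q + i + l + m + 1) ≤ (2 * k3)
          · have kk1936 : (i + 1) ≤ (k3) := by clear * - b10 b2 b4 b5 b8 z156; omega
            have kk1937 : (k3) ≤ (i + l) := by clear * - b10 b9 y1 y17 z155; omega
            have kk1938 : (k + m + k3 + 2) ≤ (n + i + i2) := by clear * - b10 b5 b6 b8 b9 z148 z149 z155; omega
            have kk1939 : (k3) ≤ (i + l + m + 1) := by clear * - b10 b2 b5 b8 b9 z151; omega
            have kk1940 : (Q + i + l + m + 1) ≤ (2 * k3) := by clear * - z156; omega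
            have kk1941 : (2 * i + l + m + 2) ≤ (k + k3) := by clear * - b8 y16; omega
            have kk1942 : (i2) ≤ (m) := by clear * - y10; omega
            have kk1943 : (i + 1) ≤ (Q) := by clear * - b10 b2 b8 b9 y16 z151; omega
            have kk1944 : (k3) ≤ (i + l + 1) := by clear * - b10 b9 y1 y17 z155; omega
            have r1945 : (n + i + i2 - k - m - k3 - 1) % 2 = 0 := by clear * - ev n1p n2p n3p; omega
            have r1946 : (i + l + m - k3 + 2) % 2 = 0 := by clear * - ev n1p n2p n3p; omega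
            clear * - al b D1 D2 n3 kk1936 kk1937 kk1938 kk1939 kk1940 kk1941 kk1942 kk1943 kk1944 r1945 r1946
            exact n3.f0 (rEE (sh al (-1) (n + i2 - m - 1) (i2 - m - 1) (by omega)) (cE (qf b al 0 (k3) (k + k3 - i) (by omega)) (sh al (-1) (k + k3 - i) (k + k3 - n - i) (by omega))) (Eq.symm (rotR (n + i + i2 - k - m - k3 - 1) (i + l + m - k3 + 2) (k + k3 - n - i) (i2 - m - 1) (by omega) (fun t h1 h2 => (cE (cE (pb b al (-1) t (t + (n + i - k)) (by omega)) (qf D1 al 0 (t + (n + i - k)) (t + (2 * n + i + i2 - k - m - k3 - 1)) (by omega))) (sh al (-1) (t + (2 * n + i + i2 - k - m - k3 - 1)) (t + (n + i + i2 - k - m - k3 - 1)) (by omega)))) (fun t h1 h2 => (cE (pb D2 al (-1) t (t + (n + i + l + m - k3 + 2)) (by omega)) (sh al (-1) (t + (n + i + l + m - k3 + 2)) (t + (i + l + m - k3 + 2)) (by omega)))))))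
          · by_cases z157 : (k + l + m + k3 + 3) ≤ (n + Q + i2)
            · have kk1947 : (n + 2 * i2) ≤ (k + l + m + k3 + 1) := by clear * - b8 b9 y10 y16; omega
              have kk1948 : (k + l + m + k3 + 3) ≤ (2 * n + 2 * i2) := by clear * - b10 b2 b5 b7 b8 b9 z148 z155; omega
              have kk1949 : (Q + k + l + m + 2) ≤ (n + 2 * i2) := by clear * - b7 z155; omega
              have kk1950 : (k + l + m + k3 + 3) ≤ (n + Q + i2) := by clear * - z157; omega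
              have kk1951 : (i2) ≤ (m + 1) := by clear * - y10; omega
              clear * - al c2 D1 kk1947 kk1948 kk1949 kk1950 kk1951
              exact al.ubQ (k + l + m + k3 - n - 2 * i2 + 2) (by omega) (by omega) fun t h1 h2 => (cE (sh al 1 t (t + (n)) (by omega)) (cE (pb c2 al 1 (t + (n)) (t + (k + l - i2 + 1)) (by omega)) (pb D1 al 0 (t + (k + l - i2 + 1)) (t + (k + l + m + k3 - n - 2 * i2 + 2)) (by omega))))
            · have kk1952 : (2 * i + l + m + 3) ≤ (k + k3) := by clear * - b8 y16; omega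
              have kk1953 : (k + k3) ≤ (n + 2 * i + l + m + 1) := by clear * - b10 b2 b8 b9 z148 z149 z155 z156 z157; omega
              have kk1954 : (i + k3 + 1) ≤ (Q + k) := by clear * - b8 y16 z156; omega
              have kk1955 : (Q + k) ≤ (2 * i + l + 1) := by clear * - b10 b8 b9 z149 z151 z155 z157; omega
              have kk1956 : (k) ≤ (i + l + m + 2) := by clear * - b10 b2 b8 b9 z148 z149 z155 z156 z157; omega
              have kk1957 : (k + l + 1) ≤ (n) := by clear * - b10 b2 b8 b9 z148 z149 z155 z156 z157; omega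
              have kk1958 : (2 * k) ≤ (2 * i + l + m + 2) := by clear * - b10 b2 b8 b9 z149 z155 z157; omega
              have kk1959 : (k) ≤ (k3) := by clear * - b10 b2 b8 b9 y16 z149 z155 z157; omega
              have kk1960 : (i) ≤ (k) := by clear * - b10 b8 b9 z148 z151 z155 z157; omega
              have kk1961 : (k3) ≤ (i + l + m + 2) := by clear * - b10 b8 b9 z148 z149 z155 z156 z157; omega
              clear * - al b D2 kk1952 kk1953 kk1954 kk1955 kk1956 kk1957 kk1958 kk1959 kk1960 kk1961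
              exact al.ubQ (k + k3 - 2 * i - l - m - 2) (by omega) (by omega) fun t h1 h2 => (cE (cE (qf b al 0 t (t + (k - i)) (by omega)) (qf (show Par W (2 * i + l + m - k + 3) (i + l + 1) (k + k3 - 2 * i - l - m - 2) from fun t h1 h2 => (cE (sh al (-1) t (t + (-n)) (by omega)) (cE (qf b al (-1) (t + (-n)) (t + (k - i)) (by omega)) (qf D2 al 0 (t + (k - i)) (t + (k + k3 - 2 * i - l - m - 2)) (by omega))))) al 0 (t + (k - i)) (t + (2 * k + k3 - 3 * i - l - m - 2)) (by omega))) (pb b al 0 (t + (2 * k + k3 - 3 * i - l - m - 2)) (t + (k + k3 - 2 * i - l - m - 2)) (by omega)))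

theorem h8_76p
    {W : ℤ → G} {n Q i j k l i2 m k3 : ℤ} (al : AL W n Q)
    (hy : (0) ≤ (i) ∧ (i) ≤ (j) ∧ (j + 1) ≤ (Q) ∧ (Q) ≤ (k) ∧ (k + 1) ≤ (n) ∧ (Q) ≤ (i + l + 1) ∧ (k + l + 2) ≤ (n) ∧ (0) ≤ (i2) ∧ (i2 + 1) ≤ (Q) ∧ (Q + m + 1) ≤ (n + i2) ∧ (i2) ≤ (m) ∧ (Q) ≤ (i + l + m + 2) ∧ (i + l + m + 3) ≤ (n) ∧ (Q) ≤ (k3) ∧ (k3 + 1) ≤ (n) ∧ (i + m + 2) ≤ (k) ∧ (i) ≤ (i2) ∧ (i2) ≤ (i) ∧ (i + m + 2) ≤ (k3) ∧ (k3) ≤ (i + l + m + 1) ∧ (m + k3 + 2) ≤ (n + i2))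
    (a1 : Par W (0) (j) (k - j))
    (a2 : Par W (Q + j - k) (j) (k - j))
    (s1 : Ant W (0) (i) (i + j))
    (s2 : Ant W (j + 1) (Q) (i + j))
    (b : Par W (i + 1) (i + l + 1) (k - i))
    (c1 : Par W (i2 + 1) (Q) (k + l - i2 + 1))
    (c2 : Par W (k + l + 2) (n) (i2 - k - l - 1))
    (tt : Ant W (i2 - m) (i2) (i + l + i2 + 1))
    (D1 : Par W (Q) (k3) (n + i2 - m - k3 - 1))
    (D2 : Par W (i + l + m + 3) (n) (k3 - i - l - m - 2))
    {L : ℤ} (mx : ∀ a b g, 0 < g → g < n → Par W a b g → b - a ≤ L)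
    (hL : L ≤ (n - j - 3) ∧ L ≤ (n + Q - k - 3) ∧ L ≤ (n - l - 3) ∧ L ≤ (n + i - k - 2))
    (bd0 : Bd W n L (j) (i) (k))
    (n1 : Nd W (j) (i) (k))
    (n2 : Nd W (i + l + 1) (i2) (k + l + 1))
    (n3 : Nd W (n + i2 - m - 1) (i + l + m + 2) (k3))
    (b0 : (2 * l + 3) ≤ (n))
    (b1 : (2 * i + 2 * l + 3 * m + 5) ≤ (n + i2 + k3))
    (b2 : (2 * i + j + 1) ≤ (k))
    (b3 : (2 * Q + k + l) ≤ (n + 2 * j + i2))
    (b4 : (m + k3) ≤ (i + l + 2 * i2 + 1))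
    (b5 : (1) ≤ (m))
    (b6 : (Q + k3) ≤ (i + l + i2 + m + 2))
    (b7 : (n + i2) ≤ (Q + k + l))
    (b8 : (2 * k + l + 1) ≤ (n + j + i2)) : False := by
  have ev := al.ev
  obtain ⟨y0, y1, y2, y3, y4, y5, y6, y7, y8, y9, y10, y11, y12, y13, y14, y15, y16, y17, y18, y19, y20⟩ := id hy
  have n1p := And.intro n1.p1 n1.p2
  have n2p := And.intro n2.p1 n2.p2
  have n3p := And.intro n3.p1 n3.p2
  by_cases z181 : (n + k3) ≤ (2 * k + l + m + 2)
  · have kk2318 : (2 * k + l + m + 3) ≤ (n + j + k3) := by clear * - b8 y17 y18; omega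
    have kk2319 : (j + k3) ≤ (2 * k + l + m + 1) := by clear * - b1 b2 b4 b5 b6 b7 b8 y17; omega
    have kk2320 : (i + j + k3 + 1) ≤ (2 * k) := by clear * - b1 b2 b6 b8 y17 y2 z181; omega
    have kk2321 : (i + j + 1) ≤ (k) := by clear * - b2 y17 y7; omega
    have kk2322 : (n + k3) ≤ (2 * k + l + m + 2) := by clear * - z181; omega
    have kk2323 : (n + k3) ≤ (i + k + 2 * l + m + 3) := by clear * - b6 b7; omega
    clear * - al a1 b D2 kk2318 kk2319 kk2320 kk2321 kk2322 kk2323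
    exact al.ubP (n + j + k3 - 2 * k - l - m - 2) (by omega) (by omega) fun t h1 h2 => (cE (sh al 1 t (t + (n)) (by omega)) (cE (cE (qf D2 al 0 (t + (n)) (t + (n + k3 - i - l - m - 2)) (by omega)) (pb b al 0 (t + (n + k3 - i - l - m - 2)) (t + (n + k3 - k - l - m - 2)) (by omega))) (pb a1 al 0 (t + (n + k3 - k - l - m - 2)) (t + (n + j + k3 - 2 * k - l - m - 2)) (by omega))))
  · by_cases z182 : (2 * k + l + 2) ≤ (n + j + i2)
    · have kk2324 : (2 * k + l + 2) ≤ (n + j + i2) := by clear * - z182; omega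
      have kk2325 : (j + i2) ≤ (2 * k + l) := by clear * - b1 b2 b5 b6 b7 y17 z181; omega
      have kk2326 : (n + i2) ≤ (Q + k + l + 1) := by clear * - b7; omega
      have kk2327 : (j + i2 + 1) ≤ (k) := by clear * - b2 y17 y7; omega
      have kk2328 : (Q) ≤ (k) := by clear * - y3; omega
      clear * - al a1 c1 kk2324 kk2325 kk2326 kk2327 kk2328
      exact al.ubP (n + j + i2 - 2 * k - l - 1) (by omega) (by omega) fun t h1 h2 => (cE (pb c1 al (-1) t (t + (n + i2 - k - l - 1)) (by omega)) (pb a1 al 0 (t + (n + i2 - k - l - 1)) (t + (n + j + i2 - 2 * k - l - 1)) (by omega)))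
    · by_cases z183 : (k) ≤ (i + 2 * j)
      · by_cases z184 : (2 * j + 2) ≤ (i + k)
        · have kk2329 : (k) ≤ (i + 2 * j) := by clear * - z183; omega
          have kk2330 : (2 * j + 1) ≤ (i + k) := by clear * - z184; omega
          have kk2331 : (i) ≤ (j) := by clear * - b2 z183; omega
          have r2332 : (i + k - 2 * n) % 2 = 0 := by clear * - ev n1p n2p n3p; omega
          clear * - al a1 s1 kk2329 kk2330 kk2331 r2332
          obtain ⟨t, ht⟩ : ∃ t, 2 * t = (i + k - 2 * n) := ⟨(i + k - 2 * n) / 2, by omega⟩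
          exact al.ninv t (cE (cI (pb a1 al (-1) t (t + (n + j - k)) (by omega)) (qa s1 al 0 (t + (n + j - k)) ((i + k - n) - t) (by omega))) (sh al (-1) ((i + k - n) - t) t (by omega)))
        · by_cases z185 : (n + 2 * i2) ≤ (2 * i + 2 * l + 2 * m + 3)
          · have kk2333 : (2 * i + 2 * l + 4) ≤ (n + 2 * i2) := by clear * - b0 y16 ev n1p n2p n3p; omega
            have kk2334 : (n + 2 * i2) ≤ (2 * i + 2 * l + 2 * m + 3) := by clear * - z185; omega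
            have kk2335 : (n + 2 * i2) ≤ (Q + k + l + 1) := by clear * - y17 y2 z182 z184; omega
            have kk2336 : (k) ≤ (i + l + 1) := by clear * - b6 b7 z181; omega
            have kk2337 : (k + l + m + 2) ≤ (n + i2) := by clear * - b1 b6 b8 y17 y2; omega
            have kk2338 : (i + m + 1) ≤ (k) := by clear * - b0 b2 b4 z181 z182 z183 z184; omega
            have r2339 : (2 * i + 2 * i2 - n - 2 * k) % 2 = 0 := by clear * - ev n1p n2p n3p; omega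
            clear * - al b c1 tt kk2333 kk2334 kk2335 kk2336 kk2337 kk2338 r2339
            obtain ⟨t, ht⟩ : ∃ t, 2 * t = (2 * i + 2 * i2 - n - 2 * k) := ⟨(2 * i + 2 * i2 - n - 2 * k) / 2, by omega⟩
            exact al.ninv t (cE (cE (cI (qf b al (-1) t (t + (n + k - i)) (by omega)) (ab tt al 0 (t + (n + k - i)) ((2 * i + l + i2 - n - k + 1) - t) (by omega))) (pb c1 al (-1) ((2 * i + l + i2 - n - k + 1) - t) ((2 * i + 2 * i2 - 2 * k) - t) (by omega))) (sh al (-1) ((2 * i + 2 * i2 - 2 * k) - t) t (by omega)))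
          · have kk2340 : (i + m + 2) ≤ (k) := by clear * - b0 b5 b6 b7 z181 z182 z184 z185; omega
            have kk2341 : (k + l + 2) ≤ (n) := by clear * - b2 b5 b6 b7 b8 y17 z181 z185; omega
            have kk2342 : (i + 1) ≤ (k) := by clear * - b0 b5 b6 b7 z181 z182 z184 z185; omega
            have kk2343 : (0) ≤ (l) := by clear * - b0 b5 b6 b7 z181 z182 z184 z185; omega
            have kk2344 : (2 * i + m + 2) ≤ (k + k3) := by clear * - b1 b2 b5 b6 b7 z181 z182 z183; omega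
            have kk2345 : (k3) ≤ (i + l + m + 1) := by clear * - y19; omega
            have kk2346 : (n + 2 * i2) ≤ (Q + k + l + 1) := by clear * - y17 y2 z182 z184; omega
            have kk2347 : (k + l + m + 2) ≤ (n + i2) := by clear * - b0 b6 b7 z181 z185; omega
            have kk2348 : (0) ≤ (l + m + 2) := by clear * - b0 b5 b6 b7 z181 z182 z184 z185; omega
            have kk2349 : (i) ≤ (k3) := by clear * - b5 b6 b7 z181 z182 z183 z184 z185; omega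
            have kk2350 : (k + l + 1) ≤ (n) := by clear * - b2 b5 b6 b7 b8 y17 z181 z185; omega
            have kk2351 : (k3) ≤ (i + l + m + 2) := by clear * - y19; omega
            have kk2352 : (n + 2 * i2) ≤ (2 * k + l + 1) := by clear * - b0 b6 b7 z181 z182 z184; omega
            have kk2353 : (0) ≤ (l + 1) := by clear * - b0 b5 b6 b7 z181 z182 z184 z185; omega
            have kk2354 : (i + k + l + m + 2) ≤ (n + 2 * i2) := by clear * - b5 b6 b7 z181 z185; omega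
            have kk2355 : (i + m + 1) ≤ (k) := by clear * - b0 b5 b6 b7 z181 z182 z184 z185; omega
            have r2356 : (i + l + m - k3 + 2) % 2 = 0 := by clear * - ev n1p n2p n3p; omega
            have r2357 : (k - i) % 2 = 0 := by clear * - ev n1p n2p n3p; omega
            have r2358 : (i + 2 * i2 - n - k) % 2 = 0 := by clear * - ev n1p n2p n3p; omega
            clear * - al b c1 tt D2 n2 kk2340 kk2341 kk2342 kk2343 kk2344 kk2345 kk2346 kk2347 kk2348 kk2349 kk2350 kk2351 kk2352 kk2353 kk2354 kk2355 r2356 r2357 r2358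
            exact ivt al.ninv (i - n + 1) (i + l - n + 1) (k - i) (k3 - n + 1) (k + k3 - n - i - m - 1) (i + l + m - k3 + 2) (k + k3 - n - i - m - 1) (i + l - n + 1) (-1) (fun t h1 h2 => (cE (qf b al (-1) t (t + (n + k - i)) (by omega)) (sh al (-1) (t + (n + k - i)) (t + (k - i)) (by omega)))) (fun t h1 h2 => (cE (pb D2 al (-1) t (t + (n + i + l + m - k3 + 2)) (by omega)) (sh al (-1) (t + (n + i + l + m - k3 + 2)) (t + (i + l + m - k3 + 2)) (by omega)))) (fun hh => n2.f0 (rEE (sh al (-1) (i + l + 1) (i + l - n + 1) (by omega)) (cE (qf D2 al 0 (k + l + 1) (k + k3 - i - m - 1) (by omega)) (sh al (-1) (k + k3 - i - m - 1) (k + k3 - n - i - m - 1) (by omega))) (Eq.symm (Eq.symm hh)))) (by omega) (i + l - n + 2) (i + l + m - n + 2) (i + 2 * i2 - n - k) 1 (-1) (fun t h1 h2 => (cE (cE (ab tt al (-1) t ((i + l + i2 - n + 1) - t) (by omega)) (pb c1 al (-1) ((i + l + i2 - n + 1) - t) ((i + 2 * i2 -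 k) - t) (by omega))) (sh al (-1) ((i + 2 * i2 - k) - t) ((i + 2 * i2 - n - k) - t) (by omega)))) (by omega)
      · by_cases v65 : (Q + k + l + 1) ≤ (n + i + i2)
        · have kk2359 : (n + i + j + i2 + 1) ≤ (2 * Q + k + l) := by clear * - b7 b8 z183; omega
          have kk2360 : (n + i + j + i2) ≤ (2 * Q + k + l) := by clear * - b7 b8 z183; omega
          have kk2361 : (Q + k + l + 1) ≤ (n + i + i2) := by clear * - v65; omega
          have kk2362 : (Q + k + l + 1) ≤ (n + i + j) := by clear * - b3 b7 b8 v65 y17 z183; omega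
          have r2363 : (i + j + i2 - n - k - l - 1) % 2 = 0 := by clear * - ev n1p n2p n3p; omega
          clear * - al s2 c1 kk2359 kk2360 kk2361 kk2362 r2363
          obtain ⟨t, ht⟩ : ∃ t, 2 * t = (i + j + i2 - n - k - l - 1) := ⟨(i + j + i2 - n - k - l - 1) / 2, by omega⟩
          exact al.ninv t (cE (cE (qa s2 al (-1) t ((i + j - n) - t) (by omega)) (pb c1 al (-1) ((i + j - n) - t) ((i + j + i2 - k - l - 1) - t) (by omega))) (sh al (-1) ((i + j + i2 - k - l - 1) - t) t (by omega)))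
        · have kk2364 : (j + k + l + 3) ≤ (n + i + i2) := by clear * - b8 y17 y7 z183 ev n1p n2p n3p; omega
          have kk2365 : (n + i + j + i2) ≤ (2 * Q + k + l) := by clear * - b7 b8 z183; omega
          have kk2366 : (n + i + i2) ≤ (Q + k + l + 1) := by clear * - v65; omega
          have kk2367 : (Q + k + l + 1) ≤ (n + i + j) := by clear * - b1 b3 b5 b6 b8 y17; omega
          have r2368 : (i + j + i2 - n - k - l - 1) % 2 = 0 := by clear * - ev n1p n2p n3p; omega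
          clear * - al s2 c1 kk2364 kk2365 kk2366 kk2367 r2368
          obtain ⟨t, ht⟩ : ∃ t, 2 * t = (i + j + i2 - n - k - l - 1) := ⟨(i + j + i2 - n - k - l - 1) / 2, by omega⟩
          exact al.ninv t (cE (cE (qa s2 al (-1) t ((i + j - n) - t) (by omega)) (pb c1 al (-1) ((i + j - n) - t) ((i + j + i2 - k - l - 1) - t) (by omega))) (sh al (-1) ((i + j + i2 - k - l - 1) - t) t (by omega)))

theorem h8_84p
    (h8_85 : ∀ {W : ℤ → G} {n Q i j k l i2 m k3 : ℤ} (al : AL W n Q) (hy : (0) ≤ (i) ∧ (i) ≤ (j) ∧ (j + 1) ≤ (Q) ∧ (Q) ≤ (k) ∧ (k + 1) ≤ (n) ∧ (Q) ≤ (i + l + 1) ∧ (k + l + 2) ≤ (n) ∧ (0) ≤ (i2) ∧ (i2 + 1) ≤ (Q) ∧ (Q + m + 1) ≤ (n + i2) ∧ (i2) ≤ (m) ∧ (Q) ≤ (i + l + m + 2) ∧ (i + l + m + 3) ≤ (n) ∧ (Q) ≤ (k3) ∧ (k3 + 1) ≤ (n) ∧ (i + m + 2) ≤ (k) ∧ (i) ≤ (i2) ∧ (i2) ≤ (i) ∧ (i + m + 2) ≤ (k3) ∧ (k3) ≤ (i + l + m + 1) ∧ (m + k3 + 2) ≤ (n + i2)) (a1 : Par W (0) (j) (k - j)) (a2 : Par W (Q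 + j - k) (j) (k - j)) (s1 : Ant W (0) (i) (i + j)) (s2 : Ant W (j + 1) (Q) (i + j)) (b : Par W (i + 1) (i + l + 1) (k - i)) (c1 : Par W (i2 + 1) (Q) (k + l - i2 + 1)) (c2 : Par W (k + l + 2) (n) (i2 - k - l - 1)) (tt : Ant W (i2 - m) (i2) (i + l + i2 + 1)) (D1 : Par W (Q) (k3) (n + i2 - m - k3 - 1)) (D2 : Par W (i + l + m + 3) (n) (k3 - i - l - m - 2)) {L : ℤ} (mx : ∀ a b g, 0 < g → g < n → Par W a b g → b - a ≤ L) (hL : L ≤ (n - j - 3) ∧ L ≤ (n + Q - k - 3) ∧ L ≤ (n - l - 3) ∧ L ≤ (n + i - k - 2)) (bd0 : Bd W n L (j) (i) (k)) (n1 : Nd W (j) (i) (k)) (n2 : Nd W (i + l + 1) (i2) (k + l + 1)) (n3 : Nd W (n + i2 - m - 1) (i + l + m + 2) (k3)) (b0 : (2 * l + 3) ≤ (n)) (b1 : (k + i2 + 1) ≤ (Q + j + m)) (b2 : (2 * Q + k + l) ≤ (n + 2 * j + i2)) (b3 : (m + k3) ≤ (i + l + 2 * i2 + 1)) (b4 : (1) ≤ (m)) (b5 : (i + l + i2 + m + 3) ≤ (Q + k3)) (b6 : (n + i2) ≤ (i + k + 2 * l + m + 2)) (b7 : (i + 2 *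 j + 1) ≤ (k)) (b8 : (i + 4 * k + 3 * l + 4) ≤ (2 * n + 2 * j + m + k3)) (b9 : (2 * i2 + k3) ≤ (i + l + m + 1)) (b10 : (2 * k + l + 2) ≤ (n + i2)), False)
    {W : ℤ → G} {n Q i j k l i2 m k3 : ℤ} (al : AL W n Q)
    (hy : (0) ≤ (i) ∧ (i) ≤ (j) ∧ (j + 1) ≤ (Q) ∧ (Q) ≤ (k) ∧ (k + 1) ≤ (n) ∧ (Q) ≤ (i + l + 1) ∧ (k + l + 2) ≤ (n) ∧ (0) ≤ (i2) ∧ (i2 + 1) ≤ (Q) ∧ (Q + m + 1) ≤ (n + i2) ∧ (i2) ≤ (m) ∧ (Q) ≤ (i + l + m + 2) ∧ (i + l + m + 3) ≤ (n) ∧ (Q) ≤ (k3) ∧ (k3 + 1) ≤ (n) ∧ (i + m + 2) ≤ (k) ∧ (i) ≤ (i2) ∧ (i2) ≤ (i) ∧ (i + m + 2) ≤ (k3) ∧ (k3) ≤ (i + l + m + 1) ∧ (m + k3 + 2) ≤ (n + i2))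
    (a1 : Par W (0) (j) (k - j))
    (a2 : Par W (Q + j - k) (j) (k - j))
    (s1 : Ant W (0) (i) (i + j))
    (s2 : Ant W (j + 1) (Q) (i + j))
    (b : Par W (i + 1) (i + l + 1) (k - i))
    (c1 : Par W (i2 + 1) (Q) (k + l - i2 + 1))
    (c2 : Par W (k + l + 2) (n) (i2 - k - l - 1))
    (tt : Ant W (i2 - m) (i2) (i + l + i2 + 1))
    (D1 : Par W (Q) (k3) (n + i2 - m - k3 - 1))
    (D2 : Par W (i + l + m + 3) (n) (k3 - i - l - m - 2))
    {L : ℤ} (mx : ∀ a b g, 0 < g → g < n → Par W a b g → b - a ≤ L)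
    (hL : L ≤ (n - j - 3) ∧ L ≤ (n + Q - k - 3) ∧ L ≤ (n - l - 3) ∧ L ≤ (n + i - k - 2))
    (bd0 : Bd W n L (j) (i) (k))
    (n1 : Nd W (j) (i) (k))
    (n2 : Nd W (i + l + 1) (i2) (k + l + 1))
    (n3 : Nd W (n + i2 - m - 1) (i + l + m + 2) (k3))
    (b0 : (2 * l + 3) ≤ (n))
    (b1 : (k + i2 + 1) ≤ (Q + j + m))
    (b2 : (2 * Q + k + l) ≤ (n + 2 * j + i2))
    (b3 : (m + k3) ≤ (i + l + 2 * i2 + 1))
    (b4 : (1) ≤ (m))
    (b5 : (i + l + i2 + m + 3) ≤ (Q + k3))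
    (b6 : (n + i2) ≤ (i + k + 2 * l + m + 2))
    (b7 : (i + 2 * j + 1) ≤ (k))
    (b8 : (i + 4 * k + 3 * l + 4) ≤ (2 * n + 2 * j + m + k3))
    (b9 : (2 * i2 + k3) ≤ (i + l + m + 1)) : False := by
  have ev := al.ev
  obtain ⟨y0, y1, y2, y3, y4, y5, y6, y7, y8, y9, y10, y11, y12, y13, y14, y15, y16, y17, y18, y19, y20⟩ := id hy
  have n1p := And.intro n1.p1 n1.p2
  have n2p := And.intro n2.p1 n2.p2
  have n3p := And.intro n3.p1 n3.p2
  by_cases z198 : (n + i2) ≤ (2 * k + l + 1)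
  · have kk2506 : (2 * k + l + 2) ≤ (n + j + i2) := by clear * - b3 b8; omega
    have kk2507 : (j + i2) ≤ (2 * k + l) := by clear * - b0 b2 b3 b5 b6 b7 b8 b9 z198; omega
    have kk2508 : (j + i2 + 1) ≤ (k) := by clear * - b3 b7 b8 y17 z198; omega
    have kk2509 : (n + i2) ≤ (2 * k + l + 1) := by clear * - z198; omega
    clear * - al a1 c2 kk2506 kk2507 kk2508 kk2509
    exact al.ubP (n + j + i2 - 2 * k - l - 1) (by omega) (by omega) fun t h1 h2 => (cE (sh al 1 t (t + (n)) (by omega)) (cE (qf c2 al 0 (t + (n)) (t + (n + i2 - k - l - 1)) (by omega)) (pb a1 al 0 (t + (n + i2 - k - l - 1)) (t + (n + j + i2 - 2 * k - l - 1)) (by omega))))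
  · exact h8_85 al hy a1 a2 s1 s2 b c1 c2 tt D1 D2 mx hL bd0 n1 n2 n3 (by clear * - b0; omega) (by clear * - b1; omega) (by clear * - b2; omega) (by clear * - b3; omega) (by clear * - b4; omega) (by clear * - b5; omega) (by clear * - b6; omega) (by clear * - b7; omega) (by clear * - b8; omega) (by clear * - b9; omega) (by clear * - z198; omega)

theorem h8_82p
    (h8_83 : ∀ {W : ℤ → G} {n Q i j k l i2 m k3 : ℤ} (al : AL W n Q) (hy : (0) ≤ (i) ∧ (i) ≤ (j) ∧ (j + 1) ≤ (Q) ∧ (Q) ≤ (k) ∧ (k + 1) ≤ (n) ∧ (Q) ≤ (i + l + 1) ∧ (k + l + 2) ≤ (n) ∧ (0) ≤ (i2) ∧ (i2 + 1) ≤ (Q) ∧ (Q + m + 1) ≤ (n + i2) ∧ (i2) ≤ (m) ∧ (Q) ≤ (i + l + m + 2) ∧ (i + l + m + 3) ≤ (n) ∧ (Q) ≤ (k3) ∧ (k3 + 1) ≤ (n) ∧ (i + m + 2) ≤ (k) ∧ (i) ≤ (i2) ∧ (i2) ≤ (i) ∧ (i + m + 2) ≤ (k3) ∧ (k3) ≤ (i + l + m + 1) ∧ (m + k3 + 2) ≤ (n + i2)) (a1 : Par W (0) (j) (k - j)) (a2 : Par W (Q + j - k) (j) (k - j)) (s1 : Ant W (0) (i) (i + j))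 (s2 : Ant W (j + 1) (Q) (i + j)) (b : Par W (i + 1) (i + l + 1) (k - i)) (c1 : Par W (i2 + 1) (Q) (k + l - i2 + 1)) (c2 : Par W (k + l + 2) (n) (i2 - k - l - 1)) (tt : Ant W (i2 - m) (i2) (i + l + i2 + 1)) (D1 : Par W (Q) (k3) (n + i2 - m - k3 - 1)) (D2 : Par W (i + l + m + 3) (n) (k3 - i - l - m - 2)) {L : ℤ} (mx : ∀ a b g, 0 < g → g < n → Par W a b g → b - a ≤ L) (hL : L ≤ (n - j - 3) ∧ L ≤ (n + Q - k - 3) ∧ L ≤ (n - l - 3) ∧ L ≤ (n + i - k - 2)) (bd0 : Bd W n L (j) (i) (k)) (n1 : Nd W (j) (i) (k)) (n2 : Nd W (i + l + 1) (i2) (k + l + 1)) (n3 : Nd W (n + i2 - m - 1) (i + l + m + 2) (k3)) (b0 : (2 * l + 3) ≤ (n)) (b1 : (k + i2 + 1) ≤ (Q + j + m)) (b2 : (2 * Q + k + l) ≤ (n + 2 * j + i2)) (b3 : (m + k3) ≤ (i + l + 2 * i2 + 1)) (b4 : (1) ≤ (m)) (b5 : (i + l + i2 + m + 3) ≤ (Q + k3)) (b6 : (n + i2) ≤ (i + k + 2 * l + m + 2)) (b7 : (i + 2 * j + 1) ≤ (k)) (b8 : (i + 4 * k + 3 * l + 4) ≤ (2 *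 n + 2 * j + m + k3)), False)
    (h8_92 : ∀ {W : ℤ → G} {n Q i j k l i2 m k3 : ℤ} (al : AL W n Q) (hy : (0) ≤ (i) ∧ (i) ≤ (j) ∧ (j + 1) ≤ (Q) ∧ (Q) ≤ (k) ∧ (k + 1) ≤ (n) ∧ (Q) ≤ (i + l + 1) ∧ (k + l + 2) ≤ (n) ∧ (0) ≤ (i2) ∧ (i2 + 1) ≤ (Q) ∧ (Q + m + 1) ≤ (n + i2) ∧ (i2) ≤ (m) ∧ (Q) ≤ (i + l + m + 2) ∧ (i + l + m + 3) ≤ (n) ∧ (Q) ≤ (k3) ∧ (k3 + 1) ≤ (n) ∧ (i + m + 2) ≤ (k) ∧ (i) ≤ (i2) ∧ (i2) ≤ (i) ∧ (i + m + 2) ≤ (k3) ∧ (k3) ≤ (i + l + m + 1) ∧ (m + k3 + 2) ≤ (n + i2)) (a1 : Par W (0) (j) (k - j)) (a2 : Par W (Q + j - k) (j) (k - j)) (s1 : Ant W (0) (i) (i + j)) (s2 : Ant W (j + 1) (Q) (i + j)) (b : Par W (i + 1) (i + l + 1) (k - i)) (c1 : Par W (i2 + 1) (Q) (k + l - i2 + 1)) (c2 : Par W (k + l + 2) (n) (i2 - k - l - 1)) (tt : Ant W (i2 - m) (i2) (i + l + i2 + 1)) (D1 : Par W (Q) (k3) (n + i2 - m - k3 - 1)) (D2 : Par W (i + l + m + 3) (n) (k3 - i - l - m - 2)) {L : ℤ} (mx : ∀ a b g, 0 <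 g → g < n → Par W a b g → b - a ≤ L) (hL : L ≤ (n - j - 3) ∧ L ≤ (n + Q - k - 3) ∧ L ≤ (n - l - 3) ∧ L ≤ (n + i - k - 2)) (bd0 : Bd W n L (j) (i) (k)) (n1 : Nd W (j) (i) (k)) (n2 : Nd W (i + l + 1) (i2) (k + l + 1)) (n3 : Nd W (n + i2 - m - 1) (i + l + m + 2) (k3)) (b0 : (2 * l + 3) ≤ (n)) (b1 : (k + i2 + 1) ≤ (Q + j + m)) (b2 : (2 * Q + k + l) ≤ (n + 2 * j + i2)) (b3 : (1) ≤ (m)) (b4 : (i + l + i2 + m + 3) ≤ (Q + k3)) (b5 : (2 * k + l + 1) ≤ (n + j + i2)) (b6 : (i + 2 * j + 1) ≤ (k)) (b7 : (2 * n + 2 * j + m + k3) ≤ (i + 4 * k + 3 * l + 3)), False)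
    {W : ℤ → G} {n Q i j k l i2 m k3 : ℤ} (al : AL W n Q)
    (hy : (0) ≤ (i) ∧ (i) ≤ (j) ∧ (j + 1) ≤ (Q) ∧ (Q) ≤ (k) ∧ (k + 1) ≤ (n) ∧ (Q) ≤ (i + l + 1) ∧ (k + l + 2) ≤ (n) ∧ (0) ≤ (i2) ∧ (i2 + 1) ≤ (Q) ∧ (Q + m + 1) ≤ (n + i2) ∧ (i2) ≤ (m) ∧ (Q) ≤ (i + l + m + 2) ∧ (i + l + m + 3) ≤ (n) ∧ (Q) ≤ (k3) ∧ (k3 + 1) ≤ (n) ∧ (i + m + 2) ≤ (k) ∧ (i) ≤ (i2) ∧ (i2) ≤ (i) ∧ (i + m + 2) ≤ (k3) ∧ (k3) ≤ (i + l + m + 1) ∧ (m + k3 + 2) ≤ (n + i2))
    (a1 : Par W (0) (j) (k - j))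
    (a2 : Par W (Q + j - k) (j) (k - j))
    (s1 : Ant W (0) (i) (i + j))
    (s2 : Ant W (j + 1) (Q) (i + j))
    (b : Par W (i + 1) (i + l + 1) (k - i))
    (c1 : Par W (i2 + 1) (Q) (k + l - i2 + 1))
    (c2 : Par W (k + l + 2) (n) (i2 - k - l - 1))
    (tt : Ant W (i2 - m) (i2) (i + l + i2 + 1))
    (D1 : Par W (Q) (k3) (n + i2 - m - k3 - 1))
    (D2 : Par W (i + l + m + 3) (n) (k3 - i - l - m - 2))
    {L : ℤ} (mx : ∀ a b g, 0 < g → g < n → Par W a b g → b - a ≤ L)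
    (hL : L ≤ (n - j - 3) ∧ L ≤ (n + Q - k - 3) ∧ L ≤ (n - l - 3) ∧ L ≤ (n + i - k - 2))
    (bd0 : Bd W n L (j) (i) (k))
    (n1 : Nd W (j) (i) (k))
    (n2 : Nd W (i + l + 1) (i2) (k + l + 1))
    (n3 : Nd W (n + i2 - m - 1) (i + l + m + 2) (k3))
    (b0 : (2 * l + 3) ≤ (n))
    (b1 : (k + i2 + 1) ≤ (Q + j + m))
    (b2 : (2 * Q + k + l) ≤ (n + 2 * j + i2))
    (b3 : (m + k3) ≤ (i + l + 2 * i2 + 1))
    (b4 : (1) ≤ (m))
    (b5 : (i + l + i2 + m + 3) ≤ (Q + k3))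
    (b6 : (2 * k + l + 1) ≤ (n + j + i2))
    (b7 : (n + i2) ≤ (i + k + 2 * l + m + 2))
    (b8 : (i + 2 * j + 1) ≤ (k)) : False := by
  have ev := al.ev
  obtain ⟨y0, y1, y2, y3, y4, y5, y6, y7, y8, y9, y10, y11, y12, y13, y14, y15, y16, y17, y18, y19, y20⟩ := id hy
  have n1p := And.intro n1.p1 n1.p2
  have n2p := And.intro n2.p1 n2.p2
  have n3p := And.intro n3.p1 n3.p2
  by_cases z195 : (i + 4 * k + 3 * l + 4) ≤ (2 * n + 2 * j + m + k3)
  · exact h8_83 al hy a1 a2 s1 s2 b c1 c2 tt D1 D2 mx hL bd0 n1 n2 n3 (by clear * - b0; omega) (by clear * - b1; omega) (by clear * - b2; omega) (by clear * - b3; omega) (by clear * - b4; omega) (by clear * - b5; omega) (by clear * - b7; omega) (by clear * - b8; omega) (by clear * - z195; omega)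
  · exact h8_92 al hy a1 a2 s1 s2 b c1 c2 tt D1 D2 mx hL bd0 n1 n2 n3 (by clear * - b0; omega) (by clear * - b1; omega) (by clear * - b2; omega) (by clear * - b4; omega) (by clear * - b5; omega) (by clear * - b6; omega) (by clear * - b8; omega) (by clear * - z195; omega)

theorem h8_103p
    (h8_104 : ∀ {W : ℤ → G} {n Q i j k l i2 m k3 : ℤ} (al : AL W n Q) (hy : (0) ≤ (i) ∧ (i) ≤ (j) ∧ (j + 1) ≤ (Q) ∧ (Q) ≤ (k) ∧ (k + 1) ≤ (n) ∧ (Q) ≤ (i + l + 1) ∧ (k + l + 2) ≤ (n) ∧ (0) ≤ (i2) ∧ (i2 + 1) ≤ (Q) ∧ (Q + m + 1) ≤ (n + i2) ∧ (i2) ≤ (m) ∧ (Q) ≤ (i + l + m + 2) ∧ (i + l + m + 3) ≤ (n) ∧ (Q) ≤ (k3) ∧ (k3 + 1) ≤ (n) ∧ (i + m + 2) ≤ (k) ∧ (i) ≤ (i2) ∧ (i2) ≤ (i) ∧ (i + m + 2) ≤ (k3) ∧ (k3) ≤ (i + l + m + 1) ∧ (m + k3 + 2) ≤ (n + i2)) (a1 : Par W (0) (j) (k - j)) (a2 : Par W (Q + j - k) (j) (k - j)) (s1 : Ant W (0) (i) (i + j)) (s2 : Ant W (j + 1) (Q) (i + j)) (b : Par W (i + 1) (i + l + 1) (k - i))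 (c1 : Par W (i2 + 1) (Q) (k + l - i2 + 1)) (c2 : Par W (k + l + 2) (n) (i2 - k - l - 1)) (tt : Ant W (i2 - m) (i2) (i + l + i2 + 1)) (D1 : Par W (Q) (k3) (n + i2 - m - k3 - 1)) (D2 : Par W (i + l + m + 3) (n) (k3 - i - l - m - 2)) {L : ℤ} (mx : ∀ a b g, 0 < g → g < n → Par W a b g → b - a ≤ L) (hL : L ≤ (n - j - 3) ∧ L ≤ (n + Q - k - 3) ∧ L ≤ (n - l - 3) ∧ L ≤ (n + i - k - 2)) (bd0 : Bd W n L (j) (i) (k)) (n1 : Nd W (j) (i) (k)) (n2 : Nd W (i + l + 1) (i2) (k + l + 1)) (n3 : Nd W (n + i2 - m - 1) (i + l + m + 2) (k3)) (b0 : (2 * l + 3) ≤ (n)) (b1 : (m + k3) ≤ (i + l + 2 * i2 + 1)) (b2 : (1) ≤ (m)) (b3 : (i + l + i2 + m + 3) ≤ (Q + k3)) (b4 : (i + k) ≤ (2 * j + 1)) (b5 : (2 * k + l + 2) ≤ (n + i2)) (b6 : (n + i2 + k3) ≤ (2 * k + 2 * l + 2)) (b7 : (n + j + i2 + k3) ≤ (i + 2 * k + 2 * l + m + 2)) (b8 : (2 * Q + k + l) ≤ (n + i + j + i2)) (b9 : (i + 4 * j + 2 * l + m + 5) ≤ (n + k + i2 + k3)),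 False)
    (h8_105 : ∀ {W : ℤ → G} {n Q i j k l i2 m k3 : ℤ} (al : AL W n Q) (hy : (0) ≤ (i) ∧ (i) ≤ (j) ∧ (j + 1) ≤ (Q) ∧ (Q) ≤ (k) ∧ (k + 1) ≤ (n) ∧ (Q) ≤ (i + l + 1) ∧ (k + l + 2) ≤ (n) ∧ (0) ≤ (i2) ∧ (i2 + 1) ≤ (Q) ∧ (Q + m + 1) ≤ (n + i2) ∧ (i2) ≤ (m) ∧ (Q) ≤ (i + l + m + 2) ∧ (i + l + m + 3) ≤ (n) ∧ (Q) ≤ (k3) ∧ (k3 + 1) ≤ (n) ∧ (i + m + 2) ≤ (k) ∧ (i) ≤ (i2) ∧ (i2) ≤ (i) ∧ (i + m + 2) ≤ (k3) ∧ (k3) ≤ (i + l + m + 1) ∧ (m + k3 + 2) ≤ (n + i2)) (a1 : Par W (0) (j) (k - j)) (a2 : Par W (Q + j - k) (j) (k - j)) (s1 : Ant W (0) (i) (i + j)) (s2 : Ant W (j + 1) (Q) (i + j)) (b : Par W (i + 1) (i + l + 1) (k - i)) (c1 : Par W (i2 + 1) (Q) (k + l - i2 + 1)) (c2 : Par W (k + l + 2) (n) (i2 - k - l - 1)) (tt : Ant W (i2 - m) (i2) (i + l + i2 + 1)) (D1 : Par W (Q) (k3) (n + i2 - m - k3 - 1)) (D2 : Par W (i + l + m + 3) (n) (k3 - i - l - m - 2)) {L : ℤ} (mx : ∀ a b g, 0 < g → g < n → Par W a b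 g → b - a ≤ L) (hL : L ≤ (n - j - 3) ∧ L ≤ (n + Q - k - 3) ∧ L ≤ (n - l - 3) ∧ L ≤ (n + i - k - 2)) (bd0 : Bd W n L (j) (i) (k)) (n1 : Nd W (j) (i) (k)) (n2 : Nd W (i + l + 1) (i2) (k + l + 1)) (n3 : Nd W (n + i2 - m - 1) (i + l + m + 2) (k3)) (b0 : (2 * l + 3) ≤ (n)) (b1 : (2 * i + j + 1) ≤ (k)) (b2 : (m + k3) ≤ (i + l + 2 * i2 + 1)) (b3 : (1) ≤ (m)) (b4 : (i + l + i2 + m + 3) ≤ (Q + k3)) (b5 : (i + k) ≤ (2 * j + 1)) (b6 : (2 * k + l + 2) ≤ (n + i2)) (b7 : (n + i2 + k3) ≤ (2 * k + 2 * l + 2)) (b8 : (n + j + i2 + k3) ≤ (i + 2 * k + 2 * l + m + 2)) (b9 : (2 * Q + k + l) ≤ (n + i + j + i2)) (b10 : (n + k + i2 + k3) ≤ (i + 4 * j + 2 * l + m + 4)), False)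
    {W : ℤ → G} {n Q i j k l i2 m k3 : ℤ} (al : AL W n Q)
    (hy : (0) ≤ (i) ∧ (i) ≤ (j) ∧ (j + 1) ≤ (Q) ∧ (Q) ≤ (k) ∧ (k + 1) ≤ (n) ∧ (Q) ≤ (i + l + 1) ∧ (k + l + 2) ≤ (n) ∧ (0) ≤ (i2) ∧ (i2 + 1) ≤ (Q) ∧ (Q + m + 1) ≤ (n + i2) ∧ (i2) ≤ (m) ∧ (Q) ≤ (i + l + m + 2) ∧ (i + l + m + 3) ≤ (n) ∧ (Q) ≤ (k3) ∧ (k3 + 1) ≤ (n) ∧ (i + m + 2) ≤ (k) ∧ (i) ≤ (i2) ∧ (i2) ≤ (i) ∧ (i + m + 2) ≤ (k3) ∧ (k3) ≤ (i + l + m + 1) ∧ (m + k3 + 2) ≤ (n + i2))
    (a1 : Par W (0) (j) (k - j))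
    (a2 : Par W (Q + j - k) (j) (k - j))
    (s1 : Ant W (0) (i) (i + j))
    (s2 : Ant W (j + 1) (Q) (i + j))
    (b : Par W (i + 1) (i + l + 1) (k - i))
    (c1 : Par W (i2 + 1) (Q) (k + l - i2 + 1))
    (c2 : Par W (k + l + 2) (n) (i2 - k - l - 1))
    (tt : Ant W (i2 - m) (i2) (i + l + i2 + 1))
    (D1 : Par W (Q) (k3) (n + i2 - m - k3 - 1))
    (D2 : Par W (i + l + m + 3) (n) (k3 - i - l - m - 2))
    {L : ℤ} (mx : ∀ a b g, 0 < g → g < n → Par W a b g → b - a ≤ L)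
    (hL : L ≤ (n - j - 3) ∧ L ≤ (n + Q - k - 3) ∧ L ≤ (n - l - 3) ∧ L ≤ (n + i - k - 2))
    (bd0 : Bd W n L (j) (i) (k))
    (n1 : Nd W (j) (i) (k))
    (n2 : Nd W (i + l + 1) (i2) (k + l + 1))
    (n3 : Nd W (n + i2 - m - 1) (i + l + m + 2) (k3))
    (b0 : (2 * l + 3) ≤ (n))
    (b1 : (2 * i + j + 1) ≤ (k))
    (b2 : (m + k3) ≤ (i + l + 2 * i2 + 1))
    (b3 : (1) ≤ (m))
    (b4 : (i + l + i2 + m + 3) ≤ (Q + k3))
    (b5 : (i + k) ≤ (2 * j + 1))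
    (b6 : (2 * k + l + 2) ≤ (n + i2))
    (b7 : (n + i2 + k3) ≤ (2 * k + 2 * l + 2))
    (b8 : (n + j + i2 + k3) ≤ (i + 2 * k + 2 * l + m + 2))
    (b9 : (2 * Q + k + l) ≤ (n + i + j + i2)) : False := by
  have ev := al.ev
  obtain ⟨y0, y1, y2, y3, y4, y5, y6, y7, y8, y9, y10, y11, y12, y13, y14, y15, y16, y17, y18, y19, y20⟩ := id hy
  have n1p := And.intro n1.p1 n1.p2
  have n2p := And.intro n2.p1 n2.p2
  have n3p := And.intro n3.p1 n3.p2
  by_cases z239 : (i + 4 * j + 2 * l + m + 5) ≤ (n + k + i2 + k3)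
  · exact h8_104 al hy a1 a2 s1 s2 b c1 c2 tt D1 D2 mx hL bd0 n1 n2 n3 (by clear * - b0; omega) (by clear * - b2; omega) (by clear * - b3; omega) (by clear * - b4; omega) (by clear * - b5; omega) (by clear * - b6; omega) (by clear * - b7; omega) (by clear * - b8; omega) (by clear * - b9; omega) (by clear * - z239; omega)
  · exact h8_105 al hy a1 a2 s1 s2 b c1 c2 tt D1 D2 mx hL bd0 n1 n2 n3 (by clear * - b0; omega) (by clear * - b1; omega) (by clear * - b2; omega) (by clear * - b3; omega) (by clear * - b4; omega) (by clear * - b5; omega) (by clear * - b6; omega) (by clear * - b7; omega) (by clear * - b8; omega) (by clear * - b9; omega) (by clear * - z239; omega)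

theorem h8_99p
    (h8_100 : ∀ {W : ℤ → G} {n Q i j k l i2 m k3 : ℤ} (al : AL W n Q) (hy : (0) ≤ (i) ∧ (i) ≤ (j) ∧ (j + 1) ≤ (Q) ∧ (Q) ≤ (k) ∧ (k + 1) ≤ (n) ∧ (Q) ≤ (i + l + 1) ∧ (k + l + 2) ≤ (n) ∧ (0) ≤ (i2) ∧ (i2 + 1) ≤ (Q) ∧ (Q + m + 1) ≤ (n + i2) ∧ (i2) ≤ (m) ∧ (Q) ≤ (i + l + m + 2) ∧ (i + l + m + 3) ≤ (n) ∧ (Q) ≤ (k3) ∧ (k3 + 1) ≤ (n) ∧ (i + m + 2) ≤ (k) ∧ (i) ≤ (i2) ∧ (i2) ≤ (i) ∧ (i + m + 2) ≤ (k3) ∧ (k3) ≤ (i + l + m + 1) ∧ (m + k3 + 2) ≤ (n + i2)) (a1 : Par W (0) (j) (k - j)) (a2 : Par W (Q + j - k) (j) (k - j)) (s1 : Ant W (0) (i) (i + j)) (s2 : Ant W (j + 1) (Q) (i + j)) (b : Par W (i + 1) (i + l + 1) (k - i)) (c1 : Par W (i2 + 1) (Q) (k + l - i2 + 1)) (c2 : Par W (k + l + 2) (n) (i2 - k - l - 1)) (tt : Ant W (i2 - m) (i2) (i + l + i2 + 1)) (D1 : Par W (Q) (k3) (n + i2 - m - k3 - 1)) (D2 : Par W (i + l + m + 3) (n) (k3 - i - l - m - 2)) {L : ℤ} (mx : ∀ a b g, 0 < g → g < n →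 Par W a b g → b - a ≤ L) (hL : L ≤ (n - j - 3) ∧ L ≤ (n + Q - k - 3) ∧ L ≤ (n - l - 3) ∧ L ≤ (n + i - k - 2)) (bd0 : Bd W n L (j) (i) (k)) (n1 : Nd W (j) (i) (k)) (n2 : Nd W (i + l + 1) (i2) (k + l + 1)) (n3 : Nd W (n + i2 - m - 1) (i + l + m + 2) (k3)) (b0 : (2 * l + 3) ≤ (n)) (b1 : (2 * i + 2 * l + 3 * m + 5) ≤ (n + i2 + k3)) (b2 : (2 * i + j + 1) ≤ (k)) (b3 : (m + k3) ≤ (i + l + 2 * i2 + 1)) (b4 : (1) ≤ (m)) (b5 : (i + l + i2 + m + 3) ≤ (Q + k3)) (b6 : (i + k) ≤ (2 * j + 1)) (b7 : (2 * k + l + 2) ≤ (n + i2)) (b8 : (n + j + i2 + k3) ≤ (i + 2 * k + 2 * l + m + 3)), False)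
    {W : ℤ → G} {n Q i j k l i2 m k3 : ℤ} (al : AL W n Q)
    (hy : (0) ≤ (i) ∧ (i) ≤ (j) ∧ (j + 1) ≤ (Q) ∧ (Q) ≤ (k) ∧ (k + 1) ≤ (n) ∧ (Q) ≤ (i + l + 1) ∧ (k + l + 2) ≤ (n) ∧ (0) ≤ (i2) ∧ (i2 + 1) ≤ (Q) ∧ (Q + m + 1) ≤ (n + i2) ∧ (i2) ≤ (m) ∧ (Q) ≤ (i + l + m + 2) ∧ (i + l + m + 3) ≤ (n) ∧ (Q) ≤ (k3) ∧ (k3 + 1) ≤ (n) ∧ (i + m + 2) ≤ (k) ∧ (i) ≤ (i2) ∧ (i2) ≤ (i) ∧ (i + m + 2) ≤ (k3) ∧ (k3) ≤ (i + l + m + 1) ∧ (m + k3 + 2) ≤ (n + i2))
    (a1 : Par W (0) (j) (k - j))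
    (a2 : Par W (Q + j - k) (j) (k - j))
    (s1 : Ant W (0) (i) (i + j))
    (s2 : Ant W (j + 1) (Q) (i + j))
    (b : Par W (i + 1) (i + l + 1) (k - i))
    (c1 : Par W (i2 + 1) (Q) (k + l - i2 + 1))
    (c2 : Par W (k + l + 2) (n) (i2 - k - l - 1))
    (tt : Ant W (i2 - m) (i2) (i + l + i2 + 1))
    (D1 : Par W (Q) (k3) (n + i2 - m - k3 - 1))
    (D2 : Par W (i + l + m + 3) (n) (k3 - i - l - m - 2))
    {L : ℤ} (mx : ∀ a b g, 0 < g → g < n → Par W a b g → b - a ≤ L)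
    (hL : L ≤ (n - j - 3) ∧ L ≤ (n + Q - k - 3) ∧ L ≤ (n - l - 3) ∧ L ≤ (n + i - k - 2))
    (bd0 : Bd W n L (j) (i) (k))
    (n1 : Nd W (j) (i) (k))
    (n2 : Nd W (i + l + 1) (i2) (k + l + 1))
    (n3 : Nd W (n + i2 - m - 1) (i + l + m + 2) (k3))
    (b0 : (2 * l + 3) ≤ (n))
    (b1 : (2 * i + 2 * l + 3 * m + 5) ≤ (n + i2 + k3))
    (b2 : (2 * i + j + 1) ≤ (k))
    (b3 : (m + k3) ≤ (i + l + 2 * i2 + 1))
    (b4 : (1) ≤ (m))
    (b5 : (i + l + i2 + m + 3) ≤ (Q + k3))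
    (b6 : (n + i2) ≤ (i + k + 2 * l + m + 2))
    (b7 : (i + k) ≤ (2 * j + 1))
    (b8 : (2 * k + l + 2) ≤ (n + i2))
    (b9 : (j + k3) ≤ (i + l + i2 + m + 1)) : False := by
  have ev := al.ev
  obtain ⟨y0, y1, y2, y3, y4, y5, y6, y7, y8, y9, y10, y11, y12, y13, y14, y15, y16, y17, y18, y19, y20⟩ := id hy
  have n1p := And.intro n1.p1 n1.p2
  have n2p := And.intro n2.p1 n2.p2
  have n3p := And.intro n3.p1 n3.p2
  by_cases z235 : (n + j + i2 + k3) ≤ (i + 2 * k + 2 * l + m + 3)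
  · exact h8_100 al hy a1 a2 s1 s2 b c1 c2 tt D1 D2 mx hL bd0 n1 n2 n3 (by clear * - b0; omega) (by clear * - b1; omega) (by clear * - b2; omega) (by clear * - b3; omega) (by clear * - b4; omega) (by clear * - b5; omega) (by clear * - b7; omega) (by clear * - b8; omega) (by clear * - z235; omega)
  · by_cases z256 : (n + i2 + k3) ≤ (i + 2 * k + 2 * l + m + 3)
    · have kk3455 : (i + 2 * k + 2 * l + m + 4) ≤ (n + j + i2 + k3) := by clear * - z235; omega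
      have kk3456 : (j + i2 + k3) ≤ (i + 2 * k + 2 * l + m + 2) := by clear * - b2 b3 b4 b6 y17 z235 z256; omega
      have kk3457 : (k3) ≤ (k + l + 1) := by clear * - b2 b3 b8 y17 z235 z256; omega
      have kk3458 : (j + i2 + 1) ≤ (k) := by clear * - b2 y17 y7; omega
      have kk3459 : (k3) ≤ (i + l + m + 2) := by clear * - b8 z256; omega
      have kk3460 : (n + i2 + k3) ≤ (i + 2 * k + 2 * l + m + 3) := by clear * - z256; omega
      clear * - al a1 c2 D2 kk3455 kk3456 kk3457 kk3458 kk3459 kk3460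
      exact al.ubP (n + j + i2 + k3 - i - 2 * k - 2 * l - m - 3) (by omega) (by omega) fun t h1 h2 => (cE (cE (qf D2 al (-1) t (t + (n + k3 - i - l - m - 2)) (by omega)) (qf c2 al 0 (t + (n + k3 - i - l - m - 2)) (t + (n + i2 + k3 - i - k - 2 * l - m - 3)) (by omega))) (pb a1 al 0 (t + (n + i2 + k3 - i - k - 2 * l - m - 3)) (t + (n + j + i2 + k3 - i - 2 * k - 2 * l - m - 3)) (by omega)))
    · have kk3461 : (k3) ≤ (i + l + m + 1) := by clear * - y19; omega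
      have kk3462 : (i + l + m + 3) ≤ (n + k3) := by clear * - b0 y18 y19; omega
      have kk3463 : (i + l + i2 + m + 3) ≤ (Q + k3) := by clear * - b5; omega
      have kk3464 : (Q + i + k + 2 * l + m + 3) ≤ (n + i2 + k3) := by clear * - y3 z256; omega
      have kk3465 : (k3) ≤ (k + l + 1) := by clear * - b0 b2 b3 b6 b7 b9 y17; omega
      have kk3466 : (k3) ≤ (i + l + m + 2) := by clear * - y19; omega
      clear * - al c2 D2 kk3461 kk3462 kk3463 kk3464 kk3465 kk3466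
      exact al.ubQ (i + l + m - k3 + 2) (by omega) (by omega) fun t h1 h2 => (cE (sh al (-1) t (t + (-n)) (by omega)) (cE (cE (pb c2 al (-1) (t + (-n)) (t + (k + l - i2 + 1)) (by omega)) (pb D2 al 0 (t + (k + l - i2 + 1)) (t + (i + k + 2 * l + m - i2 - k3 + 3)) (by omega))) (qf c2 al 0 (t + (i + k + 2 * l + m - i2 - k3 + 3)) (t + (i + l + m - k3 + 2)) (by omega))))

theorem h8_98p
    (h8_99 : ∀ {W : ℤ → G} {n Q i j k l i2 m k3 : ℤ} (al : AL W n Q) (hy : (0) ≤ (i) ∧ (i) ≤ (j) ∧ (j + 1) ≤ (Q) ∧ (Q) ≤ (k) ∧ (k + 1) ≤ (n) ∧ (Q) ≤ (i + l + 1) ∧ (k + l + 2) ≤ (n) ∧ (0) ≤ (i2) ∧ (i2 + 1) ≤ (Q) ∧ (Q + m + 1) ≤ (n + i2) ∧ (i2) ≤ (m) ∧ (Q) ≤ (i + l + m + 2) ∧ (i + l + m + 3) ≤ (n) ∧ (Q) ≤ (k3) ∧ (k3 + 1) ≤ (n) ∧ (i + m + 2) ≤ (k) ∧ (i) ≤ (i2) ∧ (i2) ≤ (i) ∧ (i + m + 2) ≤ (k3) ∧ (k3) ≤ (i + l + m + 1) ∧ (m + k3 + 2) ≤ (n + i2)) (a1 : Par W (0) (j) (k - j)) (a2 : Par W (Q + j - k) (j) (k - j)) (s1 :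 Ant W (0) (i) (i + j)) (s2 : Ant W (j + 1) (Q) (i + j)) (b : Par W (i + 1) (i + l + 1) (k - i)) (c1 : Par W (i2 + 1) (Q) (k + l - i2 + 1)) (c2 : Par W (k + l + 2) (n) (i2 - k - l - 1)) (tt : Ant W (i2 - m) (i2) (i + l + i2 + 1)) (D1 : Par W (Q) (k3) (n + i2 - m - k3 - 1)) (D2 : Par W (i + l + m + 3) (n) (k3 - i - l - m - 2)) {L : ℤ} (mx : ∀ a b g, 0 < g → g < n → Par W a b g → b - a ≤ L) (hL : L ≤ (n - j - 3) ∧ L ≤ (n + Q - k - 3) ∧ L ≤ (n - l - 3) ∧ L ≤ (n + i - k - 2)) (bd0 : Bd W n L (j) (i) (k)) (n1 : Nd W (j) (i) (k)) (n2 : Nd W (i + l + 1) (i2) (k + l + 1)) (n3 : Nd W (n + i2 - m - 1) (i + l + m + 2) (k3)) (b0 : (2 * l + 3) ≤ (n)) (b1 : (2 * i + 2 * l + 3 * m + 5) ≤ (n + i2 + k3)) (b2 : (2 * i + j + 1) ≤ (k)) (b3 : (m + k3) ≤ (i + l + 2 * i2 + 1)) (b4 : (1) ≤ (m)) (b5 : (i + l + i2 + m + 3) ≤ (Q + k3)) (b6 : (n + i2) ≤ (i + k + 2 * l + m + 2)) (b7 : (i + k) ≤ (2 * j + 1)) (b8 : (2 *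 k + l + 2) ≤ (n + i2)) (b9 : (j + k3) ≤ (i + l + i2 + m + 1)), False)
    {W : ℤ → G} {n Q i j k l i2 m k3 : ℤ} (al : AL W n Q)
    (hy : (0) ≤ (i) ∧ (i) ≤ (j) ∧ (j + 1) ≤ (Q) ∧ (Q) ≤ (k) ∧ (k + 1) ≤ (n) ∧ (Q) ≤ (i + l + 1) ∧ (k + l + 2) ≤ (n) ∧ (0) ≤ (i2) ∧ (i2 + 1) ≤ (Q) ∧ (Q + m + 1) ≤ (n + i2) ∧ (i2) ≤ (m) ∧ (Q) ≤ (i + l + m + 2) ∧ (i + l + m + 3) ≤ (n) ∧ (Q) ≤ (k3) ∧ (k3 + 1) ≤ (n) ∧ (i + m + 2) ≤ (k) ∧ (i) ≤ (i2) ∧ (i2) ≤ (i) ∧ (i + m + 2) ≤ (k3) ∧ (k3) ≤ (i + l + m + 1) ∧ (m + k3 + 2) ≤ (n + i2))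
    (a1 : Par W (0) (j) (k - j))
    (a2 : Par W (Q + j - k) (j) (k - j))
    (s1 : Ant W (0) (i) (i + j))
    (s2 : Ant W (j + 1) (Q) (i + j))
    (b : Par W (i + 1) (i + l + 1) (k - i))
    (c1 : Par W (i2 + 1) (Q) (k + l - i2 + 1))
    (c2 : Par W (k + l + 2) (n) (i2 - k - l - 1))
    (tt : Ant W (i2 - m) (i2) (i + l + i2 + 1))
    (D1 : Par W (Q) (k3) (n + i2 - m - k3 - 1))
    (D2 : Par W (i + l + m + 3) (n) (k3 - i - l - m - 2))
    {L : ℤ} (mx : ∀ a b g, 0 < g → g < n → Par W a b g → b - a ≤ L)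
    (hL : L ≤ (n - j - 3) ∧ L ≤ (n + Q - k - 3) ∧ L ≤ (n - l - 3) ∧ L ≤ (n + i - k - 2))
    (bd0 : Bd W n L (j) (i) (k))
    (n1 : Nd W (j) (i) (k))
    (n2 : Nd W (i + l + 1) (i2) (k + l + 1))
    (n3 : Nd W (n + i2 - m - 1) (i + l + m + 2) (k3))
    (b0 : (2 * l + 3) ≤ (n))
    (b1 : (2 * i + 2 * l + 3 * m + 5) ≤ (n + i2 + k3))
    (b2 : (2 * i + j + 1) ≤ (k))
    (b3 : (m + k3) ≤ (i + l + 2 * i2 + 1))
    (b4 : (1) ≤ (m))
    (b5 : (i + l + i2 + m + 3) ≤ (Q + k3))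
    (b6 : (n + i2) ≤ (i + k + 2 * l + m + 2))
    (b7 : (i + k) ≤ (2 * j + 1))
    (b8 : (2 * k + l + 2) ≤ (n + i2)) : False := by
  have ev := al.ev
  obtain ⟨y0, y1, y2, y3, y4, y5, y6, y7, y8, y9, y10, y11, y12, y13, y14, y15, y16, y17, y18, y19, y20⟩ := id hy
  have n1p := And.intro n1.p1 n1.p2
  have n2p := And.intro n2.p1 n2.p2
  have n3p := And.intro n3.p1 n3.p2
  by_cases z234 : (i + l + i2 + m + 2) ≤ (j + k3)
  · have kk3070 : (j + 1) ≤ (k) := by clear * - b2 y17 y7; omega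
    have kk3071 : (k3) ≤ (i + l + m + 1) := by clear * - y19; omega
    have kk3072 : (i + l + m + 1) ≤ (j + k3) := by clear * - y7 z234; omega
    have kk3073 : (i + l + i2 + m + 2) ≤ (j + k3) := by clear * - z234; omega
    have kk3074 : (2 * k + l + 2) ≤ (n + i2) := by clear * - b8; omega
    have kk3075 : (k3) ≤ (k + l + 1) := by clear * - b2 b3 b4 b7 y17 z234; omega
    have kk3076 : (k3) ≤ (i + l + m + 2) := by clear * - y19; omega
    have r3077 : (k - j) % 2 = 0 := by clear * - ev n1p n2p n3p; omega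
    have r3078 : (i + l + m - k3 + 2) % 2 = 0 := by clear * - ev n1p n2p n3p; omega
    clear * - al a1 c2 D2 n1 kk3070 kk3071 kk3072 kk3073 kk3074 kk3075 kk3076 r3077 r3078
    exact n1.f0 (rEE (sh al 1 (j) (n + j) (by omega)) (sh al 1 (k) (n + k) (by omega)) (rotR (k - j) (i + l + m - k3 + 2) (n + j) (n + k) (by omega) (fun t h1 h2 => (cE (qf a1 al 1 t (t + (k - n - j)) (by omega)) (sh al 1 (t + (k - n - j)) (t + (k - j)) (by omega)))) (fun t h1 h2 => (cE (cE (cE (pb c2 al 1 t (t + (k + l - n - i2 + 1)) (by omega)) (pb D2 al 0 (t + (k + l - n - i2 + 1)) (t + (i + k + 2 * l + m - n - i2 - k3 + 3)) (by omega))) (qf c2 al 0 (t + (i + k + 2 * l + m - n - i2 - k3 + 3)) (t + (i + l + m - n - k3 + 2)) (by omega))) (sh al 1 (t + (i + l + m - n - k3 + 2)) (t + (i + l + m - k3 + 2)) (by omega))))))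
  · exact h8_99 al hy a1 a2 s1 s2 b c1 c2 tt D1 D2 mx hL bd0 n1 n2 n3 (by clear * - b0; omega) (by clear * - b1; omega) (by clear * - b2; omega) (by clear * - b3; omega) (by clear * - b4; omega) (by clear * - b5; omega) (by clear * - b6; omega) (by clear * - b7; omega) (by clear * - b8; omega) (by clear * - z234; omega)

theorem h8_17p
    (h8_18 : ∀ {W : ℤ → G} {n Q i j k l i2 m k3 : ℤ} (al : AL W n Q) (hy : (0) ≤ (i) ∧ (i) ≤ (j) ∧ (j + 1) ≤ (Q) ∧ (Q) ≤ (k) ∧ (k + 1) ≤ (n) ∧ (Q) ≤ (i + l + 1) ∧ (k + l + 2) ≤ (n) ∧ (0) ≤ (i2) ∧ (i2 + 1) ≤ (Q) ∧ (Q + m + 1) ≤ (n + i2) ∧ (i2) ≤ (m) ∧ (Q) ≤ (i + l + m + 2) ∧ (i + l + m + 3) ≤ (n) ∧ (Q) ≤ (k3) ∧ (k3 + 1) ≤ (n) ∧ (i + m + 2) ≤ (k) ∧ (i) ≤ (i2) ∧ (i2) ≤ (i) ∧ (i + m + 2) ≤ (k3) ∧ (k3) ≤ (i + l + m + 1) ∧ (m + k3 + 2) ≤ (n + i2)) (a1 : Par W (0) (j) (k - j)) (a2 : Par W (Q + j - k) (j) (k - j)) (s1 : Ant W (0) (i) (i + j)) (s2 : Ant W (j + 1) (Q)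 (i + j)) (b : Par W (i + 1) (i + l + 1) (k - i)) (c1 : Par W (i2 + 1) (Q) (k + l - i2 + 1)) (c2 : Par W (k + l + 2) (n) (i2 - k - l - 1)) (tt : Ant W (i2 - m) (i2) (i + l + i2 + 1)) (D1 : Par W (Q) (k3) (n + i2 - m - k3 - 1)) (D2 : Par W (i + l + m + 3) (n) (k3 - i - l - m - 2)) {L : ℤ} (mx : ∀ a b g, 0 < g → g < n → Par W a b g → b - a ≤ L) (hL : L ≤ (n - j - 3) ∧ L ≤ (n + Q - k - 3) ∧ L ≤ (n - l - 3) ∧ L ≤ (n + i - k - 2)) (bd0 : Bd W n L (j) (i) (k)) (n1 : Nd W (j) (i) (k)) (n2 : Nd W (i + l + 1) (i2) (k + l + 1)) (n3 : Nd W (n + i2 - m - 1) (i + l + m + 2) (k3)) (b0 : (2 * l + 3) ≤ (n)) (b1 : (2 * i + 2 * l + 3 * m + 5) ≤ (n + i2 + k3)) (b2 : (k + i2 + 1) ≤ (Q + j + m)), False)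
    {W : ℤ → G} {n Q i j k l i2 m k3 : ℤ} (al : AL W n Q)
    (hy : (0) ≤ (i) ∧ (i) ≤ (j) ∧ (j + 1) ≤ (Q) ∧ (Q) ≤ (k) ∧ (k + 1) ≤ (n) ∧ (Q) ≤ (i + l + 1) ∧ (k + l + 2) ≤ (n) ∧ (0) ≤ (i2) ∧ (i2 + 1) ≤ (Q) ∧ (Q + m + 1) ≤ (n + i2) ∧ (i2) ≤ (m) ∧ (Q) ≤ (i + l + m + 2) ∧ (i + l + m + 3) ≤ (n) ∧ (Q) ≤ (k3) ∧ (k3 + 1) ≤ (n) ∧ (i + m + 2) ≤ (k) ∧ (i) ≤ (i2) ∧ (i2) ≤ (i) ∧ (i + m + 2) ≤ (k3) ∧ (k3) ≤ (i + l + m + 1) ∧ (m + k3 + 2) ≤ (n + i2))
    (a1 : Par W (0) (j) (k - j))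
    (a2 : Par W (Q + j - k) (j) (k - j))
    (s1 : Ant W (0) (i) (i + j))
    (s2 : Ant W (j + 1) (Q) (i + j))
    (b : Par W (i + 1) (i + l + 1) (k - i))
    (c1 : Par W (i2 + 1) (Q) (k + l - i2 + 1))
    (c2 : Par W (k + l + 2) (n) (i2 - k - l - 1))
    (tt : Ant W (i2 - m) (i2) (i + l + i2 + 1))
    (D1 : Par W (Q) (k3) (n + i2 - m - k3 - 1))
    (D2 : Par W (i + l + m + 3) (n) (k3 - i - l - m - 2))
    {L : ℤ} (mx : ∀ a b g, 0 < g → g < n → Par W a b g → b - a ≤ L)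
    (hL : L ≤ (n - j - 3) ∧ L ≤ (n + Q - k - 3) ∧ L ≤ (n - l - 3) ∧ L ≤ (n + i - k - 2))
    (bd0 : Bd W n L (j) (i) (k))
    (n1 : Nd W (j) (i) (k))
    (n2 : Nd W (i + l + 1) (i2) (k + l + 1))
    (n3 : Nd W (n + i2 - m - 1) (i + l + m + 2) (k3))
    (b0 : (2 * l + 3) ≤ (n))
    (b1 : (2 * i + 2 * l + 3 * m + 5) ≤ (n + i2 + k3)) : False := by
  have ev := al.ev
  obtain ⟨y0, y1, y2, y3, y4, y5, y6, y7, y8, y9, y10, y11, y12, y13, y14, y15, y16, y17, y18, y19, y20⟩ := id hy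
  have n1p := And.intro n1.p1 n1.p2
  have n2p := And.intro n2.p1 n2.p2
  have n3p := And.intro n3.p1 n3.p2
  by_cases z47 : (Q + j + m) ≤ (k + i2)
  · have kk637 : (i + m + 2) ≤ (k) := by clear * - y15; omega
    have kk638 : (k + l + 2) ≤ (n) := by clear * - y6; omega
    have kk639 : (i + 1) ≤ (k) := by clear * - y10 y15 y7; omega
    have kk640 : (0) ≤ (l) := by clear * - y18 y19; omega
    have kk641 : (2 * i + m + 2) ≤ (k + k3) := by clear * - y13 y15 y16 y8; omega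
    have kk642 : (k3) ≤ (i + l + m + 1) := by clear * - y19; omega
    have kk643 : (i2) ≤ (j) := by clear * - y1 y17; omega
    have kk644 : (Q + j + m) ≤ (k + i2) := by clear * - z47; omega
    have kk645 : (0) ≤ (l + m + 2) := by clear * - y13 y16 y19 y8; omega
    have kk646 : (i) ≤ (k3) := by clear * - y13 y16 y8; omega
    have kk647 : (k3) ≤ (i + l + m + 2) := by clear * - y19; omega
    have kk648 : (k + l + 1) ≤ (n) := by clear * - y6; omega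
    have kk649 : (0) ≤ (l + 1) := by clear * - y18 y19; omega
    have kk650 : (i2) ≤ (j + l + 1) := by clear * - y1 y17 y18 y19; omega
    have kk651 : (i + j + m + 1) ≤ (k + i2) := by clear * - y16 y8 z47; omega
    have r652 : (k3 - i - l - m - 2) % 2 = 0 := by clear * - ev n1p n2p n3p; omega
    have r653 : (k - i) % 2 = 0 := by clear * - ev n1p n2p n3p; omega
    have r654 : (i + k + l + i2 - j + 1) % 2 = 0 := by clear * - ev n1p n2p n3p; omega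
    clear * - al a2 b tt D2 n2 kk637 kk638 kk639 kk640 kk641 kk642 kk643 kk644 kk645 kk646 kk647 kk648 kk649 kk650 kk651 r652 r653 r654
    exact ivt al.ninv (i + 1) (i + l + 1) (k - i) (i + l + m + 3) (k + l + 1) (k3 - i - l - m - 2) (i + l + 1) (k + k3 - i - m - 1) 1 (fun t h1 h2 => (qf b al 0 t (t + (k - i)) (by omega))) (fun t h1 h2 => (cE (sh al (-1) t (t + (-n)) (by omega)) (qf D2 al (-1) (t + (-n)) (t + (k3 - i - l - m - 2)) (by omega)))) (fun hh => n2.f0 (rEE (sh al 0 (i + l + 1) (i + l + 1) (by omega)) (qf D2 al 0 (k + l + 1) (k + k3 - i - m - 1) (by omega)) (Eq.symm hh))) (by omega) (i + l + 2) (i + l + m + 2) (i + k + l + i2 - j + 1) 0 (-1) (fun t h1 h2 => (cI (sh al (-1) t (t + (-n)) (by omega)) (cE (ab tt al (-1) (t + (-n)) ((i + l + i2 + 1) - t) (by omega)) (qf a2 al 0 ((i + l + i2 + 1) - t) ((i + k + l + i2 - j + 1) - t) (by omega))))) (by omega)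
  · exact h8_18 al hy a1 a2 s1 s2 b c1 c2 tt D1 D2 mx hL bd0 n1 n2 n3 (by clear * - b0; omega) (by clear * - b1; omega) (by clear * - z47; omega)

theorem h9_28p
    (h9_29 : ∀ {W : ℤ → G} {n Q i j k l i2 m k3 : ℤ} (al : AL W n Q) (hy : (0) ≤ (i) ∧ (i) ≤ (j) ∧ (j + 1) ≤ (Q) ∧ (Q) ≤ (k) ∧ (k + 1) ≤ (n) ∧ (Q) ≤ (i + l + 1) ∧ (k + l + 2) ≤ (n) ∧ (0) ≤ (i2) ∧ (i2 + 1) ≤ (Q) ∧ (Q + m + 1) ≤ (n + i2) ∧ (i2) ≤ (m) ∧ (Q) ≤ (i + l + m + 2) ∧ (i + l + m + 3) ≤ (n) ∧ (Q) ≤ (k3) ∧ (k3 + 1) ≤ (n) ∧ (i + m + 2) ≤ (k) ∧ (i) ≤ (i2) ∧ (i2) ≤ (i) ∧ (i + m + 1) ≤ (k3) ∧ (k3) ≤ (i + m + 1) ∧ (k3) ≤ (i + l + m + 1) ∧ (m + k3 + 2) ≤ (n + i2)) (a1 : Par W (0) (j) (k - j)) (a2 : Par W (Q + j - k) (j) (k - j)) (s1 : Ant W (0) (i) (i + j)) (s2 : Ant W (j + 1) (Q) (i + j)) (b : Par W (i + 1) (i + l + 1) (k - i)) (c1 : Par W (i2 + 1) (Q) (k + l - i2 + 1)) (c2 : Par W (k + l + 2) (n) (i2 - k - l - 1)) (tt : Ant W (i2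 - m) (i2) (i + l + i2 + 1)) (D1 : Par W (Q) (k3) (n + i2 - m - k3 - 1)) (D2 : Par W (i + l + m + 3) (n) (k3 - i - l - m - 2)) {L : ℤ} (mx : ∀ a b g, 0 < g → g < n → Par W a b g → b - a ≤ L) (hL : L ≤ (n - j - 3) ∧ L ≤ (n + Q - k - 3) ∧ L ≤ (n - l - 3) ∧ L ≤ (n + i - k - 2)) (bd0 : Bd W n L (j) (i) (k)) (n1 : Nd W (j) (i) (k)) (n2 : Nd W (i + l + 1) (i2) (k + l + 1)) (n3 : Nd W (n + i2 - m - 1) (i + l + m + 2) (k3)) (d1 : ℤ) (q1 : d1 % 2 = 0) (x1 : Par W (i + 1) (k + l - d1 + 1) d1) (b0 : (n + k3) ≤ (2 * i + 2 * l + i2 + m + 4)) (b1 : (i + k) ≤ (2 * j + 1)) (b2 : (2 * k + l + 2) ≤ (n + i2)) (b3 : (3 * i + 2 * l + 3 * m + 5) ≤ (n + k + i2 + k3)) (b4 : (3 * i + 3 * l + 3 * m + d1 + 5) ≤ (2 * n + 2 * i2 + k3)) (b5 : (2 * i + l + m + 3) ≤ (k + k3 + d1)) (b6 : (k + d1) ≤ (2 * i + l + i2 + 1)) (b7 : (j + i2 + d1) ≤ (l)), False)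
    {W : ℤ → G} {n Q i j k l i2 m k3 : ℤ} (al : AL W n Q)
    (hy : (0) ≤ (i) ∧ (i) ≤ (j) ∧ (j + 1) ≤ (Q) ∧ (Q) ≤ (k) ∧ (k + 1) ≤ (n) ∧ (Q) ≤ (i + l + 1) ∧ (k + l + 2) ≤ (n) ∧ (0) ≤ (i2) ∧ (i2 + 1) ≤ (Q) ∧ (Q + m + 1) ≤ (n + i2) ∧ (i2) ≤ (m) ∧ (Q) ≤ (i + l + m + 2) ∧ (i + l + m + 3) ≤ (n) ∧ (Q) ≤ (k3) ∧ (k3 + 1) ≤ (n) ∧ (i + m + 2) ≤ (k) ∧ (i) ≤ (i2) ∧ (i2) ≤ (i) ∧ (i + m + 1) ≤ (k3) ∧ (k3) ≤ (i + m + 1) ∧ (k3) ≤ (i + l + m + 1) ∧ (m + k3 + 2) ≤ (n + i2))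
    (a1 : Par W (0) (j) (k - j))
    (a2 : Par W (Q + j - k) (j) (k - j))
    (s1 : Ant W (0) (i) (i + j))
    (s2 : Ant W (j + 1) (Q) (i + j))
    (b : Par W (i + 1) (i + l + 1) (k - i))
    (c1 : Par W (i2 + 1) (Q) (k + l - i2 + 1))
    (c2 : Par W (k + l + 2) (n) (i2 - k - l - 1))
    (tt : Ant W (i2 - m) (i2) (i + l + i2 + 1))
    (D1 : Par W (Q) (k3) (n + i2 - m - k3 - 1))
    (D2 : Par W (i + l + m + 3) (n) (k3 - i - l - m - 2))
    {L : ℤ} (mx : ∀ a b g, 0 < g → g < n → Par W a b g → b - a ≤ L)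
    (hL : L ≤ (n - j - 3) ∧ L ≤ (n + Q - k - 3) ∧ L ≤ (n - l - 3) ∧ L ≤ (n + i - k - 2))
    (bd0 : Bd W n L (j) (i) (k))
    (n1 : Nd W (j) (i) (k))
    (n2 : Nd W (i + l + 1) (i2) (k + l + 1))
    (n3 : Nd W (n + i2 - m - 1) (i + l + m + 2) (k3))
    (d1 : ℤ) (q1 : d1 % 2 = 0) (x1 : Par W (i + 1) (k + l - d1 + 1) d1)
    (b0 : (2 * i + j + 1) ≤ (k))
    (b1 : (n + k3) ≤ (2 * i + 2 * l + i2 + m + 4))
    (b2 : (i + k) ≤ (2 * j + 1))
    (b3 : (2 * k + l + 2) ≤ (n + i2))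
    (b4 : (3 * i + 2 * l + 3 * m + 5) ≤ (n + k + i2 + k3))
    (b5 : (3 * i + 3 * l + 3 * m + d1 + 5) ≤ (2 * n + 2 * i2 + k3))
    (b6 : (2 * i + l + m + 3) ≤ (k + k3 + d1))
    (b7 : (k + d1) ≤ (2 * i + l + i2 + 1)) : False := by
  have ev := al.ev
  obtain ⟨y0, y1, y2, y3, y4, y5, y6, y7, y8, y9, y10, y11, y12, y13, y14, y15, y16, y17, y18, y19, y20, y21⟩ := id hy
  have n1p := And.intro n1.p1 n1.p2
  have n2p := And.intro n2.p1 n2.p2
  have n3p := And.intro n3.p1 n3.p2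
  by_cases z39 : (l + 1) ≤ (j + i2 + d1)
  · by_cases v14 : (i + l + i2 + 2) ≤ (k + d1)
    · have kk415 : (j + 1) ≤ (k) := by clear * - b0 b7 v14; omega
      have kk416 : (l + 1) ≤ (j + i2 + d1) := by clear * - z39; omega
      have kk417 : (2 * i + j + l + 3) ≤ (2 * k + i2 + d1) := by clear * - b0 b7 v14 z39; omega
      have kk418 : (k + d1) ≤ (2 * i + l + i2 + 1) := by clear * - b7; omega
      have kk419 : (k + d1) ≤ (2 * i + 2 * j + l + i2 + 3) := by clear * - b0 b2 b7 v14; omega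
      have kk420 : (d1) ≤ (k + l + i2 + 1) := by clear * - b0 b2 b7 v14; omega
      have kk421 : (i + m + 1) ≤ (k) := by clear * - b0 b1 b2 b5 b6 y17; omega
      have kk422 : (d1) ≤ (l + 1) := by clear * - b0 b2 b7 v14 y17; omega
      have kk423 : (i2) ≤ (m) := by clear * - y10; omega
      have kk424 : (i + l + i2 + 2) ≤ (k + d1) := by clear * - v14; omega
      have kk425 : (i2) ≤ (k) := by clear * - b0 b2 b7 v14 y17; omega
      have kk426 : (d1) ≤ (i + l + 2) := by clear * - b0 b2 b7 v14 y17; omega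
      have r427 : (i + l + i2 - 2 * n - d1 + 1) % 2 = 0 := by clear * - ev n1p n2p n3p q1; omega
      have r428 : (k - j) % 2 = 0 := by clear * - ev n1p n2p n3p q1; omega
      have r429 : (i + j - 2 * n) % 2 = 0 := by clear * - ev n1p n2p n3p q1; omega
      clear * - al a1 s1 tt x1 kk415 kk416 kk417 kk418 kk419 kk420 kk421 kk422 kk423 kk424 kk425 kk426 r427 r428 r429
      exact mid2 al (k - j) (i + l + i2 - 2 * n - d1 + 1) (i + j - 2 * n) (-n) (i2 - n) 0 (-n) (k - n) (by omega) (fun t h1 h2 => ⟨by omega, (cE (cE (qa tt al (-1) t ((i + l + i2 - n + 1) - t) (by omega)) (pb x1 al 0 ((i + l + i2 - n + 1) - t) ((i + l + i2 - n - d1 + 1) - t) (by omega))) (sh al (-1) ((i + l + i2 - n - d1 + 1) - t) ((i + l + i2 - 2 * n - d1 + 1) - t) (by omega)))⟩) (fun t h1 h2 => ⟨by omega, (cE (qa s1 al (-1) t ((i + j - n) - t) (by omega)) (sh al (-1) ((i + j - n) - t) ((i + j - 2 * n) - t) (by omega)))⟩)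 (fun t h1 h2 => (cE (qf a1 al (-1) t (t + (n + k - j)) (by omega)) (sh al (-1) (t + (n + k - j)) (t + (k - j)) (by omega))))
    · have kk430 : (j + 1) ≤ (k) := by clear * - b0 v14 y17 z39; omega
      have kk431 : (l + 1) ≤ (j + i2 + d1) := by clear * - z39; omega
      have kk432 : (2 * i + j + l + 3) ≤ (2 * k + i2 + d1) := by clear * - b0 b6 b7 y19; omega
      have kk433 : (l + i2 + 3) ≤ (k + d1) := by clear * - b0 y17 z39 ev n1p n2p n3p q1; omega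
      have kk434 : (l + i2 + 1) ≤ (2 * j + k + d1) := by clear * - b0 b2 v14 y17 z39; omega
      have kk435 : (2 * i + l + i2 + 3) ≤ (3 * k + d1) := by clear * - b0 b2 v14 y17 z39; omega
      have kk436 : (i + m + 1) ≤ (k) := by clear * - b0 b1 b2 b5 b6 y17; omega
      have kk437 : (d1) ≤ (l + 1) := by clear * - b0 b2 v14 y17 z39; omega
      have kk438 : (k + d1) ≤ (i + l + i2 + 2) := by clear * - v14; omega
      have kk439 : (k + d1) ≤ (i + l + m + 2) := by clear * - v14 y10; omega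
      have kk440 : (i2) ≤ (k) := by clear * - b0 b2 v14 y17 z39; omega
      have kk441 : (d1) ≤ (i + l + 2) := by clear * - b0 b2 v14 y17 z39; omega
      have r442 : (i + l + i2 - 2 * n - d1 + 1) % 2 = 0 := by clear * - ev n1p n2p n3p q1; omega
      have r443 : (k - j) % 2 = 0 := by clear * - ev n1p n2p n3p q1; omega
      have r444 : (i + j - 2 * n) % 2 = 0 := by clear * - ev n1p n2p n3p q1; omega
      clear * - al a1 s1 tt x1 kk430 kk431 kk432 kk433 kk434 kk435 kk436 kk437 kk438 kk439 kk440 kk441 r442 r443 r444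
      exact mid2 al (k - j) (i + l + i2 - 2 * n - d1 + 1) (i + j - 2 * n) (i + l + i2 - n - k - d1 + 2) (i2 - n) 0 (-n) (k - n) (by omega) (fun t h1 h2 => ⟨by omega, (cE (cE (qa tt al (-1) t ((i + l + i2 - n + 1) - t) (by omega)) (pb x1 al 0 ((i + l + i2 - n + 1) - t) ((i + l + i2 - n - d1 + 1) - t) (by omega))) (sh al (-1) ((i + l + i2 - n - d1 + 1) - t) ((i + l + i2 - 2 * n - d1 + 1) - t) (by omega)))⟩) (fun t h1 h2 => ⟨by omega, (cE (qa s1 al (-1) t ((i + j - n) - t) (by omega)) (sh al (-1) ((i + j - n) - t) ((i + j - 2 * n) - t) (by omega)))⟩) (fun t h1 h2 => (cE (qf a1 al (-1) t (t + (n + k - j)) (by omega)) (sh al (-1) (t + (n + k - j)) (t + (k - j)) (by omega))))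
  · exact h9_29 al hy a1 a2 s1 s2 b c1 c2 tt D1 D2 mx hL bd0 n1 n2 n3 d1 q1 x1 (by clear * - b1; omega) (by clear * - b2; omega) (by clear * - b3; omega) (by clear * - b4; omega) (by clear * - b5; omega) (by clear * - b6; omega) (by clear * - b7; omega) (by clear * - z39; omega)

theorem h9_34p
    {W : ℤ → G} {n Q i j k l i2 m k3 : ℤ} (al : AL W n Q)
    (hy : (0) ≤ (i) ∧ (i) ≤ (j) ∧ (j + 1) ≤ (Q) ∧ (Q) ≤ (k) ∧ (k + 1) ≤ (n) ∧ (Q) ≤ (i + l + 1) ∧ (k + l + 2) ≤ (n) ∧ (0) ≤ (i2) ∧ (i2 + 1) ≤ (Q) ∧ (Q + m + 1) ≤ (n + i2) ∧ (i2) ≤ (m) ∧ (Q) ≤ (i + l + m + 2) ∧ (i + l + m + 3) ≤ (n) ∧ (Q) ≤ (k3) ∧ (k3 + 1) ≤ (n) ∧ (i + m + 2) ≤ (k) ∧ (i) ≤ (i2) ∧ (i2) ≤ (i) ∧ (i + m + 1) ≤ (k3) ∧ (k3) ≤ (i + m + 1) ∧ (k3) ≤ (i + l + m + 1) ∧ (m + k3 + 2) ≤ (n + i2))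
    (a1 : Par W (0) (j) (k - j))
    (a2 : Par W (Q + j - k) (j) (k - j))
    (s1 : Ant W (0) (i) (i + j))
    (s2 : Ant W (j + 1) (Q) (i + j))
    (b : Par W (i + 1) (i + l + 1) (k - i))
    (c1 : Par W (i2 + 1) (Q) (k + l - i2 + 1))
    (c2 : Par W (k + l + 2) (n) (i2 - k - l - 1))
    (tt : Ant W (i2 - m) (i2) (i + l + i2 + 1))
    (D1 : Par W (Q) (k3) (n + i2 - m - k3 - 1))
    (D2 : Par W (i + l + m + 3) (n) (k3 - i - l - m - 2))
    {L : ℤ} (mx : ∀ a b g, 0 < g → g < n → Par W a b g → b - a ≤ L)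
    (hL : L ≤ (n - j - 3) ∧ L ≤ (n + Q - k - 3) ∧ L ≤ (n - l - 3) ∧ L ≤ (n + i - k - 2))
    (bd0 : Bd W n L (j) (i) (k))
    (n1 : Nd W (j) (i) (k))
    (n2 : Nd W (i + l + 1) (i2) (k + l + 1))
    (n3 : Nd W (n + i2 - m - 1) (i + l + m + 2) (k3))
    (d1 : ℤ) (q1 : d1 % 2 = 0) (x1 : Par W (i + 1) (k + l - d1 + 1) d1)
    (b0 : (i + l + 1) ≤ (k + d1))
    (b1 : (d1) ≤ (l))
    (b2 : (k + 2 * l + 3) ≤ (n + i + d1))
    (b3 : (2 * l + 3) ≤ (n))
    (b4 : (k + 2 * m + 1) ≤ (n + j))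
    (b5 : (i + k + 2 * m) ≤ (2 * j + 2 * k3))
    (b6 : (i + i2 + m + 2) ≤ (j + k3))
    (b7 : (i + l + 2 * m + 2) ≤ (n + i2))
    (b8 : (n + k3) ≤ (2 * i + 2 * l + i2 + m + 4))
    (b9 : (i + 2 * j + 1) ≤ (k))
    (b10 : (2 * n + 2 * i2 + k3 + d1) ≤ (i + 2 * k + 3 * l + 3 * m + 4)) : False := by
  have ev := al.ev
  obtain ⟨y0, y1, y2, y3, y4, y5, y6, y7, y8, y9, y10, y11, y12, y13, y14, y15, y16, y17, y18, y19, y20, y21⟩ := id hy
  have n1p := And.intro n1.p1 n1.p2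
  have n2p := And.intro n2.p1 n2.p2
  have n3p := And.intro n3.p1 n3.p2
  by_cases z55 : (i + l + 2 * i2 + 2) ≤ (m + k3 + d1)
  · by_cases v18 : (i + k + 2 * l + m + 3) ≤ (n + k3 + d1)
    · have kk635 : (k3 + d1) ≤ (i + l + m + 1) := by clear * - b1 y19; omega
      have kk636 : (i + l + 2) ≤ (m + k3 + d1) := by clear * - b3 b5 b8 b9 y16 z55; omega
      have kk637 : (k3 + d1) ≤ (i + l + m) := by clear * - b1 y19 ev n1p n2p n3p q1; omega
      have kk638 : (2 * n + 2 * i2 + k3 + d1) ≤ (i + 2 * k + 3 * l + 3 * m + 4) := by clear * - b10; omega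
      have kk639 : (i) ≤ (k3) := by clear * - b1 b3 b5 b8 b9 y16 z55; omega
      have kk640 : (i + k + 2 * l + m + 3) ≤ (n + k3 + d1) := by clear * - v18; omega
      have kk641 : (k3 + d1) ≤ (k + l + 1) := by clear * - b1 b10 b7 y19; omega
      have kk642 : (m + k3 + d1 + 1) ≤ (n + i2) := by clear * - b1 b7 y19; omega
      have r643 : (i + l + i2 - n + 1) % 2 = 0 := by clear * - ev n1p n2p n3p q1; omega
      have r644 : (i + l + m - k3 - d1 + 2) % 2 = 0 := by clear * - ev n1p n2p n3p q1; omega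
      clear * - al tt D2 x1 kk635 kk636 kk637 kk638 kk639 kk640 kk641 kk642 r643 r644
      exact midP al (i + l + m - k3 - d1 + 2) (i + l + i2 - n + 1) (i2 - m) (k3 + d1 - n + 1) (i + k + 2 * l + m - n - k3 - d1 + 3) (by omega) (fun t h1 h2 => (cE (qa tt al 0 t ((i + l + i2 + 1) - t) (by omega)) (sh al (-1) ((i + l + i2 + 1) - t) ((i + l + i2 - n + 1) - t) (by omega)))) (fun t h1 h2 => (cE (cE (pb x1 al (-1) t (t + (n - d1)) (by omega)) (pb D2 al 0 (t + (n - d1)) (t + (n + i + l + m - k3 - d1 + 2)) (by omega))) (sh al (-1) (t + (n + i + l + m - k3 - d1 + 2)) (t + (i + l + m - k3 - d1 + 2)) (by omega))))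
    · have kk645 : (k3 + d1) ≤ (i + l + m + 1) := by clear * - b1 y19; omega
      have kk646 : (i + l + 2) ≤ (m + k3 + d1) := by clear * - b3 b5 b8 b9 y16 z55; omega
      have kk647 : (k3 + d1) ≤ (i + l + m) := by clear * - v18 y6; omega
      have kk648 : (i + l + 2 * i2 + 2) ≤ (m + k3 + d1) := by clear * - z55; omega
      have kk649 : (i) ≤ (k3) := by clear * - b1 b3 b5 b8 b9 y16 z55; omega
      have kk650 : (n + k3 + d1) ≤ (i + k + 2 * l + m + 3) := by clear * - v18; omega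
      have kk651 : (m + k3 + d1 + 1) ≤ (n + i2) := by clear * - b1 b7 y19; omega
      have kk652 : (i + l + m + 2) ≤ (n) := by clear * - b1 b7 y19 z55; omega
      have r653 : (i + l + i2 - n + 1) % 2 = 0 := by clear * - ev n1p n2p n3p q1; omega
      have r654 : (i + l + m - k3 - d1 + 2) % 2 = 0 := by clear * - ev n1p n2p n3p q1; omega
      clear * - al tt D2 x1 kk645 kk646 kk647 kk648 kk649 kk650 kk651 kk652 r653 r654
      exact midP al (i + l + m - k3 - d1 + 2) (i + l + i2 - n + 1) (i2 - m) (k3 + d1 - n + 1) (0) (by omega) (fun t h1 h2 => (cE (qa tt al 0 t ((i + l + i2 + 1) - t) (by omega)) (sh al (-1) ((i + l + i2 + 1) - t) ((i + l + i2 - n + 1) - t) (by omega)))) (fun t h1 h2 => (cE (cE (pb x1 al (-1) t (t + (n - d1)) (by omega)) (pb D2 al 0 (t + (n - d1)) (t + (n + i + l + m - k3 - d1 + 2)) (by omega))) (sh al (-1) (t + (n + i + l + m - k3 - d1 + 2)) (t + (i + l + m - k3 - d1 + 2))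 (by omega))))
  · by_cases z56 : (i + d1 + 1) ≤ (k)
    · have kk655 : (i + d1 + 1) ≤ (k) := by clear * - z56; omega
      have kk656 : (k) ≤ (3 * i + d1) := by clear * - b2 b5 b8 b9 y17; omega
      have kk657 : (2 * j + 2) ≤ (i + k + d1) := by clear * - b2 b6 b8 b9 z56; omega
      have kk658 : (2 * j + d1) ≤ (i + k + 2 * l) := by clear * - b1 b2 b6 b8 b9 z56; omega
      have kk659 : (i + d1) ≤ (k) := by clear * - z56; omega
      have kk660 : (i) ≤ (j) := by clear * - b6 y16 y19; omega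
      have kk661 : (i + d1) ≤ (j + l + 1) := by clear * - b1 b6 y16 y19; omega
      have r662 : (i + k - 2 * n) % 2 = 0 := by clear * - ev n1p n2p n3p q1; omega
      have r663 : (k - i - d1) % 2 = 0 := by clear * - ev n1p n2p n3p q1; omega
      clear * - al a1 s1 b x1 kk655 kk656 kk657 kk658 kk659 kk660 kk661 r662 r663
      exact midP al (k - i - d1) (i + k - 2 * n) (j - n + 1) (i - n + 1) (k + l - n - d1 + 1) (by omega) (fun t h1 h2 => (cE (cE (ab s1 al (-1) t ((i + j - n) - t) (by omega)) (qf a1 al 0 ((i + j - n) - t) ((i + k - n) - t) (by omega))) (sh al (-1) ((i + k - n) - t) ((i + k - 2 * n) - t) (by omega)))) (fun t h1 h2 => (cE (qf (show Par W (i + 1) (i + l + 1) (k - i - d1) from fun t h1 h2 => (cE (sh al (-1) t (t + (-n)) (by omega)) (cE (qf b al (-1) (t + (-n)) (t + (k - i)) (by omega)) (pb x1 al 0 (t + (k - i)) (t + (k - i - d1)) (by omega))))) al (-1) t (t + (n + k - i - d1))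 (by omega)) (sh al (-1) (t + (n + k - i - d1)) (t + (k - i - d1)) (by omega))))
    · by_cases z57 : (Q + j + m) ≤ (k + i2)
      · have kk664 : (i + 1) ≤ (k) := by clear * - b0 b1; omega
        have kk665 : (0) ≤ (l) := by clear * - b0 b1 z56; omega
        have kk666 : (i + m + 1) ≤ (k3) := by clear * - b5 b9; omega
        have kk667 : (k3) ≤ (i + m + 1) := by clear * - y19; omega
        have kk668 : (i2) ≤ (i) := by clear * - y17; omega
        have kk669 : (i) ≤ (i2) := by clear * - y16; omega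
        have kk670 : (k3 + 1) ≤ (k) := by clear * - b0 b6 b9 y19 z55; omega
        have kk671 : (i + k + l + m + 3) ≤ (n + k3) := by clear * - b5 b9 y6; omega
        have kk672 : (i2) ≤ (j) := by clear * - b6 y19; omega
        have kk673 : (Q + j + m) ≤ (k + i2) := by clear * - z57; omega
        have kk674 : (0) ≤ (l + m + 2) := by clear * - b1 b10 b3 b6 b8 b9 y16 z55 z56; omega
        have kk675 : (i) ≤ (k3) := by clear * - b1 b10 b3 b5 b9 y16 z56; omega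
        have kk676 : (k + l + 1) ≤ (n) := by clear * - y6; omega
        have kk677 : (k3) ≤ (i + l + m + 2) := by clear * - y20; omega
        have kk678 : (0) ≤ (l + 1) := by clear * - b0 b1 z56; omega
        have kk679 : (i2) ≤ (j + l + 1) := by clear * - b6 y20; omega
        have kk680 : (i + j + m + 1) ≤ (k + i2) := by clear * - b0 b5 b9 z55; omega
        have r681 : (i + l + m - k3 + 2) % 2 = 0 := by clear * - ev n1p n2p n3p q1; omega
        have r682 : (k - i) % 2 = 0 := by clear * - ev n1p n2p n3p q1; omega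
        have r683 : (i + k + l + i2 - 2 * n - j + 1) % 2 = 0 := by clear * - ev n1p n2p n3p q1; omega
        clear * - al a2 b tt D2 n1 n2 kk664 kk665 kk666 kk667 kk668 kk669 kk670 kk671 kk672 kk673 kk674 kk675 kk676 kk677 kk678 kk679 kk680 r681 r682 r683
        exact ivt al.ninv (i - n + 1) (i + l - n + 1) (k - i) (k3 - n + 1) (k + k3 - n - i - m - 1) (i + l + m - k3 + 2) (k - n) (i + l - n + 1) (-1) (fun t h1 h2 => (cE (qf b al (-1) t (t + (n + k - i)) (by omega)) (sh al (-1) (t + (n + k - i)) (t + (k - i)) (by omega)))) (fun t h1 h2 => (cE (pb D2 al (-1) t (t + (n + i + l + m - k3 + 2)) (by omega)) (sh al (-1) (t + (n + i + l + m - k3 + 2)) (t + (i + l + m - k3 + 2)) (by omega)))) (fun hh => n1.f0 (rEE (cE (qf (uP (j) (i + l + 1) (i + l - j + 1) (by omega) (lat n1.r1 n2.r1 (sh al 0 (i) (i2) (by omega)) (iNN (pb D2 al 0 (k) (k + l + 1) (by omega))))) al 0 (j) (i + l + 1) (by omega)) (sh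 al (-1) (i + l + 1) (i + l - n + 1) (by omega))) (sh al (-1) (k) (k - n) (by omega)) (Eq.symm (Eq.symm hh)))) (by omega) (i + l - n + 2) (i + l + m - n + 2) (i + k + l + i2 - 2 * n - j + 1) 1 (-1) (fun t h1 h2 => (cE (cE (ab tt al (-1) t ((i + l + i2 - n + 1) - t) (by omega)) (qf a2 al 0 ((i + l + i2 - n + 1) - t) ((i + k + l + i2 - n - j + 1) - t) (by omega))) (sh al (-1) ((i + k + l + i2 - n - j + 1) - t) ((i + k + l + i2 - 2 * n - j + 1) - t) (by omega)))) (by omega)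
      · by_cases z58 : (n + j + k3) ≤ (i + k + l + 3 * m + 2)
        · by_cases z59 : (i + j + l + 3) ≤ (k + i2 + d1)
          · by_cases v19 : (i + l + m + 2) ≤ (k + d1)
            · by_cases v20 : (i + j + l + 2) ≤ (k + d1)
              · have kk684 : (k + i2 + d1) ≤ (i + j + l + 2 * m + 1) := by clear * - b6 b9 y13 y19 z55 z57; omega
                have kk685 : (k + d1) ≤ (i + j + l + i2 + 2) := by clear * - y13 z55 z57; omega
                have kk686 : (i + m + 1) ≤ (k) := by clear * - b10 b6 b7 v20 z55; omega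
                have kk687 : (i + l + m + 2) ≤ (k + d1) := by clear * - v19; omega
                have kk688 : (i + j + l + 2) ≤ (k + d1) := by clear * - v20; omega
                have kk689 : (i + j + 1) ≤ (k) := by clear * - b6 b7 b9 z58; omega
                have r690 : (i + j + l + i2 - 2 * n - k - d1 + 1) % 2 = 0 := by clear * - ev n1p n2p n3p q1; omega
                clear * - al a1 tt x1 kk684 kk685 kk686 kk687 kk688 kk689 r690
                obtain ⟨t, ht⟩ : ∃ t, 2 * t = (i + j + l + i2 - 2 * n - k - d1 + 1) := ⟨(i + j + l + i2 - 2 * n - k - d1 + 1) / 2, by omega⟩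
                exact al.ninv t (cE (cE (cE (qa tt al (-1) t ((i + l + i2 - n + 1) - t) (by omega)) (pb x1 al 0 ((i + l + i2 - n + 1) - t) ((i + l + i2 - n - d1 + 1) - t) (by omega))) (pb a1 al 0 ((i + l + i2 - n - d1 + 1) - t) ((i + j + l + i2 - n - k - d1 + 1) - t) (by omega))) (sh al (-1) ((i + j + l + i2 - n - k - d1 + 1) - t) t (by omega)))
              · have kk691 : (k + i2 + d1) ≤ (i + j + l + 2 * m + 1) := by clear * - b10 b3 b6 b9 v20 y16 z56; omega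
                have kk692 : (i + j + l + 2) ≤ (k + i2 + d1) := by clear * - z59; omega
                have kk693 : (i + m + 1) ≤ (k) := by clear * - b6 b7 b9 v19 v20 z58; omega
                have kk694 : (i + l + m + 2) ≤ (k + d1) := by clear * - v19; omega
                have kk695 : (d1) ≤ (l + 1) := by clear * - b6 b7 b9 v20 z58; omega
                have kk696 : (k + d1) ≤ (i + j + l + 2) := by clear * - v20; omega
                have r697 : (i + j + l + i2 - 2 * n - k - d1 + 1) % 2 = 0 := by clear * - ev n1p n2p n3p q1; omega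
                clear * - al a1 tt x1 kk691 kk692 kk693 kk694 kk695 kk696 r697
                obtain ⟨t, ht⟩ : ∃ t, 2 * t = (i + j + l + i2 - 2 * n - k - d1 + 1) := ⟨(i + j + l + i2 - 2 * n - k - d1 + 1) / 2, by omega⟩
                exact al.ninv t (cE (cE (cE (qa tt al (-1) t ((i + l + i2 - n + 1) - t) (by omega)) (pb x1 al 0 ((i + l + i2 - n + 1) - t) ((i + l + i2 - n - d1 + 1) - t) (by omega))) (pb a1 al 0 ((i + l + i2 - n - d1 + 1) - t) ((i + j + l + i2 - n - k - d1 + 1) - t) (by omega))) (sh al (-1) ((i + j + l + i2 - n - k - d1 + 1) - t) t (by omega)))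
            · by_cases v21 : (i + j + l + 2) ≤ (k + d1)
              · have kk698 : (i + l + i2 + 3) ≤ (j + k + d1) := by clear * - b6 y19 z59; omega
                have kk699 : (k + d1) ≤ (i + j + l + i2 + 2) := by clear * - b5 b7 v19 y19 z55 z58; omega
                have kk700 : (k + d1) ≤ (i + l + m + 2) := by clear * - v19; omega
                have kk701 : (d1) ≤ (l + 1) := by clear * - b10 b6 b7 v19 v21 z55; omega
                have kk702 : (i + j + l + 2) ≤ (k + d1) := by clear * - v21; omega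
                have kk703 : (i + j + 1) ≤ (k) := by clear * - b10 b6 b7 v19 v21 z55; omega
                have r704 : (i + j + l + i2 - 2 * n - k - d1 + 1) % 2 = 0 := by clear * - ev n1p n2p n3p q1; omega
                clear * - al a1 tt x1 kk698 kk699 kk700 kk701 kk702 kk703 r704
                obtain ⟨t, ht⟩ : ∃ t, 2 * t = (i + j + l + i2 - 2 * n - k - d1 + 1) := ⟨(i + j + l + i2 - 2 * n - k - d1 + 1) / 2, by omega⟩
                exact al.ninv t (cE (cE (cE (qa tt al (-1) t ((i + l + i2 - n + 1) - t) (by omega)) (pb x1 al 0 ((i + l + i2 - n + 1) - t) ((i + l + i2 - n - d1 + 1) - t) (by omega))) (pb a1 al 0 ((i + l + i2 - n - d1 + 1) - t) ((i + j + l + i2 - n - k - d1 + 1) - t) (by omega))) (sh al (-1) ((i + j + l + i2 - n - k - d1 + 1) - t) t (by omega)))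
              · have kk705 : (i + l + i2 + 3) ≤ (j + k + d1) := by clear * - b6 y19 z59; omega
                have kk706 : (i + j + l + 2) ≤ (k + i2 + d1) := by clear * - z59; omega
                have kk707 : (k + d1) ≤ (i + l + m + 2) := by clear * - v19; omega
                have kk708 : (d1) ≤ (l + 1) := by clear * - b6 b7 b9 v21 z58; omega
                have kk709 : (k + d1) ≤ (i + j + l + 2) := by clear * - v21; omega
                have r710 : (i + j + l + i2 - 2 * n - k - d1 + 1) % 2 = 0 := by clear * - ev n1p n2p n3p q1; omega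
                clear * - al a1 tt x1 kk705 kk706 kk707 kk708 kk709 r710
                obtain ⟨t, ht⟩ : ∃ t, 2 * t = (i + j + l + i2 - 2 * n - k - d1 + 1) := ⟨(i + j + l + i2 - 2 * n - k - d1 + 1) / 2, by omega⟩
                exact al.ninv t (cE (cE (cE (qa tt al (-1) t ((i + l + i2 - n + 1) - t) (by omega)) (pb x1 al 0 ((i + l + i2 - n + 1) - t) ((i + l + i2 - n - d1 + 1) - t) (by omega))) (pb a1 al 0 ((i + l + i2 - n - d1 + 1) - t) ((i + j + l + i2 - n - k - d1 + 1) - t) (by omega))) (sh al (-1) ((i + j + l + i2 - n - k - d1 + 1) - t) t (by omega)))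
          · have kk711 : (2 * k + l + 2) ≤ (n + j + i2) := by clear * - b3 y16 z56 z59 ev n1p n2p n3p q1; omega
            have kk712 : (j + i2) ≤ (2 * k + l) := by clear * - b3 b6 b7 b9 z55 z56 z58 z59; omega
            have kk713 : (j + i2 + 1) ≤ (k) := by clear * - b10 b3 b6 b9 z55 z56; omega
            have kk714 : (n + i2) ≤ (2 * k + l + 1) := by clear * - b0 b10 b5 b9 y17 z55; omega
            clear * - al a1 c2 kk711 kk712 kk713 kk714
            exact al.ubP (n + j + i2 - 2 * k - l - 1) (by omega) (by omega) fun t h1 h2 => (cE (sh al 1 t (t + (n)) (by omega)) (cE (qf c2 al 0 (t + (n)) (t + (n + i2 - k - l - 1)) (by omega)) (pb a1 al 0 (t + (n + i2 - k - l - 1)) (t + (n + j + i2 - 2 * k - l - 1)) (by omega))))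
        · by_cases z60 : (2 * k + l + 2) ≤ (n + j + i2)
          · have kk715 : (2 * k + l + 2) ≤ (n + j + i2) := by clear * - z60; omega
            have kk716 : (j + i2) ≤ (2 * k + l) := by clear * - b10 b3 b6 b7 b8 b9 z56 z60; omega
            have kk717 : (j + i2 + 1) ≤ (k) := by clear * - b10 b3 b6 b9 z55 z56; omega
            have kk718 : (n + i2) ≤ (2 * k + l + 1) := by clear * - b0 b10 b5 b9 y17 z55; omega
            clear * - al a1 c2 kk715 kk716 kk717 kk718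
            exact al.ubP (n + j + i2 - 2 * k - l - 1) (by omega) (by omega) fun t h1 h2 => (cE (qf c2 al (-1) t (t + (n + i2 - k - l - 1)) (by omega)) (pb a1 al 0 (t + (n + i2 - k - l - 1)) (t + (n + j + i2 - 2 * k - l - 1)) (by omega)))
          · have kk719 : (2 * k) ≤ (2 * i + j + l + i2 + 1) := by clear * - y13 z55 z56 z57; omega
            have kk720 : (2 * i + j + l + 2) ≤ (2 * k + i2) := by clear * - b3 y16 z60; omega
            have kk721 : (i2) ≤ (m) := by clear * - b6 b9 y13 y19 z57; omega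
            have kk722 : (i + i2 + 1) ≤ (k) := by clear * - b0 b1 b6 b9 y19; omega
            have kk723 : (i2) ≤ (j) := by clear * - b6 y19; omega
            have kk724 : (k) ≤ (i + l + 1) := by clear * - b1 z56; omega
            have r725 : (2 * i + l + i2 - j + 1) % 2 = 0 := by clear * - ev n1p n2p n3p q1; omega
            clear * - al a1 b tt kk719 kk720 kk721 kk722 kk723 kk724 r725
            obtain ⟨t, ht⟩ : ∃ t, 2 * t = (2 * i + l + i2 - j + 1) := ⟨(2 * i + l + i2 - j + 1) / 2, by omega⟩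
            exact al.ninv t (cE (cI (pb a1 al 0 t (t + (j - k)) (by omega)) (qa tt al 0 (t + (j - k)) ((i + k + l + i2 - j + 1) - t) (by omega))) (pb b al 0 ((i + k + l + i2 - j + 1) - t) t (by omega)))

theorem h9_18p
    (h9_19 : ∀ {W : ℤ → G} {n Q i j k l i2 m k3 : ℤ} (al : AL W n Q) (hy : (0) ≤ (i) ∧ (i) ≤ (j) ∧ (j + 1) ≤ (Q) ∧ (Q) ≤ (k) ∧ (k + 1) ≤ (n) ∧ (Q) ≤ (i + l + 1) ∧ (k + l + 2) ≤ (n) ∧ (0) ≤ (i2) ∧ (i2 + 1) ≤ (Q) ∧ (Q + m + 1) ≤ (n + i2) ∧ (i2) ≤ (m) ∧ (Q) ≤ (i + l + m + 2) ∧ (i + l + m + 3) ≤ (n) ∧ (Q) ≤ (k3) ∧ (k3 + 1) ≤ (n) ∧ (i + m + 2) ≤ (k) ∧ (i) ≤ (i2) ∧ (i2) ≤ (i) ∧ (i + m + 1) ≤ (k3) ∧ (k3) ≤ (i + m + 1) ∧ (k3) ≤ (i + l + m + 1) ∧ (m + k3 + 2) ≤ (n + i2)) (a1 : Par W (0) (j) (k - j)) (a2 : Par W (Q + j - k) (j) (k - j)) (s1 : Ant W (0) (i) (i + j)) (s2 : Ant W (j + 1) (Q) (i + j)) (b : Par W (i + 1) (i + l + 1) (k - i)) (c1 : Par W (i2 + 1) (Q) (k + l - i2 + 1)) (c2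 : Par W (k + l + 2) (n) (i2 - k - l - 1)) (tt : Ant W (i2 - m) (i2) (i + l + i2 + 1)) (D1 : Par W (Q) (k3) (n + i2 - m - k3 - 1)) (D2 : Par W (i + l + m + 3) (n) (k3 - i - l - m - 2)) {L : ℤ} (mx : ∀ a b g, 0 < g → g < n → Par W a b g → b - a ≤ L) (hL : L ≤ (n - j - 3) ∧ L ≤ (n + Q - k - 3) ∧ L ≤ (n - l - 3) ∧ L ≤ (n + i - k - 2)) (bd0 : Bd W n L (j) (i) (k)) (n1 : Nd W (j) (i) (k)) (n2 : Nd W (i + l + 1) (i2) (k + l + 1)) (n3 : Nd W (n + i2 - m - 1) (i + l + m + 2) (k3)) (d1 : ℤ) (q1 : d1 % 2 = 0) (x1 : Par W (i + 1) (k + l - d1 + 1) d1) (b0 : (i + l + 1) ≤ (k + d1)) (b1 : (d1) ≤ (l)) (b2 : (0) ≤ (d1)) (b3 : (k + 2 * l + 3) ≤ (n + i + d1)) (b4 : (2 * i + j + 1) ≤ (k)) (b5 : (n + i2) ≤ (i + k + 2 * l + 2)) (b6 : (2 * l + 3) ≤ (n)) (b7 : (k + 2 * m + 1) ≤ (n + j)) (b8 : (i + k + 2 * m) ≤ (2 * j + 2 * k3)) (b9 : (i + i2 + m + 2) ≤ (j + k3)) (b10 : (i + l + 2 * m + 2) ≤ (n + i2)) (b11 : (n +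 i2 + k3) ≤ (2 * i + 2 * l + 3 * m + 3)), False)
    (h9_36 : ∀ {W : ℤ → G} {n Q i j k l i2 m k3 : ℤ} (al : AL W n Q) (hy : (0) ≤ (i) ∧ (i) ≤ (j) ∧ (j + 1) ≤ (Q) ∧ (Q) ≤ (k) ∧ (k + 1) ≤ (n) ∧ (Q) ≤ (i + l + 1) ∧ (k + l + 2) ≤ (n) ∧ (0) ≤ (i2) ∧ (i2 + 1) ≤ (Q) ∧ (Q + m + 1) ≤ (n + i2) ∧ (i2) ≤ (m) ∧ (Q) ≤ (i + l + m + 2) ∧ (i + l + m + 3) ≤ (n) ∧ (Q) ≤ (k3) ∧ (k3 + 1) ≤ (n) ∧ (i + m + 2) ≤ (k) ∧ (i) ≤ (i2) ∧ (i2) ≤ (i) ∧ (i + m + 1) ≤ (k3) ∧ (k3) ≤ (i + m + 1) ∧ (k3) ≤ (i + l + m + 1) ∧ (m + k3 + 2) ≤ (n + i2)) (a1 : Par W (0) (j) (k - j)) (a2 : Par W (Q + j - k) (j) (k - j)) (s1 : Ant W (0) (i) (i + j)) (s2 : Ant W (j + 1) (Q) (i + j)) (b : Par W (i + 1) (i + l + 1) (k - i)) (c1 : Par W (i2 + 1) (Q) (k + l - i2 + 1)) (c2 : Par W (k + l + 2) (n) (i2 - k - l - 1)) (tt : Ant W (i2 - m) (i2) (i + l + i2 + 1)) (D1 : Par W (Q) (k3) (n + i2 - m - k3 - 1)) (D2 : Par W (i + l + m + 3) (n) (k3 - i -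 l - m - 2)) {L : ℤ} (mx : ∀ a b g, 0 < g → g < n → Par W a b g → b - a ≤ L) (hL : L ≤ (n - j - 3) ∧ L ≤ (n + Q - k - 3) ∧ L ≤ (n - l - 3) ∧ L ≤ (n + i - k - 2)) (bd0 : Bd W n L (j) (i) (k)) (n1 : Nd W (j) (i) (k)) (n2 : Nd W (i + l + 1) (i2) (k + l + 1)) (n3 : Nd W (n + i2 - m - 1) (i + l + m + 2) (k3)) (d1 : ℤ) (q1 : d1 % 2 = 0) (x1 : Par W (i + 1) (k + l - d1 + 1) d1) (b0 : (i + l + 1) ≤ (k + d1)) (b1 : (d1) ≤ (l)) (b2 : (0) ≤ (d1)) (b3 : (k + 2 * l + 3) ≤ (n + i + d1)) (b4 : (2 * i + j + 1) ≤ (k)) (b5 : (n + i2) ≤ (i + k + 2 * l + 2)) (b6 : (k + 2 * m + 1) ≤ (n + j)) (b7 : (i + k + 2 * m) ≤ (2 * j + 2 * k3)) (b8 : (i + i2 + m + 2) ≤ (j + k3)) (b9 : (2 * i + 2 * l + 3 * m + 4) ≤ (n + i2 + k3)), False)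
    {W : ℤ → G} {n Q i j k l i2 m k3 : ℤ} (al : AL W n Q)
    (hy : (0) ≤ (i) ∧ (i) ≤ (j) ∧ (j + 1) ≤ (Q) ∧ (Q) ≤ (k) ∧ (k + 1) ≤ (n) ∧ (Q) ≤ (i + l + 1) ∧ (k + l + 2) ≤ (n) ∧ (0) ≤ (i2) ∧ (i2 + 1) ≤ (Q) ∧ (Q + m + 1) ≤ (n + i2) ∧ (i2) ≤ (m) ∧ (Q) ≤ (i + l + m + 2) ∧ (i + l + m + 3) ≤ (n) ∧ (Q) ≤ (k3) ∧ (k3 + 1) ≤ (n) ∧ (i + m + 2) ≤ (k) ∧ (i) ≤ (i2) ∧ (i2) ≤ (i) ∧ (i + m + 1) ≤ (k3) ∧ (k3) ≤ (i + m + 1) ∧ (k3) ≤ (i + l + m + 1) ∧ (m + k3 + 2) ≤ (n + i2))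
    (a1 : Par W (0) (j) (k - j))
    (a2 : Par W (Q + j - k) (j) (k - j))
    (s1 : Ant W (0) (i) (i + j))
    (s2 : Ant W (j + 1) (Q) (i + j))
    (b : Par W (i + 1) (i + l + 1) (k - i))
    (c1 : Par W (i2 + 1) (Q) (k + l - i2 + 1))
    (c2 : Par W (k + l + 2) (n) (i2 - k - l - 1))
    (tt : Ant W (i2 - m) (i2) (i + l + i2 + 1))
    (D1 : Par W (Q) (k3) (n + i2 - m - k3 - 1))
    (D2 : Par W (i + l + m + 3) (n) (k3 - i - l - m - 2))
    {L : ℤ} (mx : ∀ a b g, 0 < g → g < n → Par W a b g → b - a ≤ L)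
    (hL : L ≤ (n - j - 3) ∧ L ≤ (n + Q - k - 3) ∧ L ≤ (n - l - 3) ∧ L ≤ (n + i - k - 2))
    (bd0 : Bd W n L (j) (i) (k))
    (n1 : Nd W (j) (i) (k))
    (n2 : Nd W (i + l + 1) (i2) (k + l + 1))
    (n3 : Nd W (n + i2 - m - 1) (i + l + m + 2) (k3))
    (d1 : ℤ) (q1 : d1 % 2 = 0) (x1 : Par W (i + 1) (k + l - d1 + 1) d1)
    (b0 : (i + l + 1) ≤ (k + d1))
    (b1 : (d1) ≤ (l))
    (b2 : (0) ≤ (d1))
    (b3 : (k + 2 * l + 3) ≤ (n + i + d1))
    (b4 : (2 * i + j + 1) ≤ (k))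
    (b5 : (n + i2) ≤ (i + k + 2 * l + 2))
    (b6 : (2 * l + 3) ≤ (n))
    (b7 : (k + 2 * m + 1) ≤ (n + j))
    (b8 : (i + k + 2 * m) ≤ (2 * j + 2 * k3))
    (b9 : (i + i2 + m + 2) ≤ (j + k3))
    (b10 : (i + l + 2 * m + 2) ≤ (n + i2)) : False := by
  have ev := al.ev
  obtain ⟨y0, y1, y2, y3, y4, y5, y6, y7, y8, y9, y10, y11, y12, y13, y14, y15, y16, y17, y18, y19, y20, y21⟩ := id hy
  have n1p := And.intro n1.p1 n1.p2
  have n2p := And.intro n2.p1 n2.p2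
  have n3p := And.intro n3.p1 n3.p2
  by_cases z28 : (n + i2 + k3) ≤ (2 * i + 2 * l + 3 * m + 3)
  · exact h9_19 al hy a1 a2 s1 s2 b c1 c2 tt D1 D2 mx hL bd0 n1 n2 n3 d1 q1 x1 (by clear * - b0; omega) (by clear * - b1; omega) (by clear * - b2; omega) (by clear * - b3; omega) (by clear * - b4; omega) (by clear * - b5; omega) (by clear * - b6; omega) (by clear * - b7; omega) (by clear * - b8; omega) (by clear * - b9; omega) (by clear * - b10; omega) (by clear * - z28; omega)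
  · exact h9_36 al hy a1 a2 s1 s2 b c1 c2 tt D1 D2 mx hL bd0 n1 n2 n3 d1 q1 x1 (by clear * - b0; omega) (by clear * - b1; omega) (by clear * - b2; omega) (by clear * - b3; omega) (by clear * - b4; omega) (by clear * - b5; omega) (by clear * - b7; omega) (by clear * - b8; omega) (by clear * - b9; omega) (by clear * - z28; omega)

theorem h9_59p
    {W : ℤ → G} {n Q i j k l i2 m k3 : ℤ} (al : AL W n Q)
    (hy : (0) ≤ (i) ∧ (i) ≤ (j) ∧ (j + 1) ≤ (Q) ∧ (Q) ≤ (k) ∧ (k + 1) ≤ (n) ∧ (Q) ≤ (i + l + 1) ∧ (k + l + 2) ≤ (n) ∧ (0) ≤ (i2) ∧ (i2 + 1) ≤ (Q) ∧ (Q + m + 1) ≤ (n + i2) ∧ (i2) ≤ (m) ∧ (Q) ≤ (i + l + m + 2) ∧ (i + l + m + 3) ≤ (n) ∧ (Q) ≤ (k3) ∧ (k3 + 1) ≤ (n) ∧ (i + m + 2) ≤ (k) ∧ (i) ≤ (i2) ∧ (i2) ≤ (i) ∧ (i + m + 1) ≤ (k3) ∧ (k3) ≤ (i + m + 1) ∧ (k3) ≤ (i + l + m + 1) ∧ (m + k3 + 2) ≤ (n + i2))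
    (a1 : Par W (0) (j) (k - j))
    (a2 : Par W (Q + j - k) (j) (k - j))
    (s1 : Ant W (0) (i) (i + j))
    (s2 : Ant W (j + 1) (Q) (i + j))
    (b : Par W (i + 1) (i + l + 1) (k - i))
    (c1 : Par W (i2 + 1) (Q) (k + l - i2 + 1))
    (c2 : Par W (k + l + 2) (n) (i2 - k - l - 1))
    (tt : Ant W (i2 - m) (i2) (i + l + i2 + 1))
    (D1 : Par W (Q) (k3) (n + i2 - m - k3 - 1))
    (D2 : Par W (i + l + m + 3) (n) (k3 - i - l - m - 2))
    {L : ℤ} (mx : ∀ a b g, 0 < g → g < n → Par W a b g → b - a ≤ L)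
    (hL : L ≤ (n - j - 3) ∧ L ≤ (n + Q - k - 3) ∧ L ≤ (n - l - 3) ∧ L ≤ (n + i - k - 2))
    (bd0 : Bd W n L (j) (i) (k))
    (n1 : Nd W (j) (i) (k))
    (n2 : Nd W (i + l + 1) (i2) (k + l + 1))
    (n3 : Nd W (n + i2 - m - 1) (i + l + m + 2) (k3))
    (d1 : ℤ) (q1 : d1 % 2 = 0) (x1 : Par W (i + 1) (k + l - d1 + 1) d1)
    (b0 : (i + l + 1) ≤ (k + d1))
    (b1 : (n + i2) ≤ (i + k + 2 * l + 2))
    (b2 : (2 * j + 2 * k3 + 1) ≤ (i + k + 2 * m))
    (b3 : (2 * i + 2 * l + 3 * m + 5) ≤ (n + i2 + k3))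
    (b4 : (k) ≤ (i + m + d1))
    (b5 : (j + 2) ≤ (Q))
    (b6 : (m + k3 + d1) ≤ (i + l + 2 * i2 + 1))
    (b7 : (i + l + 2 * i2 + 2) ≤ (2 * j + m + k3 + d1)) : False := by
  have ev := al.ev
  obtain ⟨y0, y1, y2, y3, y4, y5, y6, y7, y8, y9, y10, y11, y12, y13, y14, y15, y16, y17, y18, y19, y20, y21⟩ := id hy
  have n1p := And.intro n1.p1 n1.p2
  have n2p := And.intro n2.p1 n2.p2
  have n3p := And.intro n3.p1 n3.p2
  by_cases z130 : (i + d1 + 1) ≤ (k)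
  · by_cases z131 : (k) ≤ (3 * i + d1)
    · have kk1585 : (i + d1 + 1) ≤ (k) := by clear * - z130; omega
      have kk1586 : (k) ≤ (3 * i + d1) := by clear * - z131; omega
      have kk1587 : (k) ≤ (i + 2 * j + d1) := by clear * - y1 z131; omega
      have kk1588 : (k + d1) ≤ (i + 2 * j + 2 * l + 2) := by clear * - b6 y1 y10 y18 z131; omega
      have kk1589 : (i) ≤ (j) := by clear * - y1; omega
      have kk1590 : (i + d1) ≤ (k) := by clear * - z130; omega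
      have kk1591 : (i + j + 1) ≤ (k) := by clear * - b2 b6 b7 y18; omega
      have kk1592 : (i + j + d1) ≤ (k + l) := by clear * - b2 b6 b7 y10 y18; omega
      have r1593 : (i + k) % 2 = 0 := by clear * - ev n1p n2p n3p q1; omega
      have r1594 : (k - i - d1) % 2 = 0 := by clear * - ev n1p n2p n3p q1; omega
      clear * - al a1 s1 b x1 kk1585 kk1586 kk1587 kk1588 kk1589 kk1590 kk1591 kk1592 r1593 r1594
      exact midP al (k - i - d1) (i + k) (k - j) (i + 1) (k + l - d1 + 1) (by omega) (fun t h1 h2 => (cI (pb a1 al 0 t (t + (j - k)) (by omega)) (qa s1 al 0 (t + (j - k)) ((i + k) - t) (by omega)))) (fun t h1 h2 => (cE (qf b al 0 t (t + (k - i)) (by omega)) (pb x1 al 0 (t + (k - i)) (t + (k - i - d1)) (by omega))))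
    · have kk1595 : (i + d1 + 1) ≤ (k) := by clear * - z130; omega
      have kk1596 : (k + 2 * i2) ≤ (i + 2 * m + d1) := by clear * - b4 y17 z131; omega
      have kk1597 : (i + 3 * k + 2 * l + 4) ≤ (2 * n + 2 * i2 + d1) := by clear * - b3 b4 b6 y17 z130 z131; omega
      have kk1598 : (i + 2 * i2 + d1 + 2) ≤ (k) := by clear * - y17 z131 ev n1p n2p n3p q1; omega
      have kk1599 : (i + d1) ≤ (k) := by clear * - z130; omega
      have kk1600 : (0) ≤ (i2) := by clear * - y7; omega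
      have kk1601 : (k + l + m + 2) ≤ (n + i2) := by clear * - b3 b4 b6 y17 z130 z131; omega
      have kk1602 : (n + i2 + d1) ≤ (2 * k + 2 * l + 2) := by clear * - b1 z130; omega
      have kk1603 : (0) ≤ (l + i2 + 1) := by clear * - b1 b3 b4 b6 y18 y21 z130 z131; omega
      have r1604 : (i + 2 * i2 - n - k) % 2 = 0 := by clear * - ev n1p n2p n3p q1; omega
      have r1605 : (k - i - d1) % 2 = 0 := by clear * - ev n1p n2p n3p q1; omega
      clear * - al b c2 tt x1 kk1595 kk1596 kk1597 kk1598 kk1599 kk1600 kk1601 kk1602 kk1603 r1604 r1605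
      exact midP al (k - i - d1) (i + 2 * i2 - n - k) (i + l + i2 - n + 2) (i - n + 1) (k + l - n - d1 + 1) (by omega) (fun t h1 h2 => (cE (cE (ab tt al (-1) t ((i + l + i2 - n + 1) - t) (by omega)) (qf c2 al (-1) ((i + l + i2 - n + 1) - t) ((i + 2 * i2 - k) - t) (by omega))) (sh al (-1) ((i + 2 * i2 - k) - t) ((i + 2 * i2 - n - k) - t) (by omega)))) (fun t h1 h2 => (cE (qf (show Par W (i + 1) (i + l + 1) (k - i - d1) from fun t h1 h2 => (cE (sh al (-1) t (t + (-n)) (by omega)) (cE (qf b al (-1) (t + (-n)) (t + (k - i)) (by omega)) (pb x1 al 0 (t + (k - i)) (t + (k - i - d1)) (by omega))))) al (-1) t (t + (n + k - i - d1)) (by omega)) (sh al (-1) (t + (n + k - i - d1)) (t + (k - i - d1)) (by omega))))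
  · by_cases z132 : (i + 2 * j + l + m + k3 + 4) ≤ (2 * k + 2 * i2 + d1)
    · by_cases z133 : (Q + j + m) ≤ (k + i2)
      · have kk1606 : (i + 1) ≤ (k) := by clear * - b2 b6 b7 y18; omega
        have kk1607 : (0) ≤ (l) := by clear * - y18 y20; omega
        have kk1608 : (k3) ≤ (i + m + 1) := by clear * - y19; omega
        have kk1609 : (i + m + 1) ≤ (k3) := by clear * - y18; omega
        have kk1610 : (i2) ≤ (i) := by clear * - y17; omega
        have kk1611 : (i) ≤ (i2) := by clear * - y16; omega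
        have kk1612 : (k3 + 1) ≤ (k) := by clear * - y15 y19; omega
        have kk1613 : (i + k + l + m + 3) ≤ (n + k3) := by clear * - b3 b4 b6 y10 y18; omega
        have kk1614 : (i2) ≤ (j) := by clear * - y1 y17; omega
        have kk1615 : (Q + j + m) ≤ (k + i2) := by clear * - z133; omega
        have kk1616 : (0) ≤ (l + m + 2) := by clear * - b4 b6 b7 y10 y18 z132; omega
        have kk1617 : (i) ≤ (k3) := by clear * - b5 b6 b7 y10 y13 y16 y18; omega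
        have kk1618 : (k + l + 1) ≤ (n) := by clear * - b3 b4 b6 y10; omega
        have kk1619 : (k3) ≤ (i + l + m + 2) := by clear * - y20; omega
        have kk1620 : (0) ≤ (l + 1) := by clear * - y18 y20; omega
        have kk1621 : (i2) ≤ (j + l + 1) := by clear * - b1 b3 b6 b7 y10 y16 z130; omega
        have kk1622 : (i + j + m + 1) ≤ (k + i2) := by clear * - b2 b6 b7 y18 z132; omega
        have r1623 : (k3 - i - l - m - 2) % 2 = 0 := by clear * - ev n1p n2p n3p q1; omega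
        have r1624 : (k - i) % 2 = 0 := by clear * - ev n1p n2p n3p q1; omega
        have r1625 : (i + k + l + i2 - 2 * n - j + 1) % 2 = 0 := by clear * - ev n1p n2p n3p q1; omega
        clear * - al a2 b tt D2 n1 n2 kk1606 kk1607 kk1608 kk1609 kk1610 kk1611 kk1612 kk1613 kk1614 kk1615 kk1616 kk1617 kk1618 kk1619 kk1620 kk1621 kk1622 r1623 r1624 r1625
        exact ivt al.ninv (i - n + 1) (i + l - n + 1) (k - i) (i + l + m - n + 3) (k + l - n + 1) (k3 - i - l - m - 2) (i + l - n + 1) (k - n) 1 (fun t h1 h2 => (cE (qf b al (-1) t (t + (n + k - i)) (by omega)) (sh al (-1) (t + (n + k - i)) (t + (k - i)) (by omega)))) (fun t h1 h2 => (cE (sh al 1 t (t + (n)) (by omega)) (cE (qf D2 al 0 (t + (n)) (t + (n + k3 - i - l - m - 2)) (by omega)) (sh al (-1) (t + (n + k3 - i - l - m - 2)) (t + (k3 - i - l - m - 2)) (by omega))))) (fun hh => n1.f0 (rEE (cE (qf (uP (j) (i + l + 1) (i + l - j + 1) (by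 omega) (lat n1.r1 n2.r1 (sh al 0 (i) (i2) (by omega)) (iNN (pb D2 al 0 (k) (k + l + 1) (by omega))))) al 0 (j) (i + l + 1) (by omega)) (sh al (-1) (i + l + 1) (i + l - n + 1) (by omega))) (sh al (-1) (k) (k - n) (by omega)) (Eq.symm hh))) (by omega) (i + l - n + 2) (i + l + m - n + 2) (i + k + l + i2 - 2 * n - j + 1) 0 (-1) (fun t h1 h2 => (cI (sh al 1 t (t + (n)) (by omega)) (cE (cE (ab tt al 0 (t + (n)) ((i + l + i2 - n + 1) - t) (by omega)) (qf a2 al 0 ((i + l + i2 - n + 1) - t) ((i + k + l + i2 - n - j + 1) - t) (by omega))) (sh al (-1) ((i + k + l + i2 - n - j + 1) - t) ((i + k + l + i2 - 2 * n - j + 1) - t) (by omega))))) (by omega)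
      · by_cases v47 : (i + j + l + 2) ≤ (k + d1)
        · by_cases v48 : (i + l + m + 2) ≤ (k + d1)
          · have kk1626 : (k + d1) ≤ (i + j + l + i2 + 1) := by clear * - b6 y13 z133; omega
            have kk1627 : (k + i2 + d1) ≤ (i + j + l + 2 * m + 2) := by clear * - b6 y10 y13 z133; omega
            have kk1628 : (i + j + 1) ≤ (k) := by clear * - b2 b6 b7 y18; omega
            have kk1629 : (i + j + l + 2) ≤ (k + d1) := by clear * - v47; omega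
            have kk1630 : (i + l + m + 2) ≤ (k + d1) := by clear * - v48; omega
            have kk1631 : (i + m + 1) ≤ (k) := by clear * - y15; omega
            have r1632 : (i + j + l + i2 - 2 * n - k - d1 + 1) % 2 = 0 := by clear * - ev n1p n2p n3p q1; omega
            clear * - al a1 tt x1 kk1626 kk1627 kk1628 kk1629 kk1630 kk1631 r1632
            obtain ⟨t, ht⟩ : ∃ t, 2 * t = (i + j + l + i2 - 2 * n - k - d1 + 1) := ⟨(i + j + l + i2 - 2 * n - k - d1 + 1) / 2, by omega⟩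
            exact al.ninv t (cE (cI (cE (qf a1 al (-1) t (t + (n + k - j)) (by omega)) (qf x1 al 0 (t + (n + k - j)) (t + (n + k + d1 - j)) (by omega))) (ab tt al 0 (t + (n + k + d1 - j)) ((i + j + l + i2 - n - k - d1 + 1) - t) (by omega))) (sh al (-1) ((i + j + l + i2 - n - k - d1 + 1) - t) t (by omega)))
          · have kk1633 : (k + d1) ≤ (i + j + l + i2 + 1) := by clear * - b6 y13 z133; omega
            have kk1634 : (i + l + i2 + 2) ≤ (j + k + d1) := by clear * - b1 b3 b7 v47 y1 y19; omega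
            have kk1635 : (i + j + 1) ≤ (k) := by clear * - b2 b6 b7 y18; omega
            have kk1636 : (i + j + l + 2) ≤ (k + d1) := by clear * - v47; omega
            have kk1637 : (d1) ≤ (l + 1) := by clear * - v48 y15; omega
            have kk1638 : (k + d1) ≤ (i + l + m + 2) := by clear * - v48; omega
            have r1639 : (i + j + l + i2 - 2 * n - k - d1 + 1) % 2 = 0 := by clear * - ev n1p n2p n3p q1; omega
            clear * - al a1 tt x1 kk1633 kk1634 kk1635 kk1636 kk1637 kk1638 r1639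
            obtain ⟨t, ht⟩ : ∃ t, 2 * t = (i + j + l + i2 - 2 * n - k - d1 + 1) := ⟨(i + j + l + i2 - 2 * n - k - d1 + 1) / 2, by omega⟩
            exact al.ninv t (cE (cI (cE (qf a1 al (-1) t (t + (n + k - j)) (by omega)) (qf x1 al 0 (t + (n + k - j)) (t + (n + k + d1 - j)) (by omega))) (ab tt al 0 (t + (n + k + d1 - j)) ((i + j + l + i2 - n - k - d1 + 1) - t) (by omega))) (sh al (-1) ((i + j + l + i2 - n - k - d1 + 1) - t) t (by omega)))
        · by_cases v49 : (i + l + m + 2) ≤ (k + d1)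
          · have kk1640 : (i + j + l + 3) ≤ (k + i2 + d1) := by clear * - y13 z132 z133; omega
            have kk1641 : (k + i2 + d1) ≤ (i + j + l + 2 * m + 2) := by clear * - b2 v47 v49 y13 y18 z132 z133; omega
            have kk1642 : (k + d1) ≤ (i + j + l + 2) := by clear * - v47; omega
            have kk1643 : (d1) ≤ (l + 1) := by clear * - b2 b7 v47 y18 z132; omega
            have kk1644 : (i + l + m + 2) ≤ (k + d1) := by clear * - v49; omega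
            have kk1645 : (i + m + 1) ≤ (k) := by clear * - b2 b7 v47 v49 y18 z132; omega
            have r1646 : (i + j + l + i2 - 2 * n - k - d1 + 1) % 2 = 0 := by clear * - ev n1p n2p n3p q1; omega
            clear * - al a1 tt x1 kk1640 kk1641 kk1642 kk1643 kk1644 kk1645 r1646
            obtain ⟨t, ht⟩ : ∃ t, 2 * t = (i + j + l + i2 - 2 * n - k - d1 + 1) := ⟨(i + j + l + i2 - 2 * n - k - d1 + 1) / 2, by omega⟩
            exact al.ninv t (cE (cI (cE (qf a1 al (-1) t (t + (n + k - j)) (by omega)) (qf x1 al 0 (t + (n + k - j)) (t + (n + k + d1 - j)) (by omega))) (ab tt al 0 (t + (n + k + d1 - j)) ((i + j + l + i2 - n - k - d1 + 1) - t) (by omega))) (sh al (-1) ((i + j + l + i2 - n - k - d1 + 1) - t) t (by omega)))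
          · have kk1647 : (i + j + l + 3) ≤ (k + i2 + d1) := by clear * - y13 z132 z133; omega
            have kk1648 : (i + l + i2 + 2) ≤ (j + k + d1) := by clear * - b7 y1 y17 z132; omega
            have kk1649 : (k + d1) ≤ (i + j + l + 2) := by clear * - v47; omega
            have kk1650 : (d1) ≤ (l + 1) := by clear * - b2 b7 v47 y18 z132; omega
            have kk1651 : (k + d1) ≤ (i + l + m + 2) := by clear * - v49; omega
            have r1652 : (i + j + l + i2 - 2 * n - k - d1 + 1) % 2 = 0 := by clear * - ev n1p n2p n3p q1; omega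
            clear * - al a1 tt x1 kk1647 kk1648 kk1649 kk1650 kk1651 r1652
            obtain ⟨t, ht⟩ : ∃ t, 2 * t = (i + j + l + i2 - 2 * n - k - d1 + 1) := ⟨(i + j + l + i2 - 2 * n - k - d1 + 1) / 2, by omega⟩
            exact al.ninv t (cE (cI (cE (qf a1 al (-1) t (t + (n + k - j)) (by omega)) (qf x1 al 0 (t + (n + k - j)) (t + (n + k + d1 - j)) (by omega))) (ab tt al 0 (t + (n + k + d1 - j)) ((i + j + l + i2 - n - k - d1 + 1) - t) (by omega))) (sh al (-1) ((i + j + l + i2 - n - k - d1 + 1) - t) t (by omega)))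
    · by_cases z134 : (2 * i + k + 2 * l + 2 * m + 5) ≤ (n + j + 2 * k3)
      · by_cases z135 : (j + k3 + 1) ≤ (k)
        · have kk1653 : (2 * i + k + 2 * l + 2 * m + 5) ≤ (n + j + 2 * k3) := by clear * - z134; omega
          have kk1654 : (j + 2 * k3) ≤ (2 * i + k + 2 * l + 2 * m + 3) := by clear * - b1 b2 b4 b6 b7 y18 z132 z134 z135; omega
          have kk1655 : (j + k3 + 1) ≤ (k) := by clear * - z135; omega
          have kk1656 : (k3) ≤ (i + l + m + 2) := by clear * - y20; omega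
          have kk1657 : (Q) ≤ (k3 + 1) := by clear * - y13; omega
          have kk1658 : (n + 2 * k3) ≤ (2 * i + k + 2 * l + 2 * m + 4) := by clear * - b1 y16 y19; omega
          clear * - al a2 D2 kk1653 kk1654 kk1655 kk1656 kk1657 kk1658
          exact al.ubP (n + j + 2 * k3 - 2 * i - k - 2 * l - 2 * m - 4) (by omega) (by omega) fun t h1 h2 => (cE (cE (qf D2 al (-1) t (t + (n + k3 - i - l - m - 2)) (by omega)) (qf D2 al 0 (t + (n + k3 - i - l - m - 2)) (t + (n + 2 * k3 - 2 * i - 2 * l - 2 * m - 4)) (by omega))) (pb a2 al 0 (t + (n + 2 * k3 - 2 * i - 2 * l - 2 * m - 4)) (t + (n + j + 2 * k3 - 2 * i - k - 2 * l - 2 * m - 4)) (by omega)))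
        · by_cases z136 : (n + 2 * Q + j) ≤ (2 * i + k + 2 * l + 2 * m + 5)
          · by_cases z137 : (2 * n + 2 * Q + j + i2 + k3) ≤ (4 * i + k + 4 * l + 5 * m + 9)
            · have kk1659 : (k + i2) ≤ (j + m + k3) := by clear * - b2 b7 y18 z132 z135; omega
              have kk1660 : (j + k3 + 1) ≤ (k + i2 + m) := by clear * - b0 b2 b6 y18 z132 z135; omega
              have kk1661 : (2 * n + 2 * Q + j + i2 + k3) ≤ (4 * i + k + 4 * l + 5 * m + 9) := by clear * - z137; omega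
              have kk1662 : (k + i2 + 1) ≤ (j + m + k3) := by clear * - b2 b7 y18 z132 z135; omega
              have kk1663 : (k3) ≤ (k) := by clear * - b1 b2 b3 b7 y16 y19 z132; omega
              have kk1664 : (2 * i + 2 * l + 2 * m + 4) ≤ (n + k3) := by clear * - b2 b3 b7 y18 z132; omega
              have kk1665 : (k3) ≤ (i + l + 1) := by clear * - b1 b2 b3 b6 b7 y16 z130 z132 z135; omega
              have kk1666 : (2 * i + k + 2 * l + 2 * m + 4) ≤ (n + j + 2 * k3) := by clear * - z134; omega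
              have kk1667 : (Q) ≤ (k3 + 1) := by clear * - z134 z136; omega
              have r1668 : (n + 2 * i + 2 * l + i2 + m - k3 + 3) % 2 = 0 := by clear * - ev n1p n2p n3p q1; omega
              have r1669 : (j + m + k3 - k - i2 + 1) % 2 = 0 := by clear * - ev n1p n2p n3p q1; omega
              clear * - al a2 tt D1 D2 kk1659 kk1660 kk1661 kk1662 kk1663 kk1664 kk1665 kk1666 kk1667 r1668 r1669
              exact midP al (j + m + k3 - k - i2 + 1) (n + 2 * i + 2 * l + i2 + m - k3 + 3) (n + i2 - m) (n + Q + i2 - m - k3 - 1) (n + j + k3 - k) (by omega) (fun t h1 h2 => (cE (qa tt al 1 t ((n + i + l + i2 + 1) - t) (by omega)) (pb D2 al 0 ((n + i + l + i2 + 1) - t) ((n + 2 * i + 2 * l + i2 + m - k3 + 3) - t) (by omega)))) (fun t h1 h2 => (qf (show Par W (n + Q + i2 - m - k3 - 1) (n + i2 - m - 1) (j + m + k3 - k - i2 + 1) from fun t h1 h2 => (cE (sh al (-1) t (t + (-n)) (by omega)) (cE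 (cE (pb D1 al (-1) (t + (-n)) (t + (m + k3 - n - i2 + 1)) (by omega)) (pb a2 al 0 (t + (m + k3 - n - i2 + 1)) (t + (j + m + k3 - n - k - i2 + 1)) (by omega))) (sh al 1 (t + (j + m + k3 - n - k - i2 + 1)) (t + (j + m + k3 - k - i2 + 1)) (by omega))))) al 0 t (t + (j + m + k3 - k - i2 + 1)) (by omega)))
            · by_cases z138 : (2 * Q + 2 * j) ≤ (i + k + 2 * i2)
              · by_cases v50 : (Q + j + m) ≤ (k + i2)
                · have kk1670 : (i + 1) ≤ (k) := by clear * - b2 b6 b7 y18; omega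
                  have kk1671 : (k) ≤ (i + 2 * m) := by clear * - b2 z135; omega
                  have kk1672 : (k) ≤ (i + 2 * l + 2 * m + 2) := by clear * - b2 b6 b7 y18 z130 z132 z135; omega
                  have kk1673 : (k + 2 * i2) ≤ (i + 2 * j + 2 * l + 2 * m + 2) := by clear * - b2 b6 b7 y18 z130 z132; omega
                  have kk1674 : (Q + j + m) ≤ (k + i2) := by clear * - v50; omega
                  have kk1675 : (i2) ≤ (j) := by clear * - y1 y17; omega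
                  have kk1676 : (i + j + m + 1) ≤ (k + i2) := by clear * - b0 b2 b6 y18; omega
                  have kk1677 : (i + m + 1) ≤ (k) := by clear * - b1 b2 b6 b7 v50 y16 z132 z137 z138; omega
                  have r1678 : (2 * n + i + k + l + i2 - j + 1) % 2 = 0 := by clear * - ev n1p n2p n3p q1; omega
                  have r1679 : (k - i) % 2 = 0 := by clear * - ev n1p n2p n3p q1; omega
                  clear * - al a2 b tt kk1670 kk1671 kk1672 kk1673 kk1674 kk1675 kk1676 kk1677 r1678 r1679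
                  exact midP al (k - i) (2 * n + i + k + l + i2 - j + 1) (n + k + i2 - j - m) (n + i + 1) (n + k + l + 1) (by omega) (fun t h1 h2 => (cE (cI (pb a2 al 1 t (t + (j - n - k)) (by omega)) (qa tt al 0 (t + (j - n - k)) ((n + i + k + l + i2 - j + 1) - t) (by omega))) (sh al 1 ((n + i + k + l + i2 - j + 1) - t) ((2 * n + i + k + l + i2 - j + 1) - t) (by omega)))) (fun t h1 h2 => (cE (qf b al 1 t (t + (k - n - i)) (by omega)) (sh al 1 (t + (k - n - i)) (t + (k - i)) (by omega))))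
                · have kk1680 : (i + 1) ≤ (k) := by clear * - b2 b6 b7 y18; omega
                  have kk1681 : (2 * Q + 2 * j) ≤ (i + k + 2 * i2) := by clear * - z138; omega
                  have kk1682 : (2 * Q + 2 * j) ≤ (i + k + 2 * l + 2 * i2 + 2) := by clear * - b2 b6 b7 y18 z130 z132 z138; omega
                  have kk1683 : (2 * Q) ≤ (i + k + 2 * l + 2) := by clear * - b1 b2 b6 b7 v50 y16 z130 z132 z137 z138; omega
                  have kk1684 : (k + i2) ≤ (Q + j + m) := by clear * - v50; omega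
                  have kk1685 : (i2) ≤ (j) := by clear * - y1 y17; omega
                  have kk1686 : (i + 1) ≤ (Q) := by clear * - b0 b2 b6 v50 y18; omega
                  have kk1687 : (i + i2 + 1) ≤ (Q + j) := by clear * - b1 b2 b6 b7 v50 y16 z132 z137 z138; omega
                  have r1688 : (2 * n + i + k + l + i2 - j + 1) % 2 = 0 := by clear * - ev n1p n2p n3p q1; omega
                  have r1689 : (k - i) % 2 = 0 := by clear * - ev n1p n2p n3p q1; omega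
                  clear * - al a2 b tt kk1680 kk1681 kk1682 kk1683 kk1684 kk1685 kk1686 kk1687 r1688 r1689
                  exact midP al (k - i) (2 * n + i + k + l + i2 - j + 1) (n + Q) (n + i + 1) (n + k + l + 1) (by omega) (fun t h1 h2 => (cE (cI (pb a2 al 1 t (t + (j - n - k)) (by omega)) (qa tt al 0 (t + (j - n - k)) ((n + i + k + l + i2 - j + 1) - t) (by omega))) (sh al 1 ((n + i + k + l + i2 - j + 1) - t) ((2 * n + i + k + l + i2 - j + 1) - t) (by omega)))) (fun t h1 h2 => (cE (qf b al 1 t (t + (k - n - i)) (by omega)) (sh al 1 (t + (k - n - i)) (t + (k - i)) (by omega))))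
              · by_cases z139 : (2 * k + l + d1 + 2) ≤ (n + j + i2)
                · have kk1690 : (2 * k + l + d1 + 2) ≤ (n + j + i2) := by clear * - z139; omega
                  have kk1691 : (j + i2) ≤ (2 * k + l + d1) := by clear * - b0 b2 b5 b6 z130 z135 z136 z137 z138 z139; omega
                  have kk1692 : (Q + j) ≤ (k) := by clear * - b2 z136 z137 z138; omega
                  have kk1693 : (i2) ≤ (i + d1) := by clear * - b1 b2 b6 b7 z130 z135 z136 z137 z138; omega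
                  have kk1694 : (i + 1) ≤ (Q) := by clear * - b0 b2 b6 y18 z135 z138; omega
                  have kk1695 : (n + i2) ≤ (2 * k + l + d1 + 1) := by clear * - b0 b1; omega
                  have kk1696 : (n + i2) ≤ (2 * k + 2 * l + 2) := by clear * - b0 b2 b5 b6 z136 z137 z138; omega
                  clear * - al a2 c2 x1 kk1690 kk1691 kk1692 kk1693 kk1694 kk1695 kk1696
                  exact al.ubP (n + j + i2 - 2 * k - l - d1 - 1) (by omega) (by omega) fun t h1 h2 => (cE (cE (qf c2 al (-1) t (t + (n + i2 - k - l - 1)) (by omega)) (pb x1 al 0 (t + (n + i2 - k - l - 1)) (t + (n + i2 - k - l - d1 - 1)) (by omega))) (pb a2 al 0 (t + (n + i2 - k - l - d1 - 1)) (t + (n + j + i2 - 2 * k - l - d1 - 1)) (by omega)))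
                · have kk1697 : (i + l + i2 + 3) ≤ (j + k + d1) := by clear * - b2 y16 y19 z135 z136 z137 z138 z139; omega
                  have kk1698 : (i + j + l + 2) ≤ (k + i2 + d1) := by clear * - b2 y16 y19 z135 z136 z137 z139; omega
                  have kk1699 : (k + d1) ≤ (i + l + m + 2) := by clear * - b2 b6 y18 z132 z135; omega
                  have kk1700 : (d1) ≤ (l + 1) := by clear * - b2 b6 y18 z135 z136 z137 z138; omega
                  have kk1701 : (k + d1) ≤ (i + j + l + 2) := by clear * - b6 z132; omega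
                  have r1702 : (i + j + l + i2 - 2 * n - k - d1 + 1) % 2 = 0 := by clear * - ev n1p n2p n3p q1; omega
                  clear * - al a1 tt x1 kk1697 kk1698 kk1699 kk1700 kk1701 r1702
                  obtain ⟨t, ht⟩ : ∃ t, 2 * t = (i + j + l + i2 - 2 * n - k - d1 + 1) := ⟨(i + j + l + i2 - 2 * n - k - d1 + 1) / 2, by omega⟩
                  exact al.ninv t (cE (cE (cE (qa tt al (-1) t ((i + l + i2 - n + 1) - t) (by omega)) (pb x1 al 0 ((i + l + i2 - n + 1) - t) ((i + l + i2 - n - d1 + 1) - t) (by omega))) (pb a1 al 0 ((i + l + i2 - n - d1 + 1) - t) ((i + j + l + i2 - n - k - d1 + 1) - t) (by omega))) (sh al (-1) ((i + j + l + i2 - n - k - d1 + 1) - t) t (by omega)))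
          · by_cases z140 : (i + j + l + 3) ≤ (k + i2 + d1)
            · have kk1703 : (i + j + l + 3) ≤ (k + i2 + d1) := by clear * - z140; omega
              have kk1704 : (i + l + i2 + 2) ≤ (j + k + d1) := by clear * - y1 y17 z140; omega
              have kk1705 : (k + d1) ≤ (i + j + l + 2) := by clear * - b6 z132; omega
              have kk1706 : (d1) ≤ (l + 1) := by clear * - b2 b6 b7 y18 z132; omega
              have kk1707 : (k + d1) ≤ (i + l + m + 2) := by clear * - b2 b6 y18 z132 z135; omega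
              have r1708 : (i + j + l + i2 - 2 * n - k - d1 + 1) % 2 = 0 := by clear * - ev n1p n2p n3p q1; omega
              clear * - al a1 tt x1 kk1703 kk1704 kk1705 kk1706 kk1707 r1708
              obtain ⟨t, ht⟩ : ∃ t, 2 * t = (i + j + l + i2 - 2 * n - k - d1 + 1) := ⟨(i + j + l + i2 - 2 * n - k - d1 + 1) / 2, by omega⟩
              exact al.ninv t (cE (cI (cE (qf a1 al (-1) t (t + (n + k - j)) (by omega)) (qf x1 al 0 (t + (n + k - j)) (t + (n + k + d1 - j)) (by omega))) (ab tt al 0 (t + (n + k + d1 - j)) ((i + j + l + i2 - n - k - d1 + 1) - t) (by omega))) (sh al (-1) ((i + j + l + i2 - n - k - d1 + 1) - t) t (by omega)))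
            · have kk1709 : (2 * k + l + d1 + 2) ≤ (n + j + i2) := by clear * - b2 b3 y16 y19 z135 z140; omega
              have kk1710 : (j + i2) ≤ (2 * k + l + d1) := by clear * - b1 b2 b6 b7 y18 z130 z134 z135 z140; omega
              have kk1711 : (j + i2 + 1) ≤ (k + d1) := by clear * - b1 b2 b6 b7 y18 z130 z134; omega
              have kk1712 : (i + j + 1) ≤ (k) := by clear * - b2 b6 b7 y18; omega
              have kk1713 : (n + i2) ≤ (2 * k + l + d1 + 1) := by clear * - b0 b1; omega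
              have kk1714 : (n + i2) ≤ (2 * k + 2 * l + 2) := by clear * - b1 b2 b6 b7 y18; omega
              clear * - al a1 c2 x1 kk1709 kk1710 kk1711 kk1712 kk1713 kk1714
              exact al.ubP (n + j + i2 - 2 * k - l - d1 - 1) (by omega) (by omega) fun t h1 h2 => (cE (cE (qf c2 al (-1) t (t + (n + i2 - k - l - 1)) (by omega)) (pb x1 al 0 (t + (n + i2 - k - l - 1)) (t + (n + i2 - k - l - d1 - 1)) (by omega))) (pb a1 al 0 (t + (n + i2 - k - l - d1 - 1)) (t + (n + j + i2 - 2 * k - l - d1 - 1)) (by omega)))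
      · have kk1715 : (k3) ≤ (i + l + m + 1) := by clear * - y20; omega
        have kk1716 : (i + l + m + 3) ≤ (n) := by clear * - b2 b3 b6 b7 y18 z130 z132; omega
        have kk1717 : (k3) ≤ (i + l) := by clear * - b2 b3 b6 b7 y18 z130 z132 z134; omega
        have kk1718 : (i + l + 2) ≤ (n) := by clear * - b2 b3 b4 b6 b7 y18 z132; omega
        have kk1719 : (k3) ≤ (k + l) := by clear * - b2 b3 b6 b7 y18 z130 z132 z134; omega
        have kk1720 : (k + l + 2) ≤ (n) := by clear * - b2 b3 b4 b6 b7 y18 z132; omega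
        have kk1721 : (i2) ≤ (j) := by clear * - b3 b7 z132 z134; omega
        have kk1722 : (Q + j + m) ≤ (k + i2) := by clear * - b3 y13 z134; omega
        have kk1723 : (i) ≤ (k3) := by clear * - b3 b5 b7 y13 y16 z132 z134; omega
        have kk1724 : (i) ≤ (k) := by clear * - b2 b6 b7 y18; omega
        have kk1725 : (k + l + 1) ≤ (n) := by clear * - b2 b3 b4 b6 b7 y18 z132; omega
        have kk1726 : (i + k + l + i2 + 1) ≤ (n + j + k3) := by clear * - b2 b3 b4 b6 b7 y18 z132; omega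
        have kk1727 : (k3) ≤ (i + l + 1) := by clear * - b2 b3 b6 b7 y18 z130 z132 z134; omega
        have kk1728 : (i + l + m + 2) ≤ (n) := by clear * - b2 b3 b6 b7 y18 z130 z132; omega
        have kk1729 : (j + m + k3 + 1) ≤ (k + i2) := by clear * - b3 z134; omega
        have r1730 : (k - i) % 2 = 0 := by clear * - ev n1p n2p n3p q1; omega
        have r1731 : (i + l + m - k3 + 2) % 2 = 0 := by clear * - ev n1p n2p n3p q1; omega
        have r1732 : (i + k + l + i2 - 2 * n - j + 1) % 2 = 0 := by clear * - ev n1p n2p n3p q1; omega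
        clear * - al a2 b tt D2 n2 kk1715 kk1716 kk1717 kk1718 kk1719 kk1720 kk1721 kk1722 kk1723 kk1724 kk1725 kk1726 kk1727 kk1728 kk1729 r1730 r1731 r1732
        exact ivt al.ninv (k3 - n + 1) (k3 - i - l - m - 2) (i + l + m - k3 + 2) (k3 - n + 1) (i + l - n + 1) (k - i) (i + l - n + 1) (k + l - n + 1) 0 (fun t h1 h2 => (cE (pb D2 al (-1) t (t + (n + i + l + m - k3 + 2)) (by omega)) (sh al (-1) (t + (n + i + l + m - k3 + 2)) (t + (i + l + m - k3 + 2)) (by omega)))) (fun t h1 h2 => (cE (qf b al (-1) t (t + (n + k - i)) (by omega)) (sh al (-1) (t + (n + k - i)) (t + (k - i)) (by omega)))) (fun hh => n2.f0 (rEE (sh al (-1) (i + l + 1) (i + l - n + 1) (by omega)) (sh al (-1) (k + l + 1) (k + l - n + 1) (by omega)) (Eq.symm hh))) (by omega) (i + l - n + 2) (i + l + m - n + 2) (i + k + l + i2 - 2 * n - j + 1) 0 0 (fun t h1 h2 => (cE (cE (ab tt al (-1) t ((i + l + i2 - n + 1) - t) (by omega))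 (qf a2 al 0 ((i + l + i2 - n + 1) - t) ((i + k + l + i2 - n - j + 1) - t) (by omega))) (sh al (-1) ((i + k + l + i2 - n - j + 1) - t) ((i + k + l + i2 - 2 * n - j + 1) - t) (by omega)))) (by omega)

theorem h9_1p
    (h9_2 : ∀ {W : ℤ → G} {n Q i j k l i2 m k3 : ℤ} (al : AL W n Q) (hy : (0) ≤ (i) ∧ (i) ≤ (j) ∧ (j + 1) ≤ (Q) ∧ (Q) ≤ (k) ∧ (k + 1) ≤ (n) ∧ (Q) ≤ (i + l + 1) ∧ (k + l + 2) ≤ (n) ∧ (0) ≤ (i2) ∧ (i2 + 1) ≤ (Q) ∧ (Q + m + 1) ≤ (n + i2) ∧ (i2) ≤ (m) ∧ (Q) ≤ (i + l + m + 2) ∧ (i + l + m + 3) ≤ (n) ∧ (Q) ≤ (k3) ∧ (k3 + 1) ≤ (n) ∧ (i + m + 2) ≤ (k) ∧ (i) ≤ (i2) ∧ (i2) ≤ (i) ∧ (i + m + 1) ≤ (k3) ∧ (k3) ≤ (i + m + 1) ∧ (k3) ≤ (i + l + m + 1) ∧ (m + k3 + 2) ≤ (n + i2)) (a1 : Par W (0) (j) (k - j)) (a2 : Par W (Q + j - k) (j) (k - j)) (s1 : Ant W (0) (i) (i + j)) (s2 : Ant W (j + 1) (Q) (i + j)) (b : Par W (i + 1) (i + l + 1) (k - i)) (c1 : Par W (i2 + 1) (Q) (k + l - i2 + 1)) (c2 : Par W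 (k + l + 2) (n) (i2 - k - l - 1)) (tt : Ant W (i2 - m) (i2) (i + l + i2 + 1)) (D1 : Par W (Q) (k3) (n + i2 - m - k3 - 1)) (D2 : Par W (i + l + m + 3) (n) (k3 - i - l - m - 2)) {L : ℤ} (mx : ∀ a b g, 0 < g → g < n → Par W a b g → b - a ≤ L) (hL : L ≤ (n - j - 3) ∧ L ≤ (n + Q - k - 3) ∧ L ≤ (n - l - 3) ∧ L ≤ (n + i - k - 2)) (bd0 : Bd W n L (j) (i) (k)) (n1 : Nd W (j) (i) (k)) (n2 : Nd W (i + l + 1) (i2) (k + l + 1)) (n3 : Nd W (n + i2 - m - 1) (i + l + m + 2) (k3)) (d1 : ℤ) (q1 : d1 % 2 = 0) (x1 : Par W (i + 1) (k + l - d1 + 1) d1) (b0 : (i + l + 1) ≤ (k + d1)) (b1 : (0) ≤ (d1)) (b2 : (n + i + d1) ≤ (k + 2 * l + 2)), False)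
    (h9_11 : ∀ {W : ℤ → G} {n Q i j k l i2 m k3 : ℤ} (al : AL W n Q) (hy : (0) ≤ (i) ∧ (i) ≤ (j) ∧ (j + 1) ≤ (Q) ∧ (Q) ≤ (k) ∧ (k + 1) ≤ (n) ∧ (Q) ≤ (i + l + 1) ∧ (k + l + 2) ≤ (n) ∧ (0) ≤ (i2) ∧ (i2 + 1) ≤ (Q) ∧ (Q + m + 1) ≤ (n + i2) ∧ (i2) ≤ (m) ∧ (Q) ≤ (i + l + m + 2) ∧ (i + l + m + 3) ≤ (n) ∧ (Q) ≤ (k3) ∧ (k3 + 1) ≤ (n) ∧ (i + m + 2) ≤ (k) ∧ (i) ≤ (i2) ∧ (i2) ≤ (i) ∧ (i + m + 1) ≤ (k3) ∧ (k3) ≤ (i + m + 1) ∧ (k3) ≤ (i + l + m + 1) ∧ (m + k3 + 2) ≤ (n + i2)) (a1 : Par W (0) (j) (k - j)) (a2 : Par W (Q + j - k) (j) (k - j)) (s1 : Ant W (0) (i) (i + j)) (s2 : Ant W (j + 1) (Q) (i + j)) (b : Par W (i + 1) (i + l + 1) (k - i)) (c1 : Par W (i2 + 1) (Q) (k + l - i2 + 1)) (c2 : Par W (k + l + 2) (n) (i2 - k - l - 1)) (tt : Ant W (i2 - m) (i2) (i + l + i2 + 1)) (D1 : Par W (Q) (k3) (n + i2 - m - k3 - 1)) (D2 : Par W (i + l + m + 3) (n) (k3 - i - l - m - 2)) {L : ℤ} (mx : ∀ a b g, 0 < g → g <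 n → Par W a b g → b - a ≤ L) (hL : L ≤ (n - j - 3) ∧ L ≤ (n + Q - k - 3) ∧ L ≤ (n - l - 3) ∧ L ≤ (n + i - k - 2)) (bd0 : Bd W n L (j) (i) (k)) (n1 : Nd W (j) (i) (k)) (n2 : Nd W (i + l + 1) (i2) (k + l + 1)) (n3 : Nd W (n + i2 - m - 1) (i + l + m + 2) (k3)) (d1 : ℤ) (q1 : d1 % 2 = 0) (x1 : Par W (i + 1) (k + l - d1 + 1) d1) (b0 : (i + l + 1) ≤ (k + d1)) (b1 : (d1) ≤ (l)) (b2 : (0) ≤ (d1)) (b3 : (k + 2 * l + 3) ≤ (n + i + d1)), False)
    {W : ℤ → G} {n Q i j k l i2 m k3 : ℤ} (al : AL W n Q)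
    (hy : (0) ≤ (i) ∧ (i) ≤ (j) ∧ (j + 1) ≤ (Q) ∧ (Q) ≤ (k) ∧ (k + 1) ≤ (n) ∧ (Q) ≤ (i + l + 1) ∧ (k + l + 2) ≤ (n) ∧ (0) ≤ (i2) ∧ (i2 + 1) ≤ (Q) ∧ (Q + m + 1) ≤ (n + i2) ∧ (i2) ≤ (m) ∧ (Q) ≤ (i + l + m + 2) ∧ (i + l + m + 3) ≤ (n) ∧ (Q) ≤ (k3) ∧ (k3 + 1) ≤ (n) ∧ (i + m + 2) ≤ (k) ∧ (i) ≤ (i2) ∧ (i2) ≤ (i) ∧ (i + m + 1) ≤ (k3) ∧ (k3) ≤ (i + m + 1) ∧ (k3) ≤ (i + l + m + 1) ∧ (m + k3 + 2) ≤ (n + i2))
    (a1 : Par W (0) (j) (k - j))
    (a2 : Par W (Q + j - k) (j) (k - j))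
    (s1 : Ant W (0) (i) (i + j))
    (s2 : Ant W (j + 1) (Q) (i + j))
    (b : Par W (i + 1) (i + l + 1) (k - i))
    (c1 : Par W (i2 + 1) (Q) (k + l - i2 + 1))
    (c2 : Par W (k + l + 2) (n) (i2 - k - l - 1))
    (tt : Ant W (i2 - m) (i2) (i + l + i2 + 1))
    (D1 : Par W (Q) (k3) (n + i2 - m - k3 - 1))
    (D2 : Par W (i + l + m + 3) (n) (k3 - i - l - m - 2))
    {L : ℤ} (mx : ∀ a b g, 0 < g → g < n → Par W a b g → b - a ≤ L)
    (hL : L ≤ (n - j - 3) ∧ L ≤ (n + Q - k - 3) ∧ L ≤ (n - l - 3) ∧ L ≤ (n + i - k - 2))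
    (bd0 : Bd W n L (j) (i) (k))
    (n1 : Nd W (j) (i) (k))
    (n2 : Nd W (i + l + 1) (i2) (k + l + 1))
    (n3 : Nd W (n + i2 - m - 1) (i + l + m + 2) (k3))
    (d1 : ℤ) (q1 : d1 % 2 = 0) (x1 : Par W (i + 1) (k + l - d1 + 1) d1)
    (b0 : (i + l + 1) ≤ (k + d1))
    (b1 : (d1) ≤ (l))
    (b2 : (0) ≤ (d1)) : False := by
  have ev := al.ev
  obtain ⟨y0, y1, y2, y3, y4, y5, y6, y7, y8, y9, y10, y11, y12, y13, y14, y15, y16, y17, y18, y19, y20, y21⟩ := id hy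
  have n1p := And.intro n1.p1 n1.p2
  have n2p := And.intro n2.p1 n2.p2
  have n3p := And.intro n3.p1 n3.p2
  by_cases z1 : (n + i + d1) ≤ (k + 2 * l + 2)
  · exact h9_2 al hy a1 a2 s1 s2 b c1 c2 tt D1 D2 mx hL bd0 n1 n2 n3 d1 q1 x1 (by clear * - b0; omega) (by clear * - b2; omega) (by clear * - z1; omega)
  · exact h9_11 al hy a1 a2 s1 s2 b c1 c2 tt D1 D2 mx hL bd0 n1 n2 n3 d1 q1 x1 (by clear * - b0; omega) (by clear * - b1; omega) (by clear * - b2; omega) (by clear * - z1; omega)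

end Pool.Agent.MP_a38735_al.WL
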