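import Pool.Agent.MP_a38735_al.WT

set_option autoImplicit false
set_option linter.unusedVariables false

namespace Pool.Agent.MP_a38735_al.WL

variable {G : Type*} [Group G]

theorem ev7_3p
    (ev7_4 : ∀ {W : ℤ → G} {n Q i j k l i2 m k3 : ℤ} (al : AL W n Q) (hy : (0) ≤ (i) ∧ (i) ≤ (j) ∧ (j + 1) ≤ (Q) ∧ (Q) ≤ (k) ∧ (k + 1) ≤ (n) ∧ (Q) ≤ (i + l + 1) ∧ (k + l + 2) ≤ (n) ∧ (0) ≤ (i2) ∧ (i2 + 1) ≤ (Q) ∧ (Q + m + 1) ≤ (n + i2) ∧ (i2) ≤ (m) ∧ (Q) ≤ (i + l + m + 2) ∧ (i + l + m + 3) ≤ (n) ∧ (Q) ≤ (k3) ∧ (k3 + 1) ≤ (n) ∧ (i + m + 2) ≤ (k) ∧ (i) ≤ (i2) ∧ (i2) ≤ (i) ∧ (k3) ≤ (i + m)) (a1 : Par W (0) (j) (k - j)) (a2 : Par W (Q + j - k) (j) (k - j)) (s1 : Ant W (0) (i) (i + j)) (s2 : Ant W (j + 1) (Q) (i + j)) (b : Par W (i + 1) (i + l + 1) (k - i)) (c1 : Par W (i2 + 1) (Q) (k + l - i2 + 1)) (c2 : Par W (k + l + 2) (n) (i2 - k - l - 1)) (tt : Ant W (i2 - m) (i2) (i + l + i2 + 1)) (D1 : Par W (Q)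 (k3) (n + i2 - m - k3 - 1)) (D2 : Par W (i + l + m + 3) (n) (k3 - i - l - m - 2)) {L : ℤ} (mx : ∀ a b g, 0 < g → g < n → Par W a b g → b - a ≤ L) (hL : L ≤ (n - j - 3) ∧ L ≤ (n + Q - k - 3) ∧ L ≤ (n - l - 3) ∧ L ≤ (n + i - k - 2)) (bd0 : Bd W n L (j) (i) (k)) (n1 : Nd W (j) (i) (k)) (n2 : Nd W (i + l + 1) (i2) (k + l + 1)) (n3 : Nd W (n + i2 - m - 1) (i + l + m + 2) (k3)) (b0 : (i + l + 2 * m + 2) ≤ (n + i2)) (b1 : (2 * i + j + 1) ≤ (k)) (b2 : (i + k + l + m + 3) ≤ (n + j + k3)) (b3 : (n + i2) ≤ (i + k + 2 * l + m + 2)), False)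
    {W : ℤ → G} {n Q i j k l i2 m k3 : ℤ} (al : AL W n Q)
    (hy : (0) ≤ (i) ∧ (i) ≤ (j) ∧ (j + 1) ≤ (Q) ∧ (Q) ≤ (k) ∧ (k + 1) ≤ (n) ∧ (Q) ≤ (i + l + 1) ∧ (k + l + 2) ≤ (n) ∧ (0) ≤ (i2) ∧ (i2 + 1) ≤ (Q) ∧ (Q + m + 1) ≤ (n + i2) ∧ (i2) ≤ (m) ∧ (Q) ≤ (i + l + m + 2) ∧ (i + l + m + 3) ≤ (n) ∧ (Q) ≤ (k3) ∧ (k3 + 1) ≤ (n) ∧ (i + m + 2) ≤ (k) ∧ (i) ≤ (i2) ∧ (i2) ≤ (i) ∧ (k3) ≤ (i + m))
    (a1 : Par W (0) (j) (k - j))
    (a2 : Par W (Q + j - k) (j) (k - j))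
    (s1 : Ant W (0) (i) (i + j))
    (s2 : Ant W (j + 1) (Q) (i + j))
    (b : Par W (i + 1) (i + l + 1) (k - i))
    (c1 : Par W (i2 + 1) (Q) (k + l - i2 + 1))
    (c2 : Par W (k + l + 2) (n) (i2 - k - l - 1))
    (tt : Ant W (i2 - m) (i2) (i + l + i2 + 1))
    (D1 : Par W (Q) (k3) (n + i2 - m - k3 - 1))
    (D2 : Par W (i + l + m + 3) (n) (k3 - i - l - m - 2))
    {L : ℤ} (mx : ∀ a b g, 0 < g → g < n → Par W a b g → b - a ≤ L)
    (hL : L ≤ (n - j - 3) ∧ L ≤ (n + Q - k - 3) ∧ L ≤ (n - l - 3) ∧ L ≤ (n + i - k - 2))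
    (bd0 : Bd W n L (j) (i) (k))
    (n1 : Nd W (j) (i) (k))
    (n2 : Nd W (i + l + 1) (i2) (k + l + 1))
    (n3 : Nd W (n + i2 - m - 1) (i + l + m + 2) (k3))
    (b0 : (i + l + 2 * m + 2) ≤ (n + i2))
    (b1 : (2 * i + j + 1) ≤ (k))
    (b2 : (i + k + l + m + 3) ≤ (n + j + k3)) : False := by
  have ev := al.ev
  obtain ⟨y0, y1, y2, y3, y4, y5, y6, y7, y8, y9, y10, y11, y12, y13, y14, y15, y16, y17, y18⟩ := id hy
  have n1p := And.intro n1.p1 n1.p2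
  have n2p := And.intro n2.p1 n2.p2
  have n3p := And.intro n3.p1 n3.p2
  by_cases z4 : (i + k + 2 * l + m + 3) ≤ (n + i2)
  · have kk35 : (k3) ≤ (i + l + m + 1) := by clear * - y16 y18 y5 y8; omega
    have kk36 : (i2) ≤ (k + l) := by clear * - y11 y15 y8; omega
    have kk37 : (i + k + 2 * l + m + 3) ≤ (n + i2) := by clear * - z4; omega
    have kk38 : (i2 + 1) ≤ (k3) := by clear * - y13 y8; omega
    have r39 : (i + l + m - k3 + 2) % 2 = 0 := by clear * - ev n1p n2p n3p; omega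
    have r40 : (k + l - i2 + 1) % 2 = 0 := by clear * - ev n1p n2p n3p; omega
    clear * - al c2 D2 n3 kk35 kk36 kk37 kk38 r39 r40
    exact n3.f1 (rEE (sh al 1 (i + l + m + 2) (n + i + l + m + 2) (by omega)) (sh al 1 (k3) (n + k3) (by omega)) (Eq.symm (rotL (i + l + m - k3 + 2) (k + l - i2 + 1) (n + k3) (n + i + l + m + 2) (by omega) (fun t h1 h2 => (cE (pb D2 al 1 t (t + (i + l + m - n - k3 + 2)) (by omega)) (sh al 1 (t + (i + l + m - n - k3 + 2)) (t + (i + l + m - k3 + 2)) (by omega)))) (fun t h1 h2 => (cE (pb c2 al 1 t (t + (k + l - n - i2 + 1)) (by omega)) (sh al 1 (t + (k + l - n - i2 + 1)) (t + (k + l - i2 + 1)) (by omega)))))))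
  · exact ev7_4 al hy a1 a2 s1 s2 b c1 c2 tt D1 D2 mx hL bd0 n1 n2 n3 (by clear * - b0; omega) (by clear * - b1; omega) (by clear * - b2; omega) (by clear * - z4; omega)

theorem h8_11p
    (h8_12 : ∀ {W : ℤ → G} {n Q i j k l i2 m k3 : ℤ} (al : AL W n Q) (hy : (0) ≤ (i) ∧ (i) ≤ (j) ∧ (j + 1) ≤ (Q) ∧ (Q) ≤ (k) ∧ (k + 1) ≤ (n) ∧ (Q) ≤ (i + l + 1) ∧ (k + l + 2) ≤ (n) ∧ (0) ≤ (i2) ∧ (i2 + 1) ≤ (Q) ∧ (Q + m + 1) ≤ (n + i2) ∧ (i2) ≤ (m) ∧ (Q) ≤ (i + l + m + 2) ∧ (i + l + m + 3) ≤ (n) ∧ (Q) ≤ (k3) ∧ (k3 + 1) ≤ (n) ∧ (i + m + 2) ≤ (k) ∧ (i) ≤ (i2) ∧ (i2) ≤ (i) ∧ (i + m + 2) ≤ (k3) ∧ (k3) ≤ (i + l + m + 1) ∧ (m + k3 + 2) ≤ (n + i2)) (a1 : Par W (0) (j) (k - j)) (a2 : Par W (Q + j - k) (j) (k - j)) (s1 : Ant W (0) (i) (i + j)) (s2 : Ant W (j + 1) (Q) (i + j)) (b : Par W (i + 1) (i + l + 1) (k - i)) (c1 : Par W (i2 + 1) (Q) (k + l - i2 + 1)) (c2 : Par W (k + l + 2) (n) (i2 - k - l - 1)) (tt : Ant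 W (i2 - m) (i2) (i + l + i2 + 1)) (D1 : Par W (Q) (k3) (n + i2 - m - k3 - 1)) (D2 : Par W (i + l + m + 3) (n) (k3 - i - l - m - 2)) {L : ℤ} (mx : ∀ a b g, 0 < g → g < n → Par W a b g → b - a ≤ L) (hL : L ≤ (n - j - 3) ∧ L ≤ (n + Q - k - 3) ∧ L ≤ (n - l - 3) ∧ L ≤ (n + i - k - 2)) (bd0 : Bd W n L (j) (i) (k)) (n1 : Nd W (j) (i) (k)) (n2 : Nd W (i + l + 1) (i2) (k + l + 1)) (n3 : Nd W (n + i2 - m - 1) (i + l + m + 2) (k3)) (b0 : (2 * l + 3) ≤ (n)) (b1 : (n + k3) ≤ (2 * i + 2 * l + i2 + m + 4)) (b2 : (i2 + 2 * m) ≤ (i + l)) (b3 : (2 * i + j + 1) ≤ (k)) (b4 : (2 * Q + k + l) ≤ (n + 2 * j + i2)) (b5 : (k + k3) ≤ (2 * i + l + m + 2)), False)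
    (h8_16 : ∀ {W : ℤ → G} {n Q i j k l i2 m k3 : ℤ} (al : AL W n Q) (hy : (0) ≤ (i) ∧ (i) ≤ (j) ∧ (j + 1) ≤ (Q) ∧ (Q) ≤ (k) ∧ (k + 1) ≤ (n) ∧ (Q) ≤ (i + l + 1) ∧ (k + l + 2) ≤ (n) ∧ (0) ≤ (i2) ∧ (i2 + 1) ≤ (Q) ∧ (Q + m + 1) ≤ (n + i2) ∧ (i2) ≤ (m) ∧ (Q) ≤ (i + l + m + 2) ∧ (i + l + m + 3) ≤ (n) ∧ (Q) ≤ (k3) ∧ (k3 + 1) ≤ (n) ∧ (i + m + 2) ≤ (k) ∧ (i) ≤ (i2) ∧ (i2) ≤ (i) ∧ (i + m + 2) ≤ (k3) ∧ (k3) ≤ (i + l + m + 1) ∧ (m + k3 + 2) ≤ (n + i2)) (a1 : Par W (0) (j) (k - j)) (a2 : Par W (Q + j - k) (j) (k - j)) (s1 : Ant W (0) (i) (i + j)) (s2 : Ant W (j + 1) (Q) (i + j)) (b : Par W (i + 1) (i + l + 1) (k - i)) (c1 : Par W (i2 + 1) (Q) (k + l - i2 + 1)) (c2 : Par W (k + l + 2) (n) (i2 - k - l - 1)) (tt : Ant W (i2 - m) (i2) (i + l + i2 + 1)) (D1 : Par W (Q) (k3) (n + i2 - m - k3 - 1)) (D2 : Par W (i + l + m + 3) (n) (k3 - i - l - m - 2)) {L : ℤ} (mx : ∀ a b g, 0 < g → g < n → Par W a b g →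 b - a ≤ L) (hL : L ≤ (n - j - 3) ∧ L ≤ (n + Q - k - 3) ∧ L ≤ (n - l - 3) ∧ L ≤ (n + i - k - 2)) (bd0 : Bd W n L (j) (i) (k)) (n1 : Nd W (j) (i) (k)) (n2 : Nd W (i + l + 1) (i2) (k + l + 1)) (n3 : Nd W (n + i2 - m - 1) (i + l + m + 2) (k3)) (b0 : (2 * l + 3) ≤ (n)) (b1 : (n + k3) ≤ (2 * i + 2 * l + i2 + m + 4)) (b2 : (i2 + 2 * m) ≤ (i + l)) (b3 : (2 * i + j + 1) ≤ (k)) (b4 : (2 * Q + k + l) ≤ (n + 2 * j + i2)) (b5 : (2 * i + l + m + 3) ≤ (k + k3)), False)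
    {W : ℤ → G} {n Q i j k l i2 m k3 : ℤ} (al : AL W n Q)
    (hy : (0) ≤ (i) ∧ (i) ≤ (j) ∧ (j + 1) ≤ (Q) ∧ (Q) ≤ (k) ∧ (k + 1) ≤ (n) ∧ (Q) ≤ (i + l + 1) ∧ (k + l + 2) ≤ (n) ∧ (0) ≤ (i2) ∧ (i2 + 1) ≤ (Q) ∧ (Q + m + 1) ≤ (n + i2) ∧ (i2) ≤ (m) ∧ (Q) ≤ (i + l + m + 2) ∧ (i + l + m + 3) ≤ (n) ∧ (Q) ≤ (k3) ∧ (k3 + 1) ≤ (n) ∧ (i + m + 2) ≤ (k) ∧ (i) ≤ (i2) ∧ (i2) ≤ (i) ∧ (i + m + 2) ≤ (k3) ∧ (k3) ≤ (i + l + m + 1) ∧ (m + k3 + 2) ≤ (n + i2))
    (a1 : Par W (0) (j) (k - j))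
    (a2 : Par W (Q + j - k) (j) (k - j))
    (s1 : Ant W (0) (i) (i + j))
    (s2 : Ant W (j + 1) (Q) (i + j))
    (b : Par W (i + 1) (i + l + 1) (k - i))
    (c1 : Par W (i2 + 1) (Q) (k + l - i2 + 1))
    (c2 : Par W (k + l + 2) (n) (i2 - k - l - 1))
    (tt : Ant W (i2 - m) (i2) (i + l + i2 + 1))
    (D1 : Par W (Q) (k3) (n + i2 - m - k3 - 1))
    (D2 : Par W (i + l + m + 3) (n) (k3 - i - l - m - 2))
    {L : ℤ} (mx : ∀ a b g, 0 < g → g < n → Par W a b g → b - a ≤ L)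
    (hL : L ≤ (n - j - 3) ∧ L ≤ (n + Q - k - 3) ∧ L ≤ (n - l - 3) ∧ L ≤ (n + i - k - 2))
    (bd0 : Bd W n L (j) (i) (k))
    (n1 : Nd W (j) (i) (k))
    (n2 : Nd W (i + l + 1) (i2) (k + l + 1))
    (n3 : Nd W (n + i2 - m - 1) (i + l + m + 2) (k3))
    (b0 : (2 * l + 3) ≤ (n))
    (b1 : (n + k3) ≤ (2 * i + 2 * l + i2 + m + 4))
    (b2 : (i2 + 2 * m) ≤ (i + l))
    (b3 : (2 * i + j + 1) ≤ (k))
    (b4 : (2 * Q + k + l) ≤ (n + 2 * j + i2)) : False := by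
  have ev := al.ev
  obtain ⟨y0, y1, y2, y3, y4, y5, y6, y7, y8, y9, y10, y11, y12, y13, y14, y15, y16, y17, y18, y19, y20⟩ := id hy
  have n1p := And.intro n1.p1 n1.p2
  have n2p := And.intro n2.p1 n2.p2
  have n3p := And.intro n3.p1 n3.p2
  by_cases z23 : (k + k3) ≤ (2 * i + l + m + 2)
  · exact h8_12 al hy a1 a2 s1 s2 b c1 c2 tt D1 D2 mx hL bd0 n1 n2 n3 (by clear * - b0; omega) (by clear * - b1; omega) (by clear * - b2; omega) (by clear * - b3; omega) (by clear * - b4; omega) (by clear * - z23; omega)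
  · exact h8_16 al hy a1 a2 s1 s2 b c1 c2 tt D1 D2 mx hL bd0 n1 n2 n3 (by clear * - b0; omega) (by clear * - b1; omega) (by clear * - b2; omega) (by clear * - b3; omega) (by clear * - b4; omega) (by clear * - z23; omega)

theorem h8_37p
    {W : ℤ → G} {n Q i j k l i2 m k3 : ℤ} (al : AL W n Q)
    (hy : (0) ≤ (i) ∧ (i) ≤ (j) ∧ (j + 1) ≤ (Q) ∧ (Q) ≤ (k) ∧ (k + 1) ≤ (n) ∧ (Q) ≤ (i + l + 1) ∧ (k + l + 2) ≤ (n) ∧ (0) ≤ (i2) ∧ (i2 + 1) ≤ (Q) ∧ (Q + m + 1) ≤ (n + i2) ∧ (i2) ≤ (m) ∧ (Q) ≤ (i + l + m + 2) ∧ (i + l + m + 3) ≤ (n) ∧ (Q) ≤ (k3) ∧ (k3 + 1) ≤ (n) ∧ (i + m + 2) ≤ (k) ∧ (i) ≤ (i2) ∧ (i2) ≤ (i) ∧ (i + m + 2) ≤ (k3) ∧ (k3) ≤ (i + l + m + 1) ∧ (m + k3 + 2) ≤ (n + i2))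
    (a1 : Par W (0) (j) (k - j))
    (a2 : Par W (Q + j - k) (j) (k - j))
    (s1 : Ant W (0) (i) (i + j))
    (s2 : Ant W (j + 1) (Q) (i + j))
    (b : Par W (i + 1) (i + l + 1) (k - i))
    (c1 : Par W (i2 + 1) (Q) (k + l - i2 + 1))
    (c2 : Par W (k + l + 2) (n) (i2 - k - l - 1))
    (tt : Ant W (i2 - m) (i2) (i + l + i2 + 1))
    (D1 : Par W (Q) (k3) (n + i2 - m - k3 - 1))
    (D2 : Par W (i + l + m + 3) (n) (k3 - i - l - m - 2))
    {L : ℤ} (mx : ∀ a b g, 0 < g → g < n → Par W a b g → b - a ≤ L)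
    (hL : L ≤ (n - j - 3) ∧ L ≤ (n + Q - k - 3) ∧ L ≤ (n - l - 3) ∧ L ≤ (n + i - k - 2))
    (bd0 : Bd W n L (j) (i) (k))
    (n1 : Nd W (j) (i) (k))
    (n2 : Nd W (i + l + 1) (i2) (k + l + 1))
    (n3 : Nd W (n + i2 - m - 1) (i + l + m + 2) (k3))
    (b0 : (2 * l + 3) ≤ (n))
    (b1 : (k + i2 + 1) ≤ (Q + j + m))
    (b2 : (2 * i + j + 1) ≤ (k))
    (b3 : (n + k3) ≤ (i + k + 2 * l + m + 3))
    (b4 : (k + i2 + m + 1) ≤ (i + k3))
    (b5 : (2 * i + 2 * l + 3 * m + 6) ≤ (n + i2 + k3))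
    (b6 : (k + l + m + k3 + 3) ≤ (n + 2 * i2))
    (b7 : (k) ≤ (i + 2 * j + 1))
    (b8 : (n + i + i2) ≤ (3 * k + l + 1)) : False := by
  have ev := al.ev
  obtain ⟨y0, y1, y2, y3, y4, y5, y6, y7, y8, y9, y10, y11, y12, y13, y14, y15, y16, y17, y18, y19, y20⟩ := id hy
  have n1p := And.intro n1.p1 n1.p2
  have n2p := And.intro n2.p1 n2.p2
  have n3p := And.intro n3.p1 n3.p2
  by_cases z71 : (2 * j + 2) ≤ (i + k)
  · have kk863 : (k) ≤ (i + 2 * j) := by clear * - b7 ev n1p n2p n3p; omega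
    have kk864 : (2 * j + 1) ≤ (i + k) := by clear * - z71; omega
    have kk865 : (i) ≤ (j) := by clear * - b2 b7; omega
    have r866 : (i + k - 2 * n) % 2 = 0 := by clear * - ev n1p n2p n3p; omega
    clear * - al a1 s1 kk863 kk864 kk865 r866
    obtain ⟨t, ht⟩ : ∃ t, 2 * t = (i + k - 2 * n) := ⟨(i + k - 2 * n) / 2, by omega⟩
    exact al.ninv t (cE (cI (pb a1 al (-1) t (t + (n + j - k)) (by omega)) (qa s1 al 0 (t + (n + j - k)) ((i + k - n) - t) (by omega))) (sh al (-1) ((i + k - n) - t) t (by omega)))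
  · by_cases z72 : (3 * k + l + 2) ≤ (n + i + j + i2)
    · have kk867 : (3 * k + l + 2) ≤ (n + i + j + i2) := by clear * - z72; omega
      have kk868 : (i + j + i2) ≤ (3 * k + l) := by clear * - b0 b2 b3 b4 y18 z71 z72; omega
      have kk869 : (i2) ≤ (k) := by clear * - b0 b2 b3 b4 b8 z72; omega
      have kk870 : (i + j + 1) ≤ (k) := by clear * - b0 b2 b3 b4 y16; omega
      have kk871 : (k) ≤ (i + l + 1) := by clear * - b0 b2 b3 b4 y18 z72; omega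
      have kk872 : (n + i + i2) ≤ (3 * k + l + 1) := by clear * - b8; omega
      clear * - al a1 b c2 kk867 kk868 kk869 kk870 kk871 kk872
      exact al.ubP (n + i + j + i2 - 3 * k - l - 1) (by omega) (by omega) fun t h1 h2 => (cE (sh al 2 t (t + (2 * n)) (by omega)) (cE (cE (qf c2 al 1 (t + (2 * n)) (t + (n + i2 - k - l - 1)) (by omega)) (pb b al 0 (t + (n + i2 - k - l - 1)) (t + (n + i + i2 - 2 * k - l - 1)) (by omega))) (pb a1 al 0 (t + (n + i + i2 - 2 * k - l - 1)) (t + (n + i + j + i2 - 3 * k - l - 1)) (by omega))))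
    · by_cases z73 : (n + 2 * k3) ≤ (i + 2 * k + 2 * l + 2 * m + 4)
      · have kk873 : (i + 2 * k + 2 * l + 2 * m + 5) ≤ (n + j + 2 * k3) := by clear * - b0 b2 b4 y16 z71 z73; omega
        have kk874 : (j + 2 * k3) ≤ (i + 2 * k + 2 * l + 2 * m + 3) := by clear * - b0 b4 y16 y19 z72; omega
        have kk875 : (j + 2 * k3) ≤ (2 * k + l + m + 1) := by clear * - b0 b2 b4 b6 y19 z71 z72 z73; omega
        have kk876 : (i + j + k3 + 1) ≤ (2 * k) := by clear * - b6 y10 z72; omega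
        have kk877 : (i + j + 1) ≤ (k) := by clear * - b0 b2 b4 y16 z73; omega
        have kk878 : (n + 2 * k3) ≤ (i + 2 * k + 2 * l + 2 * m + 4) := by clear * - z73; omega
        have kk879 : (n + 2 * k3) ≤ (2 * i + k + 3 * l + 2 * m + 5) := by clear * - b3 y19; omega
        have kk880 : (k3) ≤ (i + l + m + 2) := by clear * - y19; omega
        clear * - al a1 b D2 kk873 kk874 kk875 kk876 kk877 kk878 kk879 kk880
        exact al.ubP (n + j + 2 * k3 - i - 2 * k - 2 * l - 2 * m - 4) (by omega) (by omega) fun t h1 h2 => (cE (sh al 1 t (t + (n)) (by omega)) (cE (cE (cE (qf D2 al 0 (t + (n)) (t + (n + k3 - i - l - m - 2)) (by omega)) (qf D2 al 0 (t + (n + k3 - i - l - m - 2)) (t + (n + 2 * k3 - 2 * i - 2 * l - 2 * m - 4)) (by omega))) (pb b al 0 (t + (n + 2 * k3 - 2 * i - 2 * l - 2 * m - 4)) (t + (n + 2 * k3 - i - k - 2 * l - 2 * m - 4)) (by omega))) (pb a1 al 0 (t + (n + 2 * k3 - i -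 k - 2 * l - 2 * m - 4)) (t + (n + j + 2 * k3 - i - 2 * k - 2 * l - 2 * m - 4)) (by omega))))
      · have kk881 : (k + i2 + m + 2) ≤ (i + k3) := by clear * - b3 y17 z73; omega
        have kk882 : (i + k3) ≤ (n + k + i2 + m) := by clear * - b0 b8 y16 y19 z73; omega
        have kk883 : (i + k3) ≤ (Q + k + m) := by clear * - b0 b1 b2 b3 b6 y16 z72 z73; omega
        have kk884 : (k + m + 1) ≤ (k3) := by clear * - b3 z73; omega
        have kk885 : (i + m + 1) ≤ (k3) := by clear * - b0 b2 b3 z71 z73; omega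
        have kk886 : (i + m + 1) ≤ (k) := by clear * - b0 b2 b3 b4 b6 z71 z72 z73; omega
        have kk887 : (i) ≤ (k) := by clear * - b0 b2 b3 z71 z73; omega
        have kk888 : (Q + k3) ≤ (i + l + i2 + m + 2) := by clear * - b3 b6 y10 y13; omega
        have kk889 : (Q + k + l + 1) ≤ (n + i2) := by clear * - b6 y10 y13; omega
        clear * - al b c1 D2 kk881 kk882 kk883 kk884 kk885 kk886 kk887 kk888 kk889
        exact al.ubQ (i + k3 - k - i2 - m - 1) (by omega) (by omega) fun t h1 h2 => (cE (cE (cE (qf c1 al 0 t (t + (k + l - i2 + 1)) (by omega)) (qf D2 al 0 (t + (k + l - i2 + 1)) (t + (k + k3 - i - i2 - m - 1)) (by omega))) (pb b al 0 (t + (k + k3 - i - i2 - m - 1)) (t + (k3 - i2 - m - 1)) (by omega))) (pb b al 0 (t + (k3 - i2 - m - 1)) (t + (i + k3 - k - i2 - m - 1)) (by omega)))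

theorem h8_63p
    {W : ℤ → G} {n Q i j k l i2 m k3 : ℤ} (al : AL W n Q)
    (hy : (0) ≤ (i) ∧ (i) ≤ (j) ∧ (j + 1) ≤ (Q) ∧ (Q) ≤ (k) ∧ (k + 1) ≤ (n) ∧ (Q) ≤ (i + l + 1) ∧ (k + l + 2) ≤ (n) ∧ (0) ≤ (i2) ∧ (i2 + 1) ≤ (Q) ∧ (Q + m + 1) ≤ (n + i2) ∧ (i2) ≤ (m) ∧ (Q) ≤ (i + l + m + 2) ∧ (i + l + m + 3) ≤ (n) ∧ (Q) ≤ (k3) ∧ (k3 + 1) ≤ (n) ∧ (i + m + 2) ≤ (k) ∧ (i) ≤ (i2) ∧ (i2) ≤ (i) ∧ (i + m + 2) ≤ (k3) ∧ (k3) ≤ (i + l + m + 1) ∧ (m + k3 + 2) ≤ (n + i2))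
    (a1 : Par W (0) (j) (k - j))
    (a2 : Par W (Q + j - k) (j) (k - j))
    (s1 : Ant W (0) (i) (i + j))
    (s2 : Ant W (j + 1) (Q) (i + j))
    (b : Par W (i + 1) (i + l + 1) (k - i))
    (c1 : Par W (i2 + 1) (Q) (k + l - i2 + 1))
    (c2 : Par W (k + l + 2) (n) (i2 - k - l - 1))
    (tt : Ant W (i2 - m) (i2) (i + l + i2 + 1))
    (D1 : Par W (Q) (k3) (n + i2 - m - k3 - 1))
    (D2 : Par W (i + l + m + 3) (n) (k3 - i - l - m - 2))
    {L : ℤ} (mx : ∀ a b g, 0 < g → g < n → Par W a b g → b - a ≤ L)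
    (hL : L ≤ (n - j - 3) ∧ L ≤ (n + Q - k - 3) ∧ L ≤ (n - l - 3) ∧ L ≤ (n + i - k - 2))
    (bd0 : Bd W n L (j) (i) (k))
    (n1 : Nd W (j) (i) (k))
    (n2 : Nd W (i + l + 1) (i2) (k + l + 1))
    (n3 : Nd W (n + i2 - m - 1) (i + l + m + 2) (k3))
    (d1 : ℤ) (q1 : d1 % 2 = 0) (x1 : Par W (i + 1) (k + l - d1 + 1) d1)
    (b0 : (2 * l + 3) ≤ (n))
    (b1 : (2 * i + j + 1) ≤ (k))
    (b2 : (k + i2 + m + 1) ≤ (i + k3))
    (b3 : (2 * Q + k + 2 * l + 2 * m + 4) ≤ (n + j + 2 * k3))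
    (b4 : (i + 2 * l + 2 * m + 4) ≤ (n + j))
    (b5 : (3 * k) ≤ (i + 2 * j + k3))
    (b6 : (n + 2 * k3) ≤ (i + 2 * k + 2 * l + 2 * m + 3))
    (b7 : (2 * i + k + 2 * l + 3 * m + 6) ≤ (n + j + i2 + k3))
    (b8 : (4 * k + l + k3 + 1) ≤ (n + 2 * i + 2 * i2 + m))
    (b9 : (i + 4 * k) ≤ (5 * j + 1))
    (b10 : (i + k + l + 1) ≤ (Q + j + d1))
    (b11 : (Q + j + d1) ≤ (2 * k + l)) : False := by
  have ev := al.ev
  obtain ⟨y0, y1, y2, y3, y4, y5, y6, y7, y8, y9, y10, y11, y12, y13, y14, y15, y16, y17, y18, y19, y20⟩ := id hy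
  have n1p := And.intro n1.p1 n1.p2
  have n2p := And.intro n2.p1 n2.p2
  have n3p := And.intro n3.p1 n3.p2
  by_cases z122 : (i + l + m + 1) ≤ (j + d1)
  · by_cases z123 : (d1) ≤ (l + m + 1)
    · by_cases v34 : (k + l + m + 2) ≤ (k3 + d1)
      · have kk1434 : (d1) ≤ (l + m + 1) := by clear * - z123; omega
        have kk1435 : (i + m + 2) ≤ (k) := by clear * - b0 b1 b2 b6 b7 v34 y16 z123; omega
        have kk1436 : (k + 1) ≤ (k3) := by clear * - v34 z123; omega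
        have kk1437 : (k3) ≤ (k + l) := by clear * - b1 b10 b11 b2 b6 y20 z122 z123; omega
        have kk1438 : (j + 1) ≤ (k) := by clear * - b0 b1 b2 b6 y16; omega
        have kk1439 : (0) ≤ (j) := by clear * - b4 b6 v34 z123; omega
        have kk1440 : (k) ≤ (i + k3) := by clear * - b0 b2 b6 v34 y16 z123; omega
        have kk1441 : (i + k3 + 1) ≤ (2 * k) := by clear * - b0 b1 b2 b6 b7 v34 z123; omega
        have kk1442 : (d1) ≤ (i + l + m + 2) := by clear * - b0 b2 b6 y16 z123; omega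
        have kk1443 : (i + l + m + 3) ≤ (k + d1) := by clear * - b0 b1 b2 b6 b7 v34 z123; omega
        have kk1444 : (i + k3) ≤ (j + k + 1) := by clear * - b1 b4 b6 b9 v34 z123; omega
        have kk1445 : (d1) ≤ (l + m + 2) := by clear * - z123; omega
        have kk1446 : (k + l + 1) ≤ (n) := by clear * - b0 b1 b10 b11 b2 b6 b8 z122 z123; omega
        have kk1447 : (k) ≤ (k3) := by clear * - v34 z123; omega
        have kk1448 : (k3) ≤ (i + l + m + 2) := by clear * - b10 b11 b2 b6 b8; omega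
        have kk1449 : (k + l + m + 2) ≤ (k3 + d1) := by clear * - v34; omega
        have kk1450 : (d1) ≤ (i + l + m + 3) := by clear * - b0 b2 b6 y16 z123; omega
        have kk1451 : (k + m + 1) ≤ (k3) := by clear * - b2 y16; omega
        have r1452 : (k + l + m - k3 - d1 + 2) % 2 = 0 := by clear * - ev n1p n2p n3p q1; omega
        have r1453 : (k - j) % 2 = 0 := by clear * - ev n1p n2p n3p q1; omega
        clear * - al a1 b D2 x1 n3 kk1434 kk1435 kk1436 kk1437 kk1438 kk1439 kk1440 kk1441 kk1442 kk1443 kk1444 kk1445 kk1446 kk1447 kk1448 kk1449 kk1450 kk1451 r1452 r1453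
        exact ivt0 (-n) (j - n) (k - j) (i + k3 - n - k + 1) (k - n) (k + l + m - k3 - d1 + 2) (i + k3 - n - k) (i + l + m - n - d1 + 2) 0 (fun t h1 h2 => (cE (qf a1 al (-1) t (t + (n + k - j)) (by omega)) (sh al (-1) (t + (n + k - j)) (t + (k - j)) (by omega)))) (fun t h1 h2 => (cE (sh al 1 t (t + (n)) (by omega)) (cE (cE (qf b al 0 (t + (n)) (t + (n + k - i)) (by omega)) (pb (show Par W (i + l + m - d1 + 3) (k + l - d1 + 1) (k3 + d1 - i - l - m - 2) from fun t h1 h2 => (cE (sh al (-1) t (t + (-n)) (by omega)) (cE (qf x1 al (-1) (t + (-n)) (t + (d1)) (by omega)) (qf D2 al 0 (t + (d1)) (t + (k3 + d1 - i - l - m - 2)) (by omega))))) al 0 (t + (n + k - i)) (t + (n + k + l + m - k3 - d1 + 2)) (by omega))) (sh al (-1) (t + (n + k + l + m - k3 - d1 + 2)) (t + (k + l + m - k3 - d1 + 2)) (by omega))))) (fun hh => n3.f1 (rEE (cE (pb x1 al 0 (i + l + m + 2) (i + l + m - d1 + 2) (by omega)) (sh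 al (-1) (i + l + m - d1 + 2) (i + l + m - n - d1 + 2) (by omega))) (cE (pb b al 0 (k3) (i + k3 - k) (by omega)) (sh al (-1) (i + k3 - k) (i + k3 - n - k) (by omega))) (Eq.symm (Eq.symm hh)))) (by omega) (by omega)
      · have kk1454 : (d1) ≤ (l + m + 1) := by clear * - z123; omega
        have kk1455 : (i + m + 2) ≤ (k) := by clear * - b0 b1 b2 b6 v34 y16 z122; omega
        have kk1456 : (k + 1) ≤ (k3) := by clear * - b0 b1 b2 b5 b6 y16; omega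
        have kk1457 : (k3) ≤ (k + l) := by clear * - b1 b10 b11 b2 b6 y20 z122 z123; omega
        have kk1458 : (j + 1) ≤ (k) := by clear * - b0 b1 b2 b6 y16; omega
        have kk1459 : (0) ≤ (j) := by clear * - b0 b4 b5 b6 y18; omega
        have kk1460 : (k) ≤ (i + k3) := by clear * - b0 b1 b2 b5 b6 y16; omega
        have kk1461 : (i + k3 + 1) ≤ (2 * k) := by clear * - b0 b1 b10 b11 b2 b6 b7; omega
        have kk1462 : (d1) ≤ (i + l + m + 2) := by clear * - b0 b2 b6 y16 z123; omega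
        have kk1463 : (i + l + m + 3) ≤ (k + d1) := by clear * - b0 b1 b2 b6 y16 z122; omega
        have kk1464 : (i + l + m + 1) ≤ (j + d1) := by clear * - z122; omega
        have kk1465 : (d1) ≤ (l + m + 2) := by clear * - z123; omega
        have kk1466 : (k + l + 1) ≤ (n) := by clear * - b0 b1 b10 b11 b2 b6 b8 z122 z123; omega
        have kk1467 : (k) ≤ (k3) := by clear * - b0 b1 b2 b5 b6 y16; omega
        have kk1468 : (k3) ≤ (i + l + m + 2) := by clear * - b10 b11 b2 b6 b8; omega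
        have kk1469 : (k) ≤ (i + k3 + 1) := by clear * - b0 b1 b2 b5 b6 y16; omega
        have kk1470 : (d1) ≤ (i + l + m + 3) := by clear * - b0 b2 b6 y16 z123; omega
        have kk1471 : (d1) ≤ (l + 1) := by clear * - b2 v34 y16; omega
        have kk1472 : (k3 + d1) ≤ (k + l + m + 2) := by clear * - v34; omega
        have r1473 : (k + l + m - k3 - d1 + 2) % 2 = 0 := by clear * - ev n1p n2p n3p q1; omega
        have r1474 : (k - j) % 2 = 0 := by clear * - ev n1p n2p n3p q1; omega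
        clear * - al a1 b D2 x1 n3 kk1454 kk1455 kk1456 kk1457 kk1458 kk1459 kk1460 kk1461 kk1462 kk1463 kk1464 kk1465 kk1466 kk1467 kk1468 kk1469 kk1470 kk1471 kk1472 r1473 r1474
        exact ivt0 (-n) (j - n) (k - j) (i + k3 - n - k + 1) (k3 + d1 - n - l - m - 2) (k + l + m - k3 - d1 + 2) (i + k3 - n - k) (i + l + m - n - d1 + 2) 0 (fun t h1 h2 => (cE (qf a1 al (-1) t (t + (n + k - j)) (by omega)) (sh al (-1) (t + (n + k - j)) (t + (k - j)) (by omega)))) (fun t h1 h2 => (cE (sh al 1 t (t + (n)) (by omega)) (cE (cE (qf b al 0 (t + (n)) (t + (n + k - i)) (by omega)) (pb (show Par W (i + l + m - d1 + 3) (k + l - d1 + 1) (k3 + d1 - i - l - m - 2) from fun t h1 h2 => (cE (sh al (-1) t (t + (-n)) (by omega)) (cE (qf x1 al (-1) (t + (-n)) (t + (d1)) (by omega)) (qf D2 al 0 (t + (d1)) (t + (k3 + d1 - i - l - m - 2)) (by omega))))) al 0 (t + (n + k - i)) (t + (n + k + l + m - k3 - d1 + 2))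 (by omega))) (sh al (-1) (t + (n + k + l + m - k3 - d1 + 2)) (t + (k + l + m - k3 - d1 + 2)) (by omega))))) (fun hh => n3.f1 (rEE (cE (pb x1 al 0 (i + l + m + 2) (i + l + m - d1 + 2) (by omega)) (sh al (-1) (i + l + m - d1 + 2) (i + l + m - n - d1 + 2) (by omega))) (cE (pb b al 0 (k3) (i + k3 - k) (by omega)) (sh al (-1) (i + k3 - k) (i + k3 - n - k) (by omega))) (Eq.symm (Eq.symm hh)))) (by omega) (by omega)
    · have kk1475 : (i + k + l + m + d1 + 3) ≤ (n + j + k3) := by clear * - b0 b10 b11 b3 b9 y2; omega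
      have kk1476 : (j + k3) ≤ (i + k + l + m + d1 + 1) := by clear * - b0 b1 b10 b11 b2 b5 b6 b8 y16 z123; omega
      have kk1477 : (j + k3 + 1) ≤ (k + d1) := by clear * - b0 b1 b2 b6 b8 y18 z122 z123; omega
      have kk1478 : (i + j + 1) ≤ (k) := by clear * - b0 b1 b2 b6 y16; omega
      have kk1479 : (n + k3) ≤ (i + k + l + m + d1 + 2) := by clear * - b0 b1 b2 b5 b6 y16 z123; omega
      have kk1480 : (n + k3) ≤ (i + k + 2 * l + m + 3) := by clear * - b2 b6 y16; omega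
      clear * - al a1 D2 x1 kk1475 kk1476 kk1477 kk1478 kk1479 kk1480
      exact al.ubP (n + j + k3 - i - k - l - m - d1 - 2) (by omega) (by omega) fun t h1 h2 => (cE (cE (qf D2 al (-1) t (t + (n + k3 - i - l - m - 2)) (by omega)) (pb x1 al 0 (t + (n + k3 - i - l - m - 2)) (t + (n + k3 - i - l - m - d1 - 2)) (by omega))) (pb a1 al 0 (t + (n + k3 - i - l - m - d1 - 2)) (t + (n + j + k3 - i - k - l - m - d1 - 2)) (by omega)))
  · by_cases z124 : (n + i2) ≤ (i + l + 2 * m + d1 + 2)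
    · have kk1481 : (n + i2) ≤ (i + l + 2 * m + d1 + 2) := by clear * - z124; omega
      have kk1482 : (i + l + 2 * m + d1 + 4) ≤ (2 * n + i2) := by clear * - b10 b11 b4 b7 y20 z122 z124; omega
      have kk1483 : (Q + i + l + 2 * m + d1 + 3) ≤ (n + i2 + k3) := by clear * - b0 b1 b2 b3 b6 b7 y16 z122; omega
      have kk1484 : (k3) ≤ (i + d1) := by clear * - b0 b1 b2 b6 b7 b8 y16 z122 z124; omega
      have kk1485 : (2 * i + l + 2 * m + d1 + 4) ≤ (n + Q + i2) := by clear * - b0 b1 b10 b2 b6 b7 y16 z122; omega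
      have kk1486 : (n + k3) ≤ (i + k + 2 * l + m + 3) := by clear * - b2 b6 y16; omega
      have kk1487 : (i2) ≤ (m + 1) := by clear * - b0 b1 b10 b11 b2 b6 b9 z122 z124; omega
      clear * - al D1 D2 x1 kk1481 kk1482 kk1483 kk1484 kk1485 kk1486 kk1487
      exact al.ubQ (i + l + 2 * m + d1 - n - i2 + 3) (by omega) (by omega) fun t h1 h2 => (cE (sh al 1 t (t + (n)) (by omega)) (cE (cE (qf x1 al 1 (t + (n)) (t + (d1)) (by omega)) (pb D2 al 0 (t + (d1)) (t + (i + l + m + d1 - k3 + 2)) (by omega))) (pb D1 al 0 (t + (i + l + m + d1 - k3 + 2)) (t + (i + l + 2 * m + d1 - n - i2 + 3)) (by omega))))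
    · have kk1488 : (i + k + l + d1 + 2) ≤ (n + j + i2) := by clear * - b0 b1 b5 b6 b7 z122; omega
      have kk1489 : (j + i2) ≤ (i + k + l + d1) := by clear * - b0 b1 b10 b2 b3 b6 b8 y16 z122 z124; omega
      have kk1490 : (i2) ≤ (i) := by clear * - y17; omega
      have kk1491 : (j + 1) ≤ (d1) := by clear * - b0 b1 b10 b2 b3 b6 b8 y16 z122 z124; omega
      have kk1492 : (i + j + 1) ≤ (k) := by clear * - b0 b1 b2 b6 y16; omega
      have kk1493 : (n + i2) ≤ (i + k + l + d1 + 1) := by clear * - b0 b1 b10 b2 b3 b6 y16; omega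
      have kk1494 : (n + i2) ≤ (i + k + 2 * l + 2) := by clear * - b2 b6 y18; omega
      clear * - al a1 b c2 x1 kk1488 kk1489 kk1490 kk1491 kk1492 kk1493 kk1494
      exact al.ubP (n + j + i2 - i - k - l - d1 - 1) (by omega) (by omega) fun t h1 h2 => (cE (sh al 2 t (t + (2 * n)) (by omega)) (cE (cE (cE (qf c2 al 1 (t + (2 * n)) (t + (n + i2 - k - l - 1)) (by omega)) (qf b al 0 (t + (n + i2 - k - l - 1)) (t + (n + i2 - i - l - 1)) (by omega))) (pb x1 al 0 (t + (n + i2 - i - l - 1)) (t + (n + i2 - i - l - d1 - 1)) (by omega))) (pb a1 al 0 (t + (n + i2 - i - l - d1 - 1)) (t + (n + j + i2 - i - k - l - d1 - 1)) (by omega))))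

theorem h8_59p
    (h8_60 : ∀ {W : ℤ → G} {n Q i j k l i2 m k3 : ℤ} (al : AL W n Q) (hy : (0) ≤ (i) ∧ (i) ≤ (j) ∧ (j + 1) ≤ (Q) ∧ (Q) ≤ (k) ∧ (k + 1) ≤ (n) ∧ (Q) ≤ (i + l + 1) ∧ (k + l + 2) ≤ (n) ∧ (0) ≤ (i2) ∧ (i2 + 1) ≤ (Q) ∧ (Q + m + 1) ≤ (n + i2) ∧ (i2) ≤ (m) ∧ (Q) ≤ (i + l + m + 2) ∧ (i + l + m + 3) ≤ (n) ∧ (Q) ≤ (k3) ∧ (k3 + 1) ≤ (n) ∧ (i + m + 2) ≤ (k) ∧ (i) ≤ (i2) ∧ (i2) ≤ (i) ∧ (i + m + 2) ≤ (k3) ∧ (k3) ≤ (i + l + m + 1) ∧ (m + k3 + 2) ≤ (n + i2)) (a1 : Par W (0) (j) (k - j)) (a2 : Par W (Q + j - k) (j) (k - j)) (s1 : Ant W (0) (i) (i + j)) (s2 : Ant W (j + 1) (Q) (i + j)) (b : Par W (i + 1) (i + l + 1) (k - i)) (c1 : Par W (i2 + 1) (Q) (k + l - i2 + 1)) (c2 : Par W (k + l + 2) (n) (i2 - k - l - 1)) (tt : Ant W (i2 - m) (i2) (i + l + i2 + 1)) (D1 : Par W (Q) (k3) (n + i2 - m - k3 - 1)) (D2 : Par W (i + l + m + 3) (n) (k3 - i - l - m - 2)) {L : ℤ} (mx : ∀ a b g, 0 < g → g < n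 → Par W a b g → b - a ≤ L) (hL : L ≤ (n - j - 3) ∧ L ≤ (n + Q - k - 3) ∧ L ≤ (n - l - 3) ∧ L ≤ (n + i - k - 2)) (bd0 : Bd W n L (j) (i) (k)) (n1 : Nd W (j) (i) (k)) (n2 : Nd W (i + l + 1) (i2) (k + l + 1)) (n3 : Nd W (n + i2 - m - 1) (i + l + m + 2) (k3)) (b0 : (2 * l + 3) ≤ (n)) (b1 : (2 * i + j + 1) ≤ (k)) (b2 : (k + i2 + m + 1) ≤ (i + k3)) (b3 : (2 * Q + k + 2 * l + 2 * m + 4) ≤ (n + j + 2 * k3)) (b4 : (i + 2 * l + 2 * m + 4) ≤ (n + j)) (b5 : (3 * k) ≤ (i + 2 * j + k3)) (b6 : (n + 2 * k3) ≤ (i + 2 * k + 2 * l + 2 * m + 3)) (b7 : (3 * k + m + k3) ≤ (4 * i + l + 2 * i2 + 1)) (b8 : (2 * i + k + 2 * l + 3 * m + 6) ≤ (n + j + i2 + k3)), False)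
    {W : ℤ → G} {n Q i j k l i2 m k3 : ℤ} (al : AL W n Q)
    (hy : (0) ≤ (i) ∧ (i) ≤ (j) ∧ (j + 1) ≤ (Q) ∧ (Q) ≤ (k) ∧ (k + 1) ≤ (n) ∧ (Q) ≤ (i + l + 1) ∧ (k + l + 2) ≤ (n) ∧ (0) ≤ (i2) ∧ (i2 + 1) ≤ (Q) ∧ (Q + m + 1) ≤ (n + i2) ∧ (i2) ≤ (m) ∧ (Q) ≤ (i + l + m + 2) ∧ (i + l + m + 3) ≤ (n) ∧ (Q) ≤ (k3) ∧ (k3 + 1) ≤ (n) ∧ (i + m + 2) ≤ (k) ∧ (i) ≤ (i2) ∧ (i2) ≤ (i) ∧ (i + m + 2) ≤ (k3) ∧ (k3) ≤ (i + l + m + 1) ∧ (m + k3 + 2) ≤ (n + i2))
    (a1 : Par W (0) (j) (k - j))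
    (a2 : Par W (Q + j - k) (j) (k - j))
    (s1 : Ant W (0) (i) (i + j))
    (s2 : Ant W (j + 1) (Q) (i + j))
    (b : Par W (i + 1) (i + l + 1) (k - i))
    (c1 : Par W (i2 + 1) (Q) (k + l - i2 + 1))
    (c2 : Par W (k + l + 2) (n) (i2 - k - l - 1))
    (tt : Ant W (i2 - m) (i2) (i + l + i2 + 1))
    (D1 : Par W (Q) (k3) (n + i2 - m - k3 - 1))
    (D2 : Par W (i + l + m + 3) (n) (k3 - i - l - m - 2))
    {L : ℤ} (mx : ∀ a b g, 0 < g → g < n → Par W a b g → b - a ≤ L)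
    (hL : L ≤ (n - j - 3) ∧ L ≤ (n + Q - k - 3) ∧ L ≤ (n - l - 3) ∧ L ≤ (n + i - k - 2))
    (bd0 : Bd W n L (j) (i) (k))
    (n1 : Nd W (j) (i) (k))
    (n2 : Nd W (i + l + 1) (i2) (k + l + 1))
    (n3 : Nd W (n + i2 - m - 1) (i + l + m + 2) (k3))
    (b0 : (2 * l + 3) ≤ (n))
    (b1 : (2 * i + j + 1) ≤ (k))
    (b2 : (k + i2 + m + 1) ≤ (i + k3))
    (b3 : (2 * Q + k + 2 * l + 2 * m + 4) ≤ (n + j + 2 * k3))
    (b4 : (i + 2 * l + 2 * m + 4) ≤ (n + j))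
    (b5 : (3 * k) ≤ (i + 2 * j + k3))
    (b6 : (n + 2 * k3) ≤ (i + 2 * k + 2 * l + 2 * m + 3))
    (b7 : (3 * k + m + k3) ≤ (4 * i + l + 2 * i2 + 1)) : False := by
  have ev := al.ev
  obtain ⟨y0, y1, y2, y3, y4, y5, y6, y7, y8, y9, y10, y11, y12, y13, y14, y15, y16, y17, y18, y19, y20⟩ := id hy
  have n1p := And.intro n1.p1 n1.p2
  have n2p := And.intro n2.p1 n2.p2
  have n3p := And.intro n3.p1 n3.p2
  by_cases z114 : (n + j + i2 + k3) ≤ (2 * i + k + 2 * l + 3 * m + 5)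
  · have kk1350 : (n + k + i2) ≤ (2 * i + 2 * l + 3 * m + 4) := by clear * - b0 b1 b2 b5 b6 y16 z114; omega
    have kk1351 : (2 * i + 2 * l + 3 * m + 6) ≤ (n + i2 + k3) := by clear * - b0 b1 b2 b4 b6 y16; omega
    have kk1352 : (n + j + i2 + k3) ≤ (2 * i + k + 2 * l + 3 * m + 5) := by clear * - z114; omega
    have kk1353 : (2 * i + k + 2 * l + 3 * m + 5) ≤ (n + j + i2 + k3) := by clear * - b2 b4 y16; omega
    have kk1354 : (2 * i + l + 2 * m + k3 + 4) ≤ (n + k + i2) := by clear * - b0 b1 b4 b5 b6 b7 y18 z114; omega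
    have kk1355 : (0) ≤ (i + 1) := by clear * - b0 b2 b6 y16; omega
    have kk1356 : (j) ≤ (k) := by clear * - b0 b1 b2 b6 y16; omega
    have kk1357 : (Q) ≤ (k + 1) := by clear * - b0 b1 b2 b3 b6 y16; omega
    have kk1358 : (i + m + k3 + 1) ≤ (j + k + i2) := by clear * - b2 b4 b6 y16; omega
    have kk1359 : (i2) ≤ (m + 1) := by clear * - b0 b1 b2 b5 b6 y18 z114; omega
    have kk1360 : (k3) ≤ (k + l + 1) := by clear * - b0 b1 b4 b5 b6 b7 y18 z114; omega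
    have kk1361 : (k3) ≤ (j + l + 1) := by clear * - b0 b1 b4 b5 b6 b7 y18 z114; omega
    clear * - al a1 b D1 D2 n3 kk1350 kk1351 kk1352 kk1353 kk1354 kk1355 kk1356 kk1357 kk1358 kk1359 kk1360 kk1361
    exact n3.f1 (cE (cE (cE (cE (pb D2 al 0 (i + l + m + 2) (2 * i + 2 * l + 2 * m - k3 + 4) (by omega)) (pb D1 al 0 (2 * i + 2 * l + 2 * m - k3 + 4) (2 * i + 2 * l + 3 * m - n - i2 + 5) (by omega))) (pb b al 0 (2 * i + 2 * l + 3 * m - n - i2 + 5) (3 * i + 2 * l + 3 * m - n - k - i2 + 5) (by omega))) (qf a1 al 0 (3 * i + 2 * l + 3 * m - n - k - i2 + 5) (3 * i + 2 * l + 3 * m - n - j - i2 + 5) (by omega))) (qf b al 0 (3 * i + 2 * l + 3 * m - n - j - i2 + 5) (k3) (by omega)))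
  · exact h8_60 al hy a1 a2 s1 s2 b c1 c2 tt D1 D2 mx hL bd0 n1 n2 n3 (by clear * - b0; omega) (by clear * - b1; omega) (by clear * - b2; omega) (by clear * - b3; omega) (by clear * - b4; omega) (by clear * - b5; omega) (by clear * - b6; omega) (by clear * - b7; omega) (by clear * - z114; omega)

theorem h8_54p
    (h8_55 : ∀ {W : ℤ → G} {n Q i j k l i2 m k3 : ℤ} (al : AL W n Q) (hy : (0) ≤ (i) ∧ (i) ≤ (j) ∧ (j + 1) ≤ (Q) ∧ (Q) ≤ (k) ∧ (k + 1) ≤ (n) ∧ (Q) ≤ (i + l + 1) ∧ (k + l + 2) ≤ (n) ∧ (0) ≤ (i2) ∧ (i2 + 1) ≤ (Q) ∧ (Q + m + 1) ≤ (n + i2) ∧ (i2) ≤ (m) ∧ (Q) ≤ (i + l + m + 2) ∧ (i + l + m + 3) ≤ (n) ∧ (Q) ≤ (k3) ∧ (k3 + 1) ≤ (n) ∧ (i + m + 2) ≤ (k) ∧ (i) ≤ (i2) ∧ (i2) ≤ (i) ∧ (i + m + 2) ≤ (k3) ∧ (k3) ≤ (i + l + m + 1) ∧ (m + k3 + 2) ≤ (n + i2)) (a1 : Par W (0) (j) (k - j)) (a2 : Par W (Q + j - k) (j) (k - j)) (s1 : Ant W (0) (i) (i + j)) (s2 : Ant W (j + 1) (Q) (i + j)) (b : Par W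 (i + 1) (i + l + 1) (k - i)) (c1 : Par W (i2 + 1) (Q) (k + l - i2 + 1)) (c2 : Par W (k + l + 2) (n) (i2 - k - l - 1)) (tt : Ant W (i2 - m) (i2) (i + l + i2 + 1)) (D1 : Par W (Q) (k3) (n + i2 - m - k3 - 1)) (D2 : Par W (i + l + m + 3) (n) (k3 - i - l - m - 2)) {L : ℤ} (mx : ∀ a b g, 0 < g → g < n → Par W a b g → b - a ≤ L) (hL : L ≤ (n - j - 3) ∧ L ≤ (n + Q - k - 3) ∧ L ≤ (n - l - 3) ∧ L ≤ (n + i - k - 2)) (bd0 : Bd W n L (j) (i) (k)) (n1 : Nd W (j) (i) (k)) (n2 : Nd W (i + l + 1) (i2) (k + l + 1)) (n3 : Nd W (n + i2 - m - 1) (i + l + m + 2) (k3)) (b0 : (2 * l + 3) ≤ (n)) (b1 : (2 * i + j + 1) ≤ (k)) (b2 : (n + k3) ≤ (i + k + 2 * l + m + 3)) (b3 : (k + i2 + m + 1) ≤ (i + k3)) (b4 : (i + m + k3 + 3) ≤ (Q + k + i2)) (b5 : (2 * Q + k + 2 * l + 2 * m + 4) ≤ (n + j + 2 * k3)) (b6 : (n + i2 + k3) ≤ (i + j + 2 * l + 3 * m + 4)) (b7 : (4 * k + l + 2) ≤ (n + 2 * i + i2)) (b8 : (i + 2 * l + 2 *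 m + 4) ≤ (n + j)) (b9 : (3 * j + 1) ≤ (i + 2 * k)), False)
    (h8_56 : ∀ {W : ℤ → G} {n Q i j k l i2 m k3 : ℤ} (al : AL W n Q) (hy : (0) ≤ (i) ∧ (i) ≤ (j) ∧ (j + 1) ≤ (Q) ∧ (Q) ≤ (k) ∧ (k + 1) ≤ (n) ∧ (Q) ≤ (i + l + 1) ∧ (k + l + 2) ≤ (n) ∧ (0) ≤ (i2) ∧ (i2 + 1) ≤ (Q) ∧ (Q + m + 1) ≤ (n + i2) ∧ (i2) ≤ (m) ∧ (Q) ≤ (i + l + m + 2) ∧ (i + l + m + 3) ≤ (n) ∧ (Q) ≤ (k3) ∧ (k3 + 1) ≤ (n) ∧ (i + m + 2) ≤ (k) ∧ (i) ≤ (i2) ∧ (i2) ≤ (i) ∧ (i + m + 2) ≤ (k3) ∧ (k3) ≤ (i + l + m + 1) ∧ (m + k3 + 2) ≤ (n + i2)) (a1 : Par W (0) (j) (k - j)) (a2 : Par W (Q + j - k) (j) (k - j)) (s1 : Ant W (0) (i) (i + j)) (s2 : Ant W (j + 1) (Q) (i + j)) (b : Par W (i + 1) (i + l + 1) (k - i)) (c1 : Par W (i2 + 1) (Q) (k + l - i2 + 1)) (c2 : Par W (k + l + 2) (n) (i2 - k - l - 1)) (tt : Ant W (i2 - m) (i2) (i + l + i2 + 1)) (D1 : Par W (Q) (k3) (n + i2 - m - k3 - 1)) (D2 : Par W (i + l + m + 3) (n) (k3 - i - l - m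 - 2)) {L : ℤ} (mx : ∀ a b g, 0 < g → g < n → Par W a b g → b - a ≤ L) (hL : L ≤ (n - j - 3) ∧ L ≤ (n + Q - k - 3) ∧ L ≤ (n - l - 3) ∧ L ≤ (n + i - k - 2)) (bd0 : Bd W n L (j) (i) (k)) (n1 : Nd W (j) (i) (k)) (n2 : Nd W (i + l + 1) (i2) (k + l + 1)) (n3 : Nd W (n + i2 - m - 1) (i + l + m + 2) (k3)) (b0 : (2 * l + 3) ≤ (n)) (b1 : (2 * i + j + 1) ≤ (k)) (b2 : (n + k3) ≤ (i + k + 2 * l + m + 3)) (b3 : (k + i2 + m + 1) ≤ (i + k3)) (b4 : (i + m + k3 + 3) ≤ (Q + k + i2)) (b5 : (2 * Q + k + 2 * l + 2 * m + 4) ≤ (n + j + 2 * k3)) (b6 : (n + i2 + k3) ≤ (i + j + 2 * l + 3 * m + 4)) (b7 : (4 * k + l + 2) ≤ (n + 2 * i + i2)) (b8 : (i + 2 * l + 2 * m + 4) ≤ (n + j)) (b9 : (i + 2 * k) ≤ (3 * j)), False)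
    {W : ℤ → G} {n Q i j k l i2 m k3 : ℤ} (al : AL W n Q)
    (hy : (0) ≤ (i) ∧ (i) ≤ (j) ∧ (j + 1) ≤ (Q) ∧ (Q) ≤ (k) ∧ (k + 1) ≤ (n) ∧ (Q) ≤ (i + l + 1) ∧ (k + l + 2) ≤ (n) ∧ (0) ≤ (i2) ∧ (i2 + 1) ≤ (Q) ∧ (Q + m + 1) ≤ (n + i2) ∧ (i2) ≤ (m) ∧ (Q) ≤ (i + l + m + 2) ∧ (i + l + m + 3) ≤ (n) ∧ (Q) ≤ (k3) ∧ (k3 + 1) ≤ (n) ∧ (i + m + 2) ≤ (k) ∧ (i) ≤ (i2) ∧ (i2) ≤ (i) ∧ (i + m + 2) ≤ (k3) ∧ (k3) ≤ (i + l + m + 1) ∧ (m + k3 + 2) ≤ (n + i2))
    (a1 : Par W (0) (j) (k - j))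
    (a2 : Par W (Q + j - k) (j) (k - j))
    (s1 : Ant W (0) (i) (i + j))
    (s2 : Ant W (j + 1) (Q) (i + j))
    (b : Par W (i + 1) (i + l + 1) (k - i))
    (c1 : Par W (i2 + 1) (Q) (k + l - i2 + 1))
    (c2 : Par W (k + l + 2) (n) (i2 - k - l - 1))
    (tt : Ant W (i2 - m) (i2) (i + l + i2 + 1))
    (D1 : Par W (Q) (k3) (n + i2 - m - k3 - 1))
    (D2 : Par W (i + l + m + 3) (n) (k3 - i - l - m - 2))
    {L : ℤ} (mx : ∀ a b g, 0 < g → g < n → Par W a b g → b - a ≤ L)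
    (hL : L ≤ (n - j - 3) ∧ L ≤ (n + Q - k - 3) ∧ L ≤ (n - l - 3) ∧ L ≤ (n + i - k - 2))
    (bd0 : Bd W n L (j) (i) (k))
    (n1 : Nd W (j) (i) (k))
    (n2 : Nd W (i + l + 1) (i2) (k + l + 1))
    (n3 : Nd W (n + i2 - m - 1) (i + l + m + 2) (k3))
    (b0 : (2 * l + 3) ≤ (n))
    (b1 : (2 * i + j + 1) ≤ (k))
    (b2 : (n + k3) ≤ (i + k + 2 * l + m + 3))
    (b3 : (k + i2 + m + 1) ≤ (i + k3))
    (b4 : (i + m + k3 + 3) ≤ (Q + k + i2))
    (b5 : (2 * Q + k + 2 * l + 2 * m + 4) ≤ (n + j + 2 * k3))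
    (b6 : (n + i2 + k3) ≤ (i + j + 2 * l + 3 * m + 4))
    (b7 : (4 * k + l + 2) ≤ (n + 2 * i + i2))
    (b8 : (i + 2 * l + 2 * m + 4) ≤ (n + j)) : False := by
  have ev := al.ev
  obtain ⟨y0, y1, y2, y3, y4, y5, y6, y7, y8, y9, y10, y11, y12, y13, y14, y15, y16, y17, y18, y19, y20⟩ := id hy
  have n1p := And.intro n1.p1 n1.p2
  have n2p := And.intro n2.p1 n2.p2
  have n3p := And.intro n3.p1 n3.p2
  by_cases z106 : (3 * j + 1) ≤ (i + 2 * k)
  · exact h8_55 al hy a1 a2 s1 s2 b c1 c2 tt D1 D2 mx hL bd0 n1 n2 n3 (by clear * - b0; omega) (by clear * - b1; omega) (by clear * - b2; omega) (by clear * - b3; omega) (by clear * - b4; omega) (by clear * - b5; omega) (by clear * - b6; omega) (by clear * - b7; omega) (by clear * - b8; omega) (by clear * - z106; omega)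
  · exact h8_56 al hy a1 a2 s1 s2 b c1 c2 tt D1 D2 mx hL bd0 n1 n2 n3 (by clear * - b0; omega) (by clear * - b1; omega) (by clear * - b2; omega) (by clear * - b3; omega) (by clear * - b4; omega) (by clear * - b5; omega) (by clear * - b6; omega) (by clear * - b7; omega) (by clear * - b8; omega) (by clear * - z106; omega)

theorem h8_42p
    (h8_43 : ∀ {W : ℤ → G} {n Q i j k l i2 m k3 : ℤ} (al : AL W n Q) (hy : (0) ≤ (i) ∧ (i) ≤ (j) ∧ (j + 1) ≤ (Q) ∧ (Q) ≤ (k) ∧ (k + 1) ≤ (n) ∧ (Q) ≤ (i + l + 1) ∧ (k + l + 2) ≤ (n) ∧ (0) ≤ (i2) ∧ (i2 + 1) ≤ (Q) ∧ (Q + m + 1) ≤ (n + i2) ∧ (i2) ≤ (m) ∧ (Q) ≤ (i + l + m + 2) ∧ (i + l + m + 3) ≤ (n) ∧ (Q) ≤ (k3) ∧ (k3 + 1) ≤ (n) ∧ (i + m + 2) ≤ (k) ∧ (i) ≤ (i2) ∧ (i2) ≤ (i) ∧ (i + m + 2) ≤ (k3) ∧ (k3) ≤ (i + l + m + 1) ∧ (m + k3 + 2) ≤ (n + i2)) (a1 : Par W (0) (j) (k - j)) (a2 : Par W (Q + j - k) (j) (k - j)) (s1 : Ant W (0) (i) (i + j)) (s2 : Ant W (j + 1)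 (Q) (i + j)) (b : Par W (i + 1) (i + l + 1) (k - i)) (c1 : Par W (i2 + 1) (Q) (k + l - i2 + 1)) (c2 : Par W (k + l + 2) (n) (i2 - k - l - 1)) (tt : Ant W (i2 - m) (i2) (i + l + i2 + 1)) (D1 : Par W (Q) (k3) (n + i2 - m - k3 - 1)) (D2 : Par W (i + l + m + 3) (n) (k3 - i - l - m - 2)) {L : ℤ} (mx : ∀ a b g, 0 < g → g < n → Par W a b g → b - a ≤ L) (hL : L ≤ (n - j - 3) ∧ L ≤ (n + Q - k - 3) ∧ L ≤ (n - l - 3) ∧ L ≤ (n + i - k - 2)) (bd0 : Bd W n L (j) (i) (k)) (n1 : Nd W (j) (i) (k)) (n2 : Nd W (i + l + 1) (i2) (k + l + 1)) (n3 : Nd W (n + i2 - m - 1) (i + l + m + 2) (k3)) (b0 : (2 * l + 3) ≤ (n)) (b1 : (2 * i + j + 1) ≤ (k)) (b2 : (n + k3) ≤ (i + k + 2 * l + m + 3)) (b3 : (k + i2 + m + 1) ≤ (i + k3)) (b4 : (2 * i + 2 * l + 3 * m + 6) ≤ (n + i2 + k3)) (b5 : (3 * k + l + 2) ≤ (n + i + i2)) (b6 : (i + k) ≤ (2 * j + 1)) (b7 : (2 * Q + 2 * k + l) ≤ (n + 2 * i + j + i2)) (b8 : (i + m + k3 + 3)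 ≤ (Q + k + i2)) (b9 : (i2 + 1) ≤ (m)) (b10 : (Q + 2 * k + l + m + 2) ≤ (n + i + 2 * i2)), False)
    {W : ℤ → G} {n Q i j k l i2 m k3 : ℤ} (al : AL W n Q)
    (hy : (0) ≤ (i) ∧ (i) ≤ (j) ∧ (j + 1) ≤ (Q) ∧ (Q) ≤ (k) ∧ (k + 1) ≤ (n) ∧ (Q) ≤ (i + l + 1) ∧ (k + l + 2) ≤ (n) ∧ (0) ≤ (i2) ∧ (i2 + 1) ≤ (Q) ∧ (Q + m + 1) ≤ (n + i2) ∧ (i2) ≤ (m) ∧ (Q) ≤ (i + l + m + 2) ∧ (i + l + m + 3) ≤ (n) ∧ (Q) ≤ (k3) ∧ (k3 + 1) ≤ (n) ∧ (i + m + 2) ≤ (k) ∧ (i) ≤ (i2) ∧ (i2) ≤ (i) ∧ (i + m + 2) ≤ (k3) ∧ (k3) ≤ (i + l + m + 1) ∧ (m + k3 + 2) ≤ (n + i2))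
    (a1 : Par W (0) (j) (k - j))
    (a2 : Par W (Q + j - k) (j) (k - j))
    (s1 : Ant W (0) (i) (i + j))
    (s2 : Ant W (j + 1) (Q) (i + j))
    (b : Par W (i + 1) (i + l + 1) (k - i))
    (c1 : Par W (i2 + 1) (Q) (k + l - i2 + 1))
    (c2 : Par W (k + l + 2) (n) (i2 - k - l - 1))
    (tt : Ant W (i2 - m) (i2) (i + l + i2 + 1))
    (D1 : Par W (Q) (k3) (n + i2 - m - k3 - 1))
    (D2 : Par W (i + l + m + 3) (n) (k3 - i - l - m - 2))
    {L : ℤ} (mx : ∀ a b g, 0 < g → g < n → Par W a b g → b - a ≤ L)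
    (hL : L ≤ (n - j - 3) ∧ L ≤ (n + Q - k - 3) ∧ L ≤ (n - l - 3) ∧ L ≤ (n + i - k - 2))
    (bd0 : Bd W n L (j) (i) (k))
    (n1 : Nd W (j) (i) (k))
    (n2 : Nd W (i + l + 1) (i2) (k + l + 1))
    (n3 : Nd W (n + i2 - m - 1) (i + l + m + 2) (k3))
    (b0 : (2 * l + 3) ≤ (n))
    (b1 : (2 * i + j + 1) ≤ (k))
    (b2 : (n + k3) ≤ (i + k + 2 * l + m + 3))
    (b3 : (k + i2 + m + 1) ≤ (i + k3))
    (b4 : (2 * i + 2 * l + 3 * m + 6) ≤ (n + i2 + k3))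
    (b5 : (3 * k + l + 2) ≤ (n + i + i2))
    (b6 : (i + k) ≤ (2 * j + 1))
    (b7 : (2 * Q + 2 * k + l) ≤ (n + 2 * i + j + i2))
    (b8 : (i + m + k3 + 3) ≤ (Q + k + i2))
    (b9 : (i2 + 1) ≤ (m)) : False := by
  have ev := al.ev
  obtain ⟨y0, y1, y2, y3, y4, y5, y6, y7, y8, y9, y10, y11, y12, y13, y14, y15, y16, y17, y18, y19, y20⟩ := id hy
  have n1p := And.intro n1.p1 n1.p2
  have n2p := And.intro n2.p1 n2.p2
  have n3p := And.intro n3.p1 n3.p2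
  by_cases z78 : (Q + 2 * k + l + m + 2) ≤ (n + i + 2 * i2)
  · exact h8_43 al hy a1 a2 s1 s2 b c1 c2 tt D1 D2 mx hL bd0 n1 n2 n3 (by clear * - b0; omega) (by clear * - b1; omega) (by clear * - b2; omega) (by clear * - b3; omega) (by clear * - b4; omega) (by clear * - b5; omega) (by clear * - b6; omega) (by clear * - b7; omega) (by clear * - b8; omega) (by clear * - b9; omega) (by clear * - z78; omega)
  · have kk1495 : (2 * k + k3) ≤ (3 * i + l + m + 1) := by clear * - b2 b5 y17; omega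
    have kk1496 : (3 * i + l + 2 * i2 + 2) ≤ (2 * k + m + k3) := by clear * - b0 b1 b3 b7 y16 z78; omega
    have kk1497 : (2 * k + k3) ≤ (3 * i + l + m) := by clear * - b2 b5 y17 ev n1p n2p n3p; omega
    have kk1498 : (2 * n + 2 * i2 + 3 * k3) ≤ (5 * i + 5 * l + 5 * m + 8) := by clear * - b0 b1 b2 b3 b5 b7 z78; omega
    have kk1499 : (i) ≤ (k3) := by clear * - b0 b2 b3 b4 b9 y16; omega
    have kk1500 : (2 * i + 2 * l + m + 3) ≤ (n + k3) := by clear * - b0 b2 b3 b4 b9 y16; omega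
    have kk1501 : (i + l + 2 * m + 3) ≤ (n + i2) := by clear * - b4 y20; omega
    have kk1502 : (0) ≤ (i2) := by clear * - b0 b2 b3 y16; omega
    have kk1503 : (2 * i) ≤ (k + k3) := by clear * - b0 b2 b3 b4 b9 y16; omega
    have kk1504 : (i) ≤ (k) := by clear * - b0 b1 b2 b6 y18; omega
    have kk1505 : (2 * k + l + 2 * m + 3) ≤ (n + i + i2) := by clear * - b0 b1 b2 b3 b4 b5 b7 b8; omega
    have kk1506 : (k + k3) ≤ (2 * i + l + 1) := by clear * - b0 b1 b2 b3 b4 b5 b7 b8 z78; omega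
    have r1507 : (3 * n + i2 + k3 - m - 1) % 2 = 0 := by clear * - ev n1p n2p n3p; omega
    have r1508 : (3 * i + l + m - 2 * k - k3 + 2) % 2 = 0 := by clear * - ev n1p n2p n3p; omega
    clear * - al b tt D2 kk1495 kk1496 kk1497 kk1498 kk1499 kk1500 kk1501 kk1502 kk1503 kk1504 kk1505 kk1506 r1507 r1508
    exact midP al (3 * i + l + m - 2 * k - k3 + 2) (3 * n + i2 + k3 - m - 1) (2 * n + i2 + k3 - i - l - 2 * m - 2) (n + 2 * k + k3 - 2 * i + 1) (n + 3 * i + 2 * l + m - k - k3 + 3) (by omega) (fun t h1 h2 => (cE (cI (pb D2 al 1 t (t + (i + l + m - n - k3 + 2)) (by omega)) (qa tt al 1 (t + (i + l + m - n - k3 + 2)) ((2 * n + i2 + k3 - m - 1) - t) (by omega))) (sh al 1 ((2 * n + i2 + k3 - m - 1) - t) ((3 * n + i2 + k3 - m - 1) - t) (by omega)))) (fun t h1 h2 => (cE (cE (pb b al 1 t (t + (i - n - k)) (by omega)) (qf (show Par W (k + k3 - i + 1) (k + l + 1) (2 * i + l + m - k - k3 + 2) from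 fun t h1 h2 => (cE (sh al (-1) t (t + (-n)) (by omega)) (cE (pb b al (-1) (t + (-n)) (t + (i - k)) (by omega)) (pb D2 al 0 (t + (i - k)) (t + (2 * i + l + m - k - k3 + 2)) (by omega))))) al 0 (t + (i - n - k)) (t + (3 * i + l + m - n - 2 * k - k3 + 2)) (by omega))) (sh al 1 (t + (3 * i + l + m - n - 2 * k - k3 + 2)) (t + (3 * i + l + m - 2 * k - k3 + 2)) (by omega))))

theorem h8_31p
    (h8_32 : ∀ {W : ℤ → G} {n Q i j k l i2 m k3 : ℤ} (al : AL W n Q) (hy : (0) ≤ (i) ∧ (i) ≤ (j) ∧ (j + 1) ≤ (Q) ∧ (Q) ≤ (k) ∧ (k + 1) ≤ (n) ∧ (Q) ≤ (i + l + 1) ∧ (k + l + 2) ≤ (n) ∧ (0) ≤ (i2) ∧ (i2 + 1) ≤ (Q) ∧ (Q + m + 1) ≤ (n + i2) ∧ (i2) ≤ (m) ∧ (Q) ≤ (i + l + m + 2) ∧ (i + l + m + 3) ≤ (n) ∧ (Q) ≤ (k3) ∧ (k3 + 1) ≤ (n) ∧ (i + m + 2) ≤ (k) ∧ (i) ≤ (i2) ∧ (i2) ≤ (i) ∧ (i + m + 2) ≤ (k3) ∧ (k3) ≤ (i + l + m + 1) ∧ (m + k3 + 2) ≤ (n + i2)) (a1 : Par W (0) (j) (k - j)) (a2 : Par W (Q + j - k) (j) (k - j))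 (s1 : Ant W (0) (i) (i + j)) (s2 : Ant W (j + 1) (Q) (i + j)) (b : Par W (i + 1) (i + l + 1) (k - i)) (c1 : Par W (i2 + 1) (Q) (k + l - i2 + 1)) (c2 : Par W (k + l + 2) (n) (i2 - k - l - 1)) (tt : Ant W (i2 - m) (i2) (i + l + i2 + 1)) (D1 : Par W (Q) (k3) (n + i2 - m - k3 - 1)) (D2 : Par W (i + l + m + 3) (n) (k3 - i - l - m - 2)) {L : ℤ} (mx : ∀ a b g, 0 < g → g < n → Par W a b g → b - a ≤ L) (hL : L ≤ (n - j - 3) ∧ L ≤ (n + Q - k - 3) ∧ L ≤ (n - l - 3) ∧ L ≤ (n + i - k - 2)) (bd0 : Bd W n L (j) (i) (k)) (n1 : Nd W (j) (i) (k)) (n2 : Nd W (i + l + 1) (i2) (k + l + 1)) (n3 : Nd W (n + i2 - m - 1) (i + l + m + 2) (k3)) (b0 : (2 * l + 3) ≤ (n)) (b1 : (k + i2 + 1) ≤ (Q + j + m)) (b2 : (2 * i + j + 1) ≤ (k)) (b3 : (2 * Q + k + l) ≤ (n + 2 * j + i2)) (b4 : (Q + k + l + 1) ≤ (n + i2)) (b5 : (n + k3) ≤ (i + k + 2 * l + m + 3)) (b6 : (k + k3) ≤ (2 * i + l + m + 1)) (b7 : (k + i2 + m + 1) ≤ (i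 + k3)) (b8 : (2 * i + 2 * l + 3 * m + 6) ≤ (n + i2 + k3)) (b9 : (n + 2 * i2) ≤ (k + l + m + k3 + 1)), False)
    (h8_33 : ∀ {W : ℤ → G} {n Q i j k l i2 m k3 : ℤ} (al : AL W n Q) (hy : (0) ≤ (i) ∧ (i) ≤ (j) ∧ (j + 1) ≤ (Q) ∧ (Q) ≤ (k) ∧ (k + 1) ≤ (n) ∧ (Q) ≤ (i + l + 1) ∧ (k + l + 2) ≤ (n) ∧ (0) ≤ (i2) ∧ (i2 + 1) ≤ (Q) ∧ (Q + m + 1) ≤ (n + i2) ∧ (i2) ≤ (m) ∧ (Q) ≤ (i + l + m + 2) ∧ (i + l + m + 3) ≤ (n) ∧ (Q) ≤ (k3) ∧ (k3 + 1) ≤ (n) ∧ (i + m + 2) ≤ (k) ∧ (i) ≤ (i2) ∧ (i2) ≤ (i) ∧ (i + m + 2) ≤ (k3) ∧ (k3) ≤ (i + l + m + 1) ∧ (m + k3 + 2) ≤ (n + i2)) (a1 : Par W (0) (j) (k - j)) (a2 : Par W (Q + j - k) (j) (k - j)) (s1 : Ant W (0) (i) (i + j)) (s2 : Ant W (j + 1) (Q) (i + j)) (b : Par W (i + 1) (i + l + 1) (k - i)) (c1 : Par W (i2 + 1) (Q) (k + l - i2 + 1)) (c2 : Par W (k + l + 2) (n) (i2 - k - l - 1)) (tt : Ant W (i2 - m) (i2) (i + l + i2 + 1)) (D1 : Par W (Q) (k3) (n + i2 - m - k3 - 1))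 (D2 : Par W (i + l + m + 3) (n) (k3 - i - l - m - 2)) {L : ℤ} (mx : ∀ a b g, 0 < g → g < n → Par W a b g → b - a ≤ L) (hL : L ≤ (n - j - 3) ∧ L ≤ (n + Q - k - 3) ∧ L ≤ (n - l - 3) ∧ L ≤ (n + i - k - 2)) (bd0 : Bd W n L (j) (i) (k)) (n1 : Nd W (j) (i) (k)) (n2 : Nd W (i + l + 1) (i2) (k + l + 1)) (n3 : Nd W (n + i2 - m - 1) (i + l + m + 2) (k3)) (b0 : (2 * l + 3) ≤ (n)) (b1 : (k + i2 + 1) ≤ (Q + j + m)) (b2 : (2 * i + j + 1) ≤ (k)) (b3 : (2 * Q + k + l) ≤ (n + 2 * j + i2)) (b4 : (n + k3) ≤ (i + k + 2 * l + m + 3)) (b5 : (k + i2 + m + 1) ≤ (i + k3)) (b6 : (2 * i + 2 * l + 3 * m + 6) ≤ (n + i2 + k3)) (b7 : (k + l + m + k3 + 2) ≤ (n + 2 * i2)), False)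
    {W : ℤ → G} {n Q i j k l i2 m k3 : ℤ} (al : AL W n Q)
    (hy : (0) ≤ (i) ∧ (i) ≤ (j) ∧ (j + 1) ≤ (Q) ∧ (Q) ≤ (k) ∧ (k + 1) ≤ (n) ∧ (Q) ≤ (i + l + 1) ∧ (k + l + 2) ≤ (n) ∧ (0) ≤ (i2) ∧ (i2 + 1) ≤ (Q) ∧ (Q + m + 1) ≤ (n + i2) ∧ (i2) ≤ (m) ∧ (Q) ≤ (i + l + m + 2) ∧ (i + l + m + 3) ≤ (n) ∧ (Q) ≤ (k3) ∧ (k3 + 1) ≤ (n) ∧ (i + m + 2) ≤ (k) ∧ (i) ≤ (i2) ∧ (i2) ≤ (i) ∧ (i + m + 2) ≤ (k3) ∧ (k3) ≤ (i + l + m + 1) ∧ (m + k3 + 2) ≤ (n + i2))
    (a1 : Par W (0) (j) (k - j))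
    (a2 : Par W (Q + j - k) (j) (k - j))
    (s1 : Ant W (0) (i) (i + j))
    (s2 : Ant W (j + 1) (Q) (i + j))
    (b : Par W (i + 1) (i + l + 1) (k - i))
    (c1 : Par W (i2 + 1) (Q) (k + l - i2 + 1))
    (c2 : Par W (k + l + 2) (n) (i2 - k - l - 1))
    (tt : Ant W (i2 - m) (i2) (i + l + i2 + 1))
    (D1 : Par W (Q) (k3) (n + i2 - m - k3 - 1))
    (D2 : Par W (i + l + m + 3) (n) (k3 - i - l - m - 2))
    {L : ℤ} (mx : ∀ a b g, 0 < g → g < n → Par W a b g → b - a ≤ L)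
    (hL : L ≤ (n - j - 3) ∧ L ≤ (n + Q - k - 3) ∧ L ≤ (n - l - 3) ∧ L ≤ (n + i - k - 2))
    (bd0 : Bd W n L (j) (i) (k))
    (n1 : Nd W (j) (i) (k))
    (n2 : Nd W (i + l + 1) (i2) (k + l + 1))
    (n3 : Nd W (n + i2 - m - 1) (i + l + m + 2) (k3))
    (b0 : (2 * l + 3) ≤ (n))
    (b1 : (k + i2 + 1) ≤ (Q + j + m))
    (b2 : (2 * i + j + 1) ≤ (k))
    (b3 : (2 * Q + k + l) ≤ (n + 2 * j + i2))
    (b4 : (Q + k + l + 1) ≤ (n + i2))
    (b5 : (n + k3) ≤ (i + k + 2 * l + m + 3))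
    (b6 : (k + k3) ≤ (2 * i + l + m + 1))
    (b7 : (k + i2 + m + 1) ≤ (i + k3))
    (b8 : (2 * i + 2 * l + 3 * m + 6) ≤ (n + i2 + k3)) : False := by
  have ev := al.ev
  obtain ⟨y0, y1, y2, y3, y4, y5, y6, y7, y8, y9, y10, y11, y12, y13, y14, y15, y16, y17, y18, y19, y20⟩ := id hy
  have n1p := And.intro n1.p1 n1.p2
  have n2p := And.intro n2.p1 n2.p2
  have n3p := And.intro n3.p1 n3.p2
  by_cases z61 : (n + 2 * i2) ≤ (k + l + m + k3 + 1)
  · exact h8_32 al hy a1 a2 s1 s2 b c1 c2 tt D1 D2 mx hL bd0 n1 n2 n3 (by clear * - b0; omega) (by clear * - b1; omega) (by clear * - b2; omega) (by clear * - b3; omega) (by clear * - b4; omega) (by clear * - b5; omega) (by clear * - b6; omega) (by clear * - b7; omega) (by clear * - b8; omega) (by clear * - z61; omega)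
  · exact h8_33 al hy a1 a2 s1 s2 b c1 c2 tt D1 D2 mx hL bd0 n1 n2 n3 (by clear * - b0; omega) (by clear * - b1; omega) (by clear * - b2; omega) (by clear * - b3; omega) (by clear * - b5; omega) (by clear * - b7; omega) (by clear * - b8; omega) (by clear * - z61; omega)

theorem h8_88p
    (h8_89 : ∀ {W : ℤ → G} {n Q i j k l i2 m k3 : ℤ} (al : AL W n Q) (hy : (0) ≤ (i) ∧ (i) ≤ (j) ∧ (j + 1) ≤ (Q) ∧ (Q) ≤ (k) ∧ (k + 1) ≤ (n) ∧ (Q) ≤ (i + l + 1) ∧ (k + l + 2) ≤ (n) ∧ (0) ≤ (i2) ∧ (i2 + 1) ≤ (Q) ∧ (Q + m + 1) ≤ (n + i2) ∧ (i2) ≤ (m) ∧ (Q) ≤ (i + l + m + 2) ∧ (i + l + m + 3) ≤ (n) ∧ (Q) ≤ (k3) ∧ (k3 + 1) ≤ (n) ∧ (i + m + 2) ≤ (k) ∧ (i) ≤ (i2) ∧ (i2) ≤ (i) ∧ (i + m + 2) ≤ (k3) ∧ (k3) ≤ (i + l + m + 1) ∧ (m + k3 + 2) ≤ (n + i2)) (a1 : Par W (0) (j) (k - j)) (a2 : Par W (Q + j - k) (j) (k - j)) (s1 : Ant W (0) (i) (i + j)) (s2 : Ant W (j + 1) (Q) (i + j)) (b : Par W (i + 1) (i + l + 1) (k -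 i)) (c1 : Par W (i2 + 1) (Q) (k + l - i2 + 1)) (c2 : Par W (k + l + 2) (n) (i2 - k - l - 1)) (tt : Ant W (i2 - m) (i2) (i + l + i2 + 1)) (D1 : Par W (Q) (k3) (n + i2 - m - k3 - 1)) (D2 : Par W (i + l + m + 3) (n) (k3 - i - l - m - 2)) {L : ℤ} (mx : ∀ a b g, 0 < g → g < n → Par W a b g → b - a ≤ L) (hL : L ≤ (n - j - 3) ∧ L ≤ (n + Q - k - 3) ∧ L ≤ (n - l - 3) ∧ L ≤ (n + i - k - 2)) (bd0 : Bd W n L (j) (i) (k)) (n1 : Nd W (j) (i) (k)) (n2 : Nd W (i + l + 1) (i2) (k + l + 1)) (n3 : Nd W (n + i2 - m - 1) (i + l + m + 2) (k3)) (b0 : (2 * l + 3) ≤ (n)) (b1 : (2 * Q + k + l) ≤ (n + 2 * j + i2)) (b2 : (m + k3) ≤ (i + l + 2 * i2 + 1)) (b3 : (1) ≤ (m)) (b4 : (i + l + i2 + m + 3) ≤ (Q + k3)) (b5 : (i + 2 * j + 1) ≤ (k)) (b6 : (2 * i2 + k3) ≤ (i + l + m + 1)) (b7 : (2 * k + l + 2) ≤ (n + i2)) (b8 : (2 * Q + k3) ≤ (3 * i + 2 * j + l + m + 3)) (b9 : (n + i2 + k3) ≤ (2 * i + j + k + 2 * l + m + 4))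 (b10 : (n + j + i2) ≤ (i + 2 * l + m + k3 + 3)), False)
    {W : ℤ → G} {n Q i j k l i2 m k3 : ℤ} (al : AL W n Q)
    (hy : (0) ≤ (i) ∧ (i) ≤ (j) ∧ (j + 1) ≤ (Q) ∧ (Q) ≤ (k) ∧ (k + 1) ≤ (n) ∧ (Q) ≤ (i + l + 1) ∧ (k + l + 2) ≤ (n) ∧ (0) ≤ (i2) ∧ (i2 + 1) ≤ (Q) ∧ (Q + m + 1) ≤ (n + i2) ∧ (i2) ≤ (m) ∧ (Q) ≤ (i + l + m + 2) ∧ (i + l + m + 3) ≤ (n) ∧ (Q) ≤ (k3) ∧ (k3 + 1) ≤ (n) ∧ (i + m + 2) ≤ (k) ∧ (i) ≤ (i2) ∧ (i2) ≤ (i) ∧ (i + m + 2) ≤ (k3) ∧ (k3) ≤ (i + l + m + 1) ∧ (m + k3 + 2) ≤ (n + i2))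
    (a1 : Par W (0) (j) (k - j))
    (a2 : Par W (Q + j - k) (j) (k - j))
    (s1 : Ant W (0) (i) (i + j))
    (s2 : Ant W (j + 1) (Q) (i + j))
    (b : Par W (i + 1) (i + l + 1) (k - i))
    (c1 : Par W (i2 + 1) (Q) (k + l - i2 + 1))
    (c2 : Par W (k + l + 2) (n) (i2 - k - l - 1))
    (tt : Ant W (i2 - m) (i2) (i + l + i2 + 1))
    (D1 : Par W (Q) (k3) (n + i2 - m - k3 - 1))
    (D2 : Par W (i + l + m + 3) (n) (k3 - i - l - m - 2))
    {L : ℤ} (mx : ∀ a b g, 0 < g → g < n → Par W a b g → b - a ≤ L)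
    (hL : L ≤ (n - j - 3) ∧ L ≤ (n + Q - k - 3) ∧ L ≤ (n - l - 3) ∧ L ≤ (n + i - k - 2))
    (bd0 : Bd W n L (j) (i) (k))
    (n1 : Nd W (j) (i) (k))
    (n2 : Nd W (i + l + 1) (i2) (k + l + 1))
    (n3 : Nd W (n + i2 - m - 1) (i + l + m + 2) (k3))
    (b0 : (2 * l + 3) ≤ (n))
    (b1 : (2 * Q + k + l) ≤ (n + 2 * j + i2))
    (b2 : (m + k3) ≤ (i + l + 2 * i2 + 1))
    (b3 : (1) ≤ (m))
    (b4 : (i + l + i2 + m + 3) ≤ (Q + k3))
    (b5 : (i + 2 * j + 1) ≤ (k))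
    (b6 : (2 * i2 + k3) ≤ (i + l + m + 1))
    (b7 : (2 * k + l + 2) ≤ (n + i2))
    (b8 : (2 * Q + k3) ≤ (3 * i + 2 * j + l + m + 3))
    (b9 : (n + i2 + k3) ≤ (2 * i + j + k + 2 * l + m + 4)) : False := by
  have ev := al.ev
  obtain ⟨y0, y1, y2, y3, y4, y5, y6, y7, y8, y9, y10, y11, y12, y13, y14, y15, y16, y17, y18, y19, y20⟩ := id hy
  have n1p := And.intro n1.p1 n1.p2
  have n2p := And.intro n2.p1 n2.p2
  have n3p := And.intro n3.p1 n3.p2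
  by_cases z202 : (i + 2 * l + m + k3 + 4) ≤ (n + j + i2)
  · by_cases v73 : (2 * k + l + k3) ≤ (n + i + i2 + m)
    · by_cases v74 : (Q + k + l + k3 + 1) ≤ (n + i + j + i2)
      · have kk2531 : (n + i + j + i2 + m + 1) ≤ (2 * k + 2 * l + k3) := by clear * - b5 b9 y18; omega
        have kk2532 : (n + 3 * i + j + i2 + m + 2) ≤ (2 * Q + 2 * k + k3) := by clear * - b4 b5 b9 y16; omega
        have kk2533 : (k) ≤ (i + l + m + 2) := by clear * - b4 b5 b7 b9 y13 y16; omega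
        have kk2534 : (k + l + 1) ≤ (n) := by clear * - b1 b2 b3 b4 b5 b7 b8 b9; omega
        have kk2535 : (2 * k + l + k3) ≤ (n + 2 * i + i2 + m) := by clear * - b2 b4 b5 b9 v73 v74 y13 y16; omega
        have kk2536 : (2 * k + l + k3) ≤ (n + i + i2 + m) := by clear * - v73; omega
        have kk2537 : (i2) ≤ (k3) := by clear * - b3 y17 y18; omega
        have kk2538 : (Q + k + l + k3 + 1) ≤ (n + i + j + i2) := by clear * - v74; omega
        have r2539 : (3 * i + j + i2 + m - n - 2 * k - k3 + 1) % 2 = 0 := by clear * - ev n1p n2p n3p; omega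
        clear * - al s2 b c2 D2 kk2531 kk2532 kk2533 kk2534 kk2535 kk2536 kk2537 kk2538 r2539
        obtain ⟨t, ht⟩ : ∃ t, 2 * t = (3 * i + j + i2 + m - n - 2 * k - k3 + 1) := ⟨(3 * i + j + i2 + m - n - 2 * k - k3 + 1) / 2, by omega⟩
        exact al.ninv t (cE (cE (cE (qa s2 al (-1) t ((i + j - n) - t) (by omega)) (qf c2 al (-1) ((i + j - n) - t) ((i + j + i2 - k - l - 1) - t) (by omega))) (pb (show Par W (2 * i + l + m - k + 3) (i + l + 1) (k + k3 - 2 * i - l - m - 2) from fun t h1 h2 => (cE (sh al (-1) t (t + (-n)) (by omega)) (cE (qf b al (-1) (t + (-n)) (t + (k - i)) (by omega)) (qf D2 al 0 (t + (k - i)) (t + (k + k3 - 2 * i - l - m - 2)) (by omega))))) al 0 ((i + j + i2 - k - l - 1) - t) ((3 * i + j + i2 + m - 2 * k - k3 + 1) - t) (by omega))) (sh al (-1) ((3 * i + j + i2 + m - 2 * k - k3 + 1) - t) t (by omega)))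
      · have kk2540 : (n + i + j + i2 + m + 1) ≤ (2 * k + 2 * l + k3) := by clear * - b1 b2 b4 b5 b6 b8 v74; omega
        have kk2541 : (i + 2 * l + m + k3 + 4) ≤ (n + j + i2) := by clear * - z202; omega
        have kk2542 : (k) ≤ (i + l + m + 2) := by clear * - b5 b7 b8 b9 v74 z202; omega
        have kk2543 : (k + l + 1) ≤ (n) := by clear * - b4 b5 b7 b8 b9 v74 z202; omega
        have kk2544 : (2 * k + l + k3) ≤ (n + 2 * i + i2 + m) := by clear * - b2 b4 b5 b8 v73 v74 y16; omega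
        have kk2545 : (2 * k + l + k3) ≤ (n + i + i2 + m) := by clear * - v73; omega
        have kk2546 : (i2) ≤ (k3) := by clear * - b4 b5 b7 b8 v74 z202; omega
        have kk2547 : (n + i + j + i2) ≤ (Q + k + l + k3 + 1) := by clear * - v74; omega
        have r2548 : (3 * i + j + i2 + m - n - 2 * k - k3 + 1) % 2 = 0 := by clear * - ev n1p n2p n3p; omega
        clear * - al s2 b c2 D2 kk2540 kk2541 kk2542 kk2543 kk2544 kk2545 kk2546 kk2547 r2548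
        obtain ⟨t, ht⟩ : ∃ t, 2 * t = (3 * i + j + i2 + m - n - 2 * k - k3 + 1) := ⟨(3 * i + j + i2 + m - n - 2 * k - k3 + 1) / 2, by omega⟩
        exact al.ninv t (cE (cE (cE (qa s2 al (-1) t ((i + j - n) - t) (by omega)) (qf c2 al (-1) ((i + j - n) - t) ((i + j + i2 - k - l - 1) - t) (by omega))) (pb (show Par W (2 * i + l + m - k + 3) (i + l + 1) (k + k3 - 2 * i - l - m - 2) from fun t h1 h2 => (cE (sh al (-1) t (t + (-n)) (by omega)) (cE (qf b al (-1) (t + (-n)) (t + (k - i)) (by omega)) (qf D2 al 0 (t + (k - i)) (t + (k + k3 - 2 * i - l - m - 2)) (by omega))))) al 0 ((i + j + i2 - k - l - 1) - t) ((3 * i + j + i2 + m - 2 * k - k3 + 1) - t) (by omega))) (sh al (-1) ((3 * i + j + i2 + m - 2 * k - k3 + 1) - t) t (by omega)))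
    · by_cases v75 : (Q + k + l + k3 + 1) ≤ (n + i + j + i2)
      · have kk2549 : (j + 2 * k + k3 + 1) ≤ (n + i + i2 + m) := by clear * - b5 b7 b9; omega
        have kk2550 : (n + 3 * i + j + i2 + m + 2) ≤ (2 * Q + 2 * k + k3) := by clear * - b4 b5 b9 y16; omega
        have kk2551 : (k) ≤ (i + l + m + 2) := by clear * - b4 b5 b7 b9 y13 y16; omega
        have kk2552 : (k + l + 1) ≤ (n) := by clear * - b3 b4 b5 b7 b9 v73 v75; omega
        have kk2553 : (n + i + i2 + m) ≤ (2 * k + l + k3) := by clear * - v73; omega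
        have kk2554 : (0) ≤ (i) := by clear * - y17 y7; omega
        have kk2555 : (i2) ≤ (k3) := by clear * - b3 b7 v73 y17; omega
        have kk2556 : (Q + k + l + k3 + 1) ≤ (n + i + j + i2) := by clear * - v75; omega
        have r2557 : (3 * i + j + i2 + m - n - 2 * k - k3 + 1) % 2 = 0 := by clear * - ev n1p n2p n3p; omega
        clear * - al s2 b c2 D2 kk2549 kk2550 kk2551 kk2552 kk2553 kk2554 kk2555 kk2556 r2557
        obtain ⟨t, ht⟩ : ∃ t, 2 * t = (3 * i + j + i2 + m - n - 2 * k - k3 + 1) := ⟨(3 * i + j + i2 + m - n - 2 * k - k3 + 1) / 2, by omega⟩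
        exact al.ninv t (cE (cE (cE (qa s2 al (-1) t ((i + j - n) - t) (by omega)) (qf c2 al (-1) ((i + j - n) - t) ((i + j + i2 - k - l - 1) - t) (by omega))) (pb (show Par W (2 * i + l + m - k + 3) (i + l + 1) (k + k3 - 2 * i - l - m - 2) from fun t h1 h2 => (cE (sh al (-1) t (t + (-n)) (by omega)) (cE (qf b al (-1) (t + (-n)) (t + (k - i)) (by omega)) (qf D2 al 0 (t + (k - i)) (t + (k + k3 - 2 * i - l - m - 2)) (by omega))))) al 0 ((i + j + i2 - k - l - 1) - t) ((3 * i + j + i2 + m - 2 * k - k3 + 1) - t) (by omega))) (sh al (-1) ((3 * i + j + i2 + m - 2 * k - k3 + 1) - t) t (by omega)))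
      · have kk2558 : (j + 2 * k + k3 + 1) ≤ (n + i + i2 + m) := by clear * - b5 b7 b9; omega
        have kk2559 : (i + 2 * l + m + k3 + 4) ≤ (n + j + i2) := by clear * - z202; omega
        have kk2560 : (k) ≤ (i + l + m + 2) := by clear * - b5 b7 b8 b9 v75 z202; omega
        have kk2561 : (k + l + 1) ≤ (n) := by clear * - b4 b5 b7 b8 b9 v75 z202; omega
        have kk2562 : (n + i + i2 + m) ≤ (2 * k + l + k3) := by clear * - v73; omega
        have kk2563 : (0) ≤ (i) := by clear * - y17 y7; omega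
        have kk2564 : (i2) ≤ (k3) := by clear * - b4 b5 b7 b8 v75 z202; omega
        have kk2565 : (n + i + j + i2) ≤ (Q + k + l + k3 + 1) := by clear * - v75; omega
        have r2566 : (3 * i + j + i2 + m - n - 2 * k - k3 + 1) % 2 = 0 := by clear * - ev n1p n2p n3p; omega
        clear * - al s2 b c2 D2 kk2558 kk2559 kk2560 kk2561 kk2562 kk2563 kk2564 kk2565 r2566
        obtain ⟨t, ht⟩ : ∃ t, 2 * t = (3 * i + j + i2 + m - n - 2 * k - k3 + 1) := ⟨(3 * i + j + i2 + m - n - 2 * k - k3 + 1) / 2, by omega⟩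
        exact al.ninv t (cE (cE (cE (qa s2 al (-1) t ((i + j - n) - t) (by omega)) (qf c2 al (-1) ((i + j - n) - t) ((i + j + i2 - k - l - 1) - t) (by omega))) (pb (show Par W (2 * i + l + m - k + 3) (i + l + 1) (k + k3 - 2 * i - l - m - 2) from fun t h1 h2 => (cE (sh al (-1) t (t + (-n)) (by omega)) (cE (qf b al (-1) (t + (-n)) (t + (k - i)) (by omega)) (qf D2 al 0 (t + (k - i)) (t + (k + k3 - 2 * i - l - m - 2)) (by omega))))) al 0 ((i + j + i2 - k - l - 1) - t) ((3 * i + j + i2 + m - 2 * k - k3 + 1) - t) (by omega))) (sh al (-1) ((3 * i + j + i2 + m - 2 * k - k3 + 1) - t) t (by omega)))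
  · exact h8_89 al hy a1 a2 s1 s2 b c1 c2 tt D1 D2 mx hL bd0 n1 n2 n3 (by clear * - b0; omega) (by clear * - b1; omega) (by clear * - b2; omega) (by clear * - b3; omega) (by clear * - b4; omega) (by clear * - b5; omega) (by clear * - b6; omega) (by clear * - b7; omega) (by clear * - b8; omega) (by clear * - b9; omega) (by clear * - z202; omega)

theorem h8_92p
    (h8_93 : ∀ {W : ℤ → G} {n Q i j k l i2 m k3 : ℤ} (al : AL W n Q) (hy : (0) ≤ (i) ∧ (i) ≤ (j) ∧ (j + 1) ≤ (Q) ∧ (Q) ≤ (k) ∧ (k + 1) ≤ (n) ∧ (Q) ≤ (i + l + 1) ∧ (k + l + 2) ≤ (n) ∧ (0) ≤ (i2) ∧ (i2 + 1) ≤ (Q) ∧ (Q + m + 1) ≤ (n + i2) ∧ (i2) ≤ (m) ∧ (Q) ≤ (i + l + m + 2) ∧ (i + l + m + 3) ≤ (n) ∧ (Q) ≤ (k3) ∧ (k3 + 1) ≤ (n) ∧ (i + m + 2) ≤ (k) ∧ (i) ≤ (i2) ∧ (i2) ≤ (i) ∧ (i + m + 2) ≤ (k3) ∧ (k3) ≤ (i + l + m + 1) ∧ (m + k3 + 2) ≤ (n + i2)) (a1 : Par W (0) (j) (k - j)) (a2 : Par W (Q + j - k) (j) (k - j)) (s1 : Ant W (0) (i) (i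 + j)) (s2 : Ant W (j + 1) (Q) (i + j)) (b : Par W (i + 1) (i + l + 1) (k - i)) (c1 : Par W (i2 + 1) (Q) (k + l - i2 + 1)) (c2 : Par W (k + l + 2) (n) (i2 - k - l - 1)) (tt : Ant W (i2 - m) (i2) (i + l + i2 + 1)) (D1 : Par W (Q) (k3) (n + i2 - m - k3 - 1)) (D2 : Par W (i + l + m + 3) (n) (k3 - i - l - m - 2)) {L : ℤ} (mx : ∀ a b g, 0 < g → g < n → Par W a b g → b - a ≤ L) (hL : L ≤ (n - j - 3) ∧ L ≤ (n + Q - k - 3) ∧ L ≤ (n - l - 3) ∧ L ≤ (n + i - k - 2)) (bd0 : Bd W n L (j) (i) (k)) (n1 : Nd W (j) (i) (k)) (n2 : Nd W (i + l + 1) (i2) (k + l + 1)) (n3 : Nd W (n + i2 - m - 1) (i + l + m + 2) (k3)) (b0 : (2 * l + 3) ≤ (n)) (b1 : (k + i2 + 1) ≤ (Q + j + m)) (b2 : (1) ≤ (m)) (b3 : (i + l + i2 + m + 3) ≤ (Q + k3)) (b4 : (2 * k + l + 1) ≤ (n + j + i2)) (b5 : (i + 2 * j + 1) ≤ (k)) (b6 : (2 * n + 2 * j + m + k3) ≤ (i + 4 * k + 3 * l + 3)) (b7 : (2 * Q + k + l) ≤ (n + i + j + i2)), False)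
    {W : ℤ → G} {n Q i j k l i2 m k3 : ℤ} (al : AL W n Q)
    (hy : (0) ≤ (i) ∧ (i) ≤ (j) ∧ (j + 1) ≤ (Q) ∧ (Q) ≤ (k) ∧ (k + 1) ≤ (n) ∧ (Q) ≤ (i + l + 1) ∧ (k + l + 2) ≤ (n) ∧ (0) ≤ (i2) ∧ (i2 + 1) ≤ (Q) ∧ (Q + m + 1) ≤ (n + i2) ∧ (i2) ≤ (m) ∧ (Q) ≤ (i + l + m + 2) ∧ (i + l + m + 3) ≤ (n) ∧ (Q) ≤ (k3) ∧ (k3 + 1) ≤ (n) ∧ (i + m + 2) ≤ (k) ∧ (i) ≤ (i2) ∧ (i2) ≤ (i) ∧ (i + m + 2) ≤ (k3) ∧ (k3) ≤ (i + l + m + 1) ∧ (m + k3 + 2) ≤ (n + i2))
    (a1 : Par W (0) (j) (k - j))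
    (a2 : Par W (Q + j - k) (j) (k - j))
    (s1 : Ant W (0) (i) (i + j))
    (s2 : Ant W (j + 1) (Q) (i + j))
    (b : Par W (i + 1) (i + l + 1) (k - i))
    (c1 : Par W (i2 + 1) (Q) (k + l - i2 + 1))
    (c2 : Par W (k + l + 2) (n) (i2 - k - l - 1))
    (tt : Ant W (i2 - m) (i2) (i + l + i2 + 1))
    (D1 : Par W (Q) (k3) (n + i2 - m - k3 - 1))
    (D2 : Par W (i + l + m + 3) (n) (k3 - i - l - m - 2))
    {L : ℤ} (mx : ∀ a b g, 0 < g → g < n → Par W a b g → b - a ≤ L)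
    (hL : L ≤ (n - j - 3) ∧ L ≤ (n + Q - k - 3) ∧ L ≤ (n - l - 3) ∧ L ≤ (n + i - k - 2))
    (bd0 : Bd W n L (j) (i) (k))
    (n1 : Nd W (j) (i) (k))
    (n2 : Nd W (i + l + 1) (i2) (k + l + 1))
    (n3 : Nd W (n + i2 - m - 1) (i + l + m + 2) (k3))
    (b0 : (2 * l + 3) ≤ (n))
    (b1 : (k + i2 + 1) ≤ (Q + j + m))
    (b2 : (2 * Q + k + l) ≤ (n + 2 * j + i2))
    (b3 : (1) ≤ (m))
    (b4 : (i + l + i2 + m + 3) ≤ (Q + k3))
    (b5 : (2 * k + l + 1) ≤ (n + j + i2))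
    (b6 : (i + 2 * j + 1) ≤ (k))
    (b7 : (2 * n + 2 * j + m + k3) ≤ (i + 4 * k + 3 * l + 3)) : False := by
  have ev := al.ev
  obtain ⟨y0, y1, y2, y3, y4, y5, y6, y7, y8, y9, y10, y11, y12, y13, y14, y15, y16, y17, y18, y19, y20⟩ := id hy
  have n1p := And.intro n1.p1 n1.p2
  have n2p := And.intro n2.p1 n2.p2
  have n3p := And.intro n3.p1 n3.p2
  by_cases z217 : (n + i + j + i2 + 1) ≤ (2 * Q + k + l)
  · by_cases v82 : (n + i + i2) ≤ (Q + k + l + 1)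
    · have kk2822 : (j + k + l + 3) ≤ (n + i + i2) := by clear * - b5 b6 y17 y7 ev n1p n2p n3p; omega
      have kk2823 : (n + i + j + i2) ≤ (2 * Q + k + l) := by clear * - z217; omega
      have kk2824 : (n + i + i2) ≤ (Q + k + l + 1) := by clear * - v82; omega
      have kk2825 : (Q + k + l + 1) ≤ (n + i + j) := by clear * - b2 b3 b4 b5 b6 b7 y17; omega
      have r2826 : (n + i + j + i2 - k - l - 1) % 2 = 0 := by clear * - ev n1p n2p n3p; omega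
      clear * - al s2 c1 kk2822 kk2823 kk2824 kk2825 r2826
      obtain ⟨t, ht⟩ : ∃ t, 2 * t = (n + i + j + i2 - k - l - 1) := ⟨(n + i + j + i2 - k - l - 1) / 2, by omega⟩
      exact al.ninv t (cE (qa s2 al 0 t ((i + j) - t) (by omega)) (pb c1 al (-1) ((i + j) - t) t (by omega)))
    · have kk2827 : (n + i + j + i2 + 1) ≤ (2 * Q + k + l) := by clear * - z217; omega
      have kk2828 : (n + i + j + i2) ≤ (2 * Q + k + l) := by clear * - z217; omega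
      have kk2829 : (Q + k + l + 1) ≤ (n + i + i2) := by clear * - v82; omega
      have kk2830 : (Q + k + l + 1) ≤ (n + i + j) := by clear * - b2 v82 y17 z217; omega
      have r2831 : (n + i + j + i2 - k - l - 1) % 2 = 0 := by clear * - ev n1p n2p n3p; omega
      clear * - al s2 c1 kk2827 kk2828 kk2829 kk2830 r2831
      obtain ⟨t, ht⟩ : ∃ t, 2 * t = (n + i + j + i2 - k - l - 1) := ⟨(n + i + j + i2 - k - l - 1) / 2, by omega⟩
      exact al.ninv t (cE (qa s2 al 0 t ((i + j) - t) (by omega)) (pb c1 al (-1) ((i + j) - t) t (by omega)))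
  · exact h8_93 al hy a1 a2 s1 s2 b c1 c2 tt D1 D2 mx hL bd0 n1 n2 n3 (by clear * - b0; omega) (by clear * - b1; omega) (by clear * - b3; omega) (by clear * - b4; omega) (by clear * - b5; omega) (by clear * - b6; omega) (by clear * - b7; omega) (by clear * - z217; omega)

theorem h8_102p
    (h8_103 : ∀ {W : ℤ → G} {n Q i j k l i2 m k3 : ℤ} (al : AL W n Q) (hy : (0) ≤ (i) ∧ (i) ≤ (j) ∧ (j + 1) ≤ (Q) ∧ (Q) ≤ (k) ∧ (k + 1) ≤ (n) ∧ (Q) ≤ (i + l + 1) ∧ (k + l + 2) ≤ (n) ∧ (0) ≤ (i2) ∧ (i2 + 1) ≤ (Q) ∧ (Q + m + 1) ≤ (n + i2) ∧ (i2) ≤ (m) ∧ (Q) ≤ (i + l + m + 2) ∧ (i + l + m + 3) ≤ (n) ∧ (Q) ≤ (k3) ∧ (k3 + 1) ≤ (n) ∧ (i + m + 2) ≤ (k) ∧ (i) ≤ (i2) ∧ (i2) ≤ (i) ∧ (i + m + 2) ≤ (k3) ∧ (k3) ≤ (i + l + m + 1) ∧ (m + k3 + 2) ≤ (n + i2)) (a1 : Par W (0) (j) (k - j)) (a2 : Par W (Q + j - k) (j) (k - j)) (s1 : Ant W (0) (i) (i + j)) (s2 : Ant W (j + 1) (Q) (i + j)) (b : Par W (i + 1) (i + l + 1) (k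 - i)) (c1 : Par W (i2 + 1) (Q) (k + l - i2 + 1)) (c2 : Par W (k + l + 2) (n) (i2 - k - l - 1)) (tt : Ant W (i2 - m) (i2) (i + l + i2 + 1)) (D1 : Par W (Q) (k3) (n + i2 - m - k3 - 1)) (D2 : Par W (i + l + m + 3) (n) (k3 - i - l - m - 2)) {L : ℤ} (mx : ∀ a b g, 0 < g → g < n → Par W a b g → b - a ≤ L) (hL : L ≤ (n - j - 3) ∧ L ≤ (n + Q - k - 3) ∧ L ≤ (n - l - 3) ∧ L ≤ (n + i - k - 2)) (bd0 : Bd W n L (j) (i) (k)) (n1 : Nd W (j) (i) (k)) (n2 : Nd W (i + l + 1) (i2) (k + l + 1)) (n3 : Nd W (n + i2 - m - 1) (i + l + m + 2) (k3)) (b0 : (2 * l + 3) ≤ (n)) (b1 : (2 * i + j + 1) ≤ (k)) (b2 : (m + k3) ≤ (i + l + 2 * i2 + 1)) (b3 : (1) ≤ (m)) (b4 : (i + l + i2 + m + 3) ≤ (Q + k3)) (b5 : (i + k) ≤ (2 * j + 1)) (b6 : (2 * k + l + 2) ≤ (n + i2)) (b7 : (n + i2 + k3) ≤ (2 * k + 2 * l + 2)) (b8 : (n + j + i2 + k3) ≤ (i + 2 * k + 2 * l + m + 2)) (b9 : (2 * Q + k + l) ≤ (n + i + j + i2)), False)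
    {W : ℤ → G} {n Q i j k l i2 m k3 : ℤ} (al : AL W n Q)
    (hy : (0) ≤ (i) ∧ (i) ≤ (j) ∧ (j + 1) ≤ (Q) ∧ (Q) ≤ (k) ∧ (k + 1) ≤ (n) ∧ (Q) ≤ (i + l + 1) ∧ (k + l + 2) ≤ (n) ∧ (0) ≤ (i2) ∧ (i2 + 1) ≤ (Q) ∧ (Q + m + 1) ≤ (n + i2) ∧ (i2) ≤ (m) ∧ (Q) ≤ (i + l + m + 2) ∧ (i + l + m + 3) ≤ (n) ∧ (Q) ≤ (k3) ∧ (k3 + 1) ≤ (n) ∧ (i + m + 2) ≤ (k) ∧ (i) ≤ (i2) ∧ (i2) ≤ (i) ∧ (i + m + 2) ≤ (k3) ∧ (k3) ≤ (i + l + m + 1) ∧ (m + k3 + 2) ≤ (n + i2))
    (a1 : Par W (0) (j) (k - j))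
    (a2 : Par W (Q + j - k) (j) (k - j))
    (s1 : Ant W (0) (i) (i + j))
    (s2 : Ant W (j + 1) (Q) (i + j))
    (b : Par W (i + 1) (i + l + 1) (k - i))
    (c1 : Par W (i2 + 1) (Q) (k + l - i2 + 1))
    (c2 : Par W (k + l + 2) (n) (i2 - k - l - 1))
    (tt : Ant W (i2 - m) (i2) (i + l + i2 + 1))
    (D1 : Par W (Q) (k3) (n + i2 - m - k3 - 1))
    (D2 : Par W (i + l + m + 3) (n) (k3 - i - l - m - 2))
    {L : ℤ} (mx : ∀ a b g, 0 < g → g < n → Par W a b g → b - a ≤ L)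
    (hL : L ≤ (n - j - 3) ∧ L ≤ (n + Q - k - 3) ∧ L ≤ (n - l - 3) ∧ L ≤ (n + i - k - 2))
    (bd0 : Bd W n L (j) (i) (k))
    (n1 : Nd W (j) (i) (k))
    (n2 : Nd W (i + l + 1) (i2) (k + l + 1))
    (n3 : Nd W (n + i2 - m - 1) (i + l + m + 2) (k3))
    (b0 : (2 * l + 3) ≤ (n))
    (b1 : (2 * i + 2 * l + 3 * m + 5) ≤ (n + i2 + k3))
    (b2 : (2 * i + j + 1) ≤ (k))
    (b3 : (m + k3) ≤ (i + l + 2 * i2 + 1))
    (b4 : (1) ≤ (m))
    (b5 : (i + l + i2 + m + 3) ≤ (Q + k3))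
    (b6 : (i + k) ≤ (2 * j + 1))
    (b7 : (2 * k + l + 2) ≤ (n + i2))
    (b8 : (n + i2 + k3) ≤ (2 * k + 2 * l + 2))
    (b9 : (n + j + i2 + k3) ≤ (i + 2 * k + 2 * l + m + 2)) : False := by
  have ev := al.ev
  obtain ⟨y0, y1, y2, y3, y4, y5, y6, y7, y8, y9, y10, y11, y12, y13, y14, y15, y16, y17, y18, y19, y20⟩ := id hy
  have n1p := And.intro n1.p1 n1.p2
  have n2p := And.intro n2.p1 n2.p2
  have n3p := And.intro n3.p1 n3.p2
  by_cases z238 : (n + i + j + i2 + 1) ≤ (2 * Q + k + l)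
  · have kk3086 : (i + j + k + l + 3) ≤ (n + i2) := by clear * - b2 b7 y17 y7; omega
    have kk3087 : (n + i + j + i2) ≤ (2 * Q + k + l) := by clear * - z238; omega
    have kk3088 : (0) ≤ (i) := by clear * - y17 y7; omega
    have kk3089 : (Q + k + l + 1) ≤ (n + i + j) := by clear * - b3 b4 b5 b6 b7 y17 y3; omega
    have r3090 : (i + j + i2 - n - k - l - 1) % 2 = 0 := by clear * - ev n1p n2p n3p; omega
    clear * - al s2 c2 kk3086 kk3087 kk3088 kk3089 r3090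
    obtain ⟨t, ht⟩ : ∃ t, 2 * t = (i + j + i2 - n - k - l - 1) := ⟨(i + j + i2 - n - k - l - 1) / 2, by omega⟩
    exact al.ninv t (cE (cE (qa s2 al (-1) t ((i + j - n) - t) (by omega)) (qf c2 al (-1) ((i + j - n) - t) ((i + j + i2 - k - l - 1) - t) (by omega))) (sh al (-1) ((i + j + i2 - k - l - 1) - t) t (by omega)))
  · exact h8_103 al hy a1 a2 s1 s2 b c1 c2 tt D1 D2 mx hL bd0 n1 n2 n3 (by clear * - b0; omega) (by clear * - b2; omega) (by clear * - b3; omega) (by clear * - b4; omega) (by clear * - b5; omega) (by clear * - b6; omega) (by clear * - b7; omega) (by clear * - b8; omega) (by clear * - b9; omega) (by clear * - z238; omega)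

theorem h8_101p
    (h8_102 : ∀ {W : ℤ → G} {n Q i j k l i2 m k3 : ℤ} (al : AL W n Q) (hy : (0) ≤ (i) ∧ (i) ≤ (j) ∧ (j + 1) ≤ (Q) ∧ (Q) ≤ (k) ∧ (k + 1) ≤ (n) ∧ (Q) ≤ (i + l + 1) ∧ (k + l + 2) ≤ (n) ∧ (0) ≤ (i2) ∧ (i2 + 1) ≤ (Q) ∧ (Q + m + 1) ≤ (n + i2) ∧ (i2) ≤ (m) ∧ (Q) ≤ (i + l + m + 2) ∧ (i + l + m + 3) ≤ (n) ∧ (Q) ≤ (k3) ∧ (k3 + 1) ≤ (n) ∧ (i + m + 2) ≤ (k) ∧ (i) ≤ (i2) ∧ (i2) ≤ (i) ∧ (i + m + 2) ≤ (k3) ∧ (k3) ≤ (i + l + m + 1) ∧ (m + k3 + 2) ≤ (n + i2)) (a1 : Par W (0) (j) (k - j)) (a2 : Par W (Q + j - k) (j) (k - j)) (s1 : Ant W (0) (i) (i + j)) (s2 : Ant W (j + 1) (Q) (i + j)) (b : Par W (i + 1) (i + l + 1) (k - i)) (c1 : Par W (i2 + 1) (Q) (k + l - i2 + 1)) (c2 : Par W (k + l + 2) (n) (i2 - k - l - 1)) (tt : Ant W (i2 - m) (i2) (i + l + i2 + 1)) (D1 : Par W (Q) (k3) (n + i2 - m - k3 - 1)) (D2 : Par W (i + l + m + 3) (n) (k3 - i - l - m - 2)) {L : ℤ} (mx : ∀ a b g, 0 < g → g <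 n → Par W a b g → b - a ≤ L) (hL : L ≤ (n - j - 3) ∧ L ≤ (n + Q - k - 3) ∧ L ≤ (n - l - 3) ∧ L ≤ (n + i - k - 2)) (bd0 : Bd W n L (j) (i) (k)) (n1 : Nd W (j) (i) (k)) (n2 : Nd W (i + l + 1) (i2) (k + l + 1)) (n3 : Nd W (n + i2 - m - 1) (i + l + m + 2) (k3)) (b0 : (2 * l + 3) ≤ (n)) (b1 : (2 * i + 2 * l + 3 * m + 5) ≤ (n + i2 + k3)) (b2 : (2 * i + j + 1) ≤ (k)) (b3 : (m + k3) ≤ (i + l + 2 * i2 + 1)) (b4 : (1) ≤ (m)) (b5 : (i + l + i2 + m + 3) ≤ (Q + k3)) (b6 : (i + k) ≤ (2 * j + 1)) (b7 : (2 * k + l + 2) ≤ (n + i2)) (b8 : (n + i2 + k3) ≤ (2 * k + 2 * l + 2)) (b9 : (n + j + i2 + k3) ≤ (i + 2 * k + 2 * l + m + 2)), False)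
    {W : ℤ → G} {n Q i j k l i2 m k3 : ℤ} (al : AL W n Q)
    (hy : (0) ≤ (i) ∧ (i) ≤ (j) ∧ (j + 1) ≤ (Q) ∧ (Q) ≤ (k) ∧ (k + 1) ≤ (n) ∧ (Q) ≤ (i + l + 1) ∧ (k + l + 2) ≤ (n) ∧ (0) ≤ (i2) ∧ (i2 + 1) ≤ (Q) ∧ (Q + m + 1) ≤ (n + i2) ∧ (i2) ≤ (m) ∧ (Q) ≤ (i + l + m + 2) ∧ (i + l + m + 3) ≤ (n) ∧ (Q) ≤ (k3) ∧ (k3 + 1) ≤ (n) ∧ (i + m + 2) ≤ (k) ∧ (i) ≤ (i2) ∧ (i2) ≤ (i) ∧ (i + m + 2) ≤ (k3) ∧ (k3) ≤ (i + l + m + 1) ∧ (m + k3 + 2) ≤ (n + i2))
    (a1 : Par W (0) (j) (k - j))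
    (a2 : Par W (Q + j - k) (j) (k - j))
    (s1 : Ant W (0) (i) (i + j))
    (s2 : Ant W (j + 1) (Q) (i + j))
    (b : Par W (i + 1) (i + l + 1) (k - i))
    (c1 : Par W (i2 + 1) (Q) (k + l - i2 + 1))
    (c2 : Par W (k + l + 2) (n) (i2 - k - l - 1))
    (tt : Ant W (i2 - m) (i2) (i + l + i2 + 1))
    (D1 : Par W (Q) (k3) (n + i2 - m - k3 - 1))
    (D2 : Par W (i + l + m + 3) (n) (k3 - i - l - m - 2))
    {L : ℤ} (mx : ∀ a b g, 0 < g → g < n → Par W a b g → b - a ≤ L)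
    (hL : L ≤ (n - j - 3) ∧ L ≤ (n + Q - k - 3) ∧ L ≤ (n - l - 3) ∧ L ≤ (n + i - k - 2))
    (bd0 : Bd W n L (j) (i) (k))
    (n1 : Nd W (j) (i) (k))
    (n2 : Nd W (i + l + 1) (i2) (k + l + 1))
    (n3 : Nd W (n + i2 - m - 1) (i + l + m + 2) (k3))
    (b0 : (2 * l + 3) ≤ (n))
    (b1 : (2 * i + 2 * l + 3 * m + 5) ≤ (n + i2 + k3))
    (b2 : (2 * i + j + 1) ≤ (k))
    (b3 : (m + k3) ≤ (i + l + 2 * i2 + 1))
    (b4 : (1) ≤ (m))
    (b5 : (i + l + i2 + m + 3) ≤ (Q + k3))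
    (b6 : (i + k) ≤ (2 * j + 1))
    (b7 : (2 * k + l + 2) ≤ (n + i2))
    (b8 : (n + j + i2 + k3) ≤ (i + 2 * k + 2 * l + m + 3))
    (b9 : (n + i2 + k3) ≤ (2 * k + 2 * l + 2)) : False := by
  have ev := al.ev
  obtain ⟨y0, y1, y2, y3, y4, y5, y6, y7, y8, y9, y10, y11, y12, y13, y14, y15, y16, y17, y18, y19, y20⟩ := id hy
  have n1p := And.intro n1.p1 n1.p2
  have n2p := And.intro n2.p1 n2.p2
  have n3p := And.intro n3.p1 n3.p2
  by_cases z237 : (i + 2 * k + 2 * l + m + 3) ≤ (n + j + i2 + k3)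
  · have kk3079 : (i + 2 * k + 2 * l + m + 3) ≤ (n + j + i2 + k3) := by clear * - z237; omega
    have kk3080 : (n + j + i2 + k3) ≤ (i + 2 * k + 2 * l + m + 3) := by clear * - b8; omega
    have kk3081 : (i + l + m + 3) ≤ (n + k3) := by clear * - b0 y18 y19; omega
    have kk3082 : (k3) ≤ (i + l + m + 1) := by clear * - y19; omega
    have kk3083 : (i + m + 1) ≤ (j) := by clear * - b9 z237; omega
    have kk3084 : (j + i2 + 1) ≤ (k) := by clear * - b2 y17 y7; omega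
    have kk3085 : (2 * k + l + 1) ≤ (n + i2) := by clear * - b7; omega
    clear * - al a1 b c2 D2 mx hL kk3079 kk3080 kk3081 kk3082 kk3083 kk3084 kk3085
    have := mx (i + l + m - n + 3) ((i + l + m - n + 3) + (n - l - 2)) (n + k3 - i - l - m - 2) (by omega) (by omega) (mgP (b := (0)) (le_refl _) (fun t h1 h2 => (qf D2 al (-1) t (t + (n + k3 - i - l - m - 2)) (by omega))) (fun t h1 h2 => (cE (sh al (-1) t (t + (-n)) (by omega)) (cE (qf a1 al (-1) (t + (-n)) (t + (k - j)) (by omega)) (pb c2 al 0 (t + (k - j)) (t + (n + k3 - i - l - m - 2)) (by omega))))))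
    omega
  · exact h8_102 al hy a1 a2 s1 s2 b c1 c2 tt D1 D2 mx hL bd0 n1 n2 n3 (by clear * - b0; omega) (by clear * - b1; omega) (by clear * - b2; omega) (by clear * - b3; omega) (by clear * - b4; omega) (by clear * - b5; omega) (by clear * - b6; omega) (by clear * - b7; omega) (by clear * - b9; omega) (by clear * - z237; omega)

theorem h8_77p
    (h8_78 : ∀ {W : ℤ → G} {n Q i j k l i2 m k3 : ℤ} (al : AL W n Q) (hy : (0) ≤ (i) ∧ (i) ≤ (j) ∧ (j + 1) ≤ (Q) ∧ (Q) ≤ (k) ∧ (k + 1) ≤ (n) ∧ (Q) ≤ (i + l + 1) ∧ (k + l + 2) ≤ (n) ∧ (0) ≤ (i2) ∧ (i2 + 1) ≤ (Q) ∧ (Q + m + 1) ≤ (n + i2) ∧ (i2) ≤ (m) ∧ (Q) ≤ (i + l + m + 2) ∧ (i + l + m + 3) ≤ (n) ∧ (Q) ≤ (k3) ∧ (k3 + 1) ≤ (n) ∧ (i + m + 2) ≤ (k) ∧ (i) ≤ (i2) ∧ (i2) ≤ (i) ∧ (i + m + 2) ≤ (k3) ∧ (k3) ≤ (i + l + m + 1) ∧ (m + k3 + 2) ≤ (n + i2)) (a1 : Par W (0) (j) (k - j)) (a2 : Par W (Q + j - k) (j) (k - j)) (s1 : Ant W (0) (i) (i + j)) (s2 : Ant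 W (j + 1) (Q) (i + j)) (b : Par W (i + 1) (i + l + 1) (k - i)) (c1 : Par W (i2 + 1) (Q) (k + l - i2 + 1)) (c2 : Par W (k + l + 2) (n) (i2 - k - l - 1)) (tt : Ant W (i2 - m) (i2) (i + l + i2 + 1)) (D1 : Par W (Q) (k3) (n + i2 - m - k3 - 1)) (D2 : Par W (i + l + m + 3) (n) (k3 - i - l - m - 2)) {L : ℤ} (mx : ∀ a b g, 0 < g → g < n → Par W a b g → b - a ≤ L) (hL : L ≤ (n - j - 3) ∧ L ≤ (n + Q - k - 3) ∧ L ≤ (n - l - 3) ∧ L ≤ (n + i - k - 2)) (bd0 : Bd W n L (j) (i) (k)) (n1 : Nd W (j) (i) (k)) (n2 : Nd W (i + l + 1) (i2) (k + l + 1)) (n3 : Nd W (n + i2 - m - 1) (i + l + m + 2) (k3)) (b0 : (2 * l + 3) ≤ (n)) (b1 : (2 * i + 2 * l + 3 * m + 5) ≤ (n + i2 + k3)) (b2 : (k + i2 + 1) ≤ (Q + j + m)) (b3 : (2 * i + j + 1) ≤ (k)) (b4 : (2 * Q + k + l) ≤ (n + 2 * j + i2)) (b5 : (m + k3) ≤ (i + l + 2 * i2 + 1)) (b6 : (1) ≤ (m)) (b7 : (i + l + i2 + m + 3) ≤ (Q + k3)) (b8 : (n + j + i2) ≤ (2 * k + l)),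 False)
    (h8_79 : ∀ {W : ℤ → G} {n Q i j k l i2 m k3 : ℤ} (al : AL W n Q) (hy : (0) ≤ (i) ∧ (i) ≤ (j) ∧ (j + 1) ≤ (Q) ∧ (Q) ≤ (k) ∧ (k + 1) ≤ (n) ∧ (Q) ≤ (i + l + 1) ∧ (k + l + 2) ≤ (n) ∧ (0) ≤ (i2) ∧ (i2 + 1) ≤ (Q) ∧ (Q + m + 1) ≤ (n + i2) ∧ (i2) ≤ (m) ∧ (Q) ≤ (i + l + m + 2) ∧ (i + l + m + 3) ≤ (n) ∧ (Q) ≤ (k3) ∧ (k3 + 1) ≤ (n) ∧ (i + m + 2) ≤ (k) ∧ (i) ≤ (i2) ∧ (i2) ≤ (i) ∧ (i + m + 2) ≤ (k3) ∧ (k3) ≤ (i + l + m + 1) ∧ (m + k3 + 2) ≤ (n + i2)) (a1 : Par W (0) (j) (k - j)) (a2 : Par W (Q + j - k) (j) (k - j)) (s1 : Ant W (0) (i) (i + j)) (s2 : Ant W (j + 1) (Q) (i + j)) (b : Par W (i + 1) (i + l + 1) (k - i)) (c1 : Par W (i2 + 1) (Q) (k + l - i2 + 1)) (c2 : Par W (k + l + 2) (n) (i2 - k - l - 1)) (tt : Ant W (i2 - m) (i2) (i + l + i2 + 1)) (D1 : Par W (Q) (k3) (n + i2 - m - k3 - 1)) (D2 : Par W (i + l + m + 3) (n) (k3 - i - l - m - 2)) {L : ℤ} (mx : ∀ a b g, 0 < g → g < n → Par W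 a b g → b - a ≤ L) (hL : L ≤ (n - j - 3) ∧ L ≤ (n + Q - k - 3) ∧ L ≤ (n - l - 3) ∧ L ≤ (n + i - k - 2)) (bd0 : Bd W n L (j) (i) (k)) (n1 : Nd W (j) (i) (k)) (n2 : Nd W (i + l + 1) (i2) (k + l + 1)) (n3 : Nd W (n + i2 - m - 1) (i + l + m + 2) (k3)) (b0 : (2 * l + 3) ≤ (n)) (b1 : (2 * i + 2 * l + 3 * m + 5) ≤ (n + i2 + k3)) (b2 : (k + i2 + 1) ≤ (Q + j + m)) (b3 : (2 * i + j + 1) ≤ (k)) (b4 : (2 * Q + k + l) ≤ (n + 2 * j + i2)) (b5 : (m + k3) ≤ (i + l + 2 * i2 + 1)) (b6 : (1) ≤ (m)) (b7 : (i + l + i2 + m + 3) ≤ (Q + k3)) (b8 : (2 * k + l + 1) ≤ (n + j + i2)), False)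
    {W : ℤ → G} {n Q i j k l i2 m k3 : ℤ} (al : AL W n Q)
    (hy : (0) ≤ (i) ∧ (i) ≤ (j) ∧ (j + 1) ≤ (Q) ∧ (Q) ≤ (k) ∧ (k + 1) ≤ (n) ∧ (Q) ≤ (i + l + 1) ∧ (k + l + 2) ≤ (n) ∧ (0) ≤ (i2) ∧ (i2 + 1) ≤ (Q) ∧ (Q + m + 1) ≤ (n + i2) ∧ (i2) ≤ (m) ∧ (Q) ≤ (i + l + m + 2) ∧ (i + l + m + 3) ≤ (n) ∧ (Q) ≤ (k3) ∧ (k3 + 1) ≤ (n) ∧ (i + m + 2) ≤ (k) ∧ (i) ≤ (i2) ∧ (i2) ≤ (i) ∧ (i + m + 2) ≤ (k3) ∧ (k3) ≤ (i + l + m + 1) ∧ (m + k3 + 2) ≤ (n + i2))
    (a1 : Par W (0) (j) (k - j))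
    (a2 : Par W (Q + j - k) (j) (k - j))
    (s1 : Ant W (0) (i) (i + j))
    (s2 : Ant W (j + 1) (Q) (i + j))
    (b : Par W (i + 1) (i + l + 1) (k - i))
    (c1 : Par W (i2 + 1) (Q) (k + l - i2 + 1))
    (c2 : Par W (k + l + 2) (n) (i2 - k - l - 1))
    (tt : Ant W (i2 - m) (i2) (i + l + i2 + 1))
    (D1 : Par W (Q) (k3) (n + i2 - m - k3 - 1))
    (D2 : Par W (i + l + m + 3) (n) (k3 - i - l - m - 2))
    {L : ℤ} (mx : ∀ a b g, 0 < g → g < n → Par W a b g → b - a ≤ L)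
    (hL : L ≤ (n - j - 3) ∧ L ≤ (n + Q - k - 3) ∧ L ≤ (n - l - 3) ∧ L ≤ (n + i - k - 2))
    (bd0 : Bd W n L (j) (i) (k))
    (n1 : Nd W (j) (i) (k))
    (n2 : Nd W (i + l + 1) (i2) (k + l + 1))
    (n3 : Nd W (n + i2 - m - 1) (i + l + m + 2) (k3))
    (b0 : (2 * l + 3) ≤ (n))
    (b1 : (2 * i + 2 * l + 3 * m + 5) ≤ (n + i2 + k3))
    (b2 : (k + i2 + 1) ≤ (Q + j + m))
    (b3 : (2 * i + j + 1) ≤ (k))
    (b4 : (2 * Q + k + l) ≤ (n + 2 * j + i2))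
    (b5 : (m + k3) ≤ (i + l + 2 * i2 + 1))
    (b6 : (1) ≤ (m))
    (b7 : (i + l + i2 + m + 3) ≤ (Q + k3)) : False := by
  have ev := al.ev
  obtain ⟨y0, y1, y2, y3, y4, y5, y6, y7, y8, y9, y10, y11, y12, y13, y14, y15, y16, y17, y18, y19, y20⟩ := id hy
  have n1p := And.intro n1.p1 n1.p2
  have n2p := And.intro n2.p1 n2.p2
  have n3p := And.intro n3.p1 n3.p2
  by_cases z186 : (n + j + i2) ≤ (2 * k + l)
  · exact h8_78 al hy a1 a2 s1 s2 b c1 c2 tt D1 D2 mx hL bd0 n1 n2 n3 (by clear * - b0; omega) (by clear * - b1; omega) (by clear * - b2; omega) (by clear * - b3; omega) (by clear * - b4; omega) (by clear * - b5; omega) (by clear * - b6; omega) (by clear * - b7; omega) (by clear * - z186; omega)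
  · exact h8_79 al hy a1 a2 s1 s2 b c1 c2 tt D1 D2 mx hL bd0 n1 n2 n3 (by clear * - b0; omega) (by clear * - b1; omega) (by clear * - b2; omega) (by clear * - b3; omega) (by clear * - b4; omega) (by clear * - b5; omega) (by clear * - b6; omega) (by clear * - b7; omega) (by clear * - z186; omega)

theorem h9_32p
    {W : ℤ → G} {n Q i j k l i2 m k3 : ℤ} (al : AL W n Q)
    (hy : (0) ≤ (i) ∧ (i) ≤ (j) ∧ (j + 1) ≤ (Q) ∧ (Q) ≤ (k) ∧ (k + 1) ≤ (n) ∧ (Q) ≤ (i + l + 1) ∧ (k + l + 2) ≤ (n) ∧ (0) ≤ (i2) ∧ (i2 + 1) ≤ (Q) ∧ (Q + m + 1) ≤ (n + i2) ∧ (i2) ≤ (m) ∧ (Q) ≤ (i + l + m + 2) ∧ (i + l + m + 3) ≤ (n) ∧ (Q) ≤ (k3) ∧ (k3 + 1) ≤ (n) ∧ (i + m + 2) ≤ (k) ∧ (i) ≤ (i2) ∧ (i2) ≤ (i) ∧ (i + m + 1) ≤ (k3) ∧ (k3) ≤ (i + m + 1) ∧ (k3) ≤ (i + l + m + 1) ∧ (m + k3 + 2) ≤ (n + i2))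
    (a1 : Par W (0) (j) (k - j))
    (a2 : Par W (Q + j - k) (j) (k - j))
    (s1 : Ant W (0) (i) (i + j))
    (s2 : Ant W (j + 1) (Q) (i + j))
    (b : Par W (i + 1) (i + l + 1) (k - i))
    (c1 : Par W (i2 + 1) (Q) (k + l - i2 + 1))
    (c2 : Par W (k + l + 2) (n) (i2 - k - l - 1))
    (tt : Ant W (i2 - m) (i2) (i + l + i2 + 1))
    (D1 : Par W (Q) (k3) (n + i2 - m - k3 - 1))
    (D2 : Par W (i + l + m + 3) (n) (k3 - i - l - m - 2))
    {L : ℤ} (mx : ∀ a b g, 0 < g → g < n → Par W a b g → b - a ≤ L)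
    (hL : L ≤ (n - j - 3) ∧ L ≤ (n + Q - k - 3) ∧ L ≤ (n - l - 3) ∧ L ≤ (n + i - k - 2))
    (bd0 : Bd W n L (j) (i) (k))
    (n1 : Nd W (j) (i) (k))
    (n2 : Nd W (i + l + 1) (i2) (k + l + 1))
    (n3 : Nd W (n + i2 - m - 1) (i + l + m + 2) (k3))
    (d1 : ℤ) (q1 : d1 % 2 = 0) (x1 : Par W (i + 1) (k + l - d1 + 1) d1)
    (b0 : (n + k3) ≤ (2 * i + 2 * l + i2 + m + 4))
    (b1 : (3 * i + 2 * l + 3 * m + 5) ≤ (n + k + i2 + k3))
    (b2 : (2 * i + l + m + 3) ≤ (k + k3 + d1))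
    (b3 : (j + i2 + d1) ≤ (l))
    (b4 : (2 * k + i2 + d1) ≤ (i + 2 * j + l + 2))
    (b5 : (i + k + l + m + d1 + 3) ≤ (n + k3))
    (b6 : (j + 4 * k) ≤ (n + 3 * i + 2 * i2 + 1)) : False := by
  have ev := al.ev
  obtain ⟨y0, y1, y2, y3, y4, y5, y6, y7, y8, y9, y10, y11, y12, y13, y14, y15, y16, y17, y18, y19, y20, y21⟩ := id hy
  have n1p := And.intro n1.p1 n1.p2
  have n2p := And.intro n2.p1 n2.p2
  have n3p := And.intro n3.p1 n3.p2
  by_cases z43 : (2 * i + d1 + 1) ≤ (Q + k)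
  · have kk478 : (k + 1) ≤ (i + d1) := by clear * - b0 b2 b3 b4 b6 y17 y19; omega
    have kk479 : (i + d1 + 1) ≤ (n + k) := by clear * - b0 b2 b3 b4 b5 b6 y17 y19; omega
    have kk480 : (2 * i + d1 + 1) ≤ (Q + k) := by clear * - z43; omega
    have kk481 : (Q + d1) ≤ (k + l + 1) := by clear * - b0 b1 b2 b3 b4 b6 y13 y17 y19 z43; omega
    have kk482 : (k) ≤ (i + d1) := by clear * - b0 b2 b3 b4 b6 y17 y19; omega
    clear * - al b x1 kk478 kk479 kk480 kk481 kk482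
    exact al.ubQ (i + d1 - k) (by omega) (by omega) fun t h1 h2 => (cE (sh al (-1) t (t + (-n)) (by omega)) (cE (qf x1 al (-1) (t + (-n)) (t + (d1)) (by omega)) (pb b al 0 (t + (d1)) (t + (i + d1 - k)) (by omega))))
  · by_cases z44 : (n + i + i2) ≤ (3 * k + l + 1)
    · have kk483 : (2 * i + d1 + 1) ≤ (2 * k) := by clear * - b5 y16 y19 z44; omega
      have kk484 : (2 * k + 1) ≤ (n + 2 * i + d1) := by clear * - b0 b2 b3 b4 b5 b6 y19 z44; omega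
      have kk485 : (2 * k + 1) ≤ (Q + i + d1) := by clear * - b2 b4 y16 y19 y2 z43; omega
      have kk486 : (Q + k) ≤ (2 * i + l + 1) := by clear * - b0 b2 b3 b4 b5 b6 y19 z43 z44; omega
      have kk487 : (k) ≤ (i + d1) := by clear * - b0 b2 b3 b4 b6 y17 y19; omega
      have kk488 : (2 * i + d1) ≤ (2 * k) := by clear * - b5 y16 y19 z44; omega
      have kk489 : (i) ≤ (k) := by clear * - b0 b2 b3 b4 b5 b6 y19 z44; omega
      clear * - al b x1 kk483 kk484 kk485 kk486 kk487 kk488 kk489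
      exact al.ubQ (2 * k - 2 * i - d1) (by omega) (by omega) fun t h1 h2 => (cE (sh al (-1) t (t + (-n)) (by omega)) (cE (qf b al (-1) (t + (-n)) (t + (k - i)) (by omega)) (pb (show Par W (i + 1) (k + l - d1 + 1) (i + d1 - k) from fun t h1 h2 => (cE (sh al (-1) t (t + (-n)) (by omega)) (cE (qf x1 al (-1) (t + (-n)) (t + (d1)) (by omega)) (pb b al 0 (t + (d1)) (t + (i + d1 - k)) (by omega))))) al 0 (t + (k - i)) (t + (2 * k - 2 * i - d1)) (by omega))))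
    · by_cases z45 : (i + l + 2 * m + d1 + 3) ≤ (n + i2)
      · by_cases z46 : (n + i2) ≤ (i + l + 2 * m + d1 + 3)
        · have kk490 : (2 * i + l + 2 * m + d1 + 4) ≤ (n + i2 + k3) := by clear * - b0 b2 b3 b4 b5 y17 y19 z45; omega
          have kk491 : (i2) ≤ (m) := by clear * - b0 b2 b3 b4 b5 y17 y19 z46; omega
          have kk492 : (i + l + 2 * m + d1 + 3) ≤ (n + i2) := by clear * - z45; omega
          have kk493 : (n + i2) ≤ (i + l + 2 * m + d1 + 3) := by clear * - z46; omega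
          have kk494 : (k3) ≤ (i + d1) := by clear * - b0 b2 b3 b4 b5 y17 y19 z44 z45; omega
          have kk495 : (n + k3) ≤ (i + k + 2 * l + m + 3) := by clear * - b0 b2 b3 b4 b5 y17 y19; omega
          clear * - al D2 x1 n3 kk490 kk491 kk492 kk493 kk494 kk495
          exact n3.f0 (cE (qf D2 al 0 (n + i2 - m - 1) (n + i2 + k3 - i - l - 2 * m - 3) (by omega)) (pb x1 al 0 (n + i2 + k3 - i - l - 2 * m - 3) (k3) (by omega)))
        · by_cases z47 : (2 * j + d1) ≤ (2 * i + l + i2 + 1)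
          · have kk496 : (i + l + i2 + 2) ≤ (2 * j + d1) := by clear * - b2 b4 y19; omega
            have kk497 : (2 * j + d1) ≤ (n + i + l + i2) := by clear * - b2 b5 y20 z47; omega
            have kk498 : (2 * j + d1) ≤ (2 * i + l + i2 + 1) := by clear * - z47; omega
            have kk499 : (2 * j + d1) ≤ (i + l + m + 1) := by clear * - b0 b2 b3 b5 y13 y19 y2; omega
            have kk500 : (2 * j + d1) ≤ (k + l) := by clear * - b0 b2 b3 b4 b5 y19 z47; omega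
            have kk501 : (2 * j) ≤ (k + l) := by clear * - b0 b2 b3 b4 b5 y19 z44 z47; omega
            have kk502 : (i + j + 1) ≤ (k) := by clear * - b0 b2 b3 b5 y19; omega
            have kk503 : (i + l + 1) ≤ (k + d1) := by clear * - b2 y19; omega
            have kk504 : (i) ≤ (k) := by clear * - b0 b2 b3 b4 b5 y19 z47; omega
            have kk505 : (i + k) ≤ (2 * j) := by clear * - b2 b4 y16 y19; omega
            have kk506 : (k) ≤ (2 * j + 1) := by clear * - b0 b2 b4 b5 y19; omega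
            clear * - al a1 s1 b tt x1 kk496 kk497 kk498 kk499 kk500 kk501 kk502 kk503 kk504 kk505 kk506
            exact al.ubP (2 * j + d1 - i - l - i2 - 1) (by omega) (by omega) fun t h1 h2 => (cE (sh al (-1) t (t + (-n)) (by omega)) (cII (cE (cE (cE (qa tt al (-1) (t + (-n)) ((i + l + i2 + 1) - t) (by omega)) (pb x1 al 0 ((i + l + i2 + 1) - t) ((i + l + i2 - d1 + 1) - t) (by omega))) (pb b al 0 ((i + l + i2 - d1 + 1) - t) ((2 * i + l + i2 - k - d1 + 1) - t) (by omega))) (qf a1 al 0 ((2 * i + l + i2 - k - d1 + 1) - t) ((2 * i + l + i2 - j - d1 + 1) - t) (by omega))) (ab s1 al 0 ((2 * i + l + i2 - j - d1 + 1) - t) (t + (2 * j + d1 - i - l - i2 - 1)) (by omega))))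
          · by_cases z48 : (2 * k) ≤ (i + 3 * j)
            · by_cases v16 : (3 * j + 1) ≤ (2 * k)
              · have kk507 : (2 * k) ≤ (i + 3 * j) := by clear * - z48; omega
                have kk508 : (2 * k) ≤ (i + 3 * j + 1) := by clear * - z48; omega
                have kk509 : (j) ≤ (k) := by clear * - b0 b5 v16 z47 z48; omega
                have kk510 : (3 * j + 1) ≤ (2 * k) := by clear * - v16; omega
                have kk511 : (i + j + 1) ≤ (k) := by clear * - b0 b5 v16 z47; omega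
                have r512 : (i + 3 * j - 2 * n - 2 * k) % 2 = 0 := by clear * - ev n1p n2p n3p q1; omega
                clear * - al a1 s1 kk507 kk508 kk509 kk510 kk511 r512
                obtain ⟨t, ht⟩ : ∃ t, 2 * t = (i + 3 * j - 2 * n - 2 * k) := ⟨(i + 3 * j - 2 * n - 2 * k) / 2, by omega⟩
                exact al.ninv t (cE (cI (cE (qf a1 al (-1) t (t + (n + k - j)) (by omega)) (qf a1 al 0 (t + (n + k - j)) (t + (n + 2 * k - 2 * j)) (by omega))) (ab s1 al 0 (t + (n + 2 * k - 2 * j)) ((i + 3 * j - n - 2 * k) - t) (by omega))) (sh al (-1) ((i + 3 * j - n - 2 * k) - t) t (by omega)))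
              · have kk513 : (3 * j + 2) ≤ (i + 2 * k) := by clear * - b0 b2 b3 y13 y17 y19 y2 z46; omega
                have kk514 : (2 * k) ≤ (i + 3 * j + 1) := by clear * - z48; omega
                have kk515 : (2 * k) ≤ (3 * j + 1) := by clear * - v16; omega
                have kk516 : (k) ≤ (2 * j + 1) := by clear * - b0 b2 b4 b5 y19; omega
                have kk517 : (j) ≤ (k) := by clear * - b0 b2 b3 b5 y17 y19; omega
                have kk518 : (i + j + 1) ≤ (k) := by clear * - b0 b2 b3 b5 y19; omega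
                have r519 : (i + 3 * j - 2 * n - 2 * k) % 2 = 0 := by clear * - ev n1p n2p n3p q1; omega
                clear * - al a1 s1 kk513 kk514 kk515 kk516 kk517 kk518 r519
                obtain ⟨t, ht⟩ : ∃ t, 2 * t = (i + 3 * j - 2 * n - 2 * k) := ⟨(i + 3 * j - 2 * n - 2 * k) / 2, by omega⟩
                exact al.ninv t (cE (cI (cE (qf a1 al (-1) t (t + (n + k - j)) (by omega)) (qf a1 al 0 (t + (n + k - j)) (t + (n + 2 * k - 2 * j)) (by omega))) (ab s1 al 0 (t + (n + 2 * k - 2 * j)) ((i + 3 * j - n - 2 * k) - t) (by omega))) (sh al (-1) ((i + 3 * j - n - 2 * k) - t) t (by omega)))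
            · have kk520 : (j + 1) ≤ (k) := by clear * - b0 b2 b5 y17 y19 z47 z48; omega
              have kk521 : (k + 2 * i2) ≤ (j + 2 * m) := by clear * - b0 b2 b4 y13 y19 y2 z46 z47 z48; omega
              have kk522 : (3 * k + 2 * d1) ≤ (2 * i + j + 2 * l + 2 * m + 2) := by clear * - b0 b4 b5 y13 y19 y2 z46 z47 z48; omega
              have kk523 : (2 * n + 2 * i2 + 2 * k3) ≤ (2 * i + j + k + 2 * l + 4 * m + 2 * d1 + 4) := by clear * - b0 b5 y13 y17 y19 y2 z47 z48; omega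
              have kk524 : (k + l + m + 2) ≤ (n + i2) := by clear * - b0 b2 b5 y17 y19 z44 z46 z47 z48; omega
              have kk525 : (i + m + 1) ≤ (k) := by clear * - b0 b2 b5 y17 y19 z46 z47 z48; omega
              have kk526 : (k) ≤ (i + l + i2 + 1) := by clear * - b0 b2 b5 y17 y20 z44 z47 z48; omega
              have kk527 : (0) ≤ (i2) := by clear * - b0 b2 b5 y19; omega
              have kk528 : (0) ≤ (i + 1) := by clear * - b0 b2 b5 y17 y19; omega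
              have kk529 : (j) ≤ (k) := by clear * - b0 b2 b5 y17 y19 z47 z48; omega
              have kk530 : (j + d1) ≤ (k + l + 1) := by clear * - b0 b2 b5 y17 y19 z47 z48; omega
              have kk531 : (d1) ≤ (l + 1) := by clear * - b0 b2 b5 y17 y19 z47 z48; omega
              have kk532 : (2 * k + m + 2 * d1 + 1) ≤ (n + i2 + k3) := by clear * - b0 b5; omega
              have kk533 : (2 * i + l + m + 2) ≤ (2 * k + d1) := by clear * - b0 b2 b5 y17 y19 z46 z47 z48; omega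
              have r534 : (3 * n + i + i2 + k3 - k - m - 1) % 2 = 0 := by clear * - ev n1p n2p n3p q1; omega
              have r535 : (k - j) % 2 = 0 := by clear * - ev n1p n2p n3p q1; omega
              clear * - al a1 b tt D2 x1 kk520 kk521 kk522 kk523 kk524 kk525 kk526 kk527 kk528 kk529 kk530 kk531 kk532 kk533 r534 r535
              exact midP al (k - j) (3 * n + i + i2 + k3 - k - m - 1) (2 * n + i2 + k3 - i - l - 2 * m - 2) (n + i + d1 + 1) (n + k + d1) (by omega) (fun t h1 h2 => (cE (cE (cI (pb D2 al 1 t (t + (i + l + m - n - k3 + 2)) (by omega)) (qa tt al 1 (t + (i + l + m - n - k3 + 2)) ((2 * n + i2 + k3 - m - 1) - t) (by omega))) (pb b al 0 ((2 * n + i2 + k3 - m - 1) - t) ((2 * n + i + i2 + k3 - k - m - 1) - t) (by omega))) (sh al 1 ((2 * n + i + i2 + k3 - k - m - 1) - t) ((3 * n + i + i2 + k3 - k - m - 1) - t) (by omega)))) (fun t h1 h2 => (cE (cE (cE (pb x1 al 1 t (t + (-n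 - d1)) (by omega)) (qf a1 al 0 (t + (-n - d1)) (t + (k - n - j - d1)) (by omega))) (qf x1 al 0 (t + (k - n - j - d1)) (t + (k - n - j)) (by omega))) (sh al 1 (t + (k - n - j)) (t + (k - j)) (by omega))))
      · by_cases z49 : (n + i2 + k3) ≤ (i + j + l + 2 * m + d1 + 3)
        · have kk536 : (i + 1) ≤ (k) := by clear * - b0 b2 b3 b4 b5 y17 y19; omega
          have kk537 : (0) ≤ (l) := by clear * - y18 y20; omega
          have kk538 : (i + 1) ≤ (j) := by clear * - b0 b2 b3 b4 b5 y19; omega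
          have kk539 : (j) ≤ (k + l) := by clear * - b0 b2 b3 b4 b5 y17 y19 z44; omega
          have kk540 : (n + i2 + k3) ≤ (i + j + l + 2 * m + d1 + 3) := by clear * - z49; omega
          have kk541 : (i + k + l + m + d1 + 2) ≤ (n + k3) := by clear * - b5; omega
          have kk542 : (k3) ≤ (i + d1) := by clear * - b0 b1 b3 b5 y17 y19 z44 z45 z49; omega
          have kk543 : (2 * i + l + 2 * m + d1 + 3) ≤ (n + i2 + k3) := by clear * - b0 b1 b3 b5 y17 y19 z45 z49; omega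
          have kk544 : (n + k3) ≤ (i + k + 2 * l + m + 3) := by clear * - b0 b2 b3 b4 b5 y17 y19; omega
          have kk545 : (0) ≤ (i2) := by clear * - b0 b2 b5 y19; omega
          have kk546 : (0) ≤ (i + 1) := by clear * - b0 b2 b5 y17 y19; omega
          have kk547 : (j) ≤ (k) := by clear * - b0 b2 b3 b5 y17 y19; omega
          have kk548 : (0) ≤ (l + 1) := by clear * - y18 y20; omega
          have kk549 : (j) ≤ (k + l + 1) := by clear * - b0 b2 b3 b4 b5 y17 y19 z44; omega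
          have kk550 : (i + m + 1) ≤ (k) := by clear * - b0 b1 b3 b5 y17 y19 z45 z49; omega
          have kk551 : (0) ≤ (l + i2 + 1) := by clear * - b0 b2 b5 y20; omega
          have kk552 : (n + k3) ≤ (i + k + 2 * l + m + d1 + 3) := by clear * - b0 b1 b3 y17 y20 z44 z45 z49; omega
          have r553 : (j - k) % 2 = 0 := by clear * - ev n1p n2p n3p q1; omega
          have r554 : (k - i) % 2 = 0 := by clear * - ev n1p n2p n3p q1; omega
          have r555 : (i2 + k3 - n - m - d1 - 1) % 2 = 0 := by clear * - ev n1p n2p n3p q1; omega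
          clear * - al a1 b tt D2 x1 n1 kk536 kk537 kk538 kk539 kk540 kk541 kk542 kk543 kk544 kk545 kk546 kk547 kk548 kk549 kk550 kk551 kk552 r553 r554 r555
          exact ivt al.ninv (i - n + 1) (i + l - n + 1) (k - i) (i + k - n - j + 1) (k - n) (j - k) (k - n) (j - n) 0 (fun t h1 h2 => (cE (qf b al (-1) t (t + (n + k - i)) (by omega)) (sh al (-1) (t + (n + k - i)) (t + (k - i)) (by omega)))) (fun t h1 h2 => (cE (pb a1 al (-1) t (t + (n + j - k)) (by omega)) (sh al (-1) (t + (n + j - k)) (t + (j - k)) (by omega)))) (fun hh => n1.f0 (rEE (sh al (-1) (j) (j - n) (by omega)) (sh al (-1) (k) (k - n) (by omega)) (Eq.symm (Eq.symm hh)))) (by omega) (i2 + k3 - i - l - 2 * m - d1 - 2) (k3 - i - l - m - d1 - 2) (i2 + k3 - n - m - d1 - 1) 1 0 (fun t h1 h2 => (cI (sh al 1 t (t + (n)) (by omega)) (cE (cI (cE (qf x1 al 0 (t + (n)) (t + (n + d1)) (by omega)) (pb D2 al 0 (t + (n + d1)) (t + (n +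 i + l + m + d1 - k3 + 2)) (by omega))) (qa tt al 1 (t + (n + i + l + m + d1 - k3 + 2)) ((i2 + k3 - m - d1 - 1) - t) (by omega))) (sh al (-1) ((i2 + k3 - m - d1 - 1) - t) ((i2 + k3 - n - m - d1 - 1) - t) (by omega))))) (by omega)
        · by_cases z50 : (Q + i + l + 2 * m + d1 + 3) ≤ (n + i2 + k3)
          · have kk556 : (n + i2) ≤ (i + l + 2 * m + d1 + 2) := by clear * - z45; omega
            have kk557 : (i + l + 2 * m + d1 + 4) ≤ (2 * n + i2) := by clear * - b0 b2 b3 b4 b5 y19 z44 z45 z49; omega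
            have kk558 : (Q + i + l + 2 * m + d1 + 3) ≤ (n + i2 + k3) := by clear * - z50; omega
            have kk559 : (i + l + 2 * m + k3 + 4) ≤ (n + Q + i2) := by clear * - b0 b2 b3 b4 b5 y19 y8 z44 z49; omega
            have kk560 : (2 * i + l + 2 * m + d1 + 4) ≤ (n + Q + i2) := by clear * - b0 b1 b3 b4 b5 y19 y2 z45; omega
            have kk561 : (i2) ≤ (m + 1) := by clear * - b0 b2 b3 b4 b5 y19 z45 z49; omega
            have kk562 : (n + i2 + k3) ≤ (i + k + 2 * l + 2 * m + 4) := by clear * - b0 b2 b3 b4 b5 y19 z45 z49; omega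
            clear * - al D1 D2 x1 kk556 kk557 kk558 kk559 kk560 kk561 kk562
            exact al.ubQ (i + l + 2 * m + d1 - n - i2 + 3) (by omega) (by omega) fun t h1 h2 => (cE (sh al (-1) t (t + (-n)) (by omega)) (cE (cE (qf x1 al (-1) (t + (-n)) (t + (d1)) (by omega)) (pb D2 al 0 (t + (d1)) (t + (i + l + m + d1 - k3 + 2)) (by omega))) (pb D1 al 0 (t + (i + l + m + d1 - k3 + 2)) (t + (i + l + 2 * m + d1 - n - i2 + 3)) (by omega))))
          · by_cases z51 : (2 * j + d1) ≤ (2 * i + l + i2 + 1)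
            · have kk563 : (i + l + i2 + 2) ≤ (2 * j + d1) := by clear * - b2 b4 y19; omega
              have kk564 : (2 * j + d1) ≤ (n + i + l + i2) := by clear * - y20 z45 z49; omega
              have kk565 : (2 * j + d1) ≤ (2 * i + l + i2 + 1) := by clear * - z51; omega
              have kk566 : (2 * j + d1) ≤ (i + l + m + 1) := by clear * - b0 b2 b3 b5 y19 z45 z51; omega
              have kk567 : (2 * j + d1) ≤ (k + l) := by clear * - b0 b2 b3 b4 b5 y19 z51; omega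
              have kk568 : (2 * j) ≤ (k + l) := by clear * - b0 b2 b3 b4 b5 y19 z44 z51; omega
              have kk569 : (i + j + 1) ≤ (k) := by clear * - b0 b2 b3 b5 y19; omega
              have kk570 : (i + l + 1) ≤ (k + d1) := by clear * - b2 y19; omega
              have kk571 : (i) ≤ (k) := by clear * - b0 b2 b3 b4 b5 y19 z51; omega
              have kk572 : (i + k) ≤ (2 * j) := by clear * - b2 b4 y16 y19; omega
              have kk573 : (k) ≤ (2 * j + 1) := by clear * - b0 b2 b4 b5 y19; omega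
              clear * - al a1 s1 b tt x1 kk563 kk564 kk565 kk566 kk567 kk568 kk569 kk570 kk571 kk572 kk573
              exact al.ubP (2 * j + d1 - i - l - i2 - 1) (by omega) (by omega) fun t h1 h2 => (cE (sh al (-1) t (t + (-n)) (by omega)) (cII (cE (cE (cE (qa tt al (-1) (t + (-n)) ((i + l + i2 + 1) - t) (by omega)) (pb x1 al 0 ((i + l + i2 + 1) - t) ((i + l + i2 - d1 + 1) - t) (by omega))) (pb b al 0 ((i + l + i2 - d1 + 1) - t) ((2 * i + l + i2 - k - d1 + 1) - t) (by omega))) (qf a1 al 0 ((2 * i + l + i2 - k - d1 + 1) - t) ((2 * i + l + i2 - j - d1 + 1) - t) (by omega))) (ab s1 al 0 ((2 * i + l + i2 - j - d1 + 1) - t) (t + (2 * j + d1 - i - l - i2 - 1)) (by omega))))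
            · by_cases z52 : (2 * k) ≤ (i + 3 * j)
              · have kk574 : (3 * j + 2) ≤ (i + 2 * k) := by clear * - b0 b2 b3 y17 y19 z45 z49; omega
                have kk575 : (2 * k) ≤ (i + 3 * j + 1) := by clear * - z52; omega
                have kk576 : (k) ≤ (2 * j + 1) := by clear * - b0 b2 b4 y19 z45 z49 z51; omega
                have kk577 : (i) ≤ (j) := by clear * - b0 b2 b3 y19 z45 z49 z51 z52; omega
                have kk578 : (i + j + 1) ≤ (k) := by clear * - b0 b2 b3 y19 z45 z49 z51; omega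
                have r579 : (i + j - 2 * n) % 2 = 0 := by clear * - ev n1p n2p n3p q1; omega
                clear * - al a1 s1 kk574 kk575 kk576 kk577 kk578 r579
                obtain ⟨t, ht⟩ : ∃ t, 2 * t = (i + j - 2 * n) := ⟨(i + j - 2 * n) / 2, by omega⟩
                exact al.ninv t (cE (cE (cI (qf a1 al (-1) t (t + (n + k - j)) (by omega)) (ab s1 al 0 (t + (n + k - j)) ((i + 2 * j - n - k) - t) (by omega))) (qf a1 al 0 ((i + 2 * j - n - k) - t) ((i + j - n) - t) (by omega))) (sh al (-1) ((i + j - n) - t) t (by omega)))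
              · by_cases z53 : (n + 2 * Q + 2 * k + i2 + d1) ≤ (5 * i + 3 * l + 4 * m + 7)
                · have kk580 : (n + i2) ≤ (i + l + 2 * m + d1 + 2) := by clear * - z45; omega
                  have kk581 : (n + 2 * Q + 2 * k + i2 + d1) ≤ (5 * i + 3 * l + 4 * m + 7) := by clear * - z53; omega
                  have kk582 : (n + 4 * Q + 2 * k + i2 + d1) ≤ (5 * i + 3 * l + 4 * m + 2 * k3 + 9) := by clear * - b1 z50 z53; omega
                  have kk583 : (n + 2 * Q + i2) ≤ (i + l + 2 * m + 2 * k3 + d1 + 3) := by clear * - b2 z53; omega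
                  have kk584 : (i) ≤ (k3) := by clear * - b0 b2 b4 y19 z49 z50 z51 z52 z53; omega
                  have kk585 : (2 * i + 2 * l + m + 3) ≤ (n + k3) := by clear * - y19 z45 z49 z51; omega
                  have kk586 : (k + k3) ≤ (2 * i + l + 1) := by clear * - b0 b2 b4 y19 z43 z49 z50 z51 z52 z53; omega
                  have kk587 : (i + m + 1) ≤ (k) := by clear * - b0 b2 b4 y19 z49 z52; omega
                  have kk588 : (k3) ≤ (i + d1) := by clear * - b0 b2 b4 y19 z43 z49 z50 z51 z52 z53; omega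
                  have kk589 : (i + 1) ≤ (Q) := by clear * - b0 b2 b4 y19 z49 z50 z51 z52 z53; omega
                  have kk590 : (k3 + d1) ≤ (k + l + 1) := by clear * - b0 b2 b4 y19 z49 z50 z51 z52 z53; omega
                  have kk591 : (i + l + m + d1 + 2) ≤ (n) := by clear * - b0 b2 b4 y19 z49 z50 z51 z52 z53; omega
                  have kk592 : (2 * i + l + m + 3) ≤ (Q + k + d1) := by clear * - b1 z50; omega
                  have kk593 : (3 * i + 2 * l + 2 * m + 5) ≤ (n + Q + k + i2) := by clear * - b0 b2 b4 y19 z49 z50 z51 z52 z53; omega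
                  have r594 : (3 * i + 2 * l + i2 + m - n - k - k3 + 3) % 2 = 0 := by clear * - ev n1p n2p n3p q1; omega
                  have r595 : (i + l + 2 * m + d1 - n - i2 + 3) % 2 = 0 := by clear * - ev n1p n2p n3p q1; omega
                  clear * - al b tt D1 D2 x1 kk580 kk581 kk582 kk583 kk584 kk585 kk586 kk587 kk588 kk589 kk590 kk591 kk592 kk593 r594 r595
                  exact midP al (i + l + 2 * m + d1 - n - i2 + 3) (3 * i + 2 * l + i2 + m - n - k - k3 + 3) (Q + i2 - m - k3 - 1) (Q + i2 - m - k3 - 1) (i + l + m + d1 - n + 2) (by omega) (fun t h1 h2 => (cI (pb (show Par W (k + k3 - i + 1) (k + l + 1) (2 * i + l + m - k - k3 + 2) from fun t h1 h2 => (cE (sh al (-1) t (t + (-n)) (by omega)) (cE (pb b al (-1) (t + (-n)) (t + (i - k)) (by omega)) (pb D2 al 0 (t + (i - k)) (t + (2 * i + l + m - k - k3 + 2)) (by omega))))) al (-1) t (t + (n + k + k3 - 2 * i - l - m - 2)) (by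 omega)) (ab tt al 0 (t + (n + k + k3 - 2 * i - l - m - 2)) ((3 * i + 2 * l + i2 + m - n - k - k3 + 3) - t) (by omega)))) (fun t h1 h2 => (cE (cE (cE (pb D1 al (-1) t (t + (m + k3 - i2 + 1)) (by omega)) (qf x1 al 0 (t + (m + k3 - i2 + 1)) (t + (m + k3 + d1 - i2 + 1)) (by omega))) (pb D2 al 0 (t + (m + k3 + d1 - i2 + 1)) (t + (i + l + 2 * m + d1 - i2 + 3)) (by omega))) (sh al (-1) (t + (i + l + 2 * m + d1 - i2 + 3)) (t + (i + l + 2 * m + d1 - n - i2 + 3)) (by omega))))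
                · by_cases v17 : (Q + j + k + m + 2 * d1) ≤ (n + i + i2 + k3)
                  · have kk596 : (j + 1) ≤ (k) := by clear * - b0 b2 b4 v17 y19 z50 z52 z53; omega
                    have kk597 : (2 * n + 2 * i2 + 2 * k3) ≤ (2 * i + j + k + 2 * l + 4 * m + 2 * d1 + 4) := by clear * - b0 b2 b4 y19 z45 z52; omega
                    have kk598 : (2 * Q + j) ≤ (3 * k) := by clear * - b0 b2 b4 v17 y19 z50 z52 z53; omega
                    have kk599 : (2 * n + 2 * i + 2 * i2 + 2 * k3) ≤ (j + 5 * k + 2 * m + 4 * d1) := by clear * - b0 b2 b4 v17 y19 z50 z52 z53; omega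
                    have kk600 : (k) ≤ (i + l + 1) := by clear * - b0 b4 v17 y21 z43 z45 z50 z51 z52 z53; omega
                    have kk601 : (0) ≤ (i2) := by clear * - b0 v17 y19 z45 z51 z53; omega
                    have kk602 : (k + l + m + 2) ≤ (n + i2) := by clear * - b0 b2 b4 v17 y19 z44 z50 z51 z52 z53; omega
                    have kk603 : (i + m + 1) ≤ (k) := by clear * - b0 b2 b4 v17 y19 z50 z52 z53; omega
                    have kk604 : (i + k + 1) ≤ (Q + j) := by clear * - b0 v17 z49 z50 z51; omega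
                    have kk605 : (i + 1) ≤ (Q) := by clear * - b0 b2 b4 v17 y19 z50 z51 z52 z53; omega
                    have kk606 : (j + d1) ≤ (k + l + 1) := by clear * - b0 b2 b4 v17 y19 z50 z51 z52 z53; omega
                    have kk607 : (d1) ≤ (l + 1) := by clear * - b0 b2 b4 v17 y19 z50 z51 z52 z53; omega
                    have kk608 : (i + k + l + m + d1 + 2) ≤ (n + k3) := by clear * - v17 z49 z50 z51; omega
                    have kk609 : (Q + j + k + m + 2 * d1) ≤ (n + i + i2 + k3) := by clear * - v17; omega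
                    have r610 : (i + i2 + k3 - n - k - m - 1) % 2 = 0 := by clear * - ev n1p n2p n3p q1; omega
                    have r611 : (k - j) % 2 = 0 := by clear * - ev n1p n2p n3p q1; omega
                    clear * - al a2 b tt D2 x1 kk596 kk597 kk598 kk599 kk600 kk601 kk602 kk603 kk604 kk605 kk606 kk607 kk608 kk609 r610 r611
                    exact midP al (k - j) (i + i2 + k3 - n - k - m - 1) (i + i2 + k3 - 2 * k - m - d1) (Q + j + d1 - n - k) (k + d1 - n) (by omega) (fun t h1 h2 => (cE (cE (cI (qf b al (-1) t (t + (n + k - i)) (by omega)) (ab tt al 0 (t + (n + k - i)) ((2 * i + l + i2 - n - k + 1) - t) (by omega))) (qf D2 al (-1) ((2 * i + l + i2 - n - k + 1) - t) ((i + i2 + k3 - k - m - 1) - t) (by omega))) (sh al (-1) ((i + i2 + k3 - k - m - 1) - t) ((i + i2 + k3 - n - k - m - 1) - t) (by omega)))) (fun t h1 h2 => (cE (cE (cE (pb x1 al (-1) t (t + (n - d1)) (by omega))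 (qf a2 al 0 (t + (n - d1)) (t + (n + k - j - d1)) (by omega))) (qf x1 al 0 (t + (n + k - j - d1)) (t + (n + k - j)) (by omega))) (sh al (-1) (t + (n + k - j)) (t + (k - j)) (by omega))))
                  · have kk612 : (j + 1) ≤ (k) := by clear * - b0 b2 b4 y19 z45 z49 z52; omega
                    have kk613 : (2 * Q + j + k + 2 * d1) ≤ (4 * i + 2 * l + 2 * m + 4) := by clear * - b0 b4 v17 y13 y19 z49 z50 z52; omega
                    have kk614 : (4 * Q + 3 * j + 2 * m + 4 * d1) ≤ (2 * n + 2 * i + k + 2 * i2 + 2 * k3) := by clear * - b0 b4 v17 y13 y19 z49 z50 z52; omega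
                    have kk615 : (2 * Q + j) ≤ (3 * k) := by clear * - b0 b4 v17 y13 y19 z49 z50 z52; omega
                    have kk616 : (k) ≤ (i + l + 1) := by clear * - b0 b4 v17 y21 z43 z44 z45 z49 z51 z52; omega
                    have kk617 : (0) ≤ (i2) := by clear * - b0 y19 z45 z49 z51; omega
                    have kk618 : (k + l + m + 2) ≤ (n + i2) := by clear * - b0 b2 b4 y19 z44 z45 z49 z51 z52; omega
                    have kk619 : (i + m + 1) ≤ (k) := by clear * - b0 b2 b4 y19 z49 z52; omega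
                    have kk620 : (i + k + 1) ≤ (Q + j) := by clear * - b0 b5 v17; omega
                    have kk621 : (i + 1) ≤ (Q) := by clear * - b0 b2 b4 v17 y19 z45 z49 z51 z52; omega
                    have kk622 : (j + d1) ≤ (k + l + 1) := by clear * - b0 b2 b4 y19 z45 z49 z51 z52; omega
                    have kk623 : (d1) ≤ (l + 1) := by clear * - b0 b2 b4 y19 z45 z49 z51 z52; omega
                    have kk624 : (n + i + i2 + k3) ≤ (Q + j + k + m + 2 * d1) := by clear * - v17; omega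
                    have kk625 : (2 * i + l + i2 + 2) ≤ (Q + j + d1) := by clear * - z49 z50 z51; omega
                    have r626 : (i + i2 + k3 - n - k - m - 1) % 2 = 0 := by clear * - ev n1p n2p n3p q1; omega
                    have r627 : (k - j) % 2 = 0 := by clear * - ev n1p n2p n3p q1; omega
                    clear * - al a2 b tt D2 x1 kk612 kk613 kk614 kk615 kk616 kk617 kk618 kk619 kk620 kk621 kk622 kk623 kk624 kk625 r626 r627
                    exact midP al (k - j) (i + i2 + k3 - n - k - m - 1) (Q + j + d1 - n - k) (Q + j + d1 - n - k) (k + d1 - n) (by omega) (fun t h1 h2 => (cE (cE (cI (qf b al (-1) t (t + (n + k - i)) (by omega)) (ab tt al 0 (t + (n + k - i)) ((2 * i + l + i2 - n - k + 1) - t) (by omega))) (qf D2 al (-1) ((2 * i + l + i2 - n - k + 1) - t) ((i + i2 + k3 - k - m - 1) - t) (by omega))) (sh al (-1) ((i + i2 + k3 - k - m - 1) - t) ((i + i2 + k3 - n - k -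 m - 1) - t) (by omega)))) (fun t h1 h2 => (cE (cE (cE (pb x1 al (-1) t (t + (n - d1)) (by omega)) (qf a2 al 0 (t + (n - d1)) (t + (n + k - j - d1)) (by omega))) (qf x1 al 0 (t + (n + k - j - d1)) (t + (n + k - j)) (by omega))) (sh al (-1) (t + (n + k - j)) (t + (k - j)) (by omega))))

theorem h9_20p
    (h9_21 : ∀ {W : ℤ → G} {n Q i j k l i2 m k3 : ℤ} (al : AL W n Q) (hy : (0) ≤ (i) ∧ (i) ≤ (j) ∧ (j + 1) ≤ (Q) ∧ (Q) ≤ (k) ∧ (k + 1) ≤ (n) ∧ (Q) ≤ (i + l + 1) ∧ (k + l + 2) ≤ (n) ∧ (0) ≤ (i2) ∧ (i2 + 1) ≤ (Q) ∧ (Q + m + 1) ≤ (n + i2) ∧ (i2) ≤ (m) ∧ (Q) ≤ (i + l + m + 2) ∧ (i + l + m + 3) ≤ (n) ∧ (Q) ≤ (k3) ∧ (k3 + 1) ≤ (n) ∧ (i + m + 2) ≤ (k) ∧ (i) ≤ (i2) ∧ (i2) ≤ (i) ∧ (i + m + 1) ≤ (k3) ∧ (k3) ≤ (i + m + 1) ∧ (k3) ≤ (i + l + m + 1) ∧ (m + k3 + 2) ≤ (n + i2)) (a1 : Par W (0) (j) (k - j)) (a2 : Par W (Q + j - k) (j) (k - j)) (s1 : Ant W (0) (i) (i + j)) (s2 : Ant W (j + 1) (Q) (i + j)) (b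 : Par W (i + 1) (i + l + 1) (k - i)) (c1 : Par W (i2 + 1) (Q) (k + l - i2 + 1)) (c2 : Par W (k + l + 2) (n) (i2 - k - l - 1)) (tt : Ant W (i2 - m) (i2) (i + l + i2 + 1)) (D1 : Par W (Q) (k3) (n + i2 - m - k3 - 1)) (D2 : Par W (i + l + m + 3) (n) (k3 - i - l - m - 2)) {L : ℤ} (mx : ∀ a b g, 0 < g → g < n → Par W a b g → b - a ≤ L) (hL : L ≤ (n - j - 3) ∧ L ≤ (n + Q - k - 3) ∧ L ≤ (n - l - 3) ∧ L ≤ (n + i - k - 2)) (bd0 : Bd W n L (j) (i) (k)) (n1 : Nd W (j) (i) (k)) (n2 : Nd W (i + l + 1) (i2) (k + l + 1)) (n3 : Nd W (n + i2 - m - 1) (i + l + m + 2) (k3)) (d1 : ℤ) (q1 : d1 % 2 = 0) (x1 : Par W (i + 1) (k + l - d1 + 1) d1) (b0 : (i + l + 1) ≤ (k + d1)) (b1 : (d1) ≤ (l)) (b2 : (k + 2 * l + 3) ≤ (n + i + d1)) (b3 : (2 * i + j + 1) ≤ (k)) (b4 : (2 * l + 3) ≤ (n)) (b5 : (k + 2 * m + 1) ≤ (n + j)) (b6 : (i + l + 2 * m + 2) ≤ (n + i2)) (b7 : (n + k3) ≤ (2 * i + 2 * l + i2 + m + 4)) (b8 : (k)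 ≤ (i + 2 * j)), False)
    (h9_33 : ∀ {W : ℤ → G} {n Q i j k l i2 m k3 : ℤ} (al : AL W n Q) (hy : (0) ≤ (i) ∧ (i) ≤ (j) ∧ (j + 1) ≤ (Q) ∧ (Q) ≤ (k) ∧ (k + 1) ≤ (n) ∧ (Q) ≤ (i + l + 1) ∧ (k + l + 2) ≤ (n) ∧ (0) ≤ (i2) ∧ (i2 + 1) ≤ (Q) ∧ (Q + m + 1) ≤ (n + i2) ∧ (i2) ≤ (m) ∧ (Q) ≤ (i + l + m + 2) ∧ (i + l + m + 3) ≤ (n) ∧ (Q) ≤ (k3) ∧ (k3 + 1) ≤ (n) ∧ (i + m + 2) ≤ (k) ∧ (i) ≤ (i2) ∧ (i2) ≤ (i) ∧ (i + m + 1) ≤ (k3) ∧ (k3) ≤ (i + m + 1) ∧ (k3) ≤ (i + l + m + 1) ∧ (m + k3 + 2) ≤ (n + i2)) (a1 : Par W (0) (j) (k - j)) (a2 : Par W (Q + j - k) (j) (k - j)) (s1 : Ant W (0) (i) (i + j)) (s2 : Ant W (j + 1) (Q) (i + j)) (b : Par W (i + 1) (i + l + 1) (k - i)) (c1 : Par W (i2 + 1) (Q) (k + l - i2 + 1)) (c2 : Par W (k + l + 2) (n) (i2 - k - l - 1)) (tt : Ant W (i2 - m) (i2) (i + l + i2 + 1)) (D1 : Par W (Q) (k3) (n + i2 - m - k3 - 1)) (D2 : Par W (i + l + m + 3) (n) (k3 - i - l - m - 2)) {L : ℤ}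 (mx : ∀ a b g, 0 < g → g < n → Par W a b g → b - a ≤ L) (hL : L ≤ (n - j - 3) ∧ L ≤ (n + Q - k - 3) ∧ L ≤ (n - l - 3) ∧ L ≤ (n + i - k - 2)) (bd0 : Bd W n L (j) (i) (k)) (n1 : Nd W (j) (i) (k)) (n2 : Nd W (i + l + 1) (i2) (k + l + 1)) (n3 : Nd W (n + i2 - m - 1) (i + l + m + 2) (k3)) (d1 : ℤ) (q1 : d1 % 2 = 0) (x1 : Par W (i + 1) (k + l - d1 + 1) d1) (b0 : (i + l + 1) ≤ (k + d1)) (b1 : (d1) ≤ (l)) (b2 : (k + 2 * l + 3) ≤ (n + i + d1)) (b3 : (2 * l + 3) ≤ (n)) (b4 : (k + 2 * m + 1) ≤ (n + j)) (b5 : (i + k + 2 * m) ≤ (2 * j + 2 * k3)) (b6 : (i + i2 + m + 2) ≤ (j + k3)) (b7 : (i + l + 2 * m + 2) ≤ (n + i2)) (b8 : (n + k3) ≤ (2 * i + 2 * l + i2 + m + 4)) (b9 : (i + 2 * j + 1) ≤ (k)), False)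
    {W : ℤ → G} {n Q i j k l i2 m k3 : ℤ} (al : AL W n Q)
    (hy : (0) ≤ (i) ∧ (i) ≤ (j) ∧ (j + 1) ≤ (Q) ∧ (Q) ≤ (k) ∧ (k + 1) ≤ (n) ∧ (Q) ≤ (i + l + 1) ∧ (k + l + 2) ≤ (n) ∧ (0) ≤ (i2) ∧ (i2 + 1) ≤ (Q) ∧ (Q + m + 1) ≤ (n + i2) ∧ (i2) ≤ (m) ∧ (Q) ≤ (i + l + m + 2) ∧ (i + l + m + 3) ≤ (n) ∧ (Q) ≤ (k3) ∧ (k3 + 1) ≤ (n) ∧ (i + m + 2) ≤ (k) ∧ (i) ≤ (i2) ∧ (i2) ≤ (i) ∧ (i + m + 1) ≤ (k3) ∧ (k3) ≤ (i + m + 1) ∧ (k3) ≤ (i + l + m + 1) ∧ (m + k3 + 2) ≤ (n + i2))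
    (a1 : Par W (0) (j) (k - j))
    (a2 : Par W (Q + j - k) (j) (k - j))
    (s1 : Ant W (0) (i) (i + j))
    (s2 : Ant W (j + 1) (Q) (i + j))
    (b : Par W (i + 1) (i + l + 1) (k - i))
    (c1 : Par W (i2 + 1) (Q) (k + l - i2 + 1))
    (c2 : Par W (k + l + 2) (n) (i2 - k - l - 1))
    (tt : Ant W (i2 - m) (i2) (i + l + i2 + 1))
    (D1 : Par W (Q) (k3) (n + i2 - m - k3 - 1))
    (D2 : Par W (i + l + m + 3) (n) (k3 - i - l - m - 2))
    {L : ℤ} (mx : ∀ a b g, 0 < g → g < n → Par W a b g → b - a ≤ L)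
    (hL : L ≤ (n - j - 3) ∧ L ≤ (n + Q - k - 3) ∧ L ≤ (n - l - 3) ∧ L ≤ (n + i - k - 2))
    (bd0 : Bd W n L (j) (i) (k))
    (n1 : Nd W (j) (i) (k))
    (n2 : Nd W (i + l + 1) (i2) (k + l + 1))
    (n3 : Nd W (n + i2 - m - 1) (i + l + m + 2) (k3))
    (d1 : ℤ) (q1 : d1 % 2 = 0) (x1 : Par W (i + 1) (k + l - d1 + 1) d1)
    (b0 : (i + l + 1) ≤ (k + d1))
    (b1 : (d1) ≤ (l))
    (b2 : (k + 2 * l + 3) ≤ (n + i + d1))
    (b3 : (2 * i + j + 1) ≤ (k))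
    (b4 : (2 * l + 3) ≤ (n))
    (b5 : (k + 2 * m + 1) ≤ (n + j))
    (b6 : (i + k + 2 * m) ≤ (2 * j + 2 * k3))
    (b7 : (i + i2 + m + 2) ≤ (j + k3))
    (b8 : (i + l + 2 * m + 2) ≤ (n + i2))
    (b9 : (n + k3) ≤ (2 * i + 2 * l + i2 + m + 4)) : False := by
  have ev := al.ev
  obtain ⟨y0, y1, y2, y3, y4, y5, y6, y7, y8, y9, y10, y11, y12, y13, y14, y15, y16, y17, y18, y19, y20, y21⟩ := id hy
  have n1p := And.intro n1.p1 n1.p2
  have n2p := And.intro n2.p1 n2.p2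
  have n3p := And.intro n3.p1 n3.p2
  by_cases z30 : (k) ≤ (i + 2 * j)
  · exact h9_21 al hy a1 a2 s1 s2 b c1 c2 tt D1 D2 mx hL bd0 n1 n2 n3 d1 q1 x1 (by clear * - b0; omega) (by clear * - b1; omega) (by clear * - b2; omega) (by clear * - b3; omega) (by clear * - b4; omega) (by clear * - b5; omega) (by clear * - b8; omega) (by clear * - b9; omega) (by clear * - z30; omega)
  · exact h9_33 al hy a1 a2 s1 s2 b c1 c2 tt D1 D2 mx hL bd0 n1 n2 n3 d1 q1 x1 (by clear * - b0; omega) (by clear * - b1; omega) (by clear * - b2; omega) (by clear * - b4; omega) (by clear * - b5; omega) (by clear * - b6; omega) (by clear * - b7; omega) (by clear * - b8; omega) (by clear * - b9; omega) (by clear * - z30; omega)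

theorem h9_44p
    {W : ℤ → G} {n Q i j k l i2 m k3 : ℤ} (al : AL W n Q)
    (hy : (0) ≤ (i) ∧ (i) ≤ (j) ∧ (j + 1) ≤ (Q) ∧ (Q) ≤ (k) ∧ (k + 1) ≤ (n) ∧ (Q) ≤ (i + l + 1) ∧ (k + l + 2) ≤ (n) ∧ (0) ≤ (i2) ∧ (i2 + 1) ≤ (Q) ∧ (Q + m + 1) ≤ (n + i2) ∧ (i2) ≤ (m) ∧ (Q) ≤ (i + l + m + 2) ∧ (i + l + m + 3) ≤ (n) ∧ (Q) ≤ (k3) ∧ (k3 + 1) ≤ (n) ∧ (i + m + 2) ≤ (k) ∧ (i) ≤ (i2) ∧ (i2) ≤ (i) ∧ (i + m + 1) ≤ (k3) ∧ (k3) ≤ (i + m + 1) ∧ (k3) ≤ (i + l + m + 1) ∧ (m + k3 + 2) ≤ (n + i2))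
    (a1 : Par W (0) (j) (k - j))
    (a2 : Par W (Q + j - k) (j) (k - j))
    (s1 : Ant W (0) (i) (i + j))
    (s2 : Ant W (j + 1) (Q) (i + j))
    (b : Par W (i + 1) (i + l + 1) (k - i))
    (c1 : Par W (i2 + 1) (Q) (k + l - i2 + 1))
    (c2 : Par W (k + l + 2) (n) (i2 - k - l - 1))
    (tt : Ant W (i2 - m) (i2) (i + l + i2 + 1))
    (D1 : Par W (Q) (k3) (n + i2 - m - k3 - 1))
    (D2 : Par W (i + l + m + 3) (n) (k3 - i - l - m - 2))
    {L : ℤ} (mx : ∀ a b g, 0 < g → g < n → Par W a b g → b - a ≤ L)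
    (hL : L ≤ (n - j - 3) ∧ L ≤ (n + Q - k - 3) ∧ L ≤ (n - l - 3) ∧ L ≤ (n + i - k - 2))
    (bd0 : Bd W n L (j) (i) (k))
    (n1 : Nd W (j) (i) (k))
    (n2 : Nd W (i + l + 1) (i2) (k + l + 1))
    (n3 : Nd W (n + i2 - m - 1) (i + l + m + 2) (k3))
    (d1 : ℤ) (q1 : d1 % 2 = 0) (x1 : Par W (i + 1) (k + l - d1 + 1) d1)
    (b0 : (i + l + 1) ≤ (k + d1))
    (b1 : (d1) ≤ (l))
    (b2 : (k + 2 * l + 3) ≤ (n + i + d1))
    (b3 : (2 * l + 3) ≤ (n))
    (b4 : (k + 2 * m + 1) ≤ (n + j))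
    (b5 : (2 * j + 2 * k3 + 1) ≤ (i + k + 2 * m))
    (b6 : (n + k3) ≤ (2 * i + 2 * l + i2 + m + 4))
    (b7 : (n + i + j + i2) ≤ (2 * Q + k + l)) : False := by
  have ev := al.ev
  obtain ⟨y0, y1, y2, y3, y4, y5, y6, y7, y8, y9, y10, y11, y12, y13, y14, y15, y16, y17, y18, y19, y20, y21⟩ := id hy
  have n1p := And.intro n1.p1 n1.p2
  have n2p := And.intro n2.p1 n2.p2
  have n3p := And.intro n3.p1 n3.p2
  by_cases z89 : (j + k + l + 3) ≤ (n + i + i2)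
  · have kk980 : (j + k + l + 3) ≤ (n + i + i2) := by clear * - z89; omega
    have kk981 : (n + i + j + i2) ≤ (2 * Q + k + l) := by clear * - b7; omega
    have kk982 : (i2) ≤ (j) := by clear * - y1 y17; omega
    have r983 : (i + j + k + l - n - i2 + 1) % 2 = 0 := by clear * - ev n1p n2p n3p q1; omega
    clear * - al s2 c1 kk980 kk981 kk982 r983
    obtain ⟨t, ht⟩ : ∃ t, 2 * t = (i + j + k + l - n - i2 + 1) := ⟨(i + j + k + l - n - i2 + 1) / 2, by omega⟩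
    exact al.ninv t (cI (pb c1 al (-1) t (t + (n + i2 - k - l - 1)) (by omega)) (qa s2 al 0 (t + (n + i2 - k - l - 1)) t (by omega)))
  · by_cases z90 : (n + i2) ≤ (i + l + 2 * m + 1)
    · have kk984 : (n + i2) ≤ (i + l + 2 * m + 1) := by clear * - z90; omega
      have kk985 : (i + l + 2) ≤ (n + i2) := by clear * - b0 b1 b2 y16; omega
      have r986 : (i + l + i2 - 3 * n + 1) % 2 = 0 := by clear * - ev n1p n2p n3p q1; omega
      clear * - al tt kk984 kk985 r986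
      obtain ⟨t, ht⟩ : ∃ t, 2 * t = (i + l + i2 - 3 * n + 1) := ⟨(i + l + i2 - 3 * n + 1) / 2, by omega⟩
      exact al.ninv t (cE (qa tt al (-1) t ((i + l + i2 - n + 1) - t) (by omega)) (sh al (-2) ((i + l + i2 - n + 1) - t) t (by omega)))
    · by_cases v27 : (i + l + 1) ≤ (k)
      · have kk987 : (2 * k + 2) ≤ (n + 2 * i2) := by clear * - b6 y16 y18 y6 ev n1p n2p n3p q1; omega
        have kk988 : (2 * k + 1) ≤ (n + 2 * i) := by clear * - b6 y17 y18 y6; omega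
        have kk989 : (i + l + 1) ≤ (k) := by clear * - v27; omega
        have kk990 : (n + i + 2 * i2) ≤ (Q + 2 * k) := by clear * - b7 v27 y17 z89; omega
        have kk991 : (i + m + 1) ≤ (k) := by clear * - b3 b4 b5 b6 v27 y18 z89; omega
        have kk992 : (n + i2) ≤ (k + l + m + 2) := by clear * - b7 y13 y19 z89; omega
        have r993 : (3 * n + 2 * i + 2 * i2 - 2 * k) % 2 = 0 := by clear * - ev n1p n2p n3p q1; omega
        clear * - al b c1 tt kk987 kk988 kk989 kk990 kk991 kk992 r993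
        obtain ⟨t, ht⟩ : ∃ t, 2 * t = (3 * n + 2 * i + 2 * i2 - 2 * k) := ⟨(3 * n + 2 * i + 2 * i2 - 2 * k) / 2, by omega⟩
        exact al.ninv t (cE (cE (cI (qf b al 1 t (t + (k - n - i)) (by omega)) (ab tt al 0 (t + (k - n - i)) ((n + 2 * i + l + i2 - k + 1) - t) (by omega))) (pb c1 al (-1) ((n + 2 * i + l + i2 - k + 1) - t) ((2 * n + 2 * i + 2 * i2 - 2 * k) - t) (by omega))) (sh al 1 ((2 * n + 2 * i + 2 * i2 - 2 * k) - t) t (by omega)))
      · have kk994 : (2 * i + 2 * l + 4) ≤ (n + 2 * i2) := by clear * - b3 y16 ev n1p n2p n3p q1; omega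
        have kk995 : (2 * k + 1) ≤ (n + 2 * i) := by clear * - b3 v27; omega
        have kk996 : (k) ≤ (i + l + 1) := by clear * - v27; omega
        have kk997 : (n + 2 * i2) ≤ (Q + k + l + 1) := by clear * - b7 y17 z89; omega
        have kk998 : (i + m + 1) ≤ (k) := by clear * - b3 b5 b6 v27 y18 z89 z90; omega
        have kk999 : (n + i2) ≤ (k + l + m + 2) := by clear * - b7 y13 y19 z89; omega
        have r1000 : (3 * n + 2 * i + 2 * i2 - 2 * k) % 2 = 0 := by clear * - ev n1p n2p n3p q1; omega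
        clear * - al b c1 tt kk994 kk995 kk996 kk997 kk998 kk999 r1000
        obtain ⟨t, ht⟩ : ∃ t, 2 * t = (3 * n + 2 * i + 2 * i2 - 2 * k) := ⟨(3 * n + 2 * i + 2 * i2 - 2 * k) / 2, by omega⟩
        exact al.ninv t (cE (cE (cI (qf b al 1 t (t + (k - n - i)) (by omega)) (ab tt al 0 (t + (k - n - i)) ((n + 2 * i + l + i2 - k + 1) - t) (by omega))) (pb c1 al (-1) ((n + 2 * i + l + i2 - k + 1) - t) ((2 * n + 2 * i + 2 * i2 - 2 * k) - t) (by omega))) (sh al 1 ((2 * n + 2 * i + 2 * i2 - 2 * k) - t) t (by omega)))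

theorem h9_49p
    {W : ℤ → G} {n Q i j k l i2 m k3 : ℤ} (al : AL W n Q)
    (hy : (0) ≤ (i) ∧ (i) ≤ (j) ∧ (j + 1) ≤ (Q) ∧ (Q) ≤ (k) ∧ (k + 1) ≤ (n) ∧ (Q) ≤ (i + l + 1) ∧ (k + l + 2) ≤ (n) ∧ (0) ≤ (i2) ∧ (i2 + 1) ≤ (Q) ∧ (Q + m + 1) ≤ (n + i2) ∧ (i2) ≤ (m) ∧ (Q) ≤ (i + l + m + 2) ∧ (i + l + m + 3) ≤ (n) ∧ (Q) ≤ (k3) ∧ (k3 + 1) ≤ (n) ∧ (i + m + 2) ≤ (k) ∧ (i) ≤ (i2) ∧ (i2) ≤ (i) ∧ (i + m + 1) ≤ (k3) ∧ (k3) ≤ (i + m + 1) ∧ (k3) ≤ (i + l + m + 1) ∧ (m + k3 + 2) ≤ (n + i2))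
    (a1 : Par W (0) (j) (k - j))
    (a2 : Par W (Q + j - k) (j) (k - j))
    (s1 : Ant W (0) (i) (i + j))
    (s2 : Ant W (j + 1) (Q) (i + j))
    (b : Par W (i + 1) (i + l + 1) (k - i))
    (c1 : Par W (i2 + 1) (Q) (k + l - i2 + 1))
    (c2 : Par W (k + l + 2) (n) (i2 - k - l - 1))
    (tt : Ant W (i2 - m) (i2) (i + l + i2 + 1))
    (D1 : Par W (Q) (k3) (n + i2 - m - k3 - 1))
    (D2 : Par W (i + l + m + 3) (n) (k3 - i - l - m - 2))
    {L : ℤ} (mx : ∀ a b g, 0 < g → g < n → Par W a b g → b - a ≤ L)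
    (hL : L ≤ (n - j - 3) ∧ L ≤ (n + Q - k - 3) ∧ L ≤ (n - l - 3) ∧ L ≤ (n + i - k - 2))
    (bd0 : Bd W n L (j) (i) (k))
    (n1 : Nd W (j) (i) (k))
    (n2 : Nd W (i + l + 1) (i2) (k + l + 1))
    (n3 : Nd W (n + i2 - m - 1) (i + l + m + 2) (k3))
    (d1 : ℤ) (q1 : d1 % 2 = 0) (x1 : Par W (i + 1) (k + l - d1 + 1) d1)
    (b0 : (d1) ≤ (l))
    (b1 : (k + 2 * l + 3) ≤ (n + i + d1))
    (b2 : (2 * l + 3) ≤ (n))
    (b3 : (k + 2 * m + 1) ≤ (n + j))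
    (b4 : (2 * j + 2 * k3 + 1) ≤ (i + k + 2 * m))
    (b5 : (n + k3) ≤ (2 * i + 2 * l + i2 + m + 4))
    (b6 : (2 * Q + k + l + 1) ≤ (n + i + j + i2))
    (b7 : (i + l + 2 * m + 3) ≤ (n + i2))
    (b8 : (i + l + m + 2) ≤ (2 * j + k3 + d1))
    (b9 : (k + i2 + d1) ≤ (i + j + l + 2 * m + 2))
    (b10 : (2 * Q + j + d1) ≤ (i + k + l + i2 + 1)) : False := by
  have ev := al.ev
  obtain ⟨y0, y1, y2, y3, y4, y5, y6, y7, y8, y9, y10, y11, y12, y13, y14, y15, y16, y17, y18, y19, y20, y21⟩ := id hy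
  have n1p := And.intro n1.p1 n1.p2
  have n2p := And.intro n2.p1 n2.p2
  have n3p := And.intro n3.p1 n3.p2
  by_cases z95 : (i + j + l + 2) ≤ (k + i2 + d1)
  · by_cases v28 : (k + i2) ≤ (Q + j + m)
    · have kk1004 : (i + j + l + 3) ≤ (k + i2 + d1) := by clear * - z95 ev n1p n2p n3p q1; omega
      have kk1005 : (2 * Q + j + d1) ≤ (i + k + l + i2 + 2) := by clear * - b10; omega
      have kk1006 : (i2 + d1) ≤ (j + l + 1) := by clear * - b0 y1 y17; omega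
      have kk1007 : (i2) ≤ (j) := by clear * - y1 y17; omega
      have kk1008 : (i + 1) ≤ (Q) := by clear * - y16 y8; omega
      have kk1009 : (k + i2) ≤ (Q + j + m) := by clear * - v28; omega
      have r1010 : (i + k + l + i2 + d1 - 2 * n - j + 1) % 2 = 0 := by clear * - ev n1p n2p n3p q1; omega
      clear * - al a2 tt x1 kk1004 kk1005 kk1006 kk1007 kk1008 kk1009 r1010
      obtain ⟨t, ht⟩ : ∃ t, 2 * t = (i + k + l + i2 + d1 - 2 * n - j + 1) := ⟨(i + k + l + i2 + d1 - 2 * n - j + 1) / 2, by omega⟩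
      exact al.ninv t (cE (cE (cE (ab tt al (-1) t ((i + l + i2 - n + 1) - t) (by omega)) (qf a2 al 0 ((i + l + i2 - n + 1) - t) ((i + k + l + i2 - n - j + 1) - t) (by omega))) (qf x1 al 0 ((i + k + l + i2 - n - j + 1) - t) ((i + k + l + i2 + d1 - n - j + 1) - t) (by omega))) (sh al (-1) ((i + k + l + i2 + d1 - n - j + 1) - t) t (by omega)))
    · have kk1011 : (i + j + l + 3) ≤ (k + i2 + d1) := by clear * - z95 ev n1p n2p n3p q1; omega
      have kk1012 : (k + i2 + d1) ≤ (i + j + l + 2 * m + 2) := by clear * - b9; omega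
      have kk1013 : (i2 + d1) ≤ (j + l + 1) := by clear * - b0 y1 y17; omega
      have kk1014 : (i2) ≤ (j) := by clear * - y1 y17; omega
      have kk1015 : (i + j + m + 1) ≤ (k + i2) := by clear * - v28 y16 y8; omega
      have kk1016 : (Q + j + m) ≤ (k + i2) := by clear * - v28; omega
      have r1017 : (i + k + l + i2 + d1 - 2 * n - j + 1) % 2 = 0 := by clear * - ev n1p n2p n3p q1; omega
      clear * - al a2 tt x1 kk1011 kk1012 kk1013 kk1014 kk1015 kk1016 r1017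
      obtain ⟨t, ht⟩ : ∃ t, 2 * t = (i + k + l + i2 + d1 - 2 * n - j + 1) := ⟨(i + k + l + i2 + d1 - 2 * n - j + 1) / 2, by omega⟩
      exact al.ninv t (cE (cE (cE (ab tt al (-1) t ((i + l + i2 - n + 1) - t) (by omega)) (qf a2 al 0 ((i + l + i2 - n + 1) - t) ((i + k + l + i2 - n - j + 1) - t) (by omega))) (qf x1 al 0 ((i + k + l + i2 - n - j + 1) - t) ((i + k + l + i2 + d1 - n - j + 1) - t) (by omega))) (sh al (-1) ((i + k + l + i2 + d1 - n - j + 1) - t) t (by omega)))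
  · by_cases z96 : (n + i2) ≤ (2 * k + l + 1)
    · have kk1018 : (2 * k + l + 2) ≤ (n + j + i2) := by clear * - b1 y16 z95; omega
      have kk1019 : (j + i2) ≤ (2 * k + l) := by clear * - b2 b3 b4 b5 b8 b9 y18 z95; omega
      have kk1020 : (j + i2 + 1) ≤ (k) := by clear * - b1 b4 b7 b8 b9 y18 z95 z96; omega
      have kk1021 : (n + i2) ≤ (2 * k + l + 1) := by clear * - z96; omega
      clear * - al a1 c2 kk1018 kk1019 kk1020 kk1021
      exact al.ubP (n + j + i2 - 2 * k - l - 1) (by omega) (by omega) fun t h1 h2 => (cE (qf c2 al (-1) t (t + (n + i2 - k - l - 1)) (by omega)) (pb a1 al 0 (t + (n + i2 - k - l - 1)) (t + (n + j + i2 - 2 * k - l - 1)) (by omega)))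
    · by_cases z97 : (n + k + i2 + k3) ≤ (3 * i + 2 * l + 3 * m + 4)
      · have kk1022 : (3 * i + 2 * l + i2 + m + 5) ≤ (n + k + k3) := by clear * - b2 b4 b8 y16 y18 z95; omega
        have kk1023 : (n + k + i2 + k3) ≤ (3 * i + 2 * l + 3 * m + 4) := by clear * - z97; omega
        have kk1024 : (k) ≤ (i + l + 1) := by clear * - b7 y18 z97; omega
        have kk1025 : (0) ≤ (i2) := by clear * - b2 b5 y16 y18; omega
        have kk1026 : (k + l + m + 2) ≤ (n + i2) := by clear * - b2 b5 b7 y17 y18 z96; omega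
        have kk1027 : (i + m + 1) ≤ (k) := by clear * - y15; omega
        have r1028 : (i + i2 + k3 - n - k - m - 1) % 2 = 0 := by clear * - ev n1p n2p n3p q1; omega
        clear * - al b tt D2 kk1022 kk1023 kk1024 kk1025 kk1026 kk1027 r1028
        obtain ⟨t, ht⟩ : ∃ t, 2 * t = (i + i2 + k3 - n - k - m - 1) := ⟨(i + i2 + k3 - n - k - m - 1) / 2, by omega⟩
        exact al.ninv t (cE (cE (cI (qf b al (-1) t (t + (n + k - i)) (by omega)) (ab tt al 0 (t + (n + k - i)) ((2 * i + l + i2 - n - k + 1) - t) (by omega))) (qf D2 al (-1) ((2 * i + l + i2 - n - k + 1) - t) ((i + i2 + k3 - k - m - 1) - t) (by omega))) (sh al (-1) ((i + i2 + k3 - k - m - 1) - t) t (by omega)))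
      · by_cases z98 : (Q + j + m) ≤ (k + i2)
        · have kk1029 : (i + 1) ≤ (k) := by clear * - b4 b5 b8 b9 y18 z95 z97; omega
          have kk1030 : (0) ≤ (l) := by clear * - b3 b4 b5 b8 b9 y18; omega
          have kk1031 : (k3) ≤ (i + m + 1) := by clear * - y19; omega
          have kk1032 : (i + m + 1) ≤ (k3) := by clear * - y18; omega
          have kk1033 : (i2) ≤ (i) := by clear * - y17; omega
          have kk1034 : (i) ≤ (i2) := by clear * - y16; omega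
          have kk1035 : (k3 + 1) ≤ (k) := by clear * - b4 b5 b8 y18 z95 z97; omega
          have kk1036 : (i + k + l + m + 3) ≤ (n + k3) := by clear * - b2 b4 b5 b8 y18 z95 z96; omega
          have kk1037 : (i2) ≤ (j) := by clear * - b4 b8 y18 z95; omega
          have kk1038 : (Q + j + m) ≤ (k + i2) := by clear * - z98; omega
          have kk1039 : (0) ≤ (l + m + 2) := by clear * - b2 b4 b5 b8 b9 y18 z95 z96 z97; omega
          have kk1040 : (i) ≤ (k3) := by clear * - b2 b5 y10 y16 y18; omega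
          have kk1041 : (k + l + 1) ≤ (n) := by clear * - b2 b4 b5 b8 y18 z95 z96; omega
          have kk1042 : (k3) ≤ (i + l + m + 2) := by clear * - y20; omega
          have kk1043 : (0) ≤ (l + 1) := by clear * - b3 b4 b5 b8 b9 y18; omega
          have kk1044 : (i2) ≤ (j + l + 1) := by clear * - b3 b4 b5 b8 b9 y18 z95; omega
          have kk1045 : (i + j + m + 1) ≤ (k + i2) := by clear * - b4 b5 y18 z97; omega
          have r1046 : (k3 - i - l - m - 2) % 2 = 0 := by clear * - ev n1p n2p n3p q1; omega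
          have r1047 : (k - i) % 2 = 0 := by clear * - ev n1p n2p n3p q1; omega
          have r1048 : (i + k + l + i2 - 2 * n - j + 1) % 2 = 0 := by clear * - ev n1p n2p n3p q1; omega
          clear * - al a2 b tt D2 n1 n2 kk1029 kk1030 kk1031 kk1032 kk1033 kk1034 kk1035 kk1036 kk1037 kk1038 kk1039 kk1040 kk1041 kk1042 kk1043 kk1044 kk1045 r1046 r1047 r1048
          exact ivt al.ninv (i - n + 1) (i + l - n + 1) (k - i) (i + l + m - n + 3) (k + l - n + 1) (k3 - i - l - m - 2) (i + l - n + 1) (k - n) 1 (fun t h1 h2 => (cE (qf b al (-1) t (t + (n + k - i)) (by omega)) (sh al (-1) (t + (n + k - i)) (t + (k - i)) (by omega)))) (fun t h1 h2 => (cE (sh al 1 t (t + (n)) (by omega)) (cE (qf D2 al 0 (t + (n)) (t + (n + k3 - i - l - m - 2)) (by omega)) (sh al (-1) (t + (n + k3 - i - l - m - 2)) (t + (k3 - i - l - m - 2)) (by omega))))) (fun hh => n1.f0 (rEE (cE (qf (uP (j) (i + l + 1) (i + l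 - j + 1) (by omega) (lat n1.r1 n2.r1 (sh al 0 (i) (i2) (by omega)) (iNN (pb D2 al 0 (k) (k + l + 1) (by omega))))) al 0 (j) (i + l + 1) (by omega)) (sh al (-1) (i + l + 1) (i + l - n + 1) (by omega))) (sh al (-1) (k) (k - n) (by omega)) (Eq.symm hh))) (by omega) (i + l - n + 2) (i + l + m - n + 2) (i + k + l + i2 - 2 * n - j + 1) 0 (-1) (fun t h1 h2 => (cI (sh al 1 t (t + (n)) (by omega)) (cE (cE (ab tt al 0 (t + (n)) ((i + l + i2 - n + 1) - t) (by omega)) (qf a2 al 0 ((i + l + i2 - n + 1) - t) ((i + k + l + i2 - n - j + 1) - t) (by omega))) (sh al (-1) ((i + k + l + i2 - n - j + 1) - t) ((i + k + l + i2 - 2 * n - j + 1) - t) (by omega))))) (by omega)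
        · by_cases z99 : (k + 1) ≤ (i + d1)
          · by_cases z100 : (n + 2 * i + d1) ≤ (2 * k + 2 * l + 2)
            · have kk1049 : (d1) ≤ (l) := by clear * - b0; omega
              have kk1050 : (i + d1 + 1) ≤ (n + k) := by clear * - b0 b2 z100 z99; omega
              have kk1051 : (k + 1) ≤ (i + d1) := by clear * - z99; omega
              have kk1052 : (n + 2 * i + d1) ≤ (2 * k + 2 * l + 2) := by clear * - z100; omega
              have kk1053 : (k) ≤ (i + d1) := by clear * - z99; omega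
              clear * - al b x1 mx hL kk1049 kk1050 kk1051 kk1052 kk1053
              have := mx (2 * i + d1 - n - k + 1) ((2 * i + d1 - n - k + 1) + (n - l - 2)) (n + k - i - d1) (by omega) (by omega) (mgP (b := (i + l - n + 1)) (le_refl _) (fun t h1 h2 => (pb (show Par W (i + 1) (k + l - d1 + 1) (i + d1 - k) from fun t h1 h2 => (cE (sh al (-1) t (t + (-n)) (by omega)) (cE (qf x1 al (-1) (t + (-n)) (t + (d1)) (by omega)) (pb b al 0 (t + (d1)) (t + (i + d1 - k)) (by omega))))) al (-1) t (t + (n + k - i - d1)) (by omega))) (fun t h1 h2 => (pb (show Par W (k + 1) (2 * k + l - i - d1 + 1) (i + d1 - k) from fun t h1 h2 => (cE (sh al (-1) t (t + (-n)) (by omega)) (cE (pb b al (-1) (t + (-n)) (t + (i - k)) (by omega)) (qf x1 al 0 (t + (i - k)) (t + (i + d1 - k)) (by omega))))) al (-1) t (t + (n + k - i - d1)) (by omega))))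
              omega
            · by_cases z101 : (n + k3) ≤ (i + k + l + m + d1 + 2)
              · have kk1054 : (i + k + l + m + d1 + 3) ≤ (n + j + k3) := by clear * - b2 y16 y18 z95; omega
                have kk1055 : (j + k3) ≤ (i + k + l + m + d1 + 1) := by clear * - b10 b4 b5 y18 z100 z101 z95 z97 z98 z99; omega
                have kk1056 : (j + k3 + 1) ≤ (k + d1) := by clear * - b10 b4 y18 z101 z95 z97 z98 z99; omega
                have kk1057 : (i + j + 1) ≤ (k) := by clear * - b10 b4 y18 z101 z97 z98; omega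
                have kk1058 : (n + k3) ≤ (i + k + l + m + d1 + 2) := by clear * - z101; omega
                have kk1059 : (n + k3) ≤ (i + k + 2 * l + m + 3) := by clear * - b0 z101; omega
                clear * - al a1 D2 x1 kk1054 kk1055 kk1056 kk1057 kk1058 kk1059
                exact al.ubP (n + j + k3 - i - k - l - m - d1 - 2) (by omega) (by omega) fun t h1 h2 => (cE (sh al 1 t (t + (n)) (by omega)) (cE (cE (qf D2 al 0 (t + (n)) (t + (n + k3 - i - l - m - 2)) (by omega)) (pb x1 al 0 (t + (n + k3 - i - l - m - 2)) (t + (n + k3 - i - l - m - d1 - 2)) (by omega))) (pb a1 al 0 (t + (n + k3 - i - l - m - d1 - 2)) (t + (n + j + k3 - i - k - l - m - d1 - 2)) (by omega))))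
              · have kk1060 : (2 * i + l + m + 3) ≤ (k + k3 + d1) := by clear * - b4 b8 y18; omega
                have kk1061 : (k + k3 + d1) ≤ (2 * i + l + 2 * i2 + m + 2) := by clear * - b4 b5 b8 z101; omega
                have kk1062 : (2 * i + 2 * j + l + m + k3 + 4) ≤ (3 * k + 2 * i2 + d1) := by clear * - b4 b5 b8 y18 z97; omega
                have kk1063 : (2 * i + l + m + 4) ≤ (k + k3 + d1) := by clear * - b4 b8 y18; omega
                have kk1064 : (i) ≤ (k3) := by clear * - b4 b5 y13 y18 z97 z98; omega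
                have kk1065 : (i + k + 2 * l + m + 3) ≤ (n + k3 + d1) := by clear * - b4 b8 y18 z101 z99; omega
                have kk1066 : (i2 + d1) ≤ (j + l + 1) := by clear * - b4 b5 b8 y18 z101 z95; omega
                have kk1067 : (i2) ≤ (j) := by clear * - b4 b8 y18 z95; omega
                have kk1068 : (i + j + m + 1) ≤ (k + i2) := by clear * - b4 b5 y18 z97; omega
                have kk1069 : (i2) ≤ (m) := by clear * - b4 b8 y13 y18 z95 z98; omega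
                have kk1070 : (k) ≤ (i + l + m + 2) := by clear * - b10 b4 b5 y18 z97 z98 z99; omega
                have kk1071 : (k3 + d1) ≤ (i + l + m + 2) := by clear * - b10 b4 b5 z95 z97 z98; omega
                have kk1072 : (i + m + 1) ≤ (k) := by clear * - b4 b5 b8 y18 z95 z97; omega
                have kk1073 : (i + i2 + m + 1) ≤ (j + k3) := by clear * - b4 b8 y18 z95; omega
                have r1074 : (i + k + l + i2 + d1 - j + 1) % 2 = 0 := by clear * - ev n1p n2p n3p q1; omega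
                have r1075 : (k + k3 + d1 - 2 * i - l - m - 2) % 2 = 0 := by clear * - ev n1p n2p n3p q1; omega
                clear * - al a1 b tt D2 x1 kk1060 kk1061 kk1062 kk1063 kk1064 kk1065 kk1066 kk1067 kk1068 kk1069 kk1070 kk1071 kk1072 kk1073 r1074 r1075
                exact midP al (k + k3 + d1 - 2 * i - l - m - 2) (i + k + l + i2 + d1 - j + 1) (i + l + 2) (2 * i + l + m - k + 3) (k + k3 + d1 - i - m - 1) (by omega) (fun t h1 h2 => (cE (cE (ab tt al 0 t ((i + l + i2 + 1) - t) (by omega)) (qf a1 al 0 ((i + l + i2 + 1) - t) ((i + k + l + i2 - j + 1) - t) (by omega))) (qf x1 al 0 ((i + k + l + i2 - j + 1) - t) ((i + k + l + i2 + d1 - j + 1) - t) (by omega)))) (fun t h1 h2 => (cE (qf b al 0 t (t + (k - i)) (by omega)) (pb (show Par W (k3 + d1 + 1) (k + l + 1) (i + l + m - k3 - d1 + 2) from fun t h1 h2 => (cE (sh al (-1) t (t + (-n)) (by omega)) (cE (pb x1 al (-1) (t + (-n)) (t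 + (-d1)) (by omega)) (pb D2 al 0 (t + (-d1)) (t + (i + l + m - k3 - d1 + 2)) (by omega))))) al 0 (t + (k - i)) (t + (k + k3 + d1 - 2 * i - l - m - 2)) (by omega))))
          · by_cases z102 : (5 * i + j + 2 * l + m + 5) ≤ (4 * k + i2 + k3)
            · by_cases v29 : (2 * k + i2) ≤ (2 * i + j + l + 1)
              · by_cases v30 : (3 * k) ≤ (3 * i + j + l + m + 3)
                · have kk1076 : (5 * i + j + 2 * l + m + 5) ≤ (4 * k + i2 + k3) := by clear * - z102; omega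
                  have kk1077 : (i + j + m + k3 + 2) ≤ (2 * k + i2) := by clear * - b4 b5 v29 z102 z97; omega
                  have kk1078 : (i) ≤ (k3) := by clear * - b4 b5 v29 v30 y18 z102 z97; omega
                  have kk1079 : (2 * i + 2 * l + m + 3) ≤ (n + k3) := by clear * - v29 y17 z102 z96; omega
                  have kk1080 : (k + i2) ≤ (i + j + l + 1) := by clear * - b4 b5 v29 v30 z102 z97; omega
                  have kk1081 : (i2) ≤ (j) := by clear * - b4 b8 v29 z102 z99; omega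
                  have kk1082 : (3 * k + i2 + k3) ≤ (4 * i + j + 2 * l + m + 3) := by clear * - b4 b5 v29 v30 z102 z97; omega
                  have kk1083 : (2 * k + i2) ≤ (2 * i + j + l + 1) := by clear * - v29; omega
                  have kk1084 : (i + j + m + 1) ≤ (k + i2) := by clear * - b4 b5 y18 z97; omega
                  have kk1085 : (i2) ≤ (m) := by clear * - b4 v29 v30 z102; omega
                  have kk1086 : (3 * k) ≤ (3 * i + j + l + m + 3) := by clear * - v30; omega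
                  have kk1087 : (k) ≤ (i + l + m + 2) := by clear * - b4 b5 v29 v30 y18 z102 z97; omega
                  have r1088 : (4 * k + i2 + k3 - 2 * n - 3 * i - j - m - 1) % 2 = 0 := by clear * - ev n1p n2p n3p q1; omega
                  clear * - al a1 b tt D2 kk1076 kk1077 kk1078 kk1079 kk1080 kk1081 kk1082 kk1083 kk1084 kk1085 kk1086 kk1087 r1088
                  obtain ⟨t, ht⟩ : ∃ t, 2 * t = (4 * k + i2 + k3 - 2 * n - 3 * i - j - m - 1) := ⟨(4 * k + i2 + k3 - 2 * n - 3 * i - j - m - 1) / 2, by omega⟩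
                  exact al.ninv t (cE (cE (cE (cE (cE (ab tt al (-1) t ((i + l + i2 - n + 1) - t) (by omega)) (qf a1 al 0 ((i + l + i2 - n + 1) - t) ((i + k + l + i2 - n - j + 1) - t) (by omega))) (qf b al 0 ((i + k + l + i2 - n - j + 1) - t) ((2 * k + l + i2 - n - j + 1) - t) (by omega))) (qf b al 0 ((2 * k + l + i2 - n - j + 1) - t) ((3 * k + l + i2 - n - i - j + 1) - t) (by omega))) (pb (show Par W (k + k3 - i + 1) (k + l + 1) (2 * i + l + m - k - k3 + 2) from fun t h1 h2 => (cE (sh al (-1) t (t + (-n)) (by omega)) (cE (pb b al (-1) (t + (-n)) (t + (i - k)) (by omega)) (pb D2 al 0 (t + (i - k)) (t + (2 * i + l + m - k - k3 + 2)) (by omega))))) al 0 ((3 * k + l + i2 - n - i - j + 1) - t) ((4 * k + i2 + k3 - n - 3 * i - j - m - 1) - t) (by omega))) (sh al (-1) ((4 * k + i2 + k3 - n - 3 * i - j - m - 1) - t) t (by omega)))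
                · have kk1089 : (5 * i + j + 2 * l + m + 5) ≤ (4 * k + i2 + k3) := by clear * - z102; omega
                  have kk1090 : (4 * k + k3) ≤ (5 * i + j + 2 * l + i2 + m + 4) := by clear * - b5 v29 y17 z102 z96; omega
                  have kk1091 : (i) ≤ (k3) := by clear * - b4 b5 y13 y18 z97 z98; omega
                  have kk1092 : (2 * i + 2 * l + m + 3) ≤ (n + k3) := by clear * - v29 y17 z102 z96; omega
                  have kk1093 : (k + i2) ≤ (i + j + l + 1) := by clear * - b0 b1 b4 b5 v29 z102 z96; omega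
                  have kk1094 : (i2) ≤ (j) := by clear * - b4 b8 v29 z102 z99; omega
                  have kk1095 : (3 * k + i2 + k3) ≤ (4 * i + j + 2 * l + m + 3) := by clear * - b0 b1 b4 b5 v29 z102 z96; omega
                  have kk1096 : (2 * k + i2) ≤ (2 * i + j + l + 1) := by clear * - v29; omega
                  have kk1097 : (i + j + m + 1) ≤ (k + i2) := by clear * - b4 b5 y18 z97; omega
                  have kk1098 : (i2) ≤ (m) := by clear * - b4 v29 v30 y13 z98; omega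
                  have kk1099 : (3 * i + j + l + m + 3) ≤ (3 * k) := by clear * - v30; omega
                  have kk1100 : (2 * i + j + 1) ≤ (2 * k) := by clear * - b10 b4 b5 b8 v29 v30 y18 z97 z98; omega
                  have r1101 : (4 * k + i2 + k3 - 2 * n - 3 * i - j - m - 1) % 2 = 0 := by clear * - ev n1p n2p n3p q1; omega
                  clear * - al a1 b tt D2 kk1089 kk1090 kk1091 kk1092 kk1093 kk1094 kk1095 kk1096 kk1097 kk1098 kk1099 kk1100 r1101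
                  obtain ⟨t, ht⟩ : ∃ t, 2 * t = (4 * k + i2 + k3 - 2 * n - 3 * i - j - m - 1) := ⟨(4 * k + i2 + k3 - 2 * n - 3 * i - j - m - 1) / 2, by omega⟩
                  exact al.ninv t (cE (cE (cE (cE (cE (ab tt al (-1) t ((i + l + i2 - n + 1) - t) (by omega)) (qf a1 al 0 ((i + l + i2 - n + 1) - t) ((i + k + l + i2 - n - j + 1) - t) (by omega))) (qf b al 0 ((i + k + l + i2 - n - j + 1) - t) ((2 * k + l + i2 - n - j + 1) - t) (by omega))) (qf b al 0 ((2 * k + l + i2 - n - j + 1) - t) ((3 * k + l + i2 - n - i - j + 1) - t) (by omega))) (pb (show Par W (k + k3 - i + 1) (k + l + 1) (2 * i + l + m - k - k3 + 2) from fun t h1 h2 => (cE (sh al (-1) t (t + (-n)) (by omega)) (cE (pb b al (-1) (t + (-n)) (t + (i - k)) (by omega)) (pb D2 al 0 (t + (i - k)) (t + (2 * i + l + m - k - k3 + 2)) (by omega))))) al 0 ((3 * k + l + i2 - n - i - j + 1) - t) ((4 * k + i2 + k3 - n - 3 * i - j - m -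 1) - t) (by omega))) (sh al (-1) ((4 * k + i2 + k3 - n - 3 * i - j - m - 1) - t) t (by omega)))
              · by_cases v31 : (3 * k) ≤ (3 * i + j + l + m + 3)
                · have kk1102 : (i + i2 + m + 3) ≤ (j + k3) := by clear * - b4 b8 y18 z95; omega
                  have kk1103 : (i + j + m + k3 + 2) ≤ (2 * k + i2) := by clear * - b4 b5 b8 y18 z95 z97; omega
                  have kk1104 : (i) ≤ (k3) := by clear * - b4 b5 b8 v29 v31 y18 z95 z97; omega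
                  have kk1105 : (2 * i + 2 * l + m + 3) ≤ (n + k3) := by clear * - b4 b8 y17 y18 z96 z99; omega
                  have kk1106 : (k + i2) ≤ (i + j + l + 1) := by clear * - b4 b5 b8 v29 v31 y18 z95 z97; omega
                  have kk1107 : (2 * i + j + l + 1) ≤ (2 * k + i2) := by clear * - v29; omega
                  have kk1108 : (2 * i + l + 1) ≤ (2 * k) := by clear * - b4 b8 z102 z95; omega
                  have kk1109 : (k + k3) ≤ (2 * i + l + m + 2) := by clear * - b4 b5 b8 v29 v31 y18 z95 z97; omega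
                  have kk1110 : (i + j + m + 1) ≤ (k + i2) := by clear * - b4 b5 y18 z97; omega
                  have kk1111 : (i2) ≤ (m) := by clear * - b4 b8 v29 v31 y18 z95; omega
                  have kk1112 : (3 * k) ≤ (3 * i + j + l + m + 3) := by clear * - v31; omega
                  have kk1113 : (k) ≤ (i + l + m + 2) := by clear * - b4 b5 b8 v29 v31 y18 z95 z97; omega
                  have r1114 : (4 * k + i2 + k3 - 2 * n - 3 * i - j - m - 1) % 2 = 0 := by clear * - ev n1p n2p n3p q1; omega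
                  clear * - al a1 b tt D2 kk1102 kk1103 kk1104 kk1105 kk1106 kk1107 kk1108 kk1109 kk1110 kk1111 kk1112 kk1113 r1114
                  obtain ⟨t, ht⟩ : ∃ t, 2 * t = (4 * k + i2 + k3 - 2 * n - 3 * i - j - m - 1) := ⟨(4 * k + i2 + k3 - 2 * n - 3 * i - j - m - 1) / 2, by omega⟩
                  exact al.ninv t (cE (cE (cE (cE (cE (ab tt al (-1) t ((i + l + i2 - n + 1) - t) (by omega)) (qf a1 al 0 ((i + l + i2 - n + 1) - t) ((i + k + l + i2 - n - j + 1) - t) (by omega))) (qf b al 0 ((i + k + l + i2 - n - j + 1) - t) ((2 * k + l + i2 - n - j + 1) - t) (by omega))) (qf b al 0 ((2 * k + l + i2 - n - j + 1) - t) ((3 * k + l + i2 - n - i - j + 1) - t) (by omega))) (pb (show Par W (k + k3 - i + 1) (k + l + 1) (2 * i + l + m - k - k3 + 2) from fun t h1 h2 => (cE (sh al (-1) t (t + (-n)) (by omega)) (cE (pb b al (-1) (t + (-n)) (t + (i - k)) (by omega)) (pb D2 al 0 (t + (i - k)) (t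 + (2 * i + l + m - k - k3 + 2)) (by omega))))) al 0 ((3 * k + l + i2 - n - i - j + 1) - t) ((4 * k + i2 + k3 - n - 3 * i - j - m - 1) - t) (by omega))) (sh al (-1) ((4 * k + i2 + k3 - n - 3 * i - j - m - 1) - t) t (by omega)))
                · have kk1115 : (i + i2 + m + 3) ≤ (j + k3) := by clear * - b4 b8 y18 z95; omega
                  have kk1116 : (4 * k + k3) ≤ (5 * i + j + 2 * l + i2 + m + 4) := by clear * - b4 b5 b8 y17 y18 z95 z96; omega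
                  have kk1117 : (i) ≤ (k3) := by clear * - b4 b5 b6 v29 y17 y18 z98; omega
                  have kk1118 : (2 * i + 2 * l + m + 3) ≤ (n + k3) := by clear * - b4 b8 y17 y18 z96 z99; omega
                  have kk1119 : (k + i2) ≤ (i + j + l + 1) := by clear * - b1 b4 b5 b8 v29 y18 z95 z96; omega
                  have kk1120 : (2 * i + j + l + 1) ≤ (2 * k + i2) := by clear * - v29; omega
                  have kk1121 : (2 * i + l + 1) ≤ (2 * k) := by clear * - b4 b8 z102 z95; omega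
                  have kk1122 : (k + k3) ≤ (2 * i + l + m + 2) := by clear * - b1 b4 b5 b8 v29 y18 z95 z96; omega
                  have kk1123 : (i + j + m + 1) ≤ (k + i2) := by clear * - b4 b5 y18 z97; omega
                  have kk1124 : (i2) ≤ (m) := by clear * - b4 b8 y13 y18 z95 z98; omega
                  have kk1125 : (3 * i + j + l + m + 3) ≤ (3 * k) := by clear * - v31; omega
                  have kk1126 : (2 * i + j + 1) ≤ (2 * k) := by clear * - b10 b4 b5 b8 y18 z95 z97 z98; omega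
                  have r1127 : (4 * k + i2 + k3 - 2 * n - 3 * i - j - m - 1) % 2 = 0 := by clear * - ev n1p n2p n3p q1; omega
                  clear * - al a1 b tt D2 kk1115 kk1116 kk1117 kk1118 kk1119 kk1120 kk1121 kk1122 kk1123 kk1124 kk1125 kk1126 r1127
                  obtain ⟨t, ht⟩ : ∃ t, 2 * t = (4 * k + i2 + k3 - 2 * n - 3 * i - j - m - 1) := ⟨(4 * k + i2 + k3 - 2 * n - 3 * i - j - m - 1) / 2, by omega⟩
                  exact al.ninv t (cE (cE (cE (cE (cE (ab tt al (-1) t ((i + l + i2 - n + 1) - t) (by omega)) (qf a1 al 0 ((i + l + i2 - n + 1) - t) ((i + k + l + i2 - n - j + 1) - t) (by omega))) (qf b al 0 ((i + k + l + i2 - n - j + 1) - t) ((2 * k + l + i2 - n - j + 1) - t) (by omega))) (qf b al 0 ((2 * k + l + i2 - n - j + 1) - t) ((3 * k + l + i2 - n - i - j + 1) - t) (by omega))) (pb (show Par W (k + k3 - i + 1) (k + l + 1) (2 * i + l + m - k - k3 + 2) from fun t h1 h2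 => (cE (sh al (-1) t (t + (-n)) (by omega)) (cE (pb b al (-1) (t + (-n)) (t + (i - k)) (by omega)) (pb D2 al 0 (t + (i - k)) (t + (2 * i + l + m - k - k3 + 2)) (by omega))))) al 0 ((3 * k + l + i2 - n - i - j + 1) - t) ((4 * k + i2 + k3 - n - 3 * i - j - m - 1) - t) (by omega))) (sh al (-1) ((4 * k + i2 + k3 - n - 3 * i - j - m - 1) - t) t (by omega)))
            · have kk1128 : (3 * i + l + m + 3) ≤ (2 * k + k3) := by clear * - b4 b8 y18 z99; omega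
              have kk1129 : (3 * i + l + m + 4) ≤ (2 * k + k3) := by clear * - b4 b8 y18 z99; omega
              have kk1130 : (5 * i + l + 3 * m + 6) ≤ (4 * k + k3) := by clear * - b4 b5 b8 y18 z102 z97 z99; omega
              have kk1131 : (5 * i + l + 2 * i2 + 3 * m + 6) ≤ (2 * j + 2 * k + 3 * k3) := by clear * - b4 b8 y18 z102 z99; omega
              have kk1132 : (i) ≤ (k3) := by clear * - b4 b5 y13 y18 z97 z98; omega
              have kk1133 : (2 * i + 2 * l + m + 3) ≤ (n + k3) := by clear * - b4 b8 y17 y18 z96 z99; omega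
              have kk1134 : (i + j + 1) ≤ (k) := by clear * - b10 b4 b5 b8 y18 z102 z97 z98 z99; omega
              have kk1135 : (i2) ≤ (m) := by clear * - b4 b8 y13 y18 z102 z98 z99; omega
              have kk1136 : (k) ≤ (i + l + 1) := by clear * - b10 b4 b5 b8 y18 z102 z97 z98; omega
              have kk1137 : (i2) ≤ (j) := by clear * - b4 b8 y18 z102 z99; omega
              have kk1138 : (k) ≤ (i + l + m + 2) := by clear * - b10 b2 b4 b5 b8 y18 z102 z96 z98 z99; omega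
              have kk1139 : (k + k3) ≤ (2 * i + l + m + 2) := by clear * - b0 b1 b4 b5 y20 z102 z96; omega
              have kk1140 : (j + k3) ≤ (k + i2) := by clear * - b4 b5 z97; omega
              have kk1141 : (2 * k + k3) ≤ (3 * i + l + i2 + m + 3) := by clear * - b5 y17 z96; omega
              have r1142 : (2 * k + l + i2 - j + 1) % 2 = 0 := by clear * - ev n1p n2p n3p q1; omega
              have r1143 : (2 * k + k3 - 3 * i - l - m - 2) % 2 = 0 := by clear * - ev n1p n2p n3p q1; omega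
              clear * - al a1 b tt D2 kk1128 kk1129 kk1130 kk1131 kk1132 kk1133 kk1134 kk1135 kk1136 kk1137 kk1138 kk1139 kk1140 kk1141 r1142 r1143
              exact midP al (2 * k + k3 - 3 * i - l - m - 2) (2 * k + l + i2 - j + 1) (2 * i + l + i2 + m - j - k3 + 3) (2 * i + l + m - k + 3) (2 * k + k3 - 2 * i - m - 1) (by omega) (fun t h1 h2 => (cI (cE (pb b al 0 t (t + (i - k)) (by omega)) (pb a1 al 0 (t + (i - k)) (t + (i + j - 2 * k)) (by omega))) (qa tt al 0 (t + (i + j - 2 * k)) ((2 * k + l + i2 - j + 1) - t) (by omega)))) (fun t h1 h2 => (cE (qf b al 0 t (t + (k - i)) (by omega)) (pb (show Par W (k + k3 - i + 1) (k + l + 1) (2 * i + l + m - k - k3 + 2) from fun t h1 h2 => (cE (sh al (-1) t (t + (-n)) (by omega)) (cE (pb b al (-1) (t + (-n)) (t + (i - k)) (by omega)) (pb D2 al 0 (t + (i - k)) (t + (2 * i + l + m - k - k3 + 2)) (by omega))))) al 0 (t + (k - i)) (t + (2 * k + k3 -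 3 * i - l - m - 2)) (by omega))))

theorem h9_54p
    {W : ℤ → G} {n Q i j k l i2 m k3 : ℤ} (al : AL W n Q)
    (hy : (0) ≤ (i) ∧ (i) ≤ (j) ∧ (j + 1) ≤ (Q) ∧ (Q) ≤ (k) ∧ (k + 1) ≤ (n) ∧ (Q) ≤ (i + l + 1) ∧ (k + l + 2) ≤ (n) ∧ (0) ≤ (i2) ∧ (i2 + 1) ≤ (Q) ∧ (Q + m + 1) ≤ (n + i2) ∧ (i2) ≤ (m) ∧ (Q) ≤ (i + l + m + 2) ∧ (i + l + m + 3) ≤ (n) ∧ (Q) ≤ (k3) ∧ (k3 + 1) ≤ (n) ∧ (i + m + 2) ≤ (k) ∧ (i) ≤ (i2) ∧ (i2) ≤ (i) ∧ (i + m + 1) ≤ (k3) ∧ (k3) ≤ (i + m + 1) ∧ (k3) ≤ (i + l + m + 1) ∧ (m + k3 + 2) ≤ (n + i2))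
    (a1 : Par W (0) (j) (k - j))
    (a2 : Par W (Q + j - k) (j) (k - j))
    (s1 : Ant W (0) (i) (i + j))
    (s2 : Ant W (j + 1) (Q) (i + j))
    (b : Par W (i + 1) (i + l + 1) (k - i))
    (c1 : Par W (i2 + 1) (Q) (k + l - i2 + 1))
    (c2 : Par W (k + l + 2) (n) (i2 - k - l - 1))
    (tt : Ant W (i2 - m) (i2) (i + l + i2 + 1))
    (D1 : Par W (Q) (k3) (n + i2 - m - k3 - 1))
    (D2 : Par W (i + l + m + 3) (n) (k3 - i - l - m - 2))
    {L : ℤ} (mx : ∀ a b g, 0 < g → g < n → Par W a b g → b - a ≤ L)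
    (hL : L ≤ (n - j - 3) ∧ L ≤ (n + Q - k - 3) ∧ L ≤ (n - l - 3) ∧ L ≤ (n + i - k - 2))
    (bd0 : Bd W n L (j) (i) (k))
    (n1 : Nd W (j) (i) (k))
    (n2 : Nd W (i + l + 1) (i2) (k + l + 1))
    (n3 : Nd W (n + i2 - m - 1) (i + l + m + 2) (k3))
    (d1 : ℤ) (q1 : d1 % 2 = 0) (x1 : Par W (i + 1) (k + l - d1 + 1) d1)
    (b0 : (i + l + 1) ≤ (k + d1))
    (b1 : (d1) ≤ (l))
    (b2 : (0) ≤ (d1))
    (b3 : (k + 2 * l + 3) ≤ (n + i + d1))
    (b4 : (n + i2) ≤ (i + k + 2 * l + 2))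
    (b5 : (k + 2 * m + 1) ≤ (n + j))
    (b6 : (2 * j + 2 * k3 + 1) ≤ (i + k + 2 * m))
    (b7 : (2 * k + 3) ≤ (n + 2 * Q))
    (b8 : (2 * i + 2 * l + 3 * m + 5) ≤ (n + i2 + k3))
    (b9 : (i + m + d1 + 1) ≤ (k)) : False := by
  have ev := al.ev
  obtain ⟨y0, y1, y2, y3, y4, y5, y6, y7, y8, y9, y10, y11, y12, y13, y14, y15, y16, y17, y18, y19, y20, y21⟩ := id hy
  have n1p := And.intro n1.p1 n1.p2
  have n2p := And.intro n2.p1 n2.p2
  have n3p := And.intro n3.p1 n3.p2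
  by_cases z117 : (1) ≤ (d1)
  · have kk1395 : (k3) ≤ (i + l + m + 1) := by clear * - y20; omega
    have kk1396 : (1) ≤ (d1) := by clear * - z117; omega
    have kk1397 : (i + l + m + d1 + 2) ≤ (n) := by clear * - b1 b8 y10 y19; omega
    have kk1398 : (i + 1) ≤ (k3) := by clear * - y13 y16 y8; omega
    have kk1399 : (i + m + d1 + 1) ≤ (k) := by clear * - b9; omega
    have r1400 : (i + l + m - k3 + 2) % 2 = 0 := by clear * - ev n1p n2p n3p q1; omega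
    have r1401 : (d1) % 2 = 0 := by clear * - ev n1p n2p n3p q1; omega
    clear * - al D2 x1 n3 kk1395 kk1396 kk1397 kk1398 kk1399 r1400 r1401
    exact n3.f1 (rEE (sh al 0 (i + l + m + 2) (i + l + m + 2) (by omega)) (sh al 0 (k3) (k3) (by omega)) (Eq.symm (rotL (i + l + m - k3 + 2) (d1) (k3) (i + l + m + 2) (by omega) (fun t h1 h2 => (pb D2 al 0 t (t + (i + l + m - k3 + 2)) (by omega))) (fun t h1 h2 => (qf x1 al 0 t (t + (d1)) (by omega))))))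
  · by_cases z118 : (8 * i + k + 8 * l + 2 * i2 + 6 * m + 16) ≤ (3 * n + j + 6 * k3)
    · by_cases z119 : (4 * i + j + 4 * l + 2 * m + 8) ≤ (n + k + 2 * k3)
      · by_cases v38 : (i + l + m + 2) ≤ (k)
        · by_cases v39 : (2 * i + k + 2 * l + i2 + 2 * m + 4) ≤ (n + j + 2 * k3)
          · have kk1402 : (2 * i + k + 2 * l + 2 * m + 5) ≤ (n + j + 2 * k3) := by clear * - b3 b4 v39 y16 z117; omega
            have kk1403 : (n + j + 2 * k3) ≤ (2 * i + k + 2 * l + 4 * m + 4) := by clear * - b4 y10 y13 y16 y19 y2; omega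
            have kk1404 : (2 * i + j + 2 * l + 2 * m + 6) ≤ (n + k + 2 * i2) := by clear * - b3 b4 b6 b8 b9 v39 y16 z117; omega
            have kk1405 : (4 * i + j + 4 * l + 2 * m + 8) ≤ (n + k + 2 * k3) := by clear * - z119; omega
            have kk1406 : (Q) ≤ (i + l + 2) := by clear * - y5; omega
            have kk1407 : (i + l + m + 2) ≤ (k) := by clear * - v38; omega
            have kk1408 : (k3) ≤ (i + l + m + 2) := by clear * - y20; omega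
            have kk1409 : (Q) ≤ (k3 + 1) := by clear * - y13; omega
            have kk1410 : (n + 2 * k3) ≤ (2 * i + k + 2 * l + 2 * m + 4) := by clear * - b4 y16 y19; omega
            have kk1411 : (i + k + l + 2 * m + 3) ≤ (n + j + k3) := by clear * - b3 b4 b5 v39 y16 z117; omega
            have kk1412 : (2 * i + k + 2 * l + i2 + 2 * m + 4) ≤ (n + j + 2 * k3) := by clear * - v39; omega
            have r1413 : (i + j + l + i2 - k + 1) % 2 = 0 := by clear * - ev n1p n2p n3p q1; omega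
            have r1414 : (n + j + 2 * k3 - 2 * i - k - 2 * l - 2 * m - 4) % 2 = 0 := by clear * - ev n1p n2p n3p q1; omega
            clear * - al a2 tt D2 kk1402 kk1403 kk1404 kk1405 kk1406 kk1407 kk1408 kk1409 kk1410 kk1411 kk1412 r1413 r1414
            exact midP al (n + j + 2 * k3 - 2 * i - k - 2 * l - 2 * m - 4) (i + j + l + i2 - k + 1) (i + j + l - k + 2) (2 * i + 2 * l + 2 * m - n - k3 + 5) (n + j + 2 * k3 - 2 * i - k - 2 * l - 2 * m - 4) (by omega) (fun t h1 h2 => (cI (qf a2 al 0 t (t + (k - j)) (by omega)) (ab tt al 0 (t + (k - j)) ((i + j + l + i2 - k + 1) - t) (by omega)))) (fun t h1 h2 => (cE (cE (qf D2 al (-1) t (t + (n + k3 - i - l - m - 2)) (by omega)) (qf D2 al 0 (t + (n + k3 - i - l - m - 2)) (t + (n + 2 * k3 - 2 * i - 2 * l - 2 * m - 4)) (by omega))) (pb a2 al 0 (t + (n + 2 * k3 - 2 * i - 2 * l - 2 * m - 4)) (t + (n + j + 2 * k3 - 2 * i - k - 2 * l - 2 * m - 4)) (by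 omega))))
          · have kk1415 : (2 * i + k + 2 * l + 2 * m + 5) ≤ (n + j + 2 * k3) := by clear * - b3 y1 y18 z117; omega
            have kk1416 : (2 * i + k + 2 * l + 2 * i2 + 4) ≤ (n + j + 2 * k3) := by clear * - b3 y1 y10 y18 z117; omega
            have kk1417 : (6 * i + k + 6 * l + 6 * m + 14) ≤ (3 * n + j + 4 * k3) := by clear * - b3 b4 b5 v39 y16 z117 z118; omega
            have kk1418 : (8 * i + k + 8 * l + 2 * i2 + 6 * m + 16) ≤ (3 * n + j + 6 * k3) := by clear * - z118; omega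
            have kk1419 : (Q) ≤ (i + l + 2) := by clear * - y5; omega
            have kk1420 : (i + l + m + 2) ≤ (k) := by clear * - v38; omega
            have kk1421 : (k3) ≤ (i + l + m + 2) := by clear * - y20; omega
            have kk1422 : (Q) ≤ (k3 + 1) := by clear * - y13; omega
            have kk1423 : (n + 2 * k3) ≤ (2 * i + k + 2 * l + 2 * m + 4) := by clear * - b4 y16 y19; omega
            have kk1424 : (n + j + 2 * k3) ≤ (2 * i + k + 2 * l + i2 + 2 * m + 4) := by clear * - v39; omega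
            have kk1425 : (k3) ≤ (i + l + i2 + 1) := by clear * - b3 b4 b5 v39 y16 z117; omega
            have r1426 : (i + j + l + i2 - k + 1) % 2 = 0 := by clear * - ev n1p n2p n3p q1; omega
            have r1427 : (n + j + 2 * k3 - 2 * i - k - 2 * l - 2 * m - 4) % 2 = 0 := by clear * - ev n1p n2p n3p q1; omega
            clear * - al a2 tt D2 kk1415 kk1416 kk1417 kk1418 kk1419 kk1420 kk1421 kk1422 kk1423 kk1424 kk1425 r1426 r1427
            exact midP al (n + j + 2 * k3 - 2 * i - k - 2 * l - 2 * m - 4) (i + j + l + i2 - k + 1) (3 * i + 3 * l + i2 + 2 * m - n - 2 * k3 + 6) (2 * i + 2 * l + 2 * m - n - k3 + 5) (n + j + 2 * k3 - 2 * i - k - 2 * l - 2 * m - 4) (by omega) (fun t h1 h2 => (cI (qf a2 al 0 t (t + (k - j)) (by omega)) (ab tt al 0 (t + (k - j)) ((i + j + l + i2 - k + 1) - t) (by omega)))) (fun t h1 h2 => (cE (cE (qf D2 al (-1) t (t + (n + k3 - i - l - m - 2)) (by omega))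 (qf D2 al 0 (t + (n + k3 - i - l - m - 2)) (t + (n + 2 * k3 - 2 * i - 2 * l - 2 * m - 4)) (by omega))) (pb a2 al 0 (t + (n + 2 * k3 - 2 * i - 2 * l - 2 * m - 4)) (t + (n + j + 2 * k3 - 2 * i - k - 2 * l - 2 * m - 4)) (by omega))))
        · by_cases v40 : (2 * i + k + 2 * l + i2 + 2 * m + 4) ≤ (n + j + 2 * k3)
          · have kk1428 : (2 * i + k + 2 * l + 2 * m + 5) ≤ (n + j + 2 * k3) := by clear * - b3 b4 v40 y16 z117; omega
            have kk1429 : (n + j + 2 * k3) ≤ (3 * k + 2 * m) := by clear * - b4 y16 y19 z119; omega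
            have kk1430 : (2 * i + j + 2 * l + 2 * m + 6) ≤ (n + k + 2 * i2) := by clear * - b3 b4 b6 b8 b9 v40 y16 z117; omega
            have kk1431 : (4 * i + j + 4 * l + 2 * m + 8) ≤ (n + k + 2 * k3) := by clear * - z119; omega
            have kk1432 : (Q) ≤ (i + l + 2) := by clear * - y5; omega
            have kk1433 : (k) ≤ (i + l + m + 2) := by clear * - v38; omega
            have kk1434 : (k3) ≤ (i + l + m + 2) := by clear * - y20; omega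
            have kk1435 : (Q) ≤ (k3 + 1) := by clear * - y13; omega
            have kk1436 : (n + 2 * k3) ≤ (2 * i + k + 2 * l + 2 * m + 4) := by clear * - b4 y16 y19; omega
            have kk1437 : (i + k + l + 2 * m + 3) ≤ (n + j + k3) := by clear * - b3 b4 b5 v40 y16 z117; omega
            have kk1438 : (2 * i + k + 2 * l + i2 + 2 * m + 4) ≤ (n + j + 2 * k3) := by clear * - v40; omega
            have r1439 : (i + j + l + i2 - k + 1) % 2 = 0 := by clear * - ev n1p n2p n3p q1; omega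
            have r1440 : (n + j + 2 * k3 - 2 * i - k - 2 * l - 2 * m - 4) % 2 = 0 := by clear * - ev n1p n2p n3p q1; omega
            clear * - al a2 tt D2 kk1428 kk1429 kk1430 kk1431 kk1432 kk1433 kk1434 kk1435 kk1436 kk1437 kk1438 r1439 r1440
            exact midP al (n + j + 2 * k3 - 2 * i - k - 2 * l - 2 * m - 4) (i + j + l + i2 - k + 1) (i + j + l - k + 2) (2 * i + 2 * l + 2 * m - n - k3 + 5) (n + j + 2 * k3 - 2 * i - k - 2 * l - 2 * m - 4) (by omega) (fun t h1 h2 => (cI (qf a2 al 0 t (t + (k - j)) (by omega)) (ab tt al 0 (t + (k - j)) ((i + j + l + i2 - k + 1) - t) (by omega)))) (fun t h1 h2 => (cE (cE (qf D2 al (-1) t (t + (n + k3 - i - l - m - 2)) (by omega)) (qf D2 al 0 (t + (n + k3 - i - l - m - 2)) (t + (n + 2 * k3 - 2 * i - 2 * l - 2 * m - 4)) (by omega))) (pb a2 al 0 (t + (n + 2 * k3 - 2 * i - 2 * l - 2 * m - 4)) (t + (n + j + 2 * k3 - 2 * i - k - 2 * l - 2 * m - 4)) (by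 omega))))
          · have kk1441 : (2 * i + k + 2 * l + 2 * m + 5) ≤ (n + j + 2 * k3) := by clear * - b3 y1 y18 z117; omega
            have kk1442 : (4 * i + 4 * l + 2 * i2 + 2 * m + 8) ≤ (n + j + k + 2 * k3) := by clear * - b4 y16 y19 z118; omega
            have kk1443 : (6 * i + k + 6 * l + 6 * m + 14) ≤ (3 * n + j + 4 * k3) := by clear * - b0 b5 b8 v38 z117 z118; omega
            have kk1444 : (8 * i + k + 8 * l + 2 * i2 + 6 * m + 16) ≤ (3 * n + j + 6 * k3) := by clear * - z118; omega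
            have kk1445 : (Q) ≤ (i + l + 2) := by clear * - y5; omega
            have kk1446 : (k) ≤ (i + l + m + 2) := by clear * - v38; omega
            have kk1447 : (k3) ≤ (i + l + m + 2) := by clear * - y20; omega
            have kk1448 : (Q) ≤ (k3 + 1) := by clear * - y13; omega
            have kk1449 : (n + 2 * k3) ≤ (2 * i + k + 2 * l + 2 * m + 4) := by clear * - b4 y16 y19; omega
            have kk1450 : (n + j + 2 * k3) ≤ (2 * i + k + 2 * l + i2 + 2 * m + 4) := by clear * - v40; omega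
            have kk1451 : (k3) ≤ (i + l + i2 + 1) := by clear * - b3 b4 b5 v40 y16 z117; omega
            have r1452 : (i + j + l + i2 - k + 1) % 2 = 0 := by clear * - ev n1p n2p n3p q1; omega
            have r1453 : (n + j + 2 * k3 - 2 * i - k - 2 * l - 2 * m - 4) % 2 = 0 := by clear * - ev n1p n2p n3p q1; omega
            clear * - al a2 tt D2 kk1441 kk1442 kk1443 kk1444 kk1445 kk1446 kk1447 kk1448 kk1449 kk1450 kk1451 r1452 r1453
            exact midP al (n + j + 2 * k3 - 2 * i - k - 2 * l - 2 * m - 4) (i + j + l + i2 - k + 1) (3 * i + 3 * l + i2 + 2 * m - n - 2 * k3 + 6) (2 * i + 2 * l + 2 * m - n - k3 + 5) (n + j + 2 * k3 - 2 * i - k - 2 * l - 2 * m - 4) (by omega) (fun t h1 h2 => (cI (qf a2 al 0 t (t + (k - j)) (by omega)) (ab tt al 0 (t + (k - j)) ((i + j + l + i2 - k + 1) - t) (by omega)))) (fun t h1 h2 => (cE (cE (qf D2 al (-1) t (t + (n + k3 - i - l - m - 2)) (by omega))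 (qf D2 al 0 (t + (n + k3 - i - l - m - 2)) (t + (n + 2 * k3 - 2 * i - 2 * l - 2 * m - 4)) (by omega))) (pb a2 al 0 (t + (n + 2 * k3 - 2 * i - 2 * l - 2 * m - 4)) (t + (n + j + 2 * k3 - 2 * i - k - 2 * l - 2 * m - 4)) (by omega))))
      · by_cases z120 : (2 * k + l + 2) ≤ (n + j + i2)
        · have kk1454 : (2 * k + l + 2) ≤ (n + j + i2) := by clear * - z120; omega
          have kk1455 : (j + i2) ≤ (2 * k + l) := by clear * - b0 b3 b6 y18 z117 z118 z119 z120; omega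
          have kk1456 : (j + i2 + 1) ≤ (k) := by clear * - b0 b3 b4 b6 y18 z117 z118 z120; omega
          have kk1457 : (n + i2) ≤ (2 * k + l + 1) := by clear * - b0 b4 z117; omega
          clear * - al a1 c2 kk1454 kk1455 kk1456 kk1457
          exact al.ubP (n + j + i2 - 2 * k - l - 1) (by omega) (by omega) fun t h1 h2 => (cE (sh al 1 t (t + (n)) (by omega)) (cE (qf c2 al 0 (t + (n)) (t + (n + i2 - k - l - 1)) (by omega)) (pb a1 al 0 (t + (n + i2 - k - l - 1)) (t + (n + j + i2 - 2 * k - l - 1)) (by omega))))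
        · by_cases v41 : (i + l + m + 2) ≤ (k)
          · have kk1458 : (i + j + l + 3) ≤ (k + i2) := by clear * - b3 y16 z117 z120 ev n1p n2p n3p q1; omega
            have kk1459 : (k + i2) ≤ (i + j + l + 2 * m + 2) := by clear * - b3 y10 y16 z117 z118 z119 z120; omega
            have kk1460 : (k) ≤ (i + j + l + 2) := by clear * - b3 y16 z117 z118 z119 z120; omega
            have kk1461 : (i + l + m + 2) ≤ (k) := by clear * - v41; omega
            have r1462 : (i + j + l + i2 - k + 1) % 2 = 0 := by clear * - ev n1p n2p n3p q1; omega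
            clear * - al a1 tt kk1458 kk1459 kk1460 kk1461 r1462
            obtain ⟨t, ht⟩ : ∃ t, 2 * t = (i + j + l + i2 - k + 1) := ⟨(i + j + l + i2 - k + 1) / 2, by omega⟩
            exact al.ninv t (cI (qf a1 al 0 t (t + (k - j)) (by omega)) (ab tt al 0 (t + (k - j)) t (by omega)))
          · have kk1463 : (i + j + l + 3) ≤ (k + i2) := by clear * - b3 y16 z117 z120 ev n1p n2p n3p q1; omega
            have kk1464 : (i + l + i2 + 2) ≤ (j + k) := by clear * - b3 y16 y19 z117 z118 z119 z120; omega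
            have kk1465 : (k) ≤ (i + j + l + 2) := by clear * - b3 y16 z117 z118 z119 z120; omega
            have kk1466 : (k) ≤ (i + l + m + 2) := by clear * - v41; omega
            have r1467 : (i + j + l + i2 - k + 1) % 2 = 0 := by clear * - ev n1p n2p n3p q1; omega
            clear * - al a1 tt kk1463 kk1464 kk1465 kk1466 r1467
            obtain ⟨t, ht⟩ : ∃ t, 2 * t = (i + j + l + i2 - k + 1) := ⟨(i + j + l + i2 - k + 1) / 2, by omega⟩
            exact al.ninv t (cI (qf a1 al 0 t (t + (k - j)) (by omega)) (ab tt al 0 (t + (k - j)) t (by omega)))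
    · by_cases z121 : (i + j + l + 2) ≤ (k + i2)
      · by_cases v42 : (i + j + l + 2) ≤ (k)
        · by_cases v43 : (i + l + m + 2) ≤ (k)
          · have kk1468 : (k) ≤ (i + j + l + i2 + 1) := by clear * - b3 y1 y18 z117 z118; omega
            have kk1469 : (k + i2) ≤ (i + j + l + 2 * m + 2) := by clear * - b3 y1 y10 y18 z117 z118; omega
            have kk1470 : (i + j + l + 2) ≤ (k) := by clear * - v42; omega
            have kk1471 : (i + l + m + 2) ≤ (k) := by clear * - v43; omega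
            have r1472 : (i + j + l + i2 - 2 * n - k + 1) % 2 = 0 := by clear * - ev n1p n2p n3p q1; omega
            clear * - al a1 tt kk1468 kk1469 kk1470 kk1471 r1472
            obtain ⟨t, ht⟩ : ∃ t, 2 * t = (i + j + l + i2 - 2 * n - k + 1) := ⟨(i + j + l + i2 - 2 * n - k + 1) / 2, by omega⟩
            exact al.ninv t (cE (cI (qf a1 al (-1) t (t + (n + k - j)) (by omega)) (ab tt al 0 (t + (n + k - j)) ((i + j + l + i2 - n - k + 1) - t) (by omega))) (sh al (-1) ((i + j + l + i2 - n - k + 1) - t) t (by omega)))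
          · have kk1473 : (k) ≤ (i + j + l + i2 + 1) := by clear * - b3 y1 y18 z117 z118; omega
            have kk1474 : (i + l + i2 + 2) ≤ (j + k) := by clear * - b3 b4 v42 y1 z117; omega
            have kk1475 : (i + j + l + 2) ≤ (k) := by clear * - v42; omega
            have kk1476 : (k) ≤ (i + l + m + 2) := by clear * - v43; omega
            have r1477 : (i + j + l + i2 - 2 * n - k + 1) % 2 = 0 := by clear * - ev n1p n2p n3p q1; omega
            clear * - al a1 tt kk1473 kk1474 kk1475 kk1476 r1477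
            obtain ⟨t, ht⟩ : ∃ t, 2 * t = (i + j + l + i2 - 2 * n - k + 1) := ⟨(i + j + l + i2 - 2 * n - k + 1) / 2, by omega⟩
            exact al.ninv t (cE (cI (qf a1 al (-1) t (t + (n + k - j)) (by omega)) (ab tt al 0 (t + (n + k - j)) ((i + j + l + i2 - n - k + 1) - t) (by omega))) (sh al (-1) ((i + j + l + i2 - n - k + 1) - t) t (by omega)))
        · by_cases v44 : (i + l + m + 2) ≤ (k)
          · have kk1478 : (i + j + l + 3) ≤ (k + i2) := by clear * - z121 ev n1p n2p n3p q1; omega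
            have kk1479 : (k + i2) ≤ (i + j + l + 2 * m + 2) := by clear * - v42 y10 z121; omega
            have kk1480 : (k) ≤ (i + j + l + 2) := by clear * - v42; omega
            have kk1481 : (i + l + m + 2) ≤ (k) := by clear * - v44; omega
            have r1482 : (i + j + l + i2 - 2 * n - k + 1) % 2 = 0 := by clear * - ev n1p n2p n3p q1; omega
            clear * - al a1 tt kk1478 kk1479 kk1480 kk1481 r1482
            obtain ⟨t, ht⟩ : ∃ t, 2 * t = (i + j + l + i2 - 2 * n - k + 1) := ⟨(i + j + l + i2 - 2 * n - k + 1) / 2, by omega⟩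
            exact al.ninv t (cE (cI (qf a1 al (-1) t (t + (n + k - j)) (by omega)) (ab tt al 0 (t + (n + k - j)) ((i + j + l + i2 - n - k + 1) - t) (by omega))) (sh al (-1) ((i + j + l + i2 - n - k + 1) - t) t (by omega)))
          · have kk1483 : (i + j + l + 3) ≤ (k + i2) := by clear * - z121 ev n1p n2p n3p q1; omega
            have kk1484 : (i + l + i2 + 2) ≤ (j + k) := by clear * - y1 y17 z121; omega
            have kk1485 : (k) ≤ (i + j + l + 2) := by clear * - v42; omega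
            have kk1486 : (k) ≤ (i + l + m + 2) := by clear * - v44; omega
            have r1487 : (i + j + l + i2 - 2 * n - k + 1) % 2 = 0 := by clear * - ev n1p n2p n3p q1; omega
            clear * - al a1 tt kk1483 kk1484 kk1485 kk1486 r1487
            obtain ⟨t, ht⟩ : ∃ t, 2 * t = (i + j + l + i2 - 2 * n - k + 1) := ⟨(i + j + l + i2 - 2 * n - k + 1) / 2, by omega⟩
            exact al.ninv t (cE (cI (qf a1 al (-1) t (t + (n + k - j)) (by omega)) (ab tt al 0 (t + (n + k - j)) ((i + j + l + i2 - n - k + 1) - t) (by omega))) (sh al (-1) ((i + j + l + i2 - n - k + 1) - t) t (by omega)))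
      · have kk1488 : (2 * k + l + 2) ≤ (n + j + i2) := by clear * - b3 y16 z117 z121; omega
        have kk1489 : (j + i2) ≤ (2 * k + l) := by clear * - b0 b1 b3 b6 y18 z117 z118 z121; omega
        have kk1490 : (j + i2 + 1) ≤ (k) := by clear * - b0 b3 b4 b6 y18 z117 z118 z121; omega
        have kk1491 : (n + i2) ≤ (2 * k + l + 1) := by clear * - b0 b4 z117; omega
        clear * - al a1 c2 kk1488 kk1489 kk1490 kk1491
        exact al.ubP (n + j + i2 - 2 * k - l - 1) (by omega) (by omega) fun t h1 h2 => (cE (qf c2 al (-1) t (t + (n + i2 - k - l - 1)) (by omega)) (pb a1 al 0 (t + (n + i2 - k - l - 1)) (t + (n + j + i2 - 2 * k - l - 1)) (by omega)))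

end Pool.Agent.MP_a38735_al.WL
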