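import Pool.Agent.MP_a38735_al.X3h0
import Pool.Agent.MP_a38735_al.X3h1
import Pool.Agent.MP_a38735_al.X3h2
import Pool.Agent.MP_a38735_al.X3h3
import Pool.Agent.MP_a38735_al.X3h4
import Pool.Agent.MP_a38735_al.X3h5
import Pool.Agent.MP_a38735_al.X3h6
import Pool.Agent.MP_a38735_al.X3h7
import Pool.Agent.MP_a38735_al.X3h8
import Pool.Agent.MP_a38735_al.X3h9

set_option autoImplicit false
set_option linter.unusedVariables false

namespace Pool.Agent.MP_a38735_al.WL

variable {G : Type*} [Group G]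

theorem ev7 {W : ℤ → G} {n Q i j k l i2 m k3 : ℤ} (al : AL W n Q)
    (hy : (0) ≤ (i) ∧ (i) ≤ (j) ∧ (j + 1) ≤ (Q) ∧ (Q) ≤ (k) ∧ (k + 1) ≤ (n) ∧ (Q) ≤ (i + l + 1) ∧ (k + l + 2) ≤ (n) ∧ (0) ≤ (i2) ∧ (i2 + 1) ≤ (Q) ∧ (Q + m + 1) ≤ (n + i2) ∧ (i2) ≤ (m) ∧ (Q) ≤ (i + l + m + 2) ∧ (i + l + m + 3) ≤ (n) ∧ (Q) ≤ (k3) ∧ (k3 + 1) ≤ (n) ∧ (i + m + 2) ≤ (k) ∧ (i) ≤ (i2) ∧ (i2) ≤ (i) ∧ (k3) ≤ (i + m))
    (a1 : Par W (0) (j) (k - j))
    (a2 : Par W (Q + j - k) (j) (k - j))
    (s1 : Ant W (0) (i) (i + j))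
    (s2 : Ant W (j + 1) (Q) (i + j))
    (b : Par W (i + 1) (i + l + 1) (k - i))
    (c1 : Par W (i2 + 1) (Q) (k + l - i2 + 1))
    (c2 : Par W (k + l + 2) (n) (i2 - k - l - 1))
    (tt : Ant W (i2 - m) (i2) (i + l + i2 + 1))
    (D1 : Par W (Q) (k3) (n + i2 - m - k3 - 1))
    (D2 : Par W (i + l + m + 3) (n) (k3 - i - l - m - 2))
    {L : ℤ} (mx : ∀ a b g, 0 < g → g < n → Par W a b g → b - a ≤ L)
    (hL : L ≤ (n - j - 3) ∧ L ≤ (n + Q - k - 3) ∧ L ≤ (n - l - 3) ∧ L ≤ (n + i - k - 2))
    (bd0 : Bd W n L (j) (i) (k))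
    (n1 : Nd W (j) (i) (k))
    (n2 : Nd W (i + l + 1) (i2) (k + l + 1))
    (n3 : Nd W (n + i2 - m - 1) (i + l + m + 2) (k3)) : False := by
  have H := @ev7p G _
   (@ev7_1p G _
    (@ev7_2p G _
     (@ev7_3p G _
      (@ev7_4p G _
       (@ev7_5p G _
        (@ev7_6p G _
         (@ev7_7p G _
          (@ev7_8p G _)
          (@ev7_9p G _
           (@ev7_10p G _)
           (@ev7_11p G _
            (@ev7_12p G _))))))))))
  exact H al hy a1 a2 s1 s2 b c1 c2 tt D1 D2 mx hL bd0 n1 n2 n3

theorem h8 {W : ℤ → G} {n Q i j k l i2 m k3 : ℤ} (al : AL W n Q)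
    (hy : (0) ≤ (i) ∧ (i) ≤ (j) ∧ (j + 1) ≤ (Q) ∧ (Q) ≤ (k) ∧ (k + 1) ≤ (n) ∧ (Q) ≤ (i + l + 1) ∧ (k + l + 2) ≤ (n) ∧ (0) ≤ (i2) ∧ (i2 + 1) ≤ (Q) ∧ (Q + m + 1) ≤ (n + i2) ∧ (i2) ≤ (m) ∧ (Q) ≤ (i + l + m + 2) ∧ (i + l + m + 3) ≤ (n) ∧ (Q) ≤ (k3) ∧ (k3 + 1) ≤ (n) ∧ (i + m + 2) ≤ (k) ∧ (i) ≤ (i2) ∧ (i2) ≤ (i) ∧ (i + m + 2) ≤ (k3) ∧ (k3) ≤ (i + l + m + 1) ∧ (m + k3 + 2) ≤ (n + i2))
    (a1 : Par W (0) (j) (k - j))
    (a2 : Par W (Q + j - k) (j) (k - j))
    (s1 : Ant W (0) (i) (i + j))
    (s2 : Ant W (j + 1) (Q) (i + j))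
    (b : Par W (i + 1) (i + l + 1) (k - i))
    (c1 : Par W (i2 + 1) (Q) (k + l - i2 + 1))
    (c2 : Par W (k + l + 2) (n) (i2 - k - l - 1))
    (tt : Ant W (i2 - m) (i2) (i + l + i2 + 1))
    (D1 : Par W (Q) (k3) (n + i2 - m - k3 - 1))
    (D2 : Par W (i + l + m + 3) (n) (k3 - i - l - m - 2))
    {L : ℤ} (mx : ∀ a b g, 0 < g → g < n → Par W a b g → b - a ≤ L)
    (hL : L ≤ (n - j - 3) ∧ L ≤ (n + Q - k - 3) ∧ L ≤ (n - l - 3) ∧ L ≤ (n + i - k - 2))
    (bd0 : Bd W n L (j) (i) (k))
    (n1 : Nd W (j) (i) (k))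
    (n2 : Nd W (i + l + 1) (i2) (k + l + 1))
    (n3 : Nd W (n + i2 - m - 1) (i + l + m + 2) (k3)) : False := by
  have H := @h8p G _
   (@h8_1p G _
    (@h8_2p G _
     (@h8_3p G _
      (@h8_4p G _
       (@h8_5p G _
        (@h8_6p G _
         (@h8_7p G _
          (@h8_8p G _)))))
      (@h8_9p G _
       (@h8_10p G _
        (@h8_11p G _
         (@h8_12p G _
          (@h8_13p G _
           (@h8_14p G _)
           (@h8_15p G _)))
         (@h8_16p G _))))))
    (@h8_17p G _
     (@h8_18p G _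
      (@h8_19p G _
       (@h8_20p G _
        (@h8_21p G _
         (@h8_22p G _
          (@h8_23p G _
           (@h8_24p G _
            (@h8_25p G _
             (@h8_26p G _
              (@h8_27p G _
               (@h8_28p G _
                (@h8_29p G _
                 (@h8_30p G _
                  (@h8_31p G _
                   (@h8_32p G _)
                   (@h8_33p G _
                    (@h8_34p G _
                     (@h8_35p G _
                      (@h8_36p G _
                       (@h8_37p G _)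
                       (@h8_38p G _
                        (@h8_39p G _
                         (@h8_40p G _
                          (@h8_41p G _
                           (@h8_42p G _
                            (@h8_43p G _
                             (@h8_44p G _
                              (@h8_45p G _
                               (@h8_46p G _)
                               (@h8_47p G _
                                (@h8_48p G _
                                 (@h8_49p G _
                                  (@h8_50p G _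
                                   (@h8_51p G _
                                    (@h8_52p G _)
                                    (@h8_53p G _))))
                                 (@h8_54p G _
                                  (@h8_55p G _)
                                  (@h8_56p G _
                                   (@h8_57p G _
                                    (@h8_58p G _
                                     (@h8_59p G _
                                      (@h8_60p G _
                                       (@h8_61p G _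
                                        (@h8_62p G _)
                                        (@h8_63p G _)))))))))))))))))))
                      (@h8_64p G _)))))))
                (@h8_65p G _))))
             (@h8_66p G _
              (@h8_67p G _
               (@h8_68p G _
                (@h8_69p G _)
                (@h8_70p G _)))
              (@h8_71p G _
               (@h8_72p G _)
               (@h8_73p G _)))))
           (@h8_74p G _
            (@h8_75p G _)
            (@h8_76p G _)))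
          (@h8_77p G _
           (@h8_78p G _)
           (@h8_79p G _
            (@h8_80p G _
             (@h8_81p G _
              (@h8_82p G _
               (@h8_83p G _
                (@h8_84p G _
                 (@h8_85p G _
                  (@h8_86p G _
                   (@h8_87p G _
                    (@h8_88p G _
                     (@h8_89p G _
                      (@h8_90p G _)
                      (@h8_91p G _))))))))
               (@h8_92p G _
                (@h8_93p G _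
                 (@h8_94p G _
                  (@h8_95p G _))))))
             (@h8_96p G _
              (@h8_97p G _
               (@h8_98p G _
                (@h8_99p G _
                 (@h8_100p G _
                  (@h8_101p G _
                   (@h8_102p G _
                    (@h8_103p G _
                     (@h8_104p G _)
                     (@h8_105p G _))))))))
              (@h8_106p G _))))))))))))
  exact H al hy a1 a2 s1 s2 b c1 c2 tt D1 D2 mx hL bd0 n1 n2 n3

theorem h9 {W : ℤ → G} {n Q i j k l i2 m k3 : ℤ} (al : AL W n Q)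
    (hy : (0) ≤ (i) ∧ (i) ≤ (j) ∧ (j + 1) ≤ (Q) ∧ (Q) ≤ (k) ∧ (k + 1) ≤ (n) ∧ (Q) ≤ (i + l + 1) ∧ (k + l + 2) ≤ (n) ∧ (0) ≤ (i2) ∧ (i2 + 1) ≤ (Q) ∧ (Q + m + 1) ≤ (n + i2) ∧ (i2) ≤ (m) ∧ (Q) ≤ (i + l + m + 2) ∧ (i + l + m + 3) ≤ (n) ∧ (Q) ≤ (k3) ∧ (k3 + 1) ≤ (n) ∧ (i + m + 2) ≤ (k) ∧ (i) ≤ (i2) ∧ (i2) ≤ (i) ∧ (i + m + 1) ≤ (k3) ∧ (k3) ≤ (i + m + 1) ∧ (k3) ≤ (i + l + m + 1) ∧ (m + k3 + 2) ≤ (n + i2))
    (a1 : Par W (0) (j) (k - j))
    (a2 : Par W (Q + j - k) (j) (k - j))
    (s1 : Ant W (0) (i) (i + j))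
    (s2 : Ant W (j + 1) (Q) (i + j))
    (b : Par W (i + 1) (i + l + 1) (k - i))
    (c1 : Par W (i2 + 1) (Q) (k + l - i2 + 1))
    (c2 : Par W (k + l + 2) (n) (i2 - k - l - 1))
    (tt : Ant W (i2 - m) (i2) (i + l + i2 + 1))
    (D1 : Par W (Q) (k3) (n + i2 - m - k3 - 1))
    (D2 : Par W (i + l + m + 3) (n) (k3 - i - l - m - 2))
    {L : ℤ} (mx : ∀ a b g, 0 < g → g < n → Par W a b g → b - a ≤ L)
    (hL : L ≤ (n - j - 3) ∧ L ≤ (n + Q - k - 3) ∧ L ≤ (n - l - 3) ∧ L ≤ (n + i - k - 2))
    (bd0 : Bd W n L (j) (i) (k))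
    (n1 : Nd W (j) (i) (k))
    (n2 : Nd W (i + l + 1) (i2) (k + l + 1))
    (n3 : Nd W (n + i2 - m - 1) (i + l + m + 2) (k3)) : False := by
  have H := @h9p G _
   (@h9_1p G _
    (@h9_2p G _
     (@h9_3p G _
      (@h9_4p G _
       (@h9_5p G _
        (@h9_6p G _
         (@h9_7p G _
          (@h9_8p G _
           (@h9_9p G _)
           (@h9_10p G _))))))))
    (@h9_11p G _
     (@h9_12p G _
      (@h9_13p G _
       (@h9_14p G _
        (@h9_15p G _
         (@h9_16p G _
          (@h9_17p G _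
           (@h9_18p G _
            (@h9_19p G _
             (@h9_20p G _
              (@h9_21p G _
               (@h9_22p G _
                (@h9_23p G _
                 (@h9_24p G _
                  (@h9_25p G _
                   (@h9_26p G _
                    (@h9_27p G _
                     (@h9_28p G _
                      (@h9_29p G _
                       (@h9_30p G _
                        (@h9_31p G _
                         (@h9_32p G _))))))))))))
              (@h9_33p G _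
               (@h9_34p G _)
               (@h9_35p G _))))
            (@h9_36p G _
             (@h9_37p G _
              (@h9_38p G _)
              (@h9_39p G _))))))
         (@h9_40p G _
          (@h9_41p G _
           (@h9_42p G _
            (@h9_43p G _
             (@h9_44p G _)
             (@h9_45p G _
              (@h9_46p G _
               (@h9_47p G _
                (@h9_48p G _
                 (@h9_49p G _)
                 (@h9_50p G _))
                (@h9_51p G _))
               (@h9_52p G _)))))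
           (@h9_53p G _
            (@h9_54p G _)
            (@h9_55p G _
             (@h9_56p G _)
             (@h9_57p G _
              (@h9_58p G _
               (@h9_59p G _)
               (@h9_60p G _)))))))))))))
  exact H al hy a1 a2 s1 s2 b c1 c2 tt D1 D2 mx hL bd0 n1 n2 n3

theorem ev789 {W : ℤ → G} {n Q i j k l i2 m k3 : ℤ} (al : AL W n Q)
    (hy : (0) ≤ (i) ∧ (i) ≤ (j) ∧ (j + 1) ≤ (Q) ∧ (Q) ≤ (k) ∧ (k + 1) ≤ (n) ∧ (Q) ≤ (i + l + 1) ∧ (k + l + 2) ≤ (n) ∧ (0) ≤ (i2) ∧ (i2 + 1) ≤ (Q) ∧ (Q + m + 1) ≤ (n + i2) ∧ (i2) ≤ (m) ∧ (Q) ≤ (i + l + m + 2) ∧ (i + l + m + 3) ≤ (n) ∧ (Q) ≤ (k3) ∧ (k3 + 1) ≤ (n) ∧ (i + m + 2) ≤ (k) ∧ (i) ≤ (i2) ∧ (i2) ≤ (i) ∧ (k3) ≤ (i + l + m + 1) ∧ (m + k3 + 2) ≤ (n + i2))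
    (a1 : Par W (0) (j) (k - j))
    (a2 : Par W (Q + j - k) (j) (k - j))
    (s1 : Ant W (0) (i) (i + j))
    (s2 : Ant W (j + 1) (Q) (i + j))
    (b : Par W (i + 1) (i + l + 1) (k - i))
    (c1 : Par W (i2 + 1) (Q) (k + l - i2 + 1))
    (c2 : Par W (k + l + 2) (n) (i2 - k - l - 1))
    (tt : Ant W (i2 - m) (i2) (i + l + i2 + 1))
    (D1 : Par W (Q) (k3) (n + i2 - m - k3 - 1))
    (D2 : Par W (i + l + m + 3) (n) (k3 - i - l - m - 2))
    {L : ℤ} (mx : ∀ a b g, 0 < g → g < n → Par W a b g → b - a ≤ L)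
    (hL : L ≤ (n - j - 3) ∧ L ≤ (n + Q - k - 3) ∧ L ≤ (n - l - 3) ∧ L ≤ (n + i - k - 2))
    (bd0 : Bd W n L (j) (i) (k))
    (n1 : Nd W (j) (i) (k))
    (n2 : Nd W (i + l + 1) (i2) (k + l + 1))
    (n3 : Nd W (n + i2 - m - 1) (i + l + m + 2) (k3)) : False := by
  obtain ⟨y0, y1, y2, y3, y4, y5, y6, y7, y8, y9, y10, y11, y12, y13, y14, y15, y16, y17, y18, y19⟩ := hy
  rcases lt_trichotomy k3 (i + m + 1) with z | z | z
  · exact ev7 al ⟨y0, y1, y2, y3, y4, y5, y6, y7, y8, y9, y10, y11, y12, y13, y14, y15, y16, y17, by omega⟩ a1 a2 s1 s2 b c1 c2 tt D1 D2 mx hL bd0 n1 n2 n3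
  · exact h9 al ⟨y0, y1, y2, y3, y4, y5, y6, y7, y8, y9, y10, y11, y12, y13, y14, y15, y16, y17, by omega, by omega, y18, y19⟩ a1 a2 s1 s2 b c1 c2 tt D1 D2 mx hL bd0 n1 n2 n3
  · exact h8 al ⟨y0, y1, y2, y3, y4, y5, y6, y7, y8, y9, y10, y11, y12, y13, y14, y15, y16, y17, by omega, y18, y19⟩ a1 a2 s1 s2 b c1 c2 tt D1 D2 mx hL bd0 n1 n2 n3

end Pool.Agent.MP_a38735_al.WL
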