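import Pool.Agent.MP_a38735_al.WT

set_option autoImplicit false
set_option linter.unusedVariables false

namespace Pool.Agent.MP_a38735_al.WL

variable {G : Type*} [Group G]

theorem ev7_8p
    {W : ℤ → G} {n Q i j k l i2 m k3 : ℤ} (al : AL W n Q)
    (hy : (0) ≤ (i) ∧ (i) ≤ (j) ∧ (j + 1) ≤ (Q) ∧ (Q) ≤ (k) ∧ (k + 1) ≤ (n) ∧ (Q) ≤ (i + l + 1) ∧ (k + l + 2) ≤ (n) ∧ (0) ≤ (i2) ∧ (i2 + 1) ≤ (Q) ∧ (Q + m + 1) ≤ (n + i2) ∧ (i2) ≤ (m) ∧ (Q) ≤ (i + l + m + 2) ∧ (i + l + m + 3) ≤ (n) ∧ (Q) ≤ (k3) ∧ (k3 + 1) ≤ (n) ∧ (i + m + 2) ≤ (k) ∧ (i) ≤ (i2) ∧ (i2) ≤ (i) ∧ (k3) ≤ (i + m))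
    (a1 : Par W (0) (j) (k - j))
    (a2 : Par W (Q + j - k) (j) (k - j))
    (s1 : Ant W (0) (i) (i + j))
    (s2 : Ant W (j + 1) (Q) (i + j))
    (b : Par W (i + 1) (i + l + 1) (k - i))
    (c1 : Par W (i2 + 1) (Q) (k + l - i2 + 1))
    (c2 : Par W (k + l + 2) (n) (i2 - k - l - 1))
    (tt : Ant W (i2 - m) (i2) (i + l + i2 + 1))
    (D1 : Par W (Q) (k3) (n + i2 - m - k3 - 1))
    (D2 : Par W (i + l + m + 3) (n) (k3 - i - l - m - 2))
    {L : ℤ} (mx : ∀ a b g, 0 < g → g < n → Par W a b g → b - a ≤ L)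
    (hL : L ≤ (n - j - 3) ∧ L ≤ (n + Q - k - 3) ∧ L ≤ (n - l - 3) ∧ L ≤ (n + i - k - 2))
    (bd0 : Bd W n L (j) (i) (k))
    (n1 : Nd W (j) (i) (k))
    (n2 : Nd W (i + l + 1) (i2) (k + l + 1))
    (n3 : Nd W (n + i2 - m - 1) (i + l + m + 2) (k3))
    (b0 : (i + l + 2 * m + 2) ≤ (n + i2))
    (b1 : (2 * i + j + 1) ≤ (k))
    (b2 : (n + i2) ≤ (i + k + 2 * l + m + 2))
    (b3 : (k + i2) ≤ (i + j + l + 1))
    (b4 : (2 * i + 2 * l + i2 + m + 5) ≤ (n + k3)) : False := by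
  have ev := al.ev
  obtain ⟨y0, y1, y2, y3, y4, y5, y6, y7, y8, y9, y10, y11, y12, y13, y14, y15, y16, y17, y18⟩ := id hy
  have n1p := And.intro n1.p1 n1.p2
  have n2p := And.intro n2.p1 n2.p2
  have n3p := And.intro n3.p1 n3.p2
  by_cases z10 : (n + i2 + k3) ≤ (2 * i + 2 * l + 3 * m + 4)
  · by_cases v3 : (n + k3) ≤ (2 * i + 2 * l + 2 * m + 4)
    · by_cases v4 : (i + l + 1) ≤ (k3)
      · have kk60 : (2 * i + 2 * l + i2 + m + 5) ≤ (n + k3) := by clear * - b4; omega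
        have kk61 : (m + k3 + 2) ≤ (n + i2) := by clear * - b0 b1 b3 v3 y13 y16 y18 y8; omega
        have kk62 : (n + k3) ≤ (2 * i + 2 * l + 2 * m + 4) := by clear * - v3; omega
        have kk63 : (i + l + 1) ≤ (k3) := by clear * - v4; omega
        have r64 : (2 * i + 2 * l + i2 + m - 3 * n - k3 + 3) % 2 = 0 := by clear * - ev n1p n2p n3p; omega
        clear * - al tt D2 kk60 kk61 kk62 kk63 r64
        obtain ⟨t, ht⟩ : ∃ t, 2 * t = (2 * i + 2 * l + i2 + m - 3 * n - k3 + 3) := ⟨(2 * i + 2 * l + i2 + m - 3 * n - k3 + 3) / 2, by omega⟩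
        exact al.ninv t (cE (cE (qa tt al (-1) t ((i + l + i2 - n + 1) - t) (by omega)) (pb D2 al 0 ((i + l + i2 - n + 1) - t) ((2 * i + 2 * l + i2 + m - n - k3 + 3) - t) (by omega))) (sh al (-2) ((2 * i + 2 * l + i2 + m - n - k3 + 3) - t) t (by omega)))
      · have kk65 : (2 * i + 2 * l + i2 + m + 5) ≤ (n + k3) := by clear * - b4; omega
        have kk66 : (2 * i + 2 * l + m + 4) ≤ (n + i2 + k3) := by clear * - b4 y7; omega
        have kk67 : (n + k3) ≤ (2 * i + 2 * l + 2 * m + 4) := by clear * - v3; omega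
        have kk68 : (k3) ≤ (i + l + 1) := by clear * - v4; omega
        have r69 : (2 * i + 2 * l + i2 + m - 3 * n - k3 + 3) % 2 = 0 := by clear * - ev n1p n2p n3p; omega
        clear * - al tt D2 kk65 kk66 kk67 kk68 r69
        obtain ⟨t, ht⟩ : ∃ t, 2 * t = (2 * i + 2 * l + i2 + m - 3 * n - k3 + 3) := ⟨(2 * i + 2 * l + i2 + m - 3 * n - k3 + 3) / 2, by omega⟩
        exact al.ninv t (cE (cE (qa tt al (-1) t ((i + l + i2 - n + 1) - t) (by omega)) (pb D2 al 0 ((i + l + i2 - n + 1) - t) ((2 * i + 2 * l + i2 + m - n - k3 + 3) - t) (by omega))) (sh al (-2) ((2 * i + 2 * l + i2 + m - n - k3 + 3) - t) t (by omega)))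
    · by_cases v5 : (i + l + 1) ≤ (k3)
      · have kk70 : (n + i2 + k3) ≤ (2 * i + 2 * l + 3 * m + 3) := by clear * - z10 ev n1p n2p n3p; omega
        have kk71 : (m + k3 + 2) ≤ (n + i2) := by clear * - b0 b1 b3 y17 y18 y7; omega
        have kk72 : (2 * i + 2 * l + 2 * m + 4) ≤ (n + k3) := by clear * - v3; omega
        have kk73 : (i + l + 1) ≤ (k3) := by clear * - v5; omega
        have r74 : (2 * i + 2 * l + i2 + m - 3 * n - k3 + 3) % 2 = 0 := by clear * - ev n1p n2p n3p; omega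
        clear * - al tt D2 kk70 kk71 kk72 kk73 r74
        obtain ⟨t, ht⟩ : ∃ t, 2 * t = (2 * i + 2 * l + i2 + m - 3 * n - k3 + 3) := ⟨(2 * i + 2 * l + i2 + m - 3 * n - k3 + 3) / 2, by omega⟩
        exact al.ninv t (cE (cE (qa tt al (-1) t ((i + l + i2 - n + 1) - t) (by omega)) (pb D2 al 0 ((i + l + i2 - n + 1) - t) ((2 * i + 2 * l + i2 + m - n - k3 + 3) - t) (by omega))) (sh al (-2) ((2 * i + 2 * l + i2 + m - n - k3 + 3) - t) t (by omega)))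
      · have kk75 : (n + i2 + k3) ≤ (2 * i + 2 * l + 3 * m + 3) := by clear * - z10 ev n1p n2p n3p; omega
        have kk76 : (2 * i + 2 * l + m + 4) ≤ (n + i2 + k3) := by clear * - v3 y7 z10; omega
        have kk77 : (2 * i + 2 * l + 2 * m + 4) ≤ (n + k3) := by clear * - v3; omega
        have kk78 : (k3) ≤ (i + l + 1) := by clear * - v5; omega
        have r79 : (2 * i + 2 * l + i2 + m - 3 * n - k3 + 3) % 2 = 0 := by clear * - ev n1p n2p n3p; omega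
        clear * - al tt D2 kk75 kk76 kk77 kk78 r79
        obtain ⟨t, ht⟩ : ∃ t, 2 * t = (2 * i + 2 * l + i2 + m - 3 * n - k3 + 3) := ⟨(2 * i + 2 * l + i2 + m - 3 * n - k3 + 3) / 2, by omega⟩
        exact al.ninv t (cE (cE (qa tt al (-1) t ((i + l + i2 - n + 1) - t) (by omega)) (pb D2 al 0 ((i + l + i2 - n + 1) - t) ((2 * i + 2 * l + i2 + m - n - k3 + 3) - t) (by omega))) (sh al (-2) ((2 * i + 2 * l + i2 + m - n - k3 + 3) - t) t (by omega)))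
  · by_cases z11 : (i2 + m + 1) ≤ (2 * i + k3)
    · by_cases z12 : (4 * k + 2 * l + m + 3) ≤ (2 * n + 2 * j + i2 + k3)
      · by_cases z13 : (4 * k + k3 + 1) ≤ (2 * n + 3 * i2 + m)
        · by_cases z14 : (2 * j + 2 * k + 2 * l + m + 5) ≤ (2 * n + i2 + k3)
          · by_cases z15 : (2 * i + 6 * k + 4 * l + m + 7) ≤ (4 * n + 3 * i2 + k3)
            · by_cases v6 : (i + k + 2 * l + m + 3) ≤ (n + k3)
              · by_cases v7 : (l + i2 + m + 1) ≤ (j + k3)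
                · have kk80 : (k3) ≤ (i2 + m) := by clear * - y16 y18; omega
                  have kk81 : (2 * j + k3) ≤ (2 * i + 2 * l + i2 + m + 1) := by clear * - y16 y18 y2 y5; omega
                  have kk82 : (k3) ≤ (2 * l + i2 + m + 1) := by clear * - b1 b3 y16 y18 z11; omega
                  have kk83 : (2 * k + 3 * k3) ≤ (2 * i + 4 * l + 3 * i2 + 3 * m + 5) := by clear * - b3 y16 y18 y2 y5; omega
                  have kk84 : (i + m + 1) ≤ (k) := by clear * - y15; omega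
                  have kk85 : (i) ≤ (j) := by clear * - b1 b3 v7 y16 y18 z11; omega
                  have kk86 : (k3) ≤ (i + m + 1) := by clear * - y18; omega
                  have kk87 : (i + k + 2 * l + m + 3) ≤ (n + k3) := by clear * - v6; omega
                  have kk88 : (l + i2 + m + 1) ≤ (j + k3) := by clear * - v7; omega
                  have kk89 : (i + l + i2 + m + 2) ≤ (k + k3) := by clear * - b1 v7 y16 y18 z11; omega
                  have r90 : (i + k - 2 * n) % 2 = 0 := by clear * - ev n1p n2p n3p; omega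
                  have r91 : (i2 + m - k3 + 1) % 2 = 0 := by clear * - ev n1p n2p n3p; omega
                  clear * - al a1 s1 b c2 D2 kk80 kk81 kk82 kk83 kk84 kk85 kk86 kk87 kk88 kk89 r90 r91
                  exact midP al (i2 + m - k3 + 1) (i + k - 2 * n) (k + k3 - n - l - i2 - m - 1) (i - n + 1) (i + l + i2 + m - n - k3 + 2) (by omega) (fun t h1 h2 => (cE (cI (pb a1 al (-1) t (t + (n + j - k)) (by omega)) (qa s1 al 0 (t + (n + j - k)) ((i + k - n) - t) (by omega))) (sh al (-1) ((i + k - n) - t) ((i + k - 2 * n) - t) (by omega)))) (fun t h1 h2 => (cE (cE (qf b al (-1) t (t + (n + k - i)) (by omega)) (pb (show Par W (i2 + 1) (n + i2 - k - l - 1) (k + k3 - i - i2 - m - 1) from fun t h1 h2 => (cE (sh al (-1) t (t + (-n)) (by omega)) (cE (pb c2 al (-1) (t + (-n)) (t + (k + l - i2 + 1)) (by omega)) (qf D2 al 0 (t + (k + l - i2 + 1)) (t + (k + k3 - i - i2 - m - 1)) (by omega))))) al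 0 (t + (n + k - i)) (t + (n + i2 + m - k3 + 1)) (by omega))) (sh al (-1) (t + (n + i2 + m - k3 + 1)) (t + (i2 + m - k3 + 1)) (by omega))))
                · have kk92 : (k3) ≤ (i2 + m) := by clear * - y16 y18; omega
                  have kk93 : (i2 + m + 1) ≤ (2 * i + k3) := by clear * - z11; omega
                  have kk94 : (i2 + m + 1) ≤ (2 * j + k3) := by clear * - y1 z11; omega
                  have kk95 : (2 * k + k3) ≤ (2 * i + 2 * j + 2 * l + i2 + m + 3) := by clear * - b3 y16 y18 z11; omega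
                  have kk96 : (i + m + 1) ≤ (k) := by clear * - y15; omega
                  have kk97 : (i) ≤ (j) := by clear * - y1; omega
                  have kk98 : (k3) ≤ (i + m + 1) := by clear * - y18; omega
                  have kk99 : (i + k + 2 * l + m + 3) ≤ (n + k3) := by clear * - v6; omega
                  have kk100 : (j + k3) ≤ (l + i2 + m + 1) := by clear * - v7; omega
                  have kk101 : (i + j + 1) ≤ (k) := by clear * - b1 y16 y18 z11; omega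
                  have r102 : (i + k - 2 * n) % 2 = 0 := by clear * - ev n1p n2p n3p; omega
                  have r103 : (i2 + m - k3 + 1) % 2 = 0 := by clear * - ev n1p n2p n3p; omega
                  clear * - al a1 s1 b c2 D2 kk92 kk93 kk94 kk95 kk96 kk97 kk98 kk99 kk100 kk101 r102 r103
                  exact midP al (i2 + m - k3 + 1) (i + k - 2 * n) (k - n - j) (i - n + 1) (i + l + i2 + m - n - k3 + 2) (by omega) (fun t h1 h2 => (cE (cI (pb a1 al (-1) t (t + (n + j - k)) (by omega)) (qa s1 al 0 (t + (n + j - k)) ((i + k - n) - t) (by omega))) (sh al (-1) ((i + k - n) - t) ((i + k - 2 * n) - t) (by omega)))) (fun t h1 h2 => (cE (cE (qf b al (-1) t (t + (n + k - i)) (by omega)) (pb (show Par W (i2 + 1) (n + i2 - k - l - 1) (k + k3 - i - i2 - m - 1) from fun t h1 h2 => (cE (sh al (-1) t (t + (-n)) (by omega)) (cE (pb c2 al (-1) (t + (-n)) (t + (k + l - i2 + 1)) (by omega)) (qf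 D2 al 0 (t + (k + l - i2 + 1)) (t + (k + k3 - i - i2 - m - 1)) (by omega))))) al 0 (t + (n + k - i)) (t + (n + i2 + m - k3 + 1)) (by omega))) (sh al (-1) (t + (n + i2 + m - k3 + 1)) (t + (i2 + m - k3 + 1)) (by omega))))
              · by_cases v8 : (n + i2) ≤ (i + j + k + l + 2)
                · have kk104 : (k3) ≤ (i2 + m) := by clear * - y16 y18; omega
                  have kk105 : (2 * j + 2 * k + 2 * l + m + 5) ≤ (2 * n + i2 + k3) := by clear * - z14; omega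
                  have kk106 : (2 * i + 2 * k + 2 * l + m + 5) ≤ (2 * n + i2 + k3) := by clear * - b4 v6 v8 y16 z14 z15; omega
                  have kk107 : (2 * i + 6 * k + 4 * l + m + 7) ≤ (4 * n + 3 * i2 + k3) := by clear * - z15; omega
                  have kk108 : (i + m + 1) ≤ (k) := by clear * - b4 v6 z10; omega
                  have kk109 : (i) ≤ (j) := by clear * - b3 b4 v8 y16 y18; omega
                  have kk110 : (k3) ≤ (i + m + 1) := by clear * - y18; omega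
                  have kk111 : (n + k3) ≤ (i + k + 2 * l + m + 3) := by clear * - v6; omega
                  have kk112 : (n + i2) ≤ (i + j + k + l + 2) := by clear * - v8; omega
                  have kk113 : (n + i2) ≤ (2 * k + l + 1) := by clear * - b1 v8 y16 y18 z14; omega
                  have r114 : (i + k - 2 * n) % 2 = 0 := by clear * - ev n1p n2p n3p; omega
                  have r115 : (i2 + m - k3 + 1) % 2 = 0 := by clear * - ev n1p n2p n3p; omega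
                  clear * - al a1 s1 b c2 D2 kk104 kk105 kk106 kk107 kk108 kk109 kk110 kk111 kk112 kk113 r114 r115
                  exact midP al (i2 + m - k3 + 1) (i + k - 2 * n) (i + 2 * k + l - 2 * n - i2 + 2) (i - n + 1) (i2 - k - l - 1) (by omega) (fun t h1 h2 => (cE (cI (pb a1 al (-1) t (t + (n + j - k)) (by omega)) (qa s1 al 0 (t + (n + j - k)) ((i + k - n) - t) (by omega))) (sh al (-1) ((i + k - n) - t) ((i + k - 2 * n) - t) (by omega)))) (fun t h1 h2 => (cE (cE (qf b al (-1) t (t + (n + k - i)) (by omega)) (pb (show Par W (i2 + 1) (n + i2 - k - l - 1) (k + k3 - i - i2 - m - 1) from fun t h1 h2 => (cE (sh al (-1) t (t + (-n)) (by omega)) (cE (pb c2 al (-1) (t + (-n)) (t + (k + l - i2 + 1)) (by omega)) (qf D2 al 0 (t + (k + l - i2 + 1)) (t + (k + k3 - i - i2 - m - 1)) (by omega))))) al 0 (t + (n + k - i)) (t + (n + i2 + m - k3 + 1)) (by omega))) (sh al (-1) (t + (n + i2 + m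 - k3 + 1)) (t + (i2 + m - k3 + 1)) (by omega))))
                · have kk116 : (k3) ≤ (i2 + m) := by clear * - y16 y18; omega
                  have kk117 : (i2 + m + 1) ≤ (2 * i + k3) := by clear * - z11; omega
                  have kk118 : (i2 + m + 1) ≤ (2 * j + k3) := by clear * - y1 z11; omega
                  have kk119 : (4 * k + 2 * l + m + 3) ≤ (2 * n + 2 * j + i2 + k3) := by clear * - z12; omega
                  have kk120 : (i + m + 1) ≤ (k) := by clear * - b4 v6 z10; omega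
                  have kk121 : (i) ≤ (j) := by clear * - y1; omega
                  have kk122 : (k3) ≤ (i + m + 1) := by clear * - y18; omega
                  have kk123 : (n + k3) ≤ (i + k + 2 * l + m + 3) := by clear * - v6; omega
                  have kk124 : (i + j + k + l + 2) ≤ (n + i2) := by clear * - v8; omega
                  have kk125 : (i + j + 1) ≤ (k) := by clear * - b1 y16 y18 z11; omega
                  have r126 : (i + k - 2 * n) % 2 = 0 := by clear * - ev n1p n2p n3p; omega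
                  have r127 : (i2 + m - k3 + 1) % 2 = 0 := by clear * - ev n1p n2p n3p; omega
                  clear * - al a1 s1 b c2 D2 kk116 kk117 kk118 kk119 kk120 kk121 kk122 kk123 kk124 kk125 r126 r127
                  exact midP al (i2 + m - k3 + 1) (i + k - 2 * n) (k - n - j) (i - n + 1) (i2 - k - l - 1) (by omega) (fun t h1 h2 => (cE (cI (pb a1 al (-1) t (t + (n + j - k)) (by omega)) (qa s1 al 0 (t + (n + j - k)) ((i + k - n) - t) (by omega))) (sh al (-1) ((i + k - n) - t) ((i + k - 2 * n) - t) (by omega)))) (fun t h1 h2 => (cE (cE (qf b al (-1) t (t + (n + k - i)) (by omega)) (pb (show Par W (i2 + 1) (n + i2 - k - l - 1) (k + k3 - i - i2 - m - 1) from fun t h1 h2 => (cE (sh al (-1) t (t + (-n)) (by omega)) (cE (pb c2 al (-1) (t + (-n)) (t + (k + l - i2 + 1)) (by omega)) (qf D2 al 0 (t + (k + l - i2 + 1)) (t + (k + k3 - i - i2 - m - 1)) (by omega))))) al 0 (t + (n + k -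 i)) (t + (n + i2 + m - k3 + 1)) (by omega))) (sh al (-1) (t + (n + i2 + m - k3 + 1)) (t + (i2 + m - k3 + 1)) (by omega))))
            · by_cases v9 : (2 * j + 1) ≤ (k)
              · have kk128 : (k) ≤ (i + 2 * j) := by clear * - y16 y18 z12 z15; omega
                have kk129 : (k) ≤ (i + 2 * j + 1) := by clear * - y16 y18 z12 z15; omega
                have kk130 : (2 * j + 1) ≤ (k) := by clear * - v9; omega
                have kk131 : (i + j + 1) ≤ (k) := by clear * - b4 v9 y16 z13 z15; omega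
                have r132 : (i + 2 * j - k) % 2 = 0 := by clear * - ev n1p n2p n3p; omega
                clear * - al a1 s1 kk128 kk129 kk130 kk131 r132
                obtain ⟨t, ht⟩ : ∃ t, 2 * t = (i + 2 * j - k) := ⟨(i + 2 * j - k) / 2, by omega⟩
                exact al.ninv t (cI (qf a1 al 0 t (t + (k - j)) (by omega)) (ab s1 al 0 (t + (k - j)) t (by omega)))
              · have kk133 : (2 * j + 2) ≤ (i + k) := by clear * - y16 y18 z14 z15; omega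
                have kk134 : (k) ≤ (i + 2 * j + 1) := by clear * - v9 y16 y18 z14 z15; omega
                have kk135 : (k) ≤ (2 * j + 1) := by clear * - v9; omega
                have kk136 : (i + j + 1) ≤ (k) := by clear * - b1 v9 y16 y18 z14 z15; omega
                have r137 : (i + 2 * j - k) % 2 = 0 := by clear * - ev n1p n2p n3p; omega
                clear * - al a1 s1 kk133 kk134 kk135 kk136 r137
                obtain ⟨t, ht⟩ : ∃ t, 2 * t = (i + 2 * j - k) := ⟨(i + 2 * j - k) / 2, by omega⟩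
                exact al.ninv t (cI (qf a1 al 0 t (t + (k - j)) (by omega)) (ab s1 al 0 (t + (k - j)) t (by omega)))
          · have kk138 : (2 * k + l + 2) ≤ (n + j + i2) := by clear * - y16 y18 z12; omega
            have kk139 : (j + i2) ≤ (2 * k + l) := by clear * - b1 y16 y18 z11 z12 z13 z14; omega
            have kk140 : (j + i2 + 1) ≤ (k) := by clear * - b1 y17 y18 z11; omega
            have kk141 : (n + i2) ≤ (2 * k + l + 1) := by clear * - b1 y16 y18 z11 z14; omega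
            clear * - al a1 c2 kk138 kk139 kk140 kk141
            exact al.ubP (n + j + i2 - 2 * k - l - 1) (by omega) (by omega) fun t h1 h2 => (cE (qf c2 al (-1) t (t + (n + i2 - k - l - 1)) (by omega)) (pb a1 al 0 (t + (n + i2 - k - l - 1)) (t + (n + j + i2 - 2 * k - l - 1)) (by omega)))
        · have kk142 : (2 * k + l + 2) ≤ (n + j + i2) := by clear * - y16 y18 z12; omega
          have kk143 : (j + i2) ≤ (2 * k + l) := by clear * - b1 b3 y16 y18 z11 z12 z13; omega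
          have kk144 : (n + i2) ≤ (Q + k + l + 1) := by clear * - b3 y16 y18 y2 z13; omega
          have kk145 : (j + i2 + 1) ≤ (k) := by clear * - b1 y17 y18 z11; omega
          have kk146 : (Q) ≤ (k) := by clear * - b1 b3 y13 y16 y18 z10 z11 z13; omega
          clear * - al a1 c1 kk142 kk143 kk144 kk145 kk146
          exact al.ubP (n + j + i2 - 2 * k - l - 1) (by omega) (by omega) fun t h1 h2 => (cE (sh al 2 t (t + (2 * n)) (by omega)) (cE (pb c1 al 1 (t + (2 * n)) (t + (n + i2 - k - l - 1)) (by omega)) (pb a1 al 0 (t + (n + i2 - k - l - 1)) (t + (n + j + i2 - 2 * k - l - 1)) (by omega))))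
      · by_cases z16 : (Q + j + m) ≤ (k + i2)
        · by_cases z17 : (2 * i + l + 1) ≤ (j + k)
          · by_cases v10 : (i + l + 1) ≤ (k)
            · have kk147 : (k) ≤ (i + l + m + 1) := by clear * - b3 y13 y16 y18 y2; omega
              have kk148 : (i + m + 2) ≤ (k) := by clear * - b0 b3 b4 v10 y16 z10 z11 z12; omega
              have kk149 : (j + 1) ≤ (k) := by clear * - b1 y16 y18 z11; omega
              have kk150 : (Q) ≤ (k) := by clear * - b1 b2 b3 y13 y18 z10 z16 z17; omega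
              have kk151 : (Q + j) ≤ (k + k3) := by clear * - b1 y13 y16 y18 z11; omega
              have kk152 : (k3 + 1) ≤ (k) := by clear * - b0 b3 y18 z12 z17; omega
              have kk153 : (Q + j) ≤ (2 * i + l + m + 2) := by clear * - b3 v10 y13 y16 y18 y2 z16; omega
              have kk154 : (2 * i + l + m + 3) ≤ (2 * k) := by clear * - b0 b4 v10 z10 z11 z12 z17; omega
              have kk155 : (k) ≤ (j + l + 1) := by clear * - b3 y16; omega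
              have kk156 : (k) ≤ (i + l + m + 2) := by clear * - b3 y13 y16 y18 y2; omega
              have kk157 : (k + l + 1) ≤ (n) := by clear * - y6; omega
              have kk158 : (i + l + 1) ≤ (k) := by clear * - v10; omega
              have kk159 : (i + m + 1) ≤ (k) := by clear * - b0 b3 b4 v10 y16 z10 z11 z12; omega
              have kk160 : (Q + j) ≤ (k + k3 + 1) := by clear * - b1 y13 y16 y18 z11; omega
              have kk161 : (Q + j) ≤ (2 * i + l + m + 3) := by clear * - b3 v10 y13 y16 y18 y2 z16; omega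
              have kk162 : (k3) ≤ (i + m + 1) := by clear * - y18; omega
              have kk163 : (i + l + i2 + 1) ≤ (2 * k) := by clear * - b2 b4 v10 y18 z10; omega
              have kk164 : (Q + j) ≤ (i + k + 1) := by clear * - b1 y13 y18 z11 z16; omega
              have kk165 : (2 * i + l + m + 2) ≤ (2 * k) := by clear * - b0 b4 v10 z10 z11 z12 z17; omega
              have kk166 : (Q + j + m) ≤ (k + i2) := by clear * - z16; omega
              have r167 : (2 * i + l + m - k - k3 + 2) % 2 = 0 := by clear * - ev n1p n2p n3p; omega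
              have r168 : (k - j) % 2 = 0 := by clear * - ev n1p n2p n3p; omega
              have r169 : (2 * i + l + i2 - 2 * n - k + 1) % 2 = 0 := by clear * - ev n1p n2p n3p; omega
              clear * - al a2 b tt D2 n3 kk147 kk148 kk149 kk150 kk151 kk152 kk153 kk154 kk155 kk156 kk157 kk158 kk159 kk160 kk161 kk162 kk163 kk164 kk165 kk166 r167 r168 r169
              exact ivt al.ninv (Q + j - n - k) (j - n) (k - j) (k3 - n + 1) (k + k3 - n - i - m - 1) (2 * i + l + m - k - k3 + 2) (k3 - n) (2 * i + l + m - n - k + 2) 0 (fun t h1 h2 => (cE (qf a2 al (-1) t (t + (n + k - j)) (by omega)) (sh al (-1) (t + (n + k - j)) (t + (k - j)) (by omega)))) (fun t h1 h2 => (cE (sh al 1 t (t + (n)) (by omega)) (cE (qf (show Par W (k3 + 1) (k + k3 - i - m - 1) (2 * i + l + m - k - k3 + 2) from fun t h1 h2 => (cE (sh al (-1) t (t + (-n)) (by omega)) (cE (pb D2 al (-1) (t + (-n)) (t + (i + l + m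 - k3 + 2)) (by omega)) (pb b al 0 (t + (i + l + m - k3 + 2)) (t + (2 * i + l + m - k - k3 + 2)) (by omega))))) al 0 (t + (n)) (t + (n + 2 * i + l + m - k - k3 + 2)) (by omega)) (sh al (-1) (t + (n + 2 * i + l + m - k - k3 + 2)) (t + (2 * i + l + m - k - k3 + 2)) (by omega))))) (fun hh => n3.f1 (rEE (cE (pb b al 0 (i + l + m + 2) (2 * i + l + m - k + 2) (by omega)) (sh al (-1) (2 * i + l + m - k + 2) (2 * i + l + m - n - k + 2) (by omega))) (sh al (-1) (k3) (k3 - n) (by omega)) (Eq.symm (Eq.symm hh)))) (by omega) (i - n + 1) (2 * i + l + m - n - k + 2) (2 * i + l + i2 - 2 * n - k + 1) 1 (-1) (fun t h1 h2 => (cI (sh al 1 t (t + (n)) (by omega)) (cE (cI (qf b al 0 (t + (n)) (t + (n + k - i)) (by omega)) (ab tt al 0 (t + (n + k - i)) ((2 * i + l + i2 - n - k + 1) - t) (by omega))) (sh al (-1) ((2 * i + l + i2 - n - k + 1) - t) ((2 * i + l + i2 - 2 * n - k + 1) - t) (by omega))))) (by omega)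
            · have kk170 : (k) ≤ (i + l + m + 1) := by clear * - v10 y10 y16 y18 z11; omega
              have kk171 : (i + m + 2) ≤ (k) := by clear * - b0 b4 v10 z10 z11 z12 z17; omega
              have kk172 : (j + 1) ≤ (k) := by clear * - b4 v10 y16 y18 z11 z12; omega
              have kk173 : (Q) ≤ (k) := by clear * - b2 b4 v10 y13 y18 z10 z16 z17; omega
              have kk174 : (Q + j) ≤ (k + k3) := by clear * - b4 v10 y13 y16 y18 z11 z12; omega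
              have kk175 : (k3 + 1) ≤ (k) := by clear * - b1 b2 v10 y18 z10 z11 z12 z17; omega
              have kk176 : (Q + j) ≤ (2 * i + l + m + 2) := by clear * - b4 v10 y13 y16 y18 z11 z12; omega
              have kk177 : (2 * i + l + m + 3) ≤ (2 * k) := by clear * - b1 b2 y18 z10 z11 z12 z17; omega
              have kk178 : (2 * i + l + 1) ≤ (j + k) := by clear * - z17; omega
              have kk179 : (k) ≤ (i + l + m + 2) := by clear * - v10 y10 y16 y18 z11; omega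
              have kk180 : (k + l + 1) ≤ (n) := by clear * - b4 v10 y16 y18 z11; omega
              have kk181 : (k) ≤ (i + l + 1) := by clear * - v10; omega
              have kk182 : (i + m + 1) ≤ (k) := by clear * - b0 b4 v10 z10 z11 z12 z17; omega
              have kk183 : (Q + j) ≤ (k + k3 + 1) := by clear * - b4 v10 y13 y16 y18 z11 z12; omega
              have kk184 : (Q + j) ≤ (2 * i + l + m + 3) := by clear * - b4 v10 y13 y16 y18 z11 z12; omega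
              have kk185 : (k + k3) ≤ (2 * i + l + m + 2) := by clear * - v10 y18; omega
              have kk186 : (i2) ≤ (k) := by clear * - b2 b4 y18 z10; omega
              have kk187 : (Q + j) ≤ (2 * i + l + 2) := by clear * - b1 v10 y13 y18 z11 z16; omega
              have kk188 : (2 * i + l + m + 2) ≤ (2 * k) := by clear * - b1 b2 y18 z10 z11 z12 z17; omega
              have kk189 : (Q + j + m) ≤ (k + i2) := by clear * - z16; omega
              have r190 : (2 * i + l + m - k - k3 + 2) % 2 = 0 := by clear * - ev n1p n2p n3p; omega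
              have r191 : (k - j) % 2 = 0 := by clear * - ev n1p n2p n3p; omega
              have r192 : (2 * i + l + i2 - 2 * n - k + 1) % 2 = 0 := by clear * - ev n1p n2p n3p; omega
              clear * - al a2 b tt D2 n3 kk170 kk171 kk172 kk173 kk174 kk175 kk176 kk177 kk178 kk179 kk180 kk181 kk182 kk183 kk184 kk185 kk186 kk187 kk188 kk189 r190 r191 r192
              exact ivt al.ninv (Q + j - n - k) (j - n) (k - j) (k3 - n + 1) (2 * k + k3 - n - 2 * i - l - m - 2) (2 * i + l + m - k - k3 + 2) (k3 - n) (2 * i + l + m - n - k + 2) 0 (fun t h1 h2 => (cE (qf a2 al (-1) t (t + (n + k - j)) (by omega)) (sh al (-1) (t + (n + k - j)) (t + (k - j)) (by omega)))) (fun t h1 h2 => (cE (sh al 1 t (t + (n)) (by omega)) (cE (qf (show Par W (k3 + 1) (k + k3 - i - m - 1) (2 * i + l + m - k - k3 + 2) from fun t h1 h2 => (cE (sh al (-1) t (t + (-n)) (by omega)) (cE (pb D2 al (-1) (t + (-n)) (t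 + (i + l + m - k3 + 2)) (by omega)) (pb b al 0 (t + (i + l + m - k3 + 2)) (t + (2 * i + l + m - k - k3 + 2)) (by omega))))) al 0 (t + (n)) (t + (n + 2 * i + l + m - k - k3 + 2)) (by omega)) (sh al (-1) (t + (n + 2 * i + l + m - k - k3 + 2)) (t + (2 * i + l + m - k - k3 + 2)) (by omega))))) (fun hh => n3.f1 (rEE (cE (pb b al 0 (i + l + m + 2) (2 * i + l + m - k + 2) (by omega)) (sh al (-1) (2 * i + l + m - k + 2) (2 * i + l + m - n - k + 2) (by omega))) (sh al (-1) (k3) (k3 - n) (by omega)) (Eq.symm (Eq.symm hh)))) (by omega) (2 * i + l - n - k + 2) (2 * i + l + m - n - k + 2) (2 * i + l + i2 - 2 * n - k + 1) 1 (-1) (fun t h1 h2 => (cI (sh al 1 t (t + (n)) (by omega)) (cE (cI (qf b al 0 (t + (n)) (t + (n + k - i)) (by omega)) (ab tt al 0 (t + (n + k - i)) ((2 * i + l + i2 - n - k + 1) - t) (by omega))) (sh al (-1) ((2 * i + l + i2 - n - k + 1) - t) ((2 * i + l + i2 - 2 * n - k + 1)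 - t) (by omega))))) (by omega)
          · have kk193 : (i + m + 2) ≤ (k) := by clear * - b3 b4 y16 y18 z10 z11 z12; omega
            have kk194 : (k + l + 2) ≤ (n) := by clear * - b3 b4 y16 y18 z11 z17; omega
            have kk195 : (i + 1) ≤ (k) := by clear * - b3 b4 y16 y18 z11 z12; omega
            have kk196 : (0) ≤ (l) := by clear * - b3 b4 y16 y18 z11 z12 z17; omega
            have kk197 : (2 * i + m + 2) ≤ (k + k3) := by clear * - b2 b4 y16 z10; omega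
            have kk198 : (k3) ≤ (i + l + m + 1) := by clear * - b3 b4 y16 y18 z11 z12 z17; omega
            have kk199 : (i2) ≤ (j) := by clear * - y1 y17; omega
            have kk200 : (Q + j + m) ≤ (k + i2) := by clear * - z16; omega
            have kk201 : (0) ≤ (l + m + 2) := by clear * - b2 b3 b4 y16 y18 z11 z17; omega
            have kk202 : (i) ≤ (k3) := by clear * - y13 y16 y8; omega
            have kk203 : (k + l + 1) ≤ (n) := by clear * - b3 b4 y16 y18 z11 z17; omega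
            have kk204 : (k3) ≤ (i + l + m + 2) := by clear * - b3 b4 y16 y18 z11 z12 z17; omega
            have kk205 : (0) ≤ (l + 1) := by clear * - b3 b4 y16 y18 z11 z12 z17; omega
            have kk206 : (i2) ≤ (j + l + 1) := by clear * - b3 b4 y16 y18 z11 z12; omega
            have kk207 : (i + j + m + 1) ≤ (k + i2) := by clear * - b3 b4 y16 y18 z10 z11 z12 z17; omega
            have r208 : (k3 - i - l - m - 2) % 2 = 0 := by clear * - ev n1p n2p n3p; omega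
            have r209 : (k - i) % 2 = 0 := by clear * - ev n1p n2p n3p; omega
            have r210 : (i + k + l + i2 - 2 * n - j + 1) % 2 = 0 := by clear * - ev n1p n2p n3p; omega
            clear * - al a2 b tt D2 n2 kk193 kk194 kk195 kk196 kk197 kk198 kk199 kk200 kk201 kk202 kk203 kk204 kk205 kk206 kk207 r208 r209 r210
            exact ivt al.ninv (i - n + 1) (i + l - n + 1) (k - i) (i + l + m - n + 3) (k + l - n + 1) (k3 - i - l - m - 2) (i + l - n + 1) (k + k3 - n - i - m - 1) 1 (fun t h1 h2 => (cE (qf b al (-1) t (t + (n + k - i)) (by omega)) (sh al (-1) (t + (n + k - i)) (t + (k - i)) (by omega)))) (fun t h1 h2 => (cE (qf D2 al (-1) t (t + (n + k3 - i - l - m - 2)) (by omega)) (sh al (-1) (t + (n + k3 - i - l - m - 2)) (t + (k3 - i - l - m - 2)) (by omega)))) (fun hh => n2.f0 (rEE (sh al (-1) (i + l + 1) (i + l - n + 1) (by omega)) (cE (qf D2 al 0 (k + l + 1) (k + k3 - i -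 m - 1) (by omega)) (sh al (-1) (k + k3 - i - m - 1) (k + k3 - n - i - m - 1) (by omega))) (Eq.symm hh))) (by omega) (i + l - n + 2) (i + l + m - n + 2) (i + k + l + i2 - 2 * n - j + 1) 0 (-1) (fun t h1 h2 => (cE (cE (ab tt al (-1) t ((i + l + i2 - n + 1) - t) (by omega)) (qf a2 al 0 ((i + l + i2 - n + 1) - t) ((i + k + l + i2 - n - j + 1) - t) (by omega))) (sh al (-1) ((i + k + l + i2 - n - j + 1) - t) ((i + k + l + i2 - 2 * n - j + 1) - t) (by omega)))) (by omega)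
        · by_cases v11 : (i + l + 2 * i2 + m + 2) ≤ (k + k3)
          · have kk211 : (k3) ≤ (i2 + m) := by clear * - y16 y18; omega
            have kk212 : (2 * k + k3) ≤ (2 * i + 2 * l + i2 + 3 * m + 3) := by clear * - b3 y13 y16 y18 y2; omega
            have kk213 : (4 * k + k3 + 1) ≤ (2 * n + 5 * i2 + m) := by clear * - b3 y13 y16 y18 y2 z10; omega
            have kk214 : (2 * i + 2 * k + 2 * l + m + 5) ≤ (2 * n + i2 + k3) := by clear * - b3 v11 y13 y16 y18 y2 z10; omega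
            have kk215 : (k3) ≤ (i + l + 1) := by clear * - b3 y13 y16 y18 y2 z10 z12; omega
            have kk216 : (2 * i + 2 * l + 2 * m + 4) ≤ (n + k3) := by clear * - b4 z10; omega
            have kk217 : (i2) ≤ (i) := by clear * - y17; omega
            have kk218 : (k3) ≤ (k) := by clear * - b3 b4 y16 y18 z10 z11 z12; omega
            have kk219 : (n + i2) ≤ (i + k + 2 * l + 2) := by clear * - b3 y16 z11 z12; omega
            have kk220 : (k3) ≤ (i2 + m + 1) := by clear * - y16 y18; omega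
            have kk221 : (i + l + i2 + m + 2) ≤ (k + k3) := by clear * - v11 y16 y18 z11; omega
            have kk222 : (i + l + 2 * i2 + m + 2) ≤ (k + k3) := by clear * - v11; omega
            have r223 : (3 * n + 2 * i + 2 * l + i2 + m - k3 + 3) % 2 = 0 := by clear * - ev n1p n2p n3p; omega
            have r224 : (i2 + m - k3 + 1) % 2 = 0 := by clear * - ev n1p n2p n3p; omega
            clear * - al b c2 tt D2 kk211 kk212 kk213 kk214 kk215 kk216 kk217 kk218 kk219 kk220 kk221 kk222 r223 r224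
            exact midP al (i2 + m - k3 + 1) (3 * n + 2 * i + 2 * l + i2 + m - k3 + 3) (n + i + k + l - i2 + 2) (n + i + k + l - i2 + 2) (2 * n) (by omega) (fun t h1 h2 => (cE (cI (qf D2 al 1 t (t + (k3 - n - i - l - m - 2)) (by omega)) (ab tt al 0 (t + (k3 - n - i - l - m - 2)) ((n + 2 * i + 2 * l + i2 + m - k3 + 3) - t) (by omega))) (sh al 2 ((n + 2 * i + 2 * l + i2 + m - k3 + 3) - t) ((3 * n + 2 * i + 2 * l + i2 + m - k3 + 3) - t) (by omega)))) (fun t h1 h2 => (cE (cE (cE (qf c2 al 1 t (t + (i2 - n - k - l - 1)) (by omega)) (qf b al 0 (t + (i2 - n - k - l - 1)) (t + (i2 - n - i - l - 1)) (by omega))) (pb D2 al 0 (t + (i2 - n - i - l - 1)) (t + (i2 + m - n - k3 + 1)) (by omega))) (sh al 1 (t + (i2 + m - n - k3 + 1)) (t + (i2 + m - k3 + 1)) (by omega))))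
          · have kk225 : (k3) ≤ (i2 + m) := by clear * - y16 y18; omega
            have kk226 : (3 * i2 + 1) ≤ (m + k3) := by clear * - b1 y13 y17 z16; omega
            have kk227 : (2 * i + 2 * k + 2 * l + m + 5) ≤ (2 * n + i2 + k3) := by clear * - b1 b4 v11 y13 y17 z10 z16; omega
            have kk228 : (4 * i + 4 * l + 3 * i2 + 3 * m + 9) ≤ (2 * n + 3 * k3) := by clear * - b1 b4 y13 y17 z10 z16; omega
            have kk229 : (k3) ≤ (i + l + 1) := by clear * - b1 b3 v11 y18 z10 z11 z12; omega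
            have kk230 : (2 * i + 2 * l + 2 * m + 4) ≤ (n + k3) := by clear * - b4 z10; omega
            have kk231 : (i2) ≤ (i) := by clear * - y17; omega
            have kk232 : (k3) ≤ (k) := by clear * - b3 b4 y16 y18 z10 z11 z12; omega
            have kk233 : (n + i2) ≤ (i + k + 2 * l + 2) := by clear * - b3 y16 z11 z12; omega
            have kk234 : (k3) ≤ (i2 + m + 1) := by clear * - y16 y18; omega
            have kk235 : (k + k3) ≤ (i + l + 2 * i2 + m + 2) := by clear * - v11; omega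
            have kk236 : (0) ≤ (i2) := by clear * - y16 y18 z11; omega
            have r237 : (3 * n + 2 * i + 2 * l + i2 + m - k3 + 3) % 2 = 0 := by clear * - ev n1p n2p n3p; omega
            have r238 : (i2 + m - k3 + 1) % 2 = 0 := by clear * - ev n1p n2p n3p; omega
            clear * - al b c2 tt D2 kk225 kk226 kk227 kk228 kk229 kk230 kk231 kk232 kk233 kk234 kk235 kk236 r237 r238
            exact midP al (i2 + m - k3 + 1) (3 * n + 2 * i + 2 * l + i2 + m - k3 + 3) (n + 2 * i + 2 * l + i2 + m - k3 + 4) (n + i + k + l - i2 + 2) (2 * n) (by omega) (fun t h1 h2 => (cE (cI (qf D2 al 1 t (t + (k3 - n - i - l - m - 2)) (by omega)) (ab tt al 0 (t + (k3 - n - i - l - m - 2)) ((n + 2 * i + 2 * l + i2 + m - k3 + 3) - t) (by omega))) (sh al 2 ((n + 2 * i + 2 * l + i2 + m - k3 + 3) - t) ((3 * n + 2 * i + 2 * l + i2 + m - k3 + 3) - t) (by omega)))) (fun t h1 h2 => (cE (cE (cE (qf c2 al 1 t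 (t + (i2 - n - k - l - 1)) (by omega)) (qf b al 0 (t + (i2 - n - k - l - 1)) (t + (i2 - n - i - l - 1)) (by omega))) (pb D2 al 0 (t + (i2 - n - i - l - 1)) (t + (i2 + m - n - k3 + 1)) (by omega))) (sh al 1 (t + (i2 + m - n - k3 + 1)) (t + (i2 + m - k3 + 1)) (by omega))))
    · by_cases v12 : (n + i2) ≤ (i + k + 2 * l + 2)
      · by_cases v13 : (k + k3) ≤ (2 * i + l + i2 + m + 2)
        · have kk239 : (k3) ≤ (i2 + m) := by clear * - y16 y18; omega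
          have kk240 : (3 * i2 + 1) ≤ (m + k3) := by clear * - y13 y17 y8 z11; omega
          have kk241 : (2 * k + 2 * l + i2 + m + 5) ≤ (2 * n + k3) := by clear * - b4 v13 y13 y17 y8 z10 z11; omega
          have kk242 : (4 * i + 4 * l + i2 + m + 7) ≤ (2 * n + k3) := by clear * - b4 y16 y18; omega
          have kk243 : (0) ≤ (i2) := by clear * - y7; omega
          have kk244 : (i + l + 2 * m + 3) ≤ (n + i2) := by clear * - b2 b4 v12 v13 y18 z10 z11; omega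
          have kk245 : (i2 + m + 1) ≤ (k) := by clear * - b4 v12 y18 z10; omega
          have kk246 : (i) ≤ (i2) := by clear * - y16; omega
          have kk247 : (n + i2) ≤ (i + k + 2 * l + 2) := by clear * - v12; omega
          have kk248 : (k3) ≤ (i2 + m + 1) := by clear * - y16 y18; omega
          have kk249 : (k + k3) ≤ (2 * i + l + i2 + m + 2) := by clear * - v13; omega
          have r250 : (3 * n + i2 + k3 - m - 1) % 2 = 0 := by clear * - ev n1p n2p n3p; omega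
          have r251 : (i2 + m - k3 + 1) % 2 = 0 := by clear * - ev n1p n2p n3p; omega
          clear * - al b c2 tt D2 kk239 kk240 kk241 kk242 kk243 kk244 kk245 kk246 kk247 kk248 kk249 r250 r251
          exact midP al (i2 + m - k3 + 1) (3 * n + i2 + k3 - m - 1) (n + i + l + i2 + 2) (n + k + k3 - i - m) (2 * n + i2 - i - l - 1) (by omega) (fun t h1 h2 => (cE (cE (ab tt al 1 t ((n + i + l + i2 + 1) - t) (by omega)) (qf D2 al (-1) ((n + i + l + i2 + 1) - t) ((2 * n + i2 + k3 - m - 1) - t) (by omega))) (sh al 1 ((2 * n + i2 + k3 - m - 1) - t) ((3 * n + i2 + k3 - m - 1) - t) (by omega)))) (fun t h1 h2 => (cE (cE (cE (pb D2 al 1 t (t + (i + l + m - n - k3 + 2)) (by omega)) (qf c2 al 0 (t + (i + l + m - n - k3 + 2)) (t + (i + i2 + m - n - k - k3 + 1)) (by omega))) (qf b al 0 (t + (i + i2 + m - n - k - k3 + 1)) (t + (i2 + m - n - k3 + 1)) (by omega))) (sh al 1 (t + (i2 + m - n - k3 + 1))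 (t + (i2 + m - k3 + 1)) (by omega))))
        · have kk252 : (k3) ≤ (i2 + m) := by clear * - y16 y18; omega
          have kk253 : (2 * k + i2 + k3) ≤ (4 * i + 2 * l + 3 * m + 3) := by clear * - b3 y13 y16 y18 y2; omega
          have kk254 : (4 * k + k3 + 1) ≤ (2 * n + 4 * i + i2 + m) := by clear * - b3 y13 y16 y18 y2 z10; omega
          have kk255 : (2 * k + 2 * l + k3 + 3) ≤ (2 * n + i2 + m) := by clear * - y16 y18 y6; omega
          have kk256 : (0) ≤ (i2) := by clear * - y7; omega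
          have kk257 : (i + l + 2 * m + 3) ≤ (n + i2) := by clear * - b1 b3 y17 y7 z10 z11; omega
          have kk258 : (i2 + m + 1) ≤ (k) := by clear * - b4 v12 y18 z10; omega
          have kk259 : (i) ≤ (i2) := by clear * - y16; omega
          have kk260 : (n + i2) ≤ (i + k + 2 * l + 2) := by clear * - v12; omega
          have kk261 : (k3) ≤ (i2 + m + 1) := by clear * - y16 y18; omega
          have kk262 : (2 * i + l + i2 + m + 2) ≤ (k + k3) := by clear * - v13; omega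
          have r263 : (3 * n + i2 + k3 - m - 1) % 2 = 0 := by clear * - ev n1p n2p n3p; omega
          have r264 : (i2 + m - k3 + 1) % 2 = 0 := by clear * - ev n1p n2p n3p; omega
          clear * - al b c2 tt D2 kk252 kk253 kk254 kk255 kk256 kk257 kk258 kk259 kk260 kk261 kk262 r263 r264
          exact midP al (i2 + m - k3 + 1) (3 * n + i2 + k3 - m - 1) (n + k + k3 - i - m) (n + k + k3 - i - m) (2 * n + i2 - i - l - 1) (by omega) (fun t h1 h2 => (cE (cE (ab tt al 1 t ((n + i + l + i2 + 1) - t) (by omega)) (qf D2 al (-1) ((n + i + l + i2 + 1) - t) ((2 * n + i2 + k3 - m - 1) - t) (by omega))) (sh al 1 ((2 * n + i2 + k3 - m - 1) - t) ((3 * n + i2 + k3 - m - 1) - t) (by omega)))) (fun t h1 h2 => (cE (cE (cE (pb D2 al 1 t (t + (i + l + m - n - k3 + 2)) (by omega)) (qf c2 al 0 (t + (i + l + m - n - k3 + 2)) (t + (i + i2 + m - n - k - k3 + 1)) (by omega))) (qf b al 0 (t + (i + i2 + m -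 n - k - k3 + 1)) (t + (i2 + m - n - k3 + 1)) (by omega))) (sh al 1 (t + (i2 + m - n - k3 + 1)) (t + (i2 + m - k3 + 1)) (by omega))))
      · by_cases v14 : (k + k3) ≤ (2 * i + l + i2 + m + 2)
        · by_cases v15 : (n + k3) ≤ (i + k + 2 * l + m + 3)
          · have kk265 : (k3) ≤ (i2 + m) := by clear * - v12 v15; omega
            have kk266 : (3 * i2 + 1) ≤ (m + k3) := by clear * - y13 y17 y8 z11; omega
            have kk267 : (2 * k + 2 * l + i2 + m + 5) ≤ (2 * n + k3) := by clear * - v12 v14 v15 y13 y17 y8 z10 z11; omega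
            have kk268 : (2 * i + 3 * i2 + m + 3) ≤ (2 * k + k3) := by clear * - b2 b4 y17 z10 z11; omega
            have kk269 : (0) ≤ (i2) := by clear * - y7; omega
            have kk270 : (i + l + 2 * m + 3) ≤ (n + i2) := by clear * - b4 v14 v15 z10; omega
            have kk271 : (i2 + m + 1) ≤ (k) := by clear * - b4 v15 y17 z10; omega
            have kk272 : (i) ≤ (i2) := by clear * - y16; omega
            have kk273 : (i + k + 2 * l + 2) ≤ (n + i2) := by clear * - v12; omega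
            have kk274 : (k + k3) ≤ (2 * i + l + i2 + m + 2) := by clear * - v14; omega
            have kk275 : (n + k3) ≤ (i + k + 2 * l + m + 3) := by clear * - v15; omega
            have r276 : (3 * n + i2 + k3 - m - 1) % 2 = 0 := by clear * - ev n1p n2p n3p; omega
            have r277 : (i2 + m - k3 + 1) % 2 = 0 := by clear * - ev n1p n2p n3p; omega
            clear * - al b c2 tt D2 kk265 kk266 kk267 kk268 kk269 kk270 kk271 kk272 kk273 kk274 kk275 r276 r277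
            exact midP al (i2 + m - k3 + 1) (3 * n + i2 + k3 - m - 1) (n + i + l + i2 + 2) (n + k + k3 - i - m) (n + k + l + 1) (by omega) (fun t h1 h2 => (cE (cE (ab tt al 1 t ((n + i + l + i2 + 1) - t) (by omega)) (qf D2 al (-1) ((n + i + l + i2 + 1) - t) ((2 * n + i2 + k3 - m - 1) - t) (by omega))) (sh al 1 ((2 * n + i2 + k3 - m - 1) - t) ((3 * n + i2 + k3 - m - 1) - t) (by omega)))) (fun t h1 h2 => (cE (cE (cE (pb D2 al 1 t (t + (i + l + m - n - k3 + 2)) (by omega)) (qf c2 al 0 (t + (i + l + m - n - k3 + 2)) (t + (i + i2 + m - n - k - k3 + 1)) (by omega))) (qf b al 0 (t + (i + i2 + m - n - k - k3 + 1)) (t + (i2 + m - n - k3 + 1)) (by omega))) (sh al 1 (t + (i2 + m - n - k3 + 1)) (t + (i2 + m - k3 + 1)) (by omega))))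
          · have kk278 : (k3) ≤ (i2 + m) := by clear * - y16 y18; omega
            have kk279 : (2 * n + 3 * i2 + k3) ≤ (2 * i + 2 * k + 4 * l + 3 * m + 5) := by clear * - b2 y17 z11; omega
            have kk280 : (i2 + k3) ≤ (2 * i + 2 * l + m + 1) := by clear * - b1 b2 b3 v14 v15 y18 z10; omega
            have kk281 : (2 * n + 3 * i2 + k3) ≤ (4 * k + 4 * l + m + 3) := by clear * - b2 y17 y18 z10 z11; omega
            have kk282 : (0) ≤ (i2) := by clear * - y7; omega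
            have kk283 : (i + l + 2 * m + 3) ≤ (n + i2) := by clear * - b1 b2 b3 v12 v14 y18 z10; omega
            have kk284 : (i2 + m + 1) ≤ (k) := by clear * - b2 y17 y18 z10 z11; omega
            have kk285 : (i) ≤ (i2) := by clear * - y16; omega
            have kk286 : (i + k + 2 * l + 2) ≤ (n + i2) := by clear * - v12; omega
            have kk287 : (i + k + 2 * l + m + 3) ≤ (n + k3) := by clear * - v15; omega
            have kk288 : (2 * k + l + 1) ≤ (n + i + i2) := by clear * - v14 v15; omega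
            have r289 : (3 * n + i2 + k3 - m - 1) % 2 = 0 := by clear * - ev n1p n2p n3p; omega
            have r290 : (i2 + m - k3 + 1) % 2 = 0 := by clear * - ev n1p n2p n3p; omega
            clear * - al b c2 tt D2 kk278 kk279 kk280 kk281 kk282 kk283 kk284 kk285 kk286 kk287 kk288 r289 r290
            exact midP al (i2 + m - k3 + 1) (3 * n + i2 + k3 - m - 1) (2 * n + i2 + k3 - k - l - m - 1) (n + k + k3 - i - m) (n + k + l + 1) (by omega) (fun t h1 h2 => (cE (cE (ab tt al 1 t ((n + i + l + i2 + 1) - t) (by omega)) (qf D2 al (-1) ((n + i + l + i2 + 1) - t) ((2 * n + i2 + k3 - m - 1) - t) (by omega))) (sh al 1 ((2 * n + i2 + k3 - m - 1) - t) ((3 * n + i2 + k3 - m - 1) - t) (by omega)))) (fun t h1 h2 => (cE (cE (cE (pb D2 al 1 t (t + (i + l + m - n - k3 + 2)) (by omega)) (qf c2 al 0 (t + (i + l + m - n - k3 + 2)) (t + (i + i2 + m - n - k - k3 + 1)) (by omega))) (qf b al 0 (t + (i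 + i2 + m - n - k - k3 + 1)) (t + (i2 + m - n - k3 + 1)) (by omega))) (sh al 1 (t + (i2 + m - n - k3 + 1)) (t + (i2 + m - k3 + 1)) (by omega))))
        · by_cases v16 : (n + i + i2) ≤ (2 * k + l + 1)
          · have kk291 : (k3) ≤ (i2 + m) := by clear * - y16 y18; omega
            have kk292 : (2 * k + i2 + k3) ≤ (4 * i + 2 * l + 3 * m + 3) := by clear * - b3 y13 y16 y18 y2; omega
            have kk293 : (4 * k + k3 + 1) ≤ (2 * n + 4 * i + i2 + m) := by clear * - b3 y13 y16 y18 y2 z10; omega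
            have kk294 : (i2 + k3) ≤ (2 * i + 2 * l + m + 1) := by clear * - b1 b3 y17 y7 z11; omega
            have kk295 : (0) ≤ (i2) := by clear * - y7; omega
            have kk296 : (i + l + 2 * m + 3) ≤ (n + i2) := by clear * - b1 b3 y17 y7 z10 z11; omega
            have kk297 : (i2 + m + 1) ≤ (k) := by clear * - b0 v16 y17; omega
            have kk298 : (i) ≤ (i2) := by clear * - y16; omega
            have kk299 : (i + k + 2 * l + 2) ≤ (n + i2) := by clear * - v12; omega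
            have kk300 : (2 * i + l + i2 + m + 2) ≤ (k + k3) := by clear * - v14; omega
            have kk301 : (n + i + i2) ≤ (2 * k + l + 1) := by clear * - v16; omega
            have r302 : (3 * n + i2 + k3 - m - 1) % 2 = 0 := by clear * - ev n1p n2p n3p; omega
            have r303 : (i2 + m - k3 + 1) % 2 = 0 := by clear * - ev n1p n2p n3p; omega
            clear * - al b c2 tt D2 kk291 kk292 kk293 kk294 kk295 kk296 kk297 kk298 kk299 kk300 kk301 r302 r303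
            exact midP al (i2 + m - k3 + 1) (3 * n + i2 + k3 - m - 1) (n + k + k3 - i - m) (n + k + k3 - i - m) (n + k + l + 1) (by omega) (fun t h1 h2 => (cE (cE (ab tt al 1 t ((n + i + l + i2 + 1) - t) (by omega)) (qf D2 al (-1) ((n + i + l + i2 + 1) - t) ((2 * n + i2 + k3 - m - 1) - t) (by omega))) (sh al 1 ((2 * n + i2 + k3 - m - 1) - t) ((3 * n + i2 + k3 - m - 1) - t) (by omega)))) (fun t h1 h2 => (cE (cE (cE (pb D2 al 1 t (t + (i + l + m - n - k3 + 2)) (by omega)) (qf c2 al 0 (t + (i + l + m - n - k3 + 2)) (t + (i + i2 + m - n - k - k3 + 1)) (by omega))) (qf b al 0 (t + (i + i2 + m - n - k - k3 + 1)) (t + (i2 + m - n - k3 + 1)) (by omega))) (sh al 1 (t + (i2 + m - n - k3 + 1)) (t + (i2 + m - k3 + 1)) (by omega))))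
          · have kk304 : (k3) ≤ (i2 + m) := by clear * - y16 y18; omega
            have kk305 : (2 * n + 3 * i2 + k3) ≤ (2 * i + 2 * k + 4 * l + 3 * m + 5) := by clear * - b2 y17 z11; omega
            have kk306 : (i2 + k3) ≤ (2 * i + 2 * l + m + 1) := by clear * - b1 b2 b3 v16 y18 z10; omega
            have kk307 : (2 * n + 3 * i2 + k3) ≤ (4 * k + 4 * l + m + 3) := by clear * - b2 y17 y18 z10 z11; omega
            have kk308 : (0) ≤ (i2) := by clear * - y7; omega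
            have kk309 : (i + l + 2 * m + 3) ≤ (n + i2) := by clear * - b1 b2 b3 v16 y18 z10 z11; omega
            have kk310 : (i2 + m + 1) ≤ (k) := by clear * - b2 y17 y18 z10 z11; omega
            have kk311 : (i) ≤ (i2) := by clear * - y16; omega
            have kk312 : (i + k + 2 * l + 2) ≤ (n + i2) := by clear * - v12; omega
            have kk313 : (2 * i + l + i2 + m + 2) ≤ (k + k3) := by clear * - v14; omega
            have kk314 : (2 * k + l + 1) ≤ (n + i + i2) := by clear * - v16; omega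
            have r315 : (3 * n + i2 + k3 - m - 1) % 2 = 0 := by clear * - ev n1p n2p n3p; omega
            have r316 : (i2 + m - k3 + 1) % 2 = 0 := by clear * - ev n1p n2p n3p; omega
            clear * - al b c2 tt D2 kk304 kk305 kk306 kk307 kk308 kk309 kk310 kk311 kk312 kk313 kk314 r315 r316
            exact midP al (i2 + m - k3 + 1) (3 * n + i2 + k3 - m - 1) (2 * n + i2 + k3 - k - l - m - 1) (n + k + k3 - i - m) (n + k + l + 1) (by omega) (fun t h1 h2 => (cE (cE (ab tt al 1 t ((n + i + l + i2 + 1) - t) (by omega)) (qf D2 al (-1) ((n + i + l + i2 + 1) - t) ((2 * n + i2 + k3 - m - 1) - t) (by omega))) (sh al 1 ((2 * n + i2 + k3 - m - 1) - t) ((3 * n + i2 + k3 - m - 1) - t) (by omega)))) (fun t h1 h2 => (cE (cE (cE (pb D2 al 1 t (t + (i + l + m - n - k3 + 2)) (by omega)) (qf c2 al 0 (t + (i + l + m - n - k3 + 2)) (t + (i + i2 + m - n - k - k3 + 1)) (by omega))) (qf b al 0 (t + (i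 + i2 + m - n - k - k3 + 1)) (t + (i2 + m - n - k3 + 1)) (by omega))) (sh al 1 (t + (i2 + m - n - k3 + 1)) (t + (i2 + m - k3 + 1)) (by omega))))

theorem h8_16p
    {W : ℤ → G} {n Q i j k l i2 m k3 : ℤ} (al : AL W n Q)
    (hy : (0) ≤ (i) ∧ (i) ≤ (j) ∧ (j + 1) ≤ (Q) ∧ (Q) ≤ (k) ∧ (k + 1) ≤ (n) ∧ (Q) ≤ (i + l + 1) ∧ (k + l + 2) ≤ (n) ∧ (0) ≤ (i2) ∧ (i2 + 1) ≤ (Q) ∧ (Q + m + 1) ≤ (n + i2) ∧ (i2) ≤ (m) ∧ (Q) ≤ (i + l + m + 2) ∧ (i + l + m + 3) ≤ (n) ∧ (Q) ≤ (k3) ∧ (k3 + 1) ≤ (n) ∧ (i + m + 2) ≤ (k) ∧ (i) ≤ (i2) ∧ (i2) ≤ (i) ∧ (i + m + 2) ≤ (k3) ∧ (k3) ≤ (i + l + m + 1) ∧ (m + k3 + 2) ≤ (n + i2))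
    (a1 : Par W (0) (j) (k - j))
    (a2 : Par W (Q + j - k) (j) (k - j))
    (s1 : Ant W (0) (i) (i + j))
    (s2 : Ant W (j + 1) (Q) (i + j))
    (b : Par W (i + 1) (i + l + 1) (k - i))
    (c1 : Par W (i2 + 1) (Q) (k + l - i2 + 1))
    (c2 : Par W (k + l + 2) (n) (i2 - k - l - 1))
    (tt : Ant W (i2 - m) (i2) (i + l + i2 + 1))
    (D1 : Par W (Q) (k3) (n + i2 - m - k3 - 1))
    (D2 : Par W (i + l + m + 3) (n) (k3 - i - l - m - 2))
    {L : ℤ} (mx : ∀ a b g, 0 < g → g < n → Par W a b g → b - a ≤ L)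
    (hL : L ≤ (n - j - 3) ∧ L ≤ (n + Q - k - 3) ∧ L ≤ (n - l - 3) ∧ L ≤ (n + i - k - 2))
    (bd0 : Bd W n L (j) (i) (k))
    (n1 : Nd W (j) (i) (k))
    (n2 : Nd W (i + l + 1) (i2) (k + l + 1))
    (n3 : Nd W (n + i2 - m - 1) (i + l + m + 2) (k3))
    (b0 : (2 * l + 3) ≤ (n))
    (b1 : (n + k3) ≤ (2 * i + 2 * l + i2 + m + 4))
    (b2 : (i2 + 2 * m) ≤ (i + l))
    (b3 : (2 * i + j + 1) ≤ (k))
    (b4 : (2 * Q + k + l) ≤ (n + 2 * j + i2))
    (b5 : (2 * i + l + m + 3) ≤ (k + k3)) : False := by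
  have ev := al.ev
  obtain ⟨y0, y1, y2, y3, y4, y5, y6, y7, y8, y9, y10, y11, y12, y13, y14, y15, y16, y17, y18, y19, y20⟩ := id hy
  have n1p := And.intro n1.p1 n1.p2
  have n2p := And.intro n2.p1 n2.p2
  have n3p := And.intro n3.p1 n3.p2
  by_cases z42 : (Q + j + m) ≤ (k + i2)
  · have kk552 : (i + m + 2) ≤ (k) := by clear * - y15; omega
    have kk553 : (k + l + 2) ≤ (n) := by clear * - y6; omega
    have kk554 : (i + 1) ≤ (k) := by clear * - b5 y19; omega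
    have kk555 : (0) ≤ (l) := by clear * - y18 y19; omega
    have kk556 : (2 * i + m + 2) ≤ (k + k3) := by clear * - b5 y18 y19; omega
    have kk557 : (k3) ≤ (i + l + m + 1) := by clear * - y19; omega
    have kk558 : (i2) ≤ (j) := by clear * - y1 y17; omega
    have kk559 : (Q + j + m) ≤ (k + i2) := by clear * - z42; omega
    have kk560 : (0) ≤ (l + m + 2) := by clear * - b0 b1 b2 y10 y16 y18; omega
    have kk561 : (i) ≤ (k3) := by clear * - b0 b1 y10 y16 y18; omega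
    have kk562 : (k3) ≤ (i + l + m + 2) := by clear * - y19; omega
    have kk563 : (k + l + 1) ≤ (n) := by clear * - y6; omega
    have kk564 : (0) ≤ (l + 1) := by clear * - y18 y19; omega
    have kk565 : (i2) ≤ (j + l + 1) := by clear * - b1 b3 b4 y17 y18 y8; omega
    have kk566 : (i + j + m + 1) ≤ (k + i2) := by clear * - y16 y8 z42; omega
    have r567 : (k3 - i - l - m - 2) % 2 = 0 := by clear * - ev n1p n2p n3p; omega
    have r568 : (k - i) % 2 = 0 := by clear * - ev n1p n2p n3p; omega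
    have r569 : (i + k + l + i2 - j + 1) % 2 = 0 := by clear * - ev n1p n2p n3p; omega
    clear * - al a2 b tt D2 n2 kk552 kk553 kk554 kk555 kk556 kk557 kk558 kk559 kk560 kk561 kk562 kk563 kk564 kk565 kk566 r567 r568 r569
    exact ivt al.ninv (i + 1) (i + l + 1) (k - i) (i + l + m + 3) (k + l + 1) (k3 - i - l - m - 2) (i + l + 1) (k + k3 - i - m - 1) 1 (fun t h1 h2 => (qf b al 0 t (t + (k - i)) (by omega))) (fun t h1 h2 => (cE (sh al (-1) t (t + (-n)) (by omega)) (qf D2 al (-1) (t + (-n)) (t + (k3 - i - l - m - 2)) (by omega)))) (fun hh => n2.f0 (rEE (sh al 0 (i + l + 1) (i + l + 1) (by omega)) (qf D2 al 0 (k + l + 1) (k + k3 - i - m - 1) (by omega)) (Eq.symm hh))) (by omega) (i + l + 2) (i + l + m + 2) (i + k + l + i2 - j + 1) 0 (-1) (fun t h1 h2 => (cI (sh al (-1) t (t + (-n)) (by omega)) (cE (ab tt al (-1) (t + (-n)) ((i + l + i2 + 1) - t) (by omega)) (qf a2 al 0 ((i + l + i2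 + 1) - t) ((i + k + l + i2 - j + 1) - t) (by omega))))) (by omega)
  · by_cases z43 : (2 * k + l + 2) ≤ (n + Q + j)
    · have kk570 : (n + j + i2) ≤ (2 * k + l) := by clear * - b1 b3 b5 y17; omega
      have kk571 : (2 * k + l + 2) ≤ (2 * n + j + i2) := by clear * - b0 b1 b3 b4 y17 y18 z43; omega
      have kk572 : (2 * k + l + 2) ≤ (n + Q + j) := by clear * - z43; omega
      have kk573 : (Q + k + l + 1) ≤ (n + j + i2) := by clear * - b1 b4 b5 y6; omega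
      clear * - al a2 c1 kk570 kk571 kk572 kk573
      exact al.ubQ (2 * k + l - n - j - i2 + 1) (by omega) (by omega) fun t h1 h2 => (cE (sh al (-1) t (t + (-n)) (by omega)) (cE (qf c1 al (-1) (t + (-n)) (t + (k + l - i2 + 1)) (by omega)) (qf a2 al 1 (t + (k + l - i2 + 1)) (t + (2 * k + l - n - j - i2 + 1)) (by omega))))
    · by_cases z44 : (k) ≤ (i + 2 * j + 1)
      · have kk574 : (k) ≤ (i + 2 * j) := by clear * - z44 ev n1p n2p n3p; omega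
        have kk575 : (k) ≤ (i + 2 * j + 1) := by clear * - z44; omega
        have kk576 : (2 * j + 1) ≤ (k) := by clear * - y2 y6 z43; omega
        have kk577 : (i + j + 1) ≤ (k) := by clear * - b0 b1 b3 y17 y18; omega
        have r578 : (i + 2 * j - k) % 2 = 0 := by clear * - ev n1p n2p n3p; omega
        clear * - al a1 s1 kk574 kk575 kk576 kk577 r578
        obtain ⟨t, ht⟩ : ∃ t, 2 * t = (i + 2 * j - k) := ⟨(i + 2 * j - k) / 2, by omega⟩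
        exact al.ninv t (cI (qf a1 al 0 t (t + (k - j)) (by omega)) (ab s1 al 0 (t + (k - j)) t (by omega)))
      · by_cases z45 : (2 * i + l + i2 + 1) ≤ (Q + j + k)
        · by_cases z46 : (k) ≤ (i + l + 1)
          · by_cases v20 : (Q + j + k) ≤ (2 * i + l + i2 + 2)
            · have kk579 : (j + 1) ≤ (k) := by clear * - b0 b1 b5 z43 z44 z45 z46; omega
              have kk580 : (Q) ≤ (k) := by clear * - b0 b1 b4 b5 z43 z44 z45 z46; omega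
              have kk581 : (Q + j) ≤ (k + i2) := by clear * - b0 b1 b4 b5 z43 z44 z46; omega
              have kk582 : (i2 + 1) ≤ (k) := by clear * - b0 z43 z45 z46; omega
              have kk583 : (n + Q + j) ≤ (2 * k + l + 1) := by clear * - z43; omega
              have kk584 : (l + 2) ≤ (n) := by clear * - b0 b1 b4 b5 z43 z44 z45 z46; omega
              have kk585 : (2 * i + l + i2 + 1) ≤ (Q + j + k) := by clear * - z45; omega
              have kk586 : (i + m + 1) ≤ (k) := by clear * - b1 b2 b4 b5 y20 z44 z45; omega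
              have kk587 : (k) ≤ (i + l + 1) := by clear * - z46; omega
              have kk588 : (n + Q + j) ≤ (2 * k + l + 2) := by clear * - z43; omega
              have kk589 : (Q + j) ≤ (k + i2 + 1) := by clear * - b0 b1 b4 b5 z43 z44 z46; omega
              have kk590 : (k + l + 1) ≤ (n + i2) := by clear * - b0 y16 z46; omega
              have kk591 : (2 * k) ≤ (2 * i + l + m + 2) := by clear * - v20 z42; omega
              have kk592 : (Q + j + k) ≤ (2 * i + l + i2 + 2) := by clear * - v20; omega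
              have kk593 : (i2) ≤ (k) := by clear * - b0 z43 z45 z46; omega
              have kk594 : (Q + j) ≤ (2 * i + l + 2) := by clear * - b0 z43 z46; omega
              have r595 : (k + l - n - i2 + 1) % 2 = 0 := by clear * - ev n1p n2p n3p; omega
              have r596 : (k - j) % 2 = 0 := by clear * - ev n1p n2p n3p; omega
              have r597 : (2 * i + l + i2 - 2 * n - k + 1) % 2 = 0 := by clear * - ev n1p n2p n3p; omega
              clear * - al a2 b c1 tt n2 kk579 kk580 kk581 kk582 kk583 kk584 kk585 kk586 kk587 kk588 kk589 kk590 kk591 kk592 kk593 kk594 r595 r596 r597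
              exact ivt al.ninv (Q + j - n - k) (j - n) (k - j) (i2 - n + 1) (Q - n) (k + l - n - i2 + 1) (i2 - n) (k + l - 2 * n + 1) 0 (fun t h1 h2 => (cE (qf a2 al (-1) t (t + (n + k - j)) (by omega)) (sh al (-1) (t + (n + k - j)) (t + (k - j)) (by omega)))) (fun t h1 h2 => (cE (qf c1 al (-1) t (t + (n + k + l - i2 + 1)) (by omega)) (sh al (-2) (t + (n + k + l - i2 + 1)) (t + (k + l - n - i2 + 1)) (by omega)))) (fun hh => n2.f1 (rEE (sh al (-1) (i2) (i2 - n) (by omega)) (sh al (-2) (k + l + 1) (k + l - 2 * n + 1) (by omega)) (Eq.symm hh))) (by omega) (2 * i + l + i2 - n - 2 * k + 2) (i2 - n) (2 * i + l + i2 - 2 * n - k + 1) 0 (-1) (fun t h1 h2 => (cE (cE (qa tt al (-1) t ((i + l + i2 - n + 1) - t) (by omega)) (pb b al 0 ((i + l + i2 - n + 1) - t) ((2 * i + l + i2 - n - k + 1) - t) (by omega))) (sh al (-1) ((2 * i + l + i2 - n - k + 1) - t) ((2 * i + l + i2 - 2 * n - k + 1) - t)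 (by omega)))) (by omega)
            · have kk598 : (j + 1) ≤ (k) := by clear * - b0 b1 b5 v20 z43 z44 z46; omega
              have kk599 : (Q) ≤ (k) := by clear * - b0 b1 b4 b5 v20 z43 z44 z46; omega
              have kk600 : (Q + j) ≤ (k + i2) := by clear * - b0 b1 b4 b5 z43 z44 z46; omega
              have kk601 : (i2 + 1) ≤ (k) := by clear * - b0 v20 z43 z46; omega
              have kk602 : (n + Q + j) ≤ (2 * k + l + 1) := by clear * - z43; omega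
              have kk603 : (l + 2) ≤ (n) := by clear * - b0 b1 b4 b5 v20 z43 z44 z46; omega
              have kk604 : (i + m + 1) ≤ (k) := by clear * - b1 b2 b4 b5 v20 y20 z44; omega
              have kk605 : (k) ≤ (i + l + 1) := by clear * - z46; omega
              have kk606 : (n + Q + j) ≤ (2 * k + l + 2) := by clear * - z43; omega
              have kk607 : (Q + j) ≤ (k + i2 + 1) := by clear * - b0 b1 b4 b5 z43 z44 z46; omega
              have kk608 : (k + l + 1) ≤ (n + i2) := by clear * - b0 y16 z46; omega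
              have kk609 : (k + i2) ≤ (Q + j + m) := by clear * - z42; omega
              have kk610 : (2 * i + l + i2 + 2) ≤ (Q + j + k) := by clear * - v20; omega
              have kk611 : (i2) ≤ (k) := by clear * - b0 v20 z43 z46; omega
              have kk612 : (Q + j) ≤ (2 * i + l + 2) := by clear * - b0 z43 z46; omega
              have r613 : (k + l - n - i2 + 1) % 2 = 0 := by clear * - ev n1p n2p n3p; omega
              have r614 : (k - j) % 2 = 0 := by clear * - ev n1p n2p n3p; omega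
              have r615 : (2 * i + l + i2 - 2 * n - k + 1) % 2 = 0 := by clear * - ev n1p n2p n3p; omega
              clear * - al a2 b c1 tt n2 kk598 kk599 kk600 kk601 kk602 kk603 kk604 kk605 kk606 kk607 kk608 kk609 kk610 kk611 kk612 r613 r614 r615
              exact ivt al.ninv (Q + j - n - k) (j - n) (k - j) (i2 - n + 1) (Q - n) (k + l - n - i2 + 1) (i2 - n) (k + l - 2 * n + 1) 0 (fun t h1 h2 => (cE (qf a2 al (-1) t (t + (n + k - j)) (by omega)) (sh al (-1) (t + (n + k - j)) (t + (k - j)) (by omega)))) (fun t h1 h2 => (cE (qf c1 al (-1) t (t + (n + k + l - i2 + 1)) (by omega)) (sh al (-2) (t + (n + k + l - i2 + 1)) (t + (k + l - n - i2 + 1)) (by omega)))) (fun hh => n2.f1 (rEE (sh al (-1) (i2) (i2 - n) (by omega)) (sh al (-2) (k + l + 1) (k + l - 2 * n + 1) (by omega)) (Eq.symm hh))) (by omega) (Q + j - n - k) (i2 - n) (2 * i + l + i2 - 2 * n - k + 1) 0 (-1) (fun t h1 h2 => (cE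 (cE (qa tt al (-1) t ((i + l + i2 - n + 1) - t) (by omega)) (pb b al 0 ((i + l + i2 - n + 1) - t) ((2 * i + l + i2 - n - k + 1) - t) (by omega))) (sh al (-1) ((2 * i + l + i2 - n - k + 1) - t) ((2 * i + l + i2 - 2 * n - k + 1) - t) (by omega)))) (by omega)
          · by_cases v21 : (n + 2 * i2) ≤ (Q + k + l + 1)
            · have kk616 : (2 * k + 2) ≤ (n + 2 * i) := by clear * - b1 y17 y18 y6; omega
              have kk617 : (2 * i + 2 * l + 3) ≤ (n + 2 * i2) := by clear * - b0 y16; omega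
              have kk618 : (i) ≤ (i2) := by clear * - y16; omega
              have kk619 : (n + i2) ≤ (k + l + m + 2) := by clear * - z42 z43; omega
              have kk620 : (Q) ≤ (i + l + 1) := by clear * - b0 b1 b2 b4 v21 y17 y18 z42 z44; omega
              have kk621 : (n + 2 * i2) ≤ (Q + k + l + 1) := by clear * - v21; omega
              have r622 : (n + 2 * i2) % 2 = 0 := by clear * - ev n1p n2p n3p; omega
              clear * - al b c1 tt kk616 kk617 kk618 kk619 kk620 kk621 r622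
              obtain ⟨t, ht⟩ : ∃ t, 2 * t = (n + 2 * i2) := ⟨(n + 2 * i2) / 2, by omega⟩
              exact al.ninv t (cI (cE (pb b al 0 t (t + (i - k)) (by omega)) (qf c1 al 0 (t + (i - k)) (t + (i + l - i2 + 1)) (by omega))) (qa tt al 1 (t + (i + l - i2 + 1)) t (by omega)))
            · have kk623 : (2 * k + 2) ≤ (n + 2 * i) := by clear * - b1 b2 b5 v21 y17 z42 z44; omega
              have kk624 : (n + 2 * i + 2 * i2 + 1) ≤ (2 * Q + 2 * k) := by clear * - b1 b2 b5 z42 z44 z46; omega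
              have kk625 : (i) ≤ (i2) := by clear * - y16; omega
              have kk626 : (n + i2) ≤ (k + l + m + 2) := by clear * - z42 z43; omega
              have kk627 : (Q) ≤ (i + l + 1) := by clear * - b0 b1 b2 b5 v21 z42 z43 z44; omega
              have kk628 : (Q + k + l + 1) ≤ (n + 2 * i2) := by clear * - v21; omega
              have r629 : (n + 2 * i2) % 2 = 0 := by clear * - ev n1p n2p n3p; omega
              clear * - al b c1 tt kk623 kk624 kk625 kk626 kk627 kk628 r629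
              obtain ⟨t, ht⟩ : ∃ t, 2 * t = (n + 2 * i2) := ⟨(n + 2 * i2) / 2, by omega⟩
              exact al.ninv t (cI (cE (pb b al 0 t (t + (i - k)) (by omega)) (qf c1 al 0 (t + (i - k)) (t + (i + l - i2 + 1)) (by omega))) (qa tt al 1 (t + (i + l - i2 + 1)) t (by omega)))
        · have kk630 : (2 * Q + j) ≤ (2 * i + l + i2 + 1) := by clear * - b0 b1 b2 b4 b5 z42 z43 z44 z45; omega
          have kk631 : (2 * i + j + l + 2) ≤ (2 * k + i2) := by clear * - b0 b1 b3 b5; omega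
          have kk632 : (i + j + m + 1) ≤ (k + i2) := by clear * - b0 b1 b2 b5 y16 z44; omega
          have kk633 : (k + i2) ≤ (Q + j + m) := by clear * - z42; omega
          have kk634 : (k) ≤ (i + l + 1) := by clear * - b1 b2 b4 b5 y20 z42 z44 z45; omega
          have kk635 : (i2) ≤ (j) := by clear * - y1 y17; omega
          have r636 : (2 * k + l + i2 - j + 1) % 2 = 0 := by clear * - ev n1p n2p n3p; omega
          clear * - al a2 b tt kk630 kk631 kk632 kk633 kk634 kk635 r636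
          obtain ⟨t, ht⟩ : ∃ t, 2 * t = (2 * k + l + i2 - j + 1) := ⟨(2 * k + l + i2 - j + 1) / 2, by omega⟩
          exact al.ninv t (cI (cE (pb b al 0 t (t + (i - k)) (by omega)) (pb a2 al 0 (t + (i - k)) (t + (i + j - 2 * k)) (by omega))) (qa tt al 0 (t + (i + j - 2 * k)) t (by omega)))

theorem h8_3p
    (h8_4 : ∀ {W : ℤ → G} {n Q i j k l i2 m k3 : ℤ} (al : AL W n Q) (hy : (0) ≤ (i) ∧ (i) ≤ (j) ∧ (j + 1) ≤ (Q) ∧ (Q) ≤ (k) ∧ (k + 1) ≤ (n) ∧ (Q) ≤ (i + l + 1) ∧ (k + l + 2) ≤ (n) ∧ (0) ≤ (i2) ∧ (i2 + 1) ≤ (Q) ∧ (Q + m + 1) ≤ (n + i2) ∧ (i2) ≤ (m) ∧ (Q) ≤ (i + l + m + 2) ∧ (i + l + m + 3) ≤ (n) ∧ (Q) ≤ (k3) ∧ (k3 + 1) ≤ (n) ∧ (i + m + 2) ≤ (k) ∧ (i) ≤ (i2) ∧ (i2) ≤ (i) ∧ (i + m + 2) ≤ (k3) ∧ (k3) ≤ (i + l + m + 1) ∧ (m + k3 + 2) ≤ (n + i2)) (a1 : Par W (0) (j) (k - j)) (a2 : Par W (Q + j - k) (j) (k - j)) (s1 : Ant W (0) (i) (i + j)) (s2 : Ant W (j + 1) (Q) (i + j)) (b : Par W (i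 + 1) (i + l + 1) (k - i)) (c1 : Par W (i2 + 1) (Q) (k + l - i2 + 1)) (c2 : Par W (k + l + 2) (n) (i2 - k - l - 1)) (tt : Ant W (i2 - m) (i2) (i + l + i2 + 1)) (D1 : Par W (Q) (k3) (n + i2 - m - k3 - 1)) (D2 : Par W (i + l + m + 3) (n) (k3 - i - l - m - 2)) {L : ℤ} (mx : ∀ a b g, 0 < g → g < n → Par W a b g → b - a ≤ L) (hL : L ≤ (n - j - 3) ∧ L ≤ (n + Q - k - 3) ∧ L ≤ (n - l - 3) ∧ L ≤ (n + i - k - 2)) (bd0 : Bd W n L (j) (i) (k)) (n1 : Nd W (j) (i) (k)) (n2 : Nd W (i + l + 1) (i2) (k + l + 1)) (n3 : Nd W (n + i2 - m - 1) (i + l + m + 2) (k3)) (b0 : (2 * l + 3) ≤ (n)) (b1 : (n + k3) ≤ (2 * i + 2 * l + i2 + m + 4)) (b2 : (i + l + 1) ≤ (i2 + 2 * m)), False)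
    (h8_9 : ∀ {W : ℤ → G} {n Q i j k l i2 m k3 : ℤ} (al : AL W n Q) (hy : (0) ≤ (i) ∧ (i) ≤ (j) ∧ (j + 1) ≤ (Q) ∧ (Q) ≤ (k) ∧ (k + 1) ≤ (n) ∧ (Q) ≤ (i + l + 1) ∧ (k + l + 2) ≤ (n) ∧ (0) ≤ (i2) ∧ (i2 + 1) ≤ (Q) ∧ (Q + m + 1) ≤ (n + i2) ∧ (i2) ≤ (m) ∧ (Q) ≤ (i + l + m + 2) ∧ (i + l + m + 3) ≤ (n) ∧ (Q) ≤ (k3) ∧ (k3 + 1) ≤ (n) ∧ (i + m + 2) ≤ (k) ∧ (i) ≤ (i2) ∧ (i2) ≤ (i) ∧ (i + m + 2) ≤ (k3) ∧ (k3) ≤ (i + l + m + 1) ∧ (m + k3 + 2) ≤ (n + i2)) (a1 : Par W (0) (j) (k - j)) (a2 : Par W (Q + j - k) (j) (k - j)) (s1 : Ant W (0) (i) (i + j)) (s2 : Ant W (j + 1) (Q) (i + j)) (b : Par W (i + 1) (i + l + 1) (k - i)) (c1 : Par W (i2 + 1) (Q) (k + l - i2 + 1)) (c2 : Par W (k + l + 2) (n) (i2 - k - l - 1)) (tt : Ant W (i2 - m) (i2) (i + l + i2 + 1)) (D1 : Par W (Q) (k3) (n + i2 - m - k3 - 1)) (D2 : Par W (i + l + m + 3) (n) (k3 - i - l - m - 2)) {L : ℤ} (mx : ∀ a b g, 0 < g → g < n → Par W a b g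 → b - a ≤ L) (hL : L ≤ (n - j - 3) ∧ L ≤ (n + Q - k - 3) ∧ L ≤ (n - l - 3) ∧ L ≤ (n + i - k - 2)) (bd0 : Bd W n L (j) (i) (k)) (n1 : Nd W (j) (i) (k)) (n2 : Nd W (i + l + 1) (i2) (k + l + 1)) (n3 : Nd W (n + i2 - m - 1) (i + l + m + 2) (k3)) (b0 : (2 * l + 3) ≤ (n)) (b1 : (n + k3) ≤ (2 * i + 2 * l + i2 + m + 4)) (b2 : (i2 + 2 * m) ≤ (i + l)), False)
    {W : ℤ → G} {n Q i j k l i2 m k3 : ℤ} (al : AL W n Q)
    (hy : (0) ≤ (i) ∧ (i) ≤ (j) ∧ (j + 1) ≤ (Q) ∧ (Q) ≤ (k) ∧ (k + 1) ≤ (n) ∧ (Q) ≤ (i + l + 1) ∧ (k + l + 2) ≤ (n) ∧ (0) ≤ (i2) ∧ (i2 + 1) ≤ (Q) ∧ (Q + m + 1) ≤ (n + i2) ∧ (i2) ≤ (m) ∧ (Q) ≤ (i + l + m + 2) ∧ (i + l + m + 3) ≤ (n) ∧ (Q) ≤ (k3) ∧ (k3 + 1) ≤ (n) ∧ (i + m + 2) ≤ (k) ∧ (i) ≤ (i2) ∧ (i2) ≤ (i) ∧ (i + m + 2) ≤ (k3) ∧ (k3) ≤ (i + l + m + 1) ∧ (m + k3 + 2) ≤ (n + i2))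
    (a1 : Par W (0) (j) (k - j))
    (a2 : Par W (Q + j - k) (j) (k - j))
    (s1 : Ant W (0) (i) (i + j))
    (s2 : Ant W (j + 1) (Q) (i + j))
    (b : Par W (i + 1) (i + l + 1) (k - i))
    (c1 : Par W (i2 + 1) (Q) (k + l - i2 + 1))
    (c2 : Par W (k + l + 2) (n) (i2 - k - l - 1))
    (tt : Ant W (i2 - m) (i2) (i + l + i2 + 1))
    (D1 : Par W (Q) (k3) (n + i2 - m - k3 - 1))
    (D2 : Par W (i + l + m + 3) (n) (k3 - i - l - m - 2))
    {L : ℤ} (mx : ∀ a b g, 0 < g → g < n → Par W a b g → b - a ≤ L)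
    (hL : L ≤ (n - j - 3) ∧ L ≤ (n + Q - k - 3) ∧ L ≤ (n - l - 3) ∧ L ≤ (n + i - k - 2))
    (bd0 : Bd W n L (j) (i) (k))
    (n1 : Nd W (j) (i) (k))
    (n2 : Nd W (i + l + 1) (i2) (k + l + 1))
    (n3 : Nd W (n + i2 - m - 1) (i + l + m + 2) (k3))
    (b0 : (2 * l + 3) ≤ (n))
    (b1 : (n + k3) ≤ (2 * i + 2 * l + i2 + m + 4)) : False := by
  have ev := al.ev
  obtain ⟨y0, y1, y2, y3, y4, y5, y6, y7, y8, y9, y10, y11, y12, y13, y14, y15, y16, y17, y18, y19, y20⟩ := id hy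
  have n1p := And.intro n1.p1 n1.p2
  have n2p := And.intro n2.p1 n2.p2
  have n3p := And.intro n3.p1 n3.p2
  by_cases z4 : (i + l + 1) ≤ (i2 + 2 * m)
  · exact h8_4 al hy a1 a2 s1 s2 b c1 c2 tt D1 D2 mx hL bd0 n1 n2 n3 (by clear * - b0; omega) (by clear * - b1; omega) (by clear * - z4; omega)
  · exact h8_9 al hy a1 a2 s1 s2 b c1 c2 tt D1 D2 mx hL bd0 n1 n2 n3 (by clear * - b0; omega) (by clear * - b1; omega) (by clear * - z4; omega)

theorem h8_46p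
    {W : ℤ → G} {n Q i j k l i2 m k3 : ℤ} (al : AL W n Q)
    (hy : (0) ≤ (i) ∧ (i) ≤ (j) ∧ (j + 1) ≤ (Q) ∧ (Q) ≤ (k) ∧ (k + 1) ≤ (n) ∧ (Q) ≤ (i + l + 1) ∧ (k + l + 2) ≤ (n) ∧ (0) ≤ (i2) ∧ (i2 + 1) ≤ (Q) ∧ (Q + m + 1) ≤ (n + i2) ∧ (i2) ≤ (m) ∧ (Q) ≤ (i + l + m + 2) ∧ (i + l + m + 3) ≤ (n) ∧ (Q) ≤ (k3) ∧ (k3 + 1) ≤ (n) ∧ (i + m + 2) ≤ (k) ∧ (i) ≤ (i2) ∧ (i2) ≤ (i) ∧ (i + m + 2) ≤ (k3) ∧ (k3) ≤ (i + l + m + 1) ∧ (m + k3 + 2) ≤ (n + i2))
    (a1 : Par W (0) (j) (k - j))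
    (a2 : Par W (Q + j - k) (j) (k - j))
    (s1 : Ant W (0) (i) (i + j))
    (s2 : Ant W (j + 1) (Q) (i + j))
    (b : Par W (i + 1) (i + l + 1) (k - i))
    (c1 : Par W (i2 + 1) (Q) (k + l - i2 + 1))
    (c2 : Par W (k + l + 2) (n) (i2 - k - l - 1))
    (tt : Ant W (i2 - m) (i2) (i + l + i2 + 1))
    (D1 : Par W (Q) (k3) (n + i2 - m - k3 - 1))
    (D2 : Par W (i + l + m + 3) (n) (k3 - i - l - m - 2))
    {L : ℤ} (mx : ∀ a b g, 0 < g → g < n → Par W a b g → b - a ≤ L)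
    (hL : L ≤ (n - j - 3) ∧ L ≤ (n + Q - k - 3) ∧ L ≤ (n - l - 3) ∧ L ≤ (n + i - k - 2))
    (bd0 : Bd W n L (j) (i) (k))
    (n1 : Nd W (j) (i) (k))
    (n2 : Nd W (i + l + 1) (i2) (k + l + 1))
    (n3 : Nd W (n + i2 - m - 1) (i + l + m + 2) (k3))
    (b0 : (2 * l + 3) ≤ (n))
    (b1 : (2 * i + j + 1) ≤ (k))
    (b2 : (n + k3) ≤ (i + k + 2 * l + m + 3))
    (b3 : (k + i2 + m + 1) ≤ (i + k3))
    (b4 : (i + k) ≤ (2 * j + 1))
    (b5 : (i + m + k3 + 3) ≤ (Q + k + i2))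
    (b6 : (i2 + 1) ≤ (m))
    (b7 : (2 * k + l + m + k3 + 2) ≤ (n + i + 2 * i2))
    (b8 : (2 * Q + k + 2 * l + 2 * m + 4) ≤ (n + j + 2 * k3))
    (b9 : (i + j + 2 * l + 3 * m + 5) ≤ (n + i2 + k3)) : False := by
  have ev := al.ev
  obtain ⟨y0, y1, y2, y3, y4, y5, y6, y7, y8, y9, y10, y11, y12, y13, y14, y15, y16, y17, y18, y19, y20⟩ := id hy
  have n1p := And.intro n1.p1 n1.p2
  have n2p := And.intro n2.p1 n2.p2
  have n3p := And.intro n3.p1 n3.p2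
  by_cases z82 : (n + i2 + k3) ≤ (i + j + 2 * l + 3 * m + 5)
  · by_cases z83 : (i + k3 + 1) ≤ (j + k)
    · by_cases v29 : (n + Q + i2) ≤ (2 * i + 2 * l + 3 * m + 6)
      · have kk966 : (i + k3 + 1) ≤ (j + k) := by clear * - z83; omega
        have kk967 : (i + j + k + 2 * l + 3 * m + 6) ≤ (n + i2 + 2 * k3) := by clear * - b0 b3 b5 b6 b9 v29 y16; omega
        have kk968 : (n + i2 + k3) ≤ (i + j + 2 * l + 3 * m + 5) := by clear * - z82; omega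
        have kk969 : (i + j + 2 * l + 3 * m + 5) ≤ (n + i2 + k3) := by clear * - b9; omega
        have kk970 : (2 * k3) ≤ (i + k + l + m + 2) := by clear * - b3 b4 b5 b6 b7 b9 v29 z83; omega
        have kk971 : (k) ≤ (k3) := by clear * - b0 b3 b5 b6 v29 y16; omega
        have kk972 : (n + Q + i2) ≤ (2 * i + 2 * l + 3 * m + 6) := by clear * - v29; omega
        have kk973 : (n + k3) ≤ (i + k + 2 * l + m + 3) := by clear * - b2; omega
        have kk974 : (k3) ≤ (i + l + m + 2) := by clear * - b3 b4 b5 b6 b7 b9 v29; omega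
        have kk975 : (i2) ≤ (m + 1) := by clear * - b6; omega
        clear * - al b D1 D2 n1 kk966 kk967 kk968 kk969 kk970 kk971 kk972 kk973 kk974 kk975
        exact n1.f0 (cE (cE (cE (qf b al 0 (j) (j + k - i) (by omega)) (pb D2 al 0 (j + k - i) (j + k + l + m - k3 + 2) (by omega))) (pb D2 al 0 (j + k + l + m - k3 + 2) (i + j + k + 2 * l + 2 * m - 2 * k3 + 4) (by omega))) (pb D1 al 0 (i + j + k + 2 * l + 2 * m - 2 * k3 + 4) (k) (by omega)))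
      · have kk976 : (n + Q + i2 + k3) ≤ (i + j + k + 2 * l + 3 * m + 5) := by clear * - b0 b1 b2 b8 z82; omega
        have kk977 : (i + j + k + 2 * l + 3 * m + 6) ≤ (n + i2 + 2 * k3) := by clear * - b0 b2 b3 b6 b9 y16; omega
        have kk978 : (n + i2 + k3) ≤ (i + j + 2 * l + 3 * m + 5) := by clear * - z82; omega
        have kk979 : (i + j + 2 * l + 3 * m + 5) ≤ (n + i2 + k3) := by clear * - b9; omega
        have kk980 : (2 * k3) ≤ (i + k + l + m + 2) := by clear * - b0 b2 b6 b7 b9 y20 z83; omega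
        have kk981 : (k) ≤ (k3) := by clear * - b0 b2 b3 b6 y16; omega
        have kk982 : (2 * i + 2 * l + 3 * m + 6) ≤ (n + Q + i2) := by clear * - v29; omega
        have kk983 : (n + k3) ≤ (i + k + 2 * l + m + 3) := by clear * - b2; omega
        have kk984 : (k3) ≤ (i + l + m + 2) := by clear * - y19; omega
        have kk985 : (i2) ≤ (m + 1) := by clear * - b6; omega
        clear * - al b D1 D2 n1 kk976 kk977 kk978 kk979 kk980 kk981 kk982 kk983 kk984 kk985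
        exact n1.f0 (cE (cE (cE (qf b al 0 (j) (j + k - i) (by omega)) (pb D2 al 0 (j + k - i) (j + k + l + m - k3 + 2) (by omega))) (pb D2 al 0 (j + k + l + m - k3 + 2) (i + j + k + 2 * l + 2 * m - 2 * k3 + 4) (by omega))) (pb D1 al 0 (i + j + k + 2 * l + 2 * m - 2 * k3 + 4) (k) (by omega)))
    · have kk986 : (k + i2 + m + 2) ≤ (i + k3) := by clear * - b2 b4 b6 b9 y17 z83; omega
      have kk987 : (i + k3) ≤ (n + k + i2 + m) := by clear * - b0 b1 b2 b5 b6 b7 b8 z82 z83; omega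
      have kk988 : (i + k3) ≤ (Q + k + m) := by clear * - b0 b1 b5 b6 b8 z82 z83; omega
      have kk989 : (Q + k + l + 1) ≤ (n + i2) := by clear * - b0 b1 b2 b5 b6 b7 b8 z82 z83; omega
      have kk990 : (i + m + 1) ≤ (k) := by clear * - b1 b2 b4 b5 b6 b8 b9 z83; omega
      have kk991 : (k + m + 1) ≤ (k3) := by clear * - b2 b4 b6 b9 z83; omega
      have kk992 : (i + m + 1) ≤ (k3) := by clear * - b1 b3 b5 b6 b8 z82 z83; omega
      have kk993 : (i) ≤ (k) := by clear * - b0 b1 b2 b5 b6 b8 z82 z83; omega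
      have kk994 : (n + k3) ≤ (i + k + 2 * l + m + 3) := by clear * - b2; omega
      clear * - al b c2 D2 kk986 kk987 kk988 kk989 kk990 kk991 kk992 kk993 kk994
      exact al.ubQ (i + k3 - k - i2 - m - 1) (by omega) (by omega) fun t h1 h2 => (cE (sh al 1 t (t + (n)) (by omega)) (cE (cE (qf (show Par W (i2 + 1) (n + i2 - k - l - 1) (k + k3 - i - i2 - m - 1) from fun t h1 h2 => (cE (sh al (-1) t (t + (-n)) (by omega)) (cE (pb c2 al (-1) (t + (-n)) (t + (k + l - i2 + 1)) (by omega)) (qf D2 al 0 (t + (k + l - i2 + 1)) (t + (k + k3 - i - i2 - m - 1)) (by omega))))) al 1 (t + (n)) (t + (k + k3 - i - i2 - m - 1)) (by omega)) (pb b al 0 (t + (k + k3 - i - i2 - m - 1)) (t + (k3 - i2 - m - 1)) (by omega))) (pb b al 0 (t + (k3 - i2 - m - 1)) (t + (i + k3 - k - i2 - m - 1)) (by omega))))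
  · by_cases z84 : (2 * i + 2 * l + 3 * m + 6) ≤ (n + Q + i2)
    · have kk995 : (n + i2 + k3) ≤ (i + k + 2 * l + 3 * m + 4) := by clear * - b0 b2 b3 b6 y16; omega
      have kk996 : (i + k + 2 * l + 3 * m + 6) ≤ (2 * n + i2 + k3) := by clear * - b0 b2 b3 b6 b7 b8 y18 z82 z84; omega
      have kk997 : (Q + i + k + 2 * l + 3 * m + 5) ≤ (n + i2 + 2 * k3) := by clear * - b3 b8 y16 z82; omega
      have kk998 : (i + l + 2 * m + k3 + 4) ≤ (n + Q + i2) := by clear * - b3 b5 b6 b7 y20 z84; omega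
      have kk999 : (2 * i + k + 2 * l + 3 * m + 6) ≤ (n + Q + i2 + k3) := by clear * - b0 b3 b5 b6 y16 z84; omega
      have kk1000 : (2 * i + 2 * l + 3 * m + 6) ≤ (n + Q + i2) := by clear * - z84; omega
      have kk1001 : (k3) ≤ (i + l + m + 2) := by clear * - y19; omega
      have kk1002 : (i2) ≤ (m + 1) := by clear * - b6; omega
      have kk1003 : (n + i2 + 2 * k3) ≤ (2 * i + k + 3 * l + 3 * m + 6) := by clear * - b2 b6 y19; omega
      clear * - al b D1 D2 kk995 kk996 kk997 kk998 kk999 kk1000 kk1001 kk1002 kk1003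
      exact al.ubQ (i + k + 2 * l + 3 * m - n - i2 - k3 + 5) (by omega) (by omega) fun t h1 h2 => (cE (sh al (-1) t (t + (-n)) (by omega)) (cE (cE (cE (qf b al (-1) (t + (-n)) (t + (k - i)) (by omega)) (pb D2 al 0 (t + (k - i)) (t + (k + l + m - k3 + 2)) (by omega))) (pb D2 al 0 (t + (k + l + m - k3 + 2)) (t + (i + k + 2 * l + 2 * m - 2 * k3 + 4)) (by omega))) (pb D1 al 0 (t + (i + k + 2 * l + 2 * m - 2 * k3 + 4)) (t + (i + k + 2 * l + 3 * m - n - i2 - k3 + 5)) (by omega))))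
    · by_cases z85 : (i + j + k3 + 1) ≤ (2 * k)
      · by_cases z86 : (n + 2 * k3) ≤ (i + 2 * k + 2 * l + 2 * m + 4)
        · have kk1004 : (i + 2 * k + 2 * l + 2 * m + 5) ≤ (n + j + 2 * k3) := by clear * - b0 b3 b4 b6 y16 z85 z86; omega
          have kk1005 : (j + 2 * k3) ≤ (i + 2 * k + 2 * l + 2 * m + 3) := by clear * - b3 b4 b5 b6 b7 z82 z84; omega
          have kk1006 : (j + 2 * k3) ≤ (2 * k + l + m + 1) := by clear * - b3 b4 b5 b6 b7 z82 z84 z85; omega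
          have kk1007 : (i + j + k3 + 1) ≤ (2 * k) := by clear * - z85; omega
          have kk1008 : (i + j + 1) ≤ (k) := by clear * - b1 b5 b6 z82 z84; omega
          have kk1009 : (k3) ≤ (i + l + m + 2) := by clear * - b3 b4 b5 b6 b7 z82 z84; omega
          have kk1010 : (n + 2 * k3) ≤ (i + 2 * k + 2 * l + 2 * m + 4) := by clear * - z86; omega
          have kk1011 : (n + 2 * k3) ≤ (2 * i + k + 3 * l + 2 * m + 5) := by clear * - b3 b4 b5 b6 b7 z82 z84 z85; omega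
          clear * - al a1 b D2 kk1004 kk1005 kk1006 kk1007 kk1008 kk1009 kk1010 kk1011
          exact al.ubP (n + j + 2 * k3 - i - 2 * k - 2 * l - 2 * m - 4) (by omega) (by omega) fun t h1 h2 => (cE (cE (cE (qf D2 al (-1) t (t + (n + k3 - i - l - m - 2)) (by omega)) (qf D2 al 0 (t + (n + k3 - i - l - m - 2)) (t + (n + 2 * k3 - 2 * i - 2 * l - 2 * m - 4)) (by omega))) (pb b al 0 (t + (n + 2 * k3 - 2 * i - 2 * l - 2 * m - 4)) (t + (n + 2 * k3 - i - k - 2 * l - 2 * m - 4)) (by omega))) (pb a1 al 0 (t + (n + 2 * k3 - i - k - 2 * l - 2 * m - 4)) (t + (n + j + 2 * k3 - i - 2 * k - 2 * l - 2 * m - 4)) (by omega)))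
        · have kk1012 : (k + i2 + m + 2) ≤ (i + k3) := by clear * - b2 y17 z86; omega
          have kk1013 : (i + k3) ≤ (n + k + i2 + m) := by clear * - b3 b5 b6 b7 b8 z82 z84 z85 z86; omega
          have kk1014 : (i + k3) ≤ (Q + k + m) := by clear * - b0 b5 b6 y16 z84 z86; omega
          have kk1015 : (Q + k + l + 1) ≤ (n + i2) := by clear * - b5 b6 b7 b8 z84 z85 z86; omega
          have kk1016 : (i + m + 1) ≤ (k) := by clear * - b3 b4 b5 b6 z82 z84 z85; omega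
          have kk1017 : (k + m + 1) ≤ (k3) := by clear * - b2 z86; omega
          have kk1018 : (i + m + 1) ≤ (k3) := by clear * - b3 b4 b5 b6 z82 z84 z85 z86; omega
          have kk1019 : (n + k3) ≤ (2 * k + 2 * l + m + 3) := by clear * - b3 b4 b5 b6 z82 z84 z85; omega
          have kk1020 : (n + k3) ≤ (i + k + 2 * l + m + 3) := by clear * - b2; omega
          clear * - al b c2 D2 kk1012 kk1013 kk1014 kk1015 kk1016 kk1017 kk1018 kk1019 kk1020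
          exact al.ubQ (i + k3 - k - i2 - m - 1) (by omega) (by omega) fun t h1 h2 => (cE (sh al (-1) t (t + (-n)) (by omega)) (cE (cE (qf (show Par W (i2 + 1) (n + i2 - k - l - 1) (k + k3 - i - i2 - m - 1) from fun t h1 h2 => (cE (sh al (-1) t (t + (-n)) (by omega)) (cE (pb c2 al (-1) (t + (-n)) (t + (k + l - i2 + 1)) (by omega)) (qf D2 al 0 (t + (k + l - i2 + 1)) (t + (k + k3 - i - i2 - m - 1)) (by omega))))) al (-1) (t + (-n)) (t + (k + k3 - i - i2 - m - 1)) (by omega)) (pb b al 0 (t + (k + k3 - i - i2 - m - 1)) (t + (k3 - i2 - m - 1)) (by omega))) (pb b al 0 (t + (k3 - i2 - m - 1)) (t + (i + k3 - k - i2 - m - 1)) (by omega))))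
      · by_cases z87 : (n + 2 * i + i2) ≤ (4 * k + l + 1)
        · have kk1021 : (4 * k + l + 2) ≤ (n + 2 * i + j + i2) := by clear * - b6 b7 z85; omega
          have kk1022 : (2 * i + j + i2) ≤ (4 * k + l) := by clear * - b3 b4 b5 b6 b7 z82 z84; omega
          have kk1023 : (i2) ≤ (k) := by clear * - b3 b5 b6 b8 z82 z84; omega
          have kk1024 : (2 * i + j + 1) ≤ (2 * k) := by clear * - b1 b5 b6 b8 z82 z84 z85; omega
          have kk1025 : (i + j + 1) ≤ (k) := by clear * - b1 b5 b6 z82 z84; omega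
          have kk1026 : (n + i2) ≤ (2 * k + 2 * l + 2) := by clear * - b2 b4 b5 b6 z82 z84 z85; omega
          have kk1027 : (n + 2 * i + i2) ≤ (4 * k + l + 1) := by clear * - z87; omega
          have kk1028 : (n + i + i2) ≤ (3 * k + 2 * l + 2) := by clear * - b2 b4 b5 b6 z82 z84 z85; omega
          clear * - al a1 b c2 kk1021 kk1022 kk1023 kk1024 kk1025 kk1026 kk1027 kk1028
          exact al.ubP (n + 2 * i + j + i2 - 4 * k - l - 1) (by omega) (by omega) fun t h1 h2 => (cE (cE (cE (qf c2 al (-1) t (t + (n + i2 - k - l - 1)) (by omega)) (pb b al 0 (t + (n + i2 - k - l - 1)) (t + (n + i + i2 - 2 * k - l - 1)) (by omega))) (pb b al 0 (t + (n + i + i2 - 2 * k - l - 1)) (t + (n + 2 * i + i2 - 3 * k - l - 1)) (by omega))) (pb a1 al 0 (t + (n + 2 * i + i2 - 3 * k - l - 1)) (t + (n + 2 * i + j + i2 - 4 * k - l - 1)) (by omega)))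
        · by_cases z88 : (n + i + 3 * i2) ≤ (2 * k + l + 2 * k3)
          · by_cases z89 : (Q + 2 * k + l + k3 + 1) ≤ (n + i + 3 * i2)
            · by_cases z90 : (2 * k + l + 2 * k3 + 2) ≤ (n + Q + i + 2 * i2)
              · have kk1029 : (n + i + 3 * i2) ≤ (2 * k + l + 2 * k3) := by clear * - z88; omega
                have kk1030 : (2 * k + l + 2 * k3 + 2) ≤ (2 * n + i + 3 * i2) := by clear * - b5 b6 b7 z84 z88 z89 z90; omega
                have kk1031 : (Q + 2 * k + l + k3 + 1) ≤ (n + i + 3 * i2) := by clear * - z89; omega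
                have kk1032 : (i + m + 1) ≤ (k) := by clear * - b2 b4 b5 b6 z82 z88 z89; omega
                have kk1033 : (2 * k + l + 2 * k3 + 2) ≤ (n + Q + i + 2 * i2) := by clear * - z90; omega
                have kk1034 : (k + l + m + k3 + 3) ≤ (n + Q + i2) := by clear * - b5 b6 b7 z88 z89 z90; omega
                have kk1035 : (i + i2 + m + 1) ≤ (k + k3) := by clear * - b5 b6 b7 z88 z89; omega
                have kk1036 : (i2) ≤ (m + 1) := by clear * - b6; omega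
                clear * - al c2 D1 D2 kk1029 kk1030 kk1031 kk1032 kk1033 kk1034 kk1035 kk1036
                exact al.ubQ (2 * k + l + 2 * k3 - n - i - 3 * i2 + 1) (by omega) (by omega) fun t h1 h2 => (cE (sh al (-1) t (t + (-n)) (by omega)) (cE (cE (qf (show Par W (i2 + 1) (n + i2 - k - l - 1) (k + k3 - i - i2 - m - 1) from fun t h1 h2 => (cE (sh al (-1) t (t + (-n)) (by omega)) (cE (pb c2 al (-1) (t + (-n)) (t + (k + l - i2 + 1)) (by omega)) (qf D2 al 0 (t + (k + l - i2 + 1)) (t + (k + k3 - i - i2 - m - 1)) (by omega))))) al (-1) (t + (-n)) (t + (k + k3 - i - i2 - m - 1)) (by omega)) (pb c2 al 0 (t + (k + k3 - i - i2 - m - 1)) (t + (2 * k + l + k3 - i - 2 * i2 - m)) (by omega))) (pb D1 al 0 (t + (2 * k + l + k3 - i - 2 * i2 - m)) (t + (2 * k + l + 2 * k3 - n - i - 3 * i2 + 1)) (by omega))))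
              · have kk1037 : (k + i2 + m + 2) ≤ (i + k3) := by clear * - b5 y17 z87 z90; omega
                have kk1038 : (i + k3) ≤ (n + k + i2 + m) := by clear * - b5 b6 b8 z82 z84 z87 z88 z89 z90; omega
                have kk1039 : (i + k3) ≤ (Q + k + m) := by clear * - b0 b1 b5 b6 z84 z85; omega
                have kk1040 : (Q + k + l + 1) ≤ (n + i2) := by clear * - b5 b6 b8 z82 z84 z87 z89 z90; omega
                have kk1041 : (i + m + 1) ≤ (k) := by clear * - b5 b6 b7 z90; omega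
                have kk1042 : (k + m + 1) ≤ (k3) := by clear * - b5 z87 z90; omega
                have kk1043 : (i + m + 1) ≤ (k3) := by clear * - b5 b6 z87 z88 z89 z90; omega
                have kk1044 : (i) ≤ (k) := by clear * - b5 b6 z88 z89; omega
                have kk1045 : (n + k3) ≤ (i + k + 2 * l + m + 3) := by clear * - b2; omega
                clear * - al b c2 D2 kk1037 kk1038 kk1039 kk1040 kk1041 kk1042 kk1043 kk1044 kk1045
                exact al.ubQ (i + k3 - k - i2 - m - 1) (by omega) (by omega) fun t h1 h2 => (cE (sh al 1 t (t + (n)) (by omega)) (cE (cE (qf (show Par W (i2 + 1) (n + i2 - k - l - 1) (k + k3 - i - i2 - m - 1) from fun t h1 h2 => (cE (sh al (-1) t (t + (-n)) (by omega)) (cE (pb c2 al (-1) (t + (-n)) (t + (k + l - i2 + 1)) (by omega)) (qf D2 al 0 (t + (k + l - i2 + 1)) (t + (k + k3 - i - i2 - m - 1)) (by omega))))) al 1 (t + (n)) (t + (k + k3 - i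 - i2 - m - 1)) (by omega)) (pb b al 0 (t + (k + k3 - i - i2 - m - 1)) (t + (k3 - i2 - m - 1)) (by omega))) (pb b al 0 (t + (k3 - i2 - m - 1)) (t + (i + k3 - k - i2 - m - 1)) (by omega))))
            · have kk1046 : (k + i2 + m + 2) ≤ (i + k3) := by clear * - b2 b8 z82 z87 z89; omega
              have kk1047 : (i + k3) ≤ (n + k + i2 + m) := by clear * - b4 b5 b6 b7 z82 z84 z85 z89; omega
              have kk1048 : (i + k3) ≤ (Q + k + m) := by clear * - b0 b1 b5 b6 z84 z85; omega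
              have kk1049 : (Q + k + l + 1) ≤ (n + i2) := by clear * - b4 b5 b6 b7 z82 z84; omega
              have kk1050 : (i + m + 1) ≤ (k) := by clear * - b2 b4 b5 b6 z82 z84; omega
              have kk1051 : (k + m + 1) ≤ (k3) := by clear * - b3 y16; omega
              have kk1052 : (i + m + 1) ≤ (k3) := by clear * - b1 b5 b6 b8 z82 z84 z85 z87 z89; omega
              have kk1053 : (i) ≤ (k) := by clear * - b4 b5 b6 z82 z84; omega
              have kk1054 : (n + k3) ≤ (i + k + 2 * l + m + 3) := by clear * - b2; omega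
              clear * - al b c2 D2 kk1046 kk1047 kk1048 kk1049 kk1050 kk1051 kk1052 kk1053 kk1054
              exact al.ubQ (i + k3 - k - i2 - m - 1) (by omega) (by omega) fun t h1 h2 => (cE (sh al 1 t (t + (n)) (by omega)) (cE (cE (qf (show Par W (i2 + 1) (n + i2 - k - l - 1) (k + k3 - i - i2 - m - 1) from fun t h1 h2 => (cE (sh al (-1) t (t + (-n)) (by omega)) (cE (pb c2 al (-1) (t + (-n)) (t + (k + l - i2 + 1)) (by omega)) (qf D2 al 0 (t + (k + l - i2 + 1)) (t + (k + k3 - i - i2 - m - 1)) (by omega))))) al 1 (t + (n)) (t + (k + k3 - i - i2 - m - 1)) (by omega)) (pb b al 0 (t + (k + k3 - i - i2 - m - 1)) (t + (k3 - i2 - m - 1)) (by omega))) (pb b al 0 (t + (k3 - i2 - m - 1)) (t + (i + k3 - k - i2 - m - 1)) (by omega))))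
          · by_cases z91 : (n + 2 * k3) ≤ (i + 2 * k + 2 * l + 2 * m + 4)
            · have kk1055 : (i + 3 * k + 2 * l + 2 * m + 5) ≤ (n + 2 * j + 2 * k3) := by clear * - b4 b6 z82 z85; omega
              have kk1056 : (2 * j + 2 * k3) ≤ (i + 3 * k + 2 * l + 2 * m + 3) := by clear * - b3 b4 b5 b6 z82 z84 z88; omega
              have kk1057 : (2 * j + 2 * k3) ≤ (3 * k + l + m + 1) := by clear * - b2 b4 b5 b6 z82 z84 z87 z91; omega
              have kk1058 : (j) ≤ (k) := by clear * - b5 b6 z82 z84; omega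
              have kk1059 : (i + 2 * j + k3 + 1) ≤ (3 * k) := by clear * - b1 b6 z82 z85 z91; omega
              have kk1060 : (i + 2 * j + 1) ≤ (2 * k) := by clear * - b1 b6 z82 z85 z91; omega
              have kk1061 : (n + 2 * k3) ≤ (i + 2 * k + 2 * l + 2 * m + 4) := by clear * - z91; omega
              have kk1062 : (n + j + 2 * k3) ≤ (i + 3 * k + 2 * l + 2 * m + 4) := by clear * - b5 b6 z82 z84 z91; omega
              have kk1063 : (n + 2 * k3) ≤ (2 * i + k + 3 * l + 2 * m + 5) := by clear * - b2 b4 b5 b6 z82 z84 z85 z88; omega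
              have kk1064 : (k3) ≤ (i + l + m + 2) := by clear * - b3 b4 b5 b6 z82 z84 z88; omega
              clear * - al a1 b D2 kk1055 kk1056 kk1057 kk1058 kk1059 kk1060 kk1061 kk1062 kk1063 kk1064
              exact al.ubP (n + 2 * j + 2 * k3 - i - 3 * k - 2 * l - 2 * m - 4) (by omega) (by omega) fun t h1 h2 => (cE (sh al 1 t (t + (n)) (by omega)) (cE (cE (cE (cE (qf D2 al 0 (t + (n)) (t + (n + k3 - i - l - m - 2)) (by omega)) (qf D2 al 0 (t + (n + k3 - i - l - m - 2)) (t + (n + 2 * k3 - 2 * i - 2 * l - 2 * m - 4)) (by omega))) (pb b al 0 (t + (n + 2 * k3 - 2 * i - 2 * l - 2 * m - 4)) (t + (n + 2 * k3 - i - k - 2 * l - 2 * m - 4)) (by omega))) (pb a1 al 0 (t + (n + 2 * k3 - i - k - 2 * l - 2 * m - 4)) (t + (n + j + 2 * k3 - i - 2 * k - 2 * l - 2 * m - 4)) (by omega))) (pb a1 al 0 (t + (n + j + 2 * k3 - i - 2 * k - 2 * l - 2 * m - 4)) (t + (n + 2 * j + 2 * k3 - i - 3 * k - 2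 * l - 2 * m - 4)) (by omega))))
            · have kk1065 : (k + i2 + m + 2) ≤ (i + k3) := by clear * - b2 y17 z91; omega
              have kk1066 : (i + k3) ≤ (n + k + i2 + m) := by clear * - b3 b4 b5 b6 z82 z84 z85 z88; omega
              have kk1067 : (i + k3) ≤ (Q + k + m) := by clear * - b0 b1 b5 b6 z84 z85; omega
              have kk1068 : (Q + k + l + 1) ≤ (n + i2) := by clear * - b4 b5 b6 b7 z82 z84; omega
              have kk1069 : (i + m + 1) ≤ (k) := by clear * - b2 b4 b5 b6 z82 z84; omega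
              have kk1070 : (k + m + 1) ≤ (k3) := by clear * - b2 z91; omega
              have kk1071 : (i + m + 1) ≤ (k3) := by clear * - b2 b4 b5 b6 z82 z84 z91; omega
              have kk1072 : (i) ≤ (k) := by clear * - b4 b5 b6 z82 z84; omega
              have kk1073 : (n + k3) ≤ (i + k + 2 * l + m + 3) := by clear * - b2; omega
              clear * - al b c2 D2 kk1065 kk1066 kk1067 kk1068 kk1069 kk1070 kk1071 kk1072 kk1073
              exact al.ubQ (i + k3 - k - i2 - m - 1) (by omega) (by omega) fun t h1 h2 => (cE (sh al 1 t (t + (n)) (by omega)) (cE (cE (qf (show Par W (i2 + 1) (n + i2 - k - l - 1) (k + k3 - i - i2 - m - 1) from fun t h1 h2 => (cE (sh al (-1) t (t + (-n)) (by omega)) (cE (pb c2 al (-1) (t + (-n)) (t + (k + l - i2 + 1)) (by omega)) (qf D2 al 0 (t + (k + l - i2 + 1)) (t + (k + k3 - i - i2 - m - 1)) (by omega))))) al 1 (t + (n)) (t + (k + k3 - i - i2 - m -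 1)) (by omega)) (pb b al 0 (t + (k + k3 - i - i2 - m - 1)) (t + (k3 - i2 - m - 1)) (by omega))) (pb b al 0 (t + (k3 - i2 - m - 1)) (t + (i + k3 - k - i2 - m - 1)) (by omega))))

theorem h8_56p
    (h8_57 : ∀ {W : ℤ → G} {n Q i j k l i2 m k3 : ℤ} (al : AL W n Q) (hy : (0) ≤ (i) ∧ (i) ≤ (j) ∧ (j + 1) ≤ (Q) ∧ (Q) ≤ (k) ∧ (k + 1) ≤ (n) ∧ (Q) ≤ (i + l + 1) ∧ (k + l + 2) ≤ (n) ∧ (0) ≤ (i2) ∧ (i2 + 1) ≤ (Q) ∧ (Q + m + 1) ≤ (n + i2) ∧ (i2) ≤ (m) ∧ (Q) ≤ (i + l + m + 2) ∧ (i + l + m + 3) ≤ (n) ∧ (Q) ≤ (k3) ∧ (k3 + 1) ≤ (n) ∧ (i + m + 2) ≤ (k) ∧ (i) ≤ (i2) ∧ (i2) ≤ (i) ∧ (i + m + 2) ≤ (k3) ∧ (k3) ≤ (i + l + m + 1) ∧ (m + k3 + 2) ≤ (n + i2)) (a1 : Par W (0) (j) (k - j)) (a2 : Par W (Q + j - k) (j) (k - j)) (s1 : Ant W (0) (i) (i + j)) (s2 : Ant W (j + 1) (Q) (i + j)) (b : Par W (i + 1) (i + l + 1) (k - i)) (c1 : Par W (i2 + 1) (Q) (k + l - i2 + 1)) (c2 : Par W (k + l + 2) (n) (i2 - k - l - 1))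 (tt : Ant W (i2 - m) (i2) (i + l + i2 + 1)) (D1 : Par W (Q) (k3) (n + i2 - m - k3 - 1)) (D2 : Par W (i + l + m + 3) (n) (k3 - i - l - m - 2)) {L : ℤ} (mx : ∀ a b g, 0 < g → g < n → Par W a b g → b - a ≤ L) (hL : L ≤ (n - j - 3) ∧ L ≤ (n + Q - k - 3) ∧ L ≤ (n - l - 3) ∧ L ≤ (n + i - k - 2)) (bd0 : Bd W n L (j) (i) (k)) (n1 : Nd W (j) (i) (k)) (n2 : Nd W (i + l + 1) (i2) (k + l + 1)) (n3 : Nd W (n + i2 - m - 1) (i + l + m + 2) (k3)) (b0 : (2 * l + 3) ≤ (n)) (b1 : (2 * i + j + 1) ≤ (k)) (b2 : (n + k3) ≤ (i + k + 2 * l + m + 3)) (b3 : (k + i2 + m + 1) ≤ (i + k3)) (b4 : (i + m + k3 + 3) ≤ (Q + k + i2)) (b5 : (2 * Q + k + 2 * l + 2 * m + 4) ≤ (n + j + 2 * k3)) (b6 : (4 * k + l + 2) ≤ (n + 2 * i + i2)) (b7 : (i + 2 * l + 2 * m + 4) ≤ (n + j)) (b8 : (3 * k) ≤ (i + 2 * j + k3)), False)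
    {W : ℤ → G} {n Q i j k l i2 m k3 : ℤ} (al : AL W n Q)
    (hy : (0) ≤ (i) ∧ (i) ≤ (j) ∧ (j + 1) ≤ (Q) ∧ (Q) ≤ (k) ∧ (k + 1) ≤ (n) ∧ (Q) ≤ (i + l + 1) ∧ (k + l + 2) ≤ (n) ∧ (0) ≤ (i2) ∧ (i2 + 1) ≤ (Q) ∧ (Q + m + 1) ≤ (n + i2) ∧ (i2) ≤ (m) ∧ (Q) ≤ (i + l + m + 2) ∧ (i + l + m + 3) ≤ (n) ∧ (Q) ≤ (k3) ∧ (k3 + 1) ≤ (n) ∧ (i + m + 2) ≤ (k) ∧ (i) ≤ (i2) ∧ (i2) ≤ (i) ∧ (i + m + 2) ≤ (k3) ∧ (k3) ≤ (i + l + m + 1) ∧ (m + k3 + 2) ≤ (n + i2))
    (a1 : Par W (0) (j) (k - j))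
    (a2 : Par W (Q + j - k) (j) (k - j))
    (s1 : Ant W (0) (i) (i + j))
    (s2 : Ant W (j + 1) (Q) (i + j))
    (b : Par W (i + 1) (i + l + 1) (k - i))
    (c1 : Par W (i2 + 1) (Q) (k + l - i2 + 1))
    (c2 : Par W (k + l + 2) (n) (i2 - k - l - 1))
    (tt : Ant W (i2 - m) (i2) (i + l + i2 + 1))
    (D1 : Par W (Q) (k3) (n + i2 - m - k3 - 1))
    (D2 : Par W (i + l + m + 3) (n) (k3 - i - l - m - 2))
    {L : ℤ} (mx : ∀ a b g, 0 < g → g < n → Par W a b g → b - a ≤ L)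
    (hL : L ≤ (n - j - 3) ∧ L ≤ (n + Q - k - 3) ∧ L ≤ (n - l - 3) ∧ L ≤ (n + i - k - 2))
    (bd0 : Bd W n L (j) (i) (k))
    (n1 : Nd W (j) (i) (k))
    (n2 : Nd W (i + l + 1) (i2) (k + l + 1))
    (n3 : Nd W (n + i2 - m - 1) (i + l + m + 2) (k3))
    (b0 : (2 * l + 3) ≤ (n))
    (b1 : (2 * i + j + 1) ≤ (k))
    (b2 : (n + k3) ≤ (i + k + 2 * l + m + 3))
    (b3 : (k + i2 + m + 1) ≤ (i + k3))
    (b4 : (i + m + k3 + 3) ≤ (Q + k + i2))
    (b5 : (2 * Q + k + 2 * l + 2 * m + 4) ≤ (n + j + 2 * k3))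
    (b6 : (n + i2 + k3) ≤ (i + j + 2 * l + 3 * m + 4))
    (b7 : (4 * k + l + 2) ≤ (n + 2 * i + i2))
    (b8 : (i + 2 * l + 2 * m + 4) ≤ (n + j))
    (b9 : (i + 2 * k) ≤ (3 * j)) : False := by
  have ev := al.ev
  obtain ⟨y0, y1, y2, y3, y4, y5, y6, y7, y8, y9, y10, y11, y12, y13, y14, y15, y16, y17, y18, y19, y20⟩ := id hy
  have n1p := And.intro n1.p1 n1.p2
  have n2p := And.intro n2.p1 n2.p2
  have n3p := And.intro n3.p1 n3.p2
  by_cases z109 : (i + 2 * j + k3 + 1) ≤ (3 * k)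
  · by_cases z110 : (n + 2 * k3) ≤ (i + 2 * k + 2 * l + 2 * m + 4)
    · have kk1269 : (i + 3 * k + 2 * l + 2 * m + 5) ≤ (n + 2 * j + 2 * k3) := by clear * - b0 b3 b6 b9 y16 z109 z110; omega
      have kk1270 : (2 * j + 2 * k3) ≤ (i + 3 * k + 2 * l + 2 * m + 3) := by clear * - b0 b3 b6 b7 b9 y18 z109 z110; omega
      have kk1271 : (2 * j + 2 * k3) ≤ (3 * k + l + m + 1) := by clear * - y19 z109; omega
      have kk1272 : (j) ≤ (k) := by clear * - b0 b3 b6 y16 z109 z110; omega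
      have kk1273 : (i + 2 * j + k3 + 1) ≤ (3 * k) := by clear * - z109; omega
      have kk1274 : (i + 2 * j + 1) ≤ (2 * k) := by clear * - b0 b3 b6 y16 z109 z110; omega
      have kk1275 : (n + 2 * k3) ≤ (i + 2 * k + 2 * l + 2 * m + 4) := by clear * - z110; omega
      have kk1276 : (n + j + 2 * k3) ≤ (i + 3 * k + 2 * l + 2 * m + 4) := by clear * - b0 b3 b6 y16 z109 z110; omega
      have kk1277 : (n + 2 * k3) ≤ (2 * i + k + 3 * l + 2 * m + 5) := by clear * - b2 y19; omega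
      have kk1278 : (k3) ≤ (i + l + m + 2) := by clear * - y19; omega
      clear * - al a1 b D2 kk1269 kk1270 kk1271 kk1272 kk1273 kk1274 kk1275 kk1276 kk1277 kk1278
      exact al.ubP (n + 2 * j + 2 * k3 - i - 3 * k - 2 * l - 2 * m - 4) (by omega) (by omega) fun t h1 h2 => (cE (sh al 2 t (t + (2 * n)) (by omega)) (cE (cE (cE (cE (qf D2 al 1 (t + (2 * n)) (t + (n + k3 - i - l - m - 2)) (by omega)) (qf D2 al 0 (t + (n + k3 - i - l - m - 2)) (t + (n + 2 * k3 - 2 * i - 2 * l - 2 * m - 4)) (by omega))) (pb b al 0 (t + (n + 2 * k3 - 2 * i - 2 * l - 2 * m - 4)) (t + (n + 2 * k3 - i - k - 2 * l - 2 * m - 4)) (by omega))) (pb a1 al 0 (t + (n + 2 * k3 - i - k - 2 * l - 2 * m - 4)) (t + (n + j + 2 * k3 - i - 2 * k - 2 * l - 2 * m - 4)) (by omega))) (pb a1 al 0 (t + (n + j + 2 * k3 - i - 2 * k - 2 * l - 2 * m - 4)) (t + (n + 2 * j + 2 * k3 - i - 3 * k - 2 * l - 2 * m - 4)) (by omega))))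
    · have kk1279 : (k + i2 + m + 2) ≤ (i + k3) := by clear * - b2 y17 z110; omega
      have kk1280 : (i + k3) ≤ (n + k + i2 + m) := by clear * - b0 b1 b2 b6 b7 b9 z109 z110; omega
      have kk1281 : (i + k3) ≤ (Q + k + m) := by clear * - b0 b1 b2 b4 b6 z110; omega
      have kk1282 : (Q + k + l + 1) ≤ (n + i2) := by clear * - b0 b1 b2 b5 b7 b9 z110; omega
      have kk1283 : (i + m + 1) ≤ (k) := by clear * - b2 b3 b4 b5 b6 z109 z110; omega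
      have kk1284 : (k + m + 1) ≤ (k3) := by clear * - b2 z110; omega
      have kk1285 : (i + m + 1) ≤ (k3) := by clear * - b0 b1 b2 b9 z110; omega
      have kk1286 : (n + k3) ≤ (2 * k + 2 * l + m + 3) := by clear * - b0 b1 b2 b9 z110; omega
      have kk1287 : (n + k3) ≤ (i + k + 2 * l + m + 3) := by clear * - b2; omega
      clear * - al b c2 D2 kk1279 kk1280 kk1281 kk1282 kk1283 kk1284 kk1285 kk1286 kk1287
      exact al.ubQ (i + k3 - k - i2 - m - 1) (by omega) (by omega) fun t h1 h2 => (cE (sh al (-1) t (t + (-n)) (by omega)) (cE (cE (qf (show Par W (i2 + 1) (n + i2 - k - l - 1) (k + k3 - i - i2 - m - 1) from fun t h1 h2 => (cE (sh al (-1) t (t + (-n)) (by omega)) (cE (pb c2 al (-1) (t + (-n)) (t + (k + l - i2 + 1)) (by omega)) (qf D2 al 0 (t + (k + l - i2 + 1)) (t + (k + k3 - i - i2 - m - 1)) (by omega))))) al (-1) (t + (-n)) (t + (k + k3 - i - i2 - m - 1)) (by omega)) (pb b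 al 0 (t + (k + k3 - i - i2 - m - 1)) (t + (k3 - i2 - m - 1)) (by omega))) (pb b al 0 (t + (k3 - i2 - m - 1)) (t + (i + k3 - k - i2 - m - 1)) (by omega))))
  · exact h8_57 al hy a1 a2 s1 s2 b c1 c2 tt D1 D2 mx hL bd0 n1 n2 n3 (by clear * - b0; omega) (by clear * - b1; omega) (by clear * - b2; omega) (by clear * - b3; omega) (by clear * - b4; omega) (by clear * - b5; omega) (by clear * - b7; omega) (by clear * - b8; omega) (by clear * - z109; omega)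

theorem h8_43p
    (h8_44 : ∀ {W : ℤ → G} {n Q i j k l i2 m k3 : ℤ} (al : AL W n Q) (hy : (0) ≤ (i) ∧ (i) ≤ (j) ∧ (j + 1) ≤ (Q) ∧ (Q) ≤ (k) ∧ (k + 1) ≤ (n) ∧ (Q) ≤ (i + l + 1) ∧ (k + l + 2) ≤ (n) ∧ (0) ≤ (i2) ∧ (i2 + 1) ≤ (Q) ∧ (Q + m + 1) ≤ (n + i2) ∧ (i2) ≤ (m) ∧ (Q) ≤ (i + l + m + 2) ∧ (i + l + m + 3) ≤ (n) ∧ (Q) ≤ (k3) ∧ (k3 + 1) ≤ (n) ∧ (i + m + 2) ≤ (k) ∧ (i) ≤ (i2) ∧ (i2) ≤ (i) ∧ (i + m + 2) ≤ (k3) ∧ (k3) ≤ (i + l + m + 1) ∧ (m + k3 + 2) ≤ (n + i2)) (a1 : Par W (0) (j) (k - j)) (a2 : Par W (Q + j - k) (j) (k - j)) (s1 : Ant W (0) (i) (i + j)) (s2 : Ant W (j + 1) (Q) (i + j)) (b : Par W (i + 1) (i + l + 1) (k - i)) (c1 : Par W (i2 + 1) (Q) (k + l - i2 + 1)) (c2 : Par W (k + l + 2) (n) (i2 - k - l - 1)) (tt : Ant W (i2 - m) (i2) (i + l + i2 + 1)) (D1 : Par W (Q) (k3) (n + i2 - m - k3 - 1)) (D2 : Par W (i + l + m + 3) (n) (k3 - i - l - m - 2)) {L : ℤ} (mx : ∀ a b g, 0 < g → g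 < n → Par W a b g → b - a ≤ L) (hL : L ≤ (n - j - 3) ∧ L ≤ (n + Q - k - 3) ∧ L ≤ (n - l - 3) ∧ L ≤ (n + i - k - 2)) (bd0 : Bd W n L (j) (i) (k)) (n1 : Nd W (j) (i) (k)) (n2 : Nd W (i + l + 1) (i2) (k + l + 1)) (n3 : Nd W (n + i2 - m - 1) (i + l + m + 2) (k3)) (b0 : (2 * l + 3) ≤ (n)) (b1 : (2 * i + j + 1) ≤ (k)) (b2 : (n + k3) ≤ (i + k + 2 * l + m + 3)) (b3 : (k + i2 + m + 1) ≤ (i + k3)) (b4 : (2 * i + 2 * l + 3 * m + 6) ≤ (n + i2 + k3)) (b5 : (i + k) ≤ (2 * j + 1)) (b6 : (2 * Q + 2 * k + l) ≤ (n + 2 * i + j + i2)) (b7 : (i + m + k3 + 3) ≤ (Q + k + i2)) (b8 : (i2 + 1) ≤ (m)) (b9 : (2 * k + l + m + k3 + 2) ≤ (n + i + 2 * i2)), False)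
    {W : ℤ → G} {n Q i j k l i2 m k3 : ℤ} (al : AL W n Q)
    (hy : (0) ≤ (i) ∧ (i) ≤ (j) ∧ (j + 1) ≤ (Q) ∧ (Q) ≤ (k) ∧ (k + 1) ≤ (n) ∧ (Q) ≤ (i + l + 1) ∧ (k + l + 2) ≤ (n) ∧ (0) ≤ (i2) ∧ (i2 + 1) ≤ (Q) ∧ (Q + m + 1) ≤ (n + i2) ∧ (i2) ≤ (m) ∧ (Q) ≤ (i + l + m + 2) ∧ (i + l + m + 3) ≤ (n) ∧ (Q) ≤ (k3) ∧ (k3 + 1) ≤ (n) ∧ (i + m + 2) ≤ (k) ∧ (i) ≤ (i2) ∧ (i2) ≤ (i) ∧ (i + m + 2) ≤ (k3) ∧ (k3) ≤ (i + l + m + 1) ∧ (m + k3 + 2) ≤ (n + i2))
    (a1 : Par W (0) (j) (k - j))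
    (a2 : Par W (Q + j - k) (j) (k - j))
    (s1 : Ant W (0) (i) (i + j))
    (s2 : Ant W (j + 1) (Q) (i + j))
    (b : Par W (i + 1) (i + l + 1) (k - i))
    (c1 : Par W (i2 + 1) (Q) (k + l - i2 + 1))
    (c2 : Par W (k + l + 2) (n) (i2 - k - l - 1))
    (tt : Ant W (i2 - m) (i2) (i + l + i2 + 1))
    (D1 : Par W (Q) (k3) (n + i2 - m - k3 - 1))
    (D2 : Par W (i + l + m + 3) (n) (k3 - i - l - m - 2))
    {L : ℤ} (mx : ∀ a b g, 0 < g → g < n → Par W a b g → b - a ≤ L)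
    (hL : L ≤ (n - j - 3) ∧ L ≤ (n + Q - k - 3) ∧ L ≤ (n - l - 3) ∧ L ≤ (n + i - k - 2))
    (bd0 : Bd W n L (j) (i) (k))
    (n1 : Nd W (j) (i) (k))
    (n2 : Nd W (i + l + 1) (i2) (k + l + 1))
    (n3 : Nd W (n + i2 - m - 1) (i + l + m + 2) (k3))
    (b0 : (2 * l + 3) ≤ (n))
    (b1 : (2 * i + j + 1) ≤ (k))
    (b2 : (n + k3) ≤ (i + k + 2 * l + m + 3))
    (b3 : (k + i2 + m + 1) ≤ (i + k3))
    (b4 : (2 * i + 2 * l + 3 * m + 6) ≤ (n + i2 + k3))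
    (b5 : (3 * k + l + 2) ≤ (n + i + i2))
    (b6 : (i + k) ≤ (2 * j + 1))
    (b7 : (2 * Q + 2 * k + l) ≤ (n + 2 * i + j + i2))
    (b8 : (i + m + k3 + 3) ≤ (Q + k + i2))
    (b9 : (i2 + 1) ≤ (m))
    (b10 : (Q + 2 * k + l + m + 2) ≤ (n + i + 2 * i2)) : False := by
  have ev := al.ev
  obtain ⟨y0, y1, y2, y3, y4, y5, y6, y7, y8, y9, y10, y11, y12, y13, y14, y15, y16, y17, y18, y19, y20⟩ := id hy
  have n1p := And.intro n1.p1 n1.p2
  have n2p := And.intro n2.p1 n2.p2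
  have n3p := And.intro n3.p1 n3.p2
  by_cases z79 : (n + i + 2 * i2) ≤ (2 * k + l + m + k3 + 1)
  · have kk950 : (n + i + 2 * i2) ≤ (2 * k + l + m + k3 + 1) := by clear * - z79; omega
    have kk951 : (2 * k + l + m + k3 + 3) ≤ (2 * n + i + 2 * i2) := by clear * - b0 b2 b4 b5 b9 z79; omega
    have kk952 : (Q + 2 * k + l + m + 2) ≤ (n + i + 2 * i2) := by clear * - b10; omega
    have kk953 : (2 * k + l + m + k3 + 3) ≤ (n + Q + 2 * i2) := by clear * - b5 b8; omega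
    have kk954 : (k + l + m + k3 + 3) ≤ (n + Q + i2) := by clear * - b0 b10 b2 b3 b5 b8 b9 z79; omega
    have kk955 : (n + i2) ≤ (2 * k + 2 * l + 2) := by clear * - b10 b2 b3 b8 b9 z79; omega
    have kk956 : (i2) ≤ (m + 1) := by clear * - b9; omega
    clear * - al b c2 D1 kk950 kk951 kk952 kk953 kk954 kk955 kk956
    exact al.ubQ (2 * k + l + m + k3 - n - i - 2 * i2 + 2) (by omega) (by omega) fun t h1 h2 => (cE (cE (qf b al 0 t (t + (k - i)) (by omega)) (pb c2 al 0 (t + (k - i)) (t + (2 * k + l - i - i2 + 1)) (by omega))) (pb D1 al 0 (t + (2 * k + l - i - i2 + 1)) (t + (2 * k + l + m + k3 - n - i - 2 * i2 + 2)) (by omega)))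
  · exact h8_44 al hy a1 a2 s1 s2 b c1 c2 tt D1 D2 mx hL bd0 n1 n2 n3 (by clear * - b0; omega) (by clear * - b1; omega) (by clear * - b2; omega) (by clear * - b3; omega) (by clear * - b4; omega) (by clear * - b6; omega) (by clear * - b7; omega) (by clear * - b8; omega) (by clear * - b9; omega) (by clear * - z79; omega)

theorem h8_35p
    (h8_36 : ∀ {W : ℤ → G} {n Q i j k l i2 m k3 : ℤ} (al : AL W n Q) (hy : (0) ≤ (i) ∧ (i) ≤ (j) ∧ (j + 1) ≤ (Q) ∧ (Q) ≤ (k) ∧ (k + 1) ≤ (n) ∧ (Q) ≤ (i + l + 1) ∧ (k + l + 2) ≤ (n) ∧ (0) ≤ (i2) ∧ (i2 + 1) ≤ (Q) ∧ (Q + m + 1) ≤ (n + i2) ∧ (i2) ≤ (m) ∧ (Q) ≤ (i + l + m + 2) ∧ (i + l + m + 3) ≤ (n) ∧ (Q) ≤ (k3) ∧ (k3 + 1) ≤ (n) ∧ (i + m + 2) ≤ (k) ∧ (i) ≤ (i2) ∧ (i2) ≤ (i) ∧ (i + m + 2) ≤ (k3) ∧ (k3) ≤ (i + l + m + 1) ∧ (m + k3 + 2) ≤ (n + i2)) (a1 : Par W (0) (j) (k - j)) (a2 : Par W (Q + j - k) (j) (k - j)) (s1 : Ant W (0) (i) (i + j)) (s2 : Ant W (j +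 1) (Q) (i + j)) (b : Par W (i + 1) (i + l + 1) (k - i)) (c1 : Par W (i2 + 1) (Q) (k + l - i2 + 1)) (c2 : Par W (k + l + 2) (n) (i2 - k - l - 1)) (tt : Ant W (i2 - m) (i2) (i + l + i2 + 1)) (D1 : Par W (Q) (k3) (n + i2 - m - k3 - 1)) (D2 : Par W (i + l + m + 3) (n) (k3 - i - l - m - 2)) {L : ℤ} (mx : ∀ a b g, 0 < g → g < n → Par W a b g → b - a ≤ L) (hL : L ≤ (n - j - 3) ∧ L ≤ (n + Q - k - 3) ∧ L ≤ (n - l - 3) ∧ L ≤ (n + i - k - 2)) (bd0 : Bd W n L (j) (i) (k)) (n1 : Nd W (j) (i) (k)) (n2 : Nd W (i + l + 1) (i2) (k + l + 1)) (n3 : Nd W (n + i2 - m - 1) (i + l + m + 2) (k3)) (b0 : (2 * l + 3) ≤ (n)) (b1 : (k + i2 + 1) ≤ (Q + j + m)) (b2 : (2 * i + j + 1) ≤ (k)) (b3 : (n + k3) ≤ (i + k + 2 * l + m + 3)) (b4 : (k + i2 + m + 1) ≤ (i + k3)) (b5 : (2 * i + 2 * l + 3 * m + 6) ≤ (n + i2 + k3)) (b6 : (k + l + m + k3 + 3) ≤ (n + 2 * i2)) (b7 : (k) ≤ (i + 2 * j + 1)), False)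
    (h8_64 : ∀ {W : ℤ → G} {n Q i j k l i2 m k3 : ℤ} (al : AL W n Q) (hy : (0) ≤ (i) ∧ (i) ≤ (j) ∧ (j + 1) ≤ (Q) ∧ (Q) ≤ (k) ∧ (k + 1) ≤ (n) ∧ (Q) ≤ (i + l + 1) ∧ (k + l + 2) ≤ (n) ∧ (0) ≤ (i2) ∧ (i2 + 1) ≤ (Q) ∧ (Q + m + 1) ≤ (n + i2) ∧ (i2) ≤ (m) ∧ (Q) ≤ (i + l + m + 2) ∧ (i + l + m + 3) ≤ (n) ∧ (Q) ≤ (k3) ∧ (k3 + 1) ≤ (n) ∧ (i + m + 2) ≤ (k) ∧ (i) ≤ (i2) ∧ (i2) ≤ (i) ∧ (i + m + 2) ≤ (k3) ∧ (k3) ≤ (i + l + m + 1) ∧ (m + k3 + 2) ≤ (n + i2)) (a1 : Par W (0) (j) (k - j)) (a2 : Par W (Q + j - k) (j) (k - j)) (s1 : Ant W (0) (i) (i + j)) (s2 : Ant W (j + 1) (Q) (i + j)) (b : Par W (i + 1) (i + l + 1) (k - i)) (c1 : Par W (i2 + 1) (Q) (k + l - i2 + 1)) (c2 : Par W (k + l + 2) (n) (i2 - k - l - 1)) (tt : Ant W (i2 - m) (i2) (i + l + i2 + 1)) (D1 : Par W (Q) (k3) (n + i2 - m - k3 - 1)) (D2 : Par W (i + l + m + 3) (n) (k3 - i - l - m - 2)) {L : ℤ} (mx : ∀ a b g, 0 < g → g < n → Par W a b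 g → b - a ≤ L) (hL : L ≤ (n - j - 3) ∧ L ≤ (n + Q - k - 3) ∧ L ≤ (n - l - 3) ∧ L ≤ (n + i - k - 2)) (bd0 : Bd W n L (j) (i) (k)) (n1 : Nd W (j) (i) (k)) (n2 : Nd W (i + l + 1) (i2) (k + l + 1)) (n3 : Nd W (n + i2 - m - 1) (i + l + m + 2) (k3)) (b0 : (2 * l + 3) ≤ (n)) (b1 : (k + i2 + 1) ≤ (Q + j + m)) (b2 : (2 * Q + k + l) ≤ (n + 2 * j + i2)) (b3 : (n + k3) ≤ (i + k + 2 * l + m + 3)) (b4 : (k + i2 + m + 1) ≤ (i + k3)) (b5 : (2 * i + 2 * l + 3 * m + 6) ≤ (n + i2 + k3)) (b6 : (k + i2 + m + 2) ≤ (j + k3)) (b7 : (k + l + m + k3 + 3) ≤ (n + 2 * i2)) (b8 : (i + 2 * j + 2) ≤ (k)), False)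
    {W : ℤ → G} {n Q i j k l i2 m k3 : ℤ} (al : AL W n Q)
    (hy : (0) ≤ (i) ∧ (i) ≤ (j) ∧ (j + 1) ≤ (Q) ∧ (Q) ≤ (k) ∧ (k + 1) ≤ (n) ∧ (Q) ≤ (i + l + 1) ∧ (k + l + 2) ≤ (n) ∧ (0) ≤ (i2) ∧ (i2 + 1) ≤ (Q) ∧ (Q + m + 1) ≤ (n + i2) ∧ (i2) ≤ (m) ∧ (Q) ≤ (i + l + m + 2) ∧ (i + l + m + 3) ≤ (n) ∧ (Q) ≤ (k3) ∧ (k3 + 1) ≤ (n) ∧ (i + m + 2) ≤ (k) ∧ (i) ≤ (i2) ∧ (i2) ≤ (i) ∧ (i + m + 2) ≤ (k3) ∧ (k3) ≤ (i + l + m + 1) ∧ (m + k3 + 2) ≤ (n + i2))
    (a1 : Par W (0) (j) (k - j))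
    (a2 : Par W (Q + j - k) (j) (k - j))
    (s1 : Ant W (0) (i) (i + j))
    (s2 : Ant W (j + 1) (Q) (i + j))
    (b : Par W (i + 1) (i + l + 1) (k - i))
    (c1 : Par W (i2 + 1) (Q) (k + l - i2 + 1))
    (c2 : Par W (k + l + 2) (n) (i2 - k - l - 1))
    (tt : Ant W (i2 - m) (i2) (i + l + i2 + 1))
    (D1 : Par W (Q) (k3) (n + i2 - m - k3 - 1))
    (D2 : Par W (i + l + m + 3) (n) (k3 - i - l - m - 2))
    {L : ℤ} (mx : ∀ a b g, 0 < g → g < n → Par W a b g → b - a ≤ L)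
    (hL : L ≤ (n - j - 3) ∧ L ≤ (n + Q - k - 3) ∧ L ≤ (n - l - 3) ∧ L ≤ (n + i - k - 2))
    (bd0 : Bd W n L (j) (i) (k))
    (n1 : Nd W (j) (i) (k))
    (n2 : Nd W (i + l + 1) (i2) (k + l + 1))
    (n3 : Nd W (n + i2 - m - 1) (i + l + m + 2) (k3))
    (b0 : (2 * l + 3) ≤ (n))
    (b1 : (k + i2 + 1) ≤ (Q + j + m))
    (b2 : (2 * i + j + 1) ≤ (k))
    (b3 : (2 * Q + k + l) ≤ (n + 2 * j + i2))
    (b4 : (n + k3) ≤ (i + k + 2 * l + m + 3))
    (b5 : (k + i2 + m + 1) ≤ (i + k3))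
    (b6 : (2 * i + 2 * l + 3 * m + 6) ≤ (n + i2 + k3))
    (b7 : (k + i2 + m + 2) ≤ (j + k3))
    (b8 : (k + l + m + k3 + 3) ≤ (n + 2 * i2)) : False := by
  have ev := al.ev
  obtain ⟨y0, y1, y2, y3, y4, y5, y6, y7, y8, y9, y10, y11, y12, y13, y14, y15, y16, y17, y18, y19, y20⟩ := id hy
  have n1p := And.intro n1.p1 n1.p2
  have n2p := And.intro n2.p1 n2.p2
  have n3p := And.intro n3.p1 n3.p2
  by_cases z69 : (k) ≤ (i + 2 * j + 1)
  · exact h8_36 al hy a1 a2 s1 s2 b c1 c2 tt D1 D2 mx hL bd0 n1 n2 n3 (by clear * - b0; omega) (by clear * - b1; omega) (by clear * - b2; omega) (by clear * - b4; omega) (by clear * - b5; omega) (by clear * - b6; omega) (by clear * - b8; omega) (by clear * - z69; omega)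
  · exact h8_64 al hy a1 a2 s1 s2 b c1 c2 tt D1 D2 mx hL bd0 n1 n2 n3 (by clear * - b0; omega) (by clear * - b1; omega) (by clear * - b3; omega) (by clear * - b4; omega) (by clear * - b5; omega) (by clear * - b6; omega) (by clear * - b7; omega) (by clear * - b8; omega) (by clear * - z69; omega)

theorem h8_29p
    (h8_30 : ∀ {W : ℤ → G} {n Q i j k l i2 m k3 : ℤ} (al : AL W n Q) (hy : (0) ≤ (i) ∧ (i) ≤ (j) ∧ (j + 1) ≤ (Q) ∧ (Q) ≤ (k) ∧ (k + 1) ≤ (n) ∧ (Q) ≤ (i + l + 1) ∧ (k + l + 2) ≤ (n) ∧ (0) ≤ (i2) ∧ (i2 + 1) ≤ (Q) ∧ (Q + m + 1) ≤ (n + i2) ∧ (i2) ≤ (m) ∧ (Q) ≤ (i + l + m + 2) ∧ (i + l + m + 3) ≤ (n) ∧ (Q) ≤ (k3) ∧ (k3 + 1) ≤ (n) ∧ (i + m + 2) ≤ (k) ∧ (i) ≤ (i2) ∧ (i2) ≤ (i) ∧ (i + m + 2) ≤ (k3) ∧ (k3) ≤ (i + l + m + 1) ∧ (m + k3 + 2) ≤ (n + i2)) (a1 : Par W (0) (j) (k - j)) (a2 : Par W (Q + j - k) (j) (k - j)) (s1 : Ant W (0) (i) (i + j)) (s2 : Ant W (j + 1) (Q) (i + j)) (b : Par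 W (i + 1) (i + l + 1) (k - i)) (c1 : Par W (i2 + 1) (Q) (k + l - i2 + 1)) (c2 : Par W (k + l + 2) (n) (i2 - k - l - 1)) (tt : Ant W (i2 - m) (i2) (i + l + i2 + 1)) (D1 : Par W (Q) (k3) (n + i2 - m - k3 - 1)) (D2 : Par W (i + l + m + 3) (n) (k3 - i - l - m - 2)) {L : ℤ} (mx : ∀ a b g, 0 < g → g < n → Par W a b g → b - a ≤ L) (hL : L ≤ (n - j - 3) ∧ L ≤ (n + Q - k - 3) ∧ L ≤ (n - l - 3) ∧ L ≤ (n + i - k - 2)) (bd0 : Bd W n L (j) (i) (k)) (n1 : Nd W (j) (i) (k)) (n2 : Nd W (i + l + 1) (i2) (k + l + 1)) (n3 : Nd W (n + i2 - m - 1) (i + l + m + 2) (k3)) (b0 : (2 * l + 3) ≤ (n)) (b1 : (2 * i + 2 * l + 3 * m + 5) ≤ (n + i2 + k3)) (b2 : (k + i2 + 1) ≤ (Q + j + m)) (b3 : (2 * i + j + 1) ≤ (k)) (b4 : (2 * Q + k + l) ≤ (n + 2 * j + i2)) (b5 : (Q + k + l + 1) ≤ (n + i2)) (b6 : (n + k3) ≤ (i + k + 2 * l + m + 3)) (b7 : (k + k3) ≤ (2 * i + l + m + 1)) (b8 : (k + i2 + m + 1) ≤ (i + k3)), False)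
    {W : ℤ → G} {n Q i j k l i2 m k3 : ℤ} (al : AL W n Q)
    (hy : (0) ≤ (i) ∧ (i) ≤ (j) ∧ (j + 1) ≤ (Q) ∧ (Q) ≤ (k) ∧ (k + 1) ≤ (n) ∧ (Q) ≤ (i + l + 1) ∧ (k + l + 2) ≤ (n) ∧ (0) ≤ (i2) ∧ (i2 + 1) ≤ (Q) ∧ (Q + m + 1) ≤ (n + i2) ∧ (i2) ≤ (m) ∧ (Q) ≤ (i + l + m + 2) ∧ (i + l + m + 3) ≤ (n) ∧ (Q) ≤ (k3) ∧ (k3 + 1) ≤ (n) ∧ (i + m + 2) ≤ (k) ∧ (i) ≤ (i2) ∧ (i2) ≤ (i) ∧ (i + m + 2) ≤ (k3) ∧ (k3) ≤ (i + l + m + 1) ∧ (m + k3 + 2) ≤ (n + i2))
    (a1 : Par W (0) (j) (k - j))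
    (a2 : Par W (Q + j - k) (j) (k - j))
    (s1 : Ant W (0) (i) (i + j))
    (s2 : Ant W (j + 1) (Q) (i + j))
    (b : Par W (i + 1) (i + l + 1) (k - i))
    (c1 : Par W (i2 + 1) (Q) (k + l - i2 + 1))
    (c2 : Par W (k + l + 2) (n) (i2 - k - l - 1))
    (tt : Ant W (i2 - m) (i2) (i + l + i2 + 1))
    (D1 : Par W (Q) (k3) (n + i2 - m - k3 - 1))
    (D2 : Par W (i + l + m + 3) (n) (k3 - i - l - m - 2))
    {L : ℤ} (mx : ∀ a b g, 0 < g → g < n → Par W a b g → b - a ≤ L)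
    (hL : L ≤ (n - j - 3) ∧ L ≤ (n + Q - k - 3) ∧ L ≤ (n - l - 3) ∧ L ≤ (n + i - k - 2))
    (bd0 : Bd W n L (j) (i) (k))
    (n1 : Nd W (j) (i) (k))
    (n2 : Nd W (i + l + 1) (i2) (k + l + 1))
    (n3 : Nd W (n + i2 - m - 1) (i + l + m + 2) (k3))
    (b0 : (2 * l + 3) ≤ (n))
    (b1 : (2 * i + 2 * l + 3 * m + 5) ≤ (n + i2 + k3))
    (b2 : (k + i2 + 1) ≤ (Q + j + m))
    (b3 : (2 * i + j + 1) ≤ (k))
    (b4 : (2 * Q + k + l) ≤ (n + 2 * j + i2))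
    (b5 : (1) ≤ (m))
    (b6 : (Q + k + l + 1) ≤ (n + i2))
    (b7 : (Q + m + 1) ≤ (k3))
    (b8 : (n + k3) ≤ (i + k + 2 * l + m + 3))
    (b9 : (k + k3) ≤ (2 * i + l + m + 1))
    (b10 : (i2 + 2 * m + 2) ≤ (k3)) : False := by
  have ev := al.ev
  obtain ⟨y0, y1, y2, y3, y4, y5, y6, y7, y8, y9, y10, y11, y12, y13, y14, y15, y16, y17, y18, y19, y20⟩ := id hy
  have n1p := And.intro n1.p1 n1.p2
  have n2p := And.intro n2.p1 n2.p2
  have n3p := And.intro n3.p1 n3.p2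
  by_cases z59 : (i + k3) ≤ (k + i2 + m)
  · by_cases v25 : (n + i2) ≤ (2 * i + 2 * l + 2)
    · have kk729 : (i + 1) ≤ (k3) := by clear * - b5 y18; omega
      have kk730 : (k3) ≤ (i + l) := by clear * - b10 b9 z59; omega
      have kk731 : (k + k3) ≤ (2 * i + l + m + 1) := by clear * - b9; omega
      have kk732 : (i + k3) ≤ (k + i2 + m) := by clear * - z59; omega
      have kk733 : (k + i2 + m) ≤ (2 * i + l) := by clear * - b10 b9; omega
      have kk734 : (0) ≤ (m) := by clear * - b5; omega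
      have kk735 : (2 * i + 2 * l + 2 * m + 4) ≤ (n + k3) := by clear * - b1 y10; omega
      have kk736 : (i) ≤ (k3) := by clear * - b5 y18; omega
      have kk737 : (2 * i + 2 * l + m + 3) ≤ (n + k3) := by clear * - b0 b1 b2 b3 b5 b7; omega
      have kk738 : (i + m + 1) ≤ (k) := by clear * - b10 z59; omega
      have kk739 : (i) ≤ (i2) := by clear * - y16; omega
      have kk740 : (2 * i) ≤ (k + i2) := by clear * - y18 z59; omega
      have kk741 : (i) ≤ (k) := by clear * - b10 b5 z59; omega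
      have kk742 : (n + i2) ≤ (2 * i + 2 * l + 2) := by clear * - v25; omega
      have r743 : (2 * i + l + m - k - k3 + 2) % 2 = 0 := by clear * - ev n1p n2p n3p; omega
      have r744 : (k + i2 + m - i - k3 + 1) % 2 = 0 := by clear * - ev n1p n2p n3p; omega
      clear * - al b c2 D2 n3 kk729 kk730 kk731 kk732 kk733 kk734 kk735 kk736 kk737 kk738 kk739 kk740 kk741 kk742 r743 r744
      exact n3.f1 (rEE (sh al 0 (i + l + m + 2) (i + l + m + 2) (by omega)) (qf b al 0 (k3) (k + k3 - i) (by omega)) (Eq.symm (rotL (2 * i + l + m - k - k3 + 2) (k + i2 + m - i - k3 + 1) (k + k3 - i) (i + l + m + 2) (by omega) (fun t h1 h2 => (qf (show Par W (k + k3 - i + 1) (k + l + 1) (2 * i + l + m - k - k3 + 2) from fun t h1 h2 => (cE (sh al (-1) t (t + (-n)) (by omega)) (cE (pb b al (-1) (t + (-n)) (t + (i - k)) (by omega)) (pb D2 al 0 (t + (i - k)) (t + (2 * i + l + m - k - k3 + 2)) (by omega))))) al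 0 t (t + (2 * i + l + m - k - k3 + 2)) (by omega))) (fun t h1 h2 => (cE (cE (pb (show Par W (i2 + 1) (n + i2 - k - l - 1) (k + k3 - i - i2 - m - 1) from fun t h1 h2 => (cE (sh al (-1) t (t + (-n)) (by omega)) (cE (pb c2 al (-1) (t + (-n)) (t + (k + l - i2 + 1)) (by omega)) (qf D2 al 0 (t + (k + l - i2 + 1)) (t + (k + k3 - i - i2 - m - 1)) (by omega))))) al 0 t (t + (i + i2 + m - k - k3 + 1)) (by omega)) (qf b al 0 (t + (i + i2 + m - k - k3 + 1)) (t + (i2 + m - k3 + 1)) (by omega))) (qf b al 0 (t + (i2 + m - k3 + 1)) (t + (k + i2 + m - i - k3 + 1)) (by omega)))))))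
    · have kk745 : (i + 1) ≤ (k3) := by clear * - b5 y18; omega
      have kk746 : (k3) ≤ (i + l) := by clear * - b10 b9 z59; omega
      have kk747 : (k + k3) ≤ (2 * i + l + m + 1) := by clear * - b9; omega
      have kk748 : (i + k3) ≤ (k + i2 + m) := by clear * - z59; omega
      have kk749 : (k + i2 + m) ≤ (2 * i + l) := by clear * - b10 b9; omega
      have kk750 : (0) ≤ (m) := by clear * - b5; omega
      have kk751 : (i2 + 2 * m + 2) ≤ (k3) := by clear * - b10; omega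
      have kk752 : (i) ≤ (k3) := by clear * - b5 y18; omega
      have kk753 : (2 * i + 2 * l + m + 3) ≤ (n + k3) := by clear * - b10 b5 v25; omega
      have kk754 : (i + m + 1) ≤ (k) := by clear * - b10 z59; omega
      have kk755 : (i) ≤ (i2) := by clear * - y16; omega
      have kk756 : (2 * i) ≤ (k + i2) := by clear * - y18 z59; omega
      have kk757 : (i) ≤ (k) := by clear * - b10 b5 z59; omega
      have kk758 : (2 * i + 2 * l + 2) ≤ (n + i2) := by clear * - v25; omega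
      have r759 : (2 * i + l + m - k - k3 + 2) % 2 = 0 := by clear * - ev n1p n2p n3p; omega
      have r760 : (k + i2 + m - i - k3 + 1) % 2 = 0 := by clear * - ev n1p n2p n3p; omega
      clear * - al b c2 D2 n3 kk745 kk746 kk747 kk748 kk749 kk750 kk751 kk752 kk753 kk754 kk755 kk756 kk757 kk758 r759 r760
      exact n3.f1 (rEE (sh al 0 (i + l + m + 2) (i + l + m + 2) (by omega)) (qf b al 0 (k3) (k + k3 - i) (by omega)) (Eq.symm (rotL (2 * i + l + m - k - k3 + 2) (k + i2 + m - i - k3 + 1) (k + k3 - i) (i + l + m + 2) (by omega) (fun t h1 h2 => (qf (show Par W (k + k3 - i + 1) (k + l + 1) (2 * i + l + m - k - k3 + 2) from fun t h1 h2 => (cE (sh al (-1) t (t + (-n)) (by omega)) (cE (pb b al (-1) (t + (-n)) (t + (i - k)) (by omega)) (pb D2 al 0 (t + (i - k)) (t + (2 * i + l + m - k - k3 + 2)) (by omega))))) al 0 t (t + (2 * i + l + m - k - k3 + 2)) (by omega))) (fun t h1 h2 => (cE (cE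 (pb (show Par W (i2 + 1) (n + i2 - k - l - 1) (k + k3 - i - i2 - m - 1) from fun t h1 h2 => (cE (sh al (-1) t (t + (-n)) (by omega)) (cE (pb c2 al (-1) (t + (-n)) (t + (k + l - i2 + 1)) (by omega)) (qf D2 al 0 (t + (k + l - i2 + 1)) (t + (k + k3 - i - i2 - m - 1)) (by omega))))) al 0 t (t + (i + i2 + m - k - k3 + 1)) (by omega)) (qf b al 0 (t + (i + i2 + m - k - k3 + 1)) (t + (i2 + m - k3 + 1)) (by omega))) (qf b al 0 (t + (i2 + m - k3 + 1)) (t + (k + i2 + m - i - k3 + 1)) (by omega)))))))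
  · exact h8_30 al hy a1 a2 s1 s2 b c1 c2 tt D1 D2 mx hL bd0 n1 n2 n3 (by clear * - b0; omega) (by clear * - b1; omega) (by clear * - b2; omega) (by clear * - b3; omega) (by clear * - b4; omega) (by clear * - b6; omega) (by clear * - b8; omega) (by clear * - b9; omega) (by clear * - z59; omega)

theorem h8_66p
    (h8_67 : ∀ {W : ℤ → G} {n Q i j k l i2 m k3 : ℤ} (al : AL W n Q) (hy : (0) ≤ (i) ∧ (i) ≤ (j) ∧ (j + 1) ≤ (Q) ∧ (Q) ≤ (k) ∧ (k + 1) ≤ (n) ∧ (Q) ≤ (i + l + 1) ∧ (k + l + 2) ≤ (n) ∧ (0) ≤ (i2) ∧ (i2 + 1) ≤ (Q) ∧ (Q + m + 1) ≤ (n + i2) ∧ (i2) ≤ (m) ∧ (Q) ≤ (i + l + m + 2) ∧ (i + l + m + 3) ≤ (n) ∧ (Q) ≤ (k3) ∧ (k3 + 1) ≤ (n) ∧ (i + m + 2) ≤ (k) ∧ (i) ≤ (i2) ∧ (i2) ≤ (i) ∧ (i + m + 2) ≤ (k3) ∧ (k3) ≤ (i + l + m + 1) ∧ (m + k3 + 2) ≤ (n + i2)) (a1 : Par W (0) (j) (k - j)) (a2 : Par W (Q + j - k) (j) (k - j)) (s1 : Ant W (0) (i) (i + j)) (s2 : Ant W (j + 1) (Q) (i + j)) (b : Par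 W (i + 1) (i + l + 1) (k - i)) (c1 : Par W (i2 + 1) (Q) (k + l - i2 + 1)) (c2 : Par W (k + l + 2) (n) (i2 - k - l - 1)) (tt : Ant W (i2 - m) (i2) (i + l + i2 + 1)) (D1 : Par W (Q) (k3) (n + i2 - m - k3 - 1)) (D2 : Par W (i + l + m + 3) (n) (k3 - i - l - m - 2)) {L : ℤ} (mx : ∀ a b g, 0 < g → g < n → Par W a b g → b - a ≤ L) (hL : L ≤ (n - j - 3) ∧ L ≤ (n + Q - k - 3) ∧ L ≤ (n - l - 3) ∧ L ≤ (n + i - k - 2)) (bd0 : Bd W n L (j) (i) (k)) (n1 : Nd W (j) (i) (k)) (n2 : Nd W (i + l + 1) (i2) (k + l + 1)) (n3 : Nd W (n + i2 - m - 1) (i + l + m + 2) (k3)) (b0 : (2 * l + 3) ≤ (n)) (b1 : (2 * i + 2 * l + 3 * m + 5) ≤ (n + i2 + k3)) (b2 : (k + i2 + 1) ≤ (Q + j + m)) (b3 : (2 * i + j + 1) ≤ (k)) (b4 : (2 * Q + k + l) ≤ (n + 2 * j + i2)) (b5 : (m + k3) ≤ (i + l + 2 * i2 + 1)) (b6 : (Q + k3) ≤ (i + l + i2 + m + 2)) (b7 : (Q + k + l + 1) ≤ (n + i2)) (b8 : (Q + m + 1) ≤ (k3)) (b9 : (i + l + i2 +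 m + 3) ≤ (k + k3)) (b10 : (n + 2 * i2) ≤ (2 * i + 2 * l + 2 * m + 2)), False)
    (h8_71 : ∀ {W : ℤ → G} {n Q i j k l i2 m k3 : ℤ} (al : AL W n Q) (hy : (0) ≤ (i) ∧ (i) ≤ (j) ∧ (j + 1) ≤ (Q) ∧ (Q) ≤ (k) ∧ (k + 1) ≤ (n) ∧ (Q) ≤ (i + l + 1) ∧ (k + l + 2) ≤ (n) ∧ (0) ≤ (i2) ∧ (i2 + 1) ≤ (Q) ∧ (Q + m + 1) ≤ (n + i2) ∧ (i2) ≤ (m) ∧ (Q) ≤ (i + l + m + 2) ∧ (i + l + m + 3) ≤ (n) ∧ (Q) ≤ (k3) ∧ (k3 + 1) ≤ (n) ∧ (i + m + 2) ≤ (k) ∧ (i) ≤ (i2) ∧ (i2) ≤ (i) ∧ (i + m + 2) ≤ (k3) ∧ (k3) ≤ (i + l + m + 1) ∧ (m + k3 + 2) ≤ (n + i2)) (a1 : Par W (0) (j) (k - j)) (a2 : Par W (Q + j - k) (j) (k - j)) (s1 : Ant W (0) (i) (i + j)) (s2 : Ant W (j + 1) (Q) (i + j)) (b : Par W (i + 1) (i + l + 1) (k - i)) (c1 : Par W (i2 + 1) (Q) (k + l - i2 + 1)) (c2 : Par W (k + l + 2) (n) (i2 - k - l - 1)) (tt : Ant W (i2 - m) (i2) (i + l + i2 + 1)) (D1 : Par W (Q) (k3) (n + i2 - m - k3 - 1)) (D2 : Par W (i + l + m +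 3) (n) (k3 - i - l - m - 2)) {L : ℤ} (mx : ∀ a b g, 0 < g → g < n → Par W a b g → b - a ≤ L) (hL : L ≤ (n - j - 3) ∧ L ≤ (n + Q - k - 3) ∧ L ≤ (n - l - 3) ∧ L ≤ (n + i - k - 2)) (bd0 : Bd W n L (j) (i) (k)) (n1 : Nd W (j) (i) (k)) (n2 : Nd W (i + l + 1) (i2) (k + l + 1)) (n3 : Nd W (n + i2 - m - 1) (i + l + m + 2) (k3)) (b0 : (k + i2 + 1) ≤ (Q + j + m)) (b1 : (2 * i + j + 1) ≤ (k)) (b2 : (2 * Q + k + l) ≤ (n + 2 * j + i2)) (b3 : (m + k3) ≤ (i + l + 2 * i2 + 1)) (b4 : (1) ≤ (m)) (b5 : (Q + k3) ≤ (i + l + i2 + m + 2)) (b6 : (Q + k + l + 1) ≤ (n + i2)) (b7 : (Q + m + 1) ≤ (k3)) (b8 : (i + l + i2 + m + 3) ≤ (k + k3)) (b9 : (2 * i + 2 * l + 2 * m + 3) ≤ (n + 2 * i2)), False)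
    {W : ℤ → G} {n Q i j k l i2 m k3 : ℤ} (al : AL W n Q)
    (hy : (0) ≤ (i) ∧ (i) ≤ (j) ∧ (j + 1) ≤ (Q) ∧ (Q) ≤ (k) ∧ (k + 1) ≤ (n) ∧ (Q) ≤ (i + l + 1) ∧ (k + l + 2) ≤ (n) ∧ (0) ≤ (i2) ∧ (i2 + 1) ≤ (Q) ∧ (Q + m + 1) ≤ (n + i2) ∧ (i2) ≤ (m) ∧ (Q) ≤ (i + l + m + 2) ∧ (i + l + m + 3) ≤ (n) ∧ (Q) ≤ (k3) ∧ (k3 + 1) ≤ (n) ∧ (i + m + 2) ≤ (k) ∧ (i) ≤ (i2) ∧ (i2) ≤ (i) ∧ (i + m + 2) ≤ (k3) ∧ (k3) ≤ (i + l + m + 1) ∧ (m + k3 + 2) ≤ (n + i2))
    (a1 : Par W (0) (j) (k - j))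
    (a2 : Par W (Q + j - k) (j) (k - j))
    (s1 : Ant W (0) (i) (i + j))
    (s2 : Ant W (j + 1) (Q) (i + j))
    (b : Par W (i + 1) (i + l + 1) (k - i))
    (c1 : Par W (i2 + 1) (Q) (k + l - i2 + 1))
    (c2 : Par W (k + l + 2) (n) (i2 - k - l - 1))
    (tt : Ant W (i2 - m) (i2) (i + l + i2 + 1))
    (D1 : Par W (Q) (k3) (n + i2 - m - k3 - 1))
    (D2 : Par W (i + l + m + 3) (n) (k3 - i - l - m - 2))
    {L : ℤ} (mx : ∀ a b g, 0 < g → g < n → Par W a b g → b - a ≤ L)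
    (hL : L ≤ (n - j - 3) ∧ L ≤ (n + Q - k - 3) ∧ L ≤ (n - l - 3) ∧ L ≤ (n + i - k - 2))
    (bd0 : Bd W n L (j) (i) (k))
    (n1 : Nd W (j) (i) (k))
    (n2 : Nd W (i + l + 1) (i2) (k + l + 1))
    (n3 : Nd W (n + i2 - m - 1) (i + l + m + 2) (k3))
    (b0 : (2 * l + 3) ≤ (n))
    (b1 : (2 * i + 2 * l + 3 * m + 5) ≤ (n + i2 + k3))
    (b2 : (k + i2 + 1) ≤ (Q + j + m))
    (b3 : (2 * i + j + 1) ≤ (k))
    (b4 : (2 * Q + k + l) ≤ (n + 2 * j + i2))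
    (b5 : (m + k3) ≤ (i + l + 2 * i2 + 1))
    (b6 : (1) ≤ (m))
    (b7 : (Q + k3) ≤ (i + l + i2 + m + 2))
    (b8 : (Q + k + l + 1) ≤ (n + i2))
    (b9 : (Q + m + 1) ≤ (k3))
    (b10 : (i + l + i2 + m + 3) ≤ (k + k3)) : False := by
  have ev := al.ev
  obtain ⟨y0, y1, y2, y3, y4, y5, y6, y7, y8, y9, y10, y11, y12, y13, y14, y15, y16, y17, y18, y19, y20⟩ := id hy
  have n1p := And.intro n1.p1 n1.p2
  have n2p := And.intro n2.p1 n2.p2
  have n3p := And.intro n3.p1 n3.p2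
  by_cases z139 : (n + 2 * i2) ≤ (2 * i + 2 * l + 2 * m + 2)
  · exact h8_67 al hy a1 a2 s1 s2 b c1 c2 tt D1 D2 mx hL bd0 n1 n2 n3 (by clear * - b0; omega) (by clear * - b1; omega) (by clear * - b2; omega) (by clear * - b3; omega) (by clear * - b4; omega) (by clear * - b5; omega) (by clear * - b7; omega) (by clear * - b8; omega) (by clear * - b9; omega) (by clear * - b10; omega) (by clear * - z139; omega)
  · exact h8_71 al hy a1 a2 s1 s2 b c1 c2 tt D1 D2 mx hL bd0 n1 n2 n3 (by clear * - b2; omega) (by clear * - b3; omega) (by clear * - b4; omega) (by clear * - b5; omega) (by clear * - b6; omega) (by clear * - b7; omega) (by clear * - b8; omega) (by clear * - b9; omega) (by clear * - b10; omega) (by clear * - z139; omega)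

theorem h8_87p
    (h8_88 : ∀ {W : ℤ → G} {n Q i j k l i2 m k3 : ℤ} (al : AL W n Q) (hy : (0) ≤ (i) ∧ (i) ≤ (j) ∧ (j + 1) ≤ (Q) ∧ (Q) ≤ (k) ∧ (k + 1) ≤ (n) ∧ (Q) ≤ (i + l + 1) ∧ (k + l + 2) ≤ (n) ∧ (0) ≤ (i2) ∧ (i2 + 1) ≤ (Q) ∧ (Q + m + 1) ≤ (n + i2) ∧ (i2) ≤ (m) ∧ (Q) ≤ (i + l + m + 2) ∧ (i + l + m + 3) ≤ (n) ∧ (Q) ≤ (k3) ∧ (k3 + 1) ≤ (n) ∧ (i + m + 2) ≤ (k) ∧ (i) ≤ (i2) ∧ (i2) ≤ (i) ∧ (i + m + 2) ≤ (k3) ∧ (k3) ≤ (i + l + m + 1) ∧ (m + k3 + 2) ≤ (n + i2)) (a1 : Par W (0) (j) (k - j)) (a2 : Par W (Q + j - k) (j) (k - j)) (s1 : Ant W (0) (i) (i + j)) (s2 : Ant W (j + 1) (Q) (i + j)) (b : Par W (i + 1) (i + l + 1) (k - i)) (c1 : Par W (i2 + 1) (Q) (k + l - i2 + 1)) (c2 : Par W (k + l + 2) (n) (i2 - k - l - 1)) (tt : Ant W (i2 - m) (i2) (i + l + i2 + 1)) (D1 : Par W (Q) (k3) (n + i2 - m - k3 - 1)) (D2 : Par W (i + l + m + 3) (n) (k3 - i - l - m - 2)) {L : ℤ} (mx : ∀ a b g, 0 < g → g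 < n → Par W a b g → b - a ≤ L) (hL : L ≤ (n - j - 3) ∧ L ≤ (n + Q - k - 3) ∧ L ≤ (n - l - 3) ∧ L ≤ (n + i - k - 2)) (bd0 : Bd W n L (j) (i) (k)) (n1 : Nd W (j) (i) (k)) (n2 : Nd W (i + l + 1) (i2) (k + l + 1)) (n3 : Nd W (n + i2 - m - 1) (i + l + m + 2) (k3)) (b0 : (2 * l + 3) ≤ (n)) (b1 : (2 * Q + k + l) ≤ (n + 2 * j + i2)) (b2 : (m + k3) ≤ (i + l + 2 * i2 + 1)) (b3 : (1) ≤ (m)) (b4 : (i + l + i2 + m + 3) ≤ (Q + k3)) (b5 : (i + 2 * j + 1) ≤ (k)) (b6 : (2 * i2 + k3) ≤ (i + l + m + 1)) (b7 : (2 * k + l + 2) ≤ (n + i2)) (b8 : (2 * Q + k3) ≤ (3 * i + 2 * j + l + m + 3)) (b9 : (n + i2 + k3) ≤ (2 * i + j + k + 2 * l + m + 4)), False)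
    {W : ℤ → G} {n Q i j k l i2 m k3 : ℤ} (al : AL W n Q)
    (hy : (0) ≤ (i) ∧ (i) ≤ (j) ∧ (j + 1) ≤ (Q) ∧ (Q) ≤ (k) ∧ (k + 1) ≤ (n) ∧ (Q) ≤ (i + l + 1) ∧ (k + l + 2) ≤ (n) ∧ (0) ≤ (i2) ∧ (i2 + 1) ≤ (Q) ∧ (Q + m + 1) ≤ (n + i2) ∧ (i2) ≤ (m) ∧ (Q) ≤ (i + l + m + 2) ∧ (i + l + m + 3) ≤ (n) ∧ (Q) ≤ (k3) ∧ (k3 + 1) ≤ (n) ∧ (i + m + 2) ≤ (k) ∧ (i) ≤ (i2) ∧ (i2) ≤ (i) ∧ (i + m + 2) ≤ (k3) ∧ (k3) ≤ (i + l + m + 1) ∧ (m + k3 + 2) ≤ (n + i2))
    (a1 : Par W (0) (j) (k - j))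
    (a2 : Par W (Q + j - k) (j) (k - j))
    (s1 : Ant W (0) (i) (i + j))
    (s2 : Ant W (j + 1) (Q) (i + j))
    (b : Par W (i + 1) (i + l + 1) (k - i))
    (c1 : Par W (i2 + 1) (Q) (k + l - i2 + 1))
    (c2 : Par W (k + l + 2) (n) (i2 - k - l - 1))
    (tt : Ant W (i2 - m) (i2) (i + l + i2 + 1))
    (D1 : Par W (Q) (k3) (n + i2 - m - k3 - 1))
    (D2 : Par W (i + l + m + 3) (n) (k3 - i - l - m - 2))
    {L : ℤ} (mx : ∀ a b g, 0 < g → g < n → Par W a b g → b - a ≤ L)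
    (hL : L ≤ (n - j - 3) ∧ L ≤ (n + Q - k - 3) ∧ L ≤ (n - l - 3) ∧ L ≤ (n + i - k - 2))
    (bd0 : Bd W n L (j) (i) (k))
    (n1 : Nd W (j) (i) (k))
    (n2 : Nd W (i + l + 1) (i2) (k + l + 1))
    (n3 : Nd W (n + i2 - m - 1) (i + l + m + 2) (k3))
    (b0 : (2 * l + 3) ≤ (n))
    (b1 : (k + i2 + 1) ≤ (Q + j + m))
    (b2 : (2 * Q + k + l) ≤ (n + 2 * j + i2))
    (b3 : (m + k3) ≤ (i + l + 2 * i2 + 1))
    (b4 : (1) ≤ (m))
    (b5 : (i + l + i2 + m + 3) ≤ (Q + k3))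
    (b6 : (n + i2) ≤ (i + k + 2 * l + m + 2))
    (b7 : (i + 2 * j + 1) ≤ (k))
    (b8 : (2 * i2 + k3) ≤ (i + l + m + 1))
    (b9 : (2 * k + l + 2) ≤ (n + i2))
    (b10 : (2 * Q + k3) ≤ (3 * i + 2 * j + l + m + 3))
    (b11 : (n + j + i2 + k3) ≤ (2 * Q + k + 2 * l + m + 2)) : False := by
  have ev := al.ev
  obtain ⟨y0, y1, y2, y3, y4, y5, y6, y7, y8, y9, y10, y11, y12, y13, y14, y15, y16, y17, y18, y19, y20⟩ := id hy
  have n1p := And.intro n1.p1 n1.p2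
  have n2p := And.intro n2.p1 n2.p2
  have n3p := And.intro n3.p1 n3.p2
  by_cases z201 : (2 * i + j + k + 2 * l + m + 5) ≤ (n + i2 + k3)
  · by_cases v72 : (Q + i + k + 2 * l + m + 3) ≤ (n + i2 + k3)
    · have kk2519 : (n + j + i2 + k3) ≤ (2 * Q + k + 2 * l + m + 1) := by clear * - b11 ev n1p n2p n3p; omega
      have kk2520 : (j + k + 2 * l + m + 4) ≤ (n + i2 + k3) := by clear * - y17 y7 z201; omega
      have kk2521 : (Q + i + k + 2 * l + m + 3) ≤ (n + i2 + k3) := by clear * - v72; omega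
      have kk2522 : (i2) ≤ (j) := by clear * - b10 b5 b8 y16; omega
      have kk2523 : (i2 + k3) ≤ (j + k + l + 1) := by clear * - b10 b11 b3 b5 b7 b8 v72 y16; omega
      have r2524 : (2 * i + j + k + 2 * l + m - n - i2 - k3 + 3) % 2 = 0 := by clear * - ev n1p n2p n3p; omega
      clear * - al s2 c1 D2 kk2519 kk2520 kk2521 kk2522 kk2523 r2524
      obtain ⟨t, ht⟩ : ∃ t, 2 * t = (2 * i + j + k + 2 * l + m - n - i2 - k3 + 3) := ⟨(2 * i + j + k + 2 * l + m - n - i2 - k3 + 3) / 2, by omega⟩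
      exact al.ninv t (cE (cE (cE (ab s2 al 0 t ((i + j) - t) (by omega)) (qf c1 al 0 ((i + j) - t) ((i + j + k + l - i2 + 1) - t) (by omega))) (pb D2 al 0 ((i + j + k + l - i2 + 1) - t) ((2 * i + j + k + 2 * l + m - i2 - k3 + 3) - t) (by omega))) (sh al (-1) ((2 * i + j + k + 2 * l + m - i2 - k3 + 3) - t) t (by omega)))
    · have kk2525 : (2 * i + j + k + 2 * l + m + 5) ≤ (n + i2 + k3) := by clear * - z201; omega
      have kk2526 : (j + k + 2 * l + m + 4) ≤ (n + i2 + k3) := by clear * - y17 y7 z201; omega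
      have kk2527 : (n + i2 + k3) ≤ (Q + i + k + 2 * l + m + 3) := by clear * - v72; omega
      have kk2528 : (i2) ≤ (j) := by clear * - b10 b5 b8 y16; omega
      have kk2529 : (i2 + k3) ≤ (j + k + l + 1) := by clear * - b10 b2 b3 b5 b7 b8 v72 z201; omega
      have r2530 : (2 * i + j + k + 2 * l + m - n - i2 - k3 + 3) % 2 = 0 := by clear * - ev n1p n2p n3p; omega
      clear * - al s2 c1 D2 kk2525 kk2526 kk2527 kk2528 kk2529 r2530
      obtain ⟨t, ht⟩ : ∃ t, 2 * t = (2 * i + j + k + 2 * l + m - n - i2 - k3 + 3) := ⟨(2 * i + j + k + 2 * l + m - n - i2 - k3 + 3) / 2, by omega⟩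
      exact al.ninv t (cE (cE (cE (ab s2 al 0 t ((i + j) - t) (by omega)) (qf c1 al 0 ((i + j) - t) ((i + j + k + l - i2 + 1) - t) (by omega))) (pb D2 al 0 ((i + j + k + l - i2 + 1) - t) ((2 * i + j + k + 2 * l + m - i2 - k3 + 3) - t) (by omega))) (sh al (-1) ((2 * i + j + k + 2 * l + m - i2 - k3 + 3) - t) t (by omega)))
  · exact h8_88 al hy a1 a2 s1 s2 b c1 c2 tt D1 D2 mx hL bd0 n1 n2 n3 (by clear * - b0; omega) (by clear * - b2; omega) (by clear * - b3; omega) (by clear * - b4; omega) (by clear * - b5; omega) (by clear * - b7; omega) (by clear * - b8; omega) (by clear * - b9; omega) (by clear * - b10; omega) (by clear * - z201; omega)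

theorem h8_97p
    (h8_98 : ∀ {W : ℤ → G} {n Q i j k l i2 m k3 : ℤ} (al : AL W n Q) (hy : (0) ≤ (i) ∧ (i) ≤ (j) ∧ (j + 1) ≤ (Q) ∧ (Q) ≤ (k) ∧ (k + 1) ≤ (n) ∧ (Q) ≤ (i + l + 1) ∧ (k + l + 2) ≤ (n) ∧ (0) ≤ (i2) ∧ (i2 + 1) ≤ (Q) ∧ (Q + m + 1) ≤ (n + i2) ∧ (i2) ≤ (m) ∧ (Q) ≤ (i + l + m + 2) ∧ (i + l + m + 3) ≤ (n) ∧ (Q) ≤ (k3) ∧ (k3 + 1) ≤ (n) ∧ (i + m + 2) ≤ (k) ∧ (i) ≤ (i2) ∧ (i2) ≤ (i) ∧ (i + m + 2) ≤ (k3) ∧ (k3) ≤ (i + l + m + 1) ∧ (m + k3 + 2) ≤ (n + i2)) (a1 : Par W (0) (j) (k - j)) (a2 : Par W (Q + j - k) (j) (k - j)) (s1 : Ant W (0) (i) (i + j)) (s2 : Ant W (j + 1) (Q) (i + j)) (b : Par W (i + 1) (i + l + 1) (k - i)) (c1 : Par W (i2 + 1) (Q) (k + l - i2 + 1)) (c2 : Par W (k + l + 2) (n) (i2 - k - l - 1)) (tt : Ant W (i2 - m) (i2) (i + l + i2 + 1)) (D1 : Par W (Q) (k3) (n + i2 - m - k3 - 1)) (D2 : Par W (i + l + m + 3) (n) (k3 - i - l - m - 2)) {L : ℤ} (mx : ∀ a b g, 0 < g → g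 < n → Par W a b g → b - a ≤ L) (hL : L ≤ (n - j - 3) ∧ L ≤ (n + Q - k - 3) ∧ L ≤ (n - l - 3) ∧ L ≤ (n + i - k - 2)) (bd0 : Bd W n L (j) (i) (k)) (n1 : Nd W (j) (i) (k)) (n2 : Nd W (i + l + 1) (i2) (k + l + 1)) (n3 : Nd W (n + i2 - m - 1) (i + l + m + 2) (k3)) (b0 : (2 * l + 3) ≤ (n)) (b1 : (2 * i + 2 * l + 3 * m + 5) ≤ (n + i2 + k3)) (b2 : (2 * i + j + 1) ≤ (k)) (b3 : (m + k3) ≤ (i + l + 2 * i2 + 1)) (b4 : (1) ≤ (m)) (b5 : (i + l + i2 + m + 3) ≤ (Q + k3)) (b6 : (n + i2) ≤ (i + k + 2 * l + m + 2)) (b7 : (i + k) ≤ (2 * j + 1)) (b8 : (2 * k + l + 2) ≤ (n + i2)), False)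
    {W : ℤ → G} {n Q i j k l i2 m k3 : ℤ} (al : AL W n Q)
    (hy : (0) ≤ (i) ∧ (i) ≤ (j) ∧ (j + 1) ≤ (Q) ∧ (Q) ≤ (k) ∧ (k + 1) ≤ (n) ∧ (Q) ≤ (i + l + 1) ∧ (k + l + 2) ≤ (n) ∧ (0) ≤ (i2) ∧ (i2 + 1) ≤ (Q) ∧ (Q + m + 1) ≤ (n + i2) ∧ (i2) ≤ (m) ∧ (Q) ≤ (i + l + m + 2) ∧ (i + l + m + 3) ≤ (n) ∧ (Q) ≤ (k3) ∧ (k3 + 1) ≤ (n) ∧ (i + m + 2) ≤ (k) ∧ (i) ≤ (i2) ∧ (i2) ≤ (i) ∧ (i + m + 2) ≤ (k3) ∧ (k3) ≤ (i + l + m + 1) ∧ (m + k3 + 2) ≤ (n + i2))
    (a1 : Par W (0) (j) (k - j))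
    (a2 : Par W (Q + j - k) (j) (k - j))
    (s1 : Ant W (0) (i) (i + j))
    (s2 : Ant W (j + 1) (Q) (i + j))
    (b : Par W (i + 1) (i + l + 1) (k - i))
    (c1 : Par W (i2 + 1) (Q) (k + l - i2 + 1))
    (c2 : Par W (k + l + 2) (n) (i2 - k - l - 1))
    (tt : Ant W (i2 - m) (i2) (i + l + i2 + 1))
    (D1 : Par W (Q) (k3) (n + i2 - m - k3 - 1))
    (D2 : Par W (i + l + m + 3) (n) (k3 - i - l - m - 2))
    {L : ℤ} (mx : ∀ a b g, 0 < g → g < n → Par W a b g → b - a ≤ L)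
    (hL : L ≤ (n - j - 3) ∧ L ≤ (n + Q - k - 3) ∧ L ≤ (n - l - 3) ∧ L ≤ (n + i - k - 2))
    (bd0 : Bd W n L (j) (i) (k))
    (n1 : Nd W (j) (i) (k))
    (n2 : Nd W (i + l + 1) (i2) (k + l + 1))
    (n3 : Nd W (n + i2 - m - 1) (i + l + m + 2) (k3))
    (b0 : (2 * l + 3) ≤ (n))
    (b1 : (2 * i + 2 * l + 3 * m + 5) ≤ (n + i2 + k3))
    (b2 : (2 * i + j + 1) ≤ (k))
    (b3 : (2 * Q + k + l) ≤ (n + 2 * j + i2))
    (b4 : (m + k3) ≤ (i + l + 2 * i2 + 1))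
    (b5 : (1) ≤ (m))
    (b6 : (i + l + i2 + m + 3) ≤ (Q + k3))
    (b7 : (n + i2) ≤ (i + k + 2 * l + m + 2))
    (b8 : (i + k) ≤ (2 * j + 1))
    (b9 : (2 * k + l + 2) ≤ (n + j + i2)) : False := by
  have ev := al.ev
  obtain ⟨y0, y1, y2, y3, y4, y5, y6, y7, y8, y9, y10, y11, y12, y13, y14, y15, y16, y17, y18, y19, y20⟩ := id hy
  have n1p := And.intro n1.p1 n1.p2
  have n2p := And.intro n2.p1 n2.p2
  have n3p := And.intro n3.p1 n3.p2
  by_cases z233 : (n + i2) ≤ (2 * k + l + 1)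
  · have kk3066 : (2 * k + l + 2) ≤ (n + j + i2) := by clear * - b9; omega
    have kk3067 : (j + i2) ≤ (2 * k + l) := by clear * - b1 b2 b4 b5 b7 b9 y17 z233; omega
    have kk3068 : (j + i2 + 1) ≤ (k) := by clear * - b2 y17 y7; omega
    have kk3069 : (n + i2) ≤ (2 * k + l + 1) := by clear * - z233; omega
    clear * - al a1 c2 kk3066 kk3067 kk3068 kk3069
    exact al.ubP (n + j + i2 - 2 * k - l - 1) (by omega) (by omega) fun t h1 h2 => (cE (qf c2 al (-1) t (t + (n + i2 - k - l - 1)) (by omega)) (pb a1 al 0 (t + (n + i2 - k - l - 1)) (t + (n + j + i2 - 2 * k - l - 1)) (by omega)))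
  · exact h8_98 al hy a1 a2 s1 s2 b c1 c2 tt D1 D2 mx hL bd0 n1 n2 n3 (by clear * - b0; omega) (by clear * - b1; omega) (by clear * - b2; omega) (by clear * - b4; omega) (by clear * - b5; omega) (by clear * - b6; omega) (by clear * - b7; omega) (by clear * - b8; omega) (by clear * - z233; omega)

theorem h8_22p
    (h8_23 : ∀ {W : ℤ → G} {n Q i j k l i2 m k3 : ℤ} (al : AL W n Q) (hy : (0) ≤ (i) ∧ (i) ≤ (j) ∧ (j + 1) ≤ (Q) ∧ (Q) ≤ (k) ∧ (k + 1) ≤ (n) ∧ (Q) ≤ (i + l + 1) ∧ (k + l + 2) ≤ (n) ∧ (0) ≤ (i2) ∧ (i2 + 1) ≤ (Q) ∧ (Q + m + 1) ≤ (n + i2) ∧ (i2) ≤ (m) ∧ (Q) ≤ (i + l + m + 2) ∧ (i + l + m + 3) ≤ (n) ∧ (Q) ≤ (k3) ∧ (k3 + 1) ≤ (n) ∧ (i + m + 2) ≤ (k) ∧ (i) ≤ (i2) ∧ (i2) ≤ (i) ∧ (i + m + 2) ≤ (k3) ∧ (k3) ≤ (i + l + m + 1) ∧ (m + k3 + 2) ≤ (n + i2)) (a1 : Par W (0) (j) (k - j)) (a2 : Par W (Q + j - k) (j) (k - j)) (s1 : Ant W (0) (i) (i + j)) (s2 : Ant W (j + 1) (Q) (i + j)) (b : Par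 W (i + 1) (i + l + 1) (k - i)) (c1 : Par W (i2 + 1) (Q) (k + l - i2 + 1)) (c2 : Par W (k + l + 2) (n) (i2 - k - l - 1)) (tt : Ant W (i2 - m) (i2) (i + l + i2 + 1)) (D1 : Par W (Q) (k3) (n + i2 - m - k3 - 1)) (D2 : Par W (i + l + m + 3) (n) (k3 - i - l - m - 2)) {L : ℤ} (mx : ∀ a b g, 0 < g → g < n → Par W a b g → b - a ≤ L) (hL : L ≤ (n - j - 3) ∧ L ≤ (n + Q - k - 3) ∧ L ≤ (n - l - 3) ∧ L ≤ (n + i - k - 2)) (bd0 : Bd W n L (j) (i) (k)) (n1 : Nd W (j) (i) (k)) (n2 : Nd W (i + l + 1) (i2) (k + l + 1)) (n3 : Nd W (n + i2 - m - 1) (i + l + m + 2) (k3)) (b0 : (2 * l + 3) ≤ (n)) (b1 : (2 * i + 2 * l + 3 * m + 5) ≤ (n + i2 + k3)) (b2 : (k + i2 + 1) ≤ (Q + j + m)) (b3 : (2 * i + j + 1) ≤ (k)) (b4 : (2 * Q + k + l) ≤ (n + 2 * j + i2)) (b5 : (m + k3) ≤ (i + l + 2 * i2 + 1)) (b6 : (1) ≤ (m)) (b7 : (Q + k3) ≤ (i + l + i2 + m + 2)), False)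
    (h8_77 : ∀ {W : ℤ → G} {n Q i j k l i2 m k3 : ℤ} (al : AL W n Q) (hy : (0) ≤ (i) ∧ (i) ≤ (j) ∧ (j + 1) ≤ (Q) ∧ (Q) ≤ (k) ∧ (k + 1) ≤ (n) ∧ (Q) ≤ (i + l + 1) ∧ (k + l + 2) ≤ (n) ∧ (0) ≤ (i2) ∧ (i2 + 1) ≤ (Q) ∧ (Q + m + 1) ≤ (n + i2) ∧ (i2) ≤ (m) ∧ (Q) ≤ (i + l + m + 2) ∧ (i + l + m + 3) ≤ (n) ∧ (Q) ≤ (k3) ∧ (k3 + 1) ≤ (n) ∧ (i + m + 2) ≤ (k) ∧ (i) ≤ (i2) ∧ (i2) ≤ (i) ∧ (i + m + 2) ≤ (k3) ∧ (k3) ≤ (i + l + m + 1) ∧ (m + k3 + 2) ≤ (n + i2)) (a1 : Par W (0) (j) (k - j)) (a2 : Par W (Q + j - k) (j) (k - j)) (s1 : Ant W (0) (i) (i + j)) (s2 : Ant W (j + 1) (Q) (i + j)) (b : Par W (i + 1) (i + l + 1) (k - i)) (c1 : Par W (i2 + 1) (Q) (k + l - i2 + 1)) (c2 : Par W (k + l + 2) (n) (i2 - k - l - 1)) (tt : Ant W (i2 - m) (i2) (i + l + i2 + 1)) (D1 : Par W (Q) (k3) (n + i2 - m - k3 - 1)) (D2 : Par W (i + l + m + 3) (n) (k3 - i - l - m - 2)) {L : ℤ} (mx : ∀ a b g, 0 < g → g < n → Par W a b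 g → b - a ≤ L) (hL : L ≤ (n - j - 3) ∧ L ≤ (n + Q - k - 3) ∧ L ≤ (n - l - 3) ∧ L ≤ (n + i - k - 2)) (bd0 : Bd W n L (j) (i) (k)) (n1 : Nd W (j) (i) (k)) (n2 : Nd W (i + l + 1) (i2) (k + l + 1)) (n3 : Nd W (n + i2 - m - 1) (i + l + m + 2) (k3)) (b0 : (2 * l + 3) ≤ (n)) (b1 : (2 * i + 2 * l + 3 * m + 5) ≤ (n + i2 + k3)) (b2 : (k + i2 + 1) ≤ (Q + j + m)) (b3 : (2 * i + j + 1) ≤ (k)) (b4 : (2 * Q + k + l) ≤ (n + 2 * j + i2)) (b5 : (m + k3) ≤ (i + l + 2 * i2 + 1)) (b6 : (1) ≤ (m)) (b7 : (i + l + i2 + m + 3) ≤ (Q + k3)), False)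
    {W : ℤ → G} {n Q i j k l i2 m k3 : ℤ} (al : AL W n Q)
    (hy : (0) ≤ (i) ∧ (i) ≤ (j) ∧ (j + 1) ≤ (Q) ∧ (Q) ≤ (k) ∧ (k + 1) ≤ (n) ∧ (Q) ≤ (i + l + 1) ∧ (k + l + 2) ≤ (n) ∧ (0) ≤ (i2) ∧ (i2 + 1) ≤ (Q) ∧ (Q + m + 1) ≤ (n + i2) ∧ (i2) ≤ (m) ∧ (Q) ≤ (i + l + m + 2) ∧ (i + l + m + 3) ≤ (n) ∧ (Q) ≤ (k3) ∧ (k3 + 1) ≤ (n) ∧ (i + m + 2) ≤ (k) ∧ (i) ≤ (i2) ∧ (i2) ≤ (i) ∧ (i + m + 2) ≤ (k3) ∧ (k3) ≤ (i + l + m + 1) ∧ (m + k3 + 2) ≤ (n + i2))
    (a1 : Par W (0) (j) (k - j))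
    (a2 : Par W (Q + j - k) (j) (k - j))
    (s1 : Ant W (0) (i) (i + j))
    (s2 : Ant W (j + 1) (Q) (i + j))
    (b : Par W (i + 1) (i + l + 1) (k - i))
    (c1 : Par W (i2 + 1) (Q) (k + l - i2 + 1))
    (c2 : Par W (k + l + 2) (n) (i2 - k - l - 1))
    (tt : Ant W (i2 - m) (i2) (i + l + i2 + 1))
    (D1 : Par W (Q) (k3) (n + i2 - m - k3 - 1))
    (D2 : Par W (i + l + m + 3) (n) (k3 - i - l - m - 2))
    {L : ℤ} (mx : ∀ a b g, 0 < g → g < n → Par W a b g → b - a ≤ L)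
    (hL : L ≤ (n - j - 3) ∧ L ≤ (n + Q - k - 3) ∧ L ≤ (n - l - 3) ∧ L ≤ (n + i - k - 2))
    (bd0 : Bd W n L (j) (i) (k))
    (n1 : Nd W (j) (i) (k))
    (n2 : Nd W (i + l + 1) (i2) (k + l + 1))
    (n3 : Nd W (n + i2 - m - 1) (i + l + m + 2) (k3))
    (b0 : (2 * l + 3) ≤ (n))
    (b1 : (2 * i + 2 * l + 3 * m + 5) ≤ (n + i2 + k3))
    (b2 : (k + i2 + 1) ≤ (Q + j + m))
    (b3 : (2 * i + j + 1) ≤ (k))
    (b4 : (2 * Q + k + l) ≤ (n + 2 * j + i2))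
    (b5 : (m + k3) ≤ (i + l + 2 * i2 + 1))
    (b6 : (1) ≤ (m)) : False := by
  have ev := al.ev
  obtain ⟨y0, y1, y2, y3, y4, y5, y6, y7, y8, y9, y10, y11, y12, y13, y14, y15, y16, y17, y18, y19, y20⟩ := id hy
  have n1p := And.intro n1.p1 n1.p2
  have n2p := And.intro n2.p1 n2.p2
  have n3p := And.intro n3.p1 n3.p2
  by_cases z52 : (Q + k3) ≤ (i + l + i2 + m + 2)
  · exact h8_23 al hy a1 a2 s1 s2 b c1 c2 tt D1 D2 mx hL bd0 n1 n2 n3 (by clear * - b0; omega) (by clear * - b1; omega) (by clear * - b2; omega) (by clear * - b3; omega) (by clear * - b4; omega) (by clear * - b5; omega) (by clear * - b6; omega) (by clear * - z52; omega)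
  · exact h8_77 al hy a1 a2 s1 s2 b c1 c2 tt D1 D2 mx hL bd0 n1 n2 n3 (by clear * - b0; omega) (by clear * - b1; omega) (by clear * - b2; omega) (by clear * - b3; omega) (by clear * - b4; omega) (by clear * - b5; omega) (by clear * - b6; omega) (by clear * - z52; omega)

theorem h8_18p
    (h8_19 : ∀ {W : ℤ → G} {n Q i j k l i2 m k3 : ℤ} (al : AL W n Q) (hy : (0) ≤ (i) ∧ (i) ≤ (j) ∧ (j + 1) ≤ (Q) ∧ (Q) ≤ (k) ∧ (k + 1) ≤ (n) ∧ (Q) ≤ (i + l + 1) ∧ (k + l + 2) ≤ (n) ∧ (0) ≤ (i2) ∧ (i2 + 1) ≤ (Q) ∧ (Q + m + 1) ≤ (n + i2) ∧ (i2) ≤ (m) ∧ (Q) ≤ (i + l + m + 2) ∧ (i + l + m + 3) ≤ (n) ∧ (Q) ≤ (k3) ∧ (k3 + 1) ≤ (n) ∧ (i + m + 2) ≤ (k) ∧ (i) ≤ (i2) ∧ (i2) ≤ (i) ∧ (i + m + 2) ≤ (k3) ∧ (k3) ≤ (i + l + m + 1) ∧ (m + k3 + 2) ≤ (n + i2)) (a1 : Par W (0) (j) (k - j)) (a2 : Par W (Q + j - k) (j) (k - j)) (s1 : Ant W (0) (i) (i + j)) (s2 : Ant W (j + 1) (Q) (i + j)) (b : Par W (i + 1) (i + l + 1) (k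 - i)) (c1 : Par W (i2 + 1) (Q) (k + l - i2 + 1)) (c2 : Par W (k + l + 2) (n) (i2 - k - l - 1)) (tt : Ant W (i2 - m) (i2) (i + l + i2 + 1)) (D1 : Par W (Q) (k3) (n + i2 - m - k3 - 1)) (D2 : Par W (i + l + m + 3) (n) (k3 - i - l - m - 2)) {L : ℤ} (mx : ∀ a b g, 0 < g → g < n → Par W a b g → b - a ≤ L) (hL : L ≤ (n - j - 3) ∧ L ≤ (n + Q - k - 3) ∧ L ≤ (n - l - 3) ∧ L ≤ (n + i - k - 2)) (bd0 : Bd W n L (j) (i) (k)) (n1 : Nd W (j) (i) (k)) (n2 : Nd W (i + l + 1) (i2) (k + l + 1)) (n3 : Nd W (n + i2 - m - 1) (i + l + m + 2) (k3)) (b0 : (2 * l + 3) ≤ (n)) (b1 : (2 * i + 2 * l + 3 * m + 5) ≤ (n + i2 + k3)) (b2 : (k + i2 + 1) ≤ (Q + j + m)) (b3 : (2 * i + j + 1) ≤ (k)), False)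
    {W : ℤ → G} {n Q i j k l i2 m k3 : ℤ} (al : AL W n Q)
    (hy : (0) ≤ (i) ∧ (i) ≤ (j) ∧ (j + 1) ≤ (Q) ∧ (Q) ≤ (k) ∧ (k + 1) ≤ (n) ∧ (Q) ≤ (i + l + 1) ∧ (k + l + 2) ≤ (n) ∧ (0) ≤ (i2) ∧ (i2 + 1) ≤ (Q) ∧ (Q + m + 1) ≤ (n + i2) ∧ (i2) ≤ (m) ∧ (Q) ≤ (i + l + m + 2) ∧ (i + l + m + 3) ≤ (n) ∧ (Q) ≤ (k3) ∧ (k3 + 1) ≤ (n) ∧ (i + m + 2) ≤ (k) ∧ (i) ≤ (i2) ∧ (i2) ≤ (i) ∧ (i + m + 2) ≤ (k3) ∧ (k3) ≤ (i + l + m + 1) ∧ (m + k3 + 2) ≤ (n + i2))
    (a1 : Par W (0) (j) (k - j))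
    (a2 : Par W (Q + j - k) (j) (k - j))
    (s1 : Ant W (0) (i) (i + j))
    (s2 : Ant W (j + 1) (Q) (i + j))
    (b : Par W (i + 1) (i + l + 1) (k - i))
    (c1 : Par W (i2 + 1) (Q) (k + l - i2 + 1))
    (c2 : Par W (k + l + 2) (n) (i2 - k - l - 1))
    (tt : Ant W (i2 - m) (i2) (i + l + i2 + 1))
    (D1 : Par W (Q) (k3) (n + i2 - m - k3 - 1))
    (D2 : Par W (i + l + m + 3) (n) (k3 - i - l - m - 2))
    {L : ℤ} (mx : ∀ a b g, 0 < g → g < n → Par W a b g → b - a ≤ L)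
    (hL : L ≤ (n - j - 3) ∧ L ≤ (n + Q - k - 3) ∧ L ≤ (n - l - 3) ∧ L ≤ (n + i - k - 2))
    (bd0 : Bd W n L (j) (i) (k))
    (n1 : Nd W (j) (i) (k))
    (n2 : Nd W (i + l + 1) (i2) (k + l + 1))
    (n3 : Nd W (n + i2 - m - 1) (i + l + m + 2) (k3))
    (b0 : (2 * l + 3) ≤ (n))
    (b1 : (2 * i + 2 * l + 3 * m + 5) ≤ (n + i2 + k3))
    (b2 : (k + i2 + 1) ≤ (Q + j + m)) : False := by
  have ev := al.ev
  obtain ⟨y0, y1, y2, y3, y4, y5, y6, y7, y8, y9, y10, y11, y12, y13, y14, y15, y16, y17, y18, y19, y20⟩ := id hy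
  have n1p := And.intro n1.p1 n1.p2
  have n2p := And.intro n2.p1 n2.p2
  have n3p := And.intro n3.p1 n3.p2
  by_cases z48 : (k) ≤ (2 * i + j)
  · by_cases v22 : (i + j + 1) ≤ (k)
    · have kk655 : (j + 1) ≤ (k) := by clear * - v22 z48; omega
      have kk656 : (k) ≤ (2 * i + j) := by clear * - z48; omega
      have kk657 : (k) ≤ (2 * i + 3 * j + 2) := by clear * - y10 y15 y16 z48; omega
      have kk658 : (0) ≤ (j + k) := by clear * - v22 y10 y15 y16 z48; omega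
      have kk659 : (i + j + 1) ≤ (k) := by clear * - v22; omega
      have r660 : (i + j - 2 * n) % 2 = 0 := by clear * - ev n1p n2p n3p; omega
      have r661 : (k - j) % 2 = 0 := by clear * - ev n1p n2p n3p; omega
      clear * - al a1 s1 kk655 kk656 kk657 kk658 kk659 r660 r661
      exact midP al (k - j) (i + j - 2 * n) (-n) (-n) (k - n) (by omega) (fun t h1 h2 => (cE (qa s1 al (-1) t ((i + j - n) - t) (by omega)) (sh al (-1) ((i + j - n) - t) ((i + j - 2 * n) - t) (by omega)))) (fun t h1 h2 => (cE (qf a1 al (-1) t (t + (n + k - j)) (by omega)) (sh al (-1) (t + (n + k - j)) (t + (k - j)) (by omega))))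
    · have kk662 : (j + 1) ≤ (k) := by clear * - y2 y3; omega
      have kk663 : (j + 2) ≤ (k) := by clear * - y2 y3 ev n1p n2p n3p; omega
      have kk664 : (0) ≤ (j + k) := by clear * - y10 y15 y7 z48; omega
      have kk665 : (2 * i + j + 2) ≤ (3 * k) := by clear * - b2 y15 y16 y2 y3; omega
      have kk666 : (k) ≤ (i + j + 1) := by clear * - v22; omega
      have r667 : (i + j - 2 * n) % 2 = 0 := by clear * - ev n1p n2p n3p; omega
      have r668 : (k - j) % 2 = 0 := by clear * - ev n1p n2p n3p; omega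
      clear * - al a1 s1 kk662 kk663 kk664 kk665 kk666 r667 r668
      exact midP al (k - j) (i + j - 2 * n) (i + j - n - k + 1) (-n) (k - n) (by omega) (fun t h1 h2 => (cE (qa s1 al (-1) t ((i + j - n) - t) (by omega)) (sh al (-1) ((i + j - n) - t) ((i + j - 2 * n) - t) (by omega)))) (fun t h1 h2 => (cE (qf a1 al (-1) t (t + (n + k - j)) (by omega)) (sh al (-1) (t + (n + k - j)) (t + (k - j)) (by omega))))
  · exact h8_19 al hy a1 a2 s1 s2 b c1 c2 tt D1 D2 mx hL bd0 n1 n2 n3 (by clear * - b0; omega) (by clear * - b1; omega) (by clear * - b2; omega) (by clear * - z48; omega)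

theorem h9_31p
    (h9_32 : ∀ {W : ℤ → G} {n Q i j k l i2 m k3 : ℤ} (al : AL W n Q) (hy : (0) ≤ (i) ∧ (i) ≤ (j) ∧ (j + 1) ≤ (Q) ∧ (Q) ≤ (k) ∧ (k + 1) ≤ (n) ∧ (Q) ≤ (i + l + 1) ∧ (k + l + 2) ≤ (n) ∧ (0) ≤ (i2) ∧ (i2 + 1) ≤ (Q) ∧ (Q + m + 1) ≤ (n + i2) ∧ (i2) ≤ (m) ∧ (Q) ≤ (i + l + m + 2) ∧ (i + l + m + 3) ≤ (n) ∧ (Q) ≤ (k3) ∧ (k3 + 1) ≤ (n) ∧ (i + m + 2) ≤ (k) ∧ (i) ≤ (i2) ∧ (i2) ≤ (i) ∧ (i + m + 1) ≤ (k3) ∧ (k3) ≤ (i + m + 1) ∧ (k3) ≤ (i + l + m + 1) ∧ (m + k3 + 2) ≤ (n + i2)) (a1 : Par W (0) (j) (k - j)) (a2 : Par W (Q + j - k) (j) (k - j)) (s1 : Ant W (0) (i) (i + j)) (s2 : Ant W (j + 1) (Q) (i + j)) (b : Par W (i + 1) (i + l + 1) (k - i)) (c1 : Par W (i2 + 1) (Q) (k + l - i2 + 1)) (c2 : Par W (k + l + 2) (n) (i2 - k - l - 1)) (tt : Ant W (i2 - m) (i2) (i + l + i2 + 1)) (D1 : Par W (Q) (k3) (n + i2 - m - k3 - 1)) (D2 : Par W (i + l + m + 3) (n) (k3 - i - l - m - 2)) {L : ℤ} (mx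 : ∀ a b g, 0 < g → g < n → Par W a b g → b - a ≤ L) (hL : L ≤ (n - j - 3) ∧ L ≤ (n + Q - k - 3) ∧ L ≤ (n - l - 3) ∧ L ≤ (n + i - k - 2)) (bd0 : Bd W n L (j) (i) (k)) (n1 : Nd W (j) (i) (k)) (n2 : Nd W (i + l + 1) (i2) (k + l + 1)) (n3 : Nd W (n + i2 - m - 1) (i + l + m + 2) (k3)) (d1 : ℤ) (q1 : d1 % 2 = 0) (x1 : Par W (i + 1) (k + l - d1 + 1) d1) (b0 : (n + k3) ≤ (2 * i + 2 * l + i2 + m + 4)) (b1 : (3 * i + 2 * l + 3 * m + 5) ≤ (n + k + i2 + k3)) (b2 : (2 * i + l + m + 3) ≤ (k + k3 + d1)) (b3 : (j + i2 + d1) ≤ (l)) (b4 : (2 * k + i2 + d1) ≤ (i + 2 * j + l + 2)) (b5 : (i + k + l + m + d1 + 3) ≤ (n + k3)) (b6 : (j + 4 * k) ≤ (n + 3 * i + 2 * i2 + 1)), False)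
    {W : ℤ → G} {n Q i j k l i2 m k3 : ℤ} (al : AL W n Q)
    (hy : (0) ≤ (i) ∧ (i) ≤ (j) ∧ (j + 1) ≤ (Q) ∧ (Q) ≤ (k) ∧ (k + 1) ≤ (n) ∧ (Q) ≤ (i + l + 1) ∧ (k + l + 2) ≤ (n) ∧ (0) ≤ (i2) ∧ (i2 + 1) ≤ (Q) ∧ (Q + m + 1) ≤ (n + i2) ∧ (i2) ≤ (m) ∧ (Q) ≤ (i + l + m + 2) ∧ (i + l + m + 3) ≤ (n) ∧ (Q) ≤ (k3) ∧ (k3 + 1) ≤ (n) ∧ (i + m + 2) ≤ (k) ∧ (i) ≤ (i2) ∧ (i2) ≤ (i) ∧ (i + m + 1) ≤ (k3) ∧ (k3) ≤ (i + m + 1) ∧ (k3) ≤ (i + l + m + 1) ∧ (m + k3 + 2) ≤ (n + i2))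
    (a1 : Par W (0) (j) (k - j))
    (a2 : Par W (Q + j - k) (j) (k - j))
    (s1 : Ant W (0) (i) (i + j))
    (s2 : Ant W (j + 1) (Q) (i + j))
    (b : Par W (i + 1) (i + l + 1) (k - i))
    (c1 : Par W (i2 + 1) (Q) (k + l - i2 + 1))
    (c2 : Par W (k + l + 2) (n) (i2 - k - l - 1))
    (tt : Ant W (i2 - m) (i2) (i + l + i2 + 1))
    (D1 : Par W (Q) (k3) (n + i2 - m - k3 - 1))
    (D2 : Par W (i + l + m + 3) (n) (k3 - i - l - m - 2))
    {L : ℤ} (mx : ∀ a b g, 0 < g → g < n → Par W a b g → b - a ≤ L)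
    (hL : L ≤ (n - j - 3) ∧ L ≤ (n + Q - k - 3) ∧ L ≤ (n - l - 3) ∧ L ≤ (n + i - k - 2))
    (bd0 : Bd W n L (j) (i) (k))
    (n1 : Nd W (j) (i) (k))
    (n2 : Nd W (i + l + 1) (i2) (k + l + 1))
    (n3 : Nd W (n + i2 - m - 1) (i + l + m + 2) (k3))
    (d1 : ℤ) (q1 : d1 % 2 = 0) (x1 : Par W (i + 1) (k + l - d1 + 1) d1)
    (b0 : (n + k3) ≤ (2 * i + 2 * l + i2 + m + 4))
    (b1 : (2 * k + l + 2) ≤ (n + i2))
    (b2 : (3 * i + 2 * l + 3 * m + 5) ≤ (n + k + i2 + k3))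
    (b3 : (2 * i + l + m + 3) ≤ (k + k3 + d1))
    (b4 : (j + i2 + d1) ≤ (l))
    (b5 : (2 * k + i2 + d1) ≤ (i + 2 * j + l + 2))
    (b6 : (i + k + l + m + d1 + 3) ≤ (n + k3)) : False := by
  have ev := al.ev
  obtain ⟨y0, y1, y2, y3, y4, y5, y6, y7, y8, y9, y10, y11, y12, y13, y14, y15, y16, y17, y18, y19, y20, y21⟩ := id hy
  have n1p := And.intro n1.p1 n1.p2
  have n2p := And.intro n2.p1 n2.p2
  have n3p := And.intro n3.p1 n3.p2
  by_cases z42 : (n + 3 * i + 2 * i2 + 2) ≤ (j + 4 * k)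
  · have kk467 : (n + 3 * i + 2 * i2 + 2) ≤ (j + 4 * k) := by clear * - z42; omega
    have kk468 : (n + j + 2 * i2) ≤ (3 * i + 2 * l + 2 * m + 3) := by clear * - b0 b3 b4 b5 y13 y17 y19 y2; omega
    have kk469 : (4 * k) ≤ (n + 2 * i + 2 * i2) := by clear * - b0 b1 y17 y18; omega
    have kk470 : (3 * k) ≤ (n + i + 2 * i2) := by clear * - b0 b1 b3 b4 b6 y17 y20 z42; omega
    have kk471 : (2 * k + l + 1) ≤ (n + 2 * i2) := by clear * - b0 b1 b3 b6 y19; omega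
    have kk472 : (2 * k + l + 1) ≤ (n + i2) := by clear * - b1; omega
    have kk473 : (j + i2 + 1) ≤ (k) := by clear * - b0 b3 b4 b6 y17 y19; omega
    have kk474 : (2 * k + l + m + 1) ≤ (n + j + 2 * i2) := by clear * - b0 b1 b2 b3 b5 b6 y17 y19; omega
    have kk475 : (i) ≤ (k) := by clear * - b0 b3 b4 b6 y19 y20 z42; omega
    have kk476 : (i + m + 1) ≤ (k) := by clear * - b0 b1 b2 b3 b4 y17 z42; omega
    have r477 : (3 * i + j + 2 * i2 - n - 4 * k) % 2 = 0 := by clear * - ev n1p n2p n3p q1; omega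
    clear * - al a1 b c2 tt kk467 kk468 kk469 kk470 kk471 kk472 kk473 kk474 kk475 kk476 r477
    obtain ⟨t, ht⟩ : ∃ t, 2 * t = (3 * i + j + 2 * i2 - n - 4 * k) := ⟨(3 * i + j + 2 * i2 - n - 4 * k) / 2, by omega⟩
    exact al.ninv t (cE (cE (cE (cI (cE (qf b al (-1) t (t + (n + k - i)) (by omega)) (qf b al 0 (t + (n + k - i)) (t + (n + 2 * k - 2 * i)) (by omega))) (ab tt al 0 (t + (n + 2 * k - 2 * i)) ((3 * i + l + i2 - n - 2 * k + 1) - t) (by omega))) (qf c2 al (-1) ((3 * i + l + i2 - n - 2 * k + 1) - t) ((3 * i + 2 * i2 - 3 * k) - t) (by omega))) (pb a1 al 0 ((3 * i + 2 * i2 - 3 * k) - t) ((3 * i + j + 2 * i2 - 4 * k) - t) (by omega))) (sh al (-1) ((3 * i + j + 2 * i2 - 4 * k) - t) t (by omega)))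
  · exact h9_32 al hy a1 a2 s1 s2 b c1 c2 tt D1 D2 mx hL bd0 n1 n2 n3 d1 q1 x1 (by clear * - b0; omega) (by clear * - b2; omega) (by clear * - b3; omega) (by clear * - b4; omega) (by clear * - b5; omega) (by clear * - b6; omega) (by clear * - z42; omega)

theorem h9_30p
    (h9_31 : ∀ {W : ℤ → G} {n Q i j k l i2 m k3 : ℤ} (al : AL W n Q) (hy : (0) ≤ (i) ∧ (i) ≤ (j) ∧ (j + 1) ≤ (Q) ∧ (Q) ≤ (k) ∧ (k + 1) ≤ (n) ∧ (Q) ≤ (i + l + 1) ∧ (k + l + 2) ≤ (n) ∧ (0) ≤ (i2) ∧ (i2 + 1) ≤ (Q) ∧ (Q + m + 1) ≤ (n + i2) ∧ (i2) ≤ (m) ∧ (Q) ≤ (i + l + m + 2) ∧ (i + l + m + 3) ≤ (n) ∧ (Q) ≤ (k3) ∧ (k3 + 1) ≤ (n) ∧ (i + m + 2) ≤ (k) ∧ (i) ≤ (i2) ∧ (i2) ≤ (i) ∧ (i + m + 1) ≤ (k3) ∧ (k3) ≤ (i + m + 1) ∧ (k3) ≤ (i + l + m + 1) ∧ (m + k3 + 2) ≤ (n + i2)) (a1 : Par W (0) (j) (k - j)) (a2 : Par W (Q + j - k) (j) (k - j)) (s1 : Ant W (0) (i) (i + j)) (s2 : Ant W (j + 1) (Q) (i + j)) (b : Par W (i + 1) (i + l +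 1) (k - i)) (c1 : Par W (i2 + 1) (Q) (k + l - i2 + 1)) (c2 : Par W (k + l + 2) (n) (i2 - k - l - 1)) (tt : Ant W (i2 - m) (i2) (i + l + i2 + 1)) (D1 : Par W (Q) (k3) (n + i2 - m - k3 - 1)) (D2 : Par W (i + l + m + 3) (n) (k3 - i - l - m - 2)) {L : ℤ} (mx : ∀ a b g, 0 < g → g < n → Par W a b g → b - a ≤ L) (hL : L ≤ (n - j - 3) ∧ L ≤ (n + Q - k - 3) ∧ L ≤ (n - l - 3) ∧ L ≤ (n + i - k - 2)) (bd0 : Bd W n L (j) (i) (k)) (n1 : Nd W (j) (i) (k)) (n2 : Nd W (i + l + 1) (i2) (k + l + 1)) (n3 : Nd W (n + i2 - m - 1) (i + l + m + 2) (k3)) (d1 : ℤ) (q1 : d1 % 2 = 0) (x1 : Par W (i + 1) (k + l - d1 + 1) d1) (b0 : (n + k3) ≤ (2 * i + 2 * l + i2 + m + 4)) (b1 : (2 * k + l + 2) ≤ (n + i2)) (b2 : (3 * i + 2 * l + 3 * m + 5) ≤ (n + k + i2 + k3)) (b3 : (2 * i + l + m + 3) ≤ (k + k3 + d1)) (b4 : (j + i2 + d1) ≤ (l)) (b5 : (2 * k + i2 + d1) ≤ (i + 2 * j + l + 2)) (b6 : (i + k + l + m + d1 + 3) ≤ (n +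 k3)), False)
    {W : ℤ → G} {n Q i j k l i2 m k3 : ℤ} (al : AL W n Q)
    (hy : (0) ≤ (i) ∧ (i) ≤ (j) ∧ (j + 1) ≤ (Q) ∧ (Q) ≤ (k) ∧ (k + 1) ≤ (n) ∧ (Q) ≤ (i + l + 1) ∧ (k + l + 2) ≤ (n) ∧ (0) ≤ (i2) ∧ (i2 + 1) ≤ (Q) ∧ (Q + m + 1) ≤ (n + i2) ∧ (i2) ≤ (m) ∧ (Q) ≤ (i + l + m + 2) ∧ (i + l + m + 3) ≤ (n) ∧ (Q) ≤ (k3) ∧ (k3 + 1) ≤ (n) ∧ (i + m + 2) ≤ (k) ∧ (i) ≤ (i2) ∧ (i2) ≤ (i) ∧ (i + m + 1) ≤ (k3) ∧ (k3) ≤ (i + m + 1) ∧ (k3) ≤ (i + l + m + 1) ∧ (m + k3 + 2) ≤ (n + i2))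
    (a1 : Par W (0) (j) (k - j))
    (a2 : Par W (Q + j - k) (j) (k - j))
    (s1 : Ant W (0) (i) (i + j))
    (s2 : Ant W (j + 1) (Q) (i + j))
    (b : Par W (i + 1) (i + l + 1) (k - i))
    (c1 : Par W (i2 + 1) (Q) (k + l - i2 + 1))
    (c2 : Par W (k + l + 2) (n) (i2 - k - l - 1))
    (tt : Ant W (i2 - m) (i2) (i + l + i2 + 1))
    (D1 : Par W (Q) (k3) (n + i2 - m - k3 - 1))
    (D2 : Par W (i + l + m + 3) (n) (k3 - i - l - m - 2))
    {L : ℤ} (mx : ∀ a b g, 0 < g → g < n → Par W a b g → b - a ≤ L)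
    (hL : L ≤ (n - j - 3) ∧ L ≤ (n + Q - k - 3) ∧ L ≤ (n - l - 3) ∧ L ≤ (n + i - k - 2))
    (bd0 : Bd W n L (j) (i) (k))
    (n1 : Nd W (j) (i) (k))
    (n2 : Nd W (i + l + 1) (i2) (k + l + 1))
    (n3 : Nd W (n + i2 - m - 1) (i + l + m + 2) (k3))
    (d1 : ℤ) (q1 : d1 % 2 = 0) (x1 : Par W (i + 1) (k + l - d1 + 1) d1)
    (b0 : (n + k3) ≤ (2 * i + 2 * l + i2 + m + 4))
    (b1 : (2 * k + l + 2) ≤ (n + i2))
    (b2 : (3 * i + 2 * l + 3 * m + 5) ≤ (n + k + i2 + k3))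
    (b3 : (2 * i + l + m + 3) ≤ (k + k3 + d1))
    (b4 : (j + i2 + d1) ≤ (l))
    (b5 : (2 * k + i2 + d1) ≤ (i + 2 * j + l + 2)) : False := by
  have ev := al.ev
  obtain ⟨y0, y1, y2, y3, y4, y5, y6, y7, y8, y9, y10, y11, y12, y13, y14, y15, y16, y17, y18, y19, y20, y21⟩ := id hy
  have n1p := And.intro n1.p1 n1.p2
  have n2p := And.intro n2.p1 n2.p2
  have n3p := And.intro n3.p1 n3.p2
  by_cases z41 : (n + k3) ≤ (i + k + l + m + d1 + 2)
  · have kk461 : (i + k + l + m + d1 + 3) ≤ (n + j + k3) := by clear * - b2 b3 b4 b5 y13 y16 y19 y2 z41; omega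
    have kk462 : (j + k3) ≤ (i + k + l + m + d1 + 1) := by clear * - b0 b1 b2 b3 b4 y10 y17 y19; omega
    have kk463 : (j + k3 + 1) ≤ (k + d1) := by clear * - b0 b1 b2 b3 b4 y17 y19 y21 z41; omega
    have kk464 : (i + j + 1) ≤ (k) := by clear * - b3 b4 y19 y7; omega
    have kk465 : (n + k3) ≤ (i + k + l + m + d1 + 2) := by clear * - z41; omega
    have kk466 : (n + k3) ≤ (i + k + 2 * l + m + 3) := by clear * - b0 b2 b4 b5 y10 y17 z41; omega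
    clear * - al a1 D2 x1 kk461 kk462 kk463 kk464 kk465 kk466
    exact al.ubP (n + j + k3 - i - k - l - m - d1 - 2) (by omega) (by omega) fun t h1 h2 => (cE (cE (qf D2 al (-1) t (t + (n + k3 - i - l - m - 2)) (by omega)) (pb x1 al 0 (t + (n + k3 - i - l - m - 2)) (t + (n + k3 - i - l - m - d1 - 2)) (by omega))) (pb a1 al 0 (t + (n + k3 - i - l - m - d1 - 2)) (t + (n + j + k3 - i - k - l - m - d1 - 2)) (by omega)))
  · exact h9_31 al hy a1 a2 s1 s2 b c1 c2 tt D1 D2 mx hL bd0 n1 n2 n3 d1 q1 x1 (by clear * - b0; omega) (by clear * - b1; omega) (by clear * - b2; omega) (by clear * - b3; omega) (by clear * - b4; omega) (by clear * - b5; omega) (by clear * - z41; omega)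

theorem h9_50p
    {W : ℤ → G} {n Q i j k l i2 m k3 : ℤ} (al : AL W n Q)
    (hy : (0) ≤ (i) ∧ (i) ≤ (j) ∧ (j + 1) ≤ (Q) ∧ (Q) ≤ (k) ∧ (k + 1) ≤ (n) ∧ (Q) ≤ (i + l + 1) ∧ (k + l + 2) ≤ (n) ∧ (0) ≤ (i2) ∧ (i2 + 1) ≤ (Q) ∧ (Q + m + 1) ≤ (n + i2) ∧ (i2) ≤ (m) ∧ (Q) ≤ (i + l + m + 2) ∧ (i + l + m + 3) ≤ (n) ∧ (Q) ≤ (k3) ∧ (k3 + 1) ≤ (n) ∧ (i + m + 2) ≤ (k) ∧ (i) ≤ (i2) ∧ (i2) ≤ (i) ∧ (i + m + 1) ≤ (k3) ∧ (k3) ≤ (i + m + 1) ∧ (k3) ≤ (i + l + m + 1) ∧ (m + k3 + 2) ≤ (n + i2))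
    (a1 : Par W (0) (j) (k - j))
    (a2 : Par W (Q + j - k) (j) (k - j))
    (s1 : Ant W (0) (i) (i + j))
    (s2 : Ant W (j + 1) (Q) (i + j))
    (b : Par W (i + 1) (i + l + 1) (k - i))
    (c1 : Par W (i2 + 1) (Q) (k + l - i2 + 1))
    (c2 : Par W (k + l + 2) (n) (i2 - k - l - 1))
    (tt : Ant W (i2 - m) (i2) (i + l + i2 + 1))
    (D1 : Par W (Q) (k3) (n + i2 - m - k3 - 1))
    (D2 : Par W (i + l + m + 3) (n) (k3 - i - l - m - 2))
    {L : ℤ} (mx : ∀ a b g, 0 < g → g < n → Par W a b g → b - a ≤ L)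
    (hL : L ≤ (n - j - 3) ∧ L ≤ (n + Q - k - 3) ∧ L ≤ (n - l - 3) ∧ L ≤ (n + i - k - 2))
    (bd0 : Bd W n L (j) (i) (k))
    (n1 : Nd W (j) (i) (k))
    (n2 : Nd W (i + l + 1) (i2) (k + l + 1))
    (n3 : Nd W (n + i2 - m - 1) (i + l + m + 2) (k3))
    (d1 : ℤ) (q1 : d1 % 2 = 0) (x1 : Par W (i + 1) (k + l - d1 + 1) d1)
    (b0 : (d1) ≤ (l))
    (b1 : (2 * l + 3) ≤ (n))
    (b2 : (2 * j + 2 * k3 + 1) ≤ (i + k + 2 * m))
    (b3 : (n + k3) ≤ (2 * i + 2 * l + i2 + m + 4))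
    (b4 : (2 * Q + k + l + 1) ≤ (n + i + j + i2))
    (b5 : (i + l + 2 * m + 3) ≤ (n + i2))
    (b6 : (i + l + m + 2) ≤ (2 * j + k3 + d1))
    (b7 : (i + k + l + i2 + 2) ≤ (2 * Q + j + d1)) : False := by
  have ev := al.ev
  obtain ⟨y0, y1, y2, y3, y4, y5, y6, y7, y8, y9, y10, y11, y12, y13, y14, y15, y16, y17, y18, y19, y20, y21⟩ := id hy
  have n1p := And.intro n1.p1 n1.p2
  have n2p := And.intro n2.p1 n2.p2
  have n3p := And.intro n3.p1 n3.p2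
  by_cases z103 : (n + k + i2 + k3) ≤ (3 * i + 2 * l + 3 * m + 3)
  · have kk1144 : (n + k + i2 + k3) ≤ (3 * i + 2 * l + 3 * m + 3) := by clear * - z103; omega
    have kk1145 : (3 * i + 2 * l + i2 + m + 4) ≤ (n + k + k3) := by clear * - b1 b2 y1 y17 y18; omega
    have kk1146 : (i + l + 2 * m + 3) ≤ (n + i2) := by clear * - b5; omega
    have kk1147 : (i + m + 1) ≤ (k) := by clear * - y15; omega
    have kk1148 : (k) ≤ (i + l + i2 + 1) := by clear * - b0 b1 b2 b3 b4 b5 b7 y18 z103; omega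
    have kk1149 : (0) ≤ (i2) := by clear * - b1 b3 y16 y18; omega
    have r1150 : (3 * n + i + i2 + k3 - k - m - 1) % 2 = 0 := by clear * - ev n1p n2p n3p q1; omega
    clear * - al b tt D2 kk1144 kk1145 kk1146 kk1147 kk1148 kk1149 r1150
    obtain ⟨t, ht⟩ : ∃ t, 2 * t = (3 * n + i + i2 + k3 - k - m - 1) := ⟨(3 * n + i + i2 + k3 - k - m - 1) / 2, by omega⟩
    exact al.ninv t (cE (cE (cI (pb D2 al 1 t (t + (i + l + m - n - k3 + 2)) (by omega)) (qa tt al 1 (t + (i + l + m - n - k3 + 2)) ((2 * n + i2 + k3 - m - 1) - t) (by omega))) (pb b al 0 ((2 * n + i2 + k3 - m - 1) - t) ((2 * n + i + i2 + k3 - k - m - 1) - t) (by omega))) (sh al 1 ((2 * n + i + i2 + k3 - k - m - 1) - t) t (by omega)))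
  · by_cases z104 : (2 * n + 2 * i2 + k3) ≤ (3 * i + 3 * l + 3 * m + d1 + 4)
    · by_cases v32 : (n + k3) ≤ (2 * i + 2 * l + m + 3)
      · have kk1151 : (k3 + d1) ≤ (i + l + m + 1) := by clear * - b0 y19; omega
        have kk1152 : (i + l + 2 * i2 + 2) ≤ (m + k3 + d1) := by clear * - b2 b7 y1 y13 y17 y18; omega
        have kk1153 : (k3 + d1) ≤ (i + l + m) := by clear * - b0 y19 ev n1p n2p n3p q1; omega
        have kk1154 : (2 * n + 2 * i2 + 3 * k3 + d1) ≤ (5 * i + 5 * l + 5 * m + 8) := by clear * - b0 y19 z104; omega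
        have kk1155 : (i) ≤ (k3) := by clear * - b0 b1 y16 y18 z104; omega
        have kk1156 : (i + k + 2 * l + m + 3) ≤ (n + k3 + d1) := by clear * - b1 b2 b4 b7 v32 y18; omega
        have kk1157 : (i + l + 2 * m + 3) ≤ (n + i2) := by clear * - b5; omega
        have kk1158 : (n + k3) ≤ (2 * i + 2 * l + m + 3) := by clear * - v32; omega
        have kk1159 : (0) ≤ (i2) := by clear * - b1 v32 y16 y18; omega
        have kk1160 : (2 * i + l + 2 * m + d1 + 3) ≤ (n + k + i2) := by clear * - b0 y19 z103; omega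
        have kk1161 : (k3 + d1) ≤ (k + l + 1) := by clear * - b0 y19 z103 z104; omega
        have r1162 : (3 * n + k + i2 + k3 - i - m - 1) % 2 = 0 := by clear * - ev n1p n2p n3p q1; omega
        have r1163 : (i + l + m - k3 - d1 + 2) % 2 = 0 := by clear * - ev n1p n2p n3p q1; omega
        clear * - al b tt D2 x1 kk1151 kk1152 kk1153 kk1154 kk1155 kk1156 kk1157 kk1158 kk1159 kk1160 kk1161 r1162 r1163
        exact midP al (i + l + m - k3 - d1 + 2) (3 * n + k + i2 + k3 - i - m - 1) (2 * n + k + i2 + k3 - 2 * i - l - 2 * m - 2) (n + k3 + d1 + 1) (n + i + k + 2 * l + m - k3 - d1 + 3) (by omega) (fun t h1 h2 => (cE (cI (cE (pb b al 1 t (t + (i - n - k)) (by omega)) (pb D2 al 0 (t + (i - n - k)) (t + (2 * i + l + m - n - k - k3 + 2)) (by omega))) (qa tt al 1 (t + (2 * i + l + m - n - k - k3 + 2)) ((2 * n + k + i2 + k3 - i - m - 1) - t) (by omega))) (sh al 1 ((2 * n + k + i2 + k3 - i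 - m - 1) - t) ((3 * n + k + i2 + k3 - i - m - 1) - t) (by omega)))) (fun t h1 h2 => (cE (qf (show Par W (k3 + d1 + 1) (k + l + 1) (i + l + m - k3 - d1 + 2) from fun t h1 h2 => (cE (sh al (-1) t (t + (-n)) (by omega)) (cE (pb x1 al (-1) (t + (-n)) (t + (-d1)) (by omega)) (pb D2 al 0 (t + (-d1)) (t + (i + l + m - k3 - d1 + 2)) (by omega))))) al 1 t (t + (i + l + m - n - k3 - d1 + 2)) (by omega)) (sh al 1 (t + (i + l + m - n - k3 - d1 + 2)) (t + (i + l + m - k3 - d1 + 2)) (by omega))))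
      · have kk1164 : (k3 + d1) ≤ (i + l + m + 1) := by clear * - b0 y19; omega
        have kk1165 : (2 * n + 2 * i2 + k3) ≤ (3 * i + 3 * l + 3 * m + d1 + 4) := by clear * - z104; omega
        have kk1166 : (k3 + d1) ≤ (i + l + m) := by clear * - b0 y19 ev n1p n2p n3p q1; omega
        have kk1167 : (2 * n + 2 * i2 + 3 * k3 + d1) ≤ (5 * i + 5 * l + 5 * m + 8) := by clear * - b0 y19 z104; omega
        have kk1168 : (i) ≤ (k3) := by clear * - b0 b3 v32 y18 z104; omega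
        have kk1169 : (i + k + 2 * l + m + 3) ≤ (n + k3 + d1) := by clear * - b2 b3 b4 b7 v32 y17 y18; omega
        have kk1170 : (i + l + 2 * m + 3) ≤ (n + i2) := by clear * - b5; omega
        have kk1171 : (2 * i + 2 * l + m + 3) ≤ (n + k3) := by clear * - v32; omega
        have kk1172 : (2 * i + 2 * l + m + 3) ≤ (n + i2 + k3) := by clear * - b3 v32; omega
        have kk1173 : (2 * i + l + 2 * m + d1 + 3) ≤ (n + k + i2) := by clear * - b0 y19 z103; omega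
        have kk1174 : (k3 + d1) ≤ (k + l + 1) := by clear * - b0 y19 z103 z104; omega
        have r1175 : (3 * n + k + i2 + k3 - i - m - 1) % 2 = 0 := by clear * - ev n1p n2p n3p q1; omega
        have r1176 : (i + l + m - k3 - d1 + 2) % 2 = 0 := by clear * - ev n1p n2p n3p q1; omega
        clear * - al b tt D2 x1 kk1164 kk1165 kk1166 kk1167 kk1168 kk1169 kk1170 kk1171 kk1172 kk1173 kk1174 r1175 r1176
        exact midP al (i + l + m - k3 - d1 + 2) (3 * n + k + i2 + k3 - i - m - 1) (2 * n + k + i2 + k3 - 2 * i - l - 2 * m - 2) (n + k3 + d1 + 1) (n + i + k + 2 * l + m - k3 - d1 + 3) (by omega) (fun t h1 h2 => (cE (cI (cE (pb b al 1 t (t + (i - n - k)) (by omega)) (pb D2 al 0 (t + (i - n - k)) (t + (2 * i + l + m - n - k - k3 + 2)) (by omega))) (qa tt al 1 (t + (2 * i + l + m - n - k - k3 + 2)) ((2 * n + k + i2 + k3 - i - m - 1) - t) (by omega))) (sh al 1 ((2 * n + k + i2 + k3 - i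 - m - 1) - t) ((3 * n + k + i2 + k3 - i - m - 1) - t) (by omega)))) (fun t h1 h2 => (cE (qf (show Par W (k3 + d1 + 1) (k + l + 1) (i + l + m - k3 - d1 + 2) from fun t h1 h2 => (cE (sh al (-1) t (t + (-n)) (by omega)) (cE (pb x1 al (-1) (t + (-n)) (t + (-d1)) (by omega)) (pb D2 al 0 (t + (-d1)) (t + (i + l + m - k3 - d1 + 2)) (by omega))))) al 1 t (t + (i + l + m - n - k3 - d1 + 2)) (by omega)) (sh al 1 (t + (i + l + m - n - k3 - d1 + 2)) (t + (i + l + m - k3 - d1 + 2)) (by omega))))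
    · by_cases z105 : (j + d1) ≤ (l + i2)
      · have kk1177 : (j + d1) ≤ (l + i2) := by clear * - z105; omega
        have kk1178 : (l + i2 + 2) ≤ (n + j + d1) := by clear * - b0 b2 b3 b4 b6 b7 y17 y18 z105; omega
        have kk1179 : (i + l + 2) ≤ (Q + d1) := by clear * - b2 b3 b7 y13 z103; omega
        have kk1180 : (i2) ≤ (i) := by clear * - y17; omega
        have kk1181 : (d1) ≤ (l + 1) := by clear * - b0; omega
        have kk1182 : (i + m + 1) ≤ (k) := by clear * - y15; omega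
        have kk1183 : (Q + i2) ≤ (i + j + m + 1) := by clear * - y1 y13 y17 y19; omega
        clear * - al s2 tt x1 kk1177 kk1178 kk1179 kk1180 kk1181 kk1182 kk1183
        exact al.ubQ (l + i2 - j - d1 + 1) (by omega) (by omega) fun t h1 h2 => (cE (sh al 1 t (t + (n)) (by omega)) (cE (cII (qa s2 al 1 (t + (n)) ((i + j) - t) (by omega)) (qa tt al 0 ((i + j) - t) (t + (l + i2 - j + 1)) (by omega))) (pb x1 al 0 (t + (l + i2 - j + 1)) (t + (l + i2 - j - d1 + 1)) (by omega))))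
      · have kk1184 : (0) ≤ (i) := by clear * - b1 b3 y17 y18; omega
        have kk1185 : (i + 1) ≤ (j) := by clear * - b0 y16 z105; omega
        have kk1186 : (k3 + d1) ≤ (i + l + m + 1) := by clear * - b0 y19; omega
        have kk1187 : (2 * i + l + m + 2) ≤ (j + k3 + d1) := by clear * - y16 y18 z105; omega
        have kk1188 : (j + k3 + 1) ≤ (i + k) := by clear * - b2 b3 y17 z103; omega
        have kk1189 : (i + m + 1) ≤ (k3) := by clear * - y18; omega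
        have kk1190 : (d1) ≤ (l + m + 2) := by clear * - b0 b2 b3 b7 y13 z103 z104 z105; omega
        have kk1191 : (k + l + 1) ≤ (n) := by clear * - b0 b1 b2 b3 b4 b7 y17 y18; omega
        have kk1192 : (0) ≤ (i + 1) := by clear * - b1 b3 y17 y18; omega
        have kk1193 : (j) ≤ (i + l + 1) := by clear * - b0 b1 b2 b3 b4 b7 y17 y18 z105; omega
        have r1194 : (j - i) % 2 = 0 := by clear * - ev n1p n2p n3p q1; omega
        have r1195 : (i + l + m - k3 - d1 + 2) % 2 = 0 := by clear * - ev n1p n2p n3p q1; omega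
        clear * - al a1 b D2 x1 n1 kk1184 kk1185 kk1186 kk1187 kk1188 kk1189 kk1190 kk1191 kk1192 kk1193 r1194 r1195
        exact n1.f1 (rEE (qf a1 al 0 (i) (i + k - j) (by omega)) (sh al 0 (k) (k) (by omega)) (rotL (j - i) (i + l + m - k3 - d1 + 2) (i + k - j) (k) (by omega) (fun t h1 h2 => (cE (pb a1 al 0 t (t + (j - k)) (by omega)) (qf b al 0 (t + (j - k)) (t + (j - i)) (by omega)))) (fun t h1 h2 => (qf (show Par W (k3 + 1) (k + k3 - i - m - 1) (i + l + m - k3 - d1 + 2) from fun t h1 h2 => (cE (sh al (-1) t (t + (-n)) (by omega)) (cE (pb D2 al (-1) (t + (-n)) (t + (i + l + m - k3 + 2)) (by omega)) (pb x1 al 0 (t + (i + l + m - k3 + 2)) (t + (i + l + m - k3 - d1 + 2)) (by omega))))) al 0 t (t + (i + l + m - k3 - d1 + 2)) (by omega)))))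

theorem h9_46p
    (h9_47 : ∀ {W : ℤ → G} {n Q i j k l i2 m k3 : ℤ} (al : AL W n Q) (hy : (0) ≤ (i) ∧ (i) ≤ (j) ∧ (j + 1) ≤ (Q) ∧ (Q) ≤ (k) ∧ (k + 1) ≤ (n) ∧ (Q) ≤ (i + l + 1) ∧ (k + l + 2) ≤ (n) ∧ (0) ≤ (i2) ∧ (i2 + 1) ≤ (Q) ∧ (Q + m + 1) ≤ (n + i2) ∧ (i2) ≤ (m) ∧ (Q) ≤ (i + l + m + 2) ∧ (i + l + m + 3) ≤ (n) ∧ (Q) ≤ (k3) ∧ (k3 + 1) ≤ (n) ∧ (i + m + 2) ≤ (k) ∧ (i) ≤ (i2) ∧ (i2) ≤ (i) ∧ (i + m + 1) ≤ (k3) ∧ (k3) ≤ (i + m + 1) ∧ (k3) ≤ (i + l + m + 1) ∧ (m + k3 + 2) ≤ (n + i2)) (a1 : Par W (0) (j) (k - j)) (a2 : Par W (Q + j - k) (j) (k - j)) (s1 : Ant W (0) (i) (i + j)) (s2 : Ant W (j + 1) (Q) (i + j)) (b : Par W (i + 1) (i + l + 1) (k - i)) (c1 : Par W (i2 + 1) (Q) (k + l - i2 + 1)) (c2 : Par W (k + l + 2) (n) (i2 - k - l - 1)) (tt : Ant W (i2 - m) (i2) (i + l + i2 + 1)) (D1 : Par W (Q) (k3) (n + i2 - m - k3 - 1)) (D2 : Par W (i + l + m + 3) (n) (k3 - i - l - m - 2)) {L : ℤ} (mx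 : ∀ a b g, 0 < g → g < n → Par W a b g → b - a ≤ L) (hL : L ≤ (n - j - 3) ∧ L ≤ (n + Q - k - 3) ∧ L ≤ (n - l - 3) ∧ L ≤ (n + i - k - 2)) (bd0 : Bd W n L (j) (i) (k)) (n1 : Nd W (j) (i) (k)) (n2 : Nd W (i + l + 1) (i2) (k + l + 1)) (n3 : Nd W (n + i2 - m - 1) (i + l + m + 2) (k3)) (d1 : ℤ) (q1 : d1 % 2 = 0) (x1 : Par W (i + 1) (k + l - d1 + 1) d1) (b0 : (d1) ≤ (l)) (b1 : (k + 2 * l + 3) ≤ (n + i + d1)) (b2 : (2 * l + 3) ≤ (n)) (b3 : (k + 2 * m + 1) ≤ (n + j)) (b4 : (2 * j + 2 * k3 + 1) ≤ (i + k + 2 * m)) (b5 : (n + k3) ≤ (2 * i + 2 * l + i2 + m + 4)) (b6 : (2 * Q + k + l + 1) ≤ (n + i + j + i2)) (b7 : (i + l + 2 * m + 3) ≤ (n + i2)) (b8 : (i + l + m + 2) ≤ (2 * j + k3 + d1)), False)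
    (h9_52 : ∀ {W : ℤ → G} {n Q i j k l i2 m k3 : ℤ} (al : AL W n Q) (hy : (0) ≤ (i) ∧ (i) ≤ (j) ∧ (j + 1) ≤ (Q) ∧ (Q) ≤ (k) ∧ (k + 1) ≤ (n) ∧ (Q) ≤ (i + l + 1) ∧ (k + l + 2) ≤ (n) ∧ (0) ≤ (i2) ∧ (i2 + 1) ≤ (Q) ∧ (Q + m + 1) ≤ (n + i2) ∧ (i2) ≤ (m) ∧ (Q) ≤ (i + l + m + 2) ∧ (i + l + m + 3) ≤ (n) ∧ (Q) ≤ (k3) ∧ (k3 + 1) ≤ (n) ∧ (i + m + 2) ≤ (k) ∧ (i) ≤ (i2) ∧ (i2) ≤ (i) ∧ (i + m + 1) ≤ (k3) ∧ (k3) ≤ (i + m + 1) ∧ (k3) ≤ (i + l + m + 1) ∧ (m + k3 + 2) ≤ (n + i2)) (a1 : Par W (0) (j) (k - j)) (a2 : Par W (Q + j - k) (j) (k - j)) (s1 : Ant W (0) (i) (i + j)) (s2 : Ant W (j + 1) (Q) (i + j)) (b : Par W (i + 1) (i + l + 1) (k - i)) (c1 : Par W (i2 + 1) (Q) (k + l - i2 + 1)) (c2 : Par W (k + l + 2) (n) (i2 - k - l - 1)) (tt : Ant W (i2 - m) (i2) (i + l + i2 + 1)) (D1 : Par W (Q) (k3) (n + i2 - m - k3 - 1)) (D2 : Par W (i + l + m + 3) (n) (k3 - i - l - m - 2)) {L : ℤ} (mx : ∀ a b g, 0 < g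 → g < n → Par W a b g → b - a ≤ L) (hL : L ≤ (n - j - 3) ∧ L ≤ (n + Q - k - 3) ∧ L ≤ (n - l - 3) ∧ L ≤ (n + i - k - 2)) (bd0 : Bd W n L (j) (i) (k)) (n1 : Nd W (j) (i) (k)) (n2 : Nd W (i + l + 1) (i2) (k + l + 1)) (n3 : Nd W (n + i2 - m - 1) (i + l + m + 2) (k3)) (d1 : ℤ) (q1 : d1 % 2 = 0) (x1 : Par W (i + 1) (k + l - d1 + 1) d1) (b0 : (i + l + 1) ≤ (k + d1)) (b1 : (k + 2 * l + 3) ≤ (n + i + d1)) (b2 : (2 * l + 3) ≤ (n)) (b3 : (2 * j + 2 * k3 + 1) ≤ (i + k + 2 * m)) (b4 : (n + k3) ≤ (2 * i + 2 * l + i2 + m + 4)) (b5 : (2 * Q + k + l + 1) ≤ (n + i + j + i2)) (b6 : (i + l + 2 * m + 3) ≤ (n + i2)) (b7 : (2 * j + k3 + d1) ≤ (i + l + m + 1)), False)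
    {W : ℤ → G} {n Q i j k l i2 m k3 : ℤ} (al : AL W n Q)
    (hy : (0) ≤ (i) ∧ (i) ≤ (j) ∧ (j + 1) ≤ (Q) ∧ (Q) ≤ (k) ∧ (k + 1) ≤ (n) ∧ (Q) ≤ (i + l + 1) ∧ (k + l + 2) ≤ (n) ∧ (0) ≤ (i2) ∧ (i2 + 1) ≤ (Q) ∧ (Q + m + 1) ≤ (n + i2) ∧ (i2) ≤ (m) ∧ (Q) ≤ (i + l + m + 2) ∧ (i + l + m + 3) ≤ (n) ∧ (Q) ≤ (k3) ∧ (k3 + 1) ≤ (n) ∧ (i + m + 2) ≤ (k) ∧ (i) ≤ (i2) ∧ (i2) ≤ (i) ∧ (i + m + 1) ≤ (k3) ∧ (k3) ≤ (i + m + 1) ∧ (k3) ≤ (i + l + m + 1) ∧ (m + k3 + 2) ≤ (n + i2))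
    (a1 : Par W (0) (j) (k - j))
    (a2 : Par W (Q + j - k) (j) (k - j))
    (s1 : Ant W (0) (i) (i + j))
    (s2 : Ant W (j + 1) (Q) (i + j))
    (b : Par W (i + 1) (i + l + 1) (k - i))
    (c1 : Par W (i2 + 1) (Q) (k + l - i2 + 1))
    (c2 : Par W (k + l + 2) (n) (i2 - k - l - 1))
    (tt : Ant W (i2 - m) (i2) (i + l + i2 + 1))
    (D1 : Par W (Q) (k3) (n + i2 - m - k3 - 1))
    (D2 : Par W (i + l + m + 3) (n) (k3 - i - l - m - 2))
    {L : ℤ} (mx : ∀ a b g, 0 < g → g < n → Par W a b g → b - a ≤ L)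
    (hL : L ≤ (n - j - 3) ∧ L ≤ (n + Q - k - 3) ∧ L ≤ (n - l - 3) ∧ L ≤ (n + i - k - 2))
    (bd0 : Bd W n L (j) (i) (k))
    (n1 : Nd W (j) (i) (k))
    (n2 : Nd W (i + l + 1) (i2) (k + l + 1))
    (n3 : Nd W (n + i2 - m - 1) (i + l + m + 2) (k3))
    (d1 : ℤ) (q1 : d1 % 2 = 0) (x1 : Par W (i + 1) (k + l - d1 + 1) d1)
    (b0 : (i + l + 1) ≤ (k + d1))
    (b1 : (d1) ≤ (l))
    (b2 : (k + 2 * l + 3) ≤ (n + i + d1))
    (b3 : (2 * l + 3) ≤ (n))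
    (b4 : (k + 2 * m + 1) ≤ (n + j))
    (b5 : (2 * j + 2 * k3 + 1) ≤ (i + k + 2 * m))
    (b6 : (n + k3) ≤ (2 * i + 2 * l + i2 + m + 4))
    (b7 : (2 * Q + k + l + 1) ≤ (n + i + j + i2))
    (b8 : (i + l + 2 * m + 3) ≤ (n + i2)) : False := by
  have ev := al.ev
  obtain ⟨y0, y1, y2, y3, y4, y5, y6, y7, y8, y9, y10, y11, y12, y13, y14, y15, y16, y17, y18, y19, y20, y21⟩ := id hy
  have n1p := And.intro n1.p1 n1.p2
  have n2p := And.intro n2.p1 n2.p2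
  have n3p := And.intro n3.p1 n3.p2
  by_cases z92 : (i + l + m + 2) ≤ (2 * j + k3 + d1)
  · exact h9_47 al hy a1 a2 s1 s2 b c1 c2 tt D1 D2 mx hL bd0 n1 n2 n3 d1 q1 x1 (by clear * - b1; omega) (by clear * - b2; omega) (by clear * - b3; omega) (by clear * - b4; omega) (by clear * - b5; omega) (by clear * - b6; omega) (by clear * - b7; omega) (by clear * - b8; omega) (by clear * - z92; omega)
  · exact h9_52 al hy a1 a2 s1 s2 b c1 c2 tt D1 D2 mx hL bd0 n1 n2 n3 d1 q1 x1 (by clear * - b0; omega) (by clear * - b2; omega) (by clear * - b3; omega) (by clear * - b5; omega) (by clear * - b6; omega) (by clear * - b7; omega) (by clear * - b8; omega) (by clear * - z92; omega)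

theorem h9_13p
    (h9_14 : ∀ {W : ℤ → G} {n Q i j k l i2 m k3 : ℤ} (al : AL W n Q) (hy : (0) ≤ (i) ∧ (i) ≤ (j) ∧ (j + 1) ≤ (Q) ∧ (Q) ≤ (k) ∧ (k + 1) ≤ (n) ∧ (Q) ≤ (i + l + 1) ∧ (k + l + 2) ≤ (n) ∧ (0) ≤ (i2) ∧ (i2 + 1) ≤ (Q) ∧ (Q + m + 1) ≤ (n + i2) ∧ (i2) ≤ (m) ∧ (Q) ≤ (i + l + m + 2) ∧ (i + l + m + 3) ≤ (n) ∧ (Q) ≤ (k3) ∧ (k3 + 1) ≤ (n) ∧ (i + m + 2) ≤ (k) ∧ (i) ≤ (i2) ∧ (i2) ≤ (i) ∧ (i + m + 1) ≤ (k3) ∧ (k3) ≤ (i + m + 1) ∧ (k3) ≤ (i + l + m + 1) ∧ (m + k3 + 2) ≤ (n + i2)) (a1 : Par W (0) (j) (k - j)) (a2 : Par W (Q + j - k) (j) (k - j)) (s1 : Ant W (0) (i) (i + j)) (s2 : Ant W (j + 1) (Q) (i + j)) (b : Par W (i + 1) (i + l + 1) (k - i)) (c1 : Par W (i2 + 1) (Q) (k + l - i2 + 1)) (c2 : Par W (k + l + 2) (n) (i2 - k - l - 1)) (tt : Ant W (i2 - m) (i2) (i + l + i2 + 1)) (D1 : Par W (Q) (k3) (n + i2 - m - k3 - 1)) (D2 : Par W (i + l + m + 3) (n) (k3 - i - l - m - 2)) {L : ℤ} (mx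 : ∀ a b g, 0 < g → g < n → Par W a b g → b - a ≤ L) (hL : L ≤ (n - j - 3) ∧ L ≤ (n + Q - k - 3) ∧ L ≤ (n - l - 3) ∧ L ≤ (n + i - k - 2)) (bd0 : Bd W n L (j) (i) (k)) (n1 : Nd W (j) (i) (k)) (n2 : Nd W (i + l + 1) (i2) (k + l + 1)) (n3 : Nd W (n + i2 - m - 1) (i + l + m + 2) (k3)) (d1 : ℤ) (q1 : d1 % 2 = 0) (x1 : Par W (i + 1) (k + l - d1 + 1) d1) (b0 : (i + l + 1) ≤ (k + d1)) (b1 : (d1) ≤ (l)) (b2 : (0) ≤ (d1)) (b3 : (k + 2 * l + 3) ≤ (n + i + d1)) (b4 : (2 * i + j + 1) ≤ (k)) (b5 : (n + i2) ≤ (i + k + 2 * l + 2)) (b6 : (2 * l + 3) ≤ (n)), False)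
    {W : ℤ → G} {n Q i j k l i2 m k3 : ℤ} (al : AL W n Q)
    (hy : (0) ≤ (i) ∧ (i) ≤ (j) ∧ (j + 1) ≤ (Q) ∧ (Q) ≤ (k) ∧ (k + 1) ≤ (n) ∧ (Q) ≤ (i + l + 1) ∧ (k + l + 2) ≤ (n) ∧ (0) ≤ (i2) ∧ (i2 + 1) ≤ (Q) ∧ (Q + m + 1) ≤ (n + i2) ∧ (i2) ≤ (m) ∧ (Q) ≤ (i + l + m + 2) ∧ (i + l + m + 3) ≤ (n) ∧ (Q) ≤ (k3) ∧ (k3 + 1) ≤ (n) ∧ (i + m + 2) ≤ (k) ∧ (i) ≤ (i2) ∧ (i2) ≤ (i) ∧ (i + m + 1) ≤ (k3) ∧ (k3) ≤ (i + m + 1) ∧ (k3) ≤ (i + l + m + 1) ∧ (m + k3 + 2) ≤ (n + i2))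
    (a1 : Par W (0) (j) (k - j))
    (a2 : Par W (Q + j - k) (j) (k - j))
    (s1 : Ant W (0) (i) (i + j))
    (s2 : Ant W (j + 1) (Q) (i + j))
    (b : Par W (i + 1) (i + l + 1) (k - i))
    (c1 : Par W (i2 + 1) (Q) (k + l - i2 + 1))
    (c2 : Par W (k + l + 2) (n) (i2 - k - l - 1))
    (tt : Ant W (i2 - m) (i2) (i + l + i2 + 1))
    (D1 : Par W (Q) (k3) (n + i2 - m - k3 - 1))
    (D2 : Par W (i + l + m + 3) (n) (k3 - i - l - m - 2))
    {L : ℤ} (mx : ∀ a b g, 0 < g → g < n → Par W a b g → b - a ≤ L)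
    (hL : L ≤ (n - j - 3) ∧ L ≤ (n + Q - k - 3) ∧ L ≤ (n - l - 3) ∧ L ≤ (n + i - k - 2))
    (bd0 : Bd W n L (j) (i) (k))
    (n1 : Nd W (j) (i) (k))
    (n2 : Nd W (i + l + 1) (i2) (k + l + 1))
    (n3 : Nd W (n + i2 - m - 1) (i + l + m + 2) (k3))
    (d1 : ℤ) (q1 : d1 % 2 = 0) (x1 : Par W (i + 1) (k + l - d1 + 1) d1)
    (b0 : (i + l + 1) ≤ (k + d1))
    (b1 : (d1) ≤ (l))
    (b2 : (0) ≤ (d1))
    (b3 : (k + 2 * l + 3) ≤ (n + i + d1))
    (b4 : (2 * i + j + 1) ≤ (k))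
    (b5 : (n + i2) ≤ (i + k + 2 * l + 2)) : False := by
  have ev := al.ev
  obtain ⟨y0, y1, y2, y3, y4, y5, y6, y7, y8, y9, y10, y11, y12, y13, y14, y15, y16, y17, y18, y19, y20, y21⟩ := id hy
  have n1p := And.intro n1.p1 n1.p2
  have n2p := And.intro n2.p1 n2.p2
  have n3p := And.intro n3.p1 n3.p2
  by_cases z23 : (n) ≤ (2 * l + 2)
  · have kk269 : (i + 1) ≤ (k) := by clear * - b0 b1; omega
    have kk270 : (k + 1) ≤ (n + i) := by clear * - b1 b2 b3; omega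
    have kk271 : (n) ≤ (2 * l + 2) := by clear * - z23; omega
    clear * - al b mx hL kk269 kk270 kk271
    exact absurd (mx (i - n + 1) (i + l - n + 1) (k - i) (by omega) (by omega) fun t h1 h2 => (cE (qf b al (-1) t (t + (n + k - i)) (by omega)) (sh al (-1) (t + (n + k - i)) (t + (k - i)) (by omega)))) (by omega)
  · exact h9_14 al hy a1 a2 s1 s2 b c1 c2 tt D1 D2 mx hL bd0 n1 n2 n3 d1 q1 x1 (by clear * - b0; omega) (by clear * - b1; omega) (by clear * - b2; omega) (by clear * - b3; omega) (by clear * - b4; omega) (by clear * - b5; omega) (by clear * - z23; omega)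

end Pool.Agent.MP_a38735_al.WL
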