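import Pool.Agent.MP_a38735_al.WT

set_option autoImplicit false

namespace Pool.Agent.MP_a38735_al.WL

variable {G : Type*} [Group G] {W : ℤ → G}

/-- two periods of a long run have a common divisor that is a period -/
theorem fwilf {lo hi a b : ℤ} (a0 : 0 < a) (len : lo + a + b ≤ hi) (b0 : 0 < b)
    (A : ∀ t, lo ≤ t → t + a < hi → W (t + a) = W t)
    (B : ∀ t, lo ≤ t → t + b < hi → W (t + b) = W t) :
    ∃ g, 0 < g ∧ g ∣ a ∧ g ∣ b ∧ (2 ∣ a → 2 ∣ b → 2 ∣ g) ∧
      ∀ t, lo ≤ t → t + g < hi → W (t + g) = W t := by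
  obtain ⟨V, hV⟩ : ∃ V : ℤ → G, ∀ t, V t = W (lo + (t - lo) % a) := ⟨_, fun _ => rfl⟩
  have m0 := fun t => Int.emod_nonneg t a0.ne'
  have m1 := fun t => Int.emod_lt_of_pos t a0
  have VW : ∀ t, lo ≤ t → t < hi → V t = W t := fun t h1 h2 => by
    rw [hV]
    have := m0 (t - lo)
    have := m1 (t - lo)
    refine per_dvd a0 A ⟨-((t - lo) / a), ?_⟩ (by omega)
    have := Int.emod_add_mul_ediv (t - lo) a
    linarith
  have Va : ∀ t, V (t + a) = V t := fun t => by
    rw [hV, hV, show t + a - lo = t - lo + a by ring, Int.add_emod_right]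
  have Vb : ∀ t, V (t + b) = V t := fun t => by
    have := m0 (t - lo)
    have := m1 (t - lo)
    have e := Int.emod_add_mul_ediv (t - lo) a
    rw [show t + b = lo + (t - lo) % a + b + (t - lo) / a * a by linarith, perM Va,
      VW _ (by omega) (by omega), B _ (by omega) (by omega), hV]
  refine ⟨Int.gcd a b, by exact_mod_cast Int.gcd_pos_of_ne_zero_left b a0.ne',
    Int.gcd_dvd_left .., Int.gcd_dvd_right .., fun h1 h2 => Int.dvd_coe_gcd h1 h2,
    fun t h1 h2 => ?_⟩
  have g0 : (0 : ℤ) ≤ Int.gcd a b := by positivity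
  rw [← VW _ (by omega) h2, ← VW _ h1 (by omega), Int.gcd_eq_gcd_ab,
    show t + (a * Int.gcdA a b + b * Int.gcdB a b) = t + Int.gcdA a b * a + Int.gcdB a b * b by ring,
    perM Vb, perM Va]

theorem Nd.tr {j i k j' i' k' : ℤ} (h : Nd W j i k) (e1 : W j' = W j) (e2 : W i' = W i)
    (e3 : W k' = W k) (p : (j' - i') % 2 = 0 ∧ (k' - j') % 2 = 0) : Nd W j' i' k' :=
  ⟨p.1, p.2, by rw [e1, e3]; exact h.yz, by rw [e2, e3]; exact h.xz, by rw [e1, e2]; exact h.yx,
    by rw [e1, e2, e3]; exact h.tor, by rw [e1, e2, e3]; exact h.rel⟩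

omit [Group G] in
/-- a period of the beginning of a run with another period is a period of the whole run -/
theorem per_ext {lo m hi h b : ℤ} (b0 : 0 < b) (h0 : 0 ≤ h) (hm : lo + b ≤ m)
    (H : ∀ t, lo ≤ t → t < m → W (t + h) = W t)
    (B : ∀ t, lo ≤ t → t + b < hi → W (t + b) = W t) :
    ∀ t, lo ≤ t → t + h < hi → W (t + h) = W t := by
  have key : ∀ (N : ℕ) t, lo ≤ t → t < lo + N → t + h < hi → W (t + h) = W t := fun N => by
    induction N with
    | zero => intro t h1 h2; omega
    | succ N ih =>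
      intro t h1 h2 h3
      by_cases z : t < m
      · exact H t h1 z
      · have e1 := B (t - b + h) (by omega) (by omega)
        have e2 := B (t - b) (by omega) (by omega)
        rw [show t + h = t - b + h + b by ring, e1, ih (t - b) (by omega) (by omega) (by omega),
          ← e2, sub_add_cancel]
  exact fun t h1 h2 => key (t - lo + 1).toNat t h1 (by omega) h2

end Pool.Agent.MP_a38735_al.WL
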