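import Pool.Agent.MP_a38735_al.WT

set_option autoImplicit false
set_option linter.unusedVariables false

namespace Pool.Agent.MP_a38735_al.WL

variable {G : Type*} [Group G]

theorem t1a_25 {W : ℤ → G} {n Q i j k l i2 l2 i3 : ℤ} (al : AL W n Q)
    (hy : (0) ≤ (i) ∧ (i) ≤ (j) ∧ (j + 1) ≤ (Q) ∧ (Q) ≤ (k) ∧ (k + 1) ≤ (n) ∧ (Q) ≤ (i + l + 1) ∧ (k + l + 2) ≤ (n) ∧ (Q) ≤ (i2) ∧ (i2) ≤ (i + l + 1) ∧ (Q) ≤ (i2 + l2 + 1) ∧ (i2 + l2 + 2) ≤ (n) ∧ (n) ≤ (k + l + l2 + 2) ∧ (k + l + l2 + 3) ≤ (n + Q) ∧ (0) ≤ (i3) ∧ (n + i3) ≤ (k + l + l2 + 2) ∧ (k + i2 + l2 + 2) ≤ (n + j + i3) ∧ (j + i3 + 1) ≤ (k) ∧ (k + i2 + l2 + 2) ≤ (n + i3) ∧ (i + 2 * i2 + 1) ≤ (2 * Q + k) ∧ (i + l + 1) ≤ (i2 + l2) ∧ (i2 + l2 + 1) ≤ (k + l) ∧ (i + 1) ≤ (i3))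
    (a1 : Par W (0) (j) (k - j))
    (a2 : Par W (Q + j - k) (j) (k - j))
    (s1 : Ant W (0) (i) (i + j))
    (s2 : Ant W (j + 1) (Q) (i + j))
    (b : Par W (i + 1) (i + l + 1) (k - i))
    (tt : Ant W (Q) (i2) (i + l + i2 + 1))
    (c : Par W (i2 + 1) (i2 + l2 + 1) (k + l - i2 + 1))
    (u1 : Ant W (0) (i3) (k + l + l2 + i3 - n + 2))
    (u2 : Ant W (k + l + l2 - n + 3) (Q) (k + l + l2 + i3 - n + 2))
    (D1 : Par W (i3 + 1) (Q) (i2 + l2 - i3 + 1))
    (D2 : Par W (i2 + l2 + 2) (n) (i3 - i2 - l2 - 1))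
    {L : ℤ} (mx : ∀ a b g, 0 < g → g < n → Par W a b g → b - a ≤ L)
    (hL : L ≤ (n - j - 3) ∧ L ≤ (n + Q - k - 3) ∧ L ≤ (n - l - 3) ∧ L ≤ (n + i - k - 2) ∧ L ≤ (n - l2 - 3) ∧ L ≤ (n + i3 - Q - 2) ∧ L ≤ (i2 + l2 - 1) ∧ L ≤ (n + i2 - k - l - 3) ∧ L ≤ (Q + i2 + l2 - i - l - 3))
    (bd0 : Bd W n L (j) (i) (k))
    (bd2 : Bd W n L (k + l + l2 - n + 2) (i3) (i2 + l2 + 1))
    (n1 : Nd W (j) (i) (k))
    (n2 : Nd W (i + l + 1) (i2) (k + l + 1))
    (n3 : Nd W (k + l + l2 - n + 2) (i3) (i2 + l2 + 1))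
    (b0 : (i + 2 * l + 3) ≤ (Q + i2 + l2))
    (b1 : (i + l + 3) ≤ (Q + i2))
    (b2 : (j + l + l2 + i3 + 3) ≤ (n))
    (b3 : (2 * Q + i2 + l2) ≤ (n + i + j + i3))
    (b4 : (Q + 2 * k + l + 2) ≤ (n + i + i2))
    (b5 : (3 * i2 + l2) ≤ (i + k + 2 * l + i3 + 2))
    (b6 : (2 * Q + 2 * k + l) ≤ (n + 2 * i + j + i2)) : False := by
  have ev := al.ev
  obtain ⟨y0, y1, y2, y3, y4, y5, y6, y7, y8, y9, y10, y11, y12, y13, y14, y15, y16, y17, y18, y19, y20, y21⟩ := id hy
  have n1p := And.intro n1.p1 n1.p2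
  have n2p := And.intro n2.p1 n2.p2
  have n3p := And.intro n3.p1 n3.p2
  by_cases z61 : (2 * k + l + 1) ≤ (n + i)
  · have kk938 : (i2 + l2 + 1) ≤ (k + l) := by clear * - y20; omega
    have kk939 : (k + l + 2) ≤ (n) := by clear * - y19 y20 z61; omega
    have kk940 : (k + l + i3 + 1) ≤ (2 * i2 + l2) := by clear * - b1 b4 y14; omega
    have kk941 : (i + 1) ≤ (k) := by clear * - y19 y20; omega
    have kk942 : (2 * k + l + 1) ≤ (n + i) := by clear * - z61; omega
    have kk943 : (i + i2 + l2 + 1) ≤ (k + l + i3) := by clear * - y20 y21; omega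
    have kk944 : (i2) ≤ (i + l + 1) := by clear * - b1 b4 b5 y14; omega
    have kk945 : (i2 + l2) ≤ (k + l) := by clear * - y20; omega
    have kk946 : (n) ≤ (k + l + l2 + 2) := by clear * - y13 y14; omega
    have r947 : (2 * i2 + l2 - k - l - i3) % 2 = 0 := by clear * - ev n1p n2p n3p; omega
    have r948 : (k - i) % 2 = 0 := by clear * - ev n1p n2p n3p; omega
    clear * - al b c D2 n2 kk938 kk939 kk940 kk941 kk942 kk943 kk944 kk945 kk946 r947 r948
    exact n2.f1 (rEE (sh al 1 (i2) (n + i2) (by omega)) (cE (qf D2 al 0 (k + l + 1) (k + l + i3 - i2 - l2) (by omega)) (sh al 1 (k + l + i3 - i2 - l2) (n + k + l + i3 - i2 - l2) (by omega))) (Eq.symm (rotL (2 * i2 + l2 - k - l - i3) (k - i) (n + k + l + i3 - i2 - l2) (n + i2) (by omega) (fun t h1 h2 => (cE (qf (show Par W (k + l + i3 - i2 - l2 + 1) (n + i3 - i2 - l2 - 1) (2 * i2 + l2 - k - l - i3) from fun t h1 h2 => (cE (sh al (-1) t (t + (-n)) (by omega)) (cE (pb D2 al (-1) (t + (-n)) (t + (i2 + l2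 - i3 + 1)) (by omega)) (pb c al 0 (t + (i2 + l2 - i3 + 1)) (t + (2 * i2 + l2 - k - l - i3)) (by omega))))) al 1 t (t + (2 * i2 + l2 - n - k - l - i3)) (by omega)) (sh al 1 (t + (2 * i2 + l2 - n - k - l - i3)) (t + (2 * i2 + l2 - k - l - i3)) (by omega)))) (fun t h1 h2 => (cE (qf b al 1 t (t + (k - n - i)) (by omega)) (sh al 1 (t + (k - n - i)) (t + (k - i)) (by omega)))))))
  · by_cases z62 : (2 * Q + l2) ≤ (k + l + i3)
    · by_cases z63 : (2 * i + k + 3 * l + l2 + 6) ≤ (2 * n + i3)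
      · by_cases v36 : (Q + i2 + l2) ≤ (k + l + i3 + 1)
        · by_cases v37 : (i + l + i2 + l2 + 2) ≤ (n + i3)
          · have kk949 : (k + l + i3 + 1) ≤ (2 * i2 + l2) := by clear * - b1 b4 y14; omega
            have kk950 : (k + l + i3 + 2) ≤ (2 * i2 + l2) := by clear * - b1 b4 y14; omega
            have kk951 : (3 * k + l + 3 * i3) ≤ (2 * i + 4 * i2 + 3 * l2) := by clear * - b1 b4 b5 y14; omega
            have kk952 : (3 * k + 3 * l + i3 + 4) ≤ (2 * n + 2 * i2 + l2) := by clear * - b1 b4 b5 v37 y14; omega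
            have kk953 : (i2 + l2) ≤ (k + l) := by clear * - y20; omega
            have kk954 : (n) ≤ (k + l + l2 + 2) := by clear * - y13 y14; omega
            have kk955 : (Q + i2 + l2) ≤ (k + l + i3 + 1) := by clear * - v36; omega
            have kk956 : (i + l + i2 + l2 + 2) ≤ (n + i3) := by clear * - v37; omega
            have r957 : (i + l + i2 + 1) % 2 = 0 := by clear * - ev n1p n2p n3p; omega
            have r958 : (2 * i2 + l2 - k - l - i3) % 2 = 0 := by clear * - ev n1p n2p n3p; omega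
            clear * - al tt c D2 kk949 kk950 kk951 kk952 kk953 kk954 kk955 kk956 r957 r958
            exact midP al (2 * i2 + l2 - k - l - i3) (i + l + i2 + 1) (k + l + i3 - i2 - l2 + 1) (k + l + i3 - i2 - l2 + 1) (n + i2 - k - l - 1) (by omega) (fun t h1 h2 => (qa tt al 0 t ((i + l + i2 + 1) - t) (by omega))) (fun t h1 h2 => (qf (show Par W (k + l + i3 - i2 - l2 + 1) (n + i3 - i2 - l2 - 1) (2 * i2 + l2 - k - l - i3) from fun t h1 h2 => (cE (sh al (-1) t (t + (-n)) (by omega)) (cE (pb D2 al (-1) (t + (-n)) (t + (i2 + l2 - i3 + 1)) (by omega)) (pb c al 0 (t + (i2 + l2 - i3 + 1)) (t + (2 * i2 + l2 - k - l - i3)) (by omega))))) al 0 t (t + (2 * i2 + l2 - k - l - i3)) (by omega)))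
          · have kk959 : (k + l + i3 + 1) ≤ (2 * i2 + l2) := by clear * - v37 z63; omega
            have kk960 : (2 * i + k + 3 * l + l2 + 6) ≤ (2 * n + i3) := by clear * - z63; omega
            have kk961 : (3 * k + 3 * l + i3 + 4) ≤ (2 * n + 2 * i2 + l2) := by clear * - b5 v37 z63; omega
            have kk962 : (2 * i + 3 * k + 5 * l + l2 + 8) ≤ (4 * n + i3) := by clear * - b5 v37 z63; omega
            have kk963 : (i2 + l2) ≤ (k + l) := by clear * - y20; omega
            have kk964 : (n) ≤ (k + l + l2 + 2) := by clear * - b0 b5 v36 v37 y14 y21 z63; linarith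
            have kk965 : (n + i3) ≤ (i + l + i2 + l2 + 2) := by clear * - v37; omega
            have kk966 : (n + Q) ≤ (i + k + 2 * l + 3) := by clear * - v36 v37; omega
            have r967 : (i + l + i2 + 1) % 2 = 0 := by clear * - ev n1p n2p n3p; omega
            have r968 : (2 * i2 + l2 - k - l - i3) % 2 = 0 := by clear * - ev n1p n2p n3p; omega
            clear * - al tt c D2 kk959 kk960 kk961 kk962 kk963 kk964 kk965 kk966 r967 r968
            exact midP al (2 * i2 + l2 - k - l - i3) (i + l + i2 + 1) (i + k + 2 * l - n + 3) (k + l + i3 - i2 - l2 + 1) (n + i2 - k - l - 1) (by omega) (fun t h1 h2 => (qa tt al 0 t ((i + l + i2 + 1) - t) (by omega))) (fun t h1 h2 => (qf (show Par W (k + l + i3 - i2 - l2 + 1) (n + i3 - i2 - l2 - 1) (2 * i2 + l2 - k - l - i3) from fun t h1 h2 => (cE (sh al (-1) t (t + (-n)) (by omega)) (cE (pb D2 al (-1) (t + (-n)) (t + (i2 + l2 - i3 + 1)) (by omega)) (pb c al 0 (t + (i2 + l2 - i3 + 1)) (t + (2 * i2 + l2 - k -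 l - i3)) (by omega))))) al 0 t (t + (2 * i2 + l2 - k - l - i3)) (by omega)))
        · by_cases v38 : (i + k + 2 * l + 3) ≤ (n + Q)
          · have kk969 : (k + l + i3 + 1) ≤ (2 * i2 + l2) := by clear * - v36 z62; omega
            have kk970 : (2 * Q + l2) ≤ (k + l + i3) := by clear * - z62; omega
            have kk971 : (2 * Q + k + i3) ≤ (2 * i + l + 2 * i2 + l2 + 2) := by clear * - b5 v36 z62; omega
            have kk972 : (2 * Q + k + l + l2 + 2) ≤ (2 * n + i3) := by clear * - b5 v36 v38 z62; omega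
            have kk973 : (i2 + l2) ≤ (k + l) := by clear * - y20; omega
            have kk974 : (n) ≤ (k + l + l2 + 2) := by clear * - y13 y14; omega
            have kk975 : (k + l + i3 + 1) ≤ (Q + i2 + l2) := by clear * - v36; omega
            have kk976 : (i + k + 2 * l + 3) ≤ (n + Q) := by clear * - v38; omega
            have r977 : (i + l + i2 + 1) % 2 = 0 := by clear * - ev n1p n2p n3p; omega
            have r978 : (2 * i2 + l2 - k - l - i3) % 2 = 0 := by clear * - ev n1p n2p n3p; omega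
            clear * - al tt c D2 kk969 kk970 kk971 kk972 kk973 kk974 kk975 kk976 r977 r978
            exact midP al (2 * i2 + l2 - k - l - i3) (i + l + i2 + 1) (Q) (k + l + i3 - i2 - l2 + 1) (n + i2 - k - l - 1) (by omega) (fun t h1 h2 => (qa tt al 0 t ((i + l + i2 + 1) - t) (by omega))) (fun t h1 h2 => (qf (show Par W (k + l + i3 - i2 - l2 + 1) (n + i3 - i2 - l2 - 1) (2 * i2 + l2 - k - l - i3) from fun t h1 h2 => (cE (sh al (-1) t (t + (-n)) (by omega)) (cE (pb D2 al (-1) (t + (-n)) (t + (i2 + l2 - i3 + 1)) (by omega)) (pb c al 0 (t + (i2 + l2 - i3 + 1)) (t + (2 * i2 + l2 - k - l - i3)) (by omega))))) al 0 t (t + (2 * i2 + l2 - k - l - i3)) (by omega)))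
          · have kk979 : (k + l + i3 + 1) ≤ (2 * i2 + l2) := by clear * - v36 v38 z63; omega
            have kk980 : (2 * i + k + 3 * l + l2 + 6) ≤ (2 * n + i3) := by clear * - z63; omega
            have kk981 : (3 * k + 3 * l + i3 + 4) ≤ (2 * n + 2 * i2 + l2) := by clear * - b5 v36 v38 z63; omega
            have kk982 : (2 * i + 3 * k + 5 * l + l2 + 8) ≤ (4 * n + i3) := by clear * - b5 v36 v38 z63; omega
            have kk983 : (i2 + l2) ≤ (k + l) := by clear * - y20; omega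
            have kk984 : (n) ≤ (k + l + l2 + 2) := by clear * - b0 b5 v36 v38 y14 y21 z63; linarith
            have kk985 : (k + l + i3 + 1) ≤ (Q + i2 + l2) := by clear * - v36; omega
            have kk986 : (n + Q) ≤ (i + k + 2 * l + 3) := by clear * - v38; omega
            have r987 : (i + l + i2 + 1) % 2 = 0 := by clear * - ev n1p n2p n3p; omega
            have r988 : (2 * i2 + l2 - k - l - i3) % 2 = 0 := by clear * - ev n1p n2p n3p; omega
            clear * - al tt c D2 kk979 kk980 kk981 kk982 kk983 kk984 kk985 kk986 r987 r988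
            exact midP al (2 * i2 + l2 - k - l - i3) (i + l + i2 + 1) (i + k + 2 * l - n + 3) (k + l + i3 - i2 - l2 + 1) (n + i2 - k - l - 1) (by omega) (fun t h1 h2 => (qa tt al 0 t ((i + l + i2 + 1) - t) (by omega))) (fun t h1 h2 => (qf (show Par W (k + l + i3 - i2 - l2 + 1) (n + i3 - i2 - l2 - 1) (2 * i2 + l2 - k - l - i3) from fun t h1 h2 => (cE (sh al (-1) t (t + (-n)) (by omega)) (cE (pb D2 al (-1) (t + (-n)) (t + (i2 + l2 - i3 + 1)) (by omega)) (pb c al 0 (t + (i2 + l2 - i3 + 1)) (t + (2 * i2 + l2 - k - l - i3)) (by omega))))) al 0 t (t + (2 * i2 + l2 - k - l - i3)) (by omega)))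
      · have kk989 : (2 * i + l + 3) ≤ (k + i2) := by clear * - b0 b2 y1 y21 z62 z63; omega
        have kk990 : (2 * Q + k) ≤ (2 * i + l + i2 + 2) := by clear * - b4 z62 z63; omega
        have kk991 : (k) ≤ (i + l + 1) := by clear * - b1 b4 y14 y17 z63; omega
        have kk992 : (i + i2 + 1) ≤ (Q + k) := by clear * - b4 y18 z61; omega
        have r993 : (2 * i + l + i2 - k + 1) % 2 = 0 := by clear * - ev n1p n2p n3p; omega
        clear * - al b tt kk989 kk990 kk991 kk992 r993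
        obtain ⟨t, ht⟩ : ∃ t, 2 * t = (2 * i + l + i2 - k + 1) := ⟨(2 * i + l + i2 - k + 1) / 2, by omega⟩
        exact al.ninv t (cI (qf b al 0 t (t + (k - i)) (by omega)) (ab tt al 0 (t + (k - i)) t (by omega)))
    · by_cases z64 : (2 * k + l) ≤ (n + i)
      · have kk994 : (i2 + l2 + 1) ≤ (k + l) := by clear * - y20; omega
        have kk995 : (k + l + i3 + 1) ≤ (Q + i2 + l2) := by clear * - b4 z61 z62; omega
        have kk996 : (i + 1) ≤ (k) := by clear * - b2 b4 b5 b6 y21 z61 z62; linarith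
        have kk997 : (0) ≤ (l) := by clear * - b4 b5 y20 y21 z61 z62; omega
        have kk998 : (i + i2 + l2 + 1) ≤ (k + l + i3) := by clear * - y20 y21; omega
        have kk999 : (i3) ≤ (i2 + l2) := by clear * - b2 b4 b5 b6 y21 z61 z62; linarith
        have kk1000 : (i + 1) ≤ (i2) := by clear * - b4 y20 y21 z61 z62; omega
        have kk1001 : (i2) ≤ (k + l) := by clear * - b2 b4 b5 b6 y21 z61 z62; linarith
        have kk1002 : (2 * k + l) ≤ (n + i) := by clear * - z64; omega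
        have kk1003 : (i2 + l2) ≤ (k + l) := by clear * - y20; omega
        have kk1004 : (n) ≤ (k + l + l2 + 2) := by clear * - y13 y14; omega
        have kk1005 : (i + i2 + l2) ≤ (k + l + i3) := by clear * - y20 y21; omega
        have kk1006 : (i) ≤ (i2) := by clear * - b4 y20 y21 z61 z62; omega
        have kk1007 : (n + i3) ≤ (k + l + i2 + l2 + 2) := by clear * - b4 b5 z61 z62; omega
        have kk1008 : (n + i2) ≤ (2 * k + 2 * l + 2) := by clear * - b4 b5 z61 z62; omega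
        have r1009 : (2 * i2 + l2 - k - l - i3) % 2 = 0 := by clear * - ev n1p n2p n3p; omega
        have r1010 : (k - i) % 2 = 0 := by clear * - ev n1p n2p n3p; omega
        clear * - al b c D1 D2 n2 kk994 kk995 kk996 kk997 kk998 kk999 kk1000 kk1001 kk1002 kk1003 kk1004 kk1005 kk1006 kk1007 kk1008 r1009 r1010
        exact ivt0 (i - n + 1) (i + l - n + 1) (k - i) (k + l + i3 - n - i2 - l2 + 1) (i3 - i2 - l2 - 1) (2 * i2 + l2 - k - l - i3) (k + l + i3 - n - i2 - l2) (i2 - n) 0 (fun t h1 h2 => (cE (qf b al (-1) t (t + (n + k - i)) (by omega)) (sh al (-1) (t + (n + k - i)) (t + (k - i)) (by omega)))) (fun t h1 h2 => (cE (qf (show Par W (k + l + i3 - i2 - l2 + 1) (n + i3 - i2 - l2 - 1) (2 * i2 + l2 - k - l - i3) from fun t h1 h2 => (cE (sh al (-1) t (t + (-n)) (by omega)) (cE (pb D2 al (-1) (t + (-n)) (t + (i2 + l2 - i3 + 1)) (by omega)) (pb c al 0 (t + (i2 + l2 - i3 + 1)) (t + (2 * i2 + l2 - k - l - i3)) (by omega))))) al (-1) t (t + (n + 2 * i2 +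 l2 - k - l - i3)) (by omega)) (sh al (-1) (t + (n + 2 * i2 + l2 - k - l - i3)) (t + (2 * i2 + l2 - k - l - i3)) (by omega)))) (fun hh => n2.f1 (rEE (sh al (-1) (i2) (i2 - n) (by omega)) (cE (pb D1 al 0 (k + l + 1) (k + l + i3 - i2 - l2) (by omega)) (sh al (-1) (k + l + i3 - i2 - l2) (k + l + i3 - n - i2 - l2) (by omega))) (Eq.symm (Eq.symm hh)))) (by omega) (by omega)
      · by_cases z65 : (i + 4 * i2 + 2 * l2 + 1) ≤ (3 * k + 2 * l + 2 * i3)
        · by_cases z66 : (2 * Q + 3 * k + 2 * l + 2 * i3) ≤ (i + 6 * i2 + 2 * l2)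
          · by_cases v39 : (n + k + l + 2 * i3) ≤ (4 * i2 + 2 * l2 + 1)
            · have kk1011 : (i + 4 * i2 + 2 * l2 + 1) ≤ (3 * k + 2 * l + 2 * i3) := by clear * - z65; omega
              have kk1012 : (2 * Q + k + 2 * i2 + 2 * l2 + 2) ≤ (2 * n + i + 2 * i3) := by clear * - b4 z65; omega
              have kk1013 : (i + 8 * i2 + 4 * l2 + 4) ≤ (2 * n + 3 * k + 2 * l + 4 * i3) := by clear * - b4 v39 z62 z65; omega
              have kk1014 : (3 * i + 10 * i2 + 6 * l2 + 8) ≤ (4 * n + 3 * k + 6 * i3) := by clear * - b2 b6 y21 z62 z65; omega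
              have kk1015 : (i2 + l2) ≤ (k + l) := by clear * - y20; omega
              have kk1016 : (n) ≤ (k + l + l2 + 2) := by clear * - b0 b5 v39 y14 y21 z65 z66; linarith
              have kk1017 : (i2) ≤ (i + l + 1) := by clear * - b5 z62 z65 z66; omega
              have kk1018 : (i + 1) ≤ (Q) := by clear * - y20 y21 z62 z65 z66; omega
              have kk1019 : (k + l + i3) ≤ (2 * i2 + l2) := by clear * - z62 z65 z66; omega
              have kk1020 : (i + i2 + l2) ≤ (k + l + i3) := by clear * - y20 y21; omega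
              have kk1021 : (n + k + 2 * i3) ≤ (i + 3 * i2 + 2 * l2 + 2) := by clear * - b5 v39 z62 z65 z66; omega
              have kk1022 : (n + i3) ≤ (i + l + i2 + l2 + 2) := by clear * - b5 v39 ev n1p n2p n3p; omega
              have kk1023 : (n + k + l + 2 * i3) ≤ (4 * i2 + 2 * l2 + 1) := by clear * - v39; omega
              have r1024 : (k + l + i2 - 2 * n + 1) % 2 = 0 := by clear * - ev n1p n2p n3p; omega
              have r1025 : (3 * k + 2 * l + 2 * i3 - i - 4 * i2 - 2 * l2) % 2 = 0 := by clear * - ev n1p n2p n3p; omega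
              clear * - al b tt c D2 kk1011 kk1012 kk1013 kk1014 kk1015 kk1016 kk1017 kk1018 kk1019 kk1020 kk1021 kk1022 kk1023 r1024 r1025
              exact midP al (3 * k + 2 * l + 2 * i3 - i - 4 * i2 - 2 * l2) (k + l + i2 - 2 * n + 1) (i + 4 * i2 + 2 * l2 - 2 * n - k - 2 * i3 + 3) (3 * i2 + l2 - n - k - l - i3 + 1) (2 * k + l + 2 * i3 - i - 3 * i2 - 2 * l2 - 1) (by omega) (fun t h1 h2 => (cE (cE (ab tt al (-1) t ((i + l + i2 - n + 1) - t) (by omega)) (qf b al 0 ((i + l + i2 - n + 1) - t) ((k + l + i2 - n + 1) - t) (by omega))) (sh al (-1) ((k + l + i2 - n + 1) - t) ((k + l + i2 - 2 * n + 1) - t) (by omega)))) (fun t h1 h2 => (cE (cE (cE (pb (show Par W (k + l + i3 - i2 - l2 + 1) (n + i3 - i2 - l2 - 1) (2 * i2 + l2 - k - l - i3) from fun t h1 h2 => (cE (sh al (-1) t (t + (-n)) (by omega)) (cE (pb D2 al (-1) (t + (-n)) (t + (i2 + l2 - i3 + 1)) (by omega)) (pb c al 0 (t + (i2 + l2 - i3 + 1)) (t + (2 * i2 + l2 - k - l - i3)) (by omega))))) al (-1)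 t (t + (n + k + l + i3 - 2 * i2 - l2)) (by omega)) (pb (show Par W (k + l + i3 - i2 - l2 + 1) (n + i3 - i2 - l2 - 1) (2 * i2 + l2 - k - l - i3) from fun t h1 h2 => (cE (sh al (-1) t (t + (-n)) (by omega)) (cE (pb D2 al (-1) (t + (-n)) (t + (i2 + l2 - i3 + 1)) (by omega)) (pb c al 0 (t + (i2 + l2 - i3 + 1)) (t + (2 * i2 + l2 - k - l - i3)) (by omega))))) al 0 (t + (n + k + l + i3 - 2 * i2 - l2)) (t + (n + 2 * k + 2 * l + 2 * i3 - 4 * i2 - 2 * l2)) (by omega))) (qf b al 0 (t + (n + 2 * k + 2 * l + 2 * i3 - 4 * i2 - 2 * l2)) (t + (n + 3 * k + 2 * l + 2 * i3 - i - 4 * i2 - 2 * l2)) (by omega))) (sh al (-1) (t + (n + 3 * k + 2 * l + 2 * i3 - i - 4 * i2 - 2 * l2)) (t + (3 * k + 2 * l + 2 * i3 - i - 4 * i2 - 2 * l2)) (by omega))))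
            · have kk1026 : (i + 4 * i2 + 2 * l2 + 1) ≤ (3 * k + 2 * l + 2 * i3) := by clear * - z65; omega
              have kk1027 : (2 * Q + 3 * k + 2 * l + 2 * i3) ≤ (i + 6 * i2 + 2 * l2) := by clear * - z66; omega
              have kk1028 : (i + 2) ≤ (k) := by clear * - z62 z65 z66; omega
              have kk1029 : (3 * i + 2 * l + 2 * i2 + 2 * l2 + 6) ≤ (2 * n + k + 2 * i3) := by clear * - b2 b6 v39 y21 z62 z64; omega
              have kk1030 : (i2 + l2) ≤ (k + l) := by clear * - y20; omega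
              have kk1031 : (n) ≤ (k + l + l2 + 2) := by clear * - y13 y14; omega
              have kk1032 : (i2) ≤ (i + l + 1) := by clear * - b5 z62 z65 z66; omega
              have kk1033 : (i + 1) ≤ (Q) := by clear * - y20 y21 z62 z65 z66; omega
              have kk1034 : (k + l + i3) ≤ (2 * i2 + l2) := by clear * - z62 z65 z66; omega
              have kk1035 : (i + i2 + l2) ≤ (k + l + i3) := by clear * - y20 y21; omega
              have kk1036 : (n + k + 2 * i3) ≤ (i + 3 * i2 + 2 * l2 + 2) := by clear * - b5 z62 z64 z66; omega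
              have kk1037 : (4 * i2 + 2 * l2 + 1) ≤ (n + k + l + 2 * i3) := by clear * - v39; omega
              have kk1038 : (3 * i2 + l2) ≤ (i + k + 2 * l + i3 + 1) := by clear * - b5 ev n1p n2p n3p; omega
              have r1039 : (k + l + i2 - 2 * n + 1) % 2 = 0 := by clear * - ev n1p n2p n3p; omega
              have r1040 : (3 * k + 2 * l + 2 * i3 - i - 4 * i2 - 2 * l2) % 2 = 0 := by clear * - ev n1p n2p n3p; omega
              clear * - al b tt c D2 kk1026 kk1027 kk1028 kk1029 kk1030 kk1031 kk1032 kk1033 kk1034 kk1035 kk1036 kk1037 kk1038 r1039 r1040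
              exact midP al (3 * k + 2 * l + 2 * i3 - i - 4 * i2 - 2 * l2) (k + l + i2 - 2 * n + 1) (i + l - n + 2) (3 * i2 + l2 - n - k - l - i3 + 1) (2 * k + l + 2 * i3 - i - 3 * i2 - 2 * l2 - 1) (by omega) (fun t h1 h2 => (cE (cE (ab tt al (-1) t ((i + l + i2 - n + 1) - t) (by omega)) (qf b al 0 ((i + l + i2 - n + 1) - t) ((k + l + i2 - n + 1) - t) (by omega))) (sh al (-1) ((k + l + i2 - n + 1) - t) ((k + l + i2 - 2 * n + 1) - t) (by omega)))) (fun t h1 h2 => (cE (cE (cE (pb (show Par W (k + l + i3 - i2 - l2 + 1) (n + i3 - i2 - l2 - 1) (2 * i2 + l2 - k - l - i3) from fun t h1 h2 => (cE (sh al (-1) t (t + (-n)) (by omega)) (cE (pb D2 al (-1) (t + (-n)) (t + (i2 + l2 - i3 + 1)) (by omega)) (pb c al 0 (t + (i2 + l2 - i3 + 1)) (t + (2 * i2 + l2 - k - l - i3)) (by omega))))) al (-1) t (t + (n + k + l + i3 - 2 * i2 - l2)) (by omega)) (pb (show Par W (k + l + i3 - i2 - l2 + 1) (n + i3 - i2 - l2 - 1) (2 * i2 + l2 - k - l - i3) from fun t h1 h2 => (cE (sh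 al (-1) t (t + (-n)) (by omega)) (cE (pb D2 al (-1) (t + (-n)) (t + (i2 + l2 - i3 + 1)) (by omega)) (pb c al 0 (t + (i2 + l2 - i3 + 1)) (t + (2 * i2 + l2 - k - l - i3)) (by omega))))) al 0 (t + (n + k + l + i3 - 2 * i2 - l2)) (t + (n + 2 * k + 2 * l + 2 * i3 - 4 * i2 - 2 * l2)) (by omega))) (qf b al 0 (t + (n + 2 * k + 2 * l + 2 * i3 - 4 * i2 - 2 * l2)) (t + (n + 3 * k + 2 * l + 2 * i3 - i - 4 * i2 - 2 * l2)) (by omega))) (sh al (-1) (t + (n + 3 * k + 2 * l + 2 * i3 - i - 4 * i2 - 2 * l2)) (t + (3 * k + 2 * l + 2 * i3 - i - 4 * i2 - 2 * l2)) (by omega))))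
          · by_cases z67 : (i + i2 + l2 + i3 + 2) ≤ (2 * Q + k)
            · have kk1041 : (i + i2 + l2 + i3 + 3) ≤ (2 * Q + k) := by clear * - z67 ev n1p n2p n3p; omega
              have kk1042 : (3 * k + 2 * l + l2 + 4) ≤ (2 * n + i + i2 + i3) := by clear * - b1 b4 b5; omega
              have kk1043 : (Q) ≤ (l2 + i3 + 1) := by clear * - b0 b4 b5 y14 y21 z64; omega
              have kk1044 : (Q) ≤ (i + l + 1) := by clear * - b4 b5 z62 z64; omega
              have kk1045 : (n + i3) ≤ (k + l + l2 + 2) := by clear * - y14; omega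
              have kk1046 : (n + i) ≤ (k + l + l2 + 2) := by clear * - y14 y21; omega
              have r1047 : (k + i2 + l2 + i3 - i + 1) % 2 = 0 := by clear * - ev n1p n2p n3p; omega
              clear * - al b c u2 kk1041 kk1042 kk1043 kk1044 kk1045 kk1046 r1047
              obtain ⟨t, ht⟩ : ∃ t, 2 * t = (k + i2 + l2 + i3 - i + 1) := ⟨(k + i2 + l2 + i3 - i + 1) / 2, by omega⟩
              exact al.ninv t (cE (cI (qf c al 0 t (t + (k + l - i2 + 1)) (by omega)) (ab u2 al 1 (t + (k + l - i2 + 1)) ((i2 + l2 + i3 + 1) - t) (by omega))) (qf b al 0 ((i2 + l2 + i3 + 1) - t) t (by omega)))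
            · have kk1048 : (i2 + l2 + 1) ≤ (k + l) := by clear * - y20; omega
              have kk1049 : (k + l + i3 + 1) ≤ (Q + i2 + l2) := by clear * - b4 z62 z64; omega
              have kk1050 : (i + 1) ≤ (k) := by clear * - b4 z62 z64 z66; omega
              have kk1051 : (0) ≤ (l) := by clear * - b4 y20 y21 z62 z64 z67; omega
              have kk1052 : (i + i2 + l2 + 1) ≤ (k + l + i3) := by clear * - y20 y21; omega
              have kk1053 : (i3) ≤ (i2 + l2) := by clear * - b4 b5 z62 z64 z66; omega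
              have kk1054 : (i + 1) ≤ (i2) := by clear * - b4 y20 y21 z62 z64; omega
              have kk1055 : (i2) ≤ (k + l) := by clear * - b4 b5 z62 z64 z66; omega
              have kk1056 : (Q + 2 * k + l) ≤ (n + i + i2) := by clear * - b4; omega
              have kk1057 : (i2 + l2) ≤ (k + l) := by clear * - y20; omega
              have kk1058 : (n) ≤ (k + l + l2 + 2) := by clear * - b4 b5 z62 z64 z67; omega
              have kk1059 : (i + i2 + l2) ≤ (k + l + i3) := by clear * - y20 y21; omega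
              have kk1060 : (i) ≤ (i2) := by clear * - b4 y20 y21 z62 z64; omega
              have kk1061 : (n + i3) ≤ (k + l + i2 + l2 + 2) := by clear * - b4 b5 z62 z64; omega
              have kk1062 : (n + i2) ≤ (2 * k + 2 * l + 2) := by clear * - b4 b5 z62 z64; omega
              have kk1063 : (i + 1) ≤ (Q) := by clear * - b4 y20 y21 z62 z64; omega
              have kk1064 : (i + i2 + 1) ≤ (Q + k) := by clear * - b4 z62 z64 z66; omega
              have kk1065 : (0) ≤ (l + 1) := by clear * - b4 y20 y21 z62 z64 z67; omega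
              have kk1066 : (i2) ≤ (k + l + 1) := by clear * - b4 b5 z62 z64 z66; omega
              have r1067 : (2 * i2 + l2 - k - l - i3) % 2 = 0 := by clear * - ev n1p n2p n3p; omega
              have r1068 : (k - i) % 2 = 0 := by clear * - ev n1p n2p n3p; omega
              have r1069 : (i + l + i2 - 2 * n + 1) % 2 = 0 := by clear * - ev n1p n2p n3p; omega
              clear * - al b tt c D1 D2 n2 kk1048 kk1049 kk1050 kk1051 kk1052 kk1053 kk1054 kk1055 kk1056 kk1057 kk1058 kk1059 kk1060 kk1061 kk1062 kk1063 kk1064 kk1065 kk1066 r1067 r1068 r1069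
              exact ivt al.ninv (i - n + 1) (i + l - n + 1) (k - i) (k + l + i3 - n - i2 - l2 + 1) (i3 - i2 - l2 - 1) (2 * i2 + l2 - k - l - i3) (k + l + i3 - n - i2 - l2) (i2 - n) 0 (fun t h1 h2 => (cE (qf b al (-1) t (t + (n + k - i)) (by omega)) (sh al (-1) (t + (n + k - i)) (t + (k - i)) (by omega)))) (fun t h1 h2 => (cE (qf (show Par W (k + l + i3 - i2 - l2 + 1) (n + i3 - i2 - l2 - 1) (2 * i2 + l2 - k - l - i3) from fun t h1 h2 => (cE (sh al (-1) t (t + (-n)) (by omega)) (cE (pb D2 al (-1) (t + (-n)) (t + (i2 + l2 - i3 + 1)) (by omega)) (pb c al 0 (t + (i2 + l2 - i3 + 1)) (t + (2 * i2 + l2 - k - l - i3)) (by omega))))) al (-1) t (t + (n + 2 * i2 + l2 - k - l - i3)) (by omega)) (sh al (-1) (t + (n + 2 * i2 + l2 - k - l - i3)) (t + (2 * i2 + l2 - k - l - i3)) (by omega)))) (fun hh => n2.f1 (rEE (sh al (-1) (i2) (i2 - n) (by omega)) (cE (pb D1 al 0 (k + l + 1) (k + l + i3 - i2 - l2) (by omega)) (sh al (-1) (k + l + i3 - i2 - l2) (k + l + i3 - n -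 i2 - l2) (by omega))) (Eq.symm (Eq.symm hh)))) (by omega) (Q - n) (i2 - n) (i + l + i2 - 2 * n + 1) 1 (-1) (fun t h1 h2 => (cE (qa tt al (-1) t ((i + l + i2 - n + 1) - t) (by omega)) (sh al (-1) ((i + l + i2 - n + 1) - t) ((i + l + i2 - 2 * n + 1) - t) (by omega)))) (by omega)
        · by_cases z68 : (2 * i + i2 + l2 + 1) ≤ (2 * k + i3)
          · have kk1070 : (k + i3) ≤ (2 * i + l) := by clear * - b5 y20 z65 ev n1p n2p n3p; omega
            have kk1071 : (2 * i + l + i2 + l2 + 3) ≤ (n + k + i3) := by clear * - b4 b5 z62 z64 z68; omega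
            have kk1072 : (2 * k + i3) ≤ (2 * i + i2 + l2 + 1) := by clear * - b5 z65 ev n1p n2p n3p; omega
            have kk1073 : (2 * i + i2 + l2 + 1) ≤ (2 * k + i3) := by clear * - z68; omega
            have kk1074 : (i) ≤ (i3) := by clear * - y21; omega
            have kk1075 : (n + i3) ≤ (i + l + i2 + l2 + 2) := by clear * - b5 z64 z65; omega
            clear * - al b D2 n2 kk1070 kk1071 kk1072 kk1073 kk1074 kk1075
            exact n2.f0 (cE (pb b al 0 (i + l + 1) (2 * i + l - k + 1) (by omega)) (pb D2 al 0 (2 * i + l - k + 1) (k + l + 1) (by omega)))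
          · by_cases z69 : (3 * k + 2 * l + 2 * i3 + 1) ≤ (i + 4 * i2 + 2 * l2)
            · by_cases z70 : (3 * k + l + 2) ≤ (n + i + j + i2)
              · by_cases z71 : (2 * k + l + i3 + 1) ≤ (Q + 2 * i2 + l2)
                · by_cases v40 : (i2) ≤ (k)
                  · have kk1076 : (i + 2 * i2 + l2 + 1) ≤ (2 * k + l + i3) := by clear * - b2 b5 v40 y21 z64 z70; omega
                    have kk1077 : (2 * k + l + i3 + 1) ≤ (n + i + 2 * i2 + l2) := by clear * - b1 b2 b5 b6 v40 y21 z64 z69 z71; linarith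
                    have kk1078 : (2 * k + l + i3 + 1) ≤ (Q + 2 * i2 + l2) := by clear * - z71; omega
                    have kk1079 : (Q + 2 * k + l + 1) ≤ (n + i + i2) := by clear * - b4; omega
                    have kk1080 : (i2 + l2) ≤ (k + l) := by clear * - b2 b5 z64 z70; omega
                    have kk1081 : (n) ≤ (k + l + l2 + 2) := by clear * - v40 y21 z64 z68; omega
                    have kk1082 : (i2) ≤ (k) := by clear * - v40; omega
                    have kk1083 : (n + i2) ≤ (2 * k + 2 * l + 2) := by clear * - b4 b5 v40 z64 z71; omega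
                    clear * - al b c D2 kk1076 kk1077 kk1078 kk1079 kk1080 kk1081 kk1082 kk1083
                    exact al.ubQ (2 * k + l + i3 - i - 2 * i2 - l2) (by omega) (by omega) fun t h1 h2 => (cE (sh al (-1) t (t + (-n)) (by omega)) (cE (qf b al (-1) (t + (-n)) (t + (k - i)) (by omega)) (pb (show Par W (k + l + i3 - i2 - l2 + 1) (n + i3 - i2 - l2 - 1) (2 * i2 + l2 - k - l - i3) from fun t h1 h2 => (cE (sh al (-1) t (t + (-n)) (by omega)) (cE (pb D2 al (-1) (t + (-n)) (t + (i2 + l2 - i3 + 1)) (by omega)) (pb c al 0 (t + (i2 + l2 - i3 + 1)) (t + (2 * i2 + l2 - k - l - i3)) (by omega))))) al 0 (t + (k - i)) (t + (2 * k + l + i3 - i - 2 * i2 - l2)) (by omega))))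
                  · have kk1084 : (i + 2 * i2 + l2 + 1) ≤ (2 * k + l + i3) := by clear * - b2 b5 b6 y21 z62 z64; omega
                    have kk1085 : (2 * k + l + i3 + 1) ≤ (n + i + 2 * i2 + l2) := by clear * - b1 b2 b5 b6 y21 z62 z64 z69; linarith
                    have kk1086 : (k + l + i3 + 1) ≤ (Q + i2 + l2) := by clear * - b4 z62 z64; omega
                    have kk1087 : (Q + 2 * k + l + 1) ≤ (n + i + i2) := by clear * - b4; omega
                    have kk1088 : (i2 + l2) ≤ (k + l) := by clear * - b2 b5 z64 z70; omega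
                    have kk1089 : (n) ≤ (k + l + l2 + 2) := by clear * - b0 b4 b5 v40 y14 z64; omega
                    have kk1090 : (k) ≤ (i2) := by clear * - v40; omega
                    have kk1091 : (n + i2) ≤ (2 * k + 2 * l + 2) := by clear * - b4 b5 z62 z64; omega
                    clear * - al b c D2 kk1084 kk1085 kk1086 kk1087 kk1088 kk1089 kk1090 kk1091
                    exact al.ubQ (2 * k + l + i3 - i - 2 * i2 - l2) (by omega) (by omega) fun t h1 h2 => (cE (sh al (-1) t (t + (-n)) (by omega)) (cE (qf b al (-1) (t + (-n)) (t + (k - i)) (by omega)) (pb (show Par W (k + l + i3 - i2 - l2 + 1) (n + i3 - i2 - l2 - 1) (2 * i2 + l2 - k - l - i3) from fun t h1 h2 => (cE (sh al (-1) t (t + (-n)) (by omega)) (cE (pb D2 al (-1) (t + (-n)) (t + (i2 + l2 - i3 + 1)) (by omega)) (pb c al 0 (t + (i2 + l2 - i3 + 1)) (t + (2 * i2 + l2 - k - l - i3)) (by omega))))) al 0 (t + (k - i)) (t + (2 * k + l + i3 - i - 2 * i2 - l2)) (by omega))))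
                · by_cases v41 : (i2 + 2 * l2 + 2) ≤ (n + i3)
                  · by_cases v42 : (i + j + i2 + l2 + i3 + 2) ≤ (Q + 2 * k)
                    · have kk1092 : (3 * k + l + 2) ≤ (n + i + j + i2) := by clear * - z70; omega
                      have kk1093 : (n + 3 * k + l) ≤ (i + j + 3 * i2 + 4 * l2 + 3) := by clear * - y21 z62 z64 z68 z69 z70 z71; linarith
                      have kk1094 : (11 * k + 3 * l) ≤ (n + 3 * i + 5 * j + 7 * i2 + 4 * l2 + 3) := by clear * - y21 z62 z64 z68 z69 z70 z71; linarith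
                      have kk1095 : (3 * k + l + 1) ≤ (n + i + 3 * j + i2) := by clear * - b4 z62 z64 z70 z71; omega
                      have kk1096 : (i2 + l2) ≤ (k + l) := by clear * - b4 b5 v42 z64 z70; omega
                      have kk1097 : (n) ≤ (k + l + l2 + 2) := by clear * - v42 y21 z62 z64 z68 z69 z70 z71; linarith
                      have kk1098 : (i2) ≤ (k) := by clear * - b4 z62 z64 z71; omega
                      have kk1099 : (2 * k + l + 1) ≤ (n + i2) := by clear * - v42 y21 z62 z64 z68 z69 z70 z71; linarith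
                      have kk1100 : (Q + 2 * i2 + l2) ≤ (2 * k + l + i3) := by clear * - z71; omega
                      have kk1101 : (i2 + 2 * l2 + 2) ≤ (n + i3) := by clear * - v41; omega
                      have kk1102 : (k) ≤ (j + i2 + 1) := by clear * - z64 z70; omega
                      have kk1103 : (i + j + 1) ≤ (k) := by clear * - v42 y21 z62 z64 z68 z69 z70 z71; linarith
                      have kk1104 : (2 * k) ≤ (i + i2 + l2 + 1) := by clear * - y21 z68; omega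
                      have kk1105 : (i + j + 3 * i2 + 2 * l2 + 2) ≤ (4 * k + l) := by clear * - v42 z71; omega
                      have kk1106 : (i + j + i2 + l2 + i3 + 2) ≤ (Q + 2 * k) := by clear * - v42; omega
                      have r1107 : (j + 2 * i2 + 2 * l2 - n - k + 2) % 2 = 0 := by clear * - ev n1p n2p n3p; omega
                      have r1108 : (n + i + j + i2 - 3 * k - l - 1) % 2 = 0 := by clear * - ev n1p n2p n3p; omega
                      clear * - al a1 b c u2 D2 kk1092 kk1093 kk1094 kk1095 kk1096 kk1097 kk1098 kk1099 kk1100 kk1101 kk1102 kk1103 kk1104 kk1105 kk1106 r1107 r1108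
                      exact midP al (n + i + j + i2 - 3 * k - l - 1) (j + 2 * i2 + 2 * l2 - n - k + 2) (3 * k + l - n - i - j - i2 + 1) (3 * k + l - n - i - j - i2 + 1) (j) (by omega) (fun t h1 h2 => (cE (cE (ab u2 al 0 t ((k + l + l2 + i3 - n + 2) - t) (by omega)) (qf (show Par W (k + l + i3 - i2 - l2 + 1) (n + i3 - i2 - l2 - 1) (2 * i2 + l2 - k - l - i3) from fun t h1 h2 => (cE (sh al (-1) t (t + (-n)) (by omega)) (cE (pb D2 al (-1) (t + (-n)) (t + (i2 + l2 - i3 + 1)) (by omega)) (pb c al 0 (t + (i2 + l2 - i3 + 1)) (t + (2 * i2 + l2 - k - l - i3)) (by omega))))) al 0 ((k + l + l2 + i3 - n + 2) - t) ((2 * i2 + 2 * l2 - n + 2) - t) (by omega))) (pb a1 al 0 ((2 * i2 + 2 * l2 - n + 2) - t) ((j + 2 * i2 + 2 * l2 - n - k + 2) - t) (by omega)))) (fun t h1 h2 => (cE (qf (show Par W (2 * k + l - i2 + 2) (k + l + l2 + 2) (n + i + i2 - 2 * k - l - 1) from fun t h1 h2 => (cE (sh al (-1) t (t + (-n)) (by omega)) (cE (cE (pb c al (-1) (t + (-n)) (t + (i2 - k -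 l - 1)) (by omega)) (pb b al 0 (t + (i2 - k - l - 1)) (t + (i + i2 - 2 * k - l - 1)) (by omega))) (sh al 1 (t + (i + i2 - 2 * k - l - 1)) (t + (n + i + i2 - 2 * k - l - 1)) (by omega))))) al (-1) t (t + (2 * n + i + i2 - 2 * k - l - 1)) (by omega)) (pb a1 al 1 (t + (2 * n + i + i2 - 2 * k - l - 1)) (t + (n + i + j + i2 - 3 * k - l - 1)) (by omega))))
                    · have kk1109 : (3 * k + l + 2) ≤ (n + i + j + i2) := by clear * - z70; omega
                      have kk1110 : (n + i + j + l + 2 * i3 + 1) ≤ (2 * Q + k + i2 + 2 * l2) := by clear * - b2 y21 z62 z64 z68 z69 z71; linarith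
                      have kk1111 : (7 * k + 3 * l + 2 * i3 + 1) ≤ (n + 2 * Q + i + 3 * j + 5 * i2 + 2 * l2) := by clear * - b4 z62 z64 z70; omega
                      have kk1112 : (i + l + i2 + 2 * l2 + 2 * i3 + 5) ≤ (n + 2 * Q + j + k) := by clear * - b2 z62 z64 z70 z71; omega
                      have kk1113 : (i2 + l2) ≤ (k + l) := by clear * - b2 b5 z64 z70; omega
                      have kk1114 : (n) ≤ (k + l + l2 + 2) := by clear * - b4 y21 z62 z64 z68 z71; omega
                      have kk1115 : (i2) ≤ (k) := by clear * - b4 z62 z64 z71; omega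
                      have kk1116 : (2 * k + l + 1) ≤ (n + i2) := by clear * - b2 v42 y21 z62 z64 z68 z70 z71; linarith
                      have kk1117 : (Q + 2 * i2 + l2) ≤ (2 * k + l + i3) := by clear * - z71; omega
                      have kk1118 : (i2 + 2 * l2 + 2) ≤ (n + i3) := by clear * - v41; omega
                      have kk1119 : (k) ≤ (j + i2 + 1) := by clear * - z64 z70; omega
                      have kk1120 : (i + j + 1) ≤ (k) := by clear * - b2 v42 y21 z62 z64 z68 z71; linarith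
                      have kk1121 : (2 * k) ≤ (i + i2 + l2 + 1) := by clear * - y21 z68; omega
                      have kk1122 : (Q + 2 * k) ≤ (i + j + i2 + l2 + i3 + 2) := by clear * - v42; omega
                      have r1123 : (j + 2 * i2 + 2 * l2 - n - k + 2) % 2 = 0 := by clear * - ev n1p n2p n3p; omega
                      have r1124 : (n + i + j + i2 - 3 * k - l - 1) % 2 = 0 := by clear * - ev n1p n2p n3p; omega
                      clear * - al a1 b c u2 D2 kk1109 kk1110 kk1111 kk1112 kk1113 kk1114 kk1115 kk1116 kk1117 kk1118 kk1119 kk1120 kk1121 kk1122 r1123 r1124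
                      exact midP al (n + i + j + i2 - 3 * k - l - 1) (j + 2 * i2 + 2 * l2 - n - k + 2) (k + l + l2 + i3 - n - Q + 3) (3 * k + l - n - i - j - i2 + 1) (j) (by omega) (fun t h1 h2 => (cE (cE (ab u2 al 0 t ((k + l + l2 + i3 - n + 2) - t) (by omega)) (qf (show Par W (k + l + i3 - i2 - l2 + 1) (n + i3 - i2 - l2 - 1) (2 * i2 + l2 - k - l - i3) from fun t h1 h2 => (cE (sh al (-1) t (t + (-n)) (by omega)) (cE (pb D2 al (-1) (t + (-n)) (t + (i2 + l2 - i3 + 1)) (by omega)) (pb c al 0 (t + (i2 + l2 - i3 + 1)) (t + (2 * i2 + l2 - k - l - i3)) (by omega))))) al 0 ((k + l + l2 + i3 - n + 2) - t) ((2 * i2 + 2 * l2 - n + 2) - t) (by omega))) (pb a1 al 0 ((2 * i2 + 2 * l2 - n + 2) - t) ((j + 2 * i2 + 2 * l2 - n - k + 2) - t) (by omega)))) (fun t h1 h2 => (cE (qf (show Par W (2 * k + l - i2 + 2) (k + l + l2 + 2) (n + i + i2 - 2 * k - l - 1) from fun t h1 h2 => (cE (sh al (-1) t (t + (-n)) (by omega)) (cE (cE (pb c al (-1) (t + (-n)) (t + (i2 - k - l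 - 1)) (by omega)) (pb b al 0 (t + (i2 - k - l - 1)) (t + (i + i2 - 2 * k - l - 1)) (by omega))) (sh al 1 (t + (i + i2 - 2 * k - l - 1)) (t + (n + i + i2 - 2 * k - l - 1)) (by omega))))) al (-1) t (t + (2 * n + i + i2 - 2 * k - l - 1)) (by omega)) (pb a1 al 1 (t + (2 * n + i + i2 - 2 * k - l - 1)) (t + (n + i + j + i2 - 3 * k - l - 1)) (by omega))))
                  · by_cases v43 : (i + j + i2 + l2 + i3 + 2) ≤ (Q + 2 * k)
                    · have kk1125 : (3 * k + l + 2) ≤ (n + i + j + i2) := by clear * - z70; omega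
                      have kk1126 : (3 * k + l + 1) ≤ (n + i + j + i2 + 2 * i3) := by clear * - b1 y21 z68 z70 z71; omega
                      have kk1127 : (11 * k + 3 * l) ≤ (n + 3 * i + 5 * j + 7 * i2 + 4 * l2 + 3) := by clear * - y21 z62 z64 z68 z69 z70 z71; linarith
                      have kk1128 : (3 * k + l + 1) ≤ (n + i + 3 * j + i2) := by clear * - b4 z62 z64 z70 z71; omega
                      have kk1129 : (i2 + l2) ≤ (k + l) := by clear * - b4 b5 v43 z64 z70; omega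
                      have kk1130 : (n) ≤ (k + l + l2 + 2) := by clear * - b1 b4 b5 v41 z64; omega
                      have kk1131 : (i2) ≤ (k) := by clear * - b4 z62 z64 z71; omega
                      have kk1132 : (2 * k + l + 1) ≤ (n + i2) := by clear * - v43 y21 z62 z64 z68 z69 z70 z71; linarith
                      have kk1133 : (Q + 2 * i2 + l2) ≤ (2 * k + l + i3) := by clear * - z71; omega
                      have kk1134 : (n + i3) ≤ (i2 + 2 * l2 + 2) := by clear * - v41; omega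
                      have kk1135 : (n + k + i3) ≤ (j + 2 * i2 + 2 * l2 + 3) := by clear * - v41 z64 z70; omega
                      have kk1136 : (i + j + 1) ≤ (k) := by clear * - v43 y21 z62 z64 z68 z69 z70 z71; linarith
                      have kk1137 : (2 * k) ≤ (i + i2 + l2 + 1) := by clear * - y21 z68; omega
                      have kk1138 : (i + j + 3 * i2 + 2 * l2 + 2) ≤ (4 * k + l) := by clear * - v43 z71; omega
                      have kk1139 : (i + j + i2 + l2 + i3 + 2) ≤ (Q + 2 * k) := by clear * - v43; omega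
                      have r1140 : (j + 2 * i2 + 2 * l2 - n - k + 2) % 2 = 0 := by clear * - ev n1p n2p n3p; omega
                      have r1141 : (n + i + j + i2 - 3 * k - l - 1) % 2 = 0 := by clear * - ev n1p n2p n3p; omega
                      clear * - al a1 b c u2 D2 kk1125 kk1126 kk1127 kk1128 kk1129 kk1130 kk1131 kk1132 kk1133 kk1134 kk1135 kk1136 kk1137 kk1138 kk1139 r1140 r1141
                      exact midP al (n + i + j + i2 - 3 * k - l - 1) (j + 2 * i2 + 2 * l2 - n - k + 2) (3 * k + l - n - i - j - i2 + 1) (3 * k + l - n - i - j - i2 + 1) (j) (by omega) (fun t h1 h2 => (cE (cE (ab u2 al 0 t ((k + l + l2 + i3 - n + 2) - t) (by omega)) (qf (show Par W (k + l + i3 - i2 - l2 + 1) (n + i3 - i2 - l2 - 1) (2 * i2 + l2 - k - l - i3) from fun t h1 h2 => (cE (sh al (-1) t (t + (-n)) (by omega)) (cE (pb D2 al (-1) (t + (-n)) (t + (i2 + l2 - i3 + 1)) (by omega)) (pb c al 0 (t + (i2 + l2 - i3 + 1)) (t + (2 * i2 + l2 - k - l - i3)) (by omega)))))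 al 0 ((k + l + l2 + i3 - n + 2) - t) ((2 * i2 + 2 * l2 - n + 2) - t) (by omega))) (pb a1 al 0 ((2 * i2 + 2 * l2 - n + 2) - t) ((j + 2 * i2 + 2 * l2 - n - k + 2) - t) (by omega)))) (fun t h1 h2 => (cE (qf (show Par W (2 * k + l - i2 + 2) (k + l + l2 + 2) (n + i + i2 - 2 * k - l - 1) from fun t h1 h2 => (cE (sh al (-1) t (t + (-n)) (by omega)) (cE (cE (pb c al (-1) (t + (-n)) (t + (i2 - k - l - 1)) (by omega)) (pb b al 0 (t + (i2 - k - l - 1)) (t + (i + i2 - 2 * k - l - 1)) (by omega))) (sh al 1 (t + (i + i2 - 2 * k - l - 1)) (t + (n + i + i2 - 2 * k - l - 1)) (by omega))))) al (-1) t (t + (2 * n + i + i2 - 2 * k - l - 1)) (by omega)) (pb a1 al 1 (t + (2 * n + i + i2 - 2 * k - l - 1)) (t + (n + i + j + i2 - 3 * k - l - 1)) (by omega))))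
                    · have kk1142 : (3 * k + l + 2) ≤ (n + i + j + i2) := by clear * - z70; omega
                      have kk1143 : (i + j + l + i2 + 2 * l2 + 5) ≤ (n + 2 * Q + k) := by clear * - b1 b2 b5; omega
                      have kk1144 : (7 * k + 3 * l + 2 * i3 + 1) ≤ (n + 2 * Q + i + 3 * j + 5 * i2 + 2 * l2) := by clear * - b4 z62 z64 z70; omega
                      have kk1145 : (i + l + i2 + 2 * l2 + 2 * i3 + 5) ≤ (n + 2 * Q + j + k) := by clear * - b2 z62 z64 z70 z71; omega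
                      have kk1146 : (i2 + l2) ≤ (k + l) := by clear * - b2 b5 z64 z70; omega
                      have kk1147 : (n) ≤ (k + l + l2 + 2) := by clear * - b1 b4 b5 v41 z64; omega
                      have kk1148 : (i2) ≤ (k) := by clear * - b4 z62 z64 z71; omega
                      have kk1149 : (2 * k + l + 1) ≤ (n + i2) := by clear * - b2 v43 y21 z62 z64 z68 z70 z71; linarith
                      have kk1150 : (Q + 2 * i2 + l2) ≤ (2 * k + l + i3) := by clear * - z71; omega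
                      have kk1151 : (n + i3) ≤ (i2 + 2 * l2 + 2) := by clear * - v41; omega
                      have kk1152 : (n + k + i3) ≤ (j + 2 * i2 + 2 * l2 + 3) := by clear * - v41 z64 z70; omega
                      have kk1153 : (i + j + 1) ≤ (k) := by clear * - b2 v43 y21 z62 z64 z68 z71; linarith
                      have kk1154 : (2 * k) ≤ (i + i2 + l2 + 1) := by clear * - y21 z68; omega
                      have kk1155 : (Q + 2 * k) ≤ (i + j + i2 + l2 + i3 + 2) := by clear * - v43; omega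
                      have r1156 : (j + 2 * i2 + 2 * l2 - n - k + 2) % 2 = 0 := by clear * - ev n1p n2p n3p; omega
                      have r1157 : (n + i + j + i2 - 3 * k - l - 1) % 2 = 0 := by clear * - ev n1p n2p n3p; omega
                      clear * - al a1 b c u2 D2 kk1142 kk1143 kk1144 kk1145 kk1146 kk1147 kk1148 kk1149 kk1150 kk1151 kk1152 kk1153 kk1154 kk1155 r1156 r1157
                      exact midP al (n + i + j + i2 - 3 * k - l - 1) (j + 2 * i2 + 2 * l2 - n - k + 2) (k + l + l2 + i3 - n - Q + 3) (3 * k + l - n - i - j - i2 + 1) (j) (by omega) (fun t h1 h2 => (cE (cE (ab u2 al 0 t ((k + l + l2 + i3 - n + 2) - t) (by omega)) (qf (show Par W (k + l + i3 - i2 - l2 + 1) (n + i3 - i2 - l2 - 1) (2 * i2 + l2 - k - l - i3) from fun t h1 h2 => (cE (sh al (-1) t (t + (-n)) (by omega)) (cE (pb D2 al (-1) (t + (-n)) (t + (i2 + l2 - i3 + 1)) (by omega)) (pb c al 0 (t + (i2 + l2 - i3 + 1)) (t + (2 * i2 + l2 - k - l - i3)) (by omega))))) al 0 ((k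 + l + l2 + i3 - n + 2) - t) ((2 * i2 + 2 * l2 - n + 2) - t) (by omega))) (pb a1 al 0 ((2 * i2 + 2 * l2 - n + 2) - t) ((j + 2 * i2 + 2 * l2 - n - k + 2) - t) (by omega)))) (fun t h1 h2 => (cE (qf (show Par W (2 * k + l - i2 + 2) (k + l + l2 + 2) (n + i + i2 - 2 * k - l - 1) from fun t h1 h2 => (cE (sh al (-1) t (t + (-n)) (by omega)) (cE (cE (pb c al (-1) (t + (-n)) (t + (i2 - k - l - 1)) (by omega)) (pb b al 0 (t + (i2 - k - l - 1)) (t + (i + i2 - 2 * k - l - 1)) (by omega))) (sh al 1 (t + (i + i2 - 2 * k - l - 1)) (t + (n + i + i2 - 2 * k - l - 1)) (by omega))))) al (-1) t (t + (2 * n + i + i2 - 2 * k - l - 1)) (by omega)) (pb a1 al 1 (t + (2 * n + i + i2 - 2 * k - l - 1)) (t + (n + i + j + i2 - 3 * k - l - 1)) (by omega))))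
              · by_cases v44 : (i + 2 * i2 + 2 * l2 + 2) ≤ (n + k + i3)
                · have kk1158 : (i3 + 1) ≤ (k) := by clear * - b4 b5 b6 v44 z62 z64 z69 z70; linarith
                  have kk1159 : (k + i2 + l2 + 2) ≤ (n + i3) := by clear * - v44 y21 z68; omega
                  have kk1160 : (k + i2 + l2 + 2) ≤ (n + j + i3) := by clear * - b6 v44 y21 z62 z64 z68; omega
                  have kk1161 : (i + 2 * i2 + l2 + 1) ≤ (2 * k + l + i3) := by clear * - b6 v44 y21 z62 z64 z68 z70; linarith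
                  have kk1162 : (Q + k + l + i3) ≤ (i + 2 * i2 + l2 + 1) := by clear * - b6 z69 z70; omega
                  have kk1163 : (k + l + 2 * i3) ≤ (i + 2 * i2 + l2) := by clear * - b4 b6 v44 z62 z64 z68 z69 z70; linarith
                  have kk1164 : (n + j) ≤ (k + l + l2 + 1) := by clear * - y21 z68 z70; omega
                  have kk1165 : (i2) ≤ (k) := by clear * - b3 z62 z70; omega
                  have kk1166 : (i2 + l2) ≤ (k + l) := by clear * - v44 z64 z68; omega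
                  have kk1167 : (i3 + 1) ≤ (Q) := by clear * - b4 v44 z62 z64 z68; omega
                  have kk1168 : (k + i2 + l2 + 1) ≤ (n + i3) := by clear * - v44 y21 z68; omega
                  have kk1169 : (i) ≤ (i3) := by clear * - y21; omega
                  have kk1170 : (i + 2 * i2 + 2 * l2 + 2) ≤ (n + k + i3) := by clear * - v44; omega
                  have r1171 : (n + j + i3 - k - i2 - l2 - 1) % 2 = 0 := by clear * - ev n1p n2p n3p; omega
                  have r1172 : (2 * k + l + i3 - i - 2 * i2 - l2) % 2 = 0 := by clear * - ev n1p n2p n3p; omega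
                  clear * - al a2 b c D2 n1 kk1158 kk1159 kk1160 kk1161 kk1162 kk1163 kk1164 kk1165 kk1166 kk1167 kk1168 kk1169 kk1170 r1171 r1172
                  exact n1.f0 (rEE (sh al 0 (j) (j) (by omega)) (cE (pb D2 al 0 (k) (k + i2 + l2 - i3 + 1) (by omega)) (sh al (-1) (k + i2 + l2 - i3 + 1) (k + i2 + l2 - n - i3 + 1) (by omega))) (Eq.symm (rotR (n + j + i3 - k - i2 - l2 - 1) (2 * k + l + i3 - i - 2 * i2 - l2) (k + i2 + l2 - n - i3 + 1) (j) (by omega) (fun t h1 h2 => (cE (qf D2 al (-1) t (t + (n + i3 - i2 - l2 - 1)) (by omega)) (pb a2 al 0 (t + (n + i3 - i2 - l2 - 1)) (t + (n + j + i3 - k - i2 - l2 - 1)) (by omega)))) (fun t h1 h2 => (cE (cE (qf D2 al (-1) t (t + (n + i3 - i2 - l2 - 1)) (by omega)) (pb (show Par W (2 * k + l - i2 + 2) (k + l + l2 + 2) (n + i + i2 - 2 * k - l - 1) from fun t h1 h2 => (cE (sh al (-1) t (t + (-n)) (by omega)) (cE (cE (pb c al (-1) (t + (-n)) (t + (i2 - k - l - 1)) (by omega)) (pb b al 0 (t + (i2 - k - l - 1))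 (t + (i + i2 - 2 * k - l - 1)) (by omega))) (sh al 1 (t + (i + i2 - 2 * k - l - 1)) (t + (n + i + i2 - 2 * k - l - 1)) (by omega))))) al (-1) (t + (n + i3 - i2 - l2 - 1)) (t + (n + 2 * k + l + i3 - i - 2 * i2 - l2)) (by omega))) (sh al (-1) (t + (n + 2 * k + l + i3 - i - 2 * i2 - l2)) (t + (2 * k + l + i3 - i - 2 * i2 - l2)) (by omega)))))))
                · have kk1173 : (i3 + 1) ≤ (k) := by clear * - b2 b3 b4 b5 z62 z64; omega
                  have kk1174 : (k + i2 + l2 + 2) ≤ (n + i3) := by clear * - y17; omega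
                  have kk1175 : (k + i2 + l2 + 2) ≤ (n + j + i3) := by clear * - b6 y20 y21 z62; omega
                  have kk1176 : (i + 2 * i2 + l2 + 1) ≤ (2 * k + l + i3) := by clear * - b2 b5 b6 y21 z62 z64; omega
                  have kk1177 : (Q + k + l + i3) ≤ (i + 2 * i2 + l2 + 1) := by clear * - b6 z69 z70; omega
                  have kk1178 : (k + l + 2 * i3) ≤ (i + 2 * i2 + l2) := by clear * - b2 b4 b6 z62 z64 z68; omega
                  have kk1179 : (i + j + 2 * i2 + l2 + 1) ≤ (2 * k + l + i3) := by clear * - b2 b5 y21 z70; omega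
                  have kk1180 : (i2) ≤ (k) := by clear * - b3 z62 z70; omega
                  have kk1181 : (i2 + l2) ≤ (k + l) := by clear * - y20; omega
                  have kk1182 : (i3 + 1) ≤ (Q) := by clear * - b4 y20 z62 z64; omega
                  have kk1183 : (k + i2 + l2 + 1) ≤ (n + i3) := by clear * - y17; omega
                  have kk1184 : (i) ≤ (i3) := by clear * - y21; omega
                  have kk1185 : (n + k + i3) ≤ (i + 2 * i2 + 2 * l2 + 2) := by clear * - v44; omega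
                  have r1186 : (n + j + i3 - k - i2 - l2 - 1) % 2 = 0 := by clear * - ev n1p n2p n3p; omega
                  have r1187 : (2 * k + l + i3 - i - 2 * i2 - l2) % 2 = 0 := by clear * - ev n1p n2p n3p; omega
                  clear * - al a2 b c D2 n1 kk1173 kk1174 kk1175 kk1176 kk1177 kk1178 kk1179 kk1180 kk1181 kk1182 kk1183 kk1184 kk1185 r1186 r1187
                  exact n1.f0 (rEE (sh al 0 (j) (j) (by omega)) (cE (pb D2 al 0 (k) (k + i2 + l2 - i3 + 1) (by omega)) (sh al (-1) (k + i2 + l2 - i3 + 1) (k + i2 + l2 - n - i3 + 1) (by omega))) (Eq.symm (rotR (n + j + i3 - k - i2 - l2 - 1) (2 * k + l + i3 - i - 2 * i2 - l2) (k + i2 + l2 - n - i3 + 1) (j) (by omega) (fun t h1 h2 => (cE (qf D2 al (-1) t (t + (n + i3 - i2 - l2 - 1)) (by omega)) (pb a2 al 0 (t + (n + i3 - i2 - l2 - 1)) (t + (n + j + i3 - k - i2 - l2 - 1)) (by omega)))) (fun t h1 h2 => (cE (cE (qf D2 al (-1) t (t + (n + i3 - i2 - l2 - 1)) (by omega)) (pb (show Par W (2 * k + l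 - i2 + 2) (k + l + l2 + 2) (n + i + i2 - 2 * k - l - 1) from fun t h1 h2 => (cE (sh al (-1) t (t + (-n)) (by omega)) (cE (cE (pb c al (-1) (t + (-n)) (t + (i2 - k - l - 1)) (by omega)) (pb b al 0 (t + (i2 - k - l - 1)) (t + (i + i2 - 2 * k - l - 1)) (by omega))) (sh al 1 (t + (i + i2 - 2 * k - l - 1)) (t + (n + i + i2 - 2 * k - l - 1)) (by omega))))) al (-1) (t + (n + i3 - i2 - l2 - 1)) (t + (n + 2 * k + l + i3 - i - 2 * i2 - l2)) (by omega))) (sh al (-1) (t + (n + 2 * k + l + i3 - i - 2 * i2 - l2)) (t + (2 * k + l + i3 - i - 2 * i2 - l2)) (by omega)))))))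
            · have kk1188 : (i2 + l2 + 1) ≤ (k + l) := by clear * - y20; omega
              have kk1189 : (k + l + i3 + 1) ≤ (Q + i2 + l2) := by clear * - b4 z62 z64; omega
              have kk1190 : (i + 1) ≤ (k) := by clear * - b4 z62 z64 z69; omega
              have kk1191 : (0) ≤ (l) := by clear * - b4 y20 y21 z62 z64 z68 z69; linarith
              have kk1192 : (i + 1) ≤ (i2) := by clear * - b4 y20 y21 z62 z64; omega
              have kk1193 : (i2) ≤ (k + l) := by clear * - b4 z62 z64 z68 z69; omega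
              have kk1194 : (i + i2 + l2 + 1) ≤ (k + l + i3) := by clear * - y20 y21; omega
              have kk1195 : (i3) ≤ (i2 + l2) := by clear * - b4 z62 z64 z68 z69; omega
              have kk1196 : (Q + 2 * k + l) ≤ (n + i + i2) := by clear * - b4; omega
              have kk1197 : (i2 + l2) ≤ (k + l) := by clear * - y20; omega
              have kk1198 : (n) ≤ (k + l + l2 + 2) := by clear * - b0 b4 y14 y21 z64 z68 z69; linarith
              have kk1199 : (i) ≤ (i2) := by clear * - b4 y20 y21 z62 z64; omega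
              have kk1200 : (i + i2 + l2) ≤ (k + l + i3) := by clear * - y20 y21; omega
              have kk1201 : (n + i3) ≤ (k + l + i2 + l2 + 2) := by clear * - b4 z62 z64 z68 z69; omega
              have kk1202 : (n + i2) ≤ (2 * k + 2 * l + 2) := by clear * - b4 z62 z64 z68 z69; omega
              have kk1203 : (i + 1) ≤ (Q) := by clear * - b4 y20 y21 z62 z64; omega
              have kk1204 : (i + i2 + 1) ≤ (Q + k) := by clear * - b4 z62 z64 z69; omega
              have kk1205 : (0) ≤ (l + 1) := by clear * - b4 y20 y21 z62 z64 z68 z69; linarith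
              have kk1206 : (i2) ≤ (k + l + 1) := by clear * - b4 z62 z64 z68 z69; omega
              have r1207 : (k + l + i3 - 2 * i2 - l2) % 2 = 0 := by clear * - ev n1p n2p n3p; omega
              have r1208 : (k - i) % 2 = 0 := by clear * - ev n1p n2p n3p; omega
              have r1209 : (i + l + i2 - 2 * n + 1) % 2 = 0 := by clear * - ev n1p n2p n3p; omega
              clear * - al b tt c D1 D2 n2 kk1188 kk1189 kk1190 kk1191 kk1192 kk1193 kk1194 kk1195 kk1196 kk1197 kk1198 kk1199 kk1200 kk1201 kk1202 kk1203 kk1204 kk1205 kk1206 r1207 r1208 r1209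
              exact ivt al.ninv (i - n + 1) (i + l - n + 1) (k - i) (i2 - n + 1) (i2 - k - l - 1) (k + l + i3 - 2 * i2 - l2) (i2 - n) (k + l + i3 - n - i2 - l2) 0 (fun t h1 h2 => (cE (qf b al (-1) t (t + (n + k - i)) (by omega)) (sh al (-1) (t + (n + k - i)) (t + (k - i)) (by omega)))) (fun t h1 h2 => (cE (cE (qf c al (-1) t (t + (n + k + l - i2 + 1)) (by omega)) (qf D2 al 0 (t + (n + k + l - i2 + 1)) (t + (n + k + l + i3 - 2 * i2 - l2)) (by omega))) (sh al (-1) (t + (n + k + l + i3 - 2 * i2 - l2)) (t + (k + l + i3 - 2 * i2 - l2)) (by omega)))) (fun hh => n2.f1 (rEE (sh al (-1) (i2) (i2 - n) (by omega)) (cE (pb D1 al 0 (k + l + 1) (k + l + i3 - i2 - l2) (by omega)) (sh al (-1) (k + l + i3 - i2 - l2) (k + l + i3 - n - i2 - l2) (by omega))) (Eq.symm hh))) (by omega) (Q - n) (i2 - n) (i + l + i2 - 2 * n + 1) 0 (-1) (fun t h1 h2 => (cE (qa tt al (-1) t ((i + l + i2 - n + 1) - t) (by omega)) (sh al (-1) ((i + l + i2 - n + 1) - t) ((i + l + i2 - 2 * n +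 1) - t) (by omega)))) (by omega)

theorem t1a_24 {W : ℤ → G} {n Q i j k l i2 l2 i3 : ℤ} (al : AL W n Q)
    (hy : (0) ≤ (i) ∧ (i) ≤ (j) ∧ (j + 1) ≤ (Q) ∧ (Q) ≤ (k) ∧ (k + 1) ≤ (n) ∧ (Q) ≤ (i + l + 1) ∧ (k + l + 2) ≤ (n) ∧ (Q) ≤ (i2) ∧ (i2) ≤ (i + l + 1) ∧ (Q) ≤ (i2 + l2 + 1) ∧ (i2 + l2 + 2) ≤ (n) ∧ (n) ≤ (k + l + l2 + 2) ∧ (k + l + l2 + 3) ≤ (n + Q) ∧ (0) ≤ (i3) ∧ (n + i3) ≤ (k + l + l2 + 2) ∧ (k + i2 + l2 + 2) ≤ (n + j + i3) ∧ (j + i3 + 1) ≤ (k) ∧ (k + i2 + l2 + 2) ≤ (n + i3) ∧ (i + 2 * i2 + 1) ≤ (2 * Q + k) ∧ (i + l + 1) ≤ (i2 + l2) ∧ (i2 + l2 + 1) ≤ (k + l) ∧ (i + 1) ≤ (i3))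
    (a1 : Par W (0) (j) (k - j))
    (a2 : Par W (Q + j - k) (j) (k - j))
    (s1 : Ant W (0) (i) (i + j))
    (s2 : Ant W (j + 1) (Q) (i + j))
    (b : Par W (i + 1) (i + l + 1) (k - i))
    (tt : Ant W (Q) (i2) (i + l + i2 + 1))
    (c : Par W (i2 + 1) (i2 + l2 + 1) (k + l - i2 + 1))
    (u1 : Ant W (0) (i3) (k + l + l2 + i3 - n + 2))
    (u2 : Ant W (k + l + l2 - n + 3) (Q) (k + l + l2 + i3 - n + 2))
    (D1 : Par W (i3 + 1) (Q) (i2 + l2 - i3 + 1))
    (D2 : Par W (i2 + l2 + 2) (n) (i3 - i2 - l2 - 1))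
    {L : ℤ} (mx : ∀ a b g, 0 < g → g < n → Par W a b g → b - a ≤ L)
    (hL : L ≤ (n - j - 3) ∧ L ≤ (n + Q - k - 3) ∧ L ≤ (n - l - 3) ∧ L ≤ (n + i - k - 2) ∧ L ≤ (n - l2 - 3) ∧ L ≤ (n + i3 - Q - 2) ∧ L ≤ (i2 + l2 - 1) ∧ L ≤ (n + i2 - k - l - 3) ∧ L ≤ (Q + i2 + l2 - i - l - 3))
    (bd0 : Bd W n L (j) (i) (k))
    (bd2 : Bd W n L (k + l + l2 - n + 2) (i3) (i2 + l2 + 1))
    (n1 : Nd W (j) (i) (k))
    (n2 : Nd W (i + l + 1) (i2) (k + l + 1))
    (n3 : Nd W (k + l + l2 - n + 2) (i3) (i2 + l2 + 1))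
    (b0 : (i + 2 * l + 3) ≤ (Q + i2 + l2))
    (b1 : (i + l + 3) ≤ (Q + i2))
    (b2 : (j + l + l2 + i3 + 3) ≤ (n))
    (b3 : (2 * Q + i2 + l2) ≤ (n + i + j + i3))
    (b4 : (Q + 2 * k + l + 2) ≤ (n + i + i2))
    (b5 : (3 * i2 + l2) ≤ (i + k + 2 * l + i3 + 2)) : False := by
  have ev := al.ev
  obtain ⟨y0, y1, y2, y3, y4, y5, y6, y7, y8, y9, y10, y11, y12, y13, y14, y15, y16, y17, y18, y19, y20, y21⟩ := id hy
  have n1p := And.intro n1.p1 n1.p2
  have n2p := And.intro n2.p1 n2.p2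
  have n3p := And.intro n3.p1 n3.p2
  by_cases z60 : (n + 2 * i + j + i2 + 1) ≤ (2 * Q + 2 * k + l)
  · by_cases v35 : (n + i + j) ≤ (Q + k + l + 1)
    · have kk924 : (j + 2 * k + l + 3) ≤ (n + 2 * i + i2) := by clear * - b4 y0 z60; omega
      have kk925 : (l + i2 + 2) ≤ (n + j) := by clear * - b1 b3 b4 y14 y18; omega
      have kk926 : (i) ≤ (j) := by clear * - y1; omega
      have kk927 : (n + i) ≤ (k + l + l2 + 2) := by clear * - y14 y21; omega
      have kk928 : (Q) ≤ (i + l + 1) := by clear * - b1 b3 b4 b5 v35 y14; omega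
      have kk929 : (n + i + j) ≤ (Q + k + l + 1) := by clear * - v35; omega
      have r930 : (n + j + i2 - l - 1) % 2 = 0 := by clear * - ev n1p n2p n3p; omega
      clear * - al s2 b c kk924 kk925 kk926 kk927 kk928 kk929 r930
      obtain ⟨t, ht⟩ : ∃ t, 2 * t = (n + j + i2 - l - 1) := ⟨(n + j + i2 - l - 1) / 2, by omega⟩
      exact al.ninv t (cE (cI (pb b al 0 t (t + (i - k)) (by omega)) (qa s2 al 0 (t + (i - k)) ((j + k) - t) (by omega))) (pb c al (-1) ((j + k) - t) t (by omega)))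
    · have kk931 : (j + 2 * k + l + 3) ≤ (n + 2 * i + i2) := by clear * - b4 y0 z60; omega
      have kk932 : (n + 2 * i + j + i2) ≤ (2 * Q + 2 * k + l) := by clear * - z60; omega
      have kk933 : (i) ≤ (j) := by clear * - y1; omega
      have kk934 : (n + i) ≤ (k + l + l2 + 2) := by clear * - y14 y21; omega
      have kk935 : (Q) ≤ (i + l + 1) := by clear * - b4 y13 y14 y20; omega
      have kk936 : (Q + k + l + 1) ≤ (n + i + j) := by clear * - v35; omega
      have r937 : (n + j + i2 - l - 1) % 2 = 0 := by clear * - ev n1p n2p n3p; omega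
      clear * - al s2 b c kk931 kk932 kk933 kk934 kk935 kk936 r937
      obtain ⟨t, ht⟩ : ∃ t, 2 * t = (n + j + i2 - l - 1) := ⟨(n + j + i2 - l - 1) / 2, by omega⟩
      exact al.ninv t (cE (cI (pb b al 0 t (t + (i - k)) (by omega)) (qa s2 al 0 (t + (i - k)) ((j + k) - t) (by omega))) (pb c al (-1) ((j + k) - t) t (by omega)))
  · exact t1a_25 al hy a1 a2 s1 s2 b tt c u1 u2 D1 D2 mx hL bd0 bd2 n1 n2 n3 (by clear * - b0; omega) (by clear * - b1; omega) (by clear * - b2; omega) (by clear * - b3; omega) (by clear * - b4; omega) (by clear * - b5; omega) (by clear * - z60; omega)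

theorem t1a_23 {W : ℤ → G} {n Q i j k l i2 l2 i3 : ℤ} (al : AL W n Q)
    (hy : (0) ≤ (i) ∧ (i) ≤ (j) ∧ (j + 1) ≤ (Q) ∧ (Q) ≤ (k) ∧ (k + 1) ≤ (n) ∧ (Q) ≤ (i + l + 1) ∧ (k + l + 2) ≤ (n) ∧ (Q) ≤ (i2) ∧ (i2) ≤ (i + l + 1) ∧ (Q) ≤ (i2 + l2 + 1) ∧ (i2 + l2 + 2) ≤ (n) ∧ (n) ≤ (k + l + l2 + 2) ∧ (k + l + l2 + 3) ≤ (n + Q) ∧ (0) ≤ (i3) ∧ (n + i3) ≤ (k + l + l2 + 2) ∧ (k + i2 + l2 + 2) ≤ (n + j + i3) ∧ (j + i3 + 1) ≤ (k) ∧ (k + i2 + l2 + 2) ≤ (n + i3) ∧ (i + 2 * i2 + 1) ≤ (2 * Q + k) ∧ (i + l + 1) ≤ (i2 + l2) ∧ (i2 + l2 + 1) ≤ (k + l) ∧ (i + 1) ≤ (i3))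
    (a1 : Par W (0) (j) (k - j))
    (a2 : Par W (Q + j - k) (j) (k - j))
    (s1 : Ant W (0) (i) (i + j))
    (s2 : Ant W (j + 1) (Q) (i + j))
    (b : Par W (i + 1) (i + l + 1) (k - i))
    (tt : Ant W (Q) (i2) (i + l + i2 + 1))
    (c : Par W (i2 + 1) (i2 + l2 + 1) (k + l - i2 + 1))
    (u1 : Ant W (0) (i3) (k + l + l2 + i3 - n + 2))
    (u2 : Ant W (k + l + l2 - n + 3) (Q) (k + l + l2 + i3 - n + 2))
    (D1 : Par W (i3 + 1) (Q) (i2 + l2 - i3 + 1))
    (D2 : Par W (i2 + l2 + 2) (n) (i3 - i2 - l2 - 1))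
    {L : ℤ} (mx : ∀ a b g, 0 < g → g < n → Par W a b g → b - a ≤ L)
    (hL : L ≤ (n - j - 3) ∧ L ≤ (n + Q - k - 3) ∧ L ≤ (n - l - 3) ∧ L ≤ (n + i - k - 2) ∧ L ≤ (n - l2 - 3) ∧ L ≤ (n + i3 - Q - 2) ∧ L ≤ (i2 + l2 - 1) ∧ L ≤ (n + i2 - k - l - 3) ∧ L ≤ (Q + i2 + l2 - i - l - 3))
    (bd0 : Bd W n L (j) (i) (k))
    (bd2 : Bd W n L (k + l + l2 - n + 2) (i3) (i2 + l2 + 1))
    (n1 : Nd W (j) (i) (k))
    (n2 : Nd W (i + l + 1) (i2) (k + l + 1))
    (n3 : Nd W (k + l + l2 - n + 2) (i3) (i2 + l2 + 1))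
    (b0 : (i + 2 * l + 3) ≤ (Q + i2 + l2))
    (b1 : (i + l + 3) ≤ (Q + i2))
    (b2 : (j + l + l2 + i3 + 3) ≤ (n))
    (b3 : (2 * Q + i2 + l2) ≤ (n + i + j + i3))
    (b4 : (Q + 2 * k + l + 2) ≤ (n + i + i2))
    (b5 : (i + k + 2 * l + i3 + 3) ≤ (3 * i2 + l2)) : False := by
  have ev := al.ev
  obtain ⟨y0, y1, y2, y3, y4, y5, y6, y7, y8, y9, y10, y11, y12, y13, y14, y15, y16, y17, y18, y19, y20, y21⟩ := id hy
  have n1p := And.intro n1.p1 n1.p2
  have n2p := And.intro n2.p1 n2.p2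
  have n3p := And.intro n3.p1 n3.p2
  by_cases z56 : (i + k + 2 * l + i2 + l2 + 5) ≤ (2 * n + i3)
  · by_cases z57 : (n + 3 * i + j + 2 * i2 + l2 + i3 + 2) ≤ (4 * Q + 3 * k + l)
    · by_cases z58 : (i + i2 + l2 + i3 + 3) ≤ (2 * Q + k)
      · by_cases v31 : (Q) ≤ (l2 + i3 + 1)
        · have kk863 : (3 * k + 2 * l + l2 + 5) ≤ (2 * n + i + i2 + i3) := by clear * - b4 y13 z58; omega
          have kk864 : (i + i2 + l2 + i3 + 2) ≤ (2 * Q + k) := by clear * - z58; omega
          have kk865 : (n + i) ≤ (k + l + l2 + 2) := by clear * - y14 y21; omega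
          have kk866 : (n + i3) ≤ (k + l + l2 + 2) := by clear * - y14; omega
          have kk867 : (Q) ≤ (i + l + 1) := by clear * - b4 y13 y14 y20; omega
          have kk868 : (Q) ≤ (l2 + i3 + 1) := by clear * - v31; omega
          have r869 : (k + i2 + l2 + i3 - 2 * n - i + 1) % 2 = 0 := by clear * - ev n1p n2p n3p; omega
          clear * - al b c u2 kk863 kk864 kk865 kk866 kk867 kk868 r869
          obtain ⟨t, ht⟩ : ∃ t, 2 * t = (k + i2 + l2 + i3 - 2 * n - i + 1) := ⟨(k + i2 + l2 + i3 - 2 * n - i + 1) / 2, by omega⟩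
          exact al.ninv t (cE (cE (cI (pb b al (-1) t (t + (n + i - k)) (by omega)) (qa u2 al 0 (t + (n + i - k)) ((2 * k + l + l2 + i3 - 2 * n - i + 2) - t) (by omega))) (pb c al (-1) ((2 * k + l + l2 + i3 - 2 * n - i + 2) - t) ((k + i2 + l2 + i3 - n - i + 1) - t) (by omega))) (sh al (-1) ((k + i2 + l2 + i3 - n - i + 1) - t) t (by omega)))
        · have kk870 : (3 * k + 2 * l + l2 + 5) ≤ (2 * n + i + i2 + i3) := by clear * - b4 y13 z58; omega
          have kk871 : (i + i2) ≤ (k + l2 + i3) := by clear * - y13 y14 z56; omega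
          have kk872 : (n + i) ≤ (k + l + l2 + 2) := by clear * - y14 y21; omega
          have kk873 : (n + i3) ≤ (k + l + l2 + 2) := by clear * - y14; omega
          have kk874 : (l2 + i3) ≤ (i + l) := by clear * - b4 v31 y13 y14 y20; omega
          have kk875 : (l2 + i3 + 1) ≤ (Q) := by clear * - v31; omega
          have r876 : (k + i2 + l2 + i3 - 2 * n - i + 1) % 2 = 0 := by clear * - ev n1p n2p n3p; omega
          clear * - al b c u2 kk870 kk871 kk872 kk873 kk874 kk875 r876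
          obtain ⟨t, ht⟩ : ∃ t, 2 * t = (k + i2 + l2 + i3 - 2 * n - i + 1) := ⟨(k + i2 + l2 + i3 - 2 * n - i + 1) / 2, by omega⟩
          exact al.ninv t (cE (cE (cI (pb b al (-1) t (t + (n + i - k)) (by omega)) (qa u2 al 0 (t + (n + i - k)) ((2 * k + l + l2 + i3 - 2 * n - i + 2) - t) (by omega))) (pb c al (-1) ((2 * k + l + l2 + i3 - 2 * n - i + 2) - t) ((k + i2 + l2 + i3 - n - i + 1) - t) (by omega))) (sh al (-1) ((k + i2 + l2 + i3 - n - i + 1) - t) t (by omega)))
      · by_cases v32 : (i + k + 2 * l + 3) ≤ (n + Q)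
        · have kk877 : (i + k + 2 * l + i3 + 3) ≤ (3 * i2 + l2) := by clear * - b5; omega
          have kk878 : (2 * Q + i2 + l2) ≤ (i + k + 2 * l + i3 + 2) := by clear * - y20 z58; omega
          have kk879 : (i2 + l2) ≤ (k + l) := by clear * - y20; omega
          have kk880 : (n) ≤ (k + l + l2 + 2) := by clear * - y13 y14; omega
          have kk881 : (i2) ≤ (i + l + 1) := by clear * - y8; omega
          have kk882 : (i + k + 2 * l + 3) ≤ (n + Q) := by clear * - v32; omega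
          have r883 : (i + k + 2 * l + i3 - 2 * n - i2 - l2 + 1) % 2 = 0 := by clear * - ev n1p n2p n3p; omega
          clear * - al tt c D2 kk877 kk878 kk879 kk880 kk881 kk882 r883
          obtain ⟨t, ht⟩ : ∃ t, 2 * t = (i + k + 2 * l + i3 - 2 * n - i2 - l2 + 1) := ⟨(i + k + 2 * l + i3 - 2 * n - i2 - l2 + 1) / 2, by omega⟩
          exact al.ninv t (cE (cI (qf (show Par W (k + l + i3 - i2 - l2 + 1) (n + i3 - i2 - l2 - 1) (2 * i2 + l2 - k - l - i3) from fun t h1 h2 => (cE (sh al (-1) t (t + (-n)) (by omega)) (cE (pb D2 al (-1) (t + (-n)) (t + (i2 + l2 - i3 + 1)) (by omega)) (pb c al 0 (t + (i2 + l2 - i3 + 1)) (t + (2 * i2 + l2 - k - l - i3)) (by omega))))) al (-1) t (t + (n + 2 * i2 + l2 - k - l - i3)) (by omega)) (ab tt al 0 (t + (n + 2 * i2 + l2 - k - l - i3)) ((i + k + 2 * l + i3 - n - i2 - l2 + 1) - t) (by omega))) (sh al (-1) ((i + k + 2 * l + i3 - n - i2 - l2 + 1) - t) t (by omega)))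
        · have kk884 : (i + k + 2 * l + i3 + 3) ≤ (3 * i2 + l2) := by clear * - b5; omega
          have kk885 : (i + k + 2 * l + i2 + l2 + 4) ≤ (2 * n + i3) := by clear * - z56; omega
          have kk886 : (i2 + l2) ≤ (k + l) := by clear * - b3 b4 v32 z57; omega
          have kk887 : (n) ≤ (k + l + l2 + 2) := by clear * - b5 v32 y18 z58; omega
          have kk888 : (i2) ≤ (i + l + 1) := by clear * - b4 v32 y18; omega
          have kk889 : (n + Q) ≤ (i + k + 2 * l + 3) := by clear * - v32; omega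
          have r890 : (i + k + 2 * l + i3 - 2 * n - i2 - l2 + 1) % 2 = 0 := by clear * - ev n1p n2p n3p; omega
          clear * - al tt c D2 kk884 kk885 kk886 kk887 kk888 kk889 r890
          obtain ⟨t, ht⟩ : ∃ t, 2 * t = (i + k + 2 * l + i3 - 2 * n - i2 - l2 + 1) := ⟨(i + k + 2 * l + i3 - 2 * n - i2 - l2 + 1) / 2, by omega⟩
          exact al.ninv t (cE (cI (qf (show Par W (k + l + i3 - i2 - l2 + 1) (n + i3 - i2 - l2 - 1) (2 * i2 + l2 - k - l - i3) from fun t h1 h2 => (cE (sh al (-1) t (t + (-n)) (by omega)) (cE (pb D2 al (-1) (t + (-n)) (t + (i2 + l2 - i3 + 1)) (by omega)) (pb c al 0 (t + (i2 + l2 - i3 + 1)) (t + (2 * i2 + l2 - k - l - i3)) (by omega))))) al (-1) t (t + (n + 2 * i2 + l2 - k - l - i3)) (by omega)) (ab tt al 0 (t + (n + 2 * i2 + l2 - k - l - i3)) ((i + k + 2 * l + i3 - n - i2 - l2 + 1) - t) (by omega))) (sh al (-1) ((i + k + 2 * l + i3 - n - i2 - l2 + 1) - t) t (by omega)))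
    · by_cases z59 : (2 * Q + i2 + l2) ≤ (i + k + 2 * l + i3 + 1)
      · by_cases v33 : (Q + i2 + l2) ≤ (k + l + i3 + 1)
        · have kk891 : (k + i3 + 1) ≤ (i + i2 + l2) := by clear * - b4 y12 y13 y14; omega
          have kk892 : (i + k + 2 * l + i3 + 2) ≤ (3 * i2 + l2) := by clear * - b5; omega
          have kk893 : (i2 + l2) ≤ (k + l) := by clear * - y20; omega
          have kk894 : (n) ≤ (k + l + l2 + 2) := by clear * - y13 y14; omega
          have kk895 : (Q + i2 + l2) ≤ (k + l + i3 + 1) := by clear * - v33; omega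
          have kk896 : (2 * i2 + l2 + 1) ≤ (n + i3) := by clear * - b4 v33 y18; omega
          have r897 : (i + 3 * i2 + l2 - 2 * n - k - i3 + 1) % 2 = 0 := by clear * - ev n1p n2p n3p; omega
          clear * - al tt c D2 kk891 kk892 kk893 kk894 kk895 kk896 r897
          obtain ⟨t, ht⟩ : ∃ t, 2 * t = (i + 3 * i2 + l2 - 2 * n - k - i3 + 1) := ⟨(i + 3 * i2 + l2 - 2 * n - k - i3 + 1) / 2, by omega⟩
          exact al.ninv t (cE (cI (pb (show Par W (k + l + i3 - i2 - l2 + 1) (n + i3 - i2 - l2 - 1) (2 * i2 + l2 - k - l - i3) from fun t h1 h2 => (cE (sh al (-1) t (t + (-n)) (by omega)) (cE (pb D2 al (-1) (t + (-n)) (t + (i2 + l2 - i3 + 1)) (by omega)) (pb c al 0 (t + (i2 + l2 - i3 + 1)) (t + (2 * i2 + l2 - k - l - i3)) (by omega))))) al (-1) t (t + (n + k + l + i3 - 2 * i2 - l2)) (by omega)) (qa tt al 0 (t + (n + k + l + i3 - 2 * i2 - l2)) ((i + 3 * i2 + l2 - n - k - i3 + 1) - t) (by omega))) (sh al (-1) ((i + 3 * i2 + l2 - n - k - i3 + 1) - t) t (by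 omega)))
        · by_cases v34 : (2 * i2 + l2 + 1) ≤ (n + i3)
          · have kk898 : (2 * Q + i2 + l2) ≤ (i + k + 2 * l + i3 + 1) := by clear * - z59; omega
            have kk899 : (i + k + 2 * l + i3 + 2) ≤ (3 * i2 + l2) := by clear * - b5; omega
            have kk900 : (i2 + l2) ≤ (k + l) := by clear * - y20; omega
            have kk901 : (n) ≤ (k + l + l2 + 2) := by clear * - y13 y14; omega
            have kk902 : (k + l + i3 + 1) ≤ (Q + i2 + l2) := by clear * - v33; omega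
            have kk903 : (2 * i2 + l2 + 1) ≤ (n + i3) := by clear * - v34; omega
            have r904 : (i + 3 * i2 + l2 - 2 * n - k - i3 + 1) % 2 = 0 := by clear * - ev n1p n2p n3p; omega
            clear * - al tt c D2 kk898 kk899 kk900 kk901 kk902 kk903 r904
            obtain ⟨t, ht⟩ : ∃ t, 2 * t = (i + 3 * i2 + l2 - 2 * n - k - i3 + 1) := ⟨(i + 3 * i2 + l2 - 2 * n - k - i3 + 1) / 2, by omega⟩
            exact al.ninv t (cE (cI (pb (show Par W (k + l + i3 - i2 - l2 + 1) (n + i3 - i2 - l2 - 1) (2 * i2 + l2 - k - l - i3) from fun t h1 h2 => (cE (sh al (-1) t (t + (-n)) (by omega)) (cE (pb D2 al (-1) (t + (-n)) (t + (i2 + l2 - i3 + 1)) (by omega)) (pb c al 0 (t + (i2 + l2 - i3 + 1)) (t + (2 * i2 + l2 - k - l - i3)) (by omega))))) al (-1) t (t + (n + k + l + i3 - 2 * i2 - l2)) (by omega)) (qa tt al 0 (t + (n + k + l + i3 - 2 * i2 - l2)) ((i + 3 * i2 + l2 - n - k - i3 + 1) - t) (by omega))) (sh al (-1) ((i + 3 * i2 + l2 - n - k - i3 + 1) - t) t (by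 omega)))
          · have kk905 : (2 * Q + i2 + l2) ≤ (i + k + 2 * l + i3 + 1) := by clear * - z59; omega
            have kk906 : (i + k + 2 * l + i2 + l2 + 4) ≤ (2 * n + i3) := by clear * - z56; omega
            have kk907 : (i2 + l2) ≤ (k + l) := by clear * - y20; omega
            have kk908 : (n) ≤ (k + l + l2 + 2) := by clear * - y13 y14; omega
            have kk909 : (k + l + i3 + 1) ≤ (Q + i2 + l2) := by clear * - v33; omega
            have kk910 : (n + i3) ≤ (2 * i2 + l2 + 1) := by clear * - v34; omega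
            have r911 : (i + 3 * i2 + l2 - 2 * n - k - i3 + 1) % 2 = 0 := by clear * - ev n1p n2p n3p; omega
            clear * - al tt c D2 kk905 kk906 kk907 kk908 kk909 kk910 r911
            obtain ⟨t, ht⟩ : ∃ t, 2 * t = (i + 3 * i2 + l2 - 2 * n - k - i3 + 1) := ⟨(i + 3 * i2 + l2 - 2 * n - k - i3 + 1) / 2, by omega⟩
            exact al.ninv t (cE (cI (pb (show Par W (k + l + i3 - i2 - l2 + 1) (n + i3 - i2 - l2 - 1) (2 * i2 + l2 - k - l - i3) from fun t h1 h2 => (cE (sh al (-1) t (t + (-n)) (by omega)) (cE (pb D2 al (-1) (t + (-n)) (t + (i2 + l2 - i3 + 1)) (by omega)) (pb c al 0 (t + (i2 + l2 - i3 + 1)) (t + (2 * i2 + l2 - k - l - i3)) (by omega))))) al (-1) t (t + (n + k + l + i3 - 2 * i2 - l2)) (by omega)) (qa tt al 0 (t + (n + k + l + i3 - 2 * i2 - l2)) ((i + 3 * i2 + l2 - n - k - i3 + 1) - t) (by omega))) (sh al (-1) ((i + 3 * i2 + l2 - n - k - i3 + 1) - t) t (by omega)))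
      · have kk912 : (3 * k + 2 * l + l2 + 5) ≤ (2 * n + i + i2 + i3) := by clear * - b4 y13 y20 z59; omega
        have kk913 : (i + i2 + l2 + i3 + 2) ≤ (2 * Q + k) := by clear * - y20 z59; omega
        have kk914 : (i) ≤ (i3) := by clear * - y21; omega
        have kk915 : (n + i3) ≤ (k + l + l2 + 2) := by clear * - y14; omega
        have kk916 : (Q) ≤ (i + l + 1) := by clear * - b4 y13 y14 y20; omega
        have kk917 : (Q) ≤ (l2 + i3 + 1) := by clear * - b2 y13 y14 y18 y21 z57; omega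
        have r918 : (k + i2 + l2 + i3 - i + 1) % 2 = 0 := by clear * - ev n1p n2p n3p; omega
        clear * - al b c u2 kk912 kk913 kk914 kk915 kk916 kk917 r918
        obtain ⟨t, ht⟩ : ∃ t, 2 * t = (k + i2 + l2 + i3 - i + 1) := ⟨(k + i2 + l2 + i3 - i + 1) / 2, by omega⟩
        exact al.ninv t (cE (cI (pb b al 0 t (t + (i - k)) (by omega)) (qa u2 al 0 (t + (i - k)) ((2 * k + l + l2 + i3 - n - i + 2) - t) (by omega))) (pb c al (-1) ((2 * k + l + l2 + i3 - n - i + 2) - t) t (by omega)))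
  · have kk919 : (2 * Q + k) ≤ (2 * i + l + i2 + 1) := by clear * - b2 b3 b4 y18 y21 z56; omega
    have kk920 : (2 * i + l + 2) ≤ (k + i2) := by clear * - b2 b3 b5 y18 y21 z56; omega
    have kk921 : (i + i2 + 1) ≤ (Q + k) := by clear * - b2 b3 b4 b5 y18 y21 z56; linarith
    have kk922 : (k) ≤ (i + l + 1) := by clear * - b4 y18 y20 y21 z56; omega
    have r923 : (2 * n + 2 * i + l + i2 - k + 1) % 2 = 0 := by clear * - ev n1p n2p n3p; omega
    clear * - al b tt kk919 kk920 kk921 kk922 r923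
    obtain ⟨t, ht⟩ : ∃ t, 2 * t = (2 * n + 2 * i + l + i2 - k + 1) := ⟨(2 * n + 2 * i + l + i2 - k + 1) / 2, by omega⟩
    exact al.ninv t (cE (cE (qa tt al 1 t ((n + i + l + i2 + 1) - t) (by omega)) (pb b al 0 ((n + i + l + i2 + 1) - t) ((n + 2 * i + l + i2 - k + 1) - t) (by omega))) (sh al 1 ((n + 2 * i + l + i2 - k + 1) - t) t (by omega)))

theorem t1a_22 {W : ℤ → G} {n Q i j k l i2 l2 i3 : ℤ} (al : AL W n Q)
    (hy : (0) ≤ (i) ∧ (i) ≤ (j) ∧ (j + 1) ≤ (Q) ∧ (Q) ≤ (k) ∧ (k + 1) ≤ (n) ∧ (Q) ≤ (i + l + 1) ∧ (k + l + 2) ≤ (n) ∧ (Q) ≤ (i2) ∧ (i2) ≤ (i + l + 1) ∧ (Q) ≤ (i2 + l2 + 1) ∧ (i2 + l2 + 2) ≤ (n) ∧ (n) ≤ (k + l + l2 + 2) ∧ (k + l + l2 + 3) ≤ (n + Q) ∧ (0) ≤ (i3) ∧ (n + i3) ≤ (k + l + l2 + 2) ∧ (k + i2 + l2 + 2) ≤ (n + j + i3) ∧ (j + i3 + 1) ≤ (k) ∧ (k + i2 + l2 + 2) ≤ (n + i3) ∧ (i + 2 * i2 + 1) ≤ (2 * Q + k) ∧ (i + l + 1) ≤ (i2 + l2) ∧ (i2 + l2 + 1) ≤ (k + l) ∧ (i + 1) ≤ (i3))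
    (a1 : Par W (0) (j) (k - j))
    (a2 : Par W (Q + j - k) (j) (k - j))
    (s1 : Ant W (0) (i) (i + j))
    (s2 : Ant W (j + 1) (Q) (i + j))
    (b : Par W (i + 1) (i + l + 1) (k - i))
    (tt : Ant W (Q) (i2) (i + l + i2 + 1))
    (c : Par W (i2 + 1) (i2 + l2 + 1) (k + l - i2 + 1))
    (u1 : Ant W (0) (i3) (k + l + l2 + i3 - n + 2))
    (u2 : Ant W (k + l + l2 - n + 3) (Q) (k + l + l2 + i3 - n + 2))
    (D1 : Par W (i3 + 1) (Q) (i2 + l2 - i3 + 1))
    (D2 : Par W (i2 + l2 + 2) (n) (i3 - i2 - l2 - 1))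
    {L : ℤ} (mx : ∀ a b g, 0 < g → g < n → Par W a b g → b - a ≤ L)
    (hL : L ≤ (n - j - 3) ∧ L ≤ (n + Q - k - 3) ∧ L ≤ (n - l - 3) ∧ L ≤ (n + i - k - 2) ∧ L ≤ (n - l2 - 3) ∧ L ≤ (n + i3 - Q - 2) ∧ L ≤ (i2 + l2 - 1) ∧ L ≤ (n + i2 - k - l - 3) ∧ L ≤ (Q + i2 + l2 - i - l - 3))
    (bd0 : Bd W n L (j) (i) (k))
    (bd2 : Bd W n L (k + l + l2 - n + 2) (i3) (i2 + l2 + 1))
    (n1 : Nd W (j) (i) (k))
    (n2 : Nd W (i + l + 1) (i2) (k + l + 1))
    (n3 : Nd W (k + l + l2 - n + 2) (i3) (i2 + l2 + 1))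
    (b0 : (i + 2 * l + 3) ≤ (Q + i2 + l2))
    (b1 : (i + l + 3) ≤ (Q + i2))
    (b2 : (j + l + l2 + i3 + 3) ≤ (n))
    (b3 : (2 * Q + i2 + l2) ≤ (n + i + j + i3))
    (b4 : (Q + 2 * k + l + 2) ≤ (n + i + i2)) : False := by
  have ev := al.ev
  obtain ⟨y0, y1, y2, y3, y4, y5, y6, y7, y8, y9, y10, y11, y12, y13, y14, y15, y16, y17, y18, y19, y20, y21⟩ := id hy
  have n1p := And.intro n1.p1 n1.p2
  have n2p := And.intro n2.p1 n2.p2
  have n3p := And.intro n3.p1 n3.p2
  by_cases z55 : (i + k + 2 * l + i3 + 3) ≤ (3 * i2 + l2)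
  · exact t1a_23 al hy a1 a2 s1 s2 b tt c u1 u2 D1 D2 mx hL bd0 bd2 n1 n2 n3 (by clear * - b0; omega) (by clear * - b1; omega) (by clear * - b2; omega) (by clear * - b3; omega) (by clear * - b4; omega) (by clear * - z55; omega)
  · exact t1a_24 al hy a1 a2 s1 s2 b tt c u1 u2 D1 D2 mx hL bd0 bd2 n1 n2 n3 (by clear * - b0; omega) (by clear * - b1; omega) (by clear * - b2; omega) (by clear * - b3; omega) (by clear * - b4; omega) (by clear * - z55; omega)

end Pool.Agent.MP_a38735_al.WL
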