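import Pool.Agent.MP_a38735_al.WT

set_option autoImplicit false
set_option linter.unusedVariables false

namespace Pool.Agent.MP_a38735_al.WL

variable {G : Type*} [Group G]

theorem t2d_23 {W : ℤ → G} {n Q i j k l i2 l2 i3 : ℤ} (al : AL W n Q)
    (hy : (0) ≤ (i) ∧ (i) ≤ (j) ∧ (j + 1) ≤ (Q) ∧ (Q) ≤ (k) ∧ (k + 1) ≤ (n) ∧ (Q) ≤ (i + l + 1) ∧ (k + l + 2) ≤ (n) ∧ (Q) ≤ (i2) ∧ (i2) ≤ (i + l + 1) ∧ (Q) ≤ (i2 + l2 + 1) ∧ (i2 + l2 + 2) ≤ (n) ∧ (n) ≤ (k + l + l2 + 2) ∧ (k + l + l2 + 3) ≤ (n + Q) ∧ (0) ≤ (i3) ∧ (n + i3) ≤ (k + l + l2 + 2) ∧ (k + i2 + l2 + 2) ≤ (n + j + i3) ∧ (j + i3 + 1) ≤ (k) ∧ (k + i2 + l2 + 2) ≤ (n + i3) ∧ (i + 2 * i2 + 1) ≤ (2 * Q + k) ∧ (i + l + 1) ≤ (i2 + l2) ∧ (k + l + 1) ≤ (i2 + l2) ∧ (n + i2) ≤ (2 * k + 2 * l + 2) ∧ (i + 1) ≤ (i3))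
    (a1 : Par W (0) (j) (k - j))
    (a2 : Par W (Q + j - k) (j) (k - j))
    (s1 : Ant W (0) (i) (i + j))
    (s2 : Ant W (j + 1) (Q) (i + j))
    (b : Par W (i + 1) (i + l + 1) (k - i))
    (tt : Ant W (Q) (i2) (i + l + i2 + 1))
    (c : Par W (i2 + 1) (i2 + l2 + 1) (k + l - i2 + 1))
    (u1 : Ant W (0) (i3) (k + l + l2 + i3 - n + 2))
    (u2 : Ant W (k + l + l2 - n + 3) (Q) (k + l + l2 + i3 - n + 2))
    (D1 : Par W (i3 + 1) (Q) (i2 + l2 - i3 + 1))
    (D2 : Par W (i2 + l2 + 2) (n) (i3 - i2 - l2 - 1))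
    {L : ℤ} (mx : ∀ a b g, 0 < g → g < n → Par W a b g → b - a ≤ L)
    (hL : L ≤ (n - j - 3) ∧ L ≤ (n + Q - k - 3) ∧ L ≤ (n - l - 3) ∧ L ≤ (n + i - k - 2) ∧ L ≤ (n - l2 - 3) ∧ L ≤ (n + i3 - Q - 2) ∧ L ≤ (i2 + l2 - 1) ∧ L ≤ (n + i2 - k - l - 3) ∧ L ≤ (Q + i2 + l2 - i - l - 3))
    (bd0 : Bd W n L (j) (i) (k))
    (bd2 : Bd W n L (k + l + l2 - n + 2) (i3) (i2 + l2 + 1))
    (n1 : Nd W (j) (i) (k))
    (n2 : Nd W (i + l + 1) (i2) (k + l + 1))
    (n3 : Nd W (k + l + l2 - n + 2) (i3) (i2 + l2 + 1))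
    (b0 : (2 * l2 + 3) ≤ (n))
    (b1 : (n + i) ≤ (k + i2 + l2))
    (b2 : (j + l + l2 + i3 + 3) ≤ (n))
    (b3 : (2 * Q + 2 * k + l + 1) ≤ (n + 2 * i + j + i2))
    (b4 : (i + k + 2 * l + i3 + 3) ≤ (2 * Q + i2 + l2))
    (b5 : (i + 2 * i2 + l2 + 1) ≤ (2 * k + l + i3)) : False := by
  have ev := al.ev
  obtain ⟨y0, y1, y2, y3, y4, y5, y6, y7, y8, y9, y10, y11, y12, y13, y14, y15, y16, y17, y18, y19, y20, y21, y22⟩ := id hy
  have n1p := And.intro n1.p1 n1.p2
  have n2p := And.intro n2.p1 n2.p2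
  have n3p := And.intro n3.p1 n3.p2
  by_cases z54 : (2 * k + l + i3 + 1) ≤ (Q + 2 * i2 + l2)
  · by_cases z55 : (Q + 2 * k + l + 1) ≤ (n + i + i2)
    · by_cases v27 : (2 * i2 + l2) ≤ (2 * k + l)
      · have kk732 : (i + 2 * i2 + l2 + 1) ≤ (2 * k + l + i3) := by clear * - b5; omega
        have kk733 : (2 * k + l + i3 + 1) ≤ (n + i + 2 * i2 + l2) := by clear * - b0 b5 v27 y20 y21 z54 z55; linarith
        have kk734 : (2 * k + l + i3 + 1) ≤ (Q + 2 * i2 + l2) := by clear * - z54; omega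
        have kk735 : (Q + 2 * k + l + 1) ≤ (n + i + i2) := by clear * - z55; omega
        have kk736 : (k + l) ≤ (i2 + l2) := by clear * - y20; omega
        have kk737 : (n) ≤ (k + l + l2 + 2) := by clear * - y20 y21; omega
        have kk738 : (2 * i2 + l2) ≤ (2 * k + l) := by clear * - v27; omega
        have kk739 : (n + i2) ≤ (2 * k + 2 * l + 2) := by clear * - y21; omega
        clear * - al b c D2 kk732 kk733 kk734 kk735 kk736 kk737 kk738 kk739
        exact al.ubQ (2 * k + l + i3 - i - 2 * i2 - l2) (by omega) (by omega) fun t h1 h2 => (cE (sh al 1 t (t + (n)) (by omega)) (cE (qf b al 1 (t + (n)) (t + (k - i)) (by omega)) (pb (show Par W (i3 + 1) (n + i3 - i2 - l2 - 1) (2 * i2 + l2 - k - l - i3) from fun t h1 h2 => (cE (sh al (-1) t (t + (-n)) (by omega)) (cE (pb D2 al (-1) (t + (-n)) (t + (i2 + l2 - i3 + 1)) (by omega)) (pb c al 0 (t + (i2 + l2 - i3 + 1)) (t + (2 * i2 + l2 - k - l - i3)) (by omega))))) al 0 (t + (k -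 i)) (t + (2 * k + l + i3 - i - 2 * i2 - l2)) (by omega))))
      · have kk740 : (i + 2 * i2 + l2 + 1) ≤ (2 * k + l + i3) := by clear * - b5; omega
        have kk741 : (2 * k + l + i3 + 1) ≤ (n + i + 2 * i2 + l2) := by clear * - b0 b4 b5 y20 y21 z55; omega
        have kk742 : (i3 + 1) ≤ (Q) := by clear * - y12 y14; omega
        have kk743 : (Q + 2 * k + l + 1) ≤ (n + i + i2) := by clear * - z55; omega
        have kk744 : (k + l) ≤ (i2 + l2) := by clear * - y20; omega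
        have kk745 : (n) ≤ (k + l + l2 + 2) := by clear * - y20 y21; omega
        have kk746 : (2 * k + l) ≤ (2 * i2 + l2) := by clear * - v27; omega
        have kk747 : (n + i2) ≤ (2 * k + 2 * l + 2) := by clear * - y21; omega
        clear * - al b c D2 kk740 kk741 kk742 kk743 kk744 kk745 kk746 kk747
        exact al.ubQ (2 * k + l + i3 - i - 2 * i2 - l2) (by omega) (by omega) fun t h1 h2 => (cE (sh al 1 t (t + (n)) (by omega)) (cE (qf b al 1 (t + (n)) (t + (k - i)) (by omega)) (pb (show Par W (i3 + 1) (n + i3 - i2 - l2 - 1) (2 * i2 + l2 - k - l - i3) from fun t h1 h2 => (cE (sh al (-1) t (t + (-n)) (by omega)) (cE (pb D2 al (-1) (t + (-n)) (t + (i2 + l2 - i3 + 1)) (by omega)) (pb c al 0 (t + (i2 + l2 - i3 + 1)) (t + (2 * i2 + l2 - k - l - i3)) (by omega))))) al 0 (t + (k - i)) (t + (2 * k + l + i3 - i - 2 * i2 - l2)) (by omega))))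
    · have kk748 : (n + i2) ≤ (j + 2 * k + l + 1) := by clear * - b3 z55; omega
      have kk749 : (j + 2 * k + l + 2) ≤ (n + 2 * i + i2) := by clear * - b3 y2; omega
      have kk750 : (i2) ≤ (k) := by clear * - b2 b3 y17 y20 y21 z55; omega
      have kk751 : (k + l) ≤ (i2 + l2) := by clear * - y20; omega
      have kk752 : (j) ≤ (l) := by clear * - y14 y17 y2 y7; omega
      have kk753 : (i) ≤ (j) := by clear * - b1 b2 b3 y14 y17 z54 z55; linarith
      have r754 : (j + 2 * k + l - 3 * n - i2 + 1) % 2 = 0 := by clear * - ev n1p n2p n3p; omega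
      clear * - al s1 b c kk748 kk749 kk750 kk751 kk752 kk753 r754
      obtain ⟨t, ht⟩ : ∃ t, 2 * t = (j + 2 * k + l - 3 * n - i2 + 1) := ⟨(j + 2 * k + l - 3 * n - i2 + 1) / 2, by omega⟩
      exact al.ninv t (cE (cE (qa s1 al (-1) t ((i + j - n) - t) (by omega)) (pb (show Par W (2 * k + l - i2 + 2) (2 * k + 2 * l - i2 + 2) (n + i + i2 - 2 * k - l - 1) from fun t h1 h2 => (cE (sh al (-1) t (t + (-n)) (by omega)) (cE (cE (pb c al (-1) (t + (-n)) (t + (i2 - k - l - 1)) (by omega)) (pb b al 0 (t + (i2 - k - l - 1)) (t + (i + i2 - 2 * k - l - 1)) (by omega))) (sh al 1 (t + (i + i2 - 2 * k - l - 1)) (t + (n + i + i2 - 2 * k - l - 1)) (by omega))))) al (-1) ((i + j - n) - t) ((j + 2 * k + l - n - i2 + 1) - t) (by omega))) (sh al (-2) ((j + 2 * k + l - n - i2 + 1) - t) t (by omega)))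
  · by_cases z56 : (2 * k + l) ≤ (j + 2 * i2 + l2 + i3)
    · by_cases z57 : (l + 2 * i2 + 3 * l2 + 6) ≤ (2 * n + j + i3)
      · by_cases v28 : (j + 2 * i2 + l2 + 1) ≤ (2 * k + l)
        · by_cases v29 : (n + k) ≤ (2 * i2 + 2 * l2 + 3)
          · have kk755 : (j + 2 * i2 + l2 + 1) ≤ (2 * k + l + i3) := by clear * - v28 v29 z57; omega
            have kk756 : (l + 2 * i2 + 3 * l2 + 6) ≤ (2 * n + j + i3) := by clear * - z57; omega
            have kk757 : (2 * i2 + l2) ≤ (j + 2 * k + l + i3) := by clear * - b3 b4 b5 v28 v29 y21 z57; linarith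
            have kk758 : (6 * i2 + 5 * l2 + 6) ≤ (2 * n + j + 4 * k + l + i3) := by clear * - v28 v29 y14 z57; omega
            have kk759 : (k + l) ≤ (i2 + l2) := by clear * - b3 b4 v28 v29 y22; omega
            have kk760 : (n) ≤ (k + l + l2 + 2) := by clear * - b3 b4 b5 v28 v29 y21; omega
            have kk761 : (j + 2 * i2 + l2 + 1) ≤ (2 * k + l) := by clear * - v28; omega
            have kk762 : (2 * k + l + 1) ≤ (n + i2) := by clear * - b2 v29 y15; omega
            have kk763 : (n + k) ≤ (2 * i2 + 2 * l2 + 3) := by clear * - v29; omega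
            have r764 : (n + k + l + l2 + i3 + 2) % 2 = 0 := by clear * - ev n1p n2p n3p; omega
            have r765 : (2 * k + l + i3 - j - 2 * i2 - l2) % 2 = 0 := by clear * - ev n1p n2p n3p; omega
            clear * - al a1 c u1 D2 kk755 kk756 kk757 kk758 kk759 kk760 kk761 kk762 kk763 r764 r765
            exact midP al (2 * k + l + i3 - j - 2 * i2 - l2) (n + k + l + l2 + i3 + 2) (2 * i2 + 2 * l2 - k + 3) (n) (n + 2 * k + l + i3 - 2 * i2 - l2) (by omega) (fun t h1 h2 => (cE (qa u1 al 1 t ((k + l + l2 + i3 + 2) - t) (by omega)) (sh al 1 ((k + l + l2 + i3 + 2) - t) ((n + k + l + l2 + i3 + 2) - t) (by omega)))) (fun t h1 h2 => (cE (cE (qf a1 al 1 t (t + (k - n - j)) (by omega)) (pb (show Par W (i3 + 1) (n + i3 - i2 - l2 - 1) (2 * i2 + l2 - k - l - i3) from fun t h1 h2 => (cE (sh al (-1) t (t + (-n)) (by omega)) (cE (pb D2 al (-1) (t + (-n)) (t + (i2 + l2 - i3 + 1)) (by omega)) (pb c al 0 (t + (i2 + l2 - i3 + 1)) (t + (2 * i2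 + l2 - k - l - i3)) (by omega))))) al 0 (t + (k - n - j)) (t + (2 * k + l + i3 - n - j - 2 * i2 - l2)) (by omega))) (sh al 1 (t + (2 * k + l + i3 - n - j - 2 * i2 - l2)) (t + (2 * k + l + i3 - j - 2 * i2 - l2)) (by omega))))
          · have kk766 : (j + 2 * i2 + l2 + 1) ≤ (2 * k + l + i3) := by clear * - v28 z56; omega
            have kk767 : (2 * k + l) ≤ (j + 2 * i2 + l2 + i3) := by clear * - z56; omega
            have kk768 : (2 * n) ≤ (j + l + 2 * i2 + 3 * l2 + i3 + 6) := by clear * - y20 y21 z56; omega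
            have kk769 : (2 * i2 + l2) ≤ (j + 2 * k + l + i3) := by clear * - b3 b4 b5 v28 v29 y21 z56; linarith
            have kk770 : (k + l) ≤ (i2 + l2) := by clear * - y20; omega
            have kk771 : (n) ≤ (k + l + l2 + 2) := by clear * - y20 y21; omega
            have kk772 : (j + 2 * i2 + l2 + 1) ≤ (2 * k + l) := by clear * - v28; omega
            have kk773 : (2 * k + l + 1) ≤ (n + i2) := by clear * - b2 y14 y17 z56; omega
            have kk774 : (2 * i2 + 2 * l2 + 3) ≤ (n + k) := by clear * - v29; omega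
            have r775 : (n + k + l + l2 + i3 + 2) % 2 = 0 := by clear * - ev n1p n2p n3p; omega
            have r776 : (2 * k + l + i3 - j - 2 * i2 - l2) % 2 = 0 := by clear * - ev n1p n2p n3p; omega
            clear * - al a1 c u1 D2 kk766 kk767 kk768 kk769 kk770 kk771 kk772 kk773 kk774 r775 r776
            exact midP al (2 * k + l + i3 - j - 2 * i2 - l2) (n + k + l + l2 + i3 + 2) (n) (n) (n + 2 * k + l + i3 - 2 * i2 - l2) (by omega) (fun t h1 h2 => (cE (qa u1 al 1 t ((k + l + l2 + i3 + 2) - t) (by omega)) (sh al 1 ((k + l + l2 + i3 + 2) - t) ((n + k + l + l2 + i3 + 2) - t) (by omega)))) (fun t h1 h2 => (cE (cE (qf a1 al 1 t (t + (k - n - j)) (by omega)) (pb (show Par W (i3 + 1) (n + i3 - i2 - l2 - 1) (2 * i2 + l2 - k - l - i3) from fun t h1 h2 => (cE (sh al (-1) t (t + (-n)) (by omega)) (cE (pb D2 al (-1) (t + (-n)) (t + (i2 + l2 - i3 + 1)) (by omega)) (pb c al 0 (t + (i2 + l2 - i3 + 1)) (t + (2 * i2 + l2 - k - l - i3)) (by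 omega))))) al 0 (t + (k - n - j)) (t + (2 * k + l + i3 - n - j - 2 * i2 - l2)) (by omega))) (sh al 1 (t + (2 * k + l + i3 - n - j - 2 * i2 - l2)) (t + (2 * k + l + i3 - j - 2 * i2 - l2)) (by omega))))
        · by_cases v30 : (n + j) ≤ (k + l + l2 + 2)
          · have kk777 : (j + 2 * i2 + l2 + 1) ≤ (2 * k + l + i3) := by clear * - v30 z57; omega
            have kk778 : (l + 2 * i2 + 3 * l2 + 6) ≤ (2 * n + j + i3) := by clear * - z57; omega
            have kk779 : (j + 6 * i2 + 3 * l2 + 2) ≤ (6 * k + 3 * l + i3) := by clear * - v30 y14 z57; omega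
            have kk780 : (6 * i2 + 5 * l2 + 6) ≤ (2 * n + j + 4 * k + l + i3) := by clear * - v30 y14 z57; omega
            have kk781 : (k + l) ≤ (i2 + l2) := by clear * - b3 b4 v30 y22; omega
            have kk782 : (n) ≤ (k + l + l2 + 2) := by clear * - b3 b4 b5 v28 v30 y21; omega
            have kk783 : (2 * k + l) ≤ (j + 2 * i2 + l2 + 1) := by clear * - v28; omega
            have kk784 : (2 * k + l + 1) ≤ (n + i2) := by clear * - b2 b3 b4 v28 v30 y17 y21 z54; linarith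
            have kk785 : (n + k) ≤ (2 * i2 + 2 * l2 + 3) := by clear * - v28 v30; omega
            have kk786 : (n + j) ≤ (k + l + l2 + 2) := by clear * - v30; omega
            have r787 : (n + k + l + l2 + i3 + 2) % 2 = 0 := by clear * - ev n1p n2p n3p; omega
            have r788 : (2 * k + l + i3 - j - 2 * i2 - l2) % 2 = 0 := by clear * - ev n1p n2p n3p; omega
            clear * - al a1 c u1 D2 kk777 kk778 kk779 kk780 kk781 kk782 kk783 kk784 kk785 kk786 r787 r788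
            exact midP al (2 * k + l + i3 - j - 2 * i2 - l2) (n + k + l + l2 + i3 + 2) (2 * i2 + 2 * l2 - k + 3) (n + j + 2 * i2 + l2 - 2 * k - l + 1) (n + 2 * k + l + i3 - 2 * i2 - l2) (by omega) (fun t h1 h2 => (cE (qa u1 al 1 t ((k + l + l2 + i3 + 2) - t) (by omega)) (sh al 1 ((k + l + l2 + i3 + 2) - t) ((n + k + l + l2 + i3 + 2) - t) (by omega)))) (fun t h1 h2 => (cE (cE (qf a1 al 1 t (t + (k - n - j)) (by omega)) (pb (show Par W (i3 + 1) (n + i3 - i2 - l2 - 1) (2 * i2 + l2 - k - l - i3) from fun t h1 h2 => (cE (sh al (-1) t (t + (-n)) (by omega)) (cE (pb D2 al (-1) (t + (-n)) (t + (i2 + l2 - i3 + 1)) (by omega)) (pb c al 0 (t + (i2 + l2 - i3 + 1)) (t + (2 * i2 + l2 - k - l - i3)) (by omega))))) al 0 (t + (k - n - j)) (t + (2 * k + l + i3 - n - j - 2 * i2 - l2)) (by omega))) (sh al 1 (t + (2 * k + l + i3 - n - j - 2 * i2 - l2)) (t + (2 * k + l + i3 - j - 2 * i2 - l2)) (by omega))))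
          · have kk789 : (j + 2 * i2 + l2 + 1) ≤ (2 * k + l + i3) := by clear * - y2 z54; omega
            have kk790 : (j + 2 * i2 + l2 + 2) ≤ (2 * k + l + i3) := by clear * - y2 z54 ev n1p n2p n3p; omega
            have kk791 : (2 * n + 3 * j + 6 * i2 + l2) ≤ (8 * k + 5 * l + i3 + 2) := by clear * - y14 y2 z54; omega
            have kk792 : (j + 6 * i2 + 3 * l2 + 2) ≤ (6 * k + 3 * l + i3) := by clear * - v30 y14 y2 z54; omega
            have kk793 : (k + l) ≤ (i2 + l2) := by clear * - y20; omega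
            have kk794 : (n) ≤ (k + l + l2 + 2) := by clear * - y20 y21; omega
            have kk795 : (2 * k + l) ≤ (j + 2 * i2 + l2 + 1) := by clear * - v28; omega
            have kk796 : (2 * k + l + 1) ≤ (n + i2) := by clear * - b2 v28 y17 y20 y21; omega
            have kk797 : (k + l + l2 + 2) ≤ (n + j) := by clear * - v30; omega
            have r798 : (n + k + l + l2 + i3 + 2) % 2 = 0 := by clear * - ev n1p n2p n3p; omega
            have r799 : (2 * k + l + i3 - j - 2 * i2 - l2) % 2 = 0 := by clear * - ev n1p n2p n3p; omega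
            clear * - al a1 c u1 D2 kk789 kk790 kk791 kk792 kk793 kk794 kk795 kk796 kk797 r798 r799
            exact midP al (2 * k + l + i3 - j - 2 * i2 - l2) (n + k + l + l2 + i3 + 2) (n + j + 2 * i2 + l2 - 2 * k - l + 1) (n + j + 2 * i2 + l2 - 2 * k - l + 1) (n + 2 * k + l + i3 - 2 * i2 - l2) (by omega) (fun t h1 h2 => (cE (qa u1 al 1 t ((k + l + l2 + i3 + 2) - t) (by omega)) (sh al 1 ((k + l + l2 + i3 + 2) - t) ((n + k + l + l2 + i3 + 2) - t) (by omega)))) (fun t h1 h2 => (cE (cE (qf a1 al 1 t (t + (k - n - j)) (by omega)) (pb (show Par W (i3 + 1) (n + i3 - i2 - l2 - 1) (2 * i2 + l2 - k - l - i3) from fun t h1 h2 => (cE (sh al (-1) t (t + (-n)) (by omega)) (cE (pb D2 al (-1) (t + (-n)) (t + (i2 + l2 - i3 + 1)) (by omega)) (pb c al 0 (t + (i2 + l2 - i3 + 1)) (t + (2 * i2 + l2 - k - l - i3)) (by omega))))) al 0 (t + (k - n - j)) (t + (2 * k + l + i3 - n - j - 2 * i2 - l2)) (by omega))) (sh al 1 (t + (2 * k + l + i3 - n - j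 - 2 * i2 - l2)) (t + (2 * k + l + i3 - j - 2 * i2 - l2)) (by omega))))
      · by_cases v31 : (n + Q + j + i2) ≤ (3 * k + l + 2)
        · by_cases v32 : (n + j + i2) ≤ (2 * k + 2 * l + 2)
          · have kk800 : (n + i + j + i2) ≤ (3 * k + l) := by clear * - b1 b2 b4 v32 z54; omega
            have kk801 : (j + 3 * k + l + 3) ≤ (n + 2 * Q + i + i2) := by clear * - b0 b3 b4 v32 y17 z56; omega
            have kk802 : (i + 3 * k + l + 3) ≤ (n + 2 * Q + j + i2) := by clear * - b0 b4 y15 z57; omega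
            have kk803 : (2 * Q) ≤ (i + k + 1) := by clear * - b1 b2 b3 b4 v32 z54; omega
            have kk804 : (i) ≤ (j) := by clear * - y1; omega
            have kk805 : (i2) ≤ (k) := by clear * - b3 b4 b5 v32; omega
            have kk806 : (n + Q + j + i2) ≤ (3 * k + l + 2) := by clear * - v31; omega
            have kk807 : (n + j + i2) ≤ (2 * k + 2 * l + 2) := by clear * - v32; omega
            have kk808 : (n + j) ≤ (k + l + l2 + 2) := by clear * - b3 b4 v32 y22; omega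
            have kk809 : (Q) ≤ (k) := by clear * - b0 b3 b4 b5 v31 z57; omega
            have r810 : (i + k) % 2 = 0 := by clear * - ev n1p n2p n3p; omega
            have r811 : (3 * k + l - n - i - j - i2 + 1) % 2 = 0 := by clear * - ev n1p n2p n3p; omega
            clear * - al a2 s2 b c kk800 kk801 kk802 kk803 kk804 kk805 kk806 kk807 kk808 kk809 r810 r811
            exact midP al (3 * k + l - n - i - j - i2 + 1) (i + k) (i + k - Q + 1) (i + 1) (k) (by omega) (fun t h1 h2 => (cI (pb a2 al 0 t (t + (j - k)) (by omega)) (ab s2 al 0 (t + (j - k)) ((i + k) - t) (by omega)))) (fun t h1 h2 => (cE (cE (qf b al 0 t (t + (k - i)) (by omega)) (qf c al 0 (t + (k - i)) (t + (2 * k + l - i - i2 + 1)) (by omega))) (qf a2 al 1 (t + (2 * k + l - i - i2 + 1)) (t + (3 * k + l - n - i - j - i2 + 1)) (by omega))))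
          · have kk812 : (n + i + j + i2) ≤ (3 * k + l) := by clear * - b0 b4 z54 z57; omega
            have kk813 : (j + 3 * k + l + 3) ≤ (n + 2 * Q + i + i2) := by clear * - b0 b4 y0 y17 z57; omega
            have kk814 : (i + 3 * k + l + 3) ≤ (n + 2 * Q + j + i2) := by clear * - b0 b4 v32 y17 y21 z57; omega
            have kk815 : (n + i + j + i2) ≤ (2 * Q + k + 3 * l + 1) := by clear * - b0 b4 y17 y21 z57; omega
            have kk816 : (2 * Q) ≤ (i + k + 1) := by clear * - b0 b3 b4 z54 z57; omega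
            have kk817 : (i) ≤ (j) := by clear * - y1; omega
            have kk818 : (i2) ≤ (k) := by clear * - b0 b3 v31 v32 y18 z54 z57; linarith
            have kk819 : (n + Q + j + i2) ≤ (3 * k + l + 2) := by clear * - v31; omega
            have kk820 : (k + l) ≤ (i2 + l2) := by clear * - y20; omega
            have kk821 : (2 * k + 2 * l + 2) ≤ (n + j + i2) := by clear * - v32; omega
            have kk822 : (Q) ≤ (k) := by clear * - b0 b3 b4 b5 v31 z57; omega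
            have kk823 : (n + Q + j + i2) ≤ (3 * k + 2 * l + 2) := by clear * - b2 y21 z54 z56 z57; omega
            have r824 : (i + k) % 2 = 0 := by clear * - ev n1p n2p n3p; omega
            have r825 : (3 * k + l - n - i - j - i2 + 1) % 2 = 0 := by clear * - ev n1p n2p n3p; omega
            clear * - al a2 s2 b c kk812 kk813 kk814 kk815 kk816 kk817 kk818 kk819 kk820 kk821 kk822 kk823 r824 r825
            exact midP al (3 * k + l - n - i - j - i2 + 1) (i + k) (i + k - Q + 1) (i + 1) (3 * k + 2 * l - n - j - i2 + 2) (by omega) (fun t h1 h2 => (cI (pb a2 al 0 t (t + (j - k)) (by omega)) (ab s2 al 0 (t + (j - k)) ((i + k) - t) (by omega)))) (fun t h1 h2 => (cE (cE (qf b al 0 t (t + (k - i)) (by omega)) (qf c al 0 (t + (k - i)) (t + (2 * k + l - i - i2 + 1)) (by omega))) (qf a2 al 1 (t + (2 * k + l - i - i2 + 1)) (t + (3 * k + l - n - i - j - i2 + 1)) (by omega))))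
        · by_cases v33 : (n + j + i2) ≤ (2 * k + 2 * l + 2)
          · have kk826 : (n + i + j + i2) ≤ (3 * k + l) := by clear * - b1 b2 b4 v33 z54; omega
            have kk827 : (j + 3 * k + l + 3) ≤ (n + 2 * Q + i + i2) := by clear * - b0 b3 b4 v33 y17 z56; omega
            have kk828 : (n + i + j + i2) ≤ (3 * k + l + 1) := by clear * - b1 b2 b4 v33 z54; omega
            have kk829 : (i + 3 * k + l + 3) ≤ (n + 2 * Q + j + i2) := by clear * - b1 b2 b4 v31 v33 z54; omega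
            have kk830 : (2 * Q) ≤ (i + k + 1) := by clear * - b1 b2 b3 b4 v33 z54; omega
            have kk831 : (i) ≤ (j) := by clear * - y1; omega
            have kk832 : (3 * k + l + 2) ≤ (n + Q + j + i2) := by clear * - v31; omega
            have kk833 : (2 * k + l + 2) ≤ (n + Q + j) := by clear * - b3 b4 b5 v31 v33; omega
            have kk834 : (n + j + i2) ≤ (2 * k + 2 * l + 2) := by clear * - v33; omega
            have kk835 : (n + j) ≤ (k + l + l2 + 2) := by clear * - b3 b4 v33 y22; omega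
            have kk836 : (Q) ≤ (k) := by clear * - b1 b2 b3 b4 v31 v33 z54; linarith
            have kk837 : (n + 2 * Q + j + i2) ≤ (4 * k + l + 2) := by clear * - b1 b2 b3 b4 v33 z54; omega
            have r838 : (i + k) % 2 = 0 := by clear * - ev n1p n2p n3p; omega
            have r839 : (3 * k + l - n - i - j - i2 + 1) % 2 = 0 := by clear * - ev n1p n2p n3p; omega
            clear * - al a2 s2 b c kk826 kk827 kk828 kk829 kk830 kk831 kk832 kk833 kk834 kk835 kk836 kk837 r838 r839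
            exact midP al (3 * k + l - n - i - j - i2 + 1) (i + k) (i + k - Q + 1) (n + Q + i + j + i2 - 3 * k - l - 1) (k) (by omega) (fun t h1 h2 => (cI (pb a2 al 0 t (t + (j - k)) (by omega)) (ab s2 al 0 (t + (j - k)) ((i + k) - t) (by omega)))) (fun t h1 h2 => (cE (cE (qf b al 0 t (t + (k - i)) (by omega)) (qf c al 0 (t + (k - i)) (t + (2 * k + l - i - i2 + 1)) (by omega))) (qf a2 al 1 (t + (2 * k + l - i - i2 + 1)) (t + (3 * k + l - n - i - j - i2 + 1)) (by omega))))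
          · have kk840 : (n + i + j + i2) ≤ (3 * k + l) := by clear * - b0 b4 z54 z57; omega
            have kk841 : (j + 3 * k + l + 3) ≤ (n + 2 * Q + i + i2) := by clear * - b0 b4 y0 y17 z57; omega
            have kk842 : (n + i + j + i2) ≤ (3 * k + l + 1) := by clear * - b0 b4 z54 z57; omega
            have kk843 : (n + i + j + i2) ≤ (2 * Q + k + 3 * l + 1) := by clear * - b0 b4 y17 y21 z57; omega
            have kk844 : (2 * Q) ≤ (i + k + 1) := by clear * - b0 b3 b4 z54 z57; omega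
            have kk845 : (i) ≤ (j) := by clear * - y1; omega
            have kk846 : (3 * k + l + 2) ≤ (n + Q + j + i2) := by clear * - v31; omega
            have kk847 : (2 * k + l + 2) ≤ (n + Q + j) := by clear * - b0 b3 v31 v33 y18 z54 z57; linarith
            have kk848 : (k + l) ≤ (i2 + l2) := by clear * - y20; omega
            have kk849 : (2 * k + 2 * l + 2) ≤ (n + j + i2) := by clear * - v33; omega
            have kk850 : (n + Q + j + i2) ≤ (3 * k + 2 * l + 2) := by clear * - b2 y21 z54 z56 z57; omega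
            have kk851 : (n + 2 * Q + j + i2) ≤ (4 * k + l + 2) := by clear * - b0 b3 b4 z54 z57; omega
            have r852 : (i + k) % 2 = 0 := by clear * - ev n1p n2p n3p; omega
            have r853 : (3 * k + l - n - i - j - i2 + 1) % 2 = 0 := by clear * - ev n1p n2p n3p; omega
            clear * - al a2 s2 b c kk840 kk841 kk842 kk843 kk844 kk845 kk846 kk847 kk848 kk849 kk850 kk851 r852 r853
            exact midP al (3 * k + l - n - i - j - i2 + 1) (i + k) (i + k - Q + 1) (n + Q + i + j + i2 - 3 * k - l - 1) (3 * k + 2 * l - n - j - i2 + 2) (by omega) (fun t h1 h2 => (cI (pb a2 al 0 t (t + (j - k)) (by omega)) (ab s2 al 0 (t + (j - k)) ((i + k) - t) (by omega)))) (fun t h1 h2 => (cE (cE (qf b al 0 t (t + (k - i)) (by omega)) (qf c al 0 (t + (k - i)) (t + (2 * k + l - i - i2 + 1)) (by omega))) (qf a2 al 1 (t + (2 * k + l - i - i2 + 1)) (t + (3 * k + l - n - i - j - i2 + 1)) (by omega))))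
    · by_cases z58 : (k + i2 + l2) ≤ (n + i)
      · have kk854 : (k + l + 1) ≤ (i2 + l2) := by clear * - y20; omega
        have kk855 : (i2) ≤ (k + l) := by clear * - b2 b3 b4 y20 y21 y22 z58; linarith
        have kk856 : (i + 1) ≤ (k) := by clear * - b2 b3 b4 y21 y22; omega
        have kk857 : (0) ≤ (l) := by clear * - b0 y14 y20 y21 y22 z58; omega
        have kk858 : (i + k + l + 1) ≤ (2 * i2 + l2) := by clear * - b0 y14 y20 y22; omega
        have kk859 : (2 * i2 + l2) ≤ (2 * k + 2 * l) := by clear * - b2 b3 b4 y21 y22 z58; omega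
        have kk860 : (i + 1) ≤ (i3) := by clear * - y22; omega
        have kk861 : (i3) ≤ (k + l) := by clear * - b0 b5 y14 y20 y21 z58; omega
        have kk862 : (k + i2 + l2) ≤ (n + i) := by clear * - z58; omega
        have kk863 : (k + l) ≤ (i2 + l2) := by clear * - y20; omega
        have kk864 : (n) ≤ (k + l + l2 + 2) := by clear * - y20 y21; omega
        have kk865 : (i + k + l) ≤ (2 * i2 + l2) := by clear * - b0 y14 y20 y22; omega
        have kk866 : (i) ≤ (i3) := by clear * - y22; omega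
        have kk867 : (k + l + i3) ≤ (2 * i2 + l2) := by clear * - b0 y14 y20; omega
        have kk868 : (n + i2) ≤ (2 * k + 2 * l + 2) := by clear * - y21; omega
        have r869 : (k + l + i3 - 2 * i2 - l2) % 2 = 0 := by clear * - ev n1p n2p n3p; omega
        have r870 : (k - i) % 2 = 0 := by clear * - ev n1p n2p n3p; omega
        clear * - al b c D2 n3 kk854 kk855 kk856 kk857 kk858 kk859 kk860 kk861 kk862 kk863 kk864 kk865 kk866 kk867 kk868 r869 r870
        exact ivt0 (n + i + 1) (n + i + l + 1) (k - i) (n + 2 * i2 + l2 - k - l + 1) (2 * n + i2 - k - l - 1) (k + l + i3 - 2 * i2 - l2) (n + 2 * i2 + l2 - k - l) (n + i3) 0 (fun t h1 h2 => (cE (qf b al 1 t (t + (k - n - i)) (by omega)) (sh al 1 (t + (k - n - i)) (t + (k - i)) (by omega)))) (fun t h1 h2 => (cE (pb (show Par W (i3 + 1) (n + i3 - i2 - l2 - 1) (2 * i2 + l2 - k - l - i3) from fun t h1 h2 => (cE (sh al (-1) t (t + (-n)) (by omega)) (cE (pb D2 al (-1) (t + (-n)) (t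 + (i2 + l2 - i3 + 1)) (by omega)) (pb c al 0 (t + (i2 + l2 - i3 + 1)) (t + (2 * i2 + l2 - k - l - i3)) (by omega))))) al 1 t (t + (k + l + i3 - n - 2 * i2 - l2)) (by omega)) (sh al 1 (t + (k + l + i3 - n - 2 * i2 - l2)) (t + (k + l + i3 - 2 * i2 - l2)) (by omega)))) (fun hh => n3.f1 (rEE (sh al 1 (i3) (n + i3) (by omega)) (cE (pb c al 0 (i2 + l2 + 1) (2 * i2 + l2 - k - l) (by omega)) (sh al 1 (2 * i2 + l2 - k - l) (n + 2 * i2 + l2 - k - l) (by omega))) (Eq.symm (Eq.symm hh)))) (by omega) (by omega)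
      · by_cases z59 : (k + l + l2 + 2) ≤ (n + i3)
        · have kk871 : (k + l + 1) ≤ (i2 + l2) := by clear * - y20; omega
          have kk872 : (i2) ≤ (k + l) := by clear * - b2 b3 b4 y17 y20 y21 z58; linarith
          have kk873 : (i + 1) ≤ (k) := by clear * - b2 b3 b4 y21 y22; omega
          have kk874 : (0) ≤ (l) := by clear * - b0 y14 y17 y20 y21; omega
          have kk875 : (n + i) ≤ (k + l + l2 + 1) := by clear * - y14 y22; omega
          have kk876 : (l2 + 2) ≤ (n) := by clear * - b0 b3 b4 y17 y20 y21 z56 z58; linarith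
          have kk877 : (i + k + l + 1) ≤ (2 * i2 + l2) := by clear * - b0 y14 y20 y22; omega
          have kk878 : (2 * i2 + l2) ≤ (2 * k + 2 * l) := by clear * - b2 b3 b4 y17 y21 z58; omega
          have kk879 : (k + l + l2 + 2) ≤ (n + i3) := by clear * - z59; omega
          have kk880 : (n + i3) ≤ (k + l + l2 + 2) := by clear * - y14; omega
          have kk881 : (k + i2 + l2 + 1) ≤ (n + i3) := by clear * - y17; omega
          have kk882 : (k + l) ≤ (i2 + l2) := by clear * - y20; omega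
          have kk883 : (n) ≤ (k + l + l2 + 2) := by clear * - y20 y21; omega
          have kk884 : (i) ≤ (i3) := by clear * - y22; omega
          have kk885 : (i + k + l) ≤ (2 * i2 + l2) := by clear * - b0 y14 y20 y22; omega
          have kk886 : (n + i3) ≤ (k + l + i2 + l2 + 2) := by clear * - b0 y14 y20 y21; omega
          have kk887 : (n + i2) ≤ (2 * k + 2 * l + 2) := by clear * - y21; omega
          have kk888 : (l2 + i3 + 2) ≤ (n) := by clear * - b0 b3 b4 y14 y17 y20 y21 z56 z58; linarith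
          have kk889 : (0) ≤ (i + 1) := by clear * - y0; omega
          have kk890 : (n + i) ≤ (k + l + l2 + 2) := by clear * - y14 y22; omega
          have kk891 : (i3) ≤ (k + l + 1) := by clear * - b0 b3 b4 y14 y17 y20 y21 z56 z58; linarith
          have r892 : (2 * i2 + l2 - k - l - i3) % 2 = 0 := by clear * - ev n1p n2p n3p; omega
          have r893 : (k - i) % 2 = 0 := by clear * - ev n1p n2p n3p; omega
          have r894 : (k + l + l2 + i3 - 3 * n + 2) % 2 = 0 := by clear * - ev n1p n2p n3p; omega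
          clear * - al b c u1 D2 n3 kk871 kk872 kk873 kk874 kk875 kk876 kk877 kk878 kk879 kk880 kk881 kk882 kk883 kk884 kk885 kk886 kk887 kk888 kk889 kk890 kk891 r892 r893 r894
          exact ivt al.ninv (i - n + 1) (i + l - n + 1) (k - i) (i3 - n + 1) (i3 - i2 - l2 - 1) (2 * i2 + l2 - k - l - i3) (k + l + l2 - 2 * n + 2) (2 * i2 + l2 - n - k - l) 0 (fun t h1 h2 => (cE (qf b al (-1) t (t + (n + k - i)) (by omega)) (sh al (-1) (t + (n + k - i)) (t + (k - i)) (by omega)))) (fun t h1 h2 => (cE (qf (show Par W (i3 + 1) (n + i3 - i2 - l2 - 1) (2 * i2 + l2 - k - l - i3) from fun t h1 h2 => (cE (sh al (-1) t (t + (-n)) (by omega)) (cE (pb D2 al (-1) (t + (-n)) (t + (i2 + l2 - i3 + 1)) (by omega)) (pb c al 0 (t + (i2 + l2 - i3 + 1)) (t + (2 * i2 + l2 - k - l - i3)) (by omega))))) al (-1) t (t + (n + 2 * i2 + l2 - k - l - i3)) (by omega)) (sh al (-1) (t + (n + 2 * i2 + l2 - k - l - i3)) (t + (2 * i2 + l2 - k - l - i3)) (by omega)))) (fun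 hh => n3.f0 (rEE (sh al (-1) (k + l + l2 - n + 2) (k + l + l2 - 2 * n + 2) (by omega)) (cE (pb c al 0 (i2 + l2 + 1) (2 * i2 + l2 - k - l) (by omega)) (sh al (-1) (2 * i2 + l2 - k - l) (2 * i2 + l2 - n - k - l) (by omega))) (Eq.symm hh))) (by omega) (i - n + 1) (i3 - n) (k + l + l2 + i3 - 3 * n + 2) 0 (-1) (fun t h1 h2 => (cE (qa u1 al (-1) t ((k + l + l2 + i3 - 2 * n + 2) - t) (by omega)) (sh al (-1) ((k + l + l2 + i3 - 2 * n + 2) - t) ((k + l + l2 + i3 - 3 * n + 2) - t) (by omega)))) (by omega)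
        · by_cases z60 : (n + k) ≤ (j + 2 * i2 + 2 * l2 + 3)
          · by_cases z61 : (2 * i2 + 2 * l2 + 3) ≤ (n + j + k)
            · have kk895 : (k + l + 1) ≤ (i2 + l2) := by clear * - y20; omega
              have kk896 : (i2) ≤ (k + l) := by clear * - b2 y17 y20 y21 z60 z61; omega
              have kk897 : (i + 1) ≤ (k) := by clear * - b2 b5 z60; omega
              have kk898 : (0) ≤ (l) := by clear * - b2 y17 y21 z60; omega
              have kk899 : (i + 1) ≤ (i3) := by clear * - y22; omega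
              have kk900 : (i3) ≤ (k + l) := by clear * - b2 b3 b4 y17 y21 z58 z60; linarith
              have kk901 : (i + k + l + 1) ≤ (2 * i2 + l2) := by clear * - b2 y22 z60; omega
              have kk902 : (2 * i2 + l2) ≤ (2 * k + 2 * l) := by clear * - b2 b3 b4 y17 y21 z58; omega
              have kk903 : (k + i2 + l2 + 1) ≤ (n + i3) := by clear * - y17; omega
              have kk904 : (k + l) ≤ (i2 + l2) := by clear * - y20; omega
              have kk905 : (n) ≤ (k + l + l2 + 2) := by clear * - y20 y21; omega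
              have kk906 : (i) ≤ (i3) := by clear * - y22; omega
              have kk907 : (i + k + l) ≤ (2 * i2 + l2) := by clear * - b2 y22 z60; omega
              have kk908 : (n + i3) ≤ (k + l + i2 + l2 + 2) := by clear * - b2 y21 z60; omega
              have kk909 : (n + i2) ≤ (2 * k + 2 * l + 2) := by clear * - y21; omega
              have kk910 : (l2 + i3 + 2) ≤ (n) := by clear * - b2 y17 y21 z60 z61; omega
              have kk911 : (0) ≤ (i + 1) := by clear * - y0; omega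
              have kk912 : (n + i) ≤ (k + l + l2 + 2) := by clear * - y22 z59; omega
              have kk913 : (i3) ≤ (k + l + 1) := by clear * - b2 b3 b4 y17 y21 z58 z60; linarith
              have r914 : (2 * i2 + l2 - k - l - i3) % 2 = 0 := by clear * - ev n1p n2p n3p; omega
              have r915 : (k - i) % 2 = 0 := by clear * - ev n1p n2p n3p; omega
              have r916 : (k + l + l2 + i3 - 3 * n + 2) % 2 = 0 := by clear * - ev n1p n2p n3p; omega
              clear * - al b c u1 D2 n3 kk895 kk896 kk897 kk898 kk899 kk900 kk901 kk902 kk903 kk904 kk905 kk906 kk907 kk908 kk909 kk910 kk911 kk912 kk913 r914 r915 r916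
              exact ivt al.ninv (i - n + 1) (i + l - n + 1) (k - i) (i3 - n + 1) (i3 - i2 - l2 - 1) (2 * i2 + l2 - k - l - i3) (i3 - n) (2 * i2 + l2 - n - k - l) 0 (fun t h1 h2 => (cE (qf b al (-1) t (t + (n + k - i)) (by omega)) (sh al (-1) (t + (n + k - i)) (t + (k - i)) (by omega)))) (fun t h1 h2 => (cE (qf (show Par W (i3 + 1) (n + i3 - i2 - l2 - 1) (2 * i2 + l2 - k - l - i3) from fun t h1 h2 => (cE (sh al (-1) t (t + (-n)) (by omega)) (cE (pb D2 al (-1) (t + (-n)) (t + (i2 + l2 - i3 + 1)) (by omega)) (pb c al 0 (t + (i2 + l2 - i3 + 1)) (t + (2 * i2 + l2 - k - l - i3)) (by omega))))) al (-1) t (t + (n + 2 * i2 + l2 - k - l - i3)) (by omega)) (sh al (-1) (t + (n + 2 * i2 + l2 - k - l - i3)) (t + (2 * i2 + l2 - k - l - i3)) (by omega)))) (fun hh => n3.f1 (rEE (sh al (-1) (i3) (i3 - n) (by omega)) (cE (pb c al 0 (i2 + l2 + 1) (2 * i2 + l2 - k - l) (by omega)) (sh al (-1) (2 * i2 + l2 - k - l) (2 * i2 + l2 - n - k - l) (by omega)))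 (Eq.symm hh))) (by omega) (i - n + 1) (i3 - n) (k + l + l2 + i3 - 3 * n + 2) 0 (-1) (fun t h1 h2 => (cE (qa u1 al (-1) t ((k + l + l2 + i3 - 2 * n + 2) - t) (by omega)) (sh al (-1) ((k + l + l2 + i3 - 2 * n + 2) - t) ((k + l + l2 + i3 - 3 * n + 2) - t) (by omega)))) (by omega)
            · have kk917 : (k + i2 + l2 + 2) ≤ (n + j + i3) := by clear * - y15; omega
              have kk918 : (n + 2 * Q + j + i3) ≤ (k + 3 * i2 + l2 + 1) := by clear * - b0 b3 z56 z58 z61; omega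
              have kk919 : (n + 4 * Q + j + i3) ≤ (2 * i + k + 2 * l + 3 * i2 + l2 + 5) := by clear * - b0 b3 b4 b5 z54 z59 z61; linarith
              have kk920 : (2 * Q + j + i2 + l2 + 1) ≤ (n + k + i3) := by clear * - b2 b3 b5 z61; omega
              have kk921 : (k + i2 + l2 + 2) ≤ (n + Q + j) := by clear * - b0 b3 b4 y15 y21 z56 z61; linarith
              have kk922 : (0) ≤ (j) := by clear * - y0 y1; omega
              have kk923 : (i + l + 2 * i2 + l2 + 3) ≤ (n + Q + i3) := by clear * - b4 y17 z54; omega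
              have r924 : (i + l + i2 - 2 * n + 1) % 2 = 0 := by clear * - ev n1p n2p n3p; omega
              have r925 : (n + j + i3 - k - i2 - l2 - 1) % 2 = 0 := by clear * - ev n1p n2p n3p; omega
              clear * - al a2 tt D2 kk917 kk918 kk919 kk920 kk921 kk922 kk923 r924 r925
              exact midP al (n + j + i3 - k - i2 - l2 - 1) (i + l + i2 - 2 * n + 1) (Q - n) (Q - n) (i3 - i2 - l2 - 1) (by omega) (fun t h1 h2 => (cE (qa tt al (-1) t ((i + l + i2 - n + 1) - t) (by omega)) (sh al (-1) ((i + l + i2 - n + 1) - t) ((i + l + i2 - 2 * n + 1) - t) (by omega)))) (fun t h1 h2 => (cE (qf (show Par W (Q) (k - j) (n + j + i3 - k - i2 - l2 - 1) from fun t h1 h2 => (cE (sh al (-1) t (t + (-n)) (by omega)) (cE (pb a2 al (-1) (t + (-n)) (t + (j - k)) (by omega)) (qf D2 al (-1) (t + (j - k)) (t + (n + j + i3 - k - i2 - l2 - 1)) (by omega))))) al (-1) t (t + (2 * n + j + i3 - k - i2 - l2 - 1)) (by omega)) (sh al (-1) (t + (2 *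 n + j + i3 - k - i2 - l2 - 1)) (t + (n + j + i3 - k - i2 - l2 - 1)) (by omega))))
          · have kk926 : (k + l + 1) ≤ (i2 + l2) := by clear * - y20; omega
            have kk927 : (i2) ≤ (k + l) := by clear * - b2 b3 b4 y17 y20 y21 z58; linarith
            have kk928 : (i + 1) ≤ (k) := by clear * - b2 b3 b4 y21 y22; omega
            have kk929 : (0) ≤ (l) := by clear * - b0 y17 y20 y21 z59; omega
            have kk930 : (i + k + l + 1) ≤ (2 * i2 + l2) := by clear * - b0 y20 y22 z59; omega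
            have kk931 : (2 * i2 + l2) ≤ (2 * k + 2 * l) := by clear * - b2 b3 b4 y17 y21 z58; omega
            have kk932 : (i + 1) ≤ (i3) := by clear * - y22; omega
            have kk933 : (i3) ≤ (k + l) := by clear * - b0 b3 b4 y17 y20 y21 z58 z59 z60; linarith
            have kk934 : (k + i2 + l2 + 1) ≤ (n + i3) := by clear * - y17; omega
            have kk935 : (k + l) ≤ (i2 + l2) := by clear * - y20; omega
            have kk936 : (n) ≤ (k + l + l2 + 2) := by clear * - y20 y21; omega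
            have kk937 : (i + k + l) ≤ (2 * i2 + l2) := by clear * - b0 y20 y22 z59; omega
            have kk938 : (i) ≤ (i3) := by clear * - y22; omega
            have kk939 : (k + l + i3) ≤ (2 * i2 + l2) := by clear * - b0 y20 z59; omega
            have kk940 : (n + i2) ≤ (2 * k + 2 * l + 2) := by clear * - y21; omega
            have kk941 : (0) ≤ (i + 1) := by clear * - y0; omega
            have kk942 : (l2 + i3 + 1) ≤ (n + i) := by clear * - b0 b3 b4 y17 y20 y21 z59 z60; linarith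
            have kk943 : (i3) ≤ (k + l + 1) := by clear * - b0 b3 b4 y17 y20 y21 z58 z59 z60; linarith
            have kk944 : (n + i) ≤ (k + l + l2 + 2) := by clear * - y22 z59; omega
            have r945 : (k + l + i3 - 2 * i2 - l2) % 2 = 0 := by clear * - ev n1p n2p n3p; omega
            have r946 : (k - i) % 2 = 0 := by clear * - ev n1p n2p n3p; omega
            have r947 : (k + l + l2 + i3 - n + 2) % 2 = 0 := by clear * - ev n1p n2p n3p; omega
            clear * - al b c u1 D2 n3 kk926 kk927 kk928 kk929 kk930 kk931 kk932 kk933 kk934 kk935 kk936 kk937 kk938 kk939 kk940 kk941 kk942 kk943 kk944 r945 r946 r947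
            exact ivt al.ninv (i + 1) (i + l + 1) (k - i) (2 * i2 + l2 - k - l + 1) (n + i2 - k - l - 1) (k + l + i3 - 2 * i2 - l2) (2 * i2 + l2 - k - l) (i3) 0 (fun t h1 h2 => (qf b al 0 t (t + (k - i)) (by omega))) (fun t h1 h2 => (cE (sh al 1 t (t + (n)) (by omega)) (pb (show Par W (i3 + 1) (n + i3 - i2 - l2 - 1) (2 * i2 + l2 - k - l - i3) from fun t h1 h2 => (cE (sh al (-1) t (t + (-n)) (by omega)) (cE (pb D2 al (-1) (t + (-n)) (t + (i2 + l2 - i3 + 1)) (by omega)) (pb c al 0 (t + (i2 + l2 - i3 + 1)) (t + (2 * i2 + l2 - k - l - i3)) (by omega))))) al 1 (t + (n)) (t + (k + l + i3 - 2 * i2 - l2)) (by omega)))) (fun hh => n3.f1 (rEE (sh al 0 (i3) (i3) (by omega)) (pb c al 0 (i2 + l2 + 1) (2 * i2 + l2 - k - l) (by omega)) (Eq.symm (Eq.symm hh)))) (by omega) (i + 1) (i3) (k + l + l2 + i3 - n + 2) 1 (-1) (fun t h1 h2 => (cI (sh al (-1) t (t + (-n)) (by omega)) (qa u1 al (-1) (t + (-n)) ((k + l + l2 + i3 - n + 2) - t) (by omega))))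 (by omega)

theorem t2d_24 {W : ℤ → G} {n Q i j k l i2 l2 i3 : ℤ} (al : AL W n Q)
    (hy : (0) ≤ (i) ∧ (i) ≤ (j) ∧ (j + 1) ≤ (Q) ∧ (Q) ≤ (k) ∧ (k + 1) ≤ (n) ∧ (Q) ≤ (i + l + 1) ∧ (k + l + 2) ≤ (n) ∧ (Q) ≤ (i2) ∧ (i2) ≤ (i + l + 1) ∧ (Q) ≤ (i2 + l2 + 1) ∧ (i2 + l2 + 2) ≤ (n) ∧ (n) ≤ (k + l + l2 + 2) ∧ (k + l + l2 + 3) ≤ (n + Q) ∧ (0) ≤ (i3) ∧ (n + i3) ≤ (k + l + l2 + 2) ∧ (k + i2 + l2 + 2) ≤ (n + j + i3) ∧ (j + i3 + 1) ≤ (k) ∧ (k + i2 + l2 + 2) ≤ (n + i3) ∧ (i + 2 * i2 + 1) ≤ (2 * Q + k) ∧ (i + l + 1) ≤ (i2 + l2) ∧ (k + l + 1) ≤ (i2 + l2) ∧ (n + i2) ≤ (2 * k + 2 * l + 2) ∧ (i + 1) ≤ (i3))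
    (a1 : Par W (0) (j) (k - j))
    (a2 : Par W (Q + j - k) (j) (k - j))
    (s1 : Ant W (0) (i) (i + j))
    (s2 : Ant W (j + 1) (Q) (i + j))
    (b : Par W (i + 1) (i + l + 1) (k - i))
    (tt : Ant W (Q) (i2) (i + l + i2 + 1))
    (c : Par W (i2 + 1) (i2 + l2 + 1) (k + l - i2 + 1))
    (u1 : Ant W (0) (i3) (k + l + l2 + i3 - n + 2))
    (u2 : Ant W (k + l + l2 - n + 3) (Q) (k + l + l2 + i3 - n + 2))
    (D1 : Par W (i3 + 1) (Q) (i2 + l2 - i3 + 1))
    (D2 : Par W (i2 + l2 + 2) (n) (i3 - i2 - l2 - 1))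
    {L : ℤ} (mx : ∀ a b g, 0 < g → g < n → Par W a b g → b - a ≤ L)
    (hL : L ≤ (n - j - 3) ∧ L ≤ (n + Q - k - 3) ∧ L ≤ (n - l - 3) ∧ L ≤ (n + i - k - 2) ∧ L ≤ (n - l2 - 3) ∧ L ≤ (n + i3 - Q - 2) ∧ L ≤ (i2 + l2 - 1) ∧ L ≤ (n + i2 - k - l - 3) ∧ L ≤ (Q + i2 + l2 - i - l - 3))
    (bd0 : Bd W n L (j) (i) (k))
    (bd2 : Bd W n L (k + l + l2 - n + 2) (i3) (i2 + l2 + 1))
    (n1 : Nd W (j) (i) (k))
    (n2 : Nd W (i + l + 1) (i2) (k + l + 1))
    (n3 : Nd W (k + l + l2 - n + 2) (i3) (i2 + l2 + 1))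
    (b0 : (2 * l2 + 3) ≤ (n))
    (b1 : (n + i) ≤ (k + i2 + l2))
    (b2 : (j + l + l2 + i3 + 3) ≤ (n))
    (b3 : (2 * Q + i2 + l2) ≤ (n + i + j + i3))
    (b4 : (i + k + 2 * l + i3 + 3) ≤ (2 * Q + i2 + l2))
    (b5 : (2 * k + l + i3) ≤ (i + 2 * i2 + l2)) : False := by
  have ev := al.ev
  obtain ⟨y0, y1, y2, y3, y4, y5, y6, y7, y8, y9, y10, y11, y12, y13, y14, y15, y16, y17, y18, y19, y20, y21, y22⟩ := id hy
  have n1p := And.intro n1.p1 n1.p2
  have n2p := And.intro n2.p1 n2.p2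
  have n3p := And.intro n3.p1 n3.p2
  by_cases z62 : (2 * k + l + i3 + 1) ≤ (i + 2 * i2 + l2)
  · by_cases z63 : (2 * Q + i + l2) ≤ (2 * k + l + i3)
    · by_cases z64 : (2 * Q + l2 + i3) ≤ (3 * i + 3 * l + 2)
      · by_cases v34 : (2 * i + l + 1) ≤ (k + i3)
        · by_cases v35 : (i + k + 2 * l + 1) ≤ (Q + i2 + l2)
          · have kk948 : (2 * k + l + i3 + 1) ≤ (i + 2 * i2 + l2) := by clear * - z62; omega
            have kk949 : (2 * Q + l2 + i3) ≤ (3 * i + 3 * l + 2) := by clear * - z64; omega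
            have kk950 : (l2 + 3 * i3) ≤ (3 * i + 3 * l) := by clear * - b2 v35 y15 y21 z64; omega
            have kk951 : (2 * k + l + 3 * i3 + 2) ≤ (2 * Q + i + 2 * i2 + l2) := by clear * - b4 z64; omega
            have kk952 : (k) ≤ (i + l + 1) := by clear * - v35 y17 y21 z64; omega
            have kk953 : (i + i2 + 1) ≤ (Q + k) := by clear * - v34 v35 y18 z64; omega
            have kk954 : (k + l) ≤ (i2 + l2) := by clear * - y20; omega
            have kk955 : (2 * k + l) ≤ (2 * i2 + l2) := by clear * - v35 y22 z64; omega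
            have kk956 : (Q + 2 * i2 + l2) ≤ (2 * k + 2 * l + i3 + 1) := by clear * - b2 b3 v34 v35 y17 y21 z64; linarith
            have kk957 : (2 * i + l + 1) ≤ (k + i3) := by clear * - v34; omega
            have kk958 : (i + k + 2 * l + 1) ≤ (Q + i2 + l2) := by clear * - v35; omega
            have r959 : (2 * i + l + i2 - 2 * n - k + 1) % 2 = 0 := by clear * - ev n1p n2p n3p; omega
            have r960 : (i + 2 * i2 + l2 - 2 * k - l - i3) % 2 = 0 := by clear * - ev n1p n2p n3p; omega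
            clear * - al b tt c D1 kk948 kk949 kk950 kk951 kk952 kk953 kk954 kk955 kk956 kk957 kk958 r959 r960
            exact midP al (i + 2 * i2 + l2 - 2 * k - l - i3) (2 * i + l + i2 - 2 * n - k + 1) (i3 - n + 1) (i3 - n + 1) (Q + i + 2 * i2 + l2 - n - 2 * k - l - i3) (by omega) (fun t h1 h2 => (cE (cI (qf b al (-1) t (t + (n + k - i)) (by omega)) (ab tt al 0 (t + (n + k - i)) ((2 * i + l + i2 - n - k + 1) - t) (by omega))) (sh al (-1) ((2 * i + l + i2 - n - k + 1) - t) ((2 * i + l + i2 - 2 * n - k + 1) - t) (by omega)))) (fun t h1 h2 => (cE (cE (cE (qf D1 al (-1) t (t + (n + i2 + l2 - i3 + 1)) (by omega)) (pb c al 0 (t + (n + i2 + l2 - i3 + 1)) (t + (n + 2 * i2 + l2 - k - l - i3)) (by omega))) (pb b al 0 (t + (n + 2 * i2 + l2 - k - l - i3)) (t + (n + i + 2 * i2 + l2 - 2 * k - l - i3)) (by omega))) (sh al (-1) (t + (n + i + 2 * i2 + l2 - 2 * k - l - i3)) (t + (i + 2 * i2 + l2 - 2 * k - l - i3)) (by omega))))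
          · have kk961 : (2 * k + l + i3 + 1) ≤ (i + 2 * i2 + l2) := by clear * - z62; omega
            have kk962 : (2 * k + l + i3) ≤ (i + 2 * i2 + l2) := by clear * - z62; omega
            have kk963 : (2 * k + l + 3 * i3 + 2) ≤ (2 * Q + i + 2 * i2 + l2) := by clear * - b4 z64; omega
            have kk964 : (i + 4 * k + 5 * l + 3 * i3 + 4) ≤ (4 * Q + 4 * i2 + 3 * l2) := by clear * - b4 z62; omega
            have kk965 : (k) ≤ (i + l + 1) := by clear * - y17 y21 z62; omega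
            have kk966 : (i + i2 + 1) ≤ (Q + k) := by clear * - v34 v35 y18 z62; omega
            have kk967 : (k + l) ≤ (i2 + l2) := by clear * - y20; omega
            have kk968 : (2 * k + l) ≤ (2 * i2 + l2) := by clear * - y22 z62; omega
            have kk969 : (Q + 2 * i2 + l2) ≤ (2 * k + 2 * l + i3 + 1) := by clear * - b2 b3 v34 v35 y17 y20 y21; linarith
            have kk970 : (Q + i2 + l2) ≤ (i + k + 2 * l + 1) := by clear * - v35; omega
            have kk971 : (Q + i + i2 + l2) ≤ (2 * k + l + i3) := by clear * - v34 v35; omega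
            have r972 : (2 * i + l + i2 - 2 * n - k + 1) % 2 = 0 := by clear * - ev n1p n2p n3p; omega
            have r973 : (i + 2 * i2 + l2 - 2 * k - l - i3) % 2 = 0 := by clear * - ev n1p n2p n3p; omega
            clear * - al b tt c D1 kk961 kk962 kk963 kk964 kk965 kk966 kk967 kk968 kk969 kk970 kk971 r972 r973
            exact midP al (i + 2 * i2 + l2 - 2 * k - l - i3) (2 * i + l + i2 - 2 * n - k + 1) (i + k + 2 * l + i3 - n - Q - i2 - l2 + 2) (i3 - n + 1) (Q + i + 2 * i2 + l2 - n - 2 * k - l - i3) (by omega) (fun t h1 h2 => (cE (cI (qf b al (-1) t (t + (n + k - i)) (by omega)) (ab tt al 0 (t + (n + k - i)) ((2 * i + l + i2 - n - k + 1) - t) (by omega))) (sh al (-1) ((2 * i + l + i2 - n - k + 1) - t) ((2 * i + l + i2 - 2 * n - k + 1) - t) (by omega)))) (fun t h1 h2 => (cE (cE (cE (qf D1 al (-1) t (t + (n + i2 + l2 - i3 + 1)) (by omega)) (pb c al 0 (t + (n + i2 + l2 - i3 + 1)) (t + (n + 2 * i2 + l2 - k - l - i3)) (by omega)))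 (pb b al 0 (t + (n + 2 * i2 + l2 - k - l - i3)) (t + (n + i + 2 * i2 + l2 - 2 * k - l - i3)) (by omega))) (sh al (-1) (t + (n + i + 2 * i2 + l2 - 2 * k - l - i3)) (t + (i + 2 * i2 + l2 - 2 * k - l - i3)) (by omega))))
        · by_cases v36 : (2 * k + l + i3) ≤ (Q + i + i2 + l2)
          · have kk974 : (2 * k + l + i3 + 1) ≤ (i + 2 * i2 + l2) := by clear * - z62; omega
            have kk975 : (2 * Q + i + l2) ≤ (2 * k + l + i3) := by clear * - z63; omega
            have kk976 : (i + l2 + i3 + 2) ≤ (2 * k + l) := by clear * - b2 b4 v36 y15 y21 z63; omega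
            have kk977 : (3 * i + 3 * l + i3 + 4) ≤ (2 * Q + 2 * i2 + l2) := by clear * - b4 z63; omega
            have kk978 : (k) ≤ (i + l + 1) := by clear * - v34 y22; omega
            have kk979 : (i + i2 + 1) ≤ (Q + k) := by clear * - b2 b3 b4 v36 y21 y22; omega
            have kk980 : (k + l) ≤ (i2 + l2) := by clear * - b1 b2 b3 v36 y21 y22; omega
            have kk981 : (2 * k + l) ≤ (2 * i2 + l2) := by clear * - v36 y22 z63; omega
            have kk982 : (Q + 2 * i2 + l2) ≤ (2 * k + 2 * l + i3 + 1) := by clear * - b2 b3 v36 y21 y22; omega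
            have kk983 : (k + i3) ≤ (2 * i + l + 1) := by clear * - v34; omega
            have kk984 : (2 * k + l + i3) ≤ (Q + i + i2 + l2) := by clear * - v36; omega
            have r985 : (2 * i + l + i2 - 2 * n - k + 1) % 2 = 0 := by clear * - ev n1p n2p n3p; omega
            have r986 : (i + 2 * i2 + l2 - 2 * k - l - i3) % 2 = 0 := by clear * - ev n1p n2p n3p; omega
            clear * - al b tt c D1 kk974 kk975 kk976 kk977 kk978 kk979 kk980 kk981 kk982 kk983 kk984 r985 r986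
            exact midP al (i + 2 * i2 + l2 - 2 * k - l - i3) (2 * i + l + i2 - 2 * n - k + 1) (2 * i + l - n - k + 2) (i3 - n + 1) (Q + i + 2 * i2 + l2 - n - 2 * k - l - i3) (by omega) (fun t h1 h2 => (cE (cI (qf b al (-1) t (t + (n + k - i)) (by omega)) (ab tt al 0 (t + (n + k - i)) ((2 * i + l + i2 - n - k + 1) - t) (by omega))) (sh al (-1) ((2 * i + l + i2 - n - k + 1) - t) ((2 * i + l + i2 - 2 * n - k + 1) - t) (by omega)))) (fun t h1 h2 => (cE (cE (cE (qf D1 al (-1) t (t + (n + i2 + l2 - i3 + 1)) (by omega)) (pb c al 0 (t + (n + i2 + l2 - i3 + 1)) (t + (n + 2 * i2 + l2 - k - l - i3)) (by omega))) (pb b al 0 (t + (n + 2 * i2 + l2 - k - l - i3)) (t + (n + i + 2 * i2 + l2 - 2 * k - l - i3)) (by omega))) (sh al (-1) (t + (n + i + 2 * i2 + l2 - 2 * k - l - i3)) (t + (i + 2 * i2 + l2 - 2 * k - l - i3)) (by omega))))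
          · have kk987 : (2 * k + l + i3 + 1) ≤ (i + 2 * i2 + l2) := by clear * - z62; omega
            have kk988 : (2 * k + l + i3) ≤ (i + 2 * i2 + l2) := by clear * - z62; omega
            have kk989 : (2 * k + l + 3 * i3 + 2) ≤ (2 * Q + i + 2 * i2 + l2) := by clear * - b4 z64; omega
            have kk990 : (i + 4 * k + 5 * l + 3 * i3 + 4) ≤ (4 * Q + 4 * i2 + 3 * l2) := by clear * - b4 z62; omega
            have kk991 : (k) ≤ (i + l + 1) := by clear * - v34 y22; omega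
            have kk992 : (i + i2 + 1) ≤ (Q + k) := by clear * - v36 y18 z62; omega
            have kk993 : (k + l) ≤ (i2 + l2) := by clear * - y20; omega
            have kk994 : (2 * k + l) ≤ (2 * i2 + l2) := by clear * - y22 z62; omega
            have kk995 : (Q + 2 * i2 + l2) ≤ (2 * k + 2 * l + i3 + 1) := by clear * - b2 b3 v36 y17 y20 y21; omega
            have kk996 : (k + i3) ≤ (2 * i + l + 1) := by clear * - v34; omega
            have kk997 : (Q + i + i2 + l2) ≤ (2 * k + l + i3) := by clear * - v36; omega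
            have r998 : (2 * i + l + i2 - 2 * n - k + 1) % 2 = 0 := by clear * - ev n1p n2p n3p; omega
            have r999 : (i + 2 * i2 + l2 - 2 * k - l - i3) % 2 = 0 := by clear * - ev n1p n2p n3p; omega
            clear * - al b tt c D1 kk987 kk988 kk989 kk990 kk991 kk992 kk993 kk994 kk995 kk996 kk997 r998 r999
            exact midP al (i + 2 * i2 + l2 - 2 * k - l - i3) (2 * i + l + i2 - 2 * n - k + 1) (i + k + 2 * l + i3 - n - Q - i2 - l2 + 2) (i3 - n + 1) (Q + i + 2 * i2 + l2 - n - 2 * k - l - i3) (by omega) (fun t h1 h2 => (cE (cI (qf b al (-1) t (t + (n + k - i)) (by omega)) (ab tt al 0 (t + (n + k - i)) ((2 * i + l + i2 - n - k + 1) - t) (by omega))) (sh al (-1) ((2 * i + l + i2 - n - k + 1) - t) ((2 * i + l + i2 - 2 * n - k + 1) - t) (by omega)))) (fun t h1 h2 => (cE (cE (cE (qf D1 al (-1) t (t + (n + i2 + l2 - i3 + 1)) (by omega)) (pb c al 0 (t + (n + i2 + l2 - i3 + 1)) (t + (n + 2 * i2 + l2 - k - l - i3)) (by omega)))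 (pb b al 0 (t + (n + 2 * i2 + l2 - k - l - i3)) (t + (n + i + 2 * i2 + l2 - 2 * k - l - i3)) (by omega))) (sh al (-1) (t + (n + i + 2 * i2 + l2 - 2 * k - l - i3)) (t + (i + 2 * i2 + l2 - 2 * k - l - i3)) (by omega))))
      · have kk1000 : (2 * k + l + i3 + 1) ≤ (i + 2 * i2 + l2) := by clear * - z62; omega
        have kk1001 : (i + 2 * i2 + l2 + 1) ≤ (n + 2 * k + l + i3) := by clear * - b0 b2 b3 y18 y20 y21 y22 z62; linarith
        have kk1002 : (i + 2 * i2 + l2 + 1) ≤ (Q + 2 * k + l) := by clear * - b2 y15 y21 z62 z64; omega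
        have kk1003 : (k + l) ≤ (i2 + l2) := by clear * - y20; omega
        have kk1004 : (2 * k + l) ≤ (2 * i2 + l2) := by clear * - y22 z62; omega
        have kk1005 : (Q + 2 * i2 + l2) ≤ (2 * k + 2 * l + i3 + 1) := by clear * - b2 b3 y17 y21 z62 z63 z64; linarith
        clear * - al b c D1 kk1000 kk1001 kk1002 kk1003 kk1004 kk1005
        exact al.ubQ (i + 2 * i2 + l2 - 2 * k - l - i3) (by omega) (by omega) fun t h1 h2 => (cE (sh al (-1) t (t + (-n)) (by omega)) (cE (cE (qf D1 al (-1) (t + (-n)) (t + (i2 + l2 - i3 + 1)) (by omega)) (pb c al 0 (t + (i2 + l2 - i3 + 1)) (t + (2 * i2 + l2 - k - l - i3)) (by omega))) (pb b al 0 (t + (2 * i2 + l2 - k - l - i3)) (t + (i + 2 * i2 + l2 - 2 * k - l - i3)) (by omega))))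
    · have kk1006 : (2 * k + l + i3 + 1) ≤ (i + 2 * i2 + l2) := by clear * - z62; omega
      have kk1007 : (3 * i + 2 * j + 2 * i2 + l2 + 2) ≤ (2 * Q + 2 * k + l + i3) := by clear * - b2 y21 y22 z63; omega
      have kk1008 : (i + 4 * i2 + 3 * l2 + 4) ≤ (2 * n + 2 * k + l + i3) := by clear * - b1 b2 b3 b4 y17 y21 z62; linarith
      have kk1009 : (i + 2 * j + 2 * k + l + l2 + 4) ≤ (2 * n + i3) := by clear * - b2 b3 y21 y22 z62 z63; omega
      have kk1010 : (0) ≤ (i) := by clear * - y0; omega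
      have kk1011 : (Q + i2 + l2 + 1) ≤ (n + i + j) := by clear * - b2 b3 b4 y15 y21 z62; omega
      have kk1012 : (k + l) ≤ (i2 + l2) := by clear * - b1 b2 b3 y21 y22 z62 z63; linarith
      have kk1013 : (2 * k + l) ≤ (2 * i2 + l2) := by clear * - y22 z62; omega
      have kk1014 : (n) ≤ (k + l + l2 + 2) := by clear * - b1 b2 b3 y21 y22 z62 z63; linarith
      have kk1015 : (n + i2) ≤ (2 * k + 2 * l + 2) := by clear * - y21; omega
      have kk1016 : (i3) ≤ (i + j) := by clear * - b0 b1 b3 y14 z63; omega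
      have kk1017 : (2 * k + l + i3) ≤ (i + 2 * i2 + l2) := by clear * - z62; omega
      have r1018 : (i + j + i3 - n - i2 - l2 - 1) % 2 = 0 := by clear * - ev n1p n2p n3p; omega
      have r1019 : (i + 2 * i2 + l2 - 2 * k - l - i3) % 2 = 0 := by clear * - ev n1p n2p n3p; omega
      clear * - al s2 b c D2 kk1006 kk1007 kk1008 kk1009 kk1010 kk1011 kk1012 kk1013 kk1014 kk1015 kk1016 kk1017 r1018 r1019
      exact midP al (i + 2 * i2 + l2 - 2 * k - l - i3) (i + j + i3 - n - i2 - l2 - 1) (i + j - n + 1) (i3 - n + 1) (i + i2 - 2 * k - l - 1) (by omega) (fun t h1 h2 => (cE (cE (qa s2 al (-1) t ((i + j - n) - t) (by omega)) (qf D2 al (-1) ((i + j - n) - t) ((i + j + i3 - i2 - l2 - 1) - t) (by omega))) (sh al (-1) ((i + j + i3 - i2 - l2 - 1) - t) ((i + j + i3 - n - i2 - l2 - 1) - t) (by omega)))) (fun t h1 h2 => (cE (cE (cE (pb D2 al (-1) t (t + (n + i2 + l2 - i3 + 1)) (by omega)) (pb c al 0 (t + (n + i2 + l2 - i3 + 1)) (t + (n + 2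 * i2 + l2 - k - l - i3)) (by omega))) (pb b al 0 (t + (n + 2 * i2 + l2 - k - l - i3)) (t + (n + i + 2 * i2 + l2 - 2 * k - l - i3)) (by omega))) (sh al (-1) (t + (n + i + 2 * i2 + l2 - 2 * k - l - i3)) (t + (i + 2 * i2 + l2 - 2 * k - l - i3)) (by omega))))
  · by_cases v37 : (i2) ≤ (k)
    · have kk1020 : (i + 1) ≤ (i3) := by clear * - y22; omega
      have kk1021 : (i3) ≤ (i + l) := by clear * - b1 b2 b3 b4 b5 y17 y21; linarith
      have kk1022 : (i + 2 * i2 + l2) ≤ (2 * k + l + i3) := by clear * - z62; omega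
      have kk1023 : (2 * k + l + i3) ≤ (i + 2 * i2 + l2) := by clear * - b5; omega
      have kk1024 : (i2) ≤ (k) := by clear * - v37; omega
      have kk1025 : (k + l) ≤ (i2 + l2) := by clear * - b5 v37 y22; omega
      clear * - al b c n3 kk1020 kk1021 kk1022 kk1023 kk1024 kk1025
      exact n3.f1 (cE (qf b al 0 (i3) (k + i3 - i) (by omega)) (qf c al 0 (k + i3 - i) (i2 + l2 + 1) (by omega)))
    · have kk1026 : (i + i2 + 1) ≤ (k + i3) := by clear * - y20 z62; omega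
      have kk1027 : (i3) ≤ (i + l) := by clear * - b2 b3 b5 v37 y18 y21 y22; linarith
      have kk1028 : (i + 2 * i2 + l2) ≤ (2 * k + l + i3) := by clear * - z62; omega
      have kk1029 : (2 * k + l + i3) ≤ (i + 2 * i2 + l2) := by clear * - b5; omega
      have kk1030 : (k) ≤ (i2) := by clear * - v37; omega
      have kk1031 : (k + l) ≤ (i2 + l2) := by clear * - y20; omega
      clear * - al b c n3 kk1026 kk1027 kk1028 kk1029 kk1030 kk1031
      exact n3.f1 (cE (qf b al 0 (i3) (k + i3 - i) (by omega)) (qf c al 0 (k + i3 - i) (i2 + l2 + 1) (by omega)))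

theorem t2d_22 {W : ℤ → G} {n Q i j k l i2 l2 i3 : ℤ} (al : AL W n Q)
    (hy : (0) ≤ (i) ∧ (i) ≤ (j) ∧ (j + 1) ≤ (Q) ∧ (Q) ≤ (k) ∧ (k + 1) ≤ (n) ∧ (Q) ≤ (i + l + 1) ∧ (k + l + 2) ≤ (n) ∧ (Q) ≤ (i2) ∧ (i2) ≤ (i + l + 1) ∧ (Q) ≤ (i2 + l2 + 1) ∧ (i2 + l2 + 2) ≤ (n) ∧ (n) ≤ (k + l + l2 + 2) ∧ (k + l + l2 + 3) ≤ (n + Q) ∧ (0) ≤ (i3) ∧ (n + i3) ≤ (k + l + l2 + 2) ∧ (k + i2 + l2 + 2) ≤ (n + j + i3) ∧ (j + i3 + 1) ≤ (k) ∧ (k + i2 + l2 + 2) ≤ (n + i3) ∧ (i + 2 * i2 + 1) ≤ (2 * Q + k) ∧ (i + l + 1) ≤ (i2 + l2) ∧ (k + l + 1) ≤ (i2 + l2) ∧ (n + i2) ≤ (2 * k + 2 * l + 2) ∧ (i + 1) ≤ (i3))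
    (a1 : Par W (0) (j) (k - j))
    (a2 : Par W (Q + j - k) (j) (k - j))
    (s1 : Ant W (0) (i) (i + j))
    (s2 : Ant W (j + 1) (Q) (i + j))
    (b : Par W (i + 1) (i + l + 1) (k - i))
    (tt : Ant W (Q) (i2) (i + l + i2 + 1))
    (c : Par W (i2 + 1) (i2 + l2 + 1) (k + l - i2 + 1))
    (u1 : Ant W (0) (i3) (k + l + l2 + i3 - n + 2))
    (u2 : Ant W (k + l + l2 - n + 3) (Q) (k + l + l2 + i3 - n + 2))
    (D1 : Par W (i3 + 1) (Q) (i2 + l2 - i3 + 1))
    (D2 : Par W (i2 + l2 + 2) (n) (i3 - i2 - l2 - 1))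
    {L : ℤ} (mx : ∀ a b g, 0 < g → g < n → Par W a b g → b - a ≤ L)
    (hL : L ≤ (n - j - 3) ∧ L ≤ (n + Q - k - 3) ∧ L ≤ (n - l - 3) ∧ L ≤ (n + i - k - 2) ∧ L ≤ (n - l2 - 3) ∧ L ≤ (n + i3 - Q - 2) ∧ L ≤ (i2 + l2 - 1) ∧ L ≤ (n + i2 - k - l - 3) ∧ L ≤ (Q + i2 + l2 - i - l - 3))
    (bd0 : Bd W n L (j) (i) (k))
    (bd2 : Bd W n L (k + l + l2 - n + 2) (i3) (i2 + l2 + 1))
    (n1 : Nd W (j) (i) (k))
    (n2 : Nd W (i + l + 1) (i2) (k + l + 1))
    (n3 : Nd W (k + l + l2 - n + 2) (i3) (i2 + l2 + 1))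
    (b0 : (2 * l2 + 3) ≤ (n))
    (b1 : (n + i) ≤ (k + i2 + l2))
    (b2 : (j + l + l2 + i3 + 3) ≤ (n))
    (b3 : (2 * Q + i2 + l2) ≤ (n + i + j + i3))
    (b4 : (2 * Q + 2 * k + l + 1) ≤ (n + 2 * i + j + i2))
    (b5 : (i + k + 2 * l + i3 + 3) ≤ (2 * Q + i2 + l2)) : False := by
  have ev := al.ev
  obtain ⟨y0, y1, y2, y3, y4, y5, y6, y7, y8, y9, y10, y11, y12, y13, y14, y15, y16, y17, y18, y19, y20, y21, y22⟩ := id hy
  have n1p := And.intro n1.p1 n1.p2
  have n2p := And.intro n2.p1 n2.p2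
  have n3p := And.intro n3.p1 n3.p2
  by_cases z53 : (i + 2 * i2 + l2 + 1) ≤ (2 * k + l + i3)
  · exact t2d_23 al hy a1 a2 s1 s2 b tt c u1 u2 D1 D2 mx hL bd0 bd2 n1 n2 n3 (by clear * - b0; omega) (by clear * - b1; omega) (by clear * - b2; omega) (by clear * - b4; omega) (by clear * - b5; omega) (by clear * - z53; omega)
  · exact t2d_24 al hy a1 a2 s1 s2 b tt c u1 u2 D1 D2 mx hL bd0 bd2 n1 n2 n3 (by clear * - b0; omega) (by clear * - b1; omega) (by clear * - b2; omega) (by clear * - b3; omega) (by clear * - b5; omega) (by clear * - z53; omega)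

theorem t2d_21 {W : ℤ → G} {n Q i j k l i2 l2 i3 : ℤ} (al : AL W n Q)
    (hy : (0) ≤ (i) ∧ (i) ≤ (j) ∧ (j + 1) ≤ (Q) ∧ (Q) ≤ (k) ∧ (k + 1) ≤ (n) ∧ (Q) ≤ (i + l + 1) ∧ (k + l + 2) ≤ (n) ∧ (Q) ≤ (i2) ∧ (i2) ≤ (i + l + 1) ∧ (Q) ≤ (i2 + l2 + 1) ∧ (i2 + l2 + 2) ≤ (n) ∧ (n) ≤ (k + l + l2 + 2) ∧ (k + l + l2 + 3) ≤ (n + Q) ∧ (0) ≤ (i3) ∧ (n + i3) ≤ (k + l + l2 + 2) ∧ (k + i2 + l2 + 2) ≤ (n + j + i3) ∧ (j + i3 + 1) ≤ (k) ∧ (k + i2 + l2 + 2) ≤ (n + i3) ∧ (i + 2 * i2 + 1) ≤ (2 * Q + k) ∧ (i + l + 1) ≤ (i2 + l2) ∧ (k + l + 1) ≤ (i2 + l2) ∧ (n + i2) ≤ (2 * k + 2 * l + 2) ∧ (i + 1) ≤ (i3))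
    (a1 : Par W (0) (j) (k - j))
    (a2 : Par W (Q + j - k) (j) (k - j))
    (s1 : Ant W (0) (i) (i + j))
    (s2 : Ant W (j + 1) (Q) (i + j))
    (b : Par W (i + 1) (i + l + 1) (k - i))
    (tt : Ant W (Q) (i2) (i + l + i2 + 1))
    (c : Par W (i2 + 1) (i2 + l2 + 1) (k + l - i2 + 1))
    (u1 : Ant W (0) (i3) (k + l + l2 + i3 - n + 2))
    (u2 : Ant W (k + l + l2 - n + 3) (Q) (k + l + l2 + i3 - n + 2))
    (D1 : Par W (i3 + 1) (Q) (i2 + l2 - i3 + 1))
    (D2 : Par W (i2 + l2 + 2) (n) (i3 - i2 - l2 - 1))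
    {L : ℤ} (mx : ∀ a b g, 0 < g → g < n → Par W a b g → b - a ≤ L)
    (hL : L ≤ (n - j - 3) ∧ L ≤ (n + Q - k - 3) ∧ L ≤ (n - l - 3) ∧ L ≤ (n + i - k - 2) ∧ L ≤ (n - l2 - 3) ∧ L ≤ (n + i3 - Q - 2) ∧ L ≤ (i2 + l2 - 1) ∧ L ≤ (n + i2 - k - l - 3) ∧ L ≤ (Q + i2 + l2 - i - l - 3))
    (bd0 : Bd W n L (j) (i) (k))
    (bd2 : Bd W n L (k + l + l2 - n + 2) (i3) (i2 + l2 + 1))
    (n1 : Nd W (j) (i) (k))
    (n2 : Nd W (i + l + 1) (i2) (k + l + 1))
    (n3 : Nd W (k + l + l2 - n + 2) (i3) (i2 + l2 + 1))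
    (b0 : (2 * l2 + 3) ≤ (n))
    (b1 : (i + 3 * k + 4 * l + 5) ≤ (2 * n + 2 * i2))
    (b2 : (n + i) ≤ (k + i2 + l2))
    (b3 : (j + l + l2 + i3 + 3) ≤ (n))
    (b4 : (2 * Q + i2 + l2) ≤ (n + i + j + i3))
    (b5 : (2 * Q + 2 * k + l + 1) ≤ (n + 2 * i + j + i2)) : False := by
  have ev := al.ev
  obtain ⟨y0, y1, y2, y3, y4, y5, y6, y7, y8, y9, y10, y11, y12, y13, y14, y15, y16, y17, y18, y19, y20, y21, y22⟩ := id hy
  have n1p := And.intro n1.p1 n1.p2
  have n2p := And.intro n2.p1 n2.p2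
  have n3p := And.intro n3.p1 n3.p2
  by_cases z51 : (2 * Q + i2 + l2) ≤ (i + k + 2 * l + i3 + 2)
  · by_cases z52 : (i + k + 2 * l + i3 + 3) ≤ (3 * i2 + l2)
    · by_cases v25 : (i + k + 2 * l + 1) ≤ (2 * i2 + l2)
      · have kk704 : (2 * Q + i2 + l2) ≤ (i + k + 2 * l + i3 + 1) := by clear * - z51 ev n1p n2p n3p; omega
        have kk705 : (i2 + l2 + i3) ≤ (i + k + 2 * l) := by clear * - y12 y14 z51; omega
        have kk706 : (k + l) ≤ (i2 + l2) := by clear * - y20; omega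
        have kk707 : (n) ≤ (k + l + l2 + 2) := by clear * - y20 y21; omega
        have kk708 : (i + k + 2 * l + 3) ≤ (n + Q) := by clear * - b1 y18; omega
        have kk709 : (i + k + 2 * l + 1) ≤ (2 * i2 + l2) := by clear * - v25; omega
        have r710 : (2 * n + i + k + 2 * l + i3 - i2 - l2 + 1) % 2 = 0 := by clear * - ev n1p n2p n3p; omega
        clear * - al tt c D2 kk704 kk705 kk706 kk707 kk708 kk709 r710
        obtain ⟨t, ht⟩ : ∃ t, 2 * t = (2 * n + i + k + 2 * l + i3 - i2 - l2 + 1) := ⟨(2 * n + i + k + 2 * l + i3 - i2 - l2 + 1) / 2, by omega⟩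
        exact al.ninv t (cE (cE (qa tt al 1 t ((n + i + l + i2 + 1) - t) (by omega)) (pb (show Par W (i3 + 1) (n + i3 - i2 - l2 - 1) (2 * i2 + l2 - k - l - i3) from fun t h1 h2 => (cE (sh al (-1) t (t + (-n)) (by omega)) (cE (pb D2 al (-1) (t + (-n)) (t + (i2 + l2 - i3 + 1)) (by omega)) (pb c al 0 (t + (i2 + l2 - i3 + 1)) (t + (2 * i2 + l2 - k - l - i3)) (by omega))))) al 0 ((n + i + l + i2 + 1) - t) ((n + i + k + 2 * l + i3 - i2 - l2 + 1) - t) (by omega))) (sh al 1 ((n + i + k + 2 * l + i3 - i2 - l2 + 1) - t) t (by omega)))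
      · have kk711 : (2 * Q + i2 + l2) ≤ (i + k + 2 * l + i3 + 1) := by clear * - z51 ev n1p n2p n3p; omega
        have kk712 : (i + k + 2 * l + i3 + 2) ≤ (3 * i2 + l2) := by clear * - z52; omega
        have kk713 : (k + l) ≤ (i2 + l2) := by clear * - y20; omega
        have kk714 : (n) ≤ (k + l + l2 + 2) := by clear * - b2 v25 y20; omega
        have kk715 : (i + k + 2 * l + 3) ≤ (n + Q) := by clear * - b1 y18; omega
        have kk716 : (2 * i2 + l2) ≤ (i + k + 2 * l + 1) := by clear * - v25; omega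
        have r717 : (2 * n + i + k + 2 * l + i3 - i2 - l2 + 1) % 2 = 0 := by clear * - ev n1p n2p n3p; omega
        clear * - al tt c D2 kk711 kk712 kk713 kk714 kk715 kk716 r717
        obtain ⟨t, ht⟩ : ∃ t, 2 * t = (2 * n + i + k + 2 * l + i3 - i2 - l2 + 1) := ⟨(2 * n + i + k + 2 * l + i3 - i2 - l2 + 1) / 2, by omega⟩
        exact al.ninv t (cE (cE (qa tt al 1 t ((n + i + l + i2 + 1) - t) (by omega)) (pb (show Par W (i3 + 1) (n + i3 - i2 - l2 - 1) (2 * i2 + l2 - k - l - i3) from fun t h1 h2 => (cE (sh al (-1) t (t + (-n)) (by omega)) (cE (pb D2 al (-1) (t + (-n)) (t + (i2 + l2 - i3 + 1)) (by omega)) (pb c al 0 (t + (i2 + l2 - i3 + 1)) (t + (2 * i2 + l2 - k - l - i3)) (by omega))))) al 0 ((n + i + l + i2 + 1) - t) ((n + i + k + 2 * l + i3 - i2 - l2 + 1) - t) (by omega))) (sh al 1 ((n + i + k + 2 * l + i3 - i2 - l2 + 1) - t) t (by omega)))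
    · by_cases v26 : (k + l2 + i3 + 2) ≤ (n + i)
      · have kk718 : (2 * n + i + i2) ≤ (3 * k + 2 * l + l2 + i3 + 3) := by clear * - b2 z52; omega
        have kk719 : (3 * k + 2 * l + l2 + 4) ≤ (2 * n + i + i2 + i3) := by clear * - b0 y20 z52; omega
        have kk720 : (k + l + 2) ≤ (n) := by clear * - b1 b2 v26 y20 z52; omega
        have kk721 : (k + l2 + i3 + 2) ≤ (n + i) := by clear * - v26; omega
        have kk722 : (n + i3) ≤ (k + l + l2 + 2) := by clear * - y14; omega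
        have kk723 : (n + i) ≤ (k + l + l2 + 2) := by clear * - y14 y22; omega
        have r724 : (k + i2 + l2 + i3 - 2 * n - i + 1) % 2 = 0 := by clear * - ev n1p n2p n3p; omega
        clear * - al b c u1 kk718 kk719 kk720 kk721 kk722 kk723 r724
        obtain ⟨t, ht⟩ : ∃ t, 2 * t = (k + i2 + l2 + i3 - 2 * n - i + 1) := ⟨(k + i2 + l2 + i3 - 2 * n - i + 1) / 2, by omega⟩
        exact al.ninv t (cE (cE (cI (qf c al (-1) t (t + (n + k + l - i2 + 1)) (by omega)) (qa u1 al 1 (t + (n + k + l - i2 + 1)) ((i2 + l2 + i3 - n + 1) - t) (by omega))) (qf b al 0 ((i2 + l2 + i3 - n + 1) - t) ((k + i2 + l2 + i3 - n - i + 1) - t) (by omega))) (sh al (-1) ((k + i2 + l2 + i3 - n - i + 1) - t) t (by omega)))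
      · have kk725 : (i2 + l2 + i3 + 1) ≤ (i + k + 2 * l) := by clear * - b0 y14 y20 z52; omega
        have kk726 : (3 * k + 2 * l + l2 + 4) ≤ (2 * n + i + i2 + i3) := by clear * - b0 y20 z52; omega
        have kk727 : (n + i) ≤ (k + l2 + i3 + 2) := by clear * - v26; omega
        have kk728 : (i + l) ≤ (l2 + i3) := by clear * - b1 v26 y20 y21 z52; omega
        have kk729 : (n + i3) ≤ (k + l + l2 + 2) := by clear * - y14; omega
        have kk730 : (n + i) ≤ (k + l + l2 + 2) := by clear * - y14 y22; omega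
        have r731 : (k + i2 + l2 + i3 - 2 * n - i + 1) % 2 = 0 := by clear * - ev n1p n2p n3p; omega
        clear * - al b c u1 kk725 kk726 kk727 kk728 kk729 kk730 r731
        obtain ⟨t, ht⟩ : ∃ t, 2 * t = (k + i2 + l2 + i3 - 2 * n - i + 1) := ⟨(k + i2 + l2 + i3 - 2 * n - i + 1) / 2, by omega⟩
        exact al.ninv t (cE (cE (cI (qf c al (-1) t (t + (n + k + l - i2 + 1)) (by omega)) (qa u1 al 1 (t + (n + k + l - i2 + 1)) ((i2 + l2 + i3 - n + 1) - t) (by omega))) (qf b al 0 ((i2 + l2 + i3 - n + 1) - t) ((k + i2 + l2 + i3 - n - i + 1) - t) (by omega))) (sh al (-1) ((k + i2 + l2 + i3 - n - i + 1) - t) t (by omega)))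
  · exact t2d_22 al hy a1 a2 s1 s2 b tt c u1 u2 D1 D2 mx hL bd0 bd2 n1 n2 n3 (by clear * - b0; omega) (by clear * - b2; omega) (by clear * - b3; omega) (by clear * - b4; omega) (by clear * - b5; omega) (by clear * - z51; omega)

theorem t2d_20 {W : ℤ → G} {n Q i j k l i2 l2 i3 : ℤ} (al : AL W n Q)
    (hy : (0) ≤ (i) ∧ (i) ≤ (j) ∧ (j + 1) ≤ (Q) ∧ (Q) ≤ (k) ∧ (k + 1) ≤ (n) ∧ (Q) ≤ (i + l + 1) ∧ (k + l + 2) ≤ (n) ∧ (Q) ≤ (i2) ∧ (i2) ≤ (i + l + 1) ∧ (Q) ≤ (i2 + l2 + 1) ∧ (i2 + l2 + 2) ≤ (n) ∧ (n) ≤ (k + l + l2 + 2) ∧ (k + l + l2 + 3) ≤ (n + Q) ∧ (0) ≤ (i3) ∧ (n + i3) ≤ (k + l + l2 + 2) ∧ (k + i2 + l2 + 2) ≤ (n + j + i3) ∧ (j + i3 + 1) ≤ (k) ∧ (k + i2 + l2 + 2) ≤ (n + i3) ∧ (i + 2 * i2 + 1) ≤ (2 * Q + k) ∧ (i + l + 1) ≤ (i2 + l2) ∧ (k + l + 1) ≤ (i2 + l2) ∧ (n + i2) ≤ (2 * k + 2 * l + 2) ∧ (i + 1) ≤ (i3))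
    (a1 : Par W (0) (j) (k - j))
    (a2 : Par W (Q + j - k) (j) (k - j))
    (s1 : Ant W (0) (i) (i + j))
    (s2 : Ant W (j + 1) (Q) (i + j))
    (b : Par W (i + 1) (i + l + 1) (k - i))
    (tt : Ant W (Q) (i2) (i + l + i2 + 1))
    (c : Par W (i2 + 1) (i2 + l2 + 1) (k + l - i2 + 1))
    (u1 : Ant W (0) (i3) (k + l + l2 + i3 - n + 2))
    (u2 : Ant W (k + l + l2 - n + 3) (Q) (k + l + l2 + i3 - n + 2))
    (D1 : Par W (i3 + 1) (Q) (i2 + l2 - i3 + 1))
    (D2 : Par W (i2 + l2 + 2) (n) (i3 - i2 - l2 - 1))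
    {L : ℤ} (mx : ∀ a b g, 0 < g → g < n → Par W a b g → b - a ≤ L)
    (hL : L ≤ (n - j - 3) ∧ L ≤ (n + Q - k - 3) ∧ L ≤ (n - l - 3) ∧ L ≤ (n + i - k - 2) ∧ L ≤ (n - l2 - 3) ∧ L ≤ (n + i3 - Q - 2) ∧ L ≤ (i2 + l2 - 1) ∧ L ≤ (n + i2 - k - l - 3) ∧ L ≤ (Q + i2 + l2 - i - l - 3))
    (bd0 : Bd W n L (j) (i) (k))
    (bd2 : Bd W n L (k + l + l2 - n + 2) (i3) (i2 + l2 + 1))
    (n1 : Nd W (j) (i) (k))
    (n2 : Nd W (i + l + 1) (i2) (k + l + 1))
    (n3 : Nd W (k + l + l2 - n + 2) (i3) (i2 + l2 + 1))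
    (b0 : (2 * l2 + 3) ≤ (n))
    (b1 : (i + 3 * k + 4 * l + 5) ≤ (2 * n + 2 * i2))
    (b2 : (n + i) ≤ (k + i2 + l2))
    (b3 : (j + l + l2 + i3 + 3) ≤ (n))
    (b4 : (2 * Q + i2 + l2) ≤ (n + i + j + i3)) : False := by
  have ev := al.ev
  obtain ⟨y0, y1, y2, y3, y4, y5, y6, y7, y8, y9, y10, y11, y12, y13, y14, y15, y16, y17, y18, y19, y20, y21, y22⟩ := id hy
  have n1p := And.intro n1.p1 n1.p2
  have n2p := And.intro n2.p1 n2.p2
  have n3p := And.intro n3.p1 n3.p2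
  by_cases z49 : (n + 2 * i + j + i2) ≤ (2 * Q + 2 * k + l)
  · by_cases z50 : (j + 2 * k + l + 3) ≤ (n + 2 * i + i2)
    · have kk678 : (j + 2 * k + l + 3) ≤ (n + 2 * i + i2) := by clear * - z50; omega
      have kk679 : (n + 2 * i + j + i2) ≤ (2 * Q + 2 * k + l) := by clear * - z49; omega
      have kk680 : (i) ≤ (j) := by clear * - y1; omega
      have kk681 : (n + i) ≤ (k + l + l2 + 2) := by clear * - y14 y22; omega
      have kk682 : (Q) ≤ (i + l + 1) := by clear * - y7 y8; omega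
      have kk683 : (Q + k + l + 1) ≤ (n + i + j) := by clear * - b4 y12 y14 y20; omega
      have r684 : (n + j + i2 - l - 1) % 2 = 0 := by clear * - ev n1p n2p n3p; omega
      clear * - al s2 b c kk678 kk679 kk680 kk681 kk682 kk683 r684
      obtain ⟨t, ht⟩ : ∃ t, 2 * t = (n + j + i2 - l - 1) := ⟨(n + j + i2 - l - 1) / 2, by omega⟩
      exact al.ninv t (cE (cI (pb b al 0 t (t + (i - k)) (by omega)) (qa s2 al 0 (t + (i - k)) ((j + k) - t) (by omega))) (pb c al (-1) ((j + k) - t) t (by omega)))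
    · have kk685 : (2 * i2 + l2 + 1) ≤ (2 * k + l) := by clear * - b3 y0 y17 y20 y21 z50; omega
      have kk686 : (2 * k + l + 2) ≤ (n + i2) := by clear * - b0 y14 y17 y20; omega
      have kk687 : (j + 1) ≤ (k) := by clear * - b3 y13 y20 y21; omega
      have kk688 : (0) ≤ (j) := by clear * - b0 y0 y14 y17 y20 z50; omega
      have kk689 : (2 * i2 + l2) ≤ (2 * k + l + i3) := by clear * - b4 y0 z49; omega
      have kk690 : (k + l + i3 + 1) ≤ (2 * i2 + l2) := by clear * - b0 y14 y20; omega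
      have kk691 : (2 * i2 + l2) ≤ (j + k + l + i3 + 1) := by clear * - y0 y17 z50; omega
      have kk692 : (k + l) ≤ (i2 + l2) := by clear * - y20; omega
      have kk693 : (n) ≤ (k + l + l2 + 2) := by clear * - y20 y21; omega
      have kk694 : (0) ≤ (i3 + 1) := by clear * - y13; omega
      have kk695 : (k + l) ≤ (2 * i2 + l2 + 1) := by clear * - b0 y20 y21; omega
      have kk696 : (k + i2 + l2 + 1) ≤ (n + i3) := by clear * - y17; omega
      have kk697 : (k + l + i3) ≤ (2 * i2 + l2) := by clear * - b0 y14 y20; omega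
      have kk698 : (l + l2 + i3 + 3) ≤ (n) := by clear * - b0 b1 b3 y0 y14 y17 z50; linarith
      have kk699 : (n) ≤ (k + l + l2 + 3) := by clear * - y20 y21; omega
      have kk700 : (i3) ≤ (k) := by clear * - b2 b3 b4 y12 y14 y20 y21; linarith
      have r701 : (2 * i2 + l2 - k - l - i3) % 2 = 0 := by clear * - ev n1p n2p n3p; omega
      have r702 : (k - j) % 2 = 0 := by clear * - ev n1p n2p n3p; omega
      have r703 : (k + l + l2 + i3 - 3 * n + 2) % 2 = 0 := by clear * - ev n1p n2p n3p; omega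
      clear * - al a1 c u1 D2 n1 kk685 kk686 kk687 kk688 kk689 kk690 kk691 kk692 kk693 kk694 kk695 kk696 kk697 kk698 kk699 kk700 r701 r702 r703
      exact ivt al.ninv (-n) (j - n) (k - j) (i3 - n + 1) (2 * k + l + i3 - n - 2 * i2 - l2) (2 * i2 + l2 - k - l - i3) (2 * k + l + i3 - n - 2 * i2 - l2) (j - n) (-1) (fun t h1 h2 => (cE (qf a1 al (-1) t (t + (n + k - j)) (by omega)) (sh al (-1) (t + (n + k - j)) (t + (k - j)) (by omega)))) (fun t h1 h2 => (cE (qf (show Par W (i3 + 1) (n + i3 - i2 - l2 - 1) (2 * i2 + l2 - k - l - i3) from fun t h1 h2 => (cE (sh al (-1) t (t + (-n)) (by omega)) (cE (pb D2 al (-1) (t + (-n)) (t + (i2 + l2 - i3 + 1)) (by omega)) (pb c al 0 (t + (i2 + l2 - i3 + 1)) (t + (2 * i2 + l2 - k - l - i3)) (by omega))))) al (-1) t (t + (n + 2 * i2 + l2 - k - l - i3)) (by omega)) (sh al (-1) (t + (n + 2 * i2 + l2 - k - l - i3)) (t + (2 * i2 + l2 - k - l - i3)) (by omega)))) (fun hh => n1.f0 (rEE (sh al (-1) (j) (j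 - n) (by omega)) (cE (pb (show Par W (i3 + 1) (n + i3 - i2 - l2 - 1) (2 * i2 + l2 - k - l - i3) from fun t h1 h2 => (cE (sh al (-1) t (t + (-n)) (by omega)) (cE (pb D2 al (-1) (t + (-n)) (t + (i2 + l2 - i3 + 1)) (by omega)) (pb c al 0 (t + (i2 + l2 - i3 + 1)) (t + (2 * i2 + l2 - k - l - i3)) (by omega))))) al 0 (k) (2 * k + l + i3 - 2 * i2 - l2) (by omega)) (sh al (-1) (2 * k + l + i3 - 2 * i2 - l2) (2 * k + l + i3 - n - 2 * i2 - l2) (by omega))) (Eq.symm (Eq.symm hh)))) (by omega) (-n) (i3 - n) (k + l + l2 + i3 - 3 * n + 2) 0 (-1) (fun t h1 h2 => (cE (qa u1 al (-1) t ((k + l + l2 + i3 - 2 * n + 2) - t) (by omega)) (sh al (-1) ((k + l + l2 + i3 - 2 * n + 2) - t) ((k + l + l2 + i3 - 3 * n + 2) - t) (by omega)))) (by omega)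
  · exact t2d_21 al hy a1 a2 s1 s2 b tt c u1 u2 D1 D2 mx hL bd0 bd2 n1 n2 n3 (by clear * - b0; omega) (by clear * - b1; omega) (by clear * - b2; omega) (by clear * - b3; omega) (by clear * - b4; omega) (by clear * - z49; omega)

theorem t2d_19 {W : ℤ → G} {n Q i j k l i2 l2 i3 : ℤ} (al : AL W n Q)
    (hy : (0) ≤ (i) ∧ (i) ≤ (j) ∧ (j + 1) ≤ (Q) ∧ (Q) ≤ (k) ∧ (k + 1) ≤ (n) ∧ (Q) ≤ (i + l + 1) ∧ (k + l + 2) ≤ (n) ∧ (Q) ≤ (i2) ∧ (i2) ≤ (i + l + 1) ∧ (Q) ≤ (i2 + l2 + 1) ∧ (i2 + l2 + 2) ≤ (n) ∧ (n) ≤ (k + l + l2 + 2) ∧ (k + l + l2 + 3) ≤ (n + Q) ∧ (0) ≤ (i3) ∧ (n + i3) ≤ (k + l + l2 + 2) ∧ (k + i2 + l2 + 2) ≤ (n + j + i3) ∧ (j + i3 + 1) ≤ (k) ∧ (k + i2 + l2 + 2) ≤ (n + i3) ∧ (i + 2 * i2 + 1) ≤ (2 * Q + k) ∧ (i + l + 1) ≤ (i2 + l2) ∧ (k + l + 1) ≤ (i2 + l2) ∧ (n + i2) ≤ (2 * k + 2 * l + 2) ∧ (i + 1) ≤ (i3))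
    (a1 : Par W (0) (j) (k - j))
    (a2 : Par W (Q + j - k) (j) (k - j))
    (s1 : Ant W (0) (i) (i + j))
    (s2 : Ant W (j + 1) (Q) (i + j))
    (b : Par W (i + 1) (i + l + 1) (k - i))
    (tt : Ant W (Q) (i2) (i + l + i2 + 1))
    (c : Par W (i2 + 1) (i2 + l2 + 1) (k + l - i2 + 1))
    (u1 : Ant W (0) (i3) (k + l + l2 + i3 - n + 2))
    (u2 : Ant W (k + l + l2 - n + 3) (Q) (k + l + l2 + i3 - n + 2))
    (D1 : Par W (i3 + 1) (Q) (i2 + l2 - i3 + 1))
    (D2 : Par W (i2 + l2 + 2) (n) (i3 - i2 - l2 - 1))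
    {L : ℤ} (mx : ∀ a b g, 0 < g → g < n → Par W a b g → b - a ≤ L)
    (hL : L ≤ (n - j - 3) ∧ L ≤ (n + Q - k - 3) ∧ L ≤ (n - l - 3) ∧ L ≤ (n + i - k - 2) ∧ L ≤ (n - l2 - 3) ∧ L ≤ (n + i3 - Q - 2) ∧ L ≤ (i2 + l2 - 1) ∧ L ≤ (n + i2 - k - l - 3) ∧ L ≤ (Q + i2 + l2 - i - l - 3))
    (bd0 : Bd W n L (j) (i) (k))
    (bd2 : Bd W n L (k + l + l2 - n + 2) (i3) (i2 + l2 + 1))
    (n1 : Nd W (j) (i) (k))
    (n2 : Nd W (i + l + 1) (i2) (k + l + 1))
    (n3 : Nd W (k + l + l2 - n + 2) (i3) (i2 + l2 + 1))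
    (b0 : (2 * l2 + 3) ≤ (n))
    (b1 : (i + 3 * k + 4 * l + 5) ≤ (2 * n + 2 * i2))
    (b2 : (n + i) ≤ (k + i2 + l2))
    (b3 : (j + l + l2 + i3 + 3) ≤ (n)) : False := by
  have ev := al.ev
  obtain ⟨y0, y1, y2, y3, y4, y5, y6, y7, y8, y9, y10, y11, y12, y13, y14, y15, y16, y17, y18, y19, y20, y21, y22⟩ := id hy
  have n1p := And.intro n1.p1 n1.p2
  have n2p := And.intro n2.p1 n2.p2
  have n3p := And.intro n3.p1 n3.p2
  by_cases z48 : (n + i + j + i3 + 1) ≤ (2 * Q + i2 + l2)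
  · by_cases v24 : (Q + i2 + l2 + 1) ≤ (n + i + j)
    · have kk668 : (i + j + i2 + l2 + 3) ≤ (n + i3) := by clear * - b2 b3 y17 y20 y21; omega
      have kk669 : (n + i + j + i3) ≤ (2 * Q + i2 + l2) := by clear * - z48; omega
      have kk670 : (0) ≤ (i) := by clear * - y0; omega
      have kk671 : (Q + i2 + l2 + 1) ≤ (n + i + j) := by clear * - v24; omega
      have r672 : (i + j + i3 - n - i2 - l2 - 1) % 2 = 0 := by clear * - ev n1p n2p n3p; omega
      clear * - al s2 D2 kk668 kk669 kk670 kk671 r672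
      obtain ⟨t, ht⟩ : ∃ t, 2 * t = (i + j + i3 - n - i2 - l2 - 1) := ⟨(i + j + i3 - n - i2 - l2 - 1) / 2, by omega⟩
      exact al.ninv t (cE (cE (qa s2 al (-1) t ((i + j - n) - t) (by omega)) (qf D2 al (-1) ((i + j - n) - t) ((i + j + i3 - i2 - l2 - 1) - t) (by omega))) (sh al (-1) ((i + j + i3 - i2 - l2 - 1) - t) t (by omega)))
    · have kk673 : (i + j + i2 + l2 + 3) ≤ (n + i3) := by clear * - b2 b3 y17 y20 y21; omega
      have kk674 : (i2 + l2 + i3 + 2) ≤ (n + i + j) := by clear * - b3 y0 y1 y14 y17; omega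
      have kk675 : (0) ≤ (i) := by clear * - y0; omega
      have kk676 : (n + i + j) ≤ (Q + i2 + l2 + 1) := by clear * - v24; omega
      have r677 : (i + j + i3 - n - i2 - l2 - 1) % 2 = 0 := by clear * - ev n1p n2p n3p; omega
      clear * - al s2 D2 kk673 kk674 kk675 kk676 r677
      obtain ⟨t, ht⟩ : ∃ t, 2 * t = (i + j + i3 - n - i2 - l2 - 1) := ⟨(i + j + i3 - n - i2 - l2 - 1) / 2, by omega⟩
      exact al.ninv t (cE (cE (qa s2 al (-1) t ((i + j - n) - t) (by omega)) (qf D2 al (-1) ((i + j - n) - t) ((i + j + i3 - i2 - l2 - 1) - t) (by omega))) (sh al (-1) ((i + j + i3 - i2 - l2 - 1) - t) t (by omega)))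
  · exact t2d_20 al hy a1 a2 s1 s2 b tt c u1 u2 D1 D2 mx hL bd0 bd2 n1 n2 n3 (by clear * - b0; omega) (by clear * - b1; omega) (by clear * - b2; omega) (by clear * - b3; omega) (by clear * - z48; omega)

end Pool.Agent.MP_a38735_al.WL
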