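import Pool.Agent.MP_a38735_al.WT

set_option autoImplicit false
set_option linter.unusedVariables false

namespace Pool.Agent.MP_a38735_al.WL

variable {G : Type*} [Group G]

theorem t4_15 {W : ℤ → G} {n Q i j k l i2 l2 i3 : ℤ} (al : AL W n Q)
    (hy : (0) ≤ (i) ∧ (i) ≤ (j) ∧ (j + 1) ≤ (Q) ∧ (Q) ≤ (k) ∧ (k + 1) ≤ (n) ∧ (Q) ≤ (i + l + 1) ∧ (k + l + 2) ≤ (n) ∧ (Q) ≤ (i2) ∧ (i2) ≤ (i + l + 1) ∧ (Q) ≤ (i2 + l2 + 1) ∧ (i2 + l2 + 2) ≤ (n) ∧ (n) ≤ (k + l + l2 + 2) ∧ (k + l + l2 + 3) ≤ (n + Q) ∧ (0) ≤ (i3) ∧ (n + i3) ≤ (k + l + l2 + 2) ∧ (k + i2 + l2 + 2) ≤ (n + j + i3) ∧ (j + i3 + 1) ≤ (k) ∧ (k + i2 + l2 + 2) ≤ (n + i3) ∧ (i + 2 * i2 + 1) ≤ (2 * Q + k) ∧ (i + l + 1) ≤ (i2 + l2) ∧ (i2 + l2 + 1) ≤ (k + l) ∧ (i) ≤ (i3) ∧ (i3) ≤ (i))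
    (a1 : Par W (0) (j) (k - j))
    (a2 : Par W (Q + j - k) (j) (k - j))
    (s1 : Ant W (0) (i) (i + j))
    (s2 : Ant W (j + 1) (Q) (i + j))
    (b : Par W (i + 1) (i + l + 1) (k - i))
    (tt : Ant W (Q) (i2) (i + l + i2 + 1))
    (c : Par W (i2 + 1) (i2 + l2 + 1) (k + l - i2 + 1))
    (u1 : Ant W (0) (i3) (k + l + l2 + i3 - n + 2))
    (u2 : Ant W (k + l + l2 - n + 3) (Q) (k + l + l2 + i3 - n + 2))
    (D1 : Par W (i3 + 1) (Q) (i2 + l2 - i3 + 1))
    (D2 : Par W (i2 + l2 + 2) (n) (i3 - i2 - l2 - 1))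
    {L : ℤ} (mx : ∀ a b g, 0 < g → g < n → Par W a b g → b - a ≤ L)
    (hL : L ≤ (n - j - 3) ∧ L ≤ (n + Q - k - 3) ∧ L ≤ (n - l - 3) ∧ L ≤ (n + i - k - 2) ∧ L ≤ (n - l2 - 3) ∧ L ≤ (n + i3 - Q - 2) ∧ L ≤ (i2 + l2 - 1) ∧ L ≤ (n + i2 - k - l - 3))
    (bd0 : Bd W n L (j) (i) (k))
    (bd2 : Bd W n L (k + l + l2 - n + 2) (i3) (i2 + l2 + 1))
    (n1 : Nd W (j) (i) (k))
    (n2 : Nd W (i + l + 1) (i2) (k + l + 1))
    (n3 : Nd W (k + l + l2 - n + 2) (i3) (i2 + l2 + 1))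
    (b0 : (2 * i + j + 1) ≤ (k))
    (b1 : (n + i) ≤ (2 * k + l))
    (b2 : (i + 2 * k + 2 * l + 3) ≤ (n + 2 * Q + j))
    (b3 : (2 * Q + 2 * k + l + 1) ≤ (n + 2 * i + j + i2))
    (b4 : (5 * k + 3 * l + 3 * l2 + 8) ≤ (4 * n + 2 * i + i3))
    (b5 : (2 * n + 2 * Q + i3) ≤ (k + l + 2 * i2 + 3 * l2 + 5))
    (b6 : (2 * i + l + i2 + 3) ≤ (2 * Q + k)) : False := by
  have ev := al.ev
  obtain ⟨y0, y1, y2, y3, y4, y5, y6, y7, y8, y9, y10, y11, y12, y13, y14, y15, y16, y17, y18, y19, y20, y21, y22⟩ := id hy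
  have n1p := And.intro n1.p1 n1.p2
  have n2p := And.intro n2.p1 n2.p2
  have n3p := And.intro n3.p1 n3.p2
  by_cases z23 : (i + k + 2 * l + i3 + 2) ≤ (3 * i2 + l2)
  · by_cases z24 : (2 * Q + i2 + l2) ≤ (i + k + 2 * l + i3 + 2)
    · by_cases v17 : (n + i3) ≤ (2 * i2 + l2 + 1)
      · have kk293 : (i + k + 2 * l + i2 + l2 + 5) ≤ (2 * n + i3) := by clear * - b4 b5 b6 z24; omega
        have kk294 : (2 * Q + i2 + l2) ≤ (i + k + 2 * l + i3 + 2) := by clear * - z24; omega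
        have kk295 : (i2 + l2) ≤ (k + l) := by clear * - y20; omega
        have kk296 : (n) ≤ (k + l + l2 + 2) := by clear * - b5 b6 v17 y13 y17 y22 z24; linarith
        have kk297 : (n + i3) ≤ (2 * i2 + l2 + 1) := by clear * - v17; omega
        have kk298 : (k + l + i3 + 1) ≤ (Q + i2 + l2) := by clear * - b4 b5 v17 y18; omega
        have r299 : (i + 3 * i2 + l2 - 2 * n - k - i3 + 1) % 2 = 0 := by clear * - ev n1p n2p n3p; omega
        clear * - al tt c D2 kk293 kk294 kk295 kk296 kk297 kk298 r299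
        obtain ⟨t, ht⟩ : ∃ t, 2 * t = (i + 3 * i2 + l2 - 2 * n - k - i3 + 1) := ⟨(i + 3 * i2 + l2 - 2 * n - k - i3 + 1) / 2, by omega⟩
        exact al.ninv t (cE (cE (ab tt al (-1) t ((i + l + i2 - n + 1) - t) (by omega)) (qf (show Par W (k + l + i3 - i2 - l2 + 1) (n + i3 - i2 - l2 - 1) (2 * i2 + l2 - k - l - i3) from fun t h1 h2 => (cE (sh al (-1) t (t + (-n)) (by omega)) (cE (pb D2 al (-1) (t + (-n)) (t + (i2 + l2 - i3 + 1)) (by omega)) (pb c al 0 (t + (i2 + l2 - i3 + 1)) (t + (2 * i2 + l2 - k - l - i3)) (by omega))))) al 0 ((i + l + i2 - n + 1) - t) ((i + 3 * i2 + l2 - n - k - i3 + 1) - t) (by omega))) (sh al (-1) ((i + 3 * i2 + l2 - n - k - i3 + 1) - t) t (by omega)))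
      · have kk300 : (i + k + 2 * l + i3 + 3) ≤ (3 * i2 + l2) := by clear * - z23 ev n1p n2p n3p; omega
        have kk301 : (2 * Q + i2 + l2) ≤ (i + k + 2 * l + i3 + 2) := by clear * - z24; omega
        have kk302 : (i2 + l2) ≤ (k + l) := by clear * - y20; omega
        have kk303 : (n) ≤ (k + l + l2 + 2) := by clear * - y13 y14; omega
        have kk304 : (2 * i2 + l2 + 1) ≤ (n + i3) := by clear * - v17; omega
        have kk305 : (k + l + i3 + 1) ≤ (Q + i2 + l2) := by clear * - b2 b5 y2 y22 z23 z24; omega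
        have r306 : (i + 3 * i2 + l2 - 2 * n - k - i3 + 1) % 2 = 0 := by clear * - ev n1p n2p n3p; omega
        clear * - al tt c D2 kk300 kk301 kk302 kk303 kk304 kk305 r306
        obtain ⟨t, ht⟩ : ∃ t, 2 * t = (i + 3 * i2 + l2 - 2 * n - k - i3 + 1) := ⟨(i + 3 * i2 + l2 - 2 * n - k - i3 + 1) / 2, by omega⟩
        exact al.ninv t (cE (cE (ab tt al (-1) t ((i + l + i2 - n + 1) - t) (by omega)) (qf (show Par W (k + l + i3 - i2 - l2 + 1) (n + i3 - i2 - l2 - 1) (2 * i2 + l2 - k - l - i3) from fun t h1 h2 => (cE (sh al (-1) t (t + (-n)) (by omega)) (cE (pb D2 al (-1) (t + (-n)) (t + (i2 + l2 - i3 + 1)) (by omega)) (pb c al 0 (t + (i2 + l2 - i3 + 1)) (t + (2 * i2 + l2 - k - l - i3)) (by omega))))) al 0 ((i + l + i2 - n + 1) - t) ((i + 3 * i2 + l2 - n - k - i3 + 1) - t) (by omega))) (sh al (-1) ((i + 3 * i2 + l2 - n - k - i3 + 1) - t) t (by omega)))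
    · have kk307 : (3 * k + 2 * l + l2 + 5) ≤ (2 * n + i + i2 + i3) := by clear * - b4 b5 y13 y20 z24; omega
      have kk308 : (i + i2 + l2 + i3 + 2) ≤ (2 * Q + k) := by clear * - y20 z24; omega
      have kk309 : (n + i) ≤ (k + l + l2 + 2) := by clear * - y14 y21; omega
      have kk310 : (n + i3) ≤ (k + l + l2 + 2) := by clear * - y14; omega
      have kk311 : (Q) ≤ (i + l + 1) := by clear * - b1 b5 y13 y17 y22 z23 z24; linarith
      have kk312 : (Q) ≤ (l2 + i3 + 1) := by clear * - b1 b4 b5 b6 y13 y17 y22; linarith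
      have r313 : (k + i2 + l2 + i3 - 2 * n - i + 1) % 2 = 0 := by clear * - ev n1p n2p n3p; omega
      clear * - al b c u2 kk307 kk308 kk309 kk310 kk311 kk312 r313
      obtain ⟨t, ht⟩ : ∃ t, 2 * t = (k + i2 + l2 + i3 - 2 * n - i + 1) := ⟨(k + i2 + l2 + i3 - 2 * n - i + 1) / 2, by omega⟩
      exact al.ninv t (cE (cE (cI (pb b al (-1) t (t + (n + i - k)) (by omega)) (qa u2 al 0 (t + (n + i - k)) ((2 * k + l + l2 + i3 - 2 * n - i + 2) - t) (by omega))) (pb c al (-1) ((2 * k + l + l2 + i3 - 2 * n - i + 2) - t) ((k + i2 + l2 + i3 - n - i + 1) - t) (by omega))) (sh al (-1) ((k + i2 + l2 + i3 - n - i + 1) - t) t (by omega)))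
  · by_cases z25 : (Q + j) ≤ (k)
    · by_cases z26 : (3 * i2 + 2 * l2 + 2) ≤ (n + j + l + 2 * i3)
      · by_cases z27 : (n + l + 2 * i3) ≤ (3 * i2 + 2 * l2 + 1)
        · have kk314 : (3 * i2 + 2 * l2 + 2) ≤ (n + j + l + 2 * i3) := by clear * - z26; omega
          have kk315 : (j + l + 2 * i3) ≤ (3 * i2 + 2 * l2) := by clear * - b0 b1 b4 b6 y21 z23 z25 z26 z27; linarith
          have kk316 : (Q + j) ≤ (k) := by clear * - z25; omega
          have kk317 : (i2 + l2) ≤ (k + l) := by clear * - y20; omega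
          have kk318 : (n) ≤ (k + l + l2 + 2) := by clear * - y21 z23 z27; omega
          have kk319 : (i3) ≤ (i2) := by clear * - b1 y17 y22 z27; omega
          have kk320 : (k + l + i3 + 1) ≤ (Q + i2 + l2) := by clear * - b1 b2 b4 b5 y2 y22; omega
          have kk321 : (k + l + i3) ≤ (2 * i2 + l2) := by clear * - y17 z27; omega
          have kk322 : (n + l + 2 * i3) ≤ (3 * i2 + 2 * l2 + 1) := by clear * - z27; omega
          clear * - al a2 c D2 kk314 kk315 kk316 kk317 kk318 kk319 kk320 kk321 kk322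
          exact al.ubP (n + j + l + 2 * i3 - 3 * i2 - 2 * l2 - 1) (by omega) (by omega) fun t h1 h2 => (cE (cE (qf D2 al (-1) t (t + (n + i3 - i2 - l2 - 1)) (by omega)) (pb (show Par W (k + l + i3 - i2 - l2 + 1) (n + i3 - i2 - l2 - 1) (2 * i2 + l2 - k - l - i3) from fun t h1 h2 => (cE (sh al (-1) t (t + (-n)) (by omega)) (cE (pb D2 al (-1) (t + (-n)) (t + (i2 + l2 - i3 + 1)) (by omega)) (pb c al 0 (t + (i2 + l2 - i3 + 1)) (t + (2 * i2 + l2 - k - l - i3)) (by omega))))) al 0 (t + (n + i3 - i2 - l2 - 1)) (t + (n + k + l + 2 * i3 - 3 * i2 - 2 * l2 - 1)) (by omega))) (pb a2 al 0 (t + (n + k + l + 2 * i3 - 3 * i2 - 2 * l2 - 1)) (t + (n + j + l + 2 * i3 - 3 * i2 - 2 * l2 - 1)) (by omega)))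
        · by_cases z28 : (2 * k + l) ≤ (n + i)
          · have kk323 : (i2 + l2 + 1) ≤ (k + l) := by clear * - y20; omega
            have kk324 : (k + l + i3 + 1) ≤ (Q + i2 + l2) := by clear * - b1 b2 b4 b5 y2 y22; omega
            have kk325 : (i + 1) ≤ (k) := by clear * - y19 y20; omega
            have kk326 : (0) ≤ (l) := by clear * - b1 b4 y13 y14 y21; omega
            have kk327 : (i + i2 + l2 + 1) ≤ (k + l + i3) := by clear * - y20 y21; omega
            have kk328 : (i3) ≤ (i2 + l2) := by clear * - b1 b4 b5 b6 y13 y14; omega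
            have kk329 : (i + 1) ≤ (i2) := by clear * - b1 b5 y12 z27; omega
            have kk330 : (i2) ≤ (k + l) := by clear * - b0 b2 b5 y13 y20 y22 z28; linarith
            have kk331 : (2 * k + l) ≤ (n + i) := by clear * - z28; omega
            have kk332 : (i2 + l2) ≤ (k + l) := by clear * - y20; omega
            have kk333 : (n) ≤ (k + l + l2 + 2) := by clear * - y13 y14; omega
            have kk334 : (i + i2 + l2) ≤ (k + l + i3) := by clear * - y20 y21; omega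
            have kk335 : (i) ≤ (i2) := by clear * - b1 b5 y12 z27; omega
            have kk336 : (n + i3) ≤ (k + l + i2 + l2 + 2) := by clear * - b1 b5 y12 z23; omega
            have kk337 : (n + i2) ≤ (2 * k + 2 * l + 2) := by clear * - b1 b4 y13 y14 z23; omega
            have r338 : (2 * i2 + l2 - k - l - i3) % 2 = 0 := by clear * - ev n1p n2p n3p; omega
            have r339 : (k - i) % 2 = 0 := by clear * - ev n1p n2p n3p; omega
            clear * - al b c D1 D2 n2 kk323 kk324 kk325 kk326 kk327 kk328 kk329 kk330 kk331 kk332 kk333 kk334 kk335 kk336 kk337 r338 r339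
            exact ivt0 (i - n + 1) (i + l - n + 1) (k - i) (k + l + i3 - n - i2 - l2 + 1) (i3 - i2 - l2 - 1) (2 * i2 + l2 - k - l - i3) (k + l + i3 - n - i2 - l2) (i2 - n) 0 (fun t h1 h2 => (cE (qf b al (-1) t (t + (n + k - i)) (by omega)) (sh al (-1) (t + (n + k - i)) (t + (k - i)) (by omega)))) (fun t h1 h2 => (cE (sh al 1 t (t + (n)) (by omega)) (cE (qf (show Par W (k + l + i3 - i2 - l2 + 1) (n + i3 - i2 - l2 - 1) (2 * i2 + l2 - k - l - i3) from fun t h1 h2 => (cE (sh al (-1) t (t + (-n)) (by omega)) (cE (pb D2 al (-1) (t + (-n)) (t + (i2 + l2 - i3 + 1)) (by omega)) (pb c al 0 (t + (i2 + l2 - i3 + 1)) (t + (2 * i2 + l2 - k - l - i3)) (by omega))))) al 0 (t + (n)) (t + (n + 2 * i2 + l2 - k - l - i3)) (by omega)) (sh al (-1) (t + (n + 2 * i2 + l2 - k - l - i3)) (t + (2 * i2 + l2 - k - l - i3)) (by omega))))) (fun hh => n2.f1 (rEE (sh al (-1) (i2) (i2 - n) (by omega)) (cE (pb D1 al 0 (k + l + 1) (k + l + i3 - i2 - l2)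 (by omega)) (sh al (-1) (k + l + i3 - i2 - l2) (k + l + i3 - n - i2 - l2) (by omega))) (Eq.symm (Eq.symm hh)))) (by omega) (by omega)
          · by_cases z29 : (i + 2 * i2 + l2) ≤ (j + k + l + i3)
            · have kk340 : (Q + j) ≤ (i + k) := by clear * - y13 y22 z25; omega
              have kk341 : (i + 1) ≤ (j) := by clear * - b2 b4 b5 y20 z28 z29; omega
              have kk342 : (k + l + i3 + 1) ≤ (2 * i2 + l2) := by clear * - b5 y12; omega
              have kk343 : (i + 2 * i2 + l2) ≤ (j + k + l + i3) := by clear * - z29; omega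
              have kk344 : (j + l + i3 + 1) ≤ (i + i2 + l2) := by clear * - b3 b5 b6 y2 y22 z25 z28; linarith
              have kk345 : (k + i2 + l2 + 1) ≤ (n + i3) := by clear * - y17; omega
              have kk346 : (i2 + l2) ≤ (k + l) := by clear * - y20; omega
              have kk347 : (n) ≤ (k + l + l2 + 2) := by clear * - y13 y14; omega
              have kk348 : (0) ≤ (i + 1) := by clear * - y13 y22; omega
              have kk349 : (j) ≤ (i + l + 1) := by clear * - b2 b4 b5 y2 y22 z26 z28; linarith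
              have r350 : (j - i) % 2 = 0 := by clear * - ev n1p n2p n3p; omega
              have r351 : (2 * i2 + l2 - k - l - i3) % 2 = 0 := by clear * - ev n1p n2p n3p; omega
              clear * - al a1 a2 b c D2 n1 kk340 kk341 kk342 kk343 kk344 kk345 kk346 kk347 kk348 kk349 r350 r351
              exact n1.f1 (rEE (cE (qf a2 al 0 (i) (i + k - j) (by omega)) (sh al (-1) (i + k - j) (i + k - n - j) (by omega))) (sh al (-1) (k) (k - n) (by omega)) (rotL (j - i) (2 * i2 + l2 - k - l - i3) (i + k - n - j) (k - n) (by omega) (fun t h1 h2 => (cE (cE (pb a1 al (-1) t (t + (n + j - k)) (by omega)) (qf b al 0 (t + (n + j - k)) (t + (n + j - i)) (by omega))) (sh al (-1) (t + (n + j - i)) (t + (j - i)) (by omega)))) (fun t h1 h2 => (cE (qf (show Par W (k + l + i3 - i2 - l2 + 1) (n + i3 - i2 - l2 - 1) (2 * i2 + l2 - k - l - i3) from fun t h1 h2 => (cE (sh al (-1) t (t + (-n)) (by omega)) (cE (pb D2 al (-1) (t + (-n)) (t + (i2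 + l2 - i3 + 1)) (by omega)) (pb c al 0 (t + (i2 + l2 - i3 + 1)) (t + (2 * i2 + l2 - k - l - i3)) (by omega))))) al (-1) t (t + (n + 2 * i2 + l2 - k - l - i3)) (by omega)) (sh al (-1) (t + (n + 2 * i2 + l2 - k - l - i3)) (t + (2 * i2 + l2 - k - l - i3)) (by omega))))))
            · by_cases v18 : (i + k + 1) ≤ (2 * Q)
              · have kk352 : (k + l + i3 + 1) ≤ (2 * i2 + l2) := by clear * - b3 b5 b6 v18 y22 z25 z27 z28 z29; linarith
                have kk353 : (2 * Q + 2 * j + 2 * i2 + l2) ≤ (2 * i + 3 * k + l + i3) := by clear * - b3 b5 b6 y22 z27 z28 z29; linarith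
                have kk354 : (2 * Q + l + i3) ≤ (2 * i + k + l2) := by clear * - b3 b5 b6 y22 z27 z28 z29; linarith
                have kk355 : (2 * Q + k + l + l2 + 2) ≤ (2 * n + i3) := by clear * - b0 b3 b6 v18 z23 z27 z28 z29; linarith
                have kk356 : (i2 + l2) ≤ (k + l) := by clear * - b4 b5 v18 y22 z25 z26 z28; linarith
                have kk357 : (n) ≤ (k + l + l2 + 2) := by clear * - b3 b5 b6 v18 z23 z26 z28 z29; linarith
                have kk358 : (i + k + 1) ≤ (2 * Q) := by clear * - v18; omega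
                have kk359 : (i) ≤ (j) := by clear * - b3 b5 b6 v18 y22 z25 z27 z28 z29; linarith
                have kk360 : (i + k + l2 + 1) ≤ (n + i3) := by clear * - b4 b5 b6 v18 z23 z28; omega
                have kk361 : (k + l + i3 + 1) ≤ (Q + i2 + l2) := by clear * - b3 b5 b6 v18 y22 z25 z27 z28 z29; linarith
                have r362 : (i + k - 2 * n) % 2 = 0 := by clear * - ev n1p n2p n3p; omega
                have r363 : (2 * i2 + l2 - k - l - i3) % 2 = 0 := by clear * - ev n1p n2p n3p; omega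
                clear * - al a2 s2 c D2 kk352 kk353 kk354 kk355 kk356 kk357 kk358 kk359 kk360 kk361 r362 r363
                exact midP al (2 * i2 + l2 - k - l - i3) (i + k - 2 * n) (Q - n) (k + l + i3 - n - i2 - l2 + 1) (i2 - k - l - 1) (by omega) (fun t h1 h2 => (cE (cI (pb a2 al (-1) t (t + (n + j - k)) (by omega)) (ab s2 al 0 (t + (n + j - k)) ((i + k - n) - t) (by omega))) (sh al (-1) ((i + k - n) - t) ((i + k - 2 * n) - t) (by omega)))) (fun t h1 h2 => (cE (qf (show Par W (k + l + i3 - i2 - l2 + 1) (n + i3 - i2 - l2 - 1) (2 * i2 + l2 - k - l - i3) from fun t h1 h2 => (cE (sh al (-1) t (t + (-n)) (by omega)) (cE (pb D2 al (-1) (t + (-n)) (t + (i2 + l2 - i3 + 1)) (by omega)) (pb c al 0 (t + (i2 + l2 - i3 + 1)) (t + (2 * i2 + l2 - k - l - i3)) (by omega))))) al (-1) t (t + (n + 2 * i2 + l2 - k - l - i3)) (by omega)) (sh al (-1) (t + (n + 2 * i2 + l2 - k - l - i3)) (t + (2 * i2 + l2 - k - l - i3)) (by omega))))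
              · have kk364 : (k + l + i3 + 1) ≤ (2 * i2 + l2) := by clear * - b2 b4 b5 y22 z27 z28 z29; linarith
                have kk365 : (2 * j + 2 * i2 + l2 + 2) ≤ (2 * Q + k + l + i3) := by clear * - b2 b5 y22 z27 z28 z29; omega
                have kk366 : (k + l + i3 + 2) ≤ (2 * Q + l2) := by clear * - b2 b5 y22 z27 z28 z29; omega
                have kk367 : (2 * i + 3 * k + l + l2 + 4) ≤ (2 * n + 2 * Q + i3) := by clear * - b2 b4 b5 y22 z27 z28 z29; linarith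
                have kk368 : (i2 + l2) ≤ (k + l) := by clear * - b2 b4 b5 y22 z27 z28 z29; linarith
                have kk369 : (n) ≤ (k + l + l2 + 2) := by clear * - b2 b5 z23 z26 z28 z29; omega
                have kk370 : (2 * Q) ≤ (i + k + 1) := by clear * - v18; omega
                have kk371 : (i) ≤ (j) := by clear * - b2 b4 b5 y22 z27 z28 z29; linarith
                have kk372 : (i + k + l2 + 1) ≤ (n + i3) := by clear * - b2 b4 b5 y22 z27 z28 z29; linarith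
                have kk373 : (Q + l + i3) ≤ (i + i2 + l2) := by clear * - b3 b5 b6 y22 z25 z26 z28 z29; linarith
                have r374 : (i + k - 2 * n) % 2 = 0 := by clear * - ev n1p n2p n3p; omega
                have r375 : (2 * i2 + l2 - k - l - i3) % 2 = 0 := by clear * - ev n1p n2p n3p; omega
                clear * - al a2 s2 c D2 kk364 kk365 kk366 kk367 kk368 kk369 kk370 kk371 kk372 kk373 r374 r375
                exact midP al (2 * i2 + l2 - k - l - i3) (i + k - 2 * n) (i + k - n - Q + 1) (k + l + i3 - n - i2 - l2 + 1) (i2 - k - l - 1) (by omega) (fun t h1 h2 => (cE (cI (pb a2 al (-1) t (t + (n + j - k)) (by omega)) (ab s2 al 0 (t + (n + j - k)) ((i + k - n) - t) (by omega))) (sh al (-1) ((i + k - n) - t) ((i + k - 2 * n) - t) (by omega)))) (fun t h1 h2 => (cE (qf (show Par W (k + l + i3 - i2 - l2 + 1) (n + i3 - i2 - l2 - 1) (2 * i2 + l2 - k - l - i3) from fun t h1 h2 => (cE (sh al (-1) t (t + (-n)) (by omega))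 (cE (pb D2 al (-1) (t + (-n)) (t + (i2 + l2 - i3 + 1)) (by omega)) (pb c al 0 (t + (i2 + l2 - i3 + 1)) (t + (2 * i2 + l2 - k - l - i3)) (by omega))))) al (-1) t (t + (n + 2 * i2 + l2 - k - l - i3)) (by omega)) (sh al (-1) (t + (n + 2 * i2 + l2 - k - l - i3)) (t + (2 * i2 + l2 - k - l - i3)) (by omega))))
      · by_cases z30 : (i + j + 2 * i2 + l2 + 2) ≤ (2 * Q + k + l + i3)
        · by_cases z31 : (2 * Q + j + 2 * i2 + l2) ≤ (i + 3 * k + l + i3)
          · by_cases v19 : (Q + 2 * i2 + l2) ≤ (2 * k + l + i3 + 1)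
            · have kk376 : (j + k + l + i3 + 1) ≤ (i + 2 * i2 + l2) := by clear * - b3 z26 z30; omega
              have kk377 : (i + j + 2 * i2 + l2 + 2) ≤ (2 * Q + k + l + i3) := by clear * - z30; omega
              have kk378 : (j + k + l + i3 + 2) ≤ (i + 2 * i2 + l2) := by clear * - b3 z26 z30; omega
              have kk379 : (i3 + 1) ≤ (Q) := by clear * - b2 b3 b5 y20 z23 z26 z30; linarith
              have kk380 : (k + i2 + l2 + 1) ≤ (n + i3) := by clear * - y17; omega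
              have kk381 : (i2) ≤ (k) := by clear * - b1 b3 b4 b5 b6 z23 z26; linarith
              have kk382 : (i2 + l2) ≤ (k + l) := by clear * - y20; omega
              have kk383 : (Q + 2 * i2 + l2) ≤ (2 * k + l + i3 + 1) := by clear * - v19; omega
              have kk384 : (i2) ≤ (l + i3 + 1) := by clear * - b1 b2 b3 b4 b5 z23 z30; linarith
              have kk385 : (k + l + i3) ≤ (2 * i2 + l2) := by clear * - b1 b2 b4 b5 z23 z26; omega
              have r386 : (i + j) % 2 = 0 := by clear * - ev n1p n2p n3p; omega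
              have r387 : (i + 2 * i2 + l2 - j - k - l - i3) % 2 = 0 := by clear * - ev n1p n2p n3p; omega
              clear * - al a2 s2 b c D2 kk376 kk377 kk378 kk379 kk380 kk381 kk382 kk383 kk384 kk385 r386 r387
              exact midP al (i + 2 * i2 + l2 - j - k - l - i3) (i + j) (j + 1) (j + k + l + i3 - 2 * i2 - l2 + 1) (i + 2 * i2 + l2 - k - l - i3) (by omega) (fun t h1 h2 => (qa s2 al 0 t ((i + j) - t) (by omega))) (fun t h1 h2 => (cE (cE (pb (show Par W (Q + i2 + l2 - i3 + 1) (k + i2 + l2 - i3 + 1) (n + j + i3 - k - i2 - l2 - 1) from fun t h1 h2 => (cE (sh al (-1) t (t + (-n)) (by omega)) (cE (cE (qf D2 al (-1) (t + (-n)) (t + (i3 - i2 - l2 - 1)) (by omega)) (pb a2 al 0 (t + (i3 - i2 - l2 - 1)) (t + (j + i3 - k - i2 - l2 - 1)) (by omega))) (sh al 1 (t + (j + i3 - k - i2 - l2 - 1)) (t + (n + j + i3 - k - i2 - l2 - 1)) (by omega))))) al (-1) t (t + (k + i2 + l2 - j - i3 + 1)) (by omega)) (qf (show Par W (2 *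 k + l - i2 + 2) (k + l + l2 + 2) (n + i + i2 - 2 * k - l - 1) from fun t h1 h2 => (cE (sh al (-1) t (t + (-n)) (by omega)) (cE (cE (pb c al (-1) (t + (-n)) (t + (i2 - k - l - 1)) (by omega)) (pb b al 0 (t + (i2 - k - l - 1)) (t + (i + i2 - 2 * k - l - 1)) (by omega))) (sh al 1 (t + (i + i2 - 2 * k - l - 1)) (t + (n + i + i2 - 2 * k - l - 1)) (by omega))))) al 0 (t + (k + i2 + l2 - j - i3 + 1)) (t + (n + i + 2 * i2 + l2 - j - k - l - i3)) (by omega))) (sh al (-1) (t + (n + i + 2 * i2 + l2 - j - k - l - i3)) (t + (i + 2 * i2 + l2 - j - k - l - i3)) (by omega))))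
            · have kk388 : (j + k + l + i3 + 1) ≤ (i + 2 * i2 + l2) := by clear * - v19 z31; omega
              have kk389 : (i + j + 2 * i2 + l2 + 2) ≤ (2 * Q + k + l + i3) := by clear * - z30; omega
              have kk390 : (2 * Q + j + 2 * i2 + l2) ≤ (i + 3 * k + l + i3) := by clear * - z31; omega
              have kk391 : (j + k + l + i3 + 2) ≤ (i + 2 * i2 + l2) := by clear * - v19 z31; omega
              have kk392 : (i3 + 1) ≤ (Q) := by clear * - b1 b4 b5 b6 v19 y22 z23; linarith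
              have kk393 : (k + i2 + l2 + 1) ≤ (n + i3) := by clear * - y17; omega
              have kk394 : (i2) ≤ (k) := by clear * - b1 b3 b6 v19 z23 z25; omega
              have kk395 : (i2 + l2) ≤ (k + l) := by clear * - y20; omega
              have kk396 : (2 * k + l + i3 + 1) ≤ (Q + 2 * i2 + l2) := by clear * - v19; omega
              have kk397 : (i2) ≤ (l + i3 + 1) := by clear * - b1 b2 b3 b4 b5 z23 z30; linarith
              have kk398 : (k + l + i3) ≤ (2 * i2 + l2) := by clear * - b1 b3 b4 b5 b6 v19 z23 z26; linarith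
              have kk399 : (Q) ≤ (k + 1) := by clear * - b1 b3 b4 b5 b6 z23 z26; linarith
              have r400 : (i + j) % 2 = 0 := by clear * - ev n1p n2p n3p; omega
              have r401 : (i + 2 * i2 + l2 - j - k - l - i3) % 2 = 0 := by clear * - ev n1p n2p n3p; omega
              clear * - al a2 s2 b c D2 kk388 kk389 kk390 kk391 kk392 kk393 kk394 kk395 kk396 kk397 kk398 kk399 r400 r401
              exact midP al (i + 2 * i2 + l2 - j - k - l - i3) (i + j) (j + 1) (Q + j - k) (i + 2 * i2 + l2 - k - l - i3) (by omega) (fun t h1 h2 => (qa s2 al 0 t ((i + j) - t) (by omega))) (fun t h1 h2 => (cE (cE (pb (show Par W (Q + i2 + l2 - i3 + 1) (k + i2 + l2 - i3 + 1) (n + j + i3 - k - i2 - l2 - 1) from fun t h1 h2 => (cE (sh al (-1) t (t + (-n)) (by omega)) (cE (cE (qf D2 al (-1) (t + (-n)) (t + (i3 - i2 - l2 - 1)) (by omega)) (pb a2 al 0 (t + (i3 - i2 - l2 - 1)) (t + (j + i3 - k - i2 - l2 - 1)) (by omega))) (sh al 1 (t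 + (j + i3 - k - i2 - l2 - 1)) (t + (n + j + i3 - k - i2 - l2 - 1)) (by omega))))) al (-1) t (t + (k + i2 + l2 - j - i3 + 1)) (by omega)) (qf (show Par W (2 * k + l - i2 + 2) (k + l + l2 + 2) (n + i + i2 - 2 * k - l - 1) from fun t h1 h2 => (cE (sh al (-1) t (t + (-n)) (by omega)) (cE (cE (pb c al (-1) (t + (-n)) (t + (i2 - k - l - 1)) (by omega)) (pb b al 0 (t + (i2 - k - l - 1)) (t + (i + i2 - 2 * k - l - 1)) (by omega))) (sh al 1 (t + (i + i2 - 2 * k - l - 1)) (t + (n + i + i2 - 2 * k - l - 1)) (by omega))))) al 0 (t + (k + i2 + l2 - j - i3 + 1)) (t + (n + i + 2 * i2 + l2 - j - k - l - i3)) (by omega))) (sh al (-1) (t + (n + i + 2 * i2 + l2 - j - k - l - i3)) (t + (i + 2 * i2 + l2 - j - k - l - i3)) (by omega))))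
          · have kk402 : (3 * k + l + 2) ≤ (n + i + j + i2) := by clear * - b3 z30 z31; omega
            have kk403 : (i + j + i2) ≤ (3 * k + l) := by clear * - b1 b3 b6 z23 z25 z26 z30 z31; linarith
            have kk404 : (n + i + i2) ≤ (3 * k + l + 1) := by clear * - b1 b3 b6 z23 z25 z26 z30 z31; linarith
            have kk405 : (i2) ≤ (k) := by clear * - b1 b3 b6 z23 z25 z26 z30 z31; linarith
            have kk406 : (i2 + l2) ≤ (k + l) := by clear * - b1 b3 b4 b6 y22 z23 z25 z30 z31; linarith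
            have kk407 : (i + j + 1) ≤ (k) := by clear * - b1 b4 b5 b6 z23 z25 z26 z30 z31; linarith
            have kk408 : (2 * k) ≤ (i + i2 + l2 + 1) := by clear * - b3 y21 z23 z26 z30 z31; omega
            clear * - al a1 b c kk402 kk403 kk404 kk405 kk406 kk407 kk408
            exact al.ubP (n + i + j + i2 - 3 * k - l - 1) (by omega) (by omega) fun t h1 h2 => (cE (sh al 1 t (t + (n)) (by omega)) (cE (qf (show Par W (2 * k + l - i2 + 2) (k + l + l2 + 2) (n + i + i2 - 2 * k - l - 1) from fun t h1 h2 => (cE (sh al (-1) t (t + (-n)) (by omega)) (cE (cE (pb c al (-1) (t + (-n)) (t + (i2 - k - l - 1)) (by omega)) (pb b al 0 (t + (i2 - k - l - 1)) (t + (i + i2 - 2 * k - l - 1)) (by omega))) (sh al 1 (t + (i + i2 - 2 * k - l - 1)) (t + (n + i + i2 - 2 * k - l - 1)) (by omega))))) al 0 (t + (n)) (t + (2 * n + i + i2 - 2 * k - l - 1)) (by omega)) (pb a1 al 1 (t + (2 * n + i + i2 - 2 * k - l - 1)) (t + (n + i + j + i2 - 3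 * k - l - 1)) (by omega))))
        · by_cases v20 : (i + l + i3 + 1) ≤ (2 * i2)
          · have kk409 : (k + i2 + l2 + 2) ≤ (n + i + i3) := by clear * - b1 b2 b4 y21 z23 z26 z30; linarith
            have kk410 : (n + 2 * Q + i2) ≤ (i + k + 2 * l + l2 + i3 + 3) := by clear * - y21 z23 z26 z30 ev n1p n2p n3p; omega
            have kk411 : (n + k + i3) ≤ (i + i2 + 3 * l2 + 1) := by clear * - b1 b2 b4 v20 y21 z23 z26 z30; linarith
            have kk412 : (n + 3 * k + 2 * l + i3) ≤ (i + 3 * i2 + 5 * l2 + 1) := by clear * - b1 b2 b4 y21 z23 z26 z30; linarith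
            have kk413 : (i2 + l2) ≤ (k + l) := by clear * - v20 z23; omega
            have kk414 : (n) ≤ (k + l + l2 + 2) := by clear * - b1 b2 b4 v20 y21 z23 z26 z30; linarith
            have kk415 : (i2) ≤ (k) := by clear * - b1 b3 b4 b5 b6 z23 z26; linarith
            have kk416 : (i2) ≤ (i + l + 1) := by clear * - b1 b2 b4 b5 z23 z26; omega
            have kk417 : (2 * i2 + l2 + 1) ≤ (n + i3) := by clear * - b1 b4 b5 b6 z23; omega
            have kk418 : (k + l + i3 + 1) ≤ (Q + i2 + l2) := by clear * - b1 b2 b4 b5 z23 z26; omega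
            have kk419 : (i + k + 2 * l + 3) ≤ (n + Q) := by clear * - b4 b5 b6; omega
            have kk420 : (k + l2 + 1) ≤ (n + i3) := by clear * - b1 b2 b4 v20 y21 z23 z26 z30; linarith
            have kk421 : (k + l + i2 + 2 * l2 + 3) ≤ (2 * n + i3) := by clear * - b1 b2 b4 b5 z23 z25 z26; linarith
            have kk422 : (i + l + i3 + 1) ≤ (2 * i2) := by clear * - v20; omega
            have r423 : (i + l + i2 + 1) % 2 = 0 := by clear * - ev n1p n2p n3p; omega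
            have r424 : (n + i + i3 - k - i2 - l2 - 1) % 2 = 0 := by clear * - ev n1p n2p n3p; omega
            clear * - al b tt c D2 kk409 kk410 kk411 kk412 kk413 kk414 kk415 kk416 kk417 kk418 kk419 kk420 kk421 kk422 r423 r424
            exact midP al (n + i + i3 - k - i2 - l2 - 1) (i + l + i2 + 1) (k + l - l2 + 1) (i2 + 1) (i + i2 + l2 - k + 1) (by omega) (fun t h1 h2 => (cE (cI (qf (show Par W (k + l + i3 - i2 - l2 + 1) (n + i3 - i2 - l2 - 1) (2 * i2 + l2 - k - l - i3) from fun t h1 h2 => (cE (sh al (-1) t (t + (-n)) (by omega)) (cE (pb D2 al (-1) (t + (-n)) (t + (i2 + l2 - i3 + 1)) (by omega)) (pb c al 0 (t + (i2 + l2 - i3 + 1)) (t + (2 * i2 + l2 - k - l - i3)) (by omega))))) al 0 t (t + (2 * i2 + l2 - k - l - i3)) (by omega)) (ab tt al 0 (t + (2 * i2 + l2 - k - l - i3)) ((i + k + 2 * l + i3 - i2 - l2 + 1) - t) (by omega))) (qf (show Par W (k + l + i3 - i2 - l2 + 1) (n + i3 - i2 - l2 - 1) (2 * i2 + l2 - k - l -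 i3) from fun t h1 h2 => (cE (sh al (-1) t (t + (-n)) (by omega)) (cE (pb D2 al (-1) (t + (-n)) (t + (i2 + l2 - i3 + 1)) (by omega)) (pb c al 0 (t + (i2 + l2 - i3 + 1)) (t + (2 * i2 + l2 - k - l - i3)) (by omega))))) al 0 ((i + k + 2 * l + i3 - i2 - l2 + 1) - t) ((i + l + i2 + 1) - t) (by omega)))) (fun t h1 h2 => (cE (cE (pb (show Par W (k + l + i3 - i2 - l2 + 1) (n + i3 - i2 - l2 - 1) (2 * i2 + l2 - k - l - i3) from fun t h1 h2 => (cE (sh al (-1) t (t + (-n)) (by omega)) (cE (pb D2 al (-1) (t + (-n)) (t + (i2 + l2 - i3 + 1)) (by omega)) (pb c al 0 (t + (i2 + l2 - i3 + 1)) (t + (2 * i2 + l2 - k - l - i3)) (by omega))))) al 0 t (t + (k + l + i3 - 2 * i2 - l2)) (by omega)) (qf (show Par W (2 * k + l - i2 + 2) (k + l + l2 + 2) (n + i + i2 - 2 * k - l - 1) from fun t h1 h2 => (cE (sh al (-1) t (t + (-n)) (by omega)) (cE (cE (pb c al (-1) (t + (-n)) (t + (i2 - k - l - 1)) (by omega)) (pb b al 0 (t + (i2 - k - l - 1)) (t + (i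 + i2 - 2 * k - l - 1)) (by omega))) (sh al 1 (t + (i + i2 - 2 * k - l - 1)) (t + (n + i + i2 - 2 * k - l - 1)) (by omega))))) al (-1) (t + (k + l + i3 - 2 * i2 - l2)) (t + (2 * n + i + i3 - k - i2 - l2 - 1)) (by omega))) (sh al (-1) (t + (2 * n + i + i3 - k - i2 - l2 - 1)) (t + (n + i + i3 - k - i2 - l2 - 1)) (by omega))))
          · have kk425 : (k + i2 + l2 + 2) ≤ (n + i + i3) := by clear * - b1 b2 b4 b5 v20 z23 z26; linarith
            have kk426 : (n + 2 * Q + i + i3) ≤ (k + 3 * i2 + l2 + 1) := by clear * - y20 y21 z26 z30; omega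
            have kk427 : (n + i + k + 2 * l + 3 * i3 + 1) ≤ (5 * i2 + 3 * l2) := by clear * - b1 b2 b4 b5 v20 y20 z26; linarith
            have kk428 : (n + i + 3 * k + 4 * l + 3 * i3 + 1) ≤ (7 * i2 + 5 * l2) := by clear * - b1 b2 b4 b5 v20 y21 z26 z30; linarith
            have kk429 : (i2 + l2) ≤ (k + l) := by clear * - y20; omega
            have kk430 : (n) ≤ (k + l + l2 + 2) := by clear * - b1 b2 b4 b5 v20 z23 z26; linarith
            have kk431 : (i2) ≤ (k) := by clear * - b1 b3 b4 b5 b6 z23 z26; linarith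
            have kk432 : (i2) ≤ (i + l + 1) := by clear * - b1 b2 b4 b5 z23 z26; omega
            have kk433 : (2 * i2 + l2 + 1) ≤ (n + i3) := by clear * - b1 b4 b5 b6 z23; omega
            have kk434 : (k + l + i3 + 1) ≤ (Q + i2 + l2) := by clear * - b1 b2 b4 b5 z23 z26; omega
            have kk435 : (i + k + 2 * l + 3) ≤ (n + Q) := by clear * - b4 b5 b6; omega
            have kk436 : (k + l2 + 1) ≤ (n + i3) := by clear * - b1 b2 b4 b5 y21 z23 z26; linarith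
            have kk437 : (k + l + i2 + 2 * l2 + 3) ≤ (2 * n + i3) := by clear * - b1 b2 b4 b5 z23 z25 z26; linarith
            have kk438 : (2 * i2) ≤ (i + l + i3 + 1) := by clear * - v20; omega
            have r439 : (i + l + i2 + 1) % 2 = 0 := by clear * - ev n1p n2p n3p; omega
            have r440 : (n + i + i3 - k - i2 - l2 - 1) % 2 = 0 := by clear * - ev n1p n2p n3p; omega
            clear * - al b tt c D2 kk425 kk426 kk427 kk428 kk429 kk430 kk431 kk432 kk433 kk434 kk435 kk436 kk437 kk438 r439 r440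
            exact midP al (n + i + i3 - k - i2 - l2 - 1) (i + l + i2 + 1) (i + k + 2 * l + i3 - 2 * i2 - l2 + 2) (i2 + 1) (i + i2 + l2 - k + 1) (by omega) (fun t h1 h2 => (cE (cI (qf (show Par W (k + l + i3 - i2 - l2 + 1) (n + i3 - i2 - l2 - 1) (2 * i2 + l2 - k - l - i3) from fun t h1 h2 => (cE (sh al (-1) t (t + (-n)) (by omega)) (cE (pb D2 al (-1) (t + (-n)) (t + (i2 + l2 - i3 + 1)) (by omega)) (pb c al 0 (t + (i2 + l2 - i3 + 1)) (t + (2 * i2 + l2 - k - l - i3)) (by omega))))) al 0 t (t + (2 * i2 + l2 - k - l - i3)) (by omega)) (ab tt al 0 (t + (2 * i2 + l2 - k - l - i3)) ((i + k + 2 * l + i3 - i2 - l2 + 1) - t) (by omega))) (qf (show Par W (k + l + i3 - i2 - l2 + 1) (n + i3 - i2 - l2 - 1) (2 * i2 + l2 - k - l - i3) from fun t h1 h2 => (cE (sh al (-1) t (t + (-n)) (by omega)) (cE (pb D2 al (-1) (t + (-n)) (t + (i2 + l2 - i3 + 1)) (by omega)) (pb c al 0 (t + (i2 + l2 - i3 + 1)) (t + (2 * i2 + l2 - k - l - i3)) (by omega)))))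 al 0 ((i + k + 2 * l + i3 - i2 - l2 + 1) - t) ((i + l + i2 + 1) - t) (by omega)))) (fun t h1 h2 => (cE (cE (pb (show Par W (k + l + i3 - i2 - l2 + 1) (n + i3 - i2 - l2 - 1) (2 * i2 + l2 - k - l - i3) from fun t h1 h2 => (cE (sh al (-1) t (t + (-n)) (by omega)) (cE (pb D2 al (-1) (t + (-n)) (t + (i2 + l2 - i3 + 1)) (by omega)) (pb c al 0 (t + (i2 + l2 - i3 + 1)) (t + (2 * i2 + l2 - k - l - i3)) (by omega))))) al 0 t (t + (k + l + i3 - 2 * i2 - l2)) (by omega)) (qf (show Par W (2 * k + l - i2 + 2) (k + l + l2 + 2) (n + i + i2 - 2 * k - l - 1) from fun t h1 h2 => (cE (sh al (-1) t (t + (-n)) (by omega)) (cE (cE (pb c al (-1) (t + (-n)) (t + (i2 - k - l - 1)) (by omega)) (pb b al 0 (t + (i2 - k - l - 1)) (t + (i + i2 - 2 * k - l - 1)) (by omega))) (sh al 1 (t + (i + i2 - 2 * k - l - 1)) (t + (n + i + i2 - 2 * k - l - 1)) (by omega))))) al (-1) (t + (k + l + i3 - 2 * i2 - l2)) (t + (2 * n + i + i3 - k - i2 - l2 - 1)) (by omega)))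 (sh al (-1) (t + (2 * n + i + i3 - k - i2 - l2 - 1)) (t + (n + i + i3 - k - i2 - l2 - 1)) (by omega))))
    · by_cases z32 : (i + i2 + l2 + i3 + 3) ≤ (2 * Q + k)
      · have kk441 : (3 * k + 2 * l + l2 + 5) ≤ (2 * n + i + i2 + i3) := by clear * - b4 b5 y13 z32; omega
        have kk442 : (i + i2 + l2 + i3 + 2) ≤ (2 * Q + k) := by clear * - z32; omega
        have kk443 : (i) ≤ (i3) := by clear * - y21; omega
        have kk444 : (n + i3) ≤ (k + l + l2 + 2) := by clear * - b5 y16 z23 z25 z32; omega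
        have kk445 : (Q) ≤ (i + l + 1) := by clear * - b1 b4 b5 y13 z23 z32; omega
        have kk446 : (Q) ≤ (l2 + i3 + 1) := by clear * - b1 b4 b5 b6 y13 z23 z32; linarith
        have r447 : (k + i2 + l2 + i3 - i + 1) % 2 = 0 := by clear * - ev n1p n2p n3p; omega
        clear * - al b c u2 kk441 kk442 kk443 kk444 kk445 kk446 r447
        obtain ⟨t, ht⟩ : ∃ t, 2 * t = (k + i2 + l2 + i3 - i + 1) := ⟨(k + i2 + l2 + i3 - i + 1) / 2, by omega⟩
        exact al.ninv t (cE (cI (pb b al 0 t (t + (i - k)) (by omega)) (qa u2 al 0 (t + (i - k)) ((2 * k + l + l2 + i3 - n - i + 2) - t) (by omega))) (pb c al (-1) ((2 * k + l + l2 + i3 - n - i + 2) - t) t (by omega)))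
      · by_cases v21 : (2 * k) ≤ (i + i2 + l2 + 1)
        · have kk448 : (3 * k + l + 2) ≤ (n + i + j + i2) := by clear * - b4 b5 z25; omega
          have kk449 : (i + j + i2) ≤ (3 * k + l) := by clear * - b0 b1 b4 b6 v21 y22 z23 z25 z32; linarith
          have kk450 : (n + i + i2) ≤ (3 * k + l + 1) := by clear * - b1 b4 b5 b6 y22 z23 z32; linarith
          have kk451 : (i2) ≤ (k) := by clear * - b1 b4 b5 b6 y22 z23 z32; linarith
          have kk452 : (i2 + l2) ≤ (k + l) := by clear * - y20; omega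
          have kk453 : (i + j + 1) ≤ (k) := by clear * - y16 y21; omega
          have kk454 : (2 * k) ≤ (i + i2 + l2 + 1) := by clear * - v21; omega
          clear * - al a1 b c kk448 kk449 kk450 kk451 kk452 kk453 kk454
          exact al.ubP (n + i + j + i2 - 3 * k - l - 1) (by omega) (by omega) fun t h1 h2 => (cE (qf (show Par W (2 * k + l - i2 + 2) (k + l + l2 + 2) (n + i + i2 - 2 * k - l - 1) from fun t h1 h2 => (cE (sh al (-1) t (t + (-n)) (by omega)) (cE (cE (pb c al (-1) (t + (-n)) (t + (i2 - k - l - 1)) (by omega)) (pb b al 0 (t + (i2 - k - l - 1)) (t + (i + i2 - 2 * k - l - 1)) (by omega))) (sh al 1 (t + (i + i2 - 2 * k - l - 1)) (t + (n + i + i2 - 2 * k - l - 1)) (by omega))))) al (-1) t (t + (2 * n + i + i2 - 2 * k - l - 1)) (by omega)) (pb a1 al 1 (t + (2 * n + i + i2 - 2 * k - l - 1)) (t + (n + i + j + i2 - 3 * k - l - 1)) (by omega)))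
        · have kk455 : (3 * k + l + 2) ≤ (n + i + j + i2) := by clear * - b4 b5 z25; omega
          have kk456 : (i + j + i2) ≤ (3 * k + l) := by clear * - b1 b4 b5 b6 y16 z23 z25 z32; linarith
          have kk457 : (n) ≤ (k + l + l2 + 2) := by clear * - y13 y14; omega
          have kk458 : (i2) ≤ (k) := by clear * - b1 b4 b5 b6 y22 z23 z32; linarith
          have kk459 : (i2 + l2) ≤ (k + l) := by clear * - y20; omega
          have kk460 : (i + j + 1) ≤ (k) := by clear * - y16 y21; omega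
          have kk461 : (i + i2 + l2 + 1) ≤ (2 * k) := by clear * - v21; omega
          clear * - al a1 b c kk455 kk456 kk457 kk458 kk459 kk460 kk461
          exact al.ubP (n + i + j + i2 - 3 * k - l - 1) (by omega) (by omega) fun t h1 h2 => (cE (qf (show Par W (2 * k + l - i2 + 2) (k + l + l2 + 2) (n + i + i2 - 2 * k - l - 1) from fun t h1 h2 => (cE (sh al (-1) t (t + (-n)) (by omega)) (cE (cE (pb c al (-1) (t + (-n)) (t + (i2 - k - l - 1)) (by omega)) (pb b al 0 (t + (i2 - k - l - 1)) (t + (i + i2 - 2 * k - l - 1)) (by omega))) (sh al 1 (t + (i + i2 - 2 * k - l - 1)) (t + (n + i + i2 - 2 * k - l - 1)) (by omega))))) al (-1) t (t + (2 * n + i + i2 - 2 * k - l - 1)) (by omega)) (pb a1 al 1 (t + (2 * n + i + i2 - 2 * k - l - 1)) (t + (n + i + j + i2 - 3 * k - l - 1)) (by omega)))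

theorem t4_14 {W : ℤ → G} {n Q i j k l i2 l2 i3 : ℤ} (al : AL W n Q)
    (hy : (0) ≤ (i) ∧ (i) ≤ (j) ∧ (j + 1) ≤ (Q) ∧ (Q) ≤ (k) ∧ (k + 1) ≤ (n) ∧ (Q) ≤ (i + l + 1) ∧ (k + l + 2) ≤ (n) ∧ (Q) ≤ (i2) ∧ (i2) ≤ (i + l + 1) ∧ (Q) ≤ (i2 + l2 + 1) ∧ (i2 + l2 + 2) ≤ (n) ∧ (n) ≤ (k + l + l2 + 2) ∧ (k + l + l2 + 3) ≤ (n + Q) ∧ (0) ≤ (i3) ∧ (n + i3) ≤ (k + l + l2 + 2) ∧ (k + i2 + l2 + 2) ≤ (n + j + i3) ∧ (j + i3 + 1) ≤ (k) ∧ (k + i2 + l2 + 2) ≤ (n + i3) ∧ (i + 2 * i2 + 1) ≤ (2 * Q + k) ∧ (i + l + 1) ≤ (i2 + l2) ∧ (i2 + l2 + 1) ≤ (k + l) ∧ (i) ≤ (i3) ∧ (i3) ≤ (i))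
    (a1 : Par W (0) (j) (k - j))
    (a2 : Par W (Q + j - k) (j) (k - j))
    (s1 : Ant W (0) (i) (i + j))
    (s2 : Ant W (j + 1) (Q) (i + j))
    (b : Par W (i + 1) (i + l + 1) (k - i))
    (tt : Ant W (Q) (i2) (i + l + i2 + 1))
    (c : Par W (i2 + 1) (i2 + l2 + 1) (k + l - i2 + 1))
    (u1 : Ant W (0) (i3) (k + l + l2 + i3 - n + 2))
    (u2 : Ant W (k + l + l2 - n + 3) (Q) (k + l + l2 + i3 - n + 2))
    (D1 : Par W (i3 + 1) (Q) (i2 + l2 - i3 + 1))
    (D2 : Par W (i2 + l2 + 2) (n) (i3 - i2 - l2 - 1))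
    {L : ℤ} (mx : ∀ a b g, 0 < g → g < n → Par W a b g → b - a ≤ L)
    (hL : L ≤ (n - j - 3) ∧ L ≤ (n + Q - k - 3) ∧ L ≤ (n - l - 3) ∧ L ≤ (n + i - k - 2) ∧ L ≤ (n - l2 - 3) ∧ L ≤ (n + i3 - Q - 2) ∧ L ≤ (i2 + l2 - 1) ∧ L ≤ (n + i2 - k - l - 3))
    (bd0 : Bd W n L (j) (i) (k))
    (bd2 : Bd W n L (k + l + l2 - n + 2) (i3) (i2 + l2 + 1))
    (n1 : Nd W (j) (i) (k))
    (n2 : Nd W (i + l + 1) (i2) (k + l + 1))
    (n3 : Nd W (k + l + l2 - n + 2) (i3) (i2 + l2 + 1))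
    (b0 : (2 * l + 3) ≤ (n))
    (b1 : (2 * i + j + 1) ≤ (k))
    (b2 : (n + i) ≤ (2 * k + l))
    (b3 : (i + 2 * k + 2 * l + 3) ≤ (n + 2 * Q + j))
    (b4 : (2 * Q + 2 * k + l + 1) ≤ (n + 2 * i + j + i2))
    (b5 : (5 * k + 3 * l + 3 * l2 + 8) ≤ (4 * n + 2 * i + i3))
    (b6 : (2 * n + 2 * Q + i3) ≤ (k + l + 2 * i2 + 3 * l2 + 5))
    (b7 : (2 * Q + k) ≤ (2 * i + l + i2 + 2)) : False := by
  have ev := al.ev
  obtain ⟨y0, y1, y2, y3, y4, y5, y6, y7, y8, y9, y10, y11, y12, y13, y14, y15, y16, y17, y18, y19, y20, y21, y22⟩ := id hy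
  have n1p := And.intro n1.p1 n1.p2
  have n2p := And.intro n2.p1 n2.p2
  have n3p := And.intro n3.p1 n3.p2
  by_cases z19 : (2 * i + l + 3) ≤ (k + i2)
  · by_cases v14 : (i + l + 1) ≤ (k)
    · have kk233 : (k + 1) ≤ (l + i2) := by clear * - b3 b6 b7 v14 y2 y20 y21; linarith
      have kk234 : (2 * Q + k) ≤ (2 * i + l + i2 + 2) := by clear * - b7; omega
      have kk235 : (i + l + 1) ≤ (k) := by clear * - v14; omega
      have kk236 : (i + i2 + 1) ≤ (Q + k) := by clear * - b7 y18 z19; omega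
      have r237 : (2 * i + l + i2 - 2 * n - k + 1) % 2 = 0 := by clear * - ev n1p n2p n3p; omega
      clear * - al b tt kk233 kk234 kk235 kk236 r237
      obtain ⟨t, ht⟩ : ∃ t, 2 * t = (2 * i + l + i2 - 2 * n - k + 1) := ⟨(2 * i + l + i2 - 2 * n - k + 1) / 2, by omega⟩
      exact al.ninv t (cE (cI (qf b al (-1) t (t + (n + k - i)) (by omega)) (ab tt al 0 (t + (n + k - i)) ((2 * i + l + i2 - n - k + 1) - t) (by omega))) (sh al (-1) ((2 * i + l + i2 - n - k + 1) - t) t (by omega)))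
    · have kk238 : (2 * i + l + 3) ≤ (k + i2) := by clear * - z19; omega
      have kk239 : (2 * Q + k) ≤ (2 * i + l + i2 + 2) := by clear * - b7; omega
      have kk240 : (k) ≤ (i + l + 1) := by clear * - v14; omega
      have kk241 : (i + i2 + 1) ≤ (Q + k) := by clear * - b7 y18 z19; omega
      have r242 : (2 * i + l + i2 - 2 * n - k + 1) % 2 = 0 := by clear * - ev n1p n2p n3p; omega
      clear * - al b tt kk238 kk239 kk240 kk241 r242
      obtain ⟨t, ht⟩ : ∃ t, 2 * t = (2 * i + l + i2 - 2 * n - k + 1) := ⟨(2 * i + l + i2 - 2 * n - k + 1) / 2, by omega⟩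
      exact al.ninv t (cE (cI (qf b al (-1) t (t + (n + k - i)) (by omega)) (ab tt al 0 (t + (n + k - i)) ((2 * i + l + i2 - n - k + 1) - t) (by omega))) (sh al (-1) ((2 * i + l + i2 - n - k + 1) - t) t (by omega)))
  · by_cases z20 : (i + 2 * i2 + l2 + 1) ≤ (2 * k + l + i3)
    · by_cases z21 : (2 * k + l + i3 + 1) ≤ (Q + 2 * i2 + l2)
      · by_cases v15 : (i2) ≤ (k)
        · have kk243 : (i + 2 * i2 + l2 + 1) ≤ (2 * k + l + i3) := by clear * - z20; omega
          have kk244 : (2 * k + l + i3 + 1) ≤ (n + i + 2 * i2 + l2) := by clear * - b0 b7 v15 z20 z21; omega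
          have kk245 : (2 * k + l + i3 + 1) ≤ (Q + 2 * i2 + l2) := by clear * - z21; omega
          have kk246 : (Q + 2 * k + l + 1) ≤ (n + i + i2) := by clear * - b5 b6; omega
          have kk247 : (i2 + l2) ≤ (k + l) := by clear * - b1 b2 b3 b4 b5 v15 y22 z19; linarith
          have kk248 : (n) ≤ (k + l + l2 + 2) := by clear * - b2 b7 v15 y21 z19 z21; omega
          have kk249 : (i2) ≤ (k) := by clear * - v15; omega
          have kk250 : (n + i2) ≤ (2 * k + 2 * l + 2) := by clear * - b2 b7 v15 z19 z20 z21; omega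
          clear * - al b c D2 kk243 kk244 kk245 kk246 kk247 kk248 kk249 kk250
          exact al.ubQ (2 * k + l + i3 - i - 2 * i2 - l2) (by omega) (by omega) fun t h1 h2 => (cE (sh al (-1) t (t + (-n)) (by omega)) (cE (qf b al (-1) (t + (-n)) (t + (k - i)) (by omega)) (pb (show Par W (k + l + i3 - i2 - l2 + 1) (n + i3 - i2 - l2 - 1) (2 * i2 + l2 - k - l - i3) from fun t h1 h2 => (cE (sh al (-1) t (t + (-n)) (by omega)) (cE (pb D2 al (-1) (t + (-n)) (t + (i2 + l2 - i3 + 1)) (by omega)) (pb c al 0 (t + (i2 + l2 - i3 + 1)) (t + (2 * i2 + l2 - k - l - i3)) (by omega))))) al 0 (t + (k - i)) (t + (2 * k + l + i3 - i - 2 * i2 - l2)) (by omega))))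
        · have kk251 : (i + 2 * i2 + l2 + 1) ≤ (2 * k + l + i3) := by clear * - z20; omega
          have kk252 : (2 * k + l + i3 + 1) ≤ (n + i + 2 * i2 + l2) := by clear * - b0 b1 b2 b4 v15 z19 z20 z21; linarith
          have kk253 : (k + l + i3 + 1) ≤ (Q + i2 + l2) := by clear * - b2 b3 b5 b6 y2 y22; omega
          have kk254 : (Q + 2 * k + l + 1) ≤ (n + i + i2) := by clear * - b5 b6; omega
          have kk255 : (i2 + l2) ≤ (k + l) := by clear * - v15 y22 z20; omega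
          have kk256 : (n) ≤ (k + l + l2 + 2) := by clear * - b0 b1 b2 b3 b6 v15 z19 z20; linarith
          have kk257 : (k) ≤ (i2) := by clear * - v15; omega
          have kk258 : (n + i2) ≤ (2 * k + 2 * l + 2) := by clear * - b0 b1 b2 b4 z19 z20 z21; linarith
          clear * - al b c D2 kk251 kk252 kk253 kk254 kk255 kk256 kk257 kk258
          exact al.ubQ (2 * k + l + i3 - i - 2 * i2 - l2) (by omega) (by omega) fun t h1 h2 => (cE (sh al (-1) t (t + (-n)) (by omega)) (cE (qf b al (-1) (t + (-n)) (t + (k - i)) (by omega)) (pb (show Par W (k + l + i3 - i2 - l2 + 1) (n + i3 - i2 - l2 - 1) (2 * i2 + l2 - k - l - i3) from fun t h1 h2 => (cE (sh al (-1) t (t + (-n)) (by omega)) (cE (pb D2 al (-1) (t + (-n)) (t + (i2 + l2 - i3 + 1)) (by omega)) (pb c al 0 (t + (i2 + l2 - i3 + 1)) (t + (2 * i2 + l2 - k - l - i3)) (by omega))))) al 0 (t + (k - i)) (t + (2 * k + l + i3 - i - 2 * i2 - l2)) (by omega))))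
      · by_cases z22 : (i + 2 * i2 + l2) ≤ (j + k + l + i3)
        · have kk259 : (i + 1) ≤ (j) := by clear * - b1 b2 b3 b4 z19; omega
          have kk260 : (j) ≤ (i + l) := by clear * - b1 b2 b3 b7 y13 y22 z19; linarith
          have kk261 : (k + l + i3 + 1) ≤ (2 * i2 + l2) := by clear * - b6 y12; omega
          have kk262 : (i + 2 * i2 + l2) ≤ (j + k + l + i3) := by clear * - z22; omega
          have kk263 : (i2) ≤ (k) := by clear * - b2 b3 b5 b6 y2 y22 z21; linarith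
          have kk264 : (j + 2 * k + l + 2) ≤ (n + i + i2) := by clear * - b5 b6 y2; omega
          have kk265 : (i2 + l2) ≤ (k + l) := by clear * - b1 b2 b3 b5 b7 y22 z19 z20 z22; linarith
          have kk266 : (n) ≤ (k + l + l2 + 2) := by clear * - b2 y19 z19; omega
          have kk267 : (0) ≤ (i + 1) := by clear * - y13 y22; omega
          have kk268 : (j) ≤ (i + l + 1) := by clear * - b1 b2 b3 b7 y13 y22 z19; linarith
          have r269 : (j - i) % 2 = 0 := by clear * - ev n1p n2p n3p; omega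
          have r270 : (2 * i2 + l2 - k - l - i3) % 2 = 0 := by clear * - ev n1p n2p n3p; omega
          clear * - al a1 b c D2 n1 kk259 kk260 kk261 kk262 kk263 kk264 kk265 kk266 kk267 kk268 r269 r270
          exact n1.f0 (rEE (cE (qf b al 0 (j) (j + k - i) (by omega)) (sh al (-1) (j + k - i) (j + k - n - i) (by omega))) (sh al (-1) (k) (k - n) (by omega)) (Eq.symm (rotR (j - i) (2 * i2 + l2 - k - l - i3) (k - n) (j + k - n - i) (by omega) (fun t h1 h2 => (cE (cE (pb a1 al (-1) t (t + (n + j - k)) (by omega)) (qf b al 0 (t + (n + j - k)) (t + (n + j - i)) (by omega))) (sh al (-1) (t + (n + j - i)) (t + (j - i)) (by omega)))) (fun t h1 h2 => (cE (qf (show Par W (k + l + i3 - i2 - l2 + 1) (n + i3 - i2 - l2 - 1) (2 * i2 + l2 - k - l - i3) from fun t h1 h2 => (cE (sh al (-1) t (t + (-n)) (by omega)) (cE (pb D2 al (-1) (t + (-n)) (t + (i2 + l2 - i3 + 1)) (by omega)) (pb c al 0 (t + (i2 + l2 - i3 + 1)) (t + (2 * i2 + l2 - k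 - l - i3)) (by omega))))) al (-1) t (t + (n + 2 * i2 + l2 - k - l - i3)) (by omega)) (sh al (-1) (t + (n + 2 * i2 + l2 - k - l - i3)) (t + (2 * i2 + l2 - k - l - i3)) (by omega)))))))
        · by_cases v16 : (2 * j + 1) ≤ (k)
          · have kk271 : (k) ≤ (i + 2 * j) := by clear * - b2 b3 b4 z19; omega
            have kk272 : (k) ≤ (i + 2 * j + 1) := by clear * - b2 b3 b4 z19; omega
            have kk273 : (2 * j + 1) ≤ (k) := by clear * - v16; omega
            have kk274 : (i + j + 1) ≤ (k) := by clear * - b1 z20 z22; omega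
            have r275 : (i + 2 * j - 2 * n - k) % 2 = 0 := by clear * - ev n1p n2p n3p; omega
            clear * - al a1 s1 kk271 kk272 kk273 kk274 r275
            obtain ⟨t, ht⟩ : ∃ t, 2 * t = (i + 2 * j - 2 * n - k) := ⟨(i + 2 * j - 2 * n - k) / 2, by omega⟩
            exact al.ninv t (cE (cI (qf a1 al (-1) t (t + (n + k - j)) (by omega)) (ab s1 al 0 (t + (n + k - j)) ((i + 2 * j - n - k) - t) (by omega))) (sh al (-1) ((i + 2 * j - n - k) - t) t (by omega)))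
          · have kk276 : (2 * j + 2) ≤ (i + k) := by clear * - b1 b2 b3 b5 y21 z19 z21 z22; linarith
            have kk277 : (k) ≤ (i + 2 * j + 1) := by clear * - b2 b3 b7 v16 z19 z21 z22; linarith
            have kk278 : (k) ≤ (2 * j + 1) := by clear * - v16; omega
            have kk279 : (i + j + 1) ≤ (k) := by clear * - b1 z20 z22; omega
            have r280 : (i + 2 * j - 2 * n - k) % 2 = 0 := by clear * - ev n1p n2p n3p; omega
            clear * - al a1 s1 kk276 kk277 kk278 kk279 r280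
            obtain ⟨t, ht⟩ : ∃ t, 2 * t = (i + 2 * j - 2 * n - k) := ⟨(i + 2 * j - 2 * n - k) / 2, by omega⟩
            exact al.ninv t (cE (cI (qf a1 al (-1) t (t + (n + k - j)) (by omega)) (ab s1 al 0 (t + (n + k - j)) ((i + 2 * j - n - k) - t) (by omega))) (sh al (-1) ((i + 2 * j - n - k) - t) t (by omega)))
    · have kk281 : (j + 1) ≤ (k) := by clear * - b0 b1 b2 b3 b5 b7 y21 z19 z20; linarith
      have kk282 : (k + l + l2 + 2) ≤ (n + i + j + i3) := by clear * - b0 b2 b3 b4 b5 y21 z19 z20; linarith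
      have kk283 : (n) ≤ (i + j + k + l + l2 + i3 + 4) := by clear * - b0 b1 b2 b3 b7 y21 z19 z20; linarith
      have kk284 : (l + l2 + i3 + 2) ≤ (n + i + j + k) := by clear * - b0 b1 b2 b3 b4 b5 b7 z19 z20; linarith
      have kk285 : (n) ≤ (i + l + l2 + i3 + 2) := by clear * - b0 b2 y21 z19 z20; omega
      have kk286 : (l + l2 + i3 + 4) ≤ (n + i) := by clear * - b0 b1 b2 b3 b5 b7 y22 z19; linarith
      have kk287 : (0) ≤ (j + 1) := by clear * - b0 b1 b2 b3 b4 b7 z19; linarith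
      have kk288 : (i) ≤ (k) := by clear * - b0 b1 b2 b3 b7 z19; omega
      have kk289 : (i + j + 1) ≤ (k) := by clear * - b0 b1 b2 b3 b5 b7 y21 z19 z20; linarith
      have r290 : (i + j - 2 * n) % 2 = 0 := by clear * - ev n1p n2p n3p; omega
      have r291 : (k - j) % 2 = 0 := by clear * - ev n1p n2p n3p; omega
      have r292 : (k + l + l2 + i3 - 3 * n + 2) % 2 = 0 := by clear * - ev n1p n2p n3p; omega
      clear * - al a1 s1 u1 kk281 kk282 kk283 kk284 kk285 kk286 kk287 kk288 kk289 r290 r291 r292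
      exact mid2 al (k - j) (i + j - 2 * n) (k + l + l2 + i3 - 3 * n + 2) (j - n + 1) (i + j - n + 1) 0 (-n) (k - n) (by omega) (fun t h1 h2 => ⟨by omega, (cE (ab s1 al (-1) t ((i + j - n) - t) (by omega)) (sh al (-1) ((i + j - n) - t) ((i + j - 2 * n) - t) (by omega)))⟩) (fun t h1 h2 => ⟨by omega, (cE (ab u1 al (-1) t ((k + l + l2 + i3 - 2 * n + 2) - t) (by omega)) (sh al (-1) ((k + l + l2 + i3 - 2 * n + 2) - t) ((k + l + l2 + i3 - 3 * n + 2) - t) (by omega)))⟩) (fun t h1 h2 => (cE (qf a1 al (-1) t (t + (n + k - j)) (by omega)) (sh al (-1) (t + (n + k - j)) (t + (k - j)) (by omega))))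

theorem t4_13 {W : ℤ → G} {n Q i j k l i2 l2 i3 : ℤ} (al : AL W n Q)
    (hy : (0) ≤ (i) ∧ (i) ≤ (j) ∧ (j + 1) ≤ (Q) ∧ (Q) ≤ (k) ∧ (k + 1) ≤ (n) ∧ (Q) ≤ (i + l + 1) ∧ (k + l + 2) ≤ (n) ∧ (Q) ≤ (i2) ∧ (i2) ≤ (i + l + 1) ∧ (Q) ≤ (i2 + l2 + 1) ∧ (i2 + l2 + 2) ≤ (n) ∧ (n) ≤ (k + l + l2 + 2) ∧ (k + l + l2 + 3) ≤ (n + Q) ∧ (0) ≤ (i3) ∧ (n + i3) ≤ (k + l + l2 + 2) ∧ (k + i2 + l2 + 2) ≤ (n + j + i3) ∧ (j + i3 + 1) ≤ (k) ∧ (k + i2 + l2 + 2) ≤ (n + i3) ∧ (i + 2 * i2 + 1) ≤ (2 * Q + k) ∧ (i + l + 1) ≤ (i2 + l2) ∧ (i2 + l2 + 1) ≤ (k + l) ∧ (i) ≤ (i3) ∧ (i3) ≤ (i))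
    (a1 : Par W (0) (j) (k - j))
    (a2 : Par W (Q + j - k) (j) (k - j))
    (s1 : Ant W (0) (i) (i + j))
    (s2 : Ant W (j + 1) (Q) (i + j))
    (b : Par W (i + 1) (i + l + 1) (k - i))
    (tt : Ant W (Q) (i2) (i + l + i2 + 1))
    (c : Par W (i2 + 1) (i2 + l2 + 1) (k + l - i2 + 1))
    (u1 : Ant W (0) (i3) (k + l + l2 + i3 - n + 2))
    (u2 : Ant W (k + l + l2 - n + 3) (Q) (k + l + l2 + i3 - n + 2))
    (D1 : Par W (i3 + 1) (Q) (i2 + l2 - i3 + 1))
    (D2 : Par W (i2 + l2 + 2) (n) (i3 - i2 - l2 - 1))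
    {L : ℤ} (mx : ∀ a b g, 0 < g → g < n → Par W a b g → b - a ≤ L)
    (hL : L ≤ (n - j - 3) ∧ L ≤ (n + Q - k - 3) ∧ L ≤ (n - l - 3) ∧ L ≤ (n + i - k - 2) ∧ L ≤ (n - l2 - 3) ∧ L ≤ (n + i3 - Q - 2) ∧ L ≤ (i2 + l2 - 1) ∧ L ≤ (n + i2 - k - l - 3))
    (bd0 : Bd W n L (j) (i) (k))
    (bd2 : Bd W n L (k + l + l2 - n + 2) (i3) (i2 + l2 + 1))
    (n1 : Nd W (j) (i) (k))
    (n2 : Nd W (i + l + 1) (i2) (k + l + 1))
    (n3 : Nd W (k + l + l2 - n + 2) (i3) (i2 + l2 + 1))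
    (b0 : (2 * l + 3) ≤ (n))
    (b1 : (2 * i + j + 1) ≤ (k))
    (b2 : (n + i) ≤ (2 * k + l))
    (b3 : (i + 2 * k + 2 * l + 3) ≤ (n + 2 * Q + j))
    (b4 : (2 * Q + 2 * k + l + 1) ≤ (n + 2 * i + j + i2))
    (b5 : (5 * k + 3 * l + 3 * l2 + 8) ≤ (4 * n + 2 * i + i3))
    (b6 : (2 * n + 2 * Q + i3) ≤ (k + l + 2 * i2 + 3 * l2 + 5)) : False := by
  have ev := al.ev
  obtain ⟨y0, y1, y2, y3, y4, y5, y6, y7, y8, y9, y10, y11, y12, y13, y14, y15, y16, y17, y18, y19, y20, y21, y22⟩ := id hy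
  have n1p := And.intro n1.p1 n1.p2
  have n2p := And.intro n2.p1 n2.p2
  have n3p := And.intro n3.p1 n3.p2
  by_cases z18 : (2 * Q + k) ≤ (2 * i + l + i2 + 2)
  · exact t4_14 al hy a1 a2 s1 s2 b tt c u1 u2 D1 D2 mx hL bd0 bd2 n1 n2 n3 (by clear * - b0; omega) (by clear * - b1; omega) (by clear * - b2; omega) (by clear * - b3; omega) (by clear * - b4; omega) (by clear * - b5; omega) (by clear * - b6; omega) (by clear * - z18; omega)
  · exact t4_15 al hy a1 a2 s1 s2 b tt c u1 u2 D1 D2 mx hL bd0 bd2 n1 n2 n3 (by clear * - b1; omega) (by clear * - b2; omega) (by clear * - b3; omega) (by clear * - b4; omega) (by clear * - b5; omega) (by clear * - b6; omega) (by clear * - z18; omega)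

theorem t4_12 {W : ℤ → G} {n Q i j k l i2 l2 i3 : ℤ} (al : AL W n Q)
    (hy : (0) ≤ (i) ∧ (i) ≤ (j) ∧ (j + 1) ≤ (Q) ∧ (Q) ≤ (k) ∧ (k + 1) ≤ (n) ∧ (Q) ≤ (i + l + 1) ∧ (k + l + 2) ≤ (n) ∧ (Q) ≤ (i2) ∧ (i2) ≤ (i + l + 1) ∧ (Q) ≤ (i2 + l2 + 1) ∧ (i2 + l2 + 2) ≤ (n) ∧ (n) ≤ (k + l + l2 + 2) ∧ (k + l + l2 + 3) ≤ (n + Q) ∧ (0) ≤ (i3) ∧ (n + i3) ≤ (k + l + l2 + 2) ∧ (k + i2 + l2 + 2) ≤ (n + j + i3) ∧ (j + i3 + 1) ≤ (k) ∧ (k + i2 + l2 + 2) ≤ (n + i3) ∧ (i + 2 * i2 + 1) ≤ (2 * Q + k) ∧ (i + l + 1) ≤ (i2 + l2) ∧ (i2 + l2 + 1) ≤ (k + l) ∧ (i) ≤ (i3) ∧ (i3) ≤ (i))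
    (a1 : Par W (0) (j) (k - j))
    (a2 : Par W (Q + j - k) (j) (k - j))
    (s1 : Ant W (0) (i) (i + j))
    (s2 : Ant W (j + 1) (Q) (i + j))
    (b : Par W (i + 1) (i + l + 1) (k - i))
    (tt : Ant W (Q) (i2) (i + l + i2 + 1))
    (c : Par W (i2 + 1) (i2 + l2 + 1) (k + l - i2 + 1))
    (u1 : Ant W (0) (i3) (k + l + l2 + i3 - n + 2))
    (u2 : Ant W (k + l + l2 - n + 3) (Q) (k + l + l2 + i3 - n + 2))
    (D1 : Par W (i3 + 1) (Q) (i2 + l2 - i3 + 1))
    (D2 : Par W (i2 + l2 + 2) (n) (i3 - i2 - l2 - 1))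
    {L : ℤ} (mx : ∀ a b g, 0 < g → g < n → Par W a b g → b - a ≤ L)
    (hL : L ≤ (n - j - 3) ∧ L ≤ (n + Q - k - 3) ∧ L ≤ (n - l - 3) ∧ L ≤ (n + i - k - 2) ∧ L ≤ (n - l2 - 3) ∧ L ≤ (n + i3 - Q - 2) ∧ L ≤ (i2 + l2 - 1) ∧ L ≤ (n + i2 - k - l - 3))
    (bd0 : Bd W n L (j) (i) (k))
    (bd2 : Bd W n L (k + l + l2 - n + 2) (i3) (i2 + l2 + 1))
    (n1 : Nd W (j) (i) (k))
    (n2 : Nd W (i + l + 1) (i2) (k + l + 1))
    (n3 : Nd W (k + l + l2 - n + 2) (i3) (i2 + l2 + 1))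
    (b0 : (2 * l + 3) ≤ (n))
    (b1 : (2 * i + j + 1) ≤ (k))
    (b2 : (n + 2 * Q) ≤ (i + l + i2 + 2 * l2 + 4))
    (b3 : (k + l + i3 + 1) ≤ (2 * i2 + l2))
    (b4 : (n + i) ≤ (2 * k + l))
    (b5 : (i + 2 * k + 2 * l + 3) ≤ (n + 2 * Q + j))
    (b6 : (2 * Q + 2 * k + l + 1) ≤ (n + 2 * i + j + i2))
    (b7 : (5 * k + 3 * l + 3 * l2 + 8) ≤ (4 * n + 2 * i + i3)) : False := by
  have ev := al.ev
  obtain ⟨y0, y1, y2, y3, y4, y5, y6, y7, y8, y9, y10, y11, y12, y13, y14, y15, y16, y17, y18, y19, y20, y21, y22⟩ := id hy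
  have n1p := And.intro n1.p1 n1.p2
  have n2p := And.intro n2.p1 n2.p2
  have n3p := And.intro n3.p1 n3.p2
  by_cases z16 : (k + l + 2 * i2 + 3 * l2 + 6) ≤ (2 * n + 2 * Q + i3)
  · by_cases z17 : (5 * k + 3 * l + 4) ≤ (2 * n + 2 * i + 2 * i2 + l2 + i3)
    · by_cases v11 : (n) ≤ (i2 + 2 * l2 + 2)
      · by_cases v12 : (n + i + i2) ≤ (Q + 2 * k + l + 1)
        · have kk162 : (k + l + i3 + 1) ≤ (2 * i2 + l2) := by clear * - b3; omega
          have kk163 : (5 * k + 3 * l + 3 * l2 + 8) ≤ (4 * n + 2 * i + i3) := by clear * - b7; omega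
          have kk164 : (3 * k + 3 * l + i3 + 4) ≤ (2 * n + 2 * i2 + l2) := by clear * - b1 b2 b4 b5 b6 b7 v11 v12 y22; linarith
          have kk165 : (3 * k + 3 * l + 3 * l2 + i3 + 8) ≤ (4 * n) := by clear * - b1 b4 b5 b6 b7 v11 y20 y22; linarith
          have kk166 : (i2 + l2) ≤ (k + l) := by clear * - y20; omega
          have kk167 : (n) ≤ (k + l + l2 + 2) := by clear * - b2 b3 v12 z16; omega
          have kk168 : (i2 + l2 + i3) ≤ (i + k + l) := by clear * - y20 y22; omega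
          have kk169 : (Q + k) ≤ (i2 + l2 + i3 + 1) := by clear * - b2 b3 y21 z16; omega
          have kk170 : (Q) ≤ (l2 + i3 + 1) := by clear * - b1 b2 b6 v11 v12 z16; omega
          have kk171 : (n + i) ≤ (k + l + l2 + 2) := by clear * - y14 y21; omega
          have kk172 : (n + i2 + i3) ≤ (2 * k + 2 * l + 2) := by clear * - y14 y20; omega
          have kk173 : (n + i3) ≤ (k + l + l2 + 2) := by clear * - y14; omega
          have kk174 : (n) ≤ (i2 + 2 * l2 + 2) := by clear * - v11; omega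
          have kk175 : (n + i + i2) ≤ (Q + 2 * k + l + 1) := by clear * - v12; omega
          have r176 : (i2 + l2 + i3 - 2 * n + 1) % 2 = 0 := by clear * - ev n1p n2p n3p; omega
          have r177 : (2 * i2 + l2 - k - l - i3) % 2 = 0 := by clear * - ev n1p n2p n3p; omega
          clear * - al b c u2 D2 kk162 kk163 kk164 kk165 kk166 kk167 kk168 kk169 kk170 kk171 kk172 kk173 kk174 kk175 r176 r177
          exact midP al (2 * i2 + l2 - k - l - i3) (i2 + l2 + i3 - 2 * n + 1) (k + l + l2 + i3 - 2 * n + 3) (k + l + i3 - n - i2 - l2 + 1) (i2 - k - l - 1) (by omega) (fun t h1 h2 => (cE (cE (cI (cE (qf b al (-1) t (t + (n + k - i)) (by omega)) (qf c al 0 (t + (n + k - i)) (t + (n + 2 * k + l - i - i2 + 1)) (by omega))) (ab u2 al 1 (t + (n + 2 * k + l - i - i2 + 1)) ((i + i2 + l2 + i3 - n - k + 1) - t) (by omega))) (qf b al 0 ((i + i2 + l2 + i3 - n - k + 1) - t) ((i2 + l2 + i3 - n + 1) - t) (by omega))) (sh al (-1) ((i2 + l2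 + i3 - n + 1) - t) ((i2 + l2 + i3 - 2 * n + 1) - t) (by omega)))) (fun t h1 h2 => (cE (qf (show Par W (k + l + i3 - i2 - l2 + 1) (n + i3 - i2 - l2 - 1) (2 * i2 + l2 - k - l - i3) from fun t h1 h2 => (cE (sh al (-1) t (t + (-n)) (by omega)) (cE (pb D2 al (-1) (t + (-n)) (t + (i2 + l2 - i3 + 1)) (by omega)) (pb c al 0 (t + (i2 + l2 - i3 + 1)) (t + (2 * i2 + l2 - k - l - i3)) (by omega))))) al (-1) t (t + (n + 2 * i2 + l2 - k - l - i3)) (by omega)) (sh al (-1) (t + (n + 2 * i2 + l2 - k - l - i3)) (t + (2 * i2 + l2 - k - l - i3)) (by omega))))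
        · have kk178 : (k + l + i3 + 1) ≤ (2 * i2 + l2) := by clear * - b3; omega
          have kk179 : (k + l + 2 * i2 + 3 * l2 + 6) ≤ (2 * n + 2 * Q + i3) := by clear * - z16; omega
          have kk180 : (2 * i + l + i3 + 2) ≤ (2 * Q + k + l2) := by clear * - b1 b2 b4 b5 b6 v11 y22 z16; linarith
          have kk181 : (2 * i + l + 2 * i2 + 3 * l2 + i3 + 6) ≤ (2 * n + 2 * Q + k) := by clear * - b1 b4 b5 b6 v11 y20 y22 z16; linarith
          have kk182 : (i2 + l2) ≤ (k + l) := by clear * - y20; omega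
          have kk183 : (n) ≤ (k + l + l2 + 2) := by clear * - v11 y20; omega
          have kk184 : (i2 + l2 + i3) ≤ (i + k + l) := by clear * - y20 y22; omega
          have kk185 : (Q + k) ≤ (i2 + l2 + i3 + 1) := by clear * - b2 b3 y21 z16; omega
          have kk186 : (Q) ≤ (l2 + i3 + 1) := by clear * - b0 b2 b4 v12 y18 y21 z16; linarith
          have kk187 : (n + i) ≤ (k + l + l2 + 2) := by clear * - y14 y21; omega
          have kk188 : (n + i2 + i3) ≤ (2 * k + 2 * l + 2) := by clear * - y14 y20; omega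
          have kk189 : (n + i3) ≤ (k + l + l2 + 2) := by clear * - y14; omega
          have kk190 : (Q + 2 * k + l + 1) ≤ (n + i + i2) := by clear * - v12; omega
          have kk191 : (Q + 2 * k + l) ≤ (i + 2 * i2 + 2 * l2 + 1) := by clear * - v11 v12; omega
          have r192 : (i2 + l2 + i3 - 2 * n + 1) % 2 = 0 := by clear * - ev n1p n2p n3p; omega
          have r193 : (2 * i2 + l2 - k - l - i3) % 2 = 0 := by clear * - ev n1p n2p n3p; omega
          clear * - al b c u2 D2 kk178 kk179 kk180 kk181 kk182 kk183 kk184 kk185 kk186 kk187 kk188 kk189 kk190 kk191 r192 r193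
          exact midP al (2 * i2 + l2 - k - l - i3) (i2 + l2 + i3 - 2 * n + 1) (i + i2 + l2 + i3 - n - Q - k + 2) (k + l + i3 - n - i2 - l2 + 1) (i2 - k - l - 1) (by omega) (fun t h1 h2 => (cE (cE (cI (cE (qf b al (-1) t (t + (n + k - i)) (by omega)) (qf c al 0 (t + (n + k - i)) (t + (n + 2 * k + l - i - i2 + 1)) (by omega))) (ab u2 al 1 (t + (n + 2 * k + l - i - i2 + 1)) ((i + i2 + l2 + i3 - n - k + 1) - t) (by omega))) (qf b al 0 ((i + i2 + l2 + i3 - n - k + 1) - t) ((i2 + l2 + i3 - n + 1) - t) (by omega))) (sh al (-1) ((i2 + l2 + i3 - n + 1) - t) ((i2 + l2 + i3 - 2 * n + 1) - t) (by omega)))) (fun t h1 h2 => (cE (qf (show Par W (k + l + i3 - i2 - l2 + 1) (n + i3 - i2 - l2 - 1) (2 * i2 + l2 - k - l - i3) from fun t h1 h2 => (cE (sh al (-1) t (t + (-n)) (by omega)) (cE (pb D2 al (-1) (t + (-n)) (t + (i2 + l2 - i3 + 1)) (by omega)) (pb c al 0 (t + (i2 + l2 - i3 + 1)) (t + (2 * i2 + l2 - k - l - i3)) (by omega))))) al (-1)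 t (t + (n + 2 * i2 + l2 - k - l - i3)) (by omega)) (sh al (-1) (t + (n + 2 * i2 + l2 - k - l - i3)) (t + (2 * i2 + l2 - k - l - i3)) (by omega))))
      · by_cases v13 : (i + 2 * i2 + 2 * l2 + 1) ≤ (Q + 2 * k + l)
        · have kk194 : (k + l + i3 + 1) ≤ (2 * i2 + l2) := by clear * - b3; omega
          have kk195 : (5 * k + 3 * l + 4) ≤ (2 * n + 2 * i + 2 * i2 + l2 + i3) := by clear * - z17; omega
          have kk196 : (3 * k + 3 * l + i3) ≤ (4 * i2 + 5 * l2) := by clear * - b0 b1 b2 b3 b4 b5 y18 z17; linarith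
          have kk197 : (3 * k + 3 * l + i3 + 4) ≤ (2 * n + 2 * i2 + l2) := by clear * - b1 b2 b4 b5 b6 v11 v13 y22 z17; linarith
          have kk198 : (i2 + l2) ≤ (k + l) := by clear * - b2 b3 v13 z17; omega
          have kk199 : (n) ≤ (k + l + l2 + 2) := by clear * - y13 y14; omega
          have kk200 : (i2 + l2 + i3) ≤ (i + k + l) := by clear * - b2 b3 v13 y22 z17; omega
          have kk201 : (Q + k) ≤ (i2 + l2 + i3 + 1) := by clear * - b2 b3 v13 y21 z17; omega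
          have kk202 : (Q) ≤ (l2 + i3 + 1) := by clear * - b0 b2 b4 v11 v13 y18 y21 z17; linarith
          have kk203 : (n + i) ≤ (k + l + l2 + 2) := by clear * - y14 y21; omega
          have kk204 : (n + i2 + i3) ≤ (2 * k + 2 * l + 2) := by clear * - b2 b4 v11 v13 y14 z17; omega
          have kk205 : (n + i3) ≤ (k + l + l2 + 2) := by clear * - y14; omega
          have kk206 : (i2 + 2 * l2 + 2) ≤ (n) := by clear * - v11; omega
          have kk207 : (i + 2 * i2 + 2 * l2 + 1) ≤ (Q + 2 * k + l) := by clear * - v13; omega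
          have r208 : (i2 + l2 + i3 - 2 * n + 1) % 2 = 0 := by clear * - ev n1p n2p n3p; omega
          have r209 : (2 * i2 + l2 - k - l - i3) % 2 = 0 := by clear * - ev n1p n2p n3p; omega
          clear * - al b c u2 D2 kk194 kk195 kk196 kk197 kk198 kk199 kk200 kk201 kk202 kk203 kk204 kk205 kk206 kk207 r208 r209
          exact midP al (2 * i2 + l2 - k - l - i3) (i2 + l2 + i3 - 2 * n + 1) (k + l + i3 - n - i2 - l2 + 1) (k + l + i3 - n - i2 - l2 + 1) (i2 - k - l - 1) (by omega) (fun t h1 h2 => (cE (cE (cI (cE (qf b al (-1) t (t + (n + k - i)) (by omega)) (qf c al 0 (t + (n + k - i)) (t + (n + 2 * k + l - i - i2 + 1)) (by omega))) (ab u2 al 1 (t + (n + 2 * k + l - i - i2 + 1)) ((i + i2 + l2 + i3 - n - k + 1) - t) (by omega))) (qf b al 0 ((i + i2 + l2 + i3 - n - k + 1) - t) ((i2 + l2 + i3 - n + 1) - t) (by omega))) (sh al (-1) ((i2 + l2 + i3 - n + 1) - t) ((i2 + l2 + i3 - 2 * n + 1) - t) (by omega)))) (fun t h1 h2 => (cE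 (qf (show Par W (k + l + i3 - i2 - l2 + 1) (n + i3 - i2 - l2 - 1) (2 * i2 + l2 - k - l - i3) from fun t h1 h2 => (cE (sh al (-1) t (t + (-n)) (by omega)) (cE (pb D2 al (-1) (t + (-n)) (t + (i2 + l2 - i3 + 1)) (by omega)) (pb c al 0 (t + (i2 + l2 - i3 + 1)) (t + (2 * i2 + l2 - k - l - i3)) (by omega))))) al (-1) t (t + (n + 2 * i2 + l2 - k - l - i3)) (by omega)) (sh al (-1) (t + (n + 2 * i2 + l2 - k - l - i3)) (t + (2 * i2 + l2 - k - l - i3)) (by omega))))
        · have kk210 : (k + l + i3 + 1) ≤ (2 * i2 + l2) := by clear * - b3; omega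
          have kk211 : (k + l + 2 * i2 + 3 * l2 + 6) ≤ (2 * n + 2 * Q + i3) := by clear * - z16; omega
          have kk212 : (2 * i + l + i3 + 2) ≤ (2 * Q + k + l2) := by clear * - b3 b4 v11 v13 y18; omega
          have kk213 : (2 * i + l + 2 * i2 + 3 * l2 + i3 + 6) ≤ (2 * n + 2 * Q + k) := by clear * - b1 b2 b4 b5 b6 v11 y22 z16; linarith
          have kk214 : (i2 + l2) ≤ (k + l) := by clear * - y20; omega
          have kk215 : (n) ≤ (k + l + l2 + 2) := by clear * - y13 y14; omega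
          have kk216 : (i2 + l2 + i3) ≤ (i + k + l) := by clear * - y20 y22; omega
          have kk217 : (Q + k) ≤ (i2 + l2 + i3 + 1) := by clear * - b2 b3 y21 z16; omega
          have kk218 : (Q) ≤ (l2 + i3 + 1) := by clear * - b0 b2 b4 v11 v13 y18 y21 z16; linarith
          have kk219 : (n + i) ≤ (k + l + l2 + 2) := by clear * - y14 y21; omega
          have kk220 : (n + i2 + i3) ≤ (2 * k + 2 * l + 2) := by clear * - b2 b4 v11 y14 z16; omega
          have kk221 : (n + i3) ≤ (k + l + l2 + 2) := by clear * - y14; omega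
          have kk222 : (i2 + 2 * l2 + 2) ≤ (n) := by clear * - v11; omega
          have kk223 : (Q + 2 * k + l) ≤ (i + 2 * i2 + 2 * l2 + 1) := by clear * - v13; omega
          have r224 : (i2 + l2 + i3 - 2 * n + 1) % 2 = 0 := by clear * - ev n1p n2p n3p; omega
          have r225 : (2 * i2 + l2 - k - l - i3) % 2 = 0 := by clear * - ev n1p n2p n3p; omega
          clear * - al b c u2 D2 kk210 kk211 kk212 kk213 kk214 kk215 kk216 kk217 kk218 kk219 kk220 kk221 kk222 kk223 r224 r225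
          exact midP al (2 * i2 + l2 - k - l - i3) (i2 + l2 + i3 - 2 * n + 1) (i + i2 + l2 + i3 - n - Q - k + 2) (k + l + i3 - n - i2 - l2 + 1) (i2 - k - l - 1) (by omega) (fun t h1 h2 => (cE (cE (cI (cE (qf b al (-1) t (t + (n + k - i)) (by omega)) (qf c al 0 (t + (n + k - i)) (t + (n + 2 * k + l - i - i2 + 1)) (by omega))) (ab u2 al 1 (t + (n + 2 * k + l - i - i2 + 1)) ((i + i2 + l2 + i3 - n - k + 1) - t) (by omega))) (qf b al 0 ((i + i2 + l2 + i3 - n - k + 1) - t) ((i2 + l2 + i3 - n + 1) - t) (by omega))) (sh al (-1) ((i2 + l2 + i3 - n + 1) - t) ((i2 + l2 + i3 - 2 * n + 1) - t) (by omega)))) (fun t h1 h2 => (cE (qf (show Par W (k + l + i3 - i2 - l2 + 1) (n + i3 - i2 - l2 - 1) (2 * i2 + l2 - k - l - i3) from fun t h1 h2 => (cE (sh al (-1) t (t + (-n)) (by omega)) (cE (pb D2 al (-1) (t + (-n)) (t + (i2 + l2 - i3 + 1)) (by omega)) (pb c al 0 (t + (i2 + l2 - i3 + 1)) (t + (2 * i2 + l2 - k - l - i3)) (by omega))))) al (-1)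 t (t + (n + 2 * i2 + l2 - k - l - i3)) (by omega)) (sh al (-1) (t + (n + 2 * i2 + l2 - k - l - i3)) (t + (2 * i2 + l2 - k - l - i3)) (by omega))))
    · have kk226 : (i + i2 + l2 + i3 + 3) ≤ (2 * Q + k) := by clear * - b5 b6 y2 z17; omega
      have kk227 : (3 * k + 2 * l + l2 + 4) ≤ (2 * n + i + i2 + i3) := by clear * - b3 b7 y13; omega
      have kk228 : (i2 + l2) ≤ (k + l) := by clear * - b2 b3 z16 z17; omega
      have kk229 : (Q + k) ≤ (i + i2 + l2 + 1) := by clear * - b2 b3 z16; omega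
      have kk230 : (n + i) ≤ (k + l + l2 + 2) := by clear * - y14 y21; omega
      have kk231 : (n + i + i2) ≤ (2 * k + l + l2 + 2) := by clear * - b0 b2 b3 y18 y21 z17; omega
      have r232 : (3 * k + 2 * l + l2 + i3 - i - i2 + 3) % 2 = 0 := by clear * - ev n1p n2p n3p; omega
      clear * - al b c u2 kk226 kk227 kk228 kk229 kk230 kk231 r232
      obtain ⟨t, ht⟩ : ∃ t, 2 * t = (3 * k + 2 * l + l2 + i3 - i - i2 + 3) := ⟨(3 * k + 2 * l + l2 + i3 - i - i2 + 3) / 2, by omega⟩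
      exact al.ninv t (cE (cE (ab u2 al 1 t ((k + l + l2 + i3 + 2) - t) (by omega)) (qf b al 0 ((k + l + l2 + i3 + 2) - t) ((2 * k + l + l2 + i3 - i + 2) - t) (by omega))) (qf c al 0 ((2 * k + l + l2 + i3 - i + 2) - t) t (by omega)))
  · exact t4_13 al hy a1 a2 s1 s2 b tt c u1 u2 D1 D2 mx hL bd0 bd2 n1 n2 n3 (by clear * - b0; omega) (by clear * - b1; omega) (by clear * - b4; omega) (by clear * - b5; omega) (by clear * - b6; omega) (by clear * - b7; omega) (by clear * - z16; omega)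

theorem t4_19 {W : ℤ → G} {n Q i j k l i2 l2 i3 : ℤ} (al : AL W n Q)
    (hy : (0) ≤ (i) ∧ (i) ≤ (j) ∧ (j + 1) ≤ (Q) ∧ (Q) ≤ (k) ∧ (k + 1) ≤ (n) ∧ (Q) ≤ (i + l + 1) ∧ (k + l + 2) ≤ (n) ∧ (Q) ≤ (i2) ∧ (i2) ≤ (i + l + 1) ∧ (Q) ≤ (i2 + l2 + 1) ∧ (i2 + l2 + 2) ≤ (n) ∧ (n) ≤ (k + l + l2 + 2) ∧ (k + l + l2 + 3) ≤ (n + Q) ∧ (0) ≤ (i3) ∧ (n + i3) ≤ (k + l + l2 + 2) ∧ (k + i2 + l2 + 2) ≤ (n + j + i3) ∧ (j + i3 + 1) ≤ (k) ∧ (k + i2 + l2 + 2) ≤ (n + i3) ∧ (i + 2 * i2 + 1) ≤ (2 * Q + k) ∧ (i + l + 1) ≤ (i2 + l2) ∧ (i2 + l2 + 1) ≤ (k + l) ∧ (i) ≤ (i3) ∧ (i3) ≤ (i))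
    (a1 : Par W (0) (j) (k - j))
    (a2 : Par W (Q + j - k) (j) (k - j))
    (s1 : Ant W (0) (i) (i + j))
    (s2 : Ant W (j + 1) (Q) (i + j))
    (b : Par W (i + 1) (i + l + 1) (k - i))
    (tt : Ant W (Q) (i2) (i + l + i2 + 1))
    (c : Par W (i2 + 1) (i2 + l2 + 1) (k + l - i2 + 1))
    (u1 : Ant W (0) (i3) (k + l + l2 + i3 - n + 2))
    (u2 : Ant W (k + l + l2 - n + 3) (Q) (k + l + l2 + i3 - n + 2))
    (D1 : Par W (i3 + 1) (Q) (i2 + l2 - i3 + 1))
    (D2 : Par W (i2 + l2 + 2) (n) (i3 - i2 - l2 - 1))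
    {L : ℤ} (mx : ∀ a b g, 0 < g → g < n → Par W a b g → b - a ≤ L)
    (hL : L ≤ (n - j - 3) ∧ L ≤ (n + Q - k - 3) ∧ L ≤ (n - l - 3) ∧ L ≤ (n + i - k - 2) ∧ L ≤ (n - l2 - 3) ∧ L ≤ (n + i3 - Q - 2) ∧ L ≤ (i2 + l2 - 1) ∧ L ≤ (n + i2 - k - l - 3))
    (bd0 : Bd W n L (j) (i) (k))
    (bd2 : Bd W n L (k + l + l2 - n + 2) (i3) (i2 + l2 + 1))
    (n1 : Nd W (j) (i) (k))
    (n2 : Nd W (i + l + 1) (i2) (k + l + 1))
    (n3 : Nd W (k + l + l2 - n + 2) (i3) (i2 + l2 + 1))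
    (b0 : (2 * l + 3) ≤ (n))
    (b1 : (2 * i + j + 1) ≤ (k))
    (b2 : (i + 2 * k + 2 * l + 3) ≤ (n + 2 * Q + j))
    (b3 : (2 * Q + 2 * k + l + 1) ≤ (n + 2 * i + j + i2))
    (b4 : (4 * n + 2 * i + i3) ≤ (5 * k + 3 * l + 3 * l2 + 7))
    (b5 : (n + i + 1) ≤ (2 * k + l))
    (b6 : (j + 2 * k + l + 3) ≤ (n + i2))
    (b7 : (2 * Q + k) ≤ (2 * i + l + i2 + 2)) : False := by
  have ev := al.ev
  obtain ⟨y0, y1, y2, y3, y4, y5, y6, y7, y8, y9, y10, y11, y12, y13, y14, y15, y16, y17, y18, y19, y20, y21, y22⟩ := id hy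
  have n1p := And.intro n1.p1 n1.p2
  have n2p := And.intro n2.p1 n2.p2
  have n3p := And.intro n3.p1 n3.p2
  by_cases z36 : (2 * k + l + i3) ≤ (j + 2 * i2 + l2)
  · by_cases z37 : (2 * i + l + 2) ≤ (k + i2)
    · have kk486 : (2 * i + l + 3) ≤ (k + i2) := by clear * - z37 ev n1p n2p n3p; omega
      have kk487 : (2 * Q + k) ≤ (2 * i + l + i2 + 2) := by clear * - b7; omega
      have kk488 : (k) ≤ (i + l + 1) := by clear * - b2 b4 b5 b7 y17 y2 y22; linarith
      have kk489 : (i + i2 + 1) ≤ (Q + k) := by clear * - b7 y18 z37; omega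
      have r490 : (2 * i + l + i2 - 2 * n - k + 1) % 2 = 0 := by clear * - ev n1p n2p n3p; omega
      clear * - al b tt kk486 kk487 kk488 kk489 r490
      obtain ⟨t, ht⟩ : ∃ t, 2 * t = (2 * i + l + i2 - 2 * n - k + 1) := ⟨(2 * i + l + i2 - 2 * n - k + 1) / 2, by omega⟩
      exact al.ninv t (cE (cI (qf b al (-1) t (t + (n + k - i)) (by omega)) (ab tt al 0 (t + (n + k - i)) ((2 * i + l + i2 - n - k + 1) - t) (by omega))) (sh al (-1) ((2 * i + l + i2 - n - k + 1) - t) t (by omega)))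
    · by_cases z38 : (i + 2 * i2 + l2 + 1) ≤ (2 * k + l + i3)
      · by_cases v22 : (i2) ≤ (k)
        · have kk491 : (j + 1) ≤ (k) := by clear * - b0 b5 b6 z37; omega
          have kk492 : (i + 2 * i2 + l2 + 1) ≤ (2 * k + l + i3) := by clear * - z38; omega
          have kk493 : (2 * k + l + i3) ≤ (i + j + 2 * i2 + l2 + 1) := by clear * - y13 y22 z36; omega
          have kk494 : (2 * k + l + i3) ≤ (j + 2 * i2 + l2) := by clear * - z36; omega
          have kk495 : (k + i2 + l2 + 2) ≤ (n + i3) := by clear * - y17; omega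
          have kk496 : (i2 + l2) ≤ (k + l) := by clear * - y20; omega
          have kk497 : (n) ≤ (k + l + l2 + 2) := by clear * - b0 b5 b6 v22 y21 z36 z37; linarith
          have kk498 : (i2) ≤ (k) := by clear * - v22; omega
          have kk499 : (n + i2) ≤ (2 * k + 2 * l + 2) := by clear * - b2 b5 b6 b7 v22 z37; omega
          have r500 : (k - j) % 2 = 0 := by clear * - ev n1p n2p n3p; omega
          have r501 : (2 * k + l + i3 - i - 2 * i2 - l2) % 2 = 0 := by clear * - ev n1p n2p n3p; omega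
          clear * - al a1 b c D2 n1 kk491 kk492 kk493 kk494 kk495 kk496 kk497 kk498 kk499 r500 r501
          exact n1.f0 (rEE (sh al (-1) (j) (j - n) (by omega)) (sh al (-1) (k) (k - n) (by omega)) (rotR (k - j) (2 * k + l + i3 - i - 2 * i2 - l2) (j - n) (k - n) (by omega) (fun t h1 h2 => (cE (qf a1 al (-1) t (t + (n + k - j)) (by omega)) (sh al (-1) (t + (n + k - j)) (t + (k - j)) (by omega)))) (fun t h1 h2 => (cE (cE (qf b al (-1) t (t + (n + k - i)) (by omega)) (pb (show Par W (k + l + i3 - i2 - l2 + 1) (n + i3 - i2 - l2 - 1) (2 * i2 + l2 - k - l - i3) from fun t h1 h2 => (cE (sh al (-1) t (t + (-n)) (by omega)) (cE (pb D2 al (-1) (t + (-n)) (t + (i2 + l2 - i3 + 1)) (by omega)) (pb c al 0 (t + (i2 + l2 - i3 + 1)) (t + (2 * i2 + l2 - k - l - i3)) (by omega))))) al 0 (t + (n + k - i)) (t + (n + 2 * k + l + i3 - i - 2 * i2 - l2)) (by omega))) (sh al (-1) (t + (n + 2 * k + l + i3 - i - 2 * i2 - l2)) (t + (2 * k + l + i3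 - i - 2 * i2 - l2)) (by omega))))))
        · have kk502 : (j + 1) ≤ (k) := by clear * - b0 b5 b6 z37; omega
          have kk503 : (i + 2 * i2 + l2 + 1) ≤ (2 * k + l + i3) := by clear * - z38; omega
          have kk504 : (2 * k + l + i3) ≤ (i + j + 2 * i2 + l2 + 1) := by clear * - b0 b5 v22 z36 z37; omega
          have kk505 : (k + l + i3) ≤ (j + i2 + l2) := by clear * - b1 b2 b3 b4 v22 y22; omega
          have kk506 : (k + i2 + l2 + 2) ≤ (n + i3) := by clear * - y17; omega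
          have kk507 : (i2 + l2) ≤ (k + l) := by clear * - v22 y22 z38; omega
          have kk508 : (n) ≤ (k + l + l2 + 2) := by clear * - b0 b4 b5 b6 v22 z36 z37 z38; linarith
          have kk509 : (k) ≤ (i2) := by clear * - v22; omega
          have kk510 : (n + i2) ≤ (2 * k + 2 * l + 2) := by clear * - b0 b5 b6 z36 z37 z38; omega
          have r511 : (k - j) % 2 = 0 := by clear * - ev n1p n2p n3p; omega
          have r512 : (2 * k + l + i3 - i - 2 * i2 - l2) % 2 = 0 := by clear * - ev n1p n2p n3p; omega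
          clear * - al a1 b c D2 n1 kk502 kk503 kk504 kk505 kk506 kk507 kk508 kk509 kk510 r511 r512
          exact n1.f0 (rEE (sh al (-1) (j) (j - n) (by omega)) (sh al (-1) (k) (k - n) (by omega)) (rotR (k - j) (2 * k + l + i3 - i - 2 * i2 - l2) (j - n) (k - n) (by omega) (fun t h1 h2 => (cE (qf a1 al (-1) t (t + (n + k - j)) (by omega)) (sh al (-1) (t + (n + k - j)) (t + (k - j)) (by omega)))) (fun t h1 h2 => (cE (cE (qf b al (-1) t (t + (n + k - i)) (by omega)) (pb (show Par W (k + l + i3 - i2 - l2 + 1) (n + i3 - i2 - l2 - 1) (2 * i2 + l2 - k - l - i3) from fun t h1 h2 => (cE (sh al (-1) t (t + (-n)) (by omega)) (cE (pb D2 al (-1) (t + (-n)) (t + (i2 + l2 - i3 + 1)) (by omega)) (pb c al 0 (t + (i2 + l2 - i3 + 1)) (t + (2 * i2 + l2 - k - l - i3)) (by omega))))) al 0 (t + (n + k - i)) (t + (n + 2 * k + l + i3 - i - 2 * i2 - l2)) (by omega))) (sh al (-1) (t + (n + 2 * k + l + i3 - i - 2 * i2 - l2)) (t + (2 * k + l + i3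 - i - 2 * i2 - l2)) (by omega))))))
      · have kk513 : (3 * k + l + 2) ≤ (n + 2 * i + i2) := by clear * - b0 y20 y21 z37 z38; omega
        have kk514 : (n + 2 * i + i2) ≤ (3 * k + l + 2 * i3 + 1) := by clear * - b0 b5 y21 z37; omega
        have kk515 : (3 * k + l + 3) ≤ (n + i2 + 2 * i3) := by clear * - b0 y20 y21 z37 z38; omega
        have kk516 : (3 * k + l + 3) ≤ (n + 2 * i + i2) := by clear * - b0 y20 y21 z37 z38; omega
        have kk517 : (k) ≤ (i2) := by clear * - y20 y21 z38; omega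
        have kk518 : (i2 + l2) ≤ (k + l) := by clear * - y20; omega
        have kk519 : (i + i2) ≤ (2 * k) := by clear * - b0 b1 b2 b3 b5 b7 z37; linarith
        have kk520 : (i + i2 + l2) ≤ (2 * k + l) := by clear * - b0 b1 b2 b5 b7 y20 z37; linarith
        have kk521 : (2 * k + i3) ≤ (2 * i + i2 + l2 + 1) := by clear * - b0 b5 b6 z36 z37; omega
        have kk522 : (2 * k) ≤ (i + i2 + l2 + 1) := by clear * - b0 b5 b6 y21 z36 z37; omega
        have r523 : (k + l + l2 + i3 - n + 2) % 2 = 0 := by clear * - ev n1p n2p n3p; omega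
        have r524 : (n + 2 * i + i2 - 3 * k - l - 1) % 2 = 0 := by clear * - ev n1p n2p n3p; omega
        clear * - al b c u1 kk513 kk514 kk515 kk516 kk517 kk518 kk519 kk520 kk521 kk522 r523 r524
        exact midP al (n + 2 * i + i2 - 3 * k - l - 1) (k + l + l2 + i3 - n + 2) (k + l + l2 - n + 3) (3 * k + l - n - i - i2 + 2) (2 * i + i2 + l2 - 2 * k + 1) (by omega) (fun t h1 h2 => (ab u1 al 0 t ((k + l + l2 + i3 - n + 2) - t) (by omega))) (fun t h1 h2 => (cE (qf (show Par W (k + l + 2) (k + l + l2 + 2) (n + i + i2 - 2 * k - l - 1) from fun t h1 h2 => (cE (sh al (-1) t (t + (-n)) (by omega)) (cE (cE (pb c al (-1) (t + (-n)) (t + (i2 - k - l - 1)) (by omega)) (pb b al 0 (t + (i2 - k - l - 1)) (t + (i + i2 - 2 * k - l - 1)) (by omega))) (sh al 1 (t + (i + i2 - 2 * k - l - 1)) (t + (n + i + i2 - 2 * k - l - 1)) (by omega))))) al (-1) t (t + (2 * n + i + i2 - 2 * k - l - 1)) (by omega)) (pb b al 1 (t + (2 * n + i + i2 - 2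 * k - l - 1)) (t + (n + 2 * i + i2 - 3 * k - l - 1)) (by omega))))
  · by_cases z39 : (2 * k) ≤ (i + i2 + l2)
    · by_cases z40 : (n + 2 * i + 2 * j + 3 * i2 + l2 + 1) ≤ (2 * Q + 4 * k + 2 * l + i3)
      · by_cases z41 : (2 * i + l + 3) ≤ (k + i2)
        · have kk525 : (2 * i + l + 3) ≤ (k + i2) := by clear * - z41; omega
          have kk526 : (2 * Q + k) ≤ (2 * i + l + i2 + 2) := by clear * - b7; omega
          have kk527 : (k) ≤ (i + l + 1) := by clear * - b1 b2 b4 b7 y22 z36 z40; linarith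
          have kk528 : (i + i2 + 1) ≤ (Q + k) := by clear * - b1 b2 b4 b7 y22 z36 z41; linarith
          have r529 : (2 * i + l + i2 - 2 * n - k + 1) % 2 = 0 := by clear * - ev n1p n2p n3p; omega
          clear * - al b tt kk525 kk526 kk527 kk528 r529
          obtain ⟨t, ht⟩ : ∃ t, 2 * t = (2 * i + l + i2 - 2 * n - k + 1) := ⟨(2 * i + l + i2 - 2 * n - k + 1) / 2, by omega⟩
          exact al.ninv t (cE (cI (qf b al (-1) t (t + (n + k - i)) (by omega)) (ab tt al 0 (t + (n + k - i)) ((2 * i + l + i2 - n - k + 1) - t) (by omega))) (sh al (-1) ((2 * i + l + i2 - n - k + 1) - t) t (by omega)))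
        · by_cases z42 : (n + i2) ≤ (j + 2 * k + l + 3)
          · have kk530 : (i + 1) ≤ (k) := by clear * - b0 b1 b2 b5 b7 z41; omega
            have kk531 : (2 * k) ≤ (i + i2 + l2) := by clear * - z39; omega
            have kk532 : (j + 1) ≤ (k) := by clear * - b0 b5 b6 z41; omega
            have kk533 : (0) ≤ (j) := by clear * - b0 b1 b2 b5 b7 z41 z42; linarith
            have kk534 : (n + i + i2) ≤ (3 * k + l + 1) := by clear * - b0 b1 b5 z41 z42; omega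
            have kk535 : (2 * k + l + 2) ≤ (n + i + i2) := by clear * - b0 b2 b5 b6 b7 z41; omega
            have kk536 : (n + i2) ≤ (j + 2 * k + l + 3) := by clear * - z42; omega
            have kk537 : (i2) ≤ (k) := by clear * - b0 b1 z41 z42; omega
            have kk538 : (i2 + l2) ≤ (k + l) := by clear * - y20; omega
            have kk539 : (2 * k + l + 1) ≤ (n + i + i2) := by clear * - b0 b2 b5 b6 b7 z41; omega
            have kk540 : (2 * k + l + 2) ≤ (n + i2) := by clear * - b0 b1 b2 b5 b6 b7 z41; linarith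
            have kk541 : (2 * k) ≤ (i + i2 + l2 + 1) := by clear * - z39; omega
            have kk542 : (0) ≤ (j + 1) := by clear * - b0 b1 b2 b5 b7 z41 z42; linarith
            have kk543 : (i) ≤ (k) := by clear * - b0 b1 b2 b5 b7 z41; omega
            have kk544 : (i + j + 1) ≤ (k) := by clear * - b0 b1 b5 b6 z41; omega
            have r545 : (2 * k + l - n - i - i2 + 1) % 2 = 0 := by clear * - ev n1p n2p n3p; omega
            have r546 : (k - j) % 2 = 0 := by clear * - ev n1p n2p n3p; omega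
            have r547 : (i + j - 2 * n) % 2 = 0 := by clear * - ev n1p n2p n3p; omega
            clear * - al a1 s1 b c n1 kk530 kk531 kk532 kk533 kk534 kk535 kk536 kk537 kk538 kk539 kk540 kk541 kk542 kk543 kk544 r545 r546 r547
            exact ivt al.ninv (-n) (j - n) (k - j) (i + i2 - 2 * k - l - 1) (k - n) (2 * k + l - n - i - i2 + 1) (j - n) (3 * k + l - 2 * n - i - i2 + 1) 1 (fun t h1 h2 => (cE (qf a1 al (-1) t (t + (n + k - j)) (by omega)) (sh al (-1) (t + (n + k - j)) (t + (k - j)) (by omega)))) (fun t h1 h2 => (cE (sh al 3 t (t + (3 * n)) (by omega)) (cE (pb (show Par W (2 * k + l - i2 + 2) (k + l + l2 + 2) (n + i + i2 - 2 * k - l - 1) from fun t h1 h2 => (cE (sh al (-1) t (t + (-n)) (by omega)) (cE (cE (pb c al (-1) (t + (-n)) (t + (i2 - k - l - 1)) (by omega)) (pb b al 0 (t + (i2 - k - l - 1)) (t + (i + i2 - 2 * k - l - 1)) (by omega))) (sh al 1 (t + (i + i2 - 2 * k - l - 1)) (t + (n + i + i2 - 2 * k - l -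 1)) (by omega))))) al 1 (t + (3 * n)) (t + (n + 2 * k + l - i - i2 + 1)) (by omega)) (sh al (-2) (t + (n + 2 * k + l - i - i2 + 1)) (t + (2 * k + l - n - i - i2 + 1)) (by omega))))) (fun hh => n1.f0 (rEE (sh al (-1) (j) (j - n) (by omega)) (cE (pb (show Par W (2 * k + l - i2 + 2) (k + l + l2 + 2) (n + i + i2 - 2 * k - l - 1) from fun t h1 h2 => (cE (sh al (-1) t (t + (-n)) (by omega)) (cE (cE (pb c al (-1) (t + (-n)) (t + (i2 - k - l - 1)) (by omega)) (pb b al 0 (t + (i2 - k - l - 1)) (t + (i + i2 - 2 * k - l - 1)) (by omega))) (sh al 1 (t + (i + i2 - 2 * k - l - 1)) (t + (n + i + i2 - 2 * k - l - 1)) (by omega))))) al (-1) (k) (3 * k + l - i - i2 + 1) (by omega)) (sh al (-2) (3 * k + l - i - i2 + 1) (3 * k + l - 2 * n - i - i2 + 1) (by omega))) (Eq.symm hh))) (by omega) (j - n + 1) (i + j - n + 1) (i + j - 2 * n) 0 (-1) (fun t h1 h2 => (cI (sh al 1 t (t + (n)) (by omega)) (cE (ab s1 al 0 (t + (n)) ((i + j - n) - t) (by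 omega)) (sh al (-1) ((i + j - n) - t) ((i + j - 2 * n) - t) (by omega))))) (by omega)
          · by_cases z43 : (2 * k + l + i3) ≤ (i + j + 2 * i2 + l2 + 1)
            · have kk548 : (i + 1) ≤ (k) := by clear * - b1 b2 b3 b5 z40 z41 z43; linarith
              have kk549 : (2 * k) ≤ (i + i2 + l2) := by clear * - z39; omega
              have kk550 : (j + 1) ≤ (k) := by clear * - b1 z36 z43; omega
              have kk551 : (0) ≤ (j) := by clear * - b1 b2 b3 b5 z40 z41 z43; linarith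
              have kk552 : (0) ≤ (i) := by clear * - z36 z43; omega
              have kk553 : (n + i + i2) ≤ (3 * k + l + 1) := by clear * - b1 b2 b3 b4 b5 y22 z40; linarith
              have kk554 : (2 * k + l + 2) ≤ (n + i + i2) := by clear * - b1 b2 b7 z36 z43; omega
              have kk555 : (3 * k) ≤ (2 * i + j + i2 + l2 + 2) := by clear * - y21 z41 z43 ev n1p n2p n3p; omega
              have kk556 : (i2) ≤ (k) := by clear * - b1 b2 b3 b4 y22 z40; omega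
              have kk557 : (i2 + l2) ≤ (k + l) := by clear * - y20; omega
              have kk558 : (i) ≤ (k) := by clear * - b1 b2 b3 b5 z40 z41 z43; linarith
              have kk559 : (i + i2 + l2) ≤ (2 * k + l) := by clear * - b1 b2 b3 b5 y22 z40 z41 z42 z43; linarith
              have kk560 : (n + i + i2) ≤ (3 * k + l + 2) := by clear * - b1 b2 b3 b4 b5 y22 z40; linarith
              have kk561 : (0) ≤ (i + 1) := by clear * - z36 z43; omega
              have kk562 : (l + l2 + 2) ≤ (n) := by clear * - b2 b3 b5 y22 z40 z42; omega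
              have kk563 : (2 * i + i2 + l2 + 1) ≤ (3 * k) := by clear * - b1 b2 b3 b5 y22 z40; omega
              have kk564 : (i + j + 1) ≤ (k) := by clear * - b1 z36 z43; omega
              have kk565 : (0) ≤ (j + 1) := by clear * - b1 b2 b3 b5 z40 z41 z43; linarith
              have r566 : (3 * k + l - n - 2 * i - i2 + 1) % 2 = 0 := by clear * - ev n1p n2p n3p; omega
              have r567 : (k - j) % 2 = 0 := by clear * - ev n1p n2p n3p; omega
              have r568 : (i + j - 2 * n) % 2 = 0 := by clear * - ev n1p n2p n3p; omega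
              clear * - al a1 s1 b c n1 kk548 kk549 kk550 kk551 kk552 kk553 kk554 kk555 kk556 kk557 kk558 kk559 kk560 kk561 kk562 kk563 kk564 kk565 r566 r567 r568
              exact ivt al.ninv (-n) (j - n) (k - j) (i - n + 1) (2 * i + i2 + l2 - n - 2 * k + 1) (3 * k + l - n - 2 * i - i2 + 1) (i - n) (3 * k + l - 2 * n - i - i2 + 1) 0 (fun t h1 h2 => (cE (qf a1 al (-1) t (t + (n + k - j)) (by omega)) (sh al (-1) (t + (n + k - j)) (t + (k - j)) (by omega)))) (fun t h1 h2 => (cE (sh al 2 t (t + (2 * n)) (by omega)) (cE (cE (qf b al 1 (t + (2 * n)) (t + (n + k - i)) (by omega)) (pb (show Par W (2 * k + l - i2 + 2) (k + l + l2 + 2) (n + i + i2 - 2 * k - l - 1) from fun t h1 h2 => (cE (sh al (-1) t (t + (-n)) (by omega)) (cE (cE (pb c al (-1) (t + (-n)) (t + (i2 - k - l - 1)) (by omega)) (pb b al 0 (t + (i2 - k - l - 1)) (t + (i + i2 - 2 * k - l - 1)) (by omega))) (sh al 1 (t + (i + i2 - 2 * k - l - 1)) (t + (n + i + i2 -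 2 * k - l - 1)) (by omega))))) al (-1) (t + (n + k - i)) (t + (n + 3 * k + l - 2 * i - i2 + 1)) (by omega))) (sh al (-2) (t + (n + 3 * k + l - 2 * i - i2 + 1)) (t + (3 * k + l - n - 2 * i - i2 + 1)) (by omega))))) (fun hh => n1.f1 (rEE (sh al (-1) (i) (i - n) (by omega)) (cE (pb (show Par W (2 * k + l - i2 + 2) (k + l + l2 + 2) (n + i + i2 - 2 * k - l - 1) from fun t h1 h2 => (cE (sh al (-1) t (t + (-n)) (by omega)) (cE (cE (pb c al (-1) (t + (-n)) (t + (i2 - k - l - 1)) (by omega)) (pb b al 0 (t + (i2 - k - l - 1)) (t + (i + i2 - 2 * k - l - 1)) (by omega))) (sh al 1 (t + (i + i2 - 2 * k - l - 1)) (t + (n + i + i2 - 2 * k - l - 1)) (by omega))))) al (-1) (k) (3 * k + l - i - i2 + 1) (by omega)) (sh al (-2) (3 * k + l - i - i2 + 1) (3 * k + l - 2 * n - i - i2 + 1) (by omega))) (Eq.symm hh))) (by omega) (-n) (i - n) (i + j - 2 * n) 0 (-1) (fun t h1 h2 => (cI (sh al 1 t (t + (n)) (by omega)) (cE (qa s1 al 0 (t + (n)) ((i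 + j - n) - t) (by omega)) (sh al (-1) ((i + j - n) - t) ((i + j - 2 * n) - t) (by omega))))) (by omega)
            · by_cases z44 : (n + 2 * i + i2) ≤ (3 * k + l + 1)
              · by_cases z45 : (n + j) ≤ (k + l + l2 + 2)
                · have kk569 : (0) ≤ (i) := by clear * - y13 y22; omega
                  have kk570 : (i + 1) ≤ (j) := by clear * - b2 b3 b5 z41 z42 z44; omega
                  have kk571 : (3 * k + l + 2) ≤ (n + i + j + i2) := by clear * - b2 b3 b5 z41 z42; omega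
                  have kk572 : (n + 2 * i + i2) ≤ (3 * k + l + 1) := by clear * - z44; omega
                  have kk573 : (i2) ≤ (k) := by clear * - b0 z41 z44; omega
                  have kk574 : (i2 + l2) ≤ (k + l) := by clear * - b2 b5 b7 y22 z43; omega
                  have kk575 : (0) ≤ (i + 1) := by clear * - y13 y22; omega
                  have kk576 : (j) ≤ (i + l + 1) := by clear * - b0 b2 b5 b7 z41 z42 z44; linarith
                  have kk577 : (2 * k + l + 2) ≤ (n + i2) := by clear * - b0 b2 b5 b7 z41 z42 z44; linarith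
                  have kk578 : (n + j) ≤ (k + l + l2 + 2) := by clear * - z45; omega
                  have r579 : (j - i) % 2 = 0 := by clear * - ev n1p n2p n3p; omega
                  have r580 : (n + i + j + i2 - 3 * k - l - 1) % 2 = 0 := by clear * - ev n1p n2p n3p; omega
                  clear * - al a1 b c n1 kk569 kk570 kk571 kk572 kk573 kk574 kk575 kk576 kk577 kk578 r579 r580
                  exact n1.f1 (rEE (cE (qf a1 al 0 (i) (i + k - j) (by omega)) (sh al (-1) (i + k - j) (i + k - n - j) (by omega))) (sh al (-1) (k) (k - n) (by omega)) (rotL (j - i) (n + i + j + i2 - 3 * k - l - 1) (i + k - n - j) (k - n) (by omega) (fun t h1 h2 => (cE (cE (pb a1 al (-1) t (t + (n + j - k)) (by omega)) (qf b al 0 (t + (n + j - k)) (t + (n + j - i)) (by omega))) (sh al (-1) (t + (n + j - i)) (t + (j - i)) (by omega)))) (fun t h1 h2 => (cE (cE (pb a1 al (-1) t (t + (n + j - k)) (by omega)) (qf (show Par W (2 * k + l - i2 +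 2) (k + l + l2 + 2) (n + i + i2 - 2 * k - l - 1) from fun t h1 h2 => (cE (sh al (-1) t (t + (-n)) (by omega)) (cE (cE (pb c al (-1) (t + (-n)) (t + (i2 - k - l - 1)) (by omega)) (pb b al 0 (t + (i2 - k - l - 1)) (t + (i + i2 - 2 * k - l - 1)) (by omega))) (sh al 1 (t + (i + i2 - 2 * k - l - 1)) (t + (n + i + i2 - 2 * k - l - 1)) (by omega))))) al (-1) (t + (n + j - k)) (t + (3 * n + i + j + i2 - 3 * k - l - 1)) (by omega))) (sh al (-2) (t + (3 * n + i + j + i2 - 3 * k - l - 1)) (t + (n + i + j + i2 - 3 * k - l - 1)) (by omega))))))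
                · have kk581 : (i + 1) ≤ (j) := by clear * - z39 z44 z45; omega
                  have kk582 : (j) ≤ (i + l) := by clear * - b0 b5 z39 z41 z42 z44 z45; linarith
                  have kk583 : (k + l + i3 + 1) ≤ (2 * i2 + l2) := by clear * - b4 y13 y22 z42 z45; omega
                  have kk584 : (i + 2 * i2 + l2) ≤ (j + k + l + i3) := by clear * - y21 z41 z44 z45; omega
                  have kk585 : (i2) ≤ (k) := by clear * - b0 z41 z44; omega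
                  have kk586 : (j + 2 * k + l + 2) ≤ (n + i + i2) := by clear * - y13 y22 z42; omega
                  have kk587 : (i2 + l2) ≤ (k + l) := by clear * - b0 b5 z41 z42 z44 z45; omega
                  have kk588 : (n) ≤ (k + l + l2 + 2) := by clear * - b0 b5 z39 z41 z44; omega
                  have kk589 : (0) ≤ (i + 1) := by clear * - y13 y22; omega
                  have kk590 : (j) ≤ (i + l + 1) := by clear * - b0 b5 z39 z41 z42 z44 z45; linarith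
                  have r591 : (j - i) % 2 = 0 := by clear * - ev n1p n2p n3p; omega
                  have r592 : (2 * i2 + l2 - k - l - i3) % 2 = 0 := by clear * - ev n1p n2p n3p; omega
                  clear * - al a1 b c D2 n1 kk581 kk582 kk583 kk584 kk585 kk586 kk587 kk588 kk589 kk590 r591 r592
                  exact n1.f0 (rEE (cE (qf b al 0 (j) (j + k - i) (by omega)) (sh al (-1) (j + k - i) (j + k - n - i) (by omega))) (sh al (-1) (k) (k - n) (by omega)) (Eq.symm (rotR (j - i) (2 * i2 + l2 - k - l - i3) (k - n) (j + k - n - i) (by omega) (fun t h1 h2 => (cE (cE (pb a1 al (-1) t (t + (n + j - k)) (by omega)) (qf b al 0 (t + (n + j - k)) (t + (n + j - i)) (by omega))) (sh al (-1) (t + (n + j - i)) (t + (j - i)) (by omega)))) (fun t h1 h2 => (cE (qf (show Par W (k + l + i3 - i2 - l2 + 1) (n + i3 - i2 - l2 - 1) (2 * i2 + l2 - k - l - i3) from fun t h1 h2 => (cE (sh al (-1) t (t + (-n)) (by omega)) (cE (pb D2 al (-1)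 (t + (-n)) (t + (i2 + l2 - i3 + 1)) (by omega)) (pb c al 0 (t + (i2 + l2 - i3 + 1)) (t + (2 * i2 + l2 - k - l - i3)) (by omega))))) al (-1) t (t + (n + 2 * i2 + l2 - k - l - i3)) (by omega)) (sh al (-1) (t + (n + 2 * i2 + l2 - k - l - i3)) (t + (2 * i2 + l2 - k - l - i3)) (by omega)))))))
              · have kk593 : (j + 1) ≤ (k) := by clear * - b0 b5 z41 z42; omega
                have kk594 : (k + l + l2 + 2) ≤ (n + i + j + i3) := by clear * - b2 b3 b5 z40 z44; omega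
                have kk595 : (n) ≤ (i + j + k + l + l2 + i3 + 4) := by clear * - b0 b2 b4 b5 b7 z41 z43 z44; linarith
                have kk596 : (l + l2 + i3 + 2) ≤ (n + i + j + k) := by clear * - b2 b3 b4 b5 y22 z41 z42 z43 z44; linarith
                have kk597 : (n) ≤ (i + l + l2 + i3 + 2) := by clear * - b2 b3 b4 b5 z43 z44; omega
                have kk598 : (l + l2 + i3 + 4) ≤ (n + i) := by clear * - b2 b3 b5 y22 z40 z42; omega
                have kk599 : (0) ≤ (j + 1) := by clear * - b0 b1 b2 b3 b5 z41 z44; linarith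
                have kk600 : (i) ≤ (k) := by clear * - b0 b1 b2 b5 b7 z41; omega
                have kk601 : (i + j + 1) ≤ (k) := by clear * - b0 b1 b5 z41 z44; omega
                have r602 : (i + j - 2 * n) % 2 = 0 := by clear * - ev n1p n2p n3p; omega
                have r603 : (k - j) % 2 = 0 := by clear * - ev n1p n2p n3p; omega
                have r604 : (k + l + l2 + i3 - 3 * n + 2) % 2 = 0 := by clear * - ev n1p n2p n3p; omega
                clear * - al a1 s1 u1 kk593 kk594 kk595 kk596 kk597 kk598 kk599 kk600 kk601 r602 r603 r604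
                exact mid2 al (k - j) (i + j - 2 * n) (k + l + l2 + i3 - 3 * n + 2) (j - n + 1) (i + j - n + 1) 0 (-n) (k - n) (by omega) (fun t h1 h2 => ⟨by omega, (cE (ab s1 al (-1) t ((i + j - n) - t) (by omega)) (sh al (-1) ((i + j - n) - t) ((i + j - 2 * n) - t) (by omega)))⟩) (fun t h1 h2 => ⟨by omega, (cE (ab u1 al (-1) t ((k + l + l2 + i3 - 2 * n + 2) - t) (by omega)) (sh al (-1) ((k + l + l2 + i3 - 2 * n + 2) - t) ((k + l + l2 + i3 - 3 * n + 2) - t) (by omega)))⟩) (fun t h1 h2 => (cE (qf a1 al (-1) t (t + (n + k - j)) (by omega)) (sh al (-1) (t + (n + k - j)) (t + (k - j)) (by omega))))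
      · by_cases z46 : (2 * i + l + 2) ≤ (k + i2)
        · have kk605 : (2 * i + l + 3) ≤ (k + i2) := by clear * - z46 ev n1p n2p n3p; omega
          have kk606 : (2 * Q + k) ≤ (2 * i + l + i2 + 2) := by clear * - b7; omega
          have kk607 : (i2) ≤ (i + l + 1) := by clear * - b1 b2 b4 b7 y22 z36; omega
          have kk608 : (i + 1) ≤ (Q) := by clear * - b1 b2 b5 b7 y22 z36 z39; linarith
          have r609 : (2 * n + k + l + i2 + 1) % 2 = 0 := by clear * - ev n1p n2p n3p; omega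
          clear * - al b tt kk605 kk606 kk607 kk608 r609
          obtain ⟨t, ht⟩ : ∃ t, 2 * t = (2 * n + k + l + i2 + 1) := ⟨(2 * n + k + l + i2 + 1) / 2, by omega⟩
          exact al.ninv t (cE (cE (ab tt al 1 t ((n + i + l + i2 + 1) - t) (by omega)) (qf b al 0 ((n + i + l + i2 + 1) - t) ((n + k + l + i2 + 1) - t) (by omega))) (sh al 1 ((n + k + l + i2 + 1) - t) t (by omega)))
        · have kk610 : (3 * k + l + 2) ≤ (n + i + j + i2) := by clear * - b2 b5 b6 z36 z40 z46; omega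
          have kk611 : (i + j + i2) ≤ (3 * k + l) := by clear * - b0 b1 b2 b5 b6 z36 z40 z46; linarith
          have kk612 : (n + i + i2) ≤ (3 * k + l + 1) := by clear * - b1 b2 b4 b5 y22 z36 z40; linarith
          have kk613 : (i2) ≤ (k) := by clear * - b1 b2 b4 y22 z36 z40; omega
          have kk614 : (i2 + l2) ≤ (k + l) := by clear * - y20; omega
          have kk615 : (i + j + 1) ≤ (k) := by clear * - b0 b1 b5 b6 z46; omega
          have kk616 : (2 * k) ≤ (i + i2 + l2 + 1) := by clear * - z39; omega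
          clear * - al a1 b c kk610 kk611 kk612 kk613 kk614 kk615 kk616
          exact al.ubP (n + i + j + i2 - 3 * k - l - 1) (by omega) (by omega) fun t h1 h2 => (cE (qf (show Par W (2 * k + l - i2 + 2) (k + l + l2 + 2) (n + i + i2 - 2 * k - l - 1) from fun t h1 h2 => (cE (sh al (-1) t (t + (-n)) (by omega)) (cE (cE (pb c al (-1) (t + (-n)) (t + (i2 - k - l - 1)) (by omega)) (pb b al 0 (t + (i2 - k - l - 1)) (t + (i + i2 - 2 * k - l - 1)) (by omega))) (sh al 1 (t + (i + i2 - 2 * k - l - 1)) (t + (n + i + i2 - 2 * k - l - 1)) (by omega))))) al (-1) t (t + (2 * n + i + i2 - 2 * k - l - 1)) (by omega)) (pb a1 al 1 (t + (2 * n + i + i2 - 2 * k - l - 1)) (t + (n + i + j + i2 - 3 * k - l - 1)) (by omega)))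
    · have kk617 : (2 * i + l + 3) ≤ (k + i2) := by clear * - b2 b4 b6 b7 y13 y22 z39; linarith
      have kk618 : (2 * Q + k) ≤ (2 * i + l + i2 + 2) := by clear * - b7; omega
      have kk619 : (k) ≤ (i + l + 1) := by clear * - b2 b4 b7 y17 y2 y22 z39; linarith
      have kk620 : (i + i2 + 1) ≤ (Q + k) := by clear * - b2 b3 b4 b5 b6 b7 y22 z36 z39; linarith
      have r621 : (2 * i + l + i2 - 2 * n - k + 1) % 2 = 0 := by clear * - ev n1p n2p n3p; omega
      clear * - al b tt kk617 kk618 kk619 kk620 r621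
      obtain ⟨t, ht⟩ : ∃ t, 2 * t = (2 * i + l + i2 - 2 * n - k + 1) := ⟨(2 * i + l + i2 - 2 * n - k + 1) / 2, by omega⟩
      exact al.ninv t (cE (cI (qf b al (-1) t (t + (n + k - i)) (by omega)) (ab tt al 0 (t + (n + k - i)) ((2 * i + l + i2 - n - k + 1) - t) (by omega))) (sh al (-1) ((2 * i + l + i2 - n - k + 1) - t) t (by omega)))

theorem t4_18 {W : ℤ → G} {n Q i j k l i2 l2 i3 : ℤ} (al : AL W n Q)
    (hy : (0) ≤ (i) ∧ (i) ≤ (j) ∧ (j + 1) ≤ (Q) ∧ (Q) ≤ (k) ∧ (k + 1) ≤ (n) ∧ (Q) ≤ (i + l + 1) ∧ (k + l + 2) ≤ (n) ∧ (Q) ≤ (i2) ∧ (i2) ≤ (i + l + 1) ∧ (Q) ≤ (i2 + l2 + 1) ∧ (i2 + l2 + 2) ≤ (n) ∧ (n) ≤ (k + l + l2 + 2) ∧ (k + l + l2 + 3) ≤ (n + Q) ∧ (0) ≤ (i3) ∧ (n + i3) ≤ (k + l + l2 + 2) ∧ (k + i2 + l2 + 2) ≤ (n + j + i3) ∧ (j + i3 + 1) ≤ (k) ∧ (k + i2 + l2 + 2) ≤ (n + i3) ∧ (i + 2 * i2 + 1) ≤ (2 * Q + k) ∧ (i + l + 1) ≤ (i2 + l2) ∧ (i2 + l2 + 1) ≤ (k + l) ∧ (i) ≤ (i3) ∧ (i3) ≤ (i))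
    (a1 : Par W (0) (j) (k - j))
    (a2 : Par W (Q + j - k) (j) (k - j))
    (s1 : Ant W (0) (i) (i + j))
    (s2 : Ant W (j + 1) (Q) (i + j))
    (b : Par W (i + 1) (i + l + 1) (k - i))
    (tt : Ant W (Q) (i2) (i + l + i2 + 1))
    (c : Par W (i2 + 1) (i2 + l2 + 1) (k + l - i2 + 1))
    (u1 : Ant W (0) (i3) (k + l + l2 + i3 - n + 2))
    (u2 : Ant W (k + l + l2 - n + 3) (Q) (k + l + l2 + i3 - n + 2))
    (D1 : Par W (i3 + 1) (Q) (i2 + l2 - i3 + 1))
    (D2 : Par W (i2 + l2 + 2) (n) (i3 - i2 - l2 - 1))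
    {L : ℤ} (mx : ∀ a b g, 0 < g → g < n → Par W a b g → b - a ≤ L)
    (hL : L ≤ (n - j - 3) ∧ L ≤ (n + Q - k - 3) ∧ L ≤ (n - l - 3) ∧ L ≤ (n + i - k - 2) ∧ L ≤ (n - l2 - 3) ∧ L ≤ (n + i3 - Q - 2) ∧ L ≤ (i2 + l2 - 1) ∧ L ≤ (n + i2 - k - l - 3))
    (bd0 : Bd W n L (j) (i) (k))
    (bd2 : Bd W n L (k + l + l2 - n + 2) (i3) (i2 + l2 + 1))
    (n1 : Nd W (j) (i) (k))
    (n2 : Nd W (i + l + 1) (i2) (k + l + 1))
    (n3 : Nd W (k + l + l2 - n + 2) (i3) (i2 + l2 + 1))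
    (b0 : (2 * l + 3) ≤ (n))
    (b1 : (2 * i + j + 1) ≤ (k))
    (b2 : (i + 2 * k + 2 * l + 3) ≤ (n + 2 * Q + j))
    (b3 : (2 * Q + 2 * k + l + 1) ≤ (n + 2 * i + j + i2))
    (b4 : (4 * n + 2 * i + i3) ≤ (5 * k + 3 * l + 3 * l2 + 7))
    (b5 : (n + i + 1) ≤ (2 * k + l))
    (b6 : (j + 2 * k + l + 3) ≤ (n + i2)) : False := by
  have ev := al.ev
  obtain ⟨y0, y1, y2, y3, y4, y5, y6, y7, y8, y9, y10, y11, y12, y13, y14, y15, y16, y17, y18, y19, y20, y21, y22⟩ := id hy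
  have n1p := And.intro n1.p1 n1.p2
  have n2p := And.intro n2.p1 n2.p2
  have n3p := And.intro n3.p1 n3.p2
  by_cases z35 : (2 * Q + k) ≤ (2 * i + l + i2 + 2)
  · exact t4_19 al hy a1 a2 s1 s2 b tt c u1 u2 D1 D2 mx hL bd0 bd2 n1 n2 n3 (by clear * - b0; omega) (by clear * - b1; omega) (by clear * - b2; omega) (by clear * - b3; omega) (by clear * - b4; omega) (by clear * - b5; omega) (by clear * - b6; omega) (by clear * - z35; omega)
  · by_cases z47 : (i + i2 + l2 + i3 + 2) ≤ (2 * Q + k)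
    · have kk622 : (i + i2 + l2 + i3 + 3) ≤ (2 * Q + k) := by clear * - z47 ev n1p n2p n3p; omega
      have kk623 : (3 * k + 2 * l + l2 + 4) ≤ (2 * n + i + i2 + i3) := by clear * - b3 b6 y13 z47; omega
      have kk624 : (Q) ≤ (l2 + i3 + 1) := by clear * - b3 b4 b5 b6 y13 y17 y22 z35; linarith
      have kk625 : (Q) ≤ (i + l + 1) := by clear * - b3 b4 b5 b6 y13 y17 y22 z47; linarith
      have kk626 : (i3) ≤ (i) := by clear * - y22; omega
      have kk627 : (n + i) ≤ (k + l + l2 + 2) := by clear * - b4 b6 y15; omega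
      have r628 : (2 * n + k + i2 + l2 + i3 - i + 1) % 2 = 0 := by clear * - ev n1p n2p n3p; omega
      clear * - al b c u2 kk622 kk623 kk624 kk625 kk626 kk627 r628
      obtain ⟨t, ht⟩ : ∃ t, 2 * t = (2 * n + k + i2 + l2 + i3 - i + 1) := ⟨(2 * n + k + i2 + l2 + i3 - i + 1) / 2, by omega⟩
      exact al.ninv t (cE (cE (cI (qf c al 1 t (t + (k + l - n - i2 + 1)) (by omega)) (ab u2 al 1 (t + (k + l - n - i2 + 1)) ((n + i2 + l2 + i3 + 1) - t) (by omega))) (qf b al 0 ((n + i2 + l2 + i3 + 1) - t) ((n + k + i2 + l2 + i3 - i + 1) - t) (by omega))) (sh al 1 ((n + k + i2 + l2 + i3 - i + 1) - t) t (by omega)))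
    · have kk629 : (i2 + l2 + 1) ≤ (k + l) := by clear * - y20; omega
      have kk630 : (k + l + i3 + 1) ≤ (Q + i2 + l2) := by clear * - b2 b4 b5 b6 y13 y22 z47; linarith
      have kk631 : (i + 1) ≤ (k) := by clear * - b2 b5 b6 y20 y22 z35 z47; linarith
      have kk632 : (0) ≤ (l) := by clear * - b2 b4 b5 b6 y13 y20 y22 z47; linarith
      have kk633 : (i + i2 + l2 + 1) ≤ (k + l + i3) := by clear * - y20 y21; omega
      have kk634 : (i3) ≤ (i2 + l2) := by clear * - b2 b5 b6 y18 y20 y22 z47; linarith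
      have kk635 : (i + 1) ≤ (i2) := by clear * - b2 b5 b6 y20 y22 z47; omega
      have kk636 : (i2) ≤ (k + l) := by clear * - b2 b5 b6 y18 y20 y22 z47; linarith
      have kk637 : (Q + 2 * k + l) ≤ (n + i + i2) := by clear * - b3 b6; omega
      have kk638 : (i2 + l2) ≤ (k + l) := by clear * - y20; omega
      have kk639 : (n) ≤ (k + l + l2 + 2) := by clear * - b2 b4 b6 y13 y20 y22 z47; linarith
      have kk640 : (i + i2 + l2) ≤ (k + l + i3) := by clear * - y20 y21; omega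
      have kk641 : (i) ≤ (i2) := by clear * - b2 b5 b6 y20 y22 z47; omega
      have kk642 : (n + i3) ≤ (k + l + i2 + l2 + 2) := by clear * - b2 b4 b5 b6 y13 y20 y22 z47; linarith
      have kk643 : (n + i2) ≤ (2 * k + 2 * l + 2) := by clear * - b2 b4 b6 y13 y20 y22 z47; linarith
      have kk644 : (i + 1) ≤ (Q) := by clear * - b2 b4 b5 b6 y13 y20 y22 z47; linarith
      have kk645 : (i + i2 + 1) ≤ (Q + k) := by clear * - b3 b5 b6 y18; omega
      have kk646 : (0) ≤ (l + 1) := by clear * - b2 b4 b5 b6 y13 y20 y22 z47; linarith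
      have kk647 : (i2) ≤ (k + l + 1) := by clear * - b2 b5 b6 y18 y20 y22 z47; linarith
      have r648 : (2 * i2 + l2 - k - l - i3) % 2 = 0 := by clear * - ev n1p n2p n3p; omega
      have r649 : (k - i) % 2 = 0 := by clear * - ev n1p n2p n3p; omega
      have r650 : (i + l + i2 - 2 * n + 1) % 2 = 0 := by clear * - ev n1p n2p n3p; omega
      clear * - al b tt c D1 D2 n2 kk629 kk630 kk631 kk632 kk633 kk634 kk635 kk636 kk637 kk638 kk639 kk640 kk641 kk642 kk643 kk644 kk645 kk646 kk647 r648 r649 r650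
      exact ivt al.ninv (i - n + 1) (i + l - n + 1) (k - i) (k + l + i3 - n - i2 - l2 + 1) (i3 - i2 - l2 - 1) (2 * i2 + l2 - k - l - i3) (k + l + i3 - n - i2 - l2) (i2 - n) 0 (fun t h1 h2 => (cE (qf b al (-1) t (t + (n + k - i)) (by omega)) (sh al (-1) (t + (n + k - i)) (t + (k - i)) (by omega)))) (fun t h1 h2 => (cE (sh al 1 t (t + (n)) (by omega)) (cE (qf (show Par W (k + l + i3 - i2 - l2 + 1) (n + i3 - i2 - l2 - 1) (2 * i2 + l2 - k - l - i3) from fun t h1 h2 => (cE (sh al (-1) t (t + (-n)) (by omega)) (cE (pb D2 al (-1) (t + (-n)) (t + (i2 + l2 - i3 + 1)) (by omega)) (pb c al 0 (t + (i2 + l2 - i3 + 1)) (t + (2 * i2 + l2 - k - l - i3)) (by omega))))) al 0 (t + (n)) (t + (n + 2 * i2 + l2 - k - l - i3)) (by omega)) (sh al (-1) (t + (n + 2 * i2 + l2 - k - l - i3)) (t + (2 * i2 + l2 - k - l - i3)) (by omega))))) (fun hh => n2.f1 (rEE (sh al (-1) (i2) (i2 - n) (by omega)) (cE (pb D1 al 0 (k + l + 1) (k + l + i3 - i2 - l2)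 (by omega)) (sh al (-1) (k + l + i3 - i2 - l2) (k + l + i3 - n - i2 - l2) (by omega))) (Eq.symm (Eq.symm hh)))) (by omega) (Q - n) (i2 - n) (i + l + i2 - 2 * n + 1) 1 (-1) (fun t h1 h2 => (cE (qa tt al (-1) t ((i + l + i2 - n + 1) - t) (by omega)) (sh al (-1) ((i + l + i2 - n + 1) - t) ((i + l + i2 - 2 * n + 1) - t) (by omega)))) (by omega)

theorem t4_17 {W : ℤ → G} {n Q i j k l i2 l2 i3 : ℤ} (al : AL W n Q)
    (hy : (0) ≤ (i) ∧ (i) ≤ (j) ∧ (j + 1) ≤ (Q) ∧ (Q) ≤ (k) ∧ (k + 1) ≤ (n) ∧ (Q) ≤ (i + l + 1) ∧ (k + l + 2) ≤ (n) ∧ (Q) ≤ (i2) ∧ (i2) ≤ (i + l + 1) ∧ (Q) ≤ (i2 + l2 + 1) ∧ (i2 + l2 + 2) ≤ (n) ∧ (n) ≤ (k + l + l2 + 2) ∧ (k + l + l2 + 3) ≤ (n + Q) ∧ (0) ≤ (i3) ∧ (n + i3) ≤ (k + l + l2 + 2) ∧ (k + i2 + l2 + 2) ≤ (n + j + i3) ∧ (j + i3 + 1) ≤ (k) ∧ (k + i2 + l2 + 2) ≤ (n + i3) ∧ (i + 2 * i2 + 1) ≤ (2 * Q + k) ∧ (i + l + 1) ≤ (i2 + l2) ∧ (i2 + l2 + 1) ≤ (k + l) ∧ (i) ≤ (i3) ∧ (i3) ≤ (i))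
    (a1 : Par W (0) (j) (k - j))
    (a2 : Par W (Q + j - k) (j) (k - j))
    (s1 : Ant W (0) (i) (i + j))
    (s2 : Ant W (j + 1) (Q) (i + j))
    (b : Par W (i + 1) (i + l + 1) (k - i))
    (tt : Ant W (Q) (i2) (i + l + i2 + 1))
    (c : Par W (i2 + 1) (i2 + l2 + 1) (k + l - i2 + 1))
    (u1 : Ant W (0) (i3) (k + l + l2 + i3 - n + 2))
    (u2 : Ant W (k + l + l2 - n + 3) (Q) (k + l + l2 + i3 - n + 2))
    (D1 : Par W (i3 + 1) (Q) (i2 + l2 - i3 + 1))
    (D2 : Par W (i2 + l2 + 2) (n) (i3 - i2 - l2 - 1))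
    {L : ℤ} (mx : ∀ a b g, 0 < g → g < n → Par W a b g → b - a ≤ L)
    (hL : L ≤ (n - j - 3) ∧ L ≤ (n + Q - k - 3) ∧ L ≤ (n - l - 3) ∧ L ≤ (n + i - k - 2) ∧ L ≤ (n - l2 - 3) ∧ L ≤ (n + i3 - Q - 2) ∧ L ≤ (i2 + l2 - 1) ∧ L ≤ (n + i2 - k - l - 3))
    (bd0 : Bd W n L (j) (i) (k))
    (bd2 : Bd W n L (k + l + l2 - n + 2) (i3) (i2 + l2 + 1))
    (n1 : Nd W (j) (i) (k))
    (n2 : Nd W (i + l + 1) (i2) (k + l + 1))
    (n3 : Nd W (k + l + l2 - n + 2) (i3) (i2 + l2 + 1))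
    (b0 : (2 * l + 3) ≤ (n))
    (b1 : (2 * i + j + 1) ≤ (k))
    (b2 : (n + 2 * Q) ≤ (i + l + i2 + 2 * l2 + 4))
    (b3 : (k + l + i3 + 1) ≤ (2 * i2 + l2))
    (b4 : (i + 2 * k + 2 * l + 3) ≤ (n + 2 * Q + j))
    (b5 : (2 * Q + 2 * k + l + 1) ≤ (n + 2 * i + j + i2))
    (b6 : (4 * n + 2 * i + i3) ≤ (5 * k + 3 * l + 3 * l2 + 7))
    (b7 : (n + i + 1) ≤ (2 * k + l)) : False := by
  have ev := al.ev
  obtain ⟨y0, y1, y2, y3, y4, y5, y6, y7, y8, y9, y10, y11, y12, y13, y14, y15, y16, y17, y18, y19, y20, y21, y22⟩ := id hy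
  have n1p := And.intro n1.p1 n1.p2
  have n2p := And.intro n2.p1 n2.p2
  have n3p := And.intro n3.p1 n3.p2
  by_cases z34 : (n + i2) ≤ (j + 2 * k + l + 2)
  · have kk479 : (j + 2 * k + l + 3) ≤ (n + 2 * i + i2) := by clear * - b5 y2; omega
    have kk480 : (n + i2) ≤ (j + 2 * k + l + 2) := by clear * - z34; omega
    have kk481 : (i) ≤ (j) := by clear * - y1; omega
    have kk482 : (n + i) ≤ (k + l + l2 + 2) := by clear * - b3 b6 y17; omega
    have kk483 : (j) ≤ (l) := by clear * - b3 b6 y17 y2 y22 y7; omega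
    have kk484 : (k + l + 2) ≤ (n) := by clear * - b0 b3 b6 y17 y22; omega
    have r485 : (n + j + i2 - l - 1) % 2 = 0 := by clear * - ev n1p n2p n3p; omega
    clear * - al s1 b c kk479 kk480 kk481 kk482 kk483 kk484 r485
    obtain ⟨t, ht⟩ : ∃ t, 2 * t = (n + j + i2 - l - 1) := ⟨(n + j + i2 - l - 1) / 2, by omega⟩
    exact al.ninv t (cE (cI (pb b al 0 t (t + (i - k)) (by omega)) (ab s1 al 0 (t + (i - k)) ((j + k) - t) (by omega))) (pb c al (-1) ((j + k) - t) t (by omega)))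
  · exact t4_18 al hy a1 a2 s1 s2 b tt c u1 u2 D1 D2 mx hL bd0 bd2 n1 n2 n3 (by clear * - b0; omega) (by clear * - b1; omega) (by clear * - b4; omega) (by clear * - b5; omega) (by clear * - b6; omega) (by clear * - b7; omega) (by clear * - z34; omega)

theorem t4_16 {W : ℤ → G} {n Q i j k l i2 l2 i3 : ℤ} (al : AL W n Q)
    (hy : (0) ≤ (i) ∧ (i) ≤ (j) ∧ (j + 1) ≤ (Q) ∧ (Q) ≤ (k) ∧ (k + 1) ≤ (n) ∧ (Q) ≤ (i + l + 1) ∧ (k + l + 2) ≤ (n) ∧ (Q) ≤ (i2) ∧ (i2) ≤ (i + l + 1) ∧ (Q) ≤ (i2 + l2 + 1) ∧ (i2 + l2 + 2) ≤ (n) ∧ (n) ≤ (k + l + l2 + 2) ∧ (k + l + l2 + 3) ≤ (n + Q) ∧ (0) ≤ (i3) ∧ (n + i3) ≤ (k + l + l2 + 2) ∧ (k + i2 + l2 + 2) ≤ (n + j + i3) ∧ (j + i3 + 1) ≤ (k) ∧ (k + i2 + l2 + 2) ≤ (n + i3) ∧ (i + 2 * i2 + 1) ≤ (2 * Q + k) ∧ (i + l + 1) ≤ (i2 + l2) ∧ (i2 + l2 + 1) ≤ (k + l) ∧ (i) ≤ (i3) ∧ (i3) ≤ (i))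
    (a1 : Par W (0) (j) (k - j))
    (a2 : Par W (Q + j - k) (j) (k - j))
    (s1 : Ant W (0) (i) (i + j))
    (s2 : Ant W (j + 1) (Q) (i + j))
    (b : Par W (i + 1) (i + l + 1) (k - i))
    (tt : Ant W (Q) (i2) (i + l + i2 + 1))
    (c : Par W (i2 + 1) (i2 + l2 + 1) (k + l - i2 + 1))
    (u1 : Ant W (0) (i3) (k + l + l2 + i3 - n + 2))
    (u2 : Ant W (k + l + l2 - n + 3) (Q) (k + l + l2 + i3 - n + 2))
    (D1 : Par W (i3 + 1) (Q) (i2 + l2 - i3 + 1))
    (D2 : Par W (i2 + l2 + 2) (n) (i3 - i2 - l2 - 1))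
    {L : ℤ} (mx : ∀ a b g, 0 < g → g < n → Par W a b g → b - a ≤ L)
    (hL : L ≤ (n - j - 3) ∧ L ≤ (n + Q - k - 3) ∧ L ≤ (n - l - 3) ∧ L ≤ (n + i - k - 2) ∧ L ≤ (n - l2 - 3) ∧ L ≤ (n + i3 - Q - 2) ∧ L ≤ (i2 + l2 - 1) ∧ L ≤ (n + i2 - k - l - 3))
    (bd0 : Bd W n L (j) (i) (k))
    (bd2 : Bd W n L (k + l + l2 - n + 2) (i3) (i2 + l2 + 1))
    (n1 : Nd W (j) (i) (k))
    (n2 : Nd W (i + l + 1) (i2) (k + l + 1))
    (n3 : Nd W (k + l + l2 - n + 2) (i3) (i2 + l2 + 1))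
    (b0 : (2 * l + 3) ≤ (n))
    (b1 : (2 * i + j + 1) ≤ (k))
    (b2 : (n + 2 * Q) ≤ (i + l + i2 + 2 * l2 + 4))
    (b3 : (k + l + i3 + 1) ≤ (2 * i2 + l2))
    (b4 : (n + i) ≤ (2 * k + l))
    (b5 : (i + 2 * k + 2 * l + 3) ≤ (n + 2 * Q + j))
    (b6 : (2 * Q + 2 * k + l + 1) ≤ (n + 2 * i + j + i2))
    (b7 : (4 * n + 2 * i + i3) ≤ (5 * k + 3 * l + 3 * l2 + 7)) : False := by
  have ev := al.ev
  obtain ⟨y0, y1, y2, y3, y4, y5, y6, y7, y8, y9, y10, y11, y12, y13, y14, y15, y16, y17, y18, y19, y20, y21, y22⟩ := id hy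
  have n1p := And.intro n1.p1 n1.p2
  have n2p := And.intro n2.p1 n2.p2
  have n3p := And.intro n3.p1 n3.p2
  by_cases z33 : (2 * k + l) ≤ (n + i)
  · have kk462 : (i2 + l2 + 1) ≤ (k + l) := by clear * - y20; omega
    have kk463 : (k + l + i3 + 1) ≤ (Q + i2 + l2) := by clear * - b3 b5 b7 y2 y22 z33; omega
    have kk464 : (i + 1) ≤ (k) := by clear * - b0 b3 b7 y20 y21 z33; omega
    have kk465 : (0) ≤ (l) := by clear * - b3 b7 y13 y20 y21 z33; omega
    have kk466 : (i + 1) ≤ (i2) := by clear * - b3 y20 y21; omega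
    have kk467 : (i2) ≤ (k + l) := by clear * - b0 b1 b3 b5 b6 b7 y13 y20 z33; linarith
    have kk468 : (i + i2 + l2 + 1) ≤ (k + l + i3) := by clear * - y20 y21; omega
    have kk469 : (i3) ≤ (i2 + l2) := by clear * - b0 b1 b3 b5 b6 b7 y13 y20 z33; linarith
    have kk470 : (2 * k + l) ≤ (n + i) := by clear * - z33; omega
    have kk471 : (i2 + l2) ≤ (k + l) := by clear * - y20; omega
    have kk472 : (n) ≤ (k + l + l2 + 2) := by clear * - b3 b7 y13 y20 z33; omega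
    have kk473 : (i) ≤ (i2) := by clear * - b3 y20 y21; omega
    have kk474 : (i + i2 + l2) ≤ (k + l + i3) := by clear * - y20 y21; omega
    have kk475 : (n + i3) ≤ (k + l + i2 + l2 + 2) := by clear * - b3 b7 y13 y20 z33; omega
    have kk476 : (n + i2) ≤ (2 * k + 2 * l + 2) := by clear * - b3 b7 y13 y20 z33; omega
    have r477 : (k + l + i3 - 2 * i2 - l2) % 2 = 0 := by clear * - ev n1p n2p n3p; omega
    have r478 : (k - i) % 2 = 0 := by clear * - ev n1p n2p n3p; omega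
    clear * - al b c D1 D2 n2 kk462 kk463 kk464 kk465 kk466 kk467 kk468 kk469 kk470 kk471 kk472 kk473 kk474 kk475 kk476 r477 r478
    exact ivt0 (i - n + 1) (i + l - n + 1) (k - i) (i2 - n + 1) (i2 - k - l - 1) (k + l + i3 - 2 * i2 - l2) (i2 - n) (k + l + i3 - n - i2 - l2) 0 (fun t h1 h2 => (cE (qf b al (-1) t (t + (n + k - i)) (by omega)) (sh al (-1) (t + (n + k - i)) (t + (k - i)) (by omega)))) (fun t h1 h2 => (cE (sh al 1 t (t + (n)) (by omega)) (cE (pb (show Par W (k + l + i3 - i2 - l2 + 1) (n + i3 - i2 - l2 - 1) (2 * i2 + l2 - k - l - i3) from fun t h1 h2 => (cE (sh al (-1) t (t + (-n)) (by omega)) (cE (pb D2 al (-1) (t + (-n)) (t + (i2 + l2 - i3 + 1)) (by omega)) (pb c al 0 (t + (i2 + l2 - i3 + 1)) (t + (2 * i2 + l2 - k - l - i3)) (by omega))))) al 0 (t + (n)) (t + (n + k + l + i3 - 2 * i2 - l2)) (by omega)) (sh al (-1) (t + (n + k + l + i3 - 2 * i2 - l2)) (t + (k + l + i3 - 2 * i2 - l2)) (by omega))))) (fun hh =>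 n2.f1 (rEE (sh al (-1) (i2) (i2 - n) (by omega)) (cE (pb D1 al 0 (k + l + 1) (k + l + i3 - i2 - l2) (by omega)) (sh al (-1) (k + l + i3 - i2 - l2) (k + l + i3 - n - i2 - l2) (by omega))) (Eq.symm hh))) (by omega) (by omega)
  · exact t4_17 al hy a1 a2 s1 s2 b tt c u1 u2 D1 D2 mx hL bd0 bd2 n1 n2 n3 (by clear * - b0; omega) (by clear * - b1; omega) (by clear * - b2; omega) (by clear * - b3; omega) (by clear * - b5; omega) (by clear * - b6; omega) (by clear * - b7; omega) (by clear * - z33; omega)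

theorem t4_11 {W : ℤ → G} {n Q i j k l i2 l2 i3 : ℤ} (al : AL W n Q)
    (hy : (0) ≤ (i) ∧ (i) ≤ (j) ∧ (j + 1) ≤ (Q) ∧ (Q) ≤ (k) ∧ (k + 1) ≤ (n) ∧ (Q) ≤ (i + l + 1) ∧ (k + l + 2) ≤ (n) ∧ (Q) ≤ (i2) ∧ (i2) ≤ (i + l + 1) ∧ (Q) ≤ (i2 + l2 + 1) ∧ (i2 + l2 + 2) ≤ (n) ∧ (n) ≤ (k + l + l2 + 2) ∧ (k + l + l2 + 3) ≤ (n + Q) ∧ (0) ≤ (i3) ∧ (n + i3) ≤ (k + l + l2 + 2) ∧ (k + i2 + l2 + 2) ≤ (n + j + i3) ∧ (j + i3 + 1) ≤ (k) ∧ (k + i2 + l2 + 2) ≤ (n + i3) ∧ (i + 2 * i2 + 1) ≤ (2 * Q + k) ∧ (i + l + 1) ≤ (i2 + l2) ∧ (i2 + l2 + 1) ≤ (k + l) ∧ (i) ≤ (i3) ∧ (i3) ≤ (i))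
    (a1 : Par W (0) (j) (k - j))
    (a2 : Par W (Q + j - k) (j) (k - j))
    (s1 : Ant W (0) (i) (i + j))
    (s2 : Ant W (j + 1) (Q) (i + j))
    (b : Par W (i + 1) (i + l + 1) (k - i))
    (tt : Ant W (Q) (i2) (i + l + i2 + 1))
    (c : Par W (i2 + 1) (i2 + l2 + 1) (k + l - i2 + 1))
    (u1 : Ant W (0) (i3) (k + l + l2 + i3 - n + 2))
    (u2 : Ant W (k + l + l2 - n + 3) (Q) (k + l + l2 + i3 - n + 2))
    (D1 : Par W (i3 + 1) (Q) (i2 + l2 - i3 + 1))
    (D2 : Par W (i2 + l2 + 2) (n) (i3 - i2 - l2 - 1))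
    {L : ℤ} (mx : ∀ a b g, 0 < g → g < n → Par W a b g → b - a ≤ L)
    (hL : L ≤ (n - j - 3) ∧ L ≤ (n + Q - k - 3) ∧ L ≤ (n - l - 3) ∧ L ≤ (n + i - k - 2) ∧ L ≤ (n - l2 - 3) ∧ L ≤ (n + i3 - Q - 2) ∧ L ≤ (i2 + l2 - 1) ∧ L ≤ (n + i2 - k - l - 3))
    (bd0 : Bd W n L (j) (i) (k))
    (bd2 : Bd W n L (k + l + l2 - n + 2) (i3) (i2 + l2 + 1))
    (n1 : Nd W (j) (i) (k))
    (n2 : Nd W (i + l + 1) (i2) (k + l + 1))
    (n3 : Nd W (k + l + l2 - n + 2) (i3) (i2 + l2 + 1))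
    (b0 : (2 * l + 3) ≤ (n))
    (b1 : (2 * i + j + 1) ≤ (k))
    (b2 : (n + 2 * Q) ≤ (i + l + i2 + 2 * l2 + 4))
    (b3 : (k + l + i3 + 1) ≤ (2 * i2 + l2))
    (b4 : (n + i) ≤ (2 * k + l))
    (b5 : (i + 2 * k + 2 * l + 3) ≤ (n + 2 * Q + j))
    (b6 : (2 * Q + 2 * k + l + 1) ≤ (n + 2 * i + j + i2)) : False := by
  have ev := al.ev
  obtain ⟨y0, y1, y2, y3, y4, y5, y6, y7, y8, y9, y10, y11, y12, y13, y14, y15, y16, y17, y18, y19, y20, y21, y22⟩ := id hy
  have n1p := And.intro n1.p1 n1.p2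
  have n2p := And.intro n2.p1 n2.p2
  have n3p := And.intro n3.p1 n3.p2
  by_cases z15 : (5 * k + 3 * l + 3 * l2 + 8) ≤ (4 * n + 2 * i + i3)
  · exact t4_12 al hy a1 a2 s1 s2 b tt c u1 u2 D1 D2 mx hL bd0 bd2 n1 n2 n3 (by clear * - b0; omega) (by clear * - b1; omega) (by clear * - b2; omega) (by clear * - b3; omega) (by clear * - b4; omega) (by clear * - b5; omega) (by clear * - b6; omega) (by clear * - z15; omega)
  · exact t4_16 al hy a1 a2 s1 s2 b tt c u1 u2 D1 D2 mx hL bd0 bd2 n1 n2 n3 (by clear * - b0; omega) (by clear * - b1; omega) (by clear * - b2; omega) (by clear * - b3; omega) (by clear * - b4; omega) (by clear * - b5; omega) (by clear * - b6; omega) (by clear * - z15; omega)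

theorem t4_10 {W : ℤ → G} {n Q i j k l i2 l2 i3 : ℤ} (al : AL W n Q)
    (hy : (0) ≤ (i) ∧ (i) ≤ (j) ∧ (j + 1) ≤ (Q) ∧ (Q) ≤ (k) ∧ (k + 1) ≤ (n) ∧ (Q) ≤ (i + l + 1) ∧ (k + l + 2) ≤ (n) ∧ (Q) ≤ (i2) ∧ (i2) ≤ (i + l + 1) ∧ (Q) ≤ (i2 + l2 + 1) ∧ (i2 + l2 + 2) ≤ (n) ∧ (n) ≤ (k + l + l2 + 2) ∧ (k + l + l2 + 3) ≤ (n + Q) ∧ (0) ≤ (i3) ∧ (n + i3) ≤ (k + l + l2 + 2) ∧ (k + i2 + l2 + 2) ≤ (n + j + i3) ∧ (j + i3 + 1) ≤ (k) ∧ (k + i2 + l2 + 2) ≤ (n + i3) ∧ (i + 2 * i2 + 1) ≤ (2 * Q + k) ∧ (i + l + 1) ≤ (i2 + l2) ∧ (i2 + l2 + 1) ≤ (k + l) ∧ (i) ≤ (i3) ∧ (i3) ≤ (i))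
    (a1 : Par W (0) (j) (k - j))
    (a2 : Par W (Q + j - k) (j) (k - j))
    (s1 : Ant W (0) (i) (i + j))
    (s2 : Ant W (j + 1) (Q) (i + j))
    (b : Par W (i + 1) (i + l + 1) (k - i))
    (tt : Ant W (Q) (i2) (i + l + i2 + 1))
    (c : Par W (i2 + 1) (i2 + l2 + 1) (k + l - i2 + 1))
    (u1 : Ant W (0) (i3) (k + l + l2 + i3 - n + 2))
    (u2 : Ant W (k + l + l2 - n + 3) (Q) (k + l + l2 + i3 - n + 2))
    (D1 : Par W (i3 + 1) (Q) (i2 + l2 - i3 + 1))
    (D2 : Par W (i2 + l2 + 2) (n) (i3 - i2 - l2 - 1))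
    {L : ℤ} (mx : ∀ a b g, 0 < g → g < n → Par W a b g → b - a ≤ L)
    (hL : L ≤ (n - j - 3) ∧ L ≤ (n + Q - k - 3) ∧ L ≤ (n - l - 3) ∧ L ≤ (n + i - k - 2) ∧ L ≤ (n - l2 - 3) ∧ L ≤ (n + i3 - Q - 2) ∧ L ≤ (i2 + l2 - 1) ∧ L ≤ (n + i2 - k - l - 3))
    (bd0 : Bd W n L (j) (i) (k))
    (bd2 : Bd W n L (k + l + l2 - n + 2) (i3) (i2 + l2 + 1))
    (n1 : Nd W (j) (i) (k))
    (n2 : Nd W (i + l + 1) (i2) (k + l + 1))
    (n3 : Nd W (k + l + l2 - n + 2) (i3) (i2 + l2 + 1))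
    (b0 : (2 * l + 3) ≤ (n))
    (b1 : (2 * i + j + 1) ≤ (k))
    (b2 : (n + 2 * Q) ≤ (i + l + i2 + 2 * l2 + 4))
    (b3 : (k + l + i3 + 1) ≤ (2 * i2 + l2))
    (b4 : (n + i) ≤ (2 * k + l))
    (b5 : (i + 2 * k + 2 * l + 3) ≤ (n + 2 * Q + j))
    (b6 : (j + 2 * k + l + 3) ≤ (n + 2 * i + i2)) : False := by
  have ev := al.ev
  obtain ⟨y0, y1, y2, y3, y4, y5, y6, y7, y8, y9, y10, y11, y12, y13, y14, y15, y16, y17, y18, y19, y20, y21, y22⟩ := id hy
  have n1p := And.intro n1.p1 n1.p2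
  have n2p := And.intro n2.p1 n2.p2
  have n3p := And.intro n3.p1 n3.p2
  by_cases z14 : (n + 2 * i + j + i2) ≤ (2 * Q + 2 * k + l)
  · by_cases v10 : (Q + k + l + 1) ≤ (n + i + j)
    · have kk148 : (j + 2 * k + l + 3) ≤ (n + 2 * i + i2) := by clear * - b6; omega
      have kk149 : (n + 2 * i + j + i2) ≤ (2 * Q + 2 * k + l) := by clear * - z14; omega
      have kk150 : (n + i) ≤ (k + l + l2 + 2) := by clear * - y14 y21; omega
      have kk151 : (i) ≤ (j) := by clear * - y1; omega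
      have kk152 : (Q + k + l + 1) ≤ (n + i + j) := by clear * - v10; omega
      have kk153 : (Q) ≤ (i + l + 1) := by clear * - b2 b3 b6 y15 y20; omega
      have r154 : (j + i2 - n - l - 1) % 2 = 0 := by clear * - ev n1p n2p n3p; omega
      clear * - al s2 b c kk148 kk149 kk150 kk151 kk152 kk153 r154
      obtain ⟨t, ht⟩ : ∃ t, 2 * t = (j + i2 - n - l - 1) := ⟨(j + i2 - n - l - 1) / 2, by omega⟩
      exact al.ninv t (cE (cE (cI (pb b al (-1) t (t + (n + i - k)) (by omega)) (qa s2 al 0 (t + (n + i - k)) ((j + k - n) - t) (by omega))) (pb c al (-1) ((j + k - n) - t) ((j + i2 - l - 1) - t) (by omega))) (sh al (-1) ((j + i2 - l - 1) - t) t (by omega)))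
    · have kk155 : (j + 2 * k + l + 3) ≤ (n + 2 * i + i2) := by clear * - b6; omega
      have kk156 : (l + i2 + 2) ≤ (n + j) := by clear * - b0 b2 b5 y20; omega
      have kk157 : (n + j) ≤ (k + l + l2 + 2) := by clear * - b0 b2 v10 y15 y22; omega
      have kk158 : (i) ≤ (j) := by clear * - y1; omega
      have kk159 : (n + j) ≤ (k + 2 * l + 2) := by clear * - b2 b3 b6 v10 y15 y20; omega
      have kk160 : (n + i + j) ≤ (Q + k + l + 1) := by clear * - v10; omega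
      have r161 : (j + i2 - n - l - 1) % 2 = 0 := by clear * - ev n1p n2p n3p; omega
      clear * - al s2 b c kk155 kk156 kk157 kk158 kk159 kk160 r161
      obtain ⟨t, ht⟩ : ∃ t, 2 * t = (j + i2 - n - l - 1) := ⟨(j + i2 - n - l - 1) / 2, by omega⟩
      exact al.ninv t (cE (cE (cI (pb b al (-1) t (t + (n + i - k)) (by omega)) (qa s2 al 0 (t + (n + i - k)) ((j + k - n) - t) (by omega))) (pb c al (-1) ((j + k - n) - t) ((j + i2 - l - 1) - t) (by omega))) (sh al (-1) ((j + i2 - l - 1) - t) t (by omega)))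
  · exact t4_11 al hy a1 a2 s1 s2 b tt c u1 u2 D1 D2 mx hL bd0 bd2 n1 n2 n3 (by clear * - b0; omega) (by clear * - b1; omega) (by clear * - b2; omega) (by clear * - b3; omega) (by clear * - b4; omega) (by clear * - b5; omega) (by clear * - z14; omega)

end Pool.Agent.MP_a38735_al.WL
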