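import Pool.Agent.MP_a38735_al.WT

set_option autoImplicit false
set_option linter.unusedVariables false

namespace Pool.Agent.MP_a38735_al.WL

variable {G : Type*} [Group G]

theorem yf2_23 {W : ℤ → G} {n Q i j k l i2 l2 i3 : ℤ} (al : AL W n Q)
    (hy : (0) ≤ (i) ∧ (i) ≤ (j) ∧ (j + 1) ≤ (Q) ∧ (Q) ≤ (k) ∧ (k + 1) ≤ (n) ∧ (Q) ≤ (i + l + 1) ∧ (k + l + 2) ≤ (n) ∧ (Q) ≤ (i2) ∧ (i2) ≤ (i + l + 1) ∧ (Q) ≤ (i2 + l2 + 1) ∧ (i2 + l2 + 2) ≤ (n) ∧ (n) ≤ (k + l + l2 + 2) ∧ (k + l + l2 + 3) ≤ (n + Q) ∧ (0) ≤ (i3) ∧ (n + i3) ≤ (k + l + l2 + 2) ∧ (k + i2 + l2 + 2) ≤ (n + j + i3) ∧ (j + i3 + 1) ≤ (k) ∧ (k + i2 + l2 + 2) ≤ (n + i3) ∧ (i + l + 1) ≤ (i2 + l2) ∧ (i) ≤ (i3) ∧ (i3) ≤ (i) ∧ (k + l) ≤ (i2 + l2) ∧ (i2 + l2) ≤ (k + l))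
    (a1 : Par W (0) (j) (k - j))
    (a2 : Par W (Q + j - k) (j) (k - j))
    (s1 : Ant W (0) (i) (i + j))
    (s2 : Ant W (j + 1) (Q) (i + j))
    (b : Par W (i + 1) (i + l + 1) (k - i))
    (tt : Ant W (Q) (i2) (i + l + i2 + 1))
    (c : Par W (i2 + 1) (i2 + l2 + 1) (k + l - i2 + 1))
    (u1 : Ant W (0) (i3) (k + l + l2 + i3 - n + 2))
    (u2 : Ant W (k + l + l2 - n + 3) (Q) (k + l + l2 + i3 - n + 2))
    (D1 : Par W (i3 + 1) (Q) (i2 + l2 - i3 + 1))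
    (D2 : Par W (i2 + l2 + 2) (n) (i3 - i2 - l2 - 1))
    {L : ℤ} (mx : ∀ a b g, 0 < g → g < n → Par W a b g → b - a ≤ L)
    (hL : L ≤ (n - j - 3) ∧ L ≤ (n + Q - k - 3) ∧ L ≤ (n - l - 3) ∧ L ≤ (n + i - k - 2) ∧ L ≤ (n - l2 - 3) ∧ L ≤ (n + i3 - Q - 2) ∧ L ≤ (i2 + l2 - 1) ∧ L ≤ (n + i2 - k - l - 3))
    (bd0 : Bd W n L (j) (i) (k))
    (bd2 : Bd W n L (k + l + l2 - n + 2) (i3) (i2 + l2 + 1))
    (n1 : Nd W (j) (i) (k))
    (n2 : Nd W (i + l + 1) (i2) (k + l + 1))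
    (n3 : Nd W (k + l + l2 - n + 2) (i3) (i2 + l2 + 1))
    (d1 : ℤ) (q1 : d1 % 2 = 0) (x1 : Par W (i + 1) (k + l - d1 + 1) d1)
    (b0 : (2 * l + 3) ≤ (n))
    (b1 : (2 * i + j + 1) ≤ (k))
    (b2 : (2 * n + 2 * Q + i3) ≤ (k + l + 2 * i2 + 3 * l2 + 5))
    (b3 : (n + i + 2 * i2) ≤ (j + 2 * k + 2 * l + 3))
    (b4 : (Q + 1) ≤ (k))
    (b5 : (2 * k + l + i3) ≤ (i + 2 * i2 + l2))
    (b6 : (j + 2) ≤ (Q))
    (b7 : (k + l + l2 + 3) ≤ (n + j))
    (b8 : (3 * k + i2) ≤ (4 * i + l + 2))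
    (b9 : (n + i) ≤ (k + l2 + d1 + 1))
    (b10 : (l2 + d1 + 2) ≤ (n))
    (b11 : (i + 5 * k + 3 * l + 2 * d1 + 4) ≤ (2 * n + j + 4 * i2 + l2 + i3)) : False := by
  have ev := al.ev
  obtain ⟨y0, y1, y2, y3, y4, y5, y6, y7, y8, y9, y10, y11, y12, y13, y14, y15, y16, y17, y18, y19, y20, y21, y22⟩ := id hy
  have n1p := And.intro n1.p1 n1.p2
  have n2p := And.intro n2.p1 n2.p2
  have n3p := And.intro n3.p1 n3.p2
  by_cases z45 : (i + j + 2 * i2 + l2 + 1) ≤ (3 * k + l + i3)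
  · by_cases z46 : (5 * k + 3 * l + l2 + i3 + 6) ≤ (2 * n + 2 * Q + i + j + 2 * i2)
    · by_cases z47 : (2 * i + 3 * k + 2 * l + 2 * d1 + 4) ≤ (2 * n + j + 2 * i2 + 2 * i3)
      · by_cases z48 : (3 * k + 2 * l + 2 * l2 + 6) ≤ (2 * n + 2 * Q + j)
        · by_cases v14 : (Q + i + d1) ≤ (i2 + l2 + i3 + 1)
          · have kk668 : (j + 1) ≤ (k) := by clear * - b5 z45; omega
            have kk669 : (3 * k + 2 * l + 2 * l2 + 6) ≤ (2 * n + 2 * Q + j) := by clear * - z48; omega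
            have kk670 : (3 * k + 2 * l + 2 * d1 + 2) ≤ (2 * n + j + 2 * i2 + 2 * i3) := by clear * - v14 y13 y20 z48; omega
            have kk671 : (k + 2 * l + 2 * l2 + 6) ≤ (2 * n + j) := by clear * - b5 b7 z45; omega
            have kk672 : (i2) ≤ (i + d1) := by clear * - b10 b5 b7 b8 b9 z45; omega
            have kk673 : (i2 + l2) ≤ (k + l) := by clear * - y22; omega
            have kk674 : (n + i3) ≤ (k + l + l2 + 2) := by clear * - b3 b5 z45; omega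
            have kk675 : (Q + i + d1) ≤ (i2 + l2 + i3 + 1) := by clear * - v14; omega
            have kk676 : (n) ≤ (k + l + l2 + 3) := by clear * - b3 b5 y13 z45; omega
            have kk677 : (n + i2 + i3) ≤ (2 * k + l + d1 + 1) := by clear * - b9 y20 y22; omega
            have r678 : (i2 + l2 + i3 - 2 * n - d1 + 1) % 2 = 0 := by clear * - ev n1p n2p n3p q1; omega
            have r679 : (k - j) % 2 = 0 := by clear * - ev n1p n2p n3p q1; omega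
            clear * - al a1 c u2 x1 kk668 kk669 kk670 kk671 kk672 kk673 kk674 kk675 kk676 kk677 r678 r679
            exact midP al (k - j) (i2 + l2 + i3 - 2 * n - d1 + 1) (k + l + l2 - 2 * n + 3) (-n) (k - n) (by omega) (fun t h1 h2 => (cE (cE (qa u2 al (-1) t ((k + l + l2 + i3 - 2 * n + 2) - t) (by omega)) (qf (show Par W (i + k + l + d1 - i2 + 2) (k + l + l2 + 2) (n + i2 - k - l - d1 - 1) from fun t h1 h2 => (cE (sh al (-1) t (t + (-n)) (by omega)) (cE (cE (pb c al (-1) (t + (-n)) (t + (i2 - k - l - 1)) (by omega)) (pb x1 al 0 (t + (i2 - k - l - 1)) (t + (i2 - k - l - d1 - 1)) (by omega))) (sh al 1 (t + (i2 - k - l - d1 - 1)) (t + (n + i2 - k - l - d1 - 1)) (by omega))))) al (-1) ((k + l + l2 + i3 - 2 * n + 2) - t) ((i2 + l2 + i3 - d1 + 1) - t) (by omega))) (sh al (-2) ((i2 + l2 + i3 - d1 + 1) - t) ((i2 + l2 + i3 - 2 * n - d1 + 1) - t) (by omega)))) (fun t h1 h2 => (cE (qf a1 al (-1) t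 (t + (n + k - j)) (by omega)) (sh al (-1) (t + (n + k - j)) (t + (k - j)) (by omega))))
          · have kk680 : (j + 1) ≤ (k) := by clear * - b5 z45; omega
            have kk681 : (2 * i + 3 * k + 2 * l + 2 * d1 + 4) ≤ (2 * n + j + 2 * i2 + 2 * i3) := by clear * - z47; omega
            have kk682 : (3 * k + 2 * l + 2 * d1 + 2) ≤ (2 * n + j + 2 * i2 + 2 * i3) := by clear * - y13 y20 z47; omega
            have kk683 : (k + 2 * l + 2 * l2 + 6) ≤ (2 * n + j) := by clear * - b5 b7 z45; omega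
            have kk684 : (i2) ≤ (i + d1) := by clear * - b10 b5 b7 b8 b9 z45; omega
            have kk685 : (i2 + l2) ≤ (k + l) := by clear * - y22; omega
            have kk686 : (n + i3) ≤ (k + l + l2 + 2) := by clear * - b3 b5 z45; omega
            have kk687 : (i2 + l2 + i3 + 1) ≤ (Q + i + d1) := by clear * - v14; omega
            have kk688 : (n) ≤ (k + l + l2 + 3) := by clear * - b3 b5 y13 z45; omega
            have kk689 : (n + i2 + i3) ≤ (2 * k + l + d1 + 1) := by clear * - b3 b4 b5 b9 v14 y22 z45; linarith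
            have r690 : (i2 + l2 + i3 - 2 * n - d1 + 1) % 2 = 0 := by clear * - ev n1p n2p n3p q1; omega
            have r691 : (k - j) % 2 = 0 := by clear * - ev n1p n2p n3p q1; omega
            clear * - al a1 c u2 x1 kk680 kk681 kk682 kk683 kk684 kk685 kk686 kk687 kk688 kk689 r690 r691
            exact midP al (k - j) (i2 + l2 + i3 - 2 * n - d1 + 1) (k + l + l2 - 2 * n + 3) (-n) (k - n) (by omega) (fun t h1 h2 => (cE (cE (qa u2 al (-1) t ((k + l + l2 + i3 - 2 * n + 2) - t) (by omega)) (qf (show Par W (i + k + l + d1 - i2 + 2) (k + l + l2 + 2) (n + i2 - k - l - d1 - 1) from fun t h1 h2 => (cE (sh al (-1) t (t + (-n)) (by omega)) (cE (cE (pb c al (-1) (t + (-n)) (t + (i2 - k - l - 1)) (by omega)) (pb x1 al 0 (t + (i2 - k - l - 1)) (t + (i2 - k - l - d1 - 1)) (by omega))) (sh al 1 (t + (i2 - k - l - d1 - 1)) (t + (n + i2 - k - l - d1 - 1)) (by omega))))) al (-1) ((k + l + l2 + i3 - 2 *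 n + 2) - t) ((i2 + l2 + i3 - d1 + 1) - t) (by omega))) (sh al (-2) ((i2 + l2 + i3 - d1 + 1) - t) ((i2 + l2 + i3 - 2 * n - d1 + 1) - t) (by omega)))) (fun t h1 h2 => (cE (qf a1 al (-1) t (t + (n + k - j)) (by omega)) (sh al (-1) (t + (n + k - j)) (t + (k - j)) (by omega))))
        · have kk692 : (2 * k + l + i3 + 1) ≤ (i + 2 * i2 + l2) := by clear * - z46 z48; omega
          have kk693 : (i + 2 * i2 + l2 + 1) ≤ (n + 2 * k + l + i3) := by clear * - b10 b7 b8 b9 y22 z45 z46 z47 z48; linarith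
          have kk694 : (i + 2 * i2 + l2 + 1) ≤ (Q + 2 * k + l) := by clear * - b3 z45 z46 z48; omega
          have kk695 : (Q + i2 + l2 + 1) ≤ (n + i3) := by clear * - b1 b10 b7 b8 b9 y22 z45 z46 z47 z48; linarith
          have kk696 : (k + l) ≤ (i2 + l2) := by clear * - y21; omega
          have kk697 : (n) ≤ (k + l + l2 + 2) := by clear * - b3 y13 z45 z46 z48; omega
          have kk698 : (2 * k + l) ≤ (2 * i2 + l2) := by clear * - y19 z46 z48; omega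
          have kk699 : (n + i2) ≤ (2 * k + 2 * l + 2) := by clear * - b3 y13 y22 z45 z46 z48; omega
          clear * - al b c D2 kk692 kk693 kk694 kk695 kk696 kk697 kk698 kk699
          exact al.ubQ (i + 2 * i2 + l2 - 2 * k - l - i3) (by omega) (by omega) fun t h1 h2 => (cE (sh al 1 t (t + (n)) (by omega)) (cE (qf (show Par W (i3 + 1) (n + i3 - i2 - l2 - 1) (2 * i2 + l2 - k - l - i3) from fun t h1 h2 => (cE (sh al (-1) t (t + (-n)) (by omega)) (cE (pb D2 al (-1) (t + (-n)) (t + (i2 + l2 - i3 + 1)) (by omega)) (pb c al 0 (t + (i2 + l2 - i3 + 1)) (t + (2 * i2 + l2 - k - l - i3)) (by omega))))) al 1 (t + (n)) (t + (2 * i2 + l2 - k - l - i3)) (by omega)) (pb b al 0 (t + (2 * i2 + l2 - k - l - i3)) (t + (i + 2 * i2 + l2 - 2 * k - l - i3)) (by omega))))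
      · have kk700 : (2 * k + l + i3 + 1) ≤ (i + 2 * i2 + l2) := by clear * - b11 z47; omega
        have kk701 : (i + 2 * i2 + l2 + 1) ≤ (n + 2 * k + l + i3) := by clear * - b10 b11 b7 b8 b9 y22 z45 z47; linarith
        have kk702 : (i + 2 * i2 + l2 + 1) ≤ (Q + 2 * k + l) := by clear * - b11 b3 z45 z46 z47; omega
        have kk703 : (Q + i2 + l2 + 1) ≤ (n + i3) := by clear * - b1 b10 b11 b4 b7 b8 b9 y22 z45 z47; linarith
        have kk704 : (k + l) ≤ (i2 + l2) := by clear * - y21; omega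
        have kk705 : (n) ≤ (k + l + l2 + 2) := by clear * - b11 b3 y13 z45 z47; omega
        have kk706 : (2 * k + l) ≤ (2 * i2 + l2) := by clear * - b11 y19 z47; omega
        have kk707 : (n + i2) ≤ (2 * k + 2 * l + 2) := by clear * - b1 b10 b11 b3 y13 z47; omega
        clear * - al b c D2 kk700 kk701 kk702 kk703 kk704 kk705 kk706 kk707
        exact al.ubQ (i + 2 * i2 + l2 - 2 * k - l - i3) (by omega) (by omega) fun t h1 h2 => (cE (sh al (-1) t (t + (-n)) (by omega)) (cE (qf (show Par W (i3 + 1) (n + i3 - i2 - l2 - 1) (2 * i2 + l2 - k - l - i3) from fun t h1 h2 => (cE (sh al (-1) t (t + (-n)) (by omega)) (cE (pb D2 al (-1) (t + (-n)) (t + (i2 + l2 - i3 + 1)) (by omega)) (pb c al 0 (t + (i2 + l2 - i3 + 1)) (t + (2 * i2 + l2 - k - l - i3)) (by omega))))) al (-1) (t + (-n)) (t + (2 * i2 + l2 - k - l - i3)) (by omega)) (pb b al 0 (t + (2 * i2 + l2 - k - l - i3)) (t + (i + 2 * i2 + l2 - 2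 * k - l - i3)) (by omega))))
    · by_cases z49 : (i + k + 2 * l + l2 + 5) ≤ (n + i2 + i3 + d1)
      · by_cases z50 : (2 * Q + j) ≤ (i + 2 * i2)
        · have kk708 : (i + 1) ≤ (k) := by clear * - b10 b9; omega
          have kk709 : (2 * Q + j) ≤ (i + 2 * i2) := by clear * - z50; omega
          have kk710 : (i + 2 * k + 2) ≤ (j + 2 * i2) := by clear * - b3 b5 b6 b7 y19 z50; omega
          have kk711 : (i + j + 2) ≤ (2 * k) := by clear * - b10 b5 b9 z45; omega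
          have kk712 : (2 * Q) ≤ (j + k) := by clear * - b5 b7 z46; omega
          have kk713 : (2 * Q + k) ≤ (j + 2 * l + 2 * i2 + 2) := by clear * - b10 b11 b3 b5 b8 z45 z46 z49 z50; linarith
          have kk714 : (2 * Q + j) ≤ (3 * k + 2 * l + 2) := by clear * - b10 b8 b9 z50; omega
          have kk715 : (k) ≤ (Q + j) := by clear * - b3 b5 b6 b7 y13; omega
          have kk716 : (k) ≤ (i2) := by clear * - b5 y19 y22; omega
          have kk717 : (i + i2 + 1) ≤ (Q + k) := by clear * - b0 b10 b11 b3 b5 b6 z49 z50; linarith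
          have kk718 : (0) ≤ (l + 1) := by clear * - b10 b11 b3 b5 b8 z45 z49; linarith
          have kk719 : (i2) ≤ (k + l + 1) := by clear * - b10 b8 b9; omega
          have r720 : (i + l + i2 - 2 * n + 1) % 2 = 0 := by clear * - ev n1p n2p n3p q1; omega
          have r721 : (k - i) % 2 = 0 := by clear * - ev n1p n2p n3p q1; omega
          have r722 : (i + j + l + i2 - 2 * n - k + 1) % 2 = 0 := by clear * - ev n1p n2p n3p q1; omega
          clear * - al a1 b tt kk708 kk709 kk710 kk711 kk712 kk713 kk714 kk715 kk716 kk717 kk718 kk719 r720 r721 r722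
          exact mid2 al (k - i) (i + l + i2 - 2 * n + 1) (i + j + l + i2 - 2 * n - k + 1) (Q - n) (i2 - n) (-1) (i - n + 1) (k + l - n + 1) (by omega) (fun t h1 h2 => ⟨by omega, (cE (qa tt al (-1) t ((i + l + i2 - n + 1) - t) (by omega)) (sh al (-1) ((i + l + i2 - n + 1) - t) ((i + l + i2 - 2 * n + 1) - t) (by omega)))⟩) (fun t h1 h2 => ⟨by omega, (cE (cI (qf a1 al (-1) t (t + (n + k - j)) (by omega)) (qa tt al 0 (t + (n + k - j)) ((i + j + l + i2 - n - k + 1) - t) (by omega))) (sh al (-1) ((i + j + l + i2 - n - k + 1) - t) ((i + j + l + i2 - 2 * n - k + 1) - t) (by omega)))⟩) (fun t h1 h2 => (cE (qf b al (-1) t (t + (n + k - i)) (by omega)) (sh al (-1) (t + (n + k - i)) (t + (k - i)) (by omega))))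
        · by_cases z51 : (2 * Q + k + 2 * d1) ≤ (j + 2 * l + 2 * i2 + 2)
          · by_cases v15 : (l + 1) ≤ (d1)
            · by_cases v16 : (l + i2 + 1) ≤ (k + d1)
              · have kk723 : (j + 1) ≤ (k) := by clear * - b6 v16 z51; omega
                have kk724 : (2 * Q + k + 2 * d1) ≤ (j + 2 * l + 2 * i2 + 2) := by clear * - z51; omega
                have kk725 : (k + 2 * d1) ≤ (j + 2 * l + 2 * i2 + 2) := by clear * - b10 b3 b5 b6 v15 y13 z51; linarith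
                have kk726 : (2 * i + 2) ≤ (j + k) := by clear * - b10 b9 v15 z50 z51; omega
                have kk727 : (l + 1) ≤ (d1) := by clear * - v15; omega
                have kk728 : (i + i2 + 1) ≤ (Q + k) := by clear * - b6 v15 v16 z50 z51; omega
                have kk729 : (0) ≤ (i + 1) := by clear * - y13 y20; omega
                have kk730 : (l + i2 + 1) ≤ (k + d1) := by clear * - v16; omega
                have r731 : (2 * n + i + l + i2 - d1 + 1) % 2 = 0 := by clear * - ev n1p n2p n3p q1; omega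
                have r732 : (k - j) % 2 = 0 := by clear * - ev n1p n2p n3p q1; omega
                clear * - al a1 tt x1 kk723 kk724 kk725 kk726 kk727 kk728 kk729 kk730 r731 r732
                exact midP al (k - j) (2 * n + i + l + i2 - d1 + 1) (n + i + 1) (n) (n + k) (by omega) (fun t h1 h2 => (cE (cI (qf x1 al 1 t (t + (d1 - n)) (by omega)) (ab tt al 0 (t + (d1 - n)) ((n + i + l + i2 - d1 + 1) - t) (by omega))) (sh al 1 ((n + i + l + i2 - d1 + 1) - t) ((2 * n + i + l + i2 - d1 + 1) - t) (by omega)))) (fun t h1 h2 => (cE (qf a1 al 1 t (t + (k - n - j)) (by omega)) (sh al 1 (t + (k - n - j)) (t + (k - j)) (by omega))))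
              · have kk733 : (j + 1) ≤ (k) := by clear * - b5 z45; omega
                have kk734 : (2 * Q) ≤ (j + k) := by clear * - b5 b7 z46; omega
                have kk735 : (0) ≤ (j + k) := by clear * - b10 b3 b5 v15 y13 z45; omega
                have kk736 : (2 * i + 2 * l + 2 * i2 + 4) ≤ (j + 3 * k + 2 * d1) := by clear * - b10 b5 v15 v16 z46 z50 z51; linarith
                have kk737 : (l + 1) ≤ (d1) := by clear * - v15; omega
                have kk738 : (i + i2 + 1) ≤ (Q + k) := by clear * - b5 v15 z45 z50 z51; omega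
                have kk739 : (0) ≤ (i + 1) := by clear * - y13 y20; omega
                have kk740 : (k + d1) ≤ (l + i2 + 1) := by clear * - v16; omega
                have r741 : (2 * n + i + l + i2 - d1 + 1) % 2 = 0 := by clear * - ev n1p n2p n3p q1; omega
                have r742 : (k - j) % 2 = 0 := by clear * - ev n1p n2p n3p q1; omega
                clear * - al a1 tt x1 kk733 kk734 kk735 kk736 kk737 kk738 kk739 kk740 r741 r742
                exact midP al (k - j) (2 * n + i + l + i2 - d1 + 1) (n + i + l + i2 - k - d1 + 2) (n) (n + k) (by omega) (fun t h1 h2 => (cE (cI (qf x1 al 1 t (t + (d1 - n)) (by omega)) (ab tt al 0 (t + (d1 - n)) ((n + i + l + i2 - d1 + 1) - t) (by omega))) (sh al 1 ((n + i + l + i2 - d1 + 1) - t) ((2 * n + i + l + i2 - d1 + 1) - t) (by omega)))) (fun t h1 h2 => (cE (qf a1 al 1 t (t + (k - n - j)) (by omega)) (sh al 1 (t + (k - n - j)) (t + (k - j)) (by omega))))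
            · have kk743 : (j + 1) ≤ (k) := by clear * - b5 z45; omega
              have kk744 : (2 * Q) ≤ (j + k) := by clear * - b5 b7 z46; omega
              have kk745 : (0) ≤ (j + k) := by clear * - b3 b5 b7 y13 z45; omega
              have kk746 : (2 * i + 2 * l + 2 * i2 + 4) ≤ (j + 3 * k + 2 * d1) := by clear * - b5 b7 y20 z45 z46 z49 z50; linarith
              have kk747 : (d1) ≤ (l + 1) := by clear * - v15; omega
              have kk748 : (i + i2 + 1) ≤ (Q + k) := by clear * - b10 b5 b9 z45 z50; omega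
              have kk749 : (d1) ≤ (i + l + 2) := by clear * - v15 y13 y20; omega
              have kk750 : (k) ≤ (i2) := by clear * - b5 y19 y22; omega
              have r751 : (2 * n + i + l + i2 - d1 + 1) % 2 = 0 := by clear * - ev n1p n2p n3p q1; omega
              have r752 : (k - j) % 2 = 0 := by clear * - ev n1p n2p n3p q1; omega
              clear * - al a1 tt x1 kk743 kk744 kk745 kk746 kk747 kk748 kk749 kk750 r751 r752
              exact midP al (k - j) (2 * n + i + l + i2 - d1 + 1) (n + i + l + i2 - k - d1 + 2) (n) (n + k) (by omega) (fun t h1 h2 => (cE (cI (qf x1 al 1 t (t + (d1 - n)) (by omega)) (ab tt al 0 (t + (d1 - n)) ((n + i + l + i2 - d1 + 1) - t) (by omega))) (sh al 1 ((n + i + l + i2 - d1 + 1) - t) ((2 * n + i + l + i2 - d1 + 1) - t) (by omega)))) (fun t h1 h2 => (cE (qf a1 al 1 t (t + (k - n - j)) (by omega)) (sh al 1 (t + (k - n - j)) (t + (k - j)) (by omega))))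
          · by_cases v17 : (n + i2) ≤ (i + k + l + d1 + 2)
            · have kk753 : (n + j + i2) ≤ (2 * k + l + d1) := by clear * - b1 b10 b11 b5 v17 z46 z51; linarith
              have kk754 : (2 * k + l + d1 + 2) ≤ (2 * n + j + i2) := by clear * - b10 b11 b5 b7 b8 b9 z46 z49 z51; linarith
              have kk755 : (i + 2 * k + l + d1 + 2) ≤ (n + Q + j + i2) := by clear * - b10 b11 b3 b5 b6 z49 z50; linarith
              have kk756 : (Q + d1) ≤ (i2 + l2 + 1) := by clear * - b11 y20 z46; omega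
              have kk757 : (i2) ≤ (i + d1) := by clear * - b10 b5 b7 b8 b9 z45; omega
              have kk758 : (i2 + l2) ≤ (k + l) := by clear * - y22; omega
              have kk759 : (n + i2) ≤ (i + k + l + d1 + 2) := by clear * - v17; omega
              have kk760 : (k + l + l2 + 2) ≤ (n + j) := by clear * - b7; omega
              clear * - al a1 c x1 kk753 kk754 kk755 kk756 kk757 kk758 kk759 kk760
              exact al.ubQ (2 * k + l + d1 - n - j - i2 + 1) (by omega) (by omega) fun t h1 h2 => (cE (sh al 2 t (t + (2 * n)) (by omega)) (cE (pb (show Par W (i + k + l + d1 - i2 + 2) (k + l + l2 + 2) (n + i2 - k - l - d1 - 1) from fun t h1 h2 => (cE (sh al (-1) t (t + (-n)) (by omega)) (cE (cE (pb c al (-1) (t + (-n)) (t + (i2 - k - l - 1)) (by omega)) (pb x1 al 0 (t + (i2 - k - l - 1)) (t + (i2 - k - l - d1 - 1)) (by omega))) (sh al 1 (t + (i2 - k - l - d1 - 1)) (t + (n + i2 - k - l -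 d1 - 1)) (by omega))))) al 1 (t + (2 * n)) (t + (k + l + d1 - i2 + 1)) (by omega)) (qf a1 al 1 (t + (k + l + d1 - i2 + 1)) (t + (2 * k + l + d1 - n - j - i2 + 1)) (by omega))))
            · have kk761 : (n + j + i2) ≤ (2 * k + l + d1) := by clear * - b5 y19 y22 z46 z51 ev n1p n2p n3p q1; omega
              have kk762 : (2 * k + l + d1 + 2) ≤ (2 * n + j + i2) := by clear * - b10 b11 b5 b7 b8 b9 z46 z49 z51; linarith
              have kk763 : (k) ≤ (Q + j) := by clear * - b3 b5 b6 b7 y13; omega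
              have kk764 : (Q + d1) ≤ (i2 + l2 + 1) := by clear * - b11 y20 z46; omega
              have kk765 : (i2) ≤ (i + d1) := by clear * - b10 b5 b7 b8 b9 z45; omega
              have kk766 : (i2 + l2) ≤ (k + l) := by clear * - y22; omega
              have kk767 : (i + k + l + d1 + 2) ≤ (n + i2) := by clear * - v17; omega
              have kk768 : (k + l + l2 + 2) ≤ (n + j) := by clear * - b7; omega
              clear * - al a1 c x1 kk761 kk762 kk763 kk764 kk765 kk766 kk767 kk768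
              exact al.ubQ (2 * k + l + d1 - n - j - i2 + 1) (by omega) (by omega) fun t h1 h2 => (cE (sh al 2 t (t + (2 * n)) (by omega)) (cE (pb (show Par W (i + k + l + d1 - i2 + 2) (k + l + l2 + 2) (n + i2 - k - l - d1 - 1) from fun t h1 h2 => (cE (sh al (-1) t (t + (-n)) (by omega)) (cE (cE (pb c al (-1) (t + (-n)) (t + (i2 - k - l - 1)) (by omega)) (pb x1 al 0 (t + (i2 - k - l - 1)) (t + (i2 - k - l - d1 - 1)) (by omega))) (sh al 1 (t + (i2 - k - l - d1 - 1)) (t + (n + i2 - k - l - d1 - 1)) (by omega))))) al 1 (t + (2 * n)) (t + (k + l + d1 - i2 + 1)) (by omega)) (qf a1 al 1 (t + (k + l + d1 - i2 + 1)) (t + (2 * k + l + d1 - n - j - i2 + 1)) (by omega))))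
      · have kk769 : (2 * k + l + d1 + 2) ≤ (n + j + i2) := by clear * - b11 b7 z49; omega
        have kk770 : (j + i2) ≤ (2 * k + l + d1) := by clear * - b11 b5 b7 b8 b9 y22 z45 z49; linarith
        have kk771 : (n + i2) ≤ (2 * k + l + d1 + 1) := by clear * - b9 y13 y20 y22; omega
        have kk772 : (i2) ≤ (i + d1) := by clear * - b10 b5 b7 b8 b9 z45; omega
        have kk773 : (i2 + l2) ≤ (k + l) := by clear * - y22; omega
        have kk774 : (i + j + 1) ≤ (k) := by clear * - b1 b5 z45; omega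
        have kk775 : (k + d1) ≤ (i2 + l2 + 1) := by clear * - b11 b5 y19 z45 z49; omega
        clear * - al a1 c x1 kk769 kk770 kk771 kk772 kk773 kk774 kk775
        exact al.ubP (n + j + i2 - 2 * k - l - d1 - 1) (by omega) (by omega) fun t h1 h2 => (cE (qf (show Par W (i + k + l + d1 - i2 + 2) (k + l + l2 + 2) (n + i2 - k - l - d1 - 1) from fun t h1 h2 => (cE (sh al (-1) t (t + (-n)) (by omega)) (cE (cE (pb c al (-1) (t + (-n)) (t + (i2 - k - l - 1)) (by omega)) (pb x1 al 0 (t + (i2 - k - l - 1)) (t + (i2 - k - l - d1 - 1)) (by omega))) (sh al 1 (t + (i2 - k - l - d1 - 1)) (t + (n + i2 - k - l - d1 - 1)) (by omega))))) al (-1) t (t + (2 * n + i2 - k - l - d1 - 1)) (by omega)) (pb a1 al 1 (t + (2 * n + i2 - k - l - d1 - 1)) (t + (n + j + i2 - 2 * k - l - d1 - 1)) (by omega)))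
  · have kk776 : (i + 1) ≤ (k) := by clear * - b10 b9; omega
    have kk777 : (0) ≤ (l) := by clear * - b10 b11 b4 b6 b8 b9 y22 z45; linarith
    have kk778 : (i + 1) ≤ (j) := by clear * - b10 b11 b3 b7 b9 y22 z45; linarith
    have kk779 : (j) ≤ (k + l) := by clear * - b10 b11 b4 b6 b8 b9 y22 z45; linarith
    have kk780 : (Q) ≤ (k + 1) := by clear * - b4; omega
    have kk781 : (2 * k) ≤ (j + i2) := by clear * - y19 y22 z45; omega
    have kk782 : (0) ≤ (i + 1) := by clear * - y13 y20; omega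
    have kk783 : (j) ≤ (k) := by clear * - b4 b6; omega
    have kk784 : (0) ≤ (l + 1) := by clear * - b10 b11 b4 b6 b8 b9 y22 z45; linarith
    have kk785 : (j) ≤ (k + l + 1) := by clear * - b10 b11 b4 b6 b8 b9 y22 z45; linarith
    have kk786 : (k) ≤ (i2) := by clear * - b5 y19 y22; omega
    have kk787 : (i + i2 + 1) ≤ (Q + k) := by clear * - b0 b10 b11 b3 b6 b7 b9 z45; linarith
    have kk788 : (i2) ≤ (k + l + 1) := by clear * - b10 b8 b9; omega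
    have r789 : (j - k) % 2 = 0 := by clear * - ev n1p n2p n3p q1; omega
    have r790 : (k - i) % 2 = 0 := by clear * - ev n1p n2p n3p q1; omega
    have r791 : (i + l + i2 - 2 * n + 1) % 2 = 0 := by clear * - ev n1p n2p n3p q1; omega
    clear * - al a1 b tt n1 kk776 kk777 kk778 kk779 kk780 kk781 kk782 kk783 kk784 kk785 kk786 kk787 kk788 r789 r790 r791
    exact ivt al.ninv (i - n + 1) (i + l - n + 1) (k - i) (i + k - n - j + 1) (k - n) (j - k) (k - n) (j - n) 0 (fun t h1 h2 => (cE (qf b al (-1) t (t + (n + k - i)) (by omega)) (sh al (-1) (t + (n + k - i)) (t + (k - i)) (by omega)))) (fun t h1 h2 => (cE (sh al 2 t (t + (2 * n)) (by omega)) (cE (pb a1 al 1 (t + (2 * n)) (t + (n + j - k)) (by omega)) (sh al (-1) (t + (n + j - k)) (t + (j - k)) (by omega))))) (fun hh => n1.f0 (rEE (sh al (-1) (j) (j - n) (by omega)) (sh al (-1) (k) (k - n) (by omega)) (Eq.symm (Eq.symm hh)))) (by omega) (Q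 - n) (i2 - n) (i + l + i2 - 2 * n + 1) 0 0 (fun t h1 h2 => (cI (sh al 1 t (t + (n)) (by omega)) (cE (qa tt al 0 (t + (n)) ((i + l + i2 - n + 1) - t) (by omega)) (sh al (-1) ((i + l + i2 - n + 1) - t) ((i + l + i2 - 2 * n + 1) - t) (by omega))))) (by omega)

theorem yf2_24 {W : ℤ → G} {n Q i j k l i2 l2 i3 : ℤ} (al : AL W n Q)
    (hy : (0) ≤ (i) ∧ (i) ≤ (j) ∧ (j + 1) ≤ (Q) ∧ (Q) ≤ (k) ∧ (k + 1) ≤ (n) ∧ (Q) ≤ (i + l + 1) ∧ (k + l + 2) ≤ (n) ∧ (Q) ≤ (i2) ∧ (i2) ≤ (i + l + 1) ∧ (Q) ≤ (i2 + l2 + 1) ∧ (i2 + l2 + 2) ≤ (n) ∧ (n) ≤ (k + l + l2 + 2) ∧ (k + l + l2 + 3) ≤ (n + Q) ∧ (0) ≤ (i3) ∧ (n + i3) ≤ (k + l + l2 + 2) ∧ (k + i2 + l2 + 2) ≤ (n + j + i3) ∧ (j + i3 + 1) ≤ (k) ∧ (k + i2 + l2 + 2) ≤ (n + i3) ∧ (i + l + 1) ≤ (i2 + l2) ∧ (i) ≤ (i3) ∧ (i3) ≤ (i) ∧ (k + l) ≤ (i2 + l2) ∧ (i2 + l2) ≤ (k + l))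
    (a1 : Par W (0) (j) (k - j))
    (a2 : Par W (Q + j - k) (j) (k - j))
    (s1 : Ant W (0) (i) (i + j))
    (s2 : Ant W (j + 1) (Q) (i + j))
    (b : Par W (i + 1) (i + l + 1) (k - i))
    (tt : Ant W (Q) (i2) (i + l + i2 + 1))
    (c : Par W (i2 + 1) (i2 + l2 + 1) (k + l - i2 + 1))
    (u1 : Ant W (0) (i3) (k + l + l2 + i3 - n + 2))
    (u2 : Ant W (k + l + l2 - n + 3) (Q) (k + l + l2 + i3 - n + 2))
    (D1 : Par W (i3 + 1) (Q) (i2 + l2 - i3 + 1))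
    (D2 : Par W (i2 + l2 + 2) (n) (i3 - i2 - l2 - 1))
    {L : ℤ} (mx : ∀ a b g, 0 < g → g < n → Par W a b g → b - a ≤ L)
    (hL : L ≤ (n - j - 3) ∧ L ≤ (n + Q - k - 3) ∧ L ≤ (n - l - 3) ∧ L ≤ (n + i - k - 2) ∧ L ≤ (n - l2 - 3) ∧ L ≤ (n + i3 - Q - 2) ∧ L ≤ (i2 + l2 - 1) ∧ L ≤ (n + i2 - k - l - 3))
    (bd0 : Bd W n L (j) (i) (k))
    (bd2 : Bd W n L (k + l + l2 - n + 2) (i3) (i2 + l2 + 1))
    (n1 : Nd W (j) (i) (k))
    (n2 : Nd W (i + l + 1) (i2) (k + l + 1))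
    (n3 : Nd W (k + l + l2 - n + 2) (i3) (i2 + l2 + 1))
    (d1 : ℤ) (q1 : d1 % 2 = 0) (x1 : Par W (i + 1) (k + l - d1 + 1) d1)
    (b0 : (2 * i + j + 1) ≤ (k))
    (b1 : (2 * n + 2 * Q + i3) ≤ (k + l + 2 * i2 + 3 * l2 + 5))
    (b2 : (n + i + 2 * i2) ≤ (j + 2 * k + 2 * l + 3))
    (b3 : (Q + 1) ≤ (k))
    (b4 : (2 * k + l + i3) ≤ (i + 2 * i2 + l2))
    (b5 : (j + 2) ≤ (Q))
    (b6 : (k + l + l2 + 3) ≤ (n + j))
    (b7 : (3 * k + i2) ≤ (4 * i + l + 2))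
    (b8 : (l2 + d1 + 2) ≤ (n))
    (b9 : (2 * n + j + 4 * i2 + l2 + i3) ≤ (i + 5 * k + 3 * l + 2 * d1 + 3)) : False := by
  have ev := al.ev
  obtain ⟨y0, y1, y2, y3, y4, y5, y6, y7, y8, y9, y10, y11, y12, y13, y14, y15, y16, y17, y18, y19, y20, y21, y22⟩ := id hy
  have n1p := And.intro n1.p1 n1.p2
  have n2p := And.intro n2.p1 n2.p2
  have n3p := And.intro n3.p1 n3.p2
  by_cases z52 : (3 * k + 3 * l + l2 + 6) ≤ (2 * n + 2 * i2 + i3)
  · have kk792 : (i + 1) ≤ (k) := by clear * - b2 b3 b4 b5 z52; omega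
    have kk793 : (3 * k + 3 * l + l2 + 6) ≤ (2 * n + 2 * i2 + i3) := by clear * - z52; omega
    have kk794 : (3 * k + l + l2 + 4) ≤ (2 * n + 2 * i2 + i3) := by clear * - b1 b2 b3 b5 b6 b7 b8 b9 z52; linarith
    have kk795 : (k + l + l2 + 4) ≤ (2 * n + i3) := by clear * - b2 b3 b4 b5 b7 z52; omega
    have kk796 : (l2 + i3) ≤ (i + l) := by clear * - b4 y22; omega
    have kk797 : (i + l2 + i3 + 2) ≤ (2 * Q + l) := by clear * - b2 b3 b4 b5 y22 z52; omega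
    have kk798 : (i + 2 * i2 + l2 + i3 + 2) ≤ (2 * Q + 2 * k + l) := by clear * - b2 b3 b4 b5 b6; omega
    have kk799 : (Q) ≤ (l2 + i3 + 1) := by clear * - b1 b2 b5 b7 b8 b9 y21 z52; linarith
    have kk800 : (n + i3) ≤ (k + l + l2 + 2) := by clear * - b2 b3 b4 b5; omega
    have kk801 : (i2 + l2 + i3) ≤ (i + k + l) := by clear * - y20 y22; omega
    have kk802 : (Q + i) ≤ (i2 + l2 + i3 + 1) := by clear * - b1 b2 b3 b5 b6 b7 z52; linarith
    have kk803 : (n + i) ≤ (k + l + l2 + 2) := by clear * - b1 b2 b5 z52; omega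
    have r804 : (2 * n + i2 + l2 + i3 + 1) % 2 = 0 := by clear * - ev n1p n2p n3p q1; omega
    have r805 : (k - i) % 2 = 0 := by clear * - ev n1p n2p n3p q1; omega
    have r806 : (2 * n + i + l + i2 + 1) % 2 = 0 := by clear * - ev n1p n2p n3p q1; omega
    clear * - al b tt c u2 kk792 kk793 kk794 kk795 kk796 kk797 kk798 kk799 kk800 kk801 kk802 kk803 r804 r805 r806
    exact mid2 al (k - i) (2 * n + i2 + l2 + i3 + 1) (2 * n + i + l + i2 + 1) (n + i2 + l2 + i3 - Q + 2) (2 * n + i2 + i3 - k - l - 1) (-1) (n + i + 1) (n + k + l + 1) (by omega) (fun t h1 h2 => ⟨by omega, (cE (cI (qf c al 1 t (t + (k + l - n - i2 + 1)) (by omega)) (ab u2 al 1 (t + (k + l - n - i2 + 1)) ((n + i2 + l2 + i3 + 1) - t) (by omega))) (sh al 1 ((n + i2 + l2 + i3 + 1) - t) ((2 * n + i2 + l2 + i3 + 1) - t) (by omega)))⟩) (fun t h1 h2 => ⟨by omega, (cE (ab tt al 1 t ((n + i + l + i2 + 1) - t) (by omega)) (sh al 1 ((n + i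 + l + i2 + 1) - t) ((2 * n + i + l + i2 + 1) - t) (by omega)))⟩) (fun t h1 h2 => (cE (qf b al 1 t (t + (k - n - i)) (by omega)) (sh al 1 (t + (k - n - i)) (t + (k - i)) (by omega))))
  · by_cases z53 : (3 * k + 2 * l + l2 + d1 + 3) ≤ (2 * n + 2 * j + i2)
    · have kk807 : (k + l + d1 + 2) ≤ (n + i2) := by clear * - b8 y21; omega
      have kk808 : (2 * i + k + l + d1 + 3) ≤ (n + i2 + 2 * i3) := by clear * - b8 y19 y21 ev n1p n2p n3p q1; omega
      have kk809 : (4 * i + k + l + 3 * d1 + 1) ≤ (n + 3 * i2 + 2 * l2 + 2 * i3) := by clear * - b4 b8 b9 y19 y21 z52 z53; linarith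
      have kk810 : (2 * i + k + l + 3 * d1 + 1) ≤ (n + 3 * i2 + 2 * l2) := by clear * - b4 b8 b9 y19 y21 z52 z53; linarith
      have kk811 : (i2) ≤ (i + d1) := by clear * - b4 b7 b8 b9 y19 y21 z52 z53; linarith
      have kk812 : (i2 + l2) ≤ (k + l) := by clear * - y22; omega
      have kk813 : (i3) ≤ (i) := by clear * - y20; omega
      have kk814 : (i2 + l2 + i3 + 1) ≤ (Q + i + d1) := by clear * - b4 b5 b9 y19 z53; omega
      have r815 : (n + k + l + l2 + i3 + 2) % 2 = 0 := by clear * - ev n1p n2p n3p q1; omega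
      have r816 : (n + i2 - k - l - d1 - 1) % 2 = 0 := by clear * - ev n1p n2p n3p q1; omega
      clear * - al c u2 x1 kk807 kk808 kk809 kk810 kk811 kk812 kk813 kk814 r815 r816
      exact midP al (n + i2 - k - l - d1 - 1) (n + k + l + l2 + i3 + 2) (i + k + l + d1 - i2 + 2) (i + k + l + d1 - i2 + 2) (n + i2 + l2 - d1 + 1) (by omega) (fun t h1 h2 => (cE (ab u2 al 1 t ((k + l + l2 + i3 + 2) - t) (by omega)) (sh al 1 ((k + l + l2 + i3 + 2) - t) ((n + k + l + l2 + i3 + 2) - t) (by omega)))) (fun t h1 h2 => (qf (show Par W (i + k + l + d1 - i2 + 2) (k + l + l2 + 2) (n + i2 - k - l - d1 - 1) from fun t h1 h2 => (cE (sh al (-1) t (t + (-n)) (by omega)) (cE (cE (pb c al (-1) (t + (-n)) (t + (i2 - k - l - 1)) (by omega)) (pb x1 al 0 (t + (i2 - k - l - 1)) (t + (i2 - k - l - d1 - 1)) (by omega))) (sh al 1 (t + (i2 - k - l - d1 - 1)) (t + (n + i2 - k - l - d1 - 1)) (by omega))))) al 0 t (t + (n + i2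 - k - l - d1 - 1)) (by omega)))
    · by_cases z54 : (n + j) ≤ (k + l + l2 + i3 + 2)
      · by_cases z55 : (k + l + i2 + 2 * l2 + 5) ≤ (n + 2 * Q + d1)
        · have kk817 : (k + l + d1 + 2) ≤ (n + i2) := by clear * - b8 y21; omega
          have kk818 : (k + l + i2 + 2 * l2 + 5) ≤ (n + 2 * Q + d1) := by clear * - z55; omega
          have kk819 : (2 * i + k + l + d1 + 3) ≤ (n + i2 + 2 * i3) := by clear * - b8 y19 y21 ev n1p n2p n3p q1; omega
          have kk820 : (k + l + d1 + 3) ≤ (n + i2) := by clear * - b8 y21 ev n1p n2p n3p q1; omega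
          have kk821 : (i2) ≤ (i + d1) := by clear * - b0 b4 b6 b7 b8 y21 z52 z53 z54; linarith
          have kk822 : (i2 + l2) ≤ (k + l) := by clear * - y22; omega
          have kk823 : (i3 + d1) ≤ (i2 + l2 + 1) := by clear * - b2 b4 b6 b8 y21 z53; omega
          have kk824 : (i + d1) ≤ (i2 + l2 + 1) := by clear * - b0 b4 b6 b8 y21 z52 z54; linarith
          have r825 : (k + l + l2 + i3 - n + 2) % 2 = 0 := by clear * - ev n1p n2p n3p q1; omega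
          have r826 : (n + i2 - k - l - d1 - 1) % 2 = 0 := by clear * - ev n1p n2p n3p q1; omega
          clear * - al c u2 x1 kk817 kk818 kk819 kk820 kk821 kk822 kk823 kk824 r825 r826
          exact midP al (n + i2 - k - l - d1 - 1) (k + l + l2 + i3 - n + 2) (k + l + l2 - n + 3) (i + k + l + d1 - n - i2 + 2) (i2 + l2 - d1 + 1) (by omega) (fun t h1 h2 => (qa u2 al 0 t ((k + l + l2 + i3 - n + 2) - t) (by omega))) (fun t h1 h2 => (cE (qf (show Par W (i + k + l + d1 - i2 + 2) (k + l + l2 + 2) (n + i2 - k - l - d1 - 1) from fun t h1 h2 => (cE (sh al (-1) t (t + (-n)) (by omega)) (cE (cE (pb c al (-1) (t + (-n)) (t + (i2 - k - l - 1)) (by omega)) (pb x1 al 0 (t + (i2 - k - l - 1)) (t + (i2 - k - l - d1 - 1)) (by omega))) (sh al 1 (t + (i2 - k - l - d1 - 1)) (t + (n + i2 - k - l - d1 - 1)) (by omega))))) al (-1) t (t + (2 * n + i2 - k - l - d1 - 1)) (by omega)) (sh al (-1) (t + (2 * n + i2 - k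 - l - d1 - 1)) (t + (n + i2 - k - l - d1 - 1)) (by omega))))
        · by_cases v18 : (n + i2) ≤ (i + k + l + d1 + 2)
          · have kk827 : (n + j + i2) ≤ (2 * k + l + d1) := by clear * - b6 z53; omega
            have kk828 : (2 * k + l + d1 + 2) ≤ (2 * n + j + i2) := by clear * - b0 b4 b5 b6 b7 v18 z52 z54 z55; linarith
            have kk829 : (i + 2 * k + l + d1 + 2) ≤ (n + Q + j + i2) := by clear * - b4 b5 b6 y19 z52 z55; omega
            have kk830 : (Q + d1) ≤ (i2 + l2 + 1) := by clear * - b5 b6 z55; omega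
            have kk831 : (i2) ≤ (i + d1) := by clear * - b0 b4 b6 b7 b8 v18 y21 z52 z54; linarith
            have kk832 : (i2 + l2) ≤ (k + l) := by clear * - y22; omega
            have kk833 : (n + i2) ≤ (i + k + l + d1 + 2) := by clear * - v18; omega
            have kk834 : (k + l + l2 + 2) ≤ (n + j) := by clear * - b6; omega
            clear * - al a1 c x1 kk827 kk828 kk829 kk830 kk831 kk832 kk833 kk834
            exact al.ubQ (2 * k + l + d1 - n - j - i2 + 1) (by omega) (by omega) fun t h1 h2 => (cE (sh al 2 t (t + (2 * n)) (by omega)) (cE (pb (show Par W (i + k + l + d1 - i2 + 2) (k + l + l2 + 2) (n + i2 - k - l - d1 - 1) from fun t h1 h2 => (cE (sh al (-1) t (t + (-n)) (by omega)) (cE (cE (pb c al (-1) (t + (-n)) (t + (i2 - k - l - 1)) (by omega)) (pb x1 al 0 (t + (i2 - k - l - 1)) (t + (i2 - k - l - d1 - 1)) (by omega))) (sh al 1 (t + (i2 - k - l - d1 - 1)) (t + (n + i2 - k - l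 - d1 - 1)) (by omega))))) al 1 (t + (2 * n)) (t + (k + l + d1 - i2 + 1)) (by omega)) (qf a1 al 1 (t + (k + l + d1 - i2 + 1)) (t + (2 * k + l + d1 - n - j - i2 + 1)) (by omega))))
          · have kk835 : (n + j + i2) ≤ (2 * k + l + d1) := by clear * - b6 z53; omega
            have kk836 : (2 * k + l + d1 + 2) ≤ (2 * n + j + i2) := by clear * - b4 b6 b7 v18 z52 z53 z54; linarith
            have kk837 : (k) ≤ (Q + j) := by clear * - b2 b4 b5 b6 z54; omega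
            have kk838 : (Q + d1) ≤ (i2 + l2 + 1) := by clear * - b5 b6 z55; omega
            have kk839 : (i2) ≤ (i + d1) := by clear * - b4 b6 b7 v18 y21 z52 z53 z54; linarith
            have kk840 : (i2 + l2) ≤ (k + l) := by clear * - y22; omega
            have kk841 : (i + k + l + d1 + 2) ≤ (n + i2) := by clear * - v18; omega
            have kk842 : (k + l + l2 + 2) ≤ (n + j) := by clear * - b6; omega
            clear * - al a1 c x1 kk835 kk836 kk837 kk838 kk839 kk840 kk841 kk842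
            exact al.ubQ (2 * k + l + d1 - n - j - i2 + 1) (by omega) (by omega) fun t h1 h2 => (cE (sh al 2 t (t + (2 * n)) (by omega)) (cE (pb (show Par W (i + k + l + d1 - i2 + 2) (k + l + l2 + 2) (n + i2 - k - l - d1 - 1) from fun t h1 h2 => (cE (sh al (-1) t (t + (-n)) (by omega)) (cE (cE (pb c al (-1) (t + (-n)) (t + (i2 - k - l - 1)) (by omega)) (pb x1 al 0 (t + (i2 - k - l - 1)) (t + (i2 - k - l - d1 - 1)) (by omega))) (sh al 1 (t + (i2 - k - l - d1 - 1)) (t + (n + i2 - k - l - d1 - 1)) (by omega))))) al 1 (t + (2 * n)) (t + (k + l + d1 - i2 + 1)) (by omega)) (qf a1 al 1 (t + (k + l + d1 - i2 + 1)) (t + (2 * k + l + d1 - n - j - i2 + 1)) (by omega))))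
      · by_cases z56 : (k + l + i2 + 2 * l2 + 5) ≤ (n + 2 * Q + d1)
        · by_cases v19 : (i2 + l2 + i3 + 1) ≤ (Q + i + d1)
          · have kk843 : (k + l + d1 + 2) ≤ (n + i2) := by clear * - b8 y21; omega
            have kk844 : (2 * i + k + l + d1 + 3) ≤ (n + i2 + 2 * i3) := by clear * - b8 y19 y21 ev n1p n2p n3p q1; omega
            have kk845 : (4 * i + k + l + 3 * d1 + 1) ≤ (n + 3 * i2 + 2 * l2 + 2 * i3) := by clear * - b4 b6 b8 y19 y21 z52 z53; linarith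
            have kk846 : (2 * i + k + l + 3 * d1 + 1) ≤ (n + 3 * i2 + 2 * l2) := by clear * - b4 b6 b8 y19 y21 z52 z53; linarith
            have kk847 : (i2) ≤ (i + d1) := by clear * - b4 b6 b7 b8 y19 y21 z52 z53; linarith
            have kk848 : (i2 + l2) ≤ (k + l) := by clear * - y22; omega
            have kk849 : (i3) ≤ (i) := by clear * - y20; omega
            have kk850 : (i2 + l2 + i3 + 1) ≤ (Q + i + d1) := by clear * - v19; omega
            have r851 : (n + k + l + l2 + i3 + 2) % 2 = 0 := by clear * - ev n1p n2p n3p q1; omega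
            have r852 : (n + i2 - k - l - d1 - 1) % 2 = 0 := by clear * - ev n1p n2p n3p q1; omega
            clear * - al c u2 x1 kk843 kk844 kk845 kk846 kk847 kk848 kk849 kk850 r851 r852
            exact midP al (n + i2 - k - l - d1 - 1) (n + k + l + l2 + i3 + 2) (i + k + l + d1 - i2 + 2) (i + k + l + d1 - i2 + 2) (n + i2 + l2 - d1 + 1) (by omega) (fun t h1 h2 => (cE (ab u2 al 1 t ((k + l + l2 + i3 + 2) - t) (by omega)) (sh al 1 ((k + l + l2 + i3 + 2) - t) ((n + k + l + l2 + i3 + 2) - t) (by omega)))) (fun t h1 h2 => (qf (show Par W (i + k + l + d1 - i2 + 2) (k + l + l2 + 2) (n + i2 - k - l - d1 - 1) from fun t h1 h2 => (cE (sh al (-1) t (t + (-n)) (by omega)) (cE (cE (pb c al (-1) (t + (-n)) (t + (i2 - k - l - 1)) (by omega)) (pb x1 al 0 (t + (i2 - k - l - 1)) (t + (i2 - k - l - d1 - 1)) (by omega))) (sh al 1 (t + (i2 - k - l - d1 - 1)) (t + (n + i2 - k - l - d1 - 1)) (by omega))))) al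 0 t (t + (n + i2 - k - l - d1 - 1)) (by omega)))
          · have kk853 : (k + l + d1 + 2) ≤ (n + i2) := by clear * - b8 y21; omega
            have kk854 : (k + l + i2 + 2 * l2 + 5) ≤ (n + 2 * Q + d1) := by clear * - z56; omega
            have kk855 : (2 * i + k + l + d1 + 3) ≤ (n + 2 * Q + i2) := by clear * - b4 b5 b6 v19 z52 z53 z56; linarith
            have kk856 : (k + l + 2 * i3 + d1 + 3) ≤ (n + 2 * Q + i2) := by clear * - b4 b5 b6 b9 v19 z52 z56; linarith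
            have kk857 : (i2) ≤ (i + d1) := by clear * - b4 b6 b7 b8 v19 y21 z52 z53 z56; linarith
            have kk858 : (i2 + l2) ≤ (k + l) := by clear * - y22; omega
            have kk859 : (i3) ≤ (i) := by clear * - y20; omega
            have kk860 : (Q + i + d1) ≤ (i2 + l2 + i3 + 1) := by clear * - v19; omega
            have r861 : (n + k + l + l2 + i3 + 2) % 2 = 0 := by clear * - ev n1p n2p n3p q1; omega
            have r862 : (n + i2 - k - l - d1 - 1) % 2 = 0 := by clear * - ev n1p n2p n3p q1; omega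
            clear * - al c u2 x1 kk853 kk854 kk855 kk856 kk857 kk858 kk859 kk860 r861 r862
            exact midP al (n + i2 - k - l - d1 - 1) (n + k + l + l2 + i3 + 2) (k + l + l2 + i3 - Q + 3) (i + k + l + d1 - i2 + 2) (n + i2 + l2 - d1 + 1) (by omega) (fun t h1 h2 => (cE (ab u2 al 1 t ((k + l + l2 + i3 + 2) - t) (by omega)) (sh al 1 ((k + l + l2 + i3 + 2) - t) ((n + k + l + l2 + i3 + 2) - t) (by omega)))) (fun t h1 h2 => (qf (show Par W (i + k + l + d1 - i2 + 2) (k + l + l2 + 2) (n + i2 - k - l - d1 - 1) from fun t h1 h2 => (cE (sh al (-1) t (t + (-n)) (by omega)) (cE (cE (pb c al (-1) (t + (-n)) (t + (i2 - k - l - 1)) (by omega)) (pb x1 al 0 (t + (i2 - k - l - 1)) (t + (i2 - k - l - d1 - 1)) (by omega))) (sh al 1 (t + (i2 - k - l - d1 - 1)) (t + (n + i2 - k - l - d1 - 1)) (by omega))))) al 0 t (t + (n + i2 - k - l - d1 - 1)) (by omega)))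
        · have kk863 : (n + j + i2) ≤ (2 * k + l + d1) := by clear * - b6 z53; omega
          have kk864 : (2 * k + l + d1 + 2) ≤ (2 * n + j + i2) := by clear * - b4 b5 b6 b7 y19 z52 z53 z56; linarith
          have kk865 : (k) ≤ (Q + j) := by clear * - b2 b4 b5 y13 z54; omega
          have kk866 : (Q + d1) ≤ (i2 + l2 + 1) := by clear * - b5 b6 z56; omega
          have kk867 : (i2) ≤ (i + d1) := by clear * - b4 b6 b7 b8 y19 y21 z52 z53; linarith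
          have kk868 : (i2 + l2) ≤ (k + l) := by clear * - y22; omega
          have kk869 : (i + k + l + d1 + 2) ≤ (n + i2) := by clear * - b5 b6 y19 z54 z56; omega
          have kk870 : (k + l + l2 + 2) ≤ (n + j) := by clear * - b6; omega
          clear * - al a1 c x1 kk863 kk864 kk865 kk866 kk867 kk868 kk869 kk870
          exact al.ubQ (2 * k + l + d1 - n - j - i2 + 1) (by omega) (by omega) fun t h1 h2 => (cE (sh al 2 t (t + (2 * n)) (by omega)) (cE (pb (show Par W (i + k + l + d1 - i2 + 2) (k + l + l2 + 2) (n + i2 - k - l - d1 - 1) from fun t h1 h2 => (cE (sh al (-1) t (t + (-n)) (by omega)) (cE (cE (pb c al (-1) (t + (-n)) (t + (i2 - k - l - 1)) (by omega)) (pb x1 al 0 (t + (i2 - k - l - 1)) (t + (i2 - k - l - d1 - 1)) (by omega))) (sh al 1 (t + (i2 - k - l - d1 - 1)) (t + (n + i2 - k - l - d1 - 1)) (by omega))))) al 1 (t + (2 * n)) (t + (k + l + d1 - i2 + 1)) (by omega)) (qf a1 al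 1 (t + (k + l + d1 - i2 + 1)) (t + (2 * k + l + d1 - n - j - i2 + 1)) (by omega))))

theorem yf2_22 {W : ℤ → G} {n Q i j k l i2 l2 i3 : ℤ} (al : AL W n Q)
    (hy : (0) ≤ (i) ∧ (i) ≤ (j) ∧ (j + 1) ≤ (Q) ∧ (Q) ≤ (k) ∧ (k + 1) ≤ (n) ∧ (Q) ≤ (i + l + 1) ∧ (k + l + 2) ≤ (n) ∧ (Q) ≤ (i2) ∧ (i2) ≤ (i + l + 1) ∧ (Q) ≤ (i2 + l2 + 1) ∧ (i2 + l2 + 2) ≤ (n) ∧ (n) ≤ (k + l + l2 + 2) ∧ (k + l + l2 + 3) ≤ (n + Q) ∧ (0) ≤ (i3) ∧ (n + i3) ≤ (k + l + l2 + 2) ∧ (k + i2 + l2 + 2) ≤ (n + j + i3) ∧ (j + i3 + 1) ≤ (k) ∧ (k + i2 + l2 + 2) ≤ (n + i3) ∧ (i + l + 1) ≤ (i2 + l2) ∧ (i) ≤ (i3) ∧ (i3) ≤ (i) ∧ (k + l) ≤ (i2 + l2) ∧ (i2 + l2) ≤ (k + l))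
    (a1 : Par W (0) (j) (k - j))
    (a2 : Par W (Q + j - k) (j) (k - j))
    (s1 : Ant W (0) (i) (i + j))
    (s2 : Ant W (j + 1) (Q) (i + j))
    (b : Par W (i + 1) (i + l + 1) (k - i))
    (tt : Ant W (Q) (i2) (i + l + i2 + 1))
    (c : Par W (i2 + 1) (i2 + l2 + 1) (k + l - i2 + 1))
    (u1 : Ant W (0) (i3) (k + l + l2 + i3 - n + 2))
    (u2 : Ant W (k + l + l2 - n + 3) (Q) (k + l + l2 + i3 - n + 2))
    (D1 : Par W (i3 + 1) (Q) (i2 + l2 - i3 + 1))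
    (D2 : Par W (i2 + l2 + 2) (n) (i3 - i2 - l2 - 1))
    {L : ℤ} (mx : ∀ a b g, 0 < g → g < n → Par W a b g → b - a ≤ L)
    (hL : L ≤ (n - j - 3) ∧ L ≤ (n + Q - k - 3) ∧ L ≤ (n - l - 3) ∧ L ≤ (n + i - k - 2) ∧ L ≤ (n - l2 - 3) ∧ L ≤ (n + i3 - Q - 2) ∧ L ≤ (i2 + l2 - 1) ∧ L ≤ (n + i2 - k - l - 3))
    (bd0 : Bd W n L (j) (i) (k))
    (bd2 : Bd W n L (k + l + l2 - n + 2) (i3) (i2 + l2 + 1))
    (n1 : Nd W (j) (i) (k))
    (n2 : Nd W (i + l + 1) (i2) (k + l + 1))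
    (n3 : Nd W (k + l + l2 - n + 2) (i3) (i2 + l2 + 1))
    (d1 : ℤ) (q1 : d1 % 2 = 0) (x1 : Par W (i + 1) (k + l - d1 + 1) d1)
    (b0 : (2 * l + 3) ≤ (n))
    (b1 : (2 * i + j + 1) ≤ (k))
    (b2 : (2 * n + 2 * Q + i3) ≤ (k + l + 2 * i2 + 3 * l2 + 5))
    (b3 : (n + i + 2 * i2) ≤ (j + 2 * k + 2 * l + 3))
    (b4 : (Q + 1) ≤ (k))
    (b5 : (2 * k + l + i3) ≤ (i + 2 * i2 + l2))
    (b6 : (j + 2) ≤ (Q))
    (b7 : (k + l + l2 + 3) ≤ (n + j))
    (b8 : (3 * k + i2) ≤ (4 * i + l + 2))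
    (b9 : (n + i) ≤ (k + l2 + d1 + 1))
    (b10 : (l2 + d1 + 2) ≤ (n)) : False := by
  have ev := al.ev
  obtain ⟨y0, y1, y2, y3, y4, y5, y6, y7, y8, y9, y10, y11, y12, y13, y14, y15, y16, y17, y18, y19, y20, y21, y22⟩ := id hy
  have n1p := And.intro n1.p1 n1.p2
  have n2p := And.intro n2.p1 n2.p2
  have n3p := And.intro n3.p1 n3.p2
  by_cases z44 : (i + 5 * k + 3 * l + 2 * d1 + 4) ≤ (2 * n + j + 4 * i2 + l2 + i3)
  · exact yf2_23 al hy a1 a2 s1 s2 b tt c u1 u2 D1 D2 mx hL bd0 bd2 n1 n2 n3 d1 q1 x1 (by clear * - b0; omega) (by clear * - b1; omega) (by clear * - b2; omega) (by clear * - b3; omega) (by clear * - b4; omega) (by clear * - b5; omega) (by clear * - b6; omega) (by clear * - b7; omega) (by clear * - b8; omega) (by clear * - b9; omega) (by clear * - b10; omega) (by clear * - z44; omega)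
  · exact yf2_24 al hy a1 a2 s1 s2 b tt c u1 u2 D1 D2 mx hL bd0 bd2 n1 n2 n3 d1 q1 x1 (by clear * - b1; omega) (by clear * - b2; omega) (by clear * - b3; omega) (by clear * - b4; omega) (by clear * - b5; omega) (by clear * - b6; omega) (by clear * - b7; omega) (by clear * - b8; omega) (by clear * - b10; omega) (by clear * - z44; omega)

theorem yf2_21 {W : ℤ → G} {n Q i j k l i2 l2 i3 : ℤ} (al : AL W n Q)
    (hy : (0) ≤ (i) ∧ (i) ≤ (j) ∧ (j + 1) ≤ (Q) ∧ (Q) ≤ (k) ∧ (k + 1) ≤ (n) ∧ (Q) ≤ (i + l + 1) ∧ (k + l + 2) ≤ (n) ∧ (Q) ≤ (i2) ∧ (i2) ≤ (i + l + 1) ∧ (Q) ≤ (i2 + l2 + 1) ∧ (i2 + l2 + 2) ≤ (n) ∧ (n) ≤ (k + l + l2 + 2) ∧ (k + l + l2 + 3) ≤ (n + Q) ∧ (0) ≤ (i3) ∧ (n + i3) ≤ (k + l + l2 + 2) ∧ (k + i2 + l2 + 2) ≤ (n + j + i3) ∧ (j + i3 + 1) ≤ (k) ∧ (k + i2 + l2 + 2) ≤ (n + i3) ∧ (i + l + 1) ≤ (i2 + l2) ∧ (i) ≤ (i3) ∧ (i3) ≤ (i) ∧ (k + l) ≤ (i2 + l2) ∧ (i2 + l2) ≤ (k + l))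
    (a1 : Par W (0) (j) (k - j))
    (a2 : Par W (Q + j - k) (j) (k - j))
    (s1 : Ant W (0) (i) (i + j))
    (s2 : Ant W (j + 1) (Q) (i + j))
    (b : Par W (i + 1) (i + l + 1) (k - i))
    (tt : Ant W (Q) (i2) (i + l + i2 + 1))
    (c : Par W (i2 + 1) (i2 + l2 + 1) (k + l - i2 + 1))
    (u1 : Ant W (0) (i3) (k + l + l2 + i3 - n + 2))
    (u2 : Ant W (k + l + l2 - n + 3) (Q) (k + l + l2 + i3 - n + 2))
    (D1 : Par W (i3 + 1) (Q) (i2 + l2 - i3 + 1))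
    (D2 : Par W (i2 + l2 + 2) (n) (i3 - i2 - l2 - 1))
    {L : ℤ} (mx : ∀ a b g, 0 < g → g < n → Par W a b g → b - a ≤ L)
    (hL : L ≤ (n - j - 3) ∧ L ≤ (n + Q - k - 3) ∧ L ≤ (n - l - 3) ∧ L ≤ (n + i - k - 2) ∧ L ≤ (n - l2 - 3) ∧ L ≤ (n + i3 - Q - 2) ∧ L ≤ (i2 + l2 - 1) ∧ L ≤ (n + i2 - k - l - 3))
    (bd0 : Bd W n L (j) (i) (k))
    (bd2 : Bd W n L (k + l + l2 - n + 2) (i3) (i2 + l2 + 1))
    (n1 : Nd W (j) (i) (k))
    (n2 : Nd W (i + l + 1) (i2) (k + l + 1))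
    (n3 : Nd W (k + l + l2 - n + 2) (i3) (i2 + l2 + 1))
    (b0 : (2 * l + 3) ≤ (n))
    (b1 : (2 * i + j + 1) ≤ (k))
    (b2 : (2 * n + 2 * Q + i3) ≤ (k + l + 2 * i2 + 3 * l2 + 5))
    (b3 : (n + i + 2 * i2) ≤ (j + 2 * k + 2 * l + 3))
    (b4 : (Q + 1) ≤ (k))
    (b5 : (2 * k + l + i3) ≤ (i + 2 * i2 + l2))
    (b6 : (j + 2) ≤ (Q))
    (b7 : (k + l + l2 + 3) ≤ (n + j))
    (b8 : (3 * k + i2) ≤ (4 * i + l + 2)) : False := by
  have ev := al.ev
  obtain ⟨y0, y1, y2, y3, y4, y5, y6, y7, y8, y9, y10, y11, y12, y13, y14, y15, y16, y17, y18, y19, y20, y21, y22⟩ := id hy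
  have n1p := And.intro n1.p1 n1.p2
  have n2p := And.intro n2.p1 n2.p2
  have n3p := And.intro n3.p1 n3.p2
  have kk665 : (i + 1) ≤ (k) := by clear * - b3 b4 b5 b6 b7 y19; omega
  have kk666 : (l2 + 2) ≤ (n) := by clear * - b3 b4 b5 b6 b7 b8 y19 y22; linarith
  have r667 : (k - i) % 2 = 0 := by clear * - ev n1p n2p n3p; omega
  obtain ⟨d1, p1, x1⟩ : ∃ d1, ((n - l2 - 2) - (k - i) < d1 ∧ d1 ≤ (n - l2 - 2) ∧ 0 ≤ d1 ∧ d1 % 2 = 0) ∧ Par W (i + 1) ((k + l + 1) - d1) d1 := by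
    clear * - al b kk665 kk666 r667
    exact jmp (k - i) (i + 1) (k + l + 1) (n - l2 - 2) (by omega) (fun t h1 h2 => (qf b al 0 t (t + (k - i)) (by omega)))
  replace x1 : Par W (i + 1) (k + l - d1 + 1) d1 := x1.cq (by clear * -; omega)
  exact yf2_22 al hy a1 a2 s1 s2 b tt c u1 u2 D1 D2 mx hL bd0 bd2 n1 n2 n3 d1 (by clear * - p1; omega) x1 (by clear * - b0; omega) (by clear * - b1; omega) (by clear * - b2; omega) (by clear * - b3; omega) (by clear * - b4; omega) (by clear * - b5; omega) (by clear * - b6; omega) (by clear * - b7; omega) (by clear * - b8; omega) (by clear * - p1; omega) (by clear * - p1; omega)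

theorem yf2_20 {W : ℤ → G} {n Q i j k l i2 l2 i3 : ℤ} (al : AL W n Q)
    (hy : (0) ≤ (i) ∧ (i) ≤ (j) ∧ (j + 1) ≤ (Q) ∧ (Q) ≤ (k) ∧ (k + 1) ≤ (n) ∧ (Q) ≤ (i + l + 1) ∧ (k + l + 2) ≤ (n) ∧ (Q) ≤ (i2) ∧ (i2) ≤ (i + l + 1) ∧ (Q) ≤ (i2 + l2 + 1) ∧ (i2 + l2 + 2) ≤ (n) ∧ (n) ≤ (k + l + l2 + 2) ∧ (k + l + l2 + 3) ≤ (n + Q) ∧ (0) ≤ (i3) ∧ (n + i3) ≤ (k + l + l2 + 2) ∧ (k + i2 + l2 + 2) ≤ (n + j + i3) ∧ (j + i3 + 1) ≤ (k) ∧ (k + i2 + l2 + 2) ≤ (n + i3) ∧ (i + l + 1) ≤ (i2 + l2) ∧ (i) ≤ (i3) ∧ (i3) ≤ (i) ∧ (k + l) ≤ (i2 + l2) ∧ (i2 + l2) ≤ (k + l))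
    (a1 : Par W (0) (j) (k - j))
    (a2 : Par W (Q + j - k) (j) (k - j))
    (s1 : Ant W (0) (i) (i + j))
    (s2 : Ant W (j + 1) (Q) (i + j))
    (b : Par W (i + 1) (i + l + 1) (k - i))
    (tt : Ant W (Q) (i2) (i + l + i2 + 1))
    (c : Par W (i2 + 1) (i2 + l2 + 1) (k + l - i2 + 1))
    (u1 : Ant W (0) (i3) (k + l + l2 + i3 - n + 2))
    (u2 : Ant W (k + l + l2 - n + 3) (Q) (k + l + l2 + i3 - n + 2))
    (D1 : Par W (i3 + 1) (Q) (i2 + l2 - i3 + 1))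
    (D2 : Par W (i2 + l2 + 2) (n) (i3 - i2 - l2 - 1))
    {L : ℤ} (mx : ∀ a b g, 0 < g → g < n → Par W a b g → b - a ≤ L)
    (hL : L ≤ (n - j - 3) ∧ L ≤ (n + Q - k - 3) ∧ L ≤ (n - l - 3) ∧ L ≤ (n + i - k - 2) ∧ L ≤ (n - l2 - 3) ∧ L ≤ (n + i3 - Q - 2) ∧ L ≤ (i2 + l2 - 1) ∧ L ≤ (n + i2 - k - l - 3))
    (bd0 : Bd W n L (j) (i) (k))
    (bd2 : Bd W n L (k + l + l2 - n + 2) (i3) (i2 + l2 + 1))
    (n1 : Nd W (j) (i) (k))
    (n2 : Nd W (i + l + 1) (i2) (k + l + 1))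
    (n3 : Nd W (k + l + l2 - n + 2) (i3) (i2 + l2 + 1))
    (b0 : (2 * l + 3) ≤ (n))
    (b1 : (2 * i + j + 1) ≤ (k))
    (b2 : (2 * n + 2 * Q + i3) ≤ (k + l + 2 * i2 + 3 * l2 + 5))
    (b3 : (n + i + 2 * i2) ≤ (j + 2 * k + 2 * l + 3))
    (b4 : (Q + 1) ≤ (k))
    (b5 : (2 * k + l + i3) ≤ (i + 2 * i2 + l2))
    (b6 : (j + 2) ≤ (Q))
    (b7 : (k + l + l2 + 3) ≤ (n + j))
    (b8 : (2 * Q + k + i2) ≤ (2 * i + l + 2 * i3 + 2)) : False := by
  have ev := al.ev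
  obtain ⟨y0, y1, y2, y3, y4, y5, y6, y7, y8, y9, y10, y11, y12, y13, y14, y15, y16, y17, y18, y19, y20, y21, y22⟩ := id hy
  have n1p := And.intro n1.p1 n1.p2
  have n2p := And.intro n2.p1 n2.p2
  have n3p := And.intro n3.p1 n3.p2
  by_cases z43 : (4 * i + l + 3) ≤ (3 * k + i2)
  · have kk656 : (4 * i + l + 3) ≤ (3 * k + i2) := by clear * - z43; omega
    have kk657 : (2 * Q + 3 * k) ≤ (4 * i + l + i2 + 2) := by clear * - b5 b8 y22; omega
    have kk658 : (k + i2) ≤ (2 * i + l + 1) := by clear * - b3 b4 b5 b6 b7 b8; omega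
    have kk659 : (k) ≤ (i2) := by clear * - b5 y19 y22; omega
    have kk660 : (i2) ≤ (i + l + 1) := by clear * - b3 b4 b5 b6 b7 b8 z43; linarith
    have kk661 : (i) ≤ (i2) := by clear * - b3 b5 b6 b7 b8 y22 z43; linarith
    have kk662 : (i + i2 + 1) ≤ (Q + k) := by clear * - b0 b3 b5 b6 b7 b8 z43; linarith
    have kk663 : (i + 1) ≤ (Q) := by clear * - b3 b5 b6 b7 b8 z43; omega
    have r664 : (k + l + i2 - 2 * n + 1) % 2 = 0 := by clear * - ev n1p n2p n3p; omega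
    clear * - al b tt kk656 kk657 kk658 kk659 kk660 kk661 kk662 kk663 r664
    obtain ⟨t, ht⟩ : ∃ t, 2 * t = (k + l + i2 - 2 * n + 1) := ⟨(k + l + i2 - 2 * n + 1) / 2, by omega⟩
    exact al.ninv t (cE (cE (cE (cI (qf b al (-1) t (t + (n + k - i)) (by omega)) (ab tt al 0 (t + (n + k - i)) ((2 * i + l + i2 - n - k + 1) - t) (by omega))) (qf b al 0 ((2 * i + l + i2 - n - k + 1) - t) ((i + l + i2 - n + 1) - t) (by omega))) (qf b al 0 ((i + l + i2 - n + 1) - t) ((k + l + i2 - n + 1) - t) (by omega))) (sh al (-1) ((k + l + i2 - n + 1) - t) t (by omega)))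
  · exact yf2_21 al hy a1 a2 s1 s2 b tt c u1 u2 D1 D2 mx hL bd0 bd2 n1 n2 n3 (by clear * - b0; omega) (by clear * - b1; omega) (by clear * - b2; omega) (by clear * - b3; omega) (by clear * - b4; omega) (by clear * - b5; omega) (by clear * - b6; omega) (by clear * - b7; omega) (by clear * - z43; omega)

theorem yf2_19 {W : ℤ → G} {n Q i j k l i2 l2 i3 : ℤ} (al : AL W n Q)
    (hy : (0) ≤ (i) ∧ (i) ≤ (j) ∧ (j + 1) ≤ (Q) ∧ (Q) ≤ (k) ∧ (k + 1) ≤ (n) ∧ (Q) ≤ (i + l + 1) ∧ (k + l + 2) ≤ (n) ∧ (Q) ≤ (i2) ∧ (i2) ≤ (i + l + 1) ∧ (Q) ≤ (i2 + l2 + 1) ∧ (i2 + l2 + 2) ≤ (n) ∧ (n) ≤ (k + l + l2 + 2) ∧ (k + l + l2 + 3) ≤ (n + Q) ∧ (0) ≤ (i3) ∧ (n + i3) ≤ (k + l + l2 + 2) ∧ (k + i2 + l2 + 2) ≤ (n + j + i3) ∧ (j + i3 + 1) ≤ (k) ∧ (k + i2 + l2 + 2) ≤ (n + i3) ∧ (i + l + 1) ≤ (i2 + l2) ∧ (i) ≤ (i3) ∧ (i3) ≤ (i) ∧ (k + l) ≤ (i2 + l2) ∧ (i2 + l2) ≤ (k + l))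
    (a1 : Par W (0) (j) (k - j))
    (a2 : Par W (Q + j - k) (j) (k - j))
    (s1 : Ant W (0) (i) (i + j))
    (s2 : Ant W (j + 1) (Q) (i + j))
    (b : Par W (i + 1) (i + l + 1) (k - i))
    (tt : Ant W (Q) (i2) (i + l + i2 + 1))
    (c : Par W (i2 + 1) (i2 + l2 + 1) (k + l - i2 + 1))
    (u1 : Ant W (0) (i3) (k + l + l2 + i3 - n + 2))
    (u2 : Ant W (k + l + l2 - n + 3) (Q) (k + l + l2 + i3 - n + 2))
    (D1 : Par W (i3 + 1) (Q) (i2 + l2 - i3 + 1))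
    (D2 : Par W (i2 + l2 + 2) (n) (i3 - i2 - l2 - 1))
    {L : ℤ} (mx : ∀ a b g, 0 < g → g < n → Par W a b g → b - a ≤ L)
    (hL : L ≤ (n - j - 3) ∧ L ≤ (n + Q - k - 3) ∧ L ≤ (n - l - 3) ∧ L ≤ (n + i - k - 2) ∧ L ≤ (n - l2 - 3) ∧ L ≤ (n + i3 - Q - 2) ∧ L ≤ (i2 + l2 - 1) ∧ L ≤ (n + i2 - k - l - 3))
    (bd0 : Bd W n L (j) (i) (k))
    (bd2 : Bd W n L (k + l + l2 - n + 2) (i3) (i2 + l2 + 1))
    (n1 : Nd W (j) (i) (k))
    (n2 : Nd W (i + l + 1) (i2) (k + l + 1))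
    (n3 : Nd W (k + l + l2 - n + 2) (i3) (i2 + l2 + 1))
    (b0 : (2 * l + 3) ≤ (n))
    (b1 : (2 * i + j + 1) ≤ (k))
    (b2 : (2 * n + 2 * Q + i3) ≤ (k + l + 2 * i2 + 3 * l2 + 5))
    (b3 : (n + i + 2 * i2) ≤ (j + 2 * k + 2 * l + 3))
    (b4 : (Q + 1) ≤ (k))
    (b5 : (2 * k + l + i3) ≤ (i + 2 * i2 + l2))
    (b6 : (j + 2) ≤ (Q))
    (b7 : (k + l + l2 + 3) ≤ (n + j))
    (b8 : (2 * k + i2) ≤ (3 * i + l + 1)) : False := by
  have ev := al.ev
  obtain ⟨y0, y1, y2, y3, y4, y5, y6, y7, y8, y9, y10, y11, y12, y13, y14, y15, y16, y17, y18, y19, y20, y21, y22⟩ := id hy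
  have n1p := And.intro n1.p1 n1.p2
  have n2p := And.intro n2.p1 n2.p2
  have n3p := And.intro n3.p1 n3.p2
  by_cases z41 : (2 * i + l + 2 * i3 + 3) ≤ (2 * Q + k + i2)
  · by_cases z42 : (n + 2 * i + i3) ≤ (3 * k + i2 + l2 + 1)
    · have kk639 : (3 * k + i2 + l2 + 2) ≤ (n + 2 * i + j + i3) := by clear * - b7 b8 y19; omega
      have kk640 : (2 * i + j + i3) ≤ (3 * k + i2 + l2) := by clear * - b4 b5 b6 b8 y19 z41; omega
      have kk641 : (i3) ≤ (k) := by clear * - b3 b4 b5 b6 b7; omega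
      have kk642 : (2 * i + j + 1) ≤ (2 * k) := by clear * - b1 b4 b6 b8 y19 z41; omega
      have kk643 : (i + j + 1) ≤ (k) := by clear * - b1 b4 b6; omega
      have kk644 : (n + i3) ≤ (k + l + i2 + l2 + 2) := by clear * - b4 b5 b8 y19 y22 z41 z42; linarith
      have kk645 : (n + 2 * i + i3) ≤ (3 * k + i2 + l2 + 1) := by clear * - z42; omega
      have kk646 : (n + i + i3) ≤ (2 * k + l + i2 + l2 + 2) := by clear * - b4 b5 b8 y19 y22 z41 z42; linarith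
      clear * - al a1 b D2 kk639 kk640 kk641 kk642 kk643 kk644 kk645 kk646
      exact al.ubP (n + 2 * i + j + i3 - 3 * k - i2 - l2 - 1) (by omega) (by omega) fun t h1 h2 => (cE (cE (cE (qf D2 al (-1) t (t + (n + i3 - i2 - l2 - 1)) (by omega)) (pb b al 0 (t + (n + i3 - i2 - l2 - 1)) (t + (n + i + i3 - k - i2 - l2 - 1)) (by omega))) (pb b al 0 (t + (n + i + i3 - k - i2 - l2 - 1)) (t + (n + 2 * i + i3 - 2 * k - i2 - l2 - 1)) (by omega))) (pb a1 al 0 (t + (n + 2 * i + i3 - 2 * k - i2 - l2 - 1)) (t + (n + 2 * i + j + i3 - 3 * k - i2 - l2 - 1)) (by omega)))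
    · have kk647 : (3 * k + l + i2 + 2 * l2 + 5) ≤ (2 * n + 2 * i) := by clear * - b4 z41 z42; omega
      have kk648 : (2 * i + l + 2 * i3 + 2) ≤ (2 * Q + k + i2) := by clear * - z41; omega
      have kk649 : (0) ≤ (i3) := by clear * - y13; omega
      have kk650 : (n + 2 * i) ≤ (2 * k + l + l2 + i3 + 2) := by clear * - b1 b3 b4 b5 b8 y13 z41 z42; linarith
      have kk651 : (n + i) ≤ (k + l + l2 + i3 + 2) := by clear * - b1 b3 b4 b5 b6 y13; omega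
      have kk652 : (Q + k) ≤ (2 * i + l + 1) := by clear * - b4 b5 b8 y19 y22 z41; omega
      have kk653 : (Q + i2) ≤ (k + l + i3 + 1) := by clear * - b4 b8 y19 z41; omega
      have kk654 : (Q) ≤ (i + l + 1) := by clear * - b4 b5 b8 y19 y22 z41; omega
      have r655 : (2 * n + 3 * k + l + 2 * i3 - 2 * i - i2 + 1) % 2 = 0 := by clear * - ev n1p n2p n3p; omega
      clear * - al b u2 D2 kk647 kk648 kk649 kk650 kk651 kk652 kk653 kk654 r655
      obtain ⟨t, ht⟩ : ∃ t, 2 * t = (2 * n + 3 * k + l + 2 * i3 - 2 * i - i2 + 1) := ⟨(2 * n + 3 * k + l + 2 * i3 - 2 * i - i2 + 1) / 2, by omega⟩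
      exact al.ninv t (cE (cE (cI (cE (pb b al 1 t (t + (i - n - k)) (by omega)) (pb b al 0 (t + (i - n - k)) (t + (2 * i - n - 2 * k)) (by omega))) (qa u2 al 0 (t + (2 * i - n - 2 * k)) ((3 * k + l + l2 + i3 - 2 * i + 2) - t) (by omega))) (qf D2 al (-1) ((3 * k + l + l2 + i3 - 2 * i + 2) - t) ((n + 3 * k + l + 2 * i3 - 2 * i - i2 + 1) - t) (by omega))) (sh al 1 ((n + 3 * k + l + 2 * i3 - 2 * i - i2 + 1) - t) t (by omega)))
  · exact yf2_20 al hy a1 a2 s1 s2 b tt c u1 u2 D1 D2 mx hL bd0 bd2 n1 n2 n3 (by clear * - b0; omega) (by clear * - b1; omega) (by clear * - b2; omega) (by clear * - b3; omega) (by clear * - b4; omega) (by clear * - b5; omega) (by clear * - b6; omega) (by clear * - b7; omega) (by clear * - z41; omega)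

theorem yf2_18 {W : ℤ → G} {n Q i j k l i2 l2 i3 : ℤ} (al : AL W n Q)
    (hy : (0) ≤ (i) ∧ (i) ≤ (j) ∧ (j + 1) ≤ (Q) ∧ (Q) ≤ (k) ∧ (k + 1) ≤ (n) ∧ (Q) ≤ (i + l + 1) ∧ (k + l + 2) ≤ (n) ∧ (Q) ≤ (i2) ∧ (i2) ≤ (i + l + 1) ∧ (Q) ≤ (i2 + l2 + 1) ∧ (i2 + l2 + 2) ≤ (n) ∧ (n) ≤ (k + l + l2 + 2) ∧ (k + l + l2 + 3) ≤ (n + Q) ∧ (0) ≤ (i3) ∧ (n + i3) ≤ (k + l + l2 + 2) ∧ (k + i2 + l2 + 2) ≤ (n + j + i3) ∧ (j + i3 + 1) ≤ (k) ∧ (k + i2 + l2 + 2) ≤ (n + i3) ∧ (i + l + 1) ≤ (i2 + l2) ∧ (i) ≤ (i3) ∧ (i3) ≤ (i) ∧ (k + l) ≤ (i2 + l2) ∧ (i2 + l2) ≤ (k + l))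
    (a1 : Par W (0) (j) (k - j))
    (a2 : Par W (Q + j - k) (j) (k - j))
    (s1 : Ant W (0) (i) (i + j))
    (s2 : Ant W (j + 1) (Q) (i + j))
    (b : Par W (i + 1) (i + l + 1) (k - i))
    (tt : Ant W (Q) (i2) (i + l + i2 + 1))
    (c : Par W (i2 + 1) (i2 + l2 + 1) (k + l - i2 + 1))
    (u1 : Ant W (0) (i3) (k + l + l2 + i3 - n + 2))
    (u2 : Ant W (k + l + l2 - n + 3) (Q) (k + l + l2 + i3 - n + 2))
    (D1 : Par W (i3 + 1) (Q) (i2 + l2 - i3 + 1))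
    (D2 : Par W (i2 + l2 + 2) (n) (i3 - i2 - l2 - 1))
    {L : ℤ} (mx : ∀ a b g, 0 < g → g < n → Par W a b g → b - a ≤ L)
    (hL : L ≤ (n - j - 3) ∧ L ≤ (n + Q - k - 3) ∧ L ≤ (n - l - 3) ∧ L ≤ (n + i - k - 2) ∧ L ≤ (n - l2 - 3) ∧ L ≤ (n + i3 - Q - 2) ∧ L ≤ (i2 + l2 - 1) ∧ L ≤ (n + i2 - k - l - 3))
    (bd0 : Bd W n L (j) (i) (k))
    (bd2 : Bd W n L (k + l + l2 - n + 2) (i3) (i2 + l2 + 1))
    (n1 : Nd W (j) (i) (k))
    (n2 : Nd W (i + l + 1) (i2) (k + l + 1))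
    (n3 : Nd W (k + l + l2 - n + 2) (i3) (i2 + l2 + 1))
    (b0 : (2 * l + 3) ≤ (n))
    (b1 : (2 * i + j + 1) ≤ (k))
    (b2 : (2 * n + 2 * Q + i3) ≤ (k + l + 2 * i2 + 3 * l2 + 5))
    (b3 : (n + i + 2 * i2) ≤ (j + 2 * k + 2 * l + 3))
    (b4 : (Q + 1) ≤ (k))
    (b5 : (2 * k + l + i3) ≤ (i + 2 * i2 + l2))
    (b6 : (j + 2) ≤ (Q))
    (b7 : (k + l + l2 + 3) ≤ (n + j))
    (b8 : (2 * Q + 2 * k) ≤ (2 * i + i2 + l2 + i3 + 1)) : False := by
  have ev := al.ev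
  obtain ⟨y0, y1, y2, y3, y4, y5, y6, y7, y8, y9, y10, y11, y12, y13, y14, y15, y16, y17, y18, y19, y20, y21, y22⟩ := id hy
  have n1p := And.intro n1.p1 n1.p2
  have n2p := And.intro n2.p1 n2.p2
  have n3p := And.intro n3.p1 n3.p2
  by_cases z40 : (3 * i + l + 2) ≤ (2 * k + i2)
  · have kk632 : (3 * i + l + 3) ≤ (2 * k + i2) := by clear * - z40 ev n1p n2p n3p; omega
    have kk633 : (2 * Q + 2 * k) ≤ (3 * i + l + i2 + 2) := by clear * - b5 b8 y22; omega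
    have kk634 : (k) ≤ (i2) := by clear * - b5 y19 y22; omega
    have kk635 : (i2) ≤ (i + l + 1) := by clear * - b3 b4 b5 b6 b7 b8; omega
    have kk636 : (i + i2 + 1) ≤ (Q + k) := by clear * - b0 b3 b5 b6 b7 b8 z40; linarith
    have kk637 : (i + 1) ≤ (Q) := by clear * - b3 b5 b6 b7 b8 z40; omega
    have r638 : (2 * n + i + l + i2 + 1) % 2 = 0 := by clear * - ev n1p n2p n3p; omega
    clear * - al b tt kk632 kk633 kk634 kk635 kk636 kk637 r638
    obtain ⟨t, ht⟩ : ∃ t, 2 * t = (2 * n + i + l + i2 + 1) := ⟨(2 * n + i + l + i2 + 1) / 2, by omega⟩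
    exact al.ninv t (cE (cE (cI (qf b al 1 t (t + (k - n - i)) (by omega)) (ab tt al 0 (t + (k - n - i)) ((n + 2 * i + l + i2 - k + 1) - t) (by omega))) (qf b al 0 ((n + 2 * i + l + i2 - k + 1) - t) ((n + i + l + i2 + 1) - t) (by omega))) (sh al 1 ((n + i + l + i2 + 1) - t) t (by omega)))
  · exact yf2_19 al hy a1 a2 s1 s2 b tt c u1 u2 D1 D2 mx hL bd0 bd2 n1 n2 n3 (by clear * - b0; omega) (by clear * - b1; omega) (by clear * - b2; omega) (by clear * - b3; omega) (by clear * - b4; omega) (by clear * - b5; omega) (by clear * - b6; omega) (by clear * - b7; omega) (by clear * - z40; omega)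

theorem yf2_17 {W : ℤ → G} {n Q i j k l i2 l2 i3 : ℤ} (al : AL W n Q)
    (hy : (0) ≤ (i) ∧ (i) ≤ (j) ∧ (j + 1) ≤ (Q) ∧ (Q) ≤ (k) ∧ (k + 1) ≤ (n) ∧ (Q) ≤ (i + l + 1) ∧ (k + l + 2) ≤ (n) ∧ (Q) ≤ (i2) ∧ (i2) ≤ (i + l + 1) ∧ (Q) ≤ (i2 + l2 + 1) ∧ (i2 + l2 + 2) ≤ (n) ∧ (n) ≤ (k + l + l2 + 2) ∧ (k + l + l2 + 3) ≤ (n + Q) ∧ (0) ≤ (i3) ∧ (n + i3) ≤ (k + l + l2 + 2) ∧ (k + i2 + l2 + 2) ≤ (n + j + i3) ∧ (j + i3 + 1) ≤ (k) ∧ (k + i2 + l2 + 2) ≤ (n + i3) ∧ (i + l + 1) ≤ (i2 + l2) ∧ (i) ≤ (i3) ∧ (i3) ≤ (i) ∧ (k + l) ≤ (i2 + l2) ∧ (i2 + l2) ≤ (k + l))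
    (a1 : Par W (0) (j) (k - j))
    (a2 : Par W (Q + j - k) (j) (k - j))
    (s1 : Ant W (0) (i) (i + j))
    (s2 : Ant W (j + 1) (Q) (i + j))
    (b : Par W (i + 1) (i + l + 1) (k - i))
    (tt : Ant W (Q) (i2) (i + l + i2 + 1))
    (c : Par W (i2 + 1) (i2 + l2 + 1) (k + l - i2 + 1))
    (u1 : Ant W (0) (i3) (k + l + l2 + i3 - n + 2))
    (u2 : Ant W (k + l + l2 - n + 3) (Q) (k + l + l2 + i3 - n + 2))
    (D1 : Par W (i3 + 1) (Q) (i2 + l2 - i3 + 1))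
    (D2 : Par W (i2 + l2 + 2) (n) (i3 - i2 - l2 - 1))
    {L : ℤ} (mx : ∀ a b g, 0 < g → g < n → Par W a b g → b - a ≤ L)
    (hL : L ≤ (n - j - 3) ∧ L ≤ (n + Q - k - 3) ∧ L ≤ (n - l - 3) ∧ L ≤ (n + i - k - 2) ∧ L ≤ (n - l2 - 3) ∧ L ≤ (n + i3 - Q - 2) ∧ L ≤ (i2 + l2 - 1) ∧ L ≤ (n + i2 - k - l - 3))
    (bd0 : Bd W n L (j) (i) (k))
    (bd2 : Bd W n L (k + l + l2 - n + 2) (i3) (i2 + l2 + 1))
    (n1 : Nd W (j) (i) (k))
    (n2 : Nd W (i + l + 1) (i2) (k + l + 1))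
    (n3 : Nd W (k + l + l2 - n + 2) (i3) (i2 + l2 + 1))
    (b0 : (2 * l + 3) ≤ (n))
    (b1 : (n + 2 * Q + i2) ≤ (i + k + 2 * l + l2 + i3 + 4))
    (b2 : (2 * i + j + 1) ≤ (k))
    (b3 : (2 * n + 2 * Q + i3) ≤ (k + l + 2 * i2 + 3 * l2 + 5))
    (b4 : (n + i + 2 * i2) ≤ (j + 2 * k + 2 * l + 3))
    (b5 : (Q + 1) ≤ (k))
    (b6 : (2 * k + l + i3) ≤ (i + 2 * i2 + l2))
    (b7 : (j + 2) ≤ (Q))
    (b8 : (k + l + l2 + 3) ≤ (n + j))
    (b9 : (2 * i + i2 + l2 + i3 + 2) ≤ (2 * Q + 2 * k)) : False := by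
  have ev := al.ev
  obtain ⟨y0, y1, y2, y3, y4, y5, y6, y7, y8, y9, y10, y11, y12, y13, y14, y15, y16, y17, y18, y19, y20, y21, y22⟩ := id hy
  have n1p := And.intro n1.p1 n1.p2
  have n2p := And.intro n2.p1 n2.p2
  have n3p := And.intro n3.p1 n3.p2
  by_cases z36 : (3 * k + 2 * l + 2 * l2 + 6) ≤ (2 * n + 2 * Q + j)
  · by_cases z37 : (4 * k + 2 * l + l2 + 5) ≤ (2 * n + 2 * i + i2 + i3)
    · have kk571 : (2 * i + i2 + l2 + i3 + 3) ≤ (2 * Q + 2 * k) := by clear * - b9 ev n1p n2p n3p; omega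
      have kk572 : (4 * k + 2 * l + l2 + 4) ≤ (2 * n + 2 * i + i2 + i3) := by clear * - z37; omega
      have kk573 : (k) ≤ (i2) := by clear * - b6 y19 y22; omega
      have kk574 : (i2 + l2) ≤ (k + l) := by clear * - y22; omega
      have kk575 : (Q + 2 * k) ≤ (i + i2 + l2 + i3 + 1) := by clear * - b1 b6 b9 y19 z37; omega
      have kk576 : (Q) ≤ (l2 + i3 + 1) := by clear * - b0 b3 b4 b5 b7 y19 z36 z37; linarith
      have kk577 : (n + i + i2 + i3) ≤ (3 * k + 2 * l + 2) := by clear * - b3 b4 b5 b7 y22 z36; omega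
      have kk578 : (n + i3) ≤ (k + l + l2 + 2) := by clear * - b4 b5 b6 b7; omega
      have r579 : (2 * i + i2 + l2 + i3 - 2 * n - 2 * k + 1) % 2 = 0 := by clear * - ev n1p n2p n3p; omega
      clear * - al b c u2 kk571 kk572 kk573 kk574 kk575 kk576 kk577 kk578 r579
      obtain ⟨t, ht⟩ : ∃ t, 2 * t = (2 * i + i2 + l2 + i3 - 2 * n - 2 * k + 1) := ⟨(2 * i + i2 + l2 + i3 - 2 * n - 2 * k + 1) / 2, by omega⟩
      exact al.ninv t (cE (cI (cE (qf b al (-1) t (t + (n + k - i)) (by omega)) (pb (show Par W (k + l + 2) (k + l + l2 + 2) (n + i + i2 - 2 * k - l - 1) from fun t h1 h2 => (cE (sh al (-1) t (t + (-n)) (by omega)) (cE (cE (pb c al (-1) (t + (-n)) (t + (i2 - k - l - 1)) (by omega)) (pb b al 0 (t + (i2 - k - l - 1)) (t + (i + i2 - 2 * k - l - 1)) (by omega))) (sh al 1 (t + (i + i2 - 2 * k - l - 1)) (t + (n + i + i2 - 2 * k - l - 1)) (by omega))))) al (-1) (t + (n + k - i)) (t + (n + 3 * k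 + l - 2 * i - i2 + 1)) (by omega))) (ab u2 al 1 (t + (n + 3 * k + l - 2 * i - i2 + 1)) ((2 * i + i2 + l2 + i3 - n - 2 * k + 1) - t) (by omega))) (sh al (-1) ((2 * i + i2 + l2 + i3 - n - 2 * k + 1) - t) t (by omega)))
    · have kk580 : (2 * k + i2 + l2 + 2) ≤ (n + i + j + i3) := by clear * - b1 z36; omega
      have kk581 : (i + j + i3) ≤ (2 * k + i2 + l2) := by clear * - b1 b5 b6 b7 y19 z36 z37; linarith
      have kk582 : (i3) ≤ (k) := by clear * - b4 b5 b6 b7 z36; omega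
      have kk583 : (i + j + 1) ≤ (k) := by clear * - b2 b5 b7; omega
      have kk584 : (n + i3) ≤ (k + l + i2 + l2 + 2) := by clear * - b3 b4 b5 b6 b7 y13 y22 z36; linarith
      have kk585 : (n + i + i3) ≤ (2 * k + i2 + l2 + 1) := by clear * - b5 b6 b9 y13 z37; omega
      clear * - al a1 b D2 kk580 kk581 kk582 kk583 kk584 kk585
      exact al.ubP (n + i + j + i3 - 2 * k - i2 - l2 - 1) (by omega) (by omega) fun t h1 h2 => (cE (cE (qf D2 al (-1) t (t + (n + i3 - i2 - l2 - 1)) (by omega)) (pb b al 0 (t + (n + i3 - i2 - l2 - 1)) (t + (n + i + i3 - k - i2 - l2 - 1)) (by omega))) (pb a1 al 0 (t + (n + i + i3 - k - i2 - l2 - 1)) (t + (n + i + j + i3 - 2 * k - i2 - l2 - 1)) (by omega)))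
  · by_cases z38 : (2 * Q + 5 * k) ≤ (4 * i + j + 2 * l + 2 * i2 + 2)
    · by_cases z39 : (6 * i + 2 * l + 2 * i2 + 4) ≤ (j + 7 * k)
      · by_cases v12 : (2 * i + l + 1) ≤ (2 * k)
        · by_cases v13 : (2 * i + l + i2 + 1) ≤ (3 * k)
          · have kk586 : (j + 1) ≤ (k) := by clear * - b7 v13 z38; omega
            have kk587 : (2 * Q + 5 * k) ≤ (4 * i + j + 2 * l + 2 * i2 + 2) := by clear * - z38; omega
            have kk588 : (5 * k) ≤ (4 * i + j + 2 * l + 2 * i2 + 2) := by clear * - b4 b6 b7 b8 v13 y13 z38; linarith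
            have kk589 : (2 * i + 2) ≤ (j + k) := by clear * - b1 b4 b6 b7 b8 v12 z38; linarith
            have kk590 : (i) ≤ (k) := by clear * - b7 z38 z39; omega
            have kk591 : (2 * i + l + 1) ≤ (2 * k) := by clear * - v12; omega
            have kk592 : (i + i2 + 1) ≤ (Q + k) := by clear * - b1 b4 b6 b7 b8 v12; omega
            have kk593 : (0) ≤ (i + 1) := by clear * - y13 y20; omega
            have kk594 : (2 * i + l + i2 + 1) ≤ (3 * k) := by clear * - v13; omega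
            have r595 : (2 * n + 3 * i + l + i2 - 2 * k + 1) % 2 = 0 := by clear * - ev n1p n2p n3p; omega
            have r596 : (k - j) % 2 = 0 := by clear * - ev n1p n2p n3p; omega
            clear * - al a1 b tt kk586 kk587 kk588 kk589 kk590 kk591 kk592 kk593 kk594 r595 r596
            exact midP al (k - j) (2 * n + 3 * i + l + i2 - 2 * k + 1) (n + i + 1) (n) (n + k) (by omega) (fun t h1 h2 => (cE (cI (cE (qf b al 1 t (t + (k - n - i)) (by omega)) (qf b al 0 (t + (k - n - i)) (t + (2 * k - n - 2 * i)) (by omega))) (ab tt al 0 (t + (2 * k - n - 2 * i)) ((n + 3 * i + l + i2 - 2 * k + 1) - t) (by omega))) (sh al 1 ((n + 3 * i + l + i2 - 2 * k + 1) - t) ((2 * n + 3 * i + l + i2 - 2 * k + 1) - t) (by omega)))) (fun t h1 h2 => (cE (qf a1 al 1 t (t + (k - n - j)) (by omega)) (sh al 1 (t + (k - n - j)) (t + (k - j)) (by omega))))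
          · have kk597 : (j + 1) ≤ (k) := by clear * - b7 b8 z36; omega
            have kk598 : (2 * Q) ≤ (j + k) := by clear * - b8 z36; omega
            have kk599 : (0) ≤ (j + k) := by clear * - b4 b6 b7 b8 y13 z36; omega
            have kk600 : (6 * i + 2 * l + 2 * i2 + 4) ≤ (j + 7 * k) := by clear * - z39; omega
            have kk601 : (i) ≤ (k) := by clear * - b7 z38 z39; omega
            have kk602 : (2 * i + l + 1) ≤ (2 * k) := by clear * - v12; omega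
            have kk603 : (i + i2 + 1) ≤ (Q + k) := by clear * - b1 b4 b6 b7 b8 v12; omega
            have kk604 : (0) ≤ (i + 1) := by clear * - y13 y20; omega
            have kk605 : (3 * k) ≤ (2 * i + l + i2 + 1) := by clear * - v13; omega
            have r606 : (2 * n + 3 * i + l + i2 - 2 * k + 1) % 2 = 0 := by clear * - ev n1p n2p n3p; omega
            have r607 : (k - j) % 2 = 0 := by clear * - ev n1p n2p n3p; omega
            clear * - al a1 b tt kk597 kk598 kk599 kk600 kk601 kk602 kk603 kk604 kk605 r606 r607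
            exact midP al (k - j) (2 * n + 3 * i + l + i2 - 2 * k + 1) (n + 3 * i + l + i2 - 3 * k + 2) (n) (n + k) (by omega) (fun t h1 h2 => (cE (cI (cE (qf b al 1 t (t + (k - n - i)) (by omega)) (qf b al 0 (t + (k - n - i)) (t + (2 * k - n - 2 * i)) (by omega))) (ab tt al 0 (t + (2 * k - n - 2 * i)) ((n + 3 * i + l + i2 - 2 * k + 1) - t) (by omega))) (sh al 1 ((n + 3 * i + l + i2 - 2 * k + 1) - t) ((2 * n + 3 * i + l + i2 - 2 * k + 1) - t) (by omega)))) (fun t h1 h2 => (cE (qf a1 al 1 t (t + (k - n - j)) (by omega)) (sh al 1 (t + (k - n - j)) (t + (k - j)) (by omega))))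
        · have kk608 : (j + 1) ≤ (k) := by clear * - b7 b8 z36; omega
          have kk609 : (2 * Q) ≤ (j + k) := by clear * - b8 z36; omega
          have kk610 : (0) ≤ (j + k) := by clear * - b6 b7 b8 b9 v12 y13 z36 z39; linarith
          have kk611 : (6 * i + 2 * l + 2 * i2 + 4) ≤ (j + 7 * k) := by clear * - z39; omega
          have kk612 : (2 * k) ≤ (2 * i + l + 1) := by clear * - v12; omega
          have kk613 : (k) ≤ (i + l + 1) := by clear * - b7 v12 z38 z39; omega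
          have kk614 : (i) ≤ (k) := by clear * - b7 z38 z39; omega
          have kk615 : (i + i2 + 1) ≤ (Q + k) := by clear * - b4 b7 b8 v12 y21 z39; omega
          have kk616 : (3 * k) ≤ (3 * i + l + i2 + 2) := by clear * - b6 v12 y13 y22; omega
          have kk617 : (k) ≤ (i2) := by clear * - b6 y19 y22; omega
          have r618 : (2 * n + 3 * i + l + i2 - 2 * k + 1) % 2 = 0 := by clear * - ev n1p n2p n3p; omega
          have r619 : (k - j) % 2 = 0 := by clear * - ev n1p n2p n3p; omega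
          clear * - al a1 b tt kk608 kk609 kk610 kk611 kk612 kk613 kk614 kk615 kk616 kk617 r618 r619
          exact midP al (k - j) (2 * n + 3 * i + l + i2 - 2 * k + 1) (n + 3 * i + l + i2 - 3 * k + 2) (n) (n + k) (by omega) (fun t h1 h2 => (cE (cI (cE (qf b al 1 t (t + (k - n - i)) (by omega)) (qf b al 0 (t + (k - n - i)) (t + (2 * k - n - 2 * i)) (by omega))) (ab tt al 0 (t + (2 * k - n - 2 * i)) ((n + 3 * i + l + i2 - 2 * k + 1) - t) (by omega))) (sh al 1 ((n + 3 * i + l + i2 - 2 * k + 1) - t) ((2 * n + 3 * i + l + i2 - 2 * k + 1) - t) (by omega)))) (fun t h1 h2 => (cE (qf a1 al 1 t (t + (k - n - j)) (by omega)) (sh al 1 (t + (k - n - j)) (t + (k - j)) (by omega))))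
      · have kk620 : (3 * i + l + 3) ≤ (2 * k + i2) := by clear * - b6 b7 b8 b9 y19 z36; omega
        have kk621 : (2 * Q + 2 * k) ≤ (3 * i + l + i2 + 2) := by clear * - b7 b8 z36 z39; omega
        have kk622 : (k) ≤ (i2) := by clear * - b6 b7 b8 b9 y19 z36 z39; linarith
        have kk623 : (i2) ≤ (i + l + 1) := by clear * - b1 b6 b7 b8 b9; omega
        have kk624 : (i + i2 + 1) ≤ (Q + k) := by clear * - b4 b7 b8 y21 z36; omega
        have kk625 : (i + 1) ≤ (Q) := by clear * - b4 b6 b7 b8 y19 z36; omega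
        have r626 : (i + l + i2 + 1) % 2 = 0 := by clear * - ev n1p n2p n3p; omega
        clear * - al b tt kk620 kk621 kk622 kk623 kk624 kk625 r626
        obtain ⟨t, ht⟩ : ∃ t, 2 * t = (i + l + i2 + 1) := ⟨(i + l + i2 + 1) / 2, by omega⟩
        exact al.ninv t (cE (cI (qf b al 0 t (t + (k - i)) (by omega)) (ab tt al 0 (t + (k - i)) ((2 * i + l + i2 - k + 1) - t) (by omega))) (qf b al 0 ((2 * i + l + i2 - k + 1) - t) t (by omega)))
    · have kk627 : (2 * i + l + 3) ≤ (k + i2) := by clear * - b6 b8 y19 y22 z36 z38 ev n1p n2p n3p; omega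
      have kk628 : (2 * Q + k) ≤ (2 * i + l + i2 + 2) := by clear * - b1 b6 b7 b8 y19 y22 z38; linarith
      have kk629 : (k) ≤ (i + l + 1) := by clear * - b1 b6 b7 b8 b9 y19 y22; linarith
      have kk630 : (i + i2 + 1) ≤ (Q + k) := by clear * - b4 b7 b8 y21 z36; omega
      have r631 : (2 * i + l + i2 - 2 * n - k + 1) % 2 = 0 := by clear * - ev n1p n2p n3p; omega
      clear * - al b tt kk627 kk628 kk629 kk630 r631
      obtain ⟨t, ht⟩ : ∃ t, 2 * t = (2 * i + l + i2 - 2 * n - k + 1) := ⟨(2 * i + l + i2 - 2 * n - k + 1) / 2, by omega⟩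
      exact al.ninv t (cE (cI (qf b al (-1) t (t + (n + k - i)) (by omega)) (ab tt al 0 (t + (n + k - i)) ((2 * i + l + i2 - n - k + 1) - t) (by omega))) (sh al (-1) ((2 * i + l + i2 - n - k + 1) - t) t (by omega)))

theorem yf2_16 {W : ℤ → G} {n Q i j k l i2 l2 i3 : ℤ} (al : AL W n Q)
    (hy : (0) ≤ (i) ∧ (i) ≤ (j) ∧ (j + 1) ≤ (Q) ∧ (Q) ≤ (k) ∧ (k + 1) ≤ (n) ∧ (Q) ≤ (i + l + 1) ∧ (k + l + 2) ≤ (n) ∧ (Q) ≤ (i2) ∧ (i2) ≤ (i + l + 1) ∧ (Q) ≤ (i2 + l2 + 1) ∧ (i2 + l2 + 2) ≤ (n) ∧ (n) ≤ (k + l + l2 + 2) ∧ (k + l + l2 + 3) ≤ (n + Q) ∧ (0) ≤ (i3) ∧ (n + i3) ≤ (k + l + l2 + 2) ∧ (k + i2 + l2 + 2) ≤ (n + j + i3) ∧ (j + i3 + 1) ≤ (k) ∧ (k + i2 + l2 + 2) ≤ (n + i3) ∧ (i + l + 1) ≤ (i2 + l2) ∧ (i) ≤ (i3) ∧ (i3) ≤ (i) ∧ (k + l) ≤ (i2 + l2) ∧ (i2 + l2) ≤ (k + l))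
    (a1 : Par W (0) (j) (k - j))
    (a2 : Par W (Q + j - k) (j) (k - j))
    (s1 : Ant W (0) (i) (i + j))
    (s2 : Ant W (j + 1) (Q) (i + j))
    (b : Par W (i + 1) (i + l + 1) (k - i))
    (tt : Ant W (Q) (i2) (i + l + i2 + 1))
    (c : Par W (i2 + 1) (i2 + l2 + 1) (k + l - i2 + 1))
    (u1 : Ant W (0) (i3) (k + l + l2 + i3 - n + 2))
    (u2 : Ant W (k + l + l2 - n + 3) (Q) (k + l + l2 + i3 - n + 2))
    (D1 : Par W (i3 + 1) (Q) (i2 + l2 - i3 + 1))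
    (D2 : Par W (i2 + l2 + 2) (n) (i3 - i2 - l2 - 1))
    {L : ℤ} (mx : ∀ a b g, 0 < g → g < n → Par W a b g → b - a ≤ L)
    (hL : L ≤ (n - j - 3) ∧ L ≤ (n + Q - k - 3) ∧ L ≤ (n - l - 3) ∧ L ≤ (n + i - k - 2) ∧ L ≤ (n - l2 - 3) ∧ L ≤ (n + i3 - Q - 2) ∧ L ≤ (i2 + l2 - 1) ∧ L ≤ (n + i2 - k - l - 3))
    (bd0 : Bd W n L (j) (i) (k))
    (bd2 : Bd W n L (k + l + l2 - n + 2) (i3) (i2 + l2 + 1))
    (n1 : Nd W (j) (i) (k))
    (n2 : Nd W (i + l + 1) (i2) (k + l + 1))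
    (n3 : Nd W (k + l + l2 - n + 2) (i3) (i2 + l2 + 1))
    (b0 : (2 * l + 3) ≤ (n))
    (b1 : (n + 2 * Q + i2) ≤ (i + k + 2 * l + l2 + i3 + 4))
    (b2 : (2 * i + j + 1) ≤ (k))
    (b3 : (2 * n + 2 * Q + i3) ≤ (k + l + 2 * i2 + 3 * l2 + 5))
    (b4 : (n + i + 2 * i2) ≤ (j + 2 * k + 2 * l + 3))
    (b5 : (Q + 1) ≤ (k))
    (b6 : (2 * k + l + i3) ≤ (i + 2 * i2 + l2))
    (b7 : (j + 2) ≤ (Q))
    (b8 : (k + l + l2 + 3) ≤ (n + j)) : False := by
  have ev := al.ev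
  obtain ⟨y0, y1, y2, y3, y4, y5, y6, y7, y8, y9, y10, y11, y12, y13, y14, y15, y16, y17, y18, y19, y20, y21, y22⟩ := id hy
  have n1p := And.intro n1.p1 n1.p2
  have n2p := And.intro n2.p1 n2.p2
  have n3p := And.intro n3.p1 n3.p2
  by_cases z35 : (2 * i + i2 + l2 + i3 + 2) ≤ (2 * Q + 2 * k)
  · exact yf2_17 al hy a1 a2 s1 s2 b tt c u1 u2 D1 D2 mx hL bd0 bd2 n1 n2 n3 (by clear * - b0; omega) (by clear * - b1; omega) (by clear * - b2; omega) (by clear * - b3; omega) (by clear * - b4; omega) (by clear * - b5; omega) (by clear * - b6; omega) (by clear * - b7; omega) (by clear * - b8; omega) (by clear * - z35; omega)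
  · exact yf2_18 al hy a1 a2 s1 s2 b tt c u1 u2 D1 D2 mx hL bd0 bd2 n1 n2 n3 (by clear * - b0; omega) (by clear * - b2; omega) (by clear * - b3; omega) (by clear * - b4; omega) (by clear * - b5; omega) (by clear * - b6; omega) (by clear * - b7; omega) (by clear * - b8; omega) (by clear * - z35; omega)

theorem yf2_15 {W : ℤ → G} {n Q i j k l i2 l2 i3 : ℤ} (al : AL W n Q)
    (hy : (0) ≤ (i) ∧ (i) ≤ (j) ∧ (j + 1) ≤ (Q) ∧ (Q) ≤ (k) ∧ (k + 1) ≤ (n) ∧ (Q) ≤ (i + l + 1) ∧ (k + l + 2) ≤ (n) ∧ (Q) ≤ (i2) ∧ (i2) ≤ (i + l + 1) ∧ (Q) ≤ (i2 + l2 + 1) ∧ (i2 + l2 + 2) ≤ (n) ∧ (n) ≤ (k + l + l2 + 2) ∧ (k + l + l2 + 3) ≤ (n + Q) ∧ (0) ≤ (i3) ∧ (n + i3) ≤ (k + l + l2 + 2) ∧ (k + i2 + l2 + 2) ≤ (n + j + i3) ∧ (j + i3 + 1) ≤ (k) ∧ (k + i2 + l2 + 2) ≤ (n + i3) ∧ (i + l + 1) ≤ (i2 + l2) ∧ (i) ≤ (i3) ∧ (i3) ≤ (i) ∧ (k + l) ≤ (i2 + l2) ∧ (i2 + l2) ≤ (k + l))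
    (a1 : Par W (0) (j) (k - j))
    (a2 : Par W (Q + j - k) (j) (k - j))
    (s1 : Ant W (0) (i) (i + j))
    (s2 : Ant W (j + 1) (Q) (i + j))
    (b : Par W (i + 1) (i + l + 1) (k - i))
    (tt : Ant W (Q) (i2) (i + l + i2 + 1))
    (c : Par W (i2 + 1) (i2 + l2 + 1) (k + l - i2 + 1))
    (u1 : Ant W (0) (i3) (k + l + l2 + i3 - n + 2))
    (u2 : Ant W (k + l + l2 - n + 3) (Q) (k + l + l2 + i3 - n + 2))
    (D1 : Par W (i3 + 1) (Q) (i2 + l2 - i3 + 1))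
    (D2 : Par W (i2 + l2 + 2) (n) (i3 - i2 - l2 - 1))
    {L : ℤ} (mx : ∀ a b g, 0 < g → g < n → Par W a b g → b - a ≤ L)
    (hL : L ≤ (n - j - 3) ∧ L ≤ (n + Q - k - 3) ∧ L ≤ (n - l - 3) ∧ L ≤ (n + i - k - 2) ∧ L ≤ (n - l2 - 3) ∧ L ≤ (n + i3 - Q - 2) ∧ L ≤ (i2 + l2 - 1) ∧ L ≤ (n + i2 - k - l - 3))
    (bd0 : Bd W n L (j) (i) (k))
    (bd2 : Bd W n L (k + l + l2 - n + 2) (i3) (i2 + l2 + 1))
    (n1 : Nd W (j) (i) (k))
    (n2 : Nd W (i + l + 1) (i2) (k + l + 1))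
    (n3 : Nd W (k + l + l2 - n + 2) (i3) (i2 + l2 + 1))
    (b0 : (2 * l + 3) ≤ (n))
    (b1 : (n + 2 * Q + i2) ≤ (i + k + 2 * l + l2 + i3 + 4))
    (b2 : (2 * i + j + 1) ≤ (k))
    (b3 : (2 * n + 2 * Q + i3) ≤ (k + l + 2 * i2 + 3 * l2 + 5))
    (b4 : (n + i + 2 * i2) ≤ (j + 2 * k + 2 * l + 3))
    (b5 : (Q + 1) ≤ (k))
    (b6 : (2 * k + l + i3) ≤ (i + 2 * i2 + l2))
    (b7 : (j + 2) ≤ (Q))
    (b8 : (k + l + l2 + 2) ≤ (n + j)) : False := by
  have ev := al.ev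
  obtain ⟨y0, y1, y2, y3, y4, y5, y6, y7, y8, y9, y10, y11, y12, y13, y14, y15, y16, y17, y18, y19, y20, y21, y22⟩ := id hy
  have n1p := And.intro n1.p1 n1.p2
  have n2p := And.intro n2.p1 n2.p2
  have n3p := And.intro n3.p1 n3.p2
  by_cases z34 : (n + j) ≤ (k + l + l2 + 2)
  · have kk552 : (i2 + l2) ≤ (k + l) := by clear * - y22; omega
    have kk553 : (k + l) ≤ (i2 + l2) := by clear * - y21; omega
    have kk554 : (i + 1) ≤ (k) := by clear * - b4 b5 b6 b7 b8 y19; omega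
    have kk555 : (0) ≤ (l) := by clear * - b1 b4 b5 b6 b7 b8 y19 y22; linarith
    have kk556 : (i + i2 + l2 + 1) ≤ (2 * k + l) := by clear * - b4 b5 b6 b7 b8 y19 y22; linarith
    have kk557 : (k) ≤ (i2 + l2) := by clear * - b1 b4 b5 b6 b7 b8 y19; linarith
    have kk558 : (i + 1) ≤ (i2) := by clear * - b4 b5 b6 b7 b8 y19 y22; linarith
    have kk559 : (i2) ≤ (k + l) := by clear * - b1 b3 b4 b5 b7 b8; omega
    have kk560 : (i) ≤ (i3) := by clear * - y19; omega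
    have kk561 : (i3) ≤ (i) := by clear * - y20; omega
    have kk562 : (k + i2 + l2) ≤ (n + i3) := by clear * - y17; omega
    have kk563 : (n) ≤ (k + l + l2 + 2) := by clear * - b4 b5 b6 b7 y13; omega
    have kk564 : (k + l + l2 + 2) ≤ (n + j) := by clear * - b8; omega
    have kk565 : (n + j) ≤ (k + l + l2 + 2) := by clear * - z34; omega
    have kk566 : (k + l + i3) ≤ (2 * i2 + l2) := by clear * - b3 b7 b8; omega
    have kk567 : (n + i3) ≤ (k + l + i2 + l2 + 2) := by clear * - b3 b4 b5 b6 b7 b8 y13 y22; linarith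
    have kk568 : (n + i2) ≤ (2 * k + 2 * l + 2) := by clear * - b4 b5 b6 b7 y13 y22; omega
    have r569 : (2 * i2 + l2 - k - l - i3) % 2 = 0 := by clear * - ev n1p n2p n3p; omega
    have r570 : (k - i) % 2 = 0 := by clear * - ev n1p n2p n3p; omega
    clear * - al b c D2 n1 n2 n3 kk552 kk553 kk554 kk555 kk556 kk557 kk558 kk559 kk560 kk561 kk562 kk563 kk564 kk565 kk566 kk567 kk568 r569 r570
    exact ivt0 (i - n + 1) (i + l - n + 1) (k - i) (i - n + 1) (i3 - i2 - l2 - 1) (2 * i2 + l2 - k - l - i3) (2 * k + l - n - i2 - l2) (i2 - n) (-1) (fun t h1 h2 => (cE (qf b al (-1) t (t + (n + k - i)) (by omega)) (sh al (-1) (t + (n + k - i)) (t + (k - i)) (by omega)))) (fun t h1 h2 => (cE (qf (show Par W (i3 + 1) (n + i3 - i2 - l2 - 1) (2 * i2 + l2 - k - l - i3) from fun t h1 h2 => (cE (sh al (-1) t (t + (-n)) (by omega)) (cE (pb D2 al (-1) (t + (-n)) (t + (i2 + l2 - i3 + 1)) (by omega)) (pb c al 0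 (t + (i2 + l2 - i3 + 1)) (t + (2 * i2 + l2 - k - l - i3)) (by omega))))) al (-1) t (t + (n + 2 * i2 + l2 - k - l - i3)) (by omega)) (sh al (-1) (t + (n + 2 * i2 + l2 - k - l - i3)) (t + (2 * i2 + l2 - k - l - i3)) (by omega)))) (fun hh => n2.f1 (rEE (sh al (-1) (i2) (i2 - n) (by omega)) (cE (pb (uP (k) (i2 + l2 + 1) (i2 + l2 - k + 1) (by omega) (oNN (lat n1.r0 n3.r0 (sh al 0 (j) (k + l + l2 - n + 2) (by omega)) (sh al 0 (i) (i3) (by omega))))) al 0 (k + l + 1) (2 * k + l - i2 - l2) (by omega)) (sh al (-1) (2 * k + l - i2 - l2) (2 * k + l - n - i2 - l2) (by omega))) (Eq.symm (Eq.symm hh)))) (by omega) (by omega)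
  · exact yf2_16 al hy a1 a2 s1 s2 b tt c u1 u2 D1 D2 mx hL bd0 bd2 n1 n2 n3 (by clear * - b0; omega) (by clear * - b1; omega) (by clear * - b2; omega) (by clear * - b3; omega) (by clear * - b4; omega) (by clear * - b5; omega) (by clear * - b6; omega) (by clear * - b7; omega) (by clear * - z34; omega)

theorem yf2_14 {W : ℤ → G} {n Q i j k l i2 l2 i3 : ℤ} (al : AL W n Q)
    (hy : (0) ≤ (i) ∧ (i) ≤ (j) ∧ (j + 1) ≤ (Q) ∧ (Q) ≤ (k) ∧ (k + 1) ≤ (n) ∧ (Q) ≤ (i + l + 1) ∧ (k + l + 2) ≤ (n) ∧ (Q) ≤ (i2) ∧ (i2) ≤ (i + l + 1) ∧ (Q) ≤ (i2 + l2 + 1) ∧ (i2 + l2 + 2) ≤ (n) ∧ (n) ≤ (k + l + l2 + 2) ∧ (k + l + l2 + 3) ≤ (n + Q) ∧ (0) ≤ (i3) ∧ (n + i3) ≤ (k + l + l2 + 2) ∧ (k + i2 + l2 + 2) ≤ (n + j + i3) ∧ (j + i3 + 1) ≤ (k) ∧ (k + i2 + l2 + 2) ≤ (n + i3) ∧ (i + l + 1) ≤ (i2 + l2) ∧ (i) ≤ (i3) ∧ (i3) ≤ (i) ∧ (k + l) ≤ (i2 + l2) ∧ (i2 + l2) ≤ (k + l))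
    (a1 : Par W (0) (j) (k - j))
    (a2 : Par W (Q + j - k) (j) (k - j))
    (s1 : Ant W (0) (i) (i + j))
    (s2 : Ant W (j + 1) (Q) (i + j))
    (b : Par W (i + 1) (i + l + 1) (k - i))
    (tt : Ant W (Q) (i2) (i + l + i2 + 1))
    (c : Par W (i2 + 1) (i2 + l2 + 1) (k + l - i2 + 1))
    (u1 : Ant W (0) (i3) (k + l + l2 + i3 - n + 2))
    (u2 : Ant W (k + l + l2 - n + 3) (Q) (k + l + l2 + i3 - n + 2))
    (D1 : Par W (i3 + 1) (Q) (i2 + l2 - i3 + 1))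
    (D2 : Par W (i2 + l2 + 2) (n) (i3 - i2 - l2 - 1))
    {L : ℤ} (mx : ∀ a b g, 0 < g → g < n → Par W a b g → b - a ≤ L)
    (hL : L ≤ (n - j - 3) ∧ L ≤ (n + Q - k - 3) ∧ L ≤ (n - l - 3) ∧ L ≤ (n + i - k - 2) ∧ L ≤ (n - l2 - 3) ∧ L ≤ (n + i3 - Q - 2) ∧ L ≤ (i2 + l2 - 1) ∧ L ≤ (n + i2 - k - l - 3))
    (bd0 : Bd W n L (j) (i) (k))
    (bd2 : Bd W n L (k + l + l2 - n + 2) (i3) (i2 + l2 + 1))
    (n1 : Nd W (j) (i) (k))
    (n2 : Nd W (i + l + 1) (i2) (k + l + 1))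
    (n3 : Nd W (k + l + l2 - n + 2) (i3) (i2 + l2 + 1))
    (b0 : (2 * l + 3) ≤ (n))
    (b1 : (n + 2 * Q + i2) ≤ (i + k + 2 * l + l2 + i3 + 4))
    (b2 : (2 * i + j + 1) ≤ (k))
    (b3 : (2 * n + 2 * Q + i3) ≤ (k + l + 2 * i2 + 3 * l2 + 5))
    (b4 : (n + i + 2 * i2) ≤ (j + 2 * k + 2 * l + 3))
    (b5 : (i + 2 * k + 2 * l + 5) ≤ (n + 2 * Q + j))
    (b6 : (Q + 1) ≤ (k))
    (b7 : (2 * k + l + i3) ≤ (i + 2 * i2 + l2))
    (b8 : (j + 2) ≤ (Q))
    (b9 : (Q + l + l2 + 3) ≤ (n + j)) : False := by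
  have ev := al.ev
  obtain ⟨y0, y1, y2, y3, y4, y5, y6, y7, y8, y9, y10, y11, y12, y13, y14, y15, y16, y17, y18, y19, y20, y21, y22⟩ := id hy
  have n1p := And.intro n1.p1 n1.p2
  have n2p := And.intro n2.p1 n2.p2
  have n3p := And.intro n3.p1 n3.p2
  by_cases z33 : (k + l + l2 + 2) ≤ (n + j)
  · exact yf2_15 al hy a1 a2 s1 s2 b tt c u1 u2 D1 D2 mx hL bd0 bd2 n1 n2 n3 (by clear * - b0; omega) (by clear * - b1; omega) (by clear * - b2; omega) (by clear * - b3; omega) (by clear * - b4; omega) (by clear * - b6; omega) (by clear * - b7; omega) (by clear * - b8; omega) (by clear * - z33; omega)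
  · by_cases z57 : (k + 2 * l + 3) ≤ (n + Q)
    · have kk871 : (n + j) ≤ (k + 2 * l + 1) := by clear * - b7 y19 y22 z33; omega
      have kk872 : (k + 2 * l + 3) ≤ (2 * n + j) := by clear * - b1 b4 b7 b8 b9 y19 z57; linarith
      have kk873 : (k + 2 * l + 3) ≤ (n + Q) := by clear * - z57; omega
      have kk874 : (i + l + 1) ≤ (Q + l2) := by clear * - b5 b9 z33; omega
      have kk875 : (Q + k + 2 * l + 2) ≤ (n + j + i2) := by clear * - b9 y21; omega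
      have kk876 : (Q + k + l + 1) ≤ (n + i + j) := by clear * - b1 b4 b5 b7 b8 b9; omega
      clear * - al s2 tt c kk871 kk872 kk873 kk874 kk875 kk876
      exact al.ubQ (k + 2 * l - n - j + 2) (by omega) (by omega) fun t h1 h2 => (cE (sh al 1 t (t + (n)) (by omega)) (cII (cE (qa s2 al 1 (t + (n)) ((i + j) - t) (by omega)) (pb c al (-1) ((i + j) - t) ((n + i + j + i2 - k - l - 1) - t) (by omega))) (ab tt al 0 ((n + i + j + i2 - k - l - 1) - t) (t + (k + 2 * l - n - j + 2)) (by omega))))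
    · have kk877 : (k + l + 2) ≤ (n + i2) := by clear * - b1 b5 b7 b8 b9 z33 z57; linarith
      have kk878 : (0) ≤ (l2) := by clear * - b1 b4 b5 b7 b8 b9 z33 z57; linarith
      have kk879 : (l + 2) ≤ (n) := by clear * - b1 b4 b5 b7 b8 b9 z33 z57; linarith
      have kk880 : (k) ≤ (i2 + l2) := by clear * - b1 b5 b7 b8 b9 z33 z57; linarith
      have kk881 : (k + l + 2) ≤ (n + i) := by clear * - b1 b4 b5 b7 b8 b9; omega
      have kk882 : (i) ≤ (i2 + l2) := by clear * - b1 b5 b7 b8 b9 z33 z57; linarith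
      have kk883 : (n + Q) ≤ (k + 2 * l + 3) := by clear * - z57; omega
      have kk884 : (i) ≤ (k) := by clear * - b5 b8 b9 z33 z57; omega
      have kk885 : (k + l + 1) ≤ (n + i) := by clear * - b1 b4 b5 b7 b8 b9; omega
      have kk886 : (k + l) ≤ (i2 + l2) := by clear * - y21; omega
      have kk887 : (i + l) ≤ (i2 + l2) := by clear * - b5 b8 b9 y21 z33 z57; omega
      have kk888 : (k) ≤ (n + i) := by clear * - b1 b4 b5 b7 b8 b9 z33 z57; linarith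
      have kk889 : (0) ≤ (l2 + 1) := by clear * - b1 b4 b5 b7 b8 b9 z33 z57; linarith
      have kk890 : (i + l + 1) ≤ (Q + l2) := by clear * - b5 b9 z33; omega
      have kk891 : (k + l + 2) ≤ (n + Q) := by clear * - b1 b4 b5 b7 b8 b9 z33 z57; linarith
      have r892 : (i - k) % 2 = 0 := by clear * - ev n1p n2p n3p; omega
      have r893 : (n + i2 - k - l - 1) % 2 = 0 := by clear * - ev n1p n2p n3p; omega
      have r894 : (2 * n + i + l + i2 + 1) % 2 = 0 := by clear * - ev n1p n2p n3p; omega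
      clear * - al b tt c n1 kk877 kk878 kk879 kk880 kk881 kk882 kk883 kk884 kk885 kk886 kk887 kk888 kk889 kk890 kk891 r892 r893 r894
      exact ivt al.ninv (k + l + 2) (k + l + l2 + 2) (n + i2 - k - l - 1) (n + k + 1) (n + k + l + 1) (i - k) (n + k) (n + i) 0 (fun t h1 h2 => (cE (pb c al 0 t (t + (i2 - k - l - 1)) (by omega)) (sh al 1 (t + (i2 - k - l - 1)) (t + (n + i2 - k - l - 1)) (by omega)))) (fun t h1 h2 => (cE (pb b al 1 t (t + (i - n - k)) (by omega)) (sh al 1 (t + (i - n - k)) (t + (i - k)) (by omega)))) (fun hh => n1.f1 (rEE (sh al 1 (i) (n + i) (by omega)) (sh al 1 (k) (n + k) (by omega)) (Eq.symm (Eq.symm hh)))) (by omega) (n + i + l + 2) (n + i + l + i2 - Q + 2) (2 * n + i + l + i2 + 1) 1 0 (fun t h1 h2 => (cI (sh al (-1) t (t + (-n)) (by omega)) (cE (ab tt al 0 (t + (-n)) ((n + i + l + i2 + 1) - t) (by omega)) (sh al 1 ((n + i + l + i2 + 1) - t) ((2 * n + i + l + i2 + 1) -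 t) (by omega))))) (by omega)

theorem yf2_13 {W : ℤ → G} {n Q i j k l i2 l2 i3 : ℤ} (al : AL W n Q)
    (hy : (0) ≤ (i) ∧ (i) ≤ (j) ∧ (j + 1) ≤ (Q) ∧ (Q) ≤ (k) ∧ (k + 1) ≤ (n) ∧ (Q) ≤ (i + l + 1) ∧ (k + l + 2) ≤ (n) ∧ (Q) ≤ (i2) ∧ (i2) ≤ (i + l + 1) ∧ (Q) ≤ (i2 + l2 + 1) ∧ (i2 + l2 + 2) ≤ (n) ∧ (n) ≤ (k + l + l2 + 2) ∧ (k + l + l2 + 3) ≤ (n + Q) ∧ (0) ≤ (i3) ∧ (n + i3) ≤ (k + l + l2 + 2) ∧ (k + i2 + l2 + 2) ≤ (n + j + i3) ∧ (j + i3 + 1) ≤ (k) ∧ (k + i2 + l2 + 2) ≤ (n + i3) ∧ (i + l + 1) ≤ (i2 + l2) ∧ (i) ≤ (i3) ∧ (i3) ≤ (i) ∧ (k + l) ≤ (i2 + l2) ∧ (i2 + l2) ≤ (k + l))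
    (a1 : Par W (0) (j) (k - j))
    (a2 : Par W (Q + j - k) (j) (k - j))
    (s1 : Ant W (0) (i) (i + j))
    (s2 : Ant W (j + 1) (Q) (i + j))
    (b : Par W (i + 1) (i + l + 1) (k - i))
    (tt : Ant W (Q) (i2) (i + l + i2 + 1))
    (c : Par W (i2 + 1) (i2 + l2 + 1) (k + l - i2 + 1))
    (u1 : Ant W (0) (i3) (k + l + l2 + i3 - n + 2))
    (u2 : Ant W (k + l + l2 - n + 3) (Q) (k + l + l2 + i3 - n + 2))
    (D1 : Par W (i3 + 1) (Q) (i2 + l2 - i3 + 1))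
    (D2 : Par W (i2 + l2 + 2) (n) (i3 - i2 - l2 - 1))
    {L : ℤ} (mx : ∀ a b g, 0 < g → g < n → Par W a b g → b - a ≤ L)
    (hL : L ≤ (n - j - 3) ∧ L ≤ (n + Q - k - 3) ∧ L ≤ (n - l - 3) ∧ L ≤ (n + i - k - 2) ∧ L ≤ (n - l2 - 3) ∧ L ≤ (n + i3 - Q - 2) ∧ L ≤ (i2 + l2 - 1) ∧ L ≤ (n + i2 - k - l - 3))
    (bd0 : Bd W n L (j) (i) (k))
    (bd2 : Bd W n L (k + l + l2 - n + 2) (i3) (i2 + l2 + 1))
    (n1 : Nd W (j) (i) (k))
    (n2 : Nd W (i + l + 1) (i2) (k + l + 1))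
    (n3 : Nd W (k + l + l2 - n + 2) (i3) (i2 + l2 + 1))
    (b0 : (2 * l + 3) ≤ (n))
    (b1 : (n + 2 * Q + i2) ≤ (i + k + 2 * l + l2 + i3 + 4))
    (b2 : (2 * i + j + 1) ≤ (k))
    (b3 : (2 * n + 2 * Q + i3) ≤ (k + l + 2 * i2 + 3 * l2 + 5))
    (b4 : (n + i + 2 * i2) ≤ (j + 2 * k + 2 * l + 3))
    (b5 : (i + 2 * k + 2 * l + 5) ≤ (n + 2 * Q + j))
    (b6 : (Q + 1) ≤ (k))
    (b7 : (2 * k + l + i3) ≤ (i + 2 * i2 + l2))
    (b8 : (j + 2) ≤ (Q)) : False := by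
  have ev := al.ev
  obtain ⟨y0, y1, y2, y3, y4, y5, y6, y7, y8, y9, y10, y11, y12, y13, y14, y15, y16, y17, y18, y19, y20, y21, y22⟩ := id hy
  have n1p := And.intro n1.p1 n1.p2
  have n2p := And.intro n2.p1 n2.p2
  have n3p := And.intro n3.p1 n3.p2
  by_cases z32 : (n + j) ≤ (Q + l + l2 + 2)
  · have kk532 : (k + l + 2) ≤ (n + i) := by clear * - b0 b1 b5 b6 b7 y19 y22 z32; linarith
    have kk533 : (n + i) ≤ (k + l + l2 + 1) := by clear * - b4 b6 b7 b8 y19; omega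
    have kk534 : (i + 1) ≤ (k) := by clear * - b5 b6 b7 y19 y22 z32; omega
    have kk535 : (0) ≤ (l) := by clear * - b1 b5 b6 b7 b8 y19 y22 z32; linarith
    have kk536 : (k + l + 2) ≤ (n + i2) := by clear * - b1 b5 b6 b7 b8 y19 y22; linarith
    have kk537 : (n + i + i2) ≤ (2 * k + 2 * l + 1) := by clear * - b4 b6 b7 b8 y19 y22; omega
    have kk538 : (n + j + i2) ≤ (Q + k + 2 * l + 2) := by clear * - y22 z32; omega
    have kk539 : (Q + k + l + 1) ≤ (n + i + j) := by clear * - b0 b1 b5 b6 b7 y19 y22; linarith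
    have kk540 : (n + i) ≤ (k + l + l2 + 2) := by clear * - b4 b6 b7 b8 y19; omega
    have kk541 : (k + l + 1) ≤ (n + i) := by clear * - b0 b1 b5 b6 b7 y19 y22 z32; linarith
    have kk542 : (k + l + 1) ≤ (n + i2) := by clear * - b1 b5 b6 b7 b8 y19 y22; linarith
    have kk543 : (l2 + 1) ≤ (n) := by clear * - b1 b5 b6 b7 b8 y19 y22; linarith
    have kk544 : (k + l) ≤ (i2 + l2) := by clear * - y21; omega
    have kk545 : (Q) ≤ (k + l + 1) := by clear * - b1 b5 b6 b7 b8 y19 y22 z32; linarith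
    have kk546 : (Q + k + l + 1) ≤ (n + j + i2) := by clear * - b1 b5 b6 b7 b8 y19 y22; linarith
    have kk547 : (i) ≤ (j) := by clear * - b4 b5 b6 b7 y19 y22; omega
    have kk548 : (n + i + i2) ≤ (2 * k + 2 * l + 2) := by clear * - b4 b6 b7 b8 y19 y22; omega
    have r549 : (k + l - n - i2 + 1) % 2 = 0 := by clear * - ev n1p n2p n3p; omega
    have r550 : (k - i) % 2 = 0 := by clear * - ev n1p n2p n3p; omega
    have r551 : (i + j + i2 - n - k - l - 1) % 2 = 0 := by clear * - ev n1p n2p n3p; omega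
    clear * - al s2 b c n1 kk532 kk533 kk534 kk535 kk536 kk537 kk538 kk539 kk540 kk541 kk542 kk543 kk544 kk545 kk546 kk547 kk548 r549 r550 r551
    exact ivt al.ninv (i - n + 1) (i + l - n + 1) (k - i) (i + i2 - k - l) (k + l - n + 1) (k + l - n - i2 + 1) (i + i2 - k - l - 1) (k - n) 1 (fun t h1 h2 => (cE (qf b al (-1) t (t + (n + k - i)) (by omega)) (sh al (-1) (t + (n + k - i)) (t + (k - i)) (by omega)))) (fun t h1 h2 => (cE (qf c al (-1) t (t + (n + k + l - i2 + 1)) (by omega)) (sh al (-2) (t + (n + k + l - i2 + 1)) (t + (k + l - n - i2 + 1)) (by omega)))) (fun hh => n1.f1 (rEE (cE (pb c al (-1) (i) (n + i + i2 - k - l - 1) (by omega)) (sh al (-1) (n + i + i2 - k - l - 1) (i + i2 - k - l - 1) (by omega))) (sh al (-1) (k) (k - n) (by omega)) (Eq.symm hh))) (by omega) (i + j + i2 - Q - k - l) (i + i2 - k - l - 1) (i + j + i2 - n - k - l - 1) 0 (-1) (fun t h1 h2 => (cI (sh al 1 t (t + (n))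 (by omega)) (cE (cI (qf c al 0 (t + (n)) (t + (n + k + l - i2 + 1)) (by omega)) (ab s2 al 1 (t + (n + k + l - i2 + 1)) ((i + j + i2 - k - l - 1) - t) (by omega))) (sh al (-1) ((i + j + i2 - k - l - 1) - t) ((i + j + i2 - n - k - l - 1) - t) (by omega))))) (by omega)
  · exact yf2_14 al hy a1 a2 s1 s2 b tt c u1 u2 D1 D2 mx hL bd0 bd2 n1 n2 n3 (by clear * - b0; omega) (by clear * - b1; omega) (by clear * - b2; omega) (by clear * - b3; omega) (by clear * - b4; omega) (by clear * - b5; omega) (by clear * - b6; omega) (by clear * - b7; omega) (by clear * - b8; omega) (by clear * - z32; omega)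

theorem yf2_12 {W : ℤ → G} {n Q i j k l i2 l2 i3 : ℤ} (al : AL W n Q)
    (hy : (0) ≤ (i) ∧ (i) ≤ (j) ∧ (j + 1) ≤ (Q) ∧ (Q) ≤ (k) ∧ (k + 1) ≤ (n) ∧ (Q) ≤ (i + l + 1) ∧ (k + l + 2) ≤ (n) ∧ (Q) ≤ (i2) ∧ (i2) ≤ (i + l + 1) ∧ (Q) ≤ (i2 + l2 + 1) ∧ (i2 + l2 + 2) ≤ (n) ∧ (n) ≤ (k + l + l2 + 2) ∧ (k + l + l2 + 3) ≤ (n + Q) ∧ (0) ≤ (i3) ∧ (n + i3) ≤ (k + l + l2 + 2) ∧ (k + i2 + l2 + 2) ≤ (n + j + i3) ∧ (j + i3 + 1) ≤ (k) ∧ (k + i2 + l2 + 2) ≤ (n + i3) ∧ (i + l + 1) ≤ (i2 + l2) ∧ (i) ≤ (i3) ∧ (i3) ≤ (i) ∧ (k + l) ≤ (i2 + l2) ∧ (i2 + l2) ≤ (k + l))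
    (a1 : Par W (0) (j) (k - j))
    (a2 : Par W (Q + j - k) (j) (k - j))
    (s1 : Ant W (0) (i) (i + j))
    (s2 : Ant W (j + 1) (Q) (i + j))
    (b : Par W (i + 1) (i + l + 1) (k - i))
    (tt : Ant W (Q) (i2) (i + l + i2 + 1))
    (c : Par W (i2 + 1) (i2 + l2 + 1) (k + l - i2 + 1))
    (u1 : Ant W (0) (i3) (k + l + l2 + i3 - n + 2))
    (u2 : Ant W (k + l + l2 - n + 3) (Q) (k + l + l2 + i3 - n + 2))
    (D1 : Par W (i3 + 1) (Q) (i2 + l2 - i3 + 1))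
    (D2 : Par W (i2 + l2 + 2) (n) (i3 - i2 - l2 - 1))
    {L : ℤ} (mx : ∀ a b g, 0 < g → g < n → Par W a b g → b - a ≤ L)
    (hL : L ≤ (n - j - 3) ∧ L ≤ (n + Q - k - 3) ∧ L ≤ (n - l - 3) ∧ L ≤ (n + i - k - 2) ∧ L ≤ (n - l2 - 3) ∧ L ≤ (n + i3 - Q - 2) ∧ L ≤ (i2 + l2 - 1) ∧ L ≤ (n + i2 - k - l - 3))
    (bd0 : Bd W n L (j) (i) (k))
    (bd2 : Bd W n L (k + l + l2 - n + 2) (i3) (i2 + l2 + 1))
    (n1 : Nd W (j) (i) (k))
    (n2 : Nd W (i + l + 1) (i2) (k + l + 1))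
    (n3 : Nd W (k + l + l2 - n + 2) (i3) (i2 + l2 + 1))
    (b0 : (2 * l + 3) ≤ (n))
    (b1 : (n + 2 * Q + i2) ≤ (i + k + 2 * l + l2 + i3 + 4))
    (b2 : (2 * i + j + 1) ≤ (k))
    (b3 : (2 * n + 2 * Q + i3) ≤ (k + l + 2 * i2 + 3 * l2 + 5))
    (b4 : (n + i + 2 * i2) ≤ (j + 2 * k + 2 * l + 3))
    (b5 : (i + 2 * k + 2 * l + 5) ≤ (n + 2 * Q + j))
    (b6 : (Q + 1) ≤ (k))
    (b7 : (2 * k + l + i3) ≤ (i + 2 * i2 + l2)) : False := by
  have ev := al.ev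
  obtain ⟨y0, y1, y2, y3, y4, y5, y6, y7, y8, y9, y10, y11, y12, y13, y14, y15, y16, y17, y18, y19, y20, y21, y22⟩ := id hy
  have n1p := And.intro n1.p1 n1.p2
  have n2p := And.intro n2.p1 n2.p2
  have n3p := And.intro n3.p1 n3.p2
  by_cases z31 : (Q) ≤ (j + 1)
  · have kk517 : (i + 1) ≤ (k) := by clear * - y18 y22; omega
    have kk518 : (0) ≤ (l) := by clear * - b1 b2 b4 b5 b7 y13 y20 y22 z31; linarith
    have kk519 : (i + 1) ≤ (j) := by clear * - b4 b5 b6 b7 y19 y22; omega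
    have kk520 : (j) ≤ (k + l) := by clear * - b1 b2 b4 b5 b7 y13 y20 y22 z31; linarith
    have kk521 : (Q) ≤ (j + 1) := by clear * - z31; omega
    have kk522 : (k) ≤ (i2) := by clear * - b7 y19 y22; omega
    have kk523 : (0) ≤ (i + 1) := by clear * - y13 y20; omega
    have kk524 : (j) ≤ (k) := by clear * - b2 y13 y20; omega
    have kk525 : (j) ≤ (k + l + 1) := by clear * - b1 b2 b4 b5 b7 y13 y20 y22 z31; linarith
    have kk526 : (0) ≤ (l + 1) := by clear * - b1 b2 b4 b5 b7 y13 y20 y22 z31; linarith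
    have kk527 : (i + i2 + 1) ≤ (Q + k) := by clear * - b2 b4 b5 y13 y20; omega
    have kk528 : (i2) ≤ (k + l + 1) := by clear * - b1 b2 b4 b5 b7 y13 y20 y22 z31; linarith
    have r529 : (k - j) % 2 = 0 := by clear * - ev n1p n2p n3p; omega
    have r530 : (k - i) % 2 = 0 := by clear * - ev n1p n2p n3p; omega
    have r531 : (i + l + i2 + 1) % 2 = 0 := by clear * - ev n1p n2p n3p; omega
    clear * - al a1 b tt n1 kk517 kk518 kk519 kk520 kk521 kk522 kk523 kk524 kk525 kk526 kk527 kk528 r529 r530 r531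
    exact ivt al.ninv (i + 1) (i + l + 1) (k - i) (i + 1) (j) (k - j) (j) (k) 0 (fun t h1 h2 => (qf b al 0 t (t + (k - i)) (by omega))) (fun t h1 h2 => (cE (sh al (-1) t (t + (-n)) (by omega)) (qf a1 al (-1) (t + (-n)) (t + (k - j)) (by omega)))) (fun hh => n1.f0 (rEE (sh al 0 (j) (j) (by omega)) (sh al 0 (k) (k) (by omega)) (Eq.symm hh))) (by omega) (Q) (i2) (i + l + i2 + 1) 0 0 (fun t h1 h2 => (cI (sh al (-1) t (t + (-n)) (by omega)) (qa tt al (-1) (t + (-n)) ((i + l + i2 + 1) - t) (by omega)))) (by omega)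
  · exact yf2_13 al hy a1 a2 s1 s2 b tt c u1 u2 D1 D2 mx hL bd0 bd2 n1 n2 n3 (by clear * - b0; omega) (by clear * - b1; omega) (by clear * - b2; omega) (by clear * - b3; omega) (by clear * - b4; omega) (by clear * - b5; omega) (by clear * - b6; omega) (by clear * - b7; omega) (by clear * - z31; omega)

end Pool.Agent.MP_a38735_al.WL
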