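import Pool.Agent.MP_a38735_al.WT

set_option autoImplicit false
set_option linter.unusedVariables false

namespace Pool.Agent.MP_a38735_al.WL

variable {G : Type*} [Group G]

theorem rz6_24 {W : ℤ → G} {n Q i j h de j3 ph : ℤ} (al : AL W n Q)
    (hy : (0) ≤ (i) ∧ (i) ≤ (j) ∧ (j + 1) ≤ (Q) ∧ (i) ≤ (j3) ∧ (j3 + 1) ≤ (Q) ∧ (0) ≤ (de) ∧ (de + 1) ≤ (j3) ∧ (Q + j3) ≤ (i + h + de) ∧ (j + 1) ≤ (h) ∧ (0) ≤ (ph) ∧ (ph + 1) ≤ (h) ∧ (3 * h + j3 + 2 * ph) ≤ (n + i) ∧ (3 * j3 + 1) ≤ (i + h + 2 * de) ∧ (i + 1) ≤ (de) ∧ (j + 1) ≤ (j3) ∧ (de) ≤ (j) ∧ (j) ≤ (de))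
    (a1 : Par W (0) (j) (i + h - j))
    (a2 : Par W (Q + j - i - h) (j) (i + h - j))
    (s1 : Ant W (0) (i) (i + j))
    (s2 : Ant W (j + 1) (Q) (i + j))
    (u1 : Ant W (0) (i) (i + j3))
    (u2 : Ant W (j3 + 1) (Q) (i + j3))
    (GG : Par W (i + 1) (h + de + ph) (h))
    (AL0 : Par W (i - ph + 1) (de) (ph))
    (AL1 : Par W (i - h - ph + 1) (de) (h + ph))
    (BE : Par W (de + 1) (j3) (i + h - j3))
    (T2 : Ant W (Q) (i + h + de - j3) (i + 2 * h + 2 * de + ph - j3))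
    (n1 : Nd W (j) (i) (i + h))
    (n4 : Nd W (h + de + ph) (i + h + de - j3) (de))
    (n5 : Nd W (j3) (i) (i + h))
    (d1 : ℤ) (q1 : d1 % 2 = 0) (x1 : Par W (n + i - ph + 1) (n + de + ph - d1) d1)
    (b0 : (i + h) ≤ (j + ph))
    (b1 : (i + j + 2) ≤ (Q))
    (b2 : (j + ph) ≤ (i + h))
    (b3 : (2 * Q + j3) ≤ (i + h + 2 * de + 1))
    (b4 : (4 * i + 3 * h + 3 * ph + 2) ≤ (2 * Q + 2 * j))
    (b5 : (j3) ≤ (i + d1))
    (b6 : (i + d1 + 1) ≤ (j3 + ph)) : False := by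
  have ev := al.ev
  obtain ⟨y0, y1, y2, y3, y4, y5, y6, y7, y8, y9, y10, y11, y12, y13, y14, y15, y16⟩ := id hy
  have n1p := And.intro n1.p1 n1.p2
  have n4p := And.intro n4.p1 n4.p2
  have n5p := And.intro n5.p1 n5.p2
  by_cases z29 : (i + j + d1 + 1) ≤ (2 * Q)
  · have kk243 : (i + j + d1 + 2) ≤ (2 * Q) := by clear * - z29 ev n1p n4p n5p q1; omega
    have kk244 : (j + 1) ≤ (i + d1) := by clear * - b5 y14; omega
    have kk245 : (Q) ≤ (j + ph) := by clear * - b0 b3 b5 y14 y15 z29; omega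
    have kk246 : (i + d1) ≤ (de + ph) := by clear * - b0 b3 b6 z29; omega
    have r247 : (4 * n + i + j + d1) % 2 = 0 := by clear * - ev n1p n4p n5p q1; omega
    clear * - al s2 x1 kk243 kk244 kk245 kk246 r247
    obtain ⟨t, ht⟩ : ∃ t, 2 * t = (4 * n + i + j + d1) := ⟨(4 * n + i + j + d1) / 2, by omega⟩
    exact al.ninv t (cE (cI (pb x1 al 1 t (t + (-n - d1)) (by omega)) (ab s2 al 1 (t + (-n - d1)) ((2 * n + i + j + d1) - t) (by omega))) (sh al 2 ((2 * n + i + j + d1) - t) t (by omega)))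
  · by_cases z30 : (j3 + d1) ≤ (h + de)
    · by_cases z31 : (h + de) ≤ (j3 + d1 + 1)
      · have kk248 : (j3 + d1) ≤ (h + de) := by clear * - z30; omega
        have kk249 : (h + de) ≤ (j3 + d1 + 1) := by clear * - z31; omega
        have kk250 : (de) ≤ (j) := by clear * - y15; omega
        have kk251 : (j) ≤ (de) := by clear * - y16; omega
        have kk252 : (1) ≤ (h) := by clear * - b2 b4 b5 b6 y15 z29 z30; linarith
        have kk253 : (i + 1) ≤ (de + ph) := by clear * - b2 b3 b4 b5 b6 z29; omega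
        have kk254 : (de + ph) ≤ (i + h) := by clear * - b2 y15; omega
        have kk255 : (i + h) ≤ (de + ph) := by clear * - b0 y16; omega
        have kk256 : (1) ≤ (ph) := by clear * - b5 b6; omega
        have kk257 : (i + d1 + 1) ≤ (de + ph) := by clear * - b0 b6 y16 z30; omega
        have r258 : (4 * n + 2 * i + h + de + d1 - j3) % 2 = 0 := by clear * - y15 y16 ev n1p n4p n5p q1; omega
        clear * - al GG x1 n1 n4 kk248 kk249 kk250 kk251 kk252 kk253 kk254 kk255 kk256 kk257 r258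
        obtain ⟨t, ht⟩ : ∃ t, 2 * t = (4 * n + 2 * i + h + de + d1 - j3) := ⟨(4 * n + 2 * i + h + de + d1 - j3) / 2, by omega⟩
        exact al.ninv t (cE (cI (pb x1 al 1 t (t + (-n - d1)) (by omega)) (qa (uA (i) (i + h + de - j3) (2 * i + h + de - j3) (by omega) (lat n1.r5 n4.r2 (iNN (sh al 0 (j) (de) (by omega))) (qf GG al 0 (i + h) (h + de + ph) (by omega)))) al 1 (t + (-n - d1)) ((2 * n + 2 * i + h + de + d1 - j3) - t) (by omega))) (sh al 2 ((2 * n + 2 * i + h + de + d1 - j3) - t) t (by omega)))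
      · have kk259 : (i + j3 + d1 + 2) ≤ (2 * de + ph) := by clear * - b0 y16 z31; omega
        have kk260 : (i + d1 + 1) ≤ (j3 + ph) := by clear * - b6; omega
        have kk261 : (de + ph) ≤ (i + h) := by clear * - b2 y15; omega
        have kk262 : (0) ≤ (ph) := by clear * - b5 b6; omega
        have kk263 : (0) ≤ (h) := by clear * - b2 b4 b5 b6 y15 z29 z31; linarith
        have kk264 : (0) ≤ (d1) := by clear * - b2 b4 b5 b6 z29; omega
        have kk265 : (0) ≤ (h + d1) := by clear * - b2 b4 b5 b6 y15 z29 z31; linarith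
        have kk266 : (Q + j3) ≤ (i + de + d1 + 1) := by clear * - y16 y4 z29; omega
        have r267 : (4 * n + i + 2 * de + ph + d1 - j3) % 2 = 0 := by clear * - ev n1p n4p n5p q1; omega
        clear * - al GG T2 x1 kk259 kk260 kk261 kk262 kk263 kk264 kk265 kk266 r267
        obtain ⟨t, ht⟩ : ∃ t, 2 * t = (4 * n + i + 2 * de + ph + d1 - j3) := ⟨(4 * n + i + 2 * de + ph + d1 - j3) / 2, by omega⟩
        exact al.ninv t (cE (cI (cE (cE (pb x1 al 1 t (t + (-n - d1)) (by omega)) (qf GG al 1 (t + (-n - d1)) (t + (h - 2 * n - d1)) (by omega))) (qf GG al 0 (t + (h - 2 * n - d1)) (t + (2 * h - 2 * n - d1)) (by omega))) (ab T2 al 0 (t + (2 * h - 2 * n - d1)) ((2 * n + i + 2 * de + ph + d1 - j3) - t) (by omega))) (sh al 2 ((2 * n + i + 2 * de + ph + d1 - j3) - t) t (by omega)))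
    · by_cases v6 : (i + d1) ≤ (de + ph)
      · have kk268 : (j + h + 2) ≤ (j3 + d1) := by clear * - y16 z30 ev n1p n4p n5p q1; omega
        have kk269 : (j + d1 + 1) ≤ (h + j3) := by clear * - b2 b6; omega
        have kk270 : (de) ≤ (j) := by clear * - y15; omega
        have kk271 : (i + d1) ≤ (de + ph) := by clear * - v6; omega
        have kk272 : (j3) ≤ (j + ph) := by clear * - b5 v6 y15; omega
        have kk273 : (j3) ≤ (Q) := by clear * - y4; omega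
        have r274 : (2 * i + j + h + d1 - 2 * n - j3) % 2 = 0 := by clear * - ev n1p n4p n5p q1; omega
        clear * - al s2 BE x1 kk268 kk269 kk270 kk271 kk272 kk273 r274
        obtain ⟨t, ht⟩ : ∃ t, 2 * t = (2 * i + j + h + d1 - 2 * n - j3) := ⟨(2 * i + j + h + d1 - 2 * n - j3) / 2, by omega⟩
        exact al.ninv t (cE (cE (cI (pb BE al (-1) t (t + (n + j3 - i - h)) (by omega)) (qa s2 al 0 (t + (n + j3 - i - h)) ((2 * i + j + h - n - j3) - t) (by omega))) (qf x1 al (-1) ((2 * i + j + h - n - j3) - t) ((2 * i + j + h + d1 - j3) - t) (by omega))) (sh al (-2) ((2 * i + j + h + d1 - j3) - t) t (by omega)))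
      · have kk275 : (2 * i + j + h + d1 + 2) ≤ (2 * de + j3 + 2 * ph) := by clear * - b0 b6 y16 ev n1p n4p n5p q1; omega
        have kk276 : (j + d1 + 1) ≤ (h + j3) := by clear * - b2 b6; omega
        have kk277 : (de) ≤ (j) := by clear * - y15; omega
        have kk278 : (de + ph) ≤ (i + d1) := by clear * - v6; omega
        have kk279 : (j3) ≤ (j + ph) := by clear * - b0 b6 v6 y12; omega
        have kk280 : (j3) ≤ (Q) := by clear * - y4; omega
        have r281 : (2 * i + j + h + d1 - 2 * n - j3) % 2 = 0 := by clear * - ev n1p n4p n5p q1; omega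
        clear * - al s2 BE x1 kk275 kk276 kk277 kk278 kk279 kk280 r281
        obtain ⟨t, ht⟩ : ∃ t, 2 * t = (2 * i + j + h + d1 - 2 * n - j3) := ⟨(2 * i + j + h + d1 - 2 * n - j3) / 2, by omega⟩
        exact al.ninv t (cE (cE (cI (pb BE al (-1) t (t + (n + j3 - i - h)) (by omega)) (qa s2 al 0 (t + (n + j3 - i - h)) ((2 * i + j + h - n - j3) - t) (by omega))) (qf x1 al (-1) ((2 * i + j + h - n - j3) - t) ((2 * i + j + h + d1 - j3) - t) (by omega))) (sh al (-2) ((2 * i + j + h + d1 - j3) - t) t (by omega)))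

theorem rz6_25 {W : ℤ → G} {n Q i j h de j3 ph : ℤ} (al : AL W n Q)
    (hy : (0) ≤ (i) ∧ (i) ≤ (j) ∧ (j + 1) ≤ (Q) ∧ (i) ≤ (j3) ∧ (j3 + 1) ≤ (Q) ∧ (0) ≤ (de) ∧ (de + 1) ≤ (j3) ∧ (Q + j3) ≤ (i + h + de) ∧ (j + 1) ≤ (h) ∧ (0) ≤ (ph) ∧ (ph + 1) ≤ (h) ∧ (3 * h + j3 + 2 * ph) ≤ (n + i) ∧ (3 * j3 + 1) ≤ (i + h + 2 * de) ∧ (i + 1) ≤ (de) ∧ (j + 1) ≤ (j3) ∧ (de) ≤ (j) ∧ (j) ≤ (de))
    (a1 : Par W (0) (j) (i + h - j))
    (a2 : Par W (Q + j - i - h) (j) (i + h - j))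
    (s1 : Ant W (0) (i) (i + j))
    (s2 : Ant W (j + 1) (Q) (i + j))
    (u1 : Ant W (0) (i) (i + j3))
    (u2 : Ant W (j3 + 1) (Q) (i + j3))
    (GG : Par W (i + 1) (h + de + ph) (h))
    (AL0 : Par W (i - ph + 1) (de) (ph))
    (AL1 : Par W (i - h - ph + 1) (de) (h + ph))
    (BE : Par W (de + 1) (j3) (i + h - j3))
    (T2 : Ant W (Q) (i + h + de - j3) (i + 2 * h + 2 * de + ph - j3))
    (n1 : Nd W (j) (i) (i + h))
    (n4 : Nd W (h + de + ph) (i + h + de - j3) (de))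
    (n5 : Nd W (j3) (i) (i + h))
    (d1 : ℤ) (q1 : d1 % 2 = 0) (x1 : Par W (i - ph + 1) (de + ph - d1) d1)
    (b0 : (i + h) ≤ (j + ph))
    (b1 : (i + j + 2) ≤ (Q))
    (b2 : (j + ph) ≤ (i + h))
    (b3 : (2 * Q + 2 * j) ≤ (4 * i + 3 * h + 3 * ph + 1))
    (b4 : (3 * i + 2 * h + j3 + 3 * ph + 1) ≤ (3 * j + de))
    (b5 : (3 * j + j3 + 2) ≤ (2 * i + 3 * h + 3 * ph))
    (b6 : (h + de) ≤ (j3 + d1))
    (b7 : (j3 + d1 + 1) ≤ (h + de + ph)) : False := by
  have ev := al.ev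
  obtain ⟨y0, y1, y2, y3, y4, y5, y6, y7, y8, y9, y10, y11, y12, y13, y14, y15, y16⟩ := id hy
  have n1p := And.intro n1.p1 n1.p2
  have n4p := And.intro n4.p1 n4.p2
  have n5p := And.intro n5.p1 n5.p2
  by_cases z34 : (2 * Q + j3) ≤ (i + 2 * de + d1 + 1)
  · by_cases v7 : (Q + j3 + ph) ≤ (i + de + d1 + 1)
    · have kk313 : (i + d1 + 2) ≤ (j3 + 2 * ph) := by clear * - b0 b7 y14 y15; omega
      have kk314 : (j3 + d1 + 1) ≤ (i + 2 * h) := by clear * - b2 b7 y15; omega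
      have kk315 : (ph) ≤ (d1) := by clear * - b2 b4 b6 b7; omega
      have kk316 : (Q + j3 + ph) ≤ (i + de + d1 + 1) := by clear * - v7; omega
      have kk317 : (i + h) ≤ (de + ph) := by clear * - b0 y16; omega
      have kk318 : (i) ≤ (de + ph) := by clear * - b2 b4 b6 b7 y14; omega
      have r319 : (i + 2 * de + d1 - j3) % 2 = 0 := by clear * - ev n1p n4p n5p q1; omega
      clear * - al GG AL1 T2 x1 kk313 kk314 kk315 kk316 kk317 kk318 r319
      obtain ⟨t, ht⟩ : ∃ t, 2 * t = (i + 2 * de + d1 - j3) := ⟨(i + 2 * de + d1 - j3) / 2, by omega⟩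
      exact al.ninv t (cE (cE (cE (qa T2 al 0 t ((i + 2 * h + 2 * de + ph - j3) - t) (by omega)) (pb GG al 0 ((i + 2 * h + 2 * de + ph - j3) - t) ((i + h + 2 * de + ph - j3) - t) (by omega))) (pb AL1 al 0 ((i + h + 2 * de + ph - j3) - t) ((i + 2 * de - j3) - t) (by omega))) (qf x1 al 0 ((i + 2 * de - j3) - t) t (by omega)))
    · have kk320 : (2 * Q + j3) ≤ (i + 2 * de + d1) := by clear * - z34 ev n1p n4p n5p q1; omega
      have kk321 : (j3 + d1 + 1) ≤ (i + 2 * h) := by clear * - b2 b7 y15; omega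
      have kk322 : (ph) ≤ (d1) := by clear * - b2 b4 b6 b7; omega
      have kk323 : (i + de + d1 + 1) ≤ (Q + j3 + ph) := by clear * - v7; omega
      have kk324 : (i + h) ≤ (de + ph) := by clear * - b0 y16; omega
      have kk325 : (i) ≤ (de + ph) := by clear * - b2 b4 b6 b7 v7 y16 z34; linarith
      have r326 : (i + 2 * de + d1 - j3) % 2 = 0 := by clear * - ev n1p n4p n5p q1; omega
      clear * - al GG AL1 T2 x1 kk320 kk321 kk322 kk323 kk324 kk325 r326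
      obtain ⟨t, ht⟩ : ∃ t, 2 * t = (i + 2 * de + d1 - j3) := ⟨(i + 2 * de + d1 - j3) / 2, by omega⟩
      exact al.ninv t (cE (cE (cE (qa T2 al 0 t ((i + 2 * h + 2 * de + ph - j3) - t) (by omega)) (pb GG al 0 ((i + 2 * h + 2 * de + ph - j3) - t) ((i + h + 2 * de + ph - j3) - t) (by omega))) (pb AL1 al 0 ((i + h + 2 * de + ph - j3) - t) ((i + 2 * de - j3) - t) (by omega))) (qf x1 al 0 ((i + 2 * de - j3) - t) t (by omega)))
  · have kk327 : (j3 + 1) ≤ (i + h) := by clear * - b2 b3 b4 b6 b7 y12 z34; linarith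
    have kk328 : (3 * i + 3 * h + 3 * ph + 1) ≤ (3 * j + d1) := by clear * - b4 b6; omega
    have kk329 : (3 * j + de + d1) ≤ (3 * i + 3 * h + j3 + 3 * ph) := by clear * - b3 y16 z34; omega
    have kk330 : (4 * i + 3 * h + 2 * ph + 1) ≤ (3 * j + de) := by clear * - b0 b3 b4 b6 y16 z34; omega
    have kk331 : (3 * j + d1) ≤ (2 * i + 2 * h + j3 + 4 * ph) := by clear * - b0 b3 y16 z34; omega
    have kk332 : (0) ≤ (i + 1) := by clear * - y0; omega
    have kk333 : (j) ≤ (de + ph) := by clear * - b6 b7 y16; omega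
    have kk334 : (j) ≤ (i + h + ph) := by clear * - b2 b6 b7; omega
    have kk335 : (2 * i + 2 * h + de + 4 * ph) ≤ (3 * j + d1) := by clear * - b2 b4 b6 y15; omega
    have kk336 : (i + h + de + 3 * ph) ≤ (2 * j + d1) := by clear * - b2 b4 b6 b7 y15; omega
    have kk337 : (de + 2 * ph) ≤ (j + d1) := by clear * - b2 b4 b6 b7 y15; omega
    have r338 : (i + h - j3) % 2 = 0 := by clear * - ev n1p n4p n5p q1; omega
    have r339 : (3 * j + d1 - 3 * i - 3 * h - 3 * ph) % 2 = 0 := by clear * - ev n1p n4p n5p q1; omega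
    clear * - al a1 AL0 BE x1 n4 kk327 kk328 kk329 kk330 kk331 kk332 kk333 kk334 kk335 kk336 kk337 r338 r339
    exact n4.f1 (rEE (sh al 0 (i + h + de - j3) (i + h + de - j3) (by omega)) (sh al 0 (de) (de) (by omega)) (Eq.symm (rotL (i + h - j3) (3 * j + d1 - 3 * i - 3 * h - 3 * ph) (de) (i + h + de - j3) (by omega) (fun t h1 h2 => (qf BE al 0 t (t + (i + h - j3)) (by omega))) (fun t h1 h2 => (cE (cE (cE (pb (show Par W (n + i - ph + 1) (n + j - ph) (i + h + ph - j) from fun t h1 h2 => (cE (sh al (-2) t (t + (-2 * n)) (by omega)) (cE (cE (qf AL0 al (-1) (t + (-2 * n)) (t + (ph - n)) (by omega)) (qf a1 al 0 (t + (ph - n)) (t + (i + h + ph - n - j)) (by omega))) (sh al 1 (t + (i + h + ph - n - j)) (t + (i + h + ph - j)) (by omega))))) al (-1) t (t + (n + j - i - h - ph)) (by omega)) (pb (show Par W (n + i - ph + 1) (n + j - ph) (i + h + ph - j) from fun t h1 h2 => (cE (sh al (-2) t (t + (-2 * n)) (by omega))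 (cE (cE (qf AL0 al (-1) (t + (-2 * n)) (t + (ph - n)) (by omega)) (qf a1 al 0 (t + (ph - n)) (t + (i + h + ph - n - j)) (by omega))) (sh al 1 (t + (i + h + ph - n - j)) (t + (i + h + ph - j)) (by omega))))) al 0 (t + (n + j - i - h - ph)) (t + (n + 2 * j - 2 * i - 2 * h - 2 * ph)) (by omega))) (pb (show Par W (n + i - ph + 1) (n + j - ph) (i + h + ph - j) from fun t h1 h2 => (cE (sh al (-2) t (t + (-2 * n)) (by omega)) (cE (cE (qf AL0 al (-1) (t + (-2 * n)) (t + (ph - n)) (by omega)) (qf a1 al 0 (t + (ph - n)) (t + (i + h + ph - n - j)) (by omega))) (sh al 1 (t + (i + h + ph - n - j)) (t + (i + h + ph - j)) (by omega))))) al 0 (t + (n + 2 * j - 2 * i - 2 * h - 2 * ph)) (t + (n + 3 * j - 3 * i - 3 * h - 3 * ph)) (by omega))) (qf x1 al 1 (t + (n + 3 * j - 3 * i - 3 * h - 3 * ph)) (t + (3 * j + d1 - 3 * i - 3 * h - 3 * ph)) (by omega)))))))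

theorem rz6_23 {W : ℤ → G} {n Q i j h de j3 ph : ℤ} (al : AL W n Q)
    (hy : (0) ≤ (i) ∧ (i) ≤ (j) ∧ (j + 1) ≤ (Q) ∧ (i) ≤ (j3) ∧ (j3 + 1) ≤ (Q) ∧ (0) ≤ (de) ∧ (de + 1) ≤ (j3) ∧ (Q + j3) ≤ (i + h + de) ∧ (j + 1) ≤ (h) ∧ (0) ≤ (ph) ∧ (ph + 1) ≤ (h) ∧ (3 * h + j3 + 2 * ph) ≤ (n + i) ∧ (3 * j3 + 1) ≤ (i + h + 2 * de) ∧ (i + 1) ≤ (de) ∧ (j + 1) ≤ (j3) ∧ (de) ≤ (j) ∧ (j) ≤ (de))
    (a1 : Par W (0) (j) (i + h - j))
    (a2 : Par W (Q + j - i - h) (j) (i + h - j))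
    (s1 : Ant W (0) (i) (i + j))
    (s2 : Ant W (j + 1) (Q) (i + j))
    (u1 : Ant W (0) (i) (i + j3))
    (u2 : Ant W (j3 + 1) (Q) (i + j3))
    (GG : Par W (i + 1) (h + de + ph) (h))
    (AL0 : Par W (i - ph + 1) (de) (ph))
    (AL1 : Par W (i - h - ph + 1) (de) (h + ph))
    (BE : Par W (de + 1) (j3) (i + h - j3))
    (T2 : Ant W (Q) (i + h + de - j3) (i + 2 * h + 2 * de + ph - j3))
    (n1 : Nd W (j) (i) (i + h))
    (n4 : Nd W (h + de + ph) (i + h + de - j3) (de))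
    (n5 : Nd W (j3) (i) (i + h))
    (b0 : (2 * Q) ≤ (2 * j + ph + 1))
    (b1 : (i + h) ≤ (j + ph))
    (b2 : (i + j + 2) ≤ (Q))
    (b3 : (j + ph) ≤ (i + h))
    (b4 : (4 * i + 3 * h + 2 * ph) ≤ (4 * j)) : False := by
  have ev := al.ev
  obtain ⟨y0, y1, y2, y3, y4, y5, y6, y7, y8, y9, y10, y11, y12, y13, y14, y15, y16⟩ := id hy
  have n1p := And.intro n1.p1 n1.p2
  have n4p := And.intro n4.p1 n4.p2
  have n5p := And.intro n5.p1 n5.p2
  by_cases z26 : (i + h + 2 * de + 2) ≤ (2 * Q + j3)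
  · have kk211 : (1) ≤ (ph) := by clear * - b0 b3 y12 y16 z26; omega
    have kk212 : (i + 2 * j + h + 2) ≤ (2 * Q + j3) := by clear * - y16 z26; omega
    have kk213 : (i + j3 + 2) ≤ (2 * Q + h + 2 * ph) := by clear * - b0 b3 b4 y12 y16 z26; omega
    have kk214 : (3 * i + 2 * j + h + 2) ≤ (2 * Q + 2 * de + j3 + 2 * ph) := by clear * - b0 b3 b4 y12 y16 z26; omega
    have kk215 : (2 * j + ph + 2) ≤ (i + h + j3) := by clear * - b0 b3 y16 z26 ev n1p n4p n5p; omega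
    have kk216 : (j3 + 2) ≤ (i + h + ph) := by clear * - b0 b3 y12 y16 z26; omega
    have kk217 : (i + 2 * j + h + 2) ≤ (2 * de + j3 + ph) := by clear * - b0 y16 z26 ev n1p n4p n5p; omega
    have kk218 : (de) ≤ (j) := by clear * - y15; omega
    have kk219 : (j3) ≤ (Q) := by clear * - y12 z26; omega
    have kk220 : (i) ≤ (j + ph) := by clear * - b0 b3 b4 y12 y16 z26; omega
    have kk221 : (i) ≤ (de + ph) := by clear * - b0 b3 b4 y12 y16 z26; omega
    have kk222 : (j) ≤ (de) := by clear * - y16; omega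
    have kk223 : (Q) ≤ (j + ph) := by clear * - b0 b3 y12 y16 z26; omega
    have r224 : (i + j - 2 * n) % 2 = 0 := by clear * - ev n1p n4p n5p; omega
    have r225 : (ph) % 2 = 0 := by clear * - ev n1p n4p n5p; omega
    have r226 : (2 * i + j + h - 2 * n - j3) % 2 = 0 := by clear * - ev n1p n4p n5p; omega
    clear * - al s2 AL0 BE kk211 kk212 kk213 kk214 kk215 kk216 kk217 kk218 kk219 kk220 kk221 kk222 kk223 r224 r225 r226
    exact mid2 al (ph) (i + j - 2 * n) (2 * i + j + h - 2 * n - j3) (j - n + 1) (Q - n) 0 (i - n - ph + 1) (de + ph - n) (by omega) (fun t h1 h2 => ⟨by omega, (cE (qa s2 al (-1) t ((i + j - n) - t) (by omega)) (sh al (-1) ((i + j - n) - t) ((i + j - 2 * n) - t) (by omega)))⟩) (fun t h1 h2 => ⟨by omega, (cE (cI (pb BE al (-1) t (t + (n + j3 - i - h)) (by omega)) (qa s2 al 0 (t + (n + j3 - i - h)) ((2 * i + j + h - n - j3) - t) (by omega))) (sh al (-1) ((2 * i + j + h - n - j3) - t) ((2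 * i + j + h - 2 * n - j3) - t) (by omega)))⟩) (fun t h1 h2 => (cE (qf AL0 al (-1) t (t + (n + ph)) (by omega)) (sh al (-1) (t + (n + ph)) (t + (ph)) (by omega))))
  · by_cases z27 : (2 * j + 2 * de + 2) ≤ (3 * i + 2 * h + j3 + 3 * ph)
    · have kk227 : (4 * j + 2) ≤ (3 * i + 2 * h + j3 + 3 * ph) := by clear * - y16 z27; omega
      have kk228 : (3 * i + 2 * h + 3 * ph + 1) ≤ (2 * j + j3) := by clear * - b3 b4 y16 z27; omega
      have kk229 : (0) ≤ (i + 1) := by clear * - y0; omega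
      have kk230 : (j) ≤ (de + ph) := by clear * - b3 b4 y12 y16 z27; omega
      have kk231 : (de) ≤ (j) := by clear * - y15; omega
      have kk232 : (i + ph) ≤ (j) := by clear * - b3 b4 y13 y15; omega
      have kk233 : (2 * i + h + 2 * ph) ≤ (2 * j) := by clear * - b3 b4 y13 y15; omega
      have kk234 : (3 * i + 2 * h + 3 * ph) ≤ (3 * j) := by clear * - b3 b4; omega
      have kk235 : (j3) ≤ (j + ph) := by clear * - b3 b4 y12 y16 z27; omega
      have kk236 : (j3) ≤ (i + h + 2 * ph) := by clear * - b3 b4 y12 y16 z27; omega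
      have kk237 : (j + j3) ≤ (2 * i + 2 * h + 3 * ph) := by clear * - b3 b4 y12 y16 z27; omega
      have kk238 : (j3) ≤ (Q) := by clear * - y4; omega
      have r239 : (5 * i + 4 * h + 3 * ph - 2 * n - 2 * j - j3) % 2 = 0 := by clear * - ev n1p n4p n5p; omega
      clear * - al a1 s2 AL0 BE kk227 kk228 kk229 kk230 kk231 kk232 kk233 kk234 kk235 kk236 kk237 kk238 r239
      obtain ⟨t, ht⟩ : ∃ t, 2 * t = (5 * i + 4 * h + 3 * ph - 2 * n - 2 * j - j3) := ⟨(5 * i + 4 * h + 3 * ph - 2 * n - 2 * j - j3) / 2, by omega⟩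
      exact al.ninv t (cE (cE (cE (cE (cI (pb BE al (-1) t (t + (n + j3 - i - h)) (by omega)) (qa s2 al 0 (t + (n + j3 - i - h)) ((2 * i + j + h - n - j3) - t) (by omega))) (qf (show Par W (n + i - ph + 1) (n + j - ph) (i + h + ph - j) from fun t h1 h2 => (cE (sh al (-2) t (t + (-2 * n)) (by omega)) (cE (cE (qf AL0 al (-1) (t + (-2 * n)) (t + (ph - n)) (by omega)) (qf a1 al 0 (t + (ph - n)) (t + (i + h + ph - n - j)) (by omega))) (sh al 1 (t + (i + h + ph - n - j)) (t + (i + h + ph - j)) (by omega))))) al (-1) ((2 * i + j + h - n - j3) - t) ((3 * i + 2 * h + ph - j3) - t) (by omega))) (qf (show Par W (n + i - ph + 1) (n + j - ph) (i + h + ph - j) from fun t h1 h2 => (cE (sh al (-2) t (t + (-2 * n)) (by omega)) (cE (cE (qf AL0 al (-1) (t + (-2 * n)) (t + (ph - n)) (by omega)) (qf a1 al 0 (t + (ph - n)) (t + (i + h + ph - n - j)) (by omega))) (sh al 1 (t + (i + h + ph - n - j)) (t + (i + h + ph - j)) (by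 omega))))) al 0 ((3 * i + 2 * h + ph - j3) - t) ((4 * i + 3 * h + 2 * ph - j - j3) - t) (by omega))) (qf (show Par W (n + i - ph + 1) (n + j - ph) (i + h + ph - j) from fun t h1 h2 => (cE (sh al (-2) t (t + (-2 * n)) (by omega)) (cE (cE (qf AL0 al (-1) (t + (-2 * n)) (t + (ph - n)) (by omega)) (qf a1 al 0 (t + (ph - n)) (t + (i + h + ph - n - j)) (by omega))) (sh al 1 (t + (i + h + ph - n - j)) (t + (i + h + ph - j)) (by omega))))) al 0 ((4 * i + 3 * h + 2 * ph - j - j3) - t) ((5 * i + 4 * h + 3 * ph - 2 * j - j3) - t) (by omega))) (sh al (-2) ((5 * i + 4 * h + 3 * ph - 2 * j - j3) - t) t (by omega)))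
    · by_cases z28 : (4 * i + 3 * h + 3 * ph + 2) ≤ (2 * Q + 2 * j)
      · have kk240 : (1) ≤ (ph) := by clear * - b1 y12 y14 y15; omega
        have kk241 : (i + 1) ≤ (j3 + ph) := by clear * - b1 y12 y14 y15 z27; omega
        have r242 : (ph) % 2 = 0 := by clear * - ev n1p n4p n5p; omega
        obtain ⟨d1, p1, x1⟩ : ∃ d1, ((j3 + ph - i - 1) - (ph) < d1 ∧ d1 ≤ (j3 + ph - i - 1) ∧ 0 ≤ d1 ∧ d1 % 2 = 0) ∧ Par W (n + i - ph + 1) ((n + de + ph) - d1) d1 := by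
          clear * - al AL0 kk240 kk241 r242
          exact jmp (ph) (n + i - ph + 1) (n + de + ph) (j3 + ph - i - 1) (by omega) (fun t h1 h2 => (cE (qf AL0 al 1 t (t + (ph - n)) (by omega)) (sh al 1 (t + (ph - n)) (t + (ph)) (by omega))))
        replace x1 : Par W (n + i - ph + 1) (n + de + ph - d1) d1 := x1.cq (by clear * -; omega)
        exact rz6_24 al hy a1 a2 s1 s2 u1 u2 GG AL0 AL1 BE T2 n1 n4 n5 d1 (by clear * - p1; omega) x1 (by clear * - b1; omega) (by clear * - b2; omega) (by clear * - b3; omega) (by clear * - z26; omega) (by clear * - z28; omega) (by clear * - p1; omega) (by clear * - p1; omega)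
      · by_cases z32 : (3 * j + de) ≤ (3 * i + 2 * h + j3 + 3 * ph)
        · have kk282 : (3 * j + de) ≤ (3 * i + 2 * h + j3 + 3 * ph) := by clear * - z32; omega
          have kk283 : (3 * i + 2 * h + j3 + 3 * ph) ≤ (3 * j + de + 1) := by clear * - y15 z27; omega
          have kk284 : (0) ≤ (i + 1) := by clear * - y0; omega
          have kk285 : (j) ≤ (de + ph) := by clear * - b3 b4 y12 y16 z32; omega
          have kk286 : (de) ≤ (j) := by clear * - y15; omega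
          have kk287 : (j) ≤ (de) := by clear * - y16; omega
          have kk288 : (1) ≤ (h) := by clear * - b3 b4 y12 y16 z32; omega
          have kk289 : (i + 1) ≤ (de + ph) := by clear * - b3 b4 y12 y16 z32; omega
          have kk290 : (de + ph) ≤ (i + h) := by clear * - b3 y15; omega
          have kk291 : (i + h) ≤ (de + ph) := by clear * - b1 y16; omega
          have kk292 : (j) ≤ (i + h + ph) := by clear * - b3 b4 y12 z27 z32; omega
          have kk293 : (3 * i + 2 * h + j3 + 2 * ph + 1) ≤ (3 * j + de) := by clear * - b3 b4 y12 y16 z32; omega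
          have kk294 : (i + j3 + 1) ≤ (j + de) := by clear * - b3 b4 y12 y16 z32; omega
          have kk295 : (2 * j) ≤ (2 * i + 2 * h + 2 * ph) := by clear * - b3 b4 y12 z27 z32; omega
          have kk296 : (de + 1) ≤ (j3) := by clear * - y14 y15; omega
          have kk297 : (j + de + 1) ≤ (i + h + j3 + ph) := by clear * - b3 b4 y13 y15 z32; omega
          have r298 : (3 * j + de - i - 2 * h - j3 - 3 * ph) % 2 = 0 := by clear * - y15 y16 ev n1p n4p n5p; omega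
          clear * - al a1 GG AL0 n1 n4 kk282 kk283 kk284 kk285 kk286 kk287 kk288 kk289 kk290 kk291 kk292 kk293 kk294 kk295 kk296 kk297 r298
          obtain ⟨t, ht⟩ : ∃ t, 2 * t = (3 * j + de - i - 2 * h - j3 - 3 * ph) := ⟨(3 * j + de - i - 2 * h - j3 - 3 * ph) / 2, by omega⟩
          exact al.ninv t (cI (cE (cE (qf (show Par W (n + i - ph + 1) (n + j - ph) (i + h + ph - j) from fun t h1 h2 => (cE (sh al (-2) t (t + (-2 * n)) (by omega)) (cE (cE (qf AL0 al (-1) (t + (-2 * n)) (t + (ph - n)) (by omega)) (qf a1 al 0 (t + (ph - n)) (t + (i + h + ph - n - j)) (by omega))) (sh al 1 (t + (i + h + ph - n - j)) (t + (i + h + ph - j)) (by omega))))) al (-1) t (t + (n + i + h + ph - j)) (by omega)) (qf (show Par W (n + i - ph + 1) (n + j - ph) (i + h + ph - j) from fun t h1 h2 => (cE (sh al (-2) t (t + (-2 * n)) (by omega)) (cE (cE (qf AL0 al (-1) (t + (-2 * n)) (t + (ph - n)) (by omega)) (qf a1 al 0 (t + (ph -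 n)) (t + (i + h + ph - n - j)) (by omega))) (sh al 1 (t + (i + h + ph - n - j)) (t + (i + h + ph - j)) (by omega))))) al 0 (t + (n + i + h + ph - j)) (t + (n + 2 * i + 2 * h + 2 * ph - 2 * j)) (by omega))) (qf (show Par W (n + i - ph + 1) (n + j - ph) (i + h + ph - j) from fun t h1 h2 => (cE (sh al (-2) t (t + (-2 * n)) (by omega)) (cE (cE (qf AL0 al (-1) (t + (-2 * n)) (t + (ph - n)) (by omega)) (qf a1 al 0 (t + (ph - n)) (t + (i + h + ph - n - j)) (by omega))) (sh al 1 (t + (i + h + ph - n - j)) (t + (i + h + ph - j)) (by omega))))) al 0 (t + (n + 2 * i + 2 * h + 2 * ph - 2 * j)) (t + (n + 3 * i + 3 * h + 3 * ph - 3 * j)) (by omega))) (ab (uA (i) (i + h + de - j3) (2 * i + h + de - j3) (by omega) (lat n1.r5 n4.r2 (iNN (sh al 0 (j) (de) (by omega))) (qf GG al 0 (i + h) (h + de + ph) (by omega)))) al 1 (t + (n + 3 * i + 3 * h + 3 * ph - 3 * j)) t (by omega)))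
        · by_cases z33 : (2 * i + 3 * h + 3 * ph) ≤ (3 * j + j3 + 1)
          · have kk299 : (2 * i + 3 * h + 3 * ph) ≤ (3 * j + j3) := by clear * - z33 ev n1p n4p n5p; omega
            have kk300 : (3 * j + j3 + 1) ≤ (4 * i + 3 * h + 3 * ph) := by clear * - b2 y4 z28 z33; omega
            have kk301 : (0) ≤ (i + 1) := by clear * - b2 y4 z28 z33; omega
            have kk302 : (j) ≤ (de + ph) := by clear * - b1 b2 y12 y15 z28 z33; omega
            have kk303 : (2 * j + 1) ≤ (i + 2 * h + 3 * ph) := by clear * - b1 b2 y12 y15 z28 z32 z33; linarith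
            have kk304 : (j + 1) ≤ (h + 2 * ph) := by clear * - b1 b2 y13 y15 z28; omega
            have kk305 : (i + 1) ≤ (ph) := by clear * - b1 b2 y13 y15 z28 z32 z33; linarith
            have kk306 : (3 * i + 2 * h + 3 * ph) ≤ (3 * j) := by clear * - b3 b4; omega
            have kk307 : (2 * i + h + 2 * ph) ≤ (2 * j) := by clear * - b3 b4 y13 y15; omega
            have kk308 : (i + ph) ≤ (j) := by clear * - b3 b4 y13 y15; omega
            have r309 : (2 * n + 4 * i + 3 * h + j3 + 3 * ph - 3 * j) % 2 = 0 := by clear * - ev n1p n4p n5p; omega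
            clear * - al a1 u1 AL0 kk299 kk300 kk301 kk302 kk303 kk304 kk305 kk306 kk307 kk308 r309
            obtain ⟨t, ht⟩ : ∃ t, 2 * t = (2 * n + 4 * i + 3 * h + j3 + 3 * ph - 3 * j) := ⟨(2 * n + 4 * i + 3 * h + j3 + 3 * ph - 3 * j) / 2, by omega⟩
            exact al.ninv t (cE (cI (cE (cE (pb (show Par W (n + i - ph + 1) (n + j - ph) (i + h + ph - j) from fun t h1 h2 => (cE (sh al (-2) t (t + (-2 * n)) (by omega)) (cE (cE (qf AL0 al (-1) (t + (-2 * n)) (t + (ph - n)) (by omega)) (qf a1 al 0 (t + (ph - n)) (t + (i + h + ph - n - j)) (by omega))) (sh al 1 (t + (i + h + ph - n - j)) (t + (i + h + ph - j)) (by omega))))) al 0 t (t + (j - i - h - ph)) (by omega)) (pb (show Par W (n + i - ph + 1) (n + j - ph) (i + h + ph - j) from fun t h1 h2 => (cE (sh al (-2) t (t + (-2 * n)) (by omega)) (cE (cE (qf AL0 al (-1) (t + (-2 * n)) (t + (ph - n)) (by omega)) (qf a1 al 0 (t + (ph - n)) (t + (i + h + ph - n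 - j)) (by omega))) (sh al 1 (t + (i + h + ph - n - j)) (t + (i + h + ph - j)) (by omega))))) al 0 (t + (j - i - h - ph)) (t + (2 * j - 2 * i - 2 * h - 2 * ph)) (by omega))) (pb (show Par W (n + i - ph + 1) (n + j - ph) (i + h + ph - j) from fun t h1 h2 => (cE (sh al (-2) t (t + (-2 * n)) (by omega)) (cE (cE (qf AL0 al (-1) (t + (-2 * n)) (t + (ph - n)) (by omega)) (qf a1 al 0 (t + (ph - n)) (t + (i + h + ph - n - j)) (by omega))) (sh al 1 (t + (i + h + ph - n - j)) (t + (i + h + ph - j)) (by omega))))) al 0 (t + (2 * j - 2 * i - 2 * h - 2 * ph)) (t + (3 * j - 3 * i - 3 * h - 3 * ph)) (by omega))) (qa u1 al 1 (t + (3 * j - 3 * i - 3 * h - 3 * ph)) ((n + 4 * i + 3 * h + j3 + 3 * ph - 3 * j) - t) (by omega))) (sh al 1 ((n + 4 * i + 3 * h + j3 + 3 * ph - 3 * j) - t) t (by omega)))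
          · have kk310 : (1) ≤ (ph) := by clear * - b1 y12 y14 y15; omega
            have kk311 : (j3 + 1) ≤ (h + de + ph) := by clear * - b1 y12 y14 y15 z32; omega
            have r312 : (ph) % 2 = 0 := by clear * - ev n1p n4p n5p; omega
            obtain ⟨d1, p1, x1⟩ : ∃ d1, ((h + de + ph - j3 - 1) - (ph) < d1 ∧ d1 ≤ (h + de + ph - j3 - 1) ∧ 0 ≤ d1 ∧ d1 % 2 = 0) ∧ Par W (i - ph + 1) ((de + ph) - d1) d1 := by
              clear * - al AL0 kk310 kk311 r312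
              exact jmp (ph) (i - ph + 1) (de + ph) (h + de + ph - j3 - 1) (by omega) (fun t h1 h2 => (qf AL0 al 0 t (t + (ph)) (by omega)))
            replace x1 : Par W (i - ph + 1) (de + ph - d1) d1 := x1.cq (by clear * -; omega)
            exact rz6_25 al hy a1 a2 s1 s2 u1 u2 GG AL0 AL1 BE T2 n1 n4 n5 d1 (by clear * - p1; omega) x1 (by clear * - b1; omega) (by clear * - b2; omega) (by clear * - b3; omega) (by clear * - z28; omega) (by clear * - z32; omega) (by clear * - z33; omega) (by clear * - p1; omega) (by clear * - p1; omega)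

theorem rz6_22 {W : ℤ → G} {n Q i j h de j3 ph : ℤ} (al : AL W n Q)
    (hy : (0) ≤ (i) ∧ (i) ≤ (j) ∧ (j + 1) ≤ (Q) ∧ (i) ≤ (j3) ∧ (j3 + 1) ≤ (Q) ∧ (0) ≤ (de) ∧ (de + 1) ≤ (j3) ∧ (Q + j3) ≤ (i + h + de) ∧ (j + 1) ≤ (h) ∧ (0) ≤ (ph) ∧ (ph + 1) ≤ (h) ∧ (3 * h + j3 + 2 * ph) ≤ (n + i) ∧ (3 * j3 + 1) ≤ (i + h + 2 * de) ∧ (i + 1) ≤ (de) ∧ (j + 1) ≤ (j3) ∧ (de) ≤ (j) ∧ (j) ≤ (de))
    (a1 : Par W (0) (j) (i + h - j))
    (a2 : Par W (Q + j - i - h) (j) (i + h - j))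
    (s1 : Ant W (0) (i) (i + j))
    (s2 : Ant W (j + 1) (Q) (i + j))
    (u1 : Ant W (0) (i) (i + j3))
    (u2 : Ant W (j3 + 1) (Q) (i + j3))
    (GG : Par W (i + 1) (h + de + ph) (h))
    (AL0 : Par W (i - ph + 1) (de) (ph))
    (AL1 : Par W (i - h - ph + 1) (de) (h + ph))
    (BE : Par W (de + 1) (j3) (i + h - j3))
    (T2 : Ant W (Q) (i + h + de - j3) (i + 2 * h + 2 * de + ph - j3))
    (n1 : Nd W (j) (i) (i + h))
    (n4 : Nd W (h + de + ph) (i + h + de - j3) (de))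
    (n5 : Nd W (j3) (i) (i + h))
    (b0 : (2 * Q) ≤ (2 * j + ph + 1))
    (b1 : (i + h) ≤ (j + ph))
    (b2 : (i + j + 2) ≤ (Q))
    (b3 : (j + ph) ≤ (i + h))
    (b4 : (3 * i + 2 * h + j3 + 2 * ph) ≤ (3 * j + de + 1))
    (b5 : (4 * i + 3 * h + 2 * ph + 1) ≤ (2 * Q + 2 * j)) : False := by
  have ev := al.ev
  obtain ⟨y0, y1, y2, y3, y4, y5, y6, y7, y8, y9, y10, y11, y12, y13, y14, y15, y16⟩ := id hy
  have n1p := And.intro n1.p1 n1.p2
  have n4p := And.intro n4.p1 n4.p2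
  have n5p := And.intro n5.p1 n5.p2
  by_cases z25 : (4 * j + 1) ≤ (4 * i + 3 * h + 2 * ph)
  · have kk200 : (4 * j + 2) ≤ (4 * i + 3 * h + 2 * ph) := by clear * - z25 ev n1p n4p n5p; omega
    have kk201 : (4 * i + 3 * h + 2 * ph + 1) ≤ (2 * Q + 2 * j) := by clear * - b5; omega
    have kk202 : (0) ≤ (i + 1) := by clear * - y0; omega
    have kk203 : (j) ≤ (de + ph) := by clear * - b0 b5 y16 z25; omega
    have kk204 : (2 * i + 2 * h + ph) ≤ (3 * j + 1) := by clear * - b0 b3 b5 y0 z25; omega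
    have kk205 : (2 * i + h) ≤ (2 * j) := by clear * - b0 b3 b5 z25; omega
    have kk206 : (i + ph) ≤ (j) := by clear * - b0 b3 b5 z25; omega
    have kk207 : (2 * j) ≤ (2 * i + 2 * h) := by clear * - b0 b3 b5 z25; omega
    have kk208 : (i + h) ≤ (j + ph) := by clear * - b1; omega
    have kk209 : (Q) ≤ (i + h) := by clear * - b0 b3 b5 z25; omega
    have r210 : (2 * j - h) % 2 = 0 := by clear * - ev n1p n4p n5p; omega
    clear * - al a1 s2 AL0 kk200 kk201 kk202 kk203 kk204 kk205 kk206 kk207 kk208 kk209 r210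
    obtain ⟨t, ht⟩ : ∃ t, 2 * t = (2 * j - h) := ⟨(2 * j - h) / 2, by omega⟩
    exact al.ninv t (cE (cE (cI (cE (qf a1 al 0 t (t + (i + h - j)) (by omega)) (qf (show Par W (n + i - ph + 1) (n + j - ph) (i + h + ph - j) from fun t h1 h2 => (cE (sh al (-2) t (t + (-2 * n)) (by omega)) (cE (cE (qf AL0 al (-1) (t + (-2 * n)) (t + (ph - n)) (by omega)) (qf a1 al 0 (t + (ph - n)) (t + (i + h + ph - n - j)) (by omega))) (sh al 1 (t + (i + h + ph - n - j)) (t + (i + h + ph - j)) (by omega))))) al (-1) (t + (i + h - j)) (t + (n + 2 * i + 2 * h + ph - 2 * j)) (by omega))) (qa s2 al 1 (t + (n + 2 * i + 2 * h + ph - 2 * j)) ((3 * j - i - 2 * h - ph) - t) (by omega))) (qf (show Par W (n + i - ph + 1) (n + j - ph) (i + h + ph - j) from fun t h1 h2 => (cE (sh al (-2) t (t + (-2 * n)) (by omega)) (cE (cE (qf AL0 al (-1) (t + (-2 * n)) (t + (ph - n)) (by omega)) (qf a1 al 0 (t + (ph - n)) (t + (i + h + ph - n - j)) (by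 omega))) (sh al 1 (t + (i + h + ph - n - j)) (t + (i + h + ph - j)) (by omega))))) al (-1) ((3 * j - i - 2 * h - ph) - t) ((n + 2 * j - h) - t) (by omega))) (sh al (-1) ((n + 2 * j - h) - t) t (by omega)))
  · exact rz6_23 al hy a1 a2 s1 s2 u1 u2 GG AL0 AL1 BE T2 n1 n4 n5 (by clear * - b0; omega) (by clear * - b1; omega) (by clear * - b2; omega) (by clear * - b3; omega) (by clear * - z25; omega)

theorem rz6_27 {W : ℤ → G} {n Q i j h de j3 ph : ℤ} (al : AL W n Q)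
    (hy : (0) ≤ (i) ∧ (i) ≤ (j) ∧ (j + 1) ≤ (Q) ∧ (i) ≤ (j3) ∧ (j3 + 1) ≤ (Q) ∧ (0) ≤ (de) ∧ (de + 1) ≤ (j3) ∧ (Q + j3) ≤ (i + h + de) ∧ (j + 1) ≤ (h) ∧ (0) ≤ (ph) ∧ (ph + 1) ≤ (h) ∧ (3 * h + j3 + 2 * ph) ≤ (n + i) ∧ (3 * j3 + 1) ≤ (i + h + 2 * de) ∧ (i + 1) ≤ (de) ∧ (j + 1) ≤ (j3) ∧ (de) ≤ (j) ∧ (j) ≤ (de))
    (a1 : Par W (0) (j) (i + h - j))
    (a2 : Par W (Q + j - i - h) (j) (i + h - j))
    (s1 : Ant W (0) (i) (i + j))
    (s2 : Ant W (j + 1) (Q) (i + j))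
    (u1 : Ant W (0) (i) (i + j3))
    (u2 : Ant W (j3 + 1) (Q) (i + j3))
    (GG : Par W (i + 1) (h + de + ph) (h))
    (AL0 : Par W (i - ph + 1) (de) (ph))
    (AL1 : Par W (i - h - ph + 1) (de) (h + ph))
    (BE : Par W (de + 1) (j3) (i + h - j3))
    (T2 : Ant W (Q) (i + h + de - j3) (i + 2 * h + 2 * de + ph - j3))
    (n1 : Nd W (j) (i) (i + h))
    (n4 : Nd W (h + de + ph) (i + h + de - j3) (de))
    (n5 : Nd W (j3) (i) (i + h))
    (d1 : ℤ) (q1 : d1 % 2 = 0) (x1 : Par W (i - n - ph + 1) (de + ph - n - d1) d1)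
    (b0 : (i + h) ≤ (j + ph))
    (b1 : (i + j + 2) ≤ (Q))
    (b2 : (j + ph) ≤ (i + h))
    (b3 : (2 * Q + 2 * j) ≤ (4 * i + 3 * h + 2 * ph))
    (b4 : (3 * i + 2 * h + j3 + 2 * ph + 2) ≤ (3 * j + de))
    (b5 : (3 * j + j3 + 1) ≤ (2 * i + 3 * h + 2 * ph))
    (b6 : (h + de) ≤ (j3 + d1))
    (b7 : (j3 + d1 + 1) ≤ (h + de + ph)) : False := by
  have ev := al.ev
  obtain ⟨y0, y1, y2, y3, y4, y5, y6, y7, y8, y9, y10, y11, y12, y13, y14, y15, y16⟩ := id hy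
  have n1p := And.intro n1.p1 n1.p2
  have n4p := And.intro n4.p1 n4.p2
  have n5p := And.intro n5.p1 n5.p2
  by_cases z37 : (2 * Q + j3) ≤ (i + 2 * de + d1 + 1)
  · by_cases v8 : (i + d1 + 1) ≤ (Q + ph)
    · have kk370 : (j3 + d1 + 2) ≤ (i + 2 * h) := by clear * - b2 b3 b4 b6 v8 y12 y15; linarith
      have kk371 : (2 * Q + j3) ≤ (i + 2 * de + d1 + 1) := by clear * - z37; omega
      have kk372 : (i + h) ≤ (j3 + ph) := by clear * - b0 y14; omega
      have kk373 : (i) ≤ (de + ph) := by clear * - b2 b3 b4 b6 b7 v8 z37; linarith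
      have kk374 : (de + ph) ≤ (j3 + d1) := by clear * - b2 b3 b4 b6 b7 v8; omega
      have kk375 : (i + d1 + 1) ≤ (Q + ph) := by clear * - v8; omega
      have r376 : (i + 2 * de - j3 - d1) % 2 = 0 := by clear * - ev n1p n4p n5p q1; omega
      clear * - al GG AL1 T2 x1 kk370 kk371 kk372 kk373 kk374 kk375 r376
      obtain ⟨t, ht⟩ : ∃ t, 2 * t = (i + 2 * de - j3 - d1) := ⟨(i + 2 * de - j3 - d1) / 2, by omega⟩
      exact al.ninv t (cE (cE (cI (cE (qf AL1 al 0 t (t + (h + ph)) (by omega)) (qf GG al 0 (t + (h + ph)) (t + (2 * h + ph)) (by omega))) (ab T2 al 0 (t + (2 * h + ph)) ((i + 2 * de - j3) - t) (by omega))) (pb x1 al 1 ((i + 2 * de - j3) - t) ((i + 2 * de - n - j3 - d1) - t) (by omega))) (sh al 1 ((i + 2 * de - n - j3 - d1) - t) t (by omega)))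
    · have kk377 : (j3 + d1 + 2) ≤ (i + 2 * h) := by clear * - b2 b7 y15 ev n1p n4p n5p q1; omega
      have kk378 : (i + j3 + d1 + 1) ≤ (2 * de + 2 * ph) := by clear * - b0 b7 y16; omega
      have kk379 : (i + h) ≤ (j3 + ph) := by clear * - b0 y14; omega
      have kk380 : (i) ≤ (de + ph) := by clear * - b2 b4 b6 b7 y14; omega
      have kk381 : (de + ph) ≤ (j3 + d1) := by clear * - b2 b4 b6 b7 y14 y15; omega
      have kk382 : (Q + ph) ≤ (i + d1 + 1) := by clear * - v8; omega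
      have r383 : (i + 2 * de - j3 - d1) % 2 = 0 := by clear * - ev n1p n4p n5p q1; omega
      clear * - al GG AL1 T2 x1 kk377 kk378 kk379 kk380 kk381 kk382 r383
      obtain ⟨t, ht⟩ : ∃ t, 2 * t = (i + 2 * de - j3 - d1) := ⟨(i + 2 * de - j3 - d1) / 2, by omega⟩
      exact al.ninv t (cE (cE (cI (cE (qf AL1 al 0 t (t + (h + ph)) (by omega)) (qf GG al 0 (t + (h + ph)) (t + (2 * h + ph)) (by omega))) (ab T2 al 0 (t + (2 * h + ph)) ((i + 2 * de - j3) - t) (by omega))) (pb x1 al 1 ((i + 2 * de - j3) - t) ((i + 2 * de - n - j3 - d1) - t) (by omega))) (sh al 1 ((i + 2 * de - n - j3 - d1) - t) t (by omega)))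
  · by_cases z38 : (j3 + d1) ≤ (h + de)
    · have kk384 : (h + de) ≤ (j3 + d1) := by clear * - b6; omega
      have kk385 : (j3 + d1) ≤ (h + de + 1) := by clear * - z38; omega
      have kk386 : (de) ≤ (j) := by clear * - y15; omega
      have kk387 : (j) ≤ (de) := by clear * - y16; omega
      have kk388 : (1) ≤ (h) := by clear * - b2 b3 b4 b6 b7 y16 z37; linarith
      have kk389 : (i + 1) ≤ (de + ph) := by clear * - b2 b3 b4 b6 b7 y16 z37; linarith
      have kk390 : (de + ph) ≤ (i + h) := by clear * - b2 y15; omega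
      have kk391 : (i + h) ≤ (de + ph) := by clear * - b0 y16; omega
      have kk392 : (j3 + d1 + 1) ≤ (h + de + ph) := by clear * - b7; omega
      have kk393 : (i + h + 1) ≤ (j3 + ph) := by clear * - b0 b3 b4 b6 y16 z37; omega
      have r394 : (2 * i + h + de - 4 * n - j3 - d1) % 2 = 0 := by clear * - y15 y16 ev n1p n4p n5p q1; omega
      clear * - al GG x1 n1 n4 kk384 kk385 kk386 kk387 kk388 kk389 kk390 kk391 kk392 kk393 r394
      obtain ⟨t, ht⟩ : ∃ t, 2 * t = (2 * i + h + de - 4 * n - j3 - d1) := ⟨(2 * i + h + de - 4 * n - j3 - d1) / 2, by omega⟩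
      exact al.ninv t (cE (cI (qf x1 al (-1) t (t + (n + d1)) (by omega)) (ab (uA (i) (i + h + de - j3) (2 * i + h + de - j3) (by omega) (lat n1.r5 n4.r2 (iNN (sh al 0 (j) (de) (by omega))) (qf GG al 0 (i + h) (h + de + ph) (by omega)))) al (-1) (t + (n + d1)) ((2 * i + h + de - 2 * n - j3 - d1) - t) (by omega))) (sh al (-2) ((2 * i + h + de - 2 * n - j3 - d1) - t) t (by omega)))
    · have kk395 : (j + h + 2) ≤ (j3 + d1) := by clear * - y16 z38 ev n1p n4p n5p q1; omega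
      have kk396 : (j + d1 + 1) ≤ (h + j3) := by clear * - b3 b4 y16 z37 z38; omega
      have kk397 : (de) ≤ (j) := by clear * - y15; omega
      have kk398 : (i + d1) ≤ (de + ph) := by clear * - b0 b3 b4 y16 z37; omega
      have kk399 : (j3) ≤ (j + ph) := by clear * - b0 b3 b4 b7 y12 z37 z38; linarith
      have kk400 : (j3) ≤ (Q) := by clear * - y4; omega
      have r401 : (2 * i + j + h + d1 - j3) % 2 = 0 := by clear * - ev n1p n4p n5p q1; omega
      clear * - al s2 BE x1 kk395 kk396 kk397 kk398 kk399 kk400 r401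
      obtain ⟨t, ht⟩ : ∃ t, 2 * t = (2 * i + j + h + d1 - j3) := ⟨(2 * i + j + h + d1 - j3) / 2, by omega⟩
      exact al.ninv t (cE (cE (cI (pb BE al 0 t (t + (j3 - i - h)) (by omega)) (qa s2 al 0 (t + (j3 - i - h)) ((2 * i + j + h - j3) - t) (by omega))) (qf x1 al 1 ((2 * i + j + h - j3) - t) ((2 * i + j + h + d1 - n - j3) - t) (by omega))) (sh al 1 ((2 * i + j + h + d1 - n - j3) - t) t (by omega)))

theorem rz6_26 {W : ℤ → G} {n Q i j h de j3 ph : ℤ} (al : AL W n Q)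
    (hy : (0) ≤ (i) ∧ (i) ≤ (j) ∧ (j + 1) ≤ (Q) ∧ (i) ≤ (j3) ∧ (j3 + 1) ≤ (Q) ∧ (0) ≤ (de) ∧ (de + 1) ≤ (j3) ∧ (Q + j3) ≤ (i + h + de) ∧ (j + 1) ≤ (h) ∧ (0) ≤ (ph) ∧ (ph + 1) ≤ (h) ∧ (3 * h + j3 + 2 * ph) ≤ (n + i) ∧ (3 * j3 + 1) ≤ (i + h + 2 * de) ∧ (i + 1) ≤ (de) ∧ (j + 1) ≤ (j3) ∧ (de) ≤ (j) ∧ (j) ≤ (de))
    (a1 : Par W (0) (j) (i + h - j))
    (a2 : Par W (Q + j - i - h) (j) (i + h - j))
    (s1 : Ant W (0) (i) (i + j))
    (s2 : Ant W (j + 1) (Q) (i + j))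
    (u1 : Ant W (0) (i) (i + j3))
    (u2 : Ant W (j3 + 1) (Q) (i + j3))
    (GG : Par W (i + 1) (h + de + ph) (h))
    (AL0 : Par W (i - ph + 1) (de) (ph))
    (AL1 : Par W (i - h - ph + 1) (de) (h + ph))
    (BE : Par W (de + 1) (j3) (i + h - j3))
    (T2 : Ant W (Q) (i + h + de - j3) (i + 2 * h + 2 * de + ph - j3))
    (n1 : Nd W (j) (i) (i + h))
    (n4 : Nd W (h + de + ph) (i + h + de - j3) (de))
    (n5 : Nd W (j3) (i) (i + h))
    (b0 : (i + h) ≤ (j + ph))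
    (b1 : (i + j + 2) ≤ (Q))
    (b2 : (j + ph) ≤ (i + h))
    (b3 : (3 * i + 2 * h + j3 + 2 * ph) ≤ (3 * j + de + 1))
    (b4 : (2 * Q + 2 * j) ≤ (4 * i + 3 * h + 2 * ph)) : False := by
  have ev := al.ev
  obtain ⟨y0, y1, y2, y3, y4, y5, y6, y7, y8, y9, y10, y11, y12, y13, y14, y15, y16⟩ := id hy
  have n1p := And.intro n1.p1 n1.p2
  have n4p := And.intro n4.p1 n4.p2
  have n5p := And.intro n5.p1 n5.p2
  by_cases z35 : (3 * j + de) ≤ (3 * i + 2 * h + j3 + 2 * ph + 1)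
  · have kk340 : (3 * i + 2 * h + j3 + 2 * ph) ≤ (3 * j + de) := by clear * - b3 y15 y16 ev n1p n4p n5p; by_contra hc; (have ee1 : (j - de) = 0 := (by omega)); omega
    have kk341 : (3 * j + de) ≤ (3 * i + 2 * h + j3 + 2 * ph + 1) := by clear * - z35; omega
    have kk342 : (0) ≤ (i + 1) := by clear * - y0; omega
    have kk343 : (j) ≤ (de + ph) := by clear * - b0 y12 y14 y15; omega
    have kk344 : (de) ≤ (j) := by clear * - y15; omega
    have kk345 : (j) ≤ (de) := by clear * - y16; omega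
    have kk346 : (1) ≤ (h) := by clear * - b0 b3 y12 y14 y15; omega
    have kk347 : (i + 1) ≤ (de + ph) := by clear * - b0 b3 y12 y14 y15; omega
    have kk348 : (de + ph) ≤ (i + h) := by clear * - b2 y15; omega
    have kk349 : (i + h) ≤ (de + ph) := by clear * - b0 y16; omega
    have kk350 : (j) ≤ (2 * i + h + 1) := by clear * - b1 b3 b4 y0 y14 y15; omega
    have kk351 : (j) ≤ (i + h + ph) := by clear * - b0 y12 y14 y15; omega
    have kk352 : (1) ≤ (ph) := by clear * - b0 y12 y14 y15; omega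
    have kk353 : (3 * i + 2 * h + 2 * ph + 1) ≤ (3 * j) := by clear * - b3 y14 y15 ev n1p n4p n5p; omega
    have kk354 : (2 * i + h + 2 * ph + 1) ≤ (2 * j) := by clear * - b2 b3 y13 y14 y15; omega
    have kk355 : (i + ph + 1) ≤ (j) := by clear * - b2 b3 y13 y14 y15; omega
    have r356 : (5 * i + 4 * h + de + 2 * ph - 2 * n - 3 * j - j3) % 2 = 0 := by clear * - y15 y16 ev n1p n4p n5p; omega
    clear * - al a1 GG AL0 n1 n4 kk340 kk341 kk342 kk343 kk344 kk345 kk346 kk347 kk348 kk349 kk350 kk351 kk352 kk353 kk354 kk355 r356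
    obtain ⟨t, ht⟩ : ∃ t, 2 * t = (5 * i + 4 * h + de + 2 * ph - 2 * n - 3 * j - j3) := ⟨(5 * i + 4 * h + de + 2 * ph - 2 * n - 3 * j - j3) / 2, by omega⟩
    exact al.ninv t (cE (cI (cE (cE (pb a1 al (-1) t (t + (n + j - i - h)) (by omega)) (pb (show Par W (n + i - ph + 1) (n + j - ph) (i + h + ph - j) from fun t h1 h2 => (cE (sh al (-2) t (t + (-2 * n)) (by omega)) (cE (cE (qf AL0 al (-1) (t + (-2 * n)) (t + (ph - n)) (by omega)) (qf a1 al 0 (t + (ph - n)) (t + (i + h + ph - n - j)) (by omega))) (sh al 1 (t + (i + h + ph - n - j)) (t + (i + h + ph - j)) (by omega))))) al (-1) (t + (n + j - i - h)) (t + (2 * n + 2 * j - 2 * i - 2 * h - ph)) (by omega))) (pb (show Par W (n + i - ph + 1) (n + j - ph) (i + h + ph - j) from fun t h1 h2 => (cE (sh al (-2) t (t + (-2 * n)) (by omega)) (cE (cE (qf AL0 al (-1) (t + (-2 * n)) (t + (ph - n)) (by omega)) (qf a1 al 0 (t + (ph - n)) (t + (i + h + ph - n - j)) (by omega)))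 (sh al 1 (t + (i + h + ph - n - j)) (t + (i + h + ph - j)) (by omega))))) al 0 (t + (2 * n + 2 * j - 2 * i - 2 * h - ph)) (t + (2 * n + 3 * j - 3 * i - 3 * h - 2 * ph)) (by omega))) (qa (uA (i) (i + h + de - j3) (2 * i + h + de - j3) (by omega) (lat n1.r5 n4.r2 (iNN (sh al 0 (j) (de) (by omega))) (qf GG al 0 (i + h) (h + de + ph) (by omega)))) al 1 (t + (2 * n + 3 * j - 3 * i - 3 * h - 2 * ph)) ((5 * i + 4 * h + de + 2 * ph - n - 3 * j - j3) - t) (by omega))) (sh al (-1) ((5 * i + 4 * h + de + 2 * ph - n - 3 * j - j3) - t) t (by omega)))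
  · by_cases z36 : (2 * i + 3 * h + 2 * ph) ≤ (3 * j + j3)
    · have kk357 : (2 * i + 3 * h + 2 * ph) ≤ (3 * j + j3) := by clear * - z36; omega
      have kk358 : (3 * j + j3 + 1) ≤ (4 * i + 3 * h + 2 * ph) := by clear * - b1 b4 y4 z36; omega
      have kk359 : (0) ≤ (i + 1) := by clear * - b1 b4 y4 z36; omega
      have kk360 : (j) ≤ (de + ph) := by clear * - b0 b1 b4 y12 y15 z36; omega
      have kk361 : (j) ≤ (i + h + ph) := by clear * - b0 b1 b4 y12 y15 z36; omega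
      have kk362 : (j3 + 1) ≤ (h) := by clear * - b1 b4 y12 y15 z35 z36; omega
      have kk363 : (2 * i + h) ≤ (j + j3) := by clear * - b0 b1 b4 y13 y15 z35 z36; linarith
      have kk364 : (i) ≤ (j) := by clear * - y13 y15; omega
      have kk365 : (3 * i + 2 * h + ph) ≤ (2 * j + j3) := by clear * - b0 b1 b4 y13 y15 z35 z36; linarith
      have r366 : (j + j3 - 2 * n - h - 2 * ph) % 2 = 0 := by clear * - ev n1p n4p n5p; omega
      clear * - al a1 u1 AL0 kk357 kk358 kk359 kk360 kk361 kk362 kk363 kk364 kk365 r366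
      obtain ⟨t, ht⟩ : ∃ t, 2 * t = (j + j3 - 2 * n - h - 2 * ph) := ⟨(j + j3 - 2 * n - h - 2 * ph) / 2, by omega⟩
      exact al.ninv t (cE (cE (cE (cI (pb a1 al (-1) t (t + (n + j - i - h)) (by omega)) (qa u1 al 0 (t + (n + j - i - h)) ((2 * i + h + j3 - n - j) - t) (by omega))) (pb (show Par W (n + i - ph + 1) (n + j - ph) (i + h + ph - j) from fun t h1 h2 => (cE (sh al (-2) t (t + (-2 * n)) (by omega)) (cE (cE (qf AL0 al (-1) (t + (-2 * n)) (t + (ph - n)) (by omega)) (qf a1 al 0 (t + (ph - n)) (t + (i + h + ph - n - j)) (by omega))) (sh al 1 (t + (i + h + ph - n - j)) (t + (i + h + ph - j)) (by omega))))) al (-1) ((2 * i + h + j3 - n - j) - t) ((i + j3 - ph) - t) (by omega))) (pb (show Par W (n + i - ph + 1) (n + j - ph) (i + h + ph - j) from fun t h1 h2 => (cE (sh al (-2) t (t + (-2 * n)) (by omega)) (cE (cE (qf AL0 al (-1) (t + (-2 * n)) (t + (ph - n)) (by omega)) (qf a1 al 0 (t + (ph - n)) (t + (i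 + h + ph - n - j)) (by omega))) (sh al 1 (t + (i + h + ph - n - j)) (t + (i + h + ph - j)) (by omega))))) al 0 ((i + j3 - ph) - t) ((j + j3 - h - 2 * ph) - t) (by omega))) (sh al (-2) ((j + j3 - h - 2 * ph) - t) t (by omega)))
    · have kk367 : (1) ≤ (ph) := by clear * - b0 y12 y14 y15; omega
      have kk368 : (j3 + 1) ≤ (h + de + ph) := by clear * - b0 y12 y14 y15 z35; omega
      have r369 : (ph) % 2 = 0 := by clear * - ev n1p n4p n5p; omega
      obtain ⟨d1, p1, x1⟩ : ∃ d1, ((h + de + ph - j3 - 1) - (ph) < d1 ∧ d1 ≤ (h + de + ph - j3 - 1) ∧ 0 ≤ d1 ∧ d1 % 2 = 0) ∧ Par W (i - n - ph + 1) ((de + ph - n) - d1) d1 := by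
        clear * - al AL0 kk367 kk368 r369
        exact jmp (ph) (i - n - ph + 1) (de + ph - n) (h + de + ph - j3 - 1) (by omega) (fun t h1 h2 => (cE (qf AL0 al (-1) t (t + (n + ph)) (by omega)) (sh al (-1) (t + (n + ph)) (t + (ph)) (by omega))))
      replace x1 : Par W (i - n - ph + 1) (de + ph - n - d1) d1 := x1.cq (by clear * -; omega)
      exact rz6_27 al hy a1 a2 s1 s2 u1 u2 GG AL0 AL1 BE T2 n1 n4 n5 d1 (by clear * - p1; omega) x1 (by clear * - b0; omega) (by clear * - b1; omega) (by clear * - b2; omega) (by clear * - b4; omega) (by clear * - z35; omega) (by clear * - z36; omega) (by clear * - p1; omega) (by clear * - p1; omega)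

theorem rz6_21 {W : ℤ → G} {n Q i j h de j3 ph : ℤ} (al : AL W n Q)
    (hy : (0) ≤ (i) ∧ (i) ≤ (j) ∧ (j + 1) ≤ (Q) ∧ (i) ≤ (j3) ∧ (j3 + 1) ≤ (Q) ∧ (0) ≤ (de) ∧ (de + 1) ≤ (j3) ∧ (Q + j3) ≤ (i + h + de) ∧ (j + 1) ≤ (h) ∧ (0) ≤ (ph) ∧ (ph + 1) ≤ (h) ∧ (3 * h + j3 + 2 * ph) ≤ (n + i) ∧ (3 * j3 + 1) ≤ (i + h + 2 * de) ∧ (i + 1) ≤ (de) ∧ (j + 1) ≤ (j3) ∧ (de) ≤ (j) ∧ (j) ≤ (de))
    (a1 : Par W (0) (j) (i + h - j))
    (a2 : Par W (Q + j - i - h) (j) (i + h - j))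
    (s1 : Ant W (0) (i) (i + j))
    (s2 : Ant W (j + 1) (Q) (i + j))
    (u1 : Ant W (0) (i) (i + j3))
    (u2 : Ant W (j3 + 1) (Q) (i + j3))
    (GG : Par W (i + 1) (h + de + ph) (h))
    (AL0 : Par W (i - ph + 1) (de) (ph))
    (AL1 : Par W (i - h - ph + 1) (de) (h + ph))
    (BE : Par W (de + 1) (j3) (i + h - j3))
    (T2 : Ant W (Q) (i + h + de - j3) (i + 2 * h + 2 * de + ph - j3))
    (n1 : Nd W (j) (i) (i + h))
    (n4 : Nd W (h + de + ph) (i + h + de - j3) (de))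
    (n5 : Nd W (j3) (i) (i + h))
    (b0 : (2 * Q) ≤ (2 * j + ph + 1))
    (b1 : (i + h) ≤ (j + ph))
    (b2 : (i + j + 2) ≤ (Q))
    (b3 : (j + ph) ≤ (i + h))
    (b4 : (3 * i + 2 * h + j3 + 2 * ph) ≤ (3 * j + de + 1)) : False := by
  have ev := al.ev
  obtain ⟨y0, y1, y2, y3, y4, y5, y6, y7, y8, y9, y10, y11, y12, y13, y14, y15, y16⟩ := id hy
  have n1p := And.intro n1.p1 n1.p2
  have n4p := And.intro n4.p1 n4.p2
  have n5p := And.intro n5.p1 n5.p2
  by_cases z24 : (4 * i + 3 * h + 2 * ph + 1) ≤ (2 * Q + 2 * j)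
  · exact rz6_22 al hy a1 a2 s1 s2 u1 u2 GG AL0 AL1 BE T2 n1 n4 n5 (by clear * - b0; omega) (by clear * - b1; omega) (by clear * - b2; omega) (by clear * - b3; omega) (by clear * - b4; omega) (by clear * - z24; omega)
  · exact rz6_26 al hy a1 a2 s1 s2 u1 u2 GG AL0 AL1 BE T2 n1 n4 n5 (by clear * - b1; omega) (by clear * - b2; omega) (by clear * - b3; omega) (by clear * - b4; omega) (by clear * - z24; omega)

theorem rz6_20 {W : ℤ → G} {n Q i j h de j3 ph : ℤ} (al : AL W n Q)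
    (hy : (0) ≤ (i) ∧ (i) ≤ (j) ∧ (j + 1) ≤ (Q) ∧ (i) ≤ (j3) ∧ (j3 + 1) ≤ (Q) ∧ (0) ≤ (de) ∧ (de + 1) ≤ (j3) ∧ (Q + j3) ≤ (i + h + de) ∧ (j + 1) ≤ (h) ∧ (0) ≤ (ph) ∧ (ph + 1) ≤ (h) ∧ (3 * h + j3 + 2 * ph) ≤ (n + i) ∧ (3 * j3 + 1) ≤ (i + h + 2 * de) ∧ (i + 1) ≤ (de) ∧ (j + 1) ≤ (j3) ∧ (de) ≤ (j) ∧ (j) ≤ (de))
    (a1 : Par W (0) (j) (i + h - j))
    (a2 : Par W (Q + j - i - h) (j) (i + h - j))
    (s1 : Ant W (0) (i) (i + j))
    (s2 : Ant W (j + 1) (Q) (i + j))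
    (u1 : Ant W (0) (i) (i + j3))
    (u2 : Ant W (j3 + 1) (Q) (i + j3))
    (GG : Par W (i + 1) (h + de + ph) (h))
    (AL0 : Par W (i - ph + 1) (de) (ph))
    (AL1 : Par W (i - h - ph + 1) (de) (h + ph))
    (BE : Par W (de + 1) (j3) (i + h - j3))
    (T2 : Ant W (Q) (i + h + de - j3) (i + 2 * h + 2 * de + ph - j3))
    (n1 : Nd W (j) (i) (i + h))
    (n4 : Nd W (h + de + ph) (i + h + de - j3) (de))
    (n5 : Nd W (j3) (i) (i + h))
    (b0 : (2 * Q) ≤ (2 * j + ph + 1))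
    (b1 : (i + h) ≤ (j + ph))
    (b2 : (i + j + 2) ≤ (Q))
    (b3 : (j + ph) ≤ (i + h))
    (b4 : (6 * i + 4 * h + j3 + 4 * ph) ≤ (5 * j + 2 * de + 1)) : False := by
  have ev := al.ev
  obtain ⟨y0, y1, y2, y3, y4, y5, y6, y7, y8, y9, y10, y11, y12, y13, y14, y15, y16⟩ := id hy
  have n1p := And.intro n1.p1 n1.p2
  have n4p := And.intro n4.p1 n4.p2
  have n5p := And.intro n5.p1 n5.p2
  by_cases z23 : (3 * i + 2 * h + j3 + 2 * ph) ≤ (3 * j + de + 1)
  · exact rz6_21 al hy a1 a2 s1 s2 u1 u2 GG AL0 AL1 BE T2 n1 n4 n5 (by clear * - b0; omega) (by clear * - b1; omega) (by clear * - b2; omega) (by clear * - b3; omega) (by clear * - z23; omega)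
  · have kk402 : (3 * j + 2) ≤ (2 * i + h + j3 + 3 * ph) := by clear * - b1 y16 z23; omega
    have kk403 : (2 * i + h + 3 * ph + 1) ≤ (j + j3) := by clear * - b3 b4 y15 z23; omega
    have kk404 : (0) ≤ (i + 1) := by clear * - y0; omega
    have kk405 : (j) ≤ (de + ph) := by clear * - b1 b4 y12 y15 z23; omega
    have kk406 : (j) ≤ (i + h + ph) := by clear * - b1 b4 y12 y15 z23; omega
    have kk407 : (0) ≤ (ph) := by clear * - b1 b4 y12 y15 z23; omega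
    have kk408 : (2 * i + h + j3 + 2 * ph) ≤ (2 * j + de) := by clear * - b4 y12 y15 z23; omega
    have kk409 : (de) ≤ (j) := by clear * - y15; omega
    have kk410 : (j) ≤ (de + 2 * ph) := by clear * - b1 b4 y12 y15 z23; omega
    have kk411 : (j3) ≤ (Q) := by clear * - y4; omega
    have r412 : (3 * j - h - j3 - 3 * ph) % 2 = 0 := by clear * - ev n1p n4p n5p; omega
    clear * - al a1 s2 AL0 BE kk402 kk403 kk404 kk405 kk406 kk407 kk408 kk409 kk410 kk411 r412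
    obtain ⟨t, ht⟩ : ∃ t, 2 * t = (3 * j - h - j3 - 3 * ph) := ⟨(3 * j - h - j3 - 3 * ph) / 2, by omega⟩
    exact al.ninv t (cI (cE (cE (cE (qf AL0 al 0 t (t + (ph)) (by omega)) (qf (show Par W (n + i - ph + 1) (n + j - ph) (i + h + ph - j) from fun t h1 h2 => (cE (sh al (-2) t (t + (-2 * n)) (by omega)) (cE (cE (qf AL0 al (-1) (t + (-2 * n)) (t + (ph - n)) (by omega)) (qf a1 al 0 (t + (ph - n)) (t + (i + h + ph - n - j)) (by omega))) (sh al 1 (t + (i + h + ph - n - j)) (t + (i + h + ph - j)) (by omega))))) al (-1) (t + (ph)) (t + (n + i + h + 2 * ph - j)) (by omega))) (qf (show Par W (n + i - ph + 1) (n + j - ph) (i + h + ph - j) from fun t h1 h2 => (cE (sh al (-2) t (t + (-2 * n)) (by omega)) (cE (cE (qf AL0 al (-1) (t + (-2 * n)) (t + (ph - n)) (by omega)) (qf a1 al 0 (t + (ph - n)) (t + (i + h + ph - n - j)) (by omega))) (sh al 1 (t + (i + h + ph - n - j)) (t + (i + h + ph - j)) (by omega))))) al 0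 (t + (n + i + h + 2 * ph - j)) (t + (n + 2 * i + 2 * h + 3 * ph - 2 * j)) (by omega))) (pb BE al 1 (t + (n + 2 * i + 2 * h + 3 * ph - 2 * j)) (t + (i + h + j3 + 3 * ph - 2 * j)) (by omega))) (qa s2 al 0 (t + (i + h + j3 + 3 * ph - 2 * j)) t (by omega)))

theorem rz6_19 {W : ℤ → G} {n Q i j h de j3 ph : ℤ} (al : AL W n Q)
    (hy : (0) ≤ (i) ∧ (i) ≤ (j) ∧ (j + 1) ≤ (Q) ∧ (i) ≤ (j3) ∧ (j3 + 1) ≤ (Q) ∧ (0) ≤ (de) ∧ (de + 1) ≤ (j3) ∧ (Q + j3) ≤ (i + h + de) ∧ (j + 1) ≤ (h) ∧ (0) ≤ (ph) ∧ (ph + 1) ≤ (h) ∧ (3 * h + j3 + 2 * ph) ≤ (n + i) ∧ (3 * j3 + 1) ≤ (i + h + 2 * de) ∧ (i + 1) ≤ (de) ∧ (j + 1) ≤ (j3) ∧ (de) ≤ (j) ∧ (j) ≤ (de))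
    (a1 : Par W (0) (j) (i + h - j))
    (a2 : Par W (Q + j - i - h) (j) (i + h - j))
    (s1 : Ant W (0) (i) (i + j))
    (s2 : Ant W (j + 1) (Q) (i + j))
    (u1 : Ant W (0) (i) (i + j3))
    (u2 : Ant W (j3 + 1) (Q) (i + j3))
    (GG : Par W (i + 1) (h + de + ph) (h))
    (AL0 : Par W (i - ph + 1) (de) (ph))
    (AL1 : Par W (i - h - ph + 1) (de) (h + ph))
    (BE : Par W (de + 1) (j3) (i + h - j3))
    (T2 : Ant W (Q) (i + h + de - j3) (i + 2 * h + 2 * de + ph - j3))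
    (n1 : Nd W (j) (i) (i + h))
    (n4 : Nd W (h + de + ph) (i + h + de - j3) (de))
    (n5 : Nd W (j3) (i) (i + h))
    (b0 : (2 * Q) ≤ (2 * j + ph + 1))
    (b1 : (i + h) ≤ (j + ph))
    (b2 : (i + j + 2) ≤ (Q))
    (b3 : (j + ph) ≤ (i + h))
    (b4 : (3 * i + 2 * h + 2 * ph) ≤ (3 * j)) : False := by
  have ev := al.ev
  obtain ⟨y0, y1, y2, y3, y4, y5, y6, y7, y8, y9, y10, y11, y12, y13, y14, y15, y16⟩ := id hy
  have n1p := And.intro n1.p1 n1.p2
  have n4p := And.intro n4.p1 n4.p2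
  have n5p := And.intro n5.p1 n5.p2
  by_cases z22 : (5 * j + 2 * de + 2) ≤ (6 * i + 4 * h + j3 + 4 * ph)
  · have kk185 : (j + 1) ≤ (j3) := by clear * - b4 y16 z22; omega
    have kk186 : (j + j3 + 2) ≤ (2 * Q) := by clear * - b4 y16 y4 z22; omega
    have kk187 : (5 * j + 2 * de + 2) ≤ (6 * i + 4 * h + j3 + 4 * ph) := by clear * - z22; omega
    have kk188 : (j + 2) ≤ (j3) := by clear * - b4 y16 z22; omega
    have kk189 : (0) ≤ (i + 1) := by clear * - y0; omega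
    have kk190 : (j) ≤ (de + ph) := by clear * - b1 b4 y12 y16 z22; omega
    have kk191 : (i + ph) ≤ (j) := by clear * - b3 b4 y13 y15; omega
    have kk192 : (2 * i + h + 2 * ph) ≤ (2 * j) := by clear * - b3 b4 y13 y15; omega
    have kk193 : (Q) ≤ (j + ph) := by clear * - b0 b1 b4 y12 y16 z22; omega
    have kk194 : (Q) ≤ (i + h + 2 * ph) := by clear * - b0 b1 b4 y12 y16 z22; omega
    have kk195 : (j3) ≤ (j + de + 1) := by clear * - b1 b4 y0 y12 y16 z22; omega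
    have kk196 : (de) ≤ (j3) := by clear * - b4 y16 z22; omega
    have kk197 : (3 * i + 2 * h + 2 * ph) ≤ (2 * j + j3) := by clear * - b4 y16 z22; omega
    have r198 : (3 * i + 2 * h + 2 * ph - j) % 2 = 0 := by clear * - ev n1p n4p n5p; omega
    have r199 : (j3 - j) % 2 = 0 := by clear * - ev n1p n4p n5p; omega
    clear * - al a1 s2 AL0 BE kk185 kk186 kk187 kk188 kk189 kk190 kk191 kk192 kk193 kk194 kk195 kk196 kk197 r198 r199
    exact midP al (j3 - j) (3 * i + 2 * h + 2 * ph - j) (j + 1) (j + de - j3 + 1) (j3) (by omega) (fun t h1 h2 => (cE (cE (cE (qa s2 al 0 t ((i + j) - t) (by omega)) (qf (show Par W (n + i - ph + 1) (n + j - ph) (i + h + ph - j) from fun t h1 h2 => (cE (sh al (-2) t (t + (-2 * n)) (by omega)) (cE (cE (qf AL0 al (-1) (t + (-2 * n)) (t + (ph - n)) (by omega)) (qf a1 al 0 (t + (ph - n)) (t + (i + h + ph - n - j)) (by omega))) (sh al 1 (t + (i + h + ph - n - j)) (t + (i + h + ph -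 j)) (by omega))))) al (-1) ((i + j) - t) ((n + 2 * i + h + ph) - t) (by omega))) (qf (show Par W (n + i - ph + 1) (n + j - ph) (i + h + ph - j) from fun t h1 h2 => (cE (sh al (-2) t (t + (-2 * n)) (by omega)) (cE (cE (qf AL0 al (-1) (t + (-2 * n)) (t + (ph - n)) (by omega)) (qf a1 al 0 (t + (ph - n)) (t + (i + h + ph - n - j)) (by omega))) (sh al 1 (t + (i + h + ph - n - j)) (t + (i + h + ph - j)) (by omega))))) al 0 ((n + 2 * i + h + ph) - t) ((n + 3 * i + 2 * h + 2 * ph - j) - t) (by omega))) (sh al (-1) ((n + 3 * i + 2 * h + 2 * ph - j) - t) ((3 * i + 2 * h + 2 * ph - j) - t) (by omega)))) (fun t h1 h2 => (cE (qf a1 al 0 t (t + (i + h - j)) (by omega)) (pb BE al 0 (t + (i + h - j)) (t + (j3 - j)) (by omega))))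
  · exact rz6_20 al hy a1 a2 s1 s2 u1 u2 GG AL0 AL1 BE T2 n1 n4 n5 (by clear * - b0; omega) (by clear * - b1; omega) (by clear * - b2; omega) (by clear * - b3; omega) (by clear * - z22; omega)

theorem rz6_18 {W : ℤ → G} {n Q i j h de j3 ph : ℤ} (al : AL W n Q)
    (hy : (0) ≤ (i) ∧ (i) ≤ (j) ∧ (j + 1) ≤ (Q) ∧ (i) ≤ (j3) ∧ (j3 + 1) ≤ (Q) ∧ (0) ≤ (de) ∧ (de + 1) ≤ (j3) ∧ (Q + j3) ≤ (i + h + de) ∧ (j + 1) ≤ (h) ∧ (0) ≤ (ph) ∧ (ph + 1) ≤ (h) ∧ (3 * h + j3 + 2 * ph) ≤ (n + i) ∧ (3 * j3 + 1) ≤ (i + h + 2 * de) ∧ (i + 1) ≤ (de) ∧ (j + 1) ≤ (j3) ∧ (de) ≤ (j) ∧ (j) ≤ (de))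
    (a1 : Par W (0) (j) (i + h - j))
    (a2 : Par W (Q + j - i - h) (j) (i + h - j))
    (s1 : Ant W (0) (i) (i + j))
    (s2 : Ant W (j + 1) (Q) (i + j))
    (u1 : Ant W (0) (i) (i + j3))
    (u2 : Ant W (j3 + 1) (Q) (i + j3))
    (GG : Par W (i + 1) (h + de + ph) (h))
    (AL0 : Par W (i - ph + 1) (de) (ph))
    (AL1 : Par W (i - h - ph + 1) (de) (h + ph))
    (BE : Par W (de + 1) (j3) (i + h - j3))
    (T2 : Ant W (Q) (i + h + de - j3) (i + 2 * h + 2 * de + ph - j3))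
    (n1 : Nd W (j) (i) (i + h))
    (n4 : Nd W (h + de + ph) (i + h + de - j3) (de))
    (n5 : Nd W (j3) (i) (i + h))
    (b0 : (2 * Q) ≤ (2 * j + ph + 1))
    (b1 : (i + h) ≤ (j + ph))
    (b2 : (i + j + 2) ≤ (Q))
    (b3 : (6 * i + 4 * h + j3 + 2 * ph) ≤ (5 * j + 2 * de + 1))
    (b4 : (j + ph) ≤ (i + h))
    (b5 : (3 * i + 2 * h + 2 * ph + 1) ≤ (2 * Q + j)) : False := by
  have ev := al.ev
  obtain ⟨y0, y1, y2, y3, y4, y5, y6, y7, y8, y9, y10, y11, y12, y13, y14, y15, y16⟩ := id hy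
  have n1p := And.intro n1.p1 n1.p2
  have n4p := And.intro n4.p1 n4.p2
  have n5p := And.intro n5.p1 n5.p2
  by_cases z21 : (3 * j + 1) ≤ (3 * i + 2 * h + 2 * ph)
  · have kk176 : (3 * j + 2) ≤ (3 * i + 2 * h + 2 * ph) := by clear * - z21 ev n1p n4p n5p; omega
    have kk177 : (3 * i + 2 * h + 2 * ph + 1) ≤ (2 * Q + j) := by clear * - b5; omega
    have kk178 : (0) ≤ (i + 1) := by clear * - y0; omega
    have kk179 : (j) ≤ (de + ph) := by clear * - b0 b5 y16 z21; omega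
    have kk180 : (i + ph) ≤ (j) := by clear * - b0 b4 b5 z21; omega
    have kk181 : (2 * i + h + 2 * ph) ≤ (2 * j) := by clear * - b0 b4 b5; omega
    have kk182 : (Q) ≤ (j + ph) := by clear * - b0 b5 z21; omega
    have kk183 : (Q) ≤ (i + h + 2 * ph) := by clear * - b0 b4 b5 z21; omega
    have r184 : (3 * i + 2 * h + 2 * ph - j) % 2 = 0 := by clear * - ev n1p n4p n5p; omega
    clear * - al a1 s2 AL0 kk176 kk177 kk178 kk179 kk180 kk181 kk182 kk183 r184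
    obtain ⟨t, ht⟩ : ∃ t, 2 * t = (3 * i + 2 * h + 2 * ph - j) := ⟨(3 * i + 2 * h + 2 * ph - j) / 2, by omega⟩
    exact al.ninv t (cE (cE (cE (qa s2 al 0 t ((i + j) - t) (by omega)) (qf (show Par W (n + i - ph + 1) (n + j - ph) (i + h + ph - j) from fun t h1 h2 => (cE (sh al (-2) t (t + (-2 * n)) (by omega)) (cE (cE (qf AL0 al (-1) (t + (-2 * n)) (t + (ph - n)) (by omega)) (qf a1 al 0 (t + (ph - n)) (t + (i + h + ph - n - j)) (by omega))) (sh al 1 (t + (i + h + ph - n - j)) (t + (i + h + ph - j)) (by omega))))) al (-1) ((i + j) - t) ((n + 2 * i + h + ph) - t) (by omega))) (qf (show Par W (n + i - ph + 1) (n + j - ph) (i + h + ph - j) from fun t h1 h2 => (cE (sh al (-2) t (t + (-2 * n)) (by omega)) (cE (cE (qf AL0 al (-1) (t + (-2 * n)) (t + (ph - n)) (by omega)) (qf a1 al 0 (t + (ph - n)) (t + (i + h + ph - n - j)) (by omega))) (sh al 1 (t + (i + h + ph - n - j)) (t + (i + h + ph - j)) (by omega))))) al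 0 ((n + 2 * i + h + ph) - t) ((n + 3 * i + 2 * h + 2 * ph - j) - t) (by omega))) (sh al (-1) ((n + 3 * i + 2 * h + 2 * ph - j) - t) t (by omega)))
  · exact rz6_19 al hy a1 a2 s1 s2 u1 u2 GG AL0 AL1 BE T2 n1 n4 n5 (by clear * - b0; omega) (by clear * - b1; omega) (by clear * - b2; omega) (by clear * - b4; omega) (by clear * - z21; omega)

theorem rz6_28 {W : ℤ → G} {n Q i j h de j3 ph : ℤ} (al : AL W n Q)
    (hy : (0) ≤ (i) ∧ (i) ≤ (j) ∧ (j + 1) ≤ (Q) ∧ (i) ≤ (j3) ∧ (j3 + 1) ≤ (Q) ∧ (0) ≤ (de) ∧ (de + 1) ≤ (j3) ∧ (Q + j3) ≤ (i + h + de) ∧ (j + 1) ≤ (h) ∧ (0) ≤ (ph) ∧ (ph + 1) ≤ (h) ∧ (3 * h + j3 + 2 * ph) ≤ (n + i) ∧ (3 * j3 + 1) ≤ (i + h + 2 * de) ∧ (i + 1) ≤ (de) ∧ (j + 1) ≤ (j3) ∧ (de) ≤ (j) ∧ (j) ≤ (de))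
    (a1 : Par W (0) (j) (i + h - j))
    (a2 : Par W (Q + j - i - h) (j) (i + h - j))
    (s1 : Ant W (0) (i) (i + j))
    (s2 : Ant W (j + 1) (Q) (i + j))
    (u1 : Ant W (0) (i) (i + j3))
    (u2 : Ant W (j3 + 1) (Q) (i + j3))
    (GG : Par W (i + 1) (h + de + ph) (h))
    (AL0 : Par W (i - ph + 1) (de) (ph))
    (AL1 : Par W (i - h - ph + 1) (de) (h + ph))
    (BE : Par W (de + 1) (j3) (i + h - j3))
    (T2 : Ant W (Q) (i + h + de - j3) (i + 2 * h + 2 * de + ph - j3))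
    (n1 : Nd W (j) (i) (i + h))
    (n4 : Nd W (h + de + ph) (i + h + de - j3) (de))
    (n5 : Nd W (j3) (i) (i + h))
    (b0 : (i + h) ≤ (j + ph))
    (b1 : (i + j + 2) ≤ (Q))
    (b2 : (6 * i + 4 * h + j3 + 2 * ph) ≤ (5 * j + 2 * de + 1))
    (b3 : (j + ph) ≤ (i + h))
    (b4 : (2 * Q + j) ≤ (3 * i + 2 * h + 2 * ph)) : False := by
  have ev := al.ev
  obtain ⟨y0, y1, y2, y3, y4, y5, y6, y7, y8, y9, y10, y11, y12, y13, y14, y15, y16⟩ := id hy
  have n1p := And.intro n1.p1 n1.p2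
  have n4p := And.intro n4.p1 n4.p2
  have n5p := And.intro n5.p1 n5.p2
  by_cases z39 : (2 * j + de) ≤ (2 * i + h + j3 + 2 * ph)
  · by_cases z40 : (2 * i + h + j3 + 2 * ph) ≤ (2 * j + de)
    · have kk413 : (2 * j + de) ≤ (2 * i + h + j3 + 2 * ph) := by clear * - z39; omega
      have kk414 : (2 * i + h + j3 + 2 * ph) ≤ (2 * j + de + 1) := by clear * - z40; omega
      have kk415 : (0) ≤ (i + 1) := by clear * - y0; omega
      have kk416 : (j) ≤ (de + ph) := by clear * - b2 y12 y14 y15 z39; omega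
      have kk417 : (de) ≤ (j) := by clear * - y15; omega
      have kk418 : (j) ≤ (de) := by clear * - y16; omega
      have kk419 : (1) ≤ (h) := by clear * - b2 y12 y14 y15 z39; omega
      have kk420 : (i + 1) ≤ (de + ph) := by clear * - b2 y12 y14 y15 z39; omega
      have kk421 : (de + ph) ≤ (i + h) := by clear * - b3 y15; omega
      have kk422 : (i + h) ≤ (de + ph) := by clear * - b0 y16; omega
      have kk423 : (j) ≤ (i + h + ph) := by clear * - b2 y12 y14 y15 z39; omega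
      have kk424 : (2 * i + h + j3 + ph + 1) ≤ (2 * j + de) := by clear * - b2 y12 y14 y15; omega
      have kk425 : (de + 1) ≤ (j3) := by clear * - y14 y15; omega
      have r426 : (2 * j + de - h - j3 - 2 * ph) % 2 = 0 := by clear * - y15 y16 ev n1p n4p n5p; omega
      clear * - al a1 GG AL0 n1 n4 kk413 kk414 kk415 kk416 kk417 kk418 kk419 kk420 kk421 kk422 kk423 kk424 kk425 r426
      obtain ⟨t, ht⟩ : ∃ t, 2 * t = (2 * j + de - h - j3 - 2 * ph) := ⟨(2 * j + de - h - j3 - 2 * ph) / 2, by omega⟩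
      exact al.ninv t (cI (cE (qf (show Par W (n + i - ph + 1) (n + j - ph) (i + h + ph - j) from fun t h1 h2 => (cE (sh al (-2) t (t + (-2 * n)) (by omega)) (cE (cE (qf AL0 al (-1) (t + (-2 * n)) (t + (ph - n)) (by omega)) (qf a1 al 0 (t + (ph - n)) (t + (i + h + ph - n - j)) (by omega))) (sh al 1 (t + (i + h + ph - n - j)) (t + (i + h + ph - j)) (by omega))))) al (-1) t (t + (n + i + h + ph - j)) (by omega)) (qf (show Par W (n + i - ph + 1) (n + j - ph) (i + h + ph - j) from fun t h1 h2 => (cE (sh al (-2) t (t + (-2 * n)) (by omega)) (cE (cE (qf AL0 al (-1) (t + (-2 * n)) (t + (ph - n)) (by omega)) (qf a1 al 0 (t + (ph - n)) (t + (i + h + ph - n - j)) (by omega))) (sh al 1 (t + (i + h + ph - n - j)) (t + (i + h + ph - j)) (by omega))))) al 0 (t + (n + i + h + ph - j)) (t + (n + 2 * i + 2 * h + 2 * ph - 2 * j)) (by omega))) (ab (uA (i) (i + h + de - j3) (2 * i + h + de - j3) (by omega) (lat n1.r5 n4.r2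 (iNN (sh al 0 (j) (de) (by omega))) (qf GG al 0 (i + h) (h + de + ph) (by omega)))) al 1 (t + (n + 2 * i + 2 * h + 2 * ph - 2 * j)) t (by omega)))
    · have kk427 : (2 * i + h + 2 * ph + 2) ≤ (j + j3) := by clear * - b2 b3 y15 z40 ev n1p n4p n5p; omega
      have kk428 : (3 * j + 1) ≤ (2 * i + h + j3 + 2 * ph) := by clear * - y16 z40; omega
      have kk429 : (0) ≤ (i + 1) := by clear * - y0; omega
      have kk430 : (j) ≤ (de + ph) := by clear * - b2 b3 y12 y15 z40; omega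
      have kk431 : (j3) ≤ (j + ph) := by clear * - b2 b3 y12 y15 z40; omega
      have kk432 : (j3) ≤ (Q) := by clear * - y4; omega
      have kk433 : (i + ph) ≤ (de) := by clear * - b2 b3 y13 z40; omega
      have kk434 : (i + j3) ≤ (j + de) := by clear * - b2 b3 y12 y15 z40; omega
      have kk435 : (de) ≤ (j) := by clear * - y15; omega
      have r436 : (2 * i + j + h - j3) % 2 = 0 := by clear * - ev n1p n4p n5p; omega
      clear * - al a1 s2 AL0 BE kk427 kk428 kk429 kk430 kk431 kk432 kk433 kk434 kk435 r436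
      obtain ⟨t, ht⟩ : ∃ t, 2 * t = (2 * i + j + h - j3) := ⟨(2 * i + j + h - j3) / 2, by omega⟩
      exact al.ninv t (cE (cE (cE (cI (pb (show Par W (n + i - ph + 1) (n + j - ph) (i + h + ph - j) from fun t h1 h2 => (cE (sh al (-2) t (t + (-2 * n)) (by omega)) (cE (cE (qf AL0 al (-1) (t + (-2 * n)) (t + (ph - n)) (by omega)) (qf a1 al 0 (t + (ph - n)) (t + (i + h + ph - n - j)) (by omega))) (sh al 1 (t + (i + h + ph - n - j)) (t + (i + h + ph - j)) (by omega))))) al (-1) t (t + (n + j - i - h - ph)) (by omega)) (ab s2 al 1 (t + (n + j - i - h - ph)) ((2 * i + h + ph) - t) (by omega))) (qf BE al 0 ((2 * i + h + ph) - t) ((3 * i + 2 * h + ph - j3) - t) (by omega))) (pb (show Par W (n + i - ph + 1) (n + j - ph) (i + h + ph - j) from fun t h1 h2 => (cE (sh al (-2) t (t + (-2 * n)) (by omega)) (cE (cE (qf AL0 al (-1) (t + (-2 * n)) (t + (ph - n)) (by omega)) (qf a1 al 0 (t + (ph - n)) (t + (i + h + ph - n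 - j)) (by omega))) (sh al 1 (t + (i + h + ph - n - j)) (t + (i + h + ph - j)) (by omega))))) al (-1) ((3 * i + 2 * h + ph - j3) - t) ((n + 2 * i + j + h - j3) - t) (by omega))) (sh al (-1) ((n + 2 * i + j + h - j3) - t) t (by omega)))
  · have kk437 : (3 * i + 2 * h + j3 + ph + 2) ≤ (2 * j + 2 * de) := by clear * - b0 y16 z39 ev n1p n4p n5p; omega
    have kk438 : (i + 2 * de + 3 * ph + 1) ≤ (2 * j + j3) := by clear * - b3 y14 y15 z39; omega
    have kk439 : (0) ≤ (i + 1) := by clear * - y0; omega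
    have kk440 : (j) ≤ (de + ph) := by clear * - b0 y12 y14 y15; omega
    have kk441 : (de + ph) ≤ (i + h) := by clear * - b3 y15; omega
    have kk442 : (j) ≤ (i + h + ph) := by clear * - b0 y12 y14 y15; omega
    have kk443 : (ph) ≤ (h) := by clear * - b3 y13 y15; omega
    have kk444 : (0) ≤ (ph) := by clear * - b0 y12 y14 y15; omega
    have kk445 : (2 * j) ≤ (i + h + de + 3 * ph) := by clear * - b0 y12 y14 y15; omega
    have kk446 : (2 * j) ≤ (i + 2 * h + de + 3 * ph) := by clear * - b0 y12 y14 y15 z39; omega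
    have kk447 : (Q + 2 * j + j3) ≤ (2 * i + h + 2 * de + 3 * ph + 1) := by clear * - b0 b4 y16 y4; omega
    have r448 : (2 * n + 3 * i + 2 * h + 2 * de + 3 * ph - 2 * j - j3) % 2 = 0 := by clear * - ev n1p n4p n5p; omega
    clear * - al a1 GG AL0 T2 kk437 kk438 kk439 kk440 kk441 kk442 kk443 kk444 kk445 kk446 kk447 r448
    obtain ⟨t, ht⟩ : ∃ t, 2 * t = (2 * n + 3 * i + 2 * h + 2 * de + 3 * ph - 2 * j - j3) := ⟨(2 * n + 3 * i + 2 * h + 2 * de + 3 * ph - 2 * j - j3) / 2, by omega⟩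
    exact al.ninv t (cE (cI (cE (cE (cE (pb (show Par W (n + i - ph + 1) (n + j - ph) (i + h + ph - j) from fun t h1 h2 => (cE (sh al (-2) t (t + (-2 * n)) (by omega)) (cE (cE (qf AL0 al (-1) (t + (-2 * n)) (t + (ph - n)) (by omega)) (qf a1 al 0 (t + (ph - n)) (t + (i + h + ph - n - j)) (by omega))) (sh al 1 (t + (i + h + ph - n - j)) (t + (i + h + ph - j)) (by omega))))) al 0 t (t + (j - i - h - ph)) (by omega)) (pb (show Par W (n + i - ph + 1) (n + j - ph) (i + h + ph - j) from fun t h1 h2 => (cE (sh al (-2) t (t + (-2 * n)) (by omega)) (cE (cE (qf AL0 al (-1) (t + (-2 * n)) (t + (ph - n)) (by omega)) (qf a1 al 0 (t + (ph - n)) (t + (i + h + ph - n - j)) (by omega))) (sh al 1 (t + (i + h + ph - n - j)) (t + (i + h + ph - j)) (by omega))))) al 0 (t + (j - i - h - ph)) (t + (2 * j - 2 * i - 2 * h - 2 * ph)) (by omega))) (qf GG al 1 (t + (2 * j - 2 * i - 2 * h - 2 * ph)) (t + (2 * j - n - 2 * i - h - 2 *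 ph)) (by omega))) (qf GG al 0 (t + (2 * j - n - 2 * i - h - 2 * ph)) (t + (2 * j - n - 2 * i - 2 * ph)) (by omega))) (ab T2 al 0 (t + (2 * j - n - 2 * i - 2 * ph)) ((n + 3 * i + 2 * h + 2 * de + 3 * ph - 2 * j - j3) - t) (by omega))) (sh al 1 ((n + 3 * i + 2 * h + 2 * de + 3 * ph - 2 * j - j3) - t) t (by omega)))

theorem rz6_17 {W : ℤ → G} {n Q i j h de j3 ph : ℤ} (al : AL W n Q)
    (hy : (0) ≤ (i) ∧ (i) ≤ (j) ∧ (j + 1) ≤ (Q) ∧ (i) ≤ (j3) ∧ (j3 + 1) ≤ (Q) ∧ (0) ≤ (de) ∧ (de + 1) ≤ (j3) ∧ (Q + j3) ≤ (i + h + de) ∧ (j + 1) ≤ (h) ∧ (0) ≤ (ph) ∧ (ph + 1) ≤ (h) ∧ (3 * h + j3 + 2 * ph) ≤ (n + i) ∧ (3 * j3 + 1) ≤ (i + h + 2 * de) ∧ (i + 1) ≤ (de) ∧ (j + 1) ≤ (j3) ∧ (de) ≤ (j) ∧ (j) ≤ (de))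
    (a1 : Par W (0) (j) (i + h - j))
    (a2 : Par W (Q + j - i - h) (j) (i + h - j))
    (s1 : Ant W (0) (i) (i + j))
    (s2 : Ant W (j + 1) (Q) (i + j))
    (u1 : Ant W (0) (i) (i + j3))
    (u2 : Ant W (j3 + 1) (Q) (i + j3))
    (GG : Par W (i + 1) (h + de + ph) (h))
    (AL0 : Par W (i - ph + 1) (de) (ph))
    (AL1 : Par W (i - h - ph + 1) (de) (h + ph))
    (BE : Par W (de + 1) (j3) (i + h - j3))
    (T2 : Ant W (Q) (i + h + de - j3) (i + 2 * h + 2 * de + ph - j3))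
    (n1 : Nd W (j) (i) (i + h))
    (n4 : Nd W (h + de + ph) (i + h + de - j3) (de))
    (n5 : Nd W (j3) (i) (i + h))
    (b0 : (2 * Q) ≤ (2 * j + ph + 1))
    (b1 : (i + h) ≤ (j + ph))
    (b2 : (i + j + 2) ≤ (Q))
    (b3 : (6 * i + 4 * h + j3 + 2 * ph) ≤ (5 * j + 2 * de + 1))
    (b4 : (j + ph) ≤ (i + h)) : False := by
  have ev := al.ev
  obtain ⟨y0, y1, y2, y3, y4, y5, y6, y7, y8, y9, y10, y11, y12, y13, y14, y15, y16⟩ := id hy
  have n1p := And.intro n1.p1 n1.p2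
  have n4p := And.intro n4.p1 n4.p2
  have n5p := And.intro n5.p1 n5.p2
  by_cases z20 : (3 * i + 2 * h + 2 * ph + 1) ≤ (2 * Q + j)
  · exact rz6_18 al hy a1 a2 s1 s2 u1 u2 GG AL0 AL1 BE T2 n1 n4 n5 (by clear * - b0; omega) (by clear * - b1; omega) (by clear * - b2; omega) (by clear * - b3; omega) (by clear * - b4; omega) (by clear * - z20; omega)
  · exact rz6_28 al hy a1 a2 s1 s2 u1 u2 GG AL0 AL1 BE T2 n1 n4 n5 (by clear * - b1; omega) (by clear * - b2; omega) (by clear * - b3; omega) (by clear * - b4; omega) (by clear * - z20; omega)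

theorem rz6_16 {W : ℤ → G} {n Q i j h de j3 ph : ℤ} (al : AL W n Q)
    (hy : (0) ≤ (i) ∧ (i) ≤ (j) ∧ (j + 1) ≤ (Q) ∧ (i) ≤ (j3) ∧ (j3 + 1) ≤ (Q) ∧ (0) ≤ (de) ∧ (de + 1) ≤ (j3) ∧ (Q + j3) ≤ (i + h + de) ∧ (j + 1) ≤ (h) ∧ (0) ≤ (ph) ∧ (ph + 1) ≤ (h) ∧ (3 * h + j3 + 2 * ph) ≤ (n + i) ∧ (3 * j3 + 1) ≤ (i + h + 2 * de) ∧ (i + 1) ≤ (de) ∧ (j + 1) ≤ (j3) ∧ (de) ≤ (j) ∧ (j) ≤ (de))
    (a1 : Par W (0) (j) (i + h - j))
    (a2 : Par W (Q + j - i - h) (j) (i + h - j))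
    (s1 : Ant W (0) (i) (i + j))
    (s2 : Ant W (j + 1) (Q) (i + j))
    (u1 : Ant W (0) (i) (i + j3))
    (u2 : Ant W (j3 + 1) (Q) (i + j3))
    (GG : Par W (i + 1) (h + de + ph) (h))
    (AL0 : Par W (i - ph + 1) (de) (ph))
    (AL1 : Par W (i - h - ph + 1) (de) (h + ph))
    (BE : Par W (de + 1) (j3) (i + h - j3))
    (T2 : Ant W (Q) (i + h + de - j3) (i + 2 * h + 2 * de + ph - j3))
    (n1 : Nd W (j) (i) (i + h))
    (n4 : Nd W (h + de + ph) (i + h + de - j3) (de))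
    (n5 : Nd W (j3) (i) (i + h))
    (b0 : (2 * Q) ≤ (2 * j + ph + 1))
    (b1 : (i + h) ≤ (j + ph))
    (b2 : (i + j + 2) ≤ (Q))
    (b3 : (6 * i + 4 * h + j3 + 2 * ph) ≤ (5 * j + 2 * de + 1)) : False := by
  have ev := al.ev
  obtain ⟨y0, y1, y2, y3, y4, y5, y6, y7, y8, y9, y10, y11, y12, y13, y14, y15, y16⟩ := id hy
  have n1p := And.intro n1.p1 n1.p2
  have n4p := And.intro n4.p1 n4.p2
  have n5p := And.intro n5.p1 n5.p2
  by_cases z19 : (i + h + 1) ≤ (j + ph)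
  · have kk170 : (i + h + 1) ≤ (j + ph) := by clear * - z19; omega
    have kk171 : (j + ph + 1) ≤ (n + i + h) := by clear * - b3 y11 y12 y14 y15 z19; omega
    have kk172 : (ph) ≤ (Q) := by clear * - b2 b3 y0 y12 y14 y15; omega
    have kk173 : (Q + j) ≤ (i + h + de) := by clear * - y14 y7; omega
    have kk174 : (i + 1) ≤ (ph) := by clear * - b0 b2 y12 y14 y15 z19; omega
    have kk175 : (de) ≤ (j) := by clear * - y15; omega
    clear * - al a1 AL0 kk170 kk171 kk172 kk173 kk174 kk175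
    exact al.ubQ (j + ph - i - h) (by omega) (by omega) fun t h1 h2 => (cE (sh al (-1) t (t + (-n)) (by omega)) (cE (pb a1 al (-1) (t + (-n)) (t + (j - i - h)) (by omega)) (qf AL0 al 0 (t + (j - i - h)) (t + (j + ph - i - h)) (by omega))))
  · exact rz6_17 al hy a1 a2 s1 s2 u1 u2 GG AL0 AL1 BE T2 n1 n4 n5 (by clear * - b0; omega) (by clear * - b1; omega) (by clear * - b2; omega) (by clear * - b3; omega) (by clear * - z19; omega)

theorem rz6_15 {W : ℤ → G} {n Q i j h de j3 ph : ℤ} (al : AL W n Q)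
    (hy : (0) ≤ (i) ∧ (i) ≤ (j) ∧ (j + 1) ≤ (Q) ∧ (i) ≤ (j3) ∧ (j3 + 1) ≤ (Q) ∧ (0) ≤ (de) ∧ (de + 1) ≤ (j3) ∧ (Q + j3) ≤ (i + h + de) ∧ (j + 1) ≤ (h) ∧ (0) ≤ (ph) ∧ (ph + 1) ≤ (h) ∧ (3 * h + j3 + 2 * ph) ≤ (n + i) ∧ (3 * j3 + 1) ≤ (i + h + 2 * de) ∧ (i + 1) ≤ (de) ∧ (j + 1) ≤ (j3) ∧ (de) ≤ (j) ∧ (j) ≤ (de))
    (a1 : Par W (0) (j) (i + h - j))
    (a2 : Par W (Q + j - i - h) (j) (i + h - j))
    (s1 : Ant W (0) (i) (i + j))
    (s2 : Ant W (j + 1) (Q) (i + j))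
    (u1 : Ant W (0) (i) (i + j3))
    (u2 : Ant W (j3 + 1) (Q) (i + j3))
    (GG : Par W (i + 1) (h + de + ph) (h))
    (AL0 : Par W (i - ph + 1) (de) (ph))
    (AL1 : Par W (i - h - ph + 1) (de) (h + ph))
    (BE : Par W (de + 1) (j3) (i + h - j3))
    (T2 : Ant W (Q) (i + h + de - j3) (i + 2 * h + 2 * de + ph - j3))
    (n1 : Nd W (j) (i) (i + h))
    (n4 : Nd W (h + de + ph) (i + h + de - j3) (de))
    (n5 : Nd W (j3) (i) (i + h))
    (b0 : (2 * Q) ≤ (2 * j + ph + 1))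
    (b1 : (i + h) ≤ (j + ph))
    (b2 : (i + j + 2) ≤ (Q))
    (b3 : (3 * i + 2 * h + ph) ≤ (3 * j + 1)) : False := by
  have ev := al.ev
  obtain ⟨y0, y1, y2, y3, y4, y5, y6, y7, y8, y9, y10, y11, y12, y13, y14, y15, y16⟩ := id hy
  have n1p := And.intro n1.p1 n1.p2
  have n4p := And.intro n4.p1 n4.p2
  have n5p := And.intro n5.p1 n5.p2
  by_cases z18 : (5 * j + 2 * de + 2) ≤ (6 * i + 4 * h + j3 + 2 * ph)
  · have kk155 : (j + 1) ≤ (j3) := by clear * - y14; omega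
    have kk156 : (5 * j + 2 * de + 2) ≤ (6 * i + 4 * h + j3 + 2 * ph) := by clear * - z18; omega
    have kk157 : (5 * j + 4 * de + 2) ≤ (6 * i + 4 * h + 3 * j3 + 2 * ph) := by clear * - b3 y16 z18; omega
    have kk158 : (j + 2 * de + 2) ≤ (3 * j3) := by clear * - b3 y14 z18; omega
    have kk159 : (0) ≤ (i + 1) := by clear * - y0; omega
    have kk160 : (j) ≤ (de + ph) := by clear * - b1 b3 y12 y16 z18; omega
    have kk161 : (j) ≤ (2 * i + h + 1) := by clear * - b3 y0 y12 y16 z18; omega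
    have kk162 : (Q) ≤ (j + ph) := by clear * - b0 b1 b3 y12 y16 z18; omega
    have kk163 : (2 * i + h + ph) ≤ (2 * j) := by clear * - b3 y12 y16 z18; omega
    have kk164 : (i + ph) ≤ (j) := by clear * - b3 y12 y16 z18; omega
    have kk165 : (j3) ≤ (j + de + 1) := by clear * - b1 b3 y0 y12 y16 z18; omega
    have kk166 : (3 * i + 2 * h + ph) ≤ (2 * j + de) := by clear * - b3 y16 ev n1p n4p n5p; omega
    have kk167 : (3 * i + 2 * h + j3 + ph) ≤ (Q + 2 * j + de) := by clear * - b3 y16 y4; omega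
    have r168 : (2 * n + 3 * i + 2 * h + ph - j) % 2 = 0 := by clear * - ev n1p n4p n5p; omega
    have r169 : (j3 - j) % 2 = 0 := by clear * - ev n1p n4p n5p; omega
    clear * - al a1 s2 AL0 BE kk155 kk156 kk157 kk158 kk159 kk160 kk161 kk162 kk163 kk164 kk165 kk166 kk167 r168 r169
    exact midP al (j3 - j) (2 * n + 3 * i + 2 * h + ph - j) (n + j + de - j3 + 1) (n + j + de - j3 + 1) (n + j3) (by omega) (fun t h1 h2 => (cE (cI (cE (pb a1 al 1 t (t + (j - n - i - h)) (by omega)) (pb (show Par W (n + i - ph + 1) (n + j - ph) (i + h + ph - j) from fun t h1 h2 => (cE (sh al (-2) t (t + (-2 * n)) (by omega)) (cE (cE (qf AL0 al (-1) (t + (-2 * n)) (t + (ph - n)) (by omega)) (qf a1 al 0 (t + (ph - n)) (t + (i + h + ph - n - j)) (by omega))) (sh al 1 (t + (i + h + ph - n - j)) (t + (i + h + ph - j)) (by omega))))) al (-1) (t + (j - n - i - h)) (t + (2 * j - 2 * i - 2 * h - ph)) (by omega))) (ab s2 al 1 (t + (2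 * j - 2 * i - 2 * h - ph)) ((n + 3 * i + 2 * h + ph - j) - t) (by omega))) (sh al 1 ((n + 3 * i + 2 * h + ph - j) - t) ((2 * n + 3 * i + 2 * h + ph - j) - t) (by omega)))) (fun t h1 h2 => (cE (cE (qf a1 al 1 t (t + (i + h - n - j)) (by omega)) (pb BE al 0 (t + (i + h - n - j)) (t + (j3 - n - j)) (by omega))) (sh al 1 (t + (j3 - n - j)) (t + (j3 - j)) (by omega))))
  · exact rz6_16 al hy a1 a2 s1 s2 u1 u2 GG AL0 AL1 BE T2 n1 n4 n5 (by clear * - b0; omega) (by clear * - b1; omega) (by clear * - b2; omega) (by clear * - z18; omega)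

theorem rz6_14 {W : ℤ → G} {n Q i j h de j3 ph : ℤ} (al : AL W n Q)
    (hy : (0) ≤ (i) ∧ (i) ≤ (j) ∧ (j + 1) ≤ (Q) ∧ (i) ≤ (j3) ∧ (j3 + 1) ≤ (Q) ∧ (0) ≤ (de) ∧ (de + 1) ≤ (j3) ∧ (Q + j3) ≤ (i + h + de) ∧ (j + 1) ≤ (h) ∧ (0) ≤ (ph) ∧ (ph + 1) ≤ (h) ∧ (3 * h + j3 + 2 * ph) ≤ (n + i) ∧ (3 * j3 + 1) ≤ (i + h + 2 * de) ∧ (i + 1) ≤ (de) ∧ (j + 1) ≤ (j3) ∧ (de) ≤ (j) ∧ (j) ≤ (de))
    (a1 : Par W (0) (j) (i + h - j))
    (a2 : Par W (Q + j - i - h) (j) (i + h - j))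
    (s1 : Ant W (0) (i) (i + j))
    (s2 : Ant W (j + 1) (Q) (i + j))
    (u1 : Ant W (0) (i) (i + j3))
    (u2 : Ant W (j3 + 1) (Q) (i + j3))
    (GG : Par W (i + 1) (h + de + ph) (h))
    (AL0 : Par W (i - ph + 1) (de) (ph))
    (AL1 : Par W (i - h - ph + 1) (de) (h + ph))
    (BE : Par W (de + 1) (j3) (i + h - j3))
    (T2 : Ant W (Q) (i + h + de - j3) (i + 2 * h + 2 * de + ph - j3))
    (n1 : Nd W (j) (i) (i + h))
    (n4 : Nd W (h + de + ph) (i + h + de - j3) (de))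
    (n5 : Nd W (j3) (i) (i + h))
    (b0 : (2 * Q) ≤ (2 * j + ph + 1))
    (b1 : (i + h) ≤ (j + ph))
    (b2 : (i + j + 2) ≤ (Q))
    (b3 : (2 * i + h + j3 + ph) ≤ (2 * j + de))
    (b4 : (3 * i + 2 * h + ph + 1) ≤ (2 * Q + j)) : False := by
  have ev := al.ev
  obtain ⟨y0, y1, y2, y3, y4, y5, y6, y7, y8, y9, y10, y11, y12, y13, y14, y15, y16⟩ := id hy
  have n1p := And.intro n1.p1 n1.p2
  have n4p := And.intro n4.p1 n4.p2
  have n5p := And.intro n5.p1 n5.p2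
  by_cases z17 : (3 * j + 2) ≤ (3 * i + 2 * h + ph)
  · have kk146 : (3 * j + 2) ≤ (3 * i + 2 * h + ph) := by clear * - z17; omega
    have kk147 : (3 * i + 2 * h + ph + 1) ≤ (2 * Q + j) := by clear * - b4; omega
    have kk148 : (0) ≤ (i + 1) := by clear * - y0; omega
    have kk149 : (j) ≤ (de + ph) := by clear * - b0 b4 y16 z17; omega
    have kk150 : (h) ≤ (j + ph + 1) := by clear * - b1 y0; omega
    have kk151 : (i + ph) ≤ (j) := by clear * - b3 y14 y15 z17; omega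
    have kk152 : (Q) ≤ (i + h) := by clear * - y14 y15 y7; omega
    have kk153 : (Q) ≤ (j + ph) := by clear * - b0 b4 z17; omega
    have r154 : (i + j + ph - 2 * n) % 2 = 0 := by clear * - ev n1p n4p n5p; omega
    clear * - al a1 s2 AL0 kk146 kk147 kk148 kk149 kk150 kk151 kk152 kk153 r154
    obtain ⟨t, ht⟩ : ∃ t, 2 * t = (i + j + ph - 2 * n) := ⟨(i + j + ph - 2 * n) / 2, by omega⟩
    exact al.ninv t (cE (cE (cI (qf a1 al (-1) t (t + (n + i + h - j)) (by omega)) (qa s2 al 0 (t + (n + i + h - j)) ((2 * j - n - h) - t) (by omega))) (qf (show Par W (n + i - ph + 1) (n + j - ph) (i + h + ph - j) from fun t h1 h2 => (cE (sh al (-2) t (t + (-2 * n)) (by omega)) (cE (cE (qf AL0 al (-1) (t + (-2 * n)) (t + (ph - n)) (by omega)) (qf a1 al 0 (t + (ph - n)) (t + (i + h + ph - n - j)) (by omega))) (sh al 1 (t + (i + h + ph - n - j)) (t + (i + h + ph - j)) (by omega))))) al (-1) ((2 * j - n - h) - t) ((i + j + ph)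 - t) (by omega))) (sh al (-2) ((i + j + ph) - t) t (by omega)))
  · exact rz6_15 al hy a1 a2 s1 s2 u1 u2 GG AL0 AL1 BE T2 n1 n4 n5 (by clear * - b0; omega) (by clear * - b1; omega) (by clear * - b2; omega) (by clear * - z17; omega)

theorem rz6_29 {W : ℤ → G} {n Q i j h de j3 ph : ℤ} (al : AL W n Q)
    (hy : (0) ≤ (i) ∧ (i) ≤ (j) ∧ (j + 1) ≤ (Q) ∧ (i) ≤ (j3) ∧ (j3 + 1) ≤ (Q) ∧ (0) ≤ (de) ∧ (de + 1) ≤ (j3) ∧ (Q + j3) ≤ (i + h + de) ∧ (j + 1) ≤ (h) ∧ (0) ≤ (ph) ∧ (ph + 1) ≤ (h) ∧ (3 * h + j3 + 2 * ph) ≤ (n + i) ∧ (3 * j3 + 1) ≤ (i + h + 2 * de) ∧ (i + 1) ≤ (de) ∧ (j + 1) ≤ (j3) ∧ (de) ≤ (j) ∧ (j) ≤ (de))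
    (a1 : Par W (0) (j) (i + h - j))
    (a2 : Par W (Q + j - i - h) (j) (i + h - j))
    (s1 : Ant W (0) (i) (i + j))
    (s2 : Ant W (j + 1) (Q) (i + j))
    (u1 : Ant W (0) (i) (i + j3))
    (u2 : Ant W (j3 + 1) (Q) (i + j3))
    (GG : Par W (i + 1) (h + de + ph) (h))
    (AL0 : Par W (i - ph + 1) (de) (ph))
    (AL1 : Par W (i - h - ph + 1) (de) (h + ph))
    (BE : Par W (de + 1) (j3) (i + h - j3))
    (T2 : Ant W (Q) (i + h + de - j3) (i + 2 * h + 2 * de + ph - j3))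
    (n1 : Nd W (j) (i) (i + h))
    (n4 : Nd W (h + de + ph) (i + h + de - j3) (de))
    (n5 : Nd W (j3) (i) (i + h))
    (b0 : (i + h) ≤ (j + ph))
    (b1 : (i + j + 2) ≤ (Q))
    (b2 : (2 * i + h + j3 + ph) ≤ (2 * j + de))
    (b3 : (2 * Q + j) ≤ (3 * i + 2 * h + ph)) : False := by
  have ev := al.ev
  obtain ⟨y0, y1, y2, y3, y4, y5, y6, y7, y8, y9, y10, y11, y12, y13, y14, y15, y16⟩ := id hy
  have n1p := And.intro n1.p1 n1.p2
  have n4p := And.intro n4.p1 n4.p2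
  have n5p := And.intro n5.p1 n5.p2
  by_cases z41 : (2 * j + de) ≤ (2 * i + h + j3 + ph + 1)
  · by_cases z42 : (i + h + 1) ≤ (j + ph)
    · have kk449 : (i + h + 1) ≤ (j + ph) := by clear * - z42; omega
      have kk450 : (j + ph + 1) ≤ (n + i + h) := by clear * - b2 y11 y12 y14 y15 z42; omega
      have kk451 : (ph) ≤ (Q) := by clear * - b1 b2 b3 y0 y14 y15; omega
      have kk452 : (Q + j) ≤ (i + h + de) := by clear * - b2 b3 y12 y14 y15; omega
      have kk453 : (i + 1) ≤ (ph) := by clear * - b1 b2 b3 y13 y14 y15 z42; linarith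
      have kk454 : (de) ≤ (j) := by clear * - y15; omega
      clear * - al a1 AL0 kk449 kk450 kk451 kk452 kk453 kk454
      exact al.ubQ (j + ph - i - h) (by omega) (by omega) fun t h1 h2 => (cE (sh al (-1) t (t + (-n)) (by omega)) (cE (pb a1 al (-1) (t + (-n)) (t + (j - i - h)) (by omega)) (qf AL0 al 0 (t + (j - i - h)) (t + (j + ph - i - h)) (by omega))))
    · have kk455 : (2 * j + de) ≤ (2 * i + h + j3 + ph) := by clear * - y15 y16 z41 ev n1p n4p n5p; by_contra hc; (have ee2 : (j - de) = 0 := (by omega)); omega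
      have kk456 : (2 * i + h + j3 + ph) ≤ (2 * j + de + 1) := by clear * - b2; omega
      have kk457 : (0) ≤ (i + 1) := by clear * - y0; omega
      have kk458 : (j) ≤ (de + ph) := by clear * - b0 y12 y14 y15; omega
      have kk459 : (de) ≤ (j) := by clear * - y15; omega
      have kk460 : (j) ≤ (de) := by clear * - y16; omega
      have kk461 : (1) ≤ (h) := by clear * - b0 b2 y12 y14 y15; omega
      have kk462 : (i + 1) ≤ (de + ph) := by clear * - b0 b2 y12 y14 y15; omega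
      have kk463 : (de + ph) ≤ (i + h) := by clear * - y15 z42; omega
      have kk464 : (i + h) ≤ (de + ph) := by clear * - b0 y16; omega
      have kk465 : (i + h + j3 + ph) ≤ (2 * j + de) := by clear * - b2 y0; omega
      have kk466 : (i + j3 + 1) ≤ (j + de) := by clear * - b0 b2 y12 y14 y15; omega
      have kk467 : (j) ≤ (i + h + ph) := by clear * - b0 y12 y14 y15; omega
      have kk468 : (de + 1) ≤ (j3) := by clear * - y14 y15; omega
      have r469 : (2 * j + de - 2 * n - h - j3 - ph) % 2 = 0 := by clear * - y15 y16 ev n1p n4p n5p; omega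
      clear * - al a1 GG AL0 n1 n4 kk455 kk456 kk457 kk458 kk459 kk460 kk461 kk462 kk463 kk464 kk465 kk466 kk467 kk468 r469
      obtain ⟨t, ht⟩ : ∃ t, 2 * t = (2 * j + de - 2 * n - h - j3 - ph) := ⟨(2 * j + de - 2 * n - h - j3 - ph) / 2, by omega⟩
      exact al.ninv t (cE (cI (cE (qf a1 al (-1) t (t + (n + i + h - j)) (by omega)) (qf (show Par W (n + i - ph + 1) (n + j - ph) (i + h + ph - j) from fun t h1 h2 => (cE (sh al (-2) t (t + (-2 * n)) (by omega)) (cE (cE (qf AL0 al (-1) (t + (-2 * n)) (t + (ph - n)) (by omega)) (qf a1 al 0 (t + (ph - n)) (t + (i + h + ph - n - j)) (by omega))) (sh al 1 (t + (i + h + ph - n - j)) (t + (i + h + ph - j)) (by omega))))) al (-1) (t + (n + i + h - j)) (t + (2 * n + 2 * i + 2 * h + ph - 2 * j)) (by omega))) (ab (uA (i) (i + h + de - j3) (2 * i + h + de - j3) (by omega) (lat n1.r5 n4.r2 (iNN (sh al 0 (j) (de) (by omega))) (qf GG al 0 (i + h) (h + de + ph) (by omega))))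 al 1 (t + (2 * n + 2 * i + 2 * h + ph - 2 * j)) ((2 * j + de - n - h - j3 - ph) - t) (by omega))) (sh al (-1) ((2 * j + de - n - h - j3 - ph) - t) t (by omega)))
  · by_cases z43 : (2 * Q + i + h + 2 * j3) ≤ (j + 4 * de + 2 * ph)
    · by_cases z44 : (i + h + 1) ≤ (j + ph)
      · have kk470 : (i + h + 1) ≤ (j + ph) := by clear * - z44; omega
        have kk471 : (j + ph + 1) ≤ (n + i + h) := by clear * - y11 y12 y14 y15 z41 z44; omega
        have kk472 : (ph) ≤ (Q) := by clear * - b1 b3 y0 y14 y15 z41; omega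
        have kk473 : (Q + j) ≤ (i + h + de) := by clear * - b3 y12 y14 y15 z41; omega
        have kk474 : (i + 1) ≤ (ph) := by clear * - b1 b3 y13 y14 y15 z43 z44; linarith
        have kk475 : (de) ≤ (j) := by clear * - y15; omega
        clear * - al a1 AL0 kk470 kk471 kk472 kk473 kk474 kk475
        exact al.ubQ (j + ph - i - h) (by omega) (by omega) fun t h1 h2 => (cE (sh al (-1) t (t + (-n)) (by omega)) (cE (pb a1 al (-1) (t + (-n)) (t + (j - i - h)) (by omega)) (qf AL0 al 0 (t + (j - i - h)) (t + (j + ph - i - h)) (by omega))))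
      · have kk476 : (1) ≤ (ph) := by clear * - b0 y12 y14 y15; omega
        have kk477 : (2 * Q + 2 * j3) ≤ (4 * de + ph) := by clear * - z43 z44; omega
        have kk478 : (2 * i + 2 * j3 + 2) ≤ (4 * de + 3 * ph) := by clear * - b0 y12 y14 y15 z41; omega
        have kk479 : (2 * i + 2) ≤ (2 * de + 3 * ph) := by clear * - b0 y12 y14 y15 z41; omega
        have kk480 : (i) ≤ (de + ph) := by clear * - b0 y12 y14 y15 z41; omega
        have kk481 : (i + de + 1) ≤ (Q + j3) := by clear * - b1 y14 y15 y5; omega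
        have kk482 : (de + ph) ≤ (i + h) := by clear * - y15 z44; omega
        have kk483 : (de) ≤ (j3) := by clear * - y14 y15; omega
        have r484 : (i + 2 * de - 2 * n - j3) % 2 = 0 := by clear * - ev n1p n4p n5p; omega
        have r485 : (ph) % 2 = 0 := by clear * - ev n1p n4p n5p; omega
        clear * - al GG AL0 AL1 T2 kk476 kk477 kk478 kk479 kk480 kk481 kk482 kk483 r484 r485
        exact midP al (ph) (i + 2 * de - 2 * n - j3) (i - n - ph + 1) (i - n - ph + 1) (de + ph - n) (by omega) (fun t h1 h2 => (cE (cI (cE (qf AL1 al (-1) t (t + (n + h + ph)) (by omega)) (qf GG al 0 (t + (n + h + ph)) (t + (n + 2 * h + ph)) (by omega))) (ab T2 al 0 (t + (n + 2 * h + ph)) ((i + 2 * de - n - j3) - t) (by omega))) (sh al (-1) ((i + 2 * de - n - j3) - t) ((i + 2 * de - 2 * n - j3) - t) (by omega)))) (fun t h1 h2 => (cE (qf AL0 al (-1) t (t + (n + ph)) (by omega)) (sh al (-1) (t + (n + ph)) (t + (ph)) (by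 omega))))
    · by_cases z45 : (j3 + 3 * ph + 1) ≤ (j + h)
      · have kk486 : (j3 + 3 * ph + 2) ≤ (j + h) := by clear * - z45 ev n1p n4p n5p; omega
        have kk487 : (2 * i + h + j3 + ph + 1) ≤ (j + 2 * de) := by clear * - y16 z41; omega
        have kk488 : (0) ≤ (i + 1) := by clear * - y0; omega
        have kk489 : (j) ≤ (de + ph) := by clear * - b0 b3 y12 y16 z43 z45; omega
        have kk490 : (de) ≤ (j3 + ph) := by clear * - b0 b3 y13 y16 z43; omega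
        have kk491 : (j) ≤ (h + j3 + 3 * ph) := by clear * - b0 b3 y12 y16 z43 z45; omega
        have kk492 : (i) ≤ (de + ph) := by clear * - b0 b3 y12 y16 z43 z45; omega
        have kk493 : (i + h) ≤ (j3 + ph) := by clear * - b0 b3 y16 z43 z45; omega
        have kk494 : (de) ≤ (j3) := by clear * - b0 b3 y16 z43 z45; omega
        have kk495 : (j) ≤ (i + h + ph) := by clear * - b0 b3 y12 y16 z43 z45; omega
        have kk496 : (0) ≤ (ph) := by clear * - b0 b3 y12 y16 z43 z45; omega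
        have kk497 : (Q + j) ≤ (2 * i + h + 2 * ph + 1) := by clear * - b0 b3 y12 y16 z43 z45; omega
        have r498 : (j + h + 2 * de - 2 * n - j3 - ph) % 2 = 0 := by clear * - ev n1p n4p n5p; omega
        clear * - al a1 GG AL0 T2 kk486 kk487 kk488 kk489 kk490 kk491 kk492 kk493 kk494 kk495 kk496 kk497 r498
        obtain ⟨t, ht⟩ : ∃ t, 2 * t = (j + h + 2 * de - 2 * n - j3 - ph) := ⟨(j + h + 2 * de - 2 * n - j3 - ph) / 2, by omega⟩
        exact al.ninv t (cE (cE (cE (cE (cI (qf GG al (-1) t (t + (n + h)) (by omega)) (ab T2 al 0 (t + (n + h)) ((i + h + 2 * de + ph - n - j3) - t) (by omega))) (pb AL0 al 0 ((i + h + 2 * de + ph - n - j3) - t) ((i + h + 2 * de - n - j3) - t) (by omega))) (pb (show Par W (n + i - ph + 1) (n + j - ph) (i + h + ph - j) from fun t h1 h2 => (cE (sh al (-2) t (t + (-2 * n)) (by omega)) (cE (cE (qf AL0 al (-1) (t + (-2 * n)) (t + (ph - n)) (by omega)) (qf a1 al 0 (t + (ph - n))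 (t + (i + h + ph - n - j)) (by omega))) (sh al 1 (t + (i + h + ph - n - j)) (t + (i + h + ph - j)) (by omega))))) al (-1) ((i + h + 2 * de - n - j3) - t) ((j + 2 * de - j3 - ph) - t) (by omega))) (qf GG al 1 ((j + 2 * de - j3 - ph) - t) ((j + h + 2 * de - n - j3 - ph) - t) (by omega))) (sh al (-1) ((j + h + 2 * de - n - j3 - ph) - t) t (by omega)))
      · have kk499 : (i + h + 1) ≤ (j + ph) := by clear * - y15 z41 z45; omega
        have kk500 : (j + ph + 1) ≤ (n + i + h) := by clear * - b3 y11 y12 y16 z41 z43 z45; linarith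
        have kk501 : (ph) ≤ (Q) := by clear * - b1 b3 y0 y16 z41 z43 z45; linarith
        have kk502 : (Q + j) ≤ (i + h + de) := by clear * - b3 y13 y16 z41 z43 z45; omega
        have kk503 : (i + 1) ≤ (ph) := by clear * - b0 b1 b3 y13 z41 z43 z45; linarith
        have kk504 : (de) ≤ (j) := by clear * - y15; omega
        clear * - al a1 AL0 kk499 kk500 kk501 kk502 kk503 kk504
        exact al.ubQ (j + ph - i - h) (by omega) (by omega) fun t h1 h2 => (cE (sh al (-1) t (t + (-n)) (by omega)) (cE (pb a1 al (-1) (t + (-n)) (t + (j - i - h)) (by omega)) (qf AL0 al 0 (t + (j - i - h)) (t + (j + ph - i - h)) (by omega))))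

theorem rz6_13 {W : ℤ → G} {n Q i j h de j3 ph : ℤ} (al : AL W n Q)
    (hy : (0) ≤ (i) ∧ (i) ≤ (j) ∧ (j + 1) ≤ (Q) ∧ (i) ≤ (j3) ∧ (j3 + 1) ≤ (Q) ∧ (0) ≤ (de) ∧ (de + 1) ≤ (j3) ∧ (Q + j3) ≤ (i + h + de) ∧ (j + 1) ≤ (h) ∧ (0) ≤ (ph) ∧ (ph + 1) ≤ (h) ∧ (3 * h + j3 + 2 * ph) ≤ (n + i) ∧ (3 * j3 + 1) ≤ (i + h + 2 * de) ∧ (i + 1) ≤ (de) ∧ (j + 1) ≤ (j3) ∧ (de) ≤ (j) ∧ (j) ≤ (de))
    (a1 : Par W (0) (j) (i + h - j))
    (a2 : Par W (Q + j - i - h) (j) (i + h - j))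
    (s1 : Ant W (0) (i) (i + j))
    (s2 : Ant W (j + 1) (Q) (i + j))
    (u1 : Ant W (0) (i) (i + j3))
    (u2 : Ant W (j3 + 1) (Q) (i + j3))
    (GG : Par W (i + 1) (h + de + ph) (h))
    (AL0 : Par W (i - ph + 1) (de) (ph))
    (AL1 : Par W (i - h - ph + 1) (de) (h + ph))
    (BE : Par W (de + 1) (j3) (i + h - j3))
    (T2 : Ant W (Q) (i + h + de - j3) (i + 2 * h + 2 * de + ph - j3))
    (n1 : Nd W (j) (i) (i + h))
    (n4 : Nd W (h + de + ph) (i + h + de - j3) (de))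
    (n5 : Nd W (j3) (i) (i + h))
    (b0 : (2 * Q) ≤ (2 * j + ph + 1))
    (b1 : (i + h) ≤ (j + ph))
    (b2 : (i + j + 2) ≤ (Q))
    (b3 : (2 * i + h + j3 + ph) ≤ (2 * j + de)) : False := by
  have ev := al.ev
  obtain ⟨y0, y1, y2, y3, y4, y5, y6, y7, y8, y9, y10, y11, y12, y13, y14, y15, y16⟩ := id hy
  have n1p := And.intro n1.p1 n1.p2
  have n4p := And.intro n4.p1 n4.p2
  have n5p := And.intro n5.p1 n5.p2
  by_cases z16 : (3 * i + 2 * h + ph + 1) ≤ (2 * Q + j)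
  · exact rz6_14 al hy a1 a2 s1 s2 u1 u2 GG AL0 AL1 BE T2 n1 n4 n5 (by clear * - b0; omega) (by clear * - b1; omega) (by clear * - b2; omega) (by clear * - b3; omega) (by clear * - z16; omega)
  · exact rz6_29 al hy a1 a2 s1 s2 u1 u2 GG AL0 AL1 BE T2 n1 n4 n5 (by clear * - b1; omega) (by clear * - b2; omega) (by clear * - b3; omega) (by clear * - z16; omega)

theorem rz6_12 {W : ℤ → G} {n Q i j h de j3 ph : ℤ} (al : AL W n Q)
    (hy : (0) ≤ (i) ∧ (i) ≤ (j) ∧ (j + 1) ≤ (Q) ∧ (i) ≤ (j3) ∧ (j3 + 1) ≤ (Q) ∧ (0) ≤ (de) ∧ (de + 1) ≤ (j3) ∧ (Q + j3) ≤ (i + h + de) ∧ (j + 1) ≤ (h) ∧ (0) ≤ (ph) ∧ (ph + 1) ≤ (h) ∧ (3 * h + j3 + 2 * ph) ≤ (n + i) ∧ (3 * j3 + 1) ≤ (i + h + 2 * de) ∧ (i + 1) ≤ (de) ∧ (j + 1) ≤ (j3) ∧ (de) ≤ (j) ∧ (j) ≤ (de))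
    (a1 : Par W (0) (j) (i + h - j))
    (a2 : Par W (Q + j - i - h) (j) (i + h - j))
    (s1 : Ant W (0) (i) (i + j))
    (s2 : Ant W (j + 1) (Q) (i + j))
    (u1 : Ant W (0) (i) (i + j3))
    (u2 : Ant W (j3 + 1) (Q) (i + j3))
    (GG : Par W (i + 1) (h + de + ph) (h))
    (AL0 : Par W (i - ph + 1) (de) (ph))
    (AL1 : Par W (i - h - ph + 1) (de) (h + ph))
    (BE : Par W (de + 1) (j3) (i + h - j3))
    (T2 : Ant W (Q) (i + h + de - j3) (i + 2 * h + 2 * de + ph - j3))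
    (n1 : Nd W (j) (i) (i + h))
    (n4 : Nd W (h + de + ph) (i + h + de - j3) (de))
    (n5 : Nd W (j3) (i) (i + h))
    (b0 : (2 * Q) ≤ (2 * j + ph + 1))
    (b1 : (i + h) ≤ (j + ph))
    (b2 : (i + j + 2) ≤ (Q))
    (b3 : (4 * i + 2 * h + j3 + 2 * ph) ≤ (3 * j + 2 * de + 1)) : False := by
  have ev := al.ev
  obtain ⟨y0, y1, y2, y3, y4, y5, y6, y7, y8, y9, y10, y11, y12, y13, y14, y15, y16⟩ := id hy
  have n1p := And.intro n1.p1 n1.p2
  have n4p := And.intro n4.p1 n4.p2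
  have n5p := And.intro n5.p1 n5.p2
  by_cases z15 : (2 * i + h + j3 + ph) ≤ (2 * j + de)
  · exact rz6_13 al hy a1 a2 s1 s2 u1 u2 GG AL0 AL1 BE T2 n1 n4 n5 (by clear * - b0; omega) (by clear * - b1; omega) (by clear * - b2; omega) (by clear * - z15; omega)
  · have kk505 : (2 * i + h + ph + 2) ≤ (j + j3) := by clear * - b3 y15 z15 ev n1p n4p n5p; omega
    have kk506 : (j + 2 * de + 1) ≤ (2 * i + h + j3 + ph) := by clear * - y15 z15; omega
    have kk507 : (0) ≤ (i + 1) := by clear * - y0; omega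
    have kk508 : (j) ≤ (de + ph) := by clear * - b1 b3 y12 y15 z15; omega
    have kk509 : (j) ≤ (2 * i + h + 1) := by clear * - b3 y0 y12 y15 z15; omega
    have kk510 : (j3) ≤ (j + ph) := by clear * - b1 b3 y12 y15 z15; omega
    have kk511 : (j3) ≤ (Q) := by clear * - y4; omega
    have kk512 : (2 * i + h + ph) ≤ (2 * j) := by clear * - b3 y15 z15; omega
    have kk513 : (i + ph) ≤ (j) := by clear * - b3 y12 y15 z15; omega
    have kk514 : (j) ≤ (de) := by clear * - y16; omega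
    have r515 : (2 * n + 4 * i + 3 * h + ph - j - j3) % 2 = 0 := by clear * - ev n1p n4p n5p; omega
    clear * - al a1 s2 AL0 BE kk505 kk506 kk507 kk508 kk509 kk510 kk511 kk512 kk513 kk514 r515
    obtain ⟨t, ht⟩ : ∃ t, 2 * t = (2 * n + 4 * i + 3 * h + ph - j - j3) := ⟨(2 * n + 4 * i + 3 * h + ph - j - j3) / 2, by omega⟩
    exact al.ninv t (cE (cE (cI (cE (pb a1 al 1 t (t + (j - n - i - h)) (by omega)) (pb (show Par W (n + i - ph + 1) (n + j - ph) (i + h + ph - j) from fun t h1 h2 => (cE (sh al (-2) t (t + (-2 * n)) (by omega)) (cE (cE (qf AL0 al (-1) (t + (-2 * n)) (t + (ph - n)) (by omega)) (qf a1 al 0 (t + (ph - n)) (t + (i + h + ph - n - j)) (by omega))) (sh al 1 (t + (i + h + ph - n - j)) (t + (i + h + ph - j)) (by omega))))) al (-1) (t + (j - n - i - h)) (t + (2 * j - 2 * i - 2 * h - ph)) (by omega))) (ab s2 al 1 (t + (2 * j - 2 * i - 2 * h - ph)) ((n + 3 * i + 2 * h + ph - j) - t) (by omega)))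 (qf BE al 0 ((n + 3 * i + 2 * h + ph - j) - t) ((n + 4 * i + 3 * h + ph - j - j3) - t) (by omega))) (sh al 1 ((n + 4 * i + 3 * h + ph - j - j3) - t) t (by omega)))

theorem rz6_11 {W : ℤ → G} {n Q i j h de j3 ph : ℤ} (al : AL W n Q)
    (hy : (0) ≤ (i) ∧ (i) ≤ (j) ∧ (j + 1) ≤ (Q) ∧ (i) ≤ (j3) ∧ (j3 + 1) ≤ (Q) ∧ (0) ≤ (de) ∧ (de + 1) ≤ (j3) ∧ (Q + j3) ≤ (i + h + de) ∧ (j + 1) ≤ (h) ∧ (0) ≤ (ph) ∧ (ph + 1) ≤ (h) ∧ (3 * h + j3 + 2 * ph) ≤ (n + i) ∧ (3 * j3 + 1) ≤ (i + h + 2 * de) ∧ (i + 1) ≤ (de) ∧ (j + 1) ≤ (j3) ∧ (de) ≤ (j) ∧ (j) ≤ (de))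
    (a1 : Par W (0) (j) (i + h - j))
    (a2 : Par W (Q + j - i - h) (j) (i + h - j))
    (s1 : Ant W (0) (i) (i + j))
    (s2 : Ant W (j + 1) (Q) (i + j))
    (u1 : Ant W (0) (i) (i + j3))
    (u2 : Ant W (j3 + 1) (Q) (i + j3))
    (GG : Par W (i + 1) (h + de + ph) (h))
    (AL0 : Par W (i - ph + 1) (de) (ph))
    (AL1 : Par W (i - h - ph + 1) (de) (h + ph))
    (BE : Par W (de + 1) (j3) (i + h - j3))
    (T2 : Ant W (Q) (i + h + de - j3) (i + 2 * h + 2 * de + ph - j3))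
    (n1 : Nd W (j) (i) (i + h))
    (n4 : Nd W (h + de + ph) (i + h + de - j3) (de))
    (n5 : Nd W (j3) (i) (i + h))
    (b0 : (2 * Q) ≤ (2 * j + ph + 1))
    (b1 : (i + h) ≤ (j + ph))
    (b2 : (i + j + 2) ≤ (Q))
    (b3 : (2 * i + h + ph) ≤ (2 * j)) : False := by
  have ev := al.ev
  obtain ⟨y0, y1, y2, y3, y4, y5, y6, y7, y8, y9, y10, y11, y12, y13, y14, y15, y16⟩ := id hy
  have n1p := And.intro n1.p1 n1.p2
  have n4p := And.intro n4.p1 n4.p2
  have n5p := And.intro n5.p1 n5.p2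
  by_cases z14 : (3 * j + 2 * de + 2) ≤ (4 * i + 2 * h + j3 + 2 * ph)
  · have kk133 : (j + 1) ≤ (j3) := by clear * - b3 y16 z14; omega
    have kk134 : (j + j3 + 2) ≤ (2 * Q) := by clear * - b3 y16 y4 z14; omega
    have kk135 : (3 * j + 2 * de + 2) ≤ (4 * i + 2 * h + j3 + 2 * ph) := by clear * - z14; omega
    have kk136 : (j + 2) ≤ (j3) := by clear * - b3 y16 z14; omega
    have kk137 : (i + ph) ≤ (j) := by clear * - b3 y12 y16 z14; omega
    have kk138 : (i) ≤ (de) := by clear * - y13; omega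
    have kk139 : (Q) ≤ (j + ph) := by clear * - b0 b1 b3 y12 y16 z14; omega
    have kk140 : (Q) ≤ (i + j + ph + 1) := by clear * - b0 b2 y0; omega
    have kk141 : (j3) ≤ (j + de + 1) := by clear * - b1 b3 y0 y12 y16 z14; omega
    have kk142 : (de) ≤ (j3) := by clear * - b3 y16 z14; omega
    have kk143 : (2 * i + h + ph) ≤ (j + j3) := by clear * - b3 y16 z14; omega
    have r144 : (2 * i + h + ph - 2 * n) % 2 = 0 := by clear * - ev n1p n4p n5p; omega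
    have r145 : (j3 - j) % 2 = 0 := by clear * - ev n1p n4p n5p; omega
    clear * - al a1 s2 AL0 BE kk133 kk134 kk135 kk136 kk137 kk138 kk139 kk140 kk141 kk142 kk143 r144 r145
    exact midP al (j3 - j) (2 * i + h + ph - 2 * n) (j - n + 1) (j + de - n - j3 + 1) (j3 - n) (by omega) (fun t h1 h2 => (cE (cE (cE (qa s2 al (-1) t ((i + j - n) - t) (by omega)) (qf AL0 al 0 ((i + j - n) - t) ((i + j + ph - n) - t) (by omega))) (qf a1 al 0 ((i + j + ph - n) - t) ((2 * i + h + ph - n) - t) (by omega))) (sh al (-1) ((2 * i + h + ph - n) - t) ((2 * i + h + ph - 2 * n) - t) (by omega)))) (fun t h1 h2 => (cE (cE (qf a1 al (-1) t (t + (n + i + h - j)) (by omega)) (pb BE al 0 (t + (n + i + h - j)) (t + (n + j3 - j)) (by omega))) (sh al (-1) (t + (n + j3 - j)) (t + (j3 - j)) (by omega))))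
  · exact rz6_12 al hy a1 a2 s1 s2 u1 u2 GG AL0 AL1 BE T2 n1 n4 n5 (by clear * - b0; omega) (by clear * - b1; omega) (by clear * - b2; omega) (by clear * - z14; omega)

theorem rz6_10 {W : ℤ → G} {n Q i j h de j3 ph : ℤ} (al : AL W n Q)
    (hy : (0) ≤ (i) ∧ (i) ≤ (j) ∧ (j + 1) ≤ (Q) ∧ (i) ≤ (j3) ∧ (j3 + 1) ≤ (Q) ∧ (0) ≤ (de) ∧ (de + 1) ≤ (j3) ∧ (Q + j3) ≤ (i + h + de) ∧ (j + 1) ≤ (h) ∧ (0) ≤ (ph) ∧ (ph + 1) ≤ (h) ∧ (3 * h + j3 + 2 * ph) ≤ (n + i) ∧ (3 * j3 + 1) ≤ (i + h + 2 * de) ∧ (i + 1) ≤ (de) ∧ (j + 1) ≤ (j3) ∧ (de) ≤ (j) ∧ (j) ≤ (de))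
    (a1 : Par W (0) (j) (i + h - j))
    (a2 : Par W (Q + j - i - h) (j) (i + h - j))
    (s1 : Ant W (0) (i) (i + j))
    (s2 : Ant W (j + 1) (Q) (i + j))
    (u1 : Ant W (0) (i) (i + j3))
    (u2 : Ant W (j3 + 1) (Q) (i + j3))
    (GG : Par W (i + 1) (h + de + ph) (h))
    (AL0 : Par W (i - ph + 1) (de) (ph))
    (AL1 : Par W (i - h - ph + 1) (de) (h + ph))
    (BE : Par W (de + 1) (j3) (i + h - j3))
    (T2 : Ant W (Q) (i + h + de - j3) (i + 2 * h + 2 * de + ph - j3))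
    (n1 : Nd W (j) (i) (i + h))
    (n4 : Nd W (h + de + ph) (i + h + de - j3) (de))
    (n5 : Nd W (j3) (i) (i + h))
    (b0 : (2 * Q) ≤ (2 * j + ph + 1))
    (b1 : (i + h) ≤ (j + ph))
    (b2 : (i + j + 2) ≤ (Q))
    (b3 : (i + j3 + ph) ≤ (j + de))
    (b4 : (2 * i + h + ph + 1) ≤ (2 * Q)) : False := by
  have ev := al.ev
  obtain ⟨y0, y1, y2, y3, y4, y5, y6, y7, y8, y9, y10, y11, y12, y13, y14, y15, y16⟩ := id hy
  have n1p := And.intro n1.p1 n1.p2
  have n4p := And.intro n4.p1 n4.p2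
  have n5p := And.intro n5.p1 n5.p2
  by_cases z13 : (2 * j + 1) ≤ (2 * i + h + ph)
  · have kk126 : (2 * i + h + ph + 2) ≤ (2 * Q) := by clear * - b4 ev n1p n4p n5p; omega
    have kk127 : (2 * j + 1) ≤ (2 * i + h + ph) := by clear * - z13; omega
    have kk128 : (0) ≤ (i + 1) := by clear * - y0; omega
    have kk129 : (Q) ≤ (j + ph) := by clear * - b0 b4 z13; omega
    have kk130 : (i + ph) ≤ (j) := by clear * - b3 y14 y15; omega
    have kk131 : (i) ≤ (de) := by clear * - b0 b3 b4 y14 z13; omega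
    have r132 : (2 * i + h + ph) % 2 = 0 := by clear * - ev n1p n4p n5p; omega
    clear * - al a1 s2 AL0 kk126 kk127 kk128 kk129 kk130 kk131 r132
    obtain ⟨t, ht⟩ : ∃ t, 2 * t = (2 * i + h + ph) := ⟨(2 * i + h + ph) / 2, by omega⟩
    exact al.ninv t (cI (cE (pb a1 al 0 t (t + (j - i - h)) (by omega)) (pb AL0 al 0 (t + (j - i - h)) (t + (j - i - h - ph)) (by omega))) (ab s2 al 0 (t + (j - i - h - ph)) t (by omega)))
  · exact rz6_11 al hy a1 a2 s1 s2 u1 u2 GG AL0 AL1 BE T2 n1 n4 n5 (by clear * - b0; omega) (by clear * - b1; omega) (by clear * - b2; omega) (by clear * - z13; omega)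

theorem rz6_30 {W : ℤ → G} {n Q i j h de j3 ph : ℤ} (al : AL W n Q)
    (hy : (0) ≤ (i) ∧ (i) ≤ (j) ∧ (j + 1) ≤ (Q) ∧ (i) ≤ (j3) ∧ (j3 + 1) ≤ (Q) ∧ (0) ≤ (de) ∧ (de + 1) ≤ (j3) ∧ (Q + j3) ≤ (i + h + de) ∧ (j + 1) ≤ (h) ∧ (0) ≤ (ph) ∧ (ph + 1) ≤ (h) ∧ (3 * h + j3 + 2 * ph) ≤ (n + i) ∧ (3 * j3 + 1) ≤ (i + h + 2 * de) ∧ (i + 1) ≤ (de) ∧ (j + 1) ≤ (j3) ∧ (de) ≤ (j) ∧ (j) ≤ (de))
    (a1 : Par W (0) (j) (i + h - j))
    (a2 : Par W (Q + j - i - h) (j) (i + h - j))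
    (s1 : Ant W (0) (i) (i + j))
    (s2 : Ant W (j + 1) (Q) (i + j))
    (u1 : Ant W (0) (i) (i + j3))
    (u2 : Ant W (j3 + 1) (Q) (i + j3))
    (GG : Par W (i + 1) (h + de + ph) (h))
    (AL0 : Par W (i - ph + 1) (de) (ph))
    (AL1 : Par W (i - h - ph + 1) (de) (h + ph))
    (BE : Par W (de + 1) (j3) (i + h - j3))
    (T2 : Ant W (Q) (i + h + de - j3) (i + 2 * h + 2 * de + ph - j3))
    (n1 : Nd W (j) (i) (i + h))
    (n4 : Nd W (h + de + ph) (i + h + de - j3) (de))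
    (n5 : Nd W (j3) (i) (i + h))
    (b0 : (i + h) ≤ (j + ph))
    (b1 : (i + j + 2) ≤ (Q))
    (b2 : (i + j3 + ph) ≤ (j + de))
    (b3 : (2 * Q) ≤ (2 * i + h + ph)) : False := by
  have ev := al.ev
  obtain ⟨y0, y1, y2, y3, y4, y5, y6, y7, y8, y9, y10, y11, y12, y13, y14, y15, y16⟩ := id hy
  have n1p := And.intro n1.p1 n1.p2
  have n4p := And.intro n4.p1 n4.p2
  have n5p := And.intro n5.p1 n5.p2
  by_cases z46 : (i + h + 1) ≤ (j + ph)
  · have kk516 : (i + h + 1) ≤ (j + ph) := by clear * - z46; omega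
    have kk517 : (j + ph + 1) ≤ (n + i + h) := by clear * - b2 y11 y12 y14 y15 z46; omega
    have kk518 : (ph) ≤ (Q) := by clear * - b1 b2 y0 y14 y15; omega
    have kk519 : (Q + j) ≤ (i + h + de) := by clear * - b2 b3 y12 y14 y15; omega
    have kk520 : (i + 1) ≤ (ph) := by clear * - b1 b3 y13 y15 z46; omega
    have kk521 : (de) ≤ (j) := by clear * - y15; omega
    clear * - al a1 AL0 kk516 kk517 kk518 kk519 kk520 kk521
    exact al.ubQ (j + ph - i - h) (by omega) (by omega) fun t h1 h2 => (cE (sh al (-1) t (t + (-n)) (by omega)) (cE (pb a1 al (-1) (t + (-n)) (t + (j - i - h)) (by omega)) (qf AL0 al 0 (t + (j - i - h)) (t + (j + ph - i - h)) (by omega))))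
  · by_cases z47 : (2 * j + de) ≤ (2 * i + h + j3)
    · have kk522 : (2 * j + de) ≤ (2 * i + h + j3) := by clear * - z47; omega
      have kk523 : (2 * i + h + j3) ≤ (2 * j + de + 1) := by clear * - b0 b2; omega
      have kk524 : (de) ≤ (j) := by clear * - y15; omega
      have kk525 : (j) ≤ (de) := by clear * - y16; omega
      have kk526 : (1) ≤ (h) := by clear * - b0 b2 y12 y14 y15; omega
      have kk527 : (i + 1) ≤ (de + ph) := by clear * - b0 b2 y12 y14 y15; omega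
      have kk528 : (de + ph) ≤ (i + h) := by clear * - y15 z46; omega
      have kk529 : (i + h) ≤ (de + ph) := by clear * - b0 y16; omega
      have kk530 : (i + h + j3) ≤ (2 * j + de) := by clear * - b0 b2 y0; omega
      have kk531 : (j3) ≤ (j + de) := by clear * - b0 b1 b2 b3 y0 y14 y15; linarith
      have kk532 : (j) ≤ (i + h) := by clear * - y12 y14 y15; omega
      have kk533 : (de + 1) ≤ (j3) := by clear * - y14 y15; omega
      have r534 : (2 * j + de - 2 * n - h - j3) % 2 = 0 := by clear * - y15 y16 ev n1p n4p n5p; omega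
      clear * - al a1 GG n1 n4 kk522 kk523 kk524 kk525 kk526 kk527 kk528 kk529 kk530 kk531 kk532 kk533 r534
      obtain ⟨t, ht⟩ : ∃ t, 2 * t = (2 * j + de - 2 * n - h - j3) := ⟨(2 * j + de - 2 * n - h - j3) / 2, by omega⟩
      exact al.ninv t (cE (cI (cE (qf a1 al (-1) t (t + (n + i + h - j)) (by omega)) (qf a1 al 0 (t + (n + i + h - j)) (t + (n + 2 * i + 2 * h - 2 * j)) (by omega))) (ab (uA (i) (i + h + de - j3) (2 * i + h + de - j3) (by omega) (lat n1.r5 n4.r2 (iNN (sh al 0 (j) (de) (by omega))) (qf GG al 0 (i + h) (h + de + ph) (by omega)))) al 0 (t + (n + 2 * i + 2 * h - 2 * j)) ((2 * j + de - n - h - j3) - t) (by omega))) (sh al (-1) ((2 * j + de - n - h - j3) - t) t (by omega)))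
    · by_cases z48 : (i + 2 * h) ≤ (2 * j + j3 + 1)
      · have kk535 : (2 * j + j3 + 2) ≤ (3 * i + 2 * h) := by clear * - b1 b3 y4 z46 z48; omega
        have kk536 : (i + 2 * h) ≤ (2 * j + j3 + 1) := by clear * - z48; omega
        have kk537 : (i) ≤ (j) := by clear * - y13 y15; omega
        have kk538 : (2 * i + h) ≤ (2 * j) := by clear * - b1 b3 y15 z46 z47 z48; omega
        have kk539 : (Q + 2 * j) ≤ (2 * i + 2 * h) := by clear * - b1 b3 z46; omega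
        have r540 : (3 * i + 2 * h + j3 - 2 * n - 2 * j) % 2 = 0 := by clear * - ev n1p n4p n5p; omega
        clear * - al a1 a2 u1 kk535 kk536 kk537 kk538 kk539 r540
        obtain ⟨t, ht⟩ : ∃ t, 2 * t = (3 * i + 2 * h + j3 - 2 * n - 2 * j) := ⟨(3 * i + 2 * h + j3 - 2 * n - 2 * j) / 2, by omega⟩
        exact al.ninv t (cE (cE (cE (ab u1 al (-1) t ((i + j3 - n) - t) (by omega)) (qf a1 al 0 ((i + j3 - n) - t) ((2 * i + h + j3 - n - j) - t) (by omega))) (qf a2 al 0 ((2 * i + h + j3 - n - j) - t) ((3 * i + 2 * h + j3 - n - 2 * j) - t) (by omega))) (sh al (-1) ((3 * i + 2 * h + j3 - n - 2 * j) - t) t (by omega)))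
      · have kk541 : (2 * Q + j + j3) ≤ (2 * i + h + 2 * de + 2 * ph) := by clear * - b0 b3 y12 y14; omega
        have kk542 : (2 * i + h + j3 + 1) ≤ (j + 2 * de) := by clear * - y16 z47; omega
        have kk543 : (0) ≤ (i + 1) := by clear * - y0; omega
        have kk544 : (0) ≤ (h) := by clear * - y12 y14 y15 z47; omega
        have kk545 : (j + de) ≤ (i + h + j3) := by clear * - y12 y14 y15; omega
        have kk546 : (2 * i + h + 1) ≤ (Q + j) := by clear * - y14 y15 y4 z47; omega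
        have kk547 : (j) ≤ (de + ph) := by clear * - b0 y12 y14 y15; omega
        have kk548 : (de) ≤ (j3) := by clear * - y14 y15; omega
        have kk549 : (de + ph) ≤ (i + h) := by clear * - y15 z46; omega
        have r550 : (j + 2 * de - 2 * n - h - j3) % 2 = 0 := by clear * - ev n1p n4p n5p; omega
        clear * - al a1 GG AL0 T2 kk541 kk542 kk543 kk544 kk545 kk546 kk547 kk548 kk549 r550
        obtain ⟨t, ht⟩ : ∃ t, 2 * t = (j + 2 * de - 2 * n - h - j3) := ⟨(j + 2 * de - 2 * n - h - j3) / 2, by omega⟩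
        exact al.ninv t (cE (cE (cE (cI (cE (qf AL0 al (-1) t (t + (n + ph)) (by omega)) (qf a1 al 0 (t + (n + ph)) (t + (n + i + h + ph - j)) (by omega))) (qa T2 al 0 (t + (n + i + h + ph - j)) ((j + h + 2 * de - n - j3) - t) (by omega))) (pb GG al 0 ((j + h + 2 * de - n - j3) - t) ((j + 2 * de - n - j3) - t) (by omega))) (pb GG al 0 ((j + 2 * de - n - j3) - t) ((j + 2 * de - n - h - j3) - t) (by omega))) (sh al (-1) ((j + 2 * de - n - h - j3) - t) t (by omega)))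

theorem rz6_9 {W : ℤ → G} {n Q i j h de j3 ph : ℤ} (al : AL W n Q)
    (hy : (0) ≤ (i) ∧ (i) ≤ (j) ∧ (j + 1) ≤ (Q) ∧ (i) ≤ (j3) ∧ (j3 + 1) ≤ (Q) ∧ (0) ≤ (de) ∧ (de + 1) ≤ (j3) ∧ (Q + j3) ≤ (i + h + de) ∧ (j + 1) ≤ (h) ∧ (0) ≤ (ph) ∧ (ph + 1) ≤ (h) ∧ (3 * h + j3 + 2 * ph) ≤ (n + i) ∧ (3 * j3 + 1) ≤ (i + h + 2 * de) ∧ (i + 1) ≤ (de) ∧ (j + 1) ≤ (j3) ∧ (de) ≤ (j) ∧ (j) ≤ (de))
    (a1 : Par W (0) (j) (i + h - j))
    (a2 : Par W (Q + j - i - h) (j) (i + h - j))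
    (s1 : Ant W (0) (i) (i + j))
    (s2 : Ant W (j + 1) (Q) (i + j))
    (u1 : Ant W (0) (i) (i + j3))
    (u2 : Ant W (j3 + 1) (Q) (i + j3))
    (GG : Par W (i + 1) (h + de + ph) (h))
    (AL0 : Par W (i - ph + 1) (de) (ph))
    (AL1 : Par W (i - h - ph + 1) (de) (h + ph))
    (BE : Par W (de + 1) (j3) (i + h - j3))
    (T2 : Ant W (Q) (i + h + de - j3) (i + 2 * h + 2 * de + ph - j3))
    (n1 : Nd W (j) (i) (i + h))
    (n4 : Nd W (h + de + ph) (i + h + de - j3) (de))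
    (n5 : Nd W (j3) (i) (i + h))
    (b0 : (2 * Q) ≤ (2 * j + ph + 1))
    (b1 : (i + h) ≤ (j + ph))
    (b2 : (i + j + 2) ≤ (Q))
    (b3 : (i + j3 + ph) ≤ (j + de)) : False := by
  have ev := al.ev
  obtain ⟨y0, y1, y2, y3, y4, y5, y6, y7, y8, y9, y10, y11, y12, y13, y14, y15, y16⟩ := id hy
  have n1p := And.intro n1.p1 n1.p2
  have n4p := And.intro n4.p1 n4.p2
  have n5p := And.intro n5.p1 n5.p2
  by_cases z12 : (2 * i + h + ph + 1) ≤ (2 * Q)
  · exact rz6_10 al hy a1 a2 s1 s2 u1 u2 GG AL0 AL1 BE T2 n1 n4 n5 (by clear * - b0; omega) (by clear * - b1; omega) (by clear * - b2; omega) (by clear * - b3; omega) (by clear * - z12; omega)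
  · exact rz6_30 al hy a1 a2 s1 s2 u1 u2 GG AL0 AL1 BE T2 n1 n4 n5 (by clear * - b1; omega) (by clear * - b2; omega) (by clear * - b3; omega) (by clear * - z12; omega)

theorem rz6_8 {W : ℤ → G} {n Q i j h de j3 ph : ℤ} (al : AL W n Q)
    (hy : (0) ≤ (i) ∧ (i) ≤ (j) ∧ (j + 1) ≤ (Q) ∧ (i) ≤ (j3) ∧ (j3 + 1) ≤ (Q) ∧ (0) ≤ (de) ∧ (de + 1) ≤ (j3) ∧ (Q + j3) ≤ (i + h + de) ∧ (j + 1) ≤ (h) ∧ (0) ≤ (ph) ∧ (ph + 1) ≤ (h) ∧ (3 * h + j3 + 2 * ph) ≤ (n + i) ∧ (3 * j3 + 1) ≤ (i + h + 2 * de) ∧ (i + 1) ≤ (de) ∧ (j + 1) ≤ (j3) ∧ (de) ≤ (j) ∧ (j) ≤ (de))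
    (a1 : Par W (0) (j) (i + h - j))
    (a2 : Par W (Q + j - i - h) (j) (i + h - j))
    (s1 : Ant W (0) (i) (i + j))
    (s2 : Ant W (j + 1) (Q) (i + j))
    (u1 : Ant W (0) (i) (i + j3))
    (u2 : Ant W (j3 + 1) (Q) (i + j3))
    (GG : Par W (i + 1) (h + de + ph) (h))
    (AL0 : Par W (i - ph + 1) (de) (ph))
    (AL1 : Par W (i - h - ph + 1) (de) (h + ph))
    (BE : Par W (de + 1) (j3) (i + h - j3))
    (T2 : Ant W (Q) (i + h + de - j3) (i + 2 * h + 2 * de + ph - j3))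
    (n1 : Nd W (j) (i) (i + h))
    (n4 : Nd W (h + de + ph) (i + h + de - j3) (de))
    (n5 : Nd W (j3) (i) (i + h))
    (b0 : (2 * Q) ≤ (2 * j + ph + 1))
    (b1 : (i + h) ≤ (j + ph))
    (b2 : (2 * i + j3 + 2 * ph) ≤ (j + 2 * de + 1))
    (b3 : (i + j + 2) ≤ (Q)) : False := by
  have ev := al.ev
  obtain ⟨y0, y1, y2, y3, y4, y5, y6, y7, y8, y9, y10, y11, y12, y13, y14, y15, y16⟩ := id hy
  have n1p := And.intro n1.p1 n1.p2
  have n4p := And.intro n4.p1 n4.p2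
  have n5p := And.intro n5.p1 n5.p2
  by_cases z11 : (i + j3 + ph) ≤ (j + de)
  · exact rz6_9 al hy a1 a2 s1 s2 u1 u2 GG AL0 AL1 BE T2 n1 n4 n5 (by clear * - b0; omega) (by clear * - b1; omega) (by clear * - b3; omega) (by clear * - z11; omega)
  · have kk551 : (i + ph + 2) ≤ (j3) := by clear * - b2 y15 z11 ev n1p n4p n5p; omega
    have kk552 : (2 * j + 1) ≤ (i + j3 + ph) := by clear * - y16 z11; omega
    have kk553 : (j3) ≤ (i + j + ph + 1) := by clear * - b1 b2 y0 y12 y15 z11; omega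
    have kk554 : (j3) ≤ (j + ph) := by clear * - b1 b2 y12 y15 z11; omega
    have kk555 : (j3) ≤ (Q) := by clear * - y4; omega
    have kk556 : (i + ph) ≤ (de) := by clear * - b2 z11; omega
    have kk557 : (i + j) ≤ (2 * de) := by clear * - y13 y16; omega
    have kk558 : (de) ≤ (j) := by clear * - y15; omega
    have r559 : (3 * i + 2 * h + ph - j3) % 2 = 0 := by clear * - ev n1p n4p n5p; omega
    clear * - al a1 s2 AL0 BE kk551 kk552 kk553 kk554 kk555 kk556 kk557 kk558 r559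
    obtain ⟨t, ht⟩ : ∃ t, 2 * t = (3 * i + 2 * h + ph - j3) := ⟨(3 * i + 2 * h + ph - j3) / 2, by omega⟩
    exact al.ninv t (cE (cI (cE (pb a1 al 0 t (t + (j - i - h)) (by omega)) (pb AL0 al 0 (t + (j - i - h)) (t + (j - i - h - ph)) (by omega))) (ab s2 al 0 (t + (j - i - h - ph)) ((2 * i + h + ph) - t) (by omega))) (qf BE al 0 ((2 * i + h + ph) - t) t (by omega)))

theorem rz6_7 {W : ℤ → G} {n Q i j h de j3 ph : ℤ} (al : AL W n Q)
    (hy : (0) ≤ (i) ∧ (i) ≤ (j) ∧ (j + 1) ≤ (Q) ∧ (i) ≤ (j3) ∧ (j3 + 1) ≤ (Q) ∧ (0) ≤ (de) ∧ (de + 1) ≤ (j3) ∧ (Q + j3) ≤ (i + h + de) ∧ (j + 1) ≤ (h) ∧ (0) ≤ (ph) ∧ (ph + 1) ≤ (h) ∧ (3 * h + j3 + 2 * ph) ≤ (n + i) ∧ (3 * j3 + 1) ≤ (i + h + 2 * de) ∧ (i + 1) ≤ (de) ∧ (j + 1) ≤ (j3) ∧ (de) ≤ (j) ∧ (j) ≤ (de))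
    (a1 : Par W (0) (j) (i + h - j))
    (a2 : Par W (Q + j - i - h) (j) (i + h - j))
    (s1 : Ant W (0) (i) (i + j))
    (s2 : Ant W (j + 1) (Q) (i + j))
    (u1 : Ant W (0) (i) (i + j3))
    (u2 : Ant W (j3 + 1) (Q) (i + j3))
    (GG : Par W (i + 1) (h + de + ph) (h))
    (AL0 : Par W (i - ph + 1) (de) (ph))
    (AL1 : Par W (i - h - ph + 1) (de) (h + ph))
    (BE : Par W (de + 1) (j3) (i + h - j3))
    (T2 : Ant W (Q) (i + h + de - j3) (i + 2 * h + 2 * de + ph - j3))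
    (n1 : Nd W (j) (i) (i + h))
    (n4 : Nd W (h + de + ph) (i + h + de - j3) (de))
    (n5 : Nd W (j3) (i) (i + h))
    (b0 : (2 * Q) ≤ (2 * j + ph + 1))
    (b1 : (i + h) ≤ (j + ph))
    (b2 : (2 * i + j3 + 2 * ph) ≤ (j + 2 * de + 1)) : False := by
  have ev := al.ev
  obtain ⟨y0, y1, y2, y3, y4, y5, y6, y7, y8, y9, y10, y11, y12, y13, y14, y15, y16⟩ := id hy
  have n1p := And.intro n1.p1 n1.p2
  have n4p := And.intro n4.p1 n4.p2
  have n5p := And.intro n5.p1 n5.p2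
  by_cases z10 : (Q) ≤ (i + j + 1)
  · have kk122 : (j + 1) ≤ (j3) := by clear * - y14; omega
    have kk123 : (j3 + 1) ≤ (n + j) := by clear * - b1 b2 y11 y12 y14 y15; omega
    have kk124 : (j3 + 1) ≤ (Q) := by clear * - y4; omega
    have kk125 : (Q) ≤ (i + j + 1) := by clear * - z10; omega
    clear * - al s1 u1 kk122 kk123 kk124 kk125
    exact al.ubQ (j3 - j) (by omega) (by omega) fun t h1 h2 => (cE (sh al 1 t (t + (n)) (by omega)) (cII (ab s1 al 1 (t + (n)) ((i + j) - t) (by omega)) (qa u1 al 0 ((i + j) - t) (t + (j3 - j)) (by omega))))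
  · exact rz6_8 al hy a1 a2 s1 s2 u1 u2 GG AL0 AL1 BE T2 n1 n4 n5 (by clear * - b0; omega) (by clear * - b1; omega) (by clear * - b2; omega) (by clear * - z10; omega)

theorem rz6_6 {W : ℤ → G} {n Q i j h de j3 ph : ℤ} (al : AL W n Q)
    (hy : (0) ≤ (i) ∧ (i) ≤ (j) ∧ (j + 1) ≤ (Q) ∧ (i) ≤ (j3) ∧ (j3 + 1) ≤ (Q) ∧ (0) ≤ (de) ∧ (de + 1) ≤ (j3) ∧ (Q + j3) ≤ (i + h + de) ∧ (j + 1) ≤ (h) ∧ (0) ≤ (ph) ∧ (ph + 1) ≤ (h) ∧ (3 * h + j3 + 2 * ph) ≤ (n + i) ∧ (3 * j3 + 1) ≤ (i + h + 2 * de) ∧ (i + 1) ≤ (de) ∧ (j + 1) ≤ (j3) ∧ (de) ≤ (j) ∧ (j) ≤ (de))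
    (a1 : Par W (0) (j) (i + h - j))
    (a2 : Par W (Q + j - i - h) (j) (i + h - j))
    (s1 : Ant W (0) (i) (i + j))
    (s2 : Ant W (j + 1) (Q) (i + j))
    (u1 : Ant W (0) (i) (i + j3))
    (u2 : Ant W (j3 + 1) (Q) (i + j3))
    (GG : Par W (i + 1) (h + de + ph) (h))
    (AL0 : Par W (i - ph + 1) (de) (ph))
    (AL1 : Par W (i - h - ph + 1) (de) (h + ph))
    (BE : Par W (de + 1) (j3) (i + h - j3))
    (T2 : Ant W (Q) (i + h + de - j3) (i + 2 * h + 2 * de + ph - j3))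
    (n1 : Nd W (j) (i) (i + h))
    (n4 : Nd W (h + de + ph) (i + h + de - j3) (de))
    (n5 : Nd W (j3) (i) (i + h))
    (b0 : (2 * Q) ≤ (2 * j + ph + 1))
    (b1 : (2 * i + 2 * ph) ≤ (j + j3 + 1))
    (b2 : (2 * i + h) ≤ (2 * j + 1))
    (b3 : (i + h) ≤ (j + ph)) : False := by
  have ev := al.ev
  obtain ⟨y0, y1, y2, y3, y4, y5, y6, y7, y8, y9, y10, y11, y12, y13, y14, y15, y16⟩ := id hy
  have n1p := And.intro n1.p1 n1.p2
  have n4p := And.intro n4.p1 n4.p2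
  have n5p := And.intro n5.p1 n5.p2
  by_cases z9 : (j + 2 * de + 2) ≤ (2 * i + j3 + 2 * ph)
  · by_cases v5 : (i + ph) ≤ (de)
    · have kk100 : (j + 1) ≤ (j3) := by clear * - v5 z9; omega
      have kk101 : (j + 2 * de + 2) ≤ (2 * i + j3 + 2 * ph) := by clear * - z9; omega
      have kk102 : (j + 4 * de + 2) ≤ (2 * i + 3 * j3 + 2 * ph) := by clear * - b1 z9; omega
      have kk103 : (j + 2 * de + 2) ≤ (3 * j3) := by clear * - b1 v5 z9; omega
      have kk104 : (Q) ≤ (j + ph) := by clear * - b0 b1 b3 v5 y12 z9; omega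
      have kk105 : (i) ≤ (de) := by clear * - y13; omega
      have kk106 : (j3) ≤ (j + de + 1) := by clear * - b1 b3 v5 y0 y12 z9; omega
      have kk107 : (i + ph) ≤ (de) := by clear * - v5; omega
      have kk108 : (i + j3 + ph) ≤ (Q + de) := by clear * - v5 y4; omega
      have r109 : (i + j + ph - 2 * n) % 2 = 0 := by clear * - ev n1p n4p n5p; omega
      have r110 : (j3 - j) % 2 = 0 := by clear * - ev n1p n4p n5p; omega
      clear * - al a1 s2 AL0 BE kk100 kk101 kk102 kk103 kk104 kk105 kk106 kk107 kk108 r109 r110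
      exact midP al (j3 - j) (i + j + ph - 2 * n) (j + de - n - j3 + 1) (j + de - n - j3 + 1) (j3 - n) (by omega) (fun t h1 h2 => (cE (cI (pb AL0 al (-1) t (t + (n - ph)) (by omega)) (ab s2 al 0 (t + (n - ph)) ((i + j + ph - n) - t) (by omega))) (sh al (-1) ((i + j + ph - n) - t) ((i + j + ph - 2 * n) - t) (by omega)))) (fun t h1 h2 => (cE (cE (qf a1 al (-1) t (t + (n + i + h - j)) (by omega)) (pb BE al 0 (t + (n + i + h - j)) (t + (n + j3 - j)) (by omega))) (sh al (-1) (t + (n + j3 - j)) (t + (j3 - j)) (by omega))))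
    · have kk111 : (j + 1) ≤ (j3) := by clear * - b1 v5 y16; omega
      have kk112 : (j + 2) ≤ (j3) := by clear * - b1 v5 y16 ev n1p n4p n5p; omega
      have kk113 : (j + 2 * de + 2) ≤ (3 * j3) := by clear * - b1 v5 y16; omega
      have kk114 : (2 * i + j + 2 * ph + 2) ≤ (3 * j3) := by clear * - b1 v5 y16 ev n1p n4p n5p; omega
      have kk115 : (Q) ≤ (j + ph) := by clear * - b0 v5 y13; omega
      have kk116 : (i) ≤ (de) := by clear * - y13; omega
      have kk117 : (j3) ≤ (j + de + 1) := by clear * - b1 b3 v5 y0 y12 y16; omega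
      have kk118 : (de) ≤ (i + ph) := by clear * - v5; omega
      have kk119 : (j3) ≤ (Q) := by clear * - y4; omega
      have r120 : (i + j + ph - 2 * n) % 2 = 0 := by clear * - ev n1p n4p n5p; omega
      have r121 : (j3 - j) % 2 = 0 := by clear * - ev n1p n4p n5p; omega
      clear * - al a1 s2 AL0 BE kk111 kk112 kk113 kk114 kk115 kk116 kk117 kk118 kk119 r120 r121
      exact midP al (j3 - j) (i + j + ph - 2 * n) (i + j + ph - n - j3 + 1) (j + de - n - j3 + 1) (j3 - n) (by omega) (fun t h1 h2 => (cE (cI (pb AL0 al (-1) t (t + (n - ph)) (by omega)) (ab s2 al 0 (t + (n - ph)) ((i + j + ph - n) - t) (by omega))) (sh al (-1) ((i + j + ph - n) - t) ((i + j + ph - 2 * n) - t) (by omega)))) (fun t h1 h2 => (cE (cE (qf a1 al (-1) t (t + (n + i + h - j)) (by omega)) (pb BE al 0 (t + (n + i + h - j)) (t + (n + j3 - j)) (by omega))) (sh al (-1) (t + (n + j3 - j)) (t + (j3 - j)) (by omega))))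
  · exact rz6_7 al hy a1 a2 s1 s2 u1 u2 GG AL0 AL1 BE T2 n1 n4 n5 (by clear * - b0; omega) (by clear * - b3; omega) (by clear * - z9; omega)

end Pool.Agent.MP_a38735_al.WL
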