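import Pool.Agent.MP_a38735_al.WT

set_option autoImplicit false
set_option linter.unusedVariables false

namespace Pool.Agent.MP_a38735_al.WL

variable {G : Type*} [Group G]

theorem rz2_12 {W : ℤ → G} {n Q i j h de j3 ph : ℤ} (al : AL W n Q)
    (hy : (0) ≤ (i) ∧ (i) ≤ (j) ∧ (j + 1) ≤ (Q) ∧ (i) ≤ (j3) ∧ (j3 + 1) ≤ (Q) ∧ (0) ≤ (de) ∧ (de + 1) ≤ (j3) ∧ (Q + j3) ≤ (i + h + de) ∧ (j + 1) ≤ (h) ∧ (0) ≤ (ph) ∧ (ph + 1) ≤ (h) ∧ (3 * h + j3 + 2 * ph) ≤ (n + i) ∧ (3 * j3 + 1) ≤ (i + h + 2 * de) ∧ (i + 1) ≤ (de) ∧ (j3 + 1) ≤ (j))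
    (a1 : Par W (0) (j) (i + h - j))
    (a2 : Par W (Q + j - i - h) (j) (i + h - j))
    (s1 : Ant W (0) (i) (i + j))
    (s2 : Ant W (j + 1) (Q) (i + j))
    (u1 : Ant W (0) (i) (i + j3))
    (u2 : Ant W (j3 + 1) (Q) (i + j3))
    (GG : Par W (i + 1) (h + de + ph) (h))
    (AL0 : Par W (i - ph + 1) (de) (ph))
    (AL1 : Par W (i - h - ph + 1) (de) (h + ph))
    (BE : Par W (de + 1) (j3) (i + h - j3))
    (T2 : Ant W (Q) (i + h + de - j3) (i + 2 * h + 2 * de + ph - j3))
    (n1 : Nd W (j) (i) (i + h))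
    (n4 : Nd W (h + de + ph) (i + h + de - j3) (de))
    (n5 : Nd W (j3) (i) (i + h))
    (b0 : (i + 1) ≤ (ph))
    (b1 : (2 * Q) ≤ (i + h + j3 + ph + 1))
    (b2 : (i + ph) ≤ (j3 + 1))
    (b3 : (2 * j + 1) ≤ (i + h + j3))
    (b4 : (j + 2 * de + 3) ≤ (Q + j3))
    (b5 : (2 * Q) ≤ (j + j3 + 2 * ph + 1))
    (b6 : (2 * i + j3 + 2 * ph) ≤ (j + 2 * de + 1))
    (b7 : (j + 2) ≤ (Q))
    (b8 : (h) ≤ (j + j3 + ph))
    (b9 : (2 * i + 2 * h + ph) ≤ (2 * Q + 2 * j)) : False := by
  have ev := al.ev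
  obtain ⟨y0, y1, y2, y3, y4, y5, y6, y7, y8, y9, y10, y11, y12, y13, y14⟩ := id hy
  have n1p := And.intro n1.p1 n1.p2
  have n4p := And.intro n4.p1 n4.p2
  have n5p := And.intro n5.p1 n5.p2
  by_cases z18 : (2 * i + 2 * h) ≤ (2 * j + 2 * j3 + ph)
  · by_cases z19 : (2 * j3 + ph + 2) ≤ (2 * Q)
    · by_cases v6 : (i + h) ≤ (j + j3 + 1)
      · by_cases v7 : (j3 + ph) ≤ (Q)
        · have kk186 : (1) ≤ (ph) := by clear * - b5 b7 v7; omega
          have kk187 : (2) ≤ (ph) := by clear * - b5 b7 z19; omega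
          have kk188 : (4 * i + 2 * h + 2) ≤ (2 * j + 2 * j3 + 3 * ph) := by clear * - b0 z18; omega
          have kk189 : (2 * i + 2) ≤ (2 * de + 3 * ph) := by clear * - b5 b6 b7 v7; omega
          have kk190 : (Q) ≤ (i + h) := by clear * - b4 v6 y7; omega
          have kk191 : (i + h) ≤ (j + j3 + 1) := by clear * - v6; omega
          have kk192 : (j + j3) ≤ (i + h + de) := by clear * - b3 y12; omega
          have kk193 : (j3 + ph) ≤ (Q) := by clear * - v7; omega
          have r194 : (2 * n + j + j3 - h) % 2 = 0 := by clear * - ev n1p n4p n5p; omega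
          have r195 : (ph) % 2 = 0 := by clear * - ev n1p n4p n5p; omega
          clear * - al a1 u2 AL0 kk186 kk187 kk188 kk189 kk190 kk191 kk192 kk193 r194 r195
          exact midP al (ph) (2 * n + j + j3 - h) (n + i - ph + 1) (n + i - ph + 1) (n + de + ph) (by omega) (fun t h1 h2 => (cE (cE (ab u2 al 1 t ((n + i + j3) - t) (by omega)) (pb a1 al 0 ((n + i + j3) - t) ((n + j + j3 - h) - t) (by omega))) (sh al 1 ((n + j + j3 - h) - t) ((2 * n + j + j3 - h) - t) (by omega)))) (fun t h1 h2 => (cE (qf AL0 al 1 t (t + (ph - n)) (by omega)) (sh al 1 (t + (ph - n)) (t + (ph)) (by omega))))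
        · have kk196 : (1) ≤ (ph) := by clear * - v7 z19; omega
          have kk197 : (2 * j3 + ph + 2) ≤ (2 * Q) := by clear * - z19; omega
          have kk198 : (4 * i + 2 * h + 2) ≤ (2 * Q + 2 * j + ph) := by clear * - b0 v6 z19; omega
          have kk199 : (2 * i + 2 * j3 + 2) ≤ (2 * Q + 2 * de + ph) := by clear * - b6 b7 v7 z19; omega
          have kk200 : (Q) ≤ (i + h) := by clear * - b4 v6 y7; omega
          have kk201 : (i + h) ≤ (j + j3 + 1) := by clear * - v6; omega
          have kk202 : (j + j3) ≤ (i + h + de) := by clear * - b3 y12; omega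
          have kk203 : (Q) ≤ (j3 + ph) := by clear * - v7; omega
          have r204 : (2 * n + j + j3 - h) % 2 = 0 := by clear * - ev n1p n4p n5p; omega
          have r205 : (ph) % 2 = 0 := by clear * - ev n1p n4p n5p; omega
          clear * - al a1 u2 AL0 kk196 kk197 kk198 kk199 kk200 kk201 kk202 kk203 r204 r205
          exact midP al (ph) (2 * n + j + j3 - h) (n + i + j3 - Q + 1) (n + i - ph + 1) (n + de + ph) (by omega) (fun t h1 h2 => (cE (cE (ab u2 al 1 t ((n + i + j3) - t) (by omega)) (pb a1 al 0 ((n + i + j3) - t) ((n + j + j3 - h) - t) (by omega))) (sh al 1 ((n + j + j3 - h) - t) ((2 * n + j + j3 - h) - t) (by omega)))) (fun t h1 h2 => (cE (qf AL0 al 1 t (t + (ph - n)) (by omega)) (sh al 1 (t + (ph - n)) (t + (ph)) (by omega))))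
      · by_cases v8 : (j3 + ph) ≤ (Q)
        · have kk206 : (1) ≤ (ph) := by clear * - v6 z18; omega
          have kk207 : (2 * i + 2 * h) ≤ (2 * j + 2 * j3 + ph) := by clear * - z18; omega
          have kk208 : (4 * i + 2 * h + 2) ≤ (2 * j + 2 * j3 + 3 * ph) := by clear * - b0 z18; omega
          have kk209 : (2 * i + 2) ≤ (2 * de + 3 * ph) := by clear * - b5 b6 b7 v8; omega
          have kk210 : (Q) ≤ (i + h) := by clear * - y6 y7; omega
          have kk211 : (j + j3 + 1) ≤ (i + h) := by clear * - v6; omega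
          have kk212 : (j + j3) ≤ (i + h + de) := by clear * - b3 y12; omega
          have kk213 : (j3 + ph) ≤ (Q) := by clear * - v8; omega
          have r214 : (2 * n + j + j3 - h) % 2 = 0 := by clear * - ev n1p n4p n5p; omega
          have r215 : (ph) % 2 = 0 := by clear * - ev n1p n4p n5p; omega
          clear * - al a1 u2 AL0 kk206 kk207 kk208 kk209 kk210 kk211 kk212 kk213 r214 r215
          exact midP al (ph) (2 * n + j + j3 - h) (n + i - ph + 1) (n + i - ph + 1) (n + de + ph) (by omega) (fun t h1 h2 => (cE (cE (ab u2 al 1 t ((n + i + j3) - t) (by omega)) (pb a1 al 0 ((n + i + j3) - t) ((n + j + j3 - h) - t) (by omega))) (sh al 1 ((n + j + j3 - h) - t) ((2 * n + j + j3 - h) - t) (by omega)))) (fun t h1 h2 => (cE (qf AL0 al 1 t (t + (ph - n)) (by omega)) (sh al 1 (t + (ph - n)) (t + (ph)) (by omega))))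
        · have kk216 : (1) ≤ (ph) := by clear * - v8 z19; omega
          have kk217 : (2 * i + 2 * h + ph) ≤ (2 * Q + 2 * j) := by clear * - b9; omega
          have kk218 : (4 * i + 2 * h + 2) ≤ (2 * Q + 2 * j + ph) := by clear * - b0 b9; omega
          have kk219 : (2 * i + 2 * j3 + 2) ≤ (2 * Q + 2 * de + ph) := by clear * - b6 b7 v8 z19; omega
          have kk220 : (Q) ≤ (i + h) := by clear * - y6 y7; omega
          have kk221 : (j + j3 + 1) ≤ (i + h) := by clear * - v6; omega
          have kk222 : (j + j3) ≤ (i + h + de) := by clear * - b3 y12; omega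
          have kk223 : (Q) ≤ (j3 + ph) := by clear * - v8; omega
          have r224 : (2 * n + j + j3 - h) % 2 = 0 := by clear * - ev n1p n4p n5p; omega
          have r225 : (ph) % 2 = 0 := by clear * - ev n1p n4p n5p; omega
          clear * - al a1 u2 AL0 kk216 kk217 kk218 kk219 kk220 kk221 kk222 kk223 r224 r225
          exact midP al (ph) (2 * n + j + j3 - h) (n + i + j3 - Q + 1) (n + i - ph + 1) (n + de + ph) (by omega) (fun t h1 h2 => (cE (cE (ab u2 al 1 t ((n + i + j3) - t) (by omega)) (pb a1 al 0 ((n + i + j3) - t) ((n + j + j3 - h) - t) (by omega))) (sh al 1 ((n + j + j3 - h) - t) ((2 * n + j + j3 - h) - t) (by omega)))) (fun t h1 h2 => (cE (qf AL0 al 1 t (t + (ph - n)) (by omega)) (sh al 1 (t + (ph - n)) (t + (ph)) (by omega))))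
    · have kk226 : (j3 + ph + 2) ≤ (i + h) := by clear * - b4 b6 y0 y12 y14 z19; omega
      have kk227 : (2 * Q + j3) ≤ (i + h + 2 * de + ph + 1) := by clear * - y12 z19; omega
      have kk228 : (i) ≤ (de + ph) := by clear * - b6 b7 y14 z19; omega
      have kk229 : (i + de + 1) ≤ (Q + j3) := by clear * - b3 b4 b6 b7 y14 z18 z19; linarith
      have r230 : (i + h + 2 * de + ph - 2 * n - j3) % 2 = 0 := by clear * - ev n1p n4p n5p; omega
      clear * - al GG T2 kk226 kk227 kk228 kk229 r230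
      obtain ⟨t, ht⟩ : ∃ t, 2 * t = (i + h + 2 * de + ph - 2 * n - j3) := ⟨(i + h + 2 * de + ph - 2 * n - j3) / 2, by omega⟩
      exact al.ninv t (cE (cI (qf GG al (-1) t (t + (n + h)) (by omega)) (ab T2 al 0 (t + (n + h)) ((i + h + 2 * de + ph - n - j3) - t) (by omega))) (sh al (-1) ((i + h + 2 * de + ph - n - j3) - t) t (by omega)))
  · by_cases z20 : (2 * de + 2 * ph + 2) ≤ (j + j3)
    · by_cases z21 : (3 * j3 + 2) ≤ (i + 2 * j)
      · by_cases z22 : (2 * de + 2) ≤ (i + j3)
        · by_cases z23 : (j3 + ph + 2) ≤ (j)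
          · have kk231 : (j3 + ph + 2) ≤ (j) := by clear * - z23; omega
            have kk232 : (j3 + 1) ≤ (j + ph) := by clear * - b5 b7 z23; omega
            have kk233 : (i) ≤ (de + ph) := by clear * - b5 b6 b7 z23; omega
            have kk234 : (j) ≤ (Q) := by clear * - b7; omega
            have kk235 : (0) ≤ (j3 + 1) := by clear * - b3 b5 b9 z23; omega
            have kk236 : (j) ≤ (h + j3) := by clear * - b5 b6 b7 b8 z18 z22; omega
            have r237 : (2 * i + j3 - j - ph) % 2 = 0 := by clear * - ev n1p n4p n5p; omega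
            clear * - al a1 u2 AL1 kk231 kk232 kk233 kk234 kk235 kk236 r237
            obtain ⟨t, ht⟩ : ∃ t, 2 * t = (2 * i + j3 - j - ph) := ⟨(2 * i + j3 - j - ph) / 2, by omega⟩
            exact al.ninv t (cE (cE (ab u2 al 0 t ((i + j3) - t) (by omega)) (qf a1 al 0 ((i + j3) - t) ((2 * i + h + j3 - j) - t) (by omega))) (pb AL1 al 0 ((2 * i + h + j3 - j) - t) t (by omega)))
          · by_cases v9 : (2 * j3) ≤ (j + de)
            · have kk238 : (1) ≤ (ph) := by clear * - b5 b7 v9 z20; omega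
              have kk239 : (2 * de + ph + 2) ≤ (2 * j3) := by clear * - b6 z22 z23; omega
              have kk240 : (2 * j + 2 * de + 2) ≤ (4 * j3 + ph) := by clear * - z20 z23 ev n1p n4p n5p; omega
              have kk241 : (2) ≤ (ph) := by clear * - b5 b7 v9 z20; omega
              have kk242 : (j3) ≤ (j + de + 1) := by clear * - b6 b8 v9 z18 z22 z23; omega
              have kk243 : (2 * j3) ≤ (j + de) := by clear * - v9; omega
              have kk244 : (j) ≤ (Q) := by clear * - b9 z18 z23; omega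
              have kk245 : (i) ≤ (de + ph) := by clear * - b5 b6 b7 v9 z22; omega
              have kk246 : (i + 2 * j3) ≤ (j + 2 * de + ph) := by clear * - b5 b6 b7 v9 z22; omega
              have r247 : (i + 2 * j3 - 2 * n - j) % 2 = 0 := by clear * - ev n1p n4p n5p; omega
              have r248 : (ph) % 2 = 0 := by clear * - ev n1p n4p n5p; omega
              clear * - al a1 u2 AL0 BE kk238 kk239 kk240 kk241 kk242 kk243 kk244 kk245 kk246 r247 r248
              exact midP al (ph) (i + 2 * j3 - 2 * n - j) (de - n + 1) (i - n - ph + 1) (de + ph - n) (by omega) (fun t h1 h2 => (cE (cI (cE (qf BE al (-1) t (t + (n + i + h - j3)) (by omega)) (pb a1 al 0 (t + (n + i + h - j3)) (t + (n + j - j3)) (by omega))) (qa u2 al 0 (t + (n + j - j3)) ((i + 2 * j3 - n - j) - t) (by omega))) (sh al (-1) ((i + 2 * j3 - n - j) - t) ((i + 2 * j3 - 2 * n - j) - t) (by omega)))) (fun t h1 h2 => (cE (qf AL0 al (-1) t (t + (n + ph)) (by omega)) (sh al (-1) (t + (n + ph)) (t + (ph)) (by omega))))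
            · have kk249 : (1) ≤ (ph) := by clear * - b6 v9 z21 z23; omega
              have kk250 : (2 * j3 + ph + 2) ≤ (2 * j) := by clear * - b6 v9 z21 z23; omega
              have kk251 : (2) ≤ (ph) := by clear * - b6 v9 z21 z23; omega
              have kk252 : (4 * j3 + 2) ≤ (2 * j + 2 * de + ph) := by clear * - b6 z21 z23 ev n1p n4p n5p; omega
              have kk253 : (j + de) ≤ (2 * j3) := by clear * - v9; omega
              have kk254 : (0) ≤ (j3 + 1) := by clear * - b6 b8 v9 z18 z21 z23; omega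
              have kk255 : (j) ≤ (Q) := by clear * - b9 z18 z23; omega
              have kk256 : (i + j) ≤ (2 * j3 + ph) := by clear * - b6 v9 z21 z23; omega
              have kk257 : (i) ≤ (de + ph) := by clear * - b6 v9 z21 z23; omega
              have r258 : (i + 2 * j3 - 2 * n - j) % 2 = 0 := by clear * - ev n1p n4p n5p; omega
              have r259 : (ph) % 2 = 0 := by clear * - ev n1p n4p n5p; omega
              clear * - al a1 u2 AL0 BE kk249 kk250 kk251 kk252 kk253 kk254 kk255 kk256 kk257 r258 r259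
              exact midP al (ph) (i + 2 * j3 - 2 * n - j) (2 * j3 - n - j + 1) (i - n - ph + 1) (de + ph - n) (by omega) (fun t h1 h2 => (cE (cI (cE (qf BE al (-1) t (t + (n + i + h - j3)) (by omega)) (pb a1 al 0 (t + (n + i + h - j3)) (t + (n + j - j3)) (by omega))) (qa u2 al 0 (t + (n + j - j3)) ((i + 2 * j3 - n - j) - t) (by omega))) (sh al (-1) ((i + 2 * j3 - n - j) - t) ((i + 2 * j3 - 2 * n - j) - t) (by omega)))) (fun t h1 h2 => (cE (qf AL0 al (-1) t (t + (n + ph)) (by omega)) (sh al (-1) (t + (n + ph)) (t + (ph)) (by omega))))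
        · by_cases v10 : (de + ph) ≤ (j3)
          · by_cases v11 : (Q + j) ≤ (i + h + de + 1)
            · have kk260 : (j3 + 1) ≤ (j) := by clear * - b5 b7 v10 z21 z22; omega
              have kk261 : (j3 + 2) ≤ (j) := by clear * - b5 b7 v10 z21 z22; omega
              have kk262 : (j3 + 2) ≤ (j + 2 * ph) := by clear * - b5 b7 v10 z21 z22; omega
              have kk263 : (2 * de + 2) ≤ (j + j3) := by clear * - b5 b7 v10 z21 z22; omega
              have kk264 : (i + h) ≤ (Q + j) := by clear * - b5 b7 b9 v10 z21 z22; omega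
              have kk265 : (i + de + 1) ≤ (Q + j3) := by clear * - b5 b7 v10 z21 z22; omega
              have kk266 : (de) ≤ (j3) := by clear * - b5 b7 v10 z21 z22; omega
              have kk267 : (i) ≤ (de + ph) := by clear * - b5 b7 v10 z21 z22; omega
              have kk268 : (j3) ≤ (j + de + 1) := by clear * - b5 b7 b9 v10 v11 z21 z22; linarith
              have kk269 : (de + ph) ≤ (j3) := by clear * - v10; omega
              have kk270 : (Q + j) ≤ (i + h + de + 1) := by clear * - v11; omega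
              have r271 : (j + 2 * de + ph - 2 * n - j3) % 2 = 0 := by clear * - ev n1p n4p n5p; omega
              have r272 : (j - j3) % 2 = 0 := by clear * - ev n1p n4p n5p; omega
              clear * - al a1 GG BE T2 kk260 kk261 kk262 kk263 kk264 kk265 kk266 kk267 kk268 kk269 kk270 r271 r272
              exact midP al (j - j3) (j + 2 * de + ph - 2 * n - j3) (de - n + 1) (de - n + 1) (j - n) (by omega) (fun t h1 h2 => (cE (cE (cI (qf a1 al (-1) t (t + (n + i + h - j)) (by omega)) (qa T2 al 0 (t + (n + i + h - j)) ((j + h + 2 * de + ph - n - j3) - t) (by omega))) (pb GG al 0 ((j + h + 2 * de + ph - n - j3) - t) ((j + 2 * de + ph - n - j3) - t) (by omega))) (sh al (-1) ((j + 2 * de + ph - n - j3) - t) ((j + 2 * de + ph - 2 * n - j3) - t) (by omega)))) (fun t h1 h2 => (cE (cE (qf BE al (-1) t (t + (n + i + h - j3)) (by omega)) (pb a1 al 0 (t + (n + i + h - j3)) (t + (n + j - j3)) (by omega))) (sh al (-1) (t + (n + j - j3)) (t + (j - j3)) (by omega))))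
            · have kk273 : (j3 + 1) ≤ (j) := by clear * - b5 b8 v10 v11 z18 z22; omega
              have kk274 : (2 * Q + j + j3) ≤ (2 * i + 2 * h + 2 * de) := by clear * - b5 b7 v10 v11 y0 z18 z22; linarith
              have kk275 : (2 * Q + j + j3) ≤ (2 * i + 2 * h + 2 * de + 2 * ph) := by clear * - b5 b7 b8 v10 v11 z18 z22; linarith
              have kk276 : (2 * Q + j) ≤ (2 * i + 2 * h + j3) := by clear * - b5 b7 b8 v10 v11 z18 z22; linarith
              have kk277 : (i + h) ≤ (Q + j) := by clear * - b5 b7 b9 v10 z21 z22; omega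
              have kk278 : (i + de + 1) ≤ (Q + j3) := by clear * - b5 b7 v10 z21 z22; omega
              have kk279 : (de) ≤ (j3) := by clear * - b5 b7 v10 z21 z22; omega
              have kk280 : (i) ≤ (de + ph) := by clear * - b5 b7 v10 z21 z22; omega
              have kk281 : (j3) ≤ (j + de + 1) := by clear * - b5 b7 b8 v10 v11 z18 z22; linarith
              have kk282 : (i + h + de + 1) ≤ (Q + j) := by clear * - v11; omega
              have kk283 : (i + h + 2 * de + ph + 1) ≤ (Q + j + j3) := by clear * - v10 v11; omega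
              have r284 : (j + 2 * de + ph - 2 * n - j3) % 2 = 0 := by clear * - ev n1p n4p n5p; omega
              have r285 : (j - j3) % 2 = 0 := by clear * - ev n1p n4p n5p; omega
              clear * - al a1 GG BE T2 kk273 kk274 kk275 kk276 kk277 kk278 kk279 kk280 kk281 kk282 kk283 r284 r285
              exact midP al (j - j3) (j + 2 * de + ph - 2 * n - j3) (Q + j - n - i - h) (de - n + 1) (j - n) (by omega) (fun t h1 h2 => (cE (cE (cI (qf a1 al (-1) t (t + (n + i + h - j)) (by omega)) (qa T2 al 0 (t + (n + i + h - j)) ((j + h + 2 * de + ph - n - j3) - t) (by omega))) (pb GG al 0 ((j + h + 2 * de + ph - n - j3) - t) ((j + 2 * de + ph - n - j3) - t) (by omega))) (sh al (-1) ((j + 2 * de + ph - n - j3) - t) ((j + 2 * de + ph - 2 * n - j3) - t) (by omega)))) (fun t h1 h2 => (cE (cE (qf BE al (-1) t (t + (n + i + h - j3)) (by omega)) (pb a1 al 0 (t + (n + i + h - j3)) (t + (n + j - j3)) (by omega))) (sh al (-1) (t + (n + j - j3)) (t + (j - j3)) (by omega))))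
          · by_cases v12 : (Q + j + j3) ≤ (i + h + 2 * de + ph + 1)
            · have kk286 : (j3 + 1) ≤ (j) := by clear * - v10 z20; omega
              have kk287 : (2 * de + 2 * ph + 2) ≤ (j + j3) := by clear * - z20; omega
              have kk288 : (2 * de + 2) ≤ (j + j3) := by clear * - b5 b7 v10 z20; omega
              have kk289 : (4 * de + 2 * ph + 2) ≤ (j + 3 * j3) := by clear * - b5 b7 z20; omega
              have kk290 : (i + h) ≤ (Q + j) := by clear * - b5 b7 b9 v10 z20; omega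
              have kk291 : (i + de + 1) ≤ (Q + j3) := by clear * - b5 b7 v10 z20 z22; omega
              have kk292 : (de) ≤ (j3) := by clear * - b5 b7 z20; omega
              have kk293 : (i) ≤ (de + ph) := by clear * - b5 b7 v10 z20 z22; omega
              have kk294 : (j3) ≤ (j + de + 1) := by clear * - b7 b8 v10 v12 z20 z22; omega
              have kk295 : (j3) ≤ (de + ph) := by clear * - v10; omega
              have kk296 : (Q + j + j3) ≤ (i + h + 2 * de + ph + 1) := by clear * - v12; omega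
              have r297 : (j + 2 * de + ph - 2 * n - j3) % 2 = 0 := by clear * - ev n1p n4p n5p; omega
              have r298 : (j - j3) % 2 = 0 := by clear * - ev n1p n4p n5p; omega
              clear * - al a1 GG BE T2 kk286 kk287 kk288 kk289 kk290 kk291 kk292 kk293 kk294 kk295 kk296 r297 r298
              exact midP al (j - j3) (j + 2 * de + ph - 2 * n - j3) (2 * de + ph - n - j3 + 1) (de - n + 1) (j - n) (by omega) (fun t h1 h2 => (cE (cE (cI (qf a1 al (-1) t (t + (n + i + h - j)) (by omega)) (qa T2 al 0 (t + (n + i + h - j)) ((j + h + 2 * de + ph - n - j3) - t) (by omega))) (pb GG al 0 ((j + h + 2 * de + ph - n - j3) - t) ((j + 2 * de + ph - n - j3) - t) (by omega))) (sh al (-1) ((j + 2 * de + ph - n - j3) - t) ((j + 2 * de + ph - 2 * n - j3) - t) (by omega)))) (fun t h1 h2 => (cE (cE (qf BE al (-1) t (t + (n + i + h - j3)) (by omega)) (pb a1 al 0 (t + (n + i + h - j3)) (t + (n + j - j3)) (by omega))) (sh al (-1) (t + (n + j - j3)) (t + (j - j3)) (by omega))))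
            · have kk299 : (j3 + 1) ≤ (j) := by clear * - v10 z20; omega
              have kk300 : (2 * Q + j + j3) ≤ (2 * i + 2 * h + 2 * de) := by clear * - b2 b5 y0 z18 z22 ev n1p n4p n5p; omega
              have kk301 : (2 * Q + j + j3) ≤ (2 * i + 2 * h + 2 * de + 2 * ph) := by clear * - b5 b7 b8 z18 z20 z22; omega
              have kk302 : (2 * Q + j) ≤ (2 * i + 2 * h + j3) := by clear * - b3 b5 b8 z18 z20 z22; omega
              have kk303 : (i + h) ≤ (Q + j) := by clear * - b7 b8 v10 v12 z20 z22; omega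
              have kk304 : (i + de + 1) ≤ (Q + j3) := by clear * - b5 b7 v10 z20 z22; omega
              have kk305 : (de) ≤ (j3) := by clear * - b5 b7 z20; omega
              have kk306 : (i) ≤ (de + ph) := by clear * - b5 b7 v10 z20 z22; omega
              have kk307 : (j3) ≤ (j + de + 1) := by clear * - b5 b7 b8 v12 z18 z20 z22; linarith
              have kk308 : (j3) ≤ (de + ph) := by clear * - v10; omega
              have kk309 : (i + h + 2 * de + ph + 1) ≤ (Q + j + j3) := by clear * - v12; omega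
              have r310 : (j + 2 * de + ph - 2 * n - j3) % 2 = 0 := by clear * - ev n1p n4p n5p; omega
              have r311 : (j - j3) % 2 = 0 := by clear * - ev n1p n4p n5p; omega
              clear * - al a1 GG BE T2 kk299 kk300 kk301 kk302 kk303 kk304 kk305 kk306 kk307 kk308 kk309 r310 r311
              exact midP al (j - j3) (j + 2 * de + ph - 2 * n - j3) (Q + j - n - i - h) (de - n + 1) (j - n) (by omega) (fun t h1 h2 => (cE (cE (cI (qf a1 al (-1) t (t + (n + i + h - j)) (by omega)) (qa T2 al 0 (t + (n + i + h - j)) ((j + h + 2 * de + ph - n - j3) - t) (by omega))) (pb GG al 0 ((j + h + 2 * de + ph - n - j3) - t) ((j + 2 * de + ph - n - j3) - t) (by omega))) (sh al (-1) ((j + 2 * de + ph - n - j3) - t) ((j + 2 * de + ph - 2 * n - j3) - t) (by omega)))) (fun t h1 h2 => (cE (cE (qf BE al (-1) t (t + (n + i + h - j3)) (by omega)) (pb a1 al 0 (t + (n + i + h - j3)) (t + (n + j - j3)) (by omega))) (sh al (-1) (t + (n + j - j3)) (t + (j - j3)) (by omega))))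
      · by_cases z24 : (j3 + ph + 2) ≤ (j)
        · have kk312 : (j3 + ph + 2) ≤ (j) := by clear * - z24; omega
          have kk313 : (j3 + 1) ≤ (j + ph) := by clear * - b5 b7 z24; omega
          have kk314 : (i) ≤ (de + ph) := by clear * - b5 b6 b7 z24; omega
          have kk315 : (j) ≤ (Q) := by clear * - b7; omega
          have kk316 : (0) ≤ (j3 + 1) := by clear * - b5 b8 b9 z18 z21 z24; omega
          have kk317 : (j) ≤ (h + j3) := by clear * - b5 b7 b8 z18 z21 z24; omega
          have r318 : (2 * i + j3 - j - ph) % 2 = 0 := by clear * - ev n1p n4p n5p; omega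
          clear * - al a1 u2 AL1 kk312 kk313 kk314 kk315 kk316 kk317 r318
          obtain ⟨t, ht⟩ : ∃ t, 2 * t = (2 * i + j3 - j - ph) := ⟨(2 * i + j3 - j - ph) / 2, by omega⟩
          exact al.ninv t (cE (cE (ab u2 al 0 t ((i + j3) - t) (by omega)) (qf a1 al 0 ((i + j3) - t) ((2 * i + h + j3 - j) - t) (by omega))) (pb AL1 al 0 ((2 * i + h + j3 - j) - t) t (by omega)))
        · by_cases v13 : (de + ph) ≤ (j3)
          · by_cases v14 : (Q + j) ≤ (i + h + de + 1)
            · have kk319 : (j3 + 1) ≤ (j) := by clear * - y14; omega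
              have kk320 : (j3 + 2) ≤ (j) := by clear * - b5 b9 z18 ev n1p n4p n5p; omega
              have kk321 : (j3 + 2) ≤ (j + 2 * ph) := by clear * - b5 b7 b9 z18; omega
              have kk322 : (2 * de + 2) ≤ (j + j3) := by clear * - b5 b7 b9 v13 z18; omega
              have kk323 : (i + h) ≤ (Q + j) := by clear * - b5 b9 z18 z24; omega
              have kk324 : (i + de + 1) ≤ (Q + j3) := by clear * - b5 b7 b9 v13 z18 z21; omega
              have kk325 : (de) ≤ (j3) := by clear * - b5 b9 z18 z20 z24; omega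
              have kk326 : (i) ≤ (de + ph) := by clear * - b5 b6 b7 b9 z18; omega
              have kk327 : (j3) ≤ (j + de + 1) := by clear * - b5 b9 v14 z18 z24; omega
              have kk328 : (de + ph) ≤ (j3) := by clear * - v13; omega
              have kk329 : (Q + j) ≤ (i + h + de + 1) := by clear * - v14; omega
              have r330 : (j + 2 * de + ph - 2 * n - j3) % 2 = 0 := by clear * - ev n1p n4p n5p; omega
              have r331 : (j - j3) % 2 = 0 := by clear * - ev n1p n4p n5p; omega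
              clear * - al a1 GG BE T2 kk319 kk320 kk321 kk322 kk323 kk324 kk325 kk326 kk327 kk328 kk329 r330 r331
              exact midP al (j - j3) (j + 2 * de + ph - 2 * n - j3) (de - n + 1) (de - n + 1) (j - n) (by omega) (fun t h1 h2 => (cE (cE (cI (qf a1 al (-1) t (t + (n + i + h - j)) (by omega)) (qa T2 al 0 (t + (n + i + h - j)) ((j + h + 2 * de + ph - n - j3) - t) (by omega))) (pb GG al 0 ((j + h + 2 * de + ph - n - j3) - t) ((j + 2 * de + ph - n - j3) - t) (by omega))) (sh al (-1) ((j + 2 * de + ph - n - j3) - t) ((j + 2 * de + ph - 2 * n - j3) - t) (by omega)))) (fun t h1 h2 => (cE (cE (qf BE al (-1) t (t + (n + i + h - j3)) (by omega)) (pb a1 al 0 (t + (n + i + h - j3)) (t + (n + j - j3)) (by omega))) (sh al (-1) (t + (n + j - j3)) (t + (j - j3)) (by omega))))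
            · have kk332 : (j3 + 1) ≤ (j) := by clear * - b5 b6 b8 v14 z18; omega
              have kk333 : (2 * Q + j + j3) ≤ (2 * i + 2 * h + 2 * de) := by clear * - b5 b6 y0 z18 z24 ev n1p n4p n5p; omega
              have kk334 : (2 * Q + j + j3) ≤ (2 * i + 2 * h + 2 * de + 2 * ph) := by clear * - b5 b6 b8 v14 z18 z24; omega
              have kk335 : (2 * Q + j) ≤ (2 * i + 2 * h + j3) := by clear * - b5 b6 b8 v13 v14 z18 z24; linarith
              have kk336 : (i + h) ≤ (Q + j) := by clear * - b6 b8 v14 z18 z24; omega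
              have kk337 : (i + de + 1) ≤ (Q + j3) := by clear * - b5 b8 b9 v14 z18 z21; omega
              have kk338 : (de) ≤ (j3) := by clear * - b5 b9 z18 z20 z24; omega
              have kk339 : (i) ≤ (de + ph) := by clear * - b5 b6 b8 v14 z18 z24; omega
              have kk340 : (j3) ≤ (j + de + 1) := by clear * - b5 b6 b8 v14 z18 z24; omega
              have kk341 : (i + h + de + 1) ≤ (Q + j) := by clear * - v14; omega
              have kk342 : (i + h + 2 * de + ph + 1) ≤ (Q + j + j3) := by clear * - v13 v14; omega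
              have r343 : (j + 2 * de + ph - 2 * n - j3) % 2 = 0 := by clear * - ev n1p n4p n5p; omega
              have r344 : (j - j3) % 2 = 0 := by clear * - ev n1p n4p n5p; omega
              clear * - al a1 GG BE T2 kk332 kk333 kk334 kk335 kk336 kk337 kk338 kk339 kk340 kk341 kk342 r343 r344
              exact midP al (j - j3) (j + 2 * de + ph - 2 * n - j3) (Q + j - n - i - h) (de - n + 1) (j - n) (by omega) (fun t h1 h2 => (cE (cE (cI (qf a1 al (-1) t (t + (n + i + h - j)) (by omega)) (qa T2 al 0 (t + (n + i + h - j)) ((j + h + 2 * de + ph - n - j3) - t) (by omega))) (pb GG al 0 ((j + h + 2 * de + ph - n - j3) - t) ((j + 2 * de + ph - n - j3) - t) (by omega))) (sh al (-1) ((j + 2 * de + ph - n - j3) - t) ((j + 2 * de + ph - 2 * n - j3) - t) (by omega)))) (fun t h1 h2 => (cE (cE (qf BE al (-1) t (t + (n + i + h - j3)) (by omega)) (pb a1 al 0 (t + (n + i + h - j3)) (t + (n + j - j3)) (by omega))) (sh al (-1) (t + (n + j - j3)) (t + (j - j3)) (by omega))))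
          · by_cases v15 : (Q + j + j3) ≤ (i + h + 2 * de + ph + 1)
            · have kk345 : (j3 + 1) ≤ (j) := by clear * - v13 z20; omega
              have kk346 : (2 * de + 2 * ph + 2) ≤ (j + j3) := by clear * - z20; omega
              have kk347 : (2 * de + 2) ≤ (j + j3) := by clear * - v13 z20 z24; omega
              have kk348 : (4 * de + 2 * ph + 2) ≤ (j + 3 * j3) := by clear * - v13 z20 z24; omega
              have kk349 : (i + h) ≤ (Q + j) := by clear * - b9 v13 z20 z24; omega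
              have kk350 : (i + de + 1) ≤ (Q + j3) := by clear * - b9 v13 z18 z20 z21 z24; omega
              have kk351 : (de) ≤ (j3) := by clear * - v13 z20 z24; omega
              have kk352 : (i) ≤ (de + ph) := by clear * - v13 z20 z21; omega
              have kk353 : (j3) ≤ (j + de + 1) := by clear * - b9 v13 v15 z20 z24; omega
              have kk354 : (j3) ≤ (de + ph) := by clear * - v13; omega
              have kk355 : (Q + j + j3) ≤ (i + h + 2 * de + ph + 1) := by clear * - v15; omega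
              have r356 : (j + 2 * de + ph - 2 * n - j3) % 2 = 0 := by clear * - ev n1p n4p n5p; omega
              have r357 : (j - j3) % 2 = 0 := by clear * - ev n1p n4p n5p; omega
              clear * - al a1 GG BE T2 kk345 kk346 kk347 kk348 kk349 kk350 kk351 kk352 kk353 kk354 kk355 r356 r357
              exact midP al (j - j3) (j + 2 * de + ph - 2 * n - j3) (2 * de + ph - n - j3 + 1) (de - n + 1) (j - n) (by omega) (fun t h1 h2 => (cE (cE (cI (qf a1 al (-1) t (t + (n + i + h - j)) (by omega)) (qa T2 al 0 (t + (n + i + h - j)) ((j + h + 2 * de + ph - n - j3) - t) (by omega))) (pb GG al 0 ((j + h + 2 * de + ph - n - j3) - t) ((j + 2 * de + ph - n - j3) - t) (by omega))) (sh al (-1) ((j + 2 * de + ph - n - j3) - t) ((j + 2 * de + ph - 2 * n - j3) - t) (by omega)))) (fun t h1 h2 => (cE (cE (qf BE al (-1) t (t + (n + i + h - j3)) (by omega)) (pb a1 al 0 (t + (n + i + h - j3)) (t + (n + j - j3)) (by omega))) (sh al (-1) (t + (n + j - j3)) (t + (j - j3)) (by omega))))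
            · have kk358 : (j3 + 1) ≤ (j) := by clear * - v13 z20; omega
              have kk359 : (2 * Q + j + j3) ≤ (2 * i + 2 * h + 2 * de) := by clear * - b5 b6 v13 v15 y0 z18 z21; linarith
              have kk360 : (2 * Q + j + j3) ≤ (2 * i + 2 * h + 2 * de + 2 * ph) := by clear * - b5 b6 b8 v13 v15 z18 z24; linarith
              have kk361 : (2 * Q + j) ≤ (2 * i + 2 * h + j3) := by clear * - b5 b6 b8 v13 v15 z18 z21; linarith
              have kk362 : (i + h) ≤ (Q + j) := by clear * - b9 v13 z20 z24; omega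
              have kk363 : (i + de + 1) ≤ (Q + j3) := by clear * - b9 v13 z18 z20 z21 z24; omega
              have kk364 : (de) ≤ (j3) := by clear * - v13 z20 z24; omega
              have kk365 : (i) ≤ (de + ph) := by clear * - v13 z20 z21; omega
              have kk366 : (j3) ≤ (j + de + 1) := by clear * - b6 b8 v13 z18 z20 z24; omega
              have kk367 : (j3) ≤ (de + ph) := by clear * - v13; omega
              have kk368 : (i + h + 2 * de + ph + 1) ≤ (Q + j + j3) := by clear * - v15; omega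
              have r369 : (j + 2 * de + ph - 2 * n - j3) % 2 = 0 := by clear * - ev n1p n4p n5p; omega
              have r370 : (j - j3) % 2 = 0 := by clear * - ev n1p n4p n5p; omega
              clear * - al a1 GG BE T2 kk358 kk359 kk360 kk361 kk362 kk363 kk364 kk365 kk366 kk367 kk368 r369 r370
              exact midP al (j - j3) (j + 2 * de + ph - 2 * n - j3) (Q + j - n - i - h) (de - n + 1) (j - n) (by omega) (fun t h1 h2 => (cE (cE (cI (qf a1 al (-1) t (t + (n + i + h - j)) (by omega)) (qa T2 al 0 (t + (n + i + h - j)) ((j + h + 2 * de + ph - n - j3) - t) (by omega))) (pb GG al 0 ((j + h + 2 * de + ph - n - j3) - t) ((j + 2 * de + ph - n - j3) - t) (by omega))) (sh al (-1) ((j + 2 * de + ph - n - j3) - t) ((j + 2 * de + ph - 2 * n - j3) - t) (by omega)))) (fun t h1 h2 => (cE (cE (qf BE al (-1) t (t + (n + i + h - j3)) (by omega)) (pb a1 al 0 (t + (n + i + h - j3)) (t + (n + j - j3)) (by omega))) (sh al (-1) (t + (n + j - j3)) (t + (j - j3)) (by omega))))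
    · by_cases z25 : (2 * j + ph + 2) ≤ (2 * Q)
      · by_cases v16 : (i + h) ≤ (2 * j + 1)
        · have kk371 : (1) ≤ (ph) := by clear * - b5 v16 z18 z25; omega
          have kk372 : (2 * j + ph + 2) ≤ (2 * Q) := by clear * - z25; omega
          have kk373 : (4 * i + 2 * h + 2) ≤ (2 * Q + 2 * j + ph) := by clear * - b4 b5 b6 v16 z18 z20 z25; linarith
          have kk374 : (2 * i + 2 * j + 2) ≤ (2 * Q + 2 * de + ph) := by clear * - b5 b6 v16 z18 z25; omega
          have kk375 : (Q) ≤ (i + h) := by clear * - b2 b5 b8 v16 z18 z25; omega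
          have kk376 : (i + h) ≤ (2 * j + 1) := by clear * - v16; omega
          have kk377 : (2 * j) ≤ (i + h + de) := by clear * - b5 b6 y0 z18 z25; omega
          have kk378 : (Q) ≤ (j + ph) := by clear * - b5 v16 z18 z25; omega
          have r379 : (2 * j - h) % 2 = 0 := by clear * - ev n1p n4p n5p; omega
          have r380 : (ph) % 2 = 0 := by clear * - ev n1p n4p n5p; omega
          clear * - al a1 s2 AL0 kk371 kk372 kk373 kk374 kk375 kk376 kk377 kk378 r379 r380
          exact midP al (ph) (2 * j - h) (i + j - Q + 1) (i - ph + 1) (de + ph) (by omega) (fun t h1 h2 => (cE (ab s2 al 0 t ((i + j) - t) (by omega)) (pb a1 al 0 ((i + j) - t) ((2 * j - h) - t) (by omega)))) (fun t h1 h2 => (qf AL0 al 0 t (t + (ph)) (by omega)))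
        · have kk381 : (1) ≤ (ph) := by clear * - b5 b9 v16 z18; omega
          have kk382 : (2 * i + 2 * h + ph) ≤ (2 * Q + 2 * j) := by clear * - b9; omega
          have kk383 : (4 * i + 2 * h + 2) ≤ (2 * Q + 2 * j + ph) := by clear * - b4 b5 b6 b9 z18 z20; omega
          have kk384 : (2 * i + 2 * j + 2) ≤ (2 * Q + 2 * de + ph) := by clear * - b5 b6 b9 v16 z18; omega
          have kk385 : (Q) ≤ (i + h) := by clear * - b2 b5 b8 b9 z18; omega
          have kk386 : (2 * j + 1) ≤ (i + h) := by clear * - v16; omega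
          have kk387 : (2 * j) ≤ (i + h + de) := by clear * - b5 b6 b8 v16 z18 z25; omega
          have kk388 : (Q) ≤ (j + ph) := by clear * - b5 b9 z18; omega
          have r389 : (2 * j - h) % 2 = 0 := by clear * - ev n1p n4p n5p; omega
          have r390 : (ph) % 2 = 0 := by clear * - ev n1p n4p n5p; omega
          clear * - al a1 s2 AL0 kk381 kk382 kk383 kk384 kk385 kk386 kk387 kk388 r389 r390
          exact midP al (ph) (2 * j - h) (i + j - Q + 1) (i - ph + 1) (de + ph) (by omega) (fun t h1 h2 => (cE (ab s2 al 0 t ((i + j) - t) (by omega)) (pb a1 al 0 ((i + j) - t) ((2 * j - h) - t) (by omega)))) (fun t h1 h2 => (qf AL0 al 0 t (t + (ph)) (by omega)))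
      · by_cases v17 : (de + ph) ≤ (j)
        · by_cases v18 : (j) ≤ (j3 + ph)
          · by_cases v19 : (i + h) ≤ (j + de + ph + 1)
            · have kk391 : (1) ≤ (ph) := by clear * - b7 z25; omega
              have kk392 : (2 * Q + 2 * j3 + ph) ≤ (2 * i + 2 * h + 2 * de) := by clear * - b6 v18 y0 z18 z25 ev n1p n4p n5p; omega
              have kk393 : (2 * j3 + ph) ≤ (2 * j + 2 * de) := by clear * - b6 b8 b9 v18 z18 z25; omega
              have kk394 : (2 * j + ph + 2) ≤ (2 * i + 2 * h) := by clear * - b3 b9 z18 z25; omega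
              have kk395 : (i) ≤ (de + ph) := by clear * - b6 b9 v18 z18 z25; omega
              have kk396 : (i + de + 1) ≤ (Q + j3) := by clear * - b6 b7 v17 v18 z25; omega
              have kk397 : (0) ≤ (ph) := by clear * - b9 v18 z18 z25; omega
              have kk398 : (i + 1) ≤ (ph) := by clear * - b4 b6 v17 v18 z20 z25; omega
              have kk399 : (de + ph) ≤ (j) := by clear * - v17; omega
              have kk400 : (j) ≤ (j3 + ph) := by clear * - v18; omega
              have kk401 : (i + h) ≤ (j + de + ph + 1) := by clear * - v19; omega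
              have r402 : (i + h + 2 * de + ph - 2 * n - j3) % 2 = 0 := by clear * - ev n1p n4p n5p; omega
              have r403 : (ph) % 2 = 0 := by clear * - ev n1p n4p n5p; omega
              clear * - al a1 GG AL0 T2 kk391 kk392 kk393 kk394 kk395 kk396 kk397 kk398 kk399 kk400 kk401 r402 r403
              exact midP al (ph) (i + h + 2 * de + ph - 2 * n - j3) (de + ph - n + 1) (i + h - n - j) (i + h + de + ph - n - j) (by omega) (fun t h1 h2 => (cE (cI (qf GG al (-1) t (t + (n + h)) (by omega)) (ab T2 al 0 (t + (n + h)) ((i + h + 2 * de + ph - n - j3) - t) (by omega))) (sh al (-1) ((i + h + 2 * de + ph - n - j3) - t) ((i + h + 2 * de + ph - 2 * n - j3) - t) (by omega)))) (fun t h1 h2 => (cE (cE (cE (pb a1 al (-1) t (t + (n + j - i - h)) (by omega)) (qf AL0 al 0 (t + (n + j - i - h)) (t + (n + j + ph - i - h)) (by omega))) (qf a1 al 0 (t + (n + j + ph - i - h)) (t + (n + ph)) (by omega))) (sh al (-1) (t + (n + ph)) (t + (ph)) (by omega))))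
            · have kk404 : (1) ≤ (ph) := by clear * - b9 v18 v19 z20 z25; omega
              have kk405 : (2 * Q + 2 * j3) ≤ (2 * j + 4 * de + ph + 2) := by clear * - b6 y0 z20 z25 ev n1p n4p n5p; omega
              have kk406 : (2 * i + 2 * h + 2 * j3) ≤ (4 * j + 4 * de + ph + 2) := by clear * - b6 b8 b9 z18 z20 z25; omega
              have kk407 : (0) ≤ (2 * de + ph) := by clear * - b6 b8 v17 v18 v19 z20; omega
              have kk408 : (i) ≤ (de + ph) := by clear * - b6 b9 v18 v19 z20 z25; omega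
              have kk409 : (i + de + 1) ≤ (Q + j3) := by clear * - b6 b9 v18 v19 z20 z25; omega
              have kk410 : (0) ≤ (ph) := by clear * - b9 v18 v19 z20 z25; omega
              have kk411 : (i + 1) ≤ (ph) := by clear * - b4 b6 v17 v18 z20 z25; omega
              have kk412 : (de + ph) ≤ (j) := by clear * - v17; omega
              have kk413 : (j + de + ph + 1) ≤ (i + h) := by clear * - v19; omega
              have kk414 : (2 * j + de + 1) ≤ (i + h + j3) := by clear * - v18 v19; omega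
              have r415 : (i + h + 2 * de + ph - 2 * n - j3) % 2 = 0 := by clear * - ev n1p n4p n5p; omega
              have r416 : (ph) % 2 = 0 := by clear * - ev n1p n4p n5p; omega
              clear * - al a1 GG AL0 T2 kk404 kk405 kk406 kk407 kk408 kk409 kk410 kk411 kk412 kk413 kk414 r415 r416
              exact midP al (ph) (i + h + 2 * de + ph - 2 * n - j3) (i + h - n - j) (i + h - n - j) (i + h + de + ph - n - j) (by omega) (fun t h1 h2 => (cE (cI (qf GG al (-1) t (t + (n + h)) (by omega)) (ab T2 al 0 (t + (n + h)) ((i + h + 2 * de + ph - n - j3) - t) (by omega))) (sh al (-1) ((i + h + 2 * de + ph - n - j3) - t) ((i + h + 2 * de + ph - 2 * n - j3) - t) (by omega)))) (fun t h1 h2 => (cE (cE (cE (pb a1 al (-1) t (t + (n + j - i - h)) (by omega)) (qf AL0 al 0 (t + (n + j - i - h)) (t + (n + j + ph - i - h)) (by omega))) (qf a1 al 0 (t + (n + j + ph - i - h)) (t + (n + ph)) (by omega))) (sh al (-1) (t + (n + ph)) (t + (ph)) (by omega))))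
          · by_cases v20 : (i + h + j3) ≤ (2 * j + de + 1)
            · have kk417 : (1) ≤ (ph) := by clear * - b7 z25; omega
              have kk418 : (2 * Q + 2 * j) ≤ (2 * i + 2 * h + 2 * de + ph) := by clear * - b2 b5 y0 z18 z20 ev n1p n4p n5p; omega
              have kk419 : (0) ≤ (2 * de + ph) := by clear * - b5 b6 b7 b8 z18; omega
              have kk420 : (4 * j + 2) ≤ (2 * i + 2 * h + 2 * j3 + ph) := by clear * - b3 b7 z25; omega
              have kk421 : (i) ≤ (de + ph) := by clear * - b5 b6 b7 v18; omega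
              have kk422 : (i + de + 1) ≤ (Q + j3) := by clear * - b5 b6 b7 v17; omega
              have kk423 : (0) ≤ (ph) := by clear * - b7 z25; omega
              have kk424 : (i + 1) ≤ (ph) := by clear * - b4 b6 b8 z18 z20 z25; omega
              have kk425 : (de + ph) ≤ (j) := by clear * - v17; omega
              have kk426 : (j3 + ph) ≤ (j) := by clear * - v18; omega
              have kk427 : (i + h + j3) ≤ (2 * j + de + 1) := by clear * - v20; omega
              have r428 : (i + h + 2 * de + ph - 2 * n - j3) % 2 = 0 := by clear * - ev n1p n4p n5p; omega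
              have r429 : (ph) % 2 = 0 := by clear * - ev n1p n4p n5p; omega
              clear * - al a1 GG AL0 T2 kk417 kk418 kk419 kk420 kk421 kk422 kk423 kk424 kk425 kk426 kk427 r428 r429
              exact midP al (ph) (i + h + 2 * de + ph - 2 * n - j3) (j + de - n - j3 + 1) (i + h - n - j) (i + h + de + ph - n - j) (by omega) (fun t h1 h2 => (cE (cI (qf GG al (-1) t (t + (n + h)) (by omega)) (ab T2 al 0 (t + (n + h)) ((i + h + 2 * de + ph - n - j3) - t) (by omega))) (sh al (-1) ((i + h + 2 * de + ph - n - j3) - t) ((i + h + 2 * de + ph - 2 * n - j3) - t) (by omega)))) (fun t h1 h2 => (cE (cE (cE (pb a1 al (-1) t (t + (n + j - i - h)) (by omega)) (qf AL0 al 0 (t + (n + j - i - h)) (t + (n + j + ph - i - h)) (by omega))) (qf a1 al 0 (t + (n + j + ph - i - h)) (t + (n + ph)) (by omega))) (sh al (-1) (t + (n + ph)) (t + (ph)) (by omega))))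
            · have kk430 : (1) ≤ (ph) := by clear * - b9 v18 v20 z20 z25; omega
              have kk431 : (2 * Q + 2 * j3) ≤ (2 * j + 4 * de + ph + 2) := by clear * - b5 b6 v18 y0 z20; omega
              have kk432 : (2 * i + 2 * h + 2 * j3) ≤ (4 * j + 4 * de + ph + 2) := by clear * - b6 b8 v17 v18 z20; omega
              have kk433 : (0) ≤ (2 * de + ph) := by clear * - b6 b8 v17 v18 v20 z20; omega
              have kk434 : (i) ≤ (de + ph) := by clear * - b6 b9 v18 v20 z20 z25; omega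
              have kk435 : (i + de + 1) ≤ (Q + j3) := by clear * - b6 b9 v18 v20 z20 z25; omega
              have kk436 : (0) ≤ (ph) := by clear * - b9 v18 v20 z20 z25; omega
              have kk437 : (i + 1) ≤ (ph) := by clear * - b4 b6 b9 v18 v20 z20 z25; linarith
              have kk438 : (de + ph) ≤ (j) := by clear * - v17; omega
              have kk439 : (j3 + ph) ≤ (j) := by clear * - v18; omega
              have kk440 : (2 * j + de + 1) ≤ (i + h + j3) := by clear * - v20; omega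
              have r441 : (i + h + 2 * de + ph - 2 * n - j3) % 2 = 0 := by clear * - ev n1p n4p n5p; omega
              have r442 : (ph) % 2 = 0 := by clear * - ev n1p n4p n5p; omega
              clear * - al a1 GG AL0 T2 kk430 kk431 kk432 kk433 kk434 kk435 kk436 kk437 kk438 kk439 kk440 r441 r442
              exact midP al (ph) (i + h + 2 * de + ph - 2 * n - j3) (i + h - n - j) (i + h - n - j) (i + h + de + ph - n - j) (by omega) (fun t h1 h2 => (cE (cI (qf GG al (-1) t (t + (n + h)) (by omega)) (ab T2 al 0 (t + (n + h)) ((i + h + 2 * de + ph - n - j3) - t) (by omega))) (sh al (-1) ((i + h + 2 * de + ph - n - j3) - t) ((i + h + 2 * de + ph - 2 * n - j3) - t) (by omega)))) (fun t h1 h2 => (cE (cE (cE (pb a1 al (-1) t (t + (n + j - i - h)) (by omega)) (qf AL0 al 0 (t + (n + j - i - h)) (t + (n + j + ph - i - h)) (by omega))) (qf a1 al 0 (t + (n + j + ph - i - h)) (t + (n + ph)) (by omega))) (sh al (-1) (t + (n + ph)) (t + (ph)) (by omega))))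
        · have kk443 : (1) ≤ (ph) := by clear * - b7 z25; omega
          have kk444 : (2 * Q + 2 * j3 + ph) ≤ (2 * i + 2 * h + 2 * de) := by clear * - b4 b6 v17 y0 z18 z25; omega
          have kk445 : (2 * j3 + ph) ≤ (2 * j + 2 * de) := by clear * - b6 b7 b8 b9 z18 z25; omega
          have kk446 : (2 * de + 3 * ph + 2) ≤ (2 * i + 2 * h) := by clear * - b2 b4 b8 b9 z18 z25; omega
          have kk447 : (i) ≤ (de + ph) := by clear * - b5 b6 b7 z25; omega
          have kk448 : (i + de + 1) ≤ (Q + j3) := by clear * - b4 b6 b8 v17 z18 z20 z25; linarith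
          have kk449 : (0) ≤ (ph) := by clear * - b7 z25; omega
          have kk450 : (i + 1) ≤ (ph) := by clear * - b4 b6 b8 z18 z20 z25; omega
          have kk451 : (j) ≤ (de + ph) := by clear * - v17; omega
          have kk452 : (de) ≤ (j3) := by clear * - b2 b4 b8 z18 z25; omega
          have kk453 : (i + h) ≤ (j + de + ph + 1) := by clear * - b9 v17 z25; omega
          have r454 : (i + h + 2 * de + ph - 2 * n - j3) % 2 = 0 := by clear * - ev n1p n4p n5p; omega
          have r455 : (ph) % 2 = 0 := by clear * - ev n1p n4p n5p; omega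
          clear * - al a1 GG AL0 T2 kk443 kk444 kk445 kk446 kk447 kk448 kk449 kk450 kk451 kk452 kk453 r454 r455
          exact midP al (ph) (i + h + 2 * de + ph - 2 * n - j3) (de + ph - n + 1) (i + h - n - j) (i + h - n) (by omega) (fun t h1 h2 => (cE (cI (qf GG al (-1) t (t + (n + h)) (by omega)) (ab T2 al 0 (t + (n + h)) ((i + h + 2 * de + ph - n - j3) - t) (by omega))) (sh al (-1) ((i + h + 2 * de + ph - n - j3) - t) ((i + h + 2 * de + ph - 2 * n - j3) - t) (by omega)))) (fun t h1 h2 => (cE (cE (cE (pb a1 al (-1) t (t + (n + j - i - h)) (by omega)) (qf AL0 al 0 (t + (n + j - i - h)) (t + (n + j + ph - i - h)) (by omega))) (qf a1 al 0 (t + (n + j + ph - i - h)) (t + (n + ph)) (by omega))) (sh al (-1) (t + (n + ph)) (t + (ph)) (by omega))))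

theorem rz2_13 {W : ℤ → G} {n Q i j h de j3 ph : ℤ} (al : AL W n Q)
    (hy : (0) ≤ (i) ∧ (i) ≤ (j) ∧ (j + 1) ≤ (Q) ∧ (i) ≤ (j3) ∧ (j3 + 1) ≤ (Q) ∧ (0) ≤ (de) ∧ (de + 1) ≤ (j3) ∧ (Q + j3) ≤ (i + h + de) ∧ (j + 1) ≤ (h) ∧ (0) ≤ (ph) ∧ (ph + 1) ≤ (h) ∧ (3 * h + j3 + 2 * ph) ≤ (n + i) ∧ (3 * j3 + 1) ≤ (i + h + 2 * de) ∧ (i + 1) ≤ (de) ∧ (j3 + 1) ≤ (j))
    (a1 : Par W (0) (j) (i + h - j))
    (a2 : Par W (Q + j - i - h) (j) (i + h - j))
    (s1 : Ant W (0) (i) (i + j))
    (s2 : Ant W (j + 1) (Q) (i + j))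
    (u1 : Ant W (0) (i) (i + j3))
    (u2 : Ant W (j3 + 1) (Q) (i + j3))
    (GG : Par W (i + 1) (h + de + ph) (h))
    (AL0 : Par W (i - ph + 1) (de) (ph))
    (AL1 : Par W (i - h - ph + 1) (de) (h + ph))
    (BE : Par W (de + 1) (j3) (i + h - j3))
    (T2 : Ant W (Q) (i + h + de - j3) (i + 2 * h + 2 * de + ph - j3))
    (n1 : Nd W (j) (i) (i + h))
    (n4 : Nd W (h + de + ph) (i + h + de - j3) (de))
    (n5 : Nd W (j3) (i) (i + h))
    (b0 : (i + 1) ≤ (ph))
    (b1 : (i + ph) ≤ (j3 + 1))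
    (b2 : (j + 2 * de + 3) ≤ (Q + j3))
    (b3 : (2 * Q) ≤ (j + j3 + 2 * ph + 1))
    (b4 : (2 * i + j3 + 2 * ph) ≤ (j + 2 * de + 1))
    (b5 : (j + 2) ≤ (Q))
    (b6 : (h) ≤ (j + j3 + ph))
    (b7 : (2 * Q + 2 * j + 1) ≤ (2 * i + 2 * h + ph)) : False := by
  have ev := al.ev
  obtain ⟨y0, y1, y2, y3, y4, y5, y6, y7, y8, y9, y10, y11, y12, y13, y14⟩ := id hy
  have n1p := And.intro n1.p1 n1.p2
  have n4p := And.intro n4.p1 n4.p2
  have n5p := And.intro n5.p1 n5.p2
  by_cases z26 : (j + 2 * de) ≤ (i + 2 * j3)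
  · by_cases v21 : (Q + j + j3) ≤ (i + h + 2 * de + ph + 1)
    · have kk456 : (j3 + 1) ≤ (j) := by clear * - y14; omega
      have kk457 : (j3 + 2) ≤ (j) := by clear * - y14 ev n1p n4p n5p; omega
      have kk458 : (j3 + 2) ≤ (j + 2 * ph) := by clear * - b3 b5 y14; omega
      have kk459 : (2 * de + 2) ≤ (j + j3) := by clear * - b3 b4 b5 y14 z26; omega
      have kk460 : (0) ≤ (de + 1) := by clear * - b4 b5 b6 v21 y14 z26; omega
      have kk461 : (j3) ≤ (j) := by clear * - y14; omega
      have kk462 : (j) ≤ (h + de + ph) := by clear * - b3 b4 b5 v21 y14 z26; omega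
      have kk463 : (Q + j + j3) ≤ (i + h + 2 * de + ph + 1) := by clear * - v21; omega
      have kk464 : (i) ≤ (de + ph) := by clear * - b3 b4 b5 y14; omega
      have kk465 : (0) ≤ (de + ph + 1) := by clear * - b3 b4 b5 b6 v21 y14 z26; linarith
      have kk466 : (de + ph) ≤ (j3) := by clear * - b4 y14 z26; omega
      have r467 : (2 * i + 2 * h + 2 * de + ph - j - j3) % 2 = 0 := by clear * - ev n1p n4p n5p; omega
      have r468 : (j - j3) % 2 = 0 := by clear * - ev n1p n4p n5p; omega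
      clear * - al a1 GG BE T2 kk456 kk457 kk458 kk459 kk460 kk461 kk462 kk463 kk464 kk465 kk466 r467 r468
      exact midP al (j - j3) (2 * i + 2 * h + 2 * de + ph - j - j3) (i + h + de - j + 1) (i + h + de - j + 1) (i + h) (by omega) (fun t h1 h2 => (cE (cE (qa T2 al 0 t ((i + 2 * h + 2 * de + ph - j3) - t) (by omega)) (pb GG al 0 ((i + 2 * h + 2 * de + ph - j3) - t) ((i + h + 2 * de + ph - j3) - t) (by omega))) (qf a1 al 0 ((i + h + 2 * de + ph - j3) - t) ((2 * i + 2 * h + 2 * de + ph - j - j3) - t) (by omega)))) (fun t h1 h2 => (qf (show Par W (i + h + de - j + 1) (i + h + j3 - j) (j - j3) from fun t h1 h2 => (cE (sh al (-1) t (t + (-n)) (by omega)) (cE (pb a1 al (-1) (t + (-n)) (t + (j - i - h)) (by omega)) (qf BE al 0 (t + (j - i - h)) (t + (j - j3)) (by omega))))) al 0 t (t + (j - j3)) (by omega)))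
    · by_cases v22 : (Q + j) ≤ (i + h + de + 1)
      · have kk469 : (j3 + 1) ≤ (j) := by clear * - y14; omega
        have kk470 : (j3 + 2) ≤ (j) := by clear * - b3 v21 y12; omega
        have kk471 : (j3 + 2) ≤ (j + 2 * ph) := by clear * - b3 b5 y14; omega
        have kk472 : (2 * de + 2) ≤ (j + j3) := by clear * - b4 b5 b6 b7 v21 y14; omega
        have kk473 : (0) ≤ (de + 1) := by clear * - b4 b5 b6 v22 y14; omega
        have kk474 : (j3) ≤ (j) := by clear * - y14; omega
        have kk475 : (j) ≤ (h + de + ph) := by clear * - b3 b4 b5 v21 v22 y14; omega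
        have kk476 : (i + h + 2 * de + ph + 1) ≤ (Q + j + j3) := by clear * - v21; omega
        have kk477 : (i) ≤ (de + ph) := by clear * - b3 b4 b5 y14; omega
        have kk478 : (0) ≤ (de + ph + 1) := by clear * - b3 b4 b5 b6 v22 y14; omega
        have kk479 : (de + ph) ≤ (j3) := by clear * - v21 v22; omega
        have kk480 : (Q + j) ≤ (i + h + de + 1) := by clear * - v22; omega
        have r481 : (2 * i + 2 * h + 2 * de + ph - j - j3) % 2 = 0 := by clear * - ev n1p n4p n5p; omega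
        have r482 : (j - j3) % 2 = 0 := by clear * - ev n1p n4p n5p; omega
        clear * - al a1 GG BE T2 kk469 kk470 kk471 kk472 kk473 kk474 kk475 kk476 kk477 kk478 kk479 kk480 r481 r482
        exact midP al (j - j3) (2 * i + 2 * h + 2 * de + ph - j - j3) (i + h + de - j + 1) (i + h + de - j + 1) (i + h) (by omega) (fun t h1 h2 => (cE (cE (qa T2 al 0 t ((i + 2 * h + 2 * de + ph - j3) - t) (by omega)) (pb GG al 0 ((i + 2 * h + 2 * de + ph - j3) - t) ((i + h + 2 * de + ph - j3) - t) (by omega))) (qf a1 al 0 ((i + h + 2 * de + ph - j3) - t) ((2 * i + 2 * h + 2 * de + ph - j - j3) - t) (by omega)))) (fun t h1 h2 => (qf (show Par W (i + h + de - j + 1) (i + h + j3 - j) (j - j3) from fun t h1 h2 => (cE (sh al (-1) t (t + (-n)) (by omega)) (cE (pb a1 al (-1) (t + (-n)) (t + (j - i - h)) (by omega)) (qf BE al 0 (t + (j - i - h)) (t + (j - j3)) (by omega))))) al 0 t (t + (j - j3)) (by omega)))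
      · have kk483 : (j3 + 1) ≤ (j) := by clear * - y14; omega
        have kk484 : (2 * Q + j + j3) ≤ (2 * i + 2 * h + 2 * de) := by clear * - b4 b6 b7 y12 z26; omega
        have kk485 : (2 * Q + j + j3) ≤ (2 * i + 2 * h + 2 * de + 2 * ph) := by clear * - b4 b5 b6 b7 y14; omega
        have kk486 : (2 * Q + j) ≤ (2 * i + 2 * h + j3) := by clear * - b4 b5 b6 b7 y14 z26; omega
        have kk487 : (0) ≤ (de + 1) := by clear * - b4 b5 b6 b7 y12 z26; omega
        have kk488 : (j3) ≤ (j) := by clear * - y14; omega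
        have kk489 : (j) ≤ (h + de + ph) := by clear * - b4 b5 b6 b7 v21 v22 y14; linarith
        have kk490 : (i + h + 2 * de + ph + 1) ≤ (Q + j + j3) := by clear * - v21; omega
        have kk491 : (i) ≤ (de + ph) := by clear * - b4 b5 b6 b7 v22 y14; omega
        have kk492 : (0) ≤ (de + ph + 1) := by clear * - b4 b5 b6 b7 v22 y14; omega
        have kk493 : (i + h + de + 1) ≤ (Q + j) := by clear * - v22; omega
        have r494 : (2 * i + 2 * h + 2 * de + ph - j - j3) % 2 = 0 := by clear * - ev n1p n4p n5p; omega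
        have r495 : (j - j3) % 2 = 0 := by clear * - ev n1p n4p n5p; omega
        clear * - al a1 GG BE T2 kk483 kk484 kk485 kk486 kk487 kk488 kk489 kk490 kk491 kk492 kk493 r494 r495
        exact midP al (j - j3) (2 * i + 2 * h + 2 * de + ph - j - j3) (Q) (i + h + de - j + 1) (i + h) (by omega) (fun t h1 h2 => (cE (cE (qa T2 al 0 t ((i + 2 * h + 2 * de + ph - j3) - t) (by omega)) (pb GG al 0 ((i + 2 * h + 2 * de + ph - j3) - t) ((i + h + 2 * de + ph - j3) - t) (by omega))) (qf a1 al 0 ((i + h + 2 * de + ph - j3) - t) ((2 * i + 2 * h + 2 * de + ph - j - j3) - t) (by omega)))) (fun t h1 h2 => (qf (show Par W (i + h + de - j + 1) (i + h + j3 - j) (j - j3) from fun t h1 h2 => (cE (sh al (-1) t (t + (-n)) (by omega)) (cE (pb a1 al (-1) (t + (-n)) (t + (j - i - h)) (by omega)) (qf BE al 0 (t + (j - i - h)) (t + (j - j3)) (by omega))))) al 0 t (t + (j - j3)) (by omega)))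
  · by_cases z27 : (2 * Q + j3) ≤ (i + h + 2 * de + ph + 1)
    · have kk496 : (j3 + ph + 2) ≤ (i + h) := by clear * - b2 b4 y0 y14 z27; omega
      have kk497 : (2 * Q + j3) ≤ (i + h + 2 * de + ph + 1) := by clear * - z27; omega
      have kk498 : (i) ≤ (de + ph) := by clear * - b2 b3 b4 b5 b6 z26 z27; linarith
      have kk499 : (i + de + 1) ≤ (Q + j3) := by clear * - b2 b4 b5 b6 b7 y14; omega
      have r500 : (i + h + 2 * de + ph - 2 * n - j3) % 2 = 0 := by clear * - ev n1p n4p n5p; omega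
      clear * - al GG T2 kk496 kk497 kk498 kk499 r500
      obtain ⟨t, ht⟩ : ∃ t, 2 * t = (i + h + 2 * de + ph - 2 * n - j3) := ⟨(i + h + 2 * de + ph - 2 * n - j3) / 2, by omega⟩
      exact al.ninv t (cE (cI (qf GG al (-1) t (t + (n + h)) (by omega)) (ab T2 al 0 (t + (n + h)) ((i + h + 2 * de + ph - n - j3) - t) (by omega))) (sh al (-1) ((i + h + 2 * de + ph - n - j3) - t) t (by omega)))
    · by_cases z28 : (2 * Q + 3 * j3) ≤ (i + 2 * j + h + 2 * de)
      · by_cases v23 : (j) ≤ (j3 + ph)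
        · by_cases v24 : (j + de) ≤ (2 * j3)
          · have kk501 : (2 * j + 1) ≤ (i + h + j3) := by clear * - b5 v24 z28; omega
            have kk502 : (2 * Q + 3 * j3) ≤ (i + 2 * j + h + 2 * de) := by clear * - z28; omega
            have kk503 : (j3 + 2) ≤ (i + h) := by clear * - b5 v23 v24 z27 z28; omega
            have kk504 : (2 * de + 2 * ph + 2) ≤ (i + h + j3) := by clear * - b5 v24 z27 z28; omega
            have kk505 : (i) ≤ (de + ph) := by clear * - v23 v24 z26 z27 z28; omega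
            have kk506 : (i + de + 1) ≤ (Q + j3) := by clear * - b5 v23 v24 z26 z27 z28; omega
            have kk507 : (j3) ≤ (j) := by clear * - v23 z27 z28; omega
            have kk508 : (0) ≤ (de + 1) := by clear * - y5; omega
            have kk509 : (j) ≤ (j3 + ph) := by clear * - v23; omega
            have kk510 : (j + de) ≤ (2 * j3) := by clear * - v24; omega
            have r511 : (i + h + 2 * de + ph - 2 * n - j3) % 2 = 0 := by clear * - ev n1p n4p n5p; omega
            have r512 : (i + h + j3 - 2 * j) % 2 = 0 := by clear * - ev n1p n4p n5p; omega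
            clear * - al a1 GG BE T2 kk501 kk502 kk503 kk504 kk505 kk506 kk507 kk508 kk509 kk510 r511 r512
            exact midP al (i + h + j3 - 2 * j) (i + h + 2 * de + ph - 2 * n - j3) (de + ph - n + 1) (j + de - n - j3 + 1) (i + h + j3 - n - j) (by omega) (fun t h1 h2 => (cE (cI (qf GG al (-1) t (t + (n + h)) (by omega)) (ab T2 al 0 (t + (n + h)) ((i + h + 2 * de + ph - n - j3) - t) (by omega))) (sh al (-1) ((i + h + 2 * de + ph - n - j3) - t) ((i + h + 2 * de + ph - 2 * n - j3) - t) (by omega)))) (fun t h1 h2 => (cE (cE (cE (qf a1 al (-1) t (t + (n + i + h - j)) (by omega)) (pb BE al 0 (t + (n + i + h - j)) (t + (n + j3 - j)) (by omega))) (qf a1 al 0 (t + (n + j3 - j)) (t + (n + i + h + j3 - 2 * j)) (by omega))) (sh al (-1) (t + (n + i + h + j3 - 2 * j)) (t + (i + h + j3 - 2 * j)) (by omega))))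
          · have kk513 : (2 * j + 1) ≤ (i + h + j3) := by clear * - b7 y5 z27; omega
            have kk514 : (2 * Q) ≤ (i + h + j3) := by clear * - b3 b4 b7 y0 z27; omega
            have kk515 : (2 * j + 2 * de + 2) ≤ (i + h + 3 * j3) := by clear * - b4 b5 b6 b7 z27 z28; omega
            have kk516 : (2 * j + 4 * de + 2 * ph + 2) ≤ (i + h + 5 * j3) := by clear * - b4 b6 b7 v24 y0 z27; omega
            have kk517 : (i) ≤ (de + ph) := by clear * - b4 v23 z27 z28; omega
            have kk518 : (i + de + 1) ≤ (Q + j3) := by clear * - b4 b5 b6 b7 v23 v24 z27; linarith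
            have kk519 : (j3) ≤ (j) := by clear * - v23 z27 z28; omega
            have kk520 : (0) ≤ (de + 1) := by clear * - y5; omega
            have kk521 : (2 * j3) ≤ (j + de) := by clear * - v24; omega
            have kk522 : (j3) ≤ (de + ph) := by clear * - v23 v24; omega
            have r523 : (i + h + 2 * de + ph - 2 * n - j3) % 2 = 0 := by clear * - ev n1p n4p n5p; omega
            have r524 : (i + h + j3 - 2 * j) % 2 = 0 := by clear * - ev n1p n4p n5p; omega
            clear * - al a1 GG BE T2 kk513 kk514 kk515 kk516 kk517 kk518 kk519 kk520 kk521 kk522 r523 r524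
            exact midP al (i + h + j3 - 2 * j) (i + h + 2 * de + ph - 2 * n - j3) (j + 2 * de + ph - n - 2 * j3 + 1) (j + de - n - j3 + 1) (i + h + j3 - n - j) (by omega) (fun t h1 h2 => (cE (cI (qf GG al (-1) t (t + (n + h)) (by omega)) (ab T2 al 0 (t + (n + h)) ((i + h + 2 * de + ph - n - j3) - t) (by omega))) (sh al (-1) ((i + h + 2 * de + ph - n - j3) - t) ((i + h + 2 * de + ph - 2 * n - j3) - t) (by omega)))) (fun t h1 h2 => (cE (cE (cE (qf a1 al (-1) t (t + (n + i + h - j)) (by omega)) (pb BE al 0 (t + (n + i + h - j)) (t + (n + j3 - j)) (by omega))) (qf a1 al 0 (t + (n + j3 - j)) (t + (n + i + h + j3 - 2 * j)) (by omega))) (sh al (-1) (t + (n + i + h + j3 - 2 * j)) (t + (i + h + j3 - 2 * j)) (by omega))))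
        · by_cases v25 : (de + ph) ≤ (j3)
          · have kk525 : (2 * j + 1) ≤ (i + h + j3) := by clear * - b5 b6 b7 v25 z26; omega
            have kk526 : (2 * Q + j3) ≤ (i + h + 2 * de + 2 * ph) := by clear * - b6 b7 z26; omega
            have kk527 : (2 * j + 2) ≤ (i + h + j3 + 2 * ph) := by clear * - b5 b6 b7 v25 z26 z27; omega
            have kk528 : (2 * j + 2 * de + 2) ≤ (i + h + 3 * j3) := by clear * - b5 b6 b7 v25 z26 z27; omega
            have kk529 : (i) ≤ (de + ph) := by clear * - b3 b5 v25 z26; omega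
            have kk530 : (i + de + 1) ≤ (Q + j3) := by clear * - b5 b6 b7 v25 z26 z27; omega
            have kk531 : (j3) ≤ (j) := by clear * - b6 b7 v23 z26 z27; omega
            have kk532 : (0) ≤ (de + 1) := by clear * - b4 b5 b6 b7 v23; omega
            have kk533 : (j3 + ph) ≤ (j) := by clear * - v23; omega
            have kk534 : (de + ph) ≤ (j3) := by clear * - v25; omega
            have r535 : (i + h + 2 * de + ph - 2 * n - j3) % 2 = 0 := by clear * - ev n1p n4p n5p; omega
            have r536 : (i + h + j3 - 2 * j) % 2 = 0 := by clear * - ev n1p n4p n5p; omega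
            clear * - al a1 GG BE T2 kk525 kk526 kk527 kk528 kk529 kk530 kk531 kk532 kk533 kk534 r535 r536
            exact midP al (i + h + j3 - 2 * j) (i + h + 2 * de + ph - 2 * n - j3) (j + de - n - j3 + 1) (j + de - n - j3 + 1) (i + h + j3 - n - j) (by omega) (fun t h1 h2 => (cE (cI (qf GG al (-1) t (t + (n + h)) (by omega)) (ab T2 al 0 (t + (n + h)) ((i + h + 2 * de + ph - n - j3) - t) (by omega))) (sh al (-1) ((i + h + 2 * de + ph - n - j3) - t) ((i + h + 2 * de + ph - 2 * n - j3) - t) (by omega)))) (fun t h1 h2 => (cE (cE (cE (qf a1 al (-1) t (t + (n + i + h - j)) (by omega)) (pb BE al 0 (t + (n + i + h - j)) (t + (n + j3 - j)) (by omega))) (qf a1 al 0 (t + (n + j3 - j)) (t + (n + i + h + j3 - 2 * j)) (by omega))) (sh al (-1) (t + (n + i + h + j3 - 2 * j)) (t + (i + h + j3 - 2 * j)) (by omega))))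
          · have kk537 : (2 * j + 1) ≤ (i + h + j3) := by clear * - b4 b5 b6 b7 v23 z27; omega
            have kk538 : (2 * Q) ≤ (i + h + j3) := by clear * - b4 b6 b7 v23 z27; omega
            have kk539 : (2 * j + 2 * de + 2) ≤ (i + h + 3 * j3) := by clear * - b4 b5 b6 b7 v23 v25 z27; linarith
            have kk540 : (2 * j + 4 * de + 2 * ph + 2) ≤ (i + h + 5 * j3) := by clear * - b4 b5 b6 b7 v23 z27; omega
            have kk541 : (i) ≤ (de + ph) := by clear * - b4 b6 b7 v23 v25 z27; omega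
            have kk542 : (i + de + 1) ≤ (Q + j3) := by clear * - b4 b5 b6 b7 v23 v25 z27; linarith
            have kk543 : (j3) ≤ (j) := by clear * - b6 b7 v23 z26 z27; omega
            have kk544 : (0) ≤ (de + 1) := by clear * - b4 b5 b6 b7 v23; omega
            have kk545 : (j3 + ph) ≤ (j) := by clear * - v23; omega
            have kk546 : (j3) ≤ (de + ph) := by clear * - v25; omega
            have r547 : (i + h + 2 * de + ph - 2 * n - j3) % 2 = 0 := by clear * - ev n1p n4p n5p; omega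
            have r548 : (i + h + j3 - 2 * j) % 2 = 0 := by clear * - ev n1p n4p n5p; omega
            clear * - al a1 GG BE T2 kk537 kk538 kk539 kk540 kk541 kk542 kk543 kk544 kk545 kk546 r547 r548
            exact midP al (i + h + j3 - 2 * j) (i + h + 2 * de + ph - 2 * n - j3) (j + 2 * de + ph - n - 2 * j3 + 1) (j + de - n - j3 + 1) (i + h + j3 - n - j) (by omega) (fun t h1 h2 => (cE (cI (qf GG al (-1) t (t + (n + h)) (by omega)) (ab T2 al 0 (t + (n + h)) ((i + h + 2 * de + ph - n - j3) - t) (by omega))) (sh al (-1) ((i + h + 2 * de + ph - n - j3) - t) ((i + h + 2 * de + ph - 2 * n - j3) - t) (by omega)))) (fun t h1 h2 => (cE (cE (cE (qf a1 al (-1) t (t + (n + i + h - j)) (by omega)) (pb BE al 0 (t + (n + i + h - j)) (t + (n + j3 - j)) (by omega))) (qf a1 al 0 (t + (n + j3 - j)) (t + (n + i + h + j3 - 2 * j)) (by omega))) (sh al (-1) (t + (n + i + h + j3 - 2 * j)) (t + (i + h + j3 - 2 * j)) (by omega))))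
      · by_cases z29 : (2 * i + h + 1) ≤ (j + j3 + ph)
        · by_cases v26 : (j3 + ph) ≤ (Q)
          · have kk549 : (2 * i + h + 2) ≤ (j + j3 + ph) := by clear * - z29 ev n1p n4p n5p; omega
            have kk550 : (j + j3 + 1) ≤ (2 * i + h + ph) := by clear * - b6 b7 v26 z29; omega
            have kk551 : (0) ≤ (i + 1) := by clear * - y0; omega
            have kk552 : (j3 + ph) ≤ (Q) := by clear * - v26; omega
            have kk553 : (i + ph) ≤ (j) := by clear * - b3 b4 b6 b7 v26 z27; omega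
            have kk554 : (i) ≤ (de) := by clear * - b4 b6 b7 v26 z26 z28 z29; linarith
            have r555 : (2 * n + 2 * i + h + j3 + ph - j) % 2 = 0 := by clear * - ev n1p n4p n5p; omega
            clear * - al a1 u2 AL0 kk549 kk550 kk551 kk552 kk553 kk554 r555
            obtain ⟨t, ht⟩ : ∃ t, 2 * t = (2 * n + 2 * i + h + j3 + ph - j) := ⟨(2 * n + 2 * i + h + j3 + ph - j) / 2, by omega⟩
            exact al.ninv t (cE (cI (cE (pb a1 al 1 t (t + (j - n - i - h)) (by omega)) (pb AL0 al 0 (t + (j - n - i - h)) (t + (j - n - i - h - ph)) (by omega))) (ab u2 al 0 (t + (j - n - i - h - ph)) ((n + 2 * i + h + j3 + ph - j) - t) (by omega))) (sh al 1 ((n + 2 * i + h + j3 + ph - j) - t) t (by omega)))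
          · have kk556 : (2 * i + h + j3 + ph + 2) ≤ (2 * Q + j) := by clear * - z26 z27; omega
            have kk557 : (j + j3 + 1) ≤ (2 * i + h + ph) := by clear * - b6 b7 y12 z27; omega
            have kk558 : (0) ≤ (i + 1) := by clear * - y0; omega
            have kk559 : (Q) ≤ (j3 + ph) := by clear * - v26; omega
            have kk560 : (i + ph) ≤ (j) := by clear * - b4 b6 b7 y14 z27; omega
            have kk561 : (i) ≤ (de) := by clear * - b4 b6 b7 z26 z27 z28; omega
            have r562 : (2 * n + 2 * i + h + j3 + ph - j) % 2 = 0 := by clear * - ev n1p n4p n5p; omega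
            clear * - al a1 u2 AL0 kk556 kk557 kk558 kk559 kk560 kk561 r562
            obtain ⟨t, ht⟩ : ∃ t, 2 * t = (2 * n + 2 * i + h + j3 + ph - j) := ⟨(2 * n + 2 * i + h + j3 + ph - j) / 2, by omega⟩
            exact al.ninv t (cE (cI (cE (pb a1 al 1 t (t + (j - n - i - h)) (by omega)) (pb AL0 al 0 (t + (j - n - i - h)) (t + (j - n - i - h - ph)) (by omega))) (ab u2 al 0 (t + (j - n - i - h - ph)) ((n + 2 * i + h + j3 + ph - j) - t) (by omega))) (sh al 1 ((n + 2 * i + h + j3 + ph - j) - t) t (by omega)))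
        · have kk563 : (j3 + 1) ≤ (j) := by clear * - b3 z26 z27 z29; omega
          have kk564 : (2 * Q + j + j3) ≤ (2 * i + 2 * h + 2 * de) := by clear * - b4 b6 b7 z26 z27 z29; omega
          have kk565 : (j3 + 2) ≤ (j) := by clear * - b3 z26 z27 z29; omega
          have kk566 : (2 * de + 2 * ph + 2) ≤ (j + j3) := by clear * - b3 b4 z27 z29 ev n1p n4p n5p; omega
          have kk567 : (j3) ≤ (j + de + 1) := by clear * - b3 b4 b6 z26 z27 z28 z29; linarith
          have kk568 : (de) ≤ (j3) := by clear * - b3 b4 z26 z27 z28 z29; omega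
          have kk569 : (i) ≤ (de + ph) := by clear * - b4 b6 b7 z26 z27 z28; omega
          have kk570 : (i + de + 1) ≤ (Q + j3) := by clear * - b3 b4 z26 z27 z28 z29; omega
          have kk571 : (0) ≤ (ph) := by clear * - b6 b7 z26 z27; omega
          have r572 : (j + 2 * de + ph - 2 * n - j3) % 2 = 0 := by clear * - ev n1p n4p n5p; omega
          have r573 : (j - j3) % 2 = 0 := by clear * - ev n1p n4p n5p; omega
          clear * - al a1 a2 GG BE T2 kk563 kk564 kk565 kk566 kk567 kk568 kk569 kk570 kk571 r572 r573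
          exact midP al (j - j3) (j + 2 * de + ph - 2 * n - j3) (de + ph - n + 1) (de - n + 1) (j - n) (by omega) (fun t h1 h2 => (cE (cE (cI (qf GG al (-1) t (t + (n + h)) (by omega)) (ab T2 al 0 (t + (n + h)) ((i + h + 2 * de + ph - n - j3) - t) (by omega))) (pb a2 al 0 ((i + h + 2 * de + ph - n - j3) - t) ((j + 2 * de + ph - n - j3) - t) (by omega))) (sh al (-1) ((j + 2 * de + ph - n - j3) - t) ((j + 2 * de + ph - 2 * n - j3) - t) (by omega)))) (fun t h1 h2 => (cE (qf (show Par W (de + 1) (j3) (j - j3) from fun t h1 h2 => (cE (sh al (-1) t (t + (-n)) (by omega)) (cE (qf BE al (-1) (t + (-n)) (t + (i + h - j3)) (by omega)) (pb a1 al 0 (t + (i + h - j3)) (t + (j - j3)) (by omega))))) al (-1) t (t + (n + j - j3)) (by omega)) (sh al (-1) (t + (n + j - j3)) (t + (j - j3)) (by omega))))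

theorem rz2_11 {W : ℤ → G} {n Q i j h de j3 ph : ℤ} (al : AL W n Q)
    (hy : (0) ≤ (i) ∧ (i) ≤ (j) ∧ (j + 1) ≤ (Q) ∧ (i) ≤ (j3) ∧ (j3 + 1) ≤ (Q) ∧ (0) ≤ (de) ∧ (de + 1) ≤ (j3) ∧ (Q + j3) ≤ (i + h + de) ∧ (j + 1) ≤ (h) ∧ (0) ≤ (ph) ∧ (ph + 1) ≤ (h) ∧ (3 * h + j3 + 2 * ph) ≤ (n + i) ∧ (3 * j3 + 1) ≤ (i + h + 2 * de) ∧ (i + 1) ≤ (de) ∧ (j3 + 1) ≤ (j))
    (a1 : Par W (0) (j) (i + h - j))
    (a2 : Par W (Q + j - i - h) (j) (i + h - j))
    (s1 : Ant W (0) (i) (i + j))
    (s2 : Ant W (j + 1) (Q) (i + j))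
    (u1 : Ant W (0) (i) (i + j3))
    (u2 : Ant W (j3 + 1) (Q) (i + j3))
    (GG : Par W (i + 1) (h + de + ph) (h))
    (AL0 : Par W (i - ph + 1) (de) (ph))
    (AL1 : Par W (i - h - ph + 1) (de) (h + ph))
    (BE : Par W (de + 1) (j3) (i + h - j3))
    (T2 : Ant W (Q) (i + h + de - j3) (i + 2 * h + 2 * de + ph - j3))
    (n1 : Nd W (j) (i) (i + h))
    (n4 : Nd W (h + de + ph) (i + h + de - j3) (de))
    (n5 : Nd W (j3) (i) (i + h))
    (b0 : (i + 1) ≤ (ph))
    (b1 : (2 * Q) ≤ (i + h + j3 + ph + 1))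
    (b2 : (i + ph) ≤ (j3 + 1))
    (b3 : (2 * j + 1) ≤ (i + h + j3))
    (b4 : (j + 2 * de + 3) ≤ (Q + j3))
    (b5 : (2 * Q) ≤ (j + j3 + 2 * ph + 1))
    (b6 : (2 * i + j3 + 2 * ph) ≤ (j + 2 * de + 1))
    (b7 : (j + 2) ≤ (Q))
    (b8 : (h) ≤ (j + j3 + ph)) : False := by
  have ev := al.ev
  obtain ⟨y0, y1, y2, y3, y4, y5, y6, y7, y8, y9, y10, y11, y12, y13, y14⟩ := id hy
  have n1p := And.intro n1.p1 n1.p2
  have n4p := And.intro n4.p1 n4.p2
  have n5p := And.intro n5.p1 n5.p2
  by_cases z17 : (2 * i + 2 * h + ph) ≤ (2 * Q + 2 * j)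
  · exact rz2_12 al hy a1 a2 s1 s2 u1 u2 GG AL0 AL1 BE T2 n1 n4 n5 (by clear * - b0; omega) (by clear * - b1; omega) (by clear * - b2; omega) (by clear * - b3; omega) (by clear * - b4; omega) (by clear * - b5; omega) (by clear * - b6; omega) (by clear * - b7; omega) (by clear * - b8; omega) (by clear * - z17; omega)
  · exact rz2_13 al hy a1 a2 s1 s2 u1 u2 GG AL0 AL1 BE T2 n1 n4 n5 (by clear * - b0; omega) (by clear * - b2; omega) (by clear * - b4; omega) (by clear * - b5; omega) (by clear * - b6; omega) (by clear * - b7; omega) (by clear * - b8; omega) (by clear * - z17; omega)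

theorem rz2_14 {W : ℤ → G} {n Q i j h de j3 ph : ℤ} (al : AL W n Q)
    (hy : (0) ≤ (i) ∧ (i) ≤ (j) ∧ (j + 1) ≤ (Q) ∧ (i) ≤ (j3) ∧ (j3 + 1) ≤ (Q) ∧ (0) ≤ (de) ∧ (de + 1) ≤ (j3) ∧ (Q + j3) ≤ (i + h + de) ∧ (j + 1) ≤ (h) ∧ (0) ≤ (ph) ∧ (ph + 1) ≤ (h) ∧ (3 * h + j3 + 2 * ph) ≤ (n + i) ∧ (3 * j3 + 1) ≤ (i + h + 2 * de) ∧ (i + 1) ≤ (de) ∧ (j3 + 1) ≤ (j))
    (a1 : Par W (0) (j) (i + h - j))
    (a2 : Par W (Q + j - i - h) (j) (i + h - j))
    (s1 : Ant W (0) (i) (i + j))
    (s2 : Ant W (j + 1) (Q) (i + j))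
    (u1 : Ant W (0) (i) (i + j3))
    (u2 : Ant W (j3 + 1) (Q) (i + j3))
    (GG : Par W (i + 1) (h + de + ph) (h))
    (AL0 : Par W (i - ph + 1) (de) (ph))
    (AL1 : Par W (i - h - ph + 1) (de) (h + ph))
    (BE : Par W (de + 1) (j3) (i + h - j3))
    (T2 : Ant W (Q) (i + h + de - j3) (i + 2 * h + 2 * de + ph - j3))
    (n1 : Nd W (j) (i) (i + h))
    (n4 : Nd W (h + de + ph) (i + h + de - j3) (de))
    (n5 : Nd W (j3) (i) (i + h))
    (b0 : (i + 1) ≤ (ph))
    (b1 : (i + ph) ≤ (j3 + 1))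
    (b2 : (j + 2 * de + 3) ≤ (Q + j3))
    (b3 : (2 * Q) ≤ (j + j3 + 2 * ph + 1))
    (b4 : (2 * i + j3 + 2 * ph) ≤ (j + 2 * de + 1))
    (b5 : (j + 2) ≤ (Q))
    (b6 : (j + j3 + ph + 1) ≤ (h)) : False := by
  have ev := al.ev
  obtain ⟨y0, y1, y2, y3, y4, y5, y6, y7, y8, y9, y10, y11, y12, y13, y14⟩ := id hy
  have n1p := And.intro n1.p1 n1.p2
  have n4p := And.intro n4.p1 n4.p2
  have n5p := And.intro n5.p1 n5.p2
  by_cases z30 : (2 * de + ph) ≤ (i + j3)
  · by_cases v27 : (Q + j + j3) ≤ (i + h + 2 * de + ph + 1)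
    · have kk574 : (j3 + 1) ≤ (j) := by clear * - y14; omega
      have kk575 : (j3 + 2) ≤ (j) := by clear * - y14 ev n1p n4p n5p; omega
      have kk576 : (j3 + 2) ≤ (j + 2 * ph) := by clear * - b3 b5 y14; omega
      have kk577 : (2 * de + 2) ≤ (j + j3) := by clear * - b3 b4 b5 y14 z30; omega
      have kk578 : (0) ≤ (de + 1) := by clear * - y5; omega
      have kk579 : (j3) ≤ (j) := by clear * - y14; omega
      have kk580 : (j) ≤ (h + de + ph) := by clear * - b3 b4 b5 v27 y14 z30; omega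
      have kk581 : (Q + j + j3) ≤ (i + h + 2 * de + ph + 1) := by clear * - v27; omega
      have kk582 : (i) ≤ (de + ph) := by clear * - b3 b4 b5 y14; omega
      have kk583 : (0) ≤ (de + ph + 1) := by clear * - b3 b5 y14 y5; omega
      have kk584 : (de + ph) ≤ (j3) := by clear * - b3 b4 b5 z30; omega
      have r585 : (2 * i + 2 * h + 2 * de + ph - 2 * n - j - j3) % 2 = 0 := by clear * - ev n1p n4p n5p; omega
      have r586 : (j - j3) % 2 = 0 := by clear * - ev n1p n4p n5p; omega
      clear * - al a1 GG BE T2 kk574 kk575 kk576 kk577 kk578 kk579 kk580 kk581 kk582 kk583 kk584 r585 r586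
      exact midP al (j - j3) (2 * i + 2 * h + 2 * de + ph - 2 * n - j - j3) (i + h + de - n - j + 1) (i + h + de - n - j + 1) (i + h - n) (by omega) (fun t h1 h2 => (cE (cE (cE (qa T2 al (-1) t ((i + 2 * h + 2 * de + ph - n - j3) - t) (by omega)) (pb GG al 0 ((i + 2 * h + 2 * de + ph - n - j3) - t) ((i + h + 2 * de + ph - n - j3) - t) (by omega))) (qf a1 al 0 ((i + h + 2 * de + ph - n - j3) - t) ((2 * i + 2 * h + 2 * de + ph - n - j - j3) - t) (by omega))) (sh al (-1) ((2 * i + 2 * h + 2 * de + ph - n - j - j3) - t) ((2 * i + 2 * h + 2 * de + ph - 2 * n - j - j3) - t) (by omega)))) (fun t h1 h2 => (cE (qf (show Par W (i + h + de - j + 1) (i + h + j3 - j) (j - j3) from fun t h1 h2 => (cE (sh al (-1) t (t + (-n)) (by omega)) (cE (pb a1 al (-1) (t + (-n)) (t + (j - i - h)) (by omega)) (qf BE al 0 (t + (j - i - h)) (t + (j - j3)) (by omega))))) al (-1) t (t + (n + j - j3)) (by omega)) (sh al (-1) (t + (n + j - j3)) (t + (j - j3)) (by omega))))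
    · by_cases v28 : (Q + j) ≤ (i + h + de + 1)
      · have kk587 : (j3 + 1) ≤ (j) := by clear * - y14; omega
        have kk588 : (j3 + 2) ≤ (j) := by clear * - b3 v27 y12; omega
        have kk589 : (j3 + 2) ≤ (j + 2 * ph) := by clear * - b3 b5 y14; omega
        have kk590 : (2 * de + 2) ≤ (j + j3) := by clear * - b3 b5 v27 v28 y14; omega
        have kk591 : (0) ≤ (de + 1) := by clear * - y5; omega
        have kk592 : (j3) ≤ (j) := by clear * - y14; omega
        have kk593 : (j) ≤ (h + de + ph) := by clear * - b3 b4 b5 v27 v28 y14; omega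
        have kk594 : (i + h + 2 * de + ph + 1) ≤ (Q + j + j3) := by clear * - v27; omega
        have kk595 : (i) ≤ (de + ph) := by clear * - b3 b4 b5 y14; omega
        have kk596 : (0) ≤ (de + ph + 1) := by clear * - b3 b5 y14 y5; omega
        have kk597 : (de + ph) ≤ (j3) := by clear * - v27 v28; omega
        have kk598 : (Q + j) ≤ (i + h + de + 1) := by clear * - v28; omega
        have r599 : (2 * i + 2 * h + 2 * de + ph - 2 * n - j - j3) % 2 = 0 := by clear * - ev n1p n4p n5p; omega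
        have r600 : (j - j3) % 2 = 0 := by clear * - ev n1p n4p n5p; omega
        clear * - al a1 GG BE T2 kk587 kk588 kk589 kk590 kk591 kk592 kk593 kk594 kk595 kk596 kk597 kk598 r599 r600
        exact midP al (j - j3) (2 * i + 2 * h + 2 * de + ph - 2 * n - j - j3) (i + h + de - n - j + 1) (i + h + de - n - j + 1) (i + h - n) (by omega) (fun t h1 h2 => (cE (cE (cE (qa T2 al (-1) t ((i + 2 * h + 2 * de + ph - n - j3) - t) (by omega)) (pb GG al 0 ((i + 2 * h + 2 * de + ph - n - j3) - t) ((i + h + 2 * de + ph - n - j3) - t) (by omega))) (qf a1 al 0 ((i + h + 2 * de + ph - n - j3) - t) ((2 * i + 2 * h + 2 * de + ph - n - j - j3) - t) (by omega))) (sh al (-1) ((2 * i + 2 * h + 2 * de + ph - n - j - j3) - t) ((2 * i + 2 * h + 2 * de + ph - 2 * n - j - j3) - t) (by omega)))) (fun t h1 h2 => (cE (qf (show Par W (i + h + de - j + 1) (i + h + j3 - j) (j - j3) from fun t h1 h2 => (cE (sh al (-1) t (t + (-n)) (by omega)) (cE (pb a1 al (-1) (t + (-n)) (t + (j - i - h)) (by omega))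 (qf BE al 0 (t + (j - i - h)) (t + (j - j3)) (by omega))))) al (-1) t (t + (n + j - j3)) (by omega)) (sh al (-1) (t + (n + j - j3)) (t + (j - j3)) (by omega))))
      · have kk601 : (j3 + 1) ≤ (j) := by clear * - y14; omega
        have kk602 : (2 * Q + j + j3) ≤ (2 * i + 2 * h + 2 * de) := by clear * - b3 b4 b5 b6 y0; omega
        have kk603 : (2 * Q + j + j3) ≤ (2 * i + 2 * h + 2 * de + 2 * ph) := by clear * - b3 b5 y7; omega
        have kk604 : (2 * Q + j) ≤ (2 * i + 2 * h + j3) := by clear * - b3 b4 b5 y7 z30; omega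
        have kk605 : (0) ≤ (de + 1) := by clear * - y5; omega
        have kk606 : (j3) ≤ (j) := by clear * - y14; omega
        have kk607 : (j) ≤ (h + de + ph) := by clear * - b3 b4 b5 v28 y12 z30; omega
        have kk608 : (i + h + 2 * de + ph + 1) ≤ (Q + j + j3) := by clear * - v27; omega
        have kk609 : (i) ≤ (de + ph) := by clear * - b3 b4 b5 y14; omega
        have kk610 : (0) ≤ (de + ph + 1) := by clear * - b3 b5 y14 y5; omega
        have kk611 : (i + h + de + 1) ≤ (Q + j) := by clear * - v28; omega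
        have r612 : (2 * i + 2 * h + 2 * de + ph - 2 * n - j - j3) % 2 = 0 := by clear * - ev n1p n4p n5p; omega
        have r613 : (j - j3) % 2 = 0 := by clear * - ev n1p n4p n5p; omega
        clear * - al a1 GG BE T2 kk601 kk602 kk603 kk604 kk605 kk606 kk607 kk608 kk609 kk610 kk611 r612 r613
        exact midP al (j - j3) (2 * i + 2 * h + 2 * de + ph - 2 * n - j - j3) (Q - n) (i + h + de - n - j + 1) (i + h - n) (by omega) (fun t h1 h2 => (cE (cE (cE (qa T2 al (-1) t ((i + 2 * h + 2 * de + ph - n - j3) - t) (by omega)) (pb GG al 0 ((i + 2 * h + 2 * de + ph - n - j3) - t) ((i + h + 2 * de + ph - n - j3) - t) (by omega))) (qf a1 al 0 ((i + h + 2 * de + ph - n - j3) - t) ((2 * i + 2 * h + 2 * de + ph - n - j - j3) - t) (by omega))) (sh al (-1) ((2 * i + 2 * h + 2 * de + ph - n - j - j3) - t) ((2 * i + 2 * h + 2 * de + ph - 2 * n - j - j3) - t) (by omega)))) (fun t h1 h2 => (cE (qf (show Par W (i + h + de - j + 1) (i + h + j3 - j) (j - j3) from fun t h1 h2 => (cE (sh al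 (-1) t (t + (-n)) (by omega)) (cE (pb a1 al (-1) (t + (-n)) (t + (j - i - h)) (by omega)) (qf BE al 0 (t + (j - i - h)) (t + (j - j3)) (by omega))))) al (-1) t (t + (n + j - j3)) (by omega)) (sh al (-1) (t + (n + j - j3)) (t + (j - j3)) (by omega))))
  · by_cases z31 : (2 * Q + j3) ≤ (i + h + 2 * de + ph)
    · have kk614 : (j3 + ph + 2) ≤ (i + h) := by clear * - b2 b4 y0 y14 z31; omega
      have kk615 : (2 * Q + j3) ≤ (i + h + 2 * de + ph + 1) := by clear * - z31; omega
      have kk616 : (i) ≤ (de + ph) := by clear * - b3 b4 b5 y14; omega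
      have kk617 : (i + de + 1) ≤ (Q + j3) := by clear * - b4 b5 y14 y6 z30; omega
      have r618 : (i + h + 2 * de + ph - 2 * n - j3) % 2 = 0 := by clear * - ev n1p n4p n5p; omega
      clear * - al GG T2 kk614 kk615 kk616 kk617 r618
      obtain ⟨t, ht⟩ : ∃ t, 2 * t = (i + h + 2 * de + ph - 2 * n - j3) := ⟨(i + h + 2 * de + ph - 2 * n - j3) / 2, by omega⟩
      exact al.ninv t (cE (cI (qf GG al (-1) t (t + (n + h)) (by omega)) (ab T2 al 0 (t + (n + h)) ((i + h + 2 * de + ph - n - j3) - t) (by omega))) (sh al (-1) ((i + h + 2 * de + ph - n - j3) - t) t (by omega)))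
    · by_cases v29 : (Q + j) ≤ (i + h)
      · have kk619 : (j3 + 1) ≤ (j) := by clear * - y14; omega
        have kk620 : (j3 + 2) ≤ (j) := by clear * - y14 ev n1p n4p n5p; omega
        have kk621 : (j3 + 2) ≤ (j + 2 * ph) := by clear * - b3 b5 y14; omega
        have kk622 : (2 * de + 2) ≤ (j + j3) := by clear * - y14 y6; omega
        have kk623 : (j + de + 1) ≤ (h + j3) := by clear * - b3 b5 b6 v29 y10 z31; omega
        have kk624 : (Q + j) ≤ (i + h) := by clear * - v29; omega
        have kk625 : (de) ≤ (j3) := by clear * - y6; omega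
        have kk626 : (i) ≤ (de + ph) := by clear * - b3 b4 b5 y14; omega
        have kk627 : (j3) ≤ (j + de + 1) := by clear * - y14 y5; omega
        have kk628 : (0) ≤ (de + 1) := by clear * - y5; omega
        have kk629 : (de + ph) ≤ (j3) := by clear * - b3 b4 v29 y0 z31; omega
        have r630 : (j + 2 * de + ph - j3) % 2 = 0 := by clear * - ev n1p n4p n5p; omega
        have r631 : (j - j3) % 2 = 0 := by clear * - ev n1p n4p n5p; omega
        clear * - al a1 GG BE T2 kk619 kk620 kk621 kk622 kk623 kk624 kk625 kk626 kk627 kk628 kk629 r630 r631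
        exact midP al (j - j3) (j + 2 * de + ph - j3) (de + 1) (de + 1) (j) (by omega) (fun t h1 h2 => (cE (cI (qf a1 al 0 t (t + (i + h - j)) (by omega)) (qa T2 al 0 (t + (i + h - j)) ((j + h + 2 * de + ph - j3) - t) (by omega))) (pb GG al 0 ((j + h + 2 * de + ph - j3) - t) ((j + 2 * de + ph - j3) - t) (by omega)))) (fun t h1 h2 => (cE (qf BE al 0 t (t + (i + h - j3)) (by omega)) (pb a1 al 0 (t + (i + h - j3)) (t + (j - j3)) (by omega))))
      · by_cases v30 : (de + ph) ≤ (j3)
        · by_cases v31 : (Q + j) ≤ (i + h + de + 1)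
          · have kk632 : (j3 + 1) ≤ (j) := by clear * - y14; omega
            have kk633 : (j3 + 2) ≤ (j) := by clear * - b3 b6 v29 y0; omega
            have kk634 : (j3 + 2) ≤ (j + 2 * ph) := by clear * - b3 b5 y14; omega
            have kk635 : (2 * de + 2) ≤ (j + j3) := by clear * - b3 b5 v30 y14; omega
            have kk636 : (i + h) ≤ (Q + j) := by clear * - v29; omega
            have kk637 : (i + de + 1) ≤ (Q + j3) := by clear * - b3 v31 y14 z30 z31; omega
            have kk638 : (de) ≤ (j3) := by clear * - b3 v31 y14 z31; omega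
            have kk639 : (i) ≤ (de + ph) := by clear * - b3 b5 b6 v29 v31; omega
            have kk640 : (j3) ≤ (j + de + 1) := by clear * - v29 v31 y14; omega
            have kk641 : (de + ph) ≤ (j3) := by clear * - v30; omega
            have kk642 : (Q + j) ≤ (i + h + de + 1) := by clear * - v31; omega
            have r643 : (j + 2 * de + ph - j3) % 2 = 0 := by clear * - ev n1p n4p n5p; omega
            have r644 : (j - j3) % 2 = 0 := by clear * - ev n1p n4p n5p; omega
            clear * - al a1 GG BE T2 kk632 kk633 kk634 kk635 kk636 kk637 kk638 kk639 kk640 kk641 kk642 r643 r644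
            exact midP al (j - j3) (j + 2 * de + ph - j3) (de + 1) (de + 1) (j) (by omega) (fun t h1 h2 => (cE (cI (qf a1 al 0 t (t + (i + h - j)) (by omega)) (qa T2 al 0 (t + (i + h - j)) ((j + h + 2 * de + ph - j3) - t) (by omega))) (pb GG al 0 ((j + h + 2 * de + ph - j3) - t) ((j + 2 * de + ph - j3) - t) (by omega)))) (fun t h1 h2 => (cE (qf BE al 0 t (t + (i + h - j3)) (by omega)) (pb a1 al 0 (t + (i + h - j3)) (t + (j - j3)) (by omega))))
          · have kk645 : (j3 + 1) ≤ (j) := by clear * - y14; omega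
            have kk646 : (2 * Q + j + j3) ≤ (2 * i + 2 * h + 2 * de) := by clear * - b3 b6 v30 y0 z30; omega
            have kk647 : (2 * Q + j + j3) ≤ (2 * i + 2 * h + 2 * de + 2 * ph) := by clear * - b3 b5 y7; omega
            have kk648 : (2 * Q + j) ≤ (2 * i + 2 * h + j3) := by clear * - b3 b5 v30 y7; omega
            have kk649 : (i + h) ≤ (Q + j) := by clear * - v29; omega
            have kk650 : (i + de + 1) ≤ (Q + j3) := by clear * - b3 b5 v30 y14 z30; omega
            have kk651 : (de) ≤ (j3) := by clear * - b3 b5 v30 y14; omega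
            have kk652 : (i) ≤ (de + ph) := by clear * - b3 b5 v30 y14 z30; omega
            have kk653 : (j3) ≤ (j + de + 1) := by clear * - v29 y7; omega
            have kk654 : (i + h + de + 1) ≤ (Q + j) := by clear * - v31; omega
            have kk655 : (i + h + 2 * de + ph + 1) ≤ (Q + j + j3) := by clear * - v30 v31; omega
            have r656 : (j + 2 * de + ph - j3) % 2 = 0 := by clear * - ev n1p n4p n5p; omega
            have r657 : (j - j3) % 2 = 0 := by clear * - ev n1p n4p n5p; omega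
            clear * - al a1 GG BE T2 kk645 kk646 kk647 kk648 kk649 kk650 kk651 kk652 kk653 kk654 kk655 r656 r657
            exact midP al (j - j3) (j + 2 * de + ph - j3) (Q + j - i - h) (de + 1) (j) (by omega) (fun t h1 h2 => (cE (cI (qf a1 al 0 t (t + (i + h - j)) (by omega)) (qa T2 al 0 (t + (i + h - j)) ((j + h + 2 * de + ph - j3) - t) (by omega))) (pb GG al 0 ((j + h + 2 * de + ph - j3) - t) ((j + 2 * de + ph - j3) - t) (by omega)))) (fun t h1 h2 => (cE (qf BE al 0 t (t + (i + h - j3)) (by omega)) (pb a1 al 0 (t + (i + h - j3)) (t + (j - j3)) (by omega))))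
        · by_cases v32 : (Q + j + j3) ≤ (i + h + 2 * de + ph + 1)
          · have kk658 : (j3 + 1) ≤ (j) := by clear * - y14; omega
            have kk659 : (2 * de + 2 * ph + 2) ≤ (j + j3) := by clear * - b3 b4 b6 y0 z31 ev n1p n4p n5p; omega
            have kk660 : (2 * de + 2) ≤ (j + j3) := by clear * - y14 y6; omega
            have kk661 : (4 * de + 2 * ph + 2) ≤ (j + 3 * j3) := by clear * - b3 b4 b5 b6 y0 z31; omega
            have kk662 : (i + h) ≤ (Q + j) := by clear * - v29; omega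
            have kk663 : (i + de + 1) ≤ (Q + j3) := by clear * - b3 v30 v32 y10 z30 z31; omega
            have kk664 : (de) ≤ (j3) := by clear * - y6; omega
            have kk665 : (i) ≤ (de + ph) := by clear * - b2 b3 b4 v29 v32; omega
            have kk666 : (j3) ≤ (j + de + 1) := by clear * - v29 y7; omega
            have kk667 : (j3) ≤ (de + ph) := by clear * - v30; omega
            have kk668 : (Q + j + j3) ≤ (i + h + 2 * de + ph + 1) := by clear * - v32; omega
            have r669 : (j + 2 * de + ph - j3) % 2 = 0 := by clear * - ev n1p n4p n5p; omega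
            have r670 : (j - j3) % 2 = 0 := by clear * - ev n1p n4p n5p; omega
            clear * - al a1 GG BE T2 kk658 kk659 kk660 kk661 kk662 kk663 kk664 kk665 kk666 kk667 kk668 r669 r670
            exact midP al (j - j3) (j + 2 * de + ph - j3) (2 * de + ph - j3 + 1) (de + 1) (j) (by omega) (fun t h1 h2 => (cE (cI (qf a1 al 0 t (t + (i + h - j)) (by omega)) (qa T2 al 0 (t + (i + h - j)) ((j + h + 2 * de + ph - j3) - t) (by omega))) (pb GG al 0 ((j + h + 2 * de + ph - j3) - t) ((j + 2 * de + ph - j3) - t) (by omega)))) (fun t h1 h2 => (cE (qf BE al 0 t (t + (i + h - j3)) (by omega)) (pb a1 al 0 (t + (i + h - j3)) (t + (j - j3)) (by omega))))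
          · have kk671 : (j3 + 1) ≤ (j) := by clear * - y14; omega
            have kk672 : (2 * Q + j + j3) ≤ (2 * i + 2 * h + 2 * de) := by clear * - b3 b4 b5 b6 y0; omega
            have kk673 : (2 * Q + j + j3) ≤ (2 * i + 2 * h + 2 * de + 2 * ph) := by clear * - b3 b5 y7; omega
            have kk674 : (2 * Q + j) ≤ (2 * i + 2 * h + j3) := by clear * - b3 b4 b5 b6 v32 y0; omega
            have kk675 : (i + h) ≤ (Q + j) := by clear * - v29; omega
            have kk676 : (i + de + 1) ≤ (Q + j3) := by clear * - b3 b5 v30 v32 y10 z30; omega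
            have kk677 : (de) ≤ (j3) := by clear * - y6; omega
            have kk678 : (i) ≤ (de + ph) := by clear * - b3 b4 b5 y14; omega
            have kk679 : (j3) ≤ (j + de + 1) := by clear * - v29 y7; omega
            have kk680 : (j3) ≤ (de + ph) := by clear * - v30; omega
            have kk681 : (i + h + 2 * de + ph + 1) ≤ (Q + j + j3) := by clear * - v32; omega
            have r682 : (j + 2 * de + ph - j3) % 2 = 0 := by clear * - ev n1p n4p n5p; omega
            have r683 : (j - j3) % 2 = 0 := by clear * - ev n1p n4p n5p; omega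
            clear * - al a1 GG BE T2 kk671 kk672 kk673 kk674 kk675 kk676 kk677 kk678 kk679 kk680 kk681 r682 r683
            exact midP al (j - j3) (j + 2 * de + ph - j3) (Q + j - i - h) (de + 1) (j) (by omega) (fun t h1 h2 => (cE (cI (qf a1 al 0 t (t + (i + h - j)) (by omega)) (qa T2 al 0 (t + (i + h - j)) ((j + h + 2 * de + ph - j3) - t) (by omega))) (pb GG al 0 ((j + h + 2 * de + ph - j3) - t) ((j + 2 * de + ph - j3) - t) (by omega)))) (fun t h1 h2 => (cE (qf BE al 0 t (t + (i + h - j3)) (by omega)) (pb a1 al 0 (t + (i + h - j3)) (t + (j - j3)) (by omega))))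

theorem rz2_10 {W : ℤ → G} {n Q i j h de j3 ph : ℤ} (al : AL W n Q)
    (hy : (0) ≤ (i) ∧ (i) ≤ (j) ∧ (j + 1) ≤ (Q) ∧ (i) ≤ (j3) ∧ (j3 + 1) ≤ (Q) ∧ (0) ≤ (de) ∧ (de + 1) ≤ (j3) ∧ (Q + j3) ≤ (i + h + de) ∧ (j + 1) ≤ (h) ∧ (0) ≤ (ph) ∧ (ph + 1) ≤ (h) ∧ (3 * h + j3 + 2 * ph) ≤ (n + i) ∧ (3 * j3 + 1) ≤ (i + h + 2 * de) ∧ (i + 1) ≤ (de) ∧ (j3 + 1) ≤ (j))
    (a1 : Par W (0) (j) (i + h - j))
    (a2 : Par W (Q + j - i - h) (j) (i + h - j))
    (s1 : Ant W (0) (i) (i + j))
    (s2 : Ant W (j + 1) (Q) (i + j))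
    (u1 : Ant W (0) (i) (i + j3))
    (u2 : Ant W (j3 + 1) (Q) (i + j3))
    (GG : Par W (i + 1) (h + de + ph) (h))
    (AL0 : Par W (i - ph + 1) (de) (ph))
    (AL1 : Par W (i - h - ph + 1) (de) (h + ph))
    (BE : Par W (de + 1) (j3) (i + h - j3))
    (T2 : Ant W (Q) (i + h + de - j3) (i + 2 * h + 2 * de + ph - j3))
    (n1 : Nd W (j) (i) (i + h))
    (n4 : Nd W (h + de + ph) (i + h + de - j3) (de))
    (n5 : Nd W (j3) (i) (i + h))
    (b0 : (i + 1) ≤ (ph))
    (b1 : (2 * Q) ≤ (i + h + j3 + ph + 1))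
    (b2 : (i + ph) ≤ (j3 + 1))
    (b3 : (2 * j + 1) ≤ (i + h + j3))
    (b4 : (j + 2 * de + 3) ≤ (Q + j3))
    (b5 : (2 * Q) ≤ (j + j3 + 2 * ph + 1))
    (b6 : (2 * i + j3 + 2 * ph) ≤ (j + 2 * de + 1))
    (b7 : (j + 2) ≤ (Q)) : False := by
  have ev := al.ev
  obtain ⟨y0, y1, y2, y3, y4, y5, y6, y7, y8, y9, y10, y11, y12, y13, y14⟩ := id hy
  have n1p := And.intro n1.p1 n1.p2
  have n4p := And.intro n4.p1 n4.p2
  have n5p := And.intro n5.p1 n5.p2
  by_cases z16 : (h) ≤ (j + j3 + ph)
  · exact rz2_11 al hy a1 a2 s1 s2 u1 u2 GG AL0 AL1 BE T2 n1 n4 n5 (by clear * - b0; omega) (by clear * - b1; omega) (by clear * - b2; omega) (by clear * - b3; omega) (by clear * - b4; omega) (by clear * - b5; omega) (by clear * - b6; omega) (by clear * - b7; omega) (by clear * - z16; omega)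
  · exact rz2_14 al hy a1 a2 s1 s2 u1 u2 GG AL0 AL1 BE T2 n1 n4 n5 (by clear * - b0; omega) (by clear * - b2; omega) (by clear * - b4; omega) (by clear * - b5; omega) (by clear * - b6; omega) (by clear * - b7; omega) (by clear * - z16; omega)

theorem rz2_9 {W : ℤ → G} {n Q i j h de j3 ph : ℤ} (al : AL W n Q)
    (hy : (0) ≤ (i) ∧ (i) ≤ (j) ∧ (j + 1) ≤ (Q) ∧ (i) ≤ (j3) ∧ (j3 + 1) ≤ (Q) ∧ (0) ≤ (de) ∧ (de + 1) ≤ (j3) ∧ (Q + j3) ≤ (i + h + de) ∧ (j + 1) ≤ (h) ∧ (0) ≤ (ph) ∧ (ph + 1) ≤ (h) ∧ (3 * h + j3 + 2 * ph) ≤ (n + i) ∧ (3 * j3 + 1) ≤ (i + h + 2 * de) ∧ (i + 1) ≤ (de) ∧ (j3 + 1) ≤ (j))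
    (a1 : Par W (0) (j) (i + h - j))
    (a2 : Par W (Q + j - i - h) (j) (i + h - j))
    (s1 : Ant W (0) (i) (i + j))
    (s2 : Ant W (j + 1) (Q) (i + j))
    (u1 : Ant W (0) (i) (i + j3))
    (u2 : Ant W (j3 + 1) (Q) (i + j3))
    (GG : Par W (i + 1) (h + de + ph) (h))
    (AL0 : Par W (i - ph + 1) (de) (ph))
    (AL1 : Par W (i - h - ph + 1) (de) (h + ph))
    (BE : Par W (de + 1) (j3) (i + h - j3))
    (T2 : Ant W (Q) (i + h + de - j3) (i + 2 * h + 2 * de + ph - j3))
    (n1 : Nd W (j) (i) (i + h))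
    (n4 : Nd W (h + de + ph) (i + h + de - j3) (de))
    (n5 : Nd W (j3) (i) (i + h))
    (b0 : (i + 1) ≤ (ph))
    (b1 : (2 * Q) ≤ (i + h + j3 + ph + 1))
    (b2 : (i + ph) ≤ (j3 + 1))
    (b3 : (2 * j + 1) ≤ (i + h + j3))
    (b4 : (j + 2 * de + 3) ≤ (Q + j3))
    (b5 : (2 * Q) ≤ (j + j3 + 2 * ph + 1))
    (b6 : (2 * i + j3 + 2 * ph) ≤ (j + 2 * de + 1)) : False := by
  have ev := al.ev
  obtain ⟨y0, y1, y2, y3, y4, y5, y6, y7, y8, y9, y10, y11, y12, y13, y14⟩ := id hy
  have n1p := And.intro n1.p1 n1.p2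
  have n4p := And.intro n4.p1 n4.p2
  have n5p := And.intro n5.p1 n5.p2
  by_cases z15 : (Q) ≤ (j + 1)
  · have kk167 : (j + 1) ≤ (i + h) := by clear * - b3 y14; omega
    have kk168 : (0) ≤ (j) := by clear * - b4 y14 y5 z15; omega
    have kk169 : (0) ≤ (de) := by clear * - y5; omega
    have kk170 : (de + 1) ≤ (i + h) := by clear * - b3 y14 y6; omega
    have kk171 : (j3) ≤ (i + h + de) := by clear * - b3 y14 y5; omega
    have kk172 : (de + 1) ≤ (j3) := by clear * - y6; omega
    have kk173 : (Q) ≤ (j + 1) := by clear * - z15; omega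
    have kk174 : (i + de + 1) ≤ (Q + j3) := by clear * - b4 b5 b6 y14 y5; omega
    have kk175 : (i) ≤ (de + ph) := by clear * - y13 y9; omega
    have kk176 : (0) ≤ (de + 1) := by clear * - y5; omega
    have kk177 : (j3) ≤ (i + h + de + 1) := by clear * - b3 y14 y5; omega
    have kk178 : (j3) ≤ (i + h) := by clear * - b3 y14; omega
    have kk179 : (0) ≤ (Q) := by clear * - b4 y14 y5; omega
    have kk180 : (2 * de + ph + 1) ≤ (Q + j3) := by clear * - b0 b4 b6 y0 z15; omega
    have kk181 : (de) ≤ (j3) := by clear * - y6; omega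
    have kk182 : (0) ≤ (de + ph + 1) := by clear * - y5 y9; omega
    have r183 : (i + h - j3) % 2 = 0 := by clear * - ev n1p n4p n5p; omega
    have r184 : (i + h - j) % 2 = 0 := by clear * - ev n1p n4p n5p; omega
    have r185 : (i + h + 2 * de + ph - 2 * n - j3) % 2 = 0 := by clear * - ev n1p n4p n5p; omega
    clear * - al a1 GG BE T2 n4 kk167 kk168 kk169 kk170 kk171 kk172 kk173 kk174 kk175 kk176 kk177 kk178 kk179 kk180 kk181 kk182 r183 r184 r185
    exact ivt al.ninv (-n) (j - n) (i + h - j) (de - n + 1) (j3 - n) (i + h - j3) (de - n) (i + h + de - n - j3) 0 (fun t h1 h2 => (cE (qf a1 al (-1) t (t + (n + i + h - j)) (by omega)) (sh al (-1) (t + (n + i + h - j)) (t + (i + h - j)) (by omega)))) (fun t h1 h2 => (cE (qf BE al (-1) t (t + (n + i + h - j3)) (by omega)) (sh al (-1) (t + (n + i + h - j3)) (t + (i + h - j3)) (by omega)))) (fun hh => n4.f1 (rEE (sh al (-1) (i + h + de - j3) (i + h + de - n - j3) (by omega)) (sh al (-1) (de) (de - n) (by omega)) (Eq.symm (Eq.symm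 hh)))) (by omega) (Q - n) (i + h + de - n - j3) (i + h + 2 * de + ph - 2 * n - j3) 1 (-1) (fun t h1 h2 => (cE (cE (qa T2 al (-1) t ((i + 2 * h + 2 * de + ph - n - j3) - t) (by omega)) (pb GG al 0 ((i + 2 * h + 2 * de + ph - n - j3) - t) ((i + h + 2 * de + ph - n - j3) - t) (by omega))) (sh al (-1) ((i + h + 2 * de + ph - n - j3) - t) ((i + h + 2 * de + ph - 2 * n - j3) - t) (by omega)))) (by omega)
  · exact rz2_10 al hy a1 a2 s1 s2 u1 u2 GG AL0 AL1 BE T2 n1 n4 n5 (by clear * - b0; omega) (by clear * - b1; omega) (by clear * - b2; omega) (by clear * - b3; omega) (by clear * - b4; omega) (by clear * - b5; omega) (by clear * - b6; omega) (by clear * - z15; omega)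

theorem rz2_8 {W : ℤ → G} {n Q i j h de j3 ph : ℤ} (al : AL W n Q)
    (hy : (0) ≤ (i) ∧ (i) ≤ (j) ∧ (j + 1) ≤ (Q) ∧ (i) ≤ (j3) ∧ (j3 + 1) ≤ (Q) ∧ (0) ≤ (de) ∧ (de + 1) ≤ (j3) ∧ (Q + j3) ≤ (i + h + de) ∧ (j + 1) ≤ (h) ∧ (0) ≤ (ph) ∧ (ph + 1) ≤ (h) ∧ (3 * h + j3 + 2 * ph) ≤ (n + i) ∧ (3 * j3 + 1) ≤ (i + h + 2 * de) ∧ (i + 1) ≤ (de) ∧ (j3 + 1) ≤ (j))
    (a1 : Par W (0) (j) (i + h - j))
    (a2 : Par W (Q + j - i - h) (j) (i + h - j))
    (s1 : Ant W (0) (i) (i + j))
    (s2 : Ant W (j + 1) (Q) (i + j))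
    (u1 : Ant W (0) (i) (i + j3))
    (u2 : Ant W (j3 + 1) (Q) (i + j3))
    (GG : Par W (i + 1) (h + de + ph) (h))
    (AL0 : Par W (i - ph + 1) (de) (ph))
    (AL1 : Par W (i - h - ph + 1) (de) (h + ph))
    (BE : Par W (de + 1) (j3) (i + h - j3))
    (T2 : Ant W (Q) (i + h + de - j3) (i + 2 * h + 2 * de + ph - j3))
    (n1 : Nd W (j) (i) (i + h))
    (n4 : Nd W (h + de + ph) (i + h + de - j3) (de))
    (n5 : Nd W (j3) (i) (i + h))
    (b0 : (i + 1) ≤ (ph))
    (b1 : (2 * Q) ≤ (i + h + j3 + ph + 1))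
    (b2 : (i + ph) ≤ (j3 + 1))
    (b3 : (2 * j + 1) ≤ (i + h + j3))
    (b4 : (j + 2 * de + 3) ≤ (Q + j3))
    (b5 : (2 * Q) ≤ (j + j3 + 2 * ph + 1)) : False := by
  have ev := al.ev
  obtain ⟨y0, y1, y2, y3, y4, y5, y6, y7, y8, y9, y10, y11, y12, y13, y14⟩ := id hy
  have n1p := And.intro n1.p1 n1.p2
  have n4p := And.intro n4.p1 n4.p2
  have n5p := And.intro n5.p1 n5.p2
  by_cases z14 : (j + 2 * de + 2) ≤ (2 * i + j3 + 2 * ph)
  · by_cases v5 : (Q) ≤ (j3 + ph)
    · have kk145 : (j3 + 1) ≤ (j) := by clear * - y14; omega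
      have kk146 : (j + j3 + 2) ≤ (2 * Q) := by clear * - y14 y2; omega
      have kk147 : (j + 2 * de + 2) ≤ (2 * i + j3 + 2 * ph) := by clear * - z14; omega
      have kk148 : (j3 + 2) ≤ (j) := by clear * - y14 ev n1p n4p n5p; omega
      have kk149 : (i) ≤ (de) := by clear * - y13; omega
      have kk150 : (Q) ≤ (j3 + ph) := by clear * - v5; omega
      have kk151 : (j3) ≤ (j + de + 1) := by clear * - y14 y5; omega
      have kk152 : (de) ≤ (j3) := by clear * - b2 y14 z14; omega
      have kk153 : (i + ph) ≤ (j) := by clear * - b2 y14; omega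
      have r154 : (i + j3 + ph - 2 * n) % 2 = 0 := by clear * - ev n1p n4p n5p; omega
      have r155 : (j - j3) % 2 = 0 := by clear * - ev n1p n4p n5p; omega
      clear * - al a1 u2 AL0 BE kk145 kk146 kk147 kk148 kk149 kk150 kk151 kk152 kk153 r154 r155
      exact midP al (j - j3) (i + j3 + ph - 2 * n) (j3 - n + 1) (de - n + 1) (j - n) (by omega) (fun t h1 h2 => (cE (cE (qa u2 al (-1) t ((i + j3 - n) - t) (by omega)) (qf AL0 al 0 ((i + j3 - n) - t) ((i + j3 + ph - n) - t) (by omega))) (sh al (-1) ((i + j3 + ph - n) - t) ((i + j3 + ph - 2 * n) - t) (by omega)))) (fun t h1 h2 => (cE (cE (qf BE al (-1) t (t + (n + i + h - j3)) (by omega)) (pb a1 al 0 (t + (n + i + h - j3)) (t + (n + j - j3)) (by omega))) (sh al (-1) (t + (n + j - j3)) (t + (j - j3)) (by omega))))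
    · have kk156 : (j3 + 1) ≤ (j) := by clear * - b5 v5; omega
      have kk157 : (j + 2) ≤ (j3 + 2 * ph) := by clear * - y13 z14; omega
      have kk158 : (j + 2 * de + 2) ≤ (2 * i + j3 + 2 * ph) := by clear * - z14; omega
      have kk159 : (j3 + 2) ≤ (j) := by clear * - b5 v5 ev n1p n4p n5p; omega
      have kk160 : (i) ≤ (de) := by clear * - y13; omega
      have kk161 : (j3 + ph) ≤ (Q) := by clear * - v5; omega
      have kk162 : (j3) ≤ (j + de + 1) := by clear * - b5 v5 y5; omega
      have kk163 : (de) ≤ (j3) := by clear * - b2 b5 v5 z14; omega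
      have kk164 : (i + ph) ≤ (j) := by clear * - b2 b5 v5; omega
      have r165 : (i + j3 + ph - 2 * n) % 2 = 0 := by clear * - ev n1p n4p n5p; omega
      have r166 : (j - j3) % 2 = 0 := by clear * - ev n1p n4p n5p; omega
      clear * - al a1 u2 AL0 BE kk156 kk157 kk158 kk159 kk160 kk161 kk162 kk163 kk164 r165 r166
      exact midP al (j - j3) (i + j3 + ph - 2 * n) (j3 - n + 1) (de - n + 1) (j - n) (by omega) (fun t h1 h2 => (cE (cE (qa u2 al (-1) t ((i + j3 - n) - t) (by omega)) (qf AL0 al 0 ((i + j3 - n) - t) ((i + j3 + ph - n) - t) (by omega))) (sh al (-1) ((i + j3 + ph - n) - t) ((i + j3 + ph - 2 * n) - t) (by omega)))) (fun t h1 h2 => (cE (cE (qf BE al (-1) t (t + (n + i + h - j3)) (by omega)) (pb a1 al 0 (t + (n + i + h - j3)) (t + (n + j - j3)) (by omega))) (sh al (-1) (t + (n + j - j3)) (t + (j - j3)) (by omega))))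
  · exact rz2_9 al hy a1 a2 s1 s2 u1 u2 GG AL0 AL1 BE T2 n1 n4 n5 (by clear * - b0; omega) (by clear * - b1; omega) (by clear * - b2; omega) (by clear * - b3; omega) (by clear * - b4; omega) (by clear * - b5; omega) (by clear * - z14; omega)

theorem rz2_7 {W : ℤ → G} {n Q i j h de j3 ph : ℤ} (al : AL W n Q)
    (hy : (0) ≤ (i) ∧ (i) ≤ (j) ∧ (j + 1) ≤ (Q) ∧ (i) ≤ (j3) ∧ (j3 + 1) ≤ (Q) ∧ (0) ≤ (de) ∧ (de + 1) ≤ (j3) ∧ (Q + j3) ≤ (i + h + de) ∧ (j + 1) ≤ (h) ∧ (0) ≤ (ph) ∧ (ph + 1) ≤ (h) ∧ (3 * h + j3 + 2 * ph) ≤ (n + i) ∧ (3 * j3 + 1) ≤ (i + h + 2 * de) ∧ (i + 1) ≤ (de) ∧ (j3 + 1) ≤ (j))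
    (a1 : Par W (0) (j) (i + h - j))
    (a2 : Par W (Q + j - i - h) (j) (i + h - j))
    (s1 : Ant W (0) (i) (i + j))
    (s2 : Ant W (j + 1) (Q) (i + j))
    (u1 : Ant W (0) (i) (i + j3))
    (u2 : Ant W (j3 + 1) (Q) (i + j3))
    (GG : Par W (i + 1) (h + de + ph) (h))
    (AL0 : Par W (i - ph + 1) (de) (ph))
    (AL1 : Par W (i - h - ph + 1) (de) (h + ph))
    (BE : Par W (de + 1) (j3) (i + h - j3))
    (T2 : Ant W (Q) (i + h + de - j3) (i + 2 * h + 2 * de + ph - j3))
    (n1 : Nd W (j) (i) (i + h))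
    (n4 : Nd W (h + de + ph) (i + h + de - j3) (de))
    (n5 : Nd W (j3) (i) (i + h))
    (b0 : (i + 1) ≤ (ph))
    (b1 : (2 * Q) ≤ (i + h + j3 + ph + 1))
    (b2 : (i + ph) ≤ (j3 + 1))
    (b3 : (2 * j + 1) ≤ (i + h + j3))
    (b4 : (j + 2 * de + 3) ≤ (Q + j3)) : False := by
  have ev := al.ev
  obtain ⟨y0, y1, y2, y3, y4, y5, y6, y7, y8, y9, y10, y11, y12, y13, y14⟩ := id hy
  have n1p := And.intro n1.p1 n1.p2
  have n4p := And.intro n4.p1 n4.p2
  have n5p := And.intro n5.p1 n5.p2
  by_cases z13 : (j + j3 + 2 * ph + 2) ≤ (2 * Q)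
  · have kk134 : (j3 + 1) ≤ (j) := by clear * - y14; omega
    have kk135 : (j3 + 2) ≤ (j) := by clear * - y14 ev n1p n4p n5p; omega
    have kk136 : (j + j3 + 2 * ph + 2) ≤ (2 * Q) := by clear * - z13; omega
    have kk137 : (j + 1) ≤ (h) := by clear * - b0 b1 z13; omega
    have kk138 : (i) ≤ (de + ph) := by clear * - y13 y9; omega
    have kk139 : (j) ≤ (Q) := by clear * - y2; omega
    have kk140 : (0) ≤ (j3 + 1) := by clear * - y5 y6; omega
    have kk141 : (j3) ≤ (j) := by clear * - y14; omega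
    have kk142 : (0) ≤ (ph) := by clear * - y9; omega
    have r143 : (2 * i + j3 - 2 * n - j - ph) % 2 = 0 := by clear * - ev n1p n4p n5p; omega
    have r144 : (j - j3) % 2 = 0 := by clear * - ev n1p n4p n5p; omega
    clear * - al a1 s2 u2 AL1 kk134 kk135 kk136 kk137 kk138 kk139 kk140 kk141 kk142 r143 r144
    exact midP al (j - j3) (2 * i + j3 - 2 * n - j - ph) (i + j3 - n - j + 1) (i + j3 - n - Q + 1) (i - n) (by omega) (fun t h1 h2 => (cE (cE (ab u2 al (-1) t ((i + j3 - n) - t) (by omega)) (pb (show Par W (n + i - j - ph) (n + i - ph) (j + ph - i) from fun t h1 h2 => (cE (sh al (-2) t (t + (-2 * n)) (by omega)) (cE (cE (qf AL1 al (-1) (t + (-2 * n)) (t + (h + ph - n)) (by omega)) (pb a1 al 0 (t + (h + ph - n)) (t + (j + ph - n - i)) (by omega))) (sh al 1 (t + (j + ph - n - i)) (t + (j + ph - i)) (by omega))))) al (-1) ((i + j3 - n) - t) ((2 * i + j3 - j - ph) - t) (by omega))) (sh al (-2) ((2 * i + j3 - j - ph) - t) ((2 * i + j3 - 2 * n - j - ph) - t) (by omega))))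 (fun t h1 h2 => (cE (cII (ab u2 al (-1) t ((i + j3 - n) - t) (by omega)) (qa s2 al 0 ((i + j3 - n) - t) (t + (n + j - j3)) (by omega))) (sh al (-1) (t + (n + j - j3)) (t + (j - j3)) (by omega))))
  · exact rz2_8 al hy a1 a2 s1 s2 u1 u2 GG AL0 AL1 BE T2 n1 n4 n5 (by clear * - b0; omega) (by clear * - b1; omega) (by clear * - b2; omega) (by clear * - b3; omega) (by clear * - b4; omega) (by clear * - z13; omega)

theorem rz2_6 {W : ℤ → G} {n Q i j h de j3 ph : ℤ} (al : AL W n Q)
    (hy : (0) ≤ (i) ∧ (i) ≤ (j) ∧ (j + 1) ≤ (Q) ∧ (i) ≤ (j3) ∧ (j3 + 1) ≤ (Q) ∧ (0) ≤ (de) ∧ (de + 1) ≤ (j3) ∧ (Q + j3) ≤ (i + h + de) ∧ (j + 1) ≤ (h) ∧ (0) ≤ (ph) ∧ (ph + 1) ≤ (h) ∧ (3 * h + j3 + 2 * ph) ≤ (n + i) ∧ (3 * j3 + 1) ≤ (i + h + 2 * de) ∧ (i + 1) ≤ (de) ∧ (j3 + 1) ≤ (j))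
    (a1 : Par W (0) (j) (i + h - j))
    (a2 : Par W (Q + j - i - h) (j) (i + h - j))
    (s1 : Ant W (0) (i) (i + j))
    (s2 : Ant W (j + 1) (Q) (i + j))
    (u1 : Ant W (0) (i) (i + j3))
    (u2 : Ant W (j3 + 1) (Q) (i + j3))
    (GG : Par W (i + 1) (h + de + ph) (h))
    (AL0 : Par W (i - ph + 1) (de) (ph))
    (AL1 : Par W (i - h - ph + 1) (de) (h + ph))
    (BE : Par W (de + 1) (j3) (i + h - j3))
    (T2 : Ant W (Q) (i + h + de - j3) (i + 2 * h + 2 * de + ph - j3))
    (n1 : Nd W (j) (i) (i + h))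
    (n4 : Nd W (h + de + ph) (i + h + de - j3) (de))
    (n5 : Nd W (j3) (i) (i + h))
    (b0 : (i + 1) ≤ (ph))
    (b1 : (2 * Q) ≤ (i + h + j3 + ph + 1))
    (b2 : (i + ph) ≤ (j3 + 1))
    (b3 : (2 * j + 1) ≤ (i + h + j3)) : False := by
  have ev := al.ev
  obtain ⟨y0, y1, y2, y3, y4, y5, y6, y7, y8, y9, y10, y11, y12, y13, y14⟩ := id hy
  have n1p := And.intro n1.p1 n1.p2
  have n4p := And.intro n4.p1 n4.p2
  have n5p := And.intro n5.p1 n5.p2
  by_cases z11 : (Q + j3) ≤ (j + 2 * de + 2)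
  · by_cases z12 : (de + ph + 1) ≤ (i + h)
    · by_cases v4 : (2 * de + ph + 1) ≤ (Q + j3)
      · have kk85 : (i + 1) ≤ (de + ph) := by clear * - y13 y9; omega
        have kk86 : (1) ≤ (h) := by clear * - b0 b3 v4 y14 z11; omega
        have kk87 : (j + 1) ≤ (i + h) := by clear * - b3 y14; omega
        have kk88 : (0) ≤ (j) := by clear * - y14 y5 y6; omega
        have kk89 : (0) ≤ (de) := by clear * - y5; omega
        have kk90 : (de + 1) ≤ (i + h) := by clear * - y9 z12; omega
        have kk91 : (0) ≤ (de + ph) := by clear * - y5 y9; omega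
        have kk92 : (de + ph + 1) ≤ (i + h) := by clear * - z12; omega
        have kk93 : (Q + j3) ≤ (j + 2 * de + 2) := by clear * - z11; omega
        have kk94 : (i) ≤ (de + ph) := by clear * - y13 y9; omega
        have kk95 : (i + de + 1) ≤ (Q + j3) := by clear * - v4 y13 y9; omega
        have kk96 : (0) ≤ (ph) := by clear * - y9; omega
        have kk97 : (i + 1) ≤ (ph) := by clear * - b0; omega
        have kk98 : (de) ≤ (i + h) := by clear * - y9 z12; omega
        have kk99 : (de + ph) ≤ (i + h) := by clear * - z12; omega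
        have kk100 : (0) ≤ (de + ph + 1) := by clear * - y5 y9; omega
        have kk101 : (de) ≤ (j3) := by clear * - y6; omega
        have kk102 : (2 * de + ph + 1) ≤ (Q + j3) := by clear * - v4; omega
        have kk103 : (0) ≤ (Q) := by clear * - v4 y4 y5 y9; omega
        have r104 : (ph) % 2 = 0 := by clear * - ev n1p n4p n5p; omega
        have r105 : (i + h - j) % 2 = 0 := by clear * - ev n1p n4p n5p; omega
        have r106 : (i + h + 2 * de + ph - j3) % 2 = 0 := by clear * - ev n1p n4p n5p; omega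
        clear * - al a1 GG AL0 T2 n4 kk85 kk86 kk87 kk88 kk89 kk90 kk91 kk92 kk93 kk94 kk95 kk96 kk97 kk98 kk99 kk100 kk101 kk102 kk103 r104 r105 r106
        exact ivt al.ninv (0) (j) (i + h - j) (0) (de) (ph) (de) (de + ph) 0 (fun t h1 h2 => (qf a1 al 0 t (t + (i + h - j)) (by omega))) (fun t h1 h2 => (qf AL0 al 0 t (t + (ph)) (by omega))) (fun hh => n4.f0 (rEE (pb GG al 0 (h + de + ph) (de + ph) (by omega)) (sh al 0 (de) (de) (by omega)) (Eq.symm (Eq.symm hh)))) (by omega) (de + ph + 1) (i + h + 2 * de + ph - Q - j3 + 1) (i + h + 2 * de + ph - j3) 1 0 (fun t h1 h2 => (cI (qf GG al 0 t (t + (h)) (by omega)) (ab T2 al 0 (t + (h)) ((i + h + 2 * de + ph - j3) - t) (by omega)))) (by omega)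
      · have kk107 : (i + 1) ≤ (de + ph) := by clear * - y13 y9; omega
        have kk108 : (1) ≤ (h) := by clear * - b2 b3 y14 y9; omega
        have kk109 : (j + 1) ≤ (i + h) := by clear * - b3 y14; omega
        have kk110 : (0) ≤ (j) := by clear * - y14 y5 y6; omega
        have kk111 : (0) ≤ (de) := by clear * - y5; omega
        have kk112 : (de + 1) ≤ (i + h) := by clear * - y9 z12; omega
        have kk113 : (0) ≤ (de + ph) := by clear * - y5 y9; omega
        have kk114 : (de + ph + 1) ≤ (i + h) := by clear * - z12; omega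
        have kk115 : (ph) ≤ (j + 1) := by clear * - b2 y0 y14; omega
        have kk116 : (i) ≤ (de + ph) := by clear * - y13 y9; omega
        have kk117 : (i + de + 1) ≤ (Q + j3) := by clear * - b2 v4 y4 y6; omega
        have kk118 : (0) ≤ (ph) := by clear * - y9; omega
        have kk119 : (i + 1) ≤ (ph) := by clear * - b0; omega
        have kk120 : (de) ≤ (i + h) := by clear * - y9 z12; omega
        have kk121 : (de + ph) ≤ (i + h) := by clear * - z12; omega
        have kk122 : (0) ≤ (de + ph + 1) := by clear * - y5 y9; omega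
        have kk123 : (de) ≤ (j3) := by clear * - y6; omega
        have kk124 : (j3) ≤ (2 * de + ph + 1) := by clear * - v4 y4 y5 y9; omega
        have kk125 : (Q + j3) ≤ (2 * de + ph + 1) := by clear * - v4; omega
        have r126 : (ph) % 2 = 0 := by clear * - ev n1p n4p n5p; omega
        have r127 : (i + h - j) % 2 = 0 := by clear * - ev n1p n4p n5p; omega
        have r128 : (i + h + 2 * de + ph - j3) % 2 = 0 := by clear * - ev n1p n4p n5p; omega
        clear * - al a1 GG AL0 T2 n4 kk107 kk108 kk109 kk110 kk111 kk112 kk113 kk114 kk115 kk116 kk117 kk118 kk119 kk120 kk121 kk122 kk123 kk124 kk125 r126 r127 r128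
        exact ivt al.ninv (0) (j) (i + h - j) (0) (de) (ph) (de) (de + ph) 0 (fun t h1 h2 => (qf a1 al 0 t (t + (i + h - j)) (by omega))) (fun t h1 h2 => (qf AL0 al 0 t (t + (ph)) (by omega))) (fun hh => n4.f0 (rEE (pb GG al 0 (h + de + ph) (de + ph) (by omega)) (sh al 0 (de) (de) (by omega)) (Eq.symm (Eq.symm hh)))) (by omega) (de + ph + 1) (i + h) (i + h + 2 * de + ph - j3) 1 0 (fun t h1 h2 => (cI (qf GG al 0 t (t + (h)) (by omega)) (ab T2 al 0 (t + (h)) ((i + h + 2 * de + ph - j3) - t) (by omega)))) (by omega)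
    · have kk129 : (i + h + 1) ≤ (j + ph) := by clear * - y14 y6 z12; omega
      have kk130 : (j + ph + 1) ≤ (n + i + h) := by clear * - b2 b3 y11 y14 y9; omega
      have kk131 : (ph) ≤ (i + h) := by clear * - b2 b3 y0 y14; omega
      have kk132 : (j + 1) ≤ (h) := by clear * - y8; omega
      have kk133 : (i + h) ≤ (de + ph) := by clear * - z12; omega
      clear * - al a1 AL0 kk129 kk130 kk131 kk132 kk133
      exact al.ubP (j + ph - i - h) (by omega) (by omega) fun t h1 h2 => (cE (sh al (-1) t (t + (-n)) (by omega)) (cE (qf AL0 al (-1) (t + (-n)) (t + (ph)) (by omega)) (pb a1 al 0 (t + (ph)) (t + (j + ph - i - h)) (by omega))))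
  · exact rz2_7 al hy a1 a2 s1 s2 u1 u2 GG AL0 AL1 BE T2 n1 n4 n5 (by clear * - b0; omega) (by clear * - b1; omega) (by clear * - b2; omega) (by clear * - b3; omega) (by clear * - z11; omega)

theorem rz2_5 {W : ℤ → G} {n Q i j h de j3 ph : ℤ} (al : AL W n Q)
    (hy : (0) ≤ (i) ∧ (i) ≤ (j) ∧ (j + 1) ≤ (Q) ∧ (i) ≤ (j3) ∧ (j3 + 1) ≤ (Q) ∧ (0) ≤ (de) ∧ (de + 1) ≤ (j3) ∧ (Q + j3) ≤ (i + h + de) ∧ (j + 1) ≤ (h) ∧ (0) ≤ (ph) ∧ (ph + 1) ≤ (h) ∧ (3 * h + j3 + 2 * ph) ≤ (n + i) ∧ (3 * j3 + 1) ≤ (i + h + 2 * de) ∧ (i + 1) ≤ (de) ∧ (j3 + 1) ≤ (j))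
    (a1 : Par W (0) (j) (i + h - j))
    (a2 : Par W (Q + j - i - h) (j) (i + h - j))
    (s1 : Ant W (0) (i) (i + j))
    (s2 : Ant W (j + 1) (Q) (i + j))
    (u1 : Ant W (0) (i) (i + j3))
    (u2 : Ant W (j3 + 1) (Q) (i + j3))
    (GG : Par W (i + 1) (h + de + ph) (h))
    (AL0 : Par W (i - ph + 1) (de) (ph))
    (AL1 : Par W (i - h - ph + 1) (de) (h + ph))
    (BE : Par W (de + 1) (j3) (i + h - j3))
    (T2 : Ant W (Q) (i + h + de - j3) (i + 2 * h + 2 * de + ph - j3))
    (n1 : Nd W (j) (i) (i + h))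
    (n4 : Nd W (h + de + ph) (i + h + de - j3) (de))
    (n5 : Nd W (j3) (i) (i + h))
    (b0 : (i + 1) ≤ (ph))
    (b1 : (2 * Q) ≤ (i + h + j3 + ph + 1))
    (b2 : (i + ph) ≤ (j3 + 1))
    (b3 : (i + h + j3) ≤ (2 * j)) : False := by
  have ev := al.ev
  obtain ⟨y0, y1, y2, y3, y4, y5, y6, y7, y8, y9, y10, y11, y12, y13, y14⟩ := id hy
  have n1p := And.intro n1.p1 n1.p2
  have n4p := And.intro n4.p1 n4.p2
  have n5p := And.intro n5.p1 n5.p2
  by_cases z7 : (2 * j) ≤ (i + h + j3)
  · have kk36 : (i + h + j3) ≤ (2 * j + de) := by clear * - b3 y5; omega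
    have kk37 : (de + 1) ≤ (j3) := by clear * - y6; omega
    have kk38 : (i + h + j3) ≤ (2 * j) := by clear * - b3; omega
    have kk39 : (2 * j) ≤ (i + h + j3) := by clear * - z7; omega
    have kk40 : (j) ≤ (i + h) := by clear * - y14 z7; omega
    clear * - al a1 n4 kk36 kk37 kk38 kk39 kk40
    exact n4.f1 (cE (pb a1 al 0 (i + h + de - j3) (j + de - j3) (by omega)) (pb a1 al 0 (j + de - j3) (de) (by omega)))
  · by_cases z8 : (2 * i + 2 * h + j3) ≤ (3 * j + 2 * de + ph)
    · by_cases z9 : (2 * h + j3) ≤ (3 * j + ph)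
      · by_cases z10 : (i + h + 2) ≤ (j + 2 * ph)
        · by_cases v3 : (j3 + ph) ≤ (Q)
          · have kk41 : (j + 1) ≤ (i + h) := by clear * - y2 y6 y7; omega
            have kk42 : (i + h + 2) ≤ (j + 2 * ph) := by clear * - z10; omega
            have kk43 : (i + h) ≤ (j + 2 * j3 + 2 * ph) := by clear * - y5 y6 z10; omega
            have kk44 : (i + 2) ≤ (j + h) := by clear * - y10 z10; omega
            have kk45 : (j3 + ph) ≤ (Q) := by clear * - v3; omega
            have kk46 : (i) ≤ (de) := by clear * - y13; omega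
            have kk47 : (0) ≤ (i + 1) := by clear * - y0; omega
            have kk48 : (j3 + ph) ≤ (i + h) := by clear * - v3 y6 y7; omega
            have r49 : (i + j3 + ph - 2 * n) % 2 = 0 := by clear * - ev n1p n4p n5p; omega
            have r50 : (i + h - j) % 2 = 0 := by clear * - ev n1p n4p n5p; omega
            clear * - al a1 u2 AL0 kk41 kk42 kk43 kk44 kk45 kk46 kk47 kk48 r49 r50
            exact midP al (i + h - j) (i + j3 + ph - 2 * n) (i - n + 1) (-n) (i + h - n) (by omega) (fun t h1 h2 => (cE (cI (pb AL0 al (-1) t (t + (n - ph)) (by omega)) (ab u2 al 0 (t + (n - ph)) ((i + j3 + ph - n) - t) (by omega))) (sh al (-1) ((i + j3 + ph - n) - t) ((i + j3 + ph - 2 * n) - t) (by omega)))) (fun t h1 h2 => (cE (qf a1 al (-1) t (t + (n + i + h - j)) (by omega)) (sh al (-1) (t + (n + i + h - j)) (t + (i + h - j)) (by omega))))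
          · have kk51 : (j + 1) ≤ (i + h) := by clear * - y2 y6 y7; omega
            have kk52 : (i + h + 2 * j3 + 2) ≤ (2 * Q + j) := by clear * - y14 y2 z7; omega
            have kk53 : (i + h) ≤ (2 * Q + j) := by clear * - b1 b2 y14 y2 z9; omega
            have kk54 : (i + 2 * j3 + 2 * ph + 2) ≤ (2 * Q + j + h) := by clear * - b2 y10 y4 z7; omega
            have kk55 : (Q) ≤ (j3 + ph) := by clear * - v3; omega
            have kk56 : (i) ≤ (de) := by clear * - y13; omega
            have kk57 : (Q) ≤ (i + j3 + ph + 1) := by clear * - v3 y0; omega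
            have kk58 : (Q) ≤ (i + h) := by clear * - y6 y7; omega
            have r59 : (i + j3 + ph - 2 * n) % 2 = 0 := by clear * - ev n1p n4p n5p; omega
            have r60 : (i + h - j) % 2 = 0 := by clear * - ev n1p n4p n5p; omega
            clear * - al a1 u2 AL0 kk51 kk52 kk53 kk54 kk55 kk56 kk57 kk58 r59 r60
            exact midP al (i + h - j) (i + j3 + ph - 2 * n) (i + j3 + ph - n - Q + 1) (-n) (i + h - n) (by omega) (fun t h1 h2 => (cE (cI (pb AL0 al (-1) t (t + (n - ph)) (by omega)) (ab u2 al 0 (t + (n - ph)) ((i + j3 + ph - n) - t) (by omega))) (sh al (-1) ((i + j3 + ph - n) - t) ((i + j3 + ph - 2 * n) - t) (by omega)))) (fun t h1 h2 => (cE (qf a1 al (-1) t (t + (n + i + h - j)) (by omega)) (sh al (-1) (t + (n + i + h - j)) (t + (i + h - j)) (by omega))))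
        · have kk61 : (j + 1) ≤ (i + h) := by clear * - b1 y2 z10 z7; omega
          have kk62 : (i + h + 2 * j3 + 2 * ph + 2) ≤ (2 * Q + j) := by clear * - y2 z10 z7; omega
          have kk63 : (0) ≤ (i + j + h) := by clear * - y14 y6 y9 z10 z8; omega
          have kk64 : (2 * j3 + 2 * ph + 2) ≤ (i + j + h) := by clear * - y8 z10 z7 z9; omega
          have kk65 : (i) ≤ (de) := by clear * - y13; omega
          have kk66 : (Q) ≤ (h + j3 + ph) := by clear * - b1 b2 y10 y9; omega
          have kk67 : (0) ≤ (j3 + 1) := by clear * - y5 y6; omega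
          have kk68 : (0) ≤ (ph) := by clear * - y9; omega
          have r69 : (i + h + j3 + ph - 2 * n) % 2 = 0 := by clear * - ev n1p n4p n5p; omega
          have r70 : (i + h - j) % 2 = 0 := by clear * - ev n1p n4p n5p; omega
          clear * - al a1 u2 AL1 kk61 kk62 kk63 kk64 kk65 kk66 kk67 kk68 r69 r70
          exact midP al (i + h - j) (i + h + j3 + ph - 2 * n) (j3 + ph - n + 1) (-n) (i + h - n) (by omega) (fun t h1 h2 => (cE (cE (qa u2 al (-1) t ((i + j3 - n) - t) (by omega)) (qf AL1 al 0 ((i + j3 - n) - t) ((i + h + j3 + ph - n) - t) (by omega))) (sh al (-1) ((i + h + j3 + ph - n) - t) ((i + h + j3 + ph - 2 * n) - t) (by omega)))) (fun t h1 h2 => (cE (qf a1 al (-1) t (t + (n + i + h - j)) (by omega)) (sh al (-1) (t + (n + i + h - j)) (t + (i + h - j)) (by omega))))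
      · have kk71 : (j + j3 + ph + 2) ≤ (2 * Q) := by clear * - y0 y2 z7 z9; omega
        have kk72 : (j3 + ph + 1) ≤ (j) := by clear * - y0 z7 z9; omega
        have kk73 : (Q) ≤ (j + j3 + ph + 1) := by clear * - b1 y5 y6 y9 z7; omega
        have kk74 : (Q) ≤ (h + j3 + ph) := by clear * - b1 b2 y10 y9; omega
        have kk75 : (0) ≤ (ph) := by clear * - y9; omega
        have kk76 : (i) ≤ (de + ph) := by clear * - y9 z8 z9; omega
        have r77 : (j + j3 + ph - 2 * n) % 2 = 0 := by clear * - ev n1p n4p n5p; omega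
        clear * - al a1 u2 AL1 kk71 kk72 kk73 kk74 kk75 kk76 r77
        obtain ⟨t, ht⟩ : ∃ t, 2 * t = (j + j3 + ph - 2 * n) := ⟨(j + j3 + ph - 2 * n) / 2, by omega⟩
        exact al.ninv t (cE (cI (cE (qf a1 al (-1) t (t + (n + i + h - j)) (by omega)) (pb AL1 al 0 (t + (n + i + h - j)) (t + (n + i - j - ph)) (by omega))) (ab u2 al 0 (t + (n + i - j - ph)) ((j + j3 + ph - n) - t) (by omega))) (sh al (-1) ((j + j3 + ph - n) - t) t (by omega)))
    · have kk78 : (j + j3 + ph + 2) ≤ (2 * Q) := by clear * - y2 y5 z7 z8; omega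
      have kk79 : (j3 + ph + 1) ≤ (j) := by clear * - y5 z7 z8; omega
      have kk80 : (Q) ≤ (j + j3 + ph + 1) := by clear * - b1 y5 y6 y9 z7; omega
      have kk81 : (Q) ≤ (h + j3 + ph) := by clear * - b1 b2 y10 y9; omega
      have kk82 : (0) ≤ (ph) := by clear * - y9; omega
      have kk83 : (i) ≤ (de + ph) := by clear * - y13 y9; omega
      have r84 : (j + j3 + ph - 2 * n) % 2 = 0 := by clear * - ev n1p n4p n5p; omega
      clear * - al a1 u2 AL1 kk78 kk79 kk80 kk81 kk82 kk83 r84
      obtain ⟨t, ht⟩ : ∃ t, 2 * t = (j + j3 + ph - 2 * n) := ⟨(j + j3 + ph - 2 * n) / 2, by omega⟩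
      exact al.ninv t (cE (cI (cE (qf a1 al (-1) t (t + (n + i + h - j)) (by omega)) (pb AL1 al 0 (t + (n + i + h - j)) (t + (n + i - j - ph)) (by omega))) (ab u2 al 0 (t + (n + i - j - ph)) ((j + j3 + ph - n) - t) (by omega))) (sh al (-1) ((j + j3 + ph - n) - t) t (by omega)))

theorem rz2_4 {W : ℤ → G} {n Q i j h de j3 ph : ℤ} (al : AL W n Q)
    (hy : (0) ≤ (i) ∧ (i) ≤ (j) ∧ (j + 1) ≤ (Q) ∧ (i) ≤ (j3) ∧ (j3 + 1) ≤ (Q) ∧ (0) ≤ (de) ∧ (de + 1) ≤ (j3) ∧ (Q + j3) ≤ (i + h + de) ∧ (j + 1) ≤ (h) ∧ (0) ≤ (ph) ∧ (ph + 1) ≤ (h) ∧ (3 * h + j3 + 2 * ph) ≤ (n + i) ∧ (3 * j3 + 1) ≤ (i + h + 2 * de) ∧ (i + 1) ≤ (de) ∧ (j3 + 1) ≤ (j))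
    (a1 : Par W (0) (j) (i + h - j))
    (a2 : Par W (Q + j - i - h) (j) (i + h - j))
    (s1 : Ant W (0) (i) (i + j))
    (s2 : Ant W (j + 1) (Q) (i + j))
    (u1 : Ant W (0) (i) (i + j3))
    (u2 : Ant W (j3 + 1) (Q) (i + j3))
    (GG : Par W (i + 1) (h + de + ph) (h))
    (AL0 : Par W (i - ph + 1) (de) (ph))
    (AL1 : Par W (i - h - ph + 1) (de) (h + ph))
    (BE : Par W (de + 1) (j3) (i + h - j3))
    (T2 : Ant W (Q) (i + h + de - j3) (i + 2 * h + 2 * de + ph - j3))
    (n1 : Nd W (j) (i) (i + h))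
    (n4 : Nd W (h + de + ph) (i + h + de - j3) (de))
    (n5 : Nd W (j3) (i) (i + h))
    (b0 : (i + 1) ≤ (ph))
    (b1 : (2 * Q) ≤ (i + h + j3 + ph + 1))
    (b2 : (i + ph) ≤ (j3 + 1)) : False := by
  have ev := al.ev
  obtain ⟨y0, y1, y2, y3, y4, y5, y6, y7, y8, y9, y10, y11, y12, y13, y14⟩ := id hy
  have n1p := And.intro n1.p1 n1.p2
  have n4p := And.intro n4.p1 n4.p2
  have n5p := And.intro n5.p1 n5.p2
  by_cases z6 : (i + h + j3) ≤ (2 * j)
  · exact rz2_5 al hy a1 a2 s1 s2 u1 u2 GG AL0 AL1 BE T2 n1 n4 n5 (by clear * - b0; omega) (by clear * - b1; omega) (by clear * - b2; omega) (by clear * - z6; omega)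
  · exact rz2_6 al hy a1 a2 s1 s2 u1 u2 GG AL0 AL1 BE T2 n1 n4 n5 (by clear * - b0; omega) (by clear * - b1; omega) (by clear * - b2; omega) (by clear * - z6; omega)

theorem rz2_3 {W : ℤ → G} {n Q i j h de j3 ph : ℤ} (al : AL W n Q)
    (hy : (0) ≤ (i) ∧ (i) ≤ (j) ∧ (j + 1) ≤ (Q) ∧ (i) ≤ (j3) ∧ (j3 + 1) ≤ (Q) ∧ (0) ≤ (de) ∧ (de + 1) ≤ (j3) ∧ (Q + j3) ≤ (i + h + de) ∧ (j + 1) ≤ (h) ∧ (0) ≤ (ph) ∧ (ph + 1) ≤ (h) ∧ (3 * h + j3 + 2 * ph) ≤ (n + i) ∧ (3 * j3 + 1) ≤ (i + h + 2 * de) ∧ (i + 1) ≤ (de) ∧ (j3 + 1) ≤ (j))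
    (a1 : Par W (0) (j) (i + h - j))
    (a2 : Par W (Q + j - i - h) (j) (i + h - j))
    (s1 : Ant W (0) (i) (i + j))
    (s2 : Ant W (j + 1) (Q) (i + j))
    (u1 : Ant W (0) (i) (i + j3))
    (u2 : Ant W (j3 + 1) (Q) (i + j3))
    (GG : Par W (i + 1) (h + de + ph) (h))
    (AL0 : Par W (i - ph + 1) (de) (ph))
    (AL1 : Par W (i - h - ph + 1) (de) (h + ph))
    (BE : Par W (de + 1) (j3) (i + h - j3))
    (T2 : Ant W (Q) (i + h + de - j3) (i + 2 * h + 2 * de + ph - j3))
    (n1 : Nd W (j) (i) (i + h))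
    (n4 : Nd W (h + de + ph) (i + h + de - j3) (de))
    (n5 : Nd W (j3) (i) (i + h))
    (b0 : (i + 1) ≤ (ph))
    (b1 : (2 * Q) ≤ (i + h + j3 + ph + 1))
    (b2 : (j3 + 2) ≤ (i + ph)) : False := by
  have ev := al.ev
  obtain ⟨y0, y1, y2, y3, y4, y5, y6, y7, y8, y9, y10, y11, y12, y13, y14⟩ := id hy
  have n1p := And.intro n1.p1 n1.p2
  have n4p := And.intro n4.p1 n4.p2
  have n5p := And.intro n5.p1 n5.p2
  by_cases z4 : (i + j3 + ph + 1) ≤ (2 * Q)
  · by_cases v1 : (Q) ≤ (j3 + ph)
    · have kk11 : (j3 + 2) ≤ (i + ph) := by clear * - b2; omega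
      have kk12 : (i + j3 + ph + 1) ≤ (2 * Q) := by clear * - z4; omega
      have kk13 : (i) ≤ (de) := by clear * - y13; omega
      have kk14 : (Q) ≤ (j3 + ph) := by clear * - v1; omega
      have r15 : (i + j3 + ph - 2 * n) % 2 = 0 := by clear * - ev n1p n4p n5p; omega
      clear * - al u2 AL0 kk11 kk12 kk13 kk14 r15
      obtain ⟨t, ht⟩ : ∃ t, 2 * t = (i + j3 + ph - 2 * n) := ⟨(i + j3 + ph - 2 * n) / 2, by omega⟩
      exact al.ninv t (cE (cE (qa u2 al (-1) t ((i + j3 - n) - t) (by omega)) (qf AL0 al 0 ((i + j3 - n) - t) ((i + j3 + ph - n) - t) (by omega))) (sh al (-1) ((i + j3 + ph - n) - t) t (by omega)))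
    · have kk16 : (j3 + 2) ≤ (i + ph) := by clear * - b2; omega
      have kk17 : (i + 1) ≤ (j3 + ph) := by clear * - b2 y13 y6; omega
      have kk18 : (i) ≤ (de) := by clear * - y13; omega
      have kk19 : (j3 + ph) ≤ (Q) := by clear * - v1; omega
      have r20 : (i + j3 + ph - 2 * n) % 2 = 0 := by clear * - ev n1p n4p n5p; omega
      clear * - al u2 AL0 kk16 kk17 kk18 kk19 r20
      obtain ⟨t, ht⟩ : ∃ t, 2 * t = (i + j3 + ph - 2 * n) := ⟨(i + j3 + ph - 2 * n) / 2, by omega⟩
      exact al.ninv t (cE (cE (qa u2 al (-1) t ((i + j3 - n) - t) (by omega)) (qf AL0 al 0 ((i + j3 - n) - t) ((i + j3 + ph - n) - t) (by omega))) (sh al (-1) ((i + j3 + ph - n) - t) t (by omega)))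
  · by_cases z5 : (i + h + 1) ≤ (j + ph)
    · by_cases v2 : (i + h) ≤ (de + ph)
      · have kk21 : (i + h + 1) ≤ (j + ph) := by clear * - z5; omega
        have kk22 : (j + ph + 1) ≤ (n + i + h) := by clear * - b2 v2 y11 y14 y5 y6 y8; linarith
        have kk23 : (ph) ≤ (i + h) := by clear * - y0 y10; omega
        have kk24 : (j + 1) ≤ (h) := by clear * - y8; omega
        have kk25 : (i + h) ≤ (de + ph) := by clear * - v2; omega
        clear * - al a1 AL0 kk21 kk22 kk23 kk24 kk25
        exact al.ubP (j + ph - i - h) (by omega) (by omega) fun t h1 h2 => (cE (qf AL0 al 0 t (t + (ph)) (by omega)) (pb a1 al 0 (t + (ph)) (t + (j + ph - i - h)) (by omega)))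
      · have kk26 : (i + h + 1) ≤ (j + ph) := by clear * - z5; omega
        have kk27 : (j + ph + 1) ≤ (n + i + h) := by clear * - b2 v2 y11 y5 y6 y8 z5; linarith
        have kk28 : (0) ≤ (de) := by clear * - y5; omega
        have kk29 : (j + 1) ≤ (h) := by clear * - y8; omega
        have kk30 : (de + ph) ≤ (i + h) := by clear * - v2; omega
        clear * - al a1 AL0 kk26 kk27 kk28 kk29 kk30
        exact al.ubP (j + ph - i - h) (by omega) (by omega) fun t h1 h2 => (cE (qf AL0 al 0 t (t + (ph)) (by omega)) (pb a1 al 0 (t + (ph)) (t + (j + ph - i - h)) (by omega)))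
    · have kk31 : (j3 + ph + 2) ≤ (i + h) := by clear * - y14 z5 ev n1p n4p n5p; omega
      have kk32 : (2 * Q + j3) ≤ (i + h + 2 * de + ph + 1) := by clear * - b2 y13 y14 z4 z5; omega
      have kk33 : (i) ≤ (de + ph) := by clear * - y13 y9; omega
      have kk34 : (i + de + 1) ≤ (Q + j3) := by clear * - y13 y4 y6; omega
      have r35 : (i + h + 2 * de + ph - 2 * n - j3) % 2 = 0 := by clear * - ev n1p n4p n5p; omega
      clear * - al GG T2 kk31 kk32 kk33 kk34 r35
      obtain ⟨t, ht⟩ : ∃ t, 2 * t = (i + h + 2 * de + ph - 2 * n - j3) := ⟨(i + h + 2 * de + ph - 2 * n - j3) / 2, by omega⟩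
      exact al.ninv t (cE (cI (qf GG al (-1) t (t + (n + h)) (by omega)) (ab T2 al 0 (t + (n + h)) ((i + h + 2 * de + ph - n - j3) - t) (by omega))) (sh al (-1) ((i + h + 2 * de + ph - n - j3) - t) t (by omega)))

theorem rz2_2 {W : ℤ → G} {n Q i j h de j3 ph : ℤ} (al : AL W n Q)
    (hy : (0) ≤ (i) ∧ (i) ≤ (j) ∧ (j + 1) ≤ (Q) ∧ (i) ≤ (j3) ∧ (j3 + 1) ≤ (Q) ∧ (0) ≤ (de) ∧ (de + 1) ≤ (j3) ∧ (Q + j3) ≤ (i + h + de) ∧ (j + 1) ≤ (h) ∧ (0) ≤ (ph) ∧ (ph + 1) ≤ (h) ∧ (3 * h + j3 + 2 * ph) ≤ (n + i) ∧ (3 * j3 + 1) ≤ (i + h + 2 * de) ∧ (i + 1) ≤ (de) ∧ (j3 + 1) ≤ (j))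
    (a1 : Par W (0) (j) (i + h - j))
    (a2 : Par W (Q + j - i - h) (j) (i + h - j))
    (s1 : Ant W (0) (i) (i + j))
    (s2 : Ant W (j + 1) (Q) (i + j))
    (u1 : Ant W (0) (i) (i + j3))
    (u2 : Ant W (j3 + 1) (Q) (i + j3))
    (GG : Par W (i + 1) (h + de + ph) (h))
    (AL0 : Par W (i - ph + 1) (de) (ph))
    (AL1 : Par W (i - h - ph + 1) (de) (h + ph))
    (BE : Par W (de + 1) (j3) (i + h - j3))
    (T2 : Ant W (Q) (i + h + de - j3) (i + 2 * h + 2 * de + ph - j3))
    (n1 : Nd W (j) (i) (i + h))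
    (n4 : Nd W (h + de + ph) (i + h + de - j3) (de))
    (n5 : Nd W (j3) (i) (i + h))
    (b0 : (i + 1) ≤ (ph))
    (b1 : (2 * Q) ≤ (i + h + j3 + ph + 1)) : False := by
  have ev := al.ev
  obtain ⟨y0, y1, y2, y3, y4, y5, y6, y7, y8, y9, y10, y11, y12, y13, y14⟩ := id hy
  have n1p := And.intro n1.p1 n1.p2
  have n4p := And.intro n4.p1 n4.p2
  have n5p := And.intro n5.p1 n5.p2
  by_cases z3 : (j3 + 2) ≤ (i + ph)
  · exact rz2_3 al hy a1 a2 s1 s2 u1 u2 GG AL0 AL1 BE T2 n1 n4 n5 (by clear * - b0; omega) (by clear * - b1; omega) (by clear * - z3; omega)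
  · exact rz2_4 al hy a1 a2 s1 s2 u1 u2 GG AL0 AL1 BE T2 n1 n4 n5 (by clear * - b0; omega) (by clear * - b1; omega) (by clear * - z3; omega)

theorem rz2_1 {W : ℤ → G} {n Q i j h de j3 ph : ℤ} (al : AL W n Q)
    (hy : (0) ≤ (i) ∧ (i) ≤ (j) ∧ (j + 1) ≤ (Q) ∧ (i) ≤ (j3) ∧ (j3 + 1) ≤ (Q) ∧ (0) ≤ (de) ∧ (de + 1) ≤ (j3) ∧ (Q + j3) ≤ (i + h + de) ∧ (j + 1) ≤ (h) ∧ (0) ≤ (ph) ∧ (ph + 1) ≤ (h) ∧ (3 * h + j3 + 2 * ph) ≤ (n + i) ∧ (3 * j3 + 1) ≤ (i + h + 2 * de) ∧ (i + 1) ≤ (de) ∧ (j3 + 1) ≤ (j))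
    (a1 : Par W (0) (j) (i + h - j))
    (a2 : Par W (Q + j - i - h) (j) (i + h - j))
    (s1 : Ant W (0) (i) (i + j))
    (s2 : Ant W (j + 1) (Q) (i + j))
    (u1 : Ant W (0) (i) (i + j3))
    (u2 : Ant W (j3 + 1) (Q) (i + j3))
    (GG : Par W (i + 1) (h + de + ph) (h))
    (AL0 : Par W (i - ph + 1) (de) (ph))
    (AL1 : Par W (i - h - ph + 1) (de) (h + ph))
    (BE : Par W (de + 1) (j3) (i + h - j3))
    (T2 : Ant W (Q) (i + h + de - j3) (i + 2 * h + 2 * de + ph - j3))
    (n1 : Nd W (j) (i) (i + h))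
    (n4 : Nd W (h + de + ph) (i + h + de - j3) (de))
    (n5 : Nd W (j3) (i) (i + h))
    (b0 : (i + 1) ≤ (ph)) : False := by
  have ev := al.ev
  obtain ⟨y0, y1, y2, y3, y4, y5, y6, y7, y8, y9, y10, y11, y12, y13, y14⟩ := id hy
  have n1p := And.intro n1.p1 n1.p2
  have n4p := And.intro n4.p1 n4.p2
  have n5p := And.intro n5.p1 n5.p2
  by_cases z2 : (i + h + j3 + ph + 2) ≤ (2 * Q)
  · have kk6 : (j3 + 2) ≤ (i + h + ph) := by clear * - y12 y6 y9; omega
    have kk7 : (i + h + j3 + ph + 1) ≤ (2 * Q) := by clear * - z2; omega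
    have kk8 : (i) ≤ (de) := by clear * - y13; omega
    have kk9 : (Q) ≤ (h + j3 + ph) := by clear * - y13 y6 y7 y9; omega
    have r10 : (i + h + j3 + ph - 2 * n) % 2 = 0 := by clear * - ev n1p n4p n5p; omega
    clear * - al u2 AL1 kk6 kk7 kk8 kk9 r10
    obtain ⟨t, ht⟩ : ∃ t, 2 * t = (i + h + j3 + ph - 2 * n) := ⟨(i + h + j3 + ph - 2 * n) / 2, by omega⟩
    exact al.ninv t (cE (cE (qa u2 al (-1) t ((i + j3 - n) - t) (by omega)) (qf AL1 al 0 ((i + j3 - n) - t) ((i + h + j3 + ph - n) - t) (by omega))) (sh al (-1) ((i + h + j3 + ph - n) - t) t (by omega)))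
  · exact rz2_2 al hy a1 a2 s1 s2 u1 u2 GG AL0 AL1 BE T2 n1 n4 n5 (by clear * - b0; omega) (by clear * - z2; omega)

end Pool.Agent.MP_a38735_al.WL
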