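import Pool.Agent.MP_a38735_al.WT

set_option autoImplicit false
set_option linter.unusedVariables false

namespace Pool.Agent.MP_a38735_al.WL

variable {G : Type*} [Group G]

theorem t1c_21 {W : ℤ → G} {n Q i j k l i2 l2 i3 : ℤ} (al : AL W n Q)
    (hy : (0) ≤ (i) ∧ (i) ≤ (j) ∧ (j + 1) ≤ (Q) ∧ (Q) ≤ (k) ∧ (k + 1) ≤ (n) ∧ (Q) ≤ (i + l + 1) ∧ (k + l + 2) ≤ (n) ∧ (Q) ≤ (i2) ∧ (i2) ≤ (i + l + 1) ∧ (Q) ≤ (i2 + l2 + 1) ∧ (i2 + l2 + 2) ≤ (n) ∧ (n) ≤ (k + l + l2 + 2) ∧ (k + l + l2 + 3) ≤ (n + Q) ∧ (0) ≤ (i3) ∧ (n + i3) ≤ (k + l + l2 + 2) ∧ (k + i2 + l2 + 2) ≤ (n + j + i3) ∧ (j + i3 + 1) ≤ (k) ∧ (k + i2 + l2 + 2) ≤ (n + i3) ∧ (i + 2 * i2 + 1) ≤ (2 * Q + k) ∧ (i + l + 1) ≤ (i2 + l2) ∧ (i2 + l2 + 1) ≤ (k + l) ∧ (i3 + 1) ≤ (i))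
    (a1 : Par W (0) (j) (k - j))
    (a2 : Par W (Q + j - k) (j) (k - j))
    (s1 : Ant W (0) (i) (i + j))
    (s2 : Ant W (j + 1) (Q) (i + j))
    (b : Par W (i + 1) (i + l + 1) (k - i))
    (tt : Ant W (Q) (i2) (i + l + i2 + 1))
    (c : Par W (i2 + 1) (i2 + l2 + 1) (k + l - i2 + 1))
    (u1 : Ant W (0) (i3) (k + l + l2 + i3 - n + 2))
    (u2 : Ant W (k + l + l2 - n + 3) (Q) (k + l + l2 + i3 - n + 2))
    (D1 : Par W (i3 + 1) (Q) (i2 + l2 - i3 + 1))
    (D2 : Par W (i2 + l2 + 2) (n) (i3 - i2 - l2 - 1))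
    {L : ℤ} (mx : ∀ a b g, 0 < g → g < n → Par W a b g → b - a ≤ L)
    (hL : L ≤ (n - j - 3) ∧ L ≤ (n + Q - k - 3) ∧ L ≤ (n - l - 3) ∧ L ≤ (n + i - k - 2) ∧ L ≤ (n - l2 - 3) ∧ L ≤ (n + i3 - Q - 2) ∧ L ≤ (i2 + l2 - 1) ∧ L ≤ (n + i2 - k - l - 3) ∧ L ≤ (Q + i2 + l2 - l - i3 - 3))
    (bd0 : Bd W n L (j) (i) (k))
    (bd2 : Bd W n L (k + l + l2 - n + 2) (i3) (i2 + l2 + 1))
    (n1 : Nd W (j) (i) (k))
    (n2 : Nd W (i + l + 1) (i2) (k + l + 1))
    (n3 : Nd W (k + l + l2 - n + 2) (i3) (i2 + l2 + 1))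
    (b0 : (l + i3 + 3) ≤ (Q + i2))
    (b1 : (k + l + i3 + 2) ≤ (2 * Q + l2))
    (b2 : (2 * n + 2 * Q + i3) ≤ (k + l + 2 * i2 + 3 * l2 + 5))
    (b3 : (Q + 2 * i2 + l2) ≤ (k + 2 * l + i3 + 2))
    (b4 : (2 * Q + 2 * k + l + 1) ≤ (n + 2 * i + j + i2))
    (b5 : (2 * i + l + i2 + 3) ≤ (2 * Q + k))
    (b6 : (2 * Q + k) ≤ (i + i2 + l2 + i3 + 1))
    (b7 : (n + i) ≤ (2 * k + l))
    (b8 : (2 * i + k + l + i3 + 1) ≤ (2 * i2 + l2))
    (b9 : (n + 2 * j) ≤ (2 * i2 + 2 * l2))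
    (b10 : (3 * k + l + 1) ≤ (n + i + j + i2))
    (b11 : (i + j + 2 * i2 + l2 + 2) ≤ (2 * k + l + i3)) : False := by
  have ev := al.ev
  obtain ⟨y0, y1, y2, y3, y4, y5, y6, y7, y8, y9, y10, y11, y12, y13, y14, y15, y16, y17, y18, y19, y20, y21⟩ := id hy
  have n1p := And.intro n1.p1 n1.p2
  have n2p := And.intro n2.p1 n2.p2
  have n3p := And.intro n3.p1 n3.p2
  by_cases z56 : (j + k + l + i3 + 1) ≤ (i + 2 * i2 + l2)
  · by_cases z57 : (2 * i2 + 2 * l2 + 4) ≤ (n + 2 * Q)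
    · by_cases z58 : (2 * k + l) ≤ (n + i)
      · have kk809 : (i2 + l2 + 1) ≤ (k + l) := by clear * - b0 b3; omega
        have kk810 : (k + l + i3 + 1) ≤ (Q + i2 + l2) := by clear * - b10 b2 b5 z56 z57; omega
        have kk811 : (i + 1) ≤ (k) := by clear * - b10 b3 b4 b5 b7 z56; omega
        have kk812 : (0) ≤ (l) := by clear * - b10 b11 b2 b4 b5 b7 b9 z56 z57; linarith
        have kk813 : (i + i2 + l2 + 1) ≤ (k + l + i3) := by clear * - b10 b11 b7; omega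
        have kk814 : (i3) ≤ (i2 + l2) := by clear * - b10 b11 b2 b4 b5 b7 b9 z56 z57; linarith
        have kk815 : (i + 1) ≤ (i2) := by clear * - b10 b11 b3 b4 b5 b7 b8 z56; linarith
        have kk816 : (i2) ≤ (k + l) := by clear * - b10 b11 b2 b4 b5 b7 b9 z57; linarith
        have kk817 : (2 * k + l) ≤ (n + i) := by clear * - z58; omega
        have kk818 : (i2 + l2) ≤ (k + l) := by clear * - b0 b3; omega
        have kk819 : (n) ≤ (k + l + l2 + 2) := by clear * - b1 b3 b4 b6 b7 z56 z57; linarith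
        have kk820 : (i + i2 + l2) ≤ (k + l + i3) := by clear * - b10 b11 b7; omega
        have kk821 : (i) ≤ (i2) := by clear * - b10 b11 b3 b4 b5 b7 b8 z56; linarith
        have kk822 : (k + l + i3) ≤ (2 * i2 + l2) := by clear * - b10 b11 b2 b4 b5 b7 b8 z56 z57; linarith
        have kk823 : (n + i2) ≤ (2 * k + 2 * l + 2) := by clear * - b2 b6 b7 z57; omega
        have r824 : (2 * i2 + l2 - k - l - i3) % 2 = 0 := by clear * - ev n1p n2p n3p; omega
        have r825 : (k - i) % 2 = 0 := by clear * - ev n1p n2p n3p; omega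
        clear * - al b c D1 D2 n2 kk809 kk810 kk811 kk812 kk813 kk814 kk815 kk816 kk817 kk818 kk819 kk820 kk821 kk822 kk823 r824 r825
        exact ivt0 (n + i + 1) (n + i + l + 1) (k - i) (n + k + l + i3 - i2 - l2 + 1) (2 * n + i3 - i2 - l2 - 1) (2 * i2 + l2 - k - l - i3) (n + k + l + i3 - i2 - l2) (n + i2) 0 (fun t h1 h2 => (cE (qf b al 1 t (t + (k - n - i)) (by omega)) (sh al 1 (t + (k - n - i)) (t + (k - i)) (by omega)))) (fun t h1 h2 => (cE (sh al (-2) t (t + (-2 * n)) (by omega)) (cE (qf (show Par W (k + l + i3 - i2 - l2 + 1) (n + i3 - i2 - l2 - 1) (2 * i2 + l2 - k - l - i3) from fun t h1 h2 => (cE (sh al (-1) t (t + (-n)) (by omega)) (cE (pb D2 al (-1) (t + (-n)) (t + (i2 + l2 - i3 + 1)) (by omega)) (pb c al 0 (t + (i2 + l2 - i3 + 1)) (t + (2 * i2 + l2 - k - l - i3)) (by omega))))) al (-1) (t + (-2 * n)) (t + (2 * i2 + l2 - n - k - l - i3)) (by omega)) (sh al 1 (t + (2 * i2 + l2 - n - k - l - i3)) (t + (2 *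 i2 + l2 - k - l - i3)) (by omega))))) (fun hh => n2.f1 (rEE (sh al 1 (i2) (n + i2) (by omega)) (cE (pb D1 al 0 (k + l + 1) (k + l + i3 - i2 - l2) (by omega)) (sh al 1 (k + l + i3 - i2 - l2) (n + k + l + i3 - i2 - l2) (by omega))) (Eq.symm (Eq.symm hh)))) (by omega) (by omega)
      · by_cases z59 : (i + k + l + 2 * i2 + 3 * l2 + 6) ≤ (2 * n + 2 * Q + j + i3)
        · by_cases z60 : (2 * Q + i + j + 2 * i2 + l2) ≤ (3 * k + l + 3 * i3)
          · by_cases z61 : (Q + 2 * k + l) ≤ (n + i + i2)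
            · have kk826 : (i2 + l2 + 1) ≤ (k + l) := by clear * - b0 b3; omega
              have kk827 : (k + l + i3 + 1) ≤ (Q + i2 + l2) := by clear * - b10 b2 b5 z56 z57; omega
              have kk828 : (i + 1) ≤ (k) := by clear * - b10 b3 b4 b5 z56 z58; omega
              have kk829 : (0) ≤ (l) := by clear * - b10 b11 b2 z56 z57 z58 z59 z60; linarith
              have kk830 : (i + 1) ≤ (i2) := by clear * - b10 b3 b5 z56 z58 z61; omega
              have kk831 : (i2) ≤ (k + l) := by clear * - b10 b2 z56 z57 z59 z60; omega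
              have kk832 : (i + i2 + l2 + 1) ≤ (k + l + i3) := by clear * - b10 b11 z58; omega
              have kk833 : (i3) ≤ (i2 + l2) := by clear * - b10 b2 z56 z57 z59 z60; omega
              have kk834 : (Q + 2 * k + l) ≤ (n + i + i2) := by clear * - z61; omega
              have kk835 : (i2 + l2) ≤ (k + l) := by clear * - b0 b3; omega
              have kk836 : (n) ≤ (k + l + l2 + 2) := by clear * - b1 b3 b4 b6 z56 z57 z58; linarith
              have kk837 : (i) ≤ (i2) := by clear * - b10 b3 b5 z56 z58 z61; omega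
              have kk838 : (i + i2 + l2) ≤ (k + l + i3) := by clear * - b10 b11 z58; omega
              have kk839 : (n + i3) ≤ (k + l + i2 + l2 + 2) := by clear * - b10 b2 z56 z57 z58 z59 z60; linarith
              have kk840 : (n + i2) ≤ (2 * k + 2 * l + 2) := by clear * - b2 b6 z57 z58; omega
              have kk841 : (i + 1) ≤ (Q) := by clear * - b10 b3 b5 z56 z58; omega
              have kk842 : (i + i2 + 1) ≤ (Q + k) := by clear * - b10 b2 b5 z56 z57 z59 z60; linarith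
              have kk843 : (0) ≤ (l + 1) := by clear * - b10 b11 b2 z56 z57 z58 z59 z60; linarith
              have kk844 : (i2) ≤ (k + l + 1) := by clear * - b10 b2 z56 z57 z59 z60; omega
              have r845 : (k + l + i3 - 2 * i2 - l2) % 2 = 0 := by clear * - ev n1p n2p n3p; omega
              have r846 : (k - i) % 2 = 0 := by clear * - ev n1p n2p n3p; omega
              have r847 : (i + l + i2 - 2 * n + 1) % 2 = 0 := by clear * - ev n1p n2p n3p; omega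
              clear * - al b tt c D1 D2 n2 kk826 kk827 kk828 kk829 kk830 kk831 kk832 kk833 kk834 kk835 kk836 kk837 kk838 kk839 kk840 kk841 kk842 kk843 kk844 r845 r846 r847
              exact ivt al.ninv (i - n + 1) (i + l - n + 1) (k - i) (i2 - n + 1) (i2 - k - l - 1) (k + l + i3 - 2 * i2 - l2) (i2 - n) (k + l + i3 - n - i2 - l2) 0 (fun t h1 h2 => (cE (qf b al (-1) t (t + (n + k - i)) (by omega)) (sh al (-1) (t + (n + k - i)) (t + (k - i)) (by omega)))) (fun t h1 h2 => (cE (pb (show Par W (k + l + i3 - i2 - l2 + 1) (n + i3 - i2 - l2 - 1) (2 * i2 + l2 - k - l - i3) from fun t h1 h2 => (cE (sh al (-1) t (t + (-n)) (by omega)) (cE (pb D2 al (-1) (t + (-n)) (t + (i2 + l2 - i3 + 1)) (by omega)) (pb c al 0 (t + (i2 + l2 - i3 + 1)) (t + (2 * i2 + l2 - k - l - i3)) (by omega))))) al (-1) t (t + (n + k + l + i3 - 2 * i2 - l2)) (by omega)) (sh al (-1) (t + (n + k + l + i3 - 2 * i2 - l2)) (t + (k + l + i3 - 2 * i2 - l2)) (by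 omega)))) (fun hh => n2.f1 (rEE (sh al (-1) (i2) (i2 - n) (by omega)) (cE (pb D1 al 0 (k + l + 1) (k + l + i3 - i2 - l2) (by omega)) (sh al (-1) (k + l + i3 - i2 - l2) (k + l + i3 - n - i2 - l2) (by omega))) (Eq.symm hh))) (by omega) (Q - n) (i2 - n) (i + l + i2 - 2 * n + 1) 0 (-1) (fun t h1 h2 => (cI (sh al 1 t (t + (n)) (by omega)) (cE (qa tt al 0 (t + (n)) ((i + l + i2 - n + 1) - t) (by omega)) (sh al (-1) ((i + l + i2 - n + 1) - t) ((i + l + i2 - 2 * n + 1) - t) (by omega))))) (by omega)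
            · by_cases v25 : (n) ≤ (j + l + l2 + 3)
              · have kk848 : (j + l + l2 + 4) ≤ (n + i3) := by clear * - z56 z59 z60; omega
                have kk849 : (n) ≤ (j + l + l2 + i3 + 3) := by clear * - v25 z56 z59 z60; omega
                have kk850 : (n) ≤ (j + l + l2 + 3) := by clear * - v25; omega
                have kk851 : (l + l2 + i3 + 3) ≤ (n) := by clear * - b11 b4 b8 z56 z57 z61; omega
                have r852 : (j + l + l2 + i3 - 3 * n + 2) % 2 = 0 := by clear * - ev n1p n2p n3p; omega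
                clear * - al a1 u1 kk848 kk849 kk850 kk851 r852
                obtain ⟨t, ht⟩ : ∃ t, 2 * t = (j + l + l2 + i3 - 3 * n + 2) := ⟨(j + l + l2 + i3 - 3 * n + 2) / 2, by omega⟩
                exact al.ninv t (cE (cI (qf a1 al (-1) t (t + (n + k - j)) (by omega)) (ab u1 al 0 (t + (n + k - j)) ((j + l + l2 + i3 - 2 * n + 2) - t) (by omega))) (sh al (-1) ((j + l + l2 + i3 - 2 * n + 2) - t) t (by omega)))
              · have kk853 : (n) ≤ (j + l + l2 + i3 + 2) := by clear * - b10 b6 z61; omega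
                have kk854 : (n) ≤ (j + l + l2 + i3 + 3) := by clear * - b10 b6 z61; omega
                have kk855 : (j + l + l2 + 3) ≤ (n) := by clear * - v25; omega
                have kk856 : (l + l2 + i3 + 3) ≤ (n) := by clear * - b11 b4 b8 z56 z57 z61; omega
                have r857 : (j + l + l2 + i3 - 3 * n + 2) % 2 = 0 := by clear * - ev n1p n2p n3p; omega
                clear * - al a1 u1 kk853 kk854 kk855 kk856 r857
                obtain ⟨t, ht⟩ : ∃ t, 2 * t = (j + l + l2 + i3 - 3 * n + 2) := ⟨(j + l + l2 + i3 - 3 * n + 2) / 2, by omega⟩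
                exact al.ninv t (cE (cI (qf a1 al (-1) t (t + (n + k - j)) (by omega)) (ab u1 al 0 (t + (n + k - j)) ((j + l + l2 + i3 - 2 * n + 2) - t) (by omega))) (sh al (-1) ((j + l + l2 + i3 - 2 * n + 2) - t) t (by omega)))
          · have kk858 : (3 * k + l + 2) ≤ (n + i + j + i2) := by clear * - b6 z59 z60; omega
            have kk859 : (i + j + i2) ≤ (3 * k + l) := by clear * - b11 b4 b5 b6 z56 z57 z58 z59 z60; linarith
            have kk860 : (n + i + i2) ≤ (3 * k + l + 1) := by clear * - b1 b11 b4 z58; omega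
            have kk861 : (i2) ≤ (k) := by clear * - b1 b11 b4 z58; omega
            have kk862 : (i + j + 1) ≤ (k) := by clear * - b10 b11 b4 b5 b9 z58 z60; linarith
            have kk863 : (2 * k) ≤ (i + i2 + l2 + 1) := by clear * - b11 b6 y13 z60; omega
            have kk864 : (k) ≤ (i + l + 1) := by clear * - b11 b6 z57 z58 z60; omega
            clear * - al a1 b c kk858 kk859 kk860 kk861 kk862 kk863 kk864
            exact al.ubP (n + i + j + i2 - 3 * k - l - 1) (by omega) (by omega) fun t h1 h2 => (cE (cE (pb c al (-1) t (t + (n + i2 - k - l - 1)) (by omega)) (pb b al 0 (t + (n + i2 - k - l - 1)) (t + (n + i + i2 - 2 * k - l - 1)) (by omega))) (pb a1 al 0 (t + (n + i + i2 - 2 * k - l - 1)) (t + (n + i + j + i2 - 3 * k - l - 1)) (by omega)))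
        · by_cases z62 : (n + k + i3) ≤ (i + 2 * i2 + 2 * l2 + 2)
          · have kk865 : (i + 2 * i2 + l2 + 1) ≤ (2 * k + l + i3) := by clear * - b10 b11 b4 b5 z57 z58 z59; linarith
            have kk866 : (2 * k + l + i3 + 1) ≤ (n + i + 2 * i2 + l2) := by clear * - b10 b11 b4 b5 b8 z56 z57 z58 z62; linarith
            have kk867 : (2 * k + l + 2) ≤ (n + i2) := by clear * - b10 b11 b4 b5 b8 z56 z57 z58 z62; linarith
            have kk868 : (i3) ≤ (i) := by clear * - y21; omega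
            have kk869 : (i2) ≤ (k) := by clear * - b10 b11 b4 b5 z57 z58 z59; linarith
            have kk870 : (n + i3) ≤ (i + l + i2 + l2 + 2) := by clear * - b10 z57 z58 z59; omega
            have kk871 : (n + k + i3) ≤ (i + 2 * i2 + 2 * l2 + 2) := by clear * - z62; omega
            clear * - al b c D2 kk865 kk866 kk867 kk868 kk869 kk870 kk871
            exact al.ubP (2 * k + l + i3 - i - 2 * i2 - l2) (by omega) (by omega) fun t h1 h2 => (cE (cE (cE (qf D2 al (-1) t (t + (n + i3 - i2 - l2 - 1)) (by omega)) (qf b al 0 (t + (n + i3 - i2 - l2 - 1)) (t + (n + k + i3 - i - i2 - l2 - 1)) (by omega))) (qf c al 0 (t + (n + k + i3 - i - i2 - l2 - 1)) (t + (n + 2 * k + l + i3 - i - 2 * i2 - l2)) (by omega))) (sh al (-1) (t + (n + 2 * k + l + i3 - i - 2 * i2 - l2)) (t + (2 * k + l + i3 - i - 2 * i2 - l2)) (by omega)))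
          · have kk872 : (4 * k + 2 * l + i3 + 2) ≤ (n + 2 * i + 3 * i2 + l2) := by clear * - b10 z56; omega
            have kk873 : (n + 2 * Q + 2 * k + i3) ≤ (2 * i + 3 * i2 + 3 * l2 + 3) := by clear * - b10 z59 ev n1p n2p n3p; omega
            have kk874 : (10 * k + 4 * l + 3 * i3 + 1) ≤ (n + 4 * i + 9 * i2 + 5 * l2) := by clear * - b10 b11 b5 z56 z57 z58 z59 z62; linarith
            have kk875 : (n + 6 * k + 4 * l + 3 * i3) ≤ (2 * i + 7 * i2 + 7 * l2 + 1) := by clear * - b10 b5 z56 z59; omega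
            have kk876 : (i2) ≤ (k) := by clear * - b10 b11 b4 b5 z57 z58 z59; linarith
            have kk877 : (i2 + l2) ≤ (k + l) := by clear * - b10 z57 z58 z59 z62; omega
            have kk878 : (n) ≤ (k + l + l2 + 2) := by clear * - b10 b5 b6 z57 z58 z59 z62; linarith
            have kk879 : (k) ≤ (i + l + 1) := by clear * - b10 b11 z57 z58 z59; omega
            have kk880 : (i + i2 + 1) ≤ (Q + k) := by clear * - b10 b5 b6 z56 z57 z58 z59 z62; linarith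
            have kk881 : (i + i2 + l2) ≤ (k + l + i3) := by clear * - b10 b11 z58; omega
            have kk882 : (i + 2 * i2 + 2 * l2 + 2) ≤ (n + k + i3) := by clear * - z62; omega
            have kk883 : (i + 3 * i2 + 2 * l2) ≤ (3 * k + 2 * l + i3) := by clear * - b10 b5 b6 z57 z58 z59 z62; linarith
            have kk884 : (2 * i + 2 * i2 + 2 * l2 + 1) ≤ (3 * k + l + i3) := by clear * - z58 z62; omega
            have kk885 : (2 * k + l2 + 1) ≤ (n + i + i2) := by clear * - b10 b11 z56 z57 z58 z59 z62; linarith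
            have r886 : (2 * i + l + i2 - k + 1) % 2 = 0 := by clear * - ev n1p n2p n3p; omega
            have r887 : (n + 2 * i + 3 * i2 + l2 - 4 * k - 2 * l - i3 - 1) % 2 = 0 := by clear * - ev n1p n2p n3p; omega
            clear * - al b tt c D2 kk872 kk873 kk874 kk875 kk876 kk877 kk878 kk879 kk880 kk881 kk882 kk883 kk884 kk885 r886 r887
            exact midP al (n + 2 * i + 3 * i2 + l2 - 4 * k - 2 * l - i3 - 1) (2 * i + l + i2 - k + 1) (2 * k + 2 * l + i3 - 2 * i2 - 2 * l2 + 1) (4 * k + 2 * l + i3 - n - i - 3 * i2 - l2 + 2) (2 * i + 3 * i2 + 2 * l2 - 3 * k - l - i3 + 1) (by omega) (fun t h1 h2 => (cI (qf b al 0 t (t + (k - i)) (by omega)) (ab tt al 0 (t + (k - i)) ((2 * i + l + i2 - k + 1) - t) (by omega)))) (fun t h1 h2 => (cE (cE (qf (show Par W (2 * k + l - i2 + 2) (k + l + l2 + 2) (n + i + i2 - 2 * k - l - 1) from fun t h1 h2 => (cE (sh al (-1) t (t + (-n)) (by omega)) (cE (cE (pb c al (-1) (t + (-n)) (t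 + (i2 - k - l - 1)) (by omega)) (pb b al 0 (t + (i2 - k - l - 1)) (t + (i + i2 - 2 * k - l - 1)) (by omega))) (sh al 1 (t + (i + i2 - 2 * k - l - 1)) (t + (n + i + i2 - 2 * k - l - 1)) (by omega))))) al (-1) t (t + (2 * n + i + i2 - 2 * k - l - 1)) (by omega)) (qf (show Par W (k + l + i3 - i2 - l2 + 1) (n + i3 - i2 - l2 - 1) (2 * i2 + l2 - k - l - i3) from fun t h1 h2 => (cE (sh al (-1) t (t + (-n)) (by omega)) (cE (pb D2 al (-1) (t + (-n)) (t + (i2 + l2 - i3 + 1)) (by omega)) (pb c al 0 (t + (i2 + l2 - i3 + 1)) (t + (2 * i2 + l2 - k - l - i3)) (by omega))))) al 1 (t + (2 * n + i + i2 - 2 * k - l - 1)) (t + (n + i + 3 * i2 + l2 - 3 * k - 2 * l - i3 - 1)) (by omega))) (pb b al 0 (t + (n + i + 3 * i2 + l2 - 3 * k - 2 * l - i3 - 1)) (t + (n + 2 * i + 3 * i2 + l2 - 4 * k - 2 * l - i3 - 1)) (by omega))))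
    · by_cases z63 : (2 * Q + 3 * k + l + 1) ≤ (n + 2 * i + 3 * i2)
      · by_cases z64 : (2 * k + l) ≤ (n + i)
        · have kk888 : (i2 + l2 + 1) ≤ (k + l) := by clear * - b0 b3; omega
          have kk889 : (k + l + i3 + 1) ≤ (Q + i2 + l2) := by clear * - b1 b11 b4 b7 b8 z63; omega
          have kk890 : (i + 1) ≤ (k) := by clear * - b10 b3 b4 b5 b7 z56; omega
          have kk891 : (0) ≤ (l) := by clear * - b1 b10 b11 b3 b4 b7 b8 z63; linarith
          have kk892 : (i + i2 + l2 + 1) ≤ (k + l + i3) := by clear * - b10 b11 b7; omega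
          have kk893 : (i3) ≤ (i2 + l2) := by clear * - b1 b10 b11 b3 b4 b7 b8 z63; linarith
          have kk894 : (i + 1) ≤ (i2) := by clear * - b10 b3 b4 b5 b7 b8 z56 z63; linarith
          have kk895 : (i2) ≤ (k + l) := by clear * - b1 b10 b11 b3 b4 b7 b8 z63; linarith
          have kk896 : (2 * k + l) ≤ (n + i) := by clear * - z64; omega
          have kk897 : (i2 + l2) ≤ (k + l) := by clear * - b0 b3; omega
          have kk898 : (n) ≤ (k + l + l2 + 2) := by clear * - b0 b1 b3 b6 b7; omega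
          have kk899 : (i + i2 + l2) ≤ (k + l + i3) := by clear * - b10 b11 b7; omega
          have kk900 : (i) ≤ (i2) := by clear * - b10 b3 b4 b5 b7 b8 z56 z63; linarith
          have kk901 : (n + i3) ≤ (k + l + i2 + l2 + 2) := by clear * - b1 b11 b3 b4 b7 b8 z63; linarith
          have kk902 : (n + i2) ≤ (2 * k + 2 * l + 2) := by clear * - b0 b1 b3 b6 b7; omega
          have r903 : (2 * i2 + l2 - k - l - i3) % 2 = 0 := by clear * - ev n1p n2p n3p; omega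
          have r904 : (k - i) % 2 = 0 := by clear * - ev n1p n2p n3p; omega
          clear * - al b c D1 D2 n2 kk888 kk889 kk890 kk891 kk892 kk893 kk894 kk895 kk896 kk897 kk898 kk899 kk900 kk901 kk902 r903 r904
          exact ivt0 (i - n + 1) (i + l - n + 1) (k - i) (k + l + i3 - n - i2 - l2 + 1) (i3 - i2 - l2 - 1) (2 * i2 + l2 - k - l - i3) (k + l + i3 - n - i2 - l2) (i2 - n) 0 (fun t h1 h2 => (cE (qf b al (-1) t (t + (n + k - i)) (by omega)) (sh al (-1) (t + (n + k - i)) (t + (k - i)) (by omega)))) (fun t h1 h2 => (cE (sh al 2 t (t + (2 * n)) (by omega)) (cE (qf (show Par W (k + l + i3 - i2 - l2 + 1) (n + i3 - i2 - l2 - 1) (2 * i2 + l2 - k - l - i3) from fun t h1 h2 => (cE (sh al (-1) t (t + (-n)) (by omega)) (cE (pb D2 al (-1) (t + (-n)) (t + (i2 + l2 - i3 + 1)) (by omega)) (pb c al 0 (t + (i2 + l2 - i3 + 1)) (t + (2 * i2 + l2 - k - l - i3)) (by omega))))) al 1 (t + (2 * n)) (t + (n + 2 * i2 + l2 - k - l - i3))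 (by omega)) (sh al (-1) (t + (n + 2 * i2 + l2 - k - l - i3)) (t + (2 * i2 + l2 - k - l - i3)) (by omega))))) (fun hh => n2.f1 (rEE (sh al (-1) (i2) (i2 - n) (by omega)) (cE (pb D1 al 0 (k + l + 1) (k + l + i3 - i2 - l2) (by omega)) (sh al (-1) (k + l + i3 - i2 - l2) (k + l + i3 - n - i2 - l2) (by omega))) (Eq.symm (Eq.symm hh)))) (by omega) (by omega)
        · by_cases z65 : (3 * n + 4 * i + 5 * i2) ≤ (7 * k + 3 * l + 2 * l2 + 2 * i3 + 3)
          · by_cases v26 : (n + i + 3 * i2) ≤ (3 * k + 2 * l + i3 + 2)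
            · have kk905 : (n + 2 * i + i2) ≤ (3 * k + l) := by clear * - b0 b3 b5 z57; omega
              have kk906 : (2 * Q + 3 * k + l + 1) ≤ (n + 2 * i + 3 * i2) := by clear * - z63; omega
              have kk907 : (n + 2 * i + k + l + 2 * i3 + 1) ≤ (5 * i2 + 2 * l2) := by clear * - b10 b8 z56 z64; omega
              have kk908 : (n + 2 * i + l + 1) ≤ (k + i2 + 2 * l2) := by clear * - b5 z57 ev n1p n2p n3p; omega
              have kk909 : (i2 + l2) ≤ (k + l) := by clear * - b0 b3; omega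
              have kk910 : (n) ≤ (k + l + l2 + 2) := by clear * - b10 v26 z56 z64; omega
              have kk911 : (i2) ≤ (k) := by clear * - b1 b11 b4 z64; omega
              have kk912 : (2 * i2 + l2 + 1) ≤ (n + i3) := by clear * - b1 b10 b11 b4 z64; omega
              have kk913 : (k + l + i3 + 1) ≤ (Q + i2 + l2) := by clear * - b1 b11 b4 b8 z63 z64; omega
              have kk914 : (2 * k + l + 1) ≤ (n + i + i2) := by clear * - b1 b10 b11 b4 z63 z64; omega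
              have kk915 : (k + l2 + 1) ≤ (n + i) := by clear * - b0 b10 b11 b3 z56 z63 z65; linarith
              have kk916 : (n + i + 3 * i2) ≤ (3 * k + 2 * l + i3 + 2) := by clear * - v26; omega
              have kk917 : (n + i + i2) ≤ (2 * k + 2 * l + 2) := by clear * - b1 b11 b3 b4 b8 z63 z64; linarith
              have r918 : (i + 3 * i2 + l2 - k - i3 + 1) % 2 = 0 := by clear * - ev n1p n2p n3p; omega
              have r919 : (3 * k + l - n - 2 * i - i2 + 1) % 2 = 0 := by clear * - ev n1p n2p n3p; omega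
              clear * - al b tt c D2 kk905 kk906 kk907 kk908 kk909 kk910 kk911 kk912 kk913 kk914 kk915 kk916 kk917 r918 r919
              exact midP al (3 * k + l - n - 2 * i - i2 + 1) (i + 3 * i2 + l2 - k - i3 + 1) (i + l + 2) (n + 2 * i + i2 - 2 * k - l) (2 * k + l + l2 - n - i + 2) (by omega) (fun t h1 h2 => (cE (ab tt al 0 t ((i + l + i2 + 1) - t) (by omega)) (qf (show Par W (k + l + i3 - i2 - l2 + 1) (n + i3 - i2 - l2 - 1) (2 * i2 + l2 - k - l - i3) from fun t h1 h2 => (cE (sh al (-1) t (t + (-n)) (by omega)) (cE (pb D2 al (-1) (t + (-n)) (t + (i2 + l2 - i3 + 1)) (by omega)) (pb c al 0 (t + (i2 + l2 - i3 + 1)) (t + (2 * i2 + l2 - k - l - i3)) (by omega))))) al 0 ((i + l + i2 + 1) - t) ((i + 3 * i2 + l2 - k - i3 + 1) - t) (by omega)))) (fun t h1 h2 => (cE (pb (show Par W (2 * k + l - i2 + 2) (k + l + l2 + 2) (n + i + i2 - 2 * k - l - 1) from fun t h1 h2 => (cE (sh al (-1) t (t + (-n)) (by omega)) (cE (cE (pb c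 al (-1) (t + (-n)) (t + (i2 - k - l - 1)) (by omega)) (pb b al 0 (t + (i2 - k - l - 1)) (t + (i + i2 - 2 * k - l - 1)) (by omega))) (sh al 1 (t + (i + i2 - 2 * k - l - 1)) (t + (n + i + i2 - 2 * k - l - 1)) (by omega))))) al (-1) t (t + (2 * k + l - i - i2 + 1)) (by omega)) (qf b al 1 (t + (2 * k + l - i - i2 + 1)) (t + (3 * k + l - n - 2 * i - i2 + 1)) (by omega))))
            · have kk920 : (n + 2 * i + i2) ≤ (3 * k + l) := by clear * - b0 b3 v26 z65; omega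
              have kk921 : (n + 2 * Q + 3 * i2) ≤ (3 * k + 3 * l + 2 * i3 + 3) := by clear * - b3 v26 y13 y21 z65; omega
              have kk922 : (3 * n + 4 * i + i2) ≤ (5 * k + 3 * l + 2 * l2 + 3) := by clear * - b10 b2 b3 b5 z56 z64; omega
              have kk923 : (3 * n + 4 * i + 5 * i2) ≤ (7 * k + 3 * l + 2 * l2 + 2 * i3 + 3) := by clear * - z65; omega
              have kk924 : (i2 + l2) ≤ (k + l) := by clear * - b0 b3; omega
              have kk925 : (n) ≤ (k + l + l2 + 2) := by clear * - b0 b1 b3 b6 z64; omega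
              have kk926 : (i2) ≤ (k) := by clear * - b1 b11 b4 z64; omega
              have kk927 : (2 * i2 + l2 + 1) ≤ (n + i3) := by clear * - b1 b10 b11 b4 z64; omega
              have kk928 : (k + l + i3 + 1) ≤ (Q + i2 + l2) := by clear * - b1 b11 b4 b8 z63 z64; omega
              have kk929 : (2 * k + l + 1) ≤ (n + i + i2) := by clear * - b1 b10 b11 b4 z63 z64; omega
              have kk930 : (k + l2 + 1) ≤ (n + i) := by clear * - b0 b10 b11 b3 z56 z63 z65; linarith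
              have kk931 : (3 * k + 2 * l + i3 + 2) ≤ (n + i + 3 * i2) := by clear * - v26; omega
              have kk932 : (k + i3) ≤ (2 * i2) := by clear * - b1 b11 b3 b4 v26 z63 z64 z65; linarith
              have r933 : (i + 3 * i2 + l2 - k - i3 + 1) % 2 = 0 := by clear * - ev n1p n2p n3p; omega
              have r934 : (3 * k + l - n - 2 * i - i2 + 1) % 2 = 0 := by clear * - ev n1p n2p n3p; omega
              clear * - al b tt c D2 kk920 kk921 kk922 kk923 kk924 kk925 kk926 kk927 kk928 kk929 kk930 kk931 kk932 r933 r934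
              exact midP al (3 * k + l - n - 2 * i - i2 + 1) (i + 3 * i2 + l2 - k - i3 + 1) (n + 2 * i + 3 * i2 - 3 * k - l - i3) (n + 2 * i + i2 - 2 * k - l) (2 * k + l + l2 - n - i + 2) (by omega) (fun t h1 h2 => (cE (ab tt al 0 t ((i + l + i2 + 1) - t) (by omega)) (qf (show Par W (k + l + i3 - i2 - l2 + 1) (n + i3 - i2 - l2 - 1) (2 * i2 + l2 - k - l - i3) from fun t h1 h2 => (cE (sh al (-1) t (t + (-n)) (by omega)) (cE (pb D2 al (-1) (t + (-n)) (t + (i2 + l2 - i3 + 1)) (by omega)) (pb c al 0 (t + (i2 + l2 - i3 + 1)) (t + (2 * i2 + l2 - k - l - i3)) (by omega))))) al 0 ((i + l + i2 + 1) - t) ((i + 3 * i2 + l2 - k - i3 + 1) - t) (by omega)))) (fun t h1 h2 => (cE (pb (show Par W (2 * k + l - i2 + 2) (k + l + l2 + 2) (n + i + i2 - 2 * k - l - 1) from fun t h1 h2 => (cE (sh al (-1) t (t + (-n)) (by omega)) (cE (cE (pb c al (-1) (t + (-n)) (t + (i2 - k - l - 1)) (by omega)) (pb b al 0 (t + (i2 - k - l - 1)) (t + (i +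 i2 - 2 * k - l - 1)) (by omega))) (sh al 1 (t + (i + i2 - 2 * k - l - 1)) (t + (n + i + i2 - 2 * k - l - 1)) (by omega))))) al (-1) t (t + (2 * k + l - i - i2 + 1)) (by omega)) (qf b al 1 (t + (2 * k + l - i - i2 + 1)) (t + (3 * k + l - n - 2 * i - i2 + 1)) (by omega))))
          · by_cases v27 : (i + l + i2 + l2 + 2) ≤ (n + i3)
            · have kk935 : (i + 2 * i2 + l2 + 1) ≤ (2 * k + l + i3) := by clear * - b1 b10 b11 b4 z64; omega
              have kk936 : (2 * Q + 2 * k + l + i3) ≤ (i + 4 * i2 + l2) := by clear * - b2 v27 z57 z64 z65; omega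
              have kk937 : (2 * Q + 2 * k + i3) ≤ (3 * i + l + 2 * i2 + l2 + 2) := by clear * - b1 b3 b4 z56 z63 z64; omega
              have kk938 : (i + 1) ≤ (Q) := by clear * - b10 b3 b5 z56 z64; omega
              have kk939 : (i2) ≤ (i + l + 1) := by clear * - b0 b1 b3 b6; omega
              have kk940 : (i2 + l2) ≤ (k + l) := by clear * - b0 b3; omega
              have kk941 : (i + i2 + l2) ≤ (k + l + i3) := by clear * - b10 b11 z64; omega
              have kk942 : (i + l + i2 + l2 + 2) ≤ (n + i3) := by clear * - v27; omega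
              have kk943 : (i + i2) ≤ (k + i3) := by clear * - b1 b10 b11 b4 b6 v27 z64; linarith
              have kk944 : (i + i2 + 1) ≤ (Q + k) := by clear * - b1 b10 b11 b4 b8 z63 z64; linarith
              have r945 : (k + l + i2 - 2 * n + 1) % 2 = 0 := by clear * - ev n1p n2p n3p; omega
              have r946 : (2 * k + l + i3 - i - 2 * i2 - l2) % 2 = 0 := by clear * - ev n1p n2p n3p; omega
              clear * - al b tt c D2 kk935 kk936 kk937 kk938 kk939 kk940 kk941 kk942 kk943 kk944 r945 r946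
              exact midP al (2 * k + l + i3 - i - 2 * i2 - l2) (k + l + i2 - 2 * n + 1) (Q + k - n - i) (i2 - n + 1) (k + l - n + 1) (by omega) (fun t h1 h2 => (cE (cI (pb b al (-1) t (t + (n + i - k)) (by omega)) (qa tt al 0 (t + (n + i - k)) ((k + l + i2 - n + 1) - t) (by omega))) (sh al (-1) ((k + l + i2 - n + 1) - t) ((k + l + i2 - 2 * n + 1) - t) (by omega)))) (fun t h1 h2 => (cE (cE (cE (qf c al (-1) t (t + (n + k + l - i2 + 1)) (by omega)) (qf D2 al 0 (t + (n + k + l - i2 + 1)) (t + (n + k + l + i3 - 2 * i2 - l2)) (by omega))) (qf b al 0 (t + (n + k + l + i3 - 2 * i2 - l2)) (t + (n + 2 * k + l + i3 - i - 2 * i2 - l2)) (by omega))) (sh al (-1) (t + (n + 2 * k + l + i3 - i - 2 * i2 - l2)) (t + (2 * k + l + i3 - i - 2 * i2 - l2)) (by omega))))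
            · have kk947 : (i + 2 * i2 + l2 + 1) ≤ (2 * k + l + i3) := by clear * - b10 b11 b4 b5 v27 z64; omega
              have kk948 : (2 * Q + 2 * k + l + i3) ≤ (i + 4 * i2 + l2) := by clear * - b0 b3 b5 z57 z65; omega
              have kk949 : (2 * Q + 2 * k + i3) ≤ (3 * i + l + 2 * i2 + l2 + 2) := by clear * - b10 b11 b4 b5 b8 v27 z63; linarith
              have kk950 : (2 * Q + 2 * k + l + l2 + 2) ≤ (2 * n + i + i3) := by clear * - b10 b11 b4 b5 b8 v27 z63; linarith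
              have kk951 : (i + 1) ≤ (Q) := by clear * - b10 b11 b4 b5 b8 v27 z63 z64; linarith
              have kk952 : (i2) ≤ (i + l + 1) := by clear * - b10 b11 b4 b5 v27; omega
              have kk953 : (i2 + l2) ≤ (k + l) := by clear * - b0 b3; omega
              have kk954 : (i + i2 + l2) ≤ (k + l + i3) := by clear * - b10 b11 z64; omega
              have kk955 : (n) ≤ (k + l + l2 + 2) := by clear * - b10 b11 b4 b5 b6 v27 z64; linarith
              have kk956 : (n + i3) ≤ (i + l + i2 + l2 + 2) := by clear * - v27; omega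
              have kk957 : (2 * i + l + 2 * i2 + l2 + 3) ≤ (n + Q + k + i3) := by clear * - b10 b11 b4 b5 b8 v27 z63 z64; linarith
              have kk958 : (i + i2 + 1) ≤ (Q + k) := by clear * - b10 b11 b4 b5 b8 v27 z63 z64; linarith
              have r959 : (k + l + i2 - 2 * n + 1) % 2 = 0 := by clear * - ev n1p n2p n3p; omega
              have r960 : (2 * k + l + i3 - i - 2 * i2 - l2) % 2 = 0 := by clear * - ev n1p n2p n3p; omega
              clear * - al b tt c D2 kk947 kk948 kk949 kk950 kk951 kk952 kk953 kk954 kk955 kk956 kk957 kk958 r959 r960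
              exact midP al (2 * k + l + i3 - i - 2 * i2 - l2) (k + l + i2 - 2 * n + 1) (Q + k - n - i) (i2 - n + 1) (k + i3 - i - i2 - l2 - 1) (by omega) (fun t h1 h2 => (cE (cI (pb b al (-1) t (t + (n + i - k)) (by omega)) (qa tt al 0 (t + (n + i - k)) ((k + l + i2 - n + 1) - t) (by omega))) (sh al (-1) ((k + l + i2 - n + 1) - t) ((k + l + i2 - 2 * n + 1) - t) (by omega)))) (fun t h1 h2 => (cE (cE (cE (qf c al (-1) t (t + (n + k + l - i2 + 1)) (by omega)) (qf D2 al 0 (t + (n + k + l - i2 + 1)) (t + (n + k + l + i3 - 2 * i2 - l2)) (by omega))) (qf b al 0 (t + (n + k + l + i3 - 2 * i2 - l2)) (t + (n + 2 * k + l + i3 - i - 2 * i2 - l2)) (by omega))) (sh al (-1) (t + (n + 2 * k + l + i3 - i - 2 * i2 - l2)) (t + (2 * k + l + i3 - i - 2 * i2 - l2)) (by omega))))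
      · by_cases z66 : (3 * k + 2 * l + 2 * i3 + 1) ≤ (i + 4 * i2 + 2 * l2)
        · by_cases v28 : (i + l + 1) ≤ (k)
          · have kk961 : (3 * k + 2 * l + 2 * i3 + 1) ≤ (i + 4 * i2 + 2 * l2) := by clear * - z66; omega
            have kk962 : (2 * Q + k) ≤ (3 * i + 2 * l + 2) := by clear * - b3 y13 y21 z66; omega
            have kk963 : (3 * k + 2 * i3) ≤ (3 * i + 2 * i2 + 2 * l2) := by clear * - b10 b3 b4 b7 z56 z63; omega
            have kk964 : (3 * k + 2 * l + 4) ≤ (2 * n + i) := by clear * - b10 b11 b4 b7 z56 z63 z66; linarith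
            have kk965 : (i2 + l2) ≤ (k + l) := by clear * - b0 b3; omega
            have kk966 : (n) ≤ (k + l + l2 + 2) := by clear * - b0 b10 b3 b6 b9 z57 z63; linarith
            have kk967 : (i2) ≤ (k) := by clear * - b10 b11 b4 b7 z56 z63; omega
            have kk968 : (i + l + 1) ≤ (k) := by clear * - v28; omega
            have kk969 : (i + i2 + 1) ≤ (Q + k) := by clear * - b10 b11 b4 b7 z56 z63 z66; linarith
            have kk970 : (i3) ≤ (i2) := by clear * - b0 b10 b11 b3 z56 z57 z63; linarith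
            have kk971 : (2 * k + l + i3) ≤ (3 * i2 + l2) := by clear * - b10 b11 b7 z66; omega
            have kk972 : (k + l + i3) ≤ (2 * i2 + l2) := by clear * - b10 b11 b4 b7 z56 z63 z66; linarith
            have kk973 : (i + i2 + l2) ≤ (k + l + i3) := by clear * - b10 b11 b7; omega
            have kk974 : (i + l + i2 + l2 + 2) ≤ (n + i3) := by clear * - b10 b11 v28; omega
            have r975 : (2 * i + l + i2 - k + 1) % 2 = 0 := by clear * - ev n1p n2p n3p; omega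
            have r976 : (i + 4 * i2 + 2 * l2 - 3 * k - 2 * l - 2 * i3) % 2 = 0 := by clear * - ev n1p n2p n3p; omega
            clear * - al b tt c D2 kk961 kk962 kk963 kk964 kk965 kk966 kk967 kk968 kk969 kk970 kk971 kk972 kk973 kk974 r975 r976
            exact midP al (i + 4 * i2 + 2 * l2 - 3 * k - 2 * l - 2 * i3) (2 * i + l + i2 - k + 1) (k + l + i3 - i2 - l2 + 1) (k + l + i3 - i2 - l2 + 1) (n + i + i2 - 2 * k - l - 1) (by omega) (fun t h1 h2 => (cI (qf b al 0 t (t + (k - i)) (by omega)) (ab tt al 0 (t + (k - i)) ((2 * i + l + i2 - k + 1) - t) (by omega)))) (fun t h1 h2 => (cE (cE (cE (qf (show Par W (k + l + i3 - i2 - l2 + 1) (n + i3 - i2 - l2 - 1) (2 * i2 + l2 - k - l - i3) from fun t h1 h2 => (cE (sh al (-1) t (t + (-n)) (by omega)) (cE (pb D2 al (-1) (t + (-n)) (t + (i2 + l2 - i3 + 1)) (by omega)) (pb c al 0 (t + (i2 + l2 - i3 + 1)) (t + (2 * i2 + l2 - k - l - i3)) (by omega))))) al 0 t (t + (2 * i2 + l2 -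 k - l - i3)) (by omega)) (pb D2 al 0 (t + (2 * i2 + l2 - k - l - i3)) (t + (3 * i2 + 2 * l2 - k - l - 2 * i3 + 1)) (by omega))) (qf (show Par W (2 * k + l - i2 + 2) (k + l + l2 + 2) (n + i + i2 - 2 * k - l - 1) from fun t h1 h2 => (cE (sh al (-1) t (t + (-n)) (by omega)) (cE (cE (pb c al (-1) (t + (-n)) (t + (i2 - k - l - 1)) (by omega)) (pb b al 0 (t + (i2 - k - l - 1)) (t + (i + i2 - 2 * k - l - 1)) (by omega))) (sh al 1 (t + (i + i2 - 2 * k - l - 1)) (t + (n + i + i2 - 2 * k - l - 1)) (by omega))))) al 0 (t + (3 * i2 + 2 * l2 - k - l - 2 * i3 + 1)) (t + (n + i + 4 * i2 + 2 * l2 - 3 * k - 2 * l - 2 * i3)) (by omega))) (sh al (-1) (t + (n + i + 4 * i2 + 2 * l2 - 3 * k - 2 * l - 2 * i3)) (t + (i + 4 * i2 + 2 * l2 - 3 * k - 2 * l - 2 * i3)) (by omega))))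
          · by_cases v29 : (i + l + i2 + l2 + 2) ≤ (n + i3)
            · have kk977 : (3 * k + 2 * l + 2 * i3 + 1) ≤ (i + 4 * i2 + 2 * l2) := by clear * - z66; omega
              have kk978 : (2 * Q + k) ≤ (3 * i + 2 * l + 2) := by clear * - b6 b7 v28 v29 y21; omega
              have kk979 : (3 * k + 2 * i3) ≤ (3 * i + 2 * i2 + 2 * l2) := by clear * - b4 b7 v28 v29 z56 z63 z66; linarith
              have kk980 : (3 * k + 2 * l + 4) ≤ (2 * n + i) := by clear * - b4 b7 v28 v29 z56 z63 z66; linarith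
              have kk981 : (i2 + l2) ≤ (k + l) := by clear * - b0 b3; omega
              have kk982 : (n) ≤ (k + l + l2 + 2) := by clear * - b10 b4 b7 b9 v28 v29 z56 z63; linarith
              have kk983 : (i2) ≤ (k) := by clear * - b4 b7 v28 v29 z56 z63; omega
              have kk984 : (k) ≤ (i + l + 1) := by clear * - v28; omega
              have kk985 : (i + i2 + 1) ≤ (Q + k) := by clear * - b10 b4 b7 v28 v29 z56 z63 z66; linarith
              have kk986 : (i3) ≤ (i2) := by clear * - b0 b11 b4 b7 v28 v29 z63 z66; linarith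
              have kk987 : (2 * k + l + i3) ≤ (3 * i2 + l2) := by clear * - b7 v28 v29 z66; omega
              have kk988 : (k + l + i3) ≤ (2 * i2 + l2) := by clear * - b4 b7 v28 v29 z56 z63 z66; linarith
              have kk989 : (2 * i + i2 + l2 + 1) ≤ (2 * k + i3) := by clear * - b7 v29; omega
              have kk990 : (i + l + i2 + l2 + 2) ≤ (n + i3) := by clear * - v29; omega
              have r991 : (2 * i + l + i2 - k + 1) % 2 = 0 := by clear * - ev n1p n2p n3p; omega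
              have r992 : (i + 4 * i2 + 2 * l2 - 3 * k - 2 * l - 2 * i3) % 2 = 0 := by clear * - ev n1p n2p n3p; omega
              clear * - al b tt c D2 kk977 kk978 kk979 kk980 kk981 kk982 kk983 kk984 kk985 kk986 kk987 kk988 kk989 kk990 r991 r992
              exact midP al (i + 4 * i2 + 2 * l2 - 3 * k - 2 * l - 2 * i3) (2 * i + l + i2 - k + 1) (k + l + i3 - i2 - l2 + 1) (k + l + i3 - i2 - l2 + 1) (n + i + i2 - 2 * k - l - 1) (by omega) (fun t h1 h2 => (cI (qf b al 0 t (t + (k - i)) (by omega)) (ab tt al 0 (t + (k - i)) ((2 * i + l + i2 - k + 1) - t) (by omega)))) (fun t h1 h2 => (cE (cE (cE (qf (show Par W (k + l + i3 - i2 - l2 + 1) (n + i3 - i2 - l2 - 1) (2 * i2 + l2 - k - l - i3) from fun t h1 h2 => (cE (sh al (-1) t (t + (-n)) (by omega)) (cE (pb D2 al (-1) (t + (-n)) (t + (i2 + l2 - i3 + 1)) (by omega)) (pb c al 0 (t + (i2 + l2 - i3 + 1)) (t + (2 * i2 + l2 - k - l - i3)) (by omega))))) al 0 t (t + (2 * i2 +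 l2 - k - l - i3)) (by omega)) (pb D2 al 0 (t + (2 * i2 + l2 - k - l - i3)) (t + (3 * i2 + 2 * l2 - k - l - 2 * i3 + 1)) (by omega))) (qf (show Par W (2 * k + l - i2 + 2) (k + l + l2 + 2) (n + i + i2 - 2 * k - l - 1) from fun t h1 h2 => (cE (sh al (-1) t (t + (-n)) (by omega)) (cE (cE (pb c al (-1) (t + (-n)) (t + (i2 - k - l - 1)) (by omega)) (pb b al 0 (t + (i2 - k - l - 1)) (t + (i + i2 - 2 * k - l - 1)) (by omega))) (sh al 1 (t + (i + i2 - 2 * k - l - 1)) (t + (n + i + i2 - 2 * k - l - 1)) (by omega))))) al 0 (t + (3 * i2 + 2 * l2 - k - l - 2 * i3 + 1)) (t + (n + i + 4 * i2 + 2 * l2 - 3 * k - 2 * l - 2 * i3)) (by omega))) (sh al (-1) (t + (n + i + 4 * i2 + 2 * l2 - 3 * k - 2 * l - 2 * i3)) (t + (i + 4 * i2 + 2 * l2 - 3 * k - 2 * l - 2 * i3)) (by omega))))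
            · have kk993 : (3 * k + 2 * l + 2 * i3 + 1) ≤ (i + 4 * i2 + 2 * l2) := by clear * - z66; omega
              have kk994 : (2 * Q + k + 2 * i2 + 2 * l2 + 2) ≤ (2 * n + i + 2 * i3) := by clear * - b10 b11 b4; omega
              have kk995 : (3 * k + 2 * l + 4) ≤ (2 * n + i) := by clear * - b10 b11 b4 b7 z56 z63 z66; linarith
              have kk996 : (i + 3 * k + 4 * l + 2 * i2 + 2 * l2 + 8) ≤ (4 * n + 2 * i3) := by clear * - b10 b11 b4 b5 z66; omega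
              have kk997 : (i2 + l2) ≤ (k + l) := by clear * - b0 b3; omega
              have kk998 : (n) ≤ (k + l + l2 + 2) := by clear * - b10 b11 b4 b7 b9 v29 z56 z63; linarith
              have kk999 : (i2) ≤ (k) := by clear * - b10 b11 b4 b7 z56 z63; omega
              have kk1000 : (k) ≤ (i + l + 1) := by clear * - v28; omega
              have kk1001 : (i + i2 + 1) ≤ (Q + k) := by clear * - b10 b11 b4 b7 z56 z63 z66; linarith
              have kk1002 : (i3) ≤ (i2) := by clear * - b0 b10 b11 b4 b7 v29 z63 z66; linarith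
              have kk1003 : (2 * k + l + i3) ≤ (3 * i2 + l2) := by clear * - b10 b11 b7 z66; omega
              have kk1004 : (k + l + i3) ≤ (2 * i2 + l2) := by clear * - b10 b11 b4 b7 z56 z63 z66; linarith
              have kk1005 : (n + i3) ≤ (i + l + i2 + l2 + 2) := by clear * - v29; omega
              have kk1006 : (n + i) ≤ (2 * k + l + 1) := by clear * - b7; omega
              have r1007 : (2 * i + l + i2 - k + 1) % 2 = 0 := by clear * - ev n1p n2p n3p; omega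
              have r1008 : (i + 4 * i2 + 2 * l2 - 3 * k - 2 * l - 2 * i3) % 2 = 0 := by clear * - ev n1p n2p n3p; omega
              clear * - al b tt c D2 kk993 kk994 kk995 kk996 kk997 kk998 kk999 kk1000 kk1001 kk1002 kk1003 kk1004 kk1005 kk1006 r1007 r1008
              exact midP al (i + 4 * i2 + 2 * l2 - 3 * k - 2 * l - 2 * i3) (2 * i + l + i2 - k + 1) (i + k + 2 * l - n + 3) (k + l + i3 - i2 - l2 + 1) (n + i + i2 - 2 * k - l - 1) (by omega) (fun t h1 h2 => (cI (qf b al 0 t (t + (k - i)) (by omega)) (ab tt al 0 (t + (k - i)) ((2 * i + l + i2 - k + 1) - t) (by omega)))) (fun t h1 h2 => (cE (cE (cE (qf (show Par W (k + l + i3 - i2 - l2 + 1) (n + i3 - i2 - l2 - 1) (2 * i2 + l2 - k - l - i3) from fun t h1 h2 => (cE (sh al (-1) t (t + (-n)) (by omega)) (cE (pb D2 al (-1) (t + (-n)) (t + (i2 + l2 - i3 + 1)) (by omega)) (pb c al 0 (t + (i2 + l2 - i3 + 1)) (t + (2 * i2 + l2 - k - l - i3)) (by omega))))) al 0 t (t + (2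 * i2 + l2 - k - l - i3)) (by omega)) (pb D2 al 0 (t + (2 * i2 + l2 - k - l - i3)) (t + (3 * i2 + 2 * l2 - k - l - 2 * i3 + 1)) (by omega))) (qf (show Par W (2 * k + l - i2 + 2) (k + l + l2 + 2) (n + i + i2 - 2 * k - l - 1) from fun t h1 h2 => (cE (sh al (-1) t (t + (-n)) (by omega)) (cE (cE (pb c al (-1) (t + (-n)) (t + (i2 - k - l - 1)) (by omega)) (pb b al 0 (t + (i2 - k - l - 1)) (t + (i + i2 - 2 * k - l - 1)) (by omega))) (sh al 1 (t + (i + i2 - 2 * k - l - 1)) (t + (n + i + i2 - 2 * k - l - 1)) (by omega))))) al 0 (t + (3 * i2 + 2 * l2 - k - l - 2 * i3 + 1)) (t + (n + i + 4 * i2 + 2 * l2 - 3 * k - 2 * l - 2 * i3)) (by omega))) (sh al (-1) (t + (n + i + 4 * i2 + 2 * l2 - 3 * k - 2 * l - 2 * i3)) (t + (i + 4 * i2 + 2 * l2 - 3 * k - 2 * l - 2 * i3)) (by omega))))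
        · have kk1009 : (j + k + l + i3 + 1) ≤ (i + 2 * i2 + l2) := by clear * - z56; omega
          have kk1010 : (j + k + l + l2 + i3 + 4) ≤ (n + 2 * Q + i) := by clear * - b0 b10 b11 y2 y21; omega
          have kk1011 : (j + 3 * k + 3 * l + 3 * i3 + 4) ≤ (n + 2 * Q + i + 4 * i2 + l2) := by clear * - b0 b10 b11 b3 z56 z57 z63; linarith
          have kk1012 : (2 * i2 + 2 * l2 + 2) ≤ (n + 2 * j + 2 * i3) := by clear * - b0 b10 z57 z66; omega
          have kk1013 : (2 * k + 2 * l + 4) ≤ (n + 2 * i2) := by clear * - b0 b10 b11 z57; omega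
          have kk1014 : (i3 + 1) ≤ (Q) := by clear * - b0 b10 b11 b3 z56 z57 z63; linarith
          have kk1015 : (k + i2 + l2 + 1) ≤ (n + i3) := by clear * - b10 b11; omega
          have kk1016 : (i2) ≤ (k) := by clear * - b10 b11 b4 b7 z56 z63; omega
          have kk1017 : (i2 + l2) ≤ (k + l) := by clear * - b0 b3; omega
          have kk1018 : (Q + 2 * i2 + l2) ≤ (2 * k + l + i3 + 1) := by clear * - b0 b10 b11 y21 z57 z66; omega
          have kk1019 : (i2) ≤ (l + i3 + 1) := by clear * - b10 b3 b7 b8 z56 z57 z63 z66; linarith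
          have kk1020 : (n + j + i3) ≤ (2 * i2 + 2 * l2 + 2) := by clear * - b10 b3 b7 b8 z56 z57 z63 z66; linarith
          have kk1021 : (k + l + 2 * i3) ≤ (i + 2 * i2 + l2) := by clear * - b0 b10 b3 b4 b8 z56 z57 z63; linarith
          have kk1022 : (Q + k + l + i3) ≤ (i + 2 * i2 + l2) := by clear * - b0 b10 b11 y21 z57; omega
          have kk1023 : (n + Q + j) ≤ (2 * i2 + 2 * l2 + 2) := by clear * - b9 z57; omega
          have r1024 : (k + l + l2 + i3 - n + 2) % 2 = 0 := by clear * - ev n1p n2p n3p; omega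
          have r1025 : (i + 2 * i2 + l2 - j - k - l - i3) % 2 = 0 := by clear * - ev n1p n2p n3p; omega
          have r1026 : (i + j) % 2 = 0 := by clear * - ev n1p n2p n3p; omega
          clear * - al a2 s1 b c u2 D2 kk1009 kk1010 kk1011 kk1012 kk1013 kk1014 kk1015 kk1016 kk1017 kk1018 kk1019 kk1020 kk1021 kk1022 kk1023 r1024 r1025 r1026
          exact mid2 al (i + 2 * i2 + l2 - j - k - l - i3) (k + l + l2 + i3 - n + 2) (i + j) (k + l + l2 - n + 3) (Q) 0 (j + k + l + i3 - 2 * i2 - l2 + 1) (i + 2 * i2 + l2 - k - l - i3) (by omega) (fun t h1 h2 => ⟨by omega, (qa u2 al 0 t ((k + l + l2 + i3 - n + 2) - t) (by omega))⟩) (fun t h1 h2 => ⟨by omega, (ab s1 al 0 t ((i + j) - t) (by omega))⟩) (fun t h1 h2 => (cE (cE (pb (show Par W (Q + i2 + l2 - i3 + 1) (k + i2 + l2 - i3 + 1) (n + j + i3 - k - i2 - l2 - 1) from fun t h1 h2 => (cE (sh al (-1) t (t + (-n)) (by omega)) (cE (cE (qf D2 al (-1) (t + (-n)) (t + (i3 - i2 - l2 -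 1)) (by omega)) (pb a2 al 0 (t + (i3 - i2 - l2 - 1)) (t + (j + i3 - k - i2 - l2 - 1)) (by omega))) (sh al 1 (t + (j + i3 - k - i2 - l2 - 1)) (t + (n + j + i3 - k - i2 - l2 - 1)) (by omega))))) al (-1) t (t + (k + i2 + l2 - j - i3 + 1)) (by omega)) (qf (show Par W (2 * k + l - i2 + 2) (k + l + l2 + 2) (n + i + i2 - 2 * k - l - 1) from fun t h1 h2 => (cE (sh al (-1) t (t + (-n)) (by omega)) (cE (cE (pb c al (-1) (t + (-n)) (t + (i2 - k - l - 1)) (by omega)) (pb b al 0 (t + (i2 - k - l - 1)) (t + (i + i2 - 2 * k - l - 1)) (by omega))) (sh al 1 (t + (i + i2 - 2 * k - l - 1)) (t + (n + i + i2 - 2 * k - l - 1)) (by omega))))) al 0 (t + (k + i2 + l2 - j - i3 + 1)) (t + (n + i + 2 * i2 + l2 - j - k - l - i3)) (by omega))) (sh al (-1) (t + (n + i + 2 * i2 + l2 - j - k - l - i3)) (t + (i + 2 * i2 + l2 - j - k - l - i3)) (by omega))))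
  · by_cases v30 : (n) ≤ (j + l + l2 + 3)
    · have kk1027 : (j + l + l2 + 4) ≤ (n + i3) := by clear * - b0 b10 b11 b6; omega
      have kk1028 : (n) ≤ (j + l + l2 + i3 + 3) := by clear * - b0 b10 b11 b6 v30; omega
      have kk1029 : (n) ≤ (j + l + l2 + 3) := by clear * - v30; omega
      have kk1030 : (l + l2 + i3 + 3) ≤ (n) := by clear * - b0 b1 b11 b3 b4 b8; omega
      have r1031 : (j + l + l2 + i3 - 3 * n + 2) % 2 = 0 := by clear * - ev n1p n2p n3p; omega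
      clear * - al a1 u1 kk1027 kk1028 kk1029 kk1030 r1031
      obtain ⟨t, ht⟩ : ∃ t, 2 * t = (j + l + l2 + i3 - 3 * n + 2) := ⟨(j + l + l2 + i3 - 3 * n + 2) / 2, by omega⟩
      exact al.ninv t (cE (cI (qf a1 al (-1) t (t + (n + k - j)) (by omega)) (ab u1 al 0 (t + (n + k - j)) ((j + l + l2 + i3 - 2 * n + 2) - t) (by omega))) (sh al (-1) ((j + l + l2 + i3 - 2 * n + 2) - t) t (by omega)))
    · have kk1032 : (n) ≤ (j + l + l2 + i3 + 2) := by clear * - b0 b10 b6 b9 y21 z56; omega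
      have kk1033 : (n) ≤ (j + l + l2 + i3 + 3) := by clear * - b0 b10 b6 b9 y21 z56; omega
      have kk1034 : (j + l + l2 + 3) ≤ (n) := by clear * - v30; omega
      have kk1035 : (l + l2 + i3 + 3) ≤ (n) := by clear * - b0 b1 b11 b3 b4 b8; omega
      have r1036 : (j + l + l2 + i3 - 3 * n + 2) % 2 = 0 := by clear * - ev n1p n2p n3p; omega
      clear * - al a1 u1 kk1032 kk1033 kk1034 kk1035 r1036
      obtain ⟨t, ht⟩ : ∃ t, 2 * t = (j + l + l2 + i3 - 3 * n + 2) := ⟨(j + l + l2 + i3 - 3 * n + 2) / 2, by omega⟩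
      exact al.ninv t (cE (cI (qf a1 al (-1) t (t + (n + k - j)) (by omega)) (ab u1 al 0 (t + (n + k - j)) ((j + l + l2 + i3 - 2 * n + 2) - t) (by omega))) (sh al (-1) ((j + l + l2 + i3 - 2 * n + 2) - t) t (by omega)))

theorem t1c_20 {W : ℤ → G} {n Q i j k l i2 l2 i3 : ℤ} (al : AL W n Q)
    (hy : (0) ≤ (i) ∧ (i) ≤ (j) ∧ (j + 1) ≤ (Q) ∧ (Q) ≤ (k) ∧ (k + 1) ≤ (n) ∧ (Q) ≤ (i + l + 1) ∧ (k + l + 2) ≤ (n) ∧ (Q) ≤ (i2) ∧ (i2) ≤ (i + l + 1) ∧ (Q) ≤ (i2 + l2 + 1) ∧ (i2 + l2 + 2) ≤ (n) ∧ (n) ≤ (k + l + l2 + 2) ∧ (k + l + l2 + 3) ≤ (n + Q) ∧ (0) ≤ (i3) ∧ (n + i3) ≤ (k + l + l2 + 2) ∧ (k + i2 + l2 + 2) ≤ (n + j + i3) ∧ (j + i3 + 1) ≤ (k) ∧ (k + i2 + l2 + 2) ≤ (n + i3) ∧ (i + 2 * i2 + 1) ≤ (2 * Q + k) ∧ (i + l + 1) ≤ (i2 + l2) ∧ (i2 + l2 + 1) ≤ (k + l) ∧ (i3 + 1) ≤ (i))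
    (a1 : Par W (0) (j) (k - j))
    (a2 : Par W (Q + j - k) (j) (k - j))
    (s1 : Ant W (0) (i) (i + j))
    (s2 : Ant W (j + 1) (Q) (i + j))
    (b : Par W (i + 1) (i + l + 1) (k - i))
    (tt : Ant W (Q) (i2) (i + l + i2 + 1))
    (c : Par W (i2 + 1) (i2 + l2 + 1) (k + l - i2 + 1))
    (u1 : Ant W (0) (i3) (k + l + l2 + i3 - n + 2))
    (u2 : Ant W (k + l + l2 - n + 3) (Q) (k + l + l2 + i3 - n + 2))
    (D1 : Par W (i3 + 1) (Q) (i2 + l2 - i3 + 1))
    (D2 : Par W (i2 + l2 + 2) (n) (i3 - i2 - l2 - 1))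
    {L : ℤ} (mx : ∀ a b g, 0 < g → g < n → Par W a b g → b - a ≤ L)
    (hL : L ≤ (n - j - 3) ∧ L ≤ (n + Q - k - 3) ∧ L ≤ (n - l - 3) ∧ L ≤ (n + i - k - 2) ∧ L ≤ (n - l2 - 3) ∧ L ≤ (n + i3 - Q - 2) ∧ L ≤ (i2 + l2 - 1) ∧ L ≤ (n + i2 - k - l - 3) ∧ L ≤ (Q + i2 + l2 - l - i3 - 3))
    (bd0 : Bd W n L (j) (i) (k))
    (bd2 : Bd W n L (k + l + l2 - n + 2) (i3) (i2 + l2 + 1))
    (n1 : Nd W (j) (i) (k))
    (n2 : Nd W (i + l + 1) (i2) (k + l + 1))
    (n3 : Nd W (k + l + l2 - n + 2) (i3) (i2 + l2 + 1))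
    (b0 : (2 * i + j + 1) ≤ (k))
    (b1 : (l + i3 + 3) ≤ (Q + i2))
    (b2 : (k + l + i3 + 2) ≤ (2 * Q + l2))
    (b3 : (2 * n + 2 * Q + i3) ≤ (k + l + 2 * i2 + 3 * l2 + 5))
    (b4 : (Q + 2 * i2 + l2) ≤ (k + 2 * l + i3 + 2))
    (b5 : (2 * Q + 2 * k + l + 1) ≤ (n + 2 * i + j + i2))
    (b6 : (2 * i + l + i2 + 3) ≤ (2 * Q + k))
    (b7 : (2 * Q + k) ≤ (i + i2 + l2 + i3 + 1))
    (b8 : (n + i) ≤ (2 * k + l))
    (b9 : (2 * i + k + l + i3 + 1) ≤ (2 * i2 + l2))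
    (b10 : (n + 2 * j) ≤ (2 * i2 + 2 * l2))
    (b11 : (3 * k + l + 1) ≤ (n + i + j + i2)) : False := by
  have ev := al.ev
  obtain ⟨y0, y1, y2, y3, y4, y5, y6, y7, y8, y9, y10, y11, y12, y13, y14, y15, y16, y17, y18, y19, y20, y21⟩ := id hy
  have n1p := And.intro n1.p1 n1.p2
  have n2p := And.intro n2.p1 n2.p2
  have n3p := And.intro n3.p1 n3.p2
  by_cases z55 : (2 * k + l + i3) ≤ (i + j + 2 * i2 + l2 + 1)
  · have kk786 : (i2 + 1) ≤ (k) := by clear * - b1 b4 b6 b7 y21; omega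
    have kk787 : (2 * k + l + 2) ≤ (n + i2) := by clear * - b0 b1 b10 b11 b4 b5 b6; linarith
    have kk788 : (j + 1) ≤ (k) := by clear * - b1 b10 b4 b5 b6; omega
    have kk789 : (0) ≤ (j) := by clear * - b1 b4 b6 b7 z55; omega
    have kk790 : (0) ≤ (i) := by clear * - y13 y21; omega
    have kk791 : (i + 1) ≤ (k) := by clear * - b1 b10 b11 b4 b5 b6 b8 b9 z55; linarith
    have kk792 : (2 * i2 + l2) ≤ (2 * k + l + i3) := by clear * - b1 b4 b6 b7 y13 y21; omega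
    have kk793 : (k + l + i3 + 1) ≤ (2 * i2 + l2) := by clear * - b1 b10 b4 b5 b6 b9 z55; linarith
    have kk794 : (2 * k + l + i3) ≤ (i + j + 2 * i2 + l2 + 1) := by clear * - z55; omega
    have kk795 : (i2 + l2) ≤ (k + l) := by clear * - b1 b4; omega
    have kk796 : (n) ≤ (k + l + l2 + 2) := by clear * - b1 b2 b4 b7 b8; omega
    have kk797 : (i2) ≤ (k) := by clear * - b1 b4 b6 b7 y21; omega
    have kk798 : (n + i2) ≤ (2 * k + 2 * l + 2) := by clear * - b1 b2 b4 b7 b8; omega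
    have kk799 : (0) ≤ (i + 1) := by clear * - y13 y21; omega
    have kk800 : (2 * i2 + l2) ≤ (2 * k + l + i3 + 1) := by clear * - b1 b4 b6 b7 y13 y21; omega
    have kk801 : (i + 2 * i2 + l2) ≤ (2 * k + l + i3) := by clear * - b1 b4 b6 b7; omega
    have kk802 : (k + i2 + l2 + 1) ≤ (n + i3) := by clear * - y17; omega
    have kk803 : (i + j + 1) ≤ (k) := by clear * - b0 b1 b10 b4 b5 b6; omega
    have kk804 : (i) ≤ (k) := by clear * - b1 b10 b11 b4 b5 b6 b8 b9 z55; linarith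
    have kk805 : (0) ≤ (j + 1) := by clear * - b1 b4 b6 b7 z55; omega
    have r806 : (2 * k + l + i3 - i - 2 * i2 - l2) % 2 = 0 := by clear * - ev n1p n2p n3p; omega
    have r807 : (k - j) % 2 = 0 := by clear * - ev n1p n2p n3p; omega
    have r808 : (i + j) % 2 = 0 := by clear * - ev n1p n2p n3p; omega
    clear * - al a1 s1 b c D2 n1 kk786 kk787 kk788 kk789 kk790 kk791 kk792 kk793 kk794 kk795 kk796 kk797 kk798 kk799 kk800 kk801 kk802 kk803 kk804 kk805 r806 r807 r808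
    exact ivt al.ninv (0) (j) (k - j) (i + 1) (i + 2 * i2 + l2 - k - l - i3) (2 * k + l + i3 - i - 2 * i2 - l2) (i) (2 * k + l + i3 - 2 * i2 - l2) 0 (fun t h1 h2 => (qf a1 al 0 t (t + (k - j)) (by omega))) (fun t h1 h2 => (cE (sh al 1 t (t + (n)) (by omega)) (cE (qf b al 1 (t + (n)) (t + (k - i)) (by omega)) (pb (show Par W (k + l + i3 - i2 - l2 + 1) (n + i3 - i2 - l2 - 1) (2 * i2 + l2 - k - l - i3) from fun t h1 h2 => (cE (sh al (-1) t (t + (-n)) (by omega)) (cE (pb D2 al (-1) (t + (-n)) (t + (i2 + l2 - i3 + 1)) (by omega)) (pb c al 0 (t + (i2 + l2 - i3 + 1)) (t + (2 * i2 + l2 - k - l - i3)) (by omega))))) al 0 (t + (k - i)) (t + (2 * k + l + i3 - i - 2 * i2 - l2)) (by omega))))) (fun hh => n1.f1 (rEE (sh al 0 (i) (i) (by omega)) (pb (show Par W (k + l + i3 - i2 - l2 + 1) (n + i3 - i2 - l2 - 1) (2 * i2 + l2 - k - l - i3) from fun t h1 h2 => (cE (sh al (-1) t (t + (-n)) (by omega)) (cE (pb D2 al (-1) (t + (-n)) (t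 + (i2 + l2 - i3 + 1)) (by omega)) (pb c al 0 (t + (i2 + l2 - i3 + 1)) (t + (2 * i2 + l2 - k - l - i3)) (by omega))))) al 0 (k) (2 * k + l + i3 - 2 * i2 - l2) (by omega)) (Eq.symm hh))) (by omega) (0) (i) (i + j) 0 (-1) (fun t h1 h2 => (qa s1 al 0 t ((i + j) - t) (by omega))) (by omega)
  · exact t1c_21 al hy a1 a2 s1 s2 b tt c u1 u2 D1 D2 mx hL bd0 bd2 n1 n2 n3 (by clear * - b1; omega) (by clear * - b2; omega) (by clear * - b3; omega) (by clear * - b4; omega) (by clear * - b5; omega) (by clear * - b6; omega) (by clear * - b7; omega) (by clear * - b8; omega) (by clear * - b9; omega) (by clear * - b10; omega) (by clear * - b11; omega) (by clear * - z55; omega)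

theorem t1c_19 {W : ℤ → G} {n Q i j k l i2 l2 i3 : ℤ} (al : AL W n Q)
    (hy : (0) ≤ (i) ∧ (i) ≤ (j) ∧ (j + 1) ≤ (Q) ∧ (Q) ≤ (k) ∧ (k + 1) ≤ (n) ∧ (Q) ≤ (i + l + 1) ∧ (k + l + 2) ≤ (n) ∧ (Q) ≤ (i2) ∧ (i2) ≤ (i + l + 1) ∧ (Q) ≤ (i2 + l2 + 1) ∧ (i2 + l2 + 2) ≤ (n) ∧ (n) ≤ (k + l + l2 + 2) ∧ (k + l + l2 + 3) ≤ (n + Q) ∧ (0) ≤ (i3) ∧ (n + i3) ≤ (k + l + l2 + 2) ∧ (k + i2 + l2 + 2) ≤ (n + j + i3) ∧ (j + i3 + 1) ≤ (k) ∧ (k + i2 + l2 + 2) ≤ (n + i3) ∧ (i + 2 * i2 + 1) ≤ (2 * Q + k) ∧ (i + l + 1) ≤ (i2 + l2) ∧ (i2 + l2 + 1) ≤ (k + l) ∧ (i3 + 1) ≤ (i))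
    (a1 : Par W (0) (j) (k - j))
    (a2 : Par W (Q + j - k) (j) (k - j))
    (s1 : Ant W (0) (i) (i + j))
    (s2 : Ant W (j + 1) (Q) (i + j))
    (b : Par W (i + 1) (i + l + 1) (k - i))
    (tt : Ant W (Q) (i2) (i + l + i2 + 1))
    (c : Par W (i2 + 1) (i2 + l2 + 1) (k + l - i2 + 1))
    (u1 : Ant W (0) (i3) (k + l + l2 + i3 - n + 2))
    (u2 : Ant W (k + l + l2 - n + 3) (Q) (k + l + l2 + i3 - n + 2))
    (D1 : Par W (i3 + 1) (Q) (i2 + l2 - i3 + 1))
    (D2 : Par W (i2 + l2 + 2) (n) (i3 - i2 - l2 - 1))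
    {L : ℤ} (mx : ∀ a b g, 0 < g → g < n → Par W a b g → b - a ≤ L)
    (hL : L ≤ (n - j - 3) ∧ L ≤ (n + Q - k - 3) ∧ L ≤ (n - l - 3) ∧ L ≤ (n + i - k - 2) ∧ L ≤ (n - l2 - 3) ∧ L ≤ (n + i3 - Q - 2) ∧ L ≤ (i2 + l2 - 1) ∧ L ≤ (n + i2 - k - l - 3) ∧ L ≤ (Q + i2 + l2 - l - i3 - 3))
    (bd0 : Bd W n L (j) (i) (k))
    (bd2 : Bd W n L (k + l + l2 - n + 2) (i3) (i2 + l2 + 1))
    (n1 : Nd W (j) (i) (k))
    (n2 : Nd W (i + l + 1) (i2) (k + l + 1))
    (n3 : Nd W (k + l + l2 - n + 2) (i3) (i2 + l2 + 1))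
    (b0 : (2 * i + j + 1) ≤ (k))
    (b1 : (l + i3 + 3) ≤ (Q + i2))
    (b2 : (k + l + i3 + 2) ≤ (2 * Q + l2))
    (b3 : (2 * n + 2 * Q + i3) ≤ (k + l + 2 * i2 + 3 * l2 + 5))
    (b4 : (Q + 2 * i2 + l2) ≤ (k + 2 * l + i3 + 2))
    (b5 : (2 * Q + 2 * k + l + 1) ≤ (n + 2 * i + j + i2))
    (b6 : (2 * i + l + i2 + 3) ≤ (2 * Q + k))
    (b7 : (2 * Q + k) ≤ (i + i2 + l2 + i3 + 1))
    (b8 : (n + i) ≤ (2 * k + l))
    (b9 : (2 * i + k + l + i3 + 1) ≤ (2 * i2 + l2))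
    (b10 : (n + 2 * j) ≤ (2 * i2 + 2 * l2)) : False := by
  have ev := al.ev
  obtain ⟨y0, y1, y2, y3, y4, y5, y6, y7, y8, y9, y10, y11, y12, y13, y14, y15, y16, y17, y18, y19, y20, y21⟩ := id hy
  have n1p := And.intro n1.p1 n1.p2
  have n2p := And.intro n2.p1 n2.p2
  have n3p := And.intro n3.p1 n3.p2
  by_cases z53 : (n + i + j + i2) ≤ (3 * k + l)
  · by_cases z54 : (3 * k + l + 2) ≤ (n + Q + j + i2)
    · by_cases v23 : (n + j) ≤ (k + l + l2 + 2)
      · have kk743 : (n + i + j + i2) ≤ (3 * k + l) := by clear * - z53; omega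
        have kk744 : (3 * k + l + 2) ≤ (2 * n + i + j + i2) := by clear * - b1 b10 b4 b5 b6 v23 z53 z54; linarith
        have kk745 : (Q + 2 * k + l + 1) ≤ (n + i + j + i2) := by clear * - b5 z53 z54; omega
        have kk746 : (i2) ≤ (k) := by clear * - b1 b4 b5 b6 v23; omega
        have kk747 : (i2 + l2) ≤ (k + l) := by clear * - b1 b4; omega
        have kk748 : (3 * k + l + 2) ≤ (n + Q + j + i2) := by clear * - z54; omega
        have kk749 : (n + j) ≤ (k + l + l2 + 2) := by clear * - v23; omega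
        clear * - al a2 b c kk743 kk744 kk745 kk746 kk747 kk748 kk749
        exact al.ubQ (3 * k + l - n - i - j - i2 + 1) (by omega) (by omega) fun t h1 h2 => (cE (sh al 2 t (t + (2 * n)) (by omega)) (cE (pb (show Par W (2 * k + l - i2 + 2) (k + l + l2 + 2) (n + i + i2 - 2 * k - l - 1) from fun t h1 h2 => (cE (sh al (-1) t (t + (-n)) (by omega)) (cE (cE (pb c al (-1) (t + (-n)) (t + (i2 - k - l - 1)) (by omega)) (pb b al 0 (t + (i2 - k - l - 1)) (t + (i + i2 - 2 * k - l - 1)) (by omega))) (sh al 1 (t + (i + i2 - 2 * k - l - 1)) (t + (n + i + i2 - 2 * k - l - 1)) (by omega))))) al 1 (t + (2 * n)) (t + (2 * k + l - i - i2 + 1)) (by omega)) (qf a2 al 1 (t + (2 * k + l - i - i2 + 1)) (t + (3 * k + l - n - i - j - i2 + 1)) (by omega))))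
      · have kk750 : (n + i + j + i2) ≤ (3 * k + l) := by clear * - z53; omega
        have kk751 : (3 * k + l + 2) ≤ (2 * n + i + j + i2) := by clear * - b1 b10 b2 b4 b7 b9 v23 z53 z54; linarith
        have kk752 : (Q + k) ≤ (i + i2 + l2 + 1) := by clear * - b10 b2 b4 b5 b8 v23; omega
        have kk753 : (i2) ≤ (k) := by clear * - b1 b2 b4 b7 v23 z53; omega
        have kk754 : (i2 + l2) ≤ (k + l) := by clear * - b1 b4; omega
        have kk755 : (3 * k + l + 2) ≤ (n + Q + j + i2) := by clear * - z54; omega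
        have kk756 : (k + l + l2 + 2) ≤ (n + j) := by clear * - v23; omega
        clear * - al a2 b c kk750 kk751 kk752 kk753 kk754 kk755 kk756
        exact al.ubQ (3 * k + l - n - i - j - i2 + 1) (by omega) (by omega) fun t h1 h2 => (cE (sh al 2 t (t + (2 * n)) (by omega)) (cE (pb (show Par W (2 * k + l - i2 + 2) (k + l + l2 + 2) (n + i + i2 - 2 * k - l - 1) from fun t h1 h2 => (cE (sh al (-1) t (t + (-n)) (by omega)) (cE (cE (pb c al (-1) (t + (-n)) (t + (i2 - k - l - 1)) (by omega)) (pb b al 0 (t + (i2 - k - l - 1)) (t + (i + i2 - 2 * k - l - 1)) (by omega))) (sh al 1 (t + (i + i2 - 2 * k - l - 1)) (t + (n + i + i2 - 2 * k - l - 1)) (by omega))))) al 1 (t + (2 * n)) (t + (2 * k + l - i - i2 + 1)) (by omega)) (qf a2 al 1 (t + (2 * k + l - i - i2 + 1)) (t + (3 * k + l - n - i - j - i2 + 1)) (by omega))))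
    · by_cases v24 : (k + l + l2 + 2) ≤ (n + j)
      · have kk757 : (i2 + l2 + 1) ≤ (k + l) := by clear * - b1 b4; omega
        have kk758 : (k + l + i3 + 1) ≤ (Q + i2 + l2) := by clear * - b1 b2 b4 b7 b9; omega
        have kk759 : (k + l + i3 + 1) ≤ (2 * i2 + l2) := by clear * - b1 b2 b4 b7 b9; omega
        have kk760 : (n + i + j + i2) ≤ (3 * k + l) := by clear * - z53; omega
        have kk761 : (4 * k + 2 * l + 2) ≤ (2 * n + i + j + i2) := by clear * - b10 b2 b4 b5 b8 v24; omega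
        have kk762 : (i + i2 + l2 + 1) ≤ (k + l + i3) := by clear * - b8 y17; omega
        have kk763 : (k) ≤ (i + l2 + 1) := by clear * - b1 b2 b4 b7; omega
        have kk764 : (i2 + l2) ≤ (k + l) := by clear * - b1 b4; omega
        have kk765 : (n) ≤ (k + l + l2 + 2) := by clear * - b1 b2 b4 b7 b8; omega
        have kk766 : (n + Q + j + i2) ≤ (3 * k + l + 2) := by clear * - z54; omega
        have kk767 : (i2) ≤ (k) := by clear * - b1 b2 b4 b7 v24 z53; omega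
        have kk768 : (k + l + l2 + 2) ≤ (n + j) := by clear * - v24; omega
        have r769 : (2 * i2 + l2 - k - l - i3) % 2 = 0 := by clear * - ev n1p n2p n3p; omega
        have r770 : (3 * k + l - n - i - j - i2 + 1) % 2 = 0 := by clear * - ev n1p n2p n3p; omega
        clear * - al a2 b c D1 D2 n2 kk757 kk758 kk759 kk760 kk761 kk762 kk763 kk764 kk765 kk766 kk767 kk768 r769 r770
        exact n2.f1 (rEE (sh al (-1) (i2) (i2 - n) (by omega)) (cE (pb D1 al 0 (k + l + 1) (k + l + i3 - i2 - l2) (by omega)) (sh al (-1) (k + l + i3 - i2 - l2) (k + l + i3 - n - i2 - l2) (by omega))) (Eq.symm (rotL (2 * i2 + l2 - k - l - i3) (3 * k + l - n - i - j - i2 + 1) (k + l + i3 - n - i2 - l2) (i2 - n) (by omega) (fun t h1 h2 => (cE (qf (show Par W (k + l + i3 - i2 - l2 + 1) (n + i3 - i2 - l2 - 1) (2 * i2 + l2 - k - l - i3) from fun t h1 h2 => (cE (sh al (-1) t (t + (-n)) (by omega)) (cE (pb D2 al (-1) (t + (-n)) (t + (i2 + l2 -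 i3 + 1)) (by omega)) (pb c al 0 (t + (i2 + l2 - i3 + 1)) (t + (2 * i2 + l2 - k - l - i3)) (by omega))))) al (-1) t (t + (n + 2 * i2 + l2 - k - l - i3)) (by omega)) (sh al (-1) (t + (n + 2 * i2 + l2 - k - l - i3)) (t + (2 * i2 + l2 - k - l - i3)) (by omega)))) (fun t h1 h2 => (cE (cE (cE (qf b al (-1) t (t + (n + k - i)) (by omega)) (qf c al 0 (t + (n + k - i)) (t + (n + 2 * k + l - i - i2 + 1)) (by omega))) (qf a2 al 1 (t + (n + 2 * k + l - i - i2 + 1)) (t + (3 * k + l - i - j - i2 + 1)) (by omega))) (sh al (-1) (t + (3 * k + l - i - j - i2 + 1)) (t + (3 * k + l - n - i - j - i2 + 1)) (by omega)))))))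
      · have kk771 : (i2 + l2 + 1) ≤ (k + l) := by clear * - b1 b4; omega
        have kk772 : (k + l + i3 + 1) ≤ (Q + i2 + l2) := by clear * - b1 b2 b4 b7 b9; omega
        have kk773 : (k + l + i3 + 1) ≤ (2 * i2 + l2) := by clear * - b1 b2 b4 b7 b9; omega
        have kk774 : (n + i + j + i2) ≤ (3 * k + l) := by clear * - z53; omega
        have kk775 : (4 * k + 2 * l + 2) ≤ (2 * n + i + j + i2) := by clear * - b1 b2 b5 b8 b9 v24 y17; linarith
        have kk776 : (i + i2 + l2 + 1) ≤ (k + l + i3) := by clear * - b8 y17; omega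
        have kk777 : (2 * k + l + 1) ≤ (n + i + j) := by clear * - b2 b5 b8 y17; omega
        have kk778 : (i2 + l2) ≤ (k + l) := by clear * - b1 b4; omega
        have kk779 : (n) ≤ (k + l + l2 + 2) := by clear * - b1 b2 b4 b7 b8; omega
        have kk780 : (n + Q + j + i2) ≤ (3 * k + l + 2) := by clear * - z54; omega
        have kk781 : (i2) ≤ (k) := by clear * - b1 b4 b5 b6 v24; omega
        have kk782 : (n + j + i2) ≤ (2 * k + 2 * l + 2) := by clear * - b1 b4 v24; omega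
        have kk783 : (n + j) ≤ (k + l + l2 + 2) := by clear * - v24; omega
        have r784 : (2 * i2 + l2 - k - l - i3) % 2 = 0 := by clear * - ev n1p n2p n3p; omega
        have r785 : (3 * k + l - n - i - j - i2 + 1) % 2 = 0 := by clear * - ev n1p n2p n3p; omega
        clear * - al a2 b c D1 D2 n2 kk771 kk772 kk773 kk774 kk775 kk776 kk777 kk778 kk779 kk780 kk781 kk782 kk783 r784 r785
        exact n2.f1 (rEE (sh al (-1) (i2) (i2 - n) (by omega)) (cE (pb D1 al 0 (k + l + 1) (k + l + i3 - i2 - l2) (by omega)) (sh al (-1) (k + l + i3 - i2 - l2) (k + l + i3 - n - i2 - l2) (by omega))) (Eq.symm (rotL (2 * i2 + l2 - k - l - i3) (3 * k + l - n - i - j - i2 + 1) (k + l + i3 - n - i2 - l2) (i2 - n) (by omega) (fun t h1 h2 => (cE (qf (show Par W (k + l + i3 - i2 - l2 + 1) (n + i3 - i2 - l2 - 1) (2 * i2 + l2 - k - l - i3) from fun t h1 h2 => (cE (sh al (-1) t (t + (-n)) (by omega)) (cE (pb D2 al (-1) (t + (-n)) (t + (i2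 + l2 - i3 + 1)) (by omega)) (pb c al 0 (t + (i2 + l2 - i3 + 1)) (t + (2 * i2 + l2 - k - l - i3)) (by omega))))) al (-1) t (t + (n + 2 * i2 + l2 - k - l - i3)) (by omega)) (sh al (-1) (t + (n + 2 * i2 + l2 - k - l - i3)) (t + (2 * i2 + l2 - k - l - i3)) (by omega)))) (fun t h1 h2 => (cE (cE (cE (qf b al (-1) t (t + (n + k - i)) (by omega)) (qf c al 0 (t + (n + k - i)) (t + (n + 2 * k + l - i - i2 + 1)) (by omega))) (qf a2 al 1 (t + (n + 2 * k + l - i - i2 + 1)) (t + (3 * k + l - i - j - i2 + 1)) (by omega))) (sh al (-1) (t + (3 * k + l - i - j - i2 + 1)) (t + (3 * k + l - n - i - j - i2 + 1)) (by omega)))))))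
  · exact t1c_20 al hy a1 a2 s1 s2 b tt c u1 u2 D1 D2 mx hL bd0 bd2 n1 n2 n3 (by clear * - b0; omega) (by clear * - b1; omega) (by clear * - b2; omega) (by clear * - b3; omega) (by clear * - b4; omega) (by clear * - b5; omega) (by clear * - b6; omega) (by clear * - b7; omega) (by clear * - b8; omega) (by clear * - b9; omega) (by clear * - b10; omega) (by clear * - z53; omega)

theorem t1c_22 {W : ℤ → G} {n Q i j k l i2 l2 i3 : ℤ} (al : AL W n Q)
    (hy : (0) ≤ (i) ∧ (i) ≤ (j) ∧ (j + 1) ≤ (Q) ∧ (Q) ≤ (k) ∧ (k + 1) ≤ (n) ∧ (Q) ≤ (i + l + 1) ∧ (k + l + 2) ≤ (n) ∧ (Q) ≤ (i2) ∧ (i2) ≤ (i + l + 1) ∧ (Q) ≤ (i2 + l2 + 1) ∧ (i2 + l2 + 2) ≤ (n) ∧ (n) ≤ (k + l + l2 + 2) ∧ (k + l + l2 + 3) ≤ (n + Q) ∧ (0) ≤ (i3) ∧ (n + i3) ≤ (k + l + l2 + 2) ∧ (k + i2 + l2 + 2) ≤ (n + j + i3) ∧ (j + i3 + 1) ≤ (k) ∧ (k + i2 + l2 + 2) ≤ (n + i3) ∧ (i + 2 * i2 + 1) ≤ (2 * Q + k) ∧ (i + l + 1) ≤ (i2 + l2) ∧ (i2 + l2 + 1) ≤ (k + l) ∧ (i3 + 1) ≤ (i))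
    (a1 : Par W (0) (j) (k - j))
    (a2 : Par W (Q + j - k) (j) (k - j))
    (s1 : Ant W (0) (i) (i + j))
    (s2 : Ant W (j + 1) (Q) (i + j))
    (b : Par W (i + 1) (i + l + 1) (k - i))
    (tt : Ant W (Q) (i2) (i + l + i2 + 1))
    (c : Par W (i2 + 1) (i2 + l2 + 1) (k + l - i2 + 1))
    (u1 : Ant W (0) (i3) (k + l + l2 + i3 - n + 2))
    (u2 : Ant W (k + l + l2 - n + 3) (Q) (k + l + l2 + i3 - n + 2))
    (D1 : Par W (i3 + 1) (Q) (i2 + l2 - i3 + 1))
    (D2 : Par W (i2 + l2 + 2) (n) (i3 - i2 - l2 - 1))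
    {L : ℤ} (mx : ∀ a b g, 0 < g → g < n → Par W a b g → b - a ≤ L)
    (hL : L ≤ (n - j - 3) ∧ L ≤ (n + Q - k - 3) ∧ L ≤ (n - l - 3) ∧ L ≤ (n + i - k - 2) ∧ L ≤ (n - l2 - 3) ∧ L ≤ (n + i3 - Q - 2) ∧ L ≤ (i2 + l2 - 1) ∧ L ≤ (n + i2 - k - l - 3) ∧ L ≤ (Q + i2 + l2 - l - i3 - 3))
    (bd0 : Bd W n L (j) (i) (k))
    (bd2 : Bd W n L (k + l + l2 - n + 2) (i3) (i2 + l2 + 1))
    (n1 : Nd W (j) (i) (k))
    (n2 : Nd W (i + l + 1) (i2) (k + l + 1))
    (n3 : Nd W (k + l + l2 - n + 2) (i3) (i2 + l2 + 1))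
    (b0 : (2 * i + j + 1) ≤ (k))
    (b1 : (l + i3 + 3) ≤ (Q + i2))
    (b2 : (k + l + i3 + 2) ≤ (2 * Q + l2))
    (b3 : (2 * n + 2 * Q + i3) ≤ (k + l + 2 * i2 + 3 * l2 + 5))
    (b4 : (Q + 2 * i2 + l2) ≤ (k + 2 * l + i3 + 2))
    (b5 : (2 * Q + 2 * k + l + 1) ≤ (n + 2 * i + j + i2))
    (b6 : (2 * i + l + i2 + 3) ≤ (2 * Q + k))
    (b7 : (2 * Q + k) ≤ (i + i2 + l2 + i3 + 1))
    (b8 : (n + i) ≤ (2 * k + l))
    (b9 : (2 * i + k + l + i3 + 1) ≤ (2 * i2 + l2))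
    (b10 : (2 * i2 + 2 * l2 + 1) ≤ (n + 2 * j)) : False := by
  have ev := al.ev
  obtain ⟨y0, y1, y2, y3, y4, y5, y6, y7, y8, y9, y10, y11, y12, y13, y14, y15, y16, y17, y18, y19, y20, y21⟩ := id hy
  have n1p := And.intro n1.p1 n1.p2
  have n2p := And.intro n2.p1 n2.p2
  have n3p := And.intro n3.p1 n3.p2
  by_cases z67 : (n + i2) ≤ (j + 2 * k + l + 2)
  · have kk1037 : (j + 2 * k + l + 3) ≤ (n + 2 * i + i2) := by clear * - b5 y2; omega
    have kk1038 : (n + i2) ≤ (j + 2 * k + l + 2) := by clear * - z67; omega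
    have kk1039 : (i) ≤ (j) := by clear * - b2 b5 b8 b9 y17 z67; omega
    have kk1040 : (n + i) ≤ (k + l + l2 + 2) := by clear * - b2 b4 b7 b8 b9; omega
    have kk1041 : (j) ≤ (l) := by clear * - b4 b5 b9 y2 z67; omega
    have kk1042 : (k + l + 2) ≤ (n) := by clear * - b0 b1 b2 b4 b5 b7 y17 z67; linarith
    have r1043 : (n + j + i2 - l - 1) % 2 = 0 := by clear * - ev n1p n2p n3p; omega
    clear * - al s1 b c kk1037 kk1038 kk1039 kk1040 kk1041 kk1042 r1043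
    obtain ⟨t, ht⟩ : ∃ t, 2 * t = (n + j + i2 - l - 1) := ⟨(n + j + i2 - l - 1) / 2, by omega⟩
    exact al.ninv t (cE (cI (pb b al 0 t (t + (i - k)) (by omega)) (ab s1 al 0 (t + (i - k)) ((j + k) - t) (by omega))) (pb c al (-1) ((j + k) - t) t (by omega)))
  · by_cases z68 : (n + i + 2 * k + 4 * l + 2 * i3) ≤ (j + 6 * i2 + 4 * l2)
    · by_cases z69 : (i + k + 2 * l + i3 + 2) ≤ (3 * i2 + l2)
      · have kk1044 : (2 * Q + i2 + l2) ≤ (i + k + 2 * l + i3 + 1) := by clear * - b1 b4 b7; omega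
        have kk1045 : (i + k + 2 * l + i3 + 2) ≤ (3 * i2 + l2) := by clear * - z69; omega
        have kk1046 : (i2 + l2) ≤ (k + l) := by clear * - b1 b4; omega
        have kk1047 : (n) ≤ (k + l + l2 + 2) := by clear * - b1 b2 b4 b7 b8; omega
        have kk1048 : (k + l + i3 + 1) ≤ (Q + i2 + l2) := by clear * - b2 b5 b8 z67; omega
        have kk1049 : (2 * i2 + l2 + 1) ≤ (n + i3) := by clear * - b6 b7 b8 y17 y21; omega
        have r1050 : (2 * n + i + 3 * i2 + l2 - k - i3 + 1) % 2 = 0 := by clear * - ev n1p n2p n3p; omega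
        clear * - al tt c D2 kk1044 kk1045 kk1046 kk1047 kk1048 kk1049 r1050
        obtain ⟨t, ht⟩ : ∃ t, 2 * t = (2 * n + i + 3 * i2 + l2 - k - i3 + 1) := ⟨(2 * n + i + 3 * i2 + l2 - k - i3 + 1) / 2, by omega⟩
        exact al.ninv t (cE (cI (pb (show Par W (k + l + i3 - i2 - l2 + 1) (n + i3 - i2 - l2 - 1) (2 * i2 + l2 - k - l - i3) from fun t h1 h2 => (cE (sh al (-1) t (t + (-n)) (by omega)) (cE (pb D2 al (-1) (t + (-n)) (t + (i2 + l2 - i3 + 1)) (by omega)) (pb c al 0 (t + (i2 + l2 - i3 + 1)) (t + (2 * i2 + l2 - k - l - i3)) (by omega))))) al 1 t (t + (k + l + i3 - n - 2 * i2 - l2)) (by omega)) (qa tt al 0 (t + (k + l + i3 - n - 2 * i2 - l2)) ((n + i + 3 * i2 + l2 - k - i3 + 1) - t) (by omega))) (sh al 1 ((n + i + 3 * i2 + l2 - k - i3 + 1) - t) t (by omega)))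
      · by_cases z70 : (j + k + l + i3 + 1) ≤ (i + 2 * i2 + l2)
        · by_cases z71 : (2 * i2 + l2) ≤ (i + j + k + l + i3)
          · by_cases v31 : (j + k + l + i3 + 1) ≤ (2 * i2 + l2)
            · have kk1051 : (j + k + l + i3 + 1) ≤ (i + 2 * i2 + l2) := by clear * - v31 z71; omega
              have kk1052 : (2 * i2 + l2) ≤ (i + j + k + l + i3) := by clear * - z71; omega
              have kk1053 : (2 * i2 + l2) ≤ (i + 3 * j + k + l + i3 + 2) := by clear * - b9 v31 z71; omega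
              have kk1054 : (k + l + i3) ≤ (i + j + 2 * i2 + l2) := by clear * - b9 v31 z71; omega
              have kk1055 : (i2) ≤ (k) := by clear * - b10 b6 b7 b8 v31 z69 z71; linarith
              have kk1056 : (i2 + l2) ≤ (k + l) := by clear * - b10 b8 v31 z67 z69 z71; omega
              have kk1057 : (j + k + l + i3 + 1) ≤ (2 * i2 + l2) := by clear * - v31; omega
              have kk1058 : (j + i3 + 1) ≤ (k) := by clear * - b10 b6 b7 b8 v31 z67 z69 z71; linarith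
              have kk1059 : (k + i2 + l2 + 1) ≤ (n + i3) := by clear * - y17; omega
              have kk1060 : (i2) ≤ (l + i3 + 1) := by clear * - b10 b8 z67 z68 z69 z71; omega
              have r1061 : (i + j - 2 * n) % 2 = 0 := by clear * - ev n1p n2p n3p; omega
              have r1062 : (i + 2 * i2 + l2 - j - k - l - i3) % 2 = 0 := by clear * - ev n1p n2p n3p; omega
              clear * - al a1 s1 b c D2 kk1051 kk1052 kk1053 kk1054 kk1055 kk1056 kk1057 kk1058 kk1059 kk1060 r1061 r1062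
              exact midP al (i + 2 * i2 + l2 - j - k - l - i3) (i + j - 2 * n) (-n) (-n) (i + 2 * i2 + l2 - n - k - l - i3) (by omega) (fun t h1 h2 => (cE (qa s1 al (-1) t ((i + j - n) - t) (by omega)) (sh al (-1) ((i + j - n) - t) ((i + j - 2 * n) - t) (by omega)))) (fun t h1 h2 => (cE (cE (cE (qf a1 al (-1) t (t + (n + k - j)) (by omega)) (pb D2 al 0 (t + (n + k - j)) (t + (n + k + i2 + l2 - j - i3 + 1)) (by omega))) (qf (show Par W (2 * k + l - i2 + 2) (k + l + l2 + 2) (n + i + i2 - 2 * k - l - 1) from fun t h1 h2 => (cE (sh al (-1) t (t + (-n)) (by omega)) (cE (cE (pb c al (-1) (t + (-n)) (t + (i2 - k - l - 1)) (by omega)) (pb b al 0 (t + (i2 - k - l - 1)) (t + (i + i2 - 2 * k - l - 1)) (by omega))) (sh al 1 (t + (i + i2 - 2 * k - l - 1)) (t + (n + i + i2 - 2 * k - l - 1)) (by omega))))) al 0 (t + (n + k + i2 + l2 - j - i3 + 1)) (t + (2 * n + i + 2 * i2 + l2 - j - k - l - i3)) (by omega))) (sh al (-2) (t + (2 *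 n + i + 2 * i2 + l2 - j - k - l - i3)) (t + (i + 2 * i2 + l2 - j - k - l - i3)) (by omega))))
            · have kk1063 : (j + k + l + i3 + 1) ≤ (i + 2 * i2 + l2) := by clear * - z70; omega
              have kk1064 : (j + k + l + i3 + 2) ≤ (i + 2 * i2 + l2) := by clear * - z70 ev n1p n2p n3p; omega
              have kk1065 : (j + 3 * k + 3 * l + 3 * i3 + 2) ≤ (i + 6 * i2 + 3 * l2) := by clear * - b9 v31 z70; omega
              have kk1066 : (i2) ≤ (k) := by clear * - b6 b7 b8 v31 y21 z67; omega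
              have kk1067 : (i2 + l2) ≤ (k + l) := by clear * - b10 b8 z67 z69 z70; omega
              have kk1068 : (2 * i2 + l2) ≤ (j + k + l + i3 + 1) := by clear * - v31; omega
              have kk1069 : (2 * i2 + l2) ≤ (2 * k + l) := by clear * - b10 b4 b6 b7 b8 z69 z70; linarith
              have kk1070 : (k + i2 + l2 + 1) ≤ (n + i3) := by clear * - v31 z67; omega
              have kk1071 : (i2) ≤ (l + i3 + 1) := by clear * - b10 b8 z67 z68 z69 z71; omega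
              have r1072 : (i + j - 2 * n) % 2 = 0 := by clear * - ev n1p n2p n3p; omega
              have r1073 : (i + 2 * i2 + l2 - j - k - l - i3) % 2 = 0 := by clear * - ev n1p n2p n3p; omega
              clear * - al a1 s1 b c D2 kk1063 kk1064 kk1065 kk1066 kk1067 kk1068 kk1069 kk1070 kk1071 r1072 r1073
              exact midP al (i + 2 * i2 + l2 - j - k - l - i3) (i + j - 2 * n) (j + k + l + i3 - n - 2 * i2 - l2 + 1) (j + k + l + i3 - n - 2 * i2 - l2 + 1) (i + 2 * i2 + l2 - n - k - l - i3) (by omega) (fun t h1 h2 => (cE (qa s1 al (-1) t ((i + j - n) - t) (by omega)) (sh al (-1) ((i + j - n) - t) ((i + j - 2 * n) - t) (by omega)))) (fun t h1 h2 => (cE (cE (cE (qf a1 al (-1) t (t + (n + k - j)) (by omega)) (pb D2 al 0 (t + (n + k - j)) (t + (n + k + i2 + l2 - j - i3 + 1)) (by omega))) (qf (show Par W (2 * k + l - i2 + 2) (k + l + l2 + 2) (n + i + i2 - 2 * k - l - 1) from fun t h1 h2 => (cE (sh al (-1) t (t +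 (-n)) (by omega)) (cE (cE (pb c al (-1) (t + (-n)) (t + (i2 - k - l - 1)) (by omega)) (pb b al 0 (t + (i2 - k - l - 1)) (t + (i + i2 - 2 * k - l - 1)) (by omega))) (sh al 1 (t + (i + i2 - 2 * k - l - 1)) (t + (n + i + i2 - 2 * k - l - 1)) (by omega))))) al 0 (t + (n + k + i2 + l2 - j - i3 + 1)) (t + (2 * n + i + 2 * i2 + l2 - j - k - l - i3)) (by omega))) (sh al (-2) (t + (2 * n + i + 2 * i2 + l2 - j - k - l - i3)) (t + (i + 2 * i2 + l2 - j - k - l - i3)) (by omega))))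
          · have kk1074 : (3 * i2 + 2 * l2 + 2) ≤ (n + j + l + 2 * i3) := by clear * - b10 y13 z69 z71 ev n1p n2p n3p; omega
            have kk1075 : (j + l + 2 * i3) ≤ (3 * i2 + 2 * l2) := by clear * - b10 b6 b7 b8 z67 z68 z69 z70; linarith
            have kk1076 : (i2 + l2) ≤ (k + l) := by clear * - b10 b8 z67 z69 z70; omega
            have kk1077 : (n) ≤ (k + l + l2 + 2) := by clear * - b10 b8 z67 z68 z69 z70; omega
            have kk1078 : (i3) ≤ (i2) := by clear * - b10 b8 z67 z68 z69 z70; omega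
            have kk1079 : (j + l + i3 + 1) ≤ (i2 + l2) := by clear * - b10 b6 b7 b8 z69 z70 z71; linarith
            have kk1080 : (n + l + 2 * i3) ≤ (3 * i2 + 2 * l2 + 1) := by clear * - b10 b8 z67 z68 z69 z70 z71; linarith
            have kk1081 : (k + l + i3) ≤ (2 * i2 + l2) := by clear * - b10 b8 z67 z68 z69 z70; omega
            clear * - al a1 c D2 kk1074 kk1075 kk1076 kk1077 kk1078 kk1079 kk1080 kk1081
            exact al.ubP (n + j + l + 2 * i3 - 3 * i2 - 2 * l2 - 1) (by omega) (by omega) fun t h1 h2 => (cE (sh al 1 t (t + (n)) (by omega)) (cE (cE (qf D2 al 0 (t + (n)) (t + (n + i3 - i2 - l2 - 1)) (by omega)) (pb (show Par W (k + l + i3 - i2 - l2 + 1) (n + i3 - i2 - l2 - 1) (2 * i2 + l2 - k - l - i3) from fun t h1 h2 => (cE (sh al (-1) t (t + (-n)) (by omega)) (cE (pb D2 al (-1) (t + (-n)) (t + (i2 + l2 - i3 + 1)) (by omega)) (pb c al 0 (t + (i2 + l2 - i3 + 1)) (t + (2 * i2 + l2 - k - l - i3)) (by omega)))))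 al 0 (t + (n + i3 - i2 - l2 - 1)) (t + (n + k + l + 2 * i3 - 3 * i2 - 2 * l2 - 1)) (by omega))) (pb a1 al 0 (t + (n + k + l + 2 * i3 - 3 * i2 - 2 * l2 - 1)) (t + (n + j + l + 2 * i3 - 3 * i2 - 2 * l2 - 1)) (by omega))))
        · have kk1082 : (3 * i2 + 2 * l2 + 2) ≤ (n + j + l + 2 * i3) := by clear * - b1 b7 z67 z69 z70; omega
          have kk1083 : (j + l + 2 * i3) ≤ (3 * i2 + 2 * l2) := by clear * - b1 b10 b3 b6 b7 b8 z67 z69 z70; linarith
          have kk1084 : (i2 + l2) ≤ (k + l) := by clear * - b1 b4; omega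
          have kk1085 : (n) ≤ (k + l + l2 + 2) := by clear * - b2 b5 b8 z67 z68 z69; omega
          have kk1086 : (i3) ≤ (i2) := by clear * - b1 b5 b8 b9 z67 z68 z69; linarith
          have kk1087 : (j + l + i3 + 1) ≤ (i2 + l2) := by clear * - b6 b7 b8 y21 z67; omega
          have kk1088 : (k + l + i3) ≤ (2 * i2 + l2) := by clear * - b2 b5 b8 z67; omega
          have kk1089 : (n + l + 2 * i3) ≤ (3 * i2 + 2 * l2 + 1) := by clear * - b1 b3 b7 z67 z69 z70; omega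
          clear * - al a1 c D2 kk1082 kk1083 kk1084 kk1085 kk1086 kk1087 kk1088 kk1089
          exact al.ubP (n + j + l + 2 * i3 - 3 * i2 - 2 * l2 - 1) (by omega) (by omega) fun t h1 h2 => (cE (cE (qf D2 al (-1) t (t + (n + i3 - i2 - l2 - 1)) (by omega)) (pb (show Par W (k + l + i3 - i2 - l2 + 1) (n + i3 - i2 - l2 - 1) (2 * i2 + l2 - k - l - i3) from fun t h1 h2 => (cE (sh al (-1) t (t + (-n)) (by omega)) (cE (pb D2 al (-1) (t + (-n)) (t + (i2 + l2 - i3 + 1)) (by omega)) (pb c al 0 (t + (i2 + l2 - i3 + 1)) (t + (2 * i2 + l2 - k - l - i3)) (by omega))))) al 0 (t + (n + i3 - i2 - l2 - 1)) (t + (n + k + l + 2 * i3 - 3 * i2 - 2 * l2 - 1)) (by omega))) (pb a1 al 0 (t + (n + k + l + 2 * i3 - 3 * i2 - 2 * l2 - 1)) (t + (n + j + l + 2 * i3 - 3 * i2 - 2 * l2 - 1)) (by omega)))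
    · by_cases z72 : (k) ≤ (i + 2 * j)
      · by_cases z73 : (2 * j + 1) ≤ (i + k)
        · have kk1090 : (k) ≤ (i + 2 * j) := by clear * - z72; omega
          have kk1091 : (2 * j + 1) ≤ (i + k) := by clear * - z73; omega
          have kk1092 : (i) ≤ (j) := by clear * - b10 b6 b7 b8 b9 z68 z72 z73; linarith
          have r1093 : (2 * n + i + k) % 2 = 0 := by clear * - ev n1p n2p n3p; omega
          clear * - al a1 s1 kk1090 kk1091 kk1092 r1093
          obtain ⟨t, ht⟩ : ∃ t, 2 * t = (2 * n + i + k) := ⟨(2 * n + i + k) / 2, by omega⟩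
          exact al.ninv t (cE (cI (pb a1 al 1 t (t + (j - n - k)) (by omega)) (qa s1 al 0 (t + (j - n - k)) ((n + i + k) - t) (by omega))) (sh al 1 ((n + i + k) - t) t (by omega)))
        · have kk1094 : (3 * k + l + 2) ≤ (n + i + j + i2) := by clear * - z67 z72; omega
          have kk1095 : (i + j + i2) ≤ (3 * k + l) := by clear * - b1 b3 b6 b7 b9 z68 z72; linarith
          have kk1096 : (n + i + i2) ≤ (3 * k + l + 1) := by clear * - b1 b3 b5 b6 b7 b8 z68; linarith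
          have kk1097 : (i2) ≤ (k) := by clear * - b1 b3 b5 b6 b7 z68; omega
          have kk1098 : (i2 + l2) ≤ (k + l) := by clear * - b1 b4; omega
          have kk1099 : (i + j + 1) ≤ (k) := by clear * - b1 b3 b5 b6 b7 b8 z67 z68; linarith
          have kk1100 : (2 * k) ≤ (i + i2 + l2 + 1) := by clear * - b7 y2 y21 z73; omega
          clear * - al a1 b c kk1094 kk1095 kk1096 kk1097 kk1098 kk1099 kk1100
          exact al.ubP (n + i + j + i2 - 3 * k - l - 1) (by omega) (by omega) fun t h1 h2 => (cE (sh al 2 t (t + (2 * n)) (by omega)) (cE (qf (show Par W (2 * k + l - i2 + 2) (k + l + l2 + 2) (n + i + i2 - 2 * k - l - 1) from fun t h1 h2 => (cE (sh al (-1) t (t + (-n)) (by omega)) (cE (cE (pb c al (-1) (t + (-n)) (t + (i2 - k - l - 1)) (by omega)) (pb b al 0 (t + (i2 - k - l - 1)) (t + (i + i2 - 2 * k - l - 1)) (by omega))) (sh al 1 (t + (i + i2 - 2 * k - l - 1)) (t + (n + i + i2 - 2 * k - l - 1)) (by omega)))))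 al 1 (t + (2 * n)) (t + (2 * n + i + i2 - 2 * k - l - 1)) (by omega)) (pb a1 al 1 (t + (2 * n + i + i2 - 2 * k - l - 1)) (t + (n + i + j + i2 - 3 * k - l - 1)) (by omega))))
      · by_cases z74 : (3 * i2 + 2 * l2 + 2) ≤ (n + j + l + 2 * i3)
        · have kk1101 : (3 * i2 + 2 * l2 + 2) ≤ (n + j + l + 2 * i3) := by clear * - z74; omega
          have kk1102 : (j + l + 2 * i3) ≤ (3 * i2 + 2 * l2) := by clear * - b1 b3 b6 b7 z67 z68 z72 z74; linarith
          have kk1103 : (i2 + l2) ≤ (k + l) := by clear * - b1 b4; omega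
          have kk1104 : (n) ≤ (k + l + l2 + 2) := by clear * - b2 b5 b7 b8 z67 z68; omega
          have kk1105 : (i3) ≤ (i2) := by clear * - b1 b3 b7 b9 z67 z68 z74; linarith
          have kk1106 : (j + l + i3 + 1) ≤ (i2 + l2) := by clear * - b2 b5 b8 z72; omega
          have kk1107 : (k + l + i3) ≤ (2 * i2 + l2) := by clear * - b2 b5 b8 z67; omega
          have kk1108 : (n + l + 2 * i3) ≤ (3 * i2 + 2 * l2 + 1) := by clear * - b1 b3 z67 z74; omega
          clear * - al a1 c D2 kk1101 kk1102 kk1103 kk1104 kk1105 kk1106 kk1107 kk1108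
          exact al.ubP (n + j + l + 2 * i3 - 3 * i2 - 2 * l2 - 1) (by omega) (by omega) fun t h1 h2 => (cE (cE (qf D2 al (-1) t (t + (n + i3 - i2 - l2 - 1)) (by omega)) (pb (show Par W (k + l + i3 - i2 - l2 + 1) (n + i3 - i2 - l2 - 1) (2 * i2 + l2 - k - l - i3) from fun t h1 h2 => (cE (sh al (-1) t (t + (-n)) (by omega)) (cE (pb D2 al (-1) (t + (-n)) (t + (i2 + l2 - i3 + 1)) (by omega)) (pb c al 0 (t + (i2 + l2 - i3 + 1)) (t + (2 * i2 + l2 - k - l - i3)) (by omega))))) al 0 (t + (n + i3 - i2 - l2 - 1)) (t + (n + k + l + 2 * i3 - 3 * i2 - 2 * l2 - 1)) (by omega))) (pb a1 al 0 (t + (n + k + l + 2 * i3 - 3 * i2 - 2 * l2 - 1)) (t + (n + j + l + 2 * i3 - 3 * i2 - 2 * l2 - 1)) (by omega)))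
        · by_cases v32 : (Q + 2 * i2 + l2) ≤ (2 * k + l + i3 + 1)
          · have kk1109 : (j + k + l + i3 + 1) ≤ (i + 2 * i2 + l2) := by clear * - b1 b2 b7 z67 z68 z74; omega
            have kk1110 : (j + k + l + l2 + i3 + 4) ≤ (n + 2 * Q + i) := by clear * - b1 b2 b7 z67 z68; omega
            have kk1111 : (n + 3 * j + k + l + i3) ≤ (i + 4 * i2 + 3 * l2) := by clear * - b2 b7 y13 z67 z68 z74; omega
            have kk1112 : (j + 3 * k + 3 * l + 3 * i3 + 4) ≤ (n + 3 * i + 4 * i2 + l2) := by clear * - b1 b10 b2 b7 z67 z68 z74; linarith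
            have kk1113 : (2 * i2 + 2 * l2 + 2) ≤ (n + 2 * j + 2 * i3) := by clear * - b10 y13 ev n1p n2p n3p; omega
            have kk1114 : (n) ≤ (2 * i2 + 2 * l2 + 2) := by clear * - b1 b10 b2 b7 b8 z67 z68; linarith
            have kk1115 : (2 * k + 2 * l + 2 * i3 + 2) ≤ (n + 2 * i + 2 * j + 2 * i2) := by clear * - b1 b10 b2 b7 b8 z67 z68 z74; linarith
            have kk1116 : (i3 + 1) ≤ (Q) := by clear * - b1 b10 b2 b7 b8 z67 z68 z74; linarith
            have kk1117 : (k + i2 + l2 + 1) ≤ (n + i3) := by clear * - y17; omega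
            have kk1118 : (i2) ≤ (k) := by clear * - b2 b5 b8 v32 z67; omega
            have kk1119 : (i2 + l2) ≤ (k + l) := by clear * - b1 b4; omega
            have kk1120 : (Q + 2 * i2 + l2) ≤ (2 * k + l + i3 + 1) := by clear * - v32; omega
            have kk1121 : (i2) ≤ (l + i3 + 1) := by clear * - b2 b5 b7 b8 y17 z68 z74; linarith
            have kk1122 : (j + k + l + i3 + 1) ≤ (2 * i2 + l2) := by clear * - z67 z74; omega
            have kk1123 : (k + l + i3) ≤ (2 * i2 + l2) := by clear * - b2 b5 b8 z67; omega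
            have r1124 : (i + j) % 2 = 0 := by clear * - ev n1p n2p n3p; omega
            have r1125 : (i + 2 * i2 + l2 - j - k - l - i3) % 2 = 0 := by clear * - ev n1p n2p n3p; omega
            have r1126 : (k + l + l2 + i3 - n + 2) % 2 = 0 := by clear * - ev n1p n2p n3p; omega
            clear * - al a2 s1 b c u2 D2 kk1109 kk1110 kk1111 kk1112 kk1113 kk1114 kk1115 kk1116 kk1117 kk1118 kk1119 kk1120 kk1121 kk1122 kk1123 r1124 r1125 r1126
            exact mid2 al (i + 2 * i2 + l2 - j - k - l - i3) (i + j) (k + l + l2 + i3 - n + 2) (0) (i) 0 (j + k + l + i3 - 2 * i2 - l2 + 1) (i + 2 * i2 + l2 - k - l - i3) (by omega) (fun t h1 h2 => ⟨by omega, (qa s1 al 0 t ((i + j) - t) (by omega))⟩) (fun t h1 h2 => ⟨by omega, (ab u2 al 0 t ((k + l + l2 + i3 - n + 2) - t) (by omega))⟩) (fun t h1 h2 => (cE (cE (pb (show Par W (Q + i2 + l2 - i3 + 1) (k + i2 + l2 - i3 + 1) (n + j + i3 - k - i2 - l2 - 1) from fun t h1 h2 => (cE (sh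 al (-1) t (t + (-n)) (by omega)) (cE (cE (qf D2 al (-1) (t + (-n)) (t + (i3 - i2 - l2 - 1)) (by omega)) (pb a2 al 0 (t + (i3 - i2 - l2 - 1)) (t + (j + i3 - k - i2 - l2 - 1)) (by omega))) (sh al 1 (t + (j + i3 - k - i2 - l2 - 1)) (t + (n + j + i3 - k - i2 - l2 - 1)) (by omega))))) al (-1) t (t + (k + i2 + l2 - j - i3 + 1)) (by omega)) (qf (show Par W (2 * k + l - i2 + 2) (k + l + l2 + 2) (n + i + i2 - 2 * k - l - 1) from fun t h1 h2 => (cE (sh al (-1) t (t + (-n)) (by omega)) (cE (cE (pb c al (-1) (t + (-n)) (t + (i2 - k - l - 1)) (by omega)) (pb b al 0 (t + (i2 - k - l - 1)) (t + (i + i2 - 2 * k - l - 1)) (by omega))) (sh al 1 (t + (i + i2 - 2 * k - l - 1)) (t + (n + i + i2 - 2 * k - l - 1)) (by omega))))) al 0 (t + (k + i2 + l2 - j - i3 + 1)) (t + (n + i + 2 * i2 + l2 - j - k - l - i3)) (by omega))) (sh al (-1) (t + (n + i + 2 * i2 + l2 - j - k - l - i3)) (t + (i + 2 * i2 + l2 - j - k - l - i3)) (by omega))))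
          · have kk1127 : (j + k + l + i3 + 1) ≤ (i + 2 * i2 + l2) := by clear * - b1 b10 b6 b7 v32 z68 z74; linarith
            have kk1128 : (j + k + l + l2 + i3 + 4) ≤ (n + 2 * Q + i) := by clear * - b1 b10 b6 b7 v32 z68 z74; linarith
            have kk1129 : (n + 2 * Q + 3 * j) ≤ (i + 3 * k + l + l2 + i3 + 2) := by clear * - b10 b6 b7 y13 z68 z74; omega
            have kk1130 : (j + 3 * k + 3 * l + 3 * i3 + 4) ≤ (n + 3 * i + 4 * i2 + l2) := by clear * - b1 b10 b6 b7 v32 z68 z74; linarith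
            have kk1131 : (2 * i2 + 2 * l2 + 2) ≤ (n + 2 * j + 2 * i3) := by clear * - b10 y13 ev n1p n2p n3p; omega
            have kk1132 : (n + 2 * Q + 2 * i2) ≤ (4 * k + 2 * l + 2 * i3 + 4) := by clear * - b1 b10 b3 b6 b7 b8 v32 z68 z74; linarith
            have kk1133 : (2 * k + 2 * l + 2 * i3 + 2) ≤ (n + 2 * i + 2 * j + 2 * i2) := by clear * - b1 b10 b3 b6 b7 b9 v32 z68; linarith
            have kk1134 : (i3 + 1) ≤ (Q) := by clear * - b2 b5 b6 b8 v32 z68 z72; linarith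
            have kk1135 : (k + i2 + l2 + 1) ≤ (n + i3) := by clear * - y17; omega
            have kk1136 : (i2) ≤ (k) := by clear * - b2 b5 b6 b7 b8 z68 z74; linarith
            have kk1137 : (i2 + l2) ≤ (k + l) := by clear * - b5 b6 b8 v32 z68 z74; omega
            have kk1138 : (2 * k + l + i3 + 1) ≤ (Q + 2 * i2 + l2) := by clear * - v32; omega
            have kk1139 : (i2) ≤ (l + i3 + 1) := by clear * - b2 b5 b6 b7 b8 v32 z68 z74; linarith
            have kk1140 : (j + k + l + i3 + 1) ≤ (2 * i2 + l2) := by clear * - z67 z74; omega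
            have kk1141 : (Q + j) ≤ (k) := by clear * - b10 b6 b7 y13 z68 z72 z74; linarith
            have kk1142 : (k + l + i3) ≤ (2 * i2 + l2) := by clear * - b5 b6 b7 b8 v32 z68 z74; linarith
            have kk1143 : (Q) ≤ (k + 1) := by clear * - b5 b6 b7 b8 v32 z68 z74; linarith
            have r1144 : (i + j) % 2 = 0 := by clear * - ev n1p n2p n3p; omega
            have r1145 : (i + 2 * i2 + l2 - j - k - l - i3) % 2 = 0 := by clear * - ev n1p n2p n3p; omega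
            have r1146 : (k + l + l2 + i3 - n + 2) % 2 = 0 := by clear * - ev n1p n2p n3p; omega
            clear * - al a2 s1 b c u2 D2 kk1127 kk1128 kk1129 kk1130 kk1131 kk1132 kk1133 kk1134 kk1135 kk1136 kk1137 kk1138 kk1139 kk1140 kk1141 kk1142 kk1143 r1144 r1145 r1146
            exact mid2 al (i + 2 * i2 + l2 - j - k - l - i3) (i + j) (k + l + l2 + i3 - n + 2) (0) (i) 0 (Q + j - k) (i + 2 * i2 + l2 - k - l - i3) (by omega) (fun t h1 h2 => ⟨by omega, (qa s1 al 0 t ((i + j) - t) (by omega))⟩) (fun t h1 h2 => ⟨by omega, (ab u2 al 0 t ((k + l + l2 + i3 - n + 2) - t) (by omega))⟩) (fun t h1 h2 => (cE (cE (pb (show Par W (Q + i2 + l2 - i3 + 1) (k + i2 + l2 - i3 + 1) (n + j + i3 - k - i2 - l2 - 1) from fun t h1 h2 => (cE (sh al (-1) t (t + (-n)) (by omega)) (cE (cE (qf D2 al (-1) (t + (-n)) (t + (i3 - i2 - l2 - 1)) (by omega)) (pb a2 al 0 (t + (i3 - i2 - l2 - 1)) (t + (j + i3 - k - i2 - l2 - 1)) (by omega))) (sh al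 1 (t + (j + i3 - k - i2 - l2 - 1)) (t + (n + j + i3 - k - i2 - l2 - 1)) (by omega))))) al (-1) t (t + (k + i2 + l2 - j - i3 + 1)) (by omega)) (qf (show Par W (2 * k + l - i2 + 2) (k + l + l2 + 2) (n + i + i2 - 2 * k - l - 1) from fun t h1 h2 => (cE (sh al (-1) t (t + (-n)) (by omega)) (cE (cE (pb c al (-1) (t + (-n)) (t + (i2 - k - l - 1)) (by omega)) (pb b al 0 (t + (i2 - k - l - 1)) (t + (i + i2 - 2 * k - l - 1)) (by omega))) (sh al 1 (t + (i + i2 - 2 * k - l - 1)) (t + (n + i + i2 - 2 * k - l - 1)) (by omega))))) al 0 (t + (k + i2 + l2 - j - i3 + 1)) (t + (n + i + 2 * i2 + l2 - j - k - l - i3)) (by omega))) (sh al (-1) (t + (n + i + 2 * i2 + l2 - j - k - l - i3)) (t + (i + 2 * i2 + l2 - j - k - l - i3)) (by omega))))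

theorem t1c_18 {W : ℤ → G} {n Q i j k l i2 l2 i3 : ℤ} (al : AL W n Q)
    (hy : (0) ≤ (i) ∧ (i) ≤ (j) ∧ (j + 1) ≤ (Q) ∧ (Q) ≤ (k) ∧ (k + 1) ≤ (n) ∧ (Q) ≤ (i + l + 1) ∧ (k + l + 2) ≤ (n) ∧ (Q) ≤ (i2) ∧ (i2) ≤ (i + l + 1) ∧ (Q) ≤ (i2 + l2 + 1) ∧ (i2 + l2 + 2) ≤ (n) ∧ (n) ≤ (k + l + l2 + 2) ∧ (k + l + l2 + 3) ≤ (n + Q) ∧ (0) ≤ (i3) ∧ (n + i3) ≤ (k + l + l2 + 2) ∧ (k + i2 + l2 + 2) ≤ (n + j + i3) ∧ (j + i3 + 1) ≤ (k) ∧ (k + i2 + l2 + 2) ≤ (n + i3) ∧ (i + 2 * i2 + 1) ≤ (2 * Q + k) ∧ (i + l + 1) ≤ (i2 + l2) ∧ (i2 + l2 + 1) ≤ (k + l) ∧ (i3 + 1) ≤ (i))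
    (a1 : Par W (0) (j) (k - j))
    (a2 : Par W (Q + j - k) (j) (k - j))
    (s1 : Ant W (0) (i) (i + j))
    (s2 : Ant W (j + 1) (Q) (i + j))
    (b : Par W (i + 1) (i + l + 1) (k - i))
    (tt : Ant W (Q) (i2) (i + l + i2 + 1))
    (c : Par W (i2 + 1) (i2 + l2 + 1) (k + l - i2 + 1))
    (u1 : Ant W (0) (i3) (k + l + l2 + i3 - n + 2))
    (u2 : Ant W (k + l + l2 - n + 3) (Q) (k + l + l2 + i3 - n + 2))
    (D1 : Par W (i3 + 1) (Q) (i2 + l2 - i3 + 1))
    (D2 : Par W (i2 + l2 + 2) (n) (i3 - i2 - l2 - 1))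
    {L : ℤ} (mx : ∀ a b g, 0 < g → g < n → Par W a b g → b - a ≤ L)
    (hL : L ≤ (n - j - 3) ∧ L ≤ (n + Q - k - 3) ∧ L ≤ (n - l - 3) ∧ L ≤ (n + i - k - 2) ∧ L ≤ (n - l2 - 3) ∧ L ≤ (n + i3 - Q - 2) ∧ L ≤ (i2 + l2 - 1) ∧ L ≤ (n + i2 - k - l - 3) ∧ L ≤ (Q + i2 + l2 - l - i3 - 3))
    (bd0 : Bd W n L (j) (i) (k))
    (bd2 : Bd W n L (k + l + l2 - n + 2) (i3) (i2 + l2 + 1))
    (n1 : Nd W (j) (i) (k))
    (n2 : Nd W (i + l + 1) (i2) (k + l + 1))
    (n3 : Nd W (k + l + l2 - n + 2) (i3) (i2 + l2 + 1))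
    (b0 : (2 * i + j + 1) ≤ (k))
    (b1 : (l + i3 + 3) ≤ (Q + i2))
    (b2 : (k + l + i3 + 2) ≤ (2 * Q + l2))
    (b3 : (2 * n + 2 * Q + i3) ≤ (k + l + 2 * i2 + 3 * l2 + 5))
    (b4 : (Q + 2 * i2 + l2) ≤ (k + 2 * l + i3 + 2))
    (b5 : (2 * Q + 2 * k + l + 1) ≤ (n + 2 * i + j + i2))
    (b6 : (2 * i + l + i2 + 3) ≤ (2 * Q + k))
    (b7 : (2 * Q + k) ≤ (i + i2 + l2 + i3 + 1))
    (b8 : (n + i) ≤ (2 * k + l))
    (b9 : (2 * i + k + l + i3 + 1) ≤ (2 * i2 + l2)) : False := by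
  have ev := al.ev
  obtain ⟨y0, y1, y2, y3, y4, y5, y6, y7, y8, y9, y10, y11, y12, y13, y14, y15, y16, y17, y18, y19, y20, y21⟩ := id hy
  have n1p := And.intro n1.p1 n1.p2
  have n2p := And.intro n2.p1 n2.p2
  have n3p := And.intro n3.p1 n3.p2
  by_cases z52 : (n + 2 * j) ≤ (2 * i2 + 2 * l2)
  · exact t1c_19 al hy a1 a2 s1 s2 b tt c u1 u2 D1 D2 mx hL bd0 bd2 n1 n2 n3 (by clear * - b0; omega) (by clear * - b1; omega) (by clear * - b2; omega) (by clear * - b3; omega) (by clear * - b4; omega) (by clear * - b5; omega) (by clear * - b6; omega) (by clear * - b7; omega) (by clear * - b8; omega) (by clear * - b9; omega) (by clear * - z52; omega)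
  · exact t1c_22 al hy a1 a2 s1 s2 b tt c u1 u2 D1 D2 mx hL bd0 bd2 n1 n2 n3 (by clear * - b0; omega) (by clear * - b1; omega) (by clear * - b2; omega) (by clear * - b3; omega) (by clear * - b4; omega) (by clear * - b5; omega) (by clear * - b6; omega) (by clear * - b7; omega) (by clear * - b8; omega) (by clear * - b9; omega) (by clear * - z52; omega)

theorem t1c_17 {W : ℤ → G} {n Q i j k l i2 l2 i3 : ℤ} (al : AL W n Q)
    (hy : (0) ≤ (i) ∧ (i) ≤ (j) ∧ (j + 1) ≤ (Q) ∧ (Q) ≤ (k) ∧ (k + 1) ≤ (n) ∧ (Q) ≤ (i + l + 1) ∧ (k + l + 2) ≤ (n) ∧ (Q) ≤ (i2) ∧ (i2) ≤ (i + l + 1) ∧ (Q) ≤ (i2 + l2 + 1) ∧ (i2 + l2 + 2) ≤ (n) ∧ (n) ≤ (k + l + l2 + 2) ∧ (k + l + l2 + 3) ≤ (n + Q) ∧ (0) ≤ (i3) ∧ (n + i3) ≤ (k + l + l2 + 2) ∧ (k + i2 + l2 + 2) ≤ (n + j + i3) ∧ (j + i3 + 1) ≤ (k) ∧ (k + i2 + l2 + 2) ≤ (n + i3) ∧ (i + 2 * i2 + 1) ≤ (2 * Q + k) ∧ (i + l + 1) ≤ (i2 + l2) ∧ (i2 + l2 + 1) ≤ (k + l) ∧ (i3 + 1) ≤ (i))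
    (a1 : Par W (0) (j) (k - j))
    (a2 : Par W (Q + j - k) (j) (k - j))
    (s1 : Ant W (0) (i) (i + j))
    (s2 : Ant W (j + 1) (Q) (i + j))
    (b : Par W (i + 1) (i + l + 1) (k - i))
    (tt : Ant W (Q) (i2) (i + l + i2 + 1))
    (c : Par W (i2 + 1) (i2 + l2 + 1) (k + l - i2 + 1))
    (u1 : Ant W (0) (i3) (k + l + l2 + i3 - n + 2))
    (u2 : Ant W (k + l + l2 - n + 3) (Q) (k + l + l2 + i3 - n + 2))
    (D1 : Par W (i3 + 1) (Q) (i2 + l2 - i3 + 1))
    (D2 : Par W (i2 + l2 + 2) (n) (i3 - i2 - l2 - 1))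
    {L : ℤ} (mx : ∀ a b g, 0 < g → g < n → Par W a b g → b - a ≤ L)
    (hL : L ≤ (n - j - 3) ∧ L ≤ (n + Q - k - 3) ∧ L ≤ (n - l - 3) ∧ L ≤ (n + i - k - 2) ∧ L ≤ (n - l2 - 3) ∧ L ≤ (n + i3 - Q - 2) ∧ L ≤ (i2 + l2 - 1) ∧ L ≤ (n + i2 - k - l - 3) ∧ L ≤ (Q + i2 + l2 - l - i3 - 3))
    (bd0 : Bd W n L (j) (i) (k))
    (bd2 : Bd W n L (k + l + l2 - n + 2) (i3) (i2 + l2 + 1))
    (n1 : Nd W (j) (i) (k))
    (n2 : Nd W (i + l + 1) (i2) (k + l + 1))
    (n3 : Nd W (k + l + l2 - n + 2) (i3) (i2 + l2 + 1))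
    (b0 : (2 * i + j + 1) ≤ (k))
    (b1 : (l + i3 + 3) ≤ (Q + i2))
    (b2 : (k + l + i3 + 2) ≤ (2 * Q + l2))
    (b3 : (2 * n + 2 * Q + i3) ≤ (k + l + 2 * i2 + 3 * l2 + 5))
    (b4 : (Q + 2 * i2 + l2) ≤ (k + 2 * l + i3 + 2))
    (b5 : (2 * Q + 2 * k + l + 1) ≤ (n + 2 * i + j + i2))
    (b6 : (2 * i + l + i2 + 3) ≤ (2 * Q + k))
    (b7 : (2 * Q + k) ≤ (i + i2 + l2 + i3 + 1))
    (b8 : (n + i) ≤ (2 * k + l)) : False := by
  have ev := al.ev
  obtain ⟨y0, y1, y2, y3, y4, y5, y6, y7, y8, y9, y10, y11, y12, y13, y14, y15, y16, y17, y18, y19, y20, y21⟩ := id hy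
  have n1p := And.intro n1.p1 n1.p2
  have n2p := And.intro n2.p1 n2.p2
  have n3p := And.intro n3.p1 n3.p2
  by_cases z50 : (2 * i2 + l2) ≤ (2 * i + k + l + i3)
  · by_cases z51 : (k + l + i3) ≤ (2 * i + 2 * j + l2)
    · by_cases v21 : (j + i2 + l2) ≤ (k + l + i3)
      · have kk691 : (k + l + i3 + 1) ≤ (2 * i2 + l2) := by clear * - b1 b3 y17; omega
        have kk692 : (k + l + i3) ≤ (2 * i + 2 * j + l2) := by clear * - z51; omega
        have kk693 : (7 * k + 5 * l + 3 * i3 + 4) ≤ (2 * n + 4 * i + 2 * j + 4 * i2 + 3 * l2) := by clear * - b1 b2 b3 b5 y17; omega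
        have kk694 : (3 * k + 3 * l + i3 + 4) ≤ (2 * n + 2 * i2 + l2) := by clear * - b1 b2 b3 b4 b5 b6 v21 y17; linarith
        have kk695 : (i2 + l2) ≤ (k + l) := by clear * - b1 b4; omega
        have kk696 : (n) ≤ (k + l + l2 + 2) := by clear * - b1 b2 b4 b7 b8; omega
        have kk697 : (n + i + i2) ≤ (2 * k + 2 * l + 2) := by clear * - b1 b2 b3 b4 b8 y17; omega
        have kk698 : (n + i) ≤ (k + l + l2 + 2) := by clear * - b2 b3 b8 y17; omega
        have kk699 : (2 * k + l + 2) ≤ (n + i2) := by clear * - b1 b3 y17; omega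
        have kk700 : (k + l + 2) ≤ (n) := by clear * - b1 b2 b3 b4 b5 b6 v21 y17; linarith
        have kk701 : (j + i2 + l2) ≤ (k + l + i3) := by clear * - v21; omega
        have kk702 : (2 * i + j + i2 + l2) ≤ (2 * k + l + i3) := by clear * - b0 b2 b5 b8 v21 y17; omega
        have r703 : (3 * n + 2 * i + j + i2 - 2 * k - l - 1) % 2 = 0 := by clear * - ev n1p n2p n3p; omega
        have r704 : (2 * i2 + l2 - k - l - i3) % 2 = 0 := by clear * - ev n1p n2p n3p; omega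
        clear * - al s1 b c D2 kk691 kk692 kk693 kk694 kk695 kk696 kk697 kk698 kk699 kk700 kk701 kk702 r703 r704
        exact midP al (2 * i2 + l2 - k - l - i3) (3 * n + 2 * i + j + i2 - 2 * k - l - 1) (n + k + l + i3 - i2 - l2 + 1) (n + k + l + i3 - i2 - l2 + 1) (2 * n + i2 - k - l - 1) (by omega) (fun t h1 h2 => (cE (cE (cE (ab s1 al 1 t ((n + i + j) - t) (by omega)) (pb c al (-1) ((n + i + j) - t) ((2 * n + i + j + i2 - k - l - 1) - t) (by omega))) (pb b al 0 ((2 * n + i + j + i2 - k - l - 1) - t) ((2 * n + 2 * i + j + i2 - 2 * k - l - 1) - t) (by omega))) (sh al 1 ((2 * n + 2 * i + j + i2 - 2 * k - l - 1) - t) ((3 * n + 2 * i + j + i2 - 2 * k - l - 1) - t) (by omega)))) (fun t h1 h2 => (cE (qf (show Par W (k + l + i3 - i2 - l2 + 1) (n + i3 - i2 - l2 - 1) (2 * i2 + l2 - k - l - i3) from fun t h1 h2 => (cE (sh al (-1) t (t + (-n)) (by omega)) (cE (pb D2 al (-1) (t + (-n)) (t + (i2 + l2 - i3 + 1)) (by omega)) (pb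 c al 0 (t + (i2 + l2 - i3 + 1)) (t + (2 * i2 + l2 - k - l - i3)) (by omega))))) al 1 t (t + (2 * i2 + l2 - n - k - l - i3)) (by omega)) (sh al 1 (t + (2 * i2 + l2 - n - k - l - i3)) (t + (2 * i2 + l2 - k - l - i3)) (by omega))))
      · have kk705 : (k + l + i3 + 1) ≤ (2 * i2 + l2) := by clear * - b1 b3 y17; omega
        have kk706 : (2 * i2 + l2) ≤ (2 * i + k + l + i3) := by clear * - z50; omega
        have kk707 : (5 * k + 3 * l + i3 + 4) ≤ (2 * n + 4 * i + 2 * i2 + l2) := by clear * - b1 b2 b7 y17 y21; omega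
        have kk708 : (2 * j + k + l + l2 + 4) ≤ (2 * n + i3) := by clear * - b0 b1 b3 y17 z50; omega
        have kk709 : (i2 + l2) ≤ (k + l) := by clear * - b1 b4; omega
        have kk710 : (n) ≤ (k + l + l2 + 2) := by clear * - b1 b2 b4 b7 b8; omega
        have kk711 : (n + i + i2) ≤ (2 * k + 2 * l + 2) := by clear * - b1 b2 b3 b4 b8 y17; omega
        have kk712 : (n + i) ≤ (k + l + l2 + 2) := by clear * - b2 b3 b8 y17; omega
        have kk713 : (2 * k + l + 2) ≤ (n + i2) := by clear * - b1 b3 y17; omega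
        have kk714 : (k + l + 2) ≤ (n) := by clear * - b0 b1 b3 v21 y17 z50; omega
        have kk715 : (k + l + i3) ≤ (j + i2 + l2) := by clear * - v21; omega
        have kk716 : (2 * i) ≤ (k) := by clear * - b0 b2 b5 b8 y17; omega
        have r717 : (3 * n + 2 * i + j + i2 - 2 * k - l - 1) % 2 = 0 := by clear * - ev n1p n2p n3p; omega
        have r718 : (2 * i2 + l2 - k - l - i3) % 2 = 0 := by clear * - ev n1p n2p n3p; omega
        clear * - al s1 b c D2 kk705 kk706 kk707 kk708 kk709 kk710 kk711 kk712 kk713 kk714 kk715 kk716 r717 r718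
        exact midP al (2 * i2 + l2 - k - l - i3) (3 * n + 2 * i + j + i2 - 2 * k - l - 1) (n + j + 1) (n + k + l + i3 - i2 - l2 + 1) (2 * n + i2 - k - l - 1) (by omega) (fun t h1 h2 => (cE (cE (cE (ab s1 al 1 t ((n + i + j) - t) (by omega)) (pb c al (-1) ((n + i + j) - t) ((2 * n + i + j + i2 - k - l - 1) - t) (by omega))) (pb b al 0 ((2 * n + i + j + i2 - k - l - 1) - t) ((2 * n + 2 * i + j + i2 - 2 * k - l - 1) - t) (by omega))) (sh al 1 ((2 * n + 2 * i + j + i2 - 2 * k - l - 1) - t) ((3 * n + 2 * i + j + i2 - 2 * k - l - 1) - t) (by omega)))) (fun t h1 h2 => (cE (qf (show Par W (k + l + i3 - i2 - l2 + 1) (n + i3 - i2 - l2 - 1) (2 * i2 + l2 - k - l - i3) from fun t h1 h2 => (cE (sh al (-1) t (t + (-n)) (by omega)) (cE (pb D2 al (-1) (t + (-n)) (t + (i2 + l2 - i3 + 1)) (by omega)) (pb c al 0 (t + (i2 + l2 - i3 + 1)) (t + (2 * i2 + l2 - k - l - i3)) (by omega))))) al 1 t (t + (2 * i2 + l2 - n - k - l - i3)) (by omega))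 (sh al 1 (t + (2 * i2 + l2 - n - k - l - i3)) (t + (2 * i2 + l2 - k - l - i3)) (by omega))))
    · by_cases v22 : (i + k + 1) ≤ (2 * Q)
      · have kk719 : (k + l + i3 + 1) ≤ (2 * i2 + l2) := by clear * - b2 b5 b8 z51; omega
        have kk720 : (2 * Q + 2 * j + 2 * i2 + l2) ≤ (2 * i + 3 * k + l + i3) := by clear * - b3 b5 b6 y21 z50 z51; omega
        have kk721 : (2 * Q + l + i3) ≤ (2 * i + k + l2) := by clear * - b3 b5 b6 y21 z50 z51; omega
        have kk722 : (2 * Q + k + l + l2 + 2) ≤ (2 * n + i3) := by clear * - b2 b4 b5 b6 b8 z50 z51; linarith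
        have kk723 : (i2 + l2) ≤ (k + l) := by clear * - b1 b4; omega
        have kk724 : (n) ≤ (k + l + l2 + 2) := by clear * - b2 b4 b5 b7 b8 z50 z51; linarith
        have kk725 : (i + k + 1) ≤ (2 * Q) := by clear * - v22; omega
        have kk726 : (i) ≤ (j) := by clear * - b3 b4 b5 b6 b8 v22 y21 z51; linarith
        have kk727 : (i + k + l2 + 1) ≤ (n + i3) := by clear * - b2 b4 b5 b6 b8 v22 z50 z51; linarith
        have kk728 : (k + l + i3 + 1) ≤ (Q + i2 + l2) := by clear * - b2 b5 b8 z51; omega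
        have r729 : (i + k - 2 * n) % 2 = 0 := by clear * - ev n1p n2p n3p; omega
        have r730 : (2 * i2 + l2 - k - l - i3) % 2 = 0 := by clear * - ev n1p n2p n3p; omega
        clear * - al a2 s2 c D2 kk719 kk720 kk721 kk722 kk723 kk724 kk725 kk726 kk727 kk728 r729 r730
        exact midP al (2 * i2 + l2 - k - l - i3) (i + k - 2 * n) (Q - n) (k + l + i3 - n - i2 - l2 + 1) (i2 - k - l - 1) (by omega) (fun t h1 h2 => (cE (cI (pb a2 al (-1) t (t + (n + j - k)) (by omega)) (ab s2 al 0 (t + (n + j - k)) ((i + k - n) - t) (by omega))) (sh al (-1) ((i + k - n) - t) ((i + k - 2 * n) - t) (by omega)))) (fun t h1 h2 => (cE (qf (show Par W (k + l + i3 - i2 - l2 + 1) (n + i3 - i2 - l2 - 1) (2 * i2 + l2 - k - l - i3) from fun t h1 h2 => (cE (sh al (-1) t (t + (-n)) (by omega)) (cE (pb D2 al (-1) (t + (-n)) (t + (i2 + l2 - i3 + 1)) (by omega)) (pb c al 0 (t + (i2 + l2 - i3 + 1)) (t + (2 * i2 + l2 - k - l - i3)) (by omega)))))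 al (-1) t (t + (n + 2 * i2 + l2 - k - l - i3)) (by omega)) (sh al (-1) (t + (n + 2 * i2 + l2 - k - l - i3)) (t + (2 * i2 + l2 - k - l - i3)) (by omega))))
      · have kk731 : (k + l + i3 + 1) ≤ (2 * i2 + l2) := by clear * - b2 b5 b8 z51; omega
        have kk732 : (2 * j + 2 * i2 + l2 + 2) ≤ (2 * Q + k + l + i3) := by clear * - b2 z50 z51; omega
        have kk733 : (k + l + i3 + 2) ≤ (2 * Q + l2) := by clear * - b2; omega
        have kk734 : (2 * i + 3 * k + l + l2 + 4) ≤ (2 * n + 2 * Q + i3) := by clear * - b2 b5 b8 y17 z51; omega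
        have kk735 : (i2 + l2) ≤ (k + l) := by clear * - b1 b4; omega
        have kk736 : (n) ≤ (k + l + l2 + 2) := by clear * - b2 b4 b5 b7 b8 z50 z51; linarith
        have kk737 : (2 * Q) ≤ (i + k + 1) := by clear * - v22; omega
        have kk738 : (i) ≤ (j) := by clear * - y1; omega
        have kk739 : (i + k + l2 + 1) ≤ (n + i3) := by clear * - b2 b5 b8 y17 z51; omega
        have kk740 : (Q + l + i3) ≤ (i + i2 + l2) := by clear * - b2 b5 b8 v22 z51; omega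
        have r741 : (i + k - 2 * n) % 2 = 0 := by clear * - ev n1p n2p n3p; omega
        have r742 : (2 * i2 + l2 - k - l - i3) % 2 = 0 := by clear * - ev n1p n2p n3p; omega
        clear * - al a2 s2 c D2 kk731 kk732 kk733 kk734 kk735 kk736 kk737 kk738 kk739 kk740 r741 r742
        exact midP al (2 * i2 + l2 - k - l - i3) (i + k - 2 * n) (i + k - n - Q + 1) (k + l + i3 - n - i2 - l2 + 1) (i2 - k - l - 1) (by omega) (fun t h1 h2 => (cE (cI (pb a2 al (-1) t (t + (n + j - k)) (by omega)) (ab s2 al 0 (t + (n + j - k)) ((i + k - n) - t) (by omega))) (sh al (-1) ((i + k - n) - t) ((i + k - 2 * n) - t) (by omega)))) (fun t h1 h2 => (cE (qf (show Par W (k + l + i3 - i2 - l2 + 1) (n + i3 - i2 - l2 - 1) (2 * i2 + l2 - k - l - i3) from fun t h1 h2 => (cE (sh al (-1) t (t + (-n)) (by omega)) (cE (pb D2 al (-1) (t + (-n)) (t + (i2 + l2 - i3 + 1)) (by omega)) (pb c al 0 (t + (i2 + l2 - i3 + 1)) (t + (2 * i2 + l2 - k - l - i3))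 (by omega))))) al (-1) t (t + (n + 2 * i2 + l2 - k - l - i3)) (by omega)) (sh al (-1) (t + (n + 2 * i2 + l2 - k - l - i3)) (t + (2 * i2 + l2 - k - l - i3)) (by omega))))
  · exact t1c_18 al hy a1 a2 s1 s2 b tt c u1 u2 D1 D2 mx hL bd0 bd2 n1 n2 n3 (by clear * - b0; omega) (by clear * - b1; omega) (by clear * - b2; omega) (by clear * - b3; omega) (by clear * - b4; omega) (by clear * - b5; omega) (by clear * - b6; omega) (by clear * - b7; omega) (by clear * - b8; omega) (by clear * - z50; omega)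

theorem t1c_16 {W : ℤ → G} {n Q i j k l i2 l2 i3 : ℤ} (al : AL W n Q)
    (hy : (0) ≤ (i) ∧ (i) ≤ (j) ∧ (j + 1) ≤ (Q) ∧ (Q) ≤ (k) ∧ (k + 1) ≤ (n) ∧ (Q) ≤ (i + l + 1) ∧ (k + l + 2) ≤ (n) ∧ (Q) ≤ (i2) ∧ (i2) ≤ (i + l + 1) ∧ (Q) ≤ (i2 + l2 + 1) ∧ (i2 + l2 + 2) ≤ (n) ∧ (n) ≤ (k + l + l2 + 2) ∧ (k + l + l2 + 3) ≤ (n + Q) ∧ (0) ≤ (i3) ∧ (n + i3) ≤ (k + l + l2 + 2) ∧ (k + i2 + l2 + 2) ≤ (n + j + i3) ∧ (j + i3 + 1) ≤ (k) ∧ (k + i2 + l2 + 2) ≤ (n + i3) ∧ (i + 2 * i2 + 1) ≤ (2 * Q + k) ∧ (i + l + 1) ≤ (i2 + l2) ∧ (i2 + l2 + 1) ≤ (k + l) ∧ (i3 + 1) ≤ (i))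
    (a1 : Par W (0) (j) (k - j))
    (a2 : Par W (Q + j - k) (j) (k - j))
    (s1 : Ant W (0) (i) (i + j))
    (s2 : Ant W (j + 1) (Q) (i + j))
    (b : Par W (i + 1) (i + l + 1) (k - i))
    (tt : Ant W (Q) (i2) (i + l + i2 + 1))
    (c : Par W (i2 + 1) (i2 + l2 + 1) (k + l - i2 + 1))
    (u1 : Ant W (0) (i3) (k + l + l2 + i3 - n + 2))
    (u2 : Ant W (k + l + l2 - n + 3) (Q) (k + l + l2 + i3 - n + 2))
    (D1 : Par W (i3 + 1) (Q) (i2 + l2 - i3 + 1))
    (D2 : Par W (i2 + l2 + 2) (n) (i3 - i2 - l2 - 1))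
    {L : ℤ} (mx : ∀ a b g, 0 < g → g < n → Par W a b g → b - a ≤ L)
    (hL : L ≤ (n - j - 3) ∧ L ≤ (n + Q - k - 3) ∧ L ≤ (n - l - 3) ∧ L ≤ (n + i - k - 2) ∧ L ≤ (n - l2 - 3) ∧ L ≤ (n + i3 - Q - 2) ∧ L ≤ (i2 + l2 - 1) ∧ L ≤ (n + i2 - k - l - 3) ∧ L ≤ (Q + i2 + l2 - l - i3 - 3))
    (bd0 : Bd W n L (j) (i) (k))
    (bd2 : Bd W n L (k + l + l2 - n + 2) (i3) (i2 + l2 + 1))
    (n1 : Nd W (j) (i) (k))
    (n2 : Nd W (i + l + 1) (i2) (k + l + 1))
    (n3 : Nd W (k + l + l2 - n + 2) (i3) (i2 + l2 + 1))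
    (b0 : (2 * i + j + 1) ≤ (k))
    (b1 : (l + i3 + 3) ≤ (Q + i2))
    (b2 : (k + l + i3 + 2) ≤ (2 * Q + l2))
    (b3 : (2 * n + 2 * Q + i3) ≤ (k + l + 2 * i2 + 3 * l2 + 5))
    (b4 : (Q + 2 * i2 + l2) ≤ (k + 2 * l + i3 + 2))
    (b5 : (n + i) ≤ (2 * k + l + 1))
    (b6 : (2 * Q + 2 * k + l + 1) ≤ (n + 2 * i + j + i2))
    (b7 : (2 * i + l + i2 + 3) ≤ (2 * Q + k))
    (b8 : (2 * Q + k) ≤ (i + i2 + l2 + i3 + 1)) : False := by
  have ev := al.ev
  obtain ⟨y0, y1, y2, y3, y4, y5, y6, y7, y8, y9, y10, y11, y12, y13, y14, y15, y16, y17, y18, y19, y20, y21⟩ := id hy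
  have n1p := And.intro n1.p1 n1.p2
  have n2p := And.intro n2.p1 n2.p2
  have n3p := And.intro n3.p1 n3.p2
  by_cases z49 : (2 * k + l + 1) ≤ (n + i)
  · have kk680 : (i2 + l2 + 1) ≤ (k + l) := by clear * - b1 b4; omega
    have kk681 : (k + l + 2) ≤ (n) := by clear * - b1 b4 y19 z49; omega
    have kk682 : (k + l + i3 + 1) ≤ (2 * i2 + l2) := by clear * - b1 b3 y17; omega
    have kk683 : (i + 1) ≤ (k) := by clear * - b1 b4 y19; omega
    have kk684 : (2 * k + l + 1) ≤ (n + i) := by clear * - z49; omega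
    have kk685 : (i + i2 + l2 + 1) ≤ (k + l + i3) := by clear * - b5 y17; omega
    have kk686 : (i2) ≤ (i + l + 1) := by clear * - b1 b2 b4 b8; omega
    have kk687 : (i2 + l2) ≤ (k + l) := by clear * - b1 b4; omega
    have kk688 : (n) ≤ (k + l + l2 + 2) := by clear * - b1 b2 b4 b5 b8; omega
    have r689 : (2 * i2 + l2 - k - l - i3) % 2 = 0 := by clear * - ev n1p n2p n3p; omega
    have r690 : (k - i) % 2 = 0 := by clear * - ev n1p n2p n3p; omega
    clear * - al b c D2 n2 kk680 kk681 kk682 kk683 kk684 kk685 kk686 kk687 kk688 r689 r690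
    exact n2.f1 (rEE (sh al 0 (i2) (i2) (by omega)) (qf D2 al 0 (k + l + 1) (k + l + i3 - i2 - l2) (by omega)) (Eq.symm (rotL (2 * i2 + l2 - k - l - i3) (k - i) (k + l + i3 - i2 - l2) (i2) (by omega) (fun t h1 h2 => (qf (show Par W (k + l + i3 - i2 - l2 + 1) (n + i3 - i2 - l2 - 1) (2 * i2 + l2 - k - l - i3) from fun t h1 h2 => (cE (sh al (-1) t (t + (-n)) (by omega)) (cE (pb D2 al (-1) (t + (-n)) (t + (i2 + l2 - i3 + 1)) (by omega)) (pb c al 0 (t + (i2 + l2 - i3 + 1)) (t + (2 * i2 + l2 - k - l - i3)) (by omega))))) al 0 t (t + (2 * i2 + l2 - k - l - i3)) (by omega))) (fun t h1 h2 => (qf b al 0 t (t + (k - i)) (by omega))))))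
  · exact t1c_17 al hy a1 a2 s1 s2 b tt c u1 u2 D1 D2 mx hL bd0 bd2 n1 n2 n3 (by clear * - b0; omega) (by clear * - b1; omega) (by clear * - b2; omega) (by clear * - b3; omega) (by clear * - b4; omega) (by clear * - b6; omega) (by clear * - b7; omega) (by clear * - b8; omega) (by clear * - z49; omega)

theorem t1c_15 {W : ℤ → G} {n Q i j k l i2 l2 i3 : ℤ} (al : AL W n Q)
    (hy : (0) ≤ (i) ∧ (i) ≤ (j) ∧ (j + 1) ≤ (Q) ∧ (Q) ≤ (k) ∧ (k + 1) ≤ (n) ∧ (Q) ≤ (i + l + 1) ∧ (k + l + 2) ≤ (n) ∧ (Q) ≤ (i2) ∧ (i2) ≤ (i + l + 1) ∧ (Q) ≤ (i2 + l2 + 1) ∧ (i2 + l2 + 2) ≤ (n) ∧ (n) ≤ (k + l + l2 + 2) ∧ (k + l + l2 + 3) ≤ (n + Q) ∧ (0) ≤ (i3) ∧ (n + i3) ≤ (k + l + l2 + 2) ∧ (k + i2 + l2 + 2) ≤ (n + j + i3) ∧ (j + i3 + 1) ≤ (k) ∧ (k + i2 + l2 + 2) ≤ (n + i3) ∧ (i + 2 * i2 + 1) ≤ (2 * Q + k) ∧ (i + l + 1) ≤ (i2 + l2) ∧ (i2 + l2 + 1) ≤ (k + l) ∧ (i3 + 1) ≤ (i))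
    (a1 : Par W (0) (j) (k - j))
    (a2 : Par W (Q + j - k) (j) (k - j))
    (s1 : Ant W (0) (i) (i + j))
    (s2 : Ant W (j + 1) (Q) (i + j))
    (b : Par W (i + 1) (i + l + 1) (k - i))
    (tt : Ant W (Q) (i2) (i + l + i2 + 1))
    (c : Par W (i2 + 1) (i2 + l2 + 1) (k + l - i2 + 1))
    (u1 : Ant W (0) (i3) (k + l + l2 + i3 - n + 2))
    (u2 : Ant W (k + l + l2 - n + 3) (Q) (k + l + l2 + i3 - n + 2))
    (D1 : Par W (i3 + 1) (Q) (i2 + l2 - i3 + 1))
    (D2 : Par W (i2 + l2 + 2) (n) (i3 - i2 - l2 - 1))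
    {L : ℤ} (mx : ∀ a b g, 0 < g → g < n → Par W a b g → b - a ≤ L)
    (hL : L ≤ (n - j - 3) ∧ L ≤ (n + Q - k - 3) ∧ L ≤ (n - l - 3) ∧ L ≤ (n + i - k - 2) ∧ L ≤ (n - l2 - 3) ∧ L ≤ (n + i3 - Q - 2) ∧ L ≤ (i2 + l2 - 1) ∧ L ≤ (n + i2 - k - l - 3) ∧ L ≤ (Q + i2 + l2 - l - i3 - 3))
    (bd0 : Bd W n L (j) (i) (k))
    (bd2 : Bd W n L (k + l + l2 - n + 2) (i3) (i2 + l2 + 1))
    (n1 : Nd W (j) (i) (k))
    (n2 : Nd W (i + l + 1) (i2) (k + l + 1))
    (n3 : Nd W (k + l + l2 - n + 2) (i3) (i2 + l2 + 1))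
    (b0 : (2 * l + i3 + 3) ≤ (Q + i2 + l2))
    (b1 : (2 * i + j + 1) ≤ (k))
    (b2 : (l + i3 + 3) ≤ (Q + i2))
    (b3 : (k + l + i3 + 2) ≤ (2 * Q + l2))
    (b4 : (2 * n + 2 * Q + i3) ≤ (k + l + 2 * i2 + 3 * l2 + 5))
    (b5 : (Q + 2 * i2 + l2) ≤ (k + 2 * l + i3 + 2))
    (b6 : (n + i) ≤ (2 * k + l + 1))
    (b7 : (2 * Q + 2 * k + l + 1) ≤ (n + 2 * i + j + i2))
    (b8 : (2 * i + l + i2 + 3) ≤ (2 * Q + k)) : False := by
  have ev := al.ev
  obtain ⟨y0, y1, y2, y3, y4, y5, y6, y7, y8, y9, y10, y11, y12, y13, y14, y15, y16, y17, y18, y19, y20, y21⟩ := id hy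
  have n1p := And.intro n1.p1 n1.p2
  have n2p := And.intro n2.p1 n2.p2
  have n3p := And.intro n3.p1 n3.p2
  by_cases z47 : (i + i2 + l2 + i3 + 2) ≤ (2 * Q + k)
  · by_cases z48 : (3 * k + 2 * l + l2 + 5) ≤ (2 * n + i + i2 + i3)
    · have kk666 : (3 * k + 2 * l + l2 + 5) ≤ (2 * n + i + i2 + i3) := by clear * - z48; omega
      have kk667 : (i + i2 + l2 + i3 + 2) ≤ (2 * Q + k) := by clear * - z47; omega
      have kk668 : (n + i) ≤ (k + l + l2 + 2) := by clear * - b3 b4 b6 y17; omega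
      have kk669 : (n + i3) ≤ (k + l + l2 + 2) := by clear * - b2 b3 b4 b5; omega
      have kk670 : (Q) ≤ (i + l + 1) := by clear * - b3 b4 b5 b6 y21 z48; omega
      have kk671 : (Q) ≤ (l2 + i3 + 1) := by clear * - b0 b3 b4 b5 b8 y13 z47 z48; linarith
      have r672 : (k + i2 + l2 + i3 - 2 * n - i + 1) % 2 = 0 := by clear * - ev n1p n2p n3p; omega
      clear * - al b c u2 kk666 kk667 kk668 kk669 kk670 kk671 r672
      obtain ⟨t, ht⟩ : ∃ t, 2 * t = (k + i2 + l2 + i3 - 2 * n - i + 1) := ⟨(k + i2 + l2 + i3 - 2 * n - i + 1) / 2, by omega⟩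
      exact al.ninv t (cE (cE (cI (pb b al (-1) t (t + (n + i - k)) (by omega)) (qa u2 al 0 (t + (n + i - k)) ((2 * k + l + l2 + i3 - 2 * n - i + 2) - t) (by omega))) (pb c al (-1) ((2 * k + l + l2 + i3 - 2 * n - i + 2) - t) ((k + i2 + l2 + i3 - n - i + 1) - t) (by omega))) (sh al (-1) ((k + i2 + l2 + i3 - n - i + 1) - t) t (by omega)))
    · have kk673 : (n + i2) ≤ (j + 2 * k + l + 1) := by clear * - b7 y13 z47 z48; omega
      have kk674 : (j + 2 * k + l + 2) ≤ (n + 2 * i + i2) := by clear * - b7 y2; omega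
      have kk675 : (i2) ≤ (k) := by clear * - b0 b5; omega
      have kk676 : (i2 + l2) ≤ (k + l) := by clear * - b2 b5; omega
      have kk677 : (j + k) ≤ (i2 + l2) := by clear * - b2 b4 y17 y2; omega
      have kk678 : (i) ≤ (j) := by clear * - y1; omega
      have r679 : (n + j + 2 * k + l - i2 + 1) % 2 = 0 := by clear * - ev n1p n2p n3p; omega
      clear * - al s1 b c kk673 kk674 kk675 kk676 kk677 kk678 r679
      obtain ⟨t, ht⟩ : ∃ t, 2 * t = (n + j + 2 * k + l - i2 + 1) := ⟨(n + j + 2 * k + l - i2 + 1) / 2, by omega⟩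
      exact al.ninv t (cE (qa s1 al 1 t ((n + i + j) - t) (by omega)) (pb (show Par W (2 * k + l - i2 + 2) (k + l + l2 + 2) (n + i + i2 - 2 * k - l - 1) from fun t h1 h2 => (cE (sh al (-1) t (t + (-n)) (by omega)) (cE (cE (pb c al (-1) (t + (-n)) (t + (i2 - k - l - 1)) (by omega)) (pb b al 0 (t + (i2 - k - l - 1)) (t + (i + i2 - 2 * k - l - 1)) (by omega))) (sh al 1 (t + (i + i2 - 2 * k - l - 1)) (t + (n + i + i2 - 2 * k - l - 1)) (by omega))))) al (-1) ((n + i + j) - t) t (by omega)))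
  · exact t1c_16 al hy a1 a2 s1 s2 b tt c u1 u2 D1 D2 mx hL bd0 bd2 n1 n2 n3 (by clear * - b1; omega) (by clear * - b2; omega) (by clear * - b3; omega) (by clear * - b4; omega) (by clear * - b5; omega) (by clear * - b6; omega) (by clear * - b7; omega) (by clear * - b8; omega) (by clear * - z47; omega)

end Pool.Agent.MP_a38735_al.WL
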