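import Pool.Agent.MP_a38735_al.WT

set_option autoImplicit false
set_option linter.unusedVariables false

namespace Pool.Agent.MP_a38735_al.WL

variable {G : Type*} [Group G]

theorem t1c_30 {W : ℤ → G} {n Q i j k l i2 l2 i3 : ℤ} (al : AL W n Q)
    (hy : (0) ≤ (i) ∧ (i) ≤ (j) ∧ (j + 1) ≤ (Q) ∧ (Q) ≤ (k) ∧ (k + 1) ≤ (n) ∧ (Q) ≤ (i + l + 1) ∧ (k + l + 2) ≤ (n) ∧ (Q) ≤ (i2) ∧ (i2) ≤ (i + l + 1) ∧ (Q) ≤ (i2 + l2 + 1) ∧ (i2 + l2 + 2) ≤ (n) ∧ (n) ≤ (k + l + l2 + 2) ∧ (k + l + l2 + 3) ≤ (n + Q) ∧ (0) ≤ (i3) ∧ (n + i3) ≤ (k + l + l2 + 2) ∧ (k + i2 + l2 + 2) ≤ (n + j + i3) ∧ (j + i3 + 1) ≤ (k) ∧ (k + i2 + l2 + 2) ≤ (n + i3) ∧ (i + 2 * i2 + 1) ≤ (2 * Q + k) ∧ (i + l + 1) ≤ (i2 + l2) ∧ (i2 + l2 + 1) ≤ (k + l) ∧ (i3 + 1) ≤ (i))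
    (a1 : Par W (0) (j) (k - j))
    (a2 : Par W (Q + j - k) (j) (k - j))
    (s1 : Ant W (0) (i) (i + j))
    (s2 : Ant W (j + 1) (Q) (i + j))
    (b : Par W (i + 1) (i + l + 1) (k - i))
    (tt : Ant W (Q) (i2) (i + l + i2 + 1))
    (c : Par W (i2 + 1) (i2 + l2 + 1) (k + l - i2 + 1))
    (u1 : Ant W (0) (i3) (k + l + l2 + i3 - n + 2))
    (u2 : Ant W (k + l + l2 - n + 3) (Q) (k + l + l2 + i3 - n + 2))
    (D1 : Par W (i3 + 1) (Q) (i2 + l2 - i3 + 1))
    (D2 : Par W (i2 + l2 + 2) (n) (i3 - i2 - l2 - 1))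
    {L : ℤ} (mx : ∀ a b g, 0 < g → g < n → Par W a b g → b - a ≤ L)
    (hL : L ≤ (n - j - 3) ∧ L ≤ (n + Q - k - 3) ∧ L ≤ (n - l - 3) ∧ L ≤ (n + i - k - 2) ∧ L ≤ (n - l2 - 3) ∧ L ≤ (n + i3 - Q - 2) ∧ L ≤ (i2 + l2 - 1) ∧ L ≤ (n + i2 - k - l - 3) ∧ L ≤ (Q + i2 + l2 - l - i3 - 3))
    (bd0 : Bd W n L (j) (i) (k))
    (bd2 : Bd W n L (k + l + l2 - n + 2) (i3) (i2 + l2 + 1))
    (n1 : Nd W (j) (i) (k))
    (n2 : Nd W (i + l + 1) (i2) (k + l + 1))
    (n3 : Nd W (k + l + l2 - n + 2) (i3) (i2 + l2 + 1))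
    (b0 : (2 * l + i3 + 3) ≤ (Q + i2 + l2))
    (b1 : (2 * i + j + 1) ≤ (k))
    (b2 : (k + l + i3 + 2) ≤ (2 * Q + l2))
    (b3 : (2 * n + 2 * Q + i3) ≤ (k + l + 2 * i2 + 3 * l2 + 5))
    (b4 : (k + 2 * l + i3 + 3) ≤ (Q + 2 * i2 + l2))
    (b5 : (2 * Q + i2) ≤ (k + l + 2 * i3 + 1))
    (b6 : (3 * i2 + l2) ≤ (i + k + 2 * l + i3 + 2))
    (b7 : (n + 2 * j + i2) ≤ (i + k + 2 * l + l2 + i3 + 1))
    (b8 : (n + 3 * i + i2 + l2) ≤ (3 * k + 2 * l + i3 + 2))
    (b9 : (n + 4 * k + 5 * l + 6 * i3 + 1) ≤ (i + 2 * j + 7 * i2 + 6 * l2)) : False := by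
  have ev := al.ev
  obtain ⟨y0, y1, y2, y3, y4, y5, y6, y7, y8, y9, y10, y11, y12, y13, y14, y15, y16, y17, y18, y19, y20, y21⟩ := id hy
  have n1p := And.intro n1.p1 n1.p2
  have n2p := And.intro n2.p1 n2.p2
  have n3p := And.intro n3.p1 n3.p2
  by_cases z92 : (2 * j + 2 * k + l + i3 + 2) ≤ (2 * Q + i + 2 * i2 + l2)
  · by_cases z93 : (i2) ≤ (k)
    · by_cases v41 : (i + 2 * i2 + 2 * l2 + 2) ≤ (n + k + i3)
      · have kk1396 : (i + 2 * i2 + l2 + 1) ≤ (2 * k + l + i3) := by clear * - b2 b4 b5 b6 b8 v41 y20 z93; linarith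
        have kk1397 : (2 * j + 2 * k + l + i3 + 2) ≤ (2 * Q + i + 2 * i2 + l2) := by clear * - z92; omega
        have kk1398 : (i + 2 * k + l + i3 + 2) ≤ (2 * Q + 2 * i2 + l2) := by clear * - y1 z92; omega
        have kk1399 : (2 * n + i + 2 * j + i3) ≤ (2 * Q + l + 2 * i2 + 3 * l2 + 2) := by clear * - b3 b4 b5 b6 b8 b9 y17 z92; linarith
        have kk1400 : (i2) ≤ (k) := by clear * - z93; omega
        have kk1401 : (i2 + l2) ≤ (k + l) := by clear * - y20; omega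
        have kk1402 : (i3) ≤ (j) := by clear * - y1 y21; omega
        have kk1403 : (i3) ≤ (i) := by clear * - y21; omega
        have kk1404 : (i + 2 * i2 + 2 * l2 + 2) ≤ (n + k + i3) := by clear * - v41; omega
        have kk1405 : (Q + i2) ≤ (k + l + i3 + 1) := by clear * - b4 b5 b6 b8 b9 v41 y17 y20 z92; linarith
        have kk1406 : (Q + i2 + l2 + 1) ≤ (n + j + i3) := by clear * - b4 b5 b8 b9 v41 y15 y17 y21; linarith
        have r1407 : (i + j + i2 + l2 - n - i3 + 1) % 2 = 0 := by clear * - ev n1p n2p n3p; omega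
        have r1408 : (2 * k + l + i3 - i - 2 * i2 - l2) % 2 = 0 := by clear * - ev n1p n2p n3p; omega
        clear * - al s2 b c D1 D2 kk1396 kk1397 kk1398 kk1399 kk1400 kk1401 kk1402 kk1403 kk1404 kk1405 kk1406 r1407 r1408
        exact midP al (2 * k + l + i3 - i - 2 * i2 - l2) (i + j + i2 + l2 - n - i3 + 1) (i + j - Q + 1) (i + i2 + l2 - n - i3 + 2) (k + l + l2 - n + 2) (by omega) (fun t h1 h2 => (cE (cE (ab s2 al 0 t ((i + j) - t) (by omega)) (qf D1 al 0 ((i + j) - t) ((i + j + i2 + l2 - i3 + 1) - t) (by omega))) (sh al (-1) ((i + j + i2 + l2 - i3 + 1) - t) ((i + j + i2 + l2 - n - i3 + 1) - t) (by omega)))) (fun t h1 h2 => (cE (cE (qf D2 al (-1) t (t + (n + i3 - i2 - l2 - 1)) (by omega)) (pb (show Par W (2 * k + l - i2 + 2) (k + l + l2 + 2) (n + i + i2 - 2 * k - l - 1) from fun t h1 h2 => (cE (sh al (-1) t (t + (-n)) (by omega)) (cE (cE (pb c al (-1) (t + (-n)) (t + (i2 - k - l - 1)) (by omega)) (pb b al 0 (t + (i2 - k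 - l - 1)) (t + (i + i2 - 2 * k - l - 1)) (by omega))) (sh al 1 (t + (i + i2 - 2 * k - l - 1)) (t + (n + i + i2 - 2 * k - l - 1)) (by omega))))) al (-1) (t + (n + i3 - i2 - l2 - 1)) (t + (n + 2 * k + l + i3 - i - 2 * i2 - l2)) (by omega))) (sh al (-1) (t + (n + 2 * k + l + i3 - i - 2 * i2 - l2)) (t + (2 * k + l + i3 - i - 2 * i2 - l2)) (by omega))))
      · have kk1409 : (i + 2 * i2 + l2 + 1) ≤ (2 * k + l + i3) := by clear * - b4 b5 b6 b8 y17 y21 z93; linarith
        have kk1410 : (2 * j + 2 * k + l + i3 + 2) ≤ (2 * Q + i + 2 * i2 + l2) := by clear * - z92; omega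
        have kk1411 : (i + 2 * k + l + i3 + 2) ≤ (2 * Q + 2 * i2 + l2) := by clear * - b4 b6 b8 b9 v41 y17 y21 z92 z93; linarith
        have kk1412 : (3 * i + 2 * j + 2 * i2 + l2 + 2) ≤ (2 * Q + 2 * k + l + i3) := by clear * - b1 b4 b6 b8 y17 z92; omega
        have kk1413 : (i2) ≤ (k) := by clear * - z93; omega
        have kk1414 : (i2 + l2) ≤ (k + l) := by clear * - y20; omega
        have kk1415 : (i3) ≤ (j) := by clear * - y1 y21; omega
        have kk1416 : (i3) ≤ (i) := by clear * - y21; omega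
        have kk1417 : (n + k + i3) ≤ (i + 2 * i2 + 2 * l2 + 2) := by clear * - v41; omega
        have kk1418 : (Q + i2 + l2 + 1) ≤ (n + j + i3) := by clear * - y15 y7 z93; omega
        have kk1419 : (Q + i + 3 * i2 + 2 * l2 + 1) ≤ (n + 2 * k + l + 2 * i3) := by clear * - b4 b5 b8 y17 y21 z93; omega
        have r1420 : (i + j + i2 + l2 - n - i3 + 1) % 2 = 0 := by clear * - ev n1p n2p n3p; omega
        have r1421 : (2 * k + l + i3 - i - 2 * i2 - l2) % 2 = 0 := by clear * - ev n1p n2p n3p; omega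
        clear * - al s2 b c D1 D2 kk1409 kk1410 kk1411 kk1412 kk1413 kk1414 kk1415 kk1416 kk1417 kk1418 kk1419 r1420 r1421
        exact midP al (2 * k + l + i3 - i - 2 * i2 - l2) (i + j + i2 + l2 - n - i3 + 1) (i + j - Q + 1) (i + i2 + l2 - n - i3 + 2) (2 * k + l + i3 - i - 2 * i2 - l2) (by omega) (fun t h1 h2 => (cE (cE (ab s2 al 0 t ((i + j) - t) (by omega)) (qf D1 al 0 ((i + j) - t) ((i + j + i2 + l2 - i3 + 1) - t) (by omega))) (sh al (-1) ((i + j + i2 + l2 - i3 + 1) - t) ((i + j + i2 + l2 - n - i3 + 1) - t) (by omega)))) (fun t h1 h2 => (cE (cE (qf D2 al (-1) t (t + (n + i3 - i2 - l2 - 1)) (by omega)) (pb (show Par W (2 * k + l - i2 + 2) (k + l + l2 + 2) (n + i + i2 - 2 * k - l - 1) from fun t h1 h2 => (cE (sh al (-1) t (t + (-n)) (by omega)) (cE (cE (pb c al (-1) (t + (-n)) (t + (i2 - k - l - 1)) (by omega)) (pb b al 0 (t + (i2 - k - l - 1)) (t + (i + i2 - 2 * k - l - 1)) (by omega))) (sh al 1 (t + (i + i2 - 2 * k - l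 - 1)) (t + (n + i + i2 - 2 * k - l - 1)) (by omega))))) al (-1) (t + (n + i3 - i2 - l2 - 1)) (t + (n + 2 * k + l + i3 - i - 2 * i2 - l2)) (by omega))) (sh al (-1) (t + (n + 2 * k + l + i3 - i - 2 * i2 - l2)) (t + (2 * k + l + i3 - i - 2 * i2 - l2)) (by omega))))
    · by_cases v42 : (i + i2) ≤ (j + k)
      · have kk1422 : (i + 2 * i2 + l2 + 1) ≤ (2 * k + l + i3) := by clear * - b0 b5 b6 b8 y17 y21; omega
        have kk1423 : (2 * k + l + i3) ≤ (3 * i + 2 * i2 + l2) := by clear * - b4 b5 b6 y21 z93; omega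
        have kk1424 : (2 * j + l + i3 + 2) ≤ (i + 2 * k + l2) := by clear * - b1 b4 b5 b6 y20 y21 z93; linarith
        have kk1425 : (2 * j + 2 * k + l + l2 + 4) ≤ (2 * n + i + i3) := by clear * - b1 b4 b5 b8 y17 y21 z92 z93; linarith
        have kk1426 : (i) ≤ (j) := by clear * - v42 z93; omega
        have kk1427 : (k) ≤ (i2) := by clear * - z93; omega
        have kk1428 : (i2 + l2) ≤ (k + l) := by clear * - y20; omega
        have kk1429 : (n) ≤ (k + l + l2 + 2) := by clear * - b4 b5 b6 b8 b9 v42 y21 z92 z93; linarith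
        have kk1430 : (i + i2) ≤ (j + k) := by clear * - v42; omega
        have kk1431 : (i + k + i2 + l2 + 1) ≤ (n + j + i3) := by clear * - v42 y17 z93; omega
        have r1432 : (i + k) % 2 = 0 := by clear * - ev n1p n2p n3p; omega
        have r1433 : (2 * k + l + i3 - i - 2 * i2 - l2) % 2 = 0 := by clear * - ev n1p n2p n3p; omega
        clear * - al a1 s1 b c D2 kk1422 kk1423 kk1424 kk1425 kk1426 kk1427 kk1428 kk1429 kk1430 kk1431 r1432 r1433
        exact midP al (2 * k + l + i3 - i - 2 * i2 - l2) (i + k) (j + 1) (i + i2 - k + 1) (n + i3 - i2 - l2 - 1) (by omega) (fun t h1 h2 => (cE (ab s1 al 0 t ((i + j) - t) (by omega)) (qf a1 al 0 ((i + j) - t) ((i + k) - t) (by omega)))) (fun t h1 h2 => (cE (cE (qf b al 0 t (t + (k - i)) (by omega)) (qf c al 0 (t + (k - i)) (t + (2 * k + l - i - i2 + 1)) (by omega))) (qf D2 al 0 (t + (2 * k + l - i - i2 + 1)) (t + (2 * k + l + i3 - i - 2 * i2 - l2)) (by omega))))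
      · have kk1434 : (i + 2 * i2 + l2 + 1) ≤ (2 * k + l + i3) := by clear * - b0 b5 b6 b8 y17 y21; omega
        have kk1435 : (l + i3) ≤ (i + 2 * j + l2) := by clear * - b4 b5 b6 y1 y21; omega
        have kk1436 : (i + l + 2 * i2 + i3 + 2) ≤ (4 * k + l2) := by clear * - b0 b5 b6 b8 b9 v42 y17 y21 z93; linarith
        have kk1437 : (i + l + 2 * i2 + l2 + 4) ≤ (2 * n + i3) := by clear * - b1 b4 b5 b6 b8 b9 v42 y17 y21; linarith
        have kk1438 : (i) ≤ (j) := by clear * - y1; omega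
        have kk1439 : (k) ≤ (i2) := by clear * - z93; omega
        have kk1440 : (i2 + l2) ≤ (k + l) := by clear * - y20; omega
        have kk1441 : (n) ≤ (k + l + l2 + 2) := by clear * - b2 b4 b5 b6 b8 b9 v42 y21 z93; linarith
        have kk1442 : (j + k) ≤ (i + i2) := by clear * - v42; omega
        have kk1443 : (2 * k + l2 + 1) ≤ (n + i3) := by clear * - y17 z93; omega
        have r1444 : (i + k) % 2 = 0 := by clear * - ev n1p n2p n3p; omega
        have r1445 : (2 * k + l + i3 - i - 2 * i2 - l2) % 2 = 0 := by clear * - ev n1p n2p n3p; omega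
        clear * - al a1 s1 b c D2 kk1434 kk1435 kk1436 kk1437 kk1438 kk1439 kk1440 kk1441 kk1442 kk1443 r1444 r1445
        exact midP al (2 * k + l + i3 - i - 2 * i2 - l2) (i + k) (i + i2 - k + 1) (i + i2 - k + 1) (n + i3 - i2 - l2 - 1) (by omega) (fun t h1 h2 => (cE (ab s1 al 0 t ((i + j) - t) (by omega)) (qf a1 al 0 ((i + j) - t) ((i + k) - t) (by omega)))) (fun t h1 h2 => (cE (cE (qf b al 0 t (t + (k - i)) (by omega)) (qf c al 0 (t + (k - i)) (t + (2 * k + l - i - i2 + 1)) (by omega))) (qf D2 al 0 (t + (2 * k + l - i - i2 + 1)) (t + (2 * k + l + i3 - i - 2 * i2 - l2)) (by omega))))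
  · by_cases z94 : (k + l + l2 + i3 + 3) ≤ (n + i + j)
    · by_cases z95 : (n + 3 * i + j + 2 * i2 + l2 + i3 + 2) ≤ (4 * Q + 3 * k + l)
      · by_cases v43 : (n + i + i2 + i3) ≤ (Q + 2 * k + l + 1)
        · have kk1446 : (k + l + l2 + i3 + 3) ≤ (n + i + j) := by clear * - z94; omega
          have kk1447 : (j + 5 * k + 3 * l + l2 + 6) ≤ (3 * n + i + 2 * i2 + 3 * i3) := by clear * - b4 b7 y13 y17 y7 z94; omega
          have kk1448 : (i + j + k + l + l2 + 4) ≤ (n + 2 * Q + i3) := by clear * - b4 b7 b8 y17 z94; omega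
          have kk1449 : (i3) ≤ (i) := by clear * - y21; omega
          have kk1450 : (k + l + l2 + i3 + 2) ≤ (n + i + j) := by clear * - z94; omega
          have kk1451 : (Q + k) ≤ (i2 + l2 + i3 + 1) := by clear * - b3 b4 b7 b8 y13 y17 z94; linarith
          have kk1452 : (Q) ≤ (l2 + i3 + 1) := by clear * - b4 b5 b6 b7 b8 b9 y17 z94; linarith
          have kk1453 : (n + i2 + i3) ≤ (2 * k + 2 * l + 2) := by clear * - b6 b7 b8 b9 z94; omega
          have kk1454 : (n + i3) ≤ (k + l + l2 + 2) := by clear * - b6 b7 b8 b9 z94; omega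
          have kk1455 : (n + i + i2 + i3) ≤ (Q + 2 * k + l + 1) := by clear * - v43; omega
          have r1456 : (i + i2 + l2 + i3 - 2 * n - k + 1) % 2 = 0 := by clear * - ev n1p n2p n3p; omega
          have r1457 : (n + i + j - k - l - l2 - i3 - 2) % 2 = 0 := by clear * - ev n1p n2p n3p; omega
          clear * - al s2 b c u2 kk1446 kk1447 kk1448 kk1449 kk1450 kk1451 kk1452 kk1453 kk1454 kk1455 r1456 r1457
          exact midP al (n + i + j - k - l - l2 - i3 - 2) (i + i2 + l2 + i3 - 2 * n - k + 1) (k + l + l2 - 2 * n + 3) (k + l + l2 - 2 * n + 3) (Q - n) (by omega) (fun t h1 h2 => (cE (cI (cE (qf b al (-1) t (t + (n + k - i)) (by omega)) (qf c al 0 (t + (n + k - i)) (t + (n + 2 * k + l - i - i2 + 1)) (by omega))) (ab u2 al 1 (t + (n + 2 * k + l - i - i2 + 1)) ((i + i2 + l2 + i3 - n - k + 1) - t) (by omega))) (sh al (-1) ((i + i2 + l2 + i3 - n - k + 1) - t) ((i + i2 + l2 + i3 - 2 * n - k + 1) - t) (by omega)))) (fun t h1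 h2 => (cE (qf (show Par W (k + l + l2 - n + 3) (Q + k + l + l2 + i3 - n - i - j + 2) (n + i + j - k - l - l2 - i3 - 2) from fun t h1 h2 => (cE (sh al (-1) t (t + (-n)) (by omega)) (cII (qa u2 al (-1) (t + (-n)) ((k + l + l2 + i3 - n + 2) - t) (by omega)) (ab s2 al 0 ((k + l + l2 + i3 - n + 2) - t) (t + (n + i + j - k - l - l2 - i3 - 2)) (by omega))))) al (-1) t (t + (2 * n + i + j - k - l - l2 - i3 - 2)) (by omega)) (sh al (-1) (t + (2 * n + i + j - k - l - l2 - i3 - 2)) (t + (n + i + j - k - l - l2 - i3 - 2)) (by omega))))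
        · have kk1458 : (k + l + l2 + i3 + 3) ≤ (n + i + j) := by clear * - z94; omega
          have kk1459 : (i + j + k + l + l2 + 4) ≤ (n + 2 * Q + i3) := by clear * - v43 z95; omega
          have kk1460 : (n + 3 * i + j + 2 * i2 + l2 + i3 + 2) ≤ (4 * Q + 3 * k + l) := by clear * - z95; omega
          have kk1461 : (i3) ≤ (i) := by clear * - y21; omega
          have kk1462 : (k + l + l2 + i3 + 2) ≤ (n + i + j) := by clear * - z94; omega
          have kk1463 : (Q + k) ≤ (i2 + l2 + i3 + 1) := by clear * - b2 b3 b6 b8 v43 z94 z95; linarith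
          have kk1464 : (Q) ≤ (l2 + i3 + 1) := by clear * - b5 b7 b8 b9 v43 z92 z94 z95; linarith
          have kk1465 : (n + i2 + i3) ≤ (2 * k + 2 * l + 2) := by clear * - b6 b7 b8 b9 z94; omega
          have kk1466 : (n + i3) ≤ (k + l + l2 + 2) := by clear * - b6 b7 b8 b9 z94; omega
          have kk1467 : (Q + 2 * k + l + 1) ≤ (n + i + i2 + i3) := by clear * - v43; omega
          have r1468 : (i + i2 + l2 + i3 - 2 * n - k + 1) % 2 = 0 := by clear * - ev n1p n2p n3p; omega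
          have r1469 : (n + i + j - k - l - l2 - i3 - 2) % 2 = 0 := by clear * - ev n1p n2p n3p; omega
          clear * - al s2 b c u2 kk1458 kk1459 kk1460 kk1461 kk1462 kk1463 kk1464 kk1465 kk1466 kk1467 r1468 r1469
          exact midP al (n + i + j - k - l - l2 - i3 - 2) (i + i2 + l2 + i3 - 2 * n - k + 1) (i + i2 + l2 + i3 - n - Q - k + 2) (k + l + l2 - 2 * n + 3) (Q - n) (by omega) (fun t h1 h2 => (cE (cI (cE (qf b al (-1) t (t + (n + k - i)) (by omega)) (qf c al 0 (t + (n + k - i)) (t + (n + 2 * k + l - i - i2 + 1)) (by omega))) (ab u2 al 1 (t + (n + 2 * k + l - i - i2 + 1)) ((i + i2 + l2 + i3 - n - k + 1) - t) (by omega))) (sh al (-1) ((i + i2 + l2 + i3 - n - k + 1) - t) ((i + i2 + l2 + i3 - 2 * n - k + 1) - t) (by omega)))) (fun t h1 h2 => (cE (qf (show Par W (k + l + l2 - n + 3) (Q + k + l + l2 + i3 - n - i - j + 2) (n + i + j - k - l - l2 - i3 - 2) from fun t h1 h2 => (cE (sh al (-1) t (t + (-n)) (by omega)) (cII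 (qa u2 al (-1) (t + (-n)) ((k + l + l2 + i3 - n + 2) - t) (by omega)) (ab s2 al 0 ((k + l + l2 + i3 - n + 2) - t) (t + (n + i + j - k - l - l2 - i3 - 2)) (by omega))))) al (-1) t (t + (2 * n + i + j - k - l - l2 - i3 - 2)) (by omega)) (sh al (-1) (t + (2 * n + i + j - k - l - l2 - i3 - 2)) (t + (n + i + j - k - l - l2 - i3 - 2)) (by omega))))
      · by_cases z96 : (j + k + l + i3 + 1) ≤ (i + 2 * i2 + l2)
        · by_cases v44 : (j + k + l + i3 + 1) ≤ (2 * i2 + l2)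
          · have kk1470 : (j + k + l + i3 + 1) ≤ (i + 2 * i2 + l2) := by clear * - z96; omega
            have kk1471 : (2 * i2 + l2) ≤ (i + j + k + l + i3) := by clear * - b4 b6 b8 z94 z95; omega
            have kk1472 : (j + k + l + i3 + 2) ≤ (i + 2 * i2 + l2) := by clear * - b4 b7 b8 v44 z94 z95; omega
            have kk1473 : (j + l + i3 + 1) ≤ (i2 + l2) := by clear * - b1 b4 b6 v44 z92 z96; omega
            have kk1474 : (j + k + l + i3 + 1) ≤ (2 * i2 + l2) := by clear * - v44; omega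
            have kk1475 : (j + i3 + 1) ≤ (k) := by clear * - b4 b5 b6 b8 v44 z92 z94; linarith
            have kk1476 : (k + i2 + l2 + 1) ≤ (n + i3) := by clear * - y17; omega
            have kk1477 : (i2) ≤ (l + i3 + 1) := by clear * - b4 b6 b8 b9 v44 y17 z95 z96; linarith
            have kk1478 : (2 * i2 + l2) ≤ (k + 2 * l + i3 + 1) := by clear * - b4 b6 b8 b9 v44 y17 z94 z95; linarith
            have kk1479 : (0) ≤ (j + 1) := by clear * - b2 b4 b6 b8 v44 z94 z95; linarith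
            have kk1480 : (k + l + i3) ≤ (2 * i2 + l2) := by clear * - b2 b8 z94 z95 z96; omega
            have r1481 : (i + j - 2 * n) % 2 = 0 := by clear * - ev n1p n2p n3p; omega
            have r1482 : (i + 2 * i2 + l2 - j - k - l - i3) % 2 = 0 := by clear * - ev n1p n2p n3p; omega
            clear * - al a1 s1 b c D2 kk1470 kk1471 kk1472 kk1473 kk1474 kk1475 kk1476 kk1477 kk1478 kk1479 kk1480 r1481 r1482
            exact midP al (i + 2 * i2 + l2 - j - k - l - i3) (i + j - 2 * n) (j - n + 1) (-n) (i + 2 * i2 + l2 - n - k - l - i3) (by omega) (fun t h1 h2 => (cE (ab s1 al (-1) t ((i + j - n) - t) (by omega)) (sh al (-1) ((i + j - n) - t) ((i + j - 2 * n) - t) (by omega)))) (fun t h1 h2 => (cE (cE (cE (cE (qf a1 al (-1) t (t + (n + k - j)) (by omega)) (pb D2 al 0 (t + (n + k - j)) (t + (n + k + i2 + l2 - j - i3 + 1)) (by omega))) (pb c al 0 (t + (n + k + i2 + l2 - j - i3 + 1)) (t + (n + 2 * i2 + l2 - j - l - i3)) (by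 omega))) (pb b al 0 (t + (n + 2 * i2 + l2 - j - l - i3)) (t + (n + i + 2 * i2 + l2 - j - k - l - i3)) (by omega))) (sh al (-1) (t + (n + i + 2 * i2 + l2 - j - k - l - i3)) (t + (i + 2 * i2 + l2 - j - k - l - i3)) (by omega))))
          · have kk1483 : (j + k + l + i3 + 1) ≤ (i + 2 * i2 + l2) := by clear * - z96; omega
            have kk1484 : (2 * i2 + l2) ≤ (i + j + k + l + i3) := by clear * - v44 z96; omega
            have kk1485 : (j + k + l + i3 + 2) ≤ (i + 2 * i2 + l2) := by clear * - z96 ev n1p n2p n3p; omega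
            have kk1486 : (2 * i2 + l2) ≤ (j + k + l + i3 + 1) := by clear * - v44; omega
            have kk1487 : (i2) ≤ (k) := by clear * - b1 b4 b6 z92 z96; omega
            have kk1488 : (2 * i2 + l2) ≤ (2 * k + l) := by clear * - b1 b4 b6 b8 z92 z94 z96; linarith
            have kk1489 : (k + i2 + l2 + 1) ≤ (n + i3) := by clear * - y17; omega
            have kk1490 : (i2) ≤ (l + i3 + 1) := by clear * - b7 b8 b9 v44 y17 z96; omega
            have kk1491 : (2 * i2 + l2) ≤ (k + 2 * l + i3 + 1) := by clear * - b7 b8 b9 v44 y17 z94 z96; linarith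
            have kk1492 : (k + l + i3) ≤ (2 * i2 + l2) := by clear * - b2 b8 z94 z95 z96; omega
            have r1493 : (i + j - 2 * n) % 2 = 0 := by clear * - ev n1p n2p n3p; omega
            have r1494 : (i + 2 * i2 + l2 - j - k - l - i3) % 2 = 0 := by clear * - ev n1p n2p n3p; omega
            clear * - al a1 s1 b c D2 kk1483 kk1484 kk1485 kk1486 kk1487 kk1488 kk1489 kk1490 kk1491 kk1492 r1493 r1494
            exact midP al (i + 2 * i2 + l2 - j - k - l - i3) (i + j - 2 * n) (j - n + 1) (j + k + l + i3 - n - 2 * i2 - l2 + 1) (i + 2 * i2 + l2 - n - k - l - i3) (by omega) (fun t h1 h2 => (cE (ab s1 al (-1) t ((i + j - n) - t) (by omega)) (sh al (-1) ((i + j - n) - t) ((i + j - 2 * n) - t) (by omega)))) (fun t h1 h2 => (cE (cE (cE (cE (qf a1 al (-1) t (t + (n + k - j)) (by omega)) (pb D2 al 0 (t + (n + k - j)) (t + (n + k + i2 + l2 - j - i3 + 1)) (by omega))) (pb c al 0 (t + (n + k + i2 + l2 - j - i3 + 1)) (t + (n + 2 *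 i2 + l2 - j - l - i3)) (by omega))) (pb b al 0 (t + (n + 2 * i2 + l2 - j - l - i3)) (t + (n + i + 2 * i2 + l2 - j - k - l - i3)) (by omega))) (sh al (-1) (t + (n + i + 2 * i2 + l2 - j - k - l - i3)) (t + (i + 2 * i2 + l2 - j - k - l - i3)) (by omega))))
        · by_cases v45 : (n + i2 + i3) ≤ (j + 2 * k + l + 2)
          · have kk1495 : (k + l + l2 + i3 + 3) ≤ (n + i + j) := by clear * - z94; omega
            have kk1496 : (n + i + j) ≤ (k + l + l2 + 3 * i3 + 2) := by clear * - b4 b7 b8 v45 y17 z95; omega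
            have kk1497 : (j + 5 * k + 3 * l + l2 + 6) ≤ (3 * n + i + 2 * i2 + 3 * i3) := by clear * - b4 b7 b8 y17 z94 z95; omega
            have kk1498 : (k + l + l2 + 2) ≤ (n + i + j + i3) := by clear * - b4 b7 b8 v45 y17 z94 z95; linarith
            have kk1499 : (i2) ≤ (k) := by clear * - b1 b4 b7 z92 z94 z96; omega
            have kk1500 : (i2 + l2) ≤ (k + l) := by clear * - b7 b8 z94; omega
            have kk1501 : (i3) ≤ (i) := by clear * - y21; omega
            have kk1502 : (n + i3) ≤ (k + l + l2 + 2) := by clear * - b7 b8 b9 z94 z96; omega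
            have kk1503 : (2 * k + l + 2) ≤ (n + i2) := by clear * - b3 b4 b7 b8 y17 z94; omega
            have kk1504 : (n + i2 + i3) ≤ (j + 2 * k + l + 2) := by clear * - v45; omega
            have r1505 : (2 * n + i + i2 + l2 + i3 - k + 1) % 2 = 0 := by clear * - ev n1p n2p n3p; omega
            have r1506 : (n + i + j - k - l - l2 - i3 - 2) % 2 = 0 := by clear * - ev n1p n2p n3p; omega
            clear * - al s1 b c u1 kk1495 kk1496 kk1497 kk1498 kk1499 kk1500 kk1501 kk1502 kk1503 kk1504 r1505 r1506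
            exact midP al (n + i + j - k - l - l2 - i3 - 2) (2 * n + i + i2 + l2 + i3 - k + 1) (k + l + l2 + 3) (k + l + l2 + 3) (n + i + j + 1) (by omega) (fun t h1 h2 => (cE (ab u1 al 1 t ((k + l + l2 + i3 + 2) - t) (by omega)) (qf (show Par W (2 * k + l - i2 + 2) (k + l + l2 + 2) (n + i + i2 - 2 * k - l - 1) from fun t h1 h2 => (cE (sh al (-1) t (t + (-n)) (by omega)) (cE (cE (pb c al (-1) (t + (-n)) (t + (i2 - k - l - 1)) (by omega)) (pb b al 0 (t + (i2 - k - l - 1)) (t + (i + i2 - 2 * k - l - 1)) (by omega))) (sh al 1 (t + (i + i2 - 2 * k - l - 1)) (t + (n + i + i2 - 2 * k - l - 1)) (by omega))))) al (-1) ((k + l + l2 + i3 + 2) - t) ((2 * n + i + i2 + l2 + i3 - k + 1) - t) (by omega)))) (fun t h1 h2 => (cE (qf (show Par W (k + l + l2 - n + 3) (k + l + l2 + i3 - n + 3) (n + i + j - k - l - l2 - i3 - 2) from fun t h1 h2 => (cE (sh al (-1) t (t + (-n)) (by omega)) (cII (ab u1 al (-1) (t + (-n)) ((k + l + l2 + i3 - n + 2)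 - t) (by omega)) (qa s1 al 0 ((k + l + l2 + i3 - n + 2) - t) (t + (n + i + j - k - l - l2 - i3 - 2)) (by omega))))) al 1 t (t + (i + j - k - l - l2 - i3 - 2)) (by omega)) (sh al 1 (t + (i + j - k - l - l2 - i3 - 2)) (t + (n + i + j - k - l - l2 - i3 - 2)) (by omega))))
          · have kk1507 : (k + l + l2 + i3 + 3) ≤ (n + i + j) := by clear * - z94; omega
            have kk1508 : (3 * n + i + 2 * i2) ≤ (j + 5 * k + 3 * l + l2 + i3 + 6) := by clear * - b4 b7 b8 y21 z95 z96; omega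
            have kk1509 : (k + l + l2 + 2) ≤ (n + i + j + i3) := by clear * - b4 b7 b8 v45 z94 z95 z96; linarith
            have kk1510 : (n + 2 * i2 + l2 + i3) ≤ (i + 3 * j + 3 * k + l + 2) := by clear * - b4 b7 b8 v45 y21 z95 z96; linarith
            have kk1511 : (i2) ≤ (k) := by clear * - b1 b4 b7 z92 z94 z96; omega
            have kk1512 : (i2 + l2) ≤ (k + l) := by clear * - b7 b8 z94; omega
            have kk1513 : (i3) ≤ (i) := by clear * - y21; omega
            have kk1514 : (n + i3) ≤ (k + l + l2 + 2) := by clear * - b7 b8 b9 z94 z96; omega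
            have kk1515 : (2 * k + l + 2) ≤ (n + i2) := by clear * - b4 b7 b8 b9 v45 z94 z95 z96; linarith
            have kk1516 : (j + 2 * k + l + 2) ≤ (n + i2 + i3) := by clear * - v45; omega
            have r1517 : (2 * n + i + i2 + l2 + i3 - k + 1) % 2 = 0 := by clear * - ev n1p n2p n3p; omega
            have r1518 : (n + i + j - k - l - l2 - i3 - 2) % 2 = 0 := by clear * - ev n1p n2p n3p; omega
            clear * - al s1 b c u1 kk1507 kk1508 kk1509 kk1510 kk1511 kk1512 kk1513 kk1514 kk1515 kk1516 r1517 r1518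
            exact midP al (n + i + j - k - l - l2 - i3 - 2) (2 * n + i + i2 + l2 + i3 - k + 1) (n + i2 + l2 + i3 - j - k + 1) (k + l + l2 + 3) (n + i + j + 1) (by omega) (fun t h1 h2 => (cE (ab u1 al 1 t ((k + l + l2 + i3 + 2) - t) (by omega)) (qf (show Par W (2 * k + l - i2 + 2) (k + l + l2 + 2) (n + i + i2 - 2 * k - l - 1) from fun t h1 h2 => (cE (sh al (-1) t (t + (-n)) (by omega)) (cE (cE (pb c al (-1) (t + (-n)) (t + (i2 - k - l - 1)) (by omega)) (pb b al 0 (t + (i2 - k - l - 1)) (t + (i + i2 - 2 * k - l - 1)) (by omega))) (sh al 1 (t + (i + i2 - 2 * k - l - 1)) (t + (n + i + i2 - 2 * k - l - 1)) (by omega))))) al (-1) ((k + l + l2 + i3 + 2) - t) ((2 * n + i + i2 + l2 + i3 - k + 1) - t) (by omega)))) (fun t h1 h2 => (cE (qf (show Par W (k + l + l2 - n + 3) (k + l + l2 + i3 - n + 3) (n + i + j - k - l - l2 - i3 - 2) from fun t h1 h2 => (cE (sh al (-1) t (t + (-n)) (by omega)) (cII (ab u1 al (-1) (t + (-n)) ((k + l + l2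 + i3 - n + 2) - t) (by omega)) (qa s1 al 0 ((k + l + l2 + i3 - n + 2) - t) (t + (n + i + j - k - l - l2 - i3 - 2)) (by omega))))) al 1 t (t + (i + j - k - l - l2 - i3 - 2)) (by omega)) (sh al 1 (t + (i + j - k - l - l2 - i3 - 2)) (t + (n + i + j - k - l - l2 - i3 - 2)) (by omega))))
    · by_cases z97 : (k + l + l2 + i3 + 2) ≤ (n + i + j)
      · have kk1519 : (0) ≤ (i3) := by clear * - y13; omega
        have kk1520 : (i3 + 1) ≤ (i) := by clear * - y21; omega
        have kk1521 : (k + l + l2 + i3 + 2) ≤ (n + i + j) := by clear * - z97; omega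
        have kk1522 : (n + i + j) ≤ (k + l + l2 + i3 + 2) := by clear * - z94; omega
        clear * - al s1 n3 kk1519 kk1520 kk1521 kk1522
        exact n3.f2 (qa s1 al 0 (i3) (k + l + l2 - n + 2) (by omega))
      · by_cases z98 : (k + l + l2 + i3 + 3) ≤ (n + Q)
        · by_cases z99 : (n + 2 * i + j + i2 + 1) ≤ (2 * Q + 2 * k + l)
          · have kk1523 : (n + 2 * i + j + i2 + 1) ≤ (2 * Q + 2 * k + l) := by clear * - z99; omega
            have kk1524 : (j + 2 * k + l + 2) ≤ (n + 2 * i + i2) := by clear * - b4 b6 y17 y21 y7 z97; omega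
            have kk1525 : (i2 + l2) ≤ (k + l) := by clear * - y20; omega
            have kk1526 : (Q + k) ≤ (i + i2 + l2 + 1) := by clear * - b3 y13 y17 y21 z98; omega
            have kk1527 : (i) ≤ (j) := by clear * - y1; omega
            have kk1528 : (i + i2) ≤ (j + k) := by clear * - b2 y19 y20 z92; omega
            have r1529 : (n + j + 2 * k + l - i2 + 1) % 2 = 0 := by clear * - ev n1p n2p n3p; omega
            clear * - al s2 b c kk1523 kk1524 kk1525 kk1526 kk1527 kk1528 r1529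
            obtain ⟨t, ht⟩ : ∃ t, 2 * t = (n + j + 2 * k + l - i2 + 1) := ⟨(n + j + 2 * k + l - i2 + 1) / 2, by omega⟩
            exact al.ninv t (cE (cE (ab s2 al 1 t ((n + i + j) - t) (by omega)) (qf b al 0 ((n + i + j) - t) ((n + j + k) - t) (by omega))) (qf c al 0 ((n + j + k) - t) t (by omega)))
          · have kk1530 : (n + i + j) ≤ (k + l + l2 + i3 + 1) := by clear * - z97; omega
            have kk1531 : (k + l + l2 + i3 + 3) ≤ (2 * n + i + j) := by clear * - b4 b6 b7 b8 b9 z92 z97 z98 z99; linarith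
            have kk1532 : (k + l + l2 + 2) ≤ (n + i + j) := by clear * - b4 b6 b8 z97 z98 z99; omega
            have kk1533 : (k + l + l2 + i3 + 3) ≤ (n + Q) := by clear * - z98; omega
            have kk1534 : (n + j) ≤ (k + l + l2 + 2) := by clear * - y21 z97; omega
            clear * - al s2 u1 kk1530 kk1531 kk1532 kk1533 kk1534
            exact al.ubP (k + l + l2 + i3 - n - i - j + 2) (by omega) (by omega) fun t h1 h2 => (cE (sh al (-1) t (t + (-n)) (by omega)) (cII (ab s2 al (-1) (t + (-n)) ((i + j) - t) (by omega)) (ab u1 al 0 ((i + j) - t) (t + (k + l + l2 + i3 - n - i - j + 2)) (by omega))))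
        · by_cases z100 : (2 * Q + j + 2 * i2 + l2) ≤ (i + 3 * k + l + i3)
          · by_cases v46 : (Q + 2 * i2 + l2) ≤ (2 * k + l + i3 + 1)
            · by_cases v47 : (i + 2 * i2 + l2) ≤ (Q + k + l + i3)
              · have kk1535 : (j + k + l + i3 + 1) ≤ (i + 2 * i2 + l2) := by clear * - b4 y17 y21 y7 z97; omega
                have kk1536 : (j + k + l + i3 + 2) ≤ (i + 2 * i2 + l2) := by clear * - b4 y17 y21 y7 z97; omega
                have kk1537 : (j + 3 * k + 3 * l + 3 * i3 + 2) ≤ (i + 6 * i2 + 3 * l2) := by clear * - b4 b9 v47 y17 y21 y7 z97 z98; linarith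
                have kk1538 : (i2) ≤ (k) := by clear * - b1 b4 b5 b6 y21 z92; omega
                have kk1539 : (2 * i2 + l2) ≤ (2 * k + l) := by clear * - b1 b4 b5 v47 y20 y21 z92; linarith
                have kk1540 : (Q + 2 * i2 + l2) ≤ (2 * k + l + i3 + 1) := by clear * - v46; omega
                have kk1541 : (i2) ≤ (l + i3 + 1) := by clear * - b4 b8 b9 v47 y17 y21 z97 z98; linarith
                have kk1542 : (2 * i2 + l2) ≤ (k + 2 * l + i3 + 1) := by clear * - b4 b8 b9 v47 y17 y21 z97 z98; linarith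
                have kk1543 : (k + i2 + l2 + 1) ≤ (n + i3) := by clear * - y17; omega
                have kk1544 : (i + 2 * i2 + l2) ≤ (Q + k + l + i3) := by clear * - v47; omega
                have r1545 : (i + j) % 2 = 0 := by clear * - ev n1p n2p n3p; omega
                have r1546 : (i + 2 * i2 + l2 - j - k - l - i3) % 2 = 0 := by clear * - ev n1p n2p n3p; omega
                clear * - al a2 s2 b c D2 kk1535 kk1536 kk1537 kk1538 kk1539 kk1540 kk1541 kk1542 kk1543 kk1544 r1545 r1546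
                exact midP al (i + 2 * i2 + l2 - j - k - l - i3) (i + j) (j + k + l + i3 - 2 * i2 - l2 + 1) (j + k + l + i3 - 2 * i2 - l2 + 1) (i + 2 * i2 + l2 - k - l - i3) (by omega) (fun t h1 h2 => (ab s2 al 0 t ((i + j) - t) (by omega))) (fun t h1 h2 => (cE (cE (cE (qf a2 al 0 t (t + (k - j)) (by omega)) (pb D2 al 0 (t + (k - j)) (t + (k + i2 + l2 - j - i3 + 1)) (by omega))) (pb c al 0 (t + (k + i2 + l2 - j - i3 + 1)) (t + (2 * i2 + l2 - j - l - i3)) (by omega))) (pb b al 0 (t + (2 * i2 + l2 - j - l - i3)) (t + (i + 2 * i2 + l2 - j - k - l - i3)) (by omega))))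
              · have kk1547 : (j + k + l + i3 + 1) ≤ (i + 2 * i2 + l2) := by clear * - b4 b8 v47 y17 y21 z97 z98; linarith
                have kk1548 : (i + j + 2 * i2 + l2 + 2) ≤ (2 * Q + k + l + i3) := by clear * - b4 b6 b8 y17 y21 z97; omega
                have kk1549 : (i + j + k + l + i3 + 2) ≤ (2 * Q + 2 * i2 + l2) := by clear * - b4 b8 b9 v47 y17 y21 z97 z98; linarith
                have kk1550 : (i2) ≤ (k) := by clear * - b1 b4 b5 b6 y21 z92; omega
                have kk1551 : (2 * i2 + l2) ≤ (2 * k + l) := by clear * - b1 b4 b5 b6 v47 y20 z92; linarith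
                have kk1552 : (Q + 2 * i2 + l2) ≤ (2 * k + l + i3 + 1) := by clear * - v46; omega
                have kk1553 : (i2) ≤ (l + i3 + 1) := by clear * - b4 b6 b7 b8 b9 v47 y17 z98; linarith
                have kk1554 : (2 * i2 + l2) ≤ (k + 2 * l + i3 + 1) := by clear * - b2 b4 b6 b8 v47 y17; omega
                have kk1555 : (k + i2 + l2 + 1) ≤ (n + i3) := by clear * - y17; omega
                have kk1556 : (Q + k + l + i3) ≤ (i + 2 * i2 + l2) := by clear * - v47; omega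
                have r1557 : (i + j) % 2 = 0 := by clear * - ev n1p n2p n3p; omega
                have r1558 : (i + 2 * i2 + l2 - j - k - l - i3) % 2 = 0 := by clear * - ev n1p n2p n3p; omega
                clear * - al a2 s2 b c D2 kk1547 kk1548 kk1549 kk1550 kk1551 kk1552 kk1553 kk1554 kk1555 kk1556 r1557 r1558
                exact midP al (i + 2 * i2 + l2 - j - k - l - i3) (i + j) (i + j - Q + 1) (j + k + l + i3 - 2 * i2 - l2 + 1) (i + 2 * i2 + l2 - k - l - i3) (by omega) (fun t h1 h2 => (ab s2 al 0 t ((i + j) - t) (by omega))) (fun t h1 h2 => (cE (cE (cE (qf a2 al 0 t (t + (k - j)) (by omega)) (pb D2 al 0 (t + (k - j)) (t + (k + i2 + l2 - j - i3 + 1)) (by omega))) (pb c al 0 (t + (k + i2 + l2 - j - i3 + 1)) (t + (2 * i2 + l2 - j - l - i3)) (by omega))) (pb b al 0 (t + (2 * i2 + l2 - j - l - i3)) (t + (i + 2 * i2 + l2 - j - k - l - i3)) (by omega))))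
            · by_cases v48 : (i + k + 1) ≤ (2 * Q)
              · have kk1559 : (j + k + l + i3 + 1) ≤ (i + 2 * i2 + l2) := by clear * - v46 z100; omega
                have kk1560 : (2 * Q + j + 2 * i2 + l2) ≤ (i + 3 * k + l + i3) := by clear * - z100; omega
                have kk1561 : (4 * Q + j + 2 * i2 + l2) ≤ (i + 5 * k + l + i3 + 2) := by clear * - v46 v48 z100 z92; omega
                have kk1562 : (2 * Q + j + l + i3) ≤ (i + k + 2 * i2 + l2) := by clear * - v46 v48 z100 z92; omega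
                have kk1563 : (i2) ≤ (k) := by clear * - b2 v46 v48 z100 z92; omega
                have kk1564 : (2 * k + l + i3 + 1) ≤ (Q + 2 * i2 + l2) := by clear * - v46; omega
                have kk1565 : (i3 + 1) ≤ (Q) := by clear * - v46 v48 y21 z100 z92; omega
                have kk1566 : (i2) ≤ (l + i3 + 1) := by clear * - b5 b6 v46 v48 z100 z92; omega
                have kk1567 : (2 * i2 + l2) ≤ (k + 2 * l + i3 + 1) := by clear * - b5 b6 v46 v48 y20 z100 z92; linarith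
                have kk1568 : (k + i2 + l2 + 1) ≤ (n + i3) := by clear * - y17; omega
                have kk1569 : (i + k + 1) ≤ (2 * Q) := by clear * - v48; omega
                have r1570 : (i + j) % 2 = 0 := by clear * - ev n1p n2p n3p; omega
                have r1571 : (i + 2 * i2 + l2 - j - k - l - i3) % 2 = 0 := by clear * - ev n1p n2p n3p; omega
                clear * - al a2 s2 b c D2 kk1559 kk1560 kk1561 kk1562 kk1563 kk1564 kk1565 kk1566 kk1567 kk1568 kk1569 r1570 r1571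
                exact midP al (i + 2 * i2 + l2 - j - k - l - i3) (i + j) (Q + j - k) (Q + j - k) (i + 2 * i2 + l2 - k - l - i3) (by omega) (fun t h1 h2 => (ab s2 al 0 t ((i + j) - t) (by omega))) (fun t h1 h2 => (cE (cE (cE (qf a2 al 0 t (t + (k - j)) (by omega)) (pb D2 al 0 (t + (k - j)) (t + (k + i2 + l2 - j - i3 + 1)) (by omega))) (pb c al 0 (t + (k + i2 + l2 - j - i3 + 1)) (t + (2 * i2 + l2 - j - l - i3)) (by omega))) (pb b al 0 (t + (2 * i2 + l2 - j - l - i3)) (t + (i + 2 * i2 + l2 - j - k - l - i3)) (by omega))))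
              · have kk1572 : (j + k + l + i3 + 1) ≤ (i + 2 * i2 + l2) := by clear * - v46 z100; omega
                have kk1573 : (i + j + 2 * i2 + l2 + 2) ≤ (2 * Q + k + l + i3) := by clear * - b4 b6 b8 y17 y21 z97; omega
                have kk1574 : (i + j + 2 * i2 + l2) ≤ (3 * k + l + i3) := by clear * - b1 b4 b5 b6 y20; omega
                have kk1575 : (i + j + k + l + i3 + 2) ≤ (2 * Q + 2 * i2 + l2) := by clear * - b1 b4 b5 b6 v46 y20; omega
                have kk1576 : (i2) ≤ (k) := by clear * - b1 b4 b6 v46 z100 z92; omega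
                have kk1577 : (2 * k + l + i3 + 1) ≤ (Q + 2 * i2 + l2) := by clear * - v46; omega
                have kk1578 : (i3 + 1) ≤ (Q) := by clear * - b1 b4 b6 v46 y20 z100 z92; linarith
                have kk1579 : (i2) ≤ (l + i3 + 1) := by clear * - b4 b6 b8 v46 y17 z100 z92 z97; linarith
                have kk1580 : (2 * i2 + l2) ≤ (k + 2 * l + i3 + 1) := by clear * - b4 b6 b8 v46 y17 z100 z92; linarith
                have kk1581 : (k + i2 + l2 + 1) ≤ (n + i3) := by clear * - y17; omega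
                have kk1582 : (2 * Q) ≤ (i + k + 1) := by clear * - v48; omega
                have r1583 : (i + j) % 2 = 0 := by clear * - ev n1p n2p n3p; omega
                have r1584 : (i + 2 * i2 + l2 - j - k - l - i3) % 2 = 0 := by clear * - ev n1p n2p n3p; omega
                clear * - al a2 s2 b c D2 kk1572 kk1573 kk1574 kk1575 kk1576 kk1577 kk1578 kk1579 kk1580 kk1581 kk1582 r1583 r1584
                exact midP al (i + 2 * i2 + l2 - j - k - l - i3) (i + j) (i + j - Q + 1) (Q + j - k) (i + 2 * i2 + l2 - k - l - i3) (by omega) (fun t h1 h2 => (ab s2 al 0 t ((i + j) - t) (by omega))) (fun t h1 h2 => (cE (cE (cE (qf a2 al 0 t (t + (k - j)) (by omega)) (pb D2 al 0 (t + (k - j)) (t + (k + i2 + l2 - j - i3 + 1)) (by omega))) (pb c al 0 (t + (k + i2 + l2 - j - i3 + 1)) (t + (2 * i2 + l2 - j - l - i3)) (by omega))) (pb b al 0 (t + (2 * i2 + l2 - j - l - i3)) (t + (i + 2 * i2 + l2 - j - k - l - i3)) (by omega))))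
          · have kk1585 : (i + 2 * i2 + l2 + 1) ≤ (2 * k + l + i3) := by clear * - b4 b8 y17 y21 z92 z97 z98; linarith
            have kk1586 : (2 * k + l + i3 + 1) ≤ (n + i + 2 * i2 + l2) := by clear * - b4 b5 b8 y17 y21 z100 z97; linarith
            have kk1587 : (2 * k + l + 2) ≤ (n + i2) := by clear * - b3 b4 b8 y17 y21 z98; omega
            have kk1588 : (i3) ≤ (i) := by clear * - y21; omega
            have kk1589 : (i2) ≤ (k) := by clear * - b1 b4 b5 b6 y21 z92; omega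
            have kk1590 : (i2 + l2) ≤ (k + l) := by clear * - y20; omega
            have kk1591 : (n + k + i3) ≤ (i + 2 * i2 + 2 * l2 + 2) := by clear * - b4 y17 y21 y7 z100 z97 z98; linarith
            clear * - al b c D2 kk1585 kk1586 kk1587 kk1588 kk1589 kk1590 kk1591
            exact al.ubP (2 * k + l + i3 - i - 2 * i2 - l2) (by omega) (by omega) fun t h1 h2 => (cE (sh al 2 t (t + (2 * n)) (by omega)) (cE (cE (cE (qf D2 al 1 (t + (2 * n)) (t + (n + i3 - i2 - l2 - 1)) (by omega)) (qf b al 0 (t + (n + i3 - i2 - l2 - 1)) (t + (n + k + i3 - i - i2 - l2 - 1)) (by omega))) (qf c al 0 (t + (n + k + i3 - i - i2 - l2 - 1)) (t + (n + 2 * k + l + i3 - i - 2 * i2 - l2)) (by omega))) (sh al (-1) (t + (n + 2 * k + l + i3 - i - 2 * i2 - l2)) (t + (2 * k + l + i3 - i - 2 * i2 - l2)) (by omega))))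

theorem t1c_31 {W : ℤ → G} {n Q i j k l i2 l2 i3 : ℤ} (al : AL W n Q)
    (hy : (0) ≤ (i) ∧ (i) ≤ (j) ∧ (j + 1) ≤ (Q) ∧ (Q) ≤ (k) ∧ (k + 1) ≤ (n) ∧ (Q) ≤ (i + l + 1) ∧ (k + l + 2) ≤ (n) ∧ (Q) ≤ (i2) ∧ (i2) ≤ (i + l + 1) ∧ (Q) ≤ (i2 + l2 + 1) ∧ (i2 + l2 + 2) ≤ (n) ∧ (n) ≤ (k + l + l2 + 2) ∧ (k + l + l2 + 3) ≤ (n + Q) ∧ (0) ≤ (i3) ∧ (n + i3) ≤ (k + l + l2 + 2) ∧ (k + i2 + l2 + 2) ≤ (n + j + i3) ∧ (j + i3 + 1) ≤ (k) ∧ (k + i2 + l2 + 2) ≤ (n + i3) ∧ (i + 2 * i2 + 1) ≤ (2 * Q + k) ∧ (i + l + 1) ≤ (i2 + l2) ∧ (i2 + l2 + 1) ≤ (k + l) ∧ (i3 + 1) ≤ (i))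
    (a1 : Par W (0) (j) (k - j))
    (a2 : Par W (Q + j - k) (j) (k - j))
    (s1 : Ant W (0) (i) (i + j))
    (s2 : Ant W (j + 1) (Q) (i + j))
    (b : Par W (i + 1) (i + l + 1) (k - i))
    (tt : Ant W (Q) (i2) (i + l + i2 + 1))
    (c : Par W (i2 + 1) (i2 + l2 + 1) (k + l - i2 + 1))
    (u1 : Ant W (0) (i3) (k + l + l2 + i3 - n + 2))
    (u2 : Ant W (k + l + l2 - n + 3) (Q) (k + l + l2 + i3 - n + 2))
    (D1 : Par W (i3 + 1) (Q) (i2 + l2 - i3 + 1))
    (D2 : Par W (i2 + l2 + 2) (n) (i3 - i2 - l2 - 1))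
    {L : ℤ} (mx : ∀ a b g, 0 < g → g < n → Par W a b g → b - a ≤ L)
    (hL : L ≤ (n - j - 3) ∧ L ≤ (n + Q - k - 3) ∧ L ≤ (n - l - 3) ∧ L ≤ (n + i - k - 2) ∧ L ≤ (n - l2 - 3) ∧ L ≤ (n + i3 - Q - 2) ∧ L ≤ (i2 + l2 - 1) ∧ L ≤ (n + i2 - k - l - 3) ∧ L ≤ (Q + i2 + l2 - l - i3 - 3))
    (bd0 : Bd W n L (j) (i) (k))
    (bd2 : Bd W n L (k + l + l2 - n + 2) (i3) (i2 + l2 + 1))
    (n1 : Nd W (j) (i) (k))
    (n2 : Nd W (i + l + 1) (i2) (k + l + 1))
    (n3 : Nd W (k + l + l2 - n + 2) (i3) (i2 + l2 + 1))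
    (b0 : (2 * l + i3 + 3) ≤ (Q + i2 + l2))
    (b1 : (2 * i + j + 1) ≤ (k))
    (b2 : (k + l + i3 + 2) ≤ (2 * Q + l2))
    (b3 : (2 * n + 2 * Q + i3) ≤ (k + l + 2 * i2 + 3 * l2 + 5))
    (b4 : (k + 2 * l + i3 + 3) ≤ (Q + 2 * i2 + l2))
    (b5 : (2 * Q + i2) ≤ (k + l + 2 * i3 + 1))
    (b6 : (3 * i2 + l2) ≤ (i + k + 2 * l + i3 + 2))
    (b7 : (n + 3 * i + i2 + l2) ≤ (3 * k + 2 * l + i3 + 2))
    (b8 : (i + 2 * j + 7 * i2 + 6 * l2) ≤ (n + 4 * k + 5 * l + 6 * i3)) : False := by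
  have ev := al.ev
  obtain ⟨y0, y1, y2, y3, y4, y5, y6, y7, y8, y9, y10, y11, y12, y13, y14, y15, y16, y17, y18, y19, y20, y21⟩ := id hy
  have n1p := And.intro n1.p1 n1.p2
  have n2p := And.intro n2.p1 n2.p2
  have n3p := And.intro n3.p1 n3.p2
  by_cases z101 : (2 * j + 2 * i2 + l2 + 2) ≤ (2 * Q + k + l + i3)
  · by_cases z102 : (i2) ≤ (k)
    · by_cases v49 : (j + i2 + l2) ≤ (k + l + i3)
      · by_cases v50 : (Q + 2 * k + l + 1) ≤ (n + i + j + i2)
        · have kk1592 : (2 * k + l + 2) ≤ (n + i + i2) := by clear * - b3 b4 b7 v50 y17 y21 z101; linarith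
          have kk1593 : (n + i + 2 * j + i3 + 1) ≤ (2 * Q + k + i2 + l2) := by clear * - b3 b4 b7 y17 y21 z101; omega
          have kk1594 : (3 * k + 2 * l + i3 + 3) ≤ (n + i + 3 * i2 + l2) := by clear * - b3 b4 b7 v50 y17 y21 z101; linarith
          have kk1595 : (n + 2 * j + i2) ≤ (i + k + 2 * l + l2 + i3 + 1) := by clear * - b3 b4 b6 v49 v50 y17 z101; linarith
          have kk1596 : (k + l + i3 + 2) ≤ (2 * Q + l2) := by clear * - b2; omega
          have kk1597 : (5 * k + 3 * l + i3 + 4) ≤ (2 * n + 2 * Q + 4 * i2 + l2) := by clear * - b3 b4 b6 b7 v49 v50 y17 y21; linarith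
          have kk1598 : (2 * j + k) ≤ (2 * Q + l + l2 + i3) := by clear * - b3 b4 b6 b7 v49 v50 y17 y21; linarith
          have kk1599 : (i2) ≤ (k) := by clear * - z102; omega
          have kk1600 : (i2 + l2) ≤ (k + l) := by clear * - b2 b7 b8 v50 y21; omega
          have kk1601 : (n) ≤ (k + l + l2 + 2) := by clear * - b2 b3 b4 b6 b7 v49 v50 y21; linarith
          have kk1602 : (Q + i2 + l2 + 1) ≤ (n + i3) := by clear * - y17 y7 z102; omega
          have kk1603 : (j + i2 + l2) ≤ (k + l + i3) := by clear * - v49; omega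
          have kk1604 : (Q + k) ≤ (i + i2 + l2 + 1) := by clear * - b3 v50 z101; omega
          have kk1605 : (Q + 2 * k + l + 1) ≤ (n + i + j + i2) := by clear * - v50; omega
          have kk1606 : (k) ≤ (i2 + l2 + 1) := by clear * - b3 b4 b6 b7 v49 v50 y17 y21; linarith
          have kk1607 : (2 * k + l + 1) ≤ (n + j + i2) := by clear * - b3 b4 b6 b7 v49 v50 y17 y21; linarith
          have r1608 : (i + j) % 2 = 0 := by clear * - ev n1p n2p n3p; omega
          have r1609 : (n + i + i2 - 2 * k - l - 1) % 2 = 0 := by clear * - ev n1p n2p n3p; omega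
          have r1610 : (i + j + 2 * i2 + l2 - k - l - i3) % 2 = 0 := by clear * - ev n1p n2p n3p; omega
          clear * - al s2 b c D2 kk1592 kk1593 kk1594 kk1595 kk1596 kk1597 kk1598 kk1599 kk1600 kk1601 kk1602 kk1603 kk1604 kk1605 kk1606 kk1607 r1608 r1609 r1610
          exact mid2 al (n + i + i2 - 2 * k - l - 1) (i + j) (i + j + 2 * i2 + l2 - k - l - i3) (i + j - Q + 1) (i) (-1) (2 * k + l - n - i2 + 2) (i + i2 + l2 - k + 1) (by omega) (fun t h1 h2 => ⟨by omega, (ab s2 al 0 t ((i + j) - t) (by omega))⟩) (fun t h1 h2 => ⟨by omega, (cE (ab s2 al 0 t ((i + j) - t) (by omega)) (qf (show Par W (k + l + i3 - i2 - l2 + 1) (n + i3 - i2 - l2 - 1) (2 * i2 + l2 - k - l - i3) from fun t h1 h2 => (cE (sh al (-1) t (t + (-n)) (by omega)) (cE (pb D2 al (-1) (t + (-n)) (t + (i2 + l2 - i3 + 1)) (by omega)) (pb c al 0 (t + (i2 + l2 - i3 + 1)) (t + (2 * i2 + l2 - k - l - i3)) (by omega))))) al 0 ((i + j) - t) ((i + j + 2 * i2 + l2 - k -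 l - i3) - t) (by omega)))⟩) (fun t h1 h2 => (cE (qf (show Par W (2 * k + l - i2 + 2) (k + l + l2 + 2) (n + i + i2 - 2 * k - l - 1) from fun t h1 h2 => (cE (sh al (-1) t (t + (-n)) (by omega)) (cE (cE (pb c al (-1) (t + (-n)) (t + (i2 - k - l - 1)) (by omega)) (pb b al 0 (t + (i2 - k - l - 1)) (t + (i + i2 - 2 * k - l - 1)) (by omega))) (sh al 1 (t + (i + i2 - 2 * k - l - 1)) (t + (n + i + i2 - 2 * k - l - 1)) (by omega))))) al (-1) t (t + (2 * n + i + i2 - 2 * k - l - 1)) (by omega)) (sh al (-1) (t + (2 * n + i + i2 - 2 * k - l - 1)) (t + (n + i + i2 - 2 * k - l - 1)) (by omega))))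
        · have kk1611 : (2 * k + l + 2) ≤ (n + i + i2) := by clear * - b3 b4 b7 v49 y15 y17 y21; linarith
          have kk1612 : (n + i + 2 * j + i3 + 1) ≤ (2 * Q + k + i2 + l2) := by clear * - b3 b4 b7 y17 y21 z101; omega
          have kk1613 : (3 * k + 2 * l + i3 + 3) ≤ (n + i + 3 * i2 + l2) := by clear * - b3 b4 b7 v49 y15 y17 y21; linarith
          have kk1614 : (n + 2 * j + i2) ≤ (i + k + 2 * l + l2 + i3 + 1) := by clear * - b3 b4 b6 b7 v49 y17 y21; linarith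
          have kk1615 : (5 * k + 3 * l + i3 + 4) ≤ (2 * n + 2 * i + 2 * j + 2 * i2 + l2) := by clear * - b3 b4 y15 y17 y21; omega
          have kk1616 : (9 * k + 5 * l + i3 + 6) ≤ (4 * n + 2 * i + 2 * j + 6 * i2 + l2) := by clear * - b3 b4 b7 v49 y15 y17 y21; linarith
          have kk1617 : (5 * k + l + 2) ≤ (2 * n + 2 * i + 2 * i2 + l2 + i3) := by clear * - b3 b4 b7 v49 v50 y15 y17 y21; linarith
          have kk1618 : (i2) ≤ (k) := by clear * - z102; omega
          have kk1619 : (i2 + l2) ≤ (k + l) := by clear * - y20; omega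
          have kk1620 : (n) ≤ (k + l + l2 + 2) := by clear * - b3 b4 v49 v50 y15 y21; omega
          have kk1621 : (Q + i2 + l2 + 1) ≤ (n + i3) := by clear * - y17 y7 z102; omega
          have kk1622 : (j + i2 + l2) ≤ (k + l + i3) := by clear * - v49; omega
          have kk1623 : (Q + k) ≤ (i + i2 + l2 + 1) := by clear * - b3 b4 v49 y15 y17 y21; omega
          have kk1624 : (n + i + j + i2) ≤ (Q + 2 * k + l + 1) := by clear * - v50; omega
          have kk1625 : (k) ≤ (i2 + l2 + 1) := by clear * - b3 b4 b7 v49 v50 y15 y17 y21; linarith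
          have kk1626 : (2 * k + l + 1) ≤ (n + j + i2) := by clear * - b3 b4 b7 v49 y15 y17 y21; linarith
          have r1627 : (i + j) % 2 = 0 := by clear * - ev n1p n2p n3p; omega
          have r1628 : (n + i + i2 - 2 * k - l - 1) % 2 = 0 := by clear * - ev n1p n2p n3p; omega
          have r1629 : (i + j + 2 * i2 + l2 - k - l - i3) % 2 = 0 := by clear * - ev n1p n2p n3p; omega
          clear * - al s2 b c D2 kk1611 kk1612 kk1613 kk1614 kk1615 kk1616 kk1617 kk1618 kk1619 kk1620 kk1621 kk1622 kk1623 kk1624 kk1625 kk1626 r1627 r1628 r1629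
          exact mid2 al (n + i + i2 - 2 * k - l - 1) (i + j) (i + j + 2 * i2 + l2 - k - l - i3) (2 * k + l - n - i2 + 2) (i) (-1) (2 * k + l - n - i2 + 2) (i + i2 + l2 - k + 1) (by omega) (fun t h1 h2 => ⟨by omega, (ab s2 al 0 t ((i + j) - t) (by omega))⟩) (fun t h1 h2 => ⟨by omega, (cE (ab s2 al 0 t ((i + j) - t) (by omega)) (qf (show Par W (k + l + i3 - i2 - l2 + 1) (n + i3 - i2 - l2 - 1) (2 * i2 + l2 - k - l - i3) from fun t h1 h2 => (cE (sh al (-1) t (t + (-n)) (by omega)) (cE (pb D2 al (-1) (t + (-n)) (t + (i2 + l2 - i3 + 1)) (by omega)) (pb c al 0 (t + (i2 + l2 - i3 + 1)) (t + (2 * i2 + l2 - k - l - i3)) (by omega))))) al 0 ((i + j) - t) ((i + j + 2 * i2 + l2 - k - l - i3) - t) (by omega)))⟩) (fun t h1 h2 => (cE (qf (show Par W (2 * k + l - i2 + 2) (k + l + l2 + 2) (n + i + i2 - 2 * k - l - 1) from fun t h1 h2 => (cE (sh al (-1) t (t + (-n)) (by omega)) (cE (cE (pb c al (-1) (t + (-n)) (t + (i2 - k - l - 1)) (by omega))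 (pb b al 0 (t + (i2 - k - l - 1)) (t + (i + i2 - 2 * k - l - 1)) (by omega))) (sh al 1 (t + (i + i2 - 2 * k - l - 1)) (t + (n + i + i2 - 2 * k - l - 1)) (by omega))))) al (-1) t (t + (2 * n + i + i2 - 2 * k - l - 1)) (by omega)) (sh al (-1) (t + (2 * n + i + i2 - 2 * k - l - 1)) (t + (n + i + i2 - 2 * k - l - 1)) (by omega))))
      · have kk1630 : (2 * k + l + 2) ≤ (n + i + i2) := by clear * - b3 b4 b7 b8 v49 y17 y21; linarith
        have kk1631 : (n + i + 2 * j + i3 + 1) ≤ (2 * Q + k + i2 + l2) := by clear * - b3 b4 b7 y17 y21 z101; omega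
        have kk1632 : (3 * k + 2 * l + i3 + 3) ≤ (n + i + 3 * i2 + l2) := by clear * - b3 b4 b7 b8 v49 y17 y21; linarith
        have kk1633 : (n + 2 * j + i2) ≤ (i + k + 2 * l + l2 + i3 + 1) := by clear * - b3 b4 b8 v49 y17 y21 z101; linarith
        have kk1634 : (2 * j + 2 * i2 + l2 + 2) ≤ (2 * Q + k + l + i3) := by clear * - z101; omega
        have kk1635 : (5 * k + 3 * l + i3 + 4) ≤ (2 * n + 2 * Q + 4 * i2 + l2) := by clear * - b3 b4 b7 b8 v49 y17 y21 z101; linarith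
        have kk1636 : (2 * j + k) ≤ (2 * Q + l + l2 + i3) := by clear * - b3 b4 b7 b8 v49 y17 y21 z101; linarith
        have kk1637 : (i2) ≤ (k) := by clear * - z102; omega
        have kk1638 : (i2 + l2) ≤ (k + l) := by clear * - y20; omega
        have kk1639 : (n) ≤ (k + l + l2 + 2) := by clear * - b3 b4 b7 b8 v49 y17 y21 z101; linarith
        have kk1640 : (Q + i2 + l2 + 1) ≤ (n + i3) := by clear * - y17 y7 z102; omega
        have kk1641 : (k + l + i3) ≤ (j + i2 + l2) := by clear * - v49; omega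
        have kk1642 : (Q + k) ≤ (i + i2 + l2 + 1) := by clear * - b3 b4 b7 b8 v49 y17 y21; linarith
        have kk1643 : (Q + 2 * k + l + 1) ≤ (n + i + j + i2) := by clear * - b4 b6 v49 y17 y7; omega
        have kk1644 : (k) ≤ (i2 + l2 + 1) := by clear * - b3 b4 b7 b8 v49 y17 y21 z101; linarith
        have kk1645 : (2 * k + l + 1) ≤ (n + j + i2) := by clear * - b3 b4 b7 b8 v49 y17 y21; linarith
        have r1646 : (i + j) % 2 = 0 := by clear * - ev n1p n2p n3p; omega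
        have r1647 : (n + i + i2 - 2 * k - l - 1) % 2 = 0 := by clear * - ev n1p n2p n3p; omega
        have r1648 : (i + j + 2 * i2 + l2 - k - l - i3) % 2 = 0 := by clear * - ev n1p n2p n3p; omega
        clear * - al s2 b c D2 kk1630 kk1631 kk1632 kk1633 kk1634 kk1635 kk1636 kk1637 kk1638 kk1639 kk1640 kk1641 kk1642 kk1643 kk1644 kk1645 r1646 r1647 r1648
        exact mid2 al (n + i + i2 - 2 * k - l - 1) (i + j) (i + j + 2 * i2 + l2 - k - l - i3) (i + j - Q + 1) (i) (-1) (2 * k + l - n - i2 + 2) (i + i2 + l2 - k + 1) (by omega) (fun t h1 h2 => ⟨by omega, (ab s2 al 0 t ((i + j) - t) (by omega))⟩) (fun t h1 h2 => ⟨by omega, (cE (ab s2 al 0 t ((i + j) - t) (by omega)) (qf (show Par W (k + l + i3 - i2 - l2 + 1) (n + i3 - i2 - l2 - 1) (2 * i2 + l2 - k - l - i3) from fun t h1 h2 => (cE (sh al (-1) t (t + (-n)) (by omega)) (cE (pb D2 al (-1) (t + (-n)) (t + (i2 + l2 - i3 + 1)) (by omega)) (pb c al 0 (t + (i2 + l2 - i3 + 1)) (t +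 (2 * i2 + l2 - k - l - i3)) (by omega))))) al 0 ((i + j) - t) ((i + j + 2 * i2 + l2 - k - l - i3) - t) (by omega)))⟩) (fun t h1 h2 => (cE (qf (show Par W (2 * k + l - i2 + 2) (k + l + l2 + 2) (n + i + i2 - 2 * k - l - 1) from fun t h1 h2 => (cE (sh al (-1) t (t + (-n)) (by omega)) (cE (cE (pb c al (-1) (t + (-n)) (t + (i2 - k - l - 1)) (by omega)) (pb b al 0 (t + (i2 - k - l - 1)) (t + (i + i2 - 2 * k - l - 1)) (by omega))) (sh al 1 (t + (i + i2 - 2 * k - l - 1)) (t + (n + i + i2 - 2 * k - l - 1)) (by omega))))) al (-1) t (t + (2 * n + i + i2 - 2 * k - l - 1)) (by omega)) (sh al (-1) (t + (2 * n + i + i2 - 2 * k - l - 1)) (t + (n + i + i2 - 2 * k - l - 1)) (by omega))))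
    · have kk1649 : (i + 2 * i2 + l2 + 1) ≤ (2 * k + l + i3) := by clear * - b0 b5 b6 b7 y17 y21; omega
      have kk1650 : (2 * k + l) ≤ (i + 2 * i2 + l2 + i3) := by clear * - b4 b5 b6 z102; omega
      have kk1651 : (i + 2 * j + l + 2) ≤ (2 * k + l2 + i3) := by clear * - b1 b2 b4 b5 b7 b8 y21 z101 z102; linarith
      have kk1652 : (4 * k + 3 * l + 3 * l2 + 8) ≤ (4 * n + i + i3) := by clear * - b4 b5 b7 y17 y21 y7; omega
      have kk1653 : (i3) ≤ (j) := by clear * - y1 y21; omega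
      have kk1654 : (k) ≤ (i2) := by clear * - z102; omega
      have kk1655 : (i2 + l2) ≤ (k + l) := by clear * - y20; omega
      have kk1656 : (n) ≤ (k + l + l2 + 2) := by clear * - b2 b3 b4 b5 b6 b7 y21 z102; linarith
      have kk1657 : (n + i + i2) ≤ (2 * k + l + l2 + 2) := by clear * - b0 b3 b6 b7 y17 y21 z102; linarith
      have kk1658 : (k + i2 + l2 + 1) ≤ (n + j) := by clear * - y1 y17 y21; omega
      have r1659 : (2 * k + l + l2 + i3 - n - j + 2) % 2 = 0 := by clear * - ev n1p n2p n3p; omega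
      have r1660 : (2 * k + l + i3 - i - 2 * i2 - l2) % 2 = 0 := by clear * - ev n1p n2p n3p; omega
      clear * - al a1 b c u1 D2 kk1649 kk1650 kk1651 kk1652 kk1653 kk1654 kk1655 kk1656 kk1657 kk1658 r1659 r1660
      exact midP al (2 * k + l + i3 - i - 2 * i2 - l2) (2 * k + l + l2 + i3 - n - j + 2) (k + l + l2 - n + 3) (i + i2 - k + 1) (n + i3 - i2 - l2 - 1) (by omega) (fun t h1 h2 => (cE (ab u1 al 0 t ((k + l + l2 + i3 - n + 2) - t) (by omega)) (qf a1 al 0 ((k + l + l2 + i3 - n + 2) - t) ((2 * k + l + l2 + i3 - n - j + 2) - t) (by omega)))) (fun t h1 h2 => (cE (cE (qf b al 0 t (t + (k - i)) (by omega)) (qf c al 0 (t + (k - i)) (t + (2 * k + l - i - i2 + 1)) (by omega))) (qf D2 al 0 (t + (2 * k + l - i - i2 + 1)) (t + (2 * k + l + i3 - i - 2 * i2 - l2)) (by omega))))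
  · by_cases v51 : (j + l + i3 + 1) ≤ (i2 + l2)
    · by_cases v52 : (j + k + l + i3 + 1) ≤ (2 * i2 + l2)
      · have kk1661 : (j + k + l + i3 + 1) ≤ (i + 2 * i2 + l2) := by clear * - b4 b6 b7 b8 v52 z101; omega
        have kk1662 : (i + j + 2 * i2 + l2 + 2) ≤ (2 * Q + k + l + i3) := by clear * - b2 b4 b6 b7 b8 v52 z101; linarith
        have kk1663 : (2 * i2 + l2) ≤ (i + j + k + l + i3) := by clear * - b4 b6 b7 b8 v52 z101; omega
        have kk1664 : (j + k + l + i3 + 2) ≤ (i + 2 * i2 + l2) := by clear * - b4 b6 b7 b8 v52 z101; omega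
        have kk1665 : (i2 + l2) ≤ (k + l) := by clear * - b2 b4 b6 b7 b8 v52 y21 z101; linarith
        have kk1666 : (n) ≤ (k + l + l2 + 2) := by clear * - b2 b3 b4 b6 b7 b8 v52 z101; linarith
        have kk1667 : (j + l + i3 + 1) ≤ (i2 + l2) := by clear * - v51; omega
        have kk1668 : (j + k + l + i3 + 1) ≤ (2 * i2 + l2) := by clear * - v52; omega
        have kk1669 : (k + i2 + l2 + 1) ≤ (n + i3) := by clear * - y17; omega
        have kk1670 : (2 * i2 + l2) ≤ (k + 2 * l + i3 + 1) := by clear * - b2 b4 b6 b7 b8 v52 z101; linarith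
        have kk1671 : (0) ≤ (j + 1) := by clear * - b2 b4 b6 b7 b8 v52 z101; linarith
        have kk1672 : (k + l + i3) ≤ (2 * i2 + l2) := by clear * - b2 b4 b6 b7 b8 v52 z101; linarith
        have r1673 : (i + j - 2 * n) % 2 = 0 := by clear * - ev n1p n2p n3p; omega
        have r1674 : (i + 2 * i2 + l2 - j - k - l - i3) % 2 = 0 := by clear * - ev n1p n2p n3p; omega
        clear * - al a1 s2 b c D2 kk1661 kk1662 kk1663 kk1664 kk1665 kk1666 kk1667 kk1668 kk1669 kk1670 kk1671 kk1672 r1673 r1674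
        exact midP al (i + 2 * i2 + l2 - j - k - l - i3) (i + j - 2 * n) (j - n + 1) (-n) (i + 2 * i2 + l2 - n - k - l - i3) (by omega) (fun t h1 h2 => (cE (qa s2 al (-1) t ((i + j - n) - t) (by omega)) (sh al (-1) ((i + j - n) - t) ((i + j - 2 * n) - t) (by omega)))) (fun t h1 h2 => (cE (cE (cE (qf a1 al (-1) t (t + (n + k - j)) (by omega)) (qf (show Par W (k + l + i3 - i2 - l2 + 1) (n + i3 - i2 - l2 - 1) (2 * i2 + l2 - k - l - i3) from fun t h1 h2 => (cE (sh al (-1) t (t + (-n)) (by omega)) (cE (pb D2 al (-1) (t + (-n)) (t + (i2 + l2 - i3 + 1)) (by omega)) (pb c al 0 (t + (i2 + l2 - i3 + 1)) (t + (2 * i2 + l2 - k - l - i3)) (by omega))))) al 0 (t + (n + k - j)) (t + (n + 2 * i2 + l2 - j - l - i3)) (by omega))) (pb b al 0 (t + (n + 2 * i2 + l2 - j - l - i3)) (t + (n + i + 2 * i2 + l2 - j - k - l - i3)) (by omega))) (sh al (-1) (t + (n + i + 2 * i2 + l2 - j - k - l - i3)) (t + (i + 2 * i2 + l2 - j - k - l - i3)) (by omega))))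
      · have kk1675 : (j + k + l + i3 + 1) ≤ (i + 2 * i2 + l2) := by clear * - b3 b4 b7 b8 y17 y21; omega
        have kk1676 : (i + j + 2 * i2 + l2 + 2) ≤ (2 * Q + k + l + i3) := by clear * - b2 b3 b4 b7 b8 y17 y21; linarith
        have kk1677 : (j + k + l + i3 + 2) ≤ (i + 2 * i2 + l2) := by clear * - b3 b4 b7 b8 y17 y21; omega
        have kk1678 : (i2 + l2) ≤ (k + l) := by clear * - y20; omega
        have kk1679 : (n) ≤ (k + l + l2 + 2) := by clear * - b3 b4 b6 b7 b8 v52 y17 y21; linarith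
        have kk1680 : (2 * i2 + l2) ≤ (j + k + l + i3 + 1) := by clear * - v52; omega
        have kk1681 : (i2) ≤ (k) := by clear * - v51 v52; omega
        have kk1682 : (k + i2 + l2 + 1) ≤ (n + i3) := by clear * - y17; omega
        have kk1683 : (2 * i2 + l2) ≤ (k + 2 * l + i3 + 1) := by clear * - b3 b4 b6 b7 b8 v52 y17 y21; linarith
        have kk1684 : (k + l + i3) ≤ (2 * i2 + l2) := by clear * - b3 b4 b7 b8 v52 y17 y21; linarith
        have r1685 : (i + j - 2 * n) % 2 = 0 := by clear * - ev n1p n2p n3p; omega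
        have r1686 : (i + 2 * i2 + l2 - j - k - l - i3) % 2 = 0 := by clear * - ev n1p n2p n3p; omega
        clear * - al a1 s2 b c D2 kk1675 kk1676 kk1677 kk1678 kk1679 kk1680 kk1681 kk1682 kk1683 kk1684 r1685 r1686
        exact midP al (i + 2 * i2 + l2 - j - k - l - i3) (i + j - 2 * n) (j - n + 1) (j + k + l + i3 - n - 2 * i2 - l2 + 1) (i + 2 * i2 + l2 - n - k - l - i3) (by omega) (fun t h1 h2 => (cE (qa s2 al (-1) t ((i + j - n) - t) (by omega)) (sh al (-1) ((i + j - n) - t) ((i + j - 2 * n) - t) (by omega)))) (fun t h1 h2 => (cE (cE (cE (qf a1 al (-1) t (t + (n + k - j)) (by omega)) (qf (show Par W (k + l + i3 - i2 - l2 + 1) (n + i3 - i2 - l2 - 1) (2 * i2 + l2 - k - l - i3) from fun t h1 h2 => (cE (sh al (-1) t (t + (-n)) (by omega)) (cE (pb D2 al (-1) (t + (-n)) (t + (i2 + l2 - i3 + 1)) (by omega)) (pb c al 0 (t + (i2 + l2 - i3 + 1)) (t + (2 * i2 + l2 - k - l - i3)) (by omega))))) al 0 (t + (n + k - j)) (t + (n + 2 *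 i2 + l2 - j - l - i3)) (by omega))) (pb b al 0 (t + (n + 2 * i2 + l2 - j - l - i3)) (t + (n + i + 2 * i2 + l2 - j - k - l - i3)) (by omega))) (sh al (-1) (t + (n + i + 2 * i2 + l2 - j - k - l - i3)) (t + (i + 2 * i2 + l2 - j - k - l - i3)) (by omega))))
    · by_cases v53 : (k) ≤ (i2)
      · have kk1687 : (j + k + l + i3 + 1) ≤ (i + 2 * i2 + l2) := by clear * - b1 b4 b5 b6 v53 y21; omega
        have kk1688 : (i + j + 2 * i2 + l2 + 2) ≤ (2 * Q + k + l + i3) := by clear * - b1 b4 b5 b6 v51 v53 y21; linarith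
        have kk1689 : (j + l + i3 + 2) ≤ (i + k + l2) := by clear * - b1 b4 b5 b6 y21; omega
        have kk1690 : (j + k + l + i3 + 2) ≤ (i + 2 * i2 + l2) := by clear * - b1 b4 b5 b6 v53 y21; omega
        have kk1691 : (i2 + l2) ≤ (k + l) := by clear * - b1 b4 b5 b6 v51 v53 y21; linarith
        have kk1692 : (n) ≤ (k + l + l2 + 2) := by clear * - b2 b3 b4 b5 b7 b8 v51 v53 y21; linarith
        have kk1693 : (i2 + l2) ≤ (j + l + i3 + 1) := by clear * - v51; omega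
        have kk1694 : (k) ≤ (i2) := by clear * - v53; omega
        have kk1695 : (k + i2 + l2 + 1) ≤ (n + i3) := by clear * - y17; omega
        have kk1696 : (2 * i2 + l2) ≤ (k + 2 * l + i3 + 1) := by clear * - b1 b4 b5 b6 v51 v53 y21 z101; linarith
        have kk1697 : (l + i3) ≤ (i2 + l2) := by clear * - b1 b4 b5 b6 v51 v53 y21 z101; linarith
        have kk1698 : (k + l + i3) ≤ (2 * i2 + l2) := by clear * - b1 b4 b5 b6 v51 v53 y21 z101; linarith
        have r1699 : (i + j - 2 * n) % 2 = 0 := by clear * - ev n1p n2p n3p; omega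
        have r1700 : (i + 2 * i2 + l2 - j - k - l - i3) % 2 = 0 := by clear * - ev n1p n2p n3p; omega
        clear * - al a1 s2 b c D2 kk1687 kk1688 kk1689 kk1690 kk1691 kk1692 kk1693 kk1694 kk1695 kk1696 kk1697 kk1698 r1699 r1700
        exact midP al (i + 2 * i2 + l2 - j - k - l - i3) (i + j - 2 * n) (j - n + 1) (j + l + i3 - n - i2 - l2 + 1) (i + 2 * i2 + l2 - n - k - l - i3) (by omega) (fun t h1 h2 => (cE (qa s2 al (-1) t ((i + j - n) - t) (by omega)) (sh al (-1) ((i + j - n) - t) ((i + j - 2 * n) - t) (by omega)))) (fun t h1 h2 => (cE (cE (cE (qf a1 al (-1) t (t + (n + k - j)) (by omega)) (qf (show Par W (k + l + i3 - i2 - l2 + 1) (n + i3 - i2 - l2 - 1) (2 * i2 + l2 - k - l - i3) from fun t h1 h2 => (cE (sh al (-1) t (t + (-n)) (by omega)) (cE (pb D2 al (-1) (t + (-n)) (t + (i2 + l2 - i3 + 1)) (by omega)) (pb c al 0 (t + (i2 + l2 - i3 + 1)) (t + (2 * i2 + l2 - k - l - i3)) (by omega))))) al 0 (t + (n + k - j)) (t + (n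 + 2 * i2 + l2 - j - l - i3)) (by omega))) (pb b al 0 (t + (n + 2 * i2 + l2 - j - l - i3)) (t + (n + i + 2 * i2 + l2 - j - k - l - i3)) (by omega))) (sh al (-1) (t + (n + i + 2 * i2 + l2 - j - k - l - i3)) (t + (i + 2 * i2 + l2 - j - k - l - i3)) (by omega))))
      · have kk1701 : (j + k + l + i3 + 1) ≤ (i + 2 * i2 + l2) := by clear * - b3 b4 b7 b8 y17 y21; omega
        have kk1702 : (i + j + 2 * i2 + l2 + 2) ≤ (2 * Q + k + l + i3) := by clear * - b2 b3 b4 b7 b8 y17 y21; linarith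
        have kk1703 : (j + k + l + i3 + 2) ≤ (i + 2 * i2 + l2) := by clear * - b3 b4 b7 b8 y17 y21; omega
        have kk1704 : (i2 + l2) ≤ (k + l) := by clear * - y20; omega
        have kk1705 : (n) ≤ (k + l + l2 + 2) := by clear * - b3 b4 b6 b7 b8 v51 v53 y17 y21; linarith
        have kk1706 : (i2 + l2) ≤ (j + l + i3 + 1) := by clear * - v51; omega
        have kk1707 : (i2) ≤ (k) := by clear * - v53; omega
        have kk1708 : (k + i2 + l2 + 1) ≤ (n + i3) := by clear * - y17; omega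
        have kk1709 : (2 * i2 + l2) ≤ (k + 2 * l + i3 + 1) := by clear * - b3 b4 b6 b7 b8 v51 v53 y17 y21; linarith
        have kk1710 : (k + l + i3) ≤ (2 * i2 + l2) := by clear * - b3 b4 b7 b8 v51 v53 y17 y21; linarith
        have r1711 : (i + j - 2 * n) % 2 = 0 := by clear * - ev n1p n2p n3p; omega
        have r1712 : (i + 2 * i2 + l2 - j - k - l - i3) % 2 = 0 := by clear * - ev n1p n2p n3p; omega
        clear * - al a1 s2 b c D2 kk1701 kk1702 kk1703 kk1704 kk1705 kk1706 kk1707 kk1708 kk1709 kk1710 r1711 r1712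
        exact midP al (i + 2 * i2 + l2 - j - k - l - i3) (i + j - 2 * n) (j - n + 1) (j + k + l + i3 - n - 2 * i2 - l2 + 1) (i + 2 * i2 + l2 - n - k - l - i3) (by omega) (fun t h1 h2 => (cE (qa s2 al (-1) t ((i + j - n) - t) (by omega)) (sh al (-1) ((i + j - n) - t) ((i + j - 2 * n) - t) (by omega)))) (fun t h1 h2 => (cE (cE (cE (qf a1 al (-1) t (t + (n + k - j)) (by omega)) (qf (show Par W (k + l + i3 - i2 - l2 + 1) (n + i3 - i2 - l2 - 1) (2 * i2 + l2 - k - l - i3) from fun t h1 h2 => (cE (sh al (-1) t (t + (-n)) (by omega)) (cE (pb D2 al (-1) (t + (-n)) (t + (i2 + l2 - i3 + 1)) (by omega)) (pb c al 0 (t + (i2 + l2 - i3 + 1)) (t + (2 * i2 + l2 - k - l - i3)) (by omega))))) al 0 (t + (n + k - j)) (t + (n + 2 * i2 + l2 - j - l - i3)) (by omega))) (pb b al 0 (t + (n + 2 * i2 + l2 - j - l - i3)) (t + (n + i + 2 * i2 + l2 - j - k - l - i3)) (by omega))) (sh al (-1) (t + (n + i + 2 * i2 + l2 - j - k - l - i3)) (t + (i + 2 * i2 +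 l2 - j - k - l - i3)) (by omega))))

theorem t1c_29 {W : ℤ → G} {n Q i j k l i2 l2 i3 : ℤ} (al : AL W n Q)
    (hy : (0) ≤ (i) ∧ (i) ≤ (j) ∧ (j + 1) ≤ (Q) ∧ (Q) ≤ (k) ∧ (k + 1) ≤ (n) ∧ (Q) ≤ (i + l + 1) ∧ (k + l + 2) ≤ (n) ∧ (Q) ≤ (i2) ∧ (i2) ≤ (i + l + 1) ∧ (Q) ≤ (i2 + l2 + 1) ∧ (i2 + l2 + 2) ≤ (n) ∧ (n) ≤ (k + l + l2 + 2) ∧ (k + l + l2 + 3) ≤ (n + Q) ∧ (0) ≤ (i3) ∧ (n + i3) ≤ (k + l + l2 + 2) ∧ (k + i2 + l2 + 2) ≤ (n + j + i3) ∧ (j + i3 + 1) ≤ (k) ∧ (k + i2 + l2 + 2) ≤ (n + i3) ∧ (i + 2 * i2 + 1) ≤ (2 * Q + k) ∧ (i + l + 1) ≤ (i2 + l2) ∧ (i2 + l2 + 1) ≤ (k + l) ∧ (i3 + 1) ≤ (i))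
    (a1 : Par W (0) (j) (k - j))
    (a2 : Par W (Q + j - k) (j) (k - j))
    (s1 : Ant W (0) (i) (i + j))
    (s2 : Ant W (j + 1) (Q) (i + j))
    (b : Par W (i + 1) (i + l + 1) (k - i))
    (tt : Ant W (Q) (i2) (i + l + i2 + 1))
    (c : Par W (i2 + 1) (i2 + l2 + 1) (k + l - i2 + 1))
    (u1 : Ant W (0) (i3) (k + l + l2 + i3 - n + 2))
    (u2 : Ant W (k + l + l2 - n + 3) (Q) (k + l + l2 + i3 - n + 2))
    (D1 : Par W (i3 + 1) (Q) (i2 + l2 - i3 + 1))
    (D2 : Par W (i2 + l2 + 2) (n) (i3 - i2 - l2 - 1))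
    {L : ℤ} (mx : ∀ a b g, 0 < g → g < n → Par W a b g → b - a ≤ L)
    (hL : L ≤ (n - j - 3) ∧ L ≤ (n + Q - k - 3) ∧ L ≤ (n - l - 3) ∧ L ≤ (n + i - k - 2) ∧ L ≤ (n - l2 - 3) ∧ L ≤ (n + i3 - Q - 2) ∧ L ≤ (i2 + l2 - 1) ∧ L ≤ (n + i2 - k - l - 3) ∧ L ≤ (Q + i2 + l2 - l - i3 - 3))
    (bd0 : Bd W n L (j) (i) (k))
    (bd2 : Bd W n L (k + l + l2 - n + 2) (i3) (i2 + l2 + 1))
    (n1 : Nd W (j) (i) (k))
    (n2 : Nd W (i + l + 1) (i2) (k + l + 1))
    (n3 : Nd W (k + l + l2 - n + 2) (i3) (i2 + l2 + 1))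
    (b0 : (2 * l + i3 + 3) ≤ (Q + i2 + l2))
    (b1 : (2 * i + j + 1) ≤ (k))
    (b2 : (k + l + i3 + 2) ≤ (2 * Q + l2))
    (b3 : (2 * n + 2 * Q + i3) ≤ (k + l + 2 * i2 + 3 * l2 + 5))
    (b4 : (k + 2 * l + i3 + 3) ≤ (Q + 2 * i2 + l2))
    (b5 : (2 * Q + i2) ≤ (k + l + 2 * i3 + 1))
    (b6 : (3 * i2 + l2) ≤ (i + k + 2 * l + i3 + 2))
    (b7 : (n + 2 * j + i2) ≤ (i + k + 2 * l + l2 + i3 + 1))
    (b8 : (n + 3 * i + i2 + l2) ≤ (3 * k + 2 * l + i3 + 2)) : False := by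
  have ev := al.ev
  obtain ⟨y0, y1, y2, y3, y4, y5, y6, y7, y8, y9, y10, y11, y12, y13, y14, y15, y16, y17, y18, y19, y20, y21⟩ := id hy
  have n1p := And.intro n1.p1 n1.p2
  have n2p := And.intro n2.p1 n2.p2
  have n3p := And.intro n3.p1 n3.p2
  by_cases z91 : (n + 4 * k + 5 * l + 6 * i3 + 1) ≤ (i + 2 * j + 7 * i2 + 6 * l2)
  · exact t1c_30 al hy a1 a2 s1 s2 b tt c u1 u2 D1 D2 mx hL bd0 bd2 n1 n2 n3 (by clear * - b0; omega) (by clear * - b1; omega) (by clear * - b2; omega) (by clear * - b3; omega) (by clear * - b4; omega) (by clear * - b5; omega) (by clear * - b6; omega) (by clear * - b7; omega) (by clear * - b8; omega) (by clear * - z91; omega)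
  · exact t1c_31 al hy a1 a2 s1 s2 b tt c u1 u2 D1 D2 mx hL bd0 bd2 n1 n2 n3 (by clear * - b0; omega) (by clear * - b1; omega) (by clear * - b2; omega) (by clear * - b3; omega) (by clear * - b4; omega) (by clear * - b5; omega) (by clear * - b6; omega) (by clear * - b8; omega) (by clear * - z91; omega)

theorem t1c_28 {W : ℤ → G} {n Q i j k l i2 l2 i3 : ℤ} (al : AL W n Q)
    (hy : (0) ≤ (i) ∧ (i) ≤ (j) ∧ (j + 1) ≤ (Q) ∧ (Q) ≤ (k) ∧ (k + 1) ≤ (n) ∧ (Q) ≤ (i + l + 1) ∧ (k + l + 2) ≤ (n) ∧ (Q) ≤ (i2) ∧ (i2) ≤ (i + l + 1) ∧ (Q) ≤ (i2 + l2 + 1) ∧ (i2 + l2 + 2) ≤ (n) ∧ (n) ≤ (k + l + l2 + 2) ∧ (k + l + l2 + 3) ≤ (n + Q) ∧ (0) ≤ (i3) ∧ (n + i3) ≤ (k + l + l2 + 2) ∧ (k + i2 + l2 + 2) ≤ (n + j + i3) ∧ (j + i3 + 1) ≤ (k) ∧ (k + i2 + l2 + 2) ≤ (n + i3) ∧ (i + 2 * i2 + 1) ≤ (2 * Q + k) ∧ (i + l + 1) ≤ (i2 + l2) ∧ (i2 + l2 + 1) ≤ (k + l) ∧ (i3 + 1) ≤ (i))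
    (a1 : Par W (0) (j) (k - j))
    (a2 : Par W (Q + j - k) (j) (k - j))
    (s1 : Ant W (0) (i) (i + j))
    (s2 : Ant W (j + 1) (Q) (i + j))
    (b : Par W (i + 1) (i + l + 1) (k - i))
    (tt : Ant W (Q) (i2) (i + l + i2 + 1))
    (c : Par W (i2 + 1) (i2 + l2 + 1) (k + l - i2 + 1))
    (u1 : Ant W (0) (i3) (k + l + l2 + i3 - n + 2))
    (u2 : Ant W (k + l + l2 - n + 3) (Q) (k + l + l2 + i3 - n + 2))
    (D1 : Par W (i3 + 1) (Q) (i2 + l2 - i3 + 1))
    (D2 : Par W (i2 + l2 + 2) (n) (i3 - i2 - l2 - 1))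
    {L : ℤ} (mx : ∀ a b g, 0 < g → g < n → Par W a b g → b - a ≤ L)
    (hL : L ≤ (n - j - 3) ∧ L ≤ (n + Q - k - 3) ∧ L ≤ (n - l - 3) ∧ L ≤ (n + i - k - 2) ∧ L ≤ (n - l2 - 3) ∧ L ≤ (n + i3 - Q - 2) ∧ L ≤ (i2 + l2 - 1) ∧ L ≤ (n + i2 - k - l - 3) ∧ L ≤ (Q + i2 + l2 - l - i3 - 3))
    (bd0 : Bd W n L (j) (i) (k))
    (bd2 : Bd W n L (k + l + l2 - n + 2) (i3) (i2 + l2 + 1))
    (n1 : Nd W (j) (i) (k))
    (n2 : Nd W (i + l + 1) (i2) (k + l + 1))
    (n3 : Nd W (k + l + l2 - n + 2) (i3) (i2 + l2 + 1))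
    (b0 : (2 * l + i3 + 3) ≤ (Q + i2 + l2))
    (b1 : (2 * i + j + 1) ≤ (k))
    (b2 : (k + l + i3 + 2) ≤ (2 * Q + l2))
    (b3 : (2 * n + 2 * Q + i3) ≤ (k + l + 2 * i2 + 3 * l2 + 5))
    (b4 : (k + 2 * l + i3 + 3) ≤ (Q + 2 * i2 + l2))
    (b5 : (2 * Q + i2) ≤ (k + l + 2 * i3 + 1))
    (b6 : (3 * i2 + l2) ≤ (i + k + 2 * l + i3 + 2))
    (b7 : (n + 2 * j + i2) ≤ (i + k + 2 * l + l2 + i3 + 1))
    (b8 : (3 * k + 2 * l + i3 + 3) ≤ (n + 3 * i + i2 + l2)) : False := by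
  have ev := al.ev
  obtain ⟨y0, y1, y2, y3, y4, y5, y6, y7, y8, y9, y10, y11, y12, y13, y14, y15, y16, y17, y18, y19, y20, y21⟩ := id hy
  have n1p := And.intro n1.p1 n1.p2
  have n2p := And.intro n2.p1 n2.p2
  have n3p := And.intro n3.p1 n3.p2
  by_cases z86 : (n + i3) ≤ (i + k + i2 + l2 + 1)
  · by_cases v37 : (n) ≤ (i + l + l2 + 2)
    · have kk1270 : (k + i2 + l2 + 2) ≤ (n + i + i3) := by clear * - y17 z86; omega
      have kk1271 : (n + i3) ≤ (i + k + i2 + l2 + 1) := by clear * - z86; omega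
      have kk1272 : (3 * k + 2 * l + i3 + 3) ≤ (n + 3 * i + i2 + l2) := by clear * - b8; omega
      have kk1273 : (i + 2 * j + i2 + l2 + 3) ≤ (n + k + i3) := by clear * - b1 y17 z86; omega
      have kk1274 : (i2 + l2) ≤ (k + l) := by clear * - y20; omega
      have kk1275 : (n) ≤ (k + l + l2 + 2) := by clear * - v37 y19 y20; omega
      have kk1276 : (i) ≤ (k) := by clear * - y19 y20; omega
      have kk1277 : (i) ≤ (i2) := by clear * - b1 b4 v37 y15 y20 y7; omega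
      have kk1278 : (n) ≤ (i + l + l2 + 2) := by clear * - v37; omega
      have kk1279 : (n + i2) ≤ (i + k + 2 * l + 2) := by clear * - v37 y20; omega
      have kk1280 : (2 * i + j + i2 + l2) ≤ (2 * k + l + i3) := by clear * - b1 y13 y20; omega
      have kk1281 : (2 * k + l + 1) ≤ (n + i + j) := by clear * - b8 y1 y17 z86; omega
      have r1282 : (2 * n + i + j) % 2 = 0 := by clear * - ev n1p n2p n3p; omega
      have r1283 : (n + i + i3 - k - i2 - l2 - 1) % 2 = 0 := by clear * - ev n1p n2p n3p; omega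
      clear * - al s1 b c D2 kk1270 kk1271 kk1272 kk1273 kk1274 kk1275 kk1276 kk1277 kk1278 kk1279 kk1280 kk1281 r1282 r1283
      exact midP al (n + i + i3 - k - i2 - l2 - 1) (2 * n + i + j) (n + j + 1) (2 * k + l - i + 2) (2 * n + i3 - i2 - l2 - 1) (by omega) (fun t h1 h2 => (cE (ab s1 al 1 t ((n + i + j) - t) (by omega)) (sh al 1 ((n + i + j) - t) ((2 * n + i + j) - t) (by omega)))) (fun t h1 h2 => (cE (cE (cE (pb c al 0 t (t + (i2 - k - l - 1)) (by omega)) (pb b al 0 (t + (i2 - k - l - 1)) (t + (i + i2 - 2 * k - l - 1)) (by omega))) (pb (show Par W (k + l + i3 - i2 - l2 + 1) (n + i3 - i2 - l2 - 1) (2 * i2 + l2 - k - l - i3) from fun t h1 h2 => (cE (sh al (-1) t (t + (-n)) (by omega)) (cE (pb D2 al (-1) (t + (-n)) (t + (i2 + l2 - i3 + 1)) (by omega)) (pb c al 0 (t + (i2 + l2 - i3 + 1)) (t + (2 * i2 + l2 - k - l - i3)) (by omega))))) al 0 (t + (i + i2 - 2 * k - l - 1)) (t + (i + i3 - k - i2 - l2 - 1)) (by omega))) (sh al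 1 (t + (i + i3 - k - i2 - l2 - 1)) (t + (n + i + i3 - k - i2 - l2 - 1)) (by omega))))
    · have kk1284 : (k + i2 + l2 + 2) ≤ (n + i + i3) := by clear * - y17 z86; omega
      have kk1285 : (n + i3) ≤ (i + k + i2 + l2 + 1) := by clear * - z86; omega
      have kk1286 : (3 * k + 2 * l + i3 + 3) ≤ (n + 3 * i + i2 + l2) := by clear * - b8; omega
      have kk1287 : (n + 2 * j + i2) ≤ (i + k + 2 * l + l2 + i3 + 1) := by clear * - b7; omega
      have kk1288 : (i2 + l2) ≤ (k + l) := by clear * - y20; omega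
      have kk1289 : (n) ≤ (k + l + l2 + 2) := by clear * - b2 b3 y13 y20; omega
      have kk1290 : (i) ≤ (k) := by clear * - y19 y20; omega
      have kk1291 : (i) ≤ (i2) := by clear * - y1 y2 y7; omega
      have kk1292 : (i + l + l2 + 2) ≤ (n) := by clear * - v37; omega
      have kk1293 : (2 * k + l + 1) ≤ (n + i + j) := by clear * - b8 y1 y17 z86; omega
      have kk1294 : (i2) ≤ (l + i3 + 1) := by clear * - b2 b3 y13 y17 y20; omega
      have r1295 : (2 * n + i + j) % 2 = 0 := by clear * - ev n1p n2p n3p; omega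
      have r1296 : (n + i + i3 - k - i2 - l2 - 1) % 2 = 0 := by clear * - ev n1p n2p n3p; omega
      clear * - al s1 b c D2 kk1284 kk1285 kk1286 kk1287 kk1288 kk1289 kk1290 kk1291 kk1292 kk1293 kk1294 r1295 r1296
      exact midP al (n + i + i3 - k - i2 - l2 - 1) (2 * n + i + j) (n + j + 1) (2 * k + l - i + 2) (n + i + l + i3 - i2 + 1) (by omega) (fun t h1 h2 => (cE (ab s1 al 1 t ((n + i + j) - t) (by omega)) (sh al 1 ((n + i + j) - t) ((2 * n + i + j) - t) (by omega)))) (fun t h1 h2 => (cE (cE (cE (pb c al 0 t (t + (i2 - k - l - 1)) (by omega)) (pb b al 0 (t + (i2 - k - l - 1)) (t + (i + i2 - 2 * k - l - 1)) (by omega))) (pb (show Par W (k + l + i3 - i2 - l2 + 1) (n + i3 - i2 - l2 - 1) (2 * i2 + l2 - k - l - i3) from fun t h1 h2 => (cE (sh al (-1) t (t + (-n)) (by omega)) (cE (pb D2 al (-1) (t + (-n)) (t + (i2 + l2 - i3 + 1)) (by omega)) (pb c al 0 (t + (i2 + l2 - i3 + 1)) (t + (2 * i2 + l2 - k - l - i3)) (by omega))))) al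 0 (t + (i + i2 - 2 * k - l - 1)) (t + (i + i3 - k - i2 - l2 - 1)) (by omega))) (sh al 1 (t + (i + i3 - k - i2 - l2 - 1)) (t + (n + i + i3 - k - i2 - l2 - 1)) (by omega))))
  · by_cases z87 : (n + i + 2 * j + i3 + 1) ≤ (2 * Q + k + i2 + l2)
    · by_cases z88 : (i2) ≤ (k)
      · by_cases v38 : (n + i + j + i2) ≤ (2 * k + 2 * l + i3 + 2)
        · by_cases v39 : (n + 2 * i + j) ≤ (Q + 2 * k + l + 1)
          · have kk1297 : (k + i2 + l2 + 2) ≤ (n + i + i3) := by clear * - y13 y21 z86; omega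
            have kk1298 : (3 * k + 2 * l + i3 + 3) ≤ (n + 3 * i + i2 + l2) := by clear * - b8; omega
            have kk1299 : (7 * k + 4 * l + i3 + 5) ≤ (3 * n + 5 * i + 2 * j + i2 + l2) := by clear * - b8 y1 y15; omega
            have kk1300 : (3 * k + i2 + 1) ≤ (n + 3 * i + l2 + i3) := by clear * - b3 b4 b6 b8 v38 v39 y15 z86; linarith
            have kk1301 : (i2) ≤ (k) := by clear * - z88; omega
            have kk1302 : (i2 + l2) ≤ (k + l) := by clear * - y20; omega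
            have kk1303 : (n) ≤ (k + l + l2 + 2) := by clear * - b3 b4 b6 v38 y15 y20; omega
            have kk1304 : (i) ≤ (i2) := by clear * - b3 b4 b8 y13 y20 z86; omega
            have kk1305 : (i + l + l2 + 2) ≤ (n) := by clear * - b4 y20 y7 z86 z88; omega
            have kk1306 : (n + i + j + i2) ≤ (2 * k + 2 * l + i3 + 2) := by clear * - v38; omega
            have kk1307 : (n + 2 * i + j) ≤ (Q + 2 * k + l + 1) := by clear * - v39; omega
            have r1308 : (2 * n + i + j) % 2 = 0 := by clear * - ev n1p n2p n3p; omega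
            have r1309 : (n + i + i3 - k - i2 - l2 - 1) % 2 = 0 := by clear * - ev n1p n2p n3p; omega
            clear * - al s2 b c D2 kk1297 kk1298 kk1299 kk1300 kk1301 kk1302 kk1303 kk1304 kk1305 kk1306 kk1307 r1308 r1309
            exact midP al (n + i + i3 - k - i2 - l2 - 1) (2 * n + i + j) (2 * k + l - i + 2) (2 * k + l - i + 2) (n + i + l + i3 - i2 + 1) (by omega) (fun t h1 h2 => (cE (ab s2 al 1 t ((n + i + j) - t) (by omega)) (sh al 1 ((n + i + j) - t) ((2 * n + i + j) - t) (by omega)))) (fun t h1 h2 => (cE (cE (qf (show Par W (2 * k + l - i2 + 2) (k + l + l2 + 2) (n + i + i2 - 2 * k - l - 1) from fun t h1 h2 => (cE (sh al (-1) t (t + (-n)) (by omega)) (cE (cE (pb c al (-1) (t + (-n)) (t + (i2 - k - l - 1)) (by omega)) (pb b al 0 (t + (i2 - k - l - 1)) (t + (i + i2 - 2 * k - l - 1)) (by omega))) (sh al 1 (t + (i + i2 - 2 * k - l - 1)) (t + (n + i + i2 - 2 * k - l - 1)) (by omega))))) al 0 t (t + (n + i + i2 - 2 *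 k - l - 1)) (by omega)) (pb (show Par W (k + l + i3 - i2 - l2 + 1) (n + i3 - i2 - l2 - 1) (2 * i2 + l2 - k - l - i3) from fun t h1 h2 => (cE (sh al (-1) t (t + (-n)) (by omega)) (cE (pb D2 al (-1) (t + (-n)) (t + (i2 + l2 - i3 + 1)) (by omega)) (pb c al 0 (t + (i2 + l2 - i3 + 1)) (t + (2 * i2 + l2 - k - l - i3)) (by omega))))) al 1 (t + (n + i + i2 - 2 * k - l - 1)) (t + (i + i3 - k - i2 - l2 - 1)) (by omega))) (sh al 1 (t + (i + i3 - k - i2 - l2 - 1)) (t + (n + i + i3 - k - i2 - l2 - 1)) (by omega))))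
          · have kk1310 : (k + i2 + l2 + 2) ≤ (n + i + i3) := by clear * - b4 v38 v39 y20 z86; omega
            have kk1311 : (n + i + 2 * j + i3 + 1) ≤ (2 * Q + k + i2 + l2) := by clear * - z87; omega
            have kk1312 : (3 * k + 2 * l + i3 + 3) ≤ (n + 2 * Q + i + i2 + l2) := by clear * - b3 b4 b6 v38 v39 y20 z86; linarith
            have kk1313 : (n + i + 2 * j + i2) ≤ (2 * Q + k + 2 * l + l2 + i3 + 1) := by clear * - b3 b4 b6 v38 v39 y20 z86; linarith
            have kk1314 : (i2) ≤ (k) := by clear * - z88; omega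
            have kk1315 : (i2 + l2) ≤ (k + l) := by clear * - y20; omega
            have kk1316 : (n) ≤ (k + l + l2 + 2) := by clear * - b3 b4 b6 v38 y15 y20; omega
            have kk1317 : (i) ≤ (i2) := by clear * - b3 b4 v38 v39 y13 y20 z86; linarith
            have kk1318 : (i + l + l2 + 2) ≤ (n) := by clear * - b4 y20 y7 z86 z88; omega
            have kk1319 : (Q + 2 * k + l + 1) ≤ (n + 2 * i + j) := by clear * - v39; omega
            have kk1320 : (Q + i2) ≤ (i + l + i3 + 1) := by clear * - v38 v39; omega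
            have r1321 : (2 * n + i + j) % 2 = 0 := by clear * - ev n1p n2p n3p; omega
            have r1322 : (n + i + i3 - k - i2 - l2 - 1) % 2 = 0 := by clear * - ev n1p n2p n3p; omega
            clear * - al s2 b c D2 kk1310 kk1311 kk1312 kk1313 kk1314 kk1315 kk1316 kk1317 kk1318 kk1319 kk1320 r1321 r1322
            exact midP al (n + i + i3 - k - i2 - l2 - 1) (2 * n + i + j) (n + i + j - Q + 1) (2 * k + l - i + 2) (n + i + l + i3 - i2 + 1) (by omega) (fun t h1 h2 => (cE (ab s2 al 1 t ((n + i + j) - t) (by omega)) (sh al 1 ((n + i + j) - t) ((2 * n + i + j) - t) (by omega)))) (fun t h1 h2 => (cE (cE (qf (show Par W (2 * k + l - i2 + 2) (k + l + l2 + 2) (n + i + i2 - 2 * k - l - 1) from fun t h1 h2 => (cE (sh al (-1) t (t + (-n)) (by omega)) (cE (cE (pb c al (-1) (t + (-n)) (t + (i2 - k - l - 1)) (by omega)) (pb b al 0 (t + (i2 - k - l - 1)) (t + (i + i2 - 2 * k - l - 1)) (by omega))) (sh al 1 (t + (i + i2 - 2 * k - l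 - 1)) (t + (n + i + i2 - 2 * k - l - 1)) (by omega))))) al 0 t (t + (n + i + i2 - 2 * k - l - 1)) (by omega)) (pb (show Par W (k + l + i3 - i2 - l2 + 1) (n + i3 - i2 - l2 - 1) (2 * i2 + l2 - k - l - i3) from fun t h1 h2 => (cE (sh al (-1) t (t + (-n)) (by omega)) (cE (pb D2 al (-1) (t + (-n)) (t + (i2 + l2 - i3 + 1)) (by omega)) (pb c al 0 (t + (i2 + l2 - i3 + 1)) (t + (2 * i2 + l2 - k - l - i3)) (by omega))))) al 1 (t + (n + i + i2 - 2 * k - l - 1)) (t + (i + i3 - k - i2 - l2 - 1)) (by omega))) (sh al 1 (t + (i + i3 - k - i2 - l2 - 1)) (t + (n + i + i3 - k - i2 - l2 - 1)) (by omega))))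
        · by_cases v40 : (i + l + i3 + 1) ≤ (Q + i2)
          · have kk1323 : (k + i2 + l2 + 2) ≤ (n + i + i3) := by clear * - y13 y21 z86; omega
            have kk1324 : (n + 2 * j + i2) ≤ (i + k + 2 * l + l2 + i3 + 1) := by clear * - b7; omega
            have kk1325 : (3 * k + i2 + 1) ≤ (n + 3 * i + l2 + i3) := by clear * - b3 b4 b6 b7 v38 v40 y15 z86; linarith
            have kk1326 : (n + 2 * j + 3 * i2) ≤ (i + k + 4 * l + l2 + 3 * i3 + 3) := by clear * - b3 b6 v40 y13 y21 z86 z87; linarith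
            have kk1327 : (i2) ≤ (k) := by clear * - z88; omega
            have kk1328 : (i2 + l2) ≤ (k + l) := by clear * - y20; omega
            have kk1329 : (n) ≤ (k + l + l2 + 2) := by clear * - b3 b6 v40 y13 y21 z86; omega
            have kk1330 : (i) ≤ (i2) := by clear * - b3 v38 v40 y13 y20 z86 z87; linarith
            have kk1331 : (i + l + l2 + 2) ≤ (n) := by clear * - b5 v38 v40 y20 z86 z87; omega
            have kk1332 : (2 * k + 2 * l + i3 + 2) ≤ (n + i + j + i2) := by clear * - v38; omega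
            have kk1333 : (i + l + i3 + 1) ≤ (Q + i2) := by clear * - v40; omega
            have r1334 : (2 * n + i + j) % 2 = 0 := by clear * - ev n1p n2p n3p; omega
            have r1335 : (n + i + i3 - k - i2 - l2 - 1) % 2 = 0 := by clear * - ev n1p n2p n3p; omega
            clear * - al s2 b c D2 kk1323 kk1324 kk1325 kk1326 kk1327 kk1328 kk1329 kk1330 kk1331 kk1332 kk1333 r1334 r1335
            exact midP al (n + i + i3 - k - i2 - l2 - 1) (2 * n + i + j) (n + j + i2 - l - i3) (2 * k + l - i + 2) (n + i + l + i3 - i2 + 1) (by omega) (fun t h1 h2 => (cE (ab s2 al 1 t ((n + i + j) - t) (by omega)) (sh al 1 ((n + i + j) - t) ((2 * n + i + j) - t) (by omega)))) (fun t h1 h2 => (cE (cE (qf (show Par W (2 * k + l - i2 + 2) (k + l + l2 + 2) (n + i + i2 - 2 * k - l - 1) from fun t h1 h2 => (cE (sh al (-1) t (t + (-n)) (by omega)) (cE (cE (pb c al (-1) (t + (-n)) (t + (i2 - k - l - 1)) (by omega)) (pb b al 0 (t + (i2 - k - l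 - 1)) (t + (i + i2 - 2 * k - l - 1)) (by omega))) (sh al 1 (t + (i + i2 - 2 * k - l - 1)) (t + (n + i + i2 - 2 * k - l - 1)) (by omega))))) al 0 t (t + (n + i + i2 - 2 * k - l - 1)) (by omega)) (pb (show Par W (k + l + i3 - i2 - l2 + 1) (n + i3 - i2 - l2 - 1) (2 * i2 + l2 - k - l - i3) from fun t h1 h2 => (cE (sh al (-1) t (t + (-n)) (by omega)) (cE (pb D2 al (-1) (t + (-n)) (t + (i2 + l2 - i3 + 1)) (by omega)) (pb c al 0 (t + (i2 + l2 - i3 + 1)) (t + (2 * i2 + l2 - k - l - i3)) (by omega))))) al 1 (t + (n + i + i2 - 2 * k - l - 1)) (t + (i + i3 - k - i2 - l2 - 1)) (by omega))) (sh al 1 (t + (i + i3 - k - i2 - l2 - 1)) (t + (n + i + i3 - k - i2 - l2 - 1)) (by omega))))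
          · have kk1336 : (k + i2 + l2 + 2) ≤ (n + i + i3) := by clear * - b4 v40 y20 z86; omega
            have kk1337 : (n + i + 2 * j + i3 + 1) ≤ (2 * Q + k + i2 + l2) := by clear * - z87; omega
            have kk1338 : (3 * k + 2 * l + i3 + 3) ≤ (n + 2 * Q + i + i2 + l2) := by clear * - b3 b4 b6 v40 y20 z86; omega
            have kk1339 : (n + i + 2 * j + i2) ≤ (2 * Q + k + 2 * l + l2 + i3 + 1) := by clear * - b3 b4 b6 v40 y13 y20 z86 z87; linarith
            have kk1340 : (i2) ≤ (k) := by clear * - z88; omega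
            have kk1341 : (i2 + l2) ≤ (k + l) := by clear * - y20; omega
            have kk1342 : (n) ≤ (k + l + l2 + 2) := by clear * - b3 b4 b6 y13 y20 z86; omega
            have kk1343 : (i) ≤ (i2) := by clear * - b3 b4 v40 y13 y20 z86; omega
            have kk1344 : (i + l + l2 + 2) ≤ (n) := by clear * - b1 b4 b5 v38 y20 z86; omega
            have kk1345 : (2 * k + 2 * l + i3 + 2) ≤ (n + i + j + i2) := by clear * - v38; omega
            have kk1346 : (Q + i2) ≤ (i + l + i3 + 1) := by clear * - v40; omega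
            have r1347 : (2 * n + i + j) % 2 = 0 := by clear * - ev n1p n2p n3p; omega
            have r1348 : (n + i + i3 - k - i2 - l2 - 1) % 2 = 0 := by clear * - ev n1p n2p n3p; omega
            clear * - al s2 b c D2 kk1336 kk1337 kk1338 kk1339 kk1340 kk1341 kk1342 kk1343 kk1344 kk1345 kk1346 r1347 r1348
            exact midP al (n + i + i3 - k - i2 - l2 - 1) (2 * n + i + j) (n + i + j - Q + 1) (2 * k + l - i + 2) (n + i + l + i3 - i2 + 1) (by omega) (fun t h1 h2 => (cE (ab s2 al 1 t ((n + i + j) - t) (by omega)) (sh al 1 ((n + i + j) - t) ((2 * n + i + j) - t) (by omega)))) (fun t h1 h2 => (cE (cE (qf (show Par W (2 * k + l - i2 + 2) (k + l + l2 + 2) (n + i + i2 - 2 * k - l - 1) from fun t h1 h2 => (cE (sh al (-1) t (t + (-n)) (by omega)) (cE (cE (pb c al (-1) (t + (-n)) (t + (i2 - k - l - 1)) (by omega)) (pb b al 0 (t + (i2 - k - l - 1)) (t + (i + i2 - 2 * k - l - 1)) (by omega))) (sh al 1 (t + (i + i2 - 2 * k - l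 - 1)) (t + (n + i + i2 - 2 * k - l - 1)) (by omega))))) al 0 t (t + (n + i + i2 - 2 * k - l - 1)) (by omega)) (pb (show Par W (k + l + i3 - i2 - l2 + 1) (n + i3 - i2 - l2 - 1) (2 * i2 + l2 - k - l - i3) from fun t h1 h2 => (cE (sh al (-1) t (t + (-n)) (by omega)) (cE (pb D2 al (-1) (t + (-n)) (t + (i2 + l2 - i3 + 1)) (by omega)) (pb c al 0 (t + (i2 + l2 - i3 + 1)) (t + (2 * i2 + l2 - k - l - i3)) (by omega))))) al 1 (t + (n + i + i2 - 2 * k - l - 1)) (t + (i + i3 - k - i2 - l2 - 1)) (by omega))) (sh al 1 (t + (i + i3 - k - i2 - l2 - 1)) (t + (n + i + i3 - k - i2 - l2 - 1)) (by omega))))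
      · have kk1349 : (k + i2 + l2 + 2) ≤ (n + i + i3) := by clear * - b4 b5 b6 b8 y20 z86 z88; linarith
        have kk1350 : (n + i + 2 * j + i3 + 1) ≤ (2 * Q + k + i2 + l2) := by clear * - z87; omega
        have kk1351 : (3 * k + 2 * l + i3 + 3) ≤ (n + 3 * i + i2 + l2) := by clear * - b8; omega
        have kk1352 : (n + 2 * j + i2) ≤ (i + k + 2 * l + l2 + i3 + 1) := by clear * - b7; omega
        have kk1353 : (i2 + l2) ≤ (k + l) := by clear * - y20; omega
        have kk1354 : (n) ≤ (k + l + l2 + 2) := by clear * - b3 b4 b5 b6 y18 y20 z88; linarith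
        have kk1355 : (i) ≤ (k) := by clear * - b3 b4 b5 b6 y20 z86; omega
        have kk1356 : (i) ≤ (i2) := by clear * - b3 b4 b5 b6 y20 z86 z88; linarith
        have kk1357 : (i + l + l2 + 2) ≤ (n) := by clear * - b0 y20 y7 z86; omega
        have kk1358 : (i2) ≤ (l + i3 + 1) := by clear * - b3 b4 b5 b6 y20 z86 z88; linarith
        have kk1359 : (2 * k + l + 1) ≤ (n + i + j) := by clear * - b4 b5 b6 y1 y21 z86 z88; linarith
        have r1360 : (i + j) % 2 = 0 := by clear * - ev n1p n2p n3p; omega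
        have r1361 : (n + i + i3 - k - i2 - l2 - 1) % 2 = 0 := by clear * - ev n1p n2p n3p; omega
        clear * - al s2 b c D2 kk1349 kk1350 kk1351 kk1352 kk1353 kk1354 kk1355 kk1356 kk1357 kk1358 kk1359 r1360 r1361
        exact midP al (n + i + i3 - k - i2 - l2 - 1) (i + j) (j + 1) (2 * k + l - n - i + 2) (i + l + i3 - i2 + 1) (by omega) (fun t h1 h2 => (qa s2 al 0 t ((i + j) - t) (by omega))) (fun t h1 h2 => (cE (cE (pb c al (-1) t (t + (n + i2 - k - l - 1)) (by omega)) (pb b al 0 (t + (n + i2 - k - l - 1)) (t + (n + i + i2 - 2 * k - l - 1)) (by omega))) (pb (show Par W (k + l + i3 - i2 - l2 + 1) (n + i3 - i2 - l2 - 1) (2 * i2 + l2 - k - l - i3) from fun t h1 h2 => (cE (sh al (-1) t (t + (-n)) (by omega)) (cE (pb D2 al (-1) (t + (-n)) (t + (i2 + l2 - i3 + 1)) (by omega)) (pb c al 0 (t + (i2 + l2 - i3 + 1)) (t + (2 * i2 + l2 - k - l - i3)) (by omega))))) al 0 (t + (n + i + i2 - 2 * k - l - 1)) (t + (n + i + i3 - k - i2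 - l2 - 1)) (by omega))))
    · by_cases z89 : (k + l + i3 + 1) ≤ (i + i2 + l2)
      · have kk1362 : (i + 1) ≤ (k) := by clear * - b3 b4 b5 b6 y20 z86; omega
        have kk1363 : (k + l + i3 + 1) ≤ (2 * i2 + l2) := by clear * - b3 b4 b7 y20 z86 z87; omega
        have kk1364 : (2 * i2 + l2) ≤ (k + 2 * l + i3 + 1) := by clear * - b3 b4 b6 y13 y20 z86 z89; linarith
        have kk1365 : (k + l + i3 + 1) ≤ (i + i2 + l2) := by clear * - z89; omega
        have kk1366 : (k + i2 + l2 + 1) ≤ (n + i3) := by clear * - b4 b7 y20 z86 z87; omega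
        have kk1367 : (i2 + l2) ≤ (k + l) := by clear * - y20; omega
        have kk1368 : (n) ≤ (k + l + l2 + 2) := by clear * - b3 b4 b6 y13 y20 z86; omega
        have r1369 : (k - i) % 2 = 0 := by clear * - ev n1p n2p n3p; omega
        have r1370 : (2 * i2 + l2 - k - l - i3) % 2 = 0 := by clear * - ev n1p n2p n3p; omega
        clear * - al b c D2 n1 kk1362 kk1363 kk1364 kk1365 kk1366 kk1367 kk1368 r1369 r1370
        exact n1.f1 (rEE (sh al 1 (i) (n + i) (by omega)) (sh al 1 (k) (n + k) (by omega)) (rotL (k - i) (2 * i2 + l2 - k - l - i3) (n + i) (n + k) (by omega) (fun t h1 h2 => (cE (qf b al 1 t (t + (k - n - i)) (by omega)) (sh al 1 (t + (k - n - i)) (t + (k - i)) (by omega)))) (fun t h1 h2 => (cE (qf (show Par W (k + l + i3 - i2 - l2 + 1) (n + i3 - i2 - l2 - 1) (2 * i2 + l2 - k - l - i3) from fun t h1 h2 => (cE (sh al (-1) t (t + (-n)) (by omega)) (cE (pb D2 al (-1) (t + (-n)) (t + (i2 + l2 - i3 + 1)) (by omega))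 (pb c al 0 (t + (i2 + l2 - i3 + 1)) (t + (2 * i2 + l2 - k - l - i3)) (by omega))))) al 1 t (t + (2 * i2 + l2 - n - k - l - i3)) (by omega)) (sh al 1 (t + (2 * i2 + l2 - n - k - l - i3)) (t + (2 * i2 + l2 - k - l - i3)) (by omega))))))
      · by_cases z90 : (i2) ≤ (k)
        · have kk1371 : (k + i2 + l2 + 2) ≤ (n + i + i3) := by clear * - b8 z89; omega
          have kk1372 : (i + k + 2 * l + l2 + i3 + 5) ≤ (n + 2 * Q + i2) := by clear * - b4 y21 z86 z89; omega
          have kk1373 : (3 * k + 2 * l + 3) ≤ (n + i + i2 + l2 + i3) := by clear * - b4 b7 z86 z87; omega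
          have kk1374 : (k + i2 + l2 + 3) ≤ (n + i + i3) := by clear * - b8 z89; omega
          have kk1375 : (i2) ≤ (k) := by clear * - z90; omega
          have kk1376 : (i2 + l2) ≤ (k + l) := by clear * - y21 z89; omega
          have kk1377 : (n) ≤ (k + l + l2 + 2) := by clear * - b3 b4 b6 b8 y21 z86 z89; linarith
          have kk1378 : (i) ≤ (i2) := by clear * - b3 b4 b8 y21 z86 z89; omega
          have kk1379 : (i + l + l2 + 2) ≤ (n) := by clear * - b1 b4 b8 y21 z87 z89; omega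
          have kk1380 : (i2) ≤ (i + l + 1) := by clear * - b3 b4 b6 b8 y21 z86 z89; linarith
          have kk1381 : (k) ≤ (i + l2 + 1) := by clear * - b2 b3 b8 z89; omega
          have r1382 : (k + l + l2 + i3 - n + 2) % 2 = 0 := by clear * - ev n1p n2p n3p; omega
          have r1383 : (n + i + i3 - k - i2 - l2 - 1) % 2 = 0 := by clear * - ev n1p n2p n3p; omega
          clear * - al b c u2 D2 kk1371 kk1372 kk1373 kk1374 kk1375 kk1376 kk1377 kk1378 kk1379 kk1380 kk1381 r1382 r1383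
          exact midP al (n + i + i3 - k - i2 - l2 - 1) (k + l + l2 + i3 - n + 2) (k + l + l2 - n + 3) (2 * k + l - n - i + 2) (i + l + i3 - i2 + 1) (by omega) (fun t h1 h2 => (qa u2 al 0 t ((k + l + l2 + i3 - n + 2) - t) (by omega))) (fun t h1 h2 => (cE (qf (show Par W (2 * k + l - i2 + 2) (k + l + l2 + 2) (n + i + i2 - 2 * k - l - 1) from fun t h1 h2 => (cE (sh al (-1) t (t + (-n)) (by omega)) (cE (cE (pb c al (-1) (t + (-n)) (t + (i2 - k - l - 1)) (by omega)) (pb b al 0 (t + (i2 - k - l - 1)) (t + (i + i2 - 2 * k - l - 1)) (by omega))) (sh al 1 (t + (i + i2 - 2 * k - l - 1)) (t + (n + i + i2 - 2 * k - l - 1)) (by omega))))) al (-1) t (t + (2 * n + i + i2 - 2 * k - l - 1)) (by omega)) (pb (show Par W (k + l + i3 - i2 - l2 + 1) (n + i3 - i2 - l2 - 1) (2 * i2 + l2 - k - l - i3) from fun t h1 h2 => (cE (sh al (-1) t (t + (-n)) (by omega)) (cE (pb D2 al (-1) (t + (-n)) (t + (i2 + l2 - i3 + 1)) (by omega)) (pb c al 0 (t + (i2 +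 l2 - i3 + 1)) (t + (2 * i2 + l2 - k - l - i3)) (by omega))))) al 1 (t + (2 * n + i + i2 - 2 * k - l - 1)) (t + (n + i + i3 - k - i2 - l2 - 1)) (by omega))))
        · have kk1384 : (3 * k + l + 2) ≤ (n + 2 * i + i2) := by clear * - b8 z89 z90; omega
          have kk1385 : (2 * i + l + i2 + 2 * l2 + 5) ≤ (n + 2 * Q + k) := by clear * - b1 b4 b6 y21 z87 z89 z90; linarith
          have kk1386 : (3 * k + l + 3) ≤ (n + i2 + 2 * i3) := by clear * - b4 b7 z86 z87 z89 z90; omega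
          have kk1387 : (3 * k + l + 3) ≤ (n + 2 * i + i2) := by clear * - b8 z89 z90; omega
          have kk1388 : (k) ≤ (i2) := by clear * - z90; omega
          have kk1389 : (i2 + l2) ≤ (k + l) := by clear * - y21 z89; omega
          have kk1390 : (i + i2) ≤ (2 * k) := by clear * - b1 b3 b4 b6 b8 y21 z87 z89; linarith
          have kk1391 : (i + i2 + l2) ≤ (2 * k + l) := by clear * - b3 b4 b5 b6 y21 z86 z89; linarith
          have kk1392 : (2 * k + i3) ≤ (2 * i + i2 + l2 + 1) := by clear * - b3 b4 b6 b8 y21 z86 z89 z90; linarith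
          have kk1393 : (2 * k) ≤ (i + i2 + l2 + 1) := by clear * - b2 b3 b8 z89 z90; omega
          have r1394 : (n + k + l + l2 + i3 + 2) % 2 = 0 := by clear * - ev n1p n2p n3p; omega
          have r1395 : (n + 2 * i + i2 - 3 * k - l - 1) % 2 = 0 := by clear * - ev n1p n2p n3p; omega
          clear * - al b c u2 kk1384 kk1385 kk1386 kk1387 kk1388 kk1389 kk1390 kk1391 kk1392 kk1393 r1394 r1395
          exact midP al (n + 2 * i + i2 - 3 * k - l - 1) (n + k + l + l2 + i3 + 2) (k + l + l2 + 3) (3 * k + l - i - i2 + 2) (n + 2 * i + i2 + l2 - 2 * k + 1) (by omega) (fun t h1 h2 => (cE (qa u2 al 1 t ((k + l + l2 + i3 + 2) - t) (by omega)) (sh al 1 ((k + l + l2 + i3 + 2) - t) ((n + k + l + l2 + i3 + 2) - t) (by omega)))) (fun t h1 h2 => (cE (cE (qf (show Par W (k + l + 2) (k + l + l2 + 2) (n + i + i2 - 2 * k - l - 1) from fun t h1 h2 => (cE (sh al (-1) t (t + (-n)) (by omega)) (cE (cE (pb c al (-1) (t + (-n)) (t + (i2 - k - l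 - 1)) (by omega)) (pb b al 0 (t + (i2 - k - l - 1)) (t + (i + i2 - 2 * k - l - 1)) (by omega))) (sh al 1 (t + (i + i2 - 2 * k - l - 1)) (t + (n + i + i2 - 2 * k - l - 1)) (by omega))))) al 0 t (t + (n + i + i2 - 2 * k - l - 1)) (by omega)) (pb b al 1 (t + (n + i + i2 - 2 * k - l - 1)) (t + (2 * i + i2 - 3 * k - l - 1)) (by omega))) (sh al 1 (t + (2 * i + i2 - 3 * k - l - 1)) (t + (n + 2 * i + i2 - 3 * k - l - 1)) (by omega))))

theorem t1c_27 {W : ℤ → G} {n Q i j k l i2 l2 i3 : ℤ} (al : AL W n Q)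
    (hy : (0) ≤ (i) ∧ (i) ≤ (j) ∧ (j + 1) ≤ (Q) ∧ (Q) ≤ (k) ∧ (k + 1) ≤ (n) ∧ (Q) ≤ (i + l + 1) ∧ (k + l + 2) ≤ (n) ∧ (Q) ≤ (i2) ∧ (i2) ≤ (i + l + 1) ∧ (Q) ≤ (i2 + l2 + 1) ∧ (i2 + l2 + 2) ≤ (n) ∧ (n) ≤ (k + l + l2 + 2) ∧ (k + l + l2 + 3) ≤ (n + Q) ∧ (0) ≤ (i3) ∧ (n + i3) ≤ (k + l + l2 + 2) ∧ (k + i2 + l2 + 2) ≤ (n + j + i3) ∧ (j + i3 + 1) ≤ (k) ∧ (k + i2 + l2 + 2) ≤ (n + i3) ∧ (i + 2 * i2 + 1) ≤ (2 * Q + k) ∧ (i + l + 1) ≤ (i2 + l2) ∧ (i2 + l2 + 1) ≤ (k + l) ∧ (i3 + 1) ≤ (i))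
    (a1 : Par W (0) (j) (k - j))
    (a2 : Par W (Q + j - k) (j) (k - j))
    (s1 : Ant W (0) (i) (i + j))
    (s2 : Ant W (j + 1) (Q) (i + j))
    (b : Par W (i + 1) (i + l + 1) (k - i))
    (tt : Ant W (Q) (i2) (i + l + i2 + 1))
    (c : Par W (i2 + 1) (i2 + l2 + 1) (k + l - i2 + 1))
    (u1 : Ant W (0) (i3) (k + l + l2 + i3 - n + 2))
    (u2 : Ant W (k + l + l2 - n + 3) (Q) (k + l + l2 + i3 - n + 2))
    (D1 : Par W (i3 + 1) (Q) (i2 + l2 - i3 + 1))
    (D2 : Par W (i2 + l2 + 2) (n) (i3 - i2 - l2 - 1))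
    {L : ℤ} (mx : ∀ a b g, 0 < g → g < n → Par W a b g → b - a ≤ L)
    (hL : L ≤ (n - j - 3) ∧ L ≤ (n + Q - k - 3) ∧ L ≤ (n - l - 3) ∧ L ≤ (n + i - k - 2) ∧ L ≤ (n - l2 - 3) ∧ L ≤ (n + i3 - Q - 2) ∧ L ≤ (i2 + l2 - 1) ∧ L ≤ (n + i2 - k - l - 3) ∧ L ≤ (Q + i2 + l2 - l - i3 - 3))
    (bd0 : Bd W n L (j) (i) (k))
    (bd2 : Bd W n L (k + l + l2 - n + 2) (i3) (i2 + l2 + 1))
    (n1 : Nd W (j) (i) (k))
    (n2 : Nd W (i + l + 1) (i2) (k + l + 1))
    (n3 : Nd W (k + l + l2 - n + 2) (i3) (i2 + l2 + 1))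
    (b0 : (2 * l + i3 + 3) ≤ (Q + i2 + l2))
    (b1 : (2 * i + j + 1) ≤ (k))
    (b2 : (k + l + i3 + 2) ≤ (2 * Q + l2))
    (b3 : (2 * n + 2 * Q + i3) ≤ (k + l + 2 * i2 + 3 * l2 + 5))
    (b4 : (k + 2 * l + i3 + 3) ≤ (Q + 2 * i2 + l2))
    (b5 : (2 * Q + i2) ≤ (k + l + 2 * i3 + 1))
    (b6 : (3 * i2 + l2) ≤ (i + k + 2 * l + i3 + 2))
    (b7 : (n + 2 * j + i2) ≤ (i + k + 2 * l + l2 + i3 + 1)) : False := by
  have ev := al.ev
  obtain ⟨y0, y1, y2, y3, y4, y5, y6, y7, y8, y9, y10, y11, y12, y13, y14, y15, y16, y17, y18, y19, y20, y21⟩ := id hy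
  have n1p := And.intro n1.p1 n1.p2
  have n2p := And.intro n2.p1 n2.p2
  have n3p := And.intro n3.p1 n3.p2
  by_cases z85 : (3 * k + 2 * l + i3 + 3) ≤ (n + 3 * i + i2 + l2)
  · exact t1c_28 al hy a1 a2 s1 s2 b tt c u1 u2 D1 D2 mx hL bd0 bd2 n1 n2 n3 (by clear * - b0; omega) (by clear * - b1; omega) (by clear * - b2; omega) (by clear * - b3; omega) (by clear * - b4; omega) (by clear * - b5; omega) (by clear * - b6; omega) (by clear * - b7; omega) (by clear * - z85; omega)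
  · exact t1c_29 al hy a1 a2 s1 s2 b tt c u1 u2 D1 D2 mx hL bd0 bd2 n1 n2 n3 (by clear * - b0; omega) (by clear * - b1; omega) (by clear * - b2; omega) (by clear * - b3; omega) (by clear * - b4; omega) (by clear * - b5; omega) (by clear * - b6; omega) (by clear * - b7; omega) (by clear * - z85; omega)

theorem t1c_32 {W : ℤ → G} {n Q i j k l i2 l2 i3 : ℤ} (al : AL W n Q)
    (hy : (0) ≤ (i) ∧ (i) ≤ (j) ∧ (j + 1) ≤ (Q) ∧ (Q) ≤ (k) ∧ (k + 1) ≤ (n) ∧ (Q) ≤ (i + l + 1) ∧ (k + l + 2) ≤ (n) ∧ (Q) ≤ (i2) ∧ (i2) ≤ (i + l + 1) ∧ (Q) ≤ (i2 + l2 + 1) ∧ (i2 + l2 + 2) ≤ (n) ∧ (n) ≤ (k + l + l2 + 2) ∧ (k + l + l2 + 3) ≤ (n + Q) ∧ (0) ≤ (i3) ∧ (n + i3) ≤ (k + l + l2 + 2) ∧ (k + i2 + l2 + 2) ≤ (n + j + i3) ∧ (j + i3 + 1) ≤ (k) ∧ (k + i2 + l2 + 2) ≤ (n + i3) ∧ (i + 2 * i2 + 1) ≤ (2 * Q + k) ∧ (i + l + 1) ≤ (i2 + l2) ∧ (i2 + l2 + 1) ≤ (k + l) ∧ (i3 + 1) ≤ (i))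
    (a1 : Par W (0) (j) (k - j))
    (a2 : Par W (Q + j - k) (j) (k - j))
    (s1 : Ant W (0) (i) (i + j))
    (s2 : Ant W (j + 1) (Q) (i + j))
    (b : Par W (i + 1) (i + l + 1) (k - i))
    (tt : Ant W (Q) (i2) (i + l + i2 + 1))
    (c : Par W (i2 + 1) (i2 + l2 + 1) (k + l - i2 + 1))
    (u1 : Ant W (0) (i3) (k + l + l2 + i3 - n + 2))
    (u2 : Ant W (k + l + l2 - n + 3) (Q) (k + l + l2 + i3 - n + 2))
    (D1 : Par W (i3 + 1) (Q) (i2 + l2 - i3 + 1))
    (D2 : Par W (i2 + l2 + 2) (n) (i3 - i2 - l2 - 1))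
    {L : ℤ} (mx : ∀ a b g, 0 < g → g < n → Par W a b g → b - a ≤ L)
    (hL : L ≤ (n - j - 3) ∧ L ≤ (n + Q - k - 3) ∧ L ≤ (n - l - 3) ∧ L ≤ (n + i - k - 2) ∧ L ≤ (n - l2 - 3) ∧ L ≤ (n + i3 - Q - 2) ∧ L ≤ (i2 + l2 - 1) ∧ L ≤ (n + i2 - k - l - 3) ∧ L ≤ (Q + i2 + l2 - l - i3 - 3))
    (bd0 : Bd W n L (j) (i) (k))
    (bd2 : Bd W n L (k + l + l2 - n + 2) (i3) (i2 + l2 + 1))
    (n1 : Nd W (j) (i) (k))
    (n2 : Nd W (i + l + 1) (i2) (k + l + 1))
    (n3 : Nd W (k + l + l2 - n + 2) (i3) (i2 + l2 + 1))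
    (b0 : (2 * l + i3 + 3) ≤ (Q + i2 + l2))
    (b1 : (2 * i + j + 1) ≤ (k))
    (b2 : (k + l + i3 + 2) ≤ (2 * Q + l2))
    (b3 : (2 * n + 2 * Q + i3) ≤ (k + l + 2 * i2 + 3 * l2 + 5))
    (b4 : (k + 2 * l + i3 + 3) ≤ (Q + 2 * i2 + l2))
    (b5 : (2 * Q + i2) ≤ (k + l + 2 * i3 + 1))
    (b6 : (3 * i2 + l2) ≤ (i + k + 2 * l + i3 + 2))
    (b7 : (i + k + 2 * l + l2 + i3 + 2) ≤ (n + 2 * j + i2)) : False := by
  have ev := al.ev
  obtain ⟨y0, y1, y2, y3, y4, y5, y6, y7, y8, y9, y10, y11, y12, y13, y14, y15, y16, y17, y18, y19, y20, y21⟩ := id hy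
  have n1p := And.intro n1.p1 n1.p2
  have n2p := And.intro n2.p1 n2.p2
  have n3p := And.intro n3.p1 n3.p2
  by_cases z103 : (i2) ≤ (i + j + 1)
  · have kk1713 : (i2 + l2 + 1) ≤ (k + l) := by clear * - y20; omega
    have kk1714 : (k + l + i3 + 1) ≤ (Q + i2 + l2) := by clear * - b2 b3 b4 y17 y20; omega
    have kk1715 : (j + 1) ≤ (k) := by clear * - b1 y13 y21; omega
    have kk1716 : (0) ≤ (j) := by clear * - b2 b3 b4 b7 y13 y17 y20 z103; linarith
    have kk1717 : (i2 + l2) ≤ (k + l + i3) := by clear * - y13 y20; omega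
    have kk1718 : (l + i3 + 1) ≤ (i2 + l2) := by clear * - y19 y21; omega
    have kk1719 : (0) ≤ (i2) := by clear * - b3 b4 y13 y17 y20; omega
    have kk1720 : (i2 + 1) ≤ (k) := by clear * - b1 b4 b5 b6 y20 y21 z103; linarith
    have kk1721 : (i2) ≤ (i + j + 1) := by clear * - z103; omega
    have kk1722 : (i2 + l2) ≤ (k + l) := by clear * - y20; omega
    have kk1723 : (n) ≤ (k + l + l2 + 2) := by clear * - b2 b3 y13 y20; omega
    have kk1724 : (i2 + l2) ≤ (k + l + i3 + 1) := by clear * - y13 y20; omega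
    have kk1725 : (0) ≤ (i2 + 1) := by clear * - b3 b4 y13 y17 y20; omega
    have kk1726 : (k + i2 + l2 + 1) ≤ (n + i3) := by clear * - y17; omega
    have kk1727 : (k + l + i3) ≤ (2 * i2 + l2) := by clear * - b3 b4 y17 y20; omega
    have kk1728 : (0) ≤ (j + 1) := by clear * - b2 b3 b4 b7 y13 y17 y20 z103; linarith
    have kk1729 : (i) ≤ (k) := by clear * - y19 y20; omega
    have kk1730 : (i + j + 1) ≤ (k) := by clear * - b1 y13 y21; omega
    have r1731 : (2 * i2 + l2 - k - l - i3) % 2 = 0 := by clear * - ev n1p n2p n3p; omega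
    have r1732 : (k - j) % 2 = 0 := by clear * - ev n1p n2p n3p; omega
    have r1733 : (i + j - 2 * n) % 2 = 0 := by clear * - ev n1p n2p n3p; omega
    clear * - al a1 s1 c D1 D2 n2 kk1713 kk1714 kk1715 kk1716 kk1717 kk1718 kk1719 kk1720 kk1721 kk1722 kk1723 kk1724 kk1725 kk1726 kk1727 kk1728 kk1729 kk1730 r1731 r1732 r1733
    exact ivt al.ninv (-n) (j - n) (k - j) (k + l + i3 - n - i2 - l2 + 1) (2 * k + l + i3 - n - 2 * i2 - l2) (2 * i2 + l2 - k - l - i3) (k + l + i3 - n - i2 - l2) (i2 - n) 0 (fun t h1 h2 => (cE (qf a1 al (-1) t (t + (n + k - j)) (by omega)) (sh al (-1) (t + (n + k - j)) (t + (k - j)) (by omega)))) (fun t h1 h2 => (cE (qf (show Par W (k + l + i3 - i2 - l2 + 1) (n + i3 - i2 - l2 - 1) (2 * i2 + l2 - k - l - i3) from fun t h1 h2 => (cE (sh al (-1) t (t + (-n)) (by omega)) (cE (pb D2 al (-1) (t + (-n)) (t + (i2 + l2 - i3 + 1)) (by omega)) (pb c al 0 (t + (i2 + l2 - i3 + 1)) (t + (2 * i2 + l2 - k - l - i3))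 (by omega))))) al (-1) t (t + (n + 2 * i2 + l2 - k - l - i3)) (by omega)) (sh al (-1) (t + (n + 2 * i2 + l2 - k - l - i3)) (t + (2 * i2 + l2 - k - l - i3)) (by omega)))) (fun hh => n2.f1 (rEE (sh al (-1) (i2) (i2 - n) (by omega)) (cE (pb D1 al 0 (k + l + 1) (k + l + i3 - i2 - l2) (by omega)) (sh al (-1) (k + l + i3 - i2 - l2) (k + l + i3 - n - i2 - l2) (by omega))) (Eq.symm (Eq.symm hh)))) (by omega) (j - n + 1) (i + j - n + 1) (i + j - 2 * n) 1 (-1) (fun t h1 h2 => (cE (ab s1 al (-1) t ((i + j - n) - t) (by omega)) (sh al (-1) ((i + j - n) - t) ((i + j - 2 * n) - t) (by omega)))) (by omega)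
  · by_cases z104 : (i + i2 + l2 + i3 + 2) ≤ (2 * Q + k)
    · have kk1734 : (3 * k + 2 * l + l2 + 5) ≤ (2 * n + i + i2 + i3) := by clear * - b4 b6 y17 y7; omega
      have kk1735 : (i + i2 + l2 + i3 + 2) ≤ (2 * Q + k) := by clear * - z104; omega
      have kk1736 : (n + i) ≤ (k + l + l2 + 2) := by clear * - b3 y13 y17 z104; omega
      have kk1737 : (n + i3) ≤ (k + l + l2 + 2) := by clear * - b3 b4 b6 b7 z103; omega
      have kk1738 : (Q) ≤ (i + l + 1) := by clear * - b3 b6 b7 y13 y17 y21 z103 z104; linarith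
      have kk1739 : (Q) ≤ (l2 + i3 + 1) := by clear * - b3 b4 b5 b6 b7 y17 z103; linarith
      have r1740 : (k + i2 + l2 + i3 - i + 1) % 2 = 0 := by clear * - ev n1p n2p n3p; omega
      clear * - al b c u2 kk1734 kk1735 kk1736 kk1737 kk1738 kk1739 r1740
      obtain ⟨t, ht⟩ : ∃ t, 2 * t = (k + i2 + l2 + i3 - i + 1) := ⟨(k + i2 + l2 + i3 - i + 1) / 2, by omega⟩
      exact al.ninv t (cE (cI (pb b al 0 t (t + (i - k)) (by omega)) (qa u2 al 0 (t + (i - k)) ((2 * k + l + l2 + i3 - n - i + 2) - t) (by omega))) (pb c al (-1) ((2 * k + l + l2 + i3 - n - i + 2) - t) t (by omega)))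
    · by_cases z105 : (2 * i2 + l2) ≤ (i + j + k + l + i3)
      · by_cases v54 : (j + k + l + i3 + 1) ≤ (2 * i2 + l2)
        · have kk1741 : (j + k + l + i3 + 1) ≤ (i + 2 * i2 + l2) := by clear * - v54 z105; omega
          have kk1742 : (2 * i2 + l2) ≤ (i + j + k + l + i3) := by clear * - z105; omega
          have kk1743 : (j + k + l + i3 + 2) ≤ (i + 2 * i2 + l2) := by clear * - v54 z105; omega
          have kk1744 : (i2 + l2) ≤ (k + l) := by clear * - y20; omega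
          have kk1745 : (n) ≤ (k + l + l2 + 2) := by clear * - b2 b3 z103 z105; omega
          have kk1746 : (j + l + i3 + 1) ≤ (i2 + l2) := by clear * - b1 b4 b6 y21 z104; omega
          have kk1747 : (j + k + l + i3 + 1) ≤ (2 * i2 + l2) := by clear * - v54; omega
          have kk1748 : (2 * i2 + l2) ≤ (k + 2 * l + i3 + 1) := by clear * - b2 b3 b6 b7 v54 z103 z104 z105; linarith
          have kk1749 : (k + i2 + l2 + 1) ≤ (n + i3) := by clear * - y17; omega
          have kk1750 : (0) ≤ (j + 1) := by clear * - b2 b3 b6 b7 v54 z103 z104 z105; linarith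
          have kk1751 : (k + l + i3) ≤ (2 * i2 + l2) := by clear * - b3 b4 b6 b7 z103 z104; omega
          have r1752 : (2 * n + i + j) % 2 = 0 := by clear * - ev n1p n2p n3p; omega
          have r1753 : (i + 2 * i2 + l2 - j - k - l - i3) % 2 = 0 := by clear * - ev n1p n2p n3p; omega
          clear * - al a1 s1 b c D2 kk1741 kk1742 kk1743 kk1744 kk1745 kk1746 kk1747 kk1748 kk1749 kk1750 kk1751 r1752 r1753
          exact midP al (i + 2 * i2 + l2 - j - k - l - i3) (2 * n + i + j) (n + j + 1) (n) (n + i + 2 * i2 + l2 - k - l - i3) (by omega) (fun t h1 h2 => (cE (ab s1 al 1 t ((n + i + j) - t) (by omega)) (sh al 1 ((n + i + j) - t) ((2 * n + i + j) - t) (by omega)))) (fun t h1 h2 => (cE (cE (cE (qf a1 al 1 t (t + (k - n - j)) (by omega)) (qf (show Par W (k + l + i3 - i2 - l2 + 1) (n + i3 - i2 - l2 - 1) (2 * i2 + l2 - k - l - i3) from fun t h1 h2 => (cE (sh al (-1) t (t + (-n)) (by omega)) (cE (pb D2 al (-1) (t + (-n)) (t +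 (i2 + l2 - i3 + 1)) (by omega)) (pb c al 0 (t + (i2 + l2 - i3 + 1)) (t + (2 * i2 + l2 - k - l - i3)) (by omega))))) al 0 (t + (k - n - j)) (t + (2 * i2 + l2 - n - j - l - i3)) (by omega))) (pb b al 0 (t + (2 * i2 + l2 - n - j - l - i3)) (t + (i + 2 * i2 + l2 - n - j - k - l - i3)) (by omega))) (sh al 1 (t + (i + 2 * i2 + l2 - n - j - k - l - i3)) (t + (i + 2 * i2 + l2 - j - k - l - i3)) (by omega))))
        · have kk1754 : (j + k + l + i3 + 1) ≤ (i + 2 * i2 + l2) := by clear * - b4 b6 y21 z103 z104; omega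
          have kk1755 : (2 * i2 + l2) ≤ (i + j + k + l + i3) := by clear * - z105; omega
          have kk1756 : (j + k + l + i3 + 2) ≤ (i + 2 * i2 + l2) := by clear * - b4 b6 y21 z103 z104; omega
          have kk1757 : (i2 + l2) ≤ (k + l) := by clear * - v54 y21 z103; omega
          have kk1758 : (n) ≤ (k + l + l2 + 2) := by clear * - b3 b4 b6 b7 v54 z103 z104; linarith
          have kk1759 : (2 * i2 + l2) ≤ (j + k + l + i3 + 1) := by clear * - v54; omega
          have kk1760 : (i2) ≤ (k) := by clear * - b1 b4 b6 v54 y21 z104; omega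
          have kk1761 : (2 * i2 + l2) ≤ (k + 2 * l + i3 + 1) := by clear * - b3 b4 b6 b7 v54 z103 z104; linarith
          have kk1762 : (k + i2 + l2 + 1) ≤ (n + i3) := by clear * - y17; omega
          have kk1763 : (k + l + i3) ≤ (2 * i2 + l2) := by clear * - b3 b4 b6 b7 z103 z104; omega
          have r1764 : (2 * n + i + j) % 2 = 0 := by clear * - ev n1p n2p n3p; omega
          have r1765 : (i + 2 * i2 + l2 - j - k - l - i3) % 2 = 0 := by clear * - ev n1p n2p n3p; omega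
          clear * - al a1 s1 b c D2 kk1754 kk1755 kk1756 kk1757 kk1758 kk1759 kk1760 kk1761 kk1762 kk1763 r1764 r1765
          exact midP al (i + 2 * i2 + l2 - j - k - l - i3) (2 * n + i + j) (n + j + 1) (n + j + k + l + i3 - 2 * i2 - l2 + 1) (n + i + 2 * i2 + l2 - k - l - i3) (by omega) (fun t h1 h2 => (cE (ab s1 al 1 t ((n + i + j) - t) (by omega)) (sh al 1 ((n + i + j) - t) ((2 * n + i + j) - t) (by omega)))) (fun t h1 h2 => (cE (cE (cE (qf a1 al 1 t (t + (k - n - j)) (by omega)) (qf (show Par W (k + l + i3 - i2 - l2 + 1) (n + i3 - i2 - l2 - 1) (2 * i2 + l2 - k - l - i3) from fun t h1 h2 => (cE (sh al (-1) t (t + (-n)) (by omega)) (cE (pb D2 al (-1) (t + (-n)) (t + (i2 + l2 - i3 + 1)) (by omega)) (pb c al 0 (t + (i2 + l2 - i3 + 1)) (t + (2 * i2 + l2 - k - l - i3)) (by omega))))) al 0 (t + (k - n - j)) (t + (2 * i2 + l2 - n - j - l - i3)) (by omega))) (pb b al 0 (t + (2 * i2 + l2 - n - j - l - i3)) (t + (i + 2 * i2 + l2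 - n - j - k - l - i3)) (by omega))) (sh al 1 (t + (i + 2 * i2 + l2 - n - j - k - l - i3)) (t + (i + 2 * i2 + l2 - j - k - l - i3)) (by omega))))
      · by_cases z106 : (i2) ≤ (k)
        · have kk1766 : (k + i2 + l2 + 2) ≤ (n + i + i3) := by clear * - b4 b6 b7 z103 z104; omega
          have kk1767 : (i + k + 2 * l + l2 + i3 + 5) ≤ (n + 2 * Q + i2) := by clear * - b4 b6 b7 z103; omega
          have kk1768 : (3 * k + 2 * l + 3) ≤ (n + i + i2 + l2 + i3) := by clear * - b4 b6 b7 y13 z104 z105; omega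
          have kk1769 : (k + i2 + l2 + 3) ≤ (n + i + i3) := by clear * - b4 b6 b7 z103 z104; omega
          have kk1770 : (i2) ≤ (k) := by clear * - z106; omega
          have kk1771 : (i2 + l2) ≤ (k + l) := by clear * - y20; omega
          have kk1772 : (n) ≤ (k + l + l2 + 2) := by clear * - b3 b4 b6 b7 y13 z103; omega
          have kk1773 : (i) ≤ (i2) := by clear * - b3 b4 b6 b7 y13 z103 z104; linarith
          have kk1774 : (i + l + l2 + 2) ≤ (n) := by clear * - b4 b6 b7 z103 z104 z106; omega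
          have kk1775 : (i2) ≤ (i + l + 1) := by clear * - b3 b4 b6 b7 z103 z104; omega
          have kk1776 : (k) ≤ (i + l2 + 1) := by clear * - b2 b3 b4 b6 b7 z103 z104; linarith
          have r1777 : (n + k + l + l2 + i3 + 2) % 2 = 0 := by clear * - ev n1p n2p n3p; omega
          have r1778 : (n + i + i3 - k - i2 - l2 - 1) % 2 = 0 := by clear * - ev n1p n2p n3p; omega
          clear * - al b c u2 D2 kk1766 kk1767 kk1768 kk1769 kk1770 kk1771 kk1772 kk1773 kk1774 kk1775 kk1776 r1777 r1778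
          exact midP al (n + i + i3 - k - i2 - l2 - 1) (n + k + l + l2 + i3 + 2) (k + l + l2 + 3) (2 * k + l - i + 2) (n + i + l + i3 - i2 + 1) (by omega) (fun t h1 h2 => (cE (qa u2 al 1 t ((k + l + l2 + i3 + 2) - t) (by omega)) (sh al 1 ((k + l + l2 + i3 + 2) - t) ((n + k + l + l2 + i3 + 2) - t) (by omega)))) (fun t h1 h2 => (cE (cE (qf (show Par W (2 * k + l - i2 + 2) (k + l + l2 + 2) (n + i + i2 - 2 * k - l - 1) from fun t h1 h2 => (cE (sh al (-1) t (t + (-n)) (by omega)) (cE (cE (pb c al (-1) (t + (-n)) (t + (i2 - k - l - 1)) (by omega)) (pb b al 0 (t + (i2 - k - l - 1)) (t + (i + i2 - 2 * k - l - 1)) (by omega))) (sh al 1 (t + (i + i2 - 2 * k - l - 1)) (t + (n + i + i2 - 2 * k - l - 1)) (by omega))))) al 0 t (t + (n + i + i2 - 2 * k - l - 1)) (by omega)) (pb (show Par W (k + l + i3 - i2 - l2 + 1) (n + i3 - i2 - l2 - 1) (2 * i2 + l2 - k - l - i3) from fun t h1 h2 => (cE (sh al (-1) t (t + (-n)) (by omega)) (cE (pb D2 al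 (-1) (t + (-n)) (t + (i2 + l2 - i3 + 1)) (by omega)) (pb c al 0 (t + (i2 + l2 - i3 + 1)) (t + (2 * i2 + l2 - k - l - i3)) (by omega))))) al 1 (t + (n + i + i2 - 2 * k - l - 1)) (t + (i + i3 - k - i2 - l2 - 1)) (by omega))) (sh al 1 (t + (i + i3 - k - i2 - l2 - 1)) (t + (n + i + i3 - k - i2 - l2 - 1)) (by omega))))
        · have kk1779 : (3 * k + l + 2) ≤ (n + 2 * i + i2) := by clear * - b4 b6 b7 y21 z103 z104 z105 z106; linarith
          have kk1780 : (2 * i + l + i2 + 2 * l2 + 5) ≤ (n + 2 * Q + k) := by clear * - b1 b4 b5 b6 b7 y20 z106; linarith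
          have kk1781 : (3 * k + l + 3) ≤ (n + i2 + 2 * i3) := by clear * - b1 b4 b5 b6 b7 z105 z106; linarith
          have kk1782 : (3 * k + l + 3) ≤ (n + 2 * i + i2) := by clear * - b4 b6 b7 y21 z103 z104 z105 z106; linarith
          have kk1783 : (k) ≤ (i2) := by clear * - z106; omega
          have kk1784 : (i2 + l2) ≤ (k + l) := by clear * - y20; omega
          have kk1785 : (i + i2) ≤ (2 * k) := by clear * - b0 b3 b5 b6 b7 z103 z106; linarith
          have kk1786 : (i + i2 + l2) ≤ (2 * k + l) := by clear * - b3 b4 b5 b6 b7 y20 z103; linarith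
          have kk1787 : (2 * k + i3) ≤ (2 * i + i2 + l2 + 1) := by clear * - b3 b4 b6 b7 y21 z103 z104 z105 z106; linarith
          have kk1788 : (2 * k) ≤ (i + i2 + l2 + 1) := by clear * - b3 b4 b5 b6 b7 z103 z104 z105 z106; linarith
          have r1789 : (k + l + l2 + i3 - n + 2) % 2 = 0 := by clear * - ev n1p n2p n3p; omega
          have r1790 : (n + 2 * i + i2 - 3 * k - l - 1) % 2 = 0 := by clear * - ev n1p n2p n3p; omega
          clear * - al b c u2 kk1779 kk1780 kk1781 kk1782 kk1783 kk1784 kk1785 kk1786 kk1787 kk1788 r1789 r1790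
          exact midP al (n + 2 * i + i2 - 3 * k - l - 1) (k + l + l2 + i3 - n + 2) (k + l + l2 - n + 3) (3 * k + l - n - i - i2 + 2) (2 * i + i2 + l2 - 2 * k + 1) (by omega) (fun t h1 h2 => (qa u2 al 0 t ((k + l + l2 + i3 - n + 2) - t) (by omega))) (fun t h1 h2 => (cE (qf (show Par W (k + l + 2) (k + l + l2 + 2) (n + i + i2 - 2 * k - l - 1) from fun t h1 h2 => (cE (sh al (-1) t (t + (-n)) (by omega)) (cE (cE (pb c al (-1) (t + (-n)) (t + (i2 - k - l - 1)) (by omega)) (pb b al 0 (t + (i2 - k - l - 1)) (t + (i + i2 - 2 * k - l - 1)) (by omega))) (sh al 1 (t + (i + i2 - 2 * k - l - 1)) (t + (n + i + i2 - 2 * k - l - 1)) (by omega))))) al (-1) t (t + (2 * n + i + i2 - 2 * k - l - 1)) (by omega)) (pb b al 1 (t + (2 * n + i + i2 - 2 * k - l - 1)) (t + (n + 2 * i + i2 - 3 * k - l - 1)) (by omega))))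

theorem t1c_26 {W : ℤ → G} {n Q i j k l i2 l2 i3 : ℤ} (al : AL W n Q)
    (hy : (0) ≤ (i) ∧ (i) ≤ (j) ∧ (j + 1) ≤ (Q) ∧ (Q) ≤ (k) ∧ (k + 1) ≤ (n) ∧ (Q) ≤ (i + l + 1) ∧ (k + l + 2) ≤ (n) ∧ (Q) ≤ (i2) ∧ (i2) ≤ (i + l + 1) ∧ (Q) ≤ (i2 + l2 + 1) ∧ (i2 + l2 + 2) ≤ (n) ∧ (n) ≤ (k + l + l2 + 2) ∧ (k + l + l2 + 3) ≤ (n + Q) ∧ (0) ≤ (i3) ∧ (n + i3) ≤ (k + l + l2 + 2) ∧ (k + i2 + l2 + 2) ≤ (n + j + i3) ∧ (j + i3 + 1) ≤ (k) ∧ (k + i2 + l2 + 2) ≤ (n + i3) ∧ (i + 2 * i2 + 1) ≤ (2 * Q + k) ∧ (i + l + 1) ≤ (i2 + l2) ∧ (i2 + l2 + 1) ≤ (k + l) ∧ (i3 + 1) ≤ (i))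
    (a1 : Par W (0) (j) (k - j))
    (a2 : Par W (Q + j - k) (j) (k - j))
    (s1 : Ant W (0) (i) (i + j))
    (s2 : Ant W (j + 1) (Q) (i + j))
    (b : Par W (i + 1) (i + l + 1) (k - i))
    (tt : Ant W (Q) (i2) (i + l + i2 + 1))
    (c : Par W (i2 + 1) (i2 + l2 + 1) (k + l - i2 + 1))
    (u1 : Ant W (0) (i3) (k + l + l2 + i3 - n + 2))
    (u2 : Ant W (k + l + l2 - n + 3) (Q) (k + l + l2 + i3 - n + 2))
    (D1 : Par W (i3 + 1) (Q) (i2 + l2 - i3 + 1))
    (D2 : Par W (i2 + l2 + 2) (n) (i3 - i2 - l2 - 1))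
    {L : ℤ} (mx : ∀ a b g, 0 < g → g < n → Par W a b g → b - a ≤ L)
    (hL : L ≤ (n - j - 3) ∧ L ≤ (n + Q - k - 3) ∧ L ≤ (n - l - 3) ∧ L ≤ (n + i - k - 2) ∧ L ≤ (n - l2 - 3) ∧ L ≤ (n + i3 - Q - 2) ∧ L ≤ (i2 + l2 - 1) ∧ L ≤ (n + i2 - k - l - 3) ∧ L ≤ (Q + i2 + l2 - l - i3 - 3))
    (bd0 : Bd W n L (j) (i) (k))
    (bd2 : Bd W n L (k + l + l2 - n + 2) (i3) (i2 + l2 + 1))
    (n1 : Nd W (j) (i) (k))
    (n2 : Nd W (i + l + 1) (i2) (k + l + 1))
    (n3 : Nd W (k + l + l2 - n + 2) (i3) (i2 + l2 + 1))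
    (b0 : (2 * l + i3 + 3) ≤ (Q + i2 + l2))
    (b1 : (2 * i + j + 1) ≤ (k))
    (b2 : (k + l + i3 + 2) ≤ (2 * Q + l2))
    (b3 : (2 * n + 2 * Q + i3) ≤ (k + l + 2 * i2 + 3 * l2 + 5))
    (b4 : (k + 2 * l + i3 + 3) ≤ (Q + 2 * i2 + l2))
    (b5 : (2 * Q + i2) ≤ (k + l + 2 * i3 + 1))
    (b6 : (3 * i2 + l2) ≤ (i + k + 2 * l + i3 + 2)) : False := by
  have ev := al.ev
  obtain ⟨y0, y1, y2, y3, y4, y5, y6, y7, y8, y9, y10, y11, y12, y13, y14, y15, y16, y17, y18, y19, y20, y21⟩ := id hy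
  have n1p := And.intro n1.p1 n1.p2
  have n2p := And.intro n2.p1 n2.p2
  have n3p := And.intro n3.p1 n3.p2
  by_cases z84 : (n + 2 * j + i2) ≤ (i + k + 2 * l + l2 + i3 + 1)
  · exact t1c_27 al hy a1 a2 s1 s2 b tt c u1 u2 D1 D2 mx hL bd0 bd2 n1 n2 n3 (by clear * - b0; omega) (by clear * - b1; omega) (by clear * - b2; omega) (by clear * - b3; omega) (by clear * - b4; omega) (by clear * - b5; omega) (by clear * - b6; omega) (by clear * - z84; omega)
  · exact t1c_32 al hy a1 a2 s1 s2 b tt c u1 u2 D1 D2 mx hL bd0 bd2 n1 n2 n3 (by clear * - b0; omega) (by clear * - b1; omega) (by clear * - b2; omega) (by clear * - b3; omega) (by clear * - b4; omega) (by clear * - b5; omega) (by clear * - b6; omega) (by clear * - z84; omega)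

end Pool.Agent.MP_a38735_al.WL
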