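import Pool.Agent.MP_a38735_al.Zw2
import Pool.Agent.MP_a38735_al.Zw3

set_option autoImplicit false
set_option linter.unusedVariables false

namespace Pool.Agent.MP_a38735_al.WL

variable {G : Type*} [Group G]

theorem t1c_12 {W : ℤ → G} {n Q i j k l i2 l2 i3 : ℤ} (al : AL W n Q)
    (hy : (0) ≤ (i) ∧ (i) ≤ (j) ∧ (j + 1) ≤ (Q) ∧ (Q) ≤ (k) ∧ (k + 1) ≤ (n) ∧ (Q) ≤ (i + l + 1) ∧ (k + l + 2) ≤ (n) ∧ (Q) ≤ (i2) ∧ (i2) ≤ (i + l + 1) ∧ (Q) ≤ (i2 + l2 + 1) ∧ (i2 + l2 + 2) ≤ (n) ∧ (n) ≤ (k + l + l2 + 2) ∧ (k + l + l2 + 3) ≤ (n + Q) ∧ (0) ≤ (i3) ∧ (n + i3) ≤ (k + l + l2 + 2) ∧ (k + i2 + l2 + 2) ≤ (n + j + i3) ∧ (j + i3 + 1) ≤ (k) ∧ (k + i2 + l2 + 2) ≤ (n + i3) ∧ (i + 2 * i2 + 1) ≤ (2 * Q + k) ∧ (i + l + 1) ≤ (i2 + l2) ∧ (i2 + l2 + 1) ≤ (k + l) ∧ (i3 + 1) ≤ (i))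
    (a1 : Par W (0) (j) (k - j))
    (a2 : Par W (Q + j - k) (j) (k - j))
    (s1 : Ant W (0) (i) (i + j))
    (s2 : Ant W (j + 1) (Q) (i + j))
    (b : Par W (i + 1) (i + l + 1) (k - i))
    (tt : Ant W (Q) (i2) (i + l + i2 + 1))
    (c : Par W (i2 + 1) (i2 + l2 + 1) (k + l - i2 + 1))
    (u1 : Ant W (0) (i3) (k + l + l2 + i3 - n + 2))
    (u2 : Ant W (k + l + l2 - n + 3) (Q) (k + l + l2 + i3 - n + 2))
    (D1 : Par W (i3 + 1) (Q) (i2 + l2 - i3 + 1))
    (D2 : Par W (i2 + l2 + 2) (n) (i3 - i2 - l2 - 1))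
    {L : ℤ} (mx : ∀ a b g, 0 < g → g < n → Par W a b g → b - a ≤ L)
    (hL : L ≤ (n - j - 3) ∧ L ≤ (n + Q - k - 3) ∧ L ≤ (n - l - 3) ∧ L ≤ (n + i - k - 2) ∧ L ≤ (n - l2 - 3) ∧ L ≤ (n + i3 - Q - 2) ∧ L ≤ (i2 + l2 - 1) ∧ L ≤ (n + i2 - k - l - 3) ∧ L ≤ (Q + i2 + l2 - l - i3 - 3))
    (bd0 : Bd W n L (j) (i) (k))
    (bd2 : Bd W n L (k + l + l2 - n + 2) (i3) (i2 + l2 + 1))
    (n1 : Nd W (j) (i) (k))
    (n2 : Nd W (i + l + 1) (i2) (k + l + 1))
    (n3 : Nd W (k + l + l2 - n + 2) (i3) (i2 + l2 + 1))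
    (b0 : (2 * l + i3 + 3) ≤ (Q + i2 + l2))
    (b1 : (2 * i + j + 1) ≤ (k))
    (b2 : (l + i3 + 3) ≤ (Q + i2))
    (b3 : (k + l + i3 + 2) ≤ (2 * Q + l2))
    (b4 : (2 * n + 2 * Q + i3) ≤ (k + l + 2 * i2 + 3 * l2 + 5))
    (b5 : (Q + 2 * i2 + l2) ≤ (k + 2 * l + i3 + 2))
    (b6 : (n + i) ≤ (2 * k + l + 1))
    (b7 : (n + 2 * i + j + i2) ≤ (2 * Q + 2 * k + l)) : False := by
  have ev := al.ev
  obtain ⟨y0, y1, y2, y3, y4, y5, y6, y7, y8, y9, y10, y11, y12, y13, y14, y15, y16, y17, y18, y19, y20, y21⟩ := id hy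
  have n1p := And.intro n1.p1 n1.p2
  have n2p := And.intro n2.p1 n2.p2
  have n3p := And.intro n3.p1 n3.p2
  by_cases z32 : (j + 2 * k + l + 3) ≤ (n + 2 * i + i2)
  · by_cases v19 : (Q + k + l + 1) ≤ (n + i + j)
    · have kk468 : (j + 2 * k + l + 3) ≤ (n + 2 * i + i2) := by clear * - z32; omega
      have kk469 : (n + 2 * i + j + i2) ≤ (2 * Q + 2 * k + l) := by clear * - b7; omega
      have kk470 : (n + i) ≤ (k + l + l2 + 2) := by clear * - b3 b4 b6 y17; omega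
      have kk471 : (i) ≤ (j) := by clear * - y1; omega
      have kk472 : (Q + k + l + 1) ≤ (n + i + j) := by clear * - v19; omega
      have kk473 : (Q) ≤ (i + l + 1) := by clear * - b2 b4 b5 y15 z32; omega
      have r474 : (j + i2 - n - l - 1) % 2 = 0 := by clear * - ev n1p n2p n3p; omega
      clear * - al s2 b c kk468 kk469 kk470 kk471 kk472 kk473 r474
      obtain ⟨t, ht⟩ : ∃ t, 2 * t = (j + i2 - n - l - 1) := ⟨(j + i2 - n - l - 1) / 2, by omega⟩
      exact al.ninv t (cE (cE (cI (pb b al (-1) t (t + (n + i - k)) (by omega)) (qa s2 al 0 (t + (n + i - k)) ((j + k - n) - t) (by omega))) (pb c al (-1) ((j + k - n) - t) ((j + i2 - l - 1) - t) (by omega))) (sh al (-1) ((j + i2 - l - 1) - t) t (by omega)))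
    · have kk475 : (j + 2 * k + l + 3) ≤ (n + 2 * i + i2) := by clear * - z32; omega
      have kk476 : (l + i2 + 2) ≤ (n + j) := by clear * - b0 b1 b4 b5 b6 y15 y21 z32; linarith
      have kk477 : (n + j) ≤ (k + l + l2 + 2) := by clear * - b0 b4 b5 v19 y15 z32; omega
      have kk478 : (i) ≤ (j) := by clear * - y1; omega
      have kk479 : (n + j) ≤ (k + 2 * l + 2) := by clear * - b2 b4 b5 v19 y15 z32; omega
      have kk480 : (n + i + j) ≤ (Q + k + l + 1) := by clear * - v19; omega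
      have r481 : (j + i2 - n - l - 1) % 2 = 0 := by clear * - ev n1p n2p n3p; omega
      clear * - al s2 b c kk475 kk476 kk477 kk478 kk479 kk480 r481
      obtain ⟨t, ht⟩ : ∃ t, 2 * t = (j + i2 - n - l - 1) := ⟨(j + i2 - n - l - 1) / 2, by omega⟩
      exact al.ninv t (cE (cE (cI (pb b al (-1) t (t + (n + i - k)) (by omega)) (qa s2 al 0 (t + (n + i - k)) ((j + k - n) - t) (by omega))) (pb c al (-1) ((j + k - n) - t) ((j + i2 - l - 1) - t) (by omega))) (sh al (-1) ((j + i2 - l - 1) - t) t (by omega)))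
  · by_cases z33 : (j + 2 * k + l + 1) ≤ (n + 2 * i + i2)
    · by_cases z34 : (j + l + i3 + 1) ≤ (i + i2 + l2)
      · have kk482 : (0) ≤ (i) := by clear * - y13 y21; omega
        have kk483 : (i + 1) ≤ (j) := by clear * - b2 b4 y15 y17 z32; omega
        have kk484 : (k + l + i3 + 1) ≤ (2 * i2 + l2) := by clear * - b2 b4 y17; omega
        have kk485 : (i + 2 * i2 + l2) ≤ (j + k + l + i3) := by clear * - y13 y17 y21 z32; omega
        have kk486 : (j + l + i3 + 1) ≤ (i + i2 + l2) := by clear * - z34; omega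
        have kk487 : (k + i2 + l2 + 1) ≤ (n + i3) := by clear * - y17; omega
        have kk488 : (i2 + l2) ≤ (k + l) := by clear * - b2 b5; omega
        have kk489 : (n) ≤ (k + l + l2 + 2) := by clear * - b2 b3 b4 b5 y13; omega
        have kk490 : (0) ≤ (i + 1) := by clear * - y13 y21; omega
        have kk491 : (j) ≤ (i + l + 1) := by clear * - b2 b3 b4 b5 b6 y17 z33; linarith
        have r492 : (j - i) % 2 = 0 := by clear * - ev n1p n2p n3p; omega
        have r493 : (2 * i2 + l2 - k - l - i3) % 2 = 0 := by clear * - ev n1p n2p n3p; omega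
        clear * - al a1 b c D2 n1 kk482 kk483 kk484 kk485 kk486 kk487 kk488 kk489 kk490 kk491 r492 r493
        exact n1.f1 (rEE (cE (qf a1 al 0 (i) (i + k - j) (by omega)) (sh al (-1) (i + k - j) (i + k - n - j) (by omega))) (sh al (-1) (k) (k - n) (by omega)) (rotL (j - i) (2 * i2 + l2 - k - l - i3) (i + k - n - j) (k - n) (by omega) (fun t h1 h2 => (cE (cE (pb a1 al (-1) t (t + (n + j - k)) (by omega)) (qf b al 0 (t + (n + j - k)) (t + (n + j - i)) (by omega))) (sh al (-1) (t + (n + j - i)) (t + (j - i)) (by omega)))) (fun t h1 h2 => (cE (qf (show Par W (k + l + i3 - i2 - l2 + 1) (n + i3 - i2 - l2 - 1) (2 * i2 + l2 - k - l - i3) from fun t h1 h2 => (cE (sh al (-1) t (t + (-n)) (by omega)) (cE (pb D2 al (-1) (t + (-n)) (t + (i2 + l2 - i3 + 1)) (by omega)) (pb c al 0 (t + (i2 + l2 - i3 + 1)) (t + (2 * i2 + l2 - k - l - i3)) (by omega))))) al (-1) t (t + (n + 2 * i2 + l2 - k - l - i3)) (by omega)) (sh al (-1) (t +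 (n + 2 * i2 + l2 - k - l - i3)) (t + (2 * i2 + l2 - k - l - i3)) (by omega))))))
      · have kk494 : (i + i2 + l2 + i3 + 3) ≤ (2 * Q + k) := by clear * - b0 b1 b5 b6 b7 y21 z33 z34; linarith
        have kk495 : (3 * k + 2 * l + l2 + 4) ≤ (2 * n + i + i2 + i3) := by clear * - b0 y17 y7 z33 z34; omega
        have kk496 : (Q) ≤ (l2 + i3 + 1) := by clear * - b0 b1 b4 b5 b6 z33 z34; linarith
        have kk497 : (Q) ≤ (i + l + 1) := by clear * - b0 b1 b4 b5 b6 y21 z33 z34; linarith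
        have kk498 : (i3) ≤ (i) := by clear * - y21; omega
        have kk499 : (n + i) ≤ (k + l + l2 + 2) := by clear * - b0 b1 b3 b4 b5 b6 z33 z34; linarith
        have r500 : (2 * n + k + i2 + l2 + i3 - i + 1) % 2 = 0 := by clear * - ev n1p n2p n3p; omega
        clear * - al b c u2 kk494 kk495 kk496 kk497 kk498 kk499 r500
        obtain ⟨t, ht⟩ : ∃ t, 2 * t = (2 * n + k + i2 + l2 + i3 - i + 1) := ⟨(2 * n + k + i2 + l2 + i3 - i + 1) / 2, by omega⟩
        exact al.ninv t (cE (cE (cI (qf c al 1 t (t + (k + l - n - i2 + 1)) (by omega)) (ab u2 al 1 (t + (k + l - n - i2 + 1)) ((n + i2 + l2 + i3 + 1) - t) (by omega))) (qf b al 0 ((n + i2 + l2 + i3 + 1) - t) ((n + k + i2 + l2 + i3 - i + 1) - t) (by omega))) (sh al 1 ((n + k + i2 + l2 + i3 - i + 1) - t) t (by omega)))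
    · by_cases z35 : (i2) ≤ (i + j + 1)
      · have kk501 : (i2 + l2 + 1) ≤ (k + l) := by clear * - b2 b5; omega
        have kk502 : (k + l + i3 + 1) ≤ (Q + i2 + l2) := by clear * - b2 b3 b4 y17; omega
        have kk503 : (j + 1) ≤ (k) := by clear * - b1 y13 y21; omega
        have kk504 : (0) ≤ (j) := by clear * - b2 b4 b6 y17 z35; omega
        have kk505 : (i2 + l2) ≤ (k + l + i3) := by clear * - b2 b5 y13; omega
        have kk506 : (l + i3 + 1) ≤ (i2 + l2) := by clear * - y19 y21; omega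
        have kk507 : (0) ≤ (i2) := by clear * - b2 b4 b5 y13 y17; omega
        have kk508 : (i2 + 1) ≤ (k) := by clear * - b0 b5; omega
        have kk509 : (i2) ≤ (i + j + 1) := by clear * - z35; omega
        have kk510 : (i2 + l2) ≤ (k + l) := by clear * - b2 b5; omega
        have kk511 : (n) ≤ (k + l + l2 + 2) := by clear * - b2 b3 b4 b5 y13; omega
        have kk512 : (i2 + l2) ≤ (k + l + i3 + 1) := by clear * - b2 b5 y13; omega
        have kk513 : (0) ≤ (i2 + 1) := by clear * - b2 b4 b5 y13 y17; omega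
        have kk514 : (k + i2 + l2 + 1) ≤ (n + i3) := by clear * - y17; omega
        have kk515 : (k + l + i3) ≤ (2 * i2 + l2) := by clear * - b2 b4 y17; omega
        have kk516 : (0) ≤ (j + 1) := by clear * - b2 b4 b6 y17 z35; omega
        have kk517 : (i) ≤ (k) := by clear * - b2 b5 y19; omega
        have kk518 : (i + j + 1) ≤ (k) := by clear * - b1 y13 y21; omega
        have r519 : (2 * i2 + l2 - k - l - i3) % 2 = 0 := by clear * - ev n1p n2p n3p; omega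
        have r520 : (k - j) % 2 = 0 := by clear * - ev n1p n2p n3p; omega
        have r521 : (i + j - 2 * n) % 2 = 0 := by clear * - ev n1p n2p n3p; omega
        clear * - al a1 s1 c D1 D2 n2 kk501 kk502 kk503 kk504 kk505 kk506 kk507 kk508 kk509 kk510 kk511 kk512 kk513 kk514 kk515 kk516 kk517 kk518 r519 r520 r521
        exact ivt al.ninv (-n) (j - n) (k - j) (k + l + i3 - n - i2 - l2 + 1) (2 * k + l + i3 - n - 2 * i2 - l2) (2 * i2 + l2 - k - l - i3) (k + l + i3 - n - i2 - l2) (i2 - n) 0 (fun t h1 h2 => (cE (qf a1 al (-1) t (t + (n + k - j)) (by omega)) (sh al (-1) (t + (n + k - j)) (t + (k - j)) (by omega)))) (fun t h1 h2 => (cE (qf (show Par W (k + l + i3 - i2 - l2 + 1) (n + i3 - i2 - l2 - 1) (2 * i2 + l2 - k - l - i3) from fun t h1 h2 => (cE (sh al (-1) t (t + (-n)) (by omega)) (cE (pb D2 al (-1) (t + (-n)) (t + (i2 + l2 - i3 + 1)) (by omega)) (pb c al 0 (t + (i2 + l2 - i3 + 1)) (t + (2 * i2 + l2 - k - l - i3))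 (by omega))))) al (-1) t (t + (n + 2 * i2 + l2 - k - l - i3)) (by omega)) (sh al (-1) (t + (n + 2 * i2 + l2 - k - l - i3)) (t + (2 * i2 + l2 - k - l - i3)) (by omega)))) (fun hh => n2.f1 (rEE (sh al (-1) (i2) (i2 - n) (by omega)) (cE (pb D1 al 0 (k + l + 1) (k + l + i3 - i2 - l2) (by omega)) (sh al (-1) (k + l + i3 - i2 - l2) (k + l + i3 - n - i2 - l2) (by omega))) (Eq.symm (Eq.symm hh)))) (by omega) (j - n + 1) (i + j - n + 1) (i + j - 2 * n) 1 (-1) (fun t h1 h2 => (cE (ab s1 al (-1) t ((i + j - n) - t) (by omega)) (sh al (-1) ((i + j - n) - t) ((i + j - 2 * n) - t) (by omega)))) (by omega)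
      · by_cases z36 : (j + l + i3 + 1) ≤ (i + i2 + l2)
        · have kk522 : (0) ≤ (i) := by clear * - y13 y21; omega
          have kk523 : (i + 1) ≤ (j) := by clear * - b2 b4 y15 y17 z33; omega
          have kk524 : (k + l + i3 + 1) ≤ (2 * i2 + l2) := by clear * - b2 b4 y17; omega
          have kk525 : (i + 2 * i2 + l2) ≤ (j + k + l + i3) := by clear * - y13 y17 y21 z33; omega
          have kk526 : (j + l + i3 + 1) ≤ (i + i2 + l2) := by clear * - z36; omega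
          have kk527 : (k + i2 + l2 + 1) ≤ (n + i3) := by clear * - y17; omega
          have kk528 : (i2 + l2) ≤ (k + l) := by clear * - b2 b5; omega
          have kk529 : (n) ≤ (k + l + l2 + 2) := by clear * - b2 b3 b4 b5 y13; omega
          have kk530 : (0) ≤ (i + 1) := by clear * - y13 y21; omega
          have kk531 : (j) ≤ (i + l + 1) := by clear * - b3 b4 y13 y17 y21 z33 z35; linarith
          have r532 : (j - i) % 2 = 0 := by clear * - ev n1p n2p n3p; omega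
          have r533 : (2 * i2 + l2 - k - l - i3) % 2 = 0 := by clear * - ev n1p n2p n3p; omega
          clear * - al a1 b c D2 n1 kk522 kk523 kk524 kk525 kk526 kk527 kk528 kk529 kk530 kk531 r532 r533
          exact n1.f1 (rEE (cE (qf a1 al 0 (i) (i + k - j) (by omega)) (sh al (-1) (i + k - j) (i + k - n - j) (by omega))) (sh al (-1) (k) (k - n) (by omega)) (rotL (j - i) (2 * i2 + l2 - k - l - i3) (i + k - n - j) (k - n) (by omega) (fun t h1 h2 => (cE (cE (pb a1 al (-1) t (t + (n + j - k)) (by omega)) (qf b al 0 (t + (n + j - k)) (t + (n + j - i)) (by omega))) (sh al (-1) (t + (n + j - i)) (t + (j - i)) (by omega)))) (fun t h1 h2 => (cE (qf (show Par W (k + l + i3 - i2 - l2 + 1) (n + i3 - i2 - l2 - 1) (2 * i2 + l2 - k - l - i3) from fun t h1 h2 => (cE (sh al (-1) t (t + (-n)) (by omega)) (cE (pb D2 al (-1) (t + (-n)) (t + (i2 + l2 - i3 + 1)) (by omega)) (pb c al 0 (t + (i2 + l2 - i3 + 1)) (t + (2 * i2 + l2 - k - l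 - i3)) (by omega))))) al (-1) t (t + (n + 2 * i2 + l2 - k - l - i3)) (by omega)) (sh al (-1) (t + (n + 2 * i2 + l2 - k - l - i3)) (t + (2 * i2 + l2 - k - l - i3)) (by omega))))))
        · by_cases z37 : (i + i2 + l2 + i3 + 3) ≤ (2 * Q + j)
          · have kk534 : (i + i2 + l2 + i3 + 3) ≤ (2 * Q + j) := by clear * - z37; omega
            have kk535 : (j + 2 * k + 2 * l + l2 + 4) ≤ (2 * n + i + i2 + i3) := by clear * - b0 y13 y17 y21 y7 z35; omega
            have kk536 : (i2) ≤ (k) := by clear * - b0 b5; omega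
            have kk537 : (i2 + l2) ≤ (k + l) := by clear * - b2 b5; omega
            have kk538 : (0) ≤ (i + 1) := by clear * - y13 y21; omega
            have kk539 : (Q + k) ≤ (i2 + l2 + i3 + 1) := by clear * - b2 b4 y13 y17; omega
            have kk540 : (n + i + i2 + i3) ≤ (j + 2 * k + l + 1) := by clear * - y21 z33; omega
            have kk541 : (n + i3) ≤ (k + l + l2 + 2) := by clear * - b2 b3 b4 b5; omega
            have r542 : (2 * n + i + i2 + l2 + i3 - j + 1) % 2 = 0 := by clear * - ev n1p n2p n3p; omega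
            clear * - al a1 b c u2 kk534 kk535 kk536 kk537 kk538 kk539 kk540 kk541 r542
            obtain ⟨t, ht⟩ : ∃ t, 2 * t = (2 * n + i + i2 + l2 + i3 - j + 1) := ⟨(2 * n + i + i2 + l2 + i3 - j + 1) / 2, by omega⟩
            exact al.ninv t (cE (cI (cE (pb a1 al 1 t (t + (j - n - k)) (by omega)) (pb (show Par W (2 * k + l - i2 + 2) (k + l + l2 + 2) (n + i + i2 - 2 * k - l - 1) from fun t h1 h2 => (cE (sh al (-1) t (t + (-n)) (by omega)) (cE (cE (pb c al (-1) (t + (-n)) (t + (i2 - k - l - 1)) (by omega)) (pb b al 0 (t + (i2 - k - l - 1)) (t + (i + i2 - 2 * k - l - 1)) (by omega))) (sh al 1 (t + (i + i2 - 2 * k - l - 1)) (t + (n + i + i2 - 2 * k - l - 1)) (by omega))))) al (-1) (t + (j - n - k)) (t + (j + k + l - n - i - i2 + 1)) (by omega))) (ab u2 al 1 (t + (j + k + l - n - i - i2 + 1)) ((n + i + i2 + l2 + i3 - j + 1) - t) (by omega))) (sh al 1 ((n + i + i2 + l2 + i3 - j + 1) - t) t (by omega)))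
          · by_cases z38 : (l + 2 * i3 + 3) ≤ (j + i2)
            · have kk543 : (2 * k + l + i2 + 2 * l2 + 5) ≤ (2 * n + j) := by clear * - y17 z38; omega
              have kk544 : (l + 2 * i3 + 2) ≤ (j + i2) := by clear * - z38; omega
              have kk545 : (0) ≤ (i3) := by clear * - y13; omega
              have kk546 : (n) ≤ (k + l + l2 + i3 + 3) := by clear * - b0 b2 b3 b7 y21 z36 z37; linarith
              have kk547 : (j + i2) ≤ (k + l + i3 + 1) := by clear * - b2 b3 b5 b7 y17 z33 z36 z37; linarith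
              have kk548 : (j) ≤ (Q) := by clear * - y2; omega
              have r549 : (2 * n + 2 * k + l + 2 * i3 - j - i2 + 1) % 2 = 0 := by clear * - ev n1p n2p n3p; omega
              clear * - al a1 u2 D2 kk543 kk544 kk545 kk546 kk547 kk548 r549
              obtain ⟨t, ht⟩ : ∃ t, 2 * t = (2 * n + 2 * k + l + 2 * i3 - j - i2 + 1) := ⟨(2 * n + 2 * k + l + 2 * i3 - j - i2 + 1) / 2, by omega⟩
              exact al.ninv t (cE (cE (cI (pb a1 al 1 t (t + (j - n - k)) (by omega)) (qa u2 al 0 (t + (j - n - k)) ((2 * k + l + l2 + i3 - j + 2) - t) (by omega))) (qf D2 al (-1) ((2 * k + l + l2 + i3 - j + 2) - t) ((n + 2 * k + l + 2 * i3 - j - i2 + 1) - t) (by omega))) (sh al 1 ((n + 2 * k + l + 2 * i3 - j - i2 + 1) - t) t (by omega)))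
            · by_cases z39 : (n + j) ≤ (k + 2 * l + 1)
              · by_cases v20 : (j + k + l + 2) ≤ (n + i)
                · have kk550 : (k + i2 + l2 + 2) ≤ (n + i + i3) := by clear * - b0 v20 y21 z36 z37 z39; omega
                  have kk551 : (n + i) ≤ (k + i2 + l2 + i3 + 1) := by clear * - b0 z36 z37 z39; omega
                  have kk552 : (n + k) ≤ (i + i2 + 3 * l2 + i3 + 3) := by clear * - b0 b4 v20 y21 z36 z37 z39; linarith
                  have kk553 : (n + k + i2) ≤ (i + 2 * j + 2 * l + l2 + i3 + 3) := by clear * - b0 b4 v20 y21 z36 z37 z39; linarith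
                  have kk554 : (i2) ≤ (k) := by clear * - b0 b5; omega
                  have kk555 : (i2 + l2) ≤ (k + l) := by clear * - b2 b5; omega
                  have kk556 : (n) ≤ (k + l + l2 + 2) := by clear * - b3 b6 y21 z36 z37; omega
                  have kk557 : (i3) ≤ (j) := by clear * - b2 b3 b4 v20 y21 z33 z36 z37; linarith
                  have kk558 : (i) ≤ (i2) := by clear * - b2 b4 b6 v20 z36; omega
                  have kk559 : (i + l + l2 + 2) ≤ (n) := by clear * - b0 v20 y21 z33 z35 z36 z37 z39; linarith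
                  have kk560 : (j + k + l + 2) ≤ (n + i) := by clear * - v20; omega
                  have kk561 : (k + i2 + l2 + 2) ≤ (n + i) := by clear * - v20 y21 z36; omega
                  have r562 : (2 * k + l + l2 + i3 - n - j + 2) % 2 = 0 := by clear * - ev n1p n2p n3p; omega
                  have r563 : (n + i + i3 - k - i2 - l2 - 1) % 2 = 0 := by clear * - ev n1p n2p n3p; omega
                  clear * - al a1 b c u1 D2 kk550 kk551 kk552 kk553 kk554 kk555 kk556 kk557 kk558 kk559 kk560 kk561 r562 r563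
                  exact midP al (n + i + i3 - k - i2 - l2 - 1) (2 * k + l + l2 + i3 - n - j + 2) (k - j) (2 * k + l - n - i + 2) (i + l + i3 - i2 + 1) (by omega) (fun t h1 h2 => (cI (pb a1 al 0 t (t + (j - k)) (by omega)) (qa u1 al 0 (t + (j - k)) ((2 * k + l + l2 + i3 - n - j + 2) - t) (by omega)))) (fun t h1 h2 => (cE (qf (show Par W (2 * k + l - i2 + 2) (k + l + l2 + 2) (n + i + i2 - 2 * k - l - 1) from fun t h1 h2 => (cE (sh al (-1) t (t + (-n)) (by omega)) (cE (cE (pb c al (-1) (t + (-n)) (t + (i2 - k - l - 1)) (by omega)) (pb b al 0 (t + (i2 - k - l - 1)) (t + (i + i2 - 2 * k - l - 1)) (by omega))) (sh al 1 (t + (i + i2 - 2 * k - l - 1)) (t + (n + i + i2 - 2 * k - l - 1)) (by omega))))) al (-1) t (t + (2 * n + i + i2 - 2 * k - l - 1)) (by omega)) (pb (show Par W (k + l + i3 - i2 - l2 + 1) (n + i3 - i2 - l2 - 1) (2 * i2 + l2 - k - l - i3) from fun t h1 h2 => (cE (sh al (-1) t (t + (-n)) (by omega)) (cE (pb D2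 al (-1) (t + (-n)) (t + (i2 + l2 - i3 + 1)) (by omega)) (pb c al 0 (t + (i2 + l2 - i3 + 1)) (t + (2 * i2 + l2 - k - l - i3)) (by omega))))) al 1 (t + (2 * n + i + i2 - 2 * k - l - 1)) (t + (n + i + i3 - k - i2 - l2 - 1)) (by omega))))
                · have kk564 : (k + i2 + l2 + 2) ≤ (n + i + i3) := by clear * - b0 v20 y17 y21 z37 z39; omega
                  have kk565 : (2 * j + k + 2 * l + 3) ≤ (n + i + i2 + l2 + i3) := by clear * - b0 y17 z37 z39; omega
                  have kk566 : (2 * j + 3 * k + 2 * l + 1) ≤ (n + 3 * i + i2 + 3 * l2 + i3) := by clear * - b0 b4 v20 y17 y21 z37 z39; linarith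
                  have kk567 : (3 * k + i2 + 1) ≤ (n + 3 * i + l2 + i3) := by clear * - b0 b4 v20 y17 y21 z37 z39; linarith
                  have kk568 : (i2) ≤ (k) := by clear * - b0 b5; omega
                  have kk569 : (i2 + l2) ≤ (k + l) := by clear * - b2 b5; omega
                  have kk570 : (n) ≤ (k + l + l2 + 2) := by clear * - b2 b3 b5 v20 z37; omega
                  have kk571 : (i3) ≤ (j) := by clear * - b0 b3 b5 y21 z35 z36 z37; linarith
                  have kk572 : (i) ≤ (i2) := by clear * - b1 b2 b3 y21 z36 z37; omega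
                  have kk573 : (i + l + l2 + 2) ≤ (n) := by clear * - b0 v20 y17 y21 z33 z35 z37 z39; linarith
                  have kk574 : (n + i) ≤ (j + k + l + 2) := by clear * - v20; omega
                  have kk575 : (i2 + l2) ≤ (j + l) := by clear * - y21 z36; omega
                  have r576 : (2 * k + l + l2 + i3 - n - j + 2) % 2 = 0 := by clear * - ev n1p n2p n3p; omega
                  have r577 : (n + i + i3 - k - i2 - l2 - 1) % 2 = 0 := by clear * - ev n1p n2p n3p; omega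
                  clear * - al a1 b c u1 D2 kk564 kk565 kk566 kk567 kk568 kk569 kk570 kk571 kk572 kk573 kk574 kk575 r576 r577
                  exact midP al (n + i + i3 - k - i2 - l2 - 1) (2 * k + l + l2 + i3 - n - j + 2) (2 * k + l - n - i + 2) (2 * k + l - n - i + 2) (i + l + i3 - i2 + 1) (by omega) (fun t h1 h2 => (cI (pb a1 al 0 t (t + (j - k)) (by omega)) (qa u1 al 0 (t + (j - k)) ((2 * k + l + l2 + i3 - n - j + 2) - t) (by omega)))) (fun t h1 h2 => (cE (qf (show Par W (2 * k + l - i2 + 2) (k + l + l2 + 2) (n + i + i2 - 2 * k - l - 1) from fun t h1 h2 => (cE (sh al (-1) t (t + (-n)) (by omega)) (cE (cE (pb c al (-1) (t + (-n)) (t + (i2 - k - l - 1)) (by omega)) (pb b al 0 (t + (i2 - k - l - 1)) (t + (i + i2 - 2 * k - l - 1)) (by omega))) (sh al 1 (t + (i + i2 - 2 * k - l - 1)) (t + (n + i + i2 - 2 * k - l - 1)) (by omega))))) al (-1) t (t + (2 * n + i + i2 - 2 * k - l - 1)) (by omega)) (pb (show Par W (k + l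 + i3 - i2 - l2 + 1) (n + i3 - i2 - l2 - 1) (2 * i2 + l2 - k - l - i3) from fun t h1 h2 => (cE (sh al (-1) t (t + (-n)) (by omega)) (cE (pb D2 al (-1) (t + (-n)) (t + (i2 + l2 - i3 + 1)) (by omega)) (pb c al 0 (t + (i2 + l2 - i3 + 1)) (t + (2 * i2 + l2 - k - l - i3)) (by omega))))) al 1 (t + (2 * n + i + i2 - 2 * k - l - 1)) (t + (n + i + i3 - k - i2 - l2 - 1)) (by omega))))
              · by_cases z40 : (n + i) ≤ (k + i2 + l2 + i3 + 1)
                · have kk578 : (k + i2 + l2 + 2) ≤ (n + i + i3) := by clear * - y21 z35 z36 z38 z39 z40; omega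
                  have kk579 : (n + i) ≤ (k + i2 + l2 + i3 + 1) := by clear * - z40; omega
                  have kk580 : (n + k) ≤ (i + i2 + 3 * l2 + i3 + 3) := by clear * - b3 y21 z36 z37 z40; omega
                  have kk581 : (n + k + i2) ≤ (i + 2 * j + 2 * l + l2 + i3 + 3) := by clear * - b3 y21 z36 z37 z40; omega
                  have kk582 : (i2) ≤ (k) := by clear * - b0 b5; omega
                  have kk583 : (i2 + l2) ≤ (k + l) := by clear * - b2 b5; omega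
                  have kk584 : (n) ≤ (k + l + l2 + 2) := by clear * - b4 b7 y21 z35 z36 z38 z39 z40; linarith
                  have kk585 : (i3) ≤ (j) := by clear * - b4 b7 y21 z35 z36 z38 z39 z40; linarith
                  have kk586 : (i) ≤ (i2) := by clear * - b4 b7 y21 z35 z36 z38 z39 z40; linarith
                  have kk587 : (i + l + l2 + 2) ≤ (n) := by clear * - b2 b5 z35 z39; omega
                  have kk588 : (j + k + l + 2) ≤ (n + i) := by clear * - y21 z35 z38 z39; omega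
                  have kk589 : (k + i2 + l2 + 2) ≤ (n + i) := by clear * - y21 z35 z36 z38 z39; omega
                  have r590 : (2 * k + l + l2 + i3 - n - j + 2) % 2 = 0 := by clear * - ev n1p n2p n3p; omega
                  have r591 : (n + i + i3 - k - i2 - l2 - 1) % 2 = 0 := by clear * - ev n1p n2p n3p; omega
                  clear * - al a1 b c u1 D2 kk578 kk579 kk580 kk581 kk582 kk583 kk584 kk585 kk586 kk587 kk588 kk589 r590 r591
                  exact midP al (n + i + i3 - k - i2 - l2 - 1) (2 * k + l + l2 + i3 - n - j + 2) (k - j) (2 * k + l - n - i + 2) (i + l + i3 - i2 + 1) (by omega) (fun t h1 h2 => (cI (pb a1 al 0 t (t + (j - k)) (by omega)) (qa u1 al 0 (t + (j - k)) ((2 * k + l + l2 + i3 - n - j + 2) - t) (by omega)))) (fun t h1 h2 => (cE (qf (show Par W (2 * k + l - i2 + 2) (k + l + l2 + 2) (n + i + i2 - 2 * k - l - 1) from fun t h1 h2 => (cE (sh al (-1) t (t + (-n)) (by omega)) (cE (cE (pb c al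 (-1) (t + (-n)) (t + (i2 - k - l - 1)) (by omega)) (pb b al 0 (t + (i2 - k - l - 1)) (t + (i + i2 - 2 * k - l - 1)) (by omega))) (sh al 1 (t + (i + i2 - 2 * k - l - 1)) (t + (n + i + i2 - 2 * k - l - 1)) (by omega))))) al (-1) t (t + (2 * n + i + i2 - 2 * k - l - 1)) (by omega)) (pb (show Par W (k + l + i3 - i2 - l2 + 1) (n + i3 - i2 - l2 - 1) (2 * i2 + l2 - k - l - i3) from fun t h1 h2 => (cE (sh al (-1) t (t + (-n)) (by omega)) (cE (pb D2 al (-1) (t + (-n)) (t + (i2 + l2 - i3 + 1)) (by omega)) (pb c al 0 (t + (i2 + l2 - i3 + 1)) (t + (2 * i2 + l2 - k - l - i3)) (by omega))))) al 1 (t + (2 * n + i + i2 - 2 * k - l - 1)) (t + (n + i + i3 - k - i2 - l2 - 1)) (by omega))))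
                · by_cases z41 : (7 * k + 4 * l + 5) ≤ (3 * n + 3 * i + 3 * i2 + l2 + i3)
                  · have kk592 : (k + i2 + l2 + 2) ≤ (n + i + i3) := by clear * - b2 y21 z36 z37 z38 z39 z40; linarith
                    have kk593 : (i + k + 2 * l + l2 + i3 + 5) ≤ (n + 2 * Q + i2) := by clear * - b0 b2 z35 z36 z38 z39 z40; linarith
                    have kk594 : (7 * k + 4 * l + 5) ≤ (3 * n + 3 * i + 3 * i2 + l2 + i3) := by clear * - z41; omega
                    have kk595 : (k + i2 + l2 + 3) ≤ (n + i + i3) := by clear * - b2 y21 z36 z37 z38 z39 z40; linarith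
                    have kk596 : (i2) ≤ (k) := by clear * - b0 b5; omega
                    have kk597 : (i2 + l2) ≤ (k + l) := by clear * - b2 b5; omega
                    have kk598 : (n) ≤ (k + l + l2 + 2) := by clear * - b4 b6 b7 y21 z36 z38 z39 z40 z41; linarith
                    have kk599 : (n + i3) ≤ (k + l + l2 + 2) := by clear * - b2 b3 b4 b5; omega
                    have kk600 : (Q + k) ≤ (i2 + l2 + i3 + 1) := by clear * - b4 b6 z35 z36 z37 z38 z39 z40 z41; linarith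
                    have kk601 : (i) ≤ (i2) := by clear * - b6 z33 z35 z40 z41; omega
                    have kk602 : (i + l + l2 + 2) ≤ (n) := by clear * - b2 z33 z35 z36 z37 z38 z39 z40; linarith
                    have kk603 : (n + 2 * i2) ≤ (2 * k + 2 * l + 2) := by clear * - y21 z33 z38; omega
                    have kk604 : (k) ≤ (i + l2 + 1) := by clear * - b4 b7 y21 z36 z37 z38 z39 z41; linarith
                    have r605 : (i + i2 + l2 + i3 - k + 1) % 2 = 0 := by clear * - ev n1p n2p n3p; omega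
                    have r606 : (n + i + i3 - k - i2 - l2 - 1) % 2 = 0 := by clear * - ev n1p n2p n3p; omega
                    clear * - al b c u2 D2 kk592 kk593 kk594 kk595 kk596 kk597 kk598 kk599 kk600 kk601 kk602 kk603 kk604 r605 r606
                    exact midP al (n + i + i3 - k - i2 - l2 - 1) (i + i2 + l2 + i3 - k + 1) (k + l + l2 - n + 3) (2 * k + l - n - i + 2) (i + l + i3 - i2 + 1) (by omega) (fun t h1 h2 => (cE (cE (qa u2 al 0 t ((k + l + l2 + i3 - n + 2) - t) (by omega)) (qf (show Par W (2 * k + l - i2 + 2) (k + l + l2 + 2) (n + i + i2 - 2 * k - l - 1) from fun t h1 h2 => (cE (sh al (-1) t (t + (-n)) (by omega)) (cE (cE (pb c al (-1) (t + (-n)) (t + (i2 - k - l - 1)) (by omega)) (pb b al 0 (t + (i2 - k - l - 1)) (t + (i + i2 - 2 * k - l - 1)) (by omega))) (sh al 1 (t + (i + i2 - 2 * k - l - 1)) (t + (n + i + i2 - 2 * k - l - 1)) (by omega))))) al (-1) ((k + l + l2 + i3 - n + 2) - t) ((n + i + i2 + l2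 + i3 - k + 1) - t) (by omega))) (sh al (-1) ((n + i + i2 + l2 + i3 - k + 1) - t) ((i + i2 + l2 + i3 - k + 1) - t) (by omega)))) (fun t h1 h2 => (cE (qf (show Par W (2 * k + l - i2 + 2) (k + l + l2 + 2) (n + i + i2 - 2 * k - l - 1) from fun t h1 h2 => (cE (sh al (-1) t (t + (-n)) (by omega)) (cE (cE (pb c al (-1) (t + (-n)) (t + (i2 - k - l - 1)) (by omega)) (pb b al 0 (t + (i2 - k - l - 1)) (t + (i + i2 - 2 * k - l - 1)) (by omega))) (sh al 1 (t + (i + i2 - 2 * k - l - 1)) (t + (n + i + i2 - 2 * k - l - 1)) (by omega))))) al (-1) t (t + (2 * n + i + i2 - 2 * k - l - 1)) (by omega)) (pb (show Par W (k + l + i3 - i2 - l2 + 1) (n + i3 - i2 - l2 - 1) (2 * i2 + l2 - k - l - i3) from fun t h1 h2 => (cE (sh al (-1) t (t + (-n)) (by omega)) (cE (pb D2 al (-1) (t + (-n)) (t + (i2 + l2 - i3 + 1)) (by omega)) (pb c al 0 (t + (i2 + l2 - i3 + 1)) (t + (2 * i2 + l2 - k - l - i3)) (by omega))))) al 1 (t + (2 * n + i + i2 - 2 * k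 - l - 1)) (t + (n + i + i3 - k - i2 - l2 - 1)) (by omega))))
                  · have kk607 : (n + i + j + i2) ≤ (3 * k + l) := by clear * - b0 b2 z35 z37 z38 z39 z40 z41; linarith
                    have kk608 : (3 * k + l + 2) ≤ (2 * n + i + j + i2) := by clear * - b2 b4 z36 z37 z38 z39 z40 z41; linarith
                    have kk609 : (k) ≤ (Q + j) := by clear * - b2 b4 y21 z36 z38 z39 z40; linarith
                    have kk610 : (Q + k) ≤ (i + i2 + l2 + 1) := by clear * - b2 b4 y21 z36 z37 z38 z39 z40; linarith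
                    have kk611 : (i2) ≤ (k) := by clear * - b0 b5; omega
                    have kk612 : (i2 + l2) ≤ (k + l) := by clear * - b2 b5; omega
                    have kk613 : (2 * k + l + 2) ≤ (n + i2) := by clear * - b2 b4 z35 z36 z37 z38 z39 z40; linarith
                    have kk614 : (k + l + l2 + 2) ≤ (n + j) := by clear * - b2 z36 z37 z39 z40; omega
                    clear * - al a1 b c kk607 kk608 kk609 kk610 kk611 kk612 kk613 kk614
                    exact al.ubQ (3 * k + l - n - i - j - i2 + 1) (by omega) (by omega) fun t h1 h2 => (cE (sh al 2 t (t + (2 * n)) (by omega)) (cE (pb (show Par W (2 * k + l - i2 + 2) (k + l + l2 + 2) (n + i + i2 - 2 * k - l - 1) from fun t h1 h2 => (cE (sh al (-1) t (t + (-n)) (by omega)) (cE (cE (pb c al (-1) (t + (-n)) (t + (i2 - k - l - 1)) (by omega)) (pb b al 0 (t + (i2 - k - l - 1)) (t + (i + i2 - 2 * k - l - 1)) (by omega))) (sh al 1 (t + (i + i2 - 2 * k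 - l - 1)) (t + (n + i + i2 - 2 * k - l - 1)) (by omega))))) al 1 (t + (2 * n)) (t + (2 * k + l - i - i2 + 1)) (by omega)) (qf a1 al 1 (t + (2 * k + l - i - i2 + 1)) (t + (3 * k + l - n - i - j - i2 + 1)) (by omega))))

theorem t1c_14 {W : ℤ → G} {n Q i j k l i2 l2 i3 : ℤ} (al : AL W n Q)
    (hy : (0) ≤ (i) ∧ (i) ≤ (j) ∧ (j + 1) ≤ (Q) ∧ (Q) ≤ (k) ∧ (k + 1) ≤ (n) ∧ (Q) ≤ (i + l + 1) ∧ (k + l + 2) ≤ (n) ∧ (Q) ≤ (i2) ∧ (i2) ≤ (i + l + 1) ∧ (Q) ≤ (i2 + l2 + 1) ∧ (i2 + l2 + 2) ≤ (n) ∧ (n) ≤ (k + l + l2 + 2) ∧ (k + l + l2 + 3) ≤ (n + Q) ∧ (0) ≤ (i3) ∧ (n + i3) ≤ (k + l + l2 + 2) ∧ (k + i2 + l2 + 2) ≤ (n + j + i3) ∧ (j + i3 + 1) ≤ (k) ∧ (k + i2 + l2 + 2) ≤ (n + i3) ∧ (i + 2 * i2 + 1) ≤ (2 * Q + k) ∧ (i + l + 1) ≤ (i2 + l2) ∧ (i2 + l2 + 1) ≤ (k + l) ∧ (i3 + 1) ≤ (i))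
    (a1 : Par W (0) (j) (k - j))
    (a2 : Par W (Q + j - k) (j) (k - j))
    (s1 : Ant W (0) (i) (i + j))
    (s2 : Ant W (j + 1) (Q) (i + j))
    (b : Par W (i + 1) (i + l + 1) (k - i))
    (tt : Ant W (Q) (i2) (i + l + i2 + 1))
    (c : Par W (i2 + 1) (i2 + l2 + 1) (k + l - i2 + 1))
    (u1 : Ant W (0) (i3) (k + l + l2 + i3 - n + 2))
    (u2 : Ant W (k + l + l2 - n + 3) (Q) (k + l + l2 + i3 - n + 2))
    (D1 : Par W (i3 + 1) (Q) (i2 + l2 - i3 + 1))
    (D2 : Par W (i2 + l2 + 2) (n) (i3 - i2 - l2 - 1))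
    {L : ℤ} (mx : ∀ a b g, 0 < g → g < n → Par W a b g → b - a ≤ L)
    (hL : L ≤ (n - j - 3) ∧ L ≤ (n + Q - k - 3) ∧ L ≤ (n - l - 3) ∧ L ≤ (n + i - k - 2) ∧ L ≤ (n - l2 - 3) ∧ L ≤ (n + i3 - Q - 2) ∧ L ≤ (i2 + l2 - 1) ∧ L ≤ (n + i2 - k - l - 3) ∧ L ≤ (Q + i2 + l2 - l - i3 - 3))
    (bd0 : Bd W n L (j) (i) (k))
    (bd2 : Bd W n L (k + l + l2 - n + 2) (i3) (i2 + l2 + 1))
    (n1 : Nd W (j) (i) (k))
    (n2 : Nd W (i + l + 1) (i2) (k + l + 1))
    (n3 : Nd W (k + l + l2 - n + 2) (i3) (i2 + l2 + 1))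
    (b0 : (2 * l + i3 + 3) ≤ (Q + i2 + l2))
    (b1 : (2 * i + j + 1) ≤ (k))
    (b2 : (l + i3 + 3) ≤ (Q + i2))
    (b3 : (k + l + i3 + 2) ≤ (2 * Q + l2))
    (b4 : (2 * n + 2 * Q + i3) ≤ (k + l + 2 * i2 + 3 * l2 + 5))
    (b5 : (Q + 2 * i2 + l2) ≤ (k + 2 * l + i3 + 2))
    (b6 : (n + i) ≤ (2 * k + l + 1))
    (b7 : (2 * Q + 2 * k + l + 1) ≤ (n + 2 * i + j + i2))
    (b8 : (2 * Q + k) ≤ (2 * i + l + i2 + 2)) : False := by
  have ev := al.ev
  obtain ⟨y0, y1, y2, y3, y4, y5, y6, y7, y8, y9, y10, y11, y12, y13, y14, y15, y16, y17, y18, y19, y20, y21⟩ := id hy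
  have n1p := And.intro n1.p1 n1.p2
  have n2p := And.intro n2.p1 n2.p2
  have n3p := And.intro n3.p1 n3.p2
  by_cases z43 : (2 * i + l + 3) ≤ (k + i2)
  · have kk615 : (2 * i + l + 3) ≤ (k + i2) := by clear * - z43; omega
    have kk616 : (2 * Q + k) ≤ (2 * i + l + i2 + 2) := by clear * - b8; omega
    have kk617 : (k) ≤ (i + l + 1) := by clear * - b3 b6 b8 y17; omega
    have kk618 : (i + i2 + 1) ≤ (Q + k) := by clear * - b8 y18 z43; omega
    have r619 : (2 * n + 2 * i + l + i2 - k + 1) % 2 = 0 := by clear * - ev n1p n2p n3p; omega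
    clear * - al b tt kk615 kk616 kk617 kk618 r619
    obtain ⟨t, ht⟩ : ∃ t, 2 * t = (2 * n + 2 * i + l + i2 - k + 1) := ⟨(2 * n + 2 * i + l + i2 - k + 1) / 2, by omega⟩
    exact al.ninv t (cE (cI (qf b al 1 t (t + (k - n - i)) (by omega)) (ab tt al 0 (t + (k - n - i)) ((n + 2 * i + l + i2 - k + 1) - t) (by omega))) (sh al 1 ((n + 2 * i + l + i2 - k + 1) - t) t (by omega)))
  · by_cases z44 : (2 * k + l + i3) ≤ (3 * i + 2 * i2 + l2)
    · have kk620 : (i + 2 * i2 + l2 + 1) ≤ (2 * k + l + i3) := by clear * - b0 b5 b6 y17; omega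
      have kk621 : (2 * k + l + i3) ≤ (3 * i + 2 * i2 + l2) := by clear * - z44; omega
      have kk622 : (2 * k + l + i3) ≤ (i + 2 * j + 2 * i2 + l2) := by clear * - y1 z44; omega
      have kk623 : (4 * k + l + l2 + 2) ≤ (2 * n + i + 2 * j + i3) := by clear * - y1 y17 z44; omega
      have kk624 : (i2 + l2) ≤ (k + l) := by clear * - b2 b5; omega
      have kk625 : (n) ≤ (k + l + l2 + 2) := by clear * - b6 y19 z43; omega
      have kk626 : (i) ≤ (j) := by clear * - y1; omega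
      have kk627 : (i2) ≤ (k) := by clear * - b0 b5; omega
      have kk628 : (n + i2) ≤ (2 * k + 2 * l + 2) := by clear * - b2 b5 b6 y19 z43; omega
      have kk629 : (i + j + 1) ≤ (k) := by clear * - b0 b1 b6 b8 y17 z43; omega
      have kk630 : (i + j + i2 + l2 + 2) ≤ (n + i3) := by clear * - b0 b1 b6 b8 y17 z43; omega
      have r631 : (i + k) % 2 = 0 := by clear * - ev n1p n2p n3p; omega
      have r632 : (2 * k + l + i3 - i - 2 * i2 - l2) % 2 = 0 := by clear * - ev n1p n2p n3p; omega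
      clear * - al a1 s1 b c D2 kk620 kk621 kk622 kk623 kk624 kk625 kk626 kk627 kk628 kk629 kk630 r631 r632
      exact midP al (2 * k + l + i3 - i - 2 * i2 - l2) (i + k) (k - j) (i + 1) (n + i3 - i2 - l2 - 1) (by omega) (fun t h1 h2 => (cI (pb a1 al 0 t (t + (j - k)) (by omega)) (qa s1 al 0 (t + (j - k)) ((i + k) - t) (by omega)))) (fun t h1 h2 => (cE (qf b al 0 t (t + (k - i)) (by omega)) (pb (show Par W (k + l + i3 - i2 - l2 + 1) (n + i3 - i2 - l2 - 1) (2 * i2 + l2 - k - l - i3) from fun t h1 h2 => (cE (sh al (-1) t (t + (-n)) (by omega)) (cE (pb D2 al (-1) (t + (-n)) (t + (i2 + l2 - i3 + 1)) (by omega)) (pb c al 0 (t + (i2 + l2 - i3 + 1)) (t + (2 * i2 + l2 - k - l - i3)) (by omega))))) al 0 (t + (k - i)) (t + (2 * k + l + i3 - i - 2 * i2 - l2)) (by omega))))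
    · by_cases z45 : (2 * i + l + 1) ≤ (k + i2)
      · have kk633 : (2 * i + l + 1) ≤ (k + i2) := by clear * - z45; omega
        have kk634 : (k + i2) ≤ (2 * i + l + 1) := by clear * - z43 ev n1p n2p n3p; omega
        have kk635 : (k + i2 + l2 + 2) ≤ (n + i3) := by clear * - y17; omega
        have kk636 : (i + l + i3 + 1) ≤ (2 * i2 + l2) := by clear * - b2 b8 y19 z43 z44; omega
        have kk637 : (2 * i2 + l2 + 1) ≤ (n + i + l + i3) := by clear * - b0 b3 b6 b8 y17 z43 z44; linarith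
        have kk638 : (i + i2) ≤ (k) := by clear * - b0 b8 z43 z44; omega
        have kk639 : (i2 + l2) ≤ (k + l) := by clear * - b2 b5; omega
        have kk640 : (n) ≤ (k + l + l2 + 2) := by clear * - b6 y19 z43; omega
        have kk641 : (i) ≤ (i2) := by clear * - b3 b6 b8 y17 z45; omega
        have kk642 : (n + i2) ≤ (i + k + 2 * l + 2) := by clear * - b6 z43 ev n1p n2p n3p; omega
        have kk643 : (i3) ≤ (i) := by clear * - b0 b2 b8 z43 z44; omega
        have kk644 : (n + i3) ≤ (i + l + i2 + l2 + 2) := by clear * - b3 b6 b8; omega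
        clear * - al b c D2 mx hL kk633 kk634 kk635 kk636 kk637 kk638 kk639 kk640 kk641 kk642 kk643 kk644
        have := mx (k + l + i3 - n - i2 - l2 + 1) ((k + l + i3 - n - i2 - l2 + 1) + (n + i2 - k - l - 2)) (2 * i2 + l2 - i - l - i3) (by omega) (by omega) (mgP (b := (i3 - i2 - l2 - 1)) (le_refl _) (fun t h1 h2 => (cE (cE (qf (show Par W (k + l + i3 - i2 - l2 + 1) (n + i3 - i2 - l2 - 1) (2 * i2 + l2 - k - l - i3) from fun t h1 h2 => (cE (sh al (-1) t (t + (-n)) (by omega)) (cE (pb D2 al (-1) (t + (-n)) (t + (i2 + l2 - i3 + 1)) (by omega)) (pb c al 0 (t + (i2 + l2 - i3 + 1)) (t + (2 * i2 + l2 - k - l - i3)) (by omega))))) al (-1) t (t + (n + 2 * i2 + l2 - k - l - i3)) (by omega)) (qf b al 0 (t + (n + 2 * i2 + l2 - k - l - i3)) (t + (n + 2 * i2 + l2 - i - l - i3)) (by omega))) (sh al (-1) (t + (n + 2 * i2 + l2 - i - l - i3)) (t + (2 * i2 + l2 - i - l - i3)) (by omega)))) (fun t h1 h2 => (cE (cE (pb b al (-1) t (t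 + (n + i - k)) (by omega)) (pb D2 al 0 (t + (n + i - k)) (t + (n + i + i2 + l2 - k - i3 + 1)) (by omega))) (sh al (-1) (t + (n + i + i2 + l2 - k - i3 + 1)) (t + (2 * i2 + l2 - i - l - i3)) (by omega)))))
        omega
      · by_cases z46 : (n + i + 2 * i2 + l2 + i3) ≤ (2 * j + 4 * k + l)
        · have kk645 : (i + l + l2 + 3) ≤ (n + i3) := by clear * - b1 b2 b7 y13 z44 z45; omega
          have kk646 : (n + i3) ≤ (3 * i + l + l2 + 2) := by clear * - b0 b6 b8 z45; omega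
          have kk647 : (n + i + 2 * i2 + l2 + i3) ≤ (2 * j + 4 * k + l) := by clear * - z46; omega
          have kk648 : (n + 2 * i2 + l2) ≤ (i + 2 * k + 3 * l + i3 + 2) := by clear * - b0 b6 b8 y17 z45; omega
          have kk649 : (i2) ≤ (k) := by clear * - b0 b5; omega
          have kk650 : (i2 + l2) ≤ (k + l) := by clear * - b2 b5; omega
          have kk651 : (j + k) ≤ (i2 + l2) := by clear * - b1 b3 b8 y13; omega
          have kk652 : (i) ≤ (j) := by clear * - y1; omega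
          have kk653 : (k) ≤ (i + l2 + 1) := by clear * - y19 z45; omega
          have kk654 : (k) ≤ (i2 + l2 + 1) := by clear * - b0 b2 b4 b6 y17 z45; omega
          have kk655 : (i + l) ≤ (i2 + l2) := by clear * - y19; omega
          have kk656 : (k + l + i3) ≤ (Q + i2 + l2) := by clear * - b2 b3 b4 y17; omega
          have kk657 : (j + k + l2 + 2) ≤ (n + i3) := by clear * - b1 b2 b8 y13 y17 z45; omega
          have kk658 : (i + l + l2 + 3) ≤ (n) := by clear * - b0 b2 b8 y17 z44; omega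
          have r659 : (j + 2 * k + l - n - i2 + 1) % 2 = 0 := by clear * - ev n1p n2p n3p; omega
          have r660 : (n + i3 - i - l - l2 - 2) % 2 = 0 := by clear * - ev n1p n2p n3p; omega
          clear * - al s1 b c D1 kk645 kk646 kk647 kk648 kk649 kk650 kk651 kk652 kk653 kk654 kk655 kk656 kk657 kk658 r659 r660
          exact midP al (n + i3 - i - l - l2 - 2) (j + 2 * k + l - n - i2 + 1) (0) (i + l + l2 - n + 3) (k + l + i3 - i2 - l2) (by omega) (fun t h1 h2 => (cE (cE (qa s1 al 0 t ((i + j) - t) (by omega)) (pb (show Par W (2 * k + l - i2 + 2) (k + l + l2 + 2) (n + i + i2 - 2 * k - l - 1) from fun t h1 h2 => (cE (sh al (-1) t (t + (-n)) (by omega)) (cE (cE (pb c al (-1) (t + (-n)) (t + (i2 - k - l - 1)) (by omega)) (pb b al 0 (t + (i2 - k - l - 1)) (t + (i + i2 - 2 * k - l - 1)) (by omega))) (sh al 1 (t + (i + i2 - 2 * k - l - 1)) (t + (n + i + i2 - 2 * k - l - 1)) (by omega))))) al (-1) ((i + j) - t) ((j +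 2 * k + l - i2 + 1) - t) (by omega))) (sh al (-1) ((j + 2 * k + l - i2 + 1) - t) ((j + 2 * k + l - n - i2 + 1) - t) (by omega)))) (fun t h1 h2 => (cE (cE (pb c al (-1) t (t + (n + i2 - k - l - 1)) (by omega)) (qf b al 0 (t + (n + i2 - k - l - 1)) (t + (n + i2 - i - l - 1)) (by omega))) (pb D1 al 0 (t + (n + i2 - i - l - 1)) (t + (n + i3 - i - l - l2 - 2)) (by omega))))
        · have kk661 : (k + l + l2 + i3 + 3) ≤ (n + i + j) := by clear * - b2 b7 z44 z45; omega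
          have kk662 : (i + j) ≤ (k + l + l2 + i3 + 1) := by clear * - b1 b2 b6 b7 y18 z44 z45 z46; linarith
          have kk663 : (0) ≤ (i3) := by clear * - y13; omega
          have kk664 : (i + j + 1) ≤ (Q) := by clear * - b0 b2 b6 b8 z44 z45 z46; linarith
          have kk665 : (n + j) ≤ (k + l + l2 + 2) := by clear * - b0 b6 b8 z44 z45 z46; omega
          clear * - al s1 u2 kk661 kk662 kk663 kk664 kk665
          exact al.ubP (n + i + j - k - l - l2 - i3 - 2) (by omega) (by omega) fun t h1 h2 => (cE (sh al (-1) t (t + (-n)) (by omega)) (cII (ab u2 al (-1) (t + (-n)) ((k + l + l2 + i3 - n + 2) - t) (by omega)) (ab s1 al 0 ((k + l + l2 + i3 - n + 2) - t) (t + (n + i + j - k - l - l2 - i3 - 2)) (by omega))))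

theorem t1c_13 {W : ℤ → G} {n Q i j k l i2 l2 i3 : ℤ} (al : AL W n Q)
    (hy : (0) ≤ (i) ∧ (i) ≤ (j) ∧ (j + 1) ≤ (Q) ∧ (Q) ≤ (k) ∧ (k + 1) ≤ (n) ∧ (Q) ≤ (i + l + 1) ∧ (k + l + 2) ≤ (n) ∧ (Q) ≤ (i2) ∧ (i2) ≤ (i + l + 1) ∧ (Q) ≤ (i2 + l2 + 1) ∧ (i2 + l2 + 2) ≤ (n) ∧ (n) ≤ (k + l + l2 + 2) ∧ (k + l + l2 + 3) ≤ (n + Q) ∧ (0) ≤ (i3) ∧ (n + i3) ≤ (k + l + l2 + 2) ∧ (k + i2 + l2 + 2) ≤ (n + j + i3) ∧ (j + i3 + 1) ≤ (k) ∧ (k + i2 + l2 + 2) ≤ (n + i3) ∧ (i + 2 * i2 + 1) ≤ (2 * Q + k) ∧ (i + l + 1) ≤ (i2 + l2) ∧ (i2 + l2 + 1) ≤ (k + l) ∧ (i3 + 1) ≤ (i))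
    (a1 : Par W (0) (j) (k - j))
    (a2 : Par W (Q + j - k) (j) (k - j))
    (s1 : Ant W (0) (i) (i + j))
    (s2 : Ant W (j + 1) (Q) (i + j))
    (b : Par W (i + 1) (i + l + 1) (k - i))
    (tt : Ant W (Q) (i2) (i + l + i2 + 1))
    (c : Par W (i2 + 1) (i2 + l2 + 1) (k + l - i2 + 1))
    (u1 : Ant W (0) (i3) (k + l + l2 + i3 - n + 2))
    (u2 : Ant W (k + l + l2 - n + 3) (Q) (k + l + l2 + i3 - n + 2))
    (D1 : Par W (i3 + 1) (Q) (i2 + l2 - i3 + 1))
    (D2 : Par W (i2 + l2 + 2) (n) (i3 - i2 - l2 - 1))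
    {L : ℤ} (mx : ∀ a b g, 0 < g → g < n → Par W a b g → b - a ≤ L)
    (hL : L ≤ (n - j - 3) ∧ L ≤ (n + Q - k - 3) ∧ L ≤ (n - l - 3) ∧ L ≤ (n + i - k - 2) ∧ L ≤ (n - l2 - 3) ∧ L ≤ (n + i3 - Q - 2) ∧ L ≤ (i2 + l2 - 1) ∧ L ≤ (n + i2 - k - l - 3) ∧ L ≤ (Q + i2 + l2 - l - i3 - 3))
    (bd0 : Bd W n L (j) (i) (k))
    (bd2 : Bd W n L (k + l + l2 - n + 2) (i3) (i2 + l2 + 1))
    (n1 : Nd W (j) (i) (k))
    (n2 : Nd W (i + l + 1) (i2) (k + l + 1))
    (n3 : Nd W (k + l + l2 - n + 2) (i3) (i2 + l2 + 1))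
    (b0 : (2 * l + i3 + 3) ≤ (Q + i2 + l2))
    (b1 : (2 * i + j + 1) ≤ (k))
    (b2 : (l + i3 + 3) ≤ (Q + i2))
    (b3 : (k + l + i3 + 2) ≤ (2 * Q + l2))
    (b4 : (2 * n + 2 * Q + i3) ≤ (k + l + 2 * i2 + 3 * l2 + 5))
    (b5 : (Q + 2 * i2 + l2) ≤ (k + 2 * l + i3 + 2))
    (b6 : (n + i) ≤ (2 * k + l + 1))
    (b7 : (2 * Q + 2 * k + l + 1) ≤ (n + 2 * i + j + i2)) : False := by
  have ev := al.ev
  obtain ⟨y0, y1, y2, y3, y4, y5, y6, y7, y8, y9, y10, y11, y12, y13, y14, y15, y16, y17, y18, y19, y20, y21⟩ := id hy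
  have n1p := And.intro n1.p1 n1.p2
  have n2p := And.intro n2.p1 n2.p2
  have n3p := And.intro n3.p1 n3.p2
  by_cases z42 : (2 * Q + k) ≤ (2 * i + l + i2 + 2)
  · exact t1c_14 al hy a1 a2 s1 s2 b tt c u1 u2 D1 D2 mx hL bd0 bd2 n1 n2 n3 (by clear * - b0; omega) (by clear * - b1; omega) (by clear * - b2; omega) (by clear * - b3; omega) (by clear * - b4; omega) (by clear * - b5; omega) (by clear * - b6; omega) (by clear * - b7; omega) (by clear * - z42; omega)
  · exact t1c_15 al hy a1 a2 s1 s2 b tt c u1 u2 D1 D2 mx hL bd0 bd2 n1 n2 n3 (by clear * - b0; omega) (by clear * - b1; omega) (by clear * - b2; omega) (by clear * - b3; omega) (by clear * - b4; omega) (by clear * - b5; omega) (by clear * - b6; omega) (by clear * - b7; omega) (by clear * - z42; omega)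

theorem t1c_11 {W : ℤ → G} {n Q i j k l i2 l2 i3 : ℤ} (al : AL W n Q)
    (hy : (0) ≤ (i) ∧ (i) ≤ (j) ∧ (j + 1) ≤ (Q) ∧ (Q) ≤ (k) ∧ (k + 1) ≤ (n) ∧ (Q) ≤ (i + l + 1) ∧ (k + l + 2) ≤ (n) ∧ (Q) ≤ (i2) ∧ (i2) ≤ (i + l + 1) ∧ (Q) ≤ (i2 + l2 + 1) ∧ (i2 + l2 + 2) ≤ (n) ∧ (n) ≤ (k + l + l2 + 2) ∧ (k + l + l2 + 3) ≤ (n + Q) ∧ (0) ≤ (i3) ∧ (n + i3) ≤ (k + l + l2 + 2) ∧ (k + i2 + l2 + 2) ≤ (n + j + i3) ∧ (j + i3 + 1) ≤ (k) ∧ (k + i2 + l2 + 2) ≤ (n + i3) ∧ (i + 2 * i2 + 1) ≤ (2 * Q + k) ∧ (i + l + 1) ≤ (i2 + l2) ∧ (i2 + l2 + 1) ≤ (k + l) ∧ (i3 + 1) ≤ (i))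
    (a1 : Par W (0) (j) (k - j))
    (a2 : Par W (Q + j - k) (j) (k - j))
    (s1 : Ant W (0) (i) (i + j))
    (s2 : Ant W (j + 1) (Q) (i + j))
    (b : Par W (i + 1) (i + l + 1) (k - i))
    (tt : Ant W (Q) (i2) (i + l + i2 + 1))
    (c : Par W (i2 + 1) (i2 + l2 + 1) (k + l - i2 + 1))
    (u1 : Ant W (0) (i3) (k + l + l2 + i3 - n + 2))
    (u2 : Ant W (k + l + l2 - n + 3) (Q) (k + l + l2 + i3 - n + 2))
    (D1 : Par W (i3 + 1) (Q) (i2 + l2 - i3 + 1))
    (D2 : Par W (i2 + l2 + 2) (n) (i3 - i2 - l2 - 1))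
    {L : ℤ} (mx : ∀ a b g, 0 < g → g < n → Par W a b g → b - a ≤ L)
    (hL : L ≤ (n - j - 3) ∧ L ≤ (n + Q - k - 3) ∧ L ≤ (n - l - 3) ∧ L ≤ (n + i - k - 2) ∧ L ≤ (n - l2 - 3) ∧ L ≤ (n + i3 - Q - 2) ∧ L ≤ (i2 + l2 - 1) ∧ L ≤ (n + i2 - k - l - 3) ∧ L ≤ (Q + i2 + l2 - l - i3 - 3))
    (bd0 : Bd W n L (j) (i) (k))
    (bd2 : Bd W n L (k + l + l2 - n + 2) (i3) (i2 + l2 + 1))
    (n1 : Nd W (j) (i) (k))
    (n2 : Nd W (i + l + 1) (i2) (k + l + 1))
    (n3 : Nd W (k + l + l2 - n + 2) (i3) (i2 + l2 + 1))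
    (b0 : (2 * l + i3 + 3) ≤ (Q + i2 + l2))
    (b1 : (2 * i + j + 1) ≤ (k))
    (b2 : (l + i3 + 3) ≤ (Q + i2))
    (b3 : (k + l + i3 + 2) ≤ (2 * Q + l2))
    (b4 : (2 * n + 2 * Q + i3) ≤ (k + l + 2 * i2 + 3 * l2 + 5))
    (b5 : (Q + 2 * i2 + l2) ≤ (k + 2 * l + i3 + 2))
    (b6 : (n + i) ≤ (2 * k + l + 1)) : False := by
  have ev := al.ev
  obtain ⟨y0, y1, y2, y3, y4, y5, y6, y7, y8, y9, y10, y11, y12, y13, y14, y15, y16, y17, y18, y19, y20, y21⟩ := id hy
  have n1p := And.intro n1.p1 n1.p2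
  have n2p := And.intro n2.p1 n2.p2
  have n3p := And.intro n3.p1 n3.p2
  by_cases z31 : (n + 2 * i + j + i2) ≤ (2 * Q + 2 * k + l)
  · exact t1c_12 al hy a1 a2 s1 s2 b tt c u1 u2 D1 D2 mx hL bd0 bd2 n1 n2 n3 (by clear * - b0; omega) (by clear * - b1; omega) (by clear * - b2; omega) (by clear * - b3; omega) (by clear * - b4; omega) (by clear * - b5; omega) (by clear * - b6; omega) (by clear * - z31; omega)
  · exact t1c_13 al hy a1 a2 s1 s2 b tt c u1 u2 D1 D2 mx hL bd0 bd2 n1 n2 n3 (by clear * - b0; omega) (by clear * - b1; omega) (by clear * - b2; omega) (by clear * - b3; omega) (by clear * - b4; omega) (by clear * - b5; omega) (by clear * - b6; omega) (by clear * - z31; omega)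

theorem t1c_10 {W : ℤ → G} {n Q i j k l i2 l2 i3 : ℤ} (al : AL W n Q)
    (hy : (0) ≤ (i) ∧ (i) ≤ (j) ∧ (j + 1) ≤ (Q) ∧ (Q) ≤ (k) ∧ (k + 1) ≤ (n) ∧ (Q) ≤ (i + l + 1) ∧ (k + l + 2) ≤ (n) ∧ (Q) ≤ (i2) ∧ (i2) ≤ (i + l + 1) ∧ (Q) ≤ (i2 + l2 + 1) ∧ (i2 + l2 + 2) ≤ (n) ∧ (n) ≤ (k + l + l2 + 2) ∧ (k + l + l2 + 3) ≤ (n + Q) ∧ (0) ≤ (i3) ∧ (n + i3) ≤ (k + l + l2 + 2) ∧ (k + i2 + l2 + 2) ≤ (n + j + i3) ∧ (j + i3 + 1) ≤ (k) ∧ (k + i2 + l2 + 2) ≤ (n + i3) ∧ (i + 2 * i2 + 1) ≤ (2 * Q + k) ∧ (i + l + 1) ≤ (i2 + l2) ∧ (i2 + l2 + 1) ≤ (k + l) ∧ (i3 + 1) ≤ (i))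
    (a1 : Par W (0) (j) (k - j))
    (a2 : Par W (Q + j - k) (j) (k - j))
    (s1 : Ant W (0) (i) (i + j))
    (s2 : Ant W (j + 1) (Q) (i + j))
    (b : Par W (i + 1) (i + l + 1) (k - i))
    (tt : Ant W (Q) (i2) (i + l + i2 + 1))
    (c : Par W (i2 + 1) (i2 + l2 + 1) (k + l - i2 + 1))
    (u1 : Ant W (0) (i3) (k + l + l2 + i3 - n + 2))
    (u2 : Ant W (k + l + l2 - n + 3) (Q) (k + l + l2 + i3 - n + 2))
    (D1 : Par W (i3 + 1) (Q) (i2 + l2 - i3 + 1))
    (D2 : Par W (i2 + l2 + 2) (n) (i3 - i2 - l2 - 1))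
    {L : ℤ} (mx : ∀ a b g, 0 < g → g < n → Par W a b g → b - a ≤ L)
    (hL : L ≤ (n - j - 3) ∧ L ≤ (n + Q - k - 3) ∧ L ≤ (n - l - 3) ∧ L ≤ (n + i - k - 2) ∧ L ≤ (n - l2 - 3) ∧ L ≤ (n + i3 - Q - 2) ∧ L ≤ (i2 + l2 - 1) ∧ L ≤ (n + i2 - k - l - 3) ∧ L ≤ (Q + i2 + l2 - l - i3 - 3))
    (bd0 : Bd W n L (j) (i) (k))
    (bd2 : Bd W n L (k + l + l2 - n + 2) (i3) (i2 + l2 + 1))
    (n1 : Nd W (j) (i) (k))
    (n2 : Nd W (i + l + 1) (i2) (k + l + 1))
    (n3 : Nd W (k + l + l2 - n + 2) (i3) (i2 + l2 + 1))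
    (b0 : (2 * l + i3 + 3) ≤ (Q + i2 + l2))
    (b1 : (2 * i + j + 1) ≤ (k))
    (b2 : (l + i3 + 3) ≤ (Q + i2))
    (b3 : (k + l + i3 + 2) ≤ (2 * Q + l2))
    (b4 : (2 * n + 2 * Q + i3) ≤ (k + l + 2 * i2 + 3 * l2 + 5))
    (b5 : (Q + 2 * i2 + l2) ≤ (k + 2 * l + i3 + 2)) : False := by
  have ev := al.ev
  obtain ⟨y0, y1, y2, y3, y4, y5, y6, y7, y8, y9, y10, y11, y12, y13, y14, y15, y16, y17, y18, y19, y20, y21⟩ := id hy
  have n1p := And.intro n1.p1 n1.p2
  have n2p := And.intro n2.p1 n2.p2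
  have n3p := And.intro n3.p1 n3.p2
  by_cases z29 : (2 * k + l + 2) ≤ (n + i)
  · by_cases z30 : (Q + i + 2 * i2 + 2 * l2) ≤ (n + k + l + i3)
    · by_cases v15 : (k + l + i3) ≤ (i + i2 + l2)
      · by_cases v16 : (i + l + l2 + 2) ≤ (n)
        · have kk398 : (k + i2 + l2 + 2) ≤ (n + i3) := by clear * - y17; omega
          have kk399 : (i3) ≤ (i2 + l2) := by clear * - b2 b3 b4 b5 v15 v16 y13 y17; linarith
          have kk400 : (i2 + l2 + 2) ≤ (n + i3) := by clear * - b2 b3 b4 b5 v16 y13 z29; linarith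
          have kk401 : (Q + 2 * i2 + l2) ≤ (k + 2 * l + i3 + 2) := by clear * - b5; omega
          have kk402 : (i2 + l2) ≤ (k + l) := by clear * - b2 b5; omega
          have kk403 : (n) ≤ (k + l + l2 + 2) := by clear * - b2 b3 b4 b5 y13; omega
          have kk404 : (l + i3) ≤ (i2 + l2) := by clear * - b2 b5 v15 y19; omega
          have kk405 : (k + l + i3) ≤ (2 * i2 + l2) := by clear * - b2 b4 y17; omega
          have kk406 : (k + l + i3) ≤ (i + i2 + l2) := by clear * - v15; omega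
          have kk407 : (i + l + l2 + 2) ≤ (n) := by clear * - v16; omega
          have kk408 : (i3) ≤ (i2) := by clear * - b2 b4 b5 y17; omega
          clear * - al b c D2 mx hL kk398 kk399 kk400 kk401 kk402 kk403 kk404 kk405 kk406 kk407 kk408
          have := mx (i3 - n + 1) ((i3 - n + 1) + (Q + i2 + l2 - l - i3 - 2)) (i2 + l2 - i3 + 1) (by omega) (by omega) (mgP (b := (i3 - i2 - l2 - 1)) (le_refl _) (fun t h1 h2 => (cE (pb D2 al (-1) t (t + (n + i2 + l2 - i3 + 1)) (by omega)) (sh al (-1) (t + (n + i2 + l2 - i3 + 1)) (t + (i2 + l2 - i3 + 1)) (by omega)))) (fun t h1 h2 => (cE (cE (cE (cE (pb b al (-1) t (t + (n + i - k)) (by omega)) (qf (show Par W (k + l + i3 - i2 - l2 + 1) (n + i3 - i2 - l2 - 1) (2 * i2 + l2 - k - l - i3) from fun t h1 h2 => (cE (sh al (-1) t (t + (-n)) (by omega)) (cE (pb D2 al (-1) (t + (-n)) (t + (i2 + l2 - i3 + 1)) (by omega)) (pb c al 0 (t + (i2 + l2 - i3 + 1)) (t + (2 * i2 + l2 - k - l -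 i3)) (by omega))))) al 0 (t + (n + i - k)) (t + (n + i + 2 * i2 + l2 - 2 * k - l - i3)) (by omega))) (qf b al 0 (t + (n + i + 2 * i2 + l2 - 2 * k - l - i3)) (t + (n + 2 * i2 + l2 - k - l - i3)) (by omega))) (qf c al 0 (t + (n + 2 * i2 + l2 - k - l - i3)) (t + (n + i2 + l2 - i3 + 1)) (by omega))) (sh al (-1) (t + (n + i2 + l2 - i3 + 1)) (t + (i2 + l2 - i3 + 1)) (by omega)))))
          omega
        · have kk409 : (k + i2 + l2 + 2) ≤ (n + i3) := by clear * - y17; omega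
          have kk410 : (i3) ≤ (i2 + l2) := by clear * - b2 b4 v15 v16 y17 y19 z30; linarith
          have kk411 : (i2 + l2 + 2) ≤ (n + i3) := by clear * - b2 b3 b4 v16 y13 z29 z30; linarith
          have kk412 : (Q + i + 2 * i2 + 2 * l2) ≤ (n + k + l + i3) := by clear * - z30; omega
          have kk413 : (i2 + l2) ≤ (k + l) := by clear * - b2 v16 z30; omega
          have kk414 : (n) ≤ (k + l + l2 + 2) := by clear * - b2 v16 y19 z30; omega
          have kk415 : (l + i3) ≤ (i2 + l2) := by clear * - b2 v15 v16 y19 z30; omega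
          have kk416 : (k + l + i3) ≤ (2 * i2 + l2) := by clear * - b2 b4 y17; omega
          have kk417 : (k + l + i3) ≤ (i + i2 + l2) := by clear * - v15; omega
          have kk418 : (n + i3) ≤ (i + l + i2 + l2 + 2) := by clear * - b2 b4 v16 y17 z30; omega
          have kk419 : (n) ≤ (i + l + l2 + 2) := by clear * - v16; omega
          have kk420 : (n + i2) ≤ (i + k + 2 * l + 2) := by clear * - b2 v16 z30; omega
          clear * - al b c D2 mx hL kk409 kk410 kk411 kk412 kk413 kk414 kk415 kk416 kk417 kk418 kk419 kk420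
          have := mx (i3 - n + 1) ((i3 - n + 1) + (Q + i2 + l2 - l - i3 - 2)) (i2 + l2 - i3 + 1) (by omega) (by omega) (mgP (b := (i3 - i2 - l2 - 1)) (le_refl _) (fun t h1 h2 => (cE (pb D2 al (-1) t (t + (n + i2 + l2 - i3 + 1)) (by omega)) (sh al (-1) (t + (n + i2 + l2 - i3 + 1)) (t + (i2 + l2 - i3 + 1)) (by omega)))) (fun t h1 h2 => (cE (cE (cE (cE (pb b al (-1) t (t + (n + i - k)) (by omega)) (qf (show Par W (k + l + i3 - i2 - l2 + 1) (n + i3 - i2 - l2 - 1) (2 * i2 + l2 - k - l - i3) from fun t h1 h2 => (cE (sh al (-1) t (t + (-n)) (by omega)) (cE (pb D2 al (-1) (t + (-n)) (t + (i2 + l2 - i3 + 1)) (by omega)) (pb c al 0 (t + (i2 + l2 - i3 + 1)) (t + (2 * i2 + l2 - k - l - i3)) (by omega))))) al 0 (t + (n + i - k)) (t + (n + i + 2 * i2 + l2 - 2 * k - l - i3)) (by omega))) (qf b al 0 (t + (n + i + 2 * i2 + l2 - 2 * k - l - i3)) (t + (n + 2 * i2 + l2 - k - l - i3)) (by omega))) (qf c al 0 (t + (n + 2 * i2 + l2 - k -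 l - i3)) (t + (n + i2 + l2 - i3 + 1)) (by omega))) (sh al (-1) (t + (n + i2 + l2 - i3 + 1)) (t + (i2 + l2 - i3 + 1)) (by omega)))))
          omega
      · by_cases v17 : (i + l + l2 + 2) ≤ (n)
        · have kk421 : (2 * k + l + 2) ≤ (n + i) := by clear * - z29; omega
          have kk422 : (i3) ≤ (i2 + l2) := by clear * - b2 b3 b4 b5 v15 v17 y13 z29; linarith
          have kk423 : (i2 + l2 + 2) ≤ (n + i3) := by clear * - b2 b3 b4 b5 v17 y13 z29; linarith
          have kk424 : (Q + 2 * i2 + l2) ≤ (k + 2 * l + i3 + 2) := by clear * - b5; omega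
          have kk425 : (i2 + l2) ≤ (k + l) := by clear * - b2 b5; omega
          have kk426 : (n) ≤ (k + l + l2 + 2) := by clear * - b2 b3 b4 b5 y13; omega
          have kk427 : (i + i2 + l2) ≤ (k + l + i3) := by clear * - v15; omega
          have kk428 : (i2) ≤ (k) := by clear * - b0 b5; omega
          have kk429 : (i) ≤ (i2) := by clear * - b2 b4 v15 z29; omega
          have kk430 : (i + l + l2 + 2) ≤ (n) := by clear * - v17; omega
          have kk431 : (i3) ≤ (i2) := by clear * - b2 b4 b5 v15 z29; omega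
          clear * - al b c D2 mx hL kk421 kk422 kk423 kk424 kk425 kk426 kk427 kk428 kk429 kk430 kk431
          have := mx (i3 - n + 1) ((i3 - n + 1) + (Q + i2 + l2 - l - i3 - 2)) (i2 + l2 - i3 + 1) (by omega) (by omega) (mgP (b := (i3 - i2 - l2 - 1)) (le_refl _) (fun t h1 h2 => (cE (pb D2 al (-1) t (t + (n + i2 + l2 - i3 + 1)) (by omega)) (sh al (-1) (t + (n + i2 + l2 - i3 + 1)) (t + (i2 + l2 - i3 + 1)) (by omega)))) (fun t h1 h2 => (cE (cE (cE (cE (pb b al (-1) t (t + (n + i - k)) (by omega)) (qf (show Par W (k + l + i3 - i2 - l2 + 1) (n + i3 - i2 - l2 - 1) (2 * i2 + l2 - k - l - i3) from fun t h1 h2 => (cE (sh al (-1) t (t + (-n)) (by omega)) (cE (pb D2 al (-1) (t + (-n)) (t + (i2 + l2 - i3 + 1)) (by omega)) (pb c al 0 (t + (i2 + l2 - i3 + 1)) (t + (2 * i2 + l2 - k - l - i3)) (by omega))))) al 0 (t + (n + i - k)) (t + (n + i + 2 * i2 + l2 - 2 * k - l - i3)) (by omega))) (qf b al 0 (t + (n + i + 2 * i2 + l2 - 2 *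 k - l - i3)) (t + (n + 2 * i2 + l2 - k - l - i3)) (by omega))) (qf c al 0 (t + (n + 2 * i2 + l2 - k - l - i3)) (t + (n + i2 + l2 - i3 + 1)) (by omega))) (sh al (-1) (t + (n + i2 + l2 - i3 + 1)) (t + (i2 + l2 - i3 + 1)) (by omega)))))
          omega
        · have kk432 : (2 * k + l + 2) ≤ (n + i) := by clear * - z29; omega
          have kk433 : (i3) ≤ (i2 + l2) := by clear * - b0 b2 b4 v15 v17 z29 z30; linarith
          have kk434 : (i2 + l2 + 2) ≤ (n + i3) := by clear * - b2 b3 b4 v17 y13 z29 z30; linarith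
          have kk435 : (Q + i + 2 * i2 + 2 * l2) ≤ (n + k + l + i3) := by clear * - z30; omega
          have kk436 : (i2 + l2) ≤ (k + l) := by clear * - b2 v17 z30; omega
          have kk437 : (n) ≤ (k + l + l2 + 2) := by clear * - b0 b2 b4 v15 v17 z29 z30; linarith
          have kk438 : (i + i2 + l2) ≤ (k + l + i3) := by clear * - v15; omega
          have kk439 : (i2) ≤ (k) := by clear * - b0 v17 z30; omega
          have kk440 : (i) ≤ (i2) := by clear * - b2 b4 v15 z29; omega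
          have kk441 : (n + i3) ≤ (i + l + i2 + l2 + 2) := by clear * - b2 b4 v15 v17 z29 z30; omega
          have kk442 : (n) ≤ (i + l + l2 + 2) := by clear * - v17; omega
          have kk443 : (n + i2) ≤ (i + k + 2 * l + 2) := by clear * - b2 v17 z30; omega
          clear * - al b c D2 mx hL kk432 kk433 kk434 kk435 kk436 kk437 kk438 kk439 kk440 kk441 kk442 kk443
          have := mx (i3 - n + 1) ((i3 - n + 1) + (Q + i2 + l2 - l - i3 - 2)) (i2 + l2 - i3 + 1) (by omega) (by omega) (mgP (b := (i3 - i2 - l2 - 1)) (le_refl _) (fun t h1 h2 => (cE (pb D2 al (-1) t (t + (n + i2 + l2 - i3 + 1)) (by omega)) (sh al (-1) (t + (n + i2 + l2 - i3 + 1)) (t + (i2 + l2 - i3 + 1)) (by omega)))) (fun t h1 h2 => (cE (cE (cE (cE (pb b al (-1) t (t + (n + i - k)) (by omega)) (qf (show Par W (k + l + i3 - i2 - l2 + 1) (n + i3 - i2 - l2 - 1) (2 * i2 + l2 - k - l - i3) from fun t h1 h2 => (cE (sh al (-1) t (t + (-n)) (by omega)) (cE (pb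 D2 al (-1) (t + (-n)) (t + (i2 + l2 - i3 + 1)) (by omega)) (pb c al 0 (t + (i2 + l2 - i3 + 1)) (t + (2 * i2 + l2 - k - l - i3)) (by omega))))) al 0 (t + (n + i - k)) (t + (n + i + 2 * i2 + l2 - 2 * k - l - i3)) (by omega))) (qf b al 0 (t + (n + i + 2 * i2 + l2 - 2 * k - l - i3)) (t + (n + 2 * i2 + l2 - k - l - i3)) (by omega))) (qf c al 0 (t + (n + 2 * i2 + l2 - k - l - i3)) (t + (n + i2 + l2 - i3 + 1)) (by omega))) (sh al (-1) (t + (n + i2 + l2 - i3 + 1)) (t + (i2 + l2 - i3 + 1)) (by omega)))))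
          omega
    · by_cases v18 : (Q + 3 * k + l + 1) ≤ (n + 2 * i + j + i2)
      · have kk444 : (3 * k + l + 2) ≤ (n + 2 * i + i2) := by clear * - b1 b2 b5 v18 y13 z29 z30; linarith
        have kk445 : (n + 2 * i + 2 * j + i2 + 1) ≤ (2 * Q + 3 * k + l) := by clear * - b0 b1 b2 b5 y13 y17 z30; linarith
        have kk446 : (3 * k + l + 3) ≤ (n + 2 * Q + i2) := by clear * - b1 b2 b4 b5 y15 y17 z30; linarith
        have kk447 : (n + 2 * j + k) ≤ (2 * Q + l + i2 + 2 * l2 + 1) := by clear * - b1 b2 b3 b4 b5 v18 y13 z29 z30; linarith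
        have kk448 : (i2) ≤ (k) := by clear * - b0 b5; omega
        have kk449 : (i2 + l2) ≤ (k + l) := by clear * - b2 b5; omega
        have kk450 : (i) ≤ (k) := by clear * - b2 b5 y19; omega
        have kk451 : (i + i2 + l2) ≤ (2 * k + l) := by clear * - b2 b5 y19; omega
        have kk452 : (Q + 2 * k) ≤ (2 * i + i2 + l2 + 1) := by clear * - b0 b1 b2 b5 v18 y13 z30; linarith
        have kk453 : (Q + 3 * k + l + 1) ≤ (n + 2 * i + j + i2) := by clear * - v18; omega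
        have r454 : (i + j) % 2 = 0 := by clear * - ev n1p n2p n3p; omega
        have r455 : (n + 2 * i + i2 - 3 * k - l - 1) % 2 = 0 := by clear * - ev n1p n2p n3p; omega
        clear * - al s2 b c kk444 kk445 kk446 kk447 kk448 kk449 kk450 kk451 kk452 kk453 r454 r455
        exact midP al (n + 2 * i + i2 - 3 * k - l - 1) (i + j) (i + j - Q + 1) (3 * k + l - n - i - i2 + 2) (2 * i + i2 + l2 - 2 * k + 1) (by omega) (fun t h1 h2 => (ab s2 al 0 t ((i + j) - t) (by omega))) (fun t h1 h2 => (cE (qf (show Par W (2 * k + l - i2 + 2) (k + l + l2 + 2) (n + i + i2 - 2 * k - l - 1) from fun t h1 h2 => (cE (sh al (-1) t (t + (-n)) (by omega)) (cE (cE (pb c al (-1) (t + (-n)) (t + (i2 - k - l - 1)) (by omega)) (pb b al 0 (t + (i2 - k - l - 1)) (t + (i + i2 - 2 * k - l - 1)) (by omega))) (sh al 1 (t + (i + i2 - 2 * k - l - 1)) (t + (n + i + i2 - 2 * k - l - 1)) (by omega))))) al (-1) t (t + (2 * n + i + i2 - 2 * k - l - 1)) (by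 omega)) (pb b al 1 (t + (2 * n + i + i2 - 2 * k - l - 1)) (t + (n + 2 * i + i2 - 3 * k - l - 1)) (by omega))))
      · have kk456 : (3 * k + l + 2) ≤ (n + 2 * i + i2) := by clear * - b2 b5 y17 y7 z29 z30; omega
        have kk457 : (3 * k + l + 3) ≤ (n + 2 * i + i2) := by clear * - b2 b5 y17 y7 z29 z30; omega
        have kk458 : (9 * k + 3 * l + 5) ≤ (3 * n + 4 * i + 2 * j + 3 * i2) := by clear * - b2 b5 y1 y17 y7 z29 z30; linarith
        have kk459 : (7 * k + l + 1) ≤ (n + 4 * i + 3 * i2 + 2 * l2) := by clear * - b2 b4 b5 y17 y7 z29 z30; linarith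
        have kk460 : (i2) ≤ (k) := by clear * - b0 b5; omega
        have kk461 : (i2 + l2) ≤ (k + l) := by clear * - b2 b5; omega
        have kk462 : (i) ≤ (k) := by clear * - b2 b5 y19; omega
        have kk463 : (i + i2 + l2) ≤ (2 * k + l) := by clear * - b2 b5 y19; omega
        have kk464 : (Q + 2 * k) ≤ (2 * i + i2 + l2 + 1) := by clear * - b5 y7 z29 z30; omega
        have kk465 : (n + 2 * i + j + i2) ≤ (Q + 3 * k + l + 1) := by clear * - v18; omega
        have r466 : (i + j) % 2 = 0 := by clear * - ev n1p n2p n3p; omega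
        have r467 : (n + 2 * i + i2 - 3 * k - l - 1) % 2 = 0 := by clear * - ev n1p n2p n3p; omega
        clear * - al s2 b c kk456 kk457 kk458 kk459 kk460 kk461 kk462 kk463 kk464 kk465 r466 r467
        exact midP al (n + 2 * i + i2 - 3 * k - l - 1) (i + j) (3 * k + l - n - i - i2 + 2) (3 * k + l - n - i - i2 + 2) (2 * i + i2 + l2 - 2 * k + 1) (by omega) (fun t h1 h2 => (ab s2 al 0 t ((i + j) - t) (by omega))) (fun t h1 h2 => (cE (qf (show Par W (2 * k + l - i2 + 2) (k + l + l2 + 2) (n + i + i2 - 2 * k - l - 1) from fun t h1 h2 => (cE (sh al (-1) t (t + (-n)) (by omega)) (cE (cE (pb c al (-1) (t + (-n)) (t + (i2 - k - l - 1)) (by omega)) (pb b al 0 (t + (i2 - k - l - 1)) (t + (i + i2 - 2 * k - l - 1)) (by omega))) (sh al 1 (t + (i + i2 - 2 * k - l - 1)) (t + (n + i + i2 - 2 * k - l - 1)) (by omega))))) al (-1) t (t + (2 * n + i + i2 - 2 * k - l - 1)) (by omega)) (pb b al 1 (t + (2 * n + i + i2 - 2 * k - l - 1)) (t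 + (n + 2 * i + i2 - 3 * k - l - 1)) (by omega))))
  · exact t1c_11 al hy a1 a2 s1 s2 b tt c u1 u2 D1 D2 mx hL bd0 bd2 n1 n2 n3 (by clear * - b0; omega) (by clear * - b1; omega) (by clear * - b2; omega) (by clear * - b3; omega) (by clear * - b4; omega) (by clear * - b5; omega) (by clear * - z29; omega)

theorem t1c_25 {W : ℤ → G} {n Q i j k l i2 l2 i3 : ℤ} (al : AL W n Q)
    (hy : (0) ≤ (i) ∧ (i) ≤ (j) ∧ (j + 1) ≤ (Q) ∧ (Q) ≤ (k) ∧ (k + 1) ≤ (n) ∧ (Q) ≤ (i + l + 1) ∧ (k + l + 2) ≤ (n) ∧ (Q) ≤ (i2) ∧ (i2) ≤ (i + l + 1) ∧ (Q) ≤ (i2 + l2 + 1) ∧ (i2 + l2 + 2) ≤ (n) ∧ (n) ≤ (k + l + l2 + 2) ∧ (k + l + l2 + 3) ≤ (n + Q) ∧ (0) ≤ (i3) ∧ (n + i3) ≤ (k + l + l2 + 2) ∧ (k + i2 + l2 + 2) ≤ (n + j + i3) ∧ (j + i3 + 1) ≤ (k) ∧ (k + i2 + l2 + 2) ≤ (n + i3) ∧ (i + 2 * i2 + 1) ≤ (2 * Q + k) ∧ (i + l + 1) ≤ (i2 + l2) ∧ (i2 + l2 + 1) ≤ (k + l) ∧ (i3 + 1) ≤ (i))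
    (a1 : Par W (0) (j) (k - j))
    (a2 : Par W (Q + j - k) (j) (k - j))
    (s1 : Ant W (0) (i) (i + j))
    (s2 : Ant W (j + 1) (Q) (i + j))
    (b : Par W (i + 1) (i + l + 1) (k - i))
    (tt : Ant W (Q) (i2) (i + l + i2 + 1))
    (c : Par W (i2 + 1) (i2 + l2 + 1) (k + l - i2 + 1))
    (u1 : Ant W (0) (i3) (k + l + l2 + i3 - n + 2))
    (u2 : Ant W (k + l + l2 - n + 3) (Q) (k + l + l2 + i3 - n + 2))
    (D1 : Par W (i3 + 1) (Q) (i2 + l2 - i3 + 1))
    (D2 : Par W (i2 + l2 + 2) (n) (i3 - i2 - l2 - 1))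
    {L : ℤ} (mx : ∀ a b g, 0 < g → g < n → Par W a b g → b - a ≤ L)
    (hL : L ≤ (n - j - 3) ∧ L ≤ (n + Q - k - 3) ∧ L ≤ (n - l - 3) ∧ L ≤ (n + i - k - 2) ∧ L ≤ (n - l2 - 3) ∧ L ≤ (n + i3 - Q - 2) ∧ L ≤ (i2 + l2 - 1) ∧ L ≤ (n + i2 - k - l - 3) ∧ L ≤ (Q + i2 + l2 - l - i3 - 3))
    (bd0 : Bd W n L (j) (i) (k))
    (bd2 : Bd W n L (k + l + l2 - n + 2) (i3) (i2 + l2 + 1))
    (n1 : Nd W (j) (i) (k))
    (n2 : Nd W (i + l + 1) (i2) (k + l + 1))
    (n3 : Nd W (k + l + l2 - n + 2) (i3) (i2 + l2 + 1))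
    (b0 : (2 * l + i3 + 3) ≤ (Q + i2 + l2))
    (b1 : (2 * i + j + 1) ≤ (k))
    (b2 : (k + l + i3 + 2) ≤ (2 * Q + l2))
    (b3 : (2 * n + 2 * Q + i3) ≤ (k + l + 2 * i2 + 3 * l2 + 5))
    (b4 : (k + 2 * l + i3 + 3) ≤ (Q + 2 * i2 + l2))
    (b5 : (2 * Q + i2) ≤ (k + l + 2 * i3 + 1))
    (b6 : (i + k + 2 * l + i3 + 3) ≤ (3 * i2 + l2)) : False := by
  have ev := al.ev
  obtain ⟨y0, y1, y2, y3, y4, y5, y6, y7, y8, y9, y10, y11, y12, y13, y14, y15, y16, y17, y18, y19, y20, y21⟩ := id hy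
  have n1p := And.intro n1.p1 n1.p2
  have n2p := And.intro n2.p1 n2.p2
  have n3p := And.intro n3.p1 n3.p2
  by_cases z77 : (i + k + 2 * l + i2 + l2 + 5) ≤ (2 * n + i3)
  · by_cases z78 : (2 * Q + i2 + l2) ≤ (i + k + 2 * l + i3 + 2)
    · by_cases v33 : (i + k + 2 * l + 3) ≤ (n + Q)
      · have kk1151 : (2 * Q + i2 + l2) ≤ (i + k + 2 * l + i3 + 1) := by clear * - z78 ev n1p n2p n3p; omega
        have kk1152 : (i + k + 2 * l + i3 + 2) ≤ (3 * i2 + l2) := by clear * - b6; omega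
        have kk1153 : (i2 + l2) ≤ (k + l) := by clear * - y20; omega
        have kk1154 : (n) ≤ (k + l + l2 + 2) := by clear * - b2 b3 y13 y20; omega
        have kk1155 : (i + k + 2 * l + 3) ≤ (n + Q) := by clear * - v33; omega
        have kk1156 : (i2) ≤ (i + l + 1) := by clear * - b2 z78; omega
        have r1157 : (i + k + 2 * l + i3 - i2 - l2 + 1) % 2 = 0 := by clear * - ev n1p n2p n3p; omega
        clear * - al tt c D2 kk1151 kk1152 kk1153 kk1154 kk1155 kk1156 r1157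
        obtain ⟨t, ht⟩ : ∃ t, 2 * t = (i + k + 2 * l + i3 - i2 - l2 + 1) := ⟨(i + k + 2 * l + i3 - i2 - l2 + 1) / 2, by omega⟩
        exact al.ninv t (cE (qa tt al 0 t ((i + l + i2 + 1) - t) (by omega)) (pb (show Par W (k + l + i3 - i2 - l2 + 1) (n + i3 - i2 - l2 - 1) (2 * i2 + l2 - k - l - i3) from fun t h1 h2 => (cE (sh al (-1) t (t + (-n)) (by omega)) (cE (pb D2 al (-1) (t + (-n)) (t + (i2 + l2 - i3 + 1)) (by omega)) (pb c al 0 (t + (i2 + l2 - i3 + 1)) (t + (2 * i2 + l2 - k - l - i3)) (by omega))))) al 0 ((i + l + i2 + 1) - t) t (by omega)))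
      · have kk1158 : (i + k + 2 * l + i2 + l2 + 5) ≤ (2 * n + i3) := by clear * - z77; omega
        have kk1159 : (i + k + 2 * l + i3 + 2) ≤ (3 * i2 + l2) := by clear * - b6; omega
        have kk1160 : (i2 + l2) ≤ (k + l) := by clear * - y20; omega
        have kk1161 : (n) ≤ (k + l + l2 + 2) := by clear * - b2 b5 b6 v33 y18; omega
        have kk1162 : (n + Q) ≤ (i + k + 2 * l + 3) := by clear * - v33; omega
        have kk1163 : (i2) ≤ (i + l + 1) := by clear * - b2 z78; omega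
        have r1164 : (i + k + 2 * l + i3 - i2 - l2 + 1) % 2 = 0 := by clear * - ev n1p n2p n3p; omega
        clear * - al tt c D2 kk1158 kk1159 kk1160 kk1161 kk1162 kk1163 r1164
        obtain ⟨t, ht⟩ : ∃ t, 2 * t = (i + k + 2 * l + i3 - i2 - l2 + 1) := ⟨(i + k + 2 * l + i3 - i2 - l2 + 1) / 2, by omega⟩
        exact al.ninv t (cE (qa tt al 0 t ((i + l + i2 + 1) - t) (by omega)) (pb (show Par W (k + l + i3 - i2 - l2 + 1) (n + i3 - i2 - l2 - 1) (2 * i2 + l2 - k - l - i3) from fun t h1 h2 => (cE (sh al (-1) t (t + (-n)) (by omega)) (cE (pb D2 al (-1) (t + (-n)) (t + (i2 + l2 - i3 + 1)) (by omega)) (pb c al 0 (t + (i2 + l2 - i3 + 1)) (t + (2 * i2 + l2 - k - l - i3)) (by omega))))) al 0 ((i + l + i2 + 1) - t) t (by omega)))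
    · have kk1165 : (3 * k + 2 * l + l2 + 5) ≤ (2 * n + i + i2 + i3) := by clear * - b6 y13 y17 y21; omega
      have kk1166 : (i + i2 + l2 + i3 + 2) ≤ (2 * Q + k) := by clear * - y20 z78; omega
      have kk1167 : (n + i) ≤ (k + l + l2 + 2) := by clear * - b3 y13 y17 y20 z78; omega
      have kk1168 : (n + i3) ≤ (k + l + l2 + 2) := by clear * - b2 b3 y20; omega
      have kk1169 : (Q) ≤ (i + l + 1) := by clear * - b3 b6 y13 y17 y20 y21 z78; linarith
      have kk1170 : (Q) ≤ (l2 + i3 + 1) := by clear * - b2 b3 b4 b5 y17 y20; omega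
      have r1171 : (k + i2 + l2 + i3 - i + 1) % 2 = 0 := by clear * - ev n1p n2p n3p; omega
      clear * - al b c u2 kk1165 kk1166 kk1167 kk1168 kk1169 kk1170 r1171
      obtain ⟨t, ht⟩ : ∃ t, 2 * t = (k + i2 + l2 + i3 - i + 1) := ⟨(k + i2 + l2 + i3 - i + 1) / 2, by omega⟩
      exact al.ninv t (cE (cI (pb b al 0 t (t + (i - k)) (by omega)) (qa u2 al 0 (t + (i - k)) ((2 * k + l + l2 + i3 - n - i + 2) - t) (by omega))) (pb c al (-1) ((2 * k + l + l2 + i3 - n - i + 2) - t) t (by omega)))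
  · by_cases z79 : (n + 3 * k + l + 2 * i3) ≤ (2 * Q + i + j + 3 * i2 + 2 * l2 + 1)
    · by_cases z80 : (n + i + 3 * j + i2 + 1) ≤ (2 * Q + 3 * k + l)
      · by_cases z81 : (9 * k + 3 * l + 2 * i3) ≤ (n + 5 * i + 5 * j + 5 * i2 + 2 * l2 + 1)
        · by_cases v34 : (2 * k) ≤ (i + j + i2 + 1)
          · have kk1172 : (3 * k + l + 2) ≤ (n + i + j + i2) := by clear * - b3 b4 y17 y20 z81; omega
            have kk1173 : (n + i + 3 * j + i2 + 1) ≤ (2 * Q + 3 * k + l) := by clear * - z80; omega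
            have kk1174 : (j + l + i2 + 3) ≤ (n + i + k) := by clear * - b1 b2 b4 b5 v34 y17 y20 y21 z80; linarith
            have kk1175 : (i + j + 3 * i2 + 2 * l2 + 3) ≤ (n + 3 * k + l + 2 * i3) := by clear * - b0 b2 b3 b5 b6 v34 y17 y20 z80; linarith
            have kk1176 : (k) ≤ (i2) := by clear * - b6 y17 z77; omega
            have kk1177 : (i2 + l2) ≤ (k + l) := by clear * - y20; omega
            have kk1178 : (i3) ≤ (j) := by clear * - b0 b1 b5 v34 y18 y20 y21; linarith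
            have kk1179 : (2 * k) ≤ (i + j + i2 + 1) := by clear * - v34; omega
            have kk1180 : (2 * k) ≤ (i + i2 + l2 + 1) := by clear * - b2 b5 b6 y17 y21 z77; omega
            have kk1181 : (k + l + i3) ≤ (j + i2 + l2) := by clear * - b0 b1 b5 v34 y18 y20 y21; linarith
            have kk1182 : (i) ≤ (j) := by clear * - b0 b1 b5 v34 y18 y20 y21; linarith
            have r1183 : (i + j + i2 + l2 - n - i3 + 1) % 2 = 0 := by clear * - ev n1p n2p n3p; omega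
            have r1184 : (n + i + j + i2 - 3 * k - l - 1) % 2 = 0 := by clear * - ev n1p n2p n3p; omega
            clear * - al a1 s2 b c D1 kk1172 kk1173 kk1174 kk1175 kk1176 kk1177 kk1178 kk1179 kk1180 kk1181 kk1182 r1183 r1184
            exact midP al (n + i + j + i2 - 3 * k - l - 1) (i + j + i2 + l2 - n - i3 + 1) (j + i2 + l2 - n - i3 + 2) (k + l - n + 2) (j) (by omega) (fun t h1 h2 => (cI (pb D1 al (-1) t (t + (n + i3 - i2 - l2 - 1)) (by omega)) (qa s2 al 0 (t + (n + i3 - i2 - l2 - 1)) ((i + j + i2 + l2 - n - i3 + 1) - t) (by omega)))) (fun t h1 h2 => (cE (qf (show Par W (k + l + 2) (k + l + l2 + 2) (n + i + i2 - 2 * k - l - 1) from fun t h1 h2 => (cE (sh al (-1) t (t + (-n)) (by omega)) (cE (cE (pb c al (-1) (t + (-n)) (t + (i2 - k - l - 1)) (by omega)) (pb b al 0 (t + (i2 - k - l - 1)) (t + (i + i2 - 2 * k - l - 1)) (by omega))) (sh al 1 (t + (i + i2 - 2 * k - l - 1)) (t + (n + i + i2 - 2 * k - l - 1)) (by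 omega))))) al (-1) t (t + (2 * n + i + i2 - 2 * k - l - 1)) (by omega)) (pb a1 al 1 (t + (2 * n + i + i2 - 2 * k - l - 1)) (t + (n + i + j + i2 - 3 * k - l - 1)) (by omega))))
          · by_cases v35 : (3 * k + l + i3) ≤ (i + 2 * j + 2 * i2 + l2 + 1)
            · have kk1185 : (3 * k + l + 2) ≤ (n + i + j + i2) := by clear * - b6 v34 y17 z77 z81; omega
              have kk1186 : (n + i + 3 * j + i2 + 1) ≤ (2 * Q + 3 * k + l) := by clear * - z80; omega
              have kk1187 : (3 * k + l + 1) ≤ (n + 3 * i + j + i2) := by clear * - b4 b5 v35 y17 y20 y21 z80; linarith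
              have kk1188 : (i + j + 3 * i2 + 2 * l2 + 3) ≤ (n + 3 * k + l + 2 * i3) := by clear * - b4 b5 v34 v35 y17 y20 z80; linarith
              have kk1189 : (k) ≤ (i2) := by clear * - b6 y17 z77; omega
              have kk1190 : (i2 + l2) ≤ (k + l) := by clear * - y20; omega
              have kk1191 : (i3) ≤ (j) := by clear * - v34 v35 y20; omega
              have kk1192 : (i + j + i2 + 1) ≤ (2 * k) := by clear * - v34; omega
              have kk1193 : (2 * k) ≤ (i + i2 + l2 + 1) := by clear * - b3 b6 v34 y17 z77 z80 z81; linarith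
              have kk1194 : (i) ≤ (j) := by clear * - y1; omega
              have kk1195 : (3 * k + l + i3) ≤ (i + 2 * j + 2 * i2 + l2 + 1) := by clear * - v35; omega
              have r1196 : (i + j + i2 + l2 - n - i3 + 1) % 2 = 0 := by clear * - ev n1p n2p n3p; omega
              have r1197 : (n + i + j + i2 - 3 * k - l - 1) % 2 = 0 := by clear * - ev n1p n2p n3p; omega
              clear * - al a1 s2 b c D1 kk1185 kk1186 kk1187 kk1188 kk1189 kk1190 kk1191 kk1192 kk1193 kk1194 kk1195 r1196 r1197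
              exact midP al (n + i + j + i2 - 3 * k - l - 1) (i + j + i2 + l2 - n - i3 + 1) (j + i2 + l2 - n - i3 + 2) (3 * k + l - n - i - j - i2 + 1) (j) (by omega) (fun t h1 h2 => (cI (pb D1 al (-1) t (t + (n + i3 - i2 - l2 - 1)) (by omega)) (qa s2 al 0 (t + (n + i3 - i2 - l2 - 1)) ((i + j + i2 + l2 - n - i3 + 1) - t) (by omega)))) (fun t h1 h2 => (cE (qf (show Par W (k + l + 2) (k + l + l2 + 2) (n + i + i2 - 2 * k - l - 1) from fun t h1 h2 => (cE (sh al (-1) t (t + (-n)) (by omega)) (cE (cE (pb c al (-1) (t + (-n)) (t + (i2 - k - l - 1)) (by omega)) (pb b al 0 (t + (i2 - k - l - 1)) (t + (i + i2 - 2 * k - l - 1)) (by omega))) (sh al 1 (t + (i + i2 - 2 * k - l - 1)) (t + (n + i + i2 - 2 * k - l - 1)) (by omega))))) al (-1) t (t + (2 * n + i + i2 - 2 * k - l - 1)) (by omega)) (pb a1 al 1 (t + (2 * n + i + i2 - 2 * k - l - 1)) (t + (n + i + j + i2 - 3 * k - l - 1)) (by omega))))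
            · have kk1198 : (3 * k + l + 2) ≤ (n + i + j + i2) := by clear * - b6 v34 y17 z77 z81; omega
              have kk1199 : (n + 3 * k + l + 2 * i3) ≤ (2 * Q + i + j + 3 * i2 + 2 * l2 + 1) := by clear * - z79; omega
              have kk1200 : (9 * k + 3 * l + 2 * i3) ≤ (n + 5 * i + 5 * j + 5 * i2 + 2 * l2 + 1) := by clear * - z81; omega
              have kk1201 : (3 * k + l + 1) ≤ (n + i + 3 * j + i2) := by clear * - b5 b6 v34 y17 y18 y20 z79 z81; linarith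
              have kk1202 : (k) ≤ (i2) := by clear * - b6 y17 z77; omega
              have kk1203 : (i2 + l2) ≤ (k + l) := by clear * - y20; omega
              have kk1204 : (i3) ≤ (j) := by clear * - y1 y21; omega
              have kk1205 : (i + j + i2 + 1) ≤ (2 * k) := by clear * - v34; omega
              have kk1206 : (2 * k) ≤ (i + i2 + l2 + 1) := by clear * - b3 b6 v34 y17 z77 z80 z81; linarith
              have kk1207 : (i + 2 * j + 2 * i2 + l2 + 1) ≤ (3 * k + l + i3) := by clear * - v35; omega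
              have kk1208 : (2 * i + j + 2 * i2 + l2 + 1) ≤ (3 * k + l + i3) := by clear * - v35 y1; omega
              have r1209 : (i + j + i2 + l2 - n - i3 + 1) % 2 = 0 := by clear * - ev n1p n2p n3p; omega
              have r1210 : (n + i + j + i2 - 3 * k - l - 1) % 2 = 0 := by clear * - ev n1p n2p n3p; omega
              clear * - al a1 s2 b c D1 kk1198 kk1199 kk1200 kk1201 kk1202 kk1203 kk1204 kk1205 kk1206 kk1207 kk1208 r1209 r1210
              exact midP al (n + i + j + i2 - 3 * k - l - 1) (i + j + i2 + l2 - n - i3 + 1) (3 * k + l - n - i - j - i2 + 1) (3 * k + l - n - i - j - i2 + 1) (j) (by omega) (fun t h1 h2 => (cI (pb D1 al (-1) t (t + (n + i3 - i2 - l2 - 1)) (by omega)) (qa s2 al 0 (t + (n + i3 - i2 - l2 - 1)) ((i + j + i2 + l2 - n - i3 + 1) - t) (by omega)))) (fun t h1 h2 => (cE (qf (show Par W (k + l + 2) (k + l + l2 + 2) (n + i + i2 - 2 * k - l - 1) from fun t h1 h2 => (cE (sh al (-1) t (t + (-n))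 (by omega)) (cE (cE (pb c al (-1) (t + (-n)) (t + (i2 - k - l - 1)) (by omega)) (pb b al 0 (t + (i2 - k - l - 1)) (t + (i + i2 - 2 * k - l - 1)) (by omega))) (sh al 1 (t + (i + i2 - 2 * k - l - 1)) (t + (n + i + i2 - 2 * k - l - 1)) (by omega))))) al (-1) t (t + (2 * n + i + i2 - 2 * k - l - 1)) (by omega)) (pb a1 al 1 (t + (2 * n + i + i2 - 2 * k - l - 1)) (t + (n + i + j + i2 - 3 * k - l - 1)) (by omega))))
        · have kk1211 : (j + i2 + l2 + 3) ≤ (n + i + i3) := by clear * - b3 b4 b5 y17 y20 y21 z79 z81; linarith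
          have kk1212 : (n + i + j + i3) ≤ (2 * Q + i2 + l2) := by clear * - b2 b6 y17 z77 z79 z81; omega
          have kk1213 : (i3) ≤ (j) := by clear * - y1 y21; omega
          have r1214 : (3 * n + i + j + i2 + l2 - i3 + 1) % 2 = 0 := by clear * - ev n1p n2p n3p; omega
          clear * - al s2 D1 kk1211 kk1212 kk1213 r1214
          obtain ⟨t, ht⟩ : ∃ t, 2 * t = (3 * n + i + j + i2 + l2 - i3 + 1) := ⟨(3 * n + i + j + i2 + l2 - i3 + 1) / 2, by omega⟩
          exact al.ninv t (cE (cI (pb D1 al 1 t (t + (i3 - n - i2 - l2 - 1)) (by omega)) (qa s2 al 0 (t + (i3 - n - i2 - l2 - 1)) ((n + i + j + i2 + l2 - i3 + 1) - t) (by omega))) (sh al 2 ((n + i + j + i2 + l2 - i3 + 1) - t) t (by omega)))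
      · by_cases z82 : (2 * k + l + i3 + 1) ≤ (i + 2 * i2 + l2)
        · have kk1215 : (2 * k + l + i3 + 1) ≤ (i + 2 * i2 + l2) := by clear * - z82; omega
          have kk1216 : (2 * i2 + l2) ≤ (i + 2 * k + l + i3) := by clear * - b0 b5 y17 y20 z77; omega
          have kk1217 : (l + i3) ≤ (i + 2 * j + l2) := by clear * - b0 b2 b5 b6 y20 z77 z80 z82; linarith
          have kk1218 : (4 * k + l + i3) ≤ (2 * Q + i + 2 * j + 2 * i2 + l2) := by clear * - b0 b1 b5 y17 y20 z79 z80; linarith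
          have kk1219 : (k) ≤ (i2) := by clear * - b6 y17 z77; omega
          have kk1220 : (i2 + l2) ≤ (k + l) := by clear * - y20; omega
          have kk1221 : (i) ≤ (j) := by clear * - b1 b6 y13 y18 y20 z77 z80; linarith
          have kk1222 : (Q + i2) ≤ (k + l + i3 + 1) := by clear * - b2 b5 b6 y20 z82; omega
          have kk1223 : (j + l + i3 + 1) ≤ (i2 + l2) := by clear * - b0 b1 b5 y17 y21 z77 z82; linarith
          have kk1224 : (j + 2 * k + l + i3 + 1) ≤ (Q + 2 * i2 + l2) := by clear * - b0 b1 y17 z77 z82; omega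
          have r1225 : (i + k) % 2 = 0 := by clear * - ev n1p n2p n3p; omega
          have r1226 : (i + 2 * i2 + l2 - 2 * k - l - i3) % 2 = 0 := by clear * - ev n1p n2p n3p; omega
          clear * - al a1 s1 b c D1 kk1215 kk1216 kk1217 kk1218 kk1219 kk1220 kk1221 kk1222 kk1223 kk1224 r1225 r1226
          exact midP al (i + 2 * i2 + l2 - 2 * k - l - i3) (i + k) (k - j) (k + l + i3 - i2 - l2 + 1) (Q + i + 2 * i2 + l2 - 2 * k - l - i3) (by omega) (fun t h1 h2 => (cI (pb a1 al 0 t (t + (j - k)) (by omega)) (qa s1 al 0 (t + (j - k)) ((i + k) - t) (by omega)))) (fun t h1 h2 => (cE (cE (qf D1 al 0 t (t + (i2 + l2 - i3 + 1)) (by omega)) (qf (show Par W (k + l + 2) (k + l + l2 + 2) (n + i + i2 - 2 * k - l - 1) from fun t h1 h2 => (cE (sh al (-1) t (t + (-n)) (by omega)) (cE (cE (pb c al (-1) (t + (-n)) (t + (i2 - k - l - 1)) (by omega)) (pb b al 0 (t + (i2 - k - l - 1)) (t + (i + i2 - 2 * k - l - 1)) (by omega))) (sh al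 1 (t + (i + i2 - 2 * k - l - 1)) (t + (n + i + i2 - 2 * k - l - 1)) (by omega))))) al 0 (t + (i2 + l2 - i3 + 1)) (t + (n + i + 2 * i2 + l2 - 2 * k - l - i3)) (by omega))) (sh al (-1) (t + (n + i + 2 * i2 + l2 - 2 * k - l - i3)) (t + (i + 2 * i2 + l2 - 2 * k - l - i3)) (by omega))))
        · have kk1227 : (2 * i + l + 3) ≤ (k + i2) := by clear * - b6 z82; omega
          have kk1228 : (2 * Q + k) ≤ (2 * i + l + i2 + 2) := by clear * - b5 b6 y17 y21 z77; omega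
          have kk1229 : (k) ≤ (i + l + 1) := by clear * - b3 b4 b6 y17 y21 z77 z82; linarith
          have kk1230 : (i + i2 + 1) ≤ (Q + k) := by clear * - b2 b5 b6 y20 z82; omega
          have r1231 : (2 * i + l + i2 - k + 1) % 2 = 0 := by clear * - ev n1p n2p n3p; omega
          clear * - al b tt kk1227 kk1228 kk1229 kk1230 r1231
          obtain ⟨t, ht⟩ : ∃ t, 2 * t = (2 * i + l + i2 - k + 1) := ⟨(2 * i + l + i2 - k + 1) / 2, by omega⟩
          exact al.ninv t (cI (qf b al 0 t (t + (k - i)) (by omega)) (ab tt al 0 (t + (k - i)) t (by omega)))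
    · by_cases z83 : (2 * j + k + 2) ≤ (2 * Q + i)
      · have kk1232 : (i + 1) ≤ (k) := by clear * - b2 b5 b6 y20; omega
        have kk1233 : (2 * j + k + 2) ≤ (2 * Q + i) := by clear * - z83; omega
        have kk1234 : (i + k + 2) ≤ (2 * Q) := by clear * - b6 y17 y18 z77; omega
        have kk1235 : (2 * n + i + 2 * j + 2 * i2) ≤ (2 * Q + 3 * k + 4 * l + 2) := by clear * - b0 b1 b2 b5 y17 y20 z77; linarith
        have kk1236 : (Q + k + l + 1) ≤ (n + i + j) := by clear * - b4 b5 y1 y17 y21; omega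
        have kk1237 : (n + i) ≤ (k + l + l2 + 2) := by clear * - b1 b2 b5 y1 z77; omega
        have kk1238 : (Q) ≤ (k + l + 1) := by clear * - b2 b3 b4 b5 y17 y20; omega
        have kk1239 : (Q + k + l + 1) ≤ (n + j + i2) := by clear * - b2 b3 b5 b6 y15 y21 z77 z79 z83; linarith
        have r1240 : (i + j + i2 - n - k - l - 1) % 2 = 0 := by clear * - ev n1p n2p n3p; omega
        have r1241 : (k - i) % 2 = 0 := by clear * - ev n1p n2p n3p; omega
        clear * - al s2 b c kk1232 kk1233 kk1234 kk1235 kk1236 kk1237 kk1238 kk1239 r1240 r1241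
        exact midP al (k - i) (i + j + i2 - n - k - l - 1) (i + j + i2 - Q - k - l) (i - n + 1) (k + l - n + 1) (by omega) (fun t h1 h2 => (cE (cI (qf c al (-1) t (t + (n + k + l - i2 + 1)) (by omega)) (ab s2 al 1 (t + (n + k + l - i2 + 1)) ((i + j + i2 - k - l - 1) - t) (by omega))) (sh al (-1) ((i + j + i2 - k - l - 1) - t) ((i + j + i2 - n - k - l - 1) - t) (by omega)))) (fun t h1 h2 => (cE (qf b al (-1) t (t + (n + k - i)) (by omega)) (sh al (-1) (t + (n + k - i)) (t + (k - i)) (by omega))))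
      · by_cases v36 : (n + j) ≤ (k + l + l2 + 2)
        · have kk1242 : (3 * k + l + 2) ≤ (n + i + j + i2) := by clear * - b4 v36 y17 y21 z77 z83; omega
          have kk1243 : (n + 2 * Q + i + j) ≤ (3 * k + l + i2 + 1) := by clear * - b6 z77 z79; omega
          have kk1244 : (n + i) ≤ (j + k + l + i2 + 1) := by clear * - b0 b1 b6 y17 z77 z79 z83; linarith
          have kk1245 : (3 * i + 3 * l + 5) ≤ (n + j + k + i2) := by clear * - b0 b1 b6 y17 z77 z79 z83; linarith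
          have kk1246 : (k) ≤ (i + l + 1) := by clear * - b2 b4 b6 v36 y17 y21 z77 z79 z83; linarith
          have kk1247 : (i + i2 + 1) ≤ (Q + k) := by clear * - b2 b5 b6 y18 y20; omega
          have kk1248 : (k + l + 2) ≤ (n) := by clear * - b2 b4 b6 v36 y17 y21 z77 z79 z83; linarith
          have kk1249 : (2 * k + l + 2) ≤ (n + i2) := by clear * - b2 b4 b6 v36 y17 y21 z77 z79 z83; linarith
          have kk1250 : (n + j) ≤ (k + l + l2 + 2) := by clear * - v36; omega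
          have kk1251 : (n + j + i2) ≤ (2 * k + 2 * l + 2) := by clear * - v36 y20; omega
          have kk1252 : (2 * k + l + 1) ≤ (n + i + j) := by clear * - b2 b4 b5 y17 y21 z77 z83; linarith
          have kk1253 : (2 * k) ≤ (2 * i + j + l + 2) := by clear * - b2 b4 b5 y17 y21 z77 z83; linarith
          have r1254 : (2 * n + 2 * i + l + i2 - k + 1) % 2 = 0 := by clear * - ev n1p n2p n3p; omega
          have r1255 : (n + i + j + i2 - 3 * k - l - 1) % 2 = 0 := by clear * - ev n1p n2p n3p; omega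
          clear * - al a1 b tt c kk1242 kk1243 kk1244 kk1245 kk1246 kk1247 kk1248 kk1249 kk1250 kk1251 kk1252 kk1253 r1254 r1255
          exact midP al (n + i + j + i2 - 3 * k - l - 1) (2 * n + 2 * i + l + i2 - k + 1) (n + 2 * i + l - k + 2) (n + k - j) (2 * n + i + j + i2 - 2 * k - l - 1) (by omega) (fun t h1 h2 => (cE (cI (qf b al 1 t (t + (k - n - i)) (by omega)) (ab tt al 0 (t + (k - n - i)) ((n + 2 * i + l + i2 - k + 1) - t) (by omega))) (sh al 1 ((n + 2 * i + l + i2 - k + 1) - t) ((2 * n + 2 * i + l + i2 - k + 1) - t) (by omega)))) (fun t h1 h2 => (cE (cE (cE (pb a1 al 1 t (t + (j - n - k)) (by omega)) (pb c al (-1) (t + (j - n - k)) (t + (j + i2 - 2 * k - l - 1)) (by omega))) (pb b al 0 (t + (j + i2 - 2 * k - l - 1)) (t + (i + j + i2 - 3 * k - l - 1)) (by omega))) (sh al 1 (t + (i + j + i2 - 3 * k - l - 1)) (t + (n + i + j + i2 - 3 * k - l - 1)) (by omega))))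
        · have kk1256 : (3 * k + l + 2) ≤ (n + i + j + i2) := by clear * - b2 b3 b4 v36 y17 z77 z79; linarith
          have kk1257 : (n + 2 * Q + i + j) ≤ (3 * k + l + i2 + 1) := by clear * - b6 z77 z79; omega
          have kk1258 : (n + i) ≤ (j + k + l + i2 + 1) := by clear * - b1 b2 b4 b5 v36 y17 z77 z79; linarith
          have kk1259 : (n + 3 * i + j + l + 1) ≤ (3 * k + i2 + 2 * l2) := by clear * - b1 b2 b4 b5 v36 z77 z79; linarith
          have kk1260 : (k) ≤ (i + l + 1) := by clear * - b2 b3 b4 b6 v36 y17 z77 z79; linarith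
          have kk1261 : (i + i2 + 1) ≤ (Q + k) := by clear * - b2 b5 b6 y18 y20; omega
          have kk1262 : (k + l + 2) ≤ (n) := by clear * - b2 b3 b4 b6 v36 y17 z77 z79; linarith
          have kk1263 : (2 * k + l + 2) ≤ (n + i2) := by clear * - b2 b3 b4 b6 v36 y17 z77 z79; linarith
          have kk1264 : (i2 + l2) ≤ (k + l) := by clear * - y20; omega
          have kk1265 : (k + l + l2 + 2) ≤ (n + j) := by clear * - v36; omega
          have kk1266 : (k + l2) ≤ (i + j + l + 1) := by clear * - v36 y17 z77; omega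
          have kk1267 : (k) ≤ (i + l2 + 1) := by clear * - b0 b2 b3 b6 v36 y17 z77 z79; linarith
          have r1268 : (2 * n + 2 * i + l + i2 - k + 1) % 2 = 0 := by clear * - ev n1p n2p n3p; omega
          have r1269 : (n + i + j + i2 - 3 * k - l - 1) % 2 = 0 := by clear * - ev n1p n2p n3p; omega
          clear * - al a1 b tt c kk1256 kk1257 kk1258 kk1259 kk1260 kk1261 kk1262 kk1263 kk1264 kk1265 kk1266 kk1267 r1268 r1269
          exact midP al (n + i + j + i2 - 3 * k - l - 1) (2 * n + 2 * i + l + i2 - k + 1) (n + 2 * i + l - k + 2) (n + k - j) (n + i + i2 + l2 - k + 1) (by omega) (fun t h1 h2 => (cE (cI (qf b al 1 t (t + (k - n - i)) (by omega)) (ab tt al 0 (t + (k - n - i)) ((n + 2 * i + l + i2 - k + 1) - t) (by omega))) (sh al 1 ((n + 2 * i + l + i2 - k + 1) - t) ((2 * n + 2 * i + l + i2 - k + 1) - t) (by omega)))) (fun t h1 h2 => (cE (cE (cE (pb a1 al 1 t (t + (j - n - k)) (by omega)) (pb c al (-1) (t + (j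 - n - k)) (t + (j + i2 - 2 * k - l - 1)) (by omega))) (pb b al 0 (t + (j + i2 - 2 * k - l - 1)) (t + (i + j + i2 - 3 * k - l - 1)) (by omega))) (sh al 1 (t + (i + j + i2 - 3 * k - l - 1)) (t + (n + i + j + i2 - 3 * k - l - 1)) (by omega))))

theorem t1c_24 {W : ℤ → G} {n Q i j k l i2 l2 i3 : ℤ} (al : AL W n Q)
    (hy : (0) ≤ (i) ∧ (i) ≤ (j) ∧ (j + 1) ≤ (Q) ∧ (Q) ≤ (k) ∧ (k + 1) ≤ (n) ∧ (Q) ≤ (i + l + 1) ∧ (k + l + 2) ≤ (n) ∧ (Q) ≤ (i2) ∧ (i2) ≤ (i + l + 1) ∧ (Q) ≤ (i2 + l2 + 1) ∧ (i2 + l2 + 2) ≤ (n) ∧ (n) ≤ (k + l + l2 + 2) ∧ (k + l + l2 + 3) ≤ (n + Q) ∧ (0) ≤ (i3) ∧ (n + i3) ≤ (k + l + l2 + 2) ∧ (k + i2 + l2 + 2) ≤ (n + j + i3) ∧ (j + i3 + 1) ≤ (k) ∧ (k + i2 + l2 + 2) ≤ (n + i3) ∧ (i + 2 * i2 + 1) ≤ (2 * Q + k) ∧ (i + l + 1) ≤ (i2 + l2) ∧ (i2 + l2 + 1) ≤ (k + l) ∧ (i3 + 1) ≤ (i))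
    (a1 : Par W (0) (j) (k - j))
    (a2 : Par W (Q + j - k) (j) (k - j))
    (s1 : Ant W (0) (i) (i + j))
    (s2 : Ant W (j + 1) (Q) (i + j))
    (b : Par W (i + 1) (i + l + 1) (k - i))
    (tt : Ant W (Q) (i2) (i + l + i2 + 1))
    (c : Par W (i2 + 1) (i2 + l2 + 1) (k + l - i2 + 1))
    (u1 : Ant W (0) (i3) (k + l + l2 + i3 - n + 2))
    (u2 : Ant W (k + l + l2 - n + 3) (Q) (k + l + l2 + i3 - n + 2))
    (D1 : Par W (i3 + 1) (Q) (i2 + l2 - i3 + 1))
    (D2 : Par W (i2 + l2 + 2) (n) (i3 - i2 - l2 - 1))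
    {L : ℤ} (mx : ∀ a b g, 0 < g → g < n → Par W a b g → b - a ≤ L)
    (hL : L ≤ (n - j - 3) ∧ L ≤ (n + Q - k - 3) ∧ L ≤ (n - l - 3) ∧ L ≤ (n + i - k - 2) ∧ L ≤ (n - l2 - 3) ∧ L ≤ (n + i3 - Q - 2) ∧ L ≤ (i2 + l2 - 1) ∧ L ≤ (n + i2 - k - l - 3) ∧ L ≤ (Q + i2 + l2 - l - i3 - 3))
    (bd0 : Bd W n L (j) (i) (k))
    (bd2 : Bd W n L (k + l + l2 - n + 2) (i3) (i2 + l2 + 1))
    (n1 : Nd W (j) (i) (k))
    (n2 : Nd W (i + l + 1) (i2) (k + l + 1))
    (n3 : Nd W (k + l + l2 - n + 2) (i3) (i2 + l2 + 1))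
    (b0 : (2 * l + i3 + 3) ≤ (Q + i2 + l2))
    (b1 : (2 * i + j + 1) ≤ (k))
    (b2 : (k + l + i3 + 2) ≤ (2 * Q + l2))
    (b3 : (2 * n + 2 * Q + i3) ≤ (k + l + 2 * i2 + 3 * l2 + 5))
    (b4 : (k + 2 * l + i3 + 3) ≤ (Q + 2 * i2 + l2))
    (b5 : (2 * Q + i2) ≤ (k + l + 2 * i3 + 1)) : False := by
  have ev := al.ev
  obtain ⟨y0, y1, y2, y3, y4, y5, y6, y7, y8, y9, y10, y11, y12, y13, y14, y15, y16, y17, y18, y19, y20, y21⟩ := id hy
  have n1p := And.intro n1.p1 n1.p2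
  have n2p := And.intro n2.p1 n2.p2
  have n3p := And.intro n3.p1 n3.p2
  by_cases z76 : (i + k + 2 * l + i3 + 3) ≤ (3 * i2 + l2)
  · exact t1c_25 al hy a1 a2 s1 s2 b tt c u1 u2 D1 D2 mx hL bd0 bd2 n1 n2 n3 (by clear * - b0; omega) (by clear * - b1; omega) (by clear * - b2; omega) (by clear * - b3; omega) (by clear * - b4; omega) (by clear * - b5; omega) (by clear * - z76; omega)
  · exact t1c_26 al hy a1 a2 s1 s2 b tt c u1 u2 D1 D2 mx hL bd0 bd2 n1 n2 n3 (by clear * - b0; omega) (by clear * - b1; omega) (by clear * - b2; omega) (by clear * - b3; omega) (by clear * - b4; omega) (by clear * - b5; omega) (by clear * - z76; omega)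

theorem t1c_23 {W : ℤ → G} {n Q i j k l i2 l2 i3 : ℤ} (al : AL W n Q)
    (hy : (0) ≤ (i) ∧ (i) ≤ (j) ∧ (j + 1) ≤ (Q) ∧ (Q) ≤ (k) ∧ (k + 1) ≤ (n) ∧ (Q) ≤ (i + l + 1) ∧ (k + l + 2) ≤ (n) ∧ (Q) ≤ (i2) ∧ (i2) ≤ (i + l + 1) ∧ (Q) ≤ (i2 + l2 + 1) ∧ (i2 + l2 + 2) ≤ (n) ∧ (n) ≤ (k + l + l2 + 2) ∧ (k + l + l2 + 3) ≤ (n + Q) ∧ (0) ≤ (i3) ∧ (n + i3) ≤ (k + l + l2 + 2) ∧ (k + i2 + l2 + 2) ≤ (n + j + i3) ∧ (j + i3 + 1) ≤ (k) ∧ (k + i2 + l2 + 2) ≤ (n + i3) ∧ (i + 2 * i2 + 1) ≤ (2 * Q + k) ∧ (i + l + 1) ≤ (i2 + l2) ∧ (i2 + l2 + 1) ≤ (k + l) ∧ (i3 + 1) ≤ (i))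
    (a1 : Par W (0) (j) (k - j))
    (a2 : Par W (Q + j - k) (j) (k - j))
    (s1 : Ant W (0) (i) (i + j))
    (s2 : Ant W (j + 1) (Q) (i + j))
    (b : Par W (i + 1) (i + l + 1) (k - i))
    (tt : Ant W (Q) (i2) (i + l + i2 + 1))
    (c : Par W (i2 + 1) (i2 + l2 + 1) (k + l - i2 + 1))
    (u1 : Ant W (0) (i3) (k + l + l2 + i3 - n + 2))
    (u2 : Ant W (k + l + l2 - n + 3) (Q) (k + l + l2 + i3 - n + 2))
    (D1 : Par W (i3 + 1) (Q) (i2 + l2 - i3 + 1))
    (D2 : Par W (i2 + l2 + 2) (n) (i3 - i2 - l2 - 1))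
    {L : ℤ} (mx : ∀ a b g, 0 < g → g < n → Par W a b g → b - a ≤ L)
    (hL : L ≤ (n - j - 3) ∧ L ≤ (n + Q - k - 3) ∧ L ≤ (n - l - 3) ∧ L ≤ (n + i - k - 2) ∧ L ≤ (n - l2 - 3) ∧ L ≤ (n + i3 - Q - 2) ∧ L ≤ (i2 + l2 - 1) ∧ L ≤ (n + i2 - k - l - 3) ∧ L ≤ (Q + i2 + l2 - l - i3 - 3))
    (bd0 : Bd W n L (j) (i) (k))
    (bd2 : Bd W n L (k + l + l2 - n + 2) (i3) (i2 + l2 + 1))
    (n1 : Nd W (j) (i) (k))
    (n2 : Nd W (i + l + 1) (i2) (k + l + 1))
    (n3 : Nd W (k + l + l2 - n + 2) (i3) (i2 + l2 + 1))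
    (b0 : (2 * l + i3 + 3) ≤ (Q + i2 + l2))
    (b1 : (2 * i + j + 1) ≤ (k))
    (b2 : (k + l + i3 + 2) ≤ (2 * Q + l2))
    (b3 : (2 * n + 2 * Q + i3) ≤ (k + l + 2 * i2 + 3 * l2 + 5))
    (b4 : (k + 2 * l + i3 + 3) ≤ (Q + 2 * i2 + l2)) : False := by
  have ev := al.ev
  obtain ⟨y0, y1, y2, y3, y4, y5, y6, y7, y8, y9, y10, y11, y12, y13, y14, y15, y16, y17, y18, y19, y20, y21⟩ := id hy
  have n1p := And.intro n1.p1 n1.p2
  have n2p := And.intro n2.p1 n2.p2
  have n3p := And.intro n3.p1 n3.p2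
  by_cases z75 : (k + l + 2 * i3 + 2) ≤ (2 * Q + i2)
  · have kk1147 : (k + l + i2 + 2 * l2 + 5) ≤ (2 * n + 2 * i3) := by clear * - b0 y13 y17 y20 y7; omega
    have kk1148 : (k + l + 2 * i3 + 2) ≤ (2 * Q + i2) := by clear * - z75; omega
    have kk1149 : (n + i3) ≤ (k + l + l2 + 2) := by clear * - b2 b3 y20; omega
    have r1150 : (k + l + i2 + 2 * l2 - 2 * n + 3) % 2 = 0 := by clear * - ev n1p n2p n3p; omega
    clear * - al u2 D1 kk1147 kk1148 kk1149 r1150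
    obtain ⟨t, ht⟩ : ∃ t, 2 * t = (k + l + i2 + 2 * l2 - 2 * n + 3) := ⟨(k + l + i2 + 2 * l2 - 2 * n + 3) / 2, by omega⟩
    exact al.ninv t (cI (pb D1 al (-1) t (t + (n + i3 - i2 - l2 - 1)) (by omega)) (qa u2 al 0 (t + (n + i3 - i2 - l2 - 1)) t (by omega)))
  · exact t1c_24 al hy a1 a2 s1 s2 b tt c u1 u2 D1 D2 mx hL bd0 bd2 n1 n2 n3 (by clear * - b0; omega) (by clear * - b1; omega) (by clear * - b2; omega) (by clear * - b3; omega) (by clear * - b4; omega) (by clear * - z75; omega)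

theorem t1c_9 {W : ℤ → G} {n Q i j k l i2 l2 i3 : ℤ} (al : AL W n Q)
    (hy : (0) ≤ (i) ∧ (i) ≤ (j) ∧ (j + 1) ≤ (Q) ∧ (Q) ≤ (k) ∧ (k + 1) ≤ (n) ∧ (Q) ≤ (i + l + 1) ∧ (k + l + 2) ≤ (n) ∧ (Q) ≤ (i2) ∧ (i2) ≤ (i + l + 1) ∧ (Q) ≤ (i2 + l2 + 1) ∧ (i2 + l2 + 2) ≤ (n) ∧ (n) ≤ (k + l + l2 + 2) ∧ (k + l + l2 + 3) ≤ (n + Q) ∧ (0) ≤ (i3) ∧ (n + i3) ≤ (k + l + l2 + 2) ∧ (k + i2 + l2 + 2) ≤ (n + j + i3) ∧ (j + i3 + 1) ≤ (k) ∧ (k + i2 + l2 + 2) ≤ (n + i3) ∧ (i + 2 * i2 + 1) ≤ (2 * Q + k) ∧ (i + l + 1) ≤ (i2 + l2) ∧ (i2 + l2 + 1) ≤ (k + l) ∧ (i3 + 1) ≤ (i))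
    (a1 : Par W (0) (j) (k - j))
    (a2 : Par W (Q + j - k) (j) (k - j))
    (s1 : Ant W (0) (i) (i + j))
    (s2 : Ant W (j + 1) (Q) (i + j))
    (b : Par W (i + 1) (i + l + 1) (k - i))
    (tt : Ant W (Q) (i2) (i + l + i2 + 1))
    (c : Par W (i2 + 1) (i2 + l2 + 1) (k + l - i2 + 1))
    (u1 : Ant W (0) (i3) (k + l + l2 + i3 - n + 2))
    (u2 : Ant W (k + l + l2 - n + 3) (Q) (k + l + l2 + i3 - n + 2))
    (D1 : Par W (i3 + 1) (Q) (i2 + l2 - i3 + 1))
    (D2 : Par W (i2 + l2 + 2) (n) (i3 - i2 - l2 - 1))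
    {L : ℤ} (mx : ∀ a b g, 0 < g → g < n → Par W a b g → b - a ≤ L)
    (hL : L ≤ (n - j - 3) ∧ L ≤ (n + Q - k - 3) ∧ L ≤ (n - l - 3) ∧ L ≤ (n + i - k - 2) ∧ L ≤ (n - l2 - 3) ∧ L ≤ (n + i3 - Q - 2) ∧ L ≤ (i2 + l2 - 1) ∧ L ≤ (n + i2 - k - l - 3) ∧ L ≤ (Q + i2 + l2 - l - i3 - 3))
    (bd0 : Bd W n L (j) (i) (k))
    (bd2 : Bd W n L (k + l + l2 - n + 2) (i3) (i2 + l2 + 1))
    (n1 : Nd W (j) (i) (k))
    (n2 : Nd W (i + l + 1) (i2) (k + l + 1))
    (n3 : Nd W (k + l + l2 - n + 2) (i3) (i2 + l2 + 1))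
    (b0 : (2 * l + i3 + 3) ≤ (Q + i2 + l2))
    (b1 : (2 * i + j + 1) ≤ (k))
    (b2 : (l + i3 + 3) ≤ (Q + i2))
    (b3 : (k + l + i3 + 2) ≤ (2 * Q + l2))
    (b4 : (2 * n + 2 * Q + i3) ≤ (k + l + 2 * i2 + 3 * l2 + 5)) : False := by
  have ev := al.ev
  obtain ⟨y0, y1, y2, y3, y4, y5, y6, y7, y8, y9, y10, y11, y12, y13, y14, y15, y16, y17, y18, y19, y20, y21⟩ := id hy
  have n1p := And.intro n1.p1 n1.p2
  have n2p := And.intro n2.p1 n2.p2
  have n3p := And.intro n3.p1 n3.p2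
  by_cases z28 : (Q + 2 * i2 + l2) ≤ (k + 2 * l + i3 + 2)
  · exact t1c_10 al hy a1 a2 s1 s2 b tt c u1 u2 D1 D2 mx hL bd0 bd2 n1 n2 n3 (by clear * - b0; omega) (by clear * - b1; omega) (by clear * - b2; omega) (by clear * - b3; omega) (by clear * - b4; omega) (by clear * - z28; omega)
  · exact t1c_23 al hy a1 a2 s1 s2 b tt c u1 u2 D1 D2 mx hL bd0 bd2 n1 n2 n3 (by clear * - b0; omega) (by clear * - b1; omega) (by clear * - b3; omega) (by clear * - b4; omega) (by clear * - z28; omega)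

end Pool.Agent.MP_a38735_al.WL
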