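import Pool.Agent.MP_a38735_al.Zw4

set_option autoImplicit false
set_option linter.unusedVariables false

namespace Pool.Agent.MP_a38735_al.WL

variable {G : Type*} [Group G]

theorem t1c_37 {W : ℤ → G} {n Q i j k l i2 l2 i3 : ℤ} (al : AL W n Q)
    (hy : (0) ≤ (i) ∧ (i) ≤ (j) ∧ (j + 1) ≤ (Q) ∧ (Q) ≤ (k) ∧ (k + 1) ≤ (n) ∧ (Q) ≤ (i + l + 1) ∧ (k + l + 2) ≤ (n) ∧ (Q) ≤ (i2) ∧ (i2) ≤ (i + l + 1) ∧ (Q) ≤ (i2 + l2 + 1) ∧ (i2 + l2 + 2) ≤ (n) ∧ (n) ≤ (k + l + l2 + 2) ∧ (k + l + l2 + 3) ≤ (n + Q) ∧ (0) ≤ (i3) ∧ (n + i3) ≤ (k + l + l2 + 2) ∧ (k + i2 + l2 + 2) ≤ (n + j + i3) ∧ (j + i3 + 1) ≤ (k) ∧ (k + i2 + l2 + 2) ≤ (n + i3) ∧ (i + 2 * i2 + 1) ≤ (2 * Q + k) ∧ (i + l + 1) ≤ (i2 + l2) ∧ (i2 + l2 + 1) ≤ (k + l) ∧ (i3 + 1) ≤ (i))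
    (a1 : Par W (0) (j) (k - j))
    (a2 : Par W (Q + j - k) (j) (k - j))
    (s1 : Ant W (0) (i) (i + j))
    (s2 : Ant W (j + 1) (Q) (i + j))
    (b : Par W (i + 1) (i + l + 1) (k - i))
    (tt : Ant W (Q) (i2) (i + l + i2 + 1))
    (c : Par W (i2 + 1) (i2 + l2 + 1) (k + l - i2 + 1))
    (u1 : Ant W (0) (i3) (k + l + l2 + i3 - n + 2))
    (u2 : Ant W (k + l + l2 - n + 3) (Q) (k + l + l2 + i3 - n + 2))
    (D1 : Par W (i3 + 1) (Q) (i2 + l2 - i3 + 1))
    (D2 : Par W (i2 + l2 + 2) (n) (i3 - i2 - l2 - 1))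
    {L : ℤ} (mx : ∀ a b g, 0 < g → g < n → Par W a b g → b - a ≤ L)
    (hL : L ≤ (n - j - 3) ∧ L ≤ (n + Q - k - 3) ∧ L ≤ (n - l - 3) ∧ L ≤ (n + i - k - 2) ∧ L ≤ (n - l2 - 3) ∧ L ≤ (n + i3 - Q - 2) ∧ L ≤ (i2 + l2 - 1) ∧ L ≤ (n + i2 - k - l - 3) ∧ L ≤ (Q + i2 + l2 - l - i3 - 3))
    (bd0 : Bd W n L (j) (i) (k))
    (bd2 : Bd W n L (k + l + l2 - n + 2) (i3) (i2 + l2 + 1))
    (n1 : Nd W (j) (i) (k))
    (n2 : Nd W (i + l + 1) (i2) (k + l + 1))
    (n3 : Nd W (k + l + l2 - n + 2) (i3) (i2 + l2 + 1))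
    (b0 : (2 * l + i3 + 3) ≤ (Q + i2 + l2))
    (b1 : (n + l + i3 + 1) ≤ (Q + 2 * i2 + 2 * l2))
    (b2 : (2 * i + j + 1) ≤ (k))
    (b3 : (n + 2 * Q) ≤ (i + l + i2 + 2 * l2 + 4))
    (b4 : (l + i3 + 3) ≤ (Q + i2))
    (b5 : (2 * Q + l2) ≤ (k + l + i3 + 1))
    (b6 : (2 * i + l + i2 + 3) ≤ (2 * Q + k))
    (b7 : (2 * i + k + i2 + l2 + 2) ≤ (n + j + i3)) : False := by
  have ev := al.ev
  obtain ⟨y0, y1, y2, y3, y4, y5, y6, y7, y8, y9, y10, y11, y12, y13, y14, y15, y16, y17, y18, y19, y20, y21⟩ := id hy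
  have n1p := And.intro n1.p1 n1.p2
  have n2p := And.intro n2.p1 n2.p2
  have n3p := And.intro n3.p1 n3.p2
  by_cases z116 : (2 * i + k + 3 * l + l2 + 6) ≤ (2 * n + i3)
  · by_cases z117 : (k + l + i3 + 1) ≤ (2 * i2 + l2)
    · by_cases v62 : (n + i3) ≤ (i + l + i2 + l2 + 2)
      · by_cases v63 : (n + Q) ≤ (i + k + 2 * l + 3)
        · have kk1949 : (k + l + i3 + 1) ≤ (2 * i2 + l2) := by clear * - z117; omega
          have kk1950 : (2 * i + k + 3 * l + l2 + 6) ≤ (2 * n + i3) := by clear * - z116; omega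
          have kk1951 : (3 * k + 3 * l + i3 + 4) ≤ (2 * n + 2 * i2 + l2) := by clear * - b3 b4 b6 v62 v63 y17 y21 z116; linarith
          have kk1952 : (2 * i + 3 * k + 5 * l + l2 + 8) ≤ (4 * n + i3) := by clear * - b3 b4 b6 v62 v63 y17 y21 z116; linarith
          have kk1953 : (i2 + l2) ≤ (k + l) := by clear * - y20; omega
          have kk1954 : (n) ≤ (k + l + l2 + 2) := by clear * - b3 b4 b6 v63 y17; omega
          have kk1955 : (n + i3) ≤ (i + l + i2 + l2 + 2) := by clear * - v62; omega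
          have kk1956 : (n + Q) ≤ (i + k + 2 * l + 3) := by clear * - v63; omega
          have r1957 : (2 * n + i + l + i2 + 1) % 2 = 0 := by clear * - ev n1p n2p n3p; omega
          have r1958 : (2 * i2 + l2 - k - l - i3) % 2 = 0 := by clear * - ev n1p n2p n3p; omega
          clear * - al tt c D2 kk1949 kk1950 kk1951 kk1952 kk1953 kk1954 kk1955 kk1956 r1957 r1958
          exact midP al (2 * i2 + l2 - k - l - i3) (2 * n + i + l + i2 + 1) (i + k + 2 * l + 3) (n + k + l + i3 - i2 - l2 + 1) (2 * n + i2 - k - l - 1) (by omega) (fun t h1 h2 => (cE (qa tt al 1 t ((n + i + l + i2 + 1) - t) (by omega)) (sh al 1 ((n + i + l + i2 + 1) - t) ((2 * n + i + l + i2 + 1) - t) (by omega)))) (fun t h1 h2 => (cE (qf (show Par W (k + l + i3 - i2 - l2 + 1) (n + i3 - i2 - l2 - 1) (2 * i2 + l2 - k - l - i3) from fun t h1 h2 => (cE (sh al (-1) t (t + (-n)) (by omega)) (cE (pb D2 al (-1) (t + (-n)) (t + (i2 + l2 - i3 + 1)) (by omega)) (pb c al 0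 (t + (i2 + l2 - i3 + 1)) (t + (2 * i2 + l2 - k - l - i3)) (by omega))))) al 1 t (t + (2 * i2 + l2 - n - k - l - i3)) (by omega)) (sh al 1 (t + (2 * i2 + l2 - n - k - l - i3)) (t + (2 * i2 + l2 - k - l - i3)) (by omega))))
        · have kk1959 : (k + l + i3 + 1) ≤ (2 * i2 + l2) := by clear * - z117; omega
          have kk1960 : (2 * Q + l2) ≤ (k + l + i3) := by clear * - b5 ev n1p n2p n3p; omega
          have kk1961 : (2 * Q + k + i3) ≤ (2 * i + l + 2 * i2 + l2 + 2) := by clear * - b3 b4 b5 b6 v62 v63 y17 y21; linarith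
          have kk1962 : (2 * Q + k + l + l2 + 2) ≤ (2 * n + i3) := by clear * - b3 b4 b5 b6 v62 v63 y17 y21; linarith
          have kk1963 : (i2 + l2) ≤ (k + l) := by clear * - y20; omega
          have kk1964 : (n) ≤ (k + l + l2 + 2) := by clear * - b3 b6 v62 y13 y20; omega
          have kk1965 : (i + k + 2 * l + 3) ≤ (n + Q) := by clear * - v63; omega
          have kk1966 : (k + l + i3 + 1) ≤ (Q + i2 + l2) := by clear * - v62 v63; omega
          have r1967 : (2 * n + i + l + i2 + 1) % 2 = 0 := by clear * - ev n1p n2p n3p; omega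
          have r1968 : (2 * i2 + l2 - k - l - i3) % 2 = 0 := by clear * - ev n1p n2p n3p; omega
          clear * - al tt c D2 kk1959 kk1960 kk1961 kk1962 kk1963 kk1964 kk1965 kk1966 r1967 r1968
          exact midP al (2 * i2 + l2 - k - l - i3) (2 * n + i + l + i2 + 1) (n + Q) (n + k + l + i3 - i2 - l2 + 1) (2 * n + i2 - k - l - 1) (by omega) (fun t h1 h2 => (cE (qa tt al 1 t ((n + i + l + i2 + 1) - t) (by omega)) (sh al 1 ((n + i + l + i2 + 1) - t) ((2 * n + i + l + i2 + 1) - t) (by omega)))) (fun t h1 h2 => (cE (qf (show Par W (k + l + i3 - i2 - l2 + 1) (n + i3 - i2 - l2 - 1) (2 * i2 + l2 - k - l - i3) from fun t h1 h2 => (cE (sh al (-1) t (t + (-n)) (by omega)) (cE (pb D2 al (-1) (t + (-n)) (t + (i2 + l2 - i3 + 1)) (by omega)) (pb c al 0 (t + (i2 + l2 - i3 + 1)) (t + (2 * i2 + l2 - k - l - i3)) (by omega))))) al 1 t (t + (2 * i2 + l2 - n - k - l - i3)) (by omega)) (sh al 1 (t + (2 * i2 + l2 - n - k - l - i3)) (t + (2 * i2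 + l2 - k - l - i3)) (by omega))))
      · by_cases v64 : (Q + i2 + l2) ≤ (k + l + i3 + 1)
        · have kk1969 : (k + l + i3 + 1) ≤ (2 * i2 + l2) := by clear * - z117; omega
          have kk1970 : (k + l + i3 + 2) ≤ (2 * i2 + l2) := by clear * - z117 ev n1p n2p n3p; omega
          have kk1971 : (3 * k + l + 3 * i3) ≤ (2 * i + 4 * i2 + 3 * l2) := by clear * - b3 b4 y14 y17 z117; omega
          have kk1972 : (3 * k + 3 * l + i3 + 4) ≤ (2 * n + 2 * i2 + l2) := by clear * - b3 b4 b6 v64 y17 y21 z117; linarith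
          have kk1973 : (i2 + l2) ≤ (k + l) := by clear * - y20; omega
          have kk1974 : (n) ≤ (k + l + l2 + 2) := by clear * - b1 v64 y14 y17; omega
          have kk1975 : (i + l + i2 + l2 + 2) ≤ (n + i3) := by clear * - v62; omega
          have kk1976 : (Q + i2 + l2) ≤ (k + l + i3 + 1) := by clear * - v64; omega
          have r1977 : (2 * n + i + l + i2 + 1) % 2 = 0 := by clear * - ev n1p n2p n3p; omega
          have r1978 : (2 * i2 + l2 - k - l - i3) % 2 = 0 := by clear * - ev n1p n2p n3p; omega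
          clear * - al tt c D2 kk1969 kk1970 kk1971 kk1972 kk1973 kk1974 kk1975 kk1976 r1977 r1978
          exact midP al (2 * i2 + l2 - k - l - i3) (2 * n + i + l + i2 + 1) (n + k + l + i3 - i2 - l2 + 1) (n + k + l + i3 - i2 - l2 + 1) (2 * n + i2 - k - l - 1) (by omega) (fun t h1 h2 => (cE (qa tt al 1 t ((n + i + l + i2 + 1) - t) (by omega)) (sh al 1 ((n + i + l + i2 + 1) - t) ((2 * n + i + l + i2 + 1) - t) (by omega)))) (fun t h1 h2 => (cE (qf (show Par W (k + l + i3 - i2 - l2 + 1) (n + i3 - i2 - l2 - 1) (2 * i2 + l2 - k - l - i3) from fun t h1 h2 => (cE (sh al (-1) t (t + (-n)) (by omega)) (cE (pb D2 al (-1) (t + (-n)) (t + (i2 + l2 - i3 + 1)) (by omega)) (pb c al 0 (t + (i2 + l2 - i3 + 1)) (t + (2 * i2 + l2 - k - l - i3)) (by omega))))) al 1 t (t + (2 * i2 + l2 - n - k - l - i3)) (by omega)) (sh al 1 (t + (2 * i2 + l2 - n - k - l - i3)) (t + (2 * i2 + l2 - k - l - i3)) (by omega))))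
        · have kk1979 : (k + l + i3 + 1) ≤ (2 * i2 + l2) := by clear * - z117; omega
          have kk1980 : (2 * Q + l2) ≤ (k + l + i3) := by clear * - b5 ev n1p n2p n3p; omega
          have kk1981 : (2 * Q + k + i3) ≤ (2 * i + l + 2 * i2 + l2 + 2) := by clear * - b3 b4 y17 y20 z117; omega
          have kk1982 : (2 * Q + k + l + l2 + 2) ≤ (2 * n + i3) := by clear * - b3 b4 b5 b6 v64 y17 y21; linarith
          have kk1983 : (i2 + l2) ≤ (k + l) := by clear * - y20; omega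
          have kk1984 : (n) ≤ (k + l + l2 + 2) := by clear * - y13 y14; omega
          have kk1985 : (i + l + i2 + l2 + 2) ≤ (n + i3) := by clear * - v62; omega
          have kk1986 : (k + l + i3 + 1) ≤ (Q + i2 + l2) := by clear * - v64; omega
          have r1987 : (2 * n + i + l + i2 + 1) % 2 = 0 := by clear * - ev n1p n2p n3p; omega
          have r1988 : (2 * i2 + l2 - k - l - i3) % 2 = 0 := by clear * - ev n1p n2p n3p; omega
          clear * - al tt c D2 kk1979 kk1980 kk1981 kk1982 kk1983 kk1984 kk1985 kk1986 r1987 r1988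
          exact midP al (2 * i2 + l2 - k - l - i3) (2 * n + i + l + i2 + 1) (n + Q) (n + k + l + i3 - i2 - l2 + 1) (2 * n + i2 - k - l - 1) (by omega) (fun t h1 h2 => (cE (qa tt al 1 t ((n + i + l + i2 + 1) - t) (by omega)) (sh al 1 ((n + i + l + i2 + 1) - t) ((2 * n + i + l + i2 + 1) - t) (by omega)))) (fun t h1 h2 => (cE (qf (show Par W (k + l + i3 - i2 - l2 + 1) (n + i3 - i2 - l2 - 1) (2 * i2 + l2 - k - l - i3) from fun t h1 h2 => (cE (sh al (-1) t (t + (-n)) (by omega)) (cE (pb D2 al (-1) (t + (-n)) (t + (i2 + l2 - i3 + 1)) (by omega)) (pb c al 0 (t + (i2 + l2 - i3 + 1)) (t + (2 * i2 + l2 - k - l - i3)) (by omega))))) al 1 t (t + (2 * i2 + l2 - n - k - l - i3)) (by omega)) (sh al 1 (t + (2 * i2 + l2 - n - k - l - i3)) (t + (2 * i2 + l2 - k - l - i3)) (by omega))))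
    · by_cases v65 : (n + i2) ≤ (2 * k + l + 2)
      · by_cases v66 : (n + j) ≤ (k + l + l2 + 2)
        · have kk1989 : (2 * k + l + 2) ≤ (n + i + i2) := by clear * - b3 b4 y17; omega
          have kk1990 : (2 * k + l + 3) ≤ (n + i + i2) := by clear * - b3 b4 y17; omega
          have kk1991 : (6 * k + 3 * l + 5) ≤ (3 * n + i + 2 * j + 3 * i2) := by clear * - b3 b4 b7 v65 y17; omega
          have kk1992 : (4 * k + l + 1) ≤ (n + i + 3 * i2 + 2 * l2) := by clear * - b3 b4 b7 v65 v66 y17; omega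
          have kk1993 : (i2) ≤ (k) := by clear * - y19 y21 z117; omega
          have kk1994 : (i2 + l2) ≤ (k + l) := by clear * - y20; omega
          have kk1995 : (n + i2) ≤ (2 * k + l + 2) := by clear * - v65; omega
          have kk1996 : (n + j) ≤ (k + l + l2 + 2) := by clear * - v66; omega
          have r1997 : (2 * n + i + j) % 2 = 0 := by clear * - ev n1p n2p n3p; omega
          have r1998 : (n + i + i2 - 2 * k - l - 1) % 2 = 0 := by clear * - ev n1p n2p n3p; omega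
          clear * - al s1 b c kk1989 kk1990 kk1991 kk1992 kk1993 kk1994 kk1995 kk1996 r1997 r1998
          exact midP al (n + i + i2 - 2 * k - l - 1) (2 * n + i + j) (2 * k + l - i2 + 2) (2 * k + l - i2 + 2) (n + i + i2 + l2 - k + 1) (by omega) (fun t h1 h2 => (cE (qa s1 al 1 t ((n + i + j) - t) (by omega)) (sh al 1 ((n + i + j) - t) ((2 * n + i + j) - t) (by omega)))) (fun t h1 h2 => (qf (show Par W (2 * k + l - i2 + 2) (k + l + l2 + 2) (n + i + i2 - 2 * k - l - 1) from fun t h1 h2 => (cE (sh al (-1) t (t + (-n)) (by omega)) (cE (cE (pb c al (-1) (t + (-n)) (t + (i2 - k - l - 1)) (by omega)) (pb b al 0 (t + (i2 - k - l - 1)) (t + (i + i2 - 2 * k - l - 1)) (by omega))) (sh al 1 (t + (i + i2 - 2 * k - l - 1)) (t + (n + i + i2 - 2 * k - l - 1)) (by omega))))) al 0 t (t + (n + i + i2 - 2 * k - l - 1)) (by omega)))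
        · have kk1999 : (2 * k + l + 2) ≤ (n + i + i2) := by clear * - b3 b4 y17; omega
          have kk2000 : (n + 2 * j) ≤ (i + l + i2 + 2 * l2 + 1) := by clear * - b3 y2 ev n1p n2p n3p; omega
          have kk2001 : (4 * k + l + 1) ≤ (n + i + 3 * i2 + 2 * l2) := by clear * - b1 b3 b4 y14 y17 y7; omega
          have kk2002 : (n + 2 * j + 2 * k) ≤ (i + l + 3 * i2 + 4 * l2 + 3) := by clear * - b3 b4 b7 v65 v66 y2; omega
          have kk2003 : (i2) ≤ (k) := by clear * - y19 y21 z117; omega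
          have kk2004 : (i2 + l2) ≤ (k + l) := by clear * - y20; omega
          have kk2005 : (k + l + l2 + 2) ≤ (n + j) := by clear * - v66; omega
          have kk2006 : (i2 + l2) ≤ (j + k) := by clear * - v65 v66; omega
          have r2007 : (2 * n + i + j) % 2 = 0 := by clear * - ev n1p n2p n3p; omega
          have r2008 : (n + i + i2 - 2 * k - l - 1) % 2 = 0 := by clear * - ev n1p n2p n3p; omega
          clear * - al s1 b c kk1999 kk2000 kk2001 kk2002 kk2003 kk2004 kk2005 kk2006 r2007 r2008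
          exact midP al (n + i + i2 - 2 * k - l - 1) (2 * n + i + j) (n + j + k - i2 - l2) (2 * k + l - i2 + 2) (n + i + i2 + l2 - k + 1) (by omega) (fun t h1 h2 => (cE (qa s1 al 1 t ((n + i + j) - t) (by omega)) (sh al 1 ((n + i + j) - t) ((2 * n + i + j) - t) (by omega)))) (fun t h1 h2 => (qf (show Par W (2 * k + l - i2 + 2) (k + l + l2 + 2) (n + i + i2 - 2 * k - l - 1) from fun t h1 h2 => (cE (sh al (-1) t (t + (-n)) (by omega)) (cE (cE (pb c al (-1) (t + (-n)) (t + (i2 - k - l - 1)) (by omega)) (pb b al 0 (t + (i2 - k - l - 1)) (t + (i + i2 - 2 * k - l - 1)) (by omega))) (sh al 1 (t + (i + i2 - 2 * k - l - 1)) (t + (n + i + i2 - 2 * k - l - 1)) (by omega))))) al 0 t (t + (n + i + i2 - 2 * k - l - 1)) (by omega)))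
      · by_cases v67 : (j + k) ≤ (i2 + l2)
        · have kk2009 : (2 * k + l + 2) ≤ (n + i + i2) := by clear * - b3 b4 v65 z117; omega
          have kk2010 : (n + i2) ≤ (i + 2 * k + l + 1) := by clear * - b3 b4 z117; omega
          have kk2011 : (2 * k + l + 1) ≤ (n + i + 2 * j + i2) := by clear * - b3 b4 b7 v65 z117; omega
          have kk2012 : (n) ≤ (i + l + i2 + 2 * l2 + 3) := by clear * - b3 b4 b7 v65 v67 z117; omega
          have kk2013 : (i2) ≤ (k) := by clear * - b3 b4 b7 v67 y21 z116 z117; linarith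
          have kk2014 : (i2 + l2) ≤ (k + l) := by clear * - b3 b4 b5 b7 v67 y21 z117; linarith
          have kk2015 : (2 * k + l + 2) ≤ (n + i2) := by clear * - v65; omega
          have kk2016 : (j + k) ≤ (i2 + l2) := by clear * - v67; omega
          have r2017 : (2 * n + i + j) % 2 = 0 := by clear * - ev n1p n2p n3p; omega
          have r2018 : (n + i + i2 - 2 * k - l - 1) % 2 = 0 := by clear * - ev n1p n2p n3p; omega
          clear * - al s1 b c kk2009 kk2010 kk2011 kk2012 kk2013 kk2014 kk2015 kk2016 r2017 r2018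
          exact midP al (n + i + i2 - 2 * k - l - 1) (2 * n + i + j) (n) (2 * k + l - i2 + 2) (n + i + i2 + l2 - k + 1) (by omega) (fun t h1 h2 => (cE (qa s1 al 1 t ((n + i + j) - t) (by omega)) (sh al 1 ((n + i + j) - t) ((2 * n + i + j) - t) (by omega)))) (fun t h1 h2 => (qf (show Par W (2 * k + l - i2 + 2) (k + l + l2 + 2) (n + i + i2 - 2 * k - l - 1) from fun t h1 h2 => (cE (sh al (-1) t (t + (-n)) (by omega)) (cE (cE (pb c al (-1) (t + (-n)) (t + (i2 - k - l - 1)) (by omega)) (pb b al 0 (t + (i2 - k - l - 1)) (t + (i + i2 - 2 * k - l - 1)) (by omega))) (sh al 1 (t + (i + i2 - 2 * k - l - 1)) (t + (n + i + i2 - 2 * k - l - 1)) (by omega))))) al 0 t (t + (n + i + i2 - 2 * k - l - 1)) (by omega)))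
        · have kk2019 : (2 * k + l + 2) ≤ (n + i + i2) := by clear * - b3 b4 v65 z117; omega
          have kk2020 : (n + 2 * j) ≤ (i + l + i2 + 2 * l2 + 1) := by clear * - b3 y2 ev n1p n2p n3p; omega
          have kk2021 : (4 * k + l + 1) ≤ (n + i + 3 * i2 + 2 * l2) := by clear * - b1 b3 v65 y20 z117; omega
          have kk2022 : (n + 2 * j + 2 * k) ≤ (i + l + 3 * i2 + 4 * l2 + 3) := by clear * - b3 b4 b7 v65 v67 y2; omega
          have kk2023 : (i2) ≤ (k) := by clear * - b3 b4 b5 b6 v65 y21 z117; linarith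
          have kk2024 : (i2 + l2) ≤ (k + l) := by clear * - y20; omega
          have kk2025 : (2 * k + l + 2) ≤ (n + i2) := by clear * - v65; omega
          have kk2026 : (i2 + l2) ≤ (j + k) := by clear * - v67; omega
          have r2027 : (2 * n + i + j) % 2 = 0 := by clear * - ev n1p n2p n3p; omega
          have r2028 : (n + i + i2 - 2 * k - l - 1) % 2 = 0 := by clear * - ev n1p n2p n3p; omega
          clear * - al s1 b c kk2019 kk2020 kk2021 kk2022 kk2023 kk2024 kk2025 kk2026 r2027 r2028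
          exact midP al (n + i + i2 - 2 * k - l - 1) (2 * n + i + j) (n + j + k - i2 - l2) (2 * k + l - i2 + 2) (n + i + i2 + l2 - k + 1) (by omega) (fun t h1 h2 => (cE (qa s1 al 1 t ((n + i + j) - t) (by omega)) (sh al 1 ((n + i + j) - t) ((2 * n + i + j) - t) (by omega)))) (fun t h1 h2 => (qf (show Par W (2 * k + l - i2 + 2) (k + l + l2 + 2) (n + i + i2 - 2 * k - l - 1) from fun t h1 h2 => (cE (sh al (-1) t (t + (-n)) (by omega)) (cE (cE (pb c al (-1) (t + (-n)) (t + (i2 - k - l - 1)) (by omega)) (pb b al 0 (t + (i2 - k - l - 1)) (t + (i + i2 - 2 * k - l - 1)) (by omega))) (sh al 1 (t + (i + i2 - 2 * k - l - 1)) (t + (n + i + i2 - 2 * k - l - 1)) (by omega))))) al 0 t (t + (n + i + i2 - 2 * k - l - 1)) (by omega)))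
  · by_cases z118 : (k + l + i3 + 1) ≤ (2 * i2 + l2)
    · by_cases z119 : (n + 5 * i2 + l2) ≤ (i + 3 * k + 4 * l + i3 + 1)
      · by_cases z120 : (i + k + 2 * l + l2 + i3 + 5) ≤ (n + 2 * Q + i2)
        · by_cases z121 : (i + 2 * i2 + l2) ≤ (j + k + l + i3)
          · by_cases z122 : (j + l + i3 + 1) ≤ (i + i2 + l2)
            · have kk2029 : (0) ≤ (i) := by clear * - b0 b5 y17 z116; omega
              have kk2030 : (i + 1) ≤ (j) := by clear * - z118 z121; omega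
              have kk2031 : (k + l + i3 + 1) ≤ (2 * i2 + l2) := by clear * - z118; omega
              have kk2032 : (i + 2 * i2 + l2) ≤ (j + k + l + i3) := by clear * - z121; omega
              have kk2033 : (j + l + i3 + 1) ≤ (i + i2 + l2) := by clear * - z122; omega
              have kk2034 : (k + i2 + l2 + 1) ≤ (n + i3) := by clear * - y17; omega
              have kk2035 : (i2 + l2) ≤ (k + l) := by clear * - b5 z118 z119 z120; omega
              have kk2036 : (n) ≤ (k + l + l2 + 2) := by clear * - b3 b4 b5 b6 y17 z116; omega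
              have kk2037 : (0) ≤ (i + 1) := by clear * - b0 b5 y17 z116; omega
              have kk2038 : (j) ≤ (i + l + 1) := by clear * - b5 b6 y17 z116 z118 z122; omega
              have r2039 : (j - i) % 2 = 0 := by clear * - ev n1p n2p n3p; omega
              have r2040 : (2 * i2 + l2 - k - l - i3) % 2 = 0 := by clear * - ev n1p n2p n3p; omega
              clear * - al a1 b c D2 n1 kk2029 kk2030 kk2031 kk2032 kk2033 kk2034 kk2035 kk2036 kk2037 kk2038 r2039 r2040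
              exact n1.f1 (rEE (cE (qf a1 al 0 (i) (i + k - j) (by omega)) (sh al (-1) (i + k - j) (i + k - n - j) (by omega))) (sh al (-1) (k) (k - n) (by omega)) (rotL (j - i) (2 * i2 + l2 - k - l - i3) (i + k - n - j) (k - n) (by omega) (fun t h1 h2 => (cE (cE (pb a1 al (-1) t (t + (n + j - k)) (by omega)) (qf b al 0 (t + (n + j - k)) (t + (n + j - i)) (by omega))) (sh al (-1) (t + (n + j - i)) (t + (j - i)) (by omega)))) (fun t h1 h2 => (cE (qf (show Par W (k + l + i3 - i2 - l2 + 1) (n + i3 - i2 - l2 - 1) (2 * i2 + l2 - k - l - i3) from fun t h1 h2 => (cE (sh al (-1) t (t + (-n)) (by omega)) (cE (pb D2 al (-1) (t + (-n)) (t + (i2 + l2 - i3 + 1)) (by omega)) (pb c al 0 (t + (i2 + l2 - i3 + 1)) (t + (2 * i2 + l2 - k - l - i3)) (by omega))))) al (-1) t (t + (n + 2 * i2 + l2 - k - l - i3)) (by omega)) (sh al (-1) (t + (n + 2 * i2 + l2 - k - l - i3)) (t + (2 * i2 + l2 - k - l - i3)) (by omega))))))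
            · have kk2041 : (j + l + l2 + 4) ≤ (n + i3) := by clear * - b0 b5 y17 y2; omega
              have kk2042 : (n) ≤ (j + l + l2 + i3 + 3) := by clear * - b0 b3 b5 y17 y2 z116 z122; linarith
              have kk2043 : (n) ≤ (j + l + l2 + 3) := by clear * - b0 b3 y2 y21 z122; omega
              have kk2044 : (l + l2 + i3 + 3) ≤ (n) := by clear * - b5 b6 y17 y21 z118; omega
              have r2045 : (j + l + l2 + i3 - 3 * n + 2) % 2 = 0 := by clear * - ev n1p n2p n3p; omega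
              clear * - al a1 u1 kk2041 kk2042 kk2043 kk2044 r2045
              obtain ⟨t, ht⟩ : ∃ t, 2 * t = (j + l + l2 + i3 - 3 * n + 2) := ⟨(j + l + l2 + i3 - 3 * n + 2) / 2, by omega⟩
              exact al.ninv t (cE (cI (qf a1 al (-1) t (t + (n + k - j)) (by omega)) (ab u1 al 0 (t + (n + k - j)) ((j + l + l2 + i3 - 2 * n + 2) - t) (by omega))) (sh al (-1) ((j + l + l2 + i3 - 2 * n + 2) - t) t (by omega)))
          · by_cases z123 : (n + 2 * i + j + i2 + 1) ≤ (2 * Q + 2 * k + l)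
            · have kk2046 : (j + 2 * k + l + 3) ≤ (n + 2 * i + i2) := by clear * - b0 b5 y17 z116 z121; omega
              have kk2047 : (n + 2 * i + j + i2) ≤ (2 * Q + 2 * k + l) := by clear * - z123; omega
              have kk2048 : (i) ≤ (j) := by clear * - b0 b5 b7 z116; omega
              have kk2049 : (n + i) ≤ (k + l + l2 + 2) := by clear * - b3 b5 b6 b7 z116 z121; omega
              have kk2050 : (Q) ≤ (i + l + 1) := by clear * - b3 b4 b5 y17 z119 z120; omega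
              have kk2051 : (Q + k + l + 1) ≤ (n + i + j) := by clear * - b0 b3 b5 b7 y17 y21 z116; linarith
              have r2052 : (n + j + i2 - l - 1) % 2 = 0 := by clear * - ev n1p n2p n3p; omega
              clear * - al s2 b c kk2046 kk2047 kk2048 kk2049 kk2050 kk2051 r2052
              obtain ⟨t, ht⟩ : ∃ t, 2 * t = (n + j + i2 - l - 1) := ⟨(n + j + i2 - l - 1) / 2, by omega⟩
              exact al.ninv t (cE (cI (pb b al 0 t (t + (i - k)) (by omega)) (qa s2 al 0 (t + (i - k)) ((j + k) - t) (by omega))) (pb c al (-1) ((j + k) - t) t (by omega)))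
            · have kk2053 : (n + i2) ≤ (j + 2 * k + l + 1) := by clear * - b5 b6 z116 z123; omega
              have kk2054 : (j + 2 * k + l + 2) ≤ (n + 2 * i + i2) := by clear * - b5 b6 y17 z116 z121 z123; omega
              have kk2055 : (k + l + 2) ≤ (n) := by clear * - b5 b7 y18 z121 z123; omega
              have kk2056 : (j) ≤ (l) := by clear * - b5 b6 b7 y17 z116 z119 z121 z123; linarith
              have kk2057 : (n + i) ≤ (k + l + l2 + 2) := by clear * - b3 b5 b6 b7 z116 z121; omega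
              have kk2058 : (i) ≤ (j) := by clear * - b5 b6 b7 z116 z121 z123; omega
              have r2059 : (n + j + i2 - l - 1) % 2 = 0 := by clear * - ev n1p n2p n3p; omega
              clear * - al s1 b c kk2053 kk2054 kk2055 kk2056 kk2057 kk2058 r2059
              obtain ⟨t, ht⟩ : ∃ t, 2 * t = (n + j + i2 - l - 1) := ⟨(n + j + i2 - l - 1) / 2, by omega⟩
              exact al.ninv t (cE (cI (qf c al 0 t (t + (k + l - i2 + 1)) (by omega)) (qa s1 al 1 (t + (k + l - i2 + 1)) ((n + i + j + i2 - k - l - 1) - t) (by omega))) (qf b al 0 ((n + i + j + i2 - k - l - 1) - t) t (by omega)))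
        · by_cases z124 : (i + 2 * i2 + l2) ≤ (j + k + l + i3)
          · by_cases z125 : (j + l + i3 + 1) ≤ (i + i2 + l2)
            · have kk2060 : (0) ≤ (i) := by clear * - b4 y17 z120; omega
              have kk2061 : (i + 1) ≤ (j) := by clear * - z118 z124; omega
              have kk2062 : (k + l + i3 + 1) ≤ (2 * i2 + l2) := by clear * - z118; omega
              have kk2063 : (i + 2 * i2 + l2) ≤ (j + k + l + i3) := by clear * - z124; omega
              have kk2064 : (j + l + i3 + 1) ≤ (i + i2 + l2) := by clear * - z125; omega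
              have kk2065 : (k + i2 + l2 + 1) ≤ (n + i3) := by clear * - y17; omega
              have kk2066 : (i2 + l2) ≤ (k + l) := by clear * - y20; omega
              have kk2067 : (n) ≤ (k + l + l2 + 2) := by clear * - b4 b5 b6 y17 z116 z118 z120; linarith
              have kk2068 : (0) ≤ (i + 1) := by clear * - b4 y17 z120; omega
              have kk2069 : (j) ≤ (i + l + 1) := by clear * - b5 b6 y17 z116 z118 z125; omega
              have r2070 : (j - i) % 2 = 0 := by clear * - ev n1p n2p n3p; omega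
              have r2071 : (2 * i2 + l2 - k - l - i3) % 2 = 0 := by clear * - ev n1p n2p n3p; omega
              clear * - al a1 b c D2 n1 kk2060 kk2061 kk2062 kk2063 kk2064 kk2065 kk2066 kk2067 kk2068 kk2069 r2070 r2071
              exact n1.f1 (rEE (cE (qf a1 al 0 (i) (i + k - j) (by omega)) (sh al (-1) (i + k - j) (i + k - n - j) (by omega))) (sh al (-1) (k) (k - n) (by omega)) (rotL (j - i) (2 * i2 + l2 - k - l - i3) (i + k - n - j) (k - n) (by omega) (fun t h1 h2 => (cE (cE (pb a1 al (-1) t (t + (n + j - k)) (by omega)) (qf b al 0 (t + (n + j - k)) (t + (n + j - i)) (by omega))) (sh al (-1) (t + (n + j - i)) (t + (j - i)) (by omega)))) (fun t h1 h2 => (cE (qf (show Par W (k + l + i3 - i2 - l2 + 1) (n + i3 - i2 - l2 - 1) (2 * i2 + l2 - k - l - i3) from fun t h1 h2 => (cE (sh al (-1) t (t + (-n)) (by omega)) (cE (pb D2 al (-1) (t + (-n)) (t + (i2 + l2 - i3 + 1)) (by omega)) (pb c al 0 (t + (i2 + l2 - i3 + 1)) (t + (2 *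 i2 + l2 - k - l - i3)) (by omega))))) al (-1) t (t + (n + 2 * i2 + l2 - k - l - i3)) (by omega)) (sh al (-1) (t + (n + 2 * i2 + l2 - k - l - i3)) (t + (2 * i2 + l2 - k - l - i3)) (by omega))))))
            · have kk2072 : (j + l + l2 + 4) ≤ (n + i3) := by clear * - b0 b5 y17 y2; omega
              have kk2073 : (n) ≤ (j + l + l2 + i3 + 3) := by clear * - b1 b4 y17 z120 z125; omega
              have kk2074 : (n) ≤ (j + l + l2 + 3) := by clear * - b0 y2 y21 z118 z120 z125; omega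
              have kk2075 : (l + l2 + i3 + 3) ≤ (n) := by clear * - b5 b6 y17 y21 z118; omega
              have r2076 : (j + l + l2 + i3 - 3 * n + 2) % 2 = 0 := by clear * - ev n1p n2p n3p; omega
              clear * - al a1 u1 kk2072 kk2073 kk2074 kk2075 r2076
              obtain ⟨t, ht⟩ : ∃ t, 2 * t = (j + l + l2 + i3 - 3 * n + 2) := ⟨(j + l + l2 + i3 - 3 * n + 2) / 2, by omega⟩
              exact al.ninv t (cE (cI (qf a1 al (-1) t (t + (n + k - j)) (by omega)) (ab u1 al 0 (t + (n + k - j)) ((j + l + l2 + i3 - 2 * n + 2) - t) (by omega))) (sh al (-1) ((j + l + l2 + i3 - 2 * n + 2) - t) t (by omega)))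
          · have kk2077 : (j + k + l + i3 + 1) ≤ (i + 2 * i2 + l2) := by clear * - z124; omega
            have kk2078 : (i + j + 2 * i2 + l2 + 2) ≤ (2 * Q + k + l + i3) := by clear * - b5 b6 y17 z116 z124; omega
            have kk2079 : (j + k + l + i3 + 2) ≤ (i + 2 * i2 + l2) := by clear * - z124 ev n1p n2p n3p; omega
            have kk2080 : (i3 + 1) ≤ (Q) := by clear * - b4 b7 z119 z120 z124; omega
            have kk2081 : (k + i2 + l2 + 1) ≤ (n + i3) := by clear * - y17; omega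
            have kk2082 : (i2) ≤ (k) := by clear * - b0 b5 b7 z119 z124; omega
            have kk2083 : (i2 + l2) ≤ (k + l) := by clear * - b4 b5 b7 z119 z124; omega
            have kk2084 : (Q + 2 * i2 + l2) ≤ (2 * k + l + i3 + 1) := by clear * - b4 b5 b6 y17 y21 z120; omega
            have kk2085 : (i2) ≤ (l + i3 + 1) := by clear * - b4 b5 b6 y17 z116 z118 z120; linarith
            have kk2086 : (k + l + i3) ≤ (2 * i2 + l2) := by clear * - z118; omega
            have r2087 : (i + j) % 2 = 0 := by clear * - ev n1p n2p n3p; omega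
            have r2088 : (i + 2 * i2 + l2 - j - k - l - i3) % 2 = 0 := by clear * - ev n1p n2p n3p; omega
            clear * - al a2 s2 b c D2 kk2077 kk2078 kk2079 kk2080 kk2081 kk2082 kk2083 kk2084 kk2085 kk2086 r2087 r2088
            exact midP al (i + 2 * i2 + l2 - j - k - l - i3) (i + j) (j + 1) (j + k + l + i3 - 2 * i2 - l2 + 1) (i + 2 * i2 + l2 - k - l - i3) (by omega) (fun t h1 h2 => (qa s2 al 0 t ((i + j) - t) (by omega))) (fun t h1 h2 => (cE (cE (pb (show Par W (Q + i2 + l2 - i3 + 1) (k + i2 + l2 - i3 + 1) (n + j + i3 - k - i2 - l2 - 1) from fun t h1 h2 => (cE (sh al (-1) t (t + (-n)) (by omega)) (cE (cE (qf D2 al (-1) (t + (-n)) (t + (i3 - i2 - l2 - 1)) (by omega)) (pb a2 al 0 (t + (i3 - i2 - l2 - 1)) (t + (j + i3 - k - i2 - l2 - 1)) (by omega))) (sh al 1 (t + (j + i3 - k - i2 - l2 - 1)) (t + (n + j + i3 - k - i2 - l2 - 1)) (by omega))))) al (-1) t (t + (k + i2 + l2 - j - i3 + 1)) (by omega)) (qf (show Par W (2 *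 k + l - i2 + 2) (k + l + l2 + 2) (n + i + i2 - 2 * k - l - 1) from fun t h1 h2 => (cE (sh al (-1) t (t + (-n)) (by omega)) (cE (cE (pb c al (-1) (t + (-n)) (t + (i2 - k - l - 1)) (by omega)) (pb b al 0 (t + (i2 - k - l - 1)) (t + (i + i2 - 2 * k - l - 1)) (by omega))) (sh al 1 (t + (i + i2 - 2 * k - l - 1)) (t + (n + i + i2 - 2 * k - l - 1)) (by omega))))) al 0 (t + (k + i2 + l2 - j - i3 + 1)) (t + (n + i + 2 * i2 + l2 - j - k - l - i3)) (by omega))) (sh al (-1) (t + (n + i + 2 * i2 + l2 - j - k - l - i3)) (t + (i + 2 * i2 + l2 - j - k - l - i3)) (by omega))))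
      · by_cases z126 : (i + i2 + l2 + i3 + 3) ≤ (2 * Q + k)
        · have kk2089 : (3 * k + 2 * l + l2 + 5) ≤ (2 * n + i + i2 + i3) := by clear * - b0 b5 y17 z116 z119; omega
          have kk2090 : (i + i2 + l2 + i3 + 2) ≤ (2 * Q + k) := by clear * - z126; omega
          have kk2091 : (i2) ≤ (k) := by clear * - b0 b3 b5 b6 y17 y21 z116; linarith
          have kk2092 : (n + i) ≤ (k + l + l2 + 2) := by clear * - b2 b3 b5 b6 b7 y17 z116 z119 z126; linarith
          have kk2093 : (Q + k) ≤ (i + i2 + l2 + 1) := by clear * - b3 b4 y17; omega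
          have kk2094 : (Q) ≤ (i + l + 1) := by clear * - b0 b3 b5 y17 z116 z119 z126; linarith
          have r2095 : (3 * k + 2 * l + l2 + i3 - i - i2 + 3) % 2 = 0 := by clear * - ev n1p n2p n3p; omega
          clear * - al b c u2 kk2089 kk2090 kk2091 kk2092 kk2093 kk2094 r2095
          obtain ⟨t, ht⟩ : ∃ t, 2 * t = (3 * k + 2 * l + l2 + i3 - i - i2 + 3) := ⟨(3 * k + 2 * l + l2 + i3 - i - i2 + 3) / 2, by omega⟩
          exact al.ninv t (cE (cI (cE (pb c al 0 t (t + (i2 - k - l - 1)) (by omega)) (pb b al 0 (t + (i2 - k - l - 1)) (t + (i + i2 - 2 * k - l - 1)) (by omega))) (qa u2 al 0 (t + (i + i2 - 2 * k - l - 1)) ((3 * k + 2 * l + l2 + i3 - n - i - i2 + 3) - t) (by omega))) (sh al 1 ((3 * k + 2 * l + l2 + i3 - n - i - i2 + 3) - t) t (by omega)))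
        · have kk2096 : (3 * k + 2 * l + l2 + 5) ≤ (2 * n + i + i2 + i3) := by clear * - b4 y17 z126; omega
          have kk2097 : (2 * n + i + i2) ≤ (3 * k + 2 * l + l2 + i3 + 4) := by clear * - b5 b6 z116 z126; omega
          have kk2098 : (i2) ≤ (k) := by clear * - b6 y20 y21 z126; omega
          have kk2099 : (i2 + l2) ≤ (k + l) := by clear * - y20; omega
          have kk2100 : (n + i) ≤ (k + l + l2 + 2) := by clear * - b2 b3 b5 b6 b7 z116 z118 z126; linarith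
          have kk2101 : (2 * k + l + i3 + 2) ≤ (n + i + i2) := by clear * - y17 y21 z118; omega
          have r2102 : (2 * n + 3 * k + 2 * l + l2 + i3 - i - i2 + 3) % 2 = 0 := by clear * - ev n1p n2p n3p; omega
          clear * - al b c u1 kk2096 kk2097 kk2098 kk2099 kk2100 kk2101 r2102
          obtain ⟨t, ht⟩ : ∃ t, 2 * t = (2 * n + 3 * k + 2 * l + l2 + i3 - i - i2 + 3) := ⟨(2 * n + 3 * k + 2 * l + l2 + i3 - i - i2 + 3) / 2, by omega⟩
          exact al.ninv t (cE (cI (qf (show Par W (2 * k + l - i2 + 2) (k + l + l2 + 2) (n + i + i2 - 2 * k - l - 1) from fun t h1 h2 => (cE (sh al (-1) t (t + (-n)) (by omega)) (cE (cE (pb c al (-1) (t + (-n)) (t + (i2 - k - l - 1)) (by omega)) (pb b al 0 (t + (i2 - k - l - 1)) (t + (i + i2 - 2 * k - l - 1)) (by omega))) (sh al 1 (t + (i + i2 - 2 * k - l - 1)) (t + (n + i + i2 - 2 * k - l - 1)) (by omega))))) al 1 t (t + (i + i2 - 2 * k - l - 1)) (by omega)) (ab u1 al 1 (t + (i + i2 - 2 *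 k - l - 1)) ((3 * k + 2 * l + l2 + i3 - i - i2 + 3) - t) (by omega))) (sh al 2 ((3 * k + 2 * l + l2 + i3 - i - i2 + 3) - t) t (by omega)))
    · by_cases v68 : (n + i2) ≤ (2 * k + l + 2)
      · by_cases v69 : (n + j) ≤ (k + l + l2 + 2)
        · have kk2103 : (2 * k + l + 2) ≤ (n + i + i2) := by clear * - b3 b4 y17; omega
          have kk2104 : (2 * k + l + 3) ≤ (n + i + i2) := by clear * - b3 b4 y17; omega
          have kk2105 : (6 * k + 3 * l + 5) ≤ (3 * n + i + 2 * j + 3 * i2) := by clear * - b3 b4 b7 v68 y17; omega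
          have kk2106 : (4 * k + l + 1) ≤ (n + i + 3 * i2 + 2 * l2) := by clear * - b3 b4 b7 v68 v69 y17; omega
          have kk2107 : (i2) ≤ (k) := by clear * - y19 y21 z118; omega
          have kk2108 : (i2 + l2) ≤ (k + l) := by clear * - y20; omega
          have kk2109 : (n + i2) ≤ (2 * k + l + 2) := by clear * - v68; omega
          have kk2110 : (n + j) ≤ (k + l + l2 + 2) := by clear * - v69; omega
          have r2111 : (2 * n + i + j) % 2 = 0 := by clear * - ev n1p n2p n3p; omega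
          have r2112 : (n + i + i2 - 2 * k - l - 1) % 2 = 0 := by clear * - ev n1p n2p n3p; omega
          clear * - al s1 b c kk2103 kk2104 kk2105 kk2106 kk2107 kk2108 kk2109 kk2110 r2111 r2112
          exact midP al (n + i + i2 - 2 * k - l - 1) (2 * n + i + j) (2 * k + l - i2 + 2) (2 * k + l - i2 + 2) (n + i + i2 + l2 - k + 1) (by omega) (fun t h1 h2 => (cE (qa s1 al 1 t ((n + i + j) - t) (by omega)) (sh al 1 ((n + i + j) - t) ((2 * n + i + j) - t) (by omega)))) (fun t h1 h2 => (qf (show Par W (2 * k + l - i2 + 2) (k + l + l2 + 2) (n + i + i2 - 2 * k - l - 1) from fun t h1 h2 => (cE (sh al (-1) t (t + (-n)) (by omega)) (cE (cE (pb c al (-1) (t + (-n)) (t + (i2 - k - l - 1)) (by omega)) (pb b al 0 (t + (i2 - k - l - 1)) (t + (i + i2 - 2 * k - l - 1)) (by omega))) (sh al 1 (t + (i + i2 - 2 * k - l - 1)) (t + (n + i + i2 - 2 * k - l - 1)) (by omega))))) al 0 t (t + (n + i + i2 - 2 * k - l - 1)) (by omega)))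
        · have kk2113 : (2 * k + l + 2) ≤ (n + i + i2) := by clear * - b3 b4 y17; omega
          have kk2114 : (n + 2 * j) ≤ (i + l + i2 + 2 * l2 + 1) := by clear * - b3 y2 ev n1p n2p n3p; omega
          have kk2115 : (4 * k + l + 1) ≤ (n + i + 3 * i2 + 2 * l2) := by clear * - b1 b2 b3 b4 v68 v69 y17 z116; linarith
          have kk2116 : (n + 2 * j + 2 * k) ≤ (i + l + 3 * i2 + 4 * l2 + 3) := by clear * - b1 b2 b3 b4 v68 y17 z116; linarith
          have kk2117 : (i2) ≤ (k) := by clear * - y19 y21 z118; omega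
          have kk2118 : (i2 + l2) ≤ (k + l) := by clear * - y20; omega
          have kk2119 : (k + l + l2 + 2) ≤ (n + j) := by clear * - v69; omega
          have kk2120 : (i2 + l2) ≤ (j + k) := by clear * - v68 v69; omega
          have r2121 : (2 * n + i + j) % 2 = 0 := by clear * - ev n1p n2p n3p; omega
          have r2122 : (n + i + i2 - 2 * k - l - 1) % 2 = 0 := by clear * - ev n1p n2p n3p; omega
          clear * - al s1 b c kk2113 kk2114 kk2115 kk2116 kk2117 kk2118 kk2119 kk2120 r2121 r2122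
          exact midP al (n + i + i2 - 2 * k - l - 1) (2 * n + i + j) (n + j + k - i2 - l2) (2 * k + l - i2 + 2) (n + i + i2 + l2 - k + 1) (by omega) (fun t h1 h2 => (cE (qa s1 al 1 t ((n + i + j) - t) (by omega)) (sh al 1 ((n + i + j) - t) ((2 * n + i + j) - t) (by omega)))) (fun t h1 h2 => (qf (show Par W (2 * k + l - i2 + 2) (k + l + l2 + 2) (n + i + i2 - 2 * k - l - 1) from fun t h1 h2 => (cE (sh al (-1) t (t + (-n)) (by omega)) (cE (cE (pb c al (-1) (t + (-n)) (t + (i2 - k - l - 1)) (by omega)) (pb b al 0 (t + (i2 - k - l - 1)) (t + (i + i2 - 2 * k - l - 1)) (by omega))) (sh al 1 (t + (i + i2 - 2 * k - l - 1)) (t + (n + i + i2 - 2 * k - l - 1)) (by omega))))) al 0 t (t + (n + i + i2 - 2 * k - l - 1)) (by omega)))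
      · by_cases v70 : (j + k) ≤ (i2 + l2)
        · have kk2123 : (2 * k + l + 2) ≤ (n + i + i2) := by clear * - b3 b4 v68 z118; omega
          have kk2124 : (n + i2) ≤ (i + 2 * k + l + 1) := by clear * - b3 b4 z118; omega
          have kk2125 : (2 * k + l + 1) ≤ (n + i + 2 * j + i2) := by clear * - b3 b4 b7 v68 z118; omega
          have kk2126 : (n) ≤ (i + l + i2 + 2 * l2 + 3) := by clear * - b3 b4 b7 v68 v70 z118; omega
          have kk2127 : (i2) ≤ (k) := by clear * - b3 b4 b5 b6 v68 y21 z118; linarith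
          have kk2128 : (i2 + l2) ≤ (k + l) := by clear * - b5 b6 v68 y21 z116 z118; omega
          have kk2129 : (2 * k + l + 2) ≤ (n + i2) := by clear * - v68; omega
          have kk2130 : (j + k) ≤ (i2 + l2) := by clear * - v70; omega
          have r2131 : (2 * n + i + j) % 2 = 0 := by clear * - ev n1p n2p n3p; omega
          have r2132 : (n + i + i2 - 2 * k - l - 1) % 2 = 0 := by clear * - ev n1p n2p n3p; omega
          clear * - al s1 b c kk2123 kk2124 kk2125 kk2126 kk2127 kk2128 kk2129 kk2130 r2131 r2132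
          exact midP al (n + i + i2 - 2 * k - l - 1) (2 * n + i + j) (n) (2 * k + l - i2 + 2) (n + i + i2 + l2 - k + 1) (by omega) (fun t h1 h2 => (cE (qa s1 al 1 t ((n + i + j) - t) (by omega)) (sh al 1 ((n + i + j) - t) ((2 * n + i + j) - t) (by omega)))) (fun t h1 h2 => (qf (show Par W (2 * k + l - i2 + 2) (k + l + l2 + 2) (n + i + i2 - 2 * k - l - 1) from fun t h1 h2 => (cE (sh al (-1) t (t + (-n)) (by omega)) (cE (cE (pb c al (-1) (t + (-n)) (t + (i2 - k - l - 1)) (by omega)) (pb b al 0 (t + (i2 - k - l - 1)) (t + (i + i2 - 2 * k - l - 1)) (by omega))) (sh al 1 (t + (i + i2 - 2 * k - l - 1)) (t + (n + i + i2 - 2 * k - l - 1)) (by omega))))) al 0 t (t + (n + i + i2 - 2 * k - l - 1)) (by omega)))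
        · have kk2133 : (2 * k + l + 2) ≤ (n + i + i2) := by clear * - b3 b4 v68 z118; omega
          have kk2134 : (n + 2 * j) ≤ (i + l + i2 + 2 * l2 + 1) := by clear * - b3 y2 ev n1p n2p n3p; omega
          have kk2135 : (4 * k + l + 1) ≤ (n + i + 3 * i2 + 2 * l2) := by clear * - b3 b4 b5 b6 v68 z116 z118; linarith
          have kk2136 : (n + 2 * j + 2 * k) ≤ (i + l + 3 * i2 + 4 * l2 + 3) := by clear * - b1 b2 b3 b4 v68 z116 z118; linarith
          have kk2137 : (i2) ≤ (k) := by clear * - b0 b2 b3 b5 v68 v70 z116 z118; linarith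
          have kk2138 : (i2 + l2) ≤ (k + l) := by clear * - b2 b3 b4 v68 v70 z116 z118; linarith
          have kk2139 : (2 * k + l + 2) ≤ (n + i2) := by clear * - v68; omega
          have kk2140 : (i2 + l2) ≤ (j + k) := by clear * - v70; omega
          have r2141 : (2 * n + i + j) % 2 = 0 := by clear * - ev n1p n2p n3p; omega
          have r2142 : (n + i + i2 - 2 * k - l - 1) % 2 = 0 := by clear * - ev n1p n2p n3p; omega
          clear * - al s1 b c kk2133 kk2134 kk2135 kk2136 kk2137 kk2138 kk2139 kk2140 r2141 r2142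
          exact midP al (n + i + i2 - 2 * k - l - 1) (2 * n + i + j) (n + j + k - i2 - l2) (2 * k + l - i2 + 2) (n + i + i2 + l2 - k + 1) (by omega) (fun t h1 h2 => (cE (qa s1 al 1 t ((n + i + j) - t) (by omega)) (sh al 1 ((n + i + j) - t) ((2 * n + i + j) - t) (by omega)))) (fun t h1 h2 => (qf (show Par W (2 * k + l - i2 + 2) (k + l + l2 + 2) (n + i + i2 - 2 * k - l - 1) from fun t h1 h2 => (cE (sh al (-1) t (t + (-n)) (by omega)) (cE (cE (pb c al (-1) (t + (-n)) (t + (i2 - k - l - 1)) (by omega)) (pb b al 0 (t + (i2 - k - l - 1)) (t + (i + i2 - 2 * k - l - 1)) (by omega))) (sh al 1 (t + (i + i2 - 2 * k - l - 1)) (t + (n + i + i2 - 2 * k - l - 1)) (by omega))))) al 0 t (t + (n + i + i2 - 2 * k - l - 1)) (by omega)))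

theorem t1c_36 {W : ℤ → G} {n Q i j k l i2 l2 i3 : ℤ} (al : AL W n Q)
    (hy : (0) ≤ (i) ∧ (i) ≤ (j) ∧ (j + 1) ≤ (Q) ∧ (Q) ≤ (k) ∧ (k + 1) ≤ (n) ∧ (Q) ≤ (i + l + 1) ∧ (k + l + 2) ≤ (n) ∧ (Q) ≤ (i2) ∧ (i2) ≤ (i + l + 1) ∧ (Q) ≤ (i2 + l2 + 1) ∧ (i2 + l2 + 2) ≤ (n) ∧ (n) ≤ (k + l + l2 + 2) ∧ (k + l + l2 + 3) ≤ (n + Q) ∧ (0) ≤ (i3) ∧ (n + i3) ≤ (k + l + l2 + 2) ∧ (k + i2 + l2 + 2) ≤ (n + j + i3) ∧ (j + i3 + 1) ≤ (k) ∧ (k + i2 + l2 + 2) ≤ (n + i3) ∧ (i + 2 * i2 + 1) ≤ (2 * Q + k) ∧ (i + l + 1) ≤ (i2 + l2) ∧ (i2 + l2 + 1) ≤ (k + l) ∧ (i3 + 1) ≤ (i))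
    (a1 : Par W (0) (j) (k - j))
    (a2 : Par W (Q + j - k) (j) (k - j))
    (s1 : Ant W (0) (i) (i + j))
    (s2 : Ant W (j + 1) (Q) (i + j))
    (b : Par W (i + 1) (i + l + 1) (k - i))
    (tt : Ant W (Q) (i2) (i + l + i2 + 1))
    (c : Par W (i2 + 1) (i2 + l2 + 1) (k + l - i2 + 1))
    (u1 : Ant W (0) (i3) (k + l + l2 + i3 - n + 2))
    (u2 : Ant W (k + l + l2 - n + 3) (Q) (k + l + l2 + i3 - n + 2))
    (D1 : Par W (i3 + 1) (Q) (i2 + l2 - i3 + 1))
    (D2 : Par W (i2 + l2 + 2) (n) (i3 - i2 - l2 - 1))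
    {L : ℤ} (mx : ∀ a b g, 0 < g → g < n → Par W a b g → b - a ≤ L)
    (hL : L ≤ (n - j - 3) ∧ L ≤ (n + Q - k - 3) ∧ L ≤ (n - l - 3) ∧ L ≤ (n + i - k - 2) ∧ L ≤ (n - l2 - 3) ∧ L ≤ (n + i3 - Q - 2) ∧ L ≤ (i2 + l2 - 1) ∧ L ≤ (n + i2 - k - l - 3) ∧ L ≤ (Q + i2 + l2 - l - i3 - 3))
    (bd0 : Bd W n L (j) (i) (k))
    (bd2 : Bd W n L (k + l + l2 - n + 2) (i3) (i2 + l2 + 1))
    (n1 : Nd W (j) (i) (k))
    (n2 : Nd W (i + l + 1) (i2) (k + l + 1))
    (n3 : Nd W (k + l + l2 - n + 2) (i3) (i2 + l2 + 1))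
    (b0 : (2 * l + i3 + 3) ≤ (Q + i2 + l2))
    (b1 : (n + l + i3 + 1) ≤ (Q + 2 * i2 + 2 * l2))
    (b2 : (2 * i + j + 1) ≤ (k))
    (b3 : (n + 2 * Q) ≤ (i + l + i2 + 2 * l2 + 4))
    (b4 : (l + i3 + 3) ≤ (Q + i2))
    (b5 : (2 * Q + l2) ≤ (k + l + i3 + 1))
    (b6 : (2 * i + l + i2 + 3) ≤ (2 * Q + k))
    (b7 : (n + j + i3) ≤ (2 * i + k + i2 + l2 + 1)) : False := by
  have ev := al.ev
  obtain ⟨y0, y1, y2, y3, y4, y5, y6, y7, y8, y9, y10, y11, y12, y13, y14, y15, y16, y17, y18, y19, y20, y21⟩ := id hy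
  have n1p := And.intro n1.p1 n1.p2
  have n2p := And.intro n2.p1 n2.p2
  have n3p := And.intro n3.p1 n3.p2
  by_cases z112 : (n + 3 * j + k + i3) ≤ (2 * i + 3 * i2 + 3 * l2 + 1)
  · by_cases z113 : (3 * k + 2 * l + i3 + 3) ≤ (n + j + 3 * i2 + l2)
    · by_cases z114 : (j + 3 * k + 2 * l + i3 + 3) ≤ (n + 2 * i + 3 * i2 + l2)
      · by_cases z115 : (n + 2 * Q + 3 * i2 + l2) ≤ (j + 5 * k + 2 * l + i3 + 3)
        · by_cases v58 : (j + k) ≤ (i2 + l2)
          · by_cases v59 : (Q + i + 2 * i2 + l2) ≤ (j + 2 * k + l + i3 + 1)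
            · have kk1856 : (k + i2 + l2 + 2) ≤ (n + j + i3) := by clear * - y15; omega
              have kk1857 : (n + j + i3) ≤ (2 * i + k + i2 + l2 + 1) := by clear * - b7; omega
              have kk1858 : (2 * Q + j + i2 + l2 + 1) ≤ (n + 2 * i + k + i3) := by clear * - b3 b5 b6 b7 v59 y17 y21 z114; linarith
              have kk1859 : (j + 3 * k + 2 * l + i3 + 3) ≤ (n + 2 * i + 3 * i2 + l2) := by clear * - z114; omega
              have kk1860 : (i3 + 1) ≤ (Q) := by clear * - b4 y14 y17; omega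
              have kk1861 : (k + i2 + l2 + 1) ≤ (n + i3) := by clear * - y17; omega
              have kk1862 : (i2) ≤ (k) := by clear * - b3 b5 b6 b7 v59 y17 y21 z114; linarith
              have kk1863 : (i) ≤ (j) := by clear * - y1; omega
              have kk1864 : (j + k) ≤ (i2 + l2) := by clear * - v58; omega
              have kk1865 : (j) ≤ (l) := by clear * - v58 y20; omega
              have kk1866 : (Q + i + 2 * i2 + l2) ≤ (j + 2 * k + l + i3 + 1) := by clear * - v59; omega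
              have r1867 : (j + 2 * k + l - n - i2 + 1) % 2 = 0 := by clear * - ev n1p n2p n3p; omega
              have r1868 : (n + j + i3 - k - i2 - l2 - 1) % 2 = 0 := by clear * - ev n1p n2p n3p; omega
              clear * - al a2 s1 b c D2 kk1856 kk1857 kk1858 kk1859 kk1860 kk1861 kk1862 kk1863 kk1864 kk1865 kk1866 r1867 r1868
              exact midP al (n + j + i3 - k - i2 - l2 - 1) (j + 2 * k + l - n - i2 + 1) (j + 2 * k + l - n - i - i2 + 2) (Q + i2 + l2 - n - i3 + 1) (j) (by omega) (fun t h1 h2 => (cI (cE (pb c al (-1) t (t + (n + i2 - k - l - 1)) (by omega)) (pb b al 0 (t + (n + i2 - k - l - 1)) (t + (n + i + i2 - 2 * k - l - 1)) (by omega))) (ab s1 al 0 (t + (n + i + i2 - 2 * k - l - 1)) ((j + 2 * k + l - n - i2 + 1) - t) (by omega)))) (fun t h1 h2 => (cE (qf (show Par W (Q + i2 + l2 - i3 + 1) (k + i2 + l2 - i3 + 1) (n + j + i3 - k - i2 - l2 - 1) from fun t h1 h2 => (cE (sh al (-1) t (t + (-n)) (by omega)) (cE (cE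 (qf D2 al (-1) (t + (-n)) (t + (i3 - i2 - l2 - 1)) (by omega)) (pb a2 al 0 (t + (i3 - i2 - l2 - 1)) (t + (j + i3 - k - i2 - l2 - 1)) (by omega))) (sh al 1 (t + (j + i3 - k - i2 - l2 - 1)) (t + (n + j + i3 - k - i2 - l2 - 1)) (by omega))))) al (-1) t (t + (2 * n + j + i3 - k - i2 - l2 - 1)) (by omega)) (sh al (-1) (t + (2 * n + j + i3 - k - i2 - l2 - 1)) (t + (n + j + i3 - k - i2 - l2 - 1)) (by omega))))
            · have kk1869 : (k + i2 + l2 + 2) ≤ (n + j + i3) := by clear * - y15; omega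
              have kk1870 : (n + 2 * Q + 3 * i2 + l2) ≤ (j + 5 * k + 2 * l + i3 + 3) := by clear * - z115; omega
              have kk1871 : (4 * Q + 5 * i2 + 3 * l2) ≤ (n + j + 5 * k + 2 * l + 3 * i3 + 1) := by clear * - b3 b5 b6 v59 y17 y21 z113 z115; linarith
              have kk1872 : (2 * Q + i2 + l2 + 1) ≤ (n + j + k + i3) := by clear * - b3 b5 b6 v59 y17 y21 z113 z115; linarith
              have kk1873 : (i3 + 1) ≤ (Q) := by clear * - b4 y14 y17; omega
              have kk1874 : (k + i2 + l2 + 1) ≤ (n + i3) := by clear * - y17; omega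
              have kk1875 : (i2) ≤ (k) := by clear * - b3 b5 b6 v59 y17 y21 z114 z115; linarith
              have kk1876 : (i) ≤ (j) := by clear * - y1; omega
              have kk1877 : (j + k) ≤ (i2 + l2) := by clear * - v58; omega
              have kk1878 : (j) ≤ (l) := by clear * - v58 y20; omega
              have kk1879 : (j + 2 * k + l + i3 + 1) ≤ (Q + i + 2 * i2 + l2) := by clear * - v59; omega
              have r1880 : (j + 2 * k + l - n - i2 + 1) % 2 = 0 := by clear * - ev n1p n2p n3p; omega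
              have r1881 : (n + j + i3 - k - i2 - l2 - 1) % 2 = 0 := by clear * - ev n1p n2p n3p; omega
              clear * - al a2 s1 b c D2 kk1869 kk1870 kk1871 kk1872 kk1873 kk1874 kk1875 kk1876 kk1877 kk1878 kk1879 r1880 r1881
              exact midP al (n + j + i3 - k - i2 - l2 - 1) (j + 2 * k + l - n - i2 + 1) (Q + i2 + l2 - n - i3 + 1) (Q + i2 + l2 - n - i3 + 1) (j) (by omega) (fun t h1 h2 => (cI (cE (pb c al (-1) t (t + (n + i2 - k - l - 1)) (by omega)) (pb b al 0 (t + (n + i2 - k - l - 1)) (t + (n + i + i2 - 2 * k - l - 1)) (by omega))) (ab s1 al 0 (t + (n + i + i2 - 2 * k - l - 1)) ((j + 2 * k + l - n - i2 + 1) - t) (by omega)))) (fun t h1 h2 => (cE (qf (show Par W (Q + i2 + l2 - i3 + 1) (k + i2 + l2 - i3 + 1) (n + j + i3 - k - i2 - l2 - 1) from fun t h1 h2 => (cE (sh al (-1) t (t + (-n)) (by omega)) (cE (cE (qf D2 al (-1) (t + (-n)) (t + (i3 - i2 - l2 - 1)) (by omega)) (pb a2 al 0 (t + (i3 - i2 - l2 - 1)) (t +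 (j + i3 - k - i2 - l2 - 1)) (by omega))) (sh al 1 (t + (j + i3 - k - i2 - l2 - 1)) (t + (n + j + i3 - k - i2 - l2 - 1)) (by omega))))) al (-1) t (t + (2 * n + j + i3 - k - i2 - l2 - 1)) (by omega)) (sh al (-1) (t + (2 * n + j + i3 - k - i2 - l2 - 1)) (t + (n + j + i3 - k - i2 - l2 - 1)) (by omega))))
          · have kk1882 : (k + i2 + l2 + 2) ≤ (n + j + i3) := by clear * - y15; omega
            have kk1883 : (n + 3 * j + k + i3) ≤ (2 * i + 3 * i2 + 3 * l2 + 1) := by clear * - z112; omega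
            have kk1884 : (2 * Q + j + i2 + l2 + 1) ≤ (n + 2 * i + k + i3) := by clear * - b2 b3 v58 y17 z112 z114 z115; linarith
            have kk1885 : (j + 3 * k + 2 * l + i3 + 3) ≤ (n + 2 * i + 3 * i2 + l2) := by clear * - z114; omega
            have kk1886 : (i3 + 1) ≤ (Q) := by clear * - b4 y14 y17; omega
            have kk1887 : (k + i2 + l2 + 1) ≤ (n + i3) := by clear * - y17; omega
            have kk1888 : (i2) ≤ (k) := by clear * - b3 b5 b6 v58 y17 y21 z112 z114 z115; linarith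
            have kk1889 : (i) ≤ (j) := by clear * - y1; omega
            have kk1890 : (i2 + l2) ≤ (k + l) := by clear * - y20; omega
            have kk1891 : (i2 + l2) ≤ (j + k) := by clear * - v58; omega
            have kk1892 : (Q + i + 2 * i2 + l2) ≤ (j + 2 * k + l + i3 + 1) := by clear * - b2 b3 b5 b6 v58 y17 y20 z113 z115; linarith
            have r1893 : (j + 2 * k + l - n - i2 + 1) % 2 = 0 := by clear * - ev n1p n2p n3p; omega
            have r1894 : (n + j + i3 - k - i2 - l2 - 1) % 2 = 0 := by clear * - ev n1p n2p n3p; omega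
            clear * - al a2 s1 b c D2 kk1882 kk1883 kk1884 kk1885 kk1886 kk1887 kk1888 kk1889 kk1890 kk1891 kk1892 r1893 r1894
            exact midP al (n + j + i3 - k - i2 - l2 - 1) (j + 2 * k + l - n - i2 + 1) (j + 2 * k + l - n - i - i2 + 2) (Q + i2 + l2 - n - i3 + 1) (j) (by omega) (fun t h1 h2 => (cI (cE (pb c al (-1) t (t + (n + i2 - k - l - 1)) (by omega)) (pb b al 0 (t + (n + i2 - k - l - 1)) (t + (n + i + i2 - 2 * k - l - 1)) (by omega))) (ab s1 al 0 (t + (n + i + i2 - 2 * k - l - 1)) ((j + 2 * k + l - n - i2 + 1) - t) (by omega)))) (fun t h1 h2 => (cE (qf (show Par W (Q + i2 + l2 - i3 + 1) (k + i2 + l2 - i3 + 1) (n + j + i3 - k - i2 - l2 - 1) from fun t h1 h2 => (cE (sh al (-1) t (t + (-n)) (by omega)) (cE (cE (qf D2 al (-1) (t + (-n)) (t + (i3 - i2 - l2 - 1)) (by omega)) (pb a2 al 0 (t + (i3 - i2 - l2 - 1)) (t + (j + i3 - k - i2 - l2 - 1)) (by omega))) (sh al 1 (t + (j + i3 - k - i2 - l2 - 1)) (t + (n + j + i3 -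 k - i2 - l2 - 1)) (by omega))))) al (-1) t (t + (2 * n + j + i3 - k - i2 - l2 - 1)) (by omega)) (sh al (-1) (t + (2 * n + j + i3 - k - i2 - l2 - 1)) (t + (n + j + i3 - k - i2 - l2 - 1)) (by omega))))
        · by_cases v60 : (Q + 2 * i2 + l2) ≤ (i + k + 2 * l + i3 + 2)
          · have kk1895 : (k + i2 + l2 + 2) ≤ (n + j + i3) := by clear * - y15; omega
            have kk1896 : (n + 2 * Q + j + i3) ≤ (k + 3 * i2 + l2 + 1) := by clear * - b3 b5 b6 b7 y1 y21 z115; linarith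
            have kk1897 : (2 * i + k + 4 * l + i3 + 5) ≤ (n + j + 3 * i2 + l2) := by clear * - b0 b3 b5 b6 v60 y1 y17 y21 z115; linarith
            have kk1898 : (i3 + 1) ≤ (Q) := by clear * - b3 b4 b6 y15 y20 y21 z115; linarith
            have kk1899 : (k + i2 + l2 + 1) ≤ (n + i3) := by clear * - y17; omega
            have kk1900 : (2 * i2 + l2 + 1) ≤ (n + i3) := by clear * - b0 b3 b5 b6 v60 y17 y21; linarith
            have kk1901 : (i2) ≤ (i + l + 1) := by clear * - b3 b4 b6 v60 y15 y21 z115; linarith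
            have kk1902 : (i + l + 1) ≤ (Q + l2) := by clear * - b3 b6 b7 y17 z113; omega
            have kk1903 : (2 * i2 + l2 + 1) ≤ (n + j + i3) := by clear * - b3 b5 b6 b7 y15 y17 y21; linarith
            have kk1904 : (Q + 2 * i2 + l2) ≤ (i + k + 2 * l + i3 + 2) := by clear * - v60; omega
            have r1905 : (2 * n + i + k + 2 * l + i2 + l2 - i3 + 3) % 2 = 0 := by clear * - ev n1p n2p n3p; omega
            have r1906 : (n + j + i3 - k - i2 - l2 - 1) % 2 = 0 := by clear * - ev n1p n2p n3p; omega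
            clear * - al a2 tt c D2 kk1895 kk1896 kk1897 kk1898 kk1899 kk1900 kk1901 kk1902 kk1903 kk1904 r1905 r1906
            exact midP al (n + j + i3 - k - i2 - l2 - 1) (2 * n + i + k + 2 * l + i2 + l2 - i3 + 3) (n + i + k + 2 * l - i2 + 3) (n + Q + i2 + l2 - i3 + 1) (2 * n + j) (by omega) (fun t h1 h2 => (cE (cE (cI (pb c al 1 t (t + (i2 - n - k - l - 1)) (by omega)) (ab tt al 0 (t + (i2 - n - k - l - 1)) ((n + i + k + 2 * l + 2) - t) (by omega))) (pb D2 al 0 ((n + i + k + 2 * l + 2) - t) ((n + i + k + 2 * l + i2 + l2 - i3 + 3) - t) (by omega))) (sh al 1 ((n + i + k + 2 * l + i2 + l2 - i3 + 3) - t) ((2 * n + i + k + 2 * l + i2 + l2 - i3 + 3) - t) (by omega)))) (fun t h1 h2 => (cE (qf (show Par W (Q + i2 + l2 - i3 + 1) (k + i2 + l2 - i3 + 1) (n + j + i3 - k - i2 - l2 - 1) from fun t h1 h2 => (cE (sh al (-1) t (t + (-n)) (by omega)) (cE (cE (qf D2 al (-1) (t + (-n)) (t + (i3 - i2 - l2 - 1)) (by omega)) (pb a2 al 0 (t +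 (i3 - i2 - l2 - 1)) (t + (j + i3 - k - i2 - l2 - 1)) (by omega))) (sh al 1 (t + (j + i3 - k - i2 - l2 - 1)) (t + (n + j + i3 - k - i2 - l2 - 1)) (by omega))))) al 1 t (t + (j + i3 - k - i2 - l2 - 1)) (by omega)) (sh al 1 (t + (j + i3 - k - i2 - l2 - 1)) (t + (n + j + i3 - k - i2 - l2 - 1)) (by omega))))
          · have kk1907 : (k + i2 + l2 + 2) ≤ (n + j + i3) := by clear * - y15; omega
            have kk1908 : (n + 4 * Q + j + i2 + l2) ≤ (2 * i + 3 * k + 4 * l + i3 + 5) := by clear * - b5 b7 y14 y17; omega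
            have kk1909 : (2 * Q + i2 + l2 + 1) ≤ (n + j + k + i3) := by clear * - b3 b5 b6 y15 y21 z114; omega
            have kk1910 : (i3 + 1) ≤ (Q) := by clear * - b3 b6 b7 v60 y15 y20 y21 z115; linarith
            have kk1911 : (k + i2 + l2 + 1) ≤ (n + i3) := by clear * - y17; omega
            have kk1912 : (2 * i2 + l2 + 1) ≤ (n + i3) := by clear * - b3 b5 b6 b7 y15 y17 y21; linarith
            have kk1913 : (i2) ≤ (i + l + 1) := by clear * - b7 y14 y15 y17; omega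
            have kk1914 : (i + l + 1) ≤ (Q + l2) := by clear * - b3 b6 b7 y17 z113; omega
            have kk1915 : (2 * i2 + l2 + 1) ≤ (n + j + i3) := by clear * - b3 b5 b6 b7 y15 y17 y21; linarith
            have kk1916 : (i + k + 2 * l + i3 + 2) ≤ (Q + 2 * i2 + l2) := by clear * - v60; omega
            have r1917 : (2 * n + i + k + 2 * l + i2 + l2 - i3 + 3) % 2 = 0 := by clear * - ev n1p n2p n3p; omega
            have r1918 : (n + j + i3 - k - i2 - l2 - 1) % 2 = 0 := by clear * - ev n1p n2p n3p; omega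
            clear * - al a2 tt c D2 kk1907 kk1908 kk1909 kk1910 kk1911 kk1912 kk1913 kk1914 kk1915 kk1916 r1917 r1918
            exact midP al (n + j + i3 - k - i2 - l2 - 1) (2 * n + i + k + 2 * l + i2 + l2 - i3 + 3) (n + Q + i2 + l2 - i3 + 1) (n + Q + i2 + l2 - i3 + 1) (2 * n + j) (by omega) (fun t h1 h2 => (cE (cE (cI (pb c al 1 t (t + (i2 - n - k - l - 1)) (by omega)) (ab tt al 0 (t + (i2 - n - k - l - 1)) ((n + i + k + 2 * l + 2) - t) (by omega))) (pb D2 al 0 ((n + i + k + 2 * l + 2) - t) ((n + i + k + 2 * l + i2 + l2 - i3 + 3) - t) (by omega))) (sh al 1 ((n + i + k + 2 * l + i2 + l2 - i3 + 3) - t) ((2 * n + i + k + 2 * l + i2 + l2 - i3 + 3) - t) (by omega)))) (fun t h1 h2 => (cE (qf (show Par W (Q + i2 + l2 - i3 + 1) (k + i2 + l2 - i3 + 1) (n + j + i3 - k - i2 - l2 - 1) from fun t h1 h2 => (cE (sh al (-1) t (t + (-n)) (by omega)) (cE (cE (qf D2 al (-1) (t + (-n)) (t + (i3 - i2 - l2 - 1)) (by omega)) (pb a2 al 0 (t + (i3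 - i2 - l2 - 1)) (t + (j + i3 - k - i2 - l2 - 1)) (by omega))) (sh al 1 (t + (j + i3 - k - i2 - l2 - 1)) (t + (n + j + i3 - k - i2 - l2 - 1)) (by omega))))) al 1 t (t + (j + i3 - k - i2 - l2 - 1)) (by omega)) (sh al 1 (t + (j + i3 - k - i2 - l2 - 1)) (t + (n + j + i3 - k - i2 - l2 - 1)) (by omega))))
      · have kk1919 : (2 * i2 + l2 + 1) ≤ (k + l + i3) := by clear * - b7 y17 z114; omega
        have kk1920 : (k + l + i3 + 1) ≤ (n + 2 * i2 + l2) := by clear * - b5 y18 y21 z112 z113; omega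
        have kk1921 : (k + l + 2) ≤ (n) := by clear * - b0 b2 b3 b7 y17 y21 z113 z114; linarith
        have kk1922 : (i3) ≤ (i2) := by clear * - b4 y17 y21 y7 z112 z113 z114; linarith
        have kk1923 : (n + i3) ≤ (2 * i2 + 2 * l2 + 2) := by clear * - b7 z112 z113 z114; omega
        clear * - al c D2 kk1919 kk1920 kk1921 kk1922 kk1923
        exact al.ubP (k + l + i3 - 2 * i2 - l2) (by omega) (by omega) fun t h1 h2 => (cE (sh al 2 t (t + (2 * n)) (by omega)) (cE (cE (qf D2 al 1 (t + (2 * n)) (t + (n + i3 - i2 - l2 - 1)) (by omega)) (qf c al 0 (t + (n + i3 - i2 - l2 - 1)) (t + (n + k + l + i3 - 2 * i2 - l2)) (by omega))) (sh al (-1) (t + (n + k + l + i3 - 2 * i2 - l2)) (t + (k + l + i3 - 2 * i2 - l2)) (by omega))))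
    · have kk1924 : (2 * i2 + l2 + 1) ≤ (k + l + i3) := by clear * - b7 y1 y17 z113; omega
      have kk1925 : (k + l + i3 + 1) ≤ (n + 2 * i2 + l2) := by clear * - b2 b3 b4 y15 y21 z112 z113; linarith
      have kk1926 : (k + l + 2) ≤ (n) := by clear * - y17 y19 y21; omega
      have kk1927 : (i3) ≤ (i2) := by clear * - b4 y14 y17 y7; omega
      have kk1928 : (n + i3) ≤ (2 * i2 + 2 * l2 + 2) := by clear * - b1 y14 y17 y7; omega
      clear * - al c D2 kk1924 kk1925 kk1926 kk1927 kk1928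
      exact al.ubP (k + l + i3 - 2 * i2 - l2) (by omega) (by omega) fun t h1 h2 => (cE (sh al 2 t (t + (2 * n)) (by omega)) (cE (cE (qf D2 al 1 (t + (2 * n)) (t + (n + i3 - i2 - l2 - 1)) (by omega)) (qf c al 0 (t + (n + i3 - i2 - l2 - 1)) (t + (n + k + l + i3 - 2 * i2 - l2)) (by omega))) (sh al (-1) (t + (n + k + l + i3 - 2 * i2 - l2)) (t + (k + l + i3 - 2 * i2 - l2)) (by omega))))
  · by_cases v61 : (n + j) ≤ (k + l + l2 + 2)
    · have kk1929 : (2 * k + l + 2) ≤ (n + i + i2) := by clear * - b3 b4 y17; omega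
      have kk1930 : (2 * k + l + 3) ≤ (n + i + i2) := by clear * - b3 b4 y17; omega
      have kk1931 : (6 * k + 3 * l + 5) ≤ (3 * n + i + 2 * j + 3 * i2) := by clear * - b3 b4 y1 y17; omega
      have kk1932 : (4 * k + l + 1) ≤ (n + i + 3 * i2 + 2 * l2) := by clear * - b1 b3 b4 y14 y17 y7; omega
      have kk1933 : (i2) ≤ (k) := by clear * - b3 b4 b5 b6 b7 v61 y17 y21 z112; linarith
      have kk1934 : (i2 + l2) ≤ (k + l) := by clear * - y20; omega
      have kk1935 : (n + i2) ≤ (2 * k + l + 2) := by clear * - b7 v61 z112; omega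
      have kk1936 : (n + j) ≤ (k + l + l2 + 2) := by clear * - v61; omega
      have r1937 : (2 * n + i + j) % 2 = 0 := by clear * - ev n1p n2p n3p; omega
      have r1938 : (n + i + i2 - 2 * k - l - 1) % 2 = 0 := by clear * - ev n1p n2p n3p; omega
      clear * - al s1 b c kk1929 kk1930 kk1931 kk1932 kk1933 kk1934 kk1935 kk1936 r1937 r1938
      exact midP al (n + i + i2 - 2 * k - l - 1) (2 * n + i + j) (2 * k + l - i2 + 2) (2 * k + l - i2 + 2) (n + i + i2 + l2 - k + 1) (by omega) (fun t h1 h2 => (cE (qa s1 al 1 t ((n + i + j) - t) (by omega)) (sh al 1 ((n + i + j) - t) ((2 * n + i + j) - t) (by omega)))) (fun t h1 h2 => (cE (cE (pb c al 0 t (t + (i2 - k - l - 1)) (by omega)) (pb b al 0 (t + (i2 - k - l - 1)) (t + (i + i2 - 2 * k - l - 1)) (by omega))) (sh al 1 (t + (i + i2 - 2 * k - l - 1)) (t + (n + i + i2 - 2 * k - l - 1)) (by omega))))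
    · have kk1939 : (2 * k + l + 2) ≤ (n + i + i2) := by clear * - b3 b4 y17; omega
      have kk1940 : (n + 2 * j) ≤ (i + l + i2 + 2 * l2 + 1) := by clear * - b3 y2 ev n1p n2p n3p; omega
      have kk1941 : (4 * k + l + 1) ≤ (n + i + 3 * i2 + 2 * l2) := by clear * - b1 b3 b4 y14 y17 y7; omega
      have kk1942 : (n + 2 * j + 2 * k) ≤ (i + l + 3 * i2 + 4 * l2 + 3) := by clear * - b1 b3 y14 y17 y2 y7; omega
      have kk1943 : (i2) ≤ (k) := by clear * - b3 b5 b6 b7 v61 y17 y20 y21; linarith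
      have kk1944 : (i2 + l2) ≤ (k + l) := by clear * - y20; omega
      have kk1945 : (k + l + l2 + 2) ≤ (n + j) := by clear * - v61; omega
      have kk1946 : (i2 + l2) ≤ (j + k) := by clear * - b7 z112; omega
      have r1947 : (2 * n + i + j) % 2 = 0 := by clear * - ev n1p n2p n3p; omega
      have r1948 : (n + i + i2 - 2 * k - l - 1) % 2 = 0 := by clear * - ev n1p n2p n3p; omega
      clear * - al s1 b c kk1939 kk1940 kk1941 kk1942 kk1943 kk1944 kk1945 kk1946 r1947 r1948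
      exact midP al (n + i + i2 - 2 * k - l - 1) (2 * n + i + j) (n + j + k - i2 - l2) (2 * k + l - i2 + 2) (n + i + i2 + l2 - k + 1) (by omega) (fun t h1 h2 => (cE (qa s1 al 1 t ((n + i + j) - t) (by omega)) (sh al 1 ((n + i + j) - t) ((2 * n + i + j) - t) (by omega)))) (fun t h1 h2 => (cE (cE (pb c al 0 t (t + (i2 - k - l - 1)) (by omega)) (pb b al 0 (t + (i2 - k - l - 1)) (t + (i + i2 - 2 * k - l - 1)) (by omega))) (sh al 1 (t + (i + i2 - 2 * k - l - 1)) (t + (n + i + i2 - 2 * k - l - 1)) (by omega))))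

theorem t1c_35 {W : ℤ → G} {n Q i j k l i2 l2 i3 : ℤ} (al : AL W n Q)
    (hy : (0) ≤ (i) ∧ (i) ≤ (j) ∧ (j + 1) ≤ (Q) ∧ (Q) ≤ (k) ∧ (k + 1) ≤ (n) ∧ (Q) ≤ (i + l + 1) ∧ (k + l + 2) ≤ (n) ∧ (Q) ≤ (i2) ∧ (i2) ≤ (i + l + 1) ∧ (Q) ≤ (i2 + l2 + 1) ∧ (i2 + l2 + 2) ≤ (n) ∧ (n) ≤ (k + l + l2 + 2) ∧ (k + l + l2 + 3) ≤ (n + Q) ∧ (0) ≤ (i3) ∧ (n + i3) ≤ (k + l + l2 + 2) ∧ (k + i2 + l2 + 2) ≤ (n + j + i3) ∧ (j + i3 + 1) ≤ (k) ∧ (k + i2 + l2 + 2) ≤ (n + i3) ∧ (i + 2 * i2 + 1) ≤ (2 * Q + k) ∧ (i + l + 1) ≤ (i2 + l2) ∧ (i2 + l2 + 1) ≤ (k + l) ∧ (i3 + 1) ≤ (i))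
    (a1 : Par W (0) (j) (k - j))
    (a2 : Par W (Q + j - k) (j) (k - j))
    (s1 : Ant W (0) (i) (i + j))
    (s2 : Ant W (j + 1) (Q) (i + j))
    (b : Par W (i + 1) (i + l + 1) (k - i))
    (tt : Ant W (Q) (i2) (i + l + i2 + 1))
    (c : Par W (i2 + 1) (i2 + l2 + 1) (k + l - i2 + 1))
    (u1 : Ant W (0) (i3) (k + l + l2 + i3 - n + 2))
    (u2 : Ant W (k + l + l2 - n + 3) (Q) (k + l + l2 + i3 - n + 2))
    (D1 : Par W (i3 + 1) (Q) (i2 + l2 - i3 + 1))
    (D2 : Par W (i2 + l2 + 2) (n) (i3 - i2 - l2 - 1))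
    {L : ℤ} (mx : ∀ a b g, 0 < g → g < n → Par W a b g → b - a ≤ L)
    (hL : L ≤ (n - j - 3) ∧ L ≤ (n + Q - k - 3) ∧ L ≤ (n - l - 3) ∧ L ≤ (n + i - k - 2) ∧ L ≤ (n - l2 - 3) ∧ L ≤ (n + i3 - Q - 2) ∧ L ≤ (i2 + l2 - 1) ∧ L ≤ (n + i2 - k - l - 3) ∧ L ≤ (Q + i2 + l2 - l - i3 - 3))
    (bd0 : Bd W n L (j) (i) (k))
    (bd2 : Bd W n L (k + l + l2 - n + 2) (i3) (i2 + l2 + 1))
    (n1 : Nd W (j) (i) (k))
    (n2 : Nd W (i + l + 1) (i2) (k + l + 1))
    (n3 : Nd W (k + l + l2 - n + 2) (i3) (i2 + l2 + 1))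
    (b0 : (2 * l + i3 + 3) ≤ (Q + i2 + l2))
    (b1 : (n + l + i3 + 1) ≤ (Q + 2 * i2 + 2 * l2))
    (b2 : (2 * i + j + 1) ≤ (k))
    (b3 : (n + 2 * Q) ≤ (i + l + i2 + 2 * l2 + 4))
    (b4 : (l + i3 + 3) ≤ (Q + i2))
    (b5 : (2 * Q + l2) ≤ (k + l + i3 + 1))
    (b6 : (2 * i + l + i2 + 3) ≤ (2 * Q + k)) : False := by
  have ev := al.ev
  obtain ⟨y0, y1, y2, y3, y4, y5, y6, y7, y8, y9, y10, y11, y12, y13, y14, y15, y16, y17, y18, y19, y20, y21⟩ := id hy
  have n1p := And.intro n1.p1 n1.p2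
  have n2p := And.intro n2.p1 n2.p2
  have n3p := And.intro n3.p1 n3.p2
  by_cases z111 : (n + j + i3) ≤ (2 * i + k + i2 + l2 + 1)
  · exact t1c_36 al hy a1 a2 s1 s2 b tt c u1 u2 D1 D2 mx hL bd0 bd2 n1 n2 n3 (by clear * - b0; omega) (by clear * - b1; omega) (by clear * - b2; omega) (by clear * - b3; omega) (by clear * - b4; omega) (by clear * - b5; omega) (by clear * - b6; omega) (by clear * - z111; omega)
  · exact t1c_37 al hy a1 a2 s1 s2 b tt c u1 u2 D1 D2 mx hL bd0 bd2 n1 n2 n3 (by clear * - b0; omega) (by clear * - b1; omega) (by clear * - b2; omega) (by clear * - b3; omega) (by clear * - b4; omega) (by clear * - b5; omega) (by clear * - b6; omega) (by clear * - z111; omega)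

theorem t1c_34 {W : ℤ → G} {n Q i j k l i2 l2 i3 : ℤ} (al : AL W n Q)
    (hy : (0) ≤ (i) ∧ (i) ≤ (j) ∧ (j + 1) ≤ (Q) ∧ (Q) ≤ (k) ∧ (k + 1) ≤ (n) ∧ (Q) ≤ (i + l + 1) ∧ (k + l + 2) ≤ (n) ∧ (Q) ≤ (i2) ∧ (i2) ≤ (i + l + 1) ∧ (Q) ≤ (i2 + l2 + 1) ∧ (i2 + l2 + 2) ≤ (n) ∧ (n) ≤ (k + l + l2 + 2) ∧ (k + l + l2 + 3) ≤ (n + Q) ∧ (0) ≤ (i3) ∧ (n + i3) ≤ (k + l + l2 + 2) ∧ (k + i2 + l2 + 2) ≤ (n + j + i3) ∧ (j + i3 + 1) ≤ (k) ∧ (k + i2 + l2 + 2) ≤ (n + i3) ∧ (i + 2 * i2 + 1) ≤ (2 * Q + k) ∧ (i + l + 1) ≤ (i2 + l2) ∧ (i2 + l2 + 1) ≤ (k + l) ∧ (i3 + 1) ≤ (i))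
    (a1 : Par W (0) (j) (k - j))
    (a2 : Par W (Q + j - k) (j) (k - j))
    (s1 : Ant W (0) (i) (i + j))
    (s2 : Ant W (j + 1) (Q) (i + j))
    (b : Par W (i + 1) (i + l + 1) (k - i))
    (tt : Ant W (Q) (i2) (i + l + i2 + 1))
    (c : Par W (i2 + 1) (i2 + l2 + 1) (k + l - i2 + 1))
    (u1 : Ant W (0) (i3) (k + l + l2 + i3 - n + 2))
    (u2 : Ant W (k + l + l2 - n + 3) (Q) (k + l + l2 + i3 - n + 2))
    (D1 : Par W (i3 + 1) (Q) (i2 + l2 - i3 + 1))
    (D2 : Par W (i2 + l2 + 2) (n) (i3 - i2 - l2 - 1))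
    {L : ℤ} (mx : ∀ a b g, 0 < g → g < n → Par W a b g → b - a ≤ L)
    (hL : L ≤ (n - j - 3) ∧ L ≤ (n + Q - k - 3) ∧ L ≤ (n - l - 3) ∧ L ≤ (n + i - k - 2) ∧ L ≤ (n - l2 - 3) ∧ L ≤ (n + i3 - Q - 2) ∧ L ≤ (i2 + l2 - 1) ∧ L ≤ (n + i2 - k - l - 3) ∧ L ≤ (Q + i2 + l2 - l - i3 - 3))
    (bd0 : Bd W n L (j) (i) (k))
    (bd2 : Bd W n L (k + l + l2 - n + 2) (i3) (i2 + l2 + 1))
    (n1 : Nd W (j) (i) (k))
    (n2 : Nd W (i + l + 1) (i2) (k + l + 1))
    (n3 : Nd W (k + l + l2 - n + 2) (i3) (i2 + l2 + 1))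
    (b0 : (2 * l + i3 + 3) ≤ (Q + i2 + l2))
    (b1 : (n + l + i3 + 1) ≤ (Q + 2 * i2 + 2 * l2))
    (b2 : (2 * i + j + 1) ≤ (k))
    (b3 : (n + 2 * Q) ≤ (i + l + i2 + 2 * l2 + 4))
    (b4 : (l + i3 + 3) ≤ (Q + i2))
    (b5 : (2 * Q + l2) ≤ (k + l + i3 + 1))
    (b6 : (2 * Q + k) ≤ (2 * i + l + i2 + 2)) : False := by
  have ev := al.ev
  obtain ⟨y0, y1, y2, y3, y4, y5, y6, y7, y8, y9, y10, y11, y12, y13, y14, y15, y16, y17, y18, y19, y20, y21⟩ := id hy
  have n1p := And.intro n1.p1 n1.p2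
  have n2p := And.intro n2.p1 n2.p2
  have n3p := And.intro n3.p1 n3.p2
  by_cases z108 : (2 * i + l + 3) ≤ (k + i2)
  · have kk1791 : (2 * Q + k) ≤ (2 * i + l + i2 + 1) := by clear * - b6 ev n1p n2p n3p; omega
    have kk1792 : (2 * i + l + 2) ≤ (k + i2) := by clear * - z108; omega
    have kk1793 : (i + 1) ≤ (Q) := by clear * - y1 y2; omega
    have kk1794 : (i2) ≤ (i + l + 1) := by clear * - b6 y18; omega
    have r1795 : (2 * n + k + l + i2 + 1) % 2 = 0 := by clear * - ev n1p n2p n3p; omega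
    clear * - al b tt kk1791 kk1792 kk1793 kk1794 r1795
    obtain ⟨t, ht⟩ : ∃ t, 2 * t = (2 * n + k + l + i2 + 1) := ⟨(2 * n + k + l + i2 + 1) / 2, by omega⟩
    exact al.ninv t (cE (cI (pb b al 1 t (t + (i - n - k)) (by omega)) (qa tt al 0 (t + (i - n - k)) ((n + k + l + i2 + 1) - t) (by omega))) (sh al 1 ((n + k + l + i2 + 1) - t) t (by omega)))
  · by_cases z109 : (3 * k + 2 * l + i3 + 3) ≤ (n + 3 * i + i2 + l2)
    · by_cases z110 : (n + i3) ≤ (i + k + i2 + l2 + 1)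
      · by_cases v55 : (n + i) ≤ (2 * k + l + 2)
        · have kk1796 : (k + i2 + l2 + 2) ≤ (n + i + i3) := by clear * - y17 z110; omega
          have kk1797 : (3 * k + 2 * l + i3 + 3) ≤ (n + 3 * i + i2 + l2) := by clear * - z109; omega
          have kk1798 : (7 * k + 4 * l + i3 + 5) ≤ (3 * n + 5 * i + 2 * j + i2 + l2) := by clear * - v55 y1 y17 z109; omega
          have kk1799 : (3 * k + i2 + 1) ≤ (n + 3 * i + l2 + i3) := by clear * - b0 b1 b3 v55 y17 y21 z108; linarith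
          have kk1800 : (i2 + l2) ≤ (k + l) := by clear * - y20; omega
          have kk1801 : (n) ≤ (k + l + l2 + 2) := by clear * - b1 b3 b6 v55 y17 y18 z108; linarith
          have kk1802 : (i2) ≤ (k) := by clear * - b0 b2 b5 y1 y18 z108; omega
          have kk1803 : (i) ≤ (i2) := by clear * - b1 b2 b4 b6 v55 y1 y17; linarith
          have kk1804 : (i + l + l2 + 2) ≤ (n) := by clear * - b0 b2 b4 b5 y1 y17 z108; linarith
          have kk1805 : (n + i) ≤ (2 * k + l + 2) := by clear * - v55; omega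
          have kk1806 : (n + i + j + i2) ≤ (2 * k + 2 * l + i3 + 2) := by clear * - b2 v55 y13 z108 ev n1p n2p n3p; omega
          have r1807 : (2 * n + i + j) % 2 = 0 := by clear * - ev n1p n2p n3p; omega
          have r1808 : (n + i + i3 - k - i2 - l2 - 1) % 2 = 0 := by clear * - ev n1p n2p n3p; omega
          clear * - al s1 b c D2 kk1796 kk1797 kk1798 kk1799 kk1800 kk1801 kk1802 kk1803 kk1804 kk1805 kk1806 r1807 r1808
          exact midP al (n + i + i3 - k - i2 - l2 - 1) (2 * n + i + j) (2 * k + l - i + 2) (2 * k + l - i + 2) (n + i + l + i3 - i2 + 1) (by omega) (fun t h1 h2 => (cE (qa s1 al 1 t ((n + i + j) - t) (by omega)) (sh al 1 ((n + i + j) - t) ((2 * n + i + j) - t) (by omega)))) (fun t h1 h2 => (cE (cE (cE (pb c al 0 t (t + (i2 - k - l - 1)) (by omega)) (pb b al 0 (t + (i2 - k - l - 1)) (t + (i + i2 - 2 * k - l - 1)) (by omega))) (pb (show Par W (k + l + i3 - i2 - l2 + 1) (n + i3 - i2 - l2 - 1) (2 * i2 + l2 -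 k - l - i3) from fun t h1 h2 => (cE (sh al (-1) t (t + (-n)) (by omega)) (cE (pb D2 al (-1) (t + (-n)) (t + (i2 + l2 - i3 + 1)) (by omega)) (pb c al 0 (t + (i2 + l2 - i3 + 1)) (t + (2 * i2 + l2 - k - l - i3)) (by omega))))) al 0 (t + (i + i2 - 2 * k - l - 1)) (t + (i + i3 - k - i2 - l2 - 1)) (by omega))) (sh al 1 (t + (i + i3 - k - i2 - l2 - 1)) (t + (n + i + i3 - k - i2 - l2 - 1)) (by omega))))
        · have kk1809 : (k + i2 + l2 + 2) ≤ (n + i + i3) := by clear * - y17 z110; omega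
          have kk1810 : (n + i3) ≤ (i + k + i2 + l2 + 1) := by clear * - z110; omega
          have kk1811 : (3 * k + 2 * l + i3 + 1) ≤ (n + 3 * i + 2 * j + i2 + l2) := by clear * - b1 b4 b5 v55 y1 y18 z108 z110; linarith
          have kk1812 : (n + i2) ≤ (i + k + 2 * l + l2 + i3 + 3) := by clear * - b1 b2 b5 y15 y18 z108; omega
          have kk1813 : (i2 + l2) ≤ (k + l) := by clear * - y20; omega
          have kk1814 : (n) ≤ (k + l + l2 + 2) := by clear * - y13 y14; omega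
          have kk1815 : (i2) ≤ (k) := by clear * - b0 b2 b5 y1 y18 z108; omega
          have kk1816 : (i) ≤ (i2) := by clear * - b1 b2 b4 b5 y1 y17 z108; linarith
          have kk1817 : (i + l + l2 + 2) ≤ (n) := by clear * - b2 b4 b5 v55 y1 y18; omega
          have kk1818 : (2 * k + l + 2) ≤ (n + i) := by clear * - v55; omega
          have kk1819 : (j + i2) ≤ (l + i3) := by clear * - b2 y13 z108 ev n1p n2p n3p; omega
          have r1820 : (2 * n + i + j) % 2 = 0 := by clear * - ev n1p n2p n3p; omega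
          have r1821 : (n + i + i3 - k - i2 - l2 - 1) % 2 = 0 := by clear * - ev n1p n2p n3p; omega
          clear * - al s1 b c D2 kk1809 kk1810 kk1811 kk1812 kk1813 kk1814 kk1815 kk1816 kk1817 kk1818 kk1819 r1820 r1821
          exact midP al (n + i + i3 - k - i2 - l2 - 1) (2 * n + i + j) (n) (2 * k + l - i + 2) (n + i + l + i3 - i2 + 1) (by omega) (fun t h1 h2 => (cE (qa s1 al 1 t ((n + i + j) - t) (by omega)) (sh al 1 ((n + i + j) - t) ((2 * n + i + j) - t) (by omega)))) (fun t h1 h2 => (cE (cE (cE (pb c al 0 t (t + (i2 - k - l - 1)) (by omega)) (pb b al 0 (t + (i2 - k - l - 1)) (t + (i + i2 - 2 * k - l - 1)) (by omega))) (pb (show Par W (k + l + i3 - i2 - l2 + 1) (n + i3 - i2 - l2 - 1) (2 * i2 + l2 - k - l - i3) from fun t h1 h2 => (cE (sh al (-1) t (t + (-n)) (by omega)) (cE (pb D2 al (-1) (t + (-n)) (t + (i2 + l2 - i3 + 1)) (by omega)) (pb c al 0 (t + (i2 + l2 - i3 + 1)) (t + (2 * i2 + l2 - k - l - i3)) (by omega)))))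 al 0 (t + (i + i2 - 2 * k - l - 1)) (t + (i + i3 - k - i2 - l2 - 1)) (by omega))) (sh al 1 (t + (i + i3 - k - i2 - l2 - 1)) (t + (n + i + i3 - k - i2 - l2 - 1)) (by omega))))
      · by_cases v56 : (l + 2 * i3 + 1) ≤ (Q + i2)
        · have kk1822 : (i + i2 + 1) ≤ (l + 2 * i3) := by clear * - b1 b5 y18 z108 z110; omega
          have kk1823 : (2 * k + l + i2 + 2 * l2 + 4) ≤ (2 * n + i) := by clear * - b0 b4 b5 y21 z108 z110; omega
          have kk1824 : (i3) ≤ (k) := by clear * - b0 b3 b4 y20 z110; omega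
          have kk1825 : (l + 2 * i3 + 1) ≤ (Q + i2) := by clear * - v56; omega
          have kk1826 : (n + i3) ≤ (k + l + i2 + l2 + 2) := by clear * - b1 b3 b5 v56 y20 z109 z110; linarith
          have kk1827 : (0) ≤ (i3) := by clear * - y13; omega
          have r1828 : (2 * n + i + l + 2 * i3 - i2 + 1) % 2 = 0 := by clear * - ev n1p n2p n3p; omega
          clear * - al b u2 D2 kk1822 kk1823 kk1824 kk1825 kk1826 kk1827 r1828
          obtain ⟨t, ht⟩ : ∃ t, 2 * t = (2 * n + i + l + 2 * i3 - i2 + 1) := ⟨(2 * n + i + l + 2 * i3 - i2 + 1) / 2, by omega⟩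
          exact al.ninv t (cE (cI (cE (qf b al 1 t (t + (k - n - i)) (by omega)) (pb D2 al 0 (t + (k - n - i)) (t + (k + i2 + l2 - n - i - i3 + 1)) (by omega))) (ab u2 al 1 (t + (k + i2 + l2 - n - i - i3 + 1)) ((n + i + l + 2 * i3 - i2 + 1) - t) (by omega))) (sh al 1 ((n + i + l + 2 * i3 - i2 + 1) - t) t (by omega)))
        · have kk1829 : (i + l + 2 * i3 + 3) ≤ (2 * Q + i2) := by clear * - b4 y14 z110; omega
          have kk1830 : (2 * k + l + i2 + 2 * l2 + 4) ≤ (2 * n + i) := by clear * - b0 b4 b5 y21 z108 z110; omega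
          have kk1831 : (Q + i2) ≤ (l + 2 * i3 + 1) := by clear * - v56; omega
          have kk1832 : (Q + i2) ≤ (k + l + i3 + 1) := by clear * - b0 b3 b4 v56 y20 z110; omega
          have kk1833 : (n + i3) ≤ (k + l + i2 + l2 + 2) := by clear * - b1 b3 b4 y20 z110; omega
          have kk1834 : (0) ≤ (i3) := by clear * - b4 v56; omega
          have r1835 : (2 * n + i + l + 2 * i3 - i2 + 1) % 2 = 0 := by clear * - ev n1p n2p n3p; omega
          clear * - al b u2 D2 kk1829 kk1830 kk1831 kk1832 kk1833 kk1834 r1835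
          obtain ⟨t, ht⟩ : ∃ t, 2 * t = (2 * n + i + l + 2 * i3 - i2 + 1) := ⟨(2 * n + i + l + 2 * i3 - i2 + 1) / 2, by omega⟩
          exact al.ninv t (cE (cI (cE (qf b al 1 t (t + (k - n - i)) (by omega)) (pb D2 al 0 (t + (k - n - i)) (t + (k + i2 + l2 - n - i - i3 + 1)) (by omega))) (ab u2 al 1 (t + (k + i2 + l2 - n - i - i3 + 1)) ((n + i + l + 2 * i3 - i2 + 1) - t) (by omega))) (sh al 1 ((n + i + l + 2 * i3 - i2 + 1) - t) t (by omega)))
    · by_cases v57 : (2 * k + l + 2) ≤ (n + i2)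
      · have kk1836 : (2 * k + l + 2) ≤ (n + i + i2) := by clear * - b0 b5 v57 z108 z109; omega
        have kk1837 : (n + i2) ≤ (i + 2 * k + l + 1) := by clear * - b0 b5 z108 z109; omega
        have kk1838 : (2 * k + l + 1) ≤ (n + i + 2 * j + i2) := by clear * - b3 b4 y15; omega
        have kk1839 : (n) ≤ (i + l + i2 + 2 * l2 + 3) := by clear * - b0 b3 b5 v57 z108 z109; omega
        have kk1840 : (i2) ≤ (k) := by clear * - b0 b2 b5 y1 y18 z108; omega
        have kk1841 : (i2 + l2) ≤ (k + l) := by clear * - y20; omega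
        have kk1842 : (j + k) ≤ (i2 + l2) := by clear * - b1 b2 b6 y17 z108; omega
        have kk1843 : (2 * k + l + 2) ≤ (n + i2) := by clear * - v57; omega
        have r1844 : (i + j) % 2 = 0 := by clear * - ev n1p n2p n3p; omega
        have r1845 : (n + i + i2 - 2 * k - l - 1) % 2 = 0 := by clear * - ev n1p n2p n3p; omega
        clear * - al s1 b c kk1836 kk1837 kk1838 kk1839 kk1840 kk1841 kk1842 kk1843 r1844 r1845
        exact midP al (n + i + i2 - 2 * k - l - 1) (i + j) (0) (2 * k + l - n - i2 + 2) (i + i2 + l2 - k + 1) (by omega) (fun t h1 h2 => (qa s1 al 0 t ((i + j) - t) (by omega))) (fun t h1 h2 => (cE (pb c al (-1) t (t + (n + i2 - k - l - 1)) (by omega)) (pb b al 0 (t + (n + i2 - k - l - 1)) (t + (n + i + i2 - 2 * k - l - 1)) (by omega))))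
      · have kk1846 : (2 * k + l + 2) ≤ (n + i + i2) := by clear * - b3 b4 y17; omega
        have kk1847 : (2 * k + l + 3) ≤ (n + i + i2) := by clear * - b3 b4 y17; omega
        have kk1848 : (6 * k + 3 * l + 5) ≤ (3 * n + i + 2 * j + 3 * i2) := by clear * - b3 b4 y1 y17; omega
        have kk1849 : (4 * k + l + 1) ≤ (n + i + 3 * i2 + 2 * l2) := by clear * - b1 b2 b3 b4 b6 y15 y17 z108; linarith
        have kk1850 : (i2) ≤ (k) := by clear * - b0 b3 v57 y17 y21 z109; omega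
        have kk1851 : (i2 + l2) ≤ (k + l) := by clear * - y20; omega
        have kk1852 : (n + i2) ≤ (2 * k + l + 2) := by clear * - v57; omega
        have kk1853 : (n + j) ≤ (k + l + l2 + 2) := by clear * - b1 b2 b6 v57 y17 z108; omega
        have r1854 : (i + j) % 2 = 0 := by clear * - ev n1p n2p n3p; omega
        have r1855 : (n + i + i2 - 2 * k - l - 1) % 2 = 0 := by clear * - ev n1p n2p n3p; omega
        clear * - al s1 b c kk1846 kk1847 kk1848 kk1849 kk1850 kk1851 kk1852 kk1853 r1854 r1855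
        exact midP al (n + i + i2 - 2 * k - l - 1) (i + j) (2 * k + l - n - i2 + 2) (2 * k + l - n - i2 + 2) (i + i2 + l2 - k + 1) (by omega) (fun t h1 h2 => (qa s1 al 0 t ((i + j) - t) (by omega))) (fun t h1 h2 => (cE (pb c al (-1) t (t + (n + i2 - k - l - 1)) (by omega)) (pb b al 0 (t + (n + i2 - k - l - 1)) (t + (n + i + i2 - 2 * k - l - 1)) (by omega))))

theorem t1c_33 {W : ℤ → G} {n Q i j k l i2 l2 i3 : ℤ} (al : AL W n Q)
    (hy : (0) ≤ (i) ∧ (i) ≤ (j) ∧ (j + 1) ≤ (Q) ∧ (Q) ≤ (k) ∧ (k + 1) ≤ (n) ∧ (Q) ≤ (i + l + 1) ∧ (k + l + 2) ≤ (n) ∧ (Q) ≤ (i2) ∧ (i2) ≤ (i + l + 1) ∧ (Q) ≤ (i2 + l2 + 1) ∧ (i2 + l2 + 2) ≤ (n) ∧ (n) ≤ (k + l + l2 + 2) ∧ (k + l + l2 + 3) ≤ (n + Q) ∧ (0) ≤ (i3) ∧ (n + i3) ≤ (k + l + l2 + 2) ∧ (k + i2 + l2 + 2) ≤ (n + j + i3) ∧ (j + i3 + 1) ≤ (k) ∧ (k + i2 + l2 + 2) ≤ (n + i3) ∧ (i + 2 * i2 + 1) ≤ (2 * Q + k) ∧ (i + l + 1) ≤ (i2 + l2) ∧ (i2 + l2 + 1) ≤ (k + l) ∧ (i3 + 1) ≤ (i))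
    (a1 : Par W (0) (j) (k - j))
    (a2 : Par W (Q + j - k) (j) (k - j))
    (s1 : Ant W (0) (i) (i + j))
    (s2 : Ant W (j + 1) (Q) (i + j))
    (b : Par W (i + 1) (i + l + 1) (k - i))
    (tt : Ant W (Q) (i2) (i + l + i2 + 1))
    (c : Par W (i2 + 1) (i2 + l2 + 1) (k + l - i2 + 1))
    (u1 : Ant W (0) (i3) (k + l + l2 + i3 - n + 2))
    (u2 : Ant W (k + l + l2 - n + 3) (Q) (k + l + l2 + i3 - n + 2))
    (D1 : Par W (i3 + 1) (Q) (i2 + l2 - i3 + 1))
    (D2 : Par W (i2 + l2 + 2) (n) (i3 - i2 - l2 - 1))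
    {L : ℤ} (mx : ∀ a b g, 0 < g → g < n → Par W a b g → b - a ≤ L)
    (hL : L ≤ (n - j - 3) ∧ L ≤ (n + Q - k - 3) ∧ L ≤ (n - l - 3) ∧ L ≤ (n + i - k - 2) ∧ L ≤ (n - l2 - 3) ∧ L ≤ (n + i3 - Q - 2) ∧ L ≤ (i2 + l2 - 1) ∧ L ≤ (n + i2 - k - l - 3) ∧ L ≤ (Q + i2 + l2 - l - i3 - 3))
    (bd0 : Bd W n L (j) (i) (k))
    (bd2 : Bd W n L (k + l + l2 - n + 2) (i3) (i2 + l2 + 1))
    (n1 : Nd W (j) (i) (k))
    (n2 : Nd W (i + l + 1) (i2) (k + l + 1))
    (n3 : Nd W (k + l + l2 - n + 2) (i3) (i2 + l2 + 1))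
    (b0 : (2 * l + i3 + 3) ≤ (Q + i2 + l2))
    (b1 : (n + l + i3 + 1) ≤ (Q + 2 * i2 + 2 * l2))
    (b2 : (2 * i + j + 1) ≤ (k))
    (b3 : (n + 2 * Q) ≤ (i + l + i2 + 2 * l2 + 4))
    (b4 : (l + i3 + 3) ≤ (Q + i2))
    (b5 : (2 * Q + l2) ≤ (k + l + i3 + 1)) : False := by
  have ev := al.ev
  obtain ⟨y0, y1, y2, y3, y4, y5, y6, y7, y8, y9, y10, y11, y12, y13, y14, y15, y16, y17, y18, y19, y20, y21⟩ := id hy
  have n1p := And.intro n1.p1 n1.p2
  have n2p := And.intro n2.p1 n2.p2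
  have n3p := And.intro n3.p1 n3.p2
  by_cases z107 : (2 * Q + k) ≤ (2 * i + l + i2 + 2)
  · exact t1c_34 al hy a1 a2 s1 s2 b tt c u1 u2 D1 D2 mx hL bd0 bd2 n1 n2 n3 (by clear * - b0; omega) (by clear * - b1; omega) (by clear * - b2; omega) (by clear * - b3; omega) (by clear * - b4; omega) (by clear * - b5; omega) (by clear * - z107; omega)
  · exact t1c_35 al hy a1 a2 s1 s2 b tt c u1 u2 D1 D2 mx hL bd0 bd2 n1 n2 n3 (by clear * - b0; omega) (by clear * - b1; omega) (by clear * - b2; omega) (by clear * - b3; omega) (by clear * - b4; omega) (by clear * - b5; omega) (by clear * - z107; omega)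

theorem t1c_8 {W : ℤ → G} {n Q i j k l i2 l2 i3 : ℤ} (al : AL W n Q)
    (hy : (0) ≤ (i) ∧ (i) ≤ (j) ∧ (j + 1) ≤ (Q) ∧ (Q) ≤ (k) ∧ (k + 1) ≤ (n) ∧ (Q) ≤ (i + l + 1) ∧ (k + l + 2) ≤ (n) ∧ (Q) ≤ (i2) ∧ (i2) ≤ (i + l + 1) ∧ (Q) ≤ (i2 + l2 + 1) ∧ (i2 + l2 + 2) ≤ (n) ∧ (n) ≤ (k + l + l2 + 2) ∧ (k + l + l2 + 3) ≤ (n + Q) ∧ (0) ≤ (i3) ∧ (n + i3) ≤ (k + l + l2 + 2) ∧ (k + i2 + l2 + 2) ≤ (n + j + i3) ∧ (j + i3 + 1) ≤ (k) ∧ (k + i2 + l2 + 2) ≤ (n + i3) ∧ (i + 2 * i2 + 1) ≤ (2 * Q + k) ∧ (i + l + 1) ≤ (i2 + l2) ∧ (i2 + l2 + 1) ≤ (k + l) ∧ (i3 + 1) ≤ (i))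
    (a1 : Par W (0) (j) (k - j))
    (a2 : Par W (Q + j - k) (j) (k - j))
    (s1 : Ant W (0) (i) (i + j))
    (s2 : Ant W (j + 1) (Q) (i + j))
    (b : Par W (i + 1) (i + l + 1) (k - i))
    (tt : Ant W (Q) (i2) (i + l + i2 + 1))
    (c : Par W (i2 + 1) (i2 + l2 + 1) (k + l - i2 + 1))
    (u1 : Ant W (0) (i3) (k + l + l2 + i3 - n + 2))
    (u2 : Ant W (k + l + l2 - n + 3) (Q) (k + l + l2 + i3 - n + 2))
    (D1 : Par W (i3 + 1) (Q) (i2 + l2 - i3 + 1))
    (D2 : Par W (i2 + l2 + 2) (n) (i3 - i2 - l2 - 1))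
    {L : ℤ} (mx : ∀ a b g, 0 < g → g < n → Par W a b g → b - a ≤ L)
    (hL : L ≤ (n - j - 3) ∧ L ≤ (n + Q - k - 3) ∧ L ≤ (n - l - 3) ∧ L ≤ (n + i - k - 2) ∧ L ≤ (n - l2 - 3) ∧ L ≤ (n + i3 - Q - 2) ∧ L ≤ (i2 + l2 - 1) ∧ L ≤ (n + i2 - k - l - 3) ∧ L ≤ (Q + i2 + l2 - l - i3 - 3))
    (bd0 : Bd W n L (j) (i) (k))
    (bd2 : Bd W n L (k + l + l2 - n + 2) (i3) (i2 + l2 + 1))
    (n1 : Nd W (j) (i) (k))
    (n2 : Nd W (i + l + 1) (i2) (k + l + 1))
    (n3 : Nd W (k + l + l2 - n + 2) (i3) (i2 + l2 + 1))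
    (b0 : (2 * l + i3 + 3) ≤ (Q + i2 + l2))
    (b1 : (n + l + i3 + 1) ≤ (Q + 2 * i2 + 2 * l2))
    (b2 : (2 * i + j + 1) ≤ (k))
    (b3 : (n + 2 * Q) ≤ (i + l + i2 + 2 * l2 + 4))
    (b4 : (l + i3 + 3) ≤ (Q + i2))
    (b5 : (k + l + i3 + 2) ≤ (2 * Q + l2))
    (b6 : (k + l + 2 * i2 + 3 * l2 + 6) ≤ (2 * n + 2 * Q + i3)) : False := by
  have ev := al.ev
  obtain ⟨y0, y1, y2, y3, y4, y5, y6, y7, y8, y9, y10, y11, y12, y13, y14, y15, y16, y17, y18, y19, y20, y21⟩ := id hy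
  have n1p := And.intro n1.p1 n1.p2
  have n2p := And.intro n2.p1 n2.p2
  have n3p := And.intro n3.p1 n3.p2
  by_cases z19 : (k + l + 2 * i2 + 3 * l2 + i3 + 6) ≤ (2 * n + 2 * Q)
  · by_cases v11 : (i2 + 2 * l2 + 2) ≤ (n)
    · have kk219 : (k + l + i3 + 1) ≤ (2 * i2 + l2) := by clear * - b5 y7; omega
      have kk220 : (k + l + i3 + 2) ≤ (2 * Q + l2) := by clear * - b5; omega
      have kk221 : (k + l) ≤ (3 * l2 + i3) := by clear * - b0 b3 b5 y13 y17 y18 y19; linarith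
      have kk222 : (3 * k + 3 * l + i3 + 4) ≤ (2 * n + 2 * i2 + l2) := by clear * - b3 b4 y17 y19 z19; omega
      have kk223 : (i2 + l2) ≤ (k + l) := by clear * - y20; omega
      have kk224 : (n) ≤ (k + l + l2 + 2) := by clear * - y13 y14; omega
      have kk225 : (0) ≤ (i3) := by clear * - y13; omega
      have kk226 : (Q + i2) ≤ (k + l + i3 + 1) := by clear * - b3 v11 y13 y18 y19 y20; omega
      have kk227 : (i2 + 2 * l2 + 2) ≤ (n) := by clear * - v11; omega
      have kk228 : (k + l + l2 + i3 + 2) ≤ (n + i2) := by clear * - b5 v11 y7; omega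
      have r229 : (k + l + 2 * i3 - i2 + 1) % 2 = 0 := by clear * - ev n1p n2p n3p; omega
      have r230 : (2 * i2 + l2 - k - l - i3) % 2 = 0 := by clear * - ev n1p n2p n3p; omega
      clear * - al c u2 D2 kk219 kk220 kk221 kk222 kk223 kk224 kk225 kk226 kk227 kk228 r229 r230
      exact midP al (2 * i2 + l2 - k - l - i3) (k + l + 2 * i3 - i2 + 1) (k + l + i3 - i2 - l2 + 1) (k + l + i3 - i2 - l2 + 1) (n + i2 - k - l - 1) (by omega) (fun t h1 h2 => (cE (qa u2 al 0 t ((k + l + l2 + i3 - n + 2) - t) (by omega)) (qf D2 al (-1) ((k + l + l2 + i3 - n + 2) - t) ((k + l + 2 * i3 - i2 + 1) - t) (by omega)))) (fun t h1 h2 => (qf (show Par W (k + l + i3 - i2 - l2 + 1) (n + i3 - i2 - l2 - 1) (2 * i2 + l2 - k - l - i3) from fun t h1 h2 => (cE (sh al (-1) t (t + (-n)) (by omega)) (cE (pb D2 al (-1) (t + (-n)) (t + (i2 + l2 - i3 + 1)) (by omega)) (pb c al 0 (t + (i2 + l2 - i3 + 1)) (t + (2 * i2 + l2 - k - l - i3)) (by omega))))) al 0 t (t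 + (2 * i2 + l2 - k - l - i3)) (by omega)))
    · have kk231 : (k + l + i3 + 1) ≤ (2 * i2 + l2) := by clear * - v11 y7 z19; omega
      have kk232 : (k + l + 2 * i2 + 3 * l2 + i3 + 6) ≤ (2 * n + 2 * Q) := by clear * - z19; omega
      have kk233 : (k + l + 2 * i2 + l2 + 4) ≤ (2 * n + i3) := by clear * - v11 y17 y3 z19; omega
      have kk234 : (3 * k + 3 * l + 3 * l2 + i3 + 8) ≤ (4 * n) := by clear * - b3 b6 y19 y7 z19; omega
      have kk235 : (i2 + l2) ≤ (k + l) := by clear * - y20; omega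
      have kk236 : (n) ≤ (k + l + l2 + 2) := by clear * - v11 y20; omega
      have kk237 : (0) ≤ (i3) := by clear * - y13; omega
      have kk238 : (Q + i2) ≤ (k + l + i3 + 1) := by clear * - v11 y17 y20 y3; omega
      have kk239 : (n) ≤ (i2 + 2 * l2 + 2) := by clear * - v11; omega
      have kk240 : (k + l + i3) ≤ (2 * i2 + l2) := by clear * - v11 y7 z19; omega
      have r241 : (k + l + 2 * i3 - i2 + 1) % 2 = 0 := by clear * - ev n1p n2p n3p; omega
      have r242 : (2 * i2 + l2 - k - l - i3) % 2 = 0 := by clear * - ev n1p n2p n3p; omega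
      clear * - al c u2 D2 kk231 kk232 kk233 kk234 kk235 kk236 kk237 kk238 kk239 kk240 r241 r242
      exact midP al (2 * i2 + l2 - k - l - i3) (k + l + 2 * i3 - i2 + 1) (k + l + l2 + i3 - n + 3) (k + l + i3 - i2 - l2 + 1) (n + i2 - k - l - 1) (by omega) (fun t h1 h2 => (cE (qa u2 al 0 t ((k + l + l2 + i3 - n + 2) - t) (by omega)) (qf D2 al (-1) ((k + l + l2 + i3 - n + 2) - t) ((k + l + 2 * i3 - i2 + 1) - t) (by omega)))) (fun t h1 h2 => (qf (show Par W (k + l + i3 - i2 - l2 + 1) (n + i3 - i2 - l2 - 1) (2 * i2 + l2 - k - l - i3) from fun t h1 h2 => (cE (sh al (-1) t (t + (-n)) (by omega)) (cE (pb D2 al (-1) (t + (-n)) (t + (i2 + l2 - i3 + 1)) (by omega)) (pb c al 0 (t + (i2 + l2 - i3 + 1)) (t + (2 * i2 + l2 - k - l - i3)) (by omega))))) al 0 t (t + (2 * i2 + l2 - k - l - i3)) (by omega)))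
  · by_cases z20 : (5 * k + 3 * l + i3) ≤ (2 * i + 4 * i2 + 5 * l2)
    · by_cases z21 : (5 * k + 3 * l + 4) ≤ (2 * n + 2 * i + 2 * i2 + l2 + i3)
      · by_cases v12 : (i + 2 * i2 + 2 * l2 + 1) ≤ (Q + 2 * k + l)
        · have kk243 : (k + l + i3 + 1) ≤ (2 * i2 + l2) := by clear * - v12 y7 z20; omega
          have kk244 : (5 * k + 3 * l + 4) ≤ (2 * n + 2 * i + 2 * i2 + l2 + i3) := by clear * - z21; omega
          have kk245 : (5 * k + 3 * l + i3) ≤ (2 * i + 4 * i2 + 5 * l2) := by clear * - z20; omega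
          have kk246 : (3 * k + 3 * l + i3 + 4) ≤ (2 * n + 2 * i2 + l2) := by clear * - b0 b3 v12 y17 y7 z20; omega
          have kk247 : (Q + k) ≤ (i2 + l2 + i3 + 1) := by clear * - v12 y17 y7 z19 z20; omega
          have kk248 : (Q) ≤ (l2 + i3 + 1) := by clear * - b0 b3 v12 y17 y19 z19 z21; linarith
          have kk249 : (n + i2 + i3) ≤ (2 * k + 2 * l + 2) := by clear * - y14 y20; omega
          have kk250 : (n + i3) ≤ (k + l + l2 + 2) := by clear * - y14; omega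
          have kk251 : (i2 + l2) ≤ (k + l) := by clear * - y20; omega
          have kk252 : (n) ≤ (k + l + l2 + 2) := by clear * - v12 y20 z19 z20; omega
          have kk253 : (i + i2 + 2 * l2 + 2) ≤ (n + k) := by clear * - b0 b3 v12 y17 y7 z20; omega
          have kk254 : (i + 2 * i2 + 2 * l2 + 1) ≤ (Q + 2 * k + l) := by clear * - v12; omega
          have r255 : (i + i2 + l2 + i3 - 2 * n - k + 1) % 2 = 0 := by clear * - ev n1p n2p n3p; omega
          have r256 : (2 * i2 + l2 - k - l - i3) % 2 = 0 := by clear * - ev n1p n2p n3p; omega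
          clear * - al b c u2 D2 kk243 kk244 kk245 kk246 kk247 kk248 kk249 kk250 kk251 kk252 kk253 kk254 r255 r256
          exact midP al (2 * i2 + l2 - k - l - i3) (i + i2 + l2 + i3 - 2 * n - k + 1) (k + l + i3 - n - i2 - l2 + 1) (k + l + i3 - n - i2 - l2 + 1) (i2 - k - l - 1) (by omega) (fun t h1 h2 => (cE (cI (cE (qf b al (-1) t (t + (n + k - i)) (by omega)) (qf c al 0 (t + (n + k - i)) (t + (n + 2 * k + l - i - i2 + 1)) (by omega))) (ab u2 al 1 (t + (n + 2 * k + l - i - i2 + 1)) ((i + i2 + l2 + i3 - n - k + 1) - t) (by omega))) (sh al (-1) ((i + i2 + l2 + i3 - n - k + 1) - t) ((i + i2 + l2 + i3 - 2 * n - k + 1) - t) (by omega)))) (fun t h1 h2 => (cE (cE (pb D2 al (-1) t (t + (n + i2 + l2 - i3 + 1)) (by omega)) (pb c al 0 (t + (n + i2 + l2 - i3 + 1)) (t + (n + 2 * i2 + l2 - k - l - i3)) (by omega))) (sh al (-1) (t + (n + 2 * i2 + l2 - k - l - i3)) (t + (2 * i2 + l2 - k - l - i3)) (by omega))))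
        · have kk257 : (k + l + i3 + 1) ≤ (2 * i2 + l2) := by clear * - b5 y7; omega
          have kk258 : (k + l + 2 * i2 + 3 * l2 + 6) ≤ (2 * n + 2 * Q + i3) := by clear * - b6; omega
          have kk259 : (k + l + i3 + 2) ≤ (2 * Q + l2) := by clear * - b5; omega
          have kk260 : (2 * i + l + 2 * i2 + 3 * l2 + i3 + 6) ≤ (2 * n + 2 * Q + k) := by clear * - b2 b6 y1 y21 z19; omega
          have kk261 : (Q + k) ≤ (i2 + l2 + i3 + 1) := by clear * - b5 y17 y7 z19; omega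
          have kk262 : (Q) ≤ (l2 + i3 + 1) := by clear * - b5 y17 y3 z19; omega
          have kk263 : (n + i2 + i3) ≤ (2 * k + 2 * l + 2) := by clear * - y14 y20; omega
          have kk264 : (n + i3) ≤ (k + l + l2 + 2) := by clear * - y14; omega
          have kk265 : (i2 + l2) ≤ (k + l) := by clear * - y20; omega
          have kk266 : (n) ≤ (k + l + l2 + 2) := by clear * - b5 y20 z19; omega
          have kk267 : (i + i2 + 2 * l2 + 2) ≤ (n + k) := by clear * - b2 b6 y1 y20 y21 y3 y7; linarith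
          have kk268 : (Q + 2 * k + l) ≤ (i + 2 * i2 + 2 * l2 + 1) := by clear * - v12; omega
          have r269 : (i + i2 + l2 + i3 - 2 * n - k + 1) % 2 = 0 := by clear * - ev n1p n2p n3p; omega
          have r270 : (2 * i2 + l2 - k - l - i3) % 2 = 0 := by clear * - ev n1p n2p n3p; omega
          clear * - al b c u2 D2 kk257 kk258 kk259 kk260 kk261 kk262 kk263 kk264 kk265 kk266 kk267 kk268 r269 r270
          exact midP al (2 * i2 + l2 - k - l - i3) (i + i2 + l2 + i3 - 2 * n - k + 1) (i + i2 + l2 + i3 - n - Q - k + 2) (k + l + i3 - n - i2 - l2 + 1) (i2 - k - l - 1) (by omega) (fun t h1 h2 => (cE (cI (cE (qf b al (-1) t (t + (n + k - i)) (by omega)) (qf c al 0 (t + (n + k - i)) (t + (n + 2 * k + l - i - i2 + 1)) (by omega))) (ab u2 al 1 (t + (n + 2 * k + l - i - i2 + 1)) ((i + i2 + l2 + i3 - n - k + 1) - t) (by omega))) (sh al (-1) ((i + i2 + l2 + i3 - n - k + 1) - t) ((i + i2 + l2 + i3 - 2 * n - k + 1) - t) (by omega))))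 (fun t h1 h2 => (cE (cE (pb D2 al (-1) t (t + (n + i2 + l2 - i3 + 1)) (by omega)) (pb c al 0 (t + (n + i2 + l2 - i3 + 1)) (t + (n + 2 * i2 + l2 - k - l - i3)) (by omega))) (sh al (-1) (t + (n + 2 * i2 + l2 - k - l - i3)) (t + (2 * i2 + l2 - k - l - i3)) (by omega))))
      · by_cases z22 : (3 * k + 2 * l + l2 + 4) ≤ (2 * n + i + i2 + i3)
        · have kk271 : (i + i2 + l2 + i3 + 3) ≤ (2 * Q + k) := by clear * - b6 z20 z21 z22; omega
          have kk272 : (3 * k + 2 * l + l2 + 4) ≤ (2 * n + i + i2 + i3) := by clear * - z22; omega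
          have kk273 : (Q) ≤ (l2 + i3 + 1) := by clear * - b0 b3 b6 y17 z19 z20 z21 z22; linarith
          have kk274 : (Q) ≤ (i + l + 1) := by clear * - b3 b6 z20 z21 z22; omega
          have kk275 : (n + i3) ≤ (k + l + l2 + 2) := by clear * - b3 b6 z20 z21 z22; omega
          have kk276 : (n + i) ≤ (k + l + l2 + 2) := by clear * - b6 y17 z19 z20 z21 z22; omega
          have r277 : (k + i2 + l2 + i3 - 2 * n - i + 1) % 2 = 0 := by clear * - ev n1p n2p n3p; omega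
          clear * - al b c u2 kk271 kk272 kk273 kk274 kk275 kk276 r277
          obtain ⟨t, ht⟩ : ∃ t, 2 * t = (k + i2 + l2 + i3 - 2 * n - i + 1) := ⟨(k + i2 + l2 + i3 - 2 * n - i + 1) / 2, by omega⟩
          exact al.ninv t (cE (cE (cI (qf c al (-1) t (t + (n + k + l - i2 + 1)) (by omega)) (ab u2 al 1 (t + (n + k + l - i2 + 1)) ((i2 + l2 + i3 - n + 1) - t) (by omega))) (qf b al 0 ((i2 + l2 + i3 - n + 1) - t) ((k + i2 + l2 + i3 - n - i + 1) - t) (by omega))) (sh al (-1) ((k + i2 + l2 + i3 - n - i + 1) - t) t (by omega)))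
        · have kk278 : (k + l + i3 + 1) ≤ (2 * i2 + l2) := by clear * - b6 y7 z20 z22; omega
          have kk279 : (k + l + 2 * i2 + 3 * l2 + 6) ≤ (2 * n + 2 * Q + i3) := by clear * - b6; omega
          have kk280 : (9 * k + 5 * l + 6) ≤ (4 * n + 4 * i + 4 * i2 + l2 + i3) := by clear * - b3 b6 y7 z20 z22; omega
          have kk281 : (3 * k + 3 * l + 3 * l2 + 8) ≤ (4 * n + i3) := by clear * - b0 b3 b6 y17 y7 z20 z22; linarith
          have kk282 : (i2) ≤ (k) := by clear * - b0 b3 b6 y17 z21; omega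
          have kk283 : (i2 + l2) ≤ (k + l) := by clear * - y20; omega
          have kk284 : (n) ≤ (k + l + l2 + 2) := by clear * - b6 y20 z19 z20 z21; omega
          have kk285 : (2 * k + l + 1) ≤ (n + i + i2) := by clear * - b3 b4 y17; omega
          have kk286 : (2 * n + i + i2 + i3) ≤ (3 * k + 2 * l + l2 + 3) := by clear * - z22; omega
          have kk287 : (Q + k) ≤ (i2 + l2 + i3 + 1) := by clear * - b6 y17 y7 z19 z20 z22; omega
          have kk288 : (Q + 3 * k + l) ≤ (n + i + 2 * i2 + l2 + i3) := by clear * - b3 b6 y17 y7 z19 z20 z22; linarith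
          have kk289 : (n + i3) ≤ (i2 + 2 * l2 + 2) := by clear * - z20 z21; omega
          have kk290 : (n + 2 * i + i2 + i3) ≤ (3 * k + l + 1) := by clear * - b0 y17 y7 z20 z21; omega
          have r291 : (n + 2 * i + 2 * i2 + l2 + i3 - 3 * k - l) % 2 = 0 := by clear * - ev n1p n2p n3p; omega
          have r292 : (2 * i2 + l2 - k - l - i3) % 2 = 0 := by clear * - ev n1p n2p n3p; omega
          clear * - al b c u2 D2 kk278 kk279 kk280 kk281 kk282 kk283 kk284 kk285 kk286 kk287 kk288 kk289 kk290 r291 r292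
          exact midP al (2 * i2 + l2 - k - l - i3) (n + 2 * i + 2 * i2 + l2 + i3 - 3 * k - l) (k + l + l2 - n + 3) (k + l + i3 - i2 - l2 + 1) (n + i2 - k - l - 1) (by omega) (fun t h1 h2 => (cE (cE (cE (qa u2 al 0 t ((k + l + l2 + i3 - n + 2) - t) (by omega)) (qf (show Par W (2 * k + l - i2 + 2) (k + l + l2 + 2) (n + i + i2 - 2 * k - l - 1) from fun t h1 h2 => (cE (sh al (-1) t (t + (-n)) (by omega)) (cE (cE (pb c al (-1) (t + (-n)) (t + (i2 - k - l - 1)) (by omega)) (pb b al 0 (t + (i2 - k - l - 1)) (t + (i + i2 - 2 * k - l - 1)) (by omega))) (sh al 1 (t + (i + i2 - 2 * k - l - 1)) (t + (n + i + i2 - 2 * k - l - 1)) (by omega))))) al (-1) ((k + l + l2 + i3 - n + 2) - t) ((n + i + i2 + l2 + i3 - k + 1) - t) (by omega))) (qf (show Par W (2 * k + l - i2 + 2) (k + l + l2 + 2) (n + i + i2 - 2 * k - l - 1) from fun t h1 h2 => (cE (sh al (-1) t (t + (-n)) (by omega)) (cE (cE (pb c al (-1) (t + (-n)) (t + (i2 - k - l - 1)) (by omega))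 (pb b al 0 (t + (i2 - k - l - 1)) (t + (i + i2 - 2 * k - l - 1)) (by omega))) (sh al 1 (t + (i + i2 - 2 * k - l - 1)) (t + (n + i + i2 - 2 * k - l - 1)) (by omega))))) al 0 ((n + i + i2 + l2 + i3 - k + 1) - t) ((2 * n + 2 * i + 2 * i2 + l2 + i3 - 3 * k - l) - t) (by omega))) (sh al (-1) ((2 * n + 2 * i + 2 * i2 + l2 + i3 - 3 * k - l) - t) ((n + 2 * i + 2 * i2 + l2 + i3 - 3 * k - l) - t) (by omega)))) (fun t h1 h2 => (qf (show Par W (k + l + i3 - i2 - l2 + 1) (n + i3 - i2 - l2 - 1) (2 * i2 + l2 - k - l - i3) from fun t h1 h2 => (cE (sh al (-1) t (t + (-n)) (by omega)) (cE (pb D2 al (-1) (t + (-n)) (t + (i2 + l2 - i3 + 1)) (by omega)) (pb c al 0 (t + (i2 + l2 - i3 + 1)) (t + (2 * i2 + l2 - k - l - i3)) (by omega))))) al 0 t (t + (2 * i2 + l2 - k - l - i3)) (by omega)))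
    · by_cases z23 : (i + k + 2 * l + l2 + i3 + 5) ≤ (n + 2 * Q + i2)
      · by_cases v13 : (i2 + 2 * l2 + 2) ≤ (n + i3)
        · have kk293 : (2 * k + l + 2) ≤ (n + i + i2) := by clear * - b3 b6 z23; omega
          have kk294 : (k + l + i3 + 2) ≤ (2 * Q + l2) := by clear * - b5; omega
          have kk295 : (5 * k + 3 * l + i3 + 4) ≤ (2 * n + 2 * Q + 4 * i2 + l2) := by clear * - b3 b5 v13 y17 z19 z20 z23; linarith
          have kk296 : (3 * k + l + l2 + i3 + 4) ≤ (2 * n + 2 * Q + 2 * i) := by clear * - b3 b5 v13 z20 z23; omega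
          have kk297 : (i + k + 2 * l + l2 + i3 + 5) ≤ (n + 2 * Q + i2) := by clear * - z23; omega
          have kk298 : (i + 3 * k + 2 * l + 3) ≤ (n + 3 * i2 + l2 + i3) := by clear * - b3 y17 z19 z23; omega
          have kk299 : (k + i2 + l2 + 3) ≤ (n + i + i3) := by clear * - b6 y17 y21 z19; omega
          have kk300 : (i2) ≤ (k) := by clear * - b0 b3 b5 y17 z20; omega
          have kk301 : (i2 + l2) ≤ (k + l) := by clear * - b3 b5 v13 z20 z23; omega
          have kk302 : (n) ≤ (k + l + l2 + 2) := by clear * - b3 b5 v13 z19 z20 z23; omega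
          have kk303 : (i2 + 2 * l2 + 2) ≤ (n + i3) := by clear * - v13; omega
          have kk304 : (Q + i2 + l2 + 1) ≤ (n + i3) := by clear * - b0 b3 y17 z20 z23; omega
          have kk305 : (k) ≤ (i2 + l2 + 1) := by clear * - b3 b5 v13 y17 z19 z20 z23; linarith
          have kk306 : (k + i3) ≤ (i + i2 + l2 + 1) := by clear * - b3 b5 v13 z20 z23; omega
          have kk307 : (Q + k) ≤ (i2 + l2 + i3 + 1) := by clear * - b3 y17 z19 z23; omega
          have kk308 : (Q + k) ≤ (i + i2 + l2 + 1) := by clear * - b3 b6 z23; omega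
          have r309 : (k + l + l2 + i3 - n + 2) % 2 = 0 := by clear * - ev n1p n2p n3p; omega
          have r310 : (n + i + i2 - 2 * k - l - 1) % 2 = 0 := by clear * - ev n1p n2p n3p; omega
          have r311 : (2 * i2 + 2 * l2 - n + 2) % 2 = 0 := by clear * - ev n1p n2p n3p; omega
          clear * - al b c u2 D2 kk293 kk294 kk295 kk296 kk297 kk298 kk299 kk300 kk301 kk302 kk303 kk304 kk305 kk306 kk307 kk308 r309 r310 r311
          exact mid2 al (n + i + i2 - 2 * k - l - 1) (k + l + l2 + i3 - n + 2) (2 * i2 + 2 * l2 - n + 2) (k + l + l2 - n + 3) (Q) 0 (2 * k + l - n - i2 + 2) (i + i2 + l2 - k + 1) (by omega) (fun t h1 h2 => ⟨by omega, (qa u2 al 0 t ((k + l + l2 + i3 - n + 2) - t) (by omega))⟩) (fun t h1 h2 => ⟨by omega, (cI (pb (show Par W (k + l + i3 - i2 - l2 + 1) (n + i3 - i2 - l2 - 1) (2 * i2 + l2 - k - l - i3) from fun t h1 h2 => (cE (sh al (-1) t (t + (-n)) (by omega)) (cE (pb D2 al (-1) (t + (-n)) (t + (i2 + l2 - i3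 + 1)) (by omega)) (pb c al 0 (t + (i2 + l2 - i3 + 1)) (t + (2 * i2 + l2 - k - l - i3)) (by omega))))) al 0 t (t + (k + l + i3 - 2 * i2 - l2)) (by omega)) (qa u2 al 0 (t + (k + l + i3 - 2 * i2 - l2)) ((2 * i2 + 2 * l2 - n + 2) - t) (by omega)))⟩) (fun t h1 h2 => (cE (qf (show Par W (2 * k + l - i2 + 2) (k + l + l2 + 2) (n + i + i2 - 2 * k - l - 1) from fun t h1 h2 => (cE (sh al (-1) t (t + (-n)) (by omega)) (cE (cE (pb c al (-1) (t + (-n)) (t + (i2 - k - l - 1)) (by omega)) (pb b al 0 (t + (i2 - k - l - 1)) (t + (i + i2 - 2 * k - l - 1)) (by omega))) (sh al 1 (t + (i + i2 - 2 * k - l - 1)) (t + (n + i + i2 - 2 * k - l - 1)) (by omega))))) al (-1) t (t + (2 * n + i + i2 - 2 * k - l - 1)) (by omega)) (sh al (-1) (t + (2 * n + i + i2 - 2 * k - l - 1)) (t + (n + i + i2 - 2 * k - l - 1)) (by omega))))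
        · have kk312 : (2 * k + l + 2) ≤ (n + i + i2) := by clear * - b3 b6 z23; omega
          have kk313 : (k + l + 2 * i2 + 3 * l2 + 6) ≤ (2 * n + 2 * Q + i3) := by clear * - b6; omega
          have kk314 : (5 * k + 3 * l + i3 + 4) ≤ (2 * n + 2 * Q + 4 * i2 + l2) := by clear * - b3 b6 v13 y17 z19 z20 z23; linarith
          have kk315 : (3 * k + l + l2 + i3 + 4) ≤ (2 * n + 2 * Q + 2 * i) := by clear * - b3 b6 v13 z20 z23; omega
          have kk316 : (i + k + 2 * l + l2 + i3 + 5) ≤ (n + 2 * Q + i2) := by clear * - z23; omega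
          have kk317 : (i + 3 * k + 2 * l + 3) ≤ (n + 3 * i2 + l2 + i3) := by clear * - b3 y17 z19 z23; omega
          have kk318 : (k + i2 + l2 + 3) ≤ (n + i + i3) := by clear * - b6 y17 y21 z19; omega
          have kk319 : (i2) ≤ (k) := by clear * - b0 b3 b6 v13 y17 z20; omega
          have kk320 : (i2 + l2) ≤ (k + l) := by clear * - b3 b6 v13 z20 z23; omega
          have kk321 : (n) ≤ (k + l + l2 + 2) := by clear * - b3 b6 v13 z19 z20 z23; omega
          have kk322 : (n + i3) ≤ (i2 + 2 * l2 + 2) := by clear * - v13; omega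
          have kk323 : (Q + i2 + l2 + 1) ≤ (n + i3) := by clear * - b0 b3 y17 z20 z23; omega
          have kk324 : (k) ≤ (i2 + l2 + 1) := by clear * - b3 b6 v13 y17 z19 z20 z23; linarith
          have kk325 : (k + i3) ≤ (i + i2 + l2 + 1) := by clear * - b3 b6 v13 z20 z23; omega
          have kk326 : (Q + k) ≤ (i2 + l2 + i3 + 1) := by clear * - b3 y17 z19 z23; omega
          have kk327 : (Q + k) ≤ (i + i2 + l2 + 1) := by clear * - b3 b6 z23; omega
          have r328 : (k + l + l2 + i3 - n + 2) % 2 = 0 := by clear * - ev n1p n2p n3p; omega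
          have r329 : (n + i + i2 - 2 * k - l - 1) % 2 = 0 := by clear * - ev n1p n2p n3p; omega
          have r330 : (2 * i2 + 2 * l2 - n + 2) % 2 = 0 := by clear * - ev n1p n2p n3p; omega
          clear * - al b c u2 D2 kk312 kk313 kk314 kk315 kk316 kk317 kk318 kk319 kk320 kk321 kk322 kk323 kk324 kk325 kk326 kk327 r328 r329 r330
          exact mid2 al (n + i + i2 - 2 * k - l - 1) (k + l + l2 + i3 - n + 2) (2 * i2 + 2 * l2 - n + 2) (k + l + l2 - n + 3) (Q) 0 (2 * k + l - n - i2 + 2) (i + i2 + l2 - k + 1) (by omega) (fun t h1 h2 => ⟨by omega, (qa u2 al 0 t ((k + l + l2 + i3 - n + 2) - t) (by omega))⟩) (fun t h1 h2 => ⟨by omega, (cI (pb (show Par W (k + l + i3 - i2 - l2 + 1) (n + i3 - i2 - l2 - 1) (2 * i2 + l2 - k - l - i3) from fun t h1 h2 => (cE (sh al (-1) t (t + (-n)) (by omega)) (cE (pb D2 al (-1) (t + (-n)) (t + (i2 + l2 - i3 + 1)) (by omega)) (pb c al 0 (t + (i2 + l2 - i3 + 1)) (t + (2 * i2 + l2 - k - l - i3)) (by omega)))))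 al 0 t (t + (k + l + i3 - 2 * i2 - l2)) (by omega)) (qa u2 al 0 (t + (k + l + i3 - 2 * i2 - l2)) ((2 * i2 + 2 * l2 - n + 2) - t) (by omega)))⟩) (fun t h1 h2 => (cE (qf (show Par W (2 * k + l - i2 + 2) (k + l + l2 + 2) (n + i + i2 - 2 * k - l - 1) from fun t h1 h2 => (cE (sh al (-1) t (t + (-n)) (by omega)) (cE (cE (pb c al (-1) (t + (-n)) (t + (i2 - k - l - 1)) (by omega)) (pb b al 0 (t + (i2 - k - l - 1)) (t + (i + i2 - 2 * k - l - 1)) (by omega))) (sh al 1 (t + (i + i2 - 2 * k - l - 1)) (t + (n + i + i2 - 2 * k - l - 1)) (by omega))))) al (-1) t (t + (2 * n + i + i2 - 2 * k - l - 1)) (by omega)) (sh al (-1) (t + (2 * n + i + i2 - 2 * k - l - 1)) (t + (n + i + i2 - 2 * k - l - 1)) (by omega))))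
      · by_cases z24 : (n + i2) ≤ (i + 2 * k + l + 1)
        · by_cases v14 : (j + k) ≤ (i2 + l2)
          · have kk331 : (2 * k + l + 2) ≤ (n + i + i2) := by clear * - b3 b4 y17; omega
            have kk332 : (n + i2) ≤ (i + 2 * k + l + 1) := by clear * - z24; omega
            have kk333 : (2 * k + l + 1) ≤ (n + i + 2 * j + i2) := by clear * - b3 b4 y15; omega
            have kk334 : (n) ≤ (i + l + i2 + 2 * l2 + 3) := by clear * - b3 b4 b5 y17 z19 z20; omega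
            have kk335 : (i2) ≤ (k) := by clear * - b0 b3 b5 y17 z20; omega
            have kk336 : (i2 + l2) ≤ (k + l) := by clear * - y20; omega
            have kk337 : (j + k) ≤ (i2 + l2) := by clear * - v14; omega
            have kk338 : (2 * k + l + 2) ≤ (n + i2) := by clear * - b5 y17 y7; omega
            have r339 : (i + j) % 2 = 0 := by clear * - ev n1p n2p n3p; omega
            have r340 : (n + i + i2 - 2 * k - l - 1) % 2 = 0 := by clear * - ev n1p n2p n3p; omega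
            clear * - al s1 b c kk331 kk332 kk333 kk334 kk335 kk336 kk337 kk338 r339 r340
            exact midP al (n + i + i2 - 2 * k - l - 1) (i + j) (0) (2 * k + l - n - i2 + 2) (i + i2 + l2 - k + 1) (by omega) (fun t h1 h2 => (qa s1 al 0 t ((i + j) - t) (by omega))) (fun t h1 h2 => (cE (pb c al (-1) t (t + (n + i2 - k - l - 1)) (by omega)) (pb b al 0 (t + (n + i2 - k - l - 1)) (t + (n + i + i2 - 2 * k - l - 1)) (by omega))))
          · have kk341 : (2 * k + l + 2) ≤ (n + i + i2) := by clear * - b3 b4 y17; omega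
            have kk342 : (n + 2 * j) ≤ (i + l + i2 + 2 * l2 + 1) := by clear * - b5 y2 y7 z23; omega
            have kk343 : (4 * k + l + 1) ≤ (n + i + 3 * i2 + 2 * l2) := by clear * - b5 y17 y7 z19 z20 z23 z24; linarith
            have kk344 : (n + 2 * j + 2 * k) ≤ (i + l + 3 * i2 + 4 * l2 + 3) := by clear * - b5 v14 y17 y2 y7 z19 z20 z23; linarith
            have kk345 : (i2) ≤ (k) := by clear * - b2 b3 b4 b5 b6 v14 z24; linarith
            have kk346 : (i2 + l2) ≤ (k + l) := by clear * - y20; omega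
            have kk347 : (i2 + l2) ≤ (j + k) := by clear * - v14; omega
            have kk348 : (k + l + l2 + 2) ≤ (n + j) := by clear * - b5 v14 y17 y7; omega
            have r349 : (i + j) % 2 = 0 := by clear * - ev n1p n2p n3p; omega
            have r350 : (n + i + i2 - 2 * k - l - 1) % 2 = 0 := by clear * - ev n1p n2p n3p; omega
            clear * - al s1 b c kk341 kk342 kk343 kk344 kk345 kk346 kk347 kk348 r349 r350
            exact midP al (n + i + i2 - 2 * k - l - 1) (i + j) (j + k - i2 - l2) (2 * k + l - n - i2 + 2) (i + i2 + l2 - k + 1) (by omega) (fun t h1 h2 => (qa s1 al 0 t ((i + j) - t) (by omega))) (fun t h1 h2 => (cE (pb c al (-1) t (t + (n + i2 - k - l - 1)) (by omega)) (pb b al 0 (t + (n + i2 - k - l - 1)) (t + (n + i + i2 - 2 * k - l - 1)) (by omega))))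
        · by_cases z25 : (i2) ≤ (i + j + 1)
          · have kk351 : (i2 + l2 + 1) ≤ (k + l) := by clear * - b4 b5 b6 z20 z23 z24; omega
            have kk352 : (k + l + i3 + 1) ≤ (Q + i2 + l2) := by clear * - b4 b5 z23 z24; omega
            have kk353 : (j + 1) ≤ (k) := by clear * - b2 b4 b6 z23 z24; omega
            have kk354 : (0) ≤ (j) := by clear * - b4 b5 b6 z19 z20 z23 z24 z25; linarith
            have kk355 : (i2 + l2) ≤ (k + l + i3) := by clear * - b4 b5 b6 z19 z20 z23 z24; linarith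
            have kk356 : (l + i3 + 1) ≤ (i2 + l2) := by clear * - b2 b4 b6 z23 z24 z25; omega
            have kk357 : (0) ≤ (i2) := by clear * - b4 b5 b6 z19 z20 z23 z24; linarith
            have kk358 : (i2 + 1) ≤ (k) := by clear * - b2 b4 b6 z23 z24 z25; omega
            have kk359 : (i2) ≤ (i + j + 1) := by clear * - z25; omega
            have kk360 : (i2 + l2) ≤ (k + l) := by clear * - b4 b5 b6 z20 z23 z24; omega
            have kk361 : (n) ≤ (k + l + l2 + 2) := by clear * - b4 b5 b6 z19 z20 z23 z24; linarith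
            have kk362 : (i2 + l2) ≤ (k + l + i3 + 1) := by clear * - b4 b5 b6 z19 z20 z23 z24; linarith
            have kk363 : (0) ≤ (i2 + 1) := by clear * - b4 b5 b6 z19 z20 z23 z24; linarith
            have kk364 : (k + i2 + l2 + 1) ≤ (n + i3) := by clear * - b6 z23 z24; omega
            have kk365 : (k + l + i3) ≤ (2 * i2 + l2) := by clear * - b4 z23 z24; omega
            have kk366 : (0) ≤ (j + 1) := by clear * - b4 b5 b6 z19 z20 z23 z24 z25; linarith
            have kk367 : (i) ≤ (k) := by clear * - b2 b4 b5 b6 z19 z20 z23 z24 z25; linarith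
            have kk368 : (i + j + 1) ≤ (k) := by clear * - b2 b4 b6 z23 z24; omega
            have r369 : (2 * i2 + l2 - k - l - i3) % 2 = 0 := by clear * - ev n1p n2p n3p; omega
            have r370 : (k - j) % 2 = 0 := by clear * - ev n1p n2p n3p; omega
            have r371 : (i + j - 2 * n) % 2 = 0 := by clear * - ev n1p n2p n3p; omega
            clear * - al a1 s1 c D1 D2 n2 kk351 kk352 kk353 kk354 kk355 kk356 kk357 kk358 kk359 kk360 kk361 kk362 kk363 kk364 kk365 kk366 kk367 kk368 r369 r370 r371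
            exact ivt al.ninv (-n) (j - n) (k - j) (k + l + i3 - n - i2 - l2 + 1) (2 * k + l + i3 - n - 2 * i2 - l2) (2 * i2 + l2 - k - l - i3) (k + l + i3 - n - i2 - l2) (i2 - n) 0 (fun t h1 h2 => (cE (qf a1 al (-1) t (t + (n + k - j)) (by omega)) (sh al (-1) (t + (n + k - j)) (t + (k - j)) (by omega)))) (fun t h1 h2 => (cE (qf (show Par W (k + l + i3 - i2 - l2 + 1) (n + i3 - i2 - l2 - 1) (2 * i2 + l2 - k - l - i3) from fun t h1 h2 => (cE (sh al (-1) t (t + (-n)) (by omega)) (cE (pb D2 al (-1) (t + (-n)) (t + (i2 + l2 - i3 + 1)) (by omega)) (pb c al 0 (t + (i2 + l2 - i3 + 1)) (t + (2 * i2 + l2 - k - l - i3)) (by omega))))) al (-1) t (t + (n + 2 * i2 + l2 - k - l - i3)) (by omega)) (sh al (-1) (t + (n + 2 * i2 + l2 - k - l - i3)) (t + (2 * i2 + l2 - k - l - i3)) (by omega)))) (fun hh => n2.f1 (rEE (sh al (-1) (i2) (i2 - n) (by omega)) (cE (pb D1 al 0 (k + l + 1) (k + l + i3 - i2 - l2) (by omega)) (sh al (-1) (k + l + i3 - i2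 - l2) (k + l + i3 - n - i2 - l2) (by omega))) (Eq.symm (Eq.symm hh)))) (by omega) (j - n + 1) (i + j - n + 1) (i + j - 2 * n) 1 (-1) (fun t h1 h2 => (cE (ab s1 al (-1) t ((i + j - n) - t) (by omega)) (sh al (-1) ((i + j - n) - t) ((i + j - 2 * n) - t) (by omega)))) (by omega)
          · by_cases z26 : (j + 2 * k + l + 2) ≤ (n + 2 * i + i2)
            · by_cases z27 : (n + 2 * i + j + i2) ≤ (2 * Q + 2 * k + l)
              · have kk372 : (n + 2 * i + j + i2 + 1) ≤ (2 * Q + 2 * k + l) := by clear * - z27 ev n1p n2p n3p; omega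
                have kk373 : (j + 2 * k + l + 2) ≤ (n + 2 * i + i2) := by clear * - z26; omega
                have kk374 : (i2 + l2) ≤ (k + l) := by clear * - b4 b5 b6 z20 z23 z24; omega
                have kk375 : (Q + k) ≤ (i + i2 + l2 + 1) := by clear * - b4 b6 z23 z24; omega
                have kk376 : (i) ≤ (j) := by clear * - y1; omega
                have kk377 : (i + i2) ≤ (j + k) := by clear * - b0 b5 y1 z20 z23 z24 z26; linarith
                have r378 : (n + j + 2 * k + l - i2 + 1) % 2 = 0 := by clear * - ev n1p n2p n3p; omega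
                clear * - al s2 b c kk372 kk373 kk374 kk375 kk376 kk377 r378
                obtain ⟨t, ht⟩ : ∃ t, 2 * t = (n + j + 2 * k + l - i2 + 1) := ⟨(n + j + 2 * k + l - i2 + 1) / 2, by omega⟩
                exact al.ninv t (cE (cE (ab s2 al 1 t ((n + i + j) - t) (by omega)) (qf b al 0 ((n + i + j) - t) ((n + j + k) - t) (by omega))) (qf c al 0 ((n + j + k) - t) t (by omega)))
              · have kk379 : (j + 2 * k + l + 3) ≤ (n + 2 * i + i2) := by clear * - b4 b5 b6 z23 z25 z27; omega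
                have kk380 : (n + i2) ≤ (j + 2 * k + l + 2) := by clear * - b5 z19 z20 z27; omega
                have kk381 : (n + i) ≤ (k + l + l2 + 2) := by clear * - b5 z19 z20 z23 z24 z25 z27; linarith
                have kk382 : (i) ≤ (j) := by clear * - b5 z19 z20 z24 z27; omega
                have kk383 : (k + l + 2) ≤ (n) := by clear * - b2 b5 b6 z19 z20 z23 z25 z27; linarith
                have kk384 : (j) ≤ (l) := by clear * - b5 z19 z20 z23 z24 z25 z26 z27; linarith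
                have r385 : (j + i2 - n - l - 1) % 2 = 0 := by clear * - ev n1p n2p n3p; omega
                clear * - al s1 b c kk379 kk380 kk381 kk382 kk383 kk384 r385
                obtain ⟨t, ht⟩ : ∃ t, 2 * t = (j + i2 - n - l - 1) := ⟨(j + i2 - n - l - 1) / 2, by omega⟩
                exact al.ninv t (cE (cE (cI (pb b al (-1) t (t + (n + i - k)) (by omega)) (ab s1 al 0 (t + (n + i - k)) ((j + k - n) - t) (by omega))) (pb c al (-1) ((j + k - n) - t) ((j + i2 - l - 1) - t) (by omega))) (sh al (-1) ((j + i2 - l - 1) - t) t (by omega)))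
            · have kk386 : (0) ≤ (i) := by clear * - b4 b6 z23 z24; omega
              have kk387 : (i + 1) ≤ (j) := by clear * - b4 b6 z23 z24 z26; omega
              have kk388 : (k + l + i3 + 1) ≤ (2 * i2 + l2) := by clear * - b4 z23 z24; omega
              have kk389 : (i + 2 * i2 + l2) ≤ (j + k + l + i3) := by clear * - b4 b6 z23 z24 z26; omega
              have kk390 : (j + l + i3 + 1) ≤ (i + i2 + l2) := by clear * - b0 b6 y21 z19 z23 z24 z25; linarith
              have kk391 : (k + i2 + l2 + 1) ≤ (n + i3) := by clear * - b6 z23 z24; omega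
              have kk392 : (i2 + l2) ≤ (k + l) := by clear * - b4 b5 b6 z20 z23 z24; omega
              have kk393 : (n) ≤ (k + l + l2 + 2) := by clear * - b4 b5 b6 z23 z24 z25 z26; linarith
              have kk394 : (0) ≤ (i + 1) := by clear * - b4 b6 z23 z24; omega
              have kk395 : (j) ≤ (i + l + 1) := by clear * - b4 b5 b6 z20 z23 z24 z25; linarith
              have r396 : (j - i) % 2 = 0 := by clear * - ev n1p n2p n3p; omega
              have r397 : (2 * i2 + l2 - k - l - i3) % 2 = 0 := by clear * - ev n1p n2p n3p; omega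
              clear * - al a1 b c D2 n1 kk386 kk387 kk388 kk389 kk390 kk391 kk392 kk393 kk394 kk395 r396 r397
              exact n1.f1 (rEE (cE (qf a1 al 0 (i) (i + k - j) (by omega)) (sh al (-1) (i + k - j) (i + k - n - j) (by omega))) (sh al (-1) (k) (k - n) (by omega)) (rotL (j - i) (2 * i2 + l2 - k - l - i3) (i + k - n - j) (k - n) (by omega) (fun t h1 h2 => (cE (cE (pb a1 al (-1) t (t + (n + j - k)) (by omega)) (qf b al 0 (t + (n + j - k)) (t + (n + j - i)) (by omega))) (sh al (-1) (t + (n + j - i)) (t + (j - i)) (by omega)))) (fun t h1 h2 => (cE (qf (show Par W (k + l + i3 - i2 - l2 + 1) (n + i3 - i2 - l2 - 1) (2 * i2 + l2 - k - l - i3) from fun t h1 h2 => (cE (sh al (-1) t (t + (-n)) (by omega)) (cE (pb D2 al (-1) (t + (-n)) (t + (i2 + l2 - i3 + 1)) (by omega)) (pb c al 0 (t + (i2 + l2 - i3 + 1)) (t + (2 * i2 + l2 - k - l - i3)) (by omega))))) al (-1) t (t + (n + 2 * i2 + l2 - k - l - i3)) (by omega)) (sh al (-1) (t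 + (n + 2 * i2 + l2 - k - l - i3)) (t + (2 * i2 + l2 - k - l - i3)) (by omega))))))

theorem t1c_7 {W : ℤ → G} {n Q i j k l i2 l2 i3 : ℤ} (al : AL W n Q)
    (hy : (0) ≤ (i) ∧ (i) ≤ (j) ∧ (j + 1) ≤ (Q) ∧ (Q) ≤ (k) ∧ (k + 1) ≤ (n) ∧ (Q) ≤ (i + l + 1) ∧ (k + l + 2) ≤ (n) ∧ (Q) ≤ (i2) ∧ (i2) ≤ (i + l + 1) ∧ (Q) ≤ (i2 + l2 + 1) ∧ (i2 + l2 + 2) ≤ (n) ∧ (n) ≤ (k + l + l2 + 2) ∧ (k + l + l2 + 3) ≤ (n + Q) ∧ (0) ≤ (i3) ∧ (n + i3) ≤ (k + l + l2 + 2) ∧ (k + i2 + l2 + 2) ≤ (n + j + i3) ∧ (j + i3 + 1) ≤ (k) ∧ (k + i2 + l2 + 2) ≤ (n + i3) ∧ (i + 2 * i2 + 1) ≤ (2 * Q + k) ∧ (i + l + 1) ≤ (i2 + l2) ∧ (i2 + l2 + 1) ≤ (k + l) ∧ (i3 + 1) ≤ (i))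
    (a1 : Par W (0) (j) (k - j))
    (a2 : Par W (Q + j - k) (j) (k - j))
    (s1 : Ant W (0) (i) (i + j))
    (s2 : Ant W (j + 1) (Q) (i + j))
    (b : Par W (i + 1) (i + l + 1) (k - i))
    (tt : Ant W (Q) (i2) (i + l + i2 + 1))
    (c : Par W (i2 + 1) (i2 + l2 + 1) (k + l - i2 + 1))
    (u1 : Ant W (0) (i3) (k + l + l2 + i3 - n + 2))
    (u2 : Ant W (k + l + l2 - n + 3) (Q) (k + l + l2 + i3 - n + 2))
    (D1 : Par W (i3 + 1) (Q) (i2 + l2 - i3 + 1))
    (D2 : Par W (i2 + l2 + 2) (n) (i3 - i2 - l2 - 1))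
    {L : ℤ} (mx : ∀ a b g, 0 < g → g < n → Par W a b g → b - a ≤ L)
    (hL : L ≤ (n - j - 3) ∧ L ≤ (n + Q - k - 3) ∧ L ≤ (n - l - 3) ∧ L ≤ (n + i - k - 2) ∧ L ≤ (n - l2 - 3) ∧ L ≤ (n + i3 - Q - 2) ∧ L ≤ (i2 + l2 - 1) ∧ L ≤ (n + i2 - k - l - 3) ∧ L ≤ (Q + i2 + l2 - l - i3 - 3))
    (bd0 : Bd W n L (j) (i) (k))
    (bd2 : Bd W n L (k + l + l2 - n + 2) (i3) (i2 + l2 + 1))
    (n1 : Nd W (j) (i) (k))
    (n2 : Nd W (i + l + 1) (i2) (k + l + 1))
    (n3 : Nd W (k + l + l2 - n + 2) (i3) (i2 + l2 + 1))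
    (b0 : (2 * l + i3 + 3) ≤ (Q + i2 + l2))
    (b1 : (n + l + i3 + 1) ≤ (Q + 2 * i2 + 2 * l2))
    (b2 : (2 * i + j + 1) ≤ (k))
    (b3 : (n + 2 * Q) ≤ (i + l + i2 + 2 * l2 + 4))
    (b4 : (l + i3 + 3) ≤ (Q + i2))
    (b5 : (k + l + i3 + 2) ≤ (2 * Q + l2)) : False := by
  have ev := al.ev
  obtain ⟨y0, y1, y2, y3, y4, y5, y6, y7, y8, y9, y10, y11, y12, y13, y14, y15, y16, y17, y18, y19, y20, y21⟩ := id hy
  have n1p := And.intro n1.p1 n1.p2
  have n2p := And.intro n2.p1 n2.p2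
  have n3p := And.intro n3.p1 n3.p2
  by_cases z18 : (k + l + 2 * i2 + 3 * l2 + 6) ≤ (2 * n + 2 * Q + i3)
  · exact t1c_8 al hy a1 a2 s1 s2 b tt c u1 u2 D1 D2 mx hL bd0 bd2 n1 n2 n3 (by clear * - b0; omega) (by clear * - b1; omega) (by clear * - b2; omega) (by clear * - b3; omega) (by clear * - b4; omega) (by clear * - b5; omega) (by clear * - z18; omega)
  · exact t1c_9 al hy a1 a2 s1 s2 b tt c u1 u2 D1 D2 mx hL bd0 bd2 n1 n2 n3 (by clear * - b0; omega) (by clear * - b2; omega) (by clear * - b4; omega) (by clear * - b5; omega) (by clear * - z18; omega)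

theorem t1c_6 {W : ℤ → G} {n Q i j k l i2 l2 i3 : ℤ} (al : AL W n Q)
    (hy : (0) ≤ (i) ∧ (i) ≤ (j) ∧ (j + 1) ≤ (Q) ∧ (Q) ≤ (k) ∧ (k + 1) ≤ (n) ∧ (Q) ≤ (i + l + 1) ∧ (k + l + 2) ≤ (n) ∧ (Q) ≤ (i2) ∧ (i2) ≤ (i + l + 1) ∧ (Q) ≤ (i2 + l2 + 1) ∧ (i2 + l2 + 2) ≤ (n) ∧ (n) ≤ (k + l + l2 + 2) ∧ (k + l + l2 + 3) ≤ (n + Q) ∧ (0) ≤ (i3) ∧ (n + i3) ≤ (k + l + l2 + 2) ∧ (k + i2 + l2 + 2) ≤ (n + j + i3) ∧ (j + i3 + 1) ≤ (k) ∧ (k + i2 + l2 + 2) ≤ (n + i3) ∧ (i + 2 * i2 + 1) ≤ (2 * Q + k) ∧ (i + l + 1) ≤ (i2 + l2) ∧ (i2 + l2 + 1) ≤ (k + l) ∧ (i3 + 1) ≤ (i))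
    (a1 : Par W (0) (j) (k - j))
    (a2 : Par W (Q + j - k) (j) (k - j))
    (s1 : Ant W (0) (i) (i + j))
    (s2 : Ant W (j + 1) (Q) (i + j))
    (b : Par W (i + 1) (i + l + 1) (k - i))
    (tt : Ant W (Q) (i2) (i + l + i2 + 1))
    (c : Par W (i2 + 1) (i2 + l2 + 1) (k + l - i2 + 1))
    (u1 : Ant W (0) (i3) (k + l + l2 + i3 - n + 2))
    (u2 : Ant W (k + l + l2 - n + 3) (Q) (k + l + l2 + i3 - n + 2))
    (D1 : Par W (i3 + 1) (Q) (i2 + l2 - i3 + 1))
    (D2 : Par W (i2 + l2 + 2) (n) (i3 - i2 - l2 - 1))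
    {L : ℤ} (mx : ∀ a b g, 0 < g → g < n → Par W a b g → b - a ≤ L)
    (hL : L ≤ (n - j - 3) ∧ L ≤ (n + Q - k - 3) ∧ L ≤ (n - l - 3) ∧ L ≤ (n + i - k - 2) ∧ L ≤ (n - l2 - 3) ∧ L ≤ (n + i3 - Q - 2) ∧ L ≤ (i2 + l2 - 1) ∧ L ≤ (n + i2 - k - l - 3) ∧ L ≤ (Q + i2 + l2 - l - i3 - 3))
    (bd0 : Bd W n L (j) (i) (k))
    (bd2 : Bd W n L (k + l + l2 - n + 2) (i3) (i2 + l2 + 1))
    (n1 : Nd W (j) (i) (k))
    (n2 : Nd W (i + l + 1) (i2) (k + l + 1))
    (n3 : Nd W (k + l + l2 - n + 2) (i3) (i2 + l2 + 1))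
    (b0 : (2 * l + i3 + 3) ≤ (Q + i2 + l2))
    (b1 : (n + l + i3 + 1) ≤ (Q + 2 * i2 + 2 * l2))
    (b2 : (2 * i + j + 1) ≤ (k))
    (b3 : (n + 2 * Q) ≤ (i + l + i2 + 2 * l2 + 4))
    (b4 : (l + i3 + 3) ≤ (Q + i2)) : False := by
  have ev := al.ev
  obtain ⟨y0, y1, y2, y3, y4, y5, y6, y7, y8, y9, y10, y11, y12, y13, y14, y15, y16, y17, y18, y19, y20, y21⟩ := id hy
  have n1p := And.intro n1.p1 n1.p2
  have n2p := And.intro n2.p1 n2.p2
  have n3p := And.intro n3.p1 n3.p2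
  by_cases z17 : (k + l + i3 + 2) ≤ (2 * Q + l2)
  · exact t1c_7 al hy a1 a2 s1 s2 b tt c u1 u2 D1 D2 mx hL bd0 bd2 n1 n2 n3 (by clear * - b0; omega) (by clear * - b1; omega) (by clear * - b2; omega) (by clear * - b3; omega) (by clear * - b4; omega) (by clear * - z17; omega)
  · exact t1c_33 al hy a1 a2 s1 s2 b tt c u1 u2 D1 D2 mx hL bd0 bd2 n1 n2 n3 (by clear * - b0; omega) (by clear * - b1; omega) (by clear * - b2; omega) (by clear * - b3; omega) (by clear * - b4; omega) (by clear * - z17; omega)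

theorem t1c_5 {W : ℤ → G} {n Q i j k l i2 l2 i3 : ℤ} (al : AL W n Q)
    (hy : (0) ≤ (i) ∧ (i) ≤ (j) ∧ (j + 1) ≤ (Q) ∧ (Q) ≤ (k) ∧ (k + 1) ≤ (n) ∧ (Q) ≤ (i + l + 1) ∧ (k + l + 2) ≤ (n) ∧ (Q) ≤ (i2) ∧ (i2) ≤ (i + l + 1) ∧ (Q) ≤ (i2 + l2 + 1) ∧ (i2 + l2 + 2) ≤ (n) ∧ (n) ≤ (k + l + l2 + 2) ∧ (k + l + l2 + 3) ≤ (n + Q) ∧ (0) ≤ (i3) ∧ (n + i3) ≤ (k + l + l2 + 2) ∧ (k + i2 + l2 + 2) ≤ (n + j + i3) ∧ (j + i3 + 1) ≤ (k) ∧ (k + i2 + l2 + 2) ≤ (n + i3) ∧ (i + 2 * i2 + 1) ≤ (2 * Q + k) ∧ (i + l + 1) ≤ (i2 + l2) ∧ (i2 + l2 + 1) ≤ (k + l) ∧ (i3 + 1) ≤ (i))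
    (a1 : Par W (0) (j) (k - j))
    (a2 : Par W (Q + j - k) (j) (k - j))
    (s1 : Ant W (0) (i) (i + j))
    (s2 : Ant W (j + 1) (Q) (i + j))
    (b : Par W (i + 1) (i + l + 1) (k - i))
    (tt : Ant W (Q) (i2) (i + l + i2 + 1))
    (c : Par W (i2 + 1) (i2 + l2 + 1) (k + l - i2 + 1))
    (u1 : Ant W (0) (i3) (k + l + l2 + i3 - n + 2))
    (u2 : Ant W (k + l + l2 - n + 3) (Q) (k + l + l2 + i3 - n + 2))
    (D1 : Par W (i3 + 1) (Q) (i2 + l2 - i3 + 1))
    (D2 : Par W (i2 + l2 + 2) (n) (i3 - i2 - l2 - 1))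
    {L : ℤ} (mx : ∀ a b g, 0 < g → g < n → Par W a b g → b - a ≤ L)
    (hL : L ≤ (n - j - 3) ∧ L ≤ (n + Q - k - 3) ∧ L ≤ (n - l - 3) ∧ L ≤ (n + i - k - 2) ∧ L ≤ (n - l2 - 3) ∧ L ≤ (n + i3 - Q - 2) ∧ L ≤ (i2 + l2 - 1) ∧ L ≤ (n + i2 - k - l - 3) ∧ L ≤ (Q + i2 + l2 - l - i3 - 3))
    (bd0 : Bd W n L (j) (i) (k))
    (bd2 : Bd W n L (k + l + l2 - n + 2) (i3) (i2 + l2 + 1))
    (n1 : Nd W (j) (i) (k))
    (n2 : Nd W (i + l + 1) (i2) (k + l + 1))
    (n3 : Nd W (k + l + l2 - n + 2) (i3) (i2 + l2 + 1))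
    (b0 : (2 * l + i3 + 3) ≤ (Q + i2 + l2))
    (b1 : (n + l + i3 + 1) ≤ (Q + 2 * i2 + 2 * l2))
    (b2 : (2 * i + j + 1) ≤ (k))
    (b3 : (n + 2 * Q) ≤ (i + l + i2 + 2 * l2 + 4)) : False := by
  have ev := al.ev
  obtain ⟨y0, y1, y2, y3, y4, y5, y6, y7, y8, y9, y10, y11, y12, y13, y14, y15, y16, y17, y18, y19, y20, y21⟩ := id hy
  have n1p := And.intro n1.p1 n1.p2
  have n2p := And.intro n2.p1 n2.p2
  have n3p := And.intro n3.p1 n3.p2
  by_cases z16 : (Q + i2) ≤ (l + i3 + 2)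
  · have kk216 : (i2) ≤ (k + l) := by clear * - b1 y17 y19 y20 y21 z16; omega
    have kk217 : (k + l + 2) ≤ (n + i2) := by clear * - b3 y12 y19 y20; omega
    have kk218 : (Q + i2) ≤ (l + i3 + 2) := by clear * - z16; omega
    clear * - al c mx hL kk216 kk217 kk218
    exact absurd (mx (i2 + 1) (i2 + l2 + 1) (k + l - i2 + 1) (by omega) (by omega) fun t h1 h2 => (qf c al 0 t (t + (k + l - i2 + 1)) (by omega))) (by omega)
  · exact t1c_6 al hy a1 a2 s1 s2 b tt c u1 u2 D1 D2 mx hL bd0 bd2 n1 n2 n3 (by clear * - b0; omega) (by clear * - b1; omega) (by clear * - b2; omega) (by clear * - b3; omega) (by clear * - z16; omega)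

end Pool.Agent.MP_a38735_al.WL
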