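import Pool.Agent.MP_a38735_al.WT

set_option autoImplicit false
set_option linter.unusedVariables false

namespace Pool.Agent.MP_a38735_al.WL

variable {G : Type*} [Group G]

theorem t2c_18 {W : ℤ → G} {n Q i j k l i2 l2 i3 : ℤ} (al : AL W n Q)
    (hy : (0) ≤ (i) ∧ (i) ≤ (j) ∧ (j + 1) ≤ (Q) ∧ (Q) ≤ (k) ∧ (k + 1) ≤ (n) ∧ (Q) ≤ (i + l + 1) ∧ (k + l + 2) ≤ (n) ∧ (Q) ≤ (i2) ∧ (i2) ≤ (i + l + 1) ∧ (Q) ≤ (i2 + l2 + 1) ∧ (i2 + l2 + 2) ≤ (n) ∧ (n) ≤ (k + l + l2 + 2) ∧ (k + l + l2 + 3) ≤ (n + Q) ∧ (0) ≤ (i3) ∧ (n + i3) ≤ (k + l + l2 + 2) ∧ (k + i2 + l2 + 2) ≤ (n + j + i3) ∧ (j + i3 + 1) ≤ (k) ∧ (k + i2 + l2 + 2) ≤ (n + i3) ∧ (i + 2 * i2 + 1) ≤ (2 * Q + k) ∧ (i + l + 1) ≤ (i2 + l2) ∧ (k + l + 1) ≤ (i2 + l2) ∧ (2 * k + 2 * l + 3) ≤ (n + i2) ∧ (i + 1) ≤ (i3))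
    (a1 : Par W (0) (j) (k - j))
    (a2 : Par W (Q + j - k) (j) (k - j))
    (s1 : Ant W (0) (i) (i + j))
    (s2 : Ant W (j + 1) (Q) (i + j))
    (b : Par W (i + 1) (i + l + 1) (k - i))
    (tt : Ant W (Q) (i2) (i + l + i2 + 1))
    (c : Par W (i2 + 1) (i2 + l2 + 1) (k + l - i2 + 1))
    (u1 : Ant W (0) (i3) (k + l + l2 + i3 - n + 2))
    (u2 : Ant W (k + l + l2 - n + 3) (Q) (k + l + l2 + i3 - n + 2))
    (D1 : Par W (i3 + 1) (Q) (i2 + l2 - i3 + 1))
    (D2 : Par W (i2 + l2 + 2) (n) (i3 - i2 - l2 - 1))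
    {L : ℤ} (mx : ∀ a b g, 0 < g → g < n → Par W a b g → b - a ≤ L)
    (hL : L ≤ (n - j - 3) ∧ L ≤ (n + Q - k - 3) ∧ L ≤ (n - l - 3) ∧ L ≤ (n + i - k - 2) ∧ L ≤ (n - l2 - 3) ∧ L ≤ (n + i3 - Q - 2) ∧ L ≤ (i2 + l2 - 1) ∧ L ≤ (n + i2 - k - l - 3) ∧ L ≤ (Q + i2 + l2 - i - l - 3))
    (bd0 : Bd W n L (j) (i) (k))
    (bd2 : Bd W n L (k + l + l2 - n + 2) (i3) (i2 + l2 + 1))
    (n1 : Nd W (j) (i) (k))
    (n2 : Nd W (i + l + 1) (i2) (k + l + 1))
    (n3 : Nd W (k + l + l2 - n + 2) (i3) (i2 + l2 + 1))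
    (b0 : (2 * l2 + 3) ≤ (n))
    (b1 : (2 * Q + i2 + l2) ≤ (n + i + j + i3))
    (b2 : (2 * i + l + i2 + 2) ≤ (2 * Q + k))
    (b3 : (j + l + l2 + i3 + 3) ≤ (n))
    (b4 : (i + k + 2 * l + 3) ≤ (Q + i2 + l2))
    (b5 : (n + i + j) ≤ (k + l + l2 + 1))
    (b6 : (l + 2 * i3) ≤ (Q + i + i2))
    (b7 : (j + 1) ≤ (i3))
    (b8 : (Q + l + l2 + 1) ≤ (n + i)) : False := by
  have ev := al.ev
  obtain ⟨y0, y1, y2, y3, y4, y5, y6, y7, y8, y9, y10, y11, y12, y13, y14, y15, y16, y17, y18, y19, y20, y21, y22⟩ := id hy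
  have n1p := And.intro n1.p1 n1.p2
  have n2p := And.intro n2.p1 n2.p2
  have n3p := And.intro n3.p1 n3.p2
  by_cases z38 : (j + l + i3 + 1) ≤ (Q + i2)
  · by_cases v16 : (i + j + 1) ≤ (i3)
    · have kk416 : (i3 + 1) ≤ (k) := by clear * - b1 b5 b6 y15 y22; omega
      have kk417 : (k + i2 + l2 + 2) ≤ (n + i3) := by clear * - y17; omega
      have kk418 : (n + i + j) ≤ (k + l + l2 + i3 + 1) := by clear * - b7 y14 y22; omega
      have kk419 : (k + l + l2 + 3) ≤ (n + Q) := by clear * - b6 y17 y22; omega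
      have kk420 : (i + 1) ≤ (Q) := by clear * - b5 b6 y15 y22; omega
      have kk421 : (j + 1) ≤ (i3) := by clear * - b7; omega
      have kk422 : (n + i + j + i3) ≤ (Q + k + i2 + l2) := by clear * - b5 b6 y22; omega
      have kk423 : (k + i2 + l2 + 2) ≤ (n + 2 * i3) := by clear * - b7 y15; omega
      have kk424 : (l + 2 * i3) ≤ (Q + i + i2) := by clear * - b6; omega
      have kk425 : (i3 + 1) ≤ (Q) := by clear * - b5 b6 y15; omega
      have kk426 : (k + i2 + l2 + 1) ≤ (n + i3) := by clear * - y17; omega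
      have kk427 : (n + j) ≤ (k + l + l2 + 2) := by clear * - b7 y14; omega
      have kk428 : (2 * Q + i2 + l2) ≤ (n + i + j + i3) := by clear * - b1; omega
      have kk429 : (k + i2 + l2 + 1) ≤ (n + j + i3) := by clear * - y15; omega
      have kk430 : (j) ≤ (i3) := by clear * - b7; omega
      have kk431 : (i) ≤ (i3) := by clear * - y22; omega
      have kk432 : (i) ≤ (Q) := by clear * - b5 b6 y15 y22; omega
      have kk433 : (i + j + 1) ≤ (i3) := by clear * - v16; omega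
      have kk434 : (i + j + 1) ≤ (Q) := by clear * - b5 b6 y17 y22; omega
      have r435 : (k + i2 + l2 - n - j - i3 + 1) % 2 = 0 := by clear * - ev n1p n2p n3p; omega
      have r436 : (k + l + l2 + i3 - n - i - j + 2) % 2 = 0 := by clear * - ev n1p n2p n3p; omega
      have r437 : (i + j - 2 * n) % 2 = 0 := by clear * - ev n1p n2p n3p; omega
      clear * - al a2 s1 s2 u2 D2 n1 kk416 kk417 kk418 kk419 kk420 kk421 kk422 kk423 kk424 kk425 kk426 kk427 kk428 kk429 kk430 kk431 kk432 kk433 kk434 r435 r436 r437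
      exact ivt al.ninv (i + j - n - Q + 1) (i + j - k - l - l2 - 2) (k + l + l2 + i3 - n - i - j + 2) (i + 2 * j + i3 - Q - k - i2 - l2) (j - n) (k + i2 + l2 - n - j - i3 + 1) (j - n) (k + i2 + l2 - 2 * n - i3 + 1) 0 (fun t h1 h2 => (cE (cII (ab s2 al (-1) t ((i + j - n) - t) (by omega)) (qa u2 al 0 ((i + j - n) - t) (t + (k + l + l2 + i3 - i - j + 2)) (by omega))) (sh al (-1) (t + (k + l + l2 + i3 - i - j + 2)) (t + (k + l + l2 + i3 - n - i - j + 2)) (by omega)))) (fun t h1 h2 => (cE (sh al 2 t (t + (2 * n)) (by omega)) (cE (pb (show Par W (Q + i2 + l2 - i3 + 1) (k + i2 + l2 - i3 + 1) (n + j + i3 - k - i2 - l2 - 1) from fun t h1 h2 => (cE (sh al (-1) t (t + (-n)) (by omega)) (cE (cE (qf D2 al (-1) (t + (-n)) (t + (i3 - i2 - l2 - 1)) (by omega)) (pb a2 al 0 (t + (i3 - i2 - l2 - 1)) (t + (j + i3 - k - i2 - l2 - 1)) (by omega))) (sh al 1 (t + (j + i3 - k - i2 - l2 - 1)) (t + (n + j + i3 - k - i2 - l2 - 1)) (by omega))))) al 0 (t + (2 *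 n)) (t + (n + k + i2 + l2 - j - i3 + 1)) (by omega)) (sh al (-2) (t + (n + k + i2 + l2 - j - i3 + 1)) (t + (k + i2 + l2 - n - j - i3 + 1)) (by omega))))) (fun hh => n1.f0 (rEE (sh al (-1) (j) (j - n) (by omega)) (cE (pb D2 al 0 (k) (k + i2 + l2 - i3 + 1) (by omega)) (sh al (-2) (k + i2 + l2 - i3 + 1) (k + i2 + l2 - 2 * n - i3 + 1) (by omega))) (Eq.symm hh))) (by omega) (j - n + 1) (i + j - n + 1) (i + j - 2 * n) 0 0 (fun t h1 h2 => (cI (sh al 1 t (t + (n)) (by omega)) (cE (ab s1 al 0 (t + (n)) ((i + j - n) - t) (by omega)) (sh al (-1) ((i + j - n) - t) ((i + j - 2 * n) - t) (by omega))))) (by omega)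
    · have kk438 : (i3 + 1) ≤ (k) := by clear * - b3 b5 b7 v16 y22; omega
      have kk439 : (k + i2 + l2 + 2) ≤ (n + i3) := by clear * - y17; omega
      have kk440 : (n + i + j) ≤ (k + l + l2 + i3 + 1) := by clear * - b5 b7 v16 y22; omega
      have kk441 : (k + l + l2 + 3) ≤ (n + Q) := by clear * - b0 b4 b5 b7 v16 y17; omega
      have kk442 : (i + 1) ≤ (Q) := by clear * - b5 v16 y17 y22 z38; omega
      have kk443 : (j + 1) ≤ (i3) := by clear * - b7; omega
      have kk444 : (n + i + j + i3) ≤ (Q + k + i2 + l2) := by clear * - b0 b4 b5 b7 v16; omega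
      have kk445 : (k + i2 + l2 + 2) ≤ (n + 2 * i3) := by clear * - b7 v16 y17 y22; omega
      have kk446 : (j + l + i3 + 1) ≤ (Q + i2) := by clear * - z38; omega
      have kk447 : (i3 + 1) ≤ (Q) := by clear * - b0 b4 b5 b7 v16 y17; omega
      have kk448 : (k + i2 + l2 + 1) ≤ (n + i3) := by clear * - y17; omega
      have kk449 : (n + j) ≤ (k + l + l2 + 2) := by clear * - b5 b7 v16; omega
      have kk450 : (2 * Q + i2 + l2) ≤ (n + i + j + i3) := by clear * - b1; omega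
      have kk451 : (k + i2 + l2 + 1) ≤ (n + j + i3) := by clear * - v16 y17 y22; omega
      have kk452 : (j) ≤ (i3) := by clear * - b7; omega
      have kk453 : (i) ≤ (i3) := by clear * - y22; omega
      have kk454 : (i) ≤ (Q) := by clear * - b5 v16 y17 y22 z38; omega
      have kk455 : (i3) ≤ (i + j + 1) := by clear * - v16; omega
      have kk456 : (i3) ≤ (Q) := by clear * - b0 b4 b5 b7 v16 y17; omega
      have r457 : (k + i2 + l2 - n - j - i3 + 1) % 2 = 0 := by clear * - ev n1p n2p n3p; omega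
      have r458 : (k + l + l2 + i3 - n - i - j + 2) % 2 = 0 := by clear * - ev n1p n2p n3p; omega
      have r459 : (i + j - 2 * n) % 2 = 0 := by clear * - ev n1p n2p n3p; omega
      clear * - al a2 s1 s2 u2 D2 n1 kk438 kk439 kk440 kk441 kk442 kk443 kk444 kk445 kk446 kk447 kk448 kk449 kk450 kk451 kk452 kk453 kk454 kk455 kk456 r457 r458 r459
      exact ivt al.ninv (i + j - n - Q + 1) (i + j - k - l - l2 - 2) (k + l + l2 + i3 - n - i - j + 2) (i + 2 * j + i3 - Q - k - i2 - l2) (j - n) (k + i2 + l2 - n - j - i3 + 1) (j - n) (k + i2 + l2 - 2 * n - i3 + 1) 0 (fun t h1 h2 => (cE (cII (ab s2 al (-1) t ((i + j - n) - t) (by omega)) (qa u2 al 0 ((i + j - n) - t) (t + (k + l + l2 + i3 - i - j + 2)) (by omega))) (sh al (-1) (t + (k + l + l2 + i3 - i - j + 2)) (t + (k + l + l2 + i3 - n - i - j + 2)) (by omega)))) (fun t h1 h2 => (cE (sh al 2 t (t + (2 * n)) (by omega)) (cE (pb (show Par W (Q + i2 + l2 - i3 + 1) (k + i2 + l2 - i3 + 1) (n + j + i3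 - k - i2 - l2 - 1) from fun t h1 h2 => (cE (sh al (-1) t (t + (-n)) (by omega)) (cE (cE (qf D2 al (-1) (t + (-n)) (t + (i3 - i2 - l2 - 1)) (by omega)) (pb a2 al 0 (t + (i3 - i2 - l2 - 1)) (t + (j + i3 - k - i2 - l2 - 1)) (by omega))) (sh al 1 (t + (j + i3 - k - i2 - l2 - 1)) (t + (n + j + i3 - k - i2 - l2 - 1)) (by omega))))) al 0 (t + (2 * n)) (t + (n + k + i2 + l2 - j - i3 + 1)) (by omega)) (sh al (-2) (t + (n + k + i2 + l2 - j - i3 + 1)) (t + (k + i2 + l2 - n - j - i3 + 1)) (by omega))))) (fun hh => n1.f0 (rEE (sh al (-1) (j) (j - n) (by omega)) (cE (pb D2 al 0 (k) (k + i2 + l2 - i3 + 1) (by omega)) (sh al (-2) (k + i2 + l2 - i3 + 1) (k + i2 + l2 - 2 * n - i3 + 1) (by omega))) (Eq.symm hh))) (by omega) (j - n + 1) (i3 - n) (i + j - 2 * n) 0 0 (fun t h1 h2 => (cI (sh al 1 t (t + (n)) (by omega)) (cE (ab s1 al 0 (t + (n)) ((i + j - n) - t) (by omega)) (sh al (-1) ((i + j - n) - t) ((i + j - 2 * n) - t) (by omega))))) (by omega)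
  · by_cases z39 : (2 * n + i + 2 * j) ≤ (2 * k + l + i2 + 2 * l2 + 2)
    · by_cases z40 : (n + k + l + i3) ≤ (3 * i2 + 2 * l2 + 1)
      · by_cases z41 : (3 * i2 + l2) ≤ (2 * k + 2 * l + i3)
        · have kk460 : (3 * i2 + l2) ≤ (2 * k + 2 * l + i3) := by clear * - z41; omega
          have kk461 : (2 * k + 2 * l + i3 + 2) ≤ (n + 3 * i2 + l2) := by clear * - b0 b5 b6 y21 z38 z40 z41; linarith
          have kk462 : (2 * k + 2 * l + 3) ≤ (n + i2) := by clear * - y21; omega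
          have kk463 : (i3) ≤ (i2) := by clear * - b0 b5 b6 y21 z38 z40 z41; linarith
          have kk464 : (i2) ≤ (k + l + 1) := by clear * - b0 b5 b6 y21 z38 z40 z41; linarith
          have kk465 : (n + i3) ≤ (2 * i2 + 2 * l2 + 2) := by clear * - b0 b5 b6 y21 z38 z40 z41; linarith
          have kk466 : (n + k + l + i3) ≤ (3 * i2 + 2 * l2 + 1) := by clear * - z40; omega
          clear * - al c D2 kk460 kk461 kk462 kk463 kk464 kk465 kk466
          exact al.ubP (2 * k + 2 * l + i3 - 3 * i2 - l2 + 1) (by omega) (by omega) fun t h1 h2 => (cE (cE (cE (qf D2 al (-1) t (t + (n + i3 - i2 - l2 - 1)) (by omega)) (qf c al 0 (t + (n + i3 - i2 - l2 - 1)) (t + (n + k + l + i3 - 2 * i2 - l2)) (by omega))) (qf c al 0 (t + (n + k + l + i3 - 2 * i2 - l2)) (t + (n + 2 * k + 2 * l + i3 - 3 * i2 - l2 + 1)) (by omega))) (sh al (-1) (t + (n + 2 * k + 2 * l + i3 - 3 * i2 - l2 + 1)) (t + (2 * k + 2 * l + i3 - 3 * i2 - l2 + 1)) (by omega)))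
        · by_cases v17 : (k) ≤ (i2)
          · by_cases v18 : (i + 2 * i2 + l2) ≤ (Q + 2 * k + l)
            · have kk467 : (3 * k + 2 * l + 3) ≤ (n + i + 2 * i2) := by clear * - b3 b4 b6 b7 v17 z38; omega
              have kk468 : (3 * k + 2 * l + 4) ≤ (n + i + 2 * i2) := by clear * - b3 b4 b6 b7 v17 z38; omega
              have kk469 : (5 * k + 4 * l + 4) ≤ (n + i + 4 * i2 + 2 * l2) := by clear * - b3 b4 b6 b7 v17 v18 z38 z39; linarith
              have kk470 : (7 * k + 4 * l + 2 * i3 + 4) ≤ (n + 3 * i + 6 * i2 + 2 * l2) := by clear * - b3 b4 b5 b6 b7 v17 z38; linarith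
              have kk471 : (i2) ≤ (k + l + 1) := by clear * - b3 b4 b6 b7 v17 v18 z38 z39; linarith
              have kk472 : (k) ≤ (i2) := by clear * - v17; omega
              have kk473 : (2 * i2 + l2) ≤ (2 * k + 2 * l + 1) := by clear * - b3 b5 b6 b7 v17 v18 z38 z41; linarith
              have kk474 : (i + i2) ≤ (k + i3) := by clear * - b4 b5 b7 b8 v18 z38 z40; linarith
              have kk475 : (i + 2 * i2 + l2) ≤ (Q + 2 * k + l) := by clear * - v18; omega
              have r476 : (k + l + l2 + i3 - n + 2) % 2 = 0 := by clear * - ev n1p n2p n3p; omega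
              have r477 : (n + i + 2 * i2 - 3 * k - 2 * l - 2) % 2 = 0 := by clear * - ev n1p n2p n3p; omega
              clear * - al b c u2 kk467 kk468 kk469 kk470 kk471 kk472 kk473 kk474 kk475 r476 r477
              exact midP al (n + i + 2 * i2 - 3 * k - 2 * l - 2) (k + l + l2 + i3 - n + 2) (3 * k + 2 * l + i3 - n - i - 2 * i2 + 3) (2 * k + 2 * l - n - i2 + 3) (i + 2 * i2 + l2 - 2 * k - l) (by omega) (fun t h1 h2 => (ab u2 al 0 t ((k + l + l2 + i3 - n + 2) - t) (by omega))) (fun t h1 h2 => (cE (cE (pb c al (-1) t (t + (n + i2 - k - l - 1)) (by omega)) (pb c al 0 (t + (n + i2 - k - l - 1)) (t + (n + 2 * i2 - 2 * k - 2 * l - 2)) (by omega))) (pb b al 0 (t + (n + 2 * i2 - 2 * k - 2 * l - 2)) (t + (n + i + 2 * i2 - 3 * k - 2 * l - 2)) (by omega))))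
            · have kk478 : (3 * k + 2 * l + 3) ≤ (n + i + 2 * i2) := by clear * - b3 b4 b6 b7 v17 z38; omega
              have kk479 : (i + 2 * i2 + 2 * l2 + 4) ≤ (n + 2 * Q + k) := by clear * - b0 y18; omega
              have kk480 : (i + k + 2 * l + 4) ≤ (n + 2 * Q) := by clear * - b2 b3 b6 b7 v17 v18 z38 z39; linarith
              have kk481 : (3 * k + 2 * l + 2 * i3 + 4) ≤ (n + 2 * Q + i + 2 * i2) := by clear * - b2 b3 b5 b6 b7 v17 v18 z38; linarith
              have kk482 : (i2) ≤ (k + l + 1) := by clear * - b2 b3 b6 b7 v17 z38 z39; linarith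
              have kk483 : (k) ≤ (i2) := by clear * - v17; omega
              have kk484 : (2 * i2 + l2) ≤ (2 * k + 2 * l + 1) := by clear * - b0 b2 b3 b5 b6 b7 v17 z38; linarith
              have kk485 : (i + i2) ≤ (k + i3) := by clear * - b2 b5 b6 b7 b8 v17 z38; linarith
              have kk486 : (Q + 2 * k + l) ≤ (i + 2 * i2 + l2) := by clear * - v18; omega
              have r487 : (k + l + l2 + i3 - n + 2) % 2 = 0 := by clear * - ev n1p n2p n3p; omega
              have r488 : (n + i + 2 * i2 - 3 * k - 2 * l - 2) % 2 = 0 := by clear * - ev n1p n2p n3p; omega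
              clear * - al b c u2 kk478 kk479 kk480 kk481 kk482 kk483 kk484 kk485 kk486 r487 r488
              exact midP al (n + i + 2 * i2 - 3 * k - 2 * l - 2) (k + l + l2 + i3 - n + 2) (k + l + l2 + i3 - n - Q + 3) (2 * k + 2 * l - n - i2 + 3) (i + 2 * i2 + l2 - 2 * k - l) (by omega) (fun t h1 h2 => (ab u2 al 0 t ((k + l + l2 + i3 - n + 2) - t) (by omega))) (fun t h1 h2 => (cE (cE (pb c al (-1) t (t + (n + i2 - k - l - 1)) (by omega)) (pb c al 0 (t + (n + i2 - k - l - 1)) (t + (n + 2 * i2 - 2 * k - 2 * l - 2)) (by omega))) (pb b al 0 (t + (n + 2 * i2 - 2 * k - 2 * l - 2)) (t + (n + i + 2 * i2 - 3 * k - 2 * l - 2)) (by omega))))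
          · by_cases v19 : (i + 2 * i2 + l2) ≤ (Q + 2 * k + l)
            · have kk489 : (3 * k + 2 * l + 3) ≤ (n + i + 2 * i2) := by clear * - b6 b7 y17 z38 z41; omega
              have kk490 : (3 * k + 2 * l + 4) ≤ (n + i + 2 * i2) := by clear * - b6 b7 y17 z38 z41; omega
              have kk491 : (7 * k + 4 * l + 4) ≤ (n + i + 6 * i2 + 2 * l2) := by clear * - b6 b7 y17 z38 z40 z41; omega
              have kk492 : (7 * k + 4 * l + 2 * i3 + 4) ≤ (n + 3 * i + 6 * i2 + 2 * l2) := by clear * - b6 b7 y17 z38 z39 z41; omega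
              have kk493 : (i2) ≤ (k + l + 1) := by clear * - b0 b5 b6 b7 v19 y21 z38 z41; linarith
              have kk494 : (i2) ≤ (k) := by clear * - v17; omega
              have kk495 : (2 * i2 + l2) ≤ (2 * k + 2 * l + 1) := by clear * - b0 b5 b6 b7 v19 y21 z38; linarith
              have kk496 : (i) ≤ (i3) := by clear * - b7 v19 z38 z41; omega
              have kk497 : (i + 2 * i2 + l2) ≤ (Q + 2 * k + l) := by clear * - v19; omega
              have r498 : (k + l + l2 + i3 - n + 2) % 2 = 0 := by clear * - ev n1p n2p n3p; omega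
              have r499 : (n + i + 2 * i2 - 3 * k - 2 * l - 2) % 2 = 0 := by clear * - ev n1p n2p n3p; omega
              clear * - al b c u2 kk489 kk490 kk491 kk492 kk493 kk494 kk495 kk496 kk497 r498 r499
              exact midP al (n + i + 2 * i2 - 3 * k - 2 * l - 2) (k + l + l2 + i3 - n + 2) (3 * k + 2 * l + i3 - n - i - 2 * i2 + 3) (3 * k + 2 * l - n - 2 * i2 + 3) (i + 2 * i2 + l2 - 2 * k - l) (by omega) (fun t h1 h2 => (ab u2 al 0 t ((k + l + l2 + i3 - n + 2) - t) (by omega))) (fun t h1 h2 => (cE (cE (pb c al (-1) t (t + (n + i2 - k - l - 1)) (by omega)) (pb c al 0 (t + (n + i2 - k - l - 1)) (t + (n + 2 * i2 - 2 * k - 2 * l - 2)) (by omega))) (pb b al 0 (t + (n + 2 * i2 - 2 * k - 2 * l - 2)) (t + (n + i + 2 * i2 - 3 * k - 2 * l - 2)) (by omega))))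
            · have kk500 : (3 * k + 2 * l + 3) ≤ (n + i + 2 * i2) := by clear * - b0 v19 y18; omega
              have kk501 : (i + 2 * i2 + 2 * l2 + 4) ≤ (n + 2 * Q + k) := by clear * - b0 y18; omega
              have kk502 : (i + 3 * k + 2 * l + 4) ≤ (n + 2 * Q + 2 * i2) := by clear * - b0 b5 v19 y18 z38 z40; omega
              have kk503 : (3 * k + 2 * l + 2 * i3 + 4) ≤ (n + 2 * Q + i + 2 * i2) := by clear * - b0 b5 b6 v19 y18 z38; omega
              have kk504 : (i2) ≤ (k + l + 1) := by clear * - b0 b2 b5 b6 b7 y21 z38; linarith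
              have kk505 : (i2) ≤ (k) := by clear * - v17; omega
              have kk506 : (2 * i2 + l2) ≤ (2 * k + 2 * l + 1) := by clear * - b0 b5 b6 b7 v17 v19 y18 z38; linarith
              have kk507 : (i) ≤ (i3) := by clear * - b0 b4 b5 b6 b7 z38; omega
              have kk508 : (Q + 2 * k + l) ≤ (i + 2 * i2 + l2) := by clear * - v19; omega
              have r509 : (k + l + l2 + i3 - n + 2) % 2 = 0 := by clear * - ev n1p n2p n3p; omega
              have r510 : (n + i + 2 * i2 - 3 * k - 2 * l - 2) % 2 = 0 := by clear * - ev n1p n2p n3p; omega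
              clear * - al b c u2 kk500 kk501 kk502 kk503 kk504 kk505 kk506 kk507 kk508 r509 r510
              exact midP al (n + i + 2 * i2 - 3 * k - 2 * l - 2) (k + l + l2 + i3 - n + 2) (k + l + l2 + i3 - n - Q + 3) (3 * k + 2 * l - n - 2 * i2 + 3) (i + 2 * i2 + l2 - 2 * k - l) (by omega) (fun t h1 h2 => (ab u2 al 0 t ((k + l + l2 + i3 - n + 2) - t) (by omega))) (fun t h1 h2 => (cE (cE (pb c al (-1) t (t + (n + i2 - k - l - 1)) (by omega)) (pb c al 0 (t + (n + i2 - k - l - 1)) (t + (n + 2 * i2 - 2 * k - 2 * l - 2)) (by omega))) (pb b al 0 (t + (n + 2 * i2 - 2 * k - 2 * l - 2)) (t + (n + i + 2 * i2 - 3 * k - 2 * l - 2)) (by omega))))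
      · by_cases z42 : (n + 2 * Q + j + i3) ≤ (i + k + l + 2 * i2 + l2 + 3)
        · have kk511 : (i + k + l + l2 + 4) ≤ (n + j + i3) := by clear * - b0 b4 z38; omega
          have kk512 : (n + 2 * Q + j + i3) ≤ (i + k + l + 2 * i2 + l2 + 3) := by clear * - z42; omega
          have kk513 : (i3) ≤ (i + l + 1) := by clear * - b0 b4 b5 b6 y17 z38 z39 z42; linarith
          have kk514 : (i2) ≤ (k) := by clear * - b2 b4 b5 b6 b7 z38 z40 z42; linarith
          have kk515 : (i + l + 2 * i2 + l2 + 3) ≤ (n + Q + i3) := by clear * - b4 z40; omega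
          have r516 : (i + j + l + 2 * i2 + l2 - n - k - i3 + 2) % 2 = 0 := by clear * - ev n1p n2p n3p; omega
          clear * - al a2 tt D2 kk511 kk512 kk513 kk514 kk515 r516
          obtain ⟨t, ht⟩ : ∃ t, 2 * t = (i + j + l + 2 * i2 + l2 - n - k - i3 + 2) := ⟨(i + j + l + 2 * i2 + l2 - n - k - i3 + 2) / 2, by omega⟩
          exact al.ninv t (cE (cI (qf D2 al (-1) t (t + (n + i3 - i2 - l2 - 1)) (by omega)) (ab tt al 0 (t + (n + i3 - i2 - l2 - 1)) ((i + l + 2 * i2 + l2 - n - i3 + 2) - t) (by omega))) (pb a2 al 0 ((i + l + 2 * i2 + l2 - n - i3 + 2) - t) t (by omega)))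
        · have kk517 : (n + 2 * i + j + i2 + 1) ≤ (2 * Q + 2 * k + l) := by clear * - b0 b5 b6 z38 z39 z42; omega
          have kk518 : (j + 2 * k + l + 2) ≤ (n + 2 * i + i2) := by clear * - b0 b5 b6 b7 y21 z38 z39 z42; linarith
          have kk519 : (Q) ≤ (i + l + 1) := by clear * - b0 b5 b6 b7 y21 z38; omega
          have kk520 : (Q + k) ≤ (i + i2 + l2 + 1) := by clear * - b0 b5 b6 b7 y21 z38 z39 z42; linarith
          have kk521 : (i) ≤ (j) := by clear * - b0 b4 b5 b6 z38; omega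
          have kk522 : (i + i2) ≤ (j + k) := by clear * - b0 b4 b5 b6 b7 b8 z38 z42; linarith
          have r523 : (n + j + 2 * k + l - i2 + 1) % 2 = 0 := by clear * - ev n1p n2p n3p; omega
          clear * - al s2 b c kk517 kk518 kk519 kk520 kk521 kk522 r523
          obtain ⟨t, ht⟩ : ∃ t, 2 * t = (n + j + 2 * k + l - i2 + 1) := ⟨(n + j + 2 * k + l - i2 + 1) / 2, by omega⟩
          exact al.ninv t (cE (cE (ab s2 al 1 t ((n + i + j) - t) (by omega)) (qf b al 0 ((n + i + j) - t) ((n + j + k) - t) (by omega))) (qf c al 0 ((n + j + k) - t) t (by omega)))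
    · by_cases z43 : (i + 2 * i2 + l2) ≤ (2 * k + l + i3)
      · by_cases z44 : (2 * k + l + i3) ≤ (i + 2 * i2 + l2)
        · have kk524 : (i + 1) ≤ (i3) := by clear * - b0 b4 b5 b6 b7 z38; omega
          have kk525 : (i3) ≤ (i + l) := by clear * - b0 b4 b5 b6 b7 b8 z38 z39 z44; linarith
          have kk526 : (i + 2 * i2 + l2) ≤ (2 * k + l + i3) := by clear * - z43; omega
          have kk527 : (2 * k + l + i3) ≤ (i + 2 * i2 + l2) := by clear * - z44; omega
          have kk528 : (i2) ≤ (k) := by clear * - b4 b5 b6 b7 b8 z38 z39 z43; linarith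
          have kk529 : (k + l) ≤ (i2 + l2) := by clear * - b0 b4 b5 b6 b7 b8 z38 z39 z44; linarith
          clear * - al b c n3 kk524 kk525 kk526 kk527 kk528 kk529
          exact n3.f1 (cE (qf b al 0 (i3) (k + i3 - i) (by omega)) (qf c al 0 (k + i3 - i) (i2 + l2 + 1) (by omega)))
        · by_cases z45 : (2 * n + i + 2 * j) ≤ (2 * k + l + i2 + 2 * l2 + 3)
          · by_cases v20 : (k + l + l2 + i3 + 3) ≤ (n + Q)
            · have kk530 : (0) ≤ (j) := by clear * - b0 b4 b6 b7 v20 z38 z45; linarith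
              have kk531 : (j + 1) ≤ (i3) := by clear * - b7; omega
              have kk532 : (2 * k + l + i2 + 2 * l2 + 3) ≤ (2 * n + i + 2 * j) := by clear * - z39; omega
              have kk533 : (2 * n + i + 2 * j) ≤ (2 * k + l + i2 + 2 * l2 + 3) := by clear * - z45; omega
              have kk534 : (k + l + i2 + 2 * l2 + i3 + 4) ≤ (2 * n + i + j) := by clear * - b0 b4 b6 b7 b8 v20 z38 z45; linarith
              have kk535 : (k + l + l2 + i3 + 3) ≤ (n + Q) := by clear * - v20; omega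
              have kk536 : (n + j) ≤ (k + l + l2 + 2) := by clear * - b6 b7 v20 z38 z45; omega
              have kk537 : (n + i + j) ≤ (k + l + l2 + 2) := by clear * - v20 z38 z45; omega
              clear * - al s2 u1 D2 n1 kk530 kk531 kk532 kk533 kk534 kk535 kk536 kk537
              exact n1.f0 (cE (cII (qa u1 al 0 (j) (k + l + l2 + i3 - n - j + 2) (by omega)) (qa s2 al 0 (k + l + l2 + i3 - n - j + 2) (n + i + 2 * j - k - l - l2 - i3 - 2) (by omega))) (qf D2 al (-1) (n + i + 2 * j - k - l - l2 - i3 - 2) (k) (by omega)))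
            · have kk538 : (k + l + l2 + i3 + 3) ≤ (n + Q + j) := by clear * - b0 b4 b5 b6 b7 v20 z39; linarith
              have kk539 : (j + 1) ≤ (i3) := by clear * - b7; omega
              have kk540 : (2 * k + l + i2 + 2 * l2 + 3) ≤ (2 * n + i + 2 * j) := by clear * - z39; omega
              have kk541 : (2 * n + i + 2 * j) ≤ (2 * k + l + i2 + 2 * l2 + 3) := by clear * - z45; omega
              have kk542 : (n + Q) ≤ (k + l + l2 + i3 + 3) := by clear * - v20; omega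
              have kk543 : (Q + i2 + l2 + 1) ≤ (n + i + j) := by clear * - b0 b4 b5 b6 b7 b8 v20 z39; linarith
              have kk544 : (n + j) ≤ (k + l + l2 + 2) := by clear * - b5 b6 b7 v20 z39; omega
              have kk545 : (n + i + j) ≤ (k + l + l2 + 2) := by clear * - b5; omega
              clear * - al s2 u1 D2 n1 kk538 kk539 kk540 kk541 kk542 kk543 kk544 kk545
              exact n1.f0 (cE (cII (qa u1 al 0 (j) (k + l + l2 + i3 - n - j + 2) (by omega)) (qa s2 al 0 (k + l + l2 + i3 - n - j + 2) (n + i + 2 * j - k - l - l2 - i3 - 2) (by omega))) (qf D2 al (-1) (n + i + 2 * j - k - l - l2 - i3 - 2) (k) (by omega)))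
          · by_cases z46 : (2 * k + l + i3 + 1) ≤ (Q + 2 * i2 + l2)
            · by_cases v21 : (2 * i2 + l2) ≤ (2 * k + l)
              · have kk546 : (i + 2 * i2 + l2 + 1) ≤ (2 * k + l + i3) := by clear * - z44; omega
                have kk547 : (2 * k + l + i3 + 1) ≤ (n + i + 2 * i2 + l2) := by clear * - b5 b6 b7 b8 v21 z38 z44 z46; linarith
                have kk548 : (2 * k + l + i3 + 1) ≤ (Q + 2 * i2 + l2) := by clear * - z46; omega
                have kk549 : (Q) ≤ (i + l + 1) := by clear * - b0 b5 b6 b7 y21 z38; omega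
                have kk550 : (k + l) ≤ (i2 + l2) := by clear * - b4 b5 b6 b7 b8 z38 z46; linarith
                have kk551 : (n) ≤ (k + l + l2 + 2) := by clear * - b0 b4 b5 b6 b7 z38; omega
                have kk552 : (2 * i2 + l2) ≤ (2 * k + l) := by clear * - v21; omega
                have kk553 : (2 * k + 2 * l + 2) ≤ (n + i2) := by clear * - y21; omega
                clear * - al b c D2 kk546 kk547 kk548 kk549 kk550 kk551 kk552 kk553
                exact al.ubQ (2 * k + l + i3 - i - 2 * i2 - l2) (by omega) (by omega) fun t h1 h2 => (cE (sh al (-1) t (t + (-n)) (by omega)) (cE (qf b al (-1) (t + (-n)) (t + (k - i)) (by omega)) (pb (show Par W (i3 + 1) (n + i3 - i2 - l2 - 1) (2 * i2 + l2 - k - l - i3) from fun t h1 h2 => (cE (sh al (-1) t (t + (-n)) (by omega)) (cE (pb D2 al (-1) (t + (-n)) (t + (i2 + l2 - i3 + 1)) (by omega)) (pb c al 0 (t + (i2 + l2 - i3 + 1)) (t + (2 * i2 + l2 - k - l - i3)) (by omega))))) al 0 (t + (k - i))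 (t + (2 * k + l + i3 - i - 2 * i2 - l2)) (by omega))))
              · have kk554 : (i + 2 * i2 + l2 + 1) ≤ (2 * k + l + i3) := by clear * - z44; omega
                have kk555 : (2 * k + l + i3 + 1) ≤ (n + i + 2 * i2 + l2) := by clear * - b5 b6 b7 b8 v21 z38 z44 z45; linarith
                have kk556 : (i3 + 1) ≤ (Q) := by clear * - b5 b6 b7 v21 z38 z44 z45; linarith
                have kk557 : (Q) ≤ (i + l + 1) := by clear * - b0 b5 b6 b7 b8 v21 z38 z45; linarith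
                have kk558 : (k + l) ≤ (i2 + l2) := by clear * - b4 b5 b6 b7 b8 z38 z46; linarith
                have kk559 : (n) ≤ (k + l + l2 + 2) := by clear * - b5 b6 b7 v21 z38 z44; omega
                have kk560 : (2 * k + l) ≤ (2 * i2 + l2) := by clear * - v21; omega
                have kk561 : (2 * k + 2 * l + 2) ≤ (n + i2) := by clear * - y21; omega
                clear * - al b c D2 kk554 kk555 kk556 kk557 kk558 kk559 kk560 kk561
                exact al.ubQ (2 * k + l + i3 - i - 2 * i2 - l2) (by omega) (by omega) fun t h1 h2 => (cE (sh al (-1) t (t + (-n)) (by omega)) (cE (qf b al (-1) (t + (-n)) (t + (k - i)) (by omega)) (pb (show Par W (i3 + 1) (n + i3 - i2 - l2 - 1) (2 * i2 + l2 - k - l - i3) from fun t h1 h2 => (cE (sh al (-1) t (t + (-n)) (by omega)) (cE (pb D2 al (-1) (t + (-n)) (t + (i2 + l2 - i3 + 1)) (by omega)) (pb c al 0 (t + (i2 + l2 - i3 + 1)) (t + (2 * i2 + l2 - k - l - i3)) (by omega))))) al 0 (t + (k -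 i)) (t + (2 * k + l + i3 - i - 2 * i2 - l2)) (by omega))))
            · have kk562 : (k + i2 + l2 + 2) ≤ (n + j + i3) := by clear * - b0 b4 b5 b6 b7 z38 z45; linarith
              have kk563 : (n + 3 * j + i3 + 1) ≤ (2 * Q + k + i2 + l2) := by clear * - b0 b4 b5 b6 b7 z38 z45; linarith
              have kk564 : (2 * Q + j + i2 + l2 + 1) ≤ (n + 2 * i + k + i3) := by clear * - b0 b4 b5 b6 b7 b8 z38 z45; linarith
              have kk565 : (j + 3 * k + 2 * l + i3 + 3) ≤ (n + 2 * i + 3 * i2 + l2) := by clear * - b0 b4 b5 b6 b7 y21 z38 z45; linarith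
              have kk566 : (i3 + 1) ≤ (Q) := by clear * - b0 b4 b5 b6 b7 z38 z45; linarith
              have kk567 : (k + i2 + l2 + 1) ≤ (n + i3) := by clear * - b5 b7 z45; omega
              have kk568 : (i2) ≤ (k) := by clear * - b4 b5 b6 b7 b8 z38 z44 z45; linarith
              have kk569 : (i) ≤ (j) := by clear * - b0 b4 b5 b6 z38; omega
              have kk570 : (k + l) ≤ (i2 + l2) := by clear * - b0 b4 b5 b6 b7 y21 z38; linarith
              have kk571 : (Q) ≤ (i + l + 1) := by clear * - b0 b5 b6 b7 y21 z38; omega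
              have kk572 : (Q + i + 2 * i2 + l2) ≤ (j + 2 * k + l + i3 + 1) := by clear * - b0 b4 b5 b6 z38 z46; omega
              have r573 : (j + 2 * k + l - n - i2 + 1) % 2 = 0 := by clear * - ev n1p n2p n3p; omega
              have r574 : (n + j + i3 - k - i2 - l2 - 1) % 2 = 0 := by clear * - ev n1p n2p n3p; omega
              clear * - al a2 s2 b c D2 kk562 kk563 kk564 kk565 kk566 kk567 kk568 kk569 kk570 kk571 kk572 r573 r574
              exact midP al (n + j + i3 - k - i2 - l2 - 1) (j + 2 * k + l - n - i2 + 1) (j + 2 * k + l - n - i - i2 + 2) (Q + i2 + l2 - n - i3 + 1) (j) (by omega) (fun t h1 h2 => (cI (cE (pb c al (-1) t (t + (n + i2 - k - l - 1)) (by omega)) (pb b al 0 (t + (n + i2 - k - l - 1)) (t + (n + i + i2 - 2 * k - l - 1)) (by omega))) (qa s2 al 0 (t + (n + i + i2 - 2 * k - l - 1)) ((j + 2 * k + l - n - i2 + 1) - t) (by omega)))) (fun t h1 h2 => (cE (qf (show Par W (Q + i2 + l2 - i3 + 1) (k + i2 + l2 - i3 + 1) (n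 + j + i3 - k - i2 - l2 - 1) from fun t h1 h2 => (cE (sh al (-1) t (t + (-n)) (by omega)) (cE (cE (qf D2 al (-1) (t + (-n)) (t + (i3 - i2 - l2 - 1)) (by omega)) (pb a2 al 0 (t + (i3 - i2 - l2 - 1)) (t + (j + i3 - k - i2 - l2 - 1)) (by omega))) (sh al 1 (t + (j + i3 - k - i2 - l2 - 1)) (t + (n + j + i3 - k - i2 - l2 - 1)) (by omega))))) al (-1) t (t + (2 * n + j + i3 - k - i2 - l2 - 1)) (by omega)) (sh al (-1) (t + (2 * n + j + i3 - k - i2 - l2 - 1)) (t + (n + j + i3 - k - i2 - l2 - 1)) (by omega))))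
      · by_cases z47 : (2 * n + i + 2 * j + i3) ≤ (2 * Q + 2 * k + 3 * l + l2 + 2)
        · by_cases v22 : (n + i3) ≤ (i + l + i2 + l2 + 2)
          · have kk575 : (2 * k + l + i3 + 1) ≤ (i + 2 * i2 + l2) := by clear * - z43; omega
            have kk576 : (3 * i + 2 * j + 2 * i2 + l2 + 2) ≤ (2 * Q + 2 * k + l + i3) := by clear * - b0 b2 b5 b6 b7 z38 z39; linarith
            have kk577 : (2 * k + l + l2 + i3 + 4) ≤ (2 * n + i) := by clear * - b4 b5 b8 z38 z39 z43 z47; linarith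
            have kk578 : (3 * i + 2 * j + 4 * i2 + 3 * l2 + 4) ≤ (2 * n + 2 * k + l + 3 * i3) := by clear * - b0 b2 b5 b7 b8 v22 z38 z39 z43; linarith
            have kk579 : (j) ≤ (i3) := by clear * - b7; omega
            have kk580 : (i + i2) ≤ (k + i3) := by clear * - b0 b2 b4 b5 b7 b8 v22 z38; linarith
            have kk581 : (i) ≤ (i3) := by clear * - b0 b4 b5 b6 b7 z38; omega
            have kk582 : (k + l) ≤ (i2 + l2) := by clear * - b4 b8 z38 z43 z47; omega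
            have kk583 : (n + i3) ≤ (i + l + i2 + l2 + 2) := by clear * - v22; omega
            have kk584 : (i3) ≤ (i + j) := by clear * - b6 z38; omega
            have kk585 : (2 * k + l + 2 * i3) ≤ (2 * i + j + 2 * i2 + l2) := by clear * - b6 z38 z43; omega
            have r586 : (3 * n + i + j + i2 + l2 - i3 + 1) % 2 = 0 := by clear * - ev n1p n2p n3p; omega
            have r587 : (i + 2 * i2 + l2 - 2 * k - l - i3) % 2 = 0 := by clear * - ev n1p n2p n3p; omega
            clear * - al s2 b c D1 D2 kk575 kk576 kk577 kk578 kk579 kk580 kk581 kk582 kk583 kk584 kk585 r586 r587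
            exact midP al (i + 2 * i2 + l2 - 2 * k - l - i3) (3 * n + i + j + i2 + l2 - i3 + 1) (n + i + j + i2 + l2 - i3 + 2) (n + 2 * k + l + i3 - i - i2 + 2) (2 * n) (by omega) (fun t h1 h2 => (cE (cI (pb D1 al 1 t (t + (i3 - n - i2 - l2 - 1)) (by omega)) (qa s2 al 0 (t + (i3 - n - i2 - l2 - 1)) ((n + i + j + i2 + l2 - i3 + 1) - t) (by omega))) (sh al 2 ((n + i + j + i2 + l2 - i3 + 1) - t) ((3 * n + i + j + i2 + l2 - i3 + 1) - t) (by omega)))) (fun t h1 h2 => (cE (cE (cE (pb c al 1 t (t + (i2 - n - k - l - 1)) (by omega)) (pb b al 0 (t + (i2 - n - k - l - 1)) (t + (i + i2 - n - 2 * k - l - 1)) (by omega))) (pb D2 al 0 (t + (i + i2 - n - 2 * k - l - 1)) (t + (i + 2 * i2 + l2 - n - 2 * k - l - i3)) (by omega))) (sh al 1 (t + (i + 2 * i2 + l2 - n - 2 * k - l - i3)) (t + (i + 2 * i2 + l2 - 2 * k - l - i3)) (by omega))))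
          · have kk588 : (2 * k + l + i3 + 1) ≤ (i + 2 * i2 + l2) := by clear * - z43; omega
            have kk589 : (2 * n + i + 2 * j + i3) ≤ (2 * Q + 2 * k + 3 * l + l2 + 2) := by clear * - z47; omega
            have kk590 : (2 * k + 3 * i3) ≤ (3 * i + l + 2 * i2 + l2) := by clear * - b6 b8 v22 z38 z43 z47; omega
            have kk591 : (2 * n + 2 * j + i3) ≤ (i + 2 * k + 5 * l + l2 + 4) := by clear * - b8 z38 z43 z47; omega
            have kk592 : (j) ≤ (i3) := by clear * - b7; omega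
            have kk593 : (i2) ≤ (k) := by clear * - b5 b6 b7 v22 z38; omega
            have kk594 : (i) ≤ (i3) := by clear * - b0 b4 b5 b6 b7 z38; omega
            have kk595 : (k + l) ≤ (i2 + l2) := by clear * - b4 b8 z38 z43 z47; omega
            have kk596 : (i + l + i2 + l2 + 2) ≤ (n + i3) := by clear * - v22; omega
            have kk597 : (l + i2 + l2 + 2) ≤ (n + j) := by clear * - b6 v22 z38; omega
            have kk598 : (2 * k + 2 * l + i3 + 2) ≤ (n + i + j + i2) := by clear * - b6 v22 z38 z43; omega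
            have r599 : (3 * n + i + j + i2 + l2 - i3 + 1) % 2 = 0 := by clear * - ev n1p n2p n3p; omega
            have r600 : (i + 2 * i2 + l2 - 2 * k - l - i3) % 2 = 0 := by clear * - ev n1p n2p n3p; omega
            clear * - al s2 b c D1 D2 kk588 kk589 kk590 kk591 kk592 kk593 kk594 kk595 kk596 kk597 kk598 r599 r600
            exact midP al (i + 2 * i2 + l2 - 2 * k - l - i3) (3 * n + i + j + i2 + l2 - i3 + 1) (2 * n + j - l) (n + 2 * k + l + i3 - i - i2 + 2) (n + i + l + i2 + l2 - i3 + 2) (by omega) (fun t h1 h2 => (cE (cI (pb D1 al 1 t (t + (i3 - n - i2 - l2 - 1)) (by omega)) (qa s2 al 0 (t + (i3 - n - i2 - l2 - 1)) ((n + i + j + i2 + l2 - i3 + 1) - t) (by omega))) (sh al 2 ((n + i + j + i2 + l2 - i3 + 1) - t) ((3 * n + i + j + i2 + l2 - i3 + 1) - t) (by omega)))) (fun t h1 h2 => (cE (cE (cE (pb c al 1 t (t + (i2 - n - k - l - 1)) (by omega)) (pb b al 0 (t + (i2 - n - k - l - 1)) (t + (i + i2 - n - 2 * k - l - 1)) (by omega)))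 (pb D2 al 0 (t + (i + i2 - n - 2 * k - l - 1)) (t + (i + 2 * i2 + l2 - n - 2 * k - l - i3)) (by omega))) (sh al 1 (t + (i + 2 * i2 + l2 - n - 2 * k - l - i3)) (t + (i + 2 * i2 + l2 - 2 * k - l - i3)) (by omega))))
        · by_cases v23 : (3 * k + 2 * l + 3) ≤ (n + Q + j + i2)
          · by_cases v24 : (i + 2 * k + 3 * l + 4) ≤ (n + Q + j + i2)
            · have kk601 : (3 * k + 2 * l + 3) ≤ (n + j + 2 * i2) := by clear * - b0 b5 b6 b7 v23 v24 z38 z47; linarith
              have kk602 : (n + 2 * Q + j) ≤ (3 * k + 2 * l + 2) := by clear * - b0 b5 b6 b7 v24 z38 z47; linarith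
              have kk603 : (n + 4 * Q + j) ≤ (2 * i + 3 * k + 4 * l + 6) := by clear * - b0 b5 b6 b7 v23 v24 z38 z39 z47; linarith
              have kk604 : (2 * Q + k + 2 * l + 2) ≤ (n + j + 2 * i2) := by clear * - b0 b5 b6 b7 v23 v24 z38 z39 z47; linarith
              have kk605 : (2 * k + l + 2) ≤ (n + Q + j) := by clear * - b0 b5 b6 b7 v23 v24 z38 z39 z47; linarith
              have kk606 : (3 * k + 2 * l + 3) ≤ (n + Q + j + i2) := by clear * - v23; omega
              have kk607 : (n + j) ≤ (k + l + l2 + 2) := by clear * - b5 b6 b7 z38; omega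
              have kk608 : (n + j + i2) ≤ (2 * k + 2 * l + l2 + 3) := by clear * - b0 b5 b6 b7 v24 z38 z39 z47; linarith
              have kk609 : (i + 2 * k + 3 * l + 4) ≤ (n + Q + j + i2) := by clear * - v24; omega
              have r610 : (i + l + i2 + 1) % 2 = 0 := by clear * - ev n1p n2p n3p; omega
              have r611 : (n + j + 2 * i2 - 3 * k - 2 * l - 2) % 2 = 0 := by clear * - ev n1p n2p n3p; omega
              clear * - al a2 tt c kk601 kk602 kk603 kk604 kk605 kk606 kk607 kk608 kk609 r610 r611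
              exact midP al (n + j + 2 * i2 - 3 * k - 2 * l - 2) (i + l + i2 + 1) (Q) (Q) (n + j + 2 * i2 - 2 * k - 2 * l - 2) (by omega) (fun t h1 h2 => (qa tt al 0 t ((i + l + i2 + 1) - t) (by omega))) (fun t h1 h2 => (cE (cE (pb a2 al 0 t (t + (j - k)) (by omega)) (pb c al (-1) (t + (j - k)) (t + (n + j + i2 - 2 * k - l - 1)) (by omega))) (pb c al 0 (t + (n + j + i2 - 2 * k - l - 1)) (t + (n + j + 2 * i2 - 3 * k - 2 * l - 2)) (by omega))))
            · have kk612 : (3 * k + 2 * l + 3) ≤ (n + j + 2 * i2) := by clear * - b0 b4 z38 z43; omega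
              have kk613 : (2 * i + k + 4 * l + 6) ≤ (n + j + 2 * i2) := by clear * - b0 b4 b5 b6 v24 z38 z47; linarith
              have kk614 : (2 * Q + k + 2 * l + 2) ≤ (n + j + 2 * i2) := by clear * - b0 b4 b5 b6 v23 v24 z38 z39 z47; linarith
              have kk615 : (2 * i + 5 * k + 8 * l + 10) ≤ (3 * n + 3 * j + 4 * i2) := by clear * - b0 b4 b5 b6 v23 v24 z38 z39 z47; linarith
              have kk616 : (2 * k + l + 2) ≤ (n + Q + j) := by clear * - b0 b4 b5 b6 v23 v24 z38 z39 z47; linarith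
              have kk617 : (3 * k + 2 * l + 3) ≤ (n + Q + j + i2) := by clear * - v23; omega
              have kk618 : (n + j) ≤ (k + l + l2 + 2) := by clear * - b5 b6 b7 z38; omega
              have kk619 : (n + j + i2) ≤ (2 * k + 2 * l + l2 + 3) := by clear * - b0 b4 b5 b6 v24 z38 z39 z47; linarith
              have kk620 : (n + Q + j + i2) ≤ (i + 2 * k + 3 * l + 4) := by clear * - v24; omega
              have r621 : (i + l + i2 + 1) % 2 = 0 := by clear * - ev n1p n2p n3p; omega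
              have r622 : (n + j + 2 * i2 - 3 * k - 2 * l - 2) % 2 = 0 := by clear * - ev n1p n2p n3p; omega
              clear * - al a2 tt c kk612 kk613 kk614 kk615 kk616 kk617 kk618 kk619 kk620 r621 r622
              exact midP al (n + j + 2 * i2 - 3 * k - 2 * l - 2) (i + l + i2 + 1) (i + 2 * k + 3 * l - n - j - i2 + 4) (Q) (n + j + 2 * i2 - 2 * k - 2 * l - 2) (by omega) (fun t h1 h2 => (qa tt al 0 t ((i + l + i2 + 1) - t) (by omega))) (fun t h1 h2 => (cE (cE (pb a2 al 0 t (t + (j - k)) (by omega)) (pb c al (-1) (t + (j - k)) (t + (n + j + i2 - 2 * k - l - 1)) (by omega))) (pb c al 0 (t + (n + j + i2 - 2 * k - l - 1)) (t + (n + j + 2 * i2 - 3 * k - 2 * l - 2)) (by omega))))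
          · by_cases v25 : (i + l + 1) ≤ (k)
            · have kk623 : (3 * k + 2 * l + 3) ≤ (n + j + 2 * i2) := by clear * - b0 b4 z38 z43; omega
              have kk624 : (3 * k + 2 * l + 4) ≤ (n + j + 2 * i2) := by clear * - b0 b4 z38 z43; omega
              have kk625 : (9 * k + 4 * l + 6) ≤ (3 * n + 2 * i + 3 * j + 4 * i2) := by clear * - b0 b4 b5 b6 b7 z38 z39 z43; linarith
              have kk626 : (7 * k + 6 * l + 8) ≤ (3 * n + 3 * j + 4 * i2) := by clear * - b0 b4 b5 b6 b7 v25 z38 z39 z43; linarith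
              have kk627 : (n + Q + j + i2) ≤ (3 * k + 2 * l + 3) := by clear * - v23; omega
              have kk628 : (i2) ≤ (k + l + 1) := by clear * - b0 b4 b5 b6 b7 z38 z39 z47; linarith
              have kk629 : (n + j) ≤ (k + l + l2 + 2) := by clear * - b5 b6 b7 z38; omega
              have kk630 : (n + j + i2) ≤ (2 * k + 2 * l + l2 + 3) := by clear * - b0 b4 b5 b6 b7 z38 z39 z47; linarith
              have kk631 : (i + l + 1) ≤ (k) := by clear * - v25; omega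
              have r632 : (i + l + i2 + 1) % 2 = 0 := by clear * - ev n1p n2p n3p; omega
              have r633 : (n + j + 2 * i2 - 3 * k - 2 * l - 2) % 2 = 0 := by clear * - ev n1p n2p n3p; omega
              clear * - al a2 tt c kk623 kk624 kk625 kk626 kk627 kk628 kk629 kk630 kk631 r632 r633
              exact midP al (n + j + 2 * i2 - 3 * k - 2 * l - 2) (i + l + i2 + 1) (3 * k + 2 * l - n - j - i2 + 3) (3 * k + 2 * l - n - j - i2 + 3) (n + j + 2 * i2 - 2 * k - 2 * l - 2) (by omega) (fun t h1 h2 => (qa tt al 0 t ((i + l + i2 + 1) - t) (by omega))) (fun t h1 h2 => (cE (cE (pb a2 al 0 t (t + (j - k)) (by omega)) (pb c al (-1) (t + (j - k)) (t + (n + j + i2 - 2 * k - l - 1)) (by omega))) (pb c al 0 (t + (n + j + i2 - 2 * k - l - 1)) (t + (n + j + 2 * i2 - 3 * k - 2 * l - 2)) (by omega))))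
            · have kk634 : (3 * k + 2 * l + 3) ≤ (n + j + 2 * i2) := by clear * - b0 b4 z38 z43; omega
              have kk635 : (2 * i + k + 4 * l + 6) ≤ (n + j + 2 * i2) := by clear * - b0 b4 b5 b6 v23 v25 z38 z47; linarith
              have kk636 : (7 * k + 6 * l + 8) ≤ (3 * n + 3 * j + 4 * i2) := by clear * - b0 b4 v23 v25 z38 z39 z43; linarith
              have kk637 : (2 * i + 5 * k + 8 * l + 10) ≤ (3 * n + 3 * j + 4 * i2) := by clear * - b0 b4 v23 z38 z39 z43; omega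
              have kk638 : (n + Q + j + i2) ≤ (3 * k + 2 * l + 3) := by clear * - v23; omega
              have kk639 : (i2) ≤ (k + l + 1) := by clear * - b0 b4 b5 b6 v23 v25 z38 z39 z47; linarith
              have kk640 : (n + j) ≤ (k + l + l2 + 2) := by clear * - b5 b6 b7 z38; omega
              have kk641 : (n + j + i2) ≤ (2 * k + 2 * l + l2 + 3) := by clear * - b0 b4 b5 b6 v23 v25 z38 z39 z47; linarith
              have kk642 : (k) ≤ (i + l + 1) := by clear * - v25; omega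
              have r643 : (i + l + i2 + 1) % 2 = 0 := by clear * - ev n1p n2p n3p; omega
              have r644 : (n + j + 2 * i2 - 3 * k - 2 * l - 2) % 2 = 0 := by clear * - ev n1p n2p n3p; omega
              clear * - al a2 tt c kk634 kk635 kk636 kk637 kk638 kk639 kk640 kk641 kk642 r643 r644
              exact midP al (n + j + 2 * i2 - 3 * k - 2 * l - 2) (i + l + i2 + 1) (i + 2 * k + 3 * l - n - j - i2 + 4) (3 * k + 2 * l - n - j - i2 + 3) (n + j + 2 * i2 - 2 * k - 2 * l - 2) (by omega) (fun t h1 h2 => (qa tt al 0 t ((i + l + i2 + 1) - t) (by omega))) (fun t h1 h2 => (cE (cE (pb a2 al 0 t (t + (j - k)) (by omega)) (pb c al (-1) (t + (j - k)) (t + (n + j + i2 - 2 * k - l - 1)) (by omega))) (pb c al 0 (t + (n + j + i2 - 2 * k - l - 1)) (t + (n + j + 2 * i2 - 3 * k - 2 * l - 2)) (by omega))))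

theorem t2c_19 {W : ℤ → G} {n Q i j k l i2 l2 i3 : ℤ} (al : AL W n Q)
    (hy : (0) ≤ (i) ∧ (i) ≤ (j) ∧ (j + 1) ≤ (Q) ∧ (Q) ≤ (k) ∧ (k + 1) ≤ (n) ∧ (Q) ≤ (i + l + 1) ∧ (k + l + 2) ≤ (n) ∧ (Q) ≤ (i2) ∧ (i2) ≤ (i + l + 1) ∧ (Q) ≤ (i2 + l2 + 1) ∧ (i2 + l2 + 2) ≤ (n) ∧ (n) ≤ (k + l + l2 + 2) ∧ (k + l + l2 + 3) ≤ (n + Q) ∧ (0) ≤ (i3) ∧ (n + i3) ≤ (k + l + l2 + 2) ∧ (k + i2 + l2 + 2) ≤ (n + j + i3) ∧ (j + i3 + 1) ≤ (k) ∧ (k + i2 + l2 + 2) ≤ (n + i3) ∧ (i + 2 * i2 + 1) ≤ (2 * Q + k) ∧ (i + l + 1) ≤ (i2 + l2) ∧ (k + l + 1) ≤ (i2 + l2) ∧ (2 * k + 2 * l + 3) ≤ (n + i2) ∧ (i + 1) ≤ (i3))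
    (a1 : Par W (0) (j) (k - j))
    (a2 : Par W (Q + j - k) (j) (k - j))
    (s1 : Ant W (0) (i) (i + j))
    (s2 : Ant W (j + 1) (Q) (i + j))
    (b : Par W (i + 1) (i + l + 1) (k - i))
    (tt : Ant W (Q) (i2) (i + l + i2 + 1))
    (c : Par W (i2 + 1) (i2 + l2 + 1) (k + l - i2 + 1))
    (u1 : Ant W (0) (i3) (k + l + l2 + i3 - n + 2))
    (u2 : Ant W (k + l + l2 - n + 3) (Q) (k + l + l2 + i3 - n + 2))
    (D1 : Par W (i3 + 1) (Q) (i2 + l2 - i3 + 1))
    (D2 : Par W (i2 + l2 + 2) (n) (i3 - i2 - l2 - 1))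
    {L : ℤ} (mx : ∀ a b g, 0 < g → g < n → Par W a b g → b - a ≤ L)
    (hL : L ≤ (n - j - 3) ∧ L ≤ (n + Q - k - 3) ∧ L ≤ (n - l - 3) ∧ L ≤ (n + i - k - 2) ∧ L ≤ (n - l2 - 3) ∧ L ≤ (n + i3 - Q - 2) ∧ L ≤ (i2 + l2 - 1) ∧ L ≤ (n + i2 - k - l - 3) ∧ L ≤ (Q + i2 + l2 - i - l - 3))
    (bd0 : Bd W n L (j) (i) (k))
    (bd2 : Bd W n L (k + l + l2 - n + 2) (i3) (i2 + l2 + 1))
    (n1 : Nd W (j) (i) (k))
    (n2 : Nd W (i + l + 1) (i2) (k + l + 1))
    (n3 : Nd W (k + l + l2 - n + 2) (i3) (i2 + l2 + 1))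
    (b0 : (2 * l2 + 3) ≤ (n))
    (b1 : (2 * Q + i2 + l2) ≤ (n + i + j + i3))
    (b2 : (2 * i + l + i2 + 2) ≤ (2 * Q + k))
    (b3 : (j + l + l2 + i3 + 3) ≤ (n))
    (b4 : (i + k + 2 * l + 3) ≤ (Q + i2 + l2))
    (b5 : (n + i + j) ≤ (k + l + l2 + 1))
    (b6 : (l + 2 * i3) ≤ (Q + i + i2))
    (b7 : (j + 1) ≤ (i3))
    (b8 : (n + i) ≤ (Q + l + l2)) : False := by
  have ev := al.ev
  obtain ⟨y0, y1, y2, y3, y4, y5, y6, y7, y8, y9, y10, y11, y12, y13, y14, y15, y16, y17, y18, y19, y20, y21, y22⟩ := id hy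
  have n1p := And.intro n1.p1 n1.p2
  have n2p := And.intro n2.p1 n2.p2
  have n3p := And.intro n3.p1 n3.p2
  by_cases z48 : (3 * i2 + l2) ≤ (2 * k + 2 * l + i3)
  · by_cases z49 : (n + k + l + i3) ≤ (3 * i2 + 2 * l2 + 1)
    · have kk645 : (3 * i2 + l2) ≤ (2 * k + 2 * l + i3) := by clear * - z48; omega
      have kk646 : (2 * k + 2 * l + i3 + 2) ≤ (n + 3 * i2 + l2) := by clear * - b0 b1 b3 b4 b6 b7 b8 z48 z49; linarith
      have kk647 : (2 * k + 2 * l + 3) ≤ (n + i2) := by clear * - y21; omega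
      have kk648 : (i3) ≤ (i2) := by clear * - b0 b1 b3 b4 b6 b7 b8 z48 z49; linarith
      have kk649 : (i2) ≤ (k + l + 1) := by clear * - b0 b1 b3 b4 b6 b7 b8 z48 z49; linarith
      have kk650 : (n + k + l + i3) ≤ (3 * i2 + 2 * l2 + 1) := by clear * - z49; omega
      clear * - al c D2 kk645 kk646 kk647 kk648 kk649 kk650
      exact al.ubP (2 * k + 2 * l + i3 - 3 * i2 - l2 + 1) (by omega) (by omega) fun t h1 h2 => (cE (sh al 2 t (t + (2 * n)) (by omega)) (cE (cE (cE (qf D2 al 1 (t + (2 * n)) (t + (n + i3 - i2 - l2 - 1)) (by omega)) (qf c al 0 (t + (n + i3 - i2 - l2 - 1)) (t + (n + k + l + i3 - 2 * i2 - l2)) (by omega))) (qf c al 0 (t + (n + k + l + i3 - 2 * i2 - l2)) (t + (n + 2 * k + 2 * l + i3 - 3 * i2 - l2 + 1)) (by omega))) (sh al (-1) (t + (n + 2 * k + 2 * l + i3 - 3 * i2 - l2 + 1)) (t + (2 * k + 2 * l + i3 - 3 * i2 - l2 + 1)) (by omega))))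
    · have kk651 : (k + l + 1) ≤ (i2 + l2) := by clear * - b0 b1 b4 b5 b6 b7 b8 y21; linarith
      have kk652 : (i2) ≤ (k + l) := by clear * - b0 b1 b3 b4 b5 b6 b7 b8; linarith
      have kk653 : (i + 1) ≤ (k) := by clear * - b0 b1 b3 b4 b5 b6 b7 b8; linarith
      have kk654 : (0) ≤ (l) := by clear * - b0 b1 b4 b5 b6 b7 b8 y21 z49; linarith
      have kk655 : (i + k + l + 1) ≤ (2 * i2 + l2) := by clear * - b0 b1 b4 b5 b6 b7 b8 y21; linarith
      have kk656 : (2 * i2 + l2) ≤ (2 * k + 2 * l) := by clear * - b0 b1 b3 b4 b5 b6 b7 b8 z49; linarith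
      have kk657 : (i + 1) ≤ (i3) := by clear * - b0 b1 b4 b5 b6 b7 b8; linarith
      have kk658 : (i3) ≤ (k + l) := by clear * - b0 b1 b4 b5 b6 b7 b8 y21 z49; linarith
      have kk659 : (2 * i2 + l2) ≤ (k + 2 * l + i3 + 1) := by clear * - b0 b1 b5 b6 b7 b8 z49; linarith
      have kk660 : (k + l) ≤ (i2 + l2) := by clear * - b0 b1 b4 b5 b6 b7 b8 y21; linarith
      have kk661 : (n) ≤ (k + l + l2 + 2) := by clear * - b0 b1 b4 b5 b6 b7 b8; linarith
      have kk662 : (i + k + l) ≤ (2 * i2 + l2) := by clear * - b0 b1 b4 b5 b6 b7 b8 y21; linarith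
      have kk663 : (i) ≤ (i3) := by clear * - b0 b1 b4 b5 b6 b7 b8; linarith
      have kk664 : (k + l + i3) ≤ (2 * i2 + l2) := by clear * - b0 b1 b4 b5 b6 b7 b8 y21; linarith
      have kk665 : (2 * k + 2 * l + 2) ≤ (n + i2) := by clear * - y21; omega
      have kk666 : (0) ≤ (i + 1) := by clear * - b1 b6 b7 b8; omega
      have kk667 : (l2 + i3 + 1) ≤ (n + i) := by clear * - b0 b1 b4 b5 b6 b7 b8 y21 z49; linarith
      have kk668 : (i3) ≤ (k + l + 1) := by clear * - b0 b1 b4 b5 b6 b7 b8 y21 z49; linarith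
      have kk669 : (n + i) ≤ (k + l + l2 + 2) := by clear * - b0 b1 b4 b5 b6 b7 b8; linarith
      have r670 : (k + l + i3 - 2 * i2 - l2) % 2 = 0 := by clear * - ev n1p n2p n3p; omega
      have r671 : (k - i) % 2 = 0 := by clear * - ev n1p n2p n3p; omega
      have r672 : (k + l + l2 + i3 - n + 2) % 2 = 0 := by clear * - ev n1p n2p n3p; omega
      clear * - al b c u1 D2 n3 kk651 kk652 kk653 kk654 kk655 kk656 kk657 kk658 kk659 kk660 kk661 kk662 kk663 kk664 kk665 kk666 kk667 kk668 kk669 r670 r671 r672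
      exact ivt al.ninv (i + 1) (i + l + 1) (k - i) (2 * i2 + l2 - k - l + 1) (k + l + 1) (k + l + i3 - 2 * i2 - l2) (2 * i2 + l2 - k - l) (i3) 0 (fun t h1 h2 => (qf b al 0 t (t + (k - i)) (by omega))) (fun t h1 h2 => (cE (sh al (-1) t (t + (-n)) (by omega)) (cE (qf c al (-1) (t + (-n)) (t + (k + l - i2 + 1)) (by omega)) (qf D2 al 0 (t + (k + l - i2 + 1)) (t + (k + l + i3 - 2 * i2 - l2)) (by omega))))) (fun hh => n3.f1 (rEE (sh al 0 (i3) (i3) (by omega)) (pb c al 0 (i2 + l2 + 1) (2 * i2 + l2 - k - l) (by omega)) (Eq.symm (Eq.symm hh)))) (by omega) (i + 1) (i3) (k + l + l2 + i3 - n + 2) 1 (-1) (fun t h1 h2 => (cI (sh al (-1) t (t + (-n)) (by omega)) (qa u1 al (-1) (t + (-n)) ((k + l + l2 + i3 - n + 2) - t) (by omega)))) (by omega)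
  · by_cases v26 : (k) ≤ (i2)
    · by_cases v27 : (k) ≤ (Q + j)
      · have kk673 : (i + k + 3 * l + 5) ≤ (n + j + i2) := by clear * - b0 b1 b4 b5 b6 v27; omega
        have kk674 : (n + 2 * Q + j + i2) ≤ (i + 3 * k + 3 * l + 4) := by clear * - b0 b1 b5 b6 b7 v27; omega
        have kk675 : (i2) ≤ (k + l + 1) := by clear * - b1 b2 b3 b5 b6 b7 v26 v27; linarith
        have kk676 : (k) ≤ (i + l + 1) := by clear * - b1 b3 b6 b7 b8 v26; omega
        have kk677 : (k) ≤ (i2) := by clear * - v26; omega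
        have kk678 : (i + k + 2 * l + 2) ≤ (Q + i2 + l2) := by clear * - b4; omega
        have kk679 : (i + j + l + 1) ≤ (k + l2) := by clear * - b1 b2 b3 b5 b6 b7 v26 v27 z48; linarith
        have kk680 : (k) ≤ (Q + j) := by clear * - v27; omega
        have r681 : (n + i + j + k + 3 * l - i2 + 3) % 2 = 0 := by clear * - ev n1p n2p n3p; omega
        clear * - al a1 tt c kk673 kk674 kk675 kk676 kk677 kk678 kk679 kk680 r681
        obtain ⟨t, ht⟩ : ∃ t, 2 * t = (n + i + j + k + 3 * l - i2 + 3) := ⟨(n + i + j + k + 3 * l - i2 + 3) / 2, by omega⟩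
        exact al.ninv t (cE (cE (cI (cE (pb c al 0 t (t + (i2 - k - l - 1)) (by omega)) (pb c al 0 (t + (i2 - k - l - 1)) (t + (2 * i2 - 2 * k - 2 * l - 2)) (by omega))) (ab tt al 0 (t + (2 * i2 - 2 * k - 2 * l - 2)) ((i + 2 * k + 3 * l - i2 + 3) - t) (by omega))) (pb a1 al 0 ((i + 2 * k + 3 * l - i2 + 3) - t) ((i + j + k + 3 * l - i2 + 3) - t) (by omega))) (sh al 1 ((i + j + k + 3 * l - i2 + 3) - t) t (by omega)))
      · have kk682 : (i + k + 3 * l + 5) ≤ (n + j + i2) := by clear * - b1 b2 b4 b6 b8 v26 v27; linarith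
        have kk683 : (n + i2) ≤ (i + j + k + 3 * l + 4) := by clear * - b0 b1 b6 b7 b8 v27; omega
        have kk684 : (i2) ≤ (k + l + 1) := by clear * - b1 b2 b3 b6 b7 b8 v26 v27; linarith
        have kk685 : (k) ≤ (i + l + 1) := by clear * - b1 b3 b6 b7 b8 v26; omega
        have kk686 : (k) ≤ (i2) := by clear * - v26; omega
        have kk687 : (i + j + 2 * l + 2) ≤ (i2 + l2) := by clear * - b4 v27; omega
        have kk688 : (i + j + l + 1) ≤ (k + l2) := by clear * - b1 b2 b3 b6 b7 b8 v26 v27 z48; linarith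
        have kk689 : (Q + j) ≤ (k) := by clear * - v27; omega
        have r690 : (n + i + j + k + 3 * l - i2 + 3) % 2 = 0 := by clear * - ev n1p n2p n3p; omega
        clear * - al a1 tt c kk682 kk683 kk684 kk685 kk686 kk687 kk688 kk689 r690
        obtain ⟨t, ht⟩ : ∃ t, 2 * t = (n + i + j + k + 3 * l - i2 + 3) := ⟨(n + i + j + k + 3 * l - i2 + 3) / 2, by omega⟩
        exact al.ninv t (cE (cE (cI (cE (pb c al 0 t (t + (i2 - k - l - 1)) (by omega)) (pb c al 0 (t + (i2 - k - l - 1)) (t + (2 * i2 - 2 * k - 2 * l - 2)) (by omega))) (ab tt al 0 (t + (2 * i2 - 2 * k - 2 * l - 2)) ((i + 2 * k + 3 * l - i2 + 3) - t) (by omega))) (pb a1 al 0 ((i + 2 * k + 3 * l - i2 + 3) - t) ((i + j + k + 3 * l - i2 + 3) - t) (by omega))) (sh al 1 ((i + j + k + 3 * l - i2 + 3) - t) t (by omega)))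
    · by_cases v28 : (k) ≤ (Q + j)
      · have kk691 : (i + 3 * k + 3 * l + 5) ≤ (n + j + 3 * i2) := by clear * - b0 b1 b4 b8 z48; omega
        have kk692 : (n + 2 * Q + j + i2) ≤ (i + 3 * k + 3 * l + 4) := by clear * - b0 b1 b5 b6 b7 v28; omega
        have kk693 : (i2) ≤ (k + l + 1) := by clear * - b0 b1 b3 b5 b6 b7 v26 v28 z48; linarith
        have kk694 : (i2) ≤ (i + l + 1) := by clear * - b1 b3 b6 b7 b8; omega
        have kk695 : (i2) ≤ (k) := by clear * - v26; omega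
        have kk696 : (i + k + 2 * l + 2) ≤ (Q + i2 + l2) := by clear * - b4; omega
        have kk697 : (i + j + l + 1) ≤ (k + l2) := by clear * - b0 b1 b3 b5 b6 b7 v26 v28 z48; linarith
        have kk698 : (k) ≤ (Q + j) := by clear * - v28; omega
        have r699 : (n + i + j + k + 3 * l - i2 + 3) % 2 = 0 := by clear * - ev n1p n2p n3p; omega
        clear * - al a1 tt c kk691 kk692 kk693 kk694 kk695 kk696 kk697 kk698 r699
        obtain ⟨t, ht⟩ : ∃ t, 2 * t = (n + i + j + k + 3 * l - i2 + 3) := ⟨(n + i + j + k + 3 * l - i2 + 3) / 2, by omega⟩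
        exact al.ninv t (cE (cE (cI (cE (pb c al 0 t (t + (i2 - k - l - 1)) (by omega)) (pb c al 0 (t + (i2 - k - l - 1)) (t + (2 * i2 - 2 * k - 2 * l - 2)) (by omega))) (ab tt al 0 (t + (2 * i2 - 2 * k - 2 * l - 2)) ((i + 2 * k + 3 * l - i2 + 3) - t) (by omega))) (pb a1 al 0 ((i + 2 * k + 3 * l - i2 + 3) - t) ((i + j + k + 3 * l - i2 + 3) - t) (by omega))) (sh al 1 ((i + j + k + 3 * l - i2 + 3) - t) t (by omega)))
      · have kk700 : (i + 3 * k + 3 * l + 5) ≤ (n + j + 3 * i2) := by clear * - b0 b1 b4 b8 z48; omega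
        have kk701 : (n + i2) ≤ (i + j + k + 3 * l + 4) := by clear * - b0 b1 b6 b7 b8 v28; omega
        have kk702 : (i2) ≤ (k + l + 1) := by clear * - b0 b1 b3 b6 b7 b8 v26 v28 z48; linarith
        have kk703 : (i2) ≤ (i + l + 1) := by clear * - b1 b3 b6 b7 b8; omega
        have kk704 : (i2) ≤ (k) := by clear * - v26; omega
        have kk705 : (i + j + 2 * l + 2) ≤ (i2 + l2) := by clear * - b4 v28; omega
        have kk706 : (i + j + l + 1) ≤ (k + l2) := by clear * - b0 b1 b3 b6 b7 b8 v26 v28 z48; linarith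
        have kk707 : (Q + j) ≤ (k) := by clear * - v28; omega
        have r708 : (n + i + j + k + 3 * l - i2 + 3) % 2 = 0 := by clear * - ev n1p n2p n3p; omega
        clear * - al a1 tt c kk700 kk701 kk702 kk703 kk704 kk705 kk706 kk707 r708
        obtain ⟨t, ht⟩ : ∃ t, 2 * t = (n + i + j + k + 3 * l - i2 + 3) := ⟨(n + i + j + k + 3 * l - i2 + 3) / 2, by omega⟩
        exact al.ninv t (cE (cE (cI (cE (pb c al 0 t (t + (i2 - k - l - 1)) (by omega)) (pb c al 0 (t + (i2 - k - l - 1)) (t + (2 * i2 - 2 * k - 2 * l - 2)) (by omega))) (ab tt al 0 (t + (2 * i2 - 2 * k - 2 * l - 2)) ((i + 2 * k + 3 * l - i2 + 3) - t) (by omega))) (pb a1 al 0 ((i + 2 * k + 3 * l - i2 + 3) - t) ((i + j + k + 3 * l - i2 + 3) - t) (by omega))) (sh al 1 ((i + j + k + 3 * l - i2 + 3) - t) t (by omega)))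

theorem t2c_17 {W : ℤ → G} {n Q i j k l i2 l2 i3 : ℤ} (al : AL W n Q)
    (hy : (0) ≤ (i) ∧ (i) ≤ (j) ∧ (j + 1) ≤ (Q) ∧ (Q) ≤ (k) ∧ (k + 1) ≤ (n) ∧ (Q) ≤ (i + l + 1) ∧ (k + l + 2) ≤ (n) ∧ (Q) ≤ (i2) ∧ (i2) ≤ (i + l + 1) ∧ (Q) ≤ (i2 + l2 + 1) ∧ (i2 + l2 + 2) ≤ (n) ∧ (n) ≤ (k + l + l2 + 2) ∧ (k + l + l2 + 3) ≤ (n + Q) ∧ (0) ≤ (i3) ∧ (n + i3) ≤ (k + l + l2 + 2) ∧ (k + i2 + l2 + 2) ≤ (n + j + i3) ∧ (j + i3 + 1) ≤ (k) ∧ (k + i2 + l2 + 2) ≤ (n + i3) ∧ (i + 2 * i2 + 1) ≤ (2 * Q + k) ∧ (i + l + 1) ≤ (i2 + l2) ∧ (k + l + 1) ≤ (i2 + l2) ∧ (2 * k + 2 * l + 3) ≤ (n + i2) ∧ (i + 1) ≤ (i3))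
    (a1 : Par W (0) (j) (k - j))
    (a2 : Par W (Q + j - k) (j) (k - j))
    (s1 : Ant W (0) (i) (i + j))
    (s2 : Ant W (j + 1) (Q) (i + j))
    (b : Par W (i + 1) (i + l + 1) (k - i))
    (tt : Ant W (Q) (i2) (i + l + i2 + 1))
    (c : Par W (i2 + 1) (i2 + l2 + 1) (k + l - i2 + 1))
    (u1 : Ant W (0) (i3) (k + l + l2 + i3 - n + 2))
    (u2 : Ant W (k + l + l2 - n + 3) (Q) (k + l + l2 + i3 - n + 2))
    (D1 : Par W (i3 + 1) (Q) (i2 + l2 - i3 + 1))
    (D2 : Par W (i2 + l2 + 2) (n) (i3 - i2 - l2 - 1))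
    {L : ℤ} (mx : ∀ a b g, 0 < g → g < n → Par W a b g → b - a ≤ L)
    (hL : L ≤ (n - j - 3) ∧ L ≤ (n + Q - k - 3) ∧ L ≤ (n - l - 3) ∧ L ≤ (n + i - k - 2) ∧ L ≤ (n - l2 - 3) ∧ L ≤ (n + i3 - Q - 2) ∧ L ≤ (i2 + l2 - 1) ∧ L ≤ (n + i2 - k - l - 3) ∧ L ≤ (Q + i2 + l2 - i - l - 3))
    (bd0 : Bd W n L (j) (i) (k))
    (bd2 : Bd W n L (k + l + l2 - n + 2) (i3) (i2 + l2 + 1))
    (n1 : Nd W (j) (i) (k))
    (n2 : Nd W (i + l + 1) (i2) (k + l + 1))
    (n3 : Nd W (k + l + l2 - n + 2) (i3) (i2 + l2 + 1))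
    (b0 : (2 * l2 + 3) ≤ (n))
    (b1 : (2 * Q + i2 + l2) ≤ (n + i + j + i3))
    (b2 : (2 * i + l + i2 + 2) ≤ (2 * Q + k))
    (b3 : (j + l + l2 + i3 + 3) ≤ (n))
    (b4 : (i + k + 2 * l + 3) ≤ (Q + i2 + l2))
    (b5 : (n + i + j) ≤ (k + l + l2 + 1))
    (b6 : (l + 2 * i3) ≤ (Q + i + i2))
    (b7 : (j + 1) ≤ (i3)) : False := by
  have ev := al.ev
  obtain ⟨y0, y1, y2, y3, y4, y5, y6, y7, y8, y9, y10, y11, y12, y13, y14, y15, y16, y17, y18, y19, y20, y21, y22⟩ := id hy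
  have n1p := And.intro n1.p1 n1.p2
  have n2p := And.intro n2.p1 n2.p2
  have n3p := And.intro n3.p1 n3.p2
  by_cases z37 : (Q + l + l2 + 1) ≤ (n + i)
  · exact t2c_18 al hy a1 a2 s1 s2 b tt c u1 u2 D1 D2 mx hL bd0 bd2 n1 n2 n3 (by clear * - b0; omega) (by clear * - b1; omega) (by clear * - b2; omega) (by clear * - b3; omega) (by clear * - b4; omega) (by clear * - b5; omega) (by clear * - b6; omega) (by clear * - b7; omega) (by clear * - z37; omega)
  · exact t2c_19 al hy a1 a2 s1 s2 b tt c u1 u2 D1 D2 mx hL bd0 bd2 n1 n2 n3 (by clear * - b0; omega) (by clear * - b1; omega) (by clear * - b2; omega) (by clear * - b3; omega) (by clear * - b4; omega) (by clear * - b5; omega) (by clear * - b6; omega) (by clear * - b7; omega) (by clear * - z37; omega)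

theorem t2c_20 {W : ℤ → G} {n Q i j k l i2 l2 i3 : ℤ} (al : AL W n Q)
    (hy : (0) ≤ (i) ∧ (i) ≤ (j) ∧ (j + 1) ≤ (Q) ∧ (Q) ≤ (k) ∧ (k + 1) ≤ (n) ∧ (Q) ≤ (i + l + 1) ∧ (k + l + 2) ≤ (n) ∧ (Q) ≤ (i2) ∧ (i2) ≤ (i + l + 1) ∧ (Q) ≤ (i2 + l2 + 1) ∧ (i2 + l2 + 2) ≤ (n) ∧ (n) ≤ (k + l + l2 + 2) ∧ (k + l + l2 + 3) ≤ (n + Q) ∧ (0) ≤ (i3) ∧ (n + i3) ≤ (k + l + l2 + 2) ∧ (k + i2 + l2 + 2) ≤ (n + j + i3) ∧ (j + i3 + 1) ≤ (k) ∧ (k + i2 + l2 + 2) ≤ (n + i3) ∧ (i + 2 * i2 + 1) ≤ (2 * Q + k) ∧ (i + l + 1) ≤ (i2 + l2) ∧ (k + l + 1) ≤ (i2 + l2) ∧ (2 * k + 2 * l + 3) ≤ (n + i2) ∧ (i + 1) ≤ (i3))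
    (a1 : Par W (0) (j) (k - j))
    (a2 : Par W (Q + j - k) (j) (k - j))
    (s1 : Ant W (0) (i) (i + j))
    (s2 : Ant W (j + 1) (Q) (i + j))
    (b : Par W (i + 1) (i + l + 1) (k - i))
    (tt : Ant W (Q) (i2) (i + l + i2 + 1))
    (c : Par W (i2 + 1) (i2 + l2 + 1) (k + l - i2 + 1))
    (u1 : Ant W (0) (i3) (k + l + l2 + i3 - n + 2))
    (u2 : Ant W (k + l + l2 - n + 3) (Q) (k + l + l2 + i3 - n + 2))
    (D1 : Par W (i3 + 1) (Q) (i2 + l2 - i3 + 1))
    (D2 : Par W (i2 + l2 + 2) (n) (i3 - i2 - l2 - 1))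
    {L : ℤ} (mx : ∀ a b g, 0 < g → g < n → Par W a b g → b - a ≤ L)
    (hL : L ≤ (n - j - 3) ∧ L ≤ (n + Q - k - 3) ∧ L ≤ (n - l - 3) ∧ L ≤ (n + i - k - 2) ∧ L ≤ (n - l2 - 3) ∧ L ≤ (n + i3 - Q - 2) ∧ L ≤ (i2 + l2 - 1) ∧ L ≤ (n + i2 - k - l - 3) ∧ L ≤ (Q + i2 + l2 - i - l - 3))
    (bd0 : Bd W n L (j) (i) (k))
    (bd2 : Bd W n L (k + l + l2 - n + 2) (i3) (i2 + l2 + 1))
    (n1 : Nd W (j) (i) (k))
    (n2 : Nd W (i + l + 1) (i2) (k + l + 1))
    (n3 : Nd W (k + l + l2 - n + 2) (i3) (i2 + l2 + 1))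
    (b0 : (2 * l2 + 3) ≤ (n))
    (b1 : (2 * Q + i2 + l2) ≤ (n + i + j + i3))
    (b2 : (2 * i + l + i2 + 2) ≤ (2 * Q + k))
    (b3 : (j + l + l2 + i3 + 3) ≤ (n))
    (b4 : (i + k + 2 * l + 3) ≤ (Q + i2 + l2))
    (b5 : (n + i + j) ≤ (k + l + l2 + 1))
    (b6 : (l + 2 * i3) ≤ (Q + i + i2))
    (b7 : (n + 2 * j) ≤ (k + l + l2 + i3 + 1))
    (b8 : (i3) ≤ (j)) : False := by
  have ev := al.ev
  obtain ⟨y0, y1, y2, y3, y4, y5, y6, y7, y8, y9, y10, y11, y12, y13, y14, y15, y16, y17, y18, y19, y20, y21, y22⟩ := id hy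
  have n1p := And.intro n1.p1 n1.p2
  have n2p := And.intro n2.p1 n2.p2
  have n3p := And.intro n3.p1 n3.p2
  by_cases z50 : (2 * k + 2 * l + i3 + 1) ≤ (3 * i2 + l2)
  · by_cases v29 : (k) ≤ (i2)
    · have kk709 : (3 * k + 2 * l + 3) ≤ (n + i + 2 * i2) := by clear * - b1 b4 b6 b7 b8 v29 y17; linarith
      have kk710 : (i + 2 * i2 + 2 * l2 + 4) ≤ (n + 2 * Q + k) := by clear * - b0 y18; omega
      have kk711 : (i + k + 2 * l + 4) ≤ (n + 2 * i3) := by clear * - b1 b2 b4 b5 b6 b7 v29 y18; linarith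
      have kk712 : (3 * k + 2 * l + 4) ≤ (n + i + 2 * i2) := by clear * - b1 b4 b6 b7 b8 v29 y17; linarith
      have kk713 : (i2) ≤ (k + l + 1) := by clear * - b1 b2 b5 b6 b7 b8 v29 y18; linarith
      have kk714 : (k) ≤ (i2) := by clear * - v29; omega
      have kk715 : (2 * i2 + l2) ≤ (2 * k + 2 * l + 1) := by clear * - b0 b1 b7 b8 v29 y18; omega
      have kk716 : (k + l) ≤ (i2 + l2) := by clear * - y20; omega
      have kk717 : (2 * k + l + i3) ≤ (i + 2 * i2 + l2) := by clear * - b1 b4 b6 b7 b8 v29 y17; linarith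
      have r718 : (n + k + l + l2 + i3 + 2) % 2 = 0 := by clear * - ev n1p n2p n3p; omega
      have r719 : (n + i + 2 * i2 - 3 * k - 2 * l - 2) % 2 = 0 := by clear * - ev n1p n2p n3p; omega
      clear * - al b c u2 kk709 kk710 kk711 kk712 kk713 kk714 kk715 kk716 kk717 r718 r719
      exact midP al (n + i + 2 * i2 - 3 * k - 2 * l - 2) (n + k + l + l2 + i3 + 2) (k + l + l2 + 3) (2 * k + 2 * l - i2 + 3) (n + i + 2 * i2 + l2 - 2 * k - l) (by omega) (fun t h1 h2 => (cE (qa u2 al 1 t ((k + l + l2 + i3 + 2) - t) (by omega)) (sh al 1 ((k + l + l2 + i3 + 2) - t) ((n + k + l + l2 + i3 + 2) - t) (by omega)))) (fun t h1 h2 => (cE (cE (cE (pb c al 0 t (t + (i2 - k - l - 1)) (by omega)) (pb c al 0 (t + (i2 - k - l - 1)) (t + (2 * i2 - 2 * k - 2 * l - 2)) (by omega))) (pb b al 0 (t + (2 * i2 - 2 * k - 2 * l - 2)) (t + (i + 2 * i2 - 3 * k - 2 * l - 2)) (by omega))) (sh al 1 (t + (i + 2 * i2 - 3 * k - 2 * l - 2)) (t + (n + i + 2 * i2 - 3 * k - 2 * l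 - 2)) (by omega))))
    · have kk720 : (3 * k + 2 * l + 3) ≤ (n + i + 2 * i2) := by clear * - y0 y17 z50; omega
      have kk721 : (i + 2 * i2 + 2 * l2 + 4) ≤ (n + 2 * Q + k) := by clear * - b0 y18; omega
      have kk722 : (i + 3 * k + 2 * l + 4) ≤ (n + 2 * i2 + 2 * i3) := by clear * - y13 y17 y22 z50; omega
      have kk723 : (3 * k + 2 * l + 4) ≤ (n + i + 2 * i2) := by clear * - y0 y17 z50 ev n1p n2p n3p; omega
      have kk724 : (i2) ≤ (k + l + 1) := by clear * - b1 b6 b7 b8 y17 y22; omega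
      have kk725 : (i2) ≤ (k) := by clear * - v29; omega
      have kk726 : (2 * i2 + l2) ≤ (2 * k + 2 * l + 1) := by clear * - b0 b7 b8 v29 y15; omega
      have kk727 : (2 * k + l) ≤ (2 * i2 + l2) := by clear * - b7 b8 y15 z50; omega
      have kk728 : (2 * k + l + i3) ≤ (i + 2 * i2 + l2) := by clear * - y8 z50; omega
      have r729 : (n + k + l + l2 + i3 + 2) % 2 = 0 := by clear * - ev n1p n2p n3p; omega
      have r730 : (n + i + 2 * i2 - 3 * k - 2 * l - 2) % 2 = 0 := by clear * - ev n1p n2p n3p; omega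
      clear * - al b c u2 kk720 kk721 kk722 kk723 kk724 kk725 kk726 kk727 kk728 r729 r730
      exact midP al (n + i + 2 * i2 - 3 * k - 2 * l - 2) (n + k + l + l2 + i3 + 2) (k + l + l2 + 3) (3 * k + 2 * l - 2 * i2 + 3) (n + i + 2 * i2 + l2 - 2 * k - l) (by omega) (fun t h1 h2 => (cE (qa u2 al 1 t ((k + l + l2 + i3 + 2) - t) (by omega)) (sh al 1 ((k + l + l2 + i3 + 2) - t) ((n + k + l + l2 + i3 + 2) - t) (by omega)))) (fun t h1 h2 => (cE (cE (cE (pb c al 0 t (t + (i2 - k - l - 1)) (by omega)) (pb c al 0 (t + (i2 - k - l - 1)) (t + (2 * i2 - 2 * k - 2 * l - 2)) (by omega))) (pb b al 0 (t + (2 * i2 - 2 * k - 2 * l - 2)) (t + (i + 2 * i2 - 3 * k - 2 * l - 2)) (by omega))) (sh al 1 (t + (i + 2 * i2 - 3 * k - 2 * l - 2)) (t + (n + i + 2 * i2 - 3 * k - 2 * l - 2)) (by omega))))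
  · by_cases z51 : (n + 2 * i + j + i2 + 1) ≤ (2 * Q + 2 * k + l)
    · have kk731 : (n + 2 * i + j + i2 + 1) ≤ (2 * Q + 2 * k + l) := by clear * - z51; omega
      have kk732 : (n + j + i2) ≤ (2 * k + 3 * l + 2) := by clear * - b0 b7 b8 y15; omega
      have kk733 : (Q + 2 * k + l + 1) ≤ (n + i + j + i2) := by clear * - b8 y13 y21 y7 y8; omega
      have kk734 : (Q + k + l + 1) ≤ (n + i + j) := by clear * - b0 b1 b6 b7 b8 y17 y20 z50; linarith
      have kk735 : (k + l) ≤ (i2 + l2) := by clear * - y20; omega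
      have kk736 : (2 * k + 2 * l + 2) ≤ (n + i + i2) := by clear * - y0 y21; omega
      have r737 : (3 * n + 2 * i + j + i2 - 2 * k - l - 1) % 2 = 0 := by clear * - ev n1p n2p n3p; omega
      clear * - al s2 b c kk731 kk732 kk733 kk734 kk735 kk736 r737
      obtain ⟨t, ht⟩ : ∃ t, 2 * t = (3 * n + 2 * i + j + i2 - 2 * k - l - 1) := ⟨(3 * n + 2 * i + j + i2 - 2 * k - l - 1) / 2, by omega⟩
      exact al.ninv t (cE (cI (cE (qf b al 1 t (t + (k - n - i)) (by omega)) (qf c al 0 (t + (k - n - i)) (t + (2 * k + l - n - i - i2 + 1)) (by omega))) (ab s2 al 1 (t + (2 * k + l - n - i - i2 + 1)) ((2 * n + 2 * i + j + i2 - 2 * k - l - 1) - t) (by omega))) (sh al 1 ((2 * n + 2 * i + j + i2 - 2 * k - l - 1) - t) t (by omega)))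
    · by_cases z52 : (j + 3 * i2 + l2) ≤ (2 * k + 2 * l + i3)
      · by_cases z53 : (3 * k + 3 * l + i3 + 3) ≤ (n + Q + 3 * i2)
        · by_cases z54 : (3 * k + 3 * l + l2 + 4) ≤ (2 * n + i + j + i2)
          · by_cases v30 : (3 * i2 + 2 * l2 + 1) ≤ (n + k + l + i3)
            · have kk738 : (n + j) ≤ (k + l + l2 + 1) := by clear * - b7 b8; omega
              have kk739 : (k + l + l2 + 3) ≤ (n + Q) := by clear * - z50 z53; omega
              have kk740 : (n + i + j) ≤ (k + l + l2 + i3 + 1) := by clear * - b7 b8 y22; omega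
              have kk741 : (3 * i2 + l2) ≤ (2 * k + 2 * l + i3) := by clear * - z50; omega
              have kk742 : (3 * k + 3 * l + i3 + 3) ≤ (n + Q + 3 * i2) := by clear * - z53; omega
              have kk743 : (3 * k + 3 * l + l2 + 4) ≤ (2 * n + i + j + i2) := by clear * - z54; omega
              have kk744 : (n + i3) ≤ (k + l + l2 + 1) := by clear * - b7 b8; omega
              have kk745 : (n + j) ≤ (k + l + l2 + 2) := by clear * - b7 b8; omega
              have kk746 : (i3) ≤ (i2) := by clear * - b0 b7 b8 y22 z54; omega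
              have kk747 : (i2) ≤ (k + l + 1) := by clear * - b6 b7 b8 v30 y22 z50 z51 z53; linarith
              have kk748 : (3 * i2 + 2 * l2 + 1) ≤ (n + k + l + i3) := by clear * - v30; omega
              have r749 : (k + l + l2 + i3 - n - i - j + 2) % 2 = 0 := by clear * - ev n1p n2p n3p; omega
              have r750 : (2 * k + 2 * l + i3 - 3 * i2 - l2 + 1) % 2 = 0 := by clear * - ev n1p n2p n3p; omega
              clear * - al s2 c u2 D2 n3 kk738 kk739 kk740 kk741 kk742 kk743 kk744 kk745 kk746 kk747 kk748 r749 r750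
              exact n3.f2 (rEI (sh al 0 (i3) (i3) (by omega)) (qa s2 al 0 (k + l + l2 - n + 2) (n + i + j - k - l - l2 - 2) (by omega)) (Eq.symm (rotR (k + l + l2 + i3 - n - i - j + 2) (2 * k + 2 * l + i3 - 3 * i2 - l2 + 1) (n + i + j - k - l - l2 - 2) (i3) (by omega) (fun t h1 h2 => (cE (qf (show Par W (n + i + j - Q + 1) (2 * n + i + j - k - l - l2 - 2) (k + l + l2 + i3 - n - i - j + 2) from fun t h1 h2 => (cE (sh al (-2) t (t + (-2 * n)) (by omega)) (cE (cII (ab s2 al (-1) (t + (-2 * n)) ((n + i + j) - t) (by omega)) (qa u2 al 0 ((n + i + j) - t) (t + (k + l + l2 + i3 - 2 * n - i - j + 2)) (by omega))) (sh al 1 (t + (k + l + l2 + i3 - 2 * n - i - j + 2)) (t + (k + l + l2 + i3 - n - i - j + 2)) (by omega))))) al (-1) t (t + (k + l + l2 + i3 - i - j + 2)) (by omega)) (sh al (-1) (t + (k + l + l2 + i3 - i - j + 2)) (t + (k + l + l2 + i3 - n - i - j + 2)) (by omega)))) (fun t h1 h2 => (cE (cE (cE (qf D2 al (-1) t (t + (n + i3 - i2 - l2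 - 1)) (by omega)) (qf c al 0 (t + (n + i3 - i2 - l2 - 1)) (t + (n + k + l + i3 - 2 * i2 - l2)) (by omega))) (qf c al 0 (t + (n + k + l + i3 - 2 * i2 - l2)) (t + (n + 2 * k + 2 * l + i3 - 3 * i2 - l2 + 1)) (by omega))) (sh al (-1) (t + (n + 2 * k + 2 * l + i3 - 3 * i2 - l2 + 1)) (t + (2 * k + 2 * l + i3 - 3 * i2 - l2 + 1)) (by omega)))))))
            · have kk751 : (n + j) ≤ (k + l + l2 + 1) := by clear * - v30 z52; omega
              have kk752 : (k + l + l2 + 3) ≤ (n + Q) := by clear * - z50 z53; omega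
              have kk753 : (n + i + j) ≤ (k + l + l2 + i3 + 1) := by clear * - v30 y22 z52; omega
              have kk754 : (3 * i2 + l2) ≤ (2 * k + 2 * l + i3) := by clear * - z50; omega
              have kk755 : (3 * k + 3 * l + i3 + 3) ≤ (n + Q + 3 * i2) := by clear * - z53; omega
              have kk756 : (3 * k + 3 * l + l2 + 4) ≤ (2 * n + i + j + i2) := by clear * - z54; omega
              have kk757 : (3 * i2 + l2) ≤ (2 * k + 2 * l) := by clear * - b8 z52; omega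
              have kk758 : (n + j) ≤ (k + l + l2 + 2) := by clear * - v30 z52; omega
              have kk759 : (i3) ≤ (i2) := by clear * - b0 b5 b8 v30 z50 z52 z54; linarith
              have kk760 : (i2) ≤ (k + l + 1) := by clear * - b1 b5 b8 v30 z50 z52 z53; linarith
              have kk761 : (n + i3) ≤ (2 * i2 + 2 * l2 + 2) := by clear * - b1 b5 b8 v30 z50 z52 z53; linarith
              have kk762 : (n + k + l + i3) ≤ (3 * i2 + 2 * l2 + 1) := by clear * - v30; omega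
              have r763 : (k + l + l2 + i3 - n - i - j + 2) % 2 = 0 := by clear * - ev n1p n2p n3p; omega
              have r764 : (2 * k + 2 * l + i3 - 3 * i2 - l2 + 1) % 2 = 0 := by clear * - ev n1p n2p n3p; omega
              clear * - al s2 c u2 D2 n3 kk751 kk752 kk753 kk754 kk755 kk756 kk757 kk758 kk759 kk760 kk761 kk762 r763 r764
              exact n3.f2 (rEI (sh al 0 (i3) (i3) (by omega)) (qa s2 al 0 (k + l + l2 - n + 2) (n + i + j - k - l - l2 - 2) (by omega)) (Eq.symm (rotR (k + l + l2 + i3 - n - i - j + 2) (2 * k + 2 * l + i3 - 3 * i2 - l2 + 1) (n + i + j - k - l - l2 - 2) (i3) (by omega) (fun t h1 h2 => (cE (qf (show Par W (n + i + j - Q + 1) (2 * n + i + j - k - l - l2 - 2) (k + l + l2 + i3 - n - i - j + 2) from fun t h1 h2 => (cE (sh al (-2) t (t + (-2 * n)) (by omega)) (cE (cII (ab s2 al (-1) (t + (-2 * n)) ((n + i + j) - t) (by omega)) (qa u2 al 0 ((n + i + j) - t) (t + (k + l + l2 + i3 - 2 * n - i - j + 2)) (by omega)))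 (sh al 1 (t + (k + l + l2 + i3 - 2 * n - i - j + 2)) (t + (k + l + l2 + i3 - n - i - j + 2)) (by omega))))) al (-1) t (t + (k + l + l2 + i3 - i - j + 2)) (by omega)) (sh al (-1) (t + (k + l + l2 + i3 - i - j + 2)) (t + (k + l + l2 + i3 - n - i - j + 2)) (by omega)))) (fun t h1 h2 => (cE (cE (cE (qf D2 al (-1) t (t + (n + i3 - i2 - l2 - 1)) (by omega)) (qf c al 0 (t + (n + i3 - i2 - l2 - 1)) (t + (n + k + l + i3 - 2 * i2 - l2)) (by omega))) (qf c al 0 (t + (n + k + l + i3 - 2 * i2 - l2)) (t + (n + 2 * k + 2 * l + i3 - 3 * i2 - l2 + 1)) (by omega))) (sh al (-1) (t + (n + 2 * k + 2 * l + i3 - 3 * i2 - l2 + 1)) (t + (2 * k + 2 * l + i3 - 3 * i2 - l2 + 1)) (by omega)))))))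
          · by_cases z55 : (n + j + 2 * i2) ≤ (3 * k + 2 * l + 1)
            · by_cases v31 : (2 * i2 + l2) ≤ (2 * k + l)
              · have kk765 : (n + j + 2 * i2) ≤ (3 * k + 2 * l + 1) := by clear * - z55; omega
                have kk766 : (j + 3 * k + 2 * l + 4) ≤ (n + 2 * Q + 2 * i2) := by clear * - b7 b8 v31 y15 z53; omega
                have kk767 : (j + k + 2 * l + 4) ≤ (n + 2 * i) := by clear * - b4 b6 b7 v31 y17 z51; omega
                have kk768 : (n + j + k) ≤ (2 * i2 + 2 * l2) := by clear * - b4 y0 y17 z51 z53 z54; omega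
                have kk769 : (i2) ≤ (k + l + 1) := by clear * - b2 z50 z51 z53 z54; omega
                have kk770 : (Q) ≤ (i2 + 1) := by clear * - b1 z53 z54; omega
                have kk771 : (2 * i2 + l2) ≤ (2 * k + l) := by clear * - v31; omega
                have kk772 : (n + i) ≤ (k + l + l2 + 2) := by clear * - b7 b8 y22; omega
                have kk773 : (i2) ≤ (k) := by clear * - b4 v31 z50 z51 z53 z54; omega
                have r774 : (i + j - 2 * n) % 2 = 0 := by clear * - ev n1p n2p n3p; omega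
                have r775 : (3 * k + 2 * l - n - j - 2 * i2 + 2) % 2 = 0 := by clear * - ev n1p n2p n3p; omega
                clear * - al a2 s2 c kk765 kk766 kk767 kk768 kk769 kk770 kk771 kk772 kk773 r774 r775
                exact midP al (3 * k + 2 * l - n - j - 2 * i2 + 2) (i + j - 2 * n) (j - n + 1) (j + i2 - n - k + 1) (k + l + l2 - 2 * n + 2) (by omega) (fun t h1 h2 => (cE (qa s2 al (-1) t ((i + j - n) - t) (by omega)) (sh al (-1) ((i + j - n) - t) ((i + j - 2 * n) - t) (by omega)))) (fun t h1 h2 => (cE (cE (cE (qf a2 al (-1) t (t + (n + k - j)) (by omega)) (qf c al 0 (t + (n + k - j)) (t + (n + 2 * k + l - j - i2 + 1)) (by omega))) (qf c al 0 (t + (n + 2 * k + l - j - i2 + 1)) (t + (n + 3 * k + 2 * l - j - 2 * i2 + 2)) (by omega))) (sh al (-2) (t + (n + 3 * k + 2 * l - j - 2 * i2 + 2)) (t + (3 * k + 2 * l - n - j - 2 * i2 + 2)) (by omega))))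
              · have kk776 : (n + j + 2 * i2) ≤ (3 * k + 2 * l + 1) := by clear * - z55; omega
                have kk777 : (j + 3 * k + 2 * l + 4) ≤ (n + 2 * Q + 2 * i2) := by clear * - v31 z50 z53 z55; omega
                have kk778 : (j + k + 2 * l + 4) ≤ (n + 2 * i) := by clear * - b4 y0 z51 z52 z53 z55; omega
                have kk779 : (n + j + 2 * i2) ≤ (3 * k + 2 * l) := by clear * - z55 ev n1p n2p n3p; omega
                have kk780 : (i2) ≤ (k + l + 1) := by clear * - b2 z50 z51 z53 z54; omega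
                have kk781 : (Q) ≤ (i2 + 1) := by clear * - b1 z53 z54; omega
                have kk782 : (2 * k + l) ≤ (2 * i2 + l2) := by clear * - v31; omega
                have kk783 : (k) ≤ (i2 + l2 + 1) := by clear * - b2 v31 z50 z51 z53 z54; omega
                have kk784 : (n + i + 2 * i2) ≤ (3 * k + 2 * l + 2) := by clear * - b0 b1 b4 b8 z50 z54 z55; linarith
                have kk785 : (i2) ≤ (k) := by clear * - b2 z51 z55; omega
                have r786 : (i + j - 2 * n) % 2 = 0 := by clear * - ev n1p n2p n3p; omega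
                have r787 : (3 * k + 2 * l - n - j - 2 * i2 + 2) % 2 = 0 := by clear * - ev n1p n2p n3p; omega
                clear * - al a2 s2 c kk776 kk777 kk778 kk779 kk780 kk781 kk782 kk783 kk784 kk785 r786 r787
                exact midP al (3 * k + 2 * l - n - j - 2 * i2 + 2) (i + j - 2 * n) (j - n + 1) (j + i2 - n - k + 1) (3 * k + 2 * l - 2 * n - 2 * i2 + 2) (by omega) (fun t h1 h2 => (cE (qa s2 al (-1) t ((i + j - n) - t) (by omega)) (sh al (-1) ((i + j - n) - t) ((i + j - 2 * n) - t) (by omega)))) (fun t h1 h2 => (cE (cE (cE (qf a2 al (-1) t (t + (n + k - j)) (by omega)) (qf c al 0 (t + (n + k - j)) (t + (n + 2 * k + l - j - i2 + 1)) (by omega))) (qf c al 0 (t + (n + 2 * k + l - j - i2 + 1)) (t + (n + 3 * k + 2 * l - j - 2 * i2 + 2)) (by omega))) (sh al (-2) (t + (n + 3 * k + 2 * l - j - 2 * i2 + 2)) (t + (3 * k + 2 * l - n - j - 2 * i2 + 2)) (by omega))))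
            · by_cases z56 : (n + k + l + i3) ≤ (3 * i2 + 2 * l2 + 1)
              · have kk788 : (3 * i2 + l2) ≤ (2 * k + 2 * l + i3) := by clear * - z50; omega
                have kk789 : (2 * k + 2 * l + i3 + 2) ≤ (n + 3 * i2 + l2) := by clear * - b1 b5 b8 z50 z52 z53 z56; linarith
                have kk790 : (2 * k + 2 * l + 3) ≤ (n + i2) := by clear * - y21; omega
                have kk791 : (i3) ≤ (i2) := by clear * - b1 b8 z50 z52 z53 z54 z56; linarith
                have kk792 : (i2) ≤ (k + l + 1) := by clear * - b3 z50 z55 z56; omega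
                have kk793 : (n + k + l + i3) ≤ (3 * i2 + 2 * l2 + 1) := by clear * - z56; omega
                clear * - al c D2 kk788 kk789 kk790 kk791 kk792 kk793
                exact al.ubP (2 * k + 2 * l + i3 - 3 * i2 - l2 + 1) (by omega) (by omega) fun t h1 h2 => (cE (sh al 2 t (t + (2 * n)) (by omega)) (cE (cE (cE (qf D2 al 1 (t + (2 * n)) (t + (n + i3 - i2 - l2 - 1)) (by omega)) (qf c al 0 (t + (n + i3 - i2 - l2 - 1)) (t + (n + k + l + i3 - 2 * i2 - l2)) (by omega))) (qf c al 0 (t + (n + k + l + i3 - 2 * i2 - l2)) (t + (n + 2 * k + 2 * l + i3 - 3 * i2 - l2 + 1)) (by omega))) (sh al (-1) (t + (n + 2 * k + 2 * l + i3 - 3 * i2 - l2 + 1)) (t + (2 * k + 2 * l + i3 - 3 * i2 - l2 + 1)) (by omega))))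
              · have kk794 : (k + l + 1) ≤ (i2 + l2) := by clear * - b4 z50 z51 z53 z54; omega
                have kk795 : (i2) ≤ (k + l) := by clear * - b2 z50 z51 z53 z54; omega
                have kk796 : (i + 1) ≤ (k) := by clear * - b1 b4 b7 b8 z50 z53 z54; linarith
                have kk797 : (0) ≤ (l) := by clear * - b2 z50 z51 z53 z54 z55; omega
                have kk798 : (i + 1) ≤ (i3) := by clear * - y22; omega
                have kk799 : (i3) ≤ (k + l) := by clear * - b1 b4 b7 b8 z50 z53 z54 z55; linarith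
                have kk800 : (i + k + l + 1) ≤ (2 * i2 + l2) := by clear * - b1 b4 b8 z50 z51 z53 z54 z55; linarith
                have kk801 : (2 * i2 + l2) ≤ (2 * k + 2 * l) := by clear * - b1 b7 b8 z50 z53 z54; omega
                have kk802 : (2 * i2 + l2) ≤ (k + 2 * l + i3 + 1) := by clear * - y0 z54 z55 z56; omega
                have kk803 : (k + l) ≤ (i2 + l2) := by clear * - b4 z50 z51 z53 z54; omega
                have kk804 : (n) ≤ (k + l + l2 + 2) := by clear * - b7 b8 y13; omega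
                have kk805 : (i) ≤ (i3) := by clear * - y22; omega
                have kk806 : (i + k + l) ≤ (2 * i2 + l2) := by clear * - b1 b4 b8 z50 z51 z53 z54 z55; linarith
                have kk807 : (2 * k + 2 * l + 2) ≤ (n + i2) := by clear * - b4 z51 z53 z54 z56; omega
                have kk808 : (k + l + i3) ≤ (2 * i2 + l2) := by clear * - b2 z50 z51 z53 z54; omega
                have kk809 : (l2 + i3 + 2) ≤ (n) := by clear * - b1 b5 b7 b8 z50 z53 z54; linarith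
                have kk810 : (0) ≤ (i + 1) := by clear * - y0; omega
                have kk811 : (n + i) ≤ (k + l + l2 + 2) := by clear * - b2 z51 z54 z55; omega
                have kk812 : (i3) ≤ (k + l + 1) := by clear * - b1 b4 b7 b8 z50 z53 z54 z55; linarith
                have r813 : (2 * i2 + l2 - k - l - i3) % 2 = 0 := by clear * - ev n1p n2p n3p; omega
                have r814 : (k - i) % 2 = 0 := by clear * - ev n1p n2p n3p; omega
                have r815 : (k + l + l2 + i3 - 3 * n + 2) % 2 = 0 := by clear * - ev n1p n2p n3p; omega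
                clear * - al b c u1 D2 n3 kk794 kk795 kk796 kk797 kk798 kk799 kk800 kk801 kk802 kk803 kk804 kk805 kk806 kk807 kk808 kk809 kk810 kk811 kk812 r813 r814 r815
                exact ivt al.ninv (i - n + 1) (i + l - n + 1) (k - i) (i3 - n + 1) (2 * k + 2 * l + i3 - n - 2 * i2 - l2 + 1) (2 * i2 + l2 - k - l - i3) (i3 - n) (2 * i2 + l2 - n - k - l) 0 (fun t h1 h2 => (cE (qf b al (-1) t (t + (n + k - i)) (by omega)) (sh al (-1) (t + (n + k - i)) (t + (k - i)) (by omega)))) (fun t h1 h2 => (cE (qf (show Par W (i3 + 1) (n + i3 - i2 - l2 - 1) (2 * i2 + l2 - k - l - i3) from fun t h1 h2 => (cE (sh al (-1) t (t + (-n)) (by omega)) (cE (pb D2 al (-1) (t + (-n)) (t + (i2 + l2 - i3 + 1)) (by omega)) (pb c al 0 (t + (i2 + l2 - i3 + 1)) (t + (2 * i2 + l2 - k - l - i3)) (by omega))))) al (-1) t (t + (n + 2 * i2 + l2 - k - l - i3)) (by omega)) (sh al (-1) (t + (n + 2 * i2 + l2 - k - l - i3)) (t + (2 * i2 + l2 - k - l - i3)) (by omega)))) (fun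 hh => n3.f1 (rEE (sh al (-1) (i3) (i3 - n) (by omega)) (cE (pb c al 0 (i2 + l2 + 1) (2 * i2 + l2 - k - l) (by omega)) (sh al (-1) (2 * i2 + l2 - k - l) (2 * i2 + l2 - n - k - l) (by omega))) (Eq.symm hh))) (by omega) (i - n + 1) (i3 - n) (k + l + l2 + i3 - 3 * n + 2) 0 (-1) (fun t h1 h2 => (cE (qa u1 al (-1) t ((k + l + l2 + i3 - 2 * n + 2) - t) (by omega)) (sh al (-1) ((k + l + l2 + i3 - 2 * n + 2) - t) ((k + l + l2 + i3 - 3 * n + 2) - t) (by omega)))) (by omega)
        · by_cases z57 : (n + 2 * i + j + 3 * i2 + l2) ≤ (5 * k + 2 * l + i3 + 1)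
          · by_cases v32 : (n + Q + i + 2 * i2) ≤ (3 * k + 2 * l + i3 + 3)
            · have kk816 : (k + i2 + l2 + 2) ≤ (n + j + i3) := by clear * - y15; omega
              have kk817 : (j + k + 2 * l + l2 + i3 + 5) ≤ (n + 2 * Q + i2) := by clear * - b0 b4 b6 b7 b8 y17; omega
              have kk818 : (2 * Q + j + i2 + l2 + 1) ≤ (n + k + 3 * i3) := by clear * - b3 b6 b7 v32 y22 z51 z52 z57; linarith
              have kk819 : (5 * k + 4 * l + l2 + i3 + 7) ≤ (3 * n + 2 * i + j + 3 * i2) := by clear * - b5 b6 b7 b8 y17 y22 z51; linarith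
              have kk820 : (i3 + 1) ≤ (Q) := by clear * - b6 b7 b8 y17 y22; omega
              have kk821 : (k + i2 + l2 + 1) ≤ (n + i3) := by clear * - y17; omega
              have kk822 : (n + i + i2) ≤ (2 * k + l + l2 + 2) := by clear * - b4 b6 b7 b8 v32 y22 z51 z52; linarith
              have kk823 : (n + i) ≤ (k + l + l2 + 2) := by clear * - b7 b8 y22; omega
              have kk824 : (k + l) ≤ (i2 + l2) := by clear * - y20; omega
              have kk825 : (Q) ≤ (i + l + 1) := by clear * - b0 b7 b8 y15 z51; omega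
              have kk826 : (i3) ≤ (j) := by clear * - b8; omega
              have kk827 : (n + Q + i + 2 * i2) ≤ (3 * k + 2 * l + i3 + 3) := by clear * - v32; omega
              have r828 : (2 * n + 3 * k + 2 * l + l2 + i3 - i - i2 + 3) % 2 = 0 := by clear * - ev n1p n2p n3p; omega
              have r829 : (n + j + i3 - k - i2 - l2 - 1) % 2 = 0 := by clear * - ev n1p n2p n3p; omega
              clear * - al a2 b c u2 D2 kk816 kk817 kk818 kk819 kk820 kk821 kk822 kk823 kk824 kk825 kk826 kk827 r828 r829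
              exact midP al (n + j + i3 - k - i2 - l2 - 1) (2 * n + 3 * k + 2 * l + l2 + i3 - i - i2 + 3) (3 * k + 2 * l + l2 - i - i2 + 4) (n + Q + i2 + l2 - i3 + 1) (2 * n + j) (by omega) (fun t h1 h2 => (cE (cI (cE (pb c al 1 t (t + (i2 - n - k - l - 1)) (by omega)) (pb b al 0 (t + (i2 - n - k - l - 1)) (t + (i + i2 - n - 2 * k - l - 1)) (by omega))) (qa u2 al 0 (t + (i + i2 - n - 2 * k - l - 1)) ((3 * k + 2 * l + l2 + i3 - i - i2 + 3) - t) (by omega))) (sh al 2 ((3 * k + 2 * l + l2 + i3 - i - i2 + 3) - t) ((2 * n + 3 * k + 2 * l + l2 + i3 - i - i2 + 3) - t) (by omega)))) (fun t h1 h2 => (cE (qf (show Par W (Q + i2 + l2 - i3 + 1) (k + i2 + l2 - i3 + 1) (n + j + i3 - k - i2 - l2 - 1) from fun t h1 h2 => (cE (sh al (-1) t (t + (-n)) (by omega)) (cE (cE (qf D2 al (-1) (t + (-n)) (t + (i3 - i2 - l2 - 1)) (by omega)) (pb a2 al 0 (t + (i3 - i2 - l2 - 1)) (t + (j + i3 - k - i2 - l2 - 1)) (by omega))) (sh al 1 (t + (j + i3 - k - i2 - l2 -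 1)) (t + (n + j + i3 - k - i2 - l2 - 1)) (by omega))))) al 1 t (t + (j + i3 - k - i2 - l2 - 1)) (by omega)) (sh al 1 (t + (j + i3 - k - i2 - l2 - 1)) (t + (n + j + i3 - k - i2 - l2 - 1)) (by omega))))
            · have kk830 : (k + i2 + l2 + 2) ≤ (n + j + i3) := by clear * - y15; omega
              have kk831 : (n + 2 * i + j + 3 * i2 + l2) ≤ (5 * k + 2 * l + i3 + 1) := by clear * - z57; omega
              have kk832 : (n + 4 * Q + 2 * i + j + 5 * i2 + l2) ≤ (7 * k + 4 * l + 5 * i3 + 5) := by clear * - b7 b8 v32 y22 z51 z53 z57; linarith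
              have kk833 : (2 * Q + i2 + l2 + 1) ≤ (n + j + k + i3) := by clear * - b7 b8 v32 y22 z51 z53 z57; linarith
              have kk834 : (i3 + 1) ≤ (Q) := by clear * - b0 b4 b7 b8 v32 z53; omega
              have kk835 : (k + i2 + l2 + 1) ≤ (n + i3) := by clear * - y17; omega
              have kk836 : (n + i + i2) ≤ (2 * k + l + l2 + 2) := by clear * - b4 b7 b8 v32 y22 z51 z53 z57; linarith
              have kk837 : (n + i) ≤ (k + l + l2 + 2) := by clear * - b7 b8 y22; omega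
              have kk838 : (k + l) ≤ (i2 + l2) := by clear * - b4 b7 b8 v32 y22 z51 z53 z57; linarith
              have kk839 : (Q) ≤ (i + l + 1) := by clear * - b0 b7 b8 v32 y22 z51 z53; linarith
              have kk840 : (3 * k + 2 * l + i3 + 3) ≤ (n + Q + i + 2 * i2) := by clear * - v32; omega
              have kk841 : (3 * k + 2 * l + 2 * i3 + 3) ≤ (n + Q + i + j + 2 * i2) := by clear * - b8 v32; omega
              have r842 : (2 * n + 3 * k + 2 * l + l2 + i3 - i - i2 + 3) % 2 = 0 := by clear * - ev n1p n2p n3p; omega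
              have r843 : (n + j + i3 - k - i2 - l2 - 1) % 2 = 0 := by clear * - ev n1p n2p n3p; omega
              clear * - al a2 b c u2 D2 kk830 kk831 kk832 kk833 kk834 kk835 kk836 kk837 kk838 kk839 kk840 kk841 r842 r843
              exact midP al (n + j + i3 - k - i2 - l2 - 1) (2 * n + 3 * k + 2 * l + l2 + i3 - i - i2 + 3) (n + Q + i2 + l2 - i3 + 1) (n + Q + i2 + l2 - i3 + 1) (2 * n + j) (by omega) (fun t h1 h2 => (cE (cI (cE (pb c al 1 t (t + (i2 - n - k - l - 1)) (by omega)) (pb b al 0 (t + (i2 - n - k - l - 1)) (t + (i + i2 - n - 2 * k - l - 1)) (by omega))) (qa u2 al 0 (t + (i + i2 - n - 2 * k - l - 1)) ((3 * k + 2 * l + l2 + i3 - i - i2 + 3) - t) (by omega))) (sh al 2 ((3 * k + 2 * l + l2 + i3 - i - i2 + 3) - t) ((2 * n + 3 * k + 2 * l + l2 + i3 - i - i2 + 3) - t) (by omega)))) (fun t h1 h2 => (cE (qf (show Par W (Q + i2 + l2 - i3 + 1) (k + i2 + l2 - i3 + 1) (n + j + i3 - k - i2 - l2 - 1) from fun t h1 h2 => (cE (sh al (-1)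 t (t + (-n)) (by omega)) (cE (cE (qf D2 al (-1) (t + (-n)) (t + (i3 - i2 - l2 - 1)) (by omega)) (pb a2 al 0 (t + (i3 - i2 - l2 - 1)) (t + (j + i3 - k - i2 - l2 - 1)) (by omega))) (sh al 1 (t + (j + i3 - k - i2 - l2 - 1)) (t + (n + j + i3 - k - i2 - l2 - 1)) (by omega))))) al 1 t (t + (j + i3 - k - i2 - l2 - 1)) (by omega)) (sh al 1 (t + (j + i3 - k - i2 - l2 - 1)) (t + (n + j + i3 - k - i2 - l2 - 1)) (by omega))))
          · by_cases v33 : (2 * i2 + l2) ≤ (2 * k + l)
            · have kk844 : (i + 2 * i2 + l2 + 1) ≤ (2 * k + l + i3) := by clear * - b0 b4 z53; omega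
              have kk845 : (2 * k + l + i3 + 1) ≤ (n + i + 2 * i2 + l2) := by clear * - b0 b4 b7 b8 v33 z51 z53 z57; linarith
              have kk846 : (2 * k + l + i3 + 1) ≤ (Q + 2 * i2 + l2) := by clear * - b0 b4 b7 b8 z53 z57; omega
              have kk847 : (Q) ≤ (i + l + 1) := by clear * - b0 b4 b7 b8 z51 z53 z57; linarith
              have kk848 : (k + l) ≤ (i2 + l2) := by clear * - b0 b4 b7 b8 z51 z53 z57; linarith
              have kk849 : (n) ≤ (k + l + l2 + 2) := by clear * - b7 b8 y13; omega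
              have kk850 : (2 * i2 + l2) ≤ (2 * k + l) := by clear * - v33; omega
              have kk851 : (2 * k + 2 * l + 2) ≤ (n + i2) := by clear * - y21; omega
              clear * - al b c D2 kk844 kk845 kk846 kk847 kk848 kk849 kk850 kk851
              exact al.ubQ (2 * k + l + i3 - i - 2 * i2 - l2) (by omega) (by omega) fun t h1 h2 => (cE (sh al 1 t (t + (n)) (by omega)) (cE (qf b al 1 (t + (n)) (t + (k - i)) (by omega)) (pb (show Par W (i3 + 1) (n + i3 - i2 - l2 - 1) (2 * i2 + l2 - k - l - i3) from fun t h1 h2 => (cE (sh al (-1) t (t + (-n)) (by omega)) (cE (pb D2 al (-1) (t + (-n)) (t + (i2 + l2 - i3 + 1)) (by omega)) (pb c al 0 (t + (i2 + l2 - i3 + 1)) (t + (2 * i2 + l2 - k - l - i3)) (by omega))))) al 0 (t + (k - i)) (t + (2 * k + l + i3 - i - 2 * i2 - l2)) (by omega))))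
            · have kk852 : (i + 2 * i2 + l2 + 1) ≤ (2 * k + l + i3) := by clear * - b0 b4 z53; omega
              have kk853 : (2 * k + l + i3 + 1) ≤ (n + i + 2 * i2 + l2) := by clear * - b0 b4 b7 b8 v33 z50 z51 z57; linarith
              have kk854 : (i3 + 1) ≤ (Q) := by clear * - b0 b4 b6 b8 v33 z52 z53; linarith
              have kk855 : (Q) ≤ (i + l + 1) := by clear * - b0 b7 b8 v33 z50 z51; omega
              have kk856 : (k + l) ≤ (i2 + l2) := by clear * - b2 b7 b8 v33 z51; omega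
              have kk857 : (n) ≤ (k + l + l2 + 2) := by clear * - b0 b4 b6 v33 z53; omega
              have kk858 : (2 * k + l) ≤ (2 * i2 + l2) := by clear * - v33; omega
              have kk859 : (2 * k + 2 * l + 2) ≤ (n + i2) := by clear * - y21; omega
              clear * - al b c D2 kk852 kk853 kk854 kk855 kk856 kk857 kk858 kk859
              exact al.ubQ (2 * k + l + i3 - i - 2 * i2 - l2) (by omega) (by omega) fun t h1 h2 => (cE (sh al 1 t (t + (n)) (by omega)) (cE (qf b al 1 (t + (n)) (t + (k - i)) (by omega)) (pb (show Par W (i3 + 1) (n + i3 - i2 - l2 - 1) (2 * i2 + l2 - k - l - i3) from fun t h1 h2 => (cE (sh al (-1) t (t + (-n)) (by omega)) (cE (pb D2 al (-1) (t + (-n)) (t + (i2 + l2 - i3 + 1)) (by omega)) (pb c al 0 (t + (i2 + l2 - i3 + 1)) (t + (2 * i2 + l2 - k - l - i3)) (by omega))))) al 0 (t + (k - i)) (t + (2 * k + l + i3 - i - 2 * i2 - l2)) (by omega))))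
      · have kk860 : (3 * i2 + l2) ≤ (2 * k + 2 * l + i3) := by clear * - z50; omega
        have kk861 : (2 * k + 2 * l + i3 + 2) ≤ (n + 3 * i2 + l2) := by clear * - b0 b7 b8 y21 z50 z52; omega
        have kk862 : (2 * k + 2 * l + 3) ≤ (n + i2) := by clear * - y21; omega
        have kk863 : (i3) ≤ (i2) := by clear * - b0 b7 b8 y21 z50 z52; omega
        have kk864 : (i2) ≤ (k + l + 1) := by clear * - b0 b7 b8 y21 z50 z52; omega
        have kk865 : (n + k + l + i3) ≤ (3 * i2 + 2 * l2 + 1) := by clear * - b7 b8 z52; omega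
        clear * - al c D2 kk860 kk861 kk862 kk863 kk864 kk865
        exact al.ubP (2 * k + 2 * l + i3 - 3 * i2 - l2 + 1) (by omega) (by omega) fun t h1 h2 => (cE (sh al 2 t (t + (2 * n)) (by omega)) (cE (cE (cE (qf D2 al 1 (t + (2 * n)) (t + (n + i3 - i2 - l2 - 1)) (by omega)) (qf c al 0 (t + (n + i3 - i2 - l2 - 1)) (t + (n + k + l + i3 - 2 * i2 - l2)) (by omega))) (qf c al 0 (t + (n + k + l + i3 - 2 * i2 - l2)) (t + (n + 2 * k + 2 * l + i3 - 3 * i2 - l2 + 1)) (by omega))) (sh al (-1) (t + (n + 2 * k + 2 * l + i3 - 3 * i2 - l2 + 1)) (t + (2 * k + 2 * l + i3 - 3 * i2 - l2 + 1)) (by omega))))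

theorem t2c_16 {W : ℤ → G} {n Q i j k l i2 l2 i3 : ℤ} (al : AL W n Q)
    (hy : (0) ≤ (i) ∧ (i) ≤ (j) ∧ (j + 1) ≤ (Q) ∧ (Q) ≤ (k) ∧ (k + 1) ≤ (n) ∧ (Q) ≤ (i + l + 1) ∧ (k + l + 2) ≤ (n) ∧ (Q) ≤ (i2) ∧ (i2) ≤ (i + l + 1) ∧ (Q) ≤ (i2 + l2 + 1) ∧ (i2 + l2 + 2) ≤ (n) ∧ (n) ≤ (k + l + l2 + 2) ∧ (k + l + l2 + 3) ≤ (n + Q) ∧ (0) ≤ (i3) ∧ (n + i3) ≤ (k + l + l2 + 2) ∧ (k + i2 + l2 + 2) ≤ (n + j + i3) ∧ (j + i3 + 1) ≤ (k) ∧ (k + i2 + l2 + 2) ≤ (n + i3) ∧ (i + 2 * i2 + 1) ≤ (2 * Q + k) ∧ (i + l + 1) ≤ (i2 + l2) ∧ (k + l + 1) ≤ (i2 + l2) ∧ (2 * k + 2 * l + 3) ≤ (n + i2) ∧ (i + 1) ≤ (i3))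
    (a1 : Par W (0) (j) (k - j))
    (a2 : Par W (Q + j - k) (j) (k - j))
    (s1 : Ant W (0) (i) (i + j))
    (s2 : Ant W (j + 1) (Q) (i + j))
    (b : Par W (i + 1) (i + l + 1) (k - i))
    (tt : Ant W (Q) (i2) (i + l + i2 + 1))
    (c : Par W (i2 + 1) (i2 + l2 + 1) (k + l - i2 + 1))
    (u1 : Ant W (0) (i3) (k + l + l2 + i3 - n + 2))
    (u2 : Ant W (k + l + l2 - n + 3) (Q) (k + l + l2 + i3 - n + 2))
    (D1 : Par W (i3 + 1) (Q) (i2 + l2 - i3 + 1))
    (D2 : Par W (i2 + l2 + 2) (n) (i3 - i2 - l2 - 1))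
    {L : ℤ} (mx : ∀ a b g, 0 < g → g < n → Par W a b g → b - a ≤ L)
    (hL : L ≤ (n - j - 3) ∧ L ≤ (n + Q - k - 3) ∧ L ≤ (n - l - 3) ∧ L ≤ (n + i - k - 2) ∧ L ≤ (n - l2 - 3) ∧ L ≤ (n + i3 - Q - 2) ∧ L ≤ (i2 + l2 - 1) ∧ L ≤ (n + i2 - k - l - 3) ∧ L ≤ (Q + i2 + l2 - i - l - 3))
    (bd0 : Bd W n L (j) (i) (k))
    (bd2 : Bd W n L (k + l + l2 - n + 2) (i3) (i2 + l2 + 1))
    (n1 : Nd W (j) (i) (k))
    (n2 : Nd W (i + l + 1) (i2) (k + l + 1))
    (n3 : Nd W (k + l + l2 - n + 2) (i3) (i2 + l2 + 1))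
    (b0 : (2 * l2 + 3) ≤ (n))
    (b1 : (2 * Q + i2 + l2) ≤ (n + i + j + i3))
    (b2 : (2 * i + l + i2 + 2) ≤ (2 * Q + k))
    (b3 : (j + l + l2 + i3 + 3) ≤ (n))
    (b4 : (i + k + 2 * l + 3) ≤ (Q + i2 + l2))
    (b5 : (n + i + j) ≤ (k + l + l2 + 1))
    (b6 : (l + 2 * i3) ≤ (Q + i + i2))
    (b7 : (n + 2 * j) ≤ (k + l + l2 + i3 + 1)) : False := by
  have ev := al.ev
  obtain ⟨y0, y1, y2, y3, y4, y5, y6, y7, y8, y9, y10, y11, y12, y13, y14, y15, y16, y17, y18, y19, y20, y21, y22⟩ := id hy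
  have n1p := And.intro n1.p1 n1.p2
  have n2p := And.intro n2.p1 n2.p2
  have n3p := And.intro n3.p1 n3.p2
  by_cases z36 : (j + 1) ≤ (i3)
  · exact t2c_17 al hy a1 a2 s1 s2 b tt c u1 u2 D1 D2 mx hL bd0 bd2 n1 n2 n3 (by clear * - b0; omega) (by clear * - b1; omega) (by clear * - b2; omega) (by clear * - b3; omega) (by clear * - b4; omega) (by clear * - b5; omega) (by clear * - b6; omega) (by clear * - z36; omega)
  · exact t2c_20 al hy a1 a2 s1 s2 b tt c u1 u2 D1 D2 mx hL bd0 bd2 n1 n2 n3 (by clear * - b0; omega) (by clear * - b1; omega) (by clear * - b2; omega) (by clear * - b3; omega) (by clear * - b4; omega) (by clear * - b5; omega) (by clear * - b6; omega) (by clear * - b7; omega) (by clear * - z36; omega)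

end Pool.Agent.MP_a38735_al.WL
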