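import Pool.Agent.MP_a38735_al.WT

set_option autoImplicit false
set_option linter.unusedVariables false

namespace Pool.Agent.MP_a38735_al.WL

variable {G : Type*} [Group G]

theorem t2c_28 {W : ℤ → G} {n Q i j k l i2 l2 i3 : ℤ} (al : AL W n Q)
    (hy : (0) ≤ (i) ∧ (i) ≤ (j) ∧ (j + 1) ≤ (Q) ∧ (Q) ≤ (k) ∧ (k + 1) ≤ (n) ∧ (Q) ≤ (i + l + 1) ∧ (k + l + 2) ≤ (n) ∧ (Q) ≤ (i2) ∧ (i2) ≤ (i + l + 1) ∧ (Q) ≤ (i2 + l2 + 1) ∧ (i2 + l2 + 2) ≤ (n) ∧ (n) ≤ (k + l + l2 + 2) ∧ (k + l + l2 + 3) ≤ (n + Q) ∧ (0) ≤ (i3) ∧ (n + i3) ≤ (k + l + l2 + 2) ∧ (k + i2 + l2 + 2) ≤ (n + j + i3) ∧ (j + i3 + 1) ≤ (k) ∧ (k + i2 + l2 + 2) ≤ (n + i3) ∧ (i + 2 * i2 + 1) ≤ (2 * Q + k) ∧ (i + l + 1) ≤ (i2 + l2) ∧ (k + l + 1) ≤ (i2 + l2) ∧ (2 * k + 2 * l + 3) ≤ (n + i2) ∧ (i + 1) ≤ (i3))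
    (a1 : Par W (0) (j) (k - j))
    (a2 : Par W (Q + j - k) (j) (k - j))
    (s1 : Ant W (0) (i) (i + j))
    (s2 : Ant W (j + 1) (Q) (i + j))
    (b : Par W (i + 1) (i + l + 1) (k - i))
    (tt : Ant W (Q) (i2) (i + l + i2 + 1))
    (c : Par W (i2 + 1) (i2 + l2 + 1) (k + l - i2 + 1))
    (u1 : Ant W (0) (i3) (k + l + l2 + i3 - n + 2))
    (u2 : Ant W (k + l + l2 - n + 3) (Q) (k + l + l2 + i3 - n + 2))
    (D1 : Par W (i3 + 1) (Q) (i2 + l2 - i3 + 1))
    (D2 : Par W (i2 + l2 + 2) (n) (i3 - i2 - l2 - 1))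
    {L : ℤ} (mx : ∀ a b g, 0 < g → g < n → Par W a b g → b - a ≤ L)
    (hL : L ≤ (n - j - 3) ∧ L ≤ (n + Q - k - 3) ∧ L ≤ (n - l - 3) ∧ L ≤ (n + i - k - 2) ∧ L ≤ (n - l2 - 3) ∧ L ≤ (n + i3 - Q - 2) ∧ L ≤ (i2 + l2 - 1) ∧ L ≤ (n + i2 - k - l - 3) ∧ L ≤ (Q + i2 + l2 - i - l - 3))
    (bd0 : Bd W n L (j) (i) (k))
    (bd2 : Bd W n L (k + l + l2 - n + 2) (i3) (i2 + l2 + 1))
    (n1 : Nd W (j) (i) (k))
    (n2 : Nd W (i + l + 1) (i2) (k + l + 1))
    (n3 : Nd W (k + l + l2 - n + 2) (i3) (i2 + l2 + 1))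
    (b0 : (2 * l2 + 3) ≤ (n))
    (b1 : (2 * Q + i2 + l2) ≤ (n + i + j + i3))
    (b2 : (j + l + l2 + i3 + 3) ≤ (n))
    (b3 : (i + k + 2 * l + 3) ≤ (Q + i2 + l2))
    (b4 : (n + i + j) ≤ (k + l + l2 + 1))
    (b5 : (Q + i + i2 + 1) ≤ (l + 2 * i3))
    (b6 : (3 * i2 + 2 * l2 + 2) ≤ (n + k + l + i3))
    (b7 : (i + 2 * i2 + l2 + 1) ≤ (2 * k + l + i3)) : False := by
  have ev := al.ev
  obtain ⟨y0, y1, y2, y3, y4, y5, y6, y7, y8, y9, y10, y11, y12, y13, y14, y15, y16, y17, y18, y19, y20, y21, y22⟩ := id hy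
  have n1p := And.intro n1.p1 n1.p2
  have n2p := And.intro n2.p1 n2.p2
  have n3p := And.intro n3.p1 n3.p2
  by_cases z74 : (n + 2 * i + j + 3 * i2 + l2) ≤ (5 * k + 2 * l + i3 + 1)
  · by_cases z75 : (2 * j + 2 * k + l + i3 + 2) ≤ (2 * Q + i + 2 * i2 + l2)
    · by_cases z76 : (2 * Q + 2 * j + l + i3) ≤ (3 * i + 2 * i2 + l2)
      · by_cases z77 : (i + 2 * i2 + l2) ≤ (2 * Q + 3 * l + i3)
        · by_cases v46 : (i + k + 1) ≤ (2 * Q)
          · by_cases v47 : (2 * i2 + l2) ≤ (2 * k + l)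
            · by_cases v48 : (i + 2 * i2 + l2) ≤ (j + k + 2 * l + i3 + 1)
              · have kk1167 : (i + 2 * i2 + l2 + 1) ≤ (2 * k + l + i3) := by clear * - b7; omega
                have kk1168 : (2 * Q + 2 * j + l + i3) ≤ (3 * i + 2 * i2 + l2) := by clear * - z76; omega
                have kk1169 : (2 * j + l + i3 + 2) ≤ (i + 2 * i2 + l2) := by clear * - b0 b3 v46 v48 y14 z76; omega
                have kk1170 : (2 * j + 2 * i2 + l2) ≤ (i + 2 * k + 3 * l + i3) := by clear * - b7 v46 v48 z76; omega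
                have kk1171 : (k + l) ≤ (i2 + l2) := by clear * - y20; omega
                have kk1172 : (n) ≤ (k + l + l2 + 2) := by clear * - y13 y14; omega
                have kk1173 : (i) ≤ (j) := by clear * - y1; omega
                have kk1174 : (i + k + 1) ≤ (2 * Q) := by clear * - v46; omega
                have kk1175 : (2 * i2 + l2) ≤ (2 * k + l) := by clear * - v47; omega
                have kk1176 : (2 * k + 2 * l + 2) ≤ (n + i2) := by clear * - y21; omega
                have kk1177 : (i + 2 * i2 + l2) ≤ (j + k + 2 * l + i3 + 1) := by clear * - v48; omega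
                have r1178 : (2 * n + i + k) % 2 = 0 := by clear * - ev n1p n2p n3p; omega
                have r1179 : (2 * k + l + i3 - i - 2 * i2 - l2) % 2 = 0 := by clear * - ev n1p n2p n3p; omega
                clear * - al a2 s2 b c D2 kk1167 kk1168 kk1169 kk1170 kk1171 kk1172 kk1173 kk1174 kk1175 kk1176 kk1177 r1178 r1179
                exact midP al (2 * k + l + i3 - i - 2 * i2 - l2) (2 * n + i + k) (n + j + 1) (n + i + 1) (n + 2 * k + 2 * l + i3 - 2 * i2 - l2 + 1) (by omega) (fun t h1 h2 => (cE (cE (qa s2 al 1 t ((n + i + j) - t) (by omega)) (qf a2 al 0 ((n + i + j) - t) ((n + i + k) - t) (by omega))) (sh al 1 ((n + i + k) - t) ((2 * n + i + k) - t) (by omega)))) (fun t h1 h2 => (cE (cE (qf b al 1 t (t + (k - n - i)) (by omega)) (pb (show Par W (i3 + 1) (n + i3 - i2 - l2 - 1) (2 * i2 + l2 - k - l - i3) from fun t h1 h2 => (cE (sh al (-1) t (t + (-n)) (by omega)) (cE (pb D2 al (-1) (t + (-n)) (t + (i2 + l2 - i3 + 1)) (by omega)) (pb c al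 0 (t + (i2 + l2 - i3 + 1)) (t + (2 * i2 + l2 - k - l - i3)) (by omega))))) al 0 (t + (k - n - i)) (t + (2 * k + l + i3 - n - i - 2 * i2 - l2)) (by omega))) (sh al 1 (t + (2 * k + l + i3 - n - i - 2 * i2 - l2)) (t + (2 * k + l + i3 - i - 2 * i2 - l2)) (by omega))))
              · have kk1180 : (i + 2 * i2 + l2 + 1) ≤ (2 * k + l + i3) := by clear * - b7; omega
                have kk1181 : (2 * Q + 2 * i2 + l2) ≤ (i + 2 * k + 3 * l + i3 + 2) := by clear * - b0 b1 b5 v46 v47 v48 y13 y14 y8; linarith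
                have kk1182 : (i + 2 * i2 + l2) ≤ (2 * k + 3 * l + i3) := by clear * - b0 b1 v46 v47 v48 y14 y22 z77; linarith
                have kk1183 : (i + 6 * i2 + 3 * l2) ≤ (4 * k + 7 * l + 3 * i3 + 2) := by clear * - b0 b1 b5 v46 v47 v48 y13 y14 z77; linarith
                have kk1184 : (k + l) ≤ (i2 + l2) := by clear * - y20; omega
                have kk1185 : (n) ≤ (k + l + l2 + 2) := by clear * - y13 y14; omega
                have kk1186 : (i) ≤ (j) := by clear * - y1; omega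
                have kk1187 : (i + k + 1) ≤ (2 * Q) := by clear * - v46; omega
                have kk1188 : (2 * i2 + l2) ≤ (2 * k + l) := by clear * - v47; omega
                have kk1189 : (2 * k + 2 * l + 2) ≤ (n + i2) := by clear * - y21; omega
                have kk1190 : (j + k + 2 * l + i3 + 1) ≤ (i + 2 * i2 + l2) := by clear * - v48; omega
                have kk1191 : (k + 2 * l + i3 + 1) ≤ (2 * i2 + l2) := by clear * - v48 y1; omega
                have r1192 : (2 * n + i + k) % 2 = 0 := by clear * - ev n1p n2p n3p; omega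
                have r1193 : (2 * k + l + i3 - i - 2 * i2 - l2) % 2 = 0 := by clear * - ev n1p n2p n3p; omega
                clear * - al a2 s2 b c D2 kk1180 kk1181 kk1182 kk1183 kk1184 kk1185 kk1186 kk1187 kk1188 kk1189 kk1190 kk1191 r1192 r1193
                exact midP al (2 * k + l + i3 - i - 2 * i2 - l2) (2 * n + i + k) (n + i + 2 * i2 + l2 - k - 2 * l - i3) (n + i + 1) (n + 2 * k + 2 * l + i3 - 2 * i2 - l2 + 1) (by omega) (fun t h1 h2 => (cE (cE (qa s2 al 1 t ((n + i + j) - t) (by omega)) (qf a2 al 0 ((n + i + j) - t) ((n + i + k) - t) (by omega))) (sh al 1 ((n + i + k) - t) ((2 * n + i + k) - t) (by omega)))) (fun t h1 h2 => (cE (cE (qf b al 1 t (t + (k - n - i)) (by omega)) (pb (show Par W (i3 + 1) (n + i3 - i2 - l2 - 1) (2 * i2 + l2 - k - l - i3) from fun t h1 h2 => (cE (sh al (-1) t (t + (-n)) (by omega)) (cE (pb D2 al (-1) (t + (-n)) (t + (i2 + l2 - i3 + 1)) (by omega)) (pb c al 0 (t + (i2 + l2 - i3 + 1)) (t + (2 * i2 + l2 - k - l -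 i3)) (by omega))))) al 0 (t + (k - n - i)) (t + (2 * k + l + i3 - n - i - 2 * i2 - l2)) (by omega))) (sh al 1 (t + (2 * k + l + i3 - n - i - 2 * i2 - l2)) (t + (2 * k + l + i3 - i - 2 * i2 - l2)) (by omega))))
            · by_cases v49 : (i + 2 * i2 + l2) ≤ (j + 2 * k + l)
              · by_cases v50 : (i + 2 * i2 + l2) ≤ (j + k + 2 * l + i3 + 1)
                · have kk1194 : (i + 2 * i2 + l2 + 1) ≤ (2 * k + l + i3) := by clear * - b7; omega
                  have kk1195 : (2 * Q + 2 * j + l + i3) ≤ (3 * i + 2 * i2 + l2) := by clear * - z76; omega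
                  have kk1196 : (2 * j + 2 * i2 + l2 + i3 + 2) ≤ (i + 4 * k + l) := by clear * - b7 v46 v49 z76; omega
                  have kk1197 : (2 * j + 2 * i2 + l2) ≤ (i + 2 * k + 3 * l + i3) := by clear * - b7 v46 v50 z76; omega
                  have kk1198 : (k + l) ≤ (i2 + l2) := by clear * - y20; omega
                  have kk1199 : (n) ≤ (k + l + l2 + 2) := by clear * - y13 y14; omega
                  have kk1200 : (i) ≤ (j) := by clear * - v47 v49; omega
                  have kk1201 : (i + k + 1) ≤ (2 * Q) := by clear * - v46; omega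
                  have kk1202 : (2 * k + l) ≤ (2 * i2 + l2) := by clear * - v47; omega
                  have kk1203 : (2 * k + 2 * l + 2) ≤ (n + i2) := by clear * - y21; omega
                  have kk1204 : (i + 2 * i2 + l2) ≤ (j + 2 * k + l) := by clear * - v49; omega
                  have kk1205 : (i + 2 * i2 + l2) ≤ (j + k + 2 * l + i3 + 1) := by clear * - v50; omega
                  have r1206 : (2 * n + i + k) % 2 = 0 := by clear * - ev n1p n2p n3p; omega
                  have r1207 : (2 * k + l + i3 - i - 2 * i2 - l2) % 2 = 0 := by clear * - ev n1p n2p n3p; omega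
                  clear * - al a2 s2 b c D2 kk1194 kk1195 kk1196 kk1197 kk1198 kk1199 kk1200 kk1201 kk1202 kk1203 kk1204 kk1205 r1206 r1207
                  exact midP al (2 * k + l + i3 - i - 2 * i2 - l2) (2 * n + i + k) (n + j + 1) (n + i + 2 * i2 + l2 - 2 * k - l + 1) (n + 2 * k + 2 * l + i3 - 2 * i2 - l2 + 1) (by omega) (fun t h1 h2 => (cE (cE (qa s2 al 1 t ((n + i + j) - t) (by omega)) (qf a2 al 0 ((n + i + j) - t) ((n + i + k) - t) (by omega))) (sh al 1 ((n + i + k) - t) ((2 * n + i + k) - t) (by omega)))) (fun t h1 h2 => (cE (cE (qf b al 1 t (t + (k - n - i)) (by omega)) (pb (show Par W (i3 + 1) (n + i3 - i2 - l2 - 1) (2 * i2 + l2 - k - l - i3) from fun t h1 h2 => (cE (sh al (-1) t (t + (-n)) (by omega)) (cE (pb D2 al (-1) (t + (-n)) (t + (i2 + l2 - i3 + 1)) (by omega)) (pb c al 0 (t + (i2 + l2 - i3 + 1)) (t + (2 * i2 + l2 - k - l - i3)) (by omega))))) al 0 (t + (k - n - i)) (t + (2 * k + l + i3 - n - i - 2 * i2 - l2)) (by omega))) (sh al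 1 (t + (2 * k + l + i3 - n - i - 2 * i2 - l2)) (t + (2 * k + l + i3 - i - 2 * i2 - l2)) (by omega))))
                · have kk1208 : (i + 2 * i2 + l2 + 1) ≤ (2 * k + l + i3) := by clear * - b7; omega
                  have kk1209 : (2 * Q + 2 * i2 + l2) ≤ (i + 2 * k + 3 * l + i3 + 2) := by clear * - b0 b1 v47 y14 y8 z74; omega
                  have kk1210 : (i + 6 * i2 + 3 * l2) ≤ (6 * k + 5 * l + i3) := by clear * - b7 v49 z76 z77; omega
                  have kk1211 : (i + 6 * i2 + 3 * l2) ≤ (4 * k + 7 * l + 3 * i3 + 2) := by clear * - b0 b6 v47 v49 y13 y14 z74; linarith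
                  have kk1212 : (k + l) ≤ (i2 + l2) := by clear * - y20; omega
                  have kk1213 : (n) ≤ (k + l + l2 + 2) := by clear * - y13 y14; omega
                  have kk1214 : (i) ≤ (j) := by clear * - v47 v49; omega
                  have kk1215 : (i + k + 1) ≤ (2 * Q) := by clear * - v46; omega
                  have kk1216 : (2 * k + l) ≤ (2 * i2 + l2) := by clear * - v47; omega
                  have kk1217 : (2 * k + 2 * l + 2) ≤ (n + i2) := by clear * - b6 v47 v49 v50; omega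
                  have kk1218 : (j + k + 2 * l + i3 + 1) ≤ (i + 2 * i2 + l2) := by clear * - v50; omega
                  have kk1219 : (l + i3 + 1) ≤ (k) := by clear * - v49 v50; omega
                  have r1220 : (2 * n + i + k) % 2 = 0 := by clear * - ev n1p n2p n3p; omega
                  have r1221 : (2 * k + l + i3 - i - 2 * i2 - l2) % 2 = 0 := by clear * - ev n1p n2p n3p; omega
                  clear * - al a2 s2 b c D2 kk1208 kk1209 kk1210 kk1211 kk1212 kk1213 kk1214 kk1215 kk1216 kk1217 kk1218 kk1219 r1220 r1221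
                  exact midP al (2 * k + l + i3 - i - 2 * i2 - l2) (2 * n + i + k) (n + i + 2 * i2 + l2 - k - 2 * l - i3) (n + i + 2 * i2 + l2 - 2 * k - l + 1) (n + 2 * k + 2 * l + i3 - 2 * i2 - l2 + 1) (by omega) (fun t h1 h2 => (cE (cE (qa s2 al 1 t ((n + i + j) - t) (by omega)) (qf a2 al 0 ((n + i + j) - t) ((n + i + k) - t) (by omega))) (sh al 1 ((n + i + k) - t) ((2 * n + i + k) - t) (by omega)))) (fun t h1 h2 => (cE (cE (qf b al 1 t (t + (k - n - i)) (by omega)) (pb (show Par W (i3 + 1) (n + i3 - i2 - l2 - 1) (2 * i2 + l2 - k - l - i3) from fun t h1 h2 => (cE (sh al (-1) t (t + (-n)) (by omega)) (cE (pb D2 al (-1) (t + (-n)) (t + (i2 + l2 - i3 + 1)) (by omega)) (pb c al 0 (t + (i2 + l2 - i3 + 1)) (t + (2 * i2 + l2 - k - l - i3)) (by omega))))) al 0 (t + (k - n - i)) (t + (2 * k + l + i3 - n - i - 2 * i2 - l2)) (by omega))) (sh al 1 (t + (2 * k + l + i3 - n - i - 2 * i2 - l2)) (t + (2 * k + l + i3 - i - 2 * i2 - l2)) (by omega))))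
              · by_cases v51 : (k) ≤ (l + i3 + 1)
                · have kk1222 : (i + 2 * i2 + l2 + 1) ≤ (2 * k + l + i3) := by clear * - b7; omega
                  have kk1223 : (2 * Q + 2 * i2 + l2 + i3) ≤ (i + 4 * k + l) := by clear * - b0 b1 y0 y14 y21 z74; omega
                  have kk1224 : (i + 6 * i2 + 3 * l2 + i3 + 2) ≤ (8 * k + 3 * l) := by clear * - b0 b1 b3 b6 v49 v51 y0 y14 z74; linarith
                  have kk1225 : (i + 6 * i2 + 3 * l2) ≤ (6 * k + 5 * l + i3) := by clear * - b0 b1 v46 y14 z74 z76; omega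
                  have kk1226 : (k + l) ≤ (i2 + l2) := by clear * - y20; omega
                  have kk1227 : (n) ≤ (k + l + l2 + 2) := by clear * - y13 y14; omega
                  have kk1228 : (i) ≤ (j) := by clear * - y1; omega
                  have kk1229 : (i + k + 1) ≤ (2 * Q) := by clear * - v46; omega
                  have kk1230 : (2 * k + l) ≤ (2 * i2 + l2) := by clear * - v47; omega
                  have kk1231 : (2 * k + 2 * l + 2) ≤ (n + i2) := by clear * - y21; omega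
                  have kk1232 : (j + 2 * k + l) ≤ (i + 2 * i2 + l2) := by clear * - v49; omega
                  have kk1233 : (k) ≤ (l + i3 + 1) := by clear * - v51; omega
                  have r1234 : (2 * n + i + k) % 2 = 0 := by clear * - ev n1p n2p n3p; omega
                  have r1235 : (2 * k + l + i3 - i - 2 * i2 - l2) % 2 = 0 := by clear * - ev n1p n2p n3p; omega
                  clear * - al a2 s2 b c D2 kk1222 kk1223 kk1224 kk1225 kk1226 kk1227 kk1228 kk1229 kk1230 kk1231 kk1232 kk1233 r1234 r1235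
                  exact midP al (2 * k + l + i3 - i - 2 * i2 - l2) (2 * n + i + k) (n + i + 2 * i2 + l2 - 2 * k - l + 1) (n + i + 2 * i2 + l2 - 2 * k - l + 1) (n + 2 * k + 2 * l + i3 - 2 * i2 - l2 + 1) (by omega) (fun t h1 h2 => (cE (cE (qa s2 al 1 t ((n + i + j) - t) (by omega)) (qf a2 al 0 ((n + i + j) - t) ((n + i + k) - t) (by omega))) (sh al 1 ((n + i + k) - t) ((2 * n + i + k) - t) (by omega)))) (fun t h1 h2 => (cE (cE (qf b al 1 t (t + (k - n - i)) (by omega)) (pb (show Par W (i3 + 1) (n + i3 - i2 - l2 - 1) (2 * i2 + l2 - k - l - i3) from fun t h1 h2 => (cE (sh al (-1) t (t + (-n)) (by omega)) (cE (pb D2 al (-1) (t + (-n)) (t + (i2 + l2 - i3 + 1)) (by omega)) (pb c al 0 (t + (i2 + l2 - i3 + 1)) (t + (2 * i2 + l2 - k - l - i3)) (by omega))))) al 0 (t + (k - n - i)) (t + (2 * k + l + i3 - n - i - 2 * i2 - l2)) (by omega))) (sh al 1 (t + (2 * k + l + i3 - n - i - 2 * i2 - l2)) (t + (2 * k + l + i3 - i - 2 * i2 - l2)) (by omega))))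
                · have kk1236 : (i + 2 * i2 + l2 + 1) ≤ (2 * k + l + i3) := by clear * - b7; omega
                  have kk1237 : (2 * Q + 2 * i2 + l2) ≤ (i + 2 * k + 3 * l + i3 + 2) := by clear * - b0 b1 v46 v49 y14 z74; omega
                  have kk1238 : (i + 6 * i2 + 3 * l2) ≤ (6 * k + 5 * l + i3) := by clear * - b0 b1 v46 v49 v51 y14 z74; linarith
                  have kk1239 : (i + 6 * i2 + 3 * l2) ≤ (4 * k + 7 * l + 3 * i3 + 2) := by clear * - b0 b1 v46 v49 y14 z74; omega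
                  have kk1240 : (k + l) ≤ (i2 + l2) := by clear * - y20; omega
                  have kk1241 : (n) ≤ (k + l + l2 + 2) := by clear * - y13 y14; omega
                  have kk1242 : (i) ≤ (j) := by clear * - y1; omega
                  have kk1243 : (i + k + 1) ≤ (2 * Q) := by clear * - v46; omega
                  have kk1244 : (2 * k + l) ≤ (2 * i2 + l2) := by clear * - v47; omega
                  have kk1245 : (2 * k + 2 * l + 2) ≤ (n + i2) := by clear * - b6 v47 v51; omega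
                  have kk1246 : (j + 2 * k + l) ≤ (i + 2 * i2 + l2) := by clear * - v49; omega
                  have kk1247 : (l + i3 + 1) ≤ (k) := by clear * - v51; omega
                  have r1248 : (2 * n + i + k) % 2 = 0 := by clear * - ev n1p n2p n3p; omega
                  have r1249 : (2 * k + l + i3 - i - 2 * i2 - l2) % 2 = 0 := by clear * - ev n1p n2p n3p; omega
                  clear * - al a2 s2 b c D2 kk1236 kk1237 kk1238 kk1239 kk1240 kk1241 kk1242 kk1243 kk1244 kk1245 kk1246 kk1247 r1248 r1249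
                  exact midP al (2 * k + l + i3 - i - 2 * i2 - l2) (2 * n + i + k) (n + i + 2 * i2 + l2 - k - 2 * l - i3) (n + i + 2 * i2 + l2 - 2 * k - l + 1) (n + 2 * k + 2 * l + i3 - 2 * i2 - l2 + 1) (by omega) (fun t h1 h2 => (cE (cE (qa s2 al 1 t ((n + i + j) - t) (by omega)) (qf a2 al 0 ((n + i + j) - t) ((n + i + k) - t) (by omega))) (sh al 1 ((n + i + k) - t) ((2 * n + i + k) - t) (by omega)))) (fun t h1 h2 => (cE (cE (qf b al 1 t (t + (k - n - i)) (by omega)) (pb (show Par W (i3 + 1) (n + i3 - i2 - l2 - 1) (2 * i2 + l2 - k - l - i3) from fun t h1 h2 => (cE (sh al (-1) t (t + (-n)) (by omega)) (cE (pb D2 al (-1) (t + (-n)) (t + (i2 + l2 - i3 + 1)) (by omega)) (pb c al 0 (t + (i2 + l2 - i3 + 1)) (t + (2 * i2 + l2 - k - l - i3)) (by omega))))) al 0 (t + (k - n - i)) (t + (2 * k + l + i3 - n - i - 2 * i2 - l2)) (by omega))) (sh al 1 (t + (2 * k + l + i3 - n - i - 2 * i2 - l2)) (t + (2 * k + l + i3 - i - 2 * i2 - l2)) (by omega))))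
          · by_cases v52 : (2 * i2 + l2) ≤ (2 * k + l)
            · by_cases v53 : (i + 2 * i2 + l2) ≤ (j + k + 2 * l + i3 + 1)
              · have kk1250 : (i + 2 * i2 + l2 + 1) ≤ (2 * k + l + i3) := by clear * - b7; omega
                have kk1251 : (2 * j + 2 * k + l + i3 + 2) ≤ (2 * Q + i + 2 * i2 + l2) := by clear * - z75; omega
                have kk1252 : (2 * j + l + i3 + 2) ≤ (i + 2 * i2 + l2) := by clear * - b0 b3 v53 y14 z76 z77; omega
                have kk1253 : (2 * j + 2 * i2 + l2) ≤ (i + 2 * k + 3 * l + i3) := by clear * - b7 z76 z77; omega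
                have kk1254 : (k + l) ≤ (i2 + l2) := by clear * - y20; omega
                have kk1255 : (n) ≤ (k + l + l2 + 2) := by clear * - y13 y14; omega
                have kk1256 : (i) ≤ (j) := by clear * - y1; omega
                have kk1257 : (2 * Q) ≤ (i + k + 1) := by clear * - v46; omega
                have kk1258 : (2 * i2 + l2) ≤ (2 * k + l) := by clear * - v52; omega
                have kk1259 : (2 * k + 2 * l + 2) ≤ (n + i2) := by clear * - y21; omega
                have kk1260 : (i + 2 * i2 + l2) ≤ (j + k + 2 * l + i3 + 1) := by clear * - v53; omega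
                have r1261 : (2 * n + i + k) % 2 = 0 := by clear * - ev n1p n2p n3p; omega
                have r1262 : (2 * k + l + i3 - i - 2 * i2 - l2) % 2 = 0 := by clear * - ev n1p n2p n3p; omega
                clear * - al a2 s2 b c D2 kk1250 kk1251 kk1252 kk1253 kk1254 kk1255 kk1256 kk1257 kk1258 kk1259 kk1260 r1261 r1262
                exact midP al (2 * k + l + i3 - i - 2 * i2 - l2) (2 * n + i + k) (n + j + 1) (n + i + 1) (n + 2 * k + 2 * l + i3 - 2 * i2 - l2 + 1) (by omega) (fun t h1 h2 => (cE (cE (qa s2 al 1 t ((n + i + j) - t) (by omega)) (qf a2 al 0 ((n + i + j) - t) ((n + i + k) - t) (by omega))) (sh al 1 ((n + i + k) - t) ((2 * n + i + k) - t) (by omega)))) (fun t h1 h2 => (cE (cE (qf b al 1 t (t + (k - n - i)) (by omega)) (pb (show Par W (i3 + 1) (n + i3 - i2 - l2 - 1) (2 * i2 + l2 - k - l - i3) from fun t h1 h2 => (cE (sh al (-1) t (t + (-n)) (by omega)) (cE (pb D2 al (-1) (t + (-n)) (t + (i2 + l2 - i3 + 1)) (by omega)) (pb c al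 0 (t + (i2 + l2 - i3 + 1)) (t + (2 * i2 + l2 - k - l - i3)) (by omega))))) al 0 (t + (k - n - i)) (t + (2 * k + l + i3 - n - i - 2 * i2 - l2)) (by omega))) (sh al 1 (t + (2 * k + l + i3 - n - i - 2 * i2 - l2)) (t + (2 * k + l + i3 - i - 2 * i2 - l2)) (by omega))))
              · have kk1263 : (i + 2 * i2 + l2 + 1) ≤ (2 * k + l + i3) := by clear * - b7; omega
                have kk1264 : (i + 2 * i2 + l2) ≤ (2 * Q + 3 * l + i3) := by clear * - z77; omega
                have kk1265 : (i + 2 * i2 + l2) ≤ (2 * k + 3 * l + i3) := by clear * - b0 b3 v46 y14 z77; omega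
                have kk1266 : (i + 6 * i2 + 3 * l2) ≤ (4 * k + 7 * l + 3 * i3 + 2) := by clear * - b7 v46 z77; omega
                have kk1267 : (k + l) ≤ (i2 + l2) := by clear * - y20; omega
                have kk1268 : (n) ≤ (k + l + l2 + 2) := by clear * - y13 y14; omega
                have kk1269 : (i) ≤ (j) := by clear * - y1; omega
                have kk1270 : (2 * Q) ≤ (i + k + 1) := by clear * - v46; omega
                have kk1271 : (2 * i2 + l2) ≤ (2 * k + l) := by clear * - v52; omega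
                have kk1272 : (2 * k + 2 * l + 2) ≤ (n + i2) := by clear * - y21; omega
                have kk1273 : (j + k + 2 * l + i3 + 1) ≤ (i + 2 * i2 + l2) := by clear * - v53; omega
                have kk1274 : (k + 2 * l + i3 + 1) ≤ (2 * i2 + l2) := by clear * - v53 y1; omega
                have r1275 : (2 * n + i + k) % 2 = 0 := by clear * - ev n1p n2p n3p; omega
                have r1276 : (2 * k + l + i3 - i - 2 * i2 - l2) % 2 = 0 := by clear * - ev n1p n2p n3p; omega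
                clear * - al a2 s2 b c D2 kk1263 kk1264 kk1265 kk1266 kk1267 kk1268 kk1269 kk1270 kk1271 kk1272 kk1273 kk1274 r1275 r1276
                exact midP al (2 * k + l + i3 - i - 2 * i2 - l2) (2 * n + i + k) (n + i + 2 * i2 + l2 - k - 2 * l - i3) (n + i + 1) (n + 2 * k + 2 * l + i3 - 2 * i2 - l2 + 1) (by omega) (fun t h1 h2 => (cE (cE (qa s2 al 1 t ((n + i + j) - t) (by omega)) (qf a2 al 0 ((n + i + j) - t) ((n + i + k) - t) (by omega))) (sh al 1 ((n + i + k) - t) ((2 * n + i + k) - t) (by omega)))) (fun t h1 h2 => (cE (cE (qf b al 1 t (t + (k - n - i)) (by omega)) (pb (show Par W (i3 + 1) (n + i3 - i2 - l2 - 1) (2 * i2 + l2 - k - l - i3) from fun t h1 h2 => (cE (sh al (-1) t (t + (-n)) (by omega)) (cE (pb D2 al (-1) (t + (-n)) (t + (i2 + l2 - i3 + 1)) (by omega)) (pb c al 0 (t + (i2 + l2 - i3 + 1)) (t + (2 * i2 + l2 - k - l - i3)) (by omega))))) al 0 (t + (k - n - i)) (t + (2 * k + l + i3 - n - i - 2 * i2 - l2)) (by omega))) (sh al 1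 (t + (2 * k + l + i3 - n - i - 2 * i2 - l2)) (t + (2 * k + l + i3 - i - 2 * i2 - l2)) (by omega))))
            · by_cases v54 : (i + 2 * i2 + l2) ≤ (j + 2 * k + l)
              · by_cases v55 : (i + 2 * i2 + l2) ≤ (j + k + 2 * l + i3 + 1)
                · have kk1277 : (i + 2 * i2 + l2 + 1) ≤ (2 * k + l + i3) := by clear * - b7; omega
                  have kk1278 : (2 * j + 2 * k + l + i3 + 2) ≤ (2 * Q + i + 2 * i2 + l2) := by clear * - z75; omega
                  have kk1279 : (2 * j + 2 * i2 + l2 + i3 + 2) ≤ (i + 4 * k + l) := by clear * - b7 v46 v54 z75; omega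
                  have kk1280 : (2 * j + 2 * i2 + l2) ≤ (i + 2 * k + 3 * l + i3) := by clear * - b7 z76 z77; omega
                  have kk1281 : (k + l) ≤ (i2 + l2) := by clear * - y20; omega
                  have kk1282 : (n) ≤ (k + l + l2 + 2) := by clear * - y13 y14; omega
                  have kk1283 : (i) ≤ (j) := by clear * - v52 v54; omega
                  have kk1284 : (2 * Q) ≤ (i + k + 1) := by clear * - v46; omega
                  have kk1285 : (2 * k + l) ≤ (2 * i2 + l2) := by clear * - v52; omega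
                  have kk1286 : (2 * k + 2 * l + 2) ≤ (n + i2) := by clear * - y21; omega
                  have kk1287 : (i + 2 * i2 + l2) ≤ (j + 2 * k + l) := by clear * - v54; omega
                  have kk1288 : (i + 2 * i2 + l2) ≤ (j + k + 2 * l + i3 + 1) := by clear * - v55; omega
                  have r1289 : (2 * n + i + k) % 2 = 0 := by clear * - ev n1p n2p n3p; omega
                  have r1290 : (2 * k + l + i3 - i - 2 * i2 - l2) % 2 = 0 := by clear * - ev n1p n2p n3p; omega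
                  clear * - al a2 s2 b c D2 kk1277 kk1278 kk1279 kk1280 kk1281 kk1282 kk1283 kk1284 kk1285 kk1286 kk1287 kk1288 r1289 r1290
                  exact midP al (2 * k + l + i3 - i - 2 * i2 - l2) (2 * n + i + k) (n + j + 1) (n + i + 2 * i2 + l2 - 2 * k - l + 1) (n + 2 * k + 2 * l + i3 - 2 * i2 - l2 + 1) (by omega) (fun t h1 h2 => (cE (cE (qa s2 al 1 t ((n + i + j) - t) (by omega)) (qf a2 al 0 ((n + i + j) - t) ((n + i + k) - t) (by omega))) (sh al 1 ((n + i + k) - t) ((2 * n + i + k) - t) (by omega)))) (fun t h1 h2 => (cE (cE (qf b al 1 t (t + (k - n - i)) (by omega)) (pb (show Par W (i3 + 1) (n + i3 - i2 - l2 - 1) (2 * i2 + l2 - k - l - i3) from fun t h1 h2 => (cE (sh al (-1) t (t + (-n)) (by omega)) (cE (pb D2 al (-1) (t + (-n)) (t + (i2 + l2 - i3 + 1)) (by omega)) (pb c al 0 (t + (i2 + l2 - i3 + 1)) (t + (2 * i2 + l2 - k - l - i3)) (by omega))))) al 0 (t + (k - n - i)) (t + (2 * k + l + i3 - n - i - 2 * i2 - l2)) (by omega))) (sh al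 1 (t + (2 * k + l + i3 - n - i - 2 * i2 - l2)) (t + (2 * k + l + i3 - i - 2 * i2 - l2)) (by omega))))
                · have kk1291 : (i + 2 * i2 + l2 + 1) ≤ (2 * k + l + i3) := by clear * - b7; omega
                  have kk1292 : (i + 2 * i2 + l2) ≤ (2 * Q + 3 * l + i3) := by clear * - z77; omega
                  have kk1293 : (i + 6 * i2 + 3 * l2) ≤ (6 * k + 5 * l + i3) := by clear * - b7 v46 v54 v55 z77; omega
                  have kk1294 : (i + 6 * i2 + 3 * l2) ≤ (4 * k + 7 * l + 3 * i3 + 2) := by clear * - b7 v46 z77; omega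
                  have kk1295 : (k + l) ≤ (i2 + l2) := by clear * - y20; omega
                  have kk1296 : (n) ≤ (k + l + l2 + 2) := by clear * - y13 y14; omega
                  have kk1297 : (i) ≤ (j) := by clear * - v52 v54; omega
                  have kk1298 : (2 * Q) ≤ (i + k + 1) := by clear * - v46; omega
                  have kk1299 : (2 * k + l) ≤ (2 * i2 + l2) := by clear * - v52; omega
                  have kk1300 : (2 * k + 2 * l + 2) ≤ (n + i2) := by clear * - b6 v52 v54 v55; omega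
                  have kk1301 : (j + k + 2 * l + i3 + 1) ≤ (i + 2 * i2 + l2) := by clear * - v55; omega
                  have kk1302 : (l + i3 + 1) ≤ (k) := by clear * - v54 v55; omega
                  have r1303 : (2 * n + i + k) % 2 = 0 := by clear * - ev n1p n2p n3p; omega
                  have r1304 : (2 * k + l + i3 - i - 2 * i2 - l2) % 2 = 0 := by clear * - ev n1p n2p n3p; omega
                  clear * - al a2 s2 b c D2 kk1291 kk1292 kk1293 kk1294 kk1295 kk1296 kk1297 kk1298 kk1299 kk1300 kk1301 kk1302 r1303 r1304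
                  exact midP al (2 * k + l + i3 - i - 2 * i2 - l2) (2 * n + i + k) (n + i + 2 * i2 + l2 - k - 2 * l - i3) (n + i + 2 * i2 + l2 - 2 * k - l + 1) (n + 2 * k + 2 * l + i3 - 2 * i2 - l2 + 1) (by omega) (fun t h1 h2 => (cE (cE (qa s2 al 1 t ((n + i + j) - t) (by omega)) (qf a2 al 0 ((n + i + j) - t) ((n + i + k) - t) (by omega))) (sh al 1 ((n + i + k) - t) ((2 * n + i + k) - t) (by omega)))) (fun t h1 h2 => (cE (cE (qf b al 1 t (t + (k - n - i)) (by omega)) (pb (show Par W (i3 + 1) (n + i3 - i2 - l2 - 1) (2 * i2 + l2 - k - l - i3) from fun t h1 h2 => (cE (sh al (-1) t (t + (-n)) (by omega)) (cE (pb D2 al (-1) (t + (-n)) (t + (i2 + l2 - i3 + 1)) (by omega)) (pb c al 0 (t + (i2 + l2 - i3 + 1)) (t + (2 * i2 + l2 - k - l - i3)) (by omega))))) al 0 (t + (k - n - i)) (t + (2 * k + l + i3 - n - i - 2 * i2 - l2)) (by omega))) (sh al 1 (t + (2 * k + l + i3 - n - i - 2 * i2 - l2)) (t + (2 * k + l + i3 - i - 2 * i2 - l2)) (by omega))))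
              · by_cases v56 : (k) ≤ (l + i3 + 1)
                · have kk1305 : (i + 2 * i2 + l2 + 1) ≤ (2 * k + l + i3) := by clear * - b7; omega
                  have kk1306 : (i + 2 * i2 + l2 + i3 + 2) ≤ (2 * Q + 2 * k + l) := by clear * - b0 y14 y18; omega
                  have kk1307 : (i + 6 * i2 + 3 * l2 + i3 + 2) ≤ (8 * k + 3 * l) := by clear * - b0 b7 v46 y14 y18; omega
                  have kk1308 : (i + 6 * i2 + 3 * l2) ≤ (6 * k + 5 * l + i3) := by clear * - b0 b7 v46 v56 y14 y18; omega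
                  have kk1309 : (k + l) ≤ (i2 + l2) := by clear * - y20; omega
                  have kk1310 : (n) ≤ (k + l + l2 + 2) := by clear * - y13 y14; omega
                  have kk1311 : (i) ≤ (j) := by clear * - y1; omega
                  have kk1312 : (2 * Q) ≤ (i + k + 1) := by clear * - v46; omega
                  have kk1313 : (2 * k + l) ≤ (2 * i2 + l2) := by clear * - v52; omega
                  have kk1314 : (2 * k + 2 * l + 2) ≤ (n + i2) := by clear * - y21; omega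
                  have kk1315 : (j + 2 * k + l) ≤ (i + 2 * i2 + l2) := by clear * - v54; omega
                  have kk1316 : (k) ≤ (l + i3 + 1) := by clear * - v56; omega
                  have r1317 : (2 * n + i + k) % 2 = 0 := by clear * - ev n1p n2p n3p; omega
                  have r1318 : (2 * k + l + i3 - i - 2 * i2 - l2) % 2 = 0 := by clear * - ev n1p n2p n3p; omega
                  clear * - al a2 s2 b c D2 kk1305 kk1306 kk1307 kk1308 kk1309 kk1310 kk1311 kk1312 kk1313 kk1314 kk1315 kk1316 r1317 r1318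
                  exact midP al (2 * k + l + i3 - i - 2 * i2 - l2) (2 * n + i + k) (n + i + 2 * i2 + l2 - 2 * k - l + 1) (n + i + 2 * i2 + l2 - 2 * k - l + 1) (n + 2 * k + 2 * l + i3 - 2 * i2 - l2 + 1) (by omega) (fun t h1 h2 => (cE (cE (qa s2 al 1 t ((n + i + j) - t) (by omega)) (qf a2 al 0 ((n + i + j) - t) ((n + i + k) - t) (by omega))) (sh al 1 ((n + i + k) - t) ((2 * n + i + k) - t) (by omega)))) (fun t h1 h2 => (cE (cE (qf b al 1 t (t + (k - n - i)) (by omega)) (pb (show Par W (i3 + 1) (n + i3 - i2 - l2 - 1) (2 * i2 + l2 - k - l - i3) from fun t h1 h2 => (cE (sh al (-1) t (t + (-n)) (by omega)) (cE (pb D2 al (-1) (t + (-n)) (t + (i2 + l2 - i3 + 1)) (by omega)) (pb c al 0 (t + (i2 + l2 - i3 + 1)) (t + (2 * i2 + l2 - k - l - i3)) (by omega))))) al 0 (t + (k - n - i)) (t + (2 * k + l + i3 - n - i - 2 * i2 - l2)) (by omega))) (sh al 1 (t + (2 * k + l + i3 - n - i - 2 * i2 - l2)) (t + (2 * k + l + i3 - i - 2 * i2 - l2)) (by omega))))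
                · have kk1319 : (i + 2 * i2 + l2 + 1) ≤ (2 * k + l + i3) := by clear * - b7; omega
                  have kk1320 : (i + 2 * i2 + l2) ≤ (2 * Q + 3 * l + i3) := by clear * - z77; omega
                  have kk1321 : (i + 6 * i2 + 3 * l2) ≤ (6 * k + 5 * l + i3) := by clear * - b7 v46 v56 z77; omega
                  have kk1322 : (i + 6 * i2 + 3 * l2) ≤ (4 * k + 7 * l + 3 * i3 + 2) := by clear * - b7 v46 z77; omega
                  have kk1323 : (k + l) ≤ (i2 + l2) := by clear * - y20; omega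
                  have kk1324 : (n) ≤ (k + l + l2 + 2) := by clear * - y13 y14; omega
                  have kk1325 : (i) ≤ (j) := by clear * - y1; omega
                  have kk1326 : (2 * Q) ≤ (i + k + 1) := by clear * - v46; omega
                  have kk1327 : (2 * k + l) ≤ (2 * i2 + l2) := by clear * - v52; omega
                  have kk1328 : (2 * k + 2 * l + 2) ≤ (n + i2) := by clear * - b6 v52 v56; omega
                  have kk1329 : (j + 2 * k + l) ≤ (i + 2 * i2 + l2) := by clear * - v54; omega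
                  have kk1330 : (l + i3 + 1) ≤ (k) := by clear * - v56; omega
                  have r1331 : (2 * n + i + k) % 2 = 0 := by clear * - ev n1p n2p n3p; omega
                  have r1332 : (2 * k + l + i3 - i - 2 * i2 - l2) % 2 = 0 := by clear * - ev n1p n2p n3p; omega
                  clear * - al a2 s2 b c D2 kk1319 kk1320 kk1321 kk1322 kk1323 kk1324 kk1325 kk1326 kk1327 kk1328 kk1329 kk1330 r1331 r1332
                  exact midP al (2 * k + l + i3 - i - 2 * i2 - l2) (2 * n + i + k) (n + i + 2 * i2 + l2 - k - 2 * l - i3) (n + i + 2 * i2 + l2 - 2 * k - l + 1) (n + 2 * k + 2 * l + i3 - 2 * i2 - l2 + 1) (by omega) (fun t h1 h2 => (cE (cE (qa s2 al 1 t ((n + i + j) - t) (by omega)) (qf a2 al 0 ((n + i + j) - t) ((n + i + k) - t) (by omega))) (sh al 1 ((n + i + k) - t) ((2 * n + i + k) - t) (by omega)))) (fun t h1 h2 => (cE (cE (qf b al 1 t (t + (k - n - i)) (by omega)) (pb (show Par W (i3 + 1) (n + i3 - i2 - l2 - 1) (2 * i2 + l2 - k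 - l - i3) from fun t h1 h2 => (cE (sh al (-1) t (t + (-n)) (by omega)) (cE (pb D2 al (-1) (t + (-n)) (t + (i2 + l2 - i3 + 1)) (by omega)) (pb c al 0 (t + (i2 + l2 - i3 + 1)) (t + (2 * i2 + l2 - k - l - i3)) (by omega))))) al 0 (t + (k - n - i)) (t + (2 * k + l + i3 - n - i - 2 * i2 - l2)) (by omega))) (sh al 1 (t + (2 * k + l + i3 - n - i - 2 * i2 - l2)) (t + (2 * k + l + i3 - i - 2 * i2 - l2)) (by omega))))
        · have kk1333 : (i3 + 1) ≤ (k) := by clear * - b0 b1 b3 b7 y14 z75; omega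
          have kk1334 : (k + i2 + l2 + 2) ≤ (n + i3) := by clear * - y17; omega
          have kk1335 : (k + i2 + l2 + 2) ≤ (n + j + i3) := by clear * - y15; omega
          have kk1336 : (3 * i2 + l2) ≤ (2 * k + 2 * l + i3) := by clear * - b6 y13 y14; omega
          have kk1337 : (Q + k + 2 * l + i3) ≤ (3 * i2 + l2) := by clear * - y1 y7 z75 z77; omega
          have kk1338 : (k + 2 * l + i3 + 1) ≤ (2 * i2 + l2) := by clear * - y1 z75 z77; omega
          have kk1339 : (n + j) ≤ (k + l + l2 + 1) := by clear * - b4 y0; omega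
          have kk1340 : (i3 + 1) ≤ (Q) := by clear * - y12 y14; omega
          have kk1341 : (k + i2 + l2 + 1) ≤ (n + i3) := by clear * - y17; omega
          have kk1342 : (i3) ≤ (i2) := by clear * - b0 y14 y20; omega
          have kk1343 : (i2) ≤ (k + l + 1) := by clear * - b0 b1 y14 y18 y22 z75; omega
          have kk1344 : (3 * i2 + 2 * l2 + 1) ≤ (n + k + l + i3) := by clear * - b6; omega
          have r1345 : (n + j + i3 - k - i2 - l2 - 1) % 2 = 0 := by clear * - ev n1p n2p n3p; omega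
          have r1346 : (2 * k + 2 * l + i3 - 3 * i2 - l2 + 1) % 2 = 0 := by clear * - ev n1p n2p n3p; omega
          clear * - al a2 c D2 n1 kk1333 kk1334 kk1335 kk1336 kk1337 kk1338 kk1339 kk1340 kk1341 kk1342 kk1343 kk1344 r1345 r1346
          exact n1.f0 (rEE (sh al 0 (j) (j) (by omega)) (cE (pb D2 al 0 (k) (k + i2 + l2 - i3 + 1) (by omega)) (sh al (-1) (k + i2 + l2 - i3 + 1) (k + i2 + l2 - n - i3 + 1) (by omega))) (Eq.symm (rotR (n + j + i3 - k - i2 - l2 - 1) (2 * k + 2 * l + i3 - 3 * i2 - l2 + 1) (k + i2 + l2 - n - i3 + 1) (j) (by omega) (fun t h1 h2 => (cE (qf (show Par W (Q + i2 + l2 - i3 + 1) (k + i2 + l2 - i3 + 1) (n + j + i3 - k - i2 - l2 - 1) from fun t h1 h2 => (cE (sh al (-1) t (t + (-n)) (by omega)) (cE (cE (qf D2 al (-1) (t + (-n)) (t + (i3 - i2 - l2 - 1)) (by omega)) (pb a2 al 0 (t + (i3 - i2 - l2 - 1)) (t + (j + i3 - k - i2 - l2 - 1)) (by omega))) (sh al 1 (t + (j + i3 - k - i2 - l2 - 1)) (t + (n + j + i3 - k - i2 - l2 - 1)) (by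 omega))))) al (-1) t (t + (2 * n + j + i3 - k - i2 - l2 - 1)) (by omega)) (sh al (-1) (t + (2 * n + j + i3 - k - i2 - l2 - 1)) (t + (n + j + i3 - k - i2 - l2 - 1)) (by omega)))) (fun t h1 h2 => (cE (cE (cE (qf D2 al (-1) t (t + (n + i3 - i2 - l2 - 1)) (by omega)) (qf c al 0 (t + (n + i3 - i2 - l2 - 1)) (t + (n + k + l + i3 - 2 * i2 - l2)) (by omega))) (qf c al 0 (t + (n + k + l + i3 - 2 * i2 - l2)) (t + (n + 2 * k + 2 * l + i3 - 3 * i2 - l2 + 1)) (by omega))) (sh al (-1) (t + (n + 2 * k + 2 * l + i3 - 3 * i2 - l2 + 1)) (t + (2 * k + 2 * l + i3 - 3 * i2 - l2 + 1)) (by omega)))))))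
      · by_cases v57 : (2 * i2 + l2) ≤ (2 * k + l)
        · have kk1347 : (i + 2 * i2 + l2 + 1) ≤ (2 * k + l + i3) := by clear * - b7; omega
          have kk1348 : (2 * k + l + i3 + 1) ≤ (n + i + 2 * i2 + l2) := by clear * - b0 b1 b3 y14 y22 z75 z76; linarith
          have kk1349 : (2 * k + l + i3 + 1) ≤ (Q + 2 * i2 + l2) := by clear * - y0 y14 y21 y7 z75 z76; omega
          have kk1350 : (Q) ≤ (i + l + 1) := by clear * - y7 y8; omega
          have kk1351 : (k + l) ≤ (i2 + l2) := by clear * - y20; omega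
          have kk1352 : (n) ≤ (k + l + l2 + 2) := by clear * - y13 y14; omega
          have kk1353 : (2 * i2 + l2) ≤ (2 * k + l) := by clear * - v57; omega
          have kk1354 : (2 * k + 2 * l + 2) ≤ (n + i2) := by clear * - y21; omega
          clear * - al b c D2 kk1347 kk1348 kk1349 kk1350 kk1351 kk1352 kk1353 kk1354
          exact al.ubQ (2 * k + l + i3 - i - 2 * i2 - l2) (by omega) (by omega) fun t h1 h2 => (cE (sh al 1 t (t + (n)) (by omega)) (cE (qf b al 1 (t + (n)) (t + (k - i)) (by omega)) (pb (show Par W (i3 + 1) (n + i3 - i2 - l2 - 1) (2 * i2 + l2 - k - l - i3) from fun t h1 h2 => (cE (sh al (-1) t (t + (-n)) (by omega)) (cE (pb D2 al (-1) (t + (-n)) (t + (i2 + l2 - i3 + 1)) (by omega)) (pb c al 0 (t + (i2 + l2 - i3 + 1)) (t + (2 * i2 + l2 - k - l - i3)) (by omega))))) al 0 (t + (k - i)) (t + (2 * k + l + i3 - i - 2 * i2 - l2)) (by omega))))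
        · have kk1355 : (i + 2 * i2 + l2 + 1) ≤ (2 * k + l + i3) := by clear * - b7; omega
          have kk1356 : (2 * k + l + i3 + 1) ≤ (n + i + 2 * i2 + l2) := by clear * - b0 b1 b3 v57 y14 z74 z75 z76; linarith
          have kk1357 : (i3 + 1) ≤ (Q) := by clear * - y12 y14; omega
          have kk1358 : (Q) ≤ (i + l + 1) := by clear * - y7 y8; omega
          have kk1359 : (k + l) ≤ (i2 + l2) := by clear * - y20; omega
          have kk1360 : (n) ≤ (k + l + l2 + 2) := by clear * - y13 y14; omega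
          have kk1361 : (2 * k + l) ≤ (2 * i2 + l2) := by clear * - v57; omega
          have kk1362 : (2 * k + 2 * l + 2) ≤ (n + i2) := by clear * - y21; omega
          clear * - al b c D2 kk1355 kk1356 kk1357 kk1358 kk1359 kk1360 kk1361 kk1362
          exact al.ubQ (2 * k + l + i3 - i - 2 * i2 - l2) (by omega) (by omega) fun t h1 h2 => (cE (sh al 1 t (t + (n)) (by omega)) (cE (qf b al 1 (t + (n)) (t + (k - i)) (by omega)) (pb (show Par W (i3 + 1) (n + i3 - i2 - l2 - 1) (2 * i2 + l2 - k - l - i3) from fun t h1 h2 => (cE (sh al (-1) t (t + (-n)) (by omega)) (cE (pb D2 al (-1) (t + (-n)) (t + (i2 + l2 - i3 + 1)) (by omega)) (pb c al 0 (t + (i2 + l2 - i3 + 1)) (t + (2 * i2 + l2 - k - l - i3)) (by omega))))) al 0 (t + (k - i)) (t + (2 * k + l + i3 - i - 2 * i2 - l2)) (by omega))))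
    · by_cases z78 : (n + i + j + i2) ≤ (3 * k + l)
      · by_cases z79 : (3 * k + l + 2) ≤ (n + Q + j + i2)
        · have kk1363 : (n + i + j + i2) ≤ (3 * k + l) := by clear * - z78; omega
          have kk1364 : (3 * k + l + 2) ≤ (2 * n + i + j + i2) := by clear * - b1 b2 y13 y14 z79; omega
          have kk1365 : (Q) ≤ (i + l + 1) := by clear * - y7 y8; omega
          have kk1366 : (3 * k + l + 2) ≤ (n + Q + j + i2) := by clear * - z79; omega
          have kk1367 : (2 * k + l + 2) ≤ (n + Q + j) := by clear * - b1 y12 y14 y18 y20 z79; omega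
          have kk1368 : (k + l) ≤ (i2 + l2) := by clear * - y20; omega
          have kk1369 : (2 * k + 2 * l + 2) ≤ (n + j + i2) := by clear * - b0 b3 b5 y0 y14 y21 z75 z79; linarith
          clear * - al a2 b c kk1363 kk1364 kk1365 kk1366 kk1367 kk1368 kk1369
          exact al.ubQ (3 * k + l - n - i - j - i2 + 1) (by omega) (by omega) fun t h1 h2 => (cE (cE (qf b al 0 t (t + (k - i)) (by omega)) (qf c al 0 (t + (k - i)) (t + (2 * k + l - i - i2 + 1)) (by omega))) (qf a2 al 1 (t + (2 * k + l - i - i2 + 1)) (t + (3 * k + l - n - i - j - i2 + 1)) (by omega)))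
        · by_cases z80 : (i + 2 * k + l + i3 + 1) ≤ (2 * Q + 2 * i2 + l2)
          · by_cases z81 : (2 * i2 + l2 + i3 + 1) ≤ (i + 2 * k + l)
            · by_cases v58 : (i3) ≤ (j)
              · have kk1370 : (i + 2 * k + l + i3 + 2) ≤ (2 * Q + 2 * i2 + l2) := by clear * - z80 ev n1p n2p n3p; omega
                have kk1371 : (2 * j + 2 * i2 + l2 + 1) ≤ (i + 2 * k + l + i3) := by clear * - y0 y17 z79 z80; omega
                have kk1372 : (k + l) ≤ (i2 + l2) := by clear * - y20; omega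
                have kk1373 : (n) ≤ (k + l + l2 + 2) := by clear * - y13 y14; omega
                have kk1374 : (2 * Q) ≤ (i + k + 1) := by clear * - v58 y13 y21 y7 y8 z79; omega
                have kk1375 : (Q + i2 + l2 + 1) ≤ (n + i3) := by clear * - b0 b5 y20 z81; omega
                have kk1376 : (i) ≤ (i3) := by clear * - y22; omega
                have kk1377 : (i3) ≤ (j) := by clear * - v58; omega
                have r1378 : (i + 2 * i2 + l2 - l - i3) % 2 = 0 := by clear * - ev n1p n2p n3p; omega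
                clear * - al a2 s2 c D2 kk1370 kk1371 kk1372 kk1373 kk1374 kk1375 kk1376 kk1377 r1378
                obtain ⟨t, ht⟩ : ∃ t, 2 * t = (i + 2 * i2 + l2 - l - i3) := ⟨(i + 2 * i2 + l2 - l - i3) / 2, by omega⟩
                exact al.ninv t (cE (cI (pb a2 al 0 t (t + (j - k)) (by omega)) (ab s2 al 0 (t + (j - k)) ((i + k) - t) (by omega))) (qf (show Par W (i3 + 1) (n + i3 - i2 - l2 - 1) (2 * i2 + l2 - k - l - i3) from fun t h1 h2 => (cE (sh al (-1) t (t + (-n)) (by omega)) (cE (pb D2 al (-1) (t + (-n)) (t + (i2 + l2 - i3 + 1)) (by omega)) (pb c al 0 (t + (i2 + l2 - i3 + 1)) (t + (2 * i2 + l2 - k - l - i3)) (by omega))))) al 0 ((i + k) - t) t (by omega)))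
              · have kk1379 : (i + 2 * k + l + i3 + 2) ≤ (2 * Q + 2 * i2 + l2) := by clear * - z80 ev n1p n2p n3p; omega
                have kk1380 : (2 * i2 + l2 + i3 + 1) ≤ (i + 2 * k + l) := by clear * - z81; omega
                have kk1381 : (k + l) ≤ (i2 + l2) := by clear * - y20; omega
                have kk1382 : (n) ≤ (k + l + l2 + 2) := by clear * - y13 y14; omega
                have kk1383 : (2 * Q) ≤ (i + k + 1) := by clear * - b0 v58 y0 y14 y21 z75; omega
                have kk1384 : (Q + i2 + l2 + 1) ≤ (n + i3) := by clear * - b1 b2 b5 v58 z75 z80 z81; linarith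
                have kk1385 : (i) ≤ (i3) := by clear * - v58 z75 z80; omega
                have kk1386 : (j) ≤ (i3) := by clear * - v58; omega
                have r1387 : (i + 2 * i2 + l2 - l - i3) % 2 = 0 := by clear * - ev n1p n2p n3p; omega
                clear * - al a2 s2 c D2 kk1379 kk1380 kk1381 kk1382 kk1383 kk1384 kk1385 kk1386 r1387
                obtain ⟨t, ht⟩ : ∃ t, 2 * t = (i + 2 * i2 + l2 - l - i3) := ⟨(i + 2 * i2 + l2 - l - i3) / 2, by omega⟩
                exact al.ninv t (cE (cI (pb a2 al 0 t (t + (j - k)) (by omega)) (ab s2 al 0 (t + (j - k)) ((i + k) - t) (by omega))) (qf (show Par W (i3 + 1) (n + i3 - i2 - l2 - 1) (2 * i2 + l2 - k - l - i3) from fun t h1 h2 => (cE (sh al (-1) t (t + (-n)) (by omega)) (cE (pb D2 al (-1) (t + (-n)) (t + (i2 + l2 - i3 + 1)) (by omega)) (pb c al 0 (t + (i2 + l2 - i3 + 1)) (t + (2 * i2 + l2 - k - l - i3)) (by omega))))) al 0 ((i + k) - t) t (by omega)))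
            · have kk1388 : (k + i2 + l2 + 2) ≤ (n + j + i3) := by clear * - y15; omega
              have kk1389 : (n + 2 * Q + j + i3) ≤ (k + 3 * i2 + l2 + 1) := by clear * - b0 b6 y0 y14 y21 z75 z79 z81; linarith
              have kk1390 : (2 * i + j + 2 * l + i2 + l2 + 5) ≤ (n + k + i3) := by clear * - b0 b1 b2 b3 b6 z75 z79 z80 z81; linarith
              have kk1391 : (k + i2 + l2 + 2) ≤ (n + Q + j) := by clear * - y12 y14 y15; omega
              have kk1392 : (0) ≤ (j) := by clear * - y0 z75 z80; omega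
              have kk1393 : (2 * i2 + l2 + 1) ≤ (n + i3) := by clear * - b6 y20; omega
              have kk1394 : (Q) ≤ (i + l + 2) := by clear * - y7 y8; omega
              have r1395 : (2 * n + i + l + i2 + 1) % 2 = 0 := by clear * - ev n1p n2p n3p; omega
              have r1396 : (n + j + i3 - k - i2 - l2 - 1) % 2 = 0 := by clear * - ev n1p n2p n3p; omega
              clear * - al a2 tt D2 kk1388 kk1389 kk1390 kk1391 kk1392 kk1393 kk1394 r1395 r1396
              exact midP al (n + j + i3 - k - i2 - l2 - 1) (2 * n + i + l + i2 + 1) (n + i + l + 2) (n + Q) (2 * n + i3 - i2 - l2 - 1) (by omega) (fun t h1 h2 => (cE (ab tt al 1 t ((n + i + l + i2 + 1) - t) (by omega)) (sh al 1 ((n + i + l + i2 + 1) - t) ((2 * n + i + l + i2 + 1) - t) (by omega)))) (fun t h1 h2 => (cE (qf (show Par W (Q) (k - j) (n + j + i3 - k - i2 - l2 - 1) from fun t h1 h2 => (cE (sh al (-1) t (t + (-n)) (by omega)) (cE (pb a2 al (-1) (t + (-n)) (t + (j - k)) (by omega)) (qf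 D2 al (-1) (t + (j - k)) (t + (n + j + i3 - k - i2 - l2 - 1)) (by omega))))) al 1 t (t + (j + i3 - k - i2 - l2 - 1)) (by omega)) (sh al 1 (t + (j + i3 - k - i2 - l2 - 1)) (t + (n + j + i3 - k - i2 - l2 - 1)) (by omega))))
          · by_cases z82 : (i + 4 * i2 + 2 * l2 + 1) ≤ (3 * k + 2 * l + 2 * i3)
            · by_cases z83 : (3 * k + 2 * l + 2 * i3 + 1) ≤ (Q + 4 * i2 + 2 * l2)
              · by_cases v59 : (4 * i2 + 2 * l2) ≤ (3 * k + 2 * l + i3)
                · have kk1397 : (i + 4 * i2 + 2 * l2 + 1) ≤ (3 * k + 2 * l + 2 * i3) := by clear * - z82; omega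
                  have kk1398 : (3 * k + 2 * l + 2 * i3 + 1) ≤ (n + i + 4 * i2 + 2 * l2) := by clear * - b5 b6 v59 y13 z80 z82 z83; linarith
                  have kk1399 : (3 * k + 2 * l + 2 * i3 + 1) ≤ (Q + 4 * i2 + 2 * l2) := by clear * - z83; omega
                  have kk1400 : (Q) ≤ (i + l + 1) := by clear * - y7 y8; omega
                  have kk1401 : (k + l) ≤ (i2 + l2) := by clear * - y20; omega
                  have kk1402 : (n) ≤ (k + l + l2 + 2) := by clear * - y13 y14; omega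
                  have kk1403 : (4 * i2 + 2 * l2) ≤ (3 * k + 2 * l + i3) := by clear * - v59; omega
                  have kk1404 : (2 * i2 + l2) ≤ (2 * k + l) := by clear * - v59 z80 z82 z83; omega
                  have kk1405 : (3 * k + 3 * l + i3 + 2) ≤ (n + 3 * i2 + l2) := by clear * - y21 z80 z82 z83; omega
                  have kk1406 : (2 * k + 2 * l + 2) ≤ (n + i2) := by clear * - y21; omega
                  clear * - al b c D2 kk1397 kk1398 kk1399 kk1400 kk1401 kk1402 kk1403 kk1404 kk1405 kk1406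
                  exact al.ubQ (3 * k + 2 * l + 2 * i3 - i - 4 * i2 - 2 * l2) (by omega) (by omega) fun t h1 h2 => (cE (sh al 1 t (t + (n)) (by omega)) (cE (cE (qf b al 1 (t + (n)) (t + (k - i)) (by omega)) (pb (show Par W (i3 + 1) (n + i3 - i2 - l2 - 1) (2 * i2 + l2 - k - l - i3) from fun t h1 h2 => (cE (sh al (-1) t (t + (-n)) (by omega)) (cE (pb D2 al (-1) (t + (-n)) (t + (i2 + l2 - i3 + 1)) (by omega)) (pb c al 0 (t + (i2 + l2 - i3 + 1)) (t + (2 * i2 + l2 - k - l - i3)) (by omega))))) al 0 (t + (k - i)) (t + (2 * k + l + i3 - i - 2 * i2 - l2)) (by omega))) (pb (show Par W (i3 + 1) (n + i3 - i2 - l2 - 1) (2 * i2 + l2 - k - l - i3) from fun t h1 h2 => (cE (sh al (-1) t (t + (-n)) (by omega)) (cE (pb D2 al (-1) (t + (-n)) (t + (i2 + l2 - i3 + 1)) (by omega)) (pb c al 0 (t + (i2 + l2 - i3 + 1)) (t + (2 * i2 + l2 - k - l - i3)) (by omega))))) al 0 (t + (2 * k + l + i3 - i - 2 * i2 - l2)) (t + (3 * k + 2 * l + 2 * i3 - i - 4 * i2 - 2 * l2)) (by omega))))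
                · have kk1407 : (i + 4 * i2 + 2 * l2 + 1) ≤ (3 * k + 2 * l + 2 * i3) := by clear * - z82; omega
                  have kk1408 : (3 * k + 2 * l + 2 * i3 + 1) ≤ (n + i + 4 * i2 + 2 * l2) := by clear * - b6 y13 y14 z80 z82 z83; omega
                  have kk1409 : (i3 + 1) ≤ (Q) := by clear * - y12 y14; omega
                  have kk1410 : (Q) ≤ (i + l + 1) := by clear * - b0 v59 y14 y8 z80 z82; omega
                  have kk1411 : (k + l) ≤ (i2 + l2) := by clear * - y20; omega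
                  have kk1412 : (n) ≤ (k + l + l2 + 2) := by clear * - y13 y14; omega
                  have kk1413 : (3 * k + 2 * l + i3) ≤ (4 * i2 + 2 * l2) := by clear * - v59; omega
                  have kk1414 : (k + l + i3) ≤ (2 * i2 + l2) := by clear * - z80 z82 z83; omega
                  have kk1415 : (3 * k + 3 * l + i3 + 2) ≤ (n + 3 * i2 + l2) := by clear * - y21 z80 z82 z83; omega
                  have kk1416 : (2 * k + 2 * l + 2) ≤ (n + i2) := by clear * - y21; omega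
                  clear * - al b c D2 kk1407 kk1408 kk1409 kk1410 kk1411 kk1412 kk1413 kk1414 kk1415 kk1416
                  exact al.ubQ (3 * k + 2 * l + 2 * i3 - i - 4 * i2 - 2 * l2) (by omega) (by omega) fun t h1 h2 => (cE (sh al 1 t (t + (n)) (by omega)) (cE (cE (qf b al 1 (t + (n)) (t + (k - i)) (by omega)) (pb (show Par W (i3 + 1) (n + i3 - i2 - l2 - 1) (2 * i2 + l2 - k - l - i3) from fun t h1 h2 => (cE (sh al (-1) t (t + (-n)) (by omega)) (cE (pb D2 al (-1) (t + (-n)) (t + (i2 + l2 - i3 + 1)) (by omega)) (pb c al 0 (t + (i2 + l2 - i3 + 1)) (t + (2 * i2 + l2 - k - l - i3)) (by omega))))) al 0 (t + (k - i)) (t + (2 * k + l + i3 - i - 2 * i2 - l2)) (by omega))) (pb (show Par W (i3 + 1) (n + i3 - i2 - l2 - 1) (2 * i2 + l2 - k - l - i3) from fun t h1 h2 => (cE (sh al (-1) t (t + (-n)) (by omega)) (cE (pb D2 al (-1) (t + (-n)) (t + (i2 + l2 - i3 + 1)) (by omega)) (pb c al 0 (t + (i2 + l2 - i3 + 1)) (t + (2 * i2 + l2 - k - l - i3)) (by omega)))))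 al 0 (t + (2 * k + l + i3 - i - 2 * i2 - l2)) (t + (3 * k + 2 * l + 2 * i3 - i - 4 * i2 - 2 * l2)) (by omega))))
              · by_cases z84 : (n + 3 * j + i3 + 1) ≤ (2 * Q + k + i2 + l2)
                · have kk1417 : (k + i2 + l2 + 2) ≤ (n + j + i3) := by clear * - y15; omega
                  have kk1418 : (n + 3 * j + i3 + 1) ≤ (2 * Q + k + i2 + l2) := by clear * - z84; omega
                  have kk1419 : (2 * Q + j + i2 + l2 + 1) ≤ (n + 2 * i + k + i3) := by clear * - b1 z84; omega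
                  have kk1420 : (j + 3 * k + 2 * l + i3 + 3) ≤ (n + 2 * i + 3 * i2 + l2) := by clear * - b0 b3 b5 y0 y14 y17 y21 z84; linarith
                  have kk1421 : (i3 + 1) ≤ (Q) := by clear * - y12 y14; omega
                  have kk1422 : (k + i2 + l2 + 1) ≤ (n + i3) := by clear * - y17; omega
                  have kk1423 : (i2) ≤ (k) := by clear * - b0 b1 b3 y14 y18 z80 z84; linarith
                  have kk1424 : (i) ≤ (j) := by clear * - y1; omega
                  have kk1425 : (k + l) ≤ (i2 + l2) := by clear * - y20; omega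
                  have kk1426 : (Q) ≤ (i + l + 1) := by clear * - y7 y8; omega
                  have kk1427 : (Q + i + 2 * i2 + l2) ≤ (j + 2 * k + l + i3 + 1) := by clear * - b7 z75; omega
                  have r1428 : (3 * n + j + 2 * k + l - i2 + 1) % 2 = 0 := by clear * - ev n1p n2p n3p; omega
                  have r1429 : (n + j + i3 - k - i2 - l2 - 1) % 2 = 0 := by clear * - ev n1p n2p n3p; omega
                  clear * - al a2 s2 b c D2 kk1417 kk1418 kk1419 kk1420 kk1421 kk1422 kk1423 kk1424 kk1425 kk1426 kk1427 r1428 r1429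
                  exact midP al (n + j + i3 - k - i2 - l2 - 1) (3 * n + j + 2 * k + l - i2 + 1) (n + j + 2 * k + l - i - i2 + 2) (n + Q + i2 + l2 - i3 + 1) (2 * n + j) (by omega) (fun t h1 h2 => (cE (cI (cE (pb c al 1 t (t + (i2 - n - k - l - 1)) (by omega)) (pb b al 0 (t + (i2 - n - k - l - 1)) (t + (i + i2 - n - 2 * k - l - 1)) (by omega))) (qa s2 al 0 (t + (i + i2 - n - 2 * k - l - 1)) ((n + j + 2 * k + l - i2 + 1) - t) (by omega))) (sh al 2 ((n + j + 2 * k + l - i2 + 1) - t) ((3 * n + j + 2 * k + l - i2 + 1) - t) (by omega)))) (fun t h1 h2 => (cE (qf (show Par W (Q + i2 + l2 - i3 + 1) (k + i2 + l2 - i3 + 1) (n + j + i3 - k - i2 - l2 - 1) from fun t h1 h2 => (cE (sh al (-1) t (t + (-n)) (by omega)) (cE (cE (qf D2 al (-1) (t + (-n)) (t + (i3 - i2 - l2 - 1)) (by omega)) (pb a2 al 0 (t + (i3 - i2 - l2 - 1)) (t + (j + i3 - k - i2 - l2 - 1)) (by omega))) (sh al 1 (t + (j + i3 - k - i2 - l2 - 1)) (t + (n + j + i3 - k - i2 - l2 - 1)) (by omega))))) al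 1 t (t + (j + i3 - k - i2 - l2 - 1)) (by omega)) (sh al 1 (t + (j + i3 - k - i2 - l2 - 1)) (t + (n + j + i3 - k - i2 - l2 - 1)) (by omega))))
                · by_cases v60 : (i3) ≤ (j)
                  · have kk1430 : (k + i2 + l2 + 2) ≤ (n + j + i3) := by clear * - y15; omega
                    have kk1431 : (n + j) ≤ (k + i2 + l2 + i3 + 1) := by clear * - b0 b3 b4 y0 z84; omega
                    have kk1432 : (2 * Q + j + i2 + l2 + 1) ≤ (n + k + 3 * i3) := by clear * - b1 b2 b4 y13; omega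
                    have kk1433 : (5 * k + 4 * l + l2 + i3 + 7) ≤ (3 * n + 2 * i + j + 3 * i2) := by clear * - b0 b3 b4 v60 y0 y17 y21 z84; linarith
                    have kk1434 : (i3 + 1) ≤ (Q) := by clear * - y12 y14; omega
                    have kk1435 : (k + i2 + l2 + 1) ≤ (n + i3) := by clear * - y17; omega
                    have kk1436 : (n + i + i2) ≤ (2 * k + l + l2 + 2) := by clear * - b7 y14 y20; omega
                    have kk1437 : (n + i) ≤ (k + l + l2 + 2) := by clear * - y14 y22; omega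
                    have kk1438 : (2 * k + l + i3 + 2) ≤ (n + i + i2) := by clear * - b0 y14 y20 y21 y8; omega
                    have kk1439 : (k + l2 + i3 + 2) ≤ (n + i) := by clear * - b0 y14 y21 y8; omega
                    have kk1440 : (i3) ≤ (j) := by clear * - v60; omega
                    have kk1441 : (n + Q + i + 2 * i2) ≤ (3 * k + 2 * l + i3 + 3) := by clear * - b7 y14 y22 z80; omega
                    have r1442 : (2 * n + 3 * k + 2 * l + l2 + i3 - i - i2 + 3) % 2 = 0 := by clear * - ev n1p n2p n3p; omega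
                    have r1443 : (n + j + i3 - k - i2 - l2 - 1) % 2 = 0 := by clear * - ev n1p n2p n3p; omega
                    clear * - al a2 b c u1 D2 kk1430 kk1431 kk1432 kk1433 kk1434 kk1435 kk1436 kk1437 kk1438 kk1439 kk1440 kk1441 r1442 r1443
                    exact midP al (n + j + i3 - k - i2 - l2 - 1) (2 * n + 3 * k + 2 * l + l2 + i3 - i - i2 + 3) (3 * k + 2 * l + l2 - i - i2 + 4) (n + Q + i2 + l2 - i3 + 1) (2 * n + j) (by omega) (fun t h1 h2 => (cE (cI (cE (pb c al 1 t (t + (i2 - n - k - l - 1)) (by omega)) (pb b al 0 (t + (i2 - n - k - l - 1)) (t + (i + i2 - n - 2 * k - l - 1)) (by omega))) (ab u1 al 0 (t + (i + i2 - n - 2 * k - l - 1)) ((3 * k + 2 * l + l2 + i3 - i - i2 + 3) - t) (by omega))) (sh al 2 ((3 * k + 2 * l + l2 + i3 - i - i2 + 3) - t) ((2 * n + 3 * k + 2 * l + l2 + i3 - i - i2 + 3) - t) (by omega)))) (fun t h1 h2 => (cE (qf (show Par W (Q + i2 + l2 - i3 + 1) (k + i2 + l2 - i3 + 1) (n + j + i3 - k - i2 - l2 - 1) from fun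 t h1 h2 => (cE (sh al (-1) t (t + (-n)) (by omega)) (cE (cE (qf D2 al (-1) (t + (-n)) (t + (i3 - i2 - l2 - 1)) (by omega)) (pb a2 al 0 (t + (i3 - i2 - l2 - 1)) (t + (j + i3 - k - i2 - l2 - 1)) (by omega))) (sh al 1 (t + (j + i3 - k - i2 - l2 - 1)) (t + (n + j + i3 - k - i2 - l2 - 1)) (by omega))))) al 1 t (t + (j + i3 - k - i2 - l2 - 1)) (by omega)) (sh al 1 (t + (j + i3 - k - i2 - l2 - 1)) (t + (n + j + i3 - k - i2 - l2 - 1)) (by omega))))
                  · have kk1444 : (k + i2 + l2 + 2) ≤ (n + j + i3) := by clear * - y15; omega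
                    have kk1445 : (n + i3) ≤ (j + k + i2 + l2 + 1) := by clear * - b0 b3 v60 y0 y14 z84; omega
                    have kk1446 : (2 * Q + i2 + l2 + 1) ≤ (n + j + k + i3) := by clear * - b0 b1 y14 y20 z82; omega
                    have kk1447 : (5 * k + 4 * l + l2 + 3 * i3 + 7) ≤ (3 * n + 2 * i + 3 * j + 3 * i2) := by clear * - b0 b3 v60 y0 y14 y17 y21 z84; linarith
                    have kk1448 : (i3 + 1) ≤ (Q) := by clear * - y12 y14; omega
                    have kk1449 : (k + i2 + l2 + 1) ≤ (n + i3) := by clear * - y17; omega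
                    have kk1450 : (n + i + i2) ≤ (2 * k + l + l2 + 2) := by clear * - b7 y14 y20; omega
                    have kk1451 : (n + i) ≤ (k + l + l2 + 2) := by clear * - y14 y22; omega
                    have kk1452 : (2 * k + l + i3 + 2) ≤ (n + i + i2) := by clear * - b0 y14 y20 y21 y8; omega
                    have kk1453 : (k + l2 + i3 + 2) ≤ (n + i) := by clear * - b0 y14 y21 y8; omega
                    have kk1454 : (j) ≤ (i3) := by clear * - v60; omega
                    have kk1455 : (n + Q + i + j + 2 * i2) ≤ (3 * k + 2 * l + 2 * i3 + 3) := by clear * - v60 y14 z74 z84; omega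
                    have r1456 : (2 * n + 3 * k + 2 * l + l2 + i3 - i - i2 + 3) % 2 = 0 := by clear * - ev n1p n2p n3p; omega
                    have r1457 : (n + j + i3 - k - i2 - l2 - 1) % 2 = 0 := by clear * - ev n1p n2p n3p; omega
                    clear * - al a2 b c u1 D2 kk1444 kk1445 kk1446 kk1447 kk1448 kk1449 kk1450 kk1451 kk1452 kk1453 kk1454 kk1455 r1456 r1457
                    exact midP al (n + j + i3 - k - i2 - l2 - 1) (2 * n + 3 * k + 2 * l + l2 + i3 - i - i2 + 3) (3 * k + 2 * l + l2 + i3 - i - j - i2 + 4) (n + Q + i2 + l2 - i3 + 1) (2 * n + j) (by omega) (fun t h1 h2 => (cE (cI (cE (pb c al 1 t (t + (i2 - n - k - l - 1)) (by omega)) (pb b al 0 (t + (i2 - n - k - l - 1)) (t + (i + i2 - n - 2 * k - l - 1)) (by omega))) (ab u1 al 0 (t + (i + i2 - n - 2 * k - l - 1)) ((3 * k + 2 * l + l2 + i3 - i - i2 + 3) - t) (by omega))) (sh al 2 ((3 * k + 2 * l + l2 + i3 - i - i2 + 3) - t) ((2 * n + 3 * k + 2 * l + l2 + i3 - i - i2 + 3) - t)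 (by omega)))) (fun t h1 h2 => (cE (qf (show Par W (Q + i2 + l2 - i3 + 1) (k + i2 + l2 - i3 + 1) (n + j + i3 - k - i2 - l2 - 1) from fun t h1 h2 => (cE (sh al (-1) t (t + (-n)) (by omega)) (cE (cE (qf D2 al (-1) (t + (-n)) (t + (i3 - i2 - l2 - 1)) (by omega)) (pb a2 al 0 (t + (i3 - i2 - l2 - 1)) (t + (j + i3 - k - i2 - l2 - 1)) (by omega))) (sh al 1 (t + (j + i3 - k - i2 - l2 - 1)) (t + (n + j + i3 - k - i2 - l2 - 1)) (by omega))))) al 1 t (t + (j + i3 - k - i2 - l2 - 1)) (by omega)) (sh al 1 (t + (j + i3 - k - i2 - l2 - 1)) (t + (n + j + i3 - k - i2 - l2 - 1)) (by omega))))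
            · have kk1458 : (i3 + 1) ≤ (k) := by clear * - b0 b7 y14 y18 z80 z82; omega
              have kk1459 : (k + i2 + l2 + 2) ≤ (n + i3) := by clear * - y17; omega
              have kk1460 : (k + i2 + l2 + 2) ≤ (n + j + i3) := by clear * - y15; omega
              have kk1461 : (n + j + 2 * i2) ≤ (3 * k + 2 * l + 1) := by clear * - b4 y12 y13 y14 z80; omega
              have kk1462 : (Q + 2 * k + 2 * l + 1) ≤ (n + j + 2 * i2) := by clear * - b0 b3 y15 y22 z75 z79 z80 z82; linarith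
              have kk1463 : (k + 2 * l + i3 + 1) ≤ (2 * i2 + l2) := by clear * - b0 b3 y14 z80 z82; omega
              have kk1464 : (n + j) ≤ (k + l + l2 + 1) := by clear * - b4 y0; omega
              have kk1465 : (i3 + 1) ≤ (Q) := by clear * - y12 y14; omega
              have kk1466 : (k + i2 + l2 + 1) ≤ (n + i3) := by clear * - y17; omega
              have kk1467 : (i2) ≤ (k + l + 1) := by clear * - b6 b7 y13 y14 z82; omega
              have kk1468 : (Q) ≤ (i2 + 1) := by clear * - b0 y14 y22 z80 z82; omega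
              have kk1469 : (2 * i2 + l2) ≤ (2 * k + l) := by clear * - b0 y14 y18 z80; omega
              have r1470 : (n + j + i3 - k - i2 - l2 - 1) % 2 = 0 := by clear * - ev n1p n2p n3p; omega
              have r1471 : (3 * k + 2 * l - n - j - 2 * i2 + 2) % 2 = 0 := by clear * - ev n1p n2p n3p; omega
              clear * - al a2 c D2 n1 kk1458 kk1459 kk1460 kk1461 kk1462 kk1463 kk1464 kk1465 kk1466 kk1467 kk1468 kk1469 r1470 r1471
              exact n1.f0 (rEE (sh al 0 (j) (j) (by omega)) (cE (pb D2 al 0 (k) (k + i2 + l2 - i3 + 1) (by omega)) (sh al (-1) (k + i2 + l2 - i3 + 1) (k + i2 + l2 - n - i3 + 1) (by omega))) (Eq.symm (rotR (n + j + i3 - k - i2 - l2 - 1) (3 * k + 2 * l - n - j - 2 * i2 + 2) (k + i2 + l2 - n - i3 + 1) (j) (by omega) (fun t h1 h2 => (cE (qf (show Par W (Q + i2 + l2 - i3 + 1) (k + i2 + l2 - i3 + 1) (n + j + i3 - k - i2 - l2 - 1) from fun t h1 h2 => (cE (sh al (-1) t (t + (-n)) (by omega)) (cE (cE (qf D2 al (-1) (t + (-n))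 (t + (i3 - i2 - l2 - 1)) (by omega)) (pb a2 al 0 (t + (i3 - i2 - l2 - 1)) (t + (j + i3 - k - i2 - l2 - 1)) (by omega))) (sh al 1 (t + (j + i3 - k - i2 - l2 - 1)) (t + (n + j + i3 - k - i2 - l2 - 1)) (by omega))))) al (-1) t (t + (2 * n + j + i3 - k - i2 - l2 - 1)) (by omega)) (sh al (-1) (t + (2 * n + j + i3 - k - i2 - l2 - 1)) (t + (n + j + i3 - k - i2 - l2 - 1)) (by omega)))) (fun t h1 h2 => (cE (cE (cE (qf a2 al 0 t (t + (k - j)) (by omega)) (qf c al 0 (t + (k - j)) (t + (2 * k + l - j - i2 + 1)) (by omega))) (qf c al 0 (t + (2 * k + l - j - i2 + 1)) (t + (3 * k + 2 * l - j - 2 * i2 + 2)) (by omega))) (sh al (-1) (t + (3 * k + 2 * l - j - 2 * i2 + 2)) (t + (3 * k + 2 * l - n - j - 2 * i2 + 2)) (by omega)))))))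
      · by_cases v61 : (2 * i2 + l2) ≤ (2 * k + l)
        · have kk1472 : (i + 2 * i2 + l2 + 1) ≤ (2 * k + l + i3) := by clear * - b7; omega
          have kk1473 : (i + 2 * k + l + 2) ≤ (2 * i2 + l2 + i3) := by clear * - b0 b3 b4 y0 z75 z78; omega
          have kk1474 : (2 * n + 3 * i) ≤ (l + 2 * i2 + 3 * l2 + i3 + 2) := by clear * - b0 b3 b4 v61 y0 y14 z75 z78; linarith
          have kk1475 : (i + 2 * i2 + l2) ≤ (2 * k + 3 * l + i3) := by clear * - b0 b2 b4 y13 y14 z74 z78; linarith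
          have kk1476 : (k + l) ≤ (i2 + l2) := by clear * - y20; omega
          have kk1477 : (n) ≤ (k + l + l2 + 2) := by clear * - y13 y14; omega
          have kk1478 : (2 * i2 + l2) ≤ (2 * k + l) := by clear * - v61; omega
          have kk1479 : (2 * k + 2 * l + 2) ≤ (n + i2) := by clear * - y21; omega
          have kk1480 : (2 * i2 + 2 * l2 + 2) ≤ (n + k + l) := by clear * - b0 b4 v61 y20 z78; omega
          have kk1481 : (0) ≤ (i + 1) := by clear * - y0; omega
          have r1482 : (k + l + l2 + i3 - 3 * n + 2) % 2 = 0 := by clear * - ev n1p n2p n3p; omega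
          have r1483 : (2 * k + l + i3 - i - 2 * i2 - l2) % 2 = 0 := by clear * - ev n1p n2p n3p; omega
          clear * - al b c u1 D2 kk1472 kk1473 kk1474 kk1475 kk1476 kk1477 kk1478 kk1479 kk1480 kk1481 r1482 r1483
          exact midP al (2 * k + l + i3 - i - 2 * i2 - l2) (k + l + l2 + i3 - 3 * n + 2) (i - n + 1) (i - n + 1) (2 * k + 2 * l + i3 - n - 2 * i2 - l2 + 1) (by omega) (fun t h1 h2 => (cE (qa u1 al (-1) t ((k + l + l2 + i3 - 2 * n + 2) - t) (by omega)) (sh al (-1) ((k + l + l2 + i3 - 2 * n + 2) - t) ((k + l + l2 + i3 - 3 * n + 2) - t) (by omega)))) (fun t h1 h2 => (cE (cE (qf b al (-1) t (t + (n + k - i)) (by omega)) (pb (show Par W (i3 + 1) (n + i3 - i2 - l2 - 1) (2 * i2 + l2 - k - l - i3) from fun t h1 h2 => (cE (sh al (-1) t (t + (-n)) (by omega)) (cE (pb D2 al (-1) (t + (-n)) (t + (i2 + l2 - i3 + 1)) (by omega)) (pb c al 0 (t + (i2 + l2 - i3 + 1)) (t + (2 * i2 + l2 - k - l - i3)) (by omega))))) al 0 (t + (n + k - i)) (t + (n + 2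 * k + l + i3 - i - 2 * i2 - l2)) (by omega))) (sh al (-1) (t + (n + 2 * k + l + i3 - i - 2 * i2 - l2)) (t + (2 * k + l + i3 - i - 2 * i2 - l2)) (by omega))))
        · have kk1484 : (i + 2 * i2 + l2 + 1) ≤ (2 * k + l + i3) := by clear * - b7; omega
          have kk1485 : (i + 2 * i2 + l2 + 2) ≤ (2 * k + l + i3) := by clear * - b0 b3 b6 v61 y13 y14 z74 z75; linarith
          have kk1486 : (2 * n + 3 * i + 6 * i2 + l2) ≤ (8 * k + 5 * l + i3 + 2) := by clear * - b7 y14; omega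
          have kk1487 : (i + 6 * i2 + 3 * l2) ≤ (6 * k + 5 * l + i3) := by clear * - b0 b2 b6 y13 y14 z74 z78; linarith
          have kk1488 : (k + l) ≤ (i2 + l2) := by clear * - y20; omega
          have kk1489 : (n) ≤ (k + l + l2 + 2) := by clear * - y13 y14; omega
          have kk1490 : (2 * k + l) ≤ (2 * i2 + l2) := by clear * - v61; omega
          have kk1491 : (2 * k + 2 * l + 2) ≤ (n + i2) := by clear * - y21; omega
          have kk1492 : (2 * i2 + 2 * l2 + 2) ≤ (n + k + l) := by clear * - b0 b6 y14 y20; omega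
          have kk1493 : (2 * k + l) ≤ (i + 2 * i2 + l2 + 1) := by clear * - v61 y0; omega
          have r1494 : (k + l + l2 + i3 - 3 * n + 2) % 2 = 0 := by clear * - ev n1p n2p n3p; omega
          have r1495 : (2 * k + l + i3 - i - 2 * i2 - l2) % 2 = 0 := by clear * - ev n1p n2p n3p; omega
          clear * - al b c u1 D2 kk1484 kk1485 kk1486 kk1487 kk1488 kk1489 kk1490 kk1491 kk1492 kk1493 r1494 r1495
          exact midP al (2 * k + l + i3 - i - 2 * i2 - l2) (k + l + l2 + i3 - 3 * n + 2) (i + 2 * i2 + l2 - n - 2 * k - l + 1) (i + 2 * i2 + l2 - n - 2 * k - l + 1) (2 * k + 2 * l + i3 - n - 2 * i2 - l2 + 1) (by omega) (fun t h1 h2 => (cE (qa u1 al (-1) t ((k + l + l2 + i3 - 2 * n + 2) - t) (by omega)) (sh al (-1) ((k + l + l2 + i3 - 2 * n + 2) - t) ((k + l + l2 + i3 - 3 * n + 2) - t) (by omega)))) (fun t h1 h2 => (cE (cE (qf b al (-1) t (t + (n + k - i)) (by omega)) (pb (show Par W (i3 + 1) (n + i3 - i2 - l2 - 1) (2 * i2 + l2 - k - l - i3) from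 fun t h1 h2 => (cE (sh al (-1) t (t + (-n)) (by omega)) (cE (pb D2 al (-1) (t + (-n)) (t + (i2 + l2 - i3 + 1)) (by omega)) (pb c al 0 (t + (i2 + l2 - i3 + 1)) (t + (2 * i2 + l2 - k - l - i3)) (by omega))))) al 0 (t + (n + k - i)) (t + (n + 2 * k + l + i3 - i - 2 * i2 - l2)) (by omega))) (sh al (-1) (t + (n + 2 * k + l + i3 - i - 2 * i2 - l2)) (t + (2 * k + l + i3 - i - 2 * i2 - l2)) (by omega))))
  · by_cases v62 : (2 * i2 + l2) ≤ (2 * k + l)
    · have kk1496 : (i + 2 * i2 + l2 + 1) ≤ (2 * k + l + i3) := by clear * - b7; omega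
      have kk1497 : (2 * k + l + i3 + 1) ≤ (n + i + 2 * i2 + l2) := by clear * - b0 b1 b2 b3 b5 v62 y13 y14 z74; linarith
      have kk1498 : (2 * k + l + i3 + 1) ≤ (Q + 2 * i2 + l2) := by clear * - b0 b3 b4 v62 y13 y14 z74; linarith
      have kk1499 : (Q) ≤ (i + l + 1) := by clear * - b4 v62 y13 y7 z74; omega
      have kk1500 : (k + l) ≤ (i2 + l2) := by clear * - y20; omega
      have kk1501 : (n) ≤ (k + l + l2 + 2) := by clear * - y13 y14; omega
      have kk1502 : (2 * i2 + l2) ≤ (2 * k + l) := by clear * - v62; omega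
      have kk1503 : (2 * k + 2 * l + 2) ≤ (n + i2) := by clear * - y21; omega
      clear * - al b c D2 kk1496 kk1497 kk1498 kk1499 kk1500 kk1501 kk1502 kk1503
      exact al.ubQ (2 * k + l + i3 - i - 2 * i2 - l2) (by omega) (by omega) fun t h1 h2 => (cE (sh al 1 t (t + (n)) (by omega)) (cE (qf b al 1 (t + (n)) (t + (k - i)) (by omega)) (pb (show Par W (i3 + 1) (n + i3 - i2 - l2 - 1) (2 * i2 + l2 - k - l - i3) from fun t h1 h2 => (cE (sh al (-1) t (t + (-n)) (by omega)) (cE (pb D2 al (-1) (t + (-n)) (t + (i2 + l2 - i3 + 1)) (by omega)) (pb c al 0 (t + (i2 + l2 - i3 + 1)) (t + (2 * i2 + l2 - k - l - i3)) (by omega))))) al 0 (t + (k - i)) (t + (2 * k + l + i3 - i - 2 * i2 - l2)) (by omega))))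
    · have kk1504 : (i + 2 * i2 + l2 + 1) ≤ (2 * k + l + i3) := by clear * - b7; omega
      have kk1505 : (2 * k + l + i3 + 1) ≤ (n + i + 2 * i2 + l2) := by clear * - b0 b1 b2 b3 b7 v62 y13 y14 z74; linarith
      have kk1506 : (i3 + 1) ≤ (Q) := by clear * - y12 y14; omega
      have kk1507 : (Q) ≤ (i + l + 1) := by clear * - y7 y8; omega
      have kk1508 : (k + l) ≤ (i2 + l2) := by clear * - y20; omega
      have kk1509 : (n) ≤ (k + l + l2 + 2) := by clear * - y13 y14; omega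
      have kk1510 : (2 * k + l) ≤ (2 * i2 + l2) := by clear * - v62; omega
      have kk1511 : (2 * k + 2 * l + 2) ≤ (n + i2) := by clear * - y21; omega
      clear * - al b c D2 kk1504 kk1505 kk1506 kk1507 kk1508 kk1509 kk1510 kk1511
      exact al.ubQ (2 * k + l + i3 - i - 2 * i2 - l2) (by omega) (by omega) fun t h1 h2 => (cE (sh al 1 t (t + (n)) (by omega)) (cE (qf b al 1 (t + (n)) (t + (k - i)) (by omega)) (pb (show Par W (i3 + 1) (n + i3 - i2 - l2 - 1) (2 * i2 + l2 - k - l - i3) from fun t h1 h2 => (cE (sh al (-1) t (t + (-n)) (by omega)) (cE (pb D2 al (-1) (t + (-n)) (t + (i2 + l2 - i3 + 1)) (by omega)) (pb c al 0 (t + (i2 + l2 - i3 + 1)) (t + (2 * i2 + l2 - k - l - i3)) (by omega))))) al 0 (t + (k - i)) (t + (2 * k + l + i3 - i - 2 * i2 - l2)) (by omega))))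

theorem t2c_27 {W : ℤ → G} {n Q i j k l i2 l2 i3 : ℤ} (al : AL W n Q)
    (hy : (0) ≤ (i) ∧ (i) ≤ (j) ∧ (j + 1) ≤ (Q) ∧ (Q) ≤ (k) ∧ (k + 1) ≤ (n) ∧ (Q) ≤ (i + l + 1) ∧ (k + l + 2) ≤ (n) ∧ (Q) ≤ (i2) ∧ (i2) ≤ (i + l + 1) ∧ (Q) ≤ (i2 + l2 + 1) ∧ (i2 + l2 + 2) ≤ (n) ∧ (n) ≤ (k + l + l2 + 2) ∧ (k + l + l2 + 3) ≤ (n + Q) ∧ (0) ≤ (i3) ∧ (n + i3) ≤ (k + l + l2 + 2) ∧ (k + i2 + l2 + 2) ≤ (n + j + i3) ∧ (j + i3 + 1) ≤ (k) ∧ (k + i2 + l2 + 2) ≤ (n + i3) ∧ (i + 2 * i2 + 1) ≤ (2 * Q + k) ∧ (i + l + 1) ≤ (i2 + l2) ∧ (k + l + 1) ≤ (i2 + l2) ∧ (2 * k + 2 * l + 3) ≤ (n + i2) ∧ (i + 1) ≤ (i3))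
    (a1 : Par W (0) (j) (k - j))
    (a2 : Par W (Q + j - k) (j) (k - j))
    (s1 : Ant W (0) (i) (i + j))
    (s2 : Ant W (j + 1) (Q) (i + j))
    (b : Par W (i + 1) (i + l + 1) (k - i))
    (tt : Ant W (Q) (i2) (i + l + i2 + 1))
    (c : Par W (i2 + 1) (i2 + l2 + 1) (k + l - i2 + 1))
    (u1 : Ant W (0) (i3) (k + l + l2 + i3 - n + 2))
    (u2 : Ant W (k + l + l2 - n + 3) (Q) (k + l + l2 + i3 - n + 2))
    (D1 : Par W (i3 + 1) (Q) (i2 + l2 - i3 + 1))
    (D2 : Par W (i2 + l2 + 2) (n) (i3 - i2 - l2 - 1))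
    {L : ℤ} (mx : ∀ a b g, 0 < g → g < n → Par W a b g → b - a ≤ L)
    (hL : L ≤ (n - j - 3) ∧ L ≤ (n + Q - k - 3) ∧ L ≤ (n - l - 3) ∧ L ≤ (n + i - k - 2) ∧ L ≤ (n - l2 - 3) ∧ L ≤ (n + i3 - Q - 2) ∧ L ≤ (i2 + l2 - 1) ∧ L ≤ (n + i2 - k - l - 3) ∧ L ≤ (Q + i2 + l2 - i - l - 3))
    (bd0 : Bd W n L (j) (i) (k))
    (bd2 : Bd W n L (k + l + l2 - n + 2) (i3) (i2 + l2 + 1))
    (n1 : Nd W (j) (i) (k))
    (n2 : Nd W (i + l + 1) (i2) (k + l + 1))
    (n3 : Nd W (k + l + l2 - n + 2) (i3) (i2 + l2 + 1))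
    (b0 : (2 * l2 + 3) ≤ (n))
    (b1 : (2 * Q + i2 + l2) ≤ (n + i + j + i3))
    (b2 : (j + l + l2 + i3 + 3) ≤ (n))
    (b3 : (i + k + 2 * l + 3) ≤ (Q + i2 + l2))
    (b4 : (n + i + j) ≤ (k + l + l2 + 1))
    (b5 : (Q + i + i2 + 1) ≤ (l + 2 * i3))
    (b6 : (3 * i2 + 2 * l2 + 2) ≤ (n + k + l + i3)) : False := by
  have ev := al.ev
  obtain ⟨y0, y1, y2, y3, y4, y5, y6, y7, y8, y9, y10, y11, y12, y13, y14, y15, y16, y17, y18, y19, y20, y21, y22⟩ := id hy
  have n1p := And.intro n1.p1 n1.p2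
  have n2p := And.intro n2.p1 n2.p2
  have n3p := And.intro n3.p1 n3.p2
  by_cases z73 : (i + 2 * i2 + l2 + 1) ≤ (2 * k + l + i3)
  · exact t2c_28 al hy a1 a2 s1 s2 b tt c u1 u2 D1 D2 mx hL bd0 bd2 n1 n2 n3 (by clear * - b0; omega) (by clear * - b1; omega) (by clear * - b2; omega) (by clear * - b3; omega) (by clear * - b4; omega) (by clear * - b5; omega) (by clear * - b6; omega) (by clear * - z73; omega)
  · have kk1512 : (i2) ≤ (i + l) := by clear * - b6 y13 y14 z73; omega
    have kk1513 : (i + l + 1) ≤ (i2 + l2) := by clear * - y19; omega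
    have kk1514 : (3 * i2 + l2) ≤ (2 * k + 2 * l + i3) := by clear * - b6 y13 y14; omega
    have kk1515 : (2 * k + l + i3) ≤ (i + 2 * i2 + l2) := by clear * - z73; omega
    have kk1516 : (i + l + i2 + l2 + 3) ≤ (n + i3) := by clear * - b0 b1 b3 b4 b6; omega
    have kk1517 : (k + l) ≤ (i2 + l2) := by clear * - y20; omega
    have kk1518 : (n) ≤ (k + l + l2 + 2) := by clear * - y13 y14; omega
    have kk1519 : (i) ≤ (i2) := by clear * - b0 y14 y20 y22; omega
    have kk1520 : (i + l) ≤ (i2 + l2) := by clear * - y19; omega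
    have kk1521 : (i3) ≤ (i2) := by clear * - b0 y14 y20; omega
    have kk1522 : (n + i3) ≤ (2 * i2 + 2 * l2 + 2) := by clear * - b0 b1 b3 b4 b6 y13 y14 z73; linarith
    have r1523 : (i + l - i2 + 1) % 2 = 0 := by clear * - ev n1p n2p n3p; omega
    have r1524 : (2 * k + 2 * l + i3 - 3 * i2 - l2 + 1) % 2 = 0 := by clear * - ev n1p n2p n3p; omega
    clear * - al b c D2 n2 kk1512 kk1513 kk1514 kk1515 kk1516 kk1517 kk1518 kk1519 kk1520 kk1521 kk1522 r1523 r1524
    exact n2.f0 (rEE (cE (qf c al 0 (i + l + 1) (i + k + 2 * l - i2 + 2) (by omega)) (sh al (-1) (i + k + 2 * l - i2 + 2) (i + k + 2 * l - n - i2 + 2) (by omega))) (sh al (-1) (k + l + 1) (k + l - n + 1) (by omega)) (Eq.symm (rotR (i + l - i2 + 1) (2 * k + 2 * l + i3 - 3 * i2 - l2 + 1) (k + l - n + 1) (i + k + 2 * l - n - i2 + 2) (by omega) (fun t h1 h2 => (cE (cE (pb b al (-1) t (t + (n + i - k)) (by omega)) (qf c al 0 (t + (n + i - k)) (t + (n + i + l - i2 + 1)) (by omega))) (sh al (-1)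 (t + (n + i + l - i2 + 1)) (t + (i + l - i2 + 1)) (by omega)))) (fun t h1 h2 => (cE (cE (pb (show Par W (i3 + 1) (n + i3 - i2 - l2 - 1) (2 * i2 + l2 - k - l - i3) from fun t h1 h2 => (cE (sh al (-1) t (t + (-n)) (by omega)) (cE (pb D2 al (-1) (t + (-n)) (t + (i2 + l2 - i3 + 1)) (by omega)) (pb c al 0 (t + (i2 + l2 - i3 + 1)) (t + (2 * i2 + l2 - k - l - i3)) (by omega))))) al (-1) t (t + (n + k + l + i3 - 2 * i2 - l2)) (by omega)) (qf c al 0 (t + (n + k + l + i3 - 2 * i2 - l2)) (t + (n + 2 * k + 2 * l + i3 - 3 * i2 - l2 + 1)) (by omega))) (sh al (-1) (t + (n + 2 * k + 2 * l + i3 - 3 * i2 - l2 + 1)) (t + (2 * k + 2 * l + i3 - 3 * i2 - l2 + 1)) (by omega)))))))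

theorem t2c_26 {W : ℤ → G} {n Q i j k l i2 l2 i3 : ℤ} (al : AL W n Q)
    (hy : (0) ≤ (i) ∧ (i) ≤ (j) ∧ (j + 1) ≤ (Q) ∧ (Q) ≤ (k) ∧ (k + 1) ≤ (n) ∧ (Q) ≤ (i + l + 1) ∧ (k + l + 2) ≤ (n) ∧ (Q) ≤ (i2) ∧ (i2) ≤ (i + l + 1) ∧ (Q) ≤ (i2 + l2 + 1) ∧ (i2 + l2 + 2) ≤ (n) ∧ (n) ≤ (k + l + l2 + 2) ∧ (k + l + l2 + 3) ≤ (n + Q) ∧ (0) ≤ (i3) ∧ (n + i3) ≤ (k + l + l2 + 2) ∧ (k + i2 + l2 + 2) ≤ (n + j + i3) ∧ (j + i3 + 1) ≤ (k) ∧ (k + i2 + l2 + 2) ≤ (n + i3) ∧ (i + 2 * i2 + 1) ≤ (2 * Q + k) ∧ (i + l + 1) ≤ (i2 + l2) ∧ (k + l + 1) ≤ (i2 + l2) ∧ (2 * k + 2 * l + 3) ≤ (n + i2) ∧ (i + 1) ≤ (i3))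
    (a1 : Par W (0) (j) (k - j))
    (a2 : Par W (Q + j - k) (j) (k - j))
    (s1 : Ant W (0) (i) (i + j))
    (s2 : Ant W (j + 1) (Q) (i + j))
    (b : Par W (i + 1) (i + l + 1) (k - i))
    (tt : Ant W (Q) (i2) (i + l + i2 + 1))
    (c : Par W (i2 + 1) (i2 + l2 + 1) (k + l - i2 + 1))
    (u1 : Ant W (0) (i3) (k + l + l2 + i3 - n + 2))
    (u2 : Ant W (k + l + l2 - n + 3) (Q) (k + l + l2 + i3 - n + 2))
    (D1 : Par W (i3 + 1) (Q) (i2 + l2 - i3 + 1))
    (D2 : Par W (i2 + l2 + 2) (n) (i3 - i2 - l2 - 1))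
    {L : ℤ} (mx : ∀ a b g, 0 < g → g < n → Par W a b g → b - a ≤ L)
    (hL : L ≤ (n - j - 3) ∧ L ≤ (n + Q - k - 3) ∧ L ≤ (n - l - 3) ∧ L ≤ (n + i - k - 2) ∧ L ≤ (n - l2 - 3) ∧ L ≤ (n + i3 - Q - 2) ∧ L ≤ (i2 + l2 - 1) ∧ L ≤ (n + i2 - k - l - 3) ∧ L ≤ (Q + i2 + l2 - i - l - 3))
    (bd0 : Bd W n L (j) (i) (k))
    (bd2 : Bd W n L (k + l + l2 - n + 2) (i3) (i2 + l2 + 1))
    (n1 : Nd W (j) (i) (k))
    (n2 : Nd W (i + l + 1) (i2) (k + l + 1))
    (n3 : Nd W (k + l + l2 - n + 2) (i3) (i2 + l2 + 1))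
    (b0 : (2 * l2 + 3) ≤ (n))
    (b1 : (2 * Q + i2 + l2) ≤ (n + i + j + i3))
    (b2 : (j + l + l2 + i3 + 3) ≤ (n))
    (b3 : (i + k + 2 * l + 3) ≤ (Q + i2 + l2))
    (b4 : (n + i + j) ≤ (k + l + l2 + 1))
    (b5 : (Q + i + i2 + 1) ≤ (l + 2 * i3))
    (b6 : (3 * i2 + l2) ≤ (2 * k + 2 * l + i3)) : False := by
  have ev := al.ev
  obtain ⟨y0, y1, y2, y3, y4, y5, y6, y7, y8, y9, y10, y11, y12, y13, y14, y15, y16, y17, y18, y19, y20, y21, y22⟩ := id hy
  have n1p := And.intro n1.p1 n1.p2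
  have n2p := And.intro n2.p1 n2.p2
  have n3p := And.intro n3.p1 n3.p2
  by_cases z72 : (n + k + l + i3) ≤ (3 * i2 + 2 * l2 + 1)
  · have kk1160 : (3 * i2 + l2) ≤ (2 * k + 2 * l + i3) := by clear * - b6; omega
    have kk1161 : (2 * k + 2 * l + i3 + 2) ≤ (n + 3 * i2 + l2) := by clear * - b0 b2 b6 y15 y21 z72; omega
    have kk1162 : (2 * k + 2 * l + 3) ≤ (n + i2) := by clear * - y21; omega
    have kk1163 : (i3) ≤ (i2) := by clear * - b0 b6 y14 y21 z72; omega
    have kk1164 : (i2) ≤ (k + l + 1) := by clear * - b2 b6 y15 z72; omega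
    have kk1165 : (n + i3) ≤ (2 * i2 + 2 * l2 + 2) := by clear * - b2 b6 y15 z72; omega
    have kk1166 : (n + k + l + i3) ≤ (3 * i2 + 2 * l2 + 1) := by clear * - z72; omega
    clear * - al c D2 kk1160 kk1161 kk1162 kk1163 kk1164 kk1165 kk1166
    exact al.ubP (2 * k + 2 * l + i3 - 3 * i2 - l2 + 1) (by omega) (by omega) fun t h1 h2 => (cE (cE (cE (qf D2 al (-1) t (t + (n + i3 - i2 - l2 - 1)) (by omega)) (qf c al 0 (t + (n + i3 - i2 - l2 - 1)) (t + (n + k + l + i3 - 2 * i2 - l2)) (by omega))) (qf c al 0 (t + (n + k + l + i3 - 2 * i2 - l2)) (t + (n + 2 * k + 2 * l + i3 - 3 * i2 - l2 + 1)) (by omega))) (sh al (-1) (t + (n + 2 * k + 2 * l + i3 - 3 * i2 - l2 + 1)) (t + (2 * k + 2 * l + i3 - 3 * i2 - l2 + 1)) (by omega)))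
  · exact t2c_27 al hy a1 a2 s1 s2 b tt c u1 u2 D1 D2 mx hL bd0 bd2 n1 n2 n3 (by clear * - b0; omega) (by clear * - b1; omega) (by clear * - b2; omega) (by clear * - b3; omega) (by clear * - b4; omega) (by clear * - b5; omega) (by clear * - z72; omega)

theorem t2c_25 {W : ℤ → G} {n Q i j k l i2 l2 i3 : ℤ} (al : AL W n Q)
    (hy : (0) ≤ (i) ∧ (i) ≤ (j) ∧ (j + 1) ≤ (Q) ∧ (Q) ≤ (k) ∧ (k + 1) ≤ (n) ∧ (Q) ≤ (i + l + 1) ∧ (k + l + 2) ≤ (n) ∧ (Q) ≤ (i2) ∧ (i2) ≤ (i + l + 1) ∧ (Q) ≤ (i2 + l2 + 1) ∧ (i2 + l2 + 2) ≤ (n) ∧ (n) ≤ (k + l + l2 + 2) ∧ (k + l + l2 + 3) ≤ (n + Q) ∧ (0) ≤ (i3) ∧ (n + i3) ≤ (k + l + l2 + 2) ∧ (k + i2 + l2 + 2) ≤ (n + j + i3) ∧ (j + i3 + 1) ≤ (k) ∧ (k + i2 + l2 + 2) ≤ (n + i3) ∧ (i + 2 * i2 + 1) ≤ (2 * Q + k) ∧ (i + l + 1) ≤ (i2 + l2) ∧ (k + l + 1) ≤ (i2 + l2) ∧ (2 * k + 2 * l + 3) ≤ (n + i2) ∧ (i + 1) ≤ (i3))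
    (a1 : Par W (0) (j) (k - j))
    (a2 : Par W (Q + j - k) (j) (k - j))
    (s1 : Ant W (0) (i) (i + j))
    (s2 : Ant W (j + 1) (Q) (i + j))
    (b : Par W (i + 1) (i + l + 1) (k - i))
    (tt : Ant W (Q) (i2) (i + l + i2 + 1))
    (c : Par W (i2 + 1) (i2 + l2 + 1) (k + l - i2 + 1))
    (u1 : Ant W (0) (i3) (k + l + l2 + i3 - n + 2))
    (u2 : Ant W (k + l + l2 - n + 3) (Q) (k + l + l2 + i3 - n + 2))
    (D1 : Par W (i3 + 1) (Q) (i2 + l2 - i3 + 1))
    (D2 : Par W (i2 + l2 + 2) (n) (i3 - i2 - l2 - 1))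
    {L : ℤ} (mx : ∀ a b g, 0 < g → g < n → Par W a b g → b - a ≤ L)
    (hL : L ≤ (n - j - 3) ∧ L ≤ (n + Q - k - 3) ∧ L ≤ (n - l - 3) ∧ L ≤ (n + i - k - 2) ∧ L ≤ (n - l2 - 3) ∧ L ≤ (n + i3 - Q - 2) ∧ L ≤ (i2 + l2 - 1) ∧ L ≤ (n + i2 - k - l - 3) ∧ L ≤ (Q + i2 + l2 - i - l - 3))
    (bd0 : Bd W n L (j) (i) (k))
    (bd2 : Bd W n L (k + l + l2 - n + 2) (i3) (i2 + l2 + 1))
    (n1 : Nd W (j) (i) (k))
    (n2 : Nd W (i + l + 1) (i2) (k + l + 1))
    (n3 : Nd W (k + l + l2 - n + 2) (i3) (i2 + l2 + 1))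
    (b0 : (2 * l2 + 3) ≤ (n))
    (b1 : (2 * Q + i2 + l2) ≤ (n + i + j + i3))
    (b2 : (2 * i + l + i2 + 2) ≤ (2 * Q + k))
    (b3 : (j + l + l2 + i3 + 3) ≤ (n))
    (b4 : (i + k + 2 * l + 3) ≤ (Q + i2 + l2))
    (b5 : (n + i + j) ≤ (k + l + l2 + 1))
    (b6 : (Q + i + i2 + 1) ≤ (l + 2 * i3)) : False := by
  have ev := al.ev
  obtain ⟨y0, y1, y2, y3, y4, y5, y6, y7, y8, y9, y10, y11, y12, y13, y14, y15, y16, y17, y18, y19, y20, y21, y22⟩ := id hy
  have n1p := And.intro n1.p1 n1.p2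
  have n2p := And.intro n2.p1 n2.p2
  have n3p := And.intro n3.p1 n3.p2
  by_cases z71 : (3 * i2 + l2) ≤ (2 * k + 2 * l + i3)
  · exact t2c_26 al hy a1 a2 s1 s2 b tt c u1 u2 D1 D2 mx hL bd0 bd2 n1 n2 n3 (by clear * - b0; omega) (by clear * - b1; omega) (by clear * - b3; omega) (by clear * - b4; omega) (by clear * - b5; omega) (by clear * - b6; omega) (by clear * - z71; omega)
  · by_cases v63 : (k) ≤ (i2)
    · by_cases v64 : (i + 2 * i2 + l2) ≤ (Q + 2 * k + l)
      · have kk1525 : (3 * k + 2 * l + 3) ≤ (n + i + 2 * i2) := by clear * - v63 y0 y21; omega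
        have kk1526 : (3 * k + 2 * l + 4) ≤ (n + i + 2 * i2) := by clear * - b1 b3 b4 v63 y0 y14 y17; linarith
        have kk1527 : (5 * k + 4 * l + 4) ≤ (n + i + 4 * i2 + 2 * l2) := by clear * - b1 b3 b4 b6 v64 y13 y8 z71; linarith
        have kk1528 : (7 * k + 4 * l + 2 * i3 + 4) ≤ (n + 3 * i + 6 * i2 + 2 * l2) := by clear * - v63 y0 y14 y21; omega
        have kk1529 : (i2) ≤ (k + l + 1) := by clear * - b1 b3 v63 y13 y14 y18; omega
        have kk1530 : (k) ≤ (i2) := by clear * - v63; omega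
        have kk1531 : (2 * i2 + l2) ≤ (2 * k + 2 * l + 1) := by clear * - b1 b3 v63 v64 y13 y14 y8; linarith
        have kk1532 : (i + i2) ≤ (k + i3) := by clear * - b1 b4 b5 v64 y13; omega
        have kk1533 : (i + 2 * i2 + l2) ≤ (Q + 2 * k + l) := by clear * - v64; omega
        have r1534 : (n + k + l + l2 + i3 + 2) % 2 = 0 := by clear * - ev n1p n2p n3p; omega
        have r1535 : (n + i + 2 * i2 - 3 * k - 2 * l - 2) % 2 = 0 := by clear * - ev n1p n2p n3p; omega
        clear * - al b c u2 kk1525 kk1526 kk1527 kk1528 kk1529 kk1530 kk1531 kk1532 kk1533 r1534 r1535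
        exact midP al (n + i + 2 * i2 - 3 * k - 2 * l - 2) (n + k + l + l2 + i3 + 2) (3 * k + 2 * l + i3 - i - 2 * i2 + 3) (2 * k + 2 * l - i2 + 3) (n + i + 2 * i2 + l2 - 2 * k - l) (by omega) (fun t h1 h2 => (cE (ab u2 al 1 t ((k + l + l2 + i3 + 2) - t) (by omega)) (sh al 1 ((k + l + l2 + i3 + 2) - t) ((n + k + l + l2 + i3 + 2) - t) (by omega)))) (fun t h1 h2 => (cE (cE (cE (pb c al 0 t (t + (i2 - k - l - 1)) (by omega)) (pb c al 0 (t + (i2 - k - l - 1)) (t + (2 * i2 - 2 * k - 2 * l - 2)) (by omega))) (pb b al 0 (t + (2 * i2 - 2 * k - 2 * l - 2)) (t + (i + 2 * i2 - 3 * k - 2 * l - 2)) (by omega))) (sh al 1 (t + (i + 2 * i2 - 3 * k - 2 * l - 2)) (t + (n + i + 2 * i2 - 3 * k - 2 * l - 2)) (by omega))))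
      · have kk1536 : (3 * k + 2 * l + 3) ≤ (n + i + 2 * i2) := by clear * - b0 v64 y18; omega
        have kk1537 : (i + 2 * i2 + 2 * l2 + 4) ≤ (n + 2 * Q + k) := by clear * - b0 y18; omega
        have kk1538 : (i + k + 2 * l + 4) ≤ (n + 2 * Q) := by clear * - b0 y18 y20; omega
        have kk1539 : (3 * k + 2 * l + 2 * i3 + 4) ≤ (n + 2 * Q + i + 2 * i2) := by clear * - b0 v64 y14 y18; omega
        have kk1540 : (i2) ≤ (k + l + 1) := by clear * - b1 b3 v63 y13 y14 y18; omega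
        have kk1541 : (k) ≤ (i2) := by clear * - v63; omega
        have kk1542 : (2 * i2 + l2) ≤ (2 * k + 2 * l + 1) := by clear * - b0 b1 b2 b5 y13 y14 y8; linarith
        have kk1543 : (i + i2) ≤ (k + i3) := by clear * - b1 b2 b5 y13; omega
        have kk1544 : (Q + 2 * k + l) ≤ (i + 2 * i2 + l2) := by clear * - v64; omega
        have r1545 : (n + k + l + l2 + i3 + 2) % 2 = 0 := by clear * - ev n1p n2p n3p; omega
        have r1546 : (n + i + 2 * i2 - 3 * k - 2 * l - 2) % 2 = 0 := by clear * - ev n1p n2p n3p; omega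
        clear * - al b c u2 kk1536 kk1537 kk1538 kk1539 kk1540 kk1541 kk1542 kk1543 kk1544 r1545 r1546
        exact midP al (n + i + 2 * i2 - 3 * k - 2 * l - 2) (n + k + l + l2 + i3 + 2) (k + l + l2 + i3 - Q + 3) (2 * k + 2 * l - i2 + 3) (n + i + 2 * i2 + l2 - 2 * k - l) (by omega) (fun t h1 h2 => (cE (ab u2 al 1 t ((k + l + l2 + i3 + 2) - t) (by omega)) (sh al 1 ((k + l + l2 + i3 + 2) - t) ((n + k + l + l2 + i3 + 2) - t) (by omega)))) (fun t h1 h2 => (cE (cE (cE (pb c al 0 t (t + (i2 - k - l - 1)) (by omega)) (pb c al 0 (t + (i2 - k - l - 1)) (t + (2 * i2 - 2 * k - 2 * l - 2)) (by omega))) (pb b al 0 (t + (2 * i2 - 2 * k - 2 * l - 2)) (t + (i + 2 * i2 - 3 * k - 2 * l - 2)) (by omega))) (sh al 1 (t + (i + 2 * i2 - 3 * k - 2 * l - 2)) (t + (n + i + 2 * i2 - 3 * k - 2 * l - 2)) (by omega))))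
    · by_cases v65 : (i + 2 * i2 + l2) ≤ (Q + 2 * k + l)
      · have kk1547 : (3 * k + 2 * l + 3) ≤ (n + i + 2 * i2) := by clear * - y0 y17 z71; omega
        have kk1548 : (3 * k + 2 * l + 4) ≤ (n + i + 2 * i2) := by clear * - y0 y17 z71 ev n1p n2p n3p; omega
        have kk1549 : (7 * k + 4 * l + 4) ≤ (n + i + 6 * i2 + 2 * l2) := by clear * - b0 b4 b6 y13 y8 z71; omega
        have kk1550 : (7 * k + 4 * l + 2 * i3 + 4) ≤ (n + 3 * i + 6 * i2 + 2 * l2) := by clear * - y0 y14 y17 z71; omega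
        have kk1551 : (i2) ≤ (k + l + 1) := by clear * - b0 v63 y13 y14 y17 z71; omega
        have kk1552 : (i2) ≤ (k) := by clear * - v63; omega
        have kk1553 : (2 * i2 + l2) ≤ (2 * k + 2 * l + 1) := by clear * - b0 v63 y13 y14 y17; omega
        have kk1554 : (i) ≤ (i3) := by clear * - y22; omega
        have kk1555 : (i + 2 * i2 + l2) ≤ (Q + 2 * k + l) := by clear * - v65; omega
        have r1556 : (n + k + l + l2 + i3 + 2) % 2 = 0 := by clear * - ev n1p n2p n3p; omega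
        have r1557 : (n + i + 2 * i2 - 3 * k - 2 * l - 2) % 2 = 0 := by clear * - ev n1p n2p n3p; omega
        clear * - al b c u2 kk1547 kk1548 kk1549 kk1550 kk1551 kk1552 kk1553 kk1554 kk1555 r1556 r1557
        exact midP al (n + i + 2 * i2 - 3 * k - 2 * l - 2) (n + k + l + l2 + i3 + 2) (3 * k + 2 * l + i3 - i - 2 * i2 + 3) (3 * k + 2 * l - 2 * i2 + 3) (n + i + 2 * i2 + l2 - 2 * k - l) (by omega) (fun t h1 h2 => (cE (ab u2 al 1 t ((k + l + l2 + i3 + 2) - t) (by omega)) (sh al 1 ((k + l + l2 + i3 + 2) - t) ((n + k + l + l2 + i3 + 2) - t) (by omega)))) (fun t h1 h2 => (cE (cE (cE (pb c al 0 t (t + (i2 - k - l - 1)) (by omega)) (pb c al 0 (t + (i2 - k - l - 1)) (t + (2 * i2 - 2 * k - 2 * l - 2)) (by omega))) (pb b al 0 (t + (2 * i2 - 2 * k - 2 * l - 2)) (t + (i + 2 * i2 - 3 * k - 2 * l - 2)) (by omega))) (sh al 1 (t + (i + 2 * i2 - 3 * k - 2 * l - 2)) (t + (n + i + 2 * i2 - 3 * k - 2 * l - 2)) (by omega))))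
      · have kk1558 : (3 * k + 2 * l + 3) ≤ (n + i + 2 * i2) := by clear * - b0 v65 y18; omega
        have kk1559 : (i + 2 * i2 + 2 * l2 + 4) ≤ (n + 2 * Q + k) := by clear * - b0 y18; omega
        have kk1560 : (i + 3 * k + 2 * l + 4) ≤ (n + 2 * Q + 2 * i2) := by clear * - b0 v65 y14 y18 y22; omega
        have kk1561 : (3 * k + 2 * l + 2 * i3 + 4) ≤ (n + 2 * Q + i + 2 * i2) := by clear * - b0 v65 y14 y18; omega
        have kk1562 : (i2) ≤ (k + l + 1) := by clear * - b0 b6 v63 v65 y13 y14 y18; linarith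
        have kk1563 : (i2) ≤ (k) := by clear * - v63; omega
        have kk1564 : (2 * i2 + l2) ≤ (2 * k + 2 * l + 1) := by clear * - b0 v63 y13 y14 y17; omega
        have kk1565 : (i) ≤ (i3) := by clear * - y22; omega
        have kk1566 : (Q + 2 * k + l) ≤ (i + 2 * i2 + l2) := by clear * - v65; omega
        have r1567 : (n + k + l + l2 + i3 + 2) % 2 = 0 := by clear * - ev n1p n2p n3p; omega
        have r1568 : (n + i + 2 * i2 - 3 * k - 2 * l - 2) % 2 = 0 := by clear * - ev n1p n2p n3p; omega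
        clear * - al b c u2 kk1558 kk1559 kk1560 kk1561 kk1562 kk1563 kk1564 kk1565 kk1566 r1567 r1568
        exact midP al (n + i + 2 * i2 - 3 * k - 2 * l - 2) (n + k + l + l2 + i3 + 2) (k + l + l2 + i3 - Q + 3) (3 * k + 2 * l - 2 * i2 + 3) (n + i + 2 * i2 + l2 - 2 * k - l) (by omega) (fun t h1 h2 => (cE (ab u2 al 1 t ((k + l + l2 + i3 + 2) - t) (by omega)) (sh al 1 ((k + l + l2 + i3 + 2) - t) ((n + k + l + l2 + i3 + 2) - t) (by omega)))) (fun t h1 h2 => (cE (cE (cE (pb c al 0 t (t + (i2 - k - l - 1)) (by omega)) (pb c al 0 (t + (i2 - k - l - 1)) (t + (2 * i2 - 2 * k - 2 * l - 2)) (by omega))) (pb b al 0 (t + (2 * i2 - 2 * k - 2 * l - 2)) (t + (i + 2 * i2 - 3 * k - 2 * l - 2)) (by omega))) (sh al 1 (t + (i + 2 * i2 - 3 * k - 2 * l - 2)) (t + (n + i + 2 * i2 - 3 * k - 2 * l - 2)) (by omega))))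

end Pool.Agent.MP_a38735_al.WL
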