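import Pool.Agent.MP_a38735_al.WT

set_option autoImplicit false
set_option linter.unusedVariables false

namespace Pool.Agent.MP_a38735_al.WL

variable {G : Type*} [Group G]

theorem t2c_38 {W : ℤ → G} {n Q i j k l i2 l2 i3 : ℤ} (al : AL W n Q)
    (hy : (0) ≤ (i) ∧ (i) ≤ (j) ∧ (j + 1) ≤ (Q) ∧ (Q) ≤ (k) ∧ (k + 1) ≤ (n) ∧ (Q) ≤ (i + l + 1) ∧ (k + l + 2) ≤ (n) ∧ (Q) ≤ (i2) ∧ (i2) ≤ (i + l + 1) ∧ (Q) ≤ (i2 + l2 + 1) ∧ (i2 + l2 + 2) ≤ (n) ∧ (n) ≤ (k + l + l2 + 2) ∧ (k + l + l2 + 3) ≤ (n + Q) ∧ (0) ≤ (i3) ∧ (n + i3) ≤ (k + l + l2 + 2) ∧ (k + i2 + l2 + 2) ≤ (n + j + i3) ∧ (j + i3 + 1) ≤ (k) ∧ (k + i2 + l2 + 2) ≤ (n + i3) ∧ (i + 2 * i2 + 1) ≤ (2 * Q + k) ∧ (i + l + 1) ≤ (i2 + l2) ∧ (k + l + 1) ≤ (i2 + l2) ∧ (2 * k + 2 * l + 3) ≤ (n + i2) ∧ (i + 1) ≤ (i3))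
    (a1 : Par W (0) (j) (k - j))
    (a2 : Par W (Q + j - k) (j) (k - j))
    (s1 : Ant W (0) (i) (i + j))
    (s2 : Ant W (j + 1) (Q) (i + j))
    (b : Par W (i + 1) (i + l + 1) (k - i))
    (tt : Ant W (Q) (i2) (i + l + i2 + 1))
    (c : Par W (i2 + 1) (i2 + l2 + 1) (k + l - i2 + 1))
    (u1 : Ant W (0) (i3) (k + l + l2 + i3 - n + 2))
    (u2 : Ant W (k + l + l2 - n + 3) (Q) (k + l + l2 + i3 - n + 2))
    (D1 : Par W (i3 + 1) (Q) (i2 + l2 - i3 + 1))
    (D2 : Par W (i2 + l2 + 2) (n) (i3 - i2 - l2 - 1))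
    {L : ℤ} (mx : ∀ a b g, 0 < g → g < n → Par W a b g → b - a ≤ L)
    (hL : L ≤ (n - j - 3) ∧ L ≤ (n + Q - k - 3) ∧ L ≤ (n - l - 3) ∧ L ≤ (n + i - k - 2) ∧ L ≤ (n - l2 - 3) ∧ L ≤ (n + i3 - Q - 2) ∧ L ≤ (i2 + l2 - 1) ∧ L ≤ (n + i2 - k - l - 3) ∧ L ≤ (Q + i2 + l2 - i - l - 3))
    (bd0 : Bd W n L (j) (i) (k))
    (bd2 : Bd W n L (k + l + l2 - n + 2) (i3) (i2 + l2 + 1))
    (n1 : Nd W (j) (i) (k))
    (n2 : Nd W (i + l + 1) (i2) (k + l + 1))
    (n3 : Nd W (k + l + l2 - n + 2) (i3) (i2 + l2 + 1))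
    (b0 : (2 * l2 + 3) ≤ (n))
    (b1 : (j + l + l2 + i3 + 3) ≤ (n))
    (b2 : (i + k + 2 * l + 3) ≤ (Q + i2 + l2))
    (b3 : (2 * Q + k + 2 * i2 + l2) ≤ (n + i + j + l + 3 * i3 + 1))
    (b4 : (j + i2) ≤ (l + 2 * i3 + 1))
    (b5 : (k + 2 * l + i3 + 2) ≤ (2 * i2 + l2))
    (b6 : (2 * i2 + 2 * l2 + 4) ≤ (n + j + k))
    (b7 : (i + l + 2) ≤ (k))
    (b8 : (2 * i2 + l2) ≤ (j + k + 2 * l + 2))
    (b9 : (2 * i2 + l2 + i3) ≤ (Q + i + k + 2 * l + 1))
    (b10 : (n + 2 * i3) ≤ (i + k + l + l2 + 1)) : False := by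
  have ev := al.ev
  obtain ⟨y0, y1, y2, y3, y4, y5, y6, y7, y8, y9, y10, y11, y12, y13, y14, y15, y16, y17, y18, y19, y20, y21, y22⟩ := id hy
  have n1p := And.intro n1.p1 n1.p2
  have n2p := And.intro n2.p1 n2.p2
  have n3p := And.intro n3.p1 n3.p2
  by_cases z97 : (i2 + l2 + i3) ≤ (Q + k + l)
  · by_cases z98 : (k + i2 + l2 + 1) ≤ (n + i)
    · have kk1759 : (k + l + 1) ≤ (i2 + l2) := by clear * - b4 b5 b8; omega
      have kk1760 : (i2) ≤ (k + l) := by clear * - b0 b10 b4 b5 b7 b8; omega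
      have kk1761 : (i + 1) ≤ (k) := by clear * - b0 b10 b4 b5 b7 b8 y22; linarith
      have kk1762 : (0) ≤ (l) := by clear * - b0 b10 b4 b5 b8 y22; omega
      have kk1763 : (i + 1) ≤ (i3) := by clear * - y22; omega
      have kk1764 : (i3) ≤ (k + l) := by clear * - b0 b10 b4 b5 b7 b8 y22; linarith
      have kk1765 : (i + k + l + 1) ≤ (2 * i2 + l2) := by clear * - b0 b10 b4 b5 b8 y22; omega
      have kk1766 : (2 * i2 + l2) ≤ (2 * k + 2 * l) := by clear * - b0 b10 b4 b5 b7 b8; omega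
      have kk1767 : (i2 + l2 + i3) ≤ (Q + k + l) := by clear * - z97; omega
      have kk1768 : (k + i2 + l2 + 1) ≤ (n + i) := by clear * - z98; omega
      have kk1769 : (k + l) ≤ (i2 + l2) := by clear * - b4 b5 b8; omega
      have kk1770 : (n) ≤ (k + l + l2 + 2) := by clear * - b10 y13 y22; omega
      have kk1771 : (Q + i2) ≤ (k + l + i3 + 1) := by clear * - b0 b10 b3 b4 b5 b7 y22 z97; linarith
      have kk1772 : (0) ≤ (i3) := by clear * - y13; omega
      have kk1773 : (i) ≤ (i3) := by clear * - y22; omega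
      have kk1774 : (i + k + l) ≤ (2 * i2 + l2) := by clear * - b0 b10 b4 b5 b8 y22; omega
      have kk1775 : (2 * k + 2 * l + 2) ≤ (n + i2) := by clear * - b5 y22 z98; omega
      have kk1776 : (k + l + i3) ≤ (2 * i2 + l2) := by clear * - b0 b10 b4 b5 b8 y22; omega
      have kk1777 : (2 * i3) ≤ (i + i2) := by clear * - b0 b10 b4 b5 b8; omega
      have kk1778 : (Q + i + i2) ≤ (k + l + 2 * i3 + 1) := by clear * - b0 b10 b3 b4 b5 b7 y22 z97; linarith
      have kk1779 : (n + i3) ≤ (k + l + i2 + l2 + 2) := by clear * - b0 b10 b5 y13 y22 z98; omega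
      have kk1780 : (n + i) ≤ (k + l + l2 + i3 + 2) := by clear * - b10 y13 y22; omega
      have r1781 : (2 * i2 + l2 - k - l - i3) % 2 = 0 := by clear * - ev n1p n2p n3p; omega
      have r1782 : (k - i) % 2 = 0 := by clear * - ev n1p n2p n3p; omega
      have r1783 : (k + l + 2 * i3 - 2 * n - i2 + 1) % 2 = 0 := by clear * - ev n1p n2p n3p; omega
      clear * - al b c u2 D2 n3 kk1759 kk1760 kk1761 kk1762 kk1763 kk1764 kk1765 kk1766 kk1767 kk1768 kk1769 kk1770 kk1771 kk1772 kk1773 kk1774 kk1775 kk1776 kk1777 kk1778 kk1779 kk1780 r1781 r1782 r1783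
      exact ivt al.ninv (i - n + 1) (i + l - n + 1) (k - i) (i3 - n + 1) (2 * k + 2 * l + i3 - n - 2 * i2 - l2 + 1) (2 * i2 + l2 - k - l - i3) (i3 - n) (2 * i2 + l2 - n - k - l) 0 (fun t h1 h2 => (cE (qf b al (-1) t (t + (n + k - i)) (by omega)) (sh al (-1) (t + (n + k - i)) (t + (k - i)) (by omega)))) (fun t h1 h2 => (cE (qf (show Par W (i3 + 1) (n + i3 - i2 - l2 - 1) (2 * i2 + l2 - k - l - i3) from fun t h1 h2 => (cE (sh al (-1) t (t + (-n)) (by omega)) (cE (pb D2 al (-1) (t + (-n)) (t + (i2 + l2 - i3 + 1)) (by omega)) (pb c al 0 (t + (i2 + l2 - i3 + 1)) (t + (2 * i2 + l2 - k - l - i3)) (by omega))))) al (-1) t (t + (n + 2 * i2 + l2 - k - l - i3)) (by omega)) (sh al (-1) (t + (n + 2 * i2 + l2 - k - l - i3)) (t + (2 * i2 + l2 - k - l - i3)) (by omega)))) (fun hh => n3.f1 (rEE (sh al (-1) (i3) (i3 - n) (by omega)) (cE (pb c al 0 (i2 + l2 + 1) (2 * i2 + l2 - k - l) (by omega)) (sh al (-1) (2 * i2 + l2 - k - l)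 (2 * i2 + l2 - n - k - l) (by omega))) (Eq.symm hh))) (by omega) (k + l + 2 * i3 - n - Q - i2 + 2) (i3 - i2 - l2 - 1) (k + l + 2 * i3 - 2 * n - i2 + 1) 0 0 (fun t h1 h2 => (cE (cI (pb D2 al (-1) t (t + (n + i2 + l2 - i3 + 1)) (by omega)) (ab u2 al 1 (t + (n + i2 + l2 - i3 + 1)) ((k + l + 2 * i3 - n - i2 + 1) - t) (by omega))) (sh al (-1) ((k + l + 2 * i3 - n - i2 + 1) - t) ((k + l + 2 * i3 - 2 * n - i2 + 1) - t) (by omega)))) (by omega)
    · by_cases z99 : (k) ≤ (i + 2 * j)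
      · by_cases z100 : (2 * j + 2) ≤ (i + k)
        · by_cases v72 : (2 * j + 1) ≤ (k)
          · have kk1784 : (k) ≤ (i + 2 * j) := by clear * - z99; omega
            have kk1785 : (k) ≤ (i + 2 * j + 1) := by clear * - z99; omega
            have kk1786 : (2 * j + 1) ≤ (k) := by clear * - v72; omega
            have kk1787 : (i + j + 1) ≤ (k) := by clear * - b1 b4 b5 b8 z98; omega
            have r1788 : (i + 2 * j - 2 * n - k) % 2 = 0 := by clear * - ev n1p n2p n3p; omega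
            clear * - al a1 s1 kk1784 kk1785 kk1786 kk1787 r1788
            obtain ⟨t, ht⟩ : ∃ t, 2 * t = (i + 2 * j - 2 * n - k) := ⟨(i + 2 * j - 2 * n - k) / 2, by omega⟩
            exact al.ninv t (cE (cI (qf a1 al (-1) t (t + (n + k - j)) (by omega)) (ab s1 al 0 (t + (n + k - j)) ((i + 2 * j - n - k) - t) (by omega))) (sh al (-1) ((i + 2 * j - n - k) - t) t (by omega)))
          · have kk1789 : (2 * j + 2) ≤ (i + k) := by clear * - z100; omega
            have kk1790 : (k) ≤ (i + 2 * j + 1) := by clear * - v72 z100; omega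
            have kk1791 : (k) ≤ (2 * j + 1) := by clear * - v72; omega
            have kk1792 : (i + j + 1) ≤ (k) := by clear * - b1 b10 b4 v72 z100 z98; omega
            have r1793 : (i + 2 * j - 2 * n - k) % 2 = 0 := by clear * - ev n1p n2p n3p; omega
            clear * - al a1 s1 kk1789 kk1790 kk1791 kk1792 r1793
            obtain ⟨t, ht⟩ : ∃ t, 2 * t = (i + 2 * j - 2 * n - k) := ⟨(i + 2 * j - 2 * n - k) / 2, by omega⟩
            exact al.ninv t (cE (cI (qf a1 al (-1) t (t + (n + k - j)) (by omega)) (ab s1 al 0 (t + (n + k - j)) ((i + 2 * j - n - k) - t) (by omega))) (sh al (-1) ((i + 2 * j - n - k) - t) t (by omega)))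
        · have kk1794 : (3 * k + 2 * l + 3) ≤ (n + j + 2 * i2) := by clear * - b0 b10 b4 b5 b6 z100; omega
          have kk1795 : (j + 2 * i2 + 2 * l2 + 4) ≤ (n + 2 * Q + k) := by clear * - b4 b5 b6 z97; omega
          have kk1796 : (j + k + 2 * l + 4) ≤ (n + 2 * i3) := by clear * - b4 b5 b6; omega
          have kk1797 : (2 * i2 + 2 * l2 + 4) ≤ (n + j + k) := by clear * - b6; omega
          have kk1798 : (i2) ≤ (k + l + 1) := by clear * - b1 b10 b4 z100 z98 z99; omega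
          have kk1799 : (k) ≤ (j + i2 + 1) := by clear * - b0 b10 b4 b5 b8 z100 z98 z99; linarith
          have kk1800 : (2 * k + l) ≤ (2 * i2 + l2) := by clear * - b0 b10 b4 b5 z100; omega
          have kk1801 : (k) ≤ (i2 + l2 + 1) := by clear * - b0 b10 b4 b5 b7 b8 z100; linarith
          have kk1802 : (k + l) ≤ (i2 + l2) := by clear * - b4 b5 b8; omega
          have kk1803 : (i3) ≤ (j) := by clear * - b5 b8; omega
          have r1804 : (k + l + l2 + i3 - n + 2) % 2 = 0 := by clear * - ev n1p n2p n3p; omega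
          have r1805 : (n + j + 2 * i2 - 3 * k - 2 * l - 2) % 2 = 0 := by clear * - ev n1p n2p n3p; omega
          clear * - al a1 c u2 kk1794 kk1795 kk1796 kk1797 kk1798 kk1799 kk1800 kk1801 kk1802 kk1803 r1804 r1805
          exact midP al (n + j + 2 * i2 - 3 * k - 2 * l - 2) (k + l + l2 + i3 - n + 2) (k + l + l2 - n + 3) (2 * k + 2 * l - n - i2 + 3) (j) (by omega) (fun t h1 h2 => (qa u2 al 0 t ((k + l + l2 + i3 - n + 2) - t) (by omega))) (fun t h1 h2 => (cE (cE (pb c al (-1) t (t + (n + i2 - k - l - 1)) (by omega)) (pb c al 0 (t + (n + i2 - k - l - 1)) (t + (n + 2 * i2 - 2 * k - 2 * l - 2)) (by omega))) (pb a1 al 0 (t + (n + 2 * i2 - 2 * k - 2 * l - 2)) (t + (n + j + 2 * i2 - 3 * k - 2 * l - 2)) (by omega))))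
      · by_cases z101 : (i + 2 * i2 + l2 + 1) ≤ (2 * k + l + i3)
        · by_cases z102 : (2 * k + l + i3 + 1) ≤ (Q + 2 * i2 + l2)
          · by_cases v73 : (2 * i2 + l2) ≤ (2 * k + l)
            · have kk1806 : (i + 2 * i2 + l2 + 1) ≤ (2 * k + l + i3) := by clear * - z101; omega
              have kk1807 : (2 * k + l + i3 + 1) ≤ (n + i + 2 * i2 + l2) := by clear * - b10 b3 b4 b5 v73 z102 z97 z98 z99; linarith
              have kk1808 : (2 * k + l + i3 + 1) ≤ (Q + 2 * i2 + l2) := by clear * - z102; omega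
              have kk1809 : (Q) ≤ (i + l + 1) := by clear * - b0 b10 b3 b4 b5 v73 z102 z98 z99; linarith
              have kk1810 : (k + l) ≤ (i2 + l2) := by clear * - b4 b5 b8; omega
              have kk1811 : (n) ≤ (k + l + l2 + 2) := by clear * - b10 b3 b4 b5 v73 z102 z97 z98; linarith
              have kk1812 : (2 * i2 + l2) ≤ (2 * k + l) := by clear * - v73; omega
              have kk1813 : (2 * k + 2 * l + 2) ≤ (n + i2) := by clear * - y21; omega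
              clear * - al b c D2 kk1806 kk1807 kk1808 kk1809 kk1810 kk1811 kk1812 kk1813
              exact al.ubQ (2 * k + l + i3 - i - 2 * i2 - l2) (by omega) (by omega) fun t h1 h2 => (cE (sh al 1 t (t + (n)) (by omega)) (cE (qf b al 1 (t + (n)) (t + (k - i)) (by omega)) (pb (show Par W (i3 + 1) (n + i3 - i2 - l2 - 1) (2 * i2 + l2 - k - l - i3) from fun t h1 h2 => (cE (sh al (-1) t (t + (-n)) (by omega)) (cE (pb D2 al (-1) (t + (-n)) (t + (i2 + l2 - i3 + 1)) (by omega)) (pb c al 0 (t + (i2 + l2 - i3 + 1)) (t + (2 * i2 + l2 - k - l - i3)) (by omega))))) al 0 (t + (k - i)) (t + (2 * k + l + i3 - i - 2 * i2 - l2)) (by omega))))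
            · have kk1814 : (i + 2 * i2 + l2 + 1) ≤ (2 * k + l + i3) := by clear * - z101; omega
              have kk1815 : (2 * k + l + i3 + 1) ≤ (n + i + 2 * i2 + l2) := by clear * - b10 b3 b4 b5 v73 z101 z97 z98 z99; linarith
              have kk1816 : (i3 + 1) ≤ (Q) := by clear * - b7 b9 v73; omega
              have kk1817 : (Q) ≤ (i + l + 1) := by clear * - b10 b3 b4 b5 v73 z97 z98 z99; linarith
              have kk1818 : (k + l) ≤ (i2 + l2) := by clear * - b10 b4 b6 b7 v73; omega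
              have kk1819 : (n) ≤ (k + l + l2 + 2) := by clear * - b10 b4 b6 v73 z98; omega
              have kk1820 : (2 * k + l) ≤ (2 * i2 + l2) := by clear * - v73; omega
              have kk1821 : (2 * k + 2 * l + 2) ≤ (n + i2) := by clear * - b2 b3 b5 v73 z97 z99; omega
              clear * - al b c D2 kk1814 kk1815 kk1816 kk1817 kk1818 kk1819 kk1820 kk1821
              exact al.ubQ (2 * k + l + i3 - i - 2 * i2 - l2) (by omega) (by omega) fun t h1 h2 => (cE (sh al 1 t (t + (n)) (by omega)) (cE (qf b al 1 (t + (n)) (t + (k - i)) (by omega)) (pb (show Par W (i3 + 1) (n + i3 - i2 - l2 - 1) (2 * i2 + l2 - k - l - i3) from fun t h1 h2 => (cE (sh al (-1) t (t + (-n)) (by omega)) (cE (pb D2 al (-1) (t + (-n)) (t + (i2 + l2 - i3 + 1)) (by omega)) (pb c al 0 (t + (i2 + l2 - i3 + 1)) (t + (2 * i2 + l2 - k - l - i3)) (by omega))))) al 0 (t + (k - i)) (t + (2 * k + l + i3 - i - 2 * i2 - l2)) (by omega))))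
          · have kk1822 : (n + j + l + 2 * i3) ≤ (3 * i2 + 2 * l2) := by clear * - b0 b10 b4 b5 y22; omega
            have kk1823 : (3 * i2 + 2 * l2 + 2) ≤ (2 * n + j + l + 2 * i3) := by clear * - b3 b4 b5 b8 z97 z98 z99; linarith
            have kk1824 : (Q + 3 * i2 + 2 * l2 + 1) ≤ (n + k + l + 2 * i3) := by clear * - y17 z102; omega
            have kk1825 : (i3) ≤ (i2) := by clear * - b0 b10 b4 b5 b8 y22; omega
            have kk1826 : (n + i3) ≤ (2 * i2 + 2 * l2 + 2) := by clear * - b0 b10 b4 b5 b8 z98; omega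
            have kk1827 : (3 * i2 + 2 * l2 + 2) ≤ (n + Q + j + l + i3) := by clear * - b2 b3 z97; omega
            have kk1828 : (k + 2 * i2 + l2 + 2) ≤ (n + Q + j + i3) := by clear * - b2 b3 b4 b5 b8 z97; omega
            have kk1829 : (k + l + i3) ≤ (2 * i2 + l2) := by clear * - b0 b10 b4 b5 b8 y22; omega
            have kk1830 : (0) ≤ (j) := by clear * - b3 b4 b5 b8 z97 z98; omega
            clear * - al a2 c D2 kk1822 kk1823 kk1824 kk1825 kk1826 kk1827 kk1828 kk1829 kk1830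
            exact al.ubQ (3 * i2 + 2 * l2 - n - j - l - 2 * i3 + 1) (by omega) (by omega) fun t h1 h2 => (cE (sh al 1 t (t + (n)) (by omega)) (cE (cE (pb D2 al 1 (t + (n)) (t + (i2 + l2 - i3 + 1)) (by omega)) (qf (show Par W (k + l + 2) (n + k + l + i3 - 2 * i2 - l2) (2 * i2 + l2 - k - l - i3) from fun t h1 h2 => (cE (sh al (-1) t (t + (-n)) (by omega)) (cE (pb c al (-1) (t + (-n)) (t + (i2 - k - l - 1)) (by omega)) (pb D2 al 0 (t + (i2 - k - l - 1)) (t + (2 * i2 + l2 - k - l - i3)) (by omega))))) al 0 (t + (i2 + l2 - i3 + 1)) (t + (3 * i2 + 2 * l2 - k - l - 2 * i3 + 1)) (by omega))) (qf a2 al 1 (t + (3 * i2 + 2 * l2 - k - l - 2 * i3 + 1)) (t + (3 * i2 + 2 * l2 - n - j - l - 2 * i3 + 1)) (by omega))))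
        · have kk1831 : (3 * i2 + l2) ≤ (2 * k + 2 * l + i3) := by clear * - b10 b4 b6 b7 b8; omega
          have kk1832 : (2 * k + 2 * l + i3 + 2) ≤ (n + 3 * i2 + l2) := by clear * - b4 b6 b7 b8 z101 z98 z99; linarith
          have kk1833 : (2 * k + 2 * l + 3) ≤ (n + i2) := by clear * - b2 b3 b7 z101 z97 z98 z99; linarith
          have kk1834 : (i3) ≤ (i2) := by clear * - b4 b6 b8 z101 z98 z99; omega
          have kk1835 : (i2) ≤ (k + l + 1) := by clear * - b10 b4 b6 b7 b8 z101 z98 z99; linarith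
          have kk1836 : (n + k + l + i3) ≤ (3 * i2 + 2 * l2 + 1) := by clear * - z101 z98; omega
          clear * - al c D2 kk1831 kk1832 kk1833 kk1834 kk1835 kk1836
          exact al.ubP (2 * k + 2 * l + i3 - 3 * i2 - l2 + 1) (by omega) (by omega) fun t h1 h2 => (cE (sh al 2 t (t + (2 * n)) (by omega)) (cE (cE (cE (qf D2 al 1 (t + (2 * n)) (t + (n + i3 - i2 - l2 - 1)) (by omega)) (qf c al 0 (t + (n + i3 - i2 - l2 - 1)) (t + (n + k + l + i3 - 2 * i2 - l2)) (by omega))) (qf c al 0 (t + (n + k + l + i3 - 2 * i2 - l2)) (t + (n + 2 * k + 2 * l + i3 - 3 * i2 - l2 + 1)) (by omega))) (sh al (-1) (t + (n + 2 * k + 2 * l + i3 - 3 * i2 - l2 + 1)) (t + (2 * k + 2 * l + i3 - 3 * i2 - l2 + 1)) (by omega))))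
  · by_cases z103 : (2 * k + l + i2 + 2 * l2 + 4) ≤ (2 * n + i)
    · have kk1837 : (i + i2 + 1) ≤ (l + 2 * i3) := by clear * - b9 y22 z97; omega
      have kk1838 : (2 * k + l + i2 + 2 * l2 + 4) ≤ (2 * n + i) := by clear * - z103; omega
      have kk1839 : (i3) ≤ (k) := by clear * - b0 b10 b4 b5 b7 b8; omega
      have kk1840 : (l + 2 * i3 + 1) ≤ (Q + i2) := by clear * - b0 b10 b2; omega
      have kk1841 : (n + i3) ≤ (k + l + i2 + l2 + 2) := by clear * - b0 b10 b5 y13 y22 z103; omega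
      have kk1842 : (0) ≤ (i3) := by clear * - y13; omega
      have r1843 : (i + l + 2 * i3 - i2 + 1) % 2 = 0 := by clear * - ev n1p n2p n3p; omega
      clear * - al b u2 D2 kk1837 kk1838 kk1839 kk1840 kk1841 kk1842 r1843
      obtain ⟨t, ht⟩ : ∃ t, 2 * t = (i + l + 2 * i3 - i2 + 1) := ⟨(i + l + 2 * i3 - i2 + 1) / 2, by omega⟩
      exact al.ninv t (cI (cE (qf b al 0 t (t + (k - i)) (by omega)) (pb D2 al 0 (t + (k - i)) (t + (k + i2 + l2 - i - i3 + 1)) (by omega))) (ab u2 al 1 (t + (k + i2 + l2 - i - i3 + 1)) t (by omega)))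
    · by_cases z104 : (3 * k + 2 * l + 3) ≤ (n + j + 2 * i2)
      · by_cases v74 : (2 * k + l) ≤ (2 * i2 + l2)
        · have kk1844 : (3 * k + 2 * l + 3) ≤ (n + j + 2 * i2) := by clear * - z104; omega
          have kk1845 : (j + 2 * i2 + 2 * l2 + 4) ≤ (n + 2 * Q + k) := by clear * - b0 b10 b2 b4 b6; omega
          have kk1846 : (j + k + 2 * l + 4) ≤ (n + 2 * i3) := by clear * - b4 b5 b6; omega
          have kk1847 : (2 * i2 + 2 * l2 + 4) ≤ (n + j + k) := by clear * - b6; omega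
          have kk1848 : (i2) ≤ (k + l + 1) := by clear * - b1 b10 b4 b6 b7 b8 v74 z103; linarith
          have kk1849 : (Q) ≤ (i2 + 1) := by clear * - b0 b10 y22 z97; omega
          have kk1850 : (2 * k + l) ≤ (2 * i2 + l2) := by clear * - v74; omega
          have kk1851 : (k) ≤ (i2 + l2 + 1) := by clear * - b1 b4 b7 b8 b9 v74 z103 z104 z97; linarith
          have kk1852 : (k + l) ≤ (i2 + l2) := by clear * - b7 b9 v74 z97; omega
          have kk1853 : (i3) ≤ (j) := by clear * - b10 b7 b8 z104; omega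
          have r1854 : (k + l + l2 + i3 - n + 2) % 2 = 0 := by clear * - ev n1p n2p n3p; omega
          have r1855 : (n + j + 2 * i2 - 3 * k - 2 * l - 2) % 2 = 0 := by clear * - ev n1p n2p n3p; omega
          clear * - al a2 c u2 kk1844 kk1845 kk1846 kk1847 kk1848 kk1849 kk1850 kk1851 kk1852 kk1853 r1854 r1855
          exact midP al (n + j + 2 * i2 - 3 * k - 2 * l - 2) (k + l + l2 + i3 - n + 2) (k + l + l2 - n + 3) (2 * k + 2 * l - n - i2 + 3) (j) (by omega) (fun t h1 h2 => (qa u2 al 0 t ((k + l + l2 + i3 - n + 2) - t) (by omega))) (fun t h1 h2 => (cE (cE (pb c al (-1) t (t + (n + i2 - k - l - 1)) (by omega)) (pb c al 0 (t + (n + i2 - k - l - 1)) (t + (n + 2 * i2 - 2 * k - 2 * l - 2)) (by omega))) (pb a2 al 0 (t + (n + 2 * i2 - 2 * k - 2 * l - 2)) (t + (n + j + 2 * i2 - 3 * k - 2 * l - 2)) (by omega))))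
        · have kk1856 : (3 * k + 2 * l + 3) ≤ (n + j + 2 * i2) := by clear * - z104; omega
          have kk1857 : (j + 2 * i2 + 2 * l2 + 4) ≤ (n + 2 * Q + k) := by clear * - b0 b10 b2 b4 v74 z104; omega
          have kk1858 : (j + k + 2 * l + 4) ≤ (n + 2 * i3) := by clear * - b4 b5 v74 z104; omega
          have kk1859 : (3 * k + 2 * l + 4) ≤ (n + j + 2 * i2) := by clear * - z104 ev n1p n2p n3p; omega
          have kk1860 : (i2) ≤ (k + l + 1) := by clear * - b1 b10 b4 b7 b8 v74 z103 z104; linarith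
          have kk1861 : (Q) ≤ (i2 + 1) := by clear * - b0 b10 y22 z97; omega
          have kk1862 : (2 * i2 + l2) ≤ (2 * k + l) := by clear * - v74; omega
          have kk1863 : (k + l) ≤ (i2 + l2) := by clear * - b10 b4 b7 z104; omega
          have kk1864 : (2 * k + l + i3) ≤ (j + 2 * i2 + l2) := by clear * - b10 y22 z104; omega
          have r1865 : (k + l + l2 + i3 - n + 2) % 2 = 0 := by clear * - ev n1p n2p n3p; omega
          have r1866 : (n + j + 2 * i2 - 3 * k - 2 * l - 2) % 2 = 0 := by clear * - ev n1p n2p n3p; omega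
          clear * - al a2 c u2 kk1856 kk1857 kk1858 kk1859 kk1860 kk1861 kk1862 kk1863 kk1864 r1865 r1866
          exact midP al (n + j + 2 * i2 - 3 * k - 2 * l - 2) (k + l + l2 + i3 - n + 2) (k + l + l2 - n + 3) (2 * k + 2 * l - n - i2 + 3) (j + 2 * i2 + l2 - 2 * k - l) (by omega) (fun t h1 h2 => (qa u2 al 0 t ((k + l + l2 + i3 - n + 2) - t) (by omega))) (fun t h1 h2 => (cE (cE (pb c al (-1) t (t + (n + i2 - k - l - 1)) (by omega)) (pb c al 0 (t + (n + i2 - k - l - 1)) (t + (n + 2 * i2 - 2 * k - 2 * l - 2)) (by omega))) (pb a2 al 0 (t + (n + 2 * i2 - 2 * k - 2 * l - 2)) (t + (n + j + 2 * i2 - 3 * k - 2 * l - 2)) (by omega))))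
      · by_cases z105 : (j + k + 2 * l + l2 + i3 + 5) ≤ (n + 2 * Q + i2)
        · by_cases z106 : (n + 2 * i + j + 3 * i2 + l2) ≤ (5 * k + 2 * l + i3 + 1)
          · by_cases v75 : (n + Q + i + 2 * i2) ≤ (3 * k + 2 * l + i3 + 3)
            · have kk1867 : (k + i2 + l2 + 2) ≤ (n + j + i3) := by clear * - b8 z105 z97; omega
              have kk1868 : (j + k + 2 * l + l2 + i3 + 5) ≤ (n + 2 * Q + i2) := by clear * - z105; omega
              have kk1869 : (2 * Q + j + i2 + l2 + 1) ≤ (n + k + 3 * i3) := by clear * - b1 b3 z103 z105; omega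
              have kk1870 : (5 * k + 4 * l + l2 + i3 + 7) ≤ (3 * n + 2 * i + j + 3 * i2) := by clear * - b0 b10 b4 b5 b8 z105 z97; linarith
              have kk1871 : (i3 + 1) ≤ (Q) := by clear * - b0 b10 b2 b4 b8 z97; omega
              have kk1872 : (k + i2 + l2 + 1) ≤ (n + i3) := by clear * - y17; omega
              have kk1873 : (n + i + i2) ≤ (2 * k + l + l2 + 2) := by clear * - b1 b2 b8 b9 v75 z103 z97; linarith
              have kk1874 : (n + i) ≤ (k + l + l2 + 2) := by clear * - b10 y22; omega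
              have kk1875 : (k + l) ≤ (i2 + l2) := by clear * - b4 b5 b8; omega
              have kk1876 : (Q) ≤ (i + l + 1) := by clear * - b0 b10 b4 b5 b8 z97; omega
              have kk1877 : (i3) ≤ (j) := by clear * - b5 b8; omega
              have kk1878 : (n + Q + i + 2 * i2) ≤ (3 * k + 2 * l + i3 + 3) := by clear * - v75; omega
              have r1879 : (2 * n + 3 * k + 2 * l + l2 + i3 - i - i2 + 3) % 2 = 0 := by clear * - ev n1p n2p n3p; omega
              have r1880 : (n + j + i3 - k - i2 - l2 - 1) % 2 = 0 := by clear * - ev n1p n2p n3p; omega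
              clear * - al a2 b c u2 D2 kk1867 kk1868 kk1869 kk1870 kk1871 kk1872 kk1873 kk1874 kk1875 kk1876 kk1877 kk1878 r1879 r1880
              exact midP al (n + j + i3 - k - i2 - l2 - 1) (2 * n + 3 * k + 2 * l + l2 + i3 - i - i2 + 3) (3 * k + 2 * l + l2 - i - i2 + 4) (n + Q + i2 + l2 - i3 + 1) (2 * n + j) (by omega) (fun t h1 h2 => (cE (cI (cE (pb c al 1 t (t + (i2 - n - k - l - 1)) (by omega)) (pb b al 0 (t + (i2 - n - k - l - 1)) (t + (i + i2 - n - 2 * k - l - 1)) (by omega))) (qa u2 al 0 (t + (i + i2 - n - 2 * k - l - 1)) ((3 * k + 2 * l + l2 + i3 - i - i2 + 3) - t) (by omega))) (sh al 2 ((3 * k + 2 * l + l2 + i3 - i - i2 + 3) - t) ((2 * n + 3 * k + 2 * l + l2 + i3 - i - i2 + 3) - t) (by omega)))) (fun t h1 h2 => (cE (qf (show Par W (Q + i2 + l2 - i3 + 1) (k + i2 + l2 - i3 + 1) (n + j + i3 - k - i2 - l2 - 1) from fun t h1 h2 => (cE (sh al (-1) t (t + (-n)) (by omega)) (cE (cE (qf D2 al (-1) (t + (-n))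 (t + (i3 - i2 - l2 - 1)) (by omega)) (pb a2 al 0 (t + (i3 - i2 - l2 - 1)) (t + (j + i3 - k - i2 - l2 - 1)) (by omega))) (sh al 1 (t + (j + i3 - k - i2 - l2 - 1)) (t + (n + j + i3 - k - i2 - l2 - 1)) (by omega))))) al 1 t (t + (j + i3 - k - i2 - l2 - 1)) (by omega)) (sh al 1 (t + (j + i3 - k - i2 - l2 - 1)) (t + (n + j + i3 - k - i2 - l2 - 1)) (by omega))))
            · have kk1881 : (k + i2 + l2 + 2) ≤ (n + j + i3) := by clear * - b8 v75 z106 z97; omega
              have kk1882 : (n + 2 * i + j + 3 * i2 + l2) ≤ (5 * k + 2 * l + i3 + 1) := by clear * - z106; omega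
              have kk1883 : (n + 4 * Q + 2 * i + j + 5 * i2 + l2) ≤ (7 * k + 4 * l + 5 * i3 + 5) := by clear * - b1 b3 z103 z106; omega
              have kk1884 : (2 * Q + i2 + l2 + 1) ≤ (n + j + k + i3) := by clear * - b1 b3 b6 b8 v75 z103 z97; linarith
              have kk1885 : (i3 + 1) ≤ (Q) := by clear * - b1 b2 b8 v75 z103 z104; omega
              have kk1886 : (k + i2 + l2 + 1) ≤ (n + i3) := by clear * - y17; omega
              have kk1887 : (n + i + i2) ≤ (2 * k + l + l2 + 2) := by clear * - b1 b2 b8 v75 z103 z104 z97; linarith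
              have kk1888 : (n + i) ≤ (k + l + l2 + 2) := by clear * - b10 y22; omega
              have kk1889 : (k + l) ≤ (i2 + l2) := by clear * - b4 b5 b8; omega
              have kk1890 : (Q) ≤ (i + l + 1) := by clear * - b0 b10 b4 b5 b8 z97; omega
              have kk1891 : (3 * k + 2 * l + i3 + 3) ≤ (n + Q + i + 2 * i2) := by clear * - v75; omega
              have kk1892 : (3 * k + 2 * l + 2 * i3 + 3) ≤ (n + Q + i + j + 2 * i2) := by clear * - b5 b8 v75; omega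
              have r1893 : (2 * n + 3 * k + 2 * l + l2 + i3 - i - i2 + 3) % 2 = 0 := by clear * - ev n1p n2p n3p; omega
              have r1894 : (n + j + i3 - k - i2 - l2 - 1) % 2 = 0 := by clear * - ev n1p n2p n3p; omega
              clear * - al a2 b c u2 D2 kk1881 kk1882 kk1883 kk1884 kk1885 kk1886 kk1887 kk1888 kk1889 kk1890 kk1891 kk1892 r1893 r1894
              exact midP al (n + j + i3 - k - i2 - l2 - 1) (2 * n + 3 * k + 2 * l + l2 + i3 - i - i2 + 3) (n + Q + i2 + l2 - i3 + 1) (n + Q + i2 + l2 - i3 + 1) (2 * n + j) (by omega) (fun t h1 h2 => (cE (cI (cE (pb c al 1 t (t + (i2 - n - k - l - 1)) (by omega)) (pb b al 0 (t + (i2 - n - k - l - 1)) (t + (i + i2 - n - 2 * k - l - 1)) (by omega))) (qa u2 al 0 (t + (i + i2 - n - 2 * k - l - 1)) ((3 * k + 2 * l + l2 + i3 - i - i2 + 3) - t) (by omega))) (sh al 2 ((3 * k + 2 * l + l2 + i3 - i - i2 + 3) - t) ((2 * n + 3 * k + 2 * l + l2 + i3 - i - i2 + 3) - t) (by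 omega)))) (fun t h1 h2 => (cE (qf (show Par W (Q + i2 + l2 - i3 + 1) (k + i2 + l2 - i3 + 1) (n + j + i3 - k - i2 - l2 - 1) from fun t h1 h2 => (cE (sh al (-1) t (t + (-n)) (by omega)) (cE (cE (qf D2 al (-1) (t + (-n)) (t + (i3 - i2 - l2 - 1)) (by omega)) (pb a2 al 0 (t + (i3 - i2 - l2 - 1)) (t + (j + i3 - k - i2 - l2 - 1)) (by omega))) (sh al 1 (t + (j + i3 - k - i2 - l2 - 1)) (t + (n + j + i3 - k - i2 - l2 - 1)) (by omega))))) al 1 t (t + (j + i3 - k - i2 - l2 - 1)) (by omega)) (sh al 1 (t + (j + i3 - k - i2 - l2 - 1)) (t + (n + j + i3 - k - i2 - l2 - 1)) (by omega))))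
          · have kk1895 : (i + 2 * i2 + l2 + 1) ≤ (2 * k + l + i3) := by clear * - b0 b2 b8 z104 z97; omega
            have kk1896 : (4 * k + 3 * l + l2 + i3 + 6) ≤ (2 * n + 2 * Q + i + 2 * i2) := by clear * - b8 z105 z106 z97; omega
            have kk1897 : (i + 2 * k + l + i3 + 2) ≤ (2 * Q + 2 * i2 + l2) := by clear * - b10 b8 y22 z105 z106 z97; omega
            have kk1898 : (2 * k + 2 * i2 + 3 * l2 + i3 + 4) ≤ (2 * n + 2 * Q + i + 2 * j + l) := by clear * - b8 z105 z106 z97; omega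
            have kk1899 : (n + 2 * Q + j) ≤ (2 * k + l + l2 + i3 + 3) := by clear * - b0 b10 y22 z104 z97; omega
            have kk1900 : (i3) ≤ (j) := by clear * - b5 b8; omega
            have kk1901 : (2 * i2 + l2) ≤ (2 * k + l) := by clear * - b6 z104; omega
            have kk1902 : (i2) ≤ (k) := by clear * - b7 b9 z97; omega
            have kk1903 : (k + l) ≤ (i2 + l2) := by clear * - b4 b5 b8; omega
            have kk1904 : (2 * k + 2 * l + 2) ≤ (n + i2) := by clear * - y21; omega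
            have kk1905 : (n + Q + i + j) ≤ (2 * k + l + l2 + i3 + 2) := by clear * - b0 b10 b8 y22 z104 z105 z97; linarith
            have kk1906 : (Q + 2 * i2 + l2) ≤ (2 * k + 2 * l + i3 + 1) := by clear * - b0 b10 b4 b7 b8 z97; omega
            have r1907 : (2 * k + l + l2 + i3 - n - j + 2) % 2 = 0 := by clear * - ev n1p n2p n3p; omega
            have r1908 : (2 * k + l + i3 - i - 2 * i2 - l2) % 2 = 0 := by clear * - ev n1p n2p n3p; omega
            clear * - al a2 b c u2 D2 kk1895 kk1896 kk1897 kk1898 kk1899 kk1900 kk1901 kk1902 kk1903 kk1904 kk1905 kk1906 r1907 r1908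
            exact midP al (2 * k + l + i3 - i - 2 * i2 - l2) (2 * k + l + l2 + i3 - n - j + 2) (2 * k + l + l2 + i3 - n - Q - j + 3) (i + 1) (2 * k + 2 * l + i3 - 2 * i2 - l2 + 1) (by omega) (fun t h1 h2 => (cI (pb a2 al 0 t (t + (j - k)) (by omega)) (ab u2 al 0 (t + (j - k)) ((2 * k + l + l2 + i3 - n - j + 2) - t) (by omega)))) (fun t h1 h2 => (cE (cE (qf b al 0 t (t + (k - i)) (by omega)) (qf c al 0 (t + (k - i)) (t + (2 * k + l - i - i2 + 1)) (by omega))) (qf D2 al 0 (t + (2 * k + l - i - i2 + 1)) (t + (2 * k + l + i3 - i - 2 * i2 - l2)) (by omega))))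
        · by_cases z107 : (2 * Q + 2 * k + i3) ≤ (2 * i + 3 * i2 + l2 + 1)
          · have kk1909 : (2 * Q + 2 * k + i3) ≤ (2 * i + 3 * i2 + l2 + 1) := by clear * - z107; omega
            have kk1910 : (2 * i + i2 + l2 + 2) ≤ (2 * k + i3) := by clear * - b0 b2 z104 z105; omega
            have kk1911 : (k + l) ≤ (i2 + l2) := by clear * - b4 b5 b8; omega
            have kk1912 : (n) ≤ (k + l + l2 + 2) := by clear * - b9 z103 z97; omega
            have kk1913 : (2 * i2 + l2) ≤ (2 * k + l) := by clear * - b6 z104; omega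
            have kk1914 : (i + 1) ≤ (Q) := by clear * - b0 b10 b2 b4 b9 z104 z105 z107; linarith
            have kk1915 : (2 * k + 2 * l + 2) ≤ (n + i2) := by clear * - y21; omega
            have kk1916 : (i2) ≤ (i + l + 1) := by clear * - b9 z97; omega
            have r1917 : (2 * k + 2 * l + i3 - 2 * n - i2 - l2 + 1) % 2 = 0 := by clear * - ev n1p n2p n3p; omega
            clear * - al b tt c D2 kk1909 kk1910 kk1911 kk1912 kk1913 kk1914 kk1915 kk1916 r1917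
            obtain ⟨t, ht⟩ : ∃ t, 2 * t = (2 * k + 2 * l + i3 - 2 * n - i2 - l2 + 1) := ⟨(2 * k + 2 * l + i3 - 2 * n - i2 - l2 + 1) / 2, by omega⟩
            exact al.ninv t (cE (cI (cE (qf (show Par W (i3 + 1) (n + i3 - i2 - l2 - 1) (2 * i2 + l2 - k - l - i3) from fun t h1 h2 => (cE (sh al (-1) t (t + (-n)) (by omega)) (cE (pb D2 al (-1) (t + (-n)) (t + (i2 + l2 - i3 + 1)) (by omega)) (pb c al 0 (t + (i2 + l2 - i3 + 1)) (t + (2 * i2 + l2 - k - l - i3)) (by omega))))) al (-1) t (t + (n + 2 * i2 + l2 - k - l - i3)) (by omega)) (pb b al 0 (t + (n + 2 * i2 + l2 - k - l - i3)) (t + (n + i + 2 * i2 + l2 - 2 * k - l - i3)) (by omega))) (qa tt al 0 (t + (n + i + 2 * i2 + l2 - 2 * k - l - i3)) ((2 * k + 2 * l + i3 - n - i2 - l2 + 1) - t) (by omega))) (sh al (-1) ((2 * k + 2 * l + i3 - n - i2 - l2 + 1) - t) t (by omega)))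
          · by_cases v76 : (2 * i2 + 2 * l2 + 1) ≤ (n + j + l + i3)
            · by_cases v77 : (2 * k + l) ≤ (j + 2 * i2 + l2)
              · have kk1918 : (2 * k + l + i2 + 2 * l2 + 4) ≤ (2 * n + j + 2 * i3) := by clear * - b4 b5 v76; omega
                have kk1919 : (j + l + 2 * i3 + 3) ≤ (2 * Q + i2) := by clear * - b0 b10 b2 b4; omega
                have kk1920 : (j + 2 * k + 3 * l + 3) ≤ (3 * i2 + 2 * l2) := by clear * - b4 b5; omega
                have kk1921 : (j + 5 * i2 + 4 * l2 + 5) ≤ (2 * n + 2 * k + l + 2 * i3) := by clear * - b0 b10 b4 y17 z107 z97; omega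
                have kk1922 : (k + i2 + l2 + 2) ≤ (n + Q + j) := by clear * - b1 b9 v76 v77 z104 z107 z97; linarith
                have kk1923 : (0) ≤ (j) := by clear * - b6 v77 z104; omega
                have kk1924 : (k + l) ≤ (i2 + l2) := by clear * - b4 b5 b8; omega
                have kk1925 : (n) ≤ (k + l + l2 + 2) := by clear * - v77 z104; omega
                have kk1926 : (i2) ≤ (k + l + 1) := by clear * - b1 b9 v76 v77 z104 z107 z97; linarith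
                have kk1927 : (Q) ≤ (i2 + 1) := by clear * - b0 b10 b2 b4 z105 z97; omega
                have kk1928 : (2 * i2 + 2 * l2 + 1) ≤ (n + j + l + i3) := by clear * - v76; omega
                have kk1929 : (2 * k + l) ≤ (j + 2 * i2 + l2) := by clear * - v77; omega
                have kk1930 : (i2) ≤ (j + l + i3 + 1) := by clear * - b10 b4 b7 v76 v77; omega
                have kk1931 : (k + l + i3) ≤ (2 * i2 + l2) := by clear * - b1 v77 z104; omega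
                have kk1932 : (3 * i2 + 2 * l2 + 1) ≤ (n + k + l + i3) := by clear * - b1 b3 b9 v76 v77 z104 z107; linarith
                have r1933 : (n + k + l + l2 + i3 + 2) % 2 = 0 := by clear * - ev n1p n2p n3p; omega
                have r1934 : (2 * n + j + 2 * i3 - 2 * k - l - i2 - 2 * l2 - 3) % 2 = 0 := by clear * - ev n1p n2p n3p; omega
                clear * - al a2 c u2 D2 kk1918 kk1919 kk1920 kk1921 kk1922 kk1923 kk1924 kk1925 kk1926 kk1927 kk1928 kk1929 kk1930 kk1931 kk1932 r1933 r1934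
                exact midP al (2 * n + j + 2 * i3 - 2 * k - l - i2 - 2 * l2 - 3) (n + k + l + l2 + i3 + 2) (k + l + l2 + 3) (2 * k + 2 * l - i2 + 3) (2 * n + k + l + 2 * i3 - 3 * i2 - 2 * l2 - 1) (by omega) (fun t h1 h2 => (cE (qa u2 al 1 t ((k + l + l2 + i3 + 2) - t) (by omega)) (sh al 1 ((k + l + l2 + i3 + 2) - t) ((n + k + l + l2 + i3 + 2) - t) (by omega)))) (fun t h1 h2 => (cE (cE (cE (cE (pb c al 0 t (t + (i2 - k - l - 1)) (by omega)) (pb c al 0 (t + (i2 - k - l - 1)) (t + (2 * i2 - 2 * k - 2 * l - 2)) (by omega))) (qf (show Par W (Q) (k - j) (n + j + i3 - k - i2 - l2 - 1) from fun t h1 h2 => (cE (sh al (-1) t (t + (-n)) (by omega)) (cE (pb a2 al (-1) (t + (-n)) (t + (j - k)) (by omega)) (qf D2 al (-1) (t + (j - k)) (t + (n + j + i3 - k - i2 - l2 - 1)) (by omega))))) al 0 (t + (2 * i2 - 2 * k - 2 * l - 2)) (t + (n + j + i2 + i3 - 3 * k - 2 * l - l2 - 3)) (by omega))) (pb (show Par W (i3 + 1) (n + i3 - i2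 - l2 - 1) (2 * i2 + l2 - k - l - i3) from fun t h1 h2 => (cE (sh al (-1) t (t + (-n)) (by omega)) (cE (pb D2 al (-1) (t + (-n)) (t + (i2 + l2 - i3 + 1)) (by omega)) (pb c al 0 (t + (i2 + l2 - i3 + 1)) (t + (2 * i2 + l2 - k - l - i3)) (by omega))))) al 0 (t + (n + j + i2 + i3 - 3 * k - 2 * l - l2 - 3)) (t + (n + j + 2 * i3 - 2 * k - l - i2 - 2 * l2 - 3)) (by omega))) (sh al 1 (t + (n + j + 2 * i3 - 2 * k - l - i2 - 2 * l2 - 3)) (t + (2 * n + j + 2 * i3 - 2 * k - l - i2 - 2 * l2 - 3)) (by omega))))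
              · have kk1935 : (2 * k + l + i2 + 2 * l2 + 4) ≤ (2 * n + j + 2 * i3) := by clear * - b4 b5 v76; omega
                have kk1936 : (j + l + 2 * i3 + 3) ≤ (2 * Q + i2) := by clear * - b0 b10 b2 b4; omega
                have kk1937 : (j + 2 * k + 3 * l + 3) ≤ (3 * i2 + 2 * l2) := by clear * - b4 b5; omega
                have kk1938 : (2 * k + l + i2 + 2 * l2 + 5) ≤ (2 * n + j + 2 * i3) := by clear * - b4 b5 v76; omega
                have kk1939 : (k + i2 + l2 + 2) ≤ (n + Q + j) := by clear * - b0 b10 b2 b4 v76 z105 z97; linarith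
                have kk1940 : (0) ≤ (j) := by clear * - b5 b9 v76 z103 z97; omega
                have kk1941 : (k + l) ≤ (i2 + l2) := by clear * - b4 b5 b8; omega
                have kk1942 : (n) ≤ (k + l + l2 + 2) := by clear * - b9 z103 z97; omega
                have kk1943 : (i2) ≤ (k + l + 1) := by clear * - b1 b10 b4 b5 b8 v76 z103; linarith
                have kk1944 : (Q) ≤ (i2 + 1) := by clear * - b0 b10 b2 b4 z105 z97; omega
                have kk1945 : (2 * i2 + 2 * l2 + 1) ≤ (n + j + l + i3) := by clear * - v76; omega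
                have kk1946 : (j + i3) ≤ (k) := by clear * - b1 b9 z103 z97; omega
                have kk1947 : (j + 2 * i2 + l2) ≤ (2 * k + l) := by clear * - v77; omega
                have kk1948 : (k + i2 + l2 + 1) ≤ (n + j + i3) := by clear * - b4 b5 b8 v76; omega
                have r1949 : (n + k + l + l2 + i3 + 2) % 2 = 0 := by clear * - ev n1p n2p n3p; omega
                have r1950 : (2 * n + j + 2 * i3 - 2 * k - l - i2 - 2 * l2 - 3) % 2 = 0 := by clear * - ev n1p n2p n3p; omega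
                clear * - al a2 c u2 D2 kk1935 kk1936 kk1937 kk1938 kk1939 kk1940 kk1941 kk1942 kk1943 kk1944 kk1945 kk1946 kk1947 kk1948 r1949 r1950
                exact midP al (2 * n + j + 2 * i3 - 2 * k - l - i2 - 2 * l2 - 3) (n + k + l + l2 + i3 + 2) (k + l + l2 + 3) (2 * k + 2 * l - i2 + 3) (2 * n + j + 2 * i3 - k - i2 - l2 - 1) (by omega) (fun t h1 h2 => (cE (qa u2 al 1 t ((k + l + l2 + i3 + 2) - t) (by omega)) (sh al 1 ((k + l + l2 + i3 + 2) - t) ((n + k + l + l2 + i3 + 2) - t) (by omega)))) (fun t h1 h2 => (cE (cE (cE (cE (pb c al 0 t (t + (i2 - k - l - 1)) (by omega)) (pb c al 0 (t + (i2 - k - l - 1)) (t + (2 * i2 - 2 * k - 2 * l - 2)) (by omega))) (qf (show Par W (Q) (k - j) (n + j + i3 - k - i2 - l2 - 1) from fun t h1 h2 => (cE (sh al (-1) t (t + (-n)) (by omega)) (cE (pb a2 al (-1) (t + (-n)) (t + (j - k)) (by omega)) (qf D2 al (-1) (t + (j - k)) (t + (n + j + i3 - k - i2 - l2 - 1)) (by omega)))))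 al 0 (t + (2 * i2 - 2 * k - 2 * l - 2)) (t + (n + j + i2 + i3 - 3 * k - 2 * l - l2 - 3)) (by omega))) (pb (show Par W (i3 + 1) (n + i3 - i2 - l2 - 1) (2 * i2 + l2 - k - l - i3) from fun t h1 h2 => (cE (sh al (-1) t (t + (-n)) (by omega)) (cE (pb D2 al (-1) (t + (-n)) (t + (i2 + l2 - i3 + 1)) (by omega)) (pb c al 0 (t + (i2 + l2 - i3 + 1)) (t + (2 * i2 + l2 - k - l - i3)) (by omega))))) al 0 (t + (n + j + i2 + i3 - 3 * k - 2 * l - l2 - 3)) (t + (n + j + 2 * i3 - 2 * k - l - i2 - 2 * l2 - 3)) (by omega))) (sh al 1 (t + (n + j + 2 * i3 - 2 * k - l - i2 - 2 * l2 - 3)) (t + (2 * n + j + 2 * i3 - 2 * k - l - i2 - 2 * l2 - 3)) (by omega))))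
            · have kk1951 : (2 * k + l + i2 + 2 * l2 + 4) ≤ (2 * n + j + 2 * i3) := by clear * - b0 b2 b3 b9 v76 z105; omega
              have kk1952 : (j + l + 2 * i3 + 3) ≤ (2 * Q + i2) := by clear * - b0 b2 b9 v76; omega
              have kk1953 : (2 * k + l + i2 + 2 * l2 + 5) ≤ (2 * n + j + 2 * i3) := by clear * - b0 b2 b3 b9 v76 z105; omega
              have kk1954 : (k + i2 + l2 + 2) ≤ (n + Q + j) := by clear * - b0 b2 b9 v76 z105 z97; omega
              have kk1955 : (0) ≤ (j) := by clear * - b0 b10 b2 b3 b9 v76 z103 z105; linarith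
              have kk1956 : (k + l) ≤ (i2 + l2) := by clear * - b4 b5 b8; omega
              have kk1957 : (n) ≤ (k + l + l2 + 2) := by clear * - b9 z103 z97; omega
              have kk1958 : (i2) ≤ (k + l + 1) := by clear * - b0 b4 b5 b8 z104; omega
              have kk1959 : (n + j + l + i3) ≤ (2 * i2 + 2 * l2 + 1) := by clear * - v76; omega
              have kk1960 : (n + Q + j + l + i3) ≤ (3 * i2 + 2 * l2 + 2) := by clear * - b0 b8 v76 z97; omega
              have kk1961 : (j + i3) ≤ (k) := by clear * - b1 b9 z103 z97; omega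
              have kk1962 : (j + 2 * i2 + l2) ≤ (2 * k + l) := by clear * - b0 b10 b3 v76 y17 z104 z105 z107; linarith
              have kk1963 : (k + i2 + l2 + 1) ≤ (n + j + i3) := by clear * - b0 b2 b9 z105 z97; omega
              have r1964 : (n + k + l + l2 + i3 + 2) % 2 = 0 := by clear * - ev n1p n2p n3p; omega
              have r1965 : (2 * n + j + 2 * i3 - 2 * k - l - i2 - 2 * l2 - 3) % 2 = 0 := by clear * - ev n1p n2p n3p; omega
              clear * - al a2 c u2 D2 kk1951 kk1952 kk1953 kk1954 kk1955 kk1956 kk1957 kk1958 kk1959 kk1960 kk1961 kk1962 kk1963 r1964 r1965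
              exact midP al (2 * n + j + 2 * i3 - 2 * k - l - i2 - 2 * l2 - 3) (n + k + l + l2 + i3 + 2) (k + l + l2 + 3) (2 * k + l + i2 + 2 * l2 - n - j - i3 + 4) (2 * n + j + 2 * i3 - k - i2 - l2 - 1) (by omega) (fun t h1 h2 => (cE (qa u2 al 1 t ((k + l + l2 + i3 + 2) - t) (by omega)) (sh al 1 ((k + l + l2 + i3 + 2) - t) ((n + k + l + l2 + i3 + 2) - t) (by omega)))) (fun t h1 h2 => (cE (cE (cE (cE (pb c al 0 t (t + (i2 - k - l - 1)) (by omega)) (pb c al 0 (t + (i2 - k - l - 1)) (t + (2 * i2 - 2 * k - 2 * l - 2)) (by omega))) (qf (show Par W (Q) (k - j) (n + j + i3 - k - i2 - l2 - 1) from fun t h1 h2 => (cE (sh al (-1) t (t + (-n)) (by omega)) (cE (pb a2 al (-1) (t + (-n)) (t + (j - k)) (by omega)) (qf D2 al (-1) (t + (j - k)) (t + (n + j + i3 - k - i2 - l2 - 1)) (by omega))))) al 0 (t + (2 * i2 - 2 * k - 2 * l - 2)) (t + (n + j + i2 + i3 - 3 * k - 2 * l - l2 - 3)) (by omega))) (pb (show Par W (i3 + 1) (n +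 i3 - i2 - l2 - 1) (2 * i2 + l2 - k - l - i3) from fun t h1 h2 => (cE (sh al (-1) t (t + (-n)) (by omega)) (cE (pb D2 al (-1) (t + (-n)) (t + (i2 + l2 - i3 + 1)) (by omega)) (pb c al 0 (t + (i2 + l2 - i3 + 1)) (t + (2 * i2 + l2 - k - l - i3)) (by omega))))) al 0 (t + (n + j + i2 + i3 - 3 * k - 2 * l - l2 - 3)) (t + (n + j + 2 * i3 - 2 * k - l - i2 - 2 * l2 - 3)) (by omega))) (sh al 1 (t + (n + j + 2 * i3 - 2 * k - l - i2 - 2 * l2 - 3)) (t + (2 * n + j + 2 * i3 - 2 * k - l - i2 - 2 * l2 - 3)) (by omega))))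

theorem t2c_37 {W : ℤ → G} {n Q i j k l i2 l2 i3 : ℤ} (al : AL W n Q)
    (hy : (0) ≤ (i) ∧ (i) ≤ (j) ∧ (j + 1) ≤ (Q) ∧ (Q) ≤ (k) ∧ (k + 1) ≤ (n) ∧ (Q) ≤ (i + l + 1) ∧ (k + l + 2) ≤ (n) ∧ (Q) ≤ (i2) ∧ (i2) ≤ (i + l + 1) ∧ (Q) ≤ (i2 + l2 + 1) ∧ (i2 + l2 + 2) ≤ (n) ∧ (n) ≤ (k + l + l2 + 2) ∧ (k + l + l2 + 3) ≤ (n + Q) ∧ (0) ≤ (i3) ∧ (n + i3) ≤ (k + l + l2 + 2) ∧ (k + i2 + l2 + 2) ≤ (n + j + i3) ∧ (j + i3 + 1) ≤ (k) ∧ (k + i2 + l2 + 2) ≤ (n + i3) ∧ (i + 2 * i2 + 1) ≤ (2 * Q + k) ∧ (i + l + 1) ≤ (i2 + l2) ∧ (k + l + 1) ≤ (i2 + l2) ∧ (2 * k + 2 * l + 3) ≤ (n + i2) ∧ (i + 1) ≤ (i3))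
    (a1 : Par W (0) (j) (k - j))
    (a2 : Par W (Q + j - k) (j) (k - j))
    (s1 : Ant W (0) (i) (i + j))
    (s2 : Ant W (j + 1) (Q) (i + j))
    (b : Par W (i + 1) (i + l + 1) (k - i))
    (tt : Ant W (Q) (i2) (i + l + i2 + 1))
    (c : Par W (i2 + 1) (i2 + l2 + 1) (k + l - i2 + 1))
    (u1 : Ant W (0) (i3) (k + l + l2 + i3 - n + 2))
    (u2 : Ant W (k + l + l2 - n + 3) (Q) (k + l + l2 + i3 - n + 2))
    (D1 : Par W (i3 + 1) (Q) (i2 + l2 - i3 + 1))
    (D2 : Par W (i2 + l2 + 2) (n) (i3 - i2 - l2 - 1))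
    {L : ℤ} (mx : ∀ a b g, 0 < g → g < n → Par W a b g → b - a ≤ L)
    (hL : L ≤ (n - j - 3) ∧ L ≤ (n + Q - k - 3) ∧ L ≤ (n - l - 3) ∧ L ≤ (n + i - k - 2) ∧ L ≤ (n - l2 - 3) ∧ L ≤ (n + i3 - Q - 2) ∧ L ≤ (i2 + l2 - 1) ∧ L ≤ (n + i2 - k - l - 3) ∧ L ≤ (Q + i2 + l2 - i - l - 3))
    (bd0 : Bd W n L (j) (i) (k))
    (bd2 : Bd W n L (k + l + l2 - n + 2) (i3) (i2 + l2 + 1))
    (n1 : Nd W (j) (i) (k))
    (n2 : Nd W (i + l + 1) (i2) (k + l + 1))
    (n3 : Nd W (k + l + l2 - n + 2) (i3) (i2 + l2 + 1))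
    (b0 : (2 * l2 + 3) ≤ (n))
    (b1 : (j + l + l2 + i3 + 3) ≤ (n))
    (b2 : (i + k + 2 * l + 3) ≤ (Q + i2 + l2))
    (b3 : (k + l + l2 + i3 + 3) ≤ (n + i + j))
    (b4 : (2 * Q + k + 2 * i2 + l2) ≤ (n + i + j + l + 3 * i3 + 1))
    (b5 : (j + i2) ≤ (l + 2 * i3 + 1))
    (b6 : (k + 2 * l + i3 + 2) ≤ (2 * i2 + l2))
    (b7 : (2 * i2 + 2 * l2 + 4) ≤ (n + j + k))
    (b8 : (i + l + 2) ≤ (k))
    (b9 : (2 * i2 + l2) ≤ (j + k + 2 * l + 2))
    (b10 : (2 * i2 + l2 + i3) ≤ (Q + i + k + 2 * l + 1))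
    (b11 : (i + k + l + l2 + 2) ≤ (n + 2 * i3)) : False := by
  have ev := al.ev
  obtain ⟨y0, y1, y2, y3, y4, y5, y6, y7, y8, y9, y10, y11, y12, y13, y14, y15, y16, y17, y18, y19, y20, y21, y22⟩ := id hy
  have n1p := And.intro n1.p1 n1.p2
  have n2p := And.intro n2.p1 n2.p2
  have n3p := And.intro n3.p1 n3.p2
  by_cases z93 : (k + l + l2 + 2) ≤ (n + i3)
  · by_cases v67 : (i2 + l2 + i3) ≤ (Q + k + l)
    · have kk1625 : (k + l + i3 + 1) ≤ (2 * i2 + l2) := by clear * - b0 b5 b6 b9 y14; omega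
      have kk1626 : (i2 + l2 + 2) ≤ (n) := by clear * - b1 b10 b11 b4 b6 b9 y19; linarith
      have kk1627 : (i3) ≤ (i + l) := by clear * - b0 b11 b4 b5 b6 v67 y14; linarith
      have kk1628 : (i + k + 2 * l + 3) ≤ (n + i2) := by clear * - b0 b1 b5 b6 b8 b9 y22; linarith
      have kk1629 : (i3) ≤ (k + l) := by clear * - b0 b5 b6 b7 b9 y14; omega
      have kk1630 : (2 * k + 2 * l + 3) ≤ (n + i2) := by clear * - y21; omega
      have kk1631 : (i2) ≤ (i + l + 1) := by clear * - b4 b5 b6 v67 y14; omega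
      have kk1632 : (k + l) ≤ (i2 + l2) := by clear * - b5 b6 b9; omega
      have kk1633 : (n) ≤ (k + l + l2 + 2) := by clear * - y13 y14; omega
      have kk1634 : (i2) ≤ (k + l + 1) := by clear * - b0 b5 b6 b7 b9 y14; omega
      have kk1635 : (i2 + l2 + i3) ≤ (Q + k + l) := by clear * - v67; omega
      have kk1636 : (k + l + l2 + 2) ≤ (n + i3) := by clear * - z93; omega
      have kk1637 : (i) ≤ (i3) := by clear * - y22; omega
      have kk1638 : (i) ≤ (k) := by clear * - b0 b5 b6 b8 b9 y14; omega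
      have kk1639 : (2 * k + 2 * l + 2) ≤ (n + i2) := by clear * - y21; omega
      have kk1640 : (i2 + l2 + 1) ≤ (n) := by clear * - b1 b10 b11 b4 b6 b9 y19; linarith
      have kk1641 : (i3) ≤ (i2) := by clear * - b0 b5 b6 b9 y14; omega
      have r1642 : (k - i) % 2 = 0 := by clear * - ev n1p n2p n3p; omega
      have r1643 : (2 * i2 + l2 - k - l - i3) % 2 = 0 := by clear * - ev n1p n2p n3p; omega
      have r1644 : (2 * i2 + l2 + i3 - 2 * n - k - l) % 2 = 0 := by clear * - ev n1p n2p n3p; omega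
      clear * - al b c u2 D2 n2 kk1625 kk1626 kk1627 kk1628 kk1629 kk1630 kk1631 kk1632 kk1633 kk1634 kk1635 kk1636 kk1637 kk1638 kk1639 kk1640 kk1641 r1642 r1643 r1644
      exact ivt al.ninv (i3 - n + 1) (i3 - i2 - l2 - 1) (2 * i2 + l2 - k - l - i3) (i3 - n + 1) (i + l - n + 1) (k - i) (i + l - n + 1) (k + l - n + 1) 0 (fun t h1 h2 => (cE (qf (show Par W (i3 + 1) (n + i3 - i2 - l2 - 1) (2 * i2 + l2 - k - l - i3) from fun t h1 h2 => (cE (sh al (-1) t (t + (-n)) (by omega)) (cE (pb D2 al (-1) (t + (-n)) (t + (i2 + l2 - i3 + 1)) (by omega)) (pb c al 0 (t + (i2 + l2 - i3 + 1)) (t + (2 * i2 + l2 - k - l - i3)) (by omega))))) al (-1) t (t + (n + 2 * i2 + l2 - k - l - i3)) (by omega)) (sh al (-1) (t + (n + 2 * i2 + l2 - k - l - i3)) (t + (2 * i2 + l2 - k - l - i3)) (by omega)))) (fun t h1 h2 => (cE (sh al 1 t (t + (n)) (by omega)) (cE (qf b al 0 (t + (n)) (t + (n + k - i)) (by omega)) (sh al (-1) (t + (n + k - i))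 (t + (k - i)) (by omega))))) (fun hh => n2.f0 (rEE (sh al (-1) (i + l + 1) (i + l - n + 1) (by omega)) (sh al (-1) (k + l + 1) (k + l - n + 1) (by omega)) (Eq.symm hh))) (by omega) (i2 - n + 1) (2 * i2 + l2 - n - k - l) (2 * i2 + l2 + i3 - 2 * n - k - l) 0 0 (fun t h1 h2 => (cE (cI (cE (qf c al (-1) t (t + (n + k + l - i2 + 1)) (by omega)) (qf c al 0 (t + (n + k + l - i2 + 1)) (t + (n + 2 * k + 2 * l - 2 * i2 + 2)) (by omega))) (ab u2 al 1 (t + (n + 2 * k + 2 * l - 2 * i2 + 2)) ((2 * i2 + l2 + i3 - n - k - l) - t) (by omega))) (sh al (-1) ((2 * i2 + l2 + i3 - n - k - l) - t) ((2 * i2 + l2 + i3 - 2 * n - k - l) - t) (by omega)))) (by omega)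
    · have kk1645 : (k + l + i3 + 1) ≤ (2 * i2 + l2) := by clear * - b0 b10 b11 b6 v67 y14; omega
      have kk1646 : (i2 + l2 + 2) ≤ (n) := by clear * - b0 b1 b10 b5 b6 b8 b9 v67; linarith
      have kk1647 : (i3) ≤ (i + l) := by clear * - b0 b10 b11 b6 v67 y14; omega
      have kk1648 : (i + k + 2 * l + 3) ≤ (n + i2) := by clear * - b0 b1 b10 b6 b8 b9 v67 y22; linarith
      have kk1649 : (i3) ≤ (k + l) := by clear * - b0 b10 b11 b6 b8 v67 y14; linarith
      have kk1650 : (2 * k + 2 * l + 3) ≤ (n + i2) := by clear * - y21; omega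
      have kk1651 : (2 * i2 + l2 + i3) ≤ (Q + i + k + 2 * l + 1) := by clear * - b10; omega
      have kk1652 : (k + l) ≤ (i2 + l2) := by clear * - b5 b6 b9; omega
      have kk1653 : (n) ≤ (k + l + l2 + 2) := by clear * - y13 y14; omega
      have kk1654 : (Q + k + l) ≤ (i2 + l2 + i3) := by clear * - v67; omega
      have kk1655 : (Q) ≤ (l2 + i3 + 1) := by clear * - b0 b10 b11 b6 b8 v67 y14; linarith
      have kk1656 : (k + l + l2 + 2) ≤ (n + i3) := by clear * - z93; omega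
      have kk1657 : (i2) ≤ (k + l + 1) := by clear * - b0 b10 b11 b6 b8 v67 y14; linarith
      have kk1658 : (i) ≤ (i3) := by clear * - y22; omega
      have kk1659 : (i) ≤ (k) := by clear * - b0 b10 b11 b6 b8 v67 y14; linarith
      have kk1660 : (2 * k + 2 * l + 2) ≤ (n + i2) := by clear * - y21; omega
      have kk1661 : (i2 + l2 + 1) ≤ (n) := by clear * - b0 b1 b10 b5 b6 b8 b9 v67; linarith
      have kk1662 : (Q + k + l) ≤ (2 * i2 + l2) := by clear * - b0 b10 b11 b6 v67 y14; omega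
      have r1663 : (k - i) % 2 = 0 := by clear * - ev n1p n2p n3p; omega
      have r1664 : (2 * i2 + l2 - k - l - i3) % 2 = 0 := by clear * - ev n1p n2p n3p; omega
      have r1665 : (2 * i2 + l2 + i3 - 2 * n - k - l) % 2 = 0 := by clear * - ev n1p n2p n3p; omega
      clear * - al b c u2 D2 n2 kk1645 kk1646 kk1647 kk1648 kk1649 kk1650 kk1651 kk1652 kk1653 kk1654 kk1655 kk1656 kk1657 kk1658 kk1659 kk1660 kk1661 kk1662 r1663 r1664 r1665
      exact ivt al.ninv (i3 - n + 1) (i3 - i2 - l2 - 1) (2 * i2 + l2 - k - l - i3) (i3 - n + 1) (i + l - n + 1) (k - i) (i + l - n + 1) (k + l - n + 1) 0 (fun t h1 h2 => (cE (qf (show Par W (i3 + 1) (n + i3 - i2 - l2 - 1) (2 * i2 + l2 - k - l - i3) from fun t h1 h2 => (cE (sh al (-1) t (t + (-n)) (by omega)) (cE (pb D2 al (-1) (t + (-n)) (t + (i2 + l2 - i3 + 1)) (by omega)) (pb c al 0 (t + (i2 + l2 - i3 + 1)) (t + (2 * i2 + l2 - k - l - i3)) (by omega))))) al (-1) t (t + (n +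 2 * i2 + l2 - k - l - i3)) (by omega)) (sh al (-1) (t + (n + 2 * i2 + l2 - k - l - i3)) (t + (2 * i2 + l2 - k - l - i3)) (by omega)))) (fun t h1 h2 => (cE (sh al 1 t (t + (n)) (by omega)) (cE (qf b al 0 (t + (n)) (t + (n + k - i)) (by omega)) (sh al (-1) (t + (n + k - i)) (t + (k - i)) (by omega))))) (fun hh => n2.f0 (rEE (sh al (-1) (i + l + 1) (i + l - n + 1) (by omega)) (sh al (-1) (k + l + 1) (k + l - n + 1) (by omega)) (Eq.symm hh))) (by omega) (2 * i2 + l2 + i3 - n - Q - k - l + 1) (2 * i2 + l2 - n - k - l) (2 * i2 + l2 + i3 - 2 * n - k - l) 0 0 (fun t h1 h2 => (cE (cI (cE (qf c al (-1) t (t + (n + k + l - i2 + 1)) (by omega)) (qf c al 0 (t + (n + k + l - i2 + 1)) (t + (n + 2 * k + 2 * l - 2 * i2 + 2)) (by omega))) (ab u2 al 1 (t + (n + 2 * k + 2 * l - 2 * i2 + 2)) ((2 * i2 + l2 + i3 - n - k - l) - t) (by omega))) (sh al (-1) ((2 * i2 + l2 + i3 - n - k - l) - t) ((2 * i2 + l2 + i3 - 2 * n - k - l) - t)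 (by omega)))) (by omega)
  · by_cases z94 : (i + 2 * i2 + l2) ≤ (j + k + l + 3 * i3)
    · have kk1666 : (j + k + l + i3 + 1) ≤ (i + 2 * i2 + l2) := by clear * - b0 b10 b4 b5 b6 z93; omega
      have kk1667 : (i + 2 * i2 + l2) ≤ (j + k + l + 3 * i3) := by clear * - z94; omega
      have kk1668 : (2 * n + i + 2 * i2) ≤ (j + 3 * k + 3 * l + l2 + 3 * i3 + 6) := by clear * - b0 b10 b4 b5 b6 z93 z94; linarith
      have kk1669 : (2 * i2 + l2) ≤ (i + j + k + 3 * l + i3 + 2) := by clear * - b0 b10 b11 b4 b5 b6 z93 z94; linarith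
      have kk1670 : (k + l) ≤ (i2 + l2) := by clear * - b5 b6 b9; omega
      have kk1671 : (n) ≤ (k + l + l2 + 2) := by clear * - b0 b10 b4 b5 b6 z93 z94; linarith
      have kk1672 : (j + k + l + i3 + 1) ≤ (2 * i2 + l2) := by clear * - b0 b5 b6 y21 z93; omega
      have kk1673 : (j + i3 + 1) ≤ (k) := by clear * - b0 b1 b5 b6 b7 z93; omega
      have kk1674 : (k + i2 + l2 + 1) ≤ (n + i3) := by clear * - y17; omega
      have kk1675 : (k + 2 * l + i3 + 1) ≤ (2 * i2 + l2) := by clear * - b6; omega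
      have kk1676 : (k + l2 + i3 + 2) ≤ (n + i) := by clear * - b0 b10 b4 b5 b6 y21 z93; linarith
      have r1677 : (k + l + l2 + i3 - 3 * n + 2) % 2 = 0 := by clear * - ev n1p n2p n3p; omega
      have r1678 : (i + 2 * i2 + l2 - j - k - l - i3) % 2 = 0 := by clear * - ev n1p n2p n3p; omega
      clear * - al a1 b c u1 D2 kk1666 kk1667 kk1668 kk1669 kk1670 kk1671 kk1672 kk1673 kk1674 kk1675 kk1676 r1677 r1678
      exact midP al (i + 2 * i2 + l2 - j - k - l - i3) (k + l + l2 + i3 - 3 * n + 2) (-n) (-n) (i + l - n + 1) (by omega) (fun t h1 h2 => (cE (qa u1 al (-1) t ((k + l + l2 + i3 - 2 * n + 2) - t) (by omega)) (sh al (-1) ((k + l + l2 + i3 - 2 * n + 2) - t) ((k + l + l2 + i3 - 3 * n + 2) - t) (by omega)))) (fun t h1 h2 => (cE (cE (cE (qf a1 al (-1) t (t + (n + k - j)) (by omega)) (qf (show Par W (i3 + 1) (n + i3 - i2 - l2 - 1) (2 * i2 + l2 - k - l - i3) from fun t h1 h2 => (cE (sh al (-1) t (t + (-n)) (by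 omega)) (cE (pb D2 al (-1) (t + (-n)) (t + (i2 + l2 - i3 + 1)) (by omega)) (pb c al 0 (t + (i2 + l2 - i3 + 1)) (t + (2 * i2 + l2 - k - l - i3)) (by omega))))) al 0 (t + (n + k - j)) (t + (n + 2 * i2 + l2 - j - l - i3)) (by omega))) (pb b al 0 (t + (n + 2 * i2 + l2 - j - l - i3)) (t + (n + i + 2 * i2 + l2 - j - k - l - i3)) (by omega))) (sh al (-1) (t + (n + i + 2 * i2 + l2 - j - k - l - i3)) (t + (i + 2 * i2 + l2 - j - k - l - i3)) (by omega))))
    · by_cases z95 : (3 * k + 2 * l + 3) ≤ (n + j + 2 * i2)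
      · by_cases v68 : (k) ≤ (j + i2 + 1)
        · by_cases v69 : (2 * k + l) ≤ (2 * i2 + l2)
          · have kk1679 : (3 * k + 2 * l + 3) ≤ (n + j + 2 * i2) := by clear * - z95; omega
            have kk1680 : (j + 2 * i2 + 2 * l2 + 4) ≤ (n + 2 * Q + k) := by clear * - b7 y2; omega
            have kk1681 : (j + k + 2 * l + 4) ≤ (n + 2 * i3) := by clear * - b5 b6 b7; omega
            have kk1682 : (2 * i2 + 2 * l2 + 4) ≤ (n + j + k) := by clear * - b7; omega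
            have kk1683 : (i2) ≤ (k + l + 1) := by clear * - b5 b6 b7 b8 v68 z93 z94; linarith
            have kk1684 : (k) ≤ (j + i2 + 1) := by clear * - v68; omega
            have kk1685 : (2 * k + l) ≤ (2 * i2 + l2) := by clear * - v69; omega
            have kk1686 : (k) ≤ (i2 + l2 + 1) := by clear * - b11 b5 b6 b7 v68 z93 z94; linarith
            have kk1687 : (k + l) ≤ (i2 + l2) := by clear * - b5 b6 b9; omega
            have kk1688 : (i3) ≤ (j) := by clear * - b7 v69 z93; omega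
            have r1689 : (k + l + l2 + i3 - n + 2) % 2 = 0 := by clear * - ev n1p n2p n3p; omega
            have r1690 : (n + j + 2 * i2 - 3 * k - 2 * l - 2) % 2 = 0 := by clear * - ev n1p n2p n3p; omega
            clear * - al a1 c u2 kk1679 kk1680 kk1681 kk1682 kk1683 kk1684 kk1685 kk1686 kk1687 kk1688 r1689 r1690
            exact midP al (n + j + 2 * i2 - 3 * k - 2 * l - 2) (k + l + l2 + i3 - n + 2) (k + l + l2 - n + 3) (2 * k + 2 * l - n - i2 + 3) (j) (by omega) (fun t h1 h2 => (qa u2 al 0 t ((k + l + l2 + i3 - n + 2) - t) (by omega))) (fun t h1 h2 => (cE (cE (pb c al (-1) t (t + (n + i2 - k - l - 1)) (by omega)) (pb c al 0 (t + (n + i2 - k - l - 1)) (t + (n + 2 * i2 - 2 * k - 2 * l - 2)) (by omega))) (pb a1 al 0 (t + (n + 2 * i2 - 2 * k - 2 * l - 2)) (t + (n + j + 2 * i2 - 3 * k - 2 * l - 2)) (by omega))))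
          · have kk1691 : (3 * k + 2 * l + 3) ≤ (n + j + 2 * i2) := by clear * - z95; omega
            have kk1692 : (j + 2 * i2 + 2 * l2 + 4) ≤ (n + 2 * Q + k) := by clear * - b0 b10 b2 b5 b6 v69; omega
            have kk1693 : (j + k + 2 * l + 4) ≤ (n + 2 * i3) := by clear * - b5 b6 v69 z95; omega
            have kk1694 : (3 * k + 2 * l + 4) ≤ (n + j + 2 * i2) := by clear * - b0 b2 b4 v68 z94; omega
            have kk1695 : (i2) ≤ (k + l + 1) := by clear * - b11 b5 b6 v68 v69 z93 z94 z95; linarith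
            have kk1696 : (k) ≤ (j + i2 + 1) := by clear * - v68; omega
            have kk1697 : (2 * i2 + l2) ≤ (2 * k + l) := by clear * - v69; omega
            have kk1698 : (k + l) ≤ (i2 + l2) := by clear * - b5 b6 v69 z93 z95; omega
            have kk1699 : (2 * k + l + i3) ≤ (j + 2 * i2 + l2) := by clear * - z93 z95; omega
            have r1700 : (k + l + l2 + i3 - n + 2) % 2 = 0 := by clear * - ev n1p n2p n3p; omega
            have r1701 : (n + j + 2 * i2 - 3 * k - 2 * l - 2) % 2 = 0 := by clear * - ev n1p n2p n3p; omega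
            clear * - al a1 c u2 kk1691 kk1692 kk1693 kk1694 kk1695 kk1696 kk1697 kk1698 kk1699 r1700 r1701
            exact midP al (n + j + 2 * i2 - 3 * k - 2 * l - 2) (k + l + l2 + i3 - n + 2) (k + l + l2 - n + 3) (2 * k + 2 * l - n - i2 + 3) (j + 2 * i2 + l2 - 2 * k - l) (by omega) (fun t h1 h2 => (qa u2 al 0 t ((k + l + l2 + i3 - n + 2) - t) (by omega))) (fun t h1 h2 => (cE (cE (pb c al (-1) t (t + (n + i2 - k - l - 1)) (by omega)) (pb c al 0 (t + (n + i2 - k - l - 1)) (t + (n + 2 * i2 - 2 * k - 2 * l - 2)) (by omega))) (pb a1 al 0 (t + (n + 2 * i2 - 2 * k - 2 * l - 2)) (t + (n + j + 2 * i2 - 3 * k - 2 * l - 2)) (by omega))))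
        · by_cases v70 : (2 * k + l) ≤ (2 * i2 + l2)
          · have kk1702 : (3 * k + 2 * l + 3) ≤ (n + j + 2 * i2) := by clear * - z95; omega
            have kk1703 : (j + 2 * i2 + 2 * l2 + 4) ≤ (n + 2 * Q + k) := by clear * - b0 b10 b2 v68 y13; omega
            have kk1704 : (3 * k + 2 * l + 2) ≤ (n + j + 2 * i2 + 2 * i3) := by clear * - y13 z95; omega
            have kk1705 : (2 * i2 + 2 * l2 + 4) ≤ (n + j + k) := by clear * - b7; omega
            have kk1706 : (i2) ≤ (k + l + 1) := by clear * - b0 b5 b6 b7 v70 z93; omega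
            have kk1707 : (j + i2 + 1) ≤ (k) := by clear * - v68; omega
            have kk1708 : (2 * k + l) ≤ (2 * i2 + l2) := by clear * - v70; omega
            have kk1709 : (k) ≤ (i2 + l2 + 1) := by clear * - b0 b5 b6 b9 z93; omega
            have kk1710 : (i3) ≤ (j) := by clear * - b7 v70 z93; omega
            have kk1711 : (2 * k + l) ≤ (j + 2 * i2 + l2 + 1) := by clear * - y13 z93 z95; omega
            have r1712 : (k + l + l2 + i3 - n + 2) % 2 = 0 := by clear * - ev n1p n2p n3p; omega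
            have r1713 : (n + j + 2 * i2 - 3 * k - 2 * l - 2) % 2 = 0 := by clear * - ev n1p n2p n3p; omega
            clear * - al a1 c u2 kk1702 kk1703 kk1704 kk1705 kk1706 kk1707 kk1708 kk1709 kk1710 kk1711 r1712 r1713
            exact midP al (n + j + 2 * i2 - 3 * k - 2 * l - 2) (k + l + l2 + i3 - n + 2) (k + l + l2 - n + 3) (3 * k + 2 * l - n - j - 2 * i2 + 2) (j) (by omega) (fun t h1 h2 => (qa u2 al 0 t ((k + l + l2 + i3 - n + 2) - t) (by omega))) (fun t h1 h2 => (cE (cE (pb c al (-1) t (t + (n + i2 - k - l - 1)) (by omega)) (pb c al 0 (t + (n + i2 - k - l - 1)) (t + (n + 2 * i2 - 2 * k - 2 * l - 2)) (by omega))) (pb a1 al 0 (t + (n + 2 * i2 - 2 * k - 2 * l - 2)) (t + (n + j + 2 * i2 - 3 * k - 2 * l - 2)) (by omega))))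
          · have kk1714 : (3 * k + 2 * l + 3) ≤ (n + j + 2 * i2) := by clear * - z95; omega
            have kk1715 : (j + 2 * i2 + 2 * l2 + 4) ≤ (n + 2 * Q + k) := by clear * - b0 b10 b2 b5 b6 v70; omega
            have kk1716 : (3 * k + 2 * l + 2) ≤ (n + j + 2 * i2 + 2 * i3) := by clear * - y13 z95; omega
            have kk1717 : (3 * k + 2 * l + 4) ≤ (n + j + 2 * i2) := by clear * - z95 ev n1p n2p n3p; omega
            have kk1718 : (i2) ≤ (k + l + 1) := by clear * - b0 b5 b6 v70 z93 z95; omega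
            have kk1719 : (j + i2 + 1) ≤ (k) := by clear * - v68; omega
            have kk1720 : (2 * i2 + l2) ≤ (2 * k + l) := by clear * - v70; omega
            have kk1721 : (2 * k + l) ≤ (j + 2 * i2 + l2 + 1) := by clear * - y13 z93 z95; omega
            have kk1722 : (2 * k + l + i3) ≤ (j + 2 * i2 + l2) := by clear * - z93 z95; omega
            have r1723 : (k + l + l2 + i3 - n + 2) % 2 = 0 := by clear * - ev n1p n2p n3p; omega
            have r1724 : (n + j + 2 * i2 - 3 * k - 2 * l - 2) % 2 = 0 := by clear * - ev n1p n2p n3p; omega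
            clear * - al a1 c u2 kk1714 kk1715 kk1716 kk1717 kk1718 kk1719 kk1720 kk1721 kk1722 r1723 r1724
            exact midP al (n + j + 2 * i2 - 3 * k - 2 * l - 2) (k + l + l2 + i3 - n + 2) (k + l + l2 - n + 3) (3 * k + 2 * l - n - j - 2 * i2 + 2) (j + 2 * i2 + l2 - 2 * k - l) (by omega) (fun t h1 h2 => (qa u2 al 0 t ((k + l + l2 + i3 - n + 2) - t) (by omega))) (fun t h1 h2 => (cE (cE (pb c al (-1) t (t + (n + i2 - k - l - 1)) (by omega)) (pb c al 0 (t + (n + i2 - k - l - 1)) (t + (n + 2 * i2 - 2 * k - 2 * l - 2)) (by omega))) (pb a1 al 0 (t + (n + 2 * i2 - 2 * k - 2 * l - 2)) (t + (n + j + 2 * i2 - 3 * k - 2 * l - 2)) (by omega))))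
      · by_cases z96 : (i + k + l + 2 * i2 + 3 * l2 + 6) ≤ (2 * n + 2 * Q + j + i3)
        · by_cases v71 : (Q + 2 * i2 + l2) ≤ (2 * k + l + i3 + 1)
          · have kk1725 : (j + k + l + i3 + 1) ≤ (i + 2 * i2 + l2) := by clear * - b0 b10 b4 b5 b6 z93; omega
            have kk1726 : (i + k + l + 2 * i2 + 3 * l2 + 6) ≤ (2 * n + 2 * Q + j + i3) := by clear * - z96; omega
            have kk1727 : (i + j + k + l + 2) ≤ (2 * i2 + l2 + i3) := by clear * - b0 b11 b5 b6 b9 z93; omega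
            have kk1728 : (k + 2 * i2 + 3 * l2 + 4) ≤ (2 * n + i + j + l + i3) := by clear * - b0 b10 b11 b4 b6 z93; omega
            have kk1729 : (k + l) ≤ (i2 + l2) := by clear * - b5 b6 b9; omega
            have kk1730 : (n) ≤ (k + l + l2 + 2) := by clear * - y13 z93; omega
            have kk1731 : (2 * i2 + l2) ≤ (2 * k + l) := by clear * - b10 b8 v71; omega
            have kk1732 : (Q + 2 * i2 + l2) ≤ (2 * k + l + i3 + 1) := by clear * - v71; omega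
            have kk1733 : (k + i2 + l2 + 1) ≤ (n + i3) := by clear * - y17; omega
            have kk1734 : (k + 2 * l + i3 + 1) ≤ (2 * i2 + l2) := by clear * - b6; omega
            have kk1735 : (i3) ≤ (i + l + 1) := by clear * - b0 b10 b4 b5 b6 z93 z96; linarith
            have kk1736 : (n + j + i3) ≤ (2 * i2 + 2 * l2 + 2) := by clear * - b0 b5 b6 b9 z93; omega
            have r1737 : (k + l + l2 + i3 - 3 * n + 2) % 2 = 0 := by clear * - ev n1p n2p n3p; omega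
            have r1738 : (i + 2 * i2 + l2 - j - k - l - i3) % 2 = 0 := by clear * - ev n1p n2p n3p; omega
            clear * - al a2 b c u2 D2 kk1725 kk1726 kk1727 kk1728 kk1729 kk1730 kk1731 kk1732 kk1733 kk1734 kk1735 kk1736 r1737 r1738
            exact midP al (i + 2 * i2 + l2 - j - k - l - i3) (k + l + l2 + i3 - 3 * n + 2) (k + l + l2 - 2 * n + 3) (j + k + l + i3 - n - 2 * i2 - l2 + 1) (i + l - n + 1) (by omega) (fun t h1 h2 => (cE (qa u2 al (-1) t ((k + l + l2 + i3 - 2 * n + 2) - t) (by omega)) (sh al (-1) ((k + l + l2 + i3 - 2 * n + 2) - t) ((k + l + l2 + i3 - 3 * n + 2) - t) (by omega)))) (fun t h1 h2 => (cE (cE (cE (qf a2 al (-1) t (t + (n + k - j)) (by omega)) (qf (show Par W (i3 + 1) (n + i3 - i2 - l2 - 1) (2 * i2 + l2 - k - l - i3) from fun t h1 h2 => (cE (sh al (-1) t (t + (-n)) (by omega)) (cE (pb D2 al (-1) (t + (-n)) (t + (i2 + l2 - i3 + 1)) (by omega)) (pb c al 0 (t + (i2 + l2 - i3 + 1)) (t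 + (2 * i2 + l2 - k - l - i3)) (by omega))))) al 0 (t + (n + k - j)) (t + (n + 2 * i2 + l2 - j - l - i3)) (by omega))) (pb b al 0 (t + (n + 2 * i2 + l2 - j - l - i3)) (t + (n + i + 2 * i2 + l2 - j - k - l - i3)) (by omega))) (sh al (-1) (t + (n + i + 2 * i2 + l2 - j - k - l - i3)) (t + (i + 2 * i2 + l2 - j - k - l - i3)) (by omega))))
          · have kk1739 : (j + k + l + i3 + 1) ≤ (i + 2 * i2 + l2) := by clear * - b0 b4 b6 v71 z95; omega
            have kk1740 : (i + k + l + 2 * i2 + 3 * l2 + 6) ≤ (2 * n + 2 * Q + j + i3) := by clear * - z96; omega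
            have kk1741 : (2 * Q + i + j + 2 * i2 + l2) ≤ (3 * k + l + 3 * i3) := by clear * - b0 b11 b4 b6 z93 z95; omega
            have kk1742 : (k + 2 * i2 + 3 * l2 + 4) ≤ (2 * n + i + j + l + i3) := by clear * - b0 b10 b4 b8 v71; omega
            have kk1743 : (k + l) ≤ (i2 + l2) := by clear * - b5 b6 b9; omega
            have kk1744 : (n) ≤ (k + l + l2 + 2) := by clear * - y13 z93; omega
            have kk1745 : (2 * k + l + i3 + 1) ≤ (Q + 2 * i2 + l2) := by clear * - v71; omega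
            have kk1746 : (i3 + 1) ≤ (Q) := by clear * - b10 b8 v71; omega
            have kk1747 : (k + i2 + l2 + 1) ≤ (n + i3) := by clear * - y17; omega
            have kk1748 : (k + 2 * l + i3 + 1) ≤ (2 * i2 + l2) := by clear * - b6; omega
            have kk1749 : (i3) ≤ (i + l + 1) := by clear * - b0 b4 b6 v71 z93 z95 z96; linarith
            have kk1750 : (n + Q + j) ≤ (2 * k + l + l2 + 3) := by clear * - b0 b11 b4 b6 v71 z93 z95; linarith
            have r1751 : (k + l + l2 + i3 - 3 * n + 2) % 2 = 0 := by clear * - ev n1p n2p n3p; omega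
            have r1752 : (i + 2 * i2 + l2 - j - k - l - i3) % 2 = 0 := by clear * - ev n1p n2p n3p; omega
            clear * - al a2 b c u2 D2 kk1739 kk1740 kk1741 kk1742 kk1743 kk1744 kk1745 kk1746 kk1747 kk1748 kk1749 kk1750 r1751 r1752
            exact midP al (i + 2 * i2 + l2 - j - k - l - i3) (k + l + l2 + i3 - 3 * n + 2) (k + l + l2 - 2 * n + 3) (Q + j - n - k) (i + l - n + 1) (by omega) (fun t h1 h2 => (cE (qa u2 al (-1) t ((k + l + l2 + i3 - 2 * n + 2) - t) (by omega)) (sh al (-1) ((k + l + l2 + i3 - 2 * n + 2) - t) ((k + l + l2 + i3 - 3 * n + 2) - t) (by omega)))) (fun t h1 h2 => (cE (cE (cE (qf a2 al (-1) t (t + (n + k - j)) (by omega)) (qf (show Par W (i3 + 1) (n + i3 - i2 - l2 - 1) (2 * i2 + l2 - k - l - i3) from fun t h1 h2 => (cE (sh al (-1) t (t + (-n)) (by omega)) (cE (pb D2 al (-1) (t + (-n)) (t + (i2 + l2 - i3 + 1)) (by omega)) (pb c al 0 (t + (i2 + l2 - i3 + 1)) (t + (2 * i2 + l2 - k - l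 - i3)) (by omega))))) al 0 (t + (n + k - j)) (t + (n + 2 * i2 + l2 - j - l - i3)) (by omega))) (pb b al 0 (t + (n + 2 * i2 + l2 - j - l - i3)) (t + (n + i + 2 * i2 + l2 - j - k - l - i3)) (by omega))) (sh al (-1) (t + (n + i + 2 * i2 + l2 - j - k - l - i3)) (t + (i + 2 * i2 + l2 - j - k - l - i3)) (by omega))))
        · have kk1753 : (i + k + l + l2 + 4) ≤ (n + j + i3) := by clear * - b11 b3 z93; omega
          have kk1754 : (n + 2 * Q + j + i3) ≤ (i + k + l + 2 * i2 + l2 + 3) := by clear * - b0 z96; omega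
          have kk1755 : (k + i2 + l2 + 2) ≤ (n + Q + j) := by clear * - b10 b11 b5 b6 b9; omega
          have kk1756 : (0) ≤ (j) := by clear * - b6 b9 y13; omega
          have kk1757 : (j + i2) ≤ (k) := by clear * - b11 b2 b3 b4 z94 z95; omega
          have r1758 : (3 * n + i + j + l + i3 - k - l2) % 2 = 0 := by clear * - ev n1p n2p n3p; omega
          clear * - al a2 tt D2 kk1753 kk1754 kk1755 kk1756 kk1757 r1758
          obtain ⟨t, ht⟩ : ∃ t, 2 * t = (3 * n + i + j + l + i3 - k - l2) := ⟨(3 * n + i + j + l + i3 - k - l2) / 2, by omega⟩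
          exact al.ninv t (cE (cE (ab tt al 1 t ((n + i + l + i2 + 1) - t) (by omega)) (qf (show Par W (Q) (k - j) (n + j + i3 - k - i2 - l2 - 1) from fun t h1 h2 => (cE (sh al (-1) t (t + (-n)) (by omega)) (cE (pb a2 al (-1) (t + (-n)) (t + (j - k)) (by omega)) (qf D2 al (-1) (t + (j - k)) (t + (n + j + i3 - k - i2 - l2 - 1)) (by omega))))) al 0 ((n + i + l + i2 + 1) - t) ((2 * n + i + j + l + i3 - k - l2) - t) (by omega))) (sh al 1 ((2 * n + i + j + l + i3 - k - l2) - t) t (by omega)))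

theorem t2c_36 {W : ℤ → G} {n Q i j k l i2 l2 i3 : ℤ} (al : AL W n Q)
    (hy : (0) ≤ (i) ∧ (i) ≤ (j) ∧ (j + 1) ≤ (Q) ∧ (Q) ≤ (k) ∧ (k + 1) ≤ (n) ∧ (Q) ≤ (i + l + 1) ∧ (k + l + 2) ≤ (n) ∧ (Q) ≤ (i2) ∧ (i2) ≤ (i + l + 1) ∧ (Q) ≤ (i2 + l2 + 1) ∧ (i2 + l2 + 2) ≤ (n) ∧ (n) ≤ (k + l + l2 + 2) ∧ (k + l + l2 + 3) ≤ (n + Q) ∧ (0) ≤ (i3) ∧ (n + i3) ≤ (k + l + l2 + 2) ∧ (k + i2 + l2 + 2) ≤ (n + j + i3) ∧ (j + i3 + 1) ≤ (k) ∧ (k + i2 + l2 + 2) ≤ (n + i3) ∧ (i + 2 * i2 + 1) ≤ (2 * Q + k) ∧ (i + l + 1) ≤ (i2 + l2) ∧ (k + l + 1) ≤ (i2 + l2) ∧ (2 * k + 2 * l + 3) ≤ (n + i2) ∧ (i + 1) ≤ (i3))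
    (a1 : Par W (0) (j) (k - j))
    (a2 : Par W (Q + j - k) (j) (k - j))
    (s1 : Ant W (0) (i) (i + j))
    (s2 : Ant W (j + 1) (Q) (i + j))
    (b : Par W (i + 1) (i + l + 1) (k - i))
    (tt : Ant W (Q) (i2) (i + l + i2 + 1))
    (c : Par W (i2 + 1) (i2 + l2 + 1) (k + l - i2 + 1))
    (u1 : Ant W (0) (i3) (k + l + l2 + i3 - n + 2))
    (u2 : Ant W (k + l + l2 - n + 3) (Q) (k + l + l2 + i3 - n + 2))
    (D1 : Par W (i3 + 1) (Q) (i2 + l2 - i3 + 1))
    (D2 : Par W (i2 + l2 + 2) (n) (i3 - i2 - l2 - 1))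
    {L : ℤ} (mx : ∀ a b g, 0 < g → g < n → Par W a b g → b - a ≤ L)
    (hL : L ≤ (n - j - 3) ∧ L ≤ (n + Q - k - 3) ∧ L ≤ (n - l - 3) ∧ L ≤ (n + i - k - 2) ∧ L ≤ (n - l2 - 3) ∧ L ≤ (n + i3 - Q - 2) ∧ L ≤ (i2 + l2 - 1) ∧ L ≤ (n + i2 - k - l - 3) ∧ L ≤ (Q + i2 + l2 - i - l - 3))
    (bd0 : Bd W n L (j) (i) (k))
    (bd2 : Bd W n L (k + l + l2 - n + 2) (i3) (i2 + l2 + 1))
    (n1 : Nd W (j) (i) (k))
    (n2 : Nd W (i + l + 1) (i2) (k + l + 1))
    (n3 : Nd W (k + l + l2 - n + 2) (i3) (i2 + l2 + 1))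
    (b0 : (2 * l2 + 3) ≤ (n))
    (b1 : (j + l + l2 + i3 + 3) ≤ (n))
    (b2 : (i + k + 2 * l + 3) ≤ (Q + i2 + l2))
    (b3 : (k + l + l2 + i3 + 3) ≤ (n + i + j))
    (b4 : (2 * Q + k + 2 * i2 + l2) ≤ (n + i + j + l + 3 * i3 + 1))
    (b5 : (j + i2) ≤ (l + 2 * i3 + 1))
    (b6 : (k + 2 * l + i3 + 2) ≤ (2 * i2 + l2))
    (b7 : (2 * i2 + 2 * l2 + 4) ≤ (n + j + k))
    (b8 : (i + l + 2) ≤ (k))
    (b9 : (2 * i2 + l2) ≤ (j + k + 2 * l + 2))
    (b10 : (2 * i2 + l2 + i3) ≤ (Q + i + k + 2 * l + 1)) : False := by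
  have ev := al.ev
  obtain ⟨y0, y1, y2, y3, y4, y5, y6, y7, y8, y9, y10, y11, y12, y13, y14, y15, y16, y17, y18, y19, y20, y21, y22⟩ := id hy
  have n1p := And.intro n1.p1 n1.p2
  have n2p := And.intro n2.p1 n2.p2
  have n3p := And.intro n3.p1 n3.p2
  by_cases z92 : (i + k + l + l2 + 2) ≤ (n + 2 * i3)
  · exact t2c_37 al hy a1 a2 s1 s2 b tt c u1 u2 D1 D2 mx hL bd0 bd2 n1 n2 n3 (by clear * - b0; omega) (by clear * - b1; omega) (by clear * - b2; omega) (by clear * - b3; omega) (by clear * - b4; omega) (by clear * - b5; omega) (by clear * - b6; omega) (by clear * - b7; omega) (by clear * - b8; omega) (by clear * - b9; omega) (by clear * - b10; omega) (by clear * - z92; omega)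
  · exact t2c_38 al hy a1 a2 s1 s2 b tt c u1 u2 D1 D2 mx hL bd0 bd2 n1 n2 n3 (by clear * - b0; omega) (by clear * - b1; omega) (by clear * - b2; omega) (by clear * - b4; omega) (by clear * - b5; omega) (by clear * - b6; omega) (by clear * - b7; omega) (by clear * - b8; omega) (by clear * - b9; omega) (by clear * - b10; omega) (by clear * - z92; omega)

theorem t2c_39 {W : ℤ → G} {n Q i j k l i2 l2 i3 : ℤ} (al : AL W n Q)
    (hy : (0) ≤ (i) ∧ (i) ≤ (j) ∧ (j + 1) ≤ (Q) ∧ (Q) ≤ (k) ∧ (k + 1) ≤ (n) ∧ (Q) ≤ (i + l + 1) ∧ (k + l + 2) ≤ (n) ∧ (Q) ≤ (i2) ∧ (i2) ≤ (i + l + 1) ∧ (Q) ≤ (i2 + l2 + 1) ∧ (i2 + l2 + 2) ≤ (n) ∧ (n) ≤ (k + l + l2 + 2) ∧ (k + l + l2 + 3) ≤ (n + Q) ∧ (0) ≤ (i3) ∧ (n + i3) ≤ (k + l + l2 + 2) ∧ (k + i2 + l2 + 2) ≤ (n + j + i3) ∧ (j + i3 + 1) ≤ (k) ∧ (k + i2 + l2 + 2) ≤ (n + i3) ∧ (i + 2 * i2 + 1) ≤ (2 * Q + k) ∧ (i + l + 1) ≤ (i2 + l2) ∧ (k + l + 1) ≤ (i2 + l2) ∧ (2 * k + 2 * l + 3) ≤ (n + i2) ∧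 (i + 1) ≤ (i3))
    (a1 : Par W (0) (j) (k - j))
    (a2 : Par W (Q + j - k) (j) (k - j))
    (s1 : Ant W (0) (i) (i + j))
    (s2 : Ant W (j + 1) (Q) (i + j))
    (b : Par W (i + 1) (i + l + 1) (k - i))
    (tt : Ant W (Q) (i2) (i + l + i2 + 1))
    (c : Par W (i2 + 1) (i2 + l2 + 1) (k + l - i2 + 1))
    (u1 : Ant W (0) (i3) (k + l + l2 + i3 - n + 2))
    (u2 : Ant W (k + l + l2 - n + 3) (Q) (k + l + l2 + i3 - n + 2))
    (D1 : Par W (i3 + 1) (Q) (i2 + l2 - i3 + 1))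
    (D2 : Par W (i2 + l2 + 2) (n) (i3 - i2 - l2 - 1))
    {L : ℤ} (mx : ∀ a b g, 0 < g → g < n → Par W a b g → b - a ≤ L)
    (hL : L ≤ (n - j - 3) ∧ L ≤ (n + Q - k - 3) ∧ L ≤ (n - l - 3) ∧ L ≤ (n + i - k - 2) ∧ L ≤ (n - l2 - 3) ∧ L ≤ (n + i3 - Q - 2) ∧ L ≤ (i2 + l2 - 1) ∧ L ≤ (n + i2 - k - l - 3) ∧ L ≤ (Q + i2 + l2 - i - l - 3))
    (bd0 : Bd W n L (j) (i) (k))
    (bd2 : Bd W n L (k + l + l2 - n + 2) (i3) (i2 + l2 + 1))
    (n1 : Nd W (j) (i) (k))
    (n2 : Nd W (i + l + 1) (i2) (k + l + 1))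
    (n3 : Nd W (k + l + l2 - n + 2) (i3) (i2 + l2 + 1))
    (b0 : (2 * l2 + 3) ≤ (n))
    (b1 : (j + l + l2 + i3 + 3) ≤ (n))
    (b2 : (i + k + 2 * l + 3) ≤ (Q + i2 + l2))
    (b3 : (k + l + l2 + i3 + 3) ≤ (n + i + j))
    (b4 : (2 * Q + k + 2 * i2 + l2) ≤ (n + i + j + l + 3 * i3 + 1))
    (b5 : (j + i2) ≤ (l + 2 * i3 + 1))
    (b6 : (2 * i2 + 2 * l2 + 4) ≤ (n + j + k))
    (b7 : (2 * i2 + l2) ≤ (j + k + 2 * l + 2))
    (b8 : (Q + i + k + 2 * l + 2) ≤ (2 * i2 + l2 + i3)) : False := by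
  have ev := al.ev
  obtain ⟨y0, y1, y2, y3, y4, y5, y6, y7, y8, y9, y10, y11, y12, y13, y14, y15, y16, y17, y18, y19, y20, y21, y22⟩ := id hy
  have n1p := And.intro n1.p1 n1.p2
  have n2p := And.intro n2.p1 n2.p2
  have n3p := And.intro n3.p1 n3.p2
  by_cases z108 : (n + k + l + i3) ≤ (3 * i2 + 2 * l2 + 1)
  · have kk1966 : (3 * i2 + l2) ≤ (2 * k + 2 * l + i3) := by clear * - b5 b6 y14; omega
    have kk1967 : (2 * k + 2 * l + i3 + 2) ≤ (n + 3 * i2 + l2) := by clear * - b1 b5 b6 b7 y20 z108; omega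
    have kk1968 : (2 * k + 2 * l + 3) ≤ (n + i2) := by clear * - y21; omega
    have kk1969 : (i3) ≤ (i2) := by clear * - b1 b5 b6 b7 z108; omega
    have kk1970 : (i2) ≤ (k + l + 1) := by clear * - b2 b3 b4 b5 b6 b7 y16 z108; linarith
    have kk1971 : (n + k + l + i3) ≤ (3 * i2 + 2 * l2 + 1) := by clear * - z108; omega
    clear * - al c D2 kk1966 kk1967 kk1968 kk1969 kk1970 kk1971
    exact al.ubP (2 * k + 2 * l + i3 - 3 * i2 - l2 + 1) (by omega) (by omega) fun t h1 h2 => (cE (sh al 2 t (t + (2 * n)) (by omega)) (cE (cE (cE (qf D2 al 1 (t + (2 * n)) (t + (n + i3 - i2 - l2 - 1)) (by omega)) (qf c al 0 (t + (n + i3 - i2 - l2 - 1)) (t + (n + k + l + i3 - 2 * i2 - l2)) (by omega))) (qf c al 0 (t + (n + k + l + i3 - 2 * i2 - l2)) (t + (n + 2 * k + 2 * l + i3 - 3 * i2 - l2 + 1)) (by omega))) (sh al (-1) (t + (n + 2 * k + 2 * l + i3 - 3 * i2 - l2 + 1)) (t + (2 * k + 2 * l + i3 - 3 * i2 - l2 + 1)) (by omega))))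
  · by_cases z109 : (n + 2 * Q + j + i3) ≤ (i + k + l + 2 * i2 + l2 + 2)
    · by_cases v78 : (n + Q + j + i3) ≤ (i + k + l + i2 + l2 + 3)
      · have kk1972 : (i + k + l + l2 + 4) ≤ (n + j + i3) := by clear * - b0 b2 b4 b7 v78; omega
        have kk1973 : (n + 2 * Q + j + i3) ≤ (i + k + l + 2 * i2 + l2 + 3) := by clear * - z109; omega
        have kk1974 : (i3) ≤ (i + l + 1) := by clear * - b0 b2 b3 b5 b7 v78 z109; linarith
        have kk1975 : (n + Q + j + i3) ≤ (i + k + l + i2 + l2 + 3) := by clear * - v78; omega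
        have kk1976 : (i + l + 2 * i2 + l2 + 3) ≤ (n + Q + j + i3) := by clear * - b2 b3 b5 b6 b7 z109; omega
        have kk1977 : (i + l + 2 * i2 + l2 + 3) ≤ (n + Q + i3) := by clear * - b2 z108; omega
        have r1978 : (i + k + l + 2 * i2 + l2 - 3 * n - j - i3 + 2) % 2 = 0 := by clear * - ev n1p n2p n3p; omega
        clear * - al a2 tt D2 kk1972 kk1973 kk1974 kk1975 kk1976 kk1977 r1978
        obtain ⟨t, ht⟩ : ∃ t, 2 * t = (i + k + l + 2 * i2 + l2 - 3 * n - j - i3 + 2) := ⟨(i + k + l + 2 * i2 + l2 - 3 * n - j - i3 + 2) / 2, by omega⟩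
        exact al.ninv t (cE (cI (cE (pb a2 al (-1) t (t + (n + j - k)) (by omega)) (qf D2 al (-1) (t + (n + j - k)) (t + (2 * n + j + i3 - k - i2 - l2 - 1)) (by omega))) (ab tt al 0 (t + (2 * n + j + i3 - k - i2 - l2 - 1)) ((i + k + l + 2 * i2 + l2 - 2 * n - j - i3 + 2) - t) (by omega))) (sh al (-1) ((i + k + l + 2 * i2 + l2 - 2 * n - j - i3 + 2) - t) t (by omega)))
      · have kk1979 : (n + 2 * Q + j + i3) ≤ (i + k + l + 2 * i2 + l2 + 2) := by clear * - z109; omega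
        have kk1980 : (n + 2 * Q + j + i3) ≤ (i + k + l + 2 * i2 + l2 + 3) := by clear * - z109; omega
        have kk1981 : (i3) ≤ (i + l + 1) := by clear * - b0 b2 b3 b5 v78 y14 z109; linarith
        have kk1982 : (i + k + l + i2 + l2 + 3) ≤ (n + Q + j + i3) := by clear * - v78; omega
        have kk1983 : (i + l + 2 * i2 + l2 + 3) ≤ (n + Q + j + i3) := by clear * - b2 b3 b5 b6 b7 z109; omega
        have kk1984 : (i + l + 2 * i2 + l2 + 3) ≤ (n + Q + i3) := by clear * - b2 z108; omega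
        have r1985 : (i + k + l + 2 * i2 + l2 - 3 * n - j - i3 + 2) % 2 = 0 := by clear * - ev n1p n2p n3p; omega
        clear * - al a2 tt D2 kk1979 kk1980 kk1981 kk1982 kk1983 kk1984 r1985
        obtain ⟨t, ht⟩ : ∃ t, 2 * t = (i + k + l + 2 * i2 + l2 - 3 * n - j - i3 + 2) := ⟨(i + k + l + 2 * i2 + l2 - 3 * n - j - i3 + 2) / 2, by omega⟩
        exact al.ninv t (cE (cI (cE (pb a2 al (-1) t (t + (n + j - k)) (by omega)) (qf D2 al (-1) (t + (n + j - k)) (t + (2 * n + j + i3 - k - i2 - l2 - 1)) (by omega))) (ab tt al 0 (t + (2 * n + j + i3 - k - i2 - l2 - 1)) ((i + k + l + 2 * i2 + l2 - 2 * n - j - i3 + 2) - t) (by omega))) (sh al (-1) ((i + k + l + 2 * i2 + l2 - 2 * n - j - i3 + 2) - t) t (by omega)))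
    · by_cases z110 : (i + 2 * i2 + l2 + 1) ≤ (2 * k + l + i3)
      · by_cases z111 : (4 * k + 3 * l + l2 + i3 + 6) ≤ (2 * n + 2 * Q + i + 2 * i2)
        · by_cases v79 : (n + 2 * Q + j) ≤ (2 * k + l + l2 + i3 + 3)
          · by_cases v80 : (2 * i2 + l2) ≤ (2 * k + l)
            · have kk1986 : (i + 2 * i2 + l2 + 1) ≤ (2 * k + l + i3) := by clear * - z110; omega
              have kk1987 : (4 * k + 3 * l + l2 + i3 + 6) ≤ (2 * n + 2 * Q + i + 2 * i2) := by clear * - z111; omega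
              have kk1988 : (i + 2 * j + l + 2) ≤ (2 * i2 + l2 + i3) := by clear * - b0 b5 b7 b8 v79 v80 y14 z111; linarith
              have kk1989 : (2 * i2 + 3 * l2 + 4) ≤ (2 * n + i + l + i3) := by clear * - b0 b2 b5 b7 v79 v80 z111; linarith
              have kk1990 : (k + l) ≤ (i2 + l2) := by clear * - y20; omega
              have kk1991 : (n) ≤ (k + l + l2 + 2) := by clear * - y13 y14; omega
              have kk1992 : (i3) ≤ (j) := by clear * - b3 b7 b8 v80 y14 z111; omega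
              have kk1993 : (n + 2 * Q + j) ≤ (2 * k + l + l2 + i3 + 3) := by clear * - v79; omega
              have kk1994 : (2 * i2 + l2) ≤ (2 * k + l) := by clear * - v80; omega
              have kk1995 : (2 * k + 2 * l + 2) ≤ (n + i2) := by clear * - y21; omega
              have kk1996 : (2 * i2 + l2) ≤ (j + k + 2 * l + 1) := by clear * - b0 b4 y14 z109; omega
              have kk1997 : (n + i) ≤ (k + l + l2 + 2) := by clear * - b0 b5 b7 b8 v80 y14 z109 z111; linarith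
              have r1998 : (2 * k + l + l2 + i3 - 3 * n - j + 2) % 2 = 0 := by clear * - ev n1p n2p n3p; omega
              have r1999 : (2 * k + l + i3 - i - 2 * i2 - l2) % 2 = 0 := by clear * - ev n1p n2p n3p; omega
              clear * - al a2 b c u2 D2 kk1986 kk1987 kk1988 kk1989 kk1990 kk1991 kk1992 kk1993 kk1994 kk1995 kk1996 kk1997 r1998 r1999
              exact midP al (2 * k + l + i3 - i - 2 * i2 - l2) (2 * k + l + l2 + i3 - 3 * n - j + 2) (k + l + l2 - 2 * n + 3) (i - n + 1) (2 * k + 2 * l + i3 - n - 2 * i2 - l2 + 1) (by omega) (fun t h1 h2 => (cE (cE (qa u2 al (-1) t ((k + l + l2 + i3 - 2 * n + 2) - t) (by omega)) (qf a2 al 0 ((k + l + l2 + i3 - 2 * n + 2) - t) ((2 * k + l + l2 + i3 - 2 * n - j + 2) - t) (by omega))) (sh al (-1) ((2 * k + l + l2 + i3 - 2 * n - j + 2) - t) ((2 * k + l + l2 + i3 - 3 * n - j + 2) - t) (by omega)))) (fun t h1 h2 => (cE (cE (qf b al (-1) t (t + (n + k - i)) (by omega))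 (pb (show Par W (i3 + 1) (n + i3 - i2 - l2 - 1) (2 * i2 + l2 - k - l - i3) from fun t h1 h2 => (cE (sh al (-1) t (t + (-n)) (by omega)) (cE (pb D2 al (-1) (t + (-n)) (t + (i2 + l2 - i3 + 1)) (by omega)) (pb c al 0 (t + (i2 + l2 - i3 + 1)) (t + (2 * i2 + l2 - k - l - i3)) (by omega))))) al 0 (t + (n + k - i)) (t + (n + 2 * k + l + i3 - i - 2 * i2 - l2)) (by omega))) (sh al (-1) (t + (n + 2 * k + l + i3 - i - 2 * i2 - l2)) (t + (2 * k + l + i3 - i - 2 * i2 - l2)) (by omega))))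
            · have kk2000 : (i + 2 * i2 + l2 + 1) ≤ (2 * k + l + i3) := by clear * - z110; omega
              have kk2001 : (4 * k + 3 * l + l2 + i3 + 6) ≤ (2 * n + 2 * Q + i + 2 * i2) := by clear * - z111; omega
              have kk2002 : (i + 2 * j + 2 * i2 + l2 + 2) ≤ (4 * k + l + i3) := by clear * - v79 y14 z110 z111; omega
              have kk2003 : (2 * i2 + 3 * l2 + 4) ≤ (2 * n + i + l + i3) := by clear * - b0 b5 b6 b7 v79 v80 y18 z111; linarith
              have kk2004 : (k + l) ≤ (i2 + l2) := by clear * - y20; omega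
              have kk2005 : (n) ≤ (k + l + l2 + 2) := by clear * - y13 y14; omega
              have kk2006 : (i3) ≤ (j) := by clear * - b6 v80 y14; omega
              have kk2007 : (n + 2 * Q + j) ≤ (2 * k + l + l2 + i3 + 3) := by clear * - v79; omega
              have kk2008 : (2 * k + l) ≤ (2 * i2 + l2) := by clear * - v80; omega
              have kk2009 : (2 * k + 2 * l + 2) ≤ (n + i2) := by clear * - b1 b3 v79 v80 z109; omega
              have kk2010 : (2 * i2 + l2) ≤ (j + k + 2 * l + 1) := by clear * - b0 b4 y14 z109; omega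
              have kk2011 : (n + i + 2 * i2) ≤ (3 * k + 2 * l + 2) := by clear * - y14 z110; omega
              have r2012 : (2 * k + l + l2 + i3 - 3 * n - j + 2) % 2 = 0 := by clear * - ev n1p n2p n3p; omega
              have r2013 : (2 * k + l + i3 - i - 2 * i2 - l2) % 2 = 0 := by clear * - ev n1p n2p n3p; omega
              clear * - al a2 b c u2 D2 kk2000 kk2001 kk2002 kk2003 kk2004 kk2005 kk2006 kk2007 kk2008 kk2009 kk2010 kk2011 r2012 r2013
              exact midP al (2 * k + l + i3 - i - 2 * i2 - l2) (2 * k + l + l2 + i3 - 3 * n - j + 2) (k + l + l2 - 2 * n + 3) (i + 2 * i2 + l2 - n - 2 * k - l + 1) (2 * k + 2 * l + i3 - n - 2 * i2 - l2 + 1) (by omega) (fun t h1 h2 => (cE (cE (qa u2 al (-1) t ((k + l + l2 + i3 - 2 * n + 2) - t) (by omega)) (qf a2 al 0 ((k + l + l2 + i3 - 2 * n + 2) - t) ((2 * k + l + l2 + i3 - 2 * n - j + 2) - t) (by omega))) (sh al (-1) ((2 * k + l + l2 + i3 - 2 * n - j + 2) - t)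 ((2 * k + l + l2 + i3 - 3 * n - j + 2) - t) (by omega)))) (fun t h1 h2 => (cE (cE (qf b al (-1) t (t + (n + k - i)) (by omega)) (pb (show Par W (i3 + 1) (n + i3 - i2 - l2 - 1) (2 * i2 + l2 - k - l - i3) from fun t h1 h2 => (cE (sh al (-1) t (t + (-n)) (by omega)) (cE (pb D2 al (-1) (t + (-n)) (t + (i2 + l2 - i3 + 1)) (by omega)) (pb c al 0 (t + (i2 + l2 - i3 + 1)) (t + (2 * i2 + l2 - k - l - i3)) (by omega))))) al 0 (t + (n + k - i)) (t + (n + 2 * k + l + i3 - i - 2 * i2 - l2)) (by omega))) (sh al (-1) (t + (n + 2 * k + l + i3 - i - 2 * i2 - l2)) (t + (2 * k + l + i3 - i - 2 * i2 - l2)) (by omega))))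
          · by_cases v81 : (2 * i2 + l2) ≤ (2 * k + l)
            · have kk2014 : (i + 2 * i2 + l2 + 1) ≤ (2 * k + l + i3) := by clear * - z110; omega
              have kk2015 : (2 * Q + 2 * j + l) ≤ (i + 2 * i2 + l2 + i3) := by clear * - b0 b1 b4 b5 b8 v79 y0 y14; linarith
              have kk2016 : (i + 2 * j + l + 2) ≤ (2 * i2 + l2 + i3) := by clear * - b0 b4 b5 b8 v79 v81 y14 z111; linarith
              have kk2017 : (2 * i2 + 3 * l2 + 4) ≤ (2 * n + i + l + i3) := by clear * - b0 b4 b5 b8 v79 v81 y14 z111; linarith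
              have kk2018 : (k + l) ≤ (i2 + l2) := by clear * - y20; omega
              have kk2019 : (n) ≤ (k + l + l2 + 2) := by clear * - y13 y14; omega
              have kk2020 : (i3) ≤ (j) := by clear * - b3 b7 b8 v81 y14 z111; omega
              have kk2021 : (2 * k + l + l2 + i3 + 3) ≤ (n + 2 * Q + j) := by clear * - v79; omega
              have kk2022 : (2 * i2 + l2) ≤ (2 * k + l) := by clear * - v81; omega
              have kk2023 : (2 * k + 2 * l + 2) ≤ (n + i2) := by clear * - y21; omega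
              have kk2024 : (2 * i2 + l2) ≤ (j + k + 2 * l + 1) := by clear * - b0 b4 v79 y14 z110; omega
              have kk2025 : (n + i) ≤ (k + l + l2 + 2) := by clear * - b0 b5 b7 b8 v79 v81 y14 z111; linarith
              have r2026 : (2 * k + l + l2 + i3 - 3 * n - j + 2) % 2 = 0 := by clear * - ev n1p n2p n3p; omega
              have r2027 : (2 * k + l + i3 - i - 2 * i2 - l2) % 2 = 0 := by clear * - ev n1p n2p n3p; omega
              clear * - al a2 b c u2 D2 kk2014 kk2015 kk2016 kk2017 kk2018 kk2019 kk2020 kk2021 kk2022 kk2023 kk2024 kk2025 r2026 r2027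
              exact midP al (2 * k + l + i3 - i - 2 * i2 - l2) (2 * k + l + l2 + i3 - 3 * n - j + 2) (k + l + l2 - 2 * n + 3) (i - n + 1) (2 * k + 2 * l + i3 - n - 2 * i2 - l2 + 1) (by omega) (fun t h1 h2 => (cE (cE (qa u2 al (-1) t ((k + l + l2 + i3 - 2 * n + 2) - t) (by omega)) (qf a2 al 0 ((k + l + l2 + i3 - 2 * n + 2) - t) ((2 * k + l + l2 + i3 - 2 * n - j + 2) - t) (by omega))) (sh al (-1) ((2 * k + l + l2 + i3 - 2 * n - j + 2) - t) ((2 * k + l + l2 + i3 - 3 * n - j + 2) - t) (by omega)))) (fun t h1 h2 => (cE (cE (qf b al (-1) t (t + (n + k - i)) (by omega)) (pb (show Par W (i3 + 1) (n + i3 - i2 - l2 - 1) (2 * i2 + l2 - k - l - i3) from fun t h1 h2 => (cE (sh al (-1) t (t + (-n)) (by omega)) (cE (pb D2 al (-1) (t + (-n)) (t + (i2 + l2 - i3 + 1)) (by omega)) (pb c al 0 (t + (i2 + l2 - i3 + 1)) (t + (2 * i2 + l2 - k - l - i3)) (by omega))))) al 0 (t + (n + k - i)) (t + (n + 2 * k + l + i3 - i - 2 * i2 - l2))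 (by omega))) (sh al (-1) (t + (n + 2 * k + l + i3 - i - 2 * i2 - l2)) (t + (2 * k + l + i3 - i - 2 * i2 - l2)) (by omega))))
            · have kk2028 : (i + 2 * i2 + l2 + 1) ≤ (2 * k + l + i3) := by clear * - z110; omega
              have kk2029 : (2 * Q + 2 * j + l) ≤ (i + 2 * i2 + l2 + i3) := by clear * - b0 b1 b5 b8 v81 y0 y14 z108; linarith
              have kk2030 : (i + 2 * j + 2 * i2 + l2 + 2) ≤ (4 * k + l + i3) := by clear * - y13 y16 z110; omega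
              have kk2031 : (2 * i2 + 3 * l2 + 4) ≤ (2 * n + i + l + i3) := by clear * - b0 b3 b5 b8 y14 z110 z111; linarith
              have kk2032 : (k + l) ≤ (i2 + l2) := by clear * - y20; omega
              have kk2033 : (n) ≤ (k + l + l2 + 2) := by clear * - y13 y14; omega
              have kk2034 : (i3) ≤ (j) := by clear * - b6 v81 y14; omega
              have kk2035 : (2 * k + l + l2 + i3 + 3) ≤ (n + 2 * Q + j) := by clear * - v79; omega
              have kk2036 : (2 * k + l) ≤ (2 * i2 + l2) := by clear * - v81; omega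
              have kk2037 : (2 * k + 2 * l + 2) ≤ (n + i2) := by clear * - b1 b2 b3 b4 v81; omega
              have kk2038 : (2 * i2 + l2) ≤ (j + k + 2 * l + 1) := by clear * - b0 b4 v79 y14 z110; omega
              have kk2039 : (n + i + 2 * i2) ≤ (3 * k + 2 * l + 2) := by clear * - y14 z110; omega
              have r2040 : (2 * k + l + l2 + i3 - 3 * n - j + 2) % 2 = 0 := by clear * - ev n1p n2p n3p; omega
              have r2041 : (2 * k + l + i3 - i - 2 * i2 - l2) % 2 = 0 := by clear * - ev n1p n2p n3p; omega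
              clear * - al a2 b c u2 D2 kk2028 kk2029 kk2030 kk2031 kk2032 kk2033 kk2034 kk2035 kk2036 kk2037 kk2038 kk2039 r2040 r2041
              exact midP al (2 * k + l + i3 - i - 2 * i2 - l2) (2 * k + l + l2 + i3 - 3 * n - j + 2) (k + l + l2 - 2 * n + 3) (i + 2 * i2 + l2 - n - 2 * k - l + 1) (2 * k + 2 * l + i3 - n - 2 * i2 - l2 + 1) (by omega) (fun t h1 h2 => (cE (cE (qa u2 al (-1) t ((k + l + l2 + i3 - 2 * n + 2) - t) (by omega)) (qf a2 al 0 ((k + l + l2 + i3 - 2 * n + 2) - t) ((2 * k + l + l2 + i3 - 2 * n - j + 2) - t) (by omega))) (sh al (-1) ((2 * k + l + l2 + i3 - 2 * n - j + 2) - t) ((2 * k + l + l2 + i3 - 3 * n - j + 2) - t) (by omega)))) (fun t h1 h2 => (cE (cE (qf b al (-1) t (t + (n + k - i)) (by omega)) (pb (show Par W (i3 + 1) (n + i3 - i2 - l2 - 1) (2 * i2 + l2 - k - l - i3) from fun t h1 h2 => (cE (sh al (-1) t (t + (-n)) (by omega)) (cE (pb D2 al (-1) (t + (-n)) (t + (i2 + l2 - i3 + 1))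 (by omega)) (pb c al 0 (t + (i2 + l2 - i3 + 1)) (t + (2 * i2 + l2 - k - l - i3)) (by omega))))) al 0 (t + (n + k - i)) (t + (n + 2 * k + l + i3 - i - 2 * i2 - l2)) (by omega))) (sh al (-1) (t + (n + 2 * k + l + i3 - i - 2 * i2 - l2)) (t + (2 * k + l + i3 - i - 2 * i2 - l2)) (by omega))))
        · by_cases v82 : (Q + 2 * i2 + l2) ≤ (2 * k + l + i3 + 1)
          · have kk2042 : (j + k + l + i3 + 1) ≤ (i + 2 * i2 + l2) := by clear * - b0 b3 b5 b8 y14 y2; omega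
            have kk2043 : (i + k + l + 2 * i2 + 3 * l2 + 6) ≤ (2 * n + 2 * Q + j + i3) := by clear * - b0 z109; omega
            have kk2044 : (i + j + k + l + i3 + 2) ≤ (2 * Q + 2 * i2 + l2) := by clear * - b0 b2 b3 b5 b8 y14; omega
            have kk2045 : (k + 2 * i2 + 3 * l2 + i3 + 4) ≤ (2 * n + 2 * Q + i + j + l) := by clear * - b0 b2 b3 b5 b8 y14 z109; linarith
            have kk2046 : (k + l) ≤ (i2 + l2) := by clear * - y20; omega
            have kk2047 : (n) ≤ (k + l + l2 + 2) := by clear * - y13 y14; omega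
            have kk2048 : (2 * i2 + l2) ≤ (2 * k + l) := by clear * - b0 b2 b3 b5 v82 y14; omega
            have kk2049 : (Q + 2 * i2 + l2) ≤ (2 * k + l + i3 + 1) := by clear * - v82; omega
            have kk2050 : (k + i2 + l2 + 1) ≤ (n + i3) := by clear * - y17; omega
            have kk2051 : (k + 2 * l + i3 + 1) ≤ (2 * i2 + l2) := by clear * - b3 b8 y14 y2; omega
            have kk2052 : (Q) ≤ (i + l + 1) := by clear * - b0 b3 b5 b8 y14; omega
            have kk2053 : (n + Q + j) ≤ (2 * i2 + 2 * l2 + 2) := by clear * - b0 b3 b5 b8 y14 y2; omega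
            have r2054 : (k + l + l2 + i3 - 3 * n + 2) % 2 = 0 := by clear * - ev n1p n2p n3p; omega
            have r2055 : (i + 2 * i2 + l2 - j - k - l - i3) % 2 = 0 := by clear * - ev n1p n2p n3p; omega
            clear * - al a2 b c u2 D2 kk2042 kk2043 kk2044 kk2045 kk2046 kk2047 kk2048 kk2049 kk2050 kk2051 kk2052 kk2053 r2054 r2055
            exact midP al (i + 2 * i2 + l2 - j - k - l - i3) (k + l + l2 + i3 - 3 * n + 2) (k + l + l2 + i3 - 2 * n - Q + 3) (j + k + l + i3 - n - 2 * i2 - l2 + 1) (i + l - n + 1) (by omega) (fun t h1 h2 => (cE (ab u2 al (-1) t ((k + l + l2 + i3 - 2 * n + 2) - t) (by omega)) (sh al (-1) ((k + l + l2 + i3 - 2 * n + 2) - t) ((k + l + l2 + i3 - 3 * n + 2) - t) (by omega)))) (fun t h1 h2 => (cE (cE (cE (qf a2 al (-1) t (t + (n + k - j)) (by omega)) (qf (show Par W (i3 + 1) (n + i3 - i2 - l2 - 1) (2 * i2 + l2 - k - l - i3) from fun t h1 h2 => (cE (sh al (-1) t (t + (-n)) (by omega))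 (cE (pb D2 al (-1) (t + (-n)) (t + (i2 + l2 - i3 + 1)) (by omega)) (pb c al 0 (t + (i2 + l2 - i3 + 1)) (t + (2 * i2 + l2 - k - l - i3)) (by omega))))) al 0 (t + (n + k - j)) (t + (n + 2 * i2 + l2 - j - l - i3)) (by omega))) (pb b al 0 (t + (n + 2 * i2 + l2 - j - l - i3)) (t + (n + i + 2 * i2 + l2 - j - k - l - i3)) (by omega))) (sh al (-1) (t + (n + i + 2 * i2 + l2 - j - k - l - i3)) (t + (i + 2 * i2 + l2 - j - k - l - i3)) (by omega))))
          · have kk2056 : (j + k + l + i3 + 1) ≤ (i + 2 * i2 + l2) := by clear * - b0 b3 b5 b8 v82 y2 z111; linarith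
            have kk2057 : (i + k + l + 2 * i2 + 3 * l2 + 6) ≤ (2 * n + 2 * Q + j + i3) := by clear * - b0 z109; omega
            have kk2058 : (i + j + 2 * i2 + l2) ≤ (3 * k + l + i3) := by clear * - y13 y16 z110; omega
            have kk2059 : (k + 2 * i2 + 3 * l2 + i3 + 4) ≤ (2 * n + 2 * Q + i + j + l) := by clear * - b0 b3 b5 v82 y14 z110; omega
            have kk2060 : (k + l) ≤ (i2 + l2) := by clear * - y20; omega
            have kk2061 : (n) ≤ (k + l + l2 + 2) := by clear * - y13 y14; omega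
            have kk2062 : (2 * k + l + i3 + 1) ≤ (Q + 2 * i2 + l2) := by clear * - v82; omega
            have kk2063 : (i3 + 1) ≤ (Q) := by clear * - b0 b2 b3 b5 y14; omega
            have kk2064 : (k + i2 + l2 + 1) ≤ (n + i3) := by clear * - y17; omega
            have kk2065 : (k + 2 * l + i3 + 1) ≤ (2 * i2 + l2) := by clear * - b3 b8 v82 y2 z111; omega
            have kk2066 : (Q) ≤ (i + l + 1) := by clear * - b0 b3 b5 b8 y14; omega
            have kk2067 : (n + 2 * Q + j) ≤ (2 * k + l + l2 + i3 + 3) := by clear * - b0 b3 b5 b8 v82 y2 z111; linarith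
            have r2068 : (k + l + l2 + i3 - 3 * n + 2) % 2 = 0 := by clear * - ev n1p n2p n3p; omega
            have r2069 : (i + 2 * i2 + l2 - j - k - l - i3) % 2 = 0 := by clear * - ev n1p n2p n3p; omega
            clear * - al a2 b c u2 D2 kk2056 kk2057 kk2058 kk2059 kk2060 kk2061 kk2062 kk2063 kk2064 kk2065 kk2066 kk2067 r2068 r2069
            exact midP al (i + 2 * i2 + l2 - j - k - l - i3) (k + l + l2 + i3 - 3 * n + 2) (k + l + l2 + i3 - 2 * n - Q + 3) (Q + j - n - k) (i + l - n + 1) (by omega) (fun t h1 h2 => (cE (ab u2 al (-1) t ((k + l + l2 + i3 - 2 * n + 2) - t) (by omega)) (sh al (-1) ((k + l + l2 + i3 - 2 * n + 2) - t) ((k + l + l2 + i3 - 3 * n + 2) - t) (by omega)))) (fun t h1 h2 => (cE (cE (cE (qf a2 al (-1) t (t + (n + k - j)) (by omega)) (qf (show Par W (i3 + 1) (n + i3 - i2 - l2 - 1) (2 * i2 + l2 - k - l - i3) from fun t h1 h2 => (cE (sh al (-1) t (t + (-n)) (by omega)) (cE (pb D2 al (-1)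 (t + (-n)) (t + (i2 + l2 - i3 + 1)) (by omega)) (pb c al 0 (t + (i2 + l2 - i3 + 1)) (t + (2 * i2 + l2 - k - l - i3)) (by omega))))) al 0 (t + (n + k - j)) (t + (n + 2 * i2 + l2 - j - l - i3)) (by omega))) (pb b al 0 (t + (n + 2 * i2 + l2 - j - l - i3)) (t + (n + i + 2 * i2 + l2 - j - k - l - i3)) (by omega))) (sh al (-1) (t + (n + i + 2 * i2 + l2 - j - k - l - i3)) (t + (i + 2 * i2 + l2 - j - k - l - i3)) (by omega))))
      · have kk2070 : (k + 2 * i3 + 1) ≤ (i + 2 * i2) := by clear * - b0 y14 z110; omega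
        have kk2071 : (i + 2 * i2 + 1) ≤ (n + k + 2 * i3) := by clear * - b0 b2 b5 b6 b8 y14 z110; linarith
        have kk2072 : (0) ≤ (i3) := by clear * - y13; omega
        have kk2073 : (i + l + 2 * i2 + l2 + 3) ≤ (n + Q + i3) := by clear * - b2 z108; omega
        have kk2074 : (i3) ≤ (i + l + 1) := by clear * - b0 b2 b5 b6 b8 y14 z110; linarith
        have kk2075 : (Q + i + i2) ≤ (k + 2 * i3) := by clear * - b5 b6 b8 y14; omega
        clear * - al tt u2 D2 kk2070 kk2071 kk2072 kk2073 kk2074 kk2075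
        exact al.ubQ (i + 2 * i2 - k - 2 * i3) (by omega) (by omega) fun t h1 h2 => (cE (sh al (-1) t (t + (-n)) (by omega)) (cII (cE (qa u2 al (-1) (t + (-n)) ((k + l + l2 + i3 - n + 2) - t) (by omega)) (qf D2 al (-1) ((k + l + l2 + i3 - n + 2) - t) ((k + l + 2 * i3 - i2 + 1) - t) (by omega))) (ab tt al 0 ((k + l + 2 * i3 - i2 + 1) - t) (t + (i + 2 * i2 - k - 2 * i3)) (by omega))))

theorem t2c_35 {W : ℤ → G} {n Q i j k l i2 l2 i3 : ℤ} (al : AL W n Q)
    (hy : (0) ≤ (i) ∧ (i) ≤ (j) ∧ (j + 1) ≤ (Q) ∧ (Q) ≤ (k) ∧ (k + 1) ≤ (n) ∧ (Q) ≤ (i + l + 1) ∧ (k + l + 2) ≤ (n) ∧ (Q) ≤ (i2) ∧ (i2) ≤ (i + l + 1) ∧ (Q) ≤ (i2 + l2 + 1) ∧ (i2 + l2 + 2) ≤ (n) ∧ (n) ≤ (k + l + l2 + 2) ∧ (k + l + l2 + 3) ≤ (n + Q) ∧ (0) ≤ (i3) ∧ (n + i3) ≤ (k + l + l2 + 2) ∧ (k + i2 + l2 + 2) ≤ (n + j + i3) ∧ (j + i3 + 1) ≤ (k) ∧ (k + i2 + l2 + 2) ≤ (n + i3) ∧ (i + 2 * i2 + 1) ≤ (2 * Q + k) ∧ (i + l + 1) ≤ (i2 + l2) ∧ (k + l + 1) ≤ (i2 + l2) ∧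 (2 * k + 2 * l + 3) ≤ (n + i2) ∧ (i + 1) ≤ (i3))
    (a1 : Par W (0) (j) (k - j))
    (a2 : Par W (Q + j - k) (j) (k - j))
    (s1 : Ant W (0) (i) (i + j))
    (s2 : Ant W (j + 1) (Q) (i + j))
    (b : Par W (i + 1) (i + l + 1) (k - i))
    (tt : Ant W (Q) (i2) (i + l + i2 + 1))
    (c : Par W (i2 + 1) (i2 + l2 + 1) (k + l - i2 + 1))
    (u1 : Ant W (0) (i3) (k + l + l2 + i3 - n + 2))
    (u2 : Ant W (k + l + l2 - n + 3) (Q) (k + l + l2 + i3 - n + 2))
    (D1 : Par W (i3 + 1) (Q) (i2 + l2 - i3 + 1))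
    (D2 : Par W (i2 + l2 + 2) (n) (i3 - i2 - l2 - 1))
    {L : ℤ} (mx : ∀ a b g, 0 < g → g < n → Par W a b g → b - a ≤ L)
    (hL : L ≤ (n - j - 3) ∧ L ≤ (n + Q - k - 3) ∧ L ≤ (n - l - 3) ∧ L ≤ (n + i - k - 2) ∧ L ≤ (n - l2 - 3) ∧ L ≤ (n + i3 - Q - 2) ∧ L ≤ (i2 + l2 - 1) ∧ L ≤ (n + i2 - k - l - 3) ∧ L ≤ (Q + i2 + l2 - i - l - 3))
    (bd0 : Bd W n L (j) (i) (k))
    (bd2 : Bd W n L (k + l + l2 - n + 2) (i3) (i2 + l2 + 1))
    (n1 : Nd W (j) (i) (k))
    (n2 : Nd W (i + l + 1) (i2) (k + l + 1))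
    (n3 : Nd W (k + l + l2 - n + 2) (i3) (i2 + l2 + 1))
    (b0 : (2 * l2 + 3) ≤ (n))
    (b1 : (j + l + l2 + i3 + 3) ≤ (n))
    (b2 : (i + k + 2 * l + 3) ≤ (Q + i2 + l2))
    (b3 : (k + l + l2 + i3 + 3) ≤ (n + i + j))
    (b4 : (2 * Q + k + 2 * i2 + l2) ≤ (n + i + j + l + 3 * i3 + 1))
    (b5 : (j + i2) ≤ (l + 2 * i3 + 1))
    (b6 : (k + 2 * l + i3 + 2) ≤ (2 * i2 + l2))
    (b7 : (2 * i2 + 2 * l2 + 4) ≤ (n + j + k))
    (b8 : (i + l + 2) ≤ (k))
    (b9 : (2 * i2 + l2) ≤ (j + k + 2 * l + 2)) : False := by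
  have ev := al.ev
  obtain ⟨y0, y1, y2, y3, y4, y5, y6, y7, y8, y9, y10, y11, y12, y13, y14, y15, y16, y17, y18, y19, y20, y21, y22⟩ := id hy
  have n1p := And.intro n1.p1 n1.p2
  have n2p := And.intro n2.p1 n2.p2
  have n3p := And.intro n3.p1 n3.p2
  by_cases z91 : (2 * i2 + l2 + i3) ≤ (Q + i + k + 2 * l + 1)
  · exact t2c_36 al hy a1 a2 s1 s2 b tt c u1 u2 D1 D2 mx hL bd0 bd2 n1 n2 n3 (by clear * - b0; omega) (by clear * - b1; omega) (by clear * - b2; omega) (by clear * - b3; omega) (by clear * - b4; omega) (by clear * - b5; omega) (by clear * - b6; omega) (by clear * - b7; omega) (by clear * - b8; omega) (by clear * - b9; omega) (by clear * - z91; omega)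
  · exact t2c_39 al hy a1 a2 s1 s2 b tt c u1 u2 D1 D2 mx hL bd0 bd2 n1 n2 n3 (by clear * - b0; omega) (by clear * - b1; omega) (by clear * - b2; omega) (by clear * - b3; omega) (by clear * - b4; omega) (by clear * - b5; omega) (by clear * - b7; omega) (by clear * - b9; omega) (by clear * - z91; omega)

theorem t2c_34 {W : ℤ → G} {n Q i j k l i2 l2 i3 : ℤ} (al : AL W n Q)
    (hy : (0) ≤ (i) ∧ (i) ≤ (j) ∧ (j + 1) ≤ (Q) ∧ (Q) ≤ (k) ∧ (k + 1) ≤ (n) ∧ (Q) ≤ (i + l + 1) ∧ (k + l + 2) ≤ (n) ∧ (Q) ≤ (i2) ∧ (i2) ≤ (i + l + 1) ∧ (Q) ≤ (i2 + l2 + 1) ∧ (i2 + l2 + 2) ≤ (n) ∧ (n) ≤ (k + l + l2 + 2) ∧ (k + l + l2 + 3) ≤ (n + Q) ∧ (0) ≤ (i3) ∧ (n + i3) ≤ (k + l + l2 + 2) ∧ (k + i2 + l2 + 2) ≤ (n + j + i3) ∧ (j + i3 + 1) ≤ (k) ∧ (k + i2 + l2 + 2) ≤ (n + i3) ∧ (i + 2 * i2 + 1) ≤ (2 * Q + k) ∧ (i + l + 1) ≤ (i2 + l2) ∧ (k + l + 1) ≤ (i2 + l2) ∧ (2 * k + 2 * l + 3) ≤ (n + i2) ∧ (i + 1) ≤ (i3))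
    (a1 : Par W (0) (j) (k - j))
    (a2 : Par W (Q + j - k) (j) (k - j))
    (s1 : Ant W (0) (i) (i + j))
    (s2 : Ant W (j + 1) (Q) (i + j))
    (b : Par W (i + 1) (i + l + 1) (k - i))
    (tt : Ant W (Q) (i2) (i + l + i2 + 1))
    (c : Par W (i2 + 1) (i2 + l2 + 1) (k + l - i2 + 1))
    (u1 : Ant W (0) (i3) (k + l + l2 + i3 - n + 2))
    (u2 : Ant W (k + l + l2 - n + 3) (Q) (k + l + l2 + i3 - n + 2))
    (D1 : Par W (i3 + 1) (Q) (i2 + l2 - i3 + 1))
    (D2 : Par W (i2 + l2 + 2) (n) (i3 - i2 - l2 - 1))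
    {L : ℤ} (mx : ∀ a b g, 0 < g → g < n → Par W a b g → b - a ≤ L)
    (hL : L ≤ (n - j - 3) ∧ L ≤ (n + Q - k - 3) ∧ L ≤ (n - l - 3) ∧ L ≤ (n + i - k - 2) ∧ L ≤ (n - l2 - 3) ∧ L ≤ (n + i3 - Q - 2) ∧ L ≤ (i2 + l2 - 1) ∧ L ≤ (n + i2 - k - l - 3) ∧ L ≤ (Q + i2 + l2 - i - l - 3))
    (bd0 : Bd W n L (j) (i) (k))
    (bd2 : Bd W n L (k + l + l2 - n + 2) (i3) (i2 + l2 + 1))
    (n1 : Nd W (j) (i) (k))
    (n2 : Nd W (i + l + 1) (i2) (k + l + 1))
    (n3 : Nd W (k + l + l2 - n + 2) (i3) (i2 + l2 + 1))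
    (b0 : (2 * l2 + 3) ≤ (n))
    (b1 : (j + l + l2 + i3 + 3) ≤ (n))
    (b2 : (i + k + 2 * l + 3) ≤ (Q + i2 + l2))
    (b3 : (k + l + l2 + i3 + 3) ≤ (n + i + j))
    (b4 : (2 * Q + k + 2 * i2 + l2) ≤ (n + i + j + l + 3 * i3 + 1))
    (b5 : (j + i2) ≤ (l + 2 * i3 + 1))
    (b6 : (k + 2 * l + i3 + 2) ≤ (2 * i2 + l2))
    (b7 : (2 * i2 + 2 * l2 + 4) ≤ (n + j + k))
    (b8 : (i + l + 2) ≤ (k)) : False := by
  have ev := al.ev
  obtain ⟨y0, y1, y2, y3, y4, y5, y6, y7, y8, y9, y10, y11, y12, y13, y14, y15, y16, y17, y18, y19, y20, y21, y22⟩ := id hy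
  have n1p := And.intro n1.p1 n1.p2
  have n2p := And.intro n2.p1 n2.p2
  have n3p := And.intro n3.p1 n3.p2
  by_cases z90 : (2 * i2 + l2) ≤ (j + k + 2 * l + 2)
  · exact t2c_35 al hy a1 a2 s1 s2 b tt c u1 u2 D1 D2 mx hL bd0 bd2 n1 n2 n3 (by clear * - b0; omega) (by clear * - b1; omega) (by clear * - b2; omega) (by clear * - b3; omega) (by clear * - b4; omega) (by clear * - b5; omega) (by clear * - b6; omega) (by clear * - b7; omega) (by clear * - b8; omega) (by clear * - z90; omega)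
  · by_cases z112 : (i + j + l + 2 * i2 + l2 + 4) ≤ (n + k + i3)
    · by_cases v83 : (n + Q + i3) ≤ (i + l + 2 * i2 + l2 + 3)
      · have kk2076 : (i + j + l + 2 * i2 + l2 + 4) ≤ (n + k + i3) := by clear * - z112; omega
        have kk2077 : (i + k + l + l2 + 3) ≤ (n + j + i3) := by clear * - b3 y22; omega
        have kk2078 : (n + Q + i3) ≤ (i + l + 2 * i2 + l2 + 3) := by clear * - v83; omega
        have kk2079 : (i2) ≤ (k) := by clear * - b5 b6 b7 y14; omega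
        have kk2080 : (i3) ≤ (i + l + 1) := by clear * - b3 v83 y17 y18 z112; omega
        have r2081 : (i + j + l + 2 * i2 + l2 - 3 * n - k - i3 + 2) % 2 = 0 := by clear * - ev n1p n2p n3p; omega
        clear * - al a2 tt D2 kk2076 kk2077 kk2078 kk2079 kk2080 r2081
        obtain ⟨t, ht⟩ : ∃ t, 2 * t = (i + j + l + 2 * i2 + l2 - 3 * n - k - i3 + 2) := ⟨(i + j + l + 2 * i2 + l2 - 3 * n - k - i3 + 2) / 2, by omega⟩
        exact al.ninv t (cE (cE (cI (qf a2 al (-1) t (t + (n + k - j)) (by omega)) (qa tt al 0 (t + (n + k - j)) ((i + j + l + i2 - n - k + 1) - t) (by omega))) (pb D2 al 0 ((i + j + l + i2 - n - k + 1) - t) ((i + j + l + 2 * i2 + l2 - n - k - i3 + 2) - t) (by omega))) (sh al (-2) ((i + j + l + 2 * i2 + l2 - n - k - i3 + 2) - t) t (by omega)))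
      · have kk2082 : (n + 2 * Q + j + i3) ≤ (i + k + l + 2 * i2 + l2 + 2) := by clear * - b0 b4 y14 z90; omega
        have kk2083 : (i + k + l + l2 + 3) ≤ (n + j + i3) := by clear * - b3 y22; omega
        have kk2084 : (i + l + 2 * i2 + l2 + 3) ≤ (n + Q + i3) := by clear * - v83; omega
        have kk2085 : (i2) ≤ (k) := by clear * - b5 b6 b7 y14; omega
        have kk2086 : (i3) ≤ (i + l + 1) := by clear * - b0 b2 b3 b4 b5 y14 z90; linarith
        have r2087 : (i + j + l + 2 * i2 + l2 - 3 * n - k - i3 + 2) % 2 = 0 := by clear * - ev n1p n2p n3p; omega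
        clear * - al a2 tt D2 kk2082 kk2083 kk2084 kk2085 kk2086 r2087
        obtain ⟨t, ht⟩ : ∃ t, 2 * t = (i + j + l + 2 * i2 + l2 - 3 * n - k - i3 + 2) := ⟨(i + j + l + 2 * i2 + l2 - 3 * n - k - i3 + 2) / 2, by omega⟩
        exact al.ninv t (cE (cE (cI (qf a2 al (-1) t (t + (n + k - j)) (by omega)) (qa tt al 0 (t + (n + k - j)) ((i + j + l + i2 - n - k + 1) - t) (by omega))) (pb D2 al 0 ((i + j + l + i2 - n - k + 1) - t) ((i + j + l + 2 * i2 + l2 - n - k - i3 + 2) - t) (by omega))) (sh al (-2) ((i + j + l + 2 * i2 + l2 - n - k - i3 + 2) - t) t (by omega)))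
    · have kk2088 : (2 * k + l + i3 + 1) ≤ (i + 2 * i2 + l2) := by clear * - b7 y14 y17 z112 z90; omega
      have kk2089 : (i + 2 * i2 + l2 + 1) ≤ (n + 2 * k + l + i3) := by clear * - b3 b4 b7 b8 y16 y18 y22 z112 z90; linarith
      have kk2090 : (i + 2 * i2 + l2 + 1) ≤ (Q + 2 * k + l) := by clear * - b0 b2 b5 b7 y14; omega
      have kk2091 : (k + l) ≤ (i2 + l2) := by clear * - y20; omega
      have kk2092 : (2 * k + l) ≤ (2 * i2 + l2) := by clear * - b8 y14 y17 z112 z90; omega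
      have kk2093 : (Q + 2 * i2 + l2) ≤ (2 * k + 2 * l + i3 + 1) := by clear * - b0 b4 b5 b6 b7 b8 y14; linarith
      clear * - al b c D1 kk2088 kk2089 kk2090 kk2091 kk2092 kk2093
      exact al.ubQ (i + 2 * i2 + l2 - 2 * k - l - i3) (by omega) (by omega) fun t h1 h2 => (cE (sh al (-1) t (t + (-n)) (by omega)) (cE (cE (qf D1 al (-1) (t + (-n)) (t + (i2 + l2 - i3 + 1)) (by omega)) (pb c al 0 (t + (i2 + l2 - i3 + 1)) (t + (2 * i2 + l2 - k - l - i3)) (by omega))) (pb b al 0 (t + (2 * i2 + l2 - k - l - i3)) (t + (i + 2 * i2 + l2 - 2 * k - l - i3)) (by omega))))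

theorem t2c_33 {W : ℤ → G} {n Q i j k l i2 l2 i3 : ℤ} (al : AL W n Q)
    (hy : (0) ≤ (i) ∧ (i) ≤ (j) ∧ (j + 1) ≤ (Q) ∧ (Q) ≤ (k) ∧ (k + 1) ≤ (n) ∧ (Q) ≤ (i + l + 1) ∧ (k + l + 2) ≤ (n) ∧ (Q) ≤ (i2) ∧ (i2) ≤ (i + l + 1) ∧ (Q) ≤ (i2 + l2 + 1) ∧ (i2 + l2 + 2) ≤ (n) ∧ (n) ≤ (k + l + l2 + 2) ∧ (k + l + l2 + 3) ≤ (n + Q) ∧ (0) ≤ (i3) ∧ (n + i3) ≤ (k + l + l2 + 2) ∧ (k + i2 + l2 + 2) ≤ (n + j + i3) ∧ (j + i3 + 1) ≤ (k) ∧ (k + i2 + l2 + 2) ≤ (n + i3) ∧ (i + 2 * i2 + 1) ≤ (2 * Q + k) ∧ (i + l + 1) ≤ (i2 + l2) ∧ (k + l + 1) ≤ (i2 + l2) ∧ (2 * k + 2 * l + 3) ≤ (n + i2) ∧ (i + 1) ≤ (i3))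
    (a1 : Par W (0) (j) (k - j))
    (a2 : Par W (Q + j - k) (j) (k - j))
    (s1 : Ant W (0) (i) (i + j))
    (s2 : Ant W (j + 1) (Q) (i + j))
    (b : Par W (i + 1) (i + l + 1) (k - i))
    (tt : Ant W (Q) (i2) (i + l + i2 + 1))
    (c : Par W (i2 + 1) (i2 + l2 + 1) (k + l - i2 + 1))
    (u1 : Ant W (0) (i3) (k + l + l2 + i3 - n + 2))
    (u2 : Ant W (k + l + l2 - n + 3) (Q) (k + l + l2 + i3 - n + 2))
    (D1 : Par W (i3 + 1) (Q) (i2 + l2 - i3 + 1))
    (D2 : Par W (i2 + l2 + 2) (n) (i3 - i2 - l2 - 1))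
    {L : ℤ} (mx : ∀ a b g, 0 < g → g < n → Par W a b g → b - a ≤ L)
    (hL : L ≤ (n - j - 3) ∧ L ≤ (n + Q - k - 3) ∧ L ≤ (n - l - 3) ∧ L ≤ (n + i - k - 2) ∧ L ≤ (n - l2 - 3) ∧ L ≤ (n + i3 - Q - 2) ∧ L ≤ (i2 + l2 - 1) ∧ L ≤ (n + i2 - k - l - 3) ∧ L ≤ (Q + i2 + l2 - i - l - 3))
    (bd0 : Bd W n L (j) (i) (k))
    (bd2 : Bd W n L (k + l + l2 - n + 2) (i3) (i2 + l2 + 1))
    (n1 : Nd W (j) (i) (k))
    (n2 : Nd W (i + l + 1) (i2) (k + l + 1))
    (n3 : Nd W (k + l + l2 - n + 2) (i3) (i2 + l2 + 1))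
    (b0 : (2 * l2 + 3) ≤ (n))
    (b1 : (2 * Q + i2) ≤ (k + l + 2 * i3 + 1))
    (b2 : (j + l + l2 + i3 + 3) ≤ (n))
    (b3 : (i + k + 2 * l + 3) ≤ (Q + i2 + l2))
    (b4 : (k + l + l2 + i3 + 3) ≤ (n + i + j))
    (b5 : (2 * Q + k + 2 * i2 + l2) ≤ (n + i + j + l + 3 * i3 + 1))
    (b6 : (j + i2) ≤ (l + 2 * i3 + 1))
    (b7 : (k + 2 * l + i3 + 2) ≤ (2 * i2 + l2))
    (b8 : (2 * i2 + 2 * l2 + 4) ≤ (n + j + k)) : False := by
  have ev := al.ev
  obtain ⟨y0, y1, y2, y3, y4, y5, y6, y7, y8, y9, y10, y11, y12, y13, y14, y15, y16, y17, y18, y19, y20, y21, y22⟩ := id hy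
  have n1p := And.intro n1.p1 n1.p2
  have n2p := And.intro n2.p1 n2.p2
  have n3p := And.intro n3.p1 n3.p2
  by_cases z89 : (i + l + 2) ≤ (k)
  · exact t2c_34 al hy a1 a2 s1 s2 b tt c u1 u2 D1 D2 mx hL bd0 bd2 n1 n2 n3 (by clear * - b0; omega) (by clear * - b2; omega) (by clear * - b3; omega) (by clear * - b4; omega) (by clear * - b5; omega) (by clear * - b6; omega) (by clear * - b7; omega) (by clear * - b8; omega) (by clear * - z89; omega)
  · have kk2094 : (2 * k + l + i3 + 1) ≤ (i + 2 * i2 + l2) := by clear * - b7 z89; omega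
    have kk2095 : (i + 2 * i2 + l2 + 1) ≤ (n + 2 * k + l + i3) := by clear * - b0 b3 b5 b6 b7 b8 y14 z89; linarith
    have kk2096 : (i + 2 * i2 + l2 + 1) ≤ (Q + 2 * k + l) := by clear * - b0 b3 b6 b8 y14; omega
    have kk2097 : (Q + 2 * i2 + l2) ≤ (2 * k + 2 * l + i3 + 1) := by clear * - b0 b1 b6 b8 y14; omega
    have kk2098 : (k + l) ≤ (i2 + l2) := by clear * - y20; omega
    have kk2099 : (2 * k + l) ≤ (2 * i2 + l2) := by clear * - b7 y22 z89; omega
    have kk2100 : (2 * k + 2 * l + 2) ≤ (n + i2) := by clear * - b2 b3 b5 b7 b8 y22 z89; linarith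
    clear * - al b c D2 kk2094 kk2095 kk2096 kk2097 kk2098 kk2099 kk2100
    exact al.ubQ (i + 2 * i2 + l2 - 2 * k - l - i3) (by omega) (by omega) fun t h1 h2 => (cE (sh al 1 t (t + (n)) (by omega)) (cE (cE (pb D2 al 1 (t + (n)) (t + (i2 + l2 - i3 + 1)) (by omega)) (pb c al 0 (t + (i2 + l2 - i3 + 1)) (t + (2 * i2 + l2 - k - l - i3)) (by omega))) (pb b al 0 (t + (2 * i2 + l2 - k - l - i3)) (t + (i + 2 * i2 + l2 - 2 * k - l - i3)) (by omega))))

theorem t2c_40 {W : ℤ → G} {n Q i j k l i2 l2 i3 : ℤ} (al : AL W n Q)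
    (hy : (0) ≤ (i) ∧ (i) ≤ (j) ∧ (j + 1) ≤ (Q) ∧ (Q) ≤ (k) ∧ (k + 1) ≤ (n) ∧ (Q) ≤ (i + l + 1) ∧ (k + l + 2) ≤ (n) ∧ (Q) ≤ (i2) ∧ (i2) ≤ (i + l + 1) ∧ (Q) ≤ (i2 + l2 + 1) ∧ (i2 + l2 + 2) ≤ (n) ∧ (n) ≤ (k + l + l2 + 2) ∧ (k + l + l2 + 3) ≤ (n + Q) ∧ (0) ≤ (i3) ∧ (n + i3) ≤ (k + l + l2 + 2) ∧ (k + i2 + l2 + 2) ≤ (n + j + i3) ∧ (j + i3 + 1) ≤ (k) ∧ (k + i2 + l2 + 2) ≤ (n + i3) ∧ (i + 2 * i2 + 1) ≤ (2 * Q + k) ∧ (i + l + 1) ≤ (i2 + l2) ∧ (k + l + 1) ≤ (i2 + l2) ∧ (2 * k + 2 * l + 3) ≤ (n + i2) ∧ (i + 1) ≤ (i3))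
    (a1 : Par W (0) (j) (k - j))
    (a2 : Par W (Q + j - k) (j) (k - j))
    (s1 : Ant W (0) (i) (i + j))
    (s2 : Ant W (j + 1) (Q) (i + j))
    (b : Par W (i + 1) (i + l + 1) (k - i))
    (tt : Ant W (Q) (i2) (i + l + i2 + 1))
    (c : Par W (i2 + 1) (i2 + l2 + 1) (k + l - i2 + 1))
    (u1 : Ant W (0) (i3) (k + l + l2 + i3 - n + 2))
    (u2 : Ant W (k + l + l2 - n + 3) (Q) (k + l + l2 + i3 - n + 2))
    (D1 : Par W (i3 + 1) (Q) (i2 + l2 - i3 + 1))
    (D2 : Par W (i2 + l2 + 2) (n) (i3 - i2 - l2 - 1))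
    {L : ℤ} (mx : ∀ a b g, 0 < g → g < n → Par W a b g → b - a ≤ L)
    (hL : L ≤ (n - j - 3) ∧ L ≤ (n + Q - k - 3) ∧ L ≤ (n - l - 3) ∧ L ≤ (n + i - k - 2) ∧ L ≤ (n - l2 - 3) ∧ L ≤ (n + i3 - Q - 2) ∧ L ≤ (i2 + l2 - 1) ∧ L ≤ (n + i2 - k - l - 3) ∧ L ≤ (Q + i2 + l2 - i - l - 3))
    (bd0 : Bd W n L (j) (i) (k))
    (bd2 : Bd W n L (k + l + l2 - n + 2) (i3) (i2 + l2 + 1))
    (n1 : Nd W (j) (i) (k))
    (n2 : Nd W (i + l + 1) (i2) (k + l + 1))
    (n3 : Nd W (k + l + l2 - n + 2) (i3) (i2 + l2 + 1))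
    (b0 : (2 * l2 + 3) ≤ (n))
    (b1 : (2 * Q + i2) ≤ (k + l + 2 * i3 + 1))
    (b2 : (2 * i + l + i2 + 2) ≤ (2 * Q + k))
    (b3 : (j + l + l2 + i3 + 3) ≤ (n))
    (b4 : (i + k + 2 * l + 3) ≤ (Q + i2 + l2))
    (b5 : (k + l + l2 + i3 + 3) ≤ (n + i + j))
    (b6 : (2 * Q + k + 2 * i2 + l2) ≤ (n + i + j + l + 3 * i3 + 1))
    (b7 : (j + i2) ≤ (l + 2 * i3 + 1))
    (b8 : (k + 2 * l + i3 + 2) ≤ (2 * i2 + l2))
    (b9 : (n + j + k) ≤ (2 * i2 + 2 * l2 + 3)) : False := by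
  have ev := al.ev
  obtain ⟨y0, y1, y2, y3, y4, y5, y6, y7, y8, y9, y10, y11, y12, y13, y14, y15, y16, y17, y18, y19, y20, y21, y22⟩ := id hy
  have n1p := And.intro n1.p1 n1.p2
  have n2p := And.intro n2.p1 n2.p2
  have n3p := And.intro n3.p1 n3.p2
  by_cases z113 : (i + 2 * i2 + l2 + 1) ≤ (Q + 2 * k + l)
  · by_cases z114 : (Q + 2 * i2 + l2) ≤ (2 * k + 2 * l + i3 + 1)
    · have kk2101 : (2 * k + l + i3 + 1) ≤ (i + 2 * i2 + l2) := by clear * - b5 b9 ev n1p n2p n3p; omega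
      have kk2102 : (i + 2 * i2 + l2 + 1) ≤ (n + 2 * k + l + i3) := by clear * - b0 b5 b6 b8 b9 z113 z114; linarith
      have kk2103 : (i + 2 * i2 + l2 + 1) ≤ (Q + 2 * k + l) := by clear * - z113; omega
      have kk2104 : (Q + 2 * i2 + l2) ≤ (2 * k + 2 * l + i3 + 1) := by clear * - z114; omega
      have kk2105 : (k + l) ≤ (i2 + l2) := by clear * - b5 b6 b8 b9 z113; omega
      have kk2106 : (2 * k + l) ≤ (2 * i2 + l2) := by clear * - b5 b9 y22; omega
      have kk2107 : (2 * k + 2 * l + 2) ≤ (n + i2) := by clear * - b3 b4 b5 b6 b9 y22; omega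
      clear * - al b c D2 kk2101 kk2102 kk2103 kk2104 kk2105 kk2106 kk2107
      exact al.ubQ (i + 2 * i2 + l2 - 2 * k - l - i3) (by omega) (by omega) fun t h1 h2 => (cE (sh al 1 t (t + (n)) (by omega)) (cE (cE (pb D2 al 1 (t + (n)) (t + (i2 + l2 - i3 + 1)) (by omega)) (pb c al 0 (t + (i2 + l2 - i3 + 1)) (t + (2 * i2 + l2 - k - l - i3)) (by omega))) (pb b al 0 (t + (2 * i2 + l2 - k - l - i3)) (t + (i + 2 * i2 + l2 - 2 * k - l - i3)) (by omega))))
    · by_cases v84 : (k) ≤ (i2)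
      · have kk2108 : (3 * k + 2 * l + 3) ≤ (n + i + 2 * i2) := by clear * - b5 b7 b8 v84; omega
        have kk2109 : (i + 2 * i2 + 2 * l2 + 4) ≤ (n + 2 * Q + k) := by clear * - b5 b7 b8 v84 z113; omega
        have kk2110 : (i + k + 2 * l + 4) ≤ (n + 2 * i3) := by clear * - b6 b7 b8 v84 z113; omega
        have kk2111 : (3 * k + 2 * l + 4) ≤ (n + i + 2 * i2) := by clear * - b5 b7 b8 v84; omega
        have kk2112 : (i2) ≤ (k + l + 1) := by clear * - b1 b5 b9 z113; omega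
        have kk2113 : (k) ≤ (i2) := by clear * - v84; omega
        have kk2114 : (2 * i2 + l2) ≤ (2 * k + 2 * l + 1) := by clear * - b0 b5 b6 b7 b8 y14 z113; linarith
        have kk2115 : (k + l) ≤ (i2 + l2) := by clear * - b5 b6 b8 b9 z113; omega
        have kk2116 : (2 * k + l + i3) ≤ (i + 2 * i2 + l2) := by clear * - b5 b9; omega
        have r2117 : (k + l + l2 + i3 - n + 2) % 2 = 0 := by clear * - ev n1p n2p n3p; omega
        have r2118 : (n + i + 2 * i2 - 3 * k - 2 * l - 2) % 2 = 0 := by clear * - ev n1p n2p n3p; omega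
        clear * - al b c u2 kk2108 kk2109 kk2110 kk2111 kk2112 kk2113 kk2114 kk2115 kk2116 r2117 r2118
        exact midP al (n + i + 2 * i2 - 3 * k - 2 * l - 2) (k + l + l2 + i3 - n + 2) (k + l + l2 - n + 3) (2 * k + 2 * l - n - i2 + 3) (i + 2 * i2 + l2 - 2 * k - l) (by omega) (fun t h1 h2 => (qa u2 al 0 t ((k + l + l2 + i3 - n + 2) - t) (by omega))) (fun t h1 h2 => (cE (cE (pb c al (-1) t (t + (n + i2 - k - l - 1)) (by omega)) (pb c al 0 (t + (n + i2 - k - l - 1)) (t + (n + 2 * i2 - 2 * k - 2 * l - 2)) (by omega))) (pb b al 0 (t + (n + 2 * i2 - 2 * k - 2 * l - 2)) (t + (n + i + 2 * i2 - 3 * k - 2 * l - 2)) (by omega))))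
      · have kk2119 : (3 * k + 2 * l + 3) ≤ (n + i + 2 * i2) := by clear * - b0 b5 b6 b9 v84 z114; omega
        have kk2120 : (i + 2 * i2 + 2 * l2 + 4) ≤ (n + 2 * Q + k) := by clear * - b0 b5 b6 b9 v84 z113 z114; linarith
        have kk2121 : (i + 3 * k + 2 * l + 4) ≤ (n + 2 * i2 + 2 * i3) := by clear * - b0 b6 b8 b9 y22 z113 z114; linarith
        have kk2122 : (3 * k + 2 * l + 4) ≤ (n + i + 2 * i2) := by clear * - b0 b5 b6 b9 v84 z114; omega
        have kk2123 : (i2) ≤ (k + l + 1) := by clear * - b1 b5 b9 z113; omega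
        have kk2124 : (i2) ≤ (k) := by clear * - v84; omega
        have kk2125 : (2 * i2 + l2) ≤ (2 * k + 2 * l + 1) := by clear * - b0 b6 b9 v84 y14 z113 z114; linarith
        have kk2126 : (2 * k + l) ≤ (2 * i2 + l2) := by clear * - b5 b9 y22; omega
        have kk2127 : (2 * k + l + i3) ≤ (i + 2 * i2 + l2) := by clear * - b5 b9; omega
        have r2128 : (k + l + l2 + i3 - n + 2) % 2 = 0 := by clear * - ev n1p n2p n3p; omega
        have r2129 : (n + i + 2 * i2 - 3 * k - 2 * l - 2) % 2 = 0 := by clear * - ev n1p n2p n3p; omega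
        clear * - al b c u2 kk2119 kk2120 kk2121 kk2122 kk2123 kk2124 kk2125 kk2126 kk2127 r2128 r2129
        exact midP al (n + i + 2 * i2 - 3 * k - 2 * l - 2) (k + l + l2 + i3 - n + 2) (k + l + l2 - n + 3) (3 * k + 2 * l - n - 2 * i2 + 3) (i + 2 * i2 + l2 - 2 * k - l) (by omega) (fun t h1 h2 => (qa u2 al 0 t ((k + l + l2 + i3 - n + 2) - t) (by omega))) (fun t h1 h2 => (cE (cE (pb c al (-1) t (t + (n + i2 - k - l - 1)) (by omega)) (pb c al 0 (t + (n + i2 - k - l - 1)) (t + (n + 2 * i2 - 2 * k - 2 * l - 2)) (by omega))) (pb b al 0 (t + (n + 2 * i2 - 2 * k - 2 * l - 2)) (t + (n + i + 2 * i2 - 3 * k - 2 * l - 2)) (by omega))))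
  · by_cases v85 : (k) ≤ (i2)
    · have kk2130 : (3 * k + 2 * l + 3) ≤ (n + i + 2 * i2) := by clear * - b5 b7 b8 v85; omega
      have kk2131 : (i + 2 * i2 + 2 * l2 + 4) ≤ (n + 2 * Q + k) := by clear * - b0 y18; omega
      have kk2132 : (i + k + 2 * l + 4) ≤ (n + 2 * i3) := by clear * - b1 b2 b5 b7 b8 v85; omega
      have kk2133 : (3 * k + 2 * l + 4) ≤ (n + i + 2 * i2) := by clear * - b5 b7 b8 v85; omega
      have kk2134 : (i2) ≤ (k + l + 1) := by clear * - b0 b2 b5 b6 b7 b8 y14; linarith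
      have kk2135 : (k) ≤ (i2) := by clear * - v85; omega
      have kk2136 : (2 * i2 + l2) ≤ (2 * k + 2 * l + 1) := by clear * - b0 b1 b2 b5 b7 y14; omega
      have kk2137 : (k + l) ≤ (i2 + l2) := by clear * - b1 b2 b5 b9; omega
      have kk2138 : (2 * k + l + i3) ≤ (i + 2 * i2 + l2) := by clear * - b5 b9; omega
      have r2139 : (n + k + l + l2 + i3 + 2) % 2 = 0 := by clear * - ev n1p n2p n3p; omega
      have r2140 : (n + i + 2 * i2 - 3 * k - 2 * l - 2) % 2 = 0 := by clear * - ev n1p n2p n3p; omega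
      clear * - al b c u2 kk2130 kk2131 kk2132 kk2133 kk2134 kk2135 kk2136 kk2137 kk2138 r2139 r2140
      exact midP al (n + i + 2 * i2 - 3 * k - 2 * l - 2) (n + k + l + l2 + i3 + 2) (k + l + l2 + 3) (2 * k + 2 * l - i2 + 3) (n + i + 2 * i2 + l2 - 2 * k - l) (by omega) (fun t h1 h2 => (cE (qa u2 al 1 t ((k + l + l2 + i3 + 2) - t) (by omega)) (sh al 1 ((k + l + l2 + i3 + 2) - t) ((n + k + l + l2 + i3 + 2) - t) (by omega)))) (fun t h1 h2 => (cE (cE (cE (pb c al 0 t (t + (i2 - k - l - 1)) (by omega)) (pb c al 0 (t + (i2 - k - l - 1)) (t + (2 * i2 - 2 * k - 2 * l - 2)) (by omega))) (pb b al 0 (t + (2 * i2 - 2 * k - 2 * l - 2)) (t + (i + 2 * i2 - 3 * k - 2 * l - 2)) (by omega))) (sh al 1 (t + (i + 2 * i2 - 3 * k - 2 * l - 2)) (t + (n + i + 2 * i2 - 3 * k - 2 * l - 2)) (by omega))))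
    · have kk2141 : (3 * k + 2 * l + 3) ≤ (n + i + 2 * i2) := by clear * - b0 b4 b5 b7 b9 z113; omega
      have kk2142 : (i + 2 * i2 + 2 * l2 + 4) ≤ (n + 2 * Q + k) := by clear * - b0 y18; omega
      have kk2143 : (i + 3 * k + 2 * l + 4) ≤ (n + 2 * i2 + 2 * i3) := by clear * - b0 b4 b5 b7 b9 y22 z113; linarith
      have kk2144 : (3 * k + 2 * l + 4) ≤ (n + i + 2 * i2) := by clear * - b0 b4 b5 b7 b9 z113; omega
      have kk2145 : (i2) ≤ (k + l + 1) := by clear * - b0 b4 b5 b6 b7 v85 y14 z113; linarith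
      have kk2146 : (i2) ≤ (k) := by clear * - v85; omega
      have kk2147 : (2 * i2 + l2) ≤ (2 * k + 2 * l + 1) := by clear * - b0 b4 b5 b6 b7 v85 y14; linarith
      have kk2148 : (2 * k + l) ≤ (2 * i2 + l2) := by clear * - b5 b9 y22; omega
      have kk2149 : (2 * k + l + i3) ≤ (i + 2 * i2 + l2) := by clear * - b5 b9; omega
      have r2150 : (n + k + l + l2 + i3 + 2) % 2 = 0 := by clear * - ev n1p n2p n3p; omega
      have r2151 : (n + i + 2 * i2 - 3 * k - 2 * l - 2) % 2 = 0 := by clear * - ev n1p n2p n3p; omega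
      clear * - al b c u2 kk2141 kk2142 kk2143 kk2144 kk2145 kk2146 kk2147 kk2148 kk2149 r2150 r2151
      exact midP al (n + i + 2 * i2 - 3 * k - 2 * l - 2) (n + k + l + l2 + i3 + 2) (k + l + l2 + 3) (3 * k + 2 * l - 2 * i2 + 3) (n + i + 2 * i2 + l2 - 2 * k - l) (by omega) (fun t h1 h2 => (cE (qa u2 al 1 t ((k + l + l2 + i3 + 2) - t) (by omega)) (sh al 1 ((k + l + l2 + i3 + 2) - t) ((n + k + l + l2 + i3 + 2) - t) (by omega)))) (fun t h1 h2 => (cE (cE (cE (pb c al 0 t (t + (i2 - k - l - 1)) (by omega)) (pb c al 0 (t + (i2 - k - l - 1)) (t + (2 * i2 - 2 * k - 2 * l - 2)) (by omega))) (pb b al 0 (t + (2 * i2 - 2 * k - 2 * l - 2)) (t + (i + 2 * i2 - 3 * k - 2 * l - 2)) (by omega))) (sh al 1 (t + (i + 2 * i2 - 3 * k - 2 * l - 2)) (t + (n + i + 2 * i2 - 3 * k - 2 * l - 2)) (by omega))))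

theorem t2c_32 {W : ℤ → G} {n Q i j k l i2 l2 i3 : ℤ} (al : AL W n Q)
    (hy : (0) ≤ (i) ∧ (i) ≤ (j) ∧ (j + 1) ≤ (Q) ∧ (Q) ≤ (k) ∧ (k + 1) ≤ (n) ∧ (Q) ≤ (i + l + 1) ∧ (k + l + 2) ≤ (n) ∧ (Q) ≤ (i2) ∧ (i2) ≤ (i + l + 1) ∧ (Q) ≤ (i2 + l2 + 1) ∧ (i2 + l2 + 2) ≤ (n) ∧ (n) ≤ (k + l + l2 + 2) ∧ (k + l + l2 + 3) ≤ (n + Q) ∧ (0) ≤ (i3) ∧ (n + i3) ≤ (k + l + l2 + 2) ∧ (k + i2 + l2 + 2) ≤ (n + j + i3) ∧ (j + i3 + 1) ≤ (k) ∧ (k + i2 + l2 + 2) ≤ (n + i3) ∧ (i + 2 * i2 + 1) ≤ (2 * Q + k) ∧ (i + l + 1) ≤ (i2 + l2) ∧ (k + l + 1) ≤ (i2 + l2) ∧ (2 * k + 2 * l + 3) ≤ (n + i2) ∧ (i + 1) ≤ (i3))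
    (a1 : Par W (0) (j) (k - j))
    (a2 : Par W (Q + j - k) (j) (k - j))
    (s1 : Ant W (0) (i) (i + j))
    (s2 : Ant W (j + 1) (Q) (i + j))
    (b : Par W (i + 1) (i + l + 1) (k - i))
    (tt : Ant W (Q) (i2) (i + l + i2 + 1))
    (c : Par W (i2 + 1) (i2 + l2 + 1) (k + l - i2 + 1))
    (u1 : Ant W (0) (i3) (k + l + l2 + i3 - n + 2))
    (u2 : Ant W (k + l + l2 - n + 3) (Q) (k + l + l2 + i3 - n + 2))
    (D1 : Par W (i3 + 1) (Q) (i2 + l2 - i3 + 1))
    (D2 : Par W (i2 + l2 + 2) (n) (i3 - i2 - l2 - 1))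
    {L : ℤ} (mx : ∀ a b g, 0 < g → g < n → Par W a b g → b - a ≤ L)
    (hL : L ≤ (n - j - 3) ∧ L ≤ (n + Q - k - 3) ∧ L ≤ (n - l - 3) ∧ L ≤ (n + i - k - 2) ∧ L ≤ (n - l2 - 3) ∧ L ≤ (n + i3 - Q - 2) ∧ L ≤ (i2 + l2 - 1) ∧ L ≤ (n + i2 - k - l - 3) ∧ L ≤ (Q + i2 + l2 - i - l - 3))
    (bd0 : Bd W n L (j) (i) (k))
    (bd2 : Bd W n L (k + l + l2 - n + 2) (i3) (i2 + l2 + 1))
    (n1 : Nd W (j) (i) (k))
    (n2 : Nd W (i + l + 1) (i2) (k + l + 1))
    (n3 : Nd W (k + l + l2 - n + 2) (i3) (i2 + l2 + 1))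
    (b0 : (2 * l2 + 3) ≤ (n))
    (b1 : (2 * Q + i2) ≤ (k + l + 2 * i3 + 1))
    (b2 : (2 * i + l + i2 + 2) ≤ (2 * Q + k))
    (b3 : (j + l + l2 + i3 + 3) ≤ (n))
    (b4 : (i + k + 2 * l + 3) ≤ (Q + i2 + l2))
    (b5 : (k + l + l2 + i3 + 3) ≤ (n + i + j))
    (b6 : (2 * Q + k + 2 * i2 + l2) ≤ (n + i + j + l + 3 * i3 + 1))
    (b7 : (j + i2) ≤ (l + 2 * i3 + 1))
    (b8 : (k + 2 * l + i3 + 2) ≤ (2 * i2 + l2)) : False := by
  have ev := al.ev
  obtain ⟨y0, y1, y2, y3, y4, y5, y6, y7, y8, y9, y10, y11, y12, y13, y14, y15, y16, y17, y18, y19, y20, y21, y22⟩ := id hy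
  have n1p := And.intro n1.p1 n1.p2
  have n2p := And.intro n2.p1 n2.p2
  have n3p := And.intro n3.p1 n3.p2
  by_cases z88 : (2 * i2 + 2 * l2 + 4) ≤ (n + j + k)
  · exact t2c_33 al hy a1 a2 s1 s2 b tt c u1 u2 D1 D2 mx hL bd0 bd2 n1 n2 n3 (by clear * - b0; omega) (by clear * - b1; omega) (by clear * - b3; omega) (by clear * - b4; omega) (by clear * - b5; omega) (by clear * - b6; omega) (by clear * - b7; omega) (by clear * - b8; omega) (by clear * - z88; omega)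
  · exact t2c_40 al hy a1 a2 s1 s2 b tt c u1 u2 D1 D2 mx hL bd0 bd2 n1 n2 n3 (by clear * - b0; omega) (by clear * - b1; omega) (by clear * - b2; omega) (by clear * - b3; omega) (by clear * - b4; omega) (by clear * - b5; omega) (by clear * - b6; omega) (by clear * - b7; omega) (by clear * - b8; omega) (by clear * - z88; omega)

end Pool.Agent.MP_a38735_al.WL
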