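import Pool.Agent.MP_a38735_al.Zw6
import Pool.Agent.MP_a38735_al.Zw7
import Pool.Agent.MP_a38735_al.Zw8

set_option autoImplicit false
set_option linter.unusedVariables false

namespace Pool.Agent.MP_a38735_al.WL

variable {G : Type*} [Group G]

theorem t2c_24 {W : ℤ → G} {n Q i j k l i2 l2 i3 : ℤ} (al : AL W n Q)
    (hy : (0) ≤ (i) ∧ (i) ≤ (j) ∧ (j + 1) ≤ (Q) ∧ (Q) ≤ (k) ∧ (k + 1) ≤ (n) ∧ (Q) ≤ (i + l + 1) ∧ (k + l + 2) ≤ (n) ∧ (Q) ≤ (i2) ∧ (i2) ≤ (i + l + 1) ∧ (Q) ≤ (i2 + l2 + 1) ∧ (i2 + l2 + 2) ≤ (n) ∧ (n) ≤ (k + l + l2 + 2) ∧ (k + l + l2 + 3) ≤ (n + Q) ∧ (0) ≤ (i3) ∧ (n + i3) ≤ (k + l + l2 + 2) ∧ (k + i2 + l2 + 2) ≤ (n + j + i3) ∧ (j + i3 + 1) ≤ (k) ∧ (k + i2 + l2 + 2) ≤ (n + i3) ∧ (i + 2 * i2 + 1) ≤ (2 * Q + k) ∧ (i + l + 1) ≤ (i2 + l2) ∧ (k + l + 1) ≤ (i2 + l2) ∧ (2 * k + 2 * l + 3) ≤ (n + i2) ∧ (i + 1) ≤ (i3))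
    (a1 : Par W (0) (j) (k - j))
    (a2 : Par W (Q + j - k) (j) (k - j))
    (s1 : Ant W (0) (i) (i + j))
    (s2 : Ant W (j + 1) (Q) (i + j))
    (b : Par W (i + 1) (i + l + 1) (k - i))
    (tt : Ant W (Q) (i2) (i + l + i2 + 1))
    (c : Par W (i2 + 1) (i2 + l2 + 1) (k + l - i2 + 1))
    (u1 : Ant W (0) (i3) (k + l + l2 + i3 - n + 2))
    (u2 : Ant W (k + l + l2 - n + 3) (Q) (k + l + l2 + i3 - n + 2))
    (D1 : Par W (i3 + 1) (Q) (i2 + l2 - i3 + 1))
    (D2 : Par W (i2 + l2 + 2) (n) (i3 - i2 - l2 - 1))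
    {L : ℤ} (mx : ∀ a b g, 0 < g → g < n → Par W a b g → b - a ≤ L)
    (hL : L ≤ (n - j - 3) ∧ L ≤ (n + Q - k - 3) ∧ L ≤ (n - l - 3) ∧ L ≤ (n + i - k - 2) ∧ L ≤ (n - l2 - 3) ∧ L ≤ (n + i3 - Q - 2) ∧ L ≤ (i2 + l2 - 1) ∧ L ≤ (n + i2 - k - l - 3) ∧ L ≤ (Q + i2 + l2 - i - l - 3))
    (bd0 : Bd W n L (j) (i) (k))
    (bd2 : Bd W n L (k + l + l2 - n + 2) (i3) (i2 + l2 + 1))
    (n1 : Nd W (j) (i) (k))
    (n2 : Nd W (i + l + 1) (i2) (k + l + 1))
    (n3 : Nd W (k + l + l2 - n + 2) (i3) (i2 + l2 + 1))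
    (b0 : (2 * l2 + 3) ≤ (n))
    (b1 : (2 * Q + i2 + l2) ≤ (n + i + j + i3))
    (b2 : (i + k + 2 * l + 3) ≤ (Q + i2 + l2))
    (b3 : (n + i + j) ≤ (k + l + l2 + 1))
    (b4 : (l + 2 * i3) ≤ (Q + i + i2))
    (b5 : (k + l + l2 + i3 + 2) ≤ (n + 2 * j))
    (b6 : (2 * Q + 2 * k + l) ≤ (n + 2 * i + j + i2))
    (b7 : (n + j + 2 * i2) ≤ (3 * k + 2 * l + 2)) : False := by
  have ev := al.ev
  obtain ⟨y0, y1, y2, y3, y4, y5, y6, y7, y8, y9, y10, y11, y12, y13, y14, y15, y16, y17, y18, y19, y20, y21, y22⟩ := id hy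
  have n1p := And.intro n1.p1 n1.p2
  have n2p := And.intro n2.p1 n2.p2
  have n3p := And.intro n3.p1 n3.p2
  by_cases z64 : (n + 2 * j + i3) ≤ (Q + k + i2 + l2)
  · by_cases z65 : (n + 2 * j) ≤ (k + l + l2 + i3 + 2)
    · by_cases v37 : (2 * n + i + j) ≤ (2 * k + l + i2 + 2 * l2 + 3)
      · have kk962 : (n + 2 * j + i3) ≤ (Q + k + i2 + l2) := by clear * - z64; omega
        have kk963 : (2 * k + l + i2 + 2 * l2 + 4) ≤ (2 * n + 2 * j) := by clear * - b5 y17; omega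
        have kk964 : (n + 2 * j) ≤ (k + l + l2 + i3 + 2) := by clear * - z65; omega
        have kk965 : (k + l + l2 + i3 + 2) ≤ (n + 2 * j) := by clear * - b5; omega
        have kk966 : (i3 + 1) ≤ (Q) := by clear * - b3 b4 y15; omega
        have kk967 : (k + i2 + l2 + 1) ≤ (n + i3) := by clear * - y17; omega
        have kk968 : (n + j) ≤ (k + l + l2 + 2) := by clear * - y14 z65; omega
        have kk969 : (2 * Q + i2 + l2) ≤ (n + i + j + i3) := by clear * - b1; omega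
        have kk970 : (Q + i2) ≤ (k + l + i3 + 1) := by clear * - b1 b4 b5 b6 b7 v37 y17; linarith
        have kk971 : (2 * n + i + j) ≤ (2 * k + l + i2 + 2 * l2 + 3) := by clear * - v37; omega
        have kk972 : (0) ≤ (i3) := by clear * - y13; omega
        clear * - al a2 s2 u2 D2 n1 kk962 kk963 kk964 kk965 kk966 kk967 kk968 kk969 kk970 kk971 kk972
        exact n1.f1 (cE (cE (pb (show Par W (Q + i2 + l2 - i3 + 1) (k + i2 + l2 - i3 + 1) (n + j + i3 - k - i2 - l2 - 1) from fun t h1 h2 => (cE (sh al (-1) t (t + (-n)) (by omega)) (cE (cE (qf D2 al (-1) (t + (-n)) (t + (i3 - i2 - l2 - 1)) (by omega)) (pb a2 al 0 (t + (i3 - i2 - l2 - 1)) (t + (j + i3 - k - i2 - l2 - 1)) (by omega))) (sh al 1 (t + (j + i3 - k - i2 - l2 - 1)) (t + (n + j + i3 - k - i2 - l2 - 1)) (by omega))))) al (-1) (i) (i + k + i2 + l2 - j - i3 + 1) (by omega)) (qf (show Par W (n + i + j - Q + 1) (2 * n + i + j - k - l - l2 - 2) (k +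 l + l2 + i3 - n - i - j + 2) from fun t h1 h2 => (cE (sh al (-2) t (t + (-2 * n)) (by omega)) (cE (cII (ab s2 al (-1) (t + (-2 * n)) ((n + i + j) - t) (by omega)) (qa u2 al 0 ((n + i + j) - t) (t + (k + l + l2 + i3 - 2 * n - i - j + 2)) (by omega))) (sh al 1 (t + (k + l + l2 + i3 - 2 * n - i - j + 2)) (t + (k + l + l2 + i3 - n - i - j + 2)) (by omega))))) al 0 (i + k + i2 + l2 - j - i3 + 1) (2 * k + l + i2 + 2 * l2 - n - 2 * j + 3) (by omega))) (qf D2 al 0 (2 * k + l + i2 + 2 * l2 - n - 2 * j + 3) (k) (by omega)))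
      · have kk973 : (n + 2 * j + i3) ≤ (Q + k + i2 + l2) := by clear * - z64; omega
        have kk974 : (i + 1) ≤ (j) := by clear * - b5 y14 y22; omega
        have kk975 : (n + 2 * j) ≤ (k + l + l2 + i3 + 2) := by clear * - z65; omega
        have kk976 : (k + l + l2 + i3 + 2) ≤ (n + 2 * j) := by clear * - b5; omega
        have kk977 : (i3 + 1) ≤ (Q) := by clear * - b3 b4 y15; omega
        have kk978 : (k + i2 + l2 + 1) ≤ (n + i3) := by clear * - y17; omega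
        have kk979 : (n + j) ≤ (k + l + l2 + 2) := by clear * - y14 z65; omega
        have kk980 : (2 * Q + i2 + l2) ≤ (n + i + j + i3) := by clear * - b1; omega
        have kk981 : (Q + i2) ≤ (k + l + i3 + 1) := by clear * - b3 b4 b6 b7 y15 y22; omega
        have kk982 : (2 * k + l + i2 + 2 * l2 + 3) ≤ (2 * n + i + j) := by clear * - v37; omega
        have kk983 : (2 * k + l + i2 + 2 * l2 + 3) ≤ (2 * n + i + j + i3) := by clear * - v37 y13; omega
        clear * - al a2 s2 u2 D2 n1 kk973 kk974 kk975 kk976 kk977 kk978 kk979 kk980 kk981 kk982 kk983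
        exact n1.f1 (cE (cE (pb (show Par W (Q + i2 + l2 - i3 + 1) (k + i2 + l2 - i3 + 1) (n + j + i3 - k - i2 - l2 - 1) from fun t h1 h2 => (cE (sh al (-1) t (t + (-n)) (by omega)) (cE (cE (qf D2 al (-1) (t + (-n)) (t + (i3 - i2 - l2 - 1)) (by omega)) (pb a2 al 0 (t + (i3 - i2 - l2 - 1)) (t + (j + i3 - k - i2 - l2 - 1)) (by omega))) (sh al 1 (t + (j + i3 - k - i2 - l2 - 1)) (t + (n + j + i3 - k - i2 - l2 - 1)) (by omega))))) al (-1) (i) (i + k + i2 + l2 - j - i3 + 1) (by omega)) (qf (show Par W (n + i + j - Q + 1) (2 * n + i + j - k - l - l2 - 2) (k + l + l2 + i3 - n - i - j + 2) from fun t h1 h2 => (cE (sh al (-2) t (t + (-2 * n)) (by omega)) (cE (cII (ab s2 al (-1) (t + (-2 * n)) ((n + i + j) - t) (by omega)) (qa u2 al 0 ((n + i + j) - t) (t + (k + l + l2 + i3 - 2 * n - i - j + 2)) (by omega))) (sh al 1 (t + (k + l + l2 + i3 - 2 * n - i - j + 2)) (t + (k + l + l2 + i3 - n - i - j + 2)) (by omega)))))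 al 0 (i + k + i2 + l2 - j - i3 + 1) (2 * k + l + i2 + 2 * l2 - n - 2 * j + 3) (by omega))) (qf D2 al 0 (2 * k + l + i2 + 2 * l2 - n - 2 * j + 3) (k) (by omega)))
    · by_cases z66 : (j + l + i3 + 1) ≤ (Q + i2)
      · have kk984 : (n + j) ≤ (k + l + l2 + 1) := by clear * - b3 y0; omega
        have kk985 : (k + l + l2 + 3) ≤ (n + Q) := by clear * - b4 y17 y22; omega
        have kk986 : (n + i + j) ≤ (k + l + l2 + i3 + 1) := by clear * - b3 y13; omega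
        have kk987 : (k + i2 + l2 + 2) ≤ (n + j + i3) := by clear * - y15; omega
        have kk988 : (j + l + i3 + 1) ≤ (Q + i2) := by clear * - z66; omega
        have kk989 : (Q + l + l2 + 1) ≤ (n + i) := by clear * - b1 z66; omega
        have kk990 : (i3 + 1) ≤ (j) := by clear * - y14 z65; omega
        have kk991 : (n + j) ≤ (k + l + l2 + 2) := by clear * - b3 y0; omega
        have kk992 : (i3 + 1) ≤ (Q) := by clear * - b3 b4 y15; omega
        have kk993 : (k + i2 + l2 + 1) ≤ (n + i3) := by clear * - y17; omega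
        have r994 : (k + l + l2 + i3 - n - i - j + 2) % 2 = 0 := by clear * - ev n1p n2p n3p; omega
        have r995 : (n + j + i3 - k - i2 - l2 - 1) % 2 = 0 := by clear * - ev n1p n2p n3p; omega
        clear * - al a2 s2 u2 D2 n3 kk984 kk985 kk986 kk987 kk988 kk989 kk990 kk991 kk992 kk993 r994 r995
        exact n3.f2 (rEI (sh al 0 (i3) (i3) (by omega)) (qa s2 al 0 (k + l + l2 - n + 2) (n + i + j - k - l - l2 - 2) (by omega)) (Eq.symm (rotR (k + l + l2 + i3 - n - i - j + 2) (n + j + i3 - k - i2 - l2 - 1) (n + i + j - k - l - l2 - 2) (i3) (by omega) (fun t h1 h2 => (cE (qf (show Par W (n + i + j - Q + 1) (2 * n + i + j - k - l - l2 - 2) (k + l + l2 + i3 - n - i - j + 2) from fun t h1 h2 => (cE (sh al (-2) t (t + (-2 * n)) (by omega)) (cE (cII (ab s2 al (-1) (t + (-2 * n)) ((n + i + j) - t) (by omega)) (qa u2 al 0 ((n + i + j) - t) (t + (k + l + l2 + i3 - 2 * n - i - j + 2)) (by omega))) (sh al 1 (t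 + (k + l + l2 + i3 - 2 * n - i - j + 2)) (t + (k + l + l2 + i3 - n - i - j + 2)) (by omega))))) al (-1) t (t + (k + l + l2 + i3 - i - j + 2)) (by omega)) (sh al (-1) (t + (k + l + l2 + i3 - i - j + 2)) (t + (k + l + l2 + i3 - n - i - j + 2)) (by omega)))) (fun t h1 h2 => (cE (qf (show Par W (Q + i2 + l2 - i3 + 1) (k + i2 + l2 - i3 + 1) (n + j + i3 - k - i2 - l2 - 1) from fun t h1 h2 => (cE (sh al (-1) t (t + (-n)) (by omega)) (cE (cE (qf D2 al (-1) (t + (-n)) (t + (i3 - i2 - l2 - 1)) (by omega)) (pb a2 al 0 (t + (i3 - i2 - l2 - 1)) (t + (j + i3 - k - i2 - l2 - 1)) (by omega))) (sh al 1 (t + (j + i3 - k - i2 - l2 - 1)) (t + (n + j + i3 - k - i2 - l2 - 1)) (by omega))))) al (-1) t (t + (2 * n + j + i3 - k - i2 - l2 - 1)) (by omega)) (sh al (-1) (t + (2 * n + j + i3 - k - i2 - l2 - 1)) (t + (n + j + i3 - k - i2 - l2 - 1)) (by omega)))))))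
      · by_cases z67 : (n + 2 * Q + j + i3) ≤ (i + k + l + 2 * i2 + l2 + 2)
        · by_cases v38 : (n + Q + i3) ≤ (i + l + 2 * i2 + l2 + 3)
          · have kk996 : (i + j + l + 2 * i2 + l2 + 4) ≤ (n + k + i3) := by clear * - b0 b2 b7 y21 z66; omega
            have kk997 : (i + k + l + l2 + 3) ≤ (n + j + i3) := by clear * - b0 b2 z66; omega
            have kk998 : (n + Q + i3) ≤ (i + l + 2 * i2 + l2 + 3) := by clear * - v38; omega
            have kk999 : (i2) ≤ (k) := by clear * - b0 b2 b4 b7 y21 z64 z66; linarith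
            have kk1000 : (i3) ≤ (i + l + 1) := by clear * - b0 b2 b4 y17 z64 z65 z66 z67; linarith
            have r1001 : (n + i + j + l + 2 * i2 + l2 - k - i3 + 2) % 2 = 0 := by clear * - ev n1p n2p n3p; omega
            clear * - al a2 tt D2 kk996 kk997 kk998 kk999 kk1000 r1001
            obtain ⟨t, ht⟩ : ∃ t, 2 * t = (n + i + j + l + 2 * i2 + l2 - k - i3 + 2) := ⟨(n + i + j + l + 2 * i2 + l2 - k - i3 + 2) / 2, by omega⟩
            exact al.ninv t (cE (cI (qf a2 al 1 t (t + (k - n - j)) (by omega)) (qa tt al 0 (t + (k - n - j)) ((n + i + j + l + i2 - k + 1) - t) (by omega))) (pb D2 al 0 ((n + i + j + l + i2 - k + 1) - t) t (by omega)))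
          · have kk1002 : (n + 2 * Q + j + i3) ≤ (i + k + l + 2 * i2 + l2 + 2) := by clear * - z67; omega
            have kk1003 : (i + k + l + l2 + 3) ≤ (n + j + i3) := by clear * - b0 b2 z66; omega
            have kk1004 : (i + l + 2 * i2 + l2 + 3) ≤ (n + Q + i3) := by clear * - v38; omega
            have kk1005 : (i2) ≤ (k) := by clear * - b0 b2 b4 v38 z64 z66 z67; linarith
            have kk1006 : (i3) ≤ (i + l + 1) := by clear * - b0 b2 b4 y17 z64 z65 z66 z67; linarith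
            have r1007 : (n + i + j + l + 2 * i2 + l2 - k - i3 + 2) % 2 = 0 := by clear * - ev n1p n2p n3p; omega
            clear * - al a2 tt D2 kk1002 kk1003 kk1004 kk1005 kk1006 r1007
            obtain ⟨t, ht⟩ : ∃ t, 2 * t = (n + i + j + l + 2 * i2 + l2 - k - i3 + 2) := ⟨(n + i + j + l + 2 * i2 + l2 - k - i3 + 2) / 2, by omega⟩
            exact al.ninv t (cE (cI (qf a2 al 1 t (t + (k - n - j)) (by omega)) (qa tt al 0 (t + (k - n - j)) ((n + i + j + l + i2 - k + 1) - t) (by omega))) (pb D2 al 0 ((n + i + j + l + i2 - k + 1) - t) t (by omega)))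
        · by_cases z68 : (4 * k + 3 * l + l2 + i3 + 6) ≤ (2 * n + 2 * Q + i + 2 * i2)
          · by_cases v39 : (i + k + 1) ≤ (2 * Q)
            · by_cases v40 : (2 * i2 + l2) ≤ (2 * k + l)
              · have kk1008 : (i + 2 * i2 + l2 + 1) ≤ (2 * k + l + i3) := by clear * - b0 b2 v40 z64 z66; omega
                have kk1009 : (2 * Q + 2 * j + l + i3) ≤ (3 * i + 2 * i2 + l2) := by clear * - b1 b6 z64; omega
                have kk1010 : (2 * Q + l + i3) ≤ (i + 2 * i2 + l2) := by clear * - b0 b2 b6 v40 z64 z65 z66; linarith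
                have kk1011 : (2 * Q + 2 * i2 + l2) ≤ (i + 2 * k + 3 * l + i3 + 2) := by clear * - b0 b2 b6 v39 v40 z64 z65 z66; linarith
                have kk1012 : (k + l) ≤ (i2 + l2) := by clear * - b0 b2 b6 v39 v40 z64 z65 z66; linarith
                have kk1013 : (n) ≤ (k + l + l2 + 2) := by clear * - b0 b2 b4 z64 z66; omega
                have kk1014 : (i + k + 1) ≤ (2 * Q) := by clear * - v39; omega
                have kk1015 : (i) ≤ (j) := by clear * - b0 b2 z64 z65 z66; omega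
                have kk1016 : (2 * i2 + l2) ≤ (2 * k + l) := by clear * - v40; omega
                have kk1017 : (2 * k + 2 * l + 2) ≤ (n + i2) := by clear * - y21; omega
                have kk1018 : (i + 1) ≤ (Q) := by clear * - b0 b2 v40 z64 z65 z66 z68; linarith
                have kk1019 : (i + 2 * i2 + l2) ≤ (Q + k + 2 * l + i3) := by clear * - b0 b2 v39 v40 z64 z65 z66 z68; linarith
                have r1020 : (2 * n + i + k) % 2 = 0 := by clear * - ev n1p n2p n3p; omega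
                have r1021 : (2 * k + l + i3 - i - 2 * i2 - l2) % 2 = 0 := by clear * - ev n1p n2p n3p; omega
                clear * - al a2 s2 b c D2 kk1008 kk1009 kk1010 kk1011 kk1012 kk1013 kk1014 kk1015 kk1016 kk1017 kk1018 kk1019 r1020 r1021
                exact midP al (2 * k + l + i3 - i - 2 * i2 - l2) (2 * n + i + k) (n + Q) (n + i + 1) (n + 2 * k + 2 * l + i3 - 2 * i2 - l2 + 1) (by omega) (fun t h1 h2 => (cE (cI (pb a2 al 1 t (t + (j - n - k)) (by omega)) (ab s2 al 0 (t + (j - n - k)) ((n + i + k) - t) (by omega))) (sh al 1 ((n + i + k) - t) ((2 * n + i + k) - t) (by omega)))) (fun t h1 h2 => (cE (cE (qf b al 1 t (t + (k - n - i)) (by omega)) (pb (show Par W (i3 + 1) (n + i3 - i2 - l2 - 1) (2 * i2 + l2 - k - l - i3) from fun t h1 h2 => (cE (sh al (-1) t (t + (-n)) (by omega)) (cE (pb D2 al (-1) (t + (-n)) (t + (i2 + l2 - i3 + 1)) (by omega)) (pb c al 0 (t + (i2 + l2 - i3 + 1)) (t + (2 * i2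 + l2 - k - l - i3)) (by omega))))) al 0 (t + (k - n - i)) (t + (2 * k + l + i3 - n - i - 2 * i2 - l2)) (by omega))) (sh al 1 (t + (2 * k + l + i3 - n - i - 2 * i2 - l2)) (t + (2 * k + l + i3 - i - 2 * i2 - l2)) (by omega))))
              · have kk1022 : (i + 2 * i2 + l2 + 1) ≤ (2 * k + l + i3) := by clear * - b0 b2 b7 z66; omega
                have kk1023 : (2 * Q + 2 * j + l + i3) ≤ (3 * i + 2 * i2 + l2) := by clear * - b1 b6 z64; omega
                have kk1024 : (2 * Q + 2 * i2 + l2 + i3) ≤ (i + 4 * k + l) := by clear * - b0 b2 b6 b7 v40 z65 z66; linarith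
                have kk1025 : (2 * Q + 2 * i2 + l2) ≤ (i + 2 * k + 3 * l + i3 + 2) := by clear * - b0 b2 b6 b7 v39 v40 z65 z66; linarith
                have kk1026 : (k + l) ≤ (i2 + l2) := by clear * - b1 b2 v39 v40 z64 z65 z66; linarith
                have kk1027 : (n) ≤ (k + l + l2 + 2) := by clear * - b0 b2 b4 z64 z66; omega
                have kk1028 : (i + k + 1) ≤ (2 * Q) := by clear * - v39; omega
                have kk1029 : (i) ≤ (j) := by clear * - b0 b2 z64 z65 z66; omega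
                have kk1030 : (2 * k + l) ≤ (2 * i2 + l2) := by clear * - v40; omega
                have kk1031 : (2 * k + 2 * l + 2) ≤ (n + i2) := by clear * - y21; omega
                have kk1032 : (i + 2 * i2 + l2 + 1) ≤ (Q + 2 * k + l) := by clear * - b0 b2 b7 v40 z65 z66 z68; linarith
                have kk1033 : (i + 2 * i2 + l2) ≤ (Q + k + 2 * l + i3) := by clear * - b0 b2 b7 v39 v40 z65 z66 z68; linarith
                have r1034 : (2 * n + i + k) % 2 = 0 := by clear * - ev n1p n2p n3p; omega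
                have r1035 : (2 * k + l + i3 - i - 2 * i2 - l2) % 2 = 0 := by clear * - ev n1p n2p n3p; omega
                clear * - al a2 s2 b c D2 kk1022 kk1023 kk1024 kk1025 kk1026 kk1027 kk1028 kk1029 kk1030 kk1031 kk1032 kk1033 r1034 r1035
                exact midP al (2 * k + l + i3 - i - 2 * i2 - l2) (2 * n + i + k) (n + Q) (n + i + 2 * i2 + l2 - 2 * k - l + 1) (n + 2 * k + 2 * l + i3 - 2 * i2 - l2 + 1) (by omega) (fun t h1 h2 => (cE (cI (pb a2 al 1 t (t + (j - n - k)) (by omega)) (ab s2 al 0 (t + (j - n - k)) ((n + i + k) - t) (by omega))) (sh al 1 ((n + i + k) - t) ((2 * n + i + k) - t) (by omega)))) (fun t h1 h2 => (cE (cE (qf b al 1 t (t + (k - n - i)) (by omega)) (pb (show Par W (i3 + 1) (n + i3 - i2 - l2 - 1) (2 * i2 + l2 - k - l - i3) from fun t h1 h2 => (cE (sh al (-1) t (t + (-n)) (by omega)) (cE (pb D2 al (-1) (t + (-n)) (t + (i2 + l2 - i3 + 1)) (by omega)) (pb c al 0 (t + (i2 +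 l2 - i3 + 1)) (t + (2 * i2 + l2 - k - l - i3)) (by omega))))) al 0 (t + (k - n - i)) (t + (2 * k + l + i3 - n - i - 2 * i2 - l2)) (by omega))) (sh al 1 (t + (2 * k + l + i3 - n - i - 2 * i2 - l2)) (t + (2 * k + l + i3 - i - 2 * i2 - l2)) (by omega))))
            · have kk1036 : (i + 2 * i2 + l2 + 1) ≤ (2 * k + l + i3) := by clear * - b0 b2 v39 z64 z65 z66 z67; linarith
              have kk1037 : (2 * j + 2 * k + l + i3 + 2) ≤ (2 * Q + i + 2 * i2 + l2) := by clear * - z64 z66 z68; omega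
              have kk1038 : (i + 2 * k + l + i3 + 2) ≤ (2 * Q + 2 * i2 + l2) := by clear * - b0 b2 z64 z65 z66 z68; omega
              have kk1039 : (i + 2 * i2 + l2) ≤ (2 * Q + 3 * l + i3) := by clear * - b0 b2 z64 z65 z66 z67 z68; linarith
              have kk1040 : (k + l) ≤ (i2 + l2) := by clear * - b0 b2 v39 z64 z65 z66 z68; linarith
              have kk1041 : (n) ≤ (k + l + l2 + 2) := by clear * - b0 b2 b4 z64 z66; omega
              have kk1042 : (2 * Q) ≤ (i + k + 1) := by clear * - v39; omega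
              have kk1043 : (i) ≤ (j) := by clear * - b0 b2 z64 z65 z66; omega
              have kk1044 : (2 * i2 + l2) ≤ (2 * k + l) := by clear * - b0 v39 z64 z65 z66 z67; omega
              have kk1045 : (2 * k + 2 * l + 2) ≤ (n + i2) := by clear * - y21; omega
              have kk1046 : (Q) ≤ (k) := by clear * - b0 b2 v39 z64 z65 z66 z67 z68; linarith
              have kk1047 : (Q + 2 * i2 + l2) ≤ (2 * k + 2 * l + i3 + 1) := by clear * - b0 b2 v39 z64 z65 z66 z67 z68; linarith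
              have r1048 : (2 * n + i + k) % 2 = 0 := by clear * - ev n1p n2p n3p; omega
              have r1049 : (2 * k + l + i3 - i - 2 * i2 - l2) % 2 = 0 := by clear * - ev n1p n2p n3p; omega
              clear * - al a2 s2 b c D2 kk1036 kk1037 kk1038 kk1039 kk1040 kk1041 kk1042 kk1043 kk1044 kk1045 kk1046 kk1047 r1048 r1049
              exact midP al (2 * k + l + i3 - i - 2 * i2 - l2) (2 * n + i + k) (n + i + k - Q + 1) (n + i + 1) (n + 2 * k + 2 * l + i3 - 2 * i2 - l2 + 1) (by omega) (fun t h1 h2 => (cE (cI (pb a2 al 1 t (t + (j - n - k)) (by omega)) (ab s2 al 0 (t + (j - n - k)) ((n + i + k) - t) (by omega))) (sh al 1 ((n + i + k) - t) ((2 * n + i + k) - t) (by omega)))) (fun t h1 h2 => (cE (cE (qf b al 1 t (t + (k - n - i)) (by omega)) (pb (show Par W (i3 + 1) (n + i3 - i2 - l2 - 1) (2 * i2 + l2 - k - l - i3) from fun t h1 h2 => (cE (sh al (-1) t (t + (-n)) (by omega)) (cE (pb D2 al (-1) (t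 + (-n)) (t + (i2 + l2 - i3 + 1)) (by omega)) (pb c al 0 (t + (i2 + l2 - i3 + 1)) (t + (2 * i2 + l2 - k - l - i3)) (by omega))))) al 0 (t + (k - n - i)) (t + (2 * k + l + i3 - n - i - 2 * i2 - l2)) (by omega))) (sh al 1 (t + (2 * k + l + i3 - n - i - 2 * i2 - l2)) (t + (2 * k + l + i3 - i - 2 * i2 - l2)) (by omega))))
          · by_cases v41 : (k + 2 * l + i3 + 1) ≤ (2 * i2 + l2)
            · have kk1050 : (j + k + l + i3 + 1) ≤ (i + 2 * i2 + l2) := by clear * - b0 b6 v41 z64 z65 z66 z67; linarith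
              have kk1051 : (i + j + 2 * i2 + l2 + 2) ≤ (2 * Q + k + l + i3) := by clear * - b0 z64 z66 z67; omega
              have kk1052 : (j + k + l + i3 + 2) ≤ (i + 2 * i2 + l2) := by clear * - b0 b6 v41 z64 z65 z66 z67; linarith
              have kk1053 : (j + 2 * i2 + l2) ≤ (i + k + 3 * l + i3) := by clear * - b0 b6 v41 z64 z65 z66 z67; linarith
              have kk1054 : (k + l) ≤ (i2 + l2) := by clear * - b0 b6 v41 z64 z65 z66 z67; linarith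
              have kk1055 : (n) ≤ (k + l + l2 + 2) := by clear * - b0 b4 v41 z64 z66 z67; omega
              have kk1056 : (2 * i2 + l2) ≤ (2 * k + l) := by clear * - b0 b6 v41 z64 z65 z66 z67 z68; linarith
              have kk1057 : (Q + 2 * i2 + l2) ≤ (2 * k + l + i3 + 1) := by clear * - b0 b6 z64 z67 z68; omega
              have kk1058 : (k + 2 * l + i3 + 1) ≤ (2 * i2 + l2) := by clear * - v41; omega
              have kk1059 : (2 * k + 2 * l + 2) ≤ (n + i2) := by clear * - b0 b3 b6 v41 z64 z66 z67; linarith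
              have kk1060 : (0) ≤ (l + 1) := by clear * - b0 b6 v41 z64 z65 z66 z67; linarith
              have kk1061 : (k + l + i3) ≤ (2 * i2 + l2) := by clear * - b0 b6 v41 z64 z65 z66 z67; linarith
              have r1062 : (2 * n + i + j) % 2 = 0 := by clear * - ev n1p n2p n3p; omega
              have r1063 : (i + 2 * i2 + l2 - j - k - l - i3) % 2 = 0 := by clear * - ev n1p n2p n3p; omega
              clear * - al a2 s2 b c D2 kk1050 kk1051 kk1052 kk1053 kk1054 kk1055 kk1056 kk1057 kk1058 kk1059 kk1060 kk1061 r1062 r1063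
              exact midP al (i + 2 * i2 + l2 - j - k - l - i3) (2 * n + i + j) (n + j + 1) (n + j + k + l + i3 - 2 * i2 - l2 + 1) (n + i + l + 1) (by omega) (fun t h1 h2 => (cE (qa s2 al 1 t ((n + i + j) - t) (by omega)) (sh al 1 ((n + i + j) - t) ((2 * n + i + j) - t) (by omega)))) (fun t h1 h2 => (cE (cE (cE (qf a2 al 1 t (t + (k - n - j)) (by omega)) (qf (show Par W (i3 + 1) (n + i3 - i2 - l2 - 1) (2 * i2 + l2 - k - l - i3) from fun t h1 h2 => (cE (sh al (-1) t (t + (-n)) (by omega)) (cE (pb D2 al (-1) (t + (-n)) (t + (i2 + l2 - i3 + 1)) (by omega)) (pb c al 0 (t + (i2 + l2 - i3 + 1)) (t + (2 * i2 + l2 - k - l - i3)) (by omega))))) al 0 (t + (k - n - j)) (t + (2 * i2 + l2 - n - j - l - i3)) (by omega))) (pb b al 0 (t + (2 * i2 + l2 - n - j - l - i3)) (t + (i + 2 * i2 + l2 - n - j - k - l - i3)) (by omega))) (sh al 1 (t + (i + 2 * i2 + l2 - n - j - k - l - i3)) (t + (i + 2 * i2 + l2 - j - k - l - i3))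 (by omega))))
            · have kk1064 : (j + k + l + i3 + 1) ≤ (i + 2 * i2 + l2) := by clear * - b0 b2 b6 v41 z64 z65 z66; linarith
              have kk1065 : (i + j + 2 * i2 + l2 + 2) ≤ (2 * Q + k + l + i3) := by clear * - b0 z64 z66 z67; omega
              have kk1066 : (j + k + l + i3 + 2) ≤ (i + 2 * i2 + l2) := by clear * - b0 b2 b6 v41 z64 z65 z66; linarith
              have kk1067 : (k + l) ≤ (i2 + l2) := by clear * - b0 b2 b6 v41 z64 z65 z66; linarith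
              have kk1068 : (n) ≤ (k + l + l2 + 2) := by clear * - b0 b2 b4 z64 z66; omega
              have kk1069 : (2 * i2 + l2) ≤ (2 * k + l) := by clear * - b0 b2 b6 v41 z64 z65 z68; linarith
              have kk1070 : (Q + 2 * i2 + l2) ≤ (2 * k + l + i3 + 1) := by clear * - b0 b6 z64 z67 z68; omega
              have kk1071 : (2 * i2 + l2) ≤ (k + 2 * l + i3 + 1) := by clear * - v41; omega
              have kk1072 : (k + i2 + l2 + 1) ≤ (n + i3) := by clear * - b0 b3 b6 z64 z66 z67; omega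
              have kk1073 : (k + l + i3) ≤ (2 * i2 + l2) := by clear * - b0 b2 b6 v41 z64 z65 z66; linarith
              have r1074 : (2 * n + i + j) % 2 = 0 := by clear * - ev n1p n2p n3p; omega
              have r1075 : (i + 2 * i2 + l2 - j - k - l - i3) % 2 = 0 := by clear * - ev n1p n2p n3p; omega
              clear * - al a2 s2 b c D2 kk1064 kk1065 kk1066 kk1067 kk1068 kk1069 kk1070 kk1071 kk1072 kk1073 r1074 r1075
              exact midP al (i + 2 * i2 + l2 - j - k - l - i3) (2 * n + i + j) (n + j + 1) (n + j + k + l + i3 - 2 * i2 - l2 + 1) (n + i + 2 * i2 + l2 - k - l - i3) (by omega) (fun t h1 h2 => (cE (qa s2 al 1 t ((n + i + j) - t) (by omega)) (sh al 1 ((n + i + j) - t) ((2 * n + i + j) - t) (by omega)))) (fun t h1 h2 => (cE (cE (cE (qf a2 al 1 t (t + (k - n - j)) (by omega)) (qf (show Par W (i3 + 1) (n + i3 - i2 - l2 - 1) (2 * i2 + l2 - k - l - i3) from fun t h1 h2 => (cE (sh al (-1)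 t (t + (-n)) (by omega)) (cE (pb D2 al (-1) (t + (-n)) (t + (i2 + l2 - i3 + 1)) (by omega)) (pb c al 0 (t + (i2 + l2 - i3 + 1)) (t + (2 * i2 + l2 - k - l - i3)) (by omega))))) al 0 (t + (k - n - j)) (t + (2 * i2 + l2 - n - j - l - i3)) (by omega))) (pb b al 0 (t + (2 * i2 + l2 - n - j - l - i3)) (t + (i + 2 * i2 + l2 - n - j - k - l - i3)) (by omega))) (sh al 1 (t + (i + 2 * i2 + l2 - n - j - k - l - i3)) (t + (i + 2 * i2 + l2 - j - k - l - i3)) (by omega))))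
  · by_cases z69 : (n + 2 * Q + j + i3) ≤ (i + k + l + 2 * i2 + l2 + 2)
    · by_cases v42 : (n + Q + i3) ≤ (i + l + 2 * i2 + l2 + 3)
      · have kk1076 : (i + k + l + l2 + 4) ≤ (n + j + i3) := by clear * - b0 b2 y22 z64; omega
        have kk1077 : (i + j + l + 2 * i2 + l2 + 3) ≤ (n + k + i3) := by clear * - b0 b2 b7 y21 y22 z64; omega
        have kk1078 : (i3) ≤ (i + l + 1) := by clear * - b0 b2 b4 b5 b7 v42 y17 z64 z69; linarith
        have kk1079 : (i2) ≤ (k) := by clear * - b0 b2 b4 b7 y20 y21 z64; linarith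
        have kk1080 : (n + Q + i3) ≤ (i + l + 2 * i2 + l2 + 3) := by clear * - v42; omega
        have r1081 : (n + i + j + l + 2 * i2 + l2 - k - i3 + 2) % 2 = 0 := by clear * - ev n1p n2p n3p; omega
        clear * - al a2 tt D2 kk1076 kk1077 kk1078 kk1079 kk1080 r1081
        obtain ⟨t, ht⟩ : ∃ t, 2 * t = (n + i + j + l + 2 * i2 + l2 - k - i3 + 2) := ⟨(n + i + j + l + 2 * i2 + l2 - k - i3 + 2) / 2, by omega⟩
        exact al.ninv t (cE (cE (cI (qf D2 al 0 t (t + (i3 - i2 - l2 - 1)) (by omega)) (ab tt al 0 (t + (i3 - i2 - l2 - 1)) ((i + l + 2 * i2 + l2 - i3 + 2) - t) (by omega))) (pb a2 al 0 ((i + l + 2 * i2 + l2 - i3 + 2) - t) ((i + j + l + 2 * i2 + l2 - k - i3 + 2) - t) (by omega))) (sh al 1 ((i + j + l + 2 * i2 + l2 - k - i3 + 2) - t) t (by omega)))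
      · have kk1082 : (i + k + l + l2 + 4) ≤ (n + j + i3) := by clear * - b0 b2 y22 z64; omega
        have kk1083 : (n + 2 * Q + j + i3) ≤ (i + k + l + 2 * i2 + l2 + 3) := by clear * - z69; omega
        have kk1084 : (i3) ≤ (i + l + 1) := by clear * - b3 b4 y13 y14 y17 z64 z69; linarith
        have kk1085 : (i2) ≤ (k) := by clear * - b0 b2 b4 b7 v42 y20 z64 z69; linarith
        have kk1086 : (i + l + 2 * i2 + l2 + 3) ≤ (n + Q + i3) := by clear * - v42; omega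
        have r1087 : (n + i + j + l + 2 * i2 + l2 - k - i3 + 2) % 2 = 0 := by clear * - ev n1p n2p n3p; omega
        clear * - al a2 tt D2 kk1082 kk1083 kk1084 kk1085 kk1086 r1087
        obtain ⟨t, ht⟩ : ∃ t, 2 * t = (n + i + j + l + 2 * i2 + l2 - k - i3 + 2) := ⟨(n + i + j + l + 2 * i2 + l2 - k - i3 + 2) / 2, by omega⟩
        exact al.ninv t (cE (cE (cI (qf D2 al 0 t (t + (i3 - i2 - l2 - 1)) (by omega)) (ab tt al 0 (t + (i3 - i2 - l2 - 1)) ((i + l + 2 * i2 + l2 - i3 + 2) - t) (by omega))) (pb a2 al 0 ((i + l + 2 * i2 + l2 - i3 + 2) - t) ((i + j + l + 2 * i2 + l2 - k - i3 + 2) - t) (by omega))) (sh al 1 ((i + j + l + 2 * i2 + l2 - k - i3 + 2) - t) t (by omega)))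
    · by_cases z70 : (i + 4 * i2 + 3 * l2 + 2) ≤ (n + j + 3 * k + l + i3)
      · by_cases v43 : (Q + i + 2 * i2 + l2) ≤ (j + 2 * k + l + i3 + 1)
        · by_cases v44 : (2 * i + 2 * i2 + l2) ≤ (Q + j + k + l + i3)
          · have kk1088 : (n + i + j) ≤ (k + l + l2 + i3 + 1) := by clear * - b3 y13; omega
            have kk1089 : (j + k + l + l2 + i3 + 4) ≤ (n + 2 * Q + i) := by clear * - b0 b2 b3 b4 b6 v44 y0 z69; linarith
            have kk1090 : (3 * j + 3 * k + 3 * l + i3 + 4) ≤ (n + 3 * i + 4 * i2 + l2) := by clear * - b0 b2 b3 b4 b6 v44 y0 z69; linarith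
            have kk1091 : (k + l) ≤ (i2 + l2) := by clear * - y20; omega
            have kk1092 : (n) ≤ (k + l + l2 + 2) := by clear * - y13 y14; omega
            have kk1093 : (n + j) ≤ (k + l + l2 + 2) := by clear * - b3 y0; omega
            have kk1094 : (i) ≤ (j) := by clear * - b3 b4 y22 z64; omega
            have kk1095 : (i + 2 * i2 + l2) ≤ (j + 2 * k + l) := by clear * - b5 b7 y22; omega
            have kk1096 : (Q + i + 2 * i2 + l2) ≤ (j + 2 * k + l + i3 + 1) := by clear * - v43; omega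
            have kk1097 : (Q + k + l + i3) ≤ (i + 2 * i2 + l2) := by clear * - b3 b4 b6 y22; omega
            have kk1098 : (Q) ≤ (i + l + 1) := by clear * - b0 b3 b6 y13 y14 y8; omega
            have kk1099 : (Q + 2 * k + l + 1) ≤ (n + i + i2) := by clear * - b3 b4 b6 y17 y22; omega
            have kk1100 : (i) ≤ (i3) := by clear * - y22; omega
            have kk1101 : (2 * i + 2 * i2 + l2) ≤ (Q + j + k + l + i3) := by clear * - v44; omega
            have r1102 : (2 * j + k + l + i3 - 2 * i2 - l2) % 2 = 0 := by clear * - ev n1p n2p n3p; omega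
            have r1103 : (k + l + l2 + i3 - n - i - j + 2) % 2 = 0 := by clear * - ev n1p n2p n3p; omega
            clear * - al a2 s2 b c u2 D2 kk1088 kk1089 kk1090 kk1091 kk1092 kk1093 kk1094 kk1095 kk1096 kk1097 kk1098 kk1099 kk1100 kk1101 r1102 r1103
            exact midP al (k + l + l2 + i3 - n - i - j + 2) (2 * j + k + l + i3 - 2 * i2 - l2) (2 * j + k + l + i3 - i - 2 * i2 - l2 + 1) (i + j - Q + 1) (i3) (by omega) (fun t h1 h2 => (cI (cE (cE (qf a2 al 0 t (t + (k - j)) (by omega)) (qf (show Par W (i3 + 1) (n + i3 - i2 - l2 - 1) (2 * i2 + l2 - k - l - i3) from fun t h1 h2 => (cE (sh al (-1) t (t + (-n)) (by omega)) (cE (pb D2 al (-1) (t + (-n)) (t + (i2 + l2 - i3 + 1)) (by omega)) (pb c al 0 (t + (i2 + l2 - i3 + 1)) (t + (2 * i2 + l2 - k - l - i3)) (by omega))))) al 0 (t + (k - j)) (t + (2 * i2 + l2 - j - l - i3)) (by omega))) (pb b al 0 (t + (2 * i2 + l2 - j - l - i3)) (t + (i + 2 * i2 + l2 -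 j - k - l - i3)) (by omega))) (qa s2 al 0 (t + (i + 2 * i2 + l2 - j - k - l - i3)) ((2 * j + k + l + i3 - 2 * i2 - l2) - t) (by omega)))) (fun t h1 h2 => (cE (qf (show Par W (n + i + j - Q + 1) (2 * n + i + j - k - l - l2 - 2) (k + l + l2 + i3 - n - i - j + 2) from fun t h1 h2 => (cE (sh al (-2) t (t + (-2 * n)) (by omega)) (cE (cII (ab s2 al (-1) (t + (-2 * n)) ((n + i + j) - t) (by omega)) (qa u2 al 0 ((n + i + j) - t) (t + (k + l + l2 + i3 - 2 * n - i - j + 2)) (by omega))) (sh al 1 (t + (k + l + l2 + i3 - 2 * n - i - j + 2)) (t + (k + l + l2 + i3 - n - i - j + 2)) (by omega))))) al (-1) t (t + (k + l + l2 + i3 - i - j + 2)) (by omega)) (sh al (-1) (t + (k + l + l2 + i3 - i - j + 2)) (t + (k + l + l2 + i3 - n - i - j + 2)) (by omega))))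
          · have kk1104 : (n + i + j) ≤ (k + l + l2 + i3 + 1) := by clear * - b3 y13; omega
            have kk1105 : (3 * i + 4 * i2 + 3 * l2 + 4) ≤ (n + 4 * Q + j + k + l + i3) := by clear * - b0 b3 y13 y14 z69; omega
            have kk1106 : (i + j + k + l + l2 + 4) ≤ (n + 2 * Q + i3) := by clear * - b0 b3 b4 v44 y13 z64 z69; linarith
            have kk1107 : (k + l) ≤ (i2 + l2) := by clear * - y20; omega
            have kk1108 : (n) ≤ (k + l + l2 + 2) := by clear * - y13 y14; omega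
            have kk1109 : (n + j) ≤ (k + l + l2 + 2) := by clear * - b3 y0; omega
            have kk1110 : (i) ≤ (j) := by clear * - b3 b4 y22 z64; omega
            have kk1111 : (i + 2 * i2 + l2) ≤ (j + 2 * k + l) := by clear * - b5 b7 y22; omega
            have kk1112 : (Q + i + 2 * i2 + l2) ≤ (j + 2 * k + l + i3 + 1) := by clear * - v43; omega
            have kk1113 : (Q + k + l + i3) ≤ (i + 2 * i2 + l2) := by clear * - b3 b4 v44 y22 z64; omega
            have kk1114 : (Q) ≤ (i + l + 1) := by clear * - b0 b3 v44 y13 y14 y8 z64; linarith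
            have kk1115 : (Q + 2 * k + l + 1) ≤ (n + i + i2) := by clear * - b3 b4 v44 y17 y22 z64; omega
            have kk1116 : (i) ≤ (i3) := by clear * - y22; omega
            have kk1117 : (Q + j + k + l + i3) ≤ (2 * i + 2 * i2 + l2) := by clear * - v44; omega
            have r1118 : (2 * j + k + l + i3 - 2 * i2 - l2) % 2 = 0 := by clear * - ev n1p n2p n3p; omega
            have r1119 : (k + l + l2 + i3 - n - i - j + 2) % 2 = 0 := by clear * - ev n1p n2p n3p; omega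
            clear * - al a2 s2 b c u2 D2 kk1104 kk1105 kk1106 kk1107 kk1108 kk1109 kk1110 kk1111 kk1112 kk1113 kk1114 kk1115 kk1116 kk1117 r1118 r1119
            exact midP al (k + l + l2 + i3 - n - i - j + 2) (2 * j + k + l + i3 - 2 * i2 - l2) (i + j - Q + 1) (i + j - Q + 1) (i3) (by omega) (fun t h1 h2 => (cI (cE (cE (qf a2 al 0 t (t + (k - j)) (by omega)) (qf (show Par W (i3 + 1) (n + i3 - i2 - l2 - 1) (2 * i2 + l2 - k - l - i3) from fun t h1 h2 => (cE (sh al (-1) t (t + (-n)) (by omega)) (cE (pb D2 al (-1) (t + (-n)) (t + (i2 + l2 - i3 + 1)) (by omega)) (pb c al 0 (t + (i2 + l2 - i3 + 1)) (t + (2 * i2 + l2 - k - l - i3)) (by omega))))) al 0 (t + (k - j)) (t + (2 * i2 + l2 - j - l - i3)) (by omega))) (pb b al 0 (t + (2 * i2 + l2 - j - l - i3)) (t + (i + 2 * i2 + l2 - j - k - l - i3)) (by omega))) (qa s2 al 0 (t + (i + 2 * i2 + l2 - j - k - l - i3)) ((2 * j + k + l + i3 - 2 * i2 - l2) - t) (by omega))))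 (fun t h1 h2 => (cE (qf (show Par W (n + i + j - Q + 1) (2 * n + i + j - k - l - l2 - 2) (k + l + l2 + i3 - n - i - j + 2) from fun t h1 h2 => (cE (sh al (-2) t (t + (-2 * n)) (by omega)) (cE (cII (ab s2 al (-1) (t + (-2 * n)) ((n + i + j) - t) (by omega)) (qa u2 al 0 ((n + i + j) - t) (t + (k + l + l2 + i3 - 2 * n - i - j + 2)) (by omega))) (sh al 1 (t + (k + l + l2 + i3 - 2 * n - i - j + 2)) (t + (k + l + l2 + i3 - n - i - j + 2)) (by omega))))) al (-1) t (t + (k + l + l2 + i3 - i - j + 2)) (by omega)) (sh al (-1) (t + (k + l + l2 + i3 - i - j + 2)) (t + (k + l + l2 + i3 - n - i - j + 2)) (by omega))))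
        · by_cases v45 : (i + k + 1) ≤ (2 * Q)
          · have kk1120 : (n + i + j) ≤ (k + l + l2 + i3 + 1) := by clear * - b3 y13; omega
            have kk1121 : (i + 4 * i2 + 3 * l2 + 2) ≤ (n + j + 3 * k + l + i3) := by clear * - z70; omega
            have kk1122 : (2 * Q + j + l + l2 + 2) ≤ (n + i + k + i3) := by clear * - b0 b2 b3 b6 b7 y13; omega
            have kk1123 : (k + l) ≤ (i2 + l2) := by clear * - b2 b3 b4 b6 b7 v45 y22; linarith
            have kk1124 : (n) ≤ (k + l + l2 + 2) := by clear * - y13 y14; omega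
            have kk1125 : (n + j) ≤ (k + l + l2 + 2) := by clear * - b3 y0; omega
            have kk1126 : (i) ≤ (j) := by clear * - b3 b4 y22 z64; omega
            have kk1127 : (i + 2 * i2 + l2) ≤ (j + 2 * k + l) := by clear * - b5 b7 y22; omega
            have kk1128 : (j + 2 * k + l + i3 + 1) ≤ (Q + i + 2 * i2 + l2) := by clear * - v43; omega
            have kk1129 : (Q + k + l + i3) ≤ (i + 2 * i2 + l2) := by clear * - b3 b4 b6 y22; omega
            have kk1130 : (Q) ≤ (i + l + 1) := by clear * - b0 b3 b6 b7 v45 y13 y14; linarith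
            have kk1131 : (Q + 2 * k + l + 1) ≤ (n + i + i2) := by clear * - b0 b2 b3 b6 b7 v45; omega
            have kk1132 : (j + 2 * k + l + 1) ≤ (Q + 2 * i2 + l2) := by clear * - v43 y22; omega
            have kk1133 : (i + k + 1) ≤ (2 * Q) := by clear * - v45; omega
            have r1134 : (2 * j + k + l + i3 - 2 * i2 - l2) % 2 = 0 := by clear * - ev n1p n2p n3p; omega
            have r1135 : (k + l + l2 + i3 - n - i - j + 2) % 2 = 0 := by clear * - ev n1p n2p n3p; omega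
            clear * - al a2 s2 b c u2 D2 kk1120 kk1121 kk1122 kk1123 kk1124 kk1125 kk1126 kk1127 kk1128 kk1129 kk1130 kk1131 kk1132 kk1133 r1134 r1135
            exact midP al (k + l + l2 + i3 - n - i - j + 2) (2 * j + k + l + i3 - 2 * i2 - l2) (Q + j - k) (i + j - Q + 1) (i3) (by omega) (fun t h1 h2 => (cI (cE (cE (qf a2 al 0 t (t + (k - j)) (by omega)) (qf (show Par W (i3 + 1) (n + i3 - i2 - l2 - 1) (2 * i2 + l2 - k - l - i3) from fun t h1 h2 => (cE (sh al (-1) t (t + (-n)) (by omega)) (cE (pb D2 al (-1) (t + (-n)) (t + (i2 + l2 - i3 + 1)) (by omega)) (pb c al 0 (t + (i2 + l2 - i3 + 1)) (t + (2 * i2 + l2 - k - l - i3)) (by omega))))) al 0 (t + (k - j)) (t + (2 * i2 + l2 - j - l - i3)) (by omega))) (pb b al 0 (t + (2 * i2 + l2 - j - l - i3)) (t + (i + 2 * i2 + l2 - j - k - l - i3)) (by omega))) (qa s2 al 0 (t + (i + 2 * i2 + l2 - j - k - l - i3)) ((2 * j + k + l + i3 - 2 * i2 - l2) - t) (by omega))))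 (fun t h1 h2 => (cE (qf (show Par W (n + i + j - Q + 1) (2 * n + i + j - k - l - l2 - 2) (k + l + l2 + i3 - n - i - j + 2) from fun t h1 h2 => (cE (sh al (-2) t (t + (-2 * n)) (by omega)) (cE (cII (ab s2 al (-1) (t + (-2 * n)) ((n + i + j) - t) (by omega)) (qa u2 al 0 ((n + i + j) - t) (t + (k + l + l2 + i3 - 2 * n - i - j + 2)) (by omega))) (sh al 1 (t + (k + l + l2 + i3 - 2 * n - i - j + 2)) (t + (k + l + l2 + i3 - n - i - j + 2)) (by omega))))) al (-1) t (t + (k + l + l2 + i3 - i - j + 2)) (by omega)) (sh al (-1) (t + (k + l + l2 + i3 - i - j + 2)) (t + (k + l + l2 + i3 - n - i - j + 2)) (by omega))))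
          · have kk1136 : (n + i + j) ≤ (k + l + l2 + i3 + 1) := by clear * - b3 y13; omega
            have kk1137 : (3 * i + 4 * i2 + 3 * l2 + 4) ≤ (n + 4 * Q + j + k + l + i3) := by clear * - b0 b3 y13 y14 z69; omega
            have kk1138 : (i + j + k + l + l2 + 4) ≤ (n + 2 * Q + i3) := by clear * - v43 y22 z70; omega
            have kk1139 : (k + l) ≤ (i2 + l2) := by clear * - b2 b3 b4 b7 v43 v45 y22 z64; linarith
            have kk1140 : (n) ≤ (k + l + l2 + 2) := by clear * - y13 y14; omega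
            have kk1141 : (n + j) ≤ (k + l + l2 + 2) := by clear * - b3 y0; omega
            have kk1142 : (i) ≤ (j) := by clear * - b3 b4 y22 z64; omega
            have kk1143 : (i + 2 * i2 + l2) ≤ (j + 2 * k + l) := by clear * - b5 b7 y22; omega
            have kk1144 : (j + 2 * k + l + i3 + 1) ≤ (Q + i + 2 * i2 + l2) := by clear * - v43; omega
            have kk1145 : (Q + k + l + i3) ≤ (i + 2 * i2 + l2) := by clear * - b3 b4 v43 v45 y22 z64; omega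
            have kk1146 : (Q) ≤ (i + l + 1) := by clear * - b0 b3 b7 v43 v45 y13 y14 z64; linarith
            have kk1147 : (Q + 2 * k + l + 1) ≤ (n + i + i2) := by clear * - b0 b2 b3 b7 v43 v45 z64; linarith
            have kk1148 : (j + 2 * k + l + 1) ≤ (Q + 2 * i2 + l2) := by clear * - v43 y22; omega
            have kk1149 : (2 * Q) ≤ (i + k + 1) := by clear * - v45; omega
            have r1150 : (2 * j + k + l + i3 - 2 * i2 - l2) % 2 = 0 := by clear * - ev n1p n2p n3p; omega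
            have r1151 : (k + l + l2 + i3 - n - i - j + 2) % 2 = 0 := by clear * - ev n1p n2p n3p; omega
            clear * - al a2 s2 b c u2 D2 kk1136 kk1137 kk1138 kk1139 kk1140 kk1141 kk1142 kk1143 kk1144 kk1145 kk1146 kk1147 kk1148 kk1149 r1150 r1151
            exact midP al (k + l + l2 + i3 - n - i - j + 2) (2 * j + k + l + i3 - 2 * i2 - l2) (i + j - Q + 1) (i + j - Q + 1) (i3) (by omega) (fun t h1 h2 => (cI (cE (cE (qf a2 al 0 t (t + (k - j)) (by omega)) (qf (show Par W (i3 + 1) (n + i3 - i2 - l2 - 1) (2 * i2 + l2 - k - l - i3) from fun t h1 h2 => (cE (sh al (-1) t (t + (-n)) (by omega)) (cE (pb D2 al (-1) (t + (-n)) (t + (i2 + l2 - i3 + 1)) (by omega)) (pb c al 0 (t + (i2 + l2 - i3 + 1)) (t + (2 * i2 + l2 - k - l - i3)) (by omega))))) al 0 (t + (k - j)) (t + (2 * i2 + l2 - j - l - i3)) (by omega))) (pb b al 0 (t + (2 * i2 + l2 - j - l - i3)) (t + (i + 2 * i2 + l2 - j - k - l - i3)) (by omega)))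 (qa s2 al 0 (t + (i + 2 * i2 + l2 - j - k - l - i3)) ((2 * j + k + l + i3 - 2 * i2 - l2) - t) (by omega)))) (fun t h1 h2 => (cE (qf (show Par W (n + i + j - Q + 1) (2 * n + i + j - k - l - l2 - 2) (k + l + l2 + i3 - n - i - j + 2) from fun t h1 h2 => (cE (sh al (-2) t (t + (-2 * n)) (by omega)) (cE (cII (ab s2 al (-1) (t + (-2 * n)) ((n + i + j) - t) (by omega)) (qa u2 al 0 ((n + i + j) - t) (t + (k + l + l2 + i3 - 2 * n - i - j + 2)) (by omega))) (sh al 1 (t + (k + l + l2 + i3 - 2 * n - i - j + 2)) (t + (k + l + l2 + i3 - n - i - j + 2)) (by omega))))) al (-1) t (t + (k + l + l2 + i3 - i - j + 2)) (by omega)) (sh al (-1) (t + (k + l + l2 + i3 - i - j + 2)) (t + (k + l + l2 + i3 - n - i - j + 2)) (by omega))))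
      · have kk1152 : (i + 2 * i2 + l2 + 1) ≤ (2 * k + l + i3) := by clear * - b0 b2 b7 z64 z70; omega
        have kk1153 : (2 * k + l + i3 + 1) ≤ (n + i + 2 * i2 + l2) := by clear * - b0 b2 b5 b6 b7 z64 z69 z70; linarith
        have kk1154 : (i3 + 1) ≤ (Q) := by clear * - b0 b2 b5 b6 b7 z64 z69 z70; linarith
        have kk1155 : (Q) ≤ (i + l + 1) := by clear * - b0 b2 b5 b6 b7 z64 z69 z70; linarith
        have kk1156 : (k + l) ≤ (i2 + l2) := by clear * - b0 b2 b5 b6 b7 z64 z69 z70; linarith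
        have kk1157 : (n) ≤ (k + l + l2 + 2) := by clear * - b0 b2 b4 b7 z64 z70; omega
        have kk1158 : (2 * k + l) ≤ (2 * i2 + l2) := by clear * - b0 b2 b7 z64 z70; omega
        have kk1159 : (2 * k + 2 * l + 2) ≤ (n + i2) := by clear * - y21; omega
        clear * - al b c D2 kk1152 kk1153 kk1154 kk1155 kk1156 kk1157 kk1158 kk1159
        exact al.ubQ (2 * k + l + i3 - i - 2 * i2 - l2) (by omega) (by omega) fun t h1 h2 => (cE (sh al (-1) t (t + (-n)) (by omega)) (cE (qf b al (-1) (t + (-n)) (t + (k - i)) (by omega)) (pb (show Par W (i3 + 1) (n + i3 - i2 - l2 - 1) (2 * i2 + l2 - k - l - i3) from fun t h1 h2 => (cE (sh al (-1) t (t + (-n)) (by omega)) (cE (pb D2 al (-1) (t + (-n)) (t + (i2 + l2 - i3 + 1)) (by omega)) (pb c al 0 (t + (i2 + l2 - i3 + 1)) (t + (2 * i2 + l2 - k - l - i3)) (by omega))))) al 0 (t + (k - i)) (t + (2 * k + l + i3 - i - 2 * i2 - l2)) (by omega))))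

theorem t2c_23 {W : ℤ → G} {n Q i j k l i2 l2 i3 : ℤ} (al : AL W n Q)
    (hy : (0) ≤ (i) ∧ (i) ≤ (j) ∧ (j + 1) ≤ (Q) ∧ (Q) ≤ (k) ∧ (k + 1) ≤ (n) ∧ (Q) ≤ (i + l + 1) ∧ (k + l + 2) ≤ (n) ∧ (Q) ≤ (i2) ∧ (i2) ≤ (i + l + 1) ∧ (Q) ≤ (i2 + l2 + 1) ∧ (i2 + l2 + 2) ≤ (n) ∧ (n) ≤ (k + l + l2 + 2) ∧ (k + l + l2 + 3) ≤ (n + Q) ∧ (0) ≤ (i3) ∧ (n + i3) ≤ (k + l + l2 + 2) ∧ (k + i2 + l2 + 2) ≤ (n + j + i3) ∧ (j + i3 + 1) ≤ (k) ∧ (k + i2 + l2 + 2) ≤ (n + i3) ∧ (i + 2 * i2 + 1) ≤ (2 * Q + k) ∧ (i + l + 1) ≤ (i2 + l2) ∧ (k + l + 1) ≤ (i2 + l2) ∧ (2 * k + 2 * l + 3) ≤ (n + i2) ∧ (i + 1) ≤ (i3))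
    (a1 : Par W (0) (j) (k - j))
    (a2 : Par W (Q + j - k) (j) (k - j))
    (s1 : Ant W (0) (i) (i + j))
    (s2 : Ant W (j + 1) (Q) (i + j))
    (b : Par W (i + 1) (i + l + 1) (k - i))
    (tt : Ant W (Q) (i2) (i + l + i2 + 1))
    (c : Par W (i2 + 1) (i2 + l2 + 1) (k + l - i2 + 1))
    (u1 : Ant W (0) (i3) (k + l + l2 + i3 - n + 2))
    (u2 : Ant W (k + l + l2 - n + 3) (Q) (k + l + l2 + i3 - n + 2))
    (D1 : Par W (i3 + 1) (Q) (i2 + l2 - i3 + 1))
    (D2 : Par W (i2 + l2 + 2) (n) (i3 - i2 - l2 - 1))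
    {L : ℤ} (mx : ∀ a b g, 0 < g → g < n → Par W a b g → b - a ≤ L)
    (hL : L ≤ (n - j - 3) ∧ L ≤ (n + Q - k - 3) ∧ L ≤ (n - l - 3) ∧ L ≤ (n + i - k - 2) ∧ L ≤ (n - l2 - 3) ∧ L ≤ (n + i3 - Q - 2) ∧ L ≤ (i2 + l2 - 1) ∧ L ≤ (n + i2 - k - l - 3) ∧ L ≤ (Q + i2 + l2 - i - l - 3))
    (bd0 : Bd W n L (j) (i) (k))
    (bd2 : Bd W n L (k + l + l2 - n + 2) (i3) (i2 + l2 + 1))
    (n1 : Nd W (j) (i) (k))
    (n2 : Nd W (i + l + 1) (i2) (k + l + 1))
    (n3 : Nd W (k + l + l2 - n + 2) (i3) (i2 + l2 + 1))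
    (b0 : (2 * l2 + 3) ≤ (n))
    (b1 : (2 * Q + i2 + l2) ≤ (n + i + j + i3))
    (b2 : (2 * i + l + i2 + 2) ≤ (2 * Q + k))
    (b3 : (j + l + l2 + i3 + 3) ≤ (n))
    (b4 : (i + k + 2 * l + 3) ≤ (Q + i2 + l2))
    (b5 : (n + i + j) ≤ (k + l + l2 + 1))
    (b6 : (l + 2 * i3) ≤ (Q + i + i2))
    (b7 : (k + l + l2 + i3 + 2) ≤ (n + 2 * j))
    (b8 : (2 * Q + 2 * k + l) ≤ (n + 2 * i + j + i2))
    (b9 : (3 * k + 2 * l + 3) ≤ (n + j + 2 * i2)) : False := by
  have ev := al.ev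
  obtain ⟨y0, y1, y2, y3, y4, y5, y6, y7, y8, y9, y10, y11, y12, y13, y14, y15, y16, y17, y18, y19, y20, y21, y22⟩ := id hy
  have n1p := And.intro n1.p1 n1.p2
  have n2p := And.intro n2.p1 n2.p2
  have n3p := And.intro n3.p1 n3.p2
  by_cases z60 : (j + l + i3) ≤ (Q + i2)
  · have kk873 : (n + j) ≤ (k + l + l2 + 1) := by clear * - b5 y0; omega
    have kk874 : (k + l + l2 + 3) ≤ (n + Q) := by clear * - b6 y17 y22; omega
    have kk875 : (k + i2 + l2 + 2) ≤ (n + j + i3) := by clear * - y15; omega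
    have kk876 : (Q) ≤ (k) := by clear * - b1 b5 b6 y22; omega
    have kk877 : (Q + k + l + i2 + 2 * l2 + 3) ≤ (2 * n + i + j + i3) := by clear * - b1 b6 y17 y22; omega
    have kk878 : (n + i) ≤ (k + l + l2 + 1) := by clear * - y14 y22; omega
    have kk879 : (Q + i2 + l2 + 1) ≤ (n + 2 * i3) := by clear * - b1 b5 b6 b7 y13 y17 z60; linarith
    have kk880 : (i3 + 1) ≤ (j) := by clear * - b5 b7 y0; omega
    have kk881 : (j + l + i3) ≤ (Q + i2) := by clear * - z60; omega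
    have kk882 : (n + j) ≤ (k + l + l2 + 2) := by clear * - b5 y0; omega
    have kk883 : (i3 + 1) ≤ (Q) := by clear * - b5 b6 y15; omega
    have kk884 : (k + i2 + l2 + 1) ≤ (n + i3) := by clear * - y17; omega
    have kk885 : (2 * Q + i2 + l2) ≤ (n + i + j + i3) := by clear * - b1; omega
    have kk886 : (2 * Q + i2) ≤ (k + l + 2 * i3 + 2) := by clear * - b1 b5 y13; omega
    have kk887 : (n + i) ≤ (k + l + l2 + 2) := by clear * - y14 y22; omega
    have kk888 : (i3) ≤ (j) := by clear * - b7 y14; omega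
    have r889 : (k + l + l2 + i3 - n - i - j + 2) % 2 = 0 := by clear * - ev n1p n2p n3p; omega
    have r890 : (n + j + i3 - k - i2 - l2 - 1) % 2 = 0 := by clear * - ev n1p n2p n3p; omega
    clear * - al a2 s2 u2 D2 n3 kk873 kk874 kk875 kk876 kk877 kk878 kk879 kk880 kk881 kk882 kk883 kk884 kk885 kk886 kk887 kk888 r889 r890
    exact ivt0 (n + Q + i2 + l2 - i3 + 1) (n + k + i2 + l2 - i3 + 1) (n + j + i3 - k - i2 - l2 - 1) (2 * n + i + j - Q + 1) (3 * n + i + j - k - l - l2 - 2) (k + l + l2 + i3 - n - i - j + 2) (3 * n + i + j - k - l - l2 - 2) (2 * n + i3) 0 (fun t h1 h2 => (cE (qf (show Par W (Q + i2 + l2 - i3 + 1) (k + i2 + l2 - i3 + 1) (n + j + i3 - k - i2 - l2 - 1) from fun t h1 h2 => (cE (sh al (-1) t (t + (-n)) (by omega)) (cE (cE (qf D2 al (-1) (t + (-n)) (t + (i3 - i2 - l2 - 1)) (by omega)) (pb a2 al 0 (t + (i3 - i2 - l2 - 1)) (t + (j + i3 - k - i2 - l2 - 1)) (by omega))) (sh al 1 (t + (j +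 i3 - k - i2 - l2 - 1)) (t + (n + j + i3 - k - i2 - l2 - 1)) (by omega))))) al 1 t (t + (j + i3 - k - i2 - l2 - 1)) (by omega)) (sh al 1 (t + (j + i3 - k - i2 - l2 - 1)) (t + (n + j + i3 - k - i2 - l2 - 1)) (by omega)))) (fun t h1 h2 => (cE (sh al (-2) t (t + (-2 * n)) (by omega)) (cE (qf (show Par W (n + i + j - Q + 1) (2 * n + i + j - k - l - l2 - 2) (k + l + l2 + i3 - n - i - j + 2) from fun t h1 h2 => (cE (sh al (-2) t (t + (-2 * n)) (by omega)) (cE (cII (ab s2 al (-1) (t + (-2 * n)) ((n + i + j) - t) (by omega)) (qa u2 al 0 ((n + i + j) - t) (t + (k + l + l2 + i3 - 2 * n - i - j + 2)) (by omega))) (sh al 1 (t + (k + l + l2 + i3 - 2 * n - i - j + 2)) (t + (k + l + l2 + i3 - n - i - j + 2)) (by omega))))) al (-1) (t + (-2 * n)) (t + (k + l + l2 + i3 - 2 * n - i - j + 2)) (by omega)) (sh al 1 (t + (k + l + l2 + i3 - 2 * n - i - j + 2)) (t + (k + l + l2 + i3 - n - i - j + 2)) (by omega))))) (fun hh =>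 n3.f2 (rEI (sh al 2 (i3) (2 * n + i3) (by omega)) (cE (qa s2 al 0 (k + l + l2 - n + 2) (n + i + j - k - l - l2 - 2) (by omega)) (sh al 2 (n + i + j - k - l - l2 - 2) (3 * n + i + j - k - l - l2 - 2) (by omega))) (Eq.symm (Eq.symm hh)))) (by omega) (by omega)
  · by_cases z61 : (3 * i2 + l2) ≤ (2 * k + 2 * l + i3)
    · by_cases z62 : (n + k + l + i3) ≤ (3 * i2 + 2 * l2 + 1)
      · have kk891 : (3 * i2 + l2) ≤ (2 * k + 2 * l + i3) := by clear * - z61; omega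
        have kk892 : (2 * k + 2 * l + i3 + 2) ≤ (n + 3 * i2 + l2) := by clear * - b0 b5 b6 y21 z60 z61 z62; linarith
        have kk893 : (2 * k + 2 * l + 3) ≤ (n + i2) := by clear * - y21; omega
        have kk894 : (i3) ≤ (i2) := by clear * - b0 b4 b5 b6 b8 b9 z60 z61 z62; linarith
        have kk895 : (i2) ≤ (k + l + 1) := by clear * - b3 b9 z61 z62; omega
        have kk896 : (n + k + l + i3) ≤ (3 * i2 + 2 * l2 + 1) := by clear * - z62; omega
        clear * - al c D2 kk891 kk892 kk893 kk894 kk895 kk896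
        exact al.ubP (2 * k + 2 * l + i3 - 3 * i2 - l2 + 1) (by omega) (by omega) fun t h1 h2 => (cE (sh al 2 t (t + (2 * n)) (by omega)) (cE (cE (cE (qf D2 al 1 (t + (2 * n)) (t + (n + i3 - i2 - l2 - 1)) (by omega)) (qf c al 0 (t + (n + i3 - i2 - l2 - 1)) (t + (n + k + l + i3 - 2 * i2 - l2)) (by omega))) (qf c al 0 (t + (n + k + l + i3 - 2 * i2 - l2)) (t + (n + 2 * k + 2 * l + i3 - 3 * i2 - l2 + 1)) (by omega))) (sh al (-1) (t + (n + 2 * k + 2 * l + i3 - 3 * i2 - l2 + 1)) (t + (2 * k + 2 * l + i3 - 3 * i2 - l2 + 1)) (by omega))))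
      · by_cases z63 : (i + 2 * i2 + l2 + 1) ≤ (2 * k + l + i3)
        · have kk897 : (i + 2 * i2 + l2 + 1) ≤ (2 * k + l + i3) := by clear * - z63; omega
          have kk898 : (2 * k + l + i3 + 1) ≤ (n + i + 2 * i2 + l2) := by clear * - b5 b6 b8 b9 y13 z61 z62 z63; linarith
          have kk899 : (i3 + 1) ≤ (Q) := by clear * - b5 b6 b9 z61; omega
          have kk900 : (Q) ≤ (i + l + 1) := by clear * - b0 b5 b6 b8 y13 y8 z60; linarith
          have kk901 : (k + l) ≤ (i2 + l2) := by clear * - y20; omega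
          have kk902 : (n) ≤ (k + l + l2 + 2) := by clear * - b5 b6 y13 z60; omega
          have kk903 : (2 * k + l) ≤ (2 * i2 + l2) := by clear * - b5 b9 y0; omega
          have kk904 : (2 * k + 2 * l + 2) ≤ (n + i2) := by clear * - y21; omega
          clear * - al b c D2 kk897 kk898 kk899 kk900 kk901 kk902 kk903 kk904
          exact al.ubQ (2 * k + l + i3 - i - 2 * i2 - l2) (by omega) (by omega) fun t h1 h2 => (cE (sh al (-1) t (t + (-n)) (by omega)) (cE (qf b al (-1) (t + (-n)) (t + (k - i)) (by omega)) (pb (show Par W (i3 + 1) (n + i3 - i2 - l2 - 1) (2 * i2 + l2 - k - l - i3) from fun t h1 h2 => (cE (sh al (-1) t (t + (-n)) (by omega)) (cE (pb D2 al (-1) (t + (-n)) (t + (i2 + l2 - i3 + 1)) (by omega)) (pb c al 0 (t + (i2 + l2 - i3 + 1)) (t + (2 * i2 + l2 - k - l - i3)) (by omega))))) al 0 (t + (k - i)) (t + (2 * k + l + i3 - i - 2 * i2 - l2)) (by omega))))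
        · have kk905 : (i2) ≤ (i + l) := by clear * - z61 z63; omega
          have kk906 : (i + l + 1) ≤ (i2 + l2) := by clear * - b4 b5 b6 b8 y22 z60 z61 z62 z63; linarith
          have kk907 : (3 * i2 + l2) ≤ (2 * k + 2 * l + i3) := by clear * - z61; omega
          have kk908 : (2 * k + l + i3) ≤ (i + 2 * i2 + l2) := by clear * - z63; omega
          have kk909 : (i + l + i2 + l2 + 3) ≤ (n + i3) := by clear * - b0 b1 b4 b5 z62; omega
          have kk910 : (k + l) ≤ (i2 + l2) := by clear * - b4 b5 b6 b8 y22 z61 z63; linarith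
          have kk911 : (n) ≤ (k + l + l2 + 2) := by clear * - b5 b6 y13 z60; omega
          have kk912 : (i) ≤ (i2) := by clear * - b0 b5 b6 b8 y22 z60 z62 z63; linarith
          have kk913 : (i + l) ≤ (i2 + l2) := by clear * - b4 b5 b6 b8 y22 z60 z61 z62 z63; linarith
          have kk914 : (i3) ≤ (i2) := by clear * - b0 b5 b6 b8 y22 z60 z62 z63; linarith
          have kk915 : (n + i3) ≤ (2 * i2 + 2 * l2 + 2) := by clear * - b5 b6 b8 y22 z60 z61 z63; linarith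
          have r916 : (i + l - i2 + 1) % 2 = 0 := by clear * - ev n1p n2p n3p; omega
          have r917 : (2 * k + 2 * l + i3 - 3 * i2 - l2 + 1) % 2 = 0 := by clear * - ev n1p n2p n3p; omega
          clear * - al b c D2 n2 kk905 kk906 kk907 kk908 kk909 kk910 kk911 kk912 kk913 kk914 kk915 r916 r917
          exact n2.f0 (rEE (qf c al 0 (i + l + 1) (i + k + 2 * l - i2 + 2) (by omega)) (sh al 0 (k + l + 1) (k + l + 1) (by omega)) (Eq.symm (rotR (i + l - i2 + 1) (2 * k + 2 * l + i3 - 3 * i2 - l2 + 1) (k + l + 1) (i + k + 2 * l - i2 + 2) (by omega) (fun t h1 h2 => (cE (pb b al 0 t (t + (i - k)) (by omega)) (qf c al 0 (t + (i - k)) (t + (i + l - i2 + 1)) (by omega)))) (fun t h1 h2 => (cE (pb (show Par W (i3 + 1) (n + i3 - i2 - l2 - 1) (2 * i2 + l2 - k - l - i3) from fun t h1 h2 => (cE (sh al (-1) t (t + (-n)) (by omega)) (cE (pb D2 al (-1) (t + (-n)) (t + (i2 + l2 - i3 + 1)) (by omega)) (pb c al 0 (t + (i2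 + l2 - i3 + 1)) (t + (2 * i2 + l2 - k - l - i3)) (by omega))))) al 0 t (t + (k + l + i3 - 2 * i2 - l2)) (by omega)) (qf c al 0 (t + (k + l + i3 - 2 * i2 - l2)) (t + (2 * k + 2 * l + i3 - 3 * i2 - l2 + 1)) (by omega)))))))
    · by_cases v34 : (k) ≤ (i2)
      · by_cases v35 : (i + 2 * i2 + l2) ≤ (Q + 2 * k + l)
        · have kk918 : (3 * k + 2 * l + 3) ≤ (n + i + 2 * i2) := by clear * - b3 b4 v34 y0 z60; omega
          have kk919 : (3 * k + 2 * l + 4) ≤ (n + i + 2 * i2) := by clear * - b3 b4 v34 y0 z60; omega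
          have kk920 : (5 * k + 4 * l + 4) ≤ (n + i + 4 * i2 + 2 * l2) := by clear * - b4 b5 b6 b8 v34 v35 y13 y17 z60; linarith
          have kk921 : (7 * k + 4 * l + 2 * i3 + 4) ≤ (n + 3 * i + 6 * i2 + 2 * l2) := by clear * - b3 b4 b5 b7 v34 y0 z60; linarith
          have kk922 : (i2) ≤ (k + l + 1) := by clear * - b5 b6 b8 v34 v35 y13 y18; linarith
          have kk923 : (k) ≤ (i2) := by clear * - v34; omega
          have kk924 : (2 * i2 + l2) ≤ (2 * k + 2 * l + 1) := by clear * - b1 b5 b6 v34 v35 y13 y17 z60; linarith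
          have kk925 : (i + i2) ≤ (k + i3) := by clear * - b1 b4 b5 v35 y13; omega
          have kk926 : (i + 2 * i2 + l2) ≤ (Q + 2 * k + l) := by clear * - v35; omega
          have r927 : (k + l + l2 + i3 - n + 2) % 2 = 0 := by clear * - ev n1p n2p n3p; omega
          have r928 : (n + i + 2 * i2 - 3 * k - 2 * l - 2) % 2 = 0 := by clear * - ev n1p n2p n3p; omega
          clear * - al b c u2 kk918 kk919 kk920 kk921 kk922 kk923 kk924 kk925 kk926 r927 r928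
          exact midP al (n + i + 2 * i2 - 3 * k - 2 * l - 2) (k + l + l2 + i3 - n + 2) (3 * k + 2 * l + i3 - n - i - 2 * i2 + 3) (2 * k + 2 * l - n - i2 + 3) (i + 2 * i2 + l2 - 2 * k - l) (by omega) (fun t h1 h2 => (ab u2 al 0 t ((k + l + l2 + i3 - n + 2) - t) (by omega))) (fun t h1 h2 => (cE (cE (pb c al (-1) t (t + (n + i2 - k - l - 1)) (by omega)) (pb c al 0 (t + (n + i2 - k - l - 1)) (t + (n + 2 * i2 - 2 * k - 2 * l - 2)) (by omega))) (pb b al 0 (t + (n + 2 * i2 - 2 * k - 2 * l - 2)) (t + (n + i + 2 * i2 - 3 * k - 2 * l - 2)) (by omega))))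
        · have kk929 : (3 * k + 2 * l + 3) ≤ (n + i + 2 * i2) := by clear * - b0 v35 y18; omega
          have kk930 : (i + 2 * i2 + 2 * l2 + 4) ≤ (n + 2 * Q + k) := by clear * - b0 y18; omega
          have kk931 : (i + k + 2 * l + 4) ≤ (n + 2 * Q) := by clear * - b0 b5 b6 b8 v35 y18 y22; linarith
          have kk932 : (3 * k + 2 * l + 2 * i3 + 4) ≤ (n + 2 * Q + i + 2 * i2) := by clear * - b0 b5 b6 v35 y18 z60; omega
          have kk933 : (i2) ≤ (k + l + 1) := by clear * - b3 b5 b6 v34 y13 y18 z60; linarith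
          have kk934 : (k) ≤ (i2) := by clear * - v34; omega
          have kk935 : (2 * i2 + l2) ≤ (2 * k + 2 * l + 1) := by clear * - b0 b1 b2 b5 b6 y13 y8 z60; linarith
          have kk936 : (i + i2) ≤ (k + i3) := by clear * - b1 b2 b5 y13; omega
          have kk937 : (Q + 2 * k + l) ≤ (i + 2 * i2 + l2) := by clear * - v35; omega
          have r938 : (k + l + l2 + i3 - n + 2) % 2 = 0 := by clear * - ev n1p n2p n3p; omega
          have r939 : (n + i + 2 * i2 - 3 * k - 2 * l - 2) % 2 = 0 := by clear * - ev n1p n2p n3p; omega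
          clear * - al b c u2 kk929 kk930 kk931 kk932 kk933 kk934 kk935 kk936 kk937 r938 r939
          exact midP al (n + i + 2 * i2 - 3 * k - 2 * l - 2) (k + l + l2 + i3 - n + 2) (k + l + l2 + i3 - n - Q + 3) (2 * k + 2 * l - n - i2 + 3) (i + 2 * i2 + l2 - 2 * k - l) (by omega) (fun t h1 h2 => (ab u2 al 0 t ((k + l + l2 + i3 - n + 2) - t) (by omega))) (fun t h1 h2 => (cE (cE (pb c al (-1) t (t + (n + i2 - k - l - 1)) (by omega)) (pb c al 0 (t + (n + i2 - k - l - 1)) (t + (n + 2 * i2 - 2 * k - 2 * l - 2)) (by omega))) (pb b al 0 (t + (n + 2 * i2 - 2 * k - 2 * l - 2)) (t + (n + i + 2 * i2 - 3 * k - 2 * l - 2)) (by omega))))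
      · by_cases v36 : (i + 2 * i2 + l2) ≤ (Q + 2 * k + l)
        · have kk940 : (3 * k + 2 * l + 3) ≤ (n + i + 2 * i2) := by clear * - y0 y17 z61; omega
          have kk941 : (3 * k + 2 * l + 4) ≤ (n + i + 2 * i2) := by clear * - y0 y17 z61 ev n1p n2p n3p; omega
          have kk942 : (7 * k + 4 * l + 4) ≤ (n + i + 6 * i2 + 2 * l2) := by clear * - b5 v36 y13 y17 y8 z60 z61; linarith
          have kk943 : (7 * k + 4 * l + 2 * i3 + 4) ≤ (n + 3 * i + 6 * i2 + 2 * l2) := by clear * - b5 b7 y0 y17 z61; omega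
          have kk944 : (i2) ≤ (k + l + 1) := by clear * - b0 b5 b6 b8 y13 y18 z60; linarith
          have kk945 : (i2) ≤ (k) := by clear * - v34; omega
          have kk946 : (2 * i2 + l2) ≤ (2 * k + 2 * l + 1) := by clear * - b0 b5 b6 v34 y13 y17 z60; linarith
          have kk947 : (i) ≤ (i3) := by clear * - y22; omega
          have kk948 : (i + 2 * i2 + l2) ≤ (Q + 2 * k + l) := by clear * - v36; omega
          have r949 : (k + l + l2 + i3 - n + 2) % 2 = 0 := by clear * - ev n1p n2p n3p; omega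
          have r950 : (n + i + 2 * i2 - 3 * k - 2 * l - 2) % 2 = 0 := by clear * - ev n1p n2p n3p; omega
          clear * - al b c u2 kk940 kk941 kk942 kk943 kk944 kk945 kk946 kk947 kk948 r949 r950
          exact midP al (n + i + 2 * i2 - 3 * k - 2 * l - 2) (k + l + l2 + i3 - n + 2) (3 * k + 2 * l + i3 - n - i - 2 * i2 + 3) (3 * k + 2 * l - n - 2 * i2 + 3) (i + 2 * i2 + l2 - 2 * k - l) (by omega) (fun t h1 h2 => (ab u2 al 0 t ((k + l + l2 + i3 - n + 2) - t) (by omega))) (fun t h1 h2 => (cE (cE (pb c al (-1) t (t + (n + i2 - k - l - 1)) (by omega)) (pb c al 0 (t + (n + i2 - k - l - 1)) (t + (n + 2 * i2 - 2 * k - 2 * l - 2)) (by omega))) (pb b al 0 (t + (n + 2 * i2 - 2 * k - 2 * l - 2)) (t + (n + i + 2 * i2 - 3 * k - 2 * l - 2)) (by omega))))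
        · have kk951 : (3 * k + 2 * l + 3) ≤ (n + i + 2 * i2) := by clear * - b0 v36 y18; omega
          have kk952 : (i + 2 * i2 + 2 * l2 + 4) ≤ (n + 2 * Q + k) := by clear * - b0 y18; omega
          have kk953 : (i + 3 * k + 2 * l + 4) ≤ (n + 2 * Q + 2 * i2) := by clear * - b0 b5 b6 v36 y18 y22 z60; linarith
          have kk954 : (3 * k + 2 * l + 2 * i3 + 4) ≤ (n + 2 * Q + i + 2 * i2) := by clear * - b0 b5 b6 v36 y18 z60; omega
          have kk955 : (i2) ≤ (k + l + 1) := by clear * - b0 b5 b6 v34 v36 y13 y18 z60; linarith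
          have kk956 : (i2) ≤ (k) := by clear * - v34; omega
          have kk957 : (2 * i2 + l2) ≤ (2 * k + 2 * l + 1) := by clear * - b0 b5 b6 v34 y13 y17 z60; linarith
          have kk958 : (i) ≤ (i3) := by clear * - y22; omega
          have kk959 : (Q + 2 * k + l) ≤ (i + 2 * i2 + l2) := by clear * - v36; omega
          have r960 : (k + l + l2 + i3 - n + 2) % 2 = 0 := by clear * - ev n1p n2p n3p; omega
          have r961 : (n + i + 2 * i2 - 3 * k - 2 * l - 2) % 2 = 0 := by clear * - ev n1p n2p n3p; omega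
          clear * - al b c u2 kk951 kk952 kk953 kk954 kk955 kk956 kk957 kk958 kk959 r960 r961
          exact midP al (n + i + 2 * i2 - 3 * k - 2 * l - 2) (k + l + l2 + i3 - n + 2) (k + l + l2 + i3 - n - Q + 3) (3 * k + 2 * l - n - 2 * i2 + 3) (i + 2 * i2 + l2 - 2 * k - l) (by omega) (fun t h1 h2 => (ab u2 al 0 t ((k + l + l2 + i3 - n + 2) - t) (by omega))) (fun t h1 h2 => (cE (cE (pb c al (-1) t (t + (n + i2 - k - l - 1)) (by omega)) (pb c al 0 (t + (n + i2 - k - l - 1)) (t + (n + 2 * i2 - 2 * k - 2 * l - 2)) (by omega))) (pb b al 0 (t + (n + 2 * i2 - 2 * k - 2 * l - 2)) (t + (n + i + 2 * i2 - 3 * k - 2 * l - 2)) (by omega))))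

theorem t2c_22 {W : ℤ → G} {n Q i j k l i2 l2 i3 : ℤ} (al : AL W n Q)
    (hy : (0) ≤ (i) ∧ (i) ≤ (j) ∧ (j + 1) ≤ (Q) ∧ (Q) ≤ (k) ∧ (k + 1) ≤ (n) ∧ (Q) ≤ (i + l + 1) ∧ (k + l + 2) ≤ (n) ∧ (Q) ≤ (i2) ∧ (i2) ≤ (i + l + 1) ∧ (Q) ≤ (i2 + l2 + 1) ∧ (i2 + l2 + 2) ≤ (n) ∧ (n) ≤ (k + l + l2 + 2) ∧ (k + l + l2 + 3) ≤ (n + Q) ∧ (0) ≤ (i3) ∧ (n + i3) ≤ (k + l + l2 + 2) ∧ (k + i2 + l2 + 2) ≤ (n + j + i3) ∧ (j + i3 + 1) ≤ (k) ∧ (k + i2 + l2 + 2) ≤ (n + i3) ∧ (i + 2 * i2 + 1) ≤ (2 * Q + k) ∧ (i + l + 1) ≤ (i2 + l2) ∧ (k + l + 1) ≤ (i2 + l2) ∧ (2 * k + 2 * l + 3) ≤ (n + i2) ∧ (i + 1) ≤ (i3))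
    (a1 : Par W (0) (j) (k - j))
    (a2 : Par W (Q + j - k) (j) (k - j))
    (s1 : Ant W (0) (i) (i + j))
    (s2 : Ant W (j + 1) (Q) (i + j))
    (b : Par W (i + 1) (i + l + 1) (k - i))
    (tt : Ant W (Q) (i2) (i + l + i2 + 1))
    (c : Par W (i2 + 1) (i2 + l2 + 1) (k + l - i2 + 1))
    (u1 : Ant W (0) (i3) (k + l + l2 + i3 - n + 2))
    (u2 : Ant W (k + l + l2 - n + 3) (Q) (k + l + l2 + i3 - n + 2))
    (D1 : Par W (i3 + 1) (Q) (i2 + l2 - i3 + 1))
    (D2 : Par W (i2 + l2 + 2) (n) (i3 - i2 - l2 - 1))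
    {L : ℤ} (mx : ∀ a b g, 0 < g → g < n → Par W a b g → b - a ≤ L)
    (hL : L ≤ (n - j - 3) ∧ L ≤ (n + Q - k - 3) ∧ L ≤ (n - l - 3) ∧ L ≤ (n + i - k - 2) ∧ L ≤ (n - l2 - 3) ∧ L ≤ (n + i3 - Q - 2) ∧ L ≤ (i2 + l2 - 1) ∧ L ≤ (n + i2 - k - l - 3) ∧ L ≤ (Q + i2 + l2 - i - l - 3))
    (bd0 : Bd W n L (j) (i) (k))
    (bd2 : Bd W n L (k + l + l2 - n + 2) (i3) (i2 + l2 + 1))
    (n1 : Nd W (j) (i) (k))
    (n2 : Nd W (i + l + 1) (i2) (k + l + 1))
    (n3 : Nd W (k + l + l2 - n + 2) (i3) (i2 + l2 + 1))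
    (b0 : (2 * l2 + 3) ≤ (n))
    (b1 : (2 * Q + i2 + l2) ≤ (n + i + j + i3))
    (b2 : (2 * i + l + i2 + 2) ≤ (2 * Q + k))
    (b3 : (j + l + l2 + i3 + 3) ≤ (n))
    (b4 : (i + k + 2 * l + 3) ≤ (Q + i2 + l2))
    (b5 : (n + i + j) ≤ (k + l + l2 + 1))
    (b6 : (l + 2 * i3) ≤ (Q + i + i2))
    (b7 : (k + l + l2 + i3 + 2) ≤ (n + 2 * j))
    (b8 : (2 * Q + 2 * k + l) ≤ (n + 2 * i + j + i2)) : False := by
  have ev := al.ev
  obtain ⟨y0, y1, y2, y3, y4, y5, y6, y7, y8, y9, y10, y11, y12, y13, y14, y15, y16, y17, y18, y19, y20, y21, y22⟩ := id hy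
  have n1p := And.intro n1.p1 n1.p2
  have n2p := And.intro n2.p1 n2.p2
  have n3p := And.intro n3.p1 n3.p2
  by_cases z59 : (3 * k + 2 * l + 3) ≤ (n + j + 2 * i2)
  · exact t2c_23 al hy a1 a2 s1 s2 b tt c u1 u2 D1 D2 mx hL bd0 bd2 n1 n2 n3 (by clear * - b0; omega) (by clear * - b1; omega) (by clear * - b2; omega) (by clear * - b3; omega) (by clear * - b4; omega) (by clear * - b5; omega) (by clear * - b6; omega) (by clear * - b7; omega) (by clear * - b8; omega) (by clear * - z59; omega)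
  · exact t2c_24 al hy a1 a2 s1 s2 b tt c u1 u2 D1 D2 mx hL bd0 bd2 n1 n2 n3 (by clear * - b0; omega) (by clear * - b1; omega) (by clear * - b4; omega) (by clear * - b5; omega) (by clear * - b6; omega) (by clear * - b7; omega) (by clear * - b8; omega) (by clear * - z59; omega)

theorem t2c_21 {W : ℤ → G} {n Q i j k l i2 l2 i3 : ℤ} (al : AL W n Q)
    (hy : (0) ≤ (i) ∧ (i) ≤ (j) ∧ (j + 1) ≤ (Q) ∧ (Q) ≤ (k) ∧ (k + 1) ≤ (n) ∧ (Q) ≤ (i + l + 1) ∧ (k + l + 2) ≤ (n) ∧ (Q) ≤ (i2) ∧ (i2) ≤ (i + l + 1) ∧ (Q) ≤ (i2 + l2 + 1) ∧ (i2 + l2 + 2) ≤ (n) ∧ (n) ≤ (k + l + l2 + 2) ∧ (k + l + l2 + 3) ≤ (n + Q) ∧ (0) ≤ (i3) ∧ (n + i3) ≤ (k + l + l2 + 2) ∧ (k + i2 + l2 + 2) ≤ (n + j + i3) ∧ (j + i3 + 1) ≤ (k) ∧ (k + i2 + l2 + 2) ≤ (n + i3) ∧ (i + 2 * i2 + 1) ≤ (2 * Q + k) ∧ (i + l + 1) ≤ (i2 + l2) ∧ (k + l + 1) ≤ (i2 + l2) ∧ (2 * k + 2 * l + 3) ≤ (n + i2) ∧ (i + 1) ≤ (i3))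
    (a1 : Par W (0) (j) (k - j))
    (a2 : Par W (Q + j - k) (j) (k - j))
    (s1 : Ant W (0) (i) (i + j))
    (s2 : Ant W (j + 1) (Q) (i + j))
    (b : Par W (i + 1) (i + l + 1) (k - i))
    (tt : Ant W (Q) (i2) (i + l + i2 + 1))
    (c : Par W (i2 + 1) (i2 + l2 + 1) (k + l - i2 + 1))
    (u1 : Ant W (0) (i3) (k + l + l2 + i3 - n + 2))
    (u2 : Ant W (k + l + l2 - n + 3) (Q) (k + l + l2 + i3 - n + 2))
    (D1 : Par W (i3 + 1) (Q) (i2 + l2 - i3 + 1))
    (D2 : Par W (i2 + l2 + 2) (n) (i3 - i2 - l2 - 1))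
    {L : ℤ} (mx : ∀ a b g, 0 < g → g < n → Par W a b g → b - a ≤ L)
    (hL : L ≤ (n - j - 3) ∧ L ≤ (n + Q - k - 3) ∧ L ≤ (n - l - 3) ∧ L ≤ (n + i - k - 2) ∧ L ≤ (n - l2 - 3) ∧ L ≤ (n + i3 - Q - 2) ∧ L ≤ (i2 + l2 - 1) ∧ L ≤ (n + i2 - k - l - 3) ∧ L ≤ (Q + i2 + l2 - i - l - 3))
    (bd0 : Bd W n L (j) (i) (k))
    (bd2 : Bd W n L (k + l + l2 - n + 2) (i3) (i2 + l2 + 1))
    (n1 : Nd W (j) (i) (k))
    (n2 : Nd W (i + l + 1) (i2) (k + l + 1))
    (n3 : Nd W (k + l + l2 - n + 2) (i3) (i2 + l2 + 1))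
    (b0 : (2 * l2 + 3) ≤ (n))
    (b1 : (2 * Q + i2 + l2) ≤ (n + i + j + i3))
    (b2 : (2 * i + l + i2 + 2) ≤ (2 * Q + k))
    (b3 : (j + l + l2 + i3 + 3) ≤ (n))
    (b4 : (i + k + 2 * l + 3) ≤ (Q + i2 + l2))
    (b5 : (n + i + j) ≤ (k + l + l2 + 1))
    (b6 : (l + 2 * i3) ≤ (Q + i + i2))
    (b7 : (k + l + l2 + i3 + 2) ≤ (n + 2 * j)) : False := by
  have ev := al.ev
  obtain ⟨y0, y1, y2, y3, y4, y5, y6, y7, y8, y9, y10, y11, y12, y13, y14, y15, y16, y17, y18, y19, y20, y21, y22⟩ := id hy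
  have n1p := And.intro n1.p1 n1.p2
  have n2p := And.intro n2.p1 n2.p2
  have n3p := And.intro n3.p1 n3.p2
  by_cases z58 : (n + 2 * i + j + i2 + 1) ≤ (2 * Q + 2 * k + l)
  · have kk866 : (n + 2 * i + j + i2 + 1) ≤ (2 * Q + 2 * k + l) := by clear * - z58; omega
    have kk867 : (j + 2 * k + l + 2) ≤ (n + 2 * i + i2) := by clear * - b0 b5 b7 y0 y17 y21 y22; linarith
    have kk868 : (Q) ≤ (i + l + 1) := by clear * - y7 y8; omega
    have kk869 : (Q + k + l + 1) ≤ (n + i + j) := by clear * - b1 b5 b6 y15 y20; omega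
    have kk870 : (i) ≤ (j) := by clear * - b7 y14 y22; omega
    have kk871 : (n + i) ≤ (k + l + l2 + 2) := by clear * - y14 y22; omega
    have r872 : (j + i2 - n - l - 1) % 2 = 0 := by clear * - ev n1p n2p n3p; omega
    clear * - al s2 b c kk866 kk867 kk868 kk869 kk870 kk871 r872
    obtain ⟨t, ht⟩ : ∃ t, 2 * t = (j + i2 - n - l - 1) := ⟨(j + i2 - n - l - 1) / 2, by omega⟩
    exact al.ninv t (cE (cE (cI (qf c al (-1) t (t + (n + k + l - i2 + 1)) (by omega)) (ab s2 al 1 (t + (n + k + l - i2 + 1)) ((i + j + i2 - k - l - 1) - t) (by omega))) (qf b al 0 ((i + j + i2 - k - l - 1) - t) ((j + i2 - l - 1) - t) (by omega))) (sh al (-1) ((j + i2 - l - 1) - t) t (by omega)))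
  · exact t2c_22 al hy a1 a2 s1 s2 b tt c u1 u2 D1 D2 mx hL bd0 bd2 n1 n2 n3 (by clear * - b0; omega) (by clear * - b1; omega) (by clear * - b2; omega) (by clear * - b3; omega) (by clear * - b4; omega) (by clear * - b5; omega) (by clear * - b6; omega) (by clear * - b7; omega) (by clear * - z58; omega)

theorem t2c_15 {W : ℤ → G} {n Q i j k l i2 l2 i3 : ℤ} (al : AL W n Q)
    (hy : (0) ≤ (i) ∧ (i) ≤ (j) ∧ (j + 1) ≤ (Q) ∧ (Q) ≤ (k) ∧ (k + 1) ≤ (n) ∧ (Q) ≤ (i + l + 1) ∧ (k + l + 2) ≤ (n) ∧ (Q) ≤ (i2) ∧ (i2) ≤ (i + l + 1) ∧ (Q) ≤ (i2 + l2 + 1) ∧ (i2 + l2 + 2) ≤ (n) ∧ (n) ≤ (k + l + l2 + 2) ∧ (k + l + l2 + 3) ≤ (n + Q) ∧ (0) ≤ (i3) ∧ (n + i3) ≤ (k + l + l2 + 2) ∧ (k + i2 + l2 + 2) ≤ (n + j + i3) ∧ (j + i3 + 1) ≤ (k) ∧ (k + i2 + l2 + 2) ≤ (n + i3) ∧ (i + 2 * i2 + 1) ≤ (2 * Q + k) ∧ (i + l + 1) ≤ (i2 + l2) ∧ (k + l + 1) ≤ (i2 + l2) ∧ (2 * k + 2 * l + 3) ≤ (n + i2) ∧ (i + 1) ≤ (i3))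
    (a1 : Par W (0) (j) (k - j))
    (a2 : Par W (Q + j - k) (j) (k - j))
    (s1 : Ant W (0) (i) (i + j))
    (s2 : Ant W (j + 1) (Q) (i + j))
    (b : Par W (i + 1) (i + l + 1) (k - i))
    (tt : Ant W (Q) (i2) (i + l + i2 + 1))
    (c : Par W (i2 + 1) (i2 + l2 + 1) (k + l - i2 + 1))
    (u1 : Ant W (0) (i3) (k + l + l2 + i3 - n + 2))
    (u2 : Ant W (k + l + l2 - n + 3) (Q) (k + l + l2 + i3 - n + 2))
    (D1 : Par W (i3 + 1) (Q) (i2 + l2 - i3 + 1))
    (D2 : Par W (i2 + l2 + 2) (n) (i3 - i2 - l2 - 1))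
    {L : ℤ} (mx : ∀ a b g, 0 < g → g < n → Par W a b g → b - a ≤ L)
    (hL : L ≤ (n - j - 3) ∧ L ≤ (n + Q - k - 3) ∧ L ≤ (n - l - 3) ∧ L ≤ (n + i - k - 2) ∧ L ≤ (n - l2 - 3) ∧ L ≤ (n + i3 - Q - 2) ∧ L ≤ (i2 + l2 - 1) ∧ L ≤ (n + i2 - k - l - 3) ∧ L ≤ (Q + i2 + l2 - i - l - 3))
    (bd0 : Bd W n L (j) (i) (k))
    (bd2 : Bd W n L (k + l + l2 - n + 2) (i3) (i2 + l2 + 1))
    (n1 : Nd W (j) (i) (k))
    (n2 : Nd W (i + l + 1) (i2) (k + l + 1))
    (n3 : Nd W (k + l + l2 - n + 2) (i3) (i2 + l2 + 1))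
    (b0 : (2 * l2 + 3) ≤ (n))
    (b1 : (2 * Q + i2 + l2) ≤ (n + i + j + i3))
    (b2 : (2 * i + l + i2 + 2) ≤ (2 * Q + k))
    (b3 : (j + l + l2 + i3 + 3) ≤ (n))
    (b4 : (i + k + 2 * l + 3) ≤ (Q + i2 + l2))
    (b5 : (n + i + j) ≤ (k + l + l2 + 1))
    (b6 : (l + 2 * i3) ≤ (Q + i + i2)) : False := by
  have ev := al.ev
  obtain ⟨y0, y1, y2, y3, y4, y5, y6, y7, y8, y9, y10, y11, y12, y13, y14, y15, y16, y17, y18, y19, y20, y21, y22⟩ := id hy
  have n1p := And.intro n1.p1 n1.p2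
  have n2p := And.intro n2.p1 n2.p2
  have n3p := And.intro n3.p1 n3.p2
  by_cases z35 : (n + 2 * j) ≤ (k + l + l2 + i3 + 1)
  · exact t2c_16 al hy a1 a2 s1 s2 b tt c u1 u2 D1 D2 mx hL bd0 bd2 n1 n2 n3 (by clear * - b0; omega) (by clear * - b1; omega) (by clear * - b2; omega) (by clear * - b3; omega) (by clear * - b4; omega) (by clear * - b5; omega) (by clear * - b6; omega) (by clear * - z35; omega)
  · exact t2c_21 al hy a1 a2 s1 s2 b tt c u1 u2 D1 D2 mx hL bd0 bd2 n1 n2 n3 (by clear * - b0; omega) (by clear * - b1; omega) (by clear * - b2; omega) (by clear * - b3; omega) (by clear * - b4; omega) (by clear * - b5; omega) (by clear * - b6; omega) (by clear * - z35; omega)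

theorem t2c_14 {W : ℤ → G} {n Q i j k l i2 l2 i3 : ℤ} (al : AL W n Q)
    (hy : (0) ≤ (i) ∧ (i) ≤ (j) ∧ (j + 1) ≤ (Q) ∧ (Q) ≤ (k) ∧ (k + 1) ≤ (n) ∧ (Q) ≤ (i + l + 1) ∧ (k + l + 2) ≤ (n) ∧ (Q) ≤ (i2) ∧ (i2) ≤ (i + l + 1) ∧ (Q) ≤ (i2 + l2 + 1) ∧ (i2 + l2 + 2) ≤ (n) ∧ (n) ≤ (k + l + l2 + 2) ∧ (k + l + l2 + 3) ≤ (n + Q) ∧ (0) ≤ (i3) ∧ (n + i3) ≤ (k + l + l2 + 2) ∧ (k + i2 + l2 + 2) ≤ (n + j + i3) ∧ (j + i3 + 1) ≤ (k) ∧ (k + i2 + l2 + 2) ≤ (n + i3) ∧ (i + 2 * i2 + 1) ≤ (2 * Q + k) ∧ (i + l + 1) ≤ (i2 + l2) ∧ (k + l + 1) ≤ (i2 + l2) ∧ (2 * k + 2 * l + 3) ≤ (n + i2) ∧ (i + 1) ≤ (i3))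
    (a1 : Par W (0) (j) (k - j))
    (a2 : Par W (Q + j - k) (j) (k - j))
    (s1 : Ant W (0) (i) (i + j))
    (s2 : Ant W (j + 1) (Q) (i + j))
    (b : Par W (i + 1) (i + l + 1) (k - i))
    (tt : Ant W (Q) (i2) (i + l + i2 + 1))
    (c : Par W (i2 + 1) (i2 + l2 + 1) (k + l - i2 + 1))
    (u1 : Ant W (0) (i3) (k + l + l2 + i3 - n + 2))
    (u2 : Ant W (k + l + l2 - n + 3) (Q) (k + l + l2 + i3 - n + 2))
    (D1 : Par W (i3 + 1) (Q) (i2 + l2 - i3 + 1))
    (D2 : Par W (i2 + l2 + 2) (n) (i3 - i2 - l2 - 1))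
    {L : ℤ} (mx : ∀ a b g, 0 < g → g < n → Par W a b g → b - a ≤ L)
    (hL : L ≤ (n - j - 3) ∧ L ≤ (n + Q - k - 3) ∧ L ≤ (n - l - 3) ∧ L ≤ (n + i - k - 2) ∧ L ≤ (n - l2 - 3) ∧ L ≤ (n + i3 - Q - 2) ∧ L ≤ (i2 + l2 - 1) ∧ L ≤ (n + i2 - k - l - 3) ∧ L ≤ (Q + i2 + l2 - i - l - 3))
    (bd0 : Bd W n L (j) (i) (k))
    (bd2 : Bd W n L (k + l + l2 - n + 2) (i3) (i2 + l2 + 1))
    (n1 : Nd W (j) (i) (k))
    (n2 : Nd W (i + l + 1) (i2) (k + l + 1))
    (n3 : Nd W (k + l + l2 - n + 2) (i3) (i2 + l2 + 1))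
    (b0 : (2 * l2 + 3) ≤ (n))
    (b1 : (2 * Q + i2 + l2) ≤ (n + i + j + i3))
    (b2 : (2 * i + l + i2 + 2) ≤ (2 * Q + k))
    (b3 : (j + l + l2 + i3 + 3) ≤ (n))
    (b4 : (i + k + 2 * l + 3) ≤ (Q + i2 + l2))
    (b5 : (n + i + j) ≤ (k + l + l2 + 1)) : False := by
  have ev := al.ev
  obtain ⟨y0, y1, y2, y3, y4, y5, y6, y7, y8, y9, y10, y11, y12, y13, y14, y15, y16, y17, y18, y19, y20, y21, y22⟩ := id hy
  have n1p := And.intro n1.p1 n1.p2
  have n2p := And.intro n2.p1 n2.p2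
  have n3p := And.intro n3.p1 n3.p2
  by_cases z34 : (l + 2 * i3) ≤ (Q + i + i2)
  · exact t2c_15 al hy a1 a2 s1 s2 b tt c u1 u2 D1 D2 mx hL bd0 bd2 n1 n2 n3 (by clear * - b0; omega) (by clear * - b1; omega) (by clear * - b2; omega) (by clear * - b3; omega) (by clear * - b4; omega) (by clear * - b5; omega) (by clear * - z34; omega)
  · exact t2c_25 al hy a1 a2 s1 s2 b tt c u1 u2 D1 D2 mx hL bd0 bd2 n1 n2 n3 (by clear * - b0; omega) (by clear * - b1; omega) (by clear * - b2; omega) (by clear * - b3; omega) (by clear * - b4; omega) (by clear * - b5; omega) (by clear * - z34; omega)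

theorem t2c_13 {W : ℤ → G} {n Q i j k l i2 l2 i3 : ℤ} (al : AL W n Q)
    (hy : (0) ≤ (i) ∧ (i) ≤ (j) ∧ (j + 1) ≤ (Q) ∧ (Q) ≤ (k) ∧ (k + 1) ≤ (n) ∧ (Q) ≤ (i + l + 1) ∧ (k + l + 2) ≤ (n) ∧ (Q) ≤ (i2) ∧ (i2) ≤ (i + l + 1) ∧ (Q) ≤ (i2 + l2 + 1) ∧ (i2 + l2 + 2) ≤ (n) ∧ (n) ≤ (k + l + l2 + 2) ∧ (k + l + l2 + 3) ≤ (n + Q) ∧ (0) ≤ (i3) ∧ (n + i3) ≤ (k + l + l2 + 2) ∧ (k + i2 + l2 + 2) ≤ (n + j + i3) ∧ (j + i3 + 1) ≤ (k) ∧ (k + i2 + l2 + 2) ≤ (n + i3) ∧ (i + 2 * i2 + 1) ≤ (2 * Q + k) ∧ (i + l + 1) ≤ (i2 + l2) ∧ (k + l + 1) ≤ (i2 + l2) ∧ (2 * k + 2 * l + 3) ≤ (n + i2) ∧ (i + 1) ≤ (i3))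
    (a1 : Par W (0) (j) (k - j))
    (a2 : Par W (Q + j - k) (j) (k - j))
    (s1 : Ant W (0) (i) (i + j))
    (s2 : Ant W (j + 1) (Q) (i + j))
    (b : Par W (i + 1) (i + l + 1) (k - i))
    (tt : Ant W (Q) (i2) (i + l + i2 + 1))
    (c : Par W (i2 + 1) (i2 + l2 + 1) (k + l - i2 + 1))
    (u1 : Ant W (0) (i3) (k + l + l2 + i3 - n + 2))
    (u2 : Ant W (k + l + l2 - n + 3) (Q) (k + l + l2 + i3 - n + 2))
    (D1 : Par W (i3 + 1) (Q) (i2 + l2 - i3 + 1))
    (D2 : Par W (i2 + l2 + 2) (n) (i3 - i2 - l2 - 1))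
    {L : ℤ} (mx : ∀ a b g, 0 < g → g < n → Par W a b g → b - a ≤ L)
    (hL : L ≤ (n - j - 3) ∧ L ≤ (n + Q - k - 3) ∧ L ≤ (n - l - 3) ∧ L ≤ (n + i - k - 2) ∧ L ≤ (n - l2 - 3) ∧ L ≤ (n + i3 - Q - 2) ∧ L ≤ (i2 + l2 - 1) ∧ L ≤ (n + i2 - k - l - 3) ∧ L ≤ (Q + i2 + l2 - i - l - 3))
    (bd0 : Bd W n L (j) (i) (k))
    (bd2 : Bd W n L (k + l + l2 - n + 2) (i3) (i2 + l2 + 1))
    (n1 : Nd W (j) (i) (k))
    (n2 : Nd W (i + l + 1) (i2) (k + l + 1))
    (n3 : Nd W (k + l + l2 - n + 2) (i3) (i2 + l2 + 1))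
    (b0 : (2 * l2 + 3) ≤ (n))
    (b1 : (2 * Q + i2 + l2) ≤ (n + i + j + i3))
    (b2 : (2 * i + l + i2 + 2) ≤ (2 * Q + k))
    (b3 : (j + l + l2 + i3 + 3) ≤ (n))
    (b4 : (i + k + 2 * l + 3) ≤ (Q + i2 + l2))
    (b5 : (n + i + j) ≤ (k + l + l2 + i3 + 1))
    (b6 : (k + l + l2 + 2) ≤ (n + i + j)) : False := by
  have ev := al.ev
  obtain ⟨y0, y1, y2, y3, y4, y5, y6, y7, y8, y9, y10, y11, y12, y13, y14, y15, y16, y17, y18, y19, y20, y21, y22⟩ := id hy
  have n1p := And.intro n1.p1 n1.p2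
  have n2p := And.intro n2.p1 n2.p2
  have n3p := And.intro n3.p1 n3.p2
  by_cases z29 : (k + l + l2 + i3 + 3) ≤ (n + Q)
  · by_cases v10 : (k + l + l2 + 2) ≤ (n + j)
    · have kk295 : (n + i + j) ≤ (k + l + l2 + i3 + 1) := by clear * - b5; omega
      have kk296 : (k + l + l2 + i3 + 3) ≤ (2 * n + i + j) := by clear * - b0 b1 b5 b6 y14 y21 z29; linarith
      have kk297 : (k + l + l2 + i3 + 3) ≤ (n + Q) := by clear * - z29; omega
      have kk298 : (0) ≤ (i) := by clear * - y0; omega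
      have kk299 : (k + l + l2 + 2) ≤ (n + j) := by clear * - v10; omega
      clear * - al s2 u2 kk295 kk296 kk297 kk298 kk299
      exact al.ubP (k + l + l2 + i3 - n - i - j + 2) (by omega) (by omega) fun t h1 h2 => (cE (sh al (-1) t (t + (-n)) (by omega)) (cII (ab s2 al (-1) (t + (-n)) ((i + j) - t) (by omega)) (qa u2 al 0 ((i + j) - t) (t + (k + l + l2 + i3 - n - i - j + 2)) (by omega))))
    · have kk300 : (n + i + j) ≤ (k + l + l2 + i3 + 1) := by clear * - b5; omega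
      have kk301 : (k + l + l2 + i3 + 3) ≤ (2 * n + i + j) := by clear * - b0 b1 b5 b6 y14 y21 z29; linarith
      have kk302 : (k + l + l2 + i3 + 3) ≤ (n + Q) := by clear * - z29; omega
      have kk303 : (k + l + l2 + 2) ≤ (n + i + j) := by clear * - b6; omega
      have kk304 : (n + j) ≤ (k + l + l2 + 2) := by clear * - v10; omega
      clear * - al s2 u2 kk300 kk301 kk302 kk303 kk304
      exact al.ubP (k + l + l2 + i3 - n - i - j + 2) (by omega) (by omega) fun t h1 h2 => (cE (sh al (-1) t (t + (-n)) (by omega)) (cII (ab s2 al (-1) (t + (-n)) ((i + j) - t) (by omega)) (qa u2 al 0 ((i + j) - t) (t + (k + l + l2 + i3 - n - i - j + 2)) (by omega))))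
  · by_cases z30 : (i + j + l + 2 * i2 + l2 + 3) ≤ (n + k + i3)
    · by_cases z31 : (i + k + l + l2 + 4) ≤ (n + j + i3)
      · by_cases z32 : (n + 2 * Q + j + i3) ≤ (i + k + l + 2 * i2 + l2 + 2)
        · by_cases v11 : (n + Q + i3) ≤ (i + l + 2 * i2 + l2 + 3)
          · have kk305 : (i + k + l + l2 + 4) ≤ (n + j + i3) := by clear * - z31; omega
            have kk306 : (i + j + l + 2 * i2 + l2 + 3) ≤ (n + k + i3) := by clear * - z30; omega
            have kk307 : (i3) ≤ (i + l + 1) := by clear * - b3 b6 v11 y14 y17 y18 z32; linarith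
            have kk308 : (i2) ≤ (k) := by clear * - b5 b6 y14 z30; omega
            have kk309 : (n + Q + i3) ≤ (i + l + 2 * i2 + l2 + 3) := by clear * - v11; omega
            have r310 : (n + i + j + l + 2 * i2 + l2 - k - i3 + 2) % 2 = 0 := by clear * - ev n1p n2p n3p; omega
            clear * - al a2 tt D2 kk305 kk306 kk307 kk308 kk309 r310
            obtain ⟨t, ht⟩ : ∃ t, 2 * t = (n + i + j + l + 2 * i2 + l2 - k - i3 + 2) := ⟨(n + i + j + l + 2 * i2 + l2 - k - i3 + 2) / 2, by omega⟩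
            exact al.ninv t (cE (cE (cI (qf D2 al 0 t (t + (i3 - i2 - l2 - 1)) (by omega)) (ab tt al 0 (t + (i3 - i2 - l2 - 1)) ((i + l + 2 * i2 + l2 - i3 + 2) - t) (by omega))) (pb a2 al 0 ((i + l + 2 * i2 + l2 - i3 + 2) - t) ((i + j + l + 2 * i2 + l2 - k - i3 + 2) - t) (by omega))) (sh al 1 ((i + j + l + 2 * i2 + l2 - k - i3 + 2) - t) t (by omega)))
          · have kk311 : (i + k + l + l2 + 4) ≤ (n + j + i3) := by clear * - z31; omega
            have kk312 : (n + 2 * Q + j + i3) ≤ (i + k + l + 2 * i2 + l2 + 3) := by clear * - z32; omega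
            have kk313 : (i3) ≤ (i + l + 1) := by clear * - b6 y12 y14 y17 z29 z32; omega
            have kk314 : (i2) ≤ (k) := by clear * - b5 b6 v11 y14 z32; omega
            have kk315 : (i + l + 2 * i2 + l2 + 3) ≤ (n + Q + i3) := by clear * - v11; omega
            have r316 : (n + i + j + l + 2 * i2 + l2 - k - i3 + 2) % 2 = 0 := by clear * - ev n1p n2p n3p; omega
            clear * - al a2 tt D2 kk311 kk312 kk313 kk314 kk315 r316
            obtain ⟨t, ht⟩ : ∃ t, 2 * t = (n + i + j + l + 2 * i2 + l2 - k - i3 + 2) := ⟨(n + i + j + l + 2 * i2 + l2 - k - i3 + 2) / 2, by omega⟩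
            exact al.ninv t (cE (cE (cI (qf D2 al 0 t (t + (i3 - i2 - l2 - 1)) (by omega)) (ab tt al 0 (t + (i3 - i2 - l2 - 1)) ((i + l + 2 * i2 + l2 - i3 + 2) - t) (by omega))) (pb a2 al 0 ((i + l + 2 * i2 + l2 - i3 + 2) - t) ((i + j + l + 2 * i2 + l2 - k - i3 + 2) - t) (by omega))) (sh al 1 ((i + j + l + 2 * i2 + l2 - k - i3 + 2) - t) t (by omega)))
        · by_cases v12 : (k + 2 * l + i3 + 1) ≤ (2 * i2 + l2)
          · have kk317 : (j + k + l + i3 + 1) ≤ (i + 2 * i2 + l2) := by clear * - b0 b5 v12 y8; omega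
            have kk318 : (i + 2 * i2 + l2) ≤ (j + k + l + 3 * i3) := by clear * - b0 z29 z32; omega
            have kk319 : (2 * n + i + 2 * i2) ≤ (j + 3 * k + 3 * l + l2 + 3 * i3 + 6) := by clear * - b0 b5 b6 y14 z29 z32; omega
            have kk320 : (2 * i2 + l2) ≤ (i + j + k + 3 * l + i3 + 2) := by clear * - b0 b5 b6 y14 y17; omega
            have kk321 : (k + l) ≤ (i2 + l2) := by clear * - y20; omega
            have kk322 : (n) ≤ (k + l + l2 + 2) := by clear * - b5 b6 y14; omega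
            have kk323 : (j + k + l + i3 + 1) ≤ (2 * i2 + l2) := by clear * - b0 b5 v12 y14 y21 y8; omega
            have kk324 : (j + i3 + 1) ≤ (k) := by clear * - y16; omega
            have kk325 : (k + i2 + l2 + 1) ≤ (n + i3) := by clear * - y17; omega
            have kk326 : (k + 2 * l + i3 + 1) ≤ (2 * i2 + l2) := by clear * - v12; omega
            have kk327 : (k + l2 + i3 + 2) ≤ (n + i) := by clear * - b0 y14 y21 y8; omega
            have r328 : (k + l + l2 + i3 - 3 * n + 2) % 2 = 0 := by clear * - ev n1p n2p n3p; omega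
            have r329 : (i + 2 * i2 + l2 - j - k - l - i3) % 2 = 0 := by clear * - ev n1p n2p n3p; omega
            clear * - al a1 b c u1 D2 kk317 kk318 kk319 kk320 kk321 kk322 kk323 kk324 kk325 kk326 kk327 r328 r329
            exact midP al (i + 2 * i2 + l2 - j - k - l - i3) (k + l + l2 + i3 - 3 * n + 2) (-n) (-n) (i + l - n + 1) (by omega) (fun t h1 h2 => (cE (qa u1 al (-1) t ((k + l + l2 + i3 - 2 * n + 2) - t) (by omega)) (sh al (-1) ((k + l + l2 + i3 - 2 * n + 2) - t) ((k + l + l2 + i3 - 3 * n + 2) - t) (by omega)))) (fun t h1 h2 => (cE (cE (cE (qf a1 al (-1) t (t + (n + k - j)) (by omega)) (qf (show Par W (i3 + 1) (n + i3 - i2 - l2 - 1) (2 * i2 + l2 - k - l - i3) from fun t h1 h2 => (cE (sh al (-1) t (t + (-n)) (by omega)) (cE (pb D2 al (-1) (t + (-n)) (t + (i2 + l2 - i3 + 1)) (by omega)) (pb c al 0 (t + (i2 + l2 - i3 + 1)) (t + (2 * i2 + l2 - k - l - i3)) (by omega))))) al 0 (t + (n + k - j))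 (t + (n + 2 * i2 + l2 - j - l - i3)) (by omega))) (pb b al 0 (t + (n + 2 * i2 + l2 - j - l - i3)) (t + (n + i + 2 * i2 + l2 - j - k - l - i3)) (by omega))) (sh al (-1) (t + (n + i + 2 * i2 + l2 - j - k - l - i3)) (t + (i + 2 * i2 + l2 - j - k - l - i3)) (by omega))))
          · have kk330 : (j + k + l + i3 + 1) ≤ (i + 2 * i2 + l2) := by clear * - b0 b5 y0 y14 y21; omega
            have kk331 : (i + 2 * i2 + l2) ≤ (j + k + l + 3 * i3) := by clear * - b0 z29 z32; omega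
            have kk332 : (2 * n + i + 2 * i2) ≤ (j + 3 * k + 3 * l + l2 + 3 * i3 + 6) := by clear * - b0 b5 b6 y14 z29 z32; omega
            have kk333 : (k + l + i3) ≤ (i + j + 2 * i2 + l2) := by clear * - b0 b5 b6 y14 y21; omega
            have kk334 : (k + l) ≤ (i2 + l2) := by clear * - y20; omega
            have kk335 : (n) ≤ (k + l + l2 + 2) := by clear * - b5 b6 y14; omega
            have kk336 : (j + k + l + i3 + 1) ≤ (2 * i2 + l2) := by clear * - b0 y14 y2 y21 z29; omega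
            have kk337 : (j + i3 + 1) ≤ (k) := by clear * - y16; omega
            have kk338 : (k + i2 + l2 + 1) ≤ (n + i3) := by clear * - v12 y21; omega
            have kk339 : (2 * i2 + l2) ≤ (k + 2 * l + i3 + 1) := by clear * - v12; omega
            have kk340 : (2 * k + 2 * l + 2 * i3 + 3) ≤ (n + i + 2 * i2) := by clear * - b0 y0 y14 y21; omega
            have r341 : (k + l + l2 + i3 - 3 * n + 2) % 2 = 0 := by clear * - ev n1p n2p n3p; omega
            have r342 : (i + 2 * i2 + l2 - j - k - l - i3) % 2 = 0 := by clear * - ev n1p n2p n3p; omega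
            clear * - al a1 b c u1 D2 kk330 kk331 kk332 kk333 kk334 kk335 kk336 kk337 kk338 kk339 kk340 r341 r342
            exact midP al (i + 2 * i2 + l2 - j - k - l - i3) (k + l + l2 + i3 - 3 * n + 2) (-n) (-n) (i + 2 * i2 + l2 - n - k - l - i3) (by omega) (fun t h1 h2 => (cE (qa u1 al (-1) t ((k + l + l2 + i3 - 2 * n + 2) - t) (by omega)) (sh al (-1) ((k + l + l2 + i3 - 2 * n + 2) - t) ((k + l + l2 + i3 - 3 * n + 2) - t) (by omega)))) (fun t h1 h2 => (cE (cE (cE (qf a1 al (-1) t (t + (n + k - j)) (by omega)) (qf (show Par W (i3 + 1) (n + i3 - i2 - l2 - 1) (2 * i2 + l2 - k - l - i3) from fun t h1 h2 => (cE (sh al (-1) t (t + (-n)) (by omega)) (cE (pb D2 al (-1) (t + (-n)) (t + (i2 + l2 - i3 + 1)) (by omega)) (pb c al 0 (t + (i2 + l2 - i3 + 1)) (t + (2 * i2 + l2 - k - l - i3)) (by omega))))) al 0 (t + (n + k - j)) (t + (n + 2 * i2 + l2 - j - l - i3)) (by omega))) (pb b al 0 (t + (n + 2 * i2 + l2 -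 j - l - i3)) (t + (n + i + 2 * i2 + l2 - j - k - l - i3)) (by omega))) (sh al (-1) (t + (n + i + 2 * i2 + l2 - j - k - l - i3)) (t + (i + 2 * i2 + l2 - j - k - l - i3)) (by omega))))
      · have kk343 : (i3 + 1) ≤ (k) := by clear * - b3 b6 y14 y22 z31; omega
        have kk344 : (k + i2 + l2 + 2) ≤ (n + i3) := by clear * - y17; omega
        have kk345 : (n + i + j) ≤ (k + l + l2 + i3 + 1) := by clear * - b5; omega
        have kk346 : (k + l + l2 + 3) ≤ (n + Q) := by clear * - b0 b4 y15 z31; omega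
        have kk347 : (i + 1) ≤ (Q) := by clear * - b0 b4 b6 y14 y17 z29 z31; linarith
        have kk348 : (j + 1) ≤ (i3) := by clear * - b0 b4 y17 z29 z31; omega
        have kk349 : (n + i + j + i3) ≤ (Q + k + i2 + l2) := by clear * - b0 b4 b5 y14 z31; omega
        have kk350 : (k + i2 + l2 + 2) ≤ (n + 2 * i3) := by clear * - b5 b6 y17; omega
        have kk351 : (j + l + i3 + 1) ≤ (Q + i2) := by clear * - b0 b4 z31; omega
        have kk352 : (i3 + 1) ≤ (Q) := by clear * - b0 b4 b6 y14 y17 z29 z31; linarith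
        have kk353 : (k + i2 + l2 + 1) ≤ (n + i3) := by clear * - y17; omega
        have kk354 : (n + j) ≤ (k + l + l2 + 2) := by clear * - b5 z31; omega
        have kk355 : (2 * Q + i2 + l2) ≤ (n + i + j + i3) := by clear * - b1; omega
        have kk356 : (k + i2 + l2 + 1) ≤ (n + j + i3) := by clear * - y15; omega
        have kk357 : (j) ≤ (i3) := by clear * - b0 b4 y17 z29 z31; omega
        have kk358 : (i) ≤ (i3) := by clear * - y22; omega
        have kk359 : (i) ≤ (Q) := by clear * - b0 b4 b6 y14 y17 z29 z31; linarith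
        have kk360 : (i3) ≤ (i + j + 1) := by clear * - b6 y14; omega
        have kk361 : (i3) ≤ (Q) := by clear * - b0 b4 b6 y14 y17 z29 z31; linarith
        have r362 : (k + i2 + l2 - n - j - i3 + 1) % 2 = 0 := by clear * - ev n1p n2p n3p; omega
        have r363 : (k + l + l2 + i3 - n - i - j + 2) % 2 = 0 := by clear * - ev n1p n2p n3p; omega
        have r364 : (i + j - 2 * n) % 2 = 0 := by clear * - ev n1p n2p n3p; omega
        clear * - al a2 s1 s2 u2 D2 n1 kk343 kk344 kk345 kk346 kk347 kk348 kk349 kk350 kk351 kk352 kk353 kk354 kk355 kk356 kk357 kk358 kk359 kk360 kk361 r362 r363 r364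
        exact ivt al.ninv (i + j - n - Q + 1) (i + j - k - l - l2 - 2) (k + l + l2 + i3 - n - i - j + 2) (i + 2 * j + i3 - Q - k - i2 - l2) (j - n) (k + i2 + l2 - n - j - i3 + 1) (j - n) (k + i2 + l2 - 2 * n - i3 + 1) 0 (fun t h1 h2 => (cE (cII (ab s2 al (-1) t ((i + j - n) - t) (by omega)) (qa u2 al 0 ((i + j - n) - t) (t + (k + l + l2 + i3 - i - j + 2)) (by omega))) (sh al (-1) (t + (k + l + l2 + i3 - i - j + 2)) (t + (k + l + l2 + i3 - n - i - j + 2)) (by omega)))) (fun t h1 h2 => (cE (sh al 2 t (t + (2 * n)) (by omega)) (cE (pb (show Par W (Q + i2 + l2 - i3 + 1) (k + i2 + l2 - i3 + 1) (n + j + i3 - k - i2 - l2 - 1) from fun t h1 h2 => (cE (sh al (-1) t (t + (-n)) (by omega)) (cE (cE (qf D2 al (-1) (t + (-n)) (t + (i3 - i2 - l2 - 1)) (by omega)) (pb a2 al 0 (t + (i3 - i2 - l2 - 1)) (t + (j + i3 - k - i2 - l2 - 1)) (by omega))) (sh al 1 (t + (j + i3 - k - i2 - l2 - 1)) (t + (n + j + i3 - k - i2 - l2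 - 1)) (by omega))))) al 0 (t + (2 * n)) (t + (n + k + i2 + l2 - j - i3 + 1)) (by omega)) (sh al (-2) (t + (n + k + i2 + l2 - j - i3 + 1)) (t + (k + i2 + l2 - n - j - i3 + 1)) (by omega))))) (fun hh => n1.f0 (rEE (sh al (-1) (j) (j - n) (by omega)) (cE (pb D2 al 0 (k) (k + i2 + l2 - i3 + 1) (by omega)) (sh al (-2) (k + i2 + l2 - i3 + 1) (k + i2 + l2 - 2 * n - i3 + 1) (by omega))) (Eq.symm hh))) (by omega) (j - n + 1) (i3 - n) (i + j - 2 * n) 0 0 (fun t h1 h2 => (cI (sh al 1 t (t + (n)) (by omega)) (cE (ab s1 al 0 (t + (n)) ((i + j - n) - t) (by omega)) (sh al (-1) ((i + j - n) - t) ((i + j - 2 * n) - t) (by omega))))) (by omega)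
    · by_cases z33 : (n + i + 2 * i2) ≤ (3 * k + 2 * l + 2)
      · have kk365 : (3 * i2 + l2) ≤ (2 * k + 2 * l + i3) := by clear * - y0 y17 z33; omega
        have kk366 : (2 * k + 2 * l + i3 + 2) ≤ (n + 3 * i2 + l2) := by clear * - b1 b3 b5 b6 y18 y21 z29 z30 z33; linarith
        have kk367 : (2 * k + 2 * l + 3) ≤ (n + i2) := by clear * - y21; omega
        have kk368 : (i3) ≤ (i2) := by clear * - b1 b2 b3 b5 z30; omega
        have kk369 : (i2) ≤ (k + l + 1) := by clear * - b1 b3 b5 y18 z30; omega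
        have kk370 : (n + i3) ≤ (2 * i2 + 2 * l2 + 2) := by clear * - b3 b5 b6 y20 z30 z33; omega
        have kk371 : (n + k + l + i3) ≤ (3 * i2 + 2 * l2 + 1) := by clear * - b3 b4 z29 z30; omega
        clear * - al c D2 kk365 kk366 kk367 kk368 kk369 kk370 kk371
        exact al.ubP (2 * k + 2 * l + i3 - 3 * i2 - l2 + 1) (by omega) (by omega) fun t h1 h2 => (cE (cE (cE (qf D2 al (-1) t (t + (n + i3 - i2 - l2 - 1)) (by omega)) (qf c al 0 (t + (n + i3 - i2 - l2 - 1)) (t + (n + k + l + i3 - 2 * i2 - l2)) (by omega))) (qf c al 0 (t + (n + k + l + i3 - 2 * i2 - l2)) (t + (n + 2 * k + 2 * l + i3 - 3 * i2 - l2 + 1)) (by omega))) (sh al (-1) (t + (n + 2 * k + 2 * l + i3 - 3 * i2 - l2 + 1)) (t + (2 * k + 2 * l + i3 - 3 * i2 - l2 + 1)) (by omega)))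
      · by_cases v13 : (k) ≤ (i2)
        · by_cases v14 : (3 * k + 2 * l + i3 + 3) ≤ (n + i + 2 * i2)
          · have kk372 : (3 * k + 2 * l + 3) ≤ (n + i + 2 * i2) := by clear * - z33; omega
            have kk373 : (n + i + 2 * i2) ≤ (3 * k + 2 * l + 2 * i3 + 2) := by clear * - b0 y18 z29; omega
            have kk374 : (n + i) ≤ (k + 2 * l2 + 2 * i3 + 2) := by clear * - b1 b3 b4 b6 v13 y18 z29 z30; linarith
            have kk375 : (n + k) ≤ (i + 2 * i2 + 2 * l2 + 2) := by clear * - b3 y18 z29 z30 z33; omega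
            have kk376 : (i2) ≤ (k + l + 1) := by clear * - b1 b3 v13 y18 z29 z30; omega
            have kk377 : (k) ≤ (i2) := by clear * - v13; omega
            have kk378 : (2 * i2 + l2) ≤ (2 * k + 2 * l + 1) := by clear * - b0 b3 b6 v14 y14 y17 y18 z29; linarith
            have kk379 : (2 * k + 2 * l + 3) ≤ (n + i2) := by clear * - b1 b2 b5 v14; omega
            have kk380 : (3 * k + 2 * l + i3 + 3) ≤ (n + i + 2 * i2) := by clear * - v14; omega
            have r381 : (k + l + l2 + i3 - n + 2) % 2 = 0 := by clear * - ev n1p n2p n3p; omega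
            have r382 : (n + i + 2 * i2 - 3 * k - 2 * l - 2) % 2 = 0 := by clear * - ev n1p n2p n3p; omega
            clear * - al b c u1 kk372 kk373 kk374 kk375 kk376 kk377 kk378 kk379 kk380 r381 r382
            exact midP al (n + i + 2 * i2 - 3 * k - 2 * l - 2) (k + l + l2 + i3 - n + 2) (0) (2 * k + 2 * l - n - i2 + 3) (i + 2 * i2 + l2 - 2 * k - l) (by omega) (fun t h1 h2 => (qa u1 al 0 t ((k + l + l2 + i3 - n + 2) - t) (by omega))) (fun t h1 h2 => (cE (cE (pb c al (-1) t (t + (n + i2 - k - l - 1)) (by omega)) (pb c al 0 (t + (n + i2 - k - l - 1)) (t + (n + 2 * i2 - 2 * k - 2 * l - 2)) (by omega))) (pb b al 0 (t + (n + 2 * i2 - 2 * k - 2 * l - 2)) (t + (n + i + 2 * i2 - 3 * k - 2 * l - 2)) (by omega))))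
          · have kk383 : (3 * k + 2 * l + 3) ≤ (n + i + 2 * i2) := by clear * - z33; omega
            have kk384 : (3 * k + 2 * l + 4) ≤ (n + i + 2 * i2) := by clear * - b3 b4 b6 v13 y8 z29; omega
            have kk385 : (5 * k + 4 * l + 4) ≤ (n + i + 4 * i2 + 2 * l2) := by clear * - y20 z33; omega
            have kk386 : (7 * k + 4 * l + 2 * i3 + 4) ≤ (n + 3 * i + 6 * i2 + 2 * l2) := by clear * - y14 z33; omega
            have kk387 : (i2) ≤ (k + l + 1) := by clear * - b1 b3 v13 y18 z29 z30; omega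
            have kk388 : (k) ≤ (i2) := by clear * - v13; omega
            have kk389 : (2 * i2 + l2) ≤ (2 * k + 2 * l + 1) := by clear * - b3 b6 v13 v14 y14 y17 z33; linarith
            have kk390 : (n + i + 2 * i2) ≤ (3 * k + 2 * l + i3 + 3) := by clear * - v14; omega
            have kk391 : (i + i2) ≤ (k + i3) := by clear * - b1 b2 b5; omega
            have r392 : (k + l + l2 + i3 - n + 2) % 2 = 0 := by clear * - ev n1p n2p n3p; omega
            have r393 : (n + i + 2 * i2 - 3 * k - 2 * l - 2) % 2 = 0 := by clear * - ev n1p n2p n3p; omega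
            clear * - al b c u1 kk383 kk384 kk385 kk386 kk387 kk388 kk389 kk390 kk391 r392 r393
            exact midP al (n + i + 2 * i2 - 3 * k - 2 * l - 2) (k + l + l2 + i3 - n + 2) (3 * k + 2 * l + i3 - n - i - 2 * i2 + 3) (2 * k + 2 * l - n - i2 + 3) (i + 2 * i2 + l2 - 2 * k - l) (by omega) (fun t h1 h2 => (qa u1 al 0 t ((k + l + l2 + i3 - n + 2) - t) (by omega))) (fun t h1 h2 => (cE (cE (pb c al (-1) t (t + (n + i2 - k - l - 1)) (by omega)) (pb c al 0 (t + (n + i2 - k - l - 1)) (t + (n + 2 * i2 - 2 * k - 2 * l - 2)) (by omega))) (pb b al 0 (t + (n + 2 * i2 - 2 * k - 2 * l - 2)) (t + (n + i + 2 * i2 - 3 * k - 2 * l - 2)) (by omega))))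
        · by_cases v15 : (3 * k + 2 * l + i3 + 3) ≤ (n + i + 2 * i2)
          · have kk394 : (3 * k + 2 * l + 3) ≤ (n + i + 2 * i2) := by clear * - z33; omega
            have kk395 : (n + i + 2 * i2) ≤ (3 * k + 2 * l + 2 * i3 + 2) := by clear * - b0 y18 z29; omega
            have kk396 : (n + i + k) ≤ (2 * i2 + 2 * l2 + 2 * i3 + 2) := by clear * - b1 b2 b5 z30 z33; omega
            have kk397 : (n + k) ≤ (i + 2 * i2 + 2 * l2 + 2) := by clear * - b5 v13 z30 z33; omega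
            have kk398 : (i2) ≤ (k + l + 1) := by clear * - b1 b3 b5 y18 z30; omega
            have kk399 : (i2) ≤ (k) := by clear * - v13; omega
            have kk400 : (2 * i2 + l2) ≤ (2 * k + 2 * l + 1) := by clear * - b0 b5 v13 y14 y17 z30; omega
            have kk401 : (3 * k + 2 * l + 3) ≤ (n + 2 * i2) := by clear * - v15 y22; omega
            have kk402 : (3 * k + 2 * l + i3 + 3) ≤ (n + i + 2 * i2) := by clear * - v15; omega
            have r403 : (k + l + l2 + i3 - n + 2) % 2 = 0 := by clear * - ev n1p n2p n3p; omega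
            have r404 : (n + i + 2 * i2 - 3 * k - 2 * l - 2) % 2 = 0 := by clear * - ev n1p n2p n3p; omega
            clear * - al b c u1 kk394 kk395 kk396 kk397 kk398 kk399 kk400 kk401 kk402 r403 r404
            exact midP al (n + i + 2 * i2 - 3 * k - 2 * l - 2) (k + l + l2 + i3 - n + 2) (0) (3 * k + 2 * l - n - 2 * i2 + 3) (i + 2 * i2 + l2 - 2 * k - l) (by omega) (fun t h1 h2 => (qa u1 al 0 t ((k + l + l2 + i3 - n + 2) - t) (by omega))) (fun t h1 h2 => (cE (cE (pb c al (-1) t (t + (n + i2 - k - l - 1)) (by omega)) (pb c al 0 (t + (n + i2 - k - l - 1)) (t + (n + 2 * i2 - 2 * k - 2 * l - 2)) (by omega))) (pb b al 0 (t + (n + 2 * i2 - 2 * k - 2 * l - 2)) (t + (n + i + 2 * i2 - 3 * k - 2 * l - 2)) (by omega))))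
          · have kk405 : (3 * k + 2 * l + 3) ≤ (n + i + 2 * i2) := by clear * - z33; omega
            have kk406 : (3 * k + 2 * l + 4) ≤ (n + i + 2 * i2) := by clear * - z33 ev n1p n2p n3p; omega
            have kk407 : (7 * k + 4 * l + 4) ≤ (n + i + 6 * i2 + 2 * l2) := by clear * - b5 y21 z30 z33; omega
            have kk408 : (7 * k + 4 * l + 2 * i3 + 4) ≤ (n + 3 * i + 6 * i2 + 2 * l2) := by clear * - y14 z33; omega
            have kk409 : (i2) ≤ (k + l + 1) := by clear * - b1 b3 b5 y18 z30; omega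
            have kk410 : (i2) ≤ (k) := by clear * - v13; omega
            have kk411 : (2 * i2 + l2) ≤ (2 * k + 2 * l + 1) := by clear * - b3 v13 v15 y17 z30; omega
            have kk412 : (n + i + 2 * i2) ≤ (3 * k + 2 * l + i3 + 3) := by clear * - v15; omega
            have kk413 : (i) ≤ (i3) := by clear * - y22; omega
            have r414 : (k + l + l2 + i3 - n + 2) % 2 = 0 := by clear * - ev n1p n2p n3p; omega
            have r415 : (n + i + 2 * i2 - 3 * k - 2 * l - 2) % 2 = 0 := by clear * - ev n1p n2p n3p; omega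
            clear * - al b c u1 kk405 kk406 kk407 kk408 kk409 kk410 kk411 kk412 kk413 r414 r415
            exact midP al (n + i + 2 * i2 - 3 * k - 2 * l - 2) (k + l + l2 + i3 - n + 2) (3 * k + 2 * l + i3 - n - i - 2 * i2 + 3) (3 * k + 2 * l - n - 2 * i2 + 3) (i + 2 * i2 + l2 - 2 * k - l) (by omega) (fun t h1 h2 => (qa u1 al 0 t ((k + l + l2 + i3 - n + 2) - t) (by omega))) (fun t h1 h2 => (cE (cE (pb c al (-1) t (t + (n + i2 - k - l - 1)) (by omega)) (pb c al 0 (t + (n + i2 - k - l - 1)) (t + (n + 2 * i2 - 2 * k - 2 * l - 2)) (by omega))) (pb b al 0 (t + (n + 2 * i2 - 2 * k - 2 * l - 2)) (t + (n + i + 2 * i2 - 3 * k - 2 * l - 2)) (by omega))))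

theorem t2c_12 {W : ℤ → G} {n Q i j k l i2 l2 i3 : ℤ} (al : AL W n Q)
    (hy : (0) ≤ (i) ∧ (i) ≤ (j) ∧ (j + 1) ≤ (Q) ∧ (Q) ≤ (k) ∧ (k + 1) ≤ (n) ∧ (Q) ≤ (i + l + 1) ∧ (k + l + 2) ≤ (n) ∧ (Q) ≤ (i2) ∧ (i2) ≤ (i + l + 1) ∧ (Q) ≤ (i2 + l2 + 1) ∧ (i2 + l2 + 2) ≤ (n) ∧ (n) ≤ (k + l + l2 + 2) ∧ (k + l + l2 + 3) ≤ (n + Q) ∧ (0) ≤ (i3) ∧ (n + i3) ≤ (k + l + l2 + 2) ∧ (k + i2 + l2 + 2) ≤ (n + j + i3) ∧ (j + i3 + 1) ≤ (k) ∧ (k + i2 + l2 + 2) ≤ (n + i3) ∧ (i + 2 * i2 + 1) ≤ (2 * Q + k) ∧ (i + l + 1) ≤ (i2 + l2) ∧ (k + l + 1) ≤ (i2 + l2) ∧ (2 * k + 2 * l + 3) ≤ (n + i2) ∧ (i + 1) ≤ (i3))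
    (a1 : Par W (0) (j) (k - j))
    (a2 : Par W (Q + j - k) (j) (k - j))
    (s1 : Ant W (0) (i) (i + j))
    (s2 : Ant W (j + 1) (Q) (i + j))
    (b : Par W (i + 1) (i + l + 1) (k - i))
    (tt : Ant W (Q) (i2) (i + l + i2 + 1))
    (c : Par W (i2 + 1) (i2 + l2 + 1) (k + l - i2 + 1))
    (u1 : Ant W (0) (i3) (k + l + l2 + i3 - n + 2))
    (u2 : Ant W (k + l + l2 - n + 3) (Q) (k + l + l2 + i3 - n + 2))
    (D1 : Par W (i3 + 1) (Q) (i2 + l2 - i3 + 1))
    (D2 : Par W (i2 + l2 + 2) (n) (i3 - i2 - l2 - 1))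
    {L : ℤ} (mx : ∀ a b g, 0 < g → g < n → Par W a b g → b - a ≤ L)
    (hL : L ≤ (n - j - 3) ∧ L ≤ (n + Q - k - 3) ∧ L ≤ (n - l - 3) ∧ L ≤ (n + i - k - 2) ∧ L ≤ (n - l2 - 3) ∧ L ≤ (n + i3 - Q - 2) ∧ L ≤ (i2 + l2 - 1) ∧ L ≤ (n + i2 - k - l - 3) ∧ L ≤ (Q + i2 + l2 - i - l - 3))
    (bd0 : Bd W n L (j) (i) (k))
    (bd2 : Bd W n L (k + l + l2 - n + 2) (i3) (i2 + l2 + 1))
    (n1 : Nd W (j) (i) (k))
    (n2 : Nd W (i + l + 1) (i2) (k + l + 1))
    (n3 : Nd W (k + l + l2 - n + 2) (i3) (i2 + l2 + 1))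
    (b0 : (2 * l2 + 3) ≤ (n))
    (b1 : (2 * Q + i2 + l2) ≤ (n + i + j + i3))
    (b2 : (2 * i + l + i2 + 2) ≤ (2 * Q + k))
    (b3 : (j + l + l2 + i3 + 3) ≤ (n))
    (b4 : (i + k + 2 * l + 3) ≤ (Q + i2 + l2))
    (b5 : (n + i + j) ≤ (k + l + l2 + i3 + 1)) : False := by
  have ev := al.ev
  obtain ⟨y0, y1, y2, y3, y4, y5, y6, y7, y8, y9, y10, y11, y12, y13, y14, y15, y16, y17, y18, y19, y20, y21, y22⟩ := id hy
  have n1p := And.intro n1.p1 n1.p2
  have n2p := And.intro n2.p1 n2.p2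
  have n3p := And.intro n3.p1 n3.p2
  by_cases z28 : (k + l + l2 + 2) ≤ (n + i + j)
  · exact t2c_13 al hy a1 a2 s1 s2 b tt c u1 u2 D1 D2 mx hL bd0 bd2 n1 n2 n3 (by clear * - b0; omega) (by clear * - b1; omega) (by clear * - b2; omega) (by clear * - b3; omega) (by clear * - b4; omega) (by clear * - b5; omega) (by clear * - z28; omega)
  · exact t2c_14 al hy a1 a2 s1 s2 b tt c u1 u2 D1 D2 mx hL bd0 bd2 n1 n2 n3 (by clear * - b0; omega) (by clear * - b1; omega) (by clear * - b2; omega) (by clear * - b3; omega) (by clear * - b4; omega) (by clear * - z28; omega)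

theorem t2c_11 {W : ℤ → G} {n Q i j k l i2 l2 i3 : ℤ} (al : AL W n Q)
    (hy : (0) ≤ (i) ∧ (i) ≤ (j) ∧ (j + 1) ≤ (Q) ∧ (Q) ≤ (k) ∧ (k + 1) ≤ (n) ∧ (Q) ≤ (i + l + 1) ∧ (k + l + 2) ≤ (n) ∧ (Q) ≤ (i2) ∧ (i2) ≤ (i + l + 1) ∧ (Q) ≤ (i2 + l2 + 1) ∧ (i2 + l2 + 2) ≤ (n) ∧ (n) ≤ (k + l + l2 + 2) ∧ (k + l + l2 + 3) ≤ (n + Q) ∧ (0) ≤ (i3) ∧ (n + i3) ≤ (k + l + l2 + 2) ∧ (k + i2 + l2 + 2) ≤ (n + j + i3) ∧ (j + i3 + 1) ≤ (k) ∧ (k + i2 + l2 + 2) ≤ (n + i3) ∧ (i + 2 * i2 + 1) ≤ (2 * Q + k) ∧ (i + l + 1) ≤ (i2 + l2) ∧ (k + l + 1) ≤ (i2 + l2) ∧ (2 * k + 2 * l + 3) ≤ (n + i2) ∧ (i + 1) ≤ (i3))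
    (a1 : Par W (0) (j) (k - j))
    (a2 : Par W (Q + j - k) (j) (k - j))
    (s1 : Ant W (0) (i) (i + j))
    (s2 : Ant W (j + 1) (Q) (i + j))
    (b : Par W (i + 1) (i + l + 1) (k - i))
    (tt : Ant W (Q) (i2) (i + l + i2 + 1))
    (c : Par W (i2 + 1) (i2 + l2 + 1) (k + l - i2 + 1))
    (u1 : Ant W (0) (i3) (k + l + l2 + i3 - n + 2))
    (u2 : Ant W (k + l + l2 - n + 3) (Q) (k + l + l2 + i3 - n + 2))
    (D1 : Par W (i3 + 1) (Q) (i2 + l2 - i3 + 1))
    (D2 : Par W (i2 + l2 + 2) (n) (i3 - i2 - l2 - 1))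
    {L : ℤ} (mx : ∀ a b g, 0 < g → g < n → Par W a b g → b - a ≤ L)
    (hL : L ≤ (n - j - 3) ∧ L ≤ (n + Q - k - 3) ∧ L ≤ (n - l - 3) ∧ L ≤ (n + i - k - 2) ∧ L ≤ (n - l2 - 3) ∧ L ≤ (n + i3 - Q - 2) ∧ L ≤ (i2 + l2 - 1) ∧ L ≤ (n + i2 - k - l - 3) ∧ L ≤ (Q + i2 + l2 - i - l - 3))
    (bd0 : Bd W n L (j) (i) (k))
    (bd2 : Bd W n L (k + l + l2 - n + 2) (i3) (i2 + l2 + 1))
    (n1 : Nd W (j) (i) (k))
    (n2 : Nd W (i + l + 1) (i2) (k + l + 1))
    (n3 : Nd W (k + l + l2 - n + 2) (i3) (i2 + l2 + 1))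
    (b0 : (2 * l2 + 3) ≤ (n))
    (b1 : (2 * Q + i2 + l2) ≤ (n + i + j + i3))
    (b2 : (2 * i + l + i2 + 2) ≤ (2 * Q + k))
    (b3 : (j + l + l2 + i3 + 3) ≤ (n))
    (b4 : (i + k + 2 * l + 3) ≤ (Q + i2 + l2))
    (b5 : (n + i + j) ≤ (k + l + l2 + i3 + 2)) : False := by
  have ev := al.ev
  obtain ⟨y0, y1, y2, y3, y4, y5, y6, y7, y8, y9, y10, y11, y12, y13, y14, y15, y16, y17, y18, y19, y20, y21, y22⟩ := id hy
  have n1p := And.intro n1.p1 n1.p2
  have n2p := And.intro n2.p1 n2.p2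
  have n3p := And.intro n3.p1 n3.p2
  by_cases z27 : (k + l + l2 + i3 + 2) ≤ (n + i + j)
  · have kk291 : (k + l + l2 + i3 + 3) ≤ (n + Q + i) := by clear * - y2 z27; omega
    have kk292 : (i + 1) ≤ (i3) := by clear * - y22; omega
    have kk293 : (n + i + j) ≤ (k + l + l2 + i3 + 2) := by clear * - b5; omega
    have kk294 : (k + l + l2 + i3 + 2) ≤ (n + i + j) := by clear * - z27; omega
    clear * - al u2 n1 kk291 kk292 kk293 kk294
    exact n1.f2 (ab u2 al 0 (i) (j) (by omega))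
  · exact t2c_12 al hy a1 a2 s1 s2 b tt c u1 u2 D1 D2 mx hL bd0 bd2 n1 n2 n3 (by clear * - b0; omega) (by clear * - b1; omega) (by clear * - b2; omega) (by clear * - b3; omega) (by clear * - b4; omega) (by clear * - z27; omega)

theorem t2c_31 {W : ℤ → G} {n Q i j k l i2 l2 i3 : ℤ} (al : AL W n Q)
    (hy : (0) ≤ (i) ∧ (i) ≤ (j) ∧ (j + 1) ≤ (Q) ∧ (Q) ≤ (k) ∧ (k + 1) ≤ (n) ∧ (Q) ≤ (i + l + 1) ∧ (k + l + 2) ≤ (n) ∧ (Q) ≤ (i2) ∧ (i2) ≤ (i + l + 1) ∧ (Q) ≤ (i2 + l2 + 1) ∧ (i2 + l2 + 2) ≤ (n) ∧ (n) ≤ (k + l + l2 + 2) ∧ (k + l + l2 + 3) ≤ (n + Q) ∧ (0) ≤ (i3) ∧ (n + i3) ≤ (k + l + l2 + 2) ∧ (k + i2 + l2 + 2) ≤ (n + j + i3) ∧ (j + i3 + 1) ≤ (k) ∧ (k + i2 + l2 + 2) ≤ (n + i3) ∧ (i + 2 * i2 + 1) ≤ (2 * Q + k) ∧ (i + l + 1) ≤ (i2 + l2) ∧ (k + l + 1) ≤ (i2 + l2) ∧ (2 * k + 2 * l + 3) ≤ (n + i2) ∧ (i + 1) ≤ (i3))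
    (a1 : Par W (0) (j) (k - j))
    (a2 : Par W (Q + j - k) (j) (k - j))
    (s1 : Ant W (0) (i) (i + j))
    (s2 : Ant W (j + 1) (Q) (i + j))
    (b : Par W (i + 1) (i + l + 1) (k - i))
    (tt : Ant W (Q) (i2) (i + l + i2 + 1))
    (c : Par W (i2 + 1) (i2 + l2 + 1) (k + l - i2 + 1))
    (u1 : Ant W (0) (i3) (k + l + l2 + i3 - n + 2))
    (u2 : Ant W (k + l + l2 - n + 3) (Q) (k + l + l2 + i3 - n + 2))
    (D1 : Par W (i3 + 1) (Q) (i2 + l2 - i3 + 1))
    (D2 : Par W (i2 + l2 + 2) (n) (i3 - i2 - l2 - 1))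
    {L : ℤ} (mx : ∀ a b g, 0 < g → g < n → Par W a b g → b - a ≤ L)
    (hL : L ≤ (n - j - 3) ∧ L ≤ (n + Q - k - 3) ∧ L ≤ (n - l - 3) ∧ L ≤ (n + i - k - 2) ∧ L ≤ (n - l2 - 3) ∧ L ≤ (n + i3 - Q - 2) ∧ L ≤ (i2 + l2 - 1) ∧ L ≤ (n + i2 - k - l - 3) ∧ L ≤ (Q + i2 + l2 - i - l - 3))
    (bd0 : Bd W n L (j) (i) (k))
    (bd2 : Bd W n L (k + l + l2 - n + 2) (i3) (i2 + l2 + 1))
    (n1 : Nd W (j) (i) (k))
    (n2 : Nd W (i + l + 1) (i2) (k + l + 1))
    (n3 : Nd W (k + l + l2 - n + 2) (i3) (i2 + l2 + 1))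
    (b0 : (2 * l2 + 3) ≤ (n))
    (b1 : (2 * Q + i2) ≤ (k + l + 2 * i3 + 1))
    (b2 : (2 * i + l + i2 + 2) ≤ (2 * Q + k))
    (b3 : (j + l + l2 + i3 + 3) ≤ (n))
    (b4 : (i + k + 2 * l + 3) ≤ (Q + i2 + l2))
    (b5 : (k + l + l2 + i3 + 3) ≤ (n + i + j))
    (b6 : (2 * Q + k + 2 * i2 + l2) ≤ (n + i + j + l + 3 * i3 + 1))
    (b7 : (j + i2) ≤ (l + 2 * i3 + 1)) : False := by
  have ev := al.ev
  obtain ⟨y0, y1, y2, y3, y4, y5, y6, y7, y8, y9, y10, y11, y12, y13, y14, y15, y16, y17, y18, y19, y20, y21, y22⟩ := id hy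
  have n1p := And.intro n1.p1 n1.p2
  have n2p := And.intro n2.p1 n2.p2
  have n3p := And.intro n3.p1 n3.p2
  by_cases z87 : (2 * i2 + l2) ≤ (k + 2 * l + i3 + 1)
  · have kk1603 : (k + l + 1) ≤ (i2 + l2) := by clear * - y20; omega
    have kk1604 : (i2) ≤ (k + l) := by clear * - b0 b1 b4 b5 b7 y14; omega
    have kk1605 : (i + 1) ≤ (k) := by clear * - b0 b1 b4 b5 b7 y14; omega
    have kk1606 : (0) ≤ (l) := by clear * - b0 y14 y20 z87; omega
    have kk1607 : (i + 1) ≤ (i3) := by clear * - y22; omega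
    have kk1608 : (i3) ≤ (k + l) := by clear * - b0 b1 b4 b5 b7 y14 y20; linarith
    have kk1609 : (i + k + l + 1) ≤ (2 * i2 + l2) := by clear * - b0 y14 y20 y22; omega
    have kk1610 : (2 * i2 + l2) ≤ (2 * k + 2 * l) := by clear * - b0 b1 b2 b5 b7 y14; omega
    have kk1611 : (2 * i2 + l2) ≤ (k + 2 * l + i3 + 1) := by clear * - z87; omega
    have kk1612 : (k + l) ≤ (i2 + l2) := by clear * - y20; omega
    have kk1613 : (n) ≤ (k + l + l2 + 2) := by clear * - y13 y14; omega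
    have kk1614 : (i) ≤ (i3) := by clear * - y22; omega
    have kk1615 : (i + k + l) ≤ (2 * i2 + l2) := by clear * - b0 y14 y20 y22; omega
    have kk1616 : (2 * k + 2 * l + 2) ≤ (n + i2) := by clear * - y21; omega
    have kk1617 : (k + l + i3) ≤ (2 * i2 + l2) := by clear * - b0 y14 y20; omega
    have kk1618 : (l2 + i3 + 2) ≤ (n) := by clear * - b0 b1 b4 b5 b7 y14 y21; linarith
    have kk1619 : (0) ≤ (i + 1) := by clear * - y0; omega
    have kk1620 : (n + i) ≤ (k + l + l2 + 2) := by clear * - y14 y22; omega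
    have kk1621 : (i3) ≤ (k + l + 1) := by clear * - b0 b1 b4 b5 b7 y14 y20; linarith
    have r1622 : (2 * i2 + l2 - k - l - i3) % 2 = 0 := by clear * - ev n1p n2p n3p; omega
    have r1623 : (k - i) % 2 = 0 := by clear * - ev n1p n2p n3p; omega
    have r1624 : (k + l + l2 + i3 - 3 * n + 2) % 2 = 0 := by clear * - ev n1p n2p n3p; omega
    clear * - al b c u1 D2 n3 kk1603 kk1604 kk1605 kk1606 kk1607 kk1608 kk1609 kk1610 kk1611 kk1612 kk1613 kk1614 kk1615 kk1616 kk1617 kk1618 kk1619 kk1620 kk1621 r1622 r1623 r1624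
    exact ivt al.ninv (i - n + 1) (i + l - n + 1) (k - i) (i3 - n + 1) (2 * k + 2 * l + i3 - n - 2 * i2 - l2 + 1) (2 * i2 + l2 - k - l - i3) (i3 - n) (2 * i2 + l2 - n - k - l) 0 (fun t h1 h2 => (cE (qf b al (-1) t (t + (n + k - i)) (by omega)) (sh al (-1) (t + (n + k - i)) (t + (k - i)) (by omega)))) (fun t h1 h2 => (cE (cE (pb D2 al (-1) t (t + (n + i2 + l2 - i3 + 1)) (by omega)) (pb c al 0 (t + (n + i2 + l2 - i3 + 1)) (t + (n + 2 * i2 + l2 - k - l - i3)) (by omega))) (sh al (-1) (t + (n + 2 * i2 + l2 - k - l - i3)) (t + (2 * i2 + l2 - k - l - i3)) (by omega)))) (fun hh => n3.f1 (rEE (sh al (-1) (i3) (i3 - n) (by omega)) (cE (pb c al 0 (i2 + l2 + 1) (2 * i2 + l2 - k - l) (by omega)) (sh al (-1) (2 * i2 + l2 - k - l) (2 * i2 + l2 - n - k - l) (by omega))) (Eq.symm hh))) (by omega) (i - n + 1) (i3 - n) (k + l + l2 + i3 - 3 * n + 2) 0 (-1) (fun t h1 h2 => (cE (qa u1 al (-1) t ((k + l + l2 + i3 - 2 * n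 + 2) - t) (by omega)) (sh al (-1) ((k + l + l2 + i3 - 2 * n + 2) - t) ((k + l + l2 + i3 - 3 * n + 2) - t) (by omega)))) (by omega)
  · exact t2c_32 al hy a1 a2 s1 s2 b tt c u1 u2 D1 D2 mx hL bd0 bd2 n1 n2 n3 (by clear * - b0; omega) (by clear * - b1; omega) (by clear * - b2; omega) (by clear * - b3; omega) (by clear * - b4; omega) (by clear * - b5; omega) (by clear * - b6; omega) (by clear * - b7; omega) (by clear * - z87; omega)

theorem t2c_30 {W : ℤ → G} {n Q i j k l i2 l2 i3 : ℤ} (al : AL W n Q)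
    (hy : (0) ≤ (i) ∧ (i) ≤ (j) ∧ (j + 1) ≤ (Q) ∧ (Q) ≤ (k) ∧ (k + 1) ≤ (n) ∧ (Q) ≤ (i + l + 1) ∧ (k + l + 2) ≤ (n) ∧ (Q) ≤ (i2) ∧ (i2) ≤ (i + l + 1) ∧ (Q) ≤ (i2 + l2 + 1) ∧ (i2 + l2 + 2) ≤ (n) ∧ (n) ≤ (k + l + l2 + 2) ∧ (k + l + l2 + 3) ≤ (n + Q) ∧ (0) ≤ (i3) ∧ (n + i3) ≤ (k + l + l2 + 2) ∧ (k + i2 + l2 + 2) ≤ (n + j + i3) ∧ (j + i3 + 1) ≤ (k) ∧ (k + i2 + l2 + 2) ≤ (n + i3) ∧ (i + 2 * i2 + 1) ≤ (2 * Q + k) ∧ (i + l + 1) ≤ (i2 + l2) ∧ (k + l + 1) ≤ (i2 + l2) ∧ (2 * k + 2 * l + 3) ≤ (n + i2) ∧ (i + 1) ≤ (i3))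
    (a1 : Par W (0) (j) (k - j))
    (a2 : Par W (Q + j - k) (j) (k - j))
    (s1 : Ant W (0) (i) (i + j))
    (s2 : Ant W (j + 1) (Q) (i + j))
    (b : Par W (i + 1) (i + l + 1) (k - i))
    (tt : Ant W (Q) (i2) (i + l + i2 + 1))
    (c : Par W (i2 + 1) (i2 + l2 + 1) (k + l - i2 + 1))
    (u1 : Ant W (0) (i3) (k + l + l2 + i3 - n + 2))
    (u2 : Ant W (k + l + l2 - n + 3) (Q) (k + l + l2 + i3 - n + 2))
    (D1 : Par W (i3 + 1) (Q) (i2 + l2 - i3 + 1))
    (D2 : Par W (i2 + l2 + 2) (n) (i3 - i2 - l2 - 1))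
    {L : ℤ} (mx : ∀ a b g, 0 < g → g < n → Par W a b g → b - a ≤ L)
    (hL : L ≤ (n - j - 3) ∧ L ≤ (n + Q - k - 3) ∧ L ≤ (n - l - 3) ∧ L ≤ (n + i - k - 2) ∧ L ≤ (n - l2 - 3) ∧ L ≤ (n + i3 - Q - 2) ∧ L ≤ (i2 + l2 - 1) ∧ L ≤ (n + i2 - k - l - 3) ∧ L ≤ (Q + i2 + l2 - i - l - 3))
    (bd0 : Bd W n L (j) (i) (k))
    (bd2 : Bd W n L (k + l + l2 - n + 2) (i3) (i2 + l2 + 1))
    (n1 : Nd W (j) (i) (k))
    (n2 : Nd W (i + l + 1) (i2) (k + l + 1))
    (n3 : Nd W (k + l + l2 - n + 2) (i3) (i2 + l2 + 1))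
    (b0 : (2 * l2 + 3) ≤ (n))
    (b1 : (2 * Q + i2) ≤ (k + l + 2 * i3 + 1))
    (b2 : (2 * i + l + i2 + 2) ≤ (2 * Q + k))
    (b3 : (j + l + l2 + i3 + 3) ≤ (n))
    (b4 : (i + k + 2 * l + 3) ≤ (Q + i2 + l2))
    (b5 : (k + l + l2 + i3 + 3) ≤ (n + i + j))
    (b6 : (2 * Q + k + 2 * i2 + l2) ≤ (n + i + j + l + 3 * i3 + 1)) : False := by
  have ev := al.ev
  obtain ⟨y0, y1, y2, y3, y4, y5, y6, y7, y8, y9, y10, y11, y12, y13, y14, y15, y16, y17, y18, y19, y20, y21, y22⟩ := id hy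
  have n1p := And.intro n1.p1 n1.p2
  have n2p := And.intro n2.p1 n2.p2
  have n3p := And.intro n3.p1 n3.p2
  by_cases z86 : (l + 2 * i3 + 2) ≤ (j + i2)
  · have kk1596 : (l + 2 * i3 + 3) ≤ (j + i2) := by clear * - z86 ev n1p n2p n3p; omega
    have kk1597 : (2 * k + l + i2 + 2 * l2 + 4) ≤ (2 * n + j) := by clear * - y17 z86; omega
    have kk1598 : (j + i2) ≤ (k + l + i3 + 1) := by clear * - b3 y13 y14 y17; omega
    have kk1599 : (j) ≤ (Q) := by clear * - y2; omega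
    have kk1600 : (0) ≤ (i3) := by clear * - y13; omega
    have kk1601 : (n) ≤ (k + l + l2 + i3 + 3) := by clear * - y13 y14; omega
    have r1602 : (2 * k + l + 2 * i3 - 2 * n - j - i2 + 1) % 2 = 0 := by clear * - ev n1p n2p n3p; omega
    clear * - al a1 u2 D2 kk1596 kk1597 kk1598 kk1599 kk1600 kk1601 r1602
    obtain ⟨t, ht⟩ : ∃ t, 2 * t = (2 * k + l + 2 * i3 - 2 * n - j - i2 + 1) := ⟨(2 * k + l + 2 * i3 - 2 * n - j - i2 + 1) / 2, by omega⟩
    exact al.ninv t (cE (cE (cI (pb D2 al (-1) t (t + (n + i2 + l2 - i3 + 1)) (by omega)) (ab u2 al 1 (t + (n + i2 + l2 - i3 + 1)) ((k + l + 2 * i3 - n - i2 + 1) - t) (by omega))) (qf a1 al 0 ((k + l + 2 * i3 - n - i2 + 1) - t) ((2 * k + l + 2 * i3 - n - j - i2 + 1) - t) (by omega))) (sh al (-1) ((2 * k + l + 2 * i3 - n - j - i2 + 1) - t) t (by omega)))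
  · exact t2c_31 al hy a1 a2 s1 s2 b tt c u1 u2 D1 D2 mx hL bd0 bd2 n1 n2 n3 (by clear * - b0; omega) (by clear * - b1; omega) (by clear * - b2; omega) (by clear * - b3; omega) (by clear * - b4; omega) (by clear * - b5; omega) (by clear * - b6; omega) (by clear * - z86; omega)

theorem t2c_29 {W : ℤ → G} {n Q i j k l i2 l2 i3 : ℤ} (al : AL W n Q)
    (hy : (0) ≤ (i) ∧ (i) ≤ (j) ∧ (j + 1) ≤ (Q) ∧ (Q) ≤ (k) ∧ (k + 1) ≤ (n) ∧ (Q) ≤ (i + l + 1) ∧ (k + l + 2) ≤ (n) ∧ (Q) ≤ (i2) ∧ (i2) ≤ (i + l + 1) ∧ (Q) ≤ (i2 + l2 + 1) ∧ (i2 + l2 + 2) ≤ (n) ∧ (n) ≤ (k + l + l2 + 2) ∧ (k + l + l2 + 3) ≤ (n + Q) ∧ (0) ≤ (i3) ∧ (n + i3) ≤ (k + l + l2 + 2) ∧ (k + i2 + l2 + 2) ≤ (n + j + i3) ∧ (j + i3 + 1) ≤ (k) ∧ (k + i2 + l2 + 2) ≤ (n + i3) ∧ (i + 2 * i2 + 1) ≤ (2 * Q + k) ∧ (i + l + 1) ≤ (i2 + l2) ∧ (k + l + 1) ≤ (i2 + l2) ∧ (2 * k + 2 * l + 3) ≤ (n + i2) ∧ (i + 1) ≤ (i3))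
    (a1 : Par W (0) (j) (k - j))
    (a2 : Par W (Q + j - k) (j) (k - j))
    (s1 : Ant W (0) (i) (i + j))
    (s2 : Ant W (j + 1) (Q) (i + j))
    (b : Par W (i + 1) (i + l + 1) (k - i))
    (tt : Ant W (Q) (i2) (i + l + i2 + 1))
    (c : Par W (i2 + 1) (i2 + l2 + 1) (k + l - i2 + 1))
    (u1 : Ant W (0) (i3) (k + l + l2 + i3 - n + 2))
    (u2 : Ant W (k + l + l2 - n + 3) (Q) (k + l + l2 + i3 - n + 2))
    (D1 : Par W (i3 + 1) (Q) (i2 + l2 - i3 + 1))
    (D2 : Par W (i2 + l2 + 2) (n) (i3 - i2 - l2 - 1))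
    {L : ℤ} (mx : ∀ a b g, 0 < g → g < n → Par W a b g → b - a ≤ L)
    (hL : L ≤ (n - j - 3) ∧ L ≤ (n + Q - k - 3) ∧ L ≤ (n - l - 3) ∧ L ≤ (n + i - k - 2) ∧ L ≤ (n - l2 - 3) ∧ L ≤ (n + i3 - Q - 2) ∧ L ≤ (i2 + l2 - 1) ∧ L ≤ (n + i2 - k - l - 3) ∧ L ≤ (Q + i2 + l2 - i - l - 3))
    (bd0 : Bd W n L (j) (i) (k))
    (bd2 : Bd W n L (k + l + l2 - n + 2) (i3) (i2 + l2 + 1))
    (n1 : Nd W (j) (i) (k))
    (n2 : Nd W (i + l + 1) (i2) (k + l + 1))
    (n3 : Nd W (k + l + l2 - n + 2) (i3) (i2 + l2 + 1))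
    (b0 : (2 * l2 + 3) ≤ (n))
    (b1 : (2 * Q + i2) ≤ (k + l + 2 * i3 + 1))
    (b2 : (2 * i + l + i2 + 2) ≤ (2 * Q + k))
    (b3 : (j + l + l2 + i3 + 3) ≤ (n))
    (b4 : (i + k + 2 * l + 3) ≤ (Q + i2 + l2))
    (b5 : (k + l + l2 + i3 + 3) ≤ (n + i + j)) : False := by
  have ev := al.ev
  obtain ⟨y0, y1, y2, y3, y4, y5, y6, y7, y8, y9, y10, y11, y12, y13, y14, y15, y16, y17, y18, y19, y20, y21, y22⟩ := id hy
  have n1p := And.intro n1.p1 n1.p2
  have n2p := And.intro n2.p1 n2.p2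
  have n3p := And.intro n3.p1 n3.p2
  by_cases z85 : (n + i + j + l + 3 * i3 + 2) ≤ (2 * Q + k + 2 * i2 + l2)
  · by_cases v66 : (Q + i2) ≤ (j + l + 2 * i3 + 2)
    · have kk1569 : (k + l + l2 + i3 + 3) ≤ (n + i + j) := by clear * - b5; omega
      have kk1570 : (n + i + j + l + 3 * i3 + 2) ≤ (2 * Q + k + 2 * i2 + l2) := by clear * - z85; omega
      have kk1571 : (k + l + l2 + i3 + 4) ≤ (n + i + j) := by clear * - b5 ev n1p n2p n3p; omega
      have kk1572 : (0) ≤ (i3) := by clear * - y13; omega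
      have kk1573 : (k + i2 + l2 + 1) ≤ (n + i3) := by clear * - y17; omega
      have kk1574 : (j + i3 + 1) ≤ (k) := by clear * - y16; omega
      have kk1575 : (Q + i2) ≤ (j + l + 2 * i3 + 2) := by clear * - v66; omega
      have kk1576 : (i) ≤ (i3) := by clear * - y22; omega
      have kk1577 : (k + l + l2 + i3 + 2) ≤ (n + i + j) := by clear * - b5; omega
      have kk1578 : (k + i2 + l2 + 1) ≤ (n + i + i3) := by clear * - y0 y17; omega
      have kk1579 : (j) ≤ (Q) := by clear * - y2; omega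
      have r1580 : (j + l + 2 * i3 - 2 * n - i2 + 1) % 2 = 0 := by clear * - ev n1p n2p n3p; omega
      have r1581 : (n + i + j - k - l - l2 - i3 - 2) % 2 = 0 := by clear * - ev n1p n2p n3p; omega
      clear * - al a1 s2 u2 D2 kk1569 kk1570 kk1571 kk1572 kk1573 kk1574 kk1575 kk1576 kk1577 kk1578 kk1579 r1580 r1581
      exact midP al (n + i + j - k - l - l2 - i3 - 2) (j + l + 2 * i3 - 2 * n - i2 + 1) (l + 2 * i3 - n - i2 + 2) (k + l + l2 + i3 - 2 * n - i + 3) (Q - n) (by omega) (fun t h1 h2 => (cE (cE (cE (qa u2 al (-1) t ((k + l + l2 + i3 - 2 * n + 2) - t) (by omega)) (qf D2 al (-1) ((k + l + l2 + i3 - 2 * n + 2) - t) ((k + l + 2 * i3 - n - i2 + 1) - t) (by omega))) (pb a1 al 0 ((k + l + 2 * i3 - n - i2 + 1) - t) ((j + l + 2 * i3 - n - i2 + 1) - t) (by omega))) (sh al (-1) ((j + l + 2 * i3 - n - i2 + 1) - t) ((j + l + 2 * i3 - 2 * n - i2 + 1) - t) (by omega)))) (fun t h1 h2 => (cE (cII (qa u2 al (-1)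 t ((k + l + l2 + i3 - 2 * n + 2) - t) (by omega)) (ab s2 al 0 ((k + l + l2 + i3 - 2 * n + 2) - t) (t + (2 * n + i + j - k - l - l2 - i3 - 2)) (by omega))) (sh al (-1) (t + (2 * n + i + j - k - l - l2 - i3 - 2)) (t + (n + i + j - k - l - l2 - i3 - 2)) (by omega))))
    · have kk1582 : (k + l + l2 + i3 + 3) ≤ (n + i + j) := by clear * - b5; omega
      have kk1583 : (n + i) ≤ (j + k + l + l2 + i3 + 2) := by clear * - b5 y13 y14 y22; omega
      have kk1584 : (k + l + l2 + i3 + 4) ≤ (n + i + j) := by clear * - b5 ev n1p n2p n3p; omega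
      have kk1585 : (n + i + j + l + 3 * i3 + 2) ≤ (2 * Q + k + 2 * i2 + l2) := by clear * - z85; omega
      have kk1586 : (0) ≤ (i3) := by clear * - y13; omega
      have kk1587 : (k + i2 + l2 + 1) ≤ (n + i3) := by clear * - y17; omega
      have kk1588 : (j + i3 + 1) ≤ (k) := by clear * - y16; omega
      have kk1589 : (j + l + 2 * i3 + 2) ≤ (Q + i2) := by clear * - v66; omega
      have kk1590 : (i) ≤ (i3) := by clear * - y22; omega
      have kk1591 : (k + l + l2 + i3 + 2) ≤ (n + i + j) := by clear * - b5; omega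
      have kk1592 : (k + i2 + l2 + 1) ≤ (n + i + i3) := by clear * - y0 y17; omega
      have kk1593 : (j) ≤ (Q) := by clear * - v66 y13 y14 y17; omega
      have r1594 : (j + l + 2 * i3 - 2 * n - i2 + 1) % 2 = 0 := by clear * - ev n1p n2p n3p; omega
      have r1595 : (n + i + j - k - l - l2 - i3 - 2) % 2 = 0 := by clear * - ev n1p n2p n3p; omega
      clear * - al a1 s2 u2 D2 kk1582 kk1583 kk1584 kk1585 kk1586 kk1587 kk1588 kk1589 kk1590 kk1591 kk1592 kk1593 r1594 r1595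
      exact midP al (n + i + j - k - l - l2 - i3 - 2) (j + l + 2 * i3 - 2 * n - i2 + 1) (l + 2 * i3 - n - i2 + 2) (k + l + l2 + i3 - 2 * n - i + 3) (Q - n) (by omega) (fun t h1 h2 => (cE (cE (cE (qa u2 al (-1) t ((k + l + l2 + i3 - 2 * n + 2) - t) (by omega)) (qf D2 al (-1) ((k + l + l2 + i3 - 2 * n + 2) - t) ((k + l + 2 * i3 - n - i2 + 1) - t) (by omega))) (pb a1 al 0 ((k + l + 2 * i3 - n - i2 + 1) - t) ((j + l + 2 * i3 - n - i2 + 1) - t) (by omega))) (sh al (-1) ((j + l + 2 * i3 - n - i2 + 1) - t) ((j + l + 2 * i3 - 2 * n - i2 + 1) - t) (by omega)))) (fun t h1 h2 => (cE (cII (qa u2 al (-1) t ((k + l + l2 + i3 - 2 * n + 2) - t) (by omega)) (ab s2 al 0 ((k + l + l2 + i3 - 2 * n + 2) - t) (t + (2 * n + i + j - k - l - l2 - i3 - 2)) (by omega))) (sh al (-1) (t + (2 * n + i + j - k - l - l2 - i3 - 2)) (t + (n + i + j - k - l - l2 - i3 - 2)) (by omega))))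
  · exact t2c_30 al hy a1 a2 s1 s2 b tt c u1 u2 D1 D2 mx hL bd0 bd2 n1 n2 n3 (by clear * - b0; omega) (by clear * - b1; omega) (by clear * - b2; omega) (by clear * - b3; omega) (by clear * - b4; omega) (by clear * - b5; omega) (by clear * - z85; omega)

theorem t2c_10 {W : ℤ → G} {n Q i j k l i2 l2 i3 : ℤ} (al : AL W n Q)
    (hy : (0) ≤ (i) ∧ (i) ≤ (j) ∧ (j + 1) ≤ (Q) ∧ (Q) ≤ (k) ∧ (k + 1) ≤ (n) ∧ (Q) ≤ (i + l + 1) ∧ (k + l + 2) ≤ (n) ∧ (Q) ≤ (i2) ∧ (i2) ≤ (i + l + 1) ∧ (Q) ≤ (i2 + l2 + 1) ∧ (i2 + l2 + 2) ≤ (n) ∧ (n) ≤ (k + l + l2 + 2) ∧ (k + l + l2 + 3) ≤ (n + Q) ∧ (0) ≤ (i3) ∧ (n + i3) ≤ (k + l + l2 + 2) ∧ (k + i2 + l2 + 2) ≤ (n + j + i3) ∧ (j + i3 + 1) ≤ (k) ∧ (k + i2 + l2 + 2) ≤ (n + i3) ∧ (i + 2 * i2 + 1) ≤ (2 * Q + k) ∧ (i + l + 1) ≤ (i2 + l2) ∧ (k + l + 1) ≤ (i2 + l2) ∧ (2 * k + 2 * l + 3) ≤ (n + i2) ∧ (i + 1) ≤ (i3))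
    (a1 : Par W (0) (j) (k - j))
    (a2 : Par W (Q + j - k) (j) (k - j))
    (s1 : Ant W (0) (i) (i + j))
    (s2 : Ant W (j + 1) (Q) (i + j))
    (b : Par W (i + 1) (i + l + 1) (k - i))
    (tt : Ant W (Q) (i2) (i + l + i2 + 1))
    (c : Par W (i2 + 1) (i2 + l2 + 1) (k + l - i2 + 1))
    (u1 : Ant W (0) (i3) (k + l + l2 + i3 - n + 2))
    (u2 : Ant W (k + l + l2 - n + 3) (Q) (k + l + l2 + i3 - n + 2))
    (D1 : Par W (i3 + 1) (Q) (i2 + l2 - i3 + 1))
    (D2 : Par W (i2 + l2 + 2) (n) (i3 - i2 - l2 - 1))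
    {L : ℤ} (mx : ∀ a b g, 0 < g → g < n → Par W a b g → b - a ≤ L)
    (hL : L ≤ (n - j - 3) ∧ L ≤ (n + Q - k - 3) ∧ L ≤ (n - l - 3) ∧ L ≤ (n + i - k - 2) ∧ L ≤ (n - l2 - 3) ∧ L ≤ (n + i3 - Q - 2) ∧ L ≤ (i2 + l2 - 1) ∧ L ≤ (n + i2 - k - l - 3) ∧ L ≤ (Q + i2 + l2 - i - l - 3))
    (bd0 : Bd W n L (j) (i) (k))
    (bd2 : Bd W n L (k + l + l2 - n + 2) (i3) (i2 + l2 + 1))
    (n1 : Nd W (j) (i) (k))
    (n2 : Nd W (i + l + 1) (i2) (k + l + 1))
    (n3 : Nd W (k + l + l2 - n + 2) (i3) (i2 + l2 + 1))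
    (b0 : (2 * l2 + 3) ≤ (n))
    (b1 : (2 * Q + i2) ≤ (k + l + 2 * i3 + 1))
    (b2 : (2 * Q + i2 + l2) ≤ (n + i + j + i3))
    (b3 : (2 * i + l + i2 + 2) ≤ (2 * Q + k))
    (b4 : (j + l + l2 + i3 + 3) ≤ (n))
    (b5 : (i + k + 2 * l + 3) ≤ (Q + i2 + l2)) : False := by
  have ev := al.ev
  obtain ⟨y0, y1, y2, y3, y4, y5, y6, y7, y8, y9, y10, y11, y12, y13, y14, y15, y16, y17, y18, y19, y20, y21, y22⟩ := id hy
  have n1p := And.intro n1.p1 n1.p2
  have n2p := And.intro n2.p1 n2.p2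
  have n3p := And.intro n3.p1 n3.p2
  by_cases z26 : (n + i + j) ≤ (k + l + l2 + i3 + 2)
  · exact t2c_11 al hy a1 a2 s1 s2 b tt c u1 u2 D1 D2 mx hL bd0 bd2 n1 n2 n3 (by clear * - b0; omega) (by clear * - b2; omega) (by clear * - b3; omega) (by clear * - b4; omega) (by clear * - b5; omega) (by clear * - z26; omega)
  · exact t2c_29 al hy a1 a2 s1 s2 b tt c u1 u2 D1 D2 mx hL bd0 bd2 n1 n2 n3 (by clear * - b0; omega) (by clear * - b1; omega) (by clear * - b3; omega) (by clear * - b4; omega) (by clear * - b5; omega) (by clear * - z26; omega)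

end Pool.Agent.MP_a38735_al.WL
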